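import Pool.Agent.Lib.MP_6947cd_al.ZB.Pre

/-!
Problem MP_6947cd_al (Chollet).  Case B, second entry in [2/5, 17/20]: certificates of the tree, part P063 (generated).
-/

set_option autoImplicit false
set_option linter.all false

namespace Pool.Agent.Lib.MP_6947cd_al
namespace B2

open Ent Fr B1 PkA

noncomputable def p063_k0 : C1.Kn := ⟨[nat_lit 60, nat_lit 80, nat_lit 100], [nat_lit 0, nat_lit 0, nat_lit 534], [(nat_lit 0, nat_lit 0, nat_lit 0), (nat_lit 0, nat_lit 0, nat_lit 0), (nat_lit 1000, nat_lit 917, nat_lit 393)], (nat_lit 92, nat_lit 100, nat_lit 28)⟩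
noncomputable def p063_k1 : C1.Kn := ⟨[nat_lit 60, nat_lit 100, nat_lit 120], [nat_lit 0, nat_lit 0, nat_lit 1164], [(nat_lit 0, nat_lit 0, nat_lit 0), (nat_lit 0, nat_lit 0, nat_lit 0), (nat_lit 1000, nat_lit 933, nat_lit 572)], (nat_lit 92, nat_lit 100, nat_lit 44)⟩
noncomputable def p063_k2 : C1.Kn := ⟨[nat_lit 60, nat_lit 100], [nat_lit 0, nat_lit 0], [(nat_lit 0, nat_lit 0, nat_lit 0), (nat_lit 0, nat_lit 0, nat_lit 0)], (nat_lit 92, nat_lit 100, nat_lit 34)⟩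
noncomputable def p063_k3 : C1.Kn := ⟨[nat_lit 60, nat_lit 80, nat_lit 100], [nat_lit 0, nat_lit 151, nat_lit 679], [(nat_lit 0, nat_lit 0, nat_lit 0), (nat_lit 1000, nat_lit 953, nat_lit 118), (nat_lit 1000, nat_lit 894, nat_lit 411)], (nat_lit 89, nat_lit 100, nat_lit 44)⟩
noncomputable def p063_k4 : C1.Kn := ⟨[nat_lit 80, nat_lit 120, nat_lit 140], [nat_lit 0, nat_lit 0, nat_lit 1164], [(nat_lit 0, nat_lit 0, nat_lit 0), (nat_lit 0, nat_lit 0, nat_lit 0), (nat_lit 941, nat_lit 1000, nat_lit 576)], (nat_lit 100, nat_lit 99, nat_lit 44)⟩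
noncomputable def p063_k5 : C1.Kn := ⟨[nat_lit 60, nat_lit 100, nat_lit 120], [nat_lit 0, nat_lit 0, nat_lit 1164], [(nat_lit 0, nat_lit 0, nat_lit 0), (nat_lit 0, nat_lit 0, nat_lit 0), (nat_lit 1000, nat_lit 933, nat_lit 572)], (nat_lit 92, nat_lit 100, nat_lit 51)⟩
noncomputable def p063_k6 : C1.Kn := ⟨[nat_lit 80, nat_lit 120, nat_lit 140], [nat_lit 0, nat_lit 0, nat_lit 1164], [(nat_lit 0, nat_lit 0, nat_lit 0), (nat_lit 0, nat_lit 0, nat_lit 0), (nat_lit 941, nat_lit 1000, nat_lit 576)], (nat_lit 100, nat_lit 96, nat_lit 52)⟩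
noncomputable def p063_k7 : C1.Kn := ⟨[nat_lit 60, nat_lit 80, nat_lit 120], [nat_lit 0, nat_lit 0, nat_lit 1064], [(nat_lit 0, nat_lit 0, nat_lit 0), (nat_lit 0, nat_lit 0, nat_lit 0), (nat_lit 1000, nat_lit 917, nat_lit 415)], (nat_lit 92, nat_lit 100, nat_lit 44)⟩
noncomputable def p063_k8 : C1.Kn := ⟨[nat_lit 80, nat_lit 100, nat_lit 120], [nat_lit 0, nat_lit 265, nat_lit 768], [(nat_lit 0, nat_lit 0, nat_lit 0), (nat_lit 1000, nat_lit 959, nat_lit 206), (nat_lit 1000, nat_lit 958, nat_lit 392)], (nat_lit 96, nat_lit 100, nat_lit 44)⟩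
noncomputable def p063_k9 : C1.Kn := ⟨[nat_lit 60, nat_lit 80, nat_lit 140], [nat_lit 0, nat_lit 0, nat_lit 1595], [(nat_lit 0, nat_lit 0, nat_lit 0), (nat_lit 0, nat_lit 0, nat_lit 0), (nat_lit 1000, nat_lit 917, nat_lit 415)], (nat_lit 94, nat_lit 100, nat_lit 62)⟩
noncomputable def p063_k10 : C1.Kn := ⟨[nat_lit 80, nat_lit 100, nat_lit 140], [nat_lit 0, nat_lit 265, nat_lit 1269], [(nat_lit 0, nat_lit 0, nat_lit 0), (nat_lit 1000, nat_lit 959, nat_lit 206), (nat_lit 1000, nat_lit 958, nat_lit 392)], (nat_lit 100, nat_lit 99, nat_lit 63)⟩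
noncomputable def p063_k11 : C1.Kn := ⟨[nat_lit 60, nat_lit 100, nat_lit 140], [nat_lit 0, nat_lit 0, nat_lit 2047], [(nat_lit 0, nat_lit 0, nat_lit 0), (nat_lit 0, nat_lit 0, nat_lit 0), (nat_lit 1000, nat_lit 993, nat_lit 781)], (nat_lit 94, nat_lit 100, nat_lit 62)⟩
noncomputable def p063_k12 : C1.Kn := ⟨[nat_lit 80, nat_lit 120, nat_lit 140], [nat_lit 0, nat_lit 528, nat_lit 1572], [(nat_lit 0, nat_lit 0, nat_lit 0), (nat_lit 1000, nat_lit 959, nat_lit 206), (nat_lit 966, nat_lit 1000, nat_lit 679)], (nat_lit 100, nat_lit 99, nat_lit 63)⟩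
noncomputable def p063_k13 : C1.Kn := ⟨[nat_lit 60, nat_lit 100, nat_lit 120], [nat_lit 0, nat_lit 302, nat_lit 1376], [(nat_lit 0, nat_lit 0, nat_lit 0), (nat_lit 1000, nat_lit 953, nat_lit 118), (nat_lit 1000, nat_lit 911, nat_lit 628)], (nat_lit 91, nat_lit 100, nat_lit 61)⟩
noncomputable def p063_k14 : C1.Kn := ⟨[nat_lit 60, nat_lit 100, nat_lit 120], [nat_lit 0, nat_lit 0, nat_lit 1164], [(nat_lit 0, nat_lit 0, nat_lit 0), (nat_lit 0, nat_lit 0, nat_lit 0), (nat_lit 1000, nat_lit 933, nat_lit 572)], (nat_lit 93, nat_lit 100, nat_lit 55)⟩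
noncomputable def p063_k15 : C1.Kn := ⟨[nat_lit 60, nat_lit 100, nat_lit 120], [nat_lit 0, nat_lit 302, nat_lit 1376], [(nat_lit 0, nat_lit 0, nat_lit 0), (nat_lit 1000, nat_lit 953, nat_lit 118), (nat_lit 1000, nat_lit 911, nat_lit 628)], (nat_lit 90, nat_lit 100, nat_lit 55)⟩
noncomputable def p063_k16 : C1.Kn := ⟨[nat_lit 80, nat_lit 120, nat_lit 140], [nat_lit 0, nat_lit 528, nat_lit 1572], [(nat_lit 0, nat_lit 0, nat_lit 0), (nat_lit 1000, nat_lit 959, nat_lit 206), (nat_lit 966, nat_lit 1000, nat_lit 679)], (nat_lit 99, nat_lit 100, nat_lit 56)⟩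
noncomputable def p063_k17 : C1.Kn := ⟨[nat_lit 80, nat_lit 120, nat_lit 140], [nat_lit 0, nat_lit 796, nat_lit 1801], [(nat_lit 0, nat_lit 0, nat_lit 0), (nat_lit 1000, nat_lit 938, nat_lit 310), (nat_lit 982, nat_lit 1000, nat_lit 736)], (nat_lit 96, nat_lit 100, nat_lit 56)⟩
noncomputable def p063_k18 : C1.Kn := ⟨[nat_lit 80, nat_lit 120, nat_lit 140], [nat_lit 0, nat_lit 796, nat_lit 1801], [(nat_lit 0, nat_lit 0, nat_lit 0), (nat_lit 1000, nat_lit 938, nat_lit 310), (nat_lit 982, nat_lit 1000, nat_lit 736)], (nat_lit 98, nat_lit 100, nat_lit 63)⟩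
noncomputable def p063_k19 : C1.Kn := ⟨[nat_lit 30, nat_lit 60, nat_lit 80, nat_lit 110], [nat_lit 0, nat_lit 0, nat_lit 0, nat_lit 799], [(nat_lit 0, nat_lit 0, nat_lit 0), (nat_lit 0, nat_lit 0, nat_lit 0), (nat_lit 0, nat_lit 0, nat_lit 0), (nat_lit 1000, nat_lit 917, nat_lit 415)], (nat_lit 92, nat_lit 100, nat_lit 44)⟩
noncomputable def p063_k20 : C1.Kn := ⟨[nat_lit 80, nat_lit 100, nat_lit 140], [nat_lit 0, nat_lit 0, nat_lit 1022], [(nat_lit 0, nat_lit 0, nat_lit 0), (nat_lit 0, nat_lit 0, nat_lit 0), (nat_lit 1000, nat_lit 1000, nat_lit 399)], (nat_lit 100, nat_lit 99, nat_lit 44)⟩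
noncomputable def p063_k21 : C1.Kn := ⟨[nat_lit 80, nat_lit 100, nat_lit 120], [nat_lit 0, nat_lit 0, nat_lit 511], [(nat_lit 0, nat_lit 0, nat_lit 0), (nat_lit 0, nat_lit 0, nat_lit 0), (nat_lit 1000, nat_lit 997, nat_lit 383)], (nat_lit 98, nat_lit 100, nat_lit 28)⟩
noncomputable def p063_k22 : C1.Kn := ⟨[nat_lit 80, nat_lit 100, nat_lit 120], [nat_lit 0, nat_lit 132, nat_lit 640], [(nat_lit 0, nat_lit 0, nat_lit 0), (nat_lit 1000, nat_lit 979, nat_lit 103), (nat_lit 1000, nat_lit 979, nat_lit 397)], (nat_lit 99, nat_lit 100, nat_lit 44)⟩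
noncomputable def p063_k23 : C1.Kn := ⟨[nat_lit 30, nat_lit 60, nat_lit 80], [nat_lit 0, nat_lit 0, nat_lit 151], [(nat_lit 0, nat_lit 0, nat_lit 0), (nat_lit 0, nat_lit 0, nat_lit 0), (nat_lit 1000, nat_lit 953, nat_lit 118)], (nat_lit 93, nat_lit 100, nat_lit 21)⟩
noncomputable def p063_k24 : C1.Kn := ⟨[nat_lit 60, nat_lit 80], [nat_lit 0, nat_lit 228], [(nat_lit 0, nat_lit 0, nat_lit 0), (nat_lit 1000, nat_lit 929, nat_lit 178)], (nat_lit 92, nat_lit 100, nat_lit 21)⟩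
noncomputable def p063_k25 : C1.Kn := ⟨[nat_lit 60, nat_lit 80, nat_lit 100], [nat_lit 0, nat_lit 151, nat_lit 679], [(nat_lit 0, nat_lit 0, nat_lit 0), (nat_lit 1000, nat_lit 953, nat_lit 118), (nat_lit 1000, nat_lit 894, nat_lit 411)], (nat_lit 91, nat_lit 100, nat_lit 28)⟩
noncomputable def p063_k26 : C1.Kn := ⟨[nat_lit 60, nat_lit 80, nat_lit 90], [nat_lit 0, nat_lit 151, nat_lit 425], [(nat_lit 0, nat_lit 0, nat_lit 0), (nat_lit 1000, nat_lit 953, nat_lit 118), (nat_lit 1000, nat_lit 898, nat_lit 352)], (nat_lit 91, nat_lit 100, nat_lit 28)⟩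
noncomputable def p063_k27 : C1.Kn := ⟨[nat_lit 60, nat_lit 80], [nat_lit 0, nat_lit 228], [(nat_lit 0, nat_lit 0, nat_lit 0), (nat_lit 1000, nat_lit 929, nat_lit 178)], (nat_lit 90, nat_lit 100, nat_lit 29)⟩
noncomputable def p063_k28 : C1.Kn := ⟨[nat_lit 30, nat_lit 60, nat_lit 80, nat_lit 100], [nat_lit 0, nat_lit 0, nat_lit 151, nat_lit 679], [(nat_lit 0, nat_lit 0, nat_lit 0), (nat_lit 0, nat_lit 0, nat_lit 0), (nat_lit 1000, nat_lit 953, nat_lit 118), (nat_lit 1000, nat_lit 894, nat_lit 411)], (nat_lit 89, nat_lit 100, nat_lit 44)⟩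
noncomputable def p063_k29 : C1.Kn := ⟨[nat_lit 30, nat_lit 60, nat_lit 80, nat_lit 100], [nat_lit 0, nat_lit 0, nat_lit 228, nat_lit 751], [(nat_lit 0, nat_lit 0, nat_lit 0), (nat_lit 0, nat_lit 0, nat_lit 0), (nat_lit 1000, nat_lit 929, nat_lit 178), (nat_lit 1000, nat_lit 883, nat_lit 407)], (nat_lit 88, nat_lit 100, nat_lit 44)⟩
noncomputable def p063_k30 : C1.Kn := ⟨[nat_lit 60, nat_lit 70, nat_lit 90], [nat_lit 0, nat_lit 0, nat_lit 280], [(nat_lit 0, nat_lit 0, nat_lit 0), (nat_lit 0, nat_lit 0, nat_lit 0), (nat_lit 1000, nat_lit 934, nat_lit 219)], (nat_lit 92, nat_lit 100, nat_lit 28)⟩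
noncomputable def p063_k31 : C1.Kn := ⟨[nat_lit 80, nat_lit 100, nat_lit 120], [nat_lit 0, nat_lit 132, nat_lit 640], [(nat_lit 0, nat_lit 0, nat_lit 0), (nat_lit 1000, nat_lit 979, nat_lit 103), (nat_lit 1000, nat_lit 979, nat_lit 397)], (nat_lit 97, nat_lit 100, nat_lit 28)⟩
noncomputable def p063_k32 : C1.Kn := ⟨[nat_lit 80, nat_lit 120], [nat_lit 0, nat_lit 264], [(nat_lit 0, nat_lit 0, nat_lit 0), (nat_lit 1000, nat_lit 979, nat_lit 103)], (nat_lit 97, nat_lit 100, nat_lit 28)⟩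
noncomputable def p063_k33 : C1.Kn := ⟨[nat_lit 80, nat_lit 120], [nat_lit 0, nat_lit 264], [(nat_lit 0, nat_lit 0, nat_lit 0), (nat_lit 1000, nat_lit 979, nat_lit 103)], (nat_lit 99, nat_lit 100, nat_lit 44)⟩
noncomputable def p063_k34 : C1.Kn := ⟨[nat_lit 60, nat_lit 100, nat_lit 120], [nat_lit 0, nat_lit 302, nat_lit 1376], [(nat_lit 0, nat_lit 0, nat_lit 0), (nat_lit 1000, nat_lit 953, nat_lit 118), (nat_lit 1000, nat_lit 911, nat_lit 628)], (nat_lit 90, nat_lit 100, nat_lit 51)⟩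
noncomputable def p063_k35 : C1.Kn := ⟨[nat_lit 60, nat_lit 70, nat_lit 90, nat_lit 110], [nat_lit 0, nat_lit 0, nat_lit 280, nat_lit 787], [(nat_lit 0, nat_lit 0, nat_lit 0), (nat_lit 0, nat_lit 0, nat_lit 0), (nat_lit 1000, nat_lit 934, nat_lit 219), (nat_lit 1000, nat_lit 917, nat_lit 396)], (nat_lit 92, nat_lit 100, nat_lit 44)⟩
noncomputable def p063_k36 : C1.Kn := ⟨[nat_lit 80, nat_lit 120], [nat_lit 0, nat_lit 0], [(nat_lit 0, nat_lit 0, nat_lit 0), (nat_lit 0, nat_lit 0, nat_lit 0)], (nat_lit 99, nat_lit 100, nat_lit 34)⟩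
noncomputable def p063_k37 : C1.Kn := ⟨[nat_lit 60, nat_lit 80, nat_lit 100], [nat_lit 0, nat_lit 0, nat_lit 534], [(nat_lit 0, nat_lit 0, nat_lit 0), (nat_lit 0, nat_lit 0, nat_lit 0), (nat_lit 1000, nat_lit 917, nat_lit 393)], (nat_lit 92, nat_lit 100, nat_lit 34)⟩
noncomputable def p063_k38 : C1.Kn := ⟨[nat_lit 80, nat_lit 100, nat_lit 120], [nat_lit 0, nat_lit 0, nat_lit 511], [(nat_lit 0, nat_lit 0, nat_lit 0), (nat_lit 0, nat_lit 0, nat_lit 0), (nat_lit 1000, nat_lit 997, nat_lit 383)], (nat_lit 99, nat_lit 100, nat_lit 34)⟩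
noncomputable def p063_k39 : C1.Kn := ⟨[nat_lit 60, nat_lit 100], [nat_lit 0, nat_lit 302], [(nat_lit 0, nat_lit 0, nat_lit 0), (nat_lit 1000, nat_lit 953, nat_lit 118)], (nat_lit 89, nat_lit 100, nat_lit 44)⟩
noncomputable def p063_k40 : C1.Kn := ⟨[nat_lit 60, nat_lit 80, nat_lit 100], [nat_lit 0, nat_lit 151, nat_lit 679], [(nat_lit 0, nat_lit 0, nat_lit 0), (nat_lit 1000, nat_lit 953, nat_lit 118), (nat_lit 1000, nat_lit 894, nat_lit 411)], (nat_lit 90, nat_lit 100, nat_lit 34)⟩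
noncomputable def p063_k41 : C1.Kn := ⟨[nat_lit 60, nat_lit 80], [nat_lit 0, nat_lit 0], [(nat_lit 0, nat_lit 0, nat_lit 0), (nat_lit 0, nat_lit 0, nat_lit 0)], (nat_lit 94, nat_lit 100, nat_lit 20)⟩
noncomputable def p063_k42 : C1.Kn := ⟨[nat_lit 80, nat_lit 100], [nat_lit 0, nat_lit 0], [(nat_lit 0, nat_lit 0, nat_lit 0), (nat_lit 0, nat_lit 0, nat_lit 0)], (nat_lit 98, nat_lit 100, nat_lit 20)⟩
noncomputable def p063_k43 : C1.Kn := ⟨[nat_lit 60, nat_lit 80], [nat_lit 0, nat_lit 151], [(nat_lit 0, nat_lit 0, nat_lit 0), (nat_lit 1000, nat_lit 953, nat_lit 118)], (nat_lit 93, nat_lit 100, nat_lit 21)⟩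
noncomputable def p063_k44 : C1.Kn := ⟨[nat_lit 80, nat_lit 120], [nat_lit 0, nat_lit 528], [(nat_lit 0, nat_lit 0, nat_lit 0), (nat_lit 1000, nat_lit 959, nat_lit 206)], (nat_lit 96, nat_lit 100, nat_lit 44)⟩
noncomputable def p063_k45 : C1.Kn := ⟨[nat_lit 80, nat_lit 100, nat_lit 120], [nat_lit 0, nat_lit 399, nat_lit 897], [(nat_lit 0, nat_lit 0, nat_lit 0), (nat_lit 1000, nat_lit 938, nat_lit 310), (nat_lit 1000, nat_lit 938, nat_lit 389)], (nat_lit 94, nat_lit 100, nat_lit 44)⟩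
noncomputable def p063_k46 : C1.Kn := ⟨[nat_lit 70, nat_lit 90, nat_lit 110], [nat_lit 0, nat_lit 139, nat_lit 651], [(nat_lit 0, nat_lit 0, nat_lit 0), (nat_lit 1000, nat_lit 967, nat_lit 109), (nat_lit 1000, nat_lit 938, nat_lit 398)], (nat_lit 94, nat_lit 100, nat_lit 44)⟩
noncomputable def p063_k47 : C1.Kn := ⟨[nat_lit 60, nat_lit 80, nat_lit 130], [nat_lit 0, nat_lit 0, nat_lit 1330], [(nat_lit 0, nat_lit 0, nat_lit 0), (nat_lit 0, nat_lit 0, nat_lit 0), (nat_lit 1000, nat_lit 917, nat_lit 415)], (nat_lit 94, nat_lit 100, nat_lit 62)⟩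
noncomputable def p063_k48 : C1.Kn := ⟨[nat_lit 60, nat_lit 80, nat_lit 120], [nat_lit 0, nat_lit 151, nat_lit 1205], [(nat_lit 0, nat_lit 0, nat_lit 0), (nat_lit 1000, nat_lit 953, nat_lit 118), (nat_lit 1000, nat_lit 894, nat_lit 411)], (nat_lit 91, nat_lit 100, nat_lit 61)⟩
noncomputable def p063_k49 : C1.Kn := ⟨[nat_lit 80, nat_lit 100, nat_lit 140], [nat_lit 0, nat_lit 399, nat_lit 1395], [(nat_lit 0, nat_lit 0, nat_lit 0), (nat_lit 1000, nat_lit 938, nat_lit 310), (nat_lit 1000, nat_lit 938, nat_lit 389)], (nat_lit 98, nat_lit 100, nat_lit 63)⟩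
noncomputable def p063_k50 : C1.Kn := ⟨[nat_lit 60, nat_lit 100], [nat_lit 0, nat_lit 609], [(nat_lit 0, nat_lit 0, nat_lit 0), (nat_lit 1000, nat_lit 905, nat_lit 238)], (nat_lit 87, nat_lit 100, nat_lit 44)⟩
noncomputable def p063_k51 : C1.Kn := ⟨[nat_lit 60, nat_lit 100], [nat_lit 0, nat_lit 909], [(nat_lit 0, nat_lit 0, nat_lit 0), (nat_lit 1000, nat_lit 858, nat_lit 354)], (nat_lit 84, nat_lit 100, nat_lit 44)⟩
noncomputable def p063_k52 : C1.Kn := ⟨[nat_lit 50, nat_lit 70, nat_lit 80], [nat_lit 0, nat_lit 0, nat_lit 329], [(nat_lit 0, nat_lit 0, nat_lit 0), (nat_lit 0, nat_lit 0, nat_lit 0), (nat_lit 1000, nat_lit 886, nat_lit 313)], (nat_lit 89, nat_lit 100, nat_lit 29)⟩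
noncomputable def p063_k53 : C1.Kn := ⟨[nat_lit 30, nat_lit 50, nat_lit 70, nat_lit 80], [nat_lit 0, nat_lit 0, nat_lit 0, nat_lit 329], [(nat_lit 0, nat_lit 0, nat_lit 0), (nat_lit 0, nat_lit 0, nat_lit 0), (nat_lit 0, nat_lit 0, nat_lit 0), (nat_lit 1000, nat_lit 886, nat_lit 313)], (nat_lit 89, nat_lit 100, nat_lit 29)⟩
noncomputable def p063_k54 : C1.Kn := ⟨[nat_lit 30, nat_lit 50, nat_lit 70, nat_lit 100], [nat_lit 0, nat_lit 0, nat_lit 0, nat_lit 842], [(nat_lit 0, nat_lit 0, nat_lit 0), (nat_lit 0, nat_lit 0, nat_lit 0), (nat_lit 0, nat_lit 0, nat_lit 0), (nat_lit 1000, nat_lit 868, nat_lit 437)], (nat_lit 87, nat_lit 100, nat_lit 44)⟩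
noncomputable def p063_l0 : Lf2 := ⟨nat_lit 0, nat_lit 2, [nat_lit 10, nat_lit 5, nat_lit 5, nat_lit 20], true, nat_lit 240, nat_lit 280, nat_lit 0, nat_lit 336, ⟨nat_lit 0, nat_lit 0, nat_lit 1000, nat_lit 6, nat_lit 117, nat_lit 1000, nat_lit 197, nat_lit 1000, nat_lit 10417, nat_lit 236, nat_lit 129067, nat_lit 303, nat_lit 48483058, nat_lit 0, nat_lit 0, nat_lit 4054932, false, false⟩,
 nat_lit 0, nat_lit 4583, nat_lit 0, nat_lit 0, nat_lit 2916, nat_lit 0, nat_lit 0, nat_lit 0, nat_lit 0, nat_lit 0, nat_lit 0, nat_lit 0, nat_lit 0, nat_lit 0, nat_lit 77, nat_lit 1000000, nat_lit 0, nat_lit 0, [(nat_lit 12, [(nat_lit 6, nat_lit 1000)])],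
 ⟨p063_k0, nat_lit 0, nat_lit 0, nat_lit 150, nat_lit 0, nat_lit 220166, [nat_lit 1833600001, nat_lit 1461200000, nat_lit 12400000], [], [nat_lit 16593364467, nat_lit 17690246694, nat_lit 16557681313, nat_lit 17613472569, nat_lit 18518413609, nat_lit 19525208273, nat_lit 18414450169, nat_lit 19385051409], nat_lit 1271250, nat_lit 1271250, nat_lit 205650, nat_lit 490000, nat_lit 1271250, nat_lit 1271250, [nat_lit 780000, nat_lit 1100000, nat_lit 1442500], [nat_lit 59, nat_lit 40, nat_lit 40, nat_lit 80, nat_lit 3, nat_lit 226, nat_lit 20, nat_lit 8]⟩, C1.Rw.none,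
 ⟨nat_lit 5000, nat_lit 5478, ⟨.ofNat (nat_lit 235487), .ofNat (nat_lit 317913), .ofNat (nat_lit 256844), .ofNat (nat_lit 339271), .ofNat (nat_lit 249999), .ofNat (nat_lit 328570), .ofNat (nat_lit 271427), .ofNat (nat_lit 349999)⟩, ⟨.ofNat (nat_lit 446789), .ofNat (nat_lit 521722), .ofNat (nat_lit 468146), .ofNat (nat_lit 543079), .ofNat (nat_lit 442856), .ofNat (nat_lit 514284), .ofNat (nat_lit 464284), .ofNat (nat_lit 535713)⟩⟩, [⟨nat_lit 0, nat_lit 100, nat_lit 91, nat_lit 77, nat_lit 123565539⟩, ⟨nat_lit 4, nat_lit 97, nat_lit 100, nat_lit 94, nat_lit 31113669⟩]⟩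
noncomputable def p063_l1 : Lf2 := ⟨nat_lit 0, nat_lit 5, [nat_lit 4, nat_lit 5, nat_lit 5, nat_lit 20], true, nat_lit 240, nat_lit 280, nat_lit 0, nat_lit 336, ⟨nat_lit 0, nat_lit 0, nat_lit 1000, nat_lit 6, nat_lit 117, nat_lit 1000, nat_lit 197, nat_lit 1000, nat_lit 10417, nat_lit 236, nat_lit 129067, nat_lit 303, nat_lit 48483058, nat_lit 0, nat_lit 0, nat_lit 4054932, false, false⟩,
 nat_lit 0, nat_lit 5376, nat_lit 0, nat_lit 0, nat_lit 3421, nat_lit 0, nat_lit 0, nat_lit 0, nat_lit 0, nat_lit 0, nat_lit 0, nat_lit 0, nat_lit 0, nat_lit 0, nat_lit 72, nat_lit 400000, nat_lit 0, nat_lit 0, [(nat_lit 12, [(nat_lit 5, nat_lit 1000)])],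
 ⟨p063_k1, nat_lit 0, nat_lit 0, nat_lit 157, nat_lit 0, nat_lit 142286, [nat_lit 2104800000, nat_lit 905333334, nat_lit 113066666], [], [nat_lit 16910820452, nat_lit 17928079482, nat_lit 16648136566, nat_lit 17627699618, nat_lit 18682634231, nat_lit 20024930324, nat_lit 18357402302, nat_lit 19329876837], nat_lit 1271250, nat_lit 1271250, nat_lit 205650, nat_lit 490000, nat_lit 1271250, nat_lit 1271250, [nat_lit 780000, nat_lit 1435000, nat_lit 1271250], [nat_lit 18, nat_lit 40, nat_lit 40, nat_lit 80, nat_lit 2, nat_lit 226, nat_lit 20, nat_lit 7]⟩, C1.Rw.none,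
 ⟨nat_lit 5000, nat_lit 5478, ⟨.ofNat (nat_lit 235487), .ofNat (nat_lit 317913), .ofNat (nat_lit 256844), .ofNat (nat_lit 339271), .ofNat (nat_lit 249999), .ofNat (nat_lit 328570), .ofNat (nat_lit 271427), .ofNat (nat_lit 349999)⟩, ⟨.ofNat (nat_lit 446789), .ofNat (nat_lit 521722), .ofNat (nat_lit 468146), .ofNat (nat_lit 543079), .ofNat (nat_lit 442856), .ofNat (nat_lit 514284), .ofNat (nat_lit 464284), .ofNat (nat_lit 535713)⟩⟩, [⟨nat_lit 0, nat_lit 100, nat_lit 91, nat_lit 77, nat_lit 192881268⟩, ⟨nat_lit 4, nat_lit 97, nat_lit 100, nat_lit 94, nat_lit 48870630⟩]⟩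
noncomputable def p063_l2 : Lf2 := ⟨nat_lit 0, nat_lit 3, [nat_lit 45, nat_lit 5, nat_lit 5, nat_lit 20], true, nat_lit 240, nat_lit 280, nat_lit 0, nat_lit 336, ⟨nat_lit 0, nat_lit 211, nat_lit 789, nat_lit 6, nat_lit 116, nat_lit 1000, nat_lit 206, nat_lit 789, nat_lit 4376, nat_lit 226, nat_lit 126150, nat_lit 302, nat_lit 47731936, nat_lit 5594737, nat_lit 13673327, nat_lit 4121585, false, false⟩,
 nat_lit 0, nat_lit 5332, nat_lit 0, nat_lit 0, nat_lit 3393, nat_lit 0, nat_lit 0, nat_lit 0, nat_lit 0, nat_lit 0, nat_lit 0, nat_lit 0, nat_lit 0, nat_lit 0, nat_lit 33, nat_lit 873400, nat_lit 0, nat_lit 0, [(nat_lit 12, [(nat_lit 1, nat_lit 211), (nat_lit 6, nat_lit 789)])],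
 ⟨p063_k2, nat_lit 0, nat_lit 0, nat_lit 120, nat_lit 0, nat_lit 105889, [nat_lit 1732839201, nat_lit 344496799], [], [nat_lit 16904254492, nat_lit 17451113898, nat_lit 16696791292, nat_lit 17222882163, nat_lit 18811013309, nat_lit 19312214643, nat_lit 18534655690, nat_lit 19017853928], nat_lit 1271250, nat_lit 1271250, nat_lit 205650, nat_lit 490000, nat_lit 1271250, nat_lit 1271250, [nat_lit 780000, nat_lit 1435000], [nat_lit 49, nat_lit 40, nat_lit 40, nat_lit 80, nat_lit 16, nat_lit 226, nat_lit 20, nat_lit 8]⟩, C1.Rw.none,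
 ⟨nat_lit 5244, nat_lit 5478, ⟨.ofNat (nat_lit 235487), .ofNat (nat_lit 317913), .ofNat (nat_lit 256844), .ofNat (nat_lit 339271), .ofNat (nat_lit 242768), .ofNat (nat_lit 323256), .ofNat (nat_lit 264153), .ofNat (nat_lit 344641)⟩, ⟨.ofNat (nat_lit 468146), .ofNat (nat_lit 543079), .ofNat (nat_lit 489503), .ofNat (nat_lit 564436), .ofNat (nat_lit 466242), .ofNat (nat_lit 539414), .ofNat (nat_lit 487628), .ofNat (nat_lit 560799)⟩⟩, [⟨nat_lit 0, nat_lit 100, nat_lit 94, nat_lit 73, nat_lit 141232286⟩]⟩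
noncomputable def p063_l3 : Lf2 := ⟨nat_lit 1, nat_lit 5, [nat_lit 4, nat_lit 5, nat_lit 5, nat_lit 20], false, nat_lit 240, nat_lit 280, nat_lit 0, nat_lit 336, zbN0,
 nat_lit 0, nat_lit 0, nat_lit 0, nat_lit 0, nat_lit 0, nat_lit 0, nat_lit 0, nat_lit 0, nat_lit 0, nat_lit 0, nat_lit 0, nat_lit 0, nat_lit 0, nat_lit 0, nat_lit 0, nat_lit 0, nat_lit 0, nat_lit 0, [],
 C1.Rw.none, C1.Rw.none,
 zbF0, []⟩
noncomputable def p063_l4 : Lf2 := ⟨nat_lit 0, nat_lit 5, [nat_lit 4, nat_lit 5, nat_lit 5, nat_lit 20], true, nat_lit 240, nat_lit 280, nat_lit 0, nat_lit 336, ⟨nat_lit 0, nat_lit 63, nat_lit 937, nat_lit 6, nat_lit 120, nat_lit 1000, nat_lit 205, nat_lit 937, nat_lit 7372, nat_lit 228, nat_lit 135000, nat_lit 305, nat_lit 47579380, nat_lit 5883545, nat_lit 13537075, nat_lit 4160581, false, false⟩,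
 nat_lit 0, nat_lit 4872, nat_lit 0, nat_lit 0, nat_lit 3235, nat_lit 0, nat_lit 0, nat_lit 0, nat_lit 0, nat_lit 0, nat_lit 0, nat_lit 0, nat_lit 0, nat_lit 0, nat_lit 52, nat_lit 823600, nat_lit 0, nat_lit 0, [(nat_lit 12, [(nat_lit 1, nat_lit 63), (nat_lit 5, nat_lit 231), (nat_lit 6, nat_lit 706)])],
 ⟨p063_k3, nat_lit 0, nat_lit 0, nat_lit 127, nat_lit 0, nat_lit 157593, [nat_lit 1680906600, nat_lit 1230208001, nat_lit 2456000], [], [nat_lit 16901941111, nat_lit 17473186641, nat_lit 16838606126, nat_lit 17389209131, nat_lit 19013628145, nat_lit 19683089750, nat_lit 18720241456, nat_lit 19225261995], nat_lit 1271250, nat_lit 1271250, nat_lit 230001, nat_lit 490000, nat_lit 1271250, nat_lit 1271250, [nat_lit 780000, nat_lit 1100000, nat_lit 1442500], [nat_lit 59, nat_lit 40, nat_lit 40, nat_lit 80, nat_lit 3, nat_lit 226, nat_lit 20, nat_lit 8]⟩, C1.Rw.none,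
 ⟨nat_lit 5000, nat_lit 5245, ⟨.ofNat (nat_lit 250085), .ofNat (nat_lit 323256), .ofNat (nat_lit 271470), .ofNat (nat_lit 344641), .ofNat (nat_lit 257141), .ofNat (nat_lit 328570), .ofNat (nat_lit 278570), .ofNat (nat_lit 349999)⟩, ⟨.ofNat (nat_lit 466242), .ofNat (nat_lit 539414), .ofNat (nat_lit 487628), .ofNat (nat_lit 560799), .ofNat (nat_lit 464284), .ofNat (nat_lit 535713), .ofNat (nat_lit 485713), .ofNat (nat_lit 557141)⟩⟩, [⟨nat_lit 0, nat_lit 100, nat_lit 91, nat_lit 77, nat_lit 169459025⟩]⟩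
noncomputable def p063_l5 : Lf2 := ⟨nat_lit 0, nat_lit 5, [nat_lit 4, nat_lit 5, nat_lit 5, nat_lit 20], false, nat_lit 240, nat_lit 280, nat_lit 0, nat_lit 352, ⟨nat_lit 0, nat_lit 0, nat_lit 1000, nat_lit 6, nat_lit 148, nat_lit 1000, nat_lit 197, nat_lit 1000, nat_lit 10417, nat_lit 236, nat_lit 205350, nat_lit 326, nat_lit 46392157, nat_lit 0, nat_lit 0, nat_lit 4412810, false, false⟩,
 nat_lit 0, nat_lit 5218, nat_lit 0, nat_lit 0, nat_lit 3320, nat_lit 0, nat_lit 0, nat_lit 0, nat_lit 0, nat_lit 0, nat_lit 0, nat_lit 0, nat_lit 0, nat_lit 0, nat_lit 162, nat_lit 1000000, nat_lit 0, nat_lit 0, [(nat_lit 12, [(nat_lit 6, nat_lit 1000)])],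
 ⟨p063_k1, nat_lit 0, nat_lit 0, nat_lit 157, nat_lit 0, nat_lit 227959, [nat_lit 3085200001, nat_lit 2112400000, nat_lit 400000], [], [nat_lit 16138443842, nat_lit 17316467682, nat_lit 16564229122, nat_lit 17687956082, nat_lit 18195933202, nat_lit 19273582042, nat_lit 18529599202, nat_lit 19559106802], nat_lit 1271250, nat_lit 1271250, nat_lit 490000, nat_lit 780000, nat_lit 1271250, nat_lit 1271250, [nat_lit 780000, nat_lit 1435000, nat_lit 1271250], [nat_lit 18, nat_lit 40, nat_lit 40, nat_lit 80, nat_lit 2, nat_lit 238, nat_lit 30, nat_lit 7]⟩, ⟨p063_k4, nat_lit 0, nat_lit 0, nat_lit 344, nat_lit 0, nat_lit 286410, [nat_lit 0, nat_lit 0, nat_lit 0], [], [nat_lit 0, nat_lit 0, nat_lit 0, nat_lit 0, nat_lit 0, nat_lit 0, nat_lit 0, nat_lit 0], nat_lit 1271250, nat_lit 1271250, nat_lit 490000, nat_lit 780000, nat_lit 0, nat_lit 2486000, [nat_lit 1100000, nat_lit 1785000, nat_lit 1271250], [nat_lit 29, nat_lit 40, nat_lit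 40, nat_lit 80, nat_lit 17, nat_lit 428, nat_lit 200, nat_lit 13]⟩,
 ⟨nat_lit 5000, nat_lit 5478, ⟨.ofNat (nat_lit 317913), .ofNat (nat_lit 392847), .ofNat (nat_lit 339271), .ofNat (nat_lit 414199), .ofNat (nat_lit 328570), .ofNat (nat_lit 399998), .ofNat (nat_lit 349999), .ofNat (nat_lit 421423)⟩, ⟨.ofNat (nat_lit 446789), .ofNat (nat_lit 521722), .ofNat (nat_lit 468146), .ofNat (nat_lit 543079), .ofNat (nat_lit 442856), .ofNat (nat_lit 514284), .ofNat (nat_lit 464284), .ofNat (nat_lit 535713)⟩⟩, [⟨nat_lit 4, nat_lit 97, nat_lit 100, nat_lit 94, nat_lit 105541432⟩]⟩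
noncomputable def p063_l6 : Lf2 := ⟨nat_lit 0, nat_lit 5, [nat_lit 4, nat_lit 5, nat_lit 5, nat_lit 20], false, nat_lit 240, nat_lit 280, nat_lit 0, nat_lit 364, ⟨nat_lit 0, nat_lit 237, nat_lit 763, nat_lit 6, nat_lit 148, nat_lit 1000, nat_lit 205, nat_lit 763, nat_lit 4376, nat_lit 226, nat_lit 205350, nat_lit 326, nat_lit 45669329, nat_lit 7986730, nat_lit 13343941, nat_lit 4484314, false, false⟩,
 nat_lit 0, nat_lit 5567, nat_lit 0, nat_lit 0, nat_lit 3542, nat_lit 0, nat_lit 0, nat_lit 0, nat_lit 0, nat_lit 0, nat_lit 0, nat_lit 0, nat_lit 0, nat_lit 0, nat_lit 98, nat_lit 857800, nat_lit 0, nat_lit 0, [(nat_lit 12, [(nat_lit 1, nat_lit 237), (nat_lit 6, nat_lit 763)])],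
 ⟨p063_k1, nat_lit 0, nat_lit 0, nat_lit 134, nat_lit 0, nat_lit 166167, [nat_lit 2536946401, nat_lit 1744565601, nat_lit 21395200], [], [nat_lit 16551879850, nat_lit 17623087998, nat_lit 16864142666, nat_lit 17886382474, nat_lit 18418990862, nat_lit 19400299784, nat_lit 18647745626, nat_lit 19648303582], nat_lit 1271250, nat_lit 1271250, nat_lit 490000, nat_lit 780000, nat_lit 1271250, nat_lit 1271250, [nat_lit 780000, nat_lit 1435000, nat_lit 1271250], [nat_lit 18, nat_lit 40, nat_lit 40, nat_lit 80, nat_lit 2, nat_lit 238, nat_lit 30, nat_lit 7]⟩, ⟨p063_k4, nat_lit 0, nat_lit 0, nat_lit 309, nat_lit 0, nat_lit 209711, [nat_lit 0, nat_lit 0, nat_lit 0], [], [nat_lit 0, nat_lit 0, nat_lit 0, nat_lit 0, nat_lit 0, nat_lit 0, nat_lit 0, nat_lit 0], nat_lit 1271250, nat_lit 1271250, nat_lit 490000, nat_lit 780000, nat_lit 0, nat_lit 2570750, [nat_lit 1100000, nat_lit 1785000, nat_lit 1271250], [nat_lit 29, nat_lit 40, nat_lit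 40, nat_lit 80, nat_lit 17, nat_lit 428, nat_lit 200, nat_lit 13]⟩,
 ⟨nat_lit 5000, nat_lit 5478, ⟨.ofNat (nat_lit 317913), .ofNat (nat_lit 392847), .ofNat (nat_lit 339271), .ofNat (nat_lit 414199), .ofNat (nat_lit 328570), .ofNat (nat_lit 399998), .ofNat (nat_lit 349999), .ofNat (nat_lit 421423)⟩, ⟨.ofNat (nat_lit 468146), .ofNat (nat_lit 543079), .ofNat (nat_lit 489503), .ofNat (nat_lit 564436), .ofNat (nat_lit 464284), .ofNat (nat_lit 535713), .ofNat (nat_lit 485713), .ofNat (nat_lit 557141)⟩⟩, []⟩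
noncomputable def p063_l7 : Lf2 := ⟨nat_lit 0, nat_lit 7, [nat_lit 80, nat_lit 5, nat_lit 5, nat_lit 20], false, nat_lit 240, nat_lit 280, nat_lit 0, nat_lit 364, ⟨nat_lit 0, nat_lit 0, nat_lit 1000, nat_lit 6, nat_lit 132, nat_lit 1000, nat_lit 201, nat_lit 1000, nat_lit 4376, nat_lit 226, nat_lit 163350, nat_lit 314, nat_lit 47127535, nat_lit 0, nat_lit 0, nat_lit 4269965, false, false⟩,
 nat_lit 0, nat_lit 5280, nat_lit 0, nat_lit 0, nat_lit 3360, nat_lit 0, nat_lit 0, nat_lit 0, nat_lit 0, nat_lit 0, nat_lit 0, nat_lit 0, nat_lit 0, nat_lit 0, nat_lit 72, nat_lit 400000, nat_lit 0, nat_lit 0, [(nat_lit 12, [(nat_lit 5, nat_lit 1000)])],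
 ⟨p063_k5, nat_lit 0, nat_lit 0, nat_lit 121, nat_lit 0, nat_lit 42168, [nat_lit 2104800000, nat_lit 905333334, nat_lit 113066666], [], [nat_lit 16996703498, nat_lit 18006714131, nat_lit 17031137546, nat_lit 17960879066, nat_lit 18757550234, nat_lit 19964384097, nat_lit 18660699600, nat_lit 19695190400], nat_lit 1271250, nat_lit 1271250, nat_lit 205650, nat_lit 780000, nat_lit 1271250, nat_lit 1271250, [nat_lit 780000, nat_lit 1435000, nat_lit 1271250], [nat_lit 18, nat_lit 40, nat_lit 40, nat_lit 80, nat_lit 2, nat_lit 238, nat_lit 30, nat_lit 7]⟩, ⟨p063_k6, nat_lit 0, nat_lit 0, nat_lit 256, nat_lit 0, nat_lit 53307, [nat_lit 0, nat_lit 0, nat_lit 0], [], [nat_lit 0, nat_lit 0, nat_lit 0, nat_lit 0, nat_lit 0, nat_lit 0, nat_lit 0, nat_lit 0], nat_lit 1271250, nat_lit 1271250, nat_lit 205650, nat_lit 780000, nat_lit 0, nat_lit 2570750, [nat_lit 1100000, nat_lit 1785000, nat_lit 1271250], [nat_lit 29, nat_lit 40, nat_lit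 40, nat_lit 80, nat_lit 17, nat_lit 428, nat_lit 200, nat_lit 13]⟩,
 ⟨nat_lit 5000, nat_lit 5478, ⟨.ofNat (nat_lit 235487), .ofNat (nat_lit 392847), .ofNat (nat_lit 256844), .ofNat (nat_lit 414199), .ofNat (nat_lit 249999), .ofNat (nat_lit 399998), .ofNat (nat_lit 271427), .ofNat (nat_lit 421423)⟩, ⟨.ofNat (nat_lit 446789), .ofNat (nat_lit 521722), .ofNat (nat_lit 489503), .ofNat (nat_lit 564436), .ofNat (nat_lit 442856), .ofNat (nat_lit 514284), .ofNat (nat_lit 485713), .ofNat (nat_lit 557141)⟩⟩, [⟨nat_lit 0, nat_lit 100, nat_lit 91, nat_lit 77, nat_lit 125451647⟩]⟩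
noncomputable def p063_l8 : Lf2 := ⟨nat_lit 1, nat_lit 10, [nat_lit 0, nat_lit 5, nat_lit 5, nat_lit 20], false, nat_lit 240, nat_lit 280, nat_lit 0, nat_lit 364, zbN0,
 nat_lit 0, nat_lit 0, nat_lit 0, nat_lit 0, nat_lit 0, nat_lit 0, nat_lit 0, nat_lit 0, nat_lit 0, nat_lit 0, nat_lit 0, nat_lit 0, nat_lit 0, nat_lit 0, nat_lit 0, nat_lit 0, nat_lit 0, nat_lit 0, [],
 C1.Rw.none, C1.Rw.none,
 zbF0, []⟩
noncomputable def p063_l9 : Lf2 := ⟨nat_lit 0, nat_lit 5, [nat_lit 4, nat_lit 5, nat_lit 5, nat_lit 20], false, nat_lit 240, nat_lit 280, nat_lit 0, nat_lit 160, ⟨nat_lit 294, nat_lit 0, nat_lit 706, nat_lit 6, nat_lit 145, nat_lit 706, nat_lit 201, nat_lit 706, nat_lit 4376, nat_lit 226, nat_lit 198017, nat_lit 324, nat_lit 46248120, nat_lit 0, nat_lit 0, nat_lit 4415288, false, false⟩,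
 nat_lit 7041, nat_lit 0, nat_lit 0, nat_lit 0, nat_lit 4480, nat_lit 4098, nat_lit 248, nat_lit 0, nat_lit 0, nat_lit 664, nat_lit 0, nat_lit 0, nat_lit 0, nat_lit 0, nat_lit 0, nat_lit 434800, nat_lit 0, nat_lit 0, [(nat_lit 12, [(nat_lit 5, nat_lit 452), (nat_lit 6, nat_lit 254)])],
 ⟨p063_k7, nat_lit 0, nat_lit 0, nat_lit 199, nat_lit 0, nat_lit 329172, [nat_lit 1756788000, nat_lit 1877354400, nat_lit 626645334], [], [nat_lit 17972877175, nat_lit 18929459447, nat_lit 17764378774, nat_lit 18723679440, nat_lit 19644191889, nat_lit 20656584457, nat_lit 19469899360, nat_lit 20403760760], nat_lit 1271250, nat_lit 1271250, nat_lit 279600, nat_lit 780000, nat_lit 1271250, nat_lit 1271250, [nat_lit 780000, nat_lit 1100000, nat_lit 1785000], [nat_lit 36, nat_lit 40, nat_lit 40, nat_lit 80, nat_lit 7, nat_lit 238, nat_lit 30, nat_lit 7]⟩, ⟨p063_k8, nat_lit 0, nat_lit 0, nat_lit 328, nat_lit 0, nat_lit 368127, [nat_lit 1378272000,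 nat_lit 1837500000, nat_lit 2342592000], [], [nat_lit 8944498971, nat_lit 8236415280, nat_lit 4925224944, nat_lit 6213561360, nat_lit 4618668486, nat_lit 3619413528, nat_lit 6462671012, nat_lit 4557502616], nat_lit 1271250, nat_lit 1271250, nat_lit 279600, nat_lit 780000, nat_lit 0, nat_lit 1100001, [nat_lit 1100000, nat_lit 1442500, nat_lit 1271250], [nat_lit 9, nat_lit 40, nat_lit 40, nat_lit 80, nat_lit 2, nat_lit 289, nat_lit 75, nat_lit 10]⟩,
 ⟨nat_lit 5000, nat_lit 5478, ⟨.ofNat (nat_lit 279324), .ofNat (nat_lit 414199), .ofNat (nat_lit 300681), .ofNat (nat_lit 435548), .ofNat (nat_lit 292856), .ofNat (nat_lit 421423), .ofNat (nat_lit 314284), .ofNat (nat_lit 442843)⟩, ⟨.ofNat (nat_lit 446789), .ofNat (nat_lit 521722), .ofNat (nat_lit 489503), .ofNat (nat_lit 564436), .ofNat (nat_lit 442856), .ofNat (nat_lit 514284), .ofNat (nat_lit 485713), .ofNat (nat_lit 557141)⟩⟩, [⟨nat_lit 0, nat_lit 100, nat_lit 95, nat_lit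 78, nat_lit 368685041⟩]⟩
noncomputable def p063_l10 : Lf2 := ⟨nat_lit 0, nat_lit 10, [nat_lit 0, nat_lit 5, nat_lit 5, nat_lit 20], false, nat_lit 240, nat_lit 280, nat_lit 0, nat_lit 160, ⟨nat_lit 1000, nat_lit 0, nat_lit 0, nat_lit 0, nat_lit 0, nat_lit 0, nat_lit 0, nat_lit 0, nat_lit 0, nat_lit 0, nat_lit 0, nat_lit 0, nat_lit 0, nat_lit 0, nat_lit 0, nat_lit 0, false, false⟩,
 nat_lit 17860, nat_lit 0, nat_lit 0, nat_lit 0, nat_lit 6789, nat_lit 10396, nat_lit 1882, nat_lit 0, nat_lit 0, nat_lit 822, nat_lit 0, nat_lit 0, nat_lit 0, nat_lit 0, nat_lit 0, nat_lit 0, nat_lit 0, nat_lit 0, [],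
 ⟨p063_k9, nat_lit 0, nat_lit 0, nat_lit 169, nat_lit 0, nat_lit 133510, [nat_lit 3282000000, nat_lit 4688000000, nat_lit 9842000000], [], [nat_lit 19019817665, nat_lit 20431799442, nat_lit 17470962330, nat_lit 18770308658, nat_lit 21365744588, nat_lit 22631904401, nat_lit 19632464314, nat_lit 20800397471], nat_lit 1271250, nat_lit 1271250, nat_lit 279600, nat_lit 780000, nat_lit 1271250, nat_lit 1271250, [nat_lit 780000, nat_lit 1100000, nat_lit 2127500], [nat_lit 42, nat_lit 40, nat_lit 40, nat_lit 80, nat_lit 13, nat_lit 317, nat_lit 100, nat_lit 9]⟩, ⟨p063_k10, nat_lit 0, nat_lit 0, nat_lit 310, nat_lit 0, nat_lit 149592, [nat_lit 4688000000, nat_lit 6250000000, nat_lit 9842000000], [], [nat_lit 27002664310, nat_lit 29272033332, nat_lit 23584869506, nat_lit 25676858250, nat_lit 23772395104, nat_lit 20434151825, nat_lit 28959088316, nat_lit 24125967124], nat_lit 1271250, nat_lit 1271250, nat_lit 279600, nat_lit 780000,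 nat_lit 0, nat_lit 1100001, [nat_lit 1100000, nat_lit 1442500, nat_lit 1271250], [nat_lit 11, nat_lit 40, nat_lit 40, nat_lit 80, nat_lit 1, nat_lit 373, nat_lit 150, nat_lit 11]⟩,
 zbF0, [⟨nat_lit 0, nat_lit 100, nat_lit 94, nat_lit 88, nat_lit 413663922⟩]⟩
noncomputable def p063_l11 : Lf2 := ⟨nat_lit 0, nat_lit 5, [nat_lit 4, nat_lit 5, nat_lit 5, nat_lit 20], false, nat_lit 240, nat_lit 280, nat_lit 160, nat_lit 240, ⟨nat_lit 717, nat_lit 0, nat_lit 283, nat_lit 6, nat_lit 145, nat_lit 283, nat_lit 201, nat_lit 283, nat_lit 4376, nat_lit 226, nat_lit 198017, nat_lit 324, nat_lit 46248120, nat_lit 0, nat_lit 0, nat_lit 4415288, false, false⟩,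
 nat_lit 9336, nat_lit 0, nat_lit 0, nat_lit 0, nat_lit 5941, nat_lit 5434, nat_lit 1221, nat_lit 0, nat_lit 0, nat_lit 425, nat_lit 0, nat_lit 0, nat_lit 0, nat_lit 0, nat_lit 0, nat_lit 107950, nat_lit 0, nat_lit 0, [(nat_lit 12, [(nat_lit 4, nat_lit 35), (nat_lit 5, nat_lit 248)])],
 ⟨p063_k7, nat_lit 0, nat_lit 0, nat_lit 199, nat_lit 0, nat_lit 329172, [nat_lit 2745332400, nat_lit 3539787200, nat_lit 5246595200], [], [nat_lit 18522279201, nat_lit 19745496994, nat_lit 17945304328, nat_lit 19115134288, nat_lit 20607727000, nat_lit 21906451256, nat_lit 19937989502, nat_lit 20999057394], nat_lit 1271250, nat_lit 1271250, nat_lit 279600, nat_lit 780000, nat_lit 1271250, nat_lit 1271250, [nat_lit 780000, nat_lit 1100000, nat_lit 1785000], [nat_lit 36, nat_lit 40, nat_lit 40, nat_lit 80, nat_lit 7, nat_lit 238, nat_lit 30, nat_lit 7]⟩, ⟨p063_k8, nat_lit 0, nat_lit 0, nat_lit 208, nat_lit 0, nat_lit 368127, [nat_lit 3361296000,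 nat_lit 4481250000, nat_lit 5713056000], [], [nat_lit 19643341964, nat_lit 16821824408, nat_lit 14885636361, nat_lit 15600723363, nat_lit 17286344117, nat_lit 17937990687, nat_lit 16361494939, nat_lit 16930832703], nat_lit 1271250, nat_lit 1271250, nat_lit 279600, nat_lit 780000, nat_lit 1100001, nat_lit 1785000, [nat_lit 1100000, nat_lit 1442500, nat_lit 1271250], [nat_lit 9, nat_lit 40, nat_lit 40, nat_lit 80, nat_lit 2, nat_lit 317, nat_lit 100, nat_lit 10]⟩,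
 ⟨nat_lit 5000, nat_lit 5478, ⟨.ofNat (nat_lit 279324), .ofNat (nat_lit 414199), .ofNat (nat_lit 300681), .ofNat (nat_lit 435548), .ofNat (nat_lit 292856), .ofNat (nat_lit 421423), .ofNat (nat_lit 314284), .ofNat (nat_lit 442843)⟩, ⟨.ofNat (nat_lit 446789), .ofNat (nat_lit 521722), .ofNat (nat_lit 489503), .ofNat (nat_lit 564436), .ofNat (nat_lit 442856), .ofNat (nat_lit 514284), .ofNat (nat_lit 485713), .ofNat (nat_lit 557141)⟩⟩, [⟨nat_lit 0, nat_lit 100, nat_lit 95, nat_lit 78, nat_lit 634409211⟩]⟩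
noncomputable def p063_l12 : Lf2 := ⟨nat_lit 0, nat_lit 10, [nat_lit 0, nat_lit 5, nat_lit 5, nat_lit 20], false, nat_lit 240, nat_lit 280, nat_lit 160, nat_lit 240, ⟨nat_lit 1000, nat_lit 0, nat_lit 0, nat_lit 0, nat_lit 0, nat_lit 0, nat_lit 0, nat_lit 0, nat_lit 0, nat_lit 0, nat_lit 0, nat_lit 0, nat_lit 0, nat_lit 0, nat_lit 0, nat_lit 0, false, false⟩,
 nat_lit 23230, nat_lit 0, nat_lit 0, nat_lit 0, nat_lit 6789, nat_lit 13521, nat_lit 1882, nat_lit 0, nat_lit 0, nat_lit 1611, nat_lit 0, nat_lit 0, nat_lit 0, nat_lit 0, nat_lit 0, nat_lit 0, nat_lit 0, nat_lit 0, [],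
 ⟨p063_k9, nat_lit 0, nat_lit 0, nat_lit 169, nat_lit 0, nat_lit 133510, [nat_lit 3282000000, nat_lit 4688000000, nat_lit 9842000000], [], [nat_lit 19019817665, nat_lit 20431799442, nat_lit 17470962330, nat_lit 18770308658, nat_lit 21365744588, nat_lit 22631904401, nat_lit 19632464314, nat_lit 20800397471], nat_lit 1271250, nat_lit 1271250, nat_lit 279600, nat_lit 780000, nat_lit 1271250, nat_lit 1271250, [nat_lit 780000, nat_lit 1100000, nat_lit 2127500], [nat_lit 42, nat_lit 40, nat_lit 40, nat_lit 80, nat_lit 13, nat_lit 317, nat_lit 100, nat_lit 9]⟩, ⟨p063_k10, nat_lit 0, nat_lit 0, nat_lit 167, nat_lit 0, nat_lit 149592, [nat_lit 4688000000, nat_lit 6250000000, nat_lit 9842000000], [], [nat_lit 13412645327, nat_lit 15690106200, nat_lit 9524515639, nat_lit 11593208369, nat_lit 17380173924, nat_lit 19207033687, nat_lit 13176870615, nat_lit 14759045245], nat_lit 1271250, nat_lit 1271250, nat_lit 279600, nat_lit 780000,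 nat_lit 1100001, nat_lit 1785000, [nat_lit 1100000, nat_lit 1442500, nat_lit 1271250], [nat_lit 11, nat_lit 40, nat_lit 40, nat_lit 80, nat_lit 1, nat_lit 401, nat_lit 175, nat_lit 11]⟩,
 zbF0, [⟨nat_lit 0, nat_lit 100, nat_lit 95, nat_lit 78, nat_lit 721881027⟩, ⟨nat_lit 0, nat_lit 100, nat_lit 94, nat_lit 88, nat_lit 375951779⟩]⟩
noncomputable def p063_l13 : Lf2 := ⟨nat_lit 0, nat_lit 5, [nat_lit 4, nat_lit 5, nat_lit 5, nat_lit 20], false, nat_lit 240, nat_lit 280, nat_lit 240, nat_lit 336, ⟨nat_lit 606, nat_lit 0, nat_lit 394, nat_lit 6, nat_lit 129, nat_lit 394, nat_lit 202, nat_lit 394, nat_lit 4376, nat_lit 226, nat_lit 156817, nat_lit 312, nat_lit 47271500, nat_lit 0, nat_lit 0, nat_lit 4241005, false, false⟩,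
 nat_lit 8759, nat_lit 0, nat_lit 0, nat_lit 0, nat_lit 5573, nat_lit 5098, nat_lit 821, nat_lit 0, nat_lit 0, nat_lit 843, nat_lit 0, nat_lit 0, nat_lit 0, nat_lit 0, nat_lit 0, nat_lit 394000, nat_lit 0, nat_lit 0, [(nat_lit 12, [(nat_lit 6, nat_lit 394)])],
 ⟨p063_k7, nat_lit 0, nat_lit 0, nat_lit 179, nat_lit 0, nat_lit 274090, [nat_lit 2347274400, nat_lit 3168893600, nat_lit 3308673067], [], [nat_lit 17430009485, nat_lit 18133969090, nat_lit 16708171859, nat_lit 17390966092, nat_lit 19831383596, nat_lit 20711507781, nat_lit 19017261907, nat_lit 19681144117], nat_lit 1271250, nat_lit 1271250, nat_lit 279600, nat_lit 490000, nat_lit 1271250, nat_lit 1271250, [nat_lit 780000, nat_lit 1100000, nat_lit 1785000], [nat_lit 36, nat_lit 40, nat_lit 40, nat_lit 80, nat_lit 7, nat_lit 226, nat_lit 20, nat_lit 7]⟩, ⟨p063_k8, nat_lit 0, nat_lit 0, nat_lit 220, nat_lit 0, nat_lit 306527, [nat_lit 2840928000, nat_lit 3787500000,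 nat_lit 4828608000], [], [nat_lit 11757954032, nat_lit 12410972563, nat_lit 11124515177, nat_lit 11681354873, nat_lit 16075461653, nat_lit 17020448617, nat_lit 14883029940, nat_lit 15806747399], nat_lit 1271250, nat_lit 1271250, nat_lit 279600, nat_lit 490000, nat_lit 1271250, nat_lit 1271250, [nat_lit 1100000, nat_lit 1442500, nat_lit 1271250], [nat_lit 9, nat_lit 40, nat_lit 40, nat_lit 80, nat_lit 2, nat_lit 226, nat_lit 20, nat_lit 7]⟩,
 ⟨nat_lit 5244, nat_lit 5478, ⟨.ofNat (nat_lit 279324), .ofNat (nat_lit 339271), .ofNat (nat_lit 300681), .ofNat (nat_lit 360628), .ofNat (nat_lit 286104), .ofNat (nat_lit 344641), .ofNat (nat_lit 307490), .ofNat (nat_lit 366027)⟩, ⟨.ofNat (nat_lit 446789), .ofNat (nat_lit 521722), .ofNat (nat_lit 489503), .ofNat (nat_lit 564436), .ofNat (nat_lit 444857), .ofNat (nat_lit 518028), .ofNat (nat_lit 487628), .ofNat (nat_lit 560799)⟩⟩, [⟨nat_lit 0, nat_lit 100, nat_lit 97, nat_lit 84, nat_lit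 342213193⟩, ⟨nat_lit 11, nat_lit 96, nat_lit 100, nat_lit 79, nat_lit 462049430⟩]⟩
noncomputable def p063_l14 : Lf2 := ⟨nat_lit 0, nat_lit 5, [nat_lit 4, nat_lit 5, nat_lit 5, nat_lit 20], false, nat_lit 240, nat_lit 280, nat_lit 240, nat_lit 336, ⟨nat_lit 522, nat_lit 0, nat_lit 478, nat_lit 6, nat_lit 135, nat_lit 478, nat_lit 201, nat_lit 478, nat_lit 7372, nat_lit 228, nat_lit 170017, nat_lit 316, nat_lit 47013381, nat_lit 0, nat_lit 0, nat_lit 4293064, false, false⟩,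
 nat_lit 7204, nat_lit 0, nat_lit 0, nat_lit 0, nat_lit 4784, nat_lit 4193, nat_lit 759, nat_lit 0, nat_lit 0, nat_lit 720, nat_lit 0, nat_lit 0, nat_lit 0, nat_lit 0, nat_lit 0, nat_lit 191200, nat_lit 0, nat_lit 0, [(nat_lit 12, [(nat_lit 5, nat_lit 478)])],
 ⟨p063_k3, nat_lit 0, nat_lit 0, nat_lit 166, nat_lit 0, nat_lit 312187, [nat_lit 2306306400, nat_lit 2618260000, nat_lit 3004571200], [], [nat_lit 17772210191, nat_lit 18401926162, nat_lit 17478647019, nat_lit 18093549067, nat_lit 19908808819, nat_lit 20711116930, nat_lit 19533229467, nat_lit 20094510024], nat_lit 1271250, nat_lit 1271250, nat_lit 330400, nat_lit 490000, nat_lit 1271250, nat_lit 1271250, [nat_lit 780000, nat_lit 1100000, nat_lit 1442500], [nat_lit 59, nat_lit 40, nat_lit 40, nat_lit 80, nat_lit 3, nat_lit 226, nat_lit 20, nat_lit 8]⟩, ⟨p063_k8, nat_lit 0, nat_lit 0, nat_lit 257, nat_lit 0, nat_lit 368127, [nat_lit 2447136000, nat_lit 3262500000,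 nat_lit 4159296000], [], [nat_lit 10527546850, nat_lit 11009943997, nat_lit 10146365908, nat_lit 10615313204, nat_lit 13479360600, nat_lit 14180493923, nat_lit 12895297642, nat_lit 13441755261], nat_lit 1271250, nat_lit 1271250, nat_lit 330400, nat_lit 490000, nat_lit 1271250, nat_lit 1271250, [nat_lit 1100000, nat_lit 1442500, nat_lit 1271250], [nat_lit 9, nat_lit 40, nat_lit 40, nat_lit 80, nat_lit 2, nat_lit 226, nat_lit 20, nat_lit 7]⟩,
 ⟨nat_lit 5000, nat_lit 5245, ⟨.ofNat (nat_lit 300739), .ofNat (nat_lit 344641), .ofNat (nat_lit 322124), .ofNat (nat_lit 366025), .ofNat (nat_lit 307141), .ofNat (nat_lit 349999), .ofNat (nat_lit 328570), .ofNat (nat_lit 371426)⟩, ⟨.ofNat (nat_lit 444857), .ofNat (nat_lit 518028), .ofNat (nat_lit 487628), .ofNat (nat_lit 560799), .ofNat (nat_lit 442856), .ofNat (nat_lit 514284), .ofNat (nat_lit 485713), .ofNat (nat_lit 557141)⟩⟩, [⟨nat_lit 0, nat_lit 100, nat_lit 94, nat_lit 88, nat_lit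 377905587⟩, ⟨nat_lit 11, nat_lit 97, nat_lit 100, nat_lit 81, nat_lit 340956923⟩]⟩
noncomputable def p063_l15 : Lf2 := ⟨nat_lit 0, nat_lit 5, [nat_lit 4, nat_lit 5, nat_lit 5, nat_lit 20], false, nat_lit 240, nat_lit 280, nat_lit 240, nat_lit 352, ⟨nat_lit 1000, nat_lit 0, nat_lit 0, nat_lit 0, nat_lit 0, nat_lit 0, nat_lit 0, nat_lit 0, nat_lit 0, nat_lit 0, nat_lit 0, nat_lit 0, nat_lit 0, nat_lit 0, nat_lit 0, nat_lit 0, false, false⟩,
 nat_lit 12552, nat_lit 0, nat_lit 0, nat_lit 0, nat_lit 7987, nat_lit 7306, nat_lit 1445, nat_lit 0, nat_lit 0, nat_lit 1524, nat_lit 0, nat_lit 0, nat_lit 0, nat_lit 0, nat_lit 0, nat_lit 0, nat_lit 0, nat_lit 0, [],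
 ⟨p063_k7, nat_lit 0, nat_lit 0, nat_lit 161, nat_lit 0, nat_lit 274090, [nat_lit 3282000000, nat_lit 4688000000, nat_lit 7968000000], [], [nat_lit 17283053448, nat_lit 18123773975, nat_lit 16728070880, nat_lit 17523704363, nat_lit 20071505960, nat_lit 20822015294, nat_lit 19366621484, nat_lit 20077413656], nat_lit 1271250, nat_lit 1271250, nat_lit 490000, nat_lit 780000, nat_lit 1271250, nat_lit 1271250, [nat_lit 780000, nat_lit 1100000, nat_lit 1785000], [nat_lit 36, nat_lit 40, nat_lit 40, nat_lit 80, nat_lit 7, nat_lit 238, nat_lit 30, nat_lit 7]⟩, ⟨p063_k8, nat_lit 0, nat_lit 0, nat_lit 208, nat_lit 0, nat_lit 306527, [nat_lit 4688000000, nat_lit 6250000000, nat_lit 7968000000], [], [nat_lit 18540324188, nat_lit 19687883064, nat_lit 18220837448, nat_lit 19303933176, nat_lit 26026468769, nat_lit 26953644153, nat_lit 25228159160, nat_lit 26107323108], nat_lit 1271250, nat_lit 1271250, nat_lit 490000, nat_lit 780000,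 nat_lit 1271250, nat_lit 1271250, [nat_lit 1100000, nat_lit 1442500, nat_lit 1271250], [nat_lit 9, nat_lit 40, nat_lit 40, nat_lit 80, nat_lit 2, nat_lit 238, nat_lit 30, nat_lit 7]⟩,
 zbF0, [⟨nat_lit 11, nat_lit 92, nat_lit 100, nat_lit 76, nat_lit 76403717⟩, ⟨nat_lit 11, nat_lit 100, nat_lit 100, nat_lit 100, nat_lit 518125103⟩]⟩
noncomputable def p063_l16 : Lf2 := ⟨nat_lit 0, nat_lit 5, [nat_lit 4, nat_lit 5, nat_lit 5, nat_lit 20], false, nat_lit 240, nat_lit 280, nat_lit 240, nat_lit 352, ⟨nat_lit 491, nat_lit 0, nat_lit 509, nat_lit 6, nat_lit 158, nat_lit 509, nat_lit 201, nat_lit 509, nat_lit 7372, nat_lit 228, nat_lit 232067, nat_lit 333, nat_lit 45419342, nat_lit 0, nat_lit 0, nat_lit 4542717, false, false⟩,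
 nat_lit 7099, nat_lit 0, nat_lit 0, nat_lit 0, nat_lit 4714, nat_lit 4132, nat_lit 697, nat_lit 0, nat_lit 0, nat_lit 749, nat_lit 0, nat_lit 0, nat_lit 0, nat_lit 0, nat_lit 0, nat_lit 203600, nat_lit 0, nat_lit 0, [(nat_lit 12, [(nat_lit 5, nat_lit 509)])],
 ⟨p063_k3, nat_lit 0, nat_lit 0, nat_lit 153, nat_lit 0, nat_lit 312187, [nat_lit 2243029200, nat_lit 2484030000, nat_lit 2794093600], [], [nat_lit 17458396099, nat_lit 18068828857, nat_lit 17567811581, nat_lit 18148327949, nat_lit 19499879132, nat_lit 20055223504, nat_lit 19511051783, nat_lit 20039214033], nat_lit 1271250, nat_lit 1271250, nat_lit 490000, nat_lit 780000, nat_lit 1271250, nat_lit 1271250, [nat_lit 780000, nat_lit 1100000, nat_lit 1442500], [nat_lit 59, nat_lit 40, nat_lit 40, nat_lit 80, nat_lit 3, nat_lit 238, nat_lit 30, nat_lit 8]⟩, ⟨p063_k8, nat_lit 0, nat_lit 0, nat_lit 248, nat_lit 0, nat_lit 368127, [nat_lit 2301808000, nat_lit 3068750000,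 nat_lit 3912288000], [], [nat_lit 8796495255, nat_lit 9249020015, nat_lit 8520672693, nat_lit 8943386019, nat_lit 13111809106, nat_lit 13804755785, nat_lit 12532068990, nat_lit 13192443414], nat_lit 1271250, nat_lit 1271250, nat_lit 490000, nat_lit 780000, nat_lit 1271250, nat_lit 1271250, [nat_lit 1100000, nat_lit 1442500, nat_lit 1271250], [nat_lit 9, nat_lit 40, nat_lit 40, nat_lit 80, nat_lit 2, nat_lit 238, nat_lit 30, nat_lit 7]⟩,
 ⟨nat_lit 5000, nat_lit 5245, ⟨.ofNat (nat_lit 344641), .ofNat (nat_lit 417811), .ofNat (nat_lit 366025), .ofNat (nat_lit 439194), .ofNat (nat_lit 349999), .ofNat (nat_lit 421425), .ofNat (nat_lit 371426), .ofNat (nat_lit 442852)⟩, ⟨.ofNat (nat_lit 444857), .ofNat (nat_lit 518028), .ofNat (nat_lit 487628), .ofNat (nat_lit 560799), .ofNat (nat_lit 442856), .ofNat (nat_lit 514284), .ofNat (nat_lit 485713), .ofNat (nat_lit 557141)⟩⟩, [⟨nat_lit 0, nat_lit 100, nat_lit 94, nat_lit 88, nat_lit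 151965418⟩, ⟨nat_lit 7, nat_lit 82, nat_lit 100, nat_lit 92, nat_lit 94524134⟩, ⟨nat_lit 11, nat_lit 100, nat_lit 100, nat_lit 100, nat_lit 239872560⟩]⟩
noncomputable def p063_l17 : Lf2 := ⟨nat_lit 0, nat_lit 10, [nat_lit 0, nat_lit 5, nat_lit 5, nat_lit 20], false, nat_lit 240, nat_lit 260, nat_lit 240, nat_lit 352, ⟨nat_lit 4, nat_lit 0, nat_lit 996, nat_lit 6, nat_lit 144, nat_lit 996, nat_lit 194, nat_lit 996, nat_lit 14557, nat_lit 244, nat_lit 194400, nat_lit 323, nat_lit 46903042, nat_lit 0, nat_lit 0, nat_lit 4344624, false, false⟩,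
 nat_lit 59, nat_lit 5656, nat_lit 0, nat_lit 0, nat_lit 3636, nat_lit 34, nat_lit 145, nat_lit 0, nat_lit 0, nat_lit 6, nat_lit 0, nat_lit 0, nat_lit 0, nat_lit 0, nat_lit 93, nat_lit 398400, nat_lit 0, nat_lit 0, [(nat_lit 12, [(nat_lit 5, nat_lit 996)])],
 ⟨p063_k11, nat_lit 0, nat_lit 0, nat_lit 143, nat_lit 0, nat_lit 75673, [nat_lit 2364964800, nat_lit 1352472001, nat_lit 195200000], [], [nat_lit 16535700191, nat_lit 17057936762, nat_lit 16377259237, nat_lit 16830791181, nat_lit 17436445614, nat_lit 17939150689, nat_lit 17185402453, nat_lit 17672030231], nat_lit 1271250, nat_lit 1271250, nat_lit 279600, nat_lit 780000, nat_lit 1271250, nat_lit 1271250, [nat_lit 780000, nat_lit 1435000, nat_lit 1271250], [nat_lit 8, nat_lit 40, nat_lit 40, nat_lit 80, nat_lit 1, nat_lit 317, nat_lit 100, nat_lit 9]⟩, ⟨p063_k12, nat_lit 0, nat_lit 0, nat_lit 185, nat_lit 0, nat_lit 84789, [nat_lit 18752000, nat_lit 31872000, nat_lit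 39368000], [], [nat_lit 76132457, nat_lit 82377735, nat_lit 68456808, nat_lit 74164912, nat_lit 115382508, nat_lit 121181669, nat_lit 103367432, nat_lit 107745280], nat_lit 1271250, nat_lit 1271250, nat_lit 279600, nat_lit 780000, nat_lit 1271250, nat_lit 1271250, [nat_lit 1100000, nat_lit 1785000, nat_lit 1271250], [nat_lit 29, nat_lit 40, nat_lit 40, nat_lit 80, nat_lit 17, nat_lit 428, nat_lit 200, nat_lit 12]⟩,
 ⟨nat_lit 5244, nat_lit 5478, ⟨.ofNat (nat_lit 279324), .ofNat (nat_lit 414204), .ofNat (nat_lit 300681), .ofNat (nat_lit 435559), .ofNat (nat_lit 286104), .ofNat (nat_lit 417813), .ofNat (nat_lit 307490), .ofNat (nat_lit 439196)⟩, ⟨.ofNat (nat_lit 446789), .ofNat (nat_lit 484256), .ofNat (nat_lit 489503), .ofNat (nat_lit 526970), .ofNat (nat_lit 444857), .ofNat (nat_lit 481443), .ofNat (nat_lit 487628), .ofNat (nat_lit 524213)⟩⟩, [⟨nat_lit 0, nat_lit 100, nat_lit 97, nat_lit 84, nat_lit 134567508⟩, ⟨nat_lit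 7, nat_lit 82, nat_lit 100, nat_lit 92, nat_lit 2908341⟩]⟩
noncomputable def p063_l18 : Lf2 := ⟨nat_lit 0, nat_lit 10, [nat_lit 0, nat_lit 5, nat_lit 5, nat_lit 20], false, nat_lit 240, nat_lit 260, nat_lit 240, nat_lit 352, ⟨nat_lit 72, nat_lit 0, nat_lit 928, nat_lit 6, nat_lit 149, nat_lit 928, nat_lit 193, nat_lit 928, nat_lit 18314, nat_lit 246, nat_lit 209067, nat_lit 327, nat_lit 46632560, nat_lit 0, nat_lit 0, nat_lit 4390493, false, false⟩,
 nat_lit 1022, nat_lit 4703, nat_lit 0, nat_lit 0, nat_lit 3802, nat_lit 594, nat_lit 80, nat_lit 0, nat_lit 0, nat_lit 96, nat_lit 0, nat_lit 0, nat_lit 0, nat_lit 0, nat_lit 43, nat_lit 371200, nat_lit 0, nat_lit 0, [(nat_lit 12, [(nat_lit 5, nat_lit 928)])],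
 ⟨p063_k13, nat_lit 0, nat_lit 0, nat_lit 128, nat_lit 0, nat_lit 126510, [nat_lit 1903766400, nat_lit 813829334, nat_lit 104229866], [], [nat_lit 17167020910, nat_lit 17719805231, nat_lit 17182338364, nat_lit 17670122846, nat_lit 18113530139, nat_lit 18670246221, nat_lit 18009033289, nat_lit 18476875768], nat_lit 1271250, nat_lit 1271250, nat_lit 330400, nat_lit 780000, nat_lit 1271250, nat_lit 1271250, [nat_lit 780000, nat_lit 1435000, nat_lit 1271250], [nat_lit 18, nat_lit 40, nat_lit 40, nat_lit 80, nat_lit 2, nat_lit 238, nat_lit 30, nat_lit 7]⟩, ⟨p063_k12, nat_lit 0, nat_lit 0, nat_lit 204, nat_lit 0, nat_lit 149592, [nat_lit 337536000, nat_lit 573696000, nat_lit 708624000], [], [nat_lit 1407197607, nat_lit 1503610474, nat_lit 1283601528, nat_lit 1372890096, nat_lit 2047176011, nat_lit 2120578500, nat_lit 1888990165, nat_lit 1955508797], nat_lit 1271250, nat_lit 1271250, nat_lit 330400, nat_lit 780000, nat_lit 1271250,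 nat_lit 1271250, [nat_lit 1100000, nat_lit 1785000, nat_lit 1271250], [nat_lit 29, nat_lit 40, nat_lit 40, nat_lit 80, nat_lit 17, nat_lit 428, nat_lit 200, nat_lit 12]⟩,
 ⟨nat_lit 5000, nat_lit 5245, ⟨.ofNat (nat_lit 300739), .ofNat (nat_lit 417811), .ofNat (nat_lit 322124), .ofNat (nat_lit 439194), .ofNat (nat_lit 307141), .ofNat (nat_lit 421425), .ofNat (nat_lit 328570), .ofNat (nat_lit 442852)⟩, ⟨.ofNat (nat_lit 444857), .ofNat (nat_lit 481443), .ofNat (nat_lit 487628), .ofNat (nat_lit 524213), .ofNat (nat_lit 442856), .ofNat (nat_lit 478570), .ofNat (nat_lit 485713), .ofNat (nat_lit 521427)⟩⟩, [⟨nat_lit 0, nat_lit 100, nat_lit 94, nat_lit 88, nat_lit 176335791⟩, ⟨nat_lit 7, nat_lit 82, nat_lit 100, nat_lit 92, nat_lit 49689919⟩]⟩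
noncomputable def p063_l19 : Lf2 := ⟨nat_lit 0, nat_lit 8, [nat_lit 50, nat_lit 5, nat_lit 5, nat_lit 20], true, nat_lit 260, nat_lit 280, nat_lit 240, nat_lit 320, ⟨nat_lit 0, nat_lit 1000, nat_lit 0, nat_lit 6, nat_lit 142, nat_lit 1000, nat_lit 209, nat_lit 0, nat_lit 0, nat_lit 0, nat_lit 0, nat_lit 0, nat_lit 45780498, nat_lit 7472817, nat_lit 13746685, nat_lit 4446031, false, false⟩,
 nat_lit 0, nat_lit 6482, nat_lit 0, nat_lit 0, nat_lit 4124, nat_lit 0, nat_lit 0, nat_lit 0, nat_lit 0, nat_lit 0, nat_lit 0, nat_lit 0, nat_lit 0, nat_lit 0, nat_lit 0, nat_lit 250000, nat_lit 0, nat_lit 0, [(nat_lit 12, [(nat_lit 0, nat_lit 1000)])],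
 ⟨p063_k14, nat_lit 0, nat_lit 0, nat_lit 99, nat_lit 0, nat_lit 46985, [nat_lit 2364000000, nat_lit 2875200000, nat_lit 3241600000], [], [nat_lit 17641505588, nat_lit 18355503250, nat_lit 17501080416, nat_lit 18161635136, nat_lit 18927940626, nat_lit 19606089854, nat_lit 18693854016, nat_lit 19322185716], nat_lit 1271250, nat_lit 1271250, nat_lit 279600, nat_lit 780000, nat_lit 1271250, nat_lit 1271250, [nat_lit 780000, nat_lit 1435000, nat_lit 1271250], [nat_lit 18, nat_lit 40, nat_lit 40, nat_lit 80, nat_lit 2, nat_lit 238, nat_lit 30, nat_lit 7]⟩, C1.Rw.none,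
 ⟨nat_lit 5244, nat_lit 5478, ⟨.ofNat (nat_lit 279324), .ofNat (nat_lit 414204), .ofNat (nat_lit 290003), .ofNat (nat_lit 424881), .ofNat (nat_lit 286104), .ofNat (nat_lit 417813), .ofNat (nat_lit 296797), .ofNat (nat_lit 428505)⟩, ⟨.ofNat (nat_lit 484256), .ofNat (nat_lit 521722), .ofNat (nat_lit 526970), .ofNat (nat_lit 564436), .ofNat (nat_lit 481443), .ofNat (nat_lit 518028), .ofNat (nat_lit 524213), .ofNat (nat_lit 560799)⟩⟩, [⟨nat_lit 0, nat_lit 100, nat_lit 95, nat_lit 78, nat_lit 130355357⟩]⟩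
noncomputable def p063_l20 : Lf2 := ⟨nat_lit 0, nat_lit 8, [nat_lit 50, nat_lit 5, nat_lit 5, nat_lit 20], false, nat_lit 260, nat_lit 280, nat_lit 240, nat_lit 320, ⟨nat_lit 627, nat_lit 0, nat_lit 373, nat_lit 6, nat_lit 147, nat_lit 373, nat_lit 208, nat_lit 373, nat_lit 7372, nat_lit 228, nat_lit 201667, nat_lit 325, nat_lit 45558498, nat_lit 0, nat_lit 0, nat_lit 4489082, false, false⟩,
 nat_lit 10059, nat_lit 0, nat_lit 0, nat_lit 0, nat_lit 6680, nat_lit 5855, nat_lit 0, nat_lit 0, nat_lit 0, nat_lit 886, nat_lit 0, nat_lit 0, nat_lit 0, nat_lit 0, nat_lit 0, nat_lit 91640, nat_lit 0, nat_lit 0, [(nat_lit 12, [(nat_lit 3, nat_lit 23), (nat_lit 4, nat_lit 350)])],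
 ⟨p063_k15, nat_lit 0, nat_lit 0, nat_lit 94, nat_lit 0, nat_lit 82067, [nat_lit 3959756401, nat_lit 3813080400, nat_lit 4566106200], [], [nat_lit 20067791830, nat_lit 20858255581, nat_lit 19199270641, nat_lit 19861579721, nat_lit 21433755284, nat_lit 22194268696, nat_lit 20340254761, nat_lit 20967945761], nat_lit 1271250, nat_lit 1271250, nat_lit 330400, nat_lit 780000, nat_lit 1271250, nat_lit 1271250, [nat_lit 780000, nat_lit 1435000, nat_lit 1271250], [nat_lit 18, nat_lit 40, nat_lit 40, nat_lit 80, nat_lit 2, nat_lit 238, nat_lit 30, nat_lit 7]⟩, ⟨p063_k16, nat_lit 0, nat_lit 0, nat_lit 164, nat_lit 0, nat_lit 96936, [nat_lit 2939376000, nat_lit 4995936000, nat_lit 6170934000], [], [nat_lit 11621992050, nat_lit 12072362183, nat_lit 10299945578, nat_lit 10714595579, nat_lit 15595391896, nat_lit 15979873366, nat_lit 14096792434, nat_lit 14451324165], nat_lit 1271250, nat_lit 1271250, nat_lit 330400, nat_lit 780000,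 nat_lit 1271250, nat_lit 1271250, [nat_lit 1100000, nat_lit 1785000, nat_lit 1271250], [nat_lit 29, nat_lit 40, nat_lit 40, nat_lit 80, nat_lit 17, nat_lit 428, nat_lit 200, nat_lit 12]⟩,
 ⟨nat_lit 5000, nat_lit 5245, ⟨.ofNat (nat_lit 300739), .ofNat (nat_lit 417811), .ofNat (nat_lit 311431), .ofNat (nat_lit 428503), .ofNat (nat_lit 307141), .ofNat (nat_lit 421425), .ofNat (nat_lit 317856), .ofNat (nat_lit 432139)⟩, ⟨.ofNat (nat_lit 481443), .ofNat (nat_lit 518028), .ofNat (nat_lit 524213), .ofNat (nat_lit 560799), .ofNat (nat_lit 478570), .ofNat (nat_lit 514284), .ofNat (nat_lit 521427), .ofNat (nat_lit 557141)⟩⟩, [⟨nat_lit 0, nat_lit 100, nat_lit 92, nat_lit 82, nat_lit 218206314⟩, ⟨nat_lit 11, nat_lit 100, nat_lit 100, nat_lit 94, nat_lit 422626192⟩]⟩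
noncomputable def p063_l21 : Lf2 := ⟨nat_lit 1, nat_lit 10, [nat_lit 0, nat_lit 5, nat_lit 5, nat_lit 20], false, nat_lit 260, nat_lit 280, nat_lit 240, nat_lit 320, zbN0,
 nat_lit 0, nat_lit 0, nat_lit 0, nat_lit 0, nat_lit 0, nat_lit 0, nat_lit 0, nat_lit 0, nat_lit 0, nat_lit 0, nat_lit 0, nat_lit 0, nat_lit 0, nat_lit 0, nat_lit 0, nat_lit 0, nat_lit 0, nat_lit 0, [],
 C1.Rw.none, C1.Rw.none,
 zbF0, []⟩
noncomputable def p063_l22 : Lf2 := ⟨nat_lit 0, nat_lit 8, [nat_lit 50, nat_lit 5, nat_lit 5, nat_lit 20], false, nat_lit 260, nat_lit 280, nat_lit 240, nat_lit 320, ⟨nat_lit 1000, nat_lit 0, nat_lit 0, nat_lit 0, nat_lit 0, nat_lit 0, nat_lit 0, nat_lit 0, nat_lit 0, nat_lit 0, nat_lit 0, nat_lit 0, nat_lit 0, nat_lit 0, nat_lit 0, nat_lit 0, false, false⟩,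
 nat_lit 7885, nat_lit 0, nat_lit 5403, nat_lit 0, nat_lit 5017, nat_lit 8092, nat_lit 0, nat_lit 0, nat_lit 0, nat_lit 1417, nat_lit 0, nat_lit 0, nat_lit 0, nat_lit 0, nat_lit 0, nat_lit 0, nat_lit 0, nat_lit 0, [],
 ⟨p063_k14, nat_lit 0, nat_lit 0, nat_lit 97, nat_lit 0, nat_lit 76795, [nat_lit 3282000000, nat_lit 6250000000, nat_lit 7968000000], [], [nat_lit 17917617695, nat_lit 18703840893, nat_lit 17562768428, nat_lit 18293394626, nat_lit 19325529998, nat_lit 20070440013, nat_lit 18873328728, nat_lit 19566447578], nat_lit 1271250, nat_lit 1271250, nat_lit 330400, nat_lit 780000, nat_lit 1271250, nat_lit 1271250, [nat_lit 780000, nat_lit 1435000, nat_lit 1271250], [nat_lit 18, nat_lit 40, nat_lit 40, nat_lit 80, nat_lit 2, nat_lit 238, nat_lit 30, nat_lit 7]⟩, ⟨p063_k17, nat_lit 0, nat_lit 0, nat_lit 160, nat_lit 0, nat_lit 81173, [nat_lit 4688000000, nat_lit 7968000000, nat_lit 9842000000], [], [nat_lit 18871372931,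 nat_lit 19533826562, nat_lit 17332592084, nat_lit 17902784932, nat_lit 24643784927, nat_lit 25213373150, nat_lit 22690942904, nat_lit 23217833108], nat_lit 1271250, nat_lit 1271250, nat_lit 330400, nat_lit 780000, nat_lit 1271250, nat_lit 1271250, [nat_lit 1100000, nat_lit 1785000, nat_lit 1271250], [nat_lit 29, nat_lit 40, nat_lit 40, nat_lit 80, nat_lit 17, nat_lit 428, nat_lit 200, nat_lit 12]⟩,
 zbF0, [⟨nat_lit 0, nat_lit 100, nat_lit 97, nat_lit 84, nat_lit 145638236⟩, ⟨nat_lit 23, nat_lit 100, nat_lit 87, nat_lit 88, nat_lit 158941935⟩, ⟨nat_lit 11, nat_lit 100, nat_lit 100, nat_lit 94, nat_lit 488415283⟩]⟩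
noncomputable def p063_l23 : Lf2 := ⟨nat_lit 0, nat_lit 8, [nat_lit 50, nat_lit 5, nat_lit 5, nat_lit 20], false, nat_lit 260, nat_lit 280, nat_lit 240, nat_lit 320, ⟨nat_lit 775, nat_lit 0, nat_lit 225, nat_lit 6, nat_lit 154, nat_lit 225, nat_lit 208, nat_lit 225, nat_lit 7372, nat_lit 228, nat_lit 224267, nat_lit 331, nat_lit 45072494, nat_lit 0, nat_lit 0, nat_lit 4563589, false, false⟩,
 nat_lit 10594, nat_lit 0, nat_lit 0, nat_lit 0, nat_lit 7035, nat_lit 6451, nat_lit 775, nat_lit 0, nat_lit 0, nat_lit 1040, nat_lit 0, nat_lit 0, nat_lit 0, nat_lit 0, nat_lit 0, nat_lit 54360, nat_lit 0, nat_lit 0, [(nat_lit 12, [(nat_lit 3, nat_lit 27), (nat_lit 4, nat_lit 198)])],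
 ⟨p063_k15, nat_lit 0, nat_lit 0, nat_lit 130, nat_lit 0, nat_lit 126466, [nat_lit 4262823600, nat_lit 4781520400, nat_lit 5918505600], [], [nat_lit 20100261459, nat_lit 20849956307, nat_lit 19100721719, nat_lit 19779283665, nat_lit 21378769995, nat_lit 22100103256, nat_lit 20269044645, nat_lit 20914707520], nat_lit 1271250, nat_lit 1271250, nat_lit 382400, nat_lit 780000, nat_lit 1271250, nat_lit 1271250, [nat_lit 780000, nat_lit 1435000, nat_lit 1271250], [nat_lit 18, nat_lit 40, nat_lit 40, nat_lit 80, nat_lit 2, nat_lit 238, nat_lit 30, nat_lit 7]⟩, ⟨p063_k17, nat_lit 0, nat_lit 0, nat_lit 178, nat_lit 0, nat_lit 141025, [nat_lit 3633200000, nat_lit 6175200000, nat_lit 7627550000], [], [nat_lit 14581857356, nat_lit 15099273789, nat_lit 13467658775, nat_lit 13948845220, nat_lit 18895903616, nat_lit 19340320672, nat_lit 17609663937, nat_lit 18023563224], nat_lit 1271250, nat_lit 1271250, nat_lit 382400, nat_lit 780000,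 nat_lit 1271250, nat_lit 1271250, [nat_lit 1100000, nat_lit 1785000, nat_lit 1271250], [nat_lit 29, nat_lit 40, nat_lit 40, nat_lit 80, nat_lit 17, nat_lit 428, nat_lit 200, nat_lit 12]⟩,
 ⟨nat_lit 5000, nat_lit 5245, ⟨.ofNat (nat_lit 326066), .ofNat (nat_lit 428503), .ofNat (nat_lit 336758), .ofNat (nat_lit 439194), .ofNat (nat_lit 332141), .ofNat (nat_lit 432139), .ofNat (nat_lit 342855), .ofNat (nat_lit 442852)⟩, ⟨.ofNat (nat_lit 481443), .ofNat (nat_lit 518028), .ofNat (nat_lit 524213), .ofNat (nat_lit 560799), .ofNat (nat_lit 478570), .ofNat (nat_lit 514284), .ofNat (nat_lit 521427), .ofNat (nat_lit 557141)⟩⟩, [⟨nat_lit 0, nat_lit 100, nat_lit 94, nat_lit 88, nat_lit 311961174⟩, ⟨nat_lit 19, nat_lit 100, nat_lit 85, nat_lit 93, nat_lit 47590857⟩, ⟨nat_lit 11, nat_lit 100, nat_lit 100, nat_lit 96, nat_lit 416214661⟩]⟩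
noncomputable def p063_l24 : Lf2 := ⟨nat_lit 0, nat_lit 10, [nat_lit 0, nat_lit 5, nat_lit 5, nat_lit 20], false, nat_lit 260, nat_lit 280, nat_lit 240, nat_lit 320, ⟨nat_lit 1000, nat_lit 0, nat_lit 0, nat_lit 0, nat_lit 0, nat_lit 0, nat_lit 0, nat_lit 0, nat_lit 0, nat_lit 0, nat_lit 0, nat_lit 0, nat_lit 0, nat_lit 0, nat_lit 0, nat_lit 0, false, false⟩,
 nat_lit 13880, nat_lit 0, nat_lit 0, nat_lit 0, nat_lit 4945, nat_lit 8453, nat_lit 0, nat_lit 0, nat_lit 0, nat_lit 1246, nat_lit 0, nat_lit 0, nat_lit 0, nat_lit 0, nat_lit 0, nat_lit 0, nat_lit 0, nat_lit 0, [],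
 ⟨p063_k11, nat_lit 0, nat_lit 0, nat_lit 95, nat_lit 0, nat_lit 41692, [nat_lit 3282000000, nat_lit 6250000000, nat_lit 9842000000], [], [nat_lit 17962201390, nat_lit 19522169777, nat_lit 17631810380, nat_lit 19081763455, nat_lit 19359603797, nat_lit 20837886761, nat_lit 18932873880, nat_lit 20308664380], nat_lit 1271250, nat_lit 1271250, nat_lit 330400, nat_lit 780000, nat_lit 1271250, nat_lit 1271250, [nat_lit 780000, nat_lit 1435000, nat_lit 1271250], [nat_lit 8, nat_lit 40, nat_lit 40, nat_lit 80, nat_lit 1, nat_lit 317, nat_lit 100, nat_lit 8]⟩, ⟨p063_k18, nat_lit 0, nat_lit 0, nat_lit 145, nat_lit 0, nat_lit 44084, [nat_lit 4688000000, nat_lit 7968000000, nat_lit 9842000000], [], [nat_lit 19645328754, nat_lit 20323959228, nat_lit 17803004300, nat_lit 18429038410, nat_lit 25040438416, nat_lit 25550404289, nat_lit 22874178011, nat_lit 23412236472], nat_lit 1271250, nat_lit 1271250, nat_lit 330400, nat_lit 780000,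 nat_lit 1271250, nat_lit 1271250, [nat_lit 1100000, nat_lit 1785000, nat_lit 1271250], [nat_lit 29, nat_lit 40, nat_lit 40, nat_lit 80, nat_lit 17, nat_lit 428, nat_lit 200, nat_lit 12]⟩,
 zbF0, [⟨nat_lit 0, nat_lit 100, nat_lit 94, nat_lit 88, nat_lit 241402398⟩, ⟨nat_lit 19, nat_lit 100, nat_lit 85, nat_lit 93, nat_lit 10347900⟩, ⟨nat_lit 11, nat_lit 100, nat_lit 100, nat_lit 94, nat_lit 580717399⟩]⟩
noncomputable def p063_l25 : Lf2 := ⟨nat_lit 0, nat_lit 10, [nat_lit 0, nat_lit 5, nat_lit 5, nat_lit 20], false, nat_lit 260, nat_lit 280, nat_lit 320, nat_lit 352, ⟨nat_lit 1000, nat_lit 0, nat_lit 0, nat_lit 0, nat_lit 0, nat_lit 0, nat_lit 0, nat_lit 0, nat_lit 0, nat_lit 0, nat_lit 0, nat_lit 0, nat_lit 0, nat_lit 0, nat_lit 0, nat_lit 0, false, false⟩,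
 nat_lit 8370, nat_lit 0, nat_lit 8193, nat_lit 0, nat_lit 5326, nat_lit 9640, nat_lit 0, nat_lit 0, nat_lit 0, nat_lit 1225, nat_lit 0, nat_lit 0, nat_lit 0, nat_lit 0, nat_lit 0, nat_lit 0, nat_lit 0, nat_lit 0, [],
 ⟨p063_k11, nat_lit 0, nat_lit 0, nat_lit 85, nat_lit 0, nat_lit 75673, [nat_lit 3282000000, nat_lit 6250000000, nat_lit 9842000000], [], [nat_lit 17246908942, nat_lit 18041381987, nat_lit 17266463384, nat_lit 18021336039, nat_lit 18729807856, nat_lit 19564253896, nat_lit 18617780784, nat_lit 19333317584], nat_lit 1271250, nat_lit 1271250, nat_lit 490000, nat_lit 780000, nat_lit 1271250, nat_lit 1271250, [nat_lit 780000, nat_lit 1435000, nat_lit 1271250], [nat_lit 8, nat_lit 40, nat_lit 40, nat_lit 80, nat_lit 1, nat_lit 317, nat_lit 100, nat_lit 8]⟩, ⟨p063_k12, nat_lit 0, nat_lit 0, nat_lit 161, nat_lit 0, nat_lit 84789, [nat_lit 4688000000, nat_lit 7968000000, nat_lit 9842000000], [], [nat_lit 23862524380,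 nat_lit 24923901420, nat_lit 22608875420, nat_lit 23730997360, nat_lit 27873246176, nat_lit 29398023681, nat_lit 26399899153, nat_lit 27850784224], nat_lit 1271250, nat_lit 1271250, nat_lit 490000, nat_lit 780000, nat_lit 1271250, nat_lit 1271250, [nat_lit 1100000, nat_lit 1785000, nat_lit 1271250], [nat_lit 29, nat_lit 40, nat_lit 40, nat_lit 80, nat_lit 17, nat_lit 317, nat_lit 100, nat_lit 8]⟩,
 zbF0, [⟨nat_lit 7, nat_lit 82, nat_lit 100, nat_lit 92, nat_lit 314052757⟩, ⟨nat_lit 23, nat_lit 100, nat_lit 82, nat_lit 92, nat_lit 913186289⟩]⟩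
noncomputable def p063_l26 : Lf2 := ⟨nat_lit 0, nat_lit 10, [nat_lit 0, nat_lit 5, nat_lit 5, nat_lit 20], false, nat_lit 260, nat_lit 280, nat_lit 320, nat_lit 352, ⟨nat_lit 1000, nat_lit 0, nat_lit 0, nat_lit 0, nat_lit 0, nat_lit 0, nat_lit 0, nat_lit 0, nat_lit 0, nat_lit 0, nat_lit 0, nat_lit 0, nat_lit 0, nat_lit 0, nat_lit 0, nat_lit 0, false, false⟩,
 nat_lit 16523, nat_lit 0, nat_lit 0, nat_lit 0, nat_lit 9428, nat_lit 9617, nat_lit 0, nat_lit 0, nat_lit 0, nat_lit 1241, nat_lit 0, nat_lit 0, nat_lit 0, nat_lit 0, nat_lit 0, nat_lit 0, nat_lit 0, nat_lit 0, [],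
 ⟨p063_k13, nat_lit 0, nat_lit 0, nat_lit 93, nat_lit 0, nat_lit 126510, [nat_lit 3282000000, nat_lit 6250000000, nat_lit 7968000000], [], [nat_lit 19649360012, nat_lit 20625149140, nat_lit 18825364215, nat_lit 19747163242, nat_lit 21502227388, nat_lit 22700890008, nat_lit 20401346054, nat_lit 21537316092], nat_lit 1271250, nat_lit 1271250, nat_lit 490000, nat_lit 780000, nat_lit 1271250, nat_lit 1271250, [nat_lit 780000, nat_lit 1435000, nat_lit 1271250], [nat_lit 18, nat_lit 40, nat_lit 40, nat_lit 80, nat_lit 2, nat_lit 238, nat_lit 30, nat_lit 7]⟩, ⟨p063_k12, nat_lit 0, nat_lit 0, nat_lit 186, nat_lit 0, nat_lit 149592, [nat_lit 4688000000, nat_lit 7968000000, nat_lit 9842000000], [], [nat_lit 23792704814, nat_lit 24907322752, nat_lit 22571173950, nat_lit 23719312208, nat_lit 27851289953, nat_lit 29373935964, nat_lit 26383439046, nat_lit 27832334508], nat_lit 1271250, nat_lit 1271250, nat_lit 490000, nat_lit 780000,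 nat_lit 1271250, nat_lit 1271250, [nat_lit 1100000, nat_lit 1785000, nat_lit 1271250], [nat_lit 29, nat_lit 40, nat_lit 40, nat_lit 80, nat_lit 17, nat_lit 317, nat_lit 100, nat_lit 8]⟩,
 zbF0, [⟨nat_lit 19, nat_lit 100, nat_lit 82, nat_lit 92, nat_lit 489030899⟩, ⟨nat_lit 23, nat_lit 100, nat_lit 82, nat_lit 92, nat_lit 1032555899⟩]⟩
noncomputable def b_V_700_600_20_28 : St := ⟨true, nat_lit 1, nat_lit 1, nat_lit 1, nat_lit 120, nat_lit 280, nat_lit 300, nat_lit 240, nat_lit 280, nat_lit 36, nat_lit 120, nat_lit 80, nat_lit 120, nat_lit 240, nat_lit 280, nat_lit 0, nat_lit 364, nat_lit 0, nat_lit 40, nat_lit 0, nat_lit 0, nat_lit 0, nat_lit 0⟩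
theorem d_V_700_600_20_28 (h : EB TB.env) : Dead b_V_700_600_20_28 := chkB_sound0 h (T :=
(.spl (nat_lit 1) (nat_lit 260)
(.spl (nat_lit 6) (nat_lit 28)
(.spl (nat_lit 6) (nat_lit 20)
(.spl (nat_lit 2) (nat_lit 80)
(.trX (nat_lit 23) (nat_lit 100) (nat_lit 76) (nat_lit 82) (nat_lit 336) (.spl (nat_lit 3) (nat_lit 100)
(.spl (nat_lit 6) (nat_lit 8)
(.leaf p063_l0)
(.leaf p063_l1))
(.spl (nat_lit 0) (nat_lit 290)
(.spl (nat_lit 6) (nat_lit 12)
(.leaf p063_l2)
(.leaf p063_l3))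
(.trZ (nat_lit 0) (nat_lit 100) (nat_lit 91) (nat_lit 63) (nat_lit 40) (.leaf p063_l4)))))
(.spl (nat_lit 3) (nat_lit 100)
(.trX (nat_lit 19) (nat_lit 100) (nat_lit 68) (nat_lit 88) (nat_lit 352) (.leaf p063_l5))
(.leaf p063_l6)))
(.leaf p063_l7))
(.leaf p063_l8))
(.trZ (nat_lit 0) (nat_lit 100) (nat_lit 96) (nat_lit 69) (nat_lit 48) (.trX (nat_lit 19) (nat_lit 100) (nat_lit 69) (nat_lit 96) (nat_lit 352) (.spl (nat_lit 5) (nat_lit 160)
(.spl (nat_lit 6) (nat_lit 20)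
(.leaf p063_l9)
(.leaf p063_l10))
(.spl (nat_lit 5) (nat_lit 240)
(.spl (nat_lit 6) (nat_lit 20)
(.leaf p063_l11)
(.leaf p063_l12))
(.spl (nat_lit 6) (nat_lit 20)
(.spl (nat_lit 2) (nat_lit 80)
(.trX (nat_lit 23) (nat_lit 100) (nat_lit 76) (nat_lit 82) (nat_lit 336) (.spl (nat_lit 0) (nat_lit 290)
(.leaf p063_l13)
(.trZ (nat_lit 0) (nat_lit 100) (nat_lit 94) (nat_lit 73) (nat_lit 56) (.leaf p063_l14))))
(.spl (nat_lit 0) (nat_lit 290)
(.leaf p063_l15)
(.leaf p063_l16)))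
(.spl (nat_lit 4) (nat_lit 260)
(.spl (nat_lit 0) (nat_lit 290)
(.leaf p063_l17)
(.trZ (nat_lit 0) (nat_lit 100) (nat_lit 94) (nat_lit 73) (nat_lit 56) (.leaf p063_l18)))
(.spl (nat_lit 5) (nat_lit 320)
(.spl (nat_lit 1) (nat_lit 270)
(.spl (nat_lit 6) (nat_lit 32)
(.spl (nat_lit 0) (nat_lit 290)
(.leaf p063_l19)
(.trZ (nat_lit 0) (nat_lit 100) (nat_lit 94) (nat_lit 73) (nat_lit 56) (.leaf p063_l20)))
(.leaf p063_l21))
(.trZ (nat_lit 0) (nat_lit 100) (nat_lit 98) (nat_lit 74) (nat_lit 56) (.spl (nat_lit 6) (nat_lit 32)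
(.spl (nat_lit 0) (nat_lit 290)
(.leaf p063_l22)
(.trZ (nat_lit 0) (nat_lit 100) (nat_lit 95) (nat_lit 78) (nat_lit 64) (.leaf p063_l23)))
(.leaf p063_l24))))
(.trZ (nat_lit 11) (nat_lit 84) (nat_lit 100) (nat_lit 85) (nat_lit 80) (.spl (nat_lit 0) (nat_lit 290)
(.leaf p063_l25)
(.leaf p063_l26)))))))))))) (by decide +kernel)
noncomputable def p063_l27 : Lf2 := ⟨nat_lit 0, nat_lit 5, [nat_lit 4, nat_lit 5, nat_lit 5, nat_lit 20], true, nat_lit 280, nat_lit 320, nat_lit 0, nat_lit 300, ⟨nat_lit 0, nat_lit 1000, nat_lit 0, nat_lit 6, nat_lit 116, nat_lit 1000, nat_lit 227, nat_lit 0, nat_lit 0, nat_lit 0, nat_lit 0, nat_lit 0, nat_lit 45801176, nat_lit 5495929, nat_lit 15702895, nat_lit 4289409, false, false⟩,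
 nat_lit 0, nat_lit 0, nat_lit 0, nat_lit 2323, nat_lit 0, nat_lit 0, nat_lit 0, nat_lit 0, nat_lit 345, nat_lit 0, nat_lit 0, nat_lit 0, nat_lit 0, nat_lit 0, nat_lit 0, nat_lit 250000, nat_lit 0, nat_lit 0, [(nat_lit 12, [(nat_lit 0, nat_lit 1000)])],
 ⟨p063_k19, nat_lit 0, nat_lit 0, nat_lit 0, nat_lit 0, nat_lit 171514, [nat_lit 1182000000, nat_lit 1968800001, nat_lit 2483000000, nat_lit 3071300000], [], [nat_lit 15855290400, nat_lit 16223359800, nat_lit 16681388000, nat_lit 17033427000, nat_lit 17334993600, nat_lit 17685370600, nat_lit 18109084000, nat_lit 18451583000], nat_lit 1271250, nat_lit 1271250, nat_lit 205650, nat_lit 490000, nat_lit 1271250, nat_lit 1271250, [nat_lit 356250, nat_lit 780000, nat_lit 1100000, nat_lit 1613750], [nat_lit 183, nat_lit 40, nat_lit 20, nat_lit 40]⟩, C1.Rw.none,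
 ⟨nat_lit 5244, nat_lit 5478, ⟨.ofNat (nat_lit 235487), .ofNat (nat_lit 317913), .ofNat (nat_lit 256844), .ofNat (nat_lit 339271), .ofNat (nat_lit 242768), .ofNat (nat_lit 323256), .ofNat (nat_lit 264153), .ofNat (nat_lit 344641)⟩, ⟨.ofNat (nat_lit 521722), .ofNat (nat_lit 596655), .ofNat (nat_lit 543079), .ofNat (nat_lit 618012), .ofNat (nat_lit 518028), .ofNat (nat_lit 591199), .ofNat (nat_lit 539414), .ofNat (nat_lit 612585)⟩⟩, [⟨nat_lit 0, nat_lit 100, nat_lit 93, nat_lit 66, nat_lit 3851202⟩]⟩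
noncomputable def p063_l28 : Lf2 := ⟨nat_lit 0, nat_lit 5, [nat_lit 4, nat_lit 5, nat_lit 5, nat_lit 20], false, nat_lit 280, nat_lit 300, nat_lit 0, nat_lit 160, ⟨nat_lit 195, nat_lit 0, nat_lit 805, nat_lit 6, nat_lit 114, nat_lit 805, nat_lit 220, nat_lit 805, nat_lit 267, nat_lit 219, nat_lit 123267, nat_lit 301, nat_lit 46608900, nat_lit 0, nat_lit 0, nat_lit 4208103, false, false⟩,
 nat_lit 5839, nat_lit 0, nat_lit 0, nat_lit 711, nat_lit 3715, nat_lit 3091, nat_lit 0, nat_lit 0, nat_lit 0, nat_lit 476, nat_lit 0, nat_lit 0, nat_lit 0, nat_lit 0, nat_lit 38, nat_lit 616000, nat_lit 0, nat_lit 0, [(nat_lit 12, [(nat_lit 5, nat_lit 315), (nat_lit 6, nat_lit 490)])],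
 ⟨p063_k7, nat_lit 0, nat_lit 0, nat_lit 0, nat_lit 0, nat_lit 131629, [nat_lit 1932546000, nat_lit 2130502001, nat_lit 100822667], [], [nat_lit 19367632880, nat_lit 19898236711, nat_lit 18983912071, nat_lit 19518107496, nat_lit 20389453734, nat_lit 20917892347, nat_lit 20000772166, nat_lit 20509679881], nat_lit 1271250, nat_lit 1271250, nat_lit 205650, nat_lit 490000, nat_lit 1271250, nat_lit 1271250, [nat_lit 780000, nat_lit 1100000, nat_lit 1785000], [nat_lit 36, nat_lit 40, nat_lit 40, nat_lit 80]⟩, ⟨p063_k20, nat_lit 0, nat_lit 0, nat_lit 0, nat_lit 0, nat_lit 165380, [nat_lit 914160000, nat_lit 1218750000, nat_lit 1919190000], [], [nat_lit 5491098828, nat_lit 4972597331, nat_lit 3562491144, nat_lit 3855076598, nat_lit 4585119912, nat_lit 3845822260, nat_lit 5070118980, nat_lit 4341870107], nat_lit 1271250, nat_lit 1271250, nat_lit 205650, nat_lit 490000, nat_lit 0, nat_lit 1100001, [nat_lit 1100000, nat_lit 1442500,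 nat_lit 1271250], [nat_lit 11, nat_lit 40, nat_lit 40, nat_lit 80]⟩,
 ⟨nat_lit 5244, nat_lit 5478, ⟨.ofNat (nat_lit 235487), .ofNat (nat_lit 317913), .ofNat (nat_lit 246166), .ofNat (nat_lit 328592), .ofNat (nat_lit 242768), .ofNat (nat_lit 323256), .ofNat (nat_lit 253460), .ofNat (nat_lit 333949)⟩, ⟨.ofNat (nat_lit 521722), .ofNat (nat_lit 559189), .ofNat (nat_lit 543079), .ofNat (nat_lit 580546), .ofNat (nat_lit 518028), .ofNat (nat_lit 554614), .ofNat (nat_lit 539414), .ofNat (nat_lit 575999)⟩⟩, [⟨nat_lit 0, nat_lit 100, nat_lit 93, nat_lit 63, nat_lit 225021356⟩, ⟨nat_lit 4, nat_lit 94, nat_lit 100, nat_lit 92, nat_lit 19493689⟩]⟩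
noncomputable def p063_l29 : Lf2 := ⟨nat_lit 0, nat_lit 2, [nat_lit 10, nat_lit 5, nat_lit 5, nat_lit 20], false, nat_lit 300, nat_lit 320, nat_lit 0, nat_lit 160, ⟨nat_lit 628, nat_lit 372, nat_lit 0, nat_lit 6, nat_lit 114, nat_lit 372, nat_lit 234, nat_lit 0, nat_lit 0, nat_lit 0, nat_lit 0, nat_lit 0, nat_lit 45246548, nat_lit 5310512, nat_lit 16442940, nat_lit 4315721, false, false⟩,
 nat_lit 20748, nat_lit 0, nat_lit 0, nat_lit 0, nat_lit 5414, nat_lit 10984, nat_lit 1043, nat_lit 0, nat_lit 0, nat_lit 0, nat_lit 0, nat_lit 0, nat_lit 0, nat_lit 0, nat_lit 0, nat_lit 372000, nat_lit 0, nat_lit 0, [(nat_lit 12, [(nat_lit 2, nat_lit 372)])],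
 ⟨p063_k0, nat_lit 0, nat_lit 0, nat_lit 0, nat_lit 0, nat_lit 127129, [nat_lit 2802477120, nat_lit 3810020481, nat_lit 4533592000], [], [nat_lit 22211027289, nat_lit 22910255633, nat_lit 21058856895, nat_lit 21732828636, nat_lit 23608458357, nat_lit 24306520708, nat_lit 22404508593, nat_lit 23039083943], nat_lit 1271250, nat_lit 1271250, nat_lit 205650, nat_lit 490000, nat_lit 1271250, nat_lit 1271250, [nat_lit 780000, nat_lit 1100000, nat_lit 1442500], [nat_lit 59, nat_lit 40, nat_lit 40, nat_lit 80]⟩, ⟨p063_k21, nat_lit 0, nat_lit 0, nat_lit 0, nat_lit 0, nat_lit 159255, [nat_lit 2944064000, nat_lit 3925000000, nat_lit 5003904000], [], [nat_lit 17199271719, nat_lit 17215598741, nat_lit 10521643792, nat_lit 11760793320, nat_lit 4942837888, nat_lit 5957201787, nat_lit 1952735360, nat_lit 2921055396], nat_lit 1271250, nat_lit 1271250, nat_lit 205650, nat_lit 490000, nat_lit 0, nat_lit 1100001, [nat_lit 1100000, nat_lit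 1442500, nat_lit 1271250], [nat_lit 9, nat_lit 40, nat_lit 40, nat_lit 80]⟩,
 ⟨nat_lit 5244, nat_lit 5478, ⟨.ofNat (nat_lit 235487), .ofNat (nat_lit 317913), .ofNat (nat_lit 246166), .ofNat (nat_lit 328592), .ofNat (nat_lit 242768), .ofNat (nat_lit 323256), .ofNat (nat_lit 253460), .ofNat (nat_lit 333949)⟩, ⟨.ofNat (nat_lit 559189), .ofNat (nat_lit 596655), .ofNat (nat_lit 580546), .ofNat (nat_lit 618012), .ofNat (nat_lit 554614), .ofNat (nat_lit 591199), .ofNat (nat_lit 575999), .ofNat (nat_lit 612585)⟩⟩, [⟨nat_lit 0, nat_lit 100, nat_lit 93, nat_lit 63, nat_lit 1297933554⟩, ⟨nat_lit 16, nat_lit 100, nat_lit 94, nat_lit 92, nat_lit 531855567⟩]⟩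
noncomputable def p063_l30 : Lf2 := ⟨nat_lit 0, nat_lit 5, [nat_lit 4, nat_lit 5, nat_lit 5, nat_lit 20], false, nat_lit 300, nat_lit 320, nat_lit 0, nat_lit 160, ⟨nat_lit 1000, nat_lit 0, nat_lit 0, nat_lit 0, nat_lit 0, nat_lit 0, nat_lit 0, nat_lit 0, nat_lit 0, nat_lit 0, nat_lit 0, nat_lit 0, nat_lit 0, nat_lit 0, nat_lit 0, nat_lit 0, false, false⟩,
 nat_lit 17206, nat_lit 0, nat_lit 0, nat_lit 22979, nat_lit 6281, nat_lit 9108, nat_lit 1717, nat_lit 0, nat_lit 0, nat_lit 3748, nat_lit 0, nat_lit 0, nat_lit 0, nat_lit 0, nat_lit 0, nat_lit 0, nat_lit 0, nat_lit 0, [],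
 ⟨p063_k7, nat_lit 0, nat_lit 0, nat_lit 0, nat_lit 0, nat_lit 45819, [nat_lit 3282000000, nat_lit 4688000000, nat_lit 7968000000], [], [nat_lit 22996586730, nat_lit 23639255355, nat_lit 21473414408, nat_lit 22149019462, nat_lit 24530458090, nat_lit 25365290444, nat_lit 22876045448, nat_lit 23562228973], nat_lit 1271250, nat_lit 1271250, nat_lit 205650, nat_lit 490000, nat_lit 1271250, nat_lit 1271250, [nat_lit 780000, nat_lit 1100000, nat_lit 1785000], [nat_lit 36, nat_lit 40, nat_lit 40, nat_lit 80]⟩, ⟨p063_k20, nat_lit 0, nat_lit 0, nat_lit 0, nat_lit 0, nat_lit 57567, [nat_lit 4688000000, nat_lit 6250000000, nat_lit 9842000000], [], [nat_lit 16586941372, nat_lit 17632473679, nat_lit 13686905592, nat_lit 14954738656, nat_lit 12068073701, nat_lit 12207572152, nat_lit 13270399168, nat_lit 10968060712], nat_lit 1271250, nat_lit 1271250, nat_lit 205650, nat_lit 490000, nat_lit 0, nat_lit 1100001, [nat_lit 1100000, nat_lit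 1442500, nat_lit 1271250], [nat_lit 11, nat_lit 40, nat_lit 40, nat_lit 80]⟩,
 zbF0, [⟨nat_lit 0, nat_lit 100, nat_lit 92, nat_lit 68, nat_lit 910653211⟩, ⟨nat_lit 4, nat_lit 94, nat_lit 100, nat_lit 92, nat_lit 1016383660⟩]⟩
noncomputable def p063_l31 : Lf2 := ⟨nat_lit 0, nat_lit 5, [nat_lit 4, nat_lit 5, nat_lit 5, nat_lit 20], false, nat_lit 280, nat_lit 320, nat_lit 0, nat_lit 160, ⟨nat_lit 1000, nat_lit 0, nat_lit 0, nat_lit 0, nat_lit 0, nat_lit 0, nat_lit 0, nat_lit 0, nat_lit 0, nat_lit 0, nat_lit 0, nat_lit 0, nat_lit 0, nat_lit 0, nat_lit 0, nat_lit 0, false, false⟩,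
 nat_lit 24802, nat_lit 0, nat_lit 0, nat_lit 0, nat_lit 6133, nat_lit 13778, nat_lit 1788, nat_lit 0, nat_lit 0, nat_lit 2690, nat_lit 0, nat_lit 0, nat_lit 0, nat_lit 0, nat_lit 0, nat_lit 0, nat_lit 0, nat_lit 0, [],
 ⟨p063_k7, nat_lit 0, nat_lit 0, nat_lit 0, nat_lit 0, nat_lit 171514, [nat_lit 3282000000, nat_lit 4688000000, nat_lit 7968000000], [], [nat_lit 21264020078, nat_lit 21946305229, nat_lit 20106318640, nat_lit 20832896397, nat_lit 24139727968, nat_lit 24842326256, nat_lit 22945426664, nat_lit 23622800489], nat_lit 1271250, nat_lit 1271250, nat_lit 230001, nat_lit 490000, nat_lit 1271250, nat_lit 1271250, [nat_lit 780000, nat_lit 1100000, nat_lit 1785000], [nat_lit 36, nat_lit 40, nat_lit 40, nat_lit 80]⟩, ⟨p063_k22, nat_lit 0, nat_lit 0, nat_lit 0, nat_lit 0, nat_lit 202849, [nat_lit 4688000000, nat_lit 6250000000, nat_lit 7968000000], [], [nat_lit 21964443944, nat_lit 24286266320, nat_lit 16417876466, nat_lit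 18689693948, nat_lit 20462742888, nat_lit 17171950256, nat_lit 22713287746, nat_lit 19467149612], nat_lit 1271250, nat_lit 1271250, nat_lit 230001, nat_lit 490000, nat_lit 0, nat_lit 1100001, [nat_lit 1100000, nat_lit 1442500, nat_lit 1271250], [nat_lit 9, nat_lit 40, nat_lit 40, nat_lit 80]⟩,
 zbF0, [⟨nat_lit 0, nat_lit 100, nat_lit 94, nat_lit 68, nat_lit 558285154⟩, ⟨nat_lit 4, nat_lit 94, nat_lit 100, nat_lit 92, nat_lit 669320267⟩]⟩
noncomputable def p063_l32 : Lf2 := ⟨nat_lit 0, nat_lit 5, [nat_lit 4, nat_lit 5, nat_lit 5, nat_lit 20], false, nat_lit 280, nat_lit 320, nat_lit 160, nat_lit 200, ⟨nat_lit 512, nat_lit 488, nat_lit 0, nat_lit 6, nat_lit 109, nat_lit 488, nat_lit 227, nat_lit 0, nat_lit 0, nat_lit 0, nat_lit 0, nat_lit 0, nat_lit 46234505, nat_lit 4990090, nat_lit 15775405, nat_lit 4199774, false, false⟩,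
 nat_lit 20768, nat_lit 0, nat_lit 0, nat_lit 0, nat_lit 5321, nat_lit 10994, nat_lit 1336, nat_lit 0, nat_lit 0, nat_lit 878, nat_lit 0, nat_lit 0, nat_lit 0, nat_lit 0, nat_lit 0, nat_lit 195200, nat_lit 0, nat_lit 0, [(nat_lit 12, [(nat_lit 1, nat_lit 488)])],
 ⟨p063_k7, nat_lit 0, nat_lit 0, nat_lit 0, nat_lit 0, nat_lit 171514, [nat_lit 2672683200, nat_lit 3656758400, nat_lit 5388432000], [], [nat_lit 20693259577, nat_lit 21428237518, nat_lit 20048399209, nat_lit 20768571463, nat_lit 23464948814, nat_lit 24192950252, nat_lit 22765611892, nat_lit 23406041183], nat_lit 1271250, nat_lit 1271250, nat_lit 205650, nat_lit 356250, nat_lit 1271250, nat_lit 1271250, [nat_lit 780000, nat_lit 1100000, nat_lit 1785000], [nat_lit 36, nat_lit 40, nat_lit 40, nat_lit 80]⟩, ⟨p063_k20, nat_lit 0, nat_lit 0, nat_lit 0, nat_lit 0, nat_lit 215491, [nat_lit 2400256000, nat_lit 3200000000, nat_lit 5039104000], [], [nat_lit 10661687963,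 nat_lit 5843166264, nat_lit 3876041644, nat_lit 3897198554, nat_lit 5635815169, nat_lit 7474391494, nat_lit 3701839184, nat_lit 5163612853], nat_lit 1271250, nat_lit 1271250, nat_lit 205650, nat_lit 356250, nat_lit 1100001, nat_lit 1442500, [nat_lit 1100000, nat_lit 1442500, nat_lit 1271250], [nat_lit 11, nat_lit 40, nat_lit 40, nat_lit 80]⟩,
 ⟨nat_lit 5244, nat_lit 5478, ⟨.ofNat (nat_lit 235487), .ofNat (nat_lit 280447), .ofNat (nat_lit 256844), .ofNat (nat_lit 301804), .ofNat (nat_lit 242768), .ofNat (nat_lit 286670), .ofNat (nat_lit 264153), .ofNat (nat_lit 308056)⟩, ⟨.ofNat (nat_lit 521722), .ofNat (nat_lit 596655), .ofNat (nat_lit 543079), .ofNat (nat_lit 618012), .ofNat (nat_lit 518028), .ofNat (nat_lit 591199), .ofNat (nat_lit 539414), .ofNat (nat_lit 612585)⟩⟩, [⟨nat_lit 0, nat_lit 100, nat_lit 93, nat_lit 66, nat_lit 1651114087⟩, ⟨nat_lit 4, nat_lit 94, nat_lit 100, nat_lit 92, nat_lit 484292799⟩]⟩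
noncomputable def p063_l33 : Lf2 := ⟨nat_lit 0, nat_lit 5, [nat_lit 4, nat_lit 5, nat_lit 5, nat_lit 20], false, nat_lit 280, nat_lit 320, nat_lit 200, nat_lit 240, ⟨nat_lit 329, nat_lit 0, nat_lit 671, nat_lit 6, nat_lit 109, nat_lit 671, nat_lit 227, nat_lit 671, nat_lit 1855, nat_lit 206, nat_lit 112067, nat_lit 297, nat_lit 46234505, nat_lit 0, nat_lit 0, nat_lit 4199774, false, false⟩,
 nat_lit 9529, nat_lit 0, nat_lit 0, nat_lit 0, nat_lit 4329, nat_lit 5044, nat_lit 49, nat_lit 0, nat_lit 0, nat_lit 562, nat_lit 0, nat_lit 0, nat_lit 0, nat_lit 0, nat_lit 0, nat_lit 671000, nat_lit 0, nat_lit 0, [(nat_lit 12, [(nat_lit 6, nat_lit 671)])],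
 ⟨p063_k1, nat_lit 0, nat_lit 0, nat_lit 0, nat_lit 0, nat_lit 171514, [nat_lit 1845523201, nat_lit 1299630400, nat_lit 12892400], [], [nat_lit 19842563248, nat_lit 20433916848, nat_lit 19366230367, nat_lit 19967244128, nat_lit 22297288887, nat_lit 22981532054, nat_lit 21646995838, nat_lit 22292441229], nat_lit 1271250, nat_lit 1271250, nat_lit 205650, nat_lit 356250, nat_lit 1271250, nat_lit 1271250, [nat_lit 780000, nat_lit 1435000, nat_lit 1271250], [nat_lit 18, nat_lit 40, nat_lit 40, nat_lit 80]⟩, ⟨p063_k4, nat_lit 0, nat_lit 0, nat_lit 0, nat_lit 0, nat_lit 215491, [nat_lit 1542352000, nat_lit 2621472000, nat_lit 3238018000], [], [nat_lit 4527872172, nat_lit 5273172350, nat_lit 3681099660, nat_lit 4409670944, nat_lit 5307145256, nat_lit 5968539435, nat_lit 4446956306, nat_lit 5124448117], nat_lit 1271250, nat_lit 1271250, nat_lit 205650, nat_lit 356250, nat_lit 1271250, nat_lit 1271250, [nat_lit 1100000, nat_lit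 1785000, nat_lit 1271250], [nat_lit 29, nat_lit 40, nat_lit 40, nat_lit 80]⟩,
 ⟨nat_lit 5244, nat_lit 5478, ⟨.ofNat (nat_lit 235487), .ofNat (nat_lit 280447), .ofNat (nat_lit 256844), .ofNat (nat_lit 301804), .ofNat (nat_lit 242768), .ofNat (nat_lit 286670), .ofNat (nat_lit 264153), .ofNat (nat_lit 308056)⟩, ⟨.ofNat (nat_lit 521722), .ofNat (nat_lit 596655), .ofNat (nat_lit 543079), .ofNat (nat_lit 618012), .ofNat (nat_lit 518028), .ofNat (nat_lit 591199), .ofNat (nat_lit 539414), .ofNat (nat_lit 612585)⟩⟩, [⟨nat_lit 0, nat_lit 100, nat_lit 93, nat_lit 66, nat_lit 14748436⟩, ⟨nat_lit 0, nat_lit 100, nat_lit 94, nat_lit 73, nat_lit 455018669⟩, ⟨nat_lit 16, nat_lit 100, nat_lit 94, nat_lit 92, nat_lit 275790121⟩, ⟨nat_lit 23, nat_lit 88, nat_lit 100, nat_lit 66, nat_lit 187700103⟩]⟩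
noncomputable def p063_l34 : Lf2 := ⟨nat_lit 0, nat_lit 5, [nat_lit 4, nat_lit 5, nat_lit 5, nat_lit 20], false, nat_lit 280, nat_lit 320, nat_lit 160, nat_lit 240, ⟨nat_lit 245, nat_lit 692, nat_lit 63, nat_lit 6, nat_lit 125, nat_lit 755, nat_lit 227, nat_lit 63, nat_lit 1855, nat_lit 206, nat_lit 147267, nat_lit 309, nat_lit 45269771, nat_lit 6120222, nat_lit 15610007, nat_lit 4393235, false, false⟩,
 nat_lit 10231, nat_lit 0, nat_lit 0, nat_lit 0, nat_lit 4876, nat_lit 5416, nat_lit 1011, nat_lit 0, nat_lit 0, nat_lit 174, nat_lit 0, nat_lit 0, nat_lit 0, nat_lit 0, nat_lit 0, nat_lit 278600, nat_lit 0, nat_lit 0, [(nat_lit 12, [(nat_lit 0, nat_lit 156), (nat_lit 1, nat_lit 536), (nat_lit 5, nat_lit 63)])],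
 ⟨p063_k7, nat_lit 0, nat_lit 0, nat_lit 0, nat_lit 0, nat_lit 171514, [nat_lit 2340946800, nat_lit 2962802000, nat_lit 3787758134], [], [nat_lit 19694171882, nat_lit 20300558116, nat_lit 19413015048, nat_lit 20018257868, nat_lit 22211006352, nat_lit 22824277070, nat_lit 21809500208, nat_lit 22412051108], nat_lit 1271250, nat_lit 1271250, nat_lit 356250, nat_lit 490000, nat_lit 1271250, nat_lit 1271250, [nat_lit 780000, nat_lit 1100000, nat_lit 1785000], [nat_lit 36, nat_lit 40, nat_lit 40, nat_lit 80]⟩, ⟨p063_k20, nat_lit 0, nat_lit 0, nat_lit 0, nat_lit 0, nat_lit 215491, [nat_lit 1148560000, nat_lit 1531250000, nat_lit 2411290000], [], [nat_lit 6902416716, nat_lit 4102788828, nat_lit 4081883068, nat_lit 1844475902, nat_lit 3139865246, nat_lit 3769492617, nat_lit 2435141044, nat_lit 3050107296], nat_lit 1271250, nat_lit 1271250, nat_lit 356250, nat_lit 490000, nat_lit 1100001, nat_lit 1785000, [nat_lit 1100000, nat_lit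 1442500, nat_lit 1271250], [nat_lit 11, nat_lit 40, nat_lit 40, nat_lit 80]⟩,
 ⟨nat_lit 5244, nat_lit 5478, ⟨.ofNat (nat_lit 280447), .ofNat (nat_lit 317913), .ofNat (nat_lit 301804), .ofNat (nat_lit 339271), .ofNat (nat_lit 286670), .ofNat (nat_lit 323256), .ofNat (nat_lit 308056), .ofNat (nat_lit 344641)⟩, ⟨.ofNat (nat_lit 521722), .ofNat (nat_lit 596655), .ofNat (nat_lit 543079), .ofNat (nat_lit 618012), .ofNat (nat_lit 518028), .ofNat (nat_lit 591199), .ofNat (nat_lit 539414), .ofNat (nat_lit 612585)⟩⟩, [⟨nat_lit 16, nat_lit 100, nat_lit 94, nat_lit 92, nat_lit 371292468⟩]⟩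
noncomputable def p063_l35 : Lf2 := ⟨nat_lit 0, nat_lit 5, [nat_lit 4, nat_lit 5, nat_lit 5, nat_lit 20], false, nat_lit 280, nat_lit 320, nat_lit 240, nat_lit 300, ⟨nat_lit 1000, nat_lit 0, nat_lit 0, nat_lit 0, nat_lit 0, nat_lit 0, nat_lit 0, nat_lit 0, nat_lit 0, nat_lit 0, nat_lit 0, nat_lit 0, nat_lit 0, nat_lit 0, nat_lit 0, nat_lit 0, false, false⟩,
 nat_lit 16729, nat_lit 0, nat_lit 0, nat_lit 6043, nat_lit 6553, nat_lit 8856, nat_lit 1774, nat_lit 0, nat_lit 0, nat_lit 2754, nat_lit 0, nat_lit 0, nat_lit 0, nat_lit 0, nat_lit 0, nat_lit 0, nat_lit 0, nat_lit 0, [],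
 ⟨p063_k7, nat_lit 0, nat_lit 0, nat_lit 0, nat_lit 0, nat_lit 171514, [nat_lit 3282000000, nat_lit 4688000000, nat_lit 7968000000], [], [nat_lit 21458326185, nat_lit 22155895231, nat_lit 19886622240, nat_lit 20557380807, nat_lit 24841637405, nat_lit 25697453499, nat_lit 22748534024, nat_lit 23568283354], nat_lit 1271250, nat_lit 1271250, nat_lit 205650, nat_lit 490000, nat_lit 1271250, nat_lit 1271250, [nat_lit 780000, nat_lit 1100000, nat_lit 1785000], [nat_lit 36, nat_lit 40, nat_lit 40, nat_lit 80]⟩, ⟨p063_k20, nat_lit 0, nat_lit 0, nat_lit 0, nat_lit 0, nat_lit 215491, [nat_lit 4688000000, nat_lit 6250000000, nat_lit 9842000000], [], [nat_lit 16708560804, nat_lit 18125525652, nat_lit 14442651924, nat_lit 15803243636, nat_lit 21896747591, nat_lit 23362944093, nat_lit 19615143376, nat_lit 21023826524], nat_lit 1271250, nat_lit 1271250, nat_lit 205650, nat_lit 490000, nat_lit 1271250, nat_lit 1271250, [nat_lit 1100000,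 nat_lit 1442500, nat_lit 1271250], [nat_lit 11, nat_lit 40, nat_lit 40, nat_lit 80]⟩,
 zbF0, [⟨nat_lit 0, nat_lit 100, nat_lit 94, nat_lit 73, nat_lit 215957174⟩, ⟨nat_lit 11, nat_lit 100, nat_lit 97, nat_lit 75, nat_lit 928648147⟩]⟩
noncomputable def p063_l36 : Lf2 := ⟨nat_lit 0, nat_lit 5, [nat_lit 4, nat_lit 5, nat_lit 5, nat_lit 20], false, nat_lit 280, nat_lit 320, nat_lit 0, nat_lit 300, ⟨nat_lit 0, nat_lit 1000, nat_lit 0, nat_lit 6, nat_lit 116, nat_lit 1000, nat_lit 227, nat_lit 0, nat_lit 0, nat_lit 0, nat_lit 0, nat_lit 0, nat_lit 45801176, nat_lit 5495929, nat_lit 15702895, nat_lit 4289409, false, false⟩,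
 nat_lit 7275, nat_lit 0, nat_lit 0, nat_lit 0, nat_lit 4629, nat_lit 3851, nat_lit 824, nat_lit 0, nat_lit 0, nat_lit 0, nat_lit 165, nat_lit 0, nat_lit 0, nat_lit 0, nat_lit 0, nat_lit 400000, nat_lit 0, nat_lit 0, [(nat_lit 12, [(nat_lit 1, nat_lit 1000)])],
 ⟨p063_k7, nat_lit 0, nat_lit 0, nat_lit 0, nat_lit 0, nat_lit 171514, [nat_lit 2033400000, nat_lit 2574800000, nat_lit 2711866667], [], [nat_lit 19896472475, nat_lit 20555300590, nat_lit 19116495242, nat_lit 19706622897, nat_lit 22640501367, nat_lit 23347888364, nat_lit 21537289832, nat_lit 22125138057], nat_lit 1271250, nat_lit 1271250, nat_lit 205650, nat_lit 490000, nat_lit 1271250, nat_lit 1271250, [nat_lit 780000, nat_lit 1100000, nat_lit 1785000], [nat_lit 36, nat_lit 40, nat_lit 40, nat_lit 80]⟩, ⟨p063_k20, nat_lit 0, nat_lit 0, nat_lit 338, nat_lit 0, nat_lit 215491, [nat_lit 2640000000, nat_lit 3300000000, nat_lit 4620000000], [], [nat_lit 10123201772,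 nat_lit 8114620298, nat_lit 5704935608, nat_lit 4671673798, nat_lit 7897961545, nat_lit 6140224968, nat_lit 8411534370, nat_lit 6678803877], nat_lit 1271250, nat_lit 1271250, nat_lit 205650, nat_lit 490000, nat_lit 0, nat_lit 2118750, [nat_lit 1100000, nat_lit 1442500, nat_lit 1271250], [nat_lit 11, nat_lit 40, nat_lit 40, nat_lit 80, nat_lit 1, nat_lit 401, nat_lit 175, nat_lit 12]⟩,
 ⟨nat_lit 5244, nat_lit 5478, ⟨.ofNat (nat_lit 235487), .ofNat (nat_lit 317913), .ofNat (nat_lit 256844), .ofNat (nat_lit 339271), .ofNat (nat_lit 242768), .ofNat (nat_lit 323256), .ofNat (nat_lit 264153), .ofNat (nat_lit 344641)⟩, ⟨.ofNat (nat_lit 521722), .ofNat (nat_lit 596655), .ofNat (nat_lit 543079), .ofNat (nat_lit 618012), .ofNat (nat_lit 518028), .ofNat (nat_lit 591199), .ofNat (nat_lit 539414), .ofNat (nat_lit 612585)⟩⟩, [⟨nat_lit 0, nat_lit 100, nat_lit 94, nat_lit 73, nat_lit 60590159⟩, ⟨nat_lit 16, nat_lit 100, nat_lit 94, nat_lit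 92, nat_lit 253305542⟩, ⟨nat_lit 23, nat_lit 90, nat_lit 100, nat_lit 73, nat_lit 75874404⟩]⟩
noncomputable def p063_l37 : Lf2 := ⟨nat_lit 0, nat_lit 5, [nat_lit 4, nat_lit 5, nat_lit 5, nat_lit 20], true, nat_lit 280, nat_lit 320, nat_lit 0, nat_lit 300, ⟨nat_lit 0, nat_lit 0, nat_lit 1000, nat_lit 6, nat_lit 116, nat_lit 1000, nat_lit 227, nat_lit 1000, nat_lit 1855, nat_lit 206, nat_lit 126150, nat_lit 302, nat_lit 45801176, nat_lit 0, nat_lit 0, nat_lit 4289409, false, false⟩,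
 nat_lit 0, nat_lit 100000, nat_lit 0, nat_lit 0, nat_lit 63636, nat_lit 0, nat_lit 17299, nat_lit 7008, nat_lit 0, nat_lit 0, nat_lit 0, nat_lit 0, nat_lit 0, nat_lit 0, nat_lit 0, nat_lit 1000000, nat_lit 0, nat_lit 0, [(nat_lit 12, [(nat_lit 6, nat_lit 1000)])],
 ⟨p063_k7, nat_lit 0, nat_lit 0, nat_lit 169, nat_lit 0, nat_lit 171514, [nat_lit 85005600001, nat_lit 112960400001, nat_lit 164454266667], [], [nat_lit 137045539025, nat_lit 140561451432, nat_lit 117755424244, nat_lit 121349429750, nat_lit 152074190047, nat_lit 155825771734, nat_lit 132452553106, nat_lit 136004547758], nat_lit 1271250, nat_lit 1271250, nat_lit 205650, nat_lit 490000, nat_lit 1271250, nat_lit 1271250, [nat_lit 780000, nat_lit 1100000, nat_lit 1785000], [nat_lit 36, nat_lit 40, nat_lit 40, nat_lit 80, nat_lit 7, nat_lit 226, nat_lit 20, nat_lit 7]⟩, C1.Rw.none,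
 ⟨nat_lit 5244, nat_lit 5478, ⟨.ofNat (nat_lit 235487), .ofNat (nat_lit 317913), .ofNat (nat_lit 256844), .ofNat (nat_lit 339271), .ofNat (nat_lit 242768), .ofNat (nat_lit 323256), .ofNat (nat_lit 264153), .ofNat (nat_lit 344641)⟩, ⟨.ofNat (nat_lit 521722), .ofNat (nat_lit 596655), .ofNat (nat_lit 543079), .ofNat (nat_lit 618012), .ofNat (nat_lit 518028), .ofNat (nat_lit 591199), .ofNat (nat_lit 539414), .ofNat (nat_lit 612585)⟩⟩, [⟨nat_lit 0, nat_lit 100, nat_lit 94, nat_lit 73, nat_lit 2503936305⟩, ⟨nat_lit 16, nat_lit 100, nat_lit 88, nat_lit 94, nat_lit 5696276249⟩]⟩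
noncomputable def b_V_700_600_20_29 : St := ⟨true, nat_lit 1, nat_lit 1, nat_lit 1, nat_lit 120, nat_lit 280, nat_lit 290, nat_lit 240, nat_lit 260, nat_lit 36, nat_lit 80, nat_lit 80, nat_lit 100, nat_lit 280, nat_lit 320, nat_lit 0, nat_lit 300, nat_lit 0, nat_lit 20, nat_lit 0, nat_lit 0, nat_lit 0, nat_lit 0⟩
theorem d_V_700_600_20_29 (h : EB TB.env) : Dead b_V_700_600_20_29 := chkB_sound0 h (T :=
(.spl (nat_lit 7) (nat_lit 600)
(.spl (nat_lit 7) (nat_lit 300)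
(.leaf p063_l27)
(.spl (nat_lit 8) (nat_lit 800)
(.spl (nat_lit 5) (nat_lit 160)
(.spl (nat_lit 1) (nat_lit 250)
(.spl (nat_lit 4) (nat_lit 300)
(.leaf p063_l28)
(.spl (nat_lit 6) (nat_lit 8)
(.leaf p063_l29)
(.leaf p063_l30)))
(.trZ (nat_lit 0) (nat_lit 100) (nat_lit 95) (nat_lit 64) (nat_lit 40) (.leaf p063_l31)))
(.spl (nat_lit 5) (nat_lit 240)
(.spl (nat_lit 2) (nat_lit 60)
(.spl (nat_lit 5) (nat_lit 200)
(.leaf p063_l32)
(.leaf p063_l33))
(.leaf p063_l34))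
(.leaf p063_l35)))
(.leaf p063_l36)))
(.leaf p063_l37))) (by decide +kernel)
noncomputable def p063_l38 : Lf2 := ⟨nat_lit 0, nat_lit 1, [nat_lit 19, nat_lit 5, nat_lit 5, nat_lit 20], true, nat_lit 280, nat_lit 312, nat_lit 0, nat_lit 300, ⟨nat_lit 0, nat_lit 1000, nat_lit 0, nat_lit 6, nat_lit 117, nat_lit 1000, nat_lit 223, nat_lit 0, nat_lit 0, nat_lit 0, nat_lit 0, nat_lit 0, nat_lit 46120365, nat_lit 5602046, nat_lit 15277589, nat_lit 4272350, false, false⟩,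
 nat_lit 0, nat_lit 5373, nat_lit 0, nat_lit 0, nat_lit 3568, nat_lit 0, nat_lit 2279, nat_lit 0, nat_lit 0, nat_lit 0, nat_lit 0, nat_lit 0, nat_lit 0, nat_lit 0, nat_lit 0, nat_lit 250000, nat_lit 0, nat_lit 0, [(nat_lit 12, [(nat_lit 0, nat_lit 1000)])],
 ⟨p063_k23, nat_lit 0, nat_lit 0, nat_lit 0, nat_lit 0, nat_lit 145676, [nat_lit 1182000000, nat_lit 1968800001, nat_lit 2474399999], [], [nat_lit 19445673378, nat_lit 19747181582, nat_lit 19111630954, nat_lit 19402838298, nat_lit 21326817547, nat_lit 21646595780, nat_lit 20929179966, nat_lit 21206360132], nat_lit 1271250, nat_lit 1271250, nat_lit 230001, nat_lit 490000, nat_lit 1271250, nat_lit 1271250, [nat_lit 356250, nat_lit 780000, nat_lit 1100000], [nat_lit 261, nat_lit 40, nat_lit 20, nat_lit 40]⟩, C1.Rw.none,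
 ⟨nat_lit 5123, nat_lit 5245, ⟨.ofNat (nat_lit 250085), .ofNat (nat_lit 323256), .ofNat (nat_lit 260778), .ofNat (nat_lit 333949), .ofNat (nat_lit 253618), .ofNat (nat_lit 325915), .ofNat (nat_lit 264320), .ofNat (nat_lit 336618)⟩, ⟨.ofNat (nat_lit 518028), .ofNat (nat_lit 576565), .ofNat (nat_lit 539414), .ofNat (nat_lit 597950), .ofNat (nat_lit 516164), .ofNat (nat_lit 574002), .ofNat (nat_lit 537569), .ofNat (nat_lit 595407)⟩⟩, [⟨nat_lit 0, nat_lit 100, nat_lit 91, nat_lit 67, nat_lit 157675890⟩, ⟨nat_lit 16, nat_lit 100, nat_lit 94, nat_lit 97, nat_lit 237911817⟩]⟩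
noncomputable def p063_l39 : Lf2 := ⟨nat_lit 0, nat_lit 1, [nat_lit 19, nat_lit 5, nat_lit 5, nat_lit 20], true, nat_lit 280, nat_lit 308, nat_lit 0, nat_lit 300, ⟨nat_lit 0, nat_lit 1000, nat_lit 0, nat_lit 6, nat_lit 120, nat_lit 1000, nat_lit 220, nat_lit 0, nat_lit 0, nat_lit 0, nat_lit 0, nat_lit 0, nat_lit 46169368, nat_lit 5802136, nat_lit 15028496, nat_lit 4286657, false, false⟩,
 nat_lit 0, nat_lit 5808, nat_lit 0, nat_lit 0, nat_lit 3938, nat_lit 0, nat_lit 1165, nat_lit 0, nat_lit 0, nat_lit 0, nat_lit 0, nat_lit 0, nat_lit 0, nat_lit 0, nat_lit 0, nat_lit 400000, nat_lit 0, nat_lit 0, [(nat_lit 12, [(nat_lit 1, nat_lit 1000)])],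
 ⟨p063_k24, nat_lit 0, nat_lit 0, nat_lit 0, nat_lit 0, nat_lit 168289, [nat_lit 2033400000, nat_lit 2394800000], [], [nat_lit 20338110007, nat_lit 20621308180, nat_lit 20044507489, nat_lit 20318428444, nat_lit 21787086146, nat_lit 22091597063, nat_lit 21447239584, nat_lit 21702679578], nat_lit 1271250, nat_lit 1271250, nat_lit 254650, nat_lit 490000, nat_lit 1271250, nat_lit 1271250, [nat_lit 780000, nat_lit 1100000], [nat_lit 40, nat_lit 40, nat_lit 40, nat_lit 80]⟩, C1.Rw.none,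
 ⟨nat_lit 5000, nat_lit 5124, ⟨.ofNat (nat_lit 260847), .ofNat (nat_lit 325915), .ofNat (nat_lit 271550), .ofNat (nat_lit 336618), .ofNat (nat_lit 264284), .ofNat (nat_lit 328570), .ofNat (nat_lit 274998), .ofNat (nat_lit 339284)⟩, ⟨.ofNat (nat_lit 516164), .ofNat (nat_lit 566772), .ofNat (nat_lit 537569), .ofNat (nat_lit 588177), .ofNat (nat_lit 514284), .ofNat (nat_lit 564284), .ofNat (nat_lit 535713), .ofNat (nat_lit 585713)⟩⟩, [⟨nat_lit 0, nat_lit 100, nat_lit 89, nat_lit 72, nat_lit 157119645⟩, ⟨nat_lit 16, nat_lit 100, nat_lit 97, nat_lit 98, nat_lit 206047248⟩]⟩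
noncomputable def p063_l40 : Lf2 := ⟨nat_lit 0, nat_lit 2, [nat_lit 10, nat_lit 5, nat_lit 5, nat_lit 20], true, nat_lit 280, nat_lit 312, nat_lit 0, nat_lit 260, ⟨nat_lit 0, nat_lit 1000, nat_lit 0, nat_lit 6, nat_lit 106, nat_lit 1000, nat_lit 223, nat_lit 0, nat_lit 0, nat_lit 0, nat_lit 0, nat_lit 0, nat_lit 46809962, nat_lit 4805721, nat_lit 15384317, nat_lit 4129950, false, false⟩,
 nat_lit 0, nat_lit 6382, nat_lit 0, nat_lit 500, nat_lit 4238, nat_lit 0, nat_lit 648, nat_lit 0, nat_lit 0, nat_lit 0, nat_lit 0, nat_lit 0, nat_lit 0, nat_lit 0, nat_lit 0, nat_lit 400000, nat_lit 0, nat_lit 0, [(nat_lit 12, [(nat_lit 1, nat_lit 1000)])],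
 ⟨p063_k25, nat_lit 0, nat_lit 0, nat_lit 0, nat_lit 0, nat_lit 103652, [nat_lit 2033400000, nat_lit 2439600000, nat_lit 2628400000], [], [nat_lit 20390462001, nat_lit 20664810818, nat_lit 20306108815, nat_lit 20578460121, nat_lit 22088745170, nat_lit 22435616410, nat_lit 21914988390, nat_lit 22259468685], nat_lit 1271250, nat_lit 1271250, nat_lit 230001, nat_lit 279600, nat_lit 1271250, nat_lit 1271250, [nat_lit 780000, nat_lit 1100000, nat_lit 1442500], [nat_lit 59, nat_lit 40, nat_lit 40, nat_lit 80]⟩, C1.Rw.none,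
 ⟨nat_lit 5123, nat_lit 5245, ⟨.ofNat (nat_lit 250085), .ofNat (nat_lit 264719), .ofNat (nat_lit 260778), .ofNat (nat_lit 275412), .ofNat (nat_lit 253618), .ofNat (nat_lit 268077), .ofNat (nat_lit 264320), .ofNat (nat_lit 278780)⟩, ⟨.ofNat (nat_lit 518028), .ofNat (nat_lit 576565), .ofNat (nat_lit 539414), .ofNat (nat_lit 597950), .ofNat (nat_lit 516164), .ofNat (nat_lit 574002), .ofNat (nat_lit 537569), .ofNat (nat_lit 595407)⟩⟩, [⟨nat_lit 0, nat_lit 100, nat_lit 91, nat_lit 67, nat_lit 782590397⟩, ⟨nat_lit 16, nat_lit 100, nat_lit 94, nat_lit 97, nat_lit 202709416⟩]⟩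
noncomputable def p063_l41 : Lf2 := ⟨nat_lit 0, nat_lit 2, [nat_lit 10, nat_lit 5, nat_lit 5, nat_lit 20], true, nat_lit 280, nat_lit 312, nat_lit 0, nat_lit 276, ⟨nat_lit 0, nat_lit 1000, nat_lit 0, nat_lit 6, nat_lit 113, nat_lit 1000, nat_lit 223, nat_lit 0, nat_lit 0, nat_lit 0, nat_lit 0, nat_lit 0, nat_lit 46381682, nat_lit 5299405, nat_lit 15318913, nat_lit 4219749, false, false⟩,
 nat_lit 0, nat_lit 6388, nat_lit 0, nat_lit 0, nat_lit 4242, nat_lit 0, nat_lit 613, nat_lit 0, nat_lit 0, nat_lit 0, nat_lit 0, nat_lit 0, nat_lit 0, nat_lit 0, nat_lit 0, nat_lit 400000, nat_lit 0, nat_lit 0, [(nat_lit 12, [(nat_lit 1, nat_lit 1000)])],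
 ⟨p063_k26, nat_lit 0, nat_lit 0, nat_lit 0, nat_lit 0, nat_lit 103652, [nat_lit 2033400000, nat_lit 2394800001, nat_lit 2534000000], [], [nat_lit 20076439897, nat_lit 20359209872, nat_lit 19909038363, nat_lit 20188888941, nat_lit 21841013903, nat_lit 22184893734, nat_lit 21655605949, nat_lit 21913218470], nat_lit 1271250, nat_lit 1271250, nat_lit 279600, nat_lit 356250, nat_lit 1271250, nat_lit 1271250, [nat_lit 780000, nat_lit 1100000, nat_lit 1271250], [nat_lit 217, nat_lit 40, nat_lit 20, nat_lit 40]⟩, C1.Rw.none,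
 ⟨nat_lit 5123, nat_lit 5245, ⟨.ofNat (nat_lit 264719), .ofNat (nat_lit 286670), .ofNat (nat_lit 275412), .ofNat (nat_lit 297363), .ofNat (nat_lit 268077), .ofNat (nat_lit 289766), .ofNat (nat_lit 278780), .ofNat (nat_lit 300469)⟩, ⟨.ofNat (nat_lit 518028), .ofNat (nat_lit 576565), .ofNat (nat_lit 539414), .ofNat (nat_lit 597950), .ofNat (nat_lit 516164), .ofNat (nat_lit 574002), .ofNat (nat_lit 537569), .ofNat (nat_lit 595407)⟩⟩, [⟨nat_lit 0, nat_lit 100, nat_lit 91, nat_lit 70, nat_lit 186352405⟩, ⟨nat_lit 16, nat_lit 100, nat_lit 94, nat_lit 97, nat_lit 226075149⟩]⟩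
noncomputable def p063_l42 : Lf2 := ⟨nat_lit 0, nat_lit 2, [nat_lit 10, nat_lit 5, nat_lit 5, nat_lit 20], true, nat_lit 280, nat_lit 308, nat_lit 0, nat_lit 276, ⟨nat_lit 0, nat_lit 1000, nat_lit 0, nat_lit 6, nat_lit 113, nat_lit 1000, nat_lit 220, nat_lit 0, nat_lit 0, nat_lit 0, nat_lit 0, nat_lit 0, nat_lit 46604675, nat_lit 5300174, nat_lit 15095151, nat_lit 4200169, false, false⟩,
 nat_lit 0, nat_lit 6387, nat_lit 0, nat_lit 0, nat_lit 4331, nat_lit 0, nat_lit 178, nat_lit 0, nat_lit 0, nat_lit 0, nat_lit 0, nat_lit 0, nat_lit 0, nat_lit 0, nat_lit 0, nat_lit 400000, nat_lit 0, nat_lit 0, [(nat_lit 12, [(nat_lit 1, nat_lit 1000)])],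
 ⟨p063_k27, nat_lit 0, nat_lit 0, nat_lit 0, nat_lit 0, nat_lit 127595, [nat_lit 2033400000, nat_lit 2394800000], [], [nat_lit 20536914695, nat_lit 20832749410, nat_lit 20364475789, nat_lit 20655915418, nat_lit 22172149316, nat_lit 22526017219, nat_lit 21851352267, nat_lit 22158712285], nat_lit 1271250, nat_lit 1271250, nat_lit 254650, nat_lit 356250, nat_lit 1271250, nat_lit 1271250, [nat_lit 780000, nat_lit 1100000], [nat_lit 40, nat_lit 40, nat_lit 40, nat_lit 80]⟩, C1.Rw.none,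
 ⟨nat_lit 5000, nat_lit 5124, ⟨.ofNat (nat_lit 260847), .ofNat (nat_lit 289766), .ofNat (nat_lit 271550), .ofNat (nat_lit 300469), .ofNat (nat_lit 264284), .ofNat (nat_lit 292856), .ofNat (nat_lit 274998), .ofNat (nat_lit 303570)⟩, ⟨.ofNat (nat_lit 516164), .ofNat (nat_lit 566772), .ofNat (nat_lit 537569), .ofNat (nat_lit 588177), .ofNat (nat_lit 514284), .ofNat (nat_lit 564284), .ofNat (nat_lit 535713), .ofNat (nat_lit 585713)⟩⟩, [⟨nat_lit 0, nat_lit 100, nat_lit 89, nat_lit 72, nat_lit 226610594⟩, ⟨nat_lit 16, nat_lit 100, nat_lit 97, nat_lit 98, nat_lit 220716557⟩]⟩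
noncomputable def p063_l43 : Lf2 := ⟨nat_lit 0, nat_lit 2, [nat_lit 10, nat_lit 5, nat_lit 5, nat_lit 20], true, nat_lit 280, nat_lit 312, nat_lit 0, nat_lit 300, ⟨nat_lit 0, nat_lit 1000, nat_lit 0, nat_lit 6, nat_lit 125, nat_lit 1000, nat_lit 222, nat_lit 0, nat_lit 0, nat_lit 0, nat_lit 0, nat_lit 0, nat_lit 45682639, nat_lit 6160260, nat_lit 15157101, nat_lit 4361184, false, false⟩,
 nat_lit 0, nat_lit 6348, nat_lit 0, nat_lit 0, nat_lit 4215, nat_lit 0, nat_lit 691, nat_lit 0, nat_lit 0, nat_lit 0, nat_lit 0, nat_lit 0, nat_lit 0, nat_lit 0, nat_lit 0, nat_lit 400000, nat_lit 0, nat_lit 0, [(nat_lit 12, [(nat_lit 1, nat_lit 1000)])],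
 ⟨p063_k25, nat_lit 0, nat_lit 0, nat_lit 0, nat_lit 0, nat_lit 130831, [nat_lit 2033400000, nat_lit 2439600000, nat_lit 2628400000], [], [nat_lit 20121026988, nat_lit 20659098145, nat_lit 19913219858, nat_lit 20453633295, nat_lit 21785915764, nat_lit 22315839029, nat_lit 21559947386, nat_lit 22080284775], nat_lit 1271250, nat_lit 1271250, nat_lit 356250, nat_lit 490000, nat_lit 1271250, nat_lit 1271250, [nat_lit 780000, nat_lit 1100000, nat_lit 1442500], [nat_lit 59, nat_lit 40, nat_lit 40, nat_lit 80]⟩, C1.Rw.none,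
 ⟨nat_lit 5000, nat_lit 5245, ⟨.ofNat (nat_lit 286670), .ofNat (nat_lit 323256), .ofNat (nat_lit 297363), .ofNat (nat_lit 333949), .ofNat (nat_lit 292856), .ofNat (nat_lit 328570), .ofNat (nat_lit 303570), .ofNat (nat_lit 339284)⟩, ⟨.ofNat (nat_lit 518028), .ofNat (nat_lit 576565), .ofNat (nat_lit 539414), .ofNat (nat_lit 597950), .ofNat (nat_lit 514284), .ofNat (nat_lit 571427), .ofNat (nat_lit 535713), .ofNat (nat_lit 592856)⟩⟩, [⟨nat_lit 4, nat_lit 100, nat_lit 100, nat_lit 95, nat_lit 224520365⟩]⟩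
noncomputable def p063_l44 : Lf2 := ⟨nat_lit 0, nat_lit 5, [nat_lit 4, nat_lit 5, nat_lit 5, nat_lit 20], true, nat_lit 280, nat_lit 312, nat_lit 0, nat_lit 300, ⟨nat_lit 0, nat_lit 521, nat_lit 479, nat_lit 6, nat_lit 117, nat_lit 1000, nat_lit 223, nat_lit 479, nat_lit 2384, nat_lit 213, nat_lit 129067, nat_lit 303, nat_lit 46120365, nat_lit 5602046, nat_lit 15277589, nat_lit 4272350, false, false⟩,
 nat_lit 0, nat_lit 5132, nat_lit 0, nat_lit 4779, nat_lit 3408, nat_lit 0, nat_lit 504, nat_lit 0, nat_lit 0, nat_lit 0, nat_lit 0, nat_lit 0, nat_lit 0, nat_lit 0, nat_lit 0, nat_lit 250000, nat_lit 0, nat_lit 0, [(nat_lit 12, [(nat_lit 0, nat_lit 521), (nat_lit 4, nat_lit 479)])],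
 ⟨p063_k28, nat_lit 0, nat_lit 0, nat_lit 0, nat_lit 0, nat_lit 71047, [nat_lit 1193496001, nat_lit 1355871601, nat_lit 1474248001, nat_lit 1358877600], [], [nat_lit 19462054072, nat_lit 19738597080, nat_lit 19156884993, nat_lit 19423982112, nat_lit 21188773081, nat_lit 21466337476, nat_lit 20840842349, nat_lit 21104009642], nat_lit 1271250, nat_lit 1271250, nat_lit 230001, nat_lit 490000, nat_lit 1271250, nat_lit 1271250, [nat_lit 356250, nat_lit 780000, nat_lit 1100000, nat_lit 1442500], [nat_lit 174, nat_lit 40, nat_lit 20, nat_lit 40]⟩, C1.Rw.none,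
 ⟨nat_lit 5123, nat_lit 5245, ⟨.ofNat (nat_lit 250085), .ofNat (nat_lit 323256), .ofNat (nat_lit 260778), .ofNat (nat_lit 333949), .ofNat (nat_lit 253618), .ofNat (nat_lit 325915), .ofNat (nat_lit 264320), .ofNat (nat_lit 336618)⟩, ⟨.ofNat (nat_lit 518028), .ofNat (nat_lit 576565), .ofNat (nat_lit 539414), .ofNat (nat_lit 597950), .ofNat (nat_lit 516164), .ofNat (nat_lit 574002), .ofNat (nat_lit 537569), .ofNat (nat_lit 595407)⟩⟩, [⟨nat_lit 0, nat_lit 100, nat_lit 91, nat_lit 70, nat_lit 153218412⟩, ⟨nat_lit 16, nat_lit 100, nat_lit 94, nat_lit 97, nat_lit 252293640⟩]⟩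
noncomputable def p063_l45 : Lf2 := ⟨nat_lit 0, nat_lit 5, [nat_lit 4, nat_lit 5, nat_lit 5, nat_lit 20], true, nat_lit 280, nat_lit 308, nat_lit 0, nat_lit 300, ⟨nat_lit 0, nat_lit 812, nat_lit 188, nat_lit 6, nat_lit 120, nat_lit 1000, nat_lit 220, nat_lit 188, nat_lit 5095, nat_lit 217, nat_lit 135000, nat_lit 305, nat_lit 46169368, nat_lit 5802136, nat_lit 15028496, nat_lit 4286657, false, false⟩,
 nat_lit 0, nat_lit 5509, nat_lit 0, nat_lit 1879, nat_lit 3735, nat_lit 0, nat_lit 696, nat_lit 0, nat_lit 0, nat_lit 0, nat_lit 0, nat_lit 0, nat_lit 0, nat_lit 0, nat_lit 0, nat_lit 249300, nat_lit 0, nat_lit 0, [(nat_lit 12, [(nat_lit 0, nat_lit 812), (nat_lit 3, nat_lit 10), (nat_lit 4, nat_lit 178)])],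
 ⟨p063_k29, nat_lit 0, nat_lit 0, nat_lit 0, nat_lit 0, nat_lit 96689, [nat_lit 1404396000, nat_lit 1728211201, nat_lit 2082016001, nat_lit 2281219200], [], [nat_lit 19927397720, nat_lit 20214042514, nat_lit 19572170408, nat_lit 19848960220, nat_lit 21472855262, nat_lit 21801234433, nat_lit 21083323924, nat_lit 21359594725], nat_lit 1271250, nat_lit 1271250, nat_lit 254650, nat_lit 490000, nat_lit 1271250, nat_lit 1271250, [nat_lit 356250, nat_lit 780000, nat_lit 1100000, nat_lit 1442500], [nat_lit 174, nat_lit 40, nat_lit 20, nat_lit 40]⟩, C1.Rw.none,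
 ⟨nat_lit 5000, nat_lit 5124, ⟨.ofNat (nat_lit 260847), .ofNat (nat_lit 325915), .ofNat (nat_lit 271550), .ofNat (nat_lit 336618), .ofNat (nat_lit 264284), .ofNat (nat_lit 328570), .ofNat (nat_lit 274998), .ofNat (nat_lit 339284)⟩, ⟨.ofNat (nat_lit 516164), .ofNat (nat_lit 566772), .ofNat (nat_lit 537569), .ofNat (nat_lit 588177), .ofNat (nat_lit 514284), .ofNat (nat_lit 564284), .ofNat (nat_lit 535713), .ofNat (nat_lit 585713)⟩⟩, [⟨nat_lit 0, nat_lit 100, nat_lit 90, nat_lit 69, nat_lit 164506347⟩, ⟨nat_lit 16, nat_lit 100, nat_lit 97, nat_lit 98, nat_lit 238515362⟩]⟩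
noncomputable def p063_l46 : Lf2 := ⟨nat_lit 0, nat_lit 5, [nat_lit 4, nat_lit 5, nat_lit 5, nat_lit 20], false, nat_lit 280, nat_lit 312, nat_lit 0, nat_lit 160, ⟨nat_lit 1000, nat_lit 0, nat_lit 0, nat_lit 0, nat_lit 0, nat_lit 0, nat_lit 0, nat_lit 0, nat_lit 0, nat_lit 0, nat_lit 0, nat_lit 0, nat_lit 0, nat_lit 0, nat_lit 0, nat_lit 0, false, false⟩,
 nat_lit 25458, nat_lit 0, nat_lit 0, nat_lit 0, nat_lit 5982, nat_lit 14143, nat_lit 1583, nat_lit 0, nat_lit 0, nat_lit 3249, nat_lit 0, nat_lit 0, nat_lit 0, nat_lit 0, nat_lit 0, nat_lit 0, nat_lit 0, nat_lit 0, [],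
 ⟨p063_k28, nat_lit 0, nat_lit 0, nat_lit 0, nat_lit 0, nat_lit 189376, [nat_lit 1465500000, nat_lit 3282000000, nat_lit 4688000000, nat_lit 6250000000], [], [nat_lit 20830655818, nat_lit 21192061189, nat_lit 20060587507, nat_lit 20397377343, nat_lit 23584743917, nat_lit 23999338799, nat_lit 22429048828, nat_lit 22832573771], nat_lit 1271250, nat_lit 1271250, nat_lit 279600, nat_lit 490000, nat_lit 1271250, nat_lit 1271250, [nat_lit 356250, nat_lit 780000, nat_lit 1100000, nat_lit 1442500], [nat_lit 174, nat_lit 40, nat_lit 20, nat_lit 40]⟩, ⟨p063_k22, nat_lit 0, nat_lit 0, nat_lit 265, nat_lit 0, nat_lit 235932, [nat_lit 4688000000, nat_lit 6250000000, nat_lit 7968000000], [], [nat_lit 21216705946, nat_lit 23577834244, nat_lit 16644941871, nat_lit 18965183538, nat_lit 19811157995, nat_lit 16442354796, nat_lit 21782670551, nat_lit 18450537322], nat_lit 1271250, nat_lit 1271250, nat_lit 279600, nat_lit 490000, nat_lit 0,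 nat_lit 1100001, [nat_lit 1100000, nat_lit 1442500, nat_lit 1271250], [nat_lit 9, nat_lit 40, nat_lit 40, nat_lit 80, nat_lit 2, nat_lit 272, nat_lit 60, nat_lit 9]⟩,
 zbF0, [⟨nat_lit 0, nat_lit 100, nat_lit 92, nat_lit 72, nat_lit 514259241⟩, ⟨nat_lit 4, nat_lit 99, nat_lit 100, nat_lit 94, nat_lit 734521035⟩]⟩
noncomputable def p063_l47 : Lf2 := ⟨nat_lit 0, nat_lit 5, [nat_lit 4, nat_lit 5, nat_lit 5, nat_lit 20], false, nat_lit 280, nat_lit 308, nat_lit 0, nat_lit 160, ⟨nat_lit 189, nat_lit 769, nat_lit 42, nat_lit 6, nat_lit 127, nat_lit 811, nat_lit 220, nat_lit 42, nat_lit 5095, nat_lit 217, nat_lit 150417, nat_lit 310, nat_lit 45727872, nat_lit 6314165, nat_lit 14957963, nat_lit 4370087, false, false⟩,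
 nat_lit 6419, nat_lit 0, nat_lit 0, nat_lit 0, nat_lit 4353, nat_lit 3566, nat_lit 862, nat_lit 0, nat_lit 0, nat_lit 0, nat_lit 0, nat_lit 0, nat_lit 0, nat_lit 0, nat_lit 0, nat_lit 202050, nat_lit 0, nat_lit 0, [(nat_lit 12, [(nat_lit 0, nat_lit 769), (nat_lit 3, nat_lit 10), (nat_lit 4, nat_lit 32)])],
 ⟨p063_k29, nat_lit 0, nat_lit 0, nat_lit 0, nat_lit 0, nat_lit 210989, [nat_lit 1454473500, nat_lit 2163227600, nat_lit 2805234400, nat_lit 3381234000], [], [nat_lit 20303414080, nat_lit 20598240951, nat_lit 20049155072, nat_lit 20336019316, nat_lit 21891802972, nat_lit 22244732685, nat_lit 21595284501, nat_lit 21862045299], nat_lit 1271250, nat_lit 1271250, nat_lit 304850, nat_lit 490000, nat_lit 1271250, nat_lit 1271250, [nat_lit 356250, nat_lit 780000, nat_lit 1100000, nat_lit 1442500], [nat_lit 174, nat_lit 40, nat_lit 20, nat_lit 40]⟩, ⟨p063_k22, nat_lit 0, nat_lit 0, nat_lit 276, nat_lit 0, nat_lit 269608, [nat_lit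 886032000, nat_lit 1181250000, nat_lit 1505952000], [], [nat_lit 6062477938, nat_lit 5311056313, nat_lit 3701409838, nat_lit 4258405348, nat_lit 3070800474, nat_lit 2222549991, nat_lit 3475034086, nat_lit 2634873788], nat_lit 1271250, nat_lit 1271250, nat_lit 304850, nat_lit 490000, nat_lit 0, nat_lit 1100001, [nat_lit 1100000, nat_lit 1442500, nat_lit 1271250], [nat_lit 9, nat_lit 40, nat_lit 40, nat_lit 80, nat_lit 2, nat_lit 272, nat_lit 60, nat_lit 9]⟩,
 ⟨nat_lit 5000, nat_lit 5124, ⟨.ofNat (nat_lit 286009), .ofNat (nat_lit 336618), .ofNat (nat_lit 296712), .ofNat (nat_lit 347320), .ofNat (nat_lit 289284), .ofNat (nat_lit 339284), .ofNat (nat_lit 299999), .ofNat (nat_lit 349998)⟩, ⟨.ofNat (nat_lit 516164), .ofNat (nat_lit 566772), .ofNat (nat_lit 537569), .ofNat (nat_lit 588177), .ofNat (nat_lit 514284), .ofNat (nat_lit 564284), .ofNat (nat_lit 535713), .ofNat (nat_lit 585713)⟩⟩, [⟨nat_lit 0, nat_lit 100, nat_lit 91,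 nat_lit 70, nat_lit 608161508⟩, ⟨nat_lit 16, nat_lit 100, nat_lit 97, nat_lit 98, nat_lit 301099524⟩]⟩
noncomputable def p063_l48 : Lf2 := ⟨nat_lit 0, nat_lit 5, [nat_lit 4, nat_lit 5, nat_lit 5, nat_lit 20], false, nat_lit 280, nat_lit 312, nat_lit 160, nat_lit 200, ⟨nat_lit 1000, nat_lit 0, nat_lit 0, nat_lit 0, nat_lit 0, nat_lit 0, nat_lit 0, nat_lit 0, nat_lit 0, nat_lit 0, nat_lit 0, nat_lit 0, nat_lit 0, nat_lit 0, nat_lit 0, nat_lit 0, false, false⟩,
 nat_lit 27536, nat_lit 0, nat_lit 0, nat_lit 0, nat_lit 5953, nat_lit 15297, nat_lit 1600, nat_lit 0, nat_lit 0, nat_lit 3747, nat_lit 0, nat_lit 0, nat_lit 0, nat_lit 0, nat_lit 0, nat_lit 0, nat_lit 0, nat_lit 0, [],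
 ⟨p063_k28, nat_lit 0, nat_lit 0, nat_lit 0, nat_lit 0, nat_lit 216407, [nat_lit 1465500000, nat_lit 3282000000, nat_lit 4688000000, nat_lit 6250000000], [], [nat_lit 20807734865, nat_lit 21628328197, nat_lit 20098325428, nat_lit 20770127516, nat_lit 23555658845, nat_lit 24382537251, nat_lit 22408382506, nat_lit 23213198888], nat_lit 1271250, nat_lit 1271250, nat_lit 279600, nat_lit 490000, nat_lit 1271250, nat_lit 1271250, [nat_lit 356250, nat_lit 780000, nat_lit 1100000, nat_lit 1442500], [nat_lit 174, nat_lit 40, nat_lit 20, nat_lit 40]⟩, ⟨p063_k22, nat_lit 0, nat_lit 0, nat_lit 181, nat_lit 0, nat_lit 269608, [nat_lit 4688000000, nat_lit 6250000000, nat_lit 7968000000], [], [nat_lit 13541702645, nat_lit 9629042104, nat_lit 2498607337, nat_lit 4604510930, nat_lit 10203786374, nat_lit 12160069167, nat_lit 6803205834, nat_lit 8703134180], nat_lit 1271250, nat_lit 1271250, nat_lit 279600, nat_lit 490000, nat_lit 1100001,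 nat_lit 1442500, [nat_lit 1100000, nat_lit 1442500, nat_lit 1271250], [nat_lit 9, nat_lit 40, nat_lit 40, nat_lit 80, nat_lit 2, nat_lit 289, nat_lit 75, nat_lit 9]⟩,
 zbF0, [⟨nat_lit 0, nat_lit 100, nat_lit 92, nat_lit 73, nat_lit 1430001251⟩, ⟨nat_lit 4, nat_lit 100, nat_lit 100, nat_lit 95, nat_lit 718069337⟩]⟩
noncomputable def p063_l49 : Lf2 := ⟨nat_lit 0, nat_lit 5, [nat_lit 4, nat_lit 5, nat_lit 5, nat_lit 20], false, nat_lit 280, nat_lit 312, nat_lit 200, nat_lit 240, ⟨nat_lit 1000, nat_lit 0, nat_lit 0, nat_lit 0, nat_lit 0, nat_lit 0, nat_lit 0, nat_lit 0, nat_lit 0, nat_lit 0, nat_lit 0, nat_lit 0, nat_lit 0, nat_lit 0, nat_lit 0, nat_lit 0, false, false⟩,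
 nat_lit 20036, nat_lit 0, nat_lit 0, nat_lit 0, nat_lit 5792, nat_lit 11131, nat_lit 1452, nat_lit 0, nat_lit 0, nat_lit 2119, nat_lit 0, nat_lit 0, nat_lit 0, nat_lit 0, nat_lit 0, nat_lit 0, nat_lit 0, nat_lit 0, [],
 ⟨p063_k28, nat_lit 0, nat_lit 0, nat_lit 0, nat_lit 0, nat_lit 216407, [nat_lit 1465500000, nat_lit 3282000000, nat_lit 4688000000, nat_lit 6250000000], [], [nat_lit 21193744286, nat_lit 21901558870, nat_lit 20568412324, nat_lit 21182779340, nat_lit 23396334848, nat_lit 24208232932, nat_lit 22557761184, nat_lit 23183191548], nat_lit 1271250, nat_lit 1271250, nat_lit 279600, nat_lit 490000, nat_lit 1271250, nat_lit 1271250, [nat_lit 356250, nat_lit 780000, nat_lit 1100000, nat_lit 1442500], [nat_lit 174, nat_lit 40, nat_lit 20, nat_lit 40]⟩, ⟨p063_k22, nat_lit 0, nat_lit 0, nat_lit 161, nat_lit 0, nat_lit 269608, [nat_lit 4688000000, nat_lit 6250000000, nat_lit 7968000000], [], [nat_lit 12142398148, nat_lit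 13175249366, nat_lit 10274695588, nat_lit 11273030859, nat_lit 14483767954, nat_lit 15656079254, nat_lit 12549871551, nat_lit 13444018042], nat_lit 1271250, nat_lit 1271250, nat_lit 279600, nat_lit 490000, nat_lit 1271250, nat_lit 1271250, [nat_lit 1100000, nat_lit 1442500, nat_lit 1271250], [nat_lit 9, nat_lit 40, nat_lit 40, nat_lit 80, nat_lit 2, nat_lit 317, nat_lit 100, nat_lit 10]⟩,
 zbF0, [⟨nat_lit 0, nat_lit 100, nat_lit 92, nat_lit 73, nat_lit 1154698292⟩, ⟨nat_lit 4, nat_lit 100, nat_lit 100, nat_lit 95, nat_lit 627488477⟩]⟩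
noncomputable def p063_l50 : Lf2 := ⟨nat_lit 0, nat_lit 5, [nat_lit 4, nat_lit 5, nat_lit 5, nat_lit 20], false, nat_lit 280, nat_lit 312, nat_lit 240, nat_lit 300, ⟨nat_lit 1000, nat_lit 0, nat_lit 0, nat_lit 0, nat_lit 0, nat_lit 0, nat_lit 0, nat_lit 0, nat_lit 0, nat_lit 0, nat_lit 0, nat_lit 0, nat_lit 0, nat_lit 0, nat_lit 0, nat_lit 0, false, false⟩,
 nat_lit 14941, nat_lit 0, nat_lit 0, nat_lit 0, nat_lit 6522, nat_lit 8300, nat_lit 1233, nat_lit 0, nat_lit 0, nat_lit 2189, nat_lit 0, nat_lit 0, nat_lit 0, nat_lit 0, nat_lit 0, nat_lit 0, nat_lit 0, nat_lit 0, [],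
 ⟨p063_k28, nat_lit 0, nat_lit 0, nat_lit 0, nat_lit 0, nat_lit 216407, [nat_lit 1465500000, nat_lit 3282000000, nat_lit 4688000000, nat_lit 6250000000], [], [nat_lit 21333757808, nat_lit 22091082419, nat_lit 20390892837, nat_lit 21124601429, nat_lit 24126328018, nat_lit 24998556862, nat_lit 22813870000, nat_lit 23662509283], nat_lit 1271250, nat_lit 1271250, nat_lit 279600, nat_lit 490000, nat_lit 1271250, nat_lit 1271250, [nat_lit 356250, nat_lit 780000, nat_lit 1100000, nat_lit 1442500], [nat_lit 174, nat_lit 40, nat_lit 20, nat_lit 40]⟩, ⟨p063_k22, nat_lit 0, nat_lit 0, nat_lit 187, nat_lit 0, nat_lit 269608, [nat_lit 4688000000, nat_lit 6250000000, nat_lit 7968000000], [], [nat_lit 16501920220, nat_lit 17271610600, nat_lit 15347480500, nat_lit 15960943400, nat_lit 21339266530, nat_lit 21967531780, nat_lit 19896768950, nat_lit 20506185100], nat_lit 1271250, nat_lit 1271250, nat_lit 279600, nat_lit 490000, nat_lit 1271250,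 nat_lit 1271250, [nat_lit 1100000, nat_lit 1442500, nat_lit 1271250], [nat_lit 9, nat_lit 40, nat_lit 40, nat_lit 80, nat_lit 2, nat_lit 226, nat_lit 20, nat_lit 7]⟩,
 zbF0, [⟨nat_lit 0, nat_lit 100, nat_lit 91, nat_lit 77, nat_lit 272654798⟩, ⟨nat_lit 4, nat_lit 100, nat_lit 100, nat_lit 95, nat_lit 210344651⟩, ⟨nat_lit 11, nat_lit 100, nat_lit 100, nat_lit 80, nat_lit 772420502⟩]⟩
noncomputable def p063_l51 : Lf2 := ⟨nat_lit 0, nat_lit 5, [nat_lit 4, nat_lit 5, nat_lit 5, nat_lit 20], true, nat_lit 280, nat_lit 312, nat_lit 0, nat_lit 300, ⟨nat_lit 0, nat_lit 0, nat_lit 1000, nat_lit 6, nat_lit 120, nat_lit 1000, nat_lit 222, nat_lit 1000, nat_lit 2384, nat_lit 213, nat_lit 135000, nat_lit 305, nat_lit 45993773, nat_lit 0, nat_lit 0, nat_lit 4301798, false, false⟩,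
 nat_lit 0, nat_lit 100000, nat_lit 0, nat_lit 0, nat_lit 66412, nat_lit 0, nat_lit 18956, nat_lit 8352, nat_lit 0, nat_lit 0, nat_lit 0, nat_lit 0, nat_lit 0, nat_lit 0, nat_lit 0, nat_lit 1000000, nat_lit 0, nat_lit 0, [(nat_lit 12, [(nat_lit 6, nat_lit 1000)])],
 ⟨p063_k3, nat_lit 0, nat_lit 0, nat_lit 157, nat_lit 0, nat_lit 216407, [nat_lit 101133600001, nat_lit 133861200001, nat_lit 165512400000], [], [nat_lit 163477696675, nat_lit 167623377817, nat_lit 146426624007, nat_lit 150355984553, nat_lit 174961862712, nat_lit 178900698957, nat_lit 157312355767, nat_lit 161141859663], nat_lit 1271250, nat_lit 1271250, nat_lit 230001, nat_lit 490000, nat_lit 1271250, nat_lit 1271250, [nat_lit 780000, nat_lit 1100000, nat_lit 1442500], [nat_lit 59, nat_lit 40, nat_lit 40, nat_lit 80, nat_lit 3, nat_lit 226, nat_lit 20, nat_lit 7]⟩, C1.Rw.none,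
 ⟨nat_lit 5000, nat_lit 5245, ⟨.ofNat (nat_lit 250085), .ofNat (nat_lit 323256), .ofNat (nat_lit 271470), .ofNat (nat_lit 344641), .ofNat (nat_lit 257141), .ofNat (nat_lit 328570), .ofNat (nat_lit 278570), .ofNat (nat_lit 349999)⟩, ⟨.ofNat (nat_lit 518028), .ofNat (nat_lit 576565), .ofNat (nat_lit 539414), .ofNat (nat_lit 597950), .ofNat (nat_lit 514284), .ofNat (nat_lit 571427), .ofNat (nat_lit 535713), .ofNat (nat_lit 592856)⟩⟩, [⟨nat_lit 0, nat_lit 100, nat_lit 91, nat_lit 77, nat_lit 2537769425⟩, ⟨nat_lit 16, nat_lit 100, nat_lit 94, nat_lit 97, nat_lit 6075140921⟩]⟩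
noncomputable def b_V_700_600_20_30 : St := ⟨true, nat_lit 1, nat_lit 1, nat_lit 1, nat_lit 120, nat_lit 290, nat_lit 300, nat_lit 240, nat_lit 260, nat_lit 36, nat_lit 80, nat_lit 80, nat_lit 100, nat_lit 280, nat_lit 320, nat_lit 0, nat_lit 300, nat_lit 0, nat_lit 20, nat_lit 0, nat_lit 0, nat_lit 0, nat_lit 0⟩
theorem d_V_700_600_20_30 (h : EB TB.env) : Dead b_V_700_600_20_30 := chkB_sound0 h (T :=
(.trZ (nat_lit 0) (nat_lit 100) (nat_lit 91) (nat_lit 63) (nat_lit 40) (.trX (nat_lit 16) (nat_lit 100) (nat_lit 94) (nat_lit 97) (nat_lit 312) (.spl (nat_lit 7) (nat_lit 600)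
(.spl (nat_lit 1) (nat_lit 250)
(.spl (nat_lit 6) (nat_lit 8)
(.spl (nat_lit 6) (nat_lit 4)
(.spl (nat_lit 0) (nat_lit 295)
(.leaf p063_l38)
(.trZ (nat_lit 0) (nat_lit 100) (nat_lit 90) (nat_lit 65) (nat_lit 44) (.trX (nat_lit 16) (nat_lit 100) (nat_lit 97) (nat_lit 98) (nat_lit 308) (.leaf p063_l39))))
(.spl (nat_lit 2) (nat_lit 60)
(.trX (nat_lit 23) (nat_lit 99) (nat_lit 100) (nat_lit 77) (nat_lit 276) (.spl (nat_lit 0) (nat_lit 295)
(.spl (nat_lit 2) (nat_lit 48)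
(.trX (nat_lit 23) (nat_lit 96) (nat_lit 100) (nat_lit 68) (nat_lit 260) (.leaf p063_l40))
(.leaf p063_l41))
(.trZ (nat_lit 0) (nat_lit 100) (nat_lit 90) (nat_lit 65) (nat_lit 44) (.trX (nat_lit 16) (nat_lit 100) (nat_lit 97) (nat_lit 98) (nat_lit 308) (.leaf p063_l42)))))
(.leaf p063_l43)))
(.spl (nat_lit 0) (nat_lit 295)
(.leaf p063_l44)
(.trZ (nat_lit 0) (nat_lit 100) (nat_lit 90) (nat_lit 65) (nat_lit 44) (.trX (nat_lit 16) (nat_lit 100) (nat_lit 97) (nat_lit 98) (nat_lit 308) (.leaf p063_l45)))))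
(.trZ (nat_lit 0) (nat_lit 100) (nat_lit 92) (nat_lit 68) (nat_lit 48) (.spl (nat_lit 5) (nat_lit 160)
(.spl (nat_lit 0) (nat_lit 295)
(.leaf p063_l46)
(.trZ (nat_lit 0) (nat_lit 100) (nat_lit 91) (nat_lit 70) (nat_lit 52) (.trX (nat_lit 16) (nat_lit 100) (nat_lit 97) (nat_lit 98) (nat_lit 308) (.leaf p063_l47))))
(.spl (nat_lit 5) (nat_lit 240)
(.spl (nat_lit 5) (nat_lit 200)
(.leaf p063_l48)
(.leaf p063_l49))
(.leaf p063_l50)))))
(.leaf p063_l51))))) (by decide +kernel)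
noncomputable def p063_l52 : Lf2 := ⟨nat_lit 0, nat_lit 5, [nat_lit 4, nat_lit 5, nat_lit 5, nat_lit 20], false, nat_lit 280, nat_lit 320, nat_lit 0, nat_lit 336, ⟨nat_lit 0, nat_lit 1000, nat_lit 0, nat_lit 6, nat_lit 145, nat_lit 1000, nat_lit 227, nat_lit 0, nat_lit 0, nat_lit 0, nat_lit 0, nat_lit 0, nat_lit 44030656, nat_lit 7592028, nat_lit 15377316, nat_lit 4611997, false, false⟩,
 nat_lit 0, nat_lit 7344, nat_lit 0, nat_lit 110, nat_lit 4673, nat_lit 0, nat_lit 805, nat_lit 0, nat_lit 0, nat_lit 0, nat_lit 0, nat_lit 0, nat_lit 0, nat_lit 0, nat_lit 0, nat_lit 381850, nat_lit 0, nat_lit 0, [(nat_lit 12, [(nat_lit 0, nat_lit 121), (nat_lit 1, nat_lit 879)])],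
 ⟨p063_k7, nat_lit 0, nat_lit 0, nat_lit 131, nat_lit 0, nat_lit 131629, [nat_lit 2073402600, nat_lit 2568895200, nat_lit 2775270667], [], [nat_lit 19107587507, nat_lit 19673235293, nat_lit 19174194302, nat_lit 19738404263, nat_lit 21510758184, nat_lit 22101225509, nat_lit 21429788300, nat_lit 21993062329], nat_lit 1271250, nat_lit 1271250, nat_lit 490000, nat_lit 780000, nat_lit 1271250, nat_lit 1271250, [nat_lit 780000, nat_lit 1100000, nat_lit 1785000], [nat_lit 36, nat_lit 40, nat_lit 40, nat_lit 80, nat_lit 7, nat_lit 238, nat_lit 30, nat_lit 7]⟩, ⟨p063_k20, nat_lit 0, nat_lit 0, nat_lit 284, nat_lit 0, nat_lit 165380, [nat_lit 0, nat_lit 0, nat_lit 0], [], [nat_lit 0, nat_lit 0, nat_lit 0, nat_lit 0, nat_lit 0, nat_lit 0, nat_lit 0, nat_lit 0], nat_lit 1271250, nat_lit 1271250, nat_lit 490000, nat_lit 780000, nat_lit 0, nat_lit 2373000, [nat_lit 1100000, nat_lit 1442500, nat_lit 1271250], [nat_lit 11, nat_lit 40,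 nat_lit 40, nat_lit 80, nat_lit 1, nat_lit 428, nat_lit 200, nat_lit 13]⟩,
 ⟨nat_lit 5244, nat_lit 5478, ⟨.ofNat (nat_lit 317913), .ofNat (nat_lit 392847), .ofNat (nat_lit 328592), .ofNat (nat_lit 403525), .ofNat (nat_lit 323256), .ofNat (nat_lit 396427), .ofNat (nat_lit 333949), .ofNat (nat_lit 407120)⟩, ⟨.ofNat (nat_lit 521722), .ofNat (nat_lit 596655), .ofNat (nat_lit 543079), .ofNat (nat_lit 618012), .ofNat (nat_lit 518028), .ofNat (nat_lit 591199), .ofNat (nat_lit 539414), .ofNat (nat_lit 612585)⟩⟩, [⟨nat_lit 16, nat_lit 100, nat_lit 88, nat_lit 94, nat_lit 181813944⟩, ⟨nat_lit 4, nat_lit 94, nat_lit 100, nat_lit 92, nat_lit 84242354⟩]⟩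
noncomputable def p063_l53 : Lf2 := ⟨nat_lit 0, nat_lit 5, [nat_lit 4, nat_lit 5, nat_lit 5, nat_lit 20], false, nat_lit 280, nat_lit 312, nat_lit 0, nat_lit 336, ⟨nat_lit 0, nat_lit 1000, nat_lit 0, nat_lit 6, nat_lit 147, nat_lit 1000, nat_lit 222, nat_lit 0, nat_lit 0, nat_lit 0, nat_lit 0, nat_lit 0, nat_lit 44318774, nat_lit 7764122, nat_lit 14917104, nat_lit 4598250, false, false⟩,
 nat_lit 0, nat_lit 6472, nat_lit 0, nat_lit 0, nat_lit 4298, nat_lit 0, nat_lit 756, nat_lit 0, nat_lit 0, nat_lit 0, nat_lit 0, nat_lit 0, nat_lit 0, nat_lit 0, nat_lit 0, nat_lit 400000, nat_lit 0, nat_lit 0, [(nat_lit 12, [(nat_lit 1, nat_lit 1000)])],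
 ⟨p063_k3, nat_lit 0, nat_lit 0, nat_lit 124, nat_lit 0, nat_lit 180624, [nat_lit 2033400000, nat_lit 2439600000, nat_lit 2628400000], [], [nat_lit 19729161014, nat_lit 20299033124, nat_lit 19855594838, nat_lit 20398520924, nat_lit 21414310170, nat_lit 21939063541, nat_lit 21461077651, nat_lit 21961633990], nat_lit 1271250, nat_lit 1271250, nat_lit 490000, nat_lit 780000, nat_lit 1271250, nat_lit 1271250, [nat_lit 780000, nat_lit 1100000, nat_lit 1442500], [nat_lit 59, nat_lit 40, nat_lit 40, nat_lit 80, nat_lit 3, nat_lit 238, nat_lit 30, nat_lit 8]⟩, ⟨p063_k20, nat_lit 0, nat_lit 0, nat_lit 312, nat_lit 0, nat_lit 239053, [nat_lit 0, nat_lit 0, nat_lit 0], [], [nat_lit 0, nat_lit 0, nat_lit 0, nat_lit 0, nat_lit 0, nat_lit 0, nat_lit 0, nat_lit 0], nat_lit 1271250, nat_lit 1271250, nat_lit 490000, nat_lit 780000, nat_lit 0, nat_lit 2373000, [nat_lit 1100000, nat_lit 1442500, nat_lit 1271250], [nat_lit 11, nat_lit 40,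 nat_lit 40, nat_lit 80, nat_lit 1, nat_lit 428, nat_lit 200, nat_lit 13]⟩,
 ⟨nat_lit 5000, nat_lit 5245, ⟨.ofNat (nat_lit 323256), .ofNat (nat_lit 396427), .ofNat (nat_lit 333949), .ofNat (nat_lit 407119), .ofNat (nat_lit 328570), .ofNat (nat_lit 399998), .ofNat (nat_lit 339284), .ofNat (nat_lit 410712)⟩, ⟨.ofNat (nat_lit 518028), .ofNat (nat_lit 576565), .ofNat (nat_lit 539414), .ofNat (nat_lit 597950), .ofNat (nat_lit 514284), .ofNat (nat_lit 571427), .ofNat (nat_lit 535713), .ofNat (nat_lit 592856)⟩⟩, [⟨nat_lit 16, nat_lit 100, nat_lit 94, nat_lit 97, nat_lit 199147657⟩, ⟨nat_lit 4, nat_lit 100, nat_lit 100, nat_lit 95, nat_lit 20797295⟩]⟩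
noncomputable def p063_l54 : Lf2 := ⟨nat_lit 0, nat_lit 2, [nat_lit 10, nat_lit 5, nat_lit 5, nat_lit 20], false, nat_lit 280, nat_lit 320, nat_lit 0, nat_lit 160, ⟨nat_lit 1000, nat_lit 0, nat_lit 0, nat_lit 0, nat_lit 0, nat_lit 0, nat_lit 0, nat_lit 0, nat_lit 0, nat_lit 0, nat_lit 0, nat_lit 0, nat_lit 0, nat_lit 0, nat_lit 0, nat_lit 0, false, false⟩,
 nat_lit 21600, nat_lit 0, nat_lit 0, nat_lit 0, nat_lit 5941, nat_lit 12000, nat_lit 2519, nat_lit 0, nat_lit 0, nat_lit 0, nat_lit 0, nat_lit 0, nat_lit 0, nat_lit 0, nat_lit 0, nat_lit 0, nat_lit 0, nat_lit 0, [],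
 ⟨p063_k30, nat_lit 0, nat_lit 0, nat_lit 0, nat_lit 0, nat_lit 220166, [nat_lit 3282000000, nat_lit 3965500000, nat_lit 5449500000], [], [nat_lit 19217866540, nat_lit 20529058052, nat_lit 19093638736, nat_lit 20381793246, nat_lit 22308111508, nat_lit 23872733968, nat_lit 21820845552, nat_lit 23312508482], nat_lit 1271250, nat_lit 1271250, nat_lit 490000, nat_lit 780000, nat_lit 1271250, nat_lit 1271250, [nat_lit 780000, nat_lit 936250, nat_lit 1271250], [nat_lit 211, nat_lit 40, nat_lit 20, nat_lit 40]⟩, ⟨p063_k31, nat_lit 0, nat_lit 0, nat_lit 251, nat_lit 0, nat_lit 259832, [nat_lit 4688000000, nat_lit 6250000000, nat_lit 7968000000], [], [nat_lit 24083360000, nat_lit 21141692000, nat_lit 18688757000, nat_lit 20019654000, nat_lit 11200893000, nat_lit 12363458000, nat_lit 10425874000, nat_lit 11519368000], nat_lit 1271250, nat_lit 1271250, nat_lit 490000, nat_lit 780000, nat_lit 0, nat_lit 1100001, [nat_lit 1100000,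 nat_lit 1442500, nat_lit 1271250], [nat_lit 9, nat_lit 40, nat_lit 40, nat_lit 80, nat_lit 2, nat_lit 289, nat_lit 75, nat_lit 10]⟩,
 zbF0, [⟨nat_lit 4, nat_lit 97, nat_lit 100, nat_lit 94, nat_lit 714797500⟩]⟩
noncomputable def p063_l55 : Lf2 := ⟨nat_lit 0, nat_lit 2, [nat_lit 10, nat_lit 5, nat_lit 5, nat_lit 20], false, nat_lit 280, nat_lit 320, nat_lit 160, nat_lit 336, ⟨nat_lit 423, nat_lit 377, nat_lit 200, nat_lit 6, nat_lit 150, nat_lit 577, nat_lit 226, nat_lit 200, nat_lit 1855, nat_lit 206, nat_lit 212817, nat_lit 328, nat_lit 43781648, nat_lit 7990724, nat_lit 15227628, nat_lit 4658558, false, false⟩,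
 nat_lit 7656, nat_lit 0, nat_lit 0, nat_lit 0, nat_lit 4872, nat_lit 4253, nat_lit 628, nat_lit 0, nat_lit 0, nat_lit 720, nat_lit 0, nat_lit 0, nat_lit 0, nat_lit 0, nat_lit 0, nat_lit 577000, nat_lit 0, nat_lit 0, [(nat_lit 12, [(nat_lit 2, nat_lit 377), (nat_lit 6, nat_lit 200)])],
 ⟨p063_k0, nat_lit 0, nat_lit 0, nat_lit 0, nat_lit 0, nat_lit 220166, [nat_lit 2321551920, nat_lit 2906459681, nat_lit 2955002000], [], [nat_lit 19361196680, nat_lit 20553753768, nat_lit 19407274929, nat_lit 20558284137, nat_lit 21755033057, nat_lit 22959658657, nat_lit 21635754081, nat_lit 22784340593], nat_lit 1271250, nat_lit 1271250, nat_lit 490000, nat_lit 780000, nat_lit 1271250, nat_lit 1271250, [nat_lit 780000, nat_lit 1100000, nat_lit 1442500], [nat_lit 59, nat_lit 40, nat_lit 40, nat_lit 80]⟩, ⟨p063_k32, nat_lit 0, nat_lit 0, nat_lit 170, nat_lit 0, nat_lit 259832, [nat_lit 1983024000, nat_lit 3370464000], [], [nat_lit 9232197589,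 nat_lit 8172592410, nat_lit 10432958469, nat_lit 9388374886, nat_lit 10683409078, nat_lit 10928523886, nat_lit 10149339275, nat_lit 10380352448], nat_lit 1271250, nat_lit 1271250, nat_lit 490000, nat_lit 780000, nat_lit 1271250, nat_lit 1271250, [nat_lit 1100000, nat_lit 1785000], [nat_lit 39, nat_lit 40, nat_lit 40, nat_lit 80, nat_lit 7, nat_lit 345, nat_lit 125, nat_lit 11]⟩,
 ⟨nat_lit 5000, nat_lit 5478, ⟨.ofNat (nat_lit 328592), .ofNat (nat_lit 403525), .ofNat (nat_lit 339271), .ofNat (nat_lit 414199), .ofNat (nat_lit 339284), .ofNat (nat_lit 410712), .ofNat (nat_lit 349999), .ofNat (nat_lit 421423)⟩, ⟨.ofNat (nat_lit 521722), .ofNat (nat_lit 596655), .ofNat (nat_lit 543079), .ofNat (nat_lit 618012), .ofNat (nat_lit 514284), .ofNat (nat_lit 585713), .ofNat (nat_lit 535713), .ofNat (nat_lit 607141)⟩⟩, [⟨nat_lit 4, nat_lit 97, nat_lit 100, nat_lit 94, nat_lit 249394609⟩, ⟨nat_lit 11, nat_lit 100, nat_lit 100, nat_lit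 100, nat_lit 161998823⟩]⟩
noncomputable def p063_l56 : Lf2 := ⟨nat_lit 0, nat_lit 5, [nat_lit 4, nat_lit 5, nat_lit 5, nat_lit 20], false, nat_lit 280, nat_lit 320, nat_lit 0, nat_lit 160, ⟨nat_lit 1000, nat_lit 0, nat_lit 0, nat_lit 0, nat_lit 0, nat_lit 0, nat_lit 0, nat_lit 0, nat_lit 0, nat_lit 0, nat_lit 0, nat_lit 0, nat_lit 0, nat_lit 0, nat_lit 0, nat_lit 0, false, false⟩,
 nat_lit 16181, nat_lit 0, nat_lit 0, nat_lit 11400, nat_lit 6351, nat_lit 8989, nat_lit 1733, nat_lit 0, nat_lit 0, nat_lit 3203, nat_lit 0, nat_lit 0, nat_lit 0, nat_lit 0, nat_lit 0, nat_lit 0, nat_lit 0, nat_lit 0, [],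
 ⟨p063_k7, nat_lit 0, nat_lit 0, nat_lit 0, nat_lit 0, nat_lit 142286, [nat_lit 3282000000, nat_lit 4688000000, nat_lit 7968000000], [], [nat_lit 20150999080, nat_lit 21469988677, nat_lit 19755887932, nat_lit 21137070989, nat_lit 22843230008, nat_lit 24223930558, nat_lit 22439231700, nat_lit 23751611546], nat_lit 1271250, nat_lit 1271250, nat_lit 490000, nat_lit 780000, nat_lit 1271250, nat_lit 1271250, [nat_lit 780000, nat_lit 1100000, nat_lit 1785000], [nat_lit 36, nat_lit 40, nat_lit 40, nat_lit 80]⟩, ⟨p063_k22, nat_lit 0, nat_lit 0, nat_lit 237, nat_lit 0, nat_lit 168281, [nat_lit 4688000000, nat_lit 6250000000, nat_lit 7968000000], [], [nat_lit 13928105247, nat_lit 15075362910, nat_lit 13385153353, nat_lit 14537285464, nat_lit 9903754446, nat_lit 10388461048, nat_lit 12434675825, nat_lit 10195129398], nat_lit 1271250, nat_lit 1271250, nat_lit 490000, nat_lit 780000, nat_lit 0, nat_lit 1100001, [nat_lit 1100000, nat_lit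 1442500, nat_lit 1271250], [nat_lit 9, nat_lit 40, nat_lit 40, nat_lit 80, nat_lit 2, nat_lit 289, nat_lit 75, nat_lit 10]⟩,
 zbF0, [⟨nat_lit 4, nat_lit 97, nat_lit 100, nat_lit 94, nat_lit 636180877⟩]⟩
noncomputable def p063_l57 : Lf2 := ⟨nat_lit 0, nat_lit 5, [nat_lit 4, nat_lit 5, nat_lit 5, nat_lit 20], false, nat_lit 280, nat_lit 320, nat_lit 160, nat_lit 336, ⟨nat_lit 239, nat_lit 141, nat_lit 620, nat_lit 6, nat_lit 150, nat_lit 761, nat_lit 226, nat_lit 619, nat_lit 1855, nat_lit 206, nat_lit 212817, nat_lit 328, nat_lit 43781648, nat_lit 7990724, nat_lit 15227628, nat_lit 4658558, false, false⟩,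
 nat_lit 6562, nat_lit 0, nat_lit 0, nat_lit 0, nat_lit 4175, nat_lit 3645, nat_lit 66, nat_lit 0, nat_lit 0, nat_lit 0, nat_lit 0, nat_lit 0, nat_lit 0, nat_lit 0, nat_lit 6, nat_lit 676400, nat_lit 0, nat_lit 0, [(nat_lit 12, [(nat_lit 1, nat_lit 141), (nat_lit 6, nat_lit 620)])],
 ⟨p063_k7, nat_lit 0, nat_lit 0, nat_lit 0, nat_lit 0, nat_lit 142286, [nat_lit 1707059400, nat_lit 2095566801, nat_lit 94688533], [], [nat_lit 19055872533, nat_lit 20131609233, nat_lit 19072782633, nat_lit 20121244126, nat_lit 21174888201, nat_lit 22363072400, nat_lit 21189787301, nat_lit 22261183851], nat_lit 1271250, nat_lit 1271250, nat_lit 490000, nat_lit 780000, nat_lit 1271250, nat_lit 1271250, [nat_lit 780000, nat_lit 1100000, nat_lit 1785000], [nat_lit 36, nat_lit 40, nat_lit 40, nat_lit 80]⟩, ⟨p063_k22, nat_lit 0, nat_lit 0, nat_lit 157, nat_lit 0, nat_lit 168281, [nat_lit 1120432000, nat_lit 1493750000, nat_lit 1904352000], [], [nat_lit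 1750133235, nat_lit 2081670754, nat_lit 1455614759, nat_lit 1766753870, nat_lit 7106091173, nat_lit 7132591828, nat_lit 8159512782, nat_lit 7305272040], nat_lit 1271250, nat_lit 1271250, nat_lit 490000, nat_lit 780000, nat_lit 1100001, nat_lit 2607000, [nat_lit 1100000, nat_lit 1442500, nat_lit 1271250], [nat_lit 9, nat_lit 40, nat_lit 40, nat_lit 80, nat_lit 2, nat_lit 345, nat_lit 125, nat_lit 11]⟩,
 ⟨nat_lit 5000, nat_lit 5478, ⟨.ofNat (nat_lit 328592), .ofNat (nat_lit 403525), .ofNat (nat_lit 339271), .ofNat (nat_lit 414199), .ofNat (nat_lit 339284), .ofNat (nat_lit 410712), .ofNat (nat_lit 349999), .ofNat (nat_lit 421423)⟩, ⟨.ofNat (nat_lit 521722), .ofNat (nat_lit 596655), .ofNat (nat_lit 543079), .ofNat (nat_lit 618012), .ofNat (nat_lit 514284), .ofNat (nat_lit 585713), .ofNat (nat_lit 535713), .ofNat (nat_lit 607141)⟩⟩, [⟨nat_lit 4, nat_lit 97, nat_lit 100, nat_lit 94, nat_lit 157280313⟩, ⟨nat_lit 11, nat_lit 100,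 nat_lit 100, nat_lit 100, nat_lit 198103217⟩]⟩
noncomputable def p063_l58 : Lf2 := ⟨nat_lit 0, nat_lit 5, [nat_lit 4, nat_lit 5, nat_lit 5, nat_lit 20], false, nat_lit 280, nat_lit 320, nat_lit 0, nat_lit 336, ⟨nat_lit 0, nat_lit 0, nat_lit 1000, nat_lit 6, nat_lit 150, nat_lit 1000, nat_lit 226, nat_lit 1000, nat_lit 1855, nat_lit 206, nat_lit 212817, nat_lit 328, nat_lit 43781648, nat_lit 0, nat_lit 0, nat_lit 4658558, false, false⟩,
 nat_lit 57143, nat_lit 100000, nat_lit 0, nat_lit 0, nat_lit 100000, nat_lit 0, nat_lit 9536, nat_lit 7439, nat_lit 0, nat_lit 0, nat_lit 0, nat_lit 0, nat_lit 0, nat_lit 0, nat_lit 0, nat_lit 1000000, nat_lit 0, nat_lit 0, [(nat_lit 12, [(nat_lit 6, nat_lit 1000)])],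
 ⟨p063_k1, nat_lit 0, nat_lit 0, nat_lit 171, nat_lit 0, nat_lit 227959, [nat_lit 90409200001, nat_lit 147652400001, nat_lit 174648400000], [], [nat_lit 100072426001, nat_lit 111602476002, nat_lit 84579682002, nat_lit 95283714002, nat_lit 121199452001, nat_lit 132430806001, nat_lit 103810608002, nat_lit 112773490002], nat_lit 1271250, nat_lit 1271250, nat_lit 490000, nat_lit 780000, nat_lit 1271250, nat_lit 1271250, [nat_lit 780000, nat_lit 1435000, nat_lit 1271250], [nat_lit 18, nat_lit 40, nat_lit 40, nat_lit 80, nat_lit 2, nat_lit 238, nat_lit 30, nat_lit 7]⟩, ⟨p063_k33, nat_lit 0, nat_lit 0, nat_lit 253, nat_lit 0, nat_lit 269608, [nat_lit 0, nat_lit 0], [], [nat_lit 0, nat_lit 0, nat_lit 0, nat_lit 0, nat_lit 0, nat_lit 0, nat_lit 0, nat_lit 0], nat_lit 1271250, nat_lit 1271250, nat_lit 490000, nat_lit 780000, nat_lit 0, nat_lit 2373000, [nat_lit 1100000, nat_lit 1785000], [nat_lit 39, nat_lit 40, nat_lit 40, nat_lit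 80, nat_lit 7, nat_lit 345, nat_lit 125, nat_lit 12]⟩,
 ⟨nat_lit 5000, nat_lit 5478, ⟨.ofNat (nat_lit 328592), .ofNat (nat_lit 403525), .ofNat (nat_lit 339271), .ofNat (nat_lit 414199), .ofNat (nat_lit 339284), .ofNat (nat_lit 410712), .ofNat (nat_lit 349999), .ofNat (nat_lit 421423)⟩, ⟨.ofNat (nat_lit 521722), .ofNat (nat_lit 596655), .ofNat (nat_lit 543079), .ofNat (nat_lit 618012), .ofNat (nat_lit 514284), .ofNat (nat_lit 585713), .ofNat (nat_lit 535713), .ofNat (nat_lit 607141)⟩⟩, [⟨nat_lit 4, nat_lit 97, nat_lit 100, nat_lit 94, nat_lit 7255177820⟩]⟩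
noncomputable def b_V_700_600_20_31 : St := ⟨true, nat_lit 1, nat_lit 1, nat_lit 1, nat_lit 120, nat_lit 280, nat_lit 300, nat_lit 240, nat_lit 260, nat_lit 80, nat_lit 120, nat_lit 80, nat_lit 100, nat_lit 280, nat_lit 320, nat_lit 0, nat_lit 336, nat_lit 0, nat_lit 20, nat_lit 0, nat_lit 0, nat_lit 0, nat_lit 0⟩
theorem d_V_700_600_20_31 (h : EB TB.env) : Dead b_V_700_600_20_31 := chkB_sound0 h (T :=
(.spl (nat_lit 1) (nat_lit 250)
(.spl (nat_lit 0) (nat_lit 290)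
(.leaf p063_l52)
(.trX (nat_lit 16) (nat_lit 100) (nat_lit 94) (nat_lit 97) (nat_lit 312) (.leaf p063_l53)))
(.spl (nat_lit 7) (nat_lit 600)
(.spl (nat_lit 6) (nat_lit 8)
(.spl (nat_lit 5) (nat_lit 160)
(.leaf p063_l54)
(.leaf p063_l55))
(.spl (nat_lit 5) (nat_lit 160)
(.leaf p063_l56)
(.leaf p063_l57)))
(.leaf p063_l58)))) (by decide +kernel)
noncomputable def p063_l59 : Lf2 := ⟨nat_lit 1, nat_lit 7, [nat_lit 80, nat_lit 5, nat_lit 5, nat_lit 20], false, nat_lit 280, nat_lit 300, nat_lit 0, nat_lit 300, zbN0,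
 nat_lit 0, nat_lit 0, nat_lit 0, nat_lit 0, nat_lit 0, nat_lit 0, nat_lit 0, nat_lit 0, nat_lit 0, nat_lit 0, nat_lit 0, nat_lit 0, nat_lit 0, nat_lit 0, nat_lit 0, nat_lit 0, nat_lit 0, nat_lit 0, [],
 C1.Rw.none, C1.Rw.none,
 zbF0, []⟩
noncomputable def p063_l60 : Lf2 := ⟨nat_lit 0, nat_lit 7, [nat_lit 80, nat_lit 5, nat_lit 5, nat_lit 20], true, nat_lit 280, nat_lit 300, nat_lit 0, nat_lit 300, ⟨nat_lit 0, nat_lit 21, nat_lit 979, nat_lit 6, nat_lit 120, nat_lit 1000, nat_lit 218, nat_lit 979, nat_lit 1708, nat_lit 221, nat_lit 135000, nat_lit 305, nat_lit 46387651, nat_lit 5820727, nat_lit 14791622, nat_lit 4268730, false, false⟩,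
 nat_lit 0, nat_lit 5178, nat_lit 0, nat_lit 10056, nat_lit 3438, nat_lit 0, nat_lit 0, nat_lit 0, nat_lit 0, nat_lit 0, nat_lit 0, nat_lit 0, nat_lit 0, nat_lit 0, nat_lit 68, nat_lit 400000, nat_lit 0, nat_lit 0, [(nat_lit 12, [(nat_lit 1, nat_lit 21), (nat_lit 5, nat_lit 979)])],
 ⟨p063_k34, nat_lit 0, nat_lit 0, nat_lit 123, nat_lit 0, nat_lit 37904, [nat_lit 2074179600, nat_lit 893706534, nat_lit 106294266], [], [nat_lit 19183418766, nat_lit 19871686900, nat_lit 18888387302, nat_lit 19340582686, nat_lit 20452561068, nat_lit 21104143568, nat_lit 19904155566, nat_lit 20536067896], nat_lit 1271250, nat_lit 1271250, nat_lit 230001, nat_lit 490000, nat_lit 1271250, nat_lit 1271250, [nat_lit 780000, nat_lit 1435000, nat_lit 1271250], [nat_lit 18, nat_lit 40, nat_lit 40, nat_lit 80, nat_lit 2, nat_lit 226, nat_lit 20, nat_lit 6]⟩, C1.Rw.none,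
 ⟨nat_lit 5000, nat_lit 5245, ⟨.ofNat (nat_lit 250085), .ofNat (nat_lit 323256), .ofNat (nat_lit 271470), .ofNat (nat_lit 344641), .ofNat (nat_lit 257141), .ofNat (nat_lit 328570), .ofNat (nat_lit 278570), .ofNat (nat_lit 349999)⟩, ⟨.ofNat (nat_lit 518028), .ofNat (nat_lit 554614), .ofNat (nat_lit 539414), .ofNat (nat_lit 575999), .ofNat (nat_lit 514284), .ofNat (nat_lit 549998), .ofNat (nat_lit 535713), .ofNat (nat_lit 571427)⟩⟩, [⟨nat_lit 0, nat_lit 100, nat_lit 91, nat_lit 77, nat_lit 184995642⟩, ⟨nat_lit 16, nat_lit 100, nat_lit 100, nat_lit 95, nat_lit 331773333⟩]⟩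
noncomputable def p063_l61 : Lf2 := ⟨nat_lit 0, nat_lit 7, [nat_lit 80, nat_lit 5, nat_lit 5, nat_lit 20], true, nat_lit 280, nat_lit 300, nat_lit 0, nat_lit 336, ⟨nat_lit 0, nat_lit 1000, nat_lit 0, nat_lit 6, nat_lit 148, nat_lit 1000, nat_lit 219, nat_lit 0, nat_lit 0, nat_lit 0, nat_lit 0, nat_lit 0, nat_lit 44536022, nat_lit 7886646, nat_lit 14577332, nat_lit 4586293, false, false⟩,
 nat_lit 0, nat_lit 6503, nat_lit 0, nat_lit 2927, nat_lit 4138, nat_lit 0, nat_lit 0, nat_lit 0, nat_lit 0, nat_lit 0, nat_lit 0, nat_lit 0, nat_lit 0, nat_lit 0, nat_lit 0, nat_lit 250000, nat_lit 0, nat_lit 0, [(nat_lit 12, [(nat_lit 0, nat_lit 1000)])],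
 ⟨p063_k5, nat_lit 0, nat_lit 0, nat_lit 83, nat_lit 0, nat_lit 68871, [nat_lit 2364000000, nat_lit 2875200000, nat_lit 3241600000], [], [nat_lit 18527576044, nat_lit 19847772152, nat_lit 18682275792, nat_lit 19940970592, nat_lit 19780496542, nat_lit 21031782088, nat_lit 19876895992, nat_lit 21070979062], nat_lit 1271250, nat_lit 1271250, nat_lit 490000, nat_lit 780000, nat_lit 1271250, nat_lit 1271250, [nat_lit 780000, nat_lit 1435000, nat_lit 1271250], [nat_lit 18, nat_lit 40, nat_lit 40, nat_lit 80, nat_lit 2, nat_lit 238, nat_lit 30, nat_lit 7]⟩, C1.Rw.none,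
 ⟨nat_lit 5000, nat_lit 5478, ⟨.ofNat (nat_lit 317913), .ofNat (nat_lit 392847), .ofNat (nat_lit 339271), .ofNat (nat_lit 414199), .ofNat (nat_lit 328570), .ofNat (nat_lit 399998), .ofNat (nat_lit 349999), .ofNat (nat_lit 421423)⟩, ⟨.ofNat (nat_lit 521722), .ofNat (nat_lit 559189), .ofNat (nat_lit 543079), .ofNat (nat_lit 580546), .ofNat (nat_lit 514284), .ofNat (nat_lit 549998), .ofNat (nat_lit 535713), .ofNat (nat_lit 571427)⟩⟩, [⟨nat_lit 4, nat_lit 97, nat_lit 100, nat_lit 94, nat_lit 261447735⟩]⟩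
noncomputable def p063_l62 : Lf2 := ⟨nat_lit 0, nat_lit 7, [nat_lit 80, nat_lit 5, nat_lit 5, nat_lit 20], true, nat_lit 300, nat_lit 320, nat_lit 0, nat_lit 320, ⟨nat_lit 0, nat_lit 98, nat_lit 902, nat_lit 6, nat_lit 132, nat_lit 1000, nat_lit 233, nat_lit 902, nat_lit 1855, nat_lit 206, nat_lit 163350, nat_lit 314, nat_lit 44279681, nat_lit 6581659, nat_lit 16138660, nat_lit 4514984, false, false⟩,
 nat_lit 0, nat_lit 5166, nat_lit 0, nat_lit 100000, nat_lit 3287, nat_lit 0, nat_lit 0, nat_lit 0, nat_lit 0, nat_lit 0, nat_lit 0, nat_lit 0, nat_lit 0, nat_lit 0, nat_lit 54, nat_lit 400000, nat_lit 0, nat_lit 0, [(nat_lit 12, [(nat_lit 1, nat_lit 98), (nat_lit 5, nat_lit 902)])],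
 ⟨p063_k5, nat_lit 0, nat_lit 0, nat_lit 146, nat_lit 0, nat_lit 68871, [nat_lit 1969904800, nat_lit 864408267, nat_lit 97462133], [], [nat_lit 20218565200, nat_lit 21102419269, nat_lit 20086376697, nat_lit 20904768806, nat_lit 21105197540, nat_lit 22312911401, nat_lit 20905106548, nat_lit 21836950182], nat_lit 1271250, nat_lit 1271250, nat_lit 205650, nat_lit 780000, nat_lit 1271250, nat_lit 1271250, [nat_lit 780000, nat_lit 1435000, nat_lit 1271250], [nat_lit 18, nat_lit 40, nat_lit 40, nat_lit 80, nat_lit 2, nat_lit 238, nat_lit 30, nat_lit 7]⟩, C1.Rw.none,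
 ⟨nat_lit 5000, nat_lit 5478, ⟨.ofNat (nat_lit 235487), .ofNat (nat_lit 392847), .ofNat (nat_lit 256844), .ofNat (nat_lit 414199), .ofNat (nat_lit 249999), .ofNat (nat_lit 399998), .ofNat (nat_lit 271427), .ofNat (nat_lit 421423)⟩, ⟨.ofNat (nat_lit 559189), .ofNat (nat_lit 596655), .ofNat (nat_lit 580546), .ofNat (nat_lit 618012), .ofNat (nat_lit 549998), .ofNat (nat_lit 585713), .ofNat (nat_lit 571427), .ofNat (nat_lit 607141)⟩⟩, [⟨nat_lit 0, nat_lit 100, nat_lit 91, nat_lit 77, nat_lit 119835414⟩, ⟨nat_lit 4, nat_lit 97, nat_lit 100, nat_lit 94, nat_lit 3019342200⟩]⟩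
noncomputable def b_V_700_600_20_32 : St := ⟨true, nat_lit 1, nat_lit 1, nat_lit 1, nat_lit 120, nat_lit 280, nat_lit 300, nat_lit 240, nat_lit 260, nat_lit 36, nat_lit 120, nat_lit 80, nat_lit 100, nat_lit 280, nat_lit 320, nat_lit 0, nat_lit 336, nat_lit 20, nat_lit 28, nat_lit 0, nat_lit 0, nat_lit 0, nat_lit 0⟩
theorem d_V_700_600_20_32 (h : EB TB.env) : Dead b_V_700_600_20_32 := chkB_sound0 h (T :=
(.spl (nat_lit 4) (nat_lit 300)
(.spl (nat_lit 2) (nat_lit 80)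
(.trX (nat_lit 23) (nat_lit 100) (nat_lit 95) (nat_lit 87) (nat_lit 300) (.spl (nat_lit 0) (nat_lit 290)
(.leaf p063_l59)
(.trZ (nat_lit 0) (nat_lit 100) (nat_lit 91) (nat_lit 63) (nat_lit 40) (.leaf p063_l60))))
(.leaf p063_l61))
(.trX (nat_lit 23) (nat_lit 94) (nat_lit 88) (nat_lit 100) (nat_lit 320) (.leaf p063_l62)))) (by decide +kernel)
noncomputable def p063_l63 : Lf2 := ⟨nat_lit 0, nat_lit 5, [nat_lit 4, nat_lit 5, nat_lit 5, nat_lit 20], true, nat_lit 280, nat_lit 336, nat_lit 0, nat_lit 300, ⟨nat_lit 0, nat_lit 1000, nat_lit 0, nat_lit 6, nat_lit 117, nat_lit 1000, nat_lit 241, nat_lit 0, nat_lit 0, nat_lit 0, nat_lit 0, nat_lit 0, nat_lit 44497709, nat_lit 5508347, nat_lit 16993944, nat_lit 4395213, false, false⟩,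
 nat_lit 0, nat_lit 0, nat_lit 0, nat_lit 3315, nat_lit 0, nat_lit 0, nat_lit 0, nat_lit 0, nat_lit 352, nat_lit 0, nat_lit 0, nat_lit 0, nat_lit 0, nat_lit 0, nat_lit 0, nat_lit 400000, nat_lit 0, nat_lit 0, [(nat_lit 12, [(nat_lit 1, nat_lit 1000)])],
 ⟨p063_k35, nat_lit 0, nat_lit 0, nat_lit 0, nat_lit 0, nat_lit 166167, [nat_lit 2033400000, nat_lit 2255600001, nat_lit 2579200001, nat_lit 2677600000], [], [nat_lit 15852815201, nat_lit 16593904400, nat_lit 16662432000, nat_lit 17385758000, nat_lit 17942225600, nat_lit 18626928560, nat_lit 18701272800, nat_lit 19371023600], nat_lit 1271250, nat_lit 1271250, nat_lit 205650, nat_lit 490000, nat_lit 1271250, nat_lit 1271250, [nat_lit 780000, nat_lit 936250, nat_lit 1271250, nat_lit 1271250], [nat_lit 195, nat_lit 40, nat_lit 20, nat_lit 40]⟩, C1.Rw.none,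
 ⟨nat_lit 5000, nat_lit 5478, ⟨.ofNat (nat_lit 235487), .ofNat (nat_lit 317913), .ofNat (nat_lit 256844), .ofNat (nat_lit 339271), .ofNat (nat_lit 249999), .ofNat (nat_lit 328570), .ofNat (nat_lit 271427), .ofNat (nat_lit 349999)⟩, ⟨.ofNat (nat_lit 543079), .ofNat (nat_lit 647986), .ofNat (nat_lit 564436), .ofNat (nat_lit 669336), .ofNat (nat_lit 535713), .ofNat (nat_lit 635713), .ofNat (nat_lit 557141), .ofNat (nat_lit 657134)⟩⟩, [⟨nat_lit 0, nat_lit 100, nat_lit 92, nat_lit 68, nat_lit 6580676⟩]⟩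
noncomputable def p063_l64 : Lf2 := ⟨nat_lit 0, nat_lit 3, [nat_lit 45, nat_lit 5, nat_lit 5, nat_lit 20], false, nat_lit 280, nat_lit 336, nat_lit 0, nat_lit 80, ⟨nat_lit 1000, nat_lit 0, nat_lit 0, nat_lit 0, nat_lit 0, nat_lit 0, nat_lit 0, nat_lit 0, nat_lit 0, nat_lit 0, nat_lit 0, nat_lit 0, nat_lit 0, nat_lit 0, nat_lit 0, nat_lit 0, false, false⟩,
 nat_lit 14608, nat_lit 0, nat_lit 0, nat_lit 1188, nat_lit 0, nat_lit 7733, nat_lit 0, nat_lit 0, nat_lit 508, nat_lit 0, nat_lit 0, nat_lit 0, nat_lit 0, nat_lit 0, nat_lit 0, nat_lit 0, nat_lit 0, nat_lit 0, [],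
 ⟨p063_k2, nat_lit 0, nat_lit 0, nat_lit 0, nat_lit 0, nat_lit 105889, [nat_lit 3282000000, nat_lit 6250000000], [], [nat_lit 16188424000, nat_lit 16512661350, nat_lit 16968196000, nat_lit 17284844000, nat_lit 18000644561, nat_lit 18303759100, nat_lit 18738283200, nat_lit 19040556801], nat_lit 1271250, nat_lit 1271250, nat_lit 205650, nat_lit 490000, nat_lit 1271250, nat_lit 1271250, [nat_lit 780000, nat_lit 1435000], [nat_lit 49, nat_lit 40, nat_lit 40, nat_lit 80]⟩, ⟨p063_k36, nat_lit 0, nat_lit 0, nat_lit 0, nat_lit 0, nat_lit 133406, [nat_lit 4688000000, nat_lit 7968000000], [], [nat_lit 21735740277, nat_lit 23885825159, nat_lit 20111230796, nat_lit 21846729668, nat_lit 17515593637, nat_lit 19218871786, nat_lit 16200177264, nat_lit 17806956184], nat_lit 1271250, nat_lit 1271250, nat_lit 205650, nat_lit 490000, nat_lit 0, nat_lit 490000, [nat_lit 1100000, nat_lit 1785000], [nat_lit 39, nat_lit 40, nat_lit 40, nat_lit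 80]⟩,
 zbF0, [⟨nat_lit 0, nat_lit 100, nat_lit 93, nat_lit 66, nat_lit 852883992⟩, ⟨nat_lit 16, nat_lit 100, nat_lit 87, nat_lit 99, nat_lit 163197084⟩]⟩
noncomputable def p063_l65 : Lf2 := ⟨nat_lit 0, nat_lit 3, [nat_lit 45, nat_lit 5, nat_lit 5, nat_lit 20], false, nat_lit 280, nat_lit 336, nat_lit 80, nat_lit 160, ⟨nat_lit 1000, nat_lit 0, nat_lit 0, nat_lit 0, nat_lit 0, nat_lit 0, nat_lit 0, nat_lit 0, nat_lit 0, nat_lit 0, nat_lit 0, nat_lit 0, nat_lit 0, nat_lit 0, nat_lit 0, nat_lit 0, false, false⟩,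
 nat_lit 16616, nat_lit 0, nat_lit 0, nat_lit 0, nat_lit 198, nat_lit 8796, nat_lit 467, nat_lit 0, nat_lit 460, nat_lit 0, nat_lit 0, nat_lit 0, nat_lit 0, nat_lit 0, nat_lit 0, nat_lit 0, nat_lit 0, nat_lit 0, [],
 ⟨p063_k37, nat_lit 0, nat_lit 0, nat_lit 0, nat_lit 0, nat_lit 105889, [nat_lit 3282000000, nat_lit 4688000000, nat_lit 6250000000], [], [nat_lit 16296871431, nat_lit 16646902529, nat_lit 17024291212, nat_lit 17366194079, nat_lit 18255617764, nat_lit 18580107650, nat_lit 18934899916, nat_lit 19251909377], nat_lit 1271250, nat_lit 1271250, nat_lit 205650, nat_lit 490000, nat_lit 1271250, nat_lit 1271250, [nat_lit 780000, nat_lit 1100000, nat_lit 1442500], [nat_lit 59, nat_lit 40, nat_lit 40, nat_lit 80]⟩, ⟨p063_k38, nat_lit 0, nat_lit 0, nat_lit 0, nat_lit 0, nat_lit 133406, [nat_lit 4688000000, nat_lit 6250000000, nat_lit 7968000000], [], [nat_lit 6695275255, nat_lit 9901443554, nat_lit 3969339968, nat_lit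 6941465096, nat_lit 7428529960, nat_lit 10292026501, nat_lit 5387626800, nat_lit 7694501240], nat_lit 1271250, nat_lit 1271250, nat_lit 205650, nat_lit 490000, nat_lit 490000, nat_lit 1100001, [nat_lit 1100000, nat_lit 1442500, nat_lit 1271250], [nat_lit 9, nat_lit 40, nat_lit 40, nat_lit 80]⟩,
 zbF0, [⟨nat_lit 0, nat_lit 100, nat_lit 94, nat_lit 73, nat_lit 933044339⟩, ⟨nat_lit 4, nat_lit 87, nat_lit 100, nat_lit 99, nat_lit 197851002⟩]⟩
noncomputable def p063_l66 : Lf2 := ⟨nat_lit 1, nat_lit 5, [nat_lit 4, nat_lit 5, nat_lit 5, nat_lit 20], false, nat_lit 280, nat_lit 336, nat_lit 0, nat_lit 160, zbN0,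
 nat_lit 0, nat_lit 0, nat_lit 0, nat_lit 0, nat_lit 0, nat_lit 0, nat_lit 0, nat_lit 0, nat_lit 0, nat_lit 0, nat_lit 0, nat_lit 0, nat_lit 0, nat_lit 0, nat_lit 0, nat_lit 0, nat_lit 0, nat_lit 0, [],
 C1.Rw.none, C1.Rw.none,
 zbF0, []⟩
noncomputable def p063_l67 : Lf2 := ⟨nat_lit 0, nat_lit 5, [nat_lit 4, nat_lit 5, nat_lit 5, nat_lit 20], true, nat_lit 280, nat_lit 328, nat_lit 0, nat_lit 160, ⟨nat_lit 0, nat_lit 1000, nat_lit 0, nat_lit 6, nat_lit 120, nat_lit 1000, nat_lit 237, nat_lit 0, nat_lit 0, nat_lit 0, nat_lit 0, nat_lit 0, nat_lit 44693624, nat_lit 5717589, nat_lit 16588787, nat_lit 4401872, false, false⟩,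
 nat_lit 0, nat_lit 897, nat_lit 0, nat_lit 2325, nat_lit 595, nat_lit 0, nat_lit 0, nat_lit 0, nat_lit 297, nat_lit 0, nat_lit 0, nat_lit 0, nat_lit 0, nat_lit 0, nat_lit 0, nat_lit 400000, nat_lit 0, nat_lit 0, [(nat_lit 12, [(nat_lit 1, nat_lit 1000)])],
 ⟨p063_k39, nat_lit 0, nat_lit 0, nat_lit 0, nat_lit 0, nat_lit 157593, [nat_lit 2068400000, nat_lit 2721200000], [], [nat_lit 16805513665, nat_lit 17230397750, nat_lit 17370893495, nat_lit 17755406380, nat_lit 18782958712, nat_lit 19172824258, nat_lit 19259541632, nat_lit 19640549234], nat_lit 1271250, nat_lit 1271250, nat_lit 230001, nat_lit 490000, nat_lit 1271250, nat_lit 1271250, [nat_lit 780000, nat_lit 1435000], [nat_lit 49, nat_lit 40, nat_lit 40, nat_lit 80]⟩, C1.Rw.none,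
 ⟨nat_lit 5000, nat_lit 5245, ⟨.ofNat (nat_lit 250085), .ofNat (nat_lit 323256), .ofNat (nat_lit 271470), .ofNat (nat_lit 344641), .ofNat (nat_lit 257141), .ofNat (nat_lit 328570), .ofNat (nat_lit 278570), .ofNat (nat_lit 349999)⟩, ⟨.ofNat (nat_lit 539414), .ofNat (nat_lit 627219), .ofNat (nat_lit 560799), .ofNat (nat_lit 648604), .ofNat (nat_lit 535713), .ofNat (nat_lit 621427), .ofNat (nat_lit 557141), .ofNat (nat_lit 642856)⟩⟩, [⟨nat_lit 0, nat_lit 100, nat_lit 91, nat_lit 70, nat_lit 24786805⟩]⟩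
noncomputable def p063_l68 : Lf2 := ⟨nat_lit 0, nat_lit 5, [nat_lit 4, nat_lit 5, nat_lit 5, nat_lit 20], false, nat_lit 280, nat_lit 328, nat_lit 0, nat_lit 80, ⟨nat_lit 1000, nat_lit 0, nat_lit 0, nat_lit 0, nat_lit 0, nat_lit 0, nat_lit 0, nat_lit 0, nat_lit 0, nat_lit 0, nat_lit 0, nat_lit 0, nat_lit 0, nat_lit 0, nat_lit 0, nat_lit 0, false, false⟩,
 nat_lit 0, nat_lit 0, nat_lit 21580, nat_lit 0, nat_lit 0, nat_lit 11424, nat_lit 650, nat_lit 0, nat_lit 457, nat_lit 3130, nat_lit 0, nat_lit 0, nat_lit 0, nat_lit 0, nat_lit 0, nat_lit 0, nat_lit 0, nat_lit 0, [],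
 ⟨p063_k3, nat_lit 0, nat_lit 0, nat_lit 0, nat_lit 0, nat_lit 157593, [nat_lit 3282000000, nat_lit 4688000000, nat_lit 6250000000], [], [nat_lit 16501032750, nat_lit 16836350250, nat_lit 17237361250, nat_lit 17565163250, nat_lit 18079070250, nat_lit 18394910450, nat_lit 18780948551, nat_lit 19090180650], nat_lit 1271250, nat_lit 1271250, nat_lit 230001, nat_lit 490000, nat_lit 1271250, nat_lit 1271250, [nat_lit 780000, nat_lit 1100000, nat_lit 1442500], [nat_lit 59, nat_lit 40, nat_lit 40, nat_lit 80]⟩, ⟨p063_k20, nat_lit 0, nat_lit 0, nat_lit 0, nat_lit 0, nat_lit 209711, [nat_lit 4688000000, nat_lit 6250000000, nat_lit 9842000000], [], [nat_lit 19205319104, nat_lit 21419320724, nat_lit 20575103136, nat_lit 18158860628, nat_lit 20620394304, nat_lit 15008674176, nat_lit 22317864352, nat_lit 16784558560], nat_lit 1271250, nat_lit 1271250, nat_lit 230001, nat_lit 490000, nat_lit 0, nat_lit 490000, [nat_lit 1100000, nat_lit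 1442500, nat_lit 1271250], [nat_lit 11, nat_lit 40, nat_lit 40, nat_lit 80]⟩,
 zbF0, [⟨nat_lit 0, nat_lit 100, nat_lit 91, nat_lit 70, nat_lit 399586549⟩, ⟨nat_lit 16, nat_lit 99, nat_lit 92, nat_lit 100, nat_lit 191278159⟩]⟩
noncomputable def p063_l69 : Lf2 := ⟨nat_lit 0, nat_lit 5, [nat_lit 4, nat_lit 5, nat_lit 5, nat_lit 20], false, nat_lit 280, nat_lit 328, nat_lit 80, nat_lit 160, ⟨nat_lit 1000, nat_lit 0, nat_lit 0, nat_lit 0, nat_lit 0, nat_lit 0, nat_lit 0, nat_lit 0, nat_lit 0, nat_lit 0, nat_lit 0, nat_lit 0, nat_lit 0, nat_lit 0, nat_lit 0, nat_lit 0, false, false⟩,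
 nat_lit 24889, nat_lit 0, nat_lit 0, nat_lit 0, nat_lit 0, nat_lit 13176, nat_lit 708, nat_lit 0, nat_lit 456, nat_lit 3742, nat_lit 0, nat_lit 0, nat_lit 0, nat_lit 0, nat_lit 0, nat_lit 0, nat_lit 0, nat_lit 0, [],
 ⟨p063_k3, nat_lit 0, nat_lit 0, nat_lit 0, nat_lit 0, nat_lit 157593, [nat_lit 3282000000, nat_lit 4688000000, nat_lit 6250000000], [], [nat_lit 16489664000, nat_lit 16824981500, nat_lit 17225992500, nat_lit 17553794500, nat_lit 18067701500, nat_lit 18389021000, nat_lit 18769579801, nat_lit 19084794600], nat_lit 1271250, nat_lit 1271250, nat_lit 230001, nat_lit 490000, nat_lit 1271250, nat_lit 1271250, [nat_lit 780000, nat_lit 1100000, nat_lit 1442500], [nat_lit 59, nat_lit 40, nat_lit 40, nat_lit 80]⟩, ⟨p063_k20, nat_lit 0, nat_lit 0, nat_lit 0, nat_lit 0, nat_lit 209711, [nat_lit 4688000000, nat_lit 6250000000, nat_lit 9842000000], [], [nat_lit 7344774444, nat_lit 9925528172, nat_lit 4213208492, nat_lit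 6693874556, nat_lit 6429726796, nat_lit 9155435584, nat_lit 5515554496, nat_lit 5613881212], nat_lit 1271250, nat_lit 1271250, nat_lit 230001, nat_lit 490000, nat_lit 490000, nat_lit 1100001, [nat_lit 1100000, nat_lit 1442500, nat_lit 1271250], [nat_lit 11, nat_lit 40, nat_lit 40, nat_lit 80]⟩,
 zbF0, [⟨nat_lit 0, nat_lit 100, nat_lit 91, nat_lit 77, nat_lit 1095765169⟩, ⟨nat_lit 4, nat_lit 92, nat_lit 99, nat_lit 100, nat_lit 192148619⟩]⟩
noncomputable def p063_l70 : Lf2 := ⟨nat_lit 0, nat_lit 3, [nat_lit 45, nat_lit 5, nat_lit 5, nat_lit 20], false, nat_lit 280, nat_lit 328, nat_lit 0, nat_lit 160, ⟨nat_lit 1000, nat_lit 0, nat_lit 0, nat_lit 0, nat_lit 0, nat_lit 0, nat_lit 0, nat_lit 0, nat_lit 0, nat_lit 0, nat_lit 0, nat_lit 0, nat_lit 0, nat_lit 0, nat_lit 0, nat_lit 0, false, false⟩,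
 nat_lit 30504, nat_lit 0, nat_lit 0, nat_lit 0, nat_lit 4974, nat_lit 16149, nat_lit 4242, nat_lit 0, nat_lit 0, nat_lit 634, nat_lit 0, nat_lit 0, nat_lit 0, nat_lit 0, nat_lit 0, nat_lit 0, nat_lit 0, nat_lit 0, [],
 ⟨p063_k40, nat_lit 0, nat_lit 0, nat_lit 0, nat_lit 0, nat_lit 118327, [nat_lit 3282000000, nat_lit 4688000000, nat_lit 6250000000], [], [nat_lit 21150032659, nat_lit 21825520198, nat_lit 20565218109, nat_lit 21214932478, nat_lit 24227528645, nat_lit 24941352774, nat_lit 23527563393, nat_lit 24095582366], nat_lit 1271250, nat_lit 1271250, nat_lit 230001, nat_lit 490000, nat_lit 1271250, nat_lit 1271250, [nat_lit 780000, nat_lit 1100000, nat_lit 1442500], [nat_lit 59, nat_lit 40, nat_lit 40, nat_lit 80]⟩, ⟨p063_k38, nat_lit 0, nat_lit 0, nat_lit 0, nat_lit 0, nat_lit 157129, [nat_lit 4688000000, nat_lit 6250000000, nat_lit 7968000000], [], [nat_lit 26337236392, nat_lit 24531639452, nat_lit 16125637794, nat_lit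 17893431177, nat_lit 7349979222, nat_lit 8865043330, nat_lit 3789921038, nat_lit 5239148746], nat_lit 1271250, nat_lit 1271250, nat_lit 230001, nat_lit 490000, nat_lit 0, nat_lit 1100001, [nat_lit 1100000, nat_lit 1442500, nat_lit 1271250], [nat_lit 9, nat_lit 40, nat_lit 40, nat_lit 80]⟩,
 zbF0, [⟨nat_lit 0, nat_lit 100, nat_lit 90, nat_lit 68, nat_lit 2096030190⟩, ⟨nat_lit 4, nat_lit 92, nat_lit 99, nat_lit 100, nat_lit 582093605⟩]⟩
noncomputable def p063_l71 : Lf2 := ⟨nat_lit 1, nat_lit 5, [nat_lit 4, nat_lit 5, nat_lit 5, nat_lit 20], false, nat_lit 280, nat_lit 328, nat_lit 0, nat_lit 160, zbN0,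
 nat_lit 0, nat_lit 0, nat_lit 0, nat_lit 0, nat_lit 0, nat_lit 0, nat_lit 0, nat_lit 0, nat_lit 0, nat_lit 0, nat_lit 0, nat_lit 0, nat_lit 0, nat_lit 0, nat_lit 0, nat_lit 0, nat_lit 0, nat_lit 0, [],
 C1.Rw.none, C1.Rw.none,
 zbF0, []⟩
noncomputable def p063_l72 : Lf2 := ⟨nat_lit 0, nat_lit 5, [nat_lit 4, nat_lit 5, nat_lit 5, nat_lit 20], false, nat_lit 280, nat_lit 328, nat_lit 0, nat_lit 160, ⟨nat_lit 1000, nat_lit 0, nat_lit 0, nat_lit 0, nat_lit 0, nat_lit 0, nat_lit 0, nat_lit 0, nat_lit 0, nat_lit 0, nat_lit 0, nat_lit 0, nat_lit 0, nat_lit 0, nat_lit 0, nat_lit 0, false, false⟩,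
 nat_lit 16028, nat_lit 0, nat_lit 0, nat_lit 2097, nat_lit 0, nat_lit 8904, nat_lit 419, nat_lit 0, nat_lit 464, nat_lit 2795, nat_lit 0, nat_lit 0, nat_lit 0, nat_lit 0, nat_lit 0, nat_lit 0, nat_lit 0, nat_lit 0, [],
 ⟨p063_k3, nat_lit 0, nat_lit 0, nat_lit 0, nat_lit 0, nat_lit 157593, [nat_lit 3282000000, nat_lit 4688000000, nat_lit 6250000000], [], [nat_lit 16699636776, nat_lit 17021949576, nat_lit 17275778375, nat_lit 17592426375, nat_lit 18217689716, nat_lit 18530967616, nat_lit 18777951676, nat_lit 19087183775], nat_lit 1271250, nat_lit 1271250, nat_lit 279600, nat_lit 490000, nat_lit 1271250, nat_lit 1271250, [nat_lit 780000, nat_lit 1100000, nat_lit 1442500], [nat_lit 59, nat_lit 40, nat_lit 40, nat_lit 80]⟩, ⟨p063_k22, nat_lit 0, nat_lit 0, nat_lit 0, nat_lit 0, nat_lit 197168, [nat_lit 4688000000, nat_lit 6250000000, nat_lit 7968000000], [], [nat_lit 16508678322, nat_lit 17680838749, nat_lit 14761060792, nat_lit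 15900951760, nat_lit 10871634177, nat_lit 11768788894, nat_lit 10255576756, nat_lit 10738309828], nat_lit 1271250, nat_lit 1271250, nat_lit 279600, nat_lit 490000, nat_lit 0, nat_lit 1100001, [nat_lit 1100000, nat_lit 1442500, nat_lit 1271250], [nat_lit 9, nat_lit 40, nat_lit 40, nat_lit 80]⟩,
 zbF0, [⟨nat_lit 0, nat_lit 100, nat_lit 92, nat_lit 73, nat_lit 903495263⟩, ⟨nat_lit 4, nat_lit 92, nat_lit 99, nat_lit 100, nat_lit 182044040⟩]⟩
noncomputable def p063_l73 : Lf2 := ⟨nat_lit 0, nat_lit 5, [nat_lit 4, nat_lit 5, nat_lit 5, nat_lit 20], false, nat_lit 280, nat_lit 336, nat_lit 160, nat_lit 240, ⟨nat_lit 1000, nat_lit 0, nat_lit 0, nat_lit 0, nat_lit 0, nat_lit 0, nat_lit 0, nat_lit 0, nat_lit 0, nat_lit 0, nat_lit 0, nat_lit 0, nat_lit 0, nat_lit 0, nat_lit 0, nat_lit 0, false, false⟩,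
 nat_lit 31999, nat_lit 0, nat_lit 0, nat_lit 0, nat_lit 2404, nat_lit 16940, nat_lit 1014, nat_lit 0, nat_lit 282, nat_lit 1864, nat_lit 0, nat_lit 0, nat_lit 0, nat_lit 0, nat_lit 0, nat_lit 0, nat_lit 0, nat_lit 0, [],
 ⟨p063_k7, nat_lit 0, nat_lit 0, nat_lit 0, nat_lit 0, nat_lit 108223, [nat_lit 3282000000, nat_lit 4688000000, nat_lit 7968000000], [], [nat_lit 18372166313, nat_lit 18828571074, nat_lit 18275756320, nat_lit 18767081242, nat_lit 21192947881, nat_lit 21647041579, nat_lit 21053778090, nat_lit 21491697088], nat_lit 1271250, nat_lit 1271250, nat_lit 205650, nat_lit 490000, nat_lit 1271250, nat_lit 1271250, [nat_lit 780000, nat_lit 1100000, nat_lit 1785000], [nat_lit 36, nat_lit 40, nat_lit 40, nat_lit 80]⟩, ⟨p063_k20, nat_lit 0, nat_lit 0, nat_lit 0, nat_lit 0, nat_lit 136583, [nat_lit 4688000000, nat_lit 6250000000, nat_lit 9842000000], [], [nat_lit 22958655384, nat_lit 14254375184, nat_lit 5740475200,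 nat_lit 8337485280, nat_lit 15606685360, nat_lit 18583491041, nat_lit 13485316480, nat_lit 12617086640], nat_lit 1271250, nat_lit 1271250, nat_lit 205650, nat_lit 490000, nat_lit 1100001, nat_lit 1785000, [nat_lit 1100000, nat_lit 1442500, nat_lit 1271250], [nat_lit 11, nat_lit 40, nat_lit 40, nat_lit 80]⟩,
 zbF0, [⟨nat_lit 0, nat_lit 100, nat_lit 93, nat_lit 66, nat_lit 1444415982⟩, ⟨nat_lit 4, nat_lit 87, nat_lit 100, nat_lit 99, nat_lit 371945625⟩]⟩
noncomputable def p063_l74 : Lf2 := ⟨nat_lit 0, nat_lit 5, [nat_lit 4, nat_lit 5, nat_lit 5, nat_lit 20], false, nat_lit 280, nat_lit 328, nat_lit 160, nat_lit 200, ⟨nat_lit 1000, nat_lit 0, nat_lit 0, nat_lit 0, nat_lit 0, nat_lit 0, nat_lit 0, nat_lit 0, nat_lit 0, nat_lit 0, nat_lit 0, nat_lit 0, nat_lit 0, nat_lit 0, nat_lit 0, nat_lit 0, false, false⟩,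
 nat_lit 37828, nat_lit 0, nat_lit 0, nat_lit 0, nat_lit 5229, nat_lit 20026, nat_lit 4044, nat_lit 0, nat_lit 0, nat_lit 2074, nat_lit 0, nat_lit 0, nat_lit 0, nat_lit 0, nat_lit 0, nat_lit 0, nat_lit 0, nat_lit 0, [],
 ⟨p063_k3, nat_lit 0, nat_lit 0, nat_lit 0, nat_lit 0, nat_lit 157593, [nat_lit 3282000000, nat_lit 4688000000, nat_lit 6250000000], [], [nat_lit 20885764406, nat_lit 21537690672, nat_lit 20227576197, nat_lit 20854420852, nat_lit 24544567541, nat_lit 25277268456, nat_lit 23258580294, nat_lit 23968897081], nat_lit 1271250, nat_lit 1271250, nat_lit 230001, nat_lit 490000, nat_lit 1271250, nat_lit 1271250, [nat_lit 780000, nat_lit 1100000, nat_lit 1442500], [nat_lit 59, nat_lit 40, nat_lit 40, nat_lit 80]⟩, ⟨p063_k20, nat_lit 0, nat_lit 0, nat_lit 0, nat_lit 0, nat_lit 209711, [nat_lit 4688000000, nat_lit 6250000000, nat_lit 9842000000], [], [nat_lit 19419217008, nat_lit 10043425584, nat_lit 2028164380, nat_lit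 4982323412, nat_lit 9706510992, nat_lit 13222585154, nat_lit 4671792992, nat_lit 7313678284], nat_lit 1271250, nat_lit 1271250, nat_lit 230001, nat_lit 490000, nat_lit 1100001, nat_lit 1442500, [nat_lit 1100000, nat_lit 1442500, nat_lit 1271250], [nat_lit 11, nat_lit 40, nat_lit 40, nat_lit 80]⟩,
 zbF0, [⟨nat_lit 0, nat_lit 100, nat_lit 91, nat_lit 70, nat_lit 2304483858⟩, ⟨nat_lit 4, nat_lit 92, nat_lit 99, nat_lit 100, nat_lit 652010442⟩]⟩
noncomputable def p063_l75 : Lf2 := ⟨nat_lit 0, nat_lit 5, [nat_lit 4, nat_lit 5, nat_lit 5, nat_lit 20], false, nat_lit 280, nat_lit 328, nat_lit 200, nat_lit 240, ⟨nat_lit 1000, nat_lit 0, nat_lit 0, nat_lit 0, nat_lit 0, nat_lit 0, nat_lit 0, nat_lit 0, nat_lit 0, nat_lit 0, nat_lit 0, nat_lit 0, nat_lit 0, nat_lit 0, nat_lit 0, nat_lit 0, false, false⟩,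
 nat_lit 29400, nat_lit 0, nat_lit 0, nat_lit 0, nat_lit 5326, nat_lit 15564, nat_lit 3940, nat_lit 0, nat_lit 0, nat_lit 1811, nat_lit 0, nat_lit 0, nat_lit 0, nat_lit 0, nat_lit 0, nat_lit 0, nat_lit 0, nat_lit 0, [],
 ⟨p063_k39, nat_lit 0, nat_lit 0, nat_lit 0, nat_lit 0, nat_lit 157593, [nat_lit 3282000000, nat_lit 6250000000], [], [nat_lit 21516450577, nat_lit 22128092818, nat_lit 20803683813, nat_lit 21391915046, nat_lit 24665170919, nat_lit 25405048147, nat_lit 23481900989, nat_lit 24059499097], nat_lit 1271250, nat_lit 1271250, nat_lit 230001, nat_lit 490000, nat_lit 1271250, nat_lit 1271250, [nat_lit 780000, nat_lit 1435000], [nat_lit 49, nat_lit 40, nat_lit 40, nat_lit 80]⟩, ⟨p063_k4, nat_lit 0, nat_lit 0, nat_lit 0, nat_lit 0, nat_lit 209711, [nat_lit 4688000000, nat_lit 7968000000, nat_lit 9842000000], [], [nat_lit 12509534788, nat_lit 14796768056, nat_lit 8764334788, nat_lit 10954478276, nat_lit 14900021824,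 nat_lit 17256687328, nat_lit 11271258640, nat_lit 13525557448], nat_lit 1271250, nat_lit 1271250, nat_lit 230001, nat_lit 490000, nat_lit 1271250, nat_lit 1271250, [nat_lit 1100000, nat_lit 1785000, nat_lit 1271250], [nat_lit 29, nat_lit 40, nat_lit 40, nat_lit 80]⟩,
 zbF0, [⟨nat_lit 0, nat_lit 100, nat_lit 91, nat_lit 77, nat_lit 1406633687⟩, ⟨nat_lit 16, nat_lit 99, nat_lit 92, nat_lit 100, nat_lit 539190160⟩]⟩
noncomputable def p063_l76 : Lf2 := ⟨nat_lit 0, nat_lit 5, [nat_lit 4, nat_lit 5, nat_lit 5, nat_lit 20], false, nat_lit 280, nat_lit 336, nat_lit 240, nat_lit 300, ⟨nat_lit 1000, nat_lit 0, nat_lit 0, nat_lit 0, nat_lit 0, nat_lit 0, nat_lit 0, nat_lit 0, nat_lit 0, nat_lit 0, nat_lit 0, nat_lit 0, nat_lit 0, nat_lit 0, nat_lit 0, nat_lit 0, false, false⟩,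
 nat_lit 17807, nat_lit 0, nat_lit 0, nat_lit 4333, nat_lit 6424, nat_lit 9427, nat_lit 1734, nat_lit 0, nat_lit 0, nat_lit 2790, nat_lit 0, nat_lit 0, nat_lit 0, nat_lit 0, nat_lit 0, nat_lit 0, nat_lit 0, nat_lit 0, [],
 ⟨p063_k7, nat_lit 0, nat_lit 0, nat_lit 0, nat_lit 0, nat_lit 166167, [nat_lit 3282000000, nat_lit 4688000000, nat_lit 7968000000], [], [nat_lit 21627232277, nat_lit 23007191713, nat_lit 20101397920, nat_lit 21428042056, nat_lit 26448650756, nat_lit 28043968272, nat_lit 24339711360, nat_lit 25884527556], nat_lit 1271250, nat_lit 1271250, nat_lit 205650, nat_lit 490000, nat_lit 1271250, nat_lit 1271250, [nat_lit 780000, nat_lit 1100000, nat_lit 1785000], [nat_lit 36, nat_lit 40, nat_lit 40, nat_lit 80]⟩, ⟨p063_k20, nat_lit 0, nat_lit 0, nat_lit 0, nat_lit 0, nat_lit 209711, [nat_lit 4688000000, nat_lit 6250000000, nat_lit 9842000000], [], [nat_lit 16314985768, nat_lit 17784273060, nat_lit 13852321708,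 nat_lit 15262448812, nat_lit 21870777119, nat_lit 23842130852, nat_lit 19167933892, nat_lit 20628718221], nat_lit 1271250, nat_lit 1271250, nat_lit 205650, nat_lit 490000, nat_lit 1271250, nat_lit 1271250, [nat_lit 1100000, nat_lit 1442500, nat_lit 1271250], [nat_lit 11, nat_lit 40, nat_lit 40, nat_lit 80]⟩,
 zbF0, [⟨nat_lit 0, nat_lit 100, nat_lit 91, nat_lit 77, nat_lit 304519939⟩, ⟨nat_lit 11, nat_lit 100, nat_lit 97, nat_lit 75, nat_lit 943379731⟩]⟩
noncomputable def p063_l77 : Lf2 := ⟨nat_lit 0, nat_lit 1, [nat_lit 19, nat_lit 5, nat_lit 5, nat_lit 20], false, nat_lit 280, nat_lit 336, nat_lit 0, nat_lit 160, ⟨nat_lit 1000, nat_lit 0, nat_lit 0, nat_lit 0, nat_lit 0, nat_lit 0, nat_lit 0, nat_lit 0, nat_lit 0, nat_lit 0, nat_lit 0, nat_lit 0, nat_lit 0, nat_lit 0, nat_lit 0, nat_lit 0, false, false⟩,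
 nat_lit 30119, nat_lit 0, nat_lit 0, nat_lit 21651, nat_lit 19166, nat_lit 15945, nat_lit 0, nat_lit 0, nat_lit 0, nat_lit 0, nat_lit 0, nat_lit 0, nat_lit 0, nat_lit 0, nat_lit 0, nat_lit 0, nat_lit 0, nat_lit 0, [],
 ⟨p063_k41, nat_lit 0, nat_lit 0, nat_lit 0, nat_lit 0, nat_lit 103555, [nat_lit 3282000000, nat_lit 4688000000], [], [nat_lit 16504063943, nat_lit 18277539412, nat_lit 10590647804, nat_lit 12283385243, nat_lit 26383710991, nat_lit 27801576336, nat_lit 20025642079, nat_lit 21382276239], nat_lit 1271250, nat_lit 1271250, nat_lit 205650, nat_lit 490000, nat_lit 1271250, nat_lit 1271250, [nat_lit 780000, nat_lit 1100000], [nat_lit 40, nat_lit 40, nat_lit 40, nat_lit 80]⟩, ⟨p063_k42, nat_lit 0, nat_lit 0, nat_lit 0, nat_lit 0, nat_lit 130230, [nat_lit 4688000000, nat_lit 6250000000], [], [nat_lit 28115336602, nat_lit 28224284377, nat_lit 15206649460, nat_lit 20325271870, nat_lit 5212411450, nat_lit 9733153426,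 nat_lit 236998720, nat_lit 4296510050], nat_lit 1271250, nat_lit 1271250, nat_lit 205650, nat_lit 490000, nat_lit 0, nat_lit 1100001, [nat_lit 1100000, nat_lit 1442500], [nat_lit 31, nat_lit 40, nat_lit 40, nat_lit 80]⟩,
 zbF0, [⟨nat_lit 0, nat_lit 100, nat_lit 93, nat_lit 66, nat_lit 2457325669⟩, ⟨nat_lit 16, nat_lit 100, nat_lit 87, nat_lit 99, nat_lit 1080881694⟩]⟩
noncomputable def p063_l78 : Lf2 := ⟨nat_lit 0, nat_lit 1, [nat_lit 19, nat_lit 5, nat_lit 5, nat_lit 20], false, nat_lit 280, nat_lit 328, nat_lit 0, nat_lit 160, ⟨nat_lit 1000, nat_lit 0, nat_lit 0, nat_lit 0, nat_lit 0, nat_lit 0, nat_lit 0, nat_lit 0, nat_lit 0, nat_lit 0, nat_lit 0, nat_lit 0, nat_lit 0, nat_lit 0, nat_lit 0, nat_lit 0, false, false⟩,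
 nat_lit 31910, nat_lit 0, nat_lit 0, nat_lit 12318, nat_lit 21192, nat_lit 16893, nat_lit 8357, nat_lit 1009, nat_lit 0, nat_lit 0, nat_lit 0, nat_lit 0, nat_lit 0, nat_lit 0, nat_lit 0, nat_lit 0, nat_lit 0, nat_lit 721380864, [],
 ⟨p063_k43, nat_lit 0, nat_lit 0, nat_lit 0, nat_lit 0, nat_lit 150912, [nat_lit 15390000001, nat_lit 20832000000], [], [nat_lit 28810154609, nat_lit 30732085361, nat_lit 23154891141, nat_lit 24991913209, nat_lit 37370017304, nat_lit 39084780358, nat_lit 31342210706, nat_lit 32886693595], nat_lit 1271250, nat_lit 1271250, nat_lit 230001, nat_lit 490000, nat_lit 1271250, nat_lit 1271250, [nat_lit 780000, nat_lit 1100000], [nat_lit 40, nat_lit 40, nat_lit 40, nat_lit 80]⟩, ⟨p063_k42, nat_lit 0, nat_lit 0, nat_lit 0, nat_lit 0, nat_lit 199957, [nat_lit 4688000000, nat_lit 6250000000], [], [nat_lit 26630674408, nat_lit 28803087784, nat_lit 16392008068, nat_lit 21762170902, nat_lit 4610203112, nat_lit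 9346712776, nat_lit 0, nat_lit 4567297034], nat_lit 1271250, nat_lit 1271250, nat_lit 230001, nat_lit 490000, nat_lit 0, nat_lit 1100001, [nat_lit 1100000, nat_lit 1442500], [nat_lit 31, nat_lit 40, nat_lit 40, nat_lit 80]⟩,
 zbF0, [⟨nat_lit 0, nat_lit 100, nat_lit 91, nat_lit 70, nat_lit 2527817815⟩, ⟨nat_lit 16, nat_lit 97, nat_lit 84, nat_lit 100, nat_lit 1631502208⟩]⟩
noncomputable def p063_l79 : Lf2 := ⟨nat_lit 0, nat_lit 2, [nat_lit 10, nat_lit 5, nat_lit 5, nat_lit 20], false, nat_lit 280, nat_lit 336, nat_lit 0, nat_lit 160, ⟨nat_lit 1000, nat_lit 0, nat_lit 0, nat_lit 0, nat_lit 0, nat_lit 0, nat_lit 0, nat_lit 0, nat_lit 0, nat_lit 0, nat_lit 0, nat_lit 0, nat_lit 0, nat_lit 0, nat_lit 0, nat_lit 0, false, false⟩,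
 nat_lit 30272, nat_lit 1419, nat_lit 0, nat_lit 20322, nat_lit 20166, nat_lit 16026, nat_lit 1506, nat_lit 0, nat_lit 0, nat_lit 188, nat_lit 0, nat_lit 0, nat_lit 0, nat_lit 0, nat_lit 0, nat_lit 0, nat_lit 0, nat_lit 0, [],
 ⟨p063_k0, nat_lit 0, nat_lit 0, nat_lit 0, nat_lit 0, nat_lit 112707, [nat_lit 3282000000, nat_lit 4688000000, nat_lit 6250000000], [], [nat_lit 16477108354, nat_lit 19838535200, nat_lit 10183663920, nat_lit 13391349682, nat_lit 26424205151, nat_lit 29611471231, nat_lit 19695124479, nat_lit 22631563438], nat_lit 1271250, nat_lit 1271250, nat_lit 205650, nat_lit 490000, nat_lit 1271250, nat_lit 1271250, [nat_lit 780000, nat_lit 1100000, nat_lit 1442500], [nat_lit 59, nat_lit 40, nat_lit 40, nat_lit 80]⟩, ⟨p063_k21, nat_lit 0, nat_lit 0, nat_lit 0, nat_lit 0, nat_lit 141869, [nat_lit 4688000000, nat_lit 6250000000, nat_lit 7968000000], [], [nat_lit 28077182654, nat_lit 28329791477, nat_lit 16873039756,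 nat_lit 20387306440, nat_lit 8947875030, nat_lit 11965073085, nat_lit 4657351812, nat_lit 7538810596], nat_lit 1271250, nat_lit 1271250, nat_lit 205650, nat_lit 490000, nat_lit 0, nat_lit 1100001, [nat_lit 1100000, nat_lit 1442500, nat_lit 1271250], [nat_lit 9, nat_lit 40, nat_lit 40, nat_lit 80]⟩,
 zbF0, [⟨nat_lit 0, nat_lit 100, nat_lit 92, nat_lit 68, nat_lit 2547167648⟩, ⟨nat_lit 4, nat_lit 90, nat_lit 100, nat_lit 100, nat_lit 1082695572⟩]⟩
noncomputable def p063_l80 : Lf2 := ⟨nat_lit 0, nat_lit 2, [nat_lit 10, nat_lit 5, nat_lit 5, nat_lit 20], false, nat_lit 280, nat_lit 336, nat_lit 160, nat_lit 240, ⟨nat_lit 1000, nat_lit 0, nat_lit 0, nat_lit 0, nat_lit 0, nat_lit 0, nat_lit 0, nat_lit 0, nat_lit 0, nat_lit 0, nat_lit 0, nat_lit 0, nat_lit 0, nat_lit 0, nat_lit 0, nat_lit 0, false, false⟩,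
 nat_lit 49171, nat_lit 0, nat_lit 0, nat_lit 0, nat_lit 31290, nat_lit 26031, nat_lit 2262, nat_lit 321, nat_lit 0, nat_lit 0, nat_lit 0, nat_lit 0, nat_lit 0, nat_lit 0, nat_lit 0, nat_lit 0, nat_lit 0, nat_lit 7100143488, [],
 ⟨p063_k0, nat_lit 0, nat_lit 0, nat_lit 0, nat_lit 0, nat_lit 123344, [nat_lit 7134000000, nat_lit 9824000000, nat_lit 12670000000], [], [nat_lit 17576603784, nat_lit 22434553474, nat_lit 7381420800, nat_lit 12022334830, nat_lit 32010662187, nat_lit 36600478833, nat_lit 21154446697, nat_lit 25357187244], nat_lit 1271250, nat_lit 1271250, nat_lit 205650, nat_lit 490000, nat_lit 1271250, nat_lit 1271250, [nat_lit 780000, nat_lit 1100000, nat_lit 1442500], [nat_lit 59, nat_lit 40, nat_lit 40, nat_lit 80]⟩, ⟨p063_k21, nat_lit 0, nat_lit 0, nat_lit 0, nat_lit 0, nat_lit 155258, [nat_lit 4688000000, nat_lit 6250000000, nat_lit 7968000000], [], [nat_lit 25776606960, nat_lit 19088852595, nat_lit 0, nat_lit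 3301338439, nat_lit 22859544942, nat_lit 25587630168, nat_lit 13442525024, nat_lit 16066761701], nat_lit 1271250, nat_lit 1271250, nat_lit 205650, nat_lit 490000, nat_lit 1100001, nat_lit 1785000, [nat_lit 1100000, nat_lit 1442500, nat_lit 1271250], [nat_lit 9, nat_lit 40, nat_lit 40, nat_lit 80]⟩,
 zbF0, [⟨nat_lit 0, nat_lit 100, nat_lit 92, nat_lit 66, nat_lit 3131389615⟩, ⟨nat_lit 4, nat_lit 90, nat_lit 100, nat_lit 100, nat_lit 1545498298⟩, ⟨nat_lit 23, nat_lit 86, nat_lit 100, nat_lit 72, nat_lit 122418696⟩]⟩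
noncomputable def p063_l81 : Lf2 := ⟨nat_lit 0, nat_lit 2, [nat_lit 10, nat_lit 5, nat_lit 5, nat_lit 20], false, nat_lit 280, nat_lit 336, nat_lit 160, nat_lit 240, ⟨nat_lit 1000, nat_lit 0, nat_lit 0, nat_lit 0, nat_lit 0, nat_lit 0, nat_lit 0, nat_lit 0, nat_lit 0, nat_lit 0, nat_lit 0, nat_lit 0, nat_lit 0, nat_lit 0, nat_lit 0, nat_lit 0, false, false⟩,
 nat_lit 25371, nat_lit 0, nat_lit 0, nat_lit 0, nat_lit 16145, nat_lit 14094, nat_lit 1528, nat_lit 0, nat_lit 0, nat_lit 2738, nat_lit 0, nat_lit 0, nat_lit 0, nat_lit 0, nat_lit 0, nat_lit 0, nat_lit 0, nat_lit 0, [],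
 ⟨p063_k0, nat_lit 0, nat_lit 0, nat_lit 0, nat_lit 0, nat_lit 160792, [nat_lit 3282000000, nat_lit 4688000000, nat_lit 6250000000], [], [nat_lit 17125952830, nat_lit 19942267035, nat_lit 13024499650, nat_lit 15742721915, nat_lit 25457108397, nat_lit 27941067840, nat_lit 21024135749, nat_lit 23406245675], nat_lit 1271250, nat_lit 1271250, nat_lit 230001, nat_lit 490000, nat_lit 1271250, nat_lit 1271250, [nat_lit 780000, nat_lit 1100000, nat_lit 1442500], [nat_lit 59, nat_lit 40, nat_lit 40, nat_lit 80]⟩, ⟨p063_k31, nat_lit 0, nat_lit 0, nat_lit 0, nat_lit 0, nat_lit 190426, [nat_lit 4688000000, nat_lit 6250000000, nat_lit 7968000000], [], [nat_lit 6980450640, nat_lit 9024514096, nat_lit 3226968776, nat_lit 5176308860, nat_lit 15274465894, nat_lit 16923210556, nat_lit 12235476814, nat_lit 12937467860], nat_lit 1271250, nat_lit 1271250, nat_lit 230001, nat_lit 490000, nat_lit 1100001, nat_lit 1785000, [nat_lit 1100000, nat_lit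 1442500, nat_lit 1271250], [nat_lit 9, nat_lit 40, nat_lit 40, nat_lit 80]⟩,
 zbF0, [⟨nat_lit 0, nat_lit 100, nat_lit 91, nat_lit 77, nat_lit 1435653695⟩, ⟨nat_lit 4, nat_lit 90, nat_lit 100, nat_lit 100, nat_lit 664430840⟩, ⟨nat_lit 23, nat_lit 86, nat_lit 100, nat_lit 73, nat_lit 421096720⟩]⟩
noncomputable def p063_l82 : Lf2 := ⟨nat_lit 0, nat_lit 2, [nat_lit 10, nat_lit 5, nat_lit 5, nat_lit 20], false, nat_lit 280, nat_lit 336, nat_lit 240, nat_lit 300, ⟨nat_lit 1000, nat_lit 0, nat_lit 0, nat_lit 0, nat_lit 0, nat_lit 0, nat_lit 0, nat_lit 0, nat_lit 0, nat_lit 0, nat_lit 0, nat_lit 0, nat_lit 0, nat_lit 0, nat_lit 0, nat_lit 0, false, false⟩,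
 nat_lit 16729, nat_lit 0, nat_lit 0, nat_lit 0, nat_lit 10645, nat_lit 8856, nat_lit 1740, nat_lit 90, nat_lit 0, nat_lit 2583, nat_lit 0, nat_lit 0, nat_lit 0, nat_lit 0, nat_lit 0, nat_lit 0, nat_lit 0, nat_lit 0, [],
 ⟨p063_k0, nat_lit 0, nat_lit 0, nat_lit 0, nat_lit 0, nat_lit 160792, [nat_lit 4362000000, nat_lit 6128000000, nat_lit 8050000000], [], [nat_lit 21360647143, nat_lit 23441204337, nat_lit 18406689650, nat_lit 20398973415, nat_lit 27478660254, nat_lit 29332036210, nat_lit 24281982549, nat_lit 26061189074], nat_lit 1271250, nat_lit 1271250, nat_lit 205650, nat_lit 490000, nat_lit 1271250, nat_lit 1271250, [nat_lit 780000, nat_lit 1100000, nat_lit 1442500], [nat_lit 59, nat_lit 40, nat_lit 40, nat_lit 80]⟩, ⟨p063_k21, nat_lit 0, nat_lit 0, nat_lit 0, nat_lit 0, nat_lit 202396, [nat_lit 4688000000, nat_lit 6250000000, nat_lit 7968000000], [], [nat_lit 16274401818, nat_lit 17890289383, nat_lit 14269088480,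 nat_lit 15779361296, nat_lit 21896747591, nat_lit 23362944093, nat_lit 19615143376, nat_lit 21023826524], nat_lit 1271250, nat_lit 1271250, nat_lit 205650, nat_lit 490000, nat_lit 1271250, nat_lit 1271250, [nat_lit 1100000, nat_lit 1442500, nat_lit 1271250], [nat_lit 9, nat_lit 40, nat_lit 40, nat_lit 80]⟩,
 zbF0, [⟨nat_lit 0, nat_lit 100, nat_lit 91, nat_lit 77, nat_lit 322621086⟩, ⟨nat_lit 23, nat_lit 86, nat_lit 100, nat_lit 72, nat_lit 1122731044⟩]⟩
noncomputable def p063_l83 : Lf2 := ⟨nat_lit 0, nat_lit 5, [nat_lit 4, nat_lit 5, nat_lit 5, nat_lit 20], true, nat_lit 280, nat_lit 336, nat_lit 0, nat_lit 300, ⟨nat_lit 0, nat_lit 1000, nat_lit 0, nat_lit 6, nat_lit 116, nat_lit 1000, nat_lit 242, nat_lit 0, nat_lit 0, nat_lit 0, nat_lit 0, nat_lit 0, nat_lit 44479342, nat_lit 5416900, nat_lit 17103758, nat_lit 4386719, false, false⟩,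
 nat_lit 0, nat_lit 100000, nat_lit 0, nat_lit 11904, nat_lit 63636, nat_lit 0, nat_lit 984, nat_lit 0, nat_lit 0, nat_lit 0, nat_lit 0, nat_lit 0, nat_lit 0, nat_lit 0, nat_lit 0, nat_lit 400000, nat_lit 19266183120, nat_lit 0, [(nat_lit 12, [(nat_lit 1, nat_lit 1000)])],
 ⟨p063_k1, nat_lit 0, nat_lit 0, nat_lit 0, nat_lit 0, nat_lit 21315, [nat_lit 2068400000, nat_lit 2721200001, nat_lit 2682000000], [], [nat_lit 21869174336, nat_lit 25925050438, nat_lit 0, nat_lit 3854721852, nat_lit 51254292083, nat_lit 55588520594, nat_lit 28009979757, nat_lit 32146255304], nat_lit 1271250, nat_lit 1271250, nat_lit 205650, nat_lit 490000, nat_lit 1271250, nat_lit 1271250, [nat_lit 780000, nat_lit 1435000, nat_lit 1271250], [nat_lit 18, nat_lit 40, nat_lit 40, nat_lit 80]⟩, C1.Rw.none,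
 ⟨nat_lit 5244, nat_lit 5478, ⟨.ofNat (nat_lit 235487), .ofNat (nat_lit 317913), .ofNat (nat_lit 256844), .ofNat (nat_lit 339271), .ofNat (nat_lit 242768), .ofNat (nat_lit 323256), .ofNat (nat_lit 264153), .ofNat (nat_lit 344641)⟩, ⟨.ofNat (nat_lit 543079), .ofNat (nat_lit 647985), .ofNat (nat_lit 564436), .ofNat (nat_lit 669340), .ofNat (nat_lit 539414), .ofNat (nat_lit 641853), .ofNat (nat_lit 560799), .ofNat (nat_lit 663236)⟩⟩, [⟨nat_lit 0, nat_lit 100, nat_lit 94, nat_lit 73, nat_lit 2928128947⟩, ⟨nat_lit 16, nat_lit 100, nat_lit 87, nat_lit 99, nat_lit 2485195721⟩]⟩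
noncomputable def p063_l84 : Lf2 := ⟨nat_lit 0, nat_lit 5, [nat_lit 4, nat_lit 5, nat_lit 5, nat_lit 20], true, nat_lit 280, nat_lit 328, nat_lit 0, nat_lit 300, ⟨nat_lit 0, nat_lit 1000, nat_lit 0, nat_lit 6, nat_lit 120, nat_lit 1000, nat_lit 237, nat_lit 0, nat_lit 0, nat_lit 0, nat_lit 0, nat_lit 0, nat_lit 44693624, nat_lit 5717589, nat_lit 16588787, nat_lit 4401872, false, false⟩,
 nat_lit 0, nat_lit 100000, nat_lit 0, nat_lit 0, nat_lit 66412, nat_lit 0, nat_lit 6239, nat_lit 2309, nat_lit 0, nat_lit 0, nat_lit 0, nat_lit 0, nat_lit 0, nat_lit 0, nat_lit 0, nat_lit 400000, nat_lit 0, nat_lit 0, [(nat_lit 12, [(nat_lit 1, nat_lit 1000)])],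
 ⟨p063_k3, nat_lit 0, nat_lit 0, nat_lit 0, nat_lit 0, nat_lit 72927, [nat_lit 29741400001, nat_lit 39383600000, nat_lit 48808400000], [], [nat_lit 31028484783, nat_lit 35820290907, nat_lit 11745483027, nat_lit 16308318659, nat_lit 55557651110, nat_lit 60192779875, nat_lit 35176956403, nat_lit 39281876051], nat_lit 1271250, nat_lit 1271250, nat_lit 230001, nat_lit 490000, nat_lit 1271250, nat_lit 1271250, [nat_lit 780000, nat_lit 1100000, nat_lit 1442500], [nat_lit 59, nat_lit 40, nat_lit 20, nat_lit 40]⟩, C1.Rw.none,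
 ⟨nat_lit 5000, nat_lit 5245, ⟨.ofNat (nat_lit 250085), .ofNat (nat_lit 323256), .ofNat (nat_lit 271470), .ofNat (nat_lit 344641), .ofNat (nat_lit 257141), .ofNat (nat_lit 328570), .ofNat (nat_lit 278570), .ofNat (nat_lit 349999)⟩, ⟨.ofNat (nat_lit 539414), .ofNat (nat_lit 627219), .ofNat (nat_lit 560799), .ofNat (nat_lit 648604), .ofNat (nat_lit 535713), .ofNat (nat_lit 621427), .ofNat (nat_lit 557141), .ofNat (nat_lit 642856)⟩⟩, [⟨nat_lit 0, nat_lit 100, nat_lit 91, nat_lit 77, nat_lit 2966965156⟩, ⟨nat_lit 4, nat_lit 92, nat_lit 99, nat_lit 100, nat_lit 3526166112⟩]⟩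
noncomputable def p063_l85 : Lf2 := ⟨nat_lit 0, nat_lit 5, [nat_lit 4, nat_lit 5, nat_lit 5, nat_lit 20], false, nat_lit 280, nat_lit 336, nat_lit 0, nat_lit 300, ⟨nat_lit 0, nat_lit 1000, nat_lit 0, nat_lit 6, nat_lit 116, nat_lit 1000, nat_lit 242, nat_lit 0, nat_lit 0, nat_lit 0, nat_lit 0, nat_lit 0, nat_lit 44479342, nat_lit 5416900, nat_lit 17103758, nat_lit 4386719, false, false⟩,
 nat_lit 28495, nat_lit 0, nat_lit 0, nat_lit 0, nat_lit 4629, nat_lit 15085, nat_lit 792, nat_lit 0, nat_lit 0, nat_lit 0, nat_lit 361, nat_lit 0, nat_lit 0, nat_lit 0, nat_lit 0, nat_lit 400000, nat_lit 0, nat_lit 0, [(nat_lit 12, [(nat_lit 1, nat_lit 1000)])],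
 ⟨p063_k7, nat_lit 0, nat_lit 0, nat_lit 0, nat_lit 0, nat_lit 108223, [nat_lit 2033400000, nat_lit 2574800000, nat_lit 2711866667], [], [nat_lit 20002872475, nat_lit 20587248753, nat_lit 19116495242, nat_lit 19706622897, nat_lit 24075705990, nat_lit 24746138881, nat_lit 22765424561, nat_lit 23415597825], nat_lit 1271250, nat_lit 1271250, nat_lit 205650, nat_lit 490000, nat_lit 1271250, nat_lit 1271250, [nat_lit 780000, nat_lit 1100000, nat_lit 1785000], [nat_lit 36, nat_lit 40, nat_lit 40, nat_lit 80]⟩, ⟨p063_k20, nat_lit 0, nat_lit 0, nat_lit 309, nat_lit 0, nat_lit 136583, [nat_lit 5776000000, nat_lit 7220000000, nat_lit 10108000000], [], [nat_lit 25958303486, nat_lit 18090359696, nat_lit 8651228680, nat_lit 4603772330, nat_lit 14959014774, nat_lit 8073671680, nat_lit 16970763950, nat_lit 10183373795], nat_lit 1271250, nat_lit 1271250, nat_lit 205650, nat_lit 490000, nat_lit 0, nat_lit 2118750, [nat_lit 1100000, nat_lit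 1442500, nat_lit 1271250], [nat_lit 11, nat_lit 40, nat_lit 40, nat_lit 80, nat_lit 1, nat_lit 401, nat_lit 175, nat_lit 12]⟩,
 ⟨nat_lit 5244, nat_lit 5478, ⟨.ofNat (nat_lit 235487), .ofNat (nat_lit 317913), .ofNat (nat_lit 256844), .ofNat (nat_lit 339271), .ofNat (nat_lit 242768), .ofNat (nat_lit 323256), .ofNat (nat_lit 264153), .ofNat (nat_lit 344641)⟩, ⟨.ofNat (nat_lit 543079), .ofNat (nat_lit 647985), .ofNat (nat_lit 564436), .ofNat (nat_lit 669340), .ofNat (nat_lit 539414), .ofNat (nat_lit 641853), .ofNat (nat_lit 560799), .ofNat (nat_lit 663236)⟩⟩, [⟨nat_lit 4, nat_lit 87, nat_lit 100, nat_lit 99, nat_lit 268061350⟩]⟩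
noncomputable def p063_l86 : Lf2 := ⟨nat_lit 0, nat_lit 5, [nat_lit 4, nat_lit 5, nat_lit 5, nat_lit 20], false, nat_lit 280, nat_lit 328, nat_lit 0, nat_lit 300, ⟨nat_lit 0, nat_lit 1000, nat_lit 0, nat_lit 6, nat_lit 120, nat_lit 1000, nat_lit 237, nat_lit 0, nat_lit 0, nat_lit 0, nat_lit 0, nat_lit 0, nat_lit 44693624, nat_lit 5717589, nat_lit 16588787, nat_lit 4401872, false, false⟩,
 nat_lit 6399, nat_lit 0, nat_lit 0, nat_lit 0, nat_lit 4249, nat_lit 3387, nat_lit 683, nat_lit 0, nat_lit 0, nat_lit 0, nat_lit 167, nat_lit 0, nat_lit 0, nat_lit 0, nat_lit 0, nat_lit 400000, nat_lit 0, nat_lit 0, [(nat_lit 12, [(nat_lit 1, nat_lit 1000)])],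
 ⟨p063_k3, nat_lit 0, nat_lit 0, nat_lit 0, nat_lit 0, nat_lit 157593, [nat_lit 2033400000, nat_lit 2439600000, nat_lit 2628400000], [], [nat_lit 20302033761, nat_lit 20851367782, nat_lit 19877325725, nat_lit 20406649904, nat_lit 23326100417, nat_lit 23986298384, nat_lit 22431710592, nat_lit 23053536509], nat_lit 1271250, nat_lit 1271250, nat_lit 230001, nat_lit 490000, nat_lit 1271250, nat_lit 1271250, [nat_lit 780000, nat_lit 1100000, nat_lit 1442500], [nat_lit 59, nat_lit 40, nat_lit 40, nat_lit 80]⟩, ⟨p063_k20, nat_lit 0, nat_lit 0, nat_lit 331, nat_lit 0, nat_lit 209711, [nat_lit 2672000000, nat_lit 3340000000, nat_lit 4676000000], [], [nat_lit 9595574868, nat_lit 7831699782, nat_lit 6067824696, nat_lit 5159058726, nat_lit 8188690819, nat_lit 6644789529, nat_lit 8623354690, nat_lit 7099397749], nat_lit 1271250, nat_lit 1271250, nat_lit 230001, nat_lit 490000, nat_lit 0, nat_lit 2118750, [nat_lit 1100000, nat_lit 1442500,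 nat_lit 1271250], [nat_lit 11, nat_lit 40, nat_lit 40, nat_lit 80, nat_lit 1, nat_lit 401, nat_lit 175, nat_lit 12]⟩,
 ⟨nat_lit 5000, nat_lit 5245, ⟨.ofNat (nat_lit 250085), .ofNat (nat_lit 323256), .ofNat (nat_lit 271470), .ofNat (nat_lit 344641), .ofNat (nat_lit 257141), .ofNat (nat_lit 328570), .ofNat (nat_lit 278570), .ofNat (nat_lit 349999)⟩, ⟨.ofNat (nat_lit 539414), .ofNat (nat_lit 627219), .ofNat (nat_lit 560799), .ofNat (nat_lit 648604), .ofNat (nat_lit 535713), .ofNat (nat_lit 621427), .ofNat (nat_lit 557141), .ofNat (nat_lit 642856)⟩⟩, [⟨nat_lit 0, nat_lit 100, nat_lit 91, nat_lit 77, nat_lit 65786862⟩, ⟨nat_lit 16, nat_lit 99, nat_lit 92, nat_lit 100, nat_lit 148462728⟩, ⟨nat_lit 23, nat_lit 88, nat_lit 100, nat_lit 74, nat_lit 97612453⟩]⟩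
noncomputable def p063_l87 : Lf2 := ⟨nat_lit 0, nat_lit 5, [nat_lit 4, nat_lit 5, nat_lit 5, nat_lit 20], true, nat_lit 280, nat_lit 336, nat_lit 0, nat_lit 300, ⟨nat_lit 0, nat_lit 0, nat_lit 1000, nat_lit 6, nat_lit 117, nat_lit 1000, nat_lit 241, nat_lit 1000, nat_lit 67422, nat_lit 200, nat_lit 129067, nat_lit 303, nat_lit 44497709, nat_lit 0, nat_lit 0, nat_lit 4395213, false, false⟩,
 nat_lit 0, nat_lit 100000, nat_lit 0, nat_lit 0, nat_lit 63636, nat_lit 0, nat_lit 16181, nat_lit 6680, nat_lit 0, nat_lit 0, nat_lit 0, nat_lit 0, nat_lit 0, nat_lit 0, nat_lit 0, nat_lit 1000000, nat_lit 0, nat_lit 0, [(nat_lit 12, [(nat_lit 6, nat_lit 1000)])],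
 ⟨p063_k7, nat_lit 0, nat_lit 0, nat_lit 177, nat_lit 0, nat_lit 166167, [nat_lit 81069600001, nat_lit 107712400001, nat_lit 156582266667], [], [nat_lit 128954889025, nat_lit 135986713840, nat_lit 109664774244, nat_lit 116366490770, nat_lit 151460732189, nat_lit 158408331076, nat_lit 131404210374, nat_lit 137983387961], nat_lit 1271250, nat_lit 1271250, nat_lit 205650, nat_lit 490000, nat_lit 1271250, nat_lit 1271250, [nat_lit 780000, nat_lit 1100000, nat_lit 1785000], [nat_lit 36, nat_lit 40, nat_lit 40, nat_lit 80, nat_lit 7, nat_lit 226, nat_lit 20, nat_lit 7]⟩, C1.Rw.none,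
 ⟨nat_lit 5000, nat_lit 5478, ⟨.ofNat (nat_lit 235487), .ofNat (nat_lit 317913), .ofNat (nat_lit 256844), .ofNat (nat_lit 339271), .ofNat (nat_lit 249999), .ofNat (nat_lit 328570), .ofNat (nat_lit 271427), .ofNat (nat_lit 349999)⟩, ⟨.ofNat (nat_lit 543079), .ofNat (nat_lit 647986), .ofNat (nat_lit 564436), .ofNat (nat_lit 669336), .ofNat (nat_lit 535713), .ofNat (nat_lit 635713), .ofNat (nat_lit 557141), .ofNat (nat_lit 657134)⟩⟩, [⟨nat_lit 0, nat_lit 100, nat_lit 91, nat_lit 77, nat_lit 2656618371⟩, ⟨nat_lit 4, nat_lit 90, nat_lit 100, nat_lit 100, nat_lit 5295380740⟩]⟩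
noncomputable def b_V_700_600_20_33 : St := ⟨true, nat_lit 1, nat_lit 1, nat_lit 1, nat_lit 120, nat_lit 280, nat_lit 300, nat_lit 240, nat_lit 260, nat_lit 36, nat_lit 80, nat_lit 100, nat_lit 120, nat_lit 280, nat_lit 336, nat_lit 0, nat_lit 336, nat_lit 0, nat_lit 20, nat_lit 0, nat_lit 0, nat_lit 0, nat_lit 0⟩
theorem d_V_700_600_20_33 (h : EB TB.env) : Dead b_V_700_600_20_33 := chkB_sound0 h (T :=
(.trX (nat_lit 23) (nat_lit 100) (nat_lit 95) (nat_lit 87) (nat_lit 300) (.spl (nat_lit 7) (nat_lit 600)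
(.spl (nat_lit 7) (nat_lit 300)
(.leaf p063_l63)
(.spl (nat_lit 8) (nat_lit 800)
(.spl (nat_lit 7) (nat_lit 460)
(.spl (nat_lit 5) (nat_lit 160)
(.spl (nat_lit 0) (nat_lit 290)
(.spl (nat_lit 6) (nat_lit 12)
(.spl (nat_lit 5) (nat_lit 80)
(.leaf p063_l64)
(.leaf p063_l65))
(.leaf p063_l66))
(.trZ (nat_lit 0) (nat_lit 100) (nat_lit 91) (nat_lit 63) (nat_lit 40) (.trX (nat_lit 16) (nat_lit 97) (nat_lit 84) (nat_lit 100) (nat_lit 328) (.spl (nat_lit 7) (nat_lit 380)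
(.leaf p063_l67)
(.spl (nat_lit 7) (nat_lit 420)
(.spl (nat_lit 5) (nat_lit 80)
(.leaf p063_l68)
(.leaf p063_l69))
(.spl (nat_lit 1) (nat_lit 250)
(.spl (nat_lit 6) (nat_lit 12)
(.leaf p063_l70)
(.leaf p063_l71))
(.trZ (nat_lit 0) (nat_lit 100) (nat_lit 92) (nat_lit 68) (nat_lit 48) (.leaf p063_l72))))))))
(.spl (nat_lit 5) (nat_lit 240)
(.spl (nat_lit 0) (nat_lit 290)
(.leaf p063_l73)
(.trZ (nat_lit 0) (nat_lit 100) (nat_lit 91) (nat_lit 63) (nat_lit 40) (.trX (nat_lit 16) (nat_lit 97) (nat_lit 84) (nat_lit 100) (nat_lit 328) (.spl (nat_lit 5) (nat_lit 200)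
(.leaf p063_l74)
(.leaf p063_l75)))))
(.leaf p063_l76)))
(.spl (nat_lit 6) (nat_lit 8)
(.spl (nat_lit 5) (nat_lit 160)
(.spl (nat_lit 6) (nat_lit 4)
(.spl (nat_lit 0) (nat_lit 290)
(.leaf p063_l77)
(.trZ (nat_lit 0) (nat_lit 100) (nat_lit 91) (nat_lit 63) (nat_lit 40) (.trX (nat_lit 16) (nat_lit 97) (nat_lit 84) (nat_lit 100) (nat_lit 328) (.leaf p063_l78))))
(.leaf p063_l79))
(.spl (nat_lit 5) (nat_lit 240)
(.spl (nat_lit 1) (nat_lit 250)
(.leaf p063_l80)
(.trZ (nat_lit 0) (nat_lit 100) (nat_lit 95) (nat_lit 64) (nat_lit 40) (.leaf p063_l81)))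
(.leaf p063_l82)))
(.spl (nat_lit 0) (nat_lit 290)
(.leaf p063_l83)
(.trZ (nat_lit 0) (nat_lit 100) (nat_lit 91) (nat_lit 63) (nat_lit 40) (.trX (nat_lit 16) (nat_lit 97) (nat_lit 84) (nat_lit 100) (nat_lit 328) (.leaf p063_l84))))))
(.spl (nat_lit 0) (nat_lit 290)
(.leaf p063_l85)
(.trZ (nat_lit 0) (nat_lit 100) (nat_lit 91) (nat_lit 63) (nat_lit 40) (.trX (nat_lit 16) (nat_lit 97) (nat_lit 84) (nat_lit 100) (nat_lit 328) (.leaf p063_l86))))))
(.leaf p063_l87)))) (by decide +kernel)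
noncomputable def p063_l88 : Lf2 := ⟨nat_lit 0, nat_lit 5, [nat_lit 4, nat_lit 5, nat_lit 5, nat_lit 20], true, nat_lit 280, nat_lit 336, nat_lit 0, nat_lit 336, ⟨nat_lit 0, nat_lit 1000, nat_lit 0, nat_lit 6, nat_lit 148, nat_lit 1000, nat_lit 241, nat_lit 0, nat_lit 0, nat_lit 0, nat_lit 0, nat_lit 0, nat_lit 42702985, nat_lit 7705916, nat_lit 16591099, nat_lit 4726382, false, false⟩,
 nat_lit 0, nat_lit 0, nat_lit 0, nat_lit 3315, nat_lit 0, nat_lit 0, nat_lit 0, nat_lit 0, nat_lit 350, nat_lit 0, nat_lit 0, nat_lit 0, nat_lit 0, nat_lit 0, nat_lit 0, nat_lit 400000, nat_lit 0, nat_lit 0, [(nat_lit 12, [(nat_lit 1, nat_lit 1000)])],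
 ⟨p063_k35, nat_lit 0, nat_lit 0, nat_lit 0, nat_lit 0, nat_lit 282618, [nat_lit 2033400000, nat_lit 2255600001, nat_lit 2579200001, nat_lit 2677600000], [], [nat_lit 16684464000, nat_lit 17385758000, nat_lit 17554708000, nat_lit 18254420000, nat_lit 18701272800, nat_lit 19371023600, nat_lit 19533789600, nat_lit 20186872000], nat_lit 1271250, nat_lit 1271250, nat_lit 490000, nat_lit 780000, nat_lit 1271250, nat_lit 1271250, [nat_lit 780000, nat_lit 936250, nat_lit 1271250, nat_lit 1271250], [nat_lit 195, nat_lit 40, nat_lit 20, nat_lit 40]⟩, C1.Rw.none,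
 ⟨nat_lit 5000, nat_lit 5478, ⟨.ofNat (nat_lit 317913), .ofNat (nat_lit 392847), .ofNat (nat_lit 339271), .ofNat (nat_lit 414199), .ofNat (nat_lit 328570), .ofNat (nat_lit 399998), .ofNat (nat_lit 349999), .ofNat (nat_lit 421423)⟩, ⟨.ofNat (nat_lit 543079), .ofNat (nat_lit 647986), .ofNat (nat_lit 564436), .ofNat (nat_lit 669336), .ofNat (nat_lit 535713), .ofNat (nat_lit 635713), .ofNat (nat_lit 557141), .ofNat (nat_lit 657134)⟩⟩, []⟩
noncomputable def p063_l89 : Lf2 := ⟨nat_lit 0, nat_lit 5, [nat_lit 4, nat_lit 5, nat_lit 5, nat_lit 20], false, nat_lit 280, nat_lit 336, nat_lit 0, nat_lit 160, ⟨nat_lit 1000, nat_lit 0, nat_lit 0, nat_lit 0, nat_lit 0, nat_lit 0, nat_lit 0, nat_lit 0, nat_lit 0, nat_lit 0, nat_lit 0, nat_lit 0, nat_lit 0, nat_lit 0, nat_lit 0, nat_lit 0, false, false⟩,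
 nat_lit 37237, nat_lit 0, nat_lit 0, nat_lit 0, nat_lit 6155, nat_lit 19713, nat_lit 1800, nat_lit 0, nat_lit 0, nat_lit 2495, nat_lit 0, nat_lit 0, nat_lit 0, nat_lit 0, nat_lit 0, nat_lit 0, nat_lit 0, nat_lit 1190866298, [],
 ⟨p063_k7, nat_lit 0, nat_lit 0, nat_lit 0, nat_lit 0, nat_lit 127467, [nat_lit 3282000000, nat_lit 4688000000, nat_lit 7968000000], [], [nat_lit 20052472400, nat_lit 21584604185, nat_lit 19875753970, nat_lit 21287728545, nat_lit 24326006573, nat_lit 25613024687, nat_lit 23892006389, nat_lit 25116604151], nat_lit 1271250, nat_lit 1271250, nat_lit 490000, nat_lit 780000, nat_lit 1271250, nat_lit 1271250, [nat_lit 780000, nat_lit 1100000, nat_lit 1785000], [nat_lit 36, nat_lit 40, nat_lit 40, nat_lit 80]⟩, ⟨p063_k20, nat_lit 0, nat_lit 0, nat_lit 0, nat_lit 0, nat_lit 160870, [nat_lit 4688000000, nat_lit 6250000000, nat_lit 9842000000], [], [nat_lit 23916118402, nat_lit 21302192747, nat_lit 16829764384,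 nat_lit 18507982425, nat_lit 2182960988, nat_lit 3641928446, nat_lit 0, nat_lit 1366020845], nat_lit 1271250, nat_lit 1271250, nat_lit 490000, nat_lit 780000, nat_lit 0, nat_lit 1100001, [nat_lit 1100000, nat_lit 1442500, nat_lit 1271250], [nat_lit 11, nat_lit 40, nat_lit 40, nat_lit 80]⟩,
 zbF0, [⟨nat_lit 4, nat_lit 90, nat_lit 100, nat_lit 100, nat_lit 617358235⟩]⟩
noncomputable def p063_l90 : Lf2 := ⟨nat_lit 0, nat_lit 5, [nat_lit 4, nat_lit 5, nat_lit 5, nat_lit 20], false, nat_lit 280, nat_lit 336, nat_lit 0, nat_lit 160, ⟨nat_lit 1000, nat_lit 0, nat_lit 0, nat_lit 0, nat_lit 0, nat_lit 0, nat_lit 0, nat_lit 0, nat_lit 0, nat_lit 0, nat_lit 0, nat_lit 0, nat_lit 0, nat_lit 0, nat_lit 0, nat_lit 0, false, false⟩,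
 nat_lit 16181, nat_lit 0, nat_lit 0, nat_lit 12669, nat_lit 6155, nat_lit 8989, nat_lit 1729, nat_lit 0, nat_lit 0, nat_lit 3203, nat_lit 0, nat_lit 0, nat_lit 0, nat_lit 0, nat_lit 0, nat_lit 0, nat_lit 0, nat_lit 0, [],
 ⟨p063_k7, nat_lit 0, nat_lit 0, nat_lit 0, nat_lit 0, nat_lit 166167, [nat_lit 3282000000, nat_lit 4688000000, nat_lit 7968000000], [], [nat_lit 20288547400, nat_lit 21585180820, nat_lit 19930548460, nat_lit 21287728545, nat_lit 24326006573, nat_lit 25613024687, nat_lit 23892006389, nat_lit 25116604151], nat_lit 1271250, nat_lit 1271250, nat_lit 490000, nat_lit 780000, nat_lit 1271250, nat_lit 1271250, [nat_lit 780000, nat_lit 1100000, nat_lit 1785000], [nat_lit 36, nat_lit 40, nat_lit 40, nat_lit 80]⟩, ⟨p063_k22, nat_lit 0, nat_lit 0, nat_lit 0, nat_lit 0, nat_lit 197168, [nat_lit 4688000000, nat_lit 6250000000, nat_lit 7968000000], [], [nat_lit 13928105247, nat_lit 15075362910, nat_lit 13385153353,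 nat_lit 14537285464, nat_lit 9903754446, nat_lit 10388461048, nat_lit 12434675825, nat_lit 10195129398], nat_lit 1271250, nat_lit 1271250, nat_lit 490000, nat_lit 780000, nat_lit 0, nat_lit 1100001, [nat_lit 1100000, nat_lit 1442500, nat_lit 1271250], [nat_lit 9, nat_lit 40, nat_lit 40, nat_lit 80]⟩,
 zbF0, [⟨nat_lit 4, nat_lit 90, nat_lit 100, nat_lit 100, nat_lit 617358235⟩]⟩
noncomputable def p063_l91 : Lf2 := ⟨nat_lit 0, nat_lit 5, [nat_lit 4, nat_lit 5, nat_lit 5, nat_lit 20], false, nat_lit 280, nat_lit 336, nat_lit 160, nat_lit 240, ⟨nat_lit 1000, nat_lit 0, nat_lit 0, nat_lit 0, nat_lit 0, nat_lit 0, nat_lit 0, nat_lit 0, nat_lit 0, nat_lit 0, nat_lit 0, nat_lit 0, nat_lit 0, nat_lit 0, nat_lit 0, nat_lit 0, false, false⟩,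
 nat_lit 30282, nat_lit 0, nat_lit 0, nat_lit 0, nat_lit 6155, nat_lit 16031, nat_lit 1729, nat_lit 0, nat_lit 0, nat_lit 2044, nat_lit 0, nat_lit 0, nat_lit 0, nat_lit 0, nat_lit 0, nat_lit 0, nat_lit 0, nat_lit 0, [],
 ⟨p063_k7, nat_lit 0, nat_lit 0, nat_lit 0, nat_lit 0, nat_lit 166167, [nat_lit 3282000000, nat_lit 4688000000, nat_lit 7968000000], [], [nat_lit 20288547400, nat_lit 21585180820, nat_lit 19930548460, nat_lit 21287728545, nat_lit 24326006573, nat_lit 25613024687, nat_lit 23892006389, nat_lit 25116604151], nat_lit 1271250, nat_lit 1271250, nat_lit 490000, nat_lit 780000, nat_lit 1271250, nat_lit 1271250, [nat_lit 780000, nat_lit 1100000, nat_lit 1785000], [nat_lit 36, nat_lit 40, nat_lit 40, nat_lit 80]⟩, ⟨p063_k20, nat_lit 0, nat_lit 0, nat_lit 0, nat_lit 0, nat_lit 209711, [nat_lit 4688000000, nat_lit 6250000000, nat_lit 9842000000], [], [nat_lit 20155109048, nat_lit 11930276250, nat_lit 4451766824, nat_lit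 6789355854, nat_lit 14552489752, nat_lit 12720092936, nat_lit 18558889988, nat_lit 10902585202], nat_lit 1271250, nat_lit 1271250, nat_lit 490000, nat_lit 780000, nat_lit 1100001, nat_lit 1785000, [nat_lit 1100000, nat_lit 1442500, nat_lit 1271250], [nat_lit 11, nat_lit 40, nat_lit 40, nat_lit 80]⟩,
 zbF0, [⟨nat_lit 16, nat_lit 100, nat_lit 90, nat_lit 100, nat_lit 617358235⟩]⟩
noncomputable def p063_l92 : Lf2 := ⟨nat_lit 0, nat_lit 5, [nat_lit 4, nat_lit 5, nat_lit 5, nat_lit 20], false, nat_lit 280, nat_lit 336, nat_lit 240, nat_lit 336, ⟨nat_lit 1000, nat_lit 0, nat_lit 0, nat_lit 0, nat_lit 0, nat_lit 0, nat_lit 0, nat_lit 0, nat_lit 0, nat_lit 0, nat_lit 0, nat_lit 0, nat_lit 0, nat_lit 0, nat_lit 0, nat_lit 0, false, false⟩,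
 nat_lit 16089, nat_lit 0, nat_lit 0, nat_lit 5537, nat_lit 6783, nat_lit 8517, nat_lit 1741, nat_lit 0, nat_lit 0, nat_lit 2571, nat_lit 0, nat_lit 0, nat_lit 0, nat_lit 0, nat_lit 0, nat_lit 0, nat_lit 0, nat_lit 0, [],
 ⟨p063_k7, nat_lit 0, nat_lit 0, nat_lit 0, nat_lit 0, nat_lit 166167, [nat_lit 3282000000, nat_lit 4688000000, nat_lit 7968000000], [], [nat_lit 19850545640, nat_lit 21217366741, nat_lit 19373636156, nat_lit 20805009437, nat_lit 24654568721, nat_lit 26248278849, nat_lit 23892795155, nat_lit 25411613804], nat_lit 1271250, nat_lit 1271250, nat_lit 490000, nat_lit 780000, nat_lit 1271250, nat_lit 1271250, [nat_lit 780000, nat_lit 1100000, nat_lit 1785000], [nat_lit 36, nat_lit 40, nat_lit 40, nat_lit 80]⟩, ⟨p063_k20, nat_lit 0, nat_lit 0, nat_lit 0, nat_lit 0, nat_lit 209711, [nat_lit 4688000000, nat_lit 6250000000, nat_lit 9842000000], [], [nat_lit 15309324318, nat_lit 16640507102, nat_lit 14661981830,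 nat_lit 15961350728, nat_lit 23450109757, nat_lit 24641272751, nat_lit 22621171536, nat_lit 23747759434], nat_lit 1271250, nat_lit 1271250, nat_lit 490000, nat_lit 780000, nat_lit 1271250, nat_lit 1271250, [nat_lit 1100000, nat_lit 1442500, nat_lit 1271250], [nat_lit 11, nat_lit 40, nat_lit 40, nat_lit 80]⟩,
 zbF0, [⟨nat_lit 11, nat_lit 100, nat_lit 94, nat_lit 95, nat_lit 744164582⟩]⟩
noncomputable def p063_l93 : Lf2 := ⟨nat_lit 0, nat_lit 5, [nat_lit 4, nat_lit 5, nat_lit 5, nat_lit 20], false, nat_lit 280, nat_lit 336, nat_lit 0, nat_lit 336, ⟨nat_lit 0, nat_lit 1000, nat_lit 0, nat_lit 6, nat_lit 148, nat_lit 1000, nat_lit 241, nat_lit 0, nat_lit 0, nat_lit 0, nat_lit 0, nat_lit 0, nat_lit 42702985, nat_lit 7705916, nat_lit 16591099, nat_lit 4726382, false, false⟩,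
 nat_lit 7150, nat_lit 0, nat_lit 0, nat_lit 0, nat_lit 4550, nat_lit 3785, nat_lit 703, nat_lit 0, nat_lit 0, nat_lit 0, nat_lit 276, nat_lit 0, nat_lit 0, nat_lit 0, nat_lit 0, nat_lit 400000, nat_lit 0, nat_lit 0, [(nat_lit 12, [(nat_lit 1, nat_lit 1000)])],
 ⟨p063_k7, nat_lit 0, nat_lit 0, nat_lit 0, nat_lit 0, nat_lit 166167, [nat_lit 2033400000, nat_lit 2574800000, nat_lit 2711866667], [], [nat_lit 19461305667, nat_lit 20578878867, nat_lit 19407210267, nat_lit 20473023867, nat_lit 22743287321, nat_lit 23985725540, nat_lit 22632169481, nat_lit 23693217101], nat_lit 1271250, nat_lit 1271250, nat_lit 490000, nat_lit 780000, nat_lit 1271250, nat_lit 1271250, [nat_lit 780000, nat_lit 1100000, nat_lit 1785000], [nat_lit 36, nat_lit 40, nat_lit 40, nat_lit 80]⟩, ⟨p063_k20, nat_lit 0, nat_lit 0, nat_lit 304, nat_lit 0, nat_lit 209711, [nat_lit 4416000000, nat_lit 5520000000, nat_lit 7728000000], [], [nat_lit 19768355060,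 nat_lit 17736044730, nat_lit 15703734400, nat_lit 13702461070, nat_lit 12541910048, nat_lit 10836708502, nat_lit 13522106956, nat_lit 11838658562], nat_lit 1271250, nat_lit 1271250, nat_lit 490000, nat_lit 780000, nat_lit 0, nat_lit 2373000, [nat_lit 1100000, nat_lit 1442500, nat_lit 1271250], [nat_lit 11, nat_lit 40, nat_lit 40, nat_lit 80, nat_lit 1, nat_lit 428, nat_lit 200, nat_lit 13]⟩,
 ⟨nat_lit 5000, nat_lit 5478, ⟨.ofNat (nat_lit 317913), .ofNat (nat_lit 392847), .ofNat (nat_lit 339271), .ofNat (nat_lit 414199), .ofNat (nat_lit 328570), .ofNat (nat_lit 399998), .ofNat (nat_lit 349999), .ofNat (nat_lit 421423)⟩, ⟨.ofNat (nat_lit 543079), .ofNat (nat_lit 647986), .ofNat (nat_lit 564436), .ofNat (nat_lit 669336), .ofNat (nat_lit 535713), .ofNat (nat_lit 635713), .ofNat (nat_lit 557141), .ofNat (nat_lit 657134)⟩⟩, [⟨nat_lit 4, nat_lit 90, nat_lit 100, nat_lit 100, nat_lit 195962523⟩, ⟨nat_lit 23, nat_lit 95, nat_lit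 100, nat_lit 97, nat_lit 43905142⟩]⟩
noncomputable def p063_l94 : Lf2 := ⟨nat_lit 0, nat_lit 5, [nat_lit 4, nat_lit 5, nat_lit 5, nat_lit 20], true, nat_lit 280, nat_lit 336, nat_lit 0, nat_lit 336, ⟨nat_lit 0, nat_lit 0, nat_lit 1000, nat_lit 6, nat_lit 148, nat_lit 1000, nat_lit 241, nat_lit 1000, nat_lit 67422, nat_lit 200, nat_lit 205350, nat_lit 326, nat_lit 42702985, nat_lit 0, nat_lit 0, nat_lit 4726382, false, false⟩,
 nat_lit 0, nat_lit 100000, nat_lit 0, nat_lit 0, nat_lit 63636, nat_lit 0, nat_lit 10828, nat_lit 4315, nat_lit 0, nat_lit 0, nat_lit 0, nat_lit 0, nat_lit 0, nat_lit 0, nat_lit 0, nat_lit 1000000, nat_lit 0, nat_lit 0, [(nat_lit 12, [(nat_lit 6, nat_lit 1000)])],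
 ⟨p063_k7, nat_lit 0, nat_lit 0, nat_lit 186, nat_lit 0, nat_lit 282618, [nat_lit 52689600000, nat_lit 69872400000, nat_lit 99822266667], [], [nat_lit 45990628712, nat_lit 53164095188, nat_lit 37499335968, nat_lit 44154191508, nat_lit 70511924407, nat_lit 78099940764, nat_lit 58514310506, nat_lit 65596245160], nat_lit 1271250, nat_lit 1271250, nat_lit 490000, nat_lit 780000, nat_lit 1271250, nat_lit 1271250, [nat_lit 780000, nat_lit 1100000, nat_lit 1785000], [nat_lit 36, nat_lit 40, nat_lit 40, nat_lit 80, nat_lit 7, nat_lit 238, nat_lit 30, nat_lit 7]⟩, C1.Rw.none,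
 ⟨nat_lit 5000, nat_lit 5478, ⟨.ofNat (nat_lit 317913), .ofNat (nat_lit 392847), .ofNat (nat_lit 339271), .ofNat (nat_lit 414199), .ofNat (nat_lit 328570), .ofNat (nat_lit 399998), .ofNat (nat_lit 349999), .ofNat (nat_lit 421423)⟩, ⟨.ofNat (nat_lit 543079), .ofNat (nat_lit 647986), .ofNat (nat_lit 564436), .ofNat (nat_lit 669336), .ofNat (nat_lit 535713), .ofNat (nat_lit 635713), .ofNat (nat_lit 557141), .ofNat (nat_lit 657134)⟩⟩, [⟨nat_lit 4, nat_lit 90, nat_lit 100, nat_lit 100, nat_lit 4410032615⟩]⟩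
noncomputable def b_V_700_600_20_34 : St := ⟨true, nat_lit 1, nat_lit 1, nat_lit 1, nat_lit 120, nat_lit 280, nat_lit 300, nat_lit 240, nat_lit 260, nat_lit 80, nat_lit 120, nat_lit 100, nat_lit 120, nat_lit 280, nat_lit 336, nat_lit 0, nat_lit 336, nat_lit 0, nat_lit 20, nat_lit 0, nat_lit 0, nat_lit 0, nat_lit 0⟩
theorem d_V_700_600_20_34 (h : EB TB.env) : Dead b_V_700_600_20_34 := chkB_sound0 h (T :=
(.spl (nat_lit 7) (nat_lit 600)
(.spl (nat_lit 7) (nat_lit 300)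
(.leaf p063_l88)
(.spl (nat_lit 8) (nat_lit 800)
(.spl (nat_lit 5) (nat_lit 160)
(.spl (nat_lit 1) (nat_lit 250)
(.leaf p063_l89)
(.leaf p063_l90))
(.spl (nat_lit 5) (nat_lit 240)
(.leaf p063_l91)
(.leaf p063_l92)))
(.leaf p063_l93)))
(.leaf p063_l94))) (by decide +kernel)
noncomputable def p063_l95 : Lf2 := ⟨nat_lit 0, nat_lit 5, [nat_lit 4, nat_lit 5, nat_lit 5, nat_lit 20], false, nat_lit 280, nat_lit 320, nat_lit 0, nat_lit 80, ⟨nat_lit 1000, nat_lit 0, nat_lit 0, nat_lit 0, nat_lit 0, nat_lit 0, nat_lit 0, nat_lit 0, nat_lit 0, nat_lit 0, nat_lit 0, nat_lit 0, nat_lit 0, nat_lit 0, nat_lit 0, nat_lit 0, false, false⟩,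
 nat_lit 15342, nat_lit 0, nat_lit 0, nat_lit 3068, nat_lit 6937, nat_lit 8930, nat_lit 1447, nat_lit 0, nat_lit 0, nat_lit 2118, nat_lit 0, nat_lit 0, nat_lit 0, nat_lit 0, nat_lit 0, nat_lit 0, nat_lit 0, nat_lit 0, [],
 ⟨p063_k7, nat_lit 0, nat_lit 0, nat_lit 0, nat_lit 0, nat_lit 268433, [nat_lit 3282000000, nat_lit 4688000000, nat_lit 7968000000], [], [nat_lit 22288209078, nat_lit 23483384266, nat_lit 20907465196, nat_lit 22003286956, nat_lit 24512909470, nat_lit 26270346527, nat_lit 22944530340, nat_lit 23930628074], nat_lit 1271250, nat_lit 1271250, nat_lit 279600, nat_lit 780000, nat_lit 1271250, nat_lit 1271250, [nat_lit 780000, nat_lit 1100000, nat_lit 1785000], [nat_lit 36, nat_lit 40, nat_lit 40, nat_lit 80]⟩, ⟨p063_k8, nat_lit 0, nat_lit 0, nat_lit 0, nat_lit 0, nat_lit 299567, [nat_lit 4688000000, nat_lit 6250000000, nat_lit 7968000000], [], [nat_lit 18219038043, nat_lit 19366450718, nat_lit 19159270600,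 nat_lit 17155166390, nat_lit 17003796720, nat_lit 14816620042, nat_lit 21319070420, nat_lit 19186193500], nat_lit 1271250, nat_lit 1271250, nat_lit 279600, nat_lit 780000, nat_lit 0, nat_lit 490000, [nat_lit 1100000, nat_lit 1442500, nat_lit 1271250], [nat_lit 9, nat_lit 40, nat_lit 40, nat_lit 80]⟩,
 zbF0, [⟨nat_lit 0, nat_lit 100, nat_lit 94, nat_lit 76, nat_lit 465928559⟩, ⟨nat_lit 4, nat_lit 97, nat_lit 100, nat_lit 94, nat_lit 565803641⟩]⟩
noncomputable def p063_l96 : Lf2 := ⟨nat_lit 0, nat_lit 5, [nat_lit 4, nat_lit 5, nat_lit 5, nat_lit 20], false, nat_lit 280, nat_lit 320, nat_lit 80, nat_lit 160, ⟨nat_lit 1000, nat_lit 0, nat_lit 0, nat_lit 0, nat_lit 0, nat_lit 0, nat_lit 0, nat_lit 0, nat_lit 0, nat_lit 0, nat_lit 0, nat_lit 0, nat_lit 0, nat_lit 0, nat_lit 0, nat_lit 0, false, false⟩,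
 nat_lit 38120, nat_lit 0, nat_lit 0, nat_lit 0, nat_lit 9457, nat_lit 22189, nat_lit 807, nat_lit 0, nat_lit 0, nat_lit 8327, nat_lit 0, nat_lit 0, nat_lit 0, nat_lit 0, nat_lit 0, nat_lit 0, nat_lit 0, nat_lit 969715422, [],
 ⟨p063_k1, nat_lit 0, nat_lit 0, nat_lit 0, nat_lit 0, nat_lit 268433, [nat_lit 3282000000, nat_lit 6250000000, nat_lit 7968000000], [], [nat_lit 22772618970, nat_lit 24914344251, nat_lit 20324041656, nat_lit 21600055318, nat_lit 27046942948, nat_lit 29190389471, nat_lit 23515107504, nat_lit 25494545114], nat_lit 1271250, nat_lit 1271250, nat_lit 279600, nat_lit 780000, nat_lit 1271250, nat_lit 1271250, [nat_lit 780000, nat_lit 1435000, nat_lit 1271250], [nat_lit 18, nat_lit 40, nat_lit 40, nat_lit 80]⟩, ⟨p063_k44, nat_lit 0, nat_lit 0, nat_lit 0, nat_lit 0, nat_lit 299567, [nat_lit 4688000000, nat_lit 7968000000], [], [nat_lit 14090827776, nat_lit 12980432123, nat_lit 1166002740, nat_lit 4267200771,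 nat_lit 7531480365, nat_lit 10491499102, nat_lit 0, nat_lit 2709344933], nat_lit 1271250, nat_lit 1271250, nat_lit 279600, nat_lit 780000, nat_lit 490000, nat_lit 1100001, [nat_lit 1100000, nat_lit 1785000], [nat_lit 39, nat_lit 40, nat_lit 40, nat_lit 80]⟩,
 zbF0, [⟨nat_lit 0, nat_lit 100, nat_lit 94, nat_lit 76, nat_lit 1471240546⟩, ⟨nat_lit 4, nat_lit 97, nat_lit 100, nat_lit 94, nat_lit 838600365⟩]⟩
noncomputable def p063_l97 : Lf2 := ⟨nat_lit 0, nat_lit 5, [nat_lit 4, nat_lit 5, nat_lit 5, nat_lit 20], false, nat_lit 280, nat_lit 320, nat_lit 160, nat_lit 200, ⟨nat_lit 1000, nat_lit 0, nat_lit 0, nat_lit 0, nat_lit 0, nat_lit 0, nat_lit 0, nat_lit 0, nat_lit 0, nat_lit 0, nat_lit 0, nat_lit 0, nat_lit 0, nat_lit 0, nat_lit 0, nat_lit 0, false, false⟩,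
 nat_lit 20026, nat_lit 0, nat_lit 0, nat_lit 0, nat_lit 6293, nat_lit 11656, nat_lit 1748, nat_lit 0, nat_lit 0, nat_lit 1758, nat_lit 0, nat_lit 0, nat_lit 0, nat_lit 0, nat_lit 0, nat_lit 0, nat_lit 0, nat_lit 0, [],
 ⟨p063_k7, nat_lit 0, nat_lit 0, nat_lit 0, nat_lit 0, nat_lit 214089, [nat_lit 3282000000, nat_lit 4688000000, nat_lit 7968000000], [], [nat_lit 21102975599, nat_lit 21779122056, nat_lit 19753762476, nat_lit 20445156507, nat_lit 23865705852, nat_lit 24694409491, nat_lit 22477587100, nat_lit 23130565389], nat_lit 1271250, nat_lit 1271250, nat_lit 279600, nat_lit 780000, nat_lit 1271250, nat_lit 1271250, [nat_lit 780000, nat_lit 1100000, nat_lit 1785000], [nat_lit 36, nat_lit 40, nat_lit 40, nat_lit 80]⟩, ⟨p063_k8, nat_lit 0, nat_lit 0, nat_lit 0, nat_lit 0, nat_lit 238920, [nat_lit 4688000000, nat_lit 6250000000, nat_lit 7968000000], [], [nat_lit 10487087293, nat_lit 11665613925, nat_lit 7736864304, nat_lit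 8808313064, nat_lit 12771594151, nat_lit 13837735252, nat_lit 9930659754, nat_lit 10780716908], nat_lit 1271250, nat_lit 1271250, nat_lit 279600, nat_lit 780000, nat_lit 1100001, nat_lit 1442500, [nat_lit 1100000, nat_lit 1442500, nat_lit 1271250], [nat_lit 9, nat_lit 40, nat_lit 40, nat_lit 80]⟩,
 zbF0, [⟨nat_lit 0, nat_lit 100, nat_lit 96, nat_lit 74, nat_lit 976704005⟩, ⟨nat_lit 4, nat_lit 94, nat_lit 100, nat_lit 92, nat_lit 651096056⟩]⟩
noncomputable def p063_l98 : Lf2 := ⟨nat_lit 0, nat_lit 5, [nat_lit 4, nat_lit 5, nat_lit 5, nat_lit 20], false, nat_lit 280, nat_lit 320, nat_lit 200, nat_lit 240, ⟨nat_lit 1000, nat_lit 0, nat_lit 0, nat_lit 0, nat_lit 0, nat_lit 0, nat_lit 0, nat_lit 0, nat_lit 0, nat_lit 0, nat_lit 0, nat_lit 0, nat_lit 0, nat_lit 0, nat_lit 0, nat_lit 0, false, false⟩,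
 nat_lit 18737, nat_lit 0, nat_lit 0, nat_lit 0, nat_lit 8194, nat_lit 10906, nat_lit 913, nat_lit 0, nat_lit 0, nat_lit 2302, nat_lit 0, nat_lit 0, nat_lit 0, nat_lit 0, nat_lit 0, nat_lit 0, nat_lit 0, nat_lit 0, [],
 ⟨p063_k1, nat_lit 0, nat_lit 0, nat_lit 0, nat_lit 0, nat_lit 214089, [nat_lit 3282000000, nat_lit 6250000000, nat_lit 7968000000], [], [nat_lit 22851410168, nat_lit 23638086848, nat_lit 20679792508, nat_lit 21415686329, nat_lit 25876340204, nat_lit 26751777387, nat_lit 23582974944, nat_lit 24281960472], nat_lit 1271250, nat_lit 1271250, nat_lit 279600, nat_lit 780000, nat_lit 1271250, nat_lit 1271250, [nat_lit 780000, nat_lit 1435000, nat_lit 1271250], [nat_lit 18, nat_lit 40, nat_lit 40, nat_lit 80]⟩, ⟨p063_k44, nat_lit 0, nat_lit 0, nat_lit 0, nat_lit 0, nat_lit 238920, [nat_lit 4688000000, nat_lit 7968000000], [], [nat_lit 13796001601, nat_lit 14814585727, nat_lit 11122564434, nat_lit 12049356533, nat_lit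 16007612508, nat_lit 16971833515, nat_lit 13135265064, nat_lit 13965464252], nat_lit 1271250, nat_lit 1271250, nat_lit 279600, nat_lit 780000, nat_lit 1271250, nat_lit 1271250, [nat_lit 1100000, nat_lit 1785000], [nat_lit 39, nat_lit 40, nat_lit 40, nat_lit 80]⟩,
 zbF0, [⟨nat_lit 0, nat_lit 100, nat_lit 96, nat_lit 74, nat_lit 931121396⟩, ⟨nat_lit 4, nat_lit 94, nat_lit 100, nat_lit 92, nat_lit 614888125⟩, ⟨nat_lit 11, nat_lit 100, nat_lit 87, nat_lit 59, nat_lit 111882417⟩]⟩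
noncomputable def p063_l99 : Lf2 := ⟨nat_lit 0, nat_lit 5, [nat_lit 4, nat_lit 5, nat_lit 5, nat_lit 20], false, nat_lit 280, nat_lit 312, nat_lit 160, nat_lit 240, ⟨nat_lit 802, nat_lit 145, nat_lit 53, nat_lit 6, nat_lit 147, nat_lit 198, nat_lit 222, nat_lit 53, nat_lit 2384, nat_lit 213, nat_lit 201667, nat_lit 325, nat_lit 44326048, nat_lit 7755499, nat_lit 14918453, nat_lit 4597080, false, false⟩,
 nat_lit 15643, nat_lit 0, nat_lit 0, nat_lit 0, nat_lit 5258, nat_lit 9105, nat_lit 2885, nat_lit 0, nat_lit 0, nat_lit 0, nat_lit 0, nat_lit 0, nat_lit 0, nat_lit 0, nat_lit 0, nat_lit 111000, nat_lit 0, nat_lit 0, [(nat_lit 12, [(nat_lit 1, nat_lit 145), (nat_lit 6, nat_lit 53)])],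
 ⟨p063_k39, nat_lit 0, nat_lit 0, nat_lit 0, nat_lit 0, nat_lit 254829, [nat_lit 2992565601, nat_lit 5312655200], [], [nat_lit 21095046658, nat_lit 21693476355, nat_lit 20598608277, nat_lit 21154310527, nat_lit 22849913133, nat_lit 23469010363, nat_lit 22228182353, nat_lit 22738264246], nat_lit 1271250, nat_lit 1271250, nat_lit 330400, nat_lit 780000, nat_lit 1271250, nat_lit 1271250, [nat_lit 780000, nat_lit 1435000], [nat_lit 49, nat_lit 40, nat_lit 40, nat_lit 80]⟩, ⟨p063_k44, nat_lit 0, nat_lit 0, nat_lit 0, nat_lit 0, nat_lit 299567, [nat_lit 3759776000, nat_lit 6390336000], [], [nat_lit 19298891442, nat_lit 16942107717, nat_lit 10900642102, nat_lit 10741108063, nat_lit 16675971314, nat_lit 15971924826, nat_lit 20403697744, nat_lit 18229023124], nat_lit 1271250, nat_lit 1271250, nat_lit 330400, nat_lit 780000, nat_lit 1100001, nat_lit 1785000, [nat_lit 1100000, nat_lit 1785000], [nat_lit 39, nat_lit 40, nat_lit 40,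 nat_lit 80]⟩,
 ⟨nat_lit 5000, nat_lit 5245, ⟨.ofNat (nat_lit 300739), .ofNat (nat_lit 417811), .ofNat (nat_lit 311431), .ofNat (nat_lit 428503), .ofNat (nat_lit 307141), .ofNat (nat_lit 421425), .ofNat (nat_lit 317856), .ofNat (nat_lit 432139)⟩, ⟨.ofNat (nat_lit 518028), .ofNat (nat_lit 576565), .ofNat (nat_lit 539414), .ofNat (nat_lit 597950), .ofNat (nat_lit 514284), .ofNat (nat_lit 571427), .ofNat (nat_lit 535713), .ofNat (nat_lit 592856)⟩⟩, [⟨nat_lit 0, nat_lit 100, nat_lit 93, nat_lit 78, nat_lit 286385395⟩, ⟨nat_lit 4, nat_lit 100, nat_lit 100, nat_lit 95, nat_lit 494358134⟩]⟩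
noncomputable def p063_l100 : Lf2 := ⟨nat_lit 0, nat_lit 5, [nat_lit 4, nat_lit 5, nat_lit 5, nat_lit 20], false, nat_lit 280, nat_lit 320, nat_lit 240, nat_lit 336, ⟨nat_lit 1000, nat_lit 0, nat_lit 0, nat_lit 0, nat_lit 0, nat_lit 0, nat_lit 0, nat_lit 0, nat_lit 0, nat_lit 0, nat_lit 0, nat_lit 0, nat_lit 0, nat_lit 0, nat_lit 0, nat_lit 0, false, false⟩,
 nat_lit 14130, nat_lit 0, nat_lit 0, nat_lit 0, nat_lit 6798, nat_lit 8224, nat_lit 1737, nat_lit 0, nat_lit 0, nat_lit 1430, nat_lit 0, nat_lit 0, nat_lit 0, nat_lit 0, nat_lit 0, nat_lit 0, nat_lit 0, nat_lit 0, [],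
 ⟨p063_k7, nat_lit 0, nat_lit 0, nat_lit 0, nat_lit 0, nat_lit 214089, [nat_lit 3282000000, nat_lit 4688000000, nat_lit 7968000000], [], [nat_lit 20942271743, nat_lit 21647780516, nat_lit 19374587136, nat_lit 20023841424, nat_lit 24372616472, nat_lit 25240948569, nat_lit 22233809856, nat_lit 23039087126], nat_lit 1271250, nat_lit 1271250, nat_lit 279600, nat_lit 780000, nat_lit 1271250, nat_lit 1271250, [nat_lit 780000, nat_lit 1100000, nat_lit 1785000], [nat_lit 36, nat_lit 40, nat_lit 40, nat_lit 80]⟩, ⟨p063_k8, nat_lit 0, nat_lit 0, nat_lit 0, nat_lit 0, nat_lit 238920, [nat_lit 4688000000, nat_lit 6250000000, nat_lit 7968000000], [], [nat_lit 18271379233, nat_lit 19036901271, nat_lit 16587953792, nat_lit 17162957248, nat_lit 26324555447, nat_lit 27094127718, nat_lit 23590292519, nat_lit 24101647119], nat_lit 1271250, nat_lit 1271250, nat_lit 279600, nat_lit 780000, nat_lit 1271250, nat_lit 1271250, [nat_lit 1100000,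 nat_lit 1442500, nat_lit 1271250], [nat_lit 9, nat_lit 40, nat_lit 40, nat_lit 80]⟩,
 zbF0, [⟨nat_lit 0, nat_lit 100, nat_lit 95, nat_lit 78, nat_lit 138080627⟩, ⟨nat_lit 4, nat_lit 94, nat_lit 100, nat_lit 92, nat_lit 23706066⟩, ⟨nat_lit 11, nat_lit 100, nat_lit 98, nat_lit 91, nat_lit 748581325⟩]⟩
noncomputable def p063_l101 : Lf2 := ⟨nat_lit 0, nat_lit 5, [nat_lit 4, nat_lit 5, nat_lit 5, nat_lit 20], false, nat_lit 280, nat_lit 312, nat_lit 240, nat_lit 336, ⟨nat_lit 876, nat_lit 0, nat_lit 124, nat_lit 6, nat_lit 147, nat_lit 124, nat_lit 222, nat_lit 124, nat_lit 2384, nat_lit 213, nat_lit 201667, nat_lit 325, nat_lit 44326048, nat_lit 0, nat_lit 0, nat_lit 4597080, false, false⟩,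
 nat_lit 10483, nat_lit 0, nat_lit 0, nat_lit 0, nat_lit 6961, nat_lit 6101, nat_lit 610, nat_lit 0, nat_lit 0, nat_lit 1660, nat_lit 0, nat_lit 0, nat_lit 0, nat_lit 0, nat_lit 0, nat_lit 29390, nat_lit 0, nat_lit 0, [(nat_lit 12, [(nat_lit 3, nat_lit 23), (nat_lit 4, nat_lit 101)])],
 ⟨p063_k3, nat_lit 0, nat_lit 0, nat_lit 0, nat_lit 0, nat_lit 254829, [nat_lit 4176386400, nat_lit 4154969601, nat_lit 5441640000], [], [nat_lit 21635797530, nat_lit 22414803805, nat_lit 20407217767, nat_lit 21065568261, nat_lit 24310331083, nat_lit 25210502931, nat_lit 22453825993, nat_lit 23293244274], nat_lit 1271250, nat_lit 1271250, nat_lit 330400, nat_lit 780000, nat_lit 1271250, nat_lit 1271250, [nat_lit 780000, nat_lit 1100000, nat_lit 1442500], [nat_lit 59, nat_lit 40, nat_lit 40, nat_lit 80]⟩, ⟨p063_k8, nat_lit 0, nat_lit 0, nat_lit 0, nat_lit 0, nat_lit 299567, [nat_lit 4106688000, nat_lit 5475000000, nat_lit 6979968000], [],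 [nat_lit 16569858714, nat_lit 17073192220, nat_lit 15786947684, nat_lit 16250444816, nat_lit 21747621824, nat_lit 22153325284, nat_lit 20657738390, nat_lit 21032388725], nat_lit 1271250, nat_lit 1271250, nat_lit 330400, nat_lit 780000, nat_lit 1271250, nat_lit 1271250, [nat_lit 1100000, nat_lit 1442500, nat_lit 1271250], [nat_lit 9, nat_lit 40, nat_lit 40, nat_lit 80]⟩,
 ⟨nat_lit 5000, nat_lit 5245, ⟨.ofNat (nat_lit 300739), .ofNat (nat_lit 417811), .ofNat (nat_lit 311431), .ofNat (nat_lit 428503), .ofNat (nat_lit 307141), .ofNat (nat_lit 421425), .ofNat (nat_lit 317856), .ofNat (nat_lit 432139)⟩, ⟨.ofNat (nat_lit 518028), .ofNat (nat_lit 576565), .ofNat (nat_lit 539414), .ofNat (nat_lit 597950), .ofNat (nat_lit 514284), .ofNat (nat_lit 571427), .ofNat (nat_lit 535713), .ofNat (nat_lit 592856)⟩⟩, [⟨nat_lit 0, nat_lit 100, nat_lit 92, nat_lit 82, nat_lit 202294307⟩, ⟨nat_lit 4, nat_lit 100, nat_lit 100, nat_lit 95, nat_lit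 190620153⟩, ⟨nat_lit 11, nat_lit 100, nat_lit 98, nat_lit 91, nat_lit 540203341⟩]⟩
noncomputable def p063_l102 : Lf2 := ⟨nat_lit 0, nat_lit 5, [nat_lit 4, nat_lit 5, nat_lit 5, nat_lit 20], false, nat_lit 280, nat_lit 320, nat_lit 0, nat_lit 336, ⟨nat_lit 0, nat_lit 0, nat_lit 1000, nat_lit 6, nat_lit 143, nat_lit 1000, nat_lit 226, nat_lit 1000, nat_lit 1855, nat_lit 206, nat_lit 190817, nat_lit 322, nat_lit 44251283, nat_lit 0, nat_lit 0, nat_lit 4582285, false, false⟩,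
 nat_lit 57143, nat_lit 100000, nat_lit 0, nat_lit 0, nat_lit 100000, nat_lit 0, nat_lit 7122, nat_lit 5169, nat_lit 0, nat_lit 21964, nat_lit 0, nat_lit 0, nat_lit 0, nat_lit 0, nat_lit 0, nat_lit 1000000, nat_lit 0, nat_lit 0, [(nat_lit 12, [(nat_lit 6, nat_lit 1000)])],
 ⟨p063_k1, nat_lit 0, nat_lit 0, nat_lit 205, nat_lit 0, nat_lit 268433, [nat_lit 63169200001, nat_lit 102252400001, nat_lit 120168400000], [], [nat_lit 79032546002, nat_lit 88854520203, nat_lit 42010208002, nat_lit 50679427002, nat_lit 100138418401, nat_lit 111820802802, nat_lit 57316596002, nat_lit 67368642001], nat_lit 1271250, nat_lit 1271250, nat_lit 279600, nat_lit 780000, nat_lit 1271250, nat_lit 1271250, [nat_lit 780000, nat_lit 1435000, nat_lit 1271250], [nat_lit 18, nat_lit 40, nat_lit 40, nat_lit 80, nat_lit 2, nat_lit 238, nat_lit 30, nat_lit 7]⟩, ⟨p063_k44, nat_lit 0, nat_lit 0, nat_lit 0, nat_lit 0, nat_lit 299567, [nat_lit 0, nat_lit 0],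 [], [nat_lit 0, nat_lit 0, nat_lit 0, nat_lit 0, nat_lit 0, nat_lit 0, nat_lit 0, nat_lit 0], nat_lit 1271250, nat_lit 1271250, nat_lit 279600, nat_lit 780000, nat_lit 0, nat_lit 2373000, [nat_lit 1100000, nat_lit 1785000], [nat_lit 39, nat_lit 40, nat_lit 40, nat_lit 80]⟩,
 ⟨nat_lit 5000, nat_lit 5478, ⟨.ofNat (nat_lit 279324), .ofNat (nat_lit 414199), .ofNat (nat_lit 290003), .ofNat (nat_lit 424874), .ofNat (nat_lit 292856), .ofNat (nat_lit 421423), .ofNat (nat_lit 303570), .ofNat (nat_lit 432134)⟩, ⟨.ofNat (nat_lit 521722), .ofNat (nat_lit 596655), .ofNat (nat_lit 543079), .ofNat (nat_lit 618012), .ofNat (nat_lit 514284), .ofNat (nat_lit 585713), .ofNat (nat_lit 535713), .ofNat (nat_lit 607141)⟩⟩, [⟨nat_lit 0, nat_lit 100, nat_lit 92, nat_lit 82, nat_lit 2993059280⟩, ⟨nat_lit 4, nat_lit 97, nat_lit 100, nat_lit 94, nat_lit 7356453632⟩]⟩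
noncomputable def p063_l103 : Lf2 := ⟨nat_lit 0, nat_lit 5, [nat_lit 4, nat_lit 5, nat_lit 5, nat_lit 20], false, nat_lit 280, nat_lit 336, nat_lit 0, nat_lit 160, ⟨nat_lit 1000, nat_lit 0, nat_lit 0, nat_lit 0, nat_lit 0, nat_lit 0, nat_lit 0, nat_lit 0, nat_lit 0, nat_lit 0, nat_lit 0, nat_lit 0, nat_lit 0, nat_lit 0, nat_lit 0, nat_lit 0, false, false⟩,
 nat_lit 20610, nat_lit 0, nat_lit 0, nat_lit 0, nat_lit 5913, nat_lit 11996, nat_lit 1614, nat_lit 0, nat_lit 0, nat_lit 2135, nat_lit 0, nat_lit 0, nat_lit 0, nat_lit 0, nat_lit 0, nat_lit 0, nat_lit 0, nat_lit 0, [],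
 ⟨p063_k7, nat_lit 0, nat_lit 0, nat_lit 181, nat_lit 0, nat_lit 207611, [nat_lit 3282000000, nat_lit 4688000000, nat_lit 7968000000], [], [nat_lit 21696973055, nat_lit 23005077138, nat_lit 20535235792, nat_lit 21719054772, nat_lit 25348838369, nat_lit 26645718788, nat_lit 24020675465, nat_lit 25220613330], nat_lit 1271250, nat_lit 1271250, nat_lit 279600, nat_lit 780000, nat_lit 1271250, nat_lit 1271250, [nat_lit 780000, nat_lit 1100000, nat_lit 1785000], [nat_lit 36, nat_lit 40, nat_lit 40, nat_lit 80, nat_lit 7, nat_lit 238, nat_lit 30, nat_lit 7]⟩, ⟨p063_k8, nat_lit 0, nat_lit 0, nat_lit 0, nat_lit 0, nat_lit 232180, [nat_lit 4688000000, nat_lit 6250000000, nat_lit 7968000000], [], [nat_lit 21160945180, nat_lit 23232040830, nat_lit 15714378672, nat_lit 17660275928, nat_lit 19030969574, nat_lit 16173572757, nat_lit 24707865666, nat_lit 21919383470], nat_lit 1271250, nat_lit 1271250, nat_lit 279600, nat_lit 780000, nat_lit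 0, nat_lit 1100001, [nat_lit 1100000, nat_lit 1442500, nat_lit 1271250], [nat_lit 9, nat_lit 40, nat_lit 40, nat_lit 80]⟩,
 zbF0, [⟨nat_lit 0, nat_lit 100, nat_lit 94, nat_lit 76, nat_lit 360303636⟩, ⟨nat_lit 4, nat_lit 90, nat_lit 100, nat_lit 100, nat_lit 570249240⟩]⟩
noncomputable def p063_l104 : Lf2 := ⟨nat_lit 0, nat_lit 5, [nat_lit 4, nat_lit 5, nat_lit 5, nat_lit 20], false, nat_lit 280, nat_lit 336, nat_lit 160, nat_lit 240, ⟨nat_lit 1000, nat_lit 0, nat_lit 0, nat_lit 0, nat_lit 0, nat_lit 0, nat_lit 0, nat_lit 0, nat_lit 0, nat_lit 0, nat_lit 0, nat_lit 0, nat_lit 0, nat_lit 0, nat_lit 0, nat_lit 0, false, false⟩,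
 nat_lit 18292, nat_lit 0, nat_lit 0, nat_lit 0, nat_lit 5998, nat_lit 10647, nat_lit 1691, nat_lit 0, nat_lit 0, nat_lit 1658, nat_lit 0, nat_lit 0, nat_lit 0, nat_lit 0, nat_lit 0, nat_lit 0, nat_lit 0, nat_lit 0, [],
 ⟨p063_k7, nat_lit 0, nat_lit 0, nat_lit 163, nat_lit 0, nat_lit 151935, [nat_lit 3282000000, nat_lit 4688000000, nat_lit 7968000000], [], [nat_lit 21407742703, nat_lit 22066736916, nat_lit 20186151536, nat_lit 20794001024, nat_lit 25342372616, nat_lit 25995658910, nat_lit 23975481781, nat_lit 24579781481], nat_lit 1271250, nat_lit 1271250, nat_lit 279600, nat_lit 780000, nat_lit 1271250, nat_lit 1271250, [nat_lit 780000, nat_lit 1100000, nat_lit 1785000], [nat_lit 36, nat_lit 40, nat_lit 40, nat_lit 80, nat_lit 7, nat_lit 238, nat_lit 30, nat_lit 7]⟩, ⟨p063_k8, nat_lit 0, nat_lit 0, nat_lit 0, nat_lit 0, nat_lit 169916, [nat_lit 4688000000, nat_lit 6250000000, nat_lit 7968000000], [], [nat_lit 11637075334,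 nat_lit 12742982218, nat_lit 9257755498, nat_lit 10264542493, nat_lit 16009950347, nat_lit 16908365697, nat_lit 17393796680, nat_lit 14815316867], nat_lit 1271250, nat_lit 1271250, nat_lit 279600, nat_lit 780000, nat_lit 1100001, nat_lit 1785000, [nat_lit 1100000, nat_lit 1442500, nat_lit 1271250], [nat_lit 9, nat_lit 40, nat_lit 40, nat_lit 80]⟩,
 zbF0, [⟨nat_lit 0, nat_lit 100, nat_lit 95, nat_lit 78, nat_lit 386324936⟩, ⟨nat_lit 16, nat_lit 100, nat_lit 87, nat_lit 99, nat_lit 326024204⟩, ⟨nat_lit 23, nat_lit 91, nat_lit 100, nat_lit 88, nat_lit 324784451⟩]⟩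
noncomputable def p063_l105 : Lf2 := ⟨nat_lit 0, nat_lit 5, [nat_lit 4, nat_lit 5, nat_lit 5, nat_lit 20], false, nat_lit 280, nat_lit 328, nat_lit 160, nat_lit 240, ⟨nat_lit 1000, nat_lit 0, nat_lit 0, nat_lit 0, nat_lit 0, nat_lit 0, nat_lit 0, nat_lit 0, nat_lit 0, nat_lit 0, nat_lit 0, nat_lit 0, nat_lit 0, nat_lit 0, nat_lit 0, nat_lit 0, false, false⟩,
 nat_lit 22374, nat_lit 0, nat_lit 0, nat_lit 0, nat_lit 5105, nat_lit 13023, nat_lit 3422, nat_lit 0, nat_lit 0, nat_lit 162, nat_lit 0, nat_lit 0, nat_lit 0, nat_lit 0, nat_lit 0, nat_lit 0, nat_lit 0, nat_lit 0, [],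
 ⟨p063_k3, nat_lit 0, nat_lit 0, nat_lit 149, nat_lit 0, nat_lit 196898, [nat_lit 3282000000, nat_lit 4688000000, nat_lit 6250000000], [], [nat_lit 21089004438, nat_lit 21723052530, nat_lit 20710354005, nat_lit 21299082990, nat_lit 23977793200, nat_lit 24609583113, nat_lit 23394672609, nat_lit 23910670682], nat_lit 1271250, nat_lit 1271250, nat_lit 330400, nat_lit 780000, nat_lit 1271250, nat_lit 1271250, [nat_lit 780000, nat_lit 1100000, nat_lit 1442500], [nat_lit 59, nat_lit 40, nat_lit 40, nat_lit 80, nat_lit 3, nat_lit 238, nat_lit 30, nat_lit 8]⟩, ⟨p063_k8, nat_lit 0, nat_lit 0, nat_lit 0, nat_lit 0, nat_lit 232180, [nat_lit 4688000000, nat_lit 6250000000, nat_lit 7968000000], [], [nat_lit 23281919987, nat_lit 19910981552, nat_lit 9831904282, nat_lit 10990957237, nat_lit 17319341032, nat_lit 18339287162, nat_lit 15114267120, nat_lit 15140983066], nat_lit 1271250, nat_lit 1271250, nat_lit 330400, nat_lit 780000, nat_lit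 1100001, nat_lit 1785000, [nat_lit 1100000, nat_lit 1442500, nat_lit 1271250], [nat_lit 9, nat_lit 40, nat_lit 40, nat_lit 80]⟩,
 zbF0, [⟨nat_lit 0, nat_lit 100, nat_lit 93, nat_lit 78, nat_lit 1110563530⟩, ⟨nat_lit 4, nat_lit 92, nat_lit 99, nat_lit 100, nat_lit 562266301⟩]⟩
noncomputable def p063_l106 : Lf2 := ⟨nat_lit 0, nat_lit 5, [nat_lit 4, nat_lit 5, nat_lit 5, nat_lit 20], false, nat_lit 280, nat_lit 336, nat_lit 240, nat_lit 336, ⟨nat_lit 1000, nat_lit 0, nat_lit 0, nat_lit 0, nat_lit 0, nat_lit 0, nat_lit 0, nat_lit 0, nat_lit 0, nat_lit 0, nat_lit 0, nat_lit 0, nat_lit 0, nat_lit 0, nat_lit 0, nat_lit 0, false, false⟩,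
 nat_lit 10222, nat_lit 0, nat_lit 3908, nat_lit 0, nat_lit 6504, nat_lit 8224, nat_lit 1696, nat_lit 0, nat_lit 0, nat_lit 1510, nat_lit 0, nat_lit 0, nat_lit 0, nat_lit 0, nat_lit 0, nat_lit 0, nat_lit 0, nat_lit 0, [],
 ⟨p063_k7, nat_lit 0, nat_lit 0, nat_lit 181, nat_lit 0, nat_lit 207611, [nat_lit 3282000000, nat_lit 4688000000, nat_lit 7968000000], [], [nat_lit 21193448196, nat_lit 22570277541, nat_lit 19752952928, nat_lit 21021028976, nat_lit 25830722735, nat_lit 27426265943, nat_lit 23713672468, nat_lit 25196886922], nat_lit 1271250, nat_lit 1271250, nat_lit 279600, nat_lit 780000, nat_lit 1271250, nat_lit 1271250, [nat_lit 780000, nat_lit 1100000, nat_lit 1785000], [nat_lit 36, nat_lit 40, nat_lit 40, nat_lit 80, nat_lit 7, nat_lit 238, nat_lit 30, nat_lit 7]⟩, ⟨p063_k8, nat_lit 0, nat_lit 0, nat_lit 0, nat_lit 0, nat_lit 232180, [nat_lit 4688000000, nat_lit 6250000000, nat_lit 7968000000], [], [nat_lit 18079379233,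 nat_lit 18844901271, nat_lit 16395953792, nat_lit 16970957248, nat_lit 26324555447, nat_lit 27094127718, nat_lit 23398292519, nat_lit 24101647119], nat_lit 1271250, nat_lit 1271250, nat_lit 279600, nat_lit 780000, nat_lit 1271250, nat_lit 1271250, [nat_lit 1100000, nat_lit 1442500, nat_lit 1271250], [nat_lit 9, nat_lit 40, nat_lit 40, nat_lit 80]⟩,
 zbF0, [⟨nat_lit 0, nat_lit 100, nat_lit 92, nat_lit 82, nat_lit 114534689⟩, ⟨nat_lit 11, nat_lit 100, nat_lit 98, nat_lit 91, nat_lit 759922017⟩]⟩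
noncomputable def p063_l107 : Lf2 := ⟨nat_lit 0, nat_lit 5, [nat_lit 4, nat_lit 5, nat_lit 5, nat_lit 20], false, nat_lit 280, nat_lit 336, nat_lit 0, nat_lit 160, ⟨nat_lit 1000, nat_lit 0, nat_lit 0, nat_lit 0, nat_lit 0, nat_lit 0, nat_lit 0, nat_lit 0, nat_lit 0, nat_lit 0, nat_lit 0, nat_lit 0, nat_lit 0, nat_lit 0, nat_lit 0, nat_lit 0, false, false⟩,
 nat_lit 20189, nat_lit 0, nat_lit 0, nat_lit 0, nat_lit 6560, nat_lit 12295, nat_lit 1675, nat_lit 0, nat_lit 0, nat_lit 1592, nat_lit 0, nat_lit 0, nat_lit 0, nat_lit 0, nat_lit 0, nat_lit 0, nat_lit 0, nat_lit 0, [],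
 ⟨p063_k7, nat_lit 0, nat_lit 0, nat_lit 246, nat_lit 0, nat_lit 329172, [nat_lit 3282000000, nat_lit 4688000000, nat_lit 7968000000], [], [nat_lit 21851973737, nat_lit 23147566249, nat_lit 21141888320, nat_lit 22256044120, nat_lit 25586664295, nat_lit 27130829505, nat_lit 24472290336, nat_lit 25536474449], nat_lit 1271250, nat_lit 1271250, nat_lit 330400, nat_lit 780000, nat_lit 1271250, nat_lit 1271250, [nat_lit 780000, nat_lit 1100000, nat_lit 1785000], [nat_lit 36, nat_lit 40, nat_lit 40, nat_lit 80, nat_lit 7, nat_lit 238, nat_lit 30, nat_lit 7]⟩, ⟨p063_k45, nat_lit 0, nat_lit 0, nat_lit 0, nat_lit 0, nat_lit 347745, [nat_lit 4688000000, nat_lit 6250000000, nat_lit 7968000000], [], [nat_lit 25128087148, nat_lit 24720507120, nat_lit 17857770810, nat_lit 19841397680, nat_lit 15564914226, nat_lit 12644266484, nat_lit 21027866025, nat_lit 18169880980], nat_lit 1271250, nat_lit 1271250, nat_lit 330400, nat_lit 780000,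 nat_lit 0, nat_lit 1100001, [nat_lit 1100000, nat_lit 1442500, nat_lit 1271250], [nat_lit 9, nat_lit 40, nat_lit 40, nat_lit 80]⟩,
 zbF0, [⟨nat_lit 0, nat_lit 100, nat_lit 96, nat_lit 81, nat_lit 663654061⟩, ⟨nat_lit 4, nat_lit 94, nat_lit 100, nat_lit 97, nat_lit 626675308⟩]⟩
noncomputable def p063_l108 : Lf2 := ⟨nat_lit 0, nat_lit 5, [nat_lit 4, nat_lit 5, nat_lit 5, nat_lit 20], false, nat_lit 280, nat_lit 336, nat_lit 160, nat_lit 240, ⟨nat_lit 1000, nat_lit 0, nat_lit 0, nat_lit 0, nat_lit 0, nat_lit 0, nat_lit 0, nat_lit 0, nat_lit 0, nat_lit 0, nat_lit 0, nat_lit 0, nat_lit 0, nat_lit 0, nat_lit 0, nat_lit 0, false, false⟩,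
 nat_lit 18875, nat_lit 0, nat_lit 0, nat_lit 0, nat_lit 6581, nat_lit 11495, nat_lit 1681, nat_lit 0, nat_lit 0, nat_lit 1119, nat_lit 0, nat_lit 0, nat_lit 0, nat_lit 0, nat_lit 0, nat_lit 0, nat_lit 0, nat_lit 0, [],
 ⟨p063_k7, nat_lit 0, nat_lit 0, nat_lit 246, nat_lit 0, nat_lit 329172, [nat_lit 3282000000, nat_lit 4688000000, nat_lit 7968000000], [], [nat_lit 21802577714, nat_lit 23117810630, nat_lit 21086616782, nat_lit 22202592862, nat_lit 25561244850, nat_lit 27156979553, nat_lit 24439530034, nat_lit 25505368215], nat_lit 1271250, nat_lit 1271250, nat_lit 330400, nat_lit 780000, nat_lit 1271250, nat_lit 1271250, [nat_lit 780000, nat_lit 1100000, nat_lit 1785000], [nat_lit 36, nat_lit 40, nat_lit 40, nat_lit 80, nat_lit 7, nat_lit 238, nat_lit 30, nat_lit 7]⟩, ⟨p063_k45, nat_lit 0, nat_lit 0, nat_lit 0, nat_lit 0, nat_lit 347745, [nat_lit 4688000000, nat_lit 6250000000, nat_lit 7968000000], [], [nat_lit 21021521868,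 nat_lit 18046098593, nat_lit 10084882530, nat_lit 11146013605, nat_lit 16677402230, nat_lit 17881533492, nat_lit 14005520415, nat_lit 14864284925], nat_lit 1271250, nat_lit 1271250, nat_lit 330400, nat_lit 780000, nat_lit 1100001, nat_lit 1785000, [nat_lit 1100000, nat_lit 1442500, nat_lit 1271250], [nat_lit 9, nat_lit 40, nat_lit 40, nat_lit 80]⟩,
 zbF0, [⟨nat_lit 0, nat_lit 100, nat_lit 96, nat_lit 81, nat_lit 767030509⟩, ⟨nat_lit 0, nat_lit 100, nat_lit 98, nat_lit 74, nat_lit 176660653⟩, ⟨nat_lit 16, nat_lit 100, nat_lit 80, nat_lit 100, nat_lit 394730161⟩, ⟨nat_lit 4, nat_lit 94, nat_lit 100, nat_lit 97, nat_lit 204681376⟩]⟩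
noncomputable def p063_l109 : Lf2 := ⟨nat_lit 0, nat_lit 5, [nat_lit 4, nat_lit 5, nat_lit 5, nat_lit 20], false, nat_lit 280, nat_lit 336, nat_lit 240, nat_lit 336, ⟨nat_lit 1000, nat_lit 0, nat_lit 0, nat_lit 0, nat_lit 0, nat_lit 0, nat_lit 0, nat_lit 0, nat_lit 0, nat_lit 0, nat_lit 0, nat_lit 0, nat_lit 0, nat_lit 0, nat_lit 0, nat_lit 0, false, false⟩,
 nat_lit 12925, nat_lit 0, nat_lit 0, nat_lit 0, nat_lit 7510, nat_lit 7871, nat_lit 1526, nat_lit 0, nat_lit 0, nat_lit 1501, nat_lit 0, nat_lit 0, nat_lit 0, nat_lit 0, nat_lit 0, nat_lit 0, nat_lit 0, nat_lit 0, [],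
 ⟨p063_k7, nat_lit 0, nat_lit 0, nat_lit 193, nat_lit 0, nat_lit 274090, [nat_lit 3282000000, nat_lit 4688000000, nat_lit 7968000000], [], [nat_lit 21050417516, nat_lit 21791991227, nat_lit 19606003080, nat_lit 20176684980, nat_lit 26587877727, nat_lit 27450842806, nat_lit 24359541368, nat_lit 25165338236], nat_lit 1271250, nat_lit 1271250, nat_lit 330400, nat_lit 780000, nat_lit 1271250, nat_lit 1271250, [nat_lit 780000, nat_lit 1100000, nat_lit 1785000], [nat_lit 36, nat_lit 40, nat_lit 40, nat_lit 80, nat_lit 7, nat_lit 238, nat_lit 30, nat_lit 7]⟩, ⟨p063_k45, nat_lit 0, nat_lit 0, nat_lit 0, nat_lit 0, nat_lit 289555, [nat_lit 4688000000, nat_lit 6250000000, nat_lit 7968000000], [], [nat_lit 18310823301, nat_lit 18922998645, nat_lit 17089247567, nat_lit 17651386291, nat_lit 26240606591, nat_lit 26987047210, nat_lit 23892215184, nat_lit 24591309433], nat_lit 1271250, nat_lit 1271250, nat_lit 330400, nat_lit 780000,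 nat_lit 1271250, nat_lit 1271250, [nat_lit 1100000, nat_lit 1442500, nat_lit 1271250], [nat_lit 9, nat_lit 40, nat_lit 40, nat_lit 80]⟩,
 zbF0, [⟨nat_lit 0, nat_lit 100, nat_lit 97, nat_lit 84, nat_lit 111196650⟩, ⟨nat_lit 4, nat_lit 91, nat_lit 100, nat_lit 96, nat_lit 77350390⟩, ⟨nat_lit 11, nat_lit 100, nat_lit 97, nat_lit 92, nat_lit 748558161⟩]⟩
noncomputable def p063_l110 : Lf2 := ⟨nat_lit 0, nat_lit 5, [nat_lit 4, nat_lit 5, nat_lit 5, nat_lit 20], false, nat_lit 280, nat_lit 328, nat_lit 240, nat_lit 336, ⟨nat_lit 1000, nat_lit 0, nat_lit 0, nat_lit 0, nat_lit 0, nat_lit 0, nat_lit 0, nat_lit 0, nat_lit 0, nat_lit 0, nat_lit 0, nat_lit 0, nat_lit 0, nat_lit 0, nat_lit 0, nat_lit 0, false, false⟩,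
 nat_lit 11546, nat_lit 0, nat_lit 0, nat_lit 0, nat_lit 7021, nat_lit 7031, nat_lit 997, nat_lit 0, nat_lit 0, nat_lit 1675, nat_lit 0, nat_lit 0, nat_lit 0, nat_lit 0, nat_lit 0, nat_lit 0, nat_lit 0, nat_lit 0, [],
 ⟨p063_k3, nat_lit 0, nat_lit 0, nat_lit 179, nat_lit 0, nat_lit 312187, [nat_lit 3282000000, nat_lit 4688000000, nat_lit 6250000000], [], [nat_lit 21433082114, nat_lit 22091013974, nat_lit 20559115363, nat_lit 21162774364, nat_lit 25592070483, nat_lit 26440779340, nat_lit 23991101737, nat_lit 24788772241], nat_lit 1271250, nat_lit 1271250, nat_lit 382400, nat_lit 780000, nat_lit 1271250, nat_lit 1271250, [nat_lit 780000, nat_lit 1100000, nat_lit 1442500], [nat_lit 59, nat_lit 40, nat_lit 40, nat_lit 80, nat_lit 3, nat_lit 238, nat_lit 30, nat_lit 8]⟩, ⟨p063_k46, nat_lit 0, nat_lit 0, nat_lit 0, nat_lit 0, nat_lit 347745, [nat_lit 3965500000, nat_lit 5449500000, nat_lit 7089500000], [], [nat_lit 19512608436,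 nat_lit 20007392042, nat_lit 18941345532, nat_lit 19398868946, nat_lit 24768304706, nat_lit 25467154166, nat_lit 23827732857, nat_lit 24228395394], nat_lit 1271250, nat_lit 1271250, nat_lit 382400, nat_lit 780000, nat_lit 1271250, nat_lit 1271250, [nat_lit 936250, nat_lit 1271250, nat_lit 1271250], [nat_lit 230, nat_lit 40, nat_lit 20, nat_lit 40]⟩,
 zbF0, [⟨nat_lit 0, nat_lit 100, nat_lit 94, nat_lit 88, nat_lit 189598371⟩, ⟨nat_lit 4, nat_lit 97, nat_lit 100, nat_lit 98, nat_lit 180042770⟩, ⟨nat_lit 11, nat_lit 100, nat_lit 100, nat_lit 96, nat_lit 554649984⟩]⟩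
noncomputable def p063_l111 : Lf2 := ⟨nat_lit 0, nat_lit 5, [nat_lit 4, nat_lit 5, nat_lit 5, nat_lit 20], false, nat_lit 280, nat_lit 336, nat_lit 0, nat_lit 160, ⟨nat_lit 0, nat_lit 0, nat_lit 1000, nat_lit 6, nat_lit 145, nat_lit 1000, nat_lit 236, nat_lit 1000, nat_lit 67422, nat_lit 200, nat_lit 198017, nat_lit 324, nat_lit 43254836, nat_lit 0, nat_lit 0, nat_lit 4669410, false, false⟩,
 nat_lit 71795, nat_lit 0, nat_lit 100000, nat_lit 0, nat_lit 3187, nat_lit 100000, nat_lit 0, nat_lit 0, nat_lit 0, nat_lit 44180, nat_lit 8719, nat_lit 0, nat_lit 0, nat_lit 0, nat_lit 162, nat_lit 1000000, nat_lit 0, nat_lit 0, [(nat_lit 12, [(nat_lit 6, nat_lit 1000)])],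
 ⟨p063_k7, nat_lit 0, nat_lit 0, nat_lit 251, nat_lit 0, nat_lit 329172, [nat_lit 2853600000, nat_lit 3424400001, nat_lit 150266667], [], [nat_lit 19671768760, nat_lit 20555566087, nat_lit 19935950116, nat_lit 20757734276, nat_lit 22142516749, nat_lit 23039282678, nat_lit 22234337108, nat_lit 22960050820], nat_lit 1271250, nat_lit 1271250, nat_lit 279600, nat_lit 780000, nat_lit 1271250, nat_lit 1271250, [nat_lit 780000, nat_lit 1100000, nat_lit 1785000], [nat_lit 36, nat_lit 40, nat_lit 40, nat_lit 80, nat_lit 7, nat_lit 238, nat_lit 30, nat_lit 7]⟩, ⟨p063_k8, nat_lit 0, nat_lit 0, nat_lit 328, nat_lit 0, nat_lit 368127, [nat_lit 139504000000, nat_lit 174380000000, nat_lit 209256000000], [], [nat_lit 392393880000, nat_lit 340470480000, nat_lit 255309475000, nat_lit 263710237500, nat_lit 211620277501, nat_lit 219660000000, nat_lit 184099200000, nat_lit 191197600000], nat_lit 1271250, nat_lit 1271250, nat_lit 279600, nat_lit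 780000, nat_lit 0, nat_lit 1100001, [nat_lit 1100000, nat_lit 1442500, nat_lit 1271250], [nat_lit 9, nat_lit 40, nat_lit 40, nat_lit 80, nat_lit 2, nat_lit 289, nat_lit 75, nat_lit 10]⟩,
 ⟨nat_lit 5000, nat_lit 5478, ⟨.ofNat (nat_lit 279324), .ofNat (nat_lit 414199), .ofNat (nat_lit 300681), .ofNat (nat_lit 435548), .ofNat (nat_lit 292856), .ofNat (nat_lit 421423), .ofNat (nat_lit 314284), .ofNat (nat_lit 442843)⟩, ⟨.ofNat (nat_lit 521722), .ofNat (nat_lit 626629), .ofNat (nat_lit 564436), .ofNat (nat_lit 669336), .ofNat (nat_lit 514284), .ofNat (nat_lit 614284), .ofNat (nat_lit 557141), .ofNat (nat_lit 657134)⟩⟩, [⟨nat_lit 0, nat_lit 100, nat_lit 94, nat_lit 88, nat_lit 2222328266⟩, ⟨nat_lit 21, nat_lit 100, nat_lit 3, nat_lit 98, nat_lit 99158545⟩]⟩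
noncomputable def p063_l112 : Lf2 := ⟨nat_lit 0, nat_lit 5, [nat_lit 4, nat_lit 5, nat_lit 5, nat_lit 20], false, nat_lit 280, nat_lit 336, nat_lit 160, nat_lit 336, ⟨nat_lit 0, nat_lit 1000, nat_lit 0, nat_lit 6, nat_lit 145, nat_lit 1000, nat_lit 236, nat_lit 0, nat_lit 0, nat_lit 0, nat_lit 0, nat_lit 0, nat_lit 43254836, nat_lit 7508208, nat_lit 16236956, nat_lit 4669410, false, false⟩,
 nat_lit 71795, nat_lit 0, nat_lit 100000, nat_lit 0, nat_lit 5308, nat_lit 100000, nat_lit 746, nat_lit 0, nat_lit 0, nat_lit 44128, nat_lit 10538, nat_lit 0, nat_lit 0, nat_lit 0, nat_lit 0, nat_lit 306550, nat_lit 0, nat_lit 0, [(nat_lit 12, [(nat_lit 0, nat_lit 623), (nat_lit 1, nat_lit 377)])],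
 ⟨p063_k7, nat_lit 0, nat_lit 0, nat_lit 251, nat_lit 0, nat_lit 329172, [nat_lit 2239363800, nat_lit 2544397600, nat_lit 3038318667], [], [nat_lit 19889735698, nat_lit 21364927858, nat_lit 19118207531, nat_lit 20112916216, nat_lit 24417094365, nat_lit 25844465525, nat_lit 22945820375, nat_lit 24276408964], nat_lit 1271250, nat_lit 1271250, nat_lit 279600, nat_lit 780000, nat_lit 1271250, nat_lit 1271250, [nat_lit 780000, nat_lit 1100000, nat_lit 1785000], [nat_lit 36, nat_lit 40, nat_lit 40, nat_lit 80, nat_lit 7, nat_lit 238, nat_lit 30, nat_lit 7]⟩, ⟨p063_k8, nat_lit 0, nat_lit 0, nat_lit 262, nat_lit 0, nat_lit 368127, [nat_lit 168608000000, nat_lit 210760000000, nat_lit 252912000000], [], [nat_lit 311097880000, nat_lit 259174480000, nat_lit 217755600000, nat_lit 225199400000, nat_lit 291324280001, nat_lit 294596212001, nat_lit 253530080000, nat_lit 256623060000], nat_lit 1271250, nat_lit 1271250, nat_lit 279600, nat_lit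 780000, nat_lit 1100001, nat_lit 2607000, [nat_lit 1100000, nat_lit 1442500, nat_lit 1271250], [nat_lit 9, nat_lit 40, nat_lit 40, nat_lit 80, nat_lit 2, nat_lit 345, nat_lit 125, nat_lit 11]⟩,
 ⟨nat_lit 5000, nat_lit 5478, ⟨.ofNat (nat_lit 279324), .ofNat (nat_lit 414199), .ofNat (nat_lit 300681), .ofNat (nat_lit 435548), .ofNat (nat_lit 292856), .ofNat (nat_lit 421423), .ofNat (nat_lit 314284), .ofNat (nat_lit 442843)⟩, ⟨.ofNat (nat_lit 521722), .ofNat (nat_lit 626629), .ofNat (nat_lit 564436), .ofNat (nat_lit 669336), .ofNat (nat_lit 514284), .ofNat (nat_lit 614284), .ofNat (nat_lit 557141), .ofNat (nat_lit 657134)⟩⟩, [⟨nat_lit 7, nat_lit 82, nat_lit 100, nat_lit 92, nat_lit 3337501459⟩, ⟨nat_lit 11, nat_lit 100, nat_lit 100, nat_lit 92, nat_lit 2819017556⟩]⟩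
noncomputable def b_V_700_600_20_35 : St := ⟨true, nat_lit 1, nat_lit 1, nat_lit 1, nat_lit 120, nat_lit 280, nat_lit 300, nat_lit 260, nat_lit 280, nat_lit 48, nat_lit 120, nat_lit 80, nat_lit 120, nat_lit 280, nat_lit 336, nat_lit 0, nat_lit 336, nat_lit 0, nat_lit 20, nat_lit 0, nat_lit 0, nat_lit 0, nat_lit 0⟩
theorem d_V_700_600_20_35 (h : EB TB.env) : Dead b_V_700_600_20_35 := chkB_sound0 h (T :=
(.spl (nat_lit 8) (nat_lit 800)
(.spl (nat_lit 1) (nat_lit 270)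
(.spl (nat_lit 3) (nat_lit 100)
(.trX (nat_lit 16) (nat_lit 100) (nat_lit 88) (nat_lit 94) (nat_lit 320) (.spl (nat_lit 7) (nat_lit 600)
(.spl (nat_lit 5) (nat_lit 160)
(.spl (nat_lit 5) (nat_lit 80)
(.leaf p063_l95)
(.leaf p063_l96))
(.spl (nat_lit 5) (nat_lit 240)
(.spl (nat_lit 0) (nat_lit 290)
(.spl (nat_lit 5) (nat_lit 200)
(.leaf p063_l97)
(.leaf p063_l98))
(.trZ (nat_lit 0) (nat_lit 100) (nat_lit 94) (nat_lit 73) (nat_lit 56) (.trX (nat_lit 16) (nat_lit 100) (nat_lit 94) (nat_lit 97) (nat_lit 312) (.leaf p063_l99))))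
(.spl (nat_lit 0) (nat_lit 290)
(.leaf p063_l100)
(.trZ (nat_lit 0) (nat_lit 100) (nat_lit 94) (nat_lit 73) (nat_lit 56) (.trX (nat_lit 16) (nat_lit 100) (nat_lit 94) (nat_lit 97) (nat_lit 312) (.leaf p063_l101))))))
(.leaf p063_l102)))
(.spl (nat_lit 5) (nat_lit 160)
(.leaf p063_l103)
(.spl (nat_lit 5) (nat_lit 240)
(.spl (nat_lit 0) (nat_lit 290)
(.leaf p063_l104)
(.trZ (nat_lit 0) (nat_lit 100) (nat_lit 94) (nat_lit 73) (nat_lit 56) (.trX (nat_lit 16) (nat_lit 97) (nat_lit 84) (nat_lit 100) (nat_lit 328) (.leaf p063_l105))))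
(.leaf p063_l106))))
(.trZ (nat_lit 0) (nat_lit 100) (nat_lit 98) (nat_lit 74) (nat_lit 56) (.spl (nat_lit 5) (nat_lit 160)
(.leaf p063_l107)
(.spl (nat_lit 5) (nat_lit 240)
(.leaf p063_l108)
(.spl (nat_lit 0) (nat_lit 290)
(.leaf p063_l109)
(.trZ (nat_lit 0) (nat_lit 100) (nat_lit 95) (nat_lit 78) (nat_lit 64) (.trX (nat_lit 16) (nat_lit 97) (nat_lit 84) (nat_lit 100) (nat_lit 328) (.leaf p063_l110))))))))
(.spl (nat_lit 5) (nat_lit 160)
(.leaf p063_l111)
(.leaf p063_l112)))) (by decide +kernel)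
noncomputable def p063_l113 : Lf2 := ⟨nat_lit 0, nat_lit 10, [nat_lit 0, nat_lit 5, nat_lit 5, nat_lit 20], false, nat_lit 280, nat_lit 320, nat_lit 0, nat_lit 160, ⟨nat_lit 1000, nat_lit 0, nat_lit 0, nat_lit 0, nat_lit 0, nat_lit 0, nat_lit 0, nat_lit 0, nat_lit 0, nat_lit 0, nat_lit 0, nat_lit 0, nat_lit 0, nat_lit 0, nat_lit 0, nat_lit 0, false, false⟩,
 nat_lit 17051, nat_lit 0, nat_lit 0, nat_lit 22783, nat_lit 6606, nat_lit 9925, nat_lit 1792, nat_lit 0, nat_lit 0, nat_lit 2476, nat_lit 0, nat_lit 0, nat_lit 0, nat_lit 0, nat_lit 0, nat_lit 0, nat_lit 0, nat_lit 0, [],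
 ⟨p063_k47, nat_lit 0, nat_lit 0, nat_lit 0, nat_lit 0, nat_lit 133510, [nat_lit 3282000000, nat_lit 4688000000, nat_lit 8885500000], [], [nat_lit 21036012104, nat_lit 22357756300, nat_lit 19537121888, nat_lit 20754442192, nat_lit 24113435893, nat_lit 25822129628, nat_lit 22270600200, nat_lit 23725208812], nat_lit 1271250, nat_lit 1271250, nat_lit 279600, nat_lit 780000, nat_lit 1271250, nat_lit 1271250, [nat_lit 780000, nat_lit 1100000, nat_lit 1956250], [nat_lit 160, nat_lit 40, nat_lit 20, nat_lit 40]⟩, ⟨p063_k10, nat_lit 0, nat_lit 0, nat_lit 310, nat_lit 0, nat_lit 149592, [nat_lit 4688000000, nat_lit 6250000000, nat_lit 9842000000], [], [nat_lit 20213858511, nat_lit 22412631981, nat_lit 17019703550, nat_lit 19047771000, nat_lit 21788550310, nat_lit 17060363680, nat_lit 26830940050, nat_lit 22216787700], nat_lit 1271250, nat_lit 1271250, nat_lit 279600, nat_lit 780000, nat_lit 0, nat_lit 1100001, [nat_lit 1100000,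 nat_lit 1442500, nat_lit 1271250], [nat_lit 11, nat_lit 40, nat_lit 40, nat_lit 80, nat_lit 1, nat_lit 373, nat_lit 150, nat_lit 11]⟩,
 zbF0, [⟨nat_lit 0, nat_lit 100, nat_lit 94, nat_lit 88, nat_lit 407412771⟩, ⟨nat_lit 4, nat_lit 94, nat_lit 100, nat_lit 97, nat_lit 708006751⟩]⟩
noncomputable def p063_l114 : Lf2 := ⟨nat_lit 0, nat_lit 10, [nat_lit 0, nat_lit 5, nat_lit 5, nat_lit 20], false, nat_lit 280, nat_lit 320, nat_lit 160, nat_lit 240, ⟨nat_lit 1000, nat_lit 0, nat_lit 0, nat_lit 0, nat_lit 0, nat_lit 0, nat_lit 0, nat_lit 0, nat_lit 0, nat_lit 0, nat_lit 0, nat_lit 0, nat_lit 0, nat_lit 0, nat_lit 0, nat_lit 0, false, false⟩,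
 nat_lit 33348, nat_lit 0, nat_lit 0, nat_lit 0, nat_lit 7938, nat_lit 19411, nat_lit 1151, nat_lit 0, nat_lit 0, nat_lit 396, nat_lit 0, nat_lit 0, nat_lit 0, nat_lit 0, nat_lit 0, nat_lit 0, nat_lit 0, nat_lit 0, [],
 ⟨p063_k11, nat_lit 0, nat_lit 0, nat_lit 0, nat_lit 0, nat_lit 133510, [nat_lit 3282000000, nat_lit 6250000000, nat_lit 9842000000], [], [nat_lit 23103227471, nat_lit 24482190235, nat_lit 20851672363, nat_lit 22409192838, nat_lit 25936962847, nat_lit 27430293335, nat_lit 23757726688, nat_lit 25130450000], nat_lit 1271250, nat_lit 1271250, nat_lit 279600, nat_lit 780000, nat_lit 1271250, nat_lit 1271250, [nat_lit 780000, nat_lit 1435000, nat_lit 1271250], [nat_lit 8, nat_lit 40, nat_lit 40, nat_lit 80]⟩, ⟨p063_k12, nat_lit 0, nat_lit 0, nat_lit 167, nat_lit 0, nat_lit 149592, [nat_lit 4688000000, nat_lit 7968000000, nat_lit 9842000000], [], [nat_lit 24306223727, nat_lit 17089110371, nat_lit 7876549774, nat_lit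 10576238204, nat_lit 18835981255, nat_lit 21196352506, nat_lit 16142404184, nat_lit 14211837920], nat_lit 1271250, nat_lit 1271250, nat_lit 279600, nat_lit 780000, nat_lit 1100001, nat_lit 1785000, [nat_lit 1100000, nat_lit 1785000, nat_lit 1271250], [nat_lit 29, nat_lit 40, nat_lit 40, nat_lit 80, nat_lit 17, nat_lit 401, nat_lit 175, nat_lit 11]⟩,
 zbF0, [⟨nat_lit 0, nat_lit 100, nat_lit 95, nat_lit 78, nat_lit 1296758506⟩, ⟨nat_lit 4, nat_lit 94, nat_lit 100, nat_lit 97, nat_lit 641679333⟩]⟩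
noncomputable def p063_l115 : Lf2 := ⟨nat_lit 0, nat_lit 8, [nat_lit 50, nat_lit 5, nat_lit 5, nat_lit 20], false, nat_lit 280, nat_lit 320, nat_lit 240, nat_lit 300, ⟨nat_lit 1000, nat_lit 0, nat_lit 0, nat_lit 0, nat_lit 0, nat_lit 0, nat_lit 0, nat_lit 0, nat_lit 0, nat_lit 0, nat_lit 0, nat_lit 0, nat_lit 0, nat_lit 0, nat_lit 0, nat_lit 0, false, false⟩,
 nat_lit 16458, nat_lit 0, nat_lit 0, nat_lit 0, nat_lit 9294, nat_lit 9580, nat_lit 943, nat_lit 0, nat_lit 0, nat_lit 1447, nat_lit 0, nat_lit 0, nat_lit 0, nat_lit 0, nat_lit 0, nat_lit 0, nat_lit 0, nat_lit 0, [],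
 ⟨p063_k14, nat_lit 0, nat_lit 0, nat_lit 0, nat_lit 0, nat_lit 76795, [nat_lit 3282000000, nat_lit 6250000000, nat_lit 7968000000], [], [nat_lit 22330937066, nat_lit 23552918452, nat_lit 20617435020, nat_lit 21440851428, nat_lit 26883003416, nat_lit 27942258547, nat_lit 24677971672, nat_lit 25708505492], nat_lit 1271250, nat_lit 1271250, nat_lit 279600, nat_lit 490000, nat_lit 1271250, nat_lit 1271250, [nat_lit 780000, nat_lit 1435000, nat_lit 1271250], [nat_lit 18, nat_lit 40, nat_lit 40, nat_lit 80]⟩, ⟨p063_k16, nat_lit 0, nat_lit 0, nat_lit 160, nat_lit 0, nat_lit 85982, [nat_lit 4688000000, nat_lit 7968000000, nat_lit 9842000000], [], [nat_lit 18659321332, nat_lit 20129208469, nat_lit 16950524980, nat_lit 18373962320, nat_lit 23487477588, nat_lit 24847046808, nat_lit 21713642460, nat_lit 23031138440], nat_lit 1271250, nat_lit 1271250, nat_lit 279600, nat_lit 490000, nat_lit 1271250, nat_lit 1271250, [nat_lit 1100000,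 nat_lit 1785000, nat_lit 1271250], [nat_lit 29, nat_lit 40, nat_lit 40, nat_lit 80, nat_lit 17, nat_lit 401, nat_lit 175, nat_lit 11]⟩,
 zbF0, [⟨nat_lit 0, nat_lit 100, nat_lit 97, nat_lit 84, nat_lit 514365557⟩, ⟨nat_lit 4, nat_lit 91, nat_lit 100, nat_lit 96, nat_lit 110108959⟩, ⟨nat_lit 11, nat_lit 100, nat_lit 92, nat_lit 82, nat_lit 831425431⟩]⟩
noncomputable def p063_l116 : Lf2 := ⟨nat_lit 1, nat_lit 10, [nat_lit 0, nat_lit 5, nat_lit 5, nat_lit 20], false, nat_lit 280, nat_lit 320, nat_lit 240, nat_lit 300, zbN0,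
 nat_lit 0, nat_lit 0, nat_lit 0, nat_lit 0, nat_lit 0, nat_lit 0, nat_lit 0, nat_lit 0, nat_lit 0, nat_lit 0, nat_lit 0, nat_lit 0, nat_lit 0, nat_lit 0, nat_lit 0, nat_lit 0, nat_lit 0, nat_lit 0, [],
 C1.Rw.none, C1.Rw.none,
 zbF0, []⟩
noncomputable def p063_l117 : Lf2 := ⟨nat_lit 0, nat_lit 10, [nat_lit 0, nat_lit 5, nat_lit 5, nat_lit 20], false, nat_lit 280, nat_lit 320, nat_lit 240, nat_lit 300, ⟨nat_lit 1000, nat_lit 0, nat_lit 0, nat_lit 0, nat_lit 0, nat_lit 0, nat_lit 0, nat_lit 0, nat_lit 0, nat_lit 0, nat_lit 0, nat_lit 0, nat_lit 0, nat_lit 0, nat_lit 0, nat_lit 0, false, false⟩,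
 nat_lit 17668, nat_lit 0, nat_lit 0, nat_lit 0, nat_lit 8704, nat_lit 10284, nat_lit 862, nat_lit 0, nat_lit 0, nat_lit 1333, nat_lit 0, nat_lit 0, nat_lit 0, nat_lit 0, nat_lit 0, nat_lit 0, nat_lit 0, nat_lit 0, [],
 ⟨p063_k13, nat_lit 0, nat_lit 0, nat_lit 0, nat_lit 0, nat_lit 81172, [nat_lit 3282000000, nat_lit 6250000000, nat_lit 7968000000], [], [nat_lit 22688587788, nat_lit 23776260578, nat_lit 21505515348, nat_lit 22296020376, nat_lit 26789751525, nat_lit 27797059370, nat_lit 25247822872, nat_lit 26234678992], nat_lit 1271250, nat_lit 1271250, nat_lit 330400, nat_lit 490000, nat_lit 1271250, nat_lit 1271250, [nat_lit 780000, nat_lit 1435000, nat_lit 1271250], [nat_lit 18, nat_lit 40, nat_lit 40, nat_lit 80]⟩, ⟨p063_k12, nat_lit 0, nat_lit 0, nat_lit 154, nat_lit 0, nat_lit 95983, [nat_lit 4688000000, nat_lit 7968000000, nat_lit 9842000000], [], [nat_lit 18393089632, nat_lit 19153769412, nat_lit 16985546204, nat_lit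 17727782988, nat_lit 23082061834, nat_lit 23799014393, nat_lit 21560978222, nat_lit 22157494827], nat_lit 1271250, nat_lit 1271250, nat_lit 330400, nat_lit 490000, nat_lit 1271250, nat_lit 1271250, [nat_lit 1100000, nat_lit 1785000, nat_lit 1271250], [nat_lit 29, nat_lit 40, nat_lit 40, nat_lit 80, nat_lit 17, nat_lit 401, nat_lit 175, nat_lit 11]⟩,
 zbF0, [⟨nat_lit 0, nat_lit 100, nat_lit 92, nat_lit 82, nat_lit 582571099⟩, ⟨nat_lit 4, nat_lit 97, nat_lit 100, nat_lit 98, nat_lit 151111968⟩, ⟨nat_lit 11, nat_lit 100, nat_lit 100, nat_lit 82, nat_lit 741804502⟩]⟩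
noncomputable def p063_l118 : Lf2 := ⟨nat_lit 0, nat_lit 10, [nat_lit 0, nat_lit 5, nat_lit 5, nat_lit 20], false, nat_lit 280, nat_lit 320, nat_lit 240, nat_lit 300, ⟨nat_lit 1000, nat_lit 0, nat_lit 0, nat_lit 0, nat_lit 0, nat_lit 0, nat_lit 0, nat_lit 0, nat_lit 0, nat_lit 0, nat_lit 0, nat_lit 0, nat_lit 0, nat_lit 0, nat_lit 0, nat_lit 0, false, false⟩,
 nat_lit 15005, nat_lit 0, nat_lit 0, nat_lit 0, nat_lit 8670, nat_lit 9138, nat_lit 823, nat_lit 0, nat_lit 0, nat_lit 1337, nat_lit 0, nat_lit 0, nat_lit 0, nat_lit 0, nat_lit 0, nat_lit 0, nat_lit 0, nat_lit 0, [],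
 ⟨p063_k13, nat_lit 0, nat_lit 0, nat_lit 0, nat_lit 0, nat_lit 126510, [nat_lit 3282000000, nat_lit 6250000000, nat_lit 7968000000], [], [nat_lit 22477411290, nat_lit 23278891933, nat_lit 21692872040, nat_lit 22481480480, nat_lit 26244103056, nat_lit 27242034793, nat_lit 25221275060, nat_lit 26205614160], nat_lit 1271250, nat_lit 1271250, nat_lit 382400, nat_lit 490000, nat_lit 1271250, nat_lit 1271250, [nat_lit 780000, nat_lit 1435000, nat_lit 1271250], [nat_lit 18, nat_lit 40, nat_lit 40, nat_lit 80]⟩, ⟨p063_k18, nat_lit 0, nat_lit 0, nat_lit 170, nat_lit 0, nat_lit 141173, [nat_lit 4688000000, nat_lit 7968000000, nat_lit 9842000000], [], [nat_lit 18369137003, nat_lit 19072863730, nat_lit 17556256091, nat_lit 18248783979, nat_lit 22566614939, nat_lit 23428066689, nat_lit 21687495195, nat_lit 22380008636], nat_lit 1271250, nat_lit 1271250, nat_lit 382400, nat_lit 490000, nat_lit 1271250, nat_lit 1271250, [nat_lit 1100000,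 nat_lit 1785000, nat_lit 1271250], [nat_lit 29, nat_lit 40, nat_lit 40, nat_lit 80, nat_lit 17, nat_lit 401, nat_lit 175, nat_lit 11]⟩,
 zbF0, [⟨nat_lit 0, nat_lit 100, nat_lit 95, nat_lit 83, nat_lit 584069354⟩, ⟨nat_lit 16, nat_lit 100, nat_lit 97, nat_lit 98, nat_lit 96608175⟩, ⟨nat_lit 11, nat_lit 100, nat_lit 93, nat_lit 82, nat_lit 724031510⟩, ⟨nat_lit 11, nat_lit 100, nat_lit 100, nat_lit 85, nat_lit 36753532⟩]⟩
noncomputable def p063_l119 : Lf2 := ⟨nat_lit 0, nat_lit 10, [nat_lit 0, nat_lit 5, nat_lit 5, nat_lit 20], false, nat_lit 280, nat_lit 320, nat_lit 240, nat_lit 336, ⟨nat_lit 1000, nat_lit 0, nat_lit 0, nat_lit 0, nat_lit 0, nat_lit 0, nat_lit 0, nat_lit 0, nat_lit 0, nat_lit 0, nat_lit 0, nat_lit 0, nat_lit 0, nat_lit 0, nat_lit 0, nat_lit 0, false, false⟩,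
 nat_lit 8154, nat_lit 0, nat_lit 7045, nat_lit 0, nat_lit 5188, nat_lit 8847, nat_lit 0, nat_lit 0, nat_lit 0, nat_lit 1408, nat_lit 0, nat_lit 0, nat_lit 0, nat_lit 0, nat_lit 0, nat_lit 0, nat_lit 0, nat_lit 0, [],
 ⟨p063_k11, nat_lit 0, nat_lit 0, nat_lit 0, nat_lit 0, nat_lit 71802, [nat_lit 3282000000, nat_lit 6250000000, nat_lit 9842000000], [], [nat_lit 18758495944, nat_lit 19500266148, nat_lit 18731908992, nat_lit 19437433892, nat_lit 21775900144, nat_lit 22502466784, nat_lit 21457995936, nat_lit 22151595556], nat_lit 1271250, nat_lit 1271250, nat_lit 490000, nat_lit 780000, nat_lit 1271250, nat_lit 1271250, [nat_lit 780000, nat_lit 1435000, nat_lit 1271250], [nat_lit 8, nat_lit 40, nat_lit 40, nat_lit 80]⟩, ⟨p063_k12, nat_lit 0, nat_lit 0, nat_lit 150, nat_lit 0, nat_lit 80299, [nat_lit 4688000000, nat_lit 7968000000, nat_lit 9842000000], [], [nat_lit 17688742832, nat_lit 19048553776, nat_lit 16907568060, nat_lit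 18343682280, nat_lit 25379005775, nat_lit 26465479788, nat_lit 24332109136, nat_lit 25358428088], nat_lit 1271250, nat_lit 1271250, nat_lit 490000, nat_lit 780000, nat_lit 1271250, nat_lit 1271250, [nat_lit 1100000, nat_lit 1785000, nat_lit 1271250], [nat_lit 29, nat_lit 40, nat_lit 40, nat_lit 80, nat_lit 17, nat_lit 428, nat_lit 200, nat_lit 12]⟩,
 zbF0, [⟨nat_lit 11, nat_lit 100, nat_lit 96, nat_lit 92, nat_lit 718086032⟩]⟩
noncomputable def p063_l120 : Lf2 := ⟨nat_lit 0, nat_lit 10, [nat_lit 0, nat_lit 5, nat_lit 5, nat_lit 20], false, nat_lit 280, nat_lit 312, nat_lit 240, nat_lit 336, ⟨nat_lit 1000, nat_lit 0, nat_lit 0, nat_lit 0, nat_lit 0, nat_lit 0, nat_lit 0, nat_lit 0, nat_lit 0, nat_lit 0, nat_lit 0, nat_lit 0, nat_lit 0, nat_lit 0, nat_lit 0, nat_lit 0, false, false⟩,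
 nat_lit 15462, nat_lit 0, nat_lit 0, nat_lit 0, nat_lit 9007, nat_lit 9000, nat_lit 0, nat_lit 0, nat_lit 0, nat_lit 1445, nat_lit 0, nat_lit 0, nat_lit 0, nat_lit 0, nat_lit 0, nat_lit 0, nat_lit 0, nat_lit 0, [],
 ⟨p063_k13, nat_lit 0, nat_lit 0, nat_lit 0, nat_lit 0, nat_lit 77088, [nat_lit 3282000000, nat_lit 6250000000, nat_lit 7968000000], [], [nat_lit 21573919274, nat_lit 22465321958, nat_lit 20735797600, nat_lit 21578634357, nat_lit 24648194106, nat_lit 25687880280, nat_lit 23463569345, nat_lit 24450562946], nat_lit 1271250, nat_lit 1271250, nat_lit 490000, nat_lit 780000, nat_lit 1271250, nat_lit 1271250, [nat_lit 780000, nat_lit 1435000, nat_lit 1271250], [nat_lit 18, nat_lit 40, nat_lit 40, nat_lit 80]⟩, ⟨p063_k12, nat_lit 0, nat_lit 0, nat_lit 152, nat_lit 0, nat_lit 90901, [nat_lit 4688000000, nat_lit 7968000000, nat_lit 9842000000], [], [nat_lit 17392881500, nat_lit 18079423500, nat_lit 16653074000, nat_lit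 17390836000, nat_lit 25259385600, nat_lit 25807213801, nat_lit 24180933201, nat_lit 24698270801], nat_lit 1271250, nat_lit 1271250, nat_lit 490000, nat_lit 780000, nat_lit 1271250, nat_lit 1271250, [nat_lit 1100000, nat_lit 1785000, nat_lit 1271250], [nat_lit 29, nat_lit 40, nat_lit 40, nat_lit 80, nat_lit 17, nat_lit 428, nat_lit 200, nat_lit 12]⟩,
 zbF0, [⟨nat_lit 4, nat_lit 100, nat_lit 100, nat_lit 95, nat_lit 353070493⟩, ⟨nat_lit 11, nat_lit 100, nat_lit 98, nat_lit 91, nat_lit 729391611⟩]⟩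
noncomputable def p063_l121 : Lf2 := ⟨nat_lit 0, nat_lit 10, [nat_lit 0, nat_lit 5, nat_lit 5, nat_lit 20], false, nat_lit 280, nat_lit 312, nat_lit 240, nat_lit 328, ⟨nat_lit 1000, nat_lit 0, nat_lit 0, nat_lit 0, nat_lit 0, nat_lit 0, nat_lit 0, nat_lit 0, nat_lit 0, nat_lit 0, nat_lit 0, nat_lit 0, nat_lit 0, nat_lit 0, nat_lit 0, nat_lit 0, false, false⟩,
 nat_lit 13980, nat_lit 0, nat_lit 0, nat_lit 0, nat_lit 9284, nat_lit 8514, nat_lit 671, nat_lit 0, nat_lit 0, nat_lit 1212, nat_lit 0, nat_lit 0, nat_lit 0, nat_lit 0, nat_lit 0, nat_lit 0, nat_lit 0, nat_lit 0, [],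
 ⟨p063_k13, nat_lit 0, nat_lit 0, nat_lit 0, nat_lit 0, nat_lit 120144, [nat_lit 3282000000, nat_lit 6250000000, nat_lit 7968000000], [], [nat_lit 21991495308, nat_lit 22814353896, nat_lit 20996087592, nat_lit 21774007296, nat_lit 24847396883, nat_lit 25908407071, nat_lit 23600274579, nat_lit 24607247830], nat_lit 1271250, nat_lit 1271250, nat_lit 490000, nat_lit 780000, nat_lit 1271250, nat_lit 1271250, [nat_lit 780000, nat_lit 1435000, nat_lit 1271250], [nat_lit 18, nat_lit 40, nat_lit 40, nat_lit 80]⟩, ⟨p063_k18, nat_lit 0, nat_lit 0, nat_lit 167, nat_lit 0, nat_lit 133828, [nat_lit 4688000000, nat_lit 7968000000, nat_lit 9842000000], [], [nat_lit 18698049348, nat_lit 19363510612, nat_lit 17940244400, nat_lit 18568710580, nat_lit 24668516150, nat_lit 25151896026, nat_lit 23629260507, nat_lit 24151266272], nat_lit 1271250, nat_lit 1271250, nat_lit 490000, nat_lit 780000, nat_lit 1271250, nat_lit 1271250, [nat_lit 1100000,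 nat_lit 1785000, nat_lit 1271250], [nat_lit 29, nat_lit 40, nat_lit 40, nat_lit 80, nat_lit 17, nat_lit 428, nat_lit 200, nat_lit 12]⟩,
 zbF0, [⟨nat_lit 0, nat_lit 100, nat_lit 94, nat_lit 88, nat_lit 182902097⟩, ⟨nat_lit 16, nat_lit 100, nat_lit 100, nat_lit 95, nat_lit 150437366⟩, ⟨nat_lit 11, nat_lit 100, nat_lit 97, nat_lit 89, nat_lit 665863498⟩]⟩
noncomputable def p063_l122 : Lf2 := ⟨nat_lit 0, nat_lit 10, [nat_lit 0, nat_lit 5, nat_lit 5, nat_lit 20], false, nat_lit 280, nat_lit 320, nat_lit 240, nat_lit 336, ⟨nat_lit 1000, nat_lit 0, nat_lit 0, nat_lit 0, nat_lit 0, nat_lit 0, nat_lit 0, nat_lit 0, nat_lit 0, nat_lit 0, nat_lit 0, nat_lit 0, nat_lit 0, nat_lit 0, nat_lit 0, nat_lit 0, false, false⟩,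
 nat_lit 8035, nat_lit 0, nat_lit 7164, nat_lit 0, nat_lit 5113, nat_lit 8847, nat_lit 0, nat_lit 0, nat_lit 0, nat_lit 1408, nat_lit 0, nat_lit 0, nat_lit 0, nat_lit 0, nat_lit 0, nat_lit 0, nat_lit 0, nat_lit 0, [],
 ⟨p063_k11, nat_lit 0, nat_lit 0, nat_lit 0, nat_lit 0, nat_lit 55247, [nat_lit 3282000000, nat_lit 6250000000, nat_lit 9842000000], [], [nat_lit 18807573094, nat_lit 20279446052, nat_lit 18793935192, nat_lit 20194102492, nat_lit 21722891044, nat_lit 23164919824, nat_lit 21440380592, nat_lit 22798650026], nat_lit 1271250, nat_lit 1271250, nat_lit 490000, nat_lit 780000, nat_lit 1271250, nat_lit 1271250, [nat_lit 780000, nat_lit 1435000, nat_lit 1271250], [nat_lit 8, nat_lit 40, nat_lit 40, nat_lit 80]⟩, ⟨p063_k12, nat_lit 0, nat_lit 0, nat_lit 142, nat_lit 0, nat_lit 61902, [nat_lit 4688000000, nat_lit 7968000000, nat_lit 9842000000], [], [nat_lit 17688742832, nat_lit 19048553776, nat_lit 16907568060, nat_lit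 18343682280, nat_lit 25379005775, nat_lit 26465479788, nat_lit 24332109136, nat_lit 25358428088], nat_lit 1271250, nat_lit 1271250, nat_lit 490000, nat_lit 780000, nat_lit 1271250, nat_lit 1271250, [nat_lit 1100000, nat_lit 1785000, nat_lit 1271250], [nat_lit 29, nat_lit 40, nat_lit 40, nat_lit 80, nat_lit 17, nat_lit 428, nat_lit 200, nat_lit 12]⟩,
 zbF0, [⟨nat_lit 11, nat_lit 100, nat_lit 96, nat_lit 92, nat_lit 689888992⟩, ⟨nat_lit 23, nat_lit 100, nat_lit 100, nat_lit 100, nat_lit 24903626⟩]⟩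
noncomputable def p063_l123 : Lf2 := ⟨nat_lit 0, nat_lit 10, [nat_lit 0, nat_lit 5, nat_lit 5, nat_lit 20], true, nat_lit 280, nat_lit 320, nat_lit 0, nat_lit 336, ⟨nat_lit 0, nat_lit 0, nat_lit 1000, nat_lit 6, nat_lit 145, nat_lit 1000, nat_lit 230, nat_lit 1000, nat_lit 7484, nat_lit 200, nat_lit 198017, nat_lit 324, nat_lit 43752416, nat_lit 0, nat_lit 0, nat_lit 4632765, false, false⟩,
 nat_lit 0, nat_lit 100000, nat_lit 0, nat_lit 0, nat_lit 63636, nat_lit 0, nat_lit 7439, nat_lit 4901, nat_lit 0, nat_lit 0, nat_lit 0, nat_lit 0, nat_lit 0, nat_lit 0, nat_lit 0, nat_lit 1000000, nat_lit 0, nat_lit 0, [(nat_lit 12, [(nat_lit 6, nat_lit 1000)])],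
 ⟨p063_k11, nat_lit 0, nat_lit 0, nat_lit 217, nat_lit 0, nat_lit 229117, [nat_lit 59953200001, nat_lit 96892400001, nat_lit 131835200000], [], [nat_lit 92207323649, nat_lit 98160034795, nat_lit 67823526594, nat_lit 74845703594, nat_lit 104546534108, nat_lit 111192006057, nat_lit 80476932274, nat_lit 86382474610], nat_lit 1271250, nat_lit 1271250, nat_lit 279600, nat_lit 780000, nat_lit 1271250, nat_lit 1271250, [nat_lit 780000, nat_lit 1435000, nat_lit 1271250], [nat_lit 8, nat_lit 40, nat_lit 40, nat_lit 80, nat_lit 1, nat_lit 238, nat_lit 30, nat_lit 6]⟩, C1.Rw.none,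
 ⟨nat_lit 5000, nat_lit 5478, ⟨.ofNat (nat_lit 279324), .ofNat (nat_lit 414199), .ofNat (nat_lit 300681), .ofNat (nat_lit 435548), .ofNat (nat_lit 292856), .ofNat (nat_lit 421423), .ofNat (nat_lit 314284), .ofNat (nat_lit 442843)⟩, ⟨.ofNat (nat_lit 521722), .ofNat (nat_lit 596655), .ofNat (nat_lit 564436), .ofNat (nat_lit 639367), .ofNat (nat_lit 514284), .ofNat (nat_lit 585713), .ofNat (nat_lit 557141), .ofNat (nat_lit 628568)⟩⟩, [⟨nat_lit 0, nat_lit 100, nat_lit 94, nat_lit 88, nat_lit 1832676520⟩, ⟨nat_lit 4, nat_lit 94, nat_lit 100, nat_lit 97, nat_lit 4232741880⟩]⟩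
noncomputable def p063_l124 : Lf2 := ⟨nat_lit 0, nat_lit 10, [nat_lit 0, nat_lit 5, nat_lit 5, nat_lit 20], false, nat_lit 320, nat_lit 336, nat_lit 0, nat_lit 300, ⟨nat_lit 0, nat_lit 386, nat_lit 614, nat_lit 6, nat_lit 144, nat_lit 1000, nat_lit 252, nat_lit 614, nat_lit 67430, nat_lit 200, nat_lit 194400, nat_lit 323, nat_lit 41978637, nat_lit 7297006, nat_lit 17724357, nat_lit 4746960, false, false⟩,
 nat_lit 0, nat_lit 6072, nat_lit 0, nat_lit 100000, nat_lit 3863, nat_lit 0, nat_lit 211, nat_lit 0, nat_lit 0, nat_lit 0, nat_lit 0, nat_lit 0, nat_lit 0, nat_lit 0, nat_lit 19, nat_lit 400000, nat_lit 0, nat_lit 0, [(nat_lit 12, [(nat_lit 1, nat_lit 386), (nat_lit 5, nat_lit 614)])],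
 ⟨p063_k11, nat_lit 0, nat_lit 0, nat_lit 171, nat_lit 0, nat_lit 75673, [nat_lit 1788253600, nat_lit 1102097867, nat_lit 40438400], [], [nat_lit 21617544703, nat_lit 22064528383, nat_lit 21079396991, nat_lit 21497270737, nat_lit 22709157078, nat_lit 23321250431, nat_lit 22018106099, nat_lit 22591199567], nat_lit 1271250, nat_lit 1271250, nat_lit 279600, nat_lit 780000, nat_lit 1271250, nat_lit 1271250, [nat_lit 780000, nat_lit 1435000, nat_lit 1271250], [nat_lit 8, nat_lit 40, nat_lit 40, nat_lit 80, nat_lit 1, nat_lit 238, nat_lit 30, nat_lit 6]⟩, ⟨p063_k12, nat_lit 0, nat_lit 0, nat_lit 288, nat_lit 0, nat_lit 84789, [nat_lit 0, nat_lit 0, nat_lit 0], [], [nat_lit 0, nat_lit 0, nat_lit 0, nat_lit 0, nat_lit 0, nat_lit 0, nat_lit 0, nat_lit 0], nat_lit 1271250, nat_lit 1271250, nat_lit 279600, nat_lit 780000, nat_lit 0, nat_lit 2118750, [nat_lit 1100000, nat_lit 1785000, nat_lit 1271250], [nat_lit 29, nat_lit 40, nat_lit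 40, nat_lit 80, nat_lit 17, nat_lit 401, nat_lit 175, nat_lit 12]⟩,
 ⟨nat_lit 5244, nat_lit 5478, ⟨.ofNat (nat_lit 279324), .ofNat (nat_lit 414204), .ofNat (nat_lit 300681), .ofNat (nat_lit 435559), .ofNat (nat_lit 286104), .ofNat (nat_lit 417813), .ofNat (nat_lit 307490), .ofNat (nat_lit 439196)⟩, ⟨.ofNat (nat_lit 596655), .ofNat (nat_lit 626629), .ofNat (nat_lit 639368), .ofNat (nat_lit 669340), .ofNat (nat_lit 591199), .ofNat (nat_lit 620468), .ofNat (nat_lit 633969), .ofNat (nat_lit 663236)⟩⟩, [⟨nat_lit 0, nat_lit 100, nat_lit 97, nat_lit 84, nat_lit 149086849⟩, ⟨nat_lit 4, nat_lit 91, nat_lit 100, nat_lit 96, nat_lit 2821940262⟩]⟩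
noncomputable def p063_l125 : Lf2 := ⟨nat_lit 0, nat_lit 10, [nat_lit 0, nat_lit 5, nat_lit 5, nat_lit 20], true, nat_lit 320, nat_lit 328, nat_lit 0, nat_lit 300, ⟨nat_lit 0, nat_lit 1000, nat_lit 0, nat_lit 6, nat_lit 147, nat_lit 1000, nat_lit 247, nat_lit 0, nat_lit 0, nat_lit 0, nat_lit 0, nat_lit 0, nat_lit 42253287, nat_lit 7549746, nat_lit 17196967, nat_lit 4747951, false, false⟩,
 nat_lit 0, nat_lit 100000, nat_lit 0, nat_lit 100000, nat_lit 4340, nat_lit 0, nat_lit 621, nat_lit 0, nat_lit 0, nat_lit 0, nat_lit 0, nat_lit 0, nat_lit 0, nat_lit 0, nat_lit 0, nat_lit 400000, nat_lit 0, nat_lit 0, [(nat_lit 12, [(nat_lit 1, nat_lit 1000)])],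
 ⟨p063_k48, nat_lit 0, nat_lit 0, nat_lit 153, nat_lit 0, nat_lit 136316, [nat_lit 2033400000, nat_lit 2574800000, nat_lit 2711866667], [], [nat_lit 22570311347, nat_lit 23072288559, nat_lit 22018686722, nat_lit 22489467105, nat_lit 23065003549, nat_lit 23719118217, nat_lit 22481792559, nat_lit 22971489945], nat_lit 1271250, nat_lit 1271250, nat_lit 330400, nat_lit 780000, nat_lit 1271250, nat_lit 1271250, [nat_lit 780000, nat_lit 1100000, nat_lit 1785000], [nat_lit 36, nat_lit 40, nat_lit 40, nat_lit 80, nat_lit 7, nat_lit 238, nat_lit 30, nat_lit 7]⟩, C1.Rw.none,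
 ⟨nat_lit 5000, nat_lit 5245, ⟨.ofNat (nat_lit 300739), .ofNat (nat_lit 417811), .ofNat (nat_lit 311431), .ofNat (nat_lit 428503), .ofNat (nat_lit 307141), .ofNat (nat_lit 421425), .ofNat (nat_lit 317856), .ofNat (nat_lit 432139)⟩, ⟨.ofNat (nat_lit 591199), .ofNat (nat_lit 605833), .ofNat (nat_lit 633970), .ofNat (nat_lit 648604), .ofNat (nat_lit 585713), .ofNat (nat_lit 599999), .ofNat (nat_lit 628570), .ofNat (nat_lit 642856)⟩⟩, [⟨nat_lit 0, nat_lit 100, nat_lit 92, nat_lit 82, nat_lit 153499996⟩, ⟨nat_lit 16, nat_lit 97, nat_lit 84, nat_lit 100, nat_lit 9777105096⟩]⟩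
noncomputable def p063_l126 : Lf2 := ⟨nat_lit 0, nat_lit 10, [nat_lit 0, nat_lit 5, nat_lit 5, nat_lit 20], false, nat_lit 320, nat_lit 328, nat_lit 0, nat_lit 300, ⟨nat_lit 1000, nat_lit 0, nat_lit 0, nat_lit 0, nat_lit 0, nat_lit 0, nat_lit 0, nat_lit 0, nat_lit 0, nat_lit 0, nat_lit 0, nat_lit 0, nat_lit 0, nat_lit 0, nat_lit 0, nat_lit 0, false, false⟩,
 nat_lit 12055, nat_lit 0, nat_lit 0, nat_lit 100000, nat_lit 5720, nat_lit 7341, nat_lit 1581, nat_lit 0, nat_lit 0, nat_lit 2062, nat_lit 0, nat_lit 0, nat_lit 0, nat_lit 0, nat_lit 0, nat_lit 0, nat_lit 0, nat_lit 0, [],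
 ⟨p063_k48, nat_lit 0, nat_lit 0, nat_lit 146, nat_lit 0, nat_lit 126510, [nat_lit 3282000000, nat_lit 4688000000, nat_lit 7968000000], [], [nat_lit 23709261523, nat_lit 24272946507, nat_lit 22835859315, nat_lit 23366109465, nat_lit 24276957692, nat_lit 25026135169, nat_lit 23369090404, nat_lit 23955252585], nat_lit 1271250, nat_lit 1271250, nat_lit 382400, nat_lit 780000, nat_lit 1271250, nat_lit 1271250, [nat_lit 780000, nat_lit 1100000, nat_lit 1785000], [nat_lit 36, nat_lit 40, nat_lit 40, nat_lit 80, nat_lit 7, nat_lit 238, nat_lit 30, nat_lit 7]⟩, ⟨p063_k49, nat_lit 0, nat_lit 0, nat_lit 296, nat_lit 0, nat_lit 141173, [nat_lit 4688000000, nat_lit 6250000000, nat_lit 9842000000], [], [nat_lit 19949191613, nat_lit 20843359787, nat_lit 18706566809, nat_lit 19493903250, nat_lit 21670061540, nat_lit 22184564972, nat_lit 20284373848, nat_lit 20765872296], nat_lit 1271250, nat_lit 1271250, nat_lit 382400, nat_lit 780000,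 nat_lit 0, nat_lit 2118750, [nat_lit 1100000, nat_lit 1442500, nat_lit 1271250], [nat_lit 11, nat_lit 40, nat_lit 40, nat_lit 80, nat_lit 1, nat_lit 401, nat_lit 175, nat_lit 12]⟩,
 zbF0, [⟨nat_lit 0, nat_lit 100, nat_lit 94, nat_lit 88, nat_lit 613561499⟩, ⟨nat_lit 16, nat_lit 97, nat_lit 84, nat_lit 100, nat_lit 4584830863⟩, ⟨nat_lit 23, nat_lit 83, nat_lit 100, nat_lit 89, nat_lit 273145524⟩]⟩
noncomputable def b_V_700_600_20_36 : St := ⟨true, nat_lit 1, nat_lit 1, nat_lit 1, nat_lit 120, nat_lit 280, nat_lit 300, nat_lit 260, nat_lit 280, nat_lit 48, nat_lit 120, nat_lit 80, nat_lit 120, nat_lit 280, nat_lit 336, nat_lit 0, nat_lit 336, nat_lit 20, nat_lit 40, nat_lit 0, nat_lit 0, nat_lit 0, nat_lit 0⟩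
theorem d_V_700_600_20_36 (h : EB TB.env) : Dead b_V_700_600_20_36 := chkB_sound0 h (T :=
(.spl (nat_lit 4) (nat_lit 320)
(.spl (nat_lit 7) (nat_lit 600)
(.spl (nat_lit 5) (nat_lit 160)
(.leaf p063_l113)
(.spl (nat_lit 5) (nat_lit 240)
(.leaf p063_l114)
(.spl (nat_lit 2) (nat_lit 80)
(.trX (nat_lit 23) (nat_lit 100) (nat_lit 95) (nat_lit 87) (nat_lit 300) (.spl (nat_lit 0) (nat_lit 290)
(.spl (nat_lit 6) (nat_lit 32)
(.leaf p063_l115)
(.leaf p063_l116))
(.trZ (nat_lit 0) (nat_lit 100) (nat_lit 94) (nat_lit 73) (nat_lit 56) (.spl (nat_lit 1) (nat_lit 270)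
(.leaf p063_l117)
(.trZ (nat_lit 0) (nat_lit 100) (nat_lit 95) (nat_lit 78) (nat_lit 64) (.leaf p063_l118))))))
(.spl (nat_lit 3) (nat_lit 100)
(.spl (nat_lit 0) (nat_lit 290)
(.leaf p063_l119)
(.trX (nat_lit 16) (nat_lit 100) (nat_lit 94) (nat_lit 97) (nat_lit 312) (.spl (nat_lit 1) (nat_lit 270)
(.leaf p063_l120)
(.trX (nat_lit 19) (nat_lit 100) (nat_lit 82) (nat_lit 92) (nat_lit 328) (.leaf p063_l121)))))
(.leaf p063_l122)))))
(.leaf p063_l123))
(.trX (nat_lit 23) (nat_lit 87) (nat_lit 95) (nat_lit 100) (nat_lit 300) (.spl (nat_lit 0) (nat_lit 290)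
(.leaf p063_l124)
(.trZ (nat_lit 0) (nat_lit 100) (nat_lit 94) (nat_lit 73) (nat_lit 56) (.trX (nat_lit 16) (nat_lit 97) (nat_lit 84) (nat_lit 100) (nat_lit 328) (.spl (nat_lit 1) (nat_lit 270)
(.leaf p063_l125)
(.trZ (nat_lit 0) (nat_lit 100) (nat_lit 95) (nat_lit 78) (nat_lit 64) (.leaf p063_l126))))))))) (by decide +kernel)
noncomputable def p063_l127 : Lf2 := ⟨nat_lit 0, nat_lit 5, [nat_lit 4, nat_lit 5, nat_lit 5, nat_lit 20], true, nat_lit 240, nat_lit 280, nat_lit 0, nat_lit 336, ⟨nat_lit 0, nat_lit 0, nat_lit 1000, nat_lit 6, nat_lit 125, nat_lit 1000, nat_lit 195, nat_lit 1000, nat_lit 14462, nat_lit 240, nat_lit 147267, nat_lit 309, nat_lit 48104193, nat_lit 0, nat_lit 0, nat_lit 4137615, false, false⟩,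
 nat_lit 0, nat_lit 4504, nat_lit 0, nat_lit 0, nat_lit 3118, nat_lit 0, nat_lit 0, nat_lit 0, nat_lit 0, nat_lit 0, nat_lit 0, nat_lit 0, nat_lit 0, nat_lit 0, nat_lit 124, nat_lit 968200, nat_lit 0, nat_lit 0, [(nat_lit 15, [(nat_lit 5, nat_lit 53), (nat_lit 6, nat_lit 947)])],
 ⟨p063_k50, nat_lit 0, nat_lit 0, nat_lit 148, nat_lit 0, nat_lit 258782, [nat_lit 2485765600, nat_lit 231100800], [], [nat_lit 17394644776, nat_lit 17985141181, nat_lit 17360318532, nat_lit 17933608590, nat_lit 19491410890, nat_lit 20145988333, nat_lit 19272523646, nat_lit 19797888568], nat_lit 1271250, nat_lit 1271250, nat_lit 279600, nat_lit 490000, nat_lit 1271250, nat_lit 1271250, [nat_lit 780000, nat_lit 1435000], [nat_lit 49, nat_lit 40, nat_lit 40, nat_lit 80, nat_lit 16, nat_lit 226, nat_lit 20, nat_lit 8]⟩, C1.Rw.none,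
 ⟨nat_lit 4743, nat_lit 5000, ⟨.ofNat (nat_lit 271427), .ofNat (nat_lit 328569), .ofNat (nat_lit 292854), .ofNat (nat_lit 349996), .ofNat (nat_lit 278116), .ofNat (nat_lit 333875), .ofNat (nat_lit 299602), .ofNat (nat_lit 355361)⟩, ⟨.ofNat (nat_lit 442856), .ofNat (nat_lit 514284), .ofNat (nat_lit 464284), .ofNat (nat_lit 535713), .ofNat (nat_lit 440769), .ofNat (nat_lit 510469), .ofNat (nat_lit 462258), .ofNat (nat_lit 531957)⟩⟩, [⟨nat_lit 0, nat_lit 100, nat_lit 88, nat_lit 81, nat_lit 168157811⟩, ⟨nat_lit 4, nat_lit 100, nat_lit 94, nat_lit 92, nat_lit 32460313⟩]⟩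
noncomputable def p063_l128 : Lf2 := ⟨nat_lit 0, nat_lit 5, [nat_lit 4, nat_lit 5, nat_lit 5, nat_lit 20], true, nat_lit 240, nat_lit 280, nat_lit 0, nat_lit 336, ⟨nat_lit 0, nat_lit 0, nat_lit 1000, nat_lit 6, nat_lit 131, nat_lit 1000, nat_lit 194, nat_lit 1000, nat_lit 16086, nat_lit 242, nat_lit 160067, nat_lit 313, nat_lit 47858543, nat_lit 0, nat_lit 0, nat_lit 4188513, false, false⟩,
 nat_lit 0, nat_lit 4575, nat_lit 0, nat_lit 0, nat_lit 3298, nat_lit 0, nat_lit 0, nat_lit 0, nat_lit 0, nat_lit 0, nat_lit 0, nat_lit 0, nat_lit 0, nat_lit 0, nat_lit 123, nat_lit 958600, nat_lit 0, nat_lit 0, [(nat_lit 15, [(nat_lit 5, nat_lit 69), (nat_lit 6, nat_lit 931)])],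
 ⟨p063_k51, nat_lit 0, nat_lit 0, nat_lit 159, nat_lit 0, nat_lit 298670, [nat_lit 2479128800, nat_lit 225078400], [], [nat_lit 18241259282, nat_lit 18780102173, nat_lit 18217795124, nat_lit 18744441552, nat_lit 20216108108, nat_lit 20883038944, nat_lit 19938852791, nat_lit 20569273168], nat_lit 1271250, nat_lit 1271250, nat_lit 330400, nat_lit 490000, nat_lit 1271250, nat_lit 1271250, [nat_lit 780000, nat_lit 1435000], [nat_lit 49, nat_lit 40, nat_lit 40, nat_lit 80, nat_lit 16, nat_lit 226, nat_lit 20, nat_lit 8]⟩, C1.Rw.none,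
 ⟨nat_lit 4472, nat_lit 4744, ⟨.ofNat (nat_lit 292052), .ofNat (nat_lit 333872), .ofNat (nat_lit 313537), .ofNat (nat_lit 355356), .ofNat (nat_lit 298407), .ofNat (nat_lit 339193), .ofNat (nat_lit 319970), .ofNat (nat_lit 360756)⟩, ⟨.ofNat (nat_lit 440769), .ofNat (nat_lit 510469), .ofNat (nat_lit 462258), .ofNat (nat_lit 531957), .ofNat (nat_lit 438578), .ofNat (nat_lit 506556), .ofNat (nat_lit 460144), .ofNat (nat_lit 528122)⟩⟩, [⟨nat_lit 0, nat_lit 100, nat_lit 84, nat_lit 85, nat_lit 184816360⟩, ⟨nat_lit 4, nat_lit 100, nat_lit 88, nat_lit 90, nat_lit 107044208⟩]⟩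
noncomputable def p063_l129 : Lf2 := ⟨nat_lit 0, nat_lit 5, [nat_lit 4, nat_lit 5, nat_lit 5, nat_lit 20], false, nat_lit 240, nat_lit 280, nat_lit 0, nat_lit 352, ⟨nat_lit 0, nat_lit 0, nat_lit 1000, nat_lit 6, nat_lit 152, nat_lit 1000, nat_lit 195, nat_lit 1000, nat_lit 14462, nat_lit 240, nat_lit 216600, nat_lit 329, nat_lit 46334707, nat_lit 0, nat_lit 0, nat_lit 4430803, false, false⟩,
 nat_lit 0, nat_lit 4446, nat_lit 0, nat_lit 0, nat_lit 3077, nat_lit 0, nat_lit 0, nat_lit 0, nat_lit 0, nat_lit 0, nat_lit 0, nat_lit 0, nat_lit 0, nat_lit 0, nat_lit 120, nat_lit 939400, nat_lit 0, nat_lit 0, [(nat_lit 15, [(nat_lit 5, nat_lit 101), (nat_lit 6, nat_lit 899)])],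
 ⟨p063_k50, nat_lit 0, nat_lit 0, nat_lit 152, nat_lit 0, nat_lit 313579, [nat_lit 2453855200, nat_lit 193033600], [], [nat_lit 17459623998, nat_lit 18599821972, nat_lit 17866682738, nat_lit 18955228644, nat_lit 19362713869, nat_lit 20407779568, nat_lit 19687849330, nat_lit 20687083990], nat_lit 1271250, nat_lit 1271250, nat_lit 490000, nat_lit 780000, nat_lit 1271250, nat_lit 1271250, [nat_lit 780000, nat_lit 1435000], [nat_lit 49, nat_lit 40, nat_lit 40, nat_lit 80, nat_lit 16, nat_lit 238, nat_lit 30, nat_lit 8]⟩, ⟨p063_k4, nat_lit 0, nat_lit 0, nat_lit 439, nat_lit 0, nat_lit 436424, [nat_lit 0, nat_lit 0, nat_lit 0], [], [nat_lit 0, nat_lit 0, nat_lit 0, nat_lit 0, nat_lit 0, nat_lit 0, nat_lit 0, nat_lit 0], nat_lit 1271250, nat_lit 1271250, nat_lit 490000, nat_lit 780000, nat_lit 0, nat_lit 2486000, [nat_lit 1100000, nat_lit 1785000, nat_lit 1271250], [nat_lit 29, nat_lit 40, nat_lit 40, nat_lit 80, nat_lit 17,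 nat_lit 428, nat_lit 200, nat_lit 13]⟩,
 ⟨nat_lit 4472, nat_lit 5000, ⟨.ofNat (nat_lit 328559), .ofNat (nat_lit 399984), .ofNat (nat_lit 349976), .ofNat (nat_lit 421400), .ofNat (nat_lit 339186), .ofNat (nat_lit 407160), .ofNat (nat_lit 360741), .ofNat (nat_lit 428715)⟩, ⟨.ofNat (nat_lit 442856), .ofNat (nat_lit 514284), .ofNat (nat_lit 464284), .ofNat (nat_lit 535713), .ofNat (nat_lit 438578), .ofNat (nat_lit 506556), .ofNat (nat_lit 460144), .ofNat (nat_lit 528122)⟩⟩, [⟨nat_lit 0, nat_lit 100, nat_lit 84, nat_lit 85, nat_lit 41737226⟩, ⟨nat_lit 16, nat_lit 91, nat_lit 100, nat_lit 91, nat_lit 98587400⟩]⟩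
noncomputable def p063_l130 : Lf2 := ⟨nat_lit 0, nat_lit 5, [nat_lit 4, nat_lit 5, nat_lit 5, nat_lit 20], true, nat_lit 240, nat_lit 280, nat_lit 0, nat_lit 336, ⟨nat_lit 0, nat_lit 130, nat_lit 870, nat_lit 6, nat_lit 125, nat_lit 1000, nat_lit 204, nat_lit 870, nat_lit 4603, nat_lit 229, nat_lit 147267, nat_lit 309, nat_lit 47336687, nat_lit 6274705, nat_lit 13388608, nat_lit 4214617, false, false⟩,
 nat_lit 0, nat_lit 4674, nat_lit 0, nat_lit 0, nat_lit 3235, nat_lit 0, nat_lit 0, nat_lit 0, nat_lit 0, nat_lit 0, nat_lit 0, nat_lit 0, nat_lit 0, nat_lit 0, nat_lit 97, nat_lit 922000, nat_lit 0, nat_lit 0, [(nat_lit 15, [(nat_lit 1, nat_lit 130), (nat_lit 6, nat_lit 870)])],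
 ⟨p063_k50, nat_lit 0, nat_lit 0, nat_lit 135, nat_lit 0, nat_lit 203925, [nat_lit 2279226000, nat_lit 247454000], [], [nat_lit 17462138155, nat_lit 18062144484, nat_lit 17403683890, nat_lit 17986080175, nat_lit 19591502892, nat_lit 20256829406, nat_lit 19341900795, nat_lit 19875026518], nat_lit 1271250, nat_lit 1271250, nat_lit 279600, nat_lit 490000, nat_lit 1271250, nat_lit 1271250, [nat_lit 780000, nat_lit 1435000], [nat_lit 49, nat_lit 40, nat_lit 40, nat_lit 80, nat_lit 16, nat_lit 226, nat_lit 20, nat_lit 8]⟩, C1.Rw.none,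
 ⟨nat_lit 4743, nat_lit 5000, ⟨.ofNat (nat_lit 271427), .ofNat (nat_lit 328569), .ofNat (nat_lit 292854), .ofNat (nat_lit 349996), .ofNat (nat_lit 278116), .ofNat (nat_lit 333875), .ofNat (nat_lit 299602), .ofNat (nat_lit 355361)⟩, ⟨.ofNat (nat_lit 464284), .ofNat (nat_lit 535713), .ofNat (nat_lit 485713), .ofNat (nat_lit 557141), .ofNat (nat_lit 462258), .ofNat (nat_lit 531957), .ofNat (nat_lit 483746), .ofNat (nat_lit 553445)⟩⟩, [⟨nat_lit 0, nat_lit 100, nat_lit 88, nat_lit 81, nat_lit 173229158⟩]⟩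
noncomputable def p063_l131 : Lf2 := ⟨nat_lit 0, nat_lit 5, [nat_lit 4, nat_lit 5, nat_lit 5, nat_lit 20], true, nat_lit 240, nat_lit 280, nat_lit 0, nat_lit 336, ⟨nat_lit 0, nat_lit 149, nat_lit 851, nat_lit 6, nat_lit 131, nat_lit 1000, nat_lit 203, nat_lit 851, nat_lit 7208, nat_lit 231, nat_lit 160067, nat_lit 313, nat_lit 47098423, nat_lit 6663351, nat_lit 13238226, nat_lit 4265470, false, false⟩,
 nat_lit 0, nat_lit 4436, nat_lit 0, nat_lit 0, nat_lit 3198, nat_lit 0, nat_lit 0, nat_lit 0, nat_lit 0, nat_lit 0, nat_lit 0, nat_lit 0, nat_lit 0, nat_lit 0, nat_lit 92, nat_lit 910600, nat_lit 0, nat_lit 0, [(nat_lit 15, [(nat_lit 1, nat_lit 149), (nat_lit 6, nat_lit 851)])],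
 ⟨p063_k51, nat_lit 0, nat_lit 0, nat_lit 146, nat_lit 0, nat_lit 247412, [nat_lit 2238989800, nat_lit 235534200], [], [nat_lit 18134535201, nat_lit 18727163524, nat_lit 18083305390, nat_lit 18662821928, nat_lit 20128805488, nat_lit 20786626144, nat_lit 19964424919, nat_lit 20495391568], nat_lit 1271250, nat_lit 1271250, nat_lit 330400, nat_lit 490000, nat_lit 1271250, nat_lit 1271250, [nat_lit 780000, nat_lit 1435000], [nat_lit 49, nat_lit 40, nat_lit 40, nat_lit 80, nat_lit 16, nat_lit 226, nat_lit 20, nat_lit 8]⟩, C1.Rw.none,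
 ⟨nat_lit 4472, nat_lit 4744, ⟨.ofNat (nat_lit 292052), .ofNat (nat_lit 333872), .ofNat (nat_lit 313537), .ofNat (nat_lit 355356), .ofNat (nat_lit 298407), .ofNat (nat_lit 339193), .ofNat (nat_lit 319970), .ofNat (nat_lit 360756)⟩, ⟨.ofNat (nat_lit 462258), .ofNat (nat_lit 531957), .ofNat (nat_lit 483746), .ofNat (nat_lit 553445), .ofNat (nat_lit 460144), .ofNat (nat_lit 528122), .ofNat (nat_lit 481711), .ofNat (nat_lit 549689)⟩⟩, [⟨nat_lit 0, nat_lit 100, nat_lit 84, nat_lit 85, nat_lit 250334423⟩]⟩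
noncomputable def p063_l132 : Lf2 := ⟨nat_lit 0, nat_lit 5, [nat_lit 4, nat_lit 5, nat_lit 5, nat_lit 20], false, nat_lit 240, nat_lit 280, nat_lit 0, nat_lit 364, ⟨nat_lit 0, nat_lit 70, nat_lit 930, nat_lit 6, nat_lit 151, nat_lit 1000, nat_lit 204, nat_lit 930, nat_lit 4603, nat_lit 229, nat_lit 212817, nat_lit 328, nat_lit 45628064, nat_lit 8208757, nat_lit 13163179, nat_lit 4498823, false, false⟩,
 nat_lit 0, nat_lit 4583, nat_lit 0, nat_lit 0, nat_lit 3172, nat_lit 0, nat_lit 0, nat_lit 0, nat_lit 0, nat_lit 0, nat_lit 0, nat_lit 0, nat_lit 0, nat_lit 0, nat_lit 111, nat_lit 958000, nat_lit 0, nat_lit 0, [(nat_lit 15, [(nat_lit 1, nat_lit 70), (nat_lit 6, nat_lit 930)])],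
 ⟨p063_k50, nat_lit 0, nat_lit 0, nat_lit 119, nat_lit 0, nat_lit 203925, [nat_lit 2384814000, nat_lit 249306000], [], [nat_lit 17382005128, nat_lit 17959498060, nat_lit 17775157768, nat_lit 18326307676, nat_lit 19306215684, nat_lit 19835117666, nat_lit 19615865480, nat_lit 20121400360], nat_lit 1271250, nat_lit 1271250, nat_lit 490000, nat_lit 780000, nat_lit 1271250, nat_lit 1271250, [nat_lit 780000, nat_lit 1435000], [nat_lit 49, nat_lit 40, nat_lit 40, nat_lit 80, nat_lit 16, nat_lit 238, nat_lit 30, nat_lit 8]⟩, ⟨p063_k4, nat_lit 0, nat_lit 0, nat_lit 344, nat_lit 0, nat_lit 285628, [nat_lit 0, nat_lit 0, nat_lit 0], [], [nat_lit 0, nat_lit 0, nat_lit 0, nat_lit 0, nat_lit 0, nat_lit 0, nat_lit 0, nat_lit 0], nat_lit 1271250, nat_lit 1271250, nat_lit 490000, nat_lit 780000, nat_lit 0, nat_lit 2570750, [nat_lit 1100000, nat_lit 1785000, nat_lit 1271250], [nat_lit 29, nat_lit 40, nat_lit 40, nat_lit 80, nat_lit 17,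 nat_lit 428, nat_lit 200, nat_lit 13]⟩,
 ⟨nat_lit 4743, nat_lit 5000, ⟨.ofNat (nat_lit 328569), .ofNat (nat_lit 399997), .ofNat (nat_lit 349996), .ofNat (nat_lit 421423), .ofNat (nat_lit 333875), .ofNat (nat_lit 403574), .ofNat (nat_lit 355361), .ofNat (nat_lit 425060)⟩, ⟨.ofNat (nat_lit 464284), .ofNat (nat_lit 535713), .ofNat (nat_lit 485713), .ofNat (nat_lit 557141), .ofNat (nat_lit 462258), .ofNat (nat_lit 531957), .ofNat (nat_lit 483746), .ofNat (nat_lit 553445)⟩⟩, []⟩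
noncomputable def p063_l133 : Lf2 := ⟨nat_lit 0, nat_lit 5, [nat_lit 4, nat_lit 5, nat_lit 5, nat_lit 20], false, nat_lit 240, nat_lit 280, nat_lit 0, nat_lit 364, ⟨nat_lit 0, nat_lit 71, nat_lit 929, nat_lit 6, nat_lit 153, nat_lit 1000, nat_lit 203, nat_lit 929, nat_lit 7208, nat_lit 231, nat_lit 220417, nat_lit 330, nat_lit 45601487, nat_lit 8358536, nat_lit 13039977, nat_lit 4508025, false, false⟩,
 nat_lit 0, nat_lit 4325, nat_lit 0, nat_lit 0, nat_lit 3117, nat_lit 0, nat_lit 0, nat_lit 0, nat_lit 0, nat_lit 0, nat_lit 0, nat_lit 0, nat_lit 0, nat_lit 0, nat_lit 111, nat_lit 957400, nat_lit 0, nat_lit 0, [(nat_lit 15, [(nat_lit 1, nat_lit 71), (nat_lit 6, nat_lit 929)])],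
 ⟨p063_k51, nat_lit 0, nat_lit 0, nat_lit 135, nat_lit 0, nat_lit 247412, [nat_lit 2385854200, nat_lit 253941800], [], [nat_lit 18047345185, nat_lit 18620557412, nat_lit 18422505011, nat_lit 18969673524, nat_lit 19911330339, nat_lit 20436544928, nat_lit 20206839860, nat_lit 20708948790], nat_lit 1271250, nat_lit 1271250, nat_lit 490000, nat_lit 780000, nat_lit 1271250, nat_lit 1271250, [nat_lit 780000, nat_lit 1435000], [nat_lit 49, nat_lit 40, nat_lit 40, nat_lit 80, nat_lit 16, nat_lit 238, nat_lit 30, nat_lit 8]⟩, ⟨p063_k4, nat_lit 0, nat_lit 0, nat_lit 380, nat_lit 0, nat_lit 364153, [nat_lit 0, nat_lit 0, nat_lit 0], [], [nat_lit 0, nat_lit 0, nat_lit 0, nat_lit 0, nat_lit 0, nat_lit 0, nat_lit 0, nat_lit 0], nat_lit 1271250, nat_lit 1271250, nat_lit 490000, nat_lit 780000, nat_lit 0, nat_lit 2570750, [nat_lit 1100000, nat_lit 1785000, nat_lit 1271250], [nat_lit 29, nat_lit 40, nat_lit 40, nat_lit 80, nat_lit 17,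 nat_lit 428, nat_lit 200, nat_lit 13]⟩,
 ⟨nat_lit 4472, nat_lit 4744, ⟨.ofNat (nat_lit 333872), .ofNat (nat_lit 403571), .ofNat (nat_lit 355356), .ofNat (nat_lit 425056), .ofNat (nat_lit 339193), .ofNat (nat_lit 407171), .ofNat (nat_lit 360756), .ofNat (nat_lit 428734)⟩, ⟨.ofNat (nat_lit 462258), .ofNat (nat_lit 531957), .ofNat (nat_lit 483746), .ofNat (nat_lit 553445), .ofNat (nat_lit 460144), .ofNat (nat_lit 528122), .ofNat (nat_lit 481711), .ofNat (nat_lit 549689)⟩⟩, [⟨nat_lit 0, nat_lit 100, nat_lit 84, nat_lit 85, nat_lit 67368384⟩, ⟨nat_lit 4, nat_lit 99, nat_lit 92, nat_lit 100, nat_lit 18701742⟩]⟩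
noncomputable def b_V_700_600_20_37 : St := ⟨true, nat_lit 1, nat_lit 1, nat_lit 1, nat_lit 120, nat_lit 300, nat_lit 320, nat_lit 240, nat_lit 260, nat_lit 48, nat_lit 120, nat_lit 80, nat_lit 120, nat_lit 240, nat_lit 280, nat_lit 0, nat_lit 364, nat_lit 0, nat_lit 20, nat_lit 0, nat_lit 0, nat_lit 0, nat_lit 0⟩
theorem d_V_700_600_20_37 (h : EB TB.env) : Dead b_V_700_600_20_37 := chkB_sound0 h (T :=
(.spl (nat_lit 3) (nat_lit 100)
(.trX (nat_lit 19) (nat_lit 100) (nat_lit 68) (nat_lit 88) (nat_lit 352) (.spl (nat_lit 2) (nat_lit 80)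
(.trX (nat_lit 23) (nat_lit 100) (nat_lit 76) (nat_lit 82) (nat_lit 336) (.spl (nat_lit 0) (nat_lit 310)
(.leaf p063_l127)
(.trZ (nat_lit 0) (nat_lit 100) (nat_lit 85) (nat_lit 72) (nat_lit 56) (.leaf p063_l128))))
(.leaf p063_l129)))
(.spl (nat_lit 2) (nat_lit 80)
(.trX (nat_lit 23) (nat_lit 100) (nat_lit 76) (nat_lit 82) (nat_lit 336) (.spl (nat_lit 0) (nat_lit 310)
(.leaf p063_l130)
(.trZ (nat_lit 0) (nat_lit 100) (nat_lit 85) (nat_lit 72) (nat_lit 56) (.leaf p063_l131))))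
(.spl (nat_lit 0) (nat_lit 310)
(.leaf p063_l132)
(.leaf p063_l133))))) (by decide +kernel)
noncomputable def p063_l134 : Lf2 := ⟨nat_lit 0, nat_lit 2, [nat_lit 10, nat_lit 5, nat_lit 5, nat_lit 20], false, nat_lit 280, nat_lit 300, nat_lit 0, nat_lit 160, ⟨nat_lit 89, nat_lit 48, nat_lit 863, nat_lit 6, nat_lit 127, nat_lit 911, nat_lit 215, nat_lit 863, nat_lit 3033, nat_lit 223, nat_lit 150417, nat_lit 310, nat_lit 46209762, nat_lit 6301579, nat_lit 14488659, nat_lit 4325394, false, false⟩,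
 nat_lit 2890, nat_lit 1405, nat_lit 0, nat_lit 0, nat_lit 2973, nat_lit 1529, nat_lit 0, nat_lit 0, nat_lit 0, nat_lit 0, nat_lit 0, nat_lit 0, nat_lit 0, nat_lit 0, nat_lit 5, nat_lit 911000, nat_lit 0, nat_lit 0, [(nat_lit 15, [(nat_lit 2, nat_lit 48), (nat_lit 6, nat_lit 863)])],
 ⟨p063_k52, nat_lit 0, nat_lit 0, nat_lit 0, nat_lit 0, nat_lit 303234, [nat_lit 1068778434, nat_lit 593836567, nat_lit 5601600], [], [nat_lit 19512027226, nat_lit 20491448243, nat_lit 19525902244, nat_lit 20462504306, nat_lit 20425191092, nat_lit 21643678274, nat_lit 20418318596, nat_lit 21372922038], nat_lit 1271250, nat_lit 1271250, nat_lit 279600, nat_lit 490000, nat_lit 1271250, nat_lit 1271250, [nat_lit 631250, nat_lit 936250, nat_lit 1100000], [nat_lit 214, nat_lit 40, nat_lit 20, nat_lit 40]⟩, ⟨p063_k21, nat_lit 0, nat_lit 0, nat_lit 368, nat_lit 0, nat_lit 420260, [nat_lit 417232000, nat_lit 556250000, nat_lit 709152000], [], [nat_lit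 3426259800, nat_lit 2632351014, nat_lit 2152228500, nat_lit 1891894206, nat_lit 1996749888, nat_lit 1268347131, nat_lit 2189842764, nat_lit 1469368790], nat_lit 1271250, nat_lit 1271250, nat_lit 279600, nat_lit 490000, nat_lit 0, nat_lit 1100001, [nat_lit 1100000, nat_lit 1442500, nat_lit 1271250], [nat_lit 9, nat_lit 40, nat_lit 40, nat_lit 80, nat_lit 2, nat_lit 272, nat_lit 60, nat_lit 9]⟩,
 ⟨nat_lit 4472, nat_lit 5000, ⟨.ofNat (nat_lit 271418), .ofNat (nat_lit 328559), .ofNat (nat_lit 292837), .ofNat (nat_lit 349976), .ofNat (nat_lit 284805), .ofNat (nat_lit 339186), .ofNat (nat_lit 306362), .ofNat (nat_lit 360741)⟩, ⟨.ofNat (nat_lit 514284), .ofNat (nat_lit 549998), .ofNat (nat_lit 535713), .ofNat (nat_lit 571427), .ofNat (nat_lit 506556), .ofNat (nat_lit 540545), .ofNat (nat_lit 528122), .ofNat (nat_lit 562111)⟩⟩, [⟨nat_lit 0, nat_lit 100, nat_lit 88, nat_lit 68, nat_lit 301764023⟩, ⟨nat_lit 16, nat_lit 100, nat_lit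 100, nat_lit 100, nat_lit 60523222⟩]⟩
noncomputable def p063_l135 : Lf2 := ⟨nat_lit 0, nat_lit 2, [nat_lit 10, nat_lit 5, nat_lit 5, nat_lit 20], false, nat_lit 280, nat_lit 300, nat_lit 160, nat_lit 300, ⟨nat_lit 120, nat_lit 0, nat_lit 880, nat_lit 6, nat_lit 127, nat_lit 880, nat_lit 215, nat_lit 880, nat_lit 3033, nat_lit 223, nat_lit 150417, nat_lit 310, nat_lit 46209762, nat_lit 0, nat_lit 0, nat_lit 4325394, false, false⟩,
 nat_lit 2869, nat_lit 1269, nat_lit 0, nat_lit 0, nat_lit 2864, nat_lit 1518, nat_lit 0, nat_lit 0, nat_lit 0, nat_lit 19, nat_lit 0, nat_lit 0, nat_lit 0, nat_lit 0, nat_lit 2, nat_lit 880000, nat_lit 0, nat_lit 0, [(nat_lit 15, [(nat_lit 6, nat_lit 880)])],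
 ⟨p063_k53, nat_lit 0, nat_lit 0, nat_lit 0, nat_lit 0, nat_lit 303234, [nat_lit 619060000, nat_lit 1020436000, nat_lit 616148001, nat_lit 15872000], [], [nat_lit 19312133474, nat_lit 20360175264, nat_lit 19318544418, nat_lit 20304373122, nat_lit 20243109762, nat_lit 21469892704, nat_lit 20224063746, nat_lit 21217173568], nat_lit 1271250, nat_lit 1271250, nat_lit 279600, nat_lit 490000, nat_lit 1271250, nat_lit 1271250, [nat_lit 356250, nat_lit 631250, nat_lit 936250, nat_lit 1100000], [nat_lit 235, nat_lit 10, nat_lit 4, nat_lit 20]⟩, ⟨p063_k21, nat_lit 0, nat_lit 0, nat_lit 267, nat_lit 0, nat_lit 420260, [nat_lit 562560000, nat_lit 750000000, nat_lit 956160000], [], [nat_lit 3916845591, nat_lit 3128648379, nat_lit 2651979984, nat_lit 1873157940, nat_lit 3173636628, nat_lit 3003624863, nat_lit 3367311636, nat_lit 2637045099], nat_lit 1271250, nat_lit 1271250, nat_lit 279600, nat_lit 490000, nat_lit 1100001, nat_lit 2298750,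 [nat_lit 1100000, nat_lit 1442500, nat_lit 1271250], [nat_lit 9, nat_lit 40, nat_lit 40, nat_lit 80, nat_lit 2, nat_lit 317, nat_lit 100, nat_lit 10]⟩,
 ⟨nat_lit 4472, nat_lit 5000, ⟨.ofNat (nat_lit 271418), .ofNat (nat_lit 328559), .ofNat (nat_lit 292837), .ofNat (nat_lit 349976), .ofNat (nat_lit 284805), .ofNat (nat_lit 339186), .ofNat (nat_lit 306362), .ofNat (nat_lit 360741)⟩, ⟨.ofNat (nat_lit 514284), .ofNat (nat_lit 549998), .ofNat (nat_lit 535713), .ofNat (nat_lit 571427), .ofNat (nat_lit 506556), .ofNat (nat_lit 540545), .ofNat (nat_lit 528122), .ofNat (nat_lit 562111)⟩⟩, [⟨nat_lit 0, nat_lit 100, nat_lit 86, nat_lit 77, nat_lit 229666142⟩, ⟨nat_lit 16, nat_lit 100, nat_lit 100, nat_lit 100, nat_lit 248657703⟩, ⟨nat_lit 23, nat_lit 95, nat_lit 100, nat_lit 78, nat_lit 29578855⟩]⟩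
noncomputable def p063_l136 : Lf2 := ⟨nat_lit 0, nat_lit 2, [nat_lit 10, nat_lit 5, nat_lit 5, nat_lit 20], false, nat_lit 280, nat_lit 300, nat_lit 0, nat_lit 336, ⟨nat_lit 0, nat_lit 233, nat_lit 767, nat_lit 6, nat_lit 152, nat_lit 1000, nat_lit 215, nat_lit 767, nat_lit 3033, nat_lit 223, nat_lit 216600, nat_lit 329, nat_lit 44584429, nat_lit 8188667, nat_lit 14226904, nat_lit 4598549, false, false⟩,
 nat_lit 0, nat_lit 4430, nat_lit 0, nat_lit 0, nat_lit 3066, nat_lit 0, nat_lit 0, nat_lit 0, nat_lit 0, nat_lit 0, nat_lit 0, nat_lit 0, nat_lit 0, nat_lit 0, nat_lit 9, nat_lit 1000000, nat_lit 0, nat_lit 0, [(nat_lit 15, [(nat_lit 2, nat_lit 233), (nat_lit 6, nat_lit 767)])],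
 ⟨p063_k52, nat_lit 0, nat_lit 0, nat_lit 0, nat_lit 0, nat_lit 303234, [nat_lit 1101112934, nat_lit 654006267, nat_lit 7947200], [], [nat_lit 19314630260, nat_lit 20276096008, nat_lit 19639837883, nat_lit 20580128602, nat_lit 20215137563, nat_lit 21415045968, nat_lit 20537738880, nat_lit 21528277732], nat_lit 1271250, nat_lit 1271250, nat_lit 490000, nat_lit 780000, nat_lit 1271250, nat_lit 1271250, [nat_lit 631250, nat_lit 936250, nat_lit 1100000], [nat_lit 214, nat_lit 40, nat_lit 20, nat_lit 40]⟩, ⟨p063_k21, nat_lit 0, nat_lit 0, nat_lit 320, nat_lit 0, nat_lit 420260, [nat_lit 0, nat_lit 0, nat_lit 0], [], [nat_lit 0, nat_lit 0, nat_lit 0, nat_lit 0, nat_lit 0, nat_lit 0, nat_lit 0, nat_lit 0], nat_lit 1271250, nat_lit 1271250, nat_lit 490000, nat_lit 780000, nat_lit 0, nat_lit 2373000, [nat_lit 1100000, nat_lit 1442500, nat_lit 1271250], [nat_lit 9, nat_lit 40, nat_lit 40, nat_lit 80, nat_lit 2, nat_lit 345, nat_lit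 125, nat_lit 12]⟩,
 ⟨nat_lit 4472, nat_lit 5000, ⟨.ofNat (nat_lit 328559), .ofNat (nat_lit 399984), .ofNat (nat_lit 349976), .ofNat (nat_lit 421400), .ofNat (nat_lit 339186), .ofNat (nat_lit 407160), .ofNat (nat_lit 360741), .ofNat (nat_lit 428715)⟩, ⟨.ofNat (nat_lit 514284), .ofNat (nat_lit 549998), .ofNat (nat_lit 535713), .ofNat (nat_lit 571427), .ofNat (nat_lit 506556), .ofNat (nat_lit 540545), .ofNat (nat_lit 528122), .ofNat (nat_lit 562111)⟩⟩, [⟨nat_lit 16, nat_lit 100, nat_lit 100, nat_lit 100, nat_lit 220664204⟩]⟩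
noncomputable def p063_l137 : Lf2 := ⟨nat_lit 0, nat_lit 5, [nat_lit 4, nat_lit 5, nat_lit 5, nat_lit 20], false, nat_lit 280, nat_lit 300, nat_lit 0, nat_lit 336, ⟨nat_lit 0, nat_lit 451, nat_lit 549, nat_lit 6, nat_lit 138, nat_lit 1000, nat_lit 215, nat_lit 549, nat_lit 3033, nat_lit 223, nat_lit 180267, nat_lit 319, nat_lit 45455166, nat_lit 7173172, nat_lit 14371662, nat_lit 4458244, false, false⟩,
 nat_lit 0, nat_lit 4974, nat_lit 0, nat_lit 0, nat_lit 3443, nat_lit 0, nat_lit 0, nat_lit 0, nat_lit 0, nat_lit 0, nat_lit 0, nat_lit 0, nat_lit 0, nat_lit 0, nat_lit 6, nat_lit 637000, nat_lit 0, nat_lit 0, [(nat_lit 15, [(nat_lit 1, nat_lit 451), (nat_lit 5, nat_lit 154), (nat_lit 6, nat_lit 395)])],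
 ⟨p063_k50, nat_lit 0, nat_lit 0, nat_lit 0, nat_lit 0, nat_lit 205962, [nat_lit 1572751000, nat_lit 89207800], [], [nat_lit 20054551440, nat_lit 21138316177, nat_lit 20084125870, nat_lit 21128956810, nat_lit 20996353602, nat_lit 22291702772, nat_lit 21032351534, nat_lit 22028830617], nat_lit 1271250, nat_lit 1271250, nat_lit 279600, nat_lit 780000, nat_lit 1271250, nat_lit 1271250, [nat_lit 780000, nat_lit 1435000], [nat_lit 49, nat_lit 40, nat_lit 40, nat_lit 80]⟩, ⟨p063_k4, nat_lit 0, nat_lit 0, nat_lit 368, nat_lit 0, nat_lit 286648, [nat_lit 0, nat_lit 0, nat_lit 0], [], [nat_lit 0, nat_lit 0, nat_lit 0, nat_lit 0, nat_lit 0, nat_lit 0, nat_lit 0, nat_lit 0], nat_lit 1271250, nat_lit 1271250, nat_lit 279600, nat_lit 780000, nat_lit 0, nat_lit 2373000, [nat_lit 1100000, nat_lit 1785000, nat_lit 1271250], [nat_lit 29, nat_lit 40, nat_lit 40, nat_lit 80, nat_lit 17, nat_lit 428, nat_lit 200, nat_lit 13]⟩,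
 ⟨nat_lit 4472, nat_lit 5000, ⟨.ofNat (nat_lit 271418), .ofNat (nat_lit 399984), .ofNat (nat_lit 282128), .ofNat (nat_lit 410692), .ofNat (nat_lit 284805), .ofNat (nat_lit 407160), .ofNat (nat_lit 295584), .ofNat (nat_lit 417938)⟩, ⟨.ofNat (nat_lit 514284), .ofNat (nat_lit 549998), .ofNat (nat_lit 535713), .ofNat (nat_lit 571427), .ofNat (nat_lit 506556), .ofNat (nat_lit 540545), .ofNat (nat_lit 528122), .ofNat (nat_lit 562111)⟩⟩, [⟨nat_lit 0, nat_lit 100, nat_lit 86, nat_lit 74, nat_lit 111912285⟩, ⟨nat_lit 16, nat_lit 100, nat_lit 100, nat_lit 100, nat_lit 210849144⟩]⟩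
noncomputable def p063_l138 : Lf2 := ⟨nat_lit 0, nat_lit 5, [nat_lit 4, nat_lit 5, nat_lit 5, nat_lit 20], false, nat_lit 280, nat_lit 300, nat_lit 0, nat_lit 336, ⟨nat_lit 0, nat_lit 7, nat_lit 993, nat_lit 6, nat_lit 146, nat_lit 1000, nat_lit 215, nat_lit 993, nat_lit 3033, nat_lit 223, nat_lit 198017, nat_lit 324, nat_lit 44993624, nat_lit 7710180, nat_lit 14296196, nat_lit 4534268, false, false⟩,
 nat_lit 0, nat_lit 3844, nat_lit 0, nat_lit 0, nat_lit 2660, nat_lit 0, nat_lit 0, nat_lit 0, nat_lit 0, nat_lit 0, nat_lit 0, nat_lit 0, nat_lit 0, nat_lit 0, nat_lit 47, nat_lit 398950, nat_lit 0, nat_lit 0, [(nat_lit 15, [(nat_lit 0, nat_lit 7), (nat_lit 5, nat_lit 993)])],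
 ⟨p063_k54, nat_lit 0, nat_lit 0, nat_lit 0, nat_lit 0, nat_lit 236230, [nat_lit 943111200, nat_lit 1208297201, nat_lit 1072139400, nat_lit 61847100], [], [nat_lit 19177932141, nat_lit 20092622736, nat_lit 19600426461, nat_lit 20506361641, nat_lit 20032750289, nat_lit 21191383640, nat_lit 20468224121, nat_lit 21340543681], nat_lit 1271250, nat_lit 1271250, nat_lit 330400, nat_lit 780000, nat_lit 1271250, nat_lit 1271250, [nat_lit 356250, nat_lit 631250, nat_lit 936250, nat_lit 1438750], [nat_lit 177, nat_lit 40, nat_lit 20, nat_lit 40]⟩, ⟨p063_k22, nat_lit 0, nat_lit 0, nat_lit 290, nat_lit 0, nat_lit 309486, [nat_lit 0, nat_lit 0, nat_lit 0], [], [nat_lit 0, nat_lit 0, nat_lit 0, nat_lit 0, nat_lit 0, nat_lit 0, nat_lit 0, nat_lit 0], nat_lit 1271250, nat_lit 1271250, nat_lit 330400, nat_lit 780000, nat_lit 0, nat_lit 2373000, [nat_lit 1100000, nat_lit 1442500, nat_lit 1271250], [nat_lit 9, nat_lit 40, nat_lit 40, nat_lit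 80, nat_lit 2, nat_lit 345, nat_lit 125, nat_lit 12]⟩,
 ⟨nat_lit 4472, nat_lit 5000, ⟨.ofNat (nat_lit 296413), .ofNat (nat_lit 410692), .ofNat (nat_lit 307122), .ofNat (nat_lit 421400), .ofNat (nat_lit 309179), .ofNat (nat_lit 417938), .ofNat (nat_lit 319957), .ofNat (nat_lit 428715)⟩, ⟨.ofNat (nat_lit 514284), .ofNat (nat_lit 549998), .ofNat (nat_lit 535713), .ofNat (nat_lit 571427), .ofNat (nat_lit 506556), .ofNat (nat_lit 540545), .ofNat (nat_lit 528122), .ofNat (nat_lit 562111)⟩⟩, [⟨nat_lit 0, nat_lit 100, nat_lit 87, nat_lit 79, nat_lit 79091396⟩, ⟨nat_lit 16, nat_lit 100, nat_lit 100, nat_lit 100, nat_lit 98959833⟩]⟩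
noncomputable def b_V_700_600_20_38 : St := ⟨true, nat_lit 1, nat_lit 1, nat_lit 1, nat_lit 120, nat_lit 300, nat_lit 320, nat_lit 240, nat_lit 260, nat_lit 48, nat_lit 120, nat_lit 80, nat_lit 100, nat_lit 280, nat_lit 320, nat_lit 0, nat_lit 336, nat_lit 0, nat_lit 20, nat_lit 0, nat_lit 600, nat_lit 0, nat_lit 0⟩
theorem d_V_700_600_20_38 (h : EB TB.env) : Dead b_V_700_600_20_38 := chkB_sound0 h (T :=
(.trX (nat_lit 16) (nat_lit 100) (nat_lit 100) (nat_lit 100) (nat_lit 300) (.spl (nat_lit 6) (nat_lit 8)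
(.spl (nat_lit 2) (nat_lit 80)
(.trX (nat_lit 23) (nat_lit 100) (nat_lit 95) (nat_lit 87) (nat_lit 300) (.spl (nat_lit 5) (nat_lit 160)
(.leaf p063_l134)
(.leaf p063_l135)))
(.leaf p063_l136))
(.spl (nat_lit 1) (nat_lit 250)
(.leaf p063_l137)
(.trZ (nat_lit 0) (nat_lit 100) (nat_lit 89) (nat_lit 72) (nat_lit 56) (.leaf p063_l138)))))) (by decide +kernel)

end B2
end Pool.Agent.Lib.MP_6947cd_al
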