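import Pool.Agent.Lib.MP_6947cd_al.ZB.Pre

/-!
Problem MP_6947cd_al (Chollet).  Case B, second entry in [2/5, 17/20]: certificates of the tree, part P065 (generated).
-/

set_option autoImplicit false
set_option linter.all false

namespace Pool.Agent.Lib.MP_6947cd_al
namespace B2

open Ent Fr B1 PkA

noncomputable def p065_k0 : C1.Kn := ⟨[nat_lit 60, nat_lit 100, nat_lit 140], [nat_lit 0, nat_lit 0, nat_lit 2047], [(nat_lit 0, nat_lit 0, nat_lit 0), (nat_lit 0, nat_lit 0, nat_lit 0), (nat_lit 1000, nat_lit 993, nat_lit 781)], (nat_lit 94, nat_lit 100, nat_lit 62)⟩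
noncomputable def p065_k1 : C1.Kn := ⟨[nat_lit 60, nat_lit 100, nat_lit 120], [nat_lit 0, nat_lit 609, nat_lit 1609], [(nat_lit 0, nat_lit 0, nat_lit 0), (nat_lit 1000, nat_lit 905, nat_lit 238), (nat_lit 1000, nat_lit 882, nat_lit 668)], (nat_lit 87, nat_lit 100, nat_lit 60)⟩
noncomputable def p065_k2 : C1.Kn := ⟨[nat_lit 60, nat_lit 100, nat_lit 120], [nat_lit 0, nat_lit 302, nat_lit 1376], [(nat_lit 0, nat_lit 0, nat_lit 0), (nat_lit 1000, nat_lit 953, nat_lit 118), (nat_lit 1000, nat_lit 911, nat_lit 628)], (nat_lit 91, nat_lit 100, nat_lit 61)⟩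
noncomputable def p065_k3 : C1.Kn := ⟨[nat_lit 80, nat_lit 120, nat_lit 160], [nat_lit 0, nat_lit 0, nat_lit 2132], [(nat_lit 0, nat_lit 0, nat_lit 0), (nat_lit 0, nat_lit 0, nat_lit 0), (nat_lit 858, nat_lit 1000, nat_lit 713)], (nat_lit 100, nat_lit 92, nat_lit 61)⟩
noncomputable def p065_k4 : C1.Kn := ⟨[nat_lit 60, nat_lit 80, nat_lit 140], [nat_lit 0, nat_lit 0, nat_lit 1595], [(nat_lit 0, nat_lit 0, nat_lit 0), (nat_lit 0, nat_lit 0, nat_lit 0), (nat_lit 1000, nat_lit 917, nat_lit 415)], (nat_lit 94, nat_lit 100, nat_lit 62)⟩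
noncomputable def p065_k5 : C1.Kn := ⟨[nat_lit 80, nat_lit 100, nat_lit 160], [nat_lit 0, nat_lit 0, nat_lit 1533], [(nat_lit 0, nat_lit 0, nat_lit 0), (nat_lit 0, nat_lit 0, nat_lit 0), (nat_lit 1000, nat_lit 1000, nat_lit 399)], (nat_lit 100, nat_lit 92, nat_lit 61)⟩
noncomputable def p065_k6 : C1.Kn := ⟨[nat_lit 60, nat_lit 80, nat_lit 120], [nat_lit 0, nat_lit 151, nat_lit 1205], [(nat_lit 0, nat_lit 0, nat_lit 0), (nat_lit 1000, nat_lit 953, nat_lit 118), (nat_lit 1000, nat_lit 894, nat_lit 411)], (nat_lit 91, nat_lit 100, nat_lit 61)⟩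
noncomputable def p065_k7 : C1.Kn := ⟨[nat_lit 60, nat_lit 80, nat_lit 120], [nat_lit 0, nat_lit 304, nat_lit 1346], [(nat_lit 0, nat_lit 0, nat_lit 0), (nat_lit 1000, nat_lit 905, nat_lit 238), (nat_lit 1000, nat_lit 871, nat_lit 407)], (nat_lit 87, nat_lit 100, nat_lit 60)⟩
noncomputable def p065_k8 : C1.Kn := ⟨[nat_lit 80, nat_lit 100, nat_lit 140], [nat_lit 0, nat_lit 265, nat_lit 1269], [(nat_lit 0, nat_lit 0, nat_lit 0), (nat_lit 1000, nat_lit 959, nat_lit 206), (nat_lit 1000, nat_lit 958, nat_lit 392)], (nat_lit 100, nat_lit 99, nat_lit 63)⟩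
noncomputable def p065_k9 : C1.Kn := ⟨[nat_lit 60, nat_lit 100, nat_lit 140], [nat_lit 0, nat_lit 0, nat_lit 2047], [(nat_lit 0, nat_lit 0, nat_lit 0), (nat_lit 0, nat_lit 0, nat_lit 0), (nat_lit 1000, nat_lit 993, nat_lit 781)], (nat_lit 99, nat_lit 100, nat_lit 77)⟩
noncomputable def p065_k10 : C1.Kn := ⟨[nat_lit 80, nat_lit 120, nat_lit 160], [nat_lit 0, nat_lit 0, nat_lit 2132], [(nat_lit 0, nat_lit 0, nat_lit 0), (nat_lit 0, nat_lit 0, nat_lit 0), (nat_lit 858, nat_lit 1000, nat_lit 713)], (nat_lit 100, nat_lit 85, nat_lit 73)⟩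
noncomputable def p065_k11 : C1.Kn := ⟨[nat_lit 60, nat_lit 100, nat_lit 140], [nat_lit 0, nat_lit 609, nat_lit 2558], [(nat_lit 0, nat_lit 0, nat_lit 0), (nat_lit 1000, nat_lit 905, nat_lit 238), (nat_lit 1000, nat_lit 904, nat_lit 760)], (nat_lit 90, nat_lit 100, nat_lit 74)⟩
noncomputable def p065_k12 : C1.Kn := ⟨[nat_lit 60, nat_lit 80, nat_lit 140], [nat_lit 0, nat_lit 304, nat_lit 1867], [(nat_lit 0, nat_lit 0, nat_lit 0), (nat_lit 1000, nat_lit 905, nat_lit 238), (nat_lit 1000, nat_lit 871, nat_lit 407)], (nat_lit 90, nat_lit 100, nat_lit 74)⟩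
noncomputable def p065_k13 : C1.Kn := ⟨[nat_lit 80, nat_lit 120, nat_lit 160], [nat_lit 0, nat_lit 528, nat_lit 2577], [(nat_lit 0, nat_lit 0, nat_lit 0), (nat_lit 1000, nat_lit 959, nat_lit 206), (nat_lit 929, nat_lit 1000, nat_lit 742)], (nat_lit 100, nat_lit 92, nat_lit 75)⟩
noncomputable def p065_k14 : C1.Kn := ⟨[nat_lit 80, nat_lit 100, nat_lit 160], [nat_lit 0, nat_lit 0, nat_lit 1533], [(nat_lit 0, nat_lit 0, nat_lit 0), (nat_lit 0, nat_lit 0, nat_lit 0), (nat_lit 1000, nat_lit 1000, nat_lit 399)], (nat_lit 100, nat_lit 85, nat_lit 73)⟩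
noncomputable def p065_k15 : C1.Kn := ⟨[nat_lit 60, nat_lit 100, nat_lit 140], [nat_lit 0, nat_lit 909, nat_lit 2819], [(nat_lit 0, nat_lit 0, nat_lit 0), (nat_lit 1000, nat_lit 858, nat_lit 354), (nat_lit 1000, nat_lit 858, nat_lit 746)], (nat_lit 85, nat_lit 100, nat_lit 73)⟩
noncomputable def p065_k16 : C1.Kn := ⟨[nat_lit 60, nat_lit 80, nat_lit 140], [nat_lit 0, nat_lit 0, nat_lit 1595], [(nat_lit 0, nat_lit 0, nat_lit 0), (nat_lit 0, nat_lit 0, nat_lit 0), (nat_lit 1000, nat_lit 917, nat_lit 415)], (nat_lit 99, nat_lit 100, nat_lit 77)⟩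
noncomputable def p065_k17 : C1.Kn := ⟨[nat_lit 60, nat_lit 80, nat_lit 120], [nat_lit 0, nat_lit 304, nat_lit 1346], [(nat_lit 0, nat_lit 0, nat_lit 0), (nat_lit 1000, nat_lit 905, nat_lit 238), (nat_lit 1000, nat_lit 871, nat_lit 407)], (nat_lit 88, nat_lit 100, nat_lit 66)⟩
noncomputable def p065_k18 : C1.Kn := ⟨[nat_lit 80, nat_lit 100, nat_lit 160], [nat_lit 0, nat_lit 265, nat_lit 1771], [(nat_lit 0, nat_lit 0, nat_lit 0), (nat_lit 1000, nat_lit 959, nat_lit 206), (nat_lit 1000, nat_lit 958, nat_lit 392)], (nat_lit 100, nat_lit 92, nat_lit 75)⟩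
noncomputable def p065_k19 : C1.Kn := ⟨[nat_lit 60, nat_lit 80, nat_lit 120], [nat_lit 0, nat_lit 533, nat_lit 1600], [(nat_lit 0, nat_lit 0, nat_lit 0), (nat_lit 1000, nat_lit 837, nat_lit 397), (nat_lit 1000, nat_lit 833, nat_lit 417)], (nat_lit 83, nat_lit 100, nat_lit 73)⟩
noncomputable def p065_k20 : C1.Kn := ⟨[nat_lit 60, nat_lit 100, nat_lit 120], [nat_lit 0, nat_lit 909, nat_lit 1866], [(nat_lit 0, nat_lit 0, nat_lit 0), (nat_lit 1000, nat_lit 858, nat_lit 354), (nat_lit 1000, nat_lit 849, nat_lit 705)], (nat_lit 84, nat_lit 100, nat_lit 66)⟩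
noncomputable def p065_k21 : C1.Kn := ⟨[nat_lit 80, nat_lit 120, nat_lit 160], [nat_lit 0, nat_lit 0, nat_lit 2132], [(nat_lit 0, nat_lit 0, nat_lit 0), (nat_lit 0, nat_lit 0, nat_lit 0), (nat_lit 858, nat_lit 1000, nat_lit 713)], (nat_lit 100, nat_lit 89, nat_lit 66)⟩
noncomputable def p065_k22 : C1.Kn := ⟨[nat_lit 60, nat_lit 140], [nat_lit 0, nat_lit 0], [(nat_lit 0, nat_lit 0, nat_lit 0), (nat_lit 0, nat_lit 0, nat_lit 0)], (nat_lit 94, nat_lit 100, nat_lit 62)⟩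
noncomputable def p065_k23 : C1.Kn := ⟨[nat_lit 60, nat_lit 100, nat_lit 120], [nat_lit 0, nat_lit 909, nat_lit 1866], [(nat_lit 0, nat_lit 0, nat_lit 0), (nat_lit 1000, nat_lit 858, nat_lit 354), (nat_lit 1000, nat_lit 849, nat_lit 705)], (nat_lit 84, nat_lit 100, nat_lit 60)⟩
noncomputable def p065_k24 : C1.Kn := ⟨[nat_lit 60, nat_lit 120], [nat_lit 0, nat_lit 453], [(nat_lit 0, nat_lit 0, nat_lit 0), (nat_lit 1000, nat_lit 953, nat_lit 118)], (nat_lit 91, nat_lit 100, nat_lit 61)⟩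
noncomputable def p065_k25 : C1.Kn := ⟨[nat_lit 60, nat_lit 100], [nat_lit 0, nat_lit 609], [(nat_lit 0, nat_lit 0, nat_lit 0), (nat_lit 1000, nat_lit 905, nat_lit 238)], (nat_lit 87, nat_lit 100, nat_lit 44)⟩
noncomputable def p065_k26 : C1.Kn := ⟨[nat_lit 60, nat_lit 100, nat_lit 120], [nat_lit 0, nat_lit 0, nat_lit 1164], [(nat_lit 0, nat_lit 0, nat_lit 0), (nat_lit 0, nat_lit 0, nat_lit 0), (nat_lit 1000, nat_lit 933, nat_lit 572)], (nat_lit 92, nat_lit 100, nat_lit 44)⟩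
noncomputable def p065_k27 : C1.Kn := ⟨[nat_lit 60, nat_lit 100], [nat_lit 0, nat_lit 909], [(nat_lit 0, nat_lit 0, nat_lit 0), (nat_lit 1000, nat_lit 858, nat_lit 354)], (nat_lit 84, nat_lit 100, nat_lit 44)⟩
noncomputable def p065_l0 : Lf2 := ⟨nat_lit 0, nat_lit 10, [nat_lit 0, nat_lit 5, nat_lit 5, nat_lit 20], true, nat_lit 0, nat_lit 160, nat_lit 0, nat_lit 364, ⟨nat_lit 0, nat_lit 1000, nat_lit 0, nat_lit 6, nat_lit 136, nat_lit 1000, nat_lit 64, nat_lit 0, nat_lit 0, nat_lit 0, nat_lit 0, nat_lit 0, nat_lit 0, nat_lit 0, nat_lit 0, nat_lit 5000000, false, false⟩,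
 nat_lit 0, nat_lit 5845, nat_lit 0, nat_lit 0, nat_lit 3719, nat_lit 0, nat_lit 0, nat_lit 0, nat_lit 0, nat_lit 0, nat_lit 0, nat_lit 0, nat_lit 0, nat_lit 0, nat_lit 12, nat_lit 1000000, nat_lit 0, nat_lit 0, [(nat_lit 12, [(nat_lit 2, nat_lit 1000)])],
 ⟨p065_k0, nat_lit 0, nat_lit 0, nat_lit 561, nat_lit 0, nat_lit 595349, [nat_lit 2479200001, nat_lit 2186400000, nat_lit 42000000], [], [nat_lit 28744495043, nat_lit 26804761337, nat_lit 25735730565, nat_lit 26449422069, nat_lit 25567525355, nat_lit 26229478007, nat_lit 26728520305, nat_lit 26111667193], nat_lit 1271250, nat_lit 1271250, nat_lit 205650, nat_lit 780000, nat_lit 0, nat_lit 1100001, [nat_lit 780000, nat_lit 1435000, nat_lit 1271250], [nat_lit 8, nat_lit 40, nat_lit 40, nat_lit 80, nat_lit 1, nat_lit 289, nat_lit 75, nat_lit 9]⟩, C1.Rw.none,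
 ⟨nat_lit 5000, nat_lit 5478, ⟨.ofNat (nat_lit 235487), .ofNat (nat_lit 392847), .ofNat (nat_lit 278201), .ofNat (nat_lit 435548), .ofNat (nat_lit 249999), .ofNat (nat_lit 399998), .ofNat (nat_lit 292856), .ofNat (nat_lit 442843)⟩, ⟨.negSucc (nat_lit 2832), .ofNat (nat_lit 296923), .ofNat (nat_lit 0), .ofNat (nat_lit 339637), .ofNat (nat_lit 0), .ofNat (nat_lit 299999), .ofNat (nat_lit 0), .ofNat (nat_lit 342856)⟩⟩, []⟩
noncomputable def p065_l1 : Lf2 := ⟨nat_lit 0, nat_lit 10, [nat_lit 0, nat_lit 5, nat_lit 5, nat_lit 20], true, nat_lit 0, nat_lit 160, nat_lit 0, nat_lit 364, ⟨nat_lit 0, nat_lit 1000, nat_lit 0, nat_lit 6, nat_lit 145, nat_lit 1000, nat_lit 65, nat_lit 0, nat_lit 0, nat_lit 0, nat_lit 0, nat_lit 0, nat_lit 0, nat_lit 0, nat_lit 0, nat_lit 5000000, false, false⟩,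
 nat_lit 0, nat_lit 6898, nat_lit 0, nat_lit 0, nat_lit 4775, nat_lit 0, nat_lit 1725, nat_lit 0, nat_lit 0, nat_lit 0, nat_lit 0, nat_lit 0, nat_lit 0, nat_lit 0, nat_lit 0, nat_lit 400000, nat_lit 0, nat_lit 0, [(nat_lit 15, [(nat_lit 1, nat_lit 1000)])],
 ⟨p065_k1, nat_lit 0, nat_lit 0, nat_lit 522, nat_lit 0, nat_lit 715926, [nat_lit 2020200000, nat_lit 2354866667, nat_lit 2328333333], [], [nat_lit 21911634240, nat_lit 20200216920, nat_lit 16863662050, nat_lit 18570389500, nat_lit 16646803771, nat_lit 17824396820, nat_lit 19801925300, nat_lit 17879706800], nat_lit 1271250, nat_lit 1271250, nat_lit 279600, nat_lit 780000, nat_lit 0, nat_lit 1100001, [nat_lit 780000, nat_lit 1435000, nat_lit 1271250], [nat_lit 18, nat_lit 40, nat_lit 40, nat_lit 80, nat_lit 2, nat_lit 289, nat_lit 75, nat_lit 10]⟩, C1.Rw.none,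
 ⟨nat_lit 4472, nat_lit 5000, ⟨.ofNat (nat_lit 271418), .ofNat (nat_lit 399984), .ofNat (nat_lit 314253), .ofNat (nat_lit 442816), .ofNat (nat_lit 284805), .ofNat (nat_lit 407160), .ofNat (nat_lit 327916), .ofNat (nat_lit 450269)⟩, ⟨.ofNat (nat_lit 0), .ofNat (nat_lit 299999), .ofNat (nat_lit 0), .ofNat (nat_lit 342856), .ofNat (nat_lit 0), .ofNat (nat_lit 302621), .ofNat (nat_lit 0), .ofNat (nat_lit 345754)⟩⟩, [⟨nat_lit 0, nat_lit 100, nat_lit 88, nat_lit 81, nat_lit 46949680⟩]⟩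
noncomputable def p065_l2 : Lf2 := ⟨nat_lit 0, nat_lit 10, [nat_lit 0, nat_lit 5, nat_lit 5, nat_lit 20], true, nat_lit 160, nat_lit 240, nat_lit 0, nat_lit 364, ⟨nat_lit 0, nat_lit 1000, nat_lit 0, nat_lit 6, nat_lit 136, nat_lit 1000, nat_lit 157, nat_lit 0, nat_lit 0, nat_lit 0, nat_lit 0, nat_lit 0, nat_lit 0, nat_lit 0, nat_lit 0, nat_lit 5000000, false, false⟩,
 nat_lit 0, nat_lit 9097, nat_lit 0, nat_lit 0, nat_lit 5788, nat_lit 0, nat_lit 196, nat_lit 0, nat_lit 0, nat_lit 0, nat_lit 0, nat_lit 0, nat_lit 0, nat_lit 0, nat_lit 12, nat_lit 1000000, nat_lit 0, nat_lit 0, [(nat_lit 12, [(nat_lit 2, nat_lit 1000)])],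
 ⟨p065_k0, nat_lit 0, nat_lit 0, nat_lit 436, nat_lit 0, nat_lit 595349, [nat_lit 2479200001, nat_lit 2186400000, nat_lit 42000000], [], [nat_lit 21555253318, nat_lit 18581205278, nat_lit 15541377809, nat_lit 16441885561, nat_lit 18233159244, nat_lit 19191505315, nat_lit 20139302674, nat_lit 18048746768], nat_lit 1271250, nat_lit 1271250, nat_lit 205650, nat_lit 780000, nat_lit 1100001, nat_lit 1785000, [nat_lit 780000, nat_lit 1435000, nat_lit 1271250], [nat_lit 8, nat_lit 40, nat_lit 40, nat_lit 80, nat_lit 1, nat_lit 317, nat_lit 100, nat_lit 9]⟩, C1.Rw.none,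
 ⟨nat_lit 5000, nat_lit 5478, ⟨.ofNat (nat_lit 235487), .ofNat (nat_lit 392847), .ofNat (nat_lit 278201), .ofNat (nat_lit 435548), .ofNat (nat_lit 249999), .ofNat (nat_lit 399998), .ofNat (nat_lit 292856), .ofNat (nat_lit 442843)⟩, ⟨.ofNat (nat_lit 296923), .ofNat (nat_lit 446789), .ofNat (nat_lit 339637), .ofNat (nat_lit 489503), .ofNat (nat_lit 299999), .ofNat (nat_lit 442856), .ofNat (nat_lit 342856), .ofNat (nat_lit 485713)⟩⟩, [⟨nat_lit 0, nat_lit 100, nat_lit 94, nat_lit 88, nat_lit 58966329⟩]⟩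
noncomputable def p065_l3 : Lf2 := ⟨nat_lit 0, nat_lit 10, [nat_lit 0, nat_lit 5, nat_lit 5, nat_lit 20], true, nat_lit 160, nat_lit 240, nat_lit 0, nat_lit 364, ⟨nat_lit 0, nat_lit 1000, nat_lit 0, nat_lit 6, nat_lit 145, nat_lit 1000, nat_lit 157, nat_lit 0, nat_lit 0, nat_lit 0, nat_lit 0, nat_lit 0, nat_lit 0, nat_lit 0, nat_lit 0, nat_lit 5000000, false, false⟩,
 nat_lit 0, nat_lit 7006, nat_lit 0, nat_lit 0, nat_lit 4850, nat_lit 0, nat_lit 2190, nat_lit 0, nat_lit 0, nat_lit 0, nat_lit 0, nat_lit 0, nat_lit 0, nat_lit 0, nat_lit 0, nat_lit 400000, nat_lit 0, nat_lit 0, [(nat_lit 15, [(nat_lit 1, nat_lit 1000)])],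
 ⟨p065_k1, nat_lit 0, nat_lit 0, nat_lit 412, nat_lit 0, nat_lit 715926, [nat_lit 2020200000, nat_lit 2354866667, nat_lit 2328333333], [], [nat_lit 16366780381, nat_lit 17553645080, nat_lit 16500155900, nat_lit 17588379200, nat_lit 18789484761, nat_lit 19910337161, nat_lit 18713920800, nat_lit 19653452800], nat_lit 1271250, nat_lit 1271250, nat_lit 279600, nat_lit 780000, nat_lit 1100001, nat_lit 1785000, [nat_lit 780000, nat_lit 1435000, nat_lit 1271250], [nat_lit 18, nat_lit 40, nat_lit 40, nat_lit 80, nat_lit 2, nat_lit 317, nat_lit 100, nat_lit 10]⟩, C1.Rw.none,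
 ⟨nat_lit 4472, nat_lit 5000, ⟨.ofNat (nat_lit 271418), .ofNat (nat_lit 399984), .ofNat (nat_lit 314253), .ofNat (nat_lit 442816), .ofNat (nat_lit 284805), .ofNat (nat_lit 407160), .ofNat (nat_lit 327916), .ofNat (nat_lit 450269)⟩, ⟨.ofNat (nat_lit 299999), .ofNat (nat_lit 442856), .ofNat (nat_lit 342856), .ofNat (nat_lit 485713), .ofNat (nat_lit 302621), .ofNat (nat_lit 438578), .ofNat (nat_lit 345754), .ofNat (nat_lit 481711)⟩⟩, []⟩
noncomputable def p065_l4 : Lf2 := ⟨nat_lit 0, nat_lit 10, [nat_lit 0, nat_lit 5, nat_lit 5, nat_lit 20], true, nat_lit 240, nat_lit 336, nat_lit 0, nat_lit 364, ⟨nat_lit 0, nat_lit 1000, nat_lit 0, nat_lit 6, nat_lit 135, nat_lit 1000, nat_lit 222, nat_lit 0, nat_lit 0, nat_lit 0, nat_lit 0, nat_lit 0, nat_lit 0, nat_lit 0, nat_lit 0, nat_lit 5000000, false, false⟩,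
 nat_lit 0, nat_lit 7564, nat_lit 0, nat_lit 0, nat_lit 4813, nat_lit 0, nat_lit 0, nat_lit 0, nat_lit 0, nat_lit 0, nat_lit 0, nat_lit 0, nat_lit 0, nat_lit 0, nat_lit 12, nat_lit 1000000, nat_lit 0, nat_lit 0, [(nat_lit 12, [(nat_lit 2, nat_lit 1000)])],
 ⟨p065_k0, nat_lit 0, nat_lit 0, nat_lit 359, nat_lit 0, nat_lit 495726, [nat_lit 2479200001, nat_lit 2186400000, nat_lit 42000000], [], [nat_lit 21303689411, nat_lit 21699287908, nat_lit 20739385849, nat_lit 21100351796, nat_lit 24688334243, nat_lit 25003027236, nat_lit 23830144464, nat_lit 24118190617], nat_lit 1271250, nat_lit 1271250, nat_lit 205650, nat_lit 780000, nat_lit 1271250, nat_lit 1271250, [nat_lit 780000, nat_lit 1435000, nat_lit 1271250], [nat_lit 8, nat_lit 40, nat_lit 40, nat_lit 80, nat_lit 1, nat_lit 345, nat_lit 125, nat_lit 9]⟩, C1.Rw.none,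
 ⟨nat_lit 5244, nat_lit 5478, ⟨.ofNat (nat_lit 235487), .ofNat (nat_lit 392847), .ofNat (nat_lit 278201), .ofNat (nat_lit 435559), .ofNat (nat_lit 242768), .ofNat (nat_lit 396427), .ofNat (nat_lit 285539), .ofNat (nat_lit 439196)⟩, ⟨.ofNat (nat_lit 446789), .ofNat (nat_lit 626629), .ofNat (nat_lit 489503), .ofNat (nat_lit 669340), .ofNat (nat_lit 444857), .ofNat (nat_lit 620468), .ofNat (nat_lit 487628), .ofNat (nat_lit 663236)⟩⟩, [⟨nat_lit 0, nat_lit 100, nat_lit 97, nat_lit 84, nat_lit 26512498⟩, ⟨nat_lit 4, nat_lit 91, nat_lit 100, nat_lit 96, nat_lit 273044380⟩]⟩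
noncomputable def p065_l5 : Lf2 := ⟨nat_lit 0, nat_lit 10, [nat_lit 0, nat_lit 5, nat_lit 5, nat_lit 20], true, nat_lit 240, nat_lit 328, nat_lit 0, nat_lit 364, ⟨nat_lit 0, nat_lit 1000, nat_lit 0, nat_lit 6, nat_lit 139, nat_lit 1000, nat_lit 218, nat_lit 0, nat_lit 0, nat_lit 0, nat_lit 0, nat_lit 0, nat_lit 0, nat_lit 0, nat_lit 0, nat_lit 5000000, false, false⟩,
 nat_lit 0, nat_lit 6752, nat_lit 0, nat_lit 0, nat_lit 4484, nat_lit 0, nat_lit 859, nat_lit 0, nat_lit 0, nat_lit 0, nat_lit 0, nat_lit 0, nat_lit 0, nat_lit 0, nat_lit 0, nat_lit 799000, nat_lit 0, nat_lit 0, [(nat_lit 12, [(nat_lit 1, nat_lit 335), (nat_lit 2, nat_lit 665)])],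
 ⟨p065_k2, nat_lit 0, nat_lit 0, nat_lit 337, nat_lit 0, nat_lit 560323, [nat_lit 2245822001, nat_lit 2205958000, nat_lit 1236556000], [], [nat_lit 20902950307, nat_lit 21287562971, nat_lit 20546539311, nat_lit 20899109507, nat_lit 23940410527, nat_lit 24296231736, nat_lit 23462259354, nat_lit 23830625174], nat_lit 1271250, nat_lit 1271250, nat_lit 230001, nat_lit 780000, nat_lit 1271250, nat_lit 1271250, [nat_lit 780000, nat_lit 1435000, nat_lit 1271250], [nat_lit 18, nat_lit 40, nat_lit 40, nat_lit 80, nat_lit 2, nat_lit 238, nat_lit 30, nat_lit 7]⟩, C1.Rw.none,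
 ⟨nat_lit 5000, nat_lit 5245, ⟨.ofNat (nat_lit 250085), .ofNat (nat_lit 396427), .ofNat (nat_lit 292856), .ofNat (nat_lit 439194), .ofNat (nat_lit 257141), .ofNat (nat_lit 399998), .ofNat (nat_lit 299999), .ofNat (nat_lit 442852)⟩, ⟨.ofNat (nat_lit 444857), .ofNat (nat_lit 605833), .ofNat (nat_lit 487628), .ofNat (nat_lit 648604), .ofNat (nat_lit 442856), .ofNat (nat_lit 599999), .ofNat (nat_lit 485713), .ofNat (nat_lit 642856)⟩⟩, [⟨nat_lit 0, nat_lit 100, nat_lit 94, nat_lit 88, nat_lit 17861192⟩, ⟨nat_lit 4, nat_lit 97, nat_lit 100, nat_lit 98, nat_lit 265045939⟩]⟩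
noncomputable def p065_l6 : Lf2 := ⟨nat_lit 0, nat_lit 10, [nat_lit 0, nat_lit 5, nat_lit 5, nat_lit 20], true, nat_lit 240, nat_lit 320, nat_lit 0, nat_lit 364, ⟨nat_lit 0, nat_lit 1000, nat_lit 0, nat_lit 6, nat_lit 145, nat_lit 1000, nat_lit 213, nat_lit 0, nat_lit 0, nat_lit 0, nat_lit 0, nat_lit 0, nat_lit 0, nat_lit 0, nat_lit 0, nat_lit 5000000, false, false⟩,
 nat_lit 0, nat_lit 6292, nat_lit 0, nat_lit 0, nat_lit 4355, nat_lit 0, nat_lit 779, nat_lit 0, nat_lit 0, nat_lit 0, nat_lit 0, nat_lit 0, nat_lit 0, nat_lit 0, nat_lit 0, nat_lit 400000, nat_lit 0, nat_lit 0, [(nat_lit 15, [(nat_lit 1, nat_lit 1000)])],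
 ⟨p065_k1, nat_lit 0, nat_lit 0, nat_lit 406, nat_lit 0, nat_lit 715926, [nat_lit 2020200000, nat_lit 2354866667, nat_lit 2328333333], [], [nat_lit 20812632387, nat_lit 21673474281, nat_lit 20757960142, nat_lit 21552115612, nat_lit 23820023845, nat_lit 24641387493, nat_lit 23636542430, nat_lit 24388222040], nat_lit 1271250, nat_lit 1271250, nat_lit 279600, nat_lit 780000, nat_lit 1271250, nat_lit 1271250, [nat_lit 780000, nat_lit 1435000, nat_lit 1271250], [nat_lit 18, nat_lit 40, nat_lit 40, nat_lit 80, nat_lit 2, nat_lit 238, nat_lit 30, nat_lit 7]⟩, C1.Rw.none,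
 ⟨nat_lit 4472, nat_lit 5000, ⟨.ofNat (nat_lit 271418), .ofNat (nat_lit 399984), .ofNat (nat_lit 314253), .ofNat (nat_lit 442816), .ofNat (nat_lit 284805), .ofNat (nat_lit 407160), .ofNat (nat_lit 327916), .ofNat (nat_lit 450269)⟩, ⟨.ofNat (nat_lit 442856), .ofNat (nat_lit 585713), .ofNat (nat_lit 485713), .ofNat (nat_lit 628570), .ofNat (nat_lit 438578), .ofNat (nat_lit 574534), .ofNat (nat_lit 481711), .ofNat (nat_lit 617667)⟩⟩, [⟨nat_lit 4, nat_lit 100, nat_lit 93, nat_lit 97, nat_lit 307752715⟩]⟩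
noncomputable def p065_l7 : Lf2 := ⟨nat_lit 0, nat_lit 10, [nat_lit 0, nat_lit 5, nat_lit 5, nat_lit 20], true, nat_lit 0, nat_lit 80, nat_lit 0, nat_lit 364, ⟨nat_lit 0, nat_lit 1000, nat_lit 0, nat_lit 6, nat_lit 211, nat_lit 1000, nat_lit 35, nat_lit 0, nat_lit 0, nat_lit 0, nat_lit 0, nat_lit 0, nat_lit 0, nat_lit 0, nat_lit 0, nat_lit 5000000, false, false⟩,
 nat_lit 0, nat_lit 9206, nat_lit 0, nat_lit 0, nat_lit 5858, nat_lit 0, nat_lit 374, nat_lit 0, nat_lit 0, nat_lit 0, nat_lit 0, nat_lit 0, nat_lit 0, nat_lit 0, nat_lit 0, nat_lit 627400, nat_lit 0, nat_lit 0, [(nat_lit 12, [(nat_lit 1, nat_lit 621), (nat_lit 2, nat_lit 379)])],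
 ⟨p065_k0, nat_lit 0, nat_lit 0, nat_lit 482, nat_lit 0, nat_lit 595349, [nat_lit 2169517200, nat_lit 2427550800, nat_lit 1525778400], [], [nat_lit 21485638864, nat_lit 19698406420, nat_lit 21877844048, nat_lit 22128623556, nat_lit 16239739760, nat_lit 17294991292, nat_lit 24352082720, nat_lit 21665044304], nat_lit 1271250, nat_lit 1271250, nat_lit 780000, nat_lit 1762500, nat_lit 0, nat_lit 490000, [nat_lit 780000, nat_lit 1435000, nat_lit 1271250], [nat_lit 8, nat_lit 40, nat_lit 40, nat_lit 80, nat_lit 1, nat_lit 317, nat_lit 100, nat_lit 9]⟩, C1.Rw.none,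
 ⟨nat_lit 5000, nat_lit 5478, ⟨.ofNat (nat_lit 392847), .ofNat (nat_lit 617614), .ofNat (nat_lit 435548), .ofNat (nat_lit 660309), .ofNat (nat_lit 399998), .ofNat (nat_lit 614253), .ofNat (nat_lit 442843), .ofNat (nat_lit 657090)⟩, ⟨.negSucc (nat_lit 2832), .ofNat (nat_lit 147057), .ofNat (nat_lit 0), .ofNat (nat_lit 189771), .ofNat (nat_lit 0), .ofNat (nat_lit 157141), .ofNat (nat_lit 0), .ofNat (nat_lit 199998)⟩⟩, []⟩
noncomputable def p065_l8 : Lf2 := ⟨nat_lit 0, nat_lit 10, [nat_lit 0, nat_lit 5, nat_lit 5, nat_lit 20], true, nat_lit 0, nat_lit 80, nat_lit 0, nat_lit 364, ⟨nat_lit 0, nat_lit 1000, nat_lit 0, nat_lit 6, nat_lit 212, nat_lit 518, nat_lit 36, nat_lit 0, nat_lit 0, nat_lit 0, nat_lit 0, nat_lit 0, nat_lit 0, nat_lit 0, nat_lit 0, nat_lit 5000000, false, false⟩,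
 nat_lit 0, nat_lit 6451, nat_lit 0, nat_lit 0, nat_lit 4466, nat_lit 0, nat_lit 945, nat_lit 0, nat_lit 0, nat_lit 0, nat_lit 0, nat_lit 0, nat_lit 0, nat_lit 0, nat_lit 0, nat_lit 400000, nat_lit 0, nat_lit 0, [(nat_lit 15, [(nat_lit 1, nat_lit 1000)])],
 ⟨p065_k1, nat_lit 0, nat_lit 0, nat_lit 483, nat_lit 0, nat_lit 715926, [nat_lit 2020200000, nat_lit 2354866667, nat_lit 2328333333], [], [nat_lit 18411955980, nat_lit 19405640638, nat_lit 21127553168, nat_lit 22148514200, nat_lit 17310006208, nat_lit 18314395030, nat_lit 22802447350, nat_lit 20979895424], nat_lit 1271250, nat_lit 1271250, nat_lit 780000, nat_lit 1762500, nat_lit 0, nat_lit 490000, [nat_lit 780000, nat_lit 1435000, nat_lit 1271250], [nat_lit 18, nat_lit 40, nat_lit 40, nat_lit 80, nat_lit 2, nat_lit 317, nat_lit 100, nat_lit 10]⟩, C1.Rw.none,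
 ⟨nat_lit 4472, nat_lit 5000, ⟨.ofNat (nat_lit 399984), .ofNat (nat_lit 614256), .ofNat (nat_lit 442816), .ofNat (nat_lit 657088), .ofNat (nat_lit 407160), .ofNat (nat_lit 611081), .ofNat (nat_lit 450269), .ofNat (nat_lit 654189)⟩, ⟨.ofNat (nat_lit 0), .ofNat (nat_lit 157141), .ofNat (nat_lit 0), .ofNat (nat_lit 199998), .ofNat (nat_lit 0), .ofNat (nat_lit 166665), .ofNat (nat_lit 0), .ofNat (nat_lit 200000)⟩⟩, []⟩
noncomputable def p065_l9 : Lf2 := ⟨nat_lit 0, nat_lit 10, [nat_lit 0, nat_lit 5, nat_lit 5, nat_lit 20], true, nat_lit 80, nat_lit 160, nat_lit 0, nat_lit 364, ⟨nat_lit 0, nat_lit 1000, nat_lit 0, nat_lit 6, nat_lit 211, nat_lit 1000, nat_lit 99, nat_lit 0, nat_lit 0, nat_lit 0, nat_lit 0, nat_lit 0, nat_lit 0, nat_lit 0, nat_lit 0, nat_lit 5000000, false, false⟩,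
 nat_lit 0, nat_lit 7761, nat_lit 0, nat_lit 0, nat_lit 4938, nat_lit 0, nat_lit 0, nat_lit 0, nat_lit 0, nat_lit 0, nat_lit 0, nat_lit 0, nat_lit 0, nat_lit 0, nat_lit 12, nat_lit 1000000, nat_lit 0, nat_lit 0, [(nat_lit 12, [(nat_lit 2, nat_lit 1000)])],
 ⟨p065_k0, nat_lit 0, nat_lit 0, nat_lit 421, nat_lit 0, nat_lit 595349, [nat_lit 2479200001, nat_lit 2186400000, nat_lit 42000000], [], [nat_lit 21441313905, nat_lit 19224279921, nat_lit 20330324705, nat_lit 21095834541, nat_lit 18660579761, nat_lit 19466721061, nat_lit 24359186874, nat_lit 22093770738], nat_lit 1271250, nat_lit 1271250, nat_lit 780000, nat_lit 1762500, nat_lit 490000, nat_lit 1100001, [nat_lit 780000, nat_lit 1435000, nat_lit 1271250], [nat_lit 8, nat_lit 40, nat_lit 40, nat_lit 80, nat_lit 1, nat_lit 317, nat_lit 100, nat_lit 9]⟩, C1.Rw.none,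
 ⟨nat_lit 5000, nat_lit 5478, ⟨.ofNat (nat_lit 392847), .ofNat (nat_lit 617614), .ofNat (nat_lit 435548), .ofNat (nat_lit 660309), .ofNat (nat_lit 399998), .ofNat (nat_lit 614253), .ofNat (nat_lit 442843), .ofNat (nat_lit 657090)⟩, ⟨.ofNat (nat_lit 147057), .ofNat (nat_lit 296923), .ofNat (nat_lit 189771), .ofNat (nat_lit 339637), .ofNat (nat_lit 157141), .ofNat (nat_lit 299999), .ofNat (nat_lit 199998), .ofNat (nat_lit 342856)⟩⟩, []⟩
noncomputable def p065_l10 : Lf2 := ⟨nat_lit 0, nat_lit 10, [nat_lit 0, nat_lit 5, nat_lit 5, nat_lit 20], true, nat_lit 80, nat_lit 160, nat_lit 0, nat_lit 364, ⟨nat_lit 0, nat_lit 1000, nat_lit 0, nat_lit 6, nat_lit 212, nat_lit 1000, nat_lit 101, nat_lit 0, nat_lit 0, nat_lit 0, nat_lit 0, nat_lit 0, nat_lit 0, nat_lit 0, nat_lit 0, nat_lit 5000000, false, false⟩,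
 nat_lit 0, nat_lit 6963, nat_lit 0, nat_lit 0, nat_lit 4820, nat_lit 0, nat_lit 772, nat_lit 0, nat_lit 0, nat_lit 0, nat_lit 0, nat_lit 0, nat_lit 0, nat_lit 0, nat_lit 0, nat_lit 400000, nat_lit 0, nat_lit 0, [(nat_lit 15, [(nat_lit 1, nat_lit 1000)])],
 ⟨p065_k1, nat_lit 0, nat_lit 0, nat_lit 404, nat_lit 0, nat_lit 715926, [nat_lit 2020200000, nat_lit 2354866667, nat_lit 2328333333], [], [nat_lit 17660501167, nat_lit 16871075381, nat_lit 18168387094, nat_lit 19084456567, nat_lit 16389401901, nat_lit 17295418254, nat_lit 20668705207, nat_lit 19481692167], nat_lit 1271250, nat_lit 1271250, nat_lit 780000, nat_lit 1762500, nat_lit 490000, nat_lit 1100001, [nat_lit 780000, nat_lit 1435000, nat_lit 1271250], [nat_lit 18, nat_lit 40, nat_lit 40, nat_lit 80, nat_lit 2, nat_lit 317, nat_lit 100, nat_lit 10]⟩, C1.Rw.none,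
 ⟨nat_lit 4472, nat_lit 5000, ⟨.ofNat (nat_lit 399984), .ofNat (nat_lit 614256), .ofNat (nat_lit 442816), .ofNat (nat_lit 657088), .ofNat (nat_lit 407160), .ofNat (nat_lit 611081), .ofNat (nat_lit 450269), .ofNat (nat_lit 654189)⟩, ⟨.ofNat (nat_lit 157141), .ofNat (nat_lit 299999), .ofNat (nat_lit 199998), .ofNat (nat_lit 342856), .ofNat (nat_lit 166665), .ofNat (nat_lit 302621), .ofNat (nat_lit 200000), .ofNat (nat_lit 345754)⟩⟩, []⟩
noncomputable def p065_l11 : Lf2 := ⟨nat_lit 0, nat_lit 10, [nat_lit 0, nat_lit 5, nat_lit 5, nat_lit 20], false, nat_lit 0, nat_lit 160, nat_lit 0, nat_lit 364, ⟨nat_lit 1000, nat_lit 0, nat_lit 0, nat_lit 0, nat_lit 0, nat_lit 0, nat_lit 0, nat_lit 0, nat_lit 0, nat_lit 0, nat_lit 0, nat_lit 0, nat_lit 0, nat_lit 0, nat_lit 0, nat_lit 0, false, false⟩,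
 nat_lit 0, nat_lit 11063, nat_lit 0, nat_lit 0, nat_lit 7040, nat_lit 7766, nat_lit 862, nat_lit 0, nat_lit 0, nat_lit 1045, nat_lit 0, nat_lit 0, nat_lit 0, nat_lit 0, nat_lit 0, nat_lit 0, nat_lit 0, nat_lit 0, [],
 ⟨p065_k0, nat_lit 0, nat_lit 0, nat_lit 463, nat_lit 0, nat_lit 595349, [nat_lit 3282000000, nat_lit 6250000000, nat_lit 9842000000], [], [nat_lit 30703764790, nat_lit 31587867430, nat_lit 38439888640, nat_lit 39705009440, nat_lit 26783538720, nat_lit 27469860710, nat_lit 33334465120, nat_lit 33864890480], nat_lit 1271250, nat_lit 1271250, nat_lit 1271250, nat_lit 1271250, nat_lit 0, nat_lit 1100001, [nat_lit 780000, nat_lit 1435000, nat_lit 1271250], [nat_lit 8, nat_lit 40, nat_lit 40, nat_lit 80, nat_lit 1, nat_lit 373, nat_lit 150, nat_lit 10]⟩, ⟨p065_k3, nat_lit 0, nat_lit 0, nat_lit 251, nat_lit 0, nat_lit 0, [nat_lit 4688000000, nat_lit 7968000000, nat_lit 11872000000], [], [nat_lit 27708264676,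 nat_lit 29993984748, nat_lit 39241369676, nat_lit 40343889900, nat_lit 29912554676, nat_lit 31196513895, nat_lit 37055460504, nat_lit 37904492759], nat_lit 0, nat_lit 0, nat_lit 0, nat_lit 0, nat_lit 0, nat_lit 0, [], [nat_lit 21, nat_lit 40, nat_lit 40, nat_lit 80, nat_lit 14, nat_lit 538, nat_lit 300, nat_lit 13]⟩,
 zbF0, [⟨nat_lit 19, nat_lit 100, nat_lit 77, nat_lit 91, nat_lit 178858676⟩]⟩
noncomputable def p065_l12 : Lf2 := ⟨nat_lit 0, nat_lit 10, [nat_lit 0, nat_lit 5, nat_lit 5, nat_lit 20], false, nat_lit 0, nat_lit 160, nat_lit 0, nat_lit 364, ⟨nat_lit 1000, nat_lit 0, nat_lit 0, nat_lit 0, nat_lit 0, nat_lit 0, nat_lit 0, nat_lit 0, nat_lit 0, nat_lit 0, nat_lit 0, nat_lit 0, nat_lit 0, nat_lit 0, nat_lit 0, nat_lit 0, false, false⟩,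
 nat_lit 0, nat_lit 8444, nat_lit 0, nat_lit 0, nat_lit 5845, nat_lit 7566, nat_lit 1893, nat_lit 0, nat_lit 0, nat_lit 1021, nat_lit 0, nat_lit 0, nat_lit 0, nat_lit 0, nat_lit 0, nat_lit 0, nat_lit 0, nat_lit 0, [],
 ⟨p065_k1, nat_lit 0, nat_lit 0, nat_lit 456, nat_lit 0, nat_lit 715926, [nat_lit 3282000000, nat_lit 6250000000, nat_lit 7968000000], [], [nat_lit 25106957580, nat_lit 25889906270, nat_lit 36469922170, nat_lit 37626811820, nat_lit 23246962295, nat_lit 23987958555, nat_lit 30219687520, nat_lit 31242240680], nat_lit 1271250, nat_lit 1271250, nat_lit 1271250, nat_lit 1271250, nat_lit 0, nat_lit 1100001, [nat_lit 780000, nat_lit 1435000, nat_lit 1271250], [nat_lit 18, nat_lit 40, nat_lit 40, nat_lit 80, nat_lit 2, nat_lit 249, nat_lit 40, nat_lit 8]⟩, ⟨p065_k3, nat_lit 0, nat_lit 0, nat_lit 251, nat_lit 0, nat_lit 0, [nat_lit 4688000000, nat_lit 7968000000, nat_lit 11872000000], [], [nat_lit 27817437476,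 nat_lit 30074419148, nat_lit 39179042476, nat_lit 40278509900, nat_lit 30040337476, nat_lit 31316192095, nat_lit 37008482771, nat_lit 37646666399], nat_lit 0, nat_lit 0, nat_lit 0, nat_lit 0, nat_lit 0, nat_lit 0, [], [nat_lit 21, nat_lit 40, nat_lit 40, nat_lit 80, nat_lit 14, nat_lit 538, nat_lit 300, nat_lit 13]⟩,
 zbF0, [⟨nat_lit 19, nat_lit 100, nat_lit 77, nat_lit 91, nat_lit 156729777⟩, ⟨nat_lit 22, nat_lit 83, nat_lit 100, nat_lit 83, nat_lit 25267951⟩]⟩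
noncomputable def p065_l13 : Lf2 := ⟨nat_lit 0, nat_lit 10, [nat_lit 0, nat_lit 5, nat_lit 5, nat_lit 20], false, nat_lit 160, nat_lit 336, nat_lit 0, nat_lit 160, ⟨nat_lit 1000, nat_lit 0, nat_lit 0, nat_lit 0, nat_lit 0, nat_lit 0, nat_lit 0, nat_lit 0, nat_lit 0, nat_lit 0, nat_lit 0, nat_lit 0, nat_lit 0, nat_lit 0, nat_lit 0, nat_lit 0, false, false⟩,
 nat_lit 0, nat_lit 11766, nat_lit 0, nat_lit 0, nat_lit 7487, nat_lit 15377, nat_lit 875, nat_lit 0, nat_lit 0, nat_lit 2398, nat_lit 0, nat_lit 0, nat_lit 0, nat_lit 0, nat_lit 0, nat_lit 0, nat_lit 0, nat_lit 0, [],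
 ⟨p065_k0, nat_lit 0, nat_lit 0, nat_lit 350, nat_lit 0, nat_lit 595349, [nat_lit 3282000000, nat_lit 6250000000, nat_lit 9842000000], [], [nat_lit 22257549496, nat_lit 22310067279, nat_lit 23208954184, nat_lit 23990187793, nat_lit 27394728155, nat_lit 28188545144, nat_lit 28160345968, nat_lit 28920007457], nat_lit 1271250, nat_lit 1271250, nat_lit 780000, nat_lit 1762500, nat_lit 1271250, nat_lit 1271250, [nat_lit 780000, nat_lit 1435000, nat_lit 1271250], [nat_lit 8, nat_lit 40, nat_lit 40, nat_lit 80, nat_lit 1, nat_lit 373, nat_lit 150, nat_lit 10]⟩, ⟨p065_k3, nat_lit 0, nat_lit 0, nat_lit 212, nat_lit 0, nat_lit 0, [nat_lit 4688000000, nat_lit 7968000000, nat_lit 11872000000], [], [nat_lit 17638836160, nat_lit 22266320144, nat_lit 22831521008, nat_lit 29939736468, nat_lit 4612563228, nat_lit 9852199408, nat_lit 9855026960, nat_lit 14396068372], nat_lit 0, nat_lit 0, nat_lit 0, nat_lit 0, nat_lit 0, nat_lit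 0, [], [nat_lit 21, nat_lit 40, nat_lit 40, nat_lit 80, nat_lit 14, nat_lit 401, nat_lit 175, nat_lit 10]⟩,
 zbF0, [⟨nat_lit 4, nat_lit 94, nat_lit 100, nat_lit 97, nat_lit 350425736⟩, ⟨nat_lit 9, nat_lit 98, nat_lit 100, nat_lit 14, nat_lit 246379381⟩]⟩
noncomputable def p065_l14 : Lf2 := ⟨nat_lit 0, nat_lit 10, [nat_lit 0, nat_lit 5, nat_lit 5, nat_lit 20], false, nat_lit 160, nat_lit 240, nat_lit 160, nat_lit 364, ⟨nat_lit 241, nat_lit 759, nat_lit 0, nat_lit 6, nat_lit 211, nat_lit 759, nat_lit 157, nat_lit 0, nat_lit 0, nat_lit 0, nat_lit 0, nat_lit 0, nat_lit 0, nat_lit 0, nat_lit 0, nat_lit 5000000, false, false⟩,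
 nat_lit 0, nat_lit 9053, nat_lit 0, nat_lit 0, nat_lit 5761, nat_lit 1482, nat_lit 296, nat_lit 0, nat_lit 0, nat_lit 0, nat_lit 0, nat_lit 0, nat_lit 0, nat_lit 0, nat_lit 0, nat_lit 759000, nat_lit 0, nat_lit 0, [(nat_lit 12, [(nat_lit 2, nat_lit 759)])],
 ⟨p065_k0, nat_lit 0, nat_lit 0, nat_lit 350, nat_lit 0, nat_lit 595349, [nat_lit 2563378800, nat_lit 2983567600, nat_lit 2148776000], [], [nat_lit 21813088488, nat_lit 18857361350, nat_lit 19264438332, nat_lit 20231541176, nat_lit 18987005188, nat_lit 19925409634, nat_lit 24768378040, nat_lit 22125392548], nat_lit 1271250, nat_lit 1271250, nat_lit 780000, nat_lit 1762500, nat_lit 1100001, nat_lit 1785000, [nat_lit 780000, nat_lit 1435000, nat_lit 1271250], [nat_lit 8, nat_lit 40, nat_lit 40, nat_lit 80, nat_lit 1, nat_lit 345, nat_lit 125, nat_lit 9]⟩, ⟨p065_k3, nat_lit 0, nat_lit 0, nat_lit 87, nat_lit 0, nat_lit 0, [nat_lit 1129808000, nat_lit 1920288000,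 nat_lit 2861152000], [], [nat_lit 2392200892, nat_lit 3224446976, nat_lit 3622171316, nat_lit 4269194380, nat_lit 5864575400, nat_lit 6320055699, nat_lit 6335800429, nat_lit 6727525794], nat_lit 0, nat_lit 0, nat_lit 0, nat_lit 0, nat_lit 0, nat_lit 0, [], [nat_lit 21, nat_lit 40, nat_lit 40, nat_lit 80, nat_lit 14, nat_lit 456, nat_lit 225, nat_lit 11]⟩,
 ⟨nat_lit 5000, nat_lit 5478, ⟨.ofNat (nat_lit 392847), .ofNat (nat_lit 617614), .ofNat (nat_lit 435548), .ofNat (nat_lit 660309), .ofNat (nat_lit 399998), .ofNat (nat_lit 614253), .ofNat (nat_lit 442843), .ofNat (nat_lit 657090)⟩, ⟨.ofNat (nat_lit 296923), .ofNat (nat_lit 446789), .ofNat (nat_lit 339637), .ofNat (nat_lit 489503), .ofNat (nat_lit 299999), .ofNat (nat_lit 442856), .ofNat (nat_lit 342856), .ofNat (nat_lit 485713)⟩⟩, [⟨nat_lit 19, nat_lit 100, nat_lit 77, nat_lit 91, nat_lit 128619485⟩]⟩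
noncomputable def p065_l15 : Lf2 := ⟨nat_lit 0, nat_lit 10, [nat_lit 0, nat_lit 5, nat_lit 5, nat_lit 20], false, nat_lit 240, nat_lit 336, nat_lit 160, nat_lit 364, ⟨nat_lit 227, nat_lit 773, nat_lit 0, nat_lit 6, nat_lit 211, nat_lit 773, nat_lit 222, nat_lit 0, nat_lit 0, nat_lit 0, nat_lit 0, nat_lit 0, nat_lit 0, nat_lit 0, nat_lit 0, nat_lit 5000000, false, false⟩,
 nat_lit 0, nat_lit 8364, nat_lit 0, nat_lit 0, nat_lit 5322, nat_lit 1392, nat_lit 520, nat_lit 0, nat_lit 0, nat_lit 0, nat_lit 0, nat_lit 0, nat_lit 0, nat_lit 0, nat_lit 0, nat_lit 773000, nat_lit 0, nat_lit 0, [(nat_lit 12, [(nat_lit 2, nat_lit 773)])],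
 ⟨p065_k4, nat_lit 0, nat_lit 0, nat_lit 309, nat_lit 0, nat_lit 495726, [nat_lit 2285572080, nat_lit 3083561200, nat_lit 2006872000], [], [nat_lit 18364911608, nat_lit 18851103216, nat_lit 20833765744, nat_lit 21280463954, nat_lit 23194710564, nat_lit 23678046961, nat_lit 25276477580, nat_lit 25812068822], nat_lit 1271250, nat_lit 1271250, nat_lit 780000, nat_lit 1762500, nat_lit 1271250, nat_lit 1271250, [nat_lit 780000, nat_lit 1100000, nat_lit 2127500], [nat_lit 42, nat_lit 40, nat_lit 40, nat_lit 80, nat_lit 13, nat_lit 373, nat_lit 150, nat_lit 10]⟩, ⟨p065_k5, nat_lit 0, nat_lit 0, nat_lit 73, nat_lit 0, nat_lit 0, [nat_lit 1064176000, nat_lit 1418750000, nat_lit 2694944000], [], [nat_lit 2259885260, nat_lit 3042484216, nat_lit 3417349564, nat_lit 4025879420, nat_lit 5525567209, nat_lit 5950691486, nat_lit 5969958806, nat_lit 6333867030], nat_lit 0, nat_lit 0, nat_lit 0, nat_lit 0, nat_lit 0, nat_lit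 0, [], [nat_lit 48, nat_lit 40, nat_lit 40, nat_lit 80, nat_lit 12, nat_lit 456, nat_lit 225, nat_lit 11]⟩,
 ⟨nat_lit 5244, nat_lit 5478, ⟨.ofNat (nat_lit 392847), .ofNat (nat_lit 617638), .ofNat (nat_lit 435559), .ofNat (nat_lit 660348), .ofNat (nat_lit 396427), .ofNat (nat_lit 615933), .ofNat (nat_lit 439196), .ofNat (nat_lit 658700)⟩, ⟨.ofNat (nat_lit 446789), .ofNat (nat_lit 626629), .ofNat (nat_lit 489503), .ofNat (nat_lit 669340), .ofNat (nat_lit 444857), .ofNat (nat_lit 620468), .ofNat (nat_lit 487628), .ofNat (nat_lit 663236)⟩⟩, [⟨nat_lit 4, nat_lit 91, nat_lit 100, nat_lit 96, nat_lit 377109122⟩, ⟨nat_lit 19, nat_lit 100, nat_lit 77, nat_lit 91, nat_lit 120864621⟩]⟩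
noncomputable def p065_l16 : Lf2 := ⟨nat_lit 0, nat_lit 10, [nat_lit 0, nat_lit 5, nat_lit 5, nat_lit 20], true, nat_lit 240, nat_lit 328, nat_lit 160, nat_lit 364, ⟨nat_lit 0, nat_lit 1000, nat_lit 0, nat_lit 6, nat_lit 211, nat_lit 1000, nat_lit 218, nat_lit 0, nat_lit 0, nat_lit 0, nat_lit 0, nat_lit 0, nat_lit 0, nat_lit 0, nat_lit 0, nat_lit 5000000, false, false⟩,
 nat_lit 0, nat_lit 6554, nat_lit 0, nat_lit 0, nat_lit 4352, nat_lit 0, nat_lit 1213, nat_lit 0, nat_lit 0, nat_lit 0, nat_lit 0, nat_lit 0, nat_lit 0, nat_lit 0, nat_lit 0, nat_lit 400000, nat_lit 0, nat_lit 0, [(nat_lit 12, [(nat_lit 1, nat_lit 1000)])],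
 ⟨p065_k6, nat_lit 0, nat_lit 0, nat_lit 288, nat_lit 0, nat_lit 560323, [nat_lit 2033400000, nat_lit 2574800000, nat_lit 2711866667], [], [nat_lit 19587659225, nat_lit 20063776841, nat_lit 21979192985, nat_lit 22369753449, nat_lit 23205358484, nat_lit 23594430286, nat_lit 24942427039, nat_lit 25263125269], nat_lit 1271250, nat_lit 1271250, nat_lit 780000, nat_lit 1762500, nat_lit 1271250, nat_lit 1271250, [nat_lit 780000, nat_lit 1100000, nat_lit 1785000], [nat_lit 36, nat_lit 40, nat_lit 40, nat_lit 80, nat_lit 7, nat_lit 272, nat_lit 60, nat_lit 8]⟩, C1.Rw.none,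
 ⟨nat_lit 5000, nat_lit 5245, ⟨.ofNat (nat_lit 396427), .ofNat (nat_lit 615934), .ofNat (nat_lit 439194), .ofNat (nat_lit 658699), .ofNat (nat_lit 399998), .ofNat (nat_lit 614277), .ofNat (nat_lit 442852), .ofNat (nat_lit 657129)⟩, ⟨.ofNat (nat_lit 444857), .ofNat (nat_lit 605833), .ofNat (nat_lit 487628), .ofNat (nat_lit 648604), .ofNat (nat_lit 442856), .ofNat (nat_lit 599999), .ofNat (nat_lit 485713), .ofNat (nat_lit 642856)⟩⟩, [⟨nat_lit 4, nat_lit 97, nat_lit 100, nat_lit 98, nat_lit 262918391⟩]⟩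
noncomputable def p065_l17 : Lf2 := ⟨nat_lit 0, nat_lit 10, [nat_lit 0, nat_lit 5, nat_lit 5, nat_lit 20], true, nat_lit 160, nat_lit 320, nat_lit 0, nat_lit 364, ⟨nat_lit 0, nat_lit 1000, nat_lit 0, nat_lit 6, nat_lit 208, nat_lit 1000, nat_lit 185, nat_lit 0, nat_lit 0, nat_lit 0, nat_lit 0, nat_lit 0, nat_lit 0, nat_lit 0, nat_lit 0, nat_lit 5000000, false, false⟩,
 nat_lit 0, nat_lit 6101, nat_lit 0, nat_lit 0, nat_lit 4223, nat_lit 0, nat_lit 783, nat_lit 0, nat_lit 0, nat_lit 0, nat_lit 0, nat_lit 0, nat_lit 0, nat_lit 0, nat_lit 0, nat_lit 610000, nat_lit 0, nat_lit 0, [(nat_lit 15, [(nat_lit 1, nat_lit 650), (nat_lit 2, nat_lit 350)])],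
 ⟨p065_k7, nat_lit 0, nat_lit 0, nat_lit 292, nat_lit 0, nat_lit 572200, [nat_lit 2006634001, nat_lit 2278140000, nat_lit 1312566667], [], [nat_lit 19417600252, nat_lit 18887857666, nat_lit 20854048753, nat_lit 21356857356, nat_lit 23149876686, nat_lit 23980464252, nat_lit 25034662104, nat_lit 25719957828], nat_lit 1271250, nat_lit 1271250, nat_lit 780000, nat_lit 1762500, nat_lit 1271250, nat_lit 1271250, [nat_lit 780000, nat_lit 1100000, nat_lit 1785000], [nat_lit 36, nat_lit 40, nat_lit 40, nat_lit 80, nat_lit 7, nat_lit 373, nat_lit 150, nat_lit 12]⟩, C1.Rw.none,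
 ⟨nat_lit 4472, nat_lit 5000, ⟨.ofNat (nat_lit 399984), .ofNat (nat_lit 614256), .ofNat (nat_lit 421400), .ofNat (nat_lit 635672), .ofNat (nat_lit 407160), .ofNat (nat_lit 611081), .ofNat (nat_lit 428715), .ofNat (nat_lit 632635)⟩, ⟨.ofNat (nat_lit 299999), .ofNat (nat_lit 585713), .ofNat (nat_lit 342856), .ofNat (nat_lit 628570), .ofNat (nat_lit 302621), .ofNat (nat_lit 574534), .ofNat (nat_lit 345754), .ofNat (nat_lit 617667)⟩⟩, [⟨nat_lit 4, nat_lit 100, nat_lit 93, nat_lit 97, nat_lit 251044632⟩]⟩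
noncomputable def p065_l18 : Lf2 := ⟨nat_lit 0, nat_lit 10, [nat_lit 0, nat_lit 5, nat_lit 5, nat_lit 20], false, nat_lit 160, nat_lit 320, nat_lit 0, nat_lit 352, ⟨nat_lit 215, nat_lit 785, nat_lit 0, nat_lit 6, nat_lit 216, nat_lit 785, nat_lit 185, nat_lit 0, nat_lit 0, nat_lit 0, nat_lit 0, nat_lit 0, nat_lit 0, nat_lit 0, nat_lit 0, nat_lit 5000000, false, false⟩,
 nat_lit 0, nat_lit 6550, nat_lit 0, nat_lit 0, nat_lit 4534, nat_lit 1448, nat_lit 911, nat_lit 0, nat_lit 0, nat_lit 503, nat_lit 0, nat_lit 0, nat_lit 0, nat_lit 0, nat_lit 0, nat_lit 314000, nat_lit 0, nat_lit 0, [(nat_lit 15, [(nat_lit 1, nat_lit 785)])],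
 ⟨p065_k7, nat_lit 0, nat_lit 0, nat_lit 372, nat_lit 0, nat_lit 715926, [nat_lit 2291487001, nat_lit 2842308001, nat_lit 3535762000], [], [nat_lit 19648860502, nat_lit 19523115780, nat_lit 21086482751, nat_lit 21761378108, nat_lit 23411355012, nat_lit 24217719988, nat_lit 25204593804, nat_lit 25905062596], nat_lit 1271250, nat_lit 1271250, nat_lit 780000, nat_lit 1762500, nat_lit 1271250, nat_lit 1271250, [nat_lit 780000, nat_lit 1100000, nat_lit 1785000], [nat_lit 36, nat_lit 40, nat_lit 40, nat_lit 80, nat_lit 7, nat_lit 373, nat_lit 150, nat_lit 12]⟩, ⟨p065_k8, nat_lit 0, nat_lit 0, nat_lit 154, nat_lit 0, nat_lit 0, [nat_lit 1007920000, nat_lit 1343750000, nat_lit 2116030000], [], [nat_lit 3943398897, nat_lit 4231863557, nat_lit 4613814239, nat_lit 4837526577, nat_lit 5318928285, nat_lit 5489252393, nat_lit 5677799126, nat_lit 5878437570], nat_lit 0, nat_lit 0, nat_lit 0, nat_lit 0, nat_lit 0, nat_lit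 0, [], [nat_lit 11, nat_lit 40, nat_lit 40, nat_lit 80, nat_lit 1, nat_lit 456, nat_lit 225, nat_lit 13]⟩,
 ⟨nat_lit 4472, nat_lit 5000, ⟨.ofNat (nat_lit 421400), .ofNat (nat_lit 635672), .ofNat (nat_lit 442816), .ofNat (nat_lit 657088), .ofNat (nat_lit 428715), .ofNat (nat_lit 632635), .ofNat (nat_lit 450269), .ofNat (nat_lit 654189)⟩, ⟨.ofNat (nat_lit 299999), .ofNat (nat_lit 585713), .ofNat (nat_lit 342856), .ofNat (nat_lit 628570), .ofNat (nat_lit 302621), .ofNat (nat_lit 574534), .ofNat (nat_lit 345754), .ofNat (nat_lit 617667)⟩⟩, [⟨nat_lit 4, nat_lit 100, nat_lit 93, nat_lit 97, nat_lit 275481846⟩, ⟨nat_lit 7, nat_lit 82, nat_lit 100, nat_lit 92, nat_lit 61253554⟩]⟩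
noncomputable def p065_l19 : Lf2 := ⟨nat_lit 0, nat_lit 10, [nat_lit 0, nat_lit 5, nat_lit 5, nat_lit 20], false, nat_lit 160, nat_lit 336, nat_lit 0, nat_lit 160, ⟨nat_lit 1000, nat_lit 0, nat_lit 0, nat_lit 0, nat_lit 0, nat_lit 0, nat_lit 0, nat_lit 0, nat_lit 0, nat_lit 0, nat_lit 0, nat_lit 0, nat_lit 0, nat_lit 0, nat_lit 0, nat_lit 0, false, false⟩,
 nat_lit 0, nat_lit 9912, nat_lit 0, nat_lit 0, nat_lit 6307, nat_lit 7766, nat_lit 711, nat_lit 0, nat_lit 0, nat_lit 1279, nat_lit 0, nat_lit 0, nat_lit 0, nat_lit 0, nat_lit 0, nat_lit 0, nat_lit 0, nat_lit 0, [],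
 ⟨p065_k0, nat_lit 0, nat_lit 0, nat_lit 445, nat_lit 0, nat_lit 806529, [nat_lit 3282000000, nat_lit 6250000000, nat_lit 9842000000], [], [nat_lit 30657065363, nat_lit 31753705511, nat_lit 35304875483, nat_lit 36273044872, nat_lit 33347907324, nat_lit 34209267782, nat_lit 37408500600, nat_lit 38051573976], nat_lit 1271250, nat_lit 1271250, nat_lit 1271250, nat_lit 1271250, nat_lit 1100001, nat_lit 2607000, [nat_lit 780000, nat_lit 1435000, nat_lit 1271250], [nat_lit 8, nat_lit 40, nat_lit 40, nat_lit 80, nat_lit 1, nat_lit 428, nat_lit 200, nat_lit 11]⟩, ⟨p065_k3, nat_lit 0, nat_lit 0, nat_lit 251, nat_lit 0, nat_lit 0, [nat_lit 4688000000, nat_lit 7968000000, nat_lit 11872000000], [], [nat_lit 26149239676, nat_lit 28434959748, nat_lit 38819471144, nat_lit 40340881096, nat_lit 20315320796, nat_lit 22241356304, nat_lit 31699228952, nat_lit 33003185856], nat_lit 0, nat_lit 0, nat_lit 0, nat_lit 0, nat_lit 0,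 nat_lit 0, [], [nat_lit 21, nat_lit 40, nat_lit 40, nat_lit 80, nat_lit 14, nat_lit 456, nat_lit 225, nat_lit 11]⟩,
 zbF0, [⟨nat_lit 4, nat_lit 100, nat_lit 100, nat_lit 100, nat_lit 235995267⟩, ⟨nat_lit 21, nat_lit 83, nat_lit 100, nat_lit 83, nat_lit 62311468⟩]⟩
noncomputable def p065_l20 : Lf2 := ⟨nat_lit 0, nat_lit 10, [nat_lit 0, nat_lit 5, nat_lit 5, nat_lit 20], false, nat_lit 160, nat_lit 336, nat_lit 160, nat_lit 364, ⟨nat_lit 1000, nat_lit 0, nat_lit 0, nat_lit 0, nat_lit 0, nat_lit 0, nat_lit 0, nat_lit 0, nat_lit 0, nat_lit 0, nat_lit 0, nat_lit 0, nat_lit 0, nat_lit 0, nat_lit 0, nat_lit 0, false, false⟩,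
 nat_lit 0, nat_lit 10039, nat_lit 0, nat_lit 0, nat_lit 6388, nat_lit 5584, nat_lit 1529, nat_lit 0, nat_lit 0, nat_lit 0, nat_lit 0, nat_lit 0, nat_lit 0, nat_lit 0, nat_lit 0, nat_lit 0, nat_lit 0, nat_lit 0, [],
 ⟨p065_k4, nat_lit 0, nat_lit 0, nat_lit 339, nat_lit 0, nat_lit 595349, [nat_lit 3282000000, nat_lit 4688000000, nat_lit 9842000000], [], [nat_lit 22934114625, nat_lit 23661708857, nat_lit 29868523728, nat_lit 30863259808, nat_lit 27550312129, nat_lit 28170270882, nat_lit 34698767178, nat_lit 35370105527], nat_lit 1271250, nat_lit 1271250, nat_lit 1271250, nat_lit 1271250, nat_lit 1100001, nat_lit 2607000, [nat_lit 780000, nat_lit 1100000, nat_lit 2127500], [nat_lit 42, nat_lit 40, nat_lit 40, nat_lit 80, nat_lit 13, nat_lit 428, nat_lit 200, nat_lit 11]⟩, ⟨p065_k5, nat_lit 0, nat_lit 0, nat_lit 89, nat_lit 0, nat_lit 0, [nat_lit 4688000000, nat_lit 6250000000, nat_lit 11872000000], [], [nat_lit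 15839024416, nat_lit 18392602080, nat_lit 27713130400, nat_lit 29156842496, nat_lit 26609753724, nat_lit 28035826448, nat_lit 34216384807, nat_lit 35091607172], nat_lit 0, nat_lit 0, nat_lit 0, nat_lit 0, nat_lit 0, nat_lit 0, [], [nat_lit 48, nat_lit 40, nat_lit 40, nat_lit 80, nat_lit 12, nat_lit 538, nat_lit 300, nat_lit 13]⟩,
 zbF0, [⟨nat_lit 16, nat_lit 100, nat_lit 94, nat_lit 97, nat_lit 367459602⟩, ⟨nat_lit 7, nat_lit 77, nat_lit 100, nat_lit 91, nat_lit 418371794⟩]⟩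
noncomputable def p065_l21 : Lf2 := ⟨nat_lit 0, nat_lit 10, [nat_lit 0, nat_lit 5, nat_lit 5, nat_lit 20], false, nat_lit 160, nat_lit 320, nat_lit 160, nat_lit 364, ⟨nat_lit 1000, nat_lit 0, nat_lit 0, nat_lit 0, nat_lit 0, nat_lit 0, nat_lit 0, nat_lit 0, nat_lit 0, nat_lit 0, nat_lit 0, nat_lit 0, nat_lit 0, nat_lit 0, nat_lit 0, nat_lit 0, false, false⟩,
 nat_lit 0, nat_lit 7993, nat_lit 0, nat_lit 0, nat_lit 5533, nat_lit 5779, nat_lit 1716, nat_lit 0, nat_lit 0, nat_lit 0, nat_lit 0, nat_lit 0, nat_lit 0, nat_lit 0, nat_lit 0, nat_lit 0, nat_lit 0, nat_lit 0, [],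
 ⟨p065_k7, nat_lit 0, nat_lit 0, nat_lit 366, nat_lit 0, nat_lit 715926, [nat_lit 3282000000, nat_lit 4688000000, nat_lit 7968000000], [], [nat_lit 23004722312, nat_lit 23834441408, nat_lit 29849900128, nat_lit 30848888552, nat_lit 27082199968, nat_lit 27748064244, nat_lit 33604101148, nat_lit 34289251096], nat_lit 1271250, nat_lit 1271250, nat_lit 1271250, nat_lit 1271250, nat_lit 1100001, nat_lit 2470000, [nat_lit 780000, nat_lit 1100000, nat_lit 1785000], [nat_lit 36, nat_lit 40, nat_lit 40, nat_lit 80, nat_lit 7, nat_lit 317, nat_lit 100, nat_lit 9]⟩, ⟨p065_k5, nat_lit 0, nat_lit 0, nat_lit 89, nat_lit 0, nat_lit 0, [nat_lit 4688000000, nat_lit 6250000000, nat_lit 11872000000], [], [nat_lit 15559906096, nat_lit 18158722980, nat_lit 27666739900, nat_lit 29124520076, nat_lit 26499341760, nat_lit 27939388613, nat_lit 34470106054, nat_lit 35342987873], nat_lit 0, nat_lit 0, nat_lit 0, nat_lit 0, nat_lit 0,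 nat_lit 0, [], [nat_lit 48, nat_lit 40, nat_lit 40, nat_lit 80, nat_lit 12, nat_lit 538, nat_lit 300, nat_lit 13]⟩,
 zbF0, [⟨nat_lit 4, nat_lit 100, nat_lit 93, nat_lit 97, nat_lit 368041430⟩, ⟨nat_lit 19, nat_lit 100, nat_lit 77, nat_lit 91, nat_lit 425995498⟩]⟩
noncomputable def b_V_700_600_20_49 : St := ⟨true, nat_lit 1, nat_lit 0, nat_lit 2, nat_lit 120, nat_lit 280, nat_lit 320, nat_lit 240, nat_lit 280, nat_lit 36, nat_lit 400, nat_lit 80, nat_lit 120, nat_lit 0, nat_lit 336, nat_lit 0, nat_lit 364, nat_lit 0, nat_lit 40, nat_lit 0, nat_lit 0, nat_lit 0, nat_lit 0⟩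
theorem d_V_700_600_20_49 (h : EB TB.env) : Dead b_V_700_600_20_49 := chkB_sound0 h (T :=
(.spl (nat_lit 2) (nat_lit 120)
(.spl (nat_lit 4) (nat_lit 160)
(.spl (nat_lit 0) (nat_lit 300)
(.leaf p065_l0)
(.trZ (nat_lit 0) (nat_lit 100) (nat_lit 88) (nat_lit 68) (nat_lit 48) (.leaf p065_l1)))
(.spl (nat_lit 4) (nat_lit 240)
(.spl (nat_lit 0) (nat_lit 300)
(.leaf p065_l2)
(.trZ (nat_lit 0) (nat_lit 100) (nat_lit 88) (nat_lit 68) (nat_lit 48) (.leaf p065_l3)))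
(.spl (nat_lit 0) (nat_lit 300)
(.spl (nat_lit 0) (nat_lit 290)
(.leaf p065_l4)
(.trZ (nat_lit 0) (nat_lit 100) (nat_lit 91) (nat_lit 63) (nat_lit 40) (.trX (nat_lit 16) (nat_lit 97) (nat_lit 84) (nat_lit 100) (nat_lit 328) (.leaf p065_l5))))
(.trZ (nat_lit 0) (nat_lit 100) (nat_lit 88) (nat_lit 68) (nat_lit 48) (.trX (nat_lit 16) (nat_lit 94) (nat_lit 88) (nat_lit 100) (nat_lit 320) (.leaf p065_l6))))))
(.spl (nat_lit 4) (nat_lit 160)
(.spl (nat_lit 2) (nat_lit 240)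
(.spl (nat_lit 4) (nat_lit 80)
(.spl (nat_lit 0) (nat_lit 300)
(.leaf p065_l7)
(.leaf p065_l8))
(.spl (nat_lit 0) (nat_lit 300)
(.leaf p065_l9)
(.leaf p065_l10)))
(.spl (nat_lit 0) (nat_lit 300)
(.leaf p065_l11)
(.leaf p065_l12)))
(.spl (nat_lit 2) (nat_lit 240)
(.spl (nat_lit 0) (nat_lit 300)
(.spl (nat_lit 5) (nat_lit 160)
(.leaf p065_l13)
(.spl (nat_lit 4) (nat_lit 240)
(.leaf p065_l14)
(.spl (nat_lit 0) (nat_lit 290)
(.leaf p065_l15)
(.trX (nat_lit 16) (nat_lit 97) (nat_lit 84) (nat_lit 100) (nat_lit 328) (.leaf p065_l16)))))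
(.trX (nat_lit 16) (nat_lit 94) (nat_lit 88) (nat_lit 100) (nat_lit 320) (.spl (nat_lit 1) (nat_lit 260)
(.leaf p065_l17)
(.trX (nat_lit 19) (nat_lit 100) (nat_lit 69) (nat_lit 96) (nat_lit 352) (.leaf p065_l18)))))
(.spl (nat_lit 5) (nat_lit 160)
(.leaf p065_l19)
(.spl (nat_lit 0) (nat_lit 300)
(.leaf p065_l20)
(.trX (nat_lit 16) (nat_lit 94) (nat_lit 88) (nat_lit 100) (nat_lit 320) (.leaf p065_l21)))))))) (by decide +kernel)
noncomputable def p065_l22 : Lf2 := ⟨nat_lit 0, nat_lit 10, [nat_lit 0, nat_lit 5, nat_lit 5, nat_lit 20], false, nat_lit 0, nat_lit 160, nat_lit 0, nat_lit 364, ⟨nat_lit 0, nat_lit 1000, nat_lit 0, nat_lit 6, nat_lit 139, nat_lit 1000, nat_lit 64, nat_lit 0, nat_lit 0, nat_lit 0, nat_lit 0, nat_lit 0, nat_lit 0, nat_lit 0, nat_lit 0, nat_lit 5000000, false, false⟩,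
 nat_lit 0, nat_lit 6176, nat_lit 0, nat_lit 0, nat_lit 3929, nat_lit 0, nat_lit 0, nat_lit 0, nat_lit 0, nat_lit 0, nat_lit 0, nat_lit 0, nat_lit 0, nat_lit 0, nat_lit 0, nat_lit 802000, nat_lit 0, nat_lit 0, [(nat_lit 12, [(nat_lit 1, nat_lit 330), (nat_lit 2, nat_lit 670)]), (nat_lit 15, [(nat_lit 1, nat_lit 330), (nat_lit 2, nat_lit 670)])],
 ⟨p065_k0, nat_lit 0, nat_lit 0, nat_lit 486, nat_lit 0, nat_lit 469975, [nat_lit 2247156001, nat_lit 2202084000, nat_lit 673032000], [], [nat_lit 28944234479, nat_lit 26204298153, nat_lit 24385942499, nat_lit 25963248895, nat_lit 24160887283, nat_lit 25621460670, nat_lit 24502339679, nat_lit 25381671235], nat_lit 1271250, nat_lit 1271250, nat_lit 205650, nat_lit 780000, nat_lit 0, nat_lit 1100001, [nat_lit 780000, nat_lit 1435000, nat_lit 1271250], [nat_lit 8, nat_lit 40, nat_lit 40, nat_lit 80, nat_lit 1, nat_lit 289, nat_lit 75, nat_lit 9]⟩, ⟨p065_k3, nat_lit 0,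 nat_lit 0, nat_lit 647, nat_lit 0, nat_lit 595515, [nat_lit 0, nat_lit 0, nat_lit 0], [], [nat_lit 0, nat_lit 0, nat_lit 0, nat_lit 0, nat_lit 0, nat_lit 0, nat_lit 0, nat_lit 0], nat_lit 1271250, nat_lit 1271250, nat_lit 205650, nat_lit 780000, nat_lit 0, nat_lit 2570750, [nat_lit 1100000, nat_lit 1785000, nat_lit 1271250], [nat_lit 21, nat_lit 40, nat_lit 40, nat_lit 80, nat_lit 14, nat_lit 428, nat_lit 200, nat_lit 11]⟩,
 ⟨nat_lit 4472, nat_lit 5478, ⟨.ofNat (nat_lit 235487), .ofNat (nat_lit 392815), .ofNat (nat_lit 278138), .ofNat (nat_lit 435455), .ofNat (nat_lit 264421), .ofNat (nat_lit 407143), .ofNat (nat_lit 307491), .ofNat (nat_lit 450202)⟩, ⟨.negSucc (nat_lit 2834), .ofNat (nat_lit 296923), .ofNat (nat_lit 0), .ofNat (nat_lit 339637), .ofNat (nat_lit 0), .ofNat (nat_lit 302621), .ofNat (nat_lit 0), .ofNat (nat_lit 345754)⟩⟩, [⟨nat_lit 0, nat_lit 100, nat_lit 91, nat_lit 77, nat_lit 195666184⟩]⟩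
noncomputable def p065_l23 : Lf2 := ⟨nat_lit 0, nat_lit 10, [nat_lit 0, nat_lit 5, nat_lit 5, nat_lit 20], false, nat_lit 160, nat_lit 240, nat_lit 0, nat_lit 364, ⟨nat_lit 0, nat_lit 1000, nat_lit 0, nat_lit 6, nat_lit 139, nat_lit 1000, nat_lit 157, nat_lit 0, nat_lit 0, nat_lit 0, nat_lit 0, nat_lit 0, nat_lit 0, nat_lit 0, nat_lit 0, nat_lit 5000000, false, false⟩,
 nat_lit 0, nat_lit 8363, nat_lit 0, nat_lit 0, nat_lit 5321, nat_lit 0, nat_lit 145, nat_lit 0, nat_lit 0, nat_lit 0, nat_lit 0, nat_lit 0, nat_lit 0, nat_lit 0, nat_lit 12, nat_lit 1000000, nat_lit 0, nat_lit 0, [(nat_lit 12, [(nat_lit 2, nat_lit 1000)]), (nat_lit 15, [(nat_lit 2, nat_lit 1000)])],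
 ⟨p065_k0, nat_lit 0, nat_lit 0, nat_lit 354, nat_lit 0, nat_lit 469975, [nat_lit 2479200001, nat_lit 2186400000, nat_lit 42000000], [], [nat_lit 21775227317, nat_lit 18623686820, nat_lit 15635467561, nat_lit 17873035893, nat_lit 18583756274, nat_lit 20855108326, nat_lit 21098033126, nat_lit 19777079409], nat_lit 1271250, nat_lit 1271250, nat_lit 205650, nat_lit 780000, nat_lit 1100001, nat_lit 1785000, [nat_lit 780000, nat_lit 1435000, nat_lit 1271250], [nat_lit 8, nat_lit 40, nat_lit 40, nat_lit 80, nat_lit 1, nat_lit 317, nat_lit 100, nat_lit 9]⟩, ⟨p065_k3, nat_lit 0, nat_lit 0, nat_lit 647, nat_lit 0, nat_lit 595515, [nat_lit 0, nat_lit 0, nat_lit 0], [], [nat_lit 0, nat_lit 0, nat_lit 0, nat_lit 0, nat_lit 0, nat_lit 0, nat_lit 0, nat_lit 0], nat_lit 1271250, nat_lit 1271250, nat_lit 205650, nat_lit 780000, nat_lit 0, nat_lit 2570750, [nat_lit 1100000, nat_lit 1785000, nat_lit 1271250], [nat_lit 21, nat_lit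 40, nat_lit 40, nat_lit 80, nat_lit 14, nat_lit 428, nat_lit 200, nat_lit 11]⟩,
 ⟨nat_lit 4472, nat_lit 5478, ⟨.ofNat (nat_lit 235487), .ofNat (nat_lit 392815), .ofNat (nat_lit 278138), .ofNat (nat_lit 435455), .ofNat (nat_lit 264421), .ofNat (nat_lit 407143), .ofNat (nat_lit 307491), .ofNat (nat_lit 450202)⟩, ⟨.ofNat (nat_lit 296923), .ofNat (nat_lit 446789), .ofNat (nat_lit 339637), .ofNat (nat_lit 489503), .ofNat (nat_lit 302621), .ofNat (nat_lit 438578), .ofNat (nat_lit 345754), .ofNat (nat_lit 481711)⟩⟩, [⟨nat_lit 0, nat_lit 100, nat_lit 87, nat_lit 95, nat_lit 53428369⟩]⟩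
noncomputable def p065_l24 : Lf2 := ⟨nat_lit 0, nat_lit 10, [nat_lit 0, nat_lit 5, nat_lit 5, nat_lit 20], false, nat_lit 240, nat_lit 336, nat_lit 0, nat_lit 364, ⟨nat_lit 0, nat_lit 1000, nat_lit 0, nat_lit 6, nat_lit 139, nat_lit 1000, nat_lit 220, nat_lit 0, nat_lit 0, nat_lit 0, nat_lit 0, nat_lit 0, nat_lit 0, nat_lit 0, nat_lit 0, nat_lit 5000000, false, false⟩,
 nat_lit 0, nat_lit 7549, nat_lit 0, nat_lit 0, nat_lit 4803, nat_lit 0, nat_lit 0, nat_lit 0, nat_lit 0, nat_lit 0, nat_lit 0, nat_lit 0, nat_lit 0, nat_lit 0, nat_lit 12, nat_lit 1000000, nat_lit 0, nat_lit 0, [(nat_lit 12, [(nat_lit 2, nat_lit 1000)]), (nat_lit 15, [(nat_lit 2, nat_lit 1000)])],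
 ⟨p065_k0, nat_lit 0, nat_lit 0, nat_lit 353, nat_lit 0, nat_lit 469975, [nat_lit 2479200001, nat_lit 2186400000, nat_lit 42000000], [], [nat_lit 20793452457, nat_lit 22398015059, nat_lit 20163236950, nat_lit 21799106414, nat_lit 24467856567, nat_lit 27036792204, nat_lit 23668491969, nat_lit 25153889333], nat_lit 1271250, nat_lit 1271250, nat_lit 205650, nat_lit 780000, nat_lit 1271250, nat_lit 1271250, [nat_lit 780000, nat_lit 1435000, nat_lit 1271250], [nat_lit 8, nat_lit 40, nat_lit 40, nat_lit 80, nat_lit 1, nat_lit 345, nat_lit 125, nat_lit 9]⟩, ⟨p065_k3, nat_lit 0, nat_lit 0, nat_lit 647, nat_lit 0, nat_lit 595515, [nat_lit 0, nat_lit 0, nat_lit 0], [], [nat_lit 0, nat_lit 0, nat_lit 0, nat_lit 0, nat_lit 0, nat_lit 0, nat_lit 0, nat_lit 0], nat_lit 1271250, nat_lit 1271250, nat_lit 205650, nat_lit 780000, nat_lit 0, nat_lit 2570750, [nat_lit 1100000, nat_lit 1785000, nat_lit 1271250], [nat_lit 21, nat_lit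 40, nat_lit 40, nat_lit 80, nat_lit 14, nat_lit 428, nat_lit 200, nat_lit 11]⟩,
 ⟨nat_lit 4472, nat_lit 5478, ⟨.ofNat (nat_lit 235487), .ofNat (nat_lit 392815), .ofNat (nat_lit 278138), .ofNat (nat_lit 435455), .ofNat (nat_lit 264421), .ofNat (nat_lit 407143), .ofNat (nat_lit 307491), .ofNat (nat_lit 450202)⟩, ⟨.ofNat (nat_lit 446789), .ofNat (nat_lit 626629), .ofNat (nat_lit 489503), .ofNat (nat_lit 669343), .ofNat (nat_lit 438578), .ofNat (nat_lit 601725), .ofNat (nat_lit 481711), .ofNat (nat_lit 644858)⟩⟩, [⟨nat_lit 0, nat_lit 100, nat_lit 91, nat_lit 77, nat_lit 103799063⟩, ⟨nat_lit 4, nat_lit 100, nat_lit 100, nat_lit 100, nat_lit 269553781⟩]⟩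
noncomputable def p065_l25 : Lf2 := ⟨nat_lit 0, nat_lit 10, [nat_lit 0, nat_lit 5, nat_lit 5, nat_lit 20], false, nat_lit 0, nat_lit 160, nat_lit 0, nat_lit 364, ⟨nat_lit 0, nat_lit 1000, nat_lit 0, nat_lit 6, nat_lit 211, nat_lit 1000, nat_lit 64, nat_lit 0, nat_lit 0, nat_lit 0, nat_lit 0, nat_lit 0, nat_lit 0, nat_lit 0, nat_lit 0, nat_lit 5000000, false, false⟩,
 nat_lit 0, nat_lit 4778, nat_lit 0, nat_lit 0, nat_lit 3040, nat_lit 0, nat_lit 0, nat_lit 0, nat_lit 0, nat_lit 0, nat_lit 0, nat_lit 0, nat_lit 0, nat_lit 0, nat_lit 0, nat_lit 587800, nat_lit 0, nat_lit 0, [(nat_lit 12, [(nat_lit 1, nat_lit 687), (nat_lit 2, nat_lit 313)])],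
 ⟨p065_k0, nat_lit 0, nat_lit 0, nat_lit 349, nat_lit 0, nat_lit 346917, [nat_lit 2151908401, nat_lit 2478687600, nat_lit 1719184800], [], [nat_lit 29263081601, nat_lit 27655718081, nat_lit 27184805121, nat_lit 27926764961, nat_lit 24871060161, nat_lit 25634398721, nat_lit 27927542162, nat_lit 27721632881], nat_lit 1271250, nat_lit 1271250, nat_lit 780000, nat_lit 1762500, nat_lit 0, nat_lit 1100001, [nat_lit 780000, nat_lit 1435000, nat_lit 1271250], [nat_lit 8, nat_lit 40, nat_lit 40, nat_lit 80, nat_lit 1, nat_lit 317, nat_lit 100, nat_lit 9]⟩, ⟨p065_k3, nat_lit 0, nat_lit 0, nat_lit 499, nat_lit 0, nat_lit 439586, [nat_lit 0, nat_lit 0, nat_lit 0], [], [nat_lit 0, nat_lit 0, nat_lit 0, nat_lit 0, nat_lit 0, nat_lit 0, nat_lit 0, nat_lit 0], nat_lit 1271250, nat_lit 1271250, nat_lit 780000, nat_lit 1762500, nat_lit 0, nat_lit 2570750, [nat_lit 1100000, nat_lit 1785000, nat_lit 1271250], [nat_lit 21, nat_lit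 40, nat_lit 40, nat_lit 80, nat_lit 14, nat_lit 456, nat_lit 225, nat_lit 12]⟩,
 ⟨nat_lit 5000, nat_lit 5478, ⟨.ofNat (nat_lit 392847), .ofNat (nat_lit 617614), .ofNat (nat_lit 435548), .ofNat (nat_lit 660309), .ofNat (nat_lit 399998), .ofNat (nat_lit 614253), .ofNat (nat_lit 442843), .ofNat (nat_lit 657090)⟩, ⟨.negSucc (nat_lit 2832), .ofNat (nat_lit 296923), .ofNat (nat_lit 0), .ofNat (nat_lit 339637), .ofNat (nat_lit 0), .ofNat (nat_lit 299999), .ofNat (nat_lit 0), .ofNat (nat_lit 342856)⟩⟩, []⟩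
noncomputable def p065_l26 : Lf2 := ⟨nat_lit 0, nat_lit 10, [nat_lit 0, nat_lit 5, nat_lit 5, nat_lit 20], true, nat_lit 0, nat_lit 160, nat_lit 0, nat_lit 364, ⟨nat_lit 0, nat_lit 1000, nat_lit 0, nat_lit 6, nat_lit 212, nat_lit 1000, nat_lit 65, nat_lit 0, nat_lit 0, nat_lit 0, nat_lit 0, nat_lit 0, nat_lit 0, nat_lit 0, nat_lit 0, nat_lit 5000000, false, false⟩,
 nat_lit 0, nat_lit 6063, nat_lit 0, nat_lit 0, nat_lit 4197, nat_lit 0, nat_lit 1478, nat_lit 0, nat_lit 0, nat_lit 0, nat_lit 0, nat_lit 0, nat_lit 0, nat_lit 0, nat_lit 0, nat_lit 400000, nat_lit 0, nat_lit 0, [(nat_lit 15, [(nat_lit 1, nat_lit 1000)])],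
 ⟨p065_k1, nat_lit 0, nat_lit 0, nat_lit 483, nat_lit 0, nat_lit 715926, [nat_lit 2020200000, nat_lit 2354866667, nat_lit 2328333333], [], [nat_lit 25832236442, nat_lit 23646531176, nat_lit 22004534056, nat_lit 22997827900, nat_lit 19107575758, nat_lit 20124871504, nat_lit 24263393382, nat_lit 22622680020], nat_lit 1271250, nat_lit 1271250, nat_lit 780000, nat_lit 1762500, nat_lit 0, nat_lit 1100001, [nat_lit 780000, nat_lit 1435000, nat_lit 1271250], [nat_lit 18, nat_lit 40, nat_lit 40, nat_lit 80, nat_lit 2, nat_lit 317, nat_lit 100, nat_lit 10]⟩, C1.Rw.none,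
 ⟨nat_lit 4472, nat_lit 5000, ⟨.ofNat (nat_lit 399984), .ofNat (nat_lit 614256), .ofNat (nat_lit 442816), .ofNat (nat_lit 657088), .ofNat (nat_lit 407160), .ofNat (nat_lit 611081), .ofNat (nat_lit 450269), .ofNat (nat_lit 654189)⟩, ⟨.ofNat (nat_lit 0), .ofNat (nat_lit 299999), .ofNat (nat_lit 0), .ofNat (nat_lit 342856), .ofNat (nat_lit 0), .ofNat (nat_lit 302621), .ofNat (nat_lit 0), .ofNat (nat_lit 345754)⟩⟩, []⟩
noncomputable def p065_l27 : Lf2 := ⟨nat_lit 0, nat_lit 10, [nat_lit 0, nat_lit 5, nat_lit 5, nat_lit 20], false, nat_lit 0, nat_lit 160, nat_lit 0, nat_lit 364, ⟨nat_lit 535, nat_lit 465, nat_lit 0, nat_lit 6, nat_lit 311, nat_lit 465, nat_lit 64, nat_lit 0, nat_lit 0, nat_lit 0, nat_lit 0, nat_lit 0, nat_lit 0, nat_lit 0, nat_lit 0, nat_lit 5000000, true, true⟩,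
 nat_lit 9138, nat_lit 0, nat_lit 0, nat_lit 0, nat_lit 5815, nat_lit 4837, nat_lit 385, nat_lit 0, nat_lit 0, nat_lit 408, nat_lit 0, nat_lit 0, nat_lit 0, nat_lit 0, nat_lit 0, nat_lit 465000, nat_lit 0, nat_lit 0, [(nat_lit 12, [(nat_lit 2, nat_lit 465)]), (nat_lit 15, [(nat_lit 2, nat_lit 465)])],
 ⟨p065_k0, nat_lit 0, nat_lit 0, nat_lit 421, nat_lit 0, nat_lit 469975, [nat_lit 2841738001, nat_lit 4248826000, nat_lit 5128760000], [], [nat_lit 27528348065, nat_lit 29163356645, nat_lit 35234534040, nat_lit 37542879140, nat_lit 24914296466, nat_lit 26133899441, nat_lit 30504148820, nat_lit 31529881240], nat_lit 1271250, nat_lit 1271250, nat_lit 1271250, nat_lit 1271250, nat_lit 0, nat_lit 1100001, [nat_lit 780000, nat_lit 1435000, nat_lit 1271250], [nat_lit 8, nat_lit 40, nat_lit 40, nat_lit 80, nat_lit 1, nat_lit 373, nat_lit 150, nat_lit 10]⟩, ⟨p065_k3, nat_lit 0, nat_lit 0, nat_lit 525, nat_lit 0, nat_lit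 595515, [nat_lit 2508080000, nat_lit 4262880000, nat_lit 6351520000], [], [nat_lit 18529497704, nat_lit 19101010916, nat_lit 22758675832, nat_lit 23366689512, nat_lit 17466279818, nat_lit 17090363081, nat_lit 20712292383, nat_lit 21158336449], nat_lit 1271250, nat_lit 1271250, nat_lit 1271250, nat_lit 1271250, nat_lit 0, nat_lit 2570750, [nat_lit 1100000, nat_lit 1785000, nat_lit 1271250], [nat_lit 21, nat_lit 40, nat_lit 40, nat_lit 80, nat_lit 14, nat_lit 538, nat_lit 300, nat_lit 13]⟩,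
 ⟨nat_lit 4472, nat_lit 5478, ⟨.ofNat (nat_lit 617523), .ofNat (nat_lit 917115), .ofNat (nat_lit 660148), .ofNat (nat_lit 959740), .ofNat (nat_lit 610987), .ofNat (nat_lit 882759), .ofNat (nat_lit 654031), .ofNat (nat_lit 925804)⟩, ⟨.negSucc (nat_lit 2834), .ofNat (nat_lit 296923), .ofNat (nat_lit 0), .ofNat (nat_lit 339637), .ofNat (nat_lit 0), .ofNat (nat_lit 302621), .ofNat (nat_lit 0), .ofNat (nat_lit 345754)⟩⟩, [⟨nat_lit 22, nat_lit 83, nat_lit 100, nat_lit 83, nat_lit 108503515⟩]⟩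
noncomputable def p065_l28 : Lf2 := ⟨nat_lit 0, nat_lit 10, [nat_lit 0, nat_lit 5, nat_lit 5, nat_lit 20], false, nat_lit 160, nat_lit 336, nat_lit 0, nat_lit 364, ⟨nat_lit 0, nat_lit 1000, nat_lit 0, nat_lit 6, nat_lit 211, nat_lit 1000, nat_lit 191, nat_lit 0, nat_lit 0, nat_lit 0, nat_lit 0, nat_lit 0, nat_lit 0, nat_lit 0, nat_lit 0, nat_lit 5000000, false, false⟩,
 nat_lit 0, nat_lit 7129, nat_lit 0, nat_lit 0, nat_lit 4536, nat_lit 0, nat_lit 454, nat_lit 0, nat_lit 0, nat_lit 0, nat_lit 0, nat_lit 0, nat_lit 0, nat_lit 0, nat_lit 12, nat_lit 1000000, nat_lit 0, nat_lit 0, [(nat_lit 12, [(nat_lit 2, nat_lit 1000)]), (nat_lit 15, [(nat_lit 2, nat_lit 1000)])],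
 ⟨p065_k4, nat_lit 0, nat_lit 0, nat_lit 304, nat_lit 0, nat_lit 469975, [nat_lit 2136960000, nat_lit 2804400000, nat_lit 42000000], [], [nat_lit 21376861088, nat_lit 19066304032, nat_lit 23971257334, nat_lit 21754002336, nat_lit 23654111597, nat_lit 25288086177, nat_lit 25406412576, nat_lit 26872135949], nat_lit 1271250, nat_lit 1271250, nat_lit 780000, nat_lit 1762500, nat_lit 1271250, nat_lit 1271250, [nat_lit 780000, nat_lit 1100000, nat_lit 2127500], [nat_lit 42, nat_lit 40, nat_lit 40, nat_lit 80, nat_lit 13, nat_lit 373, nat_lit 150, nat_lit 10]⟩, ⟨p065_k5, nat_lit 0, nat_lit 0, nat_lit 551, nat_lit 0, nat_lit 595515, [nat_lit 0, nat_lit 0, nat_lit 0], [], [nat_lit 0, nat_lit 0, nat_lit 0, nat_lit 0, nat_lit 0, nat_lit 0, nat_lit 0, nat_lit 0], nat_lit 1271250, nat_lit 1271250, nat_lit 780000, nat_lit 1762500, nat_lit 0, nat_lit 2570750, [nat_lit 1100000, nat_lit 1442500, nat_lit 1271250], [nat_lit 48,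 nat_lit 40, nat_lit 40, nat_lit 80, nat_lit 12, nat_lit 456, nat_lit 225, nat_lit 12]⟩,
 ⟨nat_lit 4472, nat_lit 5478, ⟨.ofNat (nat_lit 392815), .ofNat (nat_lit 617523), .ofNat (nat_lit 435455), .ofNat (nat_lit 660148), .ofNat (nat_lit 407143), .ofNat (nat_lit 610987), .ofNat (nat_lit 450202), .ofNat (nat_lit 654031)⟩, ⟨.ofNat (nat_lit 296923), .ofNat (nat_lit 626629), .ofNat (nat_lit 339637), .ofNat (nat_lit 669343), .ofNat (nat_lit 302621), .ofNat (nat_lit 601725), .ofNat (nat_lit 345754), .ofNat (nat_lit 644858)⟩⟩, [⟨nat_lit 4, nat_lit 100, nat_lit 100, nat_lit 100, nat_lit 122432967⟩]⟩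
noncomputable def p065_l29 : Lf2 := ⟨nat_lit 0, nat_lit 10, [nat_lit 0, nat_lit 5, nat_lit 5, nat_lit 20], false, nat_lit 160, nat_lit 336, nat_lit 0, nat_lit 364, ⟨nat_lit 553, nat_lit 447, nat_lit 0, nat_lit 6, nat_lit 284, nat_lit 447, nat_lit 192, nat_lit 0, nat_lit 0, nat_lit 0, nat_lit 0, nat_lit 0, nat_lit 0, nat_lit 0, nat_lit 0, nat_lit 5000000, true, true⟩,
 nat_lit 7979, nat_lit 0, nat_lit 0, nat_lit 6376, nat_lit 5077, nat_lit 4224, nat_lit 1048, nat_lit 0, nat_lit 0, nat_lit 845, nat_lit 0, nat_lit 0, nat_lit 0, nat_lit 0, nat_lit 0, nat_lit 178800, nat_lit 0, nat_lit 0, [(nat_lit 12, [(nat_lit 1, nat_lit 447)])],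
 ⟨p065_k4, nat_lit 0, nat_lit 0, nat_lit 198, nat_lit 0, nat_lit 346917, [nat_lit 2723875800, nat_lit 3807767601, nat_lit 6621096800], [], [nat_lit 20436917328, nat_lit 21386022534, nat_lit 23796808312, nat_lit 24656589846, nat_lit 25931533543, nat_lit 26650027715, nat_lit 28735484435, nat_lit 29500538653], nat_lit 1271250, nat_lit 1271250, nat_lit 1271250, nat_lit 1271250, nat_lit 1100001, nat_lit 2607000, [nat_lit 780000, nat_lit 1100000, nat_lit 2127500], [nat_lit 42, nat_lit 40, nat_lit 40, nat_lit 80, nat_lit 13, nat_lit 401, nat_lit 175, nat_lit 11]⟩, ⟨p065_k5, nat_lit 0, nat_lit 0, nat_lit 414, nat_lit 0, nat_lit 439586, [nat_lit 2592464000, nat_lit 3456250000, nat_lit 6565216000], [], [nat_lit 16769367487, nat_lit 17444532487, nat_lit 18339527807, nat_lit 18880096863, nat_lit 16558499902, nat_lit 16819013280, nat_lit 17516053485, nat_lit 18061190321], nat_lit 1271250, nat_lit 1271250, nat_lit 1271250,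 nat_lit 1271250, nat_lit 0, nat_lit 2570750, [nat_lit 1100000, nat_lit 1442500, nat_lit 1271250], [nat_lit 48, nat_lit 40, nat_lit 40, nat_lit 80, nat_lit 12, nat_lit 483, nat_lit 250, nat_lit 12]⟩,
 ⟨nat_lit 5000, nat_lit 5478, ⟨.ofNat (nat_lit 617614), .ofNat (nat_lit 767454), .ofNat (nat_lit 660309), .ofNat (nat_lit 810149), .ofNat (nat_lit 614253), .ofNat (nat_lit 757084), .ofNat (nat_lit 657090), .ofNat (nat_lit 799922)⟩, ⟨.ofNat (nat_lit 296923), .ofNat (nat_lit 626629), .ofNat (nat_lit 339637), .ofNat (nat_lit 669336), .ofNat (nat_lit 299999), .ofNat (nat_lit 614284), .ofNat (nat_lit 342856), .ofNat (nat_lit 657134)⟩⟩, [⟨nat_lit 4, nat_lit 94, nat_lit 100, nat_lit 97, nat_lit 310755015⟩, ⟨nat_lit 7, nat_lit 77, nat_lit 100, nat_lit 91, nat_lit 106848108⟩]⟩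
noncomputable def p065_l30 : Lf2 := ⟨nat_lit 0, nat_lit 10, [nat_lit 0, nat_lit 5, nat_lit 5, nat_lit 20], false, nat_lit 160, nat_lit 320, nat_lit 0, nat_lit 364, ⟨nat_lit 552, nat_lit 448, nat_lit 0, nat_lit 6, nat_lit 282, nat_lit 448, nat_lit 185, nat_lit 0, nat_lit 0, nat_lit 0, nat_lit 0, nat_lit 0, nat_lit 0, nat_lit 0, nat_lit 0, nat_lit 5000000, true, true⟩,
 nat_lit 7988, nat_lit 0, nat_lit 0, nat_lit 0, nat_lit 5530, nat_lit 4228, nat_lit 206, nat_lit 0, nat_lit 0, nat_lit 850, nat_lit 0, nat_lit 0, nat_lit 0, nat_lit 0, nat_lit 0, nat_lit 448000, nat_lit 0, nat_lit 0, [(nat_lit 15, [(nat_lit 2, nat_lit 448)])],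
 ⟨p065_k7, nat_lit 0, nat_lit 0, nat_lit 206, nat_lit 0, nat_lit 422750, [nat_lit 2699349121, nat_lit 3559577600, nat_lit 4085990400], [], [nat_lit 21985264281, nat_lit 22893347581, nat_lit 25016251240, nat_lit 25847054820, nat_lit 26210214420, nat_lit 27047454260, nat_lit 28942602680, nat_lit 29863890480], nat_lit 1271250, nat_lit 1271250, nat_lit 1271250, nat_lit 1271250, nat_lit 1100001, nat_lit 2470000, [nat_lit 780000, nat_lit 1100000, nat_lit 1785000], [nat_lit 36, nat_lit 40, nat_lit 40, nat_lit 80, nat_lit 7, nat_lit 317, nat_lit 100, nat_lit 9]⟩, ⟨p065_k5, nat_lit 0, nat_lit 0, nat_lit 521, nat_lit 0, nat_lit 595515, [nat_lit 2587776000, nat_lit 3450000000, nat_lit 6553344000], [], [nat_lit 16673904750, nat_lit 17359333454, nat_lit 18253701598, nat_lit 18793435726, nat_lit 16463523089, nat_lit 16753429138, nat_lit 17447628414, nat_lit 18039278912], nat_lit 1271250, nat_lit 1271250, nat_lit 1271250,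 nat_lit 1271250, nat_lit 0, nat_lit 2570750, [nat_lit 1100000, nat_lit 1442500, nat_lit 1271250], [nat_lit 48, nat_lit 40, nat_lit 40, nat_lit 80, nat_lit 12, nat_lit 483, nat_lit 250, nat_lit 12]⟩,
 ⟨nat_lit 4472, nat_lit 5000, ⟨.ofNat (nat_lit 614256), .ofNat (nat_lit 757103), .ofNat (nat_lit 657088), .ofNat (nat_lit 799935), .ofNat (nat_lit 611081), .ofNat (nat_lit 747027), .ofNat (nat_lit 654189), .ofNat (nat_lit 790136)⟩, ⟨.ofNat (nat_lit 299999), .ofNat (nat_lit 585713), .ofNat (nat_lit 342856), .ofNat (nat_lit 628570), .ofNat (nat_lit 302621), .ofNat (nat_lit 574534), .ofNat (nat_lit 345754), .ofNat (nat_lit 617667)⟩⟩, [⟨nat_lit 16, nat_lit 94, nat_lit 88, nat_lit 100, nat_lit 303711491⟩, ⟨nat_lit 7, nat_lit 77, nat_lit 100, nat_lit 91, nat_lit 107767125⟩]⟩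
noncomputable def p065_l31 : Lf2 := ⟨nat_lit 0, nat_lit 10, [nat_lit 0, nat_lit 5, nat_lit 5, nat_lit 20], false, nat_lit 160, nat_lit 336, nat_lit 16, nat_lit 364, ⟨nat_lit 1000, nat_lit 0, nat_lit 0, nat_lit 0, nat_lit 0, nat_lit 0, nat_lit 0, nat_lit 0, nat_lit 0, nat_lit 0, nat_lit 0, nat_lit 0, nat_lit 0, nat_lit 0, nat_lit 0, nat_lit 0, false, false⟩,
 nat_lit 13731, nat_lit 0, nat_lit 0, nat_lit 413, nat_lit 6144, nat_lit 7269, nat_lit 1088, nat_lit 0, nat_lit 0, nat_lit 1153, nat_lit 0, nat_lit 0, nat_lit 0, nat_lit 0, nat_lit 0, nat_lit 0, nat_lit 0, nat_lit 0, [],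
 ⟨p065_k4, nat_lit 0, nat_lit 0, nat_lit 222, nat_lit 0, nat_lit 346917, [nat_lit 3282000000, nat_lit 4688000000, nat_lit 9842000000], [], [nat_lit 26915376480, nat_lit 27699216080, nat_lit 31072306400, nat_lit 31688891776, nat_lit 30723440231, nat_lit 31228144807, nat_lit 34409486829, nat_lit 35074345124], nat_lit 1271250, nat_lit 1271250, nat_lit 1271250, nat_lit 1271250, nat_lit 1100001, nat_lit 2607000, [nat_lit 780000, nat_lit 1100000, nat_lit 2127500], [nat_lit 42, nat_lit 40, nat_lit 40, nat_lit 80, nat_lit 13, nat_lit 317, nat_lit 100, nat_lit 8]⟩, ⟨p065_k5, nat_lit 0, nat_lit 0, nat_lit 415, nat_lit 0, nat_lit 439586, [nat_lit 4688000000, nat_lit 6250000000, nat_lit 11872000000], [], [nat_lit 34896718769, nat_lit 35858140700, nat_lit 39060817570, nat_lit 40151846902, nat_lit 33999679444, nat_lit 34303179828, nat_lit 36907069611, nat_lit 37264168054], nat_lit 1271250, nat_lit 1271250, nat_lit 1271250,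 nat_lit 1271250, nat_lit 88400, nat_lit 2598350, [nat_lit 1100000, nat_lit 1442500, nat_lit 1271250], [nat_lit 48, nat_lit 40, nat_lit 40, nat_lit 80, nat_lit 12, nat_lit 401, nat_lit 175, nat_lit 10]⟩,
 zbF0, [⟨nat_lit 4, nat_lit 94, nat_lit 100, nat_lit 97, nat_lit 334707004⟩, ⟨nat_lit 7, nat_lit 77, nat_lit 100, nat_lit 91, nat_lit 174317302⟩]⟩
noncomputable def p065_l32 : Lf2 := ⟨nat_lit 0, nat_lit 10, [nat_lit 0, nat_lit 5, nat_lit 5, nat_lit 20], false, nat_lit 160, nat_lit 320, nat_lit 16, nat_lit 364, ⟨nat_lit 896, nat_lit 104, nat_lit 0, nat_lit 8, nat_lit 337, nat_lit 104, nat_lit 185, nat_lit 0, nat_lit 0, nat_lit 0, nat_lit 0, nat_lit 0, nat_lit 0, nat_lit 0, nat_lit 0, nat_lit 5000000, true, true⟩,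
 nat_lit 11556, nat_lit 0, nat_lit 0, nat_lit 0, nat_lit 5253, nat_lit 6117, nat_lit 870, nat_lit 0, nat_lit 0, nat_lit 1238, nat_lit 0, nat_lit 0, nat_lit 0, nat_lit 0, nat_lit 0, nat_lit 104000, nat_lit 0, nat_lit 0, [(nat_lit 15, [(nat_lit 2, nat_lit 104)])],
 ⟨p065_k7, nat_lit 0, nat_lit 0, nat_lit 253, nat_lit 0, nat_lit 422750, [nat_lit 3146741761, nat_lit 4426044801, nat_lit 7066819200], [], [nat_lit 26488452900, nat_lit 27219198886, nat_lit 30088921112, nat_lit 30657400330, nat_lit 29569293448, nat_lit 30084709038, nat_lit 33279817468, nat_lit 33956075736], nat_lit 1271250, nat_lit 1271250, nat_lit 1271250, nat_lit 1271250, nat_lit 1100001, nat_lit 2470000, [nat_lit 780000, nat_lit 1100000, nat_lit 1785000], [nat_lit 36, nat_lit 40, nat_lit 40, nat_lit 80, nat_lit 7, nat_lit 317, nat_lit 100, nat_lit 9]⟩, ⟨p065_k5, nat_lit 0, nat_lit 0, nat_lit 510, nat_lit 0, nat_lit 595515, [nat_lit 4200448000, nat_lit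 5600000000, nat_lit 10637312000], [], [nat_lit 31448467829, nat_lit 32145459506, nat_lit 34408392228, nat_lit 34979025743, nat_lit 30655424849, nat_lit 30946543527, nat_lit 32581491113, nat_lit 32888781467], nat_lit 1271250, nat_lit 1271250, nat_lit 1271250, nat_lit 1271250, nat_lit 88400, nat_lit 2598350, [nat_lit 1100000, nat_lit 1442500, nat_lit 1271250], [nat_lit 48, nat_lit 40, nat_lit 40, nat_lit 80, nat_lit 12, nat_lit 401, nat_lit 175, nat_lit 10]⟩,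
 ⟨nat_lit 4472, nat_lit 5000, ⟨.ofNat (nat_lit 757103), .ofNat (nat_lit 899951), .ofNat (nat_lit 799935), .ofNat (nat_lit 942783), .ofNat (nat_lit 747027), .ofNat (nat_lit 882974), .ofNat (nat_lit 790136), .ofNat (nat_lit 926083)⟩, ⟨.ofNat (nat_lit 299999), .ofNat (nat_lit 585713), .ofNat (nat_lit 342856), .ofNat (nat_lit 628570), .ofNat (nat_lit 302621), .ofNat (nat_lit 574534), .ofNat (nat_lit 345754), .ofNat (nat_lit 617667)⟩⟩, [⟨nat_lit 4, nat_lit 100, nat_lit 93, nat_lit 97, nat_lit 332591613⟩, ⟨nat_lit 19, nat_lit 100, nat_lit 77, nat_lit 91, nat_lit 163961838⟩]⟩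
noncomputable def b_V_700_600_20_50 : St := ⟨true, nat_lit 1, nat_lit 1, nat_lit 2, nat_lit 120, nat_lit 280, nat_lit 320, nat_lit 240, nat_lit 280, nat_lit 36, nat_lit 400, nat_lit 80, nat_lit 120, nat_lit 0, nat_lit 336, nat_lit 0, nat_lit 364, nat_lit 0, nat_lit 40, nat_lit 0, nat_lit 0, nat_lit 0, nat_lit 0⟩
theorem d_V_700_600_20_50 (h : EB TB.env) : Dead b_V_700_600_20_50 := chkB_sound0 h (T :=
(.spl (nat_lit 2) (nat_lit 120)
(.spl (nat_lit 4) (nat_lit 160)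
(.leaf p065_l22)
(.spl (nat_lit 4) (nat_lit 240)
(.leaf p065_l23)
(.leaf p065_l24)))
(.spl (nat_lit 4) (nat_lit 160)
(.spl (nat_lit 2) (nat_lit 240)
(.spl (nat_lit 0) (nat_lit 300)
(.leaf p065_l25)
(.leaf p065_l26))
(.leaf p065_l27))
(.spl (nat_lit 2) (nat_lit 240)
(.leaf p065_l28)
(.spl (nat_lit 2) (nat_lit 320)
(.spl (nat_lit 0) (nat_lit 300)
(.leaf p065_l29)
(.trX (nat_lit 16) (nat_lit 94) (nat_lit 88) (nat_lit 100) (nat_lit 320) (.leaf p065_l30)))
(.trZ (nat_lit 9) (nat_lit 100) (nat_lit 82) (nat_lit 44) (nat_lit 16) (.spl (nat_lit 0) (nat_lit 300)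
(.leaf p065_l31)
(.trX (nat_lit 16) (nat_lit 94) (nat_lit 88) (nat_lit 100) (nat_lit 320) (.leaf p065_l32))))))))) (by decide +kernel)
noncomputable def p065_l33 : Lf2 := ⟨nat_lit 0, nat_lit 15, [nat_lit 30, nat_lit 5, nat_lit 5, nat_lit 20], true, nat_lit 0, nat_lit 160, nat_lit 0, nat_lit 364, ⟨nat_lit 0, nat_lit 0, nat_lit 1000, nat_lit 6, nat_lit 139, nat_lit 548, nat_lit 64, nat_lit 1000, nat_lit 38400, nat_lit 263, nat_lit 180267, nat_lit 319, nat_lit 59822027, nat_lit 0, nat_lit 0, nat_lit 1702401, false, false⟩,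
 nat_lit 0, nat_lit 0, nat_lit 0, nat_lit 10070, nat_lit 3155, nat_lit 0, nat_lit 0, nat_lit 0, nat_lit 0, nat_lit 0, nat_lit 0, nat_lit 0, nat_lit 0, nat_lit 0, nat_lit 150, nat_lit 657400, nat_lit 0, nat_lit 0, [(nat_lit 13, [(nat_lit 5, nat_lit 571), (nat_lit 6, nat_lit 429)]), (nat_lit 16, [(nat_lit 5, nat_lit 571), (nat_lit 6, nat_lit 429)])],
 ⟨p065_k9, nat_lit 0, nat_lit 0, nat_lit 284, nat_lit 0, nat_lit 0, [nat_lit 3044894000, nat_lit 2207576000, nat_lit 25620000], [], [nat_lit 14125275594, nat_lit 17278150965, nat_lit 14097780120, nat_lit 16332543400, nat_lit 14041376084, nat_lit 16336571775, nat_lit 14322881100, nat_lit 16670012080], nat_lit 0, nat_lit 0, nat_lit 0, nat_lit 0, nat_lit 0, nat_lit 0, [], [nat_lit 8, nat_lit 40, nat_lit 40, nat_lit 80, nat_lit 1, nat_lit 289, nat_lit 75, nat_lit 9]⟩, C1.Rw.none,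
 ⟨nat_lit 4472, nat_lit 5478, ⟨.ofNat (nat_lit 235487), .ofNat (nat_lit 392815), .ofNat (nat_lit 278138), .ofNat (nat_lit 435455), .ofNat (nat_lit 264421), .ofNat (nat_lit 407143), .ofNat (nat_lit 307491), .ofNat (nat_lit 450202)⟩, ⟨.negSucc (nat_lit 2834), .ofNat (nat_lit 296923), .ofNat (nat_lit 0), .ofNat (nat_lit 339637), .ofNat (nat_lit 0), .ofNat (nat_lit 302621), .ofNat (nat_lit 0), .ofNat (nat_lit 345754)⟩⟩, [⟨nat_lit 0, nat_lit 100, nat_lit 87, nat_lit 95, nat_lit 169200346⟩]⟩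
noncomputable def p065_l34 : Lf2 := ⟨nat_lit 0, nat_lit 15, [nat_lit 30, nat_lit 5, nat_lit 5, nat_lit 20], false, nat_lit 0, nat_lit 160, nat_lit 0, nat_lit 364, ⟨nat_lit 1000, nat_lit 0, nat_lit 0, nat_lit 0, nat_lit 0, nat_lit 0, nat_lit 0, nat_lit 0, nat_lit 0, nat_lit 0, nat_lit 0, nat_lit 0, nat_lit 0, nat_lit 0, nat_lit 0, nat_lit 0, false, false⟩,
 nat_lit 0, nat_lit 0, nat_lit 0, nat_lit 28980, nat_lit 6719, nat_lit 9992, nat_lit 1219, nat_lit 0, nat_lit 0, nat_lit 1146, nat_lit 0, nat_lit 0, nat_lit 0, nat_lit 0, nat_lit 0, nat_lit 0, nat_lit 0, nat_lit 0, [],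
 ⟨p065_k9, nat_lit 0, nat_lit 0, nat_lit 182, nat_lit 0, nat_lit 0, [nat_lit 3282000000, nat_lit 6250000000, nat_lit 9842000000], [], [nat_lit 20592776875, nat_lit 24239951343, nat_lit 23837934715, nat_lit 27129100576, nat_lit 16489738491, nat_lit 19552082675, nat_lit 19766995920, nat_lit 22717061564], nat_lit 0, nat_lit 0, nat_lit 0, nat_lit 0, nat_lit 0, nat_lit 0, [], [nat_lit 8, nat_lit 40, nat_lit 40, nat_lit 80, nat_lit 1, nat_lit 317, nat_lit 100, nat_lit 9]⟩, ⟨p065_k10, nat_lit 0, nat_lit 0, nat_lit 212, nat_lit 0, nat_lit 0, [nat_lit 4688000000, nat_lit 7968000000, nat_lit 11872000000], [], [nat_lit 24552830360, nat_lit 28009684024, nat_lit 27599945912, nat_lit 30205524376, nat_lit 28422197220, nat_lit 29770867743, nat_lit 28632436021, nat_lit 30715023093], nat_lit 0, nat_lit 0, nat_lit 0, nat_lit 0, nat_lit 0, nat_lit 0, [], [nat_lit 21, nat_lit 40, nat_lit 40, nat_lit 80, nat_lit 14, nat_lit 456,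 nat_lit 225, nat_lit 12]⟩,
 zbF0, [⟨nat_lit 7, nat_lit 77, nat_lit 100, nat_lit 91, nat_lit 242208001⟩]⟩
noncomputable def p065_l35 : Lf2 := ⟨nat_lit 1, nat_lit 15, [nat_lit 30, nat_lit 5, nat_lit 5, nat_lit 20], false, nat_lit 160, nat_lit 336, nat_lit 0, nat_lit 364, zbN0,
 nat_lit 0, nat_lit 0, nat_lit 0, nat_lit 0, nat_lit 0, nat_lit 0, nat_lit 0, nat_lit 0, nat_lit 0, nat_lit 0, nat_lit 0, nat_lit 0, nat_lit 0, nat_lit 0, nat_lit 0, nat_lit 0, nat_lit 0, nat_lit 0, [],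
 C1.Rw.none, C1.Rw.none,
 zbF0, []⟩
noncomputable def p065_l36 : Lf2 := ⟨nat_lit 0, nat_lit 15, [nat_lit 30, nat_lit 5, nat_lit 5, nat_lit 20], true, nat_lit 160, nat_lit 320, nat_lit 0, nat_lit 364, ⟨nat_lit 0, nat_lit 0, nat_lit 1000, nat_lit 6, nat_lit 127, nat_lit 1000, nat_lit 185, nat_lit 1000, nat_lit 4748, nat_lit 203, nat_lit 150417, nat_lit 310, nat_lit 48932209, nat_lit 0, nat_lit 0, nat_lit 4053709, false, false⟩,
 nat_lit 0, nat_lit 0, nat_lit 0, nat_lit 14458, nat_lit 3205, nat_lit 0, nat_lit 0, nat_lit 0, nat_lit 0, nat_lit 0, nat_lit 0, nat_lit 0, nat_lit 0, nat_lit 0, nat_lit 109, nat_lit 400000, nat_lit 0, nat_lit 0, [(nat_lit 16, [(nat_lit 5, nat_lit 1000)])],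
 ⟨p065_k11, nat_lit 0, nat_lit 0, nat_lit 148, nat_lit 0, nat_lit 0, [nat_lit 2630400000, nat_lit 1212800000, nat_lit 149600000], [], [nat_lit 16251259789, nat_lit 17286965052, nat_lit 16142821260, nat_lit 17149542620, nat_lit 21945901977, nat_lit 23132897533, nat_lit 21730243100, nat_lit 22694578060], nat_lit 0, nat_lit 0, nat_lit 0, nat_lit 0, nat_lit 0, nat_lit 0, [], [nat_lit 8, nat_lit 40, nat_lit 40, nat_lit 80, nat_lit 1, nat_lit 317, nat_lit 100, nat_lit 9]⟩, C1.Rw.none,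
 ⟨nat_lit 4472, nat_lit 5000, ⟨.ofNat (nat_lit 271418), .ofNat (nat_lit 328559), .ofNat (nat_lit 292837), .ofNat (nat_lit 349976), .ofNat (nat_lit 284805), .ofNat (nat_lit 339186), .ofNat (nat_lit 306362), .ofNat (nat_lit 360741)⟩, ⟨.ofNat (nat_lit 299999), .ofNat (nat_lit 585713), .ofNat (nat_lit 342856), .ofNat (nat_lit 628570), .ofNat (nat_lit 302621), .ofNat (nat_lit 574534), .ofNat (nat_lit 345754), .ofNat (nat_lit 617667)⟩⟩, [⟨nat_lit 0, nat_lit 100, nat_lit 84, nat_lit 85, nat_lit 335964163⟩, ⟨nat_lit 4, nat_lit 100, nat_lit 93, nat_lit 97, nat_lit 215503248⟩]⟩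
noncomputable def p065_l37 : Lf2 := ⟨nat_lit 0, nat_lit 15, [nat_lit 30, nat_lit 5, nat_lit 5, nat_lit 20], true, nat_lit 160, nat_lit 320, nat_lit 0, nat_lit 352, ⟨nat_lit 0, nat_lit 1000, nat_lit 0, nat_lit 6, nat_lit 141, nat_lit 1000, nat_lit 185, nat_lit 0, nat_lit 0, nat_lit 0, nat_lit 0, nat_lit 0, nat_lit 47929038, nat_lit 7537797, nat_lit 11533165, nat_lit 4221968, false, false⟩,
 nat_lit 0, nat_lit 0, nat_lit 0, nat_lit 50014, nat_lit 4543, nat_lit 0, nat_lit 0, nat_lit 0, nat_lit 0, nat_lit 0, nat_lit 0, nat_lit 0, nat_lit 0, nat_lit 0, nat_lit 0, nat_lit 250000, nat_lit 0, nat_lit 0, [(nat_lit 16, [(nat_lit 0, nat_lit 1000)])],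
 ⟨p065_k12, nat_lit 0, nat_lit 0, nat_lit 74, nat_lit 0, nat_lit 0, [nat_lit 2335200000, nat_lit 2426800001, nat_lit 3396400000], [], [nat_lit 15612086030, nat_lit 17143955739, nat_lit 15483067155, nat_lit 16989707905, nat_lit 23086981097, nat_lit 24461641926, nat_lit 22678361255, nat_lit 24035291044], nat_lit 0, nat_lit 0, nat_lit 0, nat_lit 0, nat_lit 0, nat_lit 0, [], [nat_lit 42, nat_lit 40, nat_lit 40, nat_lit 80, nat_lit 13, nat_lit 317, nat_lit 100, nat_lit 9]⟩, C1.Rw.none,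
 ⟨nat_lit 4472, nat_lit 5000, ⟨.ofNat (nat_lit 321407), .ofNat (nat_lit 349976), .ofNat (nat_lit 342823), .ofNat (nat_lit 371392), .ofNat (nat_lit 333552), .ofNat (nat_lit 360741), .ofNat (nat_lit 355106), .ofNat (nat_lit 382295)⟩, ⟨.ofNat (nat_lit 299999), .ofNat (nat_lit 585713), .ofNat (nat_lit 342856), .ofNat (nat_lit 628570), .ofNat (nat_lit 302621), .ofNat (nat_lit 574534), .ofNat (nat_lit 345754), .ofNat (nat_lit 617667)⟩⟩, [⟨nat_lit 0, nat_lit 100, nat_lit 89, nat_lit 86, nat_lit 2602551941⟩, ⟨nat_lit 4, nat_lit 100, nat_lit 93, nat_lit 97, nat_lit 182012363⟩]⟩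
noncomputable def p065_l38 : Lf2 := ⟨nat_lit 0, nat_lit 15, [nat_lit 30, nat_lit 5, nat_lit 5, nat_lit 20], true, nat_lit 160, nat_lit 240, nat_lit 0, nat_lit 364, ⟨nat_lit 0, nat_lit 1000, nat_lit 0, nat_lit 6, nat_lit 156, nat_lit 1000, nat_lit 157, nat_lit 0, nat_lit 0, nat_lit 0, nat_lit 0, nat_lit 0, nat_lit 49085194, nat_lit 8916277, nat_lit 8998529, nat_lit 4104240, false, false⟩,
 nat_lit 0, nat_lit 0, nat_lit 0, nat_lit 4606, nat_lit 4408, nat_lit 0, nat_lit 0, nat_lit 0, nat_lit 0, nat_lit 0, nat_lit 0, nat_lit 0, nat_lit 0, nat_lit 0, nat_lit 0, nat_lit 250000, nat_lit 0, nat_lit 0, [(nat_lit 16, [(nat_lit 0, nat_lit 1000)])],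
 ⟨p065_k11, nat_lit 0, nat_lit 0, nat_lit 43, nat_lit 0, nat_lit 0, [nat_lit 2335200000, nat_lit 2745733334, nat_lit 3400666666], [], [nat_lit 13802566912, nat_lit 15576104896, nat_lit 14106956112, nat_lit 15791320288, nat_lit 17246578480, nat_lit 18878819392, nat_lit 17403201232, nat_lit 18836687392], nat_lit 0, nat_lit 0, nat_lit 0, nat_lit 0, nat_lit 0, nat_lit 0, [], [nat_lit 8, nat_lit 40, nat_lit 40, nat_lit 80, nat_lit 1, nat_lit 317, nat_lit 100, nat_lit 9]⟩, C1.Rw.none,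
 ⟨nat_lit 4472, nat_lit 5000, ⟨.ofNat (nat_lit 328559), .ofNat (nat_lit 399984), .ofNat (nat_lit 371392), .ofNat (nat_lit 442816), .ofNat (nat_lit 339186), .ofNat (nat_lit 407160), .ofNat (nat_lit 382295), .ofNat (nat_lit 450269)⟩, ⟨.ofNat (nat_lit 299999), .ofNat (nat_lit 442856), .ofNat (nat_lit 342856), .ofNat (nat_lit 485713), .ofNat (nat_lit 302621), .ofNat (nat_lit 438578), .ofNat (nat_lit 345754), .ofNat (nat_lit 481711)⟩⟩, [⟨nat_lit 0, nat_lit 100, nat_lit 87, nat_lit 95, nat_lit 108106475⟩]⟩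
noncomputable def p065_l39 : Lf2 := ⟨nat_lit 0, nat_lit 15, [nat_lit 30, nat_lit 5, nat_lit 5, nat_lit 20], true, nat_lit 240, nat_lit 320, nat_lit 0, nat_lit 364, ⟨nat_lit 0, nat_lit 1000, nat_lit 0, nat_lit 6, nat_lit 156, nat_lit 1000, nat_lit 213, nat_lit 0, nat_lit 0, nat_lit 0, nat_lit 0, nat_lit 0, nat_lit 44520540, nat_lit 8545675, nat_lit 13933785, nat_lit 4622089, false, false⟩,
 nat_lit 0, nat_lit 0, nat_lit 0, nat_lit 11973, nat_lit 3904, nat_lit 0, nat_lit 0, nat_lit 0, nat_lit 0, nat_lit 0, nat_lit 0, nat_lit 0, nat_lit 0, nat_lit 0, nat_lit 0, nat_lit 250000, nat_lit 0, nat_lit 0, [(nat_lit 16, [(nat_lit 0, nat_lit 1000)])],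
 ⟨p065_k11, nat_lit 0, nat_lit 0, nat_lit 79, nat_lit 0, nat_lit 0, [nat_lit 2335200000, nat_lit 2745733334, nat_lit 3400666666], [], [nat_lit 17628076240, nat_lit 19043771296, nat_lit 17867912416, nat_lit 19216338496, nat_lit 22243304592, nat_lit 23395196864, nat_lit 22275565456, nat_lit 23376622176], nat_lit 0, nat_lit 0, nat_lit 0, nat_lit 0, nat_lit 0, nat_lit 0, [], [nat_lit 8, nat_lit 40, nat_lit 40, nat_lit 80, nat_lit 1, nat_lit 345, nat_lit 125, nat_lit 9]⟩, C1.Rw.none,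
 ⟨nat_lit 4472, nat_lit 5000, ⟨.ofNat (nat_lit 328559), .ofNat (nat_lit 399984), .ofNat (nat_lit 371392), .ofNat (nat_lit 442816), .ofNat (nat_lit 339186), .ofNat (nat_lit 407160), .ofNat (nat_lit 382295), .ofNat (nat_lit 450269)⟩, ⟨.ofNat (nat_lit 442856), .ofNat (nat_lit 585713), .ofNat (nat_lit 485713), .ofNat (nat_lit 628570), .ofNat (nat_lit 438578), .ofNat (nat_lit 574534), .ofNat (nat_lit 481711), .ofNat (nat_lit 617667)⟩⟩, [⟨nat_lit 0, nat_lit 100, nat_lit 87, nat_lit 95, nat_lit 99394754⟩, ⟨nat_lit 4, nat_lit 100, nat_lit 93, nat_lit 97, nat_lit 256201263⟩]⟩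
noncomputable def p065_l40 : Lf2 := ⟨nat_lit 0, nat_lit 15, [nat_lit 30, nat_lit 5, nat_lit 5, nat_lit 20], true, nat_lit 160, nat_lit 336, nat_lit 0, nat_lit 364, ⟨nat_lit 0, nat_lit 1000, nat_lit 0, nat_lit 6, nat_lit 207, nat_lit 1000, nat_lit 191, nat_lit 0, nat_lit 0, nat_lit 0, nat_lit 0, nat_lit 0, nat_lit 42530033, nat_lit 13002895, nat_lit 11467072, nat_lit 4896408, false, false⟩,
 nat_lit 0, nat_lit 0, nat_lit 0, nat_lit 10760, nat_lit 3961, nat_lit 0, nat_lit 0, nat_lit 0, nat_lit 0, nat_lit 0, nat_lit 0, nat_lit 0, nat_lit 0, nat_lit 0, nat_lit 0, nat_lit 250000, nat_lit 0, nat_lit 0, [(nat_lit 13, [(nat_lit 0, nat_lit 1000)]), (nat_lit 16, [(nat_lit 0, nat_lit 1000)])],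
 ⟨p065_k9, nat_lit 0, nat_lit 0, nat_lit 71, nat_lit 0, nat_lit 0, [nat_lit 2378400000, nat_lit 2909733334, nat_lit 3539066666], [], [nat_lit 13070407712, nat_lit 16249454296, nat_lit 17291634544, nat_lit 19850977360, nat_lit 22283213412, nat_lit 24398836724, nat_lit 24703313654, nat_lit 26469330554], nat_lit 0, nat_lit 0, nat_lit 0, nat_lit 0, nat_lit 0, nat_lit 0, [], [nat_lit 8, nat_lit 40, nat_lit 40, nat_lit 80, nat_lit 1, nat_lit 373, nat_lit 150, nat_lit 10]⟩, C1.Rw.none,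
 ⟨nat_lit 4472, nat_lit 5478, ⟨.ofNat (nat_lit 392815), .ofNat (nat_lit 617523), .ofNat (nat_lit 414138), .ofNat (nat_lit 638835), .ofNat (nat_lit 407143), .ofNat (nat_lit 610987), .ofNat (nat_lit 428676), .ofNat (nat_lit 632509)⟩, ⟨.ofNat (nat_lit 296923), .ofNat (nat_lit 626629), .ofNat (nat_lit 339637), .ofNat (nat_lit 669343), .ofNat (nat_lit 302621), .ofNat (nat_lit 601725), .ofNat (nat_lit 345754), .ofNat (nat_lit 644858)⟩⟩, [⟨nat_lit 4, nat_lit 100, nat_lit 100, nat_lit 100, nat_lit 150576676⟩]⟩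
noncomputable def p065_l41 : Lf2 := ⟨nat_lit 0, nat_lit 15, [nat_lit 30, nat_lit 5, nat_lit 5, nat_lit 20], false, nat_lit 160, nat_lit 336, nat_lit 0, nat_lit 352, ⟨nat_lit 1000, nat_lit 0, nat_lit 0, nat_lit 0, nat_lit 0, nat_lit 0, nat_lit 0, nat_lit 0, nat_lit 0, nat_lit 0, nat_lit 0, nat_lit 0, nat_lit 0, nat_lit 0, nat_lit 0, nat_lit 0, false, false⟩,
 nat_lit 0, nat_lit 0, nat_lit 0, nat_lit 35819, nat_lit 4785, nat_lit 8783, nat_lit 0, nat_lit 0, nat_lit 0, nat_lit 1193, nat_lit 0, nat_lit 0, nat_lit 0, nat_lit 0, nat_lit 0, nat_lit 0, nat_lit 0, nat_lit 0, [],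
 ⟨p065_k9, nat_lit 0, nat_lit 0, nat_lit 71, nat_lit 0, nat_lit 0, [nat_lit 3282000000, nat_lit 6250000000, nat_lit 9842000000], [], [nat_lit 12859458720, nat_lit 16388164760, nat_lit 17254806640, nat_lit 20068811600, nat_lit 22838337220, nat_lit 25138365140, nat_lit 25166533116, nat_lit 27044200417], nat_lit 0, nat_lit 0, nat_lit 0, nat_lit 0, nat_lit 0, nat_lit 0, [], [nat_lit 8, nat_lit 40, nat_lit 40, nat_lit 80, nat_lit 1, nat_lit 373, nat_lit 150, nat_lit 10]⟩, ⟨p065_k13, nat_lit 0, nat_lit 0, nat_lit 212, nat_lit 0, nat_lit 0, [nat_lit 4688000000, nat_lit 7968000000, nat_lit 11872000000], [], [nat_lit 23857571583, nat_lit 25454947651, nat_lit 26537074281, nat_lit 27753001699, nat_lit 26463616095, nat_lit 27163331733, nat_lit 27602864668, nat_lit 28648881074], nat_lit 0, nat_lit 0, nat_lit 0, nat_lit 0, nat_lit 0, nat_lit 0, [], [nat_lit 21, nat_lit 40, nat_lit 40, nat_lit 80, nat_lit 14, nat_lit 456,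 nat_lit 225, nat_lit 12]⟩,
 zbF0, [⟨nat_lit 16, nat_lit 100, nat_lit 100, nat_lit 100, nat_lit 476997069⟩, ⟨nat_lit 19, nat_lit 100, nat_lit 82, nat_lit 92, nat_lit 236434406⟩]⟩
noncomputable def p065_l42 : Lf2 := ⟨nat_lit 1, nat_lit 15, [nat_lit 30, nat_lit 5, nat_lit 5, nat_lit 20], false, nat_lit 0, nat_lit 336, nat_lit 0, nat_lit 364, zbN0,
 nat_lit 0, nat_lit 0, nat_lit 0, nat_lit 0, nat_lit 0, nat_lit 0, nat_lit 0, nat_lit 0, nat_lit 0, nat_lit 0, nat_lit 0, nat_lit 0, nat_lit 0, nat_lit 0, nat_lit 0, nat_lit 0, nat_lit 0, nat_lit 0, [],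
 C1.Rw.none, C1.Rw.none,
 zbF0, []⟩
noncomputable def p065_l43 : Lf2 := ⟨nat_lit 0, nat_lit 15, [nat_lit 30, nat_lit 5, nat_lit 5, nat_lit 20], false, nat_lit 0, nat_lit 320, nat_lit 0, nat_lit 364, ⟨nat_lit 1000, nat_lit 0, nat_lit 0, nat_lit 0, nat_lit 0, nat_lit 0, nat_lit 0, nat_lit 0, nat_lit 0, nat_lit 0, nat_lit 0, nat_lit 0, nat_lit 0, nat_lit 0, nat_lit 0, nat_lit 0, false, false⟩,
 nat_lit 0, nat_lit 0, nat_lit 0, nat_lit 22648, nat_lit 6532, nat_lit 7516, nat_lit 826, nat_lit 0, nat_lit 0, nat_lit 928, nat_lit 0, nat_lit 0, nat_lit 0, nat_lit 0, nat_lit 0, nat_lit 0, nat_lit 0, nat_lit 0, [],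
 ⟨p065_k11, nat_lit 0, nat_lit 0, nat_lit 219, nat_lit 0, nat_lit 0, [nat_lit 3282000000, nat_lit 6250000000, nat_lit 9842000000], [], [nat_lit 27188164874, nat_lit 28292861746, nat_lit 38329758952, nat_lit 39548870192, nat_lit 26875542634, nat_lit 27502076594, nat_lit 34761098992, nat_lit 35477973184], nat_lit 0, nat_lit 0, nat_lit 0, nat_lit 0, nat_lit 0, nat_lit 0, [], [nat_lit 8, nat_lit 40, nat_lit 40, nat_lit 80, nat_lit 1, nat_lit 428, nat_lit 200, nat_lit 12]⟩, ⟨p065_k10, nat_lit 0, nat_lit 0, nat_lit 251, nat_lit 0, nat_lit 0, [nat_lit 4688000000, nat_lit 7968000000, nat_lit 11872000000], [], [nat_lit 28424368176, nat_lit 30674165248, nat_lit 39743098176, nat_lit 40841802400, nat_lit 30682659049, nat_lit 31614319400, nat_lit 37021018551, nat_lit 37583289152], nat_lit 0, nat_lit 0, nat_lit 0, nat_lit 0, nat_lit 0, nat_lit 0, [], [nat_lit 21, nat_lit 40, nat_lit 40, nat_lit 80, nat_lit 14, nat_lit 538,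 nat_lit 300, nat_lit 13]⟩,
 zbF0, [⟨nat_lit 4, nat_lit 100, nat_lit 93, nat_lit 97, nat_lit 135096694⟩, ⟨nat_lit 7, nat_lit 77, nat_lit 100, nat_lit 91, nat_lit 166419454⟩]⟩
noncomputable def p065_l44 : Lf2 := ⟨nat_lit 0, nat_lit 15, [nat_lit 30, nat_lit 5, nat_lit 5, nat_lit 20], true, nat_lit 0, nat_lit 160, nat_lit 0, nat_lit 364, ⟨nat_lit 0, nat_lit 0, nat_lit 1000, nat_lit 6, nat_lit 139, nat_lit 548, nat_lit 64, nat_lit 1000, nat_lit 38400, nat_lit 263, nat_lit 180267, nat_lit 319, nat_lit 59822027, nat_lit 0, nat_lit 0, nat_lit 1702401, false, false⟩,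
 nat_lit 0, nat_lit 0, nat_lit 0, nat_lit 10070, nat_lit 3155, nat_lit 0, nat_lit 0, nat_lit 0, nat_lit 0, nat_lit 0, nat_lit 0, nat_lit 0, nat_lit 0, nat_lit 0, nat_lit 150, nat_lit 657400, nat_lit 0, nat_lit 0, [(nat_lit 13, [(nat_lit 5, nat_lit 571), (nat_lit 6, nat_lit 429)]), (nat_lit 16, [(nat_lit 5, nat_lit 571), (nat_lit 6, nat_lit 429)])],
 ⟨p065_k9, nat_lit 0, nat_lit 0, nat_lit 284, nat_lit 0, nat_lit 0, [nat_lit 3044894000, nat_lit 2207576000, nat_lit 25620000], [], [nat_lit 14125275594, nat_lit 17278150965, nat_lit 14097780120, nat_lit 16332543400, nat_lit 14041376084, nat_lit 16336571775, nat_lit 14322881100, nat_lit 16670012080], nat_lit 0, nat_lit 0, nat_lit 0, nat_lit 0, nat_lit 0, nat_lit 0, [], [nat_lit 8, nat_lit 40, nat_lit 40, nat_lit 80, nat_lit 1, nat_lit 289, nat_lit 75, nat_lit 9]⟩, C1.Rw.none,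
 ⟨nat_lit 4472, nat_lit 5478, ⟨.ofNat (nat_lit 235487), .ofNat (nat_lit 392815), .ofNat (nat_lit 278138), .ofNat (nat_lit 435455), .ofNat (nat_lit 264421), .ofNat (nat_lit 407143), .ofNat (nat_lit 307491), .ofNat (nat_lit 450202)⟩, ⟨.negSucc (nat_lit 2834), .ofNat (nat_lit 296923), .ofNat (nat_lit 0), .ofNat (nat_lit 339637), .ofNat (nat_lit 0), .ofNat (nat_lit 302621), .ofNat (nat_lit 0), .ofNat (nat_lit 345754)⟩⟩, [⟨nat_lit 0, nat_lit 100, nat_lit 87, nat_lit 95, nat_lit 169200346⟩]⟩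
noncomputable def p065_l45 : Lf2 := ⟨nat_lit 0, nat_lit 15, [nat_lit 30, nat_lit 5, nat_lit 5, nat_lit 20], true, nat_lit 0, nat_lit 160, nat_lit 0, nat_lit 364, ⟨nat_lit 0, nat_lit 0, nat_lit 1000, nat_lit 6, nat_lit 183, nat_lit 517, nat_lit 64, nat_lit 1000, nat_lit 38400, nat_lit 263, nat_lit 19267, nat_lit 249, nat_lit 55419699, nat_lit 0, nat_lit 0, nat_lit 2301805, false, false⟩,
 nat_lit 0, nat_lit 0, nat_lit 0, nat_lit 10070, nat_lit 3209, nat_lit 0, nat_lit 0, nat_lit 0, nat_lit 0, nat_lit 0, nat_lit 0, nat_lit 0, nat_lit 0, nat_lit 0, nat_lit 140, nat_lit 614800, nat_lit 0, nat_lit 0, [(nat_lit 13, [(nat_lit 5, nat_lit 642), (nat_lit 6, nat_lit 358)]), (nat_lit 16, [(nat_lit 5, nat_lit 642), (nat_lit 6, nat_lit 358)])],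
 ⟨p065_k9, nat_lit 0, nat_lit 0, nat_lit 182, nat_lit 0, nat_lit 0, [nat_lit 2937721334, nat_lit 2049418667, nat_lit 16840000], [], [nat_lit 14335717070, nat_lit 16601211248, nat_lit 15053986810, nat_lit 17183597634, nat_lit 14391745806, nat_lit 16599219292, nat_lit 15093798109, nat_lit 17414847660], nat_lit 0, nat_lit 0, nat_lit 0, nat_lit 0, nat_lit 0, nat_lit 0, [], [nat_lit 8, nat_lit 40, nat_lit 40, nat_lit 80, nat_lit 1, nat_lit 317, nat_lit 100, nat_lit 9]⟩, C1.Rw.none,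
 ⟨nat_lit 4472, nat_lit 5478, ⟨.ofNat (nat_lit 392815), .ofNat (nat_lit 467727), .ofNat (nat_lit 435455), .ofNat (nat_lit 510352), .ofNat (nat_lit 407143), .ofNat (nat_lit 475101), .ofNat (nat_lit 450202), .ofNat (nat_lit 518145)⟩, ⟨.negSucc (nat_lit 2834), .ofNat (nat_lit 296923), .ofNat (nat_lit 0), .ofNat (nat_lit 339637), .ofNat (nat_lit 0), .ofNat (nat_lit 302621), .ofNat (nat_lit 0), .ofNat (nat_lit 345754)⟩⟩, []⟩
noncomputable def p065_l46 : Lf2 := ⟨nat_lit 1, nat_lit 15, [nat_lit 30, nat_lit 5, nat_lit 5, nat_lit 20], false, nat_lit 0, nat_lit 160, nat_lit 0, nat_lit 364, zbN0,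
 nat_lit 0, nat_lit 0, nat_lit 0, nat_lit 0, nat_lit 0, nat_lit 0, nat_lit 0, nat_lit 0, nat_lit 0, nat_lit 0, nat_lit 0, nat_lit 0, nat_lit 0, nat_lit 0, nat_lit 0, nat_lit 0, nat_lit 0, nat_lit 0, [],
 C1.Rw.none, C1.Rw.none,
 zbF0, []⟩
noncomputable def p065_l47 : Lf2 := ⟨nat_lit 0, nat_lit 15, [nat_lit 30, nat_lit 5, nat_lit 5, nat_lit 20], false, nat_lit 0, nat_lit 160, nat_lit 0, nat_lit 364, ⟨nat_lit 265, nat_lit 0, nat_lit 735, nat_lit 6, nat_lit 226, nat_lit 735, nat_lit 65, nat_lit 735, nat_lit 38400, nat_lit 263, nat_lit 42926, nat_lit 200, nat_lit 50811114, nat_lit 0, nat_lit 0, nat_lit 2764729, false, false⟩,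
 nat_lit 0, nat_lit 0, nat_lit 5208, nat_lit 3058, nat_lit 3536, nat_lit 2756, nat_lit 0, nat_lit 0, nat_lit 0, nat_lit 213, nat_lit 0, nat_lit 0, nat_lit 0, nat_lit 0, nat_lit 110, nat_lit 735000, nat_lit 0, nat_lit 0, [(nat_lit 16, [(nat_lit 6, nat_lit 735)])],
 ⟨p065_k12, nat_lit 0, nat_lit 0, nat_lit 168, nat_lit 0, nat_lit 0, [nat_lit 2914734000, nat_lit 3106396000, nat_lit 16282000], [], [nat_lit 17035553952, nat_lit 18143807200, nat_lit 19553412352, nat_lit 20774453280, nat_lit 16801145600, nat_lit 17991715920, nat_lit 19342160448, nat_lit 20373378608], nat_lit 0, nat_lit 0, nat_lit 0, nat_lit 0, nat_lit 0, nat_lit 0, [], [nat_lit 42, nat_lit 40, nat_lit 40, nat_lit 80, nat_lit 13, nat_lit 317, nat_lit 100, nat_lit 9]⟩, ⟨p065_k14, nat_lit 0, nat_lit 0, nat_lit 364, nat_lit 0, nat_lit 266871, [nat_lit 1242320000, nat_lit 1656250000, nat_lit 3146080000], [], [nat_lit 11984346220, nat_lit 9867796610, nat_lit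 9664585282, nat_lit 9994292134, nat_lit 11135999346, nat_lit 8618314604, nat_lit 8354334533, nat_lit 8603653497], nat_lit 1271250, nat_lit 1271250, nat_lit 1271250, nat_lit 1271250, nat_lit 0, nat_lit 2570750, [nat_lit 1100000, nat_lit 1442500, nat_lit 1271250], [nat_lit 48, nat_lit 40, nat_lit 40, nat_lit 80, nat_lit 12, nat_lit 456, nat_lit 225, nat_lit 12]⟩,
 ⟨nat_lit 4472, nat_lit 5000, ⟨.ofNat (nat_lit 471408), .ofNat (nat_lit 614256), .ofNat (nat_lit 514240), .ofNat (nat_lit 657088), .ofNat (nat_lit 475134), .ofNat (nat_lit 611081), .ofNat (nat_lit 518242), .ofNat (nat_lit 654189)⟩, ⟨.ofNat (nat_lit 0), .ofNat (nat_lit 299999), .ofNat (nat_lit 0), .ofNat (nat_lit 342856), .ofNat (nat_lit 0), .ofNat (nat_lit 302621), .ofNat (nat_lit 0), .ofNat (nat_lit 345754)⟩⟩, [⟨nat_lit 7, nat_lit 77, nat_lit 100, nat_lit 91, nat_lit 23356354⟩, ⟨nat_lit 22, nat_lit 100, nat_lit 60, nat_lit 80, nat_lit 14583195⟩]⟩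
noncomputable def p065_l48 : Lf2 := ⟨nat_lit 1, nat_lit 15, [nat_lit 30, nat_lit 5, nat_lit 5, nat_lit 20], false, nat_lit 160, nat_lit 336, nat_lit 0, nat_lit 364, zbN0,
 nat_lit 0, nat_lit 0, nat_lit 0, nat_lit 0, nat_lit 0, nat_lit 0, nat_lit 0, nat_lit 0, nat_lit 0, nat_lit 0, nat_lit 0, nat_lit 0, nat_lit 0, nat_lit 0, nat_lit 0, nat_lit 0, nat_lit 0, nat_lit 0, [],
 C1.Rw.none, C1.Rw.none,
 zbF0, []⟩
noncomputable def p065_l49 : Lf2 := ⟨nat_lit 0, nat_lit 15, [nat_lit 30, nat_lit 5, nat_lit 5, nat_lit 20], true, nat_lit 160, nat_lit 300, nat_lit 0, nat_lit 352, ⟨nat_lit 0, nat_lit 1000, nat_lit 0, nat_lit 6, nat_lit 130, nat_lit 1000, nat_lit 174, nat_lit 0, nat_lit 0, nat_lit 0, nat_lit 0, nat_lit 0, nat_lit 49671610, nat_lit 6721801, nat_lit 10606589, nat_lit 3979023, false, false⟩,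
 nat_lit 0, nat_lit 0, nat_lit 0, nat_lit 100000, nat_lit 4053, nat_lit 0, nat_lit 0, nat_lit 0, nat_lit 0, nat_lit 0, nat_lit 0, nat_lit 0, nat_lit 0, nat_lit 0, nat_lit 0, nat_lit 250000, nat_lit 0, nat_lit 0, [(nat_lit 16, [(nat_lit 0, nat_lit 1000)])],
 ⟨p065_k11, nat_lit 0, nat_lit 0, nat_lit 87, nat_lit 0, nat_lit 0, [nat_lit 2335200000, nat_lit 2745733334, nat_lit 3400666666], [], [nat_lit 14438818786, nat_lit 15311933720, nat_lit 14156354942, nat_lit 15002814039, nat_lit 21609905512, nat_lit 22309325908, nat_lit 21034408628, nat_lit 21653977429], nat_lit 0, nat_lit 0, nat_lit 0, nat_lit 0, nat_lit 0, nat_lit 0, [], [nat_lit 8, nat_lit 40, nat_lit 40, nat_lit 80, nat_lit 1, nat_lit 317, nat_lit 100, nat_lit 9]⟩, C1.Rw.none,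
 ⟨nat_lit 4743, nat_lit 5000, ⟨.ofNat (nat_lit 271427), .ofNat (nat_lit 328569), .ofNat (nat_lit 314281), .ofNat (nat_lit 371422), .ofNat (nat_lit 278116), .ofNat (nat_lit 333875), .ofNat (nat_lit 321088), .ofNat (nat_lit 376847)⟩, ⟨.ofNat (nat_lit 299999), .ofNat (nat_lit 549998), .ofNat (nat_lit 321427), .ofNat (nat_lit 571427), .ofNat (nat_lit 301370), .ofNat (nat_lit 545319), .ofNat (nat_lit 322858), .ofNat (nat_lit 566807)⟩⟩, [⟨nat_lit 0, nat_lit 100, nat_lit 91, nat_lit 91, nat_lit 4010973776⟩, ⟨nat_lit 4, nat_lit 100, nat_lit 94, nat_lit 92, nat_lit 218558850⟩]⟩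
noncomputable def p065_l50 : Lf2 := ⟨nat_lit 0, nat_lit 15, [nat_lit 30, nat_lit 5, nat_lit 5, nat_lit 20], true, nat_lit 160, nat_lit 292, nat_lit 0, nat_lit 352, ⟨nat_lit 0, nat_lit 1000, nat_lit 0, nat_lit 6, nat_lit 135, nat_lit 1000, nat_lit 171, nat_lit 0, nat_lit 0, nat_lit 0, nat_lit 0, nat_lit 0, nat_lit 49587781, nat_lit 7137164, nat_lit 10275055, nat_lit 4005889, false, false⟩,
 nat_lit 0, nat_lit 0, nat_lit 0, nat_lit 30929, nat_lit 4093, nat_lit 0, nat_lit 0, nat_lit 0, nat_lit 0, nat_lit 0, nat_lit 0, nat_lit 0, nat_lit 0, nat_lit 0, nat_lit 0, nat_lit 250000, nat_lit 0, nat_lit 0, [(nat_lit 16, [(nat_lit 0, nat_lit 1000)])],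
 ⟨p065_k15, nat_lit 0, nat_lit 0, nat_lit 83, nat_lit 0, nat_lit 0, [nat_lit 2335200000, nat_lit 2745733334, nat_lit 3400666666], [], [nat_lit 15206369119, nat_lit 16077499622, nat_lit 14967492559, nat_lit 15818493616, nat_lit 21675666312, nat_lit 22390448855, nat_lit 21184434402, nat_lit 21884837055], nat_lit 0, nat_lit 0, nat_lit 0, nat_lit 0, nat_lit 0, nat_lit 0, [], [nat_lit 8, nat_lit 40, nat_lit 40, nat_lit 80, nat_lit 1, nat_lit 317, nat_lit 100, nat_lit 9]⟩, C1.Rw.none,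
 ⟨nat_lit 4472, nat_lit 4744, ⟨.ofNat (nat_lit 292052), .ofNat (nat_lit 333872), .ofNat (nat_lit 335021), .ofNat (nat_lit 376841), .ofNat (nat_lit 298407), .ofNat (nat_lit 339193), .ofNat (nat_lit 341533), .ofNat (nat_lit 382319)⟩, ⟨.ofNat (nat_lit 301370), .ofNat (nat_lit 531379), .ofNat (nat_lit 322858), .ofNat (nat_lit 552867), .ofNat (nat_lit 302621), .ofNat (nat_lit 526949), .ofNat (nat_lit 324188), .ofNat (nat_lit 548516)⟩⟩, [⟨nat_lit 0, nat_lit 100, nat_lit 86, nat_lit 83, nat_lit 1689326080⟩, ⟨nat_lit 4, nat_lit 100, nat_lit 88, nat_lit 90, nat_lit 237837301⟩]⟩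
noncomputable def p065_l51 : Lf2 := ⟨nat_lit 0, nat_lit 15, [nat_lit 30, nat_lit 5, nat_lit 5, nat_lit 20], true, nat_lit 160, nat_lit 320, nat_lit 0, nat_lit 364, ⟨nat_lit 0, nat_lit 0, nat_lit 1000, nat_lit 6, nat_lit 131, nat_lit 1000, nat_lit 189, nat_lit 1000, nat_lit 4748, nat_lit 203, nat_lit 160067, nat_lit 313, nat_lit 48254051, nat_lit 0, nat_lit 0, nat_lit 4147747, false, false⟩,
 nat_lit 0, nat_lit 0, nat_lit 0, nat_lit 100000, nat_lit 3205, nat_lit 0, nat_lit 0, nat_lit 0, nat_lit 0, nat_lit 0, nat_lit 0, nat_lit 0, nat_lit 0, nat_lit 0, nat_lit 109, nat_lit 400000, nat_lit 0, nat_lit 0, [(nat_lit 16, [(nat_lit 5, nat_lit 1000)])],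
 ⟨p065_k11, nat_lit 0, nat_lit 0, nat_lit 148, nat_lit 0, nat_lit 0, [nat_lit 2630400000, nat_lit 1212800000, nat_lit 149600000], [], [nat_lit 16251259789, nat_lit 17286965052, nat_lit 16142821260, nat_lit 17149542620, nat_lit 21945901977, nat_lit 23132897533, nat_lit 21730243100, nat_lit 22694578060], nat_lit 0, nat_lit 0, nat_lit 0, nat_lit 0, nat_lit 0, nat_lit 0, [], [nat_lit 8, nat_lit 40, nat_lit 40, nat_lit 80, nat_lit 1, nat_lit 317, nat_lit 100, nat_lit 9]⟩, C1.Rw.none,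
 ⟨nat_lit 4472, nat_lit 5000, ⟨.ofNat (nat_lit 271418), .ofNat (nat_lit 328559), .ofNat (nat_lit 314253), .ofNat (nat_lit 371392), .ofNat (nat_lit 284805), .ofNat (nat_lit 339186), .ofNat (nat_lit 327916), .ofNat (nat_lit 382295)⟩, ⟨.ofNat (nat_lit 321427), .ofNat (nat_lit 607141), .ofNat (nat_lit 342856), .ofNat (nat_lit 628570), .ofNat (nat_lit 324188), .ofNat (nat_lit 596101), .ofNat (nat_lit 345754), .ofNat (nat_lit 617667)⟩⟩, [⟨nat_lit 0, nat_lit 100, nat_lit 88, nat_lit 81, nat_lit 4270068311⟩, ⟨nat_lit 4, nat_lit 97, nat_lit 94, nat_lit 100, nat_lit 205404153⟩]⟩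
noncomputable def p065_l52 : Lf2 := ⟨nat_lit 0, nat_lit 15, [nat_lit 30, nat_lit 5, nat_lit 5, nat_lit 20], true, nat_lit 160, nat_lit 240, nat_lit 0, nat_lit 364, ⟨nat_lit 0, nat_lit 1000, nat_lit 0, nat_lit 6, nat_lit 156, nat_lit 1000, nat_lit 157, nat_lit 0, nat_lit 0, nat_lit 0, nat_lit 0, nat_lit 0, nat_lit 49085194, nat_lit 8916277, nat_lit 8998529, nat_lit 4104240, false, false⟩,
 nat_lit 0, nat_lit 0, nat_lit 0, nat_lit 4606, nat_lit 4408, nat_lit 0, nat_lit 0, nat_lit 0, nat_lit 0, nat_lit 0, nat_lit 0, nat_lit 0, nat_lit 0, nat_lit 0, nat_lit 0, nat_lit 250000, nat_lit 0, nat_lit 0, [(nat_lit 16, [(nat_lit 0, nat_lit 1000)])],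
 ⟨p065_k11, nat_lit 0, nat_lit 0, nat_lit 43, nat_lit 0, nat_lit 0, [nat_lit 2335200000, nat_lit 2745733334, nat_lit 3400666666], [], [nat_lit 13802566912, nat_lit 15576104896, nat_lit 14106956112, nat_lit 15791320288, nat_lit 17246578480, nat_lit 18878819392, nat_lit 17403201232, nat_lit 18836687392], nat_lit 0, nat_lit 0, nat_lit 0, nat_lit 0, nat_lit 0, nat_lit 0, [], [nat_lit 8, nat_lit 40, nat_lit 40, nat_lit 80, nat_lit 1, nat_lit 317, nat_lit 100, nat_lit 9]⟩, C1.Rw.none,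
 ⟨nat_lit 4472, nat_lit 5000, ⟨.ofNat (nat_lit 328559), .ofNat (nat_lit 399984), .ofNat (nat_lit 371392), .ofNat (nat_lit 442816), .ofNat (nat_lit 339186), .ofNat (nat_lit 407160), .ofNat (nat_lit 382295), .ofNat (nat_lit 450269)⟩, ⟨.ofNat (nat_lit 299999), .ofNat (nat_lit 442856), .ofNat (nat_lit 342856), .ofNat (nat_lit 485713), .ofNat (nat_lit 302621), .ofNat (nat_lit 438578), .ofNat (nat_lit 345754), .ofNat (nat_lit 481711)⟩⟩, [⟨nat_lit 0, nat_lit 100, nat_lit 87, nat_lit 95, nat_lit 108106475⟩]⟩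
noncomputable def p065_l53 : Lf2 := ⟨nat_lit 0, nat_lit 15, [nat_lit 30, nat_lit 5, nat_lit 5, nat_lit 20], true, nat_lit 240, nat_lit 320, nat_lit 0, nat_lit 364, ⟨nat_lit 0, nat_lit 1000, nat_lit 0, nat_lit 6, nat_lit 156, nat_lit 1000, nat_lit 213, nat_lit 0, nat_lit 0, nat_lit 0, nat_lit 0, nat_lit 0, nat_lit 44520540, nat_lit 8545675, nat_lit 13933785, nat_lit 4622089, false, false⟩,
 nat_lit 0, nat_lit 0, nat_lit 0, nat_lit 11973, nat_lit 3904, nat_lit 0, nat_lit 0, nat_lit 0, nat_lit 0, nat_lit 0, nat_lit 0, nat_lit 0, nat_lit 0, nat_lit 0, nat_lit 0, nat_lit 250000, nat_lit 0, nat_lit 0, [(nat_lit 16, [(nat_lit 0, nat_lit 1000)])],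
 ⟨p065_k11, nat_lit 0, nat_lit 0, nat_lit 79, nat_lit 0, nat_lit 0, [nat_lit 2335200000, nat_lit 2745733334, nat_lit 3400666666], [], [nat_lit 17628076240, nat_lit 19043771296, nat_lit 17867912416, nat_lit 19216338496, nat_lit 22243304592, nat_lit 23395196864, nat_lit 22275565456, nat_lit 23376622176], nat_lit 0, nat_lit 0, nat_lit 0, nat_lit 0, nat_lit 0, nat_lit 0, [], [nat_lit 8, nat_lit 40, nat_lit 40, nat_lit 80, nat_lit 1, nat_lit 345, nat_lit 125, nat_lit 9]⟩, C1.Rw.none,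
 ⟨nat_lit 4472, nat_lit 5000, ⟨.ofNat (nat_lit 328559), .ofNat (nat_lit 399984), .ofNat (nat_lit 371392), .ofNat (nat_lit 442816), .ofNat (nat_lit 339186), .ofNat (nat_lit 407160), .ofNat (nat_lit 382295), .ofNat (nat_lit 450269)⟩, ⟨.ofNat (nat_lit 442856), .ofNat (nat_lit 585713), .ofNat (nat_lit 485713), .ofNat (nat_lit 628570), .ofNat (nat_lit 438578), .ofNat (nat_lit 574534), .ofNat (nat_lit 481711), .ofNat (nat_lit 617667)⟩⟩, [⟨nat_lit 0, nat_lit 100, nat_lit 87, nat_lit 95, nat_lit 99394754⟩, ⟨nat_lit 4, nat_lit 100, nat_lit 93, nat_lit 97, nat_lit 256201263⟩]⟩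
noncomputable def p065_l54 : Lf2 := ⟨nat_lit 0, nat_lit 15, [nat_lit 30, nat_lit 5, nat_lit 5, nat_lit 20], true, nat_lit 160, nat_lit 240, nat_lit 0, nat_lit 364, ⟨nat_lit 0, nat_lit 1000, nat_lit 0, nat_lit 6, nat_lit 211, nat_lit 1000, nat_lit 157, nat_lit 0, nat_lit 0, nat_lit 0, nat_lit 0, nat_lit 0, nat_lit 44565480, nat_lit 13799494, nat_lit 8635026, nat_lit 4621880, false, false⟩,
 nat_lit 0, nat_lit 0, nat_lit 0, nat_lit 4704, nat_lit 4320, nat_lit 0, nat_lit 0, nat_lit 0, nat_lit 0, nat_lit 0, nat_lit 0, nat_lit 0, nat_lit 0, nat_lit 0, nat_lit 0, nat_lit 250000, nat_lit 0, nat_lit 0, [(nat_lit 13, [(nat_lit 0, nat_lit 1000)]), (nat_lit 16, [(nat_lit 0, nat_lit 1000)])],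
 ⟨p065_k9, nat_lit 0, nat_lit 0, nat_lit 25, nat_lit 0, nat_lit 0, [nat_lit 2378400000, nat_lit 2909733334, nat_lit 3539066666], [], [nat_lit 12584821440, nat_lit 15916207520, nat_lit 16881909280, nat_lit 19552203200, nat_lit 16108906880, nat_lit 18946175680, nat_lit 19634884800, nat_lit 21925472320], nat_lit 0, nat_lit 0, nat_lit 0, nat_lit 0, nat_lit 0, nat_lit 0, [], [nat_lit 8, nat_lit 40, nat_lit 40, nat_lit 80, nat_lit 1, nat_lit 345, nat_lit 125, nat_lit 9]⟩, C1.Rw.none,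
 ⟨nat_lit 4472, nat_lit 5478, ⟨.ofNat (nat_lit 392815), .ofNat (nat_lit 617523), .ofNat (nat_lit 435455), .ofNat (nat_lit 660148), .ofNat (nat_lit 407143), .ofNat (nat_lit 610987), .ofNat (nat_lit 450202), .ofNat (nat_lit 654031)⟩, ⟨.ofNat (nat_lit 296923), .ofNat (nat_lit 446789), .ofNat (nat_lit 339637), .ofNat (nat_lit 489503), .ofNat (nat_lit 302621), .ofNat (nat_lit 438578), .ofNat (nat_lit 345754), .ofNat (nat_lit 481711)⟩⟩, []⟩
noncomputable def p065_l55 : Lf2 := ⟨nat_lit 1, nat_lit 15, [nat_lit 30, nat_lit 5, nat_lit 5, nat_lit 20], false, nat_lit 240, nat_lit 336, nat_lit 0, nat_lit 364, zbN0,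
 nat_lit 0, nat_lit 0, nat_lit 0, nat_lit 0, nat_lit 0, nat_lit 0, nat_lit 0, nat_lit 0, nat_lit 0, nat_lit 0, nat_lit 0, nat_lit 0, nat_lit 0, nat_lit 0, nat_lit 0, nat_lit 0, nat_lit 0, nat_lit 0, [],
 C1.Rw.none, C1.Rw.none,
 zbF0, []⟩
noncomputable def p065_l56 : Lf2 := ⟨nat_lit 0, nat_lit 15, [nat_lit 30, nat_lit 5, nat_lit 5, nat_lit 20], true, nat_lit 240, nat_lit 320, nat_lit 0, nat_lit 364, ⟨nat_lit 0, nat_lit 1000, nat_lit 0, nat_lit 6, nat_lit 212, nat_lit 1000, nat_lit 213, nat_lit 0, nat_lit 0, nat_lit 0, nat_lit 0, nat_lit 0, nat_lit 40690407, nat_lit 13109017, nat_lit 13200576, nat_lit 5083452, false, false⟩,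
 nat_lit 0, nat_lit 0, nat_lit 0, nat_lit 10594, nat_lit 3968, nat_lit 0, nat_lit 0, nat_lit 0, nat_lit 0, nat_lit 0, nat_lit 0, nat_lit 0, nat_lit 0, nat_lit 0, nat_lit 0, nat_lit 250000, nat_lit 0, nat_lit 0, [(nat_lit 16, [(nat_lit 0, nat_lit 1000)])],
 ⟨p065_k11, nat_lit 0, nat_lit 0, nat_lit 62, nat_lit 0, nat_lit 0, [nat_lit 2335200000, nat_lit 2745733334, nat_lit 3400666666], [], [nat_lit 17808901472, nat_lit 19168128832, nat_lit 21048548544, nat_lit 22151032768, nat_lit 22247291152, nat_lit 23356119392, nat_lit 24656911840, nat_lit 25565566848], nat_lit 0, nat_lit 0, nat_lit 0, nat_lit 0, nat_lit 0, nat_lit 0, [], [nat_lit 8, nat_lit 40, nat_lit 40, nat_lit 80, nat_lit 1, nat_lit 373, nat_lit 150, nat_lit 10]⟩, C1.Rw.none,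
 ⟨nat_lit 4472, nat_lit 5000, ⟨.ofNat (nat_lit 399984), .ofNat (nat_lit 614256), .ofNat (nat_lit 442816), .ofNat (nat_lit 657088), .ofNat (nat_lit 407160), .ofNat (nat_lit 611081), .ofNat (nat_lit 450269), .ofNat (nat_lit 654189)⟩, ⟨.ofNat (nat_lit 442856), .ofNat (nat_lit 585713), .ofNat (nat_lit 485713), .ofNat (nat_lit 628570), .ofNat (nat_lit 438578), .ofNat (nat_lit 574534), .ofNat (nat_lit 481711), .ofNat (nat_lit 617667)⟩⟩, [⟨nat_lit 4, nat_lit 100, nat_lit 93, nat_lit 97, nat_lit 212066032⟩]⟩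
noncomputable def p065_l57 : Lf2 := ⟨nat_lit 0, nat_lit 15, [nat_lit 30, nat_lit 5, nat_lit 5, nat_lit 20], false, nat_lit 0, nat_lit 160, nat_lit 0, nat_lit 364, ⟨nat_lit 1000, nat_lit 0, nat_lit 0, nat_lit 0, nat_lit 0, nat_lit 0, nat_lit 0, nat_lit 0, nat_lit 0, nat_lit 0, nat_lit 0, nat_lit 0, nat_lit 0, nat_lit 0, nat_lit 0, nat_lit 0, false, false⟩,
 nat_lit 0, nat_lit 0, nat_lit 14683, nat_lit 0, nat_lit 8979, nat_lit 7773, nat_lit 229, nat_lit 0, nat_lit 0, nat_lit 843, nat_lit 0, nat_lit 0, nat_lit 0, nat_lit 0, nat_lit 0, nat_lit 0, nat_lit 0, nat_lit 0, [],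
 ⟨p065_k9, nat_lit 0, nat_lit 0, nat_lit 219, nat_lit 0, nat_lit 0, [nat_lit 3282000000, nat_lit 6250000000, nat_lit 9842000000], [], [nat_lit 30527604565, nat_lit 33943371737, nat_lit 43513507064, nat_lit 46394979124, nat_lit 24185507433, nat_lit 26341731629, nat_lit 34236049361, nat_lit 35806619121], nat_lit 0, nat_lit 0, nat_lit 0, nat_lit 0, nat_lit 0, nat_lit 0, [], [nat_lit 8, nat_lit 40, nat_lit 40, nat_lit 80, nat_lit 1, nat_lit 373, nat_lit 150, nat_lit 10]⟩, ⟨p065_k10, nat_lit 0, nat_lit 0, nat_lit 380, nat_lit 0, nat_lit 266871, [nat_lit 4688000000, nat_lit 7968000000, nat_lit 11872000000], [], [nat_lit 32980122024, nat_lit 34553172356, nat_lit 41210788104, nat_lit 41949821832, nat_lit 34061335037, nat_lit 33506375431, nat_lit 37611598685, nat_lit 37914930474], nat_lit 1271250, nat_lit 1271250, nat_lit 1271250, nat_lit 1271250, nat_lit 0, nat_lit 2570750, [nat_lit 1100000, nat_lit 1785000, nat_lit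 1271250], [nat_lit 21, nat_lit 40, nat_lit 40, nat_lit 80, nat_lit 14, nat_lit 538, nat_lit 300, nat_lit 13]⟩,
 zbF0, [⟨nat_lit 7, nat_lit 77, nat_lit 100, nat_lit 91, nat_lit 71606133⟩, ⟨nat_lit 22, nat_lit 83, nat_lit 100, nat_lit 83, nat_lit 109738376⟩]⟩
noncomputable def p065_l58 : Lf2 := ⟨nat_lit 0, nat_lit 15, [nat_lit 30, nat_lit 5, nat_lit 5, nat_lit 20], false, nat_lit 160, nat_lit 336, nat_lit 0, nat_lit 364, ⟨nat_lit 1000, nat_lit 0, nat_lit 0, nat_lit 0, nat_lit 0, nat_lit 0, nat_lit 0, nat_lit 0, nat_lit 0, nat_lit 0, nat_lit 0, nat_lit 0, nat_lit 0, nat_lit 0, nat_lit 0, nat_lit 0, false, false⟩,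
 nat_lit 0, nat_lit 0, nat_lit 13870, nat_lit 750, nat_lit 5572, nat_lit 7342, nat_lit 0, nat_lit 0, nat_lit 0, nat_lit 1516, nat_lit 0, nat_lit 0, nat_lit 0, nat_lit 0, nat_lit 0, nat_lit 0, nat_lit 0, nat_lit 0, [],
 ⟨p065_k16, nat_lit 0, nat_lit 0, nat_lit 78, nat_lit 0, nat_lit 0, [nat_lit 3282000000, nat_lit 4688000000, nat_lit 9842000000], [], [nat_lit 19200640576, nat_lit 21753997216, nat_lit 29158831568, nat_lit 30898194592, nat_lit 26268591738, nat_lit 28134565626, nat_lit 33731337815, nat_lit 35030672509], nat_lit 0, nat_lit 0, nat_lit 0, nat_lit 0, nat_lit 0, nat_lit 0, [], [nat_lit 42, nat_lit 40, nat_lit 40, nat_lit 80, nat_lit 13, nat_lit 428, nat_lit 200, nat_lit 11]⟩, ⟨p065_k14, nat_lit 0, nat_lit 0, nat_lit 374, nat_lit 0, nat_lit 266871, [nat_lit 4688000000, nat_lit 6250000000, nat_lit 11872000000], [], [nat_lit 31781478504, nat_lit 32938037488, nat_lit 38469973012, nat_lit 39566021300, nat_lit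 30151617984, nat_lit 30731375237, nat_lit 36503779434, nat_lit 37357900876], nat_lit 1271250, nat_lit 1271250, nat_lit 1271250, nat_lit 1271250, nat_lit 0, nat_lit 2570750, [nat_lit 1100000, nat_lit 1442500, nat_lit 1271250], [nat_lit 48, nat_lit 40, nat_lit 40, nat_lit 80, nat_lit 12, nat_lit 538, nat_lit 300, nat_lit 13]⟩,
 zbF0, [⟨nat_lit 4, nat_lit 100, nat_lit 100, nat_lit 100, nat_lit 357726330⟩, ⟨nat_lit 19, nat_lit 100, nat_lit 77, nat_lit 91, nat_lit 182337545⟩]⟩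
noncomputable def b_V_700_600_20_51 : St := ⟨true, nat_lit 0, nat_lit 2, nat_lit 1, nat_lit 120, nat_lit 280, nat_lit 320, nat_lit 240, nat_lit 280, nat_lit 36, nat_lit 400, nat_lit 80, nat_lit 120, nat_lit 0, nat_lit 336, nat_lit 0, nat_lit 364, nat_lit 40, nat_lit 60, nat_lit 0, nat_lit 0, nat_lit 0, nat_lit 0⟩
theorem d_V_700_600_20_51 (h : EB TB.env) : Dead b_V_700_600_20_51 := chkB_sound0 h (T :=
(.st (nat_lit 1)
(.spl (nat_lit 2) (nat_lit 240)
(.spl (nat_lit 4) (nat_lit 160)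
(.spl (nat_lit 2) (nat_lit 120)
(.leaf p065_l33)
(.leaf p065_l34))
(.spl (nat_lit 2) (nat_lit 120)
(.spl (nat_lit 0) (nat_lit 300)
(.leaf p065_l35)
(.trZ (nat_lit 0) (nat_lit 100) (nat_lit 88) (nat_lit 68) (nat_lit 48) (.trX (nat_lit 16) (nat_lit 94) (nat_lit 88) (nat_lit 100) (nat_lit 320) (.spl (nat_lit 2) (nat_lit 80)
(.spl (nat_lit 1) (nat_lit 260)
(.leaf p065_l36)
(.trZ (nat_lit 0) (nat_lit 100) (nat_lit 91) (nat_lit 77) (nat_lit 64) (.trX (nat_lit 19) (nat_lit 100) (nat_lit 69) (nat_lit 96) (nat_lit 352) (.leaf p065_l37))))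
(.spl (nat_lit 4) (nat_lit 240)
(.leaf p065_l38)
(.leaf p065_l39))))))
(.spl (nat_lit 1) (nat_lit 260)
(.leaf p065_l40)
(.trX (nat_lit 19) (nat_lit 100) (nat_lit 69) (nat_lit 96) (nat_lit 352) (.leaf p065_l41)))))
(.spl (nat_lit 0) (nat_lit 300)
(.leaf p065_l42)
(.trX (nat_lit 16) (nat_lit 94) (nat_lit 88) (nat_lit 100) (nat_lit 320) (.leaf p065_l43))))
(.spl (nat_lit 2) (nat_lit 240)
(.spl (nat_lit 4) (nat_lit 160)
(.spl (nat_lit 2) (nat_lit 160)
(.spl (nat_lit 2) (nat_lit 120)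
(.leaf p065_l44)
(.leaf p065_l45))
(.spl (nat_lit 0) (nat_lit 300)
(.leaf p065_l46)
(.leaf p065_l47)))
(.spl (nat_lit 2) (nat_lit 120)
(.spl (nat_lit 0) (nat_lit 300)
(.leaf p065_l48)
(.trZ (nat_lit 0) (nat_lit 100) (nat_lit 88) (nat_lit 68) (nat_lit 48) (.trX (nat_lit 16) (nat_lit 94) (nat_lit 88) (nat_lit 100) (nat_lit 320) (.spl (nat_lit 2) (nat_lit 80)
(.spl (nat_lit 3) (nat_lit 100)
(.trX (nat_lit 16) (nat_lit 100) (nat_lit 100) (nat_lit 100) (nat_lit 300) (.trX (nat_lit 19) (nat_lit 100) (nat_lit 68) (nat_lit 88) (nat_lit 352) (.spl (nat_lit 0) (nat_lit 310)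
(.leaf p065_l49)
(.trZ (nat_lit 0) (nat_lit 100) (nat_lit 85) (nat_lit 72) (nat_lit 56) (.trX (nat_lit 16) (nat_lit 93) (nat_lit 100) (nat_lit 97) (nat_lit 292) (.leaf p065_l50))))))
(.leaf p065_l51))
(.spl (nat_lit 4) (nat_lit 240)
(.leaf p065_l52)
(.leaf p065_l53))))))
(.spl (nat_lit 4) (nat_lit 240)
(.leaf p065_l54)
(.spl (nat_lit 0) (nat_lit 300)
(.leaf p065_l55)
(.trX (nat_lit 16) (nat_lit 94) (nat_lit 88) (nat_lit 100) (nat_lit 320) (.leaf p065_l56))))))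
(.spl (nat_lit 4) (nat_lit 160)
(.leaf p065_l57)
(.leaf p065_l58))))) (by decide +kernel)
noncomputable def p065_l59 : Lf2 := ⟨nat_lit 0, nat_lit 15, [nat_lit 30, nat_lit 5, nat_lit 5, nat_lit 20], true, nat_lit 0, nat_lit 336, nat_lit 0, nat_lit 364, ⟨nat_lit 0, nat_lit 1000, nat_lit 0, nat_lit 6, nat_lit 181, nat_lit 1000, nat_lit 127, nat_lit 0, nat_lit 0, nat_lit 0, nat_lit 0, nat_lit 0, nat_lit 0, nat_lit 0, nat_lit 0, nat_lit 5000000, false, false⟩,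
 nat_lit 0, nat_lit 0, nat_lit 0, nat_lit 10727, nat_lit 4932, nat_lit 0, nat_lit 379, nat_lit 0, nat_lit 0, nat_lit 0, nat_lit 0, nat_lit 0, nat_lit 0, nat_lit 0, nat_lit 0, nat_lit 250000, nat_lit 0, nat_lit 0, [(nat_lit 13, [(nat_lit 0, nat_lit 1000)]), (nat_lit 16, [(nat_lit 0, nat_lit 1000)])],
 ⟨p065_k9, nat_lit 0, nat_lit 0, nat_lit 284, nat_lit 0, nat_lit 0, [nat_lit 2378400000, nat_lit 2909733334, nat_lit 3539066666], [], [nat_lit 20786710035, nat_lit 24101797013, nat_lit 22626280561, nat_lit 25072920737, nat_lit 25895663200, nat_lit 27755078061, nat_lit 25749364360, nat_lit 27147485200], nat_lit 0, nat_lit 0, nat_lit 0, nat_lit 0, nat_lit 0, nat_lit 0, [], [nat_lit 8, nat_lit 40, nat_lit 40, nat_lit 80, nat_lit 1, nat_lit 373, nat_lit 150, nat_lit 11]⟩, C1.Rw.none,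
 ⟨nat_lit 4472, nat_lit 5478, ⟨.ofNat (nat_lit 235487), .ofNat (nat_lit 617523), .ofNat (nat_lit 278138), .ofNat (nat_lit 660148), .ofNat (nat_lit 264421), .ofNat (nat_lit 610987), .ofNat (nat_lit 307491), .ofNat (nat_lit 654031)⟩, ⟨.negSucc (nat_lit 2834), .ofNat (nat_lit 626629), .ofNat (nat_lit 0), .ofNat (nat_lit 669343), .ofNat (nat_lit 0), .ofNat (nat_lit 601725), .ofNat (nat_lit 0), .ofNat (nat_lit 644858)⟩⟩, [⟨nat_lit 4, nat_lit 100, nat_lit 100, nat_lit 100, nat_lit 90172583⟩]⟩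
noncomputable def p065_l60 : Lf2 := ⟨nat_lit 1, nat_lit 15, [nat_lit 30, nat_lit 5, nat_lit 5, nat_lit 20], false, nat_lit 0, nat_lit 336, nat_lit 0, nat_lit 364, zbN0,
 nat_lit 0, nat_lit 0, nat_lit 0, nat_lit 0, nat_lit 0, nat_lit 0, nat_lit 0, nat_lit 0, nat_lit 0, nat_lit 0, nat_lit 0, nat_lit 0, nat_lit 0, nat_lit 0, nat_lit 0, nat_lit 0, nat_lit 0, nat_lit 0, [],
 C1.Rw.none, C1.Rw.none,
 zbF0, []⟩
noncomputable def p065_l61 : Lf2 := ⟨nat_lit 0, nat_lit 15, [nat_lit 30, nat_lit 5, nat_lit 5, nat_lit 20], false, nat_lit 0, nat_lit 320, nat_lit 0, nat_lit 364, ⟨nat_lit 890, nat_lit 110, nat_lit 0, nat_lit 6, nat_lit 309, nat_lit 110, nat_lit 120, nat_lit 0, nat_lit 0, nat_lit 0, nat_lit 0, nat_lit 0, nat_lit 0, nat_lit 0, nat_lit 0, nat_lit 5000000, true, true⟩,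
 nat_lit 0, nat_lit 0, nat_lit 0, nat_lit 19566, nat_lit 6294, nat_lit 6687, nat_lit 774, nat_lit 0, nat_lit 0, nat_lit 683, nat_lit 0, nat_lit 0, nat_lit 0, nat_lit 0, nat_lit 0, nat_lit 27500, nat_lit 0, nat_lit 0, [(nat_lit 16, [(nat_lit 0, nat_lit 110)])],
 ⟨p065_k11, nat_lit 0, nat_lit 0, nat_lit 219, nat_lit 0, nat_lit 0, [nat_lit 3177852001, nat_lit 5864530667, nat_lit 9131576000], [], [nat_lit 26820732525, nat_lit 27905616849, nat_lit 37685448684, nat_lit 38883004264, nat_lit 26747138445, nat_lit 27367477265, nat_lit 34485457864, nat_lit 35194774128], nat_lit 0, nat_lit 0, nat_lit 0, nat_lit 0, nat_lit 0, nat_lit 0, [], [nat_lit 8, nat_lit 40, nat_lit 40, nat_lit 80, nat_lit 1, nat_lit 428, nat_lit 200, nat_lit 12]⟩, ⟨p065_k10, nat_lit 0, nat_lit 0, nat_lit 251, nat_lit 0, nat_lit 0, [nat_lit 4172320000, nat_lit 7091520000, nat_lit 10566080000], [], [nat_lit 26249324032, nat_lit 28251321556, nat_lit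 36321072932, nat_lit 37298885500, nat_lit 28260927629, nat_lit 29090098222, nat_lit 33150122571, nat_lit 33454706057], nat_lit 0, nat_lit 0, nat_lit 0, nat_lit 0, nat_lit 0, nat_lit 0, [], [nat_lit 21, nat_lit 40, nat_lit 40, nat_lit 80, nat_lit 14, nat_lit 538, nat_lit 300, nat_lit 13]⟩,
 ⟨nat_lit 4472, nat_lit 5000, ⟨.ofNat (nat_lit 614256), .ofNat (nat_lit 899951), .ofNat (nat_lit 657088), .ofNat (nat_lit 942783), .ofNat (nat_lit 611081), .ofNat (nat_lit 882974), .ofNat (nat_lit 654189), .ofNat (nat_lit 926083)⟩, ⟨.ofNat (nat_lit 0), .ofNat (nat_lit 585713), .ofNat (nat_lit 0), .ofNat (nat_lit 628570), .ofNat (nat_lit 0), .ofNat (nat_lit 574534), .ofNat (nat_lit 0), .ofNat (nat_lit 617667)⟩⟩, [⟨nat_lit 4, nat_lit 100, nat_lit 93, nat_lit 97, nat_lit 127170116⟩, ⟨nat_lit 19, nat_lit 100, nat_lit 77, nat_lit 91, nat_lit 133778529⟩]⟩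
noncomputable def p065_l62 : Lf2 := ⟨nat_lit 0, nat_lit 15, [nat_lit 30, nat_lit 5, nat_lit 5, nat_lit 20], true, nat_lit 0, nat_lit 336, nat_lit 0, nat_lit 364, ⟨nat_lit 0, nat_lit 1000, nat_lit 0, nat_lit 6, nat_lit 181, nat_lit 1000, nat_lit 127, nat_lit 0, nat_lit 0, nat_lit 0, nat_lit 0, nat_lit 0, nat_lit 0, nat_lit 0, nat_lit 0, nat_lit 5000000, false, false⟩,
 nat_lit 0, nat_lit 0, nat_lit 0, nat_lit 10727, nat_lit 4932, nat_lit 0, nat_lit 379, nat_lit 0, nat_lit 0, nat_lit 0, nat_lit 0, nat_lit 0, nat_lit 0, nat_lit 0, nat_lit 0, nat_lit 250000, nat_lit 0, nat_lit 0, [(nat_lit 13, [(nat_lit 0, nat_lit 1000)]), (nat_lit 16, [(nat_lit 0, nat_lit 1000)])],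
 ⟨p065_k9, nat_lit 0, nat_lit 0, nat_lit 284, nat_lit 0, nat_lit 0, [nat_lit 2378400000, nat_lit 2909733334, nat_lit 3539066666], [], [nat_lit 20786710035, nat_lit 24101797013, nat_lit 22626280561, nat_lit 25072920737, nat_lit 25895663200, nat_lit 27755078061, nat_lit 25749364360, nat_lit 27147485200], nat_lit 0, nat_lit 0, nat_lit 0, nat_lit 0, nat_lit 0, nat_lit 0, [], [nat_lit 8, nat_lit 40, nat_lit 40, nat_lit 80, nat_lit 1, nat_lit 373, nat_lit 150, nat_lit 11]⟩, C1.Rw.none,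
 ⟨nat_lit 4472, nat_lit 5478, ⟨.ofNat (nat_lit 235487), .ofNat (nat_lit 617523), .ofNat (nat_lit 278138), .ofNat (nat_lit 660148), .ofNat (nat_lit 264421), .ofNat (nat_lit 610987), .ofNat (nat_lit 307491), .ofNat (nat_lit 654031)⟩, ⟨.negSucc (nat_lit 2834), .ofNat (nat_lit 626629), .ofNat (nat_lit 0), .ofNat (nat_lit 669343), .ofNat (nat_lit 0), .ofNat (nat_lit 601725), .ofNat (nat_lit 0), .ofNat (nat_lit 644858)⟩⟩, [⟨nat_lit 4, nat_lit 100, nat_lit 100, nat_lit 100, nat_lit 90172583⟩]⟩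
noncomputable def p065_l63 : Lf2 := ⟨nat_lit 0, nat_lit 15, [nat_lit 30, nat_lit 5, nat_lit 5, nat_lit 20], false, nat_lit 0, nat_lit 160, nat_lit 0, nat_lit 364, ⟨nat_lit 469, nat_lit 531, nat_lit 0, nat_lit 6, nat_lit 311, nat_lit 531, nat_lit 64, nat_lit 0, nat_lit 0, nat_lit 0, nat_lit 0, nat_lit 0, nat_lit 0, nat_lit 0, nat_lit 0, nat_lit 5000000, true, true⟩,
 nat_lit 0, nat_lit 0, nat_lit 6882, nat_lit 0, nat_lit 5532, nat_lit 3643, nat_lit 137, nat_lit 0, nat_lit 0, nat_lit 393, nat_lit 0, nat_lit 0, nat_lit 0, nat_lit 0, nat_lit 0, nat_lit 531000, nat_lit 0, nat_lit 0, [(nat_lit 13, [(nat_lit 2, nat_lit 531)]), (nat_lit 16, [(nat_lit 2, nat_lit 531)])],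
 ⟨p065_k9, nat_lit 0, nat_lit 0, nat_lit 219, nat_lit 0, nat_lit 0, [nat_lit 2779249200, nat_lit 3978240401, nat_lit 4035664399], [], [nat_lit 26285483677, nat_lit 28328385421, nat_lit 34532331180, nat_lit 36751114192, nat_lit 23701603341, nat_lit 25241693837, nat_lit 30120927229, nat_lit 31236749292], nat_lit 0, nat_lit 0, nat_lit 0, nat_lit 0, nat_lit 0, nat_lit 0, [], [nat_lit 8, nat_lit 40, nat_lit 40, nat_lit 80, nat_lit 1, nat_lit 373, nat_lit 150, nat_lit 10]⟩, ⟨p065_k10, nat_lit 0, nat_lit 0, nat_lit 380, nat_lit 0, nat_lit 266871, [nat_lit 2198672000, nat_lit 3736992000, nat_lit 5567968000], [], [nat_lit 15485691120, nat_lit 16223269356, nat_lit 19344561984, nat_lit 19691213616, nat_lit 15977595143, nat_lit 15733865538, nat_lit 17644074435, nat_lit 17786486403], nat_lit 1271250, nat_lit 1271250, nat_lit 1271250, nat_lit 1271250, nat_lit 0, nat_lit 2570750, [nat_lit 1100000, nat_lit 1785000, nat_lit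 1271250], [nat_lit 21, nat_lit 40, nat_lit 40, nat_lit 80, nat_lit 14, nat_lit 538, nat_lit 300, nat_lit 13]⟩,
 ⟨nat_lit 4472, nat_lit 5478, ⟨.ofNat (nat_lit 617523), .ofNat (nat_lit 917115), .ofNat (nat_lit 660148), .ofNat (nat_lit 959740), .ofNat (nat_lit 610987), .ofNat (nat_lit 882759), .ofNat (nat_lit 654031), .ofNat (nat_lit 925804)⟩, ⟨.negSucc (nat_lit 2834), .ofNat (nat_lit 296923), .ofNat (nat_lit 0), .ofNat (nat_lit 339637), .ofNat (nat_lit 0), .ofNat (nat_lit 302621), .ofNat (nat_lit 0), .ofNat (nat_lit 345754)⟩⟩, [⟨nat_lit 22, nat_lit 83, nat_lit 100, nat_lit 83, nat_lit 95572983⟩]⟩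
noncomputable def p065_l64 : Lf2 := ⟨nat_lit 0, nat_lit 15, [nat_lit 30, nat_lit 5, nat_lit 5, nat_lit 20], false, nat_lit 160, nat_lit 336, nat_lit 0, nat_lit 364, ⟨nat_lit 637, nat_lit 363, nat_lit 0, nat_lit 6, nat_lit 311, nat_lit 363, nat_lit 191, nat_lit 0, nat_lit 0, nat_lit 0, nat_lit 0, nat_lit 0, nat_lit 0, nat_lit 0, nat_lit 0, nat_lit 5000000, true, true⟩,
 nat_lit 0, nat_lit 0, nat_lit 9353, nat_lit 0, nat_lit 5473, nat_lit 4951, nat_lit 0, nat_lit 0, nat_lit 0, nat_lit 449, nat_lit 0, nat_lit 0, nat_lit 0, nat_lit 0, nat_lit 0, nat_lit 90750, nat_lit 0, nat_lit 0, [(nat_lit 13, [(nat_lit 0, nat_lit 363)]), (nat_lit 16, [(nat_lit 0, nat_lit 363)])],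
 ⟨p065_k9, nat_lit 0, nat_lit 0, nat_lit 90, nat_lit 0, nat_lit 0, [nat_lit 2953993200, nat_lit 5037483200, nat_lit 7541451200], [], [nat_lit 20469723400, nat_lit 22819694304, nat_lit 29935203472, nat_lit 31545266584, nat_lit 27218783994, nat_lit 28947854759, nat_lit 33855111489, nat_lit 34909336944], nat_lit 0, nat_lit 0, nat_lit 0, nat_lit 0, nat_lit 0, nat_lit 0, [], [nat_lit 8, nat_lit 40, nat_lit 40, nat_lit 80, nat_lit 1, nat_lit 428, nat_lit 200, nat_lit 11]⟩, ⟨p065_k10, nat_lit 0, nat_lit 0, nat_lit 380, nat_lit 0, nat_lit 266871, [nat_lit 2986256000, nat_lit 5075616000, nat_lit 7562464000], [], [nat_lit 21594932416, nat_lit 22596936652, nat_lit 26837659408, nat_lit 27308430976, nat_lit 21697517574, nat_lit 21929072417, nat_lit 24009289714, nat_lit 24152503652], nat_lit 1271250, nat_lit 1271250, nat_lit 1271250, nat_lit 1271250, nat_lit 0, nat_lit 2570750, [nat_lit 1100000, nat_lit 1785000, nat_lit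 1271250], [nat_lit 21, nat_lit 40, nat_lit 40, nat_lit 80, nat_lit 14, nat_lit 538, nat_lit 300, nat_lit 13]⟩,
 ⟨nat_lit 4472, nat_lit 5478, ⟨.ofNat (nat_lit 617523), .ofNat (nat_lit 917115), .ofNat (nat_lit 660148), .ofNat (nat_lit 959740), .ofNat (nat_lit 610987), .ofNat (nat_lit 882759), .ofNat (nat_lit 654031), .ofNat (nat_lit 925804)⟩, ⟨.ofNat (nat_lit 296923), .ofNat (nat_lit 626629), .ofNat (nat_lit 339637), .ofNat (nat_lit 669343), .ofNat (nat_lit 302621), .ofNat (nat_lit 601725), .ofNat (nat_lit 345754), .ofNat (nat_lit 644858)⟩⟩, [⟨nat_lit 4, nat_lit 100, nat_lit 100, nat_lit 100, nat_lit 274460712⟩, ⟨nat_lit 19, nat_lit 100, nat_lit 77, nat_lit 91, nat_lit 89715312⟩]⟩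
noncomputable def b_V_700_600_20_52 : St := ⟨true, nat_lit 0, nat_lit 2, nat_lit 2, nat_lit 120, nat_lit 280, nat_lit 320, nat_lit 240, nat_lit 280, nat_lit 36, nat_lit 400, nat_lit 80, nat_lit 120, nat_lit 0, nat_lit 336, nat_lit 0, nat_lit 364, nat_lit 40, nat_lit 60, nat_lit 0, nat_lit 0, nat_lit 0, nat_lit 0⟩
theorem d_V_700_600_20_52 (h : EB TB.env) : Dead b_V_700_600_20_52 := chkB_sound0 h (T :=
(.st (nat_lit 1)
(.spl (nat_lit 2) (nat_lit 240)
(.leaf p065_l59)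
(.spl (nat_lit 0) (nat_lit 300)
(.leaf p065_l60)
(.trX (nat_lit 16) (nat_lit 94) (nat_lit 88) (nat_lit 100) (nat_lit 320) (.leaf p065_l61))))
(.spl (nat_lit 2) (nat_lit 240)
(.leaf p065_l62)
(.spl (nat_lit 4) (nat_lit 160)
(.leaf p065_l63)
(.leaf p065_l64))))) (by decide +kernel)
noncomputable def p065_l65 : Lf2 := ⟨nat_lit 1, nat_lit 15, [nat_lit 30, nat_lit 5, nat_lit 5, nat_lit 20], false, nat_lit 0, nat_lit 160, nat_lit 0, nat_lit 364, zbN0,
 nat_lit 0, nat_lit 0, nat_lit 0, nat_lit 0, nat_lit 0, nat_lit 0, nat_lit 0, nat_lit 0, nat_lit 0, nat_lit 0, nat_lit 0, nat_lit 0, nat_lit 0, nat_lit 0, nat_lit 0, nat_lit 0, nat_lit 0, nat_lit 0, [],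
 C1.Rw.none, C1.Rw.none,
 zbF0, []⟩
noncomputable def p065_l66 : Lf2 := ⟨nat_lit 0, nat_lit 15, [nat_lit 30, nat_lit 5, nat_lit 5, nat_lit 20], true, nat_lit 0, nat_lit 160, nat_lit 0, nat_lit 364, ⟨nat_lit 0, nat_lit 0, nat_lit 1000, nat_lit 6, nat_lit 144, nat_lit 593, nat_lit 64, nat_lit 1000, nat_lit 38400, nat_lit 263, nat_lit 194400, nat_lit 323, nat_lit 59323067, nat_lit 0, nat_lit 0, nat_lit 1779934, false, false⟩,
 nat_lit 0, nat_lit 4695, nat_lit 0, nat_lit 4341, nat_lit 3250, nat_lit 0, nat_lit 0, nat_lit 0, nat_lit 0, nat_lit 0, nat_lit 0, nat_lit 0, nat_lit 0, nat_lit 0, nat_lit 167, nat_lit 620800, nat_lit 0, nat_lit 0, [(nat_lit 16, [(nat_lit 5, nat_lit 632), (nat_lit 6, nat_lit 368)])],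
 ⟨p065_k11, nat_lit 0, nat_lit 0, nat_lit 296, nat_lit 0, nat_lit 74466, [nat_lit 3202752000, nat_lit 1878502401, nat_lit 1900800], [], [nat_lit 15089854800, nat_lit 16087397200, nat_lit 15017815800, nat_lit 15528750651, nat_lit 15050129001, nat_lit 15600147502, nat_lit 15484203401, nat_lit 15992973401], nat_lit 1271250, nat_lit 1271250, nat_lit 279600, nat_lit 780000, nat_lit 0, nat_lit 1100001, [nat_lit 780000, nat_lit 1435000, nat_lit 1271250], [nat_lit 8, nat_lit 40, nat_lit 40, nat_lit 80, nat_lit 1, nat_lit 289, nat_lit 75, nat_lit 9]⟩, C1.Rw.none,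
 ⟨nat_lit 4743, nat_lit 5000, ⟨.ofNat (nat_lit 271427), .ofNat (nat_lit 399997), .ofNat (nat_lit 314281), .ofNat (nat_lit 442849), .ofNat (nat_lit 278116), .ofNat (nat_lit 403574), .ofNat (nat_lit 321088), .ofNat (nat_lit 446544)⟩, ⟨.ofNat (nat_lit 0), .ofNat (nat_lit 299999), .ofNat (nat_lit 0), .ofNat (nat_lit 342856), .ofNat (nat_lit 0), .ofNat (nat_lit 301370), .ofNat (nat_lit 0), .ofNat (nat_lit 344346)⟩⟩, [⟨nat_lit 0, nat_lit 100, nat_lit 91, nat_lit 91, nat_lit 149770642⟩]⟩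
noncomputable def p065_l67 : Lf2 := ⟨nat_lit 0, nat_lit 15, [nat_lit 30, nat_lit 5, nat_lit 5, nat_lit 20], false, nat_lit 0, nat_lit 160, nat_lit 0, nat_lit 364, ⟨nat_lit 263, nat_lit 0, nat_lit 737, nat_lit 6, nat_lit 149, nat_lit 677, nat_lit 65, nat_lit 737, nat_lit 40017, nat_lit 264, nat_lit 209067, nat_lit 327, nat_lit 58862129, nat_lit 0, nat_lit 0, nat_lit 1849124, false, false⟩,
 nat_lit 0, nat_lit 5212, nat_lit 0, nat_lit 5001, nat_lit 3757, nat_lit 1764, nat_lit 40, nat_lit 0, nat_lit 0, nat_lit 279, nat_lit 0, nat_lit 0, nat_lit 0, nat_lit 0, nat_lit 111, nat_lit 737000, nat_lit 0, nat_lit 0, [(nat_lit 16, [(nat_lit 6, nat_lit 737)])],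
 ⟨p065_k15, nat_lit 0, nat_lit 0, nat_lit 324, nat_lit 0, nat_lit 161305, [nat_lit 2922142800, nat_lit 2160985201, nat_lit 9164400], [], [nat_lit 17015885788, nat_lit 17898789968, nat_lit 16753981112, nat_lit 17319147038, nat_lit 16470927165, nat_lit 17052753481, nat_lit 16726163221, nat_lit 17267133805], nat_lit 1271250, nat_lit 1271250, nat_lit 330400, nat_lit 780000, nat_lit 0, nat_lit 1100001, [nat_lit 780000, nat_lit 1435000, nat_lit 1271250], [nat_lit 8, nat_lit 40, nat_lit 40, nat_lit 80, nat_lit 1, nat_lit 289, nat_lit 75, nat_lit 8]⟩, ⟨p065_k10, nat_lit 0, nat_lit 0, nat_lit 323, nat_lit 0, nat_lit 0, [nat_lit 1232944000, nat_lit 2095584000, nat_lit 3122336000], [], [nat_lit 6784764505, nat_lit 7555354173, nat_lit 6490639180, nat_lit 7103061224, nat_lit 8298638927, nat_lit 8644372826, nat_lit 7814345335, nat_lit 8137030042], nat_lit 0, nat_lit 0, nat_lit 0, nat_lit 0, nat_lit 0, nat_lit 0, [], [nat_lit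 21, nat_lit 40, nat_lit 40, nat_lit 80, nat_lit 14, nat_lit 428, nat_lit 200, nat_lit 11]⟩,
 ⟨nat_lit 4472, nat_lit 4744, ⟨.ofNat (nat_lit 292052), .ofNat (nat_lit 403571), .ofNat (nat_lit 335021), .ofNat (nat_lit 446540), .ofNat (nat_lit 298407), .ofNat (nat_lit 407171), .ofNat (nat_lit 341533), .ofNat (nat_lit 450297)⟩, ⟨.ofNat (nat_lit 0), .ofNat (nat_lit 301370), .ofNat (nat_lit 0), .ofNat (nat_lit 344346), .ofNat (nat_lit 0), .ofNat (nat_lit 302621), .ofNat (nat_lit 0), .ofNat (nat_lit 345754)⟩⟩, [⟨nat_lit 0, nat_lit 100, nat_lit 87, nat_lit 95, nat_lit 353062907⟩, ⟨nat_lit 7, nat_lit 77, nat_lit 100, nat_lit 91, nat_lit 72242434⟩]⟩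
noncomputable def p065_l68 : Lf2 := ⟨nat_lit 0, nat_lit 15, [nat_lit 30, nat_lit 5, nat_lit 5, nat_lit 20], false, nat_lit 0, nat_lit 160, nat_lit 0, nat_lit 364, ⟨nat_lit 1000, nat_lit 0, nat_lit 0, nat_lit 0, nat_lit 0, nat_lit 0, nat_lit 0, nat_lit 0, nat_lit 0, nat_lit 0, nat_lit 0, nat_lit 0, nat_lit 0, nat_lit 0, nat_lit 0, nat_lit 0, false, false⟩,
 nat_lit 0, nat_lit 10704, nat_lit 0, nat_lit 6486, nat_lit 7410, nat_lit 9992, nat_lit 1271, nat_lit 0, nat_lit 0, nat_lit 1146, nat_lit 0, nat_lit 0, nat_lit 0, nat_lit 0, nat_lit 0, nat_lit 0, nat_lit 0, nat_lit 0, [],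
 ⟨p065_k11, nat_lit 0, nat_lit 0, nat_lit 293, nat_lit 0, nat_lit 170737, [nat_lit 3282000000, nat_lit 6250000000, nat_lit 9842000000], [], [nat_lit 20271892010, nat_lit 22213698600, nat_lit 20503733330, nat_lit 22583446480, nat_lit 16682774110, nat_lit 17526180450, nat_lit 20603183410, nat_lit 17790489930], nat_lit 1271250, nat_lit 1271250, nat_lit 780000, nat_lit 1100001, nat_lit 0, nat_lit 1100001, [nat_lit 780000, nat_lit 1435000, nat_lit 1271250], [nat_lit 8, nat_lit 40, nat_lit 40, nat_lit 80, nat_lit 1, nat_lit 317, nat_lit 100, nat_lit 9]⟩, ⟨p065_k10, nat_lit 0, nat_lit 0, nat_lit 212, nat_lit 0, nat_lit 0, [nat_lit 4688000000, nat_lit 7968000000, nat_lit 11872000000], [], [nat_lit 24552830360, nat_lit 28009684024, nat_lit 24609946360, nat_lit 27825107992, nat_lit 28422197220, nat_lit 29770867743, nat_lit 27622338447, nat_lit 29204205620], nat_lit 0, nat_lit 0, nat_lit 0, nat_lit 0, nat_lit 0, nat_lit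 0, [], [nat_lit 21, nat_lit 40, nat_lit 40, nat_lit 80, nat_lit 14, nat_lit 456, nat_lit 225, nat_lit 12]⟩,
 zbF0, [⟨nat_lit 7, nat_lit 77, nat_lit 100, nat_lit 91, nat_lit 242208001⟩]⟩
noncomputable def p065_l69 : Lf2 := ⟨nat_lit 0, nat_lit 15, [nat_lit 30, nat_lit 5, nat_lit 5, nat_lit 20], false, nat_lit 0, nat_lit 160, nat_lit 0, nat_lit 364, ⟨nat_lit 1000, nat_lit 0, nat_lit 0, nat_lit 0, nat_lit 0, nat_lit 0, nat_lit 0, nat_lit 0, nat_lit 0, nat_lit 0, nat_lit 0, nat_lit 0, nat_lit 0, nat_lit 0, nat_lit 0, nat_lit 0, false, false⟩,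
 nat_lit 0, nat_lit 13720, nat_lit 0, nat_lit 6132, nat_lit 8730, nat_lit 9938, nat_lit 880, nat_lit 0, nat_lit 0, nat_lit 1103, nat_lit 0, nat_lit 0, nat_lit 0, nat_lit 0, nat_lit 0, nat_lit 0, nat_lit 0, nat_lit 0, [],
 ⟨p065_k9, nat_lit 0, nat_lit 0, nat_lit 289, nat_lit 0, nat_lit 192448, [nat_lit 3282000000, nat_lit 6250000000, nat_lit 9842000000], [], [nat_lit 33603369720, nat_lit 27336650440, nat_lit 26471339280, nat_lit 29680071440, nat_lit 18750321720, nat_lit 21296979280, nat_lit 27572145040, nat_lit 22638893480], nat_lit 1271250, nat_lit 1271250, nat_lit 1100001, nat_lit 1785000, nat_lit 0, nat_lit 1100001, [nat_lit 780000, nat_lit 1435000, nat_lit 1271250], [nat_lit 8, nat_lit 40, nat_lit 40, nat_lit 80, nat_lit 1, nat_lit 317, nat_lit 100, nat_lit 9]⟩, ⟨p065_k10, nat_lit 0, nat_lit 0, nat_lit 200, nat_lit 0, nat_lit 0, [nat_lit 4688000000, nat_lit 7968000000, nat_lit 11872000000], [], [nat_lit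 24887114540, nat_lit 28091676188, nat_lit 27872737068, nat_lit 30470556164, nat_lit 27929261210, nat_lit 29162542687, nat_lit 28598358112, nat_lit 30675675270], nat_lit 0, nat_lit 0, nat_lit 0, nat_lit 0, nat_lit 0, nat_lit 0, [], [nat_lit 21, nat_lit 40, nat_lit 40, nat_lit 80, nat_lit 14, nat_lit 456, nat_lit 225, nat_lit 12]⟩,
 zbF0, [⟨nat_lit 19, nat_lit 100, nat_lit 77, nat_lit 91, nat_lit 231784922⟩]⟩
noncomputable def p065_l70 : Lf2 := ⟨nat_lit 1, nat_lit 15, [nat_lit 30, nat_lit 5, nat_lit 5, nat_lit 20], false, nat_lit 160, nat_lit 240, nat_lit 0, nat_lit 364, zbN0,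
 nat_lit 0, nat_lit 0, nat_lit 0, nat_lit 0, nat_lit 0, nat_lit 0, nat_lit 0, nat_lit 0, nat_lit 0, nat_lit 0, nat_lit 0, nat_lit 0, nat_lit 0, nat_lit 0, nat_lit 0, nat_lit 0, nat_lit 0, nat_lit 0, [],
 C1.Rw.none, C1.Rw.none,
 zbF0, []⟩
noncomputable def p065_l71 : Lf2 := ⟨nat_lit 0, nat_lit 15, [nat_lit 30, nat_lit 5, nat_lit 5, nat_lit 20], true, nat_lit 160, nat_lit 240, nat_lit 0, nat_lit 364, ⟨nat_lit 0, nat_lit 0, nat_lit 1000, nat_lit 6, nat_lit 145, nat_lit 1000, nat_lit 157, nat_lit 1000, nat_lit 59604, nat_lit 274, nat_lit 198017, nat_lit 324, nat_lit 49965229, nat_lit 0, nat_lit 0, nat_lit 3975538, false, false⟩,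
 nat_lit 0, nat_lit 5253, nat_lit 0, nat_lit 0, nat_lit 3636, nat_lit 0, nat_lit 0, nat_lit 0, nat_lit 0, nat_lit 0, nat_lit 0, nat_lit 0, nat_lit 0, nat_lit 0, nat_lit 112, nat_lit 409600, nat_lit 0, nat_lit 0, [(nat_lit 16, [(nat_lit 5, nat_lit 984), (nat_lit 6, nat_lit 16)])],
 ⟨p065_k11, nat_lit 0, nat_lit 0, nat_lit 185, nat_lit 0, nat_lit 170737, [nat_lit 2661024000, nat_lit 1251308801, nat_lit 156569600], [], [nat_lit 15607438650, nat_lit 16782182023, nat_lit 15619910176, nat_lit 16631418464, nat_lit 17937089808, nat_lit 18981562951, nat_lit 17682725536, nat_lit 18646032064], nat_lit 1271250, nat_lit 1271250, nat_lit 279600, nat_lit 780000, nat_lit 1100001, nat_lit 1785000, [nat_lit 780000, nat_lit 1435000, nat_lit 1271250], [nat_lit 8, nat_lit 40, nat_lit 40, nat_lit 80, nat_lit 1, nat_lit 317, nat_lit 100, nat_lit 9]⟩, C1.Rw.none,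
 ⟨nat_lit 4472, nat_lit 5000, ⟨.ofNat (nat_lit 271418), .ofNat (nat_lit 399984), .ofNat (nat_lit 314253), .ofNat (nat_lit 442816), .ofNat (nat_lit 284805), .ofNat (nat_lit 407160), .ofNat (nat_lit 327916), .ofNat (nat_lit 450269)⟩, ⟨.ofNat (nat_lit 299999), .ofNat (nat_lit 442856), .ofNat (nat_lit 342856), .ofNat (nat_lit 485713), .ofNat (nat_lit 302621), .ofNat (nat_lit 438578), .ofNat (nat_lit 345754), .ofNat (nat_lit 481711)⟩⟩, [⟨nat_lit 0, nat_lit 100, nat_lit 87, nat_lit 95, nat_lit 132827696⟩]⟩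
noncomputable def p065_l72 : Lf2 := ⟨nat_lit 1, nat_lit 15, [nat_lit 30, nat_lit 5, nat_lit 5, nat_lit 20], false, nat_lit 160, nat_lit 240, nat_lit 0, nat_lit 364, zbN0,
 nat_lit 0, nat_lit 0, nat_lit 0, nat_lit 0, nat_lit 0, nat_lit 0, nat_lit 0, nat_lit 0, nat_lit 0, nat_lit 0, nat_lit 0, nat_lit 0, nat_lit 0, nat_lit 0, nat_lit 0, nat_lit 0, nat_lit 0, nat_lit 0, [],
 C1.Rw.none, C1.Rw.none,
 zbF0, []⟩
noncomputable def p065_l73 : Lf2 := ⟨nat_lit 0, nat_lit 15, [nat_lit 30, nat_lit 5, nat_lit 5, nat_lit 20], true, nat_lit 160, nat_lit 240, nat_lit 0, nat_lit 364, ⟨nat_lit 0, nat_lit 0, nat_lit 1000, nat_lit 6, nat_lit 184, nat_lit 1000, nat_lit 157, nat_lit 1000, nat_lit 59604, nat_lit 274, nat_lit 19267, nat_lit 249, nat_lit 46830697, nat_lit 0, nat_lit 0, nat_lit 4390367, false, false⟩,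
 nat_lit 0, nat_lit 4928, nat_lit 0, nat_lit 0, nat_lit 3411, nat_lit 0, nat_lit 0, nat_lit 0, nat_lit 0, nat_lit 0, nat_lit 0, nat_lit 0, nat_lit 0, nat_lit 0, nat_lit 116, nat_lit 426400, nat_lit 0, nat_lit 0, [(nat_lit 16, [(nat_lit 5, nat_lit 956), (nat_lit 6, nat_lit 44)])],
 ⟨p065_k11, nat_lit 0, nat_lit 0, nat_lit 144, nat_lit 0, nat_lit 170737, [nat_lit 2699616000, nat_lit 1293699200, nat_lit 133766400], [], [nat_lit 15853942876, nat_lit 16839866864, nat_lit 16438274946, nat_lit 17371998592, nat_lit 17909387236, nat_lit 18770013960, nat_lit 18379984762, nat_lit 19237925360], nat_lit 1271250, nat_lit 1271250, nat_lit 780000, nat_lit 1100001, nat_lit 1100001, nat_lit 1785000, [nat_lit 780000, nat_lit 1435000, nat_lit 1271250], [nat_lit 8, nat_lit 40, nat_lit 40, nat_lit 80, nat_lit 1, nat_lit 317, nat_lit 100, nat_lit 8]⟩, C1.Rw.none,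
 ⟨nat_lit 4472, nat_lit 5000, ⟨.ofNat (nat_lit 399984), .ofNat (nat_lit 471408), .ofNat (nat_lit 442816), .ofNat (nat_lit 514240), .ofNat (nat_lit 407160), .ofNat (nat_lit 475134), .ofNat (nat_lit 450269), .ofNat (nat_lit 518242)⟩, ⟨.ofNat (nat_lit 299999), .ofNat (nat_lit 442856), .ofNat (nat_lit 342856), .ofNat (nat_lit 485713), .ofNat (nat_lit 302621), .ofNat (nat_lit 438578), .ofNat (nat_lit 345754), .ofNat (nat_lit 481711)⟩⟩, []⟩
noncomputable def p065_l74 : Lf2 := ⟨nat_lit 1, nat_lit 15, [nat_lit 30, nat_lit 5, nat_lit 5, nat_lit 20], false, nat_lit 160, nat_lit 240, nat_lit 0, nat_lit 364, zbN0,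
 nat_lit 0, nat_lit 0, nat_lit 0, nat_lit 0, nat_lit 0, nat_lit 0, nat_lit 0, nat_lit 0, nat_lit 0, nat_lit 0, nat_lit 0, nat_lit 0, nat_lit 0, nat_lit 0, nat_lit 0, nat_lit 0, nat_lit 0, nat_lit 0, [],
 C1.Rw.none, C1.Rw.none,
 zbF0, []⟩
noncomputable def p065_l75 : Lf2 := ⟨nat_lit 0, nat_lit 15, [nat_lit 30, nat_lit 5, nat_lit 5, nat_lit 20], true, nat_lit 160, nat_lit 240, nat_lit 0, nat_lit 364, ⟨nat_lit 0, nat_lit 1000, nat_lit 0, nat_lit 6, nat_lit 226, nat_lit 1000, nat_lit 157, nat_lit 0, nat_lit 0, nat_lit 0, nat_lit 0, nat_lit 0, nat_lit 43384331, nat_lit 15111549, nat_lit 8504120, nat_lit 4721966, false, false⟩,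
 nat_lit 0, nat_lit 6180, nat_lit 0, nat_lit 0, nat_lit 4278, nat_lit 0, nat_lit 0, nat_lit 0, nat_lit 0, nat_lit 0, nat_lit 0, nat_lit 0, nat_lit 0, nat_lit 0, nat_lit 0, nat_lit 250000, nat_lit 0, nat_lit 0, [(nat_lit 16, [(nat_lit 0, nat_lit 1000)])],
 ⟨p065_k11, nat_lit 0, nat_lit 0, nat_lit 93, nat_lit 0, nat_lit 170737, [nat_lit 2335200000, nat_lit 2745733334, nat_lit 3400666666], [], [nat_lit 15144149684, nat_lit 16700461504, nat_lit 18215300496, nat_lit 19543957280, nat_lit 18215300496, nat_lit 19543957280, nat_lit 20774154524, nat_lit 21914340328], nat_lit 1271250, nat_lit 1271250, nat_lit 1100001, nat_lit 1785000, nat_lit 1100001, nat_lit 1785000, [nat_lit 780000, nat_lit 1435000, nat_lit 1271250], [nat_lit 8, nat_lit 40, nat_lit 40, nat_lit 80, nat_lit 1, nat_lit 345, nat_lit 125, nat_lit 9]⟩, C1.Rw.none,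
 ⟨nat_lit 4472, nat_lit 5000, ⟨.ofNat (nat_lit 471408), .ofNat (nat_lit 614256), .ofNat (nat_lit 514240), .ofNat (nat_lit 657088), .ofNat (nat_lit 475134), .ofNat (nat_lit 611081), .ofNat (nat_lit 518242), .ofNat (nat_lit 654189)⟩, ⟨.ofNat (nat_lit 299999), .ofNat (nat_lit 442856), .ofNat (nat_lit 342856), .ofNat (nat_lit 485713), .ofNat (nat_lit 302621), .ofNat (nat_lit 438578), .ofNat (nat_lit 345754), .ofNat (nat_lit 481711)⟩⟩, []⟩
noncomputable def p065_l76 : Lf2 := ⟨nat_lit 1, nat_lit 15, [nat_lit 30, nat_lit 5, nat_lit 5, nat_lit 20], false, nat_lit 240, nat_lit 336, nat_lit 0, nat_lit 364, zbN0,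
 nat_lit 0, nat_lit 0, nat_lit 0, nat_lit 0, nat_lit 0, nat_lit 0, nat_lit 0, nat_lit 0, nat_lit 0, nat_lit 0, nat_lit 0, nat_lit 0, nat_lit 0, nat_lit 0, nat_lit 0, nat_lit 0, nat_lit 0, nat_lit 0, [],
 C1.Rw.none, C1.Rw.none,
 zbF0, []⟩
noncomputable def p065_l77 : Lf2 := ⟨nat_lit 0, nat_lit 15, [nat_lit 30, nat_lit 5, nat_lit 5, nat_lit 20], true, nat_lit 240, nat_lit 320, nat_lit 0, nat_lit 336, ⟨nat_lit 0, nat_lit 0, nat_lit 1000, nat_lit 6, nat_lit 130, nat_lit 1000, nat_lit 214, nat_lit 1000, nat_lit 4748, nat_lit 203, nat_lit 156817, nat_lit 312, nat_lit 46182905, nat_lit 0, nat_lit 0, nat_lit 4346041, false, false⟩,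
 nat_lit 0, nat_lit 5221, nat_lit 0, nat_lit 100000, nat_lit 3614, nat_lit 0, nat_lit 0, nat_lit 0, nat_lit 0, nat_lit 0, nat_lit 0, nat_lit 0, nat_lit 0, nat_lit 0, nat_lit 123, nat_lit 455200, nat_lit 0, nat_lit 0, [(nat_lit 16, [(nat_lit 5, nat_lit 908), (nat_lit 6, nat_lit 92)])],
 ⟨p065_k11, nat_lit 0, nat_lit 0, nat_lit 159, nat_lit 0, nat_lit 44838, [nat_lit 2767488000, nat_lit 1369225601, nat_lit 98675200], [], [nat_lit 17577796992, nat_lit 18187144966, nat_lit 17240776048, nat_lit 17747897016, nat_lit 22419829581, nat_lit 23044612424, nat_lit 21883502672, nat_lit 22493546092], nat_lit 1271250, nat_lit 1271250, nat_lit 279600, nat_lit 490000, nat_lit 1271250, nat_lit 1271250, [nat_lit 780000, nat_lit 1435000, nat_lit 1271250], [nat_lit 8, nat_lit 40, nat_lit 40, nat_lit 80, nat_lit 1, nat_lit 317, nat_lit 100, nat_lit 8]⟩, C1.Rw.none,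
 ⟨nat_lit 4743, nat_lit 5000, ⟨.ofNat (nat_lit 271427), .ofNat (nat_lit 328569), .ofNat (nat_lit 314281), .ofNat (nat_lit 371422), .ofNat (nat_lit 278116), .ofNat (nat_lit 333875), .ofNat (nat_lit 321088), .ofNat (nat_lit 376847)⟩, ⟨.ofNat (nat_lit 442856), .ofNat (nat_lit 585713), .ofNat (nat_lit 485713), .ofNat (nat_lit 628570), .ofNat (nat_lit 440769), .ofNat (nat_lit 580169), .ofNat (nat_lit 483746), .ofNat (nat_lit 623145)⟩⟩, [⟨nat_lit 0, nat_lit 100, nat_lit 91, nat_lit 91, nat_lit 4214311632⟩, ⟨nat_lit 4, nat_lit 100, nat_lit 97, nat_lit 98, nat_lit 339023910⟩]⟩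
noncomputable def p065_l78 : Lf2 := ⟨nat_lit 0, nat_lit 15, [nat_lit 30, nat_lit 5, nat_lit 5, nat_lit 20], true, nat_lit 240, nat_lit 312, nat_lit 0, nat_lit 336, ⟨nat_lit 0, nat_lit 0, nat_lit 1000, nat_lit 6, nat_lit 135, nat_lit 1000, nat_lit 209, nat_lit 1000, nat_lit 1989, nat_lit 209, nat_lit 170017, nat_lit 316, nat_lit 46223403, nat_lit 0, nat_lit 0, nat_lit 4370823, false, false⟩,
 nat_lit 0, nat_lit 5020, nat_lit 0, nat_lit 36136, nat_lit 3619, nat_lit 0, nat_lit 44, nat_lit 0, nat_lit 0, nat_lit 0, nat_lit 0, nat_lit 0, nat_lit 0, nat_lit 0, nat_lit 109, nat_lit 400000, nat_lit 0, nat_lit 0, [(nat_lit 16, [(nat_lit 5, nat_lit 1000)])],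
 ⟨p065_k15, nat_lit 0, nat_lit 0, nat_lit 172, nat_lit 0, nat_lit 97687, [nat_lit 2630400000, nat_lit 1212800000, nat_lit 149600000], [], [nat_lit 18080059953, nat_lit 18850931613, nat_lit 17801620495, nat_lit 18504262156, nat_lit 22429381171, nat_lit 23065797968, nat_lit 22023262705, nat_lit 22648169863], nat_lit 1271250, nat_lit 1271250, nat_lit 330400, nat_lit 490000, nat_lit 1271250, nat_lit 1271250, [nat_lit 780000, nat_lit 1435000, nat_lit 1271250], [nat_lit 8, nat_lit 40, nat_lit 40, nat_lit 80, nat_lit 1, nat_lit 317, nat_lit 100, nat_lit 8]⟩, C1.Rw.none,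
 ⟨nat_lit 4472, nat_lit 4744, ⟨.ofNat (nat_lit 292052), .ofNat (nat_lit 333872), .ofNat (nat_lit 335021), .ofNat (nat_lit 376841), .ofNat (nat_lit 298407), .ofNat (nat_lit 339193), .ofNat (nat_lit 341533), .ofNat (nat_lit 382319)⟩, ⟨.ofNat (nat_lit 440769), .ofNat (nat_lit 566229), .ofNat (nat_lit 483746), .ofNat (nat_lit 609205), .ofNat (nat_lit 438578), .ofNat (nat_lit 560938), .ofNat (nat_lit 481711), .ofNat (nat_lit 604071)⟩⟩, [⟨nat_lit 0, nat_lit 100, nat_lit 86, nat_lit 83, nat_lit 2142281188⟩, ⟨nat_lit 4, nat_lit 100, nat_lit 90, nat_lit 95, nat_lit 370116339⟩]⟩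
noncomputable def p065_l79 : Lf2 := ⟨nat_lit 0, nat_lit 15, [nat_lit 30, nat_lit 5, nat_lit 5, nat_lit 20], false, nat_lit 240, nat_lit 300, nat_lit 0, nat_lit 160, ⟨nat_lit 1000, nat_lit 0, nat_lit 0, nat_lit 0, nat_lit 0, nat_lit 0, nat_lit 0, nat_lit 0, nat_lit 0, nat_lit 0, nat_lit 0, nat_lit 0, nat_lit 0, nat_lit 0, nat_lit 0, nat_lit 0, false, false⟩,
 nat_lit 0, nat_lit 9437, nat_lit 0, nat_lit 18819, nat_lit 6533, nat_lit 8243, nat_lit 1104, nat_lit 0, nat_lit 0, nat_lit 1750, nat_lit 0, nat_lit 0, nat_lit 0, nat_lit 0, nat_lit 0, nat_lit 0, nat_lit 0, nat_lit 0, [],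
 ⟨p065_k11, nat_lit 0, nat_lit 0, nat_lit 177, nat_lit 0, nat_lit 165885, [nat_lit 3282000000, nat_lit 6250000000, nat_lit 9842000000], [], [nat_lit 20005817456, nat_lit 21346473648, nat_lit 19516145576, nat_lit 20788931392, nat_lit 23154400148, nat_lit 24495210446, nat_lit 22624838092, nat_lit 23937989280], nat_lit 1271250, nat_lit 1271250, nat_lit 490000, nat_lit 780000, nat_lit 1271250, nat_lit 1271250, [nat_lit 780000, nat_lit 1435000, nat_lit 1271250], [nat_lit 8, nat_lit 40, nat_lit 40, nat_lit 80, nat_lit 1, nat_lit 345, nat_lit 125, nat_lit 9]⟩, ⟨p065_k10, nat_lit 0, nat_lit 0, nat_lit 235, nat_lit 0, nat_lit 0, [nat_lit 4688000000, nat_lit 7968000000, nat_lit 11872000000], [], [nat_lit 20912010932, nat_lit 24147762484, nat_lit 20065055440, nat_lit 23143288496, nat_lit 15834522892, nat_lit 18802996512, nat_lit 15659784960, nat_lit 18456518944], nat_lit 0, nat_lit 0, nat_lit 0, nat_lit 0, nat_lit 0,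 nat_lit 0, [], [nat_lit 21, nat_lit 40, nat_lit 40, nat_lit 80, nat_lit 14, nat_lit 373, nat_lit 150, nat_lit 10]⟩,
 zbF0, [⟨nat_lit 0, nat_lit 100, nat_lit 87, nat_lit 95, nat_lit 881531243⟩, ⟨nat_lit 16, nat_lit 91, nat_lit 100, nat_lit 91, nat_lit 605619675⟩]⟩
noncomputable def p065_l80 : Lf2 := ⟨nat_lit 0, nat_lit 15, [nat_lit 30, nat_lit 5, nat_lit 5, nat_lit 20], false, nat_lit 240, nat_lit 300, nat_lit 160, nat_lit 352, ⟨nat_lit 1000, nat_lit 0, nat_lit 0, nat_lit 0, nat_lit 0, nat_lit 0, nat_lit 0, nat_lit 0, nat_lit 0, nat_lit 0, nat_lit 0, nat_lit 0, nat_lit 0, nat_lit 0, nat_lit 0, nat_lit 0, false, false⟩,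
 nat_lit 0, nat_lit 9332, nat_lit 0, nat_lit 7780, nat_lit 6460, nat_lit 6129, nat_lit 1150, nat_lit 0, nat_lit 0, nat_lit 0, nat_lit 0, nat_lit 0, nat_lit 0, nat_lit 0, nat_lit 0, nat_lit 0, nat_lit 0, nat_lit 0, [],
 ⟨p065_k11, nat_lit 0, nat_lit 0, nat_lit 177, nat_lit 0, nat_lit 165885, [nat_lit 3282000000, nat_lit 6250000000, nat_lit 9842000000], [], [nat_lit 19678048220, nat_lit 21010541260, nat_lit 19202710620, nat_lit 20472863530, nat_lit 23057620430, nat_lit 24432016590, nat_lit 22586968980, nat_lit 23892189850], nat_lit 1271250, nat_lit 1271250, nat_lit 490000, nat_lit 780000, nat_lit 1271250, nat_lit 1271250, [nat_lit 780000, nat_lit 1435000, nat_lit 1271250], [nat_lit 8, nat_lit 40, nat_lit 40, nat_lit 80, nat_lit 1, nat_lit 345, nat_lit 125, nat_lit 9]⟩, ⟨p065_k10, nat_lit 0, nat_lit 0, nat_lit 100, nat_lit 0, nat_lit 0, [nat_lit 4688000000, nat_lit 7968000000, nat_lit 11872000000], [], [nat_lit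 9638024700, nat_lit 13278395744, nat_lit 9960815788, nat_lit 13407337052, nat_lit 23652273996, nat_lit 25721898228, nat_lit 23255754703, nat_lit 25225620377], nat_lit 0, nat_lit 0, nat_lit 0, nat_lit 0, nat_lit 0, nat_lit 0, [], [nat_lit 21, nat_lit 40, nat_lit 40, nat_lit 80, nat_lit 14, nat_lit 428, nat_lit 200, nat_lit 11]⟩,
 zbF0, [⟨nat_lit 0, nat_lit 100, nat_lit 87, nat_lit 95, nat_lit 422332639⟩, ⟨nat_lit 4, nat_lit 100, nat_lit 91, nat_lit 91, nat_lit 262136256⟩, ⟨nat_lit 7, nat_lit 81, nat_lit 100, nat_lit 88, nat_lit 188275396⟩, ⟨nat_lit 23, nat_lit 100, nat_lit 82, nat_lit 92, nat_lit 406960937⟩]⟩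
noncomputable def p065_l81 : Lf2 := ⟨nat_lit 0, nat_lit 12, [nat_lit 126, nat_lit 5, nat_lit 5, nat_lit 20], true, nat_lit 240, nat_lit 320, nat_lit 0, nat_lit 352, ⟨nat_lit 0, nat_lit 1000, nat_lit 0, nat_lit 6, nat_lit 149, nat_lit 1000, nat_lit 217, nat_lit 0, nat_lit 0, nat_lit 0, nat_lit 0, nat_lit 0, nat_lit 44623414, nat_lit 7969405, nat_lit 14407181, nat_lit 4583097, false, false⟩,
 nat_lit 0, nat_lit 5718, nat_lit 0, nat_lit 8627, nat_lit 3958, nat_lit 0, nat_lit 0, nat_lit 0, nat_lit 0, nat_lit 0, nat_lit 0, nat_lit 0, nat_lit 0, nat_lit 0, nat_lit 0, nat_lit 250000, nat_lit 0, nat_lit 0, [(nat_lit 16, [(nat_lit 0, nat_lit 1000)])],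
 ⟨p065_k17, nat_lit 0, nat_lit 0, nat_lit 81, nat_lit 0, nat_lit 25504, [nat_lit 2335200000, nat_lit 2379600001, nat_lit 3080400000], [], [nat_lit 17587201480, nat_lit 19012663192, nat_lit 17702661706, nat_lit 19094162392, nat_lit 22230309384, nat_lit 23448589864, nat_lit 22241009198, nat_lit 23374279540], nat_lit 1271250, nat_lit 1271250, nat_lit 490000, nat_lit 631250, nat_lit 1271250, nat_lit 1271250, [nat_lit 780000, nat_lit 1100000, nat_lit 1785000], [nat_lit 36, nat_lit 40, nat_lit 40, nat_lit 80, nat_lit 7, nat_lit 232, nat_lit 25, nat_lit 7]⟩, C1.Rw.none,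
 ⟨nat_lit 4472, nat_lit 5000, ⟨.ofNat (nat_lit 328559), .ofNat (nat_lit 364272), .ofNat (nat_lit 371392), .ofNat (nat_lit 407104), .ofNat (nat_lit 339186), .ofNat (nat_lit 373174), .ofNat (nat_lit 382295), .ofNat (nat_lit 416281)⟩, ⟨.ofNat (nat_lit 464284), .ofNat (nat_lit 607141), .ofNat (nat_lit 485713), .ofNat (nat_lit 628570), .ofNat (nat_lit 460144), .ofNat (nat_lit 596101), .ofNat (nat_lit 481711), .ofNat (nat_lit 617667)⟩⟩, [⟨nat_lit 0, nat_lit 100, nat_lit 87, nat_lit 95, nat_lit 309098475⟩, ⟨nat_lit 4, nat_lit 97, nat_lit 94, nat_lit 100, nat_lit 241886730⟩]⟩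
noncomputable def p065_l82 : Lf2 := ⟨nat_lit 0, nat_lit 12, [nat_lit 126, nat_lit 5, nat_lit 5, nat_lit 20], true, nat_lit 240, nat_lit 320, nat_lit 0, nat_lit 364, ⟨nat_lit 0, nat_lit 1000, nat_lit 0, nat_lit 6, nat_lit 163, nat_lit 1000, nat_lit 217, nat_lit 0, nat_lit 0, nat_lit 0, nat_lit 0, nat_lit 0, nat_lit 43701582, nat_lit 9056943, nat_lit 14241475, nat_lit 4720754, false, false⟩,
 nat_lit 0, nat_lit 5718, nat_lit 0, nat_lit 8602, nat_lit 3958, nat_lit 0, nat_lit 0, nat_lit 0, nat_lit 0, nat_lit 0, nat_lit 0, nat_lit 0, nat_lit 0, nat_lit 0, nat_lit 0, nat_lit 250000, nat_lit 0, nat_lit 0, [(nat_lit 16, [(nat_lit 0, nat_lit 1000)])],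
 ⟨p065_k17, nat_lit 0, nat_lit 0, nat_lit 73, nat_lit 0, nat_lit 42847, [nat_lit 2335200000, nat_lit 2379600001, nat_lit 3080400000], [], [nat_lit 17702661706, nat_lit 19094162392, nat_lit 17818121932, nat_lit 19175661592, nat_lit 22241009198, nat_lit 23374279540, nat_lit 22251709012, nat_lit 23359322952], nat_lit 1271250, nat_lit 1271250, nat_lit 631250, nat_lit 780000, nat_lit 1271250, nat_lit 1271250, [nat_lit 780000, nat_lit 1100000, nat_lit 1785000], [nat_lit 36, nat_lit 40, nat_lit 40, nat_lit 80, nat_lit 7, nat_lit 238, nat_lit 30, nat_lit 7]⟩, C1.Rw.none,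
 ⟨nat_lit 4472, nat_lit 5000, ⟨.ofNat (nat_lit 364272), .ofNat (nat_lit 399984), .ofNat (nat_lit 407104), .ofNat (nat_lit 442816), .ofNat (nat_lit 373174), .ofNat (nat_lit 407160), .ofNat (nat_lit 416281), .ofNat (nat_lit 450269)⟩, ⟨.ofNat (nat_lit 464284), .ofNat (nat_lit 607141), .ofNat (nat_lit 485713), .ofNat (nat_lit 628570), .ofNat (nat_lit 460144), .ofNat (nat_lit 596101), .ofNat (nat_lit 481711), .ofNat (nat_lit 617667)⟩⟩, [⟨nat_lit 0, nat_lit 100, nat_lit 87, nat_lit 95, nat_lit 73649117⟩, ⟨nat_lit 4, nat_lit 97, nat_lit 94, nat_lit 100, nat_lit 243589509⟩]⟩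
noncomputable def p065_l83 : Lf2 := ⟨nat_lit 1, nat_lit 15, [nat_lit 30, nat_lit 5, nat_lit 5, nat_lit 20], false, nat_lit 240, nat_lit 320, nat_lit 0, nat_lit 364, zbN0,
 nat_lit 0, nat_lit 0, nat_lit 0, nat_lit 0, nat_lit 0, nat_lit 0, nat_lit 0, nat_lit 0, nat_lit 0, nat_lit 0, nat_lit 0, nat_lit 0, nat_lit 0, nat_lit 0, nat_lit 0, nat_lit 0, nat_lit 0, nat_lit 0, [],
 C1.Rw.none, C1.Rw.none,
 zbF0, []⟩
noncomputable def p065_l84 : Lf2 := ⟨nat_lit 0, nat_lit 15, [nat_lit 30, nat_lit 5, nat_lit 5, nat_lit 20], false, nat_lit 240, nat_lit 320, nat_lit 0, nat_lit 160, ⟨nat_lit 1000, nat_lit 0, nat_lit 0, nat_lit 0, nat_lit 0, nat_lit 0, nat_lit 0, nat_lit 0, nat_lit 0, nat_lit 0, nat_lit 0, nat_lit 0, nat_lit 0, nat_lit 0, nat_lit 0, nat_lit 0, false, false⟩,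
 nat_lit 0, nat_lit 9149, nat_lit 0, nat_lit 18596, nat_lit 6333, nat_lit 8243, nat_lit 1145, nat_lit 0, nat_lit 0, nat_lit 1750, nat_lit 0, nat_lit 0, nat_lit 0, nat_lit 0, nat_lit 0, nat_lit 0, nat_lit 0, nat_lit 0, [],
 ⟨p065_k11, nat_lit 0, nat_lit 0, nat_lit 164, nat_lit 0, nat_lit 170737, [nat_lit 3282000000, nat_lit 6250000000, nat_lit 9842000000], [], [nat_lit 19337107426, nat_lit 20589142842, nat_lit 21776726891, nat_lit 22983385391, nat_lit 23888691875, nat_lit 25103123667, nat_lit 25742644064, nat_lit 26970361904], nat_lit 1271250, nat_lit 1271250, nat_lit 780000, nat_lit 1762500, nat_lit 1271250, nat_lit 1271250, [nat_lit 780000, nat_lit 1435000, nat_lit 1271250], [nat_lit 8, nat_lit 40, nat_lit 40, nat_lit 80, nat_lit 1, nat_lit 373, nat_lit 150, nat_lit 10]⟩, ⟨p065_k10, nat_lit 0, nat_lit 0, nat_lit 212, nat_lit 0, nat_lit 0, [nat_lit 4688000000, nat_lit 7968000000, nat_lit 11872000000], [], [nat_lit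 20065055440, nat_lit 23143288496, nat_lit 24115490580, nat_lit 27250682064, nat_lit 15659784960, nat_lit 18456518944, nat_lit 19132621084, nat_lit 21488766136], nat_lit 0, nat_lit 0, nat_lit 0, nat_lit 0, nat_lit 0, nat_lit 0, [], [nat_lit 21, nat_lit 40, nat_lit 40, nat_lit 80, nat_lit 14, nat_lit 401, nat_lit 175, nat_lit 10]⟩,
 zbF0, [⟨nat_lit 4, nat_lit 100, nat_lit 93, nat_lit 97, nat_lit 583320998⟩]⟩
noncomputable def p065_l85 : Lf2 := ⟨nat_lit 0, nat_lit 15, [nat_lit 30, nat_lit 5, nat_lit 5, nat_lit 20], false, nat_lit 240, nat_lit 320, nat_lit 160, nat_lit 364, ⟨nat_lit 1000, nat_lit 0, nat_lit 0, nat_lit 0, nat_lit 0, nat_lit 0, nat_lit 0, nat_lit 0, nat_lit 0, nat_lit 0, nat_lit 0, nat_lit 0, nat_lit 0, nat_lit 0, nat_lit 0, nat_lit 0, false, false⟩,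
 nat_lit 0, nat_lit 9444, nat_lit 0, nat_lit 26767, nat_lit 6538, nat_lit 6137, nat_lit 1011, nat_lit 0, nat_lit 0, nat_lit 0, nat_lit 0, nat_lit 0, nat_lit 0, nat_lit 0, nat_lit 0, nat_lit 0, nat_lit 0, nat_lit 0, [],
 ⟨p065_k11, nat_lit 0, nat_lit 0, nat_lit 164, nat_lit 0, nat_lit 170737, [nat_lit 3282000000, nat_lit 6250000000, nat_lit 9842000000], [], [nat_lit 20255846686, nat_lit 21529151262, nat_lit 22083624434, nat_lit 23093450686, nat_lit 24244894158, nat_lit 25260674750, nat_lit 25844284704, nat_lit 27092190944], nat_lit 1271250, nat_lit 1271250, nat_lit 780000, nat_lit 1762500, nat_lit 1271250, nat_lit 1271250, [nat_lit 780000, nat_lit 1435000, nat_lit 1271250], [nat_lit 8, nat_lit 40, nat_lit 40, nat_lit 80, nat_lit 1, nat_lit 373, nat_lit 150, nat_lit 10]⟩, ⟨p065_k10, nat_lit 0, nat_lit 0, nat_lit 87, nat_lit 0, nat_lit 0, [nat_lit 4688000000, nat_lit 7968000000, nat_lit 11872000000], [], [nat_lit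 9947204364, nat_lit 13396388156, nat_lit 15047473488, nat_lit 17729344940, nat_lit 24339634128, nat_lit 26213023917, nat_lit 26296636718, nat_lit 27906025686], nat_lit 0, nat_lit 0, nat_lit 0, nat_lit 0, nat_lit 0, nat_lit 0, [], [nat_lit 21, nat_lit 40, nat_lit 40, nat_lit 80, nat_lit 14, nat_lit 456, nat_lit 225, nat_lit 11]⟩,
 zbF0, [⟨nat_lit 4, nat_lit 100, nat_lit 93, nat_lit 97, nat_lit 529017019⟩, ⟨nat_lit 19, nat_lit 100, nat_lit 77, nat_lit 91, nat_lit 603693675⟩]⟩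
noncomputable def p065_l86 : Lf2 := ⟨nat_lit 0, nat_lit 15, [nat_lit 30, nat_lit 5, nat_lit 5, nat_lit 20], false, nat_lit 0, nat_lit 336, nat_lit 0, nat_lit 160, ⟨nat_lit 1000, nat_lit 0, nat_lit 0, nat_lit 0, nat_lit 0, nat_lit 0, nat_lit 0, nat_lit 0, nat_lit 0, nat_lit 0, nat_lit 0, nat_lit 0, nat_lit 0, nat_lit 0, nat_lit 0, nat_lit 0, false, false⟩,
 nat_lit 0, nat_lit 10951, nat_lit 0, nat_lit 0, nat_lit 6968, nat_lit 7179, nat_lit 564, nat_lit 0, nat_lit 0, nat_lit 1034, nat_lit 0, nat_lit 0, nat_lit 0, nat_lit 0, nat_lit 0, nat_lit 0, nat_lit 0, nat_lit 0, [],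
 ⟨p065_k9, nat_lit 0, nat_lit 0, nat_lit 307, nat_lit 0, nat_lit 192448, [nat_lit 3282000000, nat_lit 6250000000, nat_lit 9842000000], [], [nat_lit 30222443748, nat_lit 32504428004, nat_lit 39098067844, nat_lit 40769497700, nat_lit 30687051876, nat_lit 31893675051, nat_lit 35485335140, nat_lit 36759884308], nat_lit 1271250, nat_lit 1271250, nat_lit 1271250, nat_lit 1271250, nat_lit 0, nat_lit 2373000, [nat_lit 780000, nat_lit 1435000, nat_lit 1271250], [nat_lit 8, nat_lit 40, nat_lit 40, nat_lit 80, nat_lit 1, nat_lit 428, nat_lit 200, nat_lit 12]⟩, ⟨p065_k10, nat_lit 0, nat_lit 0, nat_lit 251, nat_lit 0, nat_lit 0, [nat_lit 4688000000, nat_lit 7968000000, nat_lit 11872000000], [], [nat_lit 27632667844, nat_lit 29834040712, nat_lit 38662420344, nat_lit 39755980600, nat_lit 22773144764, nat_lit 24317658188, nat_lit 31885676588, nat_lit 33165423264], nat_lit 0, nat_lit 0, nat_lit 0, nat_lit 0, nat_lit 0, nat_lit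 0, [], [nat_lit 21, nat_lit 40, nat_lit 40, nat_lit 80, nat_lit 14, nat_lit 456, nat_lit 225, nat_lit 11]⟩,
 zbF0, [⟨nat_lit 16, nat_lit 100, nat_lit 100, nat_lit 100, nat_lit 108046034⟩, ⟨nat_lit 21, nat_lit 83, nat_lit 100, nat_lit 83, nat_lit 31466440⟩]⟩
noncomputable def p065_l87 : Lf2 := ⟨nat_lit 0, nat_lit 15, [nat_lit 30, nat_lit 5, nat_lit 5, nat_lit 20], false, nat_lit 0, nat_lit 336, nat_lit 160, nat_lit 364, ⟨nat_lit 1000, nat_lit 0, nat_lit 0, nat_lit 0, nat_lit 0, nat_lit 0, nat_lit 0, nat_lit 0, nat_lit 0, nat_lit 0, nat_lit 0, nat_lit 0, nat_lit 0, nat_lit 0, nat_lit 0, nat_lit 0, false, false⟩,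
 nat_lit 0, nat_lit 12073, nat_lit 0, nat_lit 2654, nat_lit 7682, nat_lit 5779, nat_lit 482, nat_lit 0, nat_lit 0, nat_lit 0, nat_lit 0, nat_lit 0, nat_lit 0, nat_lit 0, nat_lit 0, nat_lit 0, nat_lit 0, nat_lit 0, [],
 ⟨p065_k9, nat_lit 0, nat_lit 0, nat_lit 307, nat_lit 0, nat_lit 192448, [nat_lit 3282000000, nat_lit 6250000000, nat_lit 9842000000], [], [nat_lit 30046079402, nat_lit 32446938946, nat_lit 40363892106, nat_lit 42766289592, nat_lit 29867584874, nat_lit 31105553220, nat_lit 36232901487, nat_lit 37644309253], nat_lit 1271250, nat_lit 1271250, nat_lit 1271250, nat_lit 1271250, nat_lit 0, nat_lit 2373000, [nat_lit 780000, nat_lit 1435000, nat_lit 1271250], [nat_lit 8, nat_lit 40, nat_lit 40, nat_lit 80, nat_lit 1, nat_lit 428, nat_lit 200, nat_lit 12]⟩, ⟨p065_k10, nat_lit 0, nat_lit 0, nat_lit 101, nat_lit 0, nat_lit 0, [nat_lit 4688000000, nat_lit 7968000000, nat_lit 11872000000], [], [nat_lit 15559906096,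 nat_lit 18158722980, nat_lit 27666739900, nat_lit 29124520076, nat_lit 26499341760, nat_lit 27939388613, nat_lit 34470106054, nat_lit 35342987873], nat_lit 0, nat_lit 0, nat_lit 0, nat_lit 0, nat_lit 0, nat_lit 0, [], [nat_lit 21, nat_lit 40, nat_lit 40, nat_lit 80, nat_lit 14, nat_lit 538, nat_lit 300, nat_lit 13]⟩,
 zbF0, [⟨nat_lit 4, nat_lit 100, nat_lit 100, nat_lit 100, nat_lit 113154559⟩, ⟨nat_lit 7, nat_lit 77, nat_lit 100, nat_lit 91, nat_lit 425995498⟩]⟩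
noncomputable def b_V_700_600_20_53 : St := ⟨true, nat_lit 1, nat_lit 0, nat_lit 1, nat_lit 120, nat_lit 280, nat_lit 320, nat_lit 240, nat_lit 280, nat_lit 36, nat_lit 400, nat_lit 80, nat_lit 120, nat_lit 0, nat_lit 336, nat_lit 0, nat_lit 364, nat_lit 40, nat_lit 60, nat_lit 0, nat_lit 0, nat_lit 0, nat_lit 0⟩
theorem d_V_700_600_20_53 (h : EB TB.env) : Dead b_V_700_600_20_53 := chkB_sound0 h (T :=
(.spl (nat_lit 2) (nat_lit 240)
(.spl (nat_lit 4) (nat_lit 160)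
(.spl (nat_lit 2) (nat_lit 160)
(.spl (nat_lit 0) (nat_lit 300)
(.leaf p065_l65)
(.trZ (nat_lit 0) (nat_lit 100) (nat_lit 88) (nat_lit 68) (nat_lit 48) (.spl (nat_lit 2) (nat_lit 120)
(.spl (nat_lit 0) (nat_lit 310)
(.leaf p065_l66)
(.trZ (nat_lit 0) (nat_lit 100) (nat_lit 85) (nat_lit 72) (nat_lit 56) (.leaf p065_l67)))
(.leaf p065_l68))))
(.leaf p065_l69))
(.spl (nat_lit 4) (nat_lit 240)
(.spl (nat_lit 2) (nat_lit 160)
(.spl (nat_lit 2) (nat_lit 120)
(.spl (nat_lit 0) (nat_lit 300)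
(.leaf p065_l70)
(.trZ (nat_lit 0) (nat_lit 100) (nat_lit 88) (nat_lit 68) (nat_lit 48) (.leaf p065_l71)))
(.spl (nat_lit 0) (nat_lit 300)
(.leaf p065_l72)
(.leaf p065_l73)))
(.spl (nat_lit 0) (nat_lit 300)
(.leaf p065_l74)
(.leaf p065_l75)))
(.spl (nat_lit 0) (nat_lit 300)
(.leaf p065_l76)
(.trZ (nat_lit 0) (nat_lit 100) (nat_lit 88) (nat_lit 68) (nat_lit 48) (.trX (nat_lit 16) (nat_lit 94) (nat_lit 88) (nat_lit 100) (nat_lit 320) (.spl (nat_lit 2) (nat_lit 120)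
(.spl (nat_lit 2) (nat_lit 80)
(.trX (nat_lit 23) (nat_lit 100) (nat_lit 76) (nat_lit 82) (nat_lit 336) (.spl (nat_lit 0) (nat_lit 310)
(.leaf p065_l77)
(.trZ (nat_lit 0) (nat_lit 100) (nat_lit 85) (nat_lit 72) (nat_lit 56) (.trX (nat_lit 16) (nat_lit 91) (nat_lit 91) (nat_lit 100) (nat_lit 312) (.leaf p065_l78)))))
(.spl (nat_lit 3) (nat_lit 100)
(.trX (nat_lit 16) (nat_lit 100) (nat_lit 100) (nat_lit 100) (nat_lit 300) (.trX (nat_lit 19) (nat_lit 100) (nat_lit 68) (nat_lit 88) (nat_lit 352) (.spl (nat_lit 5) (nat_lit 160)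
(.leaf p065_l79)
(.leaf p065_l80))))
(.spl (nat_lit 6) (nat_lit 48)
(.spl (nat_lit 2) (nat_lit 100)
(.trX (nat_lit 23) (nat_lit 100) (nat_lit 68) (nat_lit 88) (nat_lit 352) (.leaf p065_l81))
(.leaf p065_l82))
(.leaf p065_l83))))
(.spl (nat_lit 5) (nat_lit 160)
(.leaf p065_l84)
(.leaf p065_l85))))))))
(.spl (nat_lit 5) (nat_lit 160)
(.leaf p065_l86)
(.leaf p065_l87)))) (by decide +kernel)
noncomputable def p065_l88 : Lf2 := ⟨nat_lit 1, nat_lit 15, [nat_lit 30, nat_lit 5, nat_lit 5, nat_lit 20], false, nat_lit 0, nat_lit 160, nat_lit 0, nat_lit 364, zbN0,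
 nat_lit 0, nat_lit 0, nat_lit 0, nat_lit 0, nat_lit 0, nat_lit 0, nat_lit 0, nat_lit 0, nat_lit 0, nat_lit 0, nat_lit 0, nat_lit 0, nat_lit 0, nat_lit 0, nat_lit 0, nat_lit 0, nat_lit 0, nat_lit 0, [],
 C1.Rw.none, C1.Rw.none,
 zbF0, []⟩
noncomputable def p065_l89 : Lf2 := ⟨nat_lit 0, nat_lit 15, [nat_lit 30, nat_lit 5, nat_lit 5, nat_lit 20], false, nat_lit 0, nat_lit 160, nat_lit 0, nat_lit 364, ⟨nat_lit 0, nat_lit 0, nat_lit 1000, nat_lit 6, nat_lit 145, nat_lit 519, nat_lit 65, nat_lit 1000, nat_lit 38400, nat_lit 263, nat_lit 198017, nat_lit 324, nat_lit 59224880, nat_lit 0, nat_lit 0, nat_lit 1794864, false, false⟩,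
 nat_lit 0, nat_lit 4670, nat_lit 0, nat_lit 3352, nat_lit 3233, nat_lit 0, nat_lit 0, nat_lit 0, nat_lit 0, nat_lit 0, nat_lit 0, nat_lit 0, nat_lit 0, nat_lit 0, nat_lit 156, nat_lit 580000, nat_lit 0, nat_lit 0, [(nat_lit 16, [(nat_lit 5, nat_lit 700), (nat_lit 6, nat_lit 300)])],
 ⟨p065_k11, nat_lit 0, nat_lit 0, nat_lit 309, nat_lit 0, nat_lit 102806, [nat_lit 3093600001, nat_lit 1749840001, nat_lit 21280000], [], [nat_lit 15222701568, nat_lit 17050211919, nat_lit 15418114326, nat_lit 16438327780, nat_lit 15293075485, nat_lit 16325483794, nat_lit 15667195687, nat_lit 16682576279], nat_lit 1271250, nat_lit 1271250, nat_lit 279600, nat_lit 780000, nat_lit 0, nat_lit 1100001, [nat_lit 780000, nat_lit 1435000, nat_lit 1271250], [nat_lit 8, nat_lit 40, nat_lit 40, nat_lit 80, nat_lit 1, nat_lit 289, nat_lit 75, nat_lit 9]⟩, ⟨p065_k10, nat_lit 0, nat_lit 0, nat_lit 384, nat_lit 0, nat_lit 145566, [nat_lit 0,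 nat_lit 0, nat_lit 0], [], [nat_lit 0, nat_lit 0, nat_lit 0, nat_lit 0, nat_lit 0, nat_lit 0, nat_lit 0, nat_lit 0], nat_lit 1271250, nat_lit 1271250, nat_lit 279600, nat_lit 780000, nat_lit 0, nat_lit 2570750, [nat_lit 1100000, nat_lit 1785000, nat_lit 1271250], [nat_lit 21, nat_lit 40, nat_lit 40, nat_lit 80, nat_lit 14, nat_lit 428, nat_lit 200, nat_lit 11]⟩,
 ⟨nat_lit 4472, nat_lit 5000, ⟨.ofNat (nat_lit 271418), .ofNat (nat_lit 399984), .ofNat (nat_lit 314253), .ofNat (nat_lit 442816), .ofNat (nat_lit 284805), .ofNat (nat_lit 407160), .ofNat (nat_lit 327916), .ofNat (nat_lit 450269)⟩, ⟨.ofNat (nat_lit 0), .ofNat (nat_lit 299999), .ofNat (nat_lit 0), .ofNat (nat_lit 342856), .ofNat (nat_lit 0), .ofNat (nat_lit 302621), .ofNat (nat_lit 0), .ofNat (nat_lit 345754)⟩⟩, [⟨nat_lit 0, nat_lit 100, nat_lit 87, nat_lit 95, nat_lit 154880271⟩]⟩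
noncomputable def p065_l90 : Lf2 := ⟨nat_lit 1, nat_lit 15, [nat_lit 30, nat_lit 5, nat_lit 5, nat_lit 20], false, nat_lit 0, nat_lit 160, nat_lit 0, nat_lit 364, zbN0,
 nat_lit 0, nat_lit 0, nat_lit 0, nat_lit 0, nat_lit 0, nat_lit 0, nat_lit 0, nat_lit 0, nat_lit 0, nat_lit 0, nat_lit 0, nat_lit 0, nat_lit 0, nat_lit 0, nat_lit 0, nat_lit 0, nat_lit 0, nat_lit 0, [],
 C1.Rw.none, C1.Rw.none,
 zbF0, []⟩
noncomputable def p065_l91 : Lf2 := ⟨nat_lit 0, nat_lit 15, [nat_lit 30, nat_lit 5, nat_lit 5, nat_lit 20], false, nat_lit 0, nat_lit 160, nat_lit 0, nat_lit 364, ⟨nat_lit 287, nat_lit 0, nat_lit 713, nat_lit 6, nat_lit 208, nat_lit 589, nat_lit 65, nat_lit 713, nat_lit 38400, nat_lit 263, nat_lit 6451, nat_lit 201, nat_lit 52788381, nat_lit 0, nat_lit 0, nat_lit 2583717, false, false⟩,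
 nat_lit 4209, nat_lit 958, nat_lit 0, nat_lit 6176, nat_lit 3577, nat_lit 2228, nat_lit 53, nat_lit 0, nat_lit 0, nat_lit 0, nat_lit 0, nat_lit 0, nat_lit 0, nat_lit 0, nat_lit 96, nat_lit 713000, nat_lit 0, nat_lit 0, [(nat_lit 16, [(nat_lit 6, nat_lit 713)])],
 ⟨p065_k12, nat_lit 0, nat_lit 0, nat_lit 181, nat_lit 0, nat_lit 25220, [nat_lit 2797237200, nat_lit 2982416800, nat_lit 10575600], [], [nat_lit 16503792113, nat_lit 17695053869, nat_lit 19613128864, nat_lit 20834988960, nat_lit 16040091457, nat_lit 17266344576, nat_lit 19363924736, nat_lit 20400085856], nat_lit 1271250, nat_lit 1271250, nat_lit 780000, nat_lit 1762500, nat_lit 0, nat_lit 1100001, [nat_lit 780000, nat_lit 1100000, nat_lit 2127500], [nat_lit 42, nat_lit 40, nat_lit 40, nat_lit 80, nat_lit 13, nat_lit 317, nat_lit 100, nat_lit 9]⟩, ⟨p065_k14, nat_lit 0, nat_lit 0, nat_lit 212, nat_lit 0, nat_lit 35710, [nat_lit 1345456000, nat_lit 1793750000,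 nat_lit 3407264000], [], [nat_lit 14218626692, nat_lit 13022328828, nat_lit 10256817440, nat_lit 10508819216, nat_lit 10531729734, nat_lit 10670913218, nat_lit 12771762686, nat_lit 11776951997], nat_lit 1271250, nat_lit 1271250, nat_lit 780000, nat_lit 1762500, nat_lit 0, nat_lit 2570750, [nat_lit 1100000, nat_lit 1442500, nat_lit 1271250], [nat_lit 48, nat_lit 40, nat_lit 40, nat_lit 80, nat_lit 12, nat_lit 456, nat_lit 225, nat_lit 12]⟩,
 ⟨nat_lit 4472, nat_lit 5000, ⟨.ofNat (nat_lit 399984), .ofNat (nat_lit 614256), .ofNat (nat_lit 421400), .ofNat (nat_lit 635672), .ofNat (nat_lit 407160), .ofNat (nat_lit 611081), .ofNat (nat_lit 428715), .ofNat (nat_lit 632635)⟩, ⟨.ofNat (nat_lit 0), .ofNat (nat_lit 299999), .ofNat (nat_lit 0), .ofNat (nat_lit 342856), .ofNat (nat_lit 0), .ofNat (nat_lit 302621), .ofNat (nat_lit 0), .ofNat (nat_lit 345754)⟩⟩, [⟨nat_lit 19, nat_lit 100, nat_lit 72, nat_lit 89, nat_lit 27091477⟩]⟩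
noncomputable def p065_l92 : Lf2 := ⟨nat_lit 0, nat_lit 15, [nat_lit 30, nat_lit 5, nat_lit 5, nat_lit 20], false, nat_lit 0, nat_lit 160, nat_lit 0, nat_lit 352, ⟨nat_lit 239, nat_lit 0, nat_lit 761, nat_lit 6, nat_lit 216, nat_lit 703, nat_lit 65, nat_lit 761, nat_lit 38400, nat_lit 263, nat_lit 42926, nat_lit 200, nat_lit 51858550, nat_lit 0, nat_lit 0, nat_lit 2671937, false, false⟩,
 nat_lit 4812, nat_lit 183, nat_lit 0, nat_lit 4579, nat_lit 3458, nat_lit 2801, nat_lit 0, nat_lit 0, nat_lit 0, nat_lit 103, nat_lit 0, nat_lit 0, nat_lit 0, nat_lit 0, nat_lit 126, nat_lit 761000, nat_lit 0, nat_lit 0, [(nat_lit 16, [(nat_lit 6, nat_lit 761)])],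
 ⟨p065_k12, nat_lit 0, nat_lit 0, nat_lit 203, nat_lit 0, nat_lit 102806, [nat_lit 3047048400, nat_lit 3244189601, nat_lit 7753200], [], [nat_lit 15944320952, nat_lit 17105304672, nat_lit 19452488257, nat_lit 20659287840, nat_lit 15957082113, nat_lit 17206347505, nat_lit 19313438145, nat_lit 20335252625], nat_lit 1271250, nat_lit 1271250, nat_lit 780000, nat_lit 1762500, nat_lit 0, nat_lit 1100001, [nat_lit 780000, nat_lit 1100000, nat_lit 2127500], [nat_lit 42, nat_lit 40, nat_lit 40, nat_lit 80, nat_lit 13, nat_lit 317, nat_lit 100, nat_lit 9]⟩, ⟨p065_k18, nat_lit 0, nat_lit 0, nat_lit 330, nat_lit 0, nat_lit 128474, [nat_lit 1120432000, nat_lit 1493750000, nat_lit 2837408000], [], [nat_lit 12793106046, nat_lit 11289142708, nat_lit 8296927273, nat_lit 8637959975, nat_lit 7864906067, nat_lit 8047407573, nat_lit 9373128540, nat_lit 8117655357], nat_lit 1271250, nat_lit 1271250, nat_lit 780000, nat_lit 1762500,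 nat_lit 0, nat_lit 2486000, [nat_lit 1100000, nat_lit 1442500, nat_lit 1271250], [nat_lit 48, nat_lit 40, nat_lit 40, nat_lit 80, nat_lit 12, nat_lit 456, nat_lit 225, nat_lit 12]⟩,
 ⟨nat_lit 4472, nat_lit 5000, ⟨.ofNat (nat_lit 421400), .ofNat (nat_lit 635672), .ofNat (nat_lit 442816), .ofNat (nat_lit 657088), .ofNat (nat_lit 428715), .ofNat (nat_lit 632635), .ofNat (nat_lit 450269), .ofNat (nat_lit 654189)⟩, ⟨.ofNat (nat_lit 0), .ofNat (nat_lit 299999), .ofNat (nat_lit 0), .ofNat (nat_lit 342856), .ofNat (nat_lit 0), .ofNat (nat_lit 302621), .ofNat (nat_lit 0), .ofNat (nat_lit 345754)⟩⟩, []⟩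
noncomputable def p065_l93 : Lf2 := ⟨nat_lit 1, nat_lit 15, [nat_lit 30, nat_lit 5, nat_lit 5, nat_lit 20], false, nat_lit 160, nat_lit 336, nat_lit 0, nat_lit 364, zbN0,
 nat_lit 0, nat_lit 0, nat_lit 0, nat_lit 0, nat_lit 0, nat_lit 0, nat_lit 0, nat_lit 0, nat_lit 0, nat_lit 0, nat_lit 0, nat_lit 0, nat_lit 0, nat_lit 0, nat_lit 0, nat_lit 0, nat_lit 0, nat_lit 0, [],
 C1.Rw.none, C1.Rw.none,
 zbF0, []⟩
noncomputable def p065_l94 : Lf2 := ⟨nat_lit 0, nat_lit 15, [nat_lit 30, nat_lit 5, nat_lit 5, nat_lit 20], false, nat_lit 160, nat_lit 240, nat_lit 0, nat_lit 364, ⟨nat_lit 0, nat_lit 0, nat_lit 1000, nat_lit 6, nat_lit 159, nat_lit 1000, nat_lit 157, nat_lit 1000, nat_lit 59604, nat_lit 274, nat_lit 19267, nat_lit 249, nat_lit 48862889, nat_lit 0, nat_lit 0, nat_lit 4135164, false, false⟩,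
 nat_lit 0, nat_lit 5261, nat_lit 0, nat_lit 0, nat_lit 3642, nat_lit 0, nat_lit 0, nat_lit 0, nat_lit 0, nat_lit 0, nat_lit 0, nat_lit 0, nat_lit 0, nat_lit 0, nat_lit 111, nat_lit 409000, nat_lit 0, nat_lit 0, [(nat_lit 16, [(nat_lit 5, nat_lit 985), (nat_lit 6, nat_lit 15)])],
 ⟨p065_k11, nat_lit 0, nat_lit 0, nat_lit 161, nat_lit 0, nat_lit 102806, [nat_lit 2649360001, nat_lit 1232652001, nat_lit 133384000], [], [nat_lit 15604773533, nat_lit 16785677853, nat_lit 16179525613, nat_lit 17137131425, nat_lit 17940103776, nat_lit 18985276269, nat_lit 18173043670, nat_lit 19278077330], nat_lit 1271250, nat_lit 1271250, nat_lit 279600, nat_lit 1100001, nat_lit 1100001, nat_lit 1785000, [nat_lit 780000, nat_lit 1435000, nat_lit 1271250], [nat_lit 8, nat_lit 40, nat_lit 40, nat_lit 80, nat_lit 1, nat_lit 317, nat_lit 100, nat_lit 9]⟩, ⟨p065_k10, nat_lit 0, nat_lit 0, nat_lit 384, nat_lit 0, nat_lit 145566, [nat_lit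 0, nat_lit 0, nat_lit 0], [], [nat_lit 0, nat_lit 0, nat_lit 0, nat_lit 0, nat_lit 0, nat_lit 0, nat_lit 0, nat_lit 0], nat_lit 1271250, nat_lit 1271250, nat_lit 279600, nat_lit 1100001, nat_lit 0, nat_lit 2570750, [nat_lit 1100000, nat_lit 1785000, nat_lit 1271250], [nat_lit 21, nat_lit 40, nat_lit 40, nat_lit 80, nat_lit 14, nat_lit 456, nat_lit 225, nat_lit 12]⟩,
 ⟨nat_lit 4472, nat_lit 5000, ⟨.ofNat (nat_lit 271418), .ofNat (nat_lit 471408), .ofNat (nat_lit 314253), .ofNat (nat_lit 514240), .ofNat (nat_lit 284805), .ofNat (nat_lit 475134), .ofNat (nat_lit 327916), .ofNat (nat_lit 518242)⟩, ⟨.ofNat (nat_lit 299999), .ofNat (nat_lit 442856), .ofNat (nat_lit 342856), .ofNat (nat_lit 485713), .ofNat (nat_lit 302621), .ofNat (nat_lit 438578), .ofNat (nat_lit 345754), .ofNat (nat_lit 481711)⟩⟩, [⟨nat_lit 0, nat_lit 100, nat_lit 87, nat_lit 95, nat_lit 58400537⟩]⟩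
noncomputable def p065_l95 : Lf2 := ⟨nat_lit 0, nat_lit 15, [nat_lit 30, nat_lit 5, nat_lit 5, nat_lit 20], true, nat_lit 240, nat_lit 320, nat_lit 0, nat_lit 336, ⟨nat_lit 0, nat_lit 0, nat_lit 1000, nat_lit 6, nat_lit 130, nat_lit 1000, nat_lit 214, nat_lit 1000, nat_lit 4748, nat_lit 203, nat_lit 156817, nat_lit 312, nat_lit 46182905, nat_lit 0, nat_lit 0, nat_lit 4346041, false, false⟩,
 nat_lit 0, nat_lit 5221, nat_lit 0, nat_lit 100000, nat_lit 3614, nat_lit 0, nat_lit 0, nat_lit 0, nat_lit 0, nat_lit 0, nat_lit 0, nat_lit 0, nat_lit 0, nat_lit 0, nat_lit 123, nat_lit 455200, nat_lit 0, nat_lit 0, [(nat_lit 16, [(nat_lit 5, nat_lit 908), (nat_lit 6, nat_lit 92)])],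
 ⟨p065_k11, nat_lit 0, nat_lit 0, nat_lit 159, nat_lit 0, nat_lit 44838, [nat_lit 2767488000, nat_lit 1369225601, nat_lit 98675200], [], [nat_lit 17577796992, nat_lit 18187144966, nat_lit 17240776048, nat_lit 17747897016, nat_lit 22419829581, nat_lit 23044612424, nat_lit 21883502672, nat_lit 22493546092], nat_lit 1271250, nat_lit 1271250, nat_lit 279600, nat_lit 490000, nat_lit 1271250, nat_lit 1271250, [nat_lit 780000, nat_lit 1435000, nat_lit 1271250], [nat_lit 8, nat_lit 40, nat_lit 40, nat_lit 80, nat_lit 1, nat_lit 317, nat_lit 100, nat_lit 8]⟩, C1.Rw.none,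
 ⟨nat_lit 4743, nat_lit 5000, ⟨.ofNat (nat_lit 271427), .ofNat (nat_lit 328569), .ofNat (nat_lit 314281), .ofNat (nat_lit 371422), .ofNat (nat_lit 278116), .ofNat (nat_lit 333875), .ofNat (nat_lit 321088), .ofNat (nat_lit 376847)⟩, ⟨.ofNat (nat_lit 442856), .ofNat (nat_lit 585713), .ofNat (nat_lit 485713), .ofNat (nat_lit 628570), .ofNat (nat_lit 440769), .ofNat (nat_lit 580169), .ofNat (nat_lit 483746), .ofNat (nat_lit 623145)⟩⟩, [⟨nat_lit 0, nat_lit 100, nat_lit 91, nat_lit 91, nat_lit 4214311632⟩, ⟨nat_lit 4, nat_lit 100, nat_lit 97, nat_lit 98, nat_lit 339023910⟩]⟩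
noncomputable def p065_l96 : Lf2 := ⟨nat_lit 0, nat_lit 15, [nat_lit 30, nat_lit 5, nat_lit 5, nat_lit 20], true, nat_lit 240, nat_lit 312, nat_lit 0, nat_lit 336, ⟨nat_lit 0, nat_lit 0, nat_lit 1000, nat_lit 6, nat_lit 135, nat_lit 1000, nat_lit 209, nat_lit 1000, nat_lit 1989, nat_lit 209, nat_lit 170017, nat_lit 316, nat_lit 46223403, nat_lit 0, nat_lit 0, nat_lit 4370823, false, false⟩,
 nat_lit 0, nat_lit 5020, nat_lit 0, nat_lit 36136, nat_lit 3619, nat_lit 0, nat_lit 44, nat_lit 0, nat_lit 0, nat_lit 0, nat_lit 0, nat_lit 0, nat_lit 0, nat_lit 0, nat_lit 109, nat_lit 400000, nat_lit 0, nat_lit 0, [(nat_lit 16, [(nat_lit 5, nat_lit 1000)])],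
 ⟨p065_k15, nat_lit 0, nat_lit 0, nat_lit 172, nat_lit 0, nat_lit 97687, [nat_lit 2630400000, nat_lit 1212800000, nat_lit 149600000], [], [nat_lit 18080059953, nat_lit 18850931613, nat_lit 17801620495, nat_lit 18504262156, nat_lit 22429381171, nat_lit 23065797968, nat_lit 22023262705, nat_lit 22648169863], nat_lit 1271250, nat_lit 1271250, nat_lit 330400, nat_lit 490000, nat_lit 1271250, nat_lit 1271250, [nat_lit 780000, nat_lit 1435000, nat_lit 1271250], [nat_lit 8, nat_lit 40, nat_lit 40, nat_lit 80, nat_lit 1, nat_lit 317, nat_lit 100, nat_lit 8]⟩, C1.Rw.none,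
 ⟨nat_lit 4472, nat_lit 4744, ⟨.ofNat (nat_lit 292052), .ofNat (nat_lit 333872), .ofNat (nat_lit 335021), .ofNat (nat_lit 376841), .ofNat (nat_lit 298407), .ofNat (nat_lit 339193), .ofNat (nat_lit 341533), .ofNat (nat_lit 382319)⟩, ⟨.ofNat (nat_lit 440769), .ofNat (nat_lit 566229), .ofNat (nat_lit 483746), .ofNat (nat_lit 609205), .ofNat (nat_lit 438578), .ofNat (nat_lit 560938), .ofNat (nat_lit 481711), .ofNat (nat_lit 604071)⟩⟩, [⟨nat_lit 0, nat_lit 100, nat_lit 86, nat_lit 83, nat_lit 2142281188⟩, ⟨nat_lit 4, nat_lit 100, nat_lit 90, nat_lit 95, nat_lit 370116339⟩]⟩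
noncomputable def p065_l97 : Lf2 := ⟨nat_lit 0, nat_lit 15, [nat_lit 30, nat_lit 5, nat_lit 5, nat_lit 20], false, nat_lit 240, nat_lit 300, nat_lit 0, nat_lit 352, ⟨nat_lit 0, nat_lit 1000, nat_lit 0, nat_lit 6, nat_lit 155, nat_lit 1000, nat_lit 202, nat_lit 0, nat_lit 0, nat_lit 0, nat_lit 0, nat_lit 0, nat_lit 45458865, nat_lit 8559268, nat_lit 12981867, nat_lit 4530725, false, false⟩,
 nat_lit 0, nat_lit 5855, nat_lit 0, nat_lit 5361, nat_lit 4053, nat_lit 0, nat_lit 0, nat_lit 0, nat_lit 0, nat_lit 0, nat_lit 0, nat_lit 0, nat_lit 0, nat_lit 0, nat_lit 0, nat_lit 250000, nat_lit 0, nat_lit 0, [(nat_lit 16, [(nat_lit 0, nat_lit 1000)])],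
 ⟨p065_k12, nat_lit 0, nat_lit 0, nat_lit 83, nat_lit 0, nat_lit 42722, [nat_lit 2335200000, nat_lit 2426800001, nat_lit 3396400000], [], [nat_lit 17515292180, nat_lit 18236614076, nat_lit 17730527562, nat_lit 18417313967, nat_lit 21034408628, nat_lit 21653977429, nat_lit 21089936397, nat_lit 21681314170], nat_lit 1271250, nat_lit 1271250, nat_lit 490000, nat_lit 780000, nat_lit 1271250, nat_lit 1271250, [nat_lit 780000, nat_lit 1100000, nat_lit 2127500], [nat_lit 42, nat_lit 40, nat_lit 40, nat_lit 80, nat_lit 13, nat_lit 345, nat_lit 125, nat_lit 9]⟩, ⟨p065_k14, nat_lit 0, nat_lit 0, nat_lit 326, nat_lit 0, nat_lit 60181, [nat_lit 0, nat_lit 0, nat_lit 0], [], [nat_lit 0, nat_lit 0, nat_lit 0, nat_lit 0, nat_lit 0, nat_lit 0, nat_lit 0, nat_lit 0], nat_lit 1271250, nat_lit 1271250, nat_lit 490000, nat_lit 780000, nat_lit 0, nat_lit 2486000, [nat_lit 1100000, nat_lit 1442500, nat_lit 1271250], [nat_lit 48,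 nat_lit 40, nat_lit 40, nat_lit 80, nat_lit 12, nat_lit 428, nat_lit 200, nat_lit 11]⟩,
 ⟨nat_lit 4743, nat_lit 5000, ⟨.ofNat (nat_lit 328569), .ofNat (nat_lit 399997), .ofNat (nat_lit 371422), .ofNat (nat_lit 442849), .ofNat (nat_lit 333875), .ofNat (nat_lit 403574), .ofNat (nat_lit 376847), .ofNat (nat_lit 446544)⟩, ⟨.ofNat (nat_lit 442856), .ofNat (nat_lit 549998), .ofNat (nat_lit 464284), .ofNat (nat_lit 571427), .ofNat (nat_lit 440769), .ofNat (nat_lit 545319), .ofNat (nat_lit 462258), .ofNat (nat_lit 566807)⟩⟩, [⟨nat_lit 0, nat_lit 100, nat_lit 91, nat_lit 91, nat_lit 75171822⟩, ⟨nat_lit 4, nat_lit 100, nat_lit 94, nat_lit 92, nat_lit 280853604⟩]⟩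
noncomputable def p065_l98 : Lf2 := ⟨nat_lit 0, nat_lit 15, [nat_lit 30, nat_lit 5, nat_lit 5, nat_lit 20], false, nat_lit 240, nat_lit 292, nat_lit 0, nat_lit 352, ⟨nat_lit 0, nat_lit 1000, nat_lit 0, nat_lit 6, nat_lit 157, nat_lit 1000, nat_lit 198, nat_lit 0, nat_lit 0, nat_lit 0, nat_lit 0, nat_lit 0, nat_lit 45677072, nat_lit 8696067, nat_lit 12626861, nat_lit 4513320, false, false⟩,
 nat_lit 0, nat_lit 5671, nat_lit 0, nat_lit 3227, nat_lit 4088, nat_lit 0, nat_lit 0, nat_lit 0, nat_lit 0, nat_lit 0, nat_lit 0, nat_lit 0, nat_lit 0, nat_lit 0, nat_lit 0, nat_lit 250000, nat_lit 0, nat_lit 0, [(nat_lit 16, [(nat_lit 0, nat_lit 1000)])],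
 ⟨p065_k15, nat_lit 0, nat_lit 0, nat_lit 87, nat_lit 0, nat_lit 66685, [nat_lit 2335200000, nat_lit 2745733334, nat_lit 3400666666], [], [nat_lit 18213286296, nat_lit 18575529804, nat_lit 18387995832, nat_lit 18732865772, nat_lit 21186171224, nat_lit 21530393384, nat_lit 21227183430, nat_lit 21530440383], nat_lit 1271250, nat_lit 1271250, nat_lit 490000, nat_lit 780000, nat_lit 1271250, nat_lit 1271250, [nat_lit 780000, nat_lit 1435000, nat_lit 1271250], [nat_lit 8, nat_lit 40, nat_lit 40, nat_lit 80, nat_lit 1, nat_lit 345, nat_lit 125, nat_lit 9]⟩, ⟨p065_k10, nat_lit 0, nat_lit 0, nat_lit 342, nat_lit 0, nat_lit 98789, [nat_lit 0, nat_lit 0, nat_lit 0], [], [nat_lit 0, nat_lit 0, nat_lit 0, nat_lit 0, nat_lit 0, nat_lit 0, nat_lit 0, nat_lit 0], nat_lit 1271250, nat_lit 1271250, nat_lit 490000, nat_lit 780000, nat_lit 0, nat_lit 2486000, [nat_lit 1100000, nat_lit 1785000, nat_lit 1271250], [nat_lit 21, nat_lit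 40, nat_lit 40, nat_lit 80, nat_lit 14, nat_lit 428, nat_lit 200, nat_lit 11]⟩,
 ⟨nat_lit 4609, nat_lit 4744, ⟨.ofNat (nat_lit 333875), .ofNat (nat_lit 403574), .ofNat (nat_lit 376850), .ofNat (nat_lit 446549), .ofNat (nat_lit 336532), .ofNat (nat_lit 405370), .ofNat (nat_lit 379580), .ofNat (nat_lit 448419)⟩, ⟨.ofNat (nat_lit 440769), .ofNat (nat_lit 531379), .ofNat (nat_lit 462258), .ofNat (nat_lit 552867), .ofNat (nat_lit 439688), .ofNat (nat_lit 529178), .ofNat (nat_lit 461213), .ofNat (nat_lit 550703)⟩⟩, [⟨nat_lit 0, nat_lit 100, nat_lit 89, nat_lit 93, nat_lit 99191889⟩, ⟨nat_lit 16, nat_lit 93, nat_lit 100, nat_lit 97, nat_lit 257923487⟩]⟩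
noncomputable def p065_l99 : Lf2 := ⟨nat_lit 0, nat_lit 15, [nat_lit 30, nat_lit 5, nat_lit 5, nat_lit 20], false, nat_lit 240, nat_lit 288, nat_lit 0, nat_lit 352, ⟨nat_lit 0, nat_lit 1000, nat_lit 0, nat_lit 6, nat_lit 157, nat_lit 1000, nat_lit 196, nat_lit 0, nat_lit 0, nat_lit 0, nat_lit 0, nat_lit 0, nat_lit 45779486, nat_lit 8784225, nat_lit 12436289, nat_lit 4505537, false, false⟩,
 nat_lit 0, nat_lit 6423, nat_lit 0, nat_lit 439, nat_lit 4723, nat_lit 0, nat_lit 0, nat_lit 0, nat_lit 0, nat_lit 0, nat_lit 0, nat_lit 0, nat_lit 0, nat_lit 0, nat_lit 0, nat_lit 250000, nat_lit 0, nat_lit 0, [(nat_lit 16, [(nat_lit 0, nat_lit 1000)])],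
 ⟨p065_k19, nat_lit 0, nat_lit 0, nat_lit 79, nat_lit 0, nat_lit 90879, [nat_lit 2335200000, nat_lit 2379600001, nat_lit 3080400000], [], [nat_lit 19112111719, nat_lit 19440373373, nat_lit 19195258261, nat_lit 19507251833, nat_lit 21759255135, nat_lit 22140831672, nat_lit 21532263398, nat_lit 21895322558], nat_lit 1271250, nat_lit 1271250, nat_lit 490000, nat_lit 780000, nat_lit 1271250, nat_lit 1271250, [nat_lit 780000, nat_lit 1100000, nat_lit 1785000], [nat_lit 36, nat_lit 40, nat_lit 40, nat_lit 80, nat_lit 7, nat_lit 238, nat_lit 30, nat_lit 7]⟩, ⟨p065_k14, nat_lit 0, nat_lit 0, nat_lit 352, nat_lit 0, nat_lit 137985, [nat_lit 0, nat_lit 0, nat_lit 0], [], [nat_lit 0, nat_lit 0, nat_lit 0, nat_lit 0, nat_lit 0, nat_lit 0, nat_lit 0, nat_lit 0], nat_lit 1271250, nat_lit 1271250, nat_lit 490000, nat_lit 780000, nat_lit 0, nat_lit 2486000, [nat_lit 1100000, nat_lit 1442500, nat_lit 1271250], [nat_lit 48,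 nat_lit 40, nat_lit 40, nat_lit 80, nat_lit 12, nat_lit 428, nat_lit 200, nat_lit 11]⟩,
 ⟨nat_lit 4472, nat_lit 4610, ⟨.ofNat (nat_lit 336531), .ofNat (nat_lit 405370), .ofNat (nat_lit 379580), .ofNat (nat_lit 448418), .ofNat (nat_lit 339196), .ofNat (nat_lit 407174), .ofNat (nat_lit 382327), .ofNat (nat_lit 450306)⟩, ⟨.ofNat (nat_lit 439688), .ofNat (nat_lit 522294), .ofNat (nat_lit 461213), .ofNat (nat_lit 543819), .ofNat (nat_lit 438578), .ofNat (nat_lit 520152), .ofNat (nat_lit 460144), .ofNat (nat_lit 541718)⟩⟩, [⟨nat_lit 0, nat_lit 100, nat_lit 87, nat_lit 95, nat_lit 137288186⟩, ⟨nat_lit 16, nat_lit 90, nat_lit 100, nat_lit 95, nat_lit 248477711⟩]⟩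
noncomputable def p065_l100 : Lf2 := ⟨nat_lit 0, nat_lit 15, [nat_lit 30, nat_lit 5, nat_lit 5, nat_lit 20], false, nat_lit 240, nat_lit 300, nat_lit 0, nat_lit 352, ⟨nat_lit 0, nat_lit 1000, nat_lit 0, nat_lit 6, nat_lit 184, nat_lit 1000, nat_lit 201, nat_lit 0, nat_lit 0, nat_lit 0, nat_lit 0, nat_lit 0, nat_lit 43480959, nat_lit 10912969, nat_lit 12606072, nat_lit 4794016, false, false⟩,
 nat_lit 0, nat_lit 5957, nat_lit 0, nat_lit 1586, nat_lit 4124, nat_lit 0, nat_lit 0, nat_lit 0, nat_lit 0, nat_lit 0, nat_lit 0, nat_lit 0, nat_lit 0, nat_lit 0, nat_lit 0, nat_lit 250000, nat_lit 0, nat_lit 0, [(nat_lit 16, [(nat_lit 0, nat_lit 1000)])],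
 ⟨p065_k11, nat_lit 0, nat_lit 0, nat_lit 86, nat_lit 0, nat_lit 97954, [nat_lit 2335200000, nat_lit 2745733334, nat_lit 3400666666], [], [nat_lit 17665062296, nat_lit 19050617776, nat_lit 18367262768, nat_lit 19672122240, nat_lit 21050044976, nat_lit 22258490356, nat_lit 21560487170, nat_lit 22686013416], nat_lit 1271250, nat_lit 1271250, nat_lit 780000, nat_lit 1100001, nat_lit 1271250, nat_lit 1271250, [nat_lit 780000, nat_lit 1435000, nat_lit 1271250], [nat_lit 8, nat_lit 40, nat_lit 40, nat_lit 80, nat_lit 1, nat_lit 345, nat_lit 125, nat_lit 9]⟩, ⟨p065_k10, nat_lit 0, nat_lit 0, nat_lit 335, nat_lit 0, nat_lit 137985, [nat_lit 0, nat_lit 0, nat_lit 0], [], [nat_lit 0, nat_lit 0, nat_lit 0, nat_lit 0, nat_lit 0, nat_lit 0, nat_lit 0, nat_lit 0], nat_lit 1271250, nat_lit 1271250, nat_lit 780000, nat_lit 1100001, nat_lit 0, nat_lit 2486000, [nat_lit 1100000, nat_lit 1785000, nat_lit 1271250], [nat_lit 21,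 nat_lit 40, nat_lit 40, nat_lit 80, nat_lit 14, nat_lit 428, nat_lit 200, nat_lit 11]⟩,
 ⟨nat_lit 4472, nat_lit 5000, ⟨.ofNat (nat_lit 399984), .ofNat (nat_lit 471408), .ofNat (nat_lit 442816), .ofNat (nat_lit 514240), .ofNat (nat_lit 407160), .ofNat (nat_lit 475134), .ofNat (nat_lit 450269), .ofNat (nat_lit 518242)⟩, ⟨.ofNat (nat_lit 442856), .ofNat (nat_lit 549998), .ofNat (nat_lit 464284), .ofNat (nat_lit 571427), .ofNat (nat_lit 438578), .ofNat (nat_lit 540545), .ofNat (nat_lit 460144), .ofNat (nat_lit 562111)⟩⟩, [⟨nat_lit 4, nat_lit 100, nat_lit 91, nat_lit 91, nat_lit 291343812⟩]⟩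
noncomputable def p065_l101 : Lf2 := ⟨nat_lit 1, nat_lit 12, [nat_lit 126, nat_lit 5, nat_lit 5, nat_lit 20], false, nat_lit 240, nat_lit 320, nat_lit 0, nat_lit 364, zbN0,
 nat_lit 0, nat_lit 0, nat_lit 0, nat_lit 0, nat_lit 0, nat_lit 0, nat_lit 0, nat_lit 0, nat_lit 0, nat_lit 0, nat_lit 0, nat_lit 0, nat_lit 0, nat_lit 0, nat_lit 0, nat_lit 0, nat_lit 0, nat_lit 0, [],
 C1.Rw.none, C1.Rw.none,
 zbF0, []⟩
noncomputable def p065_l102 : Lf2 := ⟨nat_lit 0, nat_lit 12, [nat_lit 126, nat_lit 5, nat_lit 5, nat_lit 20], false, nat_lit 240, nat_lit 312, nat_lit 0, nat_lit 364, ⟨nat_lit 0, nat_lit 1000, nat_lit 0, nat_lit 6, nat_lit 171, nat_lit 1000, nat_lit 214, nat_lit 0, nat_lit 0, nat_lit 0, nat_lit 0, nat_lit 0, nat_lit 43463437, nat_lit 9705377, nat_lit 13831186, nat_lit 4767419, false, false⟩,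
 nat_lit 0, nat_lit 5467, nat_lit 0, nat_lit 9553, nat_lit 3941, nat_lit 0, nat_lit 0, nat_lit 0, nat_lit 0, nat_lit 0, nat_lit 0, nat_lit 0, nat_lit 0, nat_lit 0, nat_lit 0, nat_lit 250000, nat_lit 0, nat_lit 0, [(nat_lit 16, [(nat_lit 0, nat_lit 1000)])],
 ⟨p065_k20, nat_lit 0, nat_lit 0, nat_lit 84, nat_lit 0, nat_lit 24244, [nat_lit 2335200000, nat_lit 2726400001, nat_lit 3083999999], [], [nat_lit 18311262972, nat_lit 19022456484, nat_lit 19186131736, nat_lit 19824422160, nat_lit 22362607203, nat_lit 22954247039, nat_lit 22842162085, nat_lit 23376458021], nat_lit 1271250, nat_lit 1271250, nat_lit 490000, nat_lit 1100001, nat_lit 1271250, nat_lit 1271250, [nat_lit 780000, nat_lit 1435000, nat_lit 1271250], [nat_lit 18, nat_lit 40, nat_lit 40, nat_lit 80, nat_lit 2, nat_lit 249, nat_lit 40, nat_lit 7]⟩, ⟨p065_k21, nat_lit 0, nat_lit 0, nat_lit 250, nat_lit 0, nat_lit 36003, [nat_lit 0, nat_lit 0, nat_lit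 0], [], [nat_lit 0, nat_lit 0, nat_lit 0, nat_lit 0, nat_lit 0, nat_lit 0, nat_lit 0, nat_lit 0], nat_lit 1271250, nat_lit 1271250, nat_lit 490000, nat_lit 1100001, nat_lit 0, nat_lit 2570750, [nat_lit 1100000, nat_lit 1785000, nat_lit 1271250], [nat_lit 21, nat_lit 40, nat_lit 40, nat_lit 80, nat_lit 14, nat_lit 456, nat_lit 225, nat_lit 12]⟩,
 ⟨nat_lit 4472, nat_lit 4744, ⟨.ofNat (nat_lit 333872), .ofNat (nat_lit 473270), .ofNat (nat_lit 376841), .ofNat (nat_lit 516239), .ofNat (nat_lit 339193), .ofNat (nat_lit 475149), .ofNat (nat_lit 382319), .ofNat (nat_lit 518274)⟩, ⟨.ofNat (nat_lit 462258), .ofNat (nat_lit 587717), .ofNat (nat_lit 483746), .ofNat (nat_lit 609205), .ofNat (nat_lit 460144), .ofNat (nat_lit 582505), .ofNat (nat_lit 481711), .ofNat (nat_lit 604071)⟩⟩, [⟨nat_lit 0, nat_lit 100, nat_lit 87, nat_lit 95, nat_lit 42877904⟩, ⟨nat_lit 4, nat_lit 99, nat_lit 92, nat_lit 100, nat_lit 256397243⟩]⟩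
noncomputable def p065_l103 : Lf2 := ⟨nat_lit 1, nat_lit 15, [nat_lit 30, nat_lit 5, nat_lit 5, nat_lit 20], false, nat_lit 240, nat_lit 320, nat_lit 0, nat_lit 364, zbN0,
 nat_lit 0, nat_lit 0, nat_lit 0, nat_lit 0, nat_lit 0, nat_lit 0, nat_lit 0, nat_lit 0, nat_lit 0, nat_lit 0, nat_lit 0, nat_lit 0, nat_lit 0, nat_lit 0, nat_lit 0, nat_lit 0, nat_lit 0, nat_lit 0, [],
 C1.Rw.none, C1.Rw.none,
 zbF0, []⟩
noncomputable def p065_l104 : Lf2 := ⟨nat_lit 1, nat_lit 15, [nat_lit 30, nat_lit 5, nat_lit 5, nat_lit 20], false, nat_lit 160, nat_lit 336, nat_lit 0, nat_lit 364, zbN0,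
 nat_lit 0, nat_lit 0, nat_lit 0, nat_lit 0, nat_lit 0, nat_lit 0, nat_lit 0, nat_lit 0, nat_lit 0, nat_lit 0, nat_lit 0, nat_lit 0, nat_lit 0, nat_lit 0, nat_lit 0, nat_lit 0, nat_lit 0, nat_lit 0, [],
 C1.Rw.none, C1.Rw.none,
 zbF0, []⟩
noncomputable def p065_l105 : Lf2 := ⟨nat_lit 0, nat_lit 15, [nat_lit 30, nat_lit 5, nat_lit 5, nat_lit 20], false, nat_lit 160, nat_lit 320, nat_lit 0, nat_lit 364, ⟨nat_lit 246, nat_lit 754, nat_lit 0, nat_lit 6, nat_lit 226, nat_lit 754, nat_lit 185, nat_lit 0, nat_lit 0, nat_lit 0, nat_lit 0, nat_lit 0, nat_lit 41568487, nat_lit 14722161, nat_lit 10709352, nat_lit 4968709, false, false⟩,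
 nat_lit 6170, nat_lit 0, nat_lit 0, nat_lit 7184, nat_lit 4271, nat_lit 3266, nat_lit 0, nat_lit 0, nat_lit 0, nat_lit 168, nat_lit 0, nat_lit 0, nat_lit 0, nat_lit 0, nat_lit 0, nat_lit 188500, nat_lit 0, nat_lit 0, [(nat_lit 16, [(nat_lit 0, nat_lit 754)])],
 ⟨p065_k12, nat_lit 0, nat_lit 0, nat_lit 87, nat_lit 0, nat_lit 102806, [nat_lit 2568112800, nat_lit 2983055200, nat_lit 4972366400], [], [nat_lit 15385279938, nat_lit 16940228928, nat_lit 18455120672, nat_lit 19782695760, nat_lit 22776876666, nat_lit 23858904832, nat_lit 24721850530, nat_lit 25744940048], nat_lit 1271250, nat_lit 1271250, nat_lit 1100001, nat_lit 1785000, nat_lit 1271250, nat_lit 1271250, [nat_lit 780000, nat_lit 1100000, nat_lit 2127500], [nat_lit 42, nat_lit 40, nat_lit 40, nat_lit 80, nat_lit 13, nat_lit 373, nat_lit 150, nat_lit 10]⟩, ⟨p065_k14, nat_lit 0, nat_lit 0, nat_lit 323, nat_lit 0, nat_lit 145566, [nat_lit 1153248000,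 nat_lit 1537500000, nat_lit 2920512000], [], [nat_lit 12203360392, nat_lit 9056330608, nat_lit 8762378456, nat_lit 9088720104, nat_lit 10499611444, nat_lit 7888832287, nat_lit 7553465567, nat_lit 8144632391], nat_lit 1271250, nat_lit 1271250, nat_lit 1271250, nat_lit 1271250, nat_lit 0, nat_lit 2570750, [nat_lit 1100000, nat_lit 1442500, nat_lit 1271250], [nat_lit 48, nat_lit 40, nat_lit 40, nat_lit 80, nat_lit 12, nat_lit 456, nat_lit 225, nat_lit 12]⟩,
 ⟨nat_lit 4472, nat_lit 5000, ⟨.ofNat (nat_lit 471408), .ofNat (nat_lit 614256), .ofNat (nat_lit 514240), .ofNat (nat_lit 657088), .ofNat (nat_lit 475134), .ofNat (nat_lit 611081), .ofNat (nat_lit 518242), .ofNat (nat_lit 654189)⟩, ⟨.ofNat (nat_lit 299999), .ofNat (nat_lit 585713), .ofNat (nat_lit 342856), .ofNat (nat_lit 628570), .ofNat (nat_lit 302621), .ofNat (nat_lit 574534), .ofNat (nat_lit 345754), .ofNat (nat_lit 617667)⟩⟩, [⟨nat_lit 4, nat_lit 100,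 nat_lit 93, nat_lit 97, nat_lit 269203804⟩, ⟨nat_lit 7, nat_lit 77, nat_lit 100, nat_lit 91, nat_lit 35450250⟩]⟩
noncomputable def p065_l106 : Lf2 := ⟨nat_lit 0, nat_lit 15, [nat_lit 30, nat_lit 5, nat_lit 5, nat_lit 20], false, nat_lit 0, nat_lit 160, nat_lit 0, nat_lit 364, ⟨nat_lit 1000, nat_lit 0, nat_lit 0, nat_lit 0, nat_lit 0, nat_lit 0, nat_lit 0, nat_lit 0, nat_lit 0, nat_lit 0, nat_lit 0, nat_lit 0, nat_lit 0, nat_lit 0, nat_lit 0, nat_lit 0, false, false⟩,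
 nat_lit 16381, nat_lit 0, nat_lit 0, nat_lit 0, nat_lit 8979, nat_lit 8672, nat_lit 39, nat_lit 0, nat_lit 0, nat_lit 843, nat_lit 0, nat_lit 0, nat_lit 0, nat_lit 0, nat_lit 0, nat_lit 0, nat_lit 0, nat_lit 0, [],
 ⟨p065_k9, nat_lit 0, nat_lit 0, nat_lit 284, nat_lit 0, nat_lit 114466, [nat_lit 3282000000, nat_lit 6250000000, nat_lit 9842000000], [], [nat_lit 31743010815, nat_lit 35158777987, nat_lit 44544263507, nat_lit 46394979124, nat_lit 25400913683, nat_lit 27557137879, nat_lit 35451455611, nat_lit 37022025371], nat_lit 1271250, nat_lit 1271250, nat_lit 1271250, nat_lit 1271250, nat_lit 0, nat_lit 1100001, [nat_lit 780000, nat_lit 1435000, nat_lit 1271250], [nat_lit 8, nat_lit 40, nat_lit 40, nat_lit 80, nat_lit 1, nat_lit 373, nat_lit 150, nat_lit 10]⟩, ⟨p065_k10, nat_lit 0, nat_lit 0, nat_lit 339, nat_lit 0, nat_lit 145566, [nat_lit 4688000000, nat_lit 7968000000, nat_lit 11872000000], [], [nat_lit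 32185035636, nat_lit 33822709684, nat_lit 41593883892, nat_lit 42710233300, nat_lit 33058859597, nat_lit 31843207092, nat_lit 38234288452, nat_lit 39072446170], nat_lit 1271250, nat_lit 1271250, nat_lit 1271250, nat_lit 1271250, nat_lit 0, nat_lit 2570750, [nat_lit 1100000, nat_lit 1785000, nat_lit 1271250], [nat_lit 21, nat_lit 40, nat_lit 40, nat_lit 80, nat_lit 14, nat_lit 538, nat_lit 300, nat_lit 13]⟩,
 zbF0, [⟨nat_lit 7, nat_lit 77, nat_lit 100, nat_lit 91, nat_lit 54822654⟩, ⟨nat_lit 22, nat_lit 83, nat_lit 100, nat_lit 83, nat_lit 139882617⟩]⟩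
noncomputable def p065_l107 : Lf2 := ⟨nat_lit 1, nat_lit 15, [nat_lit 30, nat_lit 5, nat_lit 5, nat_lit 20], false, nat_lit 160, nat_lit 336, nat_lit 0, nat_lit 364, zbN0,
 nat_lit 0, nat_lit 0, nat_lit 0, nat_lit 0, nat_lit 0, nat_lit 0, nat_lit 0, nat_lit 0, nat_lit 0, nat_lit 0, nat_lit 0, nat_lit 0, nat_lit 0, nat_lit 0, nat_lit 0, nat_lit 0, nat_lit 0, nat_lit 0, [],
 C1.Rw.none, C1.Rw.none,
 zbF0, []⟩
noncomputable def p065_l108 : Lf2 := ⟨nat_lit 0, nat_lit 15, [nat_lit 30, nat_lit 5, nat_lit 5, nat_lit 20], false, nat_lit 160, nat_lit 320, nat_lit 0, nat_lit 364, ⟨nat_lit 1000, nat_lit 0, nat_lit 0, nat_lit 0, nat_lit 0, nat_lit 0, nat_lit 0, nat_lit 0, nat_lit 0, nat_lit 0, nat_lit 0, nat_lit 0, nat_lit 0, nat_lit 0, nat_lit 0, nat_lit 0, false, false⟩,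
 nat_lit 16742, nat_lit 0, nat_lit 0, nat_lit 3562, nat_lit 5659, nat_lit 8863, nat_lit 905, nat_lit 0, nat_lit 0, nat_lit 713, nat_lit 0, nat_lit 0, nat_lit 0, nat_lit 0, nat_lit 0, nat_lit 0, nat_lit 0, nat_lit 0, [],
 ⟨p065_k11, nat_lit 0, nat_lit 0, nat_lit 158, nat_lit 0, nat_lit 102806, [nat_lit 3282000000, nat_lit 6250000000, nat_lit 9842000000], [], [nat_lit 22133585828, nat_lit 23129063630, nat_lit 30193527999, nat_lit 31008151947, nat_lit 26688606992, nat_lit 27456774067, nat_lit 33750028804, nat_lit 34439180008], nat_lit 1271250, nat_lit 1271250, nat_lit 1271250, nat_lit 1271250, nat_lit 1100001, nat_lit 2470000, [nat_lit 780000, nat_lit 1435000, nat_lit 1271250], [nat_lit 8, nat_lit 40, nat_lit 40, nat_lit 80, nat_lit 1, nat_lit 428, nat_lit 200, nat_lit 11]⟩, ⟨p065_k10, nat_lit 0, nat_lit 0, nat_lit 339, nat_lit 0, nat_lit 145566, [nat_lit 4688000000, nat_lit 7968000000, nat_lit 11872000000], [],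 [nat_lit 32882237944, nat_lit 34533641836, nat_lit 42672235868, nat_lit 43791500700, nat_lit 32845875383, nat_lit 32356300769, nat_lit 38482805160, nat_lit 39318670344], nat_lit 1271250, nat_lit 1271250, nat_lit 1271250, nat_lit 1271250, nat_lit 0, nat_lit 2570750, [nat_lit 1100000, nat_lit 1785000, nat_lit 1271250], [nat_lit 21, nat_lit 40, nat_lit 40, nat_lit 80, nat_lit 14, nat_lit 538, nat_lit 300, nat_lit 13]⟩,
 zbF0, [⟨nat_lit 16, nat_lit 93, nat_lit 100, nat_lit 97, nat_lit 367731250⟩, ⟨nat_lit 7, nat_lit 77, nat_lit 100, nat_lit 91, nat_lit 148130003⟩]⟩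
noncomputable def b_V_700_600_20_54 : St := ⟨true, nat_lit 1, nat_lit 1, nat_lit 1, nat_lit 120, nat_lit 280, nat_lit 320, nat_lit 240, nat_lit 280, nat_lit 36, nat_lit 400, nat_lit 80, nat_lit 120, nat_lit 0, nat_lit 336, nat_lit 0, nat_lit 364, nat_lit 40, nat_lit 60, nat_lit 0, nat_lit 0, nat_lit 0, nat_lit 0⟩
theorem d_V_700_600_20_54 (h : EB TB.env) : Dead b_V_700_600_20_54 := chkB_sound0 h (T :=
(.spl (nat_lit 2) (nat_lit 240)
(.spl (nat_lit 4) (nat_lit 160)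
(.spl (nat_lit 2) (nat_lit 120)
(.spl (nat_lit 0) (nat_lit 300)
(.leaf p065_l88)
(.trZ (nat_lit 0) (nat_lit 100) (nat_lit 88) (nat_lit 68) (nat_lit 48) (.leaf p065_l89)))
(.spl (nat_lit 0) (nat_lit 300)
(.leaf p065_l90)
(.spl (nat_lit 1) (nat_lit 260)
(.leaf p065_l91)
(.trX (nat_lit 19) (nat_lit 100) (nat_lit 69) (nat_lit 96) (nat_lit 352) (.leaf p065_l92)))))
(.spl (nat_lit 2) (nat_lit 160)
(.spl (nat_lit 0) (nat_lit 300)
(.leaf p065_l93)
(.trZ (nat_lit 0) (nat_lit 100) (nat_lit 88) (nat_lit 68) (nat_lit 48) (.trX (nat_lit 16) (nat_lit 94) (nat_lit 88) (nat_lit 100) (nat_lit 320) (.spl (nat_lit 4) (nat_lit 240)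
(.leaf p065_l94)
(.spl (nat_lit 2) (nat_lit 80)
(.trX (nat_lit 23) (nat_lit 100) (nat_lit 76) (nat_lit 82) (nat_lit 336) (.spl (nat_lit 0) (nat_lit 310)
(.leaf p065_l95)
(.trZ (nat_lit 0) (nat_lit 100) (nat_lit 85) (nat_lit 72) (nat_lit 56) (.trX (nat_lit 16) (nat_lit 91) (nat_lit 91) (nat_lit 100) (nat_lit 312) (.leaf p065_l96)))))
(.spl (nat_lit 3) (nat_lit 100)
(.trX (nat_lit 16) (nat_lit 100) (nat_lit 100) (nat_lit 100) (nat_lit 300) (.trX (nat_lit 19) (nat_lit 100) (nat_lit 68) (nat_lit 88) (nat_lit 352) (.spl (nat_lit 2) (nat_lit 120)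
(.spl (nat_lit 0) (nat_lit 310)
(.leaf p065_l97)
(.trX (nat_lit 16) (nat_lit 93) (nat_lit 100) (nat_lit 97) (nat_lit 292) (.spl (nat_lit 0) (nat_lit 315)
(.leaf p065_l98)
(.trX (nat_lit 16) (nat_lit 90) (nat_lit 100) (nat_lit 95) (nat_lit 288) (.leaf p065_l99)))))
(.leaf p065_l100))))
(.spl (nat_lit 6) (nat_lit 48)
(.spl (nat_lit 0) (nat_lit 310)
(.leaf p065_l101)
(.trX (nat_lit 16) (nat_lit 91) (nat_lit 91) (nat_lit 100) (nat_lit 312) (.leaf p065_l102)))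
(.leaf p065_l103))))))))
(.spl (nat_lit 0) (nat_lit 300)
(.leaf p065_l104)
(.trX (nat_lit 16) (nat_lit 94) (nat_lit 88) (nat_lit 100) (nat_lit 320) (.leaf p065_l105)))))
(.spl (nat_lit 4) (nat_lit 160)
(.leaf p065_l106)
(.spl (nat_lit 0) (nat_lit 300)
(.leaf p065_l107)
(.trX (nat_lit 16) (nat_lit 94) (nat_lit 88) (nat_lit 100) (nat_lit 320) (.leaf p065_l108)))))) (by decide +kernel)
noncomputable def p065_l109 : Lf2 := ⟨nat_lit 1, nat_lit 15, [nat_lit 30, nat_lit 5, nat_lit 5, nat_lit 20], false, nat_lit 0, nat_lit 336, nat_lit 0, nat_lit 364, zbN0,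
 nat_lit 0, nat_lit 0, nat_lit 0, nat_lit 0, nat_lit 0, nat_lit 0, nat_lit 0, nat_lit 0, nat_lit 0, nat_lit 0, nat_lit 0, nat_lit 0, nat_lit 0, nat_lit 0, nat_lit 0, nat_lit 0, nat_lit 0, nat_lit 0, [],
 C1.Rw.none, C1.Rw.none,
 zbF0, []⟩
noncomputable def p065_l110 : Lf2 := ⟨nat_lit 0, nat_lit 15, [nat_lit 30, nat_lit 5, nat_lit 5, nat_lit 20], true, nat_lit 0, nat_lit 320, nat_lit 0, nat_lit 364, ⟨nat_lit 0, nat_lit 1000, nat_lit 0, nat_lit 6, nat_lit 145, nat_lit 1000, nat_lit 120, nat_lit 0, nat_lit 0, nat_lit 0, nat_lit 0, nat_lit 0, nat_lit 0, nat_lit 0, nat_lit 0, nat_lit 5000000, false, false⟩,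
 nat_lit 0, nat_lit 8366, nat_lit 0, nat_lit 3623, nat_lit 5791, nat_lit 0, nat_lit 0, nat_lit 0, nat_lit 0, nat_lit 0, nat_lit 0, nat_lit 0, nat_lit 0, nat_lit 0, nat_lit 0, nat_lit 545800, nat_lit 0, nat_lit 0, [(nat_lit 16, [(nat_lit 1, nat_lit 757), (nat_lit 2, nat_lit 243)])],
 ⟨p065_k11, nat_lit 0, nat_lit 0, nat_lit 332, nat_lit 0, nat_lit 170737, [nat_lit 2044159801, nat_lit 2068716267, nat_lit 1117694933], [], [nat_lit 22674669732, nat_lit 24477507058, nat_lit 21197357059, nat_lit 22866259685, nat_lit 25477648925, nat_lit 26525032347, nat_lit 26717852929, nat_lit 24916850933], nat_lit 1271250, nat_lit 1271250, nat_lit 279600, nat_lit 780000, nat_lit 0, nat_lit 2260000, [nat_lit 780000, nat_lit 1435000, nat_lit 1271250], [nat_lit 8, nat_lit 40, nat_lit 40, nat_lit 80, nat_lit 1, nat_lit 345, nat_lit 125, nat_lit 10]⟩, C1.Rw.none,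
 ⟨nat_lit 4472, nat_lit 5000, ⟨.ofNat (nat_lit 271418), .ofNat (nat_lit 399984), .ofNat (nat_lit 314253), .ofNat (nat_lit 442816), .ofNat (nat_lit 284805), .ofNat (nat_lit 407160), .ofNat (nat_lit 327916), .ofNat (nat_lit 450269)⟩, ⟨.ofNat (nat_lit 0), .ofNat (nat_lit 585713), .ofNat (nat_lit 0), .ofNat (nat_lit 628570), .ofNat (nat_lit 0), .ofNat (nat_lit 574534), .ofNat (nat_lit 0), .ofNat (nat_lit 617667)⟩⟩, [⟨nat_lit 0, nat_lit 100, nat_lit 87, nat_lit 95, nat_lit 108094245⟩, ⟨nat_lit 4, nat_lit 100, nat_lit 93, nat_lit 97, nat_lit 108983217⟩]⟩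
noncomputable def p065_l111 : Lf2 := ⟨nat_lit 1, nat_lit 15, [nat_lit 30, nat_lit 5, nat_lit 5, nat_lit 20], false, nat_lit 0, nat_lit 336, nat_lit 0, nat_lit 364, zbN0,
 nat_lit 0, nat_lit 0, nat_lit 0, nat_lit 0, nat_lit 0, nat_lit 0, nat_lit 0, nat_lit 0, nat_lit 0, nat_lit 0, nat_lit 0, nat_lit 0, nat_lit 0, nat_lit 0, nat_lit 0, nat_lit 0, nat_lit 0, nat_lit 0, [],
 C1.Rw.none, C1.Rw.none,
 zbF0, []⟩
noncomputable def p065_l112 : Lf2 := ⟨nat_lit 0, nat_lit 15, [nat_lit 30, nat_lit 5, nat_lit 5, nat_lit 20], true, nat_lit 0, nat_lit 320, nat_lit 0, nat_lit 364, ⟨nat_lit 0, nat_lit 1000, nat_lit 0, nat_lit 6, nat_lit 212, nat_lit 1000, nat_lit 120, nat_lit 0, nat_lit 0, nat_lit 0, nat_lit 0, nat_lit 0, nat_lit 0, nat_lit 0, nat_lit 0, nat_lit 5000000, false, false⟩,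
 nat_lit 0, nat_lit 10460, nat_lit 0, nat_lit 0, nat_lit 7241, nat_lit 0, nat_lit 0, nat_lit 0, nat_lit 0, nat_lit 0, nat_lit 0, nat_lit 0, nat_lit 0, nat_lit 0, nat_lit 0, nat_lit 250000, nat_lit 0, nat_lit 0, [(nat_lit 16, [(nat_lit 0, nat_lit 1000)])],
 ⟨p065_k11, nat_lit 0, nat_lit 0, nat_lit 293, nat_lit 0, nat_lit 170737, [nat_lit 2335200000, nat_lit 2745733334, nat_lit 3400666666], [], [nat_lit 32286478916, nat_lit 28457887058, nat_lit 26776580820, nat_lit 28276366714, nat_lit 25553859122, nat_lit 26619822666, nat_lit 30352101562, nat_lit 27509975408], nat_lit 1271250, nat_lit 1271250, nat_lit 780000, nat_lit 1762500, nat_lit 0, nat_lit 2260000, [nat_lit 780000, nat_lit 1435000, nat_lit 1271250], [nat_lit 8, nat_lit 40, nat_lit 40, nat_lit 80, nat_lit 1, nat_lit 373, nat_lit 150, nat_lit 11]⟩, C1.Rw.none,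
 ⟨nat_lit 4472, nat_lit 5000, ⟨.ofNat (nat_lit 399984), .ofNat (nat_lit 614256), .ofNat (nat_lit 442816), .ofNat (nat_lit 657088), .ofNat (nat_lit 407160), .ofNat (nat_lit 611081), .ofNat (nat_lit 450269), .ofNat (nat_lit 654189)⟩, ⟨.ofNat (nat_lit 0), .ofNat (nat_lit 585713), .ofNat (nat_lit 0), .ofNat (nat_lit 628570), .ofNat (nat_lit 0), .ofNat (nat_lit 574534), .ofNat (nat_lit 0), .ofNat (nat_lit 617667)⟩⟩, [⟨nat_lit 4, nat_lit 100, nat_lit 93, nat_lit 97, nat_lit 41194313⟩]⟩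
noncomputable def p065_l113 : Lf2 := ⟨nat_lit 0, nat_lit 15, [nat_lit 30, nat_lit 5, nat_lit 5, nat_lit 20], false, nat_lit 0, nat_lit 336, nat_lit 0, nat_lit 160, ⟨nat_lit 1000, nat_lit 0, nat_lit 0, nat_lit 0, nat_lit 0, nat_lit 0, nat_lit 0, nat_lit 0, nat_lit 0, nat_lit 0, nat_lit 0, nat_lit 0, nat_lit 0, nat_lit 0, nat_lit 0, nat_lit 0, false, false⟩,
 nat_lit 0, nat_lit 10951, nat_lit 0, nat_lit 0, nat_lit 6968, nat_lit 7179, nat_lit 564, nat_lit 0, nat_lit 0, nat_lit 1034, nat_lit 0, nat_lit 0, nat_lit 0, nat_lit 0, nat_lit 0, nat_lit 0, nat_lit 0, nat_lit 0, [],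
 ⟨p065_k9, nat_lit 0, nat_lit 0, nat_lit 307, nat_lit 0, nat_lit 192448, [nat_lit 3282000000, nat_lit 6250000000, nat_lit 9842000000], [], [nat_lit 30222443748, nat_lit 32504428004, nat_lit 39098067844, nat_lit 40769497700, nat_lit 30687051876, nat_lit 31893675051, nat_lit 35485335140, nat_lit 36759884308], nat_lit 1271250, nat_lit 1271250, nat_lit 1271250, nat_lit 1271250, nat_lit 0, nat_lit 2373000, [nat_lit 780000, nat_lit 1435000, nat_lit 1271250], [nat_lit 8, nat_lit 40, nat_lit 40, nat_lit 80, nat_lit 1, nat_lit 428, nat_lit 200, nat_lit 12]⟩, ⟨p065_k10, nat_lit 0, nat_lit 0, nat_lit 251, nat_lit 0, nat_lit 0, [nat_lit 4688000000, nat_lit 7968000000, nat_lit 11872000000], [], [nat_lit 27632667844, nat_lit 29834040712, nat_lit 38662420344, nat_lit 39755980600, nat_lit 22773144764, nat_lit 24317658188, nat_lit 31885676588, nat_lit 33165423264], nat_lit 0, nat_lit 0, nat_lit 0, nat_lit 0, nat_lit 0, nat_lit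 0, [], [nat_lit 21, nat_lit 40, nat_lit 40, nat_lit 80, nat_lit 14, nat_lit 456, nat_lit 225, nat_lit 11]⟩,
 zbF0, [⟨nat_lit 16, nat_lit 100, nat_lit 100, nat_lit 100, nat_lit 108046034⟩, ⟨nat_lit 21, nat_lit 83, nat_lit 100, nat_lit 83, nat_lit 31466440⟩]⟩
noncomputable def p065_l114 : Lf2 := ⟨nat_lit 0, nat_lit 15, [nat_lit 30, nat_lit 5, nat_lit 5, nat_lit 20], false, nat_lit 0, nat_lit 336, nat_lit 160, nat_lit 364, ⟨nat_lit 1000, nat_lit 0, nat_lit 0, nat_lit 0, nat_lit 0, nat_lit 0, nat_lit 0, nat_lit 0, nat_lit 0, nat_lit 0, nat_lit 0, nat_lit 0, nat_lit 0, nat_lit 0, nat_lit 0, nat_lit 0, false, false⟩,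
 nat_lit 0, nat_lit 12073, nat_lit 0, nat_lit 2654, nat_lit 7682, nat_lit 5779, nat_lit 482, nat_lit 0, nat_lit 0, nat_lit 0, nat_lit 0, nat_lit 0, nat_lit 0, nat_lit 0, nat_lit 0, nat_lit 0, nat_lit 0, nat_lit 0, [],
 ⟨p065_k9, nat_lit 0, nat_lit 0, nat_lit 307, nat_lit 0, nat_lit 192448, [nat_lit 3282000000, nat_lit 6250000000, nat_lit 9842000000], [], [nat_lit 30046079402, nat_lit 32446938946, nat_lit 40363892106, nat_lit 42766289592, nat_lit 29867584874, nat_lit 31105553220, nat_lit 36232901487, nat_lit 37644309253], nat_lit 1271250, nat_lit 1271250, nat_lit 1271250, nat_lit 1271250, nat_lit 0, nat_lit 2373000, [nat_lit 780000, nat_lit 1435000, nat_lit 1271250], [nat_lit 8, nat_lit 40, nat_lit 40, nat_lit 80, nat_lit 1, nat_lit 428, nat_lit 200, nat_lit 12]⟩, ⟨p065_k10, nat_lit 0, nat_lit 0, nat_lit 101, nat_lit 0, nat_lit 0, [nat_lit 4688000000, nat_lit 7968000000, nat_lit 11872000000], [], [nat_lit 15559906096,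 nat_lit 18158722980, nat_lit 27666739900, nat_lit 29124520076, nat_lit 26499341760, nat_lit 27939388613, nat_lit 34470106054, nat_lit 35342987873], nat_lit 0, nat_lit 0, nat_lit 0, nat_lit 0, nat_lit 0, nat_lit 0, [], [nat_lit 21, nat_lit 40, nat_lit 40, nat_lit 80, nat_lit 14, nat_lit 538, nat_lit 300, nat_lit 13]⟩,
 zbF0, [⟨nat_lit 4, nat_lit 100, nat_lit 100, nat_lit 100, nat_lit 113154559⟩, ⟨nat_lit 7, nat_lit 77, nat_lit 100, nat_lit 91, nat_lit 425995498⟩]⟩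
noncomputable def p065_l115 : Lf2 := ⟨nat_lit 0, nat_lit 15, [nat_lit 30, nat_lit 5, nat_lit 5, nat_lit 20], false, nat_lit 0, nat_lit 336, nat_lit 0, nat_lit 364, ⟨nat_lit 0, nat_lit 1000, nat_lit 0, nat_lit 6, nat_lit 139, nat_lit 1000, nat_lit 127, nat_lit 0, nat_lit 0, nat_lit 0, nat_lit 0, nat_lit 0, nat_lit 0, nat_lit 0, nat_lit 0, nat_lit 5000000, false, false⟩,
 nat_lit 0, nat_lit 10198, nat_lit 0, nat_lit 11440, nat_lit 6489, nat_lit 0, nat_lit 0, nat_lit 0, nat_lit 0, nat_lit 0, nat_lit 0, nat_lit 0, nat_lit 0, nat_lit 0, nat_lit 0, nat_lit 400000, nat_lit 0, nat_lit 0, [(nat_lit 13, [(nat_lit 1, nat_lit 1000)]), (nat_lit 16, [(nat_lit 1, nat_lit 1000)])],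
 ⟨p065_k9, nat_lit 0, nat_lit 0, nat_lit 323, nat_lit 0, nat_lit 114466, [nat_lit 2067066667, nat_lit 2724133334, nat_lit 2641466666], [], [nat_lit 23516019804, nat_lit 27409885409, nat_lit 21155879166, nat_lit 24726378074, nat_lit 27653682364, nat_lit 29744334146, nat_lit 30892043283, nat_lit 27126903738], nat_lit 1271250, nat_lit 1271250, nat_lit 205650, nat_lit 780000, nat_lit 0, nat_lit 2373000, [nat_lit 780000, nat_lit 1435000, nat_lit 1271250], [nat_lit 8, nat_lit 40, nat_lit 40, nat_lit 80, nat_lit 1, nat_lit 345, nat_lit 125, nat_lit 10]⟩, ⟨p065_k10, nat_lit 0, nat_lit 0, nat_lit 395, nat_lit 0, nat_lit 145566, [nat_lit 0, nat_lit 0, nat_lit 0], [], [nat_lit 0, nat_lit 0, nat_lit 0, nat_lit 0, nat_lit 0, nat_lit 0, nat_lit 0, nat_lit 0], nat_lit 1271250, nat_lit 1271250, nat_lit 205650, nat_lit 780000, nat_lit 0, nat_lit 2570750, [nat_lit 1100000, nat_lit 1785000, nat_lit 1271250], [nat_lit 21, nat_lit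 40, nat_lit 40, nat_lit 80, nat_lit 14, nat_lit 428, nat_lit 200, nat_lit 11]⟩,
 ⟨nat_lit 4472, nat_lit 5478, ⟨.ofNat (nat_lit 235487), .ofNat (nat_lit 392815), .ofNat (nat_lit 278138), .ofNat (nat_lit 435455), .ofNat (nat_lit 264421), .ofNat (nat_lit 407143), .ofNat (nat_lit 307491), .ofNat (nat_lit 450202)⟩, ⟨.negSucc (nat_lit 2834), .ofNat (nat_lit 626629), .ofNat (nat_lit 0), .ofNat (nat_lit 669343), .ofNat (nat_lit 0), .ofNat (nat_lit 601725), .ofNat (nat_lit 0), .ofNat (nat_lit 644858)⟩⟩, [⟨nat_lit 0, nat_lit 100, nat_lit 91, nat_lit 77, nat_lit 151838574⟩, ⟨nat_lit 4, nat_lit 100, nat_lit 100, nat_lit 100, nat_lit 102775329⟩]⟩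
noncomputable def p065_l116 : Lf2 := ⟨nat_lit 1, nat_lit 15, [nat_lit 30, nat_lit 5, nat_lit 5, nat_lit 20], false, nat_lit 0, nat_lit 336, nat_lit 0, nat_lit 364, zbN0,
 nat_lit 0, nat_lit 0, nat_lit 0, nat_lit 0, nat_lit 0, nat_lit 0, nat_lit 0, nat_lit 0, nat_lit 0, nat_lit 0, nat_lit 0, nat_lit 0, nat_lit 0, nat_lit 0, nat_lit 0, nat_lit 0, nat_lit 0, nat_lit 0, [],
 C1.Rw.none, C1.Rw.none,
 zbF0, []⟩
noncomputable def p065_l117 : Lf2 := ⟨nat_lit 0, nat_lit 15, [nat_lit 30, nat_lit 5, nat_lit 5, nat_lit 20], true, nat_lit 0, nat_lit 320, nat_lit 0, nat_lit 364, ⟨nat_lit 0, nat_lit 1000, nat_lit 0, nat_lit 6, nat_lit 212, nat_lit 1000, nat_lit 120, nat_lit 0, nat_lit 0, nat_lit 0, nat_lit 0, nat_lit 0, nat_lit 0, nat_lit 0, nat_lit 0, nat_lit 5000000, false, false⟩,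
 nat_lit 0, nat_lit 10460, nat_lit 0, nat_lit 0, nat_lit 7241, nat_lit 0, nat_lit 0, nat_lit 0, nat_lit 0, nat_lit 0, nat_lit 0, nat_lit 0, nat_lit 0, nat_lit 0, nat_lit 0, nat_lit 250000, nat_lit 0, nat_lit 0, [(nat_lit 16, [(nat_lit 0, nat_lit 1000)])],
 ⟨p065_k11, nat_lit 0, nat_lit 0, nat_lit 293, nat_lit 0, nat_lit 170737, [nat_lit 2335200000, nat_lit 2745733334, nat_lit 3400666666], [], [nat_lit 32286478916, nat_lit 28457887058, nat_lit 26776580820, nat_lit 28276366714, nat_lit 25553859122, nat_lit 26619822666, nat_lit 30352101562, nat_lit 27509975408], nat_lit 1271250, nat_lit 1271250, nat_lit 780000, nat_lit 1762500, nat_lit 0, nat_lit 2260000, [nat_lit 780000, nat_lit 1435000, nat_lit 1271250], [nat_lit 8, nat_lit 40, nat_lit 40, nat_lit 80, nat_lit 1, nat_lit 373, nat_lit 150, nat_lit 11]⟩, C1.Rw.none,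
 ⟨nat_lit 4472, nat_lit 5000, ⟨.ofNat (nat_lit 399984), .ofNat (nat_lit 614256), .ofNat (nat_lit 442816), .ofNat (nat_lit 657088), .ofNat (nat_lit 407160), .ofNat (nat_lit 611081), .ofNat (nat_lit 450269), .ofNat (nat_lit 654189)⟩, ⟨.ofNat (nat_lit 0), .ofNat (nat_lit 585713), .ofNat (nat_lit 0), .ofNat (nat_lit 628570), .ofNat (nat_lit 0), .ofNat (nat_lit 574534), .ofNat (nat_lit 0), .ofNat (nat_lit 617667)⟩⟩, [⟨nat_lit 4, nat_lit 100, nat_lit 93, nat_lit 97, nat_lit 41194313⟩]⟩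
noncomputable def p065_l118 : Lf2 := ⟨nat_lit 0, nat_lit 15, [nat_lit 30, nat_lit 5, nat_lit 5, nat_lit 20], false, nat_lit 0, nat_lit 160, nat_lit 0, nat_lit 364, ⟨nat_lit 604, nat_lit 396, nat_lit 0, nat_lit 6, nat_lit 311, nat_lit 396, nat_lit 64, nat_lit 0, nat_lit 0, nat_lit 0, nat_lit 0, nat_lit 0, nat_lit 0, nat_lit 0, nat_lit 0, nat_lit 5000000, true, true⟩,
 nat_lit 9901, nat_lit 0, nat_lit 0, nat_lit 0, nat_lit 6300, nat_lit 5241, nat_lit 212, nat_lit 0, nat_lit 0, nat_lit 510, nat_lit 0, nat_lit 0, nat_lit 0, nat_lit 0, nat_lit 0, nat_lit 396000, nat_lit 0, nat_lit 0, [(nat_lit 13, [(nat_lit 2, nat_lit 396)]), (nat_lit 16, [(nat_lit 2, nat_lit 396)])],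
 ⟨p065_k9, nat_lit 0, nat_lit 0, nat_lit 284, nat_lit 0, nat_lit 114466, [nat_lit 2907067201, nat_lit 4555806400, nat_lit 5485123200], [], [nat_lit 27078824900, nat_lit 29249592500, nat_lit 36503592800, nat_lit 38899790800, nat_lit 23544517700, nat_lit 25364998900, nat_lit 30666820900, nat_lit 32062076900], nat_lit 1271250, nat_lit 1271250, nat_lit 1271250, nat_lit 1271250, nat_lit 0, nat_lit 1100001, [nat_lit 780000, nat_lit 1435000, nat_lit 1271250], [nat_lit 8, nat_lit 40, nat_lit 40, nat_lit 80, nat_lit 1, nat_lit 373, nat_lit 150, nat_lit 10]⟩, ⟨p065_k10, nat_lit 0, nat_lit 0, nat_lit 339, nat_lit 0, nat_lit 145566, [nat_lit 2831552000, nat_lit 4812672000, nat_lit 7170688000], [], [nat_lit 19431492684, nat_lit 20420871512, nat_lit 25120647176, nat_lit 25805107304, nat_lit 19964081004, nat_lit 19227539820, nat_lit 23097559356, nat_lit 23603769265], nat_lit 1271250, nat_lit 1271250, nat_lit 1271250, nat_lit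 1271250, nat_lit 0, nat_lit 2570750, [nat_lit 1100000, nat_lit 1785000, nat_lit 1271250], [nat_lit 21, nat_lit 40, nat_lit 40, nat_lit 80, nat_lit 14, nat_lit 538, nat_lit 300, nat_lit 13]⟩,
 ⟨nat_lit 4472, nat_lit 5478, ⟨.ofNat (nat_lit 617523), .ofNat (nat_lit 917115), .ofNat (nat_lit 660148), .ofNat (nat_lit 959740), .ofNat (nat_lit 610987), .ofNat (nat_lit 882759), .ofNat (nat_lit 654031), .ofNat (nat_lit 925804)⟩, ⟨.negSucc (nat_lit 2834), .ofNat (nat_lit 296923), .ofNat (nat_lit 0), .ofNat (nat_lit 339637), .ofNat (nat_lit 0), .ofNat (nat_lit 302621), .ofNat (nat_lit 0), .ofNat (nat_lit 345754)⟩⟩, [⟨nat_lit 7, nat_lit 77, nat_lit 100, nat_lit 91, nat_lit 336098⟩, ⟨nat_lit 22, nat_lit 83, nat_lit 100, nat_lit 83, nat_lit 127878997⟩]⟩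
noncomputable def p065_l119 : Lf2 := ⟨nat_lit 1, nat_lit 15, [nat_lit 30, nat_lit 5, nat_lit 5, nat_lit 20], false, nat_lit 160, nat_lit 336, nat_lit 0, nat_lit 364, zbN0,
 nat_lit 0, nat_lit 0, nat_lit 0, nat_lit 0, nat_lit 0, nat_lit 0, nat_lit 0, nat_lit 0, nat_lit 0, nat_lit 0, nat_lit 0, nat_lit 0, nat_lit 0, nat_lit 0, nat_lit 0, nat_lit 0, nat_lit 0, nat_lit 0, [],
 C1.Rw.none, C1.Rw.none,
 zbF0, []⟩
noncomputable def p065_l120 : Lf2 := ⟨nat_lit 0, nat_lit 15, [nat_lit 30, nat_lit 5, nat_lit 5, nat_lit 20], false, nat_lit 160, nat_lit 320, nat_lit 0, nat_lit 364, ⟨nat_lit 827, nat_lit 173, nat_lit 0, nat_lit 6, nat_lit 309, nat_lit 173, nat_lit 185, nat_lit 0, nat_lit 0, nat_lit 0, nat_lit 0, nat_lit 0, nat_lit 0, nat_lit 0, nat_lit 0, nat_lit 5000000, true, true⟩,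
 nat_lit 13840, nat_lit 0, nat_lit 0, nat_lit 3639, nat_lit 5342, nat_lit 7327, nat_lit 820, nat_lit 0, nat_lit 0, nat_lit 380, nat_lit 0, nat_lit 0, nat_lit 0, nat_lit 0, nat_lit 0, nat_lit 43250, nat_lit 0, nat_lit 0, [(nat_lit 16, [(nat_lit 0, nat_lit 173)])],
 ⟨p065_k11, nat_lit 0, nat_lit 0, nat_lit 158, nat_lit 0, nat_lit 102806, [nat_lit 3118203600, nat_lit 5643761867, nat_lit 8724696800], [], [nat_lit 22087927964, nat_lit 23058147840, nat_lit 29811936879, nat_lit 30610212503, nat_lit 26477637396, nat_lit 27228306288, nat_lit 33382893352, nat_lit 34061977904], nat_lit 1271250, nat_lit 1271250, nat_lit 1271250, nat_lit 1271250, nat_lit 1100001, nat_lit 2470000, [nat_lit 780000, nat_lit 1435000, nat_lit 1271250], [nat_lit 8, nat_lit 40, nat_lit 40, nat_lit 80, nat_lit 1, nat_lit 428, nat_lit 200, nat_lit 11]⟩, ⟨p065_k10, nat_lit 0, nat_lit 0, nat_lit 339, nat_lit 0, nat_lit 145566, [nat_lit 3876976000,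 nat_lit 6589536000, nat_lit 9818144000], [], [nat_lit 28592799364, nat_lit 29958316224, nat_lit 36683737672, nat_lit 37609328460, nat_lit 27705249843, nat_lit 28160450912, nat_lit 32179461110, nat_lit 32513058430], nat_lit 1271250, nat_lit 1271250, nat_lit 1271250, nat_lit 1271250, nat_lit 0, nat_lit 2570750, [nat_lit 1100000, nat_lit 1785000, nat_lit 1271250], [nat_lit 21, nat_lit 40, nat_lit 40, nat_lit 80, nat_lit 14, nat_lit 538, nat_lit 300, nat_lit 13]⟩,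
 ⟨nat_lit 4472, nat_lit 5000, ⟨.ofNat (nat_lit 614256), .ofNat (nat_lit 899951), .ofNat (nat_lit 657088), .ofNat (nat_lit 942783), .ofNat (nat_lit 611081), .ofNat (nat_lit 882974), .ofNat (nat_lit 654189), .ofNat (nat_lit 926083)⟩, ⟨.ofNat (nat_lit 299999), .ofNat (nat_lit 585713), .ofNat (nat_lit 342856), .ofNat (nat_lit 628570), .ofNat (nat_lit 302621), .ofNat (nat_lit 574534), .ofNat (nat_lit 345754), .ofNat (nat_lit 617667)⟩⟩, [⟨nat_lit 4, nat_lit 100, nat_lit 93, nat_lit 97, nat_lit 342688453⟩, ⟨nat_lit 7, nat_lit 77, nat_lit 100, nat_lit 91, nat_lit 101348820⟩]⟩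
noncomputable def b_V_700_600_20_55 : St := ⟨true, nat_lit 1, nat_lit 2, nat_lit 2, nat_lit 120, nat_lit 280, nat_lit 320, nat_lit 240, nat_lit 280, nat_lit 36, nat_lit 400, nat_lit 80, nat_lit 120, nat_lit 0, nat_lit 336, nat_lit 0, nat_lit 364, nat_lit 40, nat_lit 60, nat_lit 0, nat_lit 0, nat_lit 0, nat_lit 0⟩
theorem d_V_700_600_20_55 (h : EB TB.env) : Dead b_V_700_600_20_55 := chkB_sound0 h (T :=
(.st (nat_lit 1)
(.spl (nat_lit 2) (nat_lit 120)
(.spl (nat_lit 0) (nat_lit 300)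
(.leaf p065_l109)
(.trZ (nat_lit 0) (nat_lit 100) (nat_lit 88) (nat_lit 68) (nat_lit 48) (.trX (nat_lit 16) (nat_lit 94) (nat_lit 88) (nat_lit 100) (nat_lit 320) (.leaf p065_l110))))
(.spl (nat_lit 2) (nat_lit 240)
(.spl (nat_lit 0) (nat_lit 300)
(.leaf p065_l111)
(.trX (nat_lit 16) (nat_lit 94) (nat_lit 88) (nat_lit 100) (nat_lit 320) (.leaf p065_l112)))
(.spl (nat_lit 5) (nat_lit 160)
(.leaf p065_l113)
(.leaf p065_l114))))
(.spl (nat_lit 2) (nat_lit 120)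
(.leaf p065_l115)
(.spl (nat_lit 2) (nat_lit 240)
(.spl (nat_lit 0) (nat_lit 300)
(.leaf p065_l116)
(.trX (nat_lit 16) (nat_lit 94) (nat_lit 88) (nat_lit 100) (nat_lit 320) (.leaf p065_l117)))
(.spl (nat_lit 4) (nat_lit 160)
(.leaf p065_l118)
(.spl (nat_lit 0) (nat_lit 300)
(.leaf p065_l119)
(.trX (nat_lit 16) (nat_lit 94) (nat_lit 88) (nat_lit 100) (nat_lit 320) (.leaf p065_l120)))))))) (by decide +kernel)
noncomputable def p065_l121 : Lf2 := ⟨nat_lit 0, nat_lit 10, [nat_lit 0, nat_lit 5, nat_lit 5, nat_lit 20], false, nat_lit 0, nat_lit 160, nat_lit 0, nat_lit 300, ⟨nat_lit 1000, nat_lit 0, nat_lit 0, nat_lit 0, nat_lit 0, nat_lit 0, nat_lit 0, nat_lit 0, nat_lit 0, nat_lit 0, nat_lit 0, nat_lit 0, nat_lit 0, nat_lit 0, nat_lit 0, nat_lit 0, false, false⟩,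
 nat_lit 0, nat_lit 0, nat_lit 0, nat_lit 315, nat_lit 6845, nat_lit 14041, nat_lit 0, nat_lit 0, nat_lit 0, nat_lit 0, nat_lit 0, nat_lit 0, nat_lit 0, nat_lit 0, nat_lit 0, nat_lit 0, nat_lit 0, nat_lit 0, [],
 ⟨p065_k22, nat_lit 0, nat_lit 0, nat_lit 200, nat_lit 0, nat_lit 0, [nat_lit 3282000000, nat_lit 9842000000], [], [nat_lit 29587265456, nat_lit 33525467621, nat_lit 42578205760, nat_lit 44238788000, nat_lit 25015046445, nat_lit 28332022105, nat_lit 36241723480, nat_lit 37672644280], nat_lit 0, nat_lit 0, nat_lit 0, nat_lit 0, nat_lit 0, nat_lit 0, [], [nat_lit 82, nat_lit 40, nat_lit 40, nat_lit 80, nat_lit 63, nat_lit 373, nat_lit 150, nat_lit 11]⟩, ⟨p065_k22, nat_lit 0, nat_lit 0, nat_lit 200, nat_lit 0, nat_lit 0, [nat_lit 3282000000, nat_lit 9842000000], [], [nat_lit 33143563197, nat_lit 39687229716, nat_lit 56758817256, nat_lit 60557219996, nat_lit 29267468775, nat_lit 32892491378, nat_lit 41538359299,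 nat_lit 43635781938], nat_lit 0, nat_lit 0, nat_lit 0, nat_lit 0, nat_lit 0, nat_lit 0, [], [nat_lit 82, nat_lit 40, nat_lit 40, nat_lit 80, nat_lit 63, nat_lit 401, nat_lit 175, nat_lit 12]⟩,
 zbF0, [⟨nat_lit 0, nat_lit 100, nat_lit 100, nat_lit 100, nat_lit 48365009⟩]⟩
noncomputable def p065_l122 : Lf2 := ⟨nat_lit 0, nat_lit 10, [nat_lit 0, nat_lit 5, nat_lit 5, nat_lit 20], false, nat_lit 160, nat_lit 300, nat_lit 0, nat_lit 300, ⟨nat_lit 1000, nat_lit 0, nat_lit 0, nat_lit 0, nat_lit 0, nat_lit 0, nat_lit 0, nat_lit 0, nat_lit 0, nat_lit 0, nat_lit 0, nat_lit 0, nat_lit 0, nat_lit 0, nat_lit 0, nat_lit 0, false, false⟩,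
 nat_lit 0, nat_lit 0, nat_lit 0, nat_lit 12394, nat_lit 6426, nat_lit 6925, nat_lit 0, nat_lit 0, nat_lit 0, nat_lit 1750, nat_lit 0, nat_lit 0, nat_lit 0, nat_lit 6024958283331, nat_lit 0, nat_lit 0, nat_lit 0, nat_lit 0, [],
 ⟨p065_k4, nat_lit 0, nat_lit 0, nat_lit 74, nat_lit 0, nat_lit 0, [nat_lit 3282000000, nat_lit 4688000000, nat_lit 9842000000], [], [nat_lit 13605660335, nat_lit 15482579249, nat_lit 29841863088, nat_lit 30908298016, nat_lit 21822922275, nat_lit 23326012129, nat_lit 33201921814, nat_lit 33963246841], nat_lit 0, nat_lit 0, nat_lit 0, nat_lit 0, nat_lit 0, nat_lit 0, [], [nat_lit 42, nat_lit 40, nat_lit 40, nat_lit 80, nat_lit 13, nat_lit 401, nat_lit 175, nat_lit 11]⟩, ⟨p065_k4, nat_lit 0, nat_lit 0, nat_lit 207, nat_lit 0, nat_lit 0, [nat_lit 3282000000, nat_lit 4688000000, nat_lit 9842000000], [], [nat_lit 20929549811, nat_lit 22887729520, nat_lit 38138977800, nat_lit 39393683050,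 nat_lit 22568368165, nat_lit 23754650050, nat_lit 33748196575, nat_lit 34528353613], nat_lit 0, nat_lit 0, nat_lit 0, nat_lit 0, nat_lit 0, nat_lit 0, [], [nat_lit 42, nat_lit 40, nat_lit 40, nat_lit 80, nat_lit 13, nat_lit 401, nat_lit 175, nat_lit 12]⟩,
 zbF0, [⟨nat_lit 0, nat_lit 100, nat_lit 100, nat_lit 90, nat_lit 97568256⟩, ⟨nat_lit 16, nat_lit 100, nat_lit 95, nat_lit 87, nat_lit 574435544⟩, ⟨nat_lit 19, nat_lit 100, nat_lit 95, nat_lit 87, nat_lit 114385946⟩]⟩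
noncomputable def p065_l123 : Lf2 := ⟨nat_lit 0, nat_lit 10, [nat_lit 0, nat_lit 5, nat_lit 5, nat_lit 20], false, nat_lit 160, nat_lit 280, nat_lit 0, nat_lit 300, ⟨nat_lit 1000, nat_lit 0, nat_lit 0, nat_lit 0, nat_lit 0, nat_lit 0, nat_lit 0, nat_lit 0, nat_lit 0, nat_lit 0, nat_lit 0, nat_lit 0, nat_lit 0, nat_lit 0, nat_lit 0, nat_lit 0, false, false⟩,
 nat_lit 0, nat_lit 0, nat_lit 0, nat_lit 0, nat_lit 6783, nat_lit 13141, nat_lit 0, nat_lit 0, nat_lit 0, nat_lit 258, nat_lit 0, nat_lit 0, nat_lit 0, nat_lit 0, nat_lit 0, nat_lit 0, nat_lit 0, nat_lit 0, [],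
 ⟨p065_k7, nat_lit 0, nat_lit 0, nat_lit 78, nat_lit 0, nat_lit 0, [nat_lit 3282000000, nat_lit 4688000000, nat_lit 7968000000], [], [nat_lit 14630466122, nat_lit 16790922356, nat_lit 31331420128, nat_lit 32424818552, nat_lit 21217366741, nat_lit 23144046928, nat_lit 33683287183, nat_lit 34508038292], nat_lit 0, nat_lit 0, nat_lit 0, nat_lit 0, nat_lit 0, nat_lit 0, [], [nat_lit 36, nat_lit 40, nat_lit 40, nat_lit 80, nat_lit 7, nat_lit 401, nat_lit 175, nat_lit 13]⟩, ⟨p065_k4, nat_lit 0, nat_lit 0, nat_lit 209, nat_lit 0, nat_lit 0, [nat_lit 3282000000, nat_lit 4688000000, nat_lit 9842000000], [], [nat_lit 29829902970, nat_lit 35953016358, nat_lit 54403862856, nat_lit 58039239596, nat_lit 26842529593, nat_lit 30251394899, nat_lit 40553094199, nat_lit 42582585738], nat_lit 0, nat_lit 0, nat_lit 0, nat_lit 0, nat_lit 0, nat_lit 0, [], [nat_lit 42, nat_lit 40, nat_lit 40, nat_lit 80, nat_lit 13, nat_lit 401,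 nat_lit 175, nat_lit 12]⟩,
 zbF0, [⟨nat_lit 16, nat_lit 94, nat_lit 100, nat_lit 87, nat_lit 382418395⟩, ⟨nat_lit 19, nat_lit 100, nat_lit 95, nat_lit 87, nat_lit 13363725⟩]⟩
noncomputable def b_V_700_700_10_0 : St := ⟨true, nat_lit 0, nat_lit 0, nat_lit 1, nat_lit 80, nat_lit 280, nat_lit 320, nat_lit 280, nat_lit 320, nat_lit 64, nat_lit 400, nat_lit 40, nat_lit 80, nat_lit 0, nat_lit 300, nat_lit 0, nat_lit 300, nat_lit 0, nat_lit 40, nat_lit 0, nat_lit 0, nat_lit 0, nat_lit 0⟩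
theorem d_V_700_700_10_0 (h : EB TB.env) : Dead b_V_700_700_10_0 := chkB_sound0 h (T :=
(.spl (nat_lit 4) (nat_lit 160)
(.leaf p065_l121)
(.spl (nat_lit 0) (nat_lit 300)
(.ord (.leaf p065_l122))
(.trZ (nat_lit 0) (nat_lit 100) (nat_lit 94) (nat_lit 88) (nat_lit 80) (.trX (nat_lit 16) (nat_lit 94) (nat_lit 100) (nat_lit 87) (nat_lit 280) (.leaf p065_l123)))))) (by decide +kernel)
noncomputable def p065_l124 : Lf2 := ⟨nat_lit 0, nat_lit 10, [nat_lit 0, nat_lit 5, nat_lit 5, nat_lit 20], false, nat_lit 0, nat_lit 160, nat_lit 0, nat_lit 300, ⟨nat_lit 103, nat_lit 0, nat_lit 897, nat_lit 7, nat_lit 161, nat_lit 660, nat_lit 56, nat_lit 897, nat_lit 25350, nat_lit 254, nat_lit 92033, nat_lit 289, nat_lit 57617477, nat_lit 0, nat_lit 0, nat_lit 2025157, false, false⟩,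
 nat_lit 0, nat_lit 0, nat_lit 1579, nat_lit 0, nat_lit 3505, nat_lit 1004, nat_lit 410, nat_lit 0, nat_lit 0, nat_lit 0, nat_lit 0, nat_lit 0, nat_lit 0, nat_lit 4889416220308, nat_lit 42, nat_lit 358800, nat_lit 0, nat_lit 0, [(nat_lit 12, [(nat_lit 5, nat_lit 897)]), (nat_lit 15, [(nat_lit 5, nat_lit 897)])],
 ⟨p065_k0, nat_lit 0, nat_lit 0, nat_lit 211, nat_lit 0, nat_lit 0, [nat_lit 2021780400, nat_lit 999728801, nat_lit 186186800], [], [nat_lit 14482207554, nat_lit 17211591472, nat_lit 14633650970, nat_lit 17249820601, nat_lit 14391918962, nat_lit 16895749826, nat_lit 14811527301, nat_lit 17160085841], nat_lit 0, nat_lit 0, nat_lit 0, nat_lit 0, nat_lit 0, nat_lit 0, [], [nat_lit 8, nat_lit 40, nat_lit 40, nat_lit 80, nat_lit 1, nat_lit 289, nat_lit 75, nat_lit 9]⟩, ⟨p065_k0, nat_lit 0, nat_lit 0, nat_lit 897, nat_lit 0, nat_lit 1400535, [nat_lit 338046000, nat_lit 643750000, nat_lit 1013726000], [],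 [nat_lit 3415807599, nat_lit 3456760868, nat_lit 3242494032, nat_lit 3279138000, nat_lit 3140250907, nat_lit 3288074625, nat_lit 3349431172, nat_lit 3048594595], nat_lit 1271250, nat_lit 1271250, nat_lit 382400, nat_lit 780000, nat_lit 0, nat_lit 2118750, [nat_lit 780000, nat_lit 1435000, nat_lit 1271250], [nat_lit 8, nat_lit 40, nat_lit 40, nat_lit 80, nat_lit 1, nat_lit 345, nat_lit 125, nat_lit 10]⟩,
 ⟨nat_lit 4472, nat_lit 5478, ⟨.ofNat (nat_lit 330579), .ofNat (nat_lit 435455), .ofNat (nat_lit 351903), .ofNat (nat_lit 456767), .ofNat (nat_lit 355064), .ofNat (nat_lit 450202), .ofNat (nat_lit 376597), .ofNat (nat_lit 471724)⟩, ⟨.negSucc (nat_lit 45522), .ofNat (nat_lit 254209), .negSucc (nat_lit 2834), .ofNat (nat_lit 296923), .negSucc (nat_lit 12423), .ofNat (nat_lit 259489), .ofNat (nat_lit 0), .ofNat (nat_lit 302621)⟩⟩, [⟨nat_lit 0, nat_lit 100, nat_lit 97, nat_lit 94, nat_lit 146584316⟩, ⟨nat_lit 19,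 nat_lit 94, nat_lit 100, nat_lit 75, nat_lit 22492501⟩]⟩
noncomputable def p065_l125 : Lf2 := ⟨nat_lit 0, nat_lit 10, [nat_lit 0, nat_lit 5, nat_lit 5, nat_lit 20], false, nat_lit 0, nat_lit 160, nat_lit 0, nat_lit 300, ⟨nat_lit 167, nat_lit 0, nat_lit 833, nat_lit 7, nat_lit 222, nat_lit 465, nat_lit 55, nat_lit 833, nat_lit 25350, nat_lit 254, nat_lit 70714, nat_lit 200, nat_lit 51252988, nat_lit 0, nat_lit 0, nat_lit 2726414, false, false⟩,
 nat_lit 0, nat_lit 0, nat_lit 1992, nat_lit 0, nat_lit 3905, nat_lit 1267, nat_lit 371, nat_lit 0, nat_lit 0, nat_lit 0, nat_lit 0, nat_lit 0, nat_lit 0, nat_lit 0, nat_lit 22, nat_lit 333200, nat_lit 0, nat_lit 0, [(nat_lit 12, [(nat_lit 5, nat_lit 833)])],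
 ⟨p065_k0, nat_lit 0, nat_lit 0, nat_lit 169, nat_lit 0, nat_lit 0, [nat_lit 1845680400, nat_lit 1038372667, nat_lit 212100000], [], [nat_lit 15353547875, nat_lit 16708080705, nat_lit 18572366675, nat_lit 19673414357, nat_lit 14592549015, nat_lit 15706780037, nat_lit 17827228067, nat_lit 18833302287], nat_lit 0, nat_lit 0, nat_lit 0, nat_lit 0, nat_lit 0, nat_lit 0, [], [nat_lit 8, nat_lit 40, nat_lit 40, nat_lit 80, nat_lit 1, nat_lit 317, nat_lit 100, nat_lit 9]⟩, ⟨p065_k0, nat_lit 0, nat_lit 0, nat_lit 719, nat_lit 0, nat_lit 1070055, [nat_lit 548094000, nat_lit 1043750000, nat_lit 1643614000], [], [nat_lit 6862551284, nat_lit 6530342892, nat_lit 6538524280, nat_lit 6581654285, nat_lit 6070754586, nat_lit 6101650364, nat_lit 6511376732, nat_lit 6229968747], nat_lit 1271250, nat_lit 1271250, nat_lit 780000, nat_lit 1762500, nat_lit 0, nat_lit 2118750, [nat_lit 780000, nat_lit 1435000, nat_lit 1271250], [nat_lit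 8, nat_lit 40, nat_lit 40, nat_lit 80, nat_lit 1, nat_lit 373, nat_lit 150, nat_lit 11]⟩,
 ⟨nat_lit 5000, nat_lit 5478, ⟨.ofNat (nat_lit 435548), .ofNat (nat_lit 660309), .ofNat (nat_lit 446221), .ofNat (nat_lit 670982), .ofNat (nat_lit 442843), .ofNat (nat_lit 657090), .ofNat (nat_lit 453552), .ofNat (nat_lit 667800)⟩, ⟨.negSucc (nat_lit 45522), .ofNat (nat_lit 254209), .negSucc (nat_lit 2832), .ofNat (nat_lit 296923), .negSucc (nat_lit 28572), .ofNat (nat_lit 257141), .ofNat (nat_lit 0), .ofNat (nat_lit 299999)⟩⟩, [⟨nat_lit 7, nat_lit 100, nat_lit 97, nat_lit 76, nat_lit 31207766⟩]⟩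
noncomputable def p065_l126 : Lf2 := ⟨nat_lit 0, nat_lit 10, [nat_lit 0, nat_lit 5, nat_lit 5, nat_lit 20], false, nat_lit 0, nat_lit 160, nat_lit 0, nat_lit 300, ⟨nat_lit 146, nat_lit 170, nat_lit 684, nat_lit 7, nat_lit 223, nat_lit 854, nat_lit 56, nat_lit 684, nat_lit 26667, nat_lit 255, nat_lit 64342, nat_lit 200, nat_lit 51158724, nat_lit 15841276, nat_lit 0, nat_lit 2734688, false, false⟩,
 nat_lit 0, nat_lit 0, nat_lit 1777, nat_lit 0, nat_lit 3429, nat_lit 1130, nat_lit 0, nat_lit 0, nat_lit 0, nat_lit 0, nat_lit 0, nat_lit 0, nat_lit 0, nat_lit 0, nat_lit 52, nat_lit 590600, nat_lit 0, nat_lit 0, [(nat_lit 15, [(nat_lit 1, nat_lit 170), (nat_lit 5, nat_lit 269), (nat_lit 6, nat_lit 415)])],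
 ⟨p065_k1, nat_lit 0, nat_lit 0, nat_lit 145, nat_lit 0, nat_lit 0, [nat_lit 2207094800, nat_lit 1141110934, nat_lit 27142266], [], [nat_lit 16332921332, nat_lit 17601181662, nat_lit 19552677148, nat_lit 20616469920, nat_lit 16293427732, nat_lit 17370296402, nat_lit 19248174330, nat_lit 20202971926], nat_lit 0, nat_lit 0, nat_lit 0, nat_lit 0, nat_lit 0, nat_lit 0, [], [nat_lit 18, nat_lit 40, nat_lit 40, nat_lit 80, nat_lit 2, nat_lit 317, nat_lit 100, nat_lit 10]⟩, ⟨p065_k0, nat_lit 0, nat_lit 0, nat_lit 828, nat_lit 0, nat_lit 1314528, [nat_lit 479172000, nat_lit 912500000, nat_lit 1436932000], [], [nat_lit 6033612952, nat_lit 5949881078, nat_lit 5895438872, nat_lit 5922870744, nat_lit 5442023622, nat_lit 5460738910, nat_lit 5681753672, nat_lit 5430774175], nat_lit 1271250, nat_lit 1271250, nat_lit 780000, nat_lit 1762500, nat_lit 0, nat_lit 2118750, [nat_lit 780000, nat_lit 1435000, nat_lit 1271250], [nat_lit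 8, nat_lit 40, nat_lit 40, nat_lit 80, nat_lit 1, nat_lit 373, nat_lit 150, nat_lit 11]⟩,
 ⟨nat_lit 4472, nat_lit 5000, ⟨.ofNat (nat_lit 442816), .ofNat (nat_lit 657088), .ofNat (nat_lit 453524), .ofNat (nat_lit 667796), .ofNat (nat_lit 450269), .ofNat (nat_lit 654189), .ofNat (nat_lit 461045), .ofNat (nat_lit 664966)⟩, ⟨.negSucc (nat_lit 28572), .ofNat (nat_lit 257141), .ofNat (nat_lit 0), .ofNat (nat_lit 299999), .negSucc (nat_lit 12423), .ofNat (nat_lit 259489), .ofNat (nat_lit 0), .ofNat (nat_lit 302621)⟩⟩, [⟨nat_lit 7, nat_lit 100, nat_lit 97, nat_lit 76, nat_lit 24704304⟩]⟩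
noncomputable def p065_l127 : Lf2 := ⟨nat_lit 0, nat_lit 10, [nat_lit 0, nat_lit 5, nat_lit 5, nat_lit 20], false, nat_lit 0, nat_lit 160, nat_lit 0, nat_lit 292, ⟨nat_lit 185, nat_lit 0, nat_lit 815, nat_lit 7, nat_lit 227, nat_lit 679, nat_lit 56, nat_lit 815, nat_lit 26667, nat_lit 255, nat_lit 88650, nat_lit 200, nat_lit 50717564, nat_lit 0, nat_lit 0, nat_lit 2772687, false, false⟩,
 nat_lit 0, nat_lit 0, nat_lit 1887, nat_lit 0, nat_lit 3641, nat_lit 1253, nat_lit 228, nat_lit 0, nat_lit 0, nat_lit 91, nat_lit 0, nat_lit 0, nat_lit 0, nat_lit 0, nat_lit 0, nat_lit 326000, nat_lit 0, nat_lit 0, [(nat_lit 12, [(nat_lit 5, nat_lit 815)]), (nat_lit 15, [(nat_lit 5, nat_lit 815)])],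
 ⟨p065_k2, nat_lit 0, nat_lit 0, nat_lit 145, nat_lit 0, nat_lit 0, [nat_lit 1679058000, nat_lit 716476000, nat_lit 154715000], [], [nat_lit 15976563729, nat_lit 17932623084, nat_lit 19324805409, nat_lit 20935059288, nat_lit 15841090399, nat_lit 17498442544, nat_lit 18849895542, nat_lit 20316348168], nat_lit 0, nat_lit 0, nat_lit 0, nat_lit 0, nat_lit 0, nat_lit 0, [], [nat_lit 18, nat_lit 40, nat_lit 40, nat_lit 80, nat_lit 2, nat_lit 317, nat_lit 100, nat_lit 10]⟩, ⟨p065_k2, nat_lit 0, nat_lit 0, nat_lit 754, nat_lit 0, nat_lit 1318138, [nat_lit 607170000, nat_lit 1156250000, nat_lit 1474080000], [], [nat_lit 6955658133, nat_lit 6821092780, nat_lit 6817986401, nat_lit 6852092662, nat_lit 6419881916, nat_lit 6444830022, nat_lit 6735951958, nat_lit 6456935359], nat_lit 1271250, nat_lit 1271250, nat_lit 780000, nat_lit 1762500, nat_lit 0, nat_lit 2062250, [nat_lit 780000, nat_lit 1435000, nat_lit 1271250], [nat_lit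 18, nat_lit 40, nat_lit 40, nat_lit 80, nat_lit 2, nat_lit 373, nat_lit 150, nat_lit 12]⟩,
 ⟨nat_lit 4472, nat_lit 5245, ⟨.ofNat (nat_lit 449804), .ofNat (nat_lit 669271), .ofNat (nat_lit 460483), .ofNat (nat_lit 679950), .ofNat (nat_lit 461004), .ofNat (nat_lit 664893), .ofNat (nat_lit 471774), .ofNat (nat_lit 675662)⟩, ⟨.negSucc (nat_lit 36940), .ofNat (nat_lit 255744), .ofNat (nat_lit 0), .ofNat (nat_lit 298515), .negSucc (nat_lit 12423), .ofNat (nat_lit 259489), .ofNat (nat_lit 0), .ofNat (nat_lit 302621)⟩⟩, [⟨nat_lit 7, nat_lit 100, nat_lit 92, nat_lit 75, nat_lit 38407204⟩]⟩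
noncomputable def p065_l128 : Lf2 := ⟨nat_lit 0, nat_lit 10, [nat_lit 0, nat_lit 5, nat_lit 5, nat_lit 20], false, nat_lit 0, nat_lit 160, nat_lit 0, nat_lit 280, ⟨nat_lit 175, nat_lit 0, nat_lit 825, nat_lit 7, nat_lit 224, nat_lit 664, nat_lit 56, nat_lit 825, nat_lit 26667, nat_lit 255, nat_lit 107174, nat_lit 200, nat_lit 50982182, nat_lit 0, nat_lit 0, nat_lit 2750037, false, false⟩,
 nat_lit 0, nat_lit 0, nat_lit 1675, nat_lit 0, nat_lit 3647, nat_lit 1159, nat_lit 0, nat_lit 0, nat_lit 0, nat_lit 157, nat_lit 0, nat_lit 0, nat_lit 0, nat_lit 0, nat_lit 37, nat_lit 415200, nat_lit 0, nat_lit 0, [(nat_lit 15, [(nat_lit 5, nat_lit 683), (nat_lit 6, nat_lit 142)])],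
 ⟨p065_k1, nat_lit 0, nat_lit 0, nat_lit 154, nat_lit 0, nat_lit 0, [nat_lit 2055791601, nat_lit 849692801, nat_lit 64246599], [], [nat_lit 16416582229, nat_lit 17753714828, nat_lit 19785517326, nat_lit 20938342560, nat_lit 16170548172, nat_lit 17303325978, nat_lit 19142560882, nat_lit 20050631352], nat_lit 0, nat_lit 0, nat_lit 0, nat_lit 0, nat_lit 0, nat_lit 0, [], [nat_lit 18, nat_lit 40, nat_lit 40, nat_lit 80, nat_lit 2, nat_lit 317, nat_lit 100, nat_lit 10]⟩, ⟨p065_k1, nat_lit 0, nat_lit 0, nat_lit 765, nat_lit 0, nat_lit 1323298, [nat_lit 574350000, nat_lit 1093750000, nat_lit 1394400000], [], [nat_lit 6640193935, nat_lit 6331414314, nat_lit 5196907805, nat_lit 5238484839, nat_lit 4929717935, nat_lit 4963143569, nat_lit 5497073799, nat_lit 5239347655], nat_lit 1271250, nat_lit 1271250, nat_lit 631250, nat_lit 1751250, nat_lit 0, nat_lit 1977500, [nat_lit 780000, nat_lit 1435000, nat_lit 1271250], [nat_lit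 18, nat_lit 40, nat_lit 40, nat_lit 80, nat_lit 2, nat_lit 373, nat_lit 150, nat_lit 12]⟩,
 ⟨nat_lit 4472, nat_lit 5000, ⟨.ofNat (nat_lit 428520), .ofNat (nat_lit 678503), .ofNat (nat_lit 439228), .ofNat (nat_lit 689212), .ofNat (nat_lit 437835), .ofNat (nat_lit 675743), .ofNat (nat_lit 448613), .ofNat (nat_lit 686520)⟩, ⟨.negSucc (nat_lit 28572), .ofNat (nat_lit 257141), .ofNat (nat_lit 0), .ofNat (nat_lit 299999), .negSucc (nat_lit 12423), .ofNat (nat_lit 259489), .ofNat (nat_lit 0), .ofNat (nat_lit 302621)⟩⟩, [⟨nat_lit 7, nat_lit 100, nat_lit 88, nat_lit 74, nat_lit 9030689⟩]⟩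
noncomputable def p065_l129 : Lf2 := ⟨nat_lit 0, nat_lit 10, [nat_lit 0, nat_lit 5, nat_lit 5, nat_lit 20], false, nat_lit 0, nat_lit 160, nat_lit 0, nat_lit 268, ⟨nat_lit 398, nat_lit 0, nat_lit 602, nat_lit 7, nat_lit 236, nat_lit 602, nat_lit 56, nat_lit 602, nat_lit 28017, nat_lit 256, nat_lit 125966, nat_lit 200, nat_lit 49728159, nat_lit 0, nat_lit 0, nat_lit 2853655, false, false⟩,
 nat_lit 0, nat_lit 0, nat_lit 3401, nat_lit 0, nat_lit 4303, nat_lit 2451, nat_lit 484, nat_lit 0, nat_lit 0, nat_lit 432, nat_lit 0, nat_lit 0, nat_lit 0, nat_lit 0, nat_lit 0, nat_lit 240800, nat_lit 0, nat_lit 0, [(nat_lit 15, [(nat_lit 5, nat_lit 602)])],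
 ⟨p065_k23, nat_lit 0, nat_lit 0, nat_lit 145, nat_lit 0, nat_lit 0, [nat_lit 2097986400, nat_lit 1907412801, nat_lit 1870110799], [], [nat_lit 17068703433, nat_lit 17917773980, nat_lit 21040076243, nat_lit 21906913440, nat_lit 16061135906, nat_lit 16673623485, nat_lit 19111336507, nat_lit 19707555352], nat_lit 0, nat_lit 0, nat_lit 0, nat_lit 0, nat_lit 0, nat_lit 0, [], [nat_lit 18, nat_lit 40, nat_lit 40, nat_lit 80, nat_lit 2, nat_lit 317, nat_lit 100, nat_lit 10]⟩, ⟨p065_k23, nat_lit 0, nat_lit 0, nat_lit 758, nat_lit 0, nat_lit 1329536, [nat_lit 1306236000, nat_lit 2487500000, nat_lit 3171264000], [], [nat_lit 12317617359, nat_lit 11669648940, nat_lit 11387882435, nat_lit 11495215980, nat_lit 10782316983, nat_lit 10869919097, nat_lit 12101011080, nat_lit 11564803972], nat_lit 1271250, nat_lit 1271250, nat_lit 780000, nat_lit 1762500, nat_lit 0, nat_lit 1892750, [nat_lit 780000, nat_lit 1435000, nat_lit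 1271250], [nat_lit 18, nat_lit 40, nat_lit 40, nat_lit 80, nat_lit 2, nat_lit 373, nat_lit 150, nat_lit 12]⟩,
 ⟨nat_lit 4472, nat_lit 4744, ⟨.ofNat (nat_lit 478767), .ofNat (nat_lit 687865), .ofNat (nat_lit 489510), .ofNat (nat_lit 698608), .ofNat (nat_lit 482641), .ofNat (nat_lit 686574), .ofNat (nat_lit 493423), .ofNat (nat_lit 697356)⟩, ⟨.negSucc (nat_lit 20404), .ofNat (nat_lit 258394), .ofNat (nat_lit 0), .ofNat (nat_lit 301370), .negSucc (nat_lit 12423), .ofNat (nat_lit 259489), .ofNat (nat_lit 0), .ofNat (nat_lit 302621)⟩⟩, [⟨nat_lit 0, nat_lit 83, nat_lit 83, nat_lit 100, nat_lit 36976108⟩, ⟨nat_lit 7, nat_lit 100, nat_lit 83, nat_lit 73, nat_lit 88421090⟩]⟩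
noncomputable def p065_l130 : Lf2 := ⟨nat_lit 0, nat_lit 10, [nat_lit 0, nat_lit 5, nat_lit 5, nat_lit 20], true, nat_lit 160, nat_lit 240, nat_lit 0, nat_lit 300, ⟨nat_lit 0, nat_lit 341, nat_lit 659, nat_lit 7, nat_lit 166, nat_lit 1000, nat_lit 140, nat_lit 659, nat_lit 183750, nat_lit 320, nat_lit 45717, nat_lit 267, nat_lit 49628581, nat_lit 9823710, nat_lit 7547709, nat_lit 4012959, false, false⟩,
 nat_lit 0, nat_lit 0, nat_lit 0, nat_lit 0, nat_lit 4753, nat_lit 0, nat_lit 0, nat_lit 0, nat_lit 0, nat_lit 0, nat_lit 0, nat_lit 0, nat_lit 0, nat_lit 5867702830470, nat_lit 0, nat_lit 250000, nat_lit 0, nat_lit 0, [(nat_lit 12, [(nat_lit 0, nat_lit 1000)]), (nat_lit 15, [(nat_lit 0, nat_lit 1000)])],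
 ⟨p065_k0, nat_lit 0, nat_lit 0, nat_lit 55, nat_lit 0, nat_lit 0, [nat_lit 2364000000, nat_lit 2954000000, nat_lit 3510800000], [], [nat_lit 11827515153, nat_lit 15997641439, nat_lit 11984742176, nat_lit 15621132884, nat_lit 15898389568, nat_lit 19439281587, nat_lit 15622183552, nat_lit 18927301240], nat_lit 0, nat_lit 0, nat_lit 0, nat_lit 0, nat_lit 0, nat_lit 0, [], [nat_lit 8, nat_lit 40, nat_lit 40, nat_lit 80, nat_lit 1, nat_lit 317, nat_lit 100, nat_lit 9]⟩, C1.Rw.none,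
 ⟨nat_lit 4472, nat_lit 5478, ⟨.ofNat (nat_lit 330579), .ofNat (nat_lit 435455), .ofNat (nat_lit 373223), .ofNat (nat_lit 478080), .ofNat (nat_lit 355064), .ofNat (nat_lit 450202), .ofNat (nat_lit 398126), .ofNat (nat_lit 493246)⟩, ⟨.ofNat (nat_lit 254209), .ofNat (nat_lit 404075), .ofNat (nat_lit 296923), .ofNat (nat_lit 446789), .ofNat (nat_lit 259489), .ofNat (nat_lit 395445), .ofNat (nat_lit 302621), .ofNat (nat_lit 438578)⟩⟩, [⟨nat_lit 0, nat_lit 100, nat_lit 100, nat_lit 100, nat_lit 133948435⟩]⟩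
noncomputable def p065_l131 : Lf2 := ⟨nat_lit 0, nat_lit 10, [nat_lit 0, nat_lit 5, nat_lit 5, nat_lit 20], false, nat_lit 240, nat_lit 280, nat_lit 0, nat_lit 300, ⟨nat_lit 60, nat_lit 940, nat_lit 0, nat_lit 7, nat_lit 156, nat_lit 940, nat_lit 185, nat_lit 0, nat_lit 0, nat_lit 0, nat_lit 0, nat_lit 0, nat_lit 46827141, nat_lit 8779992, nat_lit 11392867, nat_lit 4389391, false, false⟩,
 nat_lit 0, nat_lit 0, nat_lit 1049, nat_lit 18, nat_lit 4313, nat_lit 667, nat_lit 0, nat_lit 0, nat_lit 0, nat_lit 44, nat_lit 0, nat_lit 0, nat_lit 0, nat_lit 6629494640348, nat_lit 0, nat_lit 235000, nat_lit 0, nat_lit 0, [(nat_lit 12, [(nat_lit 0, nat_lit 940)])],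
 ⟨p065_k0, nat_lit 0, nat_lit 0, nat_lit 54, nat_lit 0, nat_lit 0, [nat_lit 2419080000, nat_lit 3151760000, nat_lit 3885992000], [], [nat_lit 16094551987, nat_lit 16850785121, nat_lit 16157222592, nat_lit 16865949097, nat_lit 18686564916, nat_lit 19417509616, nat_lit 18592627992, nat_lit 19234671642], nat_lit 0, nat_lit 0, nat_lit 0, nat_lit 0, nat_lit 0, nat_lit 0, [], [nat_lit 8, nat_lit 40, nat_lit 40, nat_lit 80, nat_lit 1, nat_lit 317, nat_lit 100, nat_lit 8]⟩, ⟨p065_k0, nat_lit 0, nat_lit 0, nat_lit 705, nat_lit 0, nat_lit 958620, [nat_lit 196920000, nat_lit 375000000, nat_lit 590520000], [], [nat_lit 1863074797, nat_lit 1702710863, nat_lit 1461154760, nat_lit 1537853261, nat_lit 1531979899, nat_lit 1571125180, nat_lit 1844745048, nat_lit 1696600513], nat_lit 1271250, nat_lit 1271250, nat_lit 382400, nat_lit 780000, nat_lit 0, nat_lit 2118750, [nat_lit 780000, nat_lit 1435000, nat_lit 1271250], [nat_lit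 8, nat_lit 40, nat_lit 40, nat_lit 80, nat_lit 1, nat_lit 345, nat_lit 125, nat_lit 10]⟩,
 ⟨nat_lit 5244, nat_lit 5478, ⟨.ofNat (nat_lit 330654), .ofNat (nat_lit 435559), .ofNat (nat_lit 341333), .ofNat (nat_lit 446237), .ofNat (nat_lit 336758), .ofNat (nat_lit 439196), .ofNat (nat_lit 347451), .ofNat (nat_lit 449888)⟩, ⟨.ofNat (nat_lit 404075), .ofNat (nat_lit 479008), .ofNat (nat_lit 446789), .ofNat (nat_lit 521722), .ofNat (nat_lit 402086), .ofNat (nat_lit 475257), .ofNat (nat_lit 444857), .ofNat (nat_lit 518028)⟩⟩, [⟨nat_lit 0, nat_lit 100, nat_lit 100, nat_lit 85, nat_lit 134143065⟩, ⟨nat_lit 4, nat_lit 100, nat_lit 97, nat_lit 76, nat_lit 17517794⟩, ⟨nat_lit 7, nat_lit 100, nat_lit 97, nat_lit 76, nat_lit 6958040⟩]⟩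
noncomputable def p065_l132 : Lf2 := ⟨nat_lit 0, nat_lit 10, [nat_lit 0, nat_lit 5, nat_lit 5, nat_lit 20], true, nat_lit 240, nat_lit 280, nat_lit 0, nat_lit 300, ⟨nat_lit 0, nat_lit 1000, nat_lit 0, nat_lit 7, nat_lit 163, nat_lit 1000, nat_lit 183, nat_lit 0, nat_lit 0, nat_lit 0, nat_lit 0, nat_lit 0, nat_lit 46403472, nat_lit 9361928, nat_lit 11234600, nat_lit 4450720, false, false⟩,
 nat_lit 0, nat_lit 0, nat_lit 0, nat_lit 199, nat_lit 4265, nat_lit 0, nat_lit 0, nat_lit 0, nat_lit 0, nat_lit 0, nat_lit 0, nat_lit 0, nat_lit 0, nat_lit 6429343466779, nat_lit 0, nat_lit 250000, nat_lit 0, nat_lit 0, [(nat_lit 12, [(nat_lit 0, nat_lit 1000)])],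
 ⟨p065_k2, nat_lit 0, nat_lit 0, nat_lit 55, nat_lit 0, nat_lit 0, [nat_lit 2364000000, nat_lit 2875200000, nat_lit 3241600000], [], [nat_lit 16736947273, nat_lit 17483096129, nat_lit 16859177785, nat_lit 17563853810, nat_lit 19225656642, nat_lit 19970585082, nat_lit 19215806010, nat_lit 19854367260], nat_lit 0, nat_lit 0, nat_lit 0, nat_lit 0, nat_lit 0, nat_lit 0, [], [nat_lit 18, nat_lit 40, nat_lit 40, nat_lit 80, nat_lit 2, nat_lit 238, nat_lit 30, nat_lit 7]⟩, C1.Rw.none,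
 ⟨nat_lit 5000, nat_lit 5245, ⟨.ofNat (nat_lit 351391), .ofNat (nat_lit 439194), .ofNat (nat_lit 372775), .ofNat (nat_lit 460577), .ofNat (nat_lit 357140), .ofNat (nat_lit 442852), .ofNat (nat_lit 378567), .ofNat (nat_lit 464278)⟩, ⟨.ofNat (nat_lit 402086), .ofNat (nat_lit 475257), .ofNat (nat_lit 444857), .ofNat (nat_lit 518028), .ofNat (nat_lit 399998), .ofNat (nat_lit 471427), .ofNat (nat_lit 442856), .ofNat (nat_lit 514284)⟩⟩, [⟨nat_lit 0, nat_lit 100, nat_lit 99, nat_lit 92, nat_lit 118655874⟩]⟩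
noncomputable def p065_l133 : Lf2 := ⟨nat_lit 0, nat_lit 10, [nat_lit 0, nat_lit 5, nat_lit 5, nat_lit 20], false, nat_lit 280, nat_lit 300, nat_lit 0, nat_lit 292, ⟨nat_lit 160, nat_lit 840, nat_lit 0, nat_lit 7, nat_lit 142, nat_lit 840, nat_lit 210, nat_lit 0, nat_lit 0, nat_lit 0, nat_lit 0, nat_lit 0, nat_lit 45680161, nat_lit 7466989, nat_lit 13852850, nat_lit 4455365, false, false⟩,
 nat_lit 0, nat_lit 0, nat_lit 2906, nat_lit 0, nat_lit 4299, nat_lit 1849, nat_lit 0, nat_lit 0, nat_lit 0, nat_lit 132, nat_lit 0, nat_lit 0, nat_lit 0, nat_lit 12598255695475, nat_lit 0, nat_lit 210000, nat_lit 0, nat_lit 0, [(nat_lit 12, [(nat_lit 0, nat_lit 840)])],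
 ⟨p065_k0, nat_lit 0, nat_lit 0, nat_lit 71, nat_lit 0, nat_lit 0, [nat_lit 2510880000, nat_lit 3481360000, nat_lit 4511312000], [], [nat_lit 18785835579, nat_lit 20162025919, nat_lit 18677469671, nat_lit 20032554448, nat_lit 20079818285, nat_lit 21501674201, nat_lit 19962329813, nat_lit 21323683130], nat_lit 0, nat_lit 0, nat_lit 0, nat_lit 0, nat_lit 0, nat_lit 0, [], [nat_lit 8, nat_lit 40, nat_lit 40, nat_lit 80, nat_lit 1, nat_lit 226, nat_lit 20, nat_lit 6]⟩, ⟨p065_k0, nat_lit 0, nat_lit 0, nat_lit 476, nat_lit 0, nat_lit 502366, [nat_lit 525120000, nat_lit 1000000000, nat_lit 1574720000], [], [nat_lit 4957046730, nat_lit 4713627360, nat_lit 4571879321, nat_lit 4601766093, nat_lit 3856136134, nat_lit 4281011122, nat_lit 3945623884, nat_lit 4166794691], nat_lit 1271250, nat_lit 1271250, nat_lit 382400, nat_lit 435600, nat_lit 0, nat_lit 2062250, [nat_lit 780000, nat_lit 1435000, nat_lit 1271250], [nat_lit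 8, nat_lit 40, nat_lit 40, nat_lit 80, nat_lit 1, nat_lit 317, nat_lit 100, nat_lit 9]⟩,
 ⟨nat_lit 5000, nat_lit 5478, ⟨.ofNat (nat_lit 330654), .ofNat (nat_lit 345639), .ofNat (nat_lit 352005), .ofNat (nat_lit 366989), .ofNat (nat_lit 342856), .ofNat (nat_lit 357140), .ofNat (nat_lit 364277), .ofNat (nat_lit 378561)⟩, ⟨.ofNat (nat_lit 500365), .ofNat (nat_lit 537832), .ofNat (nat_lit 521722), .ofNat (nat_lit 559189), .ofNat (nat_lit 492856), .ofNat (nat_lit 528570), .ofNat (nat_lit 514284), .ofNat (nat_lit 549998)⟩⟩, [⟨nat_lit 0, nat_lit 100, nat_lit 100, nat_lit 80, nat_lit 184375549⟩, ⟨nat_lit 16, nat_lit 100, nat_lit 95, nat_lit 87, nat_lit 355977368⟩, ⟨nat_lit 23, nat_lit 96, nat_lit 100, nat_lit 81, nat_lit 12395695⟩]⟩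
noncomputable def p065_l134 : Lf2 := ⟨nat_lit 0, nat_lit 10, [nat_lit 0, nat_lit 5, nat_lit 5, nat_lit 20], false, nat_lit 280, nat_lit 300, nat_lit 0, nat_lit 300, ⟨nat_lit 140, nat_lit 860, nat_lit 0, nat_lit 7, nat_lit 148, nat_lit 860, nat_lit 210, nat_lit 0, nat_lit 0, nat_lit 0, nat_lit 0, nat_lit 0, nat_lit 45290167, nat_lit 7916744, nat_lit 13793089, nat_lit 4517823, false, false⟩,
 nat_lit 0, nat_lit 0, nat_lit 2636, nat_lit 0, nat_lit 4329, nat_lit 1677, nat_lit 0, nat_lit 0, nat_lit 0, nat_lit 99, nat_lit 0, nat_lit 0, nat_lit 0, nat_lit 12252292664559, nat_lit 0, nat_lit 215000, nat_lit 0, nat_lit 0, [(nat_lit 12, [(nat_lit 0, nat_lit 860)])],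
 ⟨p065_k0, nat_lit 0, nat_lit 0, nat_lit 66, nat_lit 0, nat_lit 0, [nat_lit 2492520000, nat_lit 3415440000, nat_lit 4386248000], [], [nat_lit 18641289959, nat_lit 20011212206, nat_lit 18531112902, nat_lit 19881022116, nat_lit 19930444229, nat_lit 21347167454, nat_lit 19811102111, nat_lit 21166933318], nat_lit 0, nat_lit 0, nat_lit 0, nat_lit 0, nat_lit 0, nat_lit 0, [], [nat_lit 8, nat_lit 40, nat_lit 40, nat_lit 80, nat_lit 1, nat_lit 226, nat_lit 20, nat_lit 6]⟩, ⟨p065_k0, nat_lit 0, nat_lit 0, nat_lit 471, nat_lit 0, nat_lit 502366, [nat_lit 459480000, nat_lit 875000000, nat_lit 1377880000], [], [nat_lit 3978702579, nat_lit 4167689810, nat_lit 3665822695, nat_lit 4065483653, nat_lit 3459921241, nat_lit 3826946842, nat_lit 3549528670, nat_lit 3721641164], nat_lit 1271250, nat_lit 1271250, nat_lit 435600, nat_lit 490000, nat_lit 0, nat_lit 2118750, [nat_lit 780000, nat_lit 1435000, nat_lit 1271250], [nat_lit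 8, nat_lit 40, nat_lit 40, nat_lit 80, nat_lit 1, nat_lit 317, nat_lit 100, nat_lit 9]⟩,
 ⟨nat_lit 5000, nat_lit 5478, ⟨.ofNat (nat_lit 345639), .ofNat (nat_lit 360625), .ofNat (nat_lit 366989), .ofNat (nat_lit 381974), .ofNat (nat_lit 357140), .ofNat (nat_lit 371424), .ofNat (nat_lit 378561), .ofNat (nat_lit 392845)⟩, ⟨.ofNat (nat_lit 500365), .ofNat (nat_lit 537832), .ofNat (nat_lit 521722), .ofNat (nat_lit 559189), .ofNat (nat_lit 492856), .ofNat (nat_lit 528570), .ofNat (nat_lit 514284), .ofNat (nat_lit 549998)⟩⟩, [⟨nat_lit 0, nat_lit 100, nat_lit 100, nat_lit 90, nat_lit 135865303⟩, ⟨nat_lit 16, nat_lit 100, nat_lit 95, nat_lit 87, nat_lit 340471863⟩, ⟨nat_lit 23, nat_lit 98, nat_lit 100, nat_lit 87, nat_lit 19406689⟩]⟩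
noncomputable def p065_l135 : Lf2 := ⟨nat_lit 0, nat_lit 10, [nat_lit 0, nat_lit 5, nat_lit 5, nat_lit 20], false, nat_lit 280, nat_lit 300, nat_lit 0, nat_lit 300, ⟨nat_lit 109, nat_lit 891, nat_lit 0, nat_lit 7, nat_lit 158, nat_lit 891, nat_lit 210, nat_lit 0, nat_lit 0, nat_lit 0, nat_lit 0, nat_lit 0, nat_lit 44599489, nat_lit 8718113, nat_lit 13682398, nat_lit 4622243, false, false⟩,
 nat_lit 0, nat_lit 0, nat_lit 2084, nat_lit 0, nat_lit 4352, nat_lit 1326, nat_lit 0, nat_lit 0, nat_lit 0, nat_lit 59, nat_lit 0, nat_lit 0, nat_lit 0, nat_lit 11746948357918, nat_lit 0, nat_lit 222750, nat_lit 0, nat_lit 0, [(nat_lit 12, [(nat_lit 0, nat_lit 891)])],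
 ⟨p065_k0, nat_lit 0, nat_lit 0, nat_lit 60, nat_lit 0, nat_lit 0, [nat_lit 2464062000, nat_lit 3313264000, nat_lit 4192398800], [], [nat_lit 18487604576, nat_lit 19852056072, nat_lit 18546480472, nat_lit 19868097188, nat_lit 19770853368, nat_lit 21183218284, nat_lit 19799528268, nat_lit 21118661450], nat_lit 0, nat_lit 0, nat_lit 0, nat_lit 0, nat_lit 0, nat_lit 0, [], [nat_lit 8, nat_lit 40, nat_lit 40, nat_lit 80, nat_lit 1, nat_lit 232, nat_lit 25, nat_lit 6]⟩, ⟨p065_k0, nat_lit 0, nat_lit 0, nat_lit 466, nat_lit 0, nat_lit 502366, [nat_lit 357738000, nat_lit 681250000, nat_lit 1072778000], [], [nat_lit 2976887383, nat_lit 3291670401, nat_lit 2891098761, nat_lit 3197350596, nat_lit 2732295270, nat_lit 2911962018, nat_lit 2946087510, nat_lit 2809192731], nat_lit 1271250, nat_lit 1271250, nat_lit 490000, nat_lit 631250, nat_lit 0, nat_lit 2118750, [nat_lit 780000, nat_lit 1435000, nat_lit 1271250], [nat_lit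 8, nat_lit 40, nat_lit 40, nat_lit 80, nat_lit 1, nat_lit 317, nat_lit 100, nat_lit 9]⟩,
 ⟨nat_lit 5000, nat_lit 5478, ⟨.ofNat (nat_lit 360625), .ofNat (nat_lit 398086), .ofNat (nat_lit 381974), .ofNat (nat_lit 419435), .ofNat (nat_lit 371424), .ofNat (nat_lit 407134), .ofNat (nat_lit 392845), .ofNat (nat_lit 428554)⟩, ⟨.ofNat (nat_lit 500365), .ofNat (nat_lit 537832), .ofNat (nat_lit 521722), .ofNat (nat_lit 559189), .ofNat (nat_lit 492856), .ofNat (nat_lit 528570), .ofNat (nat_lit 514284), .ofNat (nat_lit 549998)⟩⟩, [⟨nat_lit 0, nat_lit 100, nat_lit 100, nat_lit 90, nat_lit 51952422⟩, ⟨nat_lit 16, nat_lit 100, nat_lit 95, nat_lit 87, nat_lit 333429177⟩, ⟨nat_lit 11, nat_lit 100, nat_lit 100, nat_lit 95, nat_lit 14054398⟩]⟩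
noncomputable def p065_l136 : Lf2 := ⟨nat_lit 0, nat_lit 10, [nat_lit 0, nat_lit 5, nat_lit 5, nat_lit 20], true, nat_lit 280, nat_lit 300, nat_lit 0, nat_lit 300, ⟨nat_lit 0, nat_lit 1000, nat_lit 0, nat_lit 7, nat_lit 173, nat_lit 1000, nat_lit 210, nat_lit 0, nat_lit 0, nat_lit 0, nat_lit 0, nat_lit 0, nat_lit 43598112, nat_lit 9890479, nat_lit 13511409, nat_lit 4760461, false, false⟩,
 nat_lit 0, nat_lit 0, nat_lit 0, nat_lit 1243, nat_lit 4305, nat_lit 0, nat_lit 0, nat_lit 0, nat_lit 0, nat_lit 0, nat_lit 0, nat_lit 0, nat_lit 0, nat_lit 12432727247692, nat_lit 0, nat_lit 250000, nat_lit 0, nat_lit 0, [(nat_lit 12, [(nat_lit 0, nat_lit 1000)])],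
 ⟨p065_k0, nat_lit 0, nat_lit 0, nat_lit 51, nat_lit 0, nat_lit 0, [nat_lit 2364000000, nat_lit 2954000000, nat_lit 3510800000], [], [nat_lit 18481230855, nat_lit 19795781920, nat_lit 18544164120, nat_lit 19827090620, nat_lit 19727848558, nat_lit 21090666782, nat_lit 19760811620, nat_lit 21031393253], nat_lit 0, nat_lit 0, nat_lit 0, nat_lit 0, nat_lit 0, nat_lit 0, [], [nat_lit 8, nat_lit 40, nat_lit 40, nat_lit 80, nat_lit 1, nat_lit 238, nat_lit 30, nat_lit 6]⟩, C1.Rw.none,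
 ⟨nat_lit 5000, nat_lit 5478, ⟨.ofNat (nat_lit 398086), .ofNat (nat_lit 435548), .ofNat (nat_lit 419435), .ofNat (nat_lit 456895), .ofNat (nat_lit 407134), .ofNat (nat_lit 442843), .ofNat (nat_lit 428554), .ofNat (nat_lit 464262)⟩, ⟨.ofNat (nat_lit 500365), .ofNat (nat_lit 537832), .ofNat (nat_lit 521722), .ofNat (nat_lit 559189), .ofNat (nat_lit 492856), .ofNat (nat_lit 528570), .ofNat (nat_lit 514284), .ofNat (nat_lit 549998)⟩⟩, [⟨nat_lit 16, nat_lit 100, nat_lit 95, nat_lit 87, nat_lit 330270501⟩]⟩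
noncomputable def p065_l137 : Lf2 := ⟨nat_lit 0, nat_lit 10, [nat_lit 0, nat_lit 5, nat_lit 5, nat_lit 20], true, nat_lit 240, nat_lit 280, nat_lit 0, nat_lit 300, ⟨nat_lit 0, nat_lit 1000, nat_lit 0, nat_lit 7, nat_lit 173, nat_lit 1000, nat_lit 182, nat_lit 0, nat_lit 0, nat_lit 0, nat_lit 0, nat_lit 0, nat_lit 45801370, nat_lit 10206586, nat_lit 10992044, nat_lit 4531459, false, false⟩,
 nat_lit 0, nat_lit 0, nat_lit 0, nat_lit 0, nat_lit 4320, nat_lit 0, nat_lit 0, nat_lit 0, nat_lit 0, nat_lit 0, nat_lit 0, nat_lit 0, nat_lit 0, nat_lit 5476480444075, nat_lit 0, nat_lit 250000, nat_lit 0, nat_lit 0, [(nat_lit 15, [(nat_lit 0, nat_lit 1000)])],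
 ⟨p065_k1, nat_lit 0, nat_lit 0, nat_lit 62, nat_lit 0, nat_lit 0, [nat_lit 2318400000, nat_lit 2724800000, nat_lit 3082400000], [], [nat_lit 17296389200, nat_lit 18837043680, nat_lit 17467541280, nat_lit 18886175680, nat_lit 19834096520, nat_lit 21324343120, nat_lit 19771261880, nat_lit 21192907920], nat_lit 0, nat_lit 0, nat_lit 0, nat_lit 0, nat_lit 0, nat_lit 0, [], [nat_lit 18, nat_lit 40, nat_lit 40, nat_lit 80, nat_lit 2, nat_lit 238, nat_lit 30, nat_lit 7]⟩, C1.Rw.none,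
 ⟨nat_lit 4472, nat_lit 5000, ⟨.ofNat (nat_lit 371392), .ofNat (nat_lit 442816), .ofNat (nat_lit 414225), .ofNat (nat_lit 485648), .ofNat (nat_lit 382295), .ofNat (nat_lit 450269), .ofNat (nat_lit 425403), .ofNat (nat_lit 493376)⟩, ⟨.ofNat (nat_lit 399998), .ofNat (nat_lit 471427), .ofNat (nat_lit 442856), .ofNat (nat_lit 514284), .ofNat (nat_lit 395445), .ofNat (nat_lit 463423), .ofNat (nat_lit 438578), .ofNat (nat_lit 506556)⟩⟩, [⟨nat_lit 0, nat_lit 97, nat_lit 93, nat_lit 100, nat_lit 134253099⟩, ⟨nat_lit 16, nat_lit 94, nat_lit 100, nat_lit 87, nat_lit 317203867⟩]⟩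
noncomputable def p065_l138 : Lf2 := ⟨nat_lit 0, nat_lit 10, [nat_lit 0, nat_lit 5, nat_lit 5, nat_lit 20], true, nat_lit 160, nat_lit 240, nat_lit 0, nat_lit 300, ⟨nat_lit 0, nat_lit 1000, nat_lit 0, nat_lit 7, nat_lit 229, nat_lit 1000, nat_lit 140, nat_lit 0, nat_lit 0, nat_lit 0, nat_lit 0, nat_lit 0, nat_lit 44229892, nat_lit 15583497, nat_lit 7186611, nat_lit 4566888, false, false⟩,
 nat_lit 0, nat_lit 0, nat_lit 0, nat_lit 0, nat_lit 4306, nat_lit 0, nat_lit 0, nat_lit 0, nat_lit 0, nat_lit 0, nat_lit 0, nat_lit 0, nat_lit 0, nat_lit 10159689124947, nat_lit 0, nat_lit 250000, nat_lit 0, nat_lit 0, [(nat_lit 12, [(nat_lit 0, nat_lit 1000)]), (nat_lit 15, [(nat_lit 0, nat_lit 1000)])],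
 ⟨p065_k0, nat_lit 0, nat_lit 0, nat_lit 25, nat_lit 0, nat_lit 0, [nat_lit 2364000000, nat_lit 2954000000, nat_lit 3510800000], [], [nat_lit 12589357952, nat_lit 15914803216, nat_lit 16883487424, nat_lit 19549454560, nat_lit 16109778304, nat_lit 18942321544, nat_lit 19634579440, nat_lit 21921761656], nat_lit 0, nat_lit 0, nat_lit 0, nat_lit 0, nat_lit 0, nat_lit 0, [], [nat_lit 8, nat_lit 40, nat_lit 40, nat_lit 80, nat_lit 1, nat_lit 345, nat_lit 125, nat_lit 9]⟩, C1.Rw.none,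
 ⟨nat_lit 4472, nat_lit 5478, ⟨.ofNat (nat_lit 435455), .ofNat (nat_lit 660148), .ofNat (nat_lit 478080), .ofNat (nat_lit 702774), .ofNat (nat_lit 450202), .ofNat (nat_lit 654031), .ofNat (nat_lit 493246), .ofNat (nat_lit 697075)⟩, ⟨.ofNat (nat_lit 254209), .ofNat (nat_lit 404075), .ofNat (nat_lit 296923), .ofNat (nat_lit 446789), .ofNat (nat_lit 259489), .ofNat (nat_lit 395445), .ofNat (nat_lit 302621), .ofNat (nat_lit 438578)⟩⟩, []⟩
noncomputable def p065_l139 : Lf2 := ⟨nat_lit 0, nat_lit 10, [nat_lit 0, nat_lit 5, nat_lit 5, nat_lit 20], false, nat_lit 240, nat_lit 300, nat_lit 0, nat_lit 300, ⟨nat_lit 60, nat_lit 940, nat_lit 0, nat_lit 7, nat_lit 229, nat_lit 940, nat_lit 190, nat_lit 0, nat_lit 0, nat_lit 0, nat_lit 0, nat_lit 0, nat_lit 41029195, nat_lit 14888996, nat_lit 11081809, nat_lit 5024948, false, false⟩,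
 nat_lit 0, nat_lit 0, nat_lit 852, nat_lit 0, nat_lit 4428, nat_lit 541, nat_lit 0, nat_lit 0, nat_lit 0, nat_lit 0, nat_lit 0, nat_lit 0, nat_lit 0, nat_lit 10754456738131, nat_lit 0, nat_lit 235000, nat_lit 0, nat_lit 0, [(nat_lit 12, [(nat_lit 0, nat_lit 940)]), (nat_lit 15, [(nat_lit 0, nat_lit 940)])],
 ⟨p065_k0, nat_lit 0, nat_lit 0, nat_lit 53, nat_lit 0, nat_lit 0, [nat_lit 2419080000, nat_lit 3151760000, nat_lit 3885992000], [], [nat_lit 16031778752, nat_lit 18905501872, nat_lit 19566834720, nat_lit 21951940208, nat_lit 19730392352, nat_lit 22451764132, nat_lit 22665079024, nat_lit 24866667500], nat_lit 0, nat_lit 0, nat_lit 0, nat_lit 0, nat_lit 0, nat_lit 0, [], [nat_lit 8, nat_lit 40, nat_lit 40, nat_lit 80, nat_lit 1, nat_lit 373, nat_lit 150, nat_lit 10]⟩, ⟨p065_k0, nat_lit 0, nat_lit 0, nat_lit 941, nat_lit 0, nat_lit 1584966, [nat_lit 196920000, nat_lit 375000000, nat_lit 590520000], [], [nat_lit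 2596318160, nat_lit 2215422584, nat_lit 2113330172, nat_lit 2130427772, nat_lit 1853408335, nat_lit 1876165636, nat_lit 2297807064, nat_lit 1897207981], nat_lit 1271250, nat_lit 1271250, nat_lit 780000, nat_lit 1762500, nat_lit 0, nat_lit 2118750, [nat_lit 780000, nat_lit 1435000, nat_lit 1271250], [nat_lit 8, nat_lit 40, nat_lit 40, nat_lit 80, nat_lit 1, nat_lit 373, nat_lit 150, nat_lit 11]⟩,
 ⟨nat_lit 4472, nat_lit 5478, ⟨.ofNat (nat_lit 435455), .ofNat (nat_lit 660148), .ofNat (nat_lit 478080), .ofNat (nat_lit 702774), .ofNat (nat_lit 450202), .ofNat (nat_lit 654031), .ofNat (nat_lit 493246), .ofNat (nat_lit 697075)⟩, ⟨.ofNat (nat_lit 404075), .ofNat (nat_lit 516475), .ofNat (nat_lit 446789), .ofNat (nat_lit 559189), .ofNat (nat_lit 395445), .ofNat (nat_lit 497412), .ofNat (nat_lit 438578), .ofNat (nat_lit 540545)⟩⟩, [⟨nat_lit 16, nat_lit 100, nat_lit 95, nat_lit 87, nat_lit 333572453⟩]⟩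
noncomputable def b_V_700_700_10_1 : St := ⟨true, nat_lit 0, nat_lit 1, nat_lit 1, nat_lit 80, nat_lit 280, nat_lit 320, nat_lit 280, nat_lit 320, nat_lit 64, nat_lit 240, nat_lit 40, nat_lit 80, nat_lit 0, nat_lit 300, nat_lit 0, nat_lit 300, nat_lit 0, nat_lit 40, nat_lit 0, nat_lit 0, nat_lit 0, nat_lit 0⟩
theorem d_V_700_700_10_1 (h : EB TB.env) : Dead b_V_700_700_10_1 := chkB_sound0 h (T :=
(.spl (nat_lit 4) (nat_lit 160)
(.spl (nat_lit 1) (nat_lit 300)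
(.spl (nat_lit 2) (nat_lit 120)
(.leaf p065_l124)
(.spl (nat_lit 1) (nat_lit 290)
(.spl (nat_lit 0) (nat_lit 300)
(.leaf p065_l125)
(.leaf p065_l126))
(.ord (.trX (nat_lit 19) (nat_lit 100) (nat_lit 100) (nat_lit 89) (nat_lit 292) (.leaf p065_l127)))))
(.ord (.trZ (nat_lit 0) (nat_lit 100) (nat_lit 100) (nat_lit 100) (nat_lit 100) (.trX (nat_lit 19) (nat_lit 94) (nat_lit 100) (nat_lit 87) (nat_lit 280) (.spl (nat_lit 1) (nat_lit 310)
(.leaf p065_l128)
(.ord (.trZ (nat_lit 0) (nat_lit 91) (nat_lit 91) (nat_lit 100) (nat_lit 120) (.trX (nat_lit 19) (nat_lit 89) (nat_lit 100) (nat_lit 85) (nat_lit 268) (.leaf p065_l129)))))))))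
(.spl (nat_lit 2) (nat_lit 120)
(.spl (nat_lit 4) (nat_lit 240)
(.leaf p065_l130)
(.spl (nat_lit 0) (nat_lit 300)
(.ord (.spl (nat_lit 4) (nat_lit 280)
(.spl (nat_lit 0) (nat_lit 290)
(.ord (.leaf p065_l131))
(.trZ (nat_lit 0) (nat_lit 100) (nat_lit 97) (nat_lit 84) (nat_lit 72) (.leaf p065_l132)))
(.spl (nat_lit 3) (nat_lit 60)
(.emL (nat_lit 16) (nat_lit 99) (nat_lit 100) (nat_lit 77))
(.spl (nat_lit 2) (nat_lit 80)
(.spl (nat_lit 2) (nat_lit 72)
(.trX (nat_lit 23) (nat_lit 100) (nat_lit 98) (nat_lit 84) (nat_lit 292) (.leaf p065_l133))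
(.leaf p065_l134))
(.spl (nat_lit 2) (nat_lit 100)
(.leaf p065_l135)
(.leaf p065_l136))))))
(.trZ (nat_lit 0) (nat_lit 100) (nat_lit 94) (nat_lit 88) (nat_lit 80) (.trX (nat_lit 16) (nat_lit 94) (nat_lit 100) (nat_lit 87) (nat_lit 280) (.leaf p065_l137)))))
(.spl (nat_lit 4) (nat_lit 240)
(.leaf p065_l138)
(.leaf p065_l139))))) (by decide +kernel)
noncomputable def p065_l140 : Lf2 := ⟨nat_lit 0, nat_lit 10, [nat_lit 0, nat_lit 5, nat_lit 5, nat_lit 20], false, nat_lit 0, nat_lit 160, nat_lit 0, nat_lit 300, ⟨nat_lit 272, nat_lit 728, nat_lit 0, nat_lit 7, nat_lit 295, nat_lit 728, nat_lit 55, nat_lit 0, nat_lit 0, nat_lit 0, nat_lit 0, nat_lit 0, nat_lit 43408312, nat_lit 23591688, nat_lit 0, nat_lit 3243728, true, false⟩,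
 nat_lit 0, nat_lit 0, nat_lit 3542, nat_lit 0, nat_lit 4937, nat_lit 2254, nat_lit 338, nat_lit 0, nat_lit 0, nat_lit 186, nat_lit 0, nat_lit 0, nat_lit 0, nat_lit 0, nat_lit 0, nat_lit 728000, nat_lit 0, nat_lit 0, [(nat_lit 12, [(nat_lit 2, nat_lit 728)])],
 ⟨p065_k0, nat_lit 0, nat_lit 0, nat_lit 187, nat_lit 0, nat_lit 0, [nat_lit 2592729601, nat_lit 3116979200, nat_lit 2462992000], [], [nat_lit 21813267070, nat_lit 23037185828, nat_lit 25945250906, nat_lit 26933363154, nat_lit 19465842619, nat_lit 20403792905, nat_lit 23100567129, nat_lit 24015493729], nat_lit 0, nat_lit 0, nat_lit 0, nat_lit 0, nat_lit 0, nat_lit 0, [], [nat_lit 8, nat_lit 40, nat_lit 40, nat_lit 80, nat_lit 1, nat_lit 345, nat_lit 125, nat_lit 9]⟩, ⟨p065_k0, nat_lit 0, nat_lit 0, nat_lit 657, nat_lit 0, nat_lit 1070055, [nat_lit 892704000, nat_lit 1700000000, nat_lit 2677024000], [], [nat_lit 8697842314, nat_lit 8769420956, nat_lit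 9137095346, nat_lit 9191681448, nat_lit 7686837960, nat_lit 7734184844, nat_lit 7956671512, nat_lit 7991042297], nat_lit 1271250, nat_lit 1271250, nat_lit 1271250, nat_lit 1271250, nat_lit 0, nat_lit 2118750, [nat_lit 780000, nat_lit 1435000, nat_lit 1271250], [nat_lit 8, nat_lit 40, nat_lit 40, nat_lit 80, nat_lit 1, nat_lit 401, nat_lit 175, nat_lit 11]⟩,
 ⟨nat_lit 5000, nat_lit 5478, ⟨.ofNat (nat_lit 660309), .ofNat (nat_lit 810149), .ofNat (nat_lit 670982), .ofNat (nat_lit 820822), .ofNat (nat_lit 657090), .ofNat (nat_lit 799922), .ofNat (nat_lit 667800), .ofNat (nat_lit 810631)⟩, ⟨.negSucc (nat_lit 45522), .ofNat (nat_lit 254209), .negSucc (nat_lit 2832), .ofNat (nat_lit 296923), .negSucc (nat_lit 28572), .ofNat (nat_lit 257141), .ofNat (nat_lit 0), .ofNat (nat_lit 299999)⟩⟩, [⟨nat_lit 19, nat_lit 97, nat_lit 100, nat_lit 76, nat_lit 21368987⟩, ⟨nat_lit 22, nat_lit 100, nat_lit 95, nat_lit 87, nat_lit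 15356904⟩]⟩
noncomputable def p065_l141 : Lf2 := ⟨nat_lit 0, nat_lit 10, [nat_lit 0, nat_lit 5, nat_lit 5, nat_lit 20], false, nat_lit 0, nat_lit 160, nat_lit 0, nat_lit 292, ⟨nat_lit 1000, nat_lit 0, nat_lit 0, nat_lit 0, nat_lit 0, nat_lit 0, nat_lit 0, nat_lit 0, nat_lit 0, nat_lit 0, nat_lit 0, nat_lit 0, nat_lit 0, nat_lit 0, nat_lit 0, nat_lit 0, false, false⟩,
 nat_lit 0, nat_lit 0, nat_lit 9758, nat_lit 0, nat_lit 6558, nat_lit 6480, nat_lit 967, nat_lit 0, nat_lit 0, nat_lit 2590, nat_lit 0, nat_lit 0, nat_lit 0, nat_lit 0, nat_lit 0, nat_lit 0, nat_lit 0, nat_lit 0, [],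
 ⟨p065_k2, nat_lit 0, nat_lit 0, nat_lit 160, nat_lit 0, nat_lit 0, [nat_lit 3282000000, nat_lit 6250000000, nat_lit 7968000000], [], [nat_lit 23929271110, nat_lit 24720209036, nat_lit 29212370566, nat_lit 29897619558, nat_lit 19833709874, nat_lit 20498759394, nat_lit 24514070258, nat_lit 25094076742], nat_lit 0, nat_lit 0, nat_lit 0, nat_lit 0, nat_lit 0, nat_lit 0, [], [nat_lit 18, nat_lit 40, nat_lit 40, nat_lit 80, nat_lit 2, nat_lit 249, nat_lit 40, nat_lit 8]⟩, ⟨p065_k2, nat_lit 0, nat_lit 0, nat_lit 617, nat_lit 0, nat_lit 1094085, [nat_lit 3282000000, nat_lit 6250000000, nat_lit 7968000000], [], [nat_lit 27101081740, nat_lit 27367594780, nat_lit 28894554160, nat_lit 29751291200, nat_lit 25582022795, nat_lit 25741228700, nat_lit 27768900487, nat_lit 28306037316], nat_lit 1271250, nat_lit 1271250, nat_lit 1271250, nat_lit 1271250, nat_lit 0, nat_lit 2062250, [nat_lit 780000, nat_lit 1435000, nat_lit 1271250],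 [nat_lit 18, nat_lit 40, nat_lit 40, nat_lit 80, nat_lit 2, nat_lit 289, nat_lit 75, nat_lit 9]⟩,
 zbF0, [⟨nat_lit 19, nat_lit 92, nat_lit 100, nat_lit 75, nat_lit 218577495⟩]⟩
noncomputable def p065_l142 : Lf2 := ⟨nat_lit 0, nat_lit 10, [nat_lit 0, nat_lit 5, nat_lit 5, nat_lit 20], false, nat_lit 0, nat_lit 80, nat_lit 0, nat_lit 300, ⟨nat_lit 219, nat_lit 781, nat_lit 0, nat_lit 7, nat_lit 295, nat_lit 534, nat_lit 28, nat_lit 0, nat_lit 0, nat_lit 0, nat_lit 0, nat_lit 0, nat_lit 43389209, nat_lit 23610791, nat_lit 0, nat_lit 3244597, true, false⟩,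
 nat_lit 0, nat_lit 0, nat_lit 2858, nat_lit 0, nat_lit 4110, nat_lit 1818, nat_lit 92, nat_lit 0, nat_lit 0, nat_lit 137, nat_lit 0, nat_lit 0, nat_lit 0, nat_lit 0, nat_lit 0, nat_lit 781000, nat_lit 0, nat_lit 0, [(nat_lit 15, [(nat_lit 2, nat_lit 781)])],
 ⟨p065_k1, nat_lit 0, nat_lit 0, nat_lit 164, nat_lit 0, nat_lit 0, [nat_lit 2369479601, nat_lit 2187238000, nat_lit 1200478800], [], [nat_lit 21695029281, nat_lit 22254906271, nat_lit 25497632101, nat_lit 25995227421, nat_lit 20006743221, nat_lit 20535112881, nat_lit 23662565541, nat_lit 24134139381], nat_lit 0, nat_lit 0, nat_lit 0, nat_lit 0, nat_lit 0, nat_lit 0, [], [nat_lit 18, nat_lit 40, nat_lit 40, nat_lit 80, nat_lit 2, nat_lit 226, nat_lit 20, nat_lit 7]⟩, ⟨p065_k0, nat_lit 0, nat_lit 0, nat_lit 761, nat_lit 0, nat_lit 1277869, [nat_lit 718758000, nat_lit 1368750000, nat_lit 2155398000], [], [nat_lit 7357874933, nat_lit 7440175715, nat_lit 7597170041,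 nat_lit 7669234464, nat_lit 6421922391, nat_lit 6472828947, nat_lit 6550972365, nat_lit 6585031304], nat_lit 1271250, nat_lit 1271250, nat_lit 1271250, nat_lit 1271250, nat_lit 0, nat_lit 2118750, [nat_lit 780000, nat_lit 1435000, nat_lit 1271250], [nat_lit 8, nat_lit 40, nat_lit 40, nat_lit 80, nat_lit 1, nat_lit 401, nat_lit 175, nat_lit 11]⟩,
 ⟨nat_lit 4743, nat_lit 5000, ⟨.ofNat (nat_lit 657129), .ofNat (nat_lit 799982), .ofNat (nat_lit 678555), .ofNat (nat_lit 821408), .ofNat (nat_lit 655639), .ofNat (nat_lit 795034), .ofNat (nat_lit 677124), .ofNat (nat_lit 816520)⟩, ⟨.negSucc (nat_lit 28572), .ofNat (nat_lit 114284), .ofNat (nat_lit 0), .ofNat (nat_lit 157141), .negSucc (nat_lit 20404), .ofNat (nat_lit 118994), .ofNat (nat_lit 0), .ofNat (nat_lit 161970)⟩⟩, [⟨nat_lit 22, nat_lit 94, nat_lit 100, nat_lit 62, nat_lit 36637978⟩]⟩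
noncomputable def p065_l143 : Lf2 := ⟨nat_lit 0, nat_lit 10, [nat_lit 0, nat_lit 5, nat_lit 5, nat_lit 20], false, nat_lit 0, nat_lit 80, nat_lit 0, nat_lit 300, ⟨nat_lit 191, nat_lit 809, nat_lit 0, nat_lit 7, nat_lit 294, nat_lit 809, nat_lit 29, nat_lit 0, nat_lit 0, nat_lit 0, nat_lit 0, nat_lit 0, nat_lit 43519487, nat_lit 23480513, nat_lit 0, nat_lit 3238639, true, false⟩,
 nat_lit 0, nat_lit 0, nat_lit 2524, nat_lit 0, nat_lit 3912, nat_lit 1605, nat_lit 458, nat_lit 0, nat_lit 0, nat_lit 116, nat_lit 0, nat_lit 0, nat_lit 0, nat_lit 0, nat_lit 0, nat_lit 323600, nat_lit 0, nat_lit 0, [(nat_lit 15, [(nat_lit 1, nat_lit 809)])],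
 ⟨p065_k23, nat_lit 0, nat_lit 0, nat_lit 167, nat_lit 0, nat_lit 0, [nat_lit 2261203800, nat_lit 3098837134, nat_lit 3398060666], [], [nat_lit 22299305270, nat_lit 22847142078, nat_lit 25793244662, nat_lit 26266331772, nat_lit 20722022182, nat_lit 21239302654, nat_lit 24064340860, nat_lit 24526896988], nat_lit 0, nat_lit 0, nat_lit 0, nat_lit 0, nat_lit 0, nat_lit 0, [], [nat_lit 18, nat_lit 40, nat_lit 40, nat_lit 80, nat_lit 2, nat_lit 226, nat_lit 20, nat_lit 7]⟩, ⟨p065_k0, nat_lit 0, nat_lit 0, nat_lit 815, nat_lit 0, nat_lit 1400535, [nat_lit 626862000, nat_lit 1193750000, nat_lit 1879822000], [], [nat_lit 6566337788, nat_lit 6614755670, nat_lit 6729912424, nat_lit 6776527122, nat_lit 5682229160, nat_lit 5708278186, nat_lit 5729999551, nat_lit 5743982857], nat_lit 1271250, nat_lit 1271250, nat_lit 1271250, nat_lit 1271250, nat_lit 0, nat_lit 2118750, [nat_lit 780000, nat_lit 1435000, nat_lit 1271250],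 [nat_lit 8, nat_lit 40, nat_lit 40, nat_lit 80, nat_lit 1, nat_lit 401, nat_lit 175, nat_lit 11]⟩,
 ⟨nat_lit 4472, nat_lit 4744, ⟨.ofNat (nat_lit 655638), .ofNat (nat_lit 795036), .ofNat (nat_lit 677123), .ofNat (nat_lit 816521), .ofNat (nat_lit 654230), .ofNat (nat_lit 790184), .ofNat (nat_lit 675793), .ofNat (nat_lit 811747)⟩, ⟨.negSucc (nat_lit 20404), .ofNat (nat_lit 118994), .ofNat (nat_lit 0), .ofNat (nat_lit 161970), .negSucc (nat_lit 12423), .ofNat (nat_lit 123532), .ofNat (nat_lit 0), .ofNat (nat_lit 166665)⟩⟩, [⟨nat_lit 22, nat_lit 95, nat_lit 100, nat_lit 16, nat_lit 29580513⟩, ⟨nat_lit 22, nat_lit 94, nat_lit 100, nat_lit 62, nat_lit 21872548⟩]⟩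
noncomputable def p065_l144 : Lf2 := ⟨nat_lit 0, nat_lit 10, [nat_lit 0, nat_lit 5, nat_lit 5, nat_lit 20], true, nat_lit 80, nat_lit 160, nat_lit 0, nat_lit 300, ⟨nat_lit 0, nat_lit 1000, nat_lit 0, nat_lit 7, nat_lit 294, nat_lit 1000, nat_lit 84, nat_lit 0, nat_lit 0, nat_lit 0, nat_lit 0, nat_lit 0, nat_lit 41131714, nat_lit 22707730, nat_lit 3160556, nat_lit 4256869, true, false⟩,
 nat_lit 0, nat_lit 0, nat_lit 0, nat_lit 0, nat_lit 4136, nat_lit 0, nat_lit 0, nat_lit 0, nat_lit 0, nat_lit 0, nat_lit 0, nat_lit 0, nat_lit 0, nat_lit 0, nat_lit 0, nat_lit 250000, nat_lit 0, nat_lit 0, [(nat_lit 15, [(nat_lit 0, nat_lit 1000)])],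
 ⟨p065_k1, nat_lit 0, nat_lit 0, nat_lit 79, nat_lit 0, nat_lit 0, [nat_lit 2318400000, nat_lit 2724800000, nat_lit 3082400000], [], [nat_lit 17435666160, nat_lit 18893321664, nat_lit 22329733328, nat_lit 23627107488, nat_lit 18338621552, nat_lit 19645335360, nat_lit 22601488656, nat_lit 23774459488], nat_lit 0, nat_lit 0, nat_lit 0, nat_lit 0, nat_lit 0, nat_lit 0, [], [nat_lit 18, nat_lit 40, nat_lit 40, nat_lit 80, nat_lit 2, nat_lit 249, nat_lit 40, nat_lit 7]⟩, C1.Rw.none,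
 ⟨nat_lit 4472, nat_lit 5000, ⟨.ofNat (nat_lit 657088), .ofNat (nat_lit 799935), .ofNat (nat_lit 678503), .ofNat (nat_lit 821351), .ofNat (nat_lit 654189), .ofNat (nat_lit 790136), .ofNat (nat_lit 675743), .ofNat (nat_lit 811690)⟩, ⟨.ofNat (nat_lit 114284), .ofNat (nat_lit 257141), .ofNat (nat_lit 157141), .ofNat (nat_lit 299999), .ofNat (nat_lit 123532), .ofNat (nat_lit 259489), .ofNat (nat_lit 166665), .ofNat (nat_lit 302621)⟩⟩, []⟩
noncomputable def p065_l145 : Lf2 := ⟨nat_lit 0, nat_lit 10, [nat_lit 0, nat_lit 5, nat_lit 5, nat_lit 20], false, nat_lit 0, nat_lit 80, nat_lit 0, nat_lit 260, ⟨nat_lit 803, nat_lit 197, nat_lit 0, nat_lit 8, nat_lit 353, nat_lit 197, nat_lit 26, nat_lit 0, nat_lit 0, nat_lit 0, nat_lit 0, nat_lit 0, nat_lit 37626523, nat_lit 29373477, nat_lit 0, nat_lit 3427705, true, true⟩,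
 nat_lit 0, nat_lit 0, nat_lit 9337, nat_lit 0, nat_lit 5522, nat_lit 5941, nat_lit 815, nat_lit 0, nat_lit 0, nat_lit 2481, nat_lit 0, nat_lit 0, nat_lit 0, nat_lit 0, nat_lit 0, nat_lit 197000, nat_lit 0, nat_lit 0, [(nat_lit 12, [(nat_lit 2, nat_lit 197)])],
 ⟨p065_k0, nat_lit 0, nat_lit 0, nat_lit 217, nat_lit 0, nat_lit 0, [nat_lit 3095480401, nat_lit 5402190801, nat_lit 7845208000], [], [nat_lit 28574910011, nat_lit 29611287099, nat_lit 34667000537, nat_lit 35597486433, nat_lit 25318319731, nat_lit 26277146515, nat_lit 30928544369, nat_lit 31823618797], nat_lit 0, nat_lit 0, nat_lit 0, nat_lit 0, nat_lit 0, nat_lit 0, [], [nat_lit 8, nat_lit 40, nat_lit 40, nat_lit 80, nat_lit 1, nat_lit 226, nat_lit 20, nat_lit 6]⟩, ⟨p065_k0, nat_lit 0, nat_lit 0, nat_lit 649, nat_lit 0, nat_lit 1070055, [nat_lit 2635446000, nat_lit 5018750000, nat_lit 7903126000], [], [nat_lit 29714115872, nat_lit 29914813035, nat_lit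 32004656232, nat_lit 32149818823, nat_lit 26672575632, nat_lit 26795179971, nat_lit 28214263577, nat_lit 28296928246], nat_lit 1271250, nat_lit 1271250, nat_lit 1271250, nat_lit 1271250, nat_lit 0, nat_lit 1836250, [nat_lit 780000, nat_lit 1435000, nat_lit 1271250], [nat_lit 8, nat_lit 40, nat_lit 40, nat_lit 80, nat_lit 1, nat_lit 289, nat_lit 75, nat_lit 8]⟩,
 ⟨nat_lit 5000, nat_lit 5478, ⟨.ofNat (nat_lit 810149), .ofNat (nat_lit 959989), .ofNat (nat_lit 820822), .ofNat (nat_lit 970663), .ofNat (nat_lit 799922), .ofNat (nat_lit 942753), .ofNat (nat_lit 810631), .ofNat (nat_lit 953463)⟩, ⟨.negSucc (nat_lit 45522), .ofNat (nat_lit 104343), .negSucc (nat_lit 2832), .ofNat (nat_lit 147057), .negSucc (nat_lit 28572), .ofNat (nat_lit 114284), .ofNat (nat_lit 0), .ofNat (nat_lit 157141)⟩⟩, [⟨nat_lit 10, nat_lit 100, nat_lit 58, nat_lit 64, nat_lit 169938239⟩]⟩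
noncomputable def p065_l146 : Lf2 := ⟨nat_lit 0, nat_lit 10, [nat_lit 0, nat_lit 5, nat_lit 5, nat_lit 20], false, nat_lit 0, nat_lit 80, nat_lit 0, nat_lit 260, ⟨nat_lit 1000, nat_lit 0, nat_lit 0, nat_lit 0, nat_lit 0, nat_lit 0, nat_lit 0, nat_lit 0, nat_lit 0, nat_lit 0, nat_lit 0, nat_lit 0, nat_lit 0, nat_lit 0, nat_lit 0, nat_lit 0, false, false⟩,
 nat_lit 0, nat_lit 0, nat_lit 9038, nat_lit 0, nat_lit 5886, nat_lit 6002, nat_lit 0, nat_lit 0, nat_lit 0, nat_lit 3267, nat_lit 0, nat_lit 0, nat_lit 0, nat_lit 0, nat_lit 0, nat_lit 0, nat_lit 0, nat_lit 0, [],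
 ⟨p065_k24, nat_lit 0, nat_lit 0, nat_lit 177, nat_lit 0, nat_lit 0, [nat_lit 3282000000, nat_lit 7968000000], [], [nat_lit 32897169248, nat_lit 33489017888, nat_lit 38898691486, nat_lit 39336043156, nat_lit 29142592914, nat_lit 29705944612, nat_lit 34826490188, nat_lit 35247551520], nat_lit 0, nat_lit 0, nat_lit 0, nat_lit 0, nat_lit 0, nat_lit 0, [], [nat_lit 74, nat_lit 40, nat_lit 40, nat_lit 80, nat_lit 43, nat_lit 226, nat_lit 20, nat_lit 6]⟩, ⟨p065_k24, nat_lit 0, nat_lit 0, nat_lit 612, nat_lit 0, nat_lit 1094085, [nat_lit 3282000000, nat_lit 7968000000], [], [nat_lit 30871998444, nat_lit 31083854342, nat_lit 36309395802, nat_lit 36894950372, nat_lit 28865667456, nat_lit 29002810453, nat_lit 31736733541, nat_lit 32154675247], nat_lit 1271250, nat_lit 1271250, nat_lit 1271250, nat_lit 1271250, nat_lit 0, nat_lit 1836250, [nat_lit 780000, nat_lit 1762500], [nat_lit 74, nat_lit 40, nat_lit 40, nat_lit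 80, nat_lit 43, nat_lit 289, nat_lit 75, nat_lit 9]⟩,
 zbF0, [⟨nat_lit 22, nat_lit 63, nat_lit 100, nat_lit 62, nat_lit 204084701⟩]⟩
noncomputable def p065_l147 : Lf2 := ⟨nat_lit 0, nat_lit 5, [nat_lit 4, nat_lit 5, nat_lit 5, nat_lit 20], false, nat_lit 0, nat_lit 80, nat_lit 0, nat_lit 260, ⟨nat_lit 282, nat_lit 718, nat_lit 0, nat_lit 8, nat_lit 349, nat_lit 718, nat_lit 28, nat_lit 0, nat_lit 0, nat_lit 0, nat_lit 0, nat_lit 0, nat_lit 38005821, nat_lit 28994179, nat_lit 0, nat_lit 3420370, true, true⟩,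
 nat_lit 0, nat_lit 0, nat_lit 3354, nat_lit 0, nat_lit 3612, nat_lit 2134, nat_lit 975, nat_lit 0, nat_lit 0, nat_lit 130, nat_lit 0, nat_lit 0, nat_lit 0, nat_lit 0, nat_lit 0, nat_lit 287200, nat_lit 0, nat_lit 0, [(nat_lit 15, [(nat_lit 1, nat_lit 718)])],
 ⟨p065_k25, nat_lit 0, nat_lit 0, nat_lit 160, nat_lit 0, nat_lit 0, [nat_lit 2376027601, nat_lit 3432855200], [], [nat_lit 26362742263, nat_lit 26792224519, nat_lit 30424775832, nat_lit 30902099252, nat_lit 25160931079, nat_lit 25567122711, nat_lit 28981324727, nat_lit 29326603015], nat_lit 0, nat_lit 0, nat_lit 0, nat_lit 0, nat_lit 0, nat_lit 0, [], [nat_lit 49, nat_lit 40, nat_lit 40, nat_lit 80, nat_lit 16, nat_lit 226, nat_lit 20, nat_lit 7]⟩, ⟨p065_k26, nat_lit 0, nat_lit 0, nat_lit 637, nat_lit 0, nat_lit 1152684, [nat_lit 925524000, nat_lit 1762500000, nat_lit 2246976000], [], [nat_lit 10838280736, nat_lit 10884157960, nat_lit 11409396672, nat_lit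 11441008168, nat_lit 9590396368, nat_lit 9619318744, nat_lit 9996945572, nat_lit 10014344635], nat_lit 1271250, nat_lit 1271250, nat_lit 1271250, nat_lit 1271250, nat_lit 0, nat_lit 1836250, [nat_lit 780000, nat_lit 1435000, nat_lit 1271250], [nat_lit 18, nat_lit 40, nat_lit 40, nat_lit 80, nat_lit 2, nat_lit 289, nat_lit 75, nat_lit 9]⟩,
 ⟨nat_lit 4743, nat_lit 5000, ⟨.ofNat (nat_lit 799982), .ofNat (nat_lit 942836), .ofNat (nat_lit 810695), .ofNat (nat_lit 953549), .ofNat (nat_lit 795034), .ofNat (nat_lit 934430), .ofNat (nat_lit 805777), .ofNat (nat_lit 945173)⟩, ⟨.negSucc (nat_lit 28572), .ofNat (nat_lit 114284), .ofNat (nat_lit 0), .ofNat (nat_lit 157141), .negSucc (nat_lit 20404), .ofNat (nat_lit 118994), .ofNat (nat_lit 0), .ofNat (nat_lit 161970)⟩⟩, [⟨nat_lit 13, nat_lit 94, nat_lit 13, nat_lit 100, nat_lit 44489642⟩, ⟨nat_lit 10, nat_lit 100, nat_lit 58, nat_lit 64, nat_lit 55612687⟩]⟩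
noncomputable def p065_l148 : Lf2 := ⟨nat_lit 0, nat_lit 5, [nat_lit 4, nat_lit 5, nat_lit 5, nat_lit 20], false, nat_lit 0, nat_lit 80, nat_lit 0, nat_lit 260, ⟨nat_lit 201, nat_lit 799, nat_lit 0, nat_lit 8, nat_lit 347, nat_lit 789, nat_lit 29, nat_lit 0, nat_lit 0, nat_lit 0, nat_lit 0, nat_lit 0, nat_lit 38255241, nat_lit 28744759, nat_lit 0, nat_lit 3415191, true, true⟩,
 nat_lit 0, nat_lit 0, nat_lit 2399, nat_lit 0, nat_lit 3465, nat_lit 1526, nat_lit 573, nat_lit 0, nat_lit 0, nat_lit 93, nat_lit 0, nat_lit 0, nat_lit 0, nat_lit 0, nat_lit 0, nat_lit 319600, nat_lit 0, nat_lit 0, [(nat_lit 15, [(nat_lit 1, nat_lit 799)])],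
 ⟨p065_k27, nat_lit 0, nat_lit 0, nat_lit 164, nat_lit 0, nat_lit 0, [nat_lit 2273821800, nat_lit 3122110467], [], [nat_lit 26720385132, nat_lit 27143687802, nat_lit 30613611247, nat_lit 30968707340, nat_lit 25593410822, nat_lit 25993967062, nat_lit 29272498262, nat_lit 29599076420], nat_lit 0, nat_lit 0, nat_lit 0, nat_lit 0, nat_lit 0, nat_lit 0, [], [nat_lit 49, nat_lit 40, nat_lit 40, nat_lit 80, nat_lit 16, nat_lit 226, nat_lit 20, nat_lit 7]⟩, ⟨p065_k26, nat_lit 0, nat_lit 0, nat_lit 683, nat_lit 0, nat_lit 1275347, [nat_lit 659682000, nat_lit 1256250000, nat_lit 1601568000], [], [nat_lit 7699377824, nat_lit 7732064207, nat_lit 8106766344, nat_lit 8148926792, nat_lit 6806320637, nat_lit 6826893223, nat_lit 7096120075, nat_lit 7108457553], nat_lit 1271250, nat_lit 1271250, nat_lit 1271250, nat_lit 1271250, nat_lit 0, nat_lit 1836250, [nat_lit 780000, nat_lit 1435000, nat_lit 1271250], [nat_lit 18, nat_lit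 40, nat_lit 40, nat_lit 80, nat_lit 2, nat_lit 290, nat_lit 75, nat_lit 9]⟩,
 ⟨nat_lit 4472, nat_lit 4744, ⟨.ofNat (nat_lit 795036), .ofNat (nat_lit 934435), .ofNat (nat_lit 805779), .ofNat (nat_lit 945177), .ofNat (nat_lit 790184), .ofNat (nat_lit 926140), .ofNat (nat_lit 800966), .ofNat (nat_lit 936922)⟩, ⟨.negSucc (nat_lit 20404), .ofNat (nat_lit 118994), .ofNat (nat_lit 0), .ofNat (nat_lit 161970), .negSucc (nat_lit 12423), .ofNat (nat_lit 123532), .ofNat (nat_lit 0), .ofNat (nat_lit 166665)⟩⟩, [⟨nat_lit 13, nat_lit 90, nat_lit 19, nat_lit 100, nat_lit 84140834⟩, ⟨nat_lit 10, nat_lit 100, nat_lit 58, nat_lit 64, nat_lit 39774588⟩]⟩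
noncomputable def p065_l149 : Lf2 := ⟨nat_lit 0, nat_lit 10, [nat_lit 0, nat_lit 5, nat_lit 5, nat_lit 20], false, nat_lit 0, nat_lit 80, nat_lit 0, nat_lit 260, ⟨nat_lit 1000, nat_lit 0, nat_lit 0, nat_lit 0, nat_lit 0, nat_lit 0, nat_lit 0, nat_lit 0, nat_lit 0, nat_lit 0, nat_lit 0, nat_lit 0, nat_lit 0, nat_lit 0, nat_lit 0, nat_lit 0, false, false⟩,
 nat_lit 0, nat_lit 0, nat_lit 11654, nat_lit 0, nat_lit 5261, nat_lit 7416, nat_lit 1931, nat_lit 0, nat_lit 0, nat_lit 611, nat_lit 0, nat_lit 0, nat_lit 0, nat_lit 0, nat_lit 0, nat_lit 0, nat_lit 0, nat_lit 0, [],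
 ⟨p065_k1, nat_lit 0, nat_lit 0, nat_lit 199, nat_lit 0, nat_lit 0, [nat_lit 3282000000, nat_lit 6250000000, nat_lit 7968000000], [], [nat_lit 27470737240, nat_lit 28995271196, nat_lit 34888925546, nat_lit 35992922316, nat_lit 24505026184, nat_lit 25329426742, nat_lit 30364928102, nat_lit 31441269676], nat_lit 0, nat_lit 0, nat_lit 0, nat_lit 0, nat_lit 0, nat_lit 0, [], [nat_lit 18, nat_lit 40, nat_lit 40, nat_lit 80, nat_lit 2, nat_lit 226, nat_lit 20, nat_lit 6]⟩, ⟨p065_k0, nat_lit 0, nat_lit 0, nat_lit 600, nat_lit 0, nat_lit 931261, [nat_lit 3282000000, nat_lit 6250000000, nat_lit 9842000000], [], [nat_lit 37539345983, nat_lit 37739391911, nat_lit 39936910591, nat_lit 40076695463, nat_lit 33167240791, nat_lit 33283709467, nat_lit 35050125752, nat_lit 35152907908], nat_lit 1271250, nat_lit 1271250, nat_lit 1271250, nat_lit 1271250, nat_lit 0, nat_lit 1836250, [nat_lit 780000, nat_lit 1435000, nat_lit 1271250],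 [nat_lit 8, nat_lit 40, nat_lit 40, nat_lit 80, nat_lit 1, nat_lit 289, nat_lit 75, nat_lit 8]⟩,
 zbF0, [⟨nat_lit 22, nat_lit 63, nat_lit 100, nat_lit 62, nat_lit 195126136⟩]⟩
noncomputable def p065_l150 : Lf2 := ⟨nat_lit 0, nat_lit 10, [nat_lit 0, nat_lit 5, nat_lit 5, nat_lit 20], false, nat_lit 0, nat_lit 80, nat_lit 0, nat_lit 260, ⟨nat_lit 1000, nat_lit 0, nat_lit 0, nat_lit 0, nat_lit 0, nat_lit 0, nat_lit 0, nat_lit 0, nat_lit 0, nat_lit 0, nat_lit 0, nat_lit 0, nat_lit 0, nat_lit 0, nat_lit 0, nat_lit 0, false, false⟩,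
 nat_lit 0, nat_lit 0, nat_lit 9154, nat_lit 0, nat_lit 5972, nat_lit 6079, nat_lit 1178, nat_lit 0, nat_lit 0, nat_lit 2268, nat_lit 0, nat_lit 0, nat_lit 0, nat_lit 0, nat_lit 0, nat_lit 0, nat_lit 0, nat_lit 0, [],
 ⟨p065_k1, nat_lit 0, nat_lit 0, nat_lit 199, nat_lit 0, nat_lit 0, [nat_lit 3282000000, nat_lit 6250000000, nat_lit 7968000000], [], [nat_lit 28800904480, nat_lit 30435640592, nat_lit 36813734792, nat_lit 37982126832, nat_lit 25714853668, nat_lit 26582111884, nat_lit 31535790104, nat_lit 32675221552], nat_lit 0, nat_lit 0, nat_lit 0, nat_lit 0, nat_lit 0, nat_lit 0, [], [nat_lit 18, nat_lit 40, nat_lit 40, nat_lit 80, nat_lit 2, nat_lit 226, nat_lit 20, nat_lit 6]⟩, ⟨p065_k2, nat_lit 0, nat_lit 0, nat_lit 698, nat_lit 0, nat_lit 1318138, [nat_lit 3282000000, nat_lit 6250000000, nat_lit 7968000000], [], [nat_lit 33533018582, nat_lit 33695311976, nat_lit 36514362179, nat_lit 37103403694, nat_lit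 31025197602, nat_lit 31126186038, nat_lit 32424331368, nat_lit 32512504094], nat_lit 1271250, nat_lit 1271250, nat_lit 1271250, nat_lit 1271250, nat_lit 0, nat_lit 1836250, [nat_lit 780000, nat_lit 1435000, nat_lit 1271250], [nat_lit 18, nat_lit 40, nat_lit 40, nat_lit 80, nat_lit 2, nat_lit 295, nat_lit 75, nat_lit 9]⟩,
 zbF0, [⟨nat_lit 22, nat_lit 63, nat_lit 100, nat_lit 62, nat_lit 211185524⟩]⟩
noncomputable def p065_l151 : Lf2 := ⟨nat_lit 0, nat_lit 10, [nat_lit 0, nat_lit 5, nat_lit 5, nat_lit 20], false, nat_lit 80, nat_lit 160, nat_lit 0, nat_lit 300, ⟨nat_lit 255, nat_lit 745, nat_lit 0, nat_lit 8, nat_lit 353, nat_lit 745, nat_lit 82, nat_lit 0, nat_lit 0, nat_lit 0, nat_lit 0, nat_lit 0, nat_lit 35974442, nat_lit 28264606, nat_lit 2760952, nat_lit 4340099, true, true⟩,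
 nat_lit 0, nat_lit 0, nat_lit 3002, nat_lit 0, nat_lit 4727, nat_lit 1910, nat_lit 153, nat_lit 0, nat_lit 0, nat_lit 138, nat_lit 0, nat_lit 0, nat_lit 0, nat_lit 0, nat_lit 0, nat_lit 745000, nat_lit 0, nat_lit 0, [(nat_lit 12, [(nat_lit 2, nat_lit 745)])],
 ⟨p065_k0, nat_lit 0, nat_lit 0, nat_lit 156, nat_lit 0, nat_lit 0, [nat_lit 2576634001, nat_lit 3043818000, nat_lit 2290680000], [], [nat_lit 24023981081, nat_lit 24951815053, nat_lit 28774485029, nat_lit 29486156305, nat_lit 23992383042, nat_lit 24785766871, nat_lit 28248416693, nat_lit 28894616032], nat_lit 0, nat_lit 0, nat_lit 0, nat_lit 0, nat_lit 0, nat_lit 0, [], [nat_lit 8, nat_lit 40, nat_lit 40, nat_lit 80, nat_lit 1, nat_lit 249, nat_lit 40, nat_lit 6]⟩, ⟨p065_k0, nat_lit 0, nat_lit 0, nat_lit 649, nat_lit 0, nat_lit 1070055, [nat_lit 836910000, nat_lit 1593750000, nat_lit 2509710000], [], [nat_lit 9610789090, nat_lit 9661814670, nat_lit 10224090110,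 nat_lit 10269060740, nat_lit 8560718030, nat_lit 8585541424, nat_lit 8923525205, nat_lit 8938136395], nat_lit 1271250, nat_lit 1271250, nat_lit 1271250, nat_lit 1271250, nat_lit 0, nat_lit 2118750, [nat_lit 780000, nat_lit 1435000, nat_lit 1271250], [nat_lit 8, nat_lit 40, nat_lit 40, nat_lit 80, nat_lit 1, nat_lit 289, nat_lit 75, nat_lit 8]⟩,
 ⟨nat_lit 5000, nat_lit 5478, ⟨.ofNat (nat_lit 810149), .ofNat (nat_lit 959989), .ofNat (nat_lit 820822), .ofNat (nat_lit 970663), .ofNat (nat_lit 799922), .ofNat (nat_lit 942753), .ofNat (nat_lit 810631), .ofNat (nat_lit 953463)⟩, ⟨.ofNat (nat_lit 104343), .ofNat (nat_lit 254209), .ofNat (nat_lit 147057), .ofNat (nat_lit 296923), .ofNat (nat_lit 114284), .ofNat (nat_lit 257141), .ofNat (nat_lit 157141), .ofNat (nat_lit 299999)⟩⟩, [⟨nat_lit 7, nat_lit 100, nat_lit 97, nat_lit 76, nat_lit 11546713⟩, ⟨nat_lit 10, nat_lit 100, nat_lit 16, nat_lit 95, nat_lit 102434701⟩]⟩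
noncomputable def p065_l152 : Lf2 := ⟨nat_lit 0, nat_lit 10, [nat_lit 0, nat_lit 5, nat_lit 5, nat_lit 20], false, nat_lit 80, nat_lit 160, nat_lit 0, nat_lit 292, ⟨nat_lit 1000, nat_lit 0, nat_lit 0, nat_lit 0, nat_lit 0, nat_lit 0, nat_lit 0, nat_lit 0, nat_lit 0, nat_lit 0, nat_lit 0, nat_lit 0, nat_lit 0, nat_lit 0, nat_lit 0, nat_lit 0, false, false⟩,
 nat_lit 0, nat_lit 0, nat_lit 8769, nat_lit 0, nat_lit 6559, nat_lit 5823, nat_lit 711, nat_lit 0, nat_lit 0, nat_lit 2448, nat_lit 0, nat_lit 0, nat_lit 0, nat_lit 0, nat_lit 0, nat_lit 0, nat_lit 0, nat_lit 0, [],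
 ⟨p065_k2, nat_lit 0, nat_lit 0, nat_lit 135, nat_lit 0, nat_lit 0, [nat_lit 3282000000, nat_lit 6250000000, nat_lit 7968000000], [], [nat_lit 25823360641, nat_lit 26417766578, nat_lit 31906691985, nat_lit 32502451138, nat_lit 25246978321, nat_lit 25777017678, nat_lit 30672666920, nat_lit 31066322274], nat_lit 0, nat_lit 0, nat_lit 0, nat_lit 0, nat_lit 0, nat_lit 0, [], [nat_lit 18, nat_lit 40, nat_lit 40, nat_lit 80, nat_lit 2, nat_lit 249, nat_lit 40, nat_lit 7]⟩, ⟨p065_k2, nat_lit 0, nat_lit 0, nat_lit 614, nat_lit 0, nat_lit 1094085, [nat_lit 3282000000, nat_lit 6250000000, nat_lit 7968000000], [], [nat_lit 33304459637, nat_lit 33490929698, nat_lit 35832915523, nat_lit 36410364078, nat_lit 31382633602, nat_lit 31491281409, nat_lit 32905269783, nat_lit 33020085419], nat_lit 1271250, nat_lit 1271250, nat_lit 1271250, nat_lit 1271250, nat_lit 0, nat_lit 2062250, [nat_lit 780000, nat_lit 1435000, nat_lit 1271250],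 [nat_lit 18, nat_lit 40, nat_lit 40, nat_lit 80, nat_lit 2, nat_lit 289, nat_lit 75, nat_lit 9]⟩,
 zbF0, [⟨nat_lit 7, nat_lit 100, nat_lit 92, nat_lit 75, nat_lit 172826516⟩, ⟨nat_lit 10, nat_lit 100, nat_lit 14, nat_lit 95, nat_lit 9783785⟩]⟩
noncomputable def p065_l153 : Lf2 := ⟨nat_lit 0, nat_lit 10, [nat_lit 0, nat_lit 5, nat_lit 5, nat_lit 20], false, nat_lit 80, nat_lit 160, nat_lit 0, nat_lit 300, ⟨nat_lit 185, nat_lit 815, nat_lit 0, nat_lit 8, nat_lit 348, nat_lit 815, nat_lit 84, nat_lit 0, nat_lit 0, nat_lit 0, nat_lit 0, nat_lit 0, nat_lit 36354894, nat_lit 27733549, nat_lit 2911557, nat_lit 4365084, true, true⟩,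
 nat_lit 0, nat_lit 0, nat_lit 2218, nat_lit 0, nat_lit 4089, nat_lit 1411, nat_lit 0, nat_lit 0, nat_lit 0, nat_lit 94, nat_lit 0, nat_lit 0, nat_lit 0, nat_lit 0, nat_lit 0, nat_lit 674000, nat_lit 0, nat_lit 0, [(nat_lit 15, [(nat_lit 1, nat_lit 235), (nat_lit 2, nat_lit 580)])],
 ⟨p065_k1, nat_lit 0, nat_lit 0, nat_lit 138, nat_lit 0, nat_lit 0, [nat_lit 2307805001, nat_lit 2317483667, nat_lit 1613964000], [], [nat_lit 24316973217, nat_lit 25189253485, nat_lit 28569480480, nat_lit 29407244924, nat_lit 24578941531, nat_lit 25368244081, nat_lit 28363436611, nat_lit 29030933740], nat_lit 0, nat_lit 0, nat_lit 0, nat_lit 0, nat_lit 0, nat_lit 0, [], [nat_lit 18, nat_lit 40, nat_lit 40, nat_lit 80, nat_lit 2, nat_lit 249, nat_lit 40, nat_lit 7]⟩, ⟨p065_k0, nat_lit 0, nat_lit 0, nat_lit 762, nat_lit 0, nat_lit 1314528, [nat_lit 607170000, nat_lit 1156250000, nat_lit 1820770000], [], [nat_lit 7179680306, nat_lit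 7205869058, nat_lit 7519805254, nat_lit 7536877816, nat_lit 6331219232, nat_lit 6341717536, nat_lit 6521499818, nat_lit 6525809572], nat_lit 1271250, nat_lit 1271250, nat_lit 1271250, nat_lit 1271250, nat_lit 0, nat_lit 2118750, [nat_lit 780000, nat_lit 1435000, nat_lit 1271250], [nat_lit 8, nat_lit 40, nat_lit 40, nat_lit 80, nat_lit 1, nat_lit 315, nat_lit 75, nat_lit 8]⟩,
 ⟨nat_lit 4472, nat_lit 5000, ⟨.ofNat (nat_lit 799935), .ofNat (nat_lit 942783), .ofNat (nat_lit 810643), .ofNat (nat_lit 953491), .ofNat (nat_lit 790136), .ofNat (nat_lit 926083), .ofNat (nat_lit 800912), .ofNat (nat_lit 936859)⟩, ⟨.ofNat (nat_lit 114284), .ofNat (nat_lit 257141), .ofNat (nat_lit 157141), .ofNat (nat_lit 299999), .ofNat (nat_lit 123532), .ofNat (nat_lit 259489), .ofNat (nat_lit 166665), .ofNat (nat_lit 302621)⟩⟩, [⟨nat_lit 13, nat_lit 92, nat_lit 16, nat_lit 100, nat_lit 6389125⟩, ⟨nat_lit 10, nat_lit 100, nat_lit 16,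 nat_lit 95, nat_lit 108449431⟩]⟩
noncomputable def p065_l154 : Lf2 := ⟨nat_lit 0, nat_lit 10, [nat_lit 0, nat_lit 5, nat_lit 5, nat_lit 20], false, nat_lit 80, nat_lit 160, nat_lit 0, nat_lit 292, ⟨nat_lit 927, nat_lit 73, nat_lit 0, nat_lit 8, nat_lit 352, nat_lit 73, nat_lit 84, nat_lit 0, nat_lit 0, nat_lit 0, nat_lit 0, nat_lit 0, nat_lit 35991377, nat_lit 28117904, nat_lit 2890719, nat_lit 4367861, true, true⟩,
 nat_lit 0, nat_lit 0, nat_lit 8309, nat_lit 0, nat_lit 5545, nat_lit 5518, nat_lit 790, nat_lit 0, nat_lit 0, nat_lit 2249, nat_lit 0, nat_lit 0, nat_lit 0, nat_lit 0, nat_lit 0, nat_lit 73000, nat_lit 0, nat_lit 0, [(nat_lit 15, [(nat_lit 2, nat_lit 73)])],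
 ⟨p065_k1, nat_lit 0, nat_lit 0, nat_lit 138, nat_lit 0, nat_lit 0, [nat_lit 3196706801, nat_lit 5870254000, nat_lit 7335440400], [], [nat_lit 25218149040, nat_lit 26313382910, nat_lit 30832614190, nat_lit 31934156220, nat_lit 24923275540, nat_lit 25905848150, nat_lit 30055254870, nat_lit 30864017480], nat_lit 0, nat_lit 0, nat_lit 0, nat_lit 0, nat_lit 0, nat_lit 0, [], [nat_lit 18, nat_lit 40, nat_lit 40, nat_lit 80, nat_lit 2, nat_lit 249, nat_lit 40, nat_lit 7]⟩, ⟨p065_k2, nat_lit 0, nat_lit 0, nat_lit 698, nat_lit 0, nat_lit 1318138, [nat_lit 3042414000, nat_lit 5793750000, nat_lit 7386336000], [], [nat_lit 31098190114, nat_lit 31248930814, nat_lit 33536751100, nat_lit 34077483688, nat_lit 29448643416, nat_lit 29551628816, nat_lit 30672481124, nat_lit 30746671770], nat_lit 1271250, nat_lit 1271250, nat_lit 1271250, nat_lit 1271250, nat_lit 0, nat_lit 2062250, [nat_lit 780000, nat_lit 1435000, nat_lit 1271250],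 [nat_lit 18, nat_lit 40, nat_lit 40, nat_lit 80, nat_lit 2, nat_lit 299, nat_lit 75, nat_lit 9]⟩,
 ⟨nat_lit 4472, nat_lit 5000, ⟨.ofNat (nat_lit 810643), .ofNat (nat_lit 953491), .ofNat (nat_lit 821351), .ofNat (nat_lit 964199), .ofNat (nat_lit 800912), .ofNat (nat_lit 936859), .ofNat (nat_lit 811690), .ofNat (nat_lit 947637)⟩, ⟨.ofNat (nat_lit 114284), .ofNat (nat_lit 257141), .ofNat (nat_lit 157141), .ofNat (nat_lit 299999), .ofNat (nat_lit 123532), .ofNat (nat_lit 259489), .ofNat (nat_lit 166665), .ofNat (nat_lit 302621)⟩⟩, [⟨nat_lit 19, nat_lit 92, nat_lit 100, nat_lit 75, nat_lit 157209509⟩]⟩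
noncomputable def p065_l155 : Lf2 := ⟨nat_lit 0, nat_lit 10, [nat_lit 0, nat_lit 5, nat_lit 5, nat_lit 20], false, nat_lit 0, nat_lit 160, nat_lit 0, nat_lit 280, ⟨nat_lit 1000, nat_lit 0, nat_lit 0, nat_lit 0, nat_lit 0, nat_lit 0, nat_lit 0, nat_lit 0, nat_lit 0, nat_lit 0, nat_lit 0, nat_lit 0, nat_lit 0, nat_lit 0, nat_lit 0, nat_lit 0, false, false⟩,
 nat_lit 0, nat_lit 0, nat_lit 8462, nat_lit 0, nat_lit 5667, nat_lit 5858, nat_lit 1662, nat_lit 0, nat_lit 0, nat_lit 1385, nat_lit 0, nat_lit 0, nat_lit 0, nat_lit 0, nat_lit 0, nat_lit 0, nat_lit 0, nat_lit 0, [],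
 ⟨p065_k1, nat_lit 0, nat_lit 0, nat_lit 198, nat_lit 0, nat_lit 0, [nat_lit 3282000000, nat_lit 6250000000, nat_lit 7968000000], [], [nat_lit 22492323222, nat_lit 23129268626, nat_lit 35988043062, nat_lit 36558427157, nat_lit 20533838776, nat_lit 21064633179, nat_lit 30008719072, nat_lit 30513273660], nat_lit 0, nat_lit 0, nat_lit 0, nat_lit 0, nat_lit 0, nat_lit 0, [], [nat_lit 18, nat_lit 40, nat_lit 40, nat_lit 80, nat_lit 2, nat_lit 249, nat_lit 40, nat_lit 8]⟩, ⟨p065_k1, nat_lit 0, nat_lit 0, nat_lit 666, nat_lit 0, nat_lit 1217556, [nat_lit 3282000000, nat_lit 6250000000, nat_lit 7968000000], [], [nat_lit 30340136333, nat_lit 30605351655, nat_lit 36505115588, nat_lit 37084149118, nat_lit 30018628337, nat_lit 30213856798, nat_lit 32934382961, nat_lit 33055875516], nat_lit 1271250, nat_lit 1271250, nat_lit 1271250, nat_lit 1271250, nat_lit 0, nat_lit 1977500, [nat_lit 780000, nat_lit 1435000, nat_lit 1271250],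 [nat_lit 18, nat_lit 40, nat_lit 40, nat_lit 80, nat_lit 2, nat_lit 291, nat_lit 75, nat_lit 9]⟩,
 zbF0, [⟨nat_lit 19, nat_lit 88, nat_lit 100, nat_lit 74, nat_lit 159282602⟩]⟩
noncomputable def p065_l156 : Lf2 := ⟨nat_lit 0, nat_lit 10, [nat_lit 0, nat_lit 5, nat_lit 5, nat_lit 20], false, nat_lit 0, nat_lit 160, nat_lit 0, nat_lit 280, ⟨nat_lit 1000, nat_lit 0, nat_lit 0, nat_lit 0, nat_lit 0, nat_lit 0, nat_lit 0, nat_lit 0, nat_lit 0, nat_lit 0, nat_lit 0, nat_lit 0, nat_lit 0, nat_lit 0, nat_lit 0, nat_lit 0, false, false⟩,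
 nat_lit 0, nat_lit 0, nat_lit 8182, nat_lit 0, nat_lit 5445, nat_lit 5664, nat_lit 1468, nat_lit 0, nat_lit 0, nat_lit 1530, nat_lit 0, nat_lit 0, nat_lit 0, nat_lit 0, nat_lit 0, nat_lit 0, nat_lit 0, nat_lit 0, [],
 ⟨p065_k23, nat_lit 0, nat_lit 0, nat_lit 199, nat_lit 0, nat_lit 0, [nat_lit 3282000000, nat_lit 6250000000, nat_lit 7968000000], [], [nat_lit 22601168545, nat_lit 23593053600, nat_lit 35947378595, nat_lit 36507709420, nat_lit 20645714715, nat_lit 21166472720, nat_lit 30241772100, nat_lit 30737943080], nat_lit 0, nat_lit 0, nat_lit 0, nat_lit 0, nat_lit 0, nat_lit 0, [], [nat_lit 18, nat_lit 40, nat_lit 40, nat_lit 80, nat_lit 2, nat_lit 249, nat_lit 40, nat_lit 8]⟩, ⟨p065_k1, nat_lit 0, nat_lit 0, nat_lit 754, nat_lit 0, nat_lit 1406917, [nat_lit 3282000000, nat_lit 6250000000, nat_lit 7968000000], [], [nat_lit 32840408942, nat_lit 33369506110, nat_lit 36766149774, nat_lit 37121858848, nat_lit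 32483017942, nat_lit 32822754894, nat_lit 35282243760, nat_lit 35529659968], nat_lit 1271250, nat_lit 1271250, nat_lit 1271250, nat_lit 1271250, nat_lit 0, nat_lit 1977500, [nat_lit 780000, nat_lit 1435000, nat_lit 1271250], [nat_lit 18, nat_lit 40, nat_lit 40, nat_lit 80, nat_lit 2, nat_lit 314, nat_lit 75, nat_lit 10]⟩,
 zbF0, [⟨nat_lit 19, nat_lit 85, nat_lit 100, nat_lit 73, nat_lit 237413431⟩]⟩
noncomputable def b_V_700_700_10_2 : St := ⟨true, nat_lit 0, nat_lit 1, nat_lit 1, nat_lit 80, nat_lit 280, nat_lit 320, nat_lit 280, nat_lit 320, nat_lit 240, nat_lit 400, nat_lit 40, nat_lit 80, nat_lit 0, nat_lit 160, nat_lit 0, nat_lit 300, nat_lit 0, nat_lit 40, nat_lit 0, nat_lit 0, nat_lit 0, nat_lit 0⟩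
theorem d_V_700_700_10_2 (h : EB TB.env) : Dead b_V_700_700_10_2 := chkB_sound0 h (T :=
(.spl (nat_lit 1) (nat_lit 300)
(.spl (nat_lit 2) (nat_lit 320)
(.spl (nat_lit 0) (nat_lit 300)
(.spl (nat_lit 1) (nat_lit 290)
(.leaf p065_l140)
(.ord (.trX (nat_lit 19) (nat_lit 100) (nat_lit 100) (nat_lit 89) (nat_lit 292) (.leaf p065_l141))))
(.spl (nat_lit 4) (nat_lit 80)
(.spl (nat_lit 0) (nat_lit 310)
(.leaf p065_l142)
(.leaf p065_l143))
(.leaf p065_l144)))
(.spl (nat_lit 4) (nat_lit 80)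
(.trX (nat_lit 22) (nat_lit 83) (nat_lit 100) (nat_lit 83) (nat_lit 260) (.spl (nat_lit 0) (nat_lit 300)
(.spl (nat_lit 1) (nat_lit 290)
(.leaf p065_l145)
(.ord (.leaf p065_l146)))
(.spl (nat_lit 1) (nat_lit 290)
(.spl (nat_lit 6) (nat_lit 20)
(.spl (nat_lit 0) (nat_lit 310)
(.leaf p065_l147)
(.leaf p065_l148))
(.leaf p065_l149))
(.leaf p065_l150))))
(.spl (nat_lit 0) (nat_lit 300)
(.spl (nat_lit 1) (nat_lit 290)
(.leaf p065_l151)
(.ord (.trX (nat_lit 19) (nat_lit 100) (nat_lit 100) (nat_lit 89) (nat_lit 292) (.leaf p065_l152))))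
(.spl (nat_lit 1) (nat_lit 290)
(.leaf p065_l153)
(.trX (nat_lit 19) (nat_lit 100) (nat_lit 100) (nat_lit 89) (nat_lit 292) (.leaf p065_l154))))))
(.ord (.trX (nat_lit 19) (nat_lit 94) (nat_lit 100) (nat_lit 87) (nat_lit 280) (.spl (nat_lit 0) (nat_lit 310)
(.ord (.leaf p065_l155))
(.leaf p065_l156)))))) (by decide +kernel)

end B2
end Pool.Agent.Lib.MP_6947cd_al
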