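import Pool.Agent.Lib.MP_6947cd_al.ZB.Pre

/-!
Problem MP_6947cd_al (Chollet).  Case B, second entry in [2/5, 17/20]: certificates of the tree, part P066 (generated).
-/

set_option autoImplicit false
set_option linter.all false

namespace Pool.Agent.Lib.MP_6947cd_al
namespace B2

open Ent Fr B1 PkA

noncomputable def p066_k0 : C1.Kn := ⟨[nat_lit 60, nat_lit 100, nat_lit 140], [nat_lit 0, nat_lit 0, nat_lit 2047], [(nat_lit 0, nat_lit 0, nat_lit 0), (nat_lit 0, nat_lit 0, nat_lit 0), (nat_lit 1000, nat_lit 993, nat_lit 781)], (nat_lit 94, nat_lit 100, nat_lit 62)⟩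
noncomputable def p066_k1 : C1.Kn := ⟨[nat_lit 60, nat_lit 100, nat_lit 120], [nat_lit 0, nat_lit 609, nat_lit 1609], [(nat_lit 0, nat_lit 0, nat_lit 0), (nat_lit 1000, nat_lit 905, nat_lit 238), (nat_lit 1000, nat_lit 882, nat_lit 668)], (nat_lit 87, nat_lit 100, nat_lit 60)⟩
noncomputable def p066_k2 : C1.Kn := ⟨[nat_lit 60, nat_lit 140], [nat_lit 0, nat_lit 0], [(nat_lit 0, nat_lit 0, nat_lit 0), (nat_lit 0, nat_lit 0, nat_lit 0)], (nat_lit 94, nat_lit 100, nat_lit 62)⟩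
noncomputable def p066_k3 : C1.Kn := ⟨[nat_lit 60, nat_lit 100, nat_lit 120], [nat_lit 0, nat_lit 0, nat_lit 1164], [(nat_lit 0, nat_lit 0, nat_lit 0), (nat_lit 0, nat_lit 0, nat_lit 0), (nat_lit 1000, nat_lit 933, nat_lit 572)], (nat_lit 92, nat_lit 100, nat_lit 44)⟩
noncomputable def p066_k4 : C1.Kn := ⟨[nat_lit 60, nat_lit 100], [nat_lit 0, nat_lit 609], [(nat_lit 0, nat_lit 0, nat_lit 0), (nat_lit 1000, nat_lit 905, nat_lit 238)], (nat_lit 87, nat_lit 100, nat_lit 44)⟩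
noncomputable def p066_k5 : C1.Kn := ⟨[nat_lit 60, nat_lit 100, nat_lit 120], [nat_lit 0, nat_lit 151, nat_lit 1267], [(nat_lit 0, nat_lit 0, nat_lit 0), (nat_lit 1000, nat_lit 977, nat_lit 59), (nat_lit 1000, nat_lit 921, nat_lit 595)], (nat_lit 91, nat_lit 100, nat_lit 44)⟩
noncomputable def p066_k6 : C1.Kn := ⟨[nat_lit 60, nat_lit 100, nat_lit 120], [nat_lit 0, nat_lit 302, nat_lit 1376], [(nat_lit 0, nat_lit 0, nat_lit 0), (nat_lit 1000, nat_lit 953, nat_lit 118), (nat_lit 1000, nat_lit 911, nat_lit 628)], (nat_lit 91, nat_lit 100, nat_lit 61)⟩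
noncomputable def p066_k7 : C1.Kn := ⟨[nat_lit 60, nat_lit 100, nat_lit 120], [nat_lit 0, nat_lit 909, nat_lit 1866], [(nat_lit 0, nat_lit 0, nat_lit 0), (nat_lit 1000, nat_lit 858, nat_lit 354), (nat_lit 1000, nat_lit 849, nat_lit 705)], (nat_lit 84, nat_lit 100, nat_lit 60)⟩
noncomputable def p066_k8 : C1.Kn := ⟨[nat_lit 60, nat_lit 120], [nat_lit 0, nat_lit 0], [(nat_lit 0, nat_lit 0, nat_lit 0), (nat_lit 0, nat_lit 0, nat_lit 0)], (nat_lit 92, nat_lit 100, nat_lit 44)⟩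
noncomputable def p066_k9 : C1.Kn := ⟨[nat_lit 60, nat_lit 100, nat_lit 140], [nat_lit 0, nat_lit 151, nat_lit 2175], [(nat_lit 0, nat_lit 0, nat_lit 0), (nat_lit 1000, nat_lit 977, nat_lit 59), (nat_lit 1000, nat_lit 974, nat_lit 785)], (nat_lit 92, nat_lit 100, nat_lit 61)⟩
noncomputable def p066_k10 : C1.Kn := ⟨[nat_lit 60, nat_lit 100, nat_lit 120], [nat_lit 0, nat_lit 455, nat_lit 1489], [(nat_lit 0, nat_lit 0, nat_lit 0), (nat_lit 1000, nat_lit 929, nat_lit 178), (nat_lit 1000, nat_lit 895, nat_lit 641)], (nat_lit 89, nat_lit 100, nat_lit 61)⟩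
noncomputable def p066_k11 : C1.Kn := ⟨[nat_lit 60, nat_lit 80, nat_lit 140], [nat_lit 0, nat_lit 0, nat_lit 1595], [(nat_lit 0, nat_lit 0, nat_lit 0), (nat_lit 0, nat_lit 0, nat_lit 0), (nat_lit 1000, nat_lit 917, nat_lit 415)], (nat_lit 94, nat_lit 100, nat_lit 62)⟩
noncomputable def p066_k12 : C1.Kn := ⟨[nat_lit 60, nat_lit 80], [nat_lit 0, nat_lit 0], [(nat_lit 0, nat_lit 0, nat_lit 0), (nat_lit 0, nat_lit 0, nat_lit 0)], (nat_lit 94, nat_lit 100, nat_lit 20)⟩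
noncomputable def p066_k13 : C1.Kn := ⟨[nat_lit 60, nat_lit 100], [nat_lit 0, nat_lit 0], [(nat_lit 0, nat_lit 0, nat_lit 0), (nat_lit 0, nat_lit 0, nat_lit 0)], (nat_lit 92, nat_lit 100, nat_lit 28)⟩
noncomputable def p066_k14 : C1.Kn := ⟨[nat_lit 60, nat_lit 100, nat_lit 120], [nat_lit 0, nat_lit 84, nat_lit 1225], [(nat_lit 0, nat_lit 0, nat_lit 0), (nat_lit 1000, nat_lit 987, nat_lit 33), (nat_lit 1000, nat_lit 925, nat_lit 584)], (nat_lit 91, nat_lit 100, nat_lit 44)⟩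
noncomputable def p066_k15 : C1.Kn := ⟨[nat_lit 60, nat_lit 100, nat_lit 140], [nat_lit 0, nat_lit 84, nat_lit 2124], [(nat_lit 0, nat_lit 0, nat_lit 0), (nat_lit 1000, nat_lit 987, nat_lit 33), (nat_lit 1000, nat_lit 984, nat_lit 790)], (nat_lit 93, nat_lit 100, nat_lit 61)⟩
noncomputable def p066_k16 : C1.Kn := ⟨[nat_lit 60, nat_lit 80, nat_lit 100], [nat_lit 0, nat_lit 119, nat_lit 650], [(nat_lit 0, nat_lit 0, nat_lit 0), (nat_lit 1000, nat_lit 963, nat_lit 93), (nat_lit 1000, nat_lit 898, nat_lit 413)], (nat_lit 90, nat_lit 100, nat_lit 44)⟩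
noncomputable def p066_k17 : C1.Kn := ⟨[nat_lit 60, nat_lit 80, nat_lit 120], [nat_lit 0, nat_lit 0, nat_lit 1064], [(nat_lit 0, nat_lit 0, nat_lit 0), (nat_lit 0, nat_lit 0, nat_lit 0), (nat_lit 1000, nat_lit 917, nat_lit 415)], (nat_lit 92, nat_lit 100, nat_lit 44)⟩
noncomputable def p066_k18 : C1.Kn := ⟨[nat_lit 60, nat_lit 80, nat_lit 100], [nat_lit 0, nat_lit 0, nat_lit 534], [(nat_lit 0, nat_lit 0, nat_lit 0), (nat_lit 0, nat_lit 0, nat_lit 0), (nat_lit 1000, nat_lit 917, nat_lit 393)], (nat_lit 92, nat_lit 100, nat_lit 28)⟩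
noncomputable def p066_k19 : C1.Kn := ⟨[nat_lit 60, nat_lit 80, nat_lit 120], [nat_lit 0, nat_lit 75, nat_lit 1136], [(nat_lit 0, nat_lit 0, nat_lit 0), (nat_lit 1000, nat_lit 977, nat_lit 59), (nat_lit 1000, nat_lit 905, nat_lit 414)], (nat_lit 91, nat_lit 100, nat_lit 44)⟩
noncomputable def p066_k20 : C1.Kn := ⟨[nat_lit 60, nat_lit 80, nat_lit 140], [nat_lit 0, nat_lit 42, nat_lit 1644], [(nat_lit 0, nat_lit 0, nat_lit 0), (nat_lit 1000, nat_lit 987, nat_lit 33), (nat_lit 1000, nat_lit 910, nat_lit 417)], (nat_lit 93, nat_lit 100, nat_lit 61)⟩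
noncomputable def p066_k21 : C1.Kn := ⟨[nat_lit 60, nat_lit 80, nat_lit 140], [nat_lit 0, nat_lit 75, nat_lit 1666], [(nat_lit 0, nat_lit 0, nat_lit 0), (nat_lit 1000, nat_lit 977, nat_lit 59), (nat_lit 1000, nat_lit 905, nat_lit 414)], (nat_lit 92, nat_lit 100, nat_lit 61)⟩
noncomputable def p066_k22 : C1.Kn := ⟨[nat_lit 60, nat_lit 80, nat_lit 120], [nat_lit 0, nat_lit 151, nat_lit 1205], [(nat_lit 0, nat_lit 0, nat_lit 0), (nat_lit 1000, nat_lit 953, nat_lit 118), (nat_lit 1000, nat_lit 894, nat_lit 411)], (nat_lit 91, nat_lit 100, nat_lit 61)⟩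
noncomputable def p066_k23 : C1.Kn := ⟨[nat_lit 60, nat_lit 80, nat_lit 100], [nat_lit 0, nat_lit 151, nat_lit 679], [(nat_lit 0, nat_lit 0, nat_lit 0), (nat_lit 1000, nat_lit 953, nat_lit 118), (nat_lit 1000, nat_lit 894, nat_lit 411)], (nat_lit 89, nat_lit 100, nat_lit 44)⟩
noncomputable def p066_k24 : C1.Kn := ⟨[nat_lit 60, nat_lit 80, nat_lit 100], [nat_lit 0, nat_lit 228, nat_lit 751], [(nat_lit 0, nat_lit 0, nat_lit 0), (nat_lit 1000, nat_lit 929, nat_lit 178), (nat_lit 1000, nat_lit 883, nat_lit 407)], (nat_lit 88, nat_lit 100, nat_lit 44)⟩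
noncomputable def p066_k25 : C1.Kn := ⟨[nat_lit 60, nat_lit 100, nat_lit 120], [nat_lit 0, nat_lit 1063, nat_lit 2005], [(nat_lit 0, nat_lit 0, nat_lit 0), (nat_lit 1000, nat_lit 834, nat_lit 414), (nat_lit 1000, nat_lit 833, nat_lit 732)], (nat_lit 82, nat_lit 100, nat_lit 60)⟩
noncomputable def p066_k26 : C1.Kn := ⟨[nat_lit 60, nat_lit 100, nat_lit 120], [nat_lit 0, nat_lit 755, nat_lit 1734], [(nat_lit 0, nat_lit 0, nat_lit 0), (nat_lit 1000, nat_lit 882, nat_lit 294), (nat_lit 1000, nat_lit 866, nat_lit 684)], (nat_lit 85, nat_lit 100, nat_lit 60)⟩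
noncomputable def p066_l0 : Lf2 := ⟨nat_lit 0, nat_lit 10, [nat_lit 0, nat_lit 5, nat_lit 5, nat_lit 20], false, nat_lit 160, nat_lit 300, nat_lit 0, nat_lit 300, ⟨nat_lit 118, nat_lit 882, nat_lit 0, nat_lit 7, nat_lit 281, nat_lit 882, nat_lit 161, nat_lit 0, nat_lit 0, nat_lit 0, nat_lit 0, nat_lit 0, nat_lit 38641623, nat_lit 20107282, nat_lit 8251095, nat_lit 5028862, true, false⟩,
 nat_lit 0, nat_lit 0, nat_lit 1624, nat_lit 0, nat_lit 3975, nat_lit 1033, nat_lit 0, nat_lit 0, nat_lit 0, nat_lit 83, nat_lit 0, nat_lit 0, nat_lit 0, nat_lit 1218914005725, nat_lit 0, nat_lit 352800, nat_lit 0, nat_lit 0, [(nat_lit 12, [(nat_lit 1, nat_lit 882)]), (nat_lit 15, [(nat_lit 1, nat_lit 882)])],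
 ⟨p066_k0, nat_lit 0, nat_lit 0, nat_lit 48, nat_lit 0, nat_lit 0, [nat_lit 2211604800, nat_lit 3137598400, nat_lit 3486660800], [], [nat_lit 17108861200, nat_lit 19672530800, nat_lit 19200920700, nat_lit 21534085300, nat_lit 22668992850, nat_lit 24636033875, nat_lit 24204987200, nat_lit 26122462400], nat_lit 0, nat_lit 0, nat_lit 0, nat_lit 0, nat_lit 0, nat_lit 0, [], [nat_lit 8, nat_lit 40, nat_lit 40, nat_lit 80, nat_lit 1, nat_lit 373, nat_lit 150, nat_lit 10]⟩, ⟨p066_k0, nat_lit 0, nat_lit 0, nat_lit 815, nat_lit 0, nat_lit 1400535, [nat_lit 387276000, nat_lit 737500000, nat_lit 1161356000], [], [nat_lit 3805257344, nat_lit 3844745136, nat_lit 3848528908, nat_lit 3882535768, nat_lit 3228221052, nat_lit 3243425737, nat_lit 3230020014, nat_lit 3259354356], nat_lit 1271250, nat_lit 1271250, nat_lit 1271250, nat_lit 1271250, nat_lit 0, nat_lit 2118750, [nat_lit 780000, nat_lit 1435000, nat_lit 1271250], [nat_lit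 8, nat_lit 40, nat_lit 40, nat_lit 80, nat_lit 1, nat_lit 373, nat_lit 150, nat_lit 10]⟩,
 ⟨nat_lit 4472, nat_lit 5478, ⟨.ofNat (nat_lit 660148), .ofNat (nat_lit 735046), .ofNat (nat_lit 681461), .ofNat (nat_lit 756359), .ofNat (nat_lit 654031), .ofNat (nat_lit 721974), .ofNat (nat_lit 675553), .ofNat (nat_lit 743496)⟩, ⟨.ofNat (nat_lit 254209), .ofNat (nat_lit 516475), .ofNat (nat_lit 296923), .ofNat (nat_lit 559189), .ofNat (nat_lit 259489), .ofNat (nat_lit 497412), .ofNat (nat_lit 302621), .ofNat (nat_lit 540545)⟩⟩, [⟨nat_lit 16, nat_lit 100, nat_lit 95, nat_lit 87, nat_lit 203781305⟩, ⟨nat_lit 19, nat_lit 100, nat_lit 95, nat_lit 87, nat_lit 12304879⟩]⟩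
noncomputable def p066_l1 : Lf2 := ⟨nat_lit 0, nat_lit 10, [nat_lit 0, nat_lit 5, nat_lit 5, nat_lit 20], false, nat_lit 160, nat_lit 300, nat_lit 4, nat_lit 300, ⟨nat_lit 118, nat_lit 882, nat_lit 0, nat_lit 7, nat_lit 312, nat_lit 882, nat_lit 162, nat_lit 0, nat_lit 0, nat_lit 0, nat_lit 0, nat_lit 0, nat_lit 36277224, nat_lit 22777971, nat_lit 7944805, nat_lit 5107036, true, true⟩,
 nat_lit 0, nat_lit 0, nat_lit 1517, nat_lit 0, nat_lit 3756, nat_lit 965, nat_lit 0, nat_lit 0, nat_lit 0, nat_lit 80, nat_lit 0, nat_lit 0, nat_lit 0, nat_lit 9252151671579, nat_lit 0, nat_lit 352800, nat_lit 0, nat_lit 0, [(nat_lit 12, [(nat_lit 1, nat_lit 882)])],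
 ⟨p066_k0, nat_lit 0, nat_lit 0, nat_lit 52, nat_lit 0, nat_lit 0, [nat_lit 2211604800, nat_lit 3137598400, nat_lit 3486660800], [], [nat_lit 19403941584, nat_lit 20541425792, nat_lit 21678910000, nat_lit 22703903976, nat_lit 24340525424, nat_lit 25199584780, nat_lit 26058644136, nat_lit 26837348542], nat_lit 0, nat_lit 0, nat_lit 0, nat_lit 0, nat_lit 0, nat_lit 0, [], [nat_lit 8, nat_lit 40, nat_lit 40, nat_lit 80, nat_lit 1, nat_lit 289, nat_lit 75, nat_lit 7]⟩, ⟨p066_k0, nat_lit 0, nat_lit 0, nat_lit 707, nat_lit 0, nat_lit 1162137, [nat_lit 387276000, nat_lit 737500000, nat_lit 1161356000], [], [nat_lit 3889312032, nat_lit 3943866680, nat_lit 3998421327, nat_lit 4045571608, nat_lit 3444621291, nat_lit 3480285948, nat_lit 3515950604, nat_lit 3545928588], nat_lit 1271250, nat_lit 1271250, nat_lit 1271250, nat_lit 1271250, nat_lit 21650, nat_lit 2123250, [nat_lit 780000, nat_lit 1435000, nat_lit 1271250], [nat_lit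 8, nat_lit 40, nat_lit 40, nat_lit 80, nat_lit 1, nat_lit 292, nat_lit 75, nat_lit 8]⟩,
 ⟨nat_lit 5000, nat_lit 5478, ⟨.ofNat (nat_lit 735229), .ofNat (nat_lit 810149), .ofNat (nat_lit 756576), .ofNat (nat_lit 831496), .ofNat (nat_lit 728506), .ofNat (nat_lit 799922), .ofNat (nat_lit 749924), .ofNat (nat_lit 821340)⟩, ⟨.ofNat (nat_lit 254209), .ofNat (nat_lit 516475), .ofNat (nat_lit 296923), .ofNat (nat_lit 559189), .ofNat (nat_lit 257141), .ofNat (nat_lit 507141), .ofNat (nat_lit 299999), .ofNat (nat_lit 549998)⟩⟩, [⟨nat_lit 16, nat_lit 100, nat_lit 95, nat_lit 87, nat_lit 182869820⟩, ⟨nat_lit 19, nat_lit 100, nat_lit 95, nat_lit 87, nat_lit 14789950⟩]⟩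
noncomputable def p066_l2 : Lf2 := ⟨nat_lit 0, nat_lit 10, [nat_lit 0, nat_lit 5, nat_lit 5, nat_lit 20], false, nat_lit 160, nat_lit 280, nat_lit 4, nat_lit 300, ⟨nat_lit 109, nat_lit 891, nat_lit 0, nat_lit 7, nat_lit 308, nat_lit 891, nat_lit 154, nat_lit 0, nat_lit 0, nat_lit 0, nat_lit 0, nat_lit 0, nat_lit 36908032, nat_lit 22677706, nat_lit 7414262, nat_lit 5029611, true, true⟩,
 nat_lit 0, nat_lit 0, nat_lit 1442, nat_lit 0, nat_lit 3764, nat_lit 917, nat_lit 0, nat_lit 0, nat_lit 0, nat_lit 66, nat_lit 0, nat_lit 0, nat_lit 0, nat_lit 0, nat_lit 0, nat_lit 356400, nat_lit 0, nat_lit 0, [(nat_lit 15, [(nat_lit 1, nat_lit 891)])],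
 ⟨p066_k1, nat_lit 0, nat_lit 0, nat_lit 54, nat_lit 0, nat_lit 0, [nat_lit 2157736200, nat_lit 2779436201, nat_lit 2938805999], [], [nat_lit 20481203848, nat_lit 21619751000, nat_lit 22645630944, nat_lit 23671510888, nat_lit 24332870816, nat_lit 25234499768, nat_lit 26051054572, nat_lit 26940814928], nat_lit 0, nat_lit 0, nat_lit 0, nat_lit 0, nat_lit 0, nat_lit 0, [], [nat_lit 18, nat_lit 40, nat_lit 40, nat_lit 80, nat_lit 2, nat_lit 289, nat_lit 75, nat_lit 8]⟩, ⟨p066_k0, nat_lit 0, nat_lit 0, nat_lit 797, nat_lit 0, nat_lit 1400535, [nat_lit 357738000, nat_lit 681250000, nat_lit 1072778000], [], [nat_lit 3753656045, nat_lit 3785180510, nat_lit 3816704975, nat_lit 3843148259, nat_lit 3239715236, nat_lit 3251193084, nat_lit 3262670931, nat_lit 3272736334], nat_lit 1271250, nat_lit 1271250, nat_lit 1271250, nat_lit 1271250, nat_lit 21650, nat_lit 2123250, [nat_lit 780000, nat_lit 1435000, nat_lit 1271250], [nat_lit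 8, nat_lit 40, nat_lit 40, nat_lit 80, nat_lit 1, nat_lit 315, nat_lit 75, nat_lit 8]⟩,
 ⟨nat_lit 4472, nat_lit 5000, ⟨.ofNat (nat_lit 728511), .ofNat (nat_lit 799935), .ofNat (nat_lit 749927), .ofNat (nat_lit 821351), .ofNat (nat_lit 722162), .ofNat (nat_lit 790136), .ofNat (nat_lit 743716), .ofNat (nat_lit 811690)⟩, ⟨.ofNat (nat_lit 257141), .ofNat (nat_lit 471427), .ofNat (nat_lit 299999), .ofNat (nat_lit 514284), .ofNat (nat_lit 259489), .ofNat (nat_lit 463423), .ofNat (nat_lit 302621), .ofNat (nat_lit 506556)⟩⟩, [⟨nat_lit 16, nat_lit 94, nat_lit 100, nat_lit 87, nat_lit 185735943⟩, ⟨nat_lit 19, nat_lit 100, nat_lit 95, nat_lit 87, nat_lit 11645096⟩]⟩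
noncomputable def p066_l3 : Lf2 := ⟨nat_lit 0, nat_lit 10, [nat_lit 0, nat_lit 5, nat_lit 5, nat_lit 20], true, nat_lit 160, nat_lit 240, nat_lit 16, nat_lit 300, ⟨nat_lit 0, nat_lit 1000, nat_lit 0, nat_lit 8, nat_lit 336, nat_lit 1000, nat_lit 140, nat_lit 0, nat_lit 0, nat_lit 0, nat_lit 0, nat_lit 0, nat_lit 35329812, nat_lit 25461348, nat_lit 6208840, nat_lit 4939131, true, true⟩,
 nat_lit 0, nat_lit 0, nat_lit 0, nat_lit 1000, nat_lit 3831, nat_lit 0, nat_lit 0, nat_lit 0, nat_lit 0, nat_lit 0, nat_lit 0, nat_lit 0, nat_lit 0, nat_lit 0, nat_lit 0, nat_lit 250000, nat_lit 0, nat_lit 0, [(nat_lit 12, [(nat_lit 0, nat_lit 1000)]), (nat_lit 15, [(nat_lit 0, nat_lit 1000)])],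
 ⟨p066_k2, nat_lit 0, nat_lit 0, nat_lit 51, nat_lit 0, nat_lit 0, [nat_lit 2378800001, nat_lit 3513428572], [], [nat_lit 21796507701, nat_lit 23863107553, nat_lit 24278360989, nat_lit 26116104553, nat_lit 23879506145, nat_lit 25673414917, nat_lit 26042310077, nat_lit 27643726045], nat_lit 0, nat_lit 0, nat_lit 0, nat_lit 0, nat_lit 0, nat_lit 0, [], [nat_lit 82, nat_lit 40, nat_lit 40, nat_lit 80, nat_lit 63, nat_lit 272, nat_lit 60, nat_lit 7]⟩, C1.Rw.none,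
 ⟨nat_lit 4472, nat_lit 5478, ⟨.ofNat (nat_lit 809944), .ofNat (nat_lit 884842), .ofNat (nat_lit 820601), .ofNat (nat_lit 895498), .ofNat (nat_lit 789917), .ofNat (nat_lit 857861), .ofNat (nat_lit 800679), .ofNat (nat_lit 868622)⟩, ⟨.ofNat (nat_lit 254209), .ofNat (nat_lit 404075), .ofNat (nat_lit 296923), .ofNat (nat_lit 446789), .ofNat (nat_lit 259489), .ofNat (nat_lit 395445), .ofNat (nat_lit 302621), .ofNat (nat_lit 438578)⟩⟩, []⟩
noncomputable def p066_l4 : Lf2 := ⟨nat_lit 0, nat_lit 5, [nat_lit 4, nat_lit 5, nat_lit 5, nat_lit 20], false, nat_lit 160, nat_lit 240, nat_lit 48, nat_lit 300, ⟨nat_lit 192, nat_lit 808, nat_lit 0, nat_lit 9, nat_lit 368, nat_lit 808, nat_lit 140, nat_lit 0, nat_lit 0, nat_lit 0, nat_lit 0, nat_lit 0, nat_lit 32956163, nat_lit 28141764, nat_lit 5902073, nat_lit 4942234, true, true⟩,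
 nat_lit 0, nat_lit 0, nat_lit 2270, nat_lit 0, nat_lit 4383, nat_lit 1444, nat_lit 0, nat_lit 0, nat_lit 0, nat_lit 82, nat_lit 0, nat_lit 0, nat_lit 0, nat_lit 0, nat_lit 0, nat_lit 808000, nat_lit 0, nat_lit 0, [(nat_lit 12, [(nat_lit 2, nat_lit 808)])],
 ⟨p066_k3, nat_lit 0, nat_lit 0, nat_lit 86, nat_lit 0, nat_lit 0, [nat_lit 2516985601, nat_lit 2772691200, nat_lit 1940643200], [], [nat_lit 25731344117, nat_lit 26510286191, nat_lit 27989405841, nat_lit 28691659788, nat_lit 27129268649, nat_lit 27805939727, nat_lit 29133785232, nat_lit 29784321224], nat_lit 0, nat_lit 0, nat_lit 0, nat_lit 0, nat_lit 0, nat_lit 0, [], [nat_lit 18, nat_lit 40, nat_lit 40, nat_lit 80, nat_lit 2, nat_lit 272, nat_lit 60, nat_lit 7]⟩, ⟨p066_k3, nat_lit 0, nat_lit 0, nat_lit 552, nat_lit 0, nat_lit 1037181, [nat_lit 630144000, nat_lit 1200000000, nat_lit 1529856000], [], [nat_lit 6968641983, nat_lit 7004096985, nat_lit 7228617839,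 nat_lit 7257999068, nat_lit 6519951872, nat_lit 6537749721, nat_lit 6686667672, nat_lit 6700620818], nat_lit 1271250, nat_lit 1271250, nat_lit 1271250, nat_lit 1271250, nat_lit 279600, nat_lit 2172750, [nat_lit 780000, nat_lit 1435000, nat_lit 1271250], [nat_lit 18, nat_lit 40, nat_lit 40, nat_lit 80, nat_lit 2, nat_lit 289, nat_lit 75, nat_lit 8]⟩,
 ⟨nat_lit 5000, nat_lit 5478, ⟨.ofNat (nat_lit 885069), .ofNat (nat_lit 959989), .ofNat (nat_lit 895742), .ofNat (nat_lit 970663), .ofNat (nat_lit 871337), .ofNat (nat_lit 942753), .ofNat (nat_lit 882047), .ofNat (nat_lit 953463)⟩, ⟨.ofNat (nat_lit 254209), .ofNat (nat_lit 404075), .ofNat (nat_lit 296923), .ofNat (nat_lit 446789), .ofNat (nat_lit 257141), .ofNat (nat_lit 399998), .ofNat (nat_lit 299999), .ofNat (nat_lit 442856)⟩⟩, [⟨nat_lit 13, nat_lit 99, nat_lit 3, nat_lit 100, nat_lit 128824432⟩, ⟨nat_lit 4, nat_lit 100, nat_lit 94, nat_lit 75, nat_lit 116520103⟩,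 ⟨nat_lit 19, nat_lit 97, nat_lit 100, nat_lit 76, nat_lit 34945919⟩]⟩
noncomputable def p066_l5 : Lf2 := ⟨nat_lit 0, nat_lit 5, [nat_lit 4, nat_lit 5, nat_lit 5, nat_lit 20], false, nat_lit 160, nat_lit 240, nat_lit 48, nat_lit 300, ⟨nat_lit 148, nat_lit 852, nat_lit 0, nat_lit 9, nat_lit 361, nat_lit 852, nat_lit 140, nat_lit 0, nat_lit 0, nat_lit 0, nat_lit 0, nat_lit 0, nat_lit 33488556, nat_lit 27555027, nat_lit 5956417, nat_lit 4942605, true, true⟩,
 nat_lit 0, nat_lit 0, nat_lit 1790, nat_lit 0, nat_lit 3983, nat_lit 1138, nat_lit 0, nat_lit 0, nat_lit 0, nat_lit 59, nat_lit 0, nat_lit 0, nat_lit 0, nat_lit 0, nat_lit 0, nat_lit 610200, nat_lit 0, nat_lit 0, [(nat_lit 15, [(nat_lit 1, nat_lit 403), (nat_lit 2, nat_lit 449)])],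
 ⟨p066_k4, nat_lit 0, nat_lit 0, nat_lit 78, nat_lit 0, nat_lit 0, [nat_lit 2248883001, nat_lit 2315725799], [], [nat_lit 26351886190, nat_lit 27107037064, nat_lit 28423179712, nat_lit 29091173584, nat_lit 27685862926, nat_lit 28345467604, nat_lit 29515597286, nat_lit 30128254688], nat_lit 0, nat_lit 0, nat_lit 0, nat_lit 0, nat_lit 0, nat_lit 0, [], [nat_lit 49, nat_lit 40, nat_lit 40, nat_lit 80, nat_lit 16, nat_lit 272, nat_lit 60, nat_lit 8]⟩, ⟨p066_k3, nat_lit 0, nat_lit 0, nat_lit 637, nat_lit 0, nat_lit 1235289, [nat_lit 485736000, nat_lit 925000000, nat_lit 1179264000], [], [nat_lit 5491123608, nat_lit 5500641858, nat_lit 5646639473, nat_lit 5654254841, nat_lit 5064397000, nat_lit 5068272935, nat_lit 5160658690, nat_lit 5163158074], nat_lit 1271250, nat_lit 1271250, nat_lit 1271250, nat_lit 1271250, nat_lit 279600, nat_lit 2172750, [nat_lit 780000, nat_lit 1435000, nat_lit 1271250], [nat_lit 18, nat_lit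 40, nat_lit 40, nat_lit 80, nat_lit 2, nat_lit 289, nat_lit 75, nat_lit 8]⟩,
 ⟨nat_lit 4472, nat_lit 5000, ⟨.ofNat (nat_lit 871359), .ofNat (nat_lit 942783), .ofNat (nat_lit 876713), .ofNat (nat_lit 948137), .ofNat (nat_lit 858109), .ofNat (nat_lit 926083), .ofNat (nat_lit 863497), .ofNat (nat_lit 931471)⟩, ⟨.ofNat (nat_lit 257141), .ofNat (nat_lit 399998), .ofNat (nat_lit 299999), .ofNat (nat_lit 442856), .ofNat (nat_lit 259489), .ofNat (nat_lit 395445), .ofNat (nat_lit 302621), .ofNat (nat_lit 438578)⟩⟩, [⟨nat_lit 13, nat_lit 87, nat_lit 25, nat_lit 100, nat_lit 142120082⟩, ⟨nat_lit 4, nat_lit 100, nat_lit 85, nat_lit 73, nat_lit 105984032⟩, ⟨nat_lit 7, nat_lit 100, nat_lit 98, nat_lit 77, nat_lit 24739034⟩]⟩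
noncomputable def p066_l6 : Lf2 := ⟨nat_lit 0, nat_lit 5, [nat_lit 4, nat_lit 5, nat_lit 5, nat_lit 20], false, nat_lit 160, nat_lit 240, nat_lit 48, nat_lit 296, ⟨nat_lit 267, nat_lit 733, nat_lit 0, nat_lit 9, nat_lit 363, nat_lit 733, nat_lit 140, nat_lit 0, nat_lit 0, nat_lit 0, nat_lit 0, nat_lit 0, nat_lit 33330694, nat_lit 27734524, nat_lit 5934782, nat_lit 4941886, true, true⟩,
 nat_lit 0, nat_lit 0, nat_lit 2702, nat_lit 0, nat_lit 4529, nat_lit 1756, nat_lit 0, nat_lit 0, nat_lit 0, nat_lit 681, nat_lit 0, nat_lit 0, nat_lit 0, nat_lit 0, nat_lit 0, nat_lit 421600, nat_lit 0, nat_lit 0, [(nat_lit 15, [(nat_lit 1, nat_lit 519), (nat_lit 2, nat_lit 214)])],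
 ⟨p066_k4, nat_lit 0, nat_lit 0, nat_lit 78, nat_lit 0, nat_lit 0, [nat_lit 2377088200, nat_lit 3067664600], [], [nat_lit 26523047280, nat_lit 27390198040, nat_lit 28957672044, nat_lit 29714019632, nat_lit 27895743198, nat_lit 28645886308, nat_lit 30029527312, nat_lit 30734934944], nat_lit 0, nat_lit 0, nat_lit 0, nat_lit 0, nat_lit 0, nat_lit 0, [], [nat_lit 49, nat_lit 40, nat_lit 40, nat_lit 80, nat_lit 16, nat_lit 272, nat_lit 60, nat_lit 8]⟩, ⟨p066_k5, nat_lit 0, nat_lit 0, nat_lit 637, nat_lit 0, nat_lit 1237107, [nat_lit 876294000, nat_lit 1668750000, nat_lit 2127456000], [], [nat_lit 9150564101, nat_lit 9171166719, nat_lit 9439008969, nat_lit 9459909457, nat_lit 8724205779, nat_lit 8735313134, nat_lit 8944361973, nat_lit 8973824452], nat_lit 1271250, nat_lit 1271250, nat_lit 1271250, nat_lit 1271250, nat_lit 279600, nat_lit 2142700, [nat_lit 780000, nat_lit 1435000, nat_lit 1271250], [nat_lit 18, nat_lit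 40, nat_lit 40, nat_lit 80, nat_lit 2, nat_lit 289, nat_lit 75, nat_lit 8]⟩,
 ⟨nat_lit 4472, nat_lit 5000, ⟨.ofNat (nat_lit 876713), .ofNat (nat_lit 948137), .ofNat (nat_lit 882067), .ofNat (nat_lit 953491), .ofNat (nat_lit 863497), .ofNat (nat_lit 931471), .ofNat (nat_lit 868886), .ofNat (nat_lit 936859)⟩, ⟨.ofNat (nat_lit 257141), .ofNat (nat_lit 399998), .ofNat (nat_lit 299999), .ofNat (nat_lit 442856), .ofNat (nat_lit 259489), .ofNat (nat_lit 395445), .ofNat (nat_lit 302621), .ofNat (nat_lit 438578)⟩⟩, [⟨nat_lit 13, nat_lit 88, nat_lit 22, nat_lit 100, nat_lit 150913623⟩, ⟨nat_lit 4, nat_lit 100, nat_lit 85, nat_lit 73, nat_lit 177031480⟩, ⟨nat_lit 7, nat_lit 100, nat_lit 95, nat_lit 76, nat_lit 56887145⟩]⟩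
noncomputable def p066_l7 : Lf2 := ⟨nat_lit 0, nat_lit 10, [nat_lit 0, nat_lit 5, nat_lit 5, nat_lit 20], false, nat_lit 160, nat_lit 240, nat_lit 48, nat_lit 300, ⟨nat_lit 1000, nat_lit 0, nat_lit 0, nat_lit 0, nat_lit 0, nat_lit 0, nat_lit 0, nat_lit 0, nat_lit 0, nat_lit 0, nat_lit 0, nat_lit 0, nat_lit 0, nat_lit 0, nat_lit 0, nat_lit 0, false, false⟩,
 nat_lit 0, nat_lit 0, nat_lit 9365, nat_lit 0, nat_lit 6875, nat_lit 5959, nat_lit 0, nat_lit 0, nat_lit 0, nat_lit 650, nat_lit 0, nat_lit 0, nat_lit 0, nat_lit 0, nat_lit 0, nat_lit 0, nat_lit 0, nat_lit 0, [],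
 ⟨p066_k0, nat_lit 0, nat_lit 0, nat_lit 86, nat_lit 0, nat_lit 0, [nat_lit 3282000000, nat_lit 6250000000, nat_lit 9842000000], [], [nat_lit 27577210000, nat_lit 28609613000, nat_lit 30797310000, nat_lit 31674645500, nat_lit 28893760000, nat_lit 29764933250, nat_lit 31672866000, nat_lit 32412177000], nat_lit 0, nat_lit 0, nat_lit 0, nat_lit 0, nat_lit 0, nat_lit 0, [], [nat_lit 8, nat_lit 40, nat_lit 40, nat_lit 80, nat_lit 1, nat_lit 272, nat_lit 60, nat_lit 6]⟩, ⟨p066_k0, nat_lit 0, nat_lit 0, nat_lit 464, nat_lit 0, nat_lit 698650, [nat_lit 3282000000, nat_lit 6250000000, nat_lit 9842000000], [], [nat_lit 37185271726, nat_lit 37410235561, nat_lit 38770125322, nat_lit 39014085505, nat_lit 36529157348, nat_lit 36678122580, nat_lit 37663050394, nat_lit 37806701475], nat_lit 1271250, nat_lit 1271250, nat_lit 1271250, nat_lit 1271250, nat_lit 279600, nat_lit 2172750, [nat_lit 780000, nat_lit 1435000, nat_lit 1271250],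 [nat_lit 8, nat_lit 40, nat_lit 40, nat_lit 80, nat_lit 1, nat_lit 289, nat_lit 75, nat_lit 7]⟩,
 zbF0, [⟨nat_lit 13, nat_lit 99, nat_lit 3, nat_lit 100, nat_lit 60160650⟩, ⟨nat_lit 4, nat_lit 100, nat_lit 94, nat_lit 75, nat_lit 356161446⟩, ⟨nat_lit 19, nat_lit 97, nat_lit 100, nat_lit 76, nat_lit 228326212⟩]⟩
noncomputable def p066_l8 : Lf2 := ⟨nat_lit 0, nat_lit 10, [nat_lit 0, nat_lit 5, nat_lit 5, nat_lit 20], false, nat_lit 160, nat_lit 240, nat_lit 48, nat_lit 300, ⟨nat_lit 188, nat_lit 812, nat_lit 0, nat_lit 9, nat_lit 362, nat_lit 812, nat_lit 140, nat_lit 0, nat_lit 0, nat_lit 0, nat_lit 0, nat_lit 0, nat_lit 33409544, nat_lit 27644857, nat_lit 5945599, nat_lit 4942266, true, true⟩,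
 nat_lit 0, nat_lit 0, nat_lit 2172, nat_lit 0, nat_lit 4718, nat_lit 1382, nat_lit 0, nat_lit 0, nat_lit 0, nat_lit 108, nat_lit 0, nat_lit 0, nat_lit 0, nat_lit 0, nat_lit 0, nat_lit 203000, nat_lit 0, nat_lit 0, [(nat_lit 15, [(nat_lit 0, nat_lit 812)])],
 ⟨p066_k1, nat_lit 0, nat_lit 0, nat_lit 90, nat_lit 0, nat_lit 0, [nat_lit 2499556800, nat_lit 3387537600, nat_lit 3993560800], [], [nat_lit 26754642160, nat_lit 27635106080, nat_lit 29240054248, nat_lit 30006148944, nat_lit 28109825716, nat_lit 28869719336, nat_lit 30284975504, nat_lit 30947445536], nat_lit 0, nat_lit 0, nat_lit 0, nat_lit 0, nat_lit 0, nat_lit 0, [], [nat_lit 18, nat_lit 40, nat_lit 40, nat_lit 80, nat_lit 2, nat_lit 272, nat_lit 60, nat_lit 7]⟩, ⟨p066_k0, nat_lit 0, nat_lit 0, nat_lit 568, nat_lit 0, nat_lit 931261, [nat_lit 617016000, nat_lit 1175000000, nat_lit 1850296000], [], [nat_lit 6717282448, nat_lit 6759257512, nat_lit 7013944056,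 nat_lit 7049049434, nat_lit 6321036214, nat_lit 6343638381, nat_lit 6514146430, nat_lit 6531951078], nat_lit 1271250, nat_lit 1271250, nat_lit 1271250, nat_lit 1271250, nat_lit 279600, nat_lit 2172750, [nat_lit 780000, nat_lit 1435000, nat_lit 1271250], [nat_lit 8, nat_lit 40, nat_lit 40, nat_lit 80, nat_lit 1, nat_lit 289, nat_lit 75, nat_lit 7]⟩,
 ⟨nat_lit 4472, nat_lit 5000, ⟨.ofNat (nat_lit 871359), .ofNat (nat_lit 942783), .ofNat (nat_lit 882067), .ofNat (nat_lit 953491), .ofNat (nat_lit 858109), .ofNat (nat_lit 926083), .ofNat (nat_lit 868886), .ofNat (nat_lit 936859)⟩, ⟨.ofNat (nat_lit 257141), .ofNat (nat_lit 399998), .ofNat (nat_lit 299999), .ofNat (nat_lit 442856), .ofNat (nat_lit 259489), .ofNat (nat_lit 395445), .ofNat (nat_lit 302621), .ofNat (nat_lit 438578)⟩⟩, [⟨nat_lit 13, nat_lit 92, nat_lit 16, nat_lit 100, nat_lit 176328613⟩, ⟨nat_lit 16, nat_lit 85, nat_lit 100, nat_lit 73, nat_lit 146359677⟩,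 ⟨nat_lit 7, nat_lit 100, nat_lit 97, nat_lit 76, nat_lit 34941265⟩]⟩
noncomputable def p066_l9 : Lf2 := ⟨nat_lit 0, nat_lit 10, [nat_lit 0, nat_lit 5, nat_lit 5, nat_lit 20], false, nat_lit 240, nat_lit 300, nat_lit 64, nat_lit 300, ⟨nat_lit 344, nat_lit 656, nat_lit 0, nat_lit 8, nat_lit 355, nat_lit 656, nat_lit 192, nat_lit 0, nat_lit 0, nat_lit 0, nat_lit 0, nat_lit 0, nat_lit 31982249, nat_lit 25626835, nat_lit 9390916, nat_lit 5362330, true, true⟩,
 nat_lit 0, nat_lit 0, nat_lit 3983, nat_lit 0, nat_lit 3820, nat_lit 2534, nat_lit 0, nat_lit 0, nat_lit 0, nat_lit 260, nat_lit 0, nat_lit 0, nat_lit 0, nat_lit 0, nat_lit 0, nat_lit 262400, nat_lit 0, nat_lit 0, [(nat_lit 12, [(nat_lit 1, nat_lit 656)])],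
 ⟨p066_k0, nat_lit 0, nat_lit 0, nat_lit 78, nat_lit 0, nat_lit 0, [nat_lit 2485878400, nat_lit 3935107201, nat_lit 5115126400], [], [nat_lit 23993622080, nat_lit 24441629540, nat_lit 28456253840, nat_lit 28808447820, nat_lit 26303481320, nat_lit 26694880355, nat_lit 30349031980, nat_lit 30680519925], nat_lit 0, nat_lit 0, nat_lit 0, nat_lit 0, nat_lit 0, nat_lit 0, [], [nat_lit 8, nat_lit 40, nat_lit 40, nat_lit 80, nat_lit 1, nat_lit 289, nat_lit 75, nat_lit 7]⟩, ⟨p066_k0, nat_lit 0, nat_lit 0, nat_lit 567, nat_lit 0, nat_lit 958620, [nat_lit 1129008000, nat_lit 2150000000, nat_lit 3385648000], [], [nat_lit 11162538249, nat_lit 11250579890, nat_lit 12338307097, nat_lit 12418204985, nat_lit 11096951306, nat_lit 11161087723, nat_lit 11878109722, nat_lit 11922402283], nat_lit 1271250, nat_lit 1271250, nat_lit 1271250, nat_lit 1271250, nat_lit 382400, nat_lit 2190750, [nat_lit 780000, nat_lit 1435000, nat_lit 1271250],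 [nat_lit 8, nat_lit 40, nat_lit 40, nat_lit 80, nat_lit 1, nat_lit 289, nat_lit 75, nat_lit 7]⟩,
 ⟨nat_lit 5244, nat_lit 5478, ⟨.ofNat (nat_lit 810206), .ofNat (nat_lit 960065), .ofNat (nat_lit 820884), .ofNat (nat_lit 970743), .ofNat (nat_lit 805035), .ofNat (nat_lit 951369), .ofNat (nat_lit 815726), .ofNat (nat_lit 962061)⟩, ⟨.ofNat (nat_lit 404075), .ofNat (nat_lit 516475), .ofNat (nat_lit 446789), .ofNat (nat_lit 559189), .ofNat (nat_lit 402086), .ofNat (nat_lit 511843), .ofNat (nat_lit 444857), .ofNat (nat_lit 554614)⟩⟩, [⟨nat_lit 4, nat_lit 100, nat_lit 97, nat_lit 76, nat_lit 313405494⟩, ⟨nat_lit 7, nat_lit 100, nat_lit 97, nat_lit 76, nat_lit 77237904⟩]⟩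
noncomputable def p066_l10 : Lf2 := ⟨nat_lit 0, nat_lit 10, [nat_lit 0, nat_lit 5, nat_lit 5, nat_lit 20], false, nat_lit 240, nat_lit 292, nat_lit 64, nat_lit 300, ⟨nat_lit 296, nat_lit 704, nat_lit 0, nat_lit 8, nat_lit 352, nat_lit 704, nat_lit 188, nat_lit 0, nat_lit 0, nat_lit 0, nat_lit 0, nat_lit 0, nat_lit 32326955, nat_lit 25524319, nat_lit 9148726, nat_lit 5333504, true, true⟩,
 nat_lit 0, nat_lit 0, nat_lit 3510, nat_lit 0, nat_lit 3654, nat_lit 2233, nat_lit 0, nat_lit 0, nat_lit 0, nat_lit 183, nat_lit 0, nat_lit 0, nat_lit 0, nat_lit 0, nat_lit 0, nat_lit 281600, nat_lit 0, nat_lit 0, [(nat_lit 12, [(nat_lit 1, nat_lit 704)])],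
 ⟨p066_k6, nat_lit 0, nat_lit 0, nat_lit 79, nat_lit 0, nat_lit 0, [nat_lit 2427625600, nat_lit 3765724800, nat_lit 4246656000], [], [nat_lit 24482490858, nat_lit 24923409620, nat_lit 28764955574, nat_lit 29113134180, nat_lit 26410978832, nat_lit 26804379389, nat_lit 30271280549, nat_lit 30583004159], nat_lit 0, nat_lit 0, nat_lit 0, nat_lit 0, nat_lit 0, nat_lit 0, [], [nat_lit 18, nat_lit 40, nat_lit 40, nat_lit 80, nat_lit 2, nat_lit 203, nat_lit 0, nat_lit 5]⟩, ⟨p066_k0, nat_lit 0, nat_lit 0, nat_lit 606, nat_lit 0, nat_lit 1070055, [nat_lit 971472000, nat_lit 1850000000, nat_lit 2913232000], [], [nat_lit 10179206335, nat_lit 10234785902, nat_lit 10853191318, nat_lit 10891681519, nat_lit 9757596340, nat_lit 9796338100, nat_lit 10271331612, nat_lit 10308942551], nat_lit 1271250, nat_lit 1271250, nat_lit 1271250, nat_lit 1271250, nat_lit 382400, nat_lit 2190750, [nat_lit 780000, nat_lit 1435000, nat_lit 1271250],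 [nat_lit 8, nat_lit 40, nat_lit 40, nat_lit 80, nat_lit 1, nat_lit 289, nat_lit 75, nat_lit 7]⟩,
 ⟨nat_lit 5000, nat_lit 5245, ⟨.ofNat (nat_lit 805036), .ofNat (nat_lit 951373), .ofNat (nat_lit 815727), .ofNat (nat_lit 962064), .ofNat (nat_lit 799980), .ofNat (nat_lit 942832), .ofNat (nat_lit 810694), .ofNat (nat_lit 953545)⟩, ⟨.ofNat (nat_lit 402086), .ofNat (nat_lit 497209), .ofNat (nat_lit 444857), .ofNat (nat_lit 539979), .ofNat (nat_lit 399998), .ofNat (nat_lit 492856), .ofNat (nat_lit 442856), .ofNat (nat_lit 535713)⟩⟩, [⟨nat_lit 13, nat_lit 97, nat_lit 6, nat_lit 100, nat_lit 87007896⟩, ⟨nat_lit 4, nat_lit 100, nat_lit 92, nat_lit 75, nat_lit 301553196⟩, ⟨nat_lit 7, nat_lit 100, nat_lit 97, nat_lit 76, nat_lit 61789718⟩]⟩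
noncomputable def p066_l11 : Lf2 := ⟨nat_lit 0, nat_lit 10, [nat_lit 0, nat_lit 5, nat_lit 5, nat_lit 20], false, nat_lit 240, nat_lit 280, nat_lit 64, nat_lit 300, ⟨nat_lit 131, nat_lit 869, nat_lit 0, nat_lit 8, nat_lit 334, nat_lit 869, nat_lit 182, nat_lit 0, nat_lit 0, nat_lit 0, nat_lit 0, nat_lit 0, nat_lit 33793482, nat_lit 24212450, nat_lit 8994068, nat_lit 5285546, true, true⟩,
 nat_lit 0, nat_lit 0, nat_lit 1656, nat_lit 0, nat_lit 3626, nat_lit 1053, nat_lit 0, nat_lit 0, nat_lit 0, nat_lit 78, nat_lit 0, nat_lit 0, nat_lit 0, nat_lit 0, nat_lit 0, nat_lit 347600, nat_lit 0, nat_lit 0, [(nat_lit 15, [(nat_lit 1, nat_lit 869)])],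
 ⟨p066_k1, nat_lit 0, nat_lit 0, nat_lit 66, nat_lit 0, nat_lit 0, [nat_lit 2185495800, nat_lit 2865129134, nat_lit 3062020666], [], [nat_lit 24696802180, nat_lit 25576248336, nat_lit 26716490560, nat_lit 27503491424, nat_lit 26140745398, nat_lit 26947486884, nat_lit 28003462024, nat_lit 28785479852], nat_lit 0, nat_lit 0, nat_lit 0, nat_lit 0, nat_lit 0, nat_lit 0, [], [nat_lit 18, nat_lit 40, nat_lit 40, nat_lit 80, nat_lit 2, nat_lit 203, nat_lit 0, nat_lit 5]⟩, ⟨p066_k0, nat_lit 0, nat_lit 0, nat_lit 720, nat_lit 0, nat_lit 1314528, [nat_lit 429942000, nat_lit 818750000, nat_lit 1289302000], [], [nat_lit 4395649598, nat_lit 4412541428, nat_lit 4499117694, nat_lit 4515573540, nat_lit 4124666792, nat_lit 4135209939, nat_lit 4198687795, nat_lit 4207820682], nat_lit 1271250, nat_lit 1271250, nat_lit 1271250, nat_lit 1271250, nat_lit 382400, nat_lit 2190750, [nat_lit 780000, nat_lit 1435000, nat_lit 1271250], [nat_lit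 8, nat_lit 40, nat_lit 40, nat_lit 80, nat_lit 1, nat_lit 299, nat_lit 75, nat_lit 8]⟩,
 ⟨nat_lit 4472, nat_lit 5000, ⟨.ofNat (nat_lit 799935), .ofNat (nat_lit 871359), .ofNat (nat_lit 810643), .ofNat (nat_lit 882067), .ofNat (nat_lit 790136), .ofNat (nat_lit 858109), .ofNat (nat_lit 800912), .ofNat (nat_lit 868886)⟩, ⟨.ofNat (nat_lit 399998), .ofNat (nat_lit 471427), .ofNat (nat_lit 442856), .ofNat (nat_lit 514284), .ofNat (nat_lit 395445), .ofNat (nat_lit 463423), .ofNat (nat_lit 438578), .ofNat (nat_lit 506556)⟩⟩, [⟨nat_lit 16, nat_lit 94, nat_lit 100, nat_lit 87, nat_lit 227606535⟩, ⟨nat_lit 19, nat_lit 100, nat_lit 95, nat_lit 87, nat_lit 22044335⟩]⟩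
noncomputable def p066_l12 : Lf2 := ⟨nat_lit 0, nat_lit 5, [nat_lit 4, nat_lit 5, nat_lit 5, nat_lit 20], false, nat_lit 240, nat_lit 280, nat_lit 112, nat_lit 300, ⟨nat_lit 249, nat_lit 751, nat_lit 0, nat_lit 9, nat_lit 361, nat_lit 751, nat_lit 182, nat_lit 0, nat_lit 0, nat_lit 0, nat_lit 0, nat_lit 0, nat_lit 31976178, nat_lit 26413510, nat_lit 8610312, nat_lit 5286700, true, true⟩,
 nat_lit 0, nat_lit 0, nat_lit 2958, nat_lit 0, nat_lit 3817, nat_lit 1882, nat_lit 769, nat_lit 0, nat_lit 0, nat_lit 106, nat_lit 0, nat_lit 0, nat_lit 0, nat_lit 0, nat_lit 0, nat_lit 300400, nat_lit 0, nat_lit 0, [(nat_lit 15, [(nat_lit 1, nat_lit 751)])],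
 ⟨p066_k4, nat_lit 0, nat_lit 0, nat_lit 63, nat_lit 0, nat_lit 0, [nat_lit 2334388200, nat_lit 3305332867], [], [nat_lit 27548543416, nat_lit 28201065538, nat_lit 29346917056, nat_lit 29945674568, nat_lit 28615411339, nat_lit 29216125712, nat_lit 30400515417, nat_lit 31095584108], nat_lit 0, nat_lit 0, nat_lit 0, nat_lit 0, nat_lit 0, nat_lit 0, [], [nat_lit 49, nat_lit 40, nat_lit 40, nat_lit 80, nat_lit 16, nat_lit 203, nat_lit 0, nat_lit 5]⟩, ⟨p066_k3, nat_lit 0, nat_lit 0, nat_lit 601, nat_lit 0, nat_lit 1235289, [nat_lit 817218000, nat_lit 1556250000, nat_lit 1984032000], [], [nat_lit 8540922561, nat_lit 8561859314, nat_lit 8854845265, nat_lit 8872087810, nat_lit 8409462395, nat_lit 8420955919, nat_lit 8625837543, nat_lit 8634527709], nat_lit 1271250, nat_lit 1271250, nat_lit 1271250, nat_lit 1271250, nat_lit 719601, nat_lit 2244750, [nat_lit 780000, nat_lit 1435000, nat_lit 1271250], [nat_lit 18, nat_lit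 40, nat_lit 40, nat_lit 80, nat_lit 2, nat_lit 289, nat_lit 75, nat_lit 8]⟩,
 ⟨nat_lit 4472, nat_lit 5000, ⟨.ofNat (nat_lit 871359), .ofNat (nat_lit 942783), .ofNat (nat_lit 876713), .ofNat (nat_lit 948137), .ofNat (nat_lit 858109), .ofNat (nat_lit 926083), .ofNat (nat_lit 863497), .ofNat (nat_lit 931471)⟩, ⟨.ofNat (nat_lit 399998), .ofNat (nat_lit 471427), .ofNat (nat_lit 442856), .ofNat (nat_lit 514284), .ofNat (nat_lit 395445), .ofNat (nat_lit 463423), .ofNat (nat_lit 438578), .ofNat (nat_lit 506556)⟩⟩, [⟨nat_lit 13, nat_lit 87, nat_lit 25, nat_lit 100, nat_lit 119907854⟩, ⟨nat_lit 16, nat_lit 94, nat_lit 100, nat_lit 87, nat_lit 254928760⟩, ⟨nat_lit 19, nat_lit 100, nat_lit 95, nat_lit 87, nat_lit 52198118⟩]⟩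
noncomputable def p066_l13 : Lf2 := ⟨nat_lit 0, nat_lit 5, [nat_lit 4, nat_lit 5, nat_lit 5, nat_lit 20], false, nat_lit 240, nat_lit 280, nat_lit 112, nat_lit 296, ⟨nat_lit 1000, nat_lit 0, nat_lit 0, nat_lit 0, nat_lit 0, nat_lit 0, nat_lit 0, nat_lit 0, nat_lit 0, nat_lit 0, nat_lit 0, nat_lit 0, nat_lit 0, nat_lit 0, nat_lit 0, nat_lit 0, false, false⟩,
 nat_lit 0, nat_lit 0, nat_lit 9364, nat_lit 0, nat_lit 6485, nat_lit 6088, nat_lit 190, nat_lit 0, nat_lit 0, nat_lit 3872, nat_lit 0, nat_lit 0, nat_lit 0, nat_lit 0, nat_lit 0, nat_lit 0, nat_lit 0, nat_lit 0, [],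
 ⟨p066_k4, nat_lit 0, nat_lit 0, nat_lit 63, nat_lit 0, nat_lit 0, [nat_lit 3282000000, nat_lit 6250000000], [], [nat_lit 29621637320, nat_lit 30472690470, nat_lit 32183523330, nat_lit 32908940970, nat_lit 30915512815, nat_lit 31679224380, nat_lit 33353460485, nat_lit 34165182140], nat_lit 0, nat_lit 0, nat_lit 0, nat_lit 0, nat_lit 0, nat_lit 0, [], [nat_lit 49, nat_lit 40, nat_lit 40, nat_lit 80, nat_lit 16, nat_lit 203, nat_lit 0, nat_lit 5]⟩, ⟨p066_k5, nat_lit 0, nat_lit 0, nat_lit 601, nat_lit 0, nat_lit 1237107, [nat_lit 3282000000, nat_lit 6250000000, nat_lit 7968000000], [], [nat_lit 32102336869, nat_lit 32184842647, nat_lit 33212806801, nat_lit 33283536314, nat_lit 32221492001, nat_lit 32273847516, nat_lit 33026961615, nat_lit 33070250776], nat_lit 1271250, nat_lit 1271250, nat_lit 1271250, nat_lit 1271250, nat_lit 719601, nat_lit 2212300, [nat_lit 780000, nat_lit 1435000, nat_lit 1271250], [nat_lit 18,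 nat_lit 40, nat_lit 40, nat_lit 80, nat_lit 2, nat_lit 289, nat_lit 75, nat_lit 8]⟩,
 zbF0, [⟨nat_lit 4, nat_lit 100, nat_lit 85, nat_lit 73, nat_lit 815285365⟩, ⟨nat_lit 7, nat_lit 100, nat_lit 95, nat_lit 76, nat_lit 278604608⟩]⟩
noncomputable def p066_l14 : Lf2 := ⟨nat_lit 0, nat_lit 10, [nat_lit 0, nat_lit 5, nat_lit 5, nat_lit 20], false, nat_lit 240, nat_lit 280, nat_lit 112, nat_lit 300, ⟨nat_lit 1000, nat_lit 0, nat_lit 0, nat_lit 0, nat_lit 0, nat_lit 0, nat_lit 0, nat_lit 0, nat_lit 0, nat_lit 0, nat_lit 0, nat_lit 0, nat_lit 0, nat_lit 0, nat_lit 0, nat_lit 0, false, false⟩,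
 nat_lit 0, nat_lit 0, nat_lit 11584, nat_lit 0, nat_lit 6740, nat_lit 7371, nat_lit 0, nat_lit 0, nat_lit 0, nat_lit 578, nat_lit 0, nat_lit 0, nat_lit 0, nat_lit 0, nat_lit 0, nat_lit 0, nat_lit 0, nat_lit 0, [],
 ⟨p066_k1, nat_lit 0, nat_lit 0, nat_lit 80, nat_lit 0, nat_lit 0, [nat_lit 3282000000, nat_lit 6250000000, nat_lit 7968000000], [], [nat_lit 29840497880, nat_lit 30704706480, nat_lit 32458194720, nat_lit 33192696480, nat_lit 31147191460, nat_lit 31921288920, nat_lit 33635694740, nat_lit 34458565760], nat_lit 0, nat_lit 0, nat_lit 0, nat_lit 0, nat_lit 0, nat_lit 0, [], [nat_lit 18, nat_lit 40, nat_lit 40, nat_lit 80, nat_lit 2, nat_lit 203, nat_lit 0, nat_lit 5]⟩, ⟨p066_k0, nat_lit 0, nat_lit 0, nat_lit 509, nat_lit 0, nat_lit 931261, [nat_lit 3282000000, nat_lit 6250000000, nat_lit 9842000000], [], [nat_lit 33729558558, nat_lit 33934925766, nat_lit 35202458611, nat_lit 35373676229, nat_lit 33518243463,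 nat_lit 33638308977, nat_lit 34546094481, nat_lit 34640585004], nat_lit 1271250, nat_lit 1271250, nat_lit 1271250, nat_lit 1271250, nat_lit 719601, nat_lit 2244750, [nat_lit 780000, nat_lit 1435000, nat_lit 1271250], [nat_lit 8, nat_lit 40, nat_lit 40, nat_lit 80, nat_lit 1, nat_lit 289, nat_lit 75, nat_lit 7]⟩,
 zbF0, [⟨nat_lit 13, nat_lit 92, nat_lit 16, nat_lit 100, nat_lit 35011002⟩, ⟨nat_lit 16, nat_lit 85, nat_lit 100, nat_lit 73, nat_lit 1234261851⟩, ⟨nat_lit 7, nat_lit 100, nat_lit 97, nat_lit 76, nat_lit 255581879⟩]⟩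
noncomputable def p066_l15 : Lf2 := ⟨nat_lit 0, nat_lit 10, [nat_lit 0, nat_lit 5, nat_lit 5, nat_lit 20], false, nat_lit 160, nat_lit 268, nat_lit 16, nat_lit 268, ⟨nat_lit 1000, nat_lit 0, nat_lit 0, nat_lit 0, nat_lit 0, nat_lit 0, nat_lit 0, nat_lit 0, nat_lit 0, nat_lit 0, nat_lit 0, nat_lit 0, nat_lit 0, nat_lit 0, nat_lit 0, nat_lit 0, false, false⟩,
 nat_lit 0, nat_lit 0, nat_lit 8923, nat_lit 0, nat_lit 6637, nat_lit 5925, nat_lit 367, nat_lit 0, nat_lit 0, nat_lit 2873, nat_lit 0, nat_lit 0, nat_lit 0, nat_lit 0, nat_lit 0, nat_lit 0, nat_lit 0, nat_lit 0, [],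
 ⟨p066_k6, nat_lit 0, nat_lit 0, nat_lit 90, nat_lit 0, nat_lit 0, [nat_lit 3282000000, nat_lit 6250000000, nat_lit 7968000000], [], [nat_lit 25021190812, nat_lit 26771803690, nat_lit 30942969200, nat_lit 32240749928, nat_lit 27786048975, nat_lit 29160742903, nat_lit 32689483275, nat_lit 33961206142], nat_lit 0, nat_lit 0, nat_lit 0, nat_lit 0, nat_lit 0, nat_lit 0, [], [nat_lit 18, nat_lit 40, nat_lit 40, nat_lit 80, nat_lit 2, nat_lit 289, nat_lit 75, nat_lit 8]⟩, ⟨p066_k6, nat_lit 0, nat_lit 0, nat_lit 673, nat_lit 0, nat_lit 1279222, [nat_lit 3282000000, nat_lit 6250000000, nat_lit 7968000000], [], [nat_lit 31625303701, nat_lit 31841671941, nat_lit 35061695716, nat_lit 35640875910, nat_lit 30472517014, nat_lit 30613140018, nat_lit 32199835993, nat_lit 32345966795], nat_lit 1271250, nat_lit 1271250, nat_lit 1271250, nat_lit 1271250, nat_lit 88400, nat_lit 1905950, [nat_lit 780000, nat_lit 1435000, nat_lit 1271250],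 [nat_lit 18, nat_lit 40, nat_lit 40, nat_lit 80, nat_lit 2, nat_lit 290, nat_lit 75, nat_lit 9]⟩,
 zbF0, [⟨nat_lit 4, nat_lit 100, nat_lit 86, nat_lit 67, nat_lit 505858486⟩, ⟨nat_lit 19, nat_lit 90, nat_lit 100, nat_lit 68, nat_lit 181572666⟩]⟩
noncomputable def p066_l16 : Lf2 := ⟨nat_lit 0, nat_lit 10, [nat_lit 0, nat_lit 5, nat_lit 5, nat_lit 20], false, nat_lit 160, nat_lit 292, nat_lit 16, nat_lit 292, ⟨nat_lit 1000, nat_lit 0, nat_lit 0, nat_lit 0, nat_lit 0, nat_lit 0, nat_lit 0, nat_lit 0, nat_lit 0, nat_lit 0, nat_lit 0, nat_lit 0, nat_lit 0, nat_lit 0, nat_lit 0, nat_lit 0, false, false⟩,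
 nat_lit 0, nat_lit 0, nat_lit 8682, nat_lit 0, nat_lit 6497, nat_lit 5765, nat_lit 572, nat_lit 0, nat_lit 0, nat_lit 2580, nat_lit 0, nat_lit 0, nat_lit 0, nat_lit 0, nat_lit 0, nat_lit 0, nat_lit 0, nat_lit 0, [],
 ⟨p066_k6, nat_lit 0, nat_lit 0, nat_lit 90, nat_lit 0, nat_lit 0, [nat_lit 3282000000, nat_lit 6250000000, nat_lit 7968000000], [], [nat_lit 24932508422, nat_lit 26664348140, nat_lit 30780881450, nat_lit 32067643376, nat_lit 28628674382, nat_lit 29901959199, nat_lit 33381237902, nat_lit 34556189779], nat_lit 0, nat_lit 0, nat_lit 0, nat_lit 0, nat_lit 0, nat_lit 0, [], [nat_lit 18, nat_lit 40, nat_lit 40, nat_lit 80, nat_lit 2, nat_lit 289, nat_lit 75, nat_lit 8]⟩, ⟨p066_k6, nat_lit 0, nat_lit 0, nat_lit 603, nat_lit 0, nat_lit 1091036, [nat_lit 3282000000, nat_lit 6250000000, nat_lit 7968000000], [], [nat_lit 32095476602, nat_lit 32307461441, nat_lit 34669695108, nat_lit 35241659078, nat_lit 30949701055,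 nat_lit 31079872181, nat_lit 32822892932, nat_lit 32958418078], nat_lit 1271250, nat_lit 1271250, nat_lit 1271250, nat_lit 1271250, nat_lit 88400, nat_lit 2079050, [nat_lit 780000, nat_lit 1435000, nat_lit 1271250], [nat_lit 18, nat_lit 40, nat_lit 40, nat_lit 80, nat_lit 2, nat_lit 289, nat_lit 75, nat_lit 9]⟩,
 zbF0, [⟨nat_lit 4, nat_lit 100, nat_lit 89, nat_lit 80, nat_lit 438173718⟩, ⟨nat_lit 19, nat_lit 94, nat_lit 100, nat_lit 81, nat_lit 185263314⟩]⟩
noncomputable def p066_l17 : Lf2 := ⟨nat_lit 0, nat_lit 10, [nat_lit 0, nat_lit 5, nat_lit 5, nat_lit 20], false, nat_lit 160, nat_lit 280, nat_lit 0, nat_lit 280, ⟨nat_lit 1000, nat_lit 0, nat_lit 0, nat_lit 0, nat_lit 0, nat_lit 0, nat_lit 0, nat_lit 0, nat_lit 0, nat_lit 0, nat_lit 0, nat_lit 0, nat_lit 0, nat_lit 0, nat_lit 0, nat_lit 0, false, false⟩,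
 nat_lit 0, nat_lit 0, nat_lit 8033, nat_lit 0, nat_lit 5925, nat_lit 5561, nat_lit 1343, nat_lit 0, nat_lit 0, nat_lit 1586, nat_lit 0, nat_lit 0, nat_lit 0, nat_lit 0, nat_lit 0, nat_lit 0, nat_lit 0, nat_lit 0, [],
 ⟨p066_k1, nat_lit 0, nat_lit 0, nat_lit 90, nat_lit 0, nat_lit 0, [nat_lit 3282000000, nat_lit 6250000000, nat_lit 7968000000], [], [nat_lit 19764534825, nat_lit 20988211525, nat_lit 30314504800, nat_lit 31343100200, nat_lit 23656706000, nat_lit 24709366875, nat_lit 32733651925, nat_lit 33520888700], nat_lit 0, nat_lit 0, nat_lit 0, nat_lit 0, nat_lit 0, nat_lit 0, [], [nat_lit 18, nat_lit 40, nat_lit 40, nat_lit 80, nat_lit 2, nat_lit 289, nat_lit 75, nat_lit 8]⟩, ⟨p066_k1, nat_lit 0, nat_lit 0, nat_lit 719, nat_lit 0, nat_lit 1323298, [nat_lit 3282000000, nat_lit 6250000000, nat_lit 7968000000], [], [nat_lit 32352421520, nat_lit 32582782881, nat_lit 36066657258, nat_lit 36266698015, nat_lit 31616374862,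 nat_lit 31810612854, nat_lit 34816123224, nat_lit 34959318222], nat_lit 1271250, nat_lit 1271250, nat_lit 1271250, nat_lit 1271250, nat_lit 0, nat_lit 1977500, [nat_lit 780000, nat_lit 1435000, nat_lit 1271250], [nat_lit 18, nat_lit 40, nat_lit 40, nat_lit 80, nat_lit 2, nat_lit 304, nat_lit 75, nat_lit 9]⟩,
 zbF0, [⟨nat_lit 4, nat_lit 100, nat_lit 85, nat_lit 73, nat_lit 595989943⟩, ⟨nat_lit 7, nat_lit 100, nat_lit 88, nat_lit 74, nat_lit 234035415⟩]⟩
noncomputable def p066_l18 : Lf2 := ⟨nat_lit 0, nat_lit 10, [nat_lit 0, nat_lit 5, nat_lit 5, nat_lit 20], false, nat_lit 160, nat_lit 268, nat_lit 0, nat_lit 268, ⟨nat_lit 1000, nat_lit 0, nat_lit 0, nat_lit 0, nat_lit 0, nat_lit 0, nat_lit 0, nat_lit 0, nat_lit 0, nat_lit 0, nat_lit 0, nat_lit 0, nat_lit 0, nat_lit 0, nat_lit 0, nat_lit 0, false, false⟩,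
 nat_lit 0, nat_lit 0, nat_lit 7656, nat_lit 0, nat_lit 5276, nat_lit 5519, nat_lit 1626, nat_lit 0, nat_lit 0, nat_lit 1099, nat_lit 0, nat_lit 0, nat_lit 0, nat_lit 0, nat_lit 0, nat_lit 0, nat_lit 0, nat_lit 0, [],
 ⟨p066_k7, nat_lit 0, nat_lit 0, nat_lit 90, nat_lit 0, nat_lit 0, [nat_lit 3282000000, nat_lit 6250000000, nat_lit 7968000000], [], [nat_lit 19749047644, nat_lit 20409596384, nat_lit 30035088480, nat_lit 30524877344, nat_lit 23314605860, nat_lit 23842292877, nat_lit 32019714040, nat_lit 32411425098], nat_lit 0, nat_lit 0, nat_lit 0, nat_lit 0, nat_lit 0, nat_lit 0, [], [nat_lit 18, nat_lit 40, nat_lit 40, nat_lit 80, nat_lit 2, nat_lit 289, nat_lit 75, nat_lit 8]⟩, ⟨p066_k7, nat_lit 0, nat_lit 0, nat_lit 722, nat_lit 0, nat_lit 1329536, [nat_lit 3282000000, nat_lit 6250000000, nat_lit 7968000000], [], [nat_lit 32381134665, nat_lit 32643675414, nat_lit 36494816185, nat_lit 36719585848, nat_lit 31790397657,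 nat_lit 31990444997, nat_lit 35089600054, nat_lit 35237544336], nat_lit 1271250, nat_lit 1271250, nat_lit 1271250, nat_lit 1271250, nat_lit 0, nat_lit 1892750, [nat_lit 780000, nat_lit 1435000, nat_lit 1271250], [nat_lit 18, nat_lit 40, nat_lit 40, nat_lit 80, nat_lit 2, nat_lit 304, nat_lit 75, nat_lit 9]⟩,
 zbF0, [⟨nat_lit 4, nat_lit 100, nat_lit 83, nat_lit 73, nat_lit 611896336⟩, ⟨nat_lit 7, nat_lit 100, nat_lit 83, nat_lit 73, nat_lit 239584498⟩]⟩
noncomputable def b_V_700_700_10_3 : St := ⟨true, nat_lit 0, nat_lit 1, nat_lit 1, nat_lit 80, nat_lit 280, nat_lit 320, nat_lit 280, nat_lit 320, nat_lit 240, nat_lit 400, nat_lit 40, nat_lit 80, nat_lit 160, nat_lit 300, nat_lit 0, nat_lit 300, nat_lit 0, nat_lit 40, nat_lit 0, nat_lit 0, nat_lit 0, nat_lit 0⟩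
theorem d_V_700_700_10_3 (h : EB TB.env) : Dead b_V_700_700_10_3 := chkB_sound0 h (T :=
(.spl (nat_lit 1) (nat_lit 300)
(.spl (nat_lit 2) (nat_lit 320)
(.spl (nat_lit 2) (nat_lit 280)
(.leaf p066_l0)
(.trZ (nat_lit 9) (nat_lit 100) (nat_lit 94) (nat_lit 21) (nat_lit 4) (.spl (nat_lit 0) (nat_lit 300)
(.leaf p066_l1)
(.trX (nat_lit 16) (nat_lit 94) (nat_lit 100) (nat_lit 87) (nat_lit 280) (.leaf p066_l2)))))
(.trZ (nat_lit 9) (nat_lit 100) (nat_lit 82) (nat_lit 44) (nat_lit 16) (.spl (nat_lit 1) (nat_lit 290)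
(.spl (nat_lit 4) (nat_lit 240)
(.spl (nat_lit 2) (nat_lit 360)
(.leaf p066_l3)
(.trZ (nat_lit 9) (nat_lit 100) (nat_lit 61) (nat_lit 68) (nat_lit 48) (.spl (nat_lit 6) (nat_lit 20)
(.spl (nat_lit 0) (nat_lit 300)
(.leaf p066_l4)
(.spl (nat_lit 1) (nat_lit 285)
(.leaf p066_l5)
(.trX (nat_lit 19) (nat_lit 100) (nat_lit 98) (nat_lit 88) (nat_lit 296) (.leaf p066_l6))))
(.spl (nat_lit 0) (nat_lit 300)
(.leaf p066_l7)
(.leaf p066_l8)))))
(.trZ (nat_lit 9) (nat_lit 100) (nat_lit 82) (nat_lit 76) (nat_lit 64) (.spl (nat_lit 0) (nat_lit 300)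
(.spl (nat_lit 0) (nat_lit 290)
(.leaf p066_l9)
(.trX (nat_lit 16) (nat_lit 100) (nat_lit 100) (nat_lit 89) (nat_lit 292) (.leaf p066_l10)))
(.trX (nat_lit 16) (nat_lit 94) (nat_lit 100) (nat_lit 87) (nat_lit 280) (.spl (nat_lit 2) (nat_lit 360)
(.leaf p066_l11)
(.trZ (nat_lit 9) (nat_lit 100) (nat_lit 61) (nat_lit 92) (nat_lit 112) (.spl (nat_lit 6) (nat_lit 20)
(.spl (nat_lit 1) (nat_lit 285)
(.leaf p066_l12)
(.trX (nat_lit 19) (nat_lit 100) (nat_lit 98) (nat_lit 88) (nat_lit 296) (.leaf p066_l13)))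
(.leaf p066_l14))))))))
(.ord (.trX (nat_lit 16) (nat_lit 100) (nat_lit 100) (nat_lit 89) (nat_lit 292) (.trX (nat_lit 19) (nat_lit 100) (nat_lit 100) (nat_lit 89) (nat_lit 292) (.spl (nat_lit 3) (nat_lit 60)
(.trX (nat_lit 16) (nat_lit 94) (nat_lit 100) (nat_lit 75) (nat_lit 268) (.trX (nat_lit 19) (nat_lit 94) (nat_lit 100) (nat_lit 75) (nat_lit 268) (.leaf p066_l15)))
(.leaf p066_l16))))))))
(.ord (.trX (nat_lit 16) (nat_lit 94) (nat_lit 100) (nat_lit 87) (nat_lit 280) (.trX (nat_lit 19) (nat_lit 94) (nat_lit 100) (nat_lit 87) (nat_lit 280) (.spl (nat_lit 1) (nat_lit 310)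
(.leaf p066_l17)
(.ord (.trX (nat_lit 16) (nat_lit 89) (nat_lit 100) (nat_lit 85) (nat_lit 268) (.trX (nat_lit 19) (nat_lit 89) (nat_lit 100) (nat_lit 85) (nat_lit 268) (.leaf p066_l18)))))))))) (by decide +kernel)
noncomputable def p066_l19 : Lf2 := ⟨nat_lit 0, nat_lit 10, [nat_lit 0, nat_lit 5, nat_lit 5, nat_lit 20], true, nat_lit 0, nat_lit 300, nat_lit 0, nat_lit 300, ⟨nat_lit 0, nat_lit 1000, nat_lit 0, nat_lit 7, nat_lit 209, nat_lit 1000, nat_lit 106, nat_lit 0, nat_lit 0, nat_lit 0, nat_lit 0, nat_lit 0, nat_lit 0, nat_lit 0, nat_lit 0, nat_lit 5000000, false, false⟩,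
 nat_lit 0, nat_lit 0, nat_lit 0, nat_lit 0, nat_lit 7283, nat_lit 0, nat_lit 30, nat_lit 0, nat_lit 0, nat_lit 0, nat_lit 0, nat_lit 0, nat_lit 0, nat_lit 13291022173349, nat_lit 0, nat_lit 250000, nat_lit 0, nat_lit 0, [(nat_lit 12, [(nat_lit 0, nat_lit 1000)]), (nat_lit 15, [(nat_lit 0, nat_lit 1000)])],
 ⟨p066_k0, nat_lit 0, nat_lit 0, nat_lit 211, nat_lit 0, nat_lit 0, [nat_lit 2364000000, nat_lit 2954000000, nat_lit 3510800000], [], [nat_lit 23280620909, nat_lit 27377410259, nat_lit 25201652130, nat_lit 28211281574, nat_lit 24665319970, nat_lit 27102483507, nat_lit 24528346375, nat_lit 26320219375], nat_lit 0, nat_lit 0, nat_lit 0, nat_lit 0, nat_lit 0, nat_lit 0, [], [nat_lit 8, nat_lit 40, nat_lit 40, nat_lit 80, nat_lit 1, nat_lit 373, nat_lit 150, nat_lit 11]⟩, C1.Rw.none,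
 ⟨nat_lit 4472, nat_lit 5478, ⟨.ofNat (nat_lit 330579), .ofNat (nat_lit 660148), .ofNat (nat_lit 373223), .ofNat (nat_lit 702774), .ofNat (nat_lit 355064), .ofNat (nat_lit 654031), .ofNat (nat_lit 398126), .ofNat (nat_lit 697075)⟩, ⟨.negSucc (nat_lit 45522), .ofNat (nat_lit 516475), .negSucc (nat_lit 2834), .ofNat (nat_lit 559189), .negSucc (nat_lit 12423), .ofNat (nat_lit 497412), .ofNat (nat_lit 0), .ofNat (nat_lit 540545)⟩⟩, [⟨nat_lit 4, nat_lit 100, nat_lit 90, nat_lit 74, nat_lit 51616788⟩]⟩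
noncomputable def p066_l20 : Lf2 := ⟨nat_lit 0, nat_lit 10, [nat_lit 0, nat_lit 5, nat_lit 5, nat_lit 20], false, nat_lit 0, nat_lit 300, nat_lit 0, nat_lit 300, ⟨nat_lit 1000, nat_lit 0, nat_lit 0, nat_lit 0, nat_lit 0, nat_lit 0, nat_lit 0, nat_lit 0, nat_lit 0, nat_lit 0, nat_lit 0, nat_lit 0, nat_lit 0, nat_lit 0, nat_lit 0, nat_lit 0, false, false⟩,
 nat_lit 0, nat_lit 0, nat_lit 0, nat_lit 1629, nat_lit 8375, nat_lit 8375, nat_lit 334, nat_lit 0, nat_lit 0, nat_lit 334, nat_lit 0, nat_lit 0, nat_lit 0, nat_lit 0, nat_lit 0, nat_lit 0, nat_lit 0, nat_lit 0, [],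
 ⟨p066_k0, nat_lit 0, nat_lit 0, nat_lit 219, nat_lit 0, nat_lit 0, [nat_lit 3282000000, nat_lit 6250000000, nat_lit 9842000000], [], [nat_lit 30312523750, nat_lit 33031713750, nat_lit 42030107750, nat_lit 44705134500, nat_lit 28040907750, nat_lit 29936182125, nat_lit 35335568125, nat_lit 37005326750], nat_lit 0, nat_lit 0, nat_lit 0, nat_lit 0, nat_lit 0, nat_lit 0, [], [nat_lit 8, nat_lit 40, nat_lit 40, nat_lit 80, nat_lit 1, nat_lit 401, nat_lit 175, nat_lit 11]⟩, ⟨p066_k0, nat_lit 0, nat_lit 0, nat_lit 219, nat_lit 0, nat_lit 0, [nat_lit 3282000000, nat_lit 6250000000, nat_lit 9842000000], [], [nat_lit 30312523750, nat_lit 33031713750, nat_lit 42030107750, nat_lit 44705134500, nat_lit 28040907750, nat_lit 29936182125, nat_lit 35335568125, nat_lit 37005326750], nat_lit 0, nat_lit 0, nat_lit 0, nat_lit 0, nat_lit 0, nat_lit 0, [], [nat_lit 8, nat_lit 40, nat_lit 40, nat_lit 80, nat_lit 1, nat_lit 401, nat_lit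 175, nat_lit 11]⟩,
 zbF0, [⟨nat_lit 16, nat_lit 100, nat_lit 95, nat_lit 87, nat_lit 60102644⟩, ⟨nat_lit 19, nat_lit 100, nat_lit 95, nat_lit 87, nat_lit 60102644⟩]⟩
noncomputable def p066_l21 : Lf2 := ⟨nat_lit 0, nat_lit 10, [nat_lit 0, nat_lit 5, nat_lit 5, nat_lit 20], true, nat_lit 0, nat_lit 300, nat_lit 0, nat_lit 300, ⟨nat_lit 0, nat_lit 1000, nat_lit 0, nat_lit 7, nat_lit 209, nat_lit 1000, nat_lit 106, nat_lit 0, nat_lit 0, nat_lit 0, nat_lit 0, nat_lit 0, nat_lit 0, nat_lit 0, nat_lit 0, nat_lit 5000000, false, false⟩,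
 nat_lit 0, nat_lit 0, nat_lit 0, nat_lit 0, nat_lit 7283, nat_lit 0, nat_lit 30, nat_lit 0, nat_lit 0, nat_lit 0, nat_lit 0, nat_lit 0, nat_lit 0, nat_lit 13291022173349, nat_lit 0, nat_lit 250000, nat_lit 0, nat_lit 0, [(nat_lit 12, [(nat_lit 0, nat_lit 1000)]), (nat_lit 15, [(nat_lit 0, nat_lit 1000)])],
 ⟨p066_k0, nat_lit 0, nat_lit 0, nat_lit 211, nat_lit 0, nat_lit 0, [nat_lit 2364000000, nat_lit 2954000000, nat_lit 3510800000], [], [nat_lit 23280620909, nat_lit 27377410259, nat_lit 25201652130, nat_lit 28211281574, nat_lit 24665319970, nat_lit 27102483507, nat_lit 24528346375, nat_lit 26320219375], nat_lit 0, nat_lit 0, nat_lit 0, nat_lit 0, nat_lit 0, nat_lit 0, [], [nat_lit 8, nat_lit 40, nat_lit 40, nat_lit 80, nat_lit 1, nat_lit 373, nat_lit 150, nat_lit 11]⟩, C1.Rw.none,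
 ⟨nat_lit 4472, nat_lit 5478, ⟨.ofNat (nat_lit 330579), .ofNat (nat_lit 660148), .ofNat (nat_lit 373223), .ofNat (nat_lit 702774), .ofNat (nat_lit 355064), .ofNat (nat_lit 654031), .ofNat (nat_lit 398126), .ofNat (nat_lit 697075)⟩, ⟨.negSucc (nat_lit 45522), .ofNat (nat_lit 516475), .negSucc (nat_lit 2834), .ofNat (nat_lit 559189), .negSucc (nat_lit 12423), .ofNat (nat_lit 497412), .ofNat (nat_lit 0), .ofNat (nat_lit 540545)⟩⟩, [⟨nat_lit 4, nat_lit 100, nat_lit 90, nat_lit 74, nat_lit 51616788⟩]⟩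
noncomputable def p066_l22 : Lf2 := ⟨nat_lit 0, nat_lit 10, [nat_lit 0, nat_lit 5, nat_lit 5, nat_lit 20], true, nat_lit 0, nat_lit 160, nat_lit 0, nat_lit 300, ⟨nat_lit 0, nat_lit 1000, nat_lit 0, nat_lit 7, nat_lit 326, nat_lit 1000, nat_lit 55, nat_lit 0, nat_lit 0, nat_lit 0, nat_lit 0, nat_lit 0, nat_lit 0, nat_lit 0, nat_lit 0, nat_lit 5000000, true, true⟩,
 nat_lit 0, nat_lit 0, nat_lit 0, nat_lit 0, nat_lit 3708, nat_lit 0, nat_lit 292, nat_lit 0, nat_lit 0, nat_lit 0, nat_lit 0, nat_lit 0, nat_lit 0, nat_lit 10534554330722, nat_lit 0, nat_lit 400000, nat_lit 0, nat_lit 0, [(nat_lit 12, [(nat_lit 1, nat_lit 1000)])],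
 ⟨p066_k0, nat_lit 0, nat_lit 0, nat_lit 217, nat_lit 0, nat_lit 0, [nat_lit 2068400000, nat_lit 2721200001, nat_lit 2642799999], [], [nat_lit 22463338259, nat_lit 23443024675, nat_lit 30254259763, nat_lit 30946221731, nat_lit 22134745281, nat_lit 23019205225, nat_lit 28884588257, nat_lit 29484438145], nat_lit 0, nat_lit 0, nat_lit 0, nat_lit 0, nat_lit 0, nat_lit 0, [], [nat_lit 8, nat_lit 40, nat_lit 40, nat_lit 80, nat_lit 1, nat_lit 373, nat_lit 150, nat_lit 10]⟩, C1.Rw.none,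
 ⟨nat_lit 5000, nat_lit 5478, ⟨.ofNat (nat_lit 660309), .ofNat (nat_lit 959989), .ofNat (nat_lit 681655), .ofNat (nat_lit 981337), .ofNat (nat_lit 657090), .ofNat (nat_lit 942753), .ofNat (nat_lit 678509), .ofNat (nat_lit 964172)⟩, ⟨.negSucc (nat_lit 45522), .ofNat (nat_lit 254209), .negSucc (nat_lit 2832), .ofNat (nat_lit 296923), .negSucc (nat_lit 28572), .ofNat (nat_lit 257141), .ofNat (nat_lit 0), .ofNat (nat_lit 299999)⟩⟩, []⟩
noncomputable def p066_l23 : Lf2 := ⟨nat_lit 0, nat_lit 10, [nat_lit 0, nat_lit 5, nat_lit 5, nat_lit 20], true, nat_lit 0, nat_lit 160, nat_lit 0, nat_lit 300, ⟨nat_lit 0, nat_lit 1000, nat_lit 0, nat_lit 7, nat_lit 327, nat_lit 1000, nat_lit 56, nat_lit 0, nat_lit 0, nat_lit 0, nat_lit 0, nat_lit 0, nat_lit 0, nat_lit 0, nat_lit 0, nat_lit 5000000, true, true⟩,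
 nat_lit 0, nat_lit 0, nat_lit 0, nat_lit 0, nat_lit 3594, nat_lit 0, nat_lit 0, nat_lit 0, nat_lit 0, nat_lit 0, nat_lit 0, nat_lit 0, nat_lit 0, nat_lit 10515254371059, nat_lit 0, nat_lit 599800, nat_lit 0, nat_lit 0, [(nat_lit 15, [(nat_lit 1, nat_lit 667), (nat_lit 2, nat_lit 333)])],
 ⟨p066_k1, nat_lit 0, nat_lit 0, nat_lit 199, nat_lit 0, nat_lit 0, [nat_lit 2051302201, nat_lit 1919680067, nat_lit 1312604400], [], [nat_lit 24540454512, nat_lit 25388082652, nat_lit 30749439216, nat_lit 31329063064, nat_lit 24002736756, nat_lit 24728304348, nat_lit 29371741427, nat_lit 29906960599], nat_lit 0, nat_lit 0, nat_lit 0, nat_lit 0, nat_lit 0, nat_lit 0, [], [nat_lit 18, nat_lit 40, nat_lit 40, nat_lit 80, nat_lit 2, nat_lit 249, nat_lit 40, nat_lit 8]⟩, C1.Rw.none,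
 ⟨nat_lit 4472, nat_lit 5000, ⟨.ofNat (nat_lit 657088), .ofNat (nat_lit 942783), .ofNat (nat_lit 699920), .ofNat (nat_lit 985615), .ofNat (nat_lit 654189), .ofNat (nat_lit 926083), .ofNat (nat_lit 697297), .ofNat (nat_lit 969191)⟩, ⟨.negSucc (nat_lit 28572), .ofNat (nat_lit 257141), .ofNat (nat_lit 0), .ofNat (nat_lit 299999), .negSucc (nat_lit 12423), .ofNat (nat_lit 259489), .ofNat (nat_lit 0), .ofNat (nat_lit 302621)⟩⟩, []⟩
noncomputable def p066_l24 : Lf2 := ⟨nat_lit 0, nat_lit 10, [nat_lit 0, nat_lit 5, nat_lit 5, nat_lit 20], false, nat_lit 160, nat_lit 300, nat_lit 0, nat_lit 300, ⟨nat_lit 220, nat_lit 780, nat_lit 0, nat_lit 7, nat_lit 322, nat_lit 780, nat_lit 161, nat_lit 0, nat_lit 0, nat_lit 0, nat_lit 0, nat_lit 0, nat_lit 0, nat_lit 0, nat_lit 0, nat_lit 5000000, true, true⟩,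
 nat_lit 0, nat_lit 0, nat_lit 2654, nat_lit 0, nat_lit 4354, nat_lit 1688, nat_lit 0, nat_lit 0, nat_lit 0, nat_lit 111, nat_lit 0, nat_lit 0, nat_lit 0, nat_lit 0, nat_lit 0, nat_lit 565200, nat_lit 0, nat_lit 0, [(nat_lit 12, [(nat_lit 1, nat_lit 358), (nat_lit 2, nat_lit 422)]), (nat_lit 15, [(nat_lit 1, nat_lit 358), (nat_lit 2, nat_lit 422)])],
 ⟨p066_k0, nat_lit 0, nat_lit 0, nat_lit 90, nat_lit 0, nat_lit 0, [nat_lit 2447981601, nat_lit 3170570400, nat_lit 2985003200], [], [nat_lit 20358298001, nat_lit 22467182593, nat_lit 28353867521, nat_lit 29842614032, nat_lit 24881604817, nat_lit 26469927753, nat_lit 31170735448, nat_lit 32300907696], nat_lit 0, nat_lit 0, nat_lit 0, nat_lit 0, nat_lit 0, nat_lit 0, [], [nat_lit 8, nat_lit 40, nat_lit 40, nat_lit 80, nat_lit 1, nat_lit 401, nat_lit 175, nat_lit 11]⟩, ⟨p066_k0, nat_lit 0, nat_lit 0, nat_lit 775, nat_lit 0, nat_lit 1314528, [nat_lit 722040000, nat_lit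 1375000000, nat_lit 2165240000], [], [nat_lit 8246453915, nat_lit 8287789303, nat_lit 8897716347, nat_lit 8966475408, nat_lit 7382065671, nat_lit 7401436463, nat_lit 7698157319, nat_lit 7702924878], nat_lit 1271250, nat_lit 1271250, nat_lit 1271250, nat_lit 1271250, nat_lit 0, nat_lit 2118750, [nat_lit 780000, nat_lit 1435000, nat_lit 1271250], [nat_lit 8, nat_lit 40, nat_lit 40, nat_lit 80, nat_lit 1, nat_lit 401, nat_lit 175, nat_lit 11]⟩,
 ⟨nat_lit 4472, nat_lit 5478, ⟨.ofNat (nat_lit 660148), .ofNat (nat_lit 959740), .ofNat (nat_lit 670805), .ofNat (nat_lit 970397), .ofNat (nat_lit 654031), .ofNat (nat_lit 925804), .ofNat (nat_lit 664792), .ofNat (nat_lit 936565)⟩, ⟨.ofNat (nat_lit 254209), .ofNat (nat_lit 516475), .ofNat (nat_lit 296923), .ofNat (nat_lit 559189), .ofNat (nat_lit 259489), .ofNat (nat_lit 497412), .ofNat (nat_lit 302621), .ofNat (nat_lit 540545)⟩⟩, [⟨nat_lit 13, nat_lit 96, nat_lit 9, nat_lit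 100, nat_lit 134704161⟩, ⟨nat_lit 16, nat_lit 100, nat_lit 95, nat_lit 87, nat_lit 240007656⟩, ⟨nat_lit 19, nat_lit 100, nat_lit 95, nat_lit 87, nat_lit 21267885⟩]⟩
noncomputable def p066_l25 : Lf2 := ⟨nat_lit 0, nat_lit 10, [nat_lit 0, nat_lit 5, nat_lit 5, nat_lit 20], false, nat_lit 160, nat_lit 292, nat_lit 0, nat_lit 292, ⟨nat_lit 481, nat_lit 519, nat_lit 0, nat_lit 7, nat_lit 325, nat_lit 519, nat_lit 158, nat_lit 0, nat_lit 0, nat_lit 0, nat_lit 0, nat_lit 0, nat_lit 0, nat_lit 0, nat_lit 0, nat_lit 5000000, true, true⟩,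
 nat_lit 0, nat_lit 0, nat_lit 4249, nat_lit 0, nat_lit 5285, nat_lit 2821, nat_lit 0, nat_lit 0, nat_lit 0, nat_lit 1299, nat_lit 0, nat_lit 0, nat_lit 0, nat_lit 0, nat_lit 0, nat_lit 144000, nat_lit 0, nat_lit 0, [(nat_lit 12, [(nat_lit 0, nat_lit 500), (nat_lit 2, nat_lit 19)]), (nat_lit 15, [(nat_lit 0, nat_lit 500), (nat_lit 2, nat_lit 19)])],
 ⟨p066_k6, nat_lit 0, nat_lit 0, nat_lit 90, nat_lit 0, nat_lit 0, [nat_lit 2805010800, nat_lit 4480831600, nat_lit 5454467600], [], [nat_lit 20721404070, nat_lit 22453504080, nat_lit 29823207850, nat_lit 31016211880, nat_lit 25049425028, nat_lit 26501967290, nat_lit 32251750864, nat_lit 33148925305], nat_lit 0, nat_lit 0, nat_lit 0, nat_lit 0, nat_lit 0, nat_lit 0, [], [nat_lit 18, nat_lit 40, nat_lit 40, nat_lit 80, nat_lit 2, nat_lit 289, nat_lit 75, nat_lit 8]⟩, ⟨p066_k6, nat_lit 0, nat_lit 0, nat_lit 716, nat_lit 0, nat_lit 1318138, [nat_lit 1578642000, nat_lit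 3006250000, nat_lit 3832608000], [], [nat_lit 15220504864, nat_lit 15332302706, nat_lit 17289235067, nat_lit 17567899726, nat_lit 14797919568, nat_lit 14865618599, nat_lit 15870824149, nat_lit 15917924086], nat_lit 1271250, nat_lit 1271250, nat_lit 1271250, nat_lit 1271250, nat_lit 0, nat_lit 2062250, [nat_lit 780000, nat_lit 1435000, nat_lit 1271250], [nat_lit 18, nat_lit 40, nat_lit 40, nat_lit 80, nat_lit 2, nat_lit 303, nat_lit 75, nat_lit 9]⟩,
 ⟨nat_lit 4472, nat_lit 5245, ⟨.ofNat (nat_lit 669271), .ofNat (nat_lit 961893), .ofNat (nat_lit 679950), .ofNat (nat_lit 972573), .ofNat (nat_lit 664893), .ofNat (nat_lit 936743), .ofNat (nat_lit 675662), .ofNat (nat_lit 947513)⟩, ⟨.ofNat (nat_lit 255744), .ofNat (nat_lit 497209), .ofNat (nat_lit 298515), .ofNat (nat_lit 539979), .ofNat (nat_lit 259489), .ofNat (nat_lit 483816), .ofNat (nat_lit 302621), .ofNat (nat_lit 526949)⟩⟩, [⟨nat_lit 13, nat_lit 90, nat_lit 20,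 nat_lit 100, nat_lit 64515284⟩, ⟨nat_lit 4, nat_lit 100, nat_lit 88, nat_lit 74, nat_lit 358316961⟩, ⟨nat_lit 19, nat_lit 92, nat_lit 100, nat_lit 75, nat_lit 83155138⟩]⟩
noncomputable def p066_l26 : Lf2 := ⟨nat_lit 0, nat_lit 10, [nat_lit 0, nat_lit 5, nat_lit 5, nat_lit 20], false, nat_lit 160, nat_lit 280, nat_lit 0, nat_lit 280, ⟨nat_lit 483, nat_lit 517, nat_lit 0, nat_lit 7, nat_lit 331, nat_lit 517, nat_lit 154, nat_lit 0, nat_lit 0, nat_lit 0, nat_lit 0, nat_lit 0, nat_lit 0, nat_lit 0, nat_lit 0, nat_lit 5000000, true, true⟩,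
 nat_lit 0, nat_lit 0, nat_lit 4152, nat_lit 0, nat_lit 4405, nat_lit 2874, nat_lit 220, nat_lit 0, nat_lit 0, nat_lit 648, nat_lit 0, nat_lit 0, nat_lit 0, nat_lit 0, nat_lit 0, nat_lit 517000, nat_lit 0, nat_lit 0, [(nat_lit 15, [(nat_lit 2, nat_lit 517)])],
 ⟨p066_k1, nat_lit 0, nat_lit 0, nat_lit 90, nat_lit 0, nat_lit 0, [nat_lit 2677937200, nat_lit 3560566000, nat_lit 3488091600], [], [nat_lit 21516426920, nat_lit 22576363140, nat_lit 29178765620, nat_lit 29864983140, nat_lit 25041607130, nat_lit 25878260820, nat_lit 31176342640, nat_lit 31772092220], nat_lit 0, nat_lit 0, nat_lit 0, nat_lit 0, nat_lit 0, nat_lit 0, [], [nat_lit 18, nat_lit 40, nat_lit 40, nat_lit 80, nat_lit 2, nat_lit 289, nat_lit 75, nat_lit 8]⟩, ⟨p066_k1, nat_lit 0, nat_lit 0, nat_lit 754, nat_lit 0, nat_lit 1406917, [nat_lit 1585206000, nat_lit 3018750000, nat_lit 3848544000], [], [nat_lit 15143495598, nat_lit 15402238728, nat_lit 17752673424,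 nat_lit 18316057968, nat_lit 14858309313, nat_lit 15022197318, nat_lit 16085137671, nat_lit 16204654398], nat_lit 1271250, nat_lit 1271250, nat_lit 1271250, nat_lit 1271250, nat_lit 0, nat_lit 1977500, [nat_lit 780000, nat_lit 1435000, nat_lit 1271250], [nat_lit 18, nat_lit 40, nat_lit 40, nat_lit 80, nat_lit 2, nat_lit 314, nat_lit 75, nat_lit 10]⟩,
 ⟨nat_lit 4472, nat_lit 5000, ⟨.ofNat (nat_lit 678503), .ofNat (nat_lit 964199), .ofNat (nat_lit 699920), .ofNat (nat_lit 985615), .ofNat (nat_lit 675743), .ofNat (nat_lit 947637), .ofNat (nat_lit 697297), .ofNat (nat_lit 969191)⟩, ⟨.ofNat (nat_lit 257141), .ofNat (nat_lit 471427), .ofNat (nat_lit 299999), .ofNat (nat_lit 514284), .ofNat (nat_lit 259489), .ofNat (nat_lit 463423), .ofNat (nat_lit 302621), .ofNat (nat_lit 506556)⟩⟩, [⟨nat_lit 4, nat_lit 100, nat_lit 85, nat_lit 73, nat_lit 370730345⟩, ⟨nat_lit 19, nat_lit 85, nat_lit 100, nat_lit 73, nat_lit 76223197⟩]⟩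
noncomputable def b_V_700_700_10_4 : St := ⟨true, nat_lit 0, nat_lit 2, nat_lit 2, nat_lit 80, nat_lit 280, nat_lit 320, nat_lit 280, nat_lit 320, nat_lit 64, nat_lit 400, nat_lit 40, nat_lit 80, nat_lit 0, nat_lit 300, nat_lit 0, nat_lit 300, nat_lit 0, nat_lit 40, nat_lit 0, nat_lit 0, nat_lit 0, nat_lit 0⟩
theorem d_V_700_700_10_4 (h : EB TB.env) : Dead b_V_700_700_10_4 := chkB_sound0 h (T :=
(.st (nat_lit 1)
(.spl (nat_lit 2) (nat_lit 240)
(.leaf p066_l19)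
(.leaf p066_l20))
(.spl (nat_lit 2) (nat_lit 240)
(.leaf p066_l21)
(.spl (nat_lit 4) (nat_lit 160)
(.spl (nat_lit 0) (nat_lit 300)
(.ord (.leaf p066_l22))
(.leaf p066_l23))
(.spl (nat_lit 1) (nat_lit 300)
(.spl (nat_lit 1) (nat_lit 290)
(.leaf p066_l24)
(.ord (.trX (nat_lit 16) (nat_lit 100) (nat_lit 100) (nat_lit 89) (nat_lit 292) (.trX (nat_lit 19) (nat_lit 100) (nat_lit 100) (nat_lit 89) (nat_lit 292) (.leaf p066_l25)))))
(.ord (.trX (nat_lit 16) (nat_lit 94) (nat_lit 100) (nat_lit 87) (nat_lit 280) (.trX (nat_lit 19) (nat_lit 94) (nat_lit 100) (nat_lit 87) (nat_lit 280) (.leaf p066_l26))))))))) (by decide +kernel)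
noncomputable def p066_l27 : Lf2 := ⟨nat_lit 0, nat_lit 5, [nat_lit 4, nat_lit 5, nat_lit 5, nat_lit 20], false, nat_lit 0, nat_lit 160, nat_lit 0, nat_lit 160, ⟨nat_lit 990, nat_lit 0, nat_lit 10, nat_lit 7, nat_lit 140, nat_lit 10, nat_lit 55, nat_lit 10, nat_lit 24067, nat_lit 253, nat_lit 183750, nat_lit 320, nat_lit 59697490, nat_lit 0, nat_lit 0, nat_lit 1722018, false, false⟩,
 nat_lit 0, nat_lit 12448, nat_lit 0, nat_lit 0, nat_lit 7921, nat_lit 7526, nat_lit 0, nat_lit 0, nat_lit 0, nat_lit 0, nat_lit 0, nat_lit 0, nat_lit 0, nat_lit 16747950508820, nat_lit 0, nat_lit 10000, nat_lit 0, nat_lit 0, [(nat_lit 12, [(nat_lit 6, nat_lit 10)])],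
 ⟨p066_k8, nat_lit 0, nat_lit 0, nat_lit 372, nat_lit 0, nat_lit 447067, [nat_lit 3268720000, nat_lit 7849444000], [], [nat_lit 35886355001, nat_lit 36182198277, nat_lit 35312369748, nat_lit 35603170297, nat_lit 31806746318, nat_lit 31553809699, nat_lit 32700353724, nat_lit 31791870471], nat_lit 1271250, nat_lit 1271250, nat_lit 382400, nat_lit 490000, nat_lit 0, nat_lit 1100001, [nat_lit 780000, nat_lit 1762500], [nat_lit 74, nat_lit 40, nat_lit 40, nat_lit 80, nat_lit 43, nat_lit 272, nat_lit 60, nat_lit 9]⟩, ⟨p066_k8, nat_lit 0, nat_lit 0, nat_lit 135, nat_lit 0, nat_lit 0, [nat_lit 3249180000, nat_lit 7888320000], [], [nat_lit 24189356375, nat_lit 24776185950, nat_lit 23455013344, nat_lit 24033069984, nat_lit 19383847047, nat_lit 19873861744, nat_lit 18833091600, nat_lit 19315006419], nat_lit 0, nat_lit 0, nat_lit 0, nat_lit 0, nat_lit 0, nat_lit 0, [], [nat_lit 74, nat_lit 40, nat_lit 40, nat_lit 80, nat_lit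 43, nat_lit 272, nat_lit 60, nat_lit 9]⟩,
 ⟨nat_lit 5361, nat_lit 5478, ⟨.ofNat (nat_lit 330654), .ofNat (nat_lit 360628), .ofNat (nat_lit 335994), .ofNat (nat_lit 365967), .ofNat (nat_lit 333709), .ofNat (nat_lit 363328), .ofNat (nat_lit 339051), .ofNat (nat_lit 368671)⟩, ⟨.negSucc (nat_lit 45522), .ofNat (nat_lit 254209), .negSucc (nat_lit 2817), .ofNat (nat_lit 296923), .negSucc (nat_lit 41203), .ofNat (nat_lit 254993), .ofNat (nat_lit 0), .ofNat (nat_lit 297732)⟩⟩, [⟨nat_lit 0, nat_lit 100, nat_lit 100, nat_lit 82, nat_lit 575999281⟩]⟩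
noncomputable def p066_l28 : Lf2 := ⟨nat_lit 0, nat_lit 5, [nat_lit 4, nat_lit 5, nat_lit 5, nat_lit 20], false, nat_lit 0, nat_lit 160, nat_lit 0, nat_lit 160, ⟨nat_lit 1000, nat_lit 0, nat_lit 0, nat_lit 0, nat_lit 0, nat_lit 0, nat_lit 0, nat_lit 0, nat_lit 0, nat_lit 0, nat_lit 0, nat_lit 0, nat_lit 0, nat_lit 0, nat_lit 0, nat_lit 0, false, false⟩,
 nat_lit 0, nat_lit 14341, nat_lit 0, nat_lit 0, nat_lit 9125, nat_lit 9237, nat_lit 808, nat_lit 0, nat_lit 0, nat_lit 1367, nat_lit 0, nat_lit 0, nat_lit 0, nat_lit 76459034232516, nat_lit 0, nat_lit 0, nat_lit 0, nat_lit 0, [],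
 ⟨p066_k3, nat_lit 0, nat_lit 0, nat_lit 543, nat_lit 0, nat_lit 832004, [nat_lit 3282000000, nat_lit 6250000000, nat_lit 7968000000], [], [nat_lit 27565385000, nat_lit 26395420625, nat_lit 25429297500, nat_lit 25727286750, nat_lit 21453210000, nat_lit 21709772813, nat_lit 21238829000, nat_lit 21050683000], nat_lit 1271250, nat_lit 1271250, nat_lit 490000, nat_lit 780000, nat_lit 0, nat_lit 1100001, [nat_lit 780000, nat_lit 1435000, nat_lit 1271250], [nat_lit 18, nat_lit 40, nat_lit 40, nat_lit 80, nat_lit 2, nat_lit 289, nat_lit 75, nat_lit 10]⟩, ⟨p066_k3, nat_lit 0, nat_lit 0, nat_lit 132, nat_lit 0, nat_lit 0, [nat_lit 3282000000, nat_lit 6250000000, nat_lit 7968000000], [], [nat_lit 18819352744, nat_lit 19560953248, nat_lit 18209444388, nat_lit 18911010507, nat_lit 12943507844, nat_lit 13556744330, nat_lit 12548640180, nat_lit 13127460968], nat_lit 0, nat_lit 0, nat_lit 0, nat_lit 0, nat_lit 0, nat_lit 0, [],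 [nat_lit 18, nat_lit 40, nat_lit 40, nat_lit 80, nat_lit 2, nat_lit 289, nat_lit 75, nat_lit 10]⟩,
 zbF0, []⟩
noncomputable def p066_l29 : Lf2 := ⟨nat_lit 0, nat_lit 5, [nat_lit 4, nat_lit 5, nat_lit 5, nat_lit 20], false, nat_lit 0, nat_lit 160, nat_lit 0, nat_lit 160, ⟨nat_lit 1000, nat_lit 0, nat_lit 0, nat_lit 0, nat_lit 0, nat_lit 0, nat_lit 0, nat_lit 0, nat_lit 0, nat_lit 0, nat_lit 0, nat_lit 0, nat_lit 0, nat_lit 0, nat_lit 0, nat_lit 0, false, false⟩,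
 nat_lit 0, nat_lit 9581, nat_lit 0, nat_lit 0, nat_lit 6097, nat_lit 9737, nat_lit 681, nat_lit 0, nat_lit 0, nat_lit 1330, nat_lit 0, nat_lit 0, nat_lit 0, nat_lit 32491289113813, nat_lit 0, nat_lit 0, nat_lit 0, nat_lit 0, [],
 ⟨p066_k3, nat_lit 0, nat_lit 0, nat_lit 525, nat_lit 0, nat_lit 832004, [nat_lit 3282000000, nat_lit 6250000000, nat_lit 7968000000], [], [nat_lit 38822864480, nat_lit 38016935584, nat_lit 36774504044, nat_lit 36946029264, nat_lit 33166998096, nat_lit 33330257742, nat_lit 38924916148, nat_lit 38243576398], nat_lit 1271250, nat_lit 1271250, nat_lit 780000, nat_lit 1762500, nat_lit 0, nat_lit 1100001, [nat_lit 780000, nat_lit 1435000, nat_lit 1271250], [nat_lit 18, nat_lit 40, nat_lit 40, nat_lit 80, nat_lit 2, nat_lit 317, nat_lit 100, nat_lit 10]⟩, ⟨p066_k3, nat_lit 0, nat_lit 0, nat_lit 121, nat_lit 0, nat_lit 0, [nat_lit 3282000000, nat_lit 6250000000, nat_lit 7968000000], [], [nat_lit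 18121759064, nat_lit 18780072757, nat_lit 24082686708, nat_lit 24813614090, nat_lit 11902210180, nat_lit 12502942968, nat_lit 16210826160, nat_lit 16675057287], nat_lit 0, nat_lit 0, nat_lit 0, nat_lit 0, nat_lit 0, nat_lit 0, [], [nat_lit 18, nat_lit 40, nat_lit 40, nat_lit 80, nat_lit 2, nat_lit 317, nat_lit 100, nat_lit 10]⟩,
 zbF0, []⟩
noncomputable def p066_l30 : Lf2 := ⟨nat_lit 0, nat_lit 10, [nat_lit 0, nat_lit 5, nat_lit 5, nat_lit 20], false, nat_lit 0, nat_lit 160, nat_lit 0, nat_lit 160, ⟨nat_lit 1000, nat_lit 0, nat_lit 0, nat_lit 0, nat_lit 0, nat_lit 0, nat_lit 0, nat_lit 0, nat_lit 0, nat_lit 0, nat_lit 0, nat_lit 0, nat_lit 0, nat_lit 0, nat_lit 0, nat_lit 0, false, false⟩,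
 nat_lit 0, nat_lit 8488, nat_lit 0, nat_lit 0, nat_lit 5401, nat_lit 7747, nat_lit 840, nat_lit 0, nat_lit 0, nat_lit 1584, nat_lit 0, nat_lit 0, nat_lit 0, nat_lit 17173438044888, nat_lit 0, nat_lit 0, nat_lit 0, nat_lit 0, [],
 ⟨p066_k0, nat_lit 0, nat_lit 0, nat_lit 471, nat_lit 0, nat_lit 496324, [nat_lit 3282000000, nat_lit 6250000000, nat_lit 9842000000], [], [nat_lit 37303415115, nat_lit 36595935424, nat_lit 34906257120, nat_lit 35084043882, nat_lit 31715109373, nat_lit 31912201747, nat_lit 38811547684, nat_lit 38207985934], nat_lit 1271250, nat_lit 1271250, nat_lit 382400, nat_lit 1731000, nat_lit 0, nat_lit 1100001, [nat_lit 780000, nat_lit 1435000, nat_lit 1271250], [nat_lit 8, nat_lit 40, nat_lit 40, nat_lit 80, nat_lit 1, nat_lit 317, nat_lit 100, nat_lit 9]⟩, ⟨p066_k0, nat_lit 0, nat_lit 0, nat_lit 188, nat_lit 0, nat_lit 0, [nat_lit 3282000000, nat_lit 6250000000, nat_lit 9842000000], [], [nat_lit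 19900388186, nat_lit 20435803994, nat_lit 23451664124, nat_lit 23933741745, nat_lit 15195606019, nat_lit 15748171745, nat_lit 18555682960, nat_lit 18956961432], nat_lit 0, nat_lit 0, nat_lit 0, nat_lit 0, nat_lit 0, nat_lit 0, [], [nat_lit 8, nat_lit 40, nat_lit 40, nat_lit 80, nat_lit 1, nat_lit 317, nat_lit 100, nat_lit 9]⟩,
 zbF0, [⟨nat_lit 0, nat_lit 100, nat_lit 100, nat_lit 85, nat_lit 278450554⟩]⟩
noncomputable def p066_l31 : Lf2 := ⟨nat_lit 0, nat_lit 10, [nat_lit 0, nat_lit 5, nat_lit 5, nat_lit 20], false, nat_lit 0, nat_lit 160, nat_lit 0, nat_lit 160, ⟨nat_lit 1000, nat_lit 0, nat_lit 0, nat_lit 0, nat_lit 0, nat_lit 0, nat_lit 0, nat_lit 0, nat_lit 0, nat_lit 0, nat_lit 0, nat_lit 0, nat_lit 0, nat_lit 0, nat_lit 0, nat_lit 0, false, false⟩,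
 nat_lit 0, nat_lit 12190, nat_lit 0, nat_lit 0, nat_lit 7925, nat_lit 7687, nat_lit 2923, nat_lit 0, nat_lit 0, nat_lit 1556, nat_lit 0, nat_lit 0, nat_lit 0, nat_lit 34118997078360, nat_lit 0, nat_lit 0, nat_lit 0, nat_lit 0, [],
 ⟨p066_k9, nat_lit 0, nat_lit 0, nat_lit 671, nat_lit 0, nat_lit 929948, [nat_lit 3282000000, nat_lit 6250000000, nat_lit 9842000000], [], [nat_lit 28331539428, nat_lit 27310454690, nat_lit 25238340263, nat_lit 25431755650, nat_lit 22444072853, nat_lit 22625543960, nat_lit 24234187125, nat_lit 23325245100], nat_lit 1271250, nat_lit 1271250, nat_lit 408851, nat_lit 1100001, nat_lit 0, nat_lit 1100001, [nat_lit 780000, nat_lit 1435000, nat_lit 1271250], [nat_lit 8, nat_lit 40, nat_lit 40, nat_lit 80, nat_lit 1, nat_lit 317, nat_lit 100, nat_lit 9]⟩, ⟨p066_k0, nat_lit 0, nat_lit 0, nat_lit 189, nat_lit 0, nat_lit 0, [nat_lit 3282000000, nat_lit 6250000000, nat_lit 9842000000], [], [nat_lit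 19849490434, nat_lit 20907438120, nat_lit 19458168120, nat_lit 20608772340, nat_lit 15125410601, nat_lit 16220142054, nat_lit 15248004352, nat_lit 16201639041], nat_lit 0, nat_lit 0, nat_lit 0, nat_lit 0, nat_lit 0, nat_lit 0, [], [nat_lit 8, nat_lit 40, nat_lit 40, nat_lit 80, nat_lit 1, nat_lit 317, nat_lit 100, nat_lit 9]⟩,
 zbF0, [⟨nat_lit 0, nat_lit 100, nat_lit 100, nat_lit 90, nat_lit 540096372⟩]⟩
noncomputable def p066_l32 : Lf2 := ⟨nat_lit 0, nat_lit 10, [nat_lit 0, nat_lit 5, nat_lit 5, nat_lit 20], false, nat_lit 0, nat_lit 160, nat_lit 0, nat_lit 160, ⟨nat_lit 1000, nat_lit 0, nat_lit 0, nat_lit 0, nat_lit 0, nat_lit 0, nat_lit 0, nat_lit 0, nat_lit 0, nat_lit 0, nat_lit 0, nat_lit 0, nat_lit 0, nat_lit 0, nat_lit 0, nat_lit 0, false, false⟩,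
 nat_lit 0, nat_lit 11307, nat_lit 0, nat_lit 0, nat_lit 7351, nat_lit 9587, nat_lit 2575, nat_lit 0, nat_lit 0, nat_lit 1554, nat_lit 0, nat_lit 0, nat_lit 0, nat_lit 57877884569019, nat_lit 0, nat_lit 0, nat_lit 0, nat_lit 0, [],
 ⟨p066_k9, nat_lit 0, nat_lit 0, nat_lit 624, nat_lit 0, nat_lit 929948, [nat_lit 3282000000, nat_lit 6250000000, nat_lit 9842000000], [], [nat_lit 30788115870, nat_lit 29831056100, nat_lit 29237743613, nat_lit 29395415826, nat_lit 25014596858, nat_lit 25146968877, nat_lit 26043015948, nat_lit 25674485114], nat_lit 1271250, nat_lit 1271250, nat_lit 1100001, nat_lit 1785000, nat_lit 0, nat_lit 1100001, [nat_lit 780000, nat_lit 1435000, nat_lit 1271250], [nat_lit 8, nat_lit 40, nat_lit 40, nat_lit 80, nat_lit 1, nat_lit 317, nat_lit 100, nat_lit 9]⟩, ⟨p066_k0, nat_lit 0, nat_lit 0, nat_lit 159, nat_lit 0, nat_lit 0, [nat_lit 3282000000, nat_lit 6250000000, nat_lit 9842000000], [], [nat_lit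 19046526650, nat_lit 20122030340, nat_lit 23926914108, nat_lit 25372344021, nat_lit 12715866752, nat_lit 13821970741, nat_lit 16387574160, nat_lit 17306546063], nat_lit 0, nat_lit 0, nat_lit 0, nat_lit 0, nat_lit 0, nat_lit 0, [], [nat_lit 8, nat_lit 40, nat_lit 40, nat_lit 80, nat_lit 1, nat_lit 317, nat_lit 100, nat_lit 9]⟩,
 zbF0, []⟩
noncomputable def p066_l33 : Lf2 := ⟨nat_lit 0, nat_lit 10, [nat_lit 0, nat_lit 5, nat_lit 5, nat_lit 20], false, nat_lit 0, nat_lit 160, nat_lit 0, nat_lit 160, ⟨nat_lit 1000, nat_lit 0, nat_lit 0, nat_lit 0, nat_lit 0, nat_lit 0, nat_lit 0, nat_lit 0, nat_lit 0, nat_lit 0, nat_lit 0, nat_lit 0, nat_lit 0, nat_lit 0, nat_lit 0, nat_lit 0, false, false⟩,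
 nat_lit 0, nat_lit 10034, nat_lit 0, nat_lit 0, nat_lit 6663, nat_lit 7628, nat_lit 2099, nat_lit 0, nat_lit 0, nat_lit 1529, nat_lit 0, nat_lit 0, nat_lit 0, nat_lit 38378781986607, nat_lit 0, nat_lit 0, nat_lit 0, nat_lit 0, [],
 ⟨p066_k6, nat_lit 0, nat_lit 0, nat_lit 633, nat_lit 0, nat_lit 997710, [nat_lit 3282000000, nat_lit 6250000000, nat_lit 7968000000], [], [nat_lit 31314449695, nat_lit 30444311868, nat_lit 28564798619, nat_lit 28698917344, nat_lit 25615160054, nat_lit 25763395262, nat_lit 32271126243, nat_lit 31535954144], nat_lit 1271250, nat_lit 1271250, nat_lit 435600, nat_lit 1735500, nat_lit 0, nat_lit 1100001, [nat_lit 780000, nat_lit 1435000, nat_lit 1271250], [nat_lit 18, nat_lit 40, nat_lit 40, nat_lit 80, nat_lit 2, nat_lit 317, nat_lit 100, nat_lit 11]⟩, ⟨p066_k0, nat_lit 0, nat_lit 0, nat_lit 189, nat_lit 0, nat_lit 0, [nat_lit 3282000000, nat_lit 6250000000, nat_lit 9842000000], [], [nat_lit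 19796916913, nat_lit 21371130180, nat_lit 23469003376, nat_lit 24900955702, nat_lit 15057434909, nat_lit 16684162257, nat_lit 18695903040, nat_lit 19888444938], nat_lit 0, nat_lit 0, nat_lit 0, nat_lit 0, nat_lit 0, nat_lit 0, [], [nat_lit 8, nat_lit 40, nat_lit 40, nat_lit 80, nat_lit 1, nat_lit 317, nat_lit 100, nat_lit 9]⟩,
 zbF0, [⟨nat_lit 0, nat_lit 100, nat_lit 100, nat_lit 95, nat_lit 261472269⟩]⟩
noncomputable def p066_l34 : Lf2 := ⟨nat_lit 0, nat_lit 10, [nat_lit 0, nat_lit 5, nat_lit 5, nat_lit 20], false, nat_lit 0, nat_lit 160, nat_lit 0, nat_lit 160, ⟨nat_lit 1000, nat_lit 0, nat_lit 0, nat_lit 0, nat_lit 0, nat_lit 0, nat_lit 0, nat_lit 0, nat_lit 0, nat_lit 0, nat_lit 0, nat_lit 0, nat_lit 0, nat_lit 0, nat_lit 0, nat_lit 0, false, false⟩,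
 nat_lit 0, nat_lit 9561, nat_lit 0, nat_lit 0, nat_lit 6483, nat_lit 7571, nat_lit 1943, nat_lit 0, nat_lit 0, nat_lit 1502, nat_lit 0, nat_lit 0, nat_lit 0, nat_lit 38589137975829, nat_lit 0, nat_lit 0, nat_lit 0, nat_lit 0, [],
 ⟨p066_k10, nat_lit 0, nat_lit 0, nat_lit 657, nat_lit 0, nat_lit 1062413, [nat_lit 3282000000, nat_lit 6250000000, nat_lit 7968000000], [], [nat_lit 28147582072, nat_lit 27302241011, nat_lit 25464768999, nat_lit 25620378407, nat_lit 22448488937, nat_lit 22618203932, nat_lit 31150735859, nat_lit 30435424329], nat_lit 1271250, nat_lit 1271250, nat_lit 462650, nat_lit 1737750, nat_lit 0, nat_lit 1100001, [nat_lit 780000, nat_lit 1435000, nat_lit 1271250], [nat_lit 18, nat_lit 40, nat_lit 40, nat_lit 80, nat_lit 2, nat_lit 317, nat_lit 100, nat_lit 11]⟩, ⟨p066_k0, nat_lit 0, nat_lit 0, nat_lit 190, nat_lit 0, nat_lit 0, [nat_lit 3282000000, nat_lit 6250000000, nat_lit 9842000000], [], [nat_lit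 19749343776, nat_lit 21827325243, nat_lit 23477308732, nat_lit 25377458158, nat_lit 14990472697, nat_lit 17139442294, nat_lit 18763067280, nat_lit 20345910478], nat_lit 0, nat_lit 0, nat_lit 0, nat_lit 0, nat_lit 0, nat_lit 0, [], [nat_lit 8, nat_lit 40, nat_lit 40, nat_lit 80, nat_lit 1, nat_lit 317, nat_lit 100, nat_lit 9]⟩,
 zbF0, [⟨nat_lit 0, nat_lit 100, nat_lit 100, nat_lit 100, nat_lit 183124293⟩]⟩
noncomputable def b_V_700_700_10_5 : St := ⟨true, nat_lit 1, nat_lit 0, nat_lit 1, nat_lit 80, nat_lit 280, nat_lit 300, nat_lit 280, nat_lit 300, nat_lit 64, nat_lit 240, nat_lit 40, nat_lit 80, nat_lit 0, nat_lit 160, nat_lit 0, nat_lit 160, nat_lit 0, nat_lit 40, nat_lit 0, nat_lit 0, nat_lit 0, nat_lit 0⟩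
theorem d_V_700_700_10_5 (h : EB TB.env) : Dead b_V_700_700_10_5 := chkB_sound0 h (T :=
(.spl (nat_lit 0) (nat_lit 290)
(.ord (.spl (nat_lit 0) (nat_lit 285)
(.ord (.spl (nat_lit 6) (nat_lit 20)
(.spl (nat_lit 2) (nat_lit 120)
(.spl (nat_lit 2) (nat_lit 80)
(.leaf p066_l27)
(.leaf p066_l28))
(.leaf p066_l29))
(.leaf p066_l30)))
(.trZ (nat_lit 0) (nat_lit 100) (nat_lit 99) (nat_lit 82) (nat_lit 68) (.spl (nat_lit 2) (nat_lit 160)
(.leaf p066_l31)
(.leaf p066_l32)))))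
(.trZ (nat_lit 0) (nat_lit 100) (nat_lit 97) (nat_lit 84) (nat_lit 72) (.spl (nat_lit 0) (nat_lit 295)
(.ord (.leaf p066_l33))
(.trZ (nat_lit 0) (nat_lit 100) (nat_lit 96) (nat_lit 86) (nat_lit 76) (.leaf p066_l34)))))) (by decide +kernel)
noncomputable def p066_l35 : Lf2 := ⟨nat_lit 0, nat_lit 10, [nat_lit 0, nat_lit 5, nat_lit 5, nat_lit 20], false, nat_lit 0, nat_lit 80, nat_lit 160, nat_lit 276, ⟨nat_lit 1000, nat_lit 0, nat_lit 0, nat_lit 0, nat_lit 0, nat_lit 0, nat_lit 0, nat_lit 0, nat_lit 0, nat_lit 0, nat_lit 0, nat_lit 0, nat_lit 0, nat_lit 0, nat_lit 0, nat_lit 0, false, false⟩,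
 nat_lit 0, nat_lit 15967, nat_lit 0, nat_lit 0, nat_lit 10160, nat_lit 5295, nat_lit 1450, nat_lit 0, nat_lit 0, nat_lit 0, nat_lit 0, nat_lit 0, nat_lit 0, nat_lit 0, nat_lit 0, nat_lit 0, nat_lit 0, nat_lit 0, [],
 ⟨p066_k0, nat_lit 0, nat_lit 0, nat_lit 472, nat_lit 0, nat_lit 495013, [nat_lit 3282000000, nat_lit 6250000000, nat_lit 9842000000], [], [nat_lit 22312030432, nat_lit 23234702667, nat_lit 21595132640, nat_lit 22499278200, nat_lit 17190401280, nat_lit 18046028937, nat_lit 16914979040, nat_lit 17388449400], nat_lit 1271250, nat_lit 1271250, nat_lit 382400, nat_lit 490000, nat_lit 0, nat_lit 490000, [nat_lit 780000, nat_lit 1435000, nat_lit 1271250], [nat_lit 8, nat_lit 40, nat_lit 40, nat_lit 80, nat_lit 1, nat_lit 249, nat_lit 40, nat_lit 7]⟩, ⟨p066_k0, nat_lit 0, nat_lit 0, nat_lit 52, nat_lit 0, nat_lit 0, [nat_lit 3282000000, nat_lit 6250000000, nat_lit 9842000000], [], [nat_lit 12142116093, nat_lit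 13145778624, nat_lit 11890421220, nat_lit 12877908175, nat_lit 18863780569, nat_lit 19716840380, nat_lit 18405100871, nat_lit 19245967447], nat_lit 0, nat_lit 0, nat_lit 0, nat_lit 0, nat_lit 0, nat_lit 0, [], [nat_lit 8, nat_lit 40, nat_lit 40, nat_lit 80, nat_lit 1, nat_lit 317, nat_lit 100, nat_lit 9]⟩,
 zbF0, [⟨nat_lit 0, nat_lit 100, nat_lit 100, nat_lit 85, nat_lit 995959638⟩, ⟨nat_lit 7, nat_lit 100, nat_lit 94, nat_lit 69, nat_lit 762553969⟩]⟩
noncomputable def p066_l36 : Lf2 := ⟨nat_lit 0, nat_lit 10, [nat_lit 0, nat_lit 5, nat_lit 5, nat_lit 20], false, nat_lit 0, nat_lit 80, nat_lit 160, nat_lit 276, ⟨nat_lit 1000, nat_lit 0, nat_lit 0, nat_lit 0, nat_lit 0, nat_lit 0, nat_lit 0, nat_lit 0, nat_lit 0, nat_lit 0, nat_lit 0, nat_lit 0, nat_lit 0, nat_lit 0, nat_lit 0, nat_lit 0, false, false⟩,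
 nat_lit 0, nat_lit 10512, nat_lit 0, nat_lit 0, nat_lit 6689, nat_lit 5731, nat_lit 1854, nat_lit 0, nat_lit 0, nat_lit 0, nat_lit 0, nat_lit 0, nat_lit 0, nat_lit 14959692973036, nat_lit 0, nat_lit 0, nat_lit 0, nat_lit 0, [],
 ⟨p066_k11, nat_lit 0, nat_lit 0, nat_lit 657, nat_lit 0, nat_lit 928710, [nat_lit 3282000000, nat_lit 4688000000, nat_lit 9842000000], [], [nat_lit 28810552712, nat_lit 27096945738, nat_lit 26502737904, nat_lit 26998332222, nat_lit 24577534620, nat_lit 25062410732, nat_lit 26469957294, nat_lit 24959459102], nat_lit 1271250, nat_lit 1271250, nat_lit 490000, nat_lit 780000, nat_lit 0, nat_lit 490000, [nat_lit 780000, nat_lit 1100000, nat_lit 2127500], [nat_lit 42, nat_lit 40, nat_lit 40, nat_lit 80, nat_lit 13, nat_lit 260, nat_lit 50, nat_lit 8]⟩, ⟨p066_k11, nat_lit 0, nat_lit 0, nat_lit 32, nat_lit 0, nat_lit 0, [nat_lit 3282000000, nat_lit 4688000000, nat_lit 9842000000], [], [nat_lit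 11356894996, nat_lit 12393889315, nat_lit 11579891552, nat_lit 12562425418, nat_lit 18557738787, nat_lit 19438508883, nat_lit 18290089592, nat_lit 19128247813], nat_lit 0, nat_lit 0, nat_lit 0, nat_lit 0, nat_lit 0, nat_lit 0, [], [nat_lit 42, nat_lit 40, nat_lit 40, nat_lit 80, nat_lit 13, nat_lit 317, nat_lit 100, nat_lit 9]⟩,
 zbF0, [⟨nat_lit 0, nat_lit 100, nat_lit 100, nat_lit 90, nat_lit 289667796⟩, ⟨nat_lit 7, nat_lit 100, nat_lit 94, nat_lit 69, nat_lit 797760861⟩]⟩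
noncomputable def p066_l37 : Lf2 := ⟨nat_lit 0, nat_lit 10, [nat_lit 0, nat_lit 5, nat_lit 5, nat_lit 20], false, nat_lit 0, nat_lit 80, nat_lit 160, nat_lit 276, ⟨nat_lit 1000, nat_lit 0, nat_lit 0, nat_lit 0, nat_lit 0, nat_lit 0, nat_lit 0, nat_lit 0, nat_lit 0, nat_lit 0, nat_lit 0, nat_lit 0, nat_lit 0, nat_lit 0, nat_lit 0, nat_lit 0, false, false⟩,
 nat_lit 0, nat_lit 11111, nat_lit 0, nat_lit 0, nat_lit 7070, nat_lit 5917, nat_lit 1638, nat_lit 0, nat_lit 0, nat_lit 0, nat_lit 0, nat_lit 0, nat_lit 0, nat_lit 2403982022694, nat_lit 0, nat_lit 0, nat_lit 0, nat_lit 0, [],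
 ⟨p066_k11, nat_lit 0, nat_lit 0, nat_lit 630, nat_lit 0, nat_lit 928710, [nat_lit 3282000000, nat_lit 4688000000, nat_lit 9842000000], [], [nat_lit 27185404560, nat_lit 25373640760, nat_lit 27317006830, nat_lit 27210975670, nat_lit 22677870560, nat_lit 23148687260, nat_lit 30073456470, nat_lit 28472780190], nat_lit 1271250, nat_lit 1271250, nat_lit 780000, nat_lit 1762500, nat_lit 0, nat_lit 490000, [nat_lit 780000, nat_lit 1100000, nat_lit 2127500], [nat_lit 42, nat_lit 40, nat_lit 40, nat_lit 80, nat_lit 13, nat_lit 317, nat_lit 100, nat_lit 9]⟩, ⟨p066_k11, nat_lit 0, nat_lit 0, nat_lit 18, nat_lit 0, nat_lit 0, [nat_lit 3282000000, nat_lit 4688000000, nat_lit 9842000000], [], [nat_lit 11328306464, nat_lit 12330572326, nat_lit 16132583812, nat_lit 17016914824, nat_lit 18317846744, nat_lit 19171734120, nat_lit 21597547689, nat_lit 22274834381], nat_lit 0, nat_lit 0, nat_lit 0, nat_lit 0, nat_lit 0, nat_lit 0,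 [], [nat_lit 42, nat_lit 40, nat_lit 40, nat_lit 80, nat_lit 13, nat_lit 373, nat_lit 150, nat_lit 10]⟩,
 zbF0, [⟨nat_lit 7, nat_lit 100, nat_lit 94, nat_lit 69, nat_lit 784259940⟩]⟩
noncomputable def p066_l38 : Lf2 := ⟨nat_lit 0, nat_lit 1, [nat_lit 19, nat_lit 5, nat_lit 5, nat_lit 20], false, nat_lit 80, nat_lit 160, nat_lit 160, nat_lit 276, ⟨nat_lit 1000, nat_lit 0, nat_lit 0, nat_lit 0, nat_lit 0, nat_lit 0, nat_lit 0, nat_lit 0, nat_lit 0, nat_lit 0, nat_lit 0, nat_lit 0, nat_lit 0, nat_lit 0, nat_lit 0, nat_lit 0, false, false⟩,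
 nat_lit 0, nat_lit 9722, nat_lit 0, nat_lit 0, nat_lit 6186, nat_lit 5175, nat_lit 0, nat_lit 0, nat_lit 0, nat_lit 0, nat_lit 0, nat_lit 0, nat_lit 0, nat_lit 5713915337801, nat_lit 0, nat_lit 0, nat_lit 0, nat_lit 0, [],
 ⟨p066_k12, nat_lit 0, nat_lit 0, nat_lit 278, nat_lit 0, nat_lit 747415, [nat_lit 3282000000, nat_lit 4688000000], [], [nat_lit 23885342143, nat_lit 23413447834, nat_lit 20614994024, nat_lit 20798537189, nat_lit 20816388751, nat_lit 21003276444, nat_lit 23787236128, nat_lit 23361541590], nat_lit 1271250, nat_lit 1271250, nat_lit 382400, nat_lit 1100001, nat_lit 490000, nat_lit 1100001, [nat_lit 780000, nat_lit 1100000], [nat_lit 40, nat_lit 40, nat_lit 40, nat_lit 80, nat_lit 22, nat_lit 317, nat_lit 100, nat_lit 15]⟩, ⟨p066_k12, nat_lit 0, nat_lit 0, nat_lit 30, nat_lit 0, nat_lit 0, [nat_lit 3282000000, nat_lit 4688000000], [], [nat_lit 12275709981, nat_lit 12572638435, nat_lit 13306992900,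 nat_lit 13566635213, nat_lit 18805383073, nat_lit 19057011353, nat_lit 19060249885, nat_lit 19261094151], nat_lit 0, nat_lit 0, nat_lit 0, nat_lit 0, nat_lit 0, nat_lit 0, [], [nat_lit 40, nat_lit 40, nat_lit 40, nat_lit 80, nat_lit 22, nat_lit 249, nat_lit 40, nat_lit 11]⟩,
 zbF0, [⟨nat_lit 0, nat_lit 100, nat_lit 100, nat_lit 83, nat_lit 408649303⟩, ⟨nat_lit 7, nat_lit 100, nat_lit 96, nat_lit 69, nat_lit 744773575⟩]⟩
noncomputable def p066_l39 : Lf2 := ⟨nat_lit 0, nat_lit 2, [nat_lit 10, nat_lit 5, nat_lit 5, nat_lit 20], false, nat_lit 80, nat_lit 160, nat_lit 160, nat_lit 276, ⟨nat_lit 1000, nat_lit 0, nat_lit 0, nat_lit 0, nat_lit 0, nat_lit 0, nat_lit 0, nat_lit 0, nat_lit 0, nat_lit 0, nat_lit 0, nat_lit 0, nat_lit 0, nat_lit 0, nat_lit 0, nat_lit 0, false, false⟩,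
 nat_lit 0, nat_lit 11626, nat_lit 0, nat_lit 0, nat_lit 7398, nat_lit 5152, nat_lit 0, nat_lit 0, nat_lit 0, nat_lit 0, nat_lit 0, nat_lit 0, nat_lit 0, nat_lit 9999896831055, nat_lit 0, nat_lit 0, nat_lit 0, nat_lit 0, [],
 ⟨p066_k13, nat_lit 0, nat_lit 0, nat_lit 319, nat_lit 0, nat_lit 671166, [nat_lit 3282000000, nat_lit 6250000000], [], [nat_lit 24124176656, nat_lit 24309293879, nat_lit 23847025848, nat_lit 24007541488, nat_lit 24206198508, nat_lit 24369714881, nat_lit 28862300704, nat_lit 28353201416], nat_lit 1271250, nat_lit 1271250, nat_lit 382400, nat_lit 1100001, nat_lit 490000, nat_lit 1100001, [nat_lit 780000, nat_lit 1435000], [nat_lit 49, nat_lit 40, nat_lit 40, nat_lit 80, nat_lit 16, nat_lit 317, nat_lit 100, nat_lit 12]⟩, ⟨p066_k13, nat_lit 0, nat_lit 0, nat_lit 30, nat_lit 0, nat_lit 0, [nat_lit 3282000000, nat_lit 6250000000], [], [nat_lit 12301315476, nat_lit 12597444622, nat_lit 13338470976,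 nat_lit 13597441609, nat_lit 18818321255, nat_lit 19045868639, nat_lit 19081531735, nat_lit 19281910850], nat_lit 0, nat_lit 0, nat_lit 0, nat_lit 0, nat_lit 0, nat_lit 0, [], [nat_lit 49, nat_lit 40, nat_lit 40, nat_lit 80, nat_lit 16, nat_lit 345, nat_lit 125, nat_lit 13]⟩,
 zbF0, [⟨nat_lit 0, nat_lit 100, nat_lit 100, nat_lit 83, nat_lit 331383667⟩, ⟨nat_lit 7, nat_lit 100, nat_lit 96, nat_lit 69, nat_lit 742366333⟩]⟩
noncomputable def p066_l40 : Lf2 := ⟨nat_lit 0, nat_lit 5, [nat_lit 4, nat_lit 5, nat_lit 5, nat_lit 20], false, nat_lit 80, nat_lit 160, nat_lit 160, nat_lit 276, ⟨nat_lit 1000, nat_lit 0, nat_lit 0, nat_lit 0, nat_lit 0, nat_lit 0, nat_lit 0, nat_lit 0, nat_lit 0, nat_lit 0, nat_lit 0, nat_lit 0, nat_lit 0, nat_lit 0, nat_lit 0, nat_lit 0, false, false⟩,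
 nat_lit 0, nat_lit 15978, nat_lit 0, nat_lit 0, nat_lit 10167, nat_lit 5152, nat_lit 888, nat_lit 0, nat_lit 0, nat_lit 0, nat_lit 0, nat_lit 0, nat_lit 0, nat_lit 7489668460148, nat_lit 0, nat_lit 0, nat_lit 0, nat_lit 0, [],
 ⟨p066_k3, nat_lit 0, nat_lit 0, nat_lit 379, nat_lit 0, nat_lit 617475, [nat_lit 3282000000, nat_lit 6250000000, nat_lit 7968000000], [], [nat_lit 20392522113, nat_lit 19616940245, nat_lit 16090608580, nat_lit 16311100158, nat_lit 16757085311, nat_lit 16962050926, nat_lit 23815100416, nat_lit 23115450178], nat_lit 1271250, nat_lit 1271250, nat_lit 382400, nat_lit 1100001, nat_lit 490000, nat_lit 1100001, [nat_lit 780000, nat_lit 1435000, nat_lit 1271250], [nat_lit 18, nat_lit 40, nat_lit 40, nat_lit 80, nat_lit 2, nat_lit 317, nat_lit 100, nat_lit 10]⟩, ⟨p066_k3, nat_lit 0, nat_lit 0, nat_lit 47, nat_lit 0, nat_lit 0, [nat_lit 3282000000, nat_lit 6250000000, nat_lit 7968000000], [], [nat_lit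 12301315476, nat_lit 12597444622, nat_lit 13338470976, nat_lit 13597441609, nat_lit 18818321255, nat_lit 19045868639, nat_lit 19081531735, nat_lit 19281910850], nat_lit 0, nat_lit 0, nat_lit 0, nat_lit 0, nat_lit 0, nat_lit 0, [], [nat_lit 18, nat_lit 40, nat_lit 40, nat_lit 80, nat_lit 2, nat_lit 345, nat_lit 125, nat_lit 11]⟩,
 zbF0, [⟨nat_lit 0, nat_lit 100, nat_lit 100, nat_lit 83, nat_lit 218365408⟩, ⟨nat_lit 7, nat_lit 100, nat_lit 96, nat_lit 69, nat_lit 742366333⟩]⟩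
noncomputable def p066_l41 : Lf2 := ⟨nat_lit 0, nat_lit 10, [nat_lit 0, nat_lit 5, nat_lit 5, nat_lit 20], false, nat_lit 80, nat_lit 160, nat_lit 160, nat_lit 276, ⟨nat_lit 1000, nat_lit 0, nat_lit 0, nat_lit 0, nat_lit 0, nat_lit 0, nat_lit 0, nat_lit 0, nat_lit 0, nat_lit 0, nat_lit 0, nat_lit 0, nat_lit 0, nat_lit 0, nat_lit 0, nat_lit 0, false, false⟩,
 nat_lit 0, nat_lit 12181, nat_lit 0, nat_lit 0, nat_lit 7751, nat_lit 5152, nat_lit 1151, nat_lit 0, nat_lit 0, nat_lit 0, nat_lit 0, nat_lit 0, nat_lit 0, nat_lit 7408653144657, nat_lit 0, nat_lit 0, nat_lit 0, nat_lit 0, [],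
 ⟨p066_k0, nat_lit 0, nat_lit 0, nat_lit 343, nat_lit 0, nat_lit 443835, [nat_lit 3282000000, nat_lit 6250000000, nat_lit 9842000000], [], [nat_lit 23269643739, nat_lit 22678364595, nat_lit 21377940460, nat_lit 20830092805, nat_lit 20573557811, nat_lit 20022695636, nat_lit 28218869248, nat_lit 27685477983], nat_lit 1271250, nat_lit 1271250, nat_lit 382400, nat_lit 1100001, nat_lit 490000, nat_lit 1100001, [nat_lit 780000, nat_lit 1435000, nat_lit 1271250], [nat_lit 8, nat_lit 40, nat_lit 40, nat_lit 80, nat_lit 1, nat_lit 317, nat_lit 100, nat_lit 9]⟩, ⟨p066_k0, nat_lit 0, nat_lit 0, nat_lit 47, nat_lit 0, nat_lit 0, [nat_lit 3282000000, nat_lit 6250000000, nat_lit 9842000000], [], [nat_lit 12301315476, nat_lit 12597444622, nat_lit 13338470976, nat_lit 13597441609, nat_lit 18818321255, nat_lit 19045868639, nat_lit 19081531735, nat_lit 19281910850], nat_lit 0, nat_lit 0, nat_lit 0, nat_lit 0, nat_lit 0, nat_lit 0,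 [], [nat_lit 8, nat_lit 40, nat_lit 40, nat_lit 80, nat_lit 1, nat_lit 345, nat_lit 125, nat_lit 10]⟩,
 zbF0, [⟨nat_lit 0, nat_lit 100, nat_lit 100, nat_lit 83, nat_lit 139775320⟩, ⟨nat_lit 7, nat_lit 100, nat_lit 96, nat_lit 69, nat_lit 742366333⟩]⟩
noncomputable def p066_l42 : Lf2 := ⟨nat_lit 0, nat_lit 5, [nat_lit 4, nat_lit 5, nat_lit 5, nat_lit 20], false, nat_lit 80, nat_lit 160, nat_lit 160, nat_lit 276, ⟨nat_lit 1000, nat_lit 0, nat_lit 0, nat_lit 0, nat_lit 0, nat_lit 0, nat_lit 0, nat_lit 0, nat_lit 0, nat_lit 0, nat_lit 0, nat_lit 0, nat_lit 0, nat_lit 0, nat_lit 0, nat_lit 0, false, false⟩,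
 nat_lit 0, nat_lit 15021, nat_lit 0, nat_lit 0, nat_lit 9683, nat_lit 5137, nat_lit 6130, nat_lit 0, nat_lit 0, nat_lit 0, nat_lit 0, nat_lit 0, nat_lit 0, nat_lit 34513167749057, nat_lit 0, nat_lit 0, nat_lit 0, nat_lit 0, [],
 ⟨p066_k14, nat_lit 0, nat_lit 0, nat_lit 455, nat_lit 0, nat_lit 790585, [nat_lit 3282000000, nat_lit 6250000000, nat_lit 7968000000], [], [nat_lit 17011988832, nat_lit 16519548634, nat_lit 13169192251, nat_lit 13275100760, nat_lit 13756027867, nat_lit 13864080793, nat_lit 20812718993, nat_lit 20368490065], nat_lit 1271250, nat_lit 1271250, nat_lit 382400, nat_lit 1100001, nat_lit 490000, nat_lit 1100001, [nat_lit 780000, nat_lit 1435000, nat_lit 1271250], [nat_lit 18, nat_lit 40, nat_lit 40, nat_lit 80, nat_lit 2, nat_lit 317, nat_lit 100, nat_lit 10]⟩, ⟨p066_k3, nat_lit 0, nat_lit 0, nat_lit 48, nat_lit 0, nat_lit 0, [nat_lit 3282000000, nat_lit 6250000000, nat_lit 7968000000], [], [nat_lit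 12318014712, nat_lit 12810694475, nat_lit 13359000156, nat_lit 13789887789, nat_lit 18826759200, nat_lit 19205400092, nat_lit 19095411202, nat_lit 19428870796], nat_lit 0, nat_lit 0, nat_lit 0, nat_lit 0, nat_lit 0, nat_lit 0, [], [nat_lit 18, nat_lit 40, nat_lit 40, nat_lit 80, nat_lit 2, nat_lit 345, nat_lit 125, nat_lit 11]⟩,
 zbF0, [⟨nat_lit 0, nat_lit 100, nat_lit 100, nat_lit 85, nat_lit 197695024⟩, ⟨nat_lit 7, nat_lit 100, nat_lit 95, nat_lit 69, nat_lit 746636638⟩]⟩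
noncomputable def p066_l43 : Lf2 := ⟨nat_lit 0, nat_lit 10, [nat_lit 0, nat_lit 5, nat_lit 5, nat_lit 20], false, nat_lit 80, nat_lit 160, nat_lit 160, nat_lit 276, ⟨nat_lit 1000, nat_lit 0, nat_lit 0, nat_lit 0, nat_lit 0, nat_lit 0, nat_lit 0, nat_lit 0, nat_lit 0, nat_lit 0, nat_lit 0, nat_lit 0, nat_lit 0, nat_lit 0, nat_lit 0, nat_lit 0, false, false⟩,
 nat_lit 0, nat_lit 11867, nat_lit 0, nat_lit 0, nat_lit 7650, nat_lit 5137, nat_lit 1218, nat_lit 0, nat_lit 0, nat_lit 0, nat_lit 0, nat_lit 0, nat_lit 0, nat_lit 24576654498235, nat_lit 0, nat_lit 0, nat_lit 0, nat_lit 0, [],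
 ⟨p066_k15, nat_lit 0, nat_lit 0, nat_lit 355, nat_lit 0, nat_lit 472064, [nat_lit 3282000000, nat_lit 6250000000, nat_lit 9842000000], [], [nat_lit 22166896324, nat_lit 21777846700, nat_lit 20439226115, nat_lit 20078753525, nat_lit 19636741437, nat_lit 19275422260, nat_lit 27237076330, nat_lit 26886115750], nat_lit 1271250, nat_lit 1271250, nat_lit 382400, nat_lit 1100001, nat_lit 490000, nat_lit 1100001, [nat_lit 780000, nat_lit 1435000, nat_lit 1271250], [nat_lit 8, nat_lit 40, nat_lit 40, nat_lit 80, nat_lit 1, nat_lit 317, nat_lit 100, nat_lit 9]⟩, ⟨p066_k0, nat_lit 0, nat_lit 0, nat_lit 48, nat_lit 0, nat_lit 0, [nat_lit 3282000000, nat_lit 6250000000, nat_lit 9842000000], [], [nat_lit 12318014712, nat_lit 12810694475, nat_lit 13359000156, nat_lit 13789887789, nat_lit 18826759200, nat_lit 19205400092, nat_lit 19095411202, nat_lit 19428870796], nat_lit 0, nat_lit 0, nat_lit 0, nat_lit 0, nat_lit 0, nat_lit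 0, [], [nat_lit 8, nat_lit 40, nat_lit 40, nat_lit 80, nat_lit 1, nat_lit 345, nat_lit 125, nat_lit 10]⟩,
 zbF0, [⟨nat_lit 0, nat_lit 100, nat_lit 100, nat_lit 85, nat_lit 140031671⟩, ⟨nat_lit 7, nat_lit 100, nat_lit 95, nat_lit 69, nat_lit 746636638⟩]⟩
noncomputable def p066_l44 : Lf2 := ⟨nat_lit 0, nat_lit 10, [nat_lit 0, nat_lit 5, nat_lit 5, nat_lit 20], false, nat_lit 80, nat_lit 160, nat_lit 160, nat_lit 276, ⟨nat_lit 1000, nat_lit 0, nat_lit 0, nat_lit 0, nat_lit 0, nat_lit 0, nat_lit 0, nat_lit 0, nat_lit 0, nat_lit 0, nat_lit 0, nat_lit 0, nat_lit 0, nat_lit 0, nat_lit 0, nat_lit 0, false, false⟩,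
 nat_lit 0, nat_lit 13894, nat_lit 0, nat_lit 0, nat_lit 9033, nat_lit 5615, nat_lit 4985, nat_lit 0, nat_lit 0, nat_lit 0, nat_lit 0, nat_lit 0, nat_lit 0, nat_lit 30961128752392, nat_lit 0, nat_lit 0, nat_lit 0, nat_lit 0, [],
 ⟨p066_k9, nat_lit 0, nat_lit 0, nat_lit 597, nat_lit 0, nat_lit 901079, [nat_lit 3282000000, nat_lit 6250000000, nat_lit 9842000000], [], [nat_lit 14964707934, nat_lit 13914804844, nat_lit 12630033035, nat_lit 12885242481, nat_lit 13029004365, nat_lit 13288014438, nat_lit 20141485565, nat_lit 19105463696], nat_lit 1271250, nat_lit 1271250, nat_lit 408851, nat_lit 1100001, nat_lit 490000, nat_lit 1100001, [nat_lit 780000, nat_lit 1435000, nat_lit 1271250], [nat_lit 8, nat_lit 40, nat_lit 40, nat_lit 80, nat_lit 1, nat_lit 317, nat_lit 100, nat_lit 9]⟩, ⟨p066_k0, nat_lit 0, nat_lit 0, nat_lit 49, nat_lit 0, nat_lit 0, [nat_lit 3282000000, nat_lit 6250000000, nat_lit 9842000000], [], [nat_lit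 11714109879, nat_lit 12750614468, nat_lit 12704803620, nat_lit 13613109795, nat_lit 18895843147, nat_lit 19775253993, nat_lit 18791604310, nat_lit 19569419976], nat_lit 0, nat_lit 0, nat_lit 0, nat_lit 0, nat_lit 0, nat_lit 0, [], [nat_lit 8, nat_lit 40, nat_lit 40, nat_lit 80, nat_lit 1, nat_lit 345, nat_lit 125, nat_lit 10]⟩,
 zbF0, [⟨nat_lit 0, nat_lit 100, nat_lit 100, nat_lit 90, nat_lit 214123029⟩, ⟨nat_lit 7, nat_lit 100, nat_lit 94, nat_lit 69, nat_lit 796519574⟩]⟩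
noncomputable def p066_l45 : Lf2 := ⟨nat_lit 0, nat_lit 10, [nat_lit 0, nat_lit 5, nat_lit 5, nat_lit 20], false, nat_lit 80, nat_lit 160, nat_lit 160, nat_lit 276, ⟨nat_lit 1000, nat_lit 0, nat_lit 0, nat_lit 0, nat_lit 0, nat_lit 0, nat_lit 0, nat_lit 0, nat_lit 0, nat_lit 0, nat_lit 0, nat_lit 0, nat_lit 0, nat_lit 0, nat_lit 0, nat_lit 0, false, false⟩,
 nat_lit 0, nat_lit 14525, nat_lit 0, nat_lit 0, nat_lit 9242, nat_lit 20644, nat_lit 855, nat_lit 0, nat_lit 0, nat_lit 0, nat_lit 0, nat_lit 0, nat_lit 0, nat_lit 0, nat_lit 0, nat_lit 0, nat_lit 0, nat_lit 0, [],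
 ⟨p066_k0, nat_lit 0, nat_lit 0, nat_lit 567, nat_lit 0, nat_lit 928710, [nat_lit 3282000000, nat_lit 6250000000, nat_lit 9842000000], [], [nat_lit 21503484747, nat_lit 21921666945, nat_lit 22362184520, nat_lit 22791643160, nat_lit 20337479459, nat_lit 20700841391, nat_lit 23762145048, nat_lit 21644058148], nat_lit 1271250, nat_lit 1271250, nat_lit 1100001, nat_lit 1785000, nat_lit 490000, nat_lit 1100001, [nat_lit 780000, nat_lit 1435000, nat_lit 1271250], [nat_lit 8, nat_lit 40, nat_lit 40, nat_lit 80, nat_lit 1, nat_lit 317, nat_lit 100, nat_lit 9]⟩, ⟨p066_k0, nat_lit 0, nat_lit 0, nat_lit 20, nat_lit 0, nat_lit 0, [nat_lit 3282000000, nat_lit 6250000000, nat_lit 9842000000], [], [nat_lit 5653971200, nat_lit 8358614240, nat_lit 13429236784, nat_lit 15624800968, nat_lit 19769000296, nat_lit 21712290866, nat_lit 24010772817, nat_lit 25582965546], nat_lit 0, nat_lit 0, nat_lit 0, nat_lit 0, nat_lit 0, nat_lit 0,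 [], [nat_lit 8, nat_lit 40, nat_lit 40, nat_lit 80, nat_lit 1, nat_lit 373, nat_lit 150, nat_lit 10]⟩,
 zbF0, [⟨nat_lit 7, nat_lit 100, nat_lit 94, nat_lit 69, nat_lit 1217046871⟩]⟩
noncomputable def p066_l46 : Lf2 := ⟨nat_lit 0, nat_lit 5, [nat_lit 4, nat_lit 5, nat_lit 5, nat_lit 20], false, nat_lit 0, nat_lit 80, nat_lit 160, nat_lit 300, ⟨nat_lit 1000, nat_lit 0, nat_lit 0, nat_lit 0, nat_lit 0, nat_lit 0, nat_lit 0, nat_lit 0, nat_lit 0, nat_lit 0, nat_lit 0, nat_lit 0, nat_lit 0, nat_lit 0, nat_lit 0, nat_lit 0, false, false⟩,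
 nat_lit 0, nat_lit 8906, nat_lit 0, nat_lit 0, nat_lit 5667, nat_lit 5012, nat_lit 838, nat_lit 0, nat_lit 0, nat_lit 0, nat_lit 0, nat_lit 0, nat_lit 0, nat_lit 0, nat_lit 0, nat_lit 0, nat_lit 0, nat_lit 0, [],
 ⟨p066_k3, nat_lit 0, nat_lit 0, nat_lit 431, nat_lit 0, nat_lit 581880, [nat_lit 3282000000, nat_lit 6250000000, nat_lit 7968000000], [], [nat_lit 31915398077, nat_lit 31851613083, nat_lit 31843568028, nat_lit 31994769392, nat_lit 29657712824, nat_lit 29818747302, nat_lit 29884276092, nat_lit 30025351736], nat_lit 1271250, nat_lit 1271250, nat_lit 382400, nat_lit 1100001, nat_lit 0, nat_lit 490000, [nat_lit 780000, nat_lit 1435000, nat_lit 1271250], [nat_lit 18, nat_lit 40, nat_lit 40, nat_lit 80, nat_lit 2, nat_lit 272, nat_lit 60, nat_lit 9]⟩, ⟨p066_k3, nat_lit 0, nat_lit 0, nat_lit 61, nat_lit 0, nat_lit 0, [nat_lit 3282000000, nat_lit 6250000000, nat_lit 7968000000], [], [nat_lit 12457175012, nat_lit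 12748438802, nat_lit 13530076656, nat_lit 13784958799, nat_lit 20573535225, nat_lit 20803956242, nat_lit 20687967412, nat_lit 20873005657], nat_lit 0, nat_lit 0, nat_lit 0, nat_lit 0, nat_lit 0, nat_lit 0, [], [nat_lit 18, nat_lit 40, nat_lit 40, nat_lit 80, nat_lit 2, nat_lit 345, nat_lit 125, nat_lit 11]⟩,
 zbF0, [⟨nat_lit 0, nat_lit 100, nat_lit 100, nat_lit 81, nat_lit 526485395⟩, ⟨nat_lit 7, nat_lit 99, nat_lit 100, nat_lit 83, nat_lit 611429052⟩]⟩
noncomputable def p066_l47 : Lf2 := ⟨nat_lit 0, nat_lit 5, [nat_lit 4, nat_lit 5, nat_lit 5, nat_lit 20], false, nat_lit 0, nat_lit 80, nat_lit 160, nat_lit 300, ⟨nat_lit 1000, nat_lit 0, nat_lit 0, nat_lit 0, nat_lit 0, nat_lit 0, nat_lit 0, nat_lit 0, nat_lit 0, nat_lit 0, nat_lit 0, nat_lit 0, nat_lit 0, nat_lit 0, nat_lit 0, nat_lit 0, false, false⟩,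
 nat_lit 0, nat_lit 8181, nat_lit 0, nat_lit 0, nat_lit 5273, nat_lit 5012, nat_lit 3144, nat_lit 0, nat_lit 0, nat_lit 0, nat_lit 0, nat_lit 0, nat_lit 0, nat_lit 0, nat_lit 0, nat_lit 0, nat_lit 0, nat_lit 0, [],
 ⟨p066_k14, nat_lit 0, nat_lit 0, nat_lit 442, nat_lit 0, nat_lit 607474, [nat_lit 3282000000, nat_lit 6250000000, nat_lit 7968000000], [], [nat_lit 30744328821, nat_lit 30474532339, nat_lit 30665970685, nat_lit 30763490519, nat_lit 28596876562, nat_lit 28700578499, nat_lit 28919190175, nat_lit 29010290726], nat_lit 1271250, nat_lit 1271250, nat_lit 382400, nat_lit 1100001, nat_lit 0, nat_lit 490000, [nat_lit 780000, nat_lit 1435000, nat_lit 1271250], [nat_lit 18, nat_lit 40, nat_lit 40, nat_lit 80, nat_lit 2, nat_lit 272, nat_lit 60, nat_lit 9]⟩, ⟨p066_k3, nat_lit 0, nat_lit 0, nat_lit 63, nat_lit 0, nat_lit 0, [nat_lit 3282000000, nat_lit 6250000000, nat_lit 7968000000], [], [nat_lit 12457175012, nat_lit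 12942614662, nat_lit 13530076656, nat_lit 13954880226, nat_lit 20573535225, nat_lit 20957976503, nat_lit 20687967412, nat_lit 20996364487], nat_lit 0, nat_lit 0, nat_lit 0, nat_lit 0, nat_lit 0, nat_lit 0, [], [nat_lit 18, nat_lit 40, nat_lit 40, nat_lit 80, nat_lit 2, nat_lit 345, nat_lit 125, nat_lit 11]⟩,
 zbF0, [⟨nat_lit 0, nat_lit 100, nat_lit 99, nat_lit 81, nat_lit 524270367⟩, ⟨nat_lit 7, nat_lit 99, nat_lit 100, nat_lit 83, nat_lit 613396792⟩]⟩
noncomputable def p066_l48 : Lf2 := ⟨nat_lit 0, nat_lit 10, [nat_lit 0, nat_lit 5, nat_lit 5, nat_lit 20], false, nat_lit 0, nat_lit 80, nat_lit 160, nat_lit 300, ⟨nat_lit 1000, nat_lit 0, nat_lit 0, nat_lit 0, nat_lit 0, nat_lit 0, nat_lit 0, nat_lit 0, nat_lit 0, nat_lit 0, nat_lit 0, nat_lit 0, nat_lit 0, nat_lit 0, nat_lit 0, nat_lit 0, false, false⟩,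
 nat_lit 0, nat_lit 10100, nat_lit 0, nat_lit 0, nat_lit 6427, nat_lit 4979, nat_lit 1283, nat_lit 0, nat_lit 0, nat_lit 0, nat_lit 0, nat_lit 0, nat_lit 0, nat_lit 0, nat_lit 0, nat_lit 0, nat_lit 0, nat_lit 0, [],
 ⟨p066_k0, nat_lit 0, nat_lit 0, nat_lit 350, nat_lit 0, nat_lit 285065, [nat_lit 3282000000, nat_lit 6250000000, nat_lit 9842000000], [], [nat_lit 24453183533, nat_lit 24824206501, nat_lit 24686927008, nat_lit 25036133100, nat_lit 21725122415, nat_lit 22099011543, nat_lit 24543015420, nat_lit 23785905180], nat_lit 1271250, nat_lit 1271250, nat_lit 382400, nat_lit 1100001, nat_lit 0, nat_lit 490000, [nat_lit 780000, nat_lit 1435000, nat_lit 1271250], [nat_lit 8, nat_lit 40, nat_lit 40, nat_lit 80, nat_lit 1, nat_lit 272, nat_lit 60, nat_lit 8]⟩, ⟨p066_k0, nat_lit 0, nat_lit 0, nat_lit 63, nat_lit 0, nat_lit 0, [nat_lit 3282000000, nat_lit 6250000000, nat_lit 9842000000], [], [nat_lit 12493913331, nat_lit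 12977441592, nat_lit 13575240852, nat_lit 13998438230, nat_lit 20586374357, nat_lit 20934264463, nat_lit 20713750279, nat_lit 21021143399], nat_lit 0, nat_lit 0, nat_lit 0, nat_lit 0, nat_lit 0, nat_lit 0, [], [nat_lit 8, nat_lit 40, nat_lit 40, nat_lit 80, nat_lit 1, nat_lit 345, nat_lit 125, nat_lit 10]⟩,
 zbF0, [⟨nat_lit 0, nat_lit 100, nat_lit 100, nat_lit 85, nat_lit 457158883⟩, ⟨nat_lit 7, nat_lit 99, nat_lit 100, nat_lit 83, nat_lit 606998267⟩]⟩
noncomputable def p066_l49 : Lf2 := ⟨nat_lit 0, nat_lit 10, [nat_lit 0, nat_lit 5, nat_lit 5, nat_lit 20], false, nat_lit 0, nat_lit 80, nat_lit 160, nat_lit 300, ⟨nat_lit 1000, nat_lit 0, nat_lit 0, nat_lit 0, nat_lit 0, nat_lit 0, nat_lit 0, nat_lit 0, nat_lit 0, nat_lit 0, nat_lit 0, nat_lit 0, nat_lit 0, nat_lit 0, nat_lit 0, nat_lit 0, false, false⟩,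
 nat_lit 0, nat_lit 10241, nat_lit 0, nat_lit 0, nat_lit 6658, nat_lit 4973, nat_lit 2932, nat_lit 0, nat_lit 0, nat_lit 0, nat_lit 0, nat_lit 0, nat_lit 0, nat_lit 0, nat_lit 0, nat_lit 0, nat_lit 0, nat_lit 0, [],
 ⟨p066_k9, nat_lit 0, nat_lit 0, nat_lit 583, nat_lit 0, nat_lit 712861, [nat_lit 3282000000, nat_lit 6250000000, nat_lit 9842000000], [], [nat_lit 28823410096, nat_lit 28574359475, nat_lit 28002791584, nat_lit 28211169408, nat_lit 25942173104, nat_lit 26163635780, nat_lit 25618867820, nat_lit 25812368632], nat_lit 1271250, nat_lit 1271250, nat_lit 408851, nat_lit 1100001, nat_lit 0, nat_lit 490000, [nat_lit 780000, nat_lit 1435000, nat_lit 1271250], [nat_lit 8, nat_lit 40, nat_lit 40, nat_lit 80, nat_lit 1, nat_lit 272, nat_lit 60, nat_lit 8]⟩, ⟨p066_k0, nat_lit 0, nat_lit 0, nat_lit 63, nat_lit 0, nat_lit 0, [nat_lit 3282000000, nat_lit 6250000000, nat_lit 9842000000], [], [nat_lit 12446556636, nat_lit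 13409058784, nat_lit 13583452524, nat_lit 14429263209, nat_lit 20509141885, nat_lit 21201976760, nat_lit 20718438073, nat_lit 21332859238], nat_lit 0, nat_lit 0, nat_lit 0, nat_lit 0, nat_lit 0, nat_lit 0, [], [nat_lit 8, nat_lit 40, nat_lit 40, nat_lit 80, nat_lit 1, nat_lit 345, nat_lit 125, nat_lit 10]⟩,
 zbF0, [⟨nat_lit 0, nat_lit 100, nat_lit 99, nat_lit 86, nat_lit 547002471⟩, ⟨nat_lit 7, nat_lit 100, nat_lit 99, nat_lit 83, nat_lit 606015202⟩]⟩
noncomputable def p066_l50 : Lf2 := ⟨nat_lit 0, nat_lit 10, [nat_lit 0, nat_lit 5, nat_lit 5, nat_lit 20], false, nat_lit 0, nat_lit 80, nat_lit 160, nat_lit 300, ⟨nat_lit 1000, nat_lit 0, nat_lit 0, nat_lit 0, nat_lit 0, nat_lit 0, nat_lit 0, nat_lit 0, nat_lit 0, nat_lit 0, nat_lit 0, nat_lit 0, nat_lit 0, nat_lit 0, nat_lit 0, nat_lit 0, false, false⟩,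
 nat_lit 0, nat_lit 16442, nat_lit 0, nat_lit 0, nat_lit 10463, nat_lit 5943, nat_lit 5713, nat_lit 0, nat_lit 0, nat_lit 0, nat_lit 0, nat_lit 0, nat_lit 0, nat_lit 54183468974072, nat_lit 0, nat_lit 0, nat_lit 0, nat_lit 0, [],
 ⟨p066_k0, nat_lit 0, nat_lit 0, nat_lit 519, nat_lit 0, nat_lit 734839, [nat_lit 3282000000, nat_lit 6250000000, nat_lit 9842000000], [], [nat_lit 23827778104, nat_lit 21980886569, nat_lit 24836626092, nat_lit 26377977129, nat_lit 16642211568, nat_lit 17194702491, nat_lit 26714374120, nat_lit 24314308402], nat_lit 1271250, nat_lit 1271250, nat_lit 1100001, nat_lit 1785000, nat_lit 0, nat_lit 490000, [nat_lit 780000, nat_lit 1435000, nat_lit 1271250], [nat_lit 8, nat_lit 40, nat_lit 40, nat_lit 80, nat_lit 1, nat_lit 317, nat_lit 100, nat_lit 9]⟩, ⟨p066_k0, nat_lit 0, nat_lit 0, nat_lit 29, nat_lit 0, nat_lit 0, [nat_lit 3282000000, nat_lit 6250000000, nat_lit 9842000000], [], [nat_lit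 12255898884, nat_lit 13196134219, nat_lit 16127811148, nat_lit 17014457096, nat_lit 20603018338, nat_lit 21350673608, nat_lit 23106259144, nat_lit 23739192327], nat_lit 0, nat_lit 0, nat_lit 0, nat_lit 0, nat_lit 0, nat_lit 0, [], [nat_lit 8, nat_lit 40, nat_lit 40, nat_lit 80, nat_lit 1, nat_lit 373, nat_lit 150, nat_lit 10]⟩,
 zbF0, [⟨nat_lit 19, nat_lit 99, nat_lit 100, nat_lit 83, nat_lit 621354689⟩, ⟨nat_lit 22, nat_lit 100, nat_lit 99, nat_lit 15, nat_lit 2063008⟩]⟩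
noncomputable def p066_l51 : Lf2 := ⟨nat_lit 0, nat_lit 10, [nat_lit 0, nat_lit 5, nat_lit 5, nat_lit 20], false, nat_lit 80, nat_lit 160, nat_lit 160, nat_lit 300, ⟨nat_lit 1000, nat_lit 0, nat_lit 0, nat_lit 0, nat_lit 0, nat_lit 0, nat_lit 0, nat_lit 0, nat_lit 0, nat_lit 0, nat_lit 0, nat_lit 0, nat_lit 0, nat_lit 0, nat_lit 0, nat_lit 0, false, false⟩,
 nat_lit 0, nat_lit 11616, nat_lit 0, nat_lit 0, nat_lit 7392, nat_lit 5012, nat_lit 3123, nat_lit 0, nat_lit 0, nat_lit 0, nat_lit 0, nat_lit 0, nat_lit 0, nat_lit 15351138650930, nat_lit 0, nat_lit 0, nat_lit 0, nat_lit 0, [],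
 ⟨p066_k11, nat_lit 0, nat_lit 0, nat_lit 491, nat_lit 0, nat_lit 734839, [nat_lit 3282000000, nat_lit 4688000000, nat_lit 9842000000], [], [nat_lit 22449163053, nat_lit 20569519380, nat_lit 17133420928, nat_lit 17723862232, nat_lit 17411679412, nat_lit 18013466258, nat_lit 20575957216, nat_lit 18881530475], nat_lit 1271250, nat_lit 1271250, nat_lit 382400, nat_lit 1100001, nat_lit 490000, nat_lit 1100001, [nat_lit 780000, nat_lit 1100000, nat_lit 2127500], [nat_lit 42, nat_lit 40, nat_lit 40, nat_lit 80, nat_lit 13, nat_lit 317, nat_lit 100, nat_lit 9]⟩, ⟨p066_k11, nat_lit 0, nat_lit 0, nat_lit 53, nat_lit 0, nat_lit 0, [nat_lit 3282000000, nat_lit 4688000000, nat_lit 9842000000], [], [nat_lit 12457175012, nat_lit 13428054313, nat_lit 13530076656, nat_lit 14379683796, nat_lit 20573535225, nat_lit 21343027154, nat_lit 20687967412, nat_lit 21304761561], nat_lit 0, nat_lit 0, nat_lit 0, nat_lit 0, nat_lit 0, nat_lit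 0, [], [nat_lit 42, nat_lit 40, nat_lit 40, nat_lit 80, nat_lit 13, nat_lit 345, nat_lit 125, nat_lit 10]⟩,
 zbF0, [⟨nat_lit 0, nat_lit 100, nat_lit 100, nat_lit 85, nat_lit 489928675⟩, ⟨nat_lit 7, nat_lit 100, nat_lit 99, nat_lit 83, nat_lit 611340245⟩]⟩
noncomputable def p066_l52 : Lf2 := ⟨nat_lit 0, nat_lit 10, [nat_lit 0, nat_lit 5, nat_lit 5, nat_lit 20], false, nat_lit 80, nat_lit 160, nat_lit 160, nat_lit 300, ⟨nat_lit 1000, nat_lit 0, nat_lit 0, nat_lit 0, nat_lit 0, nat_lit 0, nat_lit 0, nat_lit 0, nat_lit 0, nat_lit 0, nat_lit 0, nat_lit 0, nat_lit 0, nat_lit 0, nat_lit 0, nat_lit 0, false, false⟩,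
 nat_lit 0, nat_lit 10605, nat_lit 0, nat_lit 0, nat_lit 6748, nat_lit 5943, nat_lit 1915, nat_lit 0, nat_lit 0, nat_lit 0, nat_lit 0, nat_lit 0, nat_lit 0, nat_lit 1209236900637, nat_lit 0, nat_lit 0, nat_lit 0, nat_lit 0, [],
 ⟨p066_k11, nat_lit 0, nat_lit 0, nat_lit 455, nat_lit 0, nat_lit 734839, [nat_lit 3282000000, nat_lit 4688000000, nat_lit 9842000000], [], [nat_lit 24088616384, nat_lit 22357558692, nat_lit 21088741264, nat_lit 21633775516, nat_lit 19135842368, nat_lit 19703957912, nat_lit 22338815904, nat_lit 21707332708], nat_lit 1271250, nat_lit 1271250, nat_lit 1100001, nat_lit 1785000, nat_lit 490000, nat_lit 1100001, [nat_lit 780000, nat_lit 1100000, nat_lit 2127500], [nat_lit 42, nat_lit 40, nat_lit 40, nat_lit 80, nat_lit 13, nat_lit 317, nat_lit 100, nat_lit 9]⟩, ⟨p066_k11, nat_lit 0, nat_lit 0, nat_lit 25, nat_lit 0, nat_lit 0, [nat_lit 3282000000, nat_lit 4688000000, nat_lit 9842000000], [], [nat_lit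 12255898884, nat_lit 13196134219, nat_lit 16127811148, nat_lit 17014457096, nat_lit 20603018338, nat_lit 21350673608, nat_lit 23106259144, nat_lit 23739192327], nat_lit 0, nat_lit 0, nat_lit 0, nat_lit 0, nat_lit 0, nat_lit 0, [], [nat_lit 42, nat_lit 40, nat_lit 40, nat_lit 80, nat_lit 13, nat_lit 373, nat_lit 150, nat_lit 10]⟩,
 zbF0, [⟨nat_lit 19, nat_lit 99, nat_lit 100, nat_lit 83, nat_lit 621731288⟩]⟩
noncomputable def p066_l53 : Lf2 := ⟨nat_lit 0, nat_lit 10, [nat_lit 0, nat_lit 5, nat_lit 5, nat_lit 20], false, nat_lit 0, nat_lit 160, nat_lit 160, nat_lit 300, ⟨nat_lit 1000, nat_lit 0, nat_lit 0, nat_lit 0, nat_lit 0, nat_lit 0, nat_lit 0, nat_lit 0, nat_lit 0, nat_lit 0, nat_lit 0, nat_lit 0, nat_lit 0, nat_lit 0, nat_lit 0, nat_lit 0, false, false⟩,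
 nat_lit 0, nat_lit 10085, nat_lit 0, nat_lit 0, nat_lit 6697, nat_lit 5068, nat_lit 3679, nat_lit 0, nat_lit 0, nat_lit 0, nat_lit 0, nat_lit 0, nat_lit 0, nat_lit 4976644573480, nat_lit 0, nat_lit 0, nat_lit 0, nat_lit 0, [],
 ⟨p066_k6, nat_lit 0, nat_lit 0, nat_lit 672, nat_lit 0, nat_lit 1094085, [nat_lit 3282000000, nat_lit 6250000000, nat_lit 7968000000], [], [nat_lit 25161810236, nat_lit 23438665439, nat_lit 20997315740, nat_lit 21367184822, nat_lit 19070636112, nat_lit 19415738604, nat_lit 23169473850, nat_lit 21653246262], nat_lit 1271250, nat_lit 1271250, nat_lit 435600, nat_lit 1100001, nat_lit 0, nat_lit 1100001, [nat_lit 780000, nat_lit 1435000, nat_lit 1271250], [nat_lit 18, nat_lit 40, nat_lit 40, nat_lit 80, nat_lit 2, nat_lit 317, nat_lit 100, nat_lit 11]⟩, ⟨p066_k0, nat_lit 0, nat_lit 0, nat_lit 66, nat_lit 0, nat_lit 0, [nat_lit 3282000000, nat_lit 6250000000, nat_lit 9842000000], [], [nat_lit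 12281514343, nat_lit 14220592117, nat_lit 13453434384, nat_lit 15163551304, nat_lit 20386744010, nat_lit 21925664635, nat_lit 20644214668, nat_lit 21884617690], nat_lit 0, nat_lit 0, nat_lit 0, nat_lit 0, nat_lit 0, nat_lit 0, [], [nat_lit 8, nat_lit 40, nat_lit 40, nat_lit 80, nat_lit 1, nat_lit 345, nat_lit 125, nat_lit 10]⟩,
 zbF0, [⟨nat_lit 0, nat_lit 100, nat_lit 99, nat_lit 92, nat_lit 364251087⟩, ⟨nat_lit 7, nat_lit 100, nat_lit 94, nat_lit 75, nat_lit 701887611⟩]⟩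
noncomputable def p066_l54 : Lf2 := ⟨nat_lit 0, nat_lit 10, [nat_lit 0, nat_lit 5, nat_lit 5, nat_lit 20], false, nat_lit 0, nat_lit 160, nat_lit 160, nat_lit 300, ⟨nat_lit 1000, nat_lit 0, nat_lit 0, nat_lit 0, nat_lit 0, nat_lit 0, nat_lit 0, nat_lit 0, nat_lit 0, nat_lit 0, nat_lit 0, nat_lit 0, nat_lit 0, nat_lit 0, nat_lit 0, nat_lit 0, false, false⟩,
 nat_lit 0, nat_lit 9628, nat_lit 0, nat_lit 0, nat_lit 6394, nat_lit 5822, nat_lit 3505, nat_lit 0, nat_lit 0, nat_lit 0, nat_lit 0, nat_lit 0, nat_lit 0, nat_lit 15090287767097, nat_lit 0, nat_lit 0, nat_lit 0, nat_lit 0, [],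
 ⟨p066_k6, nat_lit 0, nat_lit 0, nat_lit 635, nat_lit 0, nat_lit 1094085, [nat_lit 3282000000, nat_lit 6250000000, nat_lit 7968000000], [], [nat_lit 27541172400, nat_lit 25876245134, nat_lit 24115635620, nat_lit 24425510626, nat_lit 20891950730, nat_lit 21189713430, nat_lit 25308190624, nat_lit 23860563448], nat_lit 1271250, nat_lit 1271250, nat_lit 1100001, nat_lit 1785000, nat_lit 0, nat_lit 1100001, [nat_lit 780000, nat_lit 1435000, nat_lit 1271250], [nat_lit 18, nat_lit 40, nat_lit 40, nat_lit 80, nat_lit 2, nat_lit 317, nat_lit 100, nat_lit 10]⟩, ⟨p066_k0, nat_lit 0, nat_lit 0, nat_lit 34, nat_lit 0, nat_lit 0, [nat_lit 3282000000, nat_lit 6250000000, nat_lit 9842000000], [], [nat_lit 12421500936, nat_lit 14278414116, nat_lit 16150022392, nat_lit 17901767576, nat_lit 20575095652, nat_lit 22053492812, nat_lit 23071022976, nat_lit 24323705363], nat_lit 0, nat_lit 0, nat_lit 0, nat_lit 0, nat_lit 0, nat_lit 0,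 [], [nat_lit 8, nat_lit 40, nat_lit 40, nat_lit 80, nat_lit 1, nat_lit 373, nat_lit 150, nat_lit 10]⟩,
 zbF0, [⟨nat_lit 19, nat_lit 94, nat_lit 100, nat_lit 75, nat_lit 705445025⟩]⟩
noncomputable def b_V_700_700_10_6 : St := ⟨true, nat_lit 1, nat_lit 0, nat_lit 1, nat_lit 80, nat_lit 280, nat_lit 300, nat_lit 280, nat_lit 300, nat_lit 64, nat_lit 240, nat_lit 40, nat_lit 80, nat_lit 0, nat_lit 160, nat_lit 160, nat_lit 300, nat_lit 0, nat_lit 40, nat_lit 0, nat_lit 0, nat_lit 0, nat_lit 0⟩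
theorem d_V_700_700_10_6 (h : EB TB.env) : Dead b_V_700_700_10_6 := chkB_sound0 h (T :=
(.spl (nat_lit 0) (nat_lit 290)
(.ord (.spl (nat_lit 3) (nat_lit 60)
(.trX (nat_lit 19) (nat_lit 99) (nat_lit 100) (nat_lit 77) (nat_lit 276) (.spl (nat_lit 4) (nat_lit 80)
(.spl (nat_lit 2) (nat_lit 120)
(.spl (nat_lit 2) (nat_lit 80)
(.leaf p066_l35)
(.leaf p066_l36))
(.leaf p066_l37))
(.spl (nat_lit 2) (nat_lit 160)
(.spl (nat_lit 0) (nat_lit 285)
(.ord (.spl (nat_lit 0) (nat_lit 283)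
(.ord (.spl (nat_lit 6) (nat_lit 20)
(.spl (nat_lit 6) (nat_lit 8)
(.spl (nat_lit 6) (nat_lit 4)
(.leaf p066_l38)
(.leaf p066_l39))
(.leaf p066_l40))
(.leaf p066_l41)))
(.spl (nat_lit 6) (nat_lit 20)
(.leaf p066_l42)
(.leaf p066_l43))))
(.trZ (nat_lit 0) (nat_lit 100) (nat_lit 99) (nat_lit 82) (nat_lit 68) (.leaf p066_l44)))
(.leaf p066_l45))))
(.spl (nat_lit 4) (nat_lit 80)
(.spl (nat_lit 2) (nat_lit 160)
(.spl (nat_lit 0) (nat_lit 285)
(.ord (.spl (nat_lit 6) (nat_lit 20)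
(.spl (nat_lit 0) (nat_lit 283)
(.ord (.leaf p066_l46))
(.leaf p066_l47))
(.leaf p066_l48)))
(.trZ (nat_lit 0) (nat_lit 100) (nat_lit 99) (nat_lit 82) (nat_lit 68) (.leaf p066_l49)))
(.leaf p066_l50))
(.spl (nat_lit 2) (nat_lit 160)
(.leaf p066_l51)
(.leaf p066_l52)))))
(.trZ (nat_lit 0) (nat_lit 100) (nat_lit 97) (nat_lit 84) (nat_lit 72) (.spl (nat_lit 2) (nat_lit 160)
(.leaf p066_l53)
(.leaf p066_l54))))) (by decide +kernel)
noncomputable def p066_l55 : Lf2 := ⟨nat_lit 0, nat_lit 10, [nat_lit 0, nat_lit 5, nat_lit 5, nat_lit 20], false, nat_lit 160, nat_lit 240, nat_lit 0, nat_lit 160, ⟨nat_lit 1000, nat_lit 0, nat_lit 0, nat_lit 0, nat_lit 0, nat_lit 0, nat_lit 0, nat_lit 0, nat_lit 0, nat_lit 0, nat_lit 0, nat_lit 0, nat_lit 0, nat_lit 0, nat_lit 0, nat_lit 0, false, false⟩,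
 nat_lit 0, nat_lit 11658, nat_lit 0, nat_lit 0, nat_lit 7418, nat_lit 6806, nat_lit 1608, nat_lit 0, nat_lit 0, nat_lit 2443, nat_lit 0, nat_lit 0, nat_lit 0, nat_lit 17720309621447, nat_lit 0, nat_lit 0, nat_lit 0, nat_lit 0, [],
 ⟨p066_k11, nat_lit 0, nat_lit 0, nat_lit 585, nat_lit 0, nat_lit 958620, [nat_lit 3282000000, nat_lit 4688000000, nat_lit 9842000000], [], [nat_lit 26793742708, nat_lit 24879357194, nat_lit 27062091392, nat_lit 25337769874, nat_lit 21184832311, nat_lit 21601472802, nat_lit 21843139920, nat_lit 22242039078], nat_lit 1271250, nat_lit 1271250, nat_lit 382400, nat_lit 1731000, nat_lit 1271250, nat_lit 1271250, [nat_lit 780000, nat_lit 1100000, nat_lit 2127500], [nat_lit 42, nat_lit 40, nat_lit 40, nat_lit 80, nat_lit 13, nat_lit 345, nat_lit 125, nat_lit 10]⟩, ⟨p066_k11, nat_lit 0, nat_lit 0, nat_lit 181, nat_lit 0, nat_lit 0, [nat_lit 3282000000, nat_lit 4688000000, nat_lit 9842000000],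 [], [nat_lit 17391163344, nat_lit 18644197566, nat_lit 21038890104, nat_lit 22179803298, nat_lit 12863003007, nat_lit 13958495450, nat_lit 16926959720, nat_lit 17731134142], nat_lit 0, nat_lit 0, nat_lit 0, nat_lit 0, nat_lit 0, nat_lit 0, [], [nat_lit 42, nat_lit 40, nat_lit 40, nat_lit 80, nat_lit 13, nat_lit 317, nat_lit 100, nat_lit 9]⟩,
 zbF0, [⟨nat_lit 0, nat_lit 100, nat_lit 100, nat_lit 90, nat_lit 423726108⟩]⟩
noncomputable def p066_l56 : Lf2 := ⟨nat_lit 0, nat_lit 10, [nat_lit 0, nat_lit 5, nat_lit 5, nat_lit 20], false, nat_lit 240, nat_lit 300, nat_lit 0, nat_lit 160, ⟨nat_lit 1000, nat_lit 0, nat_lit 0, nat_lit 0, nat_lit 0, nat_lit 0, nat_lit 0, nat_lit 0, nat_lit 0, nat_lit 0, nat_lit 0, nat_lit 0, nat_lit 0, nat_lit 0, nat_lit 0, nat_lit 0, false, false⟩,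
 nat_lit 0, nat_lit 12365, nat_lit 0, nat_lit 0, nat_lit 7868, nat_lit 6806, nat_lit 1654, nat_lit 0, nat_lit 0, nat_lit 2443, nat_lit 0, nat_lit 0, nat_lit 0, nat_lit 37743141072745, nat_lit 0, nat_lit 0, nat_lit 0, nat_lit 0, [],
 ⟨p066_k11, nat_lit 0, nat_lit 0, nat_lit 569, nat_lit 0, nat_lit 958620, [nat_lit 3282000000, nat_lit 4688000000, nat_lit 9842000000], [], [nat_lit 19456076823, nat_lit 19883836732, nat_lit 20160337920, nat_lit 20569331028, nat_lit 22777984071, nat_lit 23555809115, nat_lit 23666834544, nat_lit 24404640283], nat_lit 1271250, nat_lit 1271250, nat_lit 382400, nat_lit 1731000, nat_lit 1271250, nat_lit 1271250, [nat_lit 780000, nat_lit 1100000, nat_lit 2127500], [nat_lit 42, nat_lit 40, nat_lit 40, nat_lit 80, nat_lit 13, nat_lit 373, nat_lit 150, nat_lit 10]⟩, ⟨p066_k11, nat_lit 0, nat_lit 0, nat_lit 181, nat_lit 0, nat_lit 0, [nat_lit 3282000000, nat_lit 4688000000, nat_lit 9842000000],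 [], [nat_lit 17391163344, nat_lit 18644197566, nat_lit 21038890104, nat_lit 22179803298, nat_lit 12863003007, nat_lit 13958495450, nat_lit 16926959720, nat_lit 17731134142], nat_lit 0, nat_lit 0, nat_lit 0, nat_lit 0, nat_lit 0, nat_lit 0, [], [nat_lit 42, nat_lit 40, nat_lit 40, nat_lit 80, nat_lit 13, nat_lit 317, nat_lit 100, nat_lit 9]⟩,
 zbF0, [⟨nat_lit 0, nat_lit 100, nat_lit 100, nat_lit 90, nat_lit 422438383⟩, ⟨nat_lit 16, nat_lit 97, nat_lit 100, nat_lit 76, nat_lit 1101069571⟩]⟩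
noncomputable def p066_l57 : Lf2 := ⟨nat_lit 0, nat_lit 10, [nat_lit 0, nat_lit 5, nat_lit 5, nat_lit 20], false, nat_lit 160, nat_lit 292, nat_lit 0, nat_lit 160, ⟨nat_lit 1000, nat_lit 0, nat_lit 0, nat_lit 0, nat_lit 0, nat_lit 0, nat_lit 0, nat_lit 0, nat_lit 0, nat_lit 0, nat_lit 0, nat_lit 0, nat_lit 0, nat_lit 0, nat_lit 0, nat_lit 0, false, false⟩,
 nat_lit 0, nat_lit 10982, nat_lit 0, nat_lit 0, nat_lit 7293, nat_lit 8016, nat_lit 2395, nat_lit 0, nat_lit 0, nat_lit 1577, nat_lit 0, nat_lit 0, nat_lit 0, nat_lit 0, nat_lit 0, nat_lit 0, nat_lit 0, nat_lit 0, [],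
 ⟨p066_k6, nat_lit 0, nat_lit 0, nat_lit 525, nat_lit 0, nat_lit 992072, [nat_lit 3282000000, nat_lit 6250000000, nat_lit 7968000000], [], [nat_lit 19786178638, nat_lit 20191899438, nat_lit 19204723540, nat_lit 19583941024, nat_lit 22617587126, nat_lit 22957805870, nat_lit 25332495174, nat_lit 23665895532], nat_lit 1271250, nat_lit 1271250, nat_lit 435600, nat_lit 780000, nat_lit 1100001, nat_lit 2230250, [nat_lit 780000, nat_lit 1435000, nat_lit 1271250], [nat_lit 18, nat_lit 40, nat_lit 40, nat_lit 80, nat_lit 2, nat_lit 345, nat_lit 125, nat_lit 11]⟩, ⟨p066_k0, nat_lit 0, nat_lit 0, nat_lit 186, nat_lit 0, nat_lit 0, [nat_lit 3282000000, nat_lit 6250000000, nat_lit 9842000000], [], [nat_lit 19653821124, nat_lit 20736505802, nat_lit 18596349984, nat_lit 19865171000, nat_lit 14632291514, nat_lit 15753620039, nat_lit 14127222240, nat_lit 15177845608], nat_lit 0, nat_lit 0, nat_lit 0, nat_lit 0, nat_lit 0, nat_lit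 0, [], [nat_lit 8, nat_lit 40, nat_lit 40, nat_lit 80, nat_lit 1, nat_lit 289, nat_lit 75, nat_lit 8]⟩,
 zbF0, [⟨nat_lit 0, nat_lit 100, nat_lit 97, nat_lit 94, nat_lit 463855478⟩, ⟨nat_lit 4, nat_lit 100, nat_lit 92, nat_lit 75, nat_lit 467324043⟩]⟩
noncomputable def p066_l58 : Lf2 := ⟨nat_lit 0, nat_lit 10, [nat_lit 0, nat_lit 5, nat_lit 5, nat_lit 20], false, nat_lit 160, nat_lit 292, nat_lit 0, nat_lit 160, ⟨nat_lit 1000, nat_lit 0, nat_lit 0, nat_lit 0, nat_lit 0, nat_lit 0, nat_lit 0, nat_lit 0, nat_lit 0, nat_lit 0, nat_lit 0, nat_lit 0, nat_lit 0, nat_lit 0, nat_lit 0, nat_lit 0, false, false⟩,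
 nat_lit 0, nat_lit 11310, nat_lit 0, nat_lit 0, nat_lit 7511, nat_lit 7802, nat_lit 2883, nat_lit 0, nat_lit 0, nat_lit 1292, nat_lit 0, nat_lit 0, nat_lit 0, nat_lit 35581647885359, nat_lit 0, nat_lit 0, nat_lit 0, nat_lit 0, [],
 ⟨p066_k6, nat_lit 0, nat_lit 0, nat_lit 563, nat_lit 0, nat_lit 1094085, [nat_lit 3282000000, nat_lit 6250000000, nat_lit 7968000000], [], [nat_lit 17462460162, nat_lit 17766919302, nat_lit 16944879572, nat_lit 17234592878, nat_lit 21712475984, nat_lit 22701954016, nat_lit 24501072096, nat_lit 22784654996], nat_lit 1271250, nat_lit 1271250, nat_lit 490000, nat_lit 780000, nat_lit 1100001, nat_lit 2230250, [nat_lit 780000, nat_lit 1435000, nat_lit 1271250], [nat_lit 18, nat_lit 40, nat_lit 40, nat_lit 80, nat_lit 2, nat_lit 345, nat_lit 125, nat_lit 11]⟩, ⟨p066_k6, nat_lit 0, nat_lit 0, nat_lit 146, nat_lit 0, nat_lit 0, [nat_lit 3282000000, nat_lit 6250000000, nat_lit 7968000000], [],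 [nat_lit 19336935348, nat_lit 20525434448, nat_lit 18768407348, nat_lit 19935398052, nat_lit 14467457990, nat_lit 15559065356, nat_lit 14216435976, nat_lit 15248302672], nat_lit 0, nat_lit 0, nat_lit 0, nat_lit 0, nat_lit 0, nat_lit 0, [], [nat_lit 18, nat_lit 40, nat_lit 40, nat_lit 80, nat_lit 2, nat_lit 289, nat_lit 75, nat_lit 10]⟩,
 zbF0, [⟨nat_lit 0, nat_lit 100, nat_lit 100, nat_lit 95, nat_lit 615020206⟩, ⟨nat_lit 4, nat_lit 100, nat_lit 92, nat_lit 75, nat_lit 586577530⟩]⟩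
noncomputable def p066_l59 : Lf2 := ⟨nat_lit 0, nat_lit 10, [nat_lit 0, nat_lit 5, nat_lit 5, nat_lit 20], false, nat_lit 160, nat_lit 292, nat_lit 0, nat_lit 160, ⟨nat_lit 1000, nat_lit 0, nat_lit 0, nat_lit 0, nat_lit 0, nat_lit 0, nat_lit 0, nat_lit 0, nat_lit 0, nat_lit 0, nat_lit 0, nat_lit 0, nat_lit 0, nat_lit 0, nat_lit 0, nat_lit 0, false, false⟩,
 nat_lit 0, nat_lit 10890, nat_lit 0, nat_lit 0, nat_lit 7232, nat_lit 7802, nat_lit 2542, nat_lit 0, nat_lit 0, nat_lit 1470, nat_lit 0, nat_lit 0, nat_lit 0, nat_lit 0, nat_lit 0, nat_lit 0, nat_lit 0, nat_lit 0, [],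
 ⟨p066_k6, nat_lit 0, nat_lit 0, nat_lit 545, nat_lit 0, nat_lit 1094085, [nat_lit 3282000000, nat_lit 6250000000, nat_lit 7968000000], [], [nat_lit 20549005728, nat_lit 19600402560, nat_lit 19922729008, nat_lit 20199599184, nat_lit 21461981650, nat_lit 21778992817, nat_lit 28923242509, nat_lit 27291991866], nat_lit 1271250, nat_lit 1271250, nat_lit 780000, nat_lit 1762500, nat_lit 1100001, nat_lit 2230250, [nat_lit 780000, nat_lit 1435000, nat_lit 1271250], [nat_lit 18, nat_lit 40, nat_lit 40, nat_lit 80, nat_lit 2, nat_lit 373, nat_lit 150, nat_lit 12]⟩, ⟨p066_k0, nat_lit 0, nat_lit 0, nat_lit 169, nat_lit 0, nat_lit 0, [nat_lit 3282000000, nat_lit 6250000000, nat_lit 9842000000], [], [nat_lit 19147986750, nat_lit 21154723052, nat_lit 23443650184, nat_lit 25380760996, nat_lit 14403894280, nat_lit 16467627672, nat_lit 18490875360, nat_lit 20102948836], nat_lit 0, nat_lit 0, nat_lit 0, nat_lit 0, nat_lit 0, nat_lit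 0, [], [nat_lit 8, nat_lit 40, nat_lit 40, nat_lit 80, nat_lit 1, nat_lit 317, nat_lit 100, nat_lit 9]⟩,
 zbF0, [⟨nat_lit 4, nat_lit 100, nat_lit 92, nat_lit 75, nat_lit 435093025⟩]⟩
noncomputable def b_V_700_700_10_7 : St := ⟨true, nat_lit 1, nat_lit 0, nat_lit 1, nat_lit 80, nat_lit 280, nat_lit 300, nat_lit 280, nat_lit 300, nat_lit 64, nat_lit 240, nat_lit 40, nat_lit 80, nat_lit 160, nat_lit 300, nat_lit 0, nat_lit 160, nat_lit 0, nat_lit 40, nat_lit 0, nat_lit 0, nat_lit 0, nat_lit 0⟩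
theorem d_V_700_700_10_7 (h : EB TB.env) : Dead b_V_700_700_10_7 := chkB_sound0 h (T :=
(.spl (nat_lit 0) (nat_lit 290)
(.ord (.spl (nat_lit 4) (nat_lit 240)
(.leaf p066_l55)
(.leaf p066_l56)))
(.trZ (nat_lit 0) (nat_lit 100) (nat_lit 97) (nat_lit 84) (nat_lit 72) (.trX (nat_lit 16) (nat_lit 100) (nat_lit 100) (nat_lit 89) (nat_lit 292) (.spl (nat_lit 2) (nat_lit 120)
(.spl (nat_lit 1) (nat_lit 290)
(.leaf p066_l57)
(.trZ (nat_lit 0) (nat_lit 100) (nat_lit 100) (nat_lit 90) (nat_lit 80) (.leaf p066_l58)))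
(.leaf p066_l59)))))) (by decide +kernel)
noncomputable def p066_l60 : Lf2 := ⟨nat_lit 0, nat_lit 5, [nat_lit 4, nat_lit 5, nat_lit 5, nat_lit 20], false, nat_lit 160, nat_lit 240, nat_lit 160, nat_lit 240, ⟨nat_lit 1000, nat_lit 0, nat_lit 0, nat_lit 0, nat_lit 0, nat_lit 0, nat_lit 0, nat_lit 0, nat_lit 0, nat_lit 0, nat_lit 0, nat_lit 0, nat_lit 0, nat_lit 0, nat_lit 0, nat_lit 0, false, false⟩,
 nat_lit 0, nat_lit 16631, nat_lit 0, nat_lit 0, nat_lit 10583, nat_lit 5551, nat_lit 1010, nat_lit 0, nat_lit 0, nat_lit 0, nat_lit 0, nat_lit 0, nat_lit 0, nat_lit 8760897781212, nat_lit 0, nat_lit 0, nat_lit 0, nat_lit 0, [],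
 ⟨p066_k3, nat_lit 0, nat_lit 0, nat_lit 213, nat_lit 0, nat_lit 402156, [nat_lit 3282000000, nat_lit 6250000000, nat_lit 7968000000], [], [nat_lit 16929123688, nat_lit 16121807576, nat_lit 13477417608, nat_lit 13752247940, nat_lit 17253699348, nat_lit 17510506231, nat_lit 17035089056, nat_lit 16709605202], nat_lit 1271250, nat_lit 1271250, nat_lit 382400, nat_lit 490000, nat_lit 1100001, nat_lit 1785000, [nat_lit 780000, nat_lit 1435000, nat_lit 1271250], [nat_lit 18, nat_lit 40, nat_lit 40, nat_lit 80, nat_lit 2, nat_lit 317, nat_lit 100, nat_lit 10]⟩, ⟨p066_k3, nat_lit 0, nat_lit 0, nat_lit 23, nat_lit 0, nat_lit 0, [nat_lit 3282000000, nat_lit 6250000000, nat_lit 7968000000], [], [nat_lit 11857115798, nat_lit 12167111208, nat_lit 11577158116, nat_lit 11882124766, nat_lit 16057289243, nat_lit 16348089287, nat_lit 15614617996, nat_lit 15886419140], nat_lit 0, nat_lit 0, nat_lit 0, nat_lit 0, nat_lit 0, nat_lit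 0, [], [nat_lit 18, nat_lit 40, nat_lit 40, nat_lit 80, nat_lit 2, nat_lit 317, nat_lit 100, nat_lit 10]⟩,
 zbF0, [⟨nat_lit 0, nat_lit 100, nat_lit 100, nat_lit 83, nat_lit 914093316⟩]⟩
noncomputable def p066_l61 : Lf2 := ⟨nat_lit 0, nat_lit 5, [nat_lit 4, nat_lit 5, nat_lit 5, nat_lit 20], false, nat_lit 160, nat_lit 240, nat_lit 160, nat_lit 240, ⟨nat_lit 1000, nat_lit 0, nat_lit 0, nat_lit 0, nat_lit 0, nat_lit 0, nat_lit 0, nat_lit 0, nat_lit 0, nat_lit 0, nat_lit 0, nat_lit 0, nat_lit 0, nat_lit 0, nat_lit 0, nat_lit 0, false, false⟩,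
 nat_lit 0, nat_lit 16924, nat_lit 0, nat_lit 0, nat_lit 10769, nat_lit 5536, nat_lit 1021, nat_lit 0, nat_lit 0, nat_lit 0, nat_lit 0, nat_lit 0, nat_lit 0, nat_lit 0, nat_lit 0, nat_lit 0, nat_lit 0, nat_lit 0, [],
 ⟨p066_k3, nat_lit 0, nat_lit 0, nat_lit 202, nat_lit 0, nat_lit 402156, [nat_lit 3282000000, nat_lit 6250000000, nat_lit 7968000000], [], [nat_lit 13089617844, nat_lit 13367694732, nat_lit 12684380672, nat_lit 12954330998, nat_lit 16110618392, nat_lit 16365606721, nat_lit 15659120304, nat_lit 15906629931], nat_lit 1271250, nat_lit 1271250, nat_lit 490000, nat_lit 631250, nat_lit 1100001, nat_lit 1785000, [nat_lit 780000, nat_lit 1435000, nat_lit 1271250], [nat_lit 18, nat_lit 40, nat_lit 40, nat_lit 80, nat_lit 2, nat_lit 317, nat_lit 100, nat_lit 10]⟩, ⟨p066_k3, nat_lit 0, nat_lit 0, nat_lit 10, nat_lit 0, nat_lit 0, [nat_lit 3282000000, nat_lit 6250000000, nat_lit 7968000000], [], [nat_lit 11595513376,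 nat_lit 11899969056, nat_lit 11719581744, nat_lit 12016086648, nat_lit 15628685056, nat_lit 15885314822, nat_lit 15657379840, nat_lit 15907484127], nat_lit 0, nat_lit 0, nat_lit 0, nat_lit 0, nat_lit 0, nat_lit 0, [], [nat_lit 18, nat_lit 40, nat_lit 40, nat_lit 80, nat_lit 2, nat_lit 317, nat_lit 100, nat_lit 10]⟩,
 zbF0, []⟩
noncomputable def p066_l62 : Lf2 := ⟨nat_lit 3, nat_lit 5, [nat_lit 4, nat_lit 5, nat_lit 5, nat_lit 20], false, nat_lit 160, nat_lit 240, nat_lit 160, nat_lit 240, zbN0,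
 nat_lit 0, nat_lit 0, nat_lit 0, nat_lit 0, nat_lit 0, nat_lit 0, nat_lit 0, nat_lit 0, nat_lit 0, nat_lit 0, nat_lit 0, nat_lit 0, nat_lit 0, nat_lit 0, nat_lit 0, nat_lit 0, nat_lit 0, nat_lit 0, [],
 C1.Rw.none, ⟨p066_k3, nat_lit 0, nat_lit 0, nat_lit 1, nat_lit 0, nat_lit 0, [], [], [], nat_lit 0, nat_lit 0, nat_lit 0, nat_lit 0, nat_lit 0, nat_lit 0, [], [nat_lit 18, nat_lit 40, nat_lit 40, nat_lit 80, nat_lit 2, nat_lit 317, nat_lit 100, nat_lit 10]⟩,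
 zbF0, []⟩
noncomputable def p066_l63 : Lf2 := ⟨nat_lit 3, nat_lit 5, [nat_lit 4, nat_lit 5, nat_lit 5, nat_lit 20], false, nat_lit 160, nat_lit 240, nat_lit 160, nat_lit 240, zbN0,
 nat_lit 0, nat_lit 0, nat_lit 0, nat_lit 0, nat_lit 0, nat_lit 0, nat_lit 0, nat_lit 0, nat_lit 0, nat_lit 0, nat_lit 0, nat_lit 0, nat_lit 0, nat_lit 0, nat_lit 0, nat_lit 0, nat_lit 0, nat_lit 0, [],
 C1.Rw.none, ⟨p066_k3, nat_lit 0, nat_lit 0, nat_lit 1, nat_lit 0, nat_lit 0, [], [], [], nat_lit 0, nat_lit 0, nat_lit 0, nat_lit 0, nat_lit 0, nat_lit 0, [], [nat_lit 18, nat_lit 40, nat_lit 40, nat_lit 80, nat_lit 2, nat_lit 345, nat_lit 125, nat_lit 11]⟩,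
 zbF0, []⟩
noncomputable def p066_l64 : Lf2 := ⟨nat_lit 0, nat_lit 1, [nat_lit 19, nat_lit 5, nat_lit 5, nat_lit 20], false, nat_lit 160, nat_lit 200, nat_lit 240, nat_lit 276, ⟨nat_lit 1000, nat_lit 0, nat_lit 0, nat_lit 0, nat_lit 0, nat_lit 0, nat_lit 0, nat_lit 0, nat_lit 0, nat_lit 0, nat_lit 0, nat_lit 0, nat_lit 0, nat_lit 0, nat_lit 0, nat_lit 0, false, false⟩,
 nat_lit 0, nat_lit 8164, nat_lit 0, nat_lit 0, nat_lit 5194, nat_lit 5175, nat_lit 0, nat_lit 0, nat_lit 0, nat_lit 0, nat_lit 0, nat_lit 0, nat_lit 0, nat_lit 0, nat_lit 0, nat_lit 0, nat_lit 0, nat_lit 0, [],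
 ⟨p066_k12, nat_lit 0, nat_lit 0, nat_lit 269, nat_lit 0, nat_lit 747415, [nat_lit 3282000000, nat_lit 4688000000], [], [nat_lit 27146401498, nat_lit 26744272149, nat_lit 26862262744, nat_lit 26991180193, nat_lit 25382387808, nat_lit 25541015799, nat_lit 27972631780, nat_lit 27810081405], nat_lit 1271250, nat_lit 1271250, nat_lit 382400, nat_lit 1731000, nat_lit 1100001, nat_lit 1442500, [nat_lit 780000, nat_lit 1100000], [nat_lit 40, nat_lit 40, nat_lit 40, nat_lit 80, nat_lit 22, nat_lit 272, nat_lit 60, nat_lit 12]⟩, ⟨p066_k12, nat_lit 0, nat_lit 0, nat_lit 30, nat_lit 0, nat_lit 0, [nat_lit 3282000000, nat_lit 4688000000], [], [nat_lit 16248281140, nat_lit 16499011793, nat_lit 19677705000, nat_lit 19865096573, nat_lit 18805383073, nat_lit 19057011353, nat_lit 21588018990, nat_lit 21759376809], nat_lit 0, nat_lit 0, nat_lit 0, nat_lit 0, nat_lit 0, nat_lit 0, [], [nat_lit 40, nat_lit 40, nat_lit 40, nat_lit 80,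 nat_lit 22, nat_lit 272, nat_lit 60, nat_lit 11]⟩,
 zbF0, [⟨nat_lit 0, nat_lit 100, nat_lit 100, nat_lit 81, nat_lit 399463718⟩, ⟨nat_lit 19, nat_lit 96, nat_lit 100, nat_lit 69, nat_lit 509309910⟩, ⟨nat_lit 19, nat_lit 99, nat_lit 100, nat_lit 77, nat_lit 329391020⟩]⟩
noncomputable def p066_l65 : Lf2 := ⟨nat_lit 0, nat_lit 2, [nat_lit 10, nat_lit 5, nat_lit 5, nat_lit 20], true, nat_lit 160, nat_lit 200, nat_lit 240, nat_lit 276, ⟨nat_lit 0, nat_lit 0, nat_lit 1000, nat_lit 7, nat_lit 139, nat_lit 1000, nat_lit 121, nat_lit 1000, nat_lit 138017, nat_lit 306, nat_lit 180267, nat_lit 319, nat_lit 53307972, nat_lit 0, nat_lit 0, nat_lit 3449094, false, false⟩,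
 nat_lit 0, nat_lit 5878, nat_lit 0, nat_lit 0, nat_lit 3740, nat_lit 0, nat_lit 0, nat_lit 0, nat_lit 0, nat_lit 0, nat_lit 0, nat_lit 0, nat_lit 0, nat_lit 0, nat_lit 65, nat_lit 854800, nat_lit 0, nat_lit 0, [(nat_lit 12, [(nat_lit 5, nat_lit 242), (nat_lit 6, nat_lit 758)])],
 ⟨p066_k13, nat_lit 0, nat_lit 0, nat_lit 164, nat_lit 0, nat_lit 344809, [nat_lit 1945303201, nat_lit 270071199], [], [nat_lit 12407615681, nat_lit 12601219471, nat_lit 12363211680, nat_lit 12553787461, nat_lit 13857307931, nat_lit 14062347526, nat_lit 13815653162, nat_lit 14017476146], nat_lit 1271250, nat_lit 1271250, nat_lit 382400, nat_lit 490000, nat_lit 1100001, nat_lit 1442500, [nat_lit 780000, nat_lit 1435000], [nat_lit 49, nat_lit 40, nat_lit 40, nat_lit 80, nat_lit 16, nat_lit 289, nat_lit 75, nat_lit 11]⟩, C1.Rw.none,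
 ⟨nat_lit 5408, nat_lit 5478, ⟨.ofNat (nat_lit 330654), .ofNat (nat_lit 360628), .ofNat (nat_lit 333858), .ofNat (nat_lit 363831), .ofNat (nat_lit 332488), .ofNat (nat_lit 362248), .ofNat (nat_lit 335692), .ofNat (nat_lit 365453)⟩, ⟨.ofNat (nat_lit 254209), .ofNat (nat_lit 329142), .ofNat (nat_lit 275566), .ofNat (nat_lit 350499), .ofNat (nat_lit 254684), .ofNat (nat_lit 329086), .ofNat (nat_lit 276048), .ofNat (nat_lit 350450)⟩⟩, [⟨nat_lit 0, nat_lit 100, nat_lit 100, nat_lit 83, nat_lit 128614424⟩]⟩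
noncomputable def p066_l66 : Lf2 := ⟨nat_lit 0, nat_lit 2, [nat_lit 10, nat_lit 5, nat_lit 5, nat_lit 20], false, nat_lit 160, nat_lit 200, nat_lit 240, nat_lit 276, ⟨nat_lit 1000, nat_lit 0, nat_lit 0, nat_lit 0, nat_lit 0, nat_lit 0, nat_lit 0, nat_lit 0, nat_lit 0, nat_lit 0, nat_lit 0, nat_lit 0, nat_lit 0, nat_lit 0, nat_lit 0, nat_lit 0, false, false⟩,
 nat_lit 0, nat_lit 18240, nat_lit 0, nat_lit 0, nat_lit 11607, nat_lit 5536, nat_lit 0, nat_lit 0, nat_lit 0, nat_lit 0, nat_lit 0, nat_lit 0, nat_lit 0, nat_lit 0, nat_lit 0, nat_lit 0, nat_lit 0, nat_lit 0, [],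
 ⟨p066_k13, nat_lit 0, nat_lit 0, nat_lit 267, nat_lit 0, nat_lit 671166, [nat_lit 3282000000, nat_lit 6250000000], [], [nat_lit 12087034180, nat_lit 12327084558, nat_lit 11193506988, nat_lit 11418907268, nat_lit 13165808214, nat_lit 13384883286, nat_lit 12606305714, nat_lit 12374650153], nat_lit 1271250, nat_lit 1271250, nat_lit 490000, nat_lit 780000, nat_lit 1100001, nat_lit 1442500, [nat_lit 780000, nat_lit 1435000], [nat_lit 49, nat_lit 40, nat_lit 40, nat_lit 80, nat_lit 16, nat_lit 317, nat_lit 100, nat_lit 12]⟩, ⟨p066_k13, nat_lit 0, nat_lit 0, nat_lit 22, nat_lit 0, nat_lit 0, [nat_lit 3282000000, nat_lit 6250000000], [], [nat_lit 15628685056, nat_lit 15885314822, nat_lit 15686074624, nat_lit 15929653432, nat_lit 18489226941, nat_lit 18748177409, nat_lit 18260989352, nat_lit 18507489746], nat_lit 0, nat_lit 0, nat_lit 0, nat_lit 0, nat_lit 0, nat_lit 0, [], [nat_lit 49, nat_lit 40, nat_lit 40, nat_lit 80,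 nat_lit 16, nat_lit 238, nat_lit 30, nat_lit 8]⟩,
 zbF0, [⟨nat_lit 7, nat_lit 100, nat_lit 96, nat_lit 69, nat_lit 952510491⟩]⟩
noncomputable def p066_l67 : Lf2 := ⟨nat_lit 0, nat_lit 2, [nat_lit 10, nat_lit 5, nat_lit 5, nat_lit 20], false, nat_lit 160, nat_lit 200, nat_lit 240, nat_lit 276, ⟨nat_lit 1000, nat_lit 0, nat_lit 0, nat_lit 0, nat_lit 0, nat_lit 0, nat_lit 0, nat_lit 0, nat_lit 0, nat_lit 0, nat_lit 0, nat_lit 0, nat_lit 0, nat_lit 0, nat_lit 0, nat_lit 0, false, false⟩,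
 nat_lit 0, nat_lit 11039, nat_lit 0, nat_lit 0, nat_lit 7024, nat_lit 10985, nat_lit 0, nat_lit 0, nat_lit 0, nat_lit 0, nat_lit 0, nat_lit 0, nat_lit 0, nat_lit 0, nat_lit 0, nat_lit 0, nat_lit 0, nat_lit 0, [],
 ⟨p066_k13, nat_lit 0, nat_lit 0, nat_lit 250, nat_lit 0, nat_lit 671166, [nat_lit 3282000000, nat_lit 6250000000], [], [nat_lit 22523863392, nat_lit 21983305484, nat_lit 23051849344, nat_lit 23226008980, nat_lit 21488235248, nat_lit 21667552775, nat_lit 23991587392, nat_lit 24152208196], nat_lit 1271250, nat_lit 1271250, nat_lit 780000, nat_lit 1762500, nat_lit 1100001, nat_lit 1442500, [nat_lit 780000, nat_lit 1435000], [nat_lit 49, nat_lit 40, nat_lit 40, nat_lit 80, nat_lit 16, nat_lit 345, nat_lit 125, nat_lit 12]⟩, ⟨p066_k13, nat_lit 0, nat_lit 0, nat_lit 11, nat_lit 0, nat_lit 0, [nat_lit 3282000000, nat_lit 6250000000], [], [nat_lit 14838219920, nat_lit 15268799412, nat_lit 19208231280, nat_lit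 19538741294, nat_lit 19074154520, nat_lit 19458893891, nat_lit 22428010441, nat_lit 22723585607], nat_lit 0, nat_lit 0, nat_lit 0, nat_lit 0, nat_lit 0, nat_lit 0, [], [nat_lit 49, nat_lit 40, nat_lit 40, nat_lit 80, nat_lit 16, nat_lit 272, nat_lit 60, nat_lit 9]⟩,
 zbF0, [⟨nat_lit 7, nat_lit 100, nat_lit 96, nat_lit 69, nat_lit 1230763996⟩]⟩
noncomputable def p066_l68 : Lf2 := ⟨nat_lit 0, nat_lit 5, [nat_lit 4, nat_lit 5, nat_lit 5, nat_lit 20], false, nat_lit 160, nat_lit 200, nat_lit 240, nat_lit 276, ⟨nat_lit 1000, nat_lit 0, nat_lit 0, nat_lit 0, nat_lit 0, nat_lit 0, nat_lit 0, nat_lit 0, nat_lit 0, nat_lit 0, nat_lit 0, nat_lit 0, nat_lit 0, nat_lit 0, nat_lit 0, nat_lit 0, false, false⟩,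
 nat_lit 0, nat_lit 11273, nat_lit 0, nat_lit 0, nat_lit 7173, nat_lit 5406, nat_lit 926, nat_lit 0, nat_lit 0, nat_lit 0, nat_lit 0, nat_lit 0, nat_lit 0, nat_lit 13556859950149, nat_lit 0, nat_lit 0, nat_lit 0, nat_lit 0, [],
 ⟨p066_k3, nat_lit 0, nat_lit 0, nat_lit 328, nat_lit 0, nat_lit 617475, [nat_lit 3282000000, nat_lit 6250000000, nat_lit 7968000000], [], [nat_lit 20989961744, nat_lit 20955722468, nat_lit 25519779212, nat_lit 25026163479, nat_lit 21878668239, nat_lit 22050321593, nat_lit 30177993180, nat_lit 29690710489], nat_lit 1271250, nat_lit 1271250, nat_lit 382400, nat_lit 1731000, nat_lit 1100001, nat_lit 1442500, [nat_lit 780000, nat_lit 1435000, nat_lit 1271250], [nat_lit 18, nat_lit 40, nat_lit 40, nat_lit 80, nat_lit 2, nat_lit 345, nat_lit 125, nat_lit 11]⟩, ⟨p066_k3, nat_lit 0, nat_lit 0, nat_lit 47, nat_lit 0, nat_lit 0, [nat_lit 3282000000, nat_lit 6250000000, nat_lit 7968000000], [], [nat_lit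 16058231157, nat_lit 16315356037, nat_lit 19445143440, nat_lit 19636749077, nat_lit 18918707978, nat_lit 19177684134, nat_lit 21513813185, nat_lit 21707683711], nat_lit 0, nat_lit 0, nat_lit 0, nat_lit 0, nat_lit 0, nat_lit 0, [], [nat_lit 18, nat_lit 40, nat_lit 40, nat_lit 80, nat_lit 2, nat_lit 272, nat_lit 60, nat_lit 8]⟩,
 zbF0, [⟨nat_lit 0, nat_lit 100, nat_lit 100, nat_lit 83, nat_lit 248475057⟩, ⟨nat_lit 7, nat_lit 100, nat_lit 96, nat_lit 69, nat_lit 952520829⟩]⟩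
noncomputable def p066_l69 : Lf2 := ⟨nat_lit 0, nat_lit 5, [nat_lit 4, nat_lit 5, nat_lit 5, nat_lit 20], false, nat_lit 200, nat_lit 240, nat_lit 240, nat_lit 276, ⟨nat_lit 1000, nat_lit 0, nat_lit 0, nat_lit 0, nat_lit 0, nat_lit 0, nat_lit 0, nat_lit 0, nat_lit 0, nat_lit 0, nat_lit 0, nat_lit 0, nat_lit 0, nat_lit 0, nat_lit 0, nat_lit 0, false, false⟩,
 nat_lit 0, nat_lit 16631, nat_lit 0, nat_lit 0, nat_lit 10583, nat_lit 5408, nat_lit 1010, nat_lit 0, nat_lit 0, nat_lit 0, nat_lit 0, nat_lit 0, nat_lit 0, nat_lit 0, nat_lit 0, nat_lit 0, nat_lit 0, nat_lit 0, [],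
 ⟨p066_k3, nat_lit 0, nat_lit 0, nat_lit 213, nat_lit 0, nat_lit 402156, [nat_lit 3282000000, nat_lit 6250000000, nat_lit 7968000000], [], [nat_lit 15631389921, nat_lit 15909736730, nat_lit 14860877050, nat_lit 15138852817, nat_lit 17253699348, nat_lit 17510506231, nat_lit 16457514344, nat_lit 16709605202], nat_lit 1271250, nat_lit 1271250, nat_lit 382400, nat_lit 490000, nat_lit 1271250, nat_lit 1271250, [nat_lit 780000, nat_lit 1435000, nat_lit 1271250], [nat_lit 18, nat_lit 40, nat_lit 40, nat_lit 80, nat_lit 2, nat_lit 317, nat_lit 100, nat_lit 10]⟩, ⟨p066_k3, nat_lit 0, nat_lit 0, nat_lit 47, nat_lit 0, nat_lit 0, [nat_lit 3282000000, nat_lit 6250000000, nat_lit 7968000000], [], [nat_lit 16056585703, nat_lit 16315093056, nat_lit 15748723968, nat_lit 16001881145, nat_lit 18919697661, nat_lit 19178728920, nat_lit 18444255063, nat_lit 18699739316], nat_lit 0, nat_lit 0, nat_lit 0, nat_lit 0, nat_lit 0, nat_lit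 0, [], [nat_lit 18, nat_lit 40, nat_lit 40, nat_lit 80, nat_lit 2, nat_lit 226, nat_lit 20, nat_lit 7]⟩,
 zbF0, [⟨nat_lit 0, nat_lit 100, nat_lit 100, nat_lit 81, nat_lit 976493095⟩, ⟨nat_lit 7, nat_lit 100, nat_lit 96, nat_lit 69, nat_lit 952711107⟩]⟩
noncomputable def p066_l70 : Lf2 := ⟨nat_lit 0, nat_lit 5, [nat_lit 4, nat_lit 5, nat_lit 5, nat_lit 20], false, nat_lit 200, nat_lit 240, nat_lit 240, nat_lit 276, ⟨nat_lit 1000, nat_lit 0, nat_lit 0, nat_lit 0, nat_lit 0, nat_lit 0, nat_lit 0, nat_lit 0, nat_lit 0, nat_lit 0, nat_lit 0, nat_lit 0, nat_lit 0, nat_lit 0, nat_lit 0, nat_lit 0, false, false⟩,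
 nat_lit 0, nat_lit 9914, nat_lit 0, nat_lit 0, nat_lit 6308, nat_lit 5295, nat_lit 976, nat_lit 0, nat_lit 0, nat_lit 0, nat_lit 0, nat_lit 0, nat_lit 0, nat_lit 0, nat_lit 0, nat_lit 0, nat_lit 0, nat_lit 0, [],
 ⟨p066_k3, nat_lit 0, nat_lit 0, nat_lit 202, nat_lit 0, nat_lit 402156, [nat_lit 3282000000, nat_lit 6250000000, nat_lit 7968000000], [], [nat_lit 18341888136, nat_lit 18581462036, nat_lit 18310107156, nat_lit 18537132907, nat_lit 19943093552, nat_lit 20156755015, nat_lit 19895160544, nat_lit 20103226320], nat_lit 1271250, nat_lit 1271250, nat_lit 490000, nat_lit 631250, nat_lit 1271250, nat_lit 1271250, [nat_lit 780000, nat_lit 1435000, nat_lit 1271250], [nat_lit 18, nat_lit 40, nat_lit 40, nat_lit 80, nat_lit 2, nat_lit 317, nat_lit 100, nat_lit 10]⟩, ⟨p066_k3, nat_lit 0, nat_lit 0, nat_lit 35, nat_lit 0, nat_lit 0, [nat_lit 3282000000, nat_lit 6250000000, nat_lit 7968000000], [], [nat_lit 15854695820,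 nat_lit 16104787353, nat_lit 15901828550, nat_lit 16145613203, nat_lit 18405100871, nat_lit 18656977562, nat_lit 18389536726, nat_lit 18611471590], nat_lit 0, nat_lit 0, nat_lit 0, nat_lit 0, nat_lit 0, nat_lit 0, [], [nat_lit 18, nat_lit 40, nat_lit 40, nat_lit 80, nat_lit 2, nat_lit 232, nat_lit 25, nat_lit 7]⟩,
 zbF0, [⟨nat_lit 19, nat_lit 99, nat_lit 100, nat_lit 77, nat_lit 770715839⟩]⟩
noncomputable def p066_l71 : Lf2 := ⟨nat_lit 0, nat_lit 5, [nat_lit 4, nat_lit 5, nat_lit 5, nat_lit 20], false, nat_lit 200, nat_lit 240, nat_lit 240, nat_lit 276, ⟨nat_lit 1000, nat_lit 0, nat_lit 0, nat_lit 0, nat_lit 0, nat_lit 0, nat_lit 0, nat_lit 0, nat_lit 0, nat_lit 0, nat_lit 0, nat_lit 0, nat_lit 0, nat_lit 0, nat_lit 0, nat_lit 0, false, false⟩,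
 nat_lit 0, nat_lit 9979, nat_lit 0, nat_lit 0, nat_lit 6350, nat_lit 5368, nat_lit 964, nat_lit 0, nat_lit 0, nat_lit 0, nat_lit 0, nat_lit 0, nat_lit 0, nat_lit 0, nat_lit 0, nat_lit 0, nat_lit 0, nat_lit 0, [],
 ⟨p066_k3, nat_lit 0, nat_lit 0, nat_lit 193, nat_lit 0, nat_lit 402156, [nat_lit 3282000000, nat_lit 6250000000, nat_lit 7968000000], [], [nat_lit 18254263950, nat_lit 18488556278, nat_lit 18224723341, nat_lit 18448902977, nat_lit 19816211800, nat_lit 20025052848, nat_lit 19785592841, nat_lit 19991058956], nat_lit 1271250, nat_lit 1271250, nat_lit 631250, nat_lit 719601, nat_lit 1271250, nat_lit 1271250, [nat_lit 780000, nat_lit 1435000, nat_lit 1271250], [nat_lit 18, nat_lit 40, nat_lit 40, nat_lit 80, nat_lit 2, nat_lit 317, nat_lit 100, nat_lit 10]⟩, ⟨p066_k3, nat_lit 0, nat_lit 0, nat_lit 26, nat_lit 0, nat_lit 0, [nat_lit 3282000000, nat_lit 6250000000, nat_lit 7968000000], [], [nat_lit 15827783920,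 nat_lit 16073482819, nat_lit 15852712596, nat_lit 16094587637, nat_lit 18333468996, nat_lit 18581379544, nat_lit 18320392402, nat_lit 18540605670], nat_lit 0, nat_lit 0, nat_lit 0, nat_lit 0, nat_lit 0, nat_lit 0, [], [nat_lit 18, nat_lit 40, nat_lit 40, nat_lit 80, nat_lit 2, nat_lit 238, nat_lit 30, nat_lit 7]⟩,
 zbF0, [⟨nat_lit 19, nat_lit 99, nat_lit 100, nat_lit 77, nat_lit 762561402⟩]⟩
noncomputable def p066_l72 : Lf2 := ⟨nat_lit 0, nat_lit 5, [nat_lit 4, nat_lit 5, nat_lit 5, nat_lit 20], false, nat_lit 200, nat_lit 240, nat_lit 240, nat_lit 276, ⟨nat_lit 1000, nat_lit 0, nat_lit 0, nat_lit 0, nat_lit 0, nat_lit 0, nat_lit 0, nat_lit 0, nat_lit 0, nat_lit 0, nat_lit 0, nat_lit 0, nat_lit 0, nat_lit 0, nat_lit 0, nat_lit 0, false, false⟩,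
 nat_lit 0, nat_lit 11126, nat_lit 0, nat_lit 0, nat_lit 7080, nat_lit 11750, nat_lit 747, nat_lit 0, nat_lit 0, nat_lit 0, nat_lit 0, nat_lit 0, nat_lit 0, nat_lit 0, nat_lit 0, nat_lit 0, nat_lit 0, nat_lit 0, [],
 ⟨p066_k3, nat_lit 0, nat_lit 0, nat_lit 386, nat_lit 0, nat_lit 768105, [nat_lit 3282000000, nat_lit 6250000000, nat_lit 7968000000], [], [nat_lit 25591364257, nat_lit 25729949298, nat_lit 25529734480, nat_lit 25666728383, nat_lit 26421275872, nat_lit 26549388816, nat_lit 26346683680, nat_lit 26472328936], nat_lit 1271250, nat_lit 1271250, nat_lit 719601, nat_lit 780000, nat_lit 1271250, nat_lit 1271250, [nat_lit 780000, nat_lit 1435000, nat_lit 1271250], [nat_lit 18, nat_lit 40, nat_lit 40, nat_lit 80, nat_lit 2, nat_lit 317, nat_lit 100, nat_lit 10]⟩, ⟨p066_k3, nat_lit 0, nat_lit 0, nat_lit 20, nat_lit 0, nat_lit 0, [nat_lit 3282000000, nat_lit 6250000000, nat_lit 7968000000], [], [nat_lit 14990341001,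 nat_lit 15448453030, nat_lit 14744180000, nat_lit 15197021451, nat_lit 19485147821, nat_lit 19893910385, nat_lit 19188317000, nat_lit 19592464119], nat_lit 0, nat_lit 0, nat_lit 0, nat_lit 0, nat_lit 0, nat_lit 0, [], [nat_lit 18, nat_lit 40, nat_lit 40, nat_lit 80, nat_lit 2, nat_lit 238, nat_lit 30, nat_lit 7]⟩,
 zbF0, [⟨nat_lit 7, nat_lit 100, nat_lit 96, nat_lit 69, nat_lit 1284286762⟩]⟩
noncomputable def p066_l73 : Lf2 := ⟨nat_lit 0, nat_lit 5, [nat_lit 4, nat_lit 5, nat_lit 5, nat_lit 20], false, nat_lit 200, nat_lit 240, nat_lit 240, nat_lit 276, ⟨nat_lit 1000, nat_lit 0, nat_lit 0, nat_lit 0, nat_lit 0, nat_lit 0, nat_lit 0, nat_lit 0, nat_lit 0, nat_lit 0, nat_lit 0, nat_lit 0, nat_lit 0, nat_lit 0, nat_lit 0, nat_lit 0, false, false⟩,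
 nat_lit 0, nat_lit 17188, nat_lit 0, nat_lit 0, nat_lit 10937, nat_lit 26583, nat_lit 985, nat_lit 0, nat_lit 0, nat_lit 0, nat_lit 0, nat_lit 0, nat_lit 0, nat_lit 0, nat_lit 0, nat_lit 0, nat_lit 0, nat_lit 0, [],
 ⟨p066_k3, nat_lit 0, nat_lit 0, nat_lit 382, nat_lit 0, nat_lit 768105, [nat_lit 3282000000, nat_lit 6250000000, nat_lit 7968000000], [], [nat_lit 14124056204, nat_lit 14322286285, nat_lit 17210313554, nat_lit 17574756903, nat_lit 15095581700, nat_lit 15275010820, nat_lit 19209534576, nat_lit 19539033753], nat_lit 1271250, nat_lit 1271250, nat_lit 780000, nat_lit 1762500, nat_lit 1271250, nat_lit 1271250, [nat_lit 780000, nat_lit 1435000, nat_lit 1271250], [nat_lit 18, nat_lit 40, nat_lit 40, nat_lit 80, nat_lit 2, nat_lit 345, nat_lit 125, nat_lit 10]⟩, ⟨p066_k3, nat_lit 0, nat_lit 0, nat_lit 17, nat_lit 0, nat_lit 0, [nat_lit 3282000000, nat_lit 6250000000, nat_lit 7968000000], [], [nat_lit 12920788976,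 nat_lit 13805279626, nat_lit 18784714384, nat_lit 19443704240, nat_lit 21401875256, nat_lit 22182329726, nat_lit 24983961113, nat_lit 25563886337], nat_lit 0, nat_lit 0, nat_lit 0, nat_lit 0, nat_lit 0, nat_lit 0, [], [nat_lit 18, nat_lit 40, nat_lit 40, nat_lit 80, nat_lit 2, nat_lit 272, nat_lit 60, nat_lit 8]⟩,
 zbF0, [⟨nat_lit 7, nat_lit 100, nat_lit 96, nat_lit 69, nat_lit 2108670589⟩]⟩
noncomputable def p066_l74 : Lf2 := ⟨nat_lit 0, nat_lit 5, [nat_lit 4, nat_lit 5, nat_lit 5, nat_lit 20], false, nat_lit 160, nat_lit 240, nat_lit 160, nat_lit 276, ⟨nat_lit 1000, nat_lit 0, nat_lit 0, nat_lit 0, nat_lit 0, nat_lit 0, nat_lit 0, nat_lit 0, nat_lit 0, nat_lit 0, nat_lit 0, nat_lit 0, nat_lit 0, nat_lit 0, nat_lit 0, nat_lit 0, false, false⟩,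
 nat_lit 0, nat_lit 15064, nat_lit 0, nat_lit 0, nat_lit 9710, nat_lit 5175, nat_lit 3059, nat_lit 0, nat_lit 0, nat_lit 0, nat_lit 0, nat_lit 0, nat_lit 0, nat_lit 0, nat_lit 0, nat_lit 0, nat_lit 0, nat_lit 0, [],
 ⟨p066_k14, nat_lit 0, nat_lit 0, nat_lit 243, nat_lit 0, nat_lit 413766, [nat_lit 3282000000, nat_lit 6250000000, nat_lit 7968000000], [], [nat_lit 16425038394, nat_lit 15931225080, nat_lit 13666567141, nat_lit 13857575420, nat_lit 17429567249, nat_lit 17591488704, nat_lit 16718203718, nat_lit 16877198010], nat_lit 1271250, nat_lit 1271250, nat_lit 382400, nat_lit 490000, nat_lit 1100001, nat_lit 1785000, [nat_lit 780000, nat_lit 1435000, nat_lit 1271250], [nat_lit 18, nat_lit 40, nat_lit 40, nat_lit 80, nat_lit 2, nat_lit 317, nat_lit 100, nat_lit 10]⟩, ⟨p066_k3, nat_lit 0, nat_lit 0, nat_lit 48, nat_lit 0, nat_lit 0, [nat_lit 3282000000, nat_lit 6250000000, nat_lit 7968000000], [], [nat_lit 12275709981,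 nat_lit 12770590738, nat_lit 12037263300, nat_lit 12524193838, nat_lit 18805383073, nat_lit 19225419197, nat_lit 18487025615, nat_lit 18861506507], nat_lit 0, nat_lit 0, nat_lit 0, nat_lit 0, nat_lit 0, nat_lit 0, [], [nat_lit 18, nat_lit 40, nat_lit 40, nat_lit 80, nat_lit 2, nat_lit 317, nat_lit 100, nat_lit 10]⟩,
 zbF0, [⟨nat_lit 0, nat_lit 100, nat_lit 99, nat_lit 81, nat_lit 960355884⟩, ⟨nat_lit 7, nat_lit 100, nat_lit 95, nat_lit 69, nat_lit 750272593⟩]⟩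
noncomputable def p066_l75 : Lf2 := ⟨nat_lit 0, nat_lit 5, [nat_lit 4, nat_lit 5, nat_lit 5, nat_lit 20], false, nat_lit 160, nat_lit 240, nat_lit 160, nat_lit 276, ⟨nat_lit 1000, nat_lit 0, nat_lit 0, nat_lit 0, nat_lit 0, nat_lit 0, nat_lit 0, nat_lit 0, nat_lit 0, nat_lit 0, nat_lit 0, nat_lit 0, nat_lit 0, nat_lit 0, nat_lit 0, nat_lit 0, false, false⟩,
 nat_lit 0, nat_lit 9755, nat_lit 0, nat_lit 0, nat_lit 6288, nat_lit 5268, nat_lit 1805, nat_lit 0, nat_lit 0, nat_lit 0, nat_lit 0, nat_lit 0, nat_lit 0, nat_lit 0, nat_lit 0, nat_lit 0, nat_lit 0, nat_lit 0, [],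
 ⟨p066_k14, nat_lit 0, nat_lit 0, nat_lit 208, nat_lit 0, nat_lit 413766, [nat_lit 3282000000, nat_lit 6250000000, nat_lit 7968000000], [], [nat_lit 16499538653, nat_lit 16667708796, nat_lit 16537574923, nat_lit 16701253972, nat_lit 19718678553, nat_lit 19860864140, nat_lit 19666639283, nat_lit 19805103682], nat_lit 1271250, nat_lit 1271250, nat_lit 490000, nat_lit 631250, nat_lit 1100001, nat_lit 1785000, [nat_lit 780000, nat_lit 1435000, nat_lit 1271250], [nat_lit 18, nat_lit 40, nat_lit 40, nat_lit 80, nat_lit 2, nat_lit 317, nat_lit 100, nat_lit 10]⟩, ⟨p066_k3, nat_lit 0, nat_lit 0, nat_lit 36, nat_lit 0, nat_lit 0, [nat_lit 3282000000, nat_lit 6250000000, nat_lit 7968000000], [], [nat_lit 11923460688, nat_lit 12415671254, nat_lit 12064804872, nat_lit 12544264167, nat_lit 18423533939, nat_lit 18814555540, nat_lit 18410274106, nat_lit 18779134272], nat_lit 0, nat_lit 0, nat_lit 0, nat_lit 0, nat_lit 0, nat_lit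 0, [], [nat_lit 18, nat_lit 40, nat_lit 40, nat_lit 80, nat_lit 2, nat_lit 317, nat_lit 100, nat_lit 10]⟩,
 zbF0, [⟨nat_lit 19, nat_lit 99, nat_lit 100, nat_lit 77, nat_lit 642289012⟩]⟩
noncomputable def p066_l76 : Lf2 := ⟨nat_lit 0, nat_lit 5, [nat_lit 4, nat_lit 5, nat_lit 5, nat_lit 20], false, nat_lit 160, nat_lit 240, nat_lit 160, nat_lit 276, ⟨nat_lit 1000, nat_lit 0, nat_lit 0, nat_lit 0, nat_lit 0, nat_lit 0, nat_lit 0, nat_lit 0, nat_lit 0, nat_lit 0, nat_lit 0, nat_lit 0, nat_lit 0, nat_lit 0, nat_lit 0, nat_lit 0, false, false⟩,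
 nat_lit 0, nat_lit 14332, nat_lit 0, nat_lit 0, nat_lit 9239, nat_lit 5886, nat_lit 5834, nat_lit 0, nat_lit 0, nat_lit 0, nat_lit 0, nat_lit 0, nat_lit 0, nat_lit 40631184909801, nat_lit 0, nat_lit 0, nat_lit 0, nat_lit 0, [],
 ⟨p066_k14, nat_lit 0, nat_lit 0, nat_lit 406, nat_lit 0, nat_lit 790585, [nat_lit 3282000000, nat_lit 6250000000, nat_lit 7968000000], [], [nat_lit 14001593800, nat_lit 14136163020, nat_lit 13718885721, nat_lit 13849432817, nat_lit 15976837156, nat_lit 16089106261, nat_lit 17076042080, nat_lit 16646519122], nat_lit 1271250, nat_lit 1271250, nat_lit 631250, nat_lit 780000, nat_lit 1100001, nat_lit 1785000, [nat_lit 780000, nat_lit 1435000, nat_lit 1271250], [nat_lit 18, nat_lit 40, nat_lit 40, nat_lit 80, nat_lit 2, nat_lit 317, nat_lit 100, nat_lit 10]⟩, ⟨p066_k3, nat_lit 0, nat_lit 0, nat_lit 27, nat_lit 0, nat_lit 0, [nat_lit 3282000000, nat_lit 6250000000, nat_lit 7968000000], [], [nat_lit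 11268730644, nat_lit 11782123547, nat_lit 11370237312, nat_lit 11869725910, nat_lit 18462708737, nat_lit 18899215531, nat_lit 18313220552, nat_lit 18738853478], nat_lit 0, nat_lit 0, nat_lit 0, nat_lit 0, nat_lit 0, nat_lit 0, [], [nat_lit 18, nat_lit 40, nat_lit 40, nat_lit 80, nat_lit 2, nat_lit 317, nat_lit 100, nat_lit 10]⟩,
 zbF0, [⟨nat_lit 7, nat_lit 100, nat_lit 95, nat_lit 69, nat_lit 794198311⟩]⟩
noncomputable def p066_l77 : Lf2 := ⟨nat_lit 0, nat_lit 5, [nat_lit 4, nat_lit 5, nat_lit 5, nat_lit 20], false, nat_lit 160, nat_lit 240, nat_lit 160, nat_lit 276, ⟨nat_lit 1000, nat_lit 0, nat_lit 0, nat_lit 0, nat_lit 0, nat_lit 0, nat_lit 0, nat_lit 0, nat_lit 0, nat_lit 0, nat_lit 0, nat_lit 0, nat_lit 0, nat_lit 0, nat_lit 0, nat_lit 0, false, false⟩,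
 nat_lit 0, nat_lit 13723, nat_lit 0, nat_lit 0, nat_lit 8846, nat_lit 5982, nat_lit 5572, nat_lit 0, nat_lit 0, nat_lit 0, nat_lit 0, nat_lit 0, nat_lit 0, nat_lit 38618497964303, nat_lit 0, nat_lit 0, nat_lit 0, nat_lit 0, [],
 ⟨p066_k14, nat_lit 0, nat_lit 0, nat_lit 396, nat_lit 0, nat_lit 790585, [nat_lit 3282000000, nat_lit 6250000000, nat_lit 7968000000], [], [nat_lit 20795086908, nat_lit 20341235801, nat_lit 16863898014, nat_lit 16962883686, nat_lit 16956009749, nat_lit 17062406514, nat_lit 22672294761, nat_lit 22261042451], nat_lit 1271250, nat_lit 1271250, nat_lit 780000, nat_lit 1762500, nat_lit 1100001, nat_lit 1785000, [nat_lit 780000, nat_lit 1435000, nat_lit 1271250], [nat_lit 18, nat_lit 40, nat_lit 40, nat_lit 80, nat_lit 2, nat_lit 345, nat_lit 125, nat_lit 11]⟩, ⟨p066_k3, nat_lit 0, nat_lit 0, nat_lit 18, nat_lit 0, nat_lit 0, [nat_lit 3282000000, nat_lit 6250000000, nat_lit 7968000000], [], [nat_lit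 11240386944, nat_lit 11744967670, nat_lit 16120652152, nat_lit 16565711328, nat_lit 18327546824, nat_lit 18757238886, nat_lit 21608198849, nat_lit 21948817101], nat_lit 0, nat_lit 0, nat_lit 0, nat_lit 0, nat_lit 0, nat_lit 0, [], [nat_lit 18, nat_lit 40, nat_lit 40, nat_lit 80, nat_lit 2, nat_lit 373, nat_lit 150, nat_lit 12]⟩,
 zbF0, [⟨nat_lit 7, nat_lit 100, nat_lit 95, nat_lit 69, nat_lit 787254740⟩]⟩
noncomputable def p066_l78 : Lf2 := ⟨nat_lit 0, nat_lit 5, [nat_lit 4, nat_lit 5, nat_lit 5, nat_lit 20], false, nat_lit 160, nat_lit 240, nat_lit 160, nat_lit 276, ⟨nat_lit 1000, nat_lit 0, nat_lit 0, nat_lit 0, nat_lit 0, nat_lit 0, nat_lit 0, nat_lit 0, nat_lit 0, nat_lit 0, nat_lit 0, nat_lit 0, nat_lit 0, nat_lit 0, nat_lit 0, nat_lit 0, false, false⟩,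
 nat_lit 0, nat_lit 14067, nat_lit 0, nat_lit 0, nat_lit 9146, nat_lit 5205, nat_lit 2794, nat_lit 0, nat_lit 0, nat_lit 0, nat_lit 0, nat_lit 0, nat_lit 0, nat_lit 0, nat_lit 0, nat_lit 0, nat_lit 0, nat_lit 0, [],
 ⟨p066_k5, nat_lit 0, nat_lit 0, nat_lit 250, nat_lit 0, nat_lit 436066, [nat_lit 3282000000, nat_lit 6250000000, nat_lit 7968000000], [], [nat_lit 15222374768, nat_lit 14651724453, nat_lit 13689205847, nat_lit 13956673798, nat_lit 17375799225, nat_lit 17608681229, nat_lit 17285380459, nat_lit 16772545271], nat_lit 1271250, nat_lit 1271250, nat_lit 408851, nat_lit 631250, nat_lit 1100001, nat_lit 1785000, [nat_lit 780000, nat_lit 1435000, nat_lit 1271250], [nat_lit 18, nat_lit 40, nat_lit 40, nat_lit 80, nat_lit 2, nat_lit 317, nat_lit 100, nat_lit 10]⟩, ⟨p066_k3, nat_lit 0, nat_lit 0, nat_lit 48, nat_lit 0, nat_lit 0, [nat_lit 3282000000, nat_lit 6250000000, nat_lit 7968000000], [], [nat_lit 12181871827,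 nat_lit 12973267397, nat_lit 12145958070, nat_lit 12907558140, nat_lit 18708016496, nat_lit 19381201400, nat_lit 18458661325, nat_lit 19044987500], nat_lit 0, nat_lit 0, nat_lit 0, nat_lit 0, nat_lit 0, nat_lit 0, [], [nat_lit 18, nat_lit 40, nat_lit 40, nat_lit 80, nat_lit 2, nat_lit 317, nat_lit 100, nat_lit 10]⟩,
 zbF0, [⟨nat_lit 0, nat_lit 100, nat_lit 99, nat_lit 82, nat_lit 662159503⟩, ⟨nat_lit 7, nat_lit 100, nat_lit 95, nat_lit 69, nat_lit 755274142⟩]⟩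
noncomputable def p066_l79 : Lf2 := ⟨nat_lit 0, nat_lit 5, [nat_lit 4, nat_lit 5, nat_lit 5, nat_lit 20], false, nat_lit 160, nat_lit 240, nat_lit 160, nat_lit 276, ⟨nat_lit 1000, nat_lit 0, nat_lit 0, nat_lit 0, nat_lit 0, nat_lit 0, nat_lit 0, nat_lit 0, nat_lit 0, nat_lit 0, nat_lit 0, nat_lit 0, nat_lit 0, nat_lit 0, nat_lit 0, nat_lit 0, false, false⟩,
 nat_lit 0, nat_lit 12659, nat_lit 0, nat_lit 0, nat_lit 8230, nat_lit 5848, nat_lit 5122, nat_lit 0, nat_lit 0, nat_lit 0, nat_lit 0, nat_lit 0, nat_lit 0, nat_lit 33452694813614, nat_lit 0, nat_lit 0, nat_lit 0, nat_lit 0, [],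
 ⟨p066_k5, nat_lit 0, nat_lit 0, nat_lit 426, nat_lit 0, nat_lit 835727, [nat_lit 3282000000, nat_lit 6250000000, nat_lit 7968000000], [], [nat_lit 14335439758, nat_lit 14524139307, nat_lit 14122101440, nat_lit 14305318262, nat_lit 16329394645, nat_lit 16432521266, nat_lit 17949704505, nat_lit 17375782986], nat_lit 1271250, nat_lit 1271250, nat_lit 631250, nat_lit 780000, nat_lit 1100001, nat_lit 1785000, [nat_lit 780000, nat_lit 1435000, nat_lit 1271250], [nat_lit 18, nat_lit 40, nat_lit 40, nat_lit 80, nat_lit 2, nat_lit 317, nat_lit 100, nat_lit 10]⟩, ⟨p066_k3, nat_lit 0, nat_lit 0, nat_lit 30, nat_lit 0, nat_lit 0, [nat_lit 3282000000, nat_lit 6250000000, nat_lit 7968000000], [], [nat_lit 11317680192, nat_lit 12135770384, nat_lit 11421636416, nat_lit 12217593159, nat_lit 18453197816, nat_lit 19148951250, nat_lit 18307549736, nat_lit 18985991630], nat_lit 0, nat_lit 0, nat_lit 0, nat_lit 0, nat_lit 0, nat_lit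 0, [], [nat_lit 18, nat_lit 40, nat_lit 40, nat_lit 80, nat_lit 2, nat_lit 317, nat_lit 100, nat_lit 10]⟩,
 zbF0, [⟨nat_lit 4, nat_lit 100, nat_lit 94, nat_lit 69, nat_lit 499960506⟩, ⟨nat_lit 7, nat_lit 100, nat_lit 95, nat_lit 69, nat_lit 787298186⟩]⟩
noncomputable def p066_l80 : Lf2 := ⟨nat_lit 0, nat_lit 5, [nat_lit 4, nat_lit 5, nat_lit 5, nat_lit 20], false, nat_lit 160, nat_lit 240, nat_lit 160, nat_lit 276, ⟨nat_lit 1000, nat_lit 0, nat_lit 0, nat_lit 0, nat_lit 0, nat_lit 0, nat_lit 0, nat_lit 0, nat_lit 0, nat_lit 0, nat_lit 0, nat_lit 0, nat_lit 0, nat_lit 0, nat_lit 0, nat_lit 0, false, false⟩,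
 nat_lit 0, nat_lit 12292, nat_lit 0, nat_lit 0, nat_lit 7992, nat_lit 5943, nat_lit 4964, nat_lit 0, nat_lit 0, nat_lit 0, nat_lit 0, nat_lit 0, nat_lit 0, nat_lit 3338876338957, nat_lit 0, nat_lit 0, nat_lit 0, nat_lit 0, [],
 ⟨p066_k5, nat_lit 0, nat_lit 0, nat_lit 417, nat_lit 0, nat_lit 835727, [nat_lit 3282000000, nat_lit 6250000000, nat_lit 7968000000], [], [nat_lit 20941987652, nat_lit 20326933722, nat_lit 16882006672, nat_lit 17023277251, nat_lit 16896455728, nat_lit 17047950345, nat_lit 22542045952, nat_lit 21984721435], nat_lit 1271250, nat_lit 1271250, nat_lit 780000, nat_lit 1762500, nat_lit 1100001, nat_lit 1785000, [nat_lit 780000, nat_lit 1435000, nat_lit 1271250], [nat_lit 18, nat_lit 40, nat_lit 40, nat_lit 80, nat_lit 2, nat_lit 345, nat_lit 125, nat_lit 11]⟩, ⟨p066_k3, nat_lit 0, nat_lit 0, nat_lit 20, nat_lit 0, nat_lit 0, [nat_lit 3282000000, nat_lit 6250000000, nat_lit 7968000000], [], [nat_lit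 11293138656, nat_lit 12097157935, nat_lit 16127811148, nat_lit 16837127907, nat_lit 18321726776, nat_lit 19006595637, nat_lit 21601808153, nat_lit 22144901447], nat_lit 0, nat_lit 0, nat_lit 0, nat_lit 0, nat_lit 0, nat_lit 0, [], [nat_lit 18, nat_lit 40, nat_lit 40, nat_lit 80, nat_lit 2, nat_lit 373, nat_lit 150, nat_lit 12]⟩,
 zbF0, [⟨nat_lit 7, nat_lit 100, nat_lit 95, nat_lit 69, nat_lit 780480887⟩]⟩
noncomputable def p066_l81 : Lf2 := ⟨nat_lit 0, nat_lit 5, [nat_lit 4, nat_lit 5, nat_lit 5, nat_lit 20], false, nat_lit 160, nat_lit 240, nat_lit 160, nat_lit 276, ⟨nat_lit 1000, nat_lit 0, nat_lit 0, nat_lit 0, nat_lit 0, nat_lit 0, nat_lit 0, nat_lit 0, nat_lit 0, nat_lit 0, nat_lit 0, nat_lit 0, nat_lit 0, nat_lit 0, nat_lit 0, nat_lit 0, false, false⟩,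
 nat_lit 0, nat_lit 9701, nat_lit 0, nat_lit 0, nat_lit 6388, nat_lit 5205, nat_lit 3843, nat_lit 0, nat_lit 0, nat_lit 0, nat_lit 0, nat_lit 0, nat_lit 0, nat_lit 12010812598445, nat_lit 0, nat_lit 0, nat_lit 0, nat_lit 0, [],
 ⟨p066_k16, nat_lit 0, nat_lit 0, nat_lit 377, nat_lit 0, nat_lit 856854, [nat_lit 3282000000, nat_lit 4688000000, nat_lit 6250000000], [], [nat_lit 23545724153, nat_lit 23216503242, nat_lit 19697755590, nat_lit 19775340328, nat_lit 19893525172, nat_lit 19982153375, nat_lit 27426263422, nat_lit 27137009671], nat_lit 1271250, nat_lit 1271250, nat_lit 408851, nat_lit 1733250, nat_lit 1100001, nat_lit 1785000, [nat_lit 780000, nat_lit 1100000, nat_lit 1442500], [nat_lit 59, nat_lit 40, nat_lit 40, nat_lit 80, nat_lit 3, nat_lit 345, nat_lit 125, nat_lit 13]⟩, ⟨p066_k17, nat_lit 0, nat_lit 0, nat_lit 39, nat_lit 0, nat_lit 0, [nat_lit 3282000000, nat_lit 4688000000, nat_lit 7968000000], [], [nat_lit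 12181871827, nat_lit 13171116290, nat_lit 16775462320, nat_lit 17511414440, nat_lit 18708016496, nat_lit 19549585065, nat_lit 21562770474, nat_lit 22135543041], nat_lit 0, nat_lit 0, nat_lit 0, nat_lit 0, nat_lit 0, nat_lit 0, [], [nat_lit 36, nat_lit 40, nat_lit 40, nat_lit 80, nat_lit 7, nat_lit 373, nat_lit 150, nat_lit 12]⟩,
 zbF0, [⟨nat_lit 0, nat_lit 100, nat_lit 100, nat_lit 90, nat_lit 213258512⟩, ⟨nat_lit 7, nat_lit 100, nat_lit 94, nat_lit 69, nat_lit 753517721⟩]⟩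
noncomputable def b_V_700_700_10_8 : St := ⟨true, nat_lit 1, nat_lit 0, nat_lit 1, nat_lit 80, nat_lit 280, nat_lit 290, nat_lit 280, nat_lit 290, nat_lit 64, nat_lit 240, nat_lit 40, nat_lit 60, nat_lit 160, nat_lit 240, nat_lit 160, nat_lit 276, nat_lit 0, nat_lit 20, nat_lit 0, nat_lit 0, nat_lit 0, nat_lit 0⟩
theorem d_V_700_700_10_8 (h : EB TB.env) : Dead b_V_700_700_10_8 := chkB_sound0 h (T :=
(.spl (nat_lit 0) (nat_lit 285)
(.ord (.spl (nat_lit 0) (nat_lit 283)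
(.ord (.spl (nat_lit 5) (nat_lit 240)
(.spl (nat_lit 2) (nat_lit 120)
(.spl (nat_lit 2) (nat_lit 80)
(.leaf p066_l60)
(.spl (nat_lit 2) (nat_lit 100)
(.leaf p066_l61)
(.leaf p066_l62)))
(.leaf p066_l63))
(.spl (nat_lit 4) (nat_lit 200)
(.spl (nat_lit 6) (nat_lit 8)
(.spl (nat_lit 6) (nat_lit 4)
(.leaf p066_l64)
(.spl (nat_lit 2) (nat_lit 120)
(.spl (nat_lit 2) (nat_lit 80)
(.leaf p066_l65)
(.leaf p066_l66))
(.leaf p066_l67)))
(.leaf p066_l68))
(.spl (nat_lit 2) (nat_lit 120)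
(.spl (nat_lit 2) (nat_lit 80)
(.leaf p066_l69)
(.spl (nat_lit 2) (nat_lit 100)
(.leaf p066_l70)
(.spl (nat_lit 2) (nat_lit 112)
(.leaf p066_l71)
(.leaf p066_l72))))
(.leaf p066_l73)))))
(.spl (nat_lit 2) (nat_lit 120)
(.spl (nat_lit 2) (nat_lit 80)
(.leaf p066_l74)
(.spl (nat_lit 2) (nat_lit 100)
(.leaf p066_l75)
(.leaf p066_l76)))
(.leaf p066_l77))))
(.trZ (nat_lit 0) (nat_lit 100) (nat_lit 99) (nat_lit 82) (nat_lit 68) (.spl (nat_lit 0) (nat_lit 288)
(.ord (.spl (nat_lit 2) (nat_lit 120)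
(.spl (nat_lit 2) (nat_lit 100)
(.leaf p066_l78)
(.leaf p066_l79))
(.leaf p066_l80)))
(.leaf p066_l81))))) (by decide +kernel)
noncomputable def p066_l82 : Lf2 := ⟨nat_lit 0, nat_lit 2, [nat_lit 10, nat_lit 5, nat_lit 5, nat_lit 20], false, nat_lit 240, nat_lit 276, nat_lit 160, nat_lit 276, ⟨nat_lit 1000, nat_lit 0, nat_lit 0, nat_lit 0, nat_lit 0, nat_lit 0, nat_lit 0, nat_lit 0, nat_lit 0, nat_lit 0, nat_lit 0, nat_lit 0, nat_lit 0, nat_lit 0, nat_lit 0, nat_lit 0, false, false⟩,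
 nat_lit 0, nat_lit 11690, nat_lit 0, nat_lit 0, nat_lit 7439, nat_lit 5175, nat_lit 1634, nat_lit 0, nat_lit 0, nat_lit 0, nat_lit 0, nat_lit 0, nat_lit 0, nat_lit 959903487119, nat_lit 0, nat_lit 0, nat_lit 0, nat_lit 0, [],
 ⟨p066_k18, nat_lit 0, nat_lit 0, nat_lit 202, nat_lit 0, nat_lit 403846, [nat_lit 3282000000, nat_lit 4688000000, nat_lit 6250000000], [], [nat_lit 17482701077, nat_lit 17886786098, nat_lit 17041926176, nat_lit 17438990737, nat_lit 19925220812, nat_lit 20449701286, nat_lit 19443023960, nat_lit 19803408228], nat_lit 1271250, nat_lit 1271250, nat_lit 382400, nat_lit 490000, nat_lit 1271250, nat_lit 1271250, [nat_lit 780000, nat_lit 1100000, nat_lit 1442500], [nat_lit 59, nat_lit 40, nat_lit 40, nat_lit 80, nat_lit 3, nat_lit 226, nat_lit 20, nat_lit 8]⟩, ⟨p066_k18, nat_lit 0, nat_lit 0, nat_lit 39, nat_lit 0, nat_lit 0, [nat_lit 3282000000, nat_lit 4688000000, nat_lit 6250000000], [], [nat_lit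 12275709981, nat_lit 12770590738, nat_lit 12037263300, nat_lit 12524193838, nat_lit 18805383073, nat_lit 19225419197, nat_lit 18487025615, nat_lit 18861506507], nat_lit 0, nat_lit 0, nat_lit 0, nat_lit 0, nat_lit 0, nat_lit 0, [], [nat_lit 59, nat_lit 40, nat_lit 40, nat_lit 80, nat_lit 3, nat_lit 317, nat_lit 100, nat_lit 12]⟩,
 zbF0, [⟨nat_lit 0, nat_lit 100, nat_lit 100, nat_lit 80, nat_lit 189037333⟩, ⟨nat_lit 16, nat_lit 99, nat_lit 100, nat_lit 77, nat_lit 751042849⟩, ⟨nat_lit 19, nat_lit 99, nat_lit 100, nat_lit 77, nat_lit 649676645⟩]⟩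
noncomputable def p066_l83 : Lf2 := ⟨nat_lit 0, nat_lit 2, [nat_lit 10, nat_lit 5, nat_lit 5, nat_lit 20], false, nat_lit 240, nat_lit 276, nat_lit 160, nat_lit 276, ⟨nat_lit 1000, nat_lit 0, nat_lit 0, nat_lit 0, nat_lit 0, nat_lit 0, nat_lit 0, nat_lit 0, nat_lit 0, nat_lit 0, nat_lit 0, nat_lit 0, nat_lit 0, nat_lit 0, nat_lit 0, nat_lit 0, false, false⟩,
 nat_lit 0, nat_lit 12346, nat_lit 0, nat_lit 0, nat_lit 7856, nat_lit 5255, nat_lit 1484, nat_lit 0, nat_lit 0, nat_lit 0, nat_lit 0, nat_lit 0, nat_lit 0, nat_lit 0, nat_lit 0, nat_lit 0, nat_lit 0, nat_lit 0, [],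
 ⟨p066_k18, nat_lit 0, nat_lit 0, nat_lit 347, nat_lit 0, nat_lit 788783, [nat_lit 3282000000, nat_lit 4688000000, nat_lit 6250000000], [], [nat_lit 17502618528, nat_lit 17839898644, nat_lit 17195026784, nat_lit 17513531768, nat_lit 19536084620, nat_lit 19842633237, nat_lit 19112797516, nat_lit 19402364699], nat_lit 1271250, nat_lit 1271250, nat_lit 490000, nat_lit 780000, nat_lit 1271250, nat_lit 1271250, [nat_lit 780000, nat_lit 1100000, nat_lit 1442500], [nat_lit 59, nat_lit 40, nat_lit 40, nat_lit 80, nat_lit 3, nat_lit 238, nat_lit 30, nat_lit 8]⟩, ⟨p066_k18, nat_lit 0, nat_lit 0, nat_lit 29, nat_lit 0, nat_lit 0, [nat_lit 3282000000, nat_lit 4688000000, nat_lit 6250000000], [], [nat_lit 11939368580, nat_lit 12430841078, nat_lit 12223732960, nat_lit 12689751425, nat_lit 18432409119, nat_lit 18810051927, nat_lit 18408108421, nat_lit 18767192867], nat_lit 0, nat_lit 0, nat_lit 0, nat_lit 0, nat_lit 0, nat_lit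 0, [], [nat_lit 59, nat_lit 40, nat_lit 40, nat_lit 80, nat_lit 3, nat_lit 317, nat_lit 100, nat_lit 12]⟩,
 zbF0, [⟨nat_lit 16, nat_lit 99, nat_lit 100, nat_lit 77, nat_lit 51922387⟩, ⟨nat_lit 4, nat_lit 100, nat_lit 95, nat_lit 69, nat_lit 719854462⟩, ⟨nat_lit 19, nat_lit 99, nat_lit 100, nat_lit 77, nat_lit 641158482⟩]⟩
noncomputable def p066_l84 : Lf2 := ⟨nat_lit 0, nat_lit 2, [nat_lit 10, nat_lit 5, nat_lit 5, nat_lit 20], false, nat_lit 240, nat_lit 276, nat_lit 160, nat_lit 276, ⟨nat_lit 1000, nat_lit 0, nat_lit 0, nat_lit 0, nat_lit 0, nat_lit 0, nat_lit 0, nat_lit 0, nat_lit 0, nat_lit 0, nat_lit 0, nat_lit 0, nat_lit 0, nat_lit 0, nat_lit 0, nat_lit 0, false, false⟩,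
 nat_lit 0, nat_lit 12500, nat_lit 0, nat_lit 0, nat_lit 7954, nat_lit 5402, nat_lit 1425, nat_lit 0, nat_lit 0, nat_lit 0, nat_lit 0, nat_lit 0, nat_lit 0, nat_lit 0, nat_lit 0, nat_lit 0, nat_lit 0, nat_lit 0, [],
 ⟨p066_k18, nat_lit 0, nat_lit 0, nat_lit 332, nat_lit 0, nat_lit 788783, [nat_lit 3282000000, nat_lit 4688000000, nat_lit 6250000000], [], [nat_lit 16940573514, nat_lit 17236589332, nat_lit 19290528992, nat_lit 19734995461, nat_lit 18845450987, nat_lit 19136967974, nat_lit 21931338657, nat_lit 22331872530], nat_lit 1271250, nat_lit 1271250, nat_lit 780000, nat_lit 1762500, nat_lit 1271250, nat_lit 1271250, [nat_lit 780000, nat_lit 1100000, nat_lit 1442500], [nat_lit 59, nat_lit 40, nat_lit 40, nat_lit 80, nat_lit 3, nat_lit 272, nat_lit 60, nat_lit 9]⟩, ⟨p066_k18, nat_lit 0, nat_lit 0, nat_lit 15, nat_lit 0, nat_lit 0, [nat_lit 3282000000, nat_lit 4688000000, nat_lit 6250000000], [], [nat_lit 12024899584,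 nat_lit 12498715370, nat_lit 16550627008, nat_lit 16926213572, nat_lit 18282659208, nat_lit 18647163067, nat_lit 21513157729, nat_lit 21836153740], nat_lit 0, nat_lit 0, nat_lit 0, nat_lit 0, nat_lit 0, nat_lit 0, [], [nat_lit 59, nat_lit 40, nat_lit 40, nat_lit 80, nat_lit 3, nat_lit 373, nat_lit 150, nat_lit 14]⟩,
 zbF0, [⟨nat_lit 16, nat_lit 95, nat_lit 100, nat_lit 69, nat_lit 758610150⟩, ⟨nat_lit 19, nat_lit 99, nat_lit 100, nat_lit 77, nat_lit 215793422⟩, ⟨nat_lit 7, nat_lit 100, nat_lit 95, nat_lit 69, nat_lit 479505235⟩]⟩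
noncomputable def p066_l85 : Lf2 := ⟨nat_lit 0, nat_lit 5, [nat_lit 4, nat_lit 5, nat_lit 5, nat_lit 20], false, nat_lit 240, nat_lit 276, nat_lit 160, nat_lit 276, ⟨nat_lit 1000, nat_lit 0, nat_lit 0, nat_lit 0, nat_lit 0, nat_lit 0, nat_lit 0, nat_lit 0, nat_lit 0, nat_lit 0, nat_lit 0, nat_lit 0, nat_lit 0, nat_lit 0, nat_lit 0, nat_lit 0, false, false⟩,
 nat_lit 0, nat_lit 12155, nat_lit 0, nat_lit 0, nat_lit 7735, nat_lit 5137, nat_lit 1663, nat_lit 0, nat_lit 0, nat_lit 0, nat_lit 0, nat_lit 0, nat_lit 0, nat_lit 0, nat_lit 0, nat_lit 0, nat_lit 0, nat_lit 0, [],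
 ⟨p066_k17, nat_lit 0, nat_lit 0, nat_lit 364, nat_lit 0, nat_lit 653910, [nat_lit 3282000000, nat_lit 4688000000, nat_lit 7968000000], [], [nat_lit 18301162056, nat_lit 18587827854, nat_lit 19723317960, nat_lit 19971615050, nat_lit 20301009393, nat_lit 20610453937, nat_lit 21895452441, nat_lit 22289332399], nat_lit 1271250, nat_lit 1271250, nat_lit 382400, nat_lit 1731000, nat_lit 1271250, nat_lit 1271250, [nat_lit 780000, nat_lit 1100000, nat_lit 1785000], [nat_lit 36, nat_lit 40, nat_lit 40, nat_lit 80, nat_lit 7, nat_lit 272, nat_lit 60, nat_lit 8]⟩, ⟨p066_k17, nat_lit 0, nat_lit 0, nat_lit 39, nat_lit 0, nat_lit 0, [nat_lit 3282000000, nat_lit 4688000000, nat_lit 7968000000], [], [nat_lit 12318014712, nat_lit 12810694475, nat_lit 16853070448, nat_lit 17218419532, nat_lit 18826759200, nat_lit 19205400092, nat_lit 21620000444, nat_lit 21904596243], nat_lit 0, nat_lit 0, nat_lit 0, nat_lit 0, nat_lit 0, nat_lit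 0, [], [nat_lit 36, nat_lit 40, nat_lit 40, nat_lit 80, nat_lit 7, nat_lit 373, nat_lit 150, nat_lit 12]⟩,
 zbF0, [⟨nat_lit 0, nat_lit 100, nat_lit 100, nat_lit 85, nat_lit 383853279⟩, ⟨nat_lit 16, nat_lit 99, nat_lit 100, nat_lit 77, nat_lit 256459278⟩, ⟨nat_lit 4, nat_lit 100, nat_lit 95, nat_lit 69, nat_lit 486285993⟩, ⟨nat_lit 19, nat_lit 99, nat_lit 100, nat_lit 77, nat_lit 642031112⟩]⟩
noncomputable def p066_l86 : Lf2 := ⟨nat_lit 0, nat_lit 5, [nat_lit 4, nat_lit 5, nat_lit 5, nat_lit 20], false, nat_lit 240, nat_lit 272, nat_lit 160, nat_lit 276, ⟨nat_lit 1000, nat_lit 0, nat_lit 0, nat_lit 0, nat_lit 0, nat_lit 0, nat_lit 0, nat_lit 0, nat_lit 0, nat_lit 0, nat_lit 0, nat_lit 0, nat_lit 0, nat_lit 0, nat_lit 0, nat_lit 0, false, false⟩,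
 nat_lit 0, nat_lit 10856, nat_lit 0, nat_lit 0, nat_lit 7058, nat_lit 5128, nat_lit 4243, nat_lit 0, nat_lit 0, nat_lit 0, nat_lit 0, nat_lit 0, nat_lit 0, nat_lit 9949696240013, nat_lit 0, nat_lit 0, nat_lit 0, nat_lit 0, [],
 ⟨p066_k19, nat_lit 0, nat_lit 0, nat_lit 438, nat_lit 0, nat_lit 872209, [nat_lit 3282000000, nat_lit 4688000000, nat_lit 7968000000], [], [nat_lit 18767211454, nat_lit 18999198921, nat_lit 19727875397, nat_lit 20140893610, nat_lit 19995623286, nat_lit 20209900197, nat_lit 21887832432, nat_lit 22265554944], nat_lit 1271250, nat_lit 1271250, nat_lit 408851, nat_lit 1733250, nat_lit 1271250, nat_lit 1271250, [nat_lit 780000, nat_lit 1100000, nat_lit 1785000], [nat_lit 36, nat_lit 40, nat_lit 40, nat_lit 80, nat_lit 7, nat_lit 272, nat_lit 60, nat_lit 8]⟩, ⟨p066_k17, nat_lit 0, nat_lit 0, nat_lit 39, nat_lit 0, nat_lit 0, [nat_lit 3282000000, nat_lit 4688000000, nat_lit 7968000000], [], [nat_lit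 12269719802, nat_lit 13250088583, nat_lit 16863342112, nat_lit 17593344904, nat_lit 18753644677, nat_lit 19507373376, nat_lit 21627574999, nat_lit 22196292645], nat_lit 0, nat_lit 0, nat_lit 0, nat_lit 0, nat_lit 0, nat_lit 0, [], [nat_lit 36, nat_lit 40, nat_lit 40, nat_lit 80, nat_lit 7, nat_lit 373, nat_lit 150, nat_lit 12]⟩,
 zbF0, [⟨nat_lit 0, nat_lit 100, nat_lit 100, nat_lit 90, nat_lit 361403517⟩, ⟨nat_lit 16, nat_lit 97, nat_lit 100, nat_lit 76, nat_lit 571726030⟩, ⟨nat_lit 19, nat_lit 99, nat_lit 100, nat_lit 77, nat_lit 319530105⟩, ⟨nat_lit 7, nat_lit 100, nat_lit 94, nat_lit 69, nat_lit 369890984⟩]⟩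
noncomputable def b_V_700_700_10_9 : St := ⟨true, nat_lit 1, nat_lit 0, nat_lit 1, nat_lit 80, nat_lit 280, nat_lit 290, nat_lit 280, nat_lit 290, nat_lit 64, nat_lit 240, nat_lit 40, nat_lit 60, nat_lit 240, nat_lit 276, nat_lit 160, nat_lit 276, nat_lit 0, nat_lit 20, nat_lit 0, nat_lit 0, nat_lit 0, nat_lit 0⟩
theorem d_V_700_700_10_9 (h : EB TB.env) : Dead b_V_700_700_10_9 := chkB_sound0 h (T :=
(.spl (nat_lit 0) (nat_lit 285)
(.ord (.spl (nat_lit 6) (nat_lit 8)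
(.spl (nat_lit 2) (nat_lit 120)
(.spl (nat_lit 2) (nat_lit 80)
(.leaf p066_l82)
(.leaf p066_l83))
(.leaf p066_l84))
(.leaf p066_l85)))
(.trZ (nat_lit 0) (nat_lit 100) (nat_lit 99) (nat_lit 82) (nat_lit 68) (.trX (nat_lit 16) (nat_lit 97) (nat_lit 100) (nat_lit 76) (nat_lit 272) (.leaf p066_l86))))) (by decide +kernel)
noncomputable def p066_l87 : Lf2 := ⟨nat_lit 0, nat_lit 10, [nat_lit 0, nat_lit 5, nat_lit 5, nat_lit 20], false, nat_lit 160, nat_lit 200, nat_lit 160, nat_lit 300, ⟨nat_lit 1000, nat_lit 0, nat_lit 0, nat_lit 0, nat_lit 0, nat_lit 0, nat_lit 0, nat_lit 0, nat_lit 0, nat_lit 0, nat_lit 0, nat_lit 0, nat_lit 0, nat_lit 0, nat_lit 0, nat_lit 0, false, false⟩,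
 nat_lit 0, nat_lit 8292, nat_lit 0, nat_lit 0, nat_lit 5276, nat_lit 4979, nat_lit 1747, nat_lit 0, nat_lit 0, nat_lit 0, nat_lit 0, nat_lit 0, nat_lit 0, nat_lit 1015157657361, nat_lit 0, nat_lit 0, nat_lit 0, nat_lit 0, [],
 ⟨p066_k11, nat_lit 0, nat_lit 0, nat_lit 431, nat_lit 0, nat_lit 638693, [nat_lit 3282000000, nat_lit 4688000000, nat_lit 9842000000], [], [nat_lit 27133398791, nat_lit 26452602217, nat_lit 26564772976, nat_lit 26781037386, nat_lit 25162429898, nat_lit 25372128444, nat_lit 27818256120, nat_lit 27593331564], nat_lit 1271250, nat_lit 1271250, nat_lit 382400, nat_lit 1731000, nat_lit 1100001, nat_lit 1442500, [nat_lit 780000, nat_lit 1100000, nat_lit 2127500], [nat_lit 42, nat_lit 40, nat_lit 40, nat_lit 80, nat_lit 13, nat_lit 345, nat_lit 125, nat_lit 10]⟩, ⟨p066_k11, nat_lit 0, nat_lit 0, nat_lit 50, nat_lit 0, nat_lit 0, [nat_lit 3282000000, nat_lit 4688000000, nat_lit 9842000000], [], [nat_lit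 12493913331, nat_lit 12977441592, nat_lit 17033395216, nat_lit 17392640444, nat_lit 20586374357, nat_lit 20934264463, nat_lit 23004939962, nat_lit 23268092553], nat_lit 0, nat_lit 0, nat_lit 0, nat_lit 0, nat_lit 0, nat_lit 0, [], [nat_lit 42, nat_lit 40, nat_lit 40, nat_lit 80, nat_lit 13, nat_lit 373, nat_lit 150, nat_lit 10]⟩,
 zbF0, [⟨nat_lit 0, nat_lit 100, nat_lit 100, nat_lit 85, nat_lit 368256868⟩, ⟨nat_lit 7, nat_lit 99, nat_lit 100, nat_lit 83, nat_lit 606998267⟩]⟩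
noncomputable def p066_l88 : Lf2 := ⟨nat_lit 0, nat_lit 10, [nat_lit 0, nat_lit 5, nat_lit 5, nat_lit 20], false, nat_lit 200, nat_lit 240, nat_lit 160, nat_lit 300, ⟨nat_lit 1000, nat_lit 0, nat_lit 0, nat_lit 0, nat_lit 0, nat_lit 0, nat_lit 0, nat_lit 0, nat_lit 0, nat_lit 0, nat_lit 0, nat_lit 0, nat_lit 0, nat_lit 0, nat_lit 0, nat_lit 0, false, false⟩,
 nat_lit 0, nat_lit 13041, nat_lit 0, nat_lit 0, nat_lit 8298, nat_lit 4992, nat_lit 2067, nat_lit 0, nat_lit 0, nat_lit 0, nat_lit 0, nat_lit 0, nat_lit 0, nat_lit 0, nat_lit 0, nat_lit 0, nat_lit 0, nat_lit 0, [],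
 ⟨p066_k11, nat_lit 0, nat_lit 0, nat_lit 358, nat_lit 0, nat_lit 600834, [nat_lit 3282000000, nat_lit 4688000000, nat_lit 9842000000], [], [nat_lit 18151177795, nat_lit 17518034254, nat_lit 17488353316, nat_lit 17789764282, nat_lit 16771129301, nat_lit 16984023301, nat_lit 19281188704, nat_lit 19555112916], nat_lit 1271250, nat_lit 1271250, nat_lit 382400, nat_lit 1731000, nat_lit 1271250, nat_lit 1271250, [nat_lit 780000, nat_lit 1100000, nat_lit 2127500], [nat_lit 42, nat_lit 40, nat_lit 40, nat_lit 80, nat_lit 13, nat_lit 345, nat_lit 125, nat_lit 9]⟩, ⟨p066_k11, nat_lit 0, nat_lit 0, nat_lit 49, nat_lit 0, nat_lit 0, [nat_lit 3282000000, nat_lit 4688000000, nat_lit 9842000000], [], [nat_lit 12479440660, nat_lit 12770009399, nat_lit 17018558368, nat_lit 17234406835, nat_lit 20581316517, nat_lit 20790334796, nat_lit 22995430176, nat_lit 23153505926], nat_lit 0, nat_lit 0, nat_lit 0, nat_lit 0, nat_lit 0, nat_lit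 0, [], [nat_lit 42, nat_lit 40, nat_lit 40, nat_lit 80, nat_lit 13, nat_lit 373, nat_lit 150, nat_lit 10]⟩,
 zbF0, [⟨nat_lit 0, nat_lit 100, nat_lit 100, nat_lit 83, nat_lit 359992714⟩, ⟨nat_lit 7, nat_lit 99, nat_lit 100, nat_lit 83, nat_lit 609737290⟩]⟩
noncomputable def p066_l89 : Lf2 := ⟨nat_lit 0, nat_lit 10, [nat_lit 0, nat_lit 5, nat_lit 5, nat_lit 20], false, nat_lit 200, nat_lit 240, nat_lit 160, nat_lit 300, ⟨nat_lit 1000, nat_lit 0, nat_lit 0, nat_lit 0, nat_lit 0, nat_lit 0, nat_lit 0, nat_lit 0, nat_lit 0, nat_lit 0, nat_lit 0, nat_lit 0, nat_lit 0, nat_lit 0, nat_lit 0, nat_lit 0, false, false⟩,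
 nat_lit 0, nat_lit 12023, nat_lit 0, nat_lit 0, nat_lit 7750, nat_lit 4979, nat_lit 3683, nat_lit 0, nat_lit 0, nat_lit 0, nat_lit 0, nat_lit 0, nat_lit 0, nat_lit 0, nat_lit 0, nat_lit 0, nat_lit 0, nat_lit 0, [],
 ⟨p066_k20, nat_lit 0, nat_lit 0, nat_lit 421, nat_lit 0, nat_lit 627135, [nat_lit 3282000000, nat_lit 4688000000, nat_lit 9842000000], [], [nat_lit 17724889215, nat_lit 17330668725, nat_lit 17834411513, nat_lit 18026626188, nat_lit 16961959840, nat_lit 17098279101, nat_lit 19558451826, nat_lit 19733374375], nat_lit 1271250, nat_lit 1271250, nat_lit 382400, nat_lit 1731000, nat_lit 1271250, nat_lit 1271250, [nat_lit 780000, nat_lit 1100000, nat_lit 2127500], [nat_lit 42, nat_lit 40, nat_lit 40, nat_lit 80, nat_lit 13, nat_lit 345, nat_lit 125, nat_lit 9]⟩, ⟨p066_k11, nat_lit 0, nat_lit 0, nat_lit 50, nat_lit 0, nat_lit 0, [nat_lit 3282000000, nat_lit 4688000000, nat_lit 9842000000], [], [nat_lit 12493913331,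 nat_lit 12977441592, nat_lit 17033395216, nat_lit 17392640444, nat_lit 20586374357, nat_lit 20934264463, nat_lit 23004939962, nat_lit 23268092553], nat_lit 0, nat_lit 0, nat_lit 0, nat_lit 0, nat_lit 0, nat_lit 0, [], [nat_lit 42, nat_lit 40, nat_lit 40, nat_lit 80, nat_lit 13, nat_lit 373, nat_lit 150, nat_lit 10]⟩,
 zbF0, [⟨nat_lit 0, nat_lit 100, nat_lit 100, nat_lit 85, nat_lit 356426332⟩, ⟨nat_lit 7, nat_lit 99, nat_lit 100, nat_lit 83, nat_lit 606998267⟩]⟩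
noncomputable def p066_l90 : Lf2 := ⟨nat_lit 0, nat_lit 10, [nat_lit 0, nat_lit 5, nat_lit 5, nat_lit 20], false, nat_lit 160, nat_lit 240, nat_lit 160, nat_lit 300, ⟨nat_lit 1000, nat_lit 0, nat_lit 0, nat_lit 0, nat_lit 0, nat_lit 0, nat_lit 0, nat_lit 0, nat_lit 0, nat_lit 0, nat_lit 0, nat_lit 0, nat_lit 0, nat_lit 0, nat_lit 0, nat_lit 0, false, false⟩,
 nat_lit 0, nat_lit 9871, nat_lit 0, nat_lit 0, nat_lit 6418, nat_lit 4973, nat_lit 2742, nat_lit 0, nat_lit 0, nat_lit 0, nat_lit 0, nat_lit 0, nat_lit 0, nat_lit 6742211247557, nat_lit 0, nat_lit 0, nat_lit 0, nat_lit 0, [],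
 ⟨p066_k21, nat_lit 0, nat_lit 0, nat_lit 454, nat_lit 0, nat_lit 712861, [nat_lit 3282000000, nat_lit 4688000000, nat_lit 9842000000], [], [nat_lit 24814267834, nat_lit 23987350251, nat_lit 25193272883, nat_lit 24447337624, nat_lit 20757060961, nat_lit 21026317519, nat_lit 22334914381, nat_lit 22535787336], nat_lit 1271250, nat_lit 1271250, nat_lit 408851, nat_lit 1733250, nat_lit 1271250, nat_lit 1271250, [nat_lit 780000, nat_lit 1100000, nat_lit 2127500], [nat_lit 42, nat_lit 40, nat_lit 40, nat_lit 80, nat_lit 13, nat_lit 345, nat_lit 125, nat_lit 10]⟩, ⟨p066_k11, nat_lit 0, nat_lit 0, nat_lit 51, nat_lit 0, nat_lit 0, [nat_lit 3282000000, nat_lit 4688000000, nat_lit 9842000000], [], [nat_lit 12446556636, nat_lit 13409058784, nat_lit 17040242992, nat_lit 17758269864, nat_lit 20509141885, nat_lit 21201976760, nat_lit 23009329094, nat_lit 23535350898], nat_lit 0, nat_lit 0, nat_lit 0, nat_lit 0, nat_lit 0, nat_lit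 0, [], [nat_lit 42, nat_lit 40, nat_lit 40, nat_lit 80, nat_lit 13, nat_lit 373, nat_lit 150, nat_lit 10]⟩,
 zbF0, [⟨nat_lit 0, nat_lit 100, nat_lit 100, nat_lit 90, nat_lit 377167063⟩, ⟨nat_lit 7, nat_lit 100, nat_lit 99, nat_lit 83, nat_lit 606015202⟩]⟩
noncomputable def p066_l91 : Lf2 := ⟨nat_lit 0, nat_lit 10, [nat_lit 0, nat_lit 5, nat_lit 5, nat_lit 20], false, nat_lit 240, nat_lit 300, nat_lit 160, nat_lit 300, ⟨nat_lit 1000, nat_lit 0, nat_lit 0, nat_lit 0, nat_lit 0, nat_lit 0, nat_lit 0, nat_lit 0, nat_lit 0, nat_lit 0, nat_lit 0, nat_lit 0, nat_lit 0, nat_lit 0, nat_lit 0, nat_lit 0, false, false⟩,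
 nat_lit 0, nat_lit 11093, nat_lit 0, nat_lit 0, nat_lit 7059, nat_lit 5012, nat_lit 1831, nat_lit 0, nat_lit 0, nat_lit 0, nat_lit 0, nat_lit 0, nat_lit 0, nat_lit 0, nat_lit 0, nat_lit 0, nat_lit 0, nat_lit 0, [],
 ⟨p066_k11, nat_lit 0, nat_lit 0, nat_lit 300, nat_lit 0, nat_lit 402385, [nat_lit 3282000000, nat_lit 4688000000, nat_lit 9842000000], [], [nat_lit 19020994696, nat_lit 19615139895, nat_lit 18540226059, nat_lit 19124574225, nat_lit 22125707461, nat_lit 22929009183, nat_lit 21647353515, nat_lit 22299792814], nat_lit 1271250, nat_lit 1271250, nat_lit 382400, nat_lit 490000, nat_lit 1271250, nat_lit 1271250, [nat_lit 780000, nat_lit 1100000, nat_lit 2127500], [nat_lit 42, nat_lit 40, nat_lit 40, nat_lit 80, nat_lit 13, nat_lit 317, nat_lit 100, nat_lit 8]⟩, ⟨p066_k11, nat_lit 0, nat_lit 0, nat_lit 53, nat_lit 0, nat_lit 0, [nat_lit 3282000000, nat_lit 4688000000, nat_lit 9842000000], [], [nat_lit 12457175012,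 nat_lit 13428054313, nat_lit 12236723792, nat_lit 13192076380, nat_lit 20573535225, nat_lit 21343027154, nat_lit 20250448308, nat_lit 20938545810], nat_lit 0, nat_lit 0, nat_lit 0, nat_lit 0, nat_lit 0, nat_lit 0, [], [nat_lit 42, nat_lit 40, nat_lit 40, nat_lit 80, nat_lit 13, nat_lit 317, nat_lit 100, nat_lit 9]⟩,
 zbF0, [⟨nat_lit 0, nat_lit 100, nat_lit 100, nat_lit 85, nat_lit 449419531⟩, ⟨nat_lit 4, nat_lit 100, nat_lit 99, nat_lit 83, nat_lit 156188109⟩, ⟨nat_lit 19, nat_lit 99, nat_lit 100, nat_lit 83, nat_lit 161602124⟩, ⟨nat_lit 11, nat_lit 100, nat_lit 100, nat_lit 85, nat_lit 434764487⟩]⟩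
noncomputable def p066_l92 : Lf2 := ⟨nat_lit 0, nat_lit 10, [nat_lit 0, nat_lit 5, nat_lit 5, nat_lit 20], false, nat_lit 240, nat_lit 300, nat_lit 160, nat_lit 300, ⟨nat_lit 1000, nat_lit 0, nat_lit 0, nat_lit 0, nat_lit 0, nat_lit 0, nat_lit 0, nat_lit 0, nat_lit 0, nat_lit 0, nat_lit 0, nat_lit 0, nat_lit 0, nat_lit 0, nat_lit 0, nat_lit 0, false, false⟩,
 nat_lit 0, nat_lit 11185, nat_lit 0, nat_lit 0, nat_lit 7117, nat_lit 5057, nat_lit 1859, nat_lit 0, nat_lit 0, nat_lit 0, nat_lit 0, nat_lit 0, nat_lit 0, nat_lit 1394270548761, nat_lit 0, nat_lit 0, nat_lit 0, nat_lit 0, [],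
 ⟨p066_k11, nat_lit 0, nat_lit 0, nat_lit 291, nat_lit 0, nat_lit 402385, [nat_lit 3282000000, nat_lit 4688000000, nat_lit 9842000000], [], [nat_lit 18304376367, nat_lit 18891234425, nat_lit 18071789765, nat_lit 18643130876, nat_lit 21555225445, nat_lit 22210629182, nat_lit 21357192199, nat_lit 21995304014], nat_lit 1271250, nat_lit 1271250, nat_lit 490000, nat_lit 631250, nat_lit 1271250, nat_lit 1271250, [nat_lit 780000, nat_lit 1100000, nat_lit 2127500], [nat_lit 42, nat_lit 40, nat_lit 40, nat_lit 80, nat_lit 13, nat_lit 317, nat_lit 100, nat_lit 8]⟩, ⟨p066_k11, nat_lit 0, nat_lit 0, nat_lit 44, nat_lit 0, nat_lit 0, [nat_lit 3282000000, nat_lit 4688000000, nat_lit 9842000000], [], [nat_lit 12181658012, nat_lit 13142120305, nat_lit 12336603678, nat_lit 13272350776, nat_lit 20227379463, nat_lit 20918692598, nat_lit 20191731926, nat_lit 20866526894], nat_lit 0, nat_lit 0, nat_lit 0, nat_lit 0, nat_lit 0, nat_lit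 0, [], [nat_lit 42, nat_lit 40, nat_lit 40, nat_lit 80, nat_lit 13, nat_lit 317, nat_lit 100, nat_lit 9]⟩,
 zbF0, [⟨nat_lit 0, nat_lit 100, nat_lit 100, nat_lit 90, nat_lit 144881140⟩, ⟨nat_lit 16, nat_lit 100, nat_lit 95, nat_lit 87, nat_lit 242619321⟩, ⟨nat_lit 19, nat_lit 100, nat_lit 95, nat_lit 87, nat_lit 221450210⟩, ⟨nat_lit 11, nat_lit 100, nat_lit 100, nat_lit 95, nat_lit 320735247⟩]⟩
noncomputable def p066_l93 : Lf2 := ⟨nat_lit 0, nat_lit 10, [nat_lit 0, nat_lit 5, nat_lit 5, nat_lit 20], false, nat_lit 240, nat_lit 300, nat_lit 160, nat_lit 300, ⟨nat_lit 1000, nat_lit 0, nat_lit 0, nat_lit 0, nat_lit 0, nat_lit 0, nat_lit 0, nat_lit 0, nat_lit 0, nat_lit 0, nat_lit 0, nat_lit 0, nat_lit 0, nat_lit 0, nat_lit 0, nat_lit 0, false, false⟩,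
 nat_lit 0, nat_lit 11911, nat_lit 0, nat_lit 0, nat_lit 7579, nat_lit 5161, nat_lit 1791, nat_lit 0, nat_lit 0, nat_lit 0, nat_lit 0, nat_lit 0, nat_lit 0, nat_lit 0, nat_lit 0, nat_lit 0, nat_lit 0, nat_lit 0, [],
 ⟨p066_k11, nat_lit 0, nat_lit 0, nat_lit 357, nat_lit 0, nat_lit 638693, [nat_lit 3282000000, nat_lit 4688000000, nat_lit 9842000000], [], [nat_lit 18167673561, nat_lit 18440705167, nat_lit 17985013056, nat_lit 18297143162, nat_lit 21352217385, nat_lit 21625226290, nat_lit 21124092399, nat_lit 21389432337], nat_lit 1271250, nat_lit 1271250, nat_lit 631250, nat_lit 780000, nat_lit 1271250, nat_lit 1271250, [nat_lit 780000, nat_lit 1100000, nat_lit 2127500], [nat_lit 42, nat_lit 40, nat_lit 40, nat_lit 80, nat_lit 13, nat_lit 345, nat_lit 125, nat_lit 9]⟩, ⟨p066_k11, nat_lit 0, nat_lit 0, nat_lit 34, nat_lit 0, nat_lit 0, [nat_lit 3282000000, nat_lit 4688000000, nat_lit 9842000000], [], [nat_lit 12202636494,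 nat_lit 12676220553, nat_lit 12350878112, nat_lit 12811910535, nat_lit 20128928562, nat_lit 20469916412, nat_lit 20083792324, nat_lit 20416395616], nat_lit 0, nat_lit 0, nat_lit 0, nat_lit 0, nat_lit 0, nat_lit 0, [], [nat_lit 42, nat_lit 40, nat_lit 40, nat_lit 80, nat_lit 13, nat_lit 345, nat_lit 125, nat_lit 9]⟩,
 zbF0, [⟨nat_lit 16, nat_lit 100, nat_lit 95, nat_lit 87, nat_lit 579899389⟩, ⟨nat_lit 19, nat_lit 100, nat_lit 95, nat_lit 87, nat_lit 572401817⟩]⟩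
noncomputable def p066_l94 : Lf2 := ⟨nat_lit 0, nat_lit 10, [nat_lit 0, nat_lit 5, nat_lit 5, nat_lit 20], false, nat_lit 240, nat_lit 296, nat_lit 160, nat_lit 300, ⟨nat_lit 1000, nat_lit 0, nat_lit 0, nat_lit 0, nat_lit 0, nat_lit 0, nat_lit 0, nat_lit 0, nat_lit 0, nat_lit 0, nat_lit 0, nat_lit 0, nat_lit 0, nat_lit 0, nat_lit 0, nat_lit 0, false, false⟩,
 nat_lit 0, nat_lit 10555, nat_lit 0, nat_lit 0, nat_lit 6862, nat_lit 5127, nat_lit 3158, nat_lit 0, nat_lit 0, nat_lit 0, nat_lit 0, nat_lit 0, nat_lit 0, nat_lit 0, nat_lit 0, nat_lit 0, nat_lit 0, nat_lit 0, [],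
 ⟨p066_k21, nat_lit 0, nat_lit 0, nat_lit 427, nat_lit 0, nat_lit 712861, [nat_lit 3282000000, nat_lit 4688000000, nat_lit 9842000000], [], [nat_lit 18660976807, nat_lit 18928408995, nat_lit 18568237578, nat_lit 18828219386, nat_lit 21152209283, nat_lit 21383891501, nat_lit 20988344648, nat_lit 21213618439], nat_lit 1271250, nat_lit 1271250, nat_lit 631250, nat_lit 780000, nat_lit 1271250, nat_lit 1271250, [nat_lit 780000, nat_lit 1100000, nat_lit 2127500], [nat_lit 42, nat_lit 40, nat_lit 40, nat_lit 80, nat_lit 13, nat_lit 345, nat_lit 125, nat_lit 9]⟩, ⟨p066_k11, nat_lit 0, nat_lit 0, nat_lit 37, nat_lit 0, nat_lit 0, [nat_lit 3282000000, nat_lit 4688000000, nat_lit 9842000000], [], [nat_lit 12246433458, nat_lit 13189867781, nat_lit 12396866784, nat_lit 13315324706, nat_lit 20149460431, nat_lit 20829088584, nat_lit 20107426268, nat_lit 20770367346], nat_lit 0, nat_lit 0, nat_lit 0, nat_lit 0, nat_lit 0, nat_lit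 0, [], [nat_lit 42, nat_lit 40, nat_lit 40, nat_lit 80, nat_lit 13, nat_lit 345, nat_lit 125, nat_lit 9]⟩,
 zbF0, [⟨nat_lit 16, nat_lit 100, nat_lit 98, nat_lit 88, nat_lit 519770253⟩, ⟨nat_lit 19, nat_lit 100, nat_lit 95, nat_lit 87, nat_lit 566049775⟩]⟩
noncomputable def p066_l95 : Lf2 := ⟨nat_lit 0, nat_lit 10, [nat_lit 0, nat_lit 5, nat_lit 5, nat_lit 20], false, nat_lit 240, nat_lit 300, nat_lit 160, nat_lit 300, ⟨nat_lit 1000, nat_lit 0, nat_lit 0, nat_lit 0, nat_lit 0, nat_lit 0, nat_lit 0, nat_lit 0, nat_lit 0, nat_lit 0, nat_lit 0, nat_lit 0, nat_lit 0, nat_lit 0, nat_lit 0, nat_lit 0, false, false⟩,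
 nat_lit 0, nat_lit 11890, nat_lit 0, nat_lit 0, nat_lit 7566, nat_lit 5199, nat_lit 1744, nat_lit 0, nat_lit 0, nat_lit 0, nat_lit 0, nat_lit 0, nat_lit 0, nat_lit 0, nat_lit 0, nat_lit 0, nat_lit 0, nat_lit 0, [],
 ⟨p066_k11, nat_lit 0, nat_lit 0, nat_lit 426, nat_lit 0, nat_lit 734839, [nat_lit 3282000000, nat_lit 4688000000, nat_lit 9842000000], [], [nat_lit 18174520952, nat_lit 18648130800, nat_lit 20215625776, nat_lit 20706881584, nat_lit 21158482846, nat_lit 21688699473, nat_lit 23578889728, nat_lit 24300242734], nat_lit 1271250, nat_lit 1271250, nat_lit 780000, nat_lit 1762500, nat_lit 1271250, nat_lit 1271250, [nat_lit 780000, nat_lit 1100000, nat_lit 2127500], [nat_lit 42, nat_lit 40, nat_lit 40, nat_lit 80, nat_lit 13, nat_lit 373, nat_lit 150, nat_lit 10]⟩, ⟨p066_k11, nat_lit 0, nat_lit 0, nat_lit 29, nat_lit 0, nat_lit 0, [nat_lit 3282000000, nat_lit 4688000000, nat_lit 9842000000], [], [nat_lit 12299479008,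 nat_lit 13225575122, nat_lit 16782310096, nat_lit 17517798632, nat_lit 20057377916, nat_lit 20725116534, nat_lit 22889600392, nat_lit 23482001013], nat_lit 0, nat_lit 0, nat_lit 0, nat_lit 0, nat_lit 0, nat_lit 0, [], [nat_lit 42, nat_lit 40, nat_lit 40, nat_lit 80, nat_lit 13, nat_lit 373, nat_lit 150, nat_lit 10]⟩,
 zbF0, [⟨nat_lit 16, nat_lit 100, nat_lit 95, nat_lit 87, nat_lit 566334916⟩, ⟨nat_lit 19, nat_lit 100, nat_lit 95, nat_lit 87, nat_lit 457464860⟩, ⟨nat_lit 7, nat_lit 100, nat_lit 99, nat_lit 83, nat_lit 108911564⟩]⟩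
noncomputable def b_V_700_700_10_10 : St := ⟨true, nat_lit 1, nat_lit 0, nat_lit 1, nat_lit 80, nat_lit 280, nat_lit 290, nat_lit 280, nat_lit 290, nat_lit 64, nat_lit 240, nat_lit 60, nat_lit 80, nat_lit 160, nat_lit 300, nat_lit 160, nat_lit 300, nat_lit 0, nat_lit 40, nat_lit 0, nat_lit 0, nat_lit 0, nat_lit 0⟩
theorem d_V_700_700_10_10 (h : EB TB.env) : Dead b_V_700_700_10_10 := chkB_sound0 h (T :=
(.spl (nat_lit 4) (nat_lit 240)
(.spl (nat_lit 0) (nat_lit 285)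
(.ord (.spl (nat_lit 4) (nat_lit 200)
(.leaf p066_l87)
(.spl (nat_lit 0) (nat_lit 283)
(.ord (.leaf p066_l88))
(.leaf p066_l89))))
(.trZ (nat_lit 0) (nat_lit 100) (nat_lit 99) (nat_lit 82) (nat_lit 68) (.leaf p066_l90)))
(.spl (nat_lit 2) (nat_lit 120)
(.spl (nat_lit 2) (nat_lit 80)
(.leaf p066_l91)
(.spl (nat_lit 2) (nat_lit 100)
(.leaf p066_l92)
(.spl (nat_lit 0) (nat_lit 285)
(.ord (.leaf p066_l93))
(.trX (nat_lit 16) (nat_lit 100) (nat_lit 98) (nat_lit 88) (nat_lit 296) (.leaf p066_l94)))))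
(.leaf p066_l95)))) (by decide +kernel)
noncomputable def p066_l96 : Lf2 := ⟨nat_lit 0, nat_lit 10, [nat_lit 0, nat_lit 5, nat_lit 5, nat_lit 20], false, nat_lit 160, nat_lit 268, nat_lit 160, nat_lit 276, ⟨nat_lit 1000, nat_lit 0, nat_lit 0, nat_lit 0, nat_lit 0, nat_lit 0, nat_lit 0, nat_lit 0, nat_lit 0, nat_lit 0, nat_lit 0, nat_lit 0, nat_lit 0, nat_lit 0, nat_lit 0, nat_lit 0, false, false⟩,
 nat_lit 0, nat_lit 10293, nat_lit 0, nat_lit 0, nat_lit 6835, nat_lit 5443, nat_lit 3517, nat_lit 0, nat_lit 0, nat_lit 0, nat_lit 0, nat_lit 0, nat_lit 0, nat_lit 7770936341922, nat_lit 0, nat_lit 0, nat_lit 0, nat_lit 0, [],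
 ⟨p066_k6, nat_lit 0, nat_lit 0, nat_lit 514, nat_lit 0, nat_lit 967126, [nat_lit 3282000000, nat_lit 6250000000, nat_lit 7968000000], [], [nat_lit 17478380592, nat_lit 17697934265, nat_lit 17159359000, nat_lit 17374160280, nat_lit 19893892349, nat_lit 20076289014, nat_lit 22387999088, nat_lit 21600830764], nat_lit 1271250, nat_lit 1271250, nat_lit 435600, nat_lit 780000, nat_lit 1100001, nat_lit 2024750, [nat_lit 780000, nat_lit 1435000, nat_lit 1271250], [nat_lit 18, nat_lit 40, nat_lit 40, nat_lit 80, nat_lit 2, nat_lit 317, nat_lit 100, nat_lit 10]⟩, ⟨p066_k0, nat_lit 0, nat_lit 0, nat_lit 50, nat_lit 0, nat_lit 0, [nat_lit 3282000000, nat_lit 6250000000, nat_lit 9842000000], [], [nat_lit 11843333143, nat_lit 13362157636, nat_lit 11969442656, nat_lit 13397414303, nat_lit 18696784587, nat_lit 19987853606, nat_lit 18247669972, nat_lit 19467815877], nat_lit 0, nat_lit 0, nat_lit 0, nat_lit 0, nat_lit 0, nat_lit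 0, [], [nat_lit 8, nat_lit 40, nat_lit 40, nat_lit 80, nat_lit 1, nat_lit 317, nat_lit 100, nat_lit 9]⟩,
 zbF0, [⟨nat_lit 0, nat_lit 100, nat_lit 100, nat_lit 95, nat_lit 412486539⟩, ⟨nat_lit 4, nat_lit 100, nat_lit 91, nat_lit 68, nat_lit 520256252⟩, ⟨nat_lit 7, nat_lit 100, nat_lit 93, nat_lit 69, nat_lit 745328536⟩]⟩
noncomputable def p066_l97 : Lf2 := ⟨nat_lit 0, nat_lit 10, [nat_lit 0, nat_lit 5, nat_lit 5, nat_lit 20], false, nat_lit 160, nat_lit 260, nat_lit 160, nat_lit 276, ⟨nat_lit 1000, nat_lit 0, nat_lit 0, nat_lit 0, nat_lit 0, nat_lit 0, nat_lit 0, nat_lit 0, nat_lit 0, nat_lit 0, nat_lit 0, nat_lit 0, nat_lit 0, nat_lit 0, nat_lit 0, nat_lit 0, false, false⟩,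
 nat_lit 0, nat_lit 9931, nat_lit 0, nat_lit 0, nat_lit 6734, nat_lit 5265, nat_lit 3345, nat_lit 0, nat_lit 0, nat_lit 0, nat_lit 0, nat_lit 0, nat_lit 0, nat_lit 0, nat_lit 0, nat_lit 0, nat_lit 0, nat_lit 0, [],
 ⟨p066_k10, nat_lit 0, nat_lit 0, nat_lit 539, nat_lit 0, nat_lit 1030248, [nat_lit 3282000000, nat_lit 6250000000, nat_lit 7968000000], [], [nat_lit 16376665959, nat_lit 16676708403, nat_lit 16367529706, nat_lit 16649816880, nat_lit 19437010352, nat_lit 19680938549, nat_lit 19493296699, nat_lit 19446379817], nat_lit 1271250, nat_lit 1271250, nat_lit 462650, nat_lit 780000, nat_lit 1100001, nat_lit 1956250, [nat_lit 780000, nat_lit 1435000, nat_lit 1271250], [nat_lit 18, nat_lit 40, nat_lit 40, nat_lit 80, nat_lit 2, nat_lit 317, nat_lit 100, nat_lit 10]⟩, ⟨p066_k0, nat_lit 0, nat_lit 0, nat_lit 50, nat_lit 0, nat_lit 0, [nat_lit 3282000000, nat_lit 6250000000, nat_lit 9842000000], [], [nat_lit 11989227446,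 nat_lit 13965441812, nat_lit 12210206880, nat_lit 14076402460, nat_lit 18507875395, nat_lit 20190955154, nat_lit 18399574461, nat_lit 19837386915], nat_lit 0, nat_lit 0, nat_lit 0, nat_lit 0, nat_lit 0, nat_lit 0, [], [nat_lit 8, nat_lit 40, nat_lit 40, nat_lit 80, nat_lit 1, nat_lit 317, nat_lit 100, nat_lit 9]⟩,
 zbF0, [⟨nat_lit 0, nat_lit 100, nat_lit 98, nat_lit 93, nat_lit 617448707⟩, ⟨nat_lit 16, nat_lit 92, nat_lit 100, nat_lit 75, nat_lit 521878640⟩, ⟨nat_lit 19, nat_lit 99, nat_lit 100, nat_lit 77, nat_lit 65798245⟩, ⟨nat_lit 7, nat_lit 100, nat_lit 92, nat_lit 68, nat_lit 662081998⟩]⟩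
noncomputable def p066_l98 : Lf2 := ⟨nat_lit 0, nat_lit 10, [nat_lit 0, nat_lit 5, nat_lit 5, nat_lit 20], false, nat_lit 160, nat_lit 268, nat_lit 160, nat_lit 276, ⟨nat_lit 1000, nat_lit 0, nat_lit 0, nat_lit 0, nat_lit 0, nat_lit 0, nat_lit 0, nat_lit 0, nat_lit 0, nat_lit 0, nat_lit 0, nat_lit 0, nat_lit 0, nat_lit 0, nat_lit 0, nat_lit 0, false, false⟩,
 nat_lit 0, nat_lit 10154, nat_lit 0, nat_lit 0, nat_lit 6743, nat_lit 5790, nat_lit 3592, nat_lit 0, nat_lit 0, nat_lit 0, nat_lit 0, nat_lit 0, nat_lit 0, nat_lit 22767016330997, nat_lit 0, nat_lit 0, nat_lit 0, nat_lit 0, [],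
 ⟨p066_k6, nat_lit 0, nat_lit 0, nat_lit 531, nat_lit 0, nat_lit 1060802, [nat_lit 3282000000, nat_lit 6250000000, nat_lit 7968000000], [], [nat_lit 20955717297, nat_lit 19225942250, nat_lit 18925216568, nat_lit 19265512176, nat_lit 19689306651, nat_lit 20029032655, nat_lit 26871521019, nat_lit 25338662475], nat_lit 1271250, nat_lit 1271250, nat_lit 780000, nat_lit 1762500, nat_lit 1100001, nat_lit 2024750, [nat_lit 780000, nat_lit 1435000, nat_lit 1271250], [nat_lit 18, nat_lit 40, nat_lit 40, nat_lit 80, nat_lit 2, nat_lit 373, nat_lit 150, nat_lit 12]⟩, ⟨p066_k0, nat_lit 0, nat_lit 0, nat_lit 29, nat_lit 0, nat_lit 0, [nat_lit 3282000000, nat_lit 6250000000, nat_lit 9842000000], [], [nat_lit 11500087680, nat_lit 13477673560, nat_lit 16155896440, nat_lit 17901943320, nat_lit 18298894280, nat_lit 19985189433, nat_lit 21576736961, nat_lit 22915875693], nat_lit 0, nat_lit 0, nat_lit 0, nat_lit 0, nat_lit 0, nat_lit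 0, [], [nat_lit 8, nat_lit 40, nat_lit 40, nat_lit 80, nat_lit 1, nat_lit 373, nat_lit 150, nat_lit 10]⟩,
 zbF0, [⟨nat_lit 4, nat_lit 100, nat_lit 90, nat_lit 68, nat_lit 406818559⟩, ⟨nat_lit 7, nat_lit 100, nat_lit 92, nat_lit 68, nat_lit 790127277⟩]⟩
noncomputable def p066_l99 : Lf2 := ⟨nat_lit 0, nat_lit 10, [nat_lit 0, nat_lit 5, nat_lit 5, nat_lit 20], false, nat_lit 160, nat_lit 240, nat_lit 160, nat_lit 300, ⟨nat_lit 1000, nat_lit 0, nat_lit 0, nat_lit 0, nat_lit 0, nat_lit 0, nat_lit 0, nat_lit 0, nat_lit 0, nat_lit 0, nat_lit 0, nat_lit 0, nat_lit 0, nat_lit 0, nat_lit 0, nat_lit 0, false, false⟩,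
 nat_lit 0, nat_lit 10101, nat_lit 0, nat_lit 0, nat_lit 6708, nat_lit 4935, nat_lit 3541, nat_lit 0, nat_lit 0, nat_lit 0, nat_lit 0, nat_lit 0, nat_lit 0, nat_lit 0, nat_lit 0, nat_lit 0, nat_lit 0, nat_lit 0, [],
 ⟨p066_k22, nat_lit 0, nat_lit 0, nat_lit 466, nat_lit 0, nat_lit 877178, [nat_lit 3282000000, nat_lit 4688000000, nat_lit 7968000000], [], [nat_lit 22112091111, nat_lit 20386116003, nat_lit 17666959301, nat_lit 18090647193, nat_lit 17665301110, nat_lit 18146796677, nat_lit 26435401361, nat_lit 24916683329], nat_lit 1271250, nat_lit 1271250, nat_lit 435600, nat_lit 1735500, nat_lit 1100001, nat_lit 1785000, [nat_lit 780000, nat_lit 1100000, nat_lit 1785000], [nat_lit 36, nat_lit 40, nat_lit 40, nat_lit 80, nat_lit 7, nat_lit 345, nat_lit 125, nat_lit 11]⟩, ⟨p066_k11, nat_lit 0, nat_lit 0, nat_lit 53, nat_lit 0, nat_lit 0, [nat_lit 3282000000, nat_lit 4688000000, nat_lit 9842000000], [], [nat_lit 12436922608,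 nat_lit 14345491407, nat_lit 17083612240, nat_lit 18513793920, nat_lit 20446707432, nat_lit 21821876316, nat_lit 23037126930, nat_lit 24085581095], nat_lit 0, nat_lit 0, nat_lit 0, nat_lit 0, nat_lit 0, nat_lit 0, [], [nat_lit 42, nat_lit 40, nat_lit 40, nat_lit 80, nat_lit 13, nat_lit 373, nat_lit 150, nat_lit 10]⟩,
 zbF0, [⟨nat_lit 0, nat_lit 100, nat_lit 99, nat_lit 92, nat_lit 201644634⟩, ⟨nat_lit 7, nat_lit 100, nat_lit 97, nat_lit 82, nat_lit 611824865⟩]⟩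
noncomputable def p066_l100 : Lf2 := ⟨nat_lit 0, nat_lit 5, [nat_lit 4, nat_lit 5, nat_lit 5, nat_lit 20], false, nat_lit 240, nat_lit 292, nat_lit 160, nat_lit 300, ⟨nat_lit 1000, nat_lit 0, nat_lit 0, nat_lit 0, nat_lit 0, nat_lit 0, nat_lit 0, nat_lit 0, nat_lit 0, nat_lit 0, nat_lit 0, nat_lit 0, nat_lit 0, nat_lit 0, nat_lit 0, nat_lit 0, false, false⟩,
 nat_lit 0, nat_lit 9427, nat_lit 0, nat_lit 0, nat_lit 6260, nat_lit 4968, nat_lit 3694, nat_lit 0, nat_lit 0, nat_lit 0, nat_lit 0, nat_lit 0, nat_lit 0, nat_lit 0, nat_lit 0, nat_lit 0, nat_lit 0, nat_lit 0, [],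
 ⟨p066_k23, nat_lit 0, nat_lit 0, nat_lit 346, nat_lit 0, nat_lit 759886, [nat_lit 3282000000, nat_lit 4688000000, nat_lit 6250000000], [], [nat_lit 19246204489, nat_lit 19494599142, nat_lit 21143977120, nat_lit 21356328680, nat_lit 21518117346, nat_lit 21766688511, nat_lit 23349810987, nat_lit 23682900281], nat_lit 1271250, nat_lit 1271250, nat_lit 435600, nat_lit 1735500, nat_lit 1271250, nat_lit 1271250, [nat_lit 780000, nat_lit 1100000, nat_lit 1442500], [nat_lit 59, nat_lit 40, nat_lit 40, nat_lit 80, nat_lit 3, nat_lit 272, nat_lit 60, nat_lit 9]⟩, ⟨p066_k17, nat_lit 0, nat_lit 0, nat_lit 51, nat_lit 0, nat_lit 0, [nat_lit 3282000000, nat_lit 4688000000, nat_lit 7968000000], [], [nat_lit 12398362663, nat_lit 13835466684, nat_lit 17045949472, nat_lit 18122410300, nat_lit 20431829290, nat_lit 21466778222, nat_lit 23012986704, nat_lit 23801665188], nat_lit 0, nat_lit 0, nat_lit 0, nat_lit 0, nat_lit 0, nat_lit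 0, [], [nat_lit 36, nat_lit 40, nat_lit 40, nat_lit 80, nat_lit 7, nat_lit 373, nat_lit 150, nat_lit 12]⟩,
 zbF0, [⟨nat_lit 0, nat_lit 100, nat_lit 100, nat_lit 95, nat_lit 353813772⟩, ⟨nat_lit 16, nat_lit 100, nat_lit 100, nat_lit 89, nat_lit 511934690⟩, ⟨nat_lit 7, nat_lit 100, nat_lit 98, nat_lit 83, nat_lit 605083068⟩]⟩
noncomputable def p066_l101 : Lf2 := ⟨nat_lit 0, nat_lit 5, [nat_lit 4, nat_lit 5, nat_lit 5, nat_lit 20], false, nat_lit 240, nat_lit 284, nat_lit 160, nat_lit 300, ⟨nat_lit 1000, nat_lit 0, nat_lit 0, nat_lit 0, nat_lit 0, nat_lit 0, nat_lit 0, nat_lit 0, nat_lit 0, nat_lit 0, nat_lit 0, nat_lit 0, nat_lit 0, nat_lit 0, nat_lit 0, nat_lit 0, false, false⟩,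
 nat_lit 0, nat_lit 9294, nat_lit 0, nat_lit 0, nat_lit 6302, nat_lit 4962, nat_lit 2551, nat_lit 0, nat_lit 0, nat_lit 0, nat_lit 0, nat_lit 0, nat_lit 0, nat_lit 1744809774173, nat_lit 0, nat_lit 0, nat_lit 0, nat_lit 0, [],
 ⟨p066_k24, nat_lit 0, nat_lit 0, nat_lit 367, nat_lit 0, nat_lit 825997, [nat_lit 3282000000, nat_lit 4688000000, nat_lit 6250000000], [], [nat_lit 19164022091, nat_lit 19428631169, nat_lit 21188022836, nat_lit 21400987848, nat_lit 21179631021, nat_lit 21433090404, nat_lit 23204285179, nat_lit 23546594297], nat_lit 1271250, nat_lit 1271250, nat_lit 462650, nat_lit 1737750, nat_lit 1271250, nat_lit 1271250, [nat_lit 780000, nat_lit 1100000, nat_lit 1442500], [nat_lit 59, nat_lit 40, nat_lit 40, nat_lit 80, nat_lit 3, nat_lit 272, nat_lit 60, nat_lit 9]⟩, ⟨p066_k17, nat_lit 0, nat_lit 0, nat_lit 51, nat_lit 0, nat_lit 0, [nat_lit 3282000000, nat_lit 4688000000, nat_lit 7968000000], [], [nat_lit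 12351640777, nat_lit 14258697090, nat_lit 17052797248, nat_lit 18487151184, nat_lit 20355307383, nat_lit 21729364912, nat_lit 23017375836, nat_lit 24068380394], nat_lit 0, nat_lit 0, nat_lit 0, nat_lit 0, nat_lit 0, nat_lit 0, [], [nat_lit 36, nat_lit 40, nat_lit 40, nat_lit 80, nat_lit 7, nat_lit 373, nat_lit 150, nat_lit 12]⟩,
 zbF0, [⟨nat_lit 0, nat_lit 100, nat_lit 100, nat_lit 100, nat_lit 336326925⟩, ⟨nat_lit 16, nat_lit 97, nat_lit 100, nat_lit 88, nat_lit 542429223⟩, ⟨nat_lit 7, nat_lit 100, nat_lit 97, nat_lit 82, nat_lit 611571668⟩]⟩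
noncomputable def p066_l102 : Lf2 := ⟨nat_lit 0, nat_lit 10, [nat_lit 0, nat_lit 5, nat_lit 5, nat_lit 20], false, nat_lit 240, nat_lit 292, nat_lit 160, nat_lit 300, ⟨nat_lit 1000, nat_lit 0, nat_lit 0, nat_lit 0, nat_lit 0, nat_lit 0, nat_lit 0, nat_lit 0, nat_lit 0, nat_lit 0, nat_lit 0, nat_lit 0, nat_lit 0, nat_lit 0, nat_lit 0, nat_lit 0, false, false⟩,
 nat_lit 0, nat_lit 9580, nat_lit 0, nat_lit 0, nat_lit 6362, nat_lit 4935, nat_lit 1587, nat_lit 0, nat_lit 0, nat_lit 0, nat_lit 0, nat_lit 0, nat_lit 0, nat_lit 389855739282, nat_lit 0, nat_lit 0, nat_lit 0, nat_lit 0, [],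
 ⟨p066_k22, nat_lit 0, nat_lit 0, nat_lit 293, nat_lit 0, nat_lit 535927, [nat_lit 3282000000, nat_lit 4688000000, nat_lit 7968000000], [], [nat_lit 19310203328, nat_lit 19859019628, nat_lit 21091655904, nat_lit 21575071314, nat_lit 21744904938, nat_lit 22284701853, nat_lit 23380955152, nat_lit 24052904384], nat_lit 1271250, nat_lit 1271250, nat_lit 435600, nat_lit 1735500, nat_lit 1271250, nat_lit 1271250, [nat_lit 780000, nat_lit 1100000, nat_lit 1785000], [nat_lit 36, nat_lit 40, nat_lit 40, nat_lit 80, nat_lit 7, nat_lit 272, nat_lit 60, nat_lit 8]⟩, ⟨p066_k11, nat_lit 0, nat_lit 0, nat_lit 53, nat_lit 0, nat_lit 0, [nat_lit 3282000000, nat_lit 4688000000, nat_lit 9842000000], [], [nat_lit 12436922608, nat_lit 14345491407, nat_lit 17083612240, nat_lit 18513793920, nat_lit 20446707432, nat_lit 21821876316, nat_lit 23037126930, nat_lit 24085581095], nat_lit 0, nat_lit 0, nat_lit 0, nat_lit 0, nat_lit 0, nat_lit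 0, [], [nat_lit 42, nat_lit 40, nat_lit 40, nat_lit 80, nat_lit 13, nat_lit 373, nat_lit 150, nat_lit 10]⟩,
 zbF0, [⟨nat_lit 0, nat_lit 100, nat_lit 100, nat_lit 100, nat_lit 411277602⟩, ⟨nat_lit 16, nat_lit 100, nat_lit 100, nat_lit 89, nat_lit 528577589⟩, ⟨nat_lit 7, nat_lit 100, nat_lit 97, nat_lit 82, nat_lit 526302654⟩]⟩
noncomputable def b_V_700_700_10_11 : St := ⟨true, nat_lit 1, nat_lit 0, nat_lit 1, nat_lit 80, nat_lit 290, nat_lit 300, nat_lit 280, nat_lit 300, nat_lit 64, nat_lit 240, nat_lit 40, nat_lit 80, nat_lit 160, nat_lit 300, nat_lit 160, nat_lit 300, nat_lit 0, nat_lit 40, nat_lit 0, nat_lit 0, nat_lit 0, nat_lit 0⟩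
theorem d_V_700_700_10_11 (h : EB TB.env) : Dead b_V_700_700_10_11 := chkB_sound0 h (T :=
(.trZ (nat_lit 0) (nat_lit 100) (nat_lit 97) (nat_lit 84) (nat_lit 72) (.trX (nat_lit 16) (nat_lit 100) (nat_lit 100) (nat_lit 89) (nat_lit 292) (.spl (nat_lit 3) (nat_lit 60)
(.trX (nat_lit 16) (nat_lit 94) (nat_lit 100) (nat_lit 75) (nat_lit 268) (.trX (nat_lit 19) (nat_lit 99) (nat_lit 100) (nat_lit 77) (nat_lit 276) (.spl (nat_lit 2) (nat_lit 120)
(.spl (nat_lit 0) (nat_lit 295)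
(.ord (.leaf p066_l96))
(.trZ (nat_lit 0) (nat_lit 100) (nat_lit 96) (nat_lit 86) (nat_lit 76) (.trX (nat_lit 16) (nat_lit 92) (nat_lit 100) (nat_lit 75) (nat_lit 260) (.leaf p066_l97))))
(.leaf p066_l98))))
(.spl (nat_lit 4) (nat_lit 240)
(.leaf p066_l99)
(.spl (nat_lit 6) (nat_lit 20)
(.spl (nat_lit 0) (nat_lit 295)
(.ord (.leaf p066_l100))
(.trZ (nat_lit 0) (nat_lit 100) (nat_lit 96) (nat_lit 86) (nat_lit 76) (.trX (nat_lit 16) (nat_lit 97) (nat_lit 100) (nat_lit 88) (nat_lit 284) (.leaf p066_l101))))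
(.leaf p066_l102))))))) (by decide +kernel)
noncomputable def p066_l103 : Lf2 := ⟨nat_lit 0, nat_lit 10, [nat_lit 0, nat_lit 5, nat_lit 5, nat_lit 20], false, nat_lit 0, nat_lit 160, nat_lit 0, nat_lit 160, ⟨nat_lit 1000, nat_lit 0, nat_lit 0, nat_lit 0, nat_lit 0, nat_lit 0, nat_lit 0, nat_lit 0, nat_lit 0, nat_lit 0, nat_lit 0, nat_lit 0, nat_lit 0, nat_lit 0, nat_lit 0, nat_lit 0, false, false⟩,
 nat_lit 0, nat_lit 10347, nat_lit 0, nat_lit 0, nat_lit 7163, nat_lit 7617, nat_lit 2222, nat_lit 0, nat_lit 0, nat_lit 1503, nat_lit 0, nat_lit 0, nat_lit 0, nat_lit 0, nat_lit 0, nat_lit 0, nat_lit 0, nat_lit 0, [],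
 ⟨p066_k1, nat_lit 0, nat_lit 0, nat_lit 726, nat_lit 0, nat_lit 1206840, [nat_lit 3282000000, nat_lit 6250000000, nat_lit 7968000000], [], [nat_lit 23652757018, nat_lit 22854579112, nat_lit 23769637566, nat_lit 26129646240, nat_lit 17231448936, nat_lit 18167343528, nat_lit 27730272544, nat_lit 24568911146], nat_lit 1271250, nat_lit 1271250, nat_lit 490000, nat_lit 1740000, nat_lit 0, nat_lit 1100001, [nat_lit 780000, nat_lit 1435000, nat_lit 1271250], [nat_lit 18, nat_lit 40, nat_lit 40, nat_lit 80, nat_lit 2, nat_lit 317, nat_lit 100, nat_lit 10]⟩, ⟨p066_k0, nat_lit 0, nat_lit 0, nat_lit 187, nat_lit 0, nat_lit 0, [nat_lit 3282000000, nat_lit 6250000000, nat_lit 9842000000], [], [nat_lit 19562886515, nat_lit 21644037160, nat_lit 23470606164, nat_lit 25378115866, nat_lit 14808108404, nat_lit 16956549426, nat_lit 18708864560, nat_lit 20297528506], nat_lit 0, nat_lit 0, nat_lit 0, nat_lit 0, nat_lit 0, nat_lit 0,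 [], [nat_lit 8, nat_lit 40, nat_lit 40, nat_lit 80, nat_lit 1, nat_lit 317, nat_lit 100, nat_lit 9]⟩,
 zbF0, [⟨nat_lit 0, nat_lit 94, nat_lit 87, nat_lit 100, nat_lit 234466553⟩]⟩
noncomputable def p066_l104 : Lf2 := ⟨nat_lit 0, nat_lit 10, [nat_lit 0, nat_lit 5, nat_lit 5, nat_lit 20], false, nat_lit 160, nat_lit 280, nat_lit 0, nat_lit 160, ⟨nat_lit 1000, nat_lit 0, nat_lit 0, nat_lit 0, nat_lit 0, nat_lit 0, nat_lit 0, nat_lit 0, nat_lit 0, nat_lit 0, nat_lit 0, nat_lit 0, nat_lit 0, nat_lit 0, nat_lit 0, nat_lit 0, false, false⟩,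
 nat_lit 0, nat_lit 8501, nat_lit 0, nat_lit 0, nat_lit 5884, nat_lit 7617, nat_lit 1510, nat_lit 0, nat_lit 0, nat_lit 1503, nat_lit 0, nat_lit 0, nat_lit 0, nat_lit 0, nat_lit 0, nat_lit 0, nat_lit 0, nat_lit 0, [],
 ⟨p066_k1, nat_lit 0, nat_lit 0, nat_lit 625, nat_lit 0, nat_lit 1206840, [nat_lit 3282000000, nat_lit 6250000000, nat_lit 7968000000], [], [nat_lit 26243840024, nat_lit 26084653926, nat_lit 26200396030, nat_lit 26698468886, nat_lit 27346856582, nat_lit 27857584294, nat_lit 27501494216, nat_lit 27873280022], nat_lit 1271250, nat_lit 1271250, nat_lit 490000, nat_lit 1740000, nat_lit 1100001, nat_lit 2127500, [nat_lit 780000, nat_lit 1435000, nat_lit 1271250], [nat_lit 18, nat_lit 40, nat_lit 40, nat_lit 80, nat_lit 2, nat_lit 373, nat_lit 150, nat_lit 12]⟩, ⟨p066_k0, nat_lit 0, nat_lit 0, nat_lit 187, nat_lit 0, nat_lit 0, [nat_lit 3282000000, nat_lit 6250000000, nat_lit 9842000000], [], [nat_lit 19562886515,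 nat_lit 21644037160, nat_lit 23470606164, nat_lit 25378115866, nat_lit 14808108404, nat_lit 16956549426, nat_lit 18708864560, nat_lit 20297528506], nat_lit 0, nat_lit 0, nat_lit 0, nat_lit 0, nat_lit 0, nat_lit 0, [], [nat_lit 8, nat_lit 40, nat_lit 40, nat_lit 80, nat_lit 1, nat_lit 317, nat_lit 100, nat_lit 9]⟩,
 zbF0, [⟨nat_lit 0, nat_lit 100, nat_lit 94, nat_lit 97, nat_lit 422833970⟩, ⟨nat_lit 4, nat_lit 100, nat_lit 85, nat_lit 73, nat_lit 424970631⟩]⟩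
noncomputable def p066_l105 : Lf2 := ⟨nat_lit 0, nat_lit 10, [nat_lit 0, nat_lit 5, nat_lit 5, nat_lit 20], false, nat_lit 0, nat_lit 160, nat_lit 160, nat_lit 300, ⟨nat_lit 1000, nat_lit 0, nat_lit 0, nat_lit 0, nat_lit 0, nat_lit 0, nat_lit 0, nat_lit 0, nat_lit 0, nat_lit 0, nat_lit 0, nat_lit 0, nat_lit 0, nat_lit 0, nat_lit 0, nat_lit 0, false, false⟩,
 nat_lit 0, nat_lit 10347, nat_lit 0, nat_lit 0, nat_lit 7163, nat_lit 5553, nat_lit 3724, nat_lit 0, nat_lit 0, nat_lit 0, nat_lit 0, nat_lit 0, nat_lit 0, nat_lit 0, nat_lit 0, nat_lit 0, nat_lit 0, nat_lit 0, [],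
 ⟨p066_k1, nat_lit 0, nat_lit 0, nat_lit 726, nat_lit 0, nat_lit 1206840, [nat_lit 3282000000, nat_lit 6250000000, nat_lit 7968000000], [], [nat_lit 19669960032, nat_lit 22854579112, nat_lit 23769637566, nat_lit 26129646240, nat_lit 17231448936, nat_lit 18167343528, nat_lit 24871778794, nat_lit 21710417396], nat_lit 1271250, nat_lit 1271250, nat_lit 490000, nat_lit 1740000, nat_lit 0, nat_lit 1100001, [nat_lit 780000, nat_lit 1435000, nat_lit 1271250], [nat_lit 18, nat_lit 40, nat_lit 40, nat_lit 80, nat_lit 2, nat_lit 317, nat_lit 100, nat_lit 10]⟩, ⟨p066_k0, nat_lit 0, nat_lit 0, nat_lit 60, nat_lit 0, nat_lit 0, [nat_lit 3282000000, nat_lit 6250000000, nat_lit 9842000000], [], [nat_lit 11574710748, nat_lit 13608275942, nat_lit 16378291312, nat_lit 17903971296, nat_lit 20425387766, nat_lit 22033576726, nat_lit 22992688024, nat_lit 24216060575], nat_lit 0, nat_lit 0, nat_lit 0, nat_lit 0, nat_lit 0, nat_lit 0,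 [], [nat_lit 8, nat_lit 40, nat_lit 40, nat_lit 80, nat_lit 1, nat_lit 373, nat_lit 150, nat_lit 10]⟩,
 zbF0, [⟨nat_lit 0, nat_lit 94, nat_lit 87, nat_lit 100, nat_lit 311248640⟩, ⟨nat_lit 7, nat_lit 100, nat_lit 94, nat_lit 75, nat_lit 738402360⟩]⟩
noncomputable def p066_l106 : Lf2 := ⟨nat_lit 0, nat_lit 10, [nat_lit 0, nat_lit 5, nat_lit 5, nat_lit 20], false, nat_lit 160, nat_lit 256, nat_lit 160, nat_lit 276, ⟨nat_lit 1000, nat_lit 0, nat_lit 0, nat_lit 0, nat_lit 0, nat_lit 0, nat_lit 0, nat_lit 0, nat_lit 0, nat_lit 0, nat_lit 0, nat_lit 0, nat_lit 0, nat_lit 0, nat_lit 0, nat_lit 0, false, false⟩,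
 nat_lit 0, nat_lit 9770, nat_lit 0, nat_lit 0, nat_lit 6763, nat_lit 5443, nat_lit 2013, nat_lit 0, nat_lit 0, nat_lit 0, nat_lit 0, nat_lit 0, nat_lit 0, nat_lit 0, nat_lit 0, nat_lit 0, nat_lit 0, nat_lit 0, [],
 ⟨p066_k1, nat_lit 0, nat_lit 0, nat_lit 610, nat_lit 0, nat_lit 1170475, [nat_lit 3282000000, nat_lit 6250000000, nat_lit 7968000000], [], [nat_lit 18198929681, nat_lit 19107510435, nat_lit 18066079805, nat_lit 18925000523, nat_lit 20394502911, nat_lit 21253526887, nat_lit 20201792134, nat_lit 21013916418], nat_lit 1271250, nat_lit 1271250, nat_lit 490000, nat_lit 780000, nat_lit 1100001, nat_lit 1922000, [nat_lit 780000, nat_lit 1435000, nat_lit 1271250], [nat_lit 18, nat_lit 40, nat_lit 40, nat_lit 80, nat_lit 2, nat_lit 317, nat_lit 100, nat_lit 10]⟩, ⟨p066_k0, nat_lit 0, nat_lit 0, nat_lit 47, nat_lit 0, nat_lit 0, [nat_lit 3282000000, nat_lit 6250000000, nat_lit 9842000000], [], [nat_lit 11709315988,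 nat_lit 13717900402, nat_lit 11969442656, nat_lit 13873404852, nat_lit 18456552061, nat_lit 20166099037, nat_lit 18247669972, nat_lit 19874717577], nat_lit 0, nat_lit 0, nat_lit 0, nat_lit 0, nat_lit 0, nat_lit 0, [], [nat_lit 8, nat_lit 40, nat_lit 40, nat_lit 80, nat_lit 1, nat_lit 317, nat_lit 100, nat_lit 9]⟩,
 zbF0, [⟨nat_lit 0, nat_lit 100, nat_lit 94, nat_lit 97, nat_lit 667809836⟩, ⟨nat_lit 4, nat_lit 100, nat_lit 84, nat_lit 67, nat_lit 564569370⟩, ⟨nat_lit 19, nat_lit 99, nat_lit 100, nat_lit 77, nat_lit 426775498⟩, ⟨nat_lit 7, nat_lit 100, nat_lit 92, nat_lit 68, nat_lit 254266760⟩]⟩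
noncomputable def p066_l107 : Lf2 := ⟨nat_lit 0, nat_lit 10, [nat_lit 0, nat_lit 5, nat_lit 5, nat_lit 20], false, nat_lit 160, nat_lit 280, nat_lit 160, nat_lit 300, ⟨nat_lit 1000, nat_lit 0, nat_lit 0, nat_lit 0, nat_lit 0, nat_lit 0, nat_lit 0, nat_lit 0, nat_lit 0, nat_lit 0, nat_lit 0, nat_lit 0, nat_lit 0, nat_lit 0, nat_lit 0, nat_lit 0, false, false⟩,
 nat_lit 0, nat_lit 9246, nat_lit 0, nat_lit 0, nat_lit 6400, nat_lit 5125, nat_lit 2823, nat_lit 0, nat_lit 0, nat_lit 0, nat_lit 0, nat_lit 0, nat_lit 0, nat_lit 0, nat_lit 0, nat_lit 0, nat_lit 0, nat_lit 0, [],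
 ⟨p066_k1, nat_lit 0, nat_lit 0, nat_lit 525, nat_lit 0, nat_lit 998914, [nat_lit 3282000000, nat_lit 6250000000, nat_lit 7968000000], [], [nat_lit 18121368800, nat_lit 19283312000, nat_lit 18181434000, nat_lit 19280641600, nat_lit 21876155400, nat_lit 22861080400, nat_lit 21707223800, nat_lit 22561810400], nat_lit 1271250, nat_lit 1271250, nat_lit 490000, nat_lit 780000, nat_lit 1100001, nat_lit 2127500, [nat_lit 780000, nat_lit 1435000, nat_lit 1271250], [nat_lit 18, nat_lit 40, nat_lit 40, nat_lit 80, nat_lit 2, nat_lit 317, nat_lit 100, nat_lit 10]⟩, ⟨p066_k0, nat_lit 0, nat_lit 0, nat_lit 60, nat_lit 0, nat_lit 0, [nat_lit 3282000000, nat_lit 6250000000, nat_lit 9842000000], [], [nat_lit 12098447500, nat_lit 14034814750, nat_lit 12399572000, nat_lit 14236063500, nat_lit 20192519875, nat_lit 21730534750, nat_lit 20108816500, nat_lit 21434432125], nat_lit 0, nat_lit 0, nat_lit 0, nat_lit 0, nat_lit 0, nat_lit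 0, [], [nat_lit 8, nat_lit 40, nat_lit 40, nat_lit 80, nat_lit 1, nat_lit 345, nat_lit 125, nat_lit 9]⟩,
 zbF0, [⟨nat_lit 0, nat_lit 100, nat_lit 94, nat_lit 97, nat_lit 475419888⟩, ⟨nat_lit 0, nat_lit 100, nat_lit 94, nat_lit 88, nat_lit 184164549⟩, ⟨nat_lit 16, nat_lit 94, nat_lit 100, nat_lit 87, nat_lit 429773618⟩, ⟨nat_lit 19, nat_lit 100, nat_lit 95, nat_lit 87, nat_lit 568926406⟩]⟩
noncomputable def p066_l108 : Lf2 := ⟨nat_lit 0, nat_lit 10, [nat_lit 0, nat_lit 5, nat_lit 5, nat_lit 20], false, nat_lit 160, nat_lit 280, nat_lit 160, nat_lit 300, ⟨nat_lit 1000, nat_lit 0, nat_lit 0, nat_lit 0, nat_lit 0, nat_lit 0, nat_lit 0, nat_lit 0, nat_lit 0, nat_lit 0, nat_lit 0, nat_lit 0, nat_lit 0, nat_lit 0, nat_lit 0, nat_lit 0, false, false⟩,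
 nat_lit 0, nat_lit 9595, nat_lit 0, nat_lit 0, nat_lit 6642, nat_lit 5131, nat_lit 2020, nat_lit 0, nat_lit 0, nat_lit 0, nat_lit 0, nat_lit 0, nat_lit 0, nat_lit 0, nat_lit 0, nat_lit 0, nat_lit 0, nat_lit 0, [],
 ⟨p066_k1, nat_lit 0, nat_lit 0, nat_lit 606, nat_lit 0, nat_lit 1206840, [nat_lit 3282000000, nat_lit 6250000000, nat_lit 7968000000], [], [nat_lit 19335855500, nat_lit 19539272168, nat_lit 20482444768, nat_lit 21266075224, nat_lit 21626032762, nat_lit 22386311772, nat_lit 26857296908, nat_lit 24833743604], nat_lit 1271250, nat_lit 1271250, nat_lit 780000, nat_lit 1762500, nat_lit 1100001, nat_lit 2127500, [nat_lit 780000, nat_lit 1435000, nat_lit 1271250], [nat_lit 18, nat_lit 40, nat_lit 40, nat_lit 80, nat_lit 2, nat_lit 373, nat_lit 150, nat_lit 12]⟩, ⟨p066_k0, nat_lit 0, nat_lit 0, nat_lit 42, nat_lit 0, nat_lit 0, [nat_lit 3282000000, nat_lit 6250000000, nat_lit 9842000000], [], [nat_lit 12391456352,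 nat_lit 14229220884, nat_lit 16859918224, nat_lit 18320387392, nat_lit 20104645804, nat_lit 21431061019, nat_lit 22893748618, nat_lit 24047190312], nat_lit 0, nat_lit 0, nat_lit 0, nat_lit 0, nat_lit 0, nat_lit 0, [], [nat_lit 8, nat_lit 40, nat_lit 40, nat_lit 80, nat_lit 1, nat_lit 373, nat_lit 150, nat_lit 10]⟩,
 zbF0, [⟨nat_lit 0, nat_lit 94, nat_lit 87, nat_lit 100, nat_lit 220850297⟩, ⟨nat_lit 4, nat_lit 100, nat_lit 85, nat_lit 73, nat_lit 537273498⟩, ⟨nat_lit 19, nat_lit 94, nat_lit 100, nat_lit 75, nat_lit 220410435⟩, ⟨nat_lit 19, nat_lit 100, nat_lit 95, nat_lit 87, nat_lit 369488106⟩]⟩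
noncomputable def b_V_700_700_10_12 : St := ⟨true, nat_lit 1, nat_lit 0, nat_lit 1, nat_lit 80, nat_lit 300, nat_lit 320, nat_lit 280, nat_lit 300, nat_lit 64, nat_lit 240, nat_lit 40, nat_lit 80, nat_lit 0, nat_lit 300, nat_lit 0, nat_lit 300, nat_lit 0, nat_lit 40, nat_lit 0, nat_lit 0, nat_lit 0, nat_lit 0⟩
theorem d_V_700_700_10_12 (h : EB TB.env) : Dead b_V_700_700_10_12 := chkB_sound0 h (T :=
(.trZ (nat_lit 0) (nat_lit 100) (nat_lit 94) (nat_lit 88) (nat_lit 80) (.trX (nat_lit 16) (nat_lit 94) (nat_lit 100) (nat_lit 87) (nat_lit 280) (.spl (nat_lit 5) (nat_lit 160)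
(.spl (nat_lit 4) (nat_lit 160)
(.leaf p066_l103)
(.leaf p066_l104))
(.spl (nat_lit 4) (nat_lit 160)
(.leaf p066_l105)
(.spl (nat_lit 2) (nat_lit 120)
(.spl (nat_lit 3) (nat_lit 60)
(.trX (nat_lit 16) (nat_lit 90) (nat_lit 100) (nat_lit 74) (nat_lit 256) (.trX (nat_lit 19) (nat_lit 99) (nat_lit 100) (nat_lit 77) (nat_lit 276) (.leaf p066_l106)))
(.leaf p066_l107))
(.leaf p066_l108))))))) (by decide +kernel)
noncomputable def p066_l109 : Lf2 := ⟨nat_lit 0, nat_lit 10, [nat_lit 0, nat_lit 5, nat_lit 5, nat_lit 20], false, nat_lit 0, nat_lit 276, nat_lit 0, nat_lit 276, ⟨nat_lit 1000, nat_lit 0, nat_lit 0, nat_lit 0, nat_lit 0, nat_lit 0, nat_lit 0, nat_lit 0, nat_lit 0, nat_lit 0, nat_lit 0, nat_lit 0, nat_lit 0, nat_lit 0, nat_lit 0, nat_lit 0, false, false⟩,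
 nat_lit 0, nat_lit 10224, nat_lit 0, nat_lit 0, nat_lit 6506, nat_lit 6959, nat_lit 2002, nat_lit 0, nat_lit 0, nat_lit 1605, nat_lit 0, nat_lit 0, nat_lit 0, nat_lit 0, nat_lit 0, nat_lit 0, nat_lit 0, nat_lit 0, [],
 ⟨p066_k11, nat_lit 0, nat_lit 0, nat_lit 601, nat_lit 0, nat_lit 928710, [nat_lit 3282000000, nat_lit 4688000000, nat_lit 9842000000], [], [nat_lit 29275330832, nat_lit 29666134786, nat_lit 37042615696, nat_lit 37650993906, nat_lit 28803846184, nat_lit 29052793951, nat_lit 32684376702, nat_lit 32832870898], nat_lit 1271250, nat_lit 1271250, nat_lit 1271250, nat_lit 1271250, nat_lit 0, nat_lit 1949250, [nat_lit 780000, nat_lit 1100000, nat_lit 2127500], [nat_lit 42, nat_lit 40, nat_lit 40, nat_lit 80, nat_lit 13, nat_lit 401, nat_lit 175, nat_lit 11]⟩, ⟨p066_k11, nat_lit 0, nat_lit 0, nat_lit 206, nat_lit 0, nat_lit 0, [nat_lit 3282000000, nat_lit 4688000000, nat_lit 9842000000], [], [nat_lit 23673689865,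 nat_lit 24406700318, nat_lit 38227942744, nat_lit 38856835059, nat_lit 22321527068, nat_lit 22840731844, nat_lit 32897681823, nat_lit 33319005619], nat_lit 0, nat_lit 0, nat_lit 0, nat_lit 0, nat_lit 0, nat_lit 0, [], [nat_lit 42, nat_lit 40, nat_lit 40, nat_lit 80, nat_lit 13, nat_lit 401, nat_lit 175, nat_lit 11]⟩,
 zbF0, [⟨nat_lit 16, nat_lit 94, nat_lit 100, nat_lit 69, nat_lit 134794361⟩, ⟨nat_lit 7, nat_lit 100, nat_lit 94, nat_lit 69, nat_lit 114767021⟩]⟩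
noncomputable def p066_l110 : Lf2 := ⟨nat_lit 0, nat_lit 10, [nat_lit 0, nat_lit 5, nat_lit 5, nat_lit 20], false, nat_lit 0, nat_lit 300, nat_lit 0, nat_lit 300, ⟨nat_lit 1000, nat_lit 0, nat_lit 0, nat_lit 0, nat_lit 0, nat_lit 0, nat_lit 0, nat_lit 0, nat_lit 0, nat_lit 0, nat_lit 0, nat_lit 0, nat_lit 0, nat_lit 0, nat_lit 0, nat_lit 0, false, false⟩,
 nat_lit 0, nat_lit 9769, nat_lit 0, nat_lit 0, nat_lit 6216, nat_lit 6872, nat_lit 1303, nat_lit 0, nat_lit 0, nat_lit 1557, nat_lit 0, nat_lit 0, nat_lit 0, nat_lit 37176456651396, nat_lit 0, nat_lit 0, nat_lit 0, nat_lit 0, [],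
 ⟨p066_k11, nat_lit 0, nat_lit 0, nat_lit 500, nat_lit 0, nat_lit 734839, [nat_lit 3282000000, nat_lit 4688000000, nat_lit 9842000000], [], [nat_lit 29365891375, nat_lit 29726109687, nat_lit 36283797056, nat_lit 36879042616, nat_lit 28846958175, nat_lit 29065298686, nat_lit 33166249040, nat_lit 33350737890], nat_lit 1271250, nat_lit 1271250, nat_lit 1271250, nat_lit 1271250, nat_lit 0, nat_lit 2118750, [nat_lit 780000, nat_lit 1100000, nat_lit 2127500], [nat_lit 42, nat_lit 40, nat_lit 40, nat_lit 80, nat_lit 13, nat_lit 401, nat_lit 175, nat_lit 11]⟩, ⟨p066_k11, nat_lit 0, nat_lit 0, nat_lit 206, nat_lit 0, nat_lit 0, [nat_lit 3282000000, nat_lit 4688000000, nat_lit 9842000000], [], [nat_lit 23899206045, nat_lit 24627008069, nat_lit 38000297152, nat_lit 38625249672, nat_lit 23625696280, nat_lit 24108117726, nat_lit 33690175408, nat_lit 34079253830], nat_lit 0, nat_lit 0, nat_lit 0, nat_lit 0, nat_lit 0, nat_lit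 0, [], [nat_lit 42, nat_lit 40, nat_lit 40, nat_lit 80, nat_lit 13, nat_lit 401, nat_lit 175, nat_lit 11]⟩,
 zbF0, [⟨nat_lit 16, nat_lit 99, nat_lit 100, nat_lit 83, nat_lit 148198790⟩, ⟨nat_lit 7, nat_lit 100, nat_lit 99, nat_lit 83, nat_lit 127580869⟩]⟩
noncomputable def p066_l111 : Lf2 := ⟨nat_lit 0, nat_lit 10, [nat_lit 0, nat_lit 5, nat_lit 5, nat_lit 20], false, nat_lit 0, nat_lit 292, nat_lit 0, nat_lit 300, ⟨nat_lit 1000, nat_lit 0, nat_lit 0, nat_lit 0, nat_lit 0, nat_lit 0, nat_lit 0, nat_lit 0, nat_lit 0, nat_lit 0, nat_lit 0, nat_lit 0, nat_lit 0, nat_lit 0, nat_lit 0, nat_lit 0, false, false⟩,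
 nat_lit 0, nat_lit 9864, nat_lit 0, nat_lit 0, nat_lit 6550, nat_lit 7898, nat_lit 2622, nat_lit 0, nat_lit 0, nat_lit 938, nat_lit 0, nat_lit 0, nat_lit 0, nat_lit 21911757753764, nat_lit 0, nat_lit 0, nat_lit 0, nat_lit 0, [],
 ⟨p066_k6, nat_lit 0, nat_lit 0, nat_lit 565, nat_lit 0, nat_lit 997710, [nat_lit 3282000000, nat_lit 6250000000, nat_lit 7968000000], [], [nat_lit 26623725150, nat_lit 26757311475, nat_lit 29020088100, nat_lit 29451169050, nat_lit 24767576590, nat_lit 24845751965, nat_lit 27812083886, nat_lit 28082004648], nat_lit 1271250, nat_lit 1271250, nat_lit 1271250, nat_lit 1271250, nat_lit 0, nat_lit 2062250, [nat_lit 780000, nat_lit 1435000, nat_lit 1271250], [nat_lit 18, nat_lit 40, nat_lit 40, nat_lit 80, nat_lit 2, nat_lit 289, nat_lit 75, nat_lit 9]⟩, ⟨p066_k0, nat_lit 0, nat_lit 0, nat_lit 185, nat_lit 0, nat_lit 0, [nat_lit 3282000000, nat_lit 6250000000, nat_lit 9842000000], [], [nat_lit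 25821573530, nat_lit 27005411879, nat_lit 30998281074, nat_lit 31922586018, nat_lit 24552957000, nat_lit 25248945326, nat_lit 28500208392, nat_lit 29365253120], nat_lit 0, nat_lit 0, nat_lit 0, nat_lit 0, nat_lit 0, nat_lit 0, [], [nat_lit 8, nat_lit 40, nat_lit 40, nat_lit 80, nat_lit 1, nat_lit 401, nat_lit 175, nat_lit 11]⟩,
 zbF0, [⟨nat_lit 4, nat_lit 100, nat_lit 93, nat_lit 75, nat_lit 209212612⟩, ⟨nat_lit 19, nat_lit 95, nat_lit 100, nat_lit 76, nat_lit 191166776⟩]⟩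
noncomputable def p066_l112 : Lf2 := ⟨nat_lit 0, nat_lit 10, [nat_lit 0, nat_lit 5, nat_lit 5, nat_lit 20], false, nat_lit 0, nat_lit 284, nat_lit 0, nat_lit 300, ⟨nat_lit 1000, nat_lit 0, nat_lit 0, nat_lit 0, nat_lit 0, nat_lit 0, nat_lit 0, nat_lit 0, nat_lit 0, nat_lit 0, nat_lit 0, nat_lit 0, nat_lit 0, nat_lit 0, nat_lit 0, nat_lit 0, false, false⟩,
 nat_lit 0, nat_lit 8948, nat_lit 0, nat_lit 0, nat_lit 6068, nat_lit 8211, nat_lit 2269, nat_lit 0, nat_lit 0, nat_lit 932, nat_lit 0, nat_lit 0, nat_lit 0, nat_lit 0, nat_lit 0, nat_lit 0, nat_lit 0, nat_lit 0, [],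
 ⟨p066_k10, nat_lit 0, nat_lit 0, nat_lit 604, nat_lit 0, nat_lit 1062413, [nat_lit 3282000000, nat_lit 6250000000, nat_lit 7968000000], [], [nat_lit 26131577381, nat_lit 26284053747, nat_lit 28568101188, nat_lit 28980505120, nat_lit 25745678665, nat_lit 25873044461, nat_lit 27599091196, nat_lit 27718672344], nat_lit 1271250, nat_lit 1271250, nat_lit 1271250, nat_lit 1271250, nat_lit 0, nat_lit 2005750, [nat_lit 780000, nat_lit 1435000, nat_lit 1271250], [nat_lit 18, nat_lit 40, nat_lit 40, nat_lit 80, nat_lit 2, nat_lit 289, nat_lit 75, nat_lit 9]⟩, ⟨p066_k0, nat_lit 0, nat_lit 0, nat_lit 187, nat_lit 0, nat_lit 0, [nat_lit 3282000000, nat_lit 6250000000, nat_lit 9842000000], [], [nat_lit 25909364960, nat_lit 27525292834, nat_lit 31196507668, nat_lit 32989715240, nat_lit 24337769125, nat_lit 25282149438, nat_lit 28689918944, nat_lit 29866478609], nat_lit 0, nat_lit 0, nat_lit 0, nat_lit 0, nat_lit 0, nat_lit 0,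 [], [nat_lit 8, nat_lit 40, nat_lit 40, nat_lit 80, nat_lit 1, nat_lit 401, nat_lit 175, nat_lit 11]⟩,
 zbF0, [⟨nat_lit 4, nat_lit 100, nat_lit 91, nat_lit 74, nat_lit 229395431⟩, ⟨nat_lit 7, nat_lit 100, nat_lit 94, nat_lit 75, nat_lit 202352904⟩]⟩
noncomputable def p066_l113 : Lf2 := ⟨nat_lit 0, nat_lit 10, [nat_lit 0, nat_lit 5, nat_lit 5, nat_lit 20], false, nat_lit 0, nat_lit 292, nat_lit 0, nat_lit 300, ⟨nat_lit 1000, nat_lit 0, nat_lit 0, nat_lit 0, nat_lit 0, nat_lit 0, nat_lit 0, nat_lit 0, nat_lit 0, nat_lit 0, nat_lit 0, nat_lit 0, nat_lit 0, nat_lit 0, nat_lit 0, nat_lit 0, false, false⟩,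
 nat_lit 0, nat_lit 8941, nat_lit 0, nat_lit 0, nat_lit 5937, nat_lit 6249, nat_lit 2365, nat_lit 0, nat_lit 0, nat_lit 828, nat_lit 0, nat_lit 0, nat_lit 0, nat_lit 30606672905329, nat_lit 0, nat_lit 0, nat_lit 0, nat_lit 0, [],
 ⟨p066_k6, nat_lit 0, nat_lit 0, nat_lit 568, nat_lit 0, nat_lit 997710, [nat_lit 3282000000, nat_lit 6250000000, nat_lit 7968000000], [], [nat_lit 32370161753, nat_lit 32476436411, nat_lit 36136372237, nat_lit 36427677760, nat_lit 30393398900, nat_lit 30455982383, nat_lit 32764038914, nat_lit 32954245621], nat_lit 1271250, nat_lit 1271250, nat_lit 1271250, nat_lit 1271250, nat_lit 0, nat_lit 2062250, [nat_lit 780000, nat_lit 1435000, nat_lit 1271250], [nat_lit 18, nat_lit 40, nat_lit 40, nat_lit 80, nat_lit 2, nat_lit 289, nat_lit 75, nat_lit 9]⟩, ⟨p066_k0, nat_lit 0, nat_lit 0, nat_lit 216, nat_lit 0, nat_lit 0, [nat_lit 3282000000, nat_lit 6250000000, nat_lit 9842000000], [], [nat_lit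 30859812812, nat_lit 31682080934, nat_lit 36662821292, nat_lit 37265828720, nat_lit 29343540067, nat_lit 29847353712, nat_lit 33629006788, nat_lit 34083386784], nat_lit 0, nat_lit 0, nat_lit 0, nat_lit 0, nat_lit 0, nat_lit 0, [], [nat_lit 8, nat_lit 40, nat_lit 40, nat_lit 80, nat_lit 1, nat_lit 289, nat_lit 75, nat_lit 8]⟩,
 zbF0, [⟨nat_lit 16, nat_lit 93, nat_lit 100, nat_lit 75, nat_lit 170859997⟩, ⟨nat_lit 7, nat_lit 100, nat_lit 95, nat_lit 76, nat_lit 176707923⟩]⟩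
noncomputable def p066_l114 : Lf2 := ⟨nat_lit 0, nat_lit 10, [nat_lit 0, nat_lit 5, nat_lit 5, nat_lit 20], false, nat_lit 0, nat_lit 284, nat_lit 0, nat_lit 300, ⟨nat_lit 1000, nat_lit 0, nat_lit 0, nat_lit 0, nat_lit 0, nat_lit 0, nat_lit 0, nat_lit 0, nat_lit 0, nat_lit 0, nat_lit 0, nat_lit 0, nat_lit 0, nat_lit 0, nat_lit 0, nat_lit 0, false, false⟩,
 nat_lit 0, nat_lit 8348, nat_lit 0, nat_lit 0, nat_lit 5661, nat_lit 6046, nat_lit 2098, nat_lit 0, nat_lit 0, nat_lit 864, nat_lit 0, nat_lit 0, nat_lit 0, nat_lit 28256205117638, nat_lit 0, nat_lit 0, nat_lit 0, nat_lit 0, [],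
 ⟨p066_k10, nat_lit 0, nat_lit 0, nat_lit 602, nat_lit 0, nat_lit 1062413, [nat_lit 3282000000, nat_lit 6250000000, nat_lit 7968000000], [], [nat_lit 31483374477, nat_lit 31625361568, nat_lit 35686743754, nat_lit 35971799946, nat_lit 30948083984, nat_lit 31038596315, nat_lit 33103480263, nat_lit 33184326485], nat_lit 1271250, nat_lit 1271250, nat_lit 1271250, nat_lit 1271250, nat_lit 0, nat_lit 2005750, [nat_lit 780000, nat_lit 1435000, nat_lit 1271250], [nat_lit 18, nat_lit 40, nat_lit 40, nat_lit 80, nat_lit 2, nat_lit 289, nat_lit 75, nat_lit 9]⟩, ⟨p066_k0, nat_lit 0, nat_lit 0, nat_lit 217, nat_lit 0, nat_lit 0, [nat_lit 3282000000, nat_lit 6250000000, nat_lit 9842000000], [], [nat_lit 30525855648, nat_lit 31605464832, nat_lit 36221777568, nat_lit 37016835984, nat_lit 29372639142, nat_lit 30179618630, nat_lit 33695547752, nat_lit 34297022028], nat_lit 0, nat_lit 0, nat_lit 0, nat_lit 0, nat_lit 0, nat_lit 0,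 [], [nat_lit 8, nat_lit 40, nat_lit 40, nat_lit 80, nat_lit 1, nat_lit 289, nat_lit 75, nat_lit 8]⟩,
 zbF0, [⟨nat_lit 4, nat_lit 100, nat_lit 91, nat_lit 74, nat_lit 189494064⟩, ⟨nat_lit 19, nat_lit 94, nat_lit 100, nat_lit 75, nat_lit 201582512⟩]⟩
noncomputable def p066_l115 : Lf2 := ⟨nat_lit 0, nat_lit 10, [nat_lit 0, nat_lit 5, nat_lit 5, nat_lit 20], false, nat_lit 0, nat_lit 256, nat_lit 0, nat_lit 276, ⟨nat_lit 1000, nat_lit 0, nat_lit 0, nat_lit 0, nat_lit 0, nat_lit 0, nat_lit 0, nat_lit 0, nat_lit 0, nat_lit 0, nat_lit 0, nat_lit 0, nat_lit 0, nat_lit 0, nat_lit 0, nat_lit 0, false, false⟩,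
 nat_lit 0, nat_lit 7890, nat_lit 0, nat_lit 0, nat_lit 5462, nat_lit 7584, nat_lit 1711, nat_lit 0, nat_lit 0, nat_lit 965, nat_lit 0, nat_lit 0, nat_lit 0, nat_lit 0, nat_lit 0, nat_lit 0, nat_lit 0, nat_lit 0, [],
 ⟨p066_k1, nat_lit 0, nat_lit 0, nat_lit 647, nat_lit 0, nat_lit 1170475, [nat_lit 3282000000, nat_lit 6250000000, nat_lit 7968000000], [], [nat_lit 30691796987, nat_lit 31213746103, nat_lit 35433069932, nat_lit 36555271272, nat_lit 30048061857, nat_lit 30515787454, nat_lit 33941293373, nat_lit 34289356882], nat_lit 1271250, nat_lit 1271250, nat_lit 1271250, nat_lit 1271250, nat_lit 0, nat_lit 1808000, [nat_lit 780000, nat_lit 1435000, nat_lit 1271250], [nat_lit 18, nat_lit 40, nat_lit 40, nat_lit 80, nat_lit 2, nat_lit 289, nat_lit 75, nat_lit 9]⟩, ⟨p066_k0, nat_lit 0, nat_lit 0, nat_lit 217, nat_lit 0, nat_lit 0, [nat_lit 3282000000, nat_lit 6250000000, nat_lit 9842000000], [], [nat_lit 25599289865,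 nat_lit 27140144521, nat_lit 39863327744, nat_lit 41177718624, nat_lit 23574015976, nat_lit 24554764534, nat_lit 33558147948, nat_lit 34428870353], nat_lit 0, nat_lit 0, nat_lit 0, nat_lit 0, nat_lit 0, nat_lit 0, [], [nat_lit 8, nat_lit 40, nat_lit 40, nat_lit 80, nat_lit 1, nat_lit 401, nat_lit 175, nat_lit 11]⟩,
 zbF0, [⟨nat_lit 16, nat_lit 84, nat_lit 100, nat_lit 67, nat_lit 223086950⟩, ⟨nat_lit 7, nat_lit 100, nat_lit 92, nat_lit 68, nat_lit 83936736⟩]⟩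
noncomputable def p066_l116 : Lf2 := ⟨nat_lit 0, nat_lit 10, [nat_lit 0, nat_lit 5, nat_lit 5, nat_lit 20], false, nat_lit 0, nat_lit 280, nat_lit 0, nat_lit 300, ⟨nat_lit 1000, nat_lit 0, nat_lit 0, nat_lit 0, nat_lit 0, nat_lit 0, nat_lit 0, nat_lit 0, nat_lit 0, nat_lit 0, nat_lit 0, nat_lit 0, nat_lit 0, nat_lit 0, nat_lit 0, nat_lit 0, false, false⟩,
 nat_lit 0, nat_lit 7813, nat_lit 0, nat_lit 0, nat_lit 5409, nat_lit 7649, nat_lit 1728, nat_lit 0, nat_lit 0, nat_lit 928, nat_lit 0, nat_lit 0, nat_lit 0, nat_lit 0, nat_lit 0, nat_lit 0, nat_lit 0, nat_lit 0, [],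
 ⟨p066_k1, nat_lit 0, nat_lit 0, nat_lit 568, nat_lit 0, nat_lit 998914, [nat_lit 3282000000, nat_lit 6250000000, nat_lit 7968000000], [], [nat_lit 29359037186, nat_lit 29949042168, nat_lit 35289589074, nat_lit 36406990204, nat_lit 29295943713, nat_lit 29797726082, nat_lit 33460962032, nat_lit 33833111988], nat_lit 1271250, nat_lit 1271250, nat_lit 1271250, nat_lit 1271250, nat_lit 0, nat_lit 1977500, [nat_lit 780000, nat_lit 1435000, nat_lit 1271250], [nat_lit 18, nat_lit 40, nat_lit 40, nat_lit 80, nat_lit 2, nat_lit 289, nat_lit 75, nat_lit 9]⟩, ⟨p066_k0, nat_lit 0, nat_lit 0, nat_lit 217, nat_lit 0, nat_lit 0, [nat_lit 3282000000, nat_lit 6250000000, nat_lit 9842000000], [], [nat_lit 25846235140, nat_lit 27394872506, nat_lit 40033407784, nat_lit 41353685714, nat_lit 24818646875, nat_lit 25736095219, nat_lit 34540787611, nat_lit 35348268047], nat_lit 0, nat_lit 0, nat_lit 0, nat_lit 0, nat_lit 0, nat_lit 0, [],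 [nat_lit 8, nat_lit 40, nat_lit 40, nat_lit 80, nat_lit 1, nat_lit 401, nat_lit 175, nat_lit 11]⟩,
 zbF0, [⟨nat_lit 16, nat_lit 87, nat_lit 100, nat_lit 79, nat_lit 188795036⟩, ⟨nat_lit 7, nat_lit 100, nat_lit 97, nat_lit 82, nat_lit 101225660⟩]⟩
noncomputable def b_V_700_700_10_13 : St := ⟨true, nat_lit 1, nat_lit 0, nat_lit 1, nat_lit 80, nat_lit 280, nat_lit 320, nat_lit 280, nat_lit 300, nat_lit 240, nat_lit 400, nat_lit 40, nat_lit 80, nat_lit 0, nat_lit 300, nat_lit 0, nat_lit 300, nat_lit 0, nat_lit 40, nat_lit 0, nat_lit 0, nat_lit 0, nat_lit 0⟩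
theorem d_V_700_700_10_13 (h : EB TB.env) : Dead b_V_700_700_10_13 := chkB_sound0 h (T :=
(.spl (nat_lit 0) (nat_lit 300)
(.spl (nat_lit 0) (nat_lit 290)
(.ord (.spl (nat_lit 3) (nat_lit 60)
(.trX (nat_lit 16) (nat_lit 99) (nat_lit 100) (nat_lit 77) (nat_lit 276) (.trX (nat_lit 19) (nat_lit 99) (nat_lit 100) (nat_lit 77) (nat_lit 276) (.leaf p066_l109)))
(.leaf p066_l110)))
(.trX (nat_lit 16) (nat_lit 100) (nat_lit 100) (nat_lit 89) (nat_lit 292) (.spl (nat_lit 2) (nat_lit 320)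
(.spl (nat_lit 0) (nat_lit 295)
(.ord (.leaf p066_l111))
(.trX (nat_lit 16) (nat_lit 97) (nat_lit 100) (nat_lit 88) (nat_lit 284) (.leaf p066_l112)))
(.spl (nat_lit 0) (nat_lit 295)
(.ord (.leaf p066_l113))
(.trX (nat_lit 16) (nat_lit 97) (nat_lit 100) (nat_lit 88) (nat_lit 284) (.leaf p066_l114))))))
(.trX (nat_lit 16) (nat_lit 94) (nat_lit 100) (nat_lit 87) (nat_lit 280) (.spl (nat_lit 3) (nat_lit 60)
(.trX (nat_lit 16) (nat_lit 90) (nat_lit 100) (nat_lit 74) (nat_lit 256) (.trX (nat_lit 19) (nat_lit 99) (nat_lit 100) (nat_lit 77) (nat_lit 276) (.leaf p066_l115)))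
(.leaf p066_l116))))) (by decide +kernel)
noncomputable def p066_l117 : Lf2 := ⟨nat_lit 0, nat_lit 10, [nat_lit 0, nat_lit 5, nat_lit 5, nat_lit 20], false, nat_lit 0, nat_lit 160, nat_lit 0, nat_lit 160, ⟨nat_lit 1000, nat_lit 0, nat_lit 0, nat_lit 0, nat_lit 0, nat_lit 0, nat_lit 0, nat_lit 0, nat_lit 0, nat_lit 0, nat_lit 0, nat_lit 0, nat_lit 0, nat_lit 0, nat_lit 0, nat_lit 0, false, false⟩,
 nat_lit 0, nat_lit 8143, nat_lit 0, nat_lit 0, nat_lit 5637, nat_lit 6838, nat_lit 1719, nat_lit 0, nat_lit 0, nat_lit 1199, nat_lit 0, nat_lit 0, nat_lit 0, nat_lit 24640294431366, nat_lit 0, nat_lit 0, nat_lit 0, nat_lit 0, [],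
 ⟨p066_k1, nat_lit 0, nat_lit 0, nat_lit 721, nat_lit 0, nat_lit 1217556, [nat_lit 3282000000, nat_lit 6250000000, nat_lit 7968000000], [], [nat_lit 34873537905, nat_lit 33371734002, nat_lit 35906827482, nat_lit 36475853027, nat_lit 28370803810, nat_lit 28685235243, nat_lit 38985883784, nat_lit 37772587178], nat_lit 1271250, nat_lit 1271250, nat_lit 631250, nat_lit 3031250, nat_lit 0, nat_lit 1100001, [nat_lit 780000, nat_lit 1435000, nat_lit 1271250], [nat_lit 18, nat_lit 40, nat_lit 40, nat_lit 80, nat_lit 2, nat_lit 373, nat_lit 150, nat_lit 12]⟩, ⟨p066_k1, nat_lit 0, nat_lit 0, nat_lit 198, nat_lit 0, nat_lit 0, [nat_lit 3282000000, nat_lit 6250000000, nat_lit 7968000000], [], [nat_lit 19573799425, nat_lit 20634636713, nat_lit 39158157868, nat_lit 39781570698, nat_lit 15430666457, nat_lit 16318195480, nat_lit 31396607008, nat_lit 31945383240], nat_lit 0, nat_lit 0, nat_lit 0, nat_lit 0, nat_lit 0, nat_lit 0,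 [], [nat_lit 18, nat_lit 40, nat_lit 40, nat_lit 80, nat_lit 2, nat_lit 373, nat_lit 150, nat_lit 12]⟩,
 zbF0, []⟩
noncomputable def p066_l118 : Lf2 := ⟨nat_lit 0, nat_lit 10, [nat_lit 0, nat_lit 5, nat_lit 5, nat_lit 20], false, nat_lit 0, nat_lit 160, nat_lit 0, nat_lit 160, ⟨nat_lit 1000, nat_lit 0, nat_lit 0, nat_lit 0, nat_lit 0, nat_lit 0, nat_lit 0, nat_lit 0, nat_lit 0, nat_lit 0, nat_lit 0, nat_lit 0, nat_lit 0, nat_lit 0, nat_lit 0, nat_lit 0, false, false⟩,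
 nat_lit 0, nat_lit 7848, nat_lit 0, nat_lit 0, nat_lit 5657, nat_lit 6794, nat_lit 1219, nat_lit 0, nat_lit 0, nat_lit 1591, nat_lit 0, nat_lit 0, nat_lit 0, nat_lit 32773054446511, nat_lit 0, nat_lit 0, nat_lit 0, nat_lit 0, [],
 ⟨p066_k7, nat_lit 0, nat_lit 0, nat_lit 764, nat_lit 0, nat_lit 1329536, [nat_lit 3282000000, nat_lit 6250000000, nat_lit 7968000000], [], [nat_lit 32004647336, nat_lit 30502153793, nat_lit 36530902447, nat_lit 37100833692, nat_lit 28389846472, nat_lit 28663163665, nat_lit 38185249058, nat_lit 36967647692], nat_lit 1271250, nat_lit 1271250, nat_lit 689850, nat_lit 3047750, nat_lit 0, nat_lit 1100001, [nat_lit 780000, nat_lit 1435000, nat_lit 1271250], [nat_lit 18, nat_lit 40, nat_lit 40, nat_lit 80, nat_lit 2, nat_lit 373, nat_lit 150, nat_lit 12]⟩, ⟨p066_k1, nat_lit 0, nat_lit 0, nat_lit 199, nat_lit 0, nat_lit 0, [nat_lit 3282000000, nat_lit 6250000000, nat_lit 7968000000], [], [nat_lit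 19190083047, nat_lit 21627057825, nat_lit 39039041684, nat_lit 40281882264, nat_lit 16246631790, nat_lit 17539567167, nat_lit 31344457504, nat_lit 32438686736], nat_lit 0, nat_lit 0, nat_lit 0, nat_lit 0, nat_lit 0, nat_lit 0, [], [nat_lit 18, nat_lit 40, nat_lit 40, nat_lit 80, nat_lit 2, nat_lit 373, nat_lit 150, nat_lit 12]⟩,
 zbF0, []⟩
noncomputable def p066_l119 : Lf2 := ⟨nat_lit 0, nat_lit 10, [nat_lit 0, nat_lit 5, nat_lit 5, nat_lit 20], false, nat_lit 0, nat_lit 160, nat_lit 160, nat_lit 280, ⟨nat_lit 1000, nat_lit 0, nat_lit 0, nat_lit 0, nat_lit 0, nat_lit 0, nat_lit 0, nat_lit 0, nat_lit 0, nat_lit 0, nat_lit 0, nat_lit 0, nat_lit 0, nat_lit 0, nat_lit 0, nat_lit 0, false, false⟩,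
 nat_lit 0, nat_lit 10657, nat_lit 0, nat_lit 0, nat_lit 7377, nat_lit 5575, nat_lit 3930, nat_lit 0, nat_lit 0, nat_lit 0, nat_lit 0, nat_lit 0, nat_lit 0, nat_lit 21678446019668, nat_lit 0, nat_lit 0, nat_lit 0, nat_lit 0, [],
 ⟨p066_k1, nat_lit 0, nat_lit 0, nat_lit 721, nat_lit 0, nat_lit 1217556, [nat_lit 3282000000, nat_lit 6250000000, nat_lit 7968000000], [], [nat_lit 19512967821, nat_lit 21100444078, nat_lit 24038738714, nat_lit 25242175837, nat_lit 15959469498, nat_lit 16420951101, nat_lit 24445549976, nat_lit 22817645255], nat_lit 1271250, nat_lit 1271250, nat_lit 631250, nat_lit 1751250, nat_lit 0, nat_lit 1100001, [nat_lit 780000, nat_lit 1435000, nat_lit 1271250], [nat_lit 18, nat_lit 40, nat_lit 40, nat_lit 80, nat_lit 2, nat_lit 317, nat_lit 100, nat_lit 10]⟩, ⟨p066_k1, nat_lit 0, nat_lit 0, nat_lit 47, nat_lit 0, nat_lit 0, [nat_lit 3282000000, nat_lit 6250000000, nat_lit 7968000000], [], [nat_lit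 13654609175, nat_lit 14647241738, nat_lit 17903124100, nat_lit 18757004800, nat_lit 20371623063, nat_lit 21207632444, nat_lit 23082906875, nat_lit 23732141513], nat_lit 0, nat_lit 0, nat_lit 0, nat_lit 0, nat_lit 0, nat_lit 0, [], [nat_lit 18, nat_lit 40, nat_lit 40, nat_lit 80, nat_lit 2, nat_lit 373, nat_lit 150, nat_lit 12]⟩,
 zbF0, [⟨nat_lit 0, nat_lit 91, nat_lit 91, nat_lit 100, nat_lit 159685527⟩, ⟨nat_lit 7, nat_lit 100, nat_lit 88, nat_lit 74, nat_lit 749630877⟩]⟩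
noncomputable def p066_l120 : Lf2 := ⟨nat_lit 0, nat_lit 10, [nat_lit 0, nat_lit 5, nat_lit 5, nat_lit 20], false, nat_lit 0, nat_lit 160, nat_lit 160, nat_lit 280, ⟨nat_lit 1000, nat_lit 0, nat_lit 0, nat_lit 0, nat_lit 0, nat_lit 0, nat_lit 0, nat_lit 0, nat_lit 0, nat_lit 0, nat_lit 0, nat_lit 0, nat_lit 0, nat_lit 0, nat_lit 0, nat_lit 0, false, false⟩,
 nat_lit 0, nat_lit 9711, nat_lit 0, nat_lit 0, nat_lit 7000, nat_lit 5494, nat_lit 3368, nat_lit 0, nat_lit 0, nat_lit 0, nat_lit 0, nat_lit 0, nat_lit 0, nat_lit 0, nat_lit 0, nat_lit 0, nat_lit 0, nat_lit 0, [],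
 ⟨p066_k7, nat_lit 0, nat_lit 0, nat_lit 764, nat_lit 0, nat_lit 1329536, [nat_lit 3282000000, nat_lit 6250000000, nat_lit 7968000000], [], [nat_lit 21517860200, nat_lit 21992787200, nat_lit 24726824000, nat_lit 25888980000, nat_lit 19806006200, nat_lit 20192466000, nat_lit 21664246000, nat_lit 21208756000], nat_lit 1271250, nat_lit 1271250, nat_lit 689850, nat_lit 1755750, nat_lit 0, nat_lit 1100001, [nat_lit 780000, nat_lit 1435000, nat_lit 1271250], [nat_lit 18, nat_lit 40, nat_lit 40, nat_lit 80, nat_lit 2, nat_lit 317, nat_lit 100, nat_lit 10]⟩, ⟨p066_k1, nat_lit 0, nat_lit 0, nat_lit 50, nat_lit 0, nat_lit 0, [nat_lit 3282000000, nat_lit 6250000000, nat_lit 7968000000], [], [nat_lit 13770792186, nat_lit 15717190188, nat_lit 17962190608, nat_lit 19596906520, nat_lit 20271646102, nat_lit 21913480366, nat_lit 23058240350, nat_lit 24347035228], nat_lit 0, nat_lit 0, nat_lit 0, nat_lit 0, nat_lit 0, nat_lit 0,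 [], [nat_lit 18, nat_lit 40, nat_lit 40, nat_lit 80, nat_lit 2, nat_lit 373, nat_lit 150, nat_lit 12]⟩,
 zbF0, [⟨nat_lit 0, nat_lit 83, nat_lit 83, nat_lit 100, nat_lit 445667021⟩, ⟨nat_lit 7, nat_lit 100, nat_lit 85, nat_lit 73, nat_lit 762207966⟩]⟩
noncomputable def p066_l121 : Lf2 := ⟨nat_lit 0, nat_lit 10, [nat_lit 0, nat_lit 5, nat_lit 5, nat_lit 20], false, nat_lit 0, nat_lit 160, nat_lit 160, nat_lit 280, ⟨nat_lit 1000, nat_lit 0, nat_lit 0, nat_lit 0, nat_lit 0, nat_lit 0, nat_lit 0, nat_lit 0, nat_lit 0, nat_lit 0, nat_lit 0, nat_lit 0, nat_lit 0, nat_lit 0, nat_lit 0, nat_lit 0, false, false⟩,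
 nat_lit 0, nat_lit 8559, nat_lit 0, nat_lit 0, nat_lit 5925, nat_lit 5663, nat_lit 1549, nat_lit 0, nat_lit 0, nat_lit 1604, nat_lit 0, nat_lit 0, nat_lit 0, nat_lit 0, nat_lit 0, nat_lit 0, nat_lit 0, nat_lit 0, [],
 ⟨p066_k1, nat_lit 0, nat_lit 0, nat_lit 754, nat_lit 0, nat_lit 1406917, [nat_lit 3282000000, nat_lit 6250000000, nat_lit 7968000000], [], [nat_lit 31121498525, nat_lit 31656614875, nat_lit 36686497050, nat_lit 37850632300, nat_lit 29418213575, nat_lit 29856313675, nat_lit 32845595300, nat_lit 33169437500], nat_lit 1271250, nat_lit 1271250, nat_lit 1271250, nat_lit 1271250, nat_lit 0, nat_lit 1100001, [nat_lit 780000, nat_lit 1435000, nat_lit 1271250], [nat_lit 18, nat_lit 40, nat_lit 40, nat_lit 80, nat_lit 2, nat_lit 299, nat_lit 40, nat_lit 9]⟩, ⟨p066_k1, nat_lit 0, nat_lit 0, nat_lit 90, nat_lit 0, nat_lit 0, [nat_lit 3282000000, nat_lit 6250000000, nat_lit 7968000000], [], [nat_lit 19769097512,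 nat_lit 20964550524, nat_lit 30003978208, nat_lit 31012785272, nat_lit 23462449678, nat_lit 24420503710, nat_lit 32443670063, nat_lit 33219451412], nat_lit 0, nat_lit 0, nat_lit 0, nat_lit 0, nat_lit 0, nat_lit 0, [], [nat_lit 18, nat_lit 40, nat_lit 40, nat_lit 80, nat_lit 2, nat_lit 289, nat_lit 75, nat_lit 8]⟩,
 zbF0, [⟨nat_lit 7, nat_lit 100, nat_lit 85, nat_lit 73, nat_lit 578224033⟩]⟩
noncomputable def p066_l122 : Lf2 := ⟨nat_lit 0, nat_lit 10, [nat_lit 0, nat_lit 5, nat_lit 5, nat_lit 20], false, nat_lit 160, nat_lit 280, nat_lit 0, nat_lit 160, ⟨nat_lit 1000, nat_lit 0, nat_lit 0, nat_lit 0, nat_lit 0, nat_lit 0, nat_lit 0, nat_lit 0, nat_lit 0, nat_lit 0, nat_lit 0, nat_lit 0, nat_lit 0, nat_lit 0, nat_lit 0, nat_lit 0, false, false⟩,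
 nat_lit 0, nat_lit 8560, nat_lit 0, nat_lit 0, nat_lit 5925, nat_lit 6741, nat_lit 1872, nat_lit 0, nat_lit 0, nat_lit 1214, nat_lit 0, nat_lit 0, nat_lit 0, nat_lit 38478231817146, nat_lit 0, nat_lit 0, nat_lit 0, nat_lit 0, [],
 ⟨p066_k1, nat_lit 0, nat_lit 0, nat_lit 620, nat_lit 0, nat_lit 1217556, [nat_lit 3282000000, nat_lit 6250000000, nat_lit 7968000000], [], [nat_lit 23178869900, nat_lit 23372224688, nat_lit 34112711000, nat_lit 32788473500, nat_lit 25374596375, nat_lit 25704545932, nat_lit 32733651925, nat_lit 33127270313], nat_lit 1271250, nat_lit 1271250, nat_lit 631250, nat_lit 3031250, nat_lit 1271250, nat_lit 1271250, [nat_lit 780000, nat_lit 1435000, nat_lit 1271250], [nat_lit 18, nat_lit 40, nat_lit 40, nat_lit 80, nat_lit 2, nat_lit 401, nat_lit 175, nat_lit 13]⟩, ⟨p066_k1, nat_lit 0, nat_lit 0, nat_lit 198, nat_lit 0, nat_lit 0, [nat_lit 3282000000, nat_lit 6250000000, nat_lit 7968000000], [],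 [nat_lit 19481950600, nat_lit 20533061116, nat_lit 38895560826, nat_lit 39514581011, nat_lit 15630682726, nat_lit 16382169895, nat_lit 31281641056, nat_lit 31826754180], nat_lit 0, nat_lit 0, nat_lit 0, nat_lit 0, nat_lit 0, nat_lit 0, [], [nat_lit 18, nat_lit 40, nat_lit 40, nat_lit 80, nat_lit 2, nat_lit 373, nat_lit 150, nat_lit 12]⟩,
 zbF0, [⟨nat_lit 16, nat_lit 88, nat_lit 100, nat_lit 74, nat_lit 478912361⟩]⟩
noncomputable def p066_l123 : Lf2 := ⟨nat_lit 0, nat_lit 10, [nat_lit 0, nat_lit 5, nat_lit 5, nat_lit 20], false, nat_lit 160, nat_lit 268, nat_lit 0, nat_lit 160, ⟨nat_lit 1000, nat_lit 0, nat_lit 0, nat_lit 0, nat_lit 0, nat_lit 0, nat_lit 0, nat_lit 0, nat_lit 0, nat_lit 0, nat_lit 0, nat_lit 0, nat_lit 0, nat_lit 0, nat_lit 0, nat_lit 0, false, false⟩,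
 nat_lit 0, nat_lit 7343, nat_lit 0, nat_lit 0, nat_lit 5293, nat_lit 7535, nat_lit 1361, nat_lit 0, nat_lit 0, nat_lit 1217, nat_lit 0, nat_lit 0, nat_lit 0, nat_lit 33253358313893, nat_lit 0, nat_lit 0, nat_lit 0, nat_lit 0, [],
 ⟨p066_k7, nat_lit 0, nat_lit 0, nat_lit 625, nat_lit 0, nat_lit 1239705, [nat_lit 3282000000, nat_lit 6250000000, nat_lit 7968000000], [], [nat_lit 28175776886, nat_lit 28348955390, nat_lit 34396091694, nat_lit 34501290973, nat_lit 30373000999, nat_lit 30533581726, nat_lit 37661944817, nat_lit 37082968028], nat_lit 1271250, nat_lit 1271250, nat_lit 689850, nat_lit 3047750, nat_lit 1100001, nat_lit 2024750, [nat_lit 780000, nat_lit 1435000, nat_lit 1271250], [nat_lit 18, nat_lit 40, nat_lit 40, nat_lit 80, nat_lit 2, nat_lit 401, nat_lit 175, nat_lit 12]⟩, ⟨p066_k1, nat_lit 0, nat_lit 0, nat_lit 198, nat_lit 0, nat_lit 0, [nat_lit 3282000000, nat_lit 6250000000, nat_lit 7968000000], [],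 [nat_lit 19849966102, nat_lit 21913132037, nat_lit 41045066510, nat_lit 42027531223, nat_lit 16055462145, nat_lit 17225197666, nat_lit 32222702560, nat_lit 33085349170], nat_lit 0, nat_lit 0, nat_lit 0, nat_lit 0, nat_lit 0, nat_lit 0, [], [nat_lit 18, nat_lit 40, nat_lit 40, nat_lit 80, nat_lit 2, nat_lit 373, nat_lit 150, nat_lit 12]⟩,
 zbF0, [⟨nat_lit 4, nat_lit 100, nat_lit 84, nat_lit 73, nat_lit 510398379⟩]⟩
noncomputable def p066_l124 : Lf2 := ⟨nat_lit 0, nat_lit 10, [nat_lit 0, nat_lit 5, nat_lit 5, nat_lit 20], false, nat_lit 160, nat_lit 264, nat_lit 0, nat_lit 160, ⟨nat_lit 1000, nat_lit 0, nat_lit 0, nat_lit 0, nat_lit 0, nat_lit 0, nat_lit 0, nat_lit 0, nat_lit 0, nat_lit 0, nat_lit 0, nat_lit 0, nat_lit 0, nat_lit 0, nat_lit 0, nat_lit 0, false, false⟩,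
 nat_lit 0, nat_lit 7441, nat_lit 0, nat_lit 0, nat_lit 5472, nat_lit 7131, nat_lit 1148, nat_lit 0, nat_lit 0, nat_lit 1474, nat_lit 0, nat_lit 0, nat_lit 0, nat_lit 32920218073039, nat_lit 0, nat_lit 0, nat_lit 0, nat_lit 0, [],
 ⟨p066_k25, nat_lit 0, nat_lit 0, nat_lit 646, nat_lit 0, nat_lit 1293350, [nat_lit 3282000000, nat_lit 6250000000, nat_lit 7968000000], [], [nat_lit 27369658136, nat_lit 27544006086, nat_lit 33506724192, nat_lit 33612246208, nat_lit 29408962458, nat_lit 29571876872, nat_lit 36906883659, nat_lit 36307583379], nat_lit 1271250, nat_lit 1271250, nat_lit 719601, nat_lit 3056000, nat_lit 1100001, nat_lit 1990500, [nat_lit 780000, nat_lit 1435000, nat_lit 1271250], [nat_lit 18, nat_lit 40, nat_lit 40, nat_lit 80, nat_lit 2, nat_lit 401, nat_lit 175, nat_lit 12]⟩, ⟨p066_k1, nat_lit 0, nat_lit 0, nat_lit 199, nat_lit 0, nat_lit 0, [nat_lit 3282000000, nat_lit 6250000000, nat_lit 7968000000], [],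 [nat_lit 19259769411, nat_lit 22022702277, nat_lit 39951363366, nat_lit 41224726036, nat_lit 15838834912, nat_lit 17339171407, nat_lit 31743875296, nat_lit 32863557464], nat_lit 0, nat_lit 0, nat_lit 0, nat_lit 0, nat_lit 0, nat_lit 0, [], [nat_lit 18, nat_lit 40, nat_lit 40, nat_lit 80, nat_lit 2, nat_lit 373, nat_lit 150, nat_lit 12]⟩,
 zbF0, [⟨nat_lit 4, nat_lit 100, nat_lit 82, nat_lit 72, nat_lit 522349975⟩]⟩
noncomputable def p066_l125 : Lf2 := ⟨nat_lit 0, nat_lit 10, [nat_lit 0, nat_lit 5, nat_lit 5, nat_lit 20], false, nat_lit 160, nat_lit 280, nat_lit 160, nat_lit 280, ⟨nat_lit 1000, nat_lit 0, nat_lit 0, nat_lit 0, nat_lit 0, nat_lit 0, nat_lit 0, nat_lit 0, nat_lit 0, nat_lit 0, nat_lit 0, nat_lit 0, nat_lit 0, nat_lit 0, nat_lit 0, nat_lit 0, false, false⟩,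
 nat_lit 0, nat_lit 9733, nat_lit 0, nat_lit 0, nat_lit 6738, nat_lit 5184, nat_lit 2383, nat_lit 0, nat_lit 0, nat_lit 0, nat_lit 0, nat_lit 0, nat_lit 0, nat_lit 0, nat_lit 0, nat_lit 0, nat_lit 0, nat_lit 0, [],
 ⟨p066_k1, nat_lit 0, nat_lit 0, nat_lit 620, nat_lit 0, nat_lit 1217556, [nat_lit 3282000000, nat_lit 6250000000, nat_lit 7968000000], [], [nat_lit 18078654616, nat_lit 18585618930, nat_lit 18065812548, nat_lit 18558548950, nat_lit 21257479253, nat_lit 21835099147, nat_lit 21138483418, nat_lit 21520850363], nat_lit 1271250, nat_lit 1271250, nat_lit 631250, nat_lit 780000, nat_lit 1100001, nat_lit 2127500, [nat_lit 780000, nat_lit 1435000, nat_lit 1271250], [nat_lit 18, nat_lit 40, nat_lit 40, nat_lit 80, nat_lit 2, nat_lit 317, nat_lit 100, nat_lit 10]⟩, ⟨p066_k1, nat_lit 0, nat_lit 0, nat_lit 47, nat_lit 0, nat_lit 0, [nat_lit 3282000000, nat_lit 6250000000, nat_lit 7968000000], [], [nat_lit 14072396976,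 nat_lit 15022090896, nat_lit 14168777776, nat_lit 15093282600, nat_lit 20194858996, nat_lit 20996678462, nat_lit 20145686456, nat_lit 20852514640], nat_lit 0, nat_lit 0, nat_lit 0, nat_lit 0, nat_lit 0, nat_lit 0, [], [nat_lit 18, nat_lit 40, nat_lit 40, nat_lit 80, nat_lit 2, nat_lit 317, nat_lit 100, nat_lit 10]⟩,
 zbF0, [⟨nat_lit 0, nat_lit 95, nat_lit 95, nat_lit 100, nat_lit 578045149⟩, ⟨nat_lit 0, nat_lit 100, nat_lit 100, nat_lit 100, nat_lit 83794481⟩, ⟨nat_lit 4, nat_lit 100, nat_lit 88, nat_lit 74, nat_lit 526381288⟩, ⟨nat_lit 19, nat_lit 94, nat_lit 100, nat_lit 87, nat_lit 264475520⟩, ⟨nat_lit 7, nat_lit 100, nat_lit 88, nat_lit 74, nat_lit 370758355⟩]⟩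
noncomputable def p066_l126 : Lf2 := ⟨nat_lit 0, nat_lit 10, [nat_lit 0, nat_lit 5, nat_lit 5, nat_lit 20], false, nat_lit 160, nat_lit 280, nat_lit 160, nat_lit 280, ⟨nat_lit 1000, nat_lit 0, nat_lit 0, nat_lit 0, nat_lit 0, nat_lit 0, nat_lit 0, nat_lit 0, nat_lit 0, nat_lit 0, nat_lit 0, nat_lit 0, nat_lit 0, nat_lit 0, nat_lit 0, nat_lit 0, false, false⟩,
 nat_lit 0, nat_lit 9077, nat_lit 0, nat_lit 0, nat_lit 6284, nat_lit 6964, nat_lit 1836, nat_lit 0, nat_lit 0, nat_lit 1248, nat_lit 0, nat_lit 0, nat_lit 0, nat_lit 11822661369196, nat_lit 0, nat_lit 0, nat_lit 0, nat_lit 0, [],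
 ⟨p066_k1, nat_lit 0, nat_lit 0, nat_lit 558, nat_lit 0, nat_lit 1124335, [nat_lit 3282000000, nat_lit 6250000000, nat_lit 7968000000], [], [nat_lit 21165029768, nat_lit 21346351972, nat_lit 33187498692, nat_lit 32476137324, nat_lit 23468750400, nat_lit 23630818873, nat_lit 33130993484, nat_lit 33331726817], nat_lit 1271250, nat_lit 1271250, nat_lit 780000, nat_lit 3072500, nat_lit 1271250, nat_lit 1271250, [nat_lit 780000, nat_lit 1435000, nat_lit 1271250], [nat_lit 18, nat_lit 40, nat_lit 40, nat_lit 80, nat_lit 2, nat_lit 401, nat_lit 175, nat_lit 12]⟩, ⟨p066_k1, nat_lit 0, nat_lit 0, nat_lit 87, nat_lit 0, nat_lit 0, [nat_lit 3282000000, nat_lit 6250000000, nat_lit 7968000000], [], [nat_lit 15029046304, nat_lit 15508255140, nat_lit 31545944224, nat_lit 31822711472, nat_lit 20790841164, nat_lit 21151661609, nat_lit 33883618164, nat_lit 34091784407], nat_lit 0, nat_lit 0, nat_lit 0, nat_lit 0, nat_lit 0, nat_lit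 0, [], [nat_lit 18, nat_lit 40, nat_lit 40, nat_lit 80, nat_lit 2, nat_lit 401, nat_lit 175, nat_lit 12]⟩,
 zbF0, [⟨nat_lit 4, nat_lit 100, nat_lit 89, nat_lit 74, nat_lit 470643635⟩, ⟨nat_lit 7, nat_lit 100, nat_lit 89, nat_lit 74, nat_lit 589841473⟩]⟩
noncomputable def p066_l127 : Lf2 := ⟨nat_lit 0, nat_lit 10, [nat_lit 0, nat_lit 5, nat_lit 5, nat_lit 20], false, nat_lit 160, nat_lit 276, nat_lit 160, nat_lit 280, ⟨nat_lit 1000, nat_lit 0, nat_lit 0, nat_lit 0, nat_lit 0, nat_lit 0, nat_lit 0, nat_lit 0, nat_lit 0, nat_lit 0, nat_lit 0, nat_lit 0, nat_lit 0, nat_lit 0, nat_lit 0, nat_lit 0, false, false⟩,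
 nat_lit 0, nat_lit 9189, nat_lit 0, nat_lit 0, nat_lit 6492, nat_lit 6174, nat_lit 1465, nat_lit 0, nat_lit 0, nat_lit 1669, nat_lit 0, nat_lit 0, nat_lit 0, nat_lit 19264436471992, nat_lit 0, nat_lit 0, nat_lit 0, nat_lit 0, [],
 ⟨p066_k26, nat_lit 0, nat_lit 0, nat_lit 588, nat_lit 0, nat_lit 1183399, [nat_lit 3282000000, nat_lit 6250000000, nat_lit 7968000000], [], [nat_lit 20309416286, nat_lit 20493053738, nat_lit 32415757137, nat_lit 31680849753, nat_lit 22470572316, nat_lit 22636077346, nat_lit 33431269150, nat_lit 33636686673], nat_lit 1271250, nat_lit 1271250, nat_lit 780000, nat_lit 3072500, nat_lit 1271250, nat_lit 1271250, [nat_lit 780000, nat_lit 1435000, nat_lit 1271250], [nat_lit 18, nat_lit 40, nat_lit 40, nat_lit 80, nat_lit 2, nat_lit 401, nat_lit 175, nat_lit 12]⟩, ⟨p066_k1, nat_lit 0, nat_lit 0, nat_lit 88, nat_lit 0, nat_lit 0, [nat_lit 3282000000, nat_lit 6250000000, nat_lit 7968000000], [],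 [nat_lit 15448953251, nat_lit 16236339949, nat_lit 30609623584, nat_lit 31133324520, nat_lit 20603415249, nat_lit 21278191364, nat_lit 33009245374, nat_lit 33408307275], nat_lit 0, nat_lit 0, nat_lit 0, nat_lit 0, nat_lit 0, nat_lit 0, [], [nat_lit 18, nat_lit 40, nat_lit 40, nat_lit 80, nat_lit 2, nat_lit 401, nat_lit 175, nat_lit 12]⟩,
 zbF0, [⟨nat_lit 4, nat_lit 100, nat_lit 87, nat_lit 73, nat_lit 469493272⟩, ⟨nat_lit 7, nat_lit 100, nat_lit 88, nat_lit 74, nat_lit 637503076⟩]⟩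
noncomputable def p066_l128 : Lf2 := ⟨nat_lit 0, nat_lit 10, [nat_lit 0, nat_lit 5, nat_lit 5, nat_lit 20], false, nat_lit 160, nat_lit 268, nat_lit 160, nat_lit 280, ⟨nat_lit 1000, nat_lit 0, nat_lit 0, nat_lit 0, nat_lit 0, nat_lit 0, nat_lit 0, nat_lit 0, nat_lit 0, nat_lit 0, nat_lit 0, nat_lit 0, nat_lit 0, nat_lit 0, nat_lit 0, nat_lit 0, false, false⟩,
 nat_lit 0, nat_lit 9150, nat_lit 0, nat_lit 0, nat_lit 6596, nat_lit 5101, nat_lit 1331, nat_lit 0, nat_lit 0, nat_lit 0, nat_lit 0, nat_lit 0, nat_lit 0, nat_lit 4929537410568, nat_lit 0, nat_lit 0, nat_lit 0, nat_lit 0, [],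
 ⟨p066_k7, nat_lit 0, nat_lit 0, nat_lit 625, nat_lit 0, nat_lit 1239705, [nat_lit 3282000000, nat_lit 6250000000, nat_lit 7968000000], [], [nat_lit 19731966225, nat_lit 19673257170, nat_lit 21113651448, nat_lit 21308990180, nat_lit 21913794519, nat_lit 22112345749, nat_lit 23899686955, nat_lit 23752902523], nat_lit 1271250, nat_lit 1271250, nat_lit 689850, nat_lit 1755750, nat_lit 1100001, nat_lit 2024750, [nat_lit 780000, nat_lit 1435000, nat_lit 1271250], [nat_lit 18, nat_lit 40, nat_lit 40, nat_lit 80, nat_lit 2, nat_lit 373, nat_lit 150, nat_lit 12]⟩, ⟨p066_k1, nat_lit 0, nat_lit 0, nat_lit 47, nat_lit 0, nat_lit 0, [nat_lit 3282000000, nat_lit 6250000000, nat_lit 7968000000], [], [nat_lit 14202023619, nat_lit 15597964592, nat_lit 18349990432, nat_lit 19441865428, nat_lit 20227229321, nat_lit 21292154410, nat_lit 22984046644, nat_lit 23869954128], nat_lit 0, nat_lit 0, nat_lit 0, nat_lit 0, nat_lit 0, nat_lit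 0, [], [nat_lit 18, nat_lit 40, nat_lit 40, nat_lit 80, nat_lit 2, nat_lit 373, nat_lit 150, nat_lit 12]⟩,
 zbF0, [⟨nat_lit 0, nat_lit 87, nat_lit 87, nat_lit 100, nat_lit 384105257⟩, ⟨nat_lit 16, nat_lit 89, nat_lit 100, nat_lit 85, nat_lit 429292632⟩, ⟨nat_lit 19, nat_lit 87, nat_lit 100, nat_lit 73, nat_lit 528214432⟩, ⟨nat_lit 19, nat_lit 94, nat_lit 100, nat_lit 87, nat_lit 142512503⟩]⟩
noncomputable def p066_l129 : Lf2 := ⟨nat_lit 0, nat_lit 10, [nat_lit 0, nat_lit 5, nat_lit 5, nat_lit 20], false, nat_lit 160, nat_lit 264, nat_lit 160, nat_lit 280, ⟨nat_lit 1000, nat_lit 0, nat_lit 0, nat_lit 0, nat_lit 0, nat_lit 0, nat_lit 0, nat_lit 0, nat_lit 0, nat_lit 0, nat_lit 0, nat_lit 0, nat_lit 0, nat_lit 0, nat_lit 0, nat_lit 0, false, false⟩,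
 nat_lit 0, nat_lit 9402, nat_lit 0, nat_lit 0, nat_lit 6914, nat_lit 5079, nat_lit 1098, nat_lit 0, nat_lit 0, nat_lit 0, nat_lit 0, nat_lit 0, nat_lit 0, nat_lit 0, nat_lit 0, nat_lit 0, nat_lit 0, nat_lit 0, [],
 ⟨p066_k25, nat_lit 0, nat_lit 0, nat_lit 646, nat_lit 0, nat_lit 1293350, [nat_lit 3282000000, nat_lit 6250000000, nat_lit 7968000000], [], [nat_lit 19235997157, nat_lit 19427426135, nat_lit 20605738795, nat_lit 20779240984, nat_lit 21270564385, nat_lit 21447789381, nat_lit 23620483559, nat_lit 24002428483], nat_lit 1271250, nat_lit 1271250, nat_lit 719601, nat_lit 1758000, nat_lit 1100001, nat_lit 1990500, [nat_lit 780000, nat_lit 1435000, nat_lit 1271250], [nat_lit 18, nat_lit 40, nat_lit 40, nat_lit 80, nat_lit 2, nat_lit 373, nat_lit 150, nat_lit 11]⟩, ⟨p066_k1, nat_lit 0, nat_lit 0, nat_lit 48, nat_lit 0, nat_lit 0, [nat_lit 3282000000, nat_lit 6250000000, nat_lit 7968000000], [], [nat_lit 14246950386,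 nat_lit 16093519805, nat_lit 18371699328, nat_lit 19824133040, nat_lit 20233111132, nat_lit 21642614995, nat_lit 22999881276, nat_lit 24171090998], nat_lit 0, nat_lit 0, nat_lit 0, nat_lit 0, nat_lit 0, nat_lit 0, [], [nat_lit 18, nat_lit 40, nat_lit 40, nat_lit 80, nat_lit 2, nat_lit 373, nat_lit 150, nat_lit 12]⟩,
 zbF0, [⟨nat_lit 0, nat_lit 83, nat_lit 83, nat_lit 100, nat_lit 356468184⟩, ⟨nat_lit 16, nat_lit 82, nat_lit 100, nat_lit 72, nat_lit 362624746⟩, ⟨nat_lit 16, nat_lit 86, nat_lit 100, nat_lit 84, nat_lit 129968240⟩, ⟨nat_lit 7, nat_lit 100, nat_lit 85, nat_lit 73, nat_lit 718720918⟩]⟩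
noncomputable def p066_l130 : Lf2 := ⟨nat_lit 0, nat_lit 10, [nat_lit 0, nat_lit 5, nat_lit 5, nat_lit 20], false, nat_lit 160, nat_lit 268, nat_lit 160, nat_lit 280, ⟨nat_lit 1000, nat_lit 0, nat_lit 0, nat_lit 0, nat_lit 0, nat_lit 0, nat_lit 0, nat_lit 0, nat_lit 0, nat_lit 0, nat_lit 0, nat_lit 0, nat_lit 0, nat_lit 0, nat_lit 0, nat_lit 0, false, false⟩,
 nat_lit 0, nat_lit 8038, nat_lit 0, nat_lit 0, nat_lit 5794, nat_lit 5567, nat_lit 1112, nat_lit 0, nat_lit 0, nat_lit 1694, nat_lit 0, nat_lit 0, nat_lit 0, nat_lit 8302409768074, nat_lit 0, nat_lit 0, nat_lit 0, nat_lit 0, [],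
 ⟨p066_k7, nat_lit 0, nat_lit 0, nat_lit 623, nat_lit 0, nat_lit 1329536, [nat_lit 3282000000, nat_lit 6250000000, nat_lit 7968000000], [], [nat_lit 27394817592, nat_lit 27644185936, nat_lit 31611512652, nat_lit 31823717816, nat_lit 28596310831, nat_lit 28826050986, nat_lit 32597310484, nat_lit 33001275635], nat_lit 1271250, nat_lit 1271250, nat_lit 1271250, nat_lit 1271250, nat_lit 1100001, nat_lit 2024750, [nat_lit 780000, nat_lit 1435000, nat_lit 1271250], [nat_lit 18, nat_lit 40, nat_lit 40, nat_lit 80, nat_lit 2, nat_lit 289, nat_lit 75, nat_lit 8]⟩, ⟨p066_k1, nat_lit 0, nat_lit 0, nat_lit 90, nat_lit 0, nat_lit 0, [nat_lit 3282000000, nat_lit 6250000000, nat_lit 7968000000], [], [nat_lit 19781490758, nat_lit 20966602266, nat_lit 29890197472, nat_lit 30891753848, nat_lit 23462009452, nat_lit 24379884618, nat_lit 32337417167, nat_lit 33109001108], nat_lit 0, nat_lit 0, nat_lit 0, nat_lit 0, nat_lit 0, nat_lit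 0, [], [nat_lit 18, nat_lit 40, nat_lit 40, nat_lit 80, nat_lit 2, nat_lit 289, nat_lit 75, nat_lit 8]⟩,
 zbF0, [⟨nat_lit 16, nat_lit 83, nat_lit 100, nat_lit 73, nat_lit 439920368⟩, ⟨nat_lit 7, nat_lit 100, nat_lit 85, nat_lit 73, nat_lit 525379808⟩]⟩
noncomputable def b_V_700_700_10_14 : St := ⟨true, nat_lit 1, nat_lit 0, nat_lit 1, nat_lit 80, nat_lit 280, nat_lit 320, nat_lit 300, nat_lit 320, nat_lit 64, nat_lit 400, nat_lit 40, nat_lit 80, nat_lit 0, nat_lit 300, nat_lit 0, nat_lit 300, nat_lit 0, nat_lit 40, nat_lit 0, nat_lit 0, nat_lit 0, nat_lit 0⟩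
theorem d_V_700_700_10_14 (h : EB TB.env) : Dead b_V_700_700_10_14 := chkB_sound0 h (T :=
(.ord (.trZ (nat_lit 0) (nat_lit 100) (nat_lit 100) (nat_lit 100) (nat_lit 100) (.trX (nat_lit 16) (nat_lit 94) (nat_lit 100) (nat_lit 87) (nat_lit 280) (.trX (nat_lit 19) (nat_lit 94) (nat_lit 100) (nat_lit 87) (nat_lit 280) (.spl (nat_lit 4) (nat_lit 160)
(.spl (nat_lit 5) (nat_lit 160)
(.spl (nat_lit 0) (nat_lit 310)
(.ord (.leaf p066_l117))
(.trZ (nat_lit 0) (nat_lit 97) (nat_lit 93) (nat_lit 100) (nat_lit 108) (.leaf p066_l118)))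
(.spl (nat_lit 2) (nat_lit 240)
(.spl (nat_lit 0) (nat_lit 310)
(.ord (.leaf p066_l119))
(.trZ (nat_lit 0) (nat_lit 97) (nat_lit 93) (nat_lit 100) (nat_lit 108) (.leaf p066_l120)))
(.leaf p066_l121)))
(.spl (nat_lit 5) (nat_lit 160)
(.spl (nat_lit 0) (nat_lit 310)
(.ord (.leaf p066_l122))
(.trZ (nat_lit 0) (nat_lit 97) (nat_lit 93) (nat_lit 100) (nat_lit 108) (.trX (nat_lit 16) (nat_lit 89) (nat_lit 100) (nat_lit 85) (nat_lit 268) (.spl (nat_lit 0) (nat_lit 315)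
(.ord (.leaf p066_l123))
(.trZ (nat_lit 0) (nat_lit 95) (nat_lit 90) (nat_lit 100) (nat_lit 112) (.trX (nat_lit 16) (nat_lit 86) (nat_lit 100) (nat_lit 84) (nat_lit 264) (.leaf p066_l124)))))))
(.spl (nat_lit 0) (nat_lit 310)
(.ord (.spl (nat_lit 2) (nat_lit 120)
(.leaf p066_l125)
(.spl (nat_lit 0) (nat_lit 305)
(.ord (.leaf p066_l126))
(.trX (nat_lit 16) (nat_lit 91) (nat_lit 100) (nat_lit 86) (nat_lit 276) (.leaf p066_l127)))))
(.trZ (nat_lit 0) (nat_lit 97) (nat_lit 93) (nat_lit 100) (nat_lit 108) (.trX (nat_lit 16) (nat_lit 89) (nat_lit 100) (nat_lit 85) (nat_lit 268) (.spl (nat_lit 2) (nat_lit 240)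
(.spl (nat_lit 0) (nat_lit 315)
(.ord (.leaf p066_l128))
(.trZ (nat_lit 0) (nat_lit 95) (nat_lit 90) (nat_lit 100) (nat_lit 112) (.trX (nat_lit 16) (nat_lit 86) (nat_lit 100) (nat_lit 84) (nat_lit 264) (.leaf p066_l129))))
(.leaf p066_l130)))))))))))) (by decide +kernel)
noncomputable def p066_l131 : Lf2 := ⟨nat_lit 0, nat_lit 10, [nat_lit 0, nat_lit 5, nat_lit 5, nat_lit 20], false, nat_lit 0, nat_lit 80, nat_lit 0, nat_lit 160, ⟨nat_lit 905, nat_lit 0, nat_lit 95, nat_lit 7, nat_lit 166, nat_lit 0, nat_lit 27, nat_lit 0, nat_lit 5400, nat_lit 233, nat_lit 45717, nat_lit 267, nat_lit 57186730, nat_lit 0, nat_lit 0, nat_lit 2082653, false, false⟩,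
 nat_lit 14713, nat_lit 0, nat_lit 0, nat_lit 0, nat_lit 9362, nat_lit 9362, nat_lit 972, nat_lit 0, nat_lit 0, nat_lit 1062, nat_lit 0, nat_lit 0, nat_lit 0, nat_lit 0, nat_lit 0, nat_lit 95000, nat_lit 0, nat_lit 0, [(nat_lit 12, [(nat_lit 6, nat_lit 95)]), (nat_lit 15, [(nat_lit 6, nat_lit 95)])],
 ⟨p066_k0, nat_lit 0, nat_lit 0, nat_lit 629, nat_lit 0, nat_lit 829096, [nat_lit 3078624001, nat_lit 5549128001, nat_lit 8407804000], [], [nat_lit 24375189665, nat_lit 28028755812, nat_lit 23061451133, nat_lit 25659371164, nat_lit 20463123989, nat_lit 22259667020, nat_lit 20538636884, nat_lit 20858408101], nat_lit 1271250, nat_lit 1271250, nat_lit 382400, nat_lit 780000, nat_lit 0, nat_lit 490000, [nat_lit 780000, nat_lit 1435000, nat_lit 1271250], [nat_lit 8, nat_lit 40, nat_lit 40, nat_lit 80, nat_lit 1, nat_lit 260, nat_lit 50, nat_lit 8]⟩, ⟨p066_k0, nat_lit 0, nat_lit 0, nat_lit 629, nat_lit 0, nat_lit 829096,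 [nat_lit 2970210000, nat_lit 5656250000, nat_lit 8907010000], [], [nat_lit 28212152265, nat_lit 27006987253, nat_lit 20672733128, nat_lit 23781844234, nat_lit 16985491823, nat_lit 18463806494, nat_lit 16822472856, nat_lit 16927760044], nat_lit 1271250, nat_lit 1271250, nat_lit 382400, nat_lit 780000, nat_lit 0, nat_lit 1100001, [nat_lit 780000, nat_lit 1435000, nat_lit 1271250], [nat_lit 8, nat_lit 40, nat_lit 40, nat_lit 80, nat_lit 1, nat_lit 289, nat_lit 75, nat_lit 9]⟩,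
 ⟨nat_lit 4472, nat_lit 5478, ⟨.ofNat (nat_lit 330579), .ofNat (nat_lit 435455), .ofNat (nat_lit 373223), .ofNat (nat_lit 478080), .ofNat (nat_lit 355064), .ofNat (nat_lit 450202), .ofNat (nat_lit 398126), .ofNat (nat_lit 493246)⟩, ⟨.negSucc (nat_lit 45522), .ofNat (nat_lit 104343), .negSucc (nat_lit 2834), .ofNat (nat_lit 147057), .negSucc (nat_lit 12423), .ofNat (nat_lit 123532), .ofNat (nat_lit 0), .ofNat (nat_lit 166665)⟩⟩, [⟨nat_lit 0, nat_lit 100, nat_lit 100, nat_lit 80, nat_lit 1320701359⟩]⟩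
noncomputable def p066_l132 : Lf2 := ⟨nat_lit 0, nat_lit 10, [nat_lit 0, nat_lit 5, nat_lit 5, nat_lit 20], false, nat_lit 80, nat_lit 160, nat_lit 0, nat_lit 160, ⟨nat_lit 1000, nat_lit 0, nat_lit 0, nat_lit 0, nat_lit 0, nat_lit 0, nat_lit 0, nat_lit 0, nat_lit 0, nat_lit 0, nat_lit 0, nat_lit 0, nat_lit 0, nat_lit 0, nat_lit 0, nat_lit 0, false, false⟩,
 nat_lit 16381, nat_lit 0, nat_lit 0, nat_lit 0, nat_lit 10424, nat_lit 10040, nat_lit 1160, nat_lit 0, nat_lit 0, nat_lit 1217, nat_lit 0, nat_lit 0, nat_lit 0, nat_lit 6823714687, nat_lit 0, nat_lit 0, nat_lit 0, nat_lit 0, [],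
 ⟨p066_k0, nat_lit 0, nat_lit 0, nat_lit 572, nat_lit 0, nat_lit 829096, [nat_lit 3282000000, nat_lit 6250000000, nat_lit 9842000000], [], [nat_lit 20086470682, nat_lit 21041096296, nat_lit 16901173568, nat_lit 19279180512, nat_lit 17430727636, nat_lit 19681667079, nat_lit 18416164352, nat_lit 18014173856], nat_lit 1271250, nat_lit 1271250, nat_lit 382400, nat_lit 780000, nat_lit 490000, nat_lit 1100001, [nat_lit 780000, nat_lit 1435000, nat_lit 1271250], [nat_lit 8, nat_lit 40, nat_lit 40, nat_lit 80, nat_lit 1, nat_lit 289, nat_lit 75, nat_lit 8]⟩, ⟨p066_k0, nat_lit 0, nat_lit 0, nat_lit 629, nat_lit 0, nat_lit 829096, [nat_lit 3282000000, nat_lit 6250000000, nat_lit 9842000000], [], [nat_lit 31221973217, nat_lit 29279216576, nat_lit 23997305760, nat_lit 25853064960, nat_lit 20090558529, nat_lit 21702067712, nat_lit 19250577920, nat_lit 20080631680], nat_lit 1271250, nat_lit 1271250, nat_lit 382400, nat_lit 780000,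 nat_lit 0, nat_lit 1100001, [nat_lit 780000, nat_lit 1435000, nat_lit 1271250], [nat_lit 8, nat_lit 40, nat_lit 40, nat_lit 80, nat_lit 1, nat_lit 289, nat_lit 75, nat_lit 9]⟩,
 zbF0, [⟨nat_lit 0, nat_lit 100, nat_lit 100, nat_lit 100, nat_lit 318619338⟩, ⟨nat_lit 0, nat_lit 100, nat_lit 100, nat_lit 80, nat_lit 852505660⟩]⟩
noncomputable def p066_l133 : Lf2 := ⟨nat_lit 0, nat_lit 10, [nat_lit 0, nat_lit 5, nat_lit 5, nat_lit 20], false, nat_lit 0, nat_lit 80, nat_lit 160, nat_lit 300, ⟨nat_lit 826, nat_lit 0, nat_lit 174, nat_lit 7, nat_lit 159, nat_lit 0, nat_lit 26, nat_lit 0, nat_lit 4817, nat_lit 232, nat_lit 121536, nat_lit 300, nat_lit 57811659, nat_lit 0, nat_lit 0, nat_lit 1998680, false, false⟩,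
 nat_lit 13973, nat_lit 0, nat_lit 0, nat_lit 0, nat_lit 8891, nat_lit 8891, nat_lit 1080, nat_lit 0, nat_lit 0, nat_lit 771, nat_lit 0, nat_lit 0, nat_lit 0, nat_lit 0, nat_lit 0, nat_lit 174000, nat_lit 0, nat_lit 0, [(nat_lit 12, [(nat_lit 6, nat_lit 174)])],
 ⟨p066_k0, nat_lit 0, nat_lit 0, nat_lit 522, nat_lit 0, nat_lit 626590, [nat_lit 2909500801, nat_lit 4966297601, nat_lit 7191144800], [], [nat_lit 22110132772, nat_lit 23382980752, nat_lit 20982774568, nat_lit 22157514784, nat_lit 18192910396, nat_lit 19370679450, nat_lit 20175849644, nat_lit 18233547764], nat_lit 1271250, nat_lit 1271250, nat_lit 382400, nat_lit 780000, nat_lit 0, nat_lit 490000, [nat_lit 780000, nat_lit 1435000, nat_lit 1271250], [nat_lit 8, nat_lit 40, nat_lit 40, nat_lit 80, nat_lit 1, nat_lit 260, nat_lit 50, nat_lit 8]⟩, ⟨p066_k0, nat_lit 0, nat_lit 0, nat_lit 429, nat_lit 0, nat_lit 626590, [nat_lit 2710932000, nat_lit 5162500000,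 nat_lit 8129492000], [], [nat_lit 13805491427, nat_lit 15514557470, nat_lit 12047376039, nat_lit 13740857103, nat_lit 20280930736, nat_lit 22339880251, nat_lit 20965928815, nat_lit 19949946020], nat_lit 1271250, nat_lit 1271250, nat_lit 382400, nat_lit 780000, nat_lit 1100001, nat_lit 2298750, [nat_lit 780000, nat_lit 1435000, nat_lit 1271250], [nat_lit 8, nat_lit 40, nat_lit 40, nat_lit 80, nat_lit 1, nat_lit 345, nat_lit 125, nat_lit 10]⟩,
 ⟨nat_lit 5000, nat_lit 5478, ⟨.ofNat (nat_lit 330654), .ofNat (nat_lit 435548), .ofNat (nat_lit 352005), .ofNat (nat_lit 456895), .ofNat (nat_lit 342856), .ofNat (nat_lit 442843), .ofNat (nat_lit 364277), .ofNat (nat_lit 464262)⟩, ⟨.negSucc (nat_lit 45522), .ofNat (nat_lit 104343), .negSucc (nat_lit 2832), .ofNat (nat_lit 147057), .negSucc (nat_lit 28572), .ofNat (nat_lit 114284), .ofNat (nat_lit 0), .ofNat (nat_lit 157141)⟩⟩, [⟨nat_lit 0, nat_lit 100, nat_lit 100, nat_lit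 90, nat_lit 587822303⟩, ⟨nat_lit 7, nat_lit 100, nat_lit 94, nat_lit 75, nat_lit 602996789⟩]⟩
noncomputable def p066_l134 : Lf2 := ⟨nat_lit 0, nat_lit 10, [nat_lit 0, nat_lit 5, nat_lit 5, nat_lit 20], false, nat_lit 0, nat_lit 80, nat_lit 160, nat_lit 300, ⟨nat_lit 496, nat_lit 0, nat_lit 504, nat_lit 7, nat_lit 173, nat_lit 504, nat_lit 28, nat_lit 504, nat_lit 6667, nat_lit 235, nat_lit 46064, nat_lit 267, nat_lit 56414251, nat_lit 0, nat_lit 0, nat_lit 2181659, false, false⟩,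
 nat_lit 7395, nat_lit 0, nat_lit 0, nat_lit 0, nat_lit 5119, nat_lit 4705, nat_lit 441, nat_lit 0, nat_lit 0, nat_lit 433, nat_lit 0, nat_lit 0, nat_lit 0, nat_lit 0, nat_lit 0, nat_lit 504000, nat_lit 0, nat_lit 0, [(nat_lit 15, [(nat_lit 6, nat_lit 504)])],
 ⟨p066_k1, nat_lit 0, nat_lit 0, nat_lit 515, nat_lit 0, nat_lit 748470, [nat_lit 2121792000, nat_lit 1943219201, nat_lit 1303708800], [], [nat_lit 17822395866, nat_lit 19481112456, nat_lit 17840620066, nat_lit 19046024540, nat_lit 16294047690, nat_lit 17185033148, nat_lit 17665915844, nat_lit 17164310676], nat_lit 1271250, nat_lit 1271250, nat_lit 490000, nat_lit 780000, nat_lit 0, nat_lit 490000, [nat_lit 780000, nat_lit 1435000, nat_lit 1271250], [nat_lit 18, nat_lit 40, nat_lit 40, nat_lit 80, nat_lit 2, nat_lit 260, nat_lit 50, nat_lit 9]⟩, ⟨p066_k0, nat_lit 0, nat_lit 0, nat_lit 499, nat_lit 0, nat_lit 829096, [nat_lit 1627872000, nat_lit 3100000000,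 nat_lit 4881632000], [], [nat_lit 10181229817, nat_lit 11036274980, nat_lit 9746656525, nat_lit 10627646120, nat_lit 11926782008, nat_lit 13425116734, nat_lit 13466697717, nat_lit 12731036329], nat_lit 1271250, nat_lit 1271250, nat_lit 490000, nat_lit 780000, nat_lit 1100001, nat_lit 2298750, [nat_lit 780000, nat_lit 1435000, nat_lit 1271250], [nat_lit 8, nat_lit 40, nat_lit 40, nat_lit 80, nat_lit 1, nat_lit 345, nat_lit 125, nat_lit 9]⟩,
 ⟨nat_lit 4472, nat_lit 5000, ⟨.ofNat (nat_lit 371392), .ofNat (nat_lit 442816), .ofNat (nat_lit 414225), .ofNat (nat_lit 485648), .ofNat (nat_lit 382295), .ofNat (nat_lit 450269), .ofNat (nat_lit 425403), .ofNat (nat_lit 493376)⟩, ⟨.negSucc (nat_lit 28572), .ofNat (nat_lit 114284), .ofNat (nat_lit 0), .ofNat (nat_lit 157141), .negSucc (nat_lit 12423), .ofNat (nat_lit 123532), .ofNat (nat_lit 0), .ofNat (nat_lit 166665)⟩⟩, [⟨nat_lit 0, nat_lit 97, nat_lit 93, nat_lit 100, nat_lit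 293403582⟩, ⟨nat_lit 7, nat_lit 100, nat_lit 90, nat_lit 74, nat_lit 292244747⟩]⟩
noncomputable def p066_l135 : Lf2 := ⟨nat_lit 0, nat_lit 10, [nat_lit 0, nat_lit 5, nat_lit 5, nat_lit 20], false, nat_lit 80, nat_lit 160, nat_lit 160, nat_lit 300, ⟨nat_lit 818, nat_lit 0, nat_lit 182, nat_lit 7, nat_lit 166, nat_lit 182, nat_lit 83, nat_lit 182, nat_lit 64067, nat_lit 277, nat_lit 45717, nat_lit 267, nat_lit 53634707, nat_lit 0, nat_lit 0, nat_lit 3240317, false, false⟩,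
 nat_lit 14712, nat_lit 0, nat_lit 0, nat_lit 0, nat_lit 9362, nat_lit 9362, nat_lit 1065, nat_lit 0, nat_lit 0, nat_lit 791, nat_lit 0, nat_lit 0, nat_lit 0, nat_lit 0, nat_lit 0, nat_lit 182000, nat_lit 0, nat_lit 0, [(nat_lit 12, [(nat_lit 6, nat_lit 182)]), (nat_lit 15, [(nat_lit 6, nat_lit 182)])],
 ⟨p066_k0, nat_lit 0, nat_lit 0, nat_lit 572, nat_lit 0, nat_lit 829096, [nat_lit 2892374401, nat_lit 4907276800, nat_lit 7094382400], [], [nat_lit 18665719301, nat_lit 18946843574, nat_lit 15256804784, nat_lit 17494780656, nat_lit 15785750538, nat_lit 17907872780, nat_lit 17648767377, nat_lit 16506471728], nat_lit 1271250, nat_lit 1271250, nat_lit 382400, nat_lit 780000, nat_lit 490000, nat_lit 1100001, [nat_lit 780000, nat_lit 1435000, nat_lit 1271250], [nat_lit 8, nat_lit 40, nat_lit 40, nat_lit 80, nat_lit 1, nat_lit 289, nat_lit 75, nat_lit 8]⟩, ⟨p066_k0, nat_lit 0, nat_lit 0, nat_lit 508, nat_lit 0, nat_lit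 829096, [nat_lit 2684676000, nat_lit 5112500000, nat_lit 8050756000], [], [nat_lit 13011108760, nat_lit 16820224656, nat_lit 11223481155, nat_lit 14755776339, nat_lit 20470019424, nat_lit 24732542030, nat_lit 19992123762, nat_lit 22014791000], nat_lit 1271250, nat_lit 1271250, nat_lit 382400, nat_lit 780000, nat_lit 1100001, nat_lit 2298750, [nat_lit 780000, nat_lit 1435000, nat_lit 1271250], [nat_lit 8, nat_lit 40, nat_lit 40, nat_lit 80, nat_lit 1, nat_lit 345, nat_lit 125, nat_lit 10]⟩,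
 ⟨nat_lit 4472, nat_lit 5478, ⟨.ofNat (nat_lit 330579), .ofNat (nat_lit 435455), .ofNat (nat_lit 373223), .ofNat (nat_lit 478080), .ofNat (nat_lit 355064), .ofNat (nat_lit 450202), .ofNat (nat_lit 398126), .ofNat (nat_lit 493246)⟩, ⟨.ofNat (nat_lit 104343), .ofNat (nat_lit 254209), .ofNat (nat_lit 147057), .ofNat (nat_lit 296923), .ofNat (nat_lit 123532), .ofNat (nat_lit 259489), .ofNat (nat_lit 166665), .ofNat (nat_lit 302621)⟩⟩, [⟨nat_lit 0, nat_lit 100, nat_lit 100, nat_lit 100, nat_lit 595643512⟩, ⟨nat_lit 7, nat_lit 100, nat_lit 90, nat_lit 74, nat_lit 676691198⟩]⟩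
noncomputable def b_V_700_700_10_15 : St := ⟨true, nat_lit 1, nat_lit 1, nat_lit 1, nat_lit 80, nat_lit 280, nat_lit 320, nat_lit 280, nat_lit 320, nat_lit 64, nat_lit 120, nat_lit 40, nat_lit 80, nat_lit 0, nat_lit 160, nat_lit 0, nat_lit 300, nat_lit 0, nat_lit 40, nat_lit 0, nat_lit 0, nat_lit 0, nat_lit 0⟩
theorem d_V_700_700_10_15 (h : EB TB.env) : Dead b_V_700_700_10_15 := chkB_sound0 h (T :=
(.spl (nat_lit 5) (nat_lit 160)
(.spl (nat_lit 4) (nat_lit 80)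
(.leaf p066_l131)
(.leaf p066_l132))
(.spl (nat_lit 4) (nat_lit 80)
(.spl (nat_lit 0) (nat_lit 300)
(.ord (.leaf p066_l133))
(.trZ (nat_lit 0) (nat_lit 100) (nat_lit 94) (nat_lit 88) (nat_lit 80) (.leaf p066_l134)))
(.leaf p066_l135)))) (by decide +kernel)

end B2
end Pool.Agent.Lib.MP_6947cd_al
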