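import Pool.Agent.Lib.MP_6947cd_al.ZB.Pre

/-!
Problem MP_6947cd_al (Chollet).  Case B, second entry in [2/5, 17/20]: certificates of the tree, part P067 (generated).
-/

set_option autoImplicit false
set_option linter.all false

namespace Pool.Agent.Lib.MP_6947cd_al
namespace B2

open Ent Fr B1 PkA

noncomputable def p067_k0 : C1.Kn := ⟨[nat_lit 60, nat_lit 100, nat_lit 140], [nat_lit 0, nat_lit 0, nat_lit 2047], [(nat_lit 0, nat_lit 0, nat_lit 0), (nat_lit 0, nat_lit 0, nat_lit 0), (nat_lit 1000, nat_lit 993, nat_lit 781)], (nat_lit 94, nat_lit 100, nat_lit 62)⟩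
noncomputable def p067_k1 : C1.Kn := ⟨[nat_lit 60, nat_lit 80, nat_lit 120], [nat_lit 0, nat_lit 0, nat_lit 1064], [(nat_lit 0, nat_lit 0, nat_lit 0), (nat_lit 0, nat_lit 0, nat_lit 0), (nat_lit 1000, nat_lit 917, nat_lit 415)], (nat_lit 92, nat_lit 100, nat_lit 44)⟩
noncomputable def p067_k2 : C1.Kn := ⟨[nat_lit 60, nat_lit 80, nat_lit 100], [nat_lit 0, nat_lit 0, nat_lit 534], [(nat_lit 0, nat_lit 0, nat_lit 0), (nat_lit 0, nat_lit 0, nat_lit 0), (nat_lit 1000, nat_lit 917, nat_lit 393)], (nat_lit 92, nat_lit 100, nat_lit 28)⟩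
noncomputable def p067_k3 : C1.Kn := ⟨[nat_lit 60, nat_lit 100, nat_lit 120], [nat_lit 0, nat_lit 0, nat_lit 1164], [(nat_lit 0, nat_lit 0, nat_lit 0), (nat_lit 0, nat_lit 0, nat_lit 0), (nat_lit 1000, nat_lit 933, nat_lit 572)], (nat_lit 92, nat_lit 100, nat_lit 44)⟩
noncomputable def p067_k4 : C1.Kn := ⟨[nat_lit 60, nat_lit 100, nat_lit 120], [nat_lit 0, nat_lit 0, nat_lit 1164], [(nat_lit 0, nat_lit 0, nat_lit 0), (nat_lit 0, nat_lit 0, nat_lit 0), (nat_lit 1000, nat_lit 933, nat_lit 572)], (nat_lit 93, nat_lit 100, nat_lit 55)⟩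
noncomputable def p067_k5 : C1.Kn := ⟨[nat_lit 60, nat_lit 100, nat_lit 120], [nat_lit 0, nat_lit 0, nat_lit 1164], [(nat_lit 0, nat_lit 0, nat_lit 0), (nat_lit 0, nat_lit 0, nat_lit 0), (nat_lit 1000, nat_lit 933, nat_lit 572)], (nat_lit 93, nat_lit 100, nat_lit 58)⟩
noncomputable def p067_k6 : C1.Kn := ⟨[nat_lit 60, nat_lit 100, nat_lit 140], [nat_lit 0, nat_lit 151, nat_lit 2175], [(nat_lit 0, nat_lit 0, nat_lit 0), (nat_lit 1000, nat_lit 977, nat_lit 59), (nat_lit 1000, nat_lit 974, nat_lit 785)], (nat_lit 92, nat_lit 100, nat_lit 61)⟩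
noncomputable def p067_k7 : C1.Kn := ⟨[nat_lit 60, nat_lit 100, nat_lit 120], [nat_lit 0, nat_lit 302, nat_lit 1376], [(nat_lit 0, nat_lit 0, nat_lit 0), (nat_lit 1000, nat_lit 953, nat_lit 118), (nat_lit 1000, nat_lit 911, nat_lit 628)], (nat_lit 91, nat_lit 100, nat_lit 61)⟩
noncomputable def p067_k8 : C1.Kn := ⟨[nat_lit 60, nat_lit 100, nat_lit 120], [nat_lit 0, nat_lit 609, nat_lit 1609], [(nat_lit 0, nat_lit 0, nat_lit 0), (nat_lit 1000, nat_lit 905, nat_lit 238), (nat_lit 1000, nat_lit 882, nat_lit 668)], (nat_lit 87, nat_lit 100, nat_lit 60)⟩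
noncomputable def p067_k9 : C1.Kn := ⟨[nat_lit 60, nat_lit 80, nat_lit 120], [nat_lit 0, nat_lit 304, nat_lit 1346], [(nat_lit 0, nat_lit 0, nat_lit 0), (nat_lit 1000, nat_lit 905, nat_lit 238), (nat_lit 1000, nat_lit 871, nat_lit 407)], (nat_lit 87, nat_lit 100, nat_lit 60)⟩
noncomputable def p067_k10 : C1.Kn := ⟨[nat_lit 60, nat_lit 80, nat_lit 140], [nat_lit 0, nat_lit 0, nat_lit 1595], [(nat_lit 0, nat_lit 0, nat_lit 0), (nat_lit 0, nat_lit 0, nat_lit 0), (nat_lit 1000, nat_lit 917, nat_lit 415)], (nat_lit 94, nat_lit 100, nat_lit 62)⟩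
noncomputable def p067_k11 : C1.Kn := ⟨[nat_lit 60, nat_lit 80, nat_lit 140], [nat_lit 0, nat_lit 75, nat_lit 1666], [(nat_lit 0, nat_lit 0, nat_lit 0), (nat_lit 1000, nat_lit 977, nat_lit 59), (nat_lit 1000, nat_lit 905, nat_lit 414)], (nat_lit 92, nat_lit 100, nat_lit 61)⟩
noncomputable def p067_k12 : C1.Kn := ⟨[nat_lit 60, nat_lit 100, nat_lit 120], [nat_lit 0, nat_lit 455, nat_lit 1489], [(nat_lit 0, nat_lit 0, nat_lit 0), (nat_lit 1000, nat_lit 929, nat_lit 178), (nat_lit 1000, nat_lit 895, nat_lit 641)], (nat_lit 89, nat_lit 100, nat_lit 61)⟩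
noncomputable def p067_k13 : C1.Kn := ⟨[nat_lit 60, nat_lit 80, nat_lit 100], [nat_lit 0, nat_lit 42, nat_lit 577], [(nat_lit 0, nat_lit 0, nat_lit 0), (nat_lit 1000, nat_lit 987, nat_lit 33), (nat_lit 1000, nat_lit 910, nat_lit 411)], (nat_lit 92, nat_lit 100, nat_lit 28)⟩
noncomputable def p067_k14 : C1.Kn := ⟨[nat_lit 60, nat_lit 80, nat_lit 120], [nat_lit 0, nat_lit 42, nat_lit 1110], [(nat_lit 0, nat_lit 0, nat_lit 0), (nat_lit 1000, nat_lit 987, nat_lit 33), (nat_lit 1000, nat_lit 910, nat_lit 417)], (nat_lit 91, nat_lit 100, nat_lit 44)⟩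
noncomputable def p067_k15 : C1.Kn := ⟨[nat_lit 60, nat_lit 80, nat_lit 120], [nat_lit 0, nat_lit 119, nat_lit 1178], [(nat_lit 0, nat_lit 0, nat_lit 0), (nat_lit 1000, nat_lit 963, nat_lit 93), (nat_lit 1000, nat_lit 898, nat_lit 413)], (nat_lit 91, nat_lit 100, nat_lit 61)⟩
noncomputable def p067_k16 : C1.Kn := ⟨[nat_lit 60, nat_lit 80, nat_lit 140], [nat_lit 0, nat_lit 42, nat_lit 1644], [(nat_lit 0, nat_lit 0, nat_lit 0), (nat_lit 1000, nat_lit 987, nat_lit 33), (nat_lit 1000, nat_lit 910, nat_lit 417)], (nat_lit 93, nat_lit 100, nat_lit 61)⟩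
noncomputable def p067_k17 : C1.Kn := ⟨[nat_lit 60, nat_lit 100, nat_lit 120], [nat_lit 0, nat_lit 238, nat_lit 1332], [(nat_lit 0, nat_lit 0, nat_lit 0), (nat_lit 1000, nat_lit 963, nat_lit 93), (nat_lit 1000, nat_lit 916, nat_lit 621)], (nat_lit 91, nat_lit 100, nat_lit 61)⟩
noncomputable def p067_k18 : C1.Kn := ⟨[nat_lit 60, nat_lit 80, nat_lit 120], [nat_lit 0, nat_lit 151, nat_lit 1205], [(nat_lit 0, nat_lit 0, nat_lit 0), (nat_lit 1000, nat_lit 953, nat_lit 118), (nat_lit 1000, nat_lit 894, nat_lit 411)], (nat_lit 91, nat_lit 100, nat_lit 61)⟩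
noncomputable def p067_k19 : C1.Kn := ⟨[nat_lit 60, nat_lit 80, nat_lit 100], [nat_lit 0, nat_lit 151, nat_lit 679], [(nat_lit 0, nat_lit 0, nat_lit 0), (nat_lit 1000, nat_lit 953, nat_lit 118), (nat_lit 1000, nat_lit 894, nat_lit 411)], (nat_lit 89, nat_lit 100, nat_lit 44)⟩
noncomputable def p067_k20 : C1.Kn := ⟨[nat_lit 60, nat_lit 80, nat_lit 100], [nat_lit 0, nat_lit 228, nat_lit 751], [(nat_lit 0, nat_lit 0, nat_lit 0), (nat_lit 1000, nat_lit 929, nat_lit 178), (nat_lit 1000, nat_lit 883, nat_lit 407)], (nat_lit 88, nat_lit 100, nat_lit 44)⟩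
noncomputable def p067_k21 : C1.Kn := ⟨[nat_lit 60, nat_lit 100, nat_lit 120], [nat_lit 0, nat_lit 909, nat_lit 1866], [(nat_lit 0, nat_lit 0, nat_lit 0), (nat_lit 1000, nat_lit 858, nat_lit 354), (nat_lit 1000, nat_lit 849, nat_lit 705)], (nat_lit 84, nat_lit 100, nat_lit 60)⟩
noncomputable def p067_k22 : C1.Kn := ⟨[nat_lit 60, nat_lit 80, nat_lit 120], [nat_lit 0, nat_lit 456, nat_lit 1495], [(nat_lit 0, nat_lit 0, nat_lit 0), (nat_lit 1000, nat_lit 859, nat_lit 351), (nat_lit 1000, nat_lit 848, nat_lit 406)], (nat_lit 84, nat_lit 100, nat_lit 60)⟩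
noncomputable def p067_k23 : C1.Kn := ⟨[nat_lit 60, nat_lit 100, nat_lit 120], [nat_lit 0, nat_lit 1063, nat_lit 2005], [(nat_lit 0, nat_lit 0, nat_lit 0), (nat_lit 1000, nat_lit 834, nat_lit 414), (nat_lit 1000, nat_lit 833, nat_lit 732)], (nat_lit 82, nat_lit 100, nat_lit 60)⟩
noncomputable def p067_k24 : C1.Kn := ⟨[nat_lit 60, nat_lit 100, nat_lit 160], [nat_lit 0, nat_lit 0, nat_lit 3069], [(nat_lit 0, nat_lit 0, nat_lit 0), (nat_lit 0, nat_lit 0, nat_lit 0), (nat_lit 1000, nat_lit 999, nat_lit 798)], (nat_lit 100, nat_lit 95, nat_lit 87)⟩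
noncomputable def p067_k25 : C1.Kn := ⟨[nat_lit 60, nat_lit 100, nat_lit 140], [nat_lit 0, nat_lit 609, nat_lit 2558], [(nat_lit 0, nat_lit 0, nat_lit 0), (nat_lit 1000, nat_lit 905, nat_lit 238), (nat_lit 1000, nat_lit 904, nat_lit 760)], (nat_lit 94, nat_lit 100, nat_lit 87)⟩
noncomputable def p067_k26 : C1.Kn := ⟨[nat_lit 60, nat_lit 160], [nat_lit 0, nat_lit 0], [(nat_lit 0, nat_lit 0, nat_lit 0), (nat_lit 0, nat_lit 0, nat_lit 0)], (nat_lit 100, nat_lit 95, nat_lit 87)⟩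
noncomputable def p067_k27 : C1.Kn := ⟨[nat_lit 60, nat_lit 100, nat_lit 140], [nat_lit 0, nat_lit 0, nat_lit 2047], [(nat_lit 0, nat_lit 0, nat_lit 0), (nat_lit 0, nat_lit 0, nat_lit 0), (nat_lit 1000, nat_lit 993, nat_lit 781)], (nat_lit 99, nat_lit 100, nat_lit 77)⟩
noncomputable def p067_k28 : C1.Kn := ⟨[nat_lit 60, nat_lit 100, nat_lit 140], [nat_lit 0, nat_lit 302, nat_lit 2304], [(nat_lit 0, nat_lit 0, nat_lit 0), (nat_lit 1000, nat_lit 953, nat_lit 118), (nat_lit 1000, nat_lit 952, nat_lit 781)], (nat_lit 94, nat_lit 100, nat_lit 75)⟩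
noncomputable def p067_k29 : C1.Kn := ⟨[nat_lit 60, nat_lit 100, nat_lit 160], [nat_lit 0, nat_lit 302, nat_lit 3303], [(nat_lit 0, nat_lit 0, nat_lit 0), (nat_lit 1000, nat_lit 953, nat_lit 118), (nat_lit 1000, nat_lit 952, nat_lit 781)], (nat_lit 100, nat_lit 100, nat_lit 89)⟩
noncomputable def p067_k30 : C1.Kn := ⟨[nat_lit 60, nat_lit 100, nat_lit 140], [nat_lit 0, nat_lit 909, nat_lit 2819], [(nat_lit 0, nat_lit 0, nat_lit 0), (nat_lit 1000, nat_lit 858, nat_lit 354), (nat_lit 1000, nat_lit 858, nat_lit 746)], (nat_lit 89, nat_lit 100, nat_lit 85)⟩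
noncomputable def p067_k31 : C1.Kn := ⟨[nat_lit 60, nat_lit 100, nat_lit 140], [nat_lit 0, nat_lit 609, nat_lit 2558], [(nat_lit 0, nat_lit 0, nat_lit 0), (nat_lit 1000, nat_lit 905, nat_lit 238), (nat_lit 1000, nat_lit 904, nat_lit 760)], (nat_lit 90, nat_lit 100, nat_lit 74)⟩
noncomputable def p067_l0 : Lf2 := ⟨nat_lit 0, nat_lit 10, [nat_lit 0, nat_lit 5, nat_lit 5, nat_lit 20], false, nat_lit 160, nat_lit 240, nat_lit 0, nat_lit 160, ⟨nat_lit 908, nat_lit 0, nat_lit 92, nat_lit 7, nat_lit 159, nat_lit 92, nat_lit 136, nat_lit 92, nat_lit 173400, nat_lit 317, nat_lit 121536, nat_lit 300, nat_lit 50464182, nat_lit 0, nat_lit 0, nat_lit 3893144, false, false⟩,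
 nat_lit 15576, nat_lit 0, nat_lit 0, nat_lit 0, nat_lit 9911, nat_lit 9911, nat_lit 1130, nat_lit 0, nat_lit 0, nat_lit 1225, nat_lit 0, nat_lit 0, nat_lit 0, nat_lit 0, nat_lit 0, nat_lit 92000, nat_lit 0, nat_lit 0, [(nat_lit 12, [(nat_lit 6, nat_lit 92)])],
 ⟨p067_k0, nat_lit 0, nat_lit 0, nat_lit 376, nat_lit 0, nat_lit 590887, [nat_lit 3085046400, nat_lit 5571260800, nat_lit 8440398400], [], [nat_lit 16853689883, nat_lit 16864360167, nat_lit 14116250924, nat_lit 15477683360, nat_lit 17552109167, nat_lit 19783231822, nat_lit 20085432016, nat_lit 17632414236], nat_lit 1271250, nat_lit 1271250, nat_lit 382400, nat_lit 780000, nat_lit 1100001, nat_lit 1785000, [nat_lit 780000, nat_lit 1435000, nat_lit 1271250], [nat_lit 8, nat_lit 40, nat_lit 40, nat_lit 80, nat_lit 1, nat_lit 317, nat_lit 100, nat_lit 9]⟩, ⟨p067_k0, nat_lit 0, nat_lit 0, nat_lit 508, nat_lit 0, nat_lit 590887, [nat_lit 2980056000, nat_lit 5675000000,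 nat_lit 8936536000], [], [nat_lit 28223539591, nat_lit 24038887040, nat_lit 18508270393, nat_lit 20800508542, nat_lit 13370573197, nat_lit 14794531913, nat_lit 15752723256, nat_lit 13312492432], nat_lit 1271250, nat_lit 1271250, nat_lit 382400, nat_lit 780000, nat_lit 0, nat_lit 1100001, [nat_lit 780000, nat_lit 1435000, nat_lit 1271250], [nat_lit 8, nat_lit 40, nat_lit 40, nat_lit 80, nat_lit 1, nat_lit 289, nat_lit 75, nat_lit 9]⟩,
 ⟨nat_lit 5000, nat_lit 5478, ⟨.ofNat (nat_lit 330654), .ofNat (nat_lit 435548), .ofNat (nat_lit 352005), .ofNat (nat_lit 456895), .ofNat (nat_lit 342856), .ofNat (nat_lit 442843), .ofNat (nat_lit 364277), .ofNat (nat_lit 464262)⟩, ⟨.ofNat (nat_lit 254209), .ofNat (nat_lit 404075), .ofNat (nat_lit 275566), .ofNat (nat_lit 425432), .ofNat (nat_lit 257141), .ofNat (nat_lit 399998), .ofNat (nat_lit 278570), .ofNat (nat_lit 421427)⟩⟩, [⟨nat_lit 0, nat_lit 100, nat_lit 100, nat_lit 80, nat_lit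 1074705651⟩, ⟨nat_lit 4, nat_lit 100, nat_lit 92, nat_lit 68, nat_lit 360687512⟩]⟩
noncomputable def p067_l1 : Lf2 := ⟨nat_lit 0, nat_lit 10, [nat_lit 0, nat_lit 5, nat_lit 5, nat_lit 20], false, nat_lit 160, nat_lit 240, nat_lit 0, nat_lit 160, ⟨nat_lit 1000, nat_lit 0, nat_lit 0, nat_lit 0, nat_lit 0, nat_lit 0, nat_lit 0, nat_lit 0, nat_lit 0, nat_lit 0, nat_lit 0, nat_lit 0, nat_lit 0, nat_lit 0, nat_lit 0, nat_lit 0, false, false⟩,
 nat_lit 15799, nat_lit 0, nat_lit 0, nat_lit 0, nat_lit 10053, nat_lit 10053, nat_lit 1255, nat_lit 0, nat_lit 0, nat_lit 979, nat_lit 0, nat_lit 0, nat_lit 0, nat_lit 0, nat_lit 0, nat_lit 0, nat_lit 0, nat_lit 0, [],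
 ⟨p067_k0, nat_lit 0, nat_lit 0, nat_lit 342, nat_lit 0, nat_lit 502366, [nat_lit 3282000000, nat_lit 6250000000, nat_lit 9842000000], [], [nat_lit 17560280336, nat_lit 17073886463, nat_lit 13804701195, nat_lit 15588774386, nat_lit 18188005396, nat_lit 19843693204, nat_lit 21214213168, nat_lit 18187564682], nat_lit 1271250, nat_lit 1271250, nat_lit 382400, nat_lit 780000, nat_lit 1100001, nat_lit 1785000, [nat_lit 780000, nat_lit 1435000, nat_lit 1271250], [nat_lit 8, nat_lit 40, nat_lit 40, nat_lit 80, nat_lit 1, nat_lit 317, nat_lit 100, nat_lit 9]⟩, ⟨p067_k0, nat_lit 0, nat_lit 0, nat_lit 476, nat_lit 0, nat_lit 502366, [nat_lit 3282000000, nat_lit 6250000000, nat_lit 9842000000], [], [nat_lit 31219911812, nat_lit 27459997117, nat_lit 22623125875, nat_lit 25002444233, nat_lit 17898974912, nat_lit 19101405320, nat_lit 19222329544, nat_lit 17390344299], nat_lit 1271250, nat_lit 1271250, nat_lit 382400, nat_lit 780000,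 nat_lit 0, nat_lit 1100001, [nat_lit 780000, nat_lit 1435000, nat_lit 1271250], [nat_lit 8, nat_lit 40, nat_lit 40, nat_lit 80, nat_lit 1, nat_lit 289, nat_lit 75, nat_lit 9]⟩,
 zbF0, [⟨nat_lit 0, nat_lit 100, nat_lit 100, nat_lit 90, nat_lit 1028164683⟩]⟩
noncomputable def p067_l2 : Lf2 := ⟨nat_lit 0, nat_lit 10, [nat_lit 0, nat_lit 5, nat_lit 5, nat_lit 20], false, nat_lit 160, nat_lit 240, nat_lit 160, nat_lit 240, ⟨nat_lit 1000, nat_lit 0, nat_lit 0, nat_lit 0, nat_lit 0, nat_lit 0, nat_lit 0, nat_lit 0, nat_lit 0, nat_lit 0, nat_lit 0, nat_lit 0, nat_lit 0, nat_lit 0, nat_lit 0, nat_lit 0, false, false⟩,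
 nat_lit 16115, nat_lit 0, nat_lit 0, nat_lit 0, nat_lit 10255, nat_lit 10255, nat_lit 1229, nat_lit 0, nat_lit 0, nat_lit 1229, nat_lit 0, nat_lit 0, nat_lit 0, nat_lit 0, nat_lit 0, nat_lit 0, nat_lit 0, nat_lit 0, [],
 ⟨p067_k0, nat_lit 0, nat_lit 0, nat_lit 429, nat_lit 0, nat_lit 626590, [nat_lit 3282000000, nat_lit 6250000000, nat_lit 9842000000], [], [nat_lit 17319726292, nat_lit 18007505194, nat_lit 15146641420, nat_lit 16536720800, nat_lit 18673693512, nat_lit 19924768889, nat_lit 20888883280, nat_lit 18234564680], nat_lit 1271250, nat_lit 1271250, nat_lit 382400, nat_lit 780000, nat_lit 1100001, nat_lit 1785000, [nat_lit 780000, nat_lit 1435000, nat_lit 1271250], [nat_lit 8, nat_lit 40, nat_lit 40, nat_lit 80, nat_lit 1, nat_lit 317, nat_lit 100, nat_lit 9]⟩, ⟨p067_k0, nat_lit 0, nat_lit 0, nat_lit 429, nat_lit 0, nat_lit 626590, [nat_lit 3282000000, nat_lit 6250000000, nat_lit 9842000000], [], [nat_lit 17319726292,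 nat_lit 18007505194, nat_lit 15146641420, nat_lit 16536720800, nat_lit 18673693512, nat_lit 19924768889, nat_lit 20888883280, nat_lit 18234564680], nat_lit 1271250, nat_lit 1271250, nat_lit 382400, nat_lit 780000, nat_lit 1100001, nat_lit 1785000, [nat_lit 780000, nat_lit 1435000, nat_lit 1271250], [nat_lit 8, nat_lit 40, nat_lit 40, nat_lit 80, nat_lit 1, nat_lit 317, nat_lit 100, nat_lit 9]⟩,
 zbF0, [⟨nat_lit 0, nat_lit 100, nat_lit 100, nat_lit 90, nat_lit 380476501⟩, ⟨nat_lit 16, nat_lit 94, nat_lit 100, nat_lit 75, nat_lit 460750460⟩, ⟨nat_lit 7, nat_lit 100, nat_lit 94, nat_lit 75, nat_lit 460457741⟩]⟩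
noncomputable def p067_l3 : Lf2 := ⟨nat_lit 0, nat_lit 10, [nat_lit 0, nat_lit 5, nat_lit 5, nat_lit 20], false, nat_lit 160, nat_lit 240, nat_lit 240, nat_lit 300, ⟨nat_lit 850, nat_lit 0, nat_lit 150, nat_lit 7, nat_lit 159, nat_lit 150, nat_lit 140, nat_lit 150, nat_lit 183750, nat_lit 320, nat_lit 121536, nat_lit 300, nat_lit 50136167, nat_lit 0, nat_lit 0, nat_lit 3945596, false, false⟩,
 nat_lit 14373, nat_lit 0, nat_lit 0, nat_lit 0, nat_lit 9146, nat_lit 9146, nat_lit 1015, nat_lit 0, nat_lit 0, nat_lit 1047, nat_lit 0, nat_lit 0, nat_lit 0, nat_lit 0, nat_lit 0, nat_lit 150000, nat_lit 0, nat_lit 0, [(nat_lit 12, [(nat_lit 6, nat_lit 150)])],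
 ⟨p067_k0, nat_lit 0, nat_lit 0, nat_lit 429, nat_lit 0, nat_lit 626590, [nat_lit 2960880001, nat_lit 5143360000, nat_lit 7556780000], [], [nat_lit 17212631808, nat_lit 17566705785, nat_lit 15069344264, nat_lit 16367070560, nat_lit 18302402231, nat_lit 19475097355, nat_lit 20461696576, nat_lit 18073813056], nat_lit 1271250, nat_lit 1271250, nat_lit 382400, nat_lit 780000, nat_lit 1100001, nat_lit 1785000, [nat_lit 780000, nat_lit 1435000, nat_lit 1271250], [nat_lit 8, nat_lit 40, nat_lit 40, nat_lit 80, nat_lit 1, nat_lit 317, nat_lit 100, nat_lit 9]⟩, ⟨p067_k0, nat_lit 0, nat_lit 0, nat_lit 396, nat_lit 0, nat_lit 626590, [nat_lit 2789700000, nat_lit 5312500000, nat_lit 8365700000], [], [nat_lit 15169008400, nat_lit 17111569858, nat_lit 13269339800, nat_lit 15038844096, nat_lit 20867899990, nat_lit 22986121597, nat_lit 18550153262, nat_lit 20527994343], nat_lit 1271250, nat_lit 1271250, nat_lit 382400, nat_lit 780000,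 nat_lit 1271250, nat_lit 1271250, [nat_lit 780000, nat_lit 1435000, nat_lit 1271250], [nat_lit 8, nat_lit 40, nat_lit 40, nat_lit 80, nat_lit 1, nat_lit 345, nat_lit 125, nat_lit 9]⟩,
 ⟨nat_lit 5000, nat_lit 5478, ⟨.ofNat (nat_lit 330654), .ofNat (nat_lit 435548), .ofNat (nat_lit 352005), .ofNat (nat_lit 456895), .ofNat (nat_lit 342856), .ofNat (nat_lit 442843), .ofNat (nat_lit 364277), .ofNat (nat_lit 464262)⟩, ⟨.ofNat (nat_lit 254209), .ofNat (nat_lit 404075), .ofNat (nat_lit 296923), .ofNat (nat_lit 446789), .ofNat (nat_lit 257141), .ofNat (nat_lit 399998), .ofNat (nat_lit 299999), .ofNat (nat_lit 442856)⟩⟩, [⟨nat_lit 0, nat_lit 100, nat_lit 100, nat_lit 90, nat_lit 598844208⟩, ⟨nat_lit 19, nat_lit 100, nat_lit 95, nat_lit 87, nat_lit 539710960⟩, ⟨nat_lit 7, nat_lit 100, nat_lit 94, nat_lit 75, nat_lit 296218246⟩]⟩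
noncomputable def p067_l4 : Lf2 := ⟨nat_lit 0, nat_lit 10, [nat_lit 0, nat_lit 5, nat_lit 5, nat_lit 20], false, nat_lit 240, nat_lit 300, nat_lit 0, nat_lit 80, ⟨nat_lit 1000, nat_lit 0, nat_lit 0, nat_lit 0, nat_lit 0, nat_lit 0, nat_lit 0, nat_lit 0, nat_lit 0, nat_lit 0, nat_lit 0, nat_lit 0, nat_lit 0, nat_lit 0, nat_lit 0, nat_lit 0, false, false⟩,
 nat_lit 16289, nat_lit 0, nat_lit 0, nat_lit 0, nat_lit 10365, nat_lit 10365, nat_lit 1181, nat_lit 0, nat_lit 0, nat_lit 1298, nat_lit 0, nat_lit 0, nat_lit 0, nat_lit 14584461827378, nat_lit 0, nat_lit 0, nat_lit 0, nat_lit 0, [],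
 ⟨p067_k0, nat_lit 0, nat_lit 0, nat_lit 396, nat_lit 0, nat_lit 626590, [nat_lit 3282000000, nat_lit 6250000000, nat_lit 9842000000], [], [nat_lit 18383063138, nat_lit 20182043325, nat_lit 16761188500, nat_lit 17937336905, nat_lit 24277135474, nat_lit 26703752055, nat_lit 21693094280, nat_lit 23959709483], nat_lit 1271250, nat_lit 1271250, nat_lit 382400, nat_lit 780000, nat_lit 1271250, nat_lit 1271250, [nat_lit 780000, nat_lit 1435000, nat_lit 1271250], [nat_lit 8, nat_lit 40, nat_lit 40, nat_lit 80, nat_lit 1, nat_lit 345, nat_lit 125, nat_lit 9]⟩, ⟨p067_k0, nat_lit 0, nat_lit 0, nat_lit 522, nat_lit 0, nat_lit 626590, [nat_lit 3282000000, nat_lit 6250000000, nat_lit 9842000000], [], [nat_lit 23266981920, nat_lit 25634225668, nat_lit 21781966460, nat_lit 23065157700, nat_lit 18496407880, nat_lit 19783584878, nat_lit 19917104600, nat_lit 18293316400], nat_lit 1271250, nat_lit 1271250, nat_lit 382400, nat_lit 780000,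 nat_lit 0, nat_lit 490000, [nat_lit 780000, nat_lit 1435000, nat_lit 1271250], [nat_lit 8, nat_lit 40, nat_lit 40, nat_lit 80, nat_lit 1, nat_lit 260, nat_lit 50, nat_lit 8]⟩,
 zbF0, [⟨nat_lit 0, nat_lit 100, nat_lit 100, nat_lit 90, nat_lit 888276313⟩, ⟨nat_lit 16, nat_lit 100, nat_lit 95, nat_lit 87, nat_lit 340799210⟩, ⟨nat_lit 4, nat_lit 100, nat_lit 94, nat_lit 75, nat_lit 615763570⟩]⟩
noncomputable def p067_l5 : Lf2 := ⟨nat_lit 0, nat_lit 10, [nat_lit 0, nat_lit 5, nat_lit 5, nat_lit 20], false, nat_lit 240, nat_lit 300, nat_lit 80, nat_lit 160, ⟨nat_lit 1000, nat_lit 0, nat_lit 0, nat_lit 0, nat_lit 0, nat_lit 0, nat_lit 0, nat_lit 0, nat_lit 0, nat_lit 0, nat_lit 0, nat_lit 0, nat_lit 0, nat_lit 0, nat_lit 0, nat_lit 0, false, false⟩,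
 nat_lit 18725, nat_lit 0, nat_lit 0, nat_lit 0, nat_lit 10737, nat_lit 11915, nat_lit 1305, nat_lit 0, nat_lit 0, nat_lit 1465, nat_lit 0, nat_lit 0, nat_lit 0, nat_lit 0, nat_lit 0, nat_lit 0, nat_lit 0, nat_lit 0, [],
 ⟨p067_k0, nat_lit 0, nat_lit 0, nat_lit 396, nat_lit 0, nat_lit 626590, [nat_lit 3282000000, nat_lit 6250000000, nat_lit 9842000000], [], [nat_lit 17392143429, nat_lit 20121830368, nat_lit 15677961700, nat_lit 17691123012, nat_lit 24534554862, nat_lit 27022771666, nat_lit 21816104264, nat_lit 24139467509], nat_lit 1271250, nat_lit 1271250, nat_lit 382400, nat_lit 780000, nat_lit 1271250, nat_lit 1271250, [nat_lit 780000, nat_lit 1435000, nat_lit 1271250], [nat_lit 8, nat_lit 40, nat_lit 40, nat_lit 80, nat_lit 1, nat_lit 345, nat_lit 125, nat_lit 9]⟩, ⟨p067_k0, nat_lit 0, nat_lit 0, nat_lit 461, nat_lit 0, nat_lit 626590, [nat_lit 3282000000, nat_lit 6250000000, nat_lit 9842000000], [], [nat_lit 18310896036,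 nat_lit 16297909445, nat_lit 11188653765, nat_lit 13722002045, nat_lit 12421615234, nat_lit 14964134999, nat_lit 15176292920, nat_lit 12428037480], nat_lit 1271250, nat_lit 1271250, nat_lit 382400, nat_lit 780000, nat_lit 490000, nat_lit 1100001, [nat_lit 780000, nat_lit 1435000, nat_lit 1271250], [nat_lit 8, nat_lit 40, nat_lit 40, nat_lit 80, nat_lit 1, nat_lit 289, nat_lit 75, nat_lit 8]⟩,
 zbF0, [⟨nat_lit 0, nat_lit 100, nat_lit 100, nat_lit 80, nat_lit 809775538⟩, ⟨nat_lit 16, nat_lit 100, nat_lit 95, nat_lit 87, nat_lit 329160417⟩, ⟨nat_lit 4, nat_lit 100, nat_lit 94, nat_lit 75, nat_lit 777468789⟩]⟩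
noncomputable def p067_l6 : Lf2 := ⟨nat_lit 0, nat_lit 10, [nat_lit 0, nat_lit 5, nat_lit 5, nat_lit 20], false, nat_lit 240, nat_lit 300, nat_lit 160, nat_lit 240, ⟨nat_lit 1000, nat_lit 0, nat_lit 0, nat_lit 0, nat_lit 0, nat_lit 0, nat_lit 0, nat_lit 0, nat_lit 0, nat_lit 0, nat_lit 0, nat_lit 0, nat_lit 0, nat_lit 0, nat_lit 0, nat_lit 0, false, false⟩,
 nat_lit 16115, nat_lit 0, nat_lit 0, nat_lit 0, nat_lit 10255, nat_lit 10255, nat_lit 1074, nat_lit 0, nat_lit 0, nat_lit 1229, nat_lit 0, nat_lit 0, nat_lit 0, nat_lit 9820737259002, nat_lit 0, nat_lit 0, nat_lit 0, nat_lit 0, [],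
 ⟨p067_k0, nat_lit 0, nat_lit 0, nat_lit 396, nat_lit 0, nat_lit 626590, [nat_lit 3282000000, nat_lit 6250000000, nat_lit 9842000000], [], [nat_lit 19126687995, nat_lit 20913107150, nat_lit 17081497500, nat_lit 18703590610, nat_lit 24201016838, nat_lit 26609418299, nat_lit 21656720360, nat_lit 23906555228], nat_lit 1271250, nat_lit 1271250, nat_lit 382400, nat_lit 780000, nat_lit 1271250, nat_lit 1271250, [nat_lit 780000, nat_lit 1435000, nat_lit 1271250], [nat_lit 8, nat_lit 40, nat_lit 40, nat_lit 80, nat_lit 1, nat_lit 345, nat_lit 125, nat_lit 9]⟩, ⟨p067_k0, nat_lit 0, nat_lit 0, nat_lit 429, nat_lit 0, nat_lit 626590, [nat_lit 3282000000, nat_lit 6250000000, nat_lit 9842000000], [], [nat_lit 17319726292, nat_lit 18007505194, nat_lit 15146641420, nat_lit 16536720800, nat_lit 18673693512, nat_lit 19924768889, nat_lit 20888883280, nat_lit 18234564680], nat_lit 1271250, nat_lit 1271250, nat_lit 382400, nat_lit 780000,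 nat_lit 1100001, nat_lit 1785000, [nat_lit 780000, nat_lit 1435000, nat_lit 1271250], [nat_lit 8, nat_lit 40, nat_lit 40, nat_lit 80, nat_lit 1, nat_lit 317, nat_lit 100, nat_lit 9]⟩,
 zbF0, [⟨nat_lit 0, nat_lit 100, nat_lit 100, nat_lit 90, nat_lit 631941559⟩, ⟨nat_lit 4, nat_lit 100, nat_lit 94, nat_lit 75, nat_lit 970838567⟩]⟩
noncomputable def p067_l7 : Lf2 := ⟨nat_lit 0, nat_lit 10, [nat_lit 0, nat_lit 5, nat_lit 5, nat_lit 20], false, nat_lit 240, nat_lit 276, nat_lit 240, nat_lit 276, ⟨nat_lit 1000, nat_lit 0, nat_lit 0, nat_lit 0, nat_lit 0, nat_lit 0, nat_lit 0, nat_lit 0, nat_lit 0, nat_lit 0, nat_lit 0, nat_lit 0, nat_lit 0, nat_lit 0, nat_lit 0, nat_lit 0, false, false⟩,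
 nat_lit 15694, nat_lit 0, nat_lit 0, nat_lit 0, nat_lit 9987, nat_lit 9987, nat_lit 1176, nat_lit 0, nat_lit 0, nat_lit 1176, nat_lit 0, nat_lit 0, nat_lit 0, nat_lit 855440363266, nat_lit 0, nat_lit 0, nat_lit 0, nat_lit 0, [],
 ⟨p067_k0, nat_lit 0, nat_lit 0, nat_lit 369, nat_lit 0, nat_lit 590887, [nat_lit 3282000000, nat_lit 6250000000, nat_lit 9842000000], [], [nat_lit 19386256629, nat_lit 20618240972, nat_lit 17861886700, nat_lit 18998006632, nat_lit 21186547972, nat_lit 23753506647, nat_lit 19515435108, nat_lit 21321357685], nat_lit 1271250, nat_lit 1271250, nat_lit 382400, nat_lit 780000, nat_lit 1271250, nat_lit 1271250, [nat_lit 780000, nat_lit 1435000, nat_lit 1271250], [nat_lit 8, nat_lit 40, nat_lit 40, nat_lit 80, nat_lit 1, nat_lit 317, nat_lit 100, nat_lit 8]⟩, ⟨p067_k0, nat_lit 0, nat_lit 0, nat_lit 369, nat_lit 0, nat_lit 590887, [nat_lit 3282000000, nat_lit 6250000000, nat_lit 9842000000], [], [nat_lit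 19386256629, nat_lit 20618240972, nat_lit 17861886700, nat_lit 18998006632, nat_lit 21186547972, nat_lit 23753506647, nat_lit 19515435108, nat_lit 21321357685], nat_lit 1271250, nat_lit 1271250, nat_lit 382400, nat_lit 780000, nat_lit 1271250, nat_lit 1271250, [nat_lit 780000, nat_lit 1435000, nat_lit 1271250], [nat_lit 8, nat_lit 40, nat_lit 40, nat_lit 80, nat_lit 1, nat_lit 317, nat_lit 100, nat_lit 8]⟩,
 zbF0, [⟨nat_lit 0, nat_lit 100, nat_lit 100, nat_lit 80, nat_lit 886097740⟩, ⟨nat_lit 16, nat_lit 99, nat_lit 100, nat_lit 77, nat_lit 634027887⟩, ⟨nat_lit 19, nat_lit 99, nat_lit 100, nat_lit 77, nat_lit 634027887⟩]⟩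
noncomputable def p067_l8 : Lf2 := ⟨nat_lit 0, nat_lit 5, [nat_lit 4, nat_lit 5, nat_lit 5, nat_lit 20], false, nat_lit 240, nat_lit 300, nat_lit 240, nat_lit 300, ⟨nat_lit 1000, nat_lit 0, nat_lit 0, nat_lit 0, nat_lit 0, nat_lit 0, nat_lit 0, nat_lit 0, nat_lit 0, nat_lit 0, nat_lit 0, nat_lit 0, nat_lit 0, nat_lit 0, nat_lit 0, nat_lit 0, false, false⟩,
 nat_lit 12589, nat_lit 0, nat_lit 0, nat_lit 0, nat_lit 8010, nat_lit 8010, nat_lit 1303, nat_lit 0, nat_lit 0, nat_lit 1315, nat_lit 0, nat_lit 0, nat_lit 0, nat_lit 0, nat_lit 0, nat_lit 0, nat_lit 0, nat_lit 0, [],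
 ⟨p067_k1, nat_lit 0, nat_lit 0, nat_lit 264, nat_lit 0, nat_lit 427692, [nat_lit 3282000000, nat_lit 4688000000, nat_lit 7968000000], [], [nat_lit 18382965576, nat_lit 20095317236, nat_lit 17752597440, nat_lit 19420506460, nat_lit 22647504676, nat_lit 24684152097, nat_lit 21925585680, nat_lit 23773235920], nat_lit 1271250, nat_lit 1271250, nat_lit 382400, nat_lit 490000, nat_lit 1271250, nat_lit 1271250, [nat_lit 780000, nat_lit 1100000, nat_lit 1785000], [nat_lit 36, nat_lit 40, nat_lit 40, nat_lit 80, nat_lit 7, nat_lit 226, nat_lit 20, nat_lit 7]⟩, ⟨p067_k1, nat_lit 0, nat_lit 0, nat_lit 262, nat_lit 0, nat_lit 427692, [nat_lit 3282000000, nat_lit 4688000000, nat_lit 7968000000], [], [nat_lit 18343065576, nat_lit 19199241406, nat_lit 17712697440, nat_lit 18538381250, nat_lit 22647504676, nat_lit 23665828386, nat_lit 21885685680, nat_lit 22769117070], nat_lit 1271250, nat_lit 1271250, nat_lit 382400, nat_lit 490000,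 nat_lit 1271250, nat_lit 1271250, [nat_lit 780000, nat_lit 1100000, nat_lit 1785000], [nat_lit 36, nat_lit 40, nat_lit 40, nat_lit 80, nat_lit 7, nat_lit 226, nat_lit 20, nat_lit 7]⟩,
 zbF0, [⟨nat_lit 0, nat_lit 100, nat_lit 99, nat_lit 87, nat_lit 673531976⟩, ⟨nat_lit 4, nat_lit 100, nat_lit 97, nat_lit 82, nat_lit 236112050⟩, ⟨nat_lit 7, nat_lit 100, nat_lit 99, nat_lit 83, nat_lit 228554856⟩, ⟨nat_lit 11, nat_lit 100, nat_lit 100, nat_lit 85, nat_lit 469615017⟩]⟩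
noncomputable def p067_l9 : Lf2 := ⟨nat_lit 0, nat_lit 2, [nat_lit 10, nat_lit 5, nat_lit 5, nat_lit 20], false, nat_lit 240, nat_lit 300, nat_lit 240, nat_lit 300, ⟨nat_lit 1000, nat_lit 0, nat_lit 0, nat_lit 0, nat_lit 0, nat_lit 0, nat_lit 0, nat_lit 0, nat_lit 0, nat_lit 0, nat_lit 0, nat_lit 0, nat_lit 0, nat_lit 0, nat_lit 0, nat_lit 0, false, false⟩,
 nat_lit 11354, nat_lit 0, nat_lit 0, nat_lit 0, nat_lit 7225, nat_lit 7225, nat_lit 1199, nat_lit 0, nat_lit 0, nat_lit 1381, nat_lit 0, nat_lit 0, nat_lit 0, nat_lit 0, nat_lit 0, nat_lit 0, nat_lit 0, nat_lit 0, [],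
 ⟨p067_k2, nat_lit 0, nat_lit 0, nat_lit 209, nat_lit 0, nat_lit 412186, [nat_lit 3282000000, nat_lit 4688000000, nat_lit 6250000000], [], [nat_lit 18149330350, nat_lit 19590782250, nat_lit 17874623750, nat_lit 19238341650, nat_lit 21777025150, nat_lit 23217422950, nat_lit 21304930550, nat_lit 22462127775], nat_lit 1271250, nat_lit 1271250, nat_lit 490000, nat_lit 780000, nat_lit 1271250, nat_lit 1271250, [nat_lit 780000, nat_lit 1100000, nat_lit 1442500], [nat_lit 59, nat_lit 40, nat_lit 40, nat_lit 80, nat_lit 3, nat_lit 238, nat_lit 30, nat_lit 8]⟩, ⟨p067_k2, nat_lit 0, nat_lit 0, nat_lit 205, nat_lit 0, nat_lit 412186, [nat_lit 3282000000, nat_lit 4688000000, nat_lit 6250000000], [], [nat_lit 17845617850, nat_lit 18566343800, nat_lit 17570911250, nat_lit 18252770200, nat_lit 21473312650, nat_lit 22277210950, nat_lit 21001218050, nat_lit 21595462088], nat_lit 1271250, nat_lit 1271250, nat_lit 490000, nat_lit 780000,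 nat_lit 1271250, nat_lit 1271250, [nat_lit 780000, nat_lit 1100000, nat_lit 1442500], [nat_lit 59, nat_lit 40, nat_lit 40, nat_lit 80, nat_lit 3, nat_lit 238, nat_lit 30, nat_lit 8]⟩,
 zbF0, [⟨nat_lit 0, nat_lit 100, nat_lit 99, nat_lit 87, nat_lit 66557063⟩, ⟨nat_lit 16, nat_lit 100, nat_lit 95, nat_lit 87, nat_lit 622340288⟩, ⟨nat_lit 19, nat_lit 100, nat_lit 95, nat_lit 87, nat_lit 622340288⟩]⟩
noncomputable def p067_l10 : Lf2 := ⟨nat_lit 0, nat_lit 5, [nat_lit 4, nat_lit 5, nat_lit 5, nat_lit 20], false, nat_lit 240, nat_lit 300, nat_lit 240, nat_lit 300, ⟨nat_lit 1000, nat_lit 0, nat_lit 0, nat_lit 0, nat_lit 0, nat_lit 0, nat_lit 0, nat_lit 0, nat_lit 0, nat_lit 0, nat_lit 0, nat_lit 0, nat_lit 0, nat_lit 0, nat_lit 0, nat_lit 0, false, false⟩,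
 nat_lit 14118, nat_lit 0, nat_lit 0, nat_lit 0, nat_lit 8983, nat_lit 8873, nat_lit 868, nat_lit 0, nat_lit 0, nat_lit 928, nat_lit 0, nat_lit 0, nat_lit 0, nat_lit 0, nat_lit 0, nat_lit 0, nat_lit 0, nat_lit 0, [],
 ⟨p067_k3, nat_lit 0, nat_lit 0, nat_lit 207, nat_lit 0, nat_lit 345748, [nat_lit 3282000000, nat_lit 6250000000, nat_lit 7968000000], [], [nat_lit 19581129724, nat_lit 20956008060, nat_lit 18855262628, nat_lit 20249461102, nat_lit 23193381396, nat_lit 24464153028, nat_lit 22355319772, nat_lit 23554744312], nat_lit 1271250, nat_lit 1271250, nat_lit 490000, nat_lit 780000, nat_lit 1271250, nat_lit 1271250, [nat_lit 780000, nat_lit 1435000, nat_lit 1271250], [nat_lit 18, nat_lit 40, nat_lit 40, nat_lit 80, nat_lit 2, nat_lit 238, nat_lit 30, nat_lit 7]⟩, ⟨p067_k3, nat_lit 0, nat_lit 0, nat_lit 203, nat_lit 0, nat_lit 345748, [nat_lit 3282000000, nat_lit 6250000000, nat_lit 7968000000], [], [nat_lit 17974486992,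 nat_lit 18873170525, nat_lit 17265106520, nat_lit 18114616777, nat_lit 22422297551, nat_lit 23309900486, nat_lit 21566221843, nat_lit 22349899803], nat_lit 1271250, nat_lit 1271250, nat_lit 490000, nat_lit 780000, nat_lit 1271250, nat_lit 1271250, [nat_lit 780000, nat_lit 1435000, nat_lit 1271250], [nat_lit 18, nat_lit 40, nat_lit 40, nat_lit 80, nat_lit 2, nat_lit 238, nat_lit 30, nat_lit 7]⟩,
 zbF0, [⟨nat_lit 0, nat_lit 100, nat_lit 99, nat_lit 87, nat_lit 241769004⟩, ⟨nat_lit 16, nat_lit 100, nat_lit 95, nat_lit 87, nat_lit 610903252⟩, ⟨nat_lit 19, nat_lit 100, nat_lit 95, nat_lit 87, nat_lit 699833089⟩]⟩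
noncomputable def p067_l11 : Lf2 := ⟨nat_lit 0, nat_lit 8, [nat_lit 50, nat_lit 5, nat_lit 5, nat_lit 20], false, nat_lit 240, nat_lit 300, nat_lit 240, nat_lit 300, ⟨nat_lit 1000, nat_lit 0, nat_lit 0, nat_lit 0, nat_lit 0, nat_lit 0, nat_lit 0, nat_lit 0, nat_lit 0, nat_lit 0, nat_lit 0, nat_lit 0, nat_lit 0, nat_lit 0, nat_lit 0, nat_lit 0, false, false⟩,
 nat_lit 14726, nat_lit 0, nat_lit 0, nat_lit 0, nat_lit 9371, nat_lit 9371, nat_lit 724, nat_lit 0, nat_lit 0, nat_lit 723, nat_lit 0, nat_lit 0, nat_lit 0, nat_lit 0, nat_lit 0, nat_lit 0, nat_lit 0, nat_lit 0, [],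
 ⟨p067_k4, nat_lit 0, nat_lit 0, nat_lit 162, nat_lit 0, nat_lit 204880, [nat_lit 3282000000, nat_lit 6250000000, nat_lit 7968000000], [], [nat_lit 19108581770, nat_lit 20055676483, nat_lit 18301953984, nat_lit 19233217175, nat_lit 23778961779, nat_lit 24720308866, nat_lit 22896876528, nat_lit 23672812366], nat_lit 1271250, nat_lit 1271250, nat_lit 382400, nat_lit 490000, nat_lit 1271250, nat_lit 1271250, [nat_lit 780000, nat_lit 1435000, nat_lit 1271250], [nat_lit 18, nat_lit 40, nat_lit 40, nat_lit 80, nat_lit 2, nat_lit 226, nat_lit 20, nat_lit 7]⟩, ⟨p067_k4, nat_lit 0, nat_lit 0, nat_lit 162, nat_lit 0, nat_lit 204880, [nat_lit 3282000000, nat_lit 6250000000, nat_lit 7968000000], [], [nat_lit 19112219270, nat_lit 20059313983, nat_lit 18305591484, nat_lit 19236854675, nat_lit 23782599279, nat_lit 24720308866, nat_lit 22900514028, nat_lit 23676449866], nat_lit 1271250, nat_lit 1271250, nat_lit 382400, nat_lit 490000,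 nat_lit 1271250, nat_lit 1271250, [nat_lit 780000, nat_lit 1435000, nat_lit 1271250], [nat_lit 18, nat_lit 40, nat_lit 40, nat_lit 80, nat_lit 2, nat_lit 226, nat_lit 20, nat_lit 7]⟩,
 zbF0, [⟨nat_lit 0, nat_lit 100, nat_lit 100, nat_lit 85, nat_lit 748456694⟩, ⟨nat_lit 16, nat_lit 99, nat_lit 100, nat_lit 83, nat_lit 303905183⟩, ⟨nat_lit 7, nat_lit 100, nat_lit 99, nat_lit 83, nat_lit 303905183⟩, ⟨nat_lit 11, nat_lit 100, nat_lit 100, nat_lit 85, nat_lit 435806714⟩]⟩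
noncomputable def p067_l12 : Lf2 := ⟨nat_lit 0, nat_lit 9, [nat_lit 203, nat_lit 5, nat_lit 5, nat_lit 20], false, nat_lit 240, nat_lit 300, nat_lit 240, nat_lit 300, ⟨nat_lit 1000, nat_lit 0, nat_lit 0, nat_lit 0, nat_lit 0, nat_lit 0, nat_lit 0, nat_lit 0, nat_lit 0, nat_lit 0, nat_lit 0, nat_lit 0, nat_lit 0, nat_lit 0, nat_lit 0, nat_lit 0, false, false⟩,
 nat_lit 18450, nat_lit 0, nat_lit 0, nat_lit 0, nat_lit 11740, nat_lit 11740, nat_lit 0, nat_lit 0, nat_lit 0, nat_lit 0, nat_lit 0, nat_lit 0, nat_lit 0, nat_lit 0, nat_lit 0, nat_lit 0, nat_lit 0, nat_lit 0, [],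
 ⟨p067_k5, nat_lit 0, nat_lit 0, nat_lit 131, nat_lit 0, nat_lit 119728, [nat_lit 3282000000, nat_lit 6250000000, nat_lit 7968000000], [], [nat_lit 20047959424, nat_lit 21153310445, nat_lit 18963320960, nat_lit 20049566500, nat_lit 25439191073, nat_lit 26555771214, nat_lit 24263883320, nat_lit 25160549320], nat_lit 1271250, nat_lit 1271250, nat_lit 382400, nat_lit 490000, nat_lit 1271250, nat_lit 1271250, [nat_lit 780000, nat_lit 1435000, nat_lit 1271250], [nat_lit 18, nat_lit 40, nat_lit 40, nat_lit 80, nat_lit 2, nat_lit 226, nat_lit 20, nat_lit 7]⟩, ⟨p067_k5, nat_lit 0, nat_lit 0, nat_lit 131, nat_lit 0, nat_lit 119728, [nat_lit 3282000000, nat_lit 6250000000, nat_lit 7968000000], [], [nat_lit 20047959424, nat_lit 21153310445, nat_lit 18963320960, nat_lit 20049566500, nat_lit 25439191073, nat_lit 26555771214, nat_lit 24263883320, nat_lit 25160549320], nat_lit 1271250, nat_lit 1271250, nat_lit 382400, nat_lit 490000,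 nat_lit 1271250, nat_lit 1271250, [nat_lit 780000, nat_lit 1435000, nat_lit 1271250], [nat_lit 18, nat_lit 40, nat_lit 40, nat_lit 80, nat_lit 2, nat_lit 226, nat_lit 20, nat_lit 7]⟩,
 zbF0, [⟨nat_lit 0, nat_lit 100, nat_lit 100, nat_lit 85, nat_lit 885408509⟩, ⟨nat_lit 16, nat_lit 99, nat_lit 100, nat_lit 83, nat_lit 329832425⟩, ⟨nat_lit 7, nat_lit 100, nat_lit 99, nat_lit 83, nat_lit 329832425⟩, ⟨nat_lit 11, nat_lit 100, nat_lit 100, nat_lit 85, nat_lit 482154678⟩]⟩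
noncomputable def p067_l13 : Lf2 := ⟨nat_lit 0, nat_lit 10, [nat_lit 0, nat_lit 5, nat_lit 5, nat_lit 20], false, nat_lit 240, nat_lit 300, nat_lit 240, nat_lit 300, ⟨nat_lit 1000, nat_lit 0, nat_lit 0, nat_lit 0, nat_lit 0, nat_lit 0, nat_lit 0, nat_lit 0, nat_lit 0, nat_lit 0, nat_lit 0, nat_lit 0, nat_lit 0, nat_lit 0, nat_lit 0, nat_lit 0, false, false⟩,
 nat_lit 7825, nat_lit 0, nat_lit 0, nat_lit 35191, nat_lit 4979, nat_lit 4979, nat_lit 0, nat_lit 0, nat_lit 0, nat_lit 0, nat_lit 0, nat_lit 0, nat_lit 0, nat_lit 0, nat_lit 0, nat_lit 0, nat_lit 0, nat_lit 0, [],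
 ⟨p067_k0, nat_lit 0, nat_lit 0, nat_lit 101, nat_lit 0, nat_lit 45384, [nat_lit 3282000000, nat_lit 6250000000, nat_lit 9842000000], [], [nat_lit 16409535672, nat_lit 16818377749, nat_lit 16151041884, nat_lit 16553572848, nat_lit 20586374357, nat_lit 20934264463, nat_lit 20267365461, nat_lit 20610235147], nat_lit 1271250, nat_lit 1271250, nat_lit 382400, nat_lit 490000, nat_lit 1271250, nat_lit 1271250, [nat_lit 780000, nat_lit 1435000, nat_lit 1271250], [nat_lit 8, nat_lit 40, nat_lit 40, nat_lit 80, nat_lit 1, nat_lit 317, nat_lit 100, nat_lit 8]⟩, ⟨p067_k0, nat_lit 0, nat_lit 0, nat_lit 101, nat_lit 0, nat_lit 45384, [nat_lit 3282000000, nat_lit 6250000000, nat_lit 9842000000], [], [nat_lit 16409535672, nat_lit 16818377749, nat_lit 16151041884, nat_lit 16553572848, nat_lit 20586374357, nat_lit 20934264463, nat_lit 20267365461, nat_lit 20610235147], nat_lit 1271250, nat_lit 1271250, nat_lit 382400, nat_lit 490000,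 nat_lit 1271250, nat_lit 1271250, [nat_lit 780000, nat_lit 1435000, nat_lit 1271250], [nat_lit 8, nat_lit 40, nat_lit 40, nat_lit 80, nat_lit 1, nat_lit 317, nat_lit 100, nat_lit 8]⟩,
 zbF0, [⟨nat_lit 0, nat_lit 100, nat_lit 100, nat_lit 85, nat_lit 825638558⟩, ⟨nat_lit 16, nat_lit 100, nat_lit 99, nat_lit 83, nat_lit 695416639⟩, ⟨nat_lit 7, nat_lit 99, nat_lit 100, nat_lit 83, nat_lit 695416639⟩]⟩
noncomputable def p067_l14 : Lf2 := ⟨nat_lit 0, nat_lit 10, [nat_lit 0, nat_lit 5, nat_lit 5, nat_lit 20], false, nat_lit 240, nat_lit 296, nat_lit 240, nat_lit 300, ⟨nat_lit 1000, nat_lit 0, nat_lit 0, nat_lit 0, nat_lit 0, nat_lit 0, nat_lit 0, nat_lit 0, nat_lit 0, nat_lit 0, nat_lit 0, nat_lit 0, nat_lit 0, nat_lit 0, nat_lit 0, nat_lit 0, false, false⟩,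
 nat_lit 13719, nat_lit 0, nat_lit 0, nat_lit 24143, nat_lit 8347, nat_lit 8730, nat_lit 1162, nat_lit 0, nat_lit 0, nat_lit 1162, nat_lit 0, nat_lit 0, nat_lit 0, nat_lit 0, nat_lit 0, nat_lit 0, nat_lit 0, nat_lit 0, [],
 ⟨p067_k6, nat_lit 0, nat_lit 0, nat_lit 148, nat_lit 0, nat_lit 92305, [nat_lit 3282000000, nat_lit 6250000000, nat_lit 9842000000], [], [nat_lit 19333621078, nat_lit 19724191826, nat_lit 18782757258, nat_lit 19168633490, nat_lit 22865565446, nat_lit 23288388987, nat_lit 22277209129, nat_lit 22681152457], nat_lit 1271250, nat_lit 1271250, nat_lit 408851, nat_lit 490000, nat_lit 1271250, nat_lit 1271250, [nat_lit 780000, nat_lit 1435000, nat_lit 1271250], [nat_lit 8, nat_lit 40, nat_lit 40, nat_lit 80, nat_lit 1, nat_lit 317, nat_lit 100, nat_lit 8]⟩, ⟨p067_k0, nat_lit 0, nat_lit 0, nat_lit 150, nat_lit 0, nat_lit 94757, [nat_lit 3282000000, nat_lit 6250000000, nat_lit 9842000000], [], [nat_lit 19190265579,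 nat_lit 19993161360, nat_lit 18609287090, nat_lit 19402453850, nat_lit 23134888452, nat_lit 23972827462, nat_lit 22508199510, nat_lit 23328131300], nat_lit 1271250, nat_lit 1271250, nat_lit 408851, nat_lit 490000, nat_lit 1271250, nat_lit 1271250, [nat_lit 780000, nat_lit 1435000, nat_lit 1271250], [nat_lit 8, nat_lit 40, nat_lit 40, nat_lit 80, nat_lit 1, nat_lit 317, nat_lit 100, nat_lit 8]⟩,
 zbF0, [⟨nat_lit 0, nat_lit 100, nat_lit 99, nat_lit 86, nat_lit 1145354707⟩, ⟨nat_lit 4, nat_lit 100, nat_lit 98, nat_lit 83, nat_lit 676022619⟩, ⟨nat_lit 7, nat_lit 100, nat_lit 99, nat_lit 83, nat_lit 686386526⟩]⟩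
noncomputable def p067_l15 : Lf2 := ⟨nat_lit 0, nat_lit 10, [nat_lit 0, nat_lit 5, nat_lit 5, nat_lit 20], false, nat_lit 240, nat_lit 300, nat_lit 240, nat_lit 300, ⟨nat_lit 1000, nat_lit 0, nat_lit 0, nat_lit 0, nat_lit 0, nat_lit 0, nat_lit 0, nat_lit 0, nat_lit 0, nat_lit 0, nat_lit 0, nat_lit 0, nat_lit 0, nat_lit 0, nat_lit 0, nat_lit 0, false, false⟩,
 nat_lit 13864, nat_lit 0, nat_lit 0, nat_lit 4693, nat_lit 8822, nat_lit 8822, nat_lit 1140, nat_lit 0, nat_lit 0, nat_lit 1140, nat_lit 0, nat_lit 0, nat_lit 0, nat_lit 0, nat_lit 0, nat_lit 0, nat_lit 0, nat_lit 0, [],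
 ⟨p067_k0, nat_lit 0, nat_lit 0, nat_lit 181, nat_lit 0, nat_lit 207209, [nat_lit 3282000000, nat_lit 6250000000, nat_lit 9842000000], [], [nat_lit 18689391076, nat_lit 19487701740, nat_lit 17836598340, nat_lit 18591735412, nat_lit 22610638606, nat_lit 23278245220, nat_lit 21606466402, nat_lit 22387374182], nat_lit 1271250, nat_lit 1271250, nat_lit 490000, nat_lit 780000, nat_lit 1271250, nat_lit 1271250, [nat_lit 780000, nat_lit 1435000, nat_lit 1271250], [nat_lit 8, nat_lit 40, nat_lit 40, nat_lit 80, nat_lit 1, nat_lit 345, nat_lit 125, nat_lit 9]⟩, ⟨p067_k0, nat_lit 0, nat_lit 0, nat_lit 181, nat_lit 0, nat_lit 207209, [nat_lit 3282000000, nat_lit 6250000000, nat_lit 9842000000], [], [nat_lit 18689391076, nat_lit 19487701740, nat_lit 17836598340, nat_lit 18591735412, nat_lit 22610638606, nat_lit 23278245220, nat_lit 21606466402, nat_lit 22387374182], nat_lit 1271250, nat_lit 1271250, nat_lit 490000, nat_lit 780000,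 nat_lit 1271250, nat_lit 1271250, [nat_lit 780000, nat_lit 1435000, nat_lit 1271250], [nat_lit 8, nat_lit 40, nat_lit 40, nat_lit 80, nat_lit 1, nat_lit 345, nat_lit 125, nat_lit 9]⟩,
 zbF0, [⟨nat_lit 0, nat_lit 100, nat_lit 100, nat_lit 90, nat_lit 109331561⟩, ⟨nat_lit 16, nat_lit 100, nat_lit 95, nat_lit 87, nat_lit 637828151⟩, ⟨nat_lit 19, nat_lit 100, nat_lit 95, nat_lit 87, nat_lit 637828151⟩]⟩
noncomputable def p067_l16 : Lf2 := ⟨nat_lit 0, nat_lit 10, [nat_lit 0, nat_lit 5, nat_lit 5, nat_lit 20], false, nat_lit 240, nat_lit 292, nat_lit 240, nat_lit 300, ⟨nat_lit 1000, nat_lit 0, nat_lit 0, nat_lit 0, nat_lit 0, nat_lit 0, nat_lit 0, nat_lit 0, nat_lit 0, nat_lit 0, nat_lit 0, nat_lit 0, nat_lit 0, nat_lit 0, nat_lit 0, nat_lit 0, false, false⟩,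
 nat_lit 14004, nat_lit 621, nat_lit 0, nat_lit 0, nat_lit 9712, nat_lit 8911, nat_lit 491, nat_lit 0, nat_lit 0, nat_lit 1171, nat_lit 0, nat_lit 0, nat_lit 0, nat_lit 0, nat_lit 0, nat_lit 0, nat_lit 0, nat_lit 0, [],
 ⟨p067_k7, nat_lit 0, nat_lit 0, nat_lit 173, nat_lit 0, nat_lit 245126, [nat_lit 3282000000, nat_lit 6250000000, nat_lit 7968000000], [], [nat_lit 19925368674, nat_lit 20887091818, nat_lit 18585263888, nat_lit 19485792896, nat_lit 23888990428, nat_lit 24710393305, nat_lit 22296265427, nat_lit 23066199378], nat_lit 1271250, nat_lit 1271250, nat_lit 435600, nat_lit 780000, nat_lit 1271250, nat_lit 1271250, [nat_lit 780000, nat_lit 1435000, nat_lit 1271250], [nat_lit 18, nat_lit 40, nat_lit 40, nat_lit 80, nat_lit 2, nat_lit 238, nat_lit 30, nat_lit 7]⟩, ⟨p067_k0, nat_lit 0, nat_lit 0, nat_lit 204, nat_lit 0, nat_lit 258212, [nat_lit 3282000000, nat_lit 6250000000, nat_lit 9842000000], [], [nat_lit 18830723518,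 nat_lit 19640603480, nat_lit 17562887295, nat_lit 18322641331, nat_lit 22805347500, nat_lit 23848810456, nat_lit 21536235701, nat_lit 22321977716], nat_lit 1271250, nat_lit 1271250, nat_lit 435600, nat_lit 780000, nat_lit 1271250, nat_lit 1271250, [nat_lit 780000, nat_lit 1435000, nat_lit 1271250], [nat_lit 8, nat_lit 40, nat_lit 40, nat_lit 80, nat_lit 1, nat_lit 345, nat_lit 125, nat_lit 9]⟩,
 zbF0, [⟨nat_lit 0, nat_lit 100, nat_lit 97, nat_lit 89, nat_lit 647734364⟩, ⟨nat_lit 16, nat_lit 100, nat_lit 100, nat_lit 89, nat_lit 369505712⟩, ⟨nat_lit 19, nat_lit 100, nat_lit 95, nat_lit 87, nat_lit 350803761⟩, ⟨nat_lit 11, nat_lit 100, nat_lit 100, nat_lit 98, nat_lit 270568735⟩]⟩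
noncomputable def p067_l17 : Lf2 := ⟨nat_lit 0, nat_lit 10, [nat_lit 0, nat_lit 5, nat_lit 5, nat_lit 20], false, nat_lit 240, nat_lit 292, nat_lit 240, nat_lit 292, ⟨nat_lit 1000, nat_lit 0, nat_lit 0, nat_lit 0, nat_lit 0, nat_lit 0, nat_lit 0, nat_lit 0, nat_lit 0, nat_lit 0, nat_lit 0, nat_lit 0, nat_lit 0, nat_lit 0, nat_lit 0, nat_lit 0, false, false⟩,
 nat_lit 12688, nat_lit 0, nat_lit 0, nat_lit 0, nat_lit 8426, nat_lit 8426, nat_lit 1069, nat_lit 0, nat_lit 0, nat_lit 1069, nat_lit 0, nat_lit 0, nat_lit 0, nat_lit 0, nat_lit 0, nat_lit 0, nat_lit 0, nat_lit 0, [],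
 ⟨p067_k7, nat_lit 0, nat_lit 0, nat_lit 274, nat_lit 0, nat_lit 476907, [nat_lit 3282000000, nat_lit 6250000000, nat_lit 7968000000], [], [nat_lit 19190949344, nat_lit 19919247820, nat_lit 18617344854, nat_lit 19305065944, nat_lit 22229997278, nat_lit 23296081450, nat_lit 21483649439, nat_lit 22289961126], nat_lit 1271250, nat_lit 1271250, nat_lit 490000, nat_lit 780000, nat_lit 1271250, nat_lit 1271250, [nat_lit 780000, nat_lit 1435000, nat_lit 1271250], [nat_lit 18, nat_lit 40, nat_lit 40, nat_lit 80, nat_lit 2, nat_lit 238, nat_lit 30, nat_lit 7]⟩, ⟨p067_k7, nat_lit 0, nat_lit 0, nat_lit 274, nat_lit 0, nat_lit 476907, [nat_lit 3282000000, nat_lit 6250000000, nat_lit 7968000000], [], [nat_lit 19190949344, nat_lit 19919247820, nat_lit 18617344854, nat_lit 19305065944, nat_lit 22229997278, nat_lit 23296081450, nat_lit 21483649439, nat_lit 22289961126], nat_lit 1271250, nat_lit 1271250, nat_lit 490000, nat_lit 780000,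 nat_lit 1271250, nat_lit 1271250, [nat_lit 780000, nat_lit 1435000, nat_lit 1271250], [nat_lit 18, nat_lit 40, nat_lit 40, nat_lit 80, nat_lit 2, nat_lit 238, nat_lit 30, nat_lit 7]⟩,
 zbF0, [⟨nat_lit 0, nat_lit 100, nat_lit 100, nat_lit 90, nat_lit 731830143⟩, ⟨nat_lit 16, nat_lit 100, nat_lit 100, nat_lit 89, nat_lit 594833826⟩, ⟨nat_lit 19, nat_lit 100, nat_lit 100, nat_lit 89, nat_lit 594833826⟩]⟩
noncomputable def p067_l18 : Lf2 := ⟨nat_lit 0, nat_lit 10, [nat_lit 0, nat_lit 5, nat_lit 5, nat_lit 20], false, nat_lit 160, nat_lit 280, nat_lit 0, nat_lit 160, ⟨nat_lit 1000, nat_lit 0, nat_lit 0, nat_lit 0, nat_lit 0, nat_lit 0, nat_lit 0, nat_lit 0, nat_lit 0, nat_lit 0, nat_lit 0, nat_lit 0, nat_lit 0, nat_lit 0, nat_lit 0, nat_lit 0, false, false⟩,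
 nat_lit 13706, nat_lit 0, nat_lit 0, nat_lit 0, nat_lit 8550, nat_lit 8722, nat_lit 1453, nat_lit 0, nat_lit 0, nat_lit 923, nat_lit 0, nat_lit 0, nat_lit 0, nat_lit 0, nat_lit 0, nat_lit 0, nat_lit 0, nat_lit 0, [],
 ⟨p067_k8, nat_lit 0, nat_lit 0, nat_lit 405, nat_lit 0, nat_lit 748470, [nat_lit 3282000000, nat_lit 6250000000, nat_lit 7968000000], [], [nat_lit 13614091625, nat_lit 16632185200, nat_lit 13084290125, nat_lit 15896901400, nat_lit 22208124800, nat_lit 24449534800, nat_lit 21233669450, nat_lit 23359539300], nat_lit 1271250, nat_lit 1271250, nat_lit 490000, nat_lit 780000, nat_lit 1100001, nat_lit 2127500, [nat_lit 780000, nat_lit 1435000, nat_lit 1271250], [nat_lit 18, nat_lit 40, nat_lit 40, nat_lit 80, nat_lit 2, nat_lit 317, nat_lit 100, nat_lit 10]⟩, ⟨p067_k0, nat_lit 0, nat_lit 0, nat_lit 620, nat_lit 0, nat_lit 829096, [nat_lit 3282000000, nat_lit 6250000000, nat_lit 9842000000], [], [nat_lit 27797187376,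 nat_lit 29801921367, nat_lit 27045578815, nat_lit 28939291832, nat_lit 22905908927, nat_lit 24907338440, nat_lit 22318369840, nat_lit 24205464368], nat_lit 1271250, nat_lit 1271250, nat_lit 490000, nat_lit 780000, nat_lit 0, nat_lit 1100001, [nat_lit 780000, nat_lit 1435000, nat_lit 1271250], [nat_lit 8, nat_lit 40, nat_lit 40, nat_lit 80, nat_lit 1, nat_lit 289, nat_lit 75, nat_lit 8]⟩,
 zbF0, [⟨nat_lit 0, nat_lit 100, nat_lit 94, nat_lit 88, nat_lit 835836137⟩, ⟨nat_lit 4, nat_lit 100, nat_lit 85, nat_lit 73, nat_lit 893398391⟩]⟩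
noncomputable def p067_l19 : Lf2 := ⟨nat_lit 0, nat_lit 10, [nat_lit 0, nat_lit 5, nat_lit 5, nat_lit 20], false, nat_lit 160, nat_lit 280, nat_lit 160, nat_lit 240, ⟨nat_lit 870, nat_lit 0, nat_lit 130, nat_lit 7, nat_lit 173, nat_lit 130, nat_lit 154, nat_lit 130, nat_lit 24746, nat_lit 252, nat_lit 46064, nat_lit 267, nat_lit 47950117, nat_lit 0, nat_lit 0, nat_lit 4251472, false, false⟩,
 nat_lit 13668, nat_lit 0, nat_lit 0, nat_lit 0, nat_lit 7670, nat_lit 8697, nat_lit 1299, nat_lit 0, nat_lit 0, nat_lit 969, nat_lit 0, nat_lit 0, nat_lit 0, nat_lit 0, nat_lit 0, nat_lit 130000, nat_lit 0, nat_lit 0, [(nat_lit 15, [(nat_lit 6, nat_lit 130)])],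
 ⟨p067_k8, nat_lit 0, nat_lit 0, nat_lit 405, nat_lit 0, nat_lit 748470, [nat_lit 2982740000, nat_lit 5139124000, nat_lit 6249036000], [], [nat_lit 13569715620, nat_lit 16396746480, nat_lit 13163057790, nat_lit 15832988760, nat_lit 21714237120, nat_lit 23799376720, nat_lit 20929331130, nat_lit 22908798020], nat_lit 1271250, nat_lit 1271250, nat_lit 490000, nat_lit 780000, nat_lit 1100001, nat_lit 2127500, [nat_lit 780000, nat_lit 1435000, nat_lit 1271250], [nat_lit 18, nat_lit 40, nat_lit 40, nat_lit 80, nat_lit 2, nat_lit 317, nat_lit 100, nat_lit 10]⟩, ⟨p067_k0, nat_lit 0, nat_lit 0, nat_lit 499, nat_lit 0, nat_lit 829096, [nat_lit 2855340000, nat_lit 5437500000, nat_lit 8562540000], [], [nat_lit 15937880472, nat_lit 17812791540, nat_lit 15265099440, nat_lit 17025102768, nat_lit 17070220740, nat_lit 18738879477, nat_lit 16270485204, nat_lit 17723319720], nat_lit 1271250, nat_lit 1271250, nat_lit 490000, nat_lit 780000,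 nat_lit 1100001, nat_lit 1785000, [nat_lit 780000, nat_lit 1435000, nat_lit 1271250], [nat_lit 8, nat_lit 40, nat_lit 40, nat_lit 80, nat_lit 1, nat_lit 317, nat_lit 100, nat_lit 9]⟩,
 ⟨nat_lit 4472, nat_lit 5000, ⟨.ofNat (nat_lit 371392), .ofNat (nat_lit 442816), .ofNat (nat_lit 414225), .ofNat (nat_lit 485648), .ofNat (nat_lit 382295), .ofNat (nat_lit 450269), .ofNat (nat_lit 425403), .ofNat (nat_lit 493376)⟩, ⟨.ofNat (nat_lit 257141), .ofNat (nat_lit 471427), .ofNat (nat_lit 299999), .ofNat (nat_lit 514284), .ofNat (nat_lit 259489), .ofNat (nat_lit 463423), .ofNat (nat_lit 302621), .ofNat (nat_lit 506556)⟩⟩, [⟨nat_lit 0, nat_lit 97, nat_lit 93, nat_lit 100, nat_lit 799480131⟩, ⟨nat_lit 4, nat_lit 100, nat_lit 85, nat_lit 73, nat_lit 821828711⟩, ⟨nat_lit 19, nat_lit 90, nat_lit 100, nat_lit 74, nat_lit 43617713⟩]⟩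
noncomputable def p067_l20 : Lf2 := ⟨nat_lit 0, nat_lit 10, [nat_lit 0, nat_lit 5, nat_lit 5, nat_lit 20], false, nat_lit 160, nat_lit 280, nat_lit 240, nat_lit 300, ⟨nat_lit 1000, nat_lit 0, nat_lit 0, nat_lit 0, nat_lit 0, nat_lit 0, nat_lit 0, nat_lit 0, nat_lit 0, nat_lit 0, nat_lit 0, nat_lit 0, nat_lit 0, nat_lit 0, nat_lit 0, nat_lit 0, false, false⟩,
 nat_lit 13440, nat_lit 0, nat_lit 0, nat_lit 0, nat_lit 9304, nat_lit 8552, nat_lit 727, nat_lit 0, nat_lit 0, nat_lit 1596, nat_lit 0, nat_lit 0, nat_lit 0, nat_lit 0, nat_lit 0, nat_lit 0, nat_lit 0, nat_lit 0, [],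
 ⟨p067_k9, nat_lit 0, nat_lit 0, nat_lit 399, nat_lit 0, nat_lit 748470, [nat_lit 3282000000, nat_lit 4688000000, nat_lit 7968000000], [], [nat_lit 17154284000, nat_lit 18746567898, nat_lit 15830660778, nat_lit 17935975290, nat_lit 22631296744, nat_lit 25006602064, nat_lit 21586968426, nat_lit 23745742624], nat_lit 1271250, nat_lit 1271250, nat_lit 490000, nat_lit 780000, nat_lit 1100001, nat_lit 2127500, [nat_lit 780000, nat_lit 1100000, nat_lit 1785000], [nat_lit 36, nat_lit 40, nat_lit 40, nat_lit 80, nat_lit 7, nat_lit 317, nat_lit 100, nat_lit 10]⟩, ⟨p067_k10, nat_lit 0, nat_lit 0, nat_lit 476, nat_lit 0, nat_lit 829096, [nat_lit 3282000000, nat_lit 4688000000, nat_lit 9842000000], [], [nat_lit 18204693916, nat_lit 21337551612, nat_lit 17402738940, nat_lit 20367261148, nat_lit 22060508544, nat_lit 26253480824, nat_lit 21093585944, nat_lit 25073675488], nat_lit 1271250, nat_lit 1271250, nat_lit 490000, nat_lit 780000,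 nat_lit 1271250, nat_lit 1271250, [nat_lit 780000, nat_lit 1100000, nat_lit 2127500], [nat_lit 42, nat_lit 40, nat_lit 40, nat_lit 80, nat_lit 13, nat_lit 345, nat_lit 125, nat_lit 9]⟩,
 zbF0, [⟨nat_lit 0, nat_lit 100, nat_lit 94, nat_lit 88, nat_lit 893459043⟩, ⟨nat_lit 16, nat_lit 94, nat_lit 100, nat_lit 87, nat_lit 541704611⟩, ⟨nat_lit 19, nat_lit 100, nat_lit 95, nat_lit 87, nat_lit 628255761⟩]⟩
noncomputable def b_V_700_700_10_16 : St := ⟨true, nat_lit 1, nat_lit 1, nat_lit 1, nat_lit 80, nat_lit 280, nat_lit 320, nat_lit 280, nat_lit 320, nat_lit 64, nat_lit 120, nat_lit 40, nat_lit 80, nat_lit 160, nat_lit 300, nat_lit 0, nat_lit 300, nat_lit 0, nat_lit 40, nat_lit 0, nat_lit 0, nat_lit 0, nat_lit 0⟩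
theorem d_V_700_700_10_16 (h : EB TB.env) : Dead b_V_700_700_10_16 := chkB_sound0 h (T :=
(.spl (nat_lit 0) (nat_lit 300)
(.ord (.spl (nat_lit 4) (nat_lit 240)
(.spl (nat_lit 5) (nat_lit 160)
(.spl (nat_lit 3) (nat_lit 60)
(.leaf p067_l0)
(.leaf p067_l1))
(.spl (nat_lit 5) (nat_lit 240)
(.leaf p067_l2)
(.leaf p067_l3)))
(.spl (nat_lit 5) (nat_lit 160)
(.spl (nat_lit 5) (nat_lit 80)
(.leaf p067_l4)
(.leaf p067_l5))
(.spl (nat_lit 5) (nat_lit 240)
(.leaf p067_l6)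
(.spl (nat_lit 3) (nat_lit 60)
(.trX (nat_lit 16) (nat_lit 99) (nat_lit 100) (nat_lit 77) (nat_lit 276) (.trX (nat_lit 19) (nat_lit 99) (nat_lit 100) (nat_lit 77) (nat_lit 276) (.leaf p067_l7)))
(.spl (nat_lit 1) (nat_lit 290)
(.spl (nat_lit 6) (nat_lit 20)
(.spl (nat_lit 2) (nat_lit 80)
(.leaf p067_l8)
(.spl (nat_lit 6) (nat_lit 8)
(.leaf p067_l9)
(.leaf p067_l10)))
(.spl (nat_lit 0) (nat_lit 290)
(.spl (nat_lit 2) (nat_lit 80)
(.spl (nat_lit 6) (nat_lit 32)
(.leaf p067_l11)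
(.spl (nat_lit 6) (nat_lit 36)
(.leaf p067_l12)
(.spl (nat_lit 0) (nat_lit 285)
(.ord (.leaf p067_l13))
(.trZ (nat_lit 0) (nat_lit 100) (nat_lit 99) (nat_lit 82) (nat_lit 68) (.trX (nat_lit 16) (nat_lit 100) (nat_lit 98) (nat_lit 88) (nat_lit 296) (.leaf p067_l14))))))
(.leaf p067_l15))
(.trZ (nat_lit 0) (nat_lit 100) (nat_lit 97) (nat_lit 84) (nat_lit 72) (.trX (nat_lit 16) (nat_lit 100) (nat_lit 100) (nat_lit 89) (nat_lit 292) (.leaf p067_l16)))))
(.ord (.trZ (nat_lit 0) (nat_lit 100) (nat_lit 100) (nat_lit 90) (nat_lit 80) (.trX (nat_lit 16) (nat_lit 100) (nat_lit 100) (nat_lit 89) (nat_lit 292) (.trX (nat_lit 19) (nat_lit 100) (nat_lit 100) (nat_lit 89) (nat_lit 292) (.leaf p067_l17)))))))))))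
(.trZ (nat_lit 0) (nat_lit 100) (nat_lit 94) (nat_lit 88) (nat_lit 80) (.trX (nat_lit 16) (nat_lit 94) (nat_lit 100) (nat_lit 87) (nat_lit 280) (.spl (nat_lit 5) (nat_lit 160)
(.leaf p067_l18)
(.spl (nat_lit 5) (nat_lit 240)
(.leaf p067_l19)
(.leaf p067_l20))))))) (by decide +kernel)
noncomputable def p067_l21 : Lf2 := ⟨nat_lit 0, nat_lit 10, [nat_lit 0, nat_lit 5, nat_lit 5, nat_lit 20], false, nat_lit 0, nat_lit 160, nat_lit 0, nat_lit 160, ⟨nat_lit 1000, nat_lit 0, nat_lit 0, nat_lit 0, nat_lit 0, nat_lit 0, nat_lit 0, nat_lit 0, nat_lit 0, nat_lit 0, nat_lit 0, nat_lit 0, nat_lit 0, nat_lit 0, nat_lit 0, nat_lit 0, false, false⟩,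
 nat_lit 15554, nat_lit 0, nat_lit 0, nat_lit 0, nat_lit 9897, nat_lit 9897, nat_lit 1237, nat_lit 0, nat_lit 0, nat_lit 1237, nat_lit 0, nat_lit 0, nat_lit 0, nat_lit 0, nat_lit 0, nat_lit 0, nat_lit 0, nat_lit 0, [],
 ⟨p067_k0, nat_lit 0, nat_lit 0, nat_lit 601, nat_lit 0, nat_lit 829096, [nat_lit 3282000000, nat_lit 6250000000, nat_lit 9842000000], [], [nat_lit 26807336776, nat_lit 25656196809, nat_lit 23096785712, nat_lit 25781549416, nat_lit 19561310056, nat_lit 19931218568, nat_lit 24307243456, nat_lit 19597562964], nat_lit 1271250, nat_lit 1271250, nat_lit 780000, nat_lit 1100001, nat_lit 0, nat_lit 1100001, [nat_lit 780000, nat_lit 1435000, nat_lit 1271250], [nat_lit 8, nat_lit 40, nat_lit 40, nat_lit 80, nat_lit 1, nat_lit 317, nat_lit 100, nat_lit 9]⟩, ⟨p067_k0, nat_lit 0, nat_lit 0, nat_lit 601, nat_lit 0, nat_lit 829096, [nat_lit 3282000000, nat_lit 6250000000, nat_lit 9842000000], [], [nat_lit 26807336776,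 nat_lit 25656196809, nat_lit 23096785712, nat_lit 25781549416, nat_lit 19561310056, nat_lit 19931218568, nat_lit 24307243456, nat_lit 19597562964], nat_lit 1271250, nat_lit 1271250, nat_lit 780000, nat_lit 1100001, nat_lit 0, nat_lit 1100001, [nat_lit 780000, nat_lit 1435000, nat_lit 1271250], [nat_lit 8, nat_lit 40, nat_lit 40, nat_lit 80, nat_lit 1, nat_lit 317, nat_lit 100, nat_lit 9]⟩,
 zbF0, [⟨nat_lit 0, nat_lit 83, nat_lit 83, nat_lit 100, nat_lit 422518216⟩]⟩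
noncomputable def p067_l22 : Lf2 := ⟨nat_lit 0, nat_lit 10, [nat_lit 0, nat_lit 5, nat_lit 5, nat_lit 20], false, nat_lit 0, nat_lit 160, nat_lit 160, nat_lit 300, ⟨nat_lit 1000, nat_lit 0, nat_lit 0, nat_lit 0, nat_lit 0, nat_lit 0, nat_lit 0, nat_lit 0, nat_lit 0, nat_lit 0, nat_lit 0, nat_lit 0, nat_lit 0, nat_lit 0, nat_lit 0, nat_lit 0, false, false⟩,
 nat_lit 14302, nat_lit 0, nat_lit 0, nat_lit 0, nat_lit 9101, nat_lit 9101, nat_lit 1119, nat_lit 0, nat_lit 0, nat_lit 1031, nat_lit 0, nat_lit 0, nat_lit 0, nat_lit 5521900668999, nat_lit 0, nat_lit 0, nat_lit 0, nat_lit 0, [],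
 ⟨p067_k0, nat_lit 0, nat_lit 0, nat_lit 493, nat_lit 0, nat_lit 626590, [nat_lit 3282000000, nat_lit 6250000000, nat_lit 9842000000], [], [nat_lit 27265189608, nat_lit 24724987277, nat_lit 23376527384, nat_lit 24854722276, nat_lit 21290979848, nat_lit 19814819360, nat_lit 25758154048, nat_lit 21582870076], nat_lit 1271250, nat_lit 1271250, nat_lit 780000, nat_lit 1100001, nat_lit 0, nat_lit 1100001, [nat_lit 780000, nat_lit 1435000, nat_lit 1271250], [nat_lit 8, nat_lit 40, nat_lit 40, nat_lit 80, nat_lit 1, nat_lit 317, nat_lit 100, nat_lit 9]⟩, ⟨p067_k0, nat_lit 0, nat_lit 0, nat_lit 362, nat_lit 0, nat_lit 626590, [nat_lit 3282000000, nat_lit 6250000000, nat_lit 9842000000], [], [nat_lit 21329189608, nat_lit 18426955467, nat_lit 17053436039, nat_lit 18357589725, nat_lit 22141796884, nat_lit 23351601955, nat_lit 22742756995, nat_lit 23268513146], nat_lit 1271250, nat_lit 1271250, nat_lit 780000, nat_lit 1100001,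 nat_lit 1100001, nat_lit 2298750, [nat_lit 780000, nat_lit 1435000, nat_lit 1271250], [nat_lit 8, nat_lit 40, nat_lit 40, nat_lit 80, nat_lit 1, nat_lit 345, nat_lit 125, nat_lit 9]⟩,
 zbF0, [⟨nat_lit 7, nat_lit 100, nat_lit 94, nat_lit 75, nat_lit 422472460⟩]⟩
noncomputable def p067_l23 : Lf2 := ⟨nat_lit 0, nat_lit 10, [nat_lit 0, nat_lit 5, nat_lit 5, nat_lit 20], false, nat_lit 0, nat_lit 160, nat_lit 160, nat_lit 300, ⟨nat_lit 1000, nat_lit 0, nat_lit 0, nat_lit 0, nat_lit 0, nat_lit 0, nat_lit 0, nat_lit 0, nat_lit 0, nat_lit 0, nat_lit 0, nat_lit 0, nat_lit 0, nat_lit 0, nat_lit 0, nat_lit 0, false, false⟩,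
 nat_lit 12899, nat_lit 0, nat_lit 0, nat_lit 0, nat_lit 7293, nat_lit 8208, nat_lit 1529, nat_lit 0, nat_lit 0, nat_lit 958, nat_lit 0, nat_lit 0, nat_lit 0, nat_lit 0, nat_lit 0, nat_lit 0, nat_lit 0, nat_lit 0, [],
 ⟨p067_k8, nat_lit 0, nat_lit 0, nat_lit 496, nat_lit 0, nat_lit 748470, [nat_lit 3282000000, nat_lit 6250000000, nat_lit 7968000000], [], [nat_lit 19585764795, nat_lit 22051927380, nat_lit 19862809693, nat_lit 22432992904, nat_lit 16643414171, nat_lit 17364477973, nat_lit 20610334403, nat_lit 17464307121], nat_lit 1271250, nat_lit 1271250, nat_lit 780000, nat_lit 1100001, nat_lit 0, nat_lit 1100001, [nat_lit 780000, nat_lit 1435000, nat_lit 1271250], [nat_lit 18, nat_lit 40, nat_lit 40, nat_lit 80, nat_lit 2, nat_lit 317, nat_lit 100, nat_lit 10]⟩, ⟨p067_k0, nat_lit 0, nat_lit 0, nat_lit 480, nat_lit 0, nat_lit 829096, [nat_lit 3282000000, nat_lit 6250000000, nat_lit 9842000000], [], [nat_lit 21842836064,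 nat_lit 23571124288, nat_lit 21511072118, nat_lit 23583329376, nat_lit 25564886608, nat_lit 27292654384, nat_lit 25363983536, nat_lit 26972143800], nat_lit 1271250, nat_lit 1271250, nat_lit 780000, nat_lit 1100001, nat_lit 1100001, nat_lit 2298750, [nat_lit 780000, nat_lit 1435000, nat_lit 1271250], [nat_lit 8, nat_lit 40, nat_lit 40, nat_lit 80, nat_lit 1, nat_lit 345, nat_lit 125, nat_lit 9]⟩,
 zbF0, [⟨nat_lit 0, nat_lit 97, nat_lit 93, nat_lit 100, nat_lit 230230161⟩, ⟨nat_lit 7, nat_lit 100, nat_lit 90, nat_lit 74, nat_lit 529335378⟩]⟩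
noncomputable def p067_l24 : Lf2 := ⟨nat_lit 0, nat_lit 10, [nat_lit 0, nat_lit 5, nat_lit 5, nat_lit 20], false, nat_lit 0, nat_lit 160, nat_lit 0, nat_lit 300, ⟨nat_lit 1000, nat_lit 0, nat_lit 0, nat_lit 0, nat_lit 0, nat_lit 0, nat_lit 0, nat_lit 0, nat_lit 0, nat_lit 0, nat_lit 0, nat_lit 0, nat_lit 0, nat_lit 0, nat_lit 0, nat_lit 0, false, false⟩,
 nat_lit 10808, nat_lit 0, nat_lit 0, nat_lit 0, nat_lit 6877, nat_lit 6877, nat_lit 902, nat_lit 0, nat_lit 0, nat_lit 667, nat_lit 0, nat_lit 0, nat_lit 0, nat_lit 0, nat_lit 0, nat_lit 0, nat_lit 0, nat_lit 0, [],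
 ⟨p067_k0, nat_lit 0, nat_lit 0, nat_lit 480, nat_lit 0, nat_lit 626590, [nat_lit 3282000000, nat_lit 6250000000, nat_lit 9842000000], [], [nat_lit 32739197228, nat_lit 30239993354, nat_lit 30779060802, nat_lit 31654301784, nat_lit 25762766358, nat_lit 26585671814, nat_lit 29930925096, nat_lit 27928985944], nat_lit 1271250, nat_lit 1271250, nat_lit 1100001, nat_lit 1785000, nat_lit 0, nat_lit 1100001, [nat_lit 780000, nat_lit 1435000, nat_lit 1271250], [nat_lit 8, nat_lit 40, nat_lit 40, nat_lit 80, nat_lit 1, nat_lit 317, nat_lit 100, nat_lit 9]⟩, ⟨p067_k0, nat_lit 0, nat_lit 0, nat_lit 480, nat_lit 0, nat_lit 626590, [nat_lit 3282000000, nat_lit 6250000000, nat_lit 9842000000], [], [nat_lit 32739197228, nat_lit 31743258979, nat_lit 32282326427, nat_lit 33157567409, nat_lit 30245665930, nat_lit 30861378895, nat_lit 38186301997, nat_lit 35169833172], nat_lit 1271250, nat_lit 1271250, nat_lit 1100001, nat_lit 1785000,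 nat_lit 0, nat_lit 2118750, [nat_lit 780000, nat_lit 1435000, nat_lit 1271250], [nat_lit 8, nat_lit 40, nat_lit 40, nat_lit 80, nat_lit 1, nat_lit 373, nat_lit 150, nat_lit 11]⟩,
 zbF0, [⟨nat_lit 7, nat_lit 100, nat_lit 94, nat_lit 75, nat_lit 230112981⟩]⟩
noncomputable def p067_l25 : Lf2 := ⟨nat_lit 0, nat_lit 10, [nat_lit 0, nat_lit 5, nat_lit 5, nat_lit 20], false, nat_lit 0, nat_lit 160, nat_lit 0, nat_lit 300, ⟨nat_lit 1000, nat_lit 0, nat_lit 0, nat_lit 0, nat_lit 0, nat_lit 0, nat_lit 0, nat_lit 0, nat_lit 0, nat_lit 0, nat_lit 0, nat_lit 0, nat_lit 0, nat_lit 0, nat_lit 0, nat_lit 0, false, false⟩,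
 nat_lit 12870, nat_lit 0, nat_lit 0, nat_lit 0, nat_lit 6648, nat_lit 8189, nat_lit 1690, nat_lit 0, nat_lit 0, nat_lit 790, nat_lit 0, nat_lit 0, nat_lit 0, nat_lit 0, nat_lit 0, nat_lit 0, nat_lit 0, nat_lit 0, [],
 ⟨p067_k8, nat_lit 0, nat_lit 0, nat_lit 483, nat_lit 0, nat_lit 748470, [nat_lit 3282000000, nat_lit 6250000000, nat_lit 7968000000], [], [nat_lit 25953986478, nat_lit 22491854334, nat_lit 23122034336, nat_lit 25369259040, nat_lit 18392576698, nat_lit 19181453274, nat_lit 23206994016, nat_lit 20211220122], nat_lit 1271250, nat_lit 1271250, nat_lit 1100001, nat_lit 1785000, nat_lit 0, nat_lit 1100001, [nat_lit 780000, nat_lit 1435000, nat_lit 1271250], [nat_lit 18, nat_lit 40, nat_lit 40, nat_lit 80, nat_lit 2, nat_lit 317, nat_lit 100, nat_lit 10]⟩, ⟨p067_k0, nat_lit 0, nat_lit 0, nat_lit 586, nat_lit 0, nat_lit 829096, [nat_lit 3282000000, nat_lit 6250000000, nat_lit 9842000000], [], [nat_lit 33351066796,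 nat_lit 30986899922, nat_lit 30247037314, nat_lit 31670360986, nat_lit 27094810231, nat_lit 28288828093, nat_lit 37158430029, nat_lit 29974523322], nat_lit 1271250, nat_lit 1271250, nat_lit 1100001, nat_lit 1785000, nat_lit 0, nat_lit 2118750, [nat_lit 780000, nat_lit 1435000, nat_lit 1271250], [nat_lit 8, nat_lit 40, nat_lit 40, nat_lit 80, nat_lit 1, nat_lit 373, nat_lit 150, nat_lit 11]⟩,
 zbF0, [⟨nat_lit 7, nat_lit 100, nat_lit 90, nat_lit 74, nat_lit 203684121⟩]⟩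
noncomputable def p067_l26 : Lf2 := ⟨nat_lit 0, nat_lit 10, [nat_lit 0, nat_lit 5, nat_lit 5, nat_lit 20], false, nat_lit 160, nat_lit 300, nat_lit 0, nat_lit 160, ⟨nat_lit 1000, nat_lit 0, nat_lit 0, nat_lit 0, nat_lit 0, nat_lit 0, nat_lit 0, nat_lit 0, nat_lit 0, nat_lit 0, nat_lit 0, nat_lit 0, nat_lit 0, nat_lit 0, nat_lit 0, nat_lit 0, false, false⟩,
 nat_lit 13897, nat_lit 0, nat_lit 0, nat_lit 0, nat_lit 8843, nat_lit 8843, nat_lit 983, nat_lit 0, nat_lit 0, nat_lit 1112, nat_lit 0, nat_lit 0, nat_lit 0, nat_lit 0, nat_lit 0, nat_lit 0, nat_lit 0, nat_lit 0, [],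
 ⟨p067_k0, nat_lit 0, nat_lit 0, nat_lit 362, nat_lit 0, nat_lit 626590, [nat_lit 3282000000, nat_lit 6250000000, nat_lit 9842000000], [], [nat_lit 21477589144, nat_lit 19195208331, nat_lit 17868806927, nat_lit 19151524425, nat_lit 22608652012, nat_lit 23797822315, nat_lit 23094541285, nat_lit 23581861493], nat_lit 1271250, nat_lit 1271250, nat_lit 780000, nat_lit 1100001, nat_lit 1100001, nat_lit 2298750, [nat_lit 780000, nat_lit 1435000, nat_lit 1271250], [nat_lit 8, nat_lit 40, nat_lit 40, nat_lit 80, nat_lit 1, nat_lit 345, nat_lit 125, nat_lit 9]⟩, ⟨p067_k0, nat_lit 0, nat_lit 0, nat_lit 493, nat_lit 0, nat_lit 626590, [nat_lit 3282000000, nat_lit 6250000000, nat_lit 9842000000], [], [nat_lit 27413589144, nat_lit 25239273286, nat_lit 23935617512, nat_lit 25388091868, nat_lit 21851601464, nat_lit 20547704480, nat_lit 26228424064, nat_lit 22171503268], nat_lit 1271250, nat_lit 1271250, nat_lit 780000, nat_lit 1100001,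 nat_lit 0, nat_lit 1100001, [nat_lit 780000, nat_lit 1435000, nat_lit 1271250], [nat_lit 8, nat_lit 40, nat_lit 40, nat_lit 80, nat_lit 1, nat_lit 317, nat_lit 100, nat_lit 9]⟩,
 zbF0, [⟨nat_lit 4, nat_lit 100, nat_lit 94, nat_lit 75, nat_lit 468198047⟩]⟩
noncomputable def p067_l27 : Lf2 := ⟨nat_lit 0, nat_lit 10, [nat_lit 0, nat_lit 5, nat_lit 5, nat_lit 20], false, nat_lit 160, nat_lit 300, nat_lit 0, nat_lit 160, ⟨nat_lit 1000, nat_lit 0, nat_lit 0, nat_lit 0, nat_lit 0, nat_lit 0, nat_lit 0, nat_lit 0, nat_lit 0, nat_lit 0, nat_lit 0, nat_lit 0, nat_lit 0, nat_lit 0, nat_lit 0, nat_lit 0, false, false⟩,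
 nat_lit 10537, nat_lit 0, nat_lit 0, nat_lit 0, nat_lit 6705, nat_lit 6705, nat_lit 607, nat_lit 0, nat_lit 0, nat_lit 890, nat_lit 0, nat_lit 0, nat_lit 0, nat_lit 6351360778246, nat_lit 0, nat_lit 0, nat_lit 0, nat_lit 0, [],
 ⟨p067_k0, nat_lit 0, nat_lit 0, nat_lit 350, nat_lit 0, nat_lit 626590, [nat_lit 3282000000, nat_lit 6250000000, nat_lit 9842000000], [], [nat_lit 24728486535, nat_lit 25592106815, nat_lit 26267389035, nat_lit 27203007745, nat_lit 31287609155, nat_lit 29385717280, nat_lit 29560680075, nat_lit 30231734630], nat_lit 1271250, nat_lit 1271250, nat_lit 1271250, nat_lit 1271250, nat_lit 1100001, nat_lit 2298750, [nat_lit 780000, nat_lit 1435000, nat_lit 1271250], [nat_lit 8, nat_lit 40, nat_lit 40, nat_lit 80, nat_lit 1, nat_lit 373, nat_lit 150, nat_lit 10]⟩, ⟨p067_k0, nat_lit 0, nat_lit 0, nat_lit 480, nat_lit 0, nat_lit 626590, [nat_lit 3282000000, nat_lit 6250000000, nat_lit 9842000000], [],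 [nat_lit 32658982620, nat_lit 30648190910, nat_lit 31205279830, nat_lit 32071169860, nat_lit 26465384570, nat_lit 27214414790, nat_lit 30149872840, nat_lit 28564272760], nat_lit 1271250, nat_lit 1271250, nat_lit 1100001, nat_lit 1785000, nat_lit 0, nat_lit 1100001, [nat_lit 780000, nat_lit 1435000, nat_lit 1271250], [nat_lit 8, nat_lit 40, nat_lit 40, nat_lit 80, nat_lit 1, nat_lit 317, nat_lit 100, nat_lit 9]⟩,
 zbF0, [⟨nat_lit 16, nat_lit 100, nat_lit 95, nat_lit 87, nat_lit 279046472⟩, ⟨nat_lit 4, nat_lit 100, nat_lit 94, nat_lit 75, nat_lit 235443718⟩]⟩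
noncomputable def p067_l28 : Lf2 := ⟨nat_lit 0, nat_lit 10, [nat_lit 0, nat_lit 5, nat_lit 5, nat_lit 20], false, nat_lit 160, nat_lit 300, nat_lit 160, nat_lit 300, ⟨nat_lit 1000, nat_lit 0, nat_lit 0, nat_lit 0, nat_lit 0, nat_lit 0, nat_lit 0, nat_lit 0, nat_lit 0, nat_lit 0, nat_lit 0, nat_lit 0, nat_lit 0, nat_lit 0, nat_lit 0, nat_lit 0, false, false⟩,
 nat_lit 14302, nat_lit 0, nat_lit 0, nat_lit 0, nat_lit 9101, nat_lit 9101, nat_lit 1031, nat_lit 0, nat_lit 0, nat_lit 1031, nat_lit 0, nat_lit 0, nat_lit 0, nat_lit 0, nat_lit 0, nat_lit 0, nat_lit 0, nat_lit 0, [],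
 ⟨p067_k0, nat_lit 0, nat_lit 0, nat_lit 362, nat_lit 0, nat_lit 626590, [nat_lit 3282000000, nat_lit 6250000000, nat_lit 9842000000], [], [nat_lit 21329189608, nat_lit 18426955467, nat_lit 20949083032, nat_lit 20016991416, nat_lit 22141796884, nat_lit 23351601955, nat_lit 24025894008, nat_lit 25635851317], nat_lit 1271250, nat_lit 1271250, nat_lit 780000, nat_lit 1762500, nat_lit 1271250, nat_lit 1271250, [nat_lit 780000, nat_lit 1435000, nat_lit 1271250], [nat_lit 8, nat_lit 40, nat_lit 40, nat_lit 80, nat_lit 1, nat_lit 373, nat_lit 150, nat_lit 10]⟩, ⟨p067_k0, nat_lit 0, nat_lit 0, nat_lit 362, nat_lit 0, nat_lit 626590, [nat_lit 3282000000, nat_lit 6250000000, nat_lit 9842000000], [], [nat_lit 21329189608, nat_lit 18426955467, nat_lit 20949083032, nat_lit 20016991416, nat_lit 22141796884, nat_lit 23351601955, nat_lit 24025894008, nat_lit 25635851317], nat_lit 1271250, nat_lit 1271250, nat_lit 780000, nat_lit 1762500,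 nat_lit 1271250, nat_lit 1271250, [nat_lit 780000, nat_lit 1435000, nat_lit 1271250], [nat_lit 8, nat_lit 40, nat_lit 40, nat_lit 80, nat_lit 1, nat_lit 373, nat_lit 150, nat_lit 10]⟩,
 zbF0, [⟨nat_lit 16, nat_lit 100, nat_lit 95, nat_lit 87, nat_lit 218875590⟩, ⟨nat_lit 4, nat_lit 100, nat_lit 94, nat_lit 75, nat_lit 173504216⟩, ⟨nat_lit 19, nat_lit 94, nat_lit 100, nat_lit 75, nat_lit 439793225⟩]⟩
noncomputable def p067_l29 : Lf2 := ⟨nat_lit 0, nat_lit 10, [nat_lit 0, nat_lit 5, nat_lit 5, nat_lit 20], false, nat_lit 160, nat_lit 280, nat_lit 0, nat_lit 160, ⟨nat_lit 1000, nat_lit 0, nat_lit 0, nat_lit 0, nat_lit 0, nat_lit 0, nat_lit 0, nat_lit 0, nat_lit 0, nat_lit 0, nat_lit 0, nat_lit 0, nat_lit 0, nat_lit 0, nat_lit 0, nat_lit 0, false, false⟩,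
 nat_lit 10349, nat_lit 0, nat_lit 0, nat_lit 0, nat_lit 7164, nat_lit 6585, nat_lit 1182, nat_lit 0, nat_lit 0, nat_lit 722, nat_lit 0, nat_lit 0, nat_lit 0, nat_lit 0, nat_lit 0, nat_lit 0, nat_lit 0, nat_lit 0, [],
 ⟨p067_k8, nat_lit 0, nat_lit 0, nat_lit 387, nat_lit 0, nat_lit 748470, [nat_lit 3282000000, nat_lit 6250000000, nat_lit 7968000000], [], [nat_lit 18767789000, nat_lit 19701331054, nat_lit 20312545438, nat_lit 21207759390, nat_lit 21786859930, nat_lit 22649621784, nat_lit 25987004936, nat_lit 25055051768], nat_lit 1271250, nat_lit 1271250, nat_lit 780000, nat_lit 1762500, nat_lit 1100001, nat_lit 2127500, [nat_lit 780000, nat_lit 1435000, nat_lit 1271250], [nat_lit 18, nat_lit 40, nat_lit 40, nat_lit 80, nat_lit 2, nat_lit 373, nat_lit 150, nat_lit 12]⟩, ⟨p067_k0, nat_lit 0, nat_lit 0, nat_lit 601, nat_lit 0, nat_lit 829096, [nat_lit 3282000000, nat_lit 6250000000, nat_lit 9842000000], [], [nat_lit 39566498400,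 nat_lit 36084667370, nat_lit 35557180350, nat_lit 36867104790, nat_lit 31744161930, nat_lit 32955370190, nat_lit 38438909140, nat_lit 33313040850], nat_lit 1271250, nat_lit 1271250, nat_lit 780000, nat_lit 1762500, nat_lit 0, nat_lit 1100001, [nat_lit 780000, nat_lit 1435000, nat_lit 1271250], [nat_lit 8, nat_lit 40, nat_lit 40, nat_lit 80, nat_lit 1, nat_lit 317, nat_lit 100, nat_lit 9]⟩,
 zbF0, [⟨nat_lit 4, nat_lit 100, nat_lit 85, nat_lit 73, nat_lit 544058344⟩]⟩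
noncomputable def p067_l30 : Lf2 := ⟨nat_lit 0, nat_lit 10, [nat_lit 0, nat_lit 5, nat_lit 5, nat_lit 20], false, nat_lit 160, nat_lit 280, nat_lit 160, nat_lit 300, ⟨nat_lit 927, nat_lit 73, nat_lit 0, nat_lit 7, nat_lit 229, nat_lit 73, nat_lit 154, nat_lit 0, nat_lit 0, nat_lit 0, nat_lit 0, nat_lit 0, nat_lit 43322870, nat_lit 15452416, nat_lit 8224714, nat_lit 4711263, false, false⟩,
 nat_lit 12457, nat_lit 0, nat_lit 0, nat_lit 0, nat_lit 6435, nat_lit 7927, nat_lit 1450, nat_lit 0, nat_lit 0, nat_lit 787, nat_lit 0, nat_lit 0, nat_lit 0, nat_lit 0, nat_lit 0, nat_lit 29200, nat_lit 0, nat_lit 0, [(nat_lit 15, [(nat_lit 1, nat_lit 73)])],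
 ⟨p067_k8, nat_lit 0, nat_lit 0, nat_lit 387, nat_lit 0, nat_lit 748470, [nat_lit 3189888601, nat_lit 5965655267, nat_lit 7555404000], [], [nat_lit 19376900452, nat_lit 19718110092, nat_lit 20337785972, nat_lit 21091797212, nat_lit 21545549172, nat_lit 22276223610, nat_lit 26926078493, nat_lit 24745983470], nat_lit 1271250, nat_lit 1271250, nat_lit 780000, nat_lit 1762500, nat_lit 1100001, nat_lit 2127500, [nat_lit 780000, nat_lit 1435000, nat_lit 1271250], [nat_lit 18, nat_lit 40, nat_lit 40, nat_lit 80, nat_lit 2, nat_lit 373, nat_lit 150, nat_lit 12]⟩, ⟨p067_k0, nat_lit 0, nat_lit 0, nat_lit 480, nat_lit 0, nat_lit 829096, [nat_lit 3042414000, nat_lit 5793750000, nat_lit 9123534000], [], [nat_lit 20065292140, nat_lit 21644062503, nat_lit 20714855467, nat_lit 22189665556, nat_lit 22851149659, nat_lit 24445242069, nat_lit 23321083791, nat_lit 24997400749], nat_lit 1271250, nat_lit 1271250, nat_lit 780000, nat_lit 1762500,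 nat_lit 1271250, nat_lit 1271250, [nat_lit 780000, nat_lit 1435000, nat_lit 1271250], [nat_lit 8, nat_lit 40, nat_lit 40, nat_lit 80, nat_lit 1, nat_lit 373, nat_lit 150, nat_lit 10]⟩,
 ⟨nat_lit 4472, nat_lit 5000, ⟨.ofNat (nat_lit 442816), .ofNat (nat_lit 657088), .ofNat (nat_lit 485648), .ofNat (nat_lit 699920), .ofNat (nat_lit 450269), .ofNat (nat_lit 654189), .ofNat (nat_lit 493376), .ofNat (nat_lit 697297)⟩, ⟨.ofNat (nat_lit 257141), .ofNat (nat_lit 471427), .ofNat (nat_lit 299999), .ofNat (nat_lit 514284), .ofNat (nat_lit 259489), .ofNat (nat_lit 463423), .ofNat (nat_lit 302621), .ofNat (nat_lit 506556)⟩⟩, [⟨nat_lit 0, nat_lit 97, nat_lit 93, nat_lit 100, nat_lit 237862440⟩, ⟨nat_lit 0, nat_lit 83, nat_lit 83, nat_lit 100, nat_lit 17588803⟩, ⟨nat_lit 16, nat_lit 94, nat_lit 100, nat_lit 87, nat_lit 351793082⟩, ⟨nat_lit 7, nat_lit 100, nat_lit 90, nat_lit 74, nat_lit 455866471⟩]⟩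
noncomputable def b_V_700_700_10_17 : St := ⟨true, nat_lit 1, nat_lit 1, nat_lit 1, nat_lit 80, nat_lit 280, nat_lit 320, nat_lit 280, nat_lit 320, nat_lit 120, nat_lit 240, nat_lit 40, nat_lit 80, nat_lit 0, nat_lit 300, nat_lit 0, nat_lit 300, nat_lit 0, nat_lit 40, nat_lit 0, nat_lit 0, nat_lit 0, nat_lit 0⟩
theorem d_V_700_700_10_17 (h : EB TB.env) : Dead b_V_700_700_10_17 := chkB_sound0 h (T :=
(.spl (nat_lit 4) (nat_lit 160)
(.spl (nat_lit 2) (nat_lit 160)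
(.spl (nat_lit 5) (nat_lit 160)
(.leaf p067_l21)
(.spl (nat_lit 0) (nat_lit 300)
(.ord (.leaf p067_l22))
(.leaf p067_l23)))
(.spl (nat_lit 0) (nat_lit 300)
(.ord (.leaf p067_l24))
(.leaf p067_l25)))
(.spl (nat_lit 0) (nat_lit 300)
(.ord (.spl (nat_lit 5) (nat_lit 160)
(.spl (nat_lit 2) (nat_lit 160)
(.leaf p067_l26)
(.leaf p067_l27))
(.leaf p067_l28)))
(.trX (nat_lit 16) (nat_lit 94) (nat_lit 100) (nat_lit 87) (nat_lit 280) (.spl (nat_lit 5) (nat_lit 160)
(.leaf p067_l29)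
(.leaf p067_l30)))))) (by decide +kernel)
noncomputable def p067_l31 : Lf2 := ⟨nat_lit 0, nat_lit 10, [nat_lit 0, nat_lit 5, nat_lit 5, nat_lit 20], false, nat_lit 0, nat_lit 160, nat_lit 0, nat_lit 160, ⟨nat_lit 1000, nat_lit 0, nat_lit 0, nat_lit 0, nat_lit 0, nat_lit 0, nat_lit 0, nat_lit 0, nat_lit 0, nat_lit 0, nat_lit 0, nat_lit 0, nat_lit 0, nat_lit 0, nat_lit 0, nat_lit 0, false, false⟩,
 nat_lit 0, nat_lit 9516, nat_lit 0, nat_lit 0, nat_lit 6055, nat_lit 6902, nat_lit 981, nat_lit 0, nat_lit 0, nat_lit 2431, nat_lit 0, nat_lit 0, nat_lit 0, nat_lit 35720065150944, nat_lit 0, nat_lit 0, nat_lit 0, nat_lit 0, [],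
 ⟨p067_k10, nat_lit 0, nat_lit 0, nat_lit 631, nat_lit 0, nat_lit 859017, [nat_lit 3282000000, nat_lit 4688000000, nat_lit 9842000000], [], [nat_lit 36637052892, nat_lit 35843905415, nat_lit 33799926405, nat_lit 33947703468, nat_lit 30997468337, nat_lit 31161111992, nat_lit 39893622745, nat_lit 39225535238], nat_lit 1271250, nat_lit 1271250, nat_lit 382400, nat_lit 1731000, nat_lit 0, nat_lit 1100001, [nat_lit 780000, nat_lit 1100000, nat_lit 2127500], [nat_lit 42, nat_lit 40, nat_lit 40, nat_lit 80, nat_lit 13, nat_lit 317, nat_lit 100, nat_lit 9]⟩, ⟨p067_k10, nat_lit 0, nat_lit 0, nat_lit 178, nat_lit 0, nat_lit 0, [nat_lit 3282000000, nat_lit 4688000000, nat_lit 9842000000], [], [nat_lit 17498419505, nat_lit 17993274533, nat_lit 21138584568, nat_lit 21714297117, nat_lit 12861807046, nat_lit 13304891143, nat_lit 16811819240, nat_lit 17217297027], nat_lit 0, nat_lit 0, nat_lit 0, nat_lit 0, nat_lit 0, nat_lit 0, [],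 [nat_lit 42, nat_lit 40, nat_lit 40, nat_lit 80, nat_lit 13, nat_lit 317, nat_lit 100, nat_lit 9]⟩,
 zbF0, [⟨nat_lit 0, nat_lit 100, nat_lit 100, nat_lit 85, nat_lit 216435583⟩]⟩
noncomputable def p067_l32 : Lf2 := ⟨nat_lit 0, nat_lit 10, [nat_lit 0, nat_lit 5, nat_lit 5, nat_lit 20], false, nat_lit 0, nat_lit 160, nat_lit 0, nat_lit 160, ⟨nat_lit 1000, nat_lit 0, nat_lit 0, nat_lit 0, nat_lit 0, nat_lit 0, nat_lit 0, nat_lit 0, nat_lit 0, nat_lit 0, nat_lit 0, nat_lit 0, nat_lit 0, nat_lit 0, nat_lit 0, nat_lit 0, false, false⟩,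
 nat_lit 0, nat_lit 9462, nat_lit 0, nat_lit 0, nat_lit 6151, nat_lit 6865, nat_lit 1001, nat_lit 0, nat_lit 0, nat_lit 2394, nat_lit 0, nat_lit 0, nat_lit 0, nat_lit 35135184896773, nat_lit 0, nat_lit 0, nat_lit 0, nat_lit 0, [],
 ⟨p067_k11, nat_lit 0, nat_lit 0, nat_lit 677, nat_lit 0, nat_lit 929948, [nat_lit 3282000000, nat_lit 4688000000, nat_lit 9842000000], [], [nat_lit 35032869536, nat_lit 34228371019, nat_lit 32265488009, nat_lit 32413911871, nat_lit 29380820993, nat_lit 29544583427, nat_lit 38666660248, nat_lit 37987980436], nat_lit 1271250, nat_lit 1271250, nat_lit 408851, nat_lit 1733250, nat_lit 0, nat_lit 1100001, [nat_lit 780000, nat_lit 1100000, nat_lit 2127500], [nat_lit 42, nat_lit 40, nat_lit 40, nat_lit 80, nat_lit 13, nat_lit 317, nat_lit 100, nat_lit 9]⟩, ⟨p067_k10, nat_lit 0, nat_lit 0, nat_lit 179, nat_lit 0, nat_lit 0, [nat_lit 3282000000, nat_lit 4688000000, nat_lit 9842000000], [], [nat_lit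 17493642865, nat_lit 18476518901, nat_lit 21100160660, nat_lit 22247534295, nat_lit 12940600277, nat_lit 13788074914, nat_lit 16856196300, nat_lit 17664538305], nat_lit 0, nat_lit 0, nat_lit 0, nat_lit 0, nat_lit 0, nat_lit 0, [], [nat_lit 42, nat_lit 40, nat_lit 40, nat_lit 80, nat_lit 13, nat_lit 317, nat_lit 100, nat_lit 9]⟩,
 zbF0, [⟨nat_lit 0, nat_lit 100, nat_lit 100, nat_lit 90, nat_lit 189246118⟩]⟩
noncomputable def p067_l33 : Lf2 := ⟨nat_lit 0, nat_lit 10, [nat_lit 0, nat_lit 5, nat_lit 5, nat_lit 20], true, nat_lit 0, nat_lit 80, nat_lit 160, nat_lit 276, ⟨nat_lit 0, nat_lit 1000, nat_lit 0, nat_lit 7, nat_lit 142, nat_lit 1000, nat_lit 24, nat_lit 0, nat_lit 0, nat_lit 0, nat_lit 0, nat_lit 0, nat_lit 0, nat_lit 0, nat_lit 0, nat_lit 5000000, false, false⟩,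
 nat_lit 0, nat_lit 5145, nat_lit 0, nat_lit 0, nat_lit 3274, nat_lit 0, nat_lit 0, nat_lit 0, nat_lit 0, nat_lit 0, nat_lit 0, nat_lit 0, nat_lit 0, nat_lit 23854698156875, nat_lit 0, nat_lit 931600, nat_lit 0, nat_lit 0, [(nat_lit 12, [(nat_lit 1, nat_lit 114), (nat_lit 2, nat_lit 886)])],
 ⟨p067_k10, nat_lit 0, nat_lit 0, nat_lit 465, nat_lit 0, nat_lit 495013, [nat_lit 1997570160, nat_lit 2624529600, nat_lit 40065600], [], [nat_lit 26727484490, nat_lit 25882553488, nat_lit 25363462752, nat_lit 24523586806, nat_lit 25224752999, nat_lit 24469729311, nat_lit 25846611280, nat_lit 25095601516], nat_lit 1271250, nat_lit 1271250, nat_lit 382400, nat_lit 490000, nat_lit 0, nat_lit 490000, [nat_lit 780000, nat_lit 1100000, nat_lit 2127500], [nat_lit 42, nat_lit 40, nat_lit 40, nat_lit 80, nat_lit 13, nat_lit 249, nat_lit 40, nat_lit 7]⟩, C1.Rw.none,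
 ⟨nat_lit 5244, nat_lit 5478, ⟨.ofNat (nat_lit 330654), .ofNat (nat_lit 360628), .ofNat (nat_lit 341333), .ofNat (nat_lit 371306), .ofNat (nat_lit 336758), .ofNat (nat_lit 366027), .ofNat (nat_lit 347451), .ofNat (nat_lit 376720)⟩, ⟨.negSucc (nat_lit 45522), .ofNat (nat_lit 104343), .negSucc (nat_lit 24165), .ofNat (nat_lit 125700), .negSucc (nat_lit 36940), .ofNat (nat_lit 109402), .negSucc (nat_lit 15554), .ofNat (nat_lit 130787)⟩⟩, [⟨nat_lit 0, nat_lit 100, nat_lit 100, nat_lit 85, nat_lit 84221865⟩]⟩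
noncomputable def p067_l34 : Lf2 := ⟨nat_lit 0, nat_lit 10, [nat_lit 0, nat_lit 5, nat_lit 5, nat_lit 20], false, nat_lit 0, nat_lit 80, nat_lit 160, nat_lit 276, ⟨nat_lit 1000, nat_lit 0, nat_lit 0, nat_lit 0, nat_lit 0, nat_lit 0, nat_lit 0, nat_lit 0, nat_lit 0, nat_lit 0, nat_lit 0, nat_lit 0, nat_lit 0, nat_lit 0, nat_lit 0, nat_lit 0, false, false⟩,
 nat_lit 0, nat_lit 10512, nat_lit 0, nat_lit 0, nat_lit 6689, nat_lit 5731, nat_lit 1676, nat_lit 0, nat_lit 0, nat_lit 0, nat_lit 0, nat_lit 0, nat_lit 0, nat_lit 14959692973036, nat_lit 0, nat_lit 0, nat_lit 0, nat_lit 0, [],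
 ⟨p067_k10, nat_lit 0, nat_lit 0, nat_lit 657, nat_lit 0, nat_lit 928710, [nat_lit 3282000000, nat_lit 4688000000, nat_lit 9842000000], [], [nat_lit 28810552712, nat_lit 27096945738, nat_lit 26502737904, nat_lit 26998332222, nat_lit 24577534620, nat_lit 25062410732, nat_lit 27357176044, nat_lit 25842759688], nat_lit 1271250, nat_lit 1271250, nat_lit 490000, nat_lit 780000, nat_lit 0, nat_lit 490000, [nat_lit 780000, nat_lit 1100000, nat_lit 2127500], [nat_lit 42, nat_lit 40, nat_lit 40, nat_lit 80, nat_lit 13, nat_lit 260, nat_lit 50, nat_lit 8]⟩, ⟨p067_k10, nat_lit 0, nat_lit 0, nat_lit 32, nat_lit 0, nat_lit 0, [nat_lit 3282000000, nat_lit 4688000000, nat_lit 9842000000], [], [nat_lit 11356894996, nat_lit 12393889315, nat_lit 11579891552, nat_lit 12562425418, nat_lit 18557738787, nat_lit 19438508883, nat_lit 18290089592, nat_lit 19128247813], nat_lit 0, nat_lit 0, nat_lit 0, nat_lit 0, nat_lit 0, nat_lit 0, [], [nat_lit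 42, nat_lit 40, nat_lit 40, nat_lit 80, nat_lit 13, nat_lit 317, nat_lit 100, nat_lit 9]⟩,
 zbF0, [⟨nat_lit 0, nat_lit 100, nat_lit 100, nat_lit 90, nat_lit 289667796⟩, ⟨nat_lit 7, nat_lit 100, nat_lit 94, nat_lit 69, nat_lit 797760861⟩]⟩
noncomputable def p067_l35 : Lf2 := ⟨nat_lit 0, nat_lit 10, [nat_lit 0, nat_lit 5, nat_lit 5, nat_lit 20], false, nat_lit 0, nat_lit 80, nat_lit 160, nat_lit 276, ⟨nat_lit 1000, nat_lit 0, nat_lit 0, nat_lit 0, nat_lit 0, nat_lit 0, nat_lit 0, nat_lit 0, nat_lit 0, nat_lit 0, nat_lit 0, nat_lit 0, nat_lit 0, nat_lit 0, nat_lit 0, nat_lit 0, false, false⟩,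
 nat_lit 0, nat_lit 11111, nat_lit 0, nat_lit 0, nat_lit 7070, nat_lit 5917, nat_lit 3942, nat_lit 0, nat_lit 0, nat_lit 0, nat_lit 0, nat_lit 0, nat_lit 0, nat_lit 2403982022694, nat_lit 0, nat_lit 0, nat_lit 0, nat_lit 0, [],
 ⟨p067_k10, nat_lit 0, nat_lit 0, nat_lit 630, nat_lit 0, nat_lit 928710, [nat_lit 3282000000, nat_lit 4688000000, nat_lit 9842000000], [], [nat_lit 27185404560, nat_lit 25373137860, nat_lit 26806405040, nat_lit 27210975670, nat_lit 22677870560, nat_lit 23148687260, nat_lit 24441143440, nat_lit 24815299820], nat_lit 1271250, nat_lit 1271250, nat_lit 780000, nat_lit 1762500, nat_lit 0, nat_lit 490000, [nat_lit 780000, nat_lit 1100000, nat_lit 2127500], [nat_lit 42, nat_lit 40, nat_lit 40, nat_lit 80, nat_lit 13, nat_lit 317, nat_lit 100, nat_lit 9]⟩, ⟨p067_k10, nat_lit 0, nat_lit 0, nat_lit 18, nat_lit 0, nat_lit 0, [nat_lit 3282000000, nat_lit 4688000000, nat_lit 9842000000], [], [nat_lit 11328306464,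 nat_lit 12330572326, nat_lit 16132583812, nat_lit 17016914824, nat_lit 18317846744, nat_lit 19171734120, nat_lit 21597547689, nat_lit 22274834381], nat_lit 0, nat_lit 0, nat_lit 0, nat_lit 0, nat_lit 0, nat_lit 0, [], [nat_lit 42, nat_lit 40, nat_lit 40, nat_lit 80, nat_lit 13, nat_lit 373, nat_lit 150, nat_lit 10]⟩,
 zbF0, [⟨nat_lit 7, nat_lit 100, nat_lit 94, nat_lit 69, nat_lit 784259940⟩]⟩
noncomputable def p067_l36 : Lf2 := ⟨nat_lit 0, nat_lit 10, [nat_lit 0, nat_lit 5, nat_lit 5, nat_lit 20], false, nat_lit 80, nat_lit 160, nat_lit 160, nat_lit 276, ⟨nat_lit 1000, nat_lit 0, nat_lit 0, nat_lit 0, nat_lit 0, nat_lit 0, nat_lit 0, nat_lit 0, nat_lit 0, nat_lit 0, nat_lit 0, nat_lit 0, nat_lit 0, nat_lit 0, nat_lit 0, nat_lit 0, false, false⟩,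
 nat_lit 0, nat_lit 12780, nat_lit 0, nat_lit 0, nat_lit 8132, nat_lit 5175, nat_lit 3325, nat_lit 0, nat_lit 0, nat_lit 0, nat_lit 0, nat_lit 0, nat_lit 0, nat_lit 16745174254751, nat_lit 0, nat_lit 0, nat_lit 0, nat_lit 0, [],
 ⟨p067_k10, nat_lit 0, nat_lit 0, nat_lit 605, nat_lit 0, nat_lit 928710, [nat_lit 3282000000, nat_lit 4688000000, nat_lit 9842000000], [], [nat_lit 21567925469, nat_lit 19500114004, nat_lit 16190209056, nat_lit 16695338976, nat_lit 16526173159, nat_lit 17041418151, nat_lit 18605520736, nat_lit 16740153784], nat_lit 1271250, nat_lit 1271250, nat_lit 382400, nat_lit 1100001, nat_lit 490000, nat_lit 1100001, [nat_lit 780000, nat_lit 1100000, nat_lit 2127500], [nat_lit 42, nat_lit 40, nat_lit 40, nat_lit 80, nat_lit 13, nat_lit 317, nat_lit 100, nat_lit 9]⟩, ⟨p067_k10, nat_lit 0, nat_lit 0, nat_lit 41, nat_lit 0, nat_lit 0, [nat_lit 3282000000, nat_lit 4688000000, nat_lit 9842000000], [], [nat_lit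 12275709981, nat_lit 13265471496, nat_lit 13306992900, nat_lit 14172467275, nat_lit 18805383073, nat_lit 19646438809, nat_lit 19060249885, nat_lit 19729730769], nat_lit 0, nat_lit 0, nat_lit 0, nat_lit 0, nat_lit 0, nat_lit 0, [], [nat_lit 42, nat_lit 40, nat_lit 40, nat_lit 80, nat_lit 13, nat_lit 345, nat_lit 125, nat_lit 10]⟩,
 zbF0, [⟨nat_lit 0, nat_lit 100, nat_lit 100, nat_lit 85, nat_lit 547374332⟩, ⟨nat_lit 19, nat_lit 94, nat_lit 100, nat_lit 69, nat_lit 753746846⟩]⟩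
noncomputable def p067_l37 : Lf2 := ⟨nat_lit 0, nat_lit 10, [nat_lit 0, nat_lit 5, nat_lit 5, nat_lit 20], false, nat_lit 80, nat_lit 160, nat_lit 160, nat_lit 276, ⟨nat_lit 1000, nat_lit 0, nat_lit 0, nat_lit 0, nat_lit 0, nat_lit 0, nat_lit 0, nat_lit 0, nat_lit 0, nat_lit 0, nat_lit 0, nat_lit 0, nat_lit 0, nat_lit 0, nat_lit 0, nat_lit 0, false, false⟩,
 nat_lit 0, nat_lit 11795, nat_lit 0, nat_lit 0, nat_lit 7505, nat_lit 18049, nat_lit 2065, nat_lit 0, nat_lit 0, nat_lit 0, nat_lit 0, nat_lit 0, nat_lit 0, nat_lit 325704804358, nat_lit 0, nat_lit 0, nat_lit 0, nat_lit 0, [],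
 ⟨p067_k10, nat_lit 0, nat_lit 0, nat_lit 566, nat_lit 0, nat_lit 928710, [nat_lit 3282000000, nat_lit 4688000000, nat_lit 9842000000], [], [nat_lit 23653196040, nat_lit 21727945895, nat_lit 20424353920, nat_lit 20895453375, nat_lit 18583769860, nat_lit 19074702975, nat_lit 20739311240, nat_lit 20629368905], nat_lit 1271250, nat_lit 1271250, nat_lit 1100001, nat_lit 1785000, nat_lit 490000, nat_lit 1100001, [nat_lit 780000, nat_lit 1100000, nat_lit 2127500], [nat_lit 42, nat_lit 40, nat_lit 40, nat_lit 80, nat_lit 13, nat_lit 317, nat_lit 100, nat_lit 9]⟩, ⟨p067_k10, nat_lit 0, nat_lit 0, nat_lit 17, nat_lit 0, nat_lit 0, [nat_lit 3282000000, nat_lit 4688000000, nat_lit 9842000000], [], [nat_lit 6798885200, nat_lit 9212473040, nat_lit 13905585364, nat_lit 15870101128, nat_lit 19600237066, nat_lit 21342289538, nat_lit 23585545737, nat_lit 25000049788], nat_lit 0, nat_lit 0, nat_lit 0, nat_lit 0, nat_lit 0, nat_lit 0,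 [], [nat_lit 42, nat_lit 40, nat_lit 40, nat_lit 80, nat_lit 13, nat_lit 373, nat_lit 150, nat_lit 10]⟩,
 zbF0, [⟨nat_lit 7, nat_lit 100, nat_lit 94, nat_lit 69, nat_lit 1135701957⟩]⟩
noncomputable def p067_l38 : Lf2 := ⟨nat_lit 0, nat_lit 10, [nat_lit 0, nat_lit 5, nat_lit 5, nat_lit 20], false, nat_lit 0, nat_lit 80, nat_lit 160, nat_lit 300, ⟨nat_lit 464, nat_lit 536, nat_lit 0, nat_lit 7, nat_lit 201, nat_lit 536, nat_lit 28, nat_lit 0, nat_lit 0, nat_lit 0, nat_lit 0, nat_lit 0, nat_lit 0, nat_lit 0, nat_lit 0, nat_lit 5000000, false, false⟩,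
 nat_lit 0, nat_lit 5434, nat_lit 0, nat_lit 0, nat_lit 3457, nat_lit 2295, nat_lit 831, nat_lit 0, nat_lit 0, nat_lit 0, nat_lit 0, nat_lit 0, nat_lit 0, nat_lit 16259870607925, nat_lit 0, nat_lit 536000, nat_lit 0, nat_lit 0, [(nat_lit 12, [(nat_lit 2, nat_lit 536)])],
 ⟨p067_k10, nat_lit 0, nat_lit 0, nat_lit 590, nat_lit 0, nat_lit 734839, [nat_lit 2591074560, nat_lit 3575478401, nat_lit 4409104000], [], [nat_lit 31832137682, nat_lit 30926469365, nat_lit 32710954896, nat_lit 33081283011, nat_lit 29294467636, nat_lit 29658343360, nat_lit 32098798852, nat_lit 32446875539], nat_lit 1271250, nat_lit 1271250, nat_lit 382400, nat_lit 1731000, nat_lit 0, nat_lit 490000, [nat_lit 780000, nat_lit 1100000, nat_lit 2127500], [nat_lit 42, nat_lit 40, nat_lit 40, nat_lit 80, nat_lit 13, nat_lit 317, nat_lit 100, nat_lit 9]⟩, ⟨p067_k10, nat_lit 0, nat_lit 0, nat_lit 53, nat_lit 0, nat_lit 0, [nat_lit 1522848000, nat_lit 2175232000,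 nat_lit 4566688000], [], [nat_lit 5814160022, nat_lit 6261106966, nat_lit 7920906992, nat_lit 8253107824, nat_lit 9558013271, nat_lit 9879743500, nat_lit 10685452242, nat_lit 10928937313], nat_lit 0, nat_lit 0, nat_lit 0, nat_lit 0, nat_lit 0, nat_lit 0, [], [nat_lit 42, nat_lit 40, nat_lit 40, nat_lit 80, nat_lit 13, nat_lit 373, nat_lit 150, nat_lit 10]⟩,
 ⟨nat_lit 5244, nat_lit 5478, ⟨.ofNat (nat_lit 330654), .ofNat (nat_lit 660348), .ofNat (nat_lit 341333), .ofNat (nat_lit 671025), .ofNat (nat_lit 336758), .ofNat (nat_lit 658700), .ofNat (nat_lit 347451), .ofNat (nat_lit 669391)⟩, ⟨.negSucc (nat_lit 24165), .ofNat (nat_lit 125700), .negSucc (nat_lit 2827), .ofNat (nat_lit 147057), .negSucc (nat_lit 15554), .ofNat (nat_lit 130787), .ofNat (nat_lit 0), .ofNat (nat_lit 152172)⟩⟩, [⟨nat_lit 0, nat_lit 100, nat_lit 100, nat_lit 85, nat_lit 111430677⟩, ⟨nat_lit 19, nat_lit 99, nat_lit 100, nat_lit 83, nat_lit 281352494⟩]⟩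
noncomputable def p067_l39 : Lf2 := ⟨nat_lit 0, nat_lit 10, [nat_lit 0, nat_lit 5, nat_lit 5, nat_lit 20], false, nat_lit 80, nat_lit 160, nat_lit 160, nat_lit 300, ⟨nat_lit 424, nat_lit 576, nat_lit 0, nat_lit 7, nat_lit 199, nat_lit 576, nat_lit 85, nat_lit 0, nat_lit 0, nat_lit 0, nat_lit 0, nat_lit 0, nat_lit 0, nat_lit 0, nat_lit 0, nat_lit 5000000, false, false⟩,
 nat_lit 0, nat_lit 4806, nat_lit 0, nat_lit 0, nat_lit 3058, nat_lit 2127, nat_lit 703, nat_lit 0, nat_lit 0, nat_lit 0, nat_lit 0, nat_lit 0, nat_lit 0, nat_lit 8858627015220, nat_lit 0, nat_lit 576000, nat_lit 0, nat_lit 0, [(nat_lit 12, [(nat_lit 2, nat_lit 576)])],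
 ⟨p067_k10, nat_lit 0, nat_lit 0, nat_lit 458, nat_lit 0, nat_lit 638693, [nat_lit 2539512960, nat_lit 3492454400, nat_lit 4003664000], [], [nat_lit 29704566556, nat_lit 29303997607, nat_lit 30860590103, nat_lit 30514418387, nat_lit 27694175742, nat_lit 27878617935, nat_lit 35258900607, nat_lit 34921491590], nat_lit 1271250, nat_lit 1271250, nat_lit 382400, nat_lit 1731000, nat_lit 490000, nat_lit 1100001, [nat_lit 780000, nat_lit 1100000, nat_lit 2127500], [nat_lit 42, nat_lit 40, nat_lit 40, nat_lit 80, nat_lit 13, nat_lit 317, nat_lit 100, nat_lit 9]⟩, ⟨p067_k10, nat_lit 0, nat_lit 0, nat_lit 50, nat_lit 0, nat_lit 0, [nat_lit 1391568000, nat_lit 1987712000, nat_lit 4173008000], [], [nat_lit 5279713609, nat_lit 5485650766, nat_lit 7204008400, nat_lit 7356942780, nat_lit 8724243642, nat_lit 8887584271, nat_lit 9742460418, nat_lit 9854412686], nat_lit 0, nat_lit 0, nat_lit 0, nat_lit 0, nat_lit 0, nat_lit 0, [], [nat_lit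 42, nat_lit 40, nat_lit 40, nat_lit 80, nat_lit 13, nat_lit 373, nat_lit 150, nat_lit 10]⟩,
 ⟨nat_lit 5361, nat_lit 5478, ⟨.ofNat (nat_lit 330654), .ofNat (nat_lit 660357), .ofNat (nat_lit 335994), .ofNat (nat_lit 665696), .ofNat (nat_lit 333709), .ofNat (nat_lit 659523), .ofNat (nat_lit 339051), .ofNat (nat_lit 664866)⟩, ⟨.ofNat (nat_lit 125700), .ofNat (nat_lit 275566), .ofNat (nat_lit 147057), .ofNat (nat_lit 296923), .ofNat (nat_lit 128264), .ofNat (nat_lit 276363), .ofNat (nat_lit 149634), .ofNat (nat_lit 297732)⟩⟩, [⟨nat_lit 7, nat_lit 99, nat_lit 100, nat_lit 83, nat_lit 221621669⟩]⟩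
noncomputable def p067_l40 : Lf2 := ⟨nat_lit 0, nat_lit 10, [nat_lit 0, nat_lit 5, nat_lit 5, nat_lit 20], false, nat_lit 80, nat_lit 160, nat_lit 160, nat_lit 300, ⟨nat_lit 667, nat_lit 333, nat_lit 0, nat_lit 7, nat_lit 202, nat_lit 333, nat_lit 86, nat_lit 0, nat_lit 0, nat_lit 0, nat_lit 0, nat_lit 0, nat_lit 0, nat_lit 0, nat_lit 0, nat_lit 5000000, false, false⟩,
 nat_lit 0, nat_lit 5656, nat_lit 0, nat_lit 0, nat_lit 3677, nat_lit 3316, nat_lit 1363, nat_lit 0, nat_lit 0, nat_lit 0, nat_lit 0, nat_lit 0, nat_lit 0, nat_lit 0, nat_lit 0, nat_lit 133200, nat_lit 0, nat_lit 0, [(nat_lit 12, [(nat_lit 1, nat_lit 333)])],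
 ⟨p067_k11, nat_lit 0, nat_lit 0, nat_lit 482, nat_lit 0, nat_lit 712861, [nat_lit 2866216200, nat_lit 4032256401, nat_lit 7442535200], [], [nat_lit 29826020411, nat_lit 29345100065, nat_lit 30121177364, nat_lit 29704933610, nat_lit 27436537370, nat_lit 27627838398, nat_lit 34926424484, nat_lit 34520717173], nat_lit 1271250, nat_lit 1271250, nat_lit 408851, nat_lit 1733250, nat_lit 490000, nat_lit 1100001, [nat_lit 780000, nat_lit 1100000, nat_lit 2127500], [nat_lit 42, nat_lit 40, nat_lit 40, nat_lit 80, nat_lit 13, nat_lit 317, nat_lit 100, nat_lit 9]⟩, ⟨p067_k10, nat_lit 0, nat_lit 0, nat_lit 51, nat_lit 0, nat_lit 0, [nat_lit 2189094000, nat_lit 3126896000, nat_lit 6564614000], [], [nat_lit 8302983891, nat_lit 8944858593, nat_lit 11366973100, nat_lit 11845820455, nat_lit 13680013817, nat_lit 14142062809, nat_lit 15347947444, nat_lit 15698757183], nat_lit 0, nat_lit 0, nat_lit 0, nat_lit 0, nat_lit 0, nat_lit 0,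 [], [nat_lit 42, nat_lit 40, nat_lit 40, nat_lit 80, nat_lit 13, nat_lit 373, nat_lit 150, nat_lit 10]⟩,
 ⟨nat_lit 5244, nat_lit 5362, ⟨.ofNat (nat_lit 341114), .ofNat (nat_lit 659523), .ofNat (nat_lit 351798), .ofNat (nat_lit 670208), .ofNat (nat_lit 344076), .ofNat (nat_lit 658709), .ofNat (nat_lit 354768), .ofNat (nat_lit 669401)⟩, ⟨.ofNat (nat_lit 128264), .ofNat (nat_lit 276363), .ofNat (nat_lit 149634), .ofNat (nat_lit 297732), .ofNat (nat_lit 130787), .ofNat (nat_lit 277129), .ofNat (nat_lit 152172), .ofNat (nat_lit 298515)⟩⟩, [⟨nat_lit 0, nat_lit 100, nat_lit 99, nat_lit 86, nat_lit 71264499⟩, ⟨nat_lit 7, nat_lit 100, nat_lit 99, nat_lit 83, nat_lit 404130321⟩]⟩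
noncomputable def p067_l41 : Lf2 := ⟨nat_lit 0, nat_lit 10, [nat_lit 0, nat_lit 5, nat_lit 5, nat_lit 20], false, nat_lit 0, nat_lit 160, nat_lit 0, nat_lit 160, ⟨nat_lit 1000, nat_lit 0, nat_lit 0, nat_lit 0, nat_lit 0, nat_lit 0, nat_lit 0, nat_lit 0, nat_lit 0, nat_lit 0, nat_lit 0, nat_lit 0, nat_lit 0, nat_lit 0, nat_lit 0, nat_lit 0, false, false⟩,
 nat_lit 0, nat_lit 10034, nat_lit 0, nat_lit 0, nat_lit 6663, nat_lit 7628, nat_lit 2099, nat_lit 0, nat_lit 0, nat_lit 1529, nat_lit 0, nat_lit 0, nat_lit 0, nat_lit 38448011042742, nat_lit 0, nat_lit 0, nat_lit 0, nat_lit 0, [],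
 ⟨p067_k7, nat_lit 0, nat_lit 0, nat_lit 633, nat_lit 0, nat_lit 997710, [nat_lit 3282000000, nat_lit 6250000000, nat_lit 7968000000], [], [nat_lit 31314449695, nat_lit 30444311868, nat_lit 28564798619, nat_lit 28698917344, nat_lit 25615160054, nat_lit 25763395262, nat_lit 32271126243, nat_lit 31535954144], nat_lit 1271250, nat_lit 1271250, nat_lit 435600, nat_lit 1735500, nat_lit 0, nat_lit 1100001, [nat_lit 780000, nat_lit 1435000, nat_lit 1271250], [nat_lit 18, nat_lit 40, nat_lit 40, nat_lit 80, nat_lit 2, nat_lit 317, nat_lit 100, nat_lit 11]⟩, ⟨p067_k0, nat_lit 0, nat_lit 0, nat_lit 189, nat_lit 0, nat_lit 0, [nat_lit 3282000000, nat_lit 6250000000, nat_lit 9842000000], [], [nat_lit 19796916913, nat_lit 21371130180, nat_lit 23469003376, nat_lit 24900955702, nat_lit 15057434909, nat_lit 16684162257, nat_lit 18695903040, nat_lit 19888444938], nat_lit 0, nat_lit 0, nat_lit 0, nat_lit 0, nat_lit 0, nat_lit 0, [],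 [nat_lit 8, nat_lit 40, nat_lit 40, nat_lit 80, nat_lit 1, nat_lit 317, nat_lit 100, nat_lit 9]⟩,
 zbF0, [⟨nat_lit 0, nat_lit 100, nat_lit 100, nat_lit 95, nat_lit 261472269⟩]⟩
noncomputable def p067_l42 : Lf2 := ⟨nat_lit 0, nat_lit 10, [nat_lit 0, nat_lit 5, nat_lit 5, nat_lit 20], false, nat_lit 0, nat_lit 160, nat_lit 0, nat_lit 160, ⟨nat_lit 1000, nat_lit 0, nat_lit 0, nat_lit 0, nat_lit 0, nat_lit 0, nat_lit 0, nat_lit 0, nat_lit 0, nat_lit 0, nat_lit 0, nat_lit 0, nat_lit 0, nat_lit 0, nat_lit 0, nat_lit 0, false, false⟩,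
 nat_lit 0, nat_lit 9561, nat_lit 0, nat_lit 0, nat_lit 6483, nat_lit 7571, nat_lit 1943, nat_lit 0, nat_lit 0, nat_lit 1502, nat_lit 0, nat_lit 0, nat_lit 0, nat_lit 38589137975829, nat_lit 0, nat_lit 0, nat_lit 0, nat_lit 0, [],
 ⟨p067_k12, nat_lit 0, nat_lit 0, nat_lit 657, nat_lit 0, nat_lit 1062413, [nat_lit 3282000000, nat_lit 6250000000, nat_lit 7968000000], [], [nat_lit 28147582072, nat_lit 27302241011, nat_lit 25464768999, nat_lit 25620378407, nat_lit 22448488937, nat_lit 22618203932, nat_lit 31150735859, nat_lit 30435424329], nat_lit 1271250, nat_lit 1271250, nat_lit 462650, nat_lit 1737750, nat_lit 0, nat_lit 1100001, [nat_lit 780000, nat_lit 1435000, nat_lit 1271250], [nat_lit 18, nat_lit 40, nat_lit 40, nat_lit 80, nat_lit 2, nat_lit 317, nat_lit 100, nat_lit 11]⟩, ⟨p067_k0, nat_lit 0, nat_lit 0, nat_lit 190, nat_lit 0, nat_lit 0, [nat_lit 3282000000, nat_lit 6250000000, nat_lit 9842000000], [], [nat_lit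 19749343776, nat_lit 21827325243, nat_lit 23477308732, nat_lit 25377458158, nat_lit 14990472697, nat_lit 17139442294, nat_lit 18763067280, nat_lit 20345910478], nat_lit 0, nat_lit 0, nat_lit 0, nat_lit 0, nat_lit 0, nat_lit 0, [], [nat_lit 8, nat_lit 40, nat_lit 40, nat_lit 80, nat_lit 1, nat_lit 317, nat_lit 100, nat_lit 9]⟩,
 zbF0, [⟨nat_lit 0, nat_lit 100, nat_lit 100, nat_lit 100, nat_lit 183124293⟩]⟩
noncomputable def p067_l43 : Lf2 := ⟨nat_lit 0, nat_lit 10, [nat_lit 0, nat_lit 5, nat_lit 5, nat_lit 20], false, nat_lit 0, nat_lit 160, nat_lit 160, nat_lit 300, ⟨nat_lit 1000, nat_lit 0, nat_lit 0, nat_lit 0, nat_lit 0, nat_lit 0, nat_lit 0, nat_lit 0, nat_lit 0, nat_lit 0, nat_lit 0, nat_lit 0, nat_lit 0, nat_lit 0, nat_lit 0, nat_lit 0, false, false⟩,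
 nat_lit 0, nat_lit 10085, nat_lit 0, nat_lit 0, nat_lit 6697, nat_lit 5068, nat_lit 3679, nat_lit 0, nat_lit 0, nat_lit 0, nat_lit 0, nat_lit 0, nat_lit 0, nat_lit 4976644573480, nat_lit 0, nat_lit 0, nat_lit 0, nat_lit 0, [],
 ⟨p067_k7, nat_lit 0, nat_lit 0, nat_lit 672, nat_lit 0, nat_lit 1094085, [nat_lit 3282000000, nat_lit 6250000000, nat_lit 7968000000], [], [nat_lit 25161810236, nat_lit 23438665439, nat_lit 20997315740, nat_lit 21367184822, nat_lit 19070636112, nat_lit 19415738604, nat_lit 23169473850, nat_lit 21653246262], nat_lit 1271250, nat_lit 1271250, nat_lit 435600, nat_lit 1100001, nat_lit 0, nat_lit 1100001, [nat_lit 780000, nat_lit 1435000, nat_lit 1271250], [nat_lit 18, nat_lit 40, nat_lit 40, nat_lit 80, nat_lit 2, nat_lit 317, nat_lit 100, nat_lit 11]⟩, ⟨p067_k0, nat_lit 0, nat_lit 0, nat_lit 66, nat_lit 0, nat_lit 0, [nat_lit 3282000000, nat_lit 6250000000, nat_lit 9842000000], [], [nat_lit 12281514343,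 nat_lit 14220592117, nat_lit 13453434384, nat_lit 15163551304, nat_lit 20386744010, nat_lit 21925664635, nat_lit 20644214668, nat_lit 21884617690], nat_lit 0, nat_lit 0, nat_lit 0, nat_lit 0, nat_lit 0, nat_lit 0, [], [nat_lit 8, nat_lit 40, nat_lit 40, nat_lit 80, nat_lit 1, nat_lit 345, nat_lit 125, nat_lit 10]⟩,
 zbF0, [⟨nat_lit 0, nat_lit 100, nat_lit 99, nat_lit 92, nat_lit 364251087⟩, ⟨nat_lit 7, nat_lit 100, nat_lit 94, nat_lit 75, nat_lit 701887611⟩]⟩
noncomputable def p067_l44 : Lf2 := ⟨nat_lit 0, nat_lit 10, [nat_lit 0, nat_lit 5, nat_lit 5, nat_lit 20], false, nat_lit 0, nat_lit 160, nat_lit 160, nat_lit 300, ⟨nat_lit 1000, nat_lit 0, nat_lit 0, nat_lit 0, nat_lit 0, nat_lit 0, nat_lit 0, nat_lit 0, nat_lit 0, nat_lit 0, nat_lit 0, nat_lit 0, nat_lit 0, nat_lit 0, nat_lit 0, nat_lit 0, false, false⟩,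
 nat_lit 0, nat_lit 9628, nat_lit 0, nat_lit 0, nat_lit 6394, nat_lit 5822, nat_lit 3505, nat_lit 0, nat_lit 0, nat_lit 0, nat_lit 0, nat_lit 0, nat_lit 0, nat_lit 15090287767097, nat_lit 0, nat_lit 0, nat_lit 0, nat_lit 0, [],
 ⟨p067_k7, nat_lit 0, nat_lit 0, nat_lit 635, nat_lit 0, nat_lit 1094085, [nat_lit 3282000000, nat_lit 6250000000, nat_lit 7968000000], [], [nat_lit 27541172400, nat_lit 25876245134, nat_lit 24115635620, nat_lit 24425510626, nat_lit 20891950730, nat_lit 21189713430, nat_lit 25308190624, nat_lit 23860563448], nat_lit 1271250, nat_lit 1271250, nat_lit 1100001, nat_lit 1785000, nat_lit 0, nat_lit 1100001, [nat_lit 780000, nat_lit 1435000, nat_lit 1271250], [nat_lit 18, nat_lit 40, nat_lit 40, nat_lit 80, nat_lit 2, nat_lit 317, nat_lit 100, nat_lit 10]⟩, ⟨p067_k0, nat_lit 0, nat_lit 0, nat_lit 34, nat_lit 0, nat_lit 0, [nat_lit 3282000000, nat_lit 6250000000, nat_lit 9842000000], [], [nat_lit 12421500936,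 nat_lit 14278414116, nat_lit 16150022392, nat_lit 17901767576, nat_lit 20575095652, nat_lit 22053492812, nat_lit 23071022976, nat_lit 24323705363], nat_lit 0, nat_lit 0, nat_lit 0, nat_lit 0, nat_lit 0, nat_lit 0, [], [nat_lit 8, nat_lit 40, nat_lit 40, nat_lit 80, nat_lit 1, nat_lit 373, nat_lit 150, nat_lit 10]⟩,
 zbF0, [⟨nat_lit 7, nat_lit 100, nat_lit 94, nat_lit 75, nat_lit 705445025⟩]⟩
noncomputable def b_V_700_700_10_18 : St := ⟨true, nat_lit 1, nat_lit 0, nat_lit 2, nat_lit 80, nat_lit 280, nat_lit 300, nat_lit 280, nat_lit 300, nat_lit 64, nat_lit 240, nat_lit 40, nat_lit 80, nat_lit 0, nat_lit 160, nat_lit 0, nat_lit 300, nat_lit 0, nat_lit 40, nat_lit 0, nat_lit 0, nat_lit 0, nat_lit 0⟩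
theorem d_V_700_700_10_18 (h : EB TB.env) : Dead b_V_700_700_10_18 := chkB_sound0 h (T :=
(.spl (nat_lit 0) (nat_lit 290)
(.ord (.spl (nat_lit 5) (nat_lit 160)
(.spl (nat_lit 0) (nat_lit 285)
(.ord (.leaf p067_l31))
(.trZ (nat_lit 0) (nat_lit 100) (nat_lit 99) (nat_lit 82) (nat_lit 68) (.leaf p067_l32)))
(.spl (nat_lit 3) (nat_lit 60)
(.trX (nat_lit 19) (nat_lit 99) (nat_lit 100) (nat_lit 77) (nat_lit 276) (.spl (nat_lit 4) (nat_lit 80)
(.spl (nat_lit 2) (nat_lit 120)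
(.spl (nat_lit 2) (nat_lit 80)
(.leaf p067_l33)
(.leaf p067_l34))
(.leaf p067_l35))
(.spl (nat_lit 2) (nat_lit 160)
(.leaf p067_l36)
(.leaf p067_l37))))
(.spl (nat_lit 4) (nat_lit 80)
(.leaf p067_l38)
(.spl (nat_lit 0) (nat_lit 285)
(.ord (.leaf p067_l39))
(.trZ (nat_lit 0) (nat_lit 100) (nat_lit 99) (nat_lit 82) (nat_lit 68) (.leaf p067_l40)))))))
(.trZ (nat_lit 0) (nat_lit 100) (nat_lit 97) (nat_lit 84) (nat_lit 72) (.spl (nat_lit 5) (nat_lit 160)
(.spl (nat_lit 0) (nat_lit 295)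
(.ord (.leaf p067_l41))
(.trZ (nat_lit 0) (nat_lit 100) (nat_lit 96) (nat_lit 86) (nat_lit 76) (.leaf p067_l42)))
(.spl (nat_lit 2) (nat_lit 160)
(.leaf p067_l43)
(.leaf p067_l44)))))) (by decide +kernel)
noncomputable def p067_l45 : Lf2 := ⟨nat_lit 0, nat_lit 5, [nat_lit 4, nat_lit 5, nat_lit 5, nat_lit 20], true, nat_lit 160, nat_lit 200, nat_lit 0, nat_lit 276, ⟨nat_lit 0, nat_lit 1000, nat_lit 0, nat_lit 7, nat_lit 155, nat_lit 1000, nat_lit 121, nat_lit 0, nat_lit 0, nat_lit 0, nat_lit 0, nat_lit 0, nat_lit 0, nat_lit 0, nat_lit 0, nat_lit 5000000, false, false⟩,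
 nat_lit 0, nat_lit 8418, nat_lit 0, nat_lit 0, nat_lit 5356, nat_lit 0, nat_lit 2263, nat_lit 0, nat_lit 0, nat_lit 0, nat_lit 0, nat_lit 0, nat_lit 0, nat_lit 50416664573241, nat_lit 0, nat_lit 400000, nat_lit 0, nat_lit 0, [(nat_lit 12, [(nat_lit 1, nat_lit 1000)])],
 ⟨p067_k1, nat_lit 0, nat_lit 0, nat_lit 421, nat_lit 0, nat_lit 804991, [nat_lit 2033400000, nat_lit 2574800000, nat_lit 2711866667], [], [nat_lit 18771357271, nat_lit 18090393288, nat_lit 16096269328, nat_lit 16365492060, nat_lit 17247669792, nat_lit 17515987616, nat_lit 17585575928, nat_lit 17442976212], nat_lit 1271250, nat_lit 1271250, nat_lit 382400, nat_lit 780000, nat_lit 1100001, nat_lit 1442500, [nat_lit 780000, nat_lit 1100000, nat_lit 1785000], [nat_lit 36, nat_lit 40, nat_lit 40, nat_lit 80, nat_lit 7, nat_lit 317, nat_lit 100, nat_lit 10]⟩, C1.Rw.none,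
 ⟨nat_lit 5361, nat_lit 5478, ⟨.ofNat (nat_lit 330654), .ofNat (nat_lit 435560), .ofNat (nat_lit 335994), .ofNat (nat_lit 440899), .ofNat (nat_lit 333709), .ofNat (nat_lit 437377), .ofNat (nat_lit 339051), .ofNat (nat_lit 442720)⟩, ⟨.ofNat (nat_lit 254209), .ofNat (nat_lit 329142), .ofNat (nat_lit 275566), .ofNat (nat_lit 350499), .ofNat (nat_lit 254993), .ofNat (nat_lit 329043), .ofNat (nat_lit 276363), .ofNat (nat_lit 350412)⟩⟩, []⟩
noncomputable def p067_l46 : Lf2 := ⟨nat_lit 0, nat_lit 2, [nat_lit 10, nat_lit 5, nat_lit 5, nat_lit 20], true, nat_lit 200, nat_lit 240, nat_lit 0, nat_lit 276, ⟨nat_lit 0, nat_lit 1000, nat_lit 0, nat_lit 7, nat_lit 154, nat_lit 1000, nat_lit 151, nat_lit 0, nat_lit 0, nat_lit 0, nat_lit 0, nat_lit 0, nat_lit 0, nat_lit 0, nat_lit 0, nat_lit 5000000, false, false⟩,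
 nat_lit 0, nat_lit 8921, nat_lit 0, nat_lit 0, nat_lit 5677, nat_lit 0, nat_lit 137, nat_lit 0, nat_lit 0, nat_lit 0, nat_lit 0, nat_lit 0, nat_lit 0, nat_lit 0, nat_lit 0, nat_lit 1000000, nat_lit 0, nat_lit 0, [(nat_lit 12, [(nat_lit 2, nat_lit 1000)])],
 ⟨p067_k2, nat_lit 0, nat_lit 0, nat_lit 335, nat_lit 0, nat_lit 752588, [nat_lit 1992960000, nat_lit 2327840000, nat_lit 1636000000], [], [nat_lit 15395156394, nat_lit 15549238819, nat_lit 15261411748, nat_lit 15415770400, nat_lit 16581391776, nat_lit 16734516642, nat_lit 16367779420, nat_lit 16510235331], nat_lit 1271250, nat_lit 1271250, nat_lit 382400, nat_lit 780000, nat_lit 1271250, nat_lit 1271250, [nat_lit 780000, nat_lit 1100000, nat_lit 1442500], [nat_lit 59, nat_lit 40, nat_lit 40, nat_lit 80, nat_lit 3, nat_lit 238, nat_lit 30, nat_lit 8]⟩, C1.Rw.none,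
 ⟨nat_lit 5408, nat_lit 5478, ⟨.ofNat (nat_lit 330654), .ofNat (nat_lit 435560), .ofNat (nat_lit 333858), .ofNat (nat_lit 438764), .ofNat (nat_lit 332488), .ofNat (nat_lit 436651), .ofNat (nat_lit 335692), .ofNat (nat_lit 439855)⟩, ⟨.ofNat (nat_lit 329142), .ofNat (nat_lit 404075), .ofNat (nat_lit 350499), .ofNat (nat_lit 425432), .ofNat (nat_lit 329086), .ofNat (nat_lit 403488), .ofNat (nat_lit 350450), .ofNat (nat_lit 424852)⟩⟩, [⟨nat_lit 0, nat_lit 100, nat_lit 100, nat_lit 83, nat_lit 13840145⟩]⟩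
noncomputable def p067_l47 : Lf2 := ⟨nat_lit 0, nat_lit 2, [nat_lit 10, nat_lit 5, nat_lit 5, nat_lit 20], true, nat_lit 200, nat_lit 240, nat_lit 0, nat_lit 276, ⟨nat_lit 0, nat_lit 1000, nat_lit 0, nat_lit 7, nat_lit 155, nat_lit 1000, nat_lit 151, nat_lit 0, nat_lit 0, nat_lit 0, nat_lit 0, nat_lit 0, nat_lit 0, nat_lit 0, nat_lit 0, nat_lit 5000000, false, false⟩,
 nat_lit 0, nat_lit 8412, nat_lit 0, nat_lit 0, nat_lit 5422, nat_lit 0, nat_lit 2963, nat_lit 0, nat_lit 0, nat_lit 0, nat_lit 0, nat_lit 0, nat_lit 0, nat_lit 49173167791375, nat_lit 0, nat_lit 1000000, nat_lit 0, nat_lit 0, [(nat_lit 12, [(nat_lit 2, nat_lit 1000)])],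
 ⟨p067_k13, nat_lit 0, nat_lit 0, nat_lit 344, nat_lit 0, nat_lit 774719, [nat_lit 1992960000, nat_lit 2327840000, nat_lit 1636000000], [], [nat_lit 15238966331, nat_lit 15346935183, nat_lit 15159286583, nat_lit 15259969719, nat_lit 16413751044, nat_lit 16513439647, nat_lit 16246284579, nat_lit 16339313718], nat_lit 1271250, nat_lit 1271250, nat_lit 382400, nat_lit 780000, nat_lit 1271250, nat_lit 1271250, [nat_lit 780000, nat_lit 1100000, nat_lit 1442500], [nat_lit 59, nat_lit 40, nat_lit 40, nat_lit 80, nat_lit 3, nat_lit 238, nat_lit 30, nat_lit 8]⟩, C1.Rw.none,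
 ⟨nat_lit 5361, nat_lit 5409, ⟨.ofNat (nat_lit 332488), .ofNat (nat_lit 436651), .ofNat (nat_lit 337829), .ofNat (nat_lit 441992), .ofNat (nat_lit 333709), .ofNat (nat_lit 437378), .ofNat (nat_lit 339051), .ofNat (nat_lit 442720)⟩, ⟨.ofNat (nat_lit 329086), .ofNat (nat_lit 403488), .ofNat (nat_lit 350450), .ofNat (nat_lit 424852), .ofNat (nat_lit 329043), .ofNat (nat_lit 403092), .ofNat (nat_lit 350412), .ofNat (nat_lit 424461)⟩⟩, [⟨nat_lit 0, nat_lit 100, nat_lit 100, nat_lit 85, nat_lit 9124613⟩]⟩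
noncomputable def p067_l48 : Lf2 := ⟨nat_lit 0, nat_lit 5, [nat_lit 4, nat_lit 5, nat_lit 5, nat_lit 20], true, nat_lit 200, nat_lit 240, nat_lit 0, nat_lit 276, ⟨nat_lit 0, nat_lit 1000, nat_lit 0, nat_lit 7, nat_lit 155, nat_lit 1000, nat_lit 151, nat_lit 0, nat_lit 0, nat_lit 0, nat_lit 0, nat_lit 0, nat_lit 0, nat_lit 0, nat_lit 0, nat_lit 5000000, false, false⟩,
 nat_lit 0, nat_lit 9234, nat_lit 0, nat_lit 0, nat_lit 5876, nat_lit 0, nat_lit 752, nat_lit 0, nat_lit 0, nat_lit 0, nat_lit 0, nat_lit 0, nat_lit 0, nat_lit 53393987917611, nat_lit 0, nat_lit 347950, nat_lit 0, nat_lit 0, [(nat_lit 12, [(nat_lit 0, nat_lit 347), (nat_lit 1, nat_lit 653)])],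
 ⟨p067_k1, nat_lit 0, nat_lit 0, nat_lit 363, nat_lit 0, nat_lit 653910, [nat_lit 2148118200, nat_lit 2557866400, nat_lit 2893694667], [], [nat_lit 15669542157, nat_lit 15940898124, nat_lit 17311113387, nat_lit 16637055392, nat_lit 16773871557, nat_lit 17023747372, nat_lit 16506260360, nat_lit 16747474644], nat_lit 1271250, nat_lit 1271250, nat_lit 382400, nat_lit 780000, nat_lit 1271250, nat_lit 1271250, [nat_lit 780000, nat_lit 1100000, nat_lit 1785000], [nat_lit 36, nat_lit 40, nat_lit 40, nat_lit 80, nat_lit 7, nat_lit 317, nat_lit 100, nat_lit 10]⟩, C1.Rw.none,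
 ⟨nat_lit 5361, nat_lit 5478, ⟨.ofNat (nat_lit 330654), .ofNat (nat_lit 435560), .ofNat (nat_lit 335994), .ofNat (nat_lit 440899), .ofNat (nat_lit 333709), .ofNat (nat_lit 437377), .ofNat (nat_lit 339051), .ofNat (nat_lit 442720)⟩, ⟨.ofNat (nat_lit 329142), .ofNat (nat_lit 404075), .ofNat (nat_lit 350499), .ofNat (nat_lit 425432), .ofNat (nat_lit 329043), .ofNat (nat_lit 403092), .ofNat (nat_lit 350412), .ofNat (nat_lit 424461)⟩⟩, [⟨nat_lit 0, nat_lit 100, nat_lit 100, nat_lit 85, nat_lit 18120099⟩]⟩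
noncomputable def p067_l49 : Lf2 := ⟨nat_lit 0, nat_lit 10, [nat_lit 0, nat_lit 5, nat_lit 5, nat_lit 20], true, nat_lit 160, nat_lit 240, nat_lit 0, nat_lit 276, ⟨nat_lit 0, nat_lit 1000, nat_lit 0, nat_lit 7, nat_lit 155, nat_lit 1000, nat_lit 136, nat_lit 0, nat_lit 0, nat_lit 0, nat_lit 0, nat_lit 0, nat_lit 0, nat_lit 0, nat_lit 0, nat_lit 5000000, false, false⟩,
 nat_lit 0, nat_lit 9021, nat_lit 0, nat_lit 0, nat_lit 5740, nat_lit 0, nat_lit 0, nat_lit 0, nat_lit 0, nat_lit 0, nat_lit 0, nat_lit 0, nat_lit 0, nat_lit 3001083886205, nat_lit 0, nat_lit 769600, nat_lit 0, nat_lit 0, [(nat_lit 12, [(nat_lit 1, nat_lit 384), (nat_lit 2, nat_lit 616)])],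
 ⟨p067_k0, nat_lit 0, nat_lit 0, nat_lit 329, nat_lit 0, nat_lit 480716, [nat_lit 2232748800, nat_lit 2243923200, nat_lit 831273600], [], [nat_lit 17641138416, nat_lit 17689045216, nat_lit 16922518400, nat_lit 17195259020, nat_lit 19483755088, nat_lit 19732630739, nat_lit 20330465360, nat_lit 19663330990], nat_lit 1271250, nat_lit 1271250, nat_lit 382400, nat_lit 780000, nat_lit 1100001, nat_lit 1785000, [nat_lit 780000, nat_lit 1435000, nat_lit 1271250], [nat_lit 8, nat_lit 40, nat_lit 40, nat_lit 80, nat_lit 1, nat_lit 317, nat_lit 100, nat_lit 9]⟩, C1.Rw.none,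
 ⟨nat_lit 5361, nat_lit 5478, ⟨.ofNat (nat_lit 330654), .ofNat (nat_lit 435560), .ofNat (nat_lit 335994), .ofNat (nat_lit 440899), .ofNat (nat_lit 333709), .ofNat (nat_lit 437377), .ofNat (nat_lit 339051), .ofNat (nat_lit 442720)⟩, ⟨.ofNat (nat_lit 254209), .ofNat (nat_lit 404075), .ofNat (nat_lit 275566), .ofNat (nat_lit 425432), .ofNat (nat_lit 254993), .ofNat (nat_lit 403092), .ofNat (nat_lit 276363), .ofNat (nat_lit 424461)⟩⟩, []⟩
noncomputable def p067_l50 : Lf2 := ⟨nat_lit 0, nat_lit 2, [nat_lit 10, nat_lit 5, nat_lit 5, nat_lit 20], true, nat_lit 240, nat_lit 276, nat_lit 0, nat_lit 276, ⟨nat_lit 0, nat_lit 1000, nat_lit 0, nat_lit 7, nat_lit 154, nat_lit 1000, nat_lit 179, nat_lit 0, nat_lit 0, nat_lit 0, nat_lit 0, nat_lit 0, nat_lit 0, nat_lit 0, nat_lit 0, nat_lit 5000000, false, false⟩,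
 nat_lit 0, nat_lit 8486, nat_lit 0, nat_lit 0, nat_lit 5400, nat_lit 0, nat_lit 75, nat_lit 0, nat_lit 0, nat_lit 0, nat_lit 0, nat_lit 0, nat_lit 0, nat_lit 0, nat_lit 0, nat_lit 1000000, nat_lit 0, nat_lit 0, [(nat_lit 12, [(nat_lit 2, nat_lit 1000)])],
 ⟨p067_k2, nat_lit 0, nat_lit 0, nat_lit 342, nat_lit 0, nat_lit 752588, [nat_lit 1992960000, nat_lit 2327840000, nat_lit 1636000000], [], [nat_lit 17514544391, nat_lit 17653578970, nat_lit 17351556000, nat_lit 17490848461, nat_lit 19038776569, nat_lit 19176096421, nat_lit 18783000240, nat_lit 18911258368], nat_lit 1271250, nat_lit 1271250, nat_lit 382400, nat_lit 780000, nat_lit 1271250, nat_lit 1271250, [nat_lit 780000, nat_lit 1100000, nat_lit 1442500], [nat_lit 59, nat_lit 40, nat_lit 40, nat_lit 80, nat_lit 3, nat_lit 238, nat_lit 30, nat_lit 8]⟩, C1.Rw.none,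
 ⟨nat_lit 5408, nat_lit 5478, ⟨.ofNat (nat_lit 330654), .ofNat (nat_lit 435560), .ofNat (nat_lit 333858), .ofNat (nat_lit 438764), .ofNat (nat_lit 332488), .ofNat (nat_lit 436651), .ofNat (nat_lit 335692), .ofNat (nat_lit 439855)⟩, ⟨.ofNat (nat_lit 404075), .ofNat (nat_lit 471515), .ofNat (nat_lit 425432), .ofNat (nat_lit 492872), .ofNat (nat_lit 403488), .ofNat (nat_lit 470450), .ofNat (nat_lit 424852), .ofNat (nat_lit 491814)⟩⟩, [⟨nat_lit 0, nat_lit 100, nat_lit 100, nat_lit 83, nat_lit 8365177⟩, ⟨nat_lit 4, nat_lit 100, nat_lit 96, nat_lit 69, nat_lit 452677632⟩]⟩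
noncomputable def p067_l51 : Lf2 := ⟨nat_lit 0, nat_lit 5, [nat_lit 4, nat_lit 5, nat_lit 5, nat_lit 20], true, nat_lit 240, nat_lit 276, nat_lit 0, nat_lit 276, ⟨nat_lit 0, nat_lit 1000, nat_lit 0, nat_lit 7, nat_lit 154, nat_lit 1000, nat_lit 179, nat_lit 0, nat_lit 0, nat_lit 0, nat_lit 0, nat_lit 0, nat_lit 0, nat_lit 0, nat_lit 0, nat_lit 5000000, false, false⟩,
 nat_lit 0, nat_lit 9269, nat_lit 0, nat_lit 0, nat_lit 5898, nat_lit 0, nat_lit 759, nat_lit 0, nat_lit 0, nat_lit 0, nat_lit 0, nat_lit 0, nat_lit 0, nat_lit 0, nat_lit 0, nat_lit 346750, nat_lit 0, nat_lit 0, [(nat_lit 12, [(nat_lit 0, nat_lit 355), (nat_lit 1, nat_lit 645)])],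
 ⟨p067_k1, nat_lit 0, nat_lit 0, nat_lit 318, nat_lit 0, nat_lit 617475, [nat_lit 2150763000, nat_lit 2557476000, nat_lit 2897886667], [], [nat_lit 16697460928, nat_lit 16847647648, nat_lit 16429600080, nat_lit 16574579900, nat_lit 19162170005, nat_lit 19434701486, nat_lit 18315011336, nat_lit 18570695527], nat_lit 1271250, nat_lit 1271250, nat_lit 382400, nat_lit 780000, nat_lit 1271250, nat_lit 1271250, [nat_lit 780000, nat_lit 1100000, nat_lit 1785000], [nat_lit 36, nat_lit 40, nat_lit 40, nat_lit 80, nat_lit 7, nat_lit 238, nat_lit 30, nat_lit 7]⟩, C1.Rw.none,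
 ⟨nat_lit 5408, nat_lit 5478, ⟨.ofNat (nat_lit 330654), .ofNat (nat_lit 435560), .ofNat (nat_lit 333858), .ofNat (nat_lit 438764), .ofNat (nat_lit 332488), .ofNat (nat_lit 436651), .ofNat (nat_lit 335692), .ofNat (nat_lit 439855)⟩, ⟨.ofNat (nat_lit 404075), .ofNat (nat_lit 471515), .ofNat (nat_lit 425432), .ofNat (nat_lit 492872), .ofNat (nat_lit 403488), .ofNat (nat_lit 470450), .ofNat (nat_lit 424852), .ofNat (nat_lit 491814)⟩⟩, [⟨nat_lit 0, nat_lit 100, nat_lit 100, nat_lit 83, nat_lit 18217904⟩, ⟨nat_lit 16, nat_lit 96, nat_lit 100, nat_lit 69, nat_lit 676369608⟩]⟩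
noncomputable def p067_l52 : Lf2 := ⟨nat_lit 0, nat_lit 5, [nat_lit 4, nat_lit 5, nat_lit 5, nat_lit 20], true, nat_lit 240, nat_lit 272, nat_lit 0, nat_lit 276, ⟨nat_lit 0, nat_lit 1000, nat_lit 0, nat_lit 7, nat_lit 155, nat_lit 1000, nat_lit 177, nat_lit 0, nat_lit 0, nat_lit 0, nat_lit 0, nat_lit 0, nat_lit 0, nat_lit 0, nat_lit 0, nat_lit 5000000, false, false⟩,
 nat_lit 0, nat_lit 8798, nat_lit 0, nat_lit 0, nat_lit 5671, nat_lit 0, nat_lit 3277, nat_lit 0, nat_lit 0, nat_lit 0, nat_lit 0, nat_lit 0, nat_lit 0, nat_lit 51370119716036, nat_lit 0, nat_lit 400000, nat_lit 0, nat_lit 0, [(nat_lit 12, [(nat_lit 1, nat_lit 1000)])],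
 ⟨p067_k14, nat_lit 0, nat_lit 0, nat_lit 411, nat_lit 0, nat_lit 790585, [nat_lit 2033400000, nat_lit 2574800000, nat_lit 2711866667], [], [nat_lit 16484347665, nat_lit 16574275952, nat_lit 16258982085, nat_lit 16342808380, nat_lit 18989413850, nat_lit 19169029619, nat_lit 18223987324, nat_lit 18392531118], nat_lit 1271250, nat_lit 1271250, nat_lit 382400, nat_lit 780000, nat_lit 1271250, nat_lit 1271250, [nat_lit 780000, nat_lit 1100000, nat_lit 1785000], [nat_lit 36, nat_lit 40, nat_lit 40, nat_lit 80, nat_lit 7, nat_lit 238, nat_lit 30, nat_lit 7]⟩, C1.Rw.none,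
 ⟨nat_lit 5361, nat_lit 5409, ⟨.ofNat (nat_lit 332488), .ofNat (nat_lit 436651), .ofNat (nat_lit 337829), .ofNat (nat_lit 441992), .ofNat (nat_lit 333709), .ofNat (nat_lit 437378), .ofNat (nat_lit 339051), .ofNat (nat_lit 442720)⟩, ⟨.ofNat (nat_lit 403488), .ofNat (nat_lit 463010), .ofNat (nat_lit 424852), .ofNat (nat_lit 484374), .ofNat (nat_lit 403092), .ofNat (nat_lit 462331), .ofNat (nat_lit 424461), .ofNat (nat_lit 483701)⟩⟩, [⟨nat_lit 0, nat_lit 100, nat_lit 100, nat_lit 85, nat_lit 14232955⟩, ⟨nat_lit 4, nat_lit 100, nat_lit 95, nat_lit 69, nat_lit 754510489⟩]⟩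
noncomputable def p067_l53 : Lf2 := ⟨nat_lit 0, nat_lit 10, [nat_lit 0, nat_lit 5, nat_lit 5, nat_lit 20], true, nat_lit 240, nat_lit 276, nat_lit 0, nat_lit 276, ⟨nat_lit 0, nat_lit 1000, nat_lit 0, nat_lit 7, nat_lit 155, nat_lit 1000, nat_lit 179, nat_lit 0, nat_lit 0, nat_lit 0, nat_lit 0, nat_lit 0, nat_lit 0, nat_lit 0, nat_lit 0, nat_lit 5000000, false, false⟩,
 nat_lit 0, nat_lit 8656, nat_lit 0, nat_lit 0, nat_lit 5508, nat_lit 0, nat_lit 131, nat_lit 0, nat_lit 0, nat_lit 0, nat_lit 0, nat_lit 0, nat_lit 0, nat_lit 0, nat_lit 12, nat_lit 1000000, nat_lit 0, nat_lit 0, [(nat_lit 12, [(nat_lit 2, nat_lit 1000)])],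
 ⟨p067_k0, nat_lit 0, nat_lit 0, nat_lit 327, nat_lit 0, nat_lit 480716, [nat_lit 2479200001, nat_lit 2186400000, nat_lit 42000000], [], [nat_lit 17625193413, nat_lit 17887019268, nat_lit 17335281953, nat_lit 17578891257, nat_lit 19461759323, nat_lit 19745582453, nat_lit 18918948128, nat_lit 19169903703], nat_lit 1271250, nat_lit 1271250, nat_lit 382400, nat_lit 780000, nat_lit 1271250, nat_lit 1271250, [nat_lit 780000, nat_lit 1435000, nat_lit 1271250], [nat_lit 8, nat_lit 40, nat_lit 40, nat_lit 80, nat_lit 1, nat_lit 317, nat_lit 100, nat_lit 8]⟩, C1.Rw.none,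
 ⟨nat_lit 5361, nat_lit 5478, ⟨.ofNat (nat_lit 330654), .ofNat (nat_lit 435560), .ofNat (nat_lit 335994), .ofNat (nat_lit 440899), .ofNat (nat_lit 333709), .ofNat (nat_lit 437377), .ofNat (nat_lit 339051), .ofNat (nat_lit 442720)⟩, ⟨.ofNat (nat_lit 404075), .ofNat (nat_lit 471515), .ofNat (nat_lit 425432), .ofNat (nat_lit 492872), .ofNat (nat_lit 403092), .ofNat (nat_lit 469736), .ofNat (nat_lit 424461), .ofNat (nat_lit 491106)⟩⟩, [⟨nat_lit 0, nat_lit 100, nat_lit 100, nat_lit 85, nat_lit 20985148⟩, ⟨nat_lit 4, nat_lit 100, nat_lit 95, nat_lit 69, nat_lit 529657938⟩]⟩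
noncomputable def p067_l54 : Lf2 := ⟨nat_lit 0, nat_lit 10, [nat_lit 0, nat_lit 5, nat_lit 5, nat_lit 20], false, nat_lit 160, nat_lit 276, nat_lit 0, nat_lit 276, ⟨nat_lit 1000, nat_lit 0, nat_lit 0, nat_lit 0, nat_lit 0, nat_lit 0, nat_lit 0, nat_lit 0, nat_lit 0, nat_lit 0, nat_lit 0, nat_lit 0, nat_lit 0, nat_lit 0, nat_lit 0, nat_lit 0, false, false⟩,
 nat_lit 0, nat_lit 10745, nat_lit 0, nat_lit 0, nat_lit 6837, nat_lit 7204, nat_lit 1501, nat_lit 0, nat_lit 0, nat_lit 2265, nat_lit 0, nat_lit 0, nat_lit 0, nat_lit 39173008987946, nat_lit 0, nat_lit 0, nat_lit 0, nat_lit 0, [],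
 ⟨p067_k10, nat_lit 0, nat_lit 0, nat_lit 472, nat_lit 0, nat_lit 832004, [nat_lit 3282000000, nat_lit 4688000000, nat_lit 9842000000], [], [nat_lit 22631424296, nat_lit 21754479910, nat_lit 28962829953, nat_lit 28168196210, nat_lit 22779616275, nat_lit 22939517327, nat_lit 24041901684, nat_lit 24207202820], nat_lit 1271250, nat_lit 1271250, nat_lit 780000, nat_lit 1762500, nat_lit 1271250, nat_lit 1271250, [nat_lit 780000, nat_lit 1100000, nat_lit 2127500], [nat_lit 42, nat_lit 40, nat_lit 40, nat_lit 80, nat_lit 13, nat_lit 373, nat_lit 150, nat_lit 10]⟩, ⟨p067_k10, nat_lit 0, nat_lit 0, nat_lit 155, nat_lit 0, nat_lit 0, [nat_lit 3282000000, nat_lit 4688000000, nat_lit 9842000000], [], [nat_lit 17172980625, nat_lit 17649088111, nat_lit 21452206736, nat_lit 22044453634, nat_lit 18588820649, nat_lit 18991951630, nat_lit 21808440657, nat_lit 22186187149], nat_lit 0, nat_lit 0, nat_lit 0, nat_lit 0, nat_lit 0, nat_lit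 0, [], [nat_lit 42, nat_lit 40, nat_lit 40, nat_lit 80, nat_lit 13, nat_lit 373, nat_lit 150, nat_lit 11]⟩,
 zbF0, [⟨nat_lit 4, nat_lit 100, nat_lit 95, nat_lit 69, nat_lit 403873280⟩, ⟨nat_lit 7, nat_lit 100, nat_lit 95, nat_lit 69, nat_lit 303733491⟩]⟩
noncomputable def p067_l55 : Lf2 := ⟨nat_lit 0, nat_lit 10, [nat_lit 0, nat_lit 5, nat_lit 5, nat_lit 20], false, nat_lit 160, nat_lit 272, nat_lit 0, nat_lit 160, ⟨nat_lit 1000, nat_lit 0, nat_lit 0, nat_lit 0, nat_lit 0, nat_lit 0, nat_lit 0, nat_lit 0, nat_lit 0, nat_lit 0, nat_lit 0, nat_lit 0, nat_lit 0, nat_lit 0, nat_lit 0, nat_lit 0, false, false⟩,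
 nat_lit 0, nat_lit 11150, nat_lit 0, nat_lit 0, nat_lit 7249, nat_lit 6847, nat_lit 1547, nat_lit 0, nat_lit 0, nat_lit 2388, nat_lit 0, nat_lit 0, nat_lit 0, nat_lit 33683358004442, nat_lit 0, nat_lit 0, nat_lit 0, nat_lit 0, [],
 ⟨p067_k11, nat_lit 0, nat_lit 0, nat_lit 563, nat_lit 0, nat_lit 901079, [nat_lit 3282000000, nat_lit 4688000000, nat_lit 9842000000], [], [nat_lit 24768952369, nat_lit 23834965838, nat_lit 26365138557, nat_lit 25522619907, nat_lit 21786300555, nat_lit 21974769078, nat_lit 22248762636, nat_lit 22430590333], nat_lit 1271250, nat_lit 1271250, nat_lit 408851, nat_lit 1733250, nat_lit 1271250, nat_lit 1271250, [nat_lit 780000, nat_lit 1100000, nat_lit 2127500], [nat_lit 42, nat_lit 40, nat_lit 40, nat_lit 80, nat_lit 13, nat_lit 373, nat_lit 150, nat_lit 10]⟩, ⟨p067_k10, nat_lit 0, nat_lit 0, nat_lit 179, nat_lit 0, nat_lit 0, [nat_lit 3282000000, nat_lit 4688000000, nat_lit 9842000000], [],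 [nat_lit 17515298210, nat_lit 18496551904, nat_lit 21081467948, nat_lit 22226870601, nat_lit 12982479543, nat_lit 13808607147, nat_lit 16877785140, nat_lit 17684855679], nat_lit 0, nat_lit 0, nat_lit 0, nat_lit 0, nat_lit 0, nat_lit 0, [], [nat_lit 42, nat_lit 40, nat_lit 40, nat_lit 80, nat_lit 13, nat_lit 317, nat_lit 100, nat_lit 9]⟩,
 zbF0, [⟨nat_lit 0, nat_lit 100, nat_lit 100, nat_lit 90, nat_lit 385710737⟩, ⟨nat_lit 4, nat_lit 100, nat_lit 93, nat_lit 69, nat_lit 202079248⟩]⟩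
noncomputable def p067_l56 : Lf2 := ⟨nat_lit 0, nat_lit 10, [nat_lit 0, nat_lit 5, nat_lit 5, nat_lit 20], false, nat_lit 160, nat_lit 240, nat_lit 160, nat_lit 240, ⟨nat_lit 1000, nat_lit 0, nat_lit 0, nat_lit 0, nat_lit 0, nat_lit 0, nat_lit 0, nat_lit 0, nat_lit 0, nat_lit 0, nat_lit 0, nat_lit 0, nat_lit 0, nat_lit 0, nat_lit 0, nat_lit 0, false, false⟩,
 nat_lit 0, nat_lit 10368, nat_lit 0, nat_lit 0, nat_lit 6741, nat_lit 5391, nat_lit 3609, nat_lit 0, nat_lit 0, nat_lit 0, nat_lit 0, nat_lit 0, nat_lit 0, nat_lit 13843787682009, nat_lit 0, nat_lit 0, nat_lit 0, nat_lit 0, [],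
 ⟨p067_k11, nat_lit 0, nat_lit 0, nat_lit 520, nat_lit 0, nat_lit 863481, [nat_lit 3282000000, nat_lit 4688000000, nat_lit 9842000000], [], [nat_lit 24484588019, nat_lit 23963467599, nat_lit 24424438134, nat_lit 23954352477, nat_lit 20654199571, nat_lit 20790434878, nat_lit 21604088992, nat_lit 21705120438], nat_lit 1271250, nat_lit 1271250, nat_lit 408851, nat_lit 1733250, nat_lit 1271250, nat_lit 1271250, [nat_lit 780000, nat_lit 1100000, nat_lit 2127500], [nat_lit 42, nat_lit 40, nat_lit 40, nat_lit 80, nat_lit 13, nat_lit 345, nat_lit 125, nat_lit 10]⟩, ⟨p067_k10, nat_lit 0, nat_lit 0, nat_lit 19, nat_lit 0, nat_lit 0, [nat_lit 3282000000, nat_lit 4688000000, nat_lit 9842000000], [], [nat_lit 11969667626, nat_lit 12778215164, nat_lit 16563181264, nat_lit 17163439844, nat_lit 15994095708, nat_lit 16675979031, nat_lit 19460244840, nat_lit 19970463496], nat_lit 0, nat_lit 0, nat_lit 0, nat_lit 0, nat_lit 0, nat_lit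 0, [], [nat_lit 42, nat_lit 40, nat_lit 40, nat_lit 80, nat_lit 13, nat_lit 345, nat_lit 125, nat_lit 10]⟩,
 zbF0, [⟨nat_lit 0, nat_lit 100, nat_lit 100, nat_lit 88, nat_lit 428146956⟩, ⟨nat_lit 7, nat_lit 100, nat_lit 95, nat_lit 69, nat_lit 580381284⟩]⟩
noncomputable def p067_l57 : Lf2 := ⟨nat_lit 0, nat_lit 10, [nat_lit 0, nat_lit 5, nat_lit 5, nat_lit 20], false, nat_lit 160, nat_lit 240, nat_lit 160, nat_lit 240, ⟨nat_lit 1000, nat_lit 0, nat_lit 0, nat_lit 0, nat_lit 0, nat_lit 0, nat_lit 0, nat_lit 0, nat_lit 0, nat_lit 0, nat_lit 0, nat_lit 0, nat_lit 0, nat_lit 0, nat_lit 0, nat_lit 0, false, false⟩,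
 nat_lit 0, nat_lit 9916, nat_lit 0, nat_lit 0, nat_lit 6529, nat_lit 5372, nat_lit 3434, nat_lit 0, nat_lit 0, nat_lit 0, nat_lit 0, nat_lit 0, nat_lit 0, nat_lit 17376018754738, nat_lit 0, nat_lit 0, nat_lit 0, nat_lit 0, [],
 ⟨p067_k15, nat_lit 0, nat_lit 0, nat_lit 481, nat_lit 0, nat_lit 885126, [nat_lit 3282000000, nat_lit 4688000000, nat_lit 7968000000], [], [nat_lit 23631709681, nat_lit 23295221997, nat_lit 19691664977, nat_lit 19769938049, nat_lit 19928280217, nat_lit 20017785311, nat_lit 27351572062, nat_lit 27055933718], nat_lit 1271250, nat_lit 1271250, nat_lit 408851, nat_lit 1733250, nat_lit 1100001, nat_lit 1785000, [nat_lit 780000, nat_lit 1100000, nat_lit 1785000], [nat_lit 36, nat_lit 40, nat_lit 40, nat_lit 80, nat_lit 7, nat_lit 345, nat_lit 125, nat_lit 11]⟩, ⟨p067_k10, nat_lit 0, nat_lit 0, nat_lit 20, nat_lit 0, nat_lit 0, [nat_lit 3282000000, nat_lit 4688000000, nat_lit 9842000000], [], [nat_lit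 11991344399, nat_lit 12999838718, nat_lit 16584865888, nat_lit 17333721096, nat_lit 16010274140, nat_lit 16860883911, nat_lit 19479373280, nat_lit 20115991228], nat_lit 0, nat_lit 0, nat_lit 0, nat_lit 0, nat_lit 0, nat_lit 0, [], [nat_lit 42, nat_lit 40, nat_lit 40, nat_lit 80, nat_lit 13, nat_lit 345, nat_lit 125, nat_lit 10]⟩,
 zbF0, [⟨nat_lit 0, nat_lit 100, nat_lit 100, nat_lit 90, nat_lit 248203888⟩, ⟨nat_lit 7, nat_lit 100, nat_lit 94, nat_lit 69, nat_lit 584172562⟩]⟩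
noncomputable def p067_l58 : Lf2 := ⟨nat_lit 0, nat_lit 10, [nat_lit 0, nat_lit 5, nat_lit 5, nat_lit 20], false, nat_lit 160, nat_lit 240, nat_lit 240, nat_lit 276, ⟨nat_lit 1000, nat_lit 0, nat_lit 0, nat_lit 0, nat_lit 0, nat_lit 0, nat_lit 0, nat_lit 0, nat_lit 0, nat_lit 0, nat_lit 0, nat_lit 0, nat_lit 0, nat_lit 0, nat_lit 0, nat_lit 0, false, false⟩,
 nat_lit 0, nat_lit 10371, nat_lit 0, nat_lit 0, nat_lit 6743, nat_lit 5372, nat_lit 3623, nat_lit 0, nat_lit 0, nat_lit 0, nat_lit 0, nat_lit 0, nat_lit 0, nat_lit 0, nat_lit 0, nat_lit 0, nat_lit 0, nat_lit 0, [],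
 ⟨p067_k11, nat_lit 0, nat_lit 0, nat_lit 563, nat_lit 0, nat_lit 901079, [nat_lit 3282000000, nat_lit 4688000000, nat_lit 9842000000], [], [nat_lit 24480523631, nat_lit 23611731911, nat_lit 24417654521, nat_lit 23633945974, nat_lit 20632919283, nat_lit 20860009224, nat_lit 21582125355, nat_lit 21750528405], nat_lit 1271250, nat_lit 1271250, nat_lit 408851, nat_lit 1733250, nat_lit 1271250, nat_lit 1271250, [nat_lit 780000, nat_lit 1100000, nat_lit 2127500], [nat_lit 42, nat_lit 40, nat_lit 40, nat_lit 80, nat_lit 13, nat_lit 345, nat_lit 125, nat_lit 10]⟩, ⟨p067_k10, nat_lit 0, nat_lit 0, nat_lit 39, nat_lit 0, nat_lit 0, [nat_lit 3282000000, nat_lit 4688000000, nat_lit 9842000000], [], [nat_lit 16010274140, nat_lit 16860883911, nat_lit 19479373280, nat_lit 20115991228, nat_lit 18784314205, nat_lit 19641503872, nat_lit 21508241809, nat_lit 22152410841], nat_lit 0, nat_lit 0, nat_lit 0, nat_lit 0, nat_lit 0, nat_lit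 0, [], [nat_lit 42, nat_lit 40, nat_lit 40, nat_lit 80, nat_lit 13, nat_lit 373, nat_lit 150, nat_lit 10]⟩,
 zbF0, [⟨nat_lit 0, nat_lit 100, nat_lit 100, nat_lit 90, nat_lit 426965611⟩, ⟨nat_lit 7, nat_lit 100, nat_lit 94, nat_lit 69, nat_lit 955184076⟩]⟩
noncomputable def p067_l59 : Lf2 := ⟨nat_lit 0, nat_lit 10, [nat_lit 0, nat_lit 5, nat_lit 5, nat_lit 20], false, nat_lit 240, nat_lit 272, nat_lit 160, nat_lit 276, ⟨nat_lit 1000, nat_lit 0, nat_lit 0, nat_lit 0, nat_lit 0, nat_lit 0, nat_lit 0, nat_lit 0, nat_lit 0, nat_lit 0, nat_lit 0, nat_lit 0, nat_lit 0, nat_lit 0, nat_lit 0, nat_lit 0, false, false⟩,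
 nat_lit 0, nat_lit 11085, nat_lit 0, nat_lit 0, nat_lit 7207, nat_lit 5128, nat_lit 3546, nat_lit 0, nat_lit 0, nat_lit 0, nat_lit 0, nat_lit 0, nat_lit 0, nat_lit 1731583824485, nat_lit 0, nat_lit 0, nat_lit 0, nat_lit 0, [],
 ⟨p067_k11, nat_lit 0, nat_lit 0, nat_lit 516, nat_lit 0, nat_lit 901079, [nat_lit 3282000000, nat_lit 4688000000, nat_lit 9842000000], [], [nat_lit 18813080013, nat_lit 19047384087, nat_lit 18280464317, nat_lit 18498655829, nat_lit 20051673506, nat_lit 20285221457, nat_lit 19430721501, nat_lit 19632117566], nat_lit 1271250, nat_lit 1271250, nat_lit 408851, nat_lit 780000, nat_lit 1271250, nat_lit 1271250, [nat_lit 780000, nat_lit 1100000, nat_lit 2127500], [nat_lit 42, nat_lit 40, nat_lit 40, nat_lit 80, nat_lit 13, nat_lit 317, nat_lit 100, nat_lit 8]⟩, ⟨p067_k10, nat_lit 0, nat_lit 0, nat_lit 39, nat_lit 0, nat_lit 0, [nat_lit 3282000000, nat_lit 4688000000, nat_lit 9842000000], [], [nat_lit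 12269719802, nat_lit 13250088583, nat_lit 12395514176, nat_lit 13314078184, nat_lit 18753644677, nat_lit 19507373376, nat_lit 18516489712, nat_lit 19225294450], nat_lit 0, nat_lit 0, nat_lit 0, nat_lit 0, nat_lit 0, nat_lit 0, [], [nat_lit 42, nat_lit 40, nat_lit 40, nat_lit 80, nat_lit 13, nat_lit 317, nat_lit 100, nat_lit 9]⟩,
 zbF0, [⟨nat_lit 0, nat_lit 100, nat_lit 99, nat_lit 86, nat_lit 209763231⟩, ⟨nat_lit 0, nat_lit 100, nat_lit 100, nat_lit 90, nat_lit 464128281⟩, ⟨nat_lit 16, nat_lit 93, nat_lit 100, nat_lit 69, nat_lit 663598457⟩, ⟨nat_lit 19, nat_lit 94, nat_lit 100, nat_lit 69, nat_lit 723724081⟩]⟩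
noncomputable def p067_l60 : Lf2 := ⟨nat_lit 0, nat_lit 10, [nat_lit 0, nat_lit 5, nat_lit 5, nat_lit 20], false, nat_lit 240, nat_lit 272, nat_lit 160, nat_lit 276, ⟨nat_lit 1000, nat_lit 0, nat_lit 0, nat_lit 0, nat_lit 0, nat_lit 0, nat_lit 0, nat_lit 0, nat_lit 0, nat_lit 0, nat_lit 0, nat_lit 0, nat_lit 0, nat_lit 0, nat_lit 0, nat_lit 0, false, false⟩,
 nat_lit 0, nat_lit 11171, nat_lit 0, nat_lit 0, nat_lit 7263, nat_lit 5679, nat_lit 3817, nat_lit 0, nat_lit 0, nat_lit 0, nat_lit 0, nat_lit 0, nat_lit 0, nat_lit 0, nat_lit 0, nat_lit 0, nat_lit 0, nat_lit 0, [],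
 ⟨p067_k11, nat_lit 0, nat_lit 0, nat_lit 483, nat_lit 0, nat_lit 901079, [nat_lit 3282000000, nat_lit 4688000000, nat_lit 9842000000], [], [nat_lit 17786865149, nat_lit 18005828761, nat_lit 19729504430, nat_lit 20149717835, nat_lit 18940417889, nat_lit 19142478153, nat_lit 21923409588, nat_lit 22307468055], nat_lit 1271250, nat_lit 1271250, nat_lit 780000, nat_lit 1762500, nat_lit 1271250, nat_lit 1271250, [nat_lit 780000, nat_lit 1100000, nat_lit 2127500], [nat_lit 42, nat_lit 40, nat_lit 40, nat_lit 80, nat_lit 13, nat_lit 373, nat_lit 150, nat_lit 10]⟩, ⟨p067_k10, nat_lit 0, nat_lit 0, nat_lit 18, nat_lit 0, nat_lit 0, [nat_lit 3282000000, nat_lit 4688000000, nat_lit 9842000000], [], [nat_lit 11650227168, nat_lit 12627244562, nat_lit 16234488016, nat_lit 17039412488, nat_lit 18282329528, nat_lit 19116090351, nat_lit 21558548057, nat_lit 22221372358], nat_lit 0, nat_lit 0, nat_lit 0, nat_lit 0, nat_lit 0, nat_lit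 0, [], [nat_lit 42, nat_lit 40, nat_lit 40, nat_lit 80, nat_lit 13, nat_lit 373, nat_lit 150, nat_lit 10]⟩,
 zbF0, [⟨nat_lit 4, nat_lit 100, nat_lit 93, nat_lit 69, nat_lit 638781674⟩, ⟨nat_lit 7, nat_lit 100, nat_lit 94, nat_lit 69, nat_lit 760908534⟩]⟩
noncomputable def b_V_700_700_10_19 : St := ⟨true, nat_lit 1, nat_lit 0, nat_lit 2, nat_lit 80, nat_lit 280, nat_lit 290, nat_lit 280, nat_lit 290, nat_lit 64, nat_lit 240, nat_lit 40, nat_lit 60, nat_lit 160, nat_lit 300, nat_lit 0, nat_lit 300, nat_lit 0, nat_lit 40, nat_lit 0, nat_lit 0, nat_lit 0, nat_lit 0⟩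
theorem d_V_700_700_10_19 (h : EB TB.env) : Dead b_V_700_700_10_19 := chkB_sound0 h (T :=
(.trX (nat_lit 16) (nat_lit 99) (nat_lit 100) (nat_lit 77) (nat_lit 276) (.trX (nat_lit 19) (nat_lit 99) (nat_lit 100) (nat_lit 77) (nat_lit 276) (.spl (nat_lit 0) (nat_lit 285)
(.ord (.spl (nat_lit 2) (nat_lit 120)
(.spl (nat_lit 4) (nat_lit 240)
(.spl (nat_lit 6) (nat_lit 20)
(.spl (nat_lit 4) (nat_lit 200)
(.leaf p067_l45)
(.spl (nat_lit 6) (nat_lit 8)
(.spl (nat_lit 0) (nat_lit 283)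
(.ord (.leaf p067_l46))
(.leaf p067_l47))
(.leaf p067_l48)))
(.leaf p067_l49))
(.spl (nat_lit 6) (nat_lit 20)
(.spl (nat_lit 0) (nat_lit 283)
(.ord (.spl (nat_lit 6) (nat_lit 8)
(.leaf p067_l50)
(.leaf p067_l51)))
(.trX (nat_lit 16) (nat_lit 97) (nat_lit 100) (nat_lit 77) (nat_lit 272) (.leaf p067_l52)))
(.leaf p067_l53)))
(.leaf p067_l54)))
(.trZ (nat_lit 0) (nat_lit 100) (nat_lit 99) (nat_lit 82) (nat_lit 68) (.trX (nat_lit 16) (nat_lit 97) (nat_lit 100) (nat_lit 76) (nat_lit 272) (.spl (nat_lit 5) (nat_lit 160)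
(.leaf p067_l55)
(.spl (nat_lit 4) (nat_lit 240)
(.spl (nat_lit 5) (nat_lit 240)
(.spl (nat_lit 0) (nat_lit 288)
(.ord (.leaf p067_l56))
(.leaf p067_l57))
(.leaf p067_l58))
(.spl (nat_lit 2) (nat_lit 120)
(.leaf p067_l59)
(.leaf p067_l60)))))))))) (by decide +kernel)
noncomputable def p067_l61 : Lf2 := ⟨nat_lit 0, nat_lit 10, [nat_lit 0, nat_lit 5, nat_lit 5, nat_lit 20], false, nat_lit 160, nat_lit 240, nat_lit 0, nat_lit 300, ⟨nat_lit 139, nat_lit 861, nat_lit 0, nat_lit 7, nat_lit 199, nat_lit 861, nat_lit 144, nat_lit 0, nat_lit 0, nat_lit 0, nat_lit 0, nat_lit 0, nat_lit 0, nat_lit 0, nat_lit 0, nat_lit 5000000, false, false⟩,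
 nat_lit 0, nat_lit 7063, nat_lit 0, nat_lit 0, nat_lit 4494, nat_lit 917, nat_lit 277, nat_lit 0, nat_lit 0, nat_lit 296, nat_lit 0, nat_lit 0, nat_lit 0, nat_lit 9860416602706, nat_lit 0, nat_lit 861000, nat_lit 0, nat_lit 0, [(nat_lit 12, [(nat_lit 2, nat_lit 861)])],
 ⟨p067_k10, nat_lit 0, nat_lit 0, nat_lit 374, nat_lit 0, nat_lit 600834, [nat_lit 2172136560, nat_lit 2900908400, nat_lit 1114904000], [], [nat_lit 24360445178, nat_lit 24012511159, nat_lit 25771502421, nat_lit 25458111983, nat_lit 22454542261, nat_lit 22564208975, nat_lit 24594939968, nat_lit 24700748027], nat_lit 1271250, nat_lit 1271250, nat_lit 382400, nat_lit 1731000, nat_lit 1271250, nat_lit 1271250, [nat_lit 780000, nat_lit 1100000, nat_lit 2127500], [nat_lit 42, nat_lit 40, nat_lit 40, nat_lit 80, nat_lit 13, nat_lit 345, nat_lit 125, nat_lit 10]⟩, ⟨p067_k10, nat_lit 0, nat_lit 0, nat_lit 177, nat_lit 0, nat_lit 0, [nat_lit 456198000, nat_lit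 651632000, nat_lit 1368038000], [], [nat_lit 2620227072, nat_lit 2660347193, nat_lit 2919316516, nat_lit 2948979641, nat_lit 3022060469, nat_lit 3053875874, nat_lit 3245678370, nat_lit 3269245575], nat_lit 0, nat_lit 0, nat_lit 0, nat_lit 0, nat_lit 0, nat_lit 0, [], [nat_lit 42, nat_lit 40, nat_lit 40, nat_lit 80, nat_lit 13, nat_lit 373, nat_lit 150, nat_lit 11]⟩,
 ⟨nat_lit 5408, nat_lit 5478, ⟨.ofNat (nat_lit 330654), .ofNat (nat_lit 660359), .ofNat (nat_lit 333858), .ofNat (nat_lit 663562), .ofNat (nat_lit 332488), .ofNat (nat_lit 659856), .ofNat (nat_lit 335692), .ofNat (nat_lit 663061)⟩, ⟨.ofNat (nat_lit 275566), .ofNat (nat_lit 425432), .ofNat (nat_lit 296923), .ofNat (nat_lit 446789), .ofNat (nat_lit 276048), .ofNat (nat_lit 424852), .ofNat (nat_lit 297412), .ofNat (nat_lit 446216)⟩⟩, [⟨nat_lit 7, nat_lit 99, nat_lit 100, nat_lit 83, nat_lit 36604026⟩]⟩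
noncomputable def p067_l62 : Lf2 := ⟨nat_lit 0, nat_lit 10, [nat_lit 0, nat_lit 5, nat_lit 5, nat_lit 20], false, nat_lit 160, nat_lit 240, nat_lit 0, nat_lit 300, ⟨nat_lit 139, nat_lit 861, nat_lit 0, nat_lit 7, nat_lit 200, nat_lit 861, nat_lit 144, nat_lit 0, nat_lit 0, nat_lit 0, nat_lit 0, nat_lit 0, nat_lit 0, nat_lit 0, nat_lit 0, nat_lit 5000000, false, false⟩,
 nat_lit 0, nat_lit 6968, nat_lit 0, nat_lit 0, nat_lit 4491, nat_lit 914, nat_lit 1300, nat_lit 0, nat_lit 0, nat_lit 294, nat_lit 0, nat_lit 0, nat_lit 0, nat_lit 21379209493836, nat_lit 0, nat_lit 861000, nat_lit 0, nat_lit 0, [(nat_lit 12, [(nat_lit 2, nat_lit 861)])],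
 ⟨p067_k16, nat_lit 0, nat_lit 0, nat_lit 427, nat_lit 0, nat_lit 627135, [nat_lit 2172136560, nat_lit 2900908400, nat_lit 1114904000], [], [nat_lit 23842594134, nat_lit 23610792965, nat_lit 25192380892, nat_lit 24983593404, nat_lit 22056567626, nat_lit 22148318189, nat_lit 24199771186, nat_lit 24270294595], nat_lit 1271250, nat_lit 1271250, nat_lit 382400, nat_lit 1731000, nat_lit 1271250, nat_lit 1271250, [nat_lit 780000, nat_lit 1100000, nat_lit 2127500], [nat_lit 42, nat_lit 40, nat_lit 40, nat_lit 80, nat_lit 13, nat_lit 345, nat_lit 125, nat_lit 10]⟩, ⟨p067_k10, nat_lit 0, nat_lit 0, nat_lit 178, nat_lit 0, nat_lit 0, [nat_lit 456198000, nat_lit 651632000, nat_lit 1368038000], [], [nat_lit 2628713208, nat_lit 2695444299, nat_lit 2928811686, nat_lit 2978160427, nat_lit 3023488922, nat_lit 3076414542, nat_lit 3248209665, nat_lit 3287424245], nat_lit 0, nat_lit 0, nat_lit 0, nat_lit 0, nat_lit 0, nat_lit 0, [], [nat_lit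 42, nat_lit 40, nat_lit 40, nat_lit 80, nat_lit 13, nat_lit 373, nat_lit 150, nat_lit 11]⟩,
 ⟨nat_lit 5361, nat_lit 5409, ⟨.ofNat (nat_lit 332488), .ofNat (nat_lit 659857), .ofNat (nat_lit 337829), .ofNat (nat_lit 665198), .ofNat (nat_lit 333709), .ofNat (nat_lit 659525), .ofNat (nat_lit 339051), .ofNat (nat_lit 664868)⟩, ⟨.ofNat (nat_lit 276048), .ofNat (nat_lit 424852), .ofNat (nat_lit 297412), .ofNat (nat_lit 446216), .ofNat (nat_lit 276363), .ofNat (nat_lit 424461), .ofNat (nat_lit 297732), .ofNat (nat_lit 445831)⟩⟩, [⟨nat_lit 7, nat_lit 99, nat_lit 100, nat_lit 83, nat_lit 36414585⟩]⟩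
noncomputable def p067_l63 : Lf2 := ⟨nat_lit 0, nat_lit 10, [nat_lit 0, nat_lit 5, nat_lit 5, nat_lit 20], false, nat_lit 160, nat_lit 240, nat_lit 0, nat_lit 300, ⟨nat_lit 142, nat_lit 858, nat_lit 0, nat_lit 7, nat_lit 201, nat_lit 858, nat_lit 144, nat_lit 0, nat_lit 0, nat_lit 0, nat_lit 0, nat_lit 0, nat_lit 0, nat_lit 0, nat_lit 0, nat_lit 5000000, false, false⟩,
 nat_lit 0, nat_lit 7275, nat_lit 0, nat_lit 0, nat_lit 4730, nat_lit 944, nat_lit 1969, nat_lit 0, nat_lit 0, nat_lit 273, nat_lit 0, nat_lit 0, nat_lit 0, nat_lit 0, nat_lit 0, nat_lit 343200, nat_lit 0, nat_lit 0, [(nat_lit 12, [(nat_lit 1, nat_lit 858)])],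
 ⟨p067_k11, nat_lit 0, nat_lit 0, nat_lit 438, nat_lit 0, nat_lit 664021, [nat_lit 2210701200, nat_lit 2998426401, nat_lit 3659595200], [], [nat_lit 22895535275, nat_lit 22286105520, nat_lit 24498267931, nat_lit 23948521316, nat_lit 20783977913, nat_lit 21017492252, nat_lit 22861833813, nat_lit 23041188988], nat_lit 1271250, nat_lit 1271250, nat_lit 408851, nat_lit 1733250, nat_lit 1271250, nat_lit 1271250, [nat_lit 780000, nat_lit 1100000, nat_lit 2127500], [nat_lit 42, nat_lit 40, nat_lit 40, nat_lit 80, nat_lit 13, nat_lit 345, nat_lit 125, nat_lit 10]⟩, ⟨p067_k10, nat_lit 0, nat_lit 0, nat_lit 176, nat_lit 0, nat_lit 0, [nat_lit 466044000, nat_lit 665696000, nat_lit 1397564000], [], [nat_lit 2803659258, nat_lit 2872054101, nat_lit 3129944553, nat_lit 3180665893, nat_lit 3073330605, nat_lit 3121944450, nat_lit 3310236972, nat_lit 3357901751], nat_lit 0, nat_lit 0, nat_lit 0, nat_lit 0, nat_lit 0, nat_lit 0, [], [nat_lit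 42, nat_lit 40, nat_lit 40, nat_lit 80, nat_lit 13, nat_lit 373, nat_lit 150, nat_lit 11]⟩,
 ⟨nat_lit 5244, nat_lit 5362, ⟨.ofNat (nat_lit 341114), .ofNat (nat_lit 659523), .ofNat (nat_lit 346456), .ofNat (nat_lit 664866), .ofNat (nat_lit 344076), .ofNat (nat_lit 658709), .ofNat (nat_lit 349422), .ofNat (nat_lit 664055)⟩, ⟨.ofNat (nat_lit 276363), .ofNat (nat_lit 424461), .ofNat (nat_lit 297732), .ofNat (nat_lit 445831), .ofNat (nat_lit 277129), .ofNat (nat_lit 423472), .ofNat (nat_lit 298515), .ofNat (nat_lit 444857)⟩⟩, [⟨nat_lit 7, nat_lit 99, nat_lit 100, nat_lit 83, nat_lit 34440828⟩]⟩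
noncomputable def p067_l64 : Lf2 := ⟨nat_lit 0, nat_lit 10, [nat_lit 0, nat_lit 5, nat_lit 5, nat_lit 20], false, nat_lit 160, nat_lit 240, nat_lit 0, nat_lit 296, ⟨nat_lit 146, nat_lit 854, nat_lit 0, nat_lit 7, nat_lit 205, nat_lit 854, nat_lit 144, nat_lit 0, nat_lit 0, nat_lit 0, nat_lit 0, nat_lit 0, nat_lit 0, nat_lit 0, nat_lit 0, nat_lit 5000000, false, false⟩,
 nat_lit 0, nat_lit 7633, nat_lit 0, nat_lit 0, nat_lit 4962, nat_lit 913, nat_lit 2141, nat_lit 0, nat_lit 0, nat_lit 301, nat_lit 0, nat_lit 0, nat_lit 0, nat_lit 39247373221663, nat_lit 0, nat_lit 341600, nat_lit 0, nat_lit 0, [(nat_lit 12, [(nat_lit 1, nat_lit 854)])],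
 ⟨p067_k11, nat_lit 0, nat_lit 0, nat_lit 452, nat_lit 0, nat_lit 712861, [nat_lit 2215695600, nat_lit 3006303200, nat_lit 3688417600], [], [nat_lit 22261387615, nat_lit 21623023834, nat_lit 24123204922, nat_lit 23546493991, nat_lit 19882060686, nat_lit 20119498044, nat_lit 21927913154, nat_lit 22110225749], nat_lit 1271250, nat_lit 1271250, nat_lit 435600, nat_lit 1735500, nat_lit 1271250, nat_lit 1271250, [nat_lit 780000, nat_lit 1100000, nat_lit 2127500], [nat_lit 42, nat_lit 40, nat_lit 40, nat_lit 80, nat_lit 13, nat_lit 345, nat_lit 125, nat_lit 10]⟩, ⟨p067_k11, nat_lit 0, nat_lit 0, nat_lit 177, nat_lit 0, nat_lit 0, [nat_lit 479172000, nat_lit 684448000, nat_lit 1436932000], [], [nat_lit 2733954417, nat_lit 2801443423, nat_lit 3091430468, nat_lit 3145636605, nat_lit 3104749464, nat_lit 3161077777, nat_lit 3397163022, nat_lit 3445184300], nat_lit 0, nat_lit 0, nat_lit 0, nat_lit 0, nat_lit 0, nat_lit 0, [], [nat_lit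 42, nat_lit 40, nat_lit 40, nat_lit 80, nat_lit 13, nat_lit 373, nat_lit 150, nat_lit 11]⟩,
 ⟨nat_lit 5244, nat_lit 5362, ⟨.ofNat (nat_lit 353861), .ofNat (nat_lit 664866), .ofNat (nat_lit 359203), .ofNat (nat_lit 670208), .ofNat (nat_lit 356739), .ofNat (nat_lit 664055), .ofNat (nat_lit 362085), .ofNat (nat_lit 669401)⟩, ⟨.ofNat (nat_lit 276363), .ofNat (nat_lit 424461), .ofNat (nat_lit 297732), .ofNat (nat_lit 445831), .ofNat (nat_lit 277129), .ofNat (nat_lit 423472), .ofNat (nat_lit 298515), .ofNat (nat_lit 444857)⟩⟩, [⟨nat_lit 7, nat_lit 100, nat_lit 98, nat_lit 83, nat_lit 38580094⟩]⟩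
noncomputable def p067_l65 : Lf2 := ⟨nat_lit 0, nat_lit 10, [nat_lit 0, nat_lit 5, nat_lit 5, nat_lit 20], true, nat_lit 240, nat_lit 300, nat_lit 0, nat_lit 300, ⟨nat_lit 0, nat_lit 1000, nat_lit 0, nat_lit 7, nat_lit 154, nat_lit 1000, nat_lit 197, nat_lit 0, nat_lit 0, nat_lit 0, nat_lit 0, nat_lit 0, nat_lit 0, nat_lit 0, nat_lit 0, nat_lit 5000000, false, false⟩,
 nat_lit 0, nat_lit 8529, nat_lit 0, nat_lit 0, nat_lit 5427, nat_lit 0, nat_lit 128, nat_lit 0, nat_lit 0, nat_lit 0, nat_lit 0, nat_lit 0, nat_lit 0, nat_lit 0, nat_lit 12, nat_lit 1000000, nat_lit 0, nat_lit 0, [(nat_lit 12, [(nat_lit 2, nat_lit 1000)])],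
 ⟨p067_k10, nat_lit 0, nat_lit 0, nat_lit 362, nat_lit 0, nat_lit 600834, [nat_lit 2136960000, nat_lit 2804400000, nat_lit 42000000], [], [nat_lit 18267922376, nat_lit 18417519229, nat_lit 18109344420, nat_lit 18248945231, nat_lit 20957292689, nat_lit 21102949204, nat_lit 20590234087, nat_lit 20726432417], nat_lit 1271250, nat_lit 1271250, nat_lit 382400, nat_lit 780000, nat_lit 1271250, nat_lit 1271250, [nat_lit 780000, nat_lit 1100000, nat_lit 2127500], [nat_lit 42, nat_lit 40, nat_lit 40, nat_lit 80, nat_lit 13, nat_lit 345, nat_lit 125, nat_lit 9]⟩, C1.Rw.none,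
 ⟨nat_lit 5408, nat_lit 5478, ⟨.ofNat (nat_lit 330654), .ofNat (nat_lit 435560), .ofNat (nat_lit 333858), .ofNat (nat_lit 438764), .ofNat (nat_lit 332488), .ofNat (nat_lit 436651), .ofNat (nat_lit 335692), .ofNat (nat_lit 439855)⟩, ⟨.ofNat (nat_lit 425432), .ofNat (nat_lit 537832), .ofNat (nat_lit 446789), .ofNat (nat_lit 559189), .ofNat (nat_lit 424852), .ofNat (nat_lit 536455), .ofNat (nat_lit 446216), .ofNat (nat_lit 557819)⟩⟩, [⟨nat_lit 0, nat_lit 100, nat_lit 100, nat_lit 83, nat_lit 8900615⟩, ⟨nat_lit 4, nat_lit 99, nat_lit 100, nat_lit 83, nat_lit 375317059⟩]⟩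
noncomputable def p067_l66 : Lf2 := ⟨nat_lit 0, nat_lit 10, [nat_lit 0, nat_lit 5, nat_lit 5, nat_lit 20], true, nat_lit 240, nat_lit 296, nat_lit 0, nat_lit 300, ⟨nat_lit 0, nat_lit 1000, nat_lit 0, nat_lit 7, nat_lit 155, nat_lit 1000, nat_lit 195, nat_lit 0, nat_lit 0, nat_lit 0, nat_lit 0, nat_lit 0, nat_lit 0, nat_lit 0, nat_lit 0, nat_lit 5000000, false, false⟩,
 nat_lit 0, nat_lit 8115, nat_lit 0, nat_lit 0, nat_lit 5231, nat_lit 0, nat_lit 1736, nat_lit 0, nat_lit 0, nat_lit 0, nat_lit 0, nat_lit 0, nat_lit 0, nat_lit 26366112323820, nat_lit 12, nat_lit 1000000, nat_lit 0, nat_lit 0, [(nat_lit 12, [(nat_lit 2, nat_lit 1000)])],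
 ⟨p067_k16, nat_lit 0, nat_lit 0, nat_lit 400, nat_lit 0, nat_lit 627135, [nat_lit 2136960000, nat_lit 2804400000, nat_lit 42000000], [], [nat_lit 18384417350, nat_lit 18482477419, nat_lit 18259258673, nat_lit 18350833614, nat_lit 20723425348, nat_lit 20809417710, nat_lit 20442838290, nat_lit 20523252294], nat_lit 1271250, nat_lit 1271250, nat_lit 382400, nat_lit 780000, nat_lit 1271250, nat_lit 1271250, [nat_lit 780000, nat_lit 1100000, nat_lit 2127500], [nat_lit 42, nat_lit 40, nat_lit 40, nat_lit 80, nat_lit 13, nat_lit 345, nat_lit 125, nat_lit 9]⟩, C1.Rw.none,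
 ⟨nat_lit 5361, nat_lit 5409, ⟨.ofNat (nat_lit 332488), .ofNat (nat_lit 436651), .ofNat (nat_lit 337829), .ofNat (nat_lit 441992), .ofNat (nat_lit 333709), .ofNat (nat_lit 437378), .ofNat (nat_lit 339051), .ofNat (nat_lit 442720)⟩, ⟨.ofNat (nat_lit 424852), .ofNat (nat_lit 529015), .ofNat (nat_lit 446216), .ofNat (nat_lit 550379), .ofNat (nat_lit 424461), .ofNat (nat_lit 528131), .ofNat (nat_lit 445831), .ofNat (nat_lit 549500)⟩⟩, [⟨nat_lit 0, nat_lit 100, nat_lit 100, nat_lit 85, nat_lit 5317533⟩, ⟨nat_lit 4, nat_lit 100, nat_lit 100, nat_lit 84, nat_lit 352286380⟩]⟩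
noncomputable def p067_l67 : Lf2 := ⟨nat_lit 0, nat_lit 10, [nat_lit 0, nat_lit 5, nat_lit 5, nat_lit 20], false, nat_lit 240, nat_lit 300, nat_lit 0, nat_lit 300, ⟨nat_lit 965, nat_lit 35, nat_lit 0, nat_lit 7, nat_lit 220, nat_lit 35, nat_lit 197, nat_lit 0, nat_lit 0, nat_lit 0, nat_lit 0, nat_lit 0, nat_lit 0, nat_lit 0, nat_lit 0, nat_lit 5000000, false, false⟩,
 nat_lit 0, nat_lit 11877, nat_lit 0, nat_lit 0, nat_lit 7558, nat_lit 6658, nat_lit 1702, nat_lit 0, nat_lit 0, nat_lit 1808, nat_lit 0, nat_lit 0, nat_lit 0, nat_lit 7442685584496, nat_lit 0, nat_lit 35000, nat_lit 0, nat_lit 0, [(nat_lit 12, [(nat_lit 2, nat_lit 35)])],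
 ⟨p067_k10, nat_lit 0, nat_lit 0, nat_lit 349, nat_lit 0, nat_lit 638693, [nat_lit 3236883600, nat_lit 4615354000, nat_lit 9487240000], [], [nat_lit 17905718526, nat_lit 18142405338, nat_lit 20020992288, nat_lit 20266493840, nat_lit 20961708198, nat_lit 21226673974, nat_lit 23576560064, nat_lit 23937018650], nat_lit 1271250, nat_lit 1271250, nat_lit 780000, nat_lit 1762500, nat_lit 1271250, nat_lit 1271250, [nat_lit 780000, nat_lit 1100000, nat_lit 2127500], [nat_lit 42, nat_lit 40, nat_lit 40, nat_lit 80, nat_lit 13, nat_lit 373, nat_lit 150, nat_lit 10]⟩, ⟨p067_k10, nat_lit 0, nat_lit 0, nat_lit 155, nat_lit 0, nat_lit 0, [nat_lit 3167130000, nat_lit 4523920000, nat_lit 9497530000], [], [nat_lit 18411011140, nat_lit 18858209277, nat_lit 21544218640, nat_lit 21896176953, nat_lit 19962792142, nat_lit 20250620938, nat_lit 22566326514, nat_lit 22896859085], nat_lit 0, nat_lit 0, nat_lit 0, nat_lit 0, nat_lit 0, nat_lit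 0, [], [nat_lit 42, nat_lit 40, nat_lit 40, nat_lit 80, nat_lit 13, nat_lit 373, nat_lit 150, nat_lit 11]⟩,
 ⟨nat_lit 5361, nat_lit 5478, ⟨.ofNat (nat_lit 435560), .ofNat (nat_lit 660357), .ofNat (nat_lit 440899), .ofNat (nat_lit 665696), .ofNat (nat_lit 437377), .ofNat (nat_lit 659523), .ofNat (nat_lit 442720), .ofNat (nat_lit 664866)⟩, ⟨.ofNat (nat_lit 425432), .ofNat (nat_lit 537832), .ofNat (nat_lit 446789), .ofNat (nat_lit 559189), .ofNat (nat_lit 424461), .ofNat (nat_lit 535535), .ofNat (nat_lit 445831), .ofNat (nat_lit 556905)⟩⟩, [⟨nat_lit 4, nat_lit 99, nat_lit 100, nat_lit 83, nat_lit 591731914⟩, ⟨nat_lit 7, nat_lit 99, nat_lit 100, nat_lit 83, nat_lit 237905237⟩]⟩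
noncomputable def p067_l68 : Lf2 := ⟨nat_lit 0, nat_lit 10, [nat_lit 0, nat_lit 5, nat_lit 5, nat_lit 20], true, nat_lit 240, nat_lit 296, nat_lit 0, nat_lit 300, ⟨nat_lit 0, nat_lit 1000, nat_lit 0, nat_lit 7, nat_lit 172, nat_lit 1000, nat_lit 195, nat_lit 0, nat_lit 0, nat_lit 0, nat_lit 0, nat_lit 0, nat_lit 0, nat_lit 0, nat_lit 0, nat_lit 5000000, false, false⟩,
 nat_lit 0, nat_lit 7684, nat_lit 0, nat_lit 0, nat_lit 4995, nat_lit 0, nat_lit 1918, nat_lit 0, nat_lit 0, nat_lit 0, nat_lit 0, nat_lit 0, nat_lit 0, nat_lit 25674712822870, nat_lit 0, nat_lit 839200, nat_lit 0, nat_lit 0, [(nat_lit 12, [(nat_lit 1, nat_lit 268), (nat_lit 2, nat_lit 732)])],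
 ⟨p067_k6, nat_lit 0, nat_lit 0, nat_lit 431, nat_lit 0, nat_lit 675633, [nat_lit 2263697601, nat_lit 2154046400, nat_lit 491347200], [], [nat_lit 18300851025, nat_lit 18417580296, nat_lit 18497763557, nat_lit 18615185679, nat_lit 20532318225, nat_lit 20765000780, nat_lit 20549164347, nat_lit 20666586066], nat_lit 1271250, nat_lit 1271250, nat_lit 408851, nat_lit 1100001, nat_lit 1271250, nat_lit 1271250, [nat_lit 780000, nat_lit 1435000, nat_lit 1271250], [nat_lit 8, nat_lit 40, nat_lit 40, nat_lit 80, nat_lit 1, nat_lit 345, nat_lit 125, nat_lit 9]⟩, C1.Rw.none,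
 ⟨nat_lit 5291, nat_lit 5362, ⟨.ofNat (nat_lit 341114), .ofNat (nat_lit 511427), .ofNat (nat_lit 349661), .ofNat (nat_lit 519974), .ofNat (nat_lit 342891), .ofNat (nat_lit 511991), .ofNat (nat_lit 351442), .ofNat (nat_lit 520542)⟩, ⟨.ofNat (nat_lit 424461), .ofNat (nat_lit 528131), .ofNat (nat_lit 445831), .ofNat (nat_lit 549500), .ofNat (nat_lit 423870), .ofNat (nat_lit 526800), .ofNat (nat_lit 445249), .ofNat (nat_lit 548179)⟩⟩, [⟨nat_lit 4, nat_lit 100, nat_lit 99, nat_lit 83, nat_lit 331564560⟩]⟩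
noncomputable def p067_l69 : Lf2 := ⟨nat_lit 0, nat_lit 10, [nat_lit 0, nat_lit 5, nat_lit 5, nat_lit 20], true, nat_lit 240, nat_lit 292, nat_lit 0, nat_lit 300, ⟨nat_lit 0, nat_lit 1000, nat_lit 0, nat_lit 7, nat_lit 173, nat_lit 1000, nat_lit 193, nat_lit 0, nat_lit 0, nat_lit 0, nat_lit 0, nat_lit 0, nat_lit 0, nat_lit 0, nat_lit 0, nat_lit 5000000, false, false⟩,
 nat_lit 0, nat_lit 7271, nat_lit 0, nat_lit 0, nat_lit 4787, nat_lit 0, nat_lit 2263, nat_lit 0, nat_lit 0, nat_lit 0, nat_lit 0, nat_lit 0, nat_lit 0, nat_lit 26426060656064, nat_lit 0, nat_lit 400000, nat_lit 0, nat_lit 0, [(nat_lit 12, [(nat_lit 1, nat_lit 1000)])],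
 ⟨p067_k17, nat_lit 0, nat_lit 0, nat_lit 383, nat_lit 0, nat_lit 700173, [nat_lit 2068400000, nat_lit 2721200001, nat_lit 2682000000], [], [nat_lit 18296124736, nat_lit 18372743403, nat_lit 18546729480, nat_lit 18623788436, nat_lit 20328983741, nat_lit 20482435058, nat_lit 20411760185, nat_lit 20489568339], nat_lit 1271250, nat_lit 1271250, nat_lit 408851, nat_lit 1100001, nat_lit 1271250, nat_lit 1271250, [nat_lit 780000, nat_lit 1435000, nat_lit 1271250], [nat_lit 18, nat_lit 40, nat_lit 40, nat_lit 80, nat_lit 2, nat_lit 249, nat_lit 40, nat_lit 7]⟩, C1.Rw.none,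
 ⟨nat_lit 5244, nat_lit 5292, ⟨.ofNat (nat_lit 342891), .ofNat (nat_lit 511991), .ofNat (nat_lit 353580), .ofNat (nat_lit 522680), .ofNat (nat_lit 344076), .ofNat (nat_lit 512369), .ofNat (nat_lit 354768), .ofNat (nat_lit 523062)⟩, ⟨.ofNat (nat_lit 423870), .ofNat (nat_lit 519448), .ofNat (nat_lit 445249), .ofNat (nat_lit 540827), .ofNat (nat_lit 423472), .ofNat (nat_lit 518594), .ofNat (nat_lit 444857), .ofNat (nat_lit 539979)⟩⟩, [⟨nat_lit 4, nat_lit 100, nat_lit 97, nat_lit 83, nat_lit 334267950⟩]⟩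
noncomputable def p067_l70 : Lf2 := ⟨nat_lit 0, nat_lit 10, [nat_lit 0, nat_lit 5, nat_lit 5, nat_lit 20], false, nat_lit 240, nat_lit 296, nat_lit 0, nat_lit 300, ⟨nat_lit 1000, nat_lit 0, nat_lit 0, nat_lit 0, nat_lit 0, nat_lit 0, nat_lit 0, nat_lit 0, nat_lit 0, nat_lit 0, nat_lit 0, nat_lit 0, nat_lit 0, nat_lit 0, nat_lit 0, nat_lit 0, false, false⟩,
 nat_lit 0, nat_lit 12319, nat_lit 0, nat_lit 0, nat_lit 8009, nat_lit 8929, nat_lit 3220, nat_lit 0, nat_lit 0, nat_lit 1066, nat_lit 0, nat_lit 0, nat_lit 0, nat_lit 4413941727679, nat_lit 0, nat_lit 0, nat_lit 0, nat_lit 0, [],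
 ⟨p067_k6, nat_lit 0, nat_lit 0, nat_lit 372, nat_lit 0, nat_lit 712861, [nat_lit 3282000000, nat_lit 6250000000, nat_lit 9842000000], [], [nat_lit 19299929619, nat_lit 19535619722, nat_lit 20510841062, nat_lit 20708085403, nat_lit 21429029861, nat_lit 21630464245, nat_lit 23790958128, nat_lit 24168612000], nat_lit 1271250, nat_lit 1271250, nat_lit 1100001, nat_lit 1785000, nat_lit 1271250, nat_lit 1271250, [nat_lit 780000, nat_lit 1435000, nat_lit 1271250], [nat_lit 8, nat_lit 40, nat_lit 40, nat_lit 80, nat_lit 1, nat_lit 373, nat_lit 150, nat_lit 10]⟩, ⟨p067_k0, nat_lit 0, nat_lit 0, nat_lit 159, nat_lit 0, nat_lit 0, [nat_lit 3282000000, nat_lit 6250000000, nat_lit 9842000000], [], [nat_lit 22126616050, nat_lit 23149749301, nat_lit 25165527190, nat_lit 26016475633, nat_lit 21656764952, nat_lit 22249095896, nat_lit 23975806232, nat_lit 24771414456], nat_lit 0, nat_lit 0, nat_lit 0, nat_lit 0, nat_lit 0, nat_lit 0,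 [], [nat_lit 8, nat_lit 40, nat_lit 40, nat_lit 80, nat_lit 1, nat_lit 373, nat_lit 150, nat_lit 11]⟩,
 zbF0, [⟨nat_lit 4, nat_lit 100, nat_lit 98, nat_lit 83, nat_lit 522736487⟩, ⟨nat_lit 7, nat_lit 100, nat_lit 99, nat_lit 83, nat_lit 201536370⟩]⟩
noncomputable def b_V_700_700_10_20 : St := ⟨true, nat_lit 1, nat_lit 0, nat_lit 2, nat_lit 80, nat_lit 280, nat_lit 290, nat_lit 280, nat_lit 290, nat_lit 64, nat_lit 240, nat_lit 60, nat_lit 80, nat_lit 160, nat_lit 300, nat_lit 0, nat_lit 300, nat_lit 0, nat_lit 40, nat_lit 0, nat_lit 0, nat_lit 0, nat_lit 0⟩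
theorem d_V_700_700_10_20 (h : EB TB.env) : Dead b_V_700_700_10_20 := chkB_sound0 h (T :=
(.spl (nat_lit 4) (nat_lit 240)
(.spl (nat_lit 0) (nat_lit 285)
(.ord (.spl (nat_lit 0) (nat_lit 283)
(.ord (.leaf p067_l61))
(.leaf p067_l62)))
(.trZ (nat_lit 0) (nat_lit 100) (nat_lit 99) (nat_lit 82) (nat_lit 68) (.spl (nat_lit 1) (nat_lit 285)
(.leaf p067_l63)
(.trZ (nat_lit 0) (nat_lit 100) (nat_lit 100) (nat_lit 85) (nat_lit 72) (.trX (nat_lit 19) (nat_lit 100) (nat_lit 98) (nat_lit 88) (nat_lit 296) (.leaf p067_l64))))))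
(.spl (nat_lit 0) (nat_lit 285)
(.ord (.spl (nat_lit 2) (nat_lit 120)
(.spl (nat_lit 0) (nat_lit 283)
(.ord (.leaf p067_l65))
(.trX (nat_lit 16) (nat_lit 100) (nat_lit 96) (nat_lit 88) (nat_lit 296) (.leaf p067_l66)))
(.leaf p067_l67)))
(.trZ (nat_lit 0) (nat_lit 100) (nat_lit 99) (nat_lit 82) (nat_lit 68) (.trX (nat_lit 16) (nat_lit 100) (nat_lit 98) (nat_lit 88) (nat_lit 296) (.spl (nat_lit 2) (nat_lit 160)
(.spl (nat_lit 0) (nat_lit 288)
(.ord (.leaf p067_l68))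
(.trX (nat_lit 16) (nat_lit 100) (nat_lit 99) (nat_lit 89) (nat_lit 292) (.leaf p067_l69)))
(.leaf p067_l70))))))) (by decide +kernel)
noncomputable def p067_l71 : Lf2 := ⟨nat_lit 0, nat_lit 10, [nat_lit 0, nat_lit 5, nat_lit 5, nat_lit 20], false, nat_lit 160, nat_lit 292, nat_lit 0, nat_lit 160, ⟨nat_lit 1000, nat_lit 0, nat_lit 0, nat_lit 0, nat_lit 0, nat_lit 0, nat_lit 0, nat_lit 0, nat_lit 0, nat_lit 0, nat_lit 0, nat_lit 0, nat_lit 0, nat_lit 0, nat_lit 0, nat_lit 0, false, false⟩,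
 nat_lit 0, nat_lit 10473, nat_lit 0, nat_lit 0, nat_lit 6955, nat_lit 6733, nat_lit 1516, nat_lit 0, nat_lit 0, nat_lit 2319, nat_lit 0, nat_lit 0, nat_lit 0, nat_lit 29781244095773, nat_lit 0, nat_lit 0, nat_lit 0, nat_lit 0, [],
 ⟨p067_k18, nat_lit 0, nat_lit 0, nat_lit 558, nat_lit 0, nat_lit 1094085, [nat_lit 3282000000, nat_lit 4688000000, nat_lit 7968000000], [], [nat_lit 22913465081, nat_lit 21123936626, nat_lit 23443428815, nat_lit 21826732110, nat_lit 23530523219, nat_lit 23859492183, nat_lit 23562018778, nat_lit 24267516955], nat_lit 1271250, nat_lit 1271250, nat_lit 435600, nat_lit 1735500, nat_lit 1271250, nat_lit 1271250, [nat_lit 780000, nat_lit 1100000, nat_lit 1785000], [nat_lit 36, nat_lit 40, nat_lit 40, nat_lit 80, nat_lit 7, nat_lit 373, nat_lit 150, nat_lit 12]⟩, ⟨p067_k10, nat_lit 0, nat_lit 0, nat_lit 182, nat_lit 0, nat_lit 0, [nat_lit 3282000000, nat_lit 4688000000, nat_lit 9842000000], [],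 [nat_lit 17640779815, nat_lit 19591428479, nat_lit 20963080772, nat_lit 23228920306, nat_lit 13277003692, nat_lit 14906302176, nat_lit 17014514460, nat_lit 18612550302], nat_lit 0, nat_lit 0, nat_lit 0, nat_lit 0, nat_lit 0, nat_lit 0, [], [nat_lit 42, nat_lit 40, nat_lit 40, nat_lit 80, nat_lit 13, nat_lit 317, nat_lit 100, nat_lit 9]⟩,
 zbF0, [⟨nat_lit 0, nat_lit 100, nat_lit 100, nat_lit 100, nat_lit 406651462⟩, ⟨nat_lit 4, nat_lit 100, nat_lit 92, nat_lit 75, nat_lit 453393681⟩]⟩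
noncomputable def p067_l72 : Lf2 := ⟨nat_lit 0, nat_lit 10, [nat_lit 0, nat_lit 5, nat_lit 5, nat_lit 20], false, nat_lit 160, nat_lit 268, nat_lit 160, nat_lit 276, ⟨nat_lit 1000, nat_lit 0, nat_lit 0, nat_lit 0, nat_lit 0, nat_lit 0, nat_lit 0, nat_lit 0, nat_lit 0, nat_lit 0, nat_lit 0, nat_lit 0, nat_lit 0, nat_lit 0, nat_lit 0, nat_lit 0, false, false⟩,
 nat_lit 0, nat_lit 10293, nat_lit 0, nat_lit 0, nat_lit 6835, nat_lit 5443, nat_lit 3517, nat_lit 0, nat_lit 0, nat_lit 0, nat_lit 0, nat_lit 0, nat_lit 0, nat_lit 7770936341922, nat_lit 0, nat_lit 0, nat_lit 0, nat_lit 0, [],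
 ⟨p067_k7, nat_lit 0, nat_lit 0, nat_lit 514, nat_lit 0, nat_lit 967126, [nat_lit 3282000000, nat_lit 6250000000, nat_lit 7968000000], [], [nat_lit 17478380592, nat_lit 17697934265, nat_lit 17159359000, nat_lit 17374160280, nat_lit 19893892349, nat_lit 20076289014, nat_lit 22387999088, nat_lit 21600830764], nat_lit 1271250, nat_lit 1271250, nat_lit 435600, nat_lit 780000, nat_lit 1100001, nat_lit 2024750, [nat_lit 780000, nat_lit 1435000, nat_lit 1271250], [nat_lit 18, nat_lit 40, nat_lit 40, nat_lit 80, nat_lit 2, nat_lit 317, nat_lit 100, nat_lit 10]⟩, ⟨p067_k0, nat_lit 0, nat_lit 0, nat_lit 50, nat_lit 0, nat_lit 0, [nat_lit 3282000000, nat_lit 6250000000, nat_lit 9842000000], [], [nat_lit 11843333143, nat_lit 13362157636, nat_lit 11969442656, nat_lit 13397414303, nat_lit 18696784587, nat_lit 19987853606, nat_lit 18247669972, nat_lit 19467815877], nat_lit 0, nat_lit 0, nat_lit 0, nat_lit 0, nat_lit 0, nat_lit 0,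 [], [nat_lit 8, nat_lit 40, nat_lit 40, nat_lit 80, nat_lit 1, nat_lit 317, nat_lit 100, nat_lit 9]⟩,
 zbF0, [⟨nat_lit 0, nat_lit 100, nat_lit 100, nat_lit 95, nat_lit 412486539⟩, ⟨nat_lit 4, nat_lit 100, nat_lit 91, nat_lit 68, nat_lit 520256252⟩, ⟨nat_lit 7, nat_lit 100, nat_lit 93, nat_lit 69, nat_lit 745328536⟩]⟩
noncomputable def p067_l73 : Lf2 := ⟨nat_lit 0, nat_lit 10, [nat_lit 0, nat_lit 5, nat_lit 5, nat_lit 20], false, nat_lit 160, nat_lit 260, nat_lit 160, nat_lit 276, ⟨nat_lit 1000, nat_lit 0, nat_lit 0, nat_lit 0, nat_lit 0, nat_lit 0, nat_lit 0, nat_lit 0, nat_lit 0, nat_lit 0, nat_lit 0, nat_lit 0, nat_lit 0, nat_lit 0, nat_lit 0, nat_lit 0, false, false⟩,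
 nat_lit 0, nat_lit 9931, nat_lit 0, nat_lit 0, nat_lit 6734, nat_lit 5265, nat_lit 3345, nat_lit 0, nat_lit 0, nat_lit 0, nat_lit 0, nat_lit 0, nat_lit 0, nat_lit 0, nat_lit 0, nat_lit 0, nat_lit 0, nat_lit 0, [],
 ⟨p067_k12, nat_lit 0, nat_lit 0, nat_lit 539, nat_lit 0, nat_lit 1030248, [nat_lit 3282000000, nat_lit 6250000000, nat_lit 7968000000], [], [nat_lit 16376665959, nat_lit 16676708403, nat_lit 16367529706, nat_lit 16649816880, nat_lit 19437010352, nat_lit 19680938549, nat_lit 19493296699, nat_lit 19446379817], nat_lit 1271250, nat_lit 1271250, nat_lit 462650, nat_lit 780000, nat_lit 1100001, nat_lit 1956250, [nat_lit 780000, nat_lit 1435000, nat_lit 1271250], [nat_lit 18, nat_lit 40, nat_lit 40, nat_lit 80, nat_lit 2, nat_lit 317, nat_lit 100, nat_lit 10]⟩, ⟨p067_k0, nat_lit 0, nat_lit 0, nat_lit 50, nat_lit 0, nat_lit 0, [nat_lit 3282000000, nat_lit 6250000000, nat_lit 9842000000], [], [nat_lit 11989227446,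 nat_lit 13965441812, nat_lit 12210206880, nat_lit 14076402460, nat_lit 18507875395, nat_lit 20190955154, nat_lit 18399574461, nat_lit 19837386915], nat_lit 0, nat_lit 0, nat_lit 0, nat_lit 0, nat_lit 0, nat_lit 0, [], [nat_lit 8, nat_lit 40, nat_lit 40, nat_lit 80, nat_lit 1, nat_lit 317, nat_lit 100, nat_lit 9]⟩,
 zbF0, [⟨nat_lit 0, nat_lit 100, nat_lit 98, nat_lit 93, nat_lit 617448707⟩, ⟨nat_lit 16, nat_lit 92, nat_lit 100, nat_lit 75, nat_lit 521878640⟩, ⟨nat_lit 19, nat_lit 99, nat_lit 100, nat_lit 77, nat_lit 65798245⟩, ⟨nat_lit 7, nat_lit 100, nat_lit 92, nat_lit 68, nat_lit 662081998⟩]⟩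
noncomputable def p067_l74 : Lf2 := ⟨nat_lit 0, nat_lit 10, [nat_lit 0, nat_lit 5, nat_lit 5, nat_lit 20], false, nat_lit 160, nat_lit 268, nat_lit 160, nat_lit 276, ⟨nat_lit 1000, nat_lit 0, nat_lit 0, nat_lit 0, nat_lit 0, nat_lit 0, nat_lit 0, nat_lit 0, nat_lit 0, nat_lit 0, nat_lit 0, nat_lit 0, nat_lit 0, nat_lit 0, nat_lit 0, nat_lit 0, false, false⟩,
 nat_lit 0, nat_lit 10154, nat_lit 0, nat_lit 0, nat_lit 6743, nat_lit 5790, nat_lit 3592, nat_lit 0, nat_lit 0, nat_lit 0, nat_lit 0, nat_lit 0, nat_lit 0, nat_lit 22767016330997, nat_lit 0, nat_lit 0, nat_lit 0, nat_lit 0, [],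
 ⟨p067_k7, nat_lit 0, nat_lit 0, nat_lit 531, nat_lit 0, nat_lit 1060802, [nat_lit 3282000000, nat_lit 6250000000, nat_lit 7968000000], [], [nat_lit 20955717297, nat_lit 19225942250, nat_lit 18925216568, nat_lit 19265512176, nat_lit 19689306651, nat_lit 20029032655, nat_lit 26871521019, nat_lit 25338662475], nat_lit 1271250, nat_lit 1271250, nat_lit 780000, nat_lit 1762500, nat_lit 1100001, nat_lit 2024750, [nat_lit 780000, nat_lit 1435000, nat_lit 1271250], [nat_lit 18, nat_lit 40, nat_lit 40, nat_lit 80, nat_lit 2, nat_lit 373, nat_lit 150, nat_lit 12]⟩, ⟨p067_k0, nat_lit 0, nat_lit 0, nat_lit 29, nat_lit 0, nat_lit 0, [nat_lit 3282000000, nat_lit 6250000000, nat_lit 9842000000], [], [nat_lit 11500087680, nat_lit 13477673560, nat_lit 16155896440, nat_lit 17901943320, nat_lit 18298894280, nat_lit 19985189433, nat_lit 21576736961, nat_lit 22915875693], nat_lit 0, nat_lit 0, nat_lit 0, nat_lit 0, nat_lit 0, nat_lit 0,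 [], [nat_lit 8, nat_lit 40, nat_lit 40, nat_lit 80, nat_lit 1, nat_lit 373, nat_lit 150, nat_lit 10]⟩,
 zbF0, [⟨nat_lit 4, nat_lit 100, nat_lit 90, nat_lit 68, nat_lit 406818559⟩, ⟨nat_lit 7, nat_lit 100, nat_lit 92, nat_lit 68, nat_lit 790127277⟩]⟩
noncomputable def p067_l75 : Lf2 := ⟨nat_lit 0, nat_lit 10, [nat_lit 0, nat_lit 5, nat_lit 5, nat_lit 20], false, nat_lit 160, nat_lit 240, nat_lit 160, nat_lit 300, ⟨nat_lit 1000, nat_lit 0, nat_lit 0, nat_lit 0, nat_lit 0, nat_lit 0, nat_lit 0, nat_lit 0, nat_lit 0, nat_lit 0, nat_lit 0, nat_lit 0, nat_lit 0, nat_lit 0, nat_lit 0, nat_lit 0, false, false⟩,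
 nat_lit 0, nat_lit 10101, nat_lit 0, nat_lit 0, nat_lit 6708, nat_lit 4935, nat_lit 3541, nat_lit 0, nat_lit 0, nat_lit 0, nat_lit 0, nat_lit 0, nat_lit 0, nat_lit 0, nat_lit 0, nat_lit 0, nat_lit 0, nat_lit 0, [],
 ⟨p067_k18, nat_lit 0, nat_lit 0, nat_lit 466, nat_lit 0, nat_lit 877178, [nat_lit 3282000000, nat_lit 4688000000, nat_lit 7968000000], [], [nat_lit 22112091111, nat_lit 20386116003, nat_lit 17666959301, nat_lit 18090647193, nat_lit 17665301110, nat_lit 18146796677, nat_lit 26435401361, nat_lit 24916683329], nat_lit 1271250, nat_lit 1271250, nat_lit 435600, nat_lit 1735500, nat_lit 1100001, nat_lit 1785000, [nat_lit 780000, nat_lit 1100000, nat_lit 1785000], [nat_lit 36, nat_lit 40, nat_lit 40, nat_lit 80, nat_lit 7, nat_lit 345, nat_lit 125, nat_lit 11]⟩, ⟨p067_k10, nat_lit 0, nat_lit 0, nat_lit 53, nat_lit 0, nat_lit 0, [nat_lit 3282000000, nat_lit 4688000000, nat_lit 9842000000], [], [nat_lit 12436922608,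 nat_lit 14345491407, nat_lit 17083612240, nat_lit 18513793920, nat_lit 20446707432, nat_lit 21821876316, nat_lit 23037126930, nat_lit 24085581095], nat_lit 0, nat_lit 0, nat_lit 0, nat_lit 0, nat_lit 0, nat_lit 0, [], [nat_lit 42, nat_lit 40, nat_lit 40, nat_lit 80, nat_lit 13, nat_lit 373, nat_lit 150, nat_lit 10]⟩,
 zbF0, [⟨nat_lit 0, nat_lit 100, nat_lit 99, nat_lit 92, nat_lit 201644634⟩, ⟨nat_lit 7, nat_lit 100, nat_lit 97, nat_lit 82, nat_lit 611824865⟩]⟩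
noncomputable def p067_l76 : Lf2 := ⟨nat_lit 0, nat_lit 5, [nat_lit 4, nat_lit 5, nat_lit 5, nat_lit 20], false, nat_lit 240, nat_lit 292, nat_lit 160, nat_lit 300, ⟨nat_lit 402, nat_lit 598, nat_lit 0, nat_lit 7, nat_lit 205, nat_lit 598, nat_lit 192, nat_lit 0, nat_lit 0, nat_lit 0, nat_lit 0, nat_lit 0, nat_lit 0, nat_lit 0, nat_lit 0, nat_lit 5000000, false, false⟩,
 nat_lit 0, nat_lit 8071, nat_lit 0, nat_lit 0, nat_lit 5360, nat_lit 1995, nat_lit 2651, nat_lit 0, nat_lit 0, nat_lit 0, nat_lit 0, nat_lit 0, nat_lit 0, nat_lit 28875677213214, nat_lit 0, nat_lit 598000, nat_lit 0, nat_lit 0, [(nat_lit 12, [(nat_lit 2, nat_lit 598)])],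
 ⟨p067_k19, nat_lit 0, nat_lit 0, nat_lit 346, nat_lit 0, nat_lit 759886, [nat_lit 2511154080, nat_lit 3276624320, nat_lit 3490828000], [], [nat_lit 18664718696, nat_lit 18910407123, nat_lit 20909446720, nat_lit 21108652880, nat_lit 20924212878, nat_lit 21155632743, nat_lit 23075009532, nat_lit 23382640098], nat_lit 1271250, nat_lit 1271250, nat_lit 435600, nat_lit 1735500, nat_lit 1271250, nat_lit 1271250, [nat_lit 780000, nat_lit 1100000, nat_lit 1442500], [nat_lit 59, nat_lit 40, nat_lit 40, nat_lit 80, nat_lit 3, nat_lit 272, nat_lit 60, nat_lit 9]⟩, ⟨p067_k1, nat_lit 0, nat_lit 0, nat_lit 51, nat_lit 0, nat_lit 0, [nat_lit 1319364000, nat_lit 1884576000, nat_lit 3203136000], [], [nat_lit 4986637671, nat_lit 5563986003, nat_lit 6854909496, nat_lit 7287399195, nat_lit 8214558396, nat_lit 8630376644, nat_lit 9252783186, nat_lit 9569680614], nat_lit 0, nat_lit 0, nat_lit 0, nat_lit 0, nat_lit 0, nat_lit 0, [], [nat_lit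 36, nat_lit 40, nat_lit 40, nat_lit 80, nat_lit 7, nat_lit 373, nat_lit 150, nat_lit 12]⟩,
 ⟨nat_lit 5123, nat_lit 5245, ⟨.ofNat (nat_lit 351393), .ofNat (nat_lit 658709), .ofNat (nat_lit 367431), .ofNat (nat_lit 674748), .ofNat (nat_lit 354266), .ofNat (nat_lit 657914), .ofNat (nat_lit 370319), .ofNat (nat_lit 673968)⟩, ⟨.ofNat (nat_lit 423472), .ofNat (nat_lit 518594), .ofNat (nat_lit 444857), .ofNat (nat_lit 539979), .ofNat (nat_lit 422461), .ofNat (nat_lit 516448), .ofNat (nat_lit 443866), .ofNat (nat_lit 537853)⟩⟩, [⟨nat_lit 0, nat_lit 100, nat_lit 100, nat_lit 95, nat_lit 89102964⟩, ⟨nat_lit 4, nat_lit 100, nat_lit 96, nat_lit 82, nat_lit 465072634⟩, ⟨nat_lit 7, nat_lit 100, nat_lit 98, nat_lit 83, nat_lit 243089553⟩]⟩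
noncomputable def p067_l77 : Lf2 := ⟨nat_lit 0, nat_lit 5, [nat_lit 4, nat_lit 5, nat_lit 5, nat_lit 20], false, nat_lit 240, nat_lit 284, nat_lit 160, nat_lit 300, ⟨nat_lit 1000, nat_lit 0, nat_lit 0, nat_lit 0, nat_lit 0, nat_lit 0, nat_lit 0, nat_lit 0, nat_lit 0, nat_lit 0, nat_lit 0, nat_lit 0, nat_lit 0, nat_lit 0, nat_lit 0, nat_lit 0, false, false⟩,
 nat_lit 0, nat_lit 9294, nat_lit 0, nat_lit 0, nat_lit 6302, nat_lit 4962, nat_lit 2551, nat_lit 0, nat_lit 0, nat_lit 0, nat_lit 0, nat_lit 0, nat_lit 0, nat_lit 1744809774173, nat_lit 0, nat_lit 0, nat_lit 0, nat_lit 0, [],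
 ⟨p067_k20, nat_lit 0, nat_lit 0, nat_lit 367, nat_lit 0, nat_lit 825997, [nat_lit 3282000000, nat_lit 4688000000, nat_lit 6250000000], [], [nat_lit 19164022091, nat_lit 19428631169, nat_lit 21188022836, nat_lit 21400987848, nat_lit 21179631021, nat_lit 21433090404, nat_lit 23204285179, nat_lit 23546594297], nat_lit 1271250, nat_lit 1271250, nat_lit 462650, nat_lit 1737750, nat_lit 1271250, nat_lit 1271250, [nat_lit 780000, nat_lit 1100000, nat_lit 1442500], [nat_lit 59, nat_lit 40, nat_lit 40, nat_lit 80, nat_lit 3, nat_lit 272, nat_lit 60, nat_lit 9]⟩, ⟨p067_k1, nat_lit 0, nat_lit 0, nat_lit 51, nat_lit 0, nat_lit 0, [nat_lit 3282000000, nat_lit 4688000000, nat_lit 7968000000], [], [nat_lit 12351640777, nat_lit 14258697090, nat_lit 17052797248, nat_lit 18487151184, nat_lit 20355307383, nat_lit 21729364912, nat_lit 23017375836, nat_lit 24068380394], nat_lit 0, nat_lit 0, nat_lit 0, nat_lit 0, nat_lit 0, nat_lit 0,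 [], [nat_lit 36, nat_lit 40, nat_lit 40, nat_lit 80, nat_lit 7, nat_lit 373, nat_lit 150, nat_lit 12]⟩,
 zbF0, [⟨nat_lit 0, nat_lit 100, nat_lit 100, nat_lit 100, nat_lit 336326925⟩, ⟨nat_lit 16, nat_lit 97, nat_lit 100, nat_lit 88, nat_lit 542429223⟩, ⟨nat_lit 7, nat_lit 100, nat_lit 97, nat_lit 82, nat_lit 611571668⟩]⟩
noncomputable def p067_l78 : Lf2 := ⟨nat_lit 0, nat_lit 10, [nat_lit 0, nat_lit 5, nat_lit 5, nat_lit 20], false, nat_lit 240, nat_lit 292, nat_lit 160, nat_lit 300, ⟨nat_lit 1000, nat_lit 0, nat_lit 0, nat_lit 0, nat_lit 0, nat_lit 0, nat_lit 0, nat_lit 0, nat_lit 0, nat_lit 0, nat_lit 0, nat_lit 0, nat_lit 0, nat_lit 0, nat_lit 0, nat_lit 0, false, false⟩,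
 nat_lit 0, nat_lit 9580, nat_lit 0, nat_lit 0, nat_lit 6362, nat_lit 4935, nat_lit 1587, nat_lit 0, nat_lit 0, nat_lit 0, nat_lit 0, nat_lit 0, nat_lit 0, nat_lit 0, nat_lit 0, nat_lit 0, nat_lit 0, nat_lit 0, [],
 ⟨p067_k18, nat_lit 0, nat_lit 0, nat_lit 293, nat_lit 0, nat_lit 535927, [nat_lit 3282000000, nat_lit 4688000000, nat_lit 7968000000], [], [nat_lit 19310203328, nat_lit 19859019628, nat_lit 21091655904, nat_lit 21575071314, nat_lit 21744904938, nat_lit 22284701853, nat_lit 23380955152, nat_lit 24052904384], nat_lit 1271250, nat_lit 1271250, nat_lit 435600, nat_lit 1735500, nat_lit 1271250, nat_lit 1271250, [nat_lit 780000, nat_lit 1100000, nat_lit 1785000], [nat_lit 36, nat_lit 40, nat_lit 40, nat_lit 80, nat_lit 7, nat_lit 272, nat_lit 60, nat_lit 8]⟩, ⟨p067_k10, nat_lit 0, nat_lit 0, nat_lit 53, nat_lit 0, nat_lit 0, [nat_lit 3282000000, nat_lit 4688000000, nat_lit 9842000000], [], [nat_lit 12436922608,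 nat_lit 14345491407, nat_lit 17083612240, nat_lit 18513793920, nat_lit 20446707432, nat_lit 21821876316, nat_lit 23037126930, nat_lit 24085581095], nat_lit 0, nat_lit 0, nat_lit 0, nat_lit 0, nat_lit 0, nat_lit 0, [], [nat_lit 42, nat_lit 40, nat_lit 40, nat_lit 80, nat_lit 13, nat_lit 373, nat_lit 150, nat_lit 10]⟩,
 zbF0, [⟨nat_lit 0, nat_lit 100, nat_lit 100, nat_lit 100, nat_lit 411277602⟩, ⟨nat_lit 16, nat_lit 100, nat_lit 100, nat_lit 89, nat_lit 528577589⟩, ⟨nat_lit 7, nat_lit 100, nat_lit 97, nat_lit 82, nat_lit 526302654⟩]⟩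
noncomputable def b_V_700_700_10_21 : St := ⟨true, nat_lit 1, nat_lit 0, nat_lit 2, nat_lit 80, nat_lit 290, nat_lit 300, nat_lit 280, nat_lit 300, nat_lit 64, nat_lit 240, nat_lit 40, nat_lit 80, nat_lit 160, nat_lit 300, nat_lit 0, nat_lit 300, nat_lit 0, nat_lit 40, nat_lit 0, nat_lit 0, nat_lit 0, nat_lit 0⟩
theorem d_V_700_700_10_21 (h : EB TB.env) : Dead b_V_700_700_10_21 := chkB_sound0 h (T :=
(.trZ (nat_lit 0) (nat_lit 100) (nat_lit 97) (nat_lit 84) (nat_lit 72) (.trX (nat_lit 16) (nat_lit 100) (nat_lit 100) (nat_lit 89) (nat_lit 292) (.spl (nat_lit 5) (nat_lit 160)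
(.leaf p067_l71)
(.spl (nat_lit 3) (nat_lit 60)
(.trX (nat_lit 16) (nat_lit 94) (nat_lit 100) (nat_lit 75) (nat_lit 268) (.trX (nat_lit 19) (nat_lit 99) (nat_lit 100) (nat_lit 77) (nat_lit 276) (.spl (nat_lit 2) (nat_lit 120)
(.spl (nat_lit 0) (nat_lit 295)
(.ord (.leaf p067_l72))
(.trZ (nat_lit 0) (nat_lit 100) (nat_lit 96) (nat_lit 86) (nat_lit 76) (.trX (nat_lit 16) (nat_lit 92) (nat_lit 100) (nat_lit 75) (nat_lit 260) (.leaf p067_l73))))
(.leaf p067_l74))))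
(.spl (nat_lit 4) (nat_lit 240)
(.leaf p067_l75)
(.spl (nat_lit 6) (nat_lit 20)
(.spl (nat_lit 0) (nat_lit 295)
(.ord (.leaf p067_l76))
(.trZ (nat_lit 0) (nat_lit 100) (nat_lit 96) (nat_lit 86) (nat_lit 76) (.trX (nat_lit 16) (nat_lit 97) (nat_lit 100) (nat_lit 88) (nat_lit 284) (.leaf p067_l77))))
(.leaf p067_l78)))))))) (by decide +kernel)
noncomputable def p067_l79 : Lf2 := ⟨nat_lit 0, nat_lit 10, [nat_lit 0, nat_lit 5, nat_lit 5, nat_lit 20], false, nat_lit 0, nat_lit 276, nat_lit 0, nat_lit 276, ⟨nat_lit 1000, nat_lit 0, nat_lit 0, nat_lit 0, nat_lit 0, nat_lit 0, nat_lit 0, nat_lit 0, nat_lit 0, nat_lit 0, nat_lit 0, nat_lit 0, nat_lit 0, nat_lit 0, nat_lit 0, nat_lit 0, false, false⟩,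
 nat_lit 0, nat_lit 10224, nat_lit 0, nat_lit 0, nat_lit 6506, nat_lit 6959, nat_lit 1250, nat_lit 0, nat_lit 0, nat_lit 2348, nat_lit 0, nat_lit 0, nat_lit 0, nat_lit 0, nat_lit 0, nat_lit 0, nat_lit 0, nat_lit 0, [],
 ⟨p067_k10, nat_lit 0, nat_lit 0, nat_lit 601, nat_lit 0, nat_lit 928710, [nat_lit 3282000000, nat_lit 4688000000, nat_lit 9842000000], [], [nat_lit 30473600226, nat_lit 30775231576, nat_lit 37042615696, nat_lit 37650993906, nat_lit 28864373460, nat_lit 29052820952, nat_lit 32684376702, nat_lit 32832870898], nat_lit 1271250, nat_lit 1271250, nat_lit 1271250, nat_lit 1271250, nat_lit 0, nat_lit 1949250, [nat_lit 780000, nat_lit 1100000, nat_lit 2127500], [nat_lit 42, nat_lit 40, nat_lit 40, nat_lit 80, nat_lit 13, nat_lit 401, nat_lit 175, nat_lit 11]⟩, ⟨p067_k10, nat_lit 0, nat_lit 0, nat_lit 206, nat_lit 0, nat_lit 0, [nat_lit 3282000000, nat_lit 4688000000, nat_lit 9842000000], [], [nat_lit 21431454580,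 nat_lit 22355444697, nat_lit 38227942744, nat_lit 38856835059, nat_lit 22321330210, nat_lit 22840731844, nat_lit 32897681823, nat_lit 33319005619], nat_lit 0, nat_lit 0, nat_lit 0, nat_lit 0, nat_lit 0, nat_lit 0, [], [nat_lit 42, nat_lit 40, nat_lit 40, nat_lit 80, nat_lit 13, nat_lit 401, nat_lit 175, nat_lit 11]⟩,
 zbF0, [⟨nat_lit 4, nat_lit 100, nat_lit 94, nat_lit 69, nat_lit 134794361⟩, ⟨nat_lit 19, nat_lit 94, nat_lit 100, nat_lit 69, nat_lit 114767021⟩]⟩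
noncomputable def p067_l80 : Lf2 := ⟨nat_lit 0, nat_lit 10, [nat_lit 0, nat_lit 5, nat_lit 5, nat_lit 20], false, nat_lit 0, nat_lit 300, nat_lit 0, nat_lit 300, ⟨nat_lit 1000, nat_lit 0, nat_lit 0, nat_lit 0, nat_lit 0, nat_lit 0, nat_lit 0, nat_lit 0, nat_lit 0, nat_lit 0, nat_lit 0, nat_lit 0, nat_lit 0, nat_lit 0, nat_lit 0, nat_lit 0, false, false⟩,
 nat_lit 0, nat_lit 9769, nat_lit 0, nat_lit 0, nat_lit 6216, nat_lit 6872, nat_lit 1303, nat_lit 0, nat_lit 0, nat_lit 1557, nat_lit 0, nat_lit 0, nat_lit 0, nat_lit 0, nat_lit 0, nat_lit 0, nat_lit 0, nat_lit 0, [],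
 ⟨p067_k10, nat_lit 0, nat_lit 0, nat_lit 500, nat_lit 0, nat_lit 734839, [nat_lit 3282000000, nat_lit 4688000000, nat_lit 9842000000], [], [nat_lit 29365891375, nat_lit 29726109687, nat_lit 36283797056, nat_lit 36879042616, nat_lit 28846958175, nat_lit 29065298686, nat_lit 33166249040, nat_lit 33350737890], nat_lit 1271250, nat_lit 1271250, nat_lit 1271250, nat_lit 1271250, nat_lit 0, nat_lit 2118750, [nat_lit 780000, nat_lit 1100000, nat_lit 2127500], [nat_lit 42, nat_lit 40, nat_lit 40, nat_lit 80, nat_lit 13, nat_lit 401, nat_lit 175, nat_lit 11]⟩, ⟨p067_k10, nat_lit 0, nat_lit 0, nat_lit 206, nat_lit 0, nat_lit 0, [nat_lit 3282000000, nat_lit 4688000000, nat_lit 9842000000], [], [nat_lit 23899206045, nat_lit 24627008069, nat_lit 38000297152, nat_lit 38625249672, nat_lit 23625696280, nat_lit 24108117726, nat_lit 33690175408, nat_lit 34079253830], nat_lit 0, nat_lit 0, nat_lit 0, nat_lit 0, nat_lit 0, nat_lit 0,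 [], [nat_lit 42, nat_lit 40, nat_lit 40, nat_lit 80, nat_lit 13, nat_lit 401, nat_lit 175, nat_lit 11]⟩,
 zbF0, [⟨nat_lit 16, nat_lit 99, nat_lit 100, nat_lit 83, nat_lit 148198790⟩, ⟨nat_lit 7, nat_lit 100, nat_lit 99, nat_lit 83, nat_lit 127580869⟩]⟩
noncomputable def p067_l81 : Lf2 := ⟨nat_lit 0, nat_lit 10, [nat_lit 0, nat_lit 5, nat_lit 5, nat_lit 20], false, nat_lit 0, nat_lit 292, nat_lit 0, nat_lit 300, ⟨nat_lit 1000, nat_lit 0, nat_lit 0, nat_lit 0, nat_lit 0, nat_lit 0, nat_lit 0, nat_lit 0, nat_lit 0, nat_lit 0, nat_lit 0, nat_lit 0, nat_lit 0, nat_lit 0, nat_lit 0, nat_lit 0, false, false⟩,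
 nat_lit 0, nat_lit 9864, nat_lit 0, nat_lit 0, nat_lit 6550, nat_lit 7898, nat_lit 2622, nat_lit 0, nat_lit 0, nat_lit 938, nat_lit 0, nat_lit 0, nat_lit 0, nat_lit 0, nat_lit 0, nat_lit 0, nat_lit 0, nat_lit 0, [],
 ⟨p067_k7, nat_lit 0, nat_lit 0, nat_lit 565, nat_lit 0, nat_lit 997710, [nat_lit 3282000000, nat_lit 6250000000, nat_lit 7968000000], [], [nat_lit 26623725150, nat_lit 26757311475, nat_lit 29020088100, nat_lit 29451169050, nat_lit 24767576590, nat_lit 24845751965, nat_lit 27812083886, nat_lit 28082004648], nat_lit 1271250, nat_lit 1271250, nat_lit 1271250, nat_lit 1271250, nat_lit 0, nat_lit 2062250, [nat_lit 780000, nat_lit 1435000, nat_lit 1271250], [nat_lit 18, nat_lit 40, nat_lit 40, nat_lit 80, nat_lit 2, nat_lit 289, nat_lit 75, nat_lit 9]⟩, ⟨p067_k0, nat_lit 0, nat_lit 0, nat_lit 185, nat_lit 0, nat_lit 0, [nat_lit 3282000000, nat_lit 6250000000, nat_lit 9842000000], [], [nat_lit 25821573530, nat_lit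 27005411879, nat_lit 30998281074, nat_lit 31922586018, nat_lit 24552957000, nat_lit 25248945326, nat_lit 28500208392, nat_lit 29365253120], nat_lit 0, nat_lit 0, nat_lit 0, nat_lit 0, nat_lit 0, nat_lit 0, [], [nat_lit 8, nat_lit 40, nat_lit 40, nat_lit 80, nat_lit 1, nat_lit 401, nat_lit 175, nat_lit 11]⟩,
 zbF0, [⟨nat_lit 4, nat_lit 100, nat_lit 93, nat_lit 75, nat_lit 209212612⟩, ⟨nat_lit 7, nat_lit 100, nat_lit 95, nat_lit 76, nat_lit 191166776⟩]⟩
noncomputable def p067_l82 : Lf2 := ⟨nat_lit 0, nat_lit 10, [nat_lit 0, nat_lit 5, nat_lit 5, nat_lit 20], false, nat_lit 0, nat_lit 284, nat_lit 0, nat_lit 300, ⟨nat_lit 1000, nat_lit 0, nat_lit 0, nat_lit 0, nat_lit 0, nat_lit 0, nat_lit 0, nat_lit 0, nat_lit 0, nat_lit 0, nat_lit 0, nat_lit 0, nat_lit 0, nat_lit 0, nat_lit 0, nat_lit 0, false, false⟩,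
 nat_lit 0, nat_lit 8948, nat_lit 0, nat_lit 0, nat_lit 6068, nat_lit 8211, nat_lit 2269, nat_lit 0, nat_lit 0, nat_lit 932, nat_lit 0, nat_lit 0, nat_lit 0, nat_lit 18749141360078, nat_lit 0, nat_lit 0, nat_lit 0, nat_lit 0, [],
 ⟨p067_k12, nat_lit 0, nat_lit 0, nat_lit 604, nat_lit 0, nat_lit 1062413, [nat_lit 3282000000, nat_lit 6250000000, nat_lit 7968000000], [], [nat_lit 26131577381, nat_lit 26284053747, nat_lit 28568101188, nat_lit 28980505120, nat_lit 25745678665, nat_lit 25873044461, nat_lit 27599091196, nat_lit 27718672344], nat_lit 1271250, nat_lit 1271250, nat_lit 1271250, nat_lit 1271250, nat_lit 0, nat_lit 2005750, [nat_lit 780000, nat_lit 1435000, nat_lit 1271250], [nat_lit 18, nat_lit 40, nat_lit 40, nat_lit 80, nat_lit 2, nat_lit 289, nat_lit 75, nat_lit 9]⟩, ⟨p067_k0, nat_lit 0, nat_lit 0, nat_lit 187, nat_lit 0, nat_lit 0, [nat_lit 3282000000, nat_lit 6250000000, nat_lit 9842000000], [], [nat_lit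 25909364960, nat_lit 27525292834, nat_lit 31196507668, nat_lit 32989715240, nat_lit 24337769125, nat_lit 25282149438, nat_lit 28689918944, nat_lit 29866478609], nat_lit 0, nat_lit 0, nat_lit 0, nat_lit 0, nat_lit 0, nat_lit 0, [], [nat_lit 8, nat_lit 40, nat_lit 40, nat_lit 80, nat_lit 1, nat_lit 401, nat_lit 175, nat_lit 11]⟩,
 zbF0, [⟨nat_lit 16, nat_lit 91, nat_lit 100, nat_lit 74, nat_lit 229395431⟩, ⟨nat_lit 7, nat_lit 100, nat_lit 94, nat_lit 75, nat_lit 202352904⟩]⟩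
noncomputable def p067_l83 : Lf2 := ⟨nat_lit 0, nat_lit 10, [nat_lit 0, nat_lit 5, nat_lit 5, nat_lit 20], false, nat_lit 0, nat_lit 292, nat_lit 0, nat_lit 300, ⟨nat_lit 1000, nat_lit 0, nat_lit 0, nat_lit 0, nat_lit 0, nat_lit 0, nat_lit 0, nat_lit 0, nat_lit 0, nat_lit 0, nat_lit 0, nat_lit 0, nat_lit 0, nat_lit 0, nat_lit 0, nat_lit 0, false, false⟩,
 nat_lit 0, nat_lit 8941, nat_lit 0, nat_lit 0, nat_lit 5937, nat_lit 6249, nat_lit 2365, nat_lit 0, nat_lit 0, nat_lit 828, nat_lit 0, nat_lit 0, nat_lit 0, nat_lit 14375122778527, nat_lit 0, nat_lit 0, nat_lit 0, nat_lit 0, [],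
 ⟨p067_k7, nat_lit 0, nat_lit 0, nat_lit 568, nat_lit 0, nat_lit 997710, [nat_lit 3282000000, nat_lit 6250000000, nat_lit 7968000000], [], [nat_lit 32370161753, nat_lit 32476436411, nat_lit 36136372237, nat_lit 36427677760, nat_lit 30393398900, nat_lit 30455982383, nat_lit 32764038914, nat_lit 32954245621], nat_lit 1271250, nat_lit 1271250, nat_lit 1271250, nat_lit 1271250, nat_lit 0, nat_lit 2062250, [nat_lit 780000, nat_lit 1435000, nat_lit 1271250], [nat_lit 18, nat_lit 40, nat_lit 40, nat_lit 80, nat_lit 2, nat_lit 289, nat_lit 75, nat_lit 9]⟩, ⟨p067_k0, nat_lit 0, nat_lit 0, nat_lit 216, nat_lit 0, nat_lit 0, [nat_lit 3282000000, nat_lit 6250000000, nat_lit 9842000000], [], [nat_lit 30859812812, nat_lit 31682080934, nat_lit 36662821292, nat_lit 37265828720, nat_lit 29343540067, nat_lit 29847353712, nat_lit 33629006788, nat_lit 34083386784], nat_lit 0, nat_lit 0, nat_lit 0, nat_lit 0, nat_lit 0, nat_lit 0, [], [nat_lit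 8, nat_lit 40, nat_lit 40, nat_lit 80, nat_lit 1, nat_lit 289, nat_lit 75, nat_lit 8]⟩,
 zbF0, [⟨nat_lit 16, nat_lit 93, nat_lit 100, nat_lit 75, nat_lit 170859997⟩, ⟨nat_lit 7, nat_lit 100, nat_lit 95, nat_lit 76, nat_lit 176707923⟩]⟩
noncomputable def p067_l84 : Lf2 := ⟨nat_lit 0, nat_lit 10, [nat_lit 0, nat_lit 5, nat_lit 5, nat_lit 20], false, nat_lit 0, nat_lit 284, nat_lit 0, nat_lit 300, ⟨nat_lit 1000, nat_lit 0, nat_lit 0, nat_lit 0, nat_lit 0, nat_lit 0, nat_lit 0, nat_lit 0, nat_lit 0, nat_lit 0, nat_lit 0, nat_lit 0, nat_lit 0, nat_lit 0, nat_lit 0, nat_lit 0, false, false⟩,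
 nat_lit 0, nat_lit 8348, nat_lit 0, nat_lit 0, nat_lit 5661, nat_lit 6046, nat_lit 2098, nat_lit 0, nat_lit 0, nat_lit 864, nat_lit 0, nat_lit 0, nat_lit 0, nat_lit 0, nat_lit 0, nat_lit 0, nat_lit 0, nat_lit 0, [],
 ⟨p067_k12, nat_lit 0, nat_lit 0, nat_lit 602, nat_lit 0, nat_lit 1062413, [nat_lit 3282000000, nat_lit 6250000000, nat_lit 7968000000], [], [nat_lit 31483374477, nat_lit 31625361568, nat_lit 35686743754, nat_lit 35971799946, nat_lit 30948083984, nat_lit 31038596315, nat_lit 33103480263, nat_lit 33184326485], nat_lit 1271250, nat_lit 1271250, nat_lit 1271250, nat_lit 1271250, nat_lit 0, nat_lit 2005750, [nat_lit 780000, nat_lit 1435000, nat_lit 1271250], [nat_lit 18, nat_lit 40, nat_lit 40, nat_lit 80, nat_lit 2, nat_lit 289, nat_lit 75, nat_lit 9]⟩, ⟨p067_k0, nat_lit 0, nat_lit 0, nat_lit 217, nat_lit 0, nat_lit 0, [nat_lit 3282000000, nat_lit 6250000000, nat_lit 9842000000], [], [nat_lit 30525855648,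 nat_lit 31605464832, nat_lit 36221777568, nat_lit 37016835984, nat_lit 29372639142, nat_lit 30179618630, nat_lit 33695547752, nat_lit 34297022028], nat_lit 0, nat_lit 0, nat_lit 0, nat_lit 0, nat_lit 0, nat_lit 0, [], [nat_lit 8, nat_lit 40, nat_lit 40, nat_lit 80, nat_lit 1, nat_lit 289, nat_lit 75, nat_lit 8]⟩,
 zbF0, [⟨nat_lit 4, nat_lit 100, nat_lit 91, nat_lit 74, nat_lit 189494064⟩, ⟨nat_lit 7, nat_lit 100, nat_lit 94, nat_lit 75, nat_lit 201582512⟩]⟩
noncomputable def b_V_700_700_10_22 : St := ⟨true, nat_lit 1, nat_lit 0, nat_lit 2, nat_lit 80, nat_lit 280, nat_lit 300, nat_lit 280, nat_lit 300, nat_lit 240, nat_lit 400, nat_lit 40, nat_lit 80, nat_lit 0, nat_lit 300, nat_lit 0, nat_lit 300, nat_lit 0, nat_lit 40, nat_lit 0, nat_lit 0, nat_lit 0, nat_lit 0⟩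
theorem d_V_700_700_10_22 (h : EB TB.env) : Dead b_V_700_700_10_22 := chkB_sound0 h (T :=
(.spl (nat_lit 0) (nat_lit 290)
(.ord (.spl (nat_lit 3) (nat_lit 60)
(.trX (nat_lit 16) (nat_lit 99) (nat_lit 100) (nat_lit 77) (nat_lit 276) (.trX (nat_lit 19) (nat_lit 99) (nat_lit 100) (nat_lit 77) (nat_lit 276) (.leaf p067_l79)))
(.leaf p067_l80)))
(.trX (nat_lit 16) (nat_lit 100) (nat_lit 100) (nat_lit 89) (nat_lit 292) (.spl (nat_lit 2) (nat_lit 320)
(.spl (nat_lit 0) (nat_lit 295)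
(.ord (.leaf p067_l81))
(.trX (nat_lit 16) (nat_lit 97) (nat_lit 100) (nat_lit 88) (nat_lit 284) (.leaf p067_l82)))
(.spl (nat_lit 0) (nat_lit 295)
(.ord (.leaf p067_l83))
(.trX (nat_lit 16) (nat_lit 97) (nat_lit 100) (nat_lit 88) (nat_lit 284) (.leaf p067_l84))))))) (by decide +kernel)
noncomputable def p067_l85 : Lf2 := ⟨nat_lit 0, nat_lit 10, [nat_lit 0, nat_lit 5, nat_lit 5, nat_lit 20], false, nat_lit 0, nat_lit 160, nat_lit 0, nat_lit 160, ⟨nat_lit 1000, nat_lit 0, nat_lit 0, nat_lit 0, nat_lit 0, nat_lit 0, nat_lit 0, nat_lit 0, nat_lit 0, nat_lit 0, nat_lit 0, nat_lit 0, nat_lit 0, nat_lit 0, nat_lit 0, nat_lit 0, false, false⟩,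
 nat_lit 0, nat_lit 10577, nat_lit 0, nat_lit 0, nat_lit 7322, nat_lit 7413, nat_lit 2448, nat_lit 0, nat_lit 0, nat_lit 1450, nat_lit 0, nat_lit 0, nat_lit 0, nat_lit 43663740113967, nat_lit 0, nat_lit 0, nat_lit 0, nat_lit 0, [],
 ⟨p067_k8, nat_lit 0, nat_lit 0, nat_lit 731, nat_lit 0, nat_lit 1217556, [nat_lit 3282000000, nat_lit 6250000000, nat_lit 7968000000], [], [nat_lit 22783892692, nat_lit 21499631768, nat_lit 23969577204, nat_lit 25166991882, nat_lit 16341759984, nat_lit 16814825808, nat_lit 26994685636, nat_lit 25378917930], nat_lit 1271250, nat_lit 1271250, nat_lit 490000, nat_lit 1740000, nat_lit 0, nat_lit 1100001, [nat_lit 780000, nat_lit 1435000, nat_lit 1271250], [nat_lit 18, nat_lit 40, nat_lit 40, nat_lit 80, nat_lit 2, nat_lit 317, nat_lit 100, nat_lit 10]⟩, ⟨p067_k0, nat_lit 0, nat_lit 0, nat_lit 193, nat_lit 0, nat_lit 0, [nat_lit 3282000000, nat_lit 6250000000, nat_lit 9842000000], [], [nat_lit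 19830333210, nat_lit 22895283832, nat_lit 23500330596, nat_lit 26312633313, nat_lit 15042909956, nat_lit 18208053893, nat_lit 18949241840, nat_lit 21293517131], nat_lit 0, nat_lit 0, nat_lit 0, nat_lit 0, nat_lit 0, nat_lit 0, [], [nat_lit 8, nat_lit 40, nat_lit 40, nat_lit 80, nat_lit 1, nat_lit 317, nat_lit 100, nat_lit 9]⟩,
 zbF0, [⟨nat_lit 0, nat_lit 91, nat_lit 91, nat_lit 100, nat_lit 169237008⟩]⟩
noncomputable def p067_l86 : Lf2 := ⟨nat_lit 0, nat_lit 10, [nat_lit 0, nat_lit 5, nat_lit 5, nat_lit 20], false, nat_lit 0, nat_lit 160, nat_lit 0, nat_lit 160, ⟨nat_lit 1000, nat_lit 0, nat_lit 0, nat_lit 0, nat_lit 0, nat_lit 0, nat_lit 0, nat_lit 0, nat_lit 0, nat_lit 0, nat_lit 0, nat_lit 0, nat_lit 0, nat_lit 0, nat_lit 0, nat_lit 0, false, false⟩,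
 nat_lit 0, nat_lit 8588, nat_lit 0, nat_lit 0, nat_lit 6191, nat_lit 7254, nat_lit 1715, nat_lit 0, nat_lit 0, nat_lit 1394, nat_lit 0, nat_lit 0, nat_lit 0, nat_lit 23211015085246, nat_lit 0, nat_lit 0, nat_lit 0, nat_lit 0, [],
 ⟨p067_k21, nat_lit 0, nat_lit 0, nat_lit 773, nat_lit 0, nat_lit 1329536, [nat_lit 3282000000, nat_lit 6250000000, nat_lit 7968000000], [], [nat_lit 26028319995, nat_lit 26488428625, nat_lit 27759191723, nat_lit 28114210096, nat_lit 24857040459, nat_lit 25234486850, nat_lit 27718062540, nat_lit 26354296948], nat_lit 1271250, nat_lit 1271250, nat_lit 545600, nat_lit 1744500, nat_lit 0, nat_lit 1100001, [nat_lit 780000, nat_lit 1435000, nat_lit 1271250], [nat_lit 18, nat_lit 40, nat_lit 40, nat_lit 80, nat_lit 2, nat_lit 317, nat_lit 100, nat_lit 10]⟩, ⟨p067_k0, nat_lit 0, nat_lit 0, nat_lit 196, nat_lit 0, nat_lit 0, [nat_lit 3282000000, nat_lit 6250000000, nat_lit 9842000000], [], [nat_lit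 20016763794, nat_lit 24006073296, nat_lit 23523498168, nat_lit 27222353216, nat_lit 15203209951, nat_lit 19318613407, nat_lit 19136594720, nat_lit 22222056024], nat_lit 0, nat_lit 0, nat_lit 0, nat_lit 0, nat_lit 0, nat_lit 0, [], [nat_lit 8, nat_lit 40, nat_lit 40, nat_lit 80, nat_lit 1, nat_lit 317, nat_lit 100, nat_lit 9]⟩,
 zbF0, [⟨nat_lit 0, nat_lit 83, nat_lit 83, nat_lit 100, nat_lit 517308822⟩]⟩
noncomputable def p067_l87 : Lf2 := ⟨nat_lit 0, nat_lit 10, [nat_lit 0, nat_lit 5, nat_lit 5, nat_lit 20], false, nat_lit 160, nat_lit 280, nat_lit 0, nat_lit 160, ⟨nat_lit 1000, nat_lit 0, nat_lit 0, nat_lit 0, nat_lit 0, nat_lit 0, nat_lit 0, nat_lit 0, nat_lit 0, nat_lit 0, nat_lit 0, nat_lit 0, nat_lit 0, nat_lit 0, nat_lit 0, nat_lit 0, false, false⟩,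
 nat_lit 0, nat_lit 9827, nat_lit 0, nat_lit 0, nat_lit 6803, nat_lit 6660, nat_lit 1344, nat_lit 0, nat_lit 0, nat_lit 2252, nat_lit 0, nat_lit 0, nat_lit 0, nat_lit 33215724529138, nat_lit 0, nat_lit 0, nat_lit 0, nat_lit 0, [],
 ⟨p067_k9, nat_lit 0, nat_lit 0, nat_lit 626, nat_lit 0, nat_lit 1217556, [nat_lit 3282000000, nat_lit 4688000000, nat_lit 7968000000], [], [nat_lit 19799947890, nat_lit 20133814592, nat_lit 20522678274, nat_lit 20806175539, nat_lit 21904854652, nat_lit 22196027850, nat_lit 29881195233, nat_lit 28360462818], nat_lit 1271250, nat_lit 1271250, nat_lit 490000, nat_lit 1740000, nat_lit 1100001, nat_lit 2127500, [nat_lit 780000, nat_lit 1100000, nat_lit 1785000], [nat_lit 36, nat_lit 40, nat_lit 40, nat_lit 80, nat_lit 7, nat_lit 373, nat_lit 150, nat_lit 12]⟩, ⟨p067_k10, nat_lit 0, nat_lit 0, nat_lit 183, nat_lit 0, nat_lit 0, [nat_lit 3282000000, nat_lit 4688000000, nat_lit 9842000000], [], [nat_lit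 17616746700, nat_lit 20511369040, nat_lit 20887271440, nat_lit 24262050460, nat_lit 13415556540, nat_lit 15824559720, nat_lit 17102069200, nat_lit 19483653460], nat_lit 0, nat_lit 0, nat_lit 0, nat_lit 0, nat_lit 0, nat_lit 0, [], [nat_lit 42, nat_lit 40, nat_lit 40, nat_lit 80, nat_lit 13, nat_lit 317, nat_lit 100, nat_lit 9]⟩,
 zbF0, [⟨nat_lit 0, nat_lit 91, nat_lit 91, nat_lit 100, nat_lit 247234186⟩, ⟨nat_lit 4, nat_lit 100, nat_lit 88, nat_lit 74, nat_lit 461723855⟩]⟩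
noncomputable def p067_l88 : Lf2 := ⟨nat_lit 0, nat_lit 10, [nat_lit 0, nat_lit 5, nat_lit 5, nat_lit 20], false, nat_lit 160, nat_lit 268, nat_lit 0, nat_lit 160, ⟨nat_lit 1000, nat_lit 0, nat_lit 0, nat_lit 0, nat_lit 0, nat_lit 0, nat_lit 0, nat_lit 0, nat_lit 0, nat_lit 0, nat_lit 0, nat_lit 0, nat_lit 0, nat_lit 0, nat_lit 0, nat_lit 0, false, false⟩,
 nat_lit 0, nat_lit 9556, nat_lit 0, nat_lit 0, nat_lit 6889, nat_lit 6483, nat_lit 1324, nat_lit 0, nat_lit 0, nat_lit 2175, nat_lit 0, nat_lit 0, nat_lit 0, nat_lit 26037065846821, nat_lit 0, nat_lit 0, nat_lit 0, nat_lit 0, [],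
 ⟨p067_k22, nat_lit 0, nat_lit 0, nat_lit 666, nat_lit 0, nat_lit 1329536, [nat_lit 3282000000, nat_lit 4688000000, nat_lit 7968000000], [], [nat_lit 19292453239, nat_lit 19655316453, nat_lit 20577169631, nat_lit 20923697084, nat_lit 21520680508, nat_lit 22138946557, nat_lit 26354390060, nat_lit 24808511205], nat_lit 1271250, nat_lit 1271250, nat_lit 545600, nat_lit 1744500, nat_lit 1100001, nat_lit 2024750, [nat_lit 780000, nat_lit 1100000, nat_lit 1785000], [nat_lit 36, nat_lit 40, nat_lit 40, nat_lit 80, nat_lit 7, nat_lit 373, nat_lit 150, nat_lit 12]⟩, ⟨p067_k10, nat_lit 0, nat_lit 0, nat_lit 186, nat_lit 0, nat_lit 0, [nat_lit 3282000000, nat_lit 4688000000, nat_lit 9842000000], [], [nat_lit 17853645763, nat_lit 21572227190, nat_lit 20757454755, nat_lit 25125639840, nat_lit 13879330020, nat_lit 17008451967, nat_lit 17348584864, nat_lit 20439794144], nat_lit 0, nat_lit 0, nat_lit 0, nat_lit 0, nat_lit 0, nat_lit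 0, [], [nat_lit 42, nat_lit 40, nat_lit 40, nat_lit 80, nat_lit 13, nat_lit 317, nat_lit 100, nat_lit 9]⟩,
 zbF0, [⟨nat_lit 0, nat_lit 83, nat_lit 83, nat_lit 100, nat_lit 425684427⟩, ⟨nat_lit 4, nat_lit 100, nat_lit 83, nat_lit 73, nat_lit 539719490⟩]⟩
noncomputable def p067_l89 : Lf2 := ⟨nat_lit 0, nat_lit 10, [nat_lit 0, nat_lit 5, nat_lit 5, nat_lit 20], false, nat_lit 0, nat_lit 160, nat_lit 160, nat_lit 300, ⟨nat_lit 1000, nat_lit 0, nat_lit 0, nat_lit 0, nat_lit 0, nat_lit 0, nat_lit 0, nat_lit 0, nat_lit 0, nat_lit 0, nat_lit 0, nat_lit 0, nat_lit 0, nat_lit 0, nat_lit 0, nat_lit 0, false, false⟩,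
 nat_lit 0, nat_lit 10577, nat_lit 0, nat_lit 0, nat_lit 7322, nat_lit 5464, nat_lit 3898, nat_lit 0, nat_lit 0, nat_lit 0, nat_lit 0, nat_lit 0, nat_lit 0, nat_lit 14057196642397, nat_lit 0, nat_lit 0, nat_lit 0, nat_lit 0, [],
 ⟨p067_k8, nat_lit 0, nat_lit 0, nat_lit 731, nat_lit 0, nat_lit 1217556, [nat_lit 3282000000, nat_lit 6250000000, nat_lit 7968000000], [], [nat_lit 19882267008, nat_lit 21499631768, nat_lit 23969577204, nat_lit 25166991882, nat_lit 16341759984, nat_lit 16814825808, nat_lit 24235154386, nat_lit 22619386680], nat_lit 1271250, nat_lit 1271250, nat_lit 490000, nat_lit 1740000, nat_lit 0, nat_lit 1100001, [nat_lit 780000, nat_lit 1435000, nat_lit 1271250], [nat_lit 18, nat_lit 40, nat_lit 40, nat_lit 80, nat_lit 2, nat_lit 317, nat_lit 100, nat_lit 10]⟩, ⟨p067_k0, nat_lit 0, nat_lit 0, nat_lit 65, nat_lit 0, nat_lit 0, [nat_lit 3282000000, nat_lit 6250000000, nat_lit 9842000000], [], [nat_lit 11683618624,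 nat_lit 14703648832, nat_lit 16479866656, nat_lit 18747757144, nat_lit 20376863008, nat_lit 22767409978, nat_lit 22966770512, nat_lit 24787283378], nat_lit 0, nat_lit 0, nat_lit 0, nat_lit 0, nat_lit 0, nat_lit 0, [], [nat_lit 8, nat_lit 40, nat_lit 40, nat_lit 80, nat_lit 1, nat_lit 373, nat_lit 150, nat_lit 10]⟩,
 zbF0, [⟨nat_lit 0, nat_lit 91, nat_lit 91, nat_lit 100, nat_lit 249705781⟩, ⟨nat_lit 7, nat_lit 100, nat_lit 92, nat_lit 75, nat_lit 735678285⟩]⟩
noncomputable def p067_l90 : Lf2 := ⟨nat_lit 0, nat_lit 10, [nat_lit 0, nat_lit 5, nat_lit 5, nat_lit 20], false, nat_lit 0, nat_lit 160, nat_lit 160, nat_lit 300, ⟨nat_lit 1000, nat_lit 0, nat_lit 0, nat_lit 0, nat_lit 0, nat_lit 0, nat_lit 0, nat_lit 0, nat_lit 0, nat_lit 0, nat_lit 0, nat_lit 0, nat_lit 0, nat_lit 0, nat_lit 0, nat_lit 0, false, false⟩,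
 nat_lit 0, nat_lit 9711, nat_lit 0, nat_lit 0, nat_lit 7000, nat_lit 5376, nat_lit 3534, nat_lit 0, nat_lit 0, nat_lit 0, nat_lit 0, nat_lit 0, nat_lit 0, nat_lit 0, nat_lit 0, nat_lit 0, nat_lit 0, nat_lit 0, [],
 ⟨p067_k21, nat_lit 0, nat_lit 0, nat_lit 773, nat_lit 0, nat_lit 1329536, [nat_lit 3282000000, nat_lit 6250000000, nat_lit 7968000000], [], [nat_lit 21561087201, nat_lit 22397809600, nat_lit 24726824000, nat_lit 25888980000, nat_lit 19894798200, nat_lit 20292456001, nat_lit 20906263000, nat_lit 21208756000], nat_lit 1271250, nat_lit 1271250, nat_lit 545600, nat_lit 1744500, nat_lit 0, nat_lit 1100001, [nat_lit 780000, nat_lit 1435000, nat_lit 1271250], [nat_lit 18, nat_lit 40, nat_lit 40, nat_lit 80, nat_lit 2, nat_lit 317, nat_lit 100, nat_lit 10]⟩, ⟨p067_k0, nat_lit 0, nat_lit 0, nat_lit 67, nat_lit 0, nat_lit 0, [nat_lit 3282000000, nat_lit 6250000000, nat_lit 9842000000], [], [nat_lit 11845055732, nat_lit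 15790344557, nat_lit 16580300704, nat_lit 19576957760, nat_lit 20271781112, nat_lit 23400993119, nat_lit 22941144208, nat_lit 25349318000], nat_lit 0, nat_lit 0, nat_lit 0, nat_lit 0, nat_lit 0, nat_lit 0, [], [nat_lit 8, nat_lit 40, nat_lit 40, nat_lit 80, nat_lit 1, nat_lit 373, nat_lit 150, nat_lit 10]⟩,
 zbF0, [⟨nat_lit 0, nat_lit 83, nat_lit 83, nat_lit 100, nat_lit 499796489⟩, ⟨nat_lit 7, nat_lit 100, nat_lit 90, nat_lit 74, nat_lit 737924755⟩]⟩
noncomputable def p067_l91 : Lf2 := ⟨nat_lit 0, nat_lit 10, [nat_lit 0, nat_lit 5, nat_lit 5, nat_lit 20], false, nat_lit 160, nat_lit 280, nat_lit 160, nat_lit 300, ⟨nat_lit 926, nat_lit 74, nat_lit 0, nat_lit 7, nat_lit 168, nat_lit 74, nat_lit 154, nat_lit 0, nat_lit 0, nat_lit 0, nat_lit 0, nat_lit 0, nat_lit 0, nat_lit 0, nat_lit 0, nat_lit 5000000, false, false⟩,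
 nat_lit 0, nat_lit 9462, nat_lit 0, nat_lit 0, nat_lit 6550, nat_lit 4746, nat_lit 2843, nat_lit 0, nat_lit 0, nat_lit 0, nat_lit 0, nat_lit 0, nat_lit 0, nat_lit 0, nat_lit 0, nat_lit 74000, nat_lit 0, nat_lit 0, [(nat_lit 15, [(nat_lit 2, nat_lit 74)])],
 ⟨p067_k9, nat_lit 0, nat_lit 0, nat_lit 568, nat_lit 0, nat_lit 1117797, [nat_lit 3185758560, nat_lit 4501608801, nat_lit 7326775200], [], [nat_lit 18366018820, nat_lit 18879714170, nat_lit 18361498220, nat_lit 18847367170, nat_lit 21631960720, nat_lit 22031559670, nat_lit 21419577470, nat_lit 21797582345], nat_lit 1271250, nat_lit 1271250, nat_lit 490000, nat_lit 780000, nat_lit 1100001, nat_lit 2127500, [nat_lit 780000, nat_lit 1100000, nat_lit 1785000], [nat_lit 36, nat_lit 40, nat_lit 40, nat_lit 80, nat_lit 7, nat_lit 317, nat_lit 100, nat_lit 10]⟩, ⟨p067_k10, nat_lit 0, nat_lit 0, nat_lit 49, nat_lit 0, nat_lit 0, [nat_lit 3039132000, nat_lit 4341088000, nat_lit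 9113692000], [], [nat_lit 11202856464, nat_lit 12995989312, nat_lit 11481665520, nat_lit 13182309692, nat_lit 18698145244, nat_lit 20122652189, nat_lit 18620590300, nat_lit 19848143685], nat_lit 0, nat_lit 0, nat_lit 0, nat_lit 0, nat_lit 0, nat_lit 0, [], [nat_lit 42, nat_lit 40, nat_lit 40, nat_lit 80, nat_lit 13, nat_lit 345, nat_lit 125, nat_lit 9]⟩,
 ⟨nat_lit 4743, nat_lit 5000, ⟨.ofNat (nat_lit 371422), .ofNat (nat_lit 442849), .ofNat (nat_lit 392848), .ofNat (nat_lit 464274), .ofNat (nat_lit 376847), .ofNat (nat_lit 446544), .ofNat (nat_lit 398332), .ofNat (nat_lit 468029)⟩, ⟨.ofNat (nat_lit 257141), .ofNat (nat_lit 471427), .ofNat (nat_lit 299999), .ofNat (nat_lit 514284), .ofNat (nat_lit 258394), .ofNat (nat_lit 467493), .ofNat (nat_lit 301370), .ofNat (nat_lit 510469)⟩⟩, [⟨nat_lit 0, nat_lit 100, nat_lit 95, nat_lit 95, nat_lit 605264444⟩, ⟨nat_lit 16, nat_lit 88, nat_lit 100, nat_lit 74, nat_lit 504099908⟩,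 ⟨nat_lit 19, nat_lit 94, nat_lit 100, nat_lit 75, nat_lit 280082155⟩, ⟨nat_lit 19, nat_lit 100, nat_lit 95, nat_lit 87, nat_lit 285247585⟩]⟩
noncomputable def p067_l92 : Lf2 := ⟨nat_lit 0, nat_lit 10, [nat_lit 0, nat_lit 5, nat_lit 5, nat_lit 20], false, nat_lit 160, nat_lit 280, nat_lit 160, nat_lit 280, ⟨nat_lit 1000, nat_lit 0, nat_lit 0, nat_lit 0, nat_lit 0, nat_lit 0, nat_lit 0, nat_lit 0, nat_lit 0, nat_lit 0, nat_lit 0, nat_lit 0, nat_lit 0, nat_lit 0, nat_lit 0, nat_lit 0, false, false⟩,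
 nat_lit 0, nat_lit 9733, nat_lit 0, nat_lit 0, nat_lit 6738, nat_lit 5184, nat_lit 1840, nat_lit 0, nat_lit 0, nat_lit 0, nat_lit 0, nat_lit 0, nat_lit 0, nat_lit 0, nat_lit 0, nat_lit 0, nat_lit 0, nat_lit 0, [],
 ⟨p067_k9, nat_lit 0, nat_lit 0, nat_lit 618, nat_lit 0, nat_lit 1217556, [nat_lit 3282000000, nat_lit 4688000000, nat_lit 7968000000], [], [nat_lit 18102191722, nat_lit 18585618930, nat_lit 18065984332, nat_lit 18558548950, nat_lit 21257479253, nat_lit 21835099147, nat_lit 21138483418, nat_lit 21520850363], nat_lit 1271250, nat_lit 1271250, nat_lit 631250, nat_lit 780000, nat_lit 1100001, nat_lit 2127500, [nat_lit 780000, nat_lit 1100000, nat_lit 1785000], [nat_lit 36, nat_lit 40, nat_lit 40, nat_lit 80, nat_lit 7, nat_lit 317, nat_lit 100, nat_lit 10]⟩, ⟨p067_k9, nat_lit 0, nat_lit 0, nat_lit 38, nat_lit 0, nat_lit 0, [nat_lit 3282000000, nat_lit 4688000000, nat_lit 7968000000], [], [nat_lit 14072396976,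 nat_lit 15022090896, nat_lit 14168777776, nat_lit 15093282600, nat_lit 20194858996, nat_lit 20996678462, nat_lit 20145686456, nat_lit 20852514640], nat_lit 0, nat_lit 0, nat_lit 0, nat_lit 0, nat_lit 0, nat_lit 0, [], [nat_lit 36, nat_lit 40, nat_lit 40, nat_lit 80, nat_lit 7, nat_lit 317, nat_lit 100, nat_lit 10]⟩,
 zbF0, [⟨nat_lit 0, nat_lit 95, nat_lit 95, nat_lit 100, nat_lit 578045149⟩, ⟨nat_lit 0, nat_lit 100, nat_lit 100, nat_lit 100, nat_lit 83794481⟩, ⟨nat_lit 16, nat_lit 88, nat_lit 100, nat_lit 74, nat_lit 526381288⟩, ⟨nat_lit 19, nat_lit 94, nat_lit 100, nat_lit 87, nat_lit 264475520⟩, ⟨nat_lit 7, nat_lit 100, nat_lit 88, nat_lit 74, nat_lit 370758355⟩]⟩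
noncomputable def p067_l93 : Lf2 := ⟨nat_lit 0, nat_lit 10, [nat_lit 0, nat_lit 5, nat_lit 5, nat_lit 20], false, nat_lit 160, nat_lit 280, nat_lit 160, nat_lit 300, ⟨nat_lit 1000, nat_lit 0, nat_lit 0, nat_lit 0, nat_lit 0, nat_lit 0, nat_lit 0, nat_lit 0, nat_lit 0, nat_lit 0, nat_lit 0, nat_lit 0, nat_lit 0, nat_lit 0, nat_lit 0, nat_lit 0, false, false⟩,
 nat_lit 0, nat_lit 9733, nat_lit 0, nat_lit 0, nat_lit 6738, nat_lit 5064, nat_lit 1990, nat_lit 0, nat_lit 0, nat_lit 0, nat_lit 0, nat_lit 0, nat_lit 0, nat_lit 11393288869781, nat_lit 0, nat_lit 0, nat_lit 0, nat_lit 0, [],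
 ⟨p067_k9, nat_lit 0, nat_lit 0, nat_lit 610, nat_lit 0, nat_lit 1217556, [nat_lit 3282000000, nat_lit 4688000000, nat_lit 7968000000], [], [nat_lit 19231383500, nat_lit 18558548950, nat_lit 19980470752, nat_lit 20374660444, nat_lit 21138483418, nat_lit 21520850363, nat_lit 26697243212, nat_lit 25171470278], nat_lit 1271250, nat_lit 1271250, nat_lit 780000, nat_lit 1762500, nat_lit 1100001, nat_lit 2127500, [nat_lit 780000, nat_lit 1100000, nat_lit 1785000], [nat_lit 36, nat_lit 40, nat_lit 40, nat_lit 80, nat_lit 7, nat_lit 373, nat_lit 150, nat_lit 12]⟩, ⟨p067_k10, nat_lit 0, nat_lit 0, nat_lit 39, nat_lit 0, nat_lit 0, [nat_lit 3282000000, nat_lit 4688000000, nat_lit 9842000000], [], [nat_lit 12482081088, nat_lit 15217404600, nat_lit 16936385056, nat_lit 19111558744, nat_lit 20151218576, nat_lit 22127448266, nat_lit 22942760592, nat_lit 24605425078], nat_lit 0, nat_lit 0, nat_lit 0, nat_lit 0, nat_lit 0, nat_lit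 0, [], [nat_lit 42, nat_lit 40, nat_lit 40, nat_lit 80, nat_lit 13, nat_lit 373, nat_lit 150, nat_lit 10]⟩,
 zbF0, [⟨nat_lit 0, nat_lit 91, nat_lit 91, nat_lit 100, nat_lit 199568530⟩, ⟨nat_lit 16, nat_lit 94, nat_lit 100, nat_lit 87, nat_lit 172695130⟩, ⟨nat_lit 4, nat_lit 100, nat_lit 88, nat_lit 74, nat_lit 302441565⟩, ⟨nat_lit 7, nat_lit 100, nat_lit 92, nat_lit 75, nat_lit 675968094⟩]⟩
noncomputable def p067_l94 : Lf2 := ⟨nat_lit 0, nat_lit 10, [nat_lit 0, nat_lit 5, nat_lit 5, nat_lit 20], false, nat_lit 160, nat_lit 268, nat_lit 160, nat_lit 300, ⟨nat_lit 1000, nat_lit 0, nat_lit 0, nat_lit 0, nat_lit 0, nat_lit 0, nat_lit 0, nat_lit 0, nat_lit 0, nat_lit 0, nat_lit 0, nat_lit 0, nat_lit 0, nat_lit 0, nat_lit 0, nat_lit 0, false, false⟩,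
 nat_lit 0, nat_lit 9570, nat_lit 0, nat_lit 0, nat_lit 6899, nat_lit 5153, nat_lit 3255, nat_lit 0, nat_lit 0, nat_lit 0, nat_lit 0, nat_lit 0, nat_lit 0, nat_lit 0, nat_lit 0, nat_lit 0, nat_lit 0, nat_lit 0, [],
 ⟨p067_k21, nat_lit 0, nat_lit 0, nat_lit 635, nat_lit 0, nat_lit 1239705, [nat_lit 3282000000, nat_lit 6250000000, nat_lit 7968000000], [], [nat_lit 19144250997, nat_lit 19371443252, nat_lit 19048787238, nat_lit 19265851295, nat_lit 21465006297, nat_lit 21646486422, nat_lit 21237066208, nat_lit 21410380140], nat_lit 1271250, nat_lit 1271250, nat_lit 545600, nat_lit 780000, nat_lit 1100001, nat_lit 2024750, [nat_lit 780000, nat_lit 1435000, nat_lit 1271250], [nat_lit 18, nat_lit 40, nat_lit 40, nat_lit 80, nat_lit 2, nat_lit 317, nat_lit 100, nat_lit 10]⟩, ⟨p067_k0, nat_lit 0, nat_lit 0, nat_lit 65, nat_lit 0, nat_lit 0, [nat_lit 3282000000, nat_lit 6250000000, nat_lit 9842000000], [], [nat_lit 12123687274,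 nat_lit 15488354976, nat_lit 12361698976, nat_lit 15585955529, nat_lit 20160403392, nat_lit 22835087228, nat_lit 20089353252, nat_lit 22544813552], nat_lit 0, nat_lit 0, nat_lit 0, nat_lit 0, nat_lit 0, nat_lit 0, [], [nat_lit 8, nat_lit 40, nat_lit 40, nat_lit 80, nat_lit 1, nat_lit 345, nat_lit 125, nat_lit 9]⟩,
 zbF0, [⟨nat_lit 0, nat_lit 100, nat_lit 91, nat_lit 91, nat_lit 681711269⟩, ⟨nat_lit 4, nat_lit 100, nat_lit 84, nat_lit 73, nat_lit 507352811⟩, ⟨nat_lit 19, nat_lit 91, nat_lit 100, nat_lit 74, nat_lit 268263626⟩, ⟨nat_lit 19, nat_lit 100, nat_lit 95, nat_lit 87, nat_lit 337967855⟩]⟩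
noncomputable def p067_l95 : Lf2 := ⟨nat_lit 0, nat_lit 10, [nat_lit 0, nat_lit 5, nat_lit 5, nat_lit 20], false, nat_lit 160, nat_lit 264, nat_lit 160, nat_lit 300, ⟨nat_lit 1000, nat_lit 0, nat_lit 0, nat_lit 0, nat_lit 0, nat_lit 0, nat_lit 0, nat_lit 0, nat_lit 0, nat_lit 0, nat_lit 0, nat_lit 0, nat_lit 0, nat_lit 0, nat_lit 0, nat_lit 0, false, false⟩,
 nat_lit 0, nat_lit 9373, nat_lit 0, nat_lit 0, nat_lit 6892, nat_lit 5185, nat_lit 1102, nat_lit 0, nat_lit 0, nat_lit 0, nat_lit 0, nat_lit 0, nat_lit 0, nat_lit 0, nat_lit 0, nat_lit 0, nat_lit 0, nat_lit 0, [],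
 ⟨p067_k23, nat_lit 0, nat_lit 0, nat_lit 654, nat_lit 0, nat_lit 1293350, [nat_lit 3282000000, nat_lit 6250000000, nat_lit 7968000000], [], [nat_lit 19438070877, nat_lit 19633301043, nat_lit 19305518860, nat_lit 19522480416, nat_lit 21509593157, nat_lit 21696337746, nat_lit 21337296279, nat_lit 21512244303], nat_lit 1271250, nat_lit 1271250, nat_lit 602400, nat_lit 780000, nat_lit 1100001, nat_lit 1990500, [nat_lit 780000, nat_lit 1435000, nat_lit 1271250], [nat_lit 18, nat_lit 40, nat_lit 40, nat_lit 80, nat_lit 2, nat_lit 317, nat_lit 100, nat_lit 10]⟩, ⟨p067_k0, nat_lit 0, nat_lit 0, nat_lit 64, nat_lit 0, nat_lit 0, [nat_lit 3282000000, nat_lit 6250000000, nat_lit 9842000000], [], [nat_lit 12142382084, nat_lit 15961751297, nat_lit 12318415520, nat_lit 16016859160, nat_lit 20126932970, nat_lit 23165989588, nat_lit 20067109540, nat_lit 22933041265], nat_lit 0, nat_lit 0, nat_lit 0, nat_lit 0, nat_lit 0, nat_lit 0,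 [], [nat_lit 8, nat_lit 40, nat_lit 40, nat_lit 80, nat_lit 1, nat_lit 345, nat_lit 125, nat_lit 9]⟩,
 zbF0, [⟨nat_lit 0, nat_lit 100, nat_lit 89, nat_lit 93, nat_lit 693745546⟩, ⟨nat_lit 4, nat_lit 100, nat_lit 82, nat_lit 72, nat_lit 519158504⟩, ⟨nat_lit 19, nat_lit 100, nat_lit 95, nat_lit 87, nat_lit 448482933⟩, ⟨nat_lit 7, nat_lit 100, nat_lit 90, nat_lit 74, nat_lit 134768635⟩]⟩
noncomputable def p067_l96 : Lf2 := ⟨nat_lit 0, nat_lit 10, [nat_lit 0, nat_lit 5, nat_lit 5, nat_lit 20], false, nat_lit 160, nat_lit 268, nat_lit 160, nat_lit 300, ⟨nat_lit 1000, nat_lit 0, nat_lit 0, nat_lit 0, nat_lit 0, nat_lit 0, nat_lit 0, nat_lit 0, nat_lit 0, nat_lit 0, nat_lit 0, nat_lit 0, nat_lit 0, nat_lit 0, nat_lit 0, nat_lit 0, false, false⟩,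
 nat_lit 0, nat_lit 9412, nat_lit 0, nat_lit 0, nat_lit 6785, nat_lit 5031, nat_lit 1359, nat_lit 0, nat_lit 0, nat_lit 0, nat_lit 0, nat_lit 0, nat_lit 0, nat_lit 6326749435901, nat_lit 0, nat_lit 0, nat_lit 0, nat_lit 0, [],
 ⟨p067_k21, nat_lit 0, nat_lit 0, nat_lit 620, nat_lit 0, nat_lit 1239705, [nat_lit 3282000000, nat_lit 6250000000, nat_lit 7968000000], [], [nat_lit 18351424480, nat_lit 18566472483, nat_lit 20130064830, nat_lit 20327740925, nat_lit 20889512876, nat_lit 21087035774, nat_lit 23720382496, nat_lit 23817433393], nat_lit 1271250, nat_lit 1271250, nat_lit 780000, nat_lit 1762500, nat_lit 1100001, nat_lit 2024750, [nat_lit 780000, nat_lit 1435000, nat_lit 1271250], [nat_lit 18, nat_lit 40, nat_lit 40, nat_lit 80, nat_lit 2, nat_lit 373, nat_lit 150, nat_lit 11]⟩, ⟨p067_k0, nat_lit 0, nat_lit 0, nat_lit 50, nat_lit 0, nat_lit 0, [nat_lit 3282000000, nat_lit 6250000000, nat_lit 9842000000], [], [nat_lit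 12526717152, nat_lit 15705674983, nat_lit 16974047824, nat_lit 19502826468, nat_lit 20174157404, nat_lit 22472062656, nat_lit 22966900818, nat_lit 24882045822], nat_lit 0, nat_lit 0, nat_lit 0, nat_lit 0, nat_lit 0, nat_lit 0, [], [nat_lit 8, nat_lit 40, nat_lit 40, nat_lit 80, nat_lit 1, nat_lit 373, nat_lit 150, nat_lit 10]⟩,
 zbF0, [⟨nat_lit 0, nat_lit 87, nat_lit 87, nat_lit 100, nat_lit 294118618⟩, ⟨nat_lit 16, nat_lit 89, nat_lit 100, nat_lit 85, nat_lit 434342505⟩, ⟨nat_lit 7, nat_lit 100, nat_lit 91, nat_lit 74, nat_lit 685008178⟩]⟩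
noncomputable def p067_l97 : Lf2 := ⟨nat_lit 0, nat_lit 10, [nat_lit 0, nat_lit 5, nat_lit 5, nat_lit 20], false, nat_lit 160, nat_lit 264, nat_lit 160, nat_lit 300, ⟨nat_lit 1000, nat_lit 0, nat_lit 0, nat_lit 0, nat_lit 0, nat_lit 0, nat_lit 0, nat_lit 0, nat_lit 0, nat_lit 0, nat_lit 0, nat_lit 0, nat_lit 0, nat_lit 0, nat_lit 0, nat_lit 0, false, false⟩,
 nat_lit 0, nat_lit 9418, nat_lit 0, nat_lit 0, nat_lit 6926, nat_lit 4998, nat_lit 3206, nat_lit 0, nat_lit 0, nat_lit 0, nat_lit 0, nat_lit 0, nat_lit 0, nat_lit 5512919263569, nat_lit 0, nat_lit 0, nat_lit 0, nat_lit 0, [],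
 ⟨p067_k23, nat_lit 0, nat_lit 0, nat_lit 642, nat_lit 0, nat_lit 1293350, [nat_lit 3282000000, nat_lit 6250000000, nat_lit 7968000000], [], [nat_lit 19112847830, nat_lit 19330307248, nat_lit 20536285405, nat_lit 20709902056, nat_lit 21144479075, nat_lit 21319756608, nat_lit 23624370078, nat_lit 24006698462], nat_lit 1271250, nat_lit 1271250, nat_lit 780000, nat_lit 1762500, nat_lit 1100001, nat_lit 1990500, [nat_lit 780000, nat_lit 1435000, nat_lit 1271250], [nat_lit 18, nat_lit 40, nat_lit 40, nat_lit 80, nat_lit 2, nat_lit 373, nat_lit 150, nat_lit 11]⟩, ⟨p067_k0, nat_lit 0, nat_lit 0, nat_lit 53, nat_lit 0, nat_lit 0, [nat_lit 3282000000, nat_lit 6250000000, nat_lit 9842000000], [], [nat_lit 12571353216, nat_lit 16190444528, nat_lit 17011710592, nat_lit 19891544480, nat_lit 20197096232, nat_lit 22814478172, nat_lit 22991041044, nat_lit 25156868750], nat_lit 0, nat_lit 0, nat_lit 0, nat_lit 0, nat_lit 0, nat_lit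 0, [], [nat_lit 8, nat_lit 40, nat_lit 40, nat_lit 80, nat_lit 1, nat_lit 373, nat_lit 150, nat_lit 10]⟩,
 zbF0, [⟨nat_lit 0, nat_lit 83, nat_lit 83, nat_lit 100, nat_lit 322883416⟩, ⟨nat_lit 16, nat_lit 86, nat_lit 100, nat_lit 84, nat_lit 139683751⟩, ⟨nat_lit 4, nat_lit 100, nat_lit 82, nat_lit 72, nat_lit 348219733⟩, ⟨nat_lit 7, nat_lit 100, nat_lit 90, nat_lit 74, nat_lit 684989626⟩]⟩
noncomputable def p067_l98 : Lf2 := ⟨nat_lit 0, nat_lit 10, [nat_lit 0, nat_lit 5, nat_lit 5, nat_lit 20], false, nat_lit 0, nat_lit 280, nat_lit 0, nat_lit 160, ⟨nat_lit 1000, nat_lit 0, nat_lit 0, nat_lit 0, nat_lit 0, nat_lit 0, nat_lit 0, nat_lit 0, nat_lit 0, nat_lit 0, nat_lit 0, nat_lit 0, nat_lit 0, nat_lit 0, nat_lit 0, nat_lit 0, false, false⟩,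
 nat_lit 0, nat_lit 8033, nat_lit 0, nat_lit 0, nat_lit 5561, nat_lit 6178, nat_lit 1860, nat_lit 0, nat_lit 0, nat_lit 1014, nat_lit 0, nat_lit 0, nat_lit 0, nat_lit 33819650291634, nat_lit 0, nat_lit 0, nat_lit 0, nat_lit 0, [],
 ⟨p067_k8, nat_lit 0, nat_lit 0, nat_lit 666, nat_lit 0, nat_lit 1217556, [nat_lit 3282000000, nat_lit 6250000000, nat_lit 7968000000], [], [nat_lit 31111899960, nat_lit 31411658378, nat_lit 36041702518, nat_lit 36266698015, nat_lit 31493812027, nat_lit 31716532294, nat_lit 34816123224, nat_lit 34959318222], nat_lit 1271250, nat_lit 1271250, nat_lit 1271250, nat_lit 1271250, nat_lit 0, nat_lit 1977500, [nat_lit 780000, nat_lit 1435000, nat_lit 1271250], [nat_lit 18, nat_lit 40, nat_lit 40, nat_lit 80, nat_lit 2, nat_lit 291, nat_lit 75, nat_lit 9]⟩, ⟨p067_k0, nat_lit 0, nat_lit 0, nat_lit 218, nat_lit 0, nat_lit 0, [nat_lit 3282000000, nat_lit 6250000000, nat_lit 9842000000], [], [nat_lit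 25063891830, nat_lit 27122654808, nat_lit 36184365648, nat_lit 37964939838, nat_lit 21212190480, nat_lit 22873879086, nat_lit 30971515392, nat_lit 32233600116], nat_lit 0, nat_lit 0, nat_lit 0, nat_lit 0, nat_lit 0, nat_lit 0, [], [nat_lit 8, nat_lit 40, nat_lit 40, nat_lit 80, nat_lit 1, nat_lit 373, nat_lit 150, nat_lit 10]⟩,
 zbF0, [⟨nat_lit 16, nat_lit 88, nat_lit 100, nat_lit 74, nat_lit 234035415⟩]⟩
noncomputable def p067_l99 : Lf2 := ⟨nat_lit 0, nat_lit 10, [nat_lit 0, nat_lit 5, nat_lit 5, nat_lit 20], false, nat_lit 0, nat_lit 268, nat_lit 0, nat_lit 160, ⟨nat_lit 1000, nat_lit 0, nat_lit 0, nat_lit 0, nat_lit 0, nat_lit 0, nat_lit 0, nat_lit 0, nat_lit 0, nat_lit 0, nat_lit 0, nat_lit 0, nat_lit 0, nat_lit 0, nat_lit 0, nat_lit 0, false, false⟩,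
 nat_lit 0, nat_lit 7685, nat_lit 0, nat_lit 0, nat_lit 5540, nat_lit 6892, nat_lit 1685, nat_lit 0, nat_lit 0, nat_lit 1008, nat_lit 0, nat_lit 0, nat_lit 0, nat_lit 32683490627605, nat_lit 0, nat_lit 0, nat_lit 0, nat_lit 0, [],
 ⟨p067_k21, nat_lit 0, nat_lit 0, nat_lit 675, nat_lit 0, nat_lit 1239705, [nat_lit 3282000000, nat_lit 6250000000, nat_lit 7968000000], [], [nat_lit 31475325620, nat_lit 31645737930, nat_lit 36380757100, nat_lit 36493198390, nat_lit 31624933356, nat_lit 31739348442, nat_lit 34955246479, nat_lit 35029171719], nat_lit 1271250, nat_lit 1271250, nat_lit 1271250, nat_lit 1271250, nat_lit 0, nat_lit 1892750, [nat_lit 780000, nat_lit 1435000, nat_lit 1271250], [nat_lit 18, nat_lit 40, nat_lit 40, nat_lit 80, nat_lit 2, nat_lit 292, nat_lit 75, nat_lit 9]⟩, ⟨p067_k0, nat_lit 0, nat_lit 0, nat_lit 218, nat_lit 0, nat_lit 0, [nat_lit 3282000000, nat_lit 6250000000, nat_lit 9842000000], [], [nat_lit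 27456837712, nat_lit 29442502218, nat_lit 38052629472, nat_lit 40243133242, nat_lit 23332197584, nat_lit 25341786812, nat_lit 32044162176, nat_lit 33246757948], nat_lit 0, nat_lit 0, nat_lit 0, nat_lit 0, nat_lit 0, nat_lit 0, [], [nat_lit 8, nat_lit 40, nat_lit 40, nat_lit 80, nat_lit 1, nat_lit 373, nat_lit 150, nat_lit 10]⟩,
 zbF0, [⟨nat_lit 4, nat_lit 100, nat_lit 84, nat_lit 73, nat_lit 237290624⟩]⟩
noncomputable def p067_l100 : Lf2 := ⟨nat_lit 0, nat_lit 10, [nat_lit 0, nat_lit 5, nat_lit 5, nat_lit 20], false, nat_lit 0, nat_lit 264, nat_lit 0, nat_lit 160, ⟨nat_lit 1000, nat_lit 0, nat_lit 0, nat_lit 0, nat_lit 0, nat_lit 0, nat_lit 0, nat_lit 0, nat_lit 0, nat_lit 0, nat_lit 0, nat_lit 0, nat_lit 0, nat_lit 0, nat_lit 0, nat_lit 0, false, false⟩,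
 nat_lit 0, nat_lit 7505, nat_lit 0, nat_lit 0, nat_lit 5519, nat_lit 6859, nat_lit 1026, nat_lit 0, nat_lit 0, nat_lit 1008, nat_lit 0, nat_lit 0, nat_lit 0, nat_lit 31561645270220, nat_lit 0, nat_lit 0, nat_lit 0, nat_lit 0, [],
 ⟨p067_k23, nat_lit 0, nat_lit 0, nat_lit 696, nat_lit 0, nat_lit 1293350, [nat_lit 3282000000, nat_lit 6250000000, nat_lit 7968000000], [], [nat_lit 31939611290, nat_lit 32088049834, nat_lit 36607201017, nat_lit 36719585848, nat_lit 31800321139, nat_lit 31915700935, nat_lit 35118030874, nat_lit 35192758988], nat_lit 1271250, nat_lit 1271250, nat_lit 1271250, nat_lit 1271250, nat_lit 0, nat_lit 1864500, [nat_lit 780000, nat_lit 1435000, nat_lit 1271250], [nat_lit 18, nat_lit 40, nat_lit 40, nat_lit 80, nat_lit 2, nat_lit 297, nat_lit 75, nat_lit 9]⟩, ⟨p067_k0, nat_lit 0, nat_lit 0, nat_lit 219, nat_lit 0, nat_lit 0, [nat_lit 3282000000, nat_lit 6250000000, nat_lit 9842000000], [], [nat_lit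 27489232624, nat_lit 29753069252, nat_lit 37966281144, nat_lit 40463736404, nat_lit 23399495104, nat_lit 25692992784, nat_lit 32092502952, nat_lit 33464842088], nat_lit 0, nat_lit 0, nat_lit 0, nat_lit 0, nat_lit 0, nat_lit 0, [], [nat_lit 8, nat_lit 40, nat_lit 40, nat_lit 80, nat_lit 1, nat_lit 373, nat_lit 150, nat_lit 10]⟩,
 zbF0, [⟨nat_lit 4, nat_lit 100, nat_lit 82, nat_lit 72, nat_lit 242076526⟩]⟩
noncomputable def p067_l101 : Lf2 := ⟨nat_lit 0, nat_lit 10, [nat_lit 0, nat_lit 5, nat_lit 5, nat_lit 20], false, nat_lit 0, nat_lit 280, nat_lit 160, nat_lit 300, ⟨nat_lit 1000, nat_lit 0, nat_lit 0, nat_lit 0, nat_lit 0, nat_lit 0, nat_lit 0, nat_lit 0, nat_lit 0, nat_lit 0, nat_lit 0, nat_lit 0, nat_lit 0, nat_lit 0, nat_lit 0, nat_lit 0, false, false⟩,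
 nat_lit 0, nat_lit 8033, nat_lit 0, nat_lit 0, nat_lit 5561, nat_lit 6984, nat_lit 2719, nat_lit 0, nat_lit 0, nat_lit 0, nat_lit 0, nat_lit 0, nat_lit 0, nat_lit 0, nat_lit 0, nat_lit 0, nat_lit 0, nat_lit 0, [],
 ⟨p067_k8, nat_lit 0, nat_lit 0, nat_lit 666, nat_lit 0, nat_lit 1217556, [nat_lit 3282000000, nat_lit 6250000000, nat_lit 7968000000], [], [nat_lit 31014167850, nat_lit 31355450333, nat_lit 36041702518, nat_lit 36266698015, nat_lit 31493812027, nat_lit 31716532294, nat_lit 34816123224, nat_lit 34959318222], nat_lit 1271250, nat_lit 1271250, nat_lit 1271250, nat_lit 1271250, nat_lit 0, nat_lit 1977500, [nat_lit 780000, nat_lit 1435000, nat_lit 1271250], [nat_lit 18, nat_lit 40, nat_lit 40, nat_lit 80, nat_lit 2, nat_lit 291, nat_lit 75, nat_lit 9]⟩, ⟨p067_k0, nat_lit 0, nat_lit 0, nat_lit 88, nat_lit 0, nat_lit 0, [nat_lit 3282000000, nat_lit 6250000000, nat_lit 9842000000], [], [nat_lit 19454741120, nat_lit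 21717589208, nat_lit 30770066976, nat_lit 32123938320, nat_lit 25200601256, nat_lit 26813805716, nat_lit 33812786176, nat_lit 34986361678], nat_lit 0, nat_lit 0, nat_lit 0, nat_lit 0, nat_lit 0, nat_lit 0, [], [nat_lit 8, nat_lit 40, nat_lit 40, nat_lit 80, nat_lit 1, nat_lit 401, nat_lit 175, nat_lit 11]⟩,
 zbF0, [⟨nat_lit 16, nat_lit 88, nat_lit 100, nat_lit 74, nat_lit 234035415⟩, ⟨nat_lit 7, nat_lit 100, nat_lit 92, nat_lit 75, nat_lit 582080965⟩]⟩
noncomputable def p067_l102 : Lf2 := ⟨nat_lit 0, nat_lit 10, [nat_lit 0, nat_lit 5, nat_lit 5, nat_lit 20], false, nat_lit 0, nat_lit 268, nat_lit 160, nat_lit 300, ⟨nat_lit 1000, nat_lit 0, nat_lit 0, nat_lit 0, nat_lit 0, nat_lit 0, nat_lit 0, nat_lit 0, nat_lit 0, nat_lit 0, nat_lit 0, nat_lit 0, nat_lit 0, nat_lit 0, nat_lit 0, nat_lit 0, false, false⟩,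
 nat_lit 0, nat_lit 7685, nat_lit 0, nat_lit 0, nat_lit 5540, nat_lit 6942, nat_lit 2575, nat_lit 0, nat_lit 0, nat_lit 0, nat_lit 0, nat_lit 0, nat_lit 0, nat_lit 14439424054719, nat_lit 0, nat_lit 0, nat_lit 0, nat_lit 0, [],
 ⟨p067_k21, nat_lit 0, nat_lit 0, nat_lit 675, nat_lit 0, nat_lit 1239705, [nat_lit 3282000000, nat_lit 6250000000, nat_lit 7968000000], [], [nat_lit 31475325620, nat_lit 31645737930, nat_lit 36380757100, nat_lit 36493198390, nat_lit 31624933356, nat_lit 31739348442, nat_lit 34955246479, nat_lit 35029171719], nat_lit 1271250, nat_lit 1271250, nat_lit 1271250, nat_lit 1271250, nat_lit 0, nat_lit 1892750, [nat_lit 780000, nat_lit 1435000, nat_lit 1271250], [nat_lit 18, nat_lit 40, nat_lit 40, nat_lit 80, nat_lit 2, nat_lit 292, nat_lit 75, nat_lit 9]⟩, ⟨p067_k0, nat_lit 0, nat_lit 0, nat_lit 89, nat_lit 0, nat_lit 0, [nat_lit 3282000000, nat_lit 6250000000, nat_lit 9842000000], [], [nat_lit 19504230560,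 nat_lit 22134919453, nat_lit 30780564288, nat_lit 32348925004, nat_lit 25237866428, nat_lit 27114405770, nat_lit 33766807138, nat_lit 35133204704], nat_lit 0, nat_lit 0, nat_lit 0, nat_lit 0, nat_lit 0, nat_lit 0, [], [nat_lit 8, nat_lit 40, nat_lit 40, nat_lit 80, nat_lit 1, nat_lit 401, nat_lit 175, nat_lit 11]⟩,
 zbF0, [⟨nat_lit 16, nat_lit 84, nat_lit 100, nat_lit 73, nat_lit 237290624⟩, ⟨nat_lit 19, nat_lit 91, nat_lit 100, nat_lit 74, nat_lit 590243193⟩]⟩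
noncomputable def p067_l103 : Lf2 := ⟨nat_lit 0, nat_lit 10, [nat_lit 0, nat_lit 5, nat_lit 5, nat_lit 20], false, nat_lit 0, nat_lit 264, nat_lit 160, nat_lit 300, ⟨nat_lit 1000, nat_lit 0, nat_lit 0, nat_lit 0, nat_lit 0, nat_lit 0, nat_lit 0, nat_lit 0, nat_lit 0, nat_lit 0, nat_lit 0, nat_lit 0, nat_lit 0, nat_lit 0, nat_lit 0, nat_lit 0, false, false⟩,
 nat_lit 0, nat_lit 7505, nat_lit 0, nat_lit 0, nat_lit 5519, nat_lit 6929, nat_lit 943, nat_lit 0, nat_lit 0, nat_lit 0, nat_lit 0, nat_lit 0, nat_lit 0, nat_lit 13316701085033, nat_lit 0, nat_lit 0, nat_lit 0, nat_lit 0, [],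
 ⟨p067_k23, nat_lit 0, nat_lit 0, nat_lit 696, nat_lit 0, nat_lit 1293350, [nat_lit 3282000000, nat_lit 6250000000, nat_lit 7968000000], [], [nat_lit 32491042540, nat_lit 32622312914, nat_lit 36607201017, nat_lit 36719585848, nat_lit 31815126663, nat_lit 31916078033, nat_lit 35118030874, nat_lit 35192758988], nat_lit 1271250, nat_lit 1271250, nat_lit 1271250, nat_lit 1271250, nat_lit 0, nat_lit 1864500, [nat_lit 780000, nat_lit 1435000, nat_lit 1271250], [nat_lit 18, nat_lit 40, nat_lit 40, nat_lit 80, nat_lit 2, nat_lit 297, nat_lit 75, nat_lit 9]⟩, ⟨p067_k0, nat_lit 0, nat_lit 0, nat_lit 90, nat_lit 0, nat_lit 0, [nat_lit 3282000000, nat_lit 6250000000, nat_lit 9842000000], [], [nat_lit 19519548720, nat_lit 22522760324, nat_lit 30783813456, nat_lit 32608887176, nat_lit 25249400886, nat_lit 27392060191, nat_lit 33752575531, nat_lit 35313191522], nat_lit 0, nat_lit 0, nat_lit 0, nat_lit 0, nat_lit 0, nat_lit 0, [],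 [nat_lit 8, nat_lit 40, nat_lit 40, nat_lit 80, nat_lit 1, nat_lit 401, nat_lit 175, nat_lit 11]⟩,
 zbF0, [⟨nat_lit 16, nat_lit 82, nat_lit 100, nat_lit 72, nat_lit 242076526⟩, ⟨nat_lit 7, nat_lit 100, nat_lit 90, nat_lit 74, nat_lit 590888848⟩]⟩
noncomputable def b_V_700_700_10_23 : St := ⟨true, nat_lit 1, nat_lit 0, nat_lit 2, nat_lit 80, nat_lit 300, nat_lit 320, nat_lit 280, nat_lit 320, nat_lit 64, nat_lit 400, nat_lit 40, nat_lit 80, nat_lit 0, nat_lit 300, nat_lit 0, nat_lit 300, nat_lit 0, nat_lit 40, nat_lit 0, nat_lit 0, nat_lit 0, nat_lit 0⟩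
theorem d_V_700_700_10_23 (h : EB TB.env) : Dead b_V_700_700_10_23 := chkB_sound0 h (T :=
(.trZ (nat_lit 0) (nat_lit 100) (nat_lit 94) (nat_lit 88) (nat_lit 80) (.trX (nat_lit 16) (nat_lit 94) (nat_lit 100) (nat_lit 87) (nat_lit 280) (.spl (nat_lit 2) (nat_lit 240)
(.spl (nat_lit 5) (nat_lit 160)
(.spl (nat_lit 4) (nat_lit 160)
(.spl (nat_lit 0) (nat_lit 310)
(.ord (.leaf p067_l85))
(.trZ (nat_lit 0) (nat_lit 100) (nat_lit 91) (nat_lit 91) (nat_lit 88) (.leaf p067_l86)))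
(.spl (nat_lit 0) (nat_lit 310)
(.ord (.leaf p067_l87))
(.trZ (nat_lit 0) (nat_lit 100) (nat_lit 91) (nat_lit 91) (nat_lit 88) (.trX (nat_lit 16) (nat_lit 89) (nat_lit 100) (nat_lit 85) (nat_lit 268) (.leaf p067_l88)))))
(.spl (nat_lit 4) (nat_lit 160)
(.spl (nat_lit 0) (nat_lit 310)
(.ord (.leaf p067_l89))
(.trZ (nat_lit 0) (nat_lit 100) (nat_lit 91) (nat_lit 91) (nat_lit 88) (.leaf p067_l90)))
(.spl (nat_lit 0) (nat_lit 310)
(.ord (.spl (nat_lit 2) (nat_lit 120)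
(.spl (nat_lit 1) (nat_lit 300)
(.leaf p067_l91)
(.trZ (nat_lit 0) (nat_lit 100) (nat_lit 100) (nat_lit 100) (nat_lit 100) (.trX (nat_lit 19) (nat_lit 94) (nat_lit 100) (nat_lit 87) (nat_lit 280) (.leaf p067_l92))))
(.leaf p067_l93)))
(.trZ (nat_lit 0) (nat_lit 100) (nat_lit 91) (nat_lit 91) (nat_lit 88) (.trX (nat_lit 16) (nat_lit 89) (nat_lit 100) (nat_lit 85) (nat_lit 268) (.spl (nat_lit 2) (nat_lit 120)
(.spl (nat_lit 0) (nat_lit 315)
(.ord (.leaf p067_l94))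
(.trZ (nat_lit 0) (nat_lit 100) (nat_lit 89) (nat_lit 93) (nat_lit 96) (.trX (nat_lit 16) (nat_lit 86) (nat_lit 100) (nat_lit 84) (nat_lit 264) (.leaf p067_l95))))
(.spl (nat_lit 0) (nat_lit 315)
(.ord (.leaf p067_l96))
(.trX (nat_lit 16) (nat_lit 86) (nat_lit 100) (nat_lit 84) (nat_lit 264) (.leaf p067_l97)))))))))
(.spl (nat_lit 5) (nat_lit 160)
(.spl (nat_lit 0) (nat_lit 310)
(.ord (.leaf p067_l98))
(.trX (nat_lit 16) (nat_lit 89) (nat_lit 100) (nat_lit 85) (nat_lit 268) (.spl (nat_lit 0) (nat_lit 315)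
(.ord (.leaf p067_l99))
(.trX (nat_lit 16) (nat_lit 86) (nat_lit 100) (nat_lit 84) (nat_lit 264) (.leaf p067_l100)))))
(.spl (nat_lit 0) (nat_lit 310)
(.ord (.leaf p067_l101))
(.trX (nat_lit 16) (nat_lit 89) (nat_lit 100) (nat_lit 85) (nat_lit 268) (.spl (nat_lit 0) (nat_lit 315)
(.ord (.leaf p067_l102))
(.trX (nat_lit 16) (nat_lit 86) (nat_lit 100) (nat_lit 84) (nat_lit 264) (.leaf p067_l103)))))))))) (by decide +kernel)
noncomputable def p067_l104 : Lf2 := ⟨nat_lit 0, nat_lit 10, [nat_lit 0, nat_lit 5, nat_lit 5, nat_lit 20], false, nat_lit 0, nat_lit 160, nat_lit 0, nat_lit 300, ⟨nat_lit 63, nat_lit 937, nat_lit 0, nat_lit 7, nat_lit 174, nat_lit 937, nat_lit 55, nat_lit 0, nat_lit 0, nat_lit 0, nat_lit 0, nat_lit 0, nat_lit 0, nat_lit 0, nat_lit 0, nat_lit 5000000, false, false⟩,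
 nat_lit 7894, nat_lit 0, nat_lit 0, nat_lit 0, nat_lit 5023, nat_lit 980, nat_lit 0, nat_lit 0, nat_lit 0, nat_lit 45, nat_lit 0, nat_lit 0, nat_lit 0, nat_lit 25918205915659, nat_lit 0, nat_lit 937000, nat_lit 0, nat_lit 0, [(nat_lit 12, [(nat_lit 2, nat_lit 937)])],
 ⟨p067_k0, nat_lit 0, nat_lit 0, nat_lit 522, nat_lit 0, nat_lit 626590, [nat_lit 2394848401, nat_lit 2217526800, nat_lit 344568000], [], [nat_lit 26210740502, nat_lit 23618139144, nat_lit 22534961753, nat_lit 23179763337, nat_lit 21100646147, nat_lit 21804372901, nat_lit 25214085195, nat_lit 22939630611], nat_lit 1271250, nat_lit 1271250, nat_lit 382400, nat_lit 1100001, nat_lit 0, nat_lit 1100001, [nat_lit 780000, nat_lit 1435000, nat_lit 1271250], [nat_lit 8, nat_lit 40, nat_lit 40, nat_lit 80, nat_lit 1, nat_lit 317, nat_lit 100, nat_lit 9]⟩, ⟨p067_k0, nat_lit 0, nat_lit 0, nat_lit 522, nat_lit 0, nat_lit 626590, [nat_lit 206766000, nat_lit 393750000,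 nat_lit 620046000], [], [nat_lit 2919068068, nat_lit 2405585309, nat_lit 1562103061, nat_lit 1758133440, nat_lit 1755742940, nat_lit 1962769197, nat_lit 2039220708, nat_lit 1616594042], nat_lit 1271250, nat_lit 1271250, nat_lit 382400, nat_lit 1100001, nat_lit 0, nat_lit 2118750, [nat_lit 780000, nat_lit 1435000, nat_lit 1271250], [nat_lit 8, nat_lit 40, nat_lit 40, nat_lit 80, nat_lit 1, nat_lit 345, nat_lit 125, nat_lit 10]⟩,
 ⟨nat_lit 5000, nat_lit 5478, ⟨.ofNat (nat_lit 330654), .ofNat (nat_lit 510468), .ofNat (nat_lit 352005), .ofNat (nat_lit 531815), .ofNat (nat_lit 342856), .ofNat (nat_lit 514258), .ofNat (nat_lit 364277), .ofNat (nat_lit 535678)⟩, ⟨.negSucc (nat_lit 45522), .ofNat (nat_lit 254209), .negSucc (nat_lit 2832), .ofNat (nat_lit 296923), .negSucc (nat_lit 28572), .ofNat (nat_lit 257141), .ofNat (nat_lit 0), .ofNat (nat_lit 299999)⟩⟩, [⟨nat_lit 7, nat_lit 100, nat_lit 94, nat_lit 75, nat_lit 12925269⟩]⟩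
noncomputable def p067_l105 : Lf2 := ⟨nat_lit 0, nat_lit 10, [nat_lit 0, nat_lit 5, nat_lit 5, nat_lit 20], false, nat_lit 0, nat_lit 160, nat_lit 0, nat_lit 300, ⟨nat_lit 400, nat_lit 600, nat_lit 0, nat_lit 7, nat_lit 238, nat_lit 600, nat_lit 55, nat_lit 0, nat_lit 0, nat_lit 0, nat_lit 0, nat_lit 0, nat_lit 0, nat_lit 0, nat_lit 0, nat_lit 5000000, false, false⟩,
 nat_lit 7727, nat_lit 0, nat_lit 0, nat_lit 0, nat_lit 4916, nat_lit 4916, nat_lit 329, nat_lit 0, nat_lit 0, nat_lit 275, nat_lit 0, nat_lit 0, nat_lit 0, nat_lit 0, nat_lit 0, nat_lit 600000, nat_lit 0, nat_lit 0, [(nat_lit 12, [(nat_lit 2, nat_lit 600)])],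
 ⟨p067_k0, nat_lit 0, nat_lit 0, nat_lit 480, nat_lit 0, nat_lit 626590, [nat_lit 2713920001, nat_lit 3667840000, nat_lit 3760400000], [], [nat_lit 28674417425, nat_lit 27068535454, nat_lit 27740342046, nat_lit 28430222814, nat_lit 24749658590, nat_lit 25424460969, nat_lit 27409947506, nat_lit 26857434353], nat_lit 1271250, nat_lit 1271250, nat_lit 1100001, nat_lit 1785000, nat_lit 0, nat_lit 1100001, [nat_lit 780000, nat_lit 1435000, nat_lit 1271250], [nat_lit 8, nat_lit 40, nat_lit 40, nat_lit 80, nat_lit 1, nat_lit 317, nat_lit 100, nat_lit 9]⟩, ⟨p067_k0, nat_lit 0, nat_lit 0, nat_lit 480, nat_lit 0, nat_lit 626590, [nat_lit 1312800000, nat_lit 2500000000, nat_lit 3936800000], [], [nat_lit 14105450224, nat_lit 11545305576, nat_lit 11246924735, nat_lit 12088653879, nat_lit 8827076056, nat_lit 9780073736, nat_lit 13578218676, nat_lit 11421906222], nat_lit 1271250, nat_lit 1271250, nat_lit 1100001, nat_lit 1785000,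 nat_lit 0, nat_lit 2118750, [nat_lit 780000, nat_lit 1435000, nat_lit 1271250], [nat_lit 8, nat_lit 40, nat_lit 40, nat_lit 80, nat_lit 1, nat_lit 373, nat_lit 150, nat_lit 11]⟩,
 ⟨nat_lit 5000, nat_lit 5478, ⟨.ofNat (nat_lit 510468), .ofNat (nat_lit 660309), .ofNat (nat_lit 531815), .ofNat (nat_lit 681655), .ofNat (nat_lit 514258), .ofNat (nat_lit 657090), .ofNat (nat_lit 535678), .ofNat (nat_lit 678509)⟩, ⟨.negSucc (nat_lit 45522), .ofNat (nat_lit 254209), .negSucc (nat_lit 2832), .ofNat (nat_lit 296923), .negSucc (nat_lit 28572), .ofNat (nat_lit 257141), .ofNat (nat_lit 0), .ofNat (nat_lit 299999)⟩⟩, [⟨nat_lit 7, nat_lit 100, nat_lit 94, nat_lit 75, nat_lit 51379544⟩]⟩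
noncomputable def p067_l106 : Lf2 := ⟨nat_lit 0, nat_lit 10, [nat_lit 0, nat_lit 5, nat_lit 5, nat_lit 20], false, nat_lit 160, nat_lit 300, nat_lit 0, nat_lit 300, ⟨nat_lit 20, nat_lit 980, nat_lit 0, nat_lit 7, nat_lit 201, nat_lit 980, nat_lit 162, nat_lit 0, nat_lit 0, nat_lit 0, nat_lit 0, nat_lit 0, nat_lit 0, nat_lit 0, nat_lit 0, nat_lit 5000000, false, false⟩,
 nat_lit 7666, nat_lit 0, nat_lit 0, nat_lit 0, nat_lit 4878, nat_lit 324, nat_lit 211, nat_lit 0, nat_lit 0, nat_lit 114, nat_lit 0, nat_lit 0, nat_lit 0, nat_lit 30493222447314, nat_lit 5, nat_lit 980000, nat_lit 0, nat_lit 0, [(nat_lit 12, [(nat_lit 2, nat_lit 980)])],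
 ⟨p067_k10, nat_lit 0, nat_lit 0, nat_lit 338, nat_lit 0, nat_lit 524923, [nat_lit 2078740800, nat_lit 2733912000, nat_lit 48720000], [], [nat_lit 23899162292, nat_lit 22640282198, nat_lit 24489772307, nat_lit 23355876329, nat_lit 21695194354, nat_lit 22134231898, nat_lit 23337945360, nat_lit 23673607298], nat_lit 1271250, nat_lit 1271250, nat_lit 382400, nat_lit 1731000, nat_lit 1271250, nat_lit 1271250, [nat_lit 780000, nat_lit 1100000, nat_lit 2127500], [nat_lit 42, nat_lit 40, nat_lit 40, nat_lit 80, nat_lit 13, nat_lit 373, nat_lit 150, nat_lit 10]⟩, ⟨p067_k10, nat_lit 0, nat_lit 0, nat_lit 475, nat_lit 0, nat_lit 524923, [nat_lit 65640000, nat_lit 93760000, nat_lit 196840000], [], [nat_lit 1570545831, nat_lit 1483014056, nat_lit 615888176, nat_lit 659279112, nat_lit 566297663, nat_lit 600226122, nat_lit 626063722, nat_lit 557581219], nat_lit 1271250, nat_lit 1271250, nat_lit 382400, nat_lit 1731000, nat_lit 0,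 nat_lit 2118750, [nat_lit 780000, nat_lit 1100000, nat_lit 2127500], [nat_lit 42, nat_lit 40, nat_lit 40, nat_lit 80, nat_lit 13, nat_lit 373, nat_lit 150, nat_lit 11]⟩,
 ⟨nat_lit 5244, nat_lit 5478, ⟨.ofNat (nat_lit 330654), .ofNat (nat_lit 660348), .ofNat (nat_lit 341333), .ofNat (nat_lit 671025), .ofNat (nat_lit 336758), .ofNat (nat_lit 658700), .ofNat (nat_lit 347451), .ofNat (nat_lit 669391)⟩, ⟨.ofNat (nat_lit 254209), .ofNat (nat_lit 516475), .ofNat (nat_lit 296923), .ofNat (nat_lit 559189), .ofNat (nat_lit 255744), .ofNat (nat_lit 511843), .ofNat (nat_lit 298515), .ofNat (nat_lit 554614)⟩⟩, [⟨nat_lit 4, nat_lit 100, nat_lit 97, nat_lit 76, nat_lit 131970948⟩, ⟨nat_lit 7, nat_lit 100, nat_lit 97, nat_lit 76, nat_lit 2172714⟩]⟩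
noncomputable def p067_l107 : Lf2 := ⟨nat_lit 0, nat_lit 10, [nat_lit 0, nat_lit 5, nat_lit 5, nat_lit 20], false, nat_lit 160, nat_lit 292, nat_lit 0, nat_lit 300, ⟨nat_lit 43, nat_lit 957, nat_lit 0, nat_lit 7, nat_lit 207, nat_lit 957, nat_lit 159, nat_lit 0, nat_lit 0, nat_lit 0, nat_lit 0, nat_lit 0, nat_lit 0, nat_lit 0, nat_lit 0, nat_lit 5000000, false, false⟩,
 nat_lit 938, nat_lit 6378, nat_lit 0, nat_lit 0, nat_lit 4858, nat_lit 596, nat_lit 861, nat_lit 0, nat_lit 0, nat_lit 217, nat_lit 0, nat_lit 0, nat_lit 0, nat_lit 26430049150723, nat_lit 0, nat_lit 382800, nat_lit 0, nat_lit 0, [(nat_lit 12, [(nat_lit 1, nat_lit 957)])],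
 ⟨p067_k18, nat_lit 0, nat_lit 0, nat_lit 312, nat_lit 0, nat_lit 594835, [nat_lit 2087089801, nat_lit 2665667600, nat_lit 2934526400], [], [nat_lit 21314209842, nat_lit 20064241584, nat_lit 23237433621, nat_lit 22108186663, nat_lit 21659595798, nat_lit 22077730841, nat_lit 23194179397, nat_lit 23516616472], nat_lit 1271250, nat_lit 1271250, nat_lit 435600, nat_lit 1735500, nat_lit 1271250, nat_lit 1271250, [nat_lit 780000, nat_lit 1100000, nat_lit 1785000], [nat_lit 36, nat_lit 40, nat_lit 40, nat_lit 80, nat_lit 7, nat_lit 373, nat_lit 150, nat_lit 12]⟩, ⟨p067_k10, nat_lit 0, nat_lit 0, nat_lit 516, nat_lit 0, nat_lit 626590, [nat_lit 141126000, nat_lit 201584000, nat_lit 423206000], [], [nat_lit 2941428705, nat_lit 2620405940, nat_lit 1219688088, nat_lit 1384237914, nat_lit 1110491222, nat_lit 1238765556, nat_lit 1452395472, nat_lit 1200269495], nat_lit 1271250, nat_lit 1271250, nat_lit 435600, nat_lit 1735500, nat_lit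 0, nat_lit 2118750, [nat_lit 780000, nat_lit 1100000, nat_lit 2127500], [nat_lit 42, nat_lit 40, nat_lit 40, nat_lit 80, nat_lit 13, nat_lit 373, nat_lit 150, nat_lit 11]⟩,
 ⟨nat_lit 5000, nat_lit 5245, ⟨.ofNat (nat_lit 351391), .ofNat (nat_lit 658699), .ofNat (nat_lit 372775), .ofNat (nat_lit 680082), .ofNat (nat_lit 357140), .ofNat (nat_lit 657129), .ofNat (nat_lit 378567), .ofNat (nat_lit 678555)⟩, ⟨.ofNat (nat_lit 255744), .ofNat (nat_lit 497209), .ofNat (nat_lit 298515), .ofNat (nat_lit 539979), .ofNat (nat_lit 257141), .ofNat (nat_lit 492856), .ofNat (nat_lit 299999), .ofNat (nat_lit 535713)⟩⟩, [⟨nat_lit 4, nat_lit 100, nat_lit 92, nat_lit 75, nat_lit 209240445⟩, ⟨nat_lit 7, nat_lit 100, nat_lit 94, nat_lit 75, nat_lit 6073167⟩]⟩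
noncomputable def p067_l108 : Lf2 := ⟨nat_lit 0, nat_lit 10, [nat_lit 0, nat_lit 5, nat_lit 5, nat_lit 20], false, nat_lit 0, nat_lit 160, nat_lit 0, nat_lit 300, ⟨nat_lit 31, nat_lit 969, nat_lit 0, nat_lit 7, nat_lit 211, nat_lit 969, nat_lit 56, nat_lit 0, nat_lit 0, nat_lit 0, nat_lit 0, nat_lit 0, nat_lit 0, nat_lit 0, nat_lit 0, nat_lit 5000000, false, false⟩,
 nat_lit 699, nat_lit 6029, nat_lit 0, nat_lit 0, nat_lit 4657, nat_lit 444, nat_lit 830, nat_lit 0, nat_lit 0, nat_lit 106, nat_lit 0, nat_lit 0, nat_lit 0, nat_lit 0, nat_lit 0, nat_lit 387600, nat_lit 0, nat_lit 0, [(nat_lit 15, [(nat_lit 1, nat_lit 969)])],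
 ⟨p067_k9, nat_lit 0, nat_lit 0, nat_lit 480, nat_lit 0, nat_lit 661376, [nat_lit 2059315800, nat_lit 2409687201, nat_lit 2515150800], [], [nat_lit 25486424803, nat_lit 23061161657, nat_lit 20868110775, nat_lit 22429587360, nat_lit 17774147396, nat_lit 18660444992, nat_lit 25033480789, nat_lit 22951801789], nat_lit 1271250, nat_lit 1271250, nat_lit 490000, nat_lit 1740000, nat_lit 0, nat_lit 1100001, [nat_lit 780000, nat_lit 1100000, nat_lit 1785000], [nat_lit 36, nat_lit 40, nat_lit 40, nat_lit 80, nat_lit 7, nat_lit 317, nat_lit 100, nat_lit 10]⟩, ⟨p067_k10, nat_lit 0, nat_lit 0, nat_lit 581, nat_lit 0, nat_lit 732620, [nat_lit 101742000, nat_lit 145328000, nat_lit 305102000], [], [nat_lit 2504764372, nat_lit 2262610324, nat_lit 894186904, nat_lit 1015953122, nat_lit 781409438, nat_lit 875527053, nat_lit 1042086856, nat_lit 859485942], nat_lit 1271250, nat_lit 1271250, nat_lit 490000, nat_lit 1740000, nat_lit 0, nat_lit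 2118750, [nat_lit 780000, nat_lit 1100000, nat_lit 2127500], [nat_lit 42, nat_lit 40, nat_lit 40, nat_lit 80, nat_lit 13, nat_lit 373, nat_lit 150, nat_lit 11]⟩,
 ⟨nat_lit 4472, nat_lit 5000, ⟨.ofNat (nat_lit 371392), .ofNat (nat_lit 657088), .ofNat (nat_lit 392808), .ofNat (nat_lit 678503), .ofNat (nat_lit 382295), .ofNat (nat_lit 654189), .ofNat (nat_lit 403849), .ofNat (nat_lit 675743)⟩, ⟨.negSucc (nat_lit 28572), .ofNat (nat_lit 257141), .ofNat (nat_lit 0), .ofNat (nat_lit 299999), .negSucc (nat_lit 12423), .ofNat (nat_lit 259489), .ofNat (nat_lit 0), .ofNat (nat_lit 302621)⟩⟩, [⟨nat_lit 19, nat_lit 94, nat_lit 100, nat_lit 75, nat_lit 4378675⟩]⟩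
noncomputable def p067_l109 : Lf2 := ⟨nat_lit 0, nat_lit 10, [nat_lit 0, nat_lit 5, nat_lit 5, nat_lit 20], false, nat_lit 0, nat_lit 160, nat_lit 0, nat_lit 280, ⟨nat_lit 859, nat_lit 141, nat_lit 0, nat_lit 7, nat_lit 226, nat_lit 141, nat_lit 56, nat_lit 0, nat_lit 0, nat_lit 0, nat_lit 0, nat_lit 0, nat_lit 0, nat_lit 0, nat_lit 0, nat_lit 5000000, false, false⟩,
 nat_lit 10486, nat_lit 0, nat_lit 0, nat_lit 0, nat_lit 7259, nat_lit 5652, nat_lit 1042, nat_lit 0, nat_lit 0, nat_lit 770, nat_lit 0, nat_lit 0, nat_lit 0, nat_lit 0, nat_lit 0, nat_lit 141000, nat_lit 0, nat_lit 0, [(nat_lit 15, [(nat_lit 2, nat_lit 141)])],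
 ⟨p067_k8, nat_lit 0, nat_lit 0, nat_lit 506, nat_lit 0, nat_lit 748470, [nat_lit 3117255600, nat_lit 5516518000, nat_lit 6746206800], [], [nat_lit 22919636512, nat_lit 22508968378, nat_lit 23890355838, nat_lit 26271388320, nat_lit 17065138925, nat_lit 18238743392, nat_lit 28935458692, nat_lit 25731728078], nat_lit 1271250, nat_lit 1271250, nat_lit 631250, nat_lit 1751250, nat_lit 0, nat_lit 1100001, [nat_lit 780000, nat_lit 1435000, nat_lit 1271250], [nat_lit 18, nat_lit 40, nat_lit 40, nat_lit 80, nat_lit 2, nat_lit 317, nat_lit 100, nat_lit 10]⟩, ⟨p067_k8, nat_lit 0, nat_lit 0, nat_lit 506, nat_lit 0, nat_lit 748470, [nat_lit 2819238000, nat_lit 5368750000, nat_lit 6844512000], [], [nat_lit 32538508938, nat_lit 29526908562, nat_lit 23316298696, nat_lit 24013895146, nat_lit 22067653430, nat_lit 22638865510, nat_lit 27026478920, nat_lit 24562709948], nat_lit 1271250, nat_lit 1271250, nat_lit 631250, nat_lit 1751250,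 nat_lit 0, nat_lit 1977500, [nat_lit 780000, nat_lit 1435000, nat_lit 1271250], [nat_lit 18, nat_lit 40, nat_lit 40, nat_lit 80, nat_lit 2, nat_lit 373, nat_lit 150, nat_lit 12]⟩,
 ⟨nat_lit 4472, nat_lit 5000, ⟨.ofNat (nat_lit 428520), .ofNat (nat_lit 678503), .ofNat (nat_lit 449936), .ofNat (nat_lit 699920), .ofNat (nat_lit 437835), .ofNat (nat_lit 675743), .ofNat (nat_lit 459390), .ofNat (nat_lit 697297)⟩, ⟨.negSucc (nat_lit 28572), .ofNat (nat_lit 257141), .ofNat (nat_lit 0), .ofNat (nat_lit 299999), .negSucc (nat_lit 12423), .ofNat (nat_lit 259489), .ofNat (nat_lit 0), .ofNat (nat_lit 302621)⟩⟩, []⟩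
noncomputable def p067_l110 : Lf2 := ⟨nat_lit 0, nat_lit 10, [nat_lit 0, nat_lit 5, nat_lit 5, nat_lit 20], false, nat_lit 160, nat_lit 280, nat_lit 0, nat_lit 300, ⟨nat_lit 26, nat_lit 974, nat_lit 0, nat_lit 7, nat_lit 187, nat_lit 974, nat_lit 154, nat_lit 0, nat_lit 0, nat_lit 0, nat_lit 0, nat_lit 0, nat_lit 0, nat_lit 0, nat_lit 0, nat_lit 5000000, false, false⟩,
 nat_lit 459, nat_lit 7099, nat_lit 0, nat_lit 0, nat_lit 5232, nat_lit 292, nat_lit 1024, nat_lit 0, nat_lit 0, nat_lit 14, nat_lit 0, nat_lit 0, nat_lit 0, nat_lit 28541775232675, nat_lit 0, nat_lit 389600, nat_lit 0, nat_lit 0, [(nat_lit 15, [(nat_lit 1, nat_lit 974)])],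
 ⟨p067_k8, nat_lit 0, nat_lit 0, nat_lit 405, nat_lit 0, nat_lit 748470, [nat_lit 2053006800, nat_lit 2456140134, nat_lit 2473950666], [], [nat_lit 14977698150, nat_lit 16099815376, nat_lit 15739616032, nat_lit 16801876464, nat_lit 20345943752, nat_lit 21998143312, nat_lit 23788504230, nat_lit 22004428608], nat_lit 1271250, nat_lit 1271250, nat_lit 490000, nat_lit 1100001, nat_lit 1100001, nat_lit 2127500, [nat_lit 780000, nat_lit 1435000, nat_lit 1271250], [nat_lit 18, nat_lit 40, nat_lit 40, nat_lit 80, nat_lit 2, nat_lit 345, nat_lit 125, nat_lit 11]⟩, ⟨p067_k0, nat_lit 0, nat_lit 0, nat_lit 620, nat_lit 0, nat_lit 829096, [nat_lit 85332000, nat_lit 162500000, nat_lit 255892000], [], [nat_lit 981178600, nat_lit 843554030, nat_lit 666813822, nat_lit 791513166, nat_lit 689434352, nat_lit 743244298, nat_lit 943169396, nat_lit 687008600], nat_lit 1271250, nat_lit 1271250, nat_lit 490000, nat_lit 1100001, nat_lit 0, nat_lit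 2118750, [nat_lit 780000, nat_lit 1435000, nat_lit 1271250], [nat_lit 8, nat_lit 40, nat_lit 40, nat_lit 80, nat_lit 1, nat_lit 345, nat_lit 125, nat_lit 10]⟩,
 ⟨nat_lit 4472, nat_lit 5000, ⟨.ofNat (nat_lit 371392), .ofNat (nat_lit 514240), .ofNat (nat_lit 414225), .ofNat (nat_lit 557072), .ofNat (nat_lit 382295), .ofNat (nat_lit 518242), .ofNat (nat_lit 425403), .ofNat (nat_lit 561349)⟩, ⟨.ofNat (nat_lit 257141), .ofNat (nat_lit 471427), .ofNat (nat_lit 299999), .ofNat (nat_lit 514284), .ofNat (nat_lit 259489), .ofNat (nat_lit 463423), .ofNat (nat_lit 302621), .ofNat (nat_lit 506556)⟩⟩, [⟨nat_lit 16, nat_lit 85, nat_lit 100, nat_lit 73, nat_lit 209923126⟩, ⟨nat_lit 16, nat_lit 94, nat_lit 100, nat_lit 87, nat_lit 220721666⟩, ⟨nat_lit 7, nat_lit 100, nat_lit 90, nat_lit 74, nat_lit 4273779⟩]⟩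
noncomputable def p067_l111 : Lf2 := ⟨nat_lit 0, nat_lit 10, [nat_lit 0, nat_lit 5, nat_lit 5, nat_lit 20], false, nat_lit 160, nat_lit 280, nat_lit 0, nat_lit 300, ⟨nat_lit 569, nat_lit 431, nat_lit 0, nat_lit 7, nat_lit 243, nat_lit 431, nat_lit 154, nat_lit 0, nat_lit 0, nat_lit 0, nat_lit 0, nat_lit 0, nat_lit 0, nat_lit 0, nat_lit 0, nat_lit 5000000, false, false⟩,
 nat_lit 9566, nat_lit 0, nat_lit 0, nat_lit 0, nat_lit 6622, nat_lit 6087, nat_lit 905, nat_lit 0, nat_lit 0, nat_lit 312, nat_lit 0, nat_lit 0, nat_lit 0, nat_lit 0, nat_lit 0, nat_lit 431000, nat_lit 0, nat_lit 0, [(nat_lit 15, [(nat_lit 2, nat_lit 431)])],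
 ⟨p067_k8, nat_lit 0, nat_lit 0, nat_lit 374, nat_lit 0, nat_lit 748470, [nat_lit 2778419601, nat_lit 4007938001, nat_lit 4233298800], [], [nat_lit 15196615744, nat_lit 16368219680, nat_lit 17897373976, nat_lit 19791576760, nat_lit 20865744400, nat_lit 22557292768, nat_lit 25021199807, nat_lit 24825264364], nat_lit 1271250, nat_lit 1271250, nat_lit 1100001, nat_lit 1785000, nat_lit 1100001, nat_lit 2127500, [nat_lit 780000, nat_lit 1435000, nat_lit 1271250], [nat_lit 18, nat_lit 40, nat_lit 40, nat_lit 80, nat_lit 2, nat_lit 373, nat_lit 150, nat_lit 11]⟩, ⟨p067_k0, nat_lit 0, nat_lit 0, nat_lit 586, nat_lit 0, nat_lit 829096, [nat_lit 1867458000, nat_lit 3556250000, nat_lit 5600098000], [], [nat_lit 19642472496, nat_lit 17174157368, nat_lit 16362280236, nat_lit 18540039248, nat_lit 13456792805, nat_lit 14948348673, nat_lit 20024819635, nat_lit 15965420953], nat_lit 1271250, nat_lit 1271250, nat_lit 1100001, nat_lit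 1785000, nat_lit 0, nat_lit 2118750, [nat_lit 780000, nat_lit 1435000, nat_lit 1271250], [nat_lit 8, nat_lit 40, nat_lit 40, nat_lit 80, nat_lit 1, nat_lit 373, nat_lit 150, nat_lit 11]⟩,
 ⟨nat_lit 4472, nat_lit 5000, ⟨.ofNat (nat_lit 514240), .ofNat (nat_lit 657088), .ofNat (nat_lit 557072), .ofNat (nat_lit 699920), .ofNat (nat_lit 518242), .ofNat (nat_lit 654189), .ofNat (nat_lit 561349), .ofNat (nat_lit 697297)⟩, ⟨.ofNat (nat_lit 257141), .ofNat (nat_lit 471427), .ofNat (nat_lit 299999), .ofNat (nat_lit 514284), .ofNat (nat_lit 259489), .ofNat (nat_lit 463423), .ofNat (nat_lit 302621), .ofNat (nat_lit 506556)⟩⟩, [⟨nat_lit 16, nat_lit 94, nat_lit 100, nat_lit 87, nat_lit 475673142⟩, ⟨nat_lit 19, nat_lit 100, nat_lit 95, nat_lit 87, nat_lit 68869016⟩]⟩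
noncomputable def p067_l112 : Lf2 := ⟨nat_lit 0, nat_lit 10, [nat_lit 0, nat_lit 5, nat_lit 5, nat_lit 20], false, nat_lit 0, nat_lit 300, nat_lit 0, nat_lit 300, ⟨nat_lit 1000, nat_lit 0, nat_lit 0, nat_lit 0, nat_lit 0, nat_lit 0, nat_lit 0, nat_lit 0, nat_lit 0, nat_lit 0, nat_lit 0, nat_lit 0, nat_lit 0, nat_lit 0, nat_lit 0, nat_lit 0, false, false⟩,
 nat_lit 10955, nat_lit 0, nat_lit 0, nat_lit 0, nat_lit 6971, nat_lit 6971, nat_lit 1184, nat_lit 0, nat_lit 0, nat_lit 893, nat_lit 0, nat_lit 0, nat_lit 0, nat_lit 0, nat_lit 0, nat_lit 0, nat_lit 0, nat_lit 0, [],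
 ⟨p067_k10, nat_lit 0, nat_lit 0, nat_lit 567, nat_lit 0, nat_lit 829096, [nat_lit 3282000000, nat_lit 4688000000, nat_lit 9842000000], [], [nat_lit 28755404616, nat_lit 30029029424, nat_lit 38259342136, nat_lit 40777085076, nat_lit 27143319603, nat_lit 27953751140, nat_lit 33798554569, nat_lit 35362340678], nat_lit 1271250, nat_lit 1271250, nat_lit 1271250, nat_lit 1271250, nat_lit 0, nat_lit 2118750, [nat_lit 780000, nat_lit 1100000, nat_lit 2127500], [nat_lit 42, nat_lit 40, nat_lit 40, nat_lit 80, nat_lit 13, nat_lit 401, nat_lit 175, nat_lit 11]⟩, ⟨p067_k10, nat_lit 0, nat_lit 0, nat_lit 567, nat_lit 0, nat_lit 829096, [nat_lit 3282000000, nat_lit 4688000000, nat_lit 9842000000], [], [nat_lit 30205857741, nat_lit 31479482549, nat_lit 38259342136, nat_lit 40777085076, nat_lit 28593772728, nat_lit 29404204265, nat_lit 33798554569, nat_lit 35362340678], nat_lit 1271250, nat_lit 1271250, nat_lit 1271250, nat_lit 1271250,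 nat_lit 0, nat_lit 2118750, [nat_lit 780000, nat_lit 1100000, nat_lit 2127500], [nat_lit 42, nat_lit 40, nat_lit 40, nat_lit 80, nat_lit 13, nat_lit 401, nat_lit 175, nat_lit 11]⟩,
 zbF0, [⟨nat_lit 4, nat_lit 100, nat_lit 90, nat_lit 74, nat_lit 135701726⟩, ⟨nat_lit 19, nat_lit 90, nat_lit 100, nat_lit 74, nat_lit 135701726⟩]⟩
noncomputable def b_V_700_700_10_24 : St := ⟨true, nat_lit 1, nat_lit 1, nat_lit 2, nat_lit 80, nat_lit 280, nat_lit 320, nat_lit 280, nat_lit 320, nat_lit 64, nat_lit 400, nat_lit 40, nat_lit 80, nat_lit 0, nat_lit 300, nat_lit 0, nat_lit 300, nat_lit 0, nat_lit 40, nat_lit 0, nat_lit 0, nat_lit 0, nat_lit 0⟩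
theorem d_V_700_700_10_24 (h : EB TB.env) : Dead b_V_700_700_10_24 := chkB_sound0 h (T :=
(.spl (nat_lit 2) (nat_lit 240)
(.spl (nat_lit 0) (nat_lit 300)
(.ord (.spl (nat_lit 4) (nat_lit 160)
(.spl (nat_lit 2) (nat_lit 160)
(.leaf p067_l104)
(.leaf p067_l105))
(.spl (nat_lit 0) (nat_lit 290)
(.ord (.leaf p067_l106))
(.trZ (nat_lit 0) (nat_lit 100) (nat_lit 97) (nat_lit 84) (nat_lit 72) (.trX (nat_lit 16) (nat_lit 100) (nat_lit 100) (nat_lit 89) (nat_lit 292) (.leaf p067_l107))))))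
(.trZ (nat_lit 0) (nat_lit 100) (nat_lit 94) (nat_lit 88) (nat_lit 80) (.trX (nat_lit 16) (nat_lit 94) (nat_lit 100) (nat_lit 87) (nat_lit 280) (.spl (nat_lit 4) (nat_lit 160)
(.spl (nat_lit 1) (nat_lit 300)
(.leaf p067_l108)
(.trZ (nat_lit 0) (nat_lit 100) (nat_lit 100) (nat_lit 100) (nat_lit 100) (.trX (nat_lit 19) (nat_lit 94) (nat_lit 100) (nat_lit 87) (nat_lit 280) (.leaf p067_l109))))
(.spl (nat_lit 2) (nat_lit 160)
(.leaf p067_l110)
(.leaf p067_l111))))))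
(.leaf p067_l112))) (by decide +kernel)
noncomputable def p067_l113 : Lf2 := ⟨nat_lit 0, nat_lit 20, [nat_lit 5, nat_lit 5, nat_lit 5, nat_lit 20], false, nat_lit 0, nat_lit 160, nat_lit 0, nat_lit 160, ⟨nat_lit 1000, nat_lit 0, nat_lit 0, nat_lit 0, nat_lit 0, nat_lit 0, nat_lit 0, nat_lit 0, nat_lit 0, nat_lit 0, nat_lit 0, nat_lit 0, nat_lit 0, nat_lit 0, nat_lit 0, nat_lit 0, false, false⟩,
 nat_lit 0, nat_lit 0, nat_lit 0, nat_lit 19562, nat_lit 8438, nat_lit 8438, nat_lit 1402, nat_lit 0, nat_lit 0, nat_lit 1402, nat_lit 0, nat_lit 0, nat_lit 0, nat_lit 0, nat_lit 0, nat_lit 0, nat_lit 0, nat_lit 0, [],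
 ⟨p067_k24, nat_lit 0, nat_lit 0, nat_lit 327, nat_lit 0, nat_lit 0, [nat_lit 3282000000, nat_lit 6250000000, nat_lit 11872000000], [], [nat_lit 23473976050, nat_lit 27395343960, nat_lit 21842358438, nat_lit 25403636720, nat_lit 18019917256, nat_lit 21566586303, nat_lit 17157501952, nat_lit 20445285560], nat_lit 0, nat_lit 0, nat_lit 0, nat_lit 0, nat_lit 0, nat_lit 0, [], [nat_lit 23, nat_lit 40, nat_lit 40, nat_lit 80, nat_lit 12, nat_lit 373, nat_lit 150, nat_lit 10]⟩, ⟨p067_k24, nat_lit 0, nat_lit 0, nat_lit 327, nat_lit 0, nat_lit 0, [nat_lit 3282000000, nat_lit 6250000000, nat_lit 11872000000], [], [nat_lit 23473976050, nat_lit 27395343960, nat_lit 21842358438, nat_lit 25403636720, nat_lit 18019917256, nat_lit 21566586303, nat_lit 17157501952, nat_lit 20445285560], nat_lit 0, nat_lit 0, nat_lit 0, nat_lit 0, nat_lit 0, nat_lit 0, [], [nat_lit 23, nat_lit 40, nat_lit 40, nat_lit 80, nat_lit 12, nat_lit 373, nat_lit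 150, nat_lit 10]⟩,
 zbF0, [⟨nat_lit 0, nat_lit 100, nat_lit 100, nat_lit 100, nat_lit 902179068⟩]⟩
noncomputable def p067_l114 : Lf2 := ⟨nat_lit 0, nat_lit 20, [nat_lit 5, nat_lit 5, nat_lit 5, nat_lit 20], false, nat_lit 0, nat_lit 160, nat_lit 160, nat_lit 300, ⟨nat_lit 1000, nat_lit 0, nat_lit 0, nat_lit 0, nat_lit 0, nat_lit 0, nat_lit 0, nat_lit 0, nat_lit 0, nat_lit 0, nat_lit 0, nat_lit 0, nat_lit 0, nat_lit 0, nat_lit 0, nat_lit 0, false, false⟩,
 nat_lit 0, nat_lit 0, nat_lit 0, nat_lit 24512, nat_lit 8438, nat_lit 21855, nat_lit 1472, nat_lit 0, nat_lit 0, nat_lit 193, nat_lit 0, nat_lit 0, nat_lit 0, nat_lit 0, nat_lit 0, nat_lit 0, nat_lit 0, nat_lit 0, [],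
 ⟨p067_k24, nat_lit 0, nat_lit 0, nat_lit 327, nat_lit 0, nat_lit 0, [nat_lit 3282000000, nat_lit 6250000000, nat_lit 11872000000], [], [nat_lit 22802632300, nat_lit 26724000210, nat_lit 21402398856, nat_lit 25403636720, nat_lit 18019917256, nat_lit 21566586303, nat_lit 17157501952, nat_lit 20445285560], nat_lit 0, nat_lit 0, nat_lit 0, nat_lit 0, nat_lit 0, nat_lit 0, [], [nat_lit 23, nat_lit 40, nat_lit 40, nat_lit 80, nat_lit 12, nat_lit 373, nat_lit 150, nat_lit 10]⟩, ⟨p067_k24, nat_lit 0, nat_lit 0, nat_lit 163, nat_lit 0, nat_lit 0, [nat_lit 3282000000, nat_lit 6250000000, nat_lit 11872000000], [], [nat_lit 23343436711, nat_lit 29912441660, nat_lit 17519445875, nat_lit 23578217535, nat_lit 32228072998, nat_lit 40886610319, nat_lit 25543522255, nat_lit 33531310495], nat_lit 0, nat_lit 0, nat_lit 0, nat_lit 0, nat_lit 0, nat_lit 0, [], [nat_lit 23, nat_lit 40, nat_lit 40, nat_lit 80, nat_lit 12, nat_lit 428, nat_lit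 200, nat_lit 11]⟩,
 zbF0, [⟨nat_lit 0, nat_lit 100, nat_lit 100, nat_lit 100, nat_lit 689867007⟩, ⟨nat_lit 0, nat_lit 100, nat_lit 100, nat_lit 80, nat_lit 535875120⟩, ⟨nat_lit 7, nat_lit 100, nat_lit 90, nat_lit 74, nat_lit 800092057⟩]⟩
noncomputable def p067_l115 : Lf2 := ⟨nat_lit 0, nat_lit 20, [nat_lit 5, nat_lit 5, nat_lit 5, nat_lit 20], false, nat_lit 160, nat_lit 300, nat_lit 0, nat_lit 300, ⟨nat_lit 1000, nat_lit 0, nat_lit 0, nat_lit 0, nat_lit 0, nat_lit 0, nat_lit 0, nat_lit 0, nat_lit 0, nat_lit 0, nat_lit 0, nat_lit 0, nat_lit 0, nat_lit 0, nat_lit 0, nat_lit 0, false, false⟩,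
 nat_lit 0, nat_lit 0, nat_lit 0, nat_lit 25289, nat_lit 5012, nat_lit 8691, nat_lit 0, nat_lit 0, nat_lit 0, nat_lit 1272, nat_lit 0, nat_lit 0, nat_lit 0, nat_lit 8967361016943, nat_lit 0, nat_lit 0, nat_lit 0, nat_lit 0, [],
 ⟨p067_k24, nat_lit 0, nat_lit 0, nat_lit 71, nat_lit 0, nat_lit 0, [nat_lit 3282000000, nat_lit 6250000000, nat_lit 11872000000], [], [nat_lit 12457175012, nat_lit 14398933615, nat_lit 12552416704, nat_lit 14364932768, nat_lit 20573535225, nat_lit 22113128456, nat_lit 20187364608, nat_lit 21497921288], nat_lit 0, nat_lit 0, nat_lit 0, nat_lit 0, nat_lit 0, nat_lit 0, [], [nat_lit 23, nat_lit 40, nat_lit 40, nat_lit 80, nat_lit 12, nat_lit 428, nat_lit 200, nat_lit 11]⟩, ⟨p067_k24, nat_lit 0, nat_lit 0, nat_lit 322, nat_lit 0, nat_lit 0, [nat_lit 3282000000, nat_lit 6250000000, nat_lit 11872000000], [], [nat_lit 24936878116, nat_lit 26935902542, nat_lit 22818718552, nat_lit 24691888982, nat_lit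 23307055541, nat_lit 25268163804, nat_lit 21709839681, nat_lit 23257424121], nat_lit 0, nat_lit 0, nat_lit 0, nat_lit 0, nat_lit 0, nat_lit 0, [], [nat_lit 23, nat_lit 40, nat_lit 40, nat_lit 80, nat_lit 12, nat_lit 428, nat_lit 200, nat_lit 11]⟩,
 zbF0, [⟨nat_lit 0, nat_lit 100, nat_lit 100, nat_lit 90, nat_lit 790984639⟩, ⟨nat_lit 4, nat_lit 100, nat_lit 94, nat_lit 75, nat_lit 674144535⟩, ⟨nat_lit 7, nat_lit 100, nat_lit 94, nat_lit 75, nat_lit 216698244⟩]⟩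
noncomputable def p067_l116 : Lf2 := ⟨nat_lit 0, nat_lit 20, [nat_lit 5, nat_lit 5, nat_lit 5, nat_lit 20], false, nat_lit 160, nat_lit 280, nat_lit 0, nat_lit 300, ⟨nat_lit 1000, nat_lit 0, nat_lit 0, nat_lit 0, nat_lit 0, nat_lit 0, nat_lit 0, nat_lit 0, nat_lit 0, nat_lit 0, nat_lit 0, nat_lit 0, nat_lit 0, nat_lit 0, nat_lit 0, nat_lit 0, false, false⟩,
 nat_lit 0, nat_lit 0, nat_lit 0, nat_lit 21330, nat_lit 5113, nat_lit 8395, nat_lit 0, nat_lit 0, nat_lit 0, nat_lit 1238, nat_lit 0, nat_lit 0, nat_lit 0, nat_lit 0, nat_lit 0, nat_lit 0, nat_lit 0, nat_lit 0, [],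
 ⟨p067_k25, nat_lit 0, nat_lit 0, nat_lit 62, nat_lit 0, nat_lit 0, [nat_lit 3282000000, nat_lit 6250000000, nat_lit 9842000000], [], [nat_lit 14046773782, nat_lit 15980415856, nat_lit 14249748732, nat_lit 16083694168, nat_lit 20279446052, nat_lit 21910224208, nat_lit 20194102492, nat_lit 21599087278], nat_lit 0, nat_lit 0, nat_lit 0, nat_lit 0, nat_lit 0, nat_lit 0, [], [nat_lit 8, nat_lit 40, nat_lit 40, nat_lit 80, nat_lit 1, nat_lit 317, nat_lit 100, nat_lit 9]⟩, ⟨p067_k24, nat_lit 0, nat_lit 0, nat_lit 239, nat_lit 0, nat_lit 0, [nat_lit 3282000000, nat_lit 6250000000, nat_lit 11872000000], [], [nat_lit 24041375510, nat_lit 27897298910, nat_lit 23002165690, nat_lit 26666378390, nat_lit 22827566905, nat_lit 26116755490, nat_lit 21943415945, nat_lit 24974273200], nat_lit 0, nat_lit 0, nat_lit 0, nat_lit 0, nat_lit 0, nat_lit 0, [], [nat_lit 23, nat_lit 40, nat_lit 40, nat_lit 80, nat_lit 12, nat_lit 428, nat_lit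 200, nat_lit 11]⟩,
 zbF0, [⟨nat_lit 0, nat_lit 97, nat_lit 93, nat_lit 100, nat_lit 546611059⟩, ⟨nat_lit 0, nat_lit 100, nat_lit 94, nat_lit 88, nat_lit 229943506⟩, ⟨nat_lit 16, nat_lit 94, nat_lit 100, nat_lit 87, nat_lit 565464199⟩, ⟨nat_lit 19, nat_lit 100, nat_lit 95, nat_lit 87, nat_lit 99954361⟩, ⟨nat_lit 7, nat_lit 100, nat_lit 90, nat_lit 74, nat_lit 96153873⟩]⟩
noncomputable def p067_l117 : Lf2 := ⟨nat_lit 0, nat_lit 20, [nat_lit 5, nat_lit 5, nat_lit 5, nat_lit 20], false, nat_lit 0, nat_lit 300, nat_lit 0, nat_lit 160, ⟨nat_lit 1000, nat_lit 0, nat_lit 0, nat_lit 0, nat_lit 0, nat_lit 0, nat_lit 0, nat_lit 0, nat_lit 0, nat_lit 0, nat_lit 0, nat_lit 0, nat_lit 0, nat_lit 0, nat_lit 0, nat_lit 0, false, false⟩,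
 nat_lit 0, nat_lit 0, nat_lit 0, nat_lit 5133, nat_lit 15756, nat_lit 6308, nat_lit 0, nat_lit 0, nat_lit 0, nat_lit 0, nat_lit 0, nat_lit 0, nat_lit 0, nat_lit 0, nat_lit 0, nat_lit 0, nat_lit 0, nat_lit 0, [],
 ⟨p067_k26, nat_lit 0, nat_lit 0, nat_lit 203, nat_lit 0, nat_lit 0, [nat_lit 3282000000, nat_lit 11872000000], [], [nat_lit 38422419232, nat_lit 44129014992, nat_lit 40130947968, nat_lit 44442337728, nat_lit 30199711336, nat_lit 33292244148, nat_lit 28896483596, nat_lit 31152413452], nat_lit 0, nat_lit 0, nat_lit 0, nat_lit 0, nat_lit 0, nat_lit 0, [], [nat_lit 135, nat_lit 40, nat_lit 40, nat_lit 80, nat_lit 134, nat_lit 456, nat_lit 225, nat_lit 12]⟩, ⟨p067_k26, nat_lit 0, nat_lit 0, nat_lit 203, nat_lit 0, nat_lit 0, [nat_lit 3282000000, nat_lit 11872000000], [], [nat_lit 33869692576, nat_lit 36954846256, nat_lit 36376993024, nat_lit 38827504704, nat_lit 29651667600, nat_lit 32266903136, nat_lit 31869301168,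 nat_lit 33950781504], nat_lit 0, nat_lit 0, nat_lit 0, nat_lit 0, nat_lit 0, nat_lit 0, [], [nat_lit 135, nat_lit 40, nat_lit 40, nat_lit 80, nat_lit 134, nat_lit 428, nat_lit 200, nat_lit 11]⟩,
 zbF0, [⟨nat_lit 0, nat_lit 100, nat_lit 100, nat_lit 100, nat_lit 130272468⟩]⟩
noncomputable def p067_l118 : Lf2 := ⟨nat_lit 0, nat_lit 20, [nat_lit 5, nat_lit 5, nat_lit 5, nat_lit 20], false, nat_lit 0, nat_lit 300, nat_lit 0, nat_lit 160, ⟨nat_lit 1000, nat_lit 0, nat_lit 0, nat_lit 0, nat_lit 0, nat_lit 0, nat_lit 0, nat_lit 0, nat_lit 0, nat_lit 0, nat_lit 0, nat_lit 0, nat_lit 0, nat_lit 0, nat_lit 0, nat_lit 0, false, false⟩,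
 nat_lit 0, nat_lit 0, nat_lit 0, nat_lit 3963, nat_lit 11623, nat_lit 11120, nat_lit 0, nat_lit 0, nat_lit 0, nat_lit 0, nat_lit 0, nat_lit 0, nat_lit 0, nat_lit 2224344924788, nat_lit 0, nat_lit 0, nat_lit 0, nat_lit 0, [],
 ⟨p067_k26, nat_lit 0, nat_lit 0, nat_lit 231, nat_lit 0, nat_lit 0, [nat_lit 3282000000, nat_lit 11872000000], [], [nat_lit 44596500772, nat_lit 46371689996, nat_lit 51650727200, nat_lit 53792245988, nat_lit 34983650628, nat_lit 35834476251, nat_lit 39210769938, nat_lit 40806194814], nat_lit 0, nat_lit 0, nat_lit 0, nat_lit 0, nat_lit 0, nat_lit 0, [], [nat_lit 135, nat_lit 40, nat_lit 40, nat_lit 80, nat_lit 134, nat_lit 538, nat_lit 300, nat_lit 13]⟩, ⟨p067_k26, nat_lit 0, nat_lit 0, nat_lit 231, nat_lit 0, nat_lit 0, [nat_lit 3282000000, nat_lit 11872000000], [], [nat_lit 44933327680, nat_lit 46673866240, nat_lit 51653257600, nat_lit 52809289440, nat_lit 35102476480, nat_lit 36510913120, nat_lit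 40572084800, nat_lit 41162169920], nat_lit 0, nat_lit 0, nat_lit 0, nat_lit 0, nat_lit 0, nat_lit 0, [], [nat_lit 135, nat_lit 40, nat_lit 40, nat_lit 80, nat_lit 134, nat_lit 456, nat_lit 225, nat_lit 11]⟩,
 zbF0, [⟨nat_lit 9, nat_lit 100, nat_lit 83, nat_lit 39, nat_lit 15450679⟩]⟩
noncomputable def p067_l119 : Lf2 := ⟨nat_lit 0, nat_lit 20, [nat_lit 5, nat_lit 5, nat_lit 5, nat_lit 20], false, nat_lit 0, nat_lit 300, nat_lit 160, nat_lit 300, ⟨nat_lit 1000, nat_lit 0, nat_lit 0, nat_lit 0, nat_lit 0, nat_lit 0, nat_lit 0, nat_lit 0, nat_lit 0, nat_lit 0, nat_lit 0, nat_lit 0, nat_lit 0, nat_lit 0, nat_lit 0, nat_lit 0, false, false⟩,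
 nat_lit 0, nat_lit 0, nat_lit 0, nat_lit 12703, nat_lit 7949, nat_lit 8395, nat_lit 833, nat_lit 0, nat_lit 0, nat_lit 0, nat_lit 0, nat_lit 0, nat_lit 0, nat_lit 0, nat_lit 0, nat_lit 0, nat_lit 0, nat_lit 0, [],
 ⟨p067_k24, nat_lit 0, nat_lit 0, nat_lit 242, nat_lit 0, nat_lit 0, [nat_lit 3282000000, nat_lit 6250000000, nat_lit 11872000000], [], [nat_lit 27633227199, nat_lit 30380843551, nat_lit 40818392584, nat_lit 43513290444, nat_lit 26287024081, nat_lit 27895385182, nat_lit 34869209311, nat_lit 36506813882], nat_lit 0, nat_lit 0, nat_lit 0, nat_lit 0, nat_lit 0, nat_lit 0, [], [nat_lit 23, nat_lit 40, nat_lit 40, nat_lit 80, nat_lit 12, nat_lit 538, nat_lit 300, nat_lit 14]⟩, ⟨p067_k24, nat_lit 0, nat_lit 0, nat_lit 90, nat_lit 0, nat_lit 0, [nat_lit 3282000000, nat_lit 6250000000, nat_lit 11872000000], [], [nat_lit 13637228300, nat_lit 17972596140, nat_lit 32026838760, nat_lit 34457137880, nat_lit 21943415945,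 nat_lit 24974273200, nat_lit 35357462905, nat_lit 37028731110], nat_lit 0, nat_lit 0, nat_lit 0, nat_lit 0, nat_lit 0, nat_lit 0, [], [nat_lit 23, nat_lit 40, nat_lit 40, nat_lit 80, nat_lit 12, nat_lit 538, nat_lit 300, nat_lit 13]⟩,
 zbF0, [⟨nat_lit 4, nat_lit 100, nat_lit 90, nat_lit 74, nat_lit 95868931⟩, ⟨nat_lit 19, nat_lit 100, nat_lit 95, nat_lit 87, nat_lit 539872901⟩]⟩
noncomputable def b_V_700_700_10_25 : St := ⟨true, nat_lit 0, nat_lit 0, nat_lit 1, nat_lit 80, nat_lit 280, nat_lit 320, nat_lit 280, nat_lit 320, nat_lit 64, nat_lit 400, nat_lit 40, nat_lit 80, nat_lit 0, nat_lit 300, nat_lit 0, nat_lit 300, nat_lit 40, nat_lit 80, nat_lit 0, nat_lit 0, nat_lit 0, nat_lit 0⟩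
theorem d_V_700_700_10_25 (h : EB TB.env) : Dead b_V_700_700_10_25 := chkB_sound0 h (T :=
(.spl (nat_lit 2) (nat_lit 120)
(.spl (nat_lit 4) (nat_lit 160)
(.spl (nat_lit 5) (nat_lit 160)
(.leaf p067_l113)
(.leaf p067_l114))
(.spl (nat_lit 0) (nat_lit 300)
(.ord (.leaf p067_l115))
(.trZ (nat_lit 0) (nat_lit 100) (nat_lit 94) (nat_lit 88) (nat_lit 80) (.trX (nat_lit 16) (nat_lit 94) (nat_lit 100) (nat_lit 87) (nat_lit 280) (.leaf p067_l116)))))
(.spl (nat_lit 5) (nat_lit 160)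
(.spl (nat_lit 2) (nat_lit 240)
(.leaf p067_l117)
(.leaf p067_l118))
(.leaf p067_l119)))) (by decide +kernel)
noncomputable def p067_l120 : Lf2 := ⟨nat_lit 0, nat_lit 15, [nat_lit 30, nat_lit 5, nat_lit 5, nat_lit 20], false, nat_lit 0, nat_lit 160, nat_lit 0, nat_lit 276, ⟨nat_lit 218, nat_lit 0, nat_lit 782, nat_lit 7, nat_lit 156, nat_lit 641, nat_lit 53, nat_lit 782, nat_lit 20417, nat_lit 250, nat_lit 228150, nat_lit 332, nat_lit 58119831, nat_lit 0, nat_lit 0, nat_lit 1955930, false, false⟩,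
 nat_lit 0, nat_lit 0, nat_lit 4315, nat_lit 0, nat_lit 3589, nat_lit 2745, nat_lit 0, nat_lit 0, nat_lit 0, nat_lit 79, nat_lit 0, nat_lit 0, nat_lit 0, nat_lit 8146707778142, nat_lit 101, nat_lit 782000, nat_lit 0, nat_lit 0, [(nat_lit 13, [(nat_lit 6, nat_lit 782)])],
 ⟨p067_k27, nat_lit 0, nat_lit 0, nat_lit 192, nat_lit 0, nat_lit 0, [nat_lit 2820311467, nat_lit 2499674134, nat_lit 3476800], [], [nat_lit 15313504159, nat_lit 16001436012, nat_lit 15440463523, nat_lit 16030475153, nat_lit 14950185617, nat_lit 15484862622, nat_lit 15138951779, nat_lit 15642033785], nat_lit 0, nat_lit 0, nat_lit 0, nat_lit 0, nat_lit 0, nat_lit 0, [], [nat_lit 8, nat_lit 40, nat_lit 40, nat_lit 80, nat_lit 1, nat_lit 289, nat_lit 75, nat_lit 9]⟩, ⟨p067_k27, nat_lit 0, nat_lit 0, nat_lit 376, nat_lit 0, nat_lit 351728, [nat_lit 715476000, nat_lit 1362500000, nat_lit 2145556000], [], [nat_lit 7174038973, nat_lit 7371499067, nat_lit 6512690146,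 nat_lit 6695593461, nat_lit 5544014085, nat_lit 5733791031, nat_lit 5759209472, nat_lit 5144809710], nat_lit 1271250, nat_lit 1271250, nat_lit 382400, nat_lit 780000, nat_lit 0, nat_lit 1949250, [nat_lit 780000, nat_lit 1435000, nat_lit 1271250], [nat_lit 8, nat_lit 40, nat_lit 40, nat_lit 80, nat_lit 1, nat_lit 317, nat_lit 100, nat_lit 9]⟩,
 ⟨nat_lit 5244, nat_lit 5478, ⟨.ofNat (nat_lit 330654), .ofNat (nat_lit 435559), .ofNat (nat_lit 341333), .ofNat (nat_lit 446237), .ofNat (nat_lit 336758), .ofNat (nat_lit 439196), .ofNat (nat_lit 347451), .ofNat (nat_lit 449888)⟩, ⟨.negSucc (nat_lit 45522), .ofNat (nat_lit 254209), .negSucc (nat_lit 24165), .ofNat (nat_lit 275566), .negSucc (nat_lit 36940), .ofNat (nat_lit 255744), .negSucc (nat_lit 15554), .ofNat (nat_lit 277129)⟩⟩, [⟨nat_lit 0, nat_lit 100, nat_lit 100, nat_lit 85, nat_lit 107709985⟩, ⟨nat_lit 0, nat_lit 100, nat_lit 100, nat_lit 90, nat_lit 90447774⟩, ⟨nat_lit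 7, nat_lit 100, nat_lit 94, nat_lit 69, nat_lit 13013241⟩]⟩
noncomputable def p067_l121 : Lf2 := ⟨nat_lit 0, nat_lit 15, [nat_lit 30, nat_lit 5, nat_lit 5, nat_lit 20], false, nat_lit 0, nat_lit 160, nat_lit 0, nat_lit 276, ⟨nat_lit 174, nat_lit 0, nat_lit 826, nat_lit 7, nat_lit 163, nat_lit 596, nat_lit 53, nat_lit 826, nat_lit 22817, nat_lit 252, nat_lit 121584, nat_lit 300, nat_lit 57424614, nat_lit 0, nat_lit 0, nat_lit 2051109, false, false⟩,
 nat_lit 0, nat_lit 0, nat_lit 3341, nat_lit 0, nat_lit 3704, nat_lit 2126, nat_lit 388, nat_lit 0, nat_lit 0, nat_lit 57, nat_lit 0, nat_lit 0, nat_lit 0, nat_lit 0, nat_lit 19, nat_lit 330400, nat_lit 0, nat_lit 0, [(nat_lit 13, [(nat_lit 5, nat_lit 826)])],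
 ⟨p067_k28, nat_lit 0, nat_lit 0, nat_lit 193, nat_lit 0, nat_lit 0, [nat_lit 1831898400, nat_lit 1023222134, nat_lit 150102400], [], [nat_lit 15597821780, nat_lit 16293537229, nat_lit 15585856872, nat_lit 16246371344, nat_lit 14910319532, nat_lit 15475172155, nat_lit 15198341622, nat_lit 15800411630], nat_lit 0, nat_lit 0, nat_lit 0, nat_lit 0, nat_lit 0, nat_lit 0, [], [nat_lit 8, nat_lit 40, nat_lit 40, nat_lit 80, nat_lit 1, nat_lit 289, nat_lit 75, nat_lit 8]⟩, ⟨p067_k27, nat_lit 0, nat_lit 0, nat_lit 488, nat_lit 0, nat_lit 548591, [nat_lit 571068000, nat_lit 1087500000, nat_lit 1712508000], [], [nat_lit 5720750465, nat_lit 6027081240, nat_lit 5322339386, nat_lit 5608608278, nat_lit 4495583327, nat_lit 4682332960, nat_lit 4689901157, nat_lit 4264598989], nat_lit 1271250, nat_lit 1271250, nat_lit 435600, nat_lit 780000, nat_lit 0, nat_lit 1949250, [nat_lit 780000, nat_lit 1435000, nat_lit 1271250], [nat_lit 8,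 nat_lit 40, nat_lit 40, nat_lit 80, nat_lit 1, nat_lit 317, nat_lit 100, nat_lit 9]⟩,
 ⟨nat_lit 5000, nat_lit 5245, ⟨.ofNat (nat_lit 351391), .ofNat (nat_lit 439194), .ofNat (nat_lit 372775), .ofNat (nat_lit 460577), .ofNat (nat_lit 357140), .ofNat (nat_lit 442852), .ofNat (nat_lit 378567), .ofNat (nat_lit 464278)⟩, ⟨.negSucc (nat_lit 36940), .ofNat (nat_lit 255744), .negSucc (nat_lit 15554), .ofNat (nat_lit 277129), .negSucc (nat_lit 28572), .ofNat (nat_lit 257141), .negSucc (nat_lit 7143), .ofNat (nat_lit 278570)⟩⟩, [⟨nat_lit 0, nat_lit 100, nat_lit 99, nat_lit 92, nat_lit 226587701⟩, ⟨nat_lit 7, nat_lit 100, nat_lit 92, nat_lit 68, nat_lit 9672792⟩]⟩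
noncomputable def p067_l122 : Lf2 := ⟨nat_lit 0, nat_lit 20, [nat_lit 5, nat_lit 5, nat_lit 5, nat_lit 20], false, nat_lit 0, nat_lit 160, nat_lit 0, nat_lit 160, ⟨nat_lit 1000, nat_lit 0, nat_lit 0, nat_lit 0, nat_lit 0, nat_lit 0, nat_lit 0, nat_lit 0, nat_lit 0, nat_lit 0, nat_lit 0, nat_lit 0, nat_lit 0, nat_lit 0, nat_lit 0, nat_lit 0, false, false⟩,
 nat_lit 0, nat_lit 0, nat_lit 13336, nat_lit 2430, nat_lit 6578, nat_lit 8486, nat_lit 1452, nat_lit 0, nat_lit 0, nat_lit 656, nat_lit 0, nat_lit 0, nat_lit 0, nat_lit 0, nat_lit 0, nat_lit 0, nat_lit 0, nat_lit 0, [],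
 ⟨p067_k24, nat_lit 0, nat_lit 0, nat_lit 322, nat_lit 0, nat_lit 0, [nat_lit 3282000000, nat_lit 6250000000, nat_lit 11872000000], [], [nat_lit 21401254428, nat_lit 23082226713, nat_lit 20074210516, nat_lit 21654244456, nat_lit 16528356510, nat_lit 18397891208, nat_lit 16200487560, nat_lit 17835882772], nat_lit 0, nat_lit 0, nat_lit 0, nat_lit 0, nat_lit 0, nat_lit 0, [], [nat_lit 23, nat_lit 40, nat_lit 40, nat_lit 80, nat_lit 12, nat_lit 373, nat_lit 150, nat_lit 10]⟩, ⟨p067_k24, nat_lit 0, nat_lit 0, nat_lit 487, nat_lit 0, nat_lit 325577, [nat_lit 3282000000, nat_lit 6250000000, nat_lit 11872000000], [], [nat_lit 31468390375, nat_lit 32638112287, nat_lit 29978087264, nat_lit 31067962844, nat_lit 26065124624, nat_lit 27031782676, nat_lit 24692365120, nat_lit 25587348492], nat_lit 1271250, nat_lit 1271250, nat_lit 382400, nat_lit 780000, nat_lit 0, nat_lit 1100001, [nat_lit 780000, nat_lit 1435000, nat_lit 1271250],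 [nat_lit 23, nat_lit 40, nat_lit 40, nat_lit 80, nat_lit 12, nat_lit 373, nat_lit 150, nat_lit 10]⟩,
 zbF0, [⟨nat_lit 0, nat_lit 100, nat_lit 100, nat_lit 90, nat_lit 768772624⟩]⟩
noncomputable def p067_l123 : Lf2 := ⟨nat_lit 0, nat_lit 20, [nat_lit 5, nat_lit 5, nat_lit 5, nat_lit 20], false, nat_lit 0, nat_lit 160, nat_lit 160, nat_lit 300, ⟨nat_lit 1000, nat_lit 0, nat_lit 0, nat_lit 0, nat_lit 0, nat_lit 0, nat_lit 0, nat_lit 0, nat_lit 0, nat_lit 0, nat_lit 0, nat_lit 0, nat_lit 0, nat_lit 0, nat_lit 0, nat_lit 0, false, false⟩,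
 nat_lit 0, nat_lit 0, nat_lit 13584, nat_lit 20098, nat_lit 6849, nat_lit 8644, nat_lit 1521, nat_lit 0, nat_lit 0, nat_lit 1244, nat_lit 0, nat_lit 0, nat_lit 0, nat_lit 0, nat_lit 0, nat_lit 0, nat_lit 0, nat_lit 0, [],
 ⟨p067_k24, nat_lit 0, nat_lit 0, nat_lit 236, nat_lit 0, nat_lit 0, [nat_lit 3282000000, nat_lit 6250000000, nat_lit 11872000000], [], [nat_lit 20971552099, nat_lit 21832433919, nat_lit 19543044703, nat_lit 20351859588, nat_lit 16129950593, nat_lit 17148934571, nat_lit 15635989860, nat_lit 16584328012], nat_lit 0, nat_lit 0, nat_lit 0, nat_lit 0, nat_lit 0, nat_lit 0, [], [nat_lit 23, nat_lit 40, nat_lit 40, nat_lit 80, nat_lit 12, nat_lit 373, nat_lit 150, nat_lit 10]⟩, ⟨p067_k24, nat_lit 0, nat_lit 0, nat_lit 198, nat_lit 0, nat_lit 129696, [nat_lit 3282000000, nat_lit 6250000000, nat_lit 11872000000], [], [nat_lit 17811930641, nat_lit 18651885775, nat_lit 16176133300, nat_lit 16959293512, nat_lit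 23577212882, nat_lit 24161974018, nat_lit 21746927804, nat_lit 22518167113], nat_lit 1271250, nat_lit 1271250, nat_lit 382400, nat_lit 780000, nat_lit 1100001, nat_lit 2298750, [nat_lit 780000, nat_lit 1435000, nat_lit 1271250], [nat_lit 23, nat_lit 40, nat_lit 40, nat_lit 80, nat_lit 12, nat_lit 428, nat_lit 200, nat_lit 11]⟩,
 zbF0, [⟨nat_lit 0, nat_lit 100, nat_lit 100, nat_lit 90, nat_lit 792400829⟩, ⟨nat_lit 7, nat_lit 100, nat_lit 99, nat_lit 83, nat_lit 506776006⟩]⟩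
noncomputable def p067_l124 : Lf2 := ⟨nat_lit 0, nat_lit 20, [nat_lit 5, nat_lit 5, nat_lit 5, nat_lit 20], false, nat_lit 0, nat_lit 160, nat_lit 160, nat_lit 300, ⟨nat_lit 1000, nat_lit 0, nat_lit 0, nat_lit 0, nat_lit 0, nat_lit 0, nat_lit 0, nat_lit 0, nat_lit 0, nat_lit 0, nat_lit 0, nat_lit 0, nat_lit 0, nat_lit 0, nat_lit 0, nat_lit 0, false, false⟩,
 nat_lit 0, nat_lit 0, nat_lit 18590, nat_lit 0, nat_lit 7414, nat_lit 11830, nat_lit 1633, nat_lit 0, nat_lit 0, nat_lit 906, nat_lit 0, nat_lit 0, nat_lit 0, nat_lit 0, nat_lit 0, nat_lit 0, nat_lit 0, nat_lit 0, [],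
 ⟨p067_k29, nat_lit 0, nat_lit 0, nat_lit 235, nat_lit 0, nat_lit 0, [nat_lit 3282000000, nat_lit 6250000000, nat_lit 11872000000], [], [nat_lit 19673708369, nat_lit 20571089165, nat_lit 18448566000, nat_lit 19651166414, nat_lit 14814941394, nat_lit 15879105323, nat_lit 14362239482, nat_lit 15360098754], nat_lit 0, nat_lit 0, nat_lit 0, nat_lit 0, nat_lit 0, nat_lit 0, [], [nat_lit 23, nat_lit 40, nat_lit 40, nat_lit 80, nat_lit 12, nat_lit 373, nat_lit 150, nat_lit 10]⟩, ⟨p067_k24, nat_lit 0, nat_lit 0, nat_lit 331, nat_lit 0, nat_lit 325577, [nat_lit 3282000000, nat_lit 6250000000, nat_lit 11872000000], [], [nat_lit 19363154198, nat_lit 21413080950, nat_lit 17310862750, nat_lit 19230019930, nat_lit 25832284967, nat_lit 27219031264, nat_lit 23907597390, nat_lit 24667627515], nat_lit 1271250, nat_lit 1271250, nat_lit 435600, nat_lit 780000, nat_lit 1100001, nat_lit 2298750, [nat_lit 780000, nat_lit 1435000, nat_lit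 1271250], [nat_lit 23, nat_lit 40, nat_lit 40, nat_lit 80, nat_lit 12, nat_lit 428, nat_lit 200, nat_lit 11]⟩,
 zbF0, [⟨nat_lit 0, nat_lit 100, nat_lit 99, nat_lit 92, nat_lit 865066149⟩, ⟨nat_lit 7, nat_lit 100, nat_lit 97, nat_lit 82, nat_lit 536730934⟩]⟩
noncomputable def p067_l125 : Lf2 := ⟨nat_lit 0, nat_lit 20, [nat_lit 5, nat_lit 5, nat_lit 5, nat_lit 20], false, nat_lit 0, nat_lit 160, nat_lit 0, nat_lit 160, ⟨nat_lit 1000, nat_lit 0, nat_lit 0, nat_lit 0, nat_lit 0, nat_lit 0, nat_lit 0, nat_lit 0, nat_lit 0, nat_lit 0, nat_lit 0, nat_lit 0, nat_lit 0, nat_lit 0, nat_lit 0, nat_lit 0, false, false⟩,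
 nat_lit 0, nat_lit 0, nat_lit 10317, nat_lit 0, nat_lit 7802, nat_lit 6565, nat_lit 1583, nat_lit 0, nat_lit 0, nat_lit 465, nat_lit 0, nat_lit 0, nat_lit 0, nat_lit 0, nat_lit 0, nat_lit 0, nat_lit 0, nat_lit 0, [],
 ⟨p067_k24, nat_lit 0, nat_lit 0, nat_lit 212, nat_lit 0, nat_lit 0, [nat_lit 3282000000, nat_lit 6250000000, nat_lit 11872000000], [], [nat_lit 19407649969, nat_lit 21157489429, nat_lit 23443650184, nat_lit 25380760996, nat_lit 14403894280, nat_lit 16467627672, nat_lit 18490875360, nat_lit 20102948836], nat_lit 0, nat_lit 0, nat_lit 0, nat_lit 0, nat_lit 0, nat_lit 0, [], [nat_lit 23, nat_lit 40, nat_lit 40, nat_lit 80, nat_lit 12, nat_lit 401, nat_lit 175, nat_lit 10]⟩, ⟨p067_k24, nat_lit 0, nat_lit 0, nat_lit 534, nat_lit 0, nat_lit 551743, [nat_lit 3282000000, nat_lit 6250000000, nat_lit 11872000000], [], [nat_lit 39536021600, nat_lit 36111388385, nat_lit 36469856895, nat_lit 37233365985, nat_lit 31755495495,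 nat_lit 32465127785, nat_lit 32656426075, nat_lit 33292057535], nat_lit 1271250, nat_lit 1271250, nat_lit 780000, nat_lit 1762500, nat_lit 0, nat_lit 1100001, [nat_lit 780000, nat_lit 1435000, nat_lit 1271250], [nat_lit 23, nat_lit 40, nat_lit 40, nat_lit 80, nat_lit 12, nat_lit 401, nat_lit 175, nat_lit 10]⟩,
 zbF0, []⟩
noncomputable def p067_l126 : Lf2 := ⟨nat_lit 0, nat_lit 20, [nat_lit 5, nat_lit 5, nat_lit 5, nat_lit 20], false, nat_lit 0, nat_lit 160, nat_lit 160, nat_lit 300, ⟨nat_lit 1000, nat_lit 0, nat_lit 0, nat_lit 0, nat_lit 0, nat_lit 0, nat_lit 0, nat_lit 0, nat_lit 0, nat_lit 0, nat_lit 0, nat_lit 0, nat_lit 0, nat_lit 0, nat_lit 0, nat_lit 0, false, false⟩,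
 nat_lit 0, nat_lit 0, nat_lit 11826, nat_lit 0, nat_lit 7802, nat_lit 7525, nat_lit 1583, nat_lit 0, nat_lit 0, nat_lit 1008, nat_lit 0, nat_lit 0, nat_lit 0, nat_lit 0, nat_lit 0, nat_lit 0, nat_lit 0, nat_lit 0, [],
 ⟨p067_k24, nat_lit 0, nat_lit 0, nat_lit 212, nat_lit 0, nat_lit 0, [nat_lit 3282000000, nat_lit 6250000000, nat_lit 11872000000], [], [nat_lit 19407649969, nat_lit 21157489429, nat_lit 23443650184, nat_lit 25380760996, nat_lit 14403894280, nat_lit 16467627672, nat_lit 18490875360, nat_lit 20102948836], nat_lit 0, nat_lit 0, nat_lit 0, nat_lit 0, nat_lit 0, nat_lit 0, [], [nat_lit 23, nat_lit 40, nat_lit 40, nat_lit 80, nat_lit 12, nat_lit 401, nat_lit 175, nat_lit 10]⟩, ⟨p067_k24, nat_lit 0, nat_lit 0, nat_lit 388, nat_lit 0, nat_lit 551743, [nat_lit 3282000000, nat_lit 6250000000, nat_lit 11872000000], [], [nat_lit 22235692200, nat_lit 22568247600, nat_lit 23155747800, nat_lit 23737113650, nat_lit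 25295716850, nat_lit 26085301600, nat_lit 26378007025, nat_lit 27234675075], nat_lit 1271250, nat_lit 1271250, nat_lit 780000, nat_lit 1762500, nat_lit 1271250, nat_lit 1271250, [nat_lit 780000, nat_lit 1435000, nat_lit 1271250], [nat_lit 23, nat_lit 40, nat_lit 40, nat_lit 80, nat_lit 12, nat_lit 456, nat_lit 225, nat_lit 11]⟩,
 zbF0, [⟨nat_lit 7, nat_lit 100, nat_lit 94, nat_lit 75, nat_lit 468465949⟩]⟩
noncomputable def p067_l127 : Lf2 := ⟨nat_lit 0, nat_lit 20, [nat_lit 5, nat_lit 5, nat_lit 5, nat_lit 20], true, nat_lit 160, nat_lit 240, nat_lit 0, nat_lit 300, ⟨nat_lit 0, nat_lit 0, nat_lit 1000, nat_lit 7, nat_lit 159, nat_lit 1000, nat_lit 140, nat_lit 1000, nat_lit 183750, nat_lit 320, nat_lit 121536, nat_lit 300, nat_lit 50136167, nat_lit 0, nat_lit 0, nat_lit 3945596, false, false⟩,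
 nat_lit 0, nat_lit 0, nat_lit 0, nat_lit 2073, nat_lit 4617, nat_lit 0, nat_lit 0, nat_lit 0, nat_lit 0, nat_lit 0, nat_lit 0, nat_lit 0, nat_lit 0, nat_lit 8819759030932, nat_lit 0, nat_lit 250000, nat_lit 0, nat_lit 0, [(nat_lit 13, [(nat_lit 0, nat_lit 1000)])],
 ⟨p067_k26, nat_lit 0, nat_lit 0, nat_lit 24, nat_lit 0, nat_lit 0, [nat_lit 2380933334, nat_lit 3797885714], [], [nat_lit 11995854894, nat_lit 13878621721, nat_lit 12185630198, nat_lit 13914338322, nat_lit 15871308921, nat_lit 17613085696, nat_lit 15787467862, nat_lit 17256226952], nat_lit 0, nat_lit 0, nat_lit 0, nat_lit 0, nat_lit 0, nat_lit 0, [], [nat_lit 135, nat_lit 40, nat_lit 40, nat_lit 80, nat_lit 134, nat_lit 401, nat_lit 175, nat_lit 10]⟩, C1.Rw.none,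
 ⟨nat_lit 5000, nat_lit 5478, ⟨.ofNat (nat_lit 330654), .ofNat (nat_lit 435548), .ofNat (nat_lit 352005), .ofNat (nat_lit 456895), .ofNat (nat_lit 342856), .ofNat (nat_lit 442843), .ofNat (nat_lit 364277), .ofNat (nat_lit 464262)⟩, ⟨.ofNat (nat_lit 254209), .ofNat (nat_lit 404075), .ofNat (nat_lit 296923), .ofNat (nat_lit 446789), .ofNat (nat_lit 257141), .ofNat (nat_lit 399998), .ofNat (nat_lit 299999), .ofNat (nat_lit 442856)⟩⟩, [⟨nat_lit 0, nat_lit 100, nat_lit 100, nat_lit 100, nat_lit 129131802⟩]⟩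
noncomputable def p067_l128 : Lf2 := ⟨nat_lit 0, nat_lit 20, [nat_lit 5, nat_lit 5, nat_lit 5, nat_lit 20], false, nat_lit 240, nat_lit 300, nat_lit 0, nat_lit 160, ⟨nat_lit 1000, nat_lit 0, nat_lit 0, nat_lit 0, nat_lit 0, nat_lit 0, nat_lit 0, nat_lit 0, nat_lit 0, nat_lit 0, nat_lit 0, nat_lit 0, nat_lit 0, nat_lit 0, nat_lit 0, nat_lit 0, false, false⟩,
 nat_lit 0, nat_lit 0, nat_lit 12177, nat_lit 0, nat_lit 5435, nat_lit 7749, nat_lit 0, nat_lit 0, nat_lit 0, nat_lit 763, nat_lit 0, nat_lit 0, nat_lit 0, nat_lit 0, nat_lit 0, nat_lit 0, nat_lit 0, nat_lit 0, [],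
 ⟨p067_k24, nat_lit 0, nat_lit 0, nat_lit 71, nat_lit 0, nat_lit 0, [nat_lit 3282000000, nat_lit 6250000000, nat_lit 11872000000], [], [nat_lit 16034372068, nat_lit 17948404836, nat_lit 15796247040, nat_lit 17403059990, nat_lit 20865636606, nat_lit 22475884627, nat_lit 20062881320, nat_lit 21577432418], nat_lit 0, nat_lit 0, nat_lit 0, nat_lit 0, nat_lit 0, nat_lit 0, [], [nat_lit 23, nat_lit 40, nat_lit 40, nat_lit 80, nat_lit 12, nat_lit 428, nat_lit 200, nat_lit 10]⟩, ⟨p067_k24, nat_lit 0, nat_lit 0, nat_lit 562, nat_lit 0, nat_lit 551743, [nat_lit 3282000000, nat_lit 6250000000, nat_lit 11872000000], [], [nat_lit 31585256170, nat_lit 32621220403, nat_lit 30233073501, nat_lit 31273916471, nat_lit 26807444741, nat_lit 27733465202, nat_lit 25637702205, nat_lit 26497013303], nat_lit 1271250, nat_lit 1271250, nat_lit 382400, nat_lit 780000, nat_lit 0, nat_lit 1100001, [nat_lit 780000, nat_lit 1435000, nat_lit 1271250],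 [nat_lit 23, nat_lit 40, nat_lit 40, nat_lit 80, nat_lit 12, nat_lit 373, nat_lit 150, nat_lit 10]⟩,
 zbF0, [⟨nat_lit 0, nat_lit 100, nat_lit 100, nat_lit 90, nat_lit 747358825⟩, ⟨nat_lit 4, nat_lit 100, nat_lit 94, nat_lit 75, nat_lit 910287573⟩]⟩
noncomputable def p067_l129 : Lf2 := ⟨nat_lit 0, nat_lit 20, [nat_lit 5, nat_lit 5, nat_lit 5, nat_lit 20], false, nat_lit 240, nat_lit 300, nat_lit 160, nat_lit 300, ⟨nat_lit 1000, nat_lit 0, nat_lit 0, nat_lit 0, nat_lit 0, nat_lit 0, nat_lit 0, nat_lit 0, nat_lit 0, nat_lit 0, nat_lit 0, nat_lit 0, nat_lit 0, nat_lit 0, nat_lit 0, nat_lit 0, false, false⟩,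
 nat_lit 0, nat_lit 0, nat_lit 14200, nat_lit 5503, nat_lit 5341, nat_lit 9036, nat_lit 0, nat_lit 0, nat_lit 0, nat_lit 1210, nat_lit 0, nat_lit 0, nat_lit 0, nat_lit 0, nat_lit 0, nat_lit 0, nat_lit 0, nat_lit 0, [],
 ⟨p067_k24, nat_lit 0, nat_lit 0, nat_lit 65, nat_lit 0, nat_lit 0, [nat_lit 3282000000, nat_lit 6250000000, nat_lit 11872000000], [], [nat_lit 16111708425, nat_lit 16962793886, nat_lit 15898783744, nat_lit 16694258029, nat_lit 20800589772, nat_lit 21597930958, nat_lit 20031798152, nat_lit 20781903922], nat_lit 0, nat_lit 0, nat_lit 0, nat_lit 0, nat_lit 0, nat_lit 0, [], [nat_lit 23, nat_lit 40, nat_lit 40, nat_lit 80, nat_lit 12, nat_lit 428, nat_lit 200, nat_lit 10]⟩, ⟨p067_k24, nat_lit 0, nat_lit 0, nat_lit 342, nat_lit 0, nat_lit 349069, [nat_lit 3282000000, nat_lit 6250000000, nat_lit 11872000000], [], [nat_lit 18771386583, nat_lit 19200048143, nat_lit 16957708134, nat_lit 17570523534, nat_lit 23860770521,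 nat_lit 24461569609, nat_lit 27773004188, nat_lit 25713557471], nat_lit 1271250, nat_lit 1271250, nat_lit 382400, nat_lit 780000, nat_lit 1100001, nat_lit 2298750, [nat_lit 780000, nat_lit 1435000, nat_lit 1271250], [nat_lit 23, nat_lit 40, nat_lit 40, nat_lit 80, nat_lit 12, nat_lit 428, nat_lit 200, nat_lit 11]⟩,
 zbF0, [⟨nat_lit 0, nat_lit 100, nat_lit 100, nat_lit 85, nat_lit 303610087⟩, ⟨nat_lit 4, nat_lit 100, nat_lit 97, nat_lit 76, nat_lit 848346597⟩, ⟨nat_lit 7, nat_lit 100, nat_lit 97, nat_lit 76, nat_lit 552737449⟩]⟩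
noncomputable def p067_l130 : Lf2 := ⟨nat_lit 0, nat_lit 20, [nat_lit 5, nat_lit 5, nat_lit 5, nat_lit 20], false, nat_lit 240, nat_lit 292, nat_lit 160, nat_lit 300, ⟨nat_lit 495, nat_lit 505, nat_lit 0, nat_lit 7, nat_lit 163, nat_lit 505, nat_lit 188, nat_lit 0, nat_lit 0, nat_lit 0, nat_lit 0, nat_lit 0, nat_lit 46054234, nat_lit 9329287, nat_lit 11616479, nat_lit 4490121, false, false⟩,
 nat_lit 0, nat_lit 0, nat_lit 7315, nat_lit 2570, nat_lit 4869, nat_lit 4655, nat_lit 0, nat_lit 0, nat_lit 0, nat_lit 558, nat_lit 0, nat_lit 0, nat_lit 0, nat_lit 0, nat_lit 0, nat_lit 126250, nat_lit 0, nat_lit 0, [(nat_lit 13, [(nat_lit 0, nat_lit 505)])],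
 ⟨p067_k29, nat_lit 0, nat_lit 0, nat_lit 61, nat_lit 0, nat_lit 0, [nat_lit 2825682000, nat_lit 4673390001, nat_lit 7703528000], [], [nat_lit 16722124492, nat_lit 17523448989, nat_lit 16712975461, nat_lit 17468620026, nat_lit 20431825836, nat_lit 21203532595, nat_lit 20035455027, nat_lit 20766612206], nat_lit 0, nat_lit 0, nat_lit 0, nat_lit 0, nat_lit 0, nat_lit 0, [], [nat_lit 23, nat_lit 40, nat_lit 40, nat_lit 80, nat_lit 12, nat_lit 428, nat_lit 200, nat_lit 10]⟩, ⟨p067_k24, nat_lit 0, nat_lit 0, nat_lit 411, nat_lit 0, nat_lit 551743, [nat_lit 1624590000, nat_lit 3093750000, nat_lit 5876640000], [], [nat_lit 9403897990, nat_lit 9902783247, nat_lit 8769783130, nat_lit 9382225380, nat_lit 11945041261, nat_lit 12546100975, nat_lit 13495597055, nat_lit 11630200283], nat_lit 1271250, nat_lit 1271250, nat_lit 435600, nat_lit 780000, nat_lit 1100001, nat_lit 2298750, [nat_lit 780000, nat_lit 1435000, nat_lit 1271250],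 [nat_lit 23, nat_lit 40, nat_lit 40, nat_lit 80, nat_lit 12, nat_lit 428, nat_lit 200, nat_lit 11]⟩,
 ⟨nat_lit 5000, nat_lit 5245, ⟨.ofNat (nat_lit 351391), .ofNat (nat_lit 439194), .ofNat (nat_lit 372775), .ofNat (nat_lit 460577), .ofNat (nat_lit 357140), .ofNat (nat_lit 442852), .ofNat (nat_lit 378567), .ofNat (nat_lit 464278)⟩, ⟨.ofNat (nat_lit 402086), .ofNat (nat_lit 497209), .ofNat (nat_lit 444857), .ofNat (nat_lit 539979), .ofNat (nat_lit 399998), .ofNat (nat_lit 492856), .ofNat (nat_lit 442856), .ofNat (nat_lit 535713)⟩⟩, [⟨nat_lit 0, nat_lit 100, nat_lit 99, nat_lit 92, nat_lit 217956670⟩, ⟨nat_lit 16, nat_lit 92, nat_lit 100, nat_lit 75, nat_lit 650575972⟩, ⟨nat_lit 19, nat_lit 94, nat_lit 100, nat_lit 75, nat_lit 288376044⟩]⟩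
noncomputable def p067_l131 : Lf2 := ⟨nat_lit 0, nat_lit 20, [nat_lit 5, nat_lit 5, nat_lit 5, nat_lit 20], false, nat_lit 160, nat_lit 300, nat_lit 0, nat_lit 300, ⟨nat_lit 334, nat_lit 666, nat_lit 0, nat_lit 7, nat_lit 224, nat_lit 666, nat_lit 162, nat_lit 0, nat_lit 0, nat_lit 0, nat_lit 0, nat_lit 0, nat_lit 43215761, nat_lit 14869756, nat_lit 8914483, nat_lit 4757475, false, false⟩,
 nat_lit 0, nat_lit 0, nat_lit 4386, nat_lit 0, nat_lit 4969, nat_lit 2791, nat_lit 0, nat_lit 0, nat_lit 0, nat_lit 103, nat_lit 0, nat_lit 0, nat_lit 0, nat_lit 8510869240284, nat_lit 0, nat_lit 166500, nat_lit 0, nat_lit 0, [(nat_lit 13, [(nat_lit 0, nat_lit 666)])],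
 ⟨p067_k24, nat_lit 0, nat_lit 0, nat_lit 42, nat_lit 0, nat_lit 0, [nat_lit 2680202400, nat_lit 4170748001, nat_lit 6400706320], [], [nat_lit 12008781248, nat_lit 13812173916, nat_lit 16443010576, nat_lit 17906452252, nat_lit 19908788168, nat_lit 21352251665, nat_lit 22822622552, nat_lit 23982363339], nat_lit 0, nat_lit 0, nat_lit 0, nat_lit 0, nat_lit 0, nat_lit 0, [], [nat_lit 23, nat_lit 40, nat_lit 40, nat_lit 80, nat_lit 12, nat_lit 456, nat_lit 225, nat_lit 11]⟩, ⟨p067_k24, nat_lit 0, nat_lit 0, nat_lit 534, nat_lit 0, nat_lit 551743, [nat_lit 1096188000, nat_lit 2087500000, nat_lit 3965248000], [], [nat_lit 14116729448, nat_lit 12641021690, nat_lit 11532110913, nat_lit 11910512881, nat_lit 10387562363, nat_lit 10593989581, nat_lit 12898104352, nat_lit 11658310056], nat_lit 1271250, nat_lit 1271250, nat_lit 780000, nat_lit 1762500, nat_lit 0, nat_lit 2118750, [nat_lit 780000, nat_lit 1435000, nat_lit 1271250],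 [nat_lit 23, nat_lit 40, nat_lit 40, nat_lit 80, nat_lit 12, nat_lit 456, nat_lit 225, nat_lit 12]⟩,
 ⟨nat_lit 5000, nat_lit 5478, ⟨.ofNat (nat_lit 435548), .ofNat (nat_lit 660309), .ofNat (nat_lit 456895), .ofNat (nat_lit 681655), .ofNat (nat_lit 442843), .ofNat (nat_lit 657090), .ofNat (nat_lit 464262), .ofNat (nat_lit 678509)⟩, ⟨.ofNat (nat_lit 254209), .ofNat (nat_lit 516475), .ofNat (nat_lit 296923), .ofNat (nat_lit 559189), .ofNat (nat_lit 257141), .ofNat (nat_lit 507141), .ofNat (nat_lit 299999), .ofNat (nat_lit 549998)⟩⟩, [⟨nat_lit 4, nat_lit 100, nat_lit 94, nat_lit 75, nat_lit 445759032⟩]⟩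
noncomputable def b_V_700_700_10_26 : St := ⟨true, nat_lit 0, nat_lit 1, nat_lit 1, nat_lit 80, nat_lit 280, nat_lit 300, nat_lit 280, nat_lit 320, nat_lit 64, nat_lit 240, nat_lit 40, nat_lit 80, nat_lit 0, nat_lit 300, nat_lit 0, nat_lit 300, nat_lit 40, nat_lit 80, nat_lit 0, nat_lit 0, nat_lit 0, nat_lit 0⟩
theorem d_V_700_700_10_26 (h : EB TB.env) : Dead b_V_700_700_10_26 := chkB_sound0 h (T :=
(.ord (.spl (nat_lit 4) (nat_lit 160)
(.spl (nat_lit 2) (nat_lit 120)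
(.spl (nat_lit 3) (nat_lit 60)
(.trX (nat_lit 19) (nat_lit 99) (nat_lit 100) (nat_lit 77) (nat_lit 276) (.spl (nat_lit 0) (nat_lit 290)
(.ord (.leaf p067_l120))
(.trZ (nat_lit 0) (nat_lit 100) (nat_lit 97) (nat_lit 84) (nat_lit 72) (.leaf p067_l121))))
(.spl (nat_lit 5) (nat_lit 160)
(.leaf p067_l122)
(.spl (nat_lit 0) (nat_lit 290)
(.ord (.leaf p067_l123))
(.trZ (nat_lit 0) (nat_lit 100) (nat_lit 97) (nat_lit 84) (nat_lit 72) (.leaf p067_l124)))))
(.spl (nat_lit 5) (nat_lit 160)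
(.leaf p067_l125)
(.leaf p067_l126)))
(.spl (nat_lit 2) (nat_lit 120)
(.spl (nat_lit 4) (nat_lit 240)
(.leaf p067_l127)
(.spl (nat_lit 5) (nat_lit 160)
(.leaf p067_l128)
(.spl (nat_lit 0) (nat_lit 290)
(.ord (.leaf p067_l129))
(.trZ (nat_lit 0) (nat_lit 100) (nat_lit 97) (nat_lit 84) (nat_lit 72) (.trX (nat_lit 16) (nat_lit 100) (nat_lit 100) (nat_lit 89) (nat_lit 292) (.leaf p067_l130))))))
(.leaf p067_l131))))) (by decide +kernel)
noncomputable def p067_l132 : Lf2 := ⟨nat_lit 0, nat_lit 20, [nat_lit 5, nat_lit 5, nat_lit 5, nat_lit 20], false, nat_lit 0, nat_lit 160, nat_lit 0, nat_lit 160, ⟨nat_lit 382, nat_lit 0, nat_lit 618, nat_lit 7, nat_lit 183, nat_lit 618, nat_lit 56, nat_lit 618, nat_lit 26667, nat_lit 255, nat_lit 8067, nat_lit 237, nat_lit 55412689, nat_lit 0, nat_lit 0, nat_lit 2302624, false, false⟩,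
 nat_lit 0, nat_lit 0, nat_lit 5322, nat_lit 0, nat_lit 3923, nat_lit 3386, nat_lit 159, nat_lit 0, nat_lit 0, nat_lit 382, nat_lit 0, nat_lit 0, nat_lit 0, nat_lit 0, nat_lit 37, nat_lit 618000, nat_lit 0, nat_lit 0, [(nat_lit 16, [(nat_lit 6, nat_lit 618)])],
 ⟨p067_k25, nat_lit 0, nat_lit 0, nat_lit 200, nat_lit 0, nat_lit 0, [nat_lit 2307319200, nat_lit 1699672801, nat_lit 26661600], [], [nat_lit 17180107592, nat_lit 18601468674, nat_lit 17788120424, nat_lit 19069279898, nat_lit 16216856906, nat_lit 17311599322, nat_lit 16923309528, nat_lit 17909966806], nat_lit 0, nat_lit 0, nat_lit 0, nat_lit 0, nat_lit 0, nat_lit 0, [], [nat_lit 8, nat_lit 40, nat_lit 40, nat_lit 80, nat_lit 1, nat_lit 317, nat_lit 100, nat_lit 9]⟩, ⟨p067_k24, nat_lit 0, nat_lit 0, nat_lit 678, nat_lit 0, nat_lit 779423, [nat_lit 1253724000, nat_lit 2387500000, nat_lit 4535104000], [], [nat_lit 10612965266, nat_lit 10952935630, nat_lit 10142216634,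 nat_lit 10439239258, nat_lit 8553793704, nat_lit 8939952192, nat_lit 10004723368, nat_lit 8626679996], nat_lit 1271250, nat_lit 1271250, nat_lit 490000, nat_lit 1100001, nat_lit 0, nat_lit 1100001, [nat_lit 780000, nat_lit 1435000, nat_lit 1271250], [nat_lit 23, nat_lit 40, nat_lit 40, nat_lit 80, nat_lit 12, nat_lit 401, nat_lit 175, nat_lit 10]⟩,
 ⟨nat_lit 4472, nat_lit 5000, ⟨.ofNat (nat_lit 371392), .ofNat (nat_lit 514240), .ofNat (nat_lit 392808), .ofNat (nat_lit 535656), .ofNat (nat_lit 382295), .ofNat (nat_lit 518242), .ofNat (nat_lit 403849), .ofNat (nat_lit 539796)⟩, ⟨.negSucc (nat_lit 28572), .ofNat (nat_lit 257141), .ofNat (nat_lit 0), .ofNat (nat_lit 299999), .negSucc (nat_lit 12423), .ofNat (nat_lit 259489), .ofNat (nat_lit 0), .ofNat (nat_lit 302621)⟩⟩, [⟨nat_lit 0, nat_lit 94, nat_lit 87, nat_lit 100, nat_lit 302865103⟩]⟩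
noncomputable def p067_l133 : Lf2 := ⟨nat_lit 0, nat_lit 20, [nat_lit 5, nat_lit 5, nat_lit 5, nat_lit 20], false, nat_lit 0, nat_lit 160, nat_lit 160, nat_lit 300, ⟨nat_lit 278, nat_lit 0, nat_lit 722, nat_lit 7, nat_lit 169, nat_lit 693, nat_lit 56, nat_lit 722, nat_lit 26667, nat_lit 255, nat_lit 92319, nat_lit 289, nat_lit 56854258, nat_lit 0, nat_lit 0, nat_lit 2125897, false, false⟩,
 nat_lit 0, nat_lit 0, nat_lit 4223, nat_lit 337, nat_lit 3568, nat_lit 2687, nat_lit 21, nat_lit 0, nat_lit 0, nat_lit 177, nat_lit 0, nat_lit 0, nat_lit 0, nat_lit 0, nat_lit 102, nat_lit 722000, nat_lit 0, nat_lit 0, [(nat_lit 16, [(nat_lit 6, nat_lit 722)])],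
 ⟨p067_k25, nat_lit 0, nat_lit 0, nat_lit 200, nat_lit 0, nat_lit 0, [nat_lit 2848576800, nat_lit 2109391201, nat_lit 20546400], [], [nat_lit 16269477314, nat_lit 17627581234, nat_lit 16472832642, nat_lit 17674040946, nat_lit 15793539746, nat_lit 16844762002, nat_lit 16017884738, nat_lit 17022935080], nat_lit 0, nat_lit 0, nat_lit 0, nat_lit 0, nat_lit 0, nat_lit 0, [], [nat_lit 8, nat_lit 40, nat_lit 40, nat_lit 80, nat_lit 1, nat_lit 289, nat_lit 75, nat_lit 8]⟩, ⟨p067_k24, nat_lit 0, nat_lit 0, nat_lit 543, nat_lit 0, nat_lit 779423, [nat_lit 912396000, nat_lit 1737500000, nat_lit 3300416000], [], [nat_lit 6311858591, nat_lit 6711604097, nat_lit 6038822647, nat_lit 6395266817, nat_lit 7864925180, nat_lit 8204960345, nat_lit 7478799507, nat_lit 7798302699], nat_lit 1271250, nat_lit 1271250, nat_lit 490000, nat_lit 780000, nat_lit 1100001, nat_lit 2298750, [nat_lit 780000, nat_lit 1435000, nat_lit 1271250], [nat_lit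 23, nat_lit 40, nat_lit 40, nat_lit 80, nat_lit 12, nat_lit 428, nat_lit 200, nat_lit 11]⟩,
 ⟨nat_lit 4472, nat_lit 5000, ⟨.ofNat (nat_lit 371392), .ofNat (nat_lit 442816), .ofNat (nat_lit 392808), .ofNat (nat_lit 464232), .ofNat (nat_lit 382295), .ofNat (nat_lit 450269), .ofNat (nat_lit 403849), .ofNat (nat_lit 471823)⟩, ⟨.negSucc (nat_lit 28572), .ofNat (nat_lit 257141), .ofNat (nat_lit 0), .ofNat (nat_lit 299999), .negSucc (nat_lit 12423), .ofNat (nat_lit 259489), .ofNat (nat_lit 0), .ofNat (nat_lit 302621)⟩⟩, [⟨nat_lit 0, nat_lit 100, nat_lit 94, nat_lit 97, nat_lit 270662935⟩, ⟨nat_lit 7, nat_lit 100, nat_lit 94, nat_lit 75, nat_lit 159490966⟩]⟩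
noncomputable def p067_l134 : Lf2 := ⟨nat_lit 0, nat_lit 20, [nat_lit 5, nat_lit 5, nat_lit 5, nat_lit 20], false, nat_lit 0, nat_lit 160, nat_lit 160, nat_lit 300, ⟨nat_lit 493, nat_lit 0, nat_lit 507, nat_lit 7, nat_lit 196, nat_lit 507, nat_lit 56, nat_lit 507, nat_lit 26667, nat_lit 255, nat_lit 8817, nat_lit 238, nat_lit 53997785, nat_lit 0, nat_lit 0, nat_lit 2460303, false, false⟩,
 nat_lit 0, nat_lit 0, nat_lit 7077, nat_lit 0, nat_lit 4738, nat_lit 4503, nat_lit 510, nat_lit 0, nat_lit 0, nat_lit 538, nat_lit 0, nat_lit 0, nat_lit 0, nat_lit 0, nat_lit 0, nat_lit 507000, nat_lit 0, nat_lit 0, [(nat_lit 16, [(nat_lit 6, nat_lit 507)])],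
 ⟨p067_k25, nat_lit 0, nat_lit 0, nat_lit 175, nat_lit 0, nat_lit 0, [nat_lit 2118130801, nat_lit 1909877201, nat_lit 939688400], [], [nat_lit 16610647168, nat_lit 17363492198, nat_lit 17107411944, nat_lit 18061485312, nat_lit 14956520864, nat_lit 15636168790, nat_lit 15644301872, nat_lit 16283189654], nat_lit 0, nat_lit 0, nat_lit 0, nat_lit 0, nat_lit 0, nat_lit 0, [], [nat_lit 8, nat_lit 40, nat_lit 40, nat_lit 80, nat_lit 1, nat_lit 317, nat_lit 100, nat_lit 9]⟩, ⟨p067_k24, nat_lit 0, nat_lit 0, nat_lit 482, nat_lit 0, nat_lit 662099, [nat_lit 1618026000, nat_lit 3081250000, nat_lit 5852896000], [], [nat_lit 10505968340, nat_lit 9722667692, nat_lit 9134171940, nat_lit 9729212964, nat_lit 11334165298, nat_lit 11783771483, nat_lit 11190080873, nat_lit 11597272284], nat_lit 1271250, nat_lit 1271250, nat_lit 780000, nat_lit 1100001, nat_lit 1100001, nat_lit 2298750, [nat_lit 780000, nat_lit 1435000, nat_lit 1271250],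 [nat_lit 23, nat_lit 40, nat_lit 40, nat_lit 80, nat_lit 12, nat_lit 428, nat_lit 200, nat_lit 10]⟩,
 ⟨nat_lit 4743, nat_lit 5000, ⟨.ofNat (nat_lit 442849), .ofNat (nat_lit 514275), .ofNat (nat_lit 464274), .ofNat (nat_lit 535701), .ofNat (nat_lit 446544), .ofNat (nat_lit 516242), .ofNat (nat_lit 468029), .ofNat (nat_lit 537728)⟩, ⟨.negSucc (nat_lit 28572), .ofNat (nat_lit 257141), .ofNat (nat_lit 0), .ofNat (nat_lit 299999), .negSucc (nat_lit 20404), .ofNat (nat_lit 258394), .ofNat (nat_lit 0), .ofNat (nat_lit 301370)⟩⟩, [⟨nat_lit 7, nat_lit 100, nat_lit 94, nat_lit 75, nat_lit 258088832⟩]⟩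
noncomputable def p067_l135 : Lf2 := ⟨nat_lit 0, nat_lit 20, [nat_lit 5, nat_lit 5, nat_lit 5, nat_lit 20], false, nat_lit 0, nat_lit 160, nat_lit 160, nat_lit 300, ⟨nat_lit 362, nat_lit 0, nat_lit 638, nat_lit 7, nat_lit 197, nat_lit 638, nat_lit 56, nat_lit 638, nat_lit 28017, nat_lit 256, nat_lit 8167, nat_lit 237, nat_lit 53874086, nat_lit 0, nat_lit 0, nat_lit 2473392, false, false⟩,
 nat_lit 0, nat_lit 0, nat_lit 5401, nat_lit 0, nat_lit 3954, nat_lit 3436, nat_lit 534, nat_lit 0, nat_lit 0, nat_lit 397, nat_lit 0, nat_lit 0, nat_lit 0, nat_lit 0, nat_lit 0, nat_lit 255200, nat_lit 0, nat_lit 0, [(nat_lit 16, [(nat_lit 5, nat_lit 638)])],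
 ⟨p067_k30, nat_lit 0, nat_lit 0, nat_lit 182, nat_lit 0, nat_lit 0, [nat_lit 2031775200, nat_lit 1645426400, nat_lit 1711072800], [], [nat_lit 17233253506, nat_lit 17870232438, nat_lit 17793113514, nat_lit 18375009550, nat_lit 16310207330, nat_lit 16834041046, nat_lit 16931728904, nat_lit 17597733952], nat_lit 0, nat_lit 0, nat_lit 0, nat_lit 0, nat_lit 0, nat_lit 0, [], [nat_lit 8, nat_lit 40, nat_lit 40, nat_lit 80, nat_lit 1, nat_lit 317, nat_lit 100, nat_lit 9]⟩, ⟨p067_k24, nat_lit 0, nat_lit 0, nat_lit 524, nat_lit 0, nat_lit 779423, [nat_lit 1188084000, nat_lit 2262500000, nat_lit 4297664000], [], [nat_lit 7639812632, nat_lit 6776357523, nat_lit 6318022816, nat_lit 6764664028, nat_lit 8167819509, nat_lit 8582519710, nat_lit 8040026612, nat_lit 8475611044], nat_lit 1271250, nat_lit 1271250, nat_lit 780000, nat_lit 1100001, nat_lit 1100001, nat_lit 2298750, [nat_lit 780000, nat_lit 1435000, nat_lit 1271250], [nat_lit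 23, nat_lit 40, nat_lit 40, nat_lit 80, nat_lit 12, nat_lit 428, nat_lit 200, nat_lit 10]⟩,
 ⟨nat_lit 4472, nat_lit 4744, ⟨.ofNat (nat_lit 446540), .ofNat (nat_lit 516239), .ofNat (nat_lit 468025), .ofNat (nat_lit 537724), .ofNat (nat_lit 450297), .ofNat (nat_lit 518274), .ofNat (nat_lit 471860), .ofNat (nat_lit 539838)⟩, ⟨.negSucc (nat_lit 20404), .ofNat (nat_lit 258394), .ofNat (nat_lit 0), .ofNat (nat_lit 301370), .negSucc (nat_lit 12423), .ofNat (nat_lit 259489), .ofNat (nat_lit 0), .ofNat (nat_lit 302621)⟩⟩, [⟨nat_lit 0, nat_lit 94, nat_lit 87, nat_lit 100, nat_lit 162610017⟩, ⟨nat_lit 7, nat_lit 100, nat_lit 94, nat_lit 75, nat_lit 204602828⟩]⟩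
noncomputable def p067_l136 : Lf2 := ⟨nat_lit 0, nat_lit 15, [nat_lit 30, nat_lit 5, nat_lit 5, nat_lit 20], false, nat_lit 0, nat_lit 160, nat_lit 0, nat_lit 256, ⟨nat_lit 330, nat_lit 0, nat_lit 670, nat_lit 7, nat_lit 198, nat_lit 670, nat_lit 54, nat_lit 670, nat_lit 25350, nat_lit 254, nat_lit 3013, nat_lit 227, nat_lit 53763064, nat_lit 0, nat_lit 0, nat_lit 2485048, false, false⟩,
 nat_lit 0, nat_lit 0, nat_lit 3294, nat_lit 0, nat_lit 3964, nat_lit 2280, nat_lit 162, nat_lit 0, nat_lit 0, nat_lit 300, nat_lit 0, nat_lit 0, nat_lit 0, nat_lit 0, nat_lit 69, nat_lit 670000, nat_lit 0, nat_lit 0, [(nat_lit 16, [(nat_lit 6, nat_lit 670)])],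
 ⟨p067_k31, nat_lit 0, nat_lit 0, nat_lit 191, nat_lit 0, nat_lit 0, [nat_lit 2571948000, nat_lit 1894532001, nat_lit 9604000], [], [nat_lit 16275592780, nat_lit 17672104620, nat_lit 16859939132, nat_lit 18152138592, nat_lit 15201659083, nat_lit 16476563271, nat_lit 16090100111, nat_lit 17261777303], nat_lit 0, nat_lit 0, nat_lit 0, nat_lit 0, nat_lit 0, nat_lit 0, [], [nat_lit 8, nat_lit 40, nat_lit 40, nat_lit 80, nat_lit 1, nat_lit 317, nat_lit 100, nat_lit 9]⟩, ⟨p067_k31, nat_lit 0, nat_lit 0, nat_lit 618, nat_lit 0, nat_lit 849659, [nat_lit 1083060000, nat_lit 2062500000, nat_lit 3247860000], [], [nat_lit 8841360210, nat_lit 9113413500, nat_lit 8800260000, nat_lit 9045225600, nat_lit 8342256607, nat_lit 8521203013, nat_lit 10087228296, nat_lit 9073156344], nat_lit 1271250, nat_lit 1271250, nat_lit 631250, nat_lit 1100001, nat_lit 0, nat_lit 1808000, [nat_lit 780000, nat_lit 1435000, nat_lit 1271250], [nat_lit 8,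 nat_lit 40, nat_lit 40, nat_lit 80, nat_lit 1, nat_lit 345, nat_lit 125, nat_lit 10]⟩,
 ⟨nat_lit 4472, nat_lit 5000, ⟨.ofNat (nat_lit 428520), .ofNat (nat_lit 535656), .ofNat (nat_lit 449936), .ofNat (nat_lit 557072), .ofNat (nat_lit 437835), .ofNat (nat_lit 539796), .ofNat (nat_lit 459390), .ofNat (nat_lit 561349)⟩, ⟨.negSucc (nat_lit 28572), .ofNat (nat_lit 257141), .negSucc (nat_lit 7143), .ofNat (nat_lit 278570), .negSucc (nat_lit 12423), .ofNat (nat_lit 259489), .ofNat (nat_lit 0), .ofNat (nat_lit 281055)⟩⟩, [⟨nat_lit 0, nat_lit 83, nat_lit 83, nat_lit 100, nat_lit 183417427⟩, ⟨nat_lit 7, nat_lit 100, nat_lit 84, nat_lit 67, nat_lit 79283151⟩]⟩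
noncomputable def p067_l137 : Lf2 := ⟨nat_lit 0, nat_lit 20, [nat_lit 5, nat_lit 5, nat_lit 5, nat_lit 20], false, nat_lit 0, nat_lit 160, nat_lit 0, nat_lit 280, ⟨nat_lit 1000, nat_lit 0, nat_lit 0, nat_lit 0, nat_lit 0, nat_lit 0, nat_lit 0, nat_lit 0, nat_lit 0, nat_lit 0, nat_lit 0, nat_lit 0, nat_lit 0, nat_lit 0, nat_lit 0, nat_lit 0, false, false⟩,
 nat_lit 0, nat_lit 0, nat_lit 10843, nat_lit 0, nat_lit 6973, nat_lit 7506, nat_lit 1288, nat_lit 0, nat_lit 0, nat_lit 1009, nat_lit 0, nat_lit 0, nat_lit 0, nat_lit 0, nat_lit 0, nat_lit 0, nat_lit 0, nat_lit 0, [],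
 ⟨p067_k25, nat_lit 0, nat_lit 0, nat_lit 191, nat_lit 0, nat_lit 0, [nat_lit 3282000000, nat_lit 6250000000, nat_lit 9842000000], [], [nat_lit 20308884460, nat_lit 22223877090, nat_lit 20273430974, nat_lit 22021495944, nat_lit 15540031167, nat_lit 17147822242, nat_lit 15600088998, nat_lit 17333683332], nat_lit 0, nat_lit 0, nat_lit 0, nat_lit 0, nat_lit 0, nat_lit 0, [], [nat_lit 8, nat_lit 40, nat_lit 40, nat_lit 80, nat_lit 1, nat_lit 317, nat_lit 100, nat_lit 9]⟩, ⟨p067_k25, nat_lit 0, nat_lit 0, nat_lit 512, nat_lit 0, nat_lit 649098, [nat_lit 3282000000, nat_lit 6250000000, nat_lit 9842000000], [], [nat_lit 24371087758, nat_lit 24903850116, nat_lit 23660541480, nat_lit 24662722084, nat_lit 25112936255, nat_lit 23342612782, nat_lit 31015093152, nat_lit 27701787126], nat_lit 1271250, nat_lit 1271250, nat_lit 631250, nat_lit 1100001, nat_lit 0, nat_lit 1977500, [nat_lit 780000, nat_lit 1435000, nat_lit 1271250],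 [nat_lit 8, nat_lit 40, nat_lit 40, nat_lit 80, nat_lit 1, nat_lit 345, nat_lit 125, nat_lit 10]⟩,
 zbF0, [⟨nat_lit 0, nat_lit 91, nat_lit 91, nat_lit 100, nat_lit 132391220⟩, ⟨nat_lit 19, nat_lit 87, nat_lit 100, nat_lit 79, nat_lit 215129427⟩]⟩
noncomputable def p067_l138 : Lf2 := ⟨nat_lit 0, nat_lit 20, [nat_lit 5, nat_lit 5, nat_lit 5, nat_lit 20], false, nat_lit 0, nat_lit 160, nat_lit 0, nat_lit 160, ⟨nat_lit 696, nat_lit 0, nat_lit 304, nat_lit 7, nat_lit 239, nat_lit 304, nat_lit 56, nat_lit 304, nat_lit 26667, nat_lit 255, nat_lit 85756, nat_lit 200, nat_lit 49408952, nat_lit 0, nat_lit 0, nat_lit 2878550, false, false⟩,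
 nat_lit 0, nat_lit 0, nat_lit 9176, nat_lit 0, nat_lit 5499, nat_lit 5839, nat_lit 790, nat_lit 0, nat_lit 0, nat_lit 667, nat_lit 0, nat_lit 0, nat_lit 0, nat_lit 0, nat_lit 0, nat_lit 304000, nat_lit 0, nat_lit 0, [(nat_lit 16, [(nat_lit 6, nat_lit 304)])],
 ⟨p067_k25, nat_lit 0, nat_lit 0, nat_lit 173, nat_lit 0, nat_lit 0, [nat_lit 2584137600, nat_lit 3647638401, nat_lit 4504124800], [], [nat_lit 18598003262, nat_lit 20126038072, nat_lit 21677187518, nat_lit 23672783520, nat_lit 15788240761, nat_lit 17170347367, nat_lit 18419372433, nat_lit 19740028895], nat_lit 0, nat_lit 0, nat_lit 0, nat_lit 0, nat_lit 0, nat_lit 0, [], [nat_lit 8, nat_lit 40, nat_lit 40, nat_lit 80, nat_lit 1, nat_lit 317, nat_lit 100, nat_lit 9]⟩, ⟨p067_k24, nat_lit 0, nat_lit 0, nat_lit 643, nat_lit 0, nat_lit 779423, [nat_lit 2284272000, nat_lit 4350000000, nat_lit 8262912000], [], [nat_lit 23277379748, nat_lit 20236557006, nat_lit 20286963268,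 nat_lit 20904175564, nat_lit 16370401216, nat_lit 16970192806, nat_lit 19492004408, nat_lit 17620549244], nat_lit 1271250, nat_lit 1271250, nat_lit 1100001, nat_lit 1785000, nat_lit 0, nat_lit 1100001, [nat_lit 780000, nat_lit 1435000, nat_lit 1271250], [nat_lit 23, nat_lit 40, nat_lit 40, nat_lit 80, nat_lit 12, nat_lit 401, nat_lit 175, nat_lit 10]⟩,
 ⟨nat_lit 4472, nat_lit 5000, ⟨.ofNat (nat_lit 514240), .ofNat (nat_lit 657088), .ofNat (nat_lit 535656), .ofNat (nat_lit 678503), .ofNat (nat_lit 518242), .ofNat (nat_lit 654189), .ofNat (nat_lit 539796), .ofNat (nat_lit 675743)⟩, ⟨.negSucc (nat_lit 28572), .ofNat (nat_lit 257141), .ofNat (nat_lit 0), .ofNat (nat_lit 299999), .negSucc (nat_lit 12423), .ofNat (nat_lit 259489), .ofNat (nat_lit 0), .ofNat (nat_lit 302621)⟩⟩, []⟩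
noncomputable def p067_l139 : Lf2 := ⟨nat_lit 0, nat_lit 20, [nat_lit 5, nat_lit 5, nat_lit 5, nat_lit 20], false, nat_lit 0, nat_lit 160, nat_lit 160, nat_lit 300, ⟨nat_lit 494, nat_lit 0, nat_lit 506, nat_lit 7, nat_lit 239, nat_lit 506, nat_lit 56, nat_lit 506, nat_lit 26667, nat_lit 255, nat_lit 85756, nat_lit 200, nat_lit 49408952, nat_lit 0, nat_lit 0, nat_lit 2878550, false, false⟩,
 nat_lit 0, nat_lit 0, nat_lit 6250, nat_lit 0, nat_lit 4645, nat_lit 3977, nat_lit 443, nat_lit 0, nat_lit 0, nat_lit 431, nat_lit 0, nat_lit 0, nat_lit 0, nat_lit 0, nat_lit 0, nat_lit 506000, nat_lit 0, nat_lit 0, [(nat_lit 16, [(nat_lit 6, nat_lit 506)])],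
 ⟨p067_k25, nat_lit 0, nat_lit 0, nat_lit 173, nat_lit 0, nat_lit 0, [nat_lit 2120426400, nat_lit 1918437601, nat_lit 957247200], [], [nat_lit 17640460460, nat_lit 19031968970, nat_lit 20603297890, nat_lit 22411869600, nat_lit 15969272676, nat_lit 17234299986, nat_lit 18433204606, nat_lit 19518994586], nat_lit 0, nat_lit 0, nat_lit 0, nat_lit 0, nat_lit 0, nat_lit 0, [], [nat_lit 8, nat_lit 40, nat_lit 40, nat_lit 80, nat_lit 1, nat_lit 317, nat_lit 100, nat_lit 9]⟩, ⟨p067_k24, nat_lit 0, nat_lit 0, nat_lit 510, nat_lit 0, nat_lit 779423, [nat_lit 1621308000, nat_lit 3087500000, nat_lit 5864768000], [], [nat_lit 11658661405, nat_lit 12060895891, nat_lit 12084343469, nat_lit 12419249533, nat_lit 15005053635, nat_lit 13155166176, nat_lit 13167897856, nat_lit 13495668063], nat_lit 1271250, nat_lit 1271250, nat_lit 1271250, nat_lit 1271250, nat_lit 1100001, nat_lit 2298750, [nat_lit 780000, nat_lit 1435000, nat_lit 1271250],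 [nat_lit 23, nat_lit 40, nat_lit 40, nat_lit 80, nat_lit 12, nat_lit 456, nat_lit 225, nat_lit 11]⟩,
 ⟨nat_lit 4472, nat_lit 5000, ⟨.ofNat (nat_lit 514240), .ofNat (nat_lit 657088), .ofNat (nat_lit 535656), .ofNat (nat_lit 678503), .ofNat (nat_lit 518242), .ofNat (nat_lit 654189), .ofNat (nat_lit 539796), .ofNat (nat_lit 675743)⟩, ⟨.negSucc (nat_lit 28572), .ofNat (nat_lit 257141), .ofNat (nat_lit 0), .ofNat (nat_lit 299999), .negSucc (nat_lit 12423), .ofNat (nat_lit 259489), .ofNat (nat_lit 0), .ofNat (nat_lit 302621)⟩⟩, [⟨nat_lit 7, nat_lit 100, nat_lit 94, nat_lit 75, nat_lit 209156733⟩]⟩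
noncomputable def p067_l140 : Lf2 := ⟨nat_lit 0, nat_lit 20, [nat_lit 5, nat_lit 5, nat_lit 5, nat_lit 20], false, nat_lit 0, nat_lit 160, nat_lit 0, nat_lit 280, ⟨nat_lit 1000, nat_lit 0, nat_lit 0, nat_lit 0, nat_lit 0, nat_lit 0, nat_lit 0, nat_lit 0, nat_lit 0, nat_lit 0, nat_lit 0, nat_lit 0, nat_lit 0, nat_lit 0, nat_lit 0, nat_lit 0, false, false⟩,
 nat_lit 0, nat_lit 0, nat_lit 10369, nat_lit 0, nat_lit 6616, nat_lit 7178, nat_lit 1144, nat_lit 0, nat_lit 0, nat_lit 1166, nat_lit 0, nat_lit 0, nat_lit 0, nat_lit 0, nat_lit 0, nat_lit 0, nat_lit 0, nat_lit 0, [],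
 ⟨p067_k25, nat_lit 0, nat_lit 0, nat_lit 173, nat_lit 0, nat_lit 0, [nat_lit 3282000000, nat_lit 6250000000, nat_lit 9842000000], [], [nat_lit 21347405408, nat_lit 23040157616, nat_lit 23899567904, nat_lit 25324520048, nat_lit 17067160416, nat_lit 18488734096, nat_lit 19258931040, nat_lit 20635186696], nat_lit 0, nat_lit 0, nat_lit 0, nat_lit 0, nat_lit 0, nat_lit 0, [], [nat_lit 8, nat_lit 40, nat_lit 40, nat_lit 80, nat_lit 1, nat_lit 317, nat_lit 100, nat_lit 9]⟩, ⟨p067_k25, nat_lit 0, nat_lit 0, nat_lit 598, nat_lit 0, nat_lit 862286, [nat_lit 3282000000, nat_lit 6250000000, nat_lit 9842000000], [], [nat_lit 26922384558, nat_lit 24417852992, nat_lit 24803880720, nat_lit 26151793440, nat_lit 22166744728, nat_lit 22778438432, nat_lit 31130626964, nat_lit 27962107026], nat_lit 1271250, nat_lit 1271250, nat_lit 1100001, nat_lit 1785000, nat_lit 0, nat_lit 1977500, [nat_lit 780000, nat_lit 1435000, nat_lit 1271250],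 [nat_lit 8, nat_lit 40, nat_lit 40, nat_lit 80, nat_lit 1, nat_lit 373, nat_lit 150, nat_lit 11]⟩,
 zbF0, [⟨nat_lit 7, nat_lit 100, nat_lit 85, nat_lit 73, nat_lit 236004631⟩]⟩
noncomputable def p067_l141 : Lf2 := ⟨nat_lit 0, nat_lit 20, [nat_lit 5, nat_lit 5, nat_lit 5, nat_lit 20], false, nat_lit 160, nat_lit 280, nat_lit 0, nat_lit 160, ⟨nat_lit 335, nat_lit 665, nat_lit 0, nat_lit 7, nat_lit 183, nat_lit 665, nat_lit 154, nat_lit 0, nat_lit 0, nat_lit 0, nat_lit 0, nat_lit 0, nat_lit 47157155, nat_lit 11264057, nat_lit 8578788, nat_lit 4345975, false, false⟩,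
 nat_lit 0, nat_lit 0, nat_lit 4673, nat_lit 0, nat_lit 4764, nat_lit 2973, nat_lit 0, nat_lit 0, nat_lit 0, nat_lit 356, nat_lit 0, nat_lit 0, nat_lit 0, nat_lit 0, nat_lit 0, nat_lit 166250, nat_lit 0, nat_lit 0, [(nat_lit 16, [(nat_lit 0, nat_lit 665)])],
 ⟨p067_k25, nat_lit 0, nat_lit 0, nat_lit 62, nat_lit 0, nat_lit 0, [nat_lit 2652378000, nat_lit 3919662667, nat_lit 5547164000], [], [nat_lit 13764960296, nat_lit 15619345168, nat_lit 14890801592, nat_lit 16541732752, nat_lit 20083285304, nat_lit 21652377424, nat_lit 20410162800, nat_lit 21818284416], nat_lit 0, nat_lit 0, nat_lit 0, nat_lit 0, nat_lit 0, nat_lit 0, [], [nat_lit 8, nat_lit 40, nat_lit 40, nat_lit 80, nat_lit 1, nat_lit 345, nat_lit 125, nat_lit 9]⟩, ⟨p067_k24, nat_lit 0, nat_lit 0, nat_lit 678, nat_lit 0, nat_lit 779423, [nat_lit 1099470000, nat_lit 2093750000, nat_lit 3977120000], [], [nat_lit 9282648204, nat_lit 9400338074, nat_lit 8774876188,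 nat_lit 9140836770, nat_lit 7488411668, nat_lit 7827270464, nat_lit 8767210004, nat_lit 7551621534], nat_lit 1271250, nat_lit 1271250, nat_lit 490000, nat_lit 1100001, nat_lit 0, nat_lit 1100001, [nat_lit 780000, nat_lit 1435000, nat_lit 1271250], [nat_lit 23, nat_lit 40, nat_lit 40, nat_lit 80, nat_lit 12, nat_lit 401, nat_lit 175, nat_lit 10]⟩,
 ⟨nat_lit 4472, nat_lit 5000, ⟨.ofNat (nat_lit 371392), .ofNat (nat_lit 514240), .ofNat (nat_lit 392808), .ofNat (nat_lit 535656), .ofNat (nat_lit 382295), .ofNat (nat_lit 518242), .ofNat (nat_lit 403849), .ofNat (nat_lit 539796)⟩, ⟨.ofNat (nat_lit 257141), .ofNat (nat_lit 471427), .ofNat (nat_lit 299999), .ofNat (nat_lit 514284), .ofNat (nat_lit 259489), .ofNat (nat_lit 463423), .ofNat (nat_lit 302621), .ofNat (nat_lit 506556)⟩⟩, [⟨nat_lit 0, nat_lit 100, nat_lit 94, nat_lit 97, nat_lit 181988960⟩, ⟨nat_lit 4, nat_lit 100, nat_lit 85, nat_lit 73, nat_lit 485697985⟩]⟩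
noncomputable def p067_l142 : Lf2 := ⟨nat_lit 0, nat_lit 20, [nat_lit 5, nat_lit 5, nat_lit 5, nat_lit 20], false, nat_lit 160, nat_lit 280, nat_lit 160, nat_lit 300, ⟨nat_lit 283, nat_lit 717, nat_lit 0, nat_lit 7, nat_lit 181, nat_lit 717, nat_lit 154, nat_lit 0, nat_lit 0, nat_lit 0, nat_lit 0, nat_lit 0, nat_lit 47334349, nat_lit 11073423, nat_lit 8592228, nat_lit 4325462, false, false⟩,
 nat_lit 0, nat_lit 0, nat_lit 4285, nat_lit 2053, nat_lit 4472, nat_lit 2726, nat_lit 0, nat_lit 0, nat_lit 0, nat_lit 328, nat_lit 0, nat_lit 0, nat_lit 0, nat_lit 0, nat_lit 0, nat_lit 179250, nat_lit 0, nat_lit 0, [(nat_lit 16, [(nat_lit 0, nat_lit 717)])],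
 ⟨p067_k25, nat_lit 0, nat_lit 0, nat_lit 62, nat_lit 0, nat_lit 0, [nat_lit 2603144401, nat_lit 3737440801, nat_lit 5211327200], [], [nat_lit 14006729809, nat_lit 15794802065, nat_lit 15184353217, nat_lit 16778434897, nat_lit 19920318689, nat_lit 21436643152, nat_lit 20496529409, nat_lit 21727991073], nat_lit 0, nat_lit 0, nat_lit 0, nat_lit 0, nat_lit 0, nat_lit 0, [], [nat_lit 8, nat_lit 40, nat_lit 40, nat_lit 80, nat_lit 1, nat_lit 345, nat_lit 125, nat_lit 9]⟩, ⟨p067_k24, nat_lit 0, nat_lit 0, nat_lit 511, nat_lit 0, nat_lit 689232, [nat_lit 928806000, nat_lit 1768750000, nat_lit 3359776000], [], [nat_lit 5031048668, nat_lit 5175335849, nat_lit 4819567712, nat_lit 4995646685, nat_lit 6653946840, nat_lit 6763706037, nat_lit 8992553052, nat_lit 8379280743], nat_lit 1271250, nat_lit 1271250, nat_lit 490000, nat_lit 1100001, nat_lit 1100001, nat_lit 2298750, [nat_lit 780000, nat_lit 1435000, nat_lit 1271250], [nat_lit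 23, nat_lit 40, nat_lit 40, nat_lit 80, nat_lit 12, nat_lit 428, nat_lit 200, nat_lit 11]⟩,
 ⟨nat_lit 4472, nat_lit 5000, ⟨.ofNat (nat_lit 371392), .ofNat (nat_lit 514240), .ofNat (nat_lit 382100), .ofNat (nat_lit 524948), .ofNat (nat_lit 382295), .ofNat (nat_lit 518242), .ofNat (nat_lit 393072), .ofNat (nat_lit 529019)⟩, ⟨.ofNat (nat_lit 257141), .ofNat (nat_lit 471427), .ofNat (nat_lit 299999), .ofNat (nat_lit 514284), .ofNat (nat_lit 259489), .ofNat (nat_lit 463423), .ofNat (nat_lit 302621), .ofNat (nat_lit 506556)⟩⟩, [⟨nat_lit 0, nat_lit 100, nat_lit 92, nat_lit 94, nat_lit 72879059⟩, ⟨nat_lit 4, nat_lit 100, nat_lit 85, nat_lit 73, nat_lit 438277458⟩, ⟨nat_lit 7, nat_lit 100, nat_lit 97, nat_lit 76, nat_lit 161534908⟩]⟩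
noncomputable def p067_l143 : Lf2 := ⟨nat_lit 0, nat_lit 20, [nat_lit 5, nat_lit 5, nat_lit 5, nat_lit 20], false, nat_lit 160, nat_lit 280, nat_lit 160, nat_lit 292, ⟨nat_lit 530, nat_lit 470, nat_lit 0, nat_lit 7, nat_lit 188, nat_lit 470, nat_lit 154, nat_lit 0, nat_lit 0, nat_lit 0, nat_lit 0, nat_lit 0, nat_lit 46749096, nat_lit 11704131, nat_lit 8546773, nat_lit 4391920, false, false⟩,
 nat_lit 0, nat_lit 0, nat_lit 6499, nat_lit 0, nat_lit 4580, nat_lit 4316, nat_lit 0, nat_lit 0, nat_lit 0, nat_lit 592, nat_lit 0, nat_lit 0, nat_lit 0, nat_lit 0, nat_lit 0, nat_lit 117500, nat_lit 0, nat_lit 0, [(nat_lit 16, [(nat_lit 0, nat_lit 470)])],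
 ⟨p067_k25, nat_lit 0, nat_lit 0, nat_lit 59, nat_lit 0, nat_lit 0, [nat_lit 2837004000, nat_lit 4602994667, nat_lit 6806552000], [], [nat_lit 14188887520, nat_lit 15983138144, nat_lit 15291429240, nat_lit 16906537440, nat_lit 20102760201, nat_lit 21478491024, nat_lit 20647373620, nat_lit 21893160080], nat_lit 0, nat_lit 0, nat_lit 0, nat_lit 0, nat_lit 0, nat_lit 0, [], [nat_lit 8, nat_lit 40, nat_lit 40, nat_lit 80, nat_lit 1, nat_lit 345, nat_lit 125, nat_lit 9]⟩, ⟨p067_k29, nat_lit 0, nat_lit 0, nat_lit 523, nat_lit 0, nat_lit 733176, [nat_lit 1739460000, nat_lit 3312500000, nat_lit 6292160000], [], [nat_lit 10226712636, nat_lit 10470622912, nat_lit 10020259286, nat_lit 10320424748, nat_lit 12327761620, nat_lit 12573635309, nat_lit 15569199129, nat_lit 14595681737], nat_lit 1271250, nat_lit 1271250, nat_lit 545600, nat_lit 1100001, nat_lit 1100001, nat_lit 2230250, [nat_lit 780000, nat_lit 1435000, nat_lit 1271250],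 [nat_lit 23, nat_lit 40, nat_lit 40, nat_lit 80, nat_lit 12, nat_lit 428, nat_lit 200, nat_lit 11]⟩,
 ⟨nat_lit 4472, nat_lit 5000, ⟨.ofNat (nat_lit 396385), .ofNat (nat_lit 524948), .ofNat (nat_lit 407093), .ofNat (nat_lit 535656), .ofNat (nat_lit 406666), .ofNat (nat_lit 529019), .ofNat (nat_lit 417444), .ofNat (nat_lit 539796)⟩, ⟨.ofNat (nat_lit 257141), .ofNat (nat_lit 471427), .ofNat (nat_lit 299999), .ofNat (nat_lit 514284), .ofNat (nat_lit 259489), .ofNat (nat_lit 463423), .ofNat (nat_lit 302621), .ofNat (nat_lit 506556)⟩⟩, [⟨nat_lit 0, nat_lit 100, nat_lit 95, nat_lit 100, nat_lit 102499927⟩, ⟨nat_lit 4, nat_lit 100, nat_lit 85, nat_lit 73, nat_lit 520121253⟩, ⟨nat_lit 7, nat_lit 100, nat_lit 92, nat_lit 75, nat_lit 282797662⟩]⟩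
noncomputable def p067_l144 : Lf2 := ⟨nat_lit 0, nat_lit 20, [nat_lit 5, nat_lit 5, nat_lit 5, nat_lit 20], false, nat_lit 160, nat_lit 280, nat_lit 0, nat_lit 280, ⟨nat_lit 489, nat_lit 511, nat_lit 0, nat_lit 7, nat_lit 198, nat_lit 511, nat_lit 154, nat_lit 0, nat_lit 0, nat_lit 0, nat_lit 0, nat_lit 0, nat_lit 45867142, nat_lit 12660162, nat_lit 8472696, nat_lit 4485227, false, false⟩,
 nat_lit 0, nat_lit 0, nat_lit 5346, nat_lit 0, nat_lit 5227, nat_lit 3700, nat_lit 0, nat_lit 0, nat_lit 0, nat_lit 495, nat_lit 0, nat_lit 0, nat_lit 0, nat_lit 0, nat_lit 0, nat_lit 127750, nat_lit 0, nat_lit 0, [(nat_lit 16, [(nat_lit 0, nat_lit 511)])],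
 ⟨p067_k25, nat_lit 0, nat_lit 0, nat_lit 53, nat_lit 0, nat_lit 0, [nat_lit 2798185200, nat_lit 4459319734, nat_lit 6541757600], [], [nat_lit 13562519473, nat_lit 15699347522, nat_lit 14493082906, nat_lit 16357840880, nat_lit 20213792013, nat_lit 21825963997, nat_lit 20523690400, nat_lit 22002439888], nat_lit 0, nat_lit 0, nat_lit 0, nat_lit 0, nat_lit 0, nat_lit 0, [], [nat_lit 8, nat_lit 40, nat_lit 40, nat_lit 80, nat_lit 1, nat_lit 345, nat_lit 125, nat_lit 9]⟩, ⟨p067_k25, nat_lit 0, nat_lit 0, nat_lit 622, nat_lit 0, nat_lit 862286, [nat_lit 1604898000, nat_lit 3056250000, nat_lit 4812738000], [], [nat_lit 12130574415, nat_lit 12540620853, nat_lit 11962420163, nat_lit 12333698557, nat_lit 12214942368, nat_lit 11391964953, nat_lit 15116959974, nat_lit 13483702274], nat_lit 1271250, nat_lit 1271250, nat_lit 631250, nat_lit 1100001, nat_lit 0, nat_lit 1977500, [nat_lit 780000, nat_lit 1435000, nat_lit 1271250], [nat_lit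 8, nat_lit 40, nat_lit 40, nat_lit 80, nat_lit 1, nat_lit 345, nat_lit 125, nat_lit 10]⟩,
 ⟨nat_lit 4472, nat_lit 5000, ⟨.ofNat (nat_lit 428520), .ofNat (nat_lit 535656), .ofNat (nat_lit 449936), .ofNat (nat_lit 557072), .ofNat (nat_lit 437835), .ofNat (nat_lit 539796), .ofNat (nat_lit 459390), .ofNat (nat_lit 561349)⟩, ⟨.ofNat (nat_lit 257141), .ofNat (nat_lit 471427), .ofNat (nat_lit 299999), .ofNat (nat_lit 514284), .ofNat (nat_lit 259489), .ofNat (nat_lit 463423), .ofNat (nat_lit 302621), .ofNat (nat_lit 506556)⟩⟩, [⟨nat_lit 0, nat_lit 91, nat_lit 91, nat_lit 100, nat_lit 103817273⟩, ⟨nat_lit 4, nat_lit 100, nat_lit 85, nat_lit 73, nat_lit 550110290⟩, ⟨nat_lit 7, nat_lit 100, nat_lit 85, nat_lit 73, nat_lit 105416075⟩]⟩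
noncomputable def p067_l145 : Lf2 := ⟨nat_lit 0, nat_lit 20, [nat_lit 5, nat_lit 5, nat_lit 5, nat_lit 20], false, nat_lit 160, nat_lit 280, nat_lit 0, nat_lit 300, ⟨nat_lit 269, nat_lit 731, nat_lit 0, nat_lit 7, nat_lit 239, nat_lit 731, nat_lit 154, nat_lit 0, nat_lit 0, nat_lit 0, nat_lit 0, nat_lit 0, nat_lit 42522585, nat_lit 16340296, nat_lit 8137119, nat_lit 4769905, false, false⟩,
 nat_lit 0, nat_lit 0, nat_lit 3582, nat_lit 0, nat_lit 4688, nat_lit 2279, nat_lit 0, nat_lit 0, nat_lit 0, nat_lit 139, nat_lit 0, nat_lit 0, nat_lit 0, nat_lit 0, nat_lit 0, nat_lit 182750, nat_lit 0, nat_lit 0, [(nat_lit 16, [(nat_lit 0, nat_lit 731)])],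
 ⟨p067_k25, nat_lit 0, nat_lit 0, nat_lit 35, nat_lit 0, nat_lit 0, [nat_lit 2589889200, nat_lit 3688381067, nat_lit 5120909600], [], [nat_lit 14917530864, nat_lit 16553665584, nat_lit 18065414816, nat_lit 19457807040, nat_lit 20391527600, nat_lit 21788055872, nat_lit 22812793200, nat_lit 24005321856], nat_lit 0, nat_lit 0, nat_lit 0, nat_lit 0, nat_lit 0, nat_lit 0, [], [nat_lit 8, nat_lit 40, nat_lit 40, nat_lit 80, nat_lit 1, nat_lit 373, nat_lit 150, nat_lit 10]⟩, ⟨p067_k24, nat_lit 0, nat_lit 0, nat_lit 643, nat_lit 0, nat_lit 779423, [nat_lit 882858000, nat_lit 1681250000, nat_lit 3193568000], [], [nat_lit 9006954784, nat_lit 8895502649, nat_lit 8865608741, nat_lit 9070541705, nat_lit 7732873487, nat_lit 7855295407, nat_lit 9935951747, nat_lit 8936310559], nat_lit 1271250, nat_lit 1271250, nat_lit 1100001, nat_lit 1785000, nat_lit 0, nat_lit 2118750, [nat_lit 780000, nat_lit 1435000, nat_lit 1271250], [nat_lit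 23, nat_lit 40, nat_lit 40, nat_lit 80, nat_lit 12, nat_lit 456, nat_lit 225, nat_lit 12]⟩,
 ⟨nat_lit 4472, nat_lit 5000, ⟨.ofNat (nat_lit 514240), .ofNat (nat_lit 657088), .ofNat (nat_lit 535656), .ofNat (nat_lit 678503), .ofNat (nat_lit 518242), .ofNat (nat_lit 654189), .ofNat (nat_lit 539796), .ofNat (nat_lit 675743)⟩, ⟨.ofNat (nat_lit 257141), .ofNat (nat_lit 471427), .ofNat (nat_lit 299999), .ofNat (nat_lit 514284), .ofNat (nat_lit 259489), .ofNat (nat_lit 463423), .ofNat (nat_lit 302621), .ofNat (nat_lit 506556)⟩⟩, [⟨nat_lit 16, nat_lit 85, nat_lit 100, nat_lit 73, nat_lit 370397168⟩, ⟨nat_lit 7, nat_lit 100, nat_lit 94, nat_lit 75, nat_lit 44217188⟩]⟩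
noncomputable def p067_l146 : Lf2 := ⟨nat_lit 0, nat_lit 20, [nat_lit 5, nat_lit 5, nat_lit 5, nat_lit 20], false, nat_lit 160, nat_lit 280, nat_lit 0, nat_lit 280, ⟨nat_lit 1000, nat_lit 0, nat_lit 0, nat_lit 0, nat_lit 0, nat_lit 0, nat_lit 0, nat_lit 0, nat_lit 0, nat_lit 0, nat_lit 0, nat_lit 0, nat_lit 0, nat_lit 0, nat_lit 0, nat_lit 0, false, false⟩,
 nat_lit 0, nat_lit 0, nat_lit 8923, nat_lit 0, nat_lit 5376, nat_lit 6177, nat_lit 0, nat_lit 0, nat_lit 0, nat_lit 1541, nat_lit 0, nat_lit 0, nat_lit 0, nat_lit 0, nat_lit 0, nat_lit 0, nat_lit 0, nat_lit 0, [],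
 ⟨p067_k25, nat_lit 0, nat_lit 0, nat_lit 35, nat_lit 0, nat_lit 0, [nat_lit 3282000000, nat_lit 6250000000, nat_lit 9842000000], [], [nat_lit 14801983328, nat_lit 16572064768, nat_lit 18078629232, nat_lit 19576957760, nat_lit 20560225200, nat_lit 22061703744, nat_lit 23022306400, nat_lit 24297007712], nat_lit 0, nat_lit 0, nat_lit 0, nat_lit 0, nat_lit 0, nat_lit 0, [], [nat_lit 8, nat_lit 40, nat_lit 40, nat_lit 80, nat_lit 1, nat_lit 373, nat_lit 150, nat_lit 10]⟩, ⟨p067_k25, nat_lit 0, nat_lit 0, nat_lit 598, nat_lit 0, nat_lit 862286, [nat_lit 3282000000, nat_lit 6250000000, nat_lit 9842000000], [], [nat_lit 26263181097, nat_lit 25773900188, nat_lit 26103885702, nat_lit 26711143036, nat_lit 24354348024, nat_lit 24806085060, nat_lit 31763987776, nat_lit 29037330259], nat_lit 1271250, nat_lit 1271250, nat_lit 1100001, nat_lit 1785000, nat_lit 0, nat_lit 1977500, [nat_lit 780000, nat_lit 1435000, nat_lit 1271250],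 [nat_lit 8, nat_lit 40, nat_lit 40, nat_lit 80, nat_lit 1, nat_lit 373, nat_lit 150, nat_lit 11]⟩,
 zbF0, [⟨nat_lit 4, nat_lit 100, nat_lit 85, nat_lit 73, nat_lit 714760180⟩, ⟨nat_lit 7, nat_lit 100, nat_lit 85, nat_lit 73, nat_lit 255366351⟩]⟩
noncomputable def b_V_700_700_10_27 : St := ⟨true, nat_lit 0, nat_lit 1, nat_lit 1, nat_lit 80, nat_lit 300, nat_lit 320, nat_lit 280, nat_lit 320, nat_lit 64, nat_lit 240, nat_lit 40, nat_lit 80, nat_lit 0, nat_lit 300, nat_lit 0, nat_lit 300, nat_lit 40, nat_lit 80, nat_lit 0, nat_lit 0, nat_lit 0, nat_lit 0⟩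
theorem d_V_700_700_10_27 (h : EB TB.env) : Dead b_V_700_700_10_27 := chkB_sound0 h (T :=
(.trZ (nat_lit 0) (nat_lit 100) (nat_lit 94) (nat_lit 88) (nat_lit 80) (.trX (nat_lit 16) (nat_lit 94) (nat_lit 100) (nat_lit 87) (nat_lit 280) (.spl (nat_lit 4) (nat_lit 160)
(.spl (nat_lit 2) (nat_lit 160)
(.spl (nat_lit 1) (nat_lit 300)
(.spl (nat_lit 5) (nat_lit 160)
(.leaf p067_l132)
(.spl (nat_lit 2) (nat_lit 120)
(.leaf p067_l133)
(.spl (nat_lit 0) (nat_lit 310)
(.leaf p067_l134)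
(.leaf p067_l135))))
(.trZ (nat_lit 0) (nat_lit 100) (nat_lit 100) (nat_lit 100) (nat_lit 100) (.trX (nat_lit 19) (nat_lit 94) (nat_lit 100) (nat_lit 87) (nat_lit 280) (.spl (nat_lit 3) (nat_lit 60)
(.trX (nat_lit 19) (nat_lit 90) (nat_lit 100) (nat_lit 74) (nat_lit 256) (.leaf p067_l136))
(.leaf p067_l137)))))
(.spl (nat_lit 1) (nat_lit 300)
(.spl (nat_lit 5) (nat_lit 160)
(.leaf p067_l138)
(.leaf p067_l139))
(.trX (nat_lit 19) (nat_lit 94) (nat_lit 100) (nat_lit 87) (nat_lit 280) (.leaf p067_l140))))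
(.spl (nat_lit 2) (nat_lit 160)
(.spl (nat_lit 1) (nat_lit 300)
(.spl (nat_lit 5) (nat_lit 160)
(.leaf p067_l141)
(.spl (nat_lit 1) (nat_lit 290)
(.leaf p067_l142)
(.trZ (nat_lit 0) (nat_lit 100) (nat_lit 97) (nat_lit 94) (nat_lit 88) (.trX (nat_lit 19) (nat_lit 100) (nat_lit 100) (nat_lit 89) (nat_lit 292) (.leaf p067_l143)))))
(.trZ (nat_lit 0) (nat_lit 100) (nat_lit 100) (nat_lit 100) (nat_lit 100) (.trX (nat_lit 19) (nat_lit 94) (nat_lit 100) (nat_lit 87) (nat_lit 280) (.leaf p067_l144))))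
(.spl (nat_lit 1) (nat_lit 300)
(.leaf p067_l145)
(.trX (nat_lit 19) (nat_lit 94) (nat_lit 100) (nat_lit 87) (nat_lit 280) (.leaf p067_l146)))))))) (by decide +kernel)

end B2
end Pool.Agent.Lib.MP_6947cd_al
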