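import Pool.Agent.Lib.MP_6947cd_al.ZB.Pre

/-!
Problem MP_6947cd_al (Chollet).  Case B, second entry in [2/5, 17/20]: certificates of the tree, part P068 (generated).
-/

set_option autoImplicit false
set_option linter.all false

namespace Pool.Agent.Lib.MP_6947cd_al
namespace B2

open Ent Fr B1 PkA

noncomputable def p068_k0 : C1.Kn := ⟨[nat_lit 60, nat_lit 80, nat_lit 140], [nat_lit 0, nat_lit 0, nat_lit 1595], [(nat_lit 0, nat_lit 0, nat_lit 0), (nat_lit 0, nat_lit 0, nat_lit 0), (nat_lit 1000, nat_lit 917, nat_lit 415)], (nat_lit 99, nat_lit 100, nat_lit 77)⟩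
noncomputable def p068_k1 : C1.Kn := ⟨[nat_lit 60, nat_lit 100, nat_lit 160], [nat_lit 0, nat_lit 0, nat_lit 3069], [(nat_lit 0, nat_lit 0, nat_lit 0), (nat_lit 0, nat_lit 0, nat_lit 0), (nat_lit 1000, nat_lit 999, nat_lit 798)], (nat_lit 100, nat_lit 95, nat_lit 87)⟩
noncomputable def p068_k2 : C1.Kn := ⟨[nat_lit 60, nat_lit 80, nat_lit 140], [nat_lit 0, nat_lit 304, nat_lit 1867], [(nat_lit 0, nat_lit 0, nat_lit 0), (nat_lit 1000, nat_lit 905, nat_lit 238), (nat_lit 1000, nat_lit 871, nat_lit 407)], (nat_lit 94, nat_lit 100, nat_lit 87)⟩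
noncomputable def p068_k3 : C1.Kn := ⟨[nat_lit 60, nat_lit 100, nat_lit 160], [nat_lit 0, nat_lit 302, nat_lit 3303], [(nat_lit 0, nat_lit 0, nat_lit 0), (nat_lit 1000, nat_lit 953, nat_lit 118), (nat_lit 1000, nat_lit 952, nat_lit 781)], (nat_lit 100, nat_lit 100, nat_lit 89)⟩
noncomputable def p068_k4 : C1.Kn := ⟨[nat_lit 60, nat_lit 100, nat_lit 140], [nat_lit 0, nat_lit 609, nat_lit 2558], [(nat_lit 0, nat_lit 0, nat_lit 0), (nat_lit 1000, nat_lit 905, nat_lit 238), (nat_lit 1000, nat_lit 904, nat_lit 760)], (nat_lit 94, nat_lit 100, nat_lit 87)⟩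
noncomputable def p068_k5 : C1.Kn := ⟨[nat_lit 60, nat_lit 100, nat_lit 140], [nat_lit 0, nat_lit 0, nat_lit 2047], [(nat_lit 0, nat_lit 0, nat_lit 0), (nat_lit 0, nat_lit 0, nat_lit 0), (nat_lit 1000, nat_lit 993, nat_lit 781)], (nat_lit 99, nat_lit 100, nat_lit 77)⟩
noncomputable def p068_k6 : C1.Kn := ⟨[nat_lit 60, nat_lit 100, nat_lit 140], [nat_lit 0, nat_lit 302, nat_lit 2304], [(nat_lit 0, nat_lit 0, nat_lit 0), (nat_lit 1000, nat_lit 953, nat_lit 118), (nat_lit 1000, nat_lit 952, nat_lit 781)], (nat_lit 94, nat_lit 100, nat_lit 75)⟩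
noncomputable def p068_k7 : C1.Kn := ⟨[nat_lit 60, nat_lit 100, nat_lit 140], [nat_lit 0, nat_lit 609, nat_lit 2558], [(nat_lit 0, nat_lit 0, nat_lit 0), (nat_lit 1000, nat_lit 905, nat_lit 238), (nat_lit 1000, nat_lit 904, nat_lit 760)], (nat_lit 90, nat_lit 100, nat_lit 74)⟩
noncomputable def p068_k8 : C1.Kn := ⟨[nat_lit 60, nat_lit 80, nat_lit 160], [nat_lit 0, nat_lit 0, nat_lit 2127], [(nat_lit 0, nat_lit 0, nat_lit 0), (nat_lit 0, nat_lit 0, nat_lit 0), (nat_lit 1000, nat_lit 917, nat_lit 415)], (nat_lit 100, nat_lit 95, nat_lit 87)⟩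
noncomputable def p068_k9 : C1.Kn := ⟨[nat_lit 60, nat_lit 100, nat_lit 140], [nat_lit 0, nat_lit 909, nat_lit 2819], [(nat_lit 0, nat_lit 0, nat_lit 0), (nat_lit 1000, nat_lit 858, nat_lit 354), (nat_lit 1000, nat_lit 858, nat_lit 746)], (nat_lit 89, nat_lit 100, nat_lit 85)⟩
noncomputable def p068_k10 : C1.Kn := ⟨[nat_lit 60, nat_lit 100, nat_lit 140], [nat_lit 0, nat_lit 0, nat_lit 2047], [(nat_lit 0, nat_lit 0, nat_lit 0), (nat_lit 0, nat_lit 0, nat_lit 0), (nat_lit 1000, nat_lit 993, nat_lit 781)], (nat_lit 98, nat_lit 100, nat_lit 74)⟩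
noncomputable def p068_k11 : C1.Kn := ⟨[nat_lit 60, nat_lit 100, nat_lit 140], [nat_lit 0, nat_lit 151, nat_lit 2175], [(nat_lit 0, nat_lit 0, nat_lit 0), (nat_lit 1000, nat_lit 977, nat_lit 59), (nat_lit 1000, nat_lit 974, nat_lit 785)], (nat_lit 96, nat_lit 100, nat_lit 73)⟩
noncomputable def p068_k12 : C1.Kn := ⟨[nat_lit 60, nat_lit 100, nat_lit 140], [nat_lit 0, nat_lit 455, nat_lit 2431], [(nat_lit 0, nat_lit 0, nat_lit 0), (nat_lit 1000, nat_lit 929, nat_lit 178), (nat_lit 1000, nat_lit 928, nat_lit 770)], (nat_lit 92, nat_lit 100, nat_lit 75)⟩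
noncomputable def p068_l0 : Lf2 := ⟨nat_lit 0, nat_lit 15, [nat_lit 30, nat_lit 5, nat_lit 5, nat_lit 20], false, nat_lit 0, nat_lit 160, nat_lit 0, nat_lit 276, ⟨nat_lit 1000, nat_lit 0, nat_lit 0, nat_lit 0, nat_lit 0, nat_lit 0, nat_lit 0, nat_lit 0, nat_lit 0, nat_lit 0, nat_lit 0, nat_lit 0, nat_lit 0, nat_lit 0, nat_lit 0, nat_lit 0, false, false⟩,
 nat_lit 0, nat_lit 0, nat_lit 10095, nat_lit 0, nat_lit 6800, nat_lit 6423, nat_lit 780, nat_lit 0, nat_lit 0, nat_lit 1123, nat_lit 0, nat_lit 0, nat_lit 0, nat_lit 0, nat_lit 0, nat_lit 0, nat_lit 0, nat_lit 0, [],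
 ⟨p068_k0, nat_lit 0, nat_lit 0, nat_lit 209, nat_lit 0, nat_lit 0, [nat_lit 3282000000, nat_lit 4688000000, nat_lit 9842000000], [], [nat_lit 27828206700, nat_lit 30654665900, nat_lit 38643673900, nat_lit 40300287500, nat_lit 23933184300, nat_lit 25968125100, nat_lit 32365314700, nat_lit 33793290700], nat_lit 0, nat_lit 0, nat_lit 0, nat_lit 0, nat_lit 0, nat_lit 0, [], [nat_lit 42, nat_lit 40, nat_lit 40, nat_lit 80, nat_lit 13, nat_lit 373, nat_lit 150, nat_lit 10]⟩, ⟨p068_k0, nat_lit 0, nat_lit 0, nat_lit 526, nat_lit 0, nat_lit 770407, [nat_lit 3282000000, nat_lit 4688000000, nat_lit 9842000000], [], [nat_lit 31045528626, nat_lit 31647954294, nat_lit 36825436568, nat_lit 38034675678, nat_lit 28807374921, nat_lit 29155152123, nat_lit 32331266074, nat_lit 33149836707], nat_lit 1271250, nat_lit 1271250, nat_lit 1271250, nat_lit 1271250, nat_lit 0, nat_lit 1949250, [nat_lit 780000, nat_lit 1100000, nat_lit 2127500],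 [nat_lit 42, nat_lit 40, nat_lit 40, nat_lit 80, nat_lit 13, nat_lit 401, nat_lit 175, nat_lit 11]⟩,
 zbF0, [⟨nat_lit 7, nat_lit 100, nat_lit 92, nat_lit 68, nat_lit 137875051⟩]⟩
noncomputable def p068_l1 : Lf2 := ⟨nat_lit 0, nat_lit 20, [nat_lit 5, nat_lit 5, nat_lit 5, nat_lit 20], false, nat_lit 0, nat_lit 160, nat_lit 0, nat_lit 300, ⟨nat_lit 1000, nat_lit 0, nat_lit 0, nat_lit 0, nat_lit 0, nat_lit 0, nat_lit 0, nat_lit 0, nat_lit 0, nat_lit 0, nat_lit 0, nat_lit 0, nat_lit 0, nat_lit 0, nat_lit 0, nat_lit 0, false, false⟩,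
 nat_lit 0, nat_lit 0, nat_lit 10760, nat_lit 0, nat_lit 6636, nat_lit 6847, nat_lit 1013, nat_lit 0, nat_lit 0, nat_lit 815, nat_lit 0, nat_lit 0, nat_lit 0, nat_lit 0, nat_lit 0, nat_lit 0, nat_lit 0, nat_lit 0, [],
 ⟨p068_k1, nat_lit 0, nat_lit 0, nat_lit 242, nat_lit 0, nat_lit 0, [nat_lit 3282000000, nat_lit 6250000000, nat_lit 11872000000], [], [nat_lit 28697599483, nat_lit 30671329643, nat_lit 37382775776, nat_lit 39839836816, nat_lit 24464119611, nat_lit 26124146336, nat_lit 32419169408, nat_lit 33777614752], nat_lit 0, nat_lit 0, nat_lit 0, nat_lit 0, nat_lit 0, nat_lit 0, [], [nat_lit 23, nat_lit 40, nat_lit 40, nat_lit 80, nat_lit 12, nat_lit 456, nat_lit 225, nat_lit 11]⟩, ⟨p068_k1, nat_lit 0, nat_lit 0, nat_lit 499, nat_lit 0, nat_lit 542426, [nat_lit 3282000000, nat_lit 6250000000, nat_lit 11872000000], [], [nat_lit 32570854401, nat_lit 33346372743, nat_lit 38545866509, nat_lit 39182522542, nat_lit 30433982746,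 nat_lit 30888106059, nat_lit 35146385127, nat_lit 35509563176], nat_lit 1271250, nat_lit 1271250, nat_lit 1271250, nat_lit 1271250, nat_lit 0, nat_lit 2118750, [nat_lit 780000, nat_lit 1435000, nat_lit 1271250], [nat_lit 23, nat_lit 40, nat_lit 40, nat_lit 80, nat_lit 12, nat_lit 483, nat_lit 250, nat_lit 12]⟩,
 zbF0, [⟨nat_lit 19, nat_lit 97, nat_lit 100, nat_lit 82, nat_lit 150122882⟩]⟩
noncomputable def p068_l2 : Lf2 := ⟨nat_lit 0, nat_lit 20, [nat_lit 5, nat_lit 5, nat_lit 5, nat_lit 20], false, nat_lit 0, nat_lit 160, nat_lit 0, nat_lit 280, ⟨nat_lit 1000, nat_lit 0, nat_lit 0, nat_lit 0, nat_lit 0, nat_lit 0, nat_lit 0, nat_lit 0, nat_lit 0, nat_lit 0, nat_lit 0, nat_lit 0, nat_lit 0, nat_lit 0, nat_lit 0, nat_lit 0, false, false⟩,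
 nat_lit 0, nat_lit 0, nat_lit 8385, nat_lit 0, nat_lit 6498, nat_lit 5804, nat_lit 696, nat_lit 0, nat_lit 0, nat_lit 1091, nat_lit 0, nat_lit 0, nat_lit 0, nat_lit 0, nat_lit 0, nat_lit 0, nat_lit 0, nat_lit 0, [],
 ⟨p068_k2, nat_lit 0, nat_lit 0, nat_lit 209, nat_lit 0, nat_lit 0, [nat_lit 3282000000, nat_lit 4688000000, nat_lit 9842000000], [], [nat_lit 28950936812, nat_lit 30361760344, nat_lit 38972212392, nat_lit 39787202200, nat_lit 24679426712, nat_lit 25675265456, nat_lit 32973040392, nat_lit 33677146952], nat_lit 0, nat_lit 0, nat_lit 0, nat_lit 0, nat_lit 0, nat_lit 0, [], [nat_lit 42, nat_lit 40, nat_lit 40, nat_lit 80, nat_lit 13, nat_lit 373, nat_lit 150, nat_lit 10]⟩, ⟨p068_k2, nat_lit 0, nat_lit 0, nat_lit 578, nat_lit 0, nat_lit 862286, [nat_lit 3282000000, nat_lit 4688000000, nat_lit 9842000000], [], [nat_lit 30906858422, nat_lit 31390824854, nat_lit 36358927544, nat_lit 37512103824, nat_lit 29140165750,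 nat_lit 29446556299, nat_lit 32599729004, nat_lit 33381675296], nat_lit 1271250, nat_lit 1271250, nat_lit 1271250, nat_lit 1271250, nat_lit 0, nat_lit 1977500, [nat_lit 780000, nat_lit 1100000, nat_lit 2127500], [nat_lit 42, nat_lit 40, nat_lit 40, nat_lit 80, nat_lit 13, nat_lit 401, nat_lit 175, nat_lit 11]⟩,
 zbF0, [⟨nat_lit 7, nat_lit 100, nat_lit 85, nat_lit 73, nat_lit 164328356⟩]⟩
noncomputable def p068_l3 : Lf2 := ⟨nat_lit 0, nat_lit 20, [nat_lit 5, nat_lit 5, nat_lit 5, nat_lit 20], false, nat_lit 160, nat_lit 300, nat_lit 0, nat_lit 300, ⟨nat_lit 1000, nat_lit 0, nat_lit 0, nat_lit 0, nat_lit 0, nat_lit 0, nat_lit 0, nat_lit 0, nat_lit 0, nat_lit 0, nat_lit 0, nat_lit 0, nat_lit 0, nat_lit 0, nat_lit 0, nat_lit 0, false, false⟩,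
 nat_lit 0, nat_lit 0, nat_lit 11584, nat_lit 0, nat_lit 6955, nat_lit 7371, nat_lit 0, nat_lit 0, nat_lit 0, nat_lit 750, nat_lit 0, nat_lit 0, nat_lit 0, nat_lit 0, nat_lit 0, nat_lit 0, nat_lit 0, nat_lit 0, [],
 ⟨p068_k1, nat_lit 0, nat_lit 0, nat_lit 90, nat_lit 0, nat_lit 0, [nat_lit 3282000000, nat_lit 6250000000, nat_lit 11872000000], [], [nat_lit 19488912400, nat_lit 22498703980, nat_lit 30777315120, nat_lit 32641666520, nat_lit 25226331970, nat_lit 27372905445, nat_lit 33781038745, nat_lit 35343617190], nat_lit 0, nat_lit 0, nat_lit 0, nat_lit 0, nat_lit 0, nat_lit 0, [], [nat_lit 23, nat_lit 40, nat_lit 40, nat_lit 80, nat_lit 12, nat_lit 538, nat_lit 300, nat_lit 13]⟩, ⟨p068_k1, nat_lit 0, nat_lit 0, nat_lit 549, nat_lit 0, nat_lit 689232, [nat_lit 3282000000, nat_lit 6250000000, nat_lit 11872000000], [], [nat_lit 33989300454, nat_lit 34292127321, nat_lit 39668305650, nat_lit 40040064388, nat_lit 30814399460,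 nat_lit 30985201269, nat_lit 34510968993, nat_lit 34639692601], nat_lit 1271250, nat_lit 1271250, nat_lit 1271250, nat_lit 1271250, nat_lit 0, nat_lit 2118750, [nat_lit 780000, nat_lit 1435000, nat_lit 1271250], [nat_lit 23, nat_lit 40, nat_lit 40, nat_lit 80, nat_lit 12, nat_lit 483, nat_lit 250, nat_lit 12]⟩,
 zbF0, [⟨nat_lit 4, nat_lit 100, nat_lit 90, nat_lit 74, nat_lit 591146692⟩, ⟨nat_lit 7, nat_lit 100, nat_lit 97, nat_lit 76, nat_lit 122712853⟩]⟩
noncomputable def p068_l4 : Lf2 := ⟨nat_lit 0, nat_lit 20, [nat_lit 5, nat_lit 5, nat_lit 5, nat_lit 20], false, nat_lit 160, nat_lit 292, nat_lit 0, nat_lit 292, ⟨nat_lit 1000, nat_lit 0, nat_lit 0, nat_lit 0, nat_lit 0, nat_lit 0, nat_lit 0, nat_lit 0, nat_lit 0, nat_lit 0, nat_lit 0, nat_lit 0, nat_lit 0, nat_lit 0, nat_lit 0, nat_lit 0, false, false⟩,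
 nat_lit 0, nat_lit 0, nat_lit 10050, nat_lit 0, nat_lit 6919, nat_lit 6674, nat_lit 0, nat_lit 0, nat_lit 0, nat_lit 783, nat_lit 0, nat_lit 0, nat_lit 0, nat_lit 0, nat_lit 0, nat_lit 0, nat_lit 0, nat_lit 0, [],
 ⟨p068_k3, nat_lit 0, nat_lit 0, nat_lit 90, nat_lit 0, nat_lit 0, [nat_lit 3282000000, nat_lit 6250000000, nat_lit 11872000000], [], [nat_lit 20281502131, nat_lit 22532012764, nat_lit 31226115150, nat_lit 32596279736, nat_lit 25385708027, nat_lit 27030333933, nat_lit 33846341425, nat_lit 35046697428], nat_lit 0, nat_lit 0, nat_lit 0, nat_lit 0, nat_lit 0, nat_lit 0, [], [nat_lit 23, nat_lit 40, nat_lit 40, nat_lit 80, nat_lit 12, nat_lit 538, nat_lit 300, nat_lit 13]⟩, ⟨p068_k3, nat_lit 0, nat_lit 0, nat_lit 563, nat_lit 0, nat_lit 733176, [nat_lit 3282000000, nat_lit 6250000000, nat_lit 11872000000], [], [nat_lit 33247436599, nat_lit 33542333697, nat_lit 38354837247, nat_lit 38715529019, nat_lit 30656066398,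 nat_lit 30868391628, nat_lit 34316047950, nat_lit 34453757763], nat_lit 1271250, nat_lit 1271250, nat_lit 1271250, nat_lit 1271250, nat_lit 0, nat_lit 2062250, [nat_lit 780000, nat_lit 1435000, nat_lit 1271250], [nat_lit 23, nat_lit 40, nat_lit 40, nat_lit 80, nat_lit 12, nat_lit 483, nat_lit 250, nat_lit 12]⟩,
 zbF0, [⟨nat_lit 4, nat_lit 100, nat_lit 88, nat_lit 74, nat_lit 595924820⟩, ⟨nat_lit 19, nat_lit 92, nat_lit 100, nat_lit 75, nat_lit 153150860⟩]⟩
noncomputable def p068_l5 : Lf2 := ⟨nat_lit 0, nat_lit 20, [nat_lit 5, nat_lit 5, nat_lit 5, nat_lit 20], false, nat_lit 160, nat_lit 280, nat_lit 0, nat_lit 280, ⟨nat_lit 1000, nat_lit 0, nat_lit 0, nat_lit 0, nat_lit 0, nat_lit 0, nat_lit 0, nat_lit 0, nat_lit 0, nat_lit 0, nat_lit 0, nat_lit 0, nat_lit 0, nat_lit 0, nat_lit 0, nat_lit 0, false, false⟩,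
 nat_lit 0, nat_lit 0, nat_lit 7559, nat_lit 0, nat_lit 5800, nat_lit 5233, nat_lit 0, nat_lit 0, nat_lit 0, nat_lit 1302, nat_lit 0, nat_lit 0, nat_lit 0, nat_lit 0, nat_lit 0, nat_lit 0, nat_lit 0, nat_lit 0, [],
 ⟨p068_k2, nat_lit 0, nat_lit 0, nat_lit 78, nat_lit 0, nat_lit 0, [nat_lit 3282000000, nat_lit 4688000000, nat_lit 9842000000], [], [nat_lit 20041284400, nat_lit 21345450400, nat_lit 30166352800, nat_lit 31185507200, nat_lit 24099451400, nat_lit 25219179600, nat_lit 32595301800, nat_lit 33377073200], nat_lit 0, nat_lit 0, nat_lit 0, nat_lit 0, nat_lit 0, nat_lit 0, [], [nat_lit 42, nat_lit 40, nat_lit 40, nat_lit 80, nat_lit 13, nat_lit 401, nat_lit 175, nat_lit 10]⟩, ⟨p068_k2, nat_lit 0, nat_lit 0, nat_lit 578, nat_lit 0, nat_lit 862286, [nat_lit 3282000000, nat_lit 4688000000, nat_lit 9842000000], [], [nat_lit 30981306476, nat_lit 31585191558, nat_lit 35450389042, nat_lit 35915843748, nat_lit 30818591118,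 nat_lit 31215419098, nat_lit 34412194984, nat_lit 34740624714], nat_lit 1271250, nat_lit 1271250, nat_lit 1271250, nat_lit 1271250, nat_lit 0, nat_lit 1977500, [nat_lit 780000, nat_lit 1100000, nat_lit 2127500], [nat_lit 42, nat_lit 40, nat_lit 40, nat_lit 80, nat_lit 13, nat_lit 401, nat_lit 175, nat_lit 11]⟩,
 zbF0, [⟨nat_lit 4, nat_lit 100, nat_lit 85, nat_lit 73, nat_lit 606222781⟩, ⟨nat_lit 19, nat_lit 85, nat_lit 100, nat_lit 73, nat_lit 249405114⟩]⟩
noncomputable def b_V_700_700_10_28 : St := ⟨true, nat_lit 0, nat_lit 1, nat_lit 1, nat_lit 80, nat_lit 280, nat_lit 320, nat_lit 280, nat_lit 320, nat_lit 240, nat_lit 400, nat_lit 40, nat_lit 80, nat_lit 0, nat_lit 300, nat_lit 0, nat_lit 300, nat_lit 40, nat_lit 80, nat_lit 0, nat_lit 0, nat_lit 0, nat_lit 0⟩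
theorem d_V_700_700_10_28 (h : EB TB.env) : Dead b_V_700_700_10_28 := chkB_sound0 h (T :=
(.spl (nat_lit 4) (nat_lit 160)
(.spl (nat_lit 1) (nat_lit 300)
(.spl (nat_lit 3) (nat_lit 60)
(.trX (nat_lit 19) (nat_lit 99) (nat_lit 100) (nat_lit 77) (nat_lit 276) (.leaf p068_l0))
(.leaf p068_l1))
(.ord (.trX (nat_lit 19) (nat_lit 94) (nat_lit 100) (nat_lit 87) (nat_lit 280) (.leaf p068_l2))))
(.spl (nat_lit 1) (nat_lit 300)
(.spl (nat_lit 1) (nat_lit 290)
(.leaf p068_l3)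
(.ord (.trX (nat_lit 16) (nat_lit 100) (nat_lit 100) (nat_lit 89) (nat_lit 292) (.trX (nat_lit 19) (nat_lit 100) (nat_lit 100) (nat_lit 89) (nat_lit 292) (.leaf p068_l4)))))
(.ord (.trX (nat_lit 16) (nat_lit 94) (nat_lit 100) (nat_lit 87) (nat_lit 280) (.trX (nat_lit 19) (nat_lit 94) (nat_lit 100) (nat_lit 87) (nat_lit 280) (.leaf p068_l5))))))) (by decide +kernel)
noncomputable def p068_l6 : Lf2 := ⟨nat_lit 0, nat_lit 20, [nat_lit 5, nat_lit 5, nat_lit 5, nat_lit 20], true, nat_lit 0, nat_lit 300, nat_lit 0, nat_lit 300, ⟨nat_lit 0, nat_lit 1000, nat_lit 0, nat_lit 7, nat_lit 209, nat_lit 1000, nat_lit 106, nat_lit 0, nat_lit 0, nat_lit 0, nat_lit 0, nat_lit 0, nat_lit 0, nat_lit 0, nat_lit 0, nat_lit 5000000, false, false⟩,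
 nat_lit 0, nat_lit 0, nat_lit 0, nat_lit 0, nat_lit 6419, nat_lit 0, nat_lit 308, nat_lit 0, nat_lit 0, nat_lit 0, nat_lit 0, nat_lit 0, nat_lit 0, nat_lit 8582213588588, nat_lit 0, nat_lit 250000, nat_lit 0, nat_lit 0, [(nat_lit 13, [(nat_lit 0, nat_lit 1000)]), (nat_lit 16, [(nat_lit 0, nat_lit 1000)])],
 ⟨p068_k1, nat_lit 0, nat_lit 0, nat_lit 327, nat_lit 0, nat_lit 0, [nat_lit 2378400000, nat_lit 3128000000, nat_lit 3715520000], [], [nat_lit 24080301544, nat_lit 27394380245, nat_lit 25310703932, nat_lit 27783078172, nat_lit 24638922767, nat_lit 26661546944, nat_lit 24372028079, nat_lit 25880335375], nat_lit 0, nat_lit 0, nat_lit 0, nat_lit 0, nat_lit 0, nat_lit 0, [], [nat_lit 23, nat_lit 40, nat_lit 40, nat_lit 80, nat_lit 12, nat_lit 456, nat_lit 225, nat_lit 12]⟩, C1.Rw.none,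
 ⟨nat_lit 4472, nat_lit 5478, ⟨.ofNat (nat_lit 330579), .ofNat (nat_lit 660148), .ofNat (nat_lit 373223), .ofNat (nat_lit 702774), .ofNat (nat_lit 355064), .ofNat (nat_lit 654031), .ofNat (nat_lit 398126), .ofNat (nat_lit 697075)⟩, ⟨.negSucc (nat_lit 45522), .ofNat (nat_lit 516475), .negSucc (nat_lit 2834), .ofNat (nat_lit 559189), .negSucc (nat_lit 12423), .ofNat (nat_lit 497412), .ofNat (nat_lit 0), .ofNat (nat_lit 540545)⟩⟩, [⟨nat_lit 4, nat_lit 100, nat_lit 90, nat_lit 74, nat_lit 51299405⟩]⟩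
noncomputable def p068_l7 : Lf2 := ⟨nat_lit 0, nat_lit 20, [nat_lit 5, nat_lit 5, nat_lit 5, nat_lit 20], false, nat_lit 0, nat_lit 300, nat_lit 0, nat_lit 300, ⟨nat_lit 1000, nat_lit 0, nat_lit 0, nat_lit 0, nat_lit 0, nat_lit 0, nat_lit 0, nat_lit 0, nat_lit 0, nat_lit 0, nat_lit 0, nat_lit 0, nat_lit 0, nat_lit 0, nat_lit 0, nat_lit 0, false, false⟩,
 nat_lit 0, nat_lit 0, nat_lit 0, nat_lit 2050, nat_lit 10302, nat_lit 10571, nat_lit 181, nat_lit 0, nat_lit 0, nat_lit 136, nat_lit 0, nat_lit 0, nat_lit 0, nat_lit 53929082845, nat_lit 0, nat_lit 0, nat_lit 0, nat_lit 0, [],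
 ⟨p068_k1, nat_lit 0, nat_lit 0, nat_lit 242, nat_lit 0, nat_lit 0, [nat_lit 3282000000, nat_lit 6250000000, nat_lit 11872000000], [], [nat_lit 36228017931, nat_lit 39465187851, nat_lit 48426849675, nat_lit 50100038299, nat_lit 31007608457, nat_lit 32825985709, nat_lit 38006693487, nat_lit 39260336836], nat_lit 0, nat_lit 0, nat_lit 0, nat_lit 0, nat_lit 0, nat_lit 0, [], [nat_lit 23, nat_lit 40, nat_lit 40, nat_lit 80, nat_lit 12, nat_lit 538, nat_lit 300, nat_lit 13]⟩, ⟨p068_k1, nat_lit 0, nat_lit 0, nat_lit 242, nat_lit 0, nat_lit 0, [nat_lit 3282000000, nat_lit 6250000000, nat_lit 11872000000], [], [nat_lit 36766477288, nat_lit 40056629448, nat_lit 49161429400, nat_lit 50851702752, nat_lit 31249445011, nat_lit 33089403057, nat_lit 38329973826, nat_lit 39575125478], nat_lit 0, nat_lit 0, nat_lit 0, nat_lit 0, nat_lit 0, nat_lit 0, [], [nat_lit 23, nat_lit 40, nat_lit 40, nat_lit 80, nat_lit 12, nat_lit 538, nat_lit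 300, nat_lit 13]⟩,
 zbF0, []⟩
noncomputable def p068_l8 : Lf2 := ⟨nat_lit 0, nat_lit 20, [nat_lit 5, nat_lit 5, nat_lit 5, nat_lit 20], true, nat_lit 0, nat_lit 300, nat_lit 0, nat_lit 300, ⟨nat_lit 0, nat_lit 1000, nat_lit 0, nat_lit 7, nat_lit 209, nat_lit 1000, nat_lit 106, nat_lit 0, nat_lit 0, nat_lit 0, nat_lit 0, nat_lit 0, nat_lit 0, nat_lit 0, nat_lit 0, nat_lit 5000000, false, false⟩,
 nat_lit 0, nat_lit 0, nat_lit 0, nat_lit 0, nat_lit 6419, nat_lit 0, nat_lit 308, nat_lit 0, nat_lit 0, nat_lit 0, nat_lit 0, nat_lit 0, nat_lit 0, nat_lit 8582213588588, nat_lit 0, nat_lit 250000, nat_lit 0, nat_lit 0, [(nat_lit 13, [(nat_lit 0, nat_lit 1000)]), (nat_lit 16, [(nat_lit 0, nat_lit 1000)])],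
 ⟨p068_k1, nat_lit 0, nat_lit 0, nat_lit 327, nat_lit 0, nat_lit 0, [nat_lit 2378400000, nat_lit 3128000000, nat_lit 3715520000], [], [nat_lit 24080301544, nat_lit 27394380245, nat_lit 25310703932, nat_lit 27783078172, nat_lit 24638922767, nat_lit 26661546944, nat_lit 24372028079, nat_lit 25880335375], nat_lit 0, nat_lit 0, nat_lit 0, nat_lit 0, nat_lit 0, nat_lit 0, [], [nat_lit 23, nat_lit 40, nat_lit 40, nat_lit 80, nat_lit 12, nat_lit 456, nat_lit 225, nat_lit 12]⟩, C1.Rw.none,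
 ⟨nat_lit 4472, nat_lit 5478, ⟨.ofNat (nat_lit 330579), .ofNat (nat_lit 660148), .ofNat (nat_lit 373223), .ofNat (nat_lit 702774), .ofNat (nat_lit 355064), .ofNat (nat_lit 654031), .ofNat (nat_lit 398126), .ofNat (nat_lit 697075)⟩, ⟨.negSucc (nat_lit 45522), .ofNat (nat_lit 516475), .negSucc (nat_lit 2834), .ofNat (nat_lit 559189), .negSucc (nat_lit 12423), .ofNat (nat_lit 497412), .ofNat (nat_lit 0), .ofNat (nat_lit 540545)⟩⟩, [⟨nat_lit 4, nat_lit 100, nat_lit 90, nat_lit 74, nat_lit 51299405⟩]⟩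
noncomputable def p068_l9 : Lf2 := ⟨nat_lit 0, nat_lit 20, [nat_lit 5, nat_lit 5, nat_lit 5, nat_lit 20], false, nat_lit 0, nat_lit 160, nat_lit 0, nat_lit 300, ⟨nat_lit 396, nat_lit 604, nat_lit 0, nat_lit 7, nat_lit 324, nat_lit 604, nat_lit 56, nat_lit 0, nat_lit 0, nat_lit 0, nat_lit 0, nat_lit 0, nat_lit 0, nat_lit 0, nat_lit 0, nat_lit 5000000, true, true⟩,
 nat_lit 0, nat_lit 0, nat_lit 4493, nat_lit 0, nat_lit 5207, nat_lit 2859, nat_lit 439, nat_lit 0, nat_lit 0, nat_lit 250, nat_lit 0, nat_lit 0, nat_lit 0, nat_lit 0, nat_lit 0, nat_lit 241600, nat_lit 0, nat_lit 0, [(nat_lit 13, [(nat_lit 1, nat_lit 604)]), (nat_lit 16, [(nat_lit 1, nat_lit 604)])],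
 ⟨p068_k1, nat_lit 0, nat_lit 0, nat_lit 242, nat_lit 0, nat_lit 0, [nat_lit 2548180267, nat_lit 4211137600, nat_lit 6152844800], [], [nat_lit 27609481421, nat_lit 29390210841, nat_lit 34494305225, nat_lit 35843900209, nat_lit 24899214804, nat_lit 26373885857, nat_lit 30691868441, nat_lit 31704159624], nat_lit 0, nat_lit 0, nat_lit 0, nat_lit 0, nat_lit 0, nat_lit 0, [], [nat_lit 23, nat_lit 40, nat_lit 40, nat_lit 80, nat_lit 12, nat_lit 456, nat_lit 225, nat_lit 11]⟩, ⟨p068_k1, nat_lit 0, nat_lit 0, nat_lit 579, nat_lit 0, nat_lit 779423, [nat_lit 1299672000, nat_lit 2475000000, nat_lit 4701312000], [], [nat_lit 14088393546, nat_lit 14326869096, nat_lit 16091919030, nat_lit 16384449258, nat_lit 12896789544, nat_lit 13028903831, nat_lit 13946422269, nat_lit 14007950384], nat_lit 1271250, nat_lit 1271250, nat_lit 1271250, nat_lit 1271250, nat_lit 0, nat_lit 2118750, [nat_lit 780000, nat_lit 1435000, nat_lit 1271250],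 [nat_lit 23, nat_lit 40, nat_lit 40, nat_lit 80, nat_lit 12, nat_lit 483, nat_lit 250, nat_lit 12]⟩,
 ⟨nat_lit 4472, nat_lit 5478, ⟨.ofNat (nat_lit 660148), .ofNat (nat_lit 959740), .ofNat (nat_lit 681461), .ofNat (nat_lit 981053), .ofNat (nat_lit 654031), .ofNat (nat_lit 925804), .ofNat (nat_lit 675553), .ofNat (nat_lit 947326)⟩, ⟨.negSucc (nat_lit 45522), .ofNat (nat_lit 254209), .negSucc (nat_lit 2834), .ofNat (nat_lit 296923), .negSucc (nat_lit 12423), .ofNat (nat_lit 259489), .ofNat (nat_lit 0), .ofNat (nat_lit 302621)⟩⟩, [⟨nat_lit 10, nat_lit 100, nat_lit 39, nat_lit 83, nat_lit 37427517⟩, ⟨nat_lit 22, nat_lit 83, nat_lit 100, nat_lit 83, nat_lit 28540576⟩]⟩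
noncomputable def p068_l10 : Lf2 := ⟨nat_lit 0, nat_lit 20, [nat_lit 5, nat_lit 5, nat_lit 5, nat_lit 20], false, nat_lit 0, nat_lit 160, nat_lit 0, nat_lit 280, ⟨nat_lit 558, nat_lit 442, nat_lit 0, nat_lit 7, nat_lit 331, nat_lit 442, nat_lit 56, nat_lit 0, nat_lit 0, nat_lit 0, nat_lit 0, nat_lit 0, nat_lit 0, nat_lit 0, nat_lit 0, nat_lit 5000000, true, true⟩,
 nat_lit 0, nat_lit 0, nat_lit 5046, nat_lit 0, nat_lit 4932, nat_lit 3493, nat_lit 456, nat_lit 0, nat_lit 0, nat_lit 384, nat_lit 0, nat_lit 0, nat_lit 0, nat_lit 0, nat_lit 0, nat_lit 176800, nat_lit 0, nat_lit 0, [(nat_lit 16, [(nat_lit 1, nat_lit 442)])],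
 ⟨p068_k4, nat_lit 0, nat_lit 0, nat_lit 219, nat_lit 0, nat_lit 0, [nat_lit 2724284401, nat_lit 4547887467, nat_lit 6450622400], [], [nat_lit 27382346196, nat_lit 28256927668, nat_lit 34301521728, nat_lit 35072460592, nat_lit 25406014532, nat_lit 26145361380, nat_lit 30903301027, nat_lit 31430516083], nat_lit 0, nat_lit 0, nat_lit 0, nat_lit 0, nat_lit 0, nat_lit 0, [], [nat_lit 8, nat_lit 40, nat_lit 40, nat_lit 80, nat_lit 1, nat_lit 373, nat_lit 150, nat_lit 10]⟩, ⟨p068_k4, nat_lit 0, nat_lit 0, nat_lit 580, nat_lit 0, nat_lit 862286, [nat_lit 1831356000, nat_lit 3487500000, nat_lit 5491836000], [], [nat_lit 18392748270, nat_lit 18675498128, nat_lit 20976903058, nat_lit 21643413532, nat_lit 17238204869, nat_lit 17411574638, nat_lit 18779180507, nat_lit 18940749902], nat_lit 1271250, nat_lit 1271250, nat_lit 1271250, nat_lit 1271250, nat_lit 0, nat_lit 1977500, [nat_lit 780000, nat_lit 1435000, nat_lit 1271250],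 [nat_lit 8, nat_lit 40, nat_lit 40, nat_lit 80, nat_lit 1, nat_lit 401, nat_lit 175, nat_lit 11]⟩,
 ⟨nat_lit 4472, nat_lit 5000, ⟨.ofNat (nat_lit 678503), .ofNat (nat_lit 964199), .ofNat (nat_lit 699920), .ofNat (nat_lit 985615), .ofNat (nat_lit 675743), .ofNat (nat_lit 947637), .ofNat (nat_lit 697297), .ofNat (nat_lit 969191)⟩, ⟨.negSucc (nat_lit 28572), .ofNat (nat_lit 257141), .ofNat (nat_lit 0), .ofNat (nat_lit 299999), .negSucc (nat_lit 12423), .ofNat (nat_lit 259489), .ofNat (nat_lit 0), .ofNat (nat_lit 302621)⟩⟩, [⟨nat_lit 7, nat_lit 100, nat_lit 85, nat_lit 73, nat_lit 79427910⟩]⟩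
noncomputable def p068_l11 : Lf2 := ⟨nat_lit 0, nat_lit 20, [nat_lit 5, nat_lit 5, nat_lit 5, nat_lit 20], false, nat_lit 160, nat_lit 300, nat_lit 0, nat_lit 300, ⟨nat_lit 388, nat_lit 612, nat_lit 0, nat_lit 7, nat_lit 324, nat_lit 612, nat_lit 161, nat_lit 0, nat_lit 0, nat_lit 0, nat_lit 0, nat_lit 0, nat_lit 0, nat_lit 0, nat_lit 0, nat_lit 5000000, true, true⟩,
 nat_lit 0, nat_lit 0, nat_lit 4400, nat_lit 0, nat_lit 5157, nat_lit 2799, nat_lit 0, nat_lit 0, nat_lit 0, nat_lit 245, nat_lit 0, nat_lit 0, nat_lit 0, nat_lit 0, nat_lit 0, nat_lit 153000, nat_lit 0, nat_lit 0, [(nat_lit 13, [(nat_lit 0, nat_lit 612)]), (nat_lit 16, [(nat_lit 0, nat_lit 612)])],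
 ⟨p068_k1, nat_lit 0, nat_lit 0, nat_lit 90, nat_lit 0, nat_lit 0, [nat_lit 2728996801, nat_lit 4339336000, nat_lit 6834838240], [], [nat_lit 20185215801, nat_lit 22467105137, nat_lit 29316036048, nat_lit 30893505656, nat_lit 24910972238, nat_lit 26786865803, nat_lit 32076287284, nat_lit 33240998168], nat_lit 0, nat_lit 0, nat_lit 0, nat_lit 0, nat_lit 0, nat_lit 0, [], [nat_lit 23, nat_lit 40, nat_lit 40, nat_lit 80, nat_lit 12, nat_lit 538, nat_lit 300, nat_lit 13]⟩, ⟨p068_k1, nat_lit 0, nat_lit 0, nat_lit 579, nat_lit 0, nat_lit 779423, [nat_lit 1273416000, nat_lit 2425000000, nat_lit 4606336000], [], [nat_lit 13809952191, nat_lit 14043559029, nat_lit 15763819515, nat_lit 16050368831, nat_lit 12644878277, nat_lit 12774336654, nat_lit 13673402718, nat_lit 13733745239], nat_lit 1271250, nat_lit 1271250, nat_lit 1271250, nat_lit 1271250, nat_lit 0, nat_lit 2118750, [nat_lit 780000, nat_lit 1435000, nat_lit 1271250],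 [nat_lit 23, nat_lit 40, nat_lit 40, nat_lit 80, nat_lit 12, nat_lit 483, nat_lit 250, nat_lit 12]⟩,
 ⟨nat_lit 4472, nat_lit 5478, ⟨.ofNat (nat_lit 660148), .ofNat (nat_lit 959740), .ofNat (nat_lit 681461), .ofNat (nat_lit 981053), .ofNat (nat_lit 654031), .ofNat (nat_lit 925804), .ofNat (nat_lit 675553), .ofNat (nat_lit 947326)⟩, ⟨.ofNat (nat_lit 254209), .ofNat (nat_lit 516475), .ofNat (nat_lit 296923), .ofNat (nat_lit 559189), .ofNat (nat_lit 259489), .ofNat (nat_lit 497412), .ofNat (nat_lit 302621), .ofNat (nat_lit 540545)⟩⟩, [⟨nat_lit 13, nat_lit 97, nat_lit 6, nat_lit 100, nat_lit 95974892⟩, ⟨nat_lit 4, nat_lit 100, nat_lit 90, nat_lit 74, nat_lit 339395688⟩, ⟨nat_lit 7, nat_lit 100, nat_lit 94, nat_lit 75, nat_lit 44134677⟩]⟩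
noncomputable def p068_l12 : Lf2 := ⟨nat_lit 0, nat_lit 20, [nat_lit 5, nat_lit 5, nat_lit 5, nat_lit 20], false, nat_lit 160, nat_lit 280, nat_lit 0, nat_lit 280, ⟨nat_lit 751, nat_lit 249, nat_lit 0, nat_lit 7, nat_lit 331, nat_lit 249, nat_lit 154, nat_lit 0, nat_lit 0, nat_lit 0, nat_lit 0, nat_lit 0, nat_lit 0, nat_lit 0, nat_lit 0, nat_lit 5000000, true, true⟩,
 nat_lit 0, nat_lit 0, nat_lit 5884, nat_lit 0, nat_lit 6263, nat_lit 4073, nat_lit 0, nat_lit 0, nat_lit 0, nat_lit 932, nat_lit 0, nat_lit 0, nat_lit 0, nat_lit 0, nat_lit 0, nat_lit 62250, nat_lit 0, nat_lit 0, [(nat_lit 16, [(nat_lit 0, nat_lit 249)])],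
 ⟨p068_k4, nat_lit 0, nat_lit 0, nat_lit 90, nat_lit 0, nat_lit 0, [nat_lit 3046246800, nat_lit 5377437600, nat_lit 8233858400], [], [nat_lit 20849078934, nat_lit 22266410428, nat_lit 30923481868, nat_lit 31769255304, nat_lit 25043835865, nat_lit 26124555810, nat_lit 33107750663, nat_lit 33909765812], nat_lit 0, nat_lit 0, nat_lit 0, nat_lit 0, nat_lit 0, nat_lit 0, [], [nat_lit 8, nat_lit 40, nat_lit 40, nat_lit 80, nat_lit 1, nat_lit 401, nat_lit 175, nat_lit 10]⟩, ⟨p068_k4, nat_lit 0, nat_lit 0, nat_lit 580, nat_lit 0, nat_lit 862286, [nat_lit 2464782000, nat_lit 4693750000, nat_lit 7391342000], [], [nat_lit 23842612864, nat_lit 24282397248, nat_lit 27094790106, nat_lit 27377333792, nat_lit 23372464126, nat_lit 23657989548, nat_lit 25510387493, nat_lit 25686993484], nat_lit 1271250, nat_lit 1271250, nat_lit 1271250, nat_lit 1271250, nat_lit 0, nat_lit 1977500, [nat_lit 780000, nat_lit 1435000, nat_lit 1271250],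 [nat_lit 8, nat_lit 40, nat_lit 40, nat_lit 80, nat_lit 1, nat_lit 401, nat_lit 175, nat_lit 11]⟩,
 ⟨nat_lit 4472, nat_lit 5000, ⟨.ofNat (nat_lit 678503), .ofNat (nat_lit 964199), .ofNat (nat_lit 699920), .ofNat (nat_lit 985615), .ofNat (nat_lit 675743), .ofNat (nat_lit 947637), .ofNat (nat_lit 697297), .ofNat (nat_lit 969191)⟩, ⟨.ofNat (nat_lit 257141), .ofNat (nat_lit 471427), .ofNat (nat_lit 299999), .ofNat (nat_lit 514284), .ofNat (nat_lit 259489), .ofNat (nat_lit 463423), .ofNat (nat_lit 302621), .ofNat (nat_lit 506556)⟩⟩, [⟨nat_lit 4, nat_lit 100, nat_lit 85, nat_lit 73, nat_lit 440032053⟩, ⟨nat_lit 19, nat_lit 85, nat_lit 100, nat_lit 73, nat_lit 164061051⟩]⟩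
noncomputable def b_V_700_700_10_29 : St := ⟨true, nat_lit 0, nat_lit 2, nat_lit 2, nat_lit 80, nat_lit 280, nat_lit 320, nat_lit 280, nat_lit 320, nat_lit 64, nat_lit 400, nat_lit 40, nat_lit 80, nat_lit 0, nat_lit 300, nat_lit 0, nat_lit 300, nat_lit 40, nat_lit 80, nat_lit 0, nat_lit 0, nat_lit 0, nat_lit 0⟩
theorem d_V_700_700_10_29 (h : EB TB.env) : Dead b_V_700_700_10_29 := chkB_sound0 h (T :=
(.st (nat_lit 1)
(.spl (nat_lit 2) (nat_lit 240)
(.leaf p068_l6)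
(.leaf p068_l7))
(.spl (nat_lit 2) (nat_lit 240)
(.leaf p068_l8)
(.spl (nat_lit 4) (nat_lit 160)
(.spl (nat_lit 1) (nat_lit 300)
(.leaf p068_l9)
(.ord (.trX (nat_lit 19) (nat_lit 94) (nat_lit 100) (nat_lit 87) (nat_lit 280) (.leaf p068_l10))))
(.spl (nat_lit 1) (nat_lit 300)
(.leaf p068_l11)
(.ord (.trX (nat_lit 16) (nat_lit 94) (nat_lit 100) (nat_lit 87) (nat_lit 280) (.trX (nat_lit 19) (nat_lit 94) (nat_lit 100) (nat_lit 87) (nat_lit 280) (.leaf p068_l12))))))))) (by decide +kernel)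
noncomputable def p068_l13 : Lf2 := ⟨nat_lit 0, nat_lit 20, [nat_lit 5, nat_lit 5, nat_lit 5, nat_lit 20], false, nat_lit 0, nat_lit 160, nat_lit 0, nat_lit 160, ⟨nat_lit 1000, nat_lit 0, nat_lit 0, nat_lit 0, nat_lit 0, nat_lit 0, nat_lit 0, nat_lit 0, nat_lit 0, nat_lit 0, nat_lit 0, nat_lit 0, nat_lit 0, nat_lit 0, nat_lit 0, nat_lit 0, false, false⟩,
 nat_lit 0, nat_lit 12031, nat_lit 0, nat_lit 0, nat_lit 7655, nat_lit 6578, nat_lit 874, nat_lit 0, nat_lit 0, nat_lit 1452, nat_lit 0, nat_lit 0, nat_lit 0, nat_lit 0, nat_lit 0, nat_lit 0, nat_lit 0, nat_lit 0, [],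
 ⟨p068_k1, nat_lit 0, nat_lit 0, nat_lit 562, nat_lit 0, nat_lit 551743, [nat_lit 3282000000, nat_lit 6250000000, nat_lit 11872000000], [], [nat_lit 31600161713, nat_lit 31685391923, nat_lit 29331921470, nat_lit 30366510620, nat_lit 25968449270, nat_lit 26889286647, nat_lit 24824600350, nat_lit 25679361660], nat_lit 1271250, nat_lit 1271250, nat_lit 382400, nat_lit 780000, nat_lit 0, nat_lit 1100001, [nat_lit 780000, nat_lit 1435000, nat_lit 1271250], [nat_lit 23, nat_lit 40, nat_lit 40, nat_lit 80, nat_lit 12, nat_lit 373, nat_lit 150, nat_lit 10]⟩, ⟨p068_k1, nat_lit 0, nat_lit 0, nat_lit 322, nat_lit 0, nat_lit 0, [nat_lit 3282000000, nat_lit 6250000000, nat_lit 11872000000], [], [nat_lit 21401254428, nat_lit 23082226713, nat_lit 20074210516, nat_lit 21654244456, nat_lit 16528356510, nat_lit 18397891208, nat_lit 16200487560, nat_lit 17835882772], nat_lit 0, nat_lit 0, nat_lit 0, nat_lit 0, nat_lit 0, nat_lit 0, [],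 [nat_lit 23, nat_lit 40, nat_lit 40, nat_lit 80, nat_lit 12, nat_lit 373, nat_lit 150, nat_lit 10]⟩,
 zbF0, [⟨nat_lit 0, nat_lit 100, nat_lit 100, nat_lit 90, nat_lit 746353190⟩]⟩
noncomputable def p068_l14 : Lf2 := ⟨nat_lit 0, nat_lit 20, [nat_lit 5, nat_lit 5, nat_lit 5, nat_lit 20], false, nat_lit 0, nat_lit 160, nat_lit 0, nat_lit 160, ⟨nat_lit 1000, nat_lit 0, nat_lit 0, nat_lit 0, nat_lit 0, nat_lit 0, nat_lit 0, nat_lit 0, nat_lit 0, nat_lit 0, nat_lit 0, nat_lit 0, nat_lit 0, nat_lit 0, nat_lit 0, nat_lit 0, false, false⟩,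
 nat_lit 0, nat_lit 11302, nat_lit 0, nat_lit 0, nat_lit 7824, nat_lit 6508, nat_lit 1078, nat_lit 0, nat_lit 0, nat_lit 1343, nat_lit 0, nat_lit 0, nat_lit 0, nat_lit 0, nat_lit 0, nat_lit 0, nat_lit 0, nat_lit 0, [],
 ⟨p068_k4, nat_lit 0, nat_lit 0, nat_lit 562, nat_lit 0, nat_lit 672041, [nat_lit 3282000000, nat_lit 6250000000, nat_lit 9842000000], [], [nat_lit 22748249196, nat_lit 24863730812, nat_lit 22146013320, nat_lit 23952948028, nat_lit 18874591672, nat_lit 19824289480, nat_lit 18370131368, nat_lit 19265804456], nat_lit 1271250, nat_lit 1271250, nat_lit 490000, nat_lit 780000, nat_lit 0, nat_lit 1100001, [nat_lit 780000, nat_lit 1435000, nat_lit 1271250], [nat_lit 8, nat_lit 40, nat_lit 40, nat_lit 80, nat_lit 1, nat_lit 289, nat_lit 75, nat_lit 8]⟩, ⟨p068_k1, nat_lit 0, nat_lit 0, nat_lit 230, nat_lit 0, nat_lit 0, [nat_lit 3282000000, nat_lit 6250000000, nat_lit 11872000000], [], [nat_lit 21700650929, nat_lit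 23349223409, nat_lit 21085857601, nat_lit 22656180441, nat_lit 17073420289, nat_lit 18472811689, nat_lit 16639198225, nat_lit 17972657592], nat_lit 0, nat_lit 0, nat_lit 0, nat_lit 0, nat_lit 0, nat_lit 0, [], [nat_lit 23, nat_lit 40, nat_lit 40, nat_lit 80, nat_lit 12, nat_lit 373, nat_lit 150, nat_lit 10]⟩,
 zbF0, [⟨nat_lit 0, nat_lit 94, nat_lit 87, nat_lit 100, nat_lit 1129539481⟩]⟩
noncomputable def p068_l15 : Lf2 := ⟨nat_lit 0, nat_lit 20, [nat_lit 5, nat_lit 5, nat_lit 5, nat_lit 20], false, nat_lit 0, nat_lit 160, nat_lit 0, nat_lit 160, ⟨nat_lit 1000, nat_lit 0, nat_lit 0, nat_lit 0, nat_lit 0, nat_lit 0, nat_lit 0, nat_lit 0, nat_lit 0, nat_lit 0, nat_lit 0, nat_lit 0, nat_lit 0, nat_lit 0, nat_lit 0, nat_lit 0, false, false⟩,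
 nat_lit 0, nat_lit 10243, nat_lit 0, nat_lit 0, nat_lit 6518, nat_lit 7802, nat_lit 600, nat_lit 0, nat_lit 0, nat_lit 1583, nat_lit 0, nat_lit 0, nat_lit 0, nat_lit 17059189077252, nat_lit 0, nat_lit 0, nat_lit 0, nat_lit 0, [],
 ⟨p068_k1, nat_lit 0, nat_lit 0, nat_lit 534, nat_lit 0, nat_lit 551743, [nat_lit 3282000000, nat_lit 6250000000, nat_lit 11872000000], [], [nat_lit 39464401120, nat_lit 36018086836, nat_lit 35265503144, nat_lit 36027010692, nat_lit 30622354264, nat_lit 31330188052, nat_lit 31497297040, nat_lit 32131589752], nat_lit 1271250, nat_lit 1271250, nat_lit 780000, nat_lit 1762500, nat_lit 0, nat_lit 1100001, [nat_lit 780000, nat_lit 1435000, nat_lit 1271250], [nat_lit 23, nat_lit 40, nat_lit 40, nat_lit 80, nat_lit 12, nat_lit 401, nat_lit 175, nat_lit 10]⟩, ⟨p068_k1, nat_lit 0, nat_lit 0, nat_lit 212, nat_lit 0, nat_lit 0, [nat_lit 3282000000, nat_lit 6250000000, nat_lit 11872000000], [], [nat_lit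 19407649969, nat_lit 21157489429, nat_lit 23443650184, nat_lit 25380760996, nat_lit 14403894280, nat_lit 16467627672, nat_lit 18490875360, nat_lit 20102948836], nat_lit 0, nat_lit 0, nat_lit 0, nat_lit 0, nat_lit 0, nat_lit 0, [], [nat_lit 23, nat_lit 40, nat_lit 40, nat_lit 80, nat_lit 12, nat_lit 401, nat_lit 175, nat_lit 10]⟩,
 zbF0, []⟩
noncomputable def p068_l16 : Lf2 := ⟨nat_lit 0, nat_lit 20, [nat_lit 5, nat_lit 5, nat_lit 5, nat_lit 20], false, nat_lit 0, nat_lit 160, nat_lit 0, nat_lit 160, ⟨nat_lit 1000, nat_lit 0, nat_lit 0, nat_lit 0, nat_lit 0, nat_lit 0, nat_lit 0, nat_lit 0, nat_lit 0, nat_lit 0, nat_lit 0, nat_lit 0, nat_lit 0, nat_lit 0, nat_lit 0, nat_lit 0, false, false⟩,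
 nat_lit 0, nat_lit 11276, nat_lit 0, nat_lit 0, nat_lit 7806, nat_lit 7489, nat_lit 888, nat_lit 0, nat_lit 0, nat_lit 1526, nat_lit 0, nat_lit 0, nat_lit 0, nat_lit 0, nat_lit 0, nat_lit 0, nat_lit 0, nat_lit 0, [],
 ⟨p068_k4, nat_lit 0, nat_lit 0, nat_lit 512, nat_lit 0, nat_lit 672041, [nat_lit 3282000000, nat_lit 6250000000, nat_lit 9842000000], [], [nat_lit 29421256316, nat_lit 25463086832, nat_lit 26276304764, nat_lit 27843740368, nat_lit 20010443356, nat_lit 20777657264, nat_lit 30353663704, nat_lit 26864381704], nat_lit 1271250, nat_lit 1271250, nat_lit 780000, nat_lit 1762500, nat_lit 0, nat_lit 1100001, [nat_lit 780000, nat_lit 1435000, nat_lit 1271250], [nat_lit 8, nat_lit 40, nat_lit 40, nat_lit 80, nat_lit 1, nat_lit 317, nat_lit 100, nat_lit 9]⟩, ⟨p068_k1, nat_lit 0, nat_lit 0, nat_lit 212, nat_lit 0, nat_lit 0, [nat_lit 3282000000, nat_lit 6250000000, nat_lit 11872000000], [], [nat_lit 19803489658,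 nat_lit 21509906628, nat_lit 23489256788, nat_lit 25376285722, nat_lit 14808559460, nat_lit 16817425204, nat_lit 18859689520, nat_lit 20432156602], nat_lit 0, nat_lit 0, nat_lit 0, nat_lit 0, nat_lit 0, nat_lit 0, [], [nat_lit 23, nat_lit 40, nat_lit 40, nat_lit 80, nat_lit 12, nat_lit 401, nat_lit 175, nat_lit 10]⟩,
 zbF0, []⟩
noncomputable def p068_l17 : Lf2 := ⟨nat_lit 0, nat_lit 20, [nat_lit 5, nat_lit 5, nat_lit 5, nat_lit 20], false, nat_lit 0, nat_lit 160, nat_lit 160, nat_lit 300, ⟨nat_lit 1000, nat_lit 0, nat_lit 0, nat_lit 0, nat_lit 0, nat_lit 0, nat_lit 0, nat_lit 0, nat_lit 0, nat_lit 0, nat_lit 0, nat_lit 0, nat_lit 0, nat_lit 0, nat_lit 0, nat_lit 0, false, false⟩,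
 nat_lit 0, nat_lit 12031, nat_lit 0, nat_lit 0, nat_lit 7655, nat_lit 5012, nat_lit 906, nat_lit 0, nat_lit 0, nat_lit 0, nat_lit 0, nat_lit 0, nat_lit 0, nat_lit 0, nat_lit 0, nat_lit 0, nat_lit 0, nat_lit 0, [],
 ⟨p068_k1, nat_lit 0, nat_lit 0, nat_lit 562, nat_lit 0, nat_lit 551743, [nat_lit 3282000000, nat_lit 6250000000, nat_lit 11872000000], [], [nat_lit 31600161713, nat_lit 31378491923, nat_lit 29025021470, nat_lit 30059610620, nat_lit 25661549270, nat_lit 26582386647, nat_lit 24517700350, nat_lit 25372461660], nat_lit 1271250, nat_lit 1271250, nat_lit 382400, nat_lit 780000, nat_lit 0, nat_lit 1100001, [nat_lit 780000, nat_lit 1435000, nat_lit 1271250], [nat_lit 23, nat_lit 40, nat_lit 40, nat_lit 80, nat_lit 12, nat_lit 373, nat_lit 150, nat_lit 10]⟩, ⟨p068_k1, nat_lit 0, nat_lit 0, nat_lit 71, nat_lit 0, nat_lit 0, [nat_lit 3282000000, nat_lit 6250000000, nat_lit 11872000000], [], [nat_lit 12457175012, nat_lit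 14398933615, nat_lit 12552416704, nat_lit 14364932768, nat_lit 20573535225, nat_lit 22113128456, nat_lit 20187364608, nat_lit 21497921288], nat_lit 0, nat_lit 0, nat_lit 0, nat_lit 0, nat_lit 0, nat_lit 0, [], [nat_lit 23, nat_lit 40, nat_lit 40, nat_lit 80, nat_lit 12, nat_lit 428, nat_lit 200, nat_lit 11]⟩,
 zbF0, [⟨nat_lit 0, nat_lit 100, nat_lit 100, nat_lit 90, nat_lit 751132418⟩, ⟨nat_lit 7, nat_lit 100, nat_lit 94, nat_lit 75, nat_lit 672888280⟩]⟩
noncomputable def p068_l18 : Lf2 := ⟨nat_lit 0, nat_lit 20, [nat_lit 5, nat_lit 5, nat_lit 5, nat_lit 20], false, nat_lit 0, nat_lit 160, nat_lit 160, nat_lit 300, ⟨nat_lit 1000, nat_lit 0, nat_lit 0, nat_lit 0, nat_lit 0, nat_lit 0, nat_lit 0, nat_lit 0, nat_lit 0, nat_lit 0, nat_lit 0, nat_lit 0, nat_lit 0, nat_lit 0, nat_lit 0, nat_lit 0, false, false⟩,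
 nat_lit 0, nat_lit 10770, nat_lit 0, nat_lit 0, nat_lit 7455, nat_lit 5790, nat_lit 1411, nat_lit 0, nat_lit 0, nat_lit 0, nat_lit 0, nat_lit 0, nat_lit 0, nat_lit 0, nat_lit 0, nat_lit 0, nat_lit 0, nat_lit 0, [],
 ⟨p068_k4, nat_lit 0, nat_lit 0, nat_lit 562, nat_lit 0, nat_lit 672041, [nat_lit 3282000000, nat_lit 6250000000, nat_lit 9842000000], [], [nat_lit 22015798875, nat_lit 23336502920, nat_lit 20669276400, nat_lit 22275918300, nat_lit 17644716490, nat_lit 18572701600, nat_lit 17197136060, nat_lit 18073137020], nat_lit 1271250, nat_lit 1271250, nat_lit 490000, nat_lit 780000, nat_lit 0, nat_lit 1100001, [nat_lit 780000, nat_lit 1435000, nat_lit 1271250], [nat_lit 8, nat_lit 40, nat_lit 40, nat_lit 80, nat_lit 1, nat_lit 289, nat_lit 75, nat_lit 8]⟩, ⟨p068_k1, nat_lit 0, nat_lit 0, nat_lit 60, nat_lit 0, nat_lit 0, [nat_lit 3282000000, nat_lit 6250000000, nat_lit 11872000000], [], [nat_lit 11284697640, nat_lit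 13555641940, nat_lit 11500087680, nat_lit 13477673560, nat_lit 20554605380, nat_lit 22201382680, nat_lit 20180269880, nat_lit 21748975695], nat_lit 0, nat_lit 0, nat_lit 0, nat_lit 0, nat_lit 0, nat_lit 0, [], [nat_lit 23, nat_lit 40, nat_lit 40, nat_lit 80, nat_lit 12, nat_lit 428, nat_lit 200, nat_lit 11]⟩,
 zbF0, [⟨nat_lit 0, nat_lit 100, nat_lit 94, nat_lit 97, nat_lit 735293165⟩, ⟨nat_lit 7, nat_lit 100, nat_lit 94, nat_lit 75, nat_lit 747958638⟩]⟩
noncomputable def p068_l19 : Lf2 := ⟨nat_lit 0, nat_lit 20, [nat_lit 5, nat_lit 5, nat_lit 5, nat_lit 20], false, nat_lit 0, nat_lit 160, nat_lit 160, nat_lit 300, ⟨nat_lit 1000, nat_lit 0, nat_lit 0, nat_lit 0, nat_lit 0, nat_lit 0, nat_lit 0, nat_lit 0, nat_lit 0, nat_lit 0, nat_lit 0, nat_lit 0, nat_lit 0, nat_lit 0, nat_lit 0, nat_lit 0, false, false⟩,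
 nat_lit 0, nat_lit 10263, nat_lit 0, nat_lit 0, nat_lit 6531, nat_lit 5790, nat_lit 594, nat_lit 0, nat_lit 0, nat_lit 0, nat_lit 0, nat_lit 0, nat_lit 0, nat_lit 27535479339970, nat_lit 0, nat_lit 0, nat_lit 0, nat_lit 0, [],
 ⟨p068_k1, nat_lit 0, nat_lit 0, nat_lit 534, nat_lit 0, nat_lit 551743, [nat_lit 3282000000, nat_lit 6250000000, nat_lit 11872000000], [], [nat_lit 39484211040, nat_lit 36031023162, nat_lit 35298047998, nat_lit 36060109164, nat_lit 30635202038, nat_lit 31343533284, nat_lit 31517332930, nat_lit 32151995934], nat_lit 1271250, nat_lit 1271250, nat_lit 780000, nat_lit 1762500, nat_lit 0, nat_lit 1100001, [nat_lit 780000, nat_lit 1435000, nat_lit 1271250], [nat_lit 23, nat_lit 40, nat_lit 40, nat_lit 80, nat_lit 12, nat_lit 401, nat_lit 175, nat_lit 10]⟩, ⟨p068_k1, nat_lit 0, nat_lit 0, nat_lit 42, nat_lit 0, nat_lit 0, [nat_lit 3282000000, nat_lit 6250000000, nat_lit 11872000000], [], [nat_lit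 11500087680, nat_lit 13477673560, nat_lit 16155896440, nat_lit 17901943320, nat_lit 20180269880, nat_lit 21748975695, nat_lit 23061704320, nat_lit 24310900035], nat_lit 0, nat_lit 0, nat_lit 0, nat_lit 0, nat_lit 0, nat_lit 0, [], [nat_lit 23, nat_lit 40, nat_lit 40, nat_lit 80, nat_lit 12, nat_lit 456, nat_lit 225, nat_lit 11]⟩,
 zbF0, [⟨nat_lit 7, nat_lit 100, nat_lit 94, nat_lit 75, nat_lit 730579276⟩]⟩
noncomputable def p068_l20 : Lf2 := ⟨nat_lit 0, nat_lit 20, [nat_lit 5, nat_lit 5, nat_lit 5, nat_lit 20], false, nat_lit 0, nat_lit 160, nat_lit 160, nat_lit 300, ⟨nat_lit 1000, nat_lit 0, nat_lit 0, nat_lit 0, nat_lit 0, nat_lit 0, nat_lit 0, nat_lit 0, nat_lit 0, nat_lit 0, nat_lit 0, nat_lit 0, nat_lit 0, nat_lit 0, nat_lit 0, nat_lit 0, false, false⟩,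
 nat_lit 0, nat_lit 10074, nat_lit 0, nat_lit 0, nat_lit 6974, nat_lit 5790, nat_lit 1261, nat_lit 0, nat_lit 0, nat_lit 0, nat_lit 0, nat_lit 0, nat_lit 0, nat_lit 0, nat_lit 0, nat_lit 0, nat_lit 0, nat_lit 0, [],
 ⟨p068_k4, nat_lit 0, nat_lit 0, nat_lit 512, nat_lit 0, nat_lit 672041, [nat_lit 3282000000, nat_lit 6250000000, nat_lit 9842000000], [], [nat_lit 29466528764, nat_lit 25834622992, nat_lit 24694582260, nat_lit 25850591520, nat_lit 20422359532, nat_lit 21167404156, nat_lit 30134438566, nat_lit 27017060566], nat_lit 1271250, nat_lit 1271250, nat_lit 780000, nat_lit 1762500, nat_lit 0, nat_lit 1100001, [nat_lit 780000, nat_lit 1435000, nat_lit 1271250], [nat_lit 8, nat_lit 40, nat_lit 40, nat_lit 80, nat_lit 1, nat_lit 317, nat_lit 100, nat_lit 9]⟩, ⟨p068_k1, nat_lit 0, nat_lit 0, nat_lit 42, nat_lit 0, nat_lit 0, [nat_lit 3282000000, nat_lit 6250000000, nat_lit 11872000000], [], [nat_lit 11500087680, nat_lit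 13477673560, nat_lit 16155896440, nat_lit 17901943320, nat_lit 20180269880, nat_lit 21748975695, nat_lit 23061704320, nat_lit 24310900035], nat_lit 0, nat_lit 0, nat_lit 0, nat_lit 0, nat_lit 0, nat_lit 0, [], [nat_lit 23, nat_lit 40, nat_lit 40, nat_lit 80, nat_lit 12, nat_lit 456, nat_lit 225, nat_lit 11]⟩,
 zbF0, [⟨nat_lit 7, nat_lit 100, nat_lit 94, nat_lit 75, nat_lit 730579276⟩]⟩
noncomputable def p068_l21 : Lf2 := ⟨nat_lit 0, nat_lit 15, [nat_lit 30, nat_lit 5, nat_lit 5, nat_lit 20], false, nat_lit 160, nat_lit 276, nat_lit 0, nat_lit 160, ⟨nat_lit 1000, nat_lit 0, nat_lit 0, nat_lit 0, nat_lit 0, nat_lit 0, nat_lit 0, nat_lit 0, nat_lit 0, nat_lit 0, nat_lit 0, nat_lit 0, nat_lit 0, nat_lit 0, nat_lit 0, nat_lit 0, false, false⟩,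
 nat_lit 0, nat_lit 15523, nat_lit 0, nat_lit 0, nat_lit 9878, nat_lit 6841, nat_lit 1114, nat_lit 0, nat_lit 0, nat_lit 1364, nat_lit 0, nat_lit 0, nat_lit 0, nat_lit 32467518911805, nat_lit 0, nat_lit 0, nat_lit 0, nat_lit 0, [],
 ⟨p068_k5, nat_lit 0, nat_lit 0, nat_lit 281, nat_lit 0, nat_lit 351728, [nat_lit 3282000000, nat_lit 6250000000, nat_lit 9842000000], [], [nat_lit 17768681116, nat_lit 17421988396, nat_lit 15035583570, nat_lit 15771313498, nat_lit 21624235293, nat_lit 22406902422, nat_lit 23140840038, nat_lit 20871568579], nat_lit 1271250, nat_lit 1271250, nat_lit 382400, nat_lit 780000, nat_lit 1100001, nat_lit 2093250, [nat_lit 780000, nat_lit 1435000, nat_lit 1271250], [nat_lit 8, nat_lit 40, nat_lit 40, nat_lit 80, nat_lit 1, nat_lit 317, nat_lit 100, nat_lit 9]⟩, ⟨p068_k5, nat_lit 0, nat_lit 0, nat_lit 192, nat_lit 0, nat_lit 0, [nat_lit 3282000000, nat_lit 6250000000, nat_lit 9842000000], [], [nat_lit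 20859951137, nat_lit 21844139607, nat_lit 19683347000, nat_lit 20605308463, nat_lit 16292250964, nat_lit 17156490892, nat_lit 15647140820, nat_lit 16593969708], nat_lit 0, nat_lit 0, nat_lit 0, nat_lit 0, nat_lit 0, nat_lit 0, [], [nat_lit 8, nat_lit 40, nat_lit 40, nat_lit 80, nat_lit 1, nat_lit 289, nat_lit 75, nat_lit 9]⟩,
 zbF0, [⟨nat_lit 0, nat_lit 100, nat_lit 100, nat_lit 90, nat_lit 716503738⟩, ⟨nat_lit 4, nat_lit 100, nat_lit 94, nat_lit 69, nat_lit 660960017⟩]⟩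
noncomputable def p068_l22 : Lf2 := ⟨nat_lit 0, nat_lit 15, [nat_lit 30, nat_lit 5, nat_lit 5, nat_lit 20], false, nat_lit 160, nat_lit 268, nat_lit 0, nat_lit 160, ⟨nat_lit 1000, nat_lit 0, nat_lit 0, nat_lit 0, nat_lit 0, nat_lit 0, nat_lit 0, nat_lit 0, nat_lit 0, nat_lit 0, nat_lit 0, nat_lit 0, nat_lit 0, nat_lit 0, nat_lit 0, nat_lit 0, false, false⟩,
 nat_lit 0, nat_lit 12094, nat_lit 0, nat_lit 0, nat_lit 8031, nat_lit 7262, nat_lit 1042, nat_lit 0, nat_lit 0, nat_lit 1357, nat_lit 0, nat_lit 0, nat_lit 0, nat_lit 14044517773830, nat_lit 0, nat_lit 0, nat_lit 0, nat_lit 0, [],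
 ⟨p068_k6, nat_lit 0, nat_lit 0, nat_lit 342, nat_lit 0, nat_lit 516316, [nat_lit 3282000000, nat_lit 6250000000, nat_lit 9842000000], [], [nat_lit 18654365308, nat_lit 19348811127, nat_lit 17798274396, nat_lit 18449086652, nat_lit 21964901343, nat_lit 22504300341, nat_lit 22366628968, nat_lit 21574642000], nat_lit 1271250, nat_lit 1271250, nat_lit 435600, nat_lit 780000, nat_lit 1100001, nat_lit 2024750, [nat_lit 780000, nat_lit 1435000, nat_lit 1271250], [nat_lit 8, nat_lit 40, nat_lit 40, nat_lit 80, nat_lit 1, nat_lit 317, nat_lit 100, nat_lit 9]⟩, ⟨p068_k5, nat_lit 0, nat_lit 0, nat_lit 193, nat_lit 0, nat_lit 0, [nat_lit 3282000000, nat_lit 6250000000, nat_lit 9842000000], [], [nat_lit 20742521574, nat_lit 22772559392, nat_lit 19790643625, nat_lit 21704741357, nat_lit 15787644661, nat_lit 17557932923, nat_lit 15103589193, nat_lit 17071112232], nat_lit 0, nat_lit 0, nat_lit 0, nat_lit 0, nat_lit 0, nat_lit 0,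 [], [nat_lit 8, nat_lit 40, nat_lit 40, nat_lit 80, nat_lit 1, nat_lit 289, nat_lit 75, nat_lit 8]⟩,
 zbF0, [⟨nat_lit 0, nat_lit 100, nat_lit 99, nat_lit 92, nat_lit 761661509⟩, ⟨nat_lit 4, nat_lit 100, nat_lit 90, nat_lit 68, nat_lit 584829192⟩]⟩
noncomputable def p068_l23 : Lf2 := ⟨nat_lit 0, nat_lit 15, [nat_lit 30, nat_lit 5, nat_lit 5, nat_lit 20], false, nat_lit 160, nat_lit 256, nat_lit 0, nat_lit 160, ⟨nat_lit 1000, nat_lit 0, nat_lit 0, nat_lit 0, nat_lit 0, nat_lit 0, nat_lit 0, nat_lit 0, nat_lit 0, nat_lit 0, nat_lit 0, nat_lit 0, nat_lit 0, nat_lit 0, nat_lit 0, nat_lit 0, false, false⟩,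
 nat_lit 0, nat_lit 10840, nat_lit 0, nat_lit 0, nat_lit 7504, nat_lit 7802, nat_lit 1162, nat_lit 0, nat_lit 0, nat_lit 1470, nat_lit 0, nat_lit 0, nat_lit 0, nat_lit 0, nat_lit 0, nat_lit 0, nat_lit 0, nat_lit 0, [],
 ⟨p068_k7, nat_lit 0, nat_lit 0, nat_lit 436, nat_lit 0, nat_lit 664069, [nat_lit 3282000000, nat_lit 6250000000, nat_lit 9842000000], [], [nat_lit 18088956410, nat_lit 19317765610, nat_lit 17717027690, nat_lit 18878014794, nat_lit 20590859316, nat_lit 21679832244, nat_lit 20045559649, nat_lit 20985158033], nat_lit 1271250, nat_lit 1271250, nat_lit 490000, nat_lit 780000, nat_lit 1100001, nat_lit 1922000, [nat_lit 780000, nat_lit 1435000, nat_lit 1271250], [nat_lit 8, nat_lit 40, nat_lit 40, nat_lit 80, nat_lit 1, nat_lit 317, nat_lit 100, nat_lit 9]⟩, ⟨p068_k5, nat_lit 0, nat_lit 0, nat_lit 187, nat_lit 0, nat_lit 0, [nat_lit 3282000000, nat_lit 6250000000, nat_lit 9842000000], [], [nat_lit 19838903590,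 nat_lit 21950470658, nat_lit 19147986750, nat_lit 21154723052, nat_lit 14595175624, nat_lit 16778390356, nat_lit 14403894280, nat_lit 16467627672], nat_lit 0, nat_lit 0, nat_lit 0, nat_lit 0, nat_lit 0, nat_lit 0, [], [nat_lit 8, nat_lit 40, nat_lit 40, nat_lit 80, nat_lit 1, nat_lit 289, nat_lit 75, nat_lit 8]⟩,
 zbF0, [⟨nat_lit 0, nat_lit 100, nat_lit 94, nat_lit 97, nat_lit 351688238⟩, ⟨nat_lit 0, nat_lit 94, nat_lit 87, nat_lit 100, nat_lit 504256980⟩, ⟨nat_lit 4, nat_lit 100, nat_lit 84, nat_lit 67, nat_lit 566181555⟩]⟩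
noncomputable def p068_l24 : Lf2 := ⟨nat_lit 0, nat_lit 20, [nat_lit 5, nat_lit 5, nat_lit 5, nat_lit 20], false, nat_lit 160, nat_lit 240, nat_lit 0, nat_lit 160, ⟨nat_lit 1000, nat_lit 0, nat_lit 0, nat_lit 0, nat_lit 0, nat_lit 0, nat_lit 0, nat_lit 0, nat_lit 0, nat_lit 0, nat_lit 0, nat_lit 0, nat_lit 0, nat_lit 0, nat_lit 0, nat_lit 0, false, false⟩,
 nat_lit 0, nat_lit 13698, nat_lit 0, nat_lit 0, nat_lit 8716, nat_lit 6841, nat_lit 861, nat_lit 0, nat_lit 0, nat_lit 1438, nat_lit 0, nat_lit 0, nat_lit 0, nat_lit 0, nat_lit 0, nat_lit 0, nat_lit 0, nat_lit 0, [],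
 ⟨p068_k1, nat_lit 0, nat_lit 0, nat_lit 410, nat_lit 0, nat_lit 527168, [nat_lit 3282000000, nat_lit 6250000000, nat_lit 11872000000], [], [nat_lit 23547134819, nat_lit 25505814954, nat_lit 22111018595, nat_lit 23923250259, nat_lit 24630900180, nat_lit 26637905235, nat_lit 23367510496, nat_lit 24618197651], nat_lit 1271250, nat_lit 1271250, nat_lit 382400, nat_lit 780000, nat_lit 1100001, nat_lit 1785000, [nat_lit 780000, nat_lit 1435000, nat_lit 1271250], [nat_lit 23, nat_lit 40, nat_lit 40, nat_lit 80, nat_lit 12, nat_lit 401, nat_lit 175, nat_lit 10]⟩, ⟨p068_k1, nat_lit 0, nat_lit 0, nat_lit 322, nat_lit 0, nat_lit 0, [nat_lit 3282000000, nat_lit 6250000000, nat_lit 11872000000], [], [nat_lit 21760723766, nat_lit 23481283232, nat_lit 20335211602, nat_lit 21951731532, nat_lit 16572080462, nat_lit 18174707409, nat_lit 15647140820, nat_lit 17541606676], nat_lit 0, nat_lit 0, nat_lit 0, nat_lit 0, nat_lit 0, nat_lit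 0, [], [nat_lit 23, nat_lit 40, nat_lit 40, nat_lit 80, nat_lit 12, nat_lit 373, nat_lit 150, nat_lit 10]⟩,
 zbF0, [⟨nat_lit 0, nat_lit 100, nat_lit 97, nat_lit 94, nat_lit 880567859⟩]⟩
noncomputable def p068_l25 : Lf2 := ⟨nat_lit 0, nat_lit 20, [nat_lit 5, nat_lit 5, nat_lit 5, nat_lit 20], false, nat_lit 240, nat_lit 300, nat_lit 0, nat_lit 160, ⟨nat_lit 1000, nat_lit 0, nat_lit 0, nat_lit 0, nat_lit 0, nat_lit 0, nat_lit 0, nat_lit 0, nat_lit 0, nat_lit 0, nat_lit 0, nat_lit 0, nat_lit 0, nat_lit 0, nat_lit 0, nat_lit 0, false, false⟩,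
 nat_lit 0, nat_lit 14152, nat_lit 0, nat_lit 8403, nat_lit 9005, nat_lit 6578, nat_lit 1167, nat_lit 0, nat_lit 0, nat_lit 1452, nat_lit 0, nat_lit 0, nat_lit 0, nat_lit 5505873654117, nat_lit 0, nat_lit 0, nat_lit 0, nat_lit 0, [],
 ⟨p068_k1, nat_lit 0, nat_lit 0, nat_lit 327, nat_lit 0, nat_lit 325577, [nat_lit 3282000000, nat_lit 6250000000, nat_lit 11872000000], [], [nat_lit 20794296681, nat_lit 22231259503, nat_lit 18933410125, nat_lit 20209090775, nat_lit 24276530233, nat_lit 25537443798, nat_lit 22315510420, nat_lit 23516560320], nat_lit 1271250, nat_lit 1271250, nat_lit 382400, nat_lit 780000, nat_lit 1271250, nat_lit 1271250, [nat_lit 780000, nat_lit 1435000, nat_lit 1271250], [nat_lit 23, nat_lit 40, nat_lit 40, nat_lit 80, nat_lit 12, nat_lit 428, nat_lit 200, nat_lit 10]⟩, ⟨p068_k1, nat_lit 0, nat_lit 0, nat_lit 322, nat_lit 0, nat_lit 0, [nat_lit 3282000000, nat_lit 6250000000, nat_lit 11872000000], [],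 [nat_lit 21401254428, nat_lit 23082226713, nat_lit 20074210516, nat_lit 21654244456, nat_lit 16528356510, nat_lit 18397891208, nat_lit 16200487560, nat_lit 17835882772], nat_lit 0, nat_lit 0, nat_lit 0, nat_lit 0, nat_lit 0, nat_lit 0, [], [nat_lit 23, nat_lit 40, nat_lit 40, nat_lit 80, nat_lit 12, nat_lit 373, nat_lit 150, nat_lit 10]⟩,
 zbF0, [⟨nat_lit 0, nat_lit 100, nat_lit 100, nat_lit 90, nat_lit 809139915⟩, ⟨nat_lit 16, nat_lit 97, nat_lit 100, nat_lit 82, nat_lit 647378936⟩]⟩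
noncomputable def p068_l26 : Lf2 := ⟨nat_lit 0, nat_lit 20, [nat_lit 5, nat_lit 5, nat_lit 5, nat_lit 20], false, nat_lit 240, nat_lit 280, nat_lit 0, nat_lit 160, ⟨nat_lit 1000, nat_lit 0, nat_lit 0, nat_lit 0, nat_lit 0, nat_lit 0, nat_lit 0, nat_lit 0, nat_lit 0, nat_lit 0, nat_lit 0, nat_lit 0, nat_lit 0, nat_lit 0, nat_lit 0, nat_lit 0, false, false⟩,
 nat_lit 0, nat_lit 10805, nat_lit 0, nat_lit 8439, nat_lit 7480, nat_lit 6719, nat_lit 1055, nat_lit 0, nat_lit 0, nat_lit 1389, nat_lit 0, nat_lit 0, nat_lit 0, nat_lit 0, nat_lit 0, nat_lit 0, nat_lit 0, nat_lit 0, [],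
 ⟨p068_k4, nat_lit 0, nat_lit 0, nat_lit 318, nat_lit 0, nat_lit 467695, [nat_lit 3282000000, nat_lit 6250000000, nat_lit 9842000000], [], [nat_lit 19880179835, nat_lit 21325896630, nat_lit 19238462795, nat_lit 20574757270, nat_lit 22118758790, nat_lit 23659001680, nat_lit 21326421870, nat_lit 22811478880], nat_lit 1271250, nat_lit 1271250, nat_lit 490000, nat_lit 780000, nat_lit 1271250, nat_lit 1271250, [nat_lit 780000, nat_lit 1435000, nat_lit 1271250], [nat_lit 8, nat_lit 40, nat_lit 40, nat_lit 80, nat_lit 1, nat_lit 317, nat_lit 100, nat_lit 8]⟩, ⟨p068_k1, nat_lit 0, nat_lit 0, nat_lit 230, nat_lit 0, nat_lit 0, [nat_lit 3282000000, nat_lit 6250000000, nat_lit 11872000000], [], [nat_lit 21408614447, nat_lit 23088427587, nat_lit 20746363843, nat_lit 22345958713, nat_lit 16533336427, nat_lit 17957847377, nat_lit 16058495175, nat_lit 17677949484], nat_lit 0, nat_lit 0, nat_lit 0, nat_lit 0, nat_lit 0, nat_lit 0,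 [], [nat_lit 23, nat_lit 40, nat_lit 40, nat_lit 80, nat_lit 12, nat_lit 373, nat_lit 150, nat_lit 10]⟩,
 zbF0, [⟨nat_lit 0, nat_lit 100, nat_lit 94, nat_lit 97, nat_lit 799371941⟩, ⟨nat_lit 4, nat_lit 100, nat_lit 87, nat_lit 79, nat_lit 748117746⟩]⟩
noncomputable def p068_l27 : Lf2 := ⟨nat_lit 0, nat_lit 20, [nat_lit 5, nat_lit 5, nat_lit 5, nat_lit 20], false, nat_lit 160, nat_lit 300, nat_lit 0, nat_lit 160, ⟨nat_lit 1000, nat_lit 0, nat_lit 0, nat_lit 0, nat_lit 0, nat_lit 0, nat_lit 0, nat_lit 0, nat_lit 0, nat_lit 0, nat_lit 0, nat_lit 0, nat_lit 0, nat_lit 0, nat_lit 0, nat_lit 0, false, false⟩,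
 nat_lit 0, nat_lit 11826, nat_lit 0, nat_lit 0, nat_lit 7525, nat_lit 7802, nat_lit 1008, nat_lit 0, nat_lit 0, nat_lit 1583, nat_lit 0, nat_lit 0, nat_lit 0, nat_lit 6386054154862, nat_lit 0, nat_lit 0, nat_lit 0, nat_lit 0, [],
 ⟨p068_k1, nat_lit 0, nat_lit 0, nat_lit 388, nat_lit 0, nat_lit 551743, [nat_lit 3282000000, nat_lit 6250000000, nat_lit 11872000000], [], [nat_lit 22235692200, nat_lit 22568247600, nat_lit 23155747800, nat_lit 23737113650, nat_lit 25295716850, nat_lit 26085301600, nat_lit 26378007025, nat_lit 27234675075], nat_lit 1271250, nat_lit 1271250, nat_lit 780000, nat_lit 1762500, nat_lit 1271250, nat_lit 1271250, [nat_lit 780000, nat_lit 1435000, nat_lit 1271250], [nat_lit 23, nat_lit 40, nat_lit 40, nat_lit 80, nat_lit 12, nat_lit 456, nat_lit 225, nat_lit 11]⟩, ⟨p068_k1, nat_lit 0, nat_lit 0, nat_lit 212, nat_lit 0, nat_lit 0, [nat_lit 3282000000, nat_lit 6250000000, nat_lit 11872000000], [],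 [nat_lit 19407649969, nat_lit 21157489429, nat_lit 23443650184, nat_lit 25380760996, nat_lit 14403894280, nat_lit 16467627672, nat_lit 18490875360, nat_lit 20102948836], nat_lit 0, nat_lit 0, nat_lit 0, nat_lit 0, nat_lit 0, nat_lit 0, [], [nat_lit 23, nat_lit 40, nat_lit 40, nat_lit 80, nat_lit 12, nat_lit 401, nat_lit 175, nat_lit 10]⟩,
 zbF0, [⟨nat_lit 4, nat_lit 100, nat_lit 94, nat_lit 75, nat_lit 489569895⟩]⟩
noncomputable def p068_l28 : Lf2 := ⟨nat_lit 0, nat_lit 20, [nat_lit 5, nat_lit 5, nat_lit 5, nat_lit 20], false, nat_lit 160, nat_lit 280, nat_lit 0, nat_lit 160, ⟨nat_lit 1000, nat_lit 0, nat_lit 0, nat_lit 0, nat_lit 0, nat_lit 0, nat_lit 0, nat_lit 0, nat_lit 0, nat_lit 0, nat_lit 0, nat_lit 0, nat_lit 0, nat_lit 0, nat_lit 0, nat_lit 0, false, false⟩,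
 nat_lit 0, nat_lit 11075, nat_lit 0, nat_lit 0, nat_lit 7667, nat_lit 6596, nat_lit 999, nat_lit 0, nat_lit 0, nat_lit 1365, nat_lit 0, nat_lit 0, nat_lit 0, nat_lit 0, nat_lit 0, nat_lit 0, nat_lit 0, nat_lit 0, [],
 ⟨p068_k4, nat_lit 0, nat_lit 0, nat_lit 421, nat_lit 0, nat_lit 672041, [nat_lit 3282000000, nat_lit 6250000000, nat_lit 9842000000], [], [nat_lit 18391568836, nat_lit 19359192587, nat_lit 19871746539, nat_lit 20819068682, nat_lit 21660477598, nat_lit 22907261402, nat_lit 25589986630, nat_lit 25268304654], nat_lit 1271250, nat_lit 1271250, nat_lit 780000, nat_lit 1762500, nat_lit 1100001, nat_lit 2127500, [nat_lit 780000, nat_lit 1435000, nat_lit 1271250], [nat_lit 8, nat_lit 40, nat_lit 40, nat_lit 80, nat_lit 1, nat_lit 373, nat_lit 150, nat_lit 10]⟩, ⟨p068_k1, nat_lit 0, nat_lit 0, nat_lit 212, nat_lit 0, nat_lit 0, [nat_lit 3282000000, nat_lit 6250000000, nat_lit 11872000000], [], [nat_lit 20917268587,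 nat_lit 22499799667, nat_lit 23619374032, nat_lit 25363517608, nat_lit 16370010075, nat_lit 17815409856, nat_lit 19911929280, nat_lit 21371397928], nat_lit 0, nat_lit 0, nat_lit 0, nat_lit 0, nat_lit 0, nat_lit 0, [], [nat_lit 23, nat_lit 40, nat_lit 40, nat_lit 80, nat_lit 12, nat_lit 401, nat_lit 175, nat_lit 10]⟩,
 zbF0, [⟨nat_lit 0, nat_lit 94, nat_lit 87, nat_lit 100, nat_lit 311074565⟩, ⟨nat_lit 4, nat_lit 100, nat_lit 85, nat_lit 73, nat_lit 584205557⟩]⟩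
noncomputable def p068_l29 : Lf2 := ⟨nat_lit 0, nat_lit 20, [nat_lit 5, nat_lit 5, nat_lit 5, nat_lit 20], false, nat_lit 160, nat_lit 240, nat_lit 160, nat_lit 300, ⟨nat_lit 1000, nat_lit 0, nat_lit 0, nat_lit 0, nat_lit 0, nat_lit 0, nat_lit 0, nat_lit 0, nat_lit 0, nat_lit 0, nat_lit 0, nat_lit 0, nat_lit 0, nat_lit 0, nat_lit 0, nat_lit 0, false, false⟩,
 nat_lit 0, nat_lit 13744, nat_lit 0, nat_lit 0, nat_lit 8746, nat_lit 4946, nat_lit 1201, nat_lit 0, nat_lit 0, nat_lit 0, nat_lit 0, nat_lit 0, nat_lit 0, nat_lit 0, nat_lit 0, nat_lit 0, nat_lit 0, nat_lit 0, [],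
 ⟨p068_k1, nat_lit 0, nat_lit 0, nat_lit 342, nat_lit 0, nat_lit 349069, [nat_lit 3282000000, nat_lit 6250000000, nat_lit 11872000000], [], [nat_lit 19116736447, nat_lit 19681880326, nat_lit 22501576024, nat_lit 20495366068, nat_lit 20714415971, nat_lit 21254997551, nat_lit 33260219680, nat_lit 31305488680], nat_lit 1271250, nat_lit 1271250, nat_lit 382400, nat_lit 1731000, nat_lit 1100001, nat_lit 1785000, [nat_lit 780000, nat_lit 1435000, nat_lit 1271250], [nat_lit 23, nat_lit 40, nat_lit 40, nat_lit 80, nat_lit 12, nat_lit 428, nat_lit 200, nat_lit 11]⟩, ⟨p068_k1, nat_lit 0, nat_lit 0, nat_lit 65, nat_lit 0, nat_lit 0, [nat_lit 3282000000, nat_lit 6250000000, nat_lit 11872000000], [], [nat_lit 12530651650, nat_lit 13493885393, nat_lit 17071057984, nat_lit 17786998728, nat_lit 20599213489, nat_lit 21292588806, nat_lit 23029080188, nat_lit 23553826795], nat_lit 0, nat_lit 0, nat_lit 0, nat_lit 0, nat_lit 0, nat_lit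 0, [], [nat_lit 23, nat_lit 40, nat_lit 40, nat_lit 80, nat_lit 12, nat_lit 456, nat_lit 225, nat_lit 11]⟩,
 zbF0, [⟨nat_lit 0, nat_lit 100, nat_lit 100, nat_lit 90, nat_lit 141480882⟩, ⟨nat_lit 4, nat_lit 100, nat_lit 97, nat_lit 76, nat_lit 34291049⟩, ⟨nat_lit 19, nat_lit 97, nat_lit 100, nat_lit 76, nat_lit 675753763⟩]⟩
noncomputable def p068_l30 : Lf2 := ⟨nat_lit 0, nat_lit 20, [nat_lit 5, nat_lit 5, nat_lit 5, nat_lit 20], false, nat_lit 160, nat_lit 240, nat_lit 160, nat_lit 300, ⟨nat_lit 1000, nat_lit 0, nat_lit 0, nat_lit 0, nat_lit 0, nat_lit 0, nat_lit 0, nat_lit 0, nat_lit 0, nat_lit 0, nat_lit 0, nat_lit 0, nat_lit 0, nat_lit 0, nat_lit 0, nat_lit 0, false, false⟩,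
 nat_lit 0, nat_lit 9020, nat_lit 0, nat_lit 2292, nat_lit 5990, nat_lit 5068, nat_lit 945, nat_lit 0, nat_lit 0, nat_lit 0, nat_lit 0, nat_lit 0, nat_lit 0, nat_lit 0, nat_lit 0, nat_lit 0, nat_lit 0, nat_lit 0, [],
 ⟨p068_k3, nat_lit 0, nat_lit 0, nat_lit 399, nat_lit 0, nat_lit 519139, [nat_lit 3282000000, nat_lit 6250000000, nat_lit 11872000000], [], [nat_lit 29059890458, nat_lit 27495392308, nat_lit 25208940565, nat_lit 25564432915, nat_lit 25775707494, nat_lit 26213604072, nat_lit 26200147045, nat_lit 26543979980], nat_lit 1271250, nat_lit 1271250, nat_lit 435600, nat_lit 1735500, nat_lit 1100001, nat_lit 1785000, [nat_lit 780000, nat_lit 1435000, nat_lit 1271250], [nat_lit 23, nat_lit 40, nat_lit 40, nat_lit 80, nat_lit 12, nat_lit 428, nat_lit 200, nat_lit 11]⟩, ⟨p068_k1, nat_lit 0, nat_lit 0, nat_lit 66, nat_lit 0, nat_lit 0, [nat_lit 3282000000, nat_lit 6250000000, nat_lit 11872000000], [], [nat_lit 12281514343,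 nat_lit 14220592117, nat_lit 16931819872, nat_lit 18382553776, nat_lit 20386744010, nat_lit 21925664635, nat_lit 22939834504, nat_lit 24021979822], nat_lit 0, nat_lit 0, nat_lit 0, nat_lit 0, nat_lit 0, nat_lit 0, [], [nat_lit 23, nat_lit 40, nat_lit 40, nat_lit 80, nat_lit 12, nat_lit 456, nat_lit 225, nat_lit 11]⟩,
 zbF0, [⟨nat_lit 0, nat_lit 100, nat_lit 99, nat_lit 92, nat_lit 401771724⟩, ⟨nat_lit 7, nat_lit 100, nat_lit 94, nat_lit 75, nat_lit 701887611⟩]⟩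
noncomputable def p068_l31 : Lf2 := ⟨nat_lit 0, nat_lit 20, [nat_lit 5, nat_lit 5, nat_lit 5, nat_lit 20], false, nat_lit 240, nat_lit 300, nat_lit 160, nat_lit 300, ⟨nat_lit 1000, nat_lit 0, nat_lit 0, nat_lit 0, nat_lit 0, nat_lit 0, nat_lit 0, nat_lit 0, nat_lit 0, nat_lit 0, nat_lit 0, nat_lit 0, nat_lit 0, nat_lit 0, nat_lit 0, nat_lit 0, false, false⟩,
 nat_lit 0, nat_lit 14250, nat_lit 0, nat_lit 6130, nat_lit 9067, nat_lit 5012, nat_lit 1250, nat_lit 0, nat_lit 0, nat_lit 0, nat_lit 0, nat_lit 0, nat_lit 0, nat_lit 0, nat_lit 0, nat_lit 0, nat_lit 0, nat_lit 0, [],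
 ⟨p068_k1, nat_lit 0, nat_lit 0, nat_lit 334, nat_lit 0, nat_lit 349069, [nat_lit 3282000000, nat_lit 6250000000, nat_lit 11872000000], [], [nat_lit 19979090221, nat_lit 20701587469, nat_lit 20635019020, nat_lit 21192476315, nat_lit 23765554671, nat_lit 24484774652, nat_lit 24015992936, nat_lit 24819119296], nat_lit 1271250, nat_lit 1271250, nat_lit 382400, nat_lit 1731000, nat_lit 1271250, nat_lit 1271250, [nat_lit 780000, nat_lit 1435000, nat_lit 1271250], [nat_lit 23, nat_lit 40, nat_lit 40, nat_lit 80, nat_lit 12, nat_lit 456, nat_lit 225, nat_lit 11]⟩, ⟨p068_k1, nat_lit 0, nat_lit 0, nat_lit 65, nat_lit 0, nat_lit 0, [nat_lit 3282000000, nat_lit 6250000000, nat_lit 11872000000], [], [nat_lit 12457175012, nat_lit 13428054313, nat_lit 16995732448, nat_lit 17716772616, nat_lit 20573535225, nat_lit 21343027154, nat_lit 22980799736, nat_lit 23508663490], nat_lit 0, nat_lit 0, nat_lit 0, nat_lit 0, nat_lit 0, nat_lit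 0, [], [nat_lit 23, nat_lit 40, nat_lit 40, nat_lit 80, nat_lit 12, nat_lit 456, nat_lit 225, nat_lit 11]⟩,
 zbF0, [⟨nat_lit 0, nat_lit 100, nat_lit 100, nat_lit 85, nat_lit 413330368⟩, ⟨nat_lit 4, nat_lit 100, nat_lit 97, nat_lit 76, nat_lit 752294298⟩, ⟨nat_lit 7, nat_lit 100, nat_lit 97, nat_lit 76, nat_lit 681413835⟩]⟩
noncomputable def p068_l32 : Lf2 := ⟨nat_lit 0, nat_lit 20, [nat_lit 5, nat_lit 5, nat_lit 5, nat_lit 20], false, nat_lit 240, nat_lit 292, nat_lit 160, nat_lit 300, ⟨nat_lit 1000, nat_lit 0, nat_lit 0, nat_lit 0, nat_lit 0, nat_lit 0, nat_lit 0, nat_lit 0, nat_lit 0, nat_lit 0, nat_lit 0, nat_lit 0, nat_lit 0, nat_lit 0, nat_lit 0, nat_lit 0, false, false⟩,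
 nat_lit 0, nat_lit 12122, nat_lit 0, nat_lit 4615, nat_lit 8050, nat_lit 5068, nat_lit 1229, nat_lit 0, nat_lit 0, nat_lit 0, nat_lit 0, nat_lit 0, nat_lit 0, nat_lit 0, nat_lit 0, nat_lit 0, nat_lit 0, nat_lit 0, [],
 ⟨p068_k3, nat_lit 0, nat_lit 0, nat_lit 387, nat_lit 0, nat_lit 519139, [nat_lit 3282000000, nat_lit 6250000000, nat_lit 11872000000], [], [nat_lit 19894366736, nat_lit 20562709165, nat_lit 20977984750, nat_lit 21501998000, nat_lit 22838329675, nat_lit 23505323281, nat_lit 23896360548, nat_lit 24663808296], nat_lit 1271250, nat_lit 1271250, nat_lit 435600, nat_lit 1735500, nat_lit 1271250, nat_lit 1271250, [nat_lit 780000, nat_lit 1435000, nat_lit 1271250], [nat_lit 23, nat_lit 40, nat_lit 40, nat_lit 80, nat_lit 12, nat_lit 456, nat_lit 225, nat_lit 11]⟩, ⟨p068_k1, nat_lit 0, nat_lit 0, nat_lit 66, nat_lit 0, nat_lit 0, [nat_lit 3282000000, nat_lit 6250000000, nat_lit 11872000000], [], [nat_lit 12281514343,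 nat_lit 14220592117, nat_lit 16931819872, nat_lit 18382553776, nat_lit 20386744010, nat_lit 21925664635, nat_lit 22939834504, nat_lit 24021979822], nat_lit 0, nat_lit 0, nat_lit 0, nat_lit 0, nat_lit 0, nat_lit 0, [], [nat_lit 23, nat_lit 40, nat_lit 40, nat_lit 80, nat_lit 12, nat_lit 456, nat_lit 225, nat_lit 11]⟩,
 zbF0, [⟨nat_lit 0, nat_lit 100, nat_lit 99, nat_lit 92, nat_lit 376719071⟩, ⟨nat_lit 4, nat_lit 100, nat_lit 92, nat_lit 75, nat_lit 754273156⟩, ⟨nat_lit 7, nat_lit 100, nat_lit 94, nat_lit 75, nat_lit 701887611⟩]⟩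
noncomputable def p068_l33 : Lf2 := ⟨nat_lit 0, nat_lit 20, [nat_lit 5, nat_lit 5, nat_lit 5, nat_lit 20], false, nat_lit 160, nat_lit 280, nat_lit 160, nat_lit 300, ⟨nat_lit 1000, nat_lit 0, nat_lit 0, nat_lit 0, nat_lit 0, nat_lit 0, nat_lit 0, nat_lit 0, nat_lit 0, nat_lit 0, nat_lit 0, nat_lit 0, nat_lit 0, nat_lit 0, nat_lit 0, nat_lit 0, false, false⟩,
 nat_lit 0, nat_lit 9152, nat_lit 0, nat_lit 5208, nat_lit 6336, nat_lit 5125, nat_lit 1460, nat_lit 0, nat_lit 0, nat_lit 0, nat_lit 0, nat_lit 0, nat_lit 0, nat_lit 0, nat_lit 0, nat_lit 0, nat_lit 0, nat_lit 0, [],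
 ⟨p068_k2, nat_lit 0, nat_lit 0, nat_lit 437, nat_lit 0, nat_lit 672041, [nat_lit 3282000000, nat_lit 4688000000, nat_lit 9842000000], [], [nat_lit 19689230712, nat_lit 20688291784, nat_lit 24584836212, nat_lit 21639217140, nat_lit 22490378628, nat_lit 23675906308, nat_lit 23372971308, nat_lit 24704011232], nat_lit 1271250, nat_lit 1271250, nat_lit 490000, nat_lit 1740000, nat_lit 1271250, nat_lit 1271250, [nat_lit 780000, nat_lit 1100000, nat_lit 2127500], [nat_lit 42, nat_lit 40, nat_lit 40, nat_lit 80, nat_lit 13, nat_lit 373, nat_lit 150, nat_lit 10]⟩, ⟨p068_k8, nat_lit 0, nat_lit 0, nat_lit 49, nat_lit 0, nat_lit 0, [nat_lit 3282000000, nat_lit 4688000000, nat_lit 11872000000], [], [nat_lit 12098447500, nat_lit 14034814750, nat_lit 16866766000, nat_lit 18326308000, nat_lit 20192519875, nat_lit 21730534750, nat_lit 22898137750, nat_lit 24044789313], nat_lit 0, nat_lit 0, nat_lit 0, nat_lit 0, nat_lit 0, nat_lit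 0, [], [nat_lit 158, nat_lit 40, nat_lit 40, nat_lit 80, nat_lit 65, nat_lit 456, nat_lit 225, nat_lit 11]⟩,
 zbF0, [⟨nat_lit 0, nat_lit 100, nat_lit 94, nat_lit 97, nat_lit 269218928⟩, ⟨nat_lit 4, nat_lit 100, nat_lit 85, nat_lit 73, nat_lit 534265434⟩, ⟨nat_lit 7, nat_lit 100, nat_lit 94, nat_lit 75, nat_lit 701418690⟩]⟩
noncomputable def b_V_700_700_10_30 : St := ⟨true, nat_lit 1, nat_lit 0, nat_lit 1, nat_lit 80, nat_lit 280, nat_lit 320, nat_lit 280, nat_lit 300, nat_lit 64, nat_lit 240, nat_lit 40, nat_lit 80, nat_lit 0, nat_lit 300, nat_lit 0, nat_lit 300, nat_lit 40, nat_lit 80, nat_lit 0, nat_lit 0, nat_lit 0, nat_lit 0⟩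
theorem d_V_700_700_10_30 (h : EB TB.env) : Dead b_V_700_700_10_30 := chkB_sound0 h (T :=
(.spl (nat_lit 4) (nat_lit 160)
(.spl (nat_lit 5) (nat_lit 160)
(.spl (nat_lit 2) (nat_lit 120)
(.spl (nat_lit 0) (nat_lit 300)
(.leaf p068_l13)
(.trZ (nat_lit 0) (nat_lit 100) (nat_lit 94) (nat_lit 88) (nat_lit 80) (.leaf p068_l14)))
(.spl (nat_lit 0) (nat_lit 300)
(.leaf p068_l15)
(.leaf p068_l16)))
(.spl (nat_lit 2) (nat_lit 120)
(.spl (nat_lit 0) (nat_lit 300)
(.leaf p068_l17)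
(.trZ (nat_lit 0) (nat_lit 100) (nat_lit 94) (nat_lit 88) (nat_lit 80) (.leaf p068_l18)))
(.spl (nat_lit 0) (nat_lit 300)
(.leaf p068_l19)
(.leaf p068_l20))))
(.spl (nat_lit 5) (nat_lit 160)
(.spl (nat_lit 2) (nat_lit 120)
(.spl (nat_lit 3) (nat_lit 60)
(.trX (nat_lit 16) (nat_lit 99) (nat_lit 100) (nat_lit 77) (nat_lit 276) (.spl (nat_lit 0) (nat_lit 300)
(.spl (nat_lit 0) (nat_lit 290)
(.ord (.leaf p068_l21))
(.trZ (nat_lit 0) (nat_lit 100) (nat_lit 97) (nat_lit 84) (nat_lit 72) (.trX (nat_lit 16) (nat_lit 94) (nat_lit 100) (nat_lit 75) (nat_lit 268) (.leaf p068_l22))))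
(.trZ (nat_lit 0) (nat_lit 100) (nat_lit 94) (nat_lit 88) (nat_lit 80) (.trX (nat_lit 16) (nat_lit 90) (nat_lit 100) (nat_lit 74) (nat_lit 256) (.leaf p068_l23)))))
(.spl (nat_lit 4) (nat_lit 240)
(.leaf p068_l24)
(.spl (nat_lit 0) (nat_lit 300)
(.leaf p068_l25)
(.trZ (nat_lit 0) (nat_lit 100) (nat_lit 94) (nat_lit 88) (nat_lit 80) (.trX (nat_lit 16) (nat_lit 94) (nat_lit 100) (nat_lit 87) (nat_lit 280) (.leaf p068_l26))))))
(.spl (nat_lit 0) (nat_lit 300)
(.leaf p068_l27)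
(.trX (nat_lit 16) (nat_lit 94) (nat_lit 100) (nat_lit 87) (nat_lit 280) (.leaf p068_l28))))
(.spl (nat_lit 0) (nat_lit 300)
(.spl (nat_lit 4) (nat_lit 240)
(.spl (nat_lit 0) (nat_lit 290)
(.ord (.leaf p068_l29))
(.trZ (nat_lit 0) (nat_lit 100) (nat_lit 97) (nat_lit 84) (nat_lit 72) (.leaf p068_l30)))
(.spl (nat_lit 0) (nat_lit 290)
(.ord (.leaf p068_l31))
(.trZ (nat_lit 0) (nat_lit 100) (nat_lit 97) (nat_lit 84) (nat_lit 72) (.trX (nat_lit 16) (nat_lit 100) (nat_lit 100) (nat_lit 89) (nat_lit 292) (.leaf p068_l32)))))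
(.trZ (nat_lit 0) (nat_lit 100) (nat_lit 94) (nat_lit 88) (nat_lit 80) (.trX (nat_lit 16) (nat_lit 94) (nat_lit 100) (nat_lit 87) (nat_lit 280) (.leaf p068_l33))))))) (by decide +kernel)
noncomputable def p068_l34 : Lf2 := ⟨nat_lit 0, nat_lit 20, [nat_lit 5, nat_lit 5, nat_lit 5, nat_lit 20], false, nat_lit 0, nat_lit 160, nat_lit 0, nat_lit 160, ⟨nat_lit 1000, nat_lit 0, nat_lit 0, nat_lit 0, nat_lit 0, nat_lit 0, nat_lit 0, nat_lit 0, nat_lit 0, nat_lit 0, nat_lit 0, nat_lit 0, nat_lit 0, nat_lit 0, nat_lit 0, nat_lit 0, false, false⟩,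
 nat_lit 0, nat_lit 11033, nat_lit 0, nat_lit 0, nat_lit 7638, nat_lit 6616, nat_lit 1348, nat_lit 0, nat_lit 0, nat_lit 1144, nat_lit 0, nat_lit 0, nat_lit 0, nat_lit 3211285941800, nat_lit 0, nat_lit 0, nat_lit 0, nat_lit 0, [],
 ⟨p068_k4, nat_lit 0, nat_lit 0, nat_lit 622, nat_lit 0, nat_lit 862286, [nat_lit 3282000000, nat_lit 6250000000, nat_lit 9842000000], [], [nat_lit 23005353184, nat_lit 23083737796, nat_lit 24366941516, nat_lit 26830974240, nat_lit 17710424606, nat_lit 18395007076, nat_lit 28869714344, nat_lit 25498713596], nat_lit 1271250, nat_lit 1271250, nat_lit 631250, nat_lit 1751250, nat_lit 0, nat_lit 1100001, [nat_lit 780000, nat_lit 1435000, nat_lit 1271250], [nat_lit 8, nat_lit 40, nat_lit 40, nat_lit 80, nat_lit 1, nat_lit 317, nat_lit 100, nat_lit 9]⟩, ⟨p068_k4, nat_lit 0, nat_lit 0, nat_lit 191, nat_lit 0, nat_lit 0, [nat_lit 3282000000, nat_lit 6250000000, nat_lit 9842000000], [], [nat_lit 21309323320,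 nat_lit 23162801280, nat_lit 23899567904, nat_lit 25324520048, nat_lit 16942038264, nat_lit 18500643664, nat_lit 19258931040, nat_lit 20635186696], nat_lit 0, nat_lit 0, nat_lit 0, nat_lit 0, nat_lit 0, nat_lit 0, [], [nat_lit 8, nat_lit 40, nat_lit 40, nat_lit 80, nat_lit 1, nat_lit 317, nat_lit 100, nat_lit 9]⟩,
 zbF0, [⟨nat_lit 0, nat_lit 83, nat_lit 83, nat_lit 100, nat_lit 239673575⟩]⟩
noncomputable def p068_l35 : Lf2 := ⟨nat_lit 0, nat_lit 20, [nat_lit 5, nat_lit 5, nat_lit 5, nat_lit 20], false, nat_lit 160, nat_lit 280, nat_lit 0, nat_lit 160, ⟨nat_lit 1000, nat_lit 0, nat_lit 0, nat_lit 0, nat_lit 0, nat_lit 0, nat_lit 0, nat_lit 0, nat_lit 0, nat_lit 0, nat_lit 0, nat_lit 0, nat_lit 0, nat_lit 0, nat_lit 0, nat_lit 0, false, false⟩,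
 nat_lit 0, nat_lit 10347, nat_lit 0, nat_lit 0, nat_lit 7163, nat_lit 6502, nat_lit 1021, nat_lit 0, nat_lit 0, nat_lit 1288, nat_lit 0, nat_lit 0, nat_lit 0, nat_lit 4055781804683, nat_lit 0, nat_lit 0, nat_lit 0, nat_lit 0, [],
 ⟨p068_k4, nat_lit 0, nat_lit 0, nat_lit 502, nat_lit 0, nat_lit 862286, [nat_lit 3282000000, nat_lit 6250000000, nat_lit 9842000000], [], [nat_lit 22471560884, nat_lit 22399376608, nat_lit 22290302056, nat_lit 22968670324, nat_lit 23812596773, nat_lit 24486132411, nat_lit 25813547320, nat_lit 25054627806], nat_lit 1271250, nat_lit 1271250, nat_lit 631250, nat_lit 1751250, nat_lit 1100001, nat_lit 2127500, [nat_lit 780000, nat_lit 1435000, nat_lit 1271250], [nat_lit 8, nat_lit 40, nat_lit 40, nat_lit 80, nat_lit 1, nat_lit 373, nat_lit 150, nat_lit 10]⟩, ⟨p068_k4, nat_lit 0, nat_lit 0, nat_lit 191, nat_lit 0, nat_lit 0, [nat_lit 3282000000, nat_lit 6250000000, nat_lit 9842000000], [], [nat_lit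 20110113040, nat_lit 21943947660, nat_lit 22938441964, nat_lit 25153692960, nat_lit 15871059858, nat_lit 17413958908, nat_lit 19019040436, nat_lit 20466614512], nat_lit 0, nat_lit 0, nat_lit 0, nat_lit 0, nat_lit 0, nat_lit 0, [], [nat_lit 8, nat_lit 40, nat_lit 40, nat_lit 80, nat_lit 1, nat_lit 317, nat_lit 100, nat_lit 9]⟩,
 zbF0, [⟨nat_lit 0, nat_lit 83, nat_lit 83, nat_lit 100, nat_lit 530719826⟩, ⟨nat_lit 4, nat_lit 100, nat_lit 85, nat_lit 73, nat_lit 486237907⟩]⟩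
noncomputable def p068_l36 : Lf2 := ⟨nat_lit 0, nat_lit 20, [nat_lit 5, nat_lit 5, nat_lit 5, nat_lit 20], false, nat_lit 0, nat_lit 280, nat_lit 160, nat_lit 280, ⟨nat_lit 1000, nat_lit 0, nat_lit 0, nat_lit 0, nat_lit 0, nat_lit 0, nat_lit 0, nat_lit 0, nat_lit 0, nat_lit 0, nat_lit 0, nat_lit 0, nat_lit 0, nat_lit 0, nat_lit 0, nat_lit 0, false, false⟩,
 nat_lit 0, nat_lit 9227, nat_lit 0, nat_lit 0, nat_lit 6387, nat_lit 5575, nat_lit 1282, nat_lit 0, nat_lit 0, nat_lit 0, nat_lit 0, nat_lit 0, nat_lit 0, nat_lit 15664336170456, nat_lit 0, nat_lit 0, nat_lit 0, nat_lit 0, [],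
 ⟨p068_k4, nat_lit 0, nat_lit 0, nat_lit 520, nat_lit 0, nat_lit 673969, [nat_lit 3282000000, nat_lit 6250000000, nat_lit 9842000000], [], [nat_lit 36851158530, nat_lit 35149540377, nat_lit 26612495462, nat_lit 26961081131, nat_lit 25030756048, nat_lit 25316306863, nat_lit 31820844647, nat_lit 30428762869], nat_lit 1271250, nat_lit 1271250, nat_lit 631250, nat_lit 1751250, nat_lit 0, nat_lit 1977500, [nat_lit 780000, nat_lit 1435000, nat_lit 1271250], [nat_lit 8, nat_lit 40, nat_lit 40, nat_lit 80, nat_lit 1, nat_lit 373, nat_lit 150, nat_lit 11]⟩, ⟨p068_k4, nat_lit 0, nat_lit 0, nat_lit 47, nat_lit 0, nat_lit 0, [nat_lit 3282000000, nat_lit 6250000000, nat_lit 9842000000], [], [nat_lit 13654609175, nat_lit 14647241738, nat_lit 17903124100, nat_lit 18757004800, nat_lit 20371623063, nat_lit 21207632444, nat_lit 23082906875, nat_lit 23732141513], nat_lit 0, nat_lit 0, nat_lit 0, nat_lit 0, nat_lit 0, nat_lit 0, [], [nat_lit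 8, nat_lit 40, nat_lit 40, nat_lit 80, nat_lit 1, nat_lit 373, nat_lit 150, nat_lit 10]⟩,
 zbF0, [⟨nat_lit 0, nat_lit 91, nat_lit 91, nat_lit 100, nat_lit 215035736⟩, ⟨nat_lit 7, nat_lit 100, nat_lit 88, nat_lit 74, nat_lit 749630877⟩]⟩
noncomputable def p068_l37 : Lf2 := ⟨nat_lit 0, nat_lit 20, [nat_lit 5, nat_lit 5, nat_lit 5, nat_lit 20], false, nat_lit 0, nat_lit 268, nat_lit 160, nat_lit 280, ⟨nat_lit 1000, nat_lit 0, nat_lit 0, nat_lit 0, nat_lit 0, nat_lit 0, nat_lit 0, nat_lit 0, nat_lit 0, nat_lit 0, nat_lit 0, nat_lit 0, nat_lit 0, nat_lit 0, nat_lit 0, nat_lit 0, false, false⟩,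
 nat_lit 0, nat_lit 8282, nat_lit 0, nat_lit 0, nat_lit 5970, nat_lit 5494, nat_lit 1157, nat_lit 0, nat_lit 0, nat_lit 0, nat_lit 0, nat_lit 0, nat_lit 0, nat_lit 9890754915180, nat_lit 0, nat_lit 0, nat_lit 0, nat_lit 0, [],
 ⟨p068_k9, nat_lit 0, nat_lit 0, nat_lit 601, nat_lit 0, nat_lit 814456, [nat_lit 3282000000, nat_lit 6250000000, nat_lit 9842000000], [], [nat_lit 32509167501, nat_lit 30923541471, nat_lit 25861734195, nat_lit 26206458505, nat_lit 24357586847, nat_lit 24647736744, nat_lit 30613516816, nat_lit 29307455438], nat_lit 1271250, nat_lit 1271250, nat_lit 689850, nat_lit 1755750, nat_lit 0, nat_lit 1892750, [nat_lit 780000, nat_lit 1435000, nat_lit 1271250], [nat_lit 8, nat_lit 40, nat_lit 40, nat_lit 80, nat_lit 1, nat_lit 373, nat_lit 150, nat_lit 11]⟩, ⟨p068_k4, nat_lit 0, nat_lit 0, nat_lit 50, nat_lit 0, nat_lit 0, [nat_lit 3282000000, nat_lit 6250000000, nat_lit 9842000000], [], [nat_lit 13770792186,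 nat_lit 15717190188, nat_lit 17962190608, nat_lit 19596906520, nat_lit 20271646102, nat_lit 21913480366, nat_lit 23058240350, nat_lit 24347035228], nat_lit 0, nat_lit 0, nat_lit 0, nat_lit 0, nat_lit 0, nat_lit 0, [], [nat_lit 8, nat_lit 40, nat_lit 40, nat_lit 80, nat_lit 1, nat_lit 373, nat_lit 150, nat_lit 10]⟩,
 zbF0, [⟨nat_lit 0, nat_lit 83, nat_lit 83, nat_lit 100, nat_lit 245332563⟩, ⟨nat_lit 4, nat_lit 100, nat_lit 83, nat_lit 73, nat_lit 80362581⟩, ⟨nat_lit 7, nat_lit 100, nat_lit 85, nat_lit 73, nat_lit 762207966⟩]⟩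
noncomputable def b_V_700_700_10_31 : St := ⟨true, nat_lit 1, nat_lit 0, nat_lit 1, nat_lit 80, nat_lit 280, nat_lit 320, nat_lit 300, nat_lit 320, nat_lit 64, nat_lit 240, nat_lit 40, nat_lit 80, nat_lit 0, nat_lit 300, nat_lit 0, nat_lit 300, nat_lit 40, nat_lit 80, nat_lit 0, nat_lit 0, nat_lit 0, nat_lit 0⟩
theorem d_V_700_700_10_31 (h : EB TB.env) : Dead b_V_700_700_10_31 := chkB_sound0 h (T :=
(.ord (.trZ (nat_lit 0) (nat_lit 100) (nat_lit 100) (nat_lit 100) (nat_lit 100) (.trX (nat_lit 16) (nat_lit 94) (nat_lit 100) (nat_lit 87) (nat_lit 280) (.trX (nat_lit 19) (nat_lit 94) (nat_lit 100) (nat_lit 87) (nat_lit 280) (.spl (nat_lit 5) (nat_lit 160)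
(.spl (nat_lit 4) (nat_lit 160)
(.leaf p068_l34)
(.leaf p068_l35))
(.spl (nat_lit 0) (nat_lit 310)
(.ord (.leaf p068_l36))
(.trZ (nat_lit 0) (nat_lit 97) (nat_lit 93) (nat_lit 100) (nat_lit 108) (.trX (nat_lit 16) (nat_lit 89) (nat_lit 100) (nat_lit 85) (nat_lit 268) (.leaf p068_l37)))))))))) (by decide +kernel)
noncomputable def p068_l38 : Lf2 := ⟨nat_lit 0, nat_lit 15, [nat_lit 30, nat_lit 5, nat_lit 5, nat_lit 20], false, nat_lit 0, nat_lit 276, nat_lit 0, nat_lit 276, ⟨nat_lit 1000, nat_lit 0, nat_lit 0, nat_lit 0, nat_lit 0, nat_lit 0, nat_lit 0, nat_lit 0, nat_lit 0, nat_lit 0, nat_lit 0, nat_lit 0, nat_lit 0, nat_lit 0, nat_lit 0, nat_lit 0, false, false⟩,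
 nat_lit 0, nat_lit 10598, nat_lit 0, nat_lit 0, nat_lit 6744, nat_lit 9594, nat_lit 1114, nat_lit 0, nat_lit 0, nat_lit 0, nat_lit 0, nat_lit 0, nat_lit 0, nat_lit 0, nat_lit 0, nat_lit 0, nat_lit 0, nat_lit 0, [],
 ⟨p068_k0, nat_lit 0, nat_lit 0, nat_lit 445, nat_lit 0, nat_lit 548591, [nat_lit 3282000000, nat_lit 4688000000, nat_lit 9842000000], [], [nat_lit 29473651444, nat_lit 30246161860, nat_lit 37665370304, nat_lit 38903682384, nat_lit 26943797528, nat_lit 27431320507, nat_lit 32670481476, nat_lit 33503471333], nat_lit 1271250, nat_lit 1271250, nat_lit 1271250, nat_lit 1271250, nat_lit 0, nat_lit 1949250, [nat_lit 780000, nat_lit 1100000, nat_lit 2127500], [nat_lit 42, nat_lit 40, nat_lit 40, nat_lit 80, nat_lit 13, nat_lit 401, nat_lit 175, nat_lit 11]⟩, ⟨p068_k0, nat_lit 0, nat_lit 0, nat_lit 207, nat_lit 0, nat_lit 0, [nat_lit 3282000000, nat_lit 4688000000, nat_lit 9842000000], [], [nat_lit 32089572840,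 nat_lit 33871092836, nat_lit 45432239552, nat_lit 46619162484, nat_lit 28001819057, nat_lit 29103190529, nat_lit 36401003510, nat_lit 36973194324], nat_lit 0, nat_lit 0, nat_lit 0, nat_lit 0, nat_lit 0, nat_lit 0, [], [nat_lit 42, nat_lit 40, nat_lit 40, nat_lit 80, nat_lit 13, nat_lit 401, nat_lit 175, nat_lit 11]⟩,
 zbF0, [⟨nat_lit 4, nat_lit 100, nat_lit 92, nat_lit 68, nat_lit 122973727⟩]⟩
noncomputable def p068_l39 : Lf2 := ⟨nat_lit 0, nat_lit 20, [nat_lit 5, nat_lit 5, nat_lit 5, nat_lit 20], false, nat_lit 0, nat_lit 300, nat_lit 0, nat_lit 300, ⟨nat_lit 1000, nat_lit 0, nat_lit 0, nat_lit 0, nat_lit 0, nat_lit 0, nat_lit 0, nat_lit 0, nat_lit 0, nat_lit 0, nat_lit 0, nat_lit 0, nat_lit 0, nat_lit 0, nat_lit 0, nat_lit 0, false, false⟩,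
 nat_lit 0, nat_lit 11188, nat_lit 0, nat_lit 0, nat_lit 7119, nat_lit 7953, nat_lit 814, nat_lit 0, nat_lit 0, nat_lit 918, nat_lit 0, nat_lit 0, nat_lit 0, nat_lit 0, nat_lit 0, nat_lit 0, nat_lit 0, nat_lit 0, [],
 ⟨p068_k1, nat_lit 0, nat_lit 0, nat_lit 387, nat_lit 0, nat_lit 325577, [nat_lit 3282000000, nat_lit 6250000000, nat_lit 11872000000], [], [nat_lit 32057391202, nat_lit 32844492936, nat_lit 38770652850, nat_lit 39918877134, nat_lit 29625980267, nat_lit 30081570843, nat_lit 34388114679, nat_lit 34750059752], nat_lit 1271250, nat_lit 1271250, nat_lit 1271250, nat_lit 1271250, nat_lit 0, nat_lit 2118750, [nat_lit 780000, nat_lit 1435000, nat_lit 1271250], [nat_lit 23, nat_lit 40, nat_lit 40, nat_lit 80, nat_lit 12, nat_lit 483, nat_lit 250, nat_lit 12]⟩, ⟨p068_k1, nat_lit 0, nat_lit 0, nat_lit 240, nat_lit 0, nat_lit 0, [nat_lit 3282000000, nat_lit 6250000000, nat_lit 11872000000], [], [nat_lit 28535127334,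 nat_lit 29613659274, nat_lit 40828859048, nat_lit 42176670258, nat_lit 25647764096, nat_lit 26413087559, nat_lit 34873588267, nat_lit 35692541511], nat_lit 0, nat_lit 0, nat_lit 0, nat_lit 0, nat_lit 0, nat_lit 0, [], [nat_lit 23, nat_lit 40, nat_lit 40, nat_lit 80, nat_lit 12, nat_lit 483, nat_lit 250, nat_lit 12]⟩,
 zbF0, [⟨nat_lit 4, nat_lit 100, nat_lit 97, nat_lit 82, nat_lit 118721665⟩, ⟨nat_lit 19, nat_lit 97, nat_lit 100, nat_lit 82, nat_lit 91217156⟩]⟩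
noncomputable def p068_l40 : Lf2 := ⟨nat_lit 0, nat_lit 20, [nat_lit 5, nat_lit 5, nat_lit 5, nat_lit 20], false, nat_lit 0, nat_lit 280, nat_lit 0, nat_lit 160, ⟨nat_lit 1000, nat_lit 0, nat_lit 0, nat_lit 0, nat_lit 0, nat_lit 0, nat_lit 0, nat_lit 0, nat_lit 0, nat_lit 0, nat_lit 0, nat_lit 0, nat_lit 0, nat_lit 0, nat_lit 0, nat_lit 0, false, false⟩,
 nat_lit 0, nat_lit 8966, nat_lit 0, nat_lit 0, nat_lit 6207, nat_lit 6839, nat_lit 825, nat_lit 0, nat_lit 0, nat_lit 1032, nat_lit 0, nat_lit 0, nat_lit 0, nat_lit 35627027344717, nat_lit 0, nat_lit 0, nat_lit 0, nat_lit 0, [],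
 ⟨p068_k4, nat_lit 0, nat_lit 0, nat_lit 487, nat_lit 0, nat_lit 673969, [nat_lit 3282000000, nat_lit 6250000000, nat_lit 9842000000], [], [nat_lit 30878192323, nat_lit 31165326637, nat_lit 37449923502, nat_lit 38044761497, nat_lit 29519016257, nat_lit 29737144032, nat_lit 33045769807, nat_lit 33445553138], nat_lit 1271250, nat_lit 1271250, nat_lit 1271250, nat_lit 1271250, nat_lit 0, nat_lit 1977500, [nat_lit 780000, nat_lit 1435000, nat_lit 1271250], [nat_lit 8, nat_lit 40, nat_lit 40, nat_lit 80, nat_lit 1, nat_lit 401, nat_lit 175, nat_lit 11]⟩, ⟨p068_k1, nat_lit 0, nat_lit 0, nat_lit 241, nat_lit 0, nat_lit 0, [nat_lit 3282000000, nat_lit 6250000000, nat_lit 11872000000], [], [nat_lit 28349897692, nat_lit 29850758197, nat_lit 37913948824, nat_lit 39784323169, nat_lit 23905632364, nat_lit 25163469439, nat_lit 32121800392, nat_lit 33150120184], nat_lit 0, nat_lit 0, nat_lit 0, nat_lit 0, nat_lit 0, nat_lit 0, [],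 [nat_lit 23, nat_lit 40, nat_lit 40, nat_lit 80, nat_lit 12, nat_lit 456, nat_lit 225, nat_lit 11]⟩,
 zbF0, [⟨nat_lit 16, nat_lit 88, nat_lit 100, nat_lit 74, nat_lit 143748210⟩]⟩
noncomputable def p068_l41 : Lf2 := ⟨nat_lit 0, nat_lit 20, [nat_lit 5, nat_lit 5, nat_lit 5, nat_lit 20], false, nat_lit 0, nat_lit 268, nat_lit 0, nat_lit 160, ⟨nat_lit 1000, nat_lit 0, nat_lit 0, nat_lit 0, nat_lit 0, nat_lit 0, nat_lit 0, nat_lit 0, nat_lit 0, nat_lit 0, nat_lit 0, nat_lit 0, nat_lit 0, nat_lit 0, nat_lit 0, nat_lit 0, false, false⟩,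
 nat_lit 0, nat_lit 8207, nat_lit 0, nat_lit 0, nat_lit 5916, nat_lit 6764, nat_lit 745, nat_lit 0, nat_lit 0, nat_lit 958, nat_lit 0, nat_lit 0, nat_lit 0, nat_lit 0, nat_lit 0, nat_lit 0, nat_lit 0, nat_lit 0, [],
 ⟨p068_k9, nat_lit 0, nat_lit 0, nat_lit 562, nat_lit 0, nat_lit 814456, [nat_lit 3282000000, nat_lit 6250000000, nat_lit 9842000000], [], [nat_lit 30294735259, nat_lit 30582717575, nat_lit 37243792436, nat_lit 37825452496, nat_lit 28681955758, nat_lit 28871074295, nat_lit 32733346712, nat_lit 33140197962], nat_lit 1271250, nat_lit 1271250, nat_lit 1271250, nat_lit 1271250, nat_lit 0, nat_lit 1892750, [nat_lit 780000, nat_lit 1435000, nat_lit 1271250], [nat_lit 8, nat_lit 40, nat_lit 40, nat_lit 80, nat_lit 1, nat_lit 401, nat_lit 175, nat_lit 11]⟩, ⟨p068_k1, nat_lit 0, nat_lit 0, nat_lit 242, nat_lit 0, nat_lit 0, [nat_lit 3282000000, nat_lit 6250000000, nat_lit 11872000000], [], [nat_lit 29120741842,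 nat_lit 31111759682, nat_lit 37717702624, nat_lit 40197949584, nat_lit 24754352914, nat_lit 26423976514, nat_lit 32231665792, nat_lit 33598086048], nat_lit 0, nat_lit 0, nat_lit 0, nat_lit 0, nat_lit 0, nat_lit 0, [], [nat_lit 23, nat_lit 40, nat_lit 40, nat_lit 80, nat_lit 12, nat_lit 456, nat_lit 225, nat_lit 11]⟩,
 zbF0, [⟨nat_lit 16, nat_lit 83, nat_lit 100, nat_lit 73, nat_lit 140917100⟩]⟩
noncomputable def p068_l42 : Lf2 := ⟨nat_lit 0, nat_lit 20, [nat_lit 5, nat_lit 5, nat_lit 5, nat_lit 20], false, nat_lit 0, nat_lit 280, nat_lit 160, nat_lit 300, ⟨nat_lit 1000, nat_lit 0, nat_lit 0, nat_lit 0, nat_lit 0, nat_lit 0, nat_lit 0, nat_lit 0, nat_lit 0, nat_lit 0, nat_lit 0, nat_lit 0, nat_lit 0, nat_lit 0, nat_lit 0, nat_lit 0, false, false⟩,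
 nat_lit 0, nat_lit 7648, nat_lit 0, nat_lit 0, nat_lit 5294, nat_lit 6882, nat_lit 1362, nat_lit 0, nat_lit 0, nat_lit 0, nat_lit 0, nat_lit 0, nat_lit 0, nat_lit 0, nat_lit 0, nat_lit 0, nat_lit 0, nat_lit 0, [],
 ⟨p068_k4, nat_lit 0, nat_lit 0, nat_lit 580, nat_lit 0, nat_lit 862286, [nat_lit 3282000000, nat_lit 6250000000, nat_lit 9842000000], [], [nat_lit 31403973844, nat_lit 31985851992, nat_lit 35710388928, nat_lit 36086759768, nat_lit 30899328880, nat_lit 31279347780, nat_lit 34335021434, nat_lit 34659542770], nat_lit 1271250, nat_lit 1271250, nat_lit 1271250, nat_lit 1271250, nat_lit 0, nat_lit 1977500, [nat_lit 780000, nat_lit 1435000, nat_lit 1271250], [nat_lit 8, nat_lit 40, nat_lit 40, nat_lit 80, nat_lit 1, nat_lit 401, nat_lit 175, nat_lit 11]⟩, ⟨p068_k1, nat_lit 0, nat_lit 0, nat_lit 90, nat_lit 0, nat_lit 0, [nat_lit 3282000000, nat_lit 6250000000, nat_lit 11872000000], [], [nat_lit 19574929760, nat_lit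 22566246792, nat_lit 30795560448, nat_lit 32550953456, nat_lit 25291102388, nat_lit 27426686078, nat_lit 33701122798, nat_lit 35258191276], nat_lit 0, nat_lit 0, nat_lit 0, nat_lit 0, nat_lit 0, nat_lit 0, [], [nat_lit 23, nat_lit 40, nat_lit 40, nat_lit 80, nat_lit 12, nat_lit 538, nat_lit 300, nat_lit 13]⟩,
 zbF0, [⟨nat_lit 16, nat_lit 85, nat_lit 100, nat_lit 73, nat_lit 242113335⟩, ⟨nat_lit 7, nat_lit 100, nat_lit 90, nat_lit 74, nat_lit 590418074⟩]⟩
noncomputable def b_V_700_700_10_32 : St := ⟨true, nat_lit 1, nat_lit 0, nat_lit 1, nat_lit 80, nat_lit 280, nat_lit 320, nat_lit 280, nat_lit 320, nat_lit 240, nat_lit 400, nat_lit 40, nat_lit 80, nat_lit 0, nat_lit 300, nat_lit 0, nat_lit 300, nat_lit 40, nat_lit 80, nat_lit 0, nat_lit 0, nat_lit 0, nat_lit 0⟩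
theorem d_V_700_700_10_32 (h : EB TB.env) : Dead b_V_700_700_10_32 := chkB_sound0 h (T :=
(.spl (nat_lit 0) (nat_lit 300)
(.ord (.spl (nat_lit 3) (nat_lit 60)
(.trX (nat_lit 16) (nat_lit 99) (nat_lit 100) (nat_lit 77) (nat_lit 276) (.trX (nat_lit 19) (nat_lit 99) (nat_lit 100) (nat_lit 77) (nat_lit 276) (.leaf p068_l38)))
(.leaf p068_l39)))
(.trX (nat_lit 16) (nat_lit 94) (nat_lit 100) (nat_lit 87) (nat_lit 280) (.spl (nat_lit 5) (nat_lit 160)
(.spl (nat_lit 0) (nat_lit 310)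
(.ord (.leaf p068_l40))
(.trX (nat_lit 16) (nat_lit 89) (nat_lit 100) (nat_lit 85) (nat_lit 268) (.leaf p068_l41)))
(.leaf p068_l42))))) (by decide +kernel)
noncomputable def p068_l43 : Lf2 := ⟨nat_lit 0, nat_lit 15, [nat_lit 30, nat_lit 5, nat_lit 5, nat_lit 20], false, nat_lit 0, nat_lit 160, nat_lit 0, nat_lit 160, ⟨nat_lit 1000, nat_lit 0, nat_lit 0, nat_lit 0, nat_lit 0, nat_lit 0, nat_lit 0, nat_lit 0, nat_lit 0, nat_lit 0, nat_lit 0, nat_lit 0, nat_lit 0, nat_lit 0, nat_lit 0, nat_lit 0, false, false⟩,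
 nat_lit 15361, nat_lit 0, nat_lit 0, nat_lit 0, nat_lit 9775, nat_lit 9775, nat_lit 1041, nat_lit 0, nat_lit 0, nat_lit 1041, nat_lit 0, nat_lit 0, nat_lit 0, nat_lit 0, nat_lit 0, nat_lit 0, nat_lit 0, nat_lit 0, [],
 ⟨p068_k5, nat_lit 0, nat_lit 0, nat_lit 362, nat_lit 0, nat_lit 303319, [nat_lit 3282000000, nat_lit 6250000000, nat_lit 9842000000], [], [nat_lit 25335074691, nat_lit 26875674035, nat_lit 22919279250, nat_lit 24515572575, nat_lit 17864826791, nat_lit 19137242021, nat_lit 24529619200, nat_lit 20045122900], nat_lit 1271250, nat_lit 1271250, nat_lit 382400, nat_lit 1100001, nat_lit 0, nat_lit 1100001, [nat_lit 780000, nat_lit 1435000, nat_lit 1271250], [nat_lit 8, nat_lit 40, nat_lit 40, nat_lit 80, nat_lit 1, nat_lit 317, nat_lit 100, nat_lit 9]⟩, ⟨p068_k5, nat_lit 0, nat_lit 0, nat_lit 362, nat_lit 0, nat_lit 303319, [nat_lit 3282000000, nat_lit 6250000000, nat_lit 9842000000], [], [nat_lit 25335074691,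 nat_lit 26875674035, nat_lit 22919279250, nat_lit 24515572575, nat_lit 17864826791, nat_lit 19137242021, nat_lit 24529619200, nat_lit 20045122900], nat_lit 1271250, nat_lit 1271250, nat_lit 382400, nat_lit 1100001, nat_lit 0, nat_lit 1100001, [nat_lit 780000, nat_lit 1435000, nat_lit 1271250], [nat_lit 8, nat_lit 40, nat_lit 40, nat_lit 80, nat_lit 1, nat_lit 317, nat_lit 100, nat_lit 9]⟩,
 zbF0, [⟨nat_lit 0, nat_lit 100, nat_lit 100, nat_lit 90, nat_lit 374005718⟩]⟩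
noncomputable def p068_l44 : Lf2 := ⟨nat_lit 0, nat_lit 15, [nat_lit 30, nat_lit 5, nat_lit 5, nat_lit 20], false, nat_lit 0, nat_lit 160, nat_lit 0, nat_lit 160, ⟨nat_lit 1000, nat_lit 0, nat_lit 0, nat_lit 0, nat_lit 0, nat_lit 0, nat_lit 0, nat_lit 0, nat_lit 0, nat_lit 0, nat_lit 0, nat_lit 0, nat_lit 0, nat_lit 0, nat_lit 0, nat_lit 0, false, false⟩,
 nat_lit 15071, nat_lit 0, nat_lit 0, nat_lit 0, nat_lit 8059, nat_lit 9590, nat_lit 1163, nat_lit 0, nat_lit 0, nat_lit 949, nat_lit 0, nat_lit 0, nat_lit 0, nat_lit 0, nat_lit 0, nat_lit 0, nat_lit 0, nat_lit 0, [],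
 ⟨p068_k7, nat_lit 0, nat_lit 0, nat_lit 455, nat_lit 0, nat_lit 463314, [nat_lit 3282000000, nat_lit 6250000000, nat_lit 9842000000], [], [nat_lit 22193061136, nat_lit 24350357242, nat_lit 21507266992, nat_lit 23420564434, nat_lit 16590457985, nat_lit 17899802022, nat_lit 19533549334, nat_lit 17368442323], nat_lit 1271250, nat_lit 1271250, nat_lit 490000, nat_lit 1100001, nat_lit 0, nat_lit 1100001, [nat_lit 780000, nat_lit 1435000, nat_lit 1271250], [nat_lit 8, nat_lit 40, nat_lit 40, nat_lit 80, nat_lit 1, nat_lit 317, nat_lit 100, nat_lit 9]⟩, ⟨p068_k5, nat_lit 0, nat_lit 0, nat_lit 473, nat_lit 0, nat_lit 514194, [nat_lit 3282000000, nat_lit 6250000000, nat_lit 9842000000], [], [nat_lit 27297920720, nat_lit 28658853770, nat_lit 24250942050, nat_lit 27211410465, nat_lit 18674530130, nat_lit 20993774210, nat_lit 24866828320, nat_lit 19640306480], nat_lit 1271250, nat_lit 1271250, nat_lit 490000, nat_lit 1100001,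 nat_lit 0, nat_lit 1100001, [nat_lit 780000, nat_lit 1435000, nat_lit 1271250], [nat_lit 8, nat_lit 40, nat_lit 40, nat_lit 80, nat_lit 1, nat_lit 317, nat_lit 100, nat_lit 9]⟩,
 zbF0, [⟨nat_lit 0, nat_lit 97, nat_lit 93, nat_lit 100, nat_lit 593132596⟩]⟩
noncomputable def p068_l45 : Lf2 := ⟨nat_lit 0, nat_lit 20, [nat_lit 5, nat_lit 5, nat_lit 5, nat_lit 20], false, nat_lit 0, nat_lit 160, nat_lit 0, nat_lit 160, ⟨nat_lit 1000, nat_lit 0, nat_lit 0, nat_lit 0, nat_lit 0, nat_lit 0, nat_lit 0, nat_lit 0, nat_lit 0, nat_lit 0, nat_lit 0, nat_lit 0, nat_lit 0, nat_lit 0, nat_lit 0, nat_lit 0, false, false⟩,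
 nat_lit 12716, nat_lit 0, nat_lit 0, nat_lit 20103, nat_lit 8092, nat_lit 8092, nat_lit 1402, nat_lit 0, nat_lit 0, nat_lit 1402, nat_lit 0, nat_lit 0, nat_lit 0, nat_lit 0, nat_lit 0, nat_lit 0, nat_lit 0, nat_lit 0, [],
 ⟨p068_k1, nat_lit 0, nat_lit 0, nat_lit 382, nat_lit 0, nat_lit 184227, [nat_lit 3282000000, nat_lit 6250000000, nat_lit 11872000000], [], [nat_lit 23598986403, nat_lit 25086411027, nat_lit 22374240192, nat_lit 24189925024, nat_lit 19741930557, nat_lit 20394890973, nat_lit 27597310816, nat_lit 23884927792], nat_lit 1271250, nat_lit 1271250, nat_lit 382400, nat_lit 1100001, nat_lit 0, nat_lit 1100001, [nat_lit 780000, nat_lit 1435000, nat_lit 1271250], [nat_lit 23, nat_lit 40, nat_lit 40, nat_lit 80, nat_lit 12, nat_lit 401, nat_lit 175, nat_lit 10]⟩, ⟨p068_k1, nat_lit 0, nat_lit 0, nat_lit 382, nat_lit 0, nat_lit 184227, [nat_lit 3282000000, nat_lit 6250000000, nat_lit 11872000000], [], [nat_lit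 23598986403, nat_lit 25086411027, nat_lit 22374240192, nat_lit 24189925024, nat_lit 19741930557, nat_lit 20394890973, nat_lit 27597310816, nat_lit 23884927792], nat_lit 1271250, nat_lit 1271250, nat_lit 382400, nat_lit 1100001, nat_lit 0, nat_lit 1100001, [nat_lit 780000, nat_lit 1435000, nat_lit 1271250], [nat_lit 23, nat_lit 40, nat_lit 40, nat_lit 80, nat_lit 12, nat_lit 401, nat_lit 175, nat_lit 10]⟩,
 zbF0, [⟨nat_lit 0, nat_lit 100, nat_lit 100, nat_lit 90, nat_lit 143670544⟩]⟩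
noncomputable def p068_l46 : Lf2 := ⟨nat_lit 0, nat_lit 20, [nat_lit 5, nat_lit 5, nat_lit 5, nat_lit 20], false, nat_lit 0, nat_lit 160, nat_lit 0, nat_lit 160, ⟨nat_lit 1000, nat_lit 0, nat_lit 0, nat_lit 0, nat_lit 0, nat_lit 0, nat_lit 0, nat_lit 0, nat_lit 0, nat_lit 0, nat_lit 0, nat_lit 0, nat_lit 0, nat_lit 0, nat_lit 0, nat_lit 0, false, false⟩,
 nat_lit 13504, nat_lit 0, nat_lit 0, nat_lit 0, nat_lit 8958, nat_lit 8593, nat_lit 1059, nat_lit 0, nat_lit 0, nat_lit 472, nat_lit 0, nat_lit 0, nat_lit 0, nat_lit 0, nat_lit 0, nat_lit 0, nat_lit 0, nat_lit 0, [],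
 ⟨p068_k4, nat_lit 0, nat_lit 0, nat_lit 378, nat_lit 0, nat_lit 362105, [nat_lit 3282000000, nat_lit 6250000000, nat_lit 9842000000], [], [nat_lit 23499850882, nat_lit 25817109654, nat_lit 22532835154, nat_lit 24583533958, nat_lit 16375822658, nat_lit 18309708014, nat_lit 17878309258, nat_lit 17379280198], nat_lit 1271250, nat_lit 1271250, nat_lit 490000, nat_lit 1100001, nat_lit 0, nat_lit 1100001, [nat_lit 780000, nat_lit 1435000, nat_lit 1271250], [nat_lit 8, nat_lit 40, nat_lit 40, nat_lit 80, nat_lit 1, nat_lit 317, nat_lit 100, nat_lit 9]⟩, ⟨p068_k1, nat_lit 0, nat_lit 0, nat_lit 504, nat_lit 0, nat_lit 402555, [nat_lit 3282000000, nat_lit 6250000000, nat_lit 11872000000], [], [nat_lit 32395287280, nat_lit 35442293444, nat_lit 31367996900, nat_lit 33895985444, nat_lit 26965431424, nat_lit 28875418608, nat_lit 26684112064, nat_lit 27601761896], nat_lit 1271250, nat_lit 1271250, nat_lit 490000, nat_lit 1100001,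 nat_lit 0, nat_lit 1100001, [nat_lit 780000, nat_lit 1435000, nat_lit 1271250], [nat_lit 23, nat_lit 40, nat_lit 40, nat_lit 80, nat_lit 12, nat_lit 401, nat_lit 175, nat_lit 10]⟩,
 zbF0, [⟨nat_lit 0, nat_lit 97, nat_lit 93, nat_lit 100, nat_lit 773140239⟩]⟩
noncomputable def p068_l47 : Lf2 := ⟨nat_lit 0, nat_lit 15, [nat_lit 30, nat_lit 5, nat_lit 5, nat_lit 20], false, nat_lit 0, nat_lit 80, nat_lit 160, nat_lit 276, ⟨nat_lit 916, nat_lit 0, nat_lit 84, nat_lit 7, nat_lit 166, nat_lit 84, nat_lit 25, nat_lit 84, nat_lit 4267, nat_lit 231, nat_lit 45717, nat_lit 267, nat_lit 57186730, nat_lit 0, nat_lit 0, nat_lit 2082653, false, false⟩,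
 nat_lit 17112, nat_lit 0, nat_lit 0, nat_lit 0, nat_lit 8854, nat_lit 10889, nat_lit 1062, nat_lit 0, nat_lit 0, nat_lit 837, nat_lit 0, nat_lit 0, nat_lit 0, nat_lit 0, nat_lit 0, nat_lit 84000, nat_lit 0, nat_lit 0, [(nat_lit 13, [(nat_lit 6, nat_lit 84)]), (nat_lit 16, [(nat_lit 6, nat_lit 84)])],
 ⟨p068_k5, nat_lit 0, nat_lit 0, nat_lit 483, nat_lit 0, nat_lit 514194, [nat_lit 3102217600, nat_lit 5630169600, nat_lit 8481401600], [], [nat_lit 23068386976, nat_lit 27091646455, nat_lit 21795364656, nat_lit 24915191464, nat_lit 18571686392, nat_lit 21704570098, nat_lit 21978669360, nat_lit 20528264912], nat_lit 1271250, nat_lit 1271250, nat_lit 382400, nat_lit 780000, nat_lit 0, nat_lit 490000, [nat_lit 780000, nat_lit 1435000, nat_lit 1271250], [nat_lit 8, nat_lit 40, nat_lit 40, nat_lit 80, nat_lit 1, nat_lit 260, nat_lit 50, nat_lit 8]⟩, ⟨p068_k5, nat_lit 0, nat_lit 0, nat_lit 352, nat_lit 0, nat_lit 514194, [nat_lit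 3006312000, nat_lit 5725000000, nat_lit 9015272000], [], [nat_lit 15056993690, nat_lit 19007740219, nat_lit 12781557882, nat_lit 16567443493, nat_lit 20271209521, nat_lit 25611436930, nat_lit 18157444541, nat_lit 22573906018], nat_lit 1271250, nat_lit 1271250, nat_lit 382400, nat_lit 780000, nat_lit 1100001, nat_lit 2093250, [nat_lit 780000, nat_lit 1435000, nat_lit 1271250], [nat_lit 8, nat_lit 40, nat_lit 40, nat_lit 80, nat_lit 1, nat_lit 317, nat_lit 100, nat_lit 9]⟩,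
 ⟨nat_lit 4472, nat_lit 5478, ⟨.ofNat (nat_lit 330579), .ofNat (nat_lit 435455), .ofNat (nat_lit 373223), .ofNat (nat_lit 478080), .ofNat (nat_lit 355064), .ofNat (nat_lit 450202), .ofNat (nat_lit 398126), .ofNat (nat_lit 493246)⟩, ⟨.negSucc (nat_lit 45522), .ofNat (nat_lit 104343), .negSucc (nat_lit 24173), .ofNat (nat_lit 125700), .negSucc (nat_lit 12423), .ofNat (nat_lit 123532), .ofNat (nat_lit 0), .ofNat (nat_lit 145099)⟩⟩, [⟨nat_lit 0, nat_lit 100, nat_lit 100, nat_lit 100, nat_lit 919440681⟩, ⟨nat_lit 7, nat_lit 100, nat_lit 88, nat_lit 67, nat_lit 713536841⟩]⟩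
noncomputable def p068_l48 : Lf2 := ⟨nat_lit 0, nat_lit 20, [nat_lit 5, nat_lit 5, nat_lit 5, nat_lit 20], false, nat_lit 0, nat_lit 80, nat_lit 160, nat_lit 300, ⟨nat_lit 1000, nat_lit 0, nat_lit 0, nat_lit 0, nat_lit 0, nat_lit 0, nat_lit 0, nat_lit 0, nat_lit 0, nat_lit 0, nat_lit 0, nat_lit 0, nat_lit 0, nat_lit 0, nat_lit 0, nat_lit 0, false, false⟩,
 nat_lit 13834, nat_lit 0, nat_lit 0, nat_lit 17131, nat_lit 8092, nat_lit 8803, nat_lit 1370, nat_lit 0, nat_lit 0, nat_lit 1241, nat_lit 0, nat_lit 0, nat_lit 0, nat_lit 0, nat_lit 0, nat_lit 0, nat_lit 0, nat_lit 0, [],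
 ⟨p068_k1, nat_lit 0, nat_lit 0, nat_lit 382, nat_lit 0, nat_lit 184227, [nat_lit 3282000000, nat_lit 6250000000, nat_lit 11872000000], [], [nat_lit 23905886403, nat_lit 25393311027, nat_lit 22385446342, nat_lit 23776411992, nat_lit 18993991453, nat_lit 20396277589, nat_lit 17692536422, nat_lit 19432447384], nat_lit 1271250, nat_lit 1271250, nat_lit 382400, nat_lit 780000, nat_lit 0, nat_lit 490000, [nat_lit 780000, nat_lit 1435000, nat_lit 1271250], [nat_lit 23, nat_lit 40, nat_lit 40, nat_lit 80, nat_lit 12, nat_lit 345, nat_lit 125, nat_lit 9]⟩, ⟨p068_k1, nat_lit 0, nat_lit 0, nat_lit 218, nat_lit 0, nat_lit 184227, [nat_lit 3282000000, nat_lit 6250000000, nat_lit 11872000000], [], [nat_lit 17785962505, nat_lit 19485184721, nat_lit 16099758475, nat_lit 17683687513, nat_lit 23588736660, nat_lit 25364212719, nat_lit 21621459473, nat_lit 23204919062], nat_lit 1271250, nat_lit 1271250, nat_lit 382400, nat_lit 780000,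 nat_lit 1100001, nat_lit 2298750, [nat_lit 780000, nat_lit 1435000, nat_lit 1271250], [nat_lit 23, nat_lit 40, nat_lit 40, nat_lit 80, nat_lit 12, nat_lit 428, nat_lit 200, nat_lit 11]⟩,
 zbF0, [⟨nat_lit 0, nat_lit 100, nat_lit 100, nat_lit 90, nat_lit 915805202⟩, ⟨nat_lit 7, nat_lit 100, nat_lit 97, nat_lit 82, nat_lit 524096607⟩]⟩
noncomputable def p068_l49 : Lf2 := ⟨nat_lit 0, nat_lit 20, [nat_lit 5, nat_lit 5, nat_lit 5, nat_lit 20], false, nat_lit 0, nat_lit 80, nat_lit 160, nat_lit 300, ⟨nat_lit 1000, nat_lit 0, nat_lit 0, nat_lit 0, nat_lit 0, nat_lit 0, nat_lit 0, nat_lit 0, nat_lit 0, nat_lit 0, nat_lit 0, nat_lit 0, nat_lit 0, nat_lit 0, nat_lit 0, nat_lit 0, false, false⟩,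
 nat_lit 19365, nat_lit 0, nat_lit 0, nat_lit 1131, nat_lit 7551, nat_lit 12323, nat_lit 1225, nat_lit 0, nat_lit 0, nat_lit 892, nat_lit 0, nat_lit 0, nat_lit 0, nat_lit 0, nat_lit 0, nat_lit 0, nat_lit 0, nat_lit 0, [],
 ⟨p068_k4, nat_lit 0, nat_lit 0, nat_lit 378, nat_lit 0, nat_lit 362105, [nat_lit 3282000000, nat_lit 6250000000, nat_lit 9842000000], [], [nat_lit 21428790804, nat_lit 23495696438, nat_lit 20808946815, nat_lit 22646315722, nat_lit 17664938869, nat_lit 19061431477, nat_lit 18607907618, nat_lit 18666480353], nat_lit 1271250, nat_lit 1271250, nat_lit 490000, nat_lit 780000, nat_lit 0, nat_lit 490000, [nat_lit 780000, nat_lit 1435000, nat_lit 1271250], [nat_lit 8, nat_lit 40, nat_lit 40, nat_lit 80, nat_lit 1, nat_lit 260, nat_lit 50, nat_lit 8]⟩, ⟨p068_k1, nat_lit 0, nat_lit 0, nat_lit 356, nat_lit 0, nat_lit 402555, [nat_lit 3282000000, nat_lit 6250000000, nat_lit 11872000000], [], [nat_lit 18672766684,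 nat_lit 22856100984, nat_lit 17119110600, nat_lit 21066620516, nat_lit 25207873547, nat_lit 29537501426, nat_lit 23225548159, nat_lit 27471160387], nat_lit 1271250, nat_lit 1271250, nat_lit 490000, nat_lit 780000, nat_lit 1100001, nat_lit 2298750, [nat_lit 780000, nat_lit 1435000, nat_lit 1271250], [nat_lit 23, nat_lit 40, nat_lit 40, nat_lit 80, nat_lit 12, nat_lit 428, nat_lit 200, nat_lit 11]⟩,
 zbF0, [⟨nat_lit 0, nat_lit 97, nat_lit 93, nat_lit 100, nat_lit 1013218890⟩, ⟨nat_lit 19, nat_lit 92, nat_lit 100, nat_lit 81, nat_lit 587298301⟩]⟩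
noncomputable def p068_l50 : Lf2 := ⟨nat_lit 0, nat_lit 20, [nat_lit 5, nat_lit 5, nat_lit 5, nat_lit 20], false, nat_lit 80, nat_lit 160, nat_lit 160, nat_lit 300, ⟨nat_lit 1000, nat_lit 0, nat_lit 0, nat_lit 0, nat_lit 0, nat_lit 0, nat_lit 0, nat_lit 0, nat_lit 0, nat_lit 0, nat_lit 0, nat_lit 0, nat_lit 0, nat_lit 0, nat_lit 0, nat_lit 0, false, false⟩,
 nat_lit 20385, nat_lit 0, nat_lit 0, nat_lit 0, nat_lit 12972, nat_lit 12839, nat_lit 1392, nat_lit 0, nat_lit 0, nat_lit 945, nat_lit 0, nat_lit 0, nat_lit 0, nat_lit 0, nat_lit 0, nat_lit 0, nat_lit 0, nat_lit 0, [],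
 ⟨p068_k1, nat_lit 0, nat_lit 0, nat_lit 500, nat_lit 0, nat_lit 534769, [nat_lit 3282000000, nat_lit 6250000000, nat_lit 11872000000], [], [nat_lit 17052155325, nat_lit 22050500356, nat_lit 13914559760, nat_lit 18580884752, nat_lit 14902488151, nat_lit 19395481242, nat_lit 12879482656, nat_lit 16218062416], nat_lit 1271250, nat_lit 1271250, nat_lit 382400, nat_lit 780000, nat_lit 490000, nat_lit 1100001, [nat_lit 780000, nat_lit 1435000, nat_lit 1271250], [nat_lit 23, nat_lit 40, nat_lit 40, nat_lit 80, nat_lit 12, nat_lit 373, nat_lit 150, nat_lit 9]⟩, ⟨p068_k1, nat_lit 0, nat_lit 0, nat_lit 412, nat_lit 0, nat_lit 534769, [nat_lit 3282000000, nat_lit 6250000000, nat_lit 11872000000], [], [nat_lit 19235286340, nat_lit 23614146207, nat_lit 16269576675, nat_lit 20331376463, nat_lit 25989742030, nat_lit 31661695173, nat_lit 22511679187, nat_lit 27799217191], nat_lit 1271250, nat_lit 1271250, nat_lit 382400, nat_lit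 780000, nat_lit 1100001, nat_lit 2298750, [nat_lit 780000, nat_lit 1435000, nat_lit 1271250], [nat_lit 23, nat_lit 40, nat_lit 40, nat_lit 80, nat_lit 12, nat_lit 428, nat_lit 200, nat_lit 11]⟩,
 zbF0, [⟨nat_lit 0, nat_lit 100, nat_lit 100, nat_lit 100, nat_lit 1172591156⟩, ⟨nat_lit 7, nat_lit 100, nat_lit 90, nat_lit 74, nat_lit 664510161⟩]⟩
noncomputable def p068_l51 : Lf2 := ⟨nat_lit 0, nat_lit 20, [nat_lit 5, nat_lit 5, nat_lit 5, nat_lit 20], false, nat_lit 0, nat_lit 160, nat_lit 160, nat_lit 300, ⟨nat_lit 1000, nat_lit 0, nat_lit 0, nat_lit 0, nat_lit 0, nat_lit 0, nat_lit 0, nat_lit 0, nat_lit 0, nat_lit 0, nat_lit 0, nat_lit 0, nat_lit 0, nat_lit 0, nat_lit 0, nat_lit 0, false, false⟩,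
 nat_lit 18142, nat_lit 0, nat_lit 0, nat_lit 0, nat_lit 8418, nat_lit 11544, nat_lit 1309, nat_lit 0, nat_lit 0, nat_lit 880, nat_lit 0, nat_lit 0, nat_lit 0, nat_lit 12052083757044, nat_lit 0, nat_lit 0, nat_lit 0, nat_lit 0, [],
 ⟨p068_k1, nat_lit 0, nat_lit 0, nat_lit 396, nat_lit 0, nat_lit 312202, [nat_lit 3282000000, nat_lit 6250000000, nat_lit 11872000000], [], [nat_lit 27658045744, nat_lit 24168001875, nat_lit 22689241979, nat_lit 24042608731, nat_lit 22775106064, nat_lit 18861561028, nat_lit 27003093664, nat_lit 23141150968], nat_lit 1271250, nat_lit 1271250, nat_lit 780000, nat_lit 1100001, nat_lit 0, nat_lit 1100001, [nat_lit 780000, nat_lit 1435000, nat_lit 1271250], [nat_lit 23, nat_lit 40, nat_lit 40, nat_lit 80, nat_lit 12, nat_lit 401, nat_lit 175, nat_lit 10]⟩, ⟨p068_k1, nat_lit 0, nat_lit 0, nat_lit 233, nat_lit 0, nat_lit 312202, [nat_lit 3282000000, nat_lit 6250000000, nat_lit 11872000000], [],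 [nat_lit 19923995552, nat_lit 19636834624, nat_lit 17459610864, nat_lit 19214415072, nat_lit 23697245464, nat_lit 24974097608, nat_lit 22859315576, nat_lit 24173757024], nat_lit 1271250, nat_lit 1271250, nat_lit 780000, nat_lit 1100001, nat_lit 1100001, nat_lit 2298750, [nat_lit 780000, nat_lit 1435000, nat_lit 1271250], [nat_lit 23, nat_lit 40, nat_lit 40, nat_lit 80, nat_lit 12, nat_lit 428, nat_lit 200, nat_lit 10]⟩,
 zbF0, [⟨nat_lit 7, nat_lit 100, nat_lit 94, nat_lit 75, nat_lit 502783685⟩]⟩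
noncomputable def p068_l52 : Lf2 := ⟨nat_lit 0, nat_lit 20, [nat_lit 5, nat_lit 5, nat_lit 5, nat_lit 20], false, nat_lit 0, nat_lit 160, nat_lit 160, nat_lit 300, ⟨nat_lit 1000, nat_lit 0, nat_lit 0, nat_lit 0, nat_lit 0, nat_lit 0, nat_lit 0, nat_lit 0, nat_lit 0, nat_lit 0, nat_lit 0, nat_lit 0, nat_lit 0, nat_lit 0, nat_lit 0, nat_lit 0, false, false⟩,
 nat_lit 14123, nat_lit 0, nat_lit 0, nat_lit 0, nat_lit 7522, nat_lit 8987, nat_lit 997, nat_lit 0, nat_lit 0, nat_lit 779, nat_lit 0, nat_lit 0, nat_lit 0, nat_lit 0, nat_lit 0, nat_lit 0, nat_lit 0, nat_lit 0, [],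
 ⟨p068_k4, nat_lit 0, nat_lit 0, nat_lit 443, nat_lit 0, nat_lit 481034, [nat_lit 3282000000, nat_lit 6250000000, nat_lit 9842000000], [], [nat_lit 22991951444, nat_lit 24454916434, nat_lit 23002493144, nat_lit 24549440522, nat_lit 18811815176, nat_lit 19770429117, nat_lit 21390565222, nat_lit 19848328309], nat_lit 1271250, nat_lit 1271250, nat_lit 780000, nat_lit 1100001, nat_lit 0, nat_lit 1100001, [nat_lit 780000, nat_lit 1435000, nat_lit 1271250], [nat_lit 8, nat_lit 40, nat_lit 40, nat_lit 80, nat_lit 1, nat_lit 317, nat_lit 100, nat_lit 9]⟩, ⟨p068_k1, nat_lit 0, nat_lit 0, nat_lit 384, nat_lit 0, nat_lit 534769, [nat_lit 3282000000, nat_lit 6250000000, nat_lit 11872000000], [], [nat_lit 21394761496, nat_lit 23618187853, nat_lit 21021487957, nat_lit 23375878065, nat_lit 25841975397, nat_lit 28068570346, nat_lit 25368295273, nat_lit 27443070195], nat_lit 1271250, nat_lit 1271250, nat_lit 780000, nat_lit 1100001,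 nat_lit 1100001, nat_lit 2298750, [nat_lit 780000, nat_lit 1435000, nat_lit 1271250], [nat_lit 23, nat_lit 40, nat_lit 40, nat_lit 80, nat_lit 12, nat_lit 428, nat_lit 200, nat_lit 10]⟩,
 zbF0, [⟨nat_lit 0, nat_lit 97, nat_lit 93, nat_lit 100, nat_lit 359454684⟩, ⟨nat_lit 7, nat_lit 100, nat_lit 90, nat_lit 74, nat_lit 568456185⟩]⟩
noncomputable def p068_l53 : Lf2 := ⟨nat_lit 0, nat_lit 20, [nat_lit 5, nat_lit 5, nat_lit 5, nat_lit 20], false, nat_lit 0, nat_lit 160, nat_lit 0, nat_lit 300, ⟨nat_lit 1000, nat_lit 0, nat_lit 0, nat_lit 0, nat_lit 0, nat_lit 0, nat_lit 0, nat_lit 0, nat_lit 0, nat_lit 0, nat_lit 0, nat_lit 0, nat_lit 0, nat_lit 0, nat_lit 0, nat_lit 0, false, false⟩,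
 nat_lit 12770, nat_lit 0, nat_lit 0, nat_lit 0, nat_lit 7950, nat_lit 8126, nat_lit 594, nat_lit 0, nat_lit 0, nat_lit 561, nat_lit 0, nat_lit 0, nat_lit 0, nat_lit 0, nat_lit 0, nat_lit 0, nat_lit 0, nat_lit 0, [],
 ⟨p068_k1, nat_lit 0, nat_lit 0, nat_lit 383, nat_lit 0, nat_lit 312202, [nat_lit 3282000000, nat_lit 6250000000, nat_lit 11872000000], [], [nat_lit 33239605800, nat_lit 31202195550, nat_lit 31644935350, nat_lit 32720534850, nat_lit 24666567950, nat_lit 25734315850, nat_lit 28565047600, nat_lit 26941113450], nat_lit 1271250, nat_lit 1271250, nat_lit 1100001, nat_lit 1785000, nat_lit 0, nat_lit 1100001, [nat_lit 780000, nat_lit 1435000, nat_lit 1271250], [nat_lit 23, nat_lit 40, nat_lit 40, nat_lit 80, nat_lit 12, nat_lit 401, nat_lit 175, nat_lit 10]⟩, ⟨p068_k1, nat_lit 0, nat_lit 0, nat_lit 383, nat_lit 0, nat_lit 312202, [nat_lit 3282000000, nat_lit 6250000000, nat_lit 11872000000], [], [nat_lit 33321685864,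 nat_lit 31394821599, nat_lit 31817955703, nat_lit 33123287183, nat_lit 28211422693, nat_lit 28966667074, nat_lit 37207786686, nat_lit 33643467117], nat_lit 1271250, nat_lit 1271250, nat_lit 1100001, nat_lit 1785000, nat_lit 0, nat_lit 2118750, [nat_lit 780000, nat_lit 1435000, nat_lit 1271250], [nat_lit 23, nat_lit 40, nat_lit 40, nat_lit 80, nat_lit 12, nat_lit 456, nat_lit 225, nat_lit 12]⟩,
 zbF0, [⟨nat_lit 7, nat_lit 100, nat_lit 94, nat_lit 75, nat_lit 162692665⟩]⟩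
noncomputable def p068_l54 : Lf2 := ⟨nat_lit 0, nat_lit 20, [nat_lit 5, nat_lit 5, nat_lit 5, nat_lit 20], false, nat_lit 0, nat_lit 160, nat_lit 0, nat_lit 300, ⟨nat_lit 1000, nat_lit 0, nat_lit 0, nat_lit 0, nat_lit 0, nat_lit 0, nat_lit 0, nat_lit 0, nat_lit 0, nat_lit 0, nat_lit 0, nat_lit 0, nat_lit 0, nat_lit 0, nat_lit 0, nat_lit 0, false, false⟩,
 nat_lit 12780, nat_lit 0, nat_lit 0, nat_lit 0, nat_lit 7590, nat_lit 8132, nat_lit 884, nat_lit 0, nat_lit 0, nat_lit 655, nat_lit 0, nat_lit 0, nat_lit 0, nat_lit 0, nat_lit 0, nat_lit 0, nat_lit 0, nat_lit 0, [],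
 ⟨p068_k4, nat_lit 0, nat_lit 0, nat_lit 429, nat_lit 0, nat_lit 481034, [nat_lit 3282000000, nat_lit 6250000000, nat_lit 9842000000], [], [nat_lit 27436647240, nat_lit 25477817840, nat_lit 26248319460, nat_lit 27789892520, nat_lit 19895990880, nat_lit 20792566120, nat_lit 22129979140, nat_lit 21796962640], nat_lit 1271250, nat_lit 1271250, nat_lit 1100001, nat_lit 1785000, nat_lit 0, nat_lit 1100001, [nat_lit 780000, nat_lit 1435000, nat_lit 1271250], [nat_lit 8, nat_lit 40, nat_lit 40, nat_lit 80, nat_lit 1, nat_lit 317, nat_lit 100, nat_lit 9]⟩, ⟨p068_k1, nat_lit 0, nat_lit 0, nat_lit 514, nat_lit 0, nat_lit 534769, [nat_lit 3282000000, nat_lit 6250000000, nat_lit 11872000000], [], [nat_lit 33324484048, nat_lit 32457198737, nat_lit 31634309681, nat_lit 33629626641, nat_lit 27919580569, nat_lit 29050896061, nat_lit 37203086052, nat_lit 30069183336], nat_lit 1271250, nat_lit 1271250, nat_lit 1100001, nat_lit 1785000,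 nat_lit 0, nat_lit 2118750, [nat_lit 780000, nat_lit 1435000, nat_lit 1271250], [nat_lit 23, nat_lit 40, nat_lit 40, nat_lit 80, nat_lit 12, nat_lit 456, nat_lit 225, nat_lit 12]⟩,
 zbF0, [⟨nat_lit 7, nat_lit 100, nat_lit 90, nat_lit 74, nat_lit 185954121⟩]⟩
noncomputable def b_V_700_700_10_33 : St := ⟨true, nat_lit 1, nat_lit 1, nat_lit 1, nat_lit 80, nat_lit 280, nat_lit 320, nat_lit 280, nat_lit 320, nat_lit 64, nat_lit 240, nat_lit 40, nat_lit 80, nat_lit 0, nat_lit 160, nat_lit 0, nat_lit 300, nat_lit 40, nat_lit 80, nat_lit 0, nat_lit 0, nat_lit 0, nat_lit 0⟩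
theorem d_V_700_700_10_33 (h : EB TB.env) : Dead b_V_700_700_10_33 := chkB_sound0 h (T :=
(.spl (nat_lit 2) (nat_lit 160)
(.spl (nat_lit 5) (nat_lit 160)
(.spl (nat_lit 3) (nat_lit 60)
(.spl (nat_lit 0) (nat_lit 300)
(.ord (.leaf p068_l43))
(.trZ (nat_lit 0) (nat_lit 100) (nat_lit 94) (nat_lit 88) (nat_lit 80) (.leaf p068_l44)))
(.spl (nat_lit 0) (nat_lit 300)
(.ord (.leaf p068_l45))
(.trZ (nat_lit 0) (nat_lit 100) (nat_lit 94) (nat_lit 88) (nat_lit 80) (.leaf p068_l46))))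
(.spl (nat_lit 2) (nat_lit 120)
(.spl (nat_lit 4) (nat_lit 80)
(.spl (nat_lit 3) (nat_lit 60)
(.trX (nat_lit 19) (nat_lit 99) (nat_lit 100) (nat_lit 77) (nat_lit 276) (.leaf p068_l47))
(.spl (nat_lit 0) (nat_lit 300)
(.ord (.leaf p068_l48))
(.trZ (nat_lit 0) (nat_lit 100) (nat_lit 94) (nat_lit 88) (nat_lit 80) (.leaf p068_l49))))
(.leaf p068_l50))
(.spl (nat_lit 0) (nat_lit 300)
(.ord (.leaf p068_l51))
(.leaf p068_l52))))
(.spl (nat_lit 0) (nat_lit 300)
(.ord (.leaf p068_l53))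
(.leaf p068_l54)))) (by decide +kernel)
noncomputable def p068_l55 : Lf2 := ⟨nat_lit 0, nat_lit 20, [nat_lit 5, nat_lit 5, nat_lit 5, nat_lit 20], false, nat_lit 160, nat_lit 240, nat_lit 0, nat_lit 160, ⟨nat_lit 1000, nat_lit 0, nat_lit 0, nat_lit 0, nat_lit 0, nat_lit 0, nat_lit 0, nat_lit 0, nat_lit 0, nat_lit 0, nat_lit 0, nat_lit 0, nat_lit 0, nat_lit 0, nat_lit 0, nat_lit 0, false, false⟩,
 nat_lit 23679, nat_lit 0, nat_lit 0, nat_lit 0, nat_lit 15068, nat_lit 8262, nat_lit 1167, nat_lit 0, nat_lit 0, nat_lit 1441, nat_lit 0, nat_lit 0, nat_lit 0, nat_lit 0, nat_lit 0, nat_lit 0, nat_lit 0, nat_lit 0, [],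
 ⟨p068_k1, nat_lit 0, nat_lit 0, nat_lit 208, nat_lit 0, nat_lit 200420, [nat_lit 3282000000, nat_lit 6250000000, nat_lit 11872000000], [], [nat_lit 16338774603, nat_lit 17568855402, nat_lit 12015315233, nat_lit 13070207121, nat_lit 18918229867, nat_lit 19924777632, nat_lit 14452789648, nat_lit 16151889096], nat_lit 1271250, nat_lit 1271250, nat_lit 382400, nat_lit 1100001, nat_lit 1100001, nat_lit 1785000, [nat_lit 780000, nat_lit 1435000, nat_lit 1271250], [nat_lit 23, nat_lit 40, nat_lit 40, nat_lit 80, nat_lit 12, nat_lit 401, nat_lit 175, nat_lit 10]⟩, ⟨p068_k1, nat_lit 0, nat_lit 0, nat_lit 385, nat_lit 0, nat_lit 200420, [nat_lit 3282000000, nat_lit 6250000000, nat_lit 11872000000], [], [nat_lit 23163530756, nat_lit 23916463188, nat_lit 22154970112, nat_lit 23075060688, nat_lit 19327336325, nat_lit 19224548723, nat_lit 27287442976, nat_lit 25392255844], nat_lit 1271250, nat_lit 1271250, nat_lit 382400, nat_lit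 1100001, nat_lit 0, nat_lit 1100001, [nat_lit 780000, nat_lit 1435000, nat_lit 1271250], [nat_lit 23, nat_lit 40, nat_lit 40, nat_lit 80, nat_lit 12, nat_lit 401, nat_lit 175, nat_lit 10]⟩,
 zbF0, [⟨nat_lit 0, nat_lit 100, nat_lit 100, nat_lit 90, nat_lit 378398295⟩, ⟨nat_lit 4, nat_lit 100, nat_lit 97, nat_lit 76, nat_lit 477614766⟩]⟩
noncomputable def p068_l56 : Lf2 := ⟨nat_lit 0, nat_lit 20, [nat_lit 5, nat_lit 5, nat_lit 5, nat_lit 20], false, nat_lit 160, nat_lit 240, nat_lit 0, nat_lit 160, ⟨nat_lit 1000, nat_lit 0, nat_lit 0, nat_lit 0, nat_lit 0, nat_lit 0, nat_lit 0, nat_lit 0, nat_lit 0, nat_lit 0, nat_lit 0, nat_lit 0, nat_lit 0, nat_lit 0, nat_lit 0, nat_lit 0, false, false⟩,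
 nat_lit 12841, nat_lit 2818, nat_lit 0, nat_lit 0, nat_lit 10399, nat_lit 8171, nat_lit 1279, nat_lit 0, nat_lit 0, nat_lit 544, nat_lit 0, nat_lit 0, nat_lit 0, nat_lit 0, nat_lit 0, nat_lit 0, nat_lit 0, nat_lit 0, [],
 ⟨p068_k3, nat_lit 0, nat_lit 0, nat_lit 243, nat_lit 0, nat_lit 295834, [nat_lit 3282000000, nat_lit 6250000000, nat_lit 11872000000], [], [nat_lit 16371254403, nat_lit 17310175755, nat_lit 14392017153, nat_lit 15211750187, nat_lit 18613077309, nat_lit 19395664746, nat_lit 16593240328, nat_lit 17876630692], nat_lit 1271250, nat_lit 1271250, nat_lit 435600, nat_lit 1100001, nat_lit 1100001, nat_lit 1785000, [nat_lit 780000, nat_lit 1435000, nat_lit 1271250], [nat_lit 23, nat_lit 40, nat_lit 40, nat_lit 80, nat_lit 12, nat_lit 401, nat_lit 175, nat_lit 10]⟩, ⟨p068_k1, nat_lit 0, nat_lit 0, nat_lit 418, nat_lit 0, nat_lit 312202, [nat_lit 3282000000, nat_lit 6250000000, nat_lit 11872000000], [], [nat_lit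 31430556356, nat_lit 32914988226, nat_lit 30221983588, nat_lit 31526192304, nat_lit 25831670424, nat_lit 27068729747, nat_lit 27453313408, nat_lit 25830186238], nat_lit 1271250, nat_lit 1271250, nat_lit 435600, nat_lit 1100001, nat_lit 0, nat_lit 1100001, [nat_lit 780000, nat_lit 1435000, nat_lit 1271250], [nat_lit 23, nat_lit 40, nat_lit 40, nat_lit 80, nat_lit 12, nat_lit 401, nat_lit 175, nat_lit 10]⟩,
 zbF0, [⟨nat_lit 0, nat_lit 100, nat_lit 99, nat_lit 92, nat_lit 665230779⟩, ⟨nat_lit 4, nat_lit 100, nat_lit 92, nat_lit 75, nat_lit 422867291⟩]⟩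
noncomputable def p068_l57 : Lf2 := ⟨nat_lit 0, nat_lit 15, [nat_lit 30, nat_lit 5, nat_lit 5, nat_lit 20], false, nat_lit 160, nat_lit 240, nat_lit 160, nat_lit 276, ⟨nat_lit 1000, nat_lit 0, nat_lit 0, nat_lit 0, nat_lit 0, nat_lit 0, nat_lit 0, nat_lit 0, nat_lit 0, nat_lit 0, nat_lit 0, nat_lit 0, nat_lit 0, nat_lit 0, nat_lit 0, nat_lit 0, false, false⟩,
 nat_lit 17586, nat_lit 0, nat_lit 0, nat_lit 0, nat_lit 11191, nat_lit 11191, nat_lit 1107, nat_lit 0, nat_lit 0, nat_lit 915, nat_lit 0, nat_lit 0, nat_lit 0, nat_lit 0, nat_lit 0, nat_lit 0, nat_lit 0, nat_lit 0, [],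
 ⟨p068_k5, nat_lit 0, nat_lit 0, nat_lit 214, nat_lit 0, nat_lit 303319, [nat_lit 3282000000, nat_lit 6250000000, nat_lit 9842000000], [], [nat_lit 16205079835, nat_lit 17463128233, nat_lit 13105255311, nat_lit 15081456241, nat_lit 18412199836, nat_lit 20307936590, nat_lit 15777792919, nat_lit 17872281028], nat_lit 1271250, nat_lit 1271250, nat_lit 382400, nat_lit 1100001, nat_lit 1100001, nat_lit 1785000, [nat_lit 780000, nat_lit 1435000, nat_lit 1271250], [nat_lit 8, nat_lit 40, nat_lit 40, nat_lit 80, nat_lit 1, nat_lit 317, nat_lit 100, nat_lit 9]⟩, ⟨p068_k5, nat_lit 0, nat_lit 0, nat_lit 222, nat_lit 0, nat_lit 303319, [nat_lit 3282000000, nat_lit 6250000000, nat_lit 9842000000], [], [nat_lit 16400001959, nat_lit 18691328233, nat_lit 14333455311, nat_lit 16309656241, nat_lit 22390823299, nat_lit 24570442319, nat_lit 19364407708, nat_lit 21574684983], nat_lit 1271250, nat_lit 1271250, nat_lit 382400, nat_lit 1100001,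 nat_lit 1100001, nat_lit 2093250, [nat_lit 780000, nat_lit 1435000, nat_lit 1271250], [nat_lit 8, nat_lit 40, nat_lit 40, nat_lit 80, nat_lit 1, nat_lit 345, nat_lit 125, nat_lit 10]⟩,
 zbF0, [⟨nat_lit 0, nat_lit 100, nat_lit 100, nat_lit 90, nat_lit 813561071⟩, ⟨nat_lit 4, nat_lit 100, nat_lit 92, nat_lit 68, nat_lit 207451530⟩, ⟨nat_lit 7, nat_lit 100, nat_lit 92, nat_lit 68, nat_lit 746644226⟩]⟩
noncomputable def p068_l58 : Lf2 := ⟨nat_lit 0, nat_lit 20, [nat_lit 5, nat_lit 5, nat_lit 5, nat_lit 20], false, nat_lit 160, nat_lit 240, nat_lit 160, nat_lit 300, ⟨nat_lit 1000, nat_lit 0, nat_lit 0, nat_lit 0, nat_lit 0, nat_lit 0, nat_lit 0, nat_lit 0, nat_lit 0, nat_lit 0, nat_lit 0, nat_lit 0, nat_lit 0, nat_lit 0, nat_lit 0, nat_lit 0, false, false⟩,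
 nat_lit 16045, nat_lit 0, nat_lit 0, nat_lit 19431, nat_lit 10210, nat_lit 9357, nat_lit 1454, nat_lit 0, nat_lit 0, nat_lit 1181, nat_lit 0, nat_lit 0, nat_lit 0, nat_lit 0, nat_lit 0, nat_lit 0, nat_lit 0, nat_lit 0, [],
 ⟨p068_k1, nat_lit 0, nat_lit 0, nat_lit 164, nat_lit 0, nat_lit 74466, [nat_lit 3282000000, nat_lit 6250000000, nat_lit 11872000000], [], [nat_lit 15258761923, nat_lit 16193819296, nat_lit 12973560010, nat_lit 13783773870, nat_lit 17668925602, nat_lit 18445400040, nat_lit 15653480800, nat_lit 16611869290], nat_lit 1271250, nat_lit 1271250, nat_lit 382400, nat_lit 1100001, nat_lit 1100001, nat_lit 1785000, [nat_lit 780000, nat_lit 1435000, nat_lit 1271250], [nat_lit 23, nat_lit 40, nat_lit 40, nat_lit 80, nat_lit 12, nat_lit 401, nat_lit 175, nat_lit 10]⟩, ⟨p068_k1, nat_lit 0, nat_lit 0, nat_lit 179, nat_lit 0, nat_lit 74466, [nat_lit 3282000000, nat_lit 6250000000, nat_lit 11872000000], [], [nat_lit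 18170670658, nat_lit 19053925854, nat_lit 16243359567, nat_lit 17010611229, nat_lit 24104077015, nat_lit 24714187333, nat_lit 22393699715, nat_lit 22377113192], nat_lit 1271250, nat_lit 1271250, nat_lit 382400, nat_lit 1100001, nat_lit 1100001, nat_lit 2298750, [nat_lit 780000, nat_lit 1435000, nat_lit 1271250], [nat_lit 23, nat_lit 40, nat_lit 40, nat_lit 80, nat_lit 12, nat_lit 428, nat_lit 200, nat_lit 11]⟩,
 zbF0, [⟨nat_lit 0, nat_lit 100, nat_lit 100, nat_lit 90, nat_lit 780952261⟩, ⟨nat_lit 7, nat_lit 100, nat_lit 99, nat_lit 83, nat_lit 513303807⟩]⟩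
noncomputable def p068_l59 : Lf2 := ⟨nat_lit 0, nat_lit 20, [nat_lit 5, nat_lit 5, nat_lit 5, nat_lit 20], false, nat_lit 160, nat_lit 240, nat_lit 160, nat_lit 300, ⟨nat_lit 1000, nat_lit 0, nat_lit 0, nat_lit 0, nat_lit 0, nat_lit 0, nat_lit 0, nat_lit 0, nat_lit 0, nat_lit 0, nat_lit 0, nat_lit 0, nat_lit 0, nat_lit 0, nat_lit 0, nat_lit 0, false, false⟩,
 nat_lit 15091, nat_lit 0, nat_lit 0, nat_lit 13119, nat_lit 10022, nat_lit 9603, nat_lit 1301, nat_lit 0, nat_lit 0, nat_lit 1176, nat_lit 0, nat_lit 0, nat_lit 0, nat_lit 0, nat_lit 0, nat_lit 0, nat_lit 0, nat_lit 0, [],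
 ⟨p068_k3, nat_lit 0, nat_lit 0, nat_lit 198, nat_lit 0, nat_lit 174568, [nat_lit 3282000000, nat_lit 6250000000, nat_lit 11872000000], [], [nat_lit 16274768667, nat_lit 17191022065, nat_lit 14433917109, nat_lit 15234662161, nat_lit 18508805242, nat_lit 19269107159, nat_lit 16628877384, nat_lit 17878701176], nat_lit 1271250, nat_lit 1271250, nat_lit 435600, nat_lit 1100001, nat_lit 1100001, nat_lit 1785000, [nat_lit 780000, nat_lit 1435000, nat_lit 1271250], [nat_lit 23, nat_lit 40, nat_lit 40, nat_lit 80, nat_lit 12, nat_lit 401, nat_lit 175, nat_lit 10]⟩, ⟨p068_k1, nat_lit 0, nat_lit 0, nat_lit 213, nat_lit 0, nat_lit 184227, [nat_lit 3282000000, nat_lit 6250000000, nat_lit 11872000000], [], [nat_lit 17679037557, nat_lit 19461157760, nat_lit 16103407068, nat_lit 17662690464, nat_lit 23629523186, nat_lit 25475711613, nat_lit 22058277485, nat_lit 23454527238], nat_lit 1271250, nat_lit 1271250, nat_lit 435600, nat_lit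 1100001, nat_lit 1100001, nat_lit 2298750, [nat_lit 780000, nat_lit 1435000, nat_lit 1271250], [nat_lit 23, nat_lit 40, nat_lit 40, nat_lit 80, nat_lit 12, nat_lit 428, nat_lit 200, nat_lit 11]⟩,
 zbF0, [⟨nat_lit 0, nat_lit 100, nat_lit 99, nat_lit 92, nat_lit 751478626⟩, ⟨nat_lit 7, nat_lit 100, nat_lit 97, nat_lit 82, nat_lit 543308867⟩]⟩
noncomputable def p068_l60 : Lf2 := ⟨nat_lit 0, nat_lit 15, [nat_lit 30, nat_lit 5, nat_lit 5, nat_lit 20], false, nat_lit 240, nat_lit 276, nat_lit 0, nat_lit 160, ⟨nat_lit 1000, nat_lit 0, nat_lit 0, nat_lit 0, nat_lit 0, nat_lit 0, nat_lit 0, nat_lit 0, nat_lit 0, nat_lit 0, nat_lit 0, nat_lit 0, nat_lit 0, nat_lit 0, nat_lit 0, nat_lit 0, false, false⟩,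
 nat_lit 18776, nat_lit 0, nat_lit 0, nat_lit 0, nat_lit 11948, nat_lit 10783, nat_lit 758, nat_lit 0, nat_lit 0, nat_lit 1054, nat_lit 0, nat_lit 0, nat_lit 0, nat_lit 18697055333989, nat_lit 0, nat_lit 0, nat_lit 0, nat_lit 0, [],
 ⟨p068_k5, nat_lit 0, nat_lit 0, nat_lit 222, nat_lit 0, nat_lit 303319, [nat_lit 3282000000, nat_lit 6250000000, nat_lit 9842000000], [], [nat_lit 20237586133, nat_lit 22217330990, nat_lit 17631607310, nat_lit 19466210206, nat_lit 23103177365, nat_lit 25084080445, nat_lit 20283898930, nat_lit 21945666940], nat_lit 1271250, nat_lit 1271250, nat_lit 382400, nat_lit 780000, nat_lit 1271250, nat_lit 1271250, [nat_lit 780000, nat_lit 1435000, nat_lit 1271250], [nat_lit 8, nat_lit 40, nat_lit 40, nat_lit 80, nat_lit 1, nat_lit 317, nat_lit 100, nat_lit 8]⟩, ⟨p068_k5, nat_lit 0, nat_lit 0, nat_lit 362, nat_lit 0, nat_lit 303319, [nat_lit 3282000000, nat_lit 6250000000, nat_lit 9842000000], [],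 [nat_lit 24791137709, nat_lit 27473156984, nat_lit 22325802904, nat_lit 24752764388, nat_lit 16240824725, nat_lit 18002038054, nat_lit 17636074584, nat_lit 15848896206], nat_lit 1271250, nat_lit 1271250, nat_lit 382400, nat_lit 780000, nat_lit 0, nat_lit 1100001, [nat_lit 780000, nat_lit 1435000, nat_lit 1271250], [nat_lit 8, nat_lit 40, nat_lit 40, nat_lit 80, nat_lit 1, nat_lit 289, nat_lit 75, nat_lit 9]⟩,
 zbF0, [⟨nat_lit 0, nat_lit 100, nat_lit 100, nat_lit 90, nat_lit 1066911685⟩, ⟨nat_lit 4, nat_lit 100, nat_lit 92, nat_lit 68, nat_lit 1009073363⟩]⟩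
noncomputable def p068_l61 : Lf2 := ⟨nat_lit 0, nat_lit 15, [nat_lit 30, nat_lit 5, nat_lit 5, nat_lit 20], false, nat_lit 240, nat_lit 276, nat_lit 160, nat_lit 276, ⟨nat_lit 1000, nat_lit 0, nat_lit 0, nat_lit 0, nat_lit 0, nat_lit 0, nat_lit 0, nat_lit 0, nat_lit 0, nat_lit 0, nat_lit 0, nat_lit 0, nat_lit 0, nat_lit 0, nat_lit 0, nat_lit 0, false, false⟩,
 nat_lit 20451, nat_lit 0, nat_lit 0, nat_lit 0, nat_lit 13014, nat_lit 13014, nat_lit 759, nat_lit 0, nat_lit 0, nat_lit 759, nat_lit 0, nat_lit 0, nat_lit 0, nat_lit 5033249870787, nat_lit 0, nat_lit 0, nat_lit 0, nat_lit 0, [],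
 ⟨p068_k5, nat_lit 0, nat_lit 0, nat_lit 222, nat_lit 0, nat_lit 303319, [nat_lit 3282000000, nat_lit 6250000000, nat_lit 9842000000], [], [nat_lit 19657882519, nat_lit 21759355195, nat_lit 16722009955, nat_lit 18667212483, nat_lit 22685651878, nat_lit 25807380633, nat_lit 19520375981, nat_lit 22285041578], nat_lit 1271250, nat_lit 1271250, nat_lit 382400, nat_lit 780000, nat_lit 1271250, nat_lit 1271250, [nat_lit 780000, nat_lit 1435000, nat_lit 1271250], [nat_lit 8, nat_lit 40, nat_lit 40, nat_lit 80, nat_lit 1, nat_lit 317, nat_lit 100, nat_lit 8]⟩, ⟨p068_k5, nat_lit 0, nat_lit 0, nat_lit 222, nat_lit 0, nat_lit 303319, [nat_lit 3282000000, nat_lit 6250000000, nat_lit 9842000000], [], [nat_lit 16239389208, nat_lit 18796169804, nat_lit 13596609371, nat_lit 15964185523, nat_lit 22685651878, nat_lit 25807380633, nat_lit 19520375981, nat_lit 22285041578], nat_lit 1271250, nat_lit 1271250, nat_lit 382400, nat_lit 780000,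 nat_lit 1100001, nat_lit 2093250, [nat_lit 780000, nat_lit 1435000, nat_lit 1271250], [nat_lit 8, nat_lit 40, nat_lit 40, nat_lit 80, nat_lit 1, nat_lit 317, nat_lit 100, nat_lit 9]⟩,
 zbF0, [⟨nat_lit 0, nat_lit 100, nat_lit 100, nat_lit 90, nat_lit 681096220⟩, ⟨nat_lit 0, nat_lit 100, nat_lit 100, nat_lit 80, nat_lit 477555793⟩, ⟨nat_lit 16, nat_lit 99, nat_lit 100, nat_lit 77, nat_lit 857681372⟩, ⟨nat_lit 19, nat_lit 99, nat_lit 100, nat_lit 77, nat_lit 615394292⟩]⟩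
noncomputable def p068_l62 : Lf2 := ⟨nat_lit 0, nat_lit 14, [nat_lit 119, nat_lit 5, nat_lit 5, nat_lit 20], false, nat_lit 240, nat_lit 300, nat_lit 0, nat_lit 300, ⟨nat_lit 1000, nat_lit 0, nat_lit 0, nat_lit 0, nat_lit 0, nat_lit 0, nat_lit 0, nat_lit 0, nat_lit 0, nat_lit 0, nat_lit 0, nat_lit 0, nat_lit 0, nat_lit 0, nat_lit 0, nat_lit 0, false, false⟩,
 nat_lit 14061, nat_lit 0, nat_lit 0, nat_lit 16652, nat_lit 5012, nat_lit 8947, nat_lit 0, nat_lit 0, nat_lit 0, nat_lit 1127, nat_lit 0, nat_lit 0, nat_lit 0, nat_lit 0, nat_lit 0, nat_lit 0, nat_lit 0, nat_lit 0, [],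
 ⟨p068_k10, nat_lit 0, nat_lit 0, nat_lit 101, nat_lit 0, nat_lit 51403, [nat_lit 3282000000, nat_lit 6250000000, nat_lit 9842000000], [], [nat_lit 16382385674, nat_lit 17203114700, nat_lit 16257662208, nat_lit 17025373828, nat_lit 20573535225, nat_lit 21343027154, nat_lit 20187364608, nat_lit 20842642948], nat_lit 1271250, nat_lit 1271250, nat_lit 382400, nat_lit 780000, nat_lit 1271250, nat_lit 1271250, [nat_lit 780000, nat_lit 1435000, nat_lit 1271250], [nat_lit 8, nat_lit 40, nat_lit 40, nat_lit 80, nat_lit 1, nat_lit 345, nat_lit 125, nat_lit 9]⟩, ⟨p068_k10, nat_lit 0, nat_lit 0, nat_lit 221, nat_lit 0, nat_lit 51403, [nat_lit 3282000000, nat_lit 6250000000, nat_lit 9842000000], [], [nat_lit 23416805821, nat_lit 24004215299, nat_lit 21512147375, nat_lit 22060888286, nat_lit 23506157094, nat_lit 23847362862, nat_lit 21548953363, nat_lit 21901676495], nat_lit 1271250, nat_lit 1271250, nat_lit 382400, nat_lit 780000,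 nat_lit 0, nat_lit 2118750, [nat_lit 780000, nat_lit 1435000, nat_lit 1271250], [nat_lit 8, nat_lit 40, nat_lit 40, nat_lit 80, nat_lit 1, nat_lit 345, nat_lit 125, nat_lit 10]⟩,
 zbF0, [⟨nat_lit 0, nat_lit 100, nat_lit 99, nat_lit 87, nat_lit 797453703⟩, ⟨nat_lit 4, nat_lit 100, nat_lit 99, nat_lit 83, nat_lit 710950969⟩, ⟨nat_lit 7, nat_lit 99, nat_lit 100, nat_lit 83, nat_lit 214454614⟩]⟩
noncomputable def p068_l63 : Lf2 := ⟨nat_lit 0, nat_lit 14, [nat_lit 119, nat_lit 5, nat_lit 5, nat_lit 20], false, nat_lit 240, nat_lit 296, nat_lit 0, nat_lit 296, ⟨nat_lit 1000, nat_lit 0, nat_lit 0, nat_lit 0, nat_lit 0, nat_lit 0, nat_lit 0, nat_lit 0, nat_lit 0, nat_lit 0, nat_lit 0, nat_lit 0, nat_lit 0, nat_lit 0, nat_lit 0, nat_lit 0, false, false⟩,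
 nat_lit 12841, nat_lit 0, nat_lit 0, nat_lit 14226, nat_lit 5061, nat_lit 8349, nat_lit 0, nat_lit 0, nat_lit 0, nat_lit 1154, nat_lit 0, nat_lit 0, nat_lit 0, nat_lit 7009739958264, nat_lit 0, nat_lit 0, nat_lit 0, nat_lit 0, [],
 ⟨p068_k11, nat_lit 0, nat_lit 0, nat_lit 97, nat_lit 0, nat_lit 74750, [nat_lit 3282000000, nat_lit 6250000000, nat_lit 9842000000], [], [nat_lit 16617538886, nat_lit 17026970773, nat_lit 16590135467, nat_lit 16976058709, nat_lit 20463525402, nat_lit 20852753547, nat_lit 20223079582, nat_lit 20556128020], nat_lit 1271250, nat_lit 1271250, nat_lit 435600, nat_lit 780000, nat_lit 1271250, nat_lit 1271250, [nat_lit 780000, nat_lit 1435000, nat_lit 1271250], [nat_lit 8, nat_lit 40, nat_lit 40, nat_lit 80, nat_lit 1, nat_lit 345, nat_lit 125, nat_lit 9]⟩, ⟨p068_k11, nat_lit 0, nat_lit 0, nat_lit 217, nat_lit 0, nat_lit 74750, [nat_lit 3282000000, nat_lit 6250000000, nat_lit 9842000000], [],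 [nat_lit 22595096977, nat_lit 23151381426, nat_lit 21312850104, nat_lit 21836671457, nat_lit 22722035715, nat_lit 23054602976, nat_lit 21518147100, nat_lit 21900613643], nat_lit 1271250, nat_lit 1271250, nat_lit 435600, nat_lit 780000, nat_lit 0, nat_lit 2090500, [nat_lit 780000, nat_lit 1435000, nat_lit 1271250], [nat_lit 8, nat_lit 40, nat_lit 40, nat_lit 80, nat_lit 1, nat_lit 345, nat_lit 125, nat_lit 10]⟩,
 zbF0, [⟨nat_lit 0, nat_lit 100, nat_lit 100, nat_lit 87, nat_lit 717484675⟩, ⟨nat_lit 4, nat_lit 100, nat_lit 98, nat_lit 83, nat_lit 712742499⟩, ⟨nat_lit 7, nat_lit 100, nat_lit 98, nat_lit 83, nat_lit 218790182⟩]⟩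
noncomputable def p068_l64 : Lf2 := ⟨nat_lit 1, nat_lit 20, [nat_lit 5, nat_lit 5, nat_lit 5, nat_lit 20], false, nat_lit 240, nat_lit 300, nat_lit 0, nat_lit 300, zbN0,
 nat_lit 0, nat_lit 0, nat_lit 0, nat_lit 0, nat_lit 0, nat_lit 0, nat_lit 0, nat_lit 0, nat_lit 0, nat_lit 0, nat_lit 0, nat_lit 0, nat_lit 0, nat_lit 0, nat_lit 0, nat_lit 0, nat_lit 0, nat_lit 0, [],
 C1.Rw.none, C1.Rw.none,
 zbF0, []⟩
noncomputable def p068_l65 : Lf2 := ⟨nat_lit 0, nat_lit 20, [nat_lit 5, nat_lit 5, nat_lit 5, nat_lit 20], false, nat_lit 240, nat_lit 292, nat_lit 0, nat_lit 160, ⟨nat_lit 1000, nat_lit 0, nat_lit 0, nat_lit 0, nat_lit 0, nat_lit 0, nat_lit 0, nat_lit 0, nat_lit 0, nat_lit 0, nat_lit 0, nat_lit 0, nat_lit 0, nat_lit 0, nat_lit 0, nat_lit 0, false, false⟩,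
 nat_lit 13958, nat_lit 0, nat_lit 0, nat_lit 19919, nat_lit 9269, nat_lit 8882, nat_lit 1324, nat_lit 0, nat_lit 0, nat_lit 1558, nat_lit 0, nat_lit 0, nat_lit 0, nat_lit 0, nat_lit 0, nat_lit 0, nat_lit 0, nat_lit 0, [],
 ⟨p068_k3, nat_lit 0, nat_lit 0, nat_lit 208, nat_lit 0, nat_lit 174568, [nat_lit 3282000000, nat_lit 6250000000, nat_lit 11872000000], [], [nat_lit 18516694728, nat_lit 19241882298, nat_lit 16908137863, nat_lit 17588833970, nat_lit 23241313660, nat_lit 24387398995, nat_lit 21572066807, nat_lit 22650990966], nat_lit 1271250, nat_lit 1271250, nat_lit 435600, nat_lit 780000, nat_lit 1271250, nat_lit 1271250, [nat_lit 780000, nat_lit 1435000, nat_lit 1271250], [nat_lit 23, nat_lit 40, nat_lit 40, nat_lit 80, nat_lit 12, nat_lit 428, nat_lit 200, nat_lit 10]⟩, ⟨p068_k1, nat_lit 0, nat_lit 0, nat_lit 377, nat_lit 0, nat_lit 184227, [nat_lit 3282000000, nat_lit 6250000000, nat_lit 11872000000], [], [nat_lit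 21837044674, nat_lit 23850965160, nat_lit 20853264984, nat_lit 22923864532, nat_lit 18221046447, nat_lit 18720331547, nat_lit 21766856336, nat_lit 17918172084], nat_lit 1271250, nat_lit 1271250, nat_lit 435600, nat_lit 780000, nat_lit 0, nat_lit 1100001, [nat_lit 780000, nat_lit 1435000, nat_lit 1271250], [nat_lit 23, nat_lit 40, nat_lit 40, nat_lit 80, nat_lit 12, nat_lit 373, nat_lit 150, nat_lit 10]⟩,
 zbF0, [⟨nat_lit 0, nat_lit 100, nat_lit 99, nat_lit 92, nat_lit 634855447⟩, ⟨nat_lit 4, nat_lit 100, nat_lit 94, nat_lit 81, nat_lit 961603252⟩]⟩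
noncomputable def p068_l66 : Lf2 := ⟨nat_lit 0, nat_lit 15, [nat_lit 30, nat_lit 5, nat_lit 5, nat_lit 20], false, nat_lit 240, nat_lit 292, nat_lit 160, nat_lit 300, ⟨nat_lit 1000, nat_lit 0, nat_lit 0, nat_lit 0, nat_lit 0, nat_lit 0, nat_lit 0, nat_lit 0, nat_lit 0, nat_lit 0, nat_lit 0, nat_lit 0, nat_lit 0, nat_lit 0, nat_lit 0, nat_lit 0, false, false⟩,
 nat_lit 13722, nat_lit 0, nat_lit 0, nat_lit 18254, nat_lit 7909, nat_lit 8732, nat_lit 1154, nat_lit 0, nat_lit 0, nat_lit 1157, nat_lit 0, nat_lit 0, nat_lit 0, nat_lit 0, nat_lit 0, nat_lit 0, nat_lit 0, nat_lit 0, [],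
 ⟨p068_k6, nat_lit 0, nat_lit 0, nat_lit 148, nat_lit 0, nat_lit 98640, [nat_lit 3282000000, nat_lit 6250000000, nat_lit 9842000000], [], [nat_lit 19365525700, nat_lit 19742157277, nat_lit 18301576764, nat_lit 18655463906, nat_lit 22487256657, nat_lit 22888110674, nat_lit 21407465413, nat_lit 21782400382], nat_lit 1271250, nat_lit 1271250, nat_lit 435600, nat_lit 780000, nat_lit 1271250, nat_lit 1271250, [nat_lit 780000, nat_lit 1435000, nat_lit 1271250], [nat_lit 8, nat_lit 40, nat_lit 40, nat_lit 80, nat_lit 1, nat_lit 345, nat_lit 125, nat_lit 9]⟩, ⟨p068_k5, nat_lit 0, nat_lit 0, nat_lit 150, nat_lit 0, nat_lit 104006, [nat_lit 3282000000, nat_lit 6250000000, nat_lit 9842000000], [], [nat_lit 16045618973, nat_lit 17004344141, nat_lit 15020221273, nat_lit 15919538961, nat_lit 22957117563, nat_lit 23723925476, nat_lit 21677486212, nat_lit 22453505439], nat_lit 1271250, nat_lit 1271250, nat_lit 435600, nat_lit 780000,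 nat_lit 1100001, nat_lit 2298750, [nat_lit 780000, nat_lit 1435000, nat_lit 1271250], [nat_lit 8, nat_lit 40, nat_lit 40, nat_lit 80, nat_lit 1, nat_lit 345, nat_lit 125, nat_lit 10]⟩,
 zbF0, [⟨nat_lit 0, nat_lit 100, nat_lit 98, nat_lit 88, nat_lit 852193125⟩, ⟨nat_lit 16, nat_lit 96, nat_lit 100, nat_lit 82, nat_lit 682606866⟩, ⟨nat_lit 19, nat_lit 99, nat_lit 100, nat_lit 83, nat_lit 551172596⟩]⟩
noncomputable def p068_l67 : Lf2 := ⟨nat_lit 0, nat_lit 15, [nat_lit 30, nat_lit 5, nat_lit 5, nat_lit 20], false, nat_lit 240, nat_lit 284, nat_lit 160, nat_lit 300, ⟨nat_lit 1000, nat_lit 0, nat_lit 0, nat_lit 0, nat_lit 0, nat_lit 0, nat_lit 0, nat_lit 0, nat_lit 0, nat_lit 0, nat_lit 0, nat_lit 0, nat_lit 0, nat_lit 0, nat_lit 0, nat_lit 0, false, false⟩,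
 nat_lit 14301, nat_lit 0, nat_lit 0, nat_lit 14702, nat_lit 7619, nat_lit 9100, nat_lit 1163, nat_lit 0, nat_lit 0, nat_lit 1138, nat_lit 0, nat_lit 0, nat_lit 0, nat_lit 0, nat_lit 0, nat_lit 0, nat_lit 0, nat_lit 0, [],
 ⟨p068_k12, nat_lit 0, nat_lit 0, nat_lit 152, nat_lit 0, nat_lit 120939, [nat_lit 3282000000, nat_lit 6250000000, nat_lit 9842000000], [], [nat_lit 19200376041, nat_lit 19567357436, nat_lit 18352243421, nat_lit 18698608543, nat_lit 21741736774, nat_lit 22256026385, nat_lit 20893614324, nat_lit 21269369588], nat_lit 1271250, nat_lit 1271250, nat_lit 462650, nat_lit 780000, nat_lit 1271250, nat_lit 1271250, [nat_lit 780000, nat_lit 1435000, nat_lit 1271250], [nat_lit 8, nat_lit 40, nat_lit 40, nat_lit 80, nat_lit 1, nat_lit 345, nat_lit 125, nat_lit 9]⟩, ⟨p068_k5, nat_lit 0, nat_lit 0, nat_lit 157, nat_lit 0, nat_lit 130854, [nat_lit 3282000000, nat_lit 6250000000, nat_lit 9842000000], [], [nat_lit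 15716023330, nat_lit 16697184081, nat_lit 14800612650, nat_lit 15724378050, nat_lit 22729981741, nat_lit 23716695090, nat_lit 21387094100, nat_lit 22311614875], nat_lit 1271250, nat_lit 1271250, nat_lit 462650, nat_lit 780000, nat_lit 1100001, nat_lit 2298750, [nat_lit 780000, nat_lit 1435000, nat_lit 1271250], [nat_lit 8, nat_lit 40, nat_lit 40, nat_lit 80, nat_lit 1, nat_lit 345, nat_lit 125, nat_lit 10]⟩,
 zbF0, [⟨nat_lit 0, nat_lit 100, nat_lit 96, nat_lit 90, nat_lit 879105872⟩, ⟨nat_lit 4, nat_lit 100, nat_lit 93, nat_lit 81, nat_lit 695172913⟩, ⟨nat_lit 19, nat_lit 100, nat_lit 95, nat_lit 87, nat_lit 180355805⟩, ⟨nat_lit 7, nat_lit 100, nat_lit 99, nat_lit 83, nat_lit 362467829⟩]⟩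
noncomputable def p068_l68 : Lf2 := ⟨nat_lit 0, nat_lit 15, [nat_lit 30, nat_lit 5, nat_lit 5, nat_lit 20], false, nat_lit 240, nat_lit 292, nat_lit 160, nat_lit 292, ⟨nat_lit 1000, nat_lit 0, nat_lit 0, nat_lit 0, nat_lit 0, nat_lit 0, nat_lit 0, nat_lit 0, nat_lit 0, nat_lit 0, nat_lit 0, nat_lit 0, nat_lit 0, nat_lit 0, nat_lit 0, nat_lit 0, false, false⟩,
 nat_lit 14620, nat_lit 0, nat_lit 0, nat_lit 9784, nat_lit 9709, nat_lit 9709, nat_lit 938, nat_lit 0, nat_lit 0, nat_lit 938, nat_lit 0, nat_lit 0, nat_lit 0, nat_lit 0, nat_lit 0, nat_lit 0, nat_lit 0, nat_lit 0, [],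
 ⟨p068_k6, nat_lit 0, nat_lit 0, nat_lit 170, nat_lit 0, nat_lit 172296, [nat_lit 3282000000, nat_lit 6250000000, nat_lit 9842000000], [], [nat_lit 19491607280, nat_lit 20339511888, nat_lit 18425049564, nat_lit 19226200648, nat_lit 22956544623, nat_lit 24129158497, nat_lit 21725727985, nat_lit 22839428842], nat_lit 1271250, nat_lit 1271250, nat_lit 490000, nat_lit 780000, nat_lit 1271250, nat_lit 1271250, [nat_lit 780000, nat_lit 1435000, nat_lit 1271250], [nat_lit 8, nat_lit 40, nat_lit 40, nat_lit 80, nat_lit 1, nat_lit 345, nat_lit 125, nat_lit 9]⟩, ⟨p068_k6, nat_lit 0, nat_lit 0, nat_lit 170, nat_lit 0, nat_lit 172296, [nat_lit 3282000000, nat_lit 6250000000, nat_lit 9842000000], [], [nat_lit 16607867165, nat_lit 17628386934, nat_lit 15726315182, nat_lit 16690538888, nat_lit 22956544623, nat_lit 24129158497, nat_lit 21725727985, nat_lit 22839428842], nat_lit 1271250, nat_lit 1271250, nat_lit 490000, nat_lit 780000,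 nat_lit 1100001, nat_lit 2230250, [nat_lit 780000, nat_lit 1435000, nat_lit 1271250], [nat_lit 8, nat_lit 40, nat_lit 40, nat_lit 80, nat_lit 1, nat_lit 345, nat_lit 125, nat_lit 9]⟩,
 zbF0, [⟨nat_lit 0, nat_lit 100, nat_lit 100, nat_lit 95, nat_lit 894053656⟩, ⟨nat_lit 16, nat_lit 100, nat_lit 100, nat_lit 89, nat_lit 624660918⟩, ⟨nat_lit 19, nat_lit 100, nat_lit 100, nat_lit 89, nat_lit 500020836⟩]⟩
noncomputable def p068_l69 : Lf2 := ⟨nat_lit 0, nat_lit 20, [nat_lit 5, nat_lit 5, nat_lit 5, nat_lit 20], false, nat_lit 240, nat_lit 292, nat_lit 160, nat_lit 300, ⟨nat_lit 1000, nat_lit 0, nat_lit 0, nat_lit 0, nat_lit 0, nat_lit 0, nat_lit 0, nat_lit 0, nat_lit 0, nat_lit 0, nat_lit 0, nat_lit 0, nat_lit 0, nat_lit 0, nat_lit 0, nat_lit 0, false, false⟩,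
 nat_lit 7859, nat_lit 137, nat_lit 0, nat_lit 35086, nat_lit 5310, nat_lit 5001, nat_lit 0, nat_lit 0, nat_lit 0, nat_lit 0, nat_lit 0, nat_lit 0, nat_lit 0, nat_lit 0, nat_lit 0, nat_lit 0, nat_lit 0, nat_lit 0, [],
 ⟨p068_k3, nat_lit 0, nat_lit 0, nat_lit 90, nat_lit 0, nat_lit 21135, [nat_lit 3282000000, nat_lit 6250000000, nat_lit 11872000000], [], [nat_lit 16830530889, nat_lit 17672140913, nat_lit 16725457390, nat_lit 17518315740, nat_lit 20713413138, nat_lit 21522642840, nat_lit 20189465435, nat_lit 20955478350], nat_lit 1271250, nat_lit 1271250, nat_lit 435600, nat_lit 780000, nat_lit 1271250, nat_lit 1271250, [nat_lit 780000, nat_lit 1435000, nat_lit 1271250], [nat_lit 23, nat_lit 40, nat_lit 40, nat_lit 80, nat_lit 12, nat_lit 428, nat_lit 200, nat_lit 10]⟩, ⟨p068_k1, nat_lit 0, nat_lit 0, nat_lit 135, nat_lit 0, nat_lit 22352, [nat_lit 3282000000, nat_lit 6250000000, nat_lit 11872000000], [], [nat_lit 12359802717,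 nat_lit 13321657013, nat_lit 12567295392, nat_lit 13472386478, nat_lit 20416951148, nat_lit 21109298615, nat_lit 20195010884, nat_lit 20849556267], nat_lit 1271250, nat_lit 1271250, nat_lit 435600, nat_lit 780000, nat_lit 1100001, nat_lit 2298750, [nat_lit 780000, nat_lit 1435000, nat_lit 1271250], [nat_lit 23, nat_lit 40, nat_lit 40, nat_lit 80, nat_lit 12, nat_lit 428, nat_lit 200, nat_lit 11]⟩,
 zbF0, [⟨nat_lit 0, nat_lit 100, nat_lit 97, nat_lit 94, nat_lit 645799866⟩, ⟨nat_lit 4, nat_lit 100, nat_lit 94, nat_lit 81, nat_lit 797848237⟩, ⟨nat_lit 19, nat_lit 99, nat_lit 100, nat_lit 83, nat_lit 587928170⟩]⟩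
noncomputable def p068_l70 : Lf2 := ⟨nat_lit 0, nat_lit 20, [nat_lit 5, nat_lit 5, nat_lit 5, nat_lit 20], false, nat_lit 240, nat_lit 292, nat_lit 160, nat_lit 292, ⟨nat_lit 1000, nat_lit 0, nat_lit 0, nat_lit 0, nat_lit 0, nat_lit 0, nat_lit 0, nat_lit 0, nat_lit 0, nat_lit 0, nat_lit 0, nat_lit 0, nat_lit 0, nat_lit 0, nat_lit 0, nat_lit 0, false, false⟩,
 nat_lit 11951, nat_lit 0, nat_lit 0, nat_lit 23004, nat_lit 7936, nat_lit 7936, nat_lit 1222, nat_lit 0, nat_lit 0, nat_lit 1214, nat_lit 0, nat_lit 0, nat_lit 0, nat_lit 416198879246, nat_lit 0, nat_lit 0, nat_lit 0, nat_lit 0, [],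
 ⟨p068_k3, nat_lit 0, nat_lit 0, nat_lit 167, nat_lit 0, nat_lit 68039, [nat_lit 3282000000, nat_lit 6250000000, nat_lit 11872000000], [], [nat_lit 19635399614, nat_lit 20293344462, nat_lit 18756867422, nat_lit 19380640430, nat_lit 22333378067, nat_lit 22977914846, nat_lit 21322355054, nat_lit 22080109855], nat_lit 1271250, nat_lit 1271250, nat_lit 490000, nat_lit 780000, nat_lit 1271250, nat_lit 1271250, [nat_lit 780000, nat_lit 1435000, nat_lit 1271250], [nat_lit 23, nat_lit 40, nat_lit 40, nat_lit 80, nat_lit 12, nat_lit 428, nat_lit 200, nat_lit 10]⟩, ⟨p068_k3, nat_lit 0, nat_lit 0, nat_lit 167, nat_lit 0, nat_lit 68039, [nat_lit 3282000000, nat_lit 6250000000, nat_lit 11872000000], [], [nat_lit 17538135838, nat_lit 18322833238, nat_lit 16788271078, nat_lit 17532227206, nat_lit 22415953067, nat_lit 22981565997, nat_lit 21395511663, nat_lit 22081295616], nat_lit 1271250, nat_lit 1271250, nat_lit 490000, nat_lit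 780000, nat_lit 1100001, nat_lit 2230250, [nat_lit 780000, nat_lit 1435000, nat_lit 1271250], [nat_lit 23, nat_lit 40, nat_lit 40, nat_lit 80, nat_lit 12, nat_lit 428, nat_lit 200, nat_lit 11]⟩,
 zbF0, [⟨nat_lit 0, nat_lit 100, nat_lit 100, nat_lit 100, nat_lit 797940781⟩, ⟨nat_lit 4, nat_lit 100, nat_lit 94, nat_lit 81, nat_lit 652230479⟩, ⟨nat_lit 7, nat_lit 100, nat_lit 94, nat_lit 81, nat_lit 512326919⟩]⟩
noncomputable def p068_l71 : Lf2 := ⟨nat_lit 0, nat_lit 20, [nat_lit 5, nat_lit 5, nat_lit 5, nat_lit 20], false, nat_lit 240, nat_lit 300, nat_lit 0, nat_lit 300, ⟨nat_lit 1000, nat_lit 0, nat_lit 0, nat_lit 0, nat_lit 0, nat_lit 0, nat_lit 0, nat_lit 0, nat_lit 0, nat_lit 0, nat_lit 0, nat_lit 0, nat_lit 0, nat_lit 0, nat_lit 0, nat_lit 0, false, false⟩,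
 nat_lit 24846, nat_lit 0, nat_lit 0, nat_lit 0, nat_lit 15811, nat_lit 15811, nat_lit 999, nat_lit 0, nat_lit 0, nat_lit 616, nat_lit 0, nat_lit 0, nat_lit 0, nat_lit 0, nat_lit 0, nat_lit 0, nat_lit 0, nat_lit 0, [],
 ⟨p068_k1, nat_lit 0, nat_lit 0, nat_lit 214, nat_lit 0, nat_lit 257586, [nat_lit 3282000000, nat_lit 6250000000, nat_lit 11872000000], [], [nat_lit 16127155289, nat_lit 18051762636, nat_lit 15054545181, nat_lit 17846907988, nat_lit 23493933992, nat_lit 26591328326, nat_lit 22880217226, nat_lit 25754876806], nat_lit 1271250, nat_lit 1271250, nat_lit 780000, nat_lit 1100001, nat_lit 1271250, nat_lit 1271250, [nat_lit 780000, nat_lit 1435000, nat_lit 1271250], [nat_lit 23, nat_lit 40, nat_lit 40, nat_lit 80, nat_lit 12, nat_lit 428, nat_lit 200, nat_lit 10]⟩, ⟨p068_k1, nat_lit 0, nat_lit 0, nat_lit 376, nat_lit 0, nat_lit 257586, [nat_lit 3282000000, nat_lit 6250000000, nat_lit 11872000000], [], [nat_lit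 32541097192, nat_lit 33971561207, nat_lit 31698997436, nat_lit 33027019424, nat_lit 24666514024, nat_lit 25042631159, nat_lit 32137805215, nat_lit 28670203892], nat_lit 1271250, nat_lit 1271250, nat_lit 780000, nat_lit 1100001, nat_lit 0, nat_lit 2118750, [nat_lit 780000, nat_lit 1435000, nat_lit 1271250], [nat_lit 23, nat_lit 40, nat_lit 40, nat_lit 80, nat_lit 12, nat_lit 428, nat_lit 200, nat_lit 11]⟩,
 zbF0, [⟨nat_lit 4, nat_lit 100, nat_lit 94, nat_lit 75, nat_lit 1391045606⟩, ⟨nat_lit 7, nat_lit 100, nat_lit 97, nat_lit 76, nat_lit 43119903⟩]⟩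
noncomputable def p068_l72 : Lf2 := ⟨nat_lit 0, nat_lit 20, [nat_lit 5, nat_lit 5, nat_lit 5, nat_lit 20], false, nat_lit 240, nat_lit 292, nat_lit 0, nat_lit 292, ⟨nat_lit 1000, nat_lit 0, nat_lit 0, nat_lit 0, nat_lit 0, nat_lit 0, nat_lit 0, nat_lit 0, nat_lit 0, nat_lit 0, nat_lit 0, nat_lit 0, nat_lit 0, nat_lit 0, nat_lit 0, nat_lit 0, false, false⟩,
 nat_lit 19428, nat_lit 0, nat_lit 0, nat_lit 0, nat_lit 12902, nat_lit 12902, nat_lit 949, nat_lit 0, nat_lit 0, nat_lit 793, nat_lit 0, nat_lit 0, nat_lit 0, nat_lit 0, nat_lit 0, nat_lit 0, nat_lit 0, nat_lit 0, [],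
 ⟨p068_k3, nat_lit 0, nat_lit 0, nat_lit 226, nat_lit 0, nat_lit 295834, [nat_lit 3282000000, nat_lit 6250000000, nat_lit 11872000000], [], [nat_lit 18609674779, nat_lit 19445510885, nat_lit 17828853363, nat_lit 18603244109, nat_lit 22840819215, nat_lit 24206888246, nat_lit 22498098450, nat_lit 23768415256], nat_lit 1271250, nat_lit 1271250, nat_lit 780000, nat_lit 1100001, nat_lit 1271250, nat_lit 1271250, [nat_lit 780000, nat_lit 1435000, nat_lit 1271250], [nat_lit 23, nat_lit 40, nat_lit 40, nat_lit 80, nat_lit 12, nat_lit 428, nat_lit 200, nat_lit 10]⟩, ⟨p068_k3, nat_lit 0, nat_lit 0, nat_lit 390, nat_lit 0, nat_lit 295834, [nat_lit 3282000000, nat_lit 6250000000, nat_lit 11872000000], [], [nat_lit 30090590899, nat_lit 31319272129, nat_lit 29491792493, nat_lit 30635069709, nat_lit 23503786640, nat_lit 24206888246, nat_lit 29582736317, nat_lit 26745926484], nat_lit 1271250, nat_lit 1271250, nat_lit 780000, nat_lit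 1100001, nat_lit 0, nat_lit 2062250, [nat_lit 780000, nat_lit 1435000, nat_lit 1271250], [nat_lit 23, nat_lit 40, nat_lit 40, nat_lit 80, nat_lit 12, nat_lit 428, nat_lit 200, nat_lit 11]⟩,
 zbF0, [⟨nat_lit 4, nat_lit 100, nat_lit 92, nat_lit 75, nat_lit 1007662084⟩, ⟨nat_lit 19, nat_lit 92, nat_lit 100, nat_lit 75, nat_lit 82416628⟩]⟩
noncomputable def p068_l73 : Lf2 := ⟨nat_lit 0, nat_lit 20, [nat_lit 5, nat_lit 5, nat_lit 5, nat_lit 20], false, nat_lit 160, nat_lit 300, nat_lit 0, nat_lit 300, ⟨nat_lit 1000, nat_lit 0, nat_lit 0, nat_lit 0, nat_lit 0, nat_lit 0, nat_lit 0, nat_lit 0, nat_lit 0, nat_lit 0, nat_lit 0, nat_lit 0, nat_lit 0, nat_lit 0, nat_lit 0, nat_lit 0, false, false⟩,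
 nat_lit 19017, nat_lit 0, nat_lit 0, nat_lit 0, nat_lit 12101, nat_lit 12101, nat_lit 730, nat_lit 0, nat_lit 0, nat_lit 813, nat_lit 0, nat_lit 0, nat_lit 0, nat_lit 3939590897265, nat_lit 0, nat_lit 0, nat_lit 0, nat_lit 0, [],
 ⟨p068_k1, nat_lit 0, nat_lit 0, nat_lit 220, nat_lit 0, nat_lit 312202, [nat_lit 3282000000, nat_lit 6250000000, nat_lit 11872000000], [], [nat_lit 19289613608, nat_lit 20283655438, nat_lit 20458490146, nat_lit 21945557792, nat_lit 27626374591, nat_lit 25177269557, nat_lit 24899518008, nat_lit 26836350817], nat_lit 1271250, nat_lit 1271250, nat_lit 1271250, nat_lit 1271250, nat_lit 1100001, nat_lit 2298750, [nat_lit 780000, nat_lit 1435000, nat_lit 1271250], [nat_lit 23, nat_lit 40, nat_lit 40, nat_lit 80, nat_lit 12, nat_lit 456, nat_lit 225, nat_lit 11]⟩, ⟨p068_k1, nat_lit 0, nat_lit 0, nat_lit 383, nat_lit 0, nat_lit 312202, [nat_lit 3282000000, nat_lit 6250000000, nat_lit 11872000000],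 [], [nat_lit 35175482764, nat_lit 30625928967, nat_lit 30881536003, nat_lit 32677286483, nat_lit 23166352879, nat_lit 24381247682, nat_lit 34093616661, nat_lit 28785736880], nat_lit 1271250, nat_lit 1271250, nat_lit 1100001, nat_lit 1785000, nat_lit 0, nat_lit 2118750, [nat_lit 780000, nat_lit 1435000, nat_lit 1271250], [nat_lit 23, nat_lit 40, nat_lit 40, nat_lit 80, nat_lit 12, nat_lit 456, nat_lit 225, nat_lit 12]⟩,
 zbF0, [⟨nat_lit 4, nat_lit 100, nat_lit 94, nat_lit 75, nat_lit 559432188⟩, ⟨nat_lit 7, nat_lit 100, nat_lit 94, nat_lit 75, nat_lit 59772804⟩]⟩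
noncomputable def b_V_700_700_10_34 : St := ⟨true, nat_lit 1, nat_lit 1, nat_lit 1, nat_lit 80, nat_lit 280, nat_lit 300, nat_lit 280, nat_lit 320, nat_lit 64, nat_lit 240, nat_lit 40, nat_lit 80, nat_lit 160, nat_lit 300, nat_lit 0, nat_lit 300, nat_lit 40, nat_lit 80, nat_lit 0, nat_lit 0, nat_lit 0, nat_lit 0⟩
theorem d_V_700_700_10_34 (h : EB TB.env) : Dead b_V_700_700_10_34 := chkB_sound0 h (T :=
(.ord (.spl (nat_lit 2) (nat_lit 160)
(.spl (nat_lit 4) (nat_lit 240)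
(.spl (nat_lit 5) (nat_lit 160)
(.spl (nat_lit 0) (nat_lit 290)
(.ord (.leaf p068_l55))
(.trZ (nat_lit 0) (nat_lit 100) (nat_lit 97) (nat_lit 84) (nat_lit 72) (.leaf p068_l56)))
(.spl (nat_lit 3) (nat_lit 60)
(.trX (nat_lit 19) (nat_lit 99) (nat_lit 100) (nat_lit 77) (nat_lit 276) (.leaf p068_l57))
(.spl (nat_lit 0) (nat_lit 290)
(.ord (.leaf p068_l58))
(.trZ (nat_lit 0) (nat_lit 100) (nat_lit 97) (nat_lit 84) (nat_lit 72) (.leaf p068_l59)))))
(.spl (nat_lit 2) (nat_lit 120)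
(.spl (nat_lit 3) (nat_lit 60)
(.trX (nat_lit 16) (nat_lit 99) (nat_lit 100) (nat_lit 77) (nat_lit 276) (.trX (nat_lit 19) (nat_lit 99) (nat_lit 100) (nat_lit 77) (nat_lit 276) (.spl (nat_lit 5) (nat_lit 160)
(.leaf p068_l60)
(.leaf p068_l61))))
(.spl (nat_lit 0) (nat_lit 290)
(.ord (.spl (nat_lit 6) (nat_lit 56)
(.spl (nat_lit 1) (nat_lit 285)
(.leaf p068_l62)
(.ord (.trZ (nat_lit 0) (nat_lit 100) (nat_lit 100) (nat_lit 85) (nat_lit 72) (.trX (nat_lit 16) (nat_lit 100) (nat_lit 98) (nat_lit 88) (nat_lit 296) (.trX (nat_lit 19) (nat_lit 100) (nat_lit 98) (nat_lit 88) (nat_lit 296) (.leaf p068_l63))))))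
(.leaf p068_l64)))
(.trZ (nat_lit 0) (nat_lit 100) (nat_lit 97) (nat_lit 84) (nat_lit 72) (.trX (nat_lit 16) (nat_lit 100) (nat_lit 100) (nat_lit 89) (nat_lit 292) (.spl (nat_lit 5) (nat_lit 160)
(.leaf p068_l65)
(.spl (nat_lit 6) (nat_lit 60)
(.spl (nat_lit 1) (nat_lit 290)
(.spl (nat_lit 0) (nat_lit 295)
(.leaf p068_l66)
(.trZ (nat_lit 0) (nat_lit 100) (nat_lit 96) (nat_lit 86) (nat_lit 76) (.trX (nat_lit 16) (nat_lit 97) (nat_lit 100) (nat_lit 88) (nat_lit 284) (.leaf p068_l67))))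
(.trZ (nat_lit 0) (nat_lit 100) (nat_lit 100) (nat_lit 90) (nat_lit 80) (.trX (nat_lit 19) (nat_lit 100) (nat_lit 100) (nat_lit 89) (nat_lit 292) (.leaf p068_l68))))
(.spl (nat_lit 1) (nat_lit 290)
(.leaf p068_l69)
(.trZ (nat_lit 0) (nat_lit 100) (nat_lit 100) (nat_lit 90) (nat_lit 80) (.trX (nat_lit 19) (nat_lit 100) (nat_lit 100) (nat_lit 89) (nat_lit 292) (.leaf p068_l70))))))))))
(.spl (nat_lit 1) (nat_lit 290)
(.leaf p068_l71)
(.ord (.trX (nat_lit 16) (nat_lit 100) (nat_lit 100) (nat_lit 89) (nat_lit 292) (.trX (nat_lit 19) (nat_lit 100) (nat_lit 100) (nat_lit 89) (nat_lit 292) (.leaf p068_l72)))))))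
(.leaf p068_l73)))) (by decide +kernel)
noncomputable def p068_l74 : Lf2 := ⟨nat_lit 0, nat_lit 20, [nat_lit 5, nat_lit 5, nat_lit 5, nat_lit 20], false, nat_lit 160, nat_lit 280, nat_lit 0, nat_lit 160, ⟨nat_lit 1000, nat_lit 0, nat_lit 0, nat_lit 0, nat_lit 0, nat_lit 0, nat_lit 0, nat_lit 0, nat_lit 0, nat_lit 0, nat_lit 0, nat_lit 0, nat_lit 0, nat_lit 0, nat_lit 0, nat_lit 0, false, false⟩,
 nat_lit 13701, nat_lit 952, nat_lit 0, nat_lit 0, nat_lit 10144, nat_lit 8718, nat_lit 676, nat_lit 0, nat_lit 0, nat_lit 931, nat_lit 0, nat_lit 0, nat_lit 0, nat_lit 0, nat_lit 0, nat_lit 0, nat_lit 0, nat_lit 0, [],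
 ⟨p068_k4, nat_lit 0, nat_lit 0, nat_lit 293, nat_lit 0, nat_lit 385558, [nat_lit 3282000000, nat_lit 6250000000, nat_lit 9842000000], [], [nat_lit 18712220744, nat_lit 20815326952, nat_lit 17685694344, nat_lit 19534967464, nat_lit 24085581912, nat_lit 25631460632, nat_lit 22365883532, nat_lit 23958147136], nat_lit 1271250, nat_lit 1271250, nat_lit 490000, nat_lit 1100001, nat_lit 1100001, nat_lit 2127500, [nat_lit 780000, nat_lit 1435000, nat_lit 1271250], [nat_lit 8, nat_lit 40, nat_lit 40, nat_lit 80, nat_lit 1, nat_lit 345, nat_lit 125, nat_lit 9]⟩, ⟨p068_k1, nat_lit 0, nat_lit 0, nat_lit 512, nat_lit 0, nat_lit 428628, [nat_lit 3282000000, nat_lit 6250000000, nat_lit 11872000000], [], [nat_lit 27799488144, nat_lit 29189774989, nat_lit 26734187525, nat_lit 27816632581, nat_lit 22250805549, nat_lit 23212492141, nat_lit 26456268064, nat_lit 22456693768], nat_lit 1271250, nat_lit 1271250, nat_lit 490000, nat_lit 1100001,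 nat_lit 0, nat_lit 1100001, [nat_lit 780000, nat_lit 1435000, nat_lit 1271250], [nat_lit 23, nat_lit 40, nat_lit 40, nat_lit 80, nat_lit 12, nat_lit 401, nat_lit 175, nat_lit 10]⟩,
 zbF0, [⟨nat_lit 0, nat_lit 100, nat_lit 94, nat_lit 97, nat_lit 500445308⟩, ⟨nat_lit 4, nat_lit 100, nat_lit 85, nat_lit 73, nat_lit 660523391⟩]⟩
noncomputable def p068_l75 : Lf2 := ⟨nat_lit 0, nat_lit 15, [nat_lit 30, nat_lit 5, nat_lit 5, nat_lit 20], false, nat_lit 160, nat_lit 280, nat_lit 160, nat_lit 300, ⟨nat_lit 1000, nat_lit 0, nat_lit 0, nat_lit 0, nat_lit 0, nat_lit 0, nat_lit 0, nat_lit 0, nat_lit 0, nat_lit 0, nat_lit 0, nat_lit 0, nat_lit 0, nat_lit 0, nat_lit 0, nat_lit 0, false, false⟩,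
 nat_lit 20023, nat_lit 0, nat_lit 0, nat_lit 0, nat_lit 9513, nat_lit 12741, nat_lit 875, nat_lit 0, nat_lit 0, nat_lit 588, nat_lit 0, nat_lit 0, nat_lit 0, nat_lit 0, nat_lit 0, nat_lit 0, nat_lit 0, nat_lit 0, [],
 ⟨p068_k7, nat_lit 0, nat_lit 0, nat_lit 288, nat_lit 0, nat_lit 372704, [nat_lit 3282000000, nat_lit 6250000000, nat_lit 9842000000], [], [nat_lit 17507304588, nat_lit 19520378454, nat_lit 16605264566, nat_lit 18507669850, nat_lit 22748595068, nat_lit 25161014608, nat_lit 21566712407, nat_lit 23852793678], nat_lit 1271250, nat_lit 1271250, nat_lit 490000, nat_lit 780000, nat_lit 1100001, nat_lit 2127500, [nat_lit 780000, nat_lit 1435000, nat_lit 1271250], [nat_lit 8, nat_lit 40, nat_lit 40, nat_lit 80, nat_lit 1, nat_lit 317, nat_lit 100, nat_lit 9]⟩, ⟨p068_k5, nat_lit 0, nat_lit 0, nat_lit 298, nat_lit 0, nat_lit 413634, [nat_lit 3282000000, nat_lit 6250000000, nat_lit 9842000000], [], [nat_lit 16292983904,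 nat_lit 18766635266, nat_lit 14943555824, nat_lit 17274859012, nat_lit 24531486643, nat_lit 27122982622, nat_lit 22648777564, nat_lit 25107841391], nat_lit 1271250, nat_lit 1271250, nat_lit 490000, nat_lit 780000, nat_lit 1100001, nat_lit 2298750, [nat_lit 780000, nat_lit 1435000, nat_lit 1271250], [nat_lit 8, nat_lit 40, nat_lit 40, nat_lit 80, nat_lit 1, nat_lit 345, nat_lit 125, nat_lit 9]⟩,
 zbF0, [⟨nat_lit 0, nat_lit 100, nat_lit 94, nat_lit 97, nat_lit 714763728⟩, ⟨nat_lit 0, nat_lit 100, nat_lit 94, nat_lit 88, nat_lit 317668090⟩, ⟨nat_lit 4, nat_lit 100, nat_lit 85, nat_lit 73, nat_lit 679676090⟩, ⟨nat_lit 19, nat_lit 100, nat_lit 95, nat_lit 87, nat_lit 341809414⟩, ⟨nat_lit 7, nat_lit 100, nat_lit 94, nat_lit 75, nat_lit 280065098⟩]⟩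
noncomputable def p068_l76 : Lf2 := ⟨nat_lit 0, nat_lit 15, [nat_lit 30, nat_lit 5, nat_lit 5, nat_lit 20], false, nat_lit 160, nat_lit 256, nat_lit 160, nat_lit 276, ⟨nat_lit 1000, nat_lit 0, nat_lit 0, nat_lit 0, nat_lit 0, nat_lit 0, nat_lit 0, nat_lit 0, nat_lit 0, nat_lit 0, nat_lit 0, nat_lit 0, nat_lit 0, nat_lit 0, nat_lit 0, nat_lit 0, false, false⟩,
 nat_lit 24192, nat_lit 0, nat_lit 0, nat_lit 0, nat_lit 16748, nat_lit 15394, nat_lit 0, nat_lit 0, nat_lit 0, nat_lit 364, nat_lit 0, nat_lit 0, nat_lit 0, nat_lit 0, nat_lit 0, nat_lit 0, nat_lit 0, nat_lit 0, [],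
 ⟨p068_k7, nat_lit 0, nat_lit 0, nat_lit 197, nat_lit 0, nat_lit 255031, [nat_lit 3282000000, nat_lit 6250000000, nat_lit 9842000000], [], [nat_lit 20077821448, nat_lit 23123199584, nat_lit 17853990336, nat_lit 20717695600, nat_lit 24686828964, nat_lit 27044918071, nat_lit 22099634599, nat_lit 24314646842], nat_lit 1271250, nat_lit 1271250, nat_lit 490000, nat_lit 780000, nat_lit 1100001, nat_lit 1922000, [nat_lit 780000, nat_lit 1435000, nat_lit 1271250], [nat_lit 8, nat_lit 40, nat_lit 40, nat_lit 80, nat_lit 1, nat_lit 317, nat_lit 100, nat_lit 9]⟩, ⟨p068_k5, nat_lit 0, nat_lit 0, nat_lit 205, nat_lit 0, nat_lit 283038, [nat_lit 3282000000, nat_lit 6250000000, nat_lit 9842000000], [], [nat_lit 15725108036, nat_lit 18577294744, nat_lit 13917029316, nat_lit 16600831308, nat_lit 22653586238, nat_lit 25458785172, nat_lit 20356747558, nat_lit 23042744804], nat_lit 1271250, nat_lit 1271250, nat_lit 490000, nat_lit 780000,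 nat_lit 1100001, nat_lit 2093250, [nat_lit 780000, nat_lit 1435000, nat_lit 1271250], [nat_lit 8, nat_lit 40, nat_lit 40, nat_lit 80, nat_lit 1, nat_lit 317, nat_lit 100, nat_lit 9]⟩,
 zbF0, [⟨nat_lit 0, nat_lit 100, nat_lit 94, nat_lit 97, nat_lit 1253974717⟩, ⟨nat_lit 4, nat_lit 100, nat_lit 84, nat_lit 67, nat_lit 719797624⟩, ⟨nat_lit 7, nat_lit 100, nat_lit 92, nat_lit 68, nat_lit 785417151⟩]⟩
noncomputable def p068_l77 : Lf2 := ⟨nat_lit 0, nat_lit 20, [nat_lit 5, nat_lit 5, nat_lit 5, nat_lit 20], false, nat_lit 160, nat_lit 280, nat_lit 160, nat_lit 300, ⟨nat_lit 1000, nat_lit 0, nat_lit 0, nat_lit 0, nat_lit 0, nat_lit 0, nat_lit 0, nat_lit 0, nat_lit 0, nat_lit 0, nat_lit 0, nat_lit 0, nat_lit 0, nat_lit 0, nat_lit 0, nat_lit 0, false, false⟩,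
 nat_lit 13834, nat_lit 9531, nat_lit 0, nat_lit 3724, nat_lit 16175, nat_lit 8803, nat_lit 0, nat_lit 0, nat_lit 0, nat_lit 1241, nat_lit 0, nat_lit 0, nat_lit 0, nat_lit 0, nat_lit 0, nat_lit 0, nat_lit 0, nat_lit 0, [],
 ⟨p068_k4, nat_lit 0, nat_lit 0, nat_lit 171, nat_lit 0, nat_lit 165019, [nat_lit 3282000000, nat_lit 6250000000, nat_lit 9842000000], [], [nat_lit 20428196050, nat_lit 23391817400, nat_lit 18309048600, nat_lit 21096620500, nat_lit 27083277400, nat_lit 30083006800, nat_lit 24477998200, nat_lit 27265110050], nat_lit 1271250, nat_lit 1271250, nat_lit 490000, nat_lit 780000, nat_lit 1100001, nat_lit 2127500, [nat_lit 780000, nat_lit 1435000, nat_lit 1271250], [nat_lit 8, nat_lit 40, nat_lit 40, nat_lit 80, nat_lit 1, nat_lit 317, nat_lit 100, nat_lit 9]⟩, ⟨p068_k1, nat_lit 0, nat_lit 0, nat_lit 207, nat_lit 0, nat_lit 183453, [nat_lit 3282000000, nat_lit 6250000000, nat_lit 11872000000], [], [nat_lit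 16975786399, nat_lit 18648397549, nat_lit 16099758475, nat_lit 17683687513, nat_lit 22701360142, nat_lit 24334713226, nat_lit 21621459473, nat_lit 23204919062], nat_lit 1271250, nat_lit 1271250, nat_lit 490000, nat_lit 780000, nat_lit 1100001, nat_lit 2298750, [nat_lit 780000, nat_lit 1435000, nat_lit 1271250], [nat_lit 23, nat_lit 40, nat_lit 40, nat_lit 80, nat_lit 12, nat_lit 428, nat_lit 200, nat_lit 11]⟩,
 zbF0, [⟨nat_lit 0, nat_lit 100, nat_lit 94, nat_lit 97, nat_lit 1116153658⟩, ⟨nat_lit 4, nat_lit 100, nat_lit 87, nat_lit 79, nat_lit 686444338⟩, ⟨nat_lit 7, nat_lit 100, nat_lit 97, nat_lit 82, nat_lit 524013673⟩]⟩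
noncomputable def p068_l78 : Lf2 := ⟨nat_lit 0, nat_lit 20, [nat_lit 5, nat_lit 5, nat_lit 5, nat_lit 20], false, nat_lit 160, nat_lit 280, nat_lit 160, nat_lit 300, ⟨nat_lit 1000, nat_lit 0, nat_lit 0, nat_lit 0, nat_lit 0, nat_lit 0, nat_lit 0, nat_lit 0, nat_lit 0, nat_lit 0, nat_lit 0, nat_lit 0, nat_lit 0, nat_lit 0, nat_lit 0, nat_lit 0, false, false⟩,
 nat_lit 16103, nat_lit 0, nat_lit 0, nat_lit 0, nat_lit 11148, nat_lit 10247, nat_lit 549, nat_lit 0, nat_lit 0, nat_lit 1045, nat_lit 0, nat_lit 0, nat_lit 0, nat_lit 0, nat_lit 0, nat_lit 0, nat_lit 0, nat_lit 0, [],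
 ⟨p068_k4, nat_lit 0, nat_lit 0, nat_lit 230, nat_lit 0, nat_lit 385558, [nat_lit 3282000000, nat_lit 6250000000, nat_lit 9842000000], [], [nat_lit 17912762386, nat_lit 20032406850, nat_lit 17812286298, nat_lit 19783274338, nat_lit 23143110762, nat_lit 24691341826, nat_lit 22563766562, nat_lit 24357482112], nat_lit 1271250, nat_lit 1271250, nat_lit 780000, nat_lit 1100001, nat_lit 1100001, nat_lit 2127500, [nat_lit 780000, nat_lit 1435000, nat_lit 1271250], [nat_lit 8, nat_lit 40, nat_lit 40, nat_lit 80, nat_lit 1, nat_lit 345, nat_lit 125, nat_lit 9]⟩, ⟨p068_k1, nat_lit 0, nat_lit 0, nat_lit 344, nat_lit 0, nat_lit 428628, [nat_lit 3282000000, nat_lit 6250000000, nat_lit 11872000000], [], [nat_lit 20670019576, nat_lit 18768450037, nat_lit 16867863407, nat_lit 18492018211, nat_lit 22711339707, nat_lit 23905231192, nat_lit 22058170063, nat_lit 23693158862], nat_lit 1271250, nat_lit 1271250, nat_lit 780000, nat_lit 1100001,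 nat_lit 1100001, nat_lit 2298750, [nat_lit 780000, nat_lit 1435000, nat_lit 1271250], [nat_lit 23, nat_lit 40, nat_lit 40, nat_lit 80, nat_lit 12, nat_lit 428, nat_lit 200, nat_lit 10]⟩,
 zbF0, [⟨nat_lit 16, nat_lit 85, nat_lit 100, nat_lit 73, nat_lit 658940727⟩, ⟨nat_lit 7, nat_lit 100, nat_lit 94, nat_lit 75, nat_lit 439246262⟩]⟩
noncomputable def p068_l79 : Lf2 := ⟨nat_lit 0, nat_lit 20, [nat_lit 5, nat_lit 5, nat_lit 5, nat_lit 20], false, nat_lit 160, nat_lit 280, nat_lit 0, nat_lit 280, ⟨nat_lit 1000, nat_lit 0, nat_lit 0, nat_lit 0, nat_lit 0, nat_lit 0, nat_lit 0, nat_lit 0, nat_lit 0, nat_lit 0, nat_lit 0, nat_lit 0, nat_lit 0, nat_lit 0, nat_lit 0, nat_lit 0, false, false⟩,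
 nat_lit 14375, nat_lit 0, nat_lit 0, nat_lit 0, nat_lit 9951, nat_lit 9951, nat_lit 761, nat_lit 0, nat_lit 0, nat_lit 761, nat_lit 0, nat_lit 0, nat_lit 0, nat_lit 4105658199583, nat_lit 0, nat_lit 0, nat_lit 0, nat_lit 0, [],
 ⟨p068_k4, nat_lit 0, nat_lit 0, nat_lit 235, nat_lit 0, nat_lit 381247, [nat_lit 3282000000, nat_lit 6250000000, nat_lit 9842000000], [], [nat_lit 17659736479, nat_lit 18668778992, nat_lit 17177044876, nat_lit 18089982741, nat_lit 22829335746, nat_lit 23572092571, nat_lit 22531681753, nat_lit 22781698872], nat_lit 1271250, nat_lit 1271250, nat_lit 631250, nat_lit 1100001, nat_lit 1100001, nat_lit 2127500, [nat_lit 780000, nat_lit 1435000, nat_lit 1271250], [nat_lit 8, nat_lit 40, nat_lit 40, nat_lit 80, nat_lit 1, nat_lit 345, nat_lit 125, nat_lit 9]⟩, ⟨p068_k4, nat_lit 0, nat_lit 0, nat_lit 373, nat_lit 0, nat_lit 381247, [nat_lit 3282000000, nat_lit 6250000000, nat_lit 9842000000], [], [nat_lit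 25778366270, nat_lit 26992432175, nat_lit 25129498388, nat_lit 26230731857, nat_lit 22829335746, nat_lit 23572092571, nat_lit 28375448217, nat_lit 26179158032], nat_lit 1271250, nat_lit 1271250, nat_lit 631250, nat_lit 1100001, nat_lit 0, nat_lit 1977500, [nat_lit 780000, nat_lit 1435000, nat_lit 1271250], [nat_lit 8, nat_lit 40, nat_lit 40, nat_lit 80, nat_lit 1, nat_lit 345, nat_lit 125, nat_lit 10]⟩,
 zbF0, [⟨nat_lit 0, nat_lit 95, nat_lit 95, nat_lit 100, nat_lit 152287773⟩, ⟨nat_lit 4, nat_lit 100, nat_lit 88, nat_lit 74, nat_lit 643522832⟩, ⟨nat_lit 7, nat_lit 100, nat_lit 88, nat_lit 74, nat_lit 176067692⟩]⟩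
noncomputable def p068_l80 : Lf2 := ⟨nat_lit 0, nat_lit 20, [nat_lit 5, nat_lit 5, nat_lit 5, nat_lit 20], false, nat_lit 160, nat_lit 268, nat_lit 0, nat_lit 280, ⟨nat_lit 1000, nat_lit 0, nat_lit 0, nat_lit 0, nat_lit 0, nat_lit 0, nat_lit 0, nat_lit 0, nat_lit 0, nat_lit 0, nat_lit 0, nat_lit 0, nat_lit 0, nat_lit 0, nat_lit 0, nat_lit 0, false, false⟩,
 nat_lit 13675, nat_lit 0, nat_lit 0, nat_lit 0, nat_lit 9858, nat_lit 9467, nat_lit 700, nat_lit 0, nat_lit 0, nat_lit 766, nat_lit 0, nat_lit 0, nat_lit 0, nat_lit 0, nat_lit 0, nat_lit 0, nat_lit 0, nat_lit 0, [],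
 ⟨p068_k9, nat_lit 0, nat_lit 0, nat_lit 307, nat_lit 0, nat_lit 457404, [nat_lit 3282000000, nat_lit 6250000000, nat_lit 9842000000], [], [nat_lit 18439996726, nat_lit 19431227260, nat_lit 18083338678, nat_lit 18990639348, nat_lit 22546237493, nat_lit 23304279886, nat_lit 21745918242, nat_lit 22796088339], nat_lit 1271250, nat_lit 1271250, nat_lit 689850, nat_lit 1100001, nat_lit 1100001, nat_lit 2024750, [nat_lit 780000, nat_lit 1435000, nat_lit 1271250], [nat_lit 8, nat_lit 40, nat_lit 40, nat_lit 80, nat_lit 1, nat_lit 345, nat_lit 125, nat_lit 9]⟩, ⟨p068_k4, nat_lit 0, nat_lit 0, nat_lit 448, nat_lit 0, nat_lit 481034, [nat_lit 3282000000, nat_lit 6250000000, nat_lit 9842000000], [], [nat_lit 25303313249, nat_lit 27622809656, nat_lit 24984967246, nat_lit 27113460592, nat_lit 22861000954, nat_lit 24218571263, nat_lit 29065807539, nat_lit 24886874932], nat_lit 1271250, nat_lit 1271250, nat_lit 689850, nat_lit 1100001,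 nat_lit 0, nat_lit 1977500, [nat_lit 780000, nat_lit 1435000, nat_lit 1271250], [nat_lit 8, nat_lit 40, nat_lit 40, nat_lit 80, nat_lit 1, nat_lit 345, nat_lit 125, nat_lit 10]⟩,
 zbF0, [⟨nat_lit 0, nat_lit 90, nat_lit 88, nat_lit 100, nat_lit 219848796⟩, ⟨nat_lit 4, nat_lit 100, nat_lit 83, nat_lit 73, nat_lit 640503534⟩, ⟨nat_lit 7, nat_lit 100, nat_lit 85, nat_lit 73, nat_lit 185215061⟩]⟩
noncomputable def p068_l81 : Lf2 := ⟨nat_lit 0, nat_lit 20, [nat_lit 5, nat_lit 5, nat_lit 5, nat_lit 20], false, nat_lit 160, nat_lit 280, nat_lit 0, nat_lit 300, ⟨nat_lit 1000, nat_lit 0, nat_lit 0, nat_lit 0, nat_lit 0, nat_lit 0, nat_lit 0, nat_lit 0, nat_lit 0, nat_lit 0, nat_lit 0, nat_lit 0, nat_lit 0, nat_lit 0, nat_lit 0, nat_lit 0, false, false⟩,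
 nat_lit 13218, nat_lit 0, nat_lit 0, nat_lit 0, nat_lit 9150, nat_lit 8411, nat_lit 723, nat_lit 0, nat_lit 0, nat_lit 602, nat_lit 0, nat_lit 0, nat_lit 0, nat_lit 0, nat_lit 0, nat_lit 0, nat_lit 0, nat_lit 0, [],
 ⟨p068_k4, nat_lit 0, nat_lit 0, nat_lit 298, nat_lit 0, nat_lit 481034, [nat_lit 3282000000, nat_lit 6250000000, nat_lit 9842000000], [], [nat_lit 18189751650, nat_lit 19918522150, nat_lit 20456944250, nat_lit 21896478150, nat_lit 22640097350, nat_lit 23919972950, nat_lit 25166864875, nat_lit 25897040300], nat_lit 1271250, nat_lit 1271250, nat_lit 1100001, nat_lit 1785000, nat_lit 1100001, nat_lit 2127500, [nat_lit 780000, nat_lit 1435000, nat_lit 1271250], [nat_lit 8, nat_lit 40, nat_lit 40, nat_lit 80, nat_lit 1, nat_lit 373, nat_lit 150, nat_lit 10]⟩, ⟨p068_k1, nat_lit 0, nat_lit 0, nat_lit 514, nat_lit 0, nat_lit 534769, [nat_lit 3282000000, nat_lit 6250000000, nat_lit 11872000000], [], [nat_lit 33454599604,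 nat_lit 32535834938, nat_lit 31606098038, nat_lit 34303736118, nat_lit 27633707962, nat_lit 29421923460, nat_lit 36984506571, nat_lit 29970459087], nat_lit 1271250, nat_lit 1271250, nat_lit 1100001, nat_lit 1785000, nat_lit 0, nat_lit 2118750, [nat_lit 780000, nat_lit 1435000, nat_lit 1271250], [nat_lit 23, nat_lit 40, nat_lit 40, nat_lit 80, nat_lit 12, nat_lit 456, nat_lit 225, nat_lit 12]⟩,
 zbF0, [⟨nat_lit 16, nat_lit 85, nat_lit 100, nat_lit 73, nat_lit 614798399⟩, ⟨nat_lit 7, nat_lit 100, nat_lit 90, nat_lit 74, nat_lit 193264043⟩]⟩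
noncomputable def b_V_700_700_10_35 : St := ⟨true, nat_lit 1, nat_lit 1, nat_lit 1, nat_lit 80, nat_lit 300, nat_lit 320, nat_lit 280, nat_lit 320, nat_lit 64, nat_lit 240, nat_lit 40, nat_lit 80, nat_lit 160, nat_lit 300, nat_lit 0, nat_lit 300, nat_lit 40, nat_lit 80, nat_lit 0, nat_lit 0, nat_lit 0, nat_lit 0⟩
theorem d_V_700_700_10_35 (h : EB TB.env) : Dead b_V_700_700_10_35 := chkB_sound0 h (T :=
(.trZ (nat_lit 0) (nat_lit 100) (nat_lit 94) (nat_lit 88) (nat_lit 80) (.trX (nat_lit 16) (nat_lit 94) (nat_lit 100) (nat_lit 87) (nat_lit 280) (.spl (nat_lit 2) (nat_lit 160)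
(.spl (nat_lit 1) (nat_lit 300)
(.spl (nat_lit 5) (nat_lit 160)
(.leaf p068_l74)
(.spl (nat_lit 2) (nat_lit 120)
(.spl (nat_lit 6) (nat_lit 60)
(.leaf p068_l75)
(.spl (nat_lit 3) (nat_lit 60)
(.trX (nat_lit 16) (nat_lit 90) (nat_lit 100) (nat_lit 74) (nat_lit 256) (.trX (nat_lit 19) (nat_lit 99) (nat_lit 100) (nat_lit 77) (nat_lit 276) (.leaf p068_l76)))
(.leaf p068_l77)))
(.leaf p068_l78)))
(.trZ (nat_lit 0) (nat_lit 100) (nat_lit 100) (nat_lit 100) (nat_lit 100) (.trX (nat_lit 19) (nat_lit 94) (nat_lit 100) (nat_lit 87) (nat_lit 280) (.spl (nat_lit 0) (nat_lit 310)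
(.ord (.leaf p068_l79))
(.trZ (nat_lit 0) (nat_lit 97) (nat_lit 93) (nat_lit 100) (nat_lit 108) (.trX (nat_lit 16) (nat_lit 89) (nat_lit 100) (nat_lit 85) (nat_lit 268) (.leaf p068_l80)))))))
(.leaf p068_l81))))) (by decide +kernel)
noncomputable def p068_l82 : Lf2 := ⟨nat_lit 0, nat_lit 20, [nat_lit 5, nat_lit 5, nat_lit 5, nat_lit 20], false, nat_lit 0, nat_lit 300, nat_lit 0, nat_lit 300, ⟨nat_lit 1000, nat_lit 0, nat_lit 0, nat_lit 0, nat_lit 0, nat_lit 0, nat_lit 0, nat_lit 0, nat_lit 0, nat_lit 0, nat_lit 0, nat_lit 0, nat_lit 0, nat_lit 0, nat_lit 0, nat_lit 0, false, false⟩,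
 nat_lit 12311, nat_lit 0, nat_lit 0, nat_lit 0, nat_lit 7834, nat_lit 7834, nat_lit 655, nat_lit 0, nat_lit 0, nat_lit 684, nat_lit 0, nat_lit 0, nat_lit 0, nat_lit 0, nat_lit 0, nat_lit 0, nat_lit 0, nat_lit 0, [],
 ⟨p068_k1, nat_lit 0, nat_lit 0, nat_lit 383, nat_lit 0, nat_lit 312202, [nat_lit 3282000000, nat_lit 6250000000, nat_lit 11872000000], [], [nat_lit 31154467177, nat_lit 32222233197, nat_lit 41100938225, nat_lit 41859158729, nat_lit 28395486613, nat_lit 29013088846, nat_lit 34743314326, nat_lit 35557776569], nat_lit 1271250, nat_lit 1271250, nat_lit 1271250, nat_lit 1271250, nat_lit 0, nat_lit 2118750, [nat_lit 780000, nat_lit 1435000, nat_lit 1271250], [nat_lit 23, nat_lit 40, nat_lit 40, nat_lit 80, nat_lit 12, nat_lit 483, nat_lit 250, nat_lit 12]⟩, ⟨p068_k1, nat_lit 0, nat_lit 0, nat_lit 383, nat_lit 0, nat_lit 312202, [nat_lit 3282000000, nat_lit 6250000000, nat_lit 11872000000], [], [nat_lit 30876339052,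 nat_lit 31944105072, nat_lit 40822810100, nat_lit 41854515124, nat_lit 28117358488, nat_lit 28734960721, nat_lit 34743314326, nat_lit 35557776569], nat_lit 1271250, nat_lit 1271250, nat_lit 1271250, nat_lit 1271250, nat_lit 0, nat_lit 2118750, [nat_lit 780000, nat_lit 1435000, nat_lit 1271250], [nat_lit 23, nat_lit 40, nat_lit 40, nat_lit 80, nat_lit 12, nat_lit 483, nat_lit 250, nat_lit 12]⟩,
 zbF0, [⟨nat_lit 4, nat_lit 100, nat_lit 94, nat_lit 75, nat_lit 107333629⟩, ⟨nat_lit 7, nat_lit 100, nat_lit 94, nat_lit 75, nat_lit 121002202⟩]⟩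
noncomputable def p068_l83 : Lf2 := ⟨nat_lit 0, nat_lit 20, [nat_lit 5, nat_lit 5, nat_lit 5, nat_lit 20], false, nat_lit 0, nat_lit 280, nat_lit 0, nat_lit 300, ⟨nat_lit 1000, nat_lit 0, nat_lit 0, nat_lit 0, nat_lit 0, nat_lit 0, nat_lit 0, nat_lit 0, nat_lit 0, nat_lit 0, nat_lit 0, nat_lit 0, nat_lit 0, nat_lit 0, nat_lit 0, nat_lit 0, false, false⟩,
 nat_lit 10921, nat_lit 0, nat_lit 0, nat_lit 0, nat_lit 7560, nat_lit 6949, nat_lit 464, nat_lit 0, nat_lit 0, nat_lit 747, nat_lit 0, nat_lit 0, nat_lit 0, nat_lit 0, nat_lit 0, nat_lit 0, nat_lit 0, nat_lit 0, [],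
 ⟨p068_k4, nat_lit 0, nat_lit 0, nat_lit 424, nat_lit 0, nat_lit 481034, [nat_lit 3282000000, nat_lit 6250000000, nat_lit 9842000000], [], [nat_lit 30598547520, nat_lit 31510920480, nat_lit 41112746160, nat_lit 42424963360, nat_lit 27614530400, nat_lit 28173520000, nat_lit 34543271560, nat_lit 35401995440], nat_lit 1271250, nat_lit 1271250, nat_lit 1271250, nat_lit 1271250, nat_lit 0, nat_lit 1977500, [nat_lit 780000, nat_lit 1435000, nat_lit 1271250], [nat_lit 8, nat_lit 40, nat_lit 40, nat_lit 80, nat_lit 1, nat_lit 401, nat_lit 175, nat_lit 11]⟩, ⟨p068_k1, nat_lit 0, nat_lit 0, nat_lit 496, nat_lit 0, nat_lit 534769, [nat_lit 3282000000, nat_lit 6250000000, nat_lit 11872000000], [], [nat_lit 33026871717, nat_lit 34586595945, nat_lit 39221736725, nat_lit 40715534444, nat_lit 30779547832, nat_lit 31687120183, nat_lit 34862033709, nat_lit 35587465075], nat_lit 1271250, nat_lit 1271250, nat_lit 1271250, nat_lit 1271250,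 nat_lit 0, nat_lit 2118750, [nat_lit 780000, nat_lit 1435000, nat_lit 1271250], [nat_lit 23, nat_lit 40, nat_lit 40, nat_lit 80, nat_lit 12, nat_lit 538, nat_lit 300, nat_lit 13]⟩,
 zbF0, [⟨nat_lit 16, nat_lit 85, nat_lit 100, nat_lit 73, nat_lit 81091867⟩, ⟨nat_lit 7, nat_lit 100, nat_lit 90, nat_lit 74, nat_lit 198626429⟩]⟩
noncomputable def b_V_700_700_10_36 : St := ⟨true, nat_lit 1, nat_lit 1, nat_lit 1, nat_lit 80, nat_lit 280, nat_lit 320, nat_lit 280, nat_lit 320, nat_lit 240, nat_lit 400, nat_lit 40, nat_lit 80, nat_lit 0, nat_lit 300, nat_lit 0, nat_lit 300, nat_lit 40, nat_lit 80, nat_lit 0, nat_lit 0, nat_lit 0, nat_lit 0⟩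
theorem d_V_700_700_10_36 (h : EB TB.env) : Dead b_V_700_700_10_36 := chkB_sound0 h (T :=
(.spl (nat_lit 0) (nat_lit 300)
(.ord (.leaf p068_l82))
(.trX (nat_lit 16) (nat_lit 94) (nat_lit 100) (nat_lit 87) (nat_lit 280) (.leaf p068_l83)))) (by decide +kernel)
noncomputable def p068_l84 : Lf2 := ⟨nat_lit 0, nat_lit 20, [nat_lit 5, nat_lit 5, nat_lit 5, nat_lit 20], true, nat_lit 0, nat_lit 160, nat_lit 0, nat_lit 300, ⟨nat_lit 0, nat_lit 1000, nat_lit 0, nat_lit 7, nat_lit 159, nat_lit 1000, nat_lit 55, nat_lit 0, nat_lit 0, nat_lit 0, nat_lit 0, nat_lit 0, nat_lit 0, nat_lit 0, nat_lit 0, nat_lit 5000000, false, false⟩,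
 nat_lit 0, nat_lit 8163, nat_lit 0, nat_lit 0, nat_lit 5194, nat_lit 0, nat_lit 0, nat_lit 0, nat_lit 0, nat_lit 0, nat_lit 0, nat_lit 0, nat_lit 0, nat_lit 47105525871984, nat_lit 47, nat_lit 868600, nat_lit 0, nat_lit 0, [(nat_lit 13, [(nat_lit 1, nat_lit 219), (nat_lit 2, nat_lit 781)])],
 ⟨p068_k1, nat_lit 0, nat_lit 0, nat_lit 562, nat_lit 0, nat_lit 551743, [nat_lit 2840478801, nat_lit 3119778601, nat_lit 120912000], [], [nat_lit 25909137701, nat_lit 23228275377, nat_lit 20643537156, nat_lit 21467599078, nat_lit 19250217048, nat_lit 20061099908, nat_lit 21275516340, nat_lit 19850321053], nat_lit 1271250, nat_lit 1271250, nat_lit 382400, nat_lit 780000, nat_lit 0, nat_lit 1100001, [nat_lit 780000, nat_lit 1435000, nat_lit 1271250], [nat_lit 23, nat_lit 40, nat_lit 40, nat_lit 80, nat_lit 12, nat_lit 373, nat_lit 150, nat_lit 10]⟩, C1.Rw.none,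
 ⟨nat_lit 5000, nat_lit 5478, ⟨.ofNat (nat_lit 330654), .ofNat (nat_lit 435548), .ofNat (nat_lit 352005), .ofNat (nat_lit 456895), .ofNat (nat_lit 342856), .ofNat (nat_lit 442843), .ofNat (nat_lit 364277), .ofNat (nat_lit 464262)⟩, ⟨.negSucc (nat_lit 45522), .ofNat (nat_lit 254209), .negSucc (nat_lit 2832), .ofNat (nat_lit 296923), .negSucc (nat_lit 28572), .ofNat (nat_lit 257141), .ofNat (nat_lit 0), .ofNat (nat_lit 299999)⟩⟩, [⟨nat_lit 0, nat_lit 100, nat_lit 100, nat_lit 100, nat_lit 147498715⟩]⟩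
noncomputable def p068_l85 : Lf2 := ⟨nat_lit 0, nat_lit 20, [nat_lit 5, nat_lit 5, nat_lit 5, nat_lit 20], true, nat_lit 160, nat_lit 240, nat_lit 0, nat_lit 300, ⟨nat_lit 0, nat_lit 1000, nat_lit 0, nat_lit 7, nat_lit 156, nat_lit 1000, nat_lit 140, nat_lit 0, nat_lit 0, nat_lit 0, nat_lit 0, nat_lit 0, nat_lit 0, nat_lit 0, nat_lit 0, nat_lit 5000000, false, false⟩,
 nat_lit 0, nat_lit 8147, nat_lit 0, nat_lit 0, nat_lit 5184, nat_lit 0, nat_lit 0, nat_lit 0, nat_lit 0, nat_lit 0, nat_lit 0, nat_lit 0, nat_lit 0, nat_lit 9814122150122, nat_lit 82, nat_lit 1000000, nat_lit 0, nat_lit 0, [(nat_lit 13, [(nat_lit 2, nat_lit 1000)])],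
 ⟨p068_k1, nat_lit 0, nat_lit 0, nat_lit 342, nat_lit 0, nat_lit 349069, [nat_lit 3319200001, nat_lit 3625000001, nat_lit 179200000], [], [nat_lit 18146785468, nat_lit 17476455365, nat_lit 16529935810, nat_lit 16979055897, nat_lit 18852083501, nat_lit 19390510986, nat_lit 20525951906, nat_lit 19304585954], nat_lit 1271250, nat_lit 1271250, nat_lit 382400, nat_lit 780000, nat_lit 1100001, nat_lit 1785000, [nat_lit 780000, nat_lit 1435000, nat_lit 1271250], [nat_lit 23, nat_lit 40, nat_lit 40, nat_lit 80, nat_lit 12, nat_lit 401, nat_lit 175, nat_lit 10]⟩, C1.Rw.none,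
 ⟨nat_lit 5244, nat_lit 5478, ⟨.ofNat (nat_lit 330654), .ofNat (nat_lit 435559), .ofNat (nat_lit 341333), .ofNat (nat_lit 446237), .ofNat (nat_lit 336758), .ofNat (nat_lit 439196), .ofNat (nat_lit 347451), .ofNat (nat_lit 449888)⟩, ⟨.ofNat (nat_lit 254209), .ofNat (nat_lit 404075), .ofNat (nat_lit 296923), .ofNat (nat_lit 446789), .ofNat (nat_lit 255744), .ofNat (nat_lit 402086), .ofNat (nat_lit 298515), .ofNat (nat_lit 444857)⟩⟩, [⟨nat_lit 4, nat_lit 100, nat_lit 97, nat_lit 76, nat_lit 265929263⟩]⟩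
noncomputable def p068_l86 : Lf2 := ⟨nat_lit 0, nat_lit 20, [nat_lit 5, nat_lit 5, nat_lit 5, nat_lit 20], true, nat_lit 160, nat_lit 240, nat_lit 0, nat_lit 300, ⟨nat_lit 0, nat_lit 1000, nat_lit 0, nat_lit 7, nat_lit 163, nat_lit 1000, nat_lit 140, nat_lit 0, nat_lit 0, nat_lit 0, nat_lit 0, nat_lit 0, nat_lit 0, nat_lit 0, nat_lit 0, nat_lit 5000000, false, false⟩,
 nat_lit 0, nat_lit 8042, nat_lit 0, nat_lit 0, nat_lit 5340, nat_lit 0, nat_lit 164, nat_lit 0, nat_lit 0, nat_lit 0, nat_lit 0, nat_lit 0, nat_lit 0, nat_lit 5392172131169, nat_lit 47, nat_lit 868600, nat_lit 0, nat_lit 0, [(nat_lit 13, [(nat_lit 1, nat_lit 219), (nat_lit 2, nat_lit 781)])],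
 ⟨p068_k3, nat_lit 0, nat_lit 0, nat_lit 399, nat_lit 0, nat_lit 519139, [nat_lit 2840478801, nat_lit 3119778601, nat_lit 120912000], [], [nat_lit 16512305817, nat_lit 17012829773, nat_lit 16240071223, nat_lit 16800446043, nat_lit 18552326759, nat_lit 19062364828, nat_lit 19778899823, nat_lit 18864510643], nat_lit 1271250, nat_lit 1271250, nat_lit 435600, nat_lit 780000, nat_lit 1100001, nat_lit 1785000, [nat_lit 780000, nat_lit 1435000, nat_lit 1271250], [nat_lit 23, nat_lit 40, nat_lit 40, nat_lit 80, nat_lit 12, nat_lit 401, nat_lit 175, nat_lit 10]⟩, C1.Rw.none,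
 ⟨nat_lit 5000, nat_lit 5245, ⟨.ofNat (nat_lit 351391), .ofNat (nat_lit 439194), .ofNat (nat_lit 372775), .ofNat (nat_lit 460577), .ofNat (nat_lit 357140), .ofNat (nat_lit 442852), .ofNat (nat_lit 378567), .ofNat (nat_lit 464278)⟩, ⟨.ofNat (nat_lit 255744), .ofNat (nat_lit 402086), .ofNat (nat_lit 298515), .ofNat (nat_lit 444857), .ofNat (nat_lit 257141), .ofNat (nat_lit 399998), .ofNat (nat_lit 299999), .ofNat (nat_lit 442856)⟩⟩, [⟨nat_lit 0, nat_lit 100, nat_lit 100, nat_lit 100, nat_lit 10671662⟩, ⟨nat_lit 4, nat_lit 100, nat_lit 92, nat_lit 75, nat_lit 300362835⟩]⟩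
noncomputable def p068_l87 : Lf2 := ⟨nat_lit 0, nat_lit 20, [nat_lit 5, nat_lit 5, nat_lit 5, nat_lit 20], true, nat_lit 240, nat_lit 300, nat_lit 0, nat_lit 300, ⟨nat_lit 0, nat_lit 1000, nat_lit 0, nat_lit 7, nat_lit 159, nat_lit 1000, nat_lit 191, nat_lit 0, nat_lit 0, nat_lit 0, nat_lit 0, nat_lit 0, nat_lit 0, nat_lit 0, nat_lit 0, nat_lit 5000000, false, false⟩,
 nat_lit 0, nat_lit 8913, nat_lit 0, nat_lit 0, nat_lit 5671, nat_lit 0, nat_lit 46, nat_lit 0, nat_lit 0, nat_lit 0, nat_lit 0, nat_lit 0, nat_lit 0, nat_lit 26567382304063, nat_lit 82, nat_lit 1000000, nat_lit 0, nat_lit 0, [(nat_lit 13, [(nat_lit 2, nat_lit 1000)])],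
 ⟨p068_k1, nat_lit 0, nat_lit 0, nat_lit 402, nat_lit 0, nat_lit 551743, [nat_lit 3319200001, nat_lit 3625000001, nat_lit 179200000], [], [nat_lit 18260222926, nat_lit 19382974918, nat_lit 17732663020, nat_lit 18498385518, nat_lit 21072488510, nat_lit 22678273412, nat_lit 20140919912, nat_lit 21691472456], nat_lit 1271250, nat_lit 1271250, nat_lit 382400, nat_lit 780000, nat_lit 1271250, nat_lit 1271250, [nat_lit 780000, nat_lit 1435000, nat_lit 1271250], [nat_lit 23, nat_lit 40, nat_lit 40, nat_lit 80, nat_lit 12, nat_lit 428, nat_lit 200, nat_lit 10]⟩, C1.Rw.none,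
 ⟨nat_lit 5000, nat_lit 5478, ⟨.ofNat (nat_lit 330654), .ofNat (nat_lit 435548), .ofNat (nat_lit 352005), .ofNat (nat_lit 456895), .ofNat (nat_lit 342856), .ofNat (nat_lit 442843), .ofNat (nat_lit 364277), .ofNat (nat_lit 464262)⟩, ⟨.ofNat (nat_lit 404075), .ofNat (nat_lit 516475), .ofNat (nat_lit 446789), .ofNat (nat_lit 559189), .ofNat (nat_lit 399998), .ofNat (nat_lit 507141), .ofNat (nat_lit 442856), .ofNat (nat_lit 549998)⟩⟩, [⟨nat_lit 0, nat_lit 100, nat_lit 100, nat_lit 100, nat_lit 69736776⟩, ⟨nat_lit 4, nat_lit 100, nat_lit 94, nat_lit 75, nat_lit 966444182⟩]⟩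
noncomputable def p068_l88 : Lf2 := ⟨nat_lit 0, nat_lit 20, [nat_lit 5, nat_lit 5, nat_lit 5, nat_lit 20], true, nat_lit 0, nat_lit 160, nat_lit 0, nat_lit 300, ⟨nat_lit 0, nat_lit 1000, nat_lit 0, nat_lit 7, nat_lit 170, nat_lit 1000, nat_lit 56, nat_lit 0, nat_lit 0, nat_lit 0, nat_lit 0, nat_lit 0, nat_lit 0, nat_lit 0, nat_lit 0, nat_lit 5000000, false, false⟩,
 nat_lit 0, nat_lit 7569, nat_lit 0, nat_lit 0, nat_lit 5239, nat_lit 0, nat_lit 39, nat_lit 0, nat_lit 0, nat_lit 0, nat_lit 0, nat_lit 0, nat_lit 0, nat_lit 22234153830727, nat_lit 96, nat_lit 1000000, nat_lit 0, nat_lit 0, [(nat_lit 16, [(nat_lit 2, nat_lit 1000)])],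
 ⟨p068_k4, nat_lit 0, nat_lit 0, nat_lit 563, nat_lit 0, nat_lit 673969, [nat_lit 3270800001, nat_lit 2959600001, nat_lit 291599999], [], [nat_lit 19501648378, nat_lit 18390037716, nat_lit 17197523203, nat_lit 17985969180, nat_lit 15837700779, nat_lit 16295760889, nat_lit 17067448937, nat_lit 16306287507], nat_lit 1271250, nat_lit 1271250, nat_lit 490000, nat_lit 780000, nat_lit 0, nat_lit 1100001, [nat_lit 780000, nat_lit 1435000, nat_lit 1271250], [nat_lit 8, nat_lit 40, nat_lit 40, nat_lit 80, nat_lit 1, nat_lit 289, nat_lit 75, nat_lit 8]⟩, C1.Rw.none,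
 ⟨nat_lit 4743, nat_lit 5000, ⟨.ofNat (nat_lit 371422), .ofNat (nat_lit 442849), .ofNat (nat_lit 403560), .ofNat (nat_lit 474987), .ofNat (nat_lit 376847), .ofNat (nat_lit 446544), .ofNat (nat_lit 409074), .ofNat (nat_lit 478772)⟩, ⟨.negSucc (nat_lit 28572), .ofNat (nat_lit 257141), .ofNat (nat_lit 0), .ofNat (nat_lit 299999), .negSucc (nat_lit 20404), .ofNat (nat_lit 258394), .ofNat (nat_lit 0), .ofNat (nat_lit 301370)⟩⟩, [⟨nat_lit 0, nat_lit 91, nat_lit 91, nat_lit 100, nat_lit 720541753⟩]⟩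
noncomputable def p068_l89 : Lf2 := ⟨nat_lit 0, nat_lit 20, [nat_lit 5, nat_lit 5, nat_lit 5, nat_lit 20], true, nat_lit 0, nat_lit 160, nat_lit 0, nat_lit 300, ⟨nat_lit 0, nat_lit 1000, nat_lit 0, nat_lit 7, nat_lit 177, nat_lit 1000, nat_lit 56, nat_lit 0, nat_lit 0, nat_lit 0, nat_lit 0, nat_lit 0, nat_lit 0, nat_lit 0, nat_lit 0, nat_lit 5000000, false, false⟩,
 nat_lit 0, nat_lit 7307, nat_lit 0, nat_lit 0, nat_lit 5267, nat_lit 0, nat_lit 560, nat_lit 0, nat_lit 0, nat_lit 0, nat_lit 0, nat_lit 0, nat_lit 0, nat_lit 0, nat_lit 0, nat_lit 400000, nat_lit 0, nat_lit 0, [(nat_lit 16, [(nat_lit 1, nat_lit 1000)])],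
 ⟨p068_k9, nat_lit 0, nat_lit 0, nat_lit 610, nat_lit 0, nat_lit 814456, [nat_lit 2020200000, nat_lit 2399066667, nat_lit 2245733333], [], [nat_lit 18348690710, nat_lit 19630431811, nat_lit 18017767576, nat_lit 19250658220, nat_lit 16289138557, nat_lit 16745951727, nat_lit 16341101180, nat_lit 16803850388], nat_lit 1271250, nat_lit 1271250, nat_lit 545600, nat_lit 780000, nat_lit 0, nat_lit 1100001, [nat_lit 780000, nat_lit 1435000, nat_lit 1271250], [nat_lit 8, nat_lit 40, nat_lit 40, nat_lit 80, nat_lit 1, nat_lit 289, nat_lit 75, nat_lit 8]⟩, C1.Rw.none,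
 ⟨nat_lit 4472, nat_lit 4744, ⟨.ofNat (nat_lit 390781), .ofNat (nat_lit 446540), .ofNat (nat_lit 433750), .ofNat (nat_lit 489510), .ofNat (nat_lit 395915), .ofNat (nat_lit 450297), .ofNat (nat_lit 439041), .ofNat (nat_lit 493423)⟩, ⟨.negSucc (nat_lit 20404), .ofNat (nat_lit 258394), .ofNat (nat_lit 0), .ofNat (nat_lit 301370), .negSucc (nat_lit 12423), .ofNat (nat_lit 259489), .ofNat (nat_lit 0), .ofNat (nat_lit 302621)⟩⟩, [⟨nat_lit 0, nat_lit 95, nat_lit 90, nat_lit 100, nat_lit 1333020928⟩]⟩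
noncomputable def p068_l90 : Lf2 := ⟨nat_lit 0, nat_lit 20, [nat_lit 5, nat_lit 5, nat_lit 5, nat_lit 20], false, nat_lit 160, nat_lit 280, nat_lit 0, nat_lit 160, ⟨nat_lit 1000, nat_lit 0, nat_lit 0, nat_lit 0, nat_lit 0, nat_lit 0, nat_lit 0, nat_lit 0, nat_lit 0, nat_lit 0, nat_lit 0, nat_lit 0, nat_lit 0, nat_lit 0, nat_lit 0, nat_lit 0, false, false⟩,
 nat_lit 0, nat_lit 10984, nat_lit 0, nat_lit 0, nat_lit 7604, nat_lit 7026, nat_lit 1007, nat_lit 0, nat_lit 0, nat_lit 1413, nat_lit 0, nat_lit 0, nat_lit 0, nat_lit 3451721702087, nat_lit 0, nat_lit 0, nat_lit 0, nat_lit 0, [],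
 ⟨p068_k4, nat_lit 0, nat_lit 0, nat_lit 511, nat_lit 0, nat_lit 862286, [nat_lit 3282000000, nat_lit 6250000000, nat_lit 9842000000], [], [nat_lit 20193180012, nat_lit 21129932580, nat_lit 19722631828, nat_lit 20606576276, nat_lit 22645202844, nat_lit 23758507262, nat_lit 21989591016, nat_lit 22874992424], nat_lit 1271250, nat_lit 1271250, nat_lit 490000, nat_lit 780000, nat_lit 1100001, nat_lit 2127500, [nat_lit 780000, nat_lit 1435000, nat_lit 1271250], [nat_lit 8, nat_lit 40, nat_lit 40, nat_lit 80, nat_lit 1, nat_lit 317, nat_lit 100, nat_lit 9]⟩, ⟨p068_k1, nat_lit 0, nat_lit 0, nat_lit 239, nat_lit 0, nat_lit 0, [nat_lit 3282000000, nat_lit 6250000000, nat_lit 11872000000], [], [nat_lit 21395423363, nat_lit 24845958483, nat_lit 20664123547, nat_lit 23948493507, nat_lit 16159242283, nat_lit 19563048544, nat_lit 15625301075, nat_lit 19262561032], nat_lit 0, nat_lit 0, nat_lit 0, nat_lit 0, nat_lit 0, nat_lit 0,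 [], [nat_lit 23, nat_lit 40, nat_lit 40, nat_lit 80, nat_lit 12, nat_lit 373, nat_lit 150, nat_lit 10]⟩,
 zbF0, [⟨nat_lit 0, nat_lit 97, nat_lit 93, nat_lit 100, nat_lit 912596462⟩, ⟨nat_lit 4, nat_lit 100, nat_lit 85, nat_lit 73, nat_lit 498318083⟩]⟩
noncomputable def p068_l91 : Lf2 := ⟨nat_lit 0, nat_lit 20, [nat_lit 5, nat_lit 5, nat_lit 5, nat_lit 20], false, nat_lit 160, nat_lit 280, nat_lit 160, nat_lit 300, ⟨nat_lit 1000, nat_lit 0, nat_lit 0, nat_lit 0, nat_lit 0, nat_lit 0, nat_lit 0, nat_lit 0, nat_lit 0, nat_lit 0, nat_lit 0, nat_lit 0, nat_lit 0, nat_lit 0, nat_lit 0, nat_lit 0, false, false⟩,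
 nat_lit 0, nat_lit 12048, nat_lit 0, nat_lit 0, nat_lit 8340, nat_lit 5131, nat_lit 912, nat_lit 0, nat_lit 0, nat_lit 0, nat_lit 0, nat_lit 0, nat_lit 0, nat_lit 0, nat_lit 0, nat_lit 0, nat_lit 0, nat_lit 0, [],
 ⟨p068_k4, nat_lit 0, nat_lit 0, nat_lit 511, nat_lit 0, nat_lit 862286, [nat_lit 3282000000, nat_lit 6250000000, nat_lit 9842000000], [], [nat_lit 18462474360, nat_lit 19774502720, nat_lit 17729266880, nat_lit 18987606000, nat_lit 22918766320, nat_lit 24294383440, nat_lit 21947115960, nat_lit 23251976040], nat_lit 1271250, nat_lit 1271250, nat_lit 490000, nat_lit 780000, nat_lit 1100001, nat_lit 2127500, [nat_lit 780000, nat_lit 1435000, nat_lit 1271250], [nat_lit 8, nat_lit 40, nat_lit 40, nat_lit 80, nat_lit 1, nat_lit 317, nat_lit 100, nat_lit 9]⟩, ⟨p068_k1, nat_lit 0, nat_lit 0, nat_lit 71, nat_lit 0, nat_lit 0, [nat_lit 3282000000, nat_lit 6250000000, nat_lit 11872000000], [], [nat_lit 12091105396,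 nat_lit 15966565072, nat_lit 12391456352, nat_lit 16066985416, nat_lit 20195304082, nat_lit 23274261922, nat_lit 20104645804, nat_lit 22898709739], nat_lit 0, nat_lit 0, nat_lit 0, nat_lit 0, nat_lit 0, nat_lit 0, [], [nat_lit 23, nat_lit 40, nat_lit 40, nat_lit 80, nat_lit 12, nat_lit 428, nat_lit 200, nat_lit 11]⟩,
 zbF0, [⟨nat_lit 0, nat_lit 97, nat_lit 93, nat_lit 100, nat_lit 796174460⟩, ⟨nat_lit 4, nat_lit 100, nat_lit 85, nat_lit 73, nat_lit 631216060⟩, ⟨nat_lit 7, nat_lit 100, nat_lit 90, nat_lit 74, nat_lit 696196039⟩]⟩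
noncomputable def b_V_700_700_10_37 : St := ⟨true, nat_lit 1, nat_lit 0, nat_lit 2, nat_lit 80, nat_lit 280, nat_lit 320, nat_lit 280, nat_lit 320, nat_lit 64, nat_lit 120, nat_lit 40, nat_lit 80, nat_lit 0, nat_lit 300, nat_lit 0, nat_lit 300, nat_lit 40, nat_lit 80, nat_lit 0, nat_lit 0, nat_lit 0, nat_lit 0⟩
theorem d_V_700_700_10_37 (h : EB TB.env) : Dead b_V_700_700_10_37 := chkB_sound0 h (T :=
(.spl (nat_lit 0) (nat_lit 300)
(.ord (.spl (nat_lit 4) (nat_lit 160)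
(.leaf p068_l84)
(.spl (nat_lit 4) (nat_lit 240)
(.spl (nat_lit 0) (nat_lit 290)
(.ord (.leaf p068_l85))
(.trZ (nat_lit 0) (nat_lit 100) (nat_lit 97) (nat_lit 84) (nat_lit 72) (.leaf p068_l86)))
(.leaf p068_l87))))
(.trZ (nat_lit 0) (nat_lit 100) (nat_lit 94) (nat_lit 88) (nat_lit 80) (.trX (nat_lit 16) (nat_lit 94) (nat_lit 100) (nat_lit 87) (nat_lit 280) (.spl (nat_lit 4) (nat_lit 160)
(.spl (nat_lit 0) (nat_lit 310)
(.ord (.leaf p068_l88))
(.trZ (nat_lit 0) (nat_lit 100) (nat_lit 91) (nat_lit 91) (nat_lit 88) (.leaf p068_l89)))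
(.spl (nat_lit 5) (nat_lit 160)
(.leaf p068_l90)
(.leaf p068_l91))))))) (by decide +kernel)
noncomputable def p068_l92 : Lf2 := ⟨nat_lit 0, nat_lit 20, [nat_lit 5, nat_lit 5, nat_lit 5, nat_lit 20], false, nat_lit 0, nat_lit 80, nat_lit 0, nat_lit 300, ⟨nat_lit 290, nat_lit 710, nat_lit 0, nat_lit 7, nat_lit 224, nat_lit 710, nat_lit 26, nat_lit 0, nat_lit 0, nat_lit 0, nat_lit 0, nat_lit 0, nat_lit 0, nat_lit 0, nat_lit 0, nat_lit 5000000, false, false⟩,
 nat_lit 0, nat_lit 9448, nat_lit 0, nat_lit 0, nat_lit 6012, nat_lit 2446, nat_lit 365, nat_lit 0, nat_lit 0, nat_lit 339, nat_lit 0, nat_lit 0, nat_lit 0, nat_lit 0, nat_lit 0, nat_lit 710000, nat_lit 0, nat_lit 0, [(nat_lit 13, [(nat_lit 2, nat_lit 710)])],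
 ⟨p068_k1, nat_lit 0, nat_lit 0, nat_lit 534, nat_lit 0, nat_lit 551743, [nat_lit 2609772000, nat_lit 3221850001, nat_lit 1707072000], [], [nat_lit 22985657698, nat_lit 21775412283, nat_lit 23644813474, nat_lit 24110539875, nat_lit 18536908243, nat_lit 19566479227, nat_lit 26132570882, nat_lit 23397708657], nat_lit 1271250, nat_lit 1271250, nat_lit 780000, nat_lit 1762500, nat_lit 0, nat_lit 490000, [nat_lit 780000, nat_lit 1435000, nat_lit 1271250], [nat_lit 23, nat_lit 40, nat_lit 40, nat_lit 80, nat_lit 12, nat_lit 401, nat_lit 175, nat_lit 10]⟩, ⟨p068_k1, nat_lit 0, nat_lit 0, nat_lit 212, nat_lit 0, nat_lit 0, [nat_lit 951780000, nat_lit 1812500000, nat_lit 3442880000], [], [nat_lit 6868149797, nat_lit 7401049097, nat_lit 7543130333, nat_lit 7959185173, nat_lit 6483265911, nat_lit 6795873307, nat_lit 6934954794, nat_lit 7357048699], nat_lit 0, nat_lit 0, nat_lit 0, nat_lit 0, nat_lit 0, nat_lit 0, [], [nat_lit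 23, nat_lit 40, nat_lit 40, nat_lit 80, nat_lit 12, nat_lit 456, nat_lit 225, nat_lit 12]⟩,
 ⟨nat_lit 5000, nat_lit 5478, ⟨.ofNat (nat_lit 435548), .ofNat (nat_lit 660309), .ofNat (nat_lit 456895), .ofNat (nat_lit 681655), .ofNat (nat_lit 442843), .ofNat (nat_lit 657090), .ofNat (nat_lit 464262), .ofNat (nat_lit 678509)⟩, ⟨.negSucc (nat_lit 45522), .ofNat (nat_lit 104343), .negSucc (nat_lit 2832), .ofNat (nat_lit 147057), .negSucc (nat_lit 28572), .ofNat (nat_lit 114284), .ofNat (nat_lit 0), .ofNat (nat_lit 157141)⟩⟩, [⟨nat_lit 7, nat_lit 100, nat_lit 94, nat_lit 75, nat_lit 60148206⟩]⟩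
noncomputable def p068_l93 : Lf2 := ⟨nat_lit 0, nat_lit 20, [nat_lit 5, nat_lit 5, nat_lit 5, nat_lit 20], false, nat_lit 80, nat_lit 160, nat_lit 0, nat_lit 300, ⟨nat_lit 286, nat_lit 714, nat_lit 0, nat_lit 7, nat_lit 224, nat_lit 714, nat_lit 82, nat_lit 0, nat_lit 0, nat_lit 0, nat_lit 0, nat_lit 0, nat_lit 0, nat_lit 0, nat_lit 0, nat_lit 5000000, false, false⟩,
 nat_lit 0, nat_lit 10329, nat_lit 0, nat_lit 0, nat_lit 6573, nat_lit 2409, nat_lit 285, nat_lit 0, nat_lit 0, nat_lit 334, nat_lit 0, nat_lit 0, nat_lit 0, nat_lit 0, nat_lit 0, nat_lit 714000, nat_lit 0, nat_lit 0, [(nat_lit 13, [(nat_lit 2, nat_lit 714)])],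
 ⟨p068_k1, nat_lit 0, nat_lit 0, nat_lit 419, nat_lit 0, nat_lit 551743, [nat_lit 2605984801, nat_lit 3204790001, nat_lit 1649804800], [], [nat_lit 22030049786, nat_lit 18657719552, nat_lit 19228636563, nat_lit 20418740441, nat_lit 17055299837, nat_lit 17860327283, nat_lit 23545912506, nat_lit 20490111660], nat_lit 1271250, nat_lit 1271250, nat_lit 780000, nat_lit 1762500, nat_lit 490000, nat_lit 1100001, [nat_lit 780000, nat_lit 1435000, nat_lit 1271250], [nat_lit 23, nat_lit 40, nat_lit 40, nat_lit 80, nat_lit 12, nat_lit 401, nat_lit 175, nat_lit 10]⟩, ⟨p068_k1, nat_lit 0, nat_lit 0, nat_lit 212, nat_lit 0, nat_lit 0, [nat_lit 938652000, nat_lit 1787500000, nat_lit 3395392000], [], [nat_lit 6774953482, nat_lit 7300049900, nat_lit 7440899730, nat_lit 7850894634, nat_lit 6398450608, nat_lit 6706537525, nat_lit 6842194568, nat_lit 7254266795], nat_lit 0, nat_lit 0, nat_lit 0, nat_lit 0, nat_lit 0, nat_lit 0, [], [nat_lit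 23, nat_lit 40, nat_lit 40, nat_lit 80, nat_lit 12, nat_lit 456, nat_lit 225, nat_lit 12]⟩,
 ⟨nat_lit 5000, nat_lit 5478, ⟨.ofNat (nat_lit 435548), .ofNat (nat_lit 660309), .ofNat (nat_lit 456895), .ofNat (nat_lit 681655), .ofNat (nat_lit 442843), .ofNat (nat_lit 657090), .ofNat (nat_lit 464262), .ofNat (nat_lit 678509)⟩, ⟨.ofNat (nat_lit 104343), .ofNat (nat_lit 254209), .ofNat (nat_lit 147057), .ofNat (nat_lit 296923), .ofNat (nat_lit 114284), .ofNat (nat_lit 257141), .ofNat (nat_lit 157141), .ofNat (nat_lit 299999)⟩⟩, [⟨nat_lit 7, nat_lit 100, nat_lit 94, nat_lit 75, nat_lit 59244711⟩]⟩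
noncomputable def p068_l94 : Lf2 := ⟨nat_lit 0, nat_lit 20, [nat_lit 5, nat_lit 5, nat_lit 5, nat_lit 20], false, nat_lit 0, nat_lit 160, nat_lit 0, nat_lit 300, ⟨nat_lit 648, nat_lit 352, nat_lit 0, nat_lit 7, nat_lit 225, nat_lit 352, nat_lit 56, nat_lit 0, nat_lit 0, nat_lit 0, nat_lit 0, nat_lit 0, nat_lit 0, nat_lit 0, nat_lit 0, nat_lit 5000000, false, false⟩,
 nat_lit 0, nat_lit 7863, nat_lit 0, nat_lit 0, nat_lit 5443, nat_lit 5461, nat_lit 486, nat_lit 0, nat_lit 0, nat_lit 758, nat_lit 0, nat_lit 0, nat_lit 0, nat_lit 0, nat_lit 0, nat_lit 352000, nat_lit 0, nat_lit 0, [(nat_lit 16, [(nat_lit 2, nat_lit 352)])],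
 ⟨p068_k4, nat_lit 0, nat_lit 0, nat_lit 477, nat_lit 0, nat_lit 579024, [nat_lit 2872553600, nat_lit 4415939200, nat_lit 5449090134], [], [nat_lit 28321497398, nat_lit 26904200071, nat_lit 26667899958, nat_lit 27024394290, nat_lit 23098674646, nat_lit 23468069722, nat_lit 31215818712, nat_lit 29999308212], nat_lit 1271250, nat_lit 1271250, nat_lit 780000, nat_lit 1762500, nat_lit 0, nat_lit 1100001, [nat_lit 780000, nat_lit 1435000, nat_lit 1271250], [nat_lit 8, nat_lit 40, nat_lit 40, nat_lit 80, nat_lit 1, nat_lit 317, nat_lit 100, nat_lit 9]⟩, ⟨p068_k1, nat_lit 0, nat_lit 0, nat_lit 212, nat_lit 0, nat_lit 0, [nat_lit 2126736000, nat_lit 4050000000, nat_lit 7693056000], [], [nat_lit 15339677754, nat_lit 16529801548, nat_lit 16848294362, nat_lit 17777514154, nat_lit 14483941738, nat_lit 15187014100, nat_lit 15500069390, nat_lit 16437379785], nat_lit 0, nat_lit 0, nat_lit 0, nat_lit 0, nat_lit 0, nat_lit 0, [], [nat_lit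 23, nat_lit 40, nat_lit 40, nat_lit 80, nat_lit 12, nat_lit 456, nat_lit 225, nat_lit 12]⟩,
 ⟨nat_lit 4743, nat_lit 5000, ⟨.ofNat (nat_lit 442849), .ofNat (nat_lit 657129), .ofNat (nat_lit 464274), .ofNat (nat_lit 678555), .ofNat (nat_lit 446544), .ofNat (nat_lit 655639), .ofNat (nat_lit 468029), .ofNat (nat_lit 677124)⟩, ⟨.negSucc (nat_lit 28572), .ofNat (nat_lit 257141), .ofNat (nat_lit 0), .ofNat (nat_lit 299999), .negSucc (nat_lit 20404), .ofNat (nat_lit 258394), .ofNat (nat_lit 0), .ofNat (nat_lit 301370)⟩⟩, [⟨nat_lit 7, nat_lit 100, nat_lit 94, nat_lit 75, nat_lit 134287638⟩]⟩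
noncomputable def p068_l95 : Lf2 := ⟨nat_lit 0, nat_lit 20, [nat_lit 5, nat_lit 5, nat_lit 5, nat_lit 20], false, nat_lit 0, nat_lit 160, nat_lit 0, nat_lit 300, ⟨nat_lit 538, nat_lit 462, nat_lit 0, nat_lit 7, nat_lit 225, nat_lit 462, nat_lit 56, nat_lit 0, nat_lit 0, nat_lit 0, nat_lit 0, nat_lit 0, nat_lit 0, nat_lit 0, nat_lit 0, nat_lit 5000000, false, false⟩,
 nat_lit 0, nat_lit 7377, nat_lit 0, nat_lit 0, nat_lit 5318, nat_lit 4723, nat_lit 678, nat_lit 0, nat_lit 0, nat_lit 634, nat_lit 0, nat_lit 0, nat_lit 0, nat_lit 0, nat_lit 0, nat_lit 184800, nat_lit 0, nat_lit 0, [(nat_lit 16, [(nat_lit 1, nat_lit 462)])],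
 ⟨p068_k9, nat_lit 0, nat_lit 0, nat_lit 498, nat_lit 0, nat_lit 634917, [nat_lit 2699048401, nat_lit 4470868801, nat_lit 6297166400], [], [nat_lit 26423034849, nat_lit 25038286147, nat_lit 24881568409, nat_lit 25255421451, nat_lit 21650185611, nat_lit 22034637411, nat_lit 28141914215, nat_lit 26953341215], nat_lit 1271250, nat_lit 1271250, nat_lit 780000, nat_lit 1762500, nat_lit 0, nat_lit 1100001, [nat_lit 780000, nat_lit 1435000, nat_lit 1271250], [nat_lit 8, nat_lit 40, nat_lit 40, nat_lit 80, nat_lit 1, nat_lit 317, nat_lit 100, nat_lit 9]⟩, ⟨p068_k1, nat_lit 0, nat_lit 0, nat_lit 212, nat_lit 0, nat_lit 0, [nat_lit 1765716000, nat_lit 3362500000, nat_lit 6387136000], [], [nat_lit 12781988878, nat_lit 13796308452, nat_lit 14018532518, nat_lit 14808629230, nat_lit 11893493120, nat_lit 12485282866, nat_lit 12875453564, nat_lit 13722723948], nat_lit 0, nat_lit 0, nat_lit 0, nat_lit 0, nat_lit 0, nat_lit 0, [], [nat_lit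 23, nat_lit 40, nat_lit 40, nat_lit 80, nat_lit 12, nat_lit 456, nat_lit 225, nat_lit 12]⟩,
 ⟨nat_lit 4472, nat_lit 4744, ⟨.ofNat (nat_lit 446540), .ofNat (nat_lit 655638), .ofNat (nat_lit 468025), .ofNat (nat_lit 677123), .ofNat (nat_lit 450297), .ofNat (nat_lit 654230), .ofNat (nat_lit 471860), .ofNat (nat_lit 675793)⟩, ⟨.negSucc (nat_lit 20404), .ofNat (nat_lit 258394), .ofNat (nat_lit 0), .ofNat (nat_lit 301370), .negSucc (nat_lit 12423), .ofNat (nat_lit 259489), .ofNat (nat_lit 0), .ofNat (nat_lit 302621)⟩⟩, [⟨nat_lit 7, nat_lit 100, nat_lit 94, nat_lit 75, nat_lit 106767709⟩]⟩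
noncomputable def p068_l96 : Lf2 := ⟨nat_lit 0, nat_lit 20, [nat_lit 5, nat_lit 5, nat_lit 5, nat_lit 20], false, nat_lit 160, nat_lit 300, nat_lit 0, nat_lit 160, ⟨nat_lit 1000, nat_lit 0, nat_lit 0, nat_lit 0, nat_lit 0, nat_lit 0, nat_lit 0, nat_lit 0, nat_lit 0, nat_lit 0, nat_lit 0, nat_lit 0, nat_lit 0, nat_lit 0, nat_lit 0, nat_lit 0, false, false⟩,
 nat_lit 0, nat_lit 11826, nat_lit 0, nat_lit 0, nat_lit 7525, nat_lit 7802, nat_lit 1008, nat_lit 0, nat_lit 0, nat_lit 1583, nat_lit 0, nat_lit 0, nat_lit 0, nat_lit 22455093248914, nat_lit 0, nat_lit 0, nat_lit 0, nat_lit 0, [],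
 ⟨p068_k1, nat_lit 0, nat_lit 0, nat_lit 388, nat_lit 0, nat_lit 551743, [nat_lit 3282000000, nat_lit 6250000000, nat_lit 11872000000], [], [nat_lit 22235692200, nat_lit 22568247600, nat_lit 23155747800, nat_lit 23737113650, nat_lit 25295716850, nat_lit 26085301600, nat_lit 26378007025, nat_lit 27234675075], nat_lit 1271250, nat_lit 1271250, nat_lit 780000, nat_lit 1762500, nat_lit 1271250, nat_lit 1271250, [nat_lit 780000, nat_lit 1435000, nat_lit 1271250], [nat_lit 23, nat_lit 40, nat_lit 40, nat_lit 80, nat_lit 12, nat_lit 456, nat_lit 225, nat_lit 11]⟩, ⟨p068_k1, nat_lit 0, nat_lit 0, nat_lit 212, nat_lit 0, nat_lit 0, [nat_lit 3282000000, nat_lit 6250000000, nat_lit 11872000000], [], [nat_lit 19407649969, nat_lit 21157489429, nat_lit 23443650184, nat_lit 25380760996, nat_lit 14403894280, nat_lit 16467627672, nat_lit 18490875360, nat_lit 20102948836], nat_lit 0, nat_lit 0, nat_lit 0, nat_lit 0, nat_lit 0, nat_lit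 0, [], [nat_lit 23, nat_lit 40, nat_lit 40, nat_lit 80, nat_lit 12, nat_lit 401, nat_lit 175, nat_lit 10]⟩,
 zbF0, [⟨nat_lit 16, nat_lit 94, nat_lit 100, nat_lit 75, nat_lit 489569895⟩]⟩
noncomputable def p068_l97 : Lf2 := ⟨nat_lit 0, nat_lit 20, [nat_lit 5, nat_lit 5, nat_lit 5, nat_lit 20], false, nat_lit 160, nat_lit 300, nat_lit 160, nat_lit 300, ⟨nat_lit 1000, nat_lit 0, nat_lit 0, nat_lit 0, nat_lit 0, nat_lit 0, nat_lit 0, nat_lit 0, nat_lit 0, nat_lit 0, nat_lit 0, nat_lit 0, nat_lit 0, nat_lit 0, nat_lit 0, nat_lit 0, false, false⟩,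
 nat_lit 0, nat_lit 11978, nat_lit 0, nat_lit 0, nat_lit 7622, nat_lit 5790, nat_lit 1009, nat_lit 0, nat_lit 0, nat_lit 0, nat_lit 0, nat_lit 0, nat_lit 0, nat_lit 0, nat_lit 0, nat_lit 0, nat_lit 0, nat_lit 0, [],
 ⟨p068_k1, nat_lit 0, nat_lit 0, nat_lit 388, nat_lit 0, nat_lit 551743, [nat_lit 3282000000, nat_lit 6250000000, nat_lit 11872000000], [], [nat_lit 22179898576, nat_lit 22401530943, nat_lit 23019931504, nat_lit 23552576347, nat_lit 25128946843, nat_lit 25919973982, nat_lit 26187113062, nat_lit 27048474166], nat_lit 1271250, nat_lit 1271250, nat_lit 780000, nat_lit 1762500, nat_lit 1271250, nat_lit 1271250, [nat_lit 780000, nat_lit 1435000, nat_lit 1271250], [nat_lit 23, nat_lit 40, nat_lit 40, nat_lit 80, nat_lit 12, nat_lit 456, nat_lit 225, nat_lit 11]⟩, ⟨p068_k1, nat_lit 0, nat_lit 0, nat_lit 42, nat_lit 0, nat_lit 0, [nat_lit 3282000000, nat_lit 6250000000, nat_lit 11872000000], [], [nat_lit 11500087680,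 nat_lit 13477673560, nat_lit 16155896440, nat_lit 17901943320, nat_lit 20180269880, nat_lit 21748975695, nat_lit 23061704320, nat_lit 24310900035], nat_lit 0, nat_lit 0, nat_lit 0, nat_lit 0, nat_lit 0, nat_lit 0, [], [nat_lit 23, nat_lit 40, nat_lit 40, nat_lit 80, nat_lit 12, nat_lit 456, nat_lit 225, nat_lit 11]⟩,
 zbF0, [⟨nat_lit 4, nat_lit 100, nat_lit 94, nat_lit 75, nat_lit 489764922⟩, ⟨nat_lit 7, nat_lit 100, nat_lit 94, nat_lit 75, nat_lit 730579276⟩]⟩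
noncomputable def p068_l98 : Lf2 := ⟨nat_lit 0, nat_lit 20, [nat_lit 5, nat_lit 5, nat_lit 5, nat_lit 20], false, nat_lit 160, nat_lit 280, nat_lit 0, nat_lit 300, ⟨nat_lit 439, nat_lit 561, nat_lit 0, nat_lit 7, nat_lit 225, nat_lit 561, nat_lit 154, nat_lit 0, nat_lit 0, nat_lit 0, nat_lit 0, nat_lit 0, nat_lit 0, nat_lit 0, nat_lit 0, nat_lit 5000000, false, false⟩,
 nat_lit 0, nat_lit 8142, nat_lit 0, nat_lit 0, nat_lit 5636, nat_lit 3841, nat_lit 345, nat_lit 0, nat_lit 0, nat_lit 517, nat_lit 0, nat_lit 0, nat_lit 0, nat_lit 0, nat_lit 0, nat_lit 561000, nat_lit 0, nat_lit 0, [(nat_lit 16, [(nat_lit 2, nat_lit 561)])],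
 ⟨p068_k4, nat_lit 0, nat_lit 0, nat_lit 346, nat_lit 0, nat_lit 579024, [nat_lit 2629444801, nat_lit 3326965600, nat_lit 2907773600], [], [nat_lit 19125524602, nat_lit 18485813406, nat_lit 19989618551, nat_lit 20452306535, nat_lit 21316437014, nat_lit 21818452654, nat_lit 26576860667, nat_lit 25300627919], nat_lit 1271250, nat_lit 1271250, nat_lit 780000, nat_lit 1762500, nat_lit 1100001, nat_lit 2127500, [nat_lit 780000, nat_lit 1435000, nat_lit 1271250], [nat_lit 8, nat_lit 40, nat_lit 40, nat_lit 80, nat_lit 1, nat_lit 373, nat_lit 150, nat_lit 10]⟩, ⟨p068_k1, nat_lit 0, nat_lit 0, nat_lit 212, nat_lit 0, nat_lit 0, [nat_lit 1440798000, nat_lit 2743750000, nat_lit 5211808000], [], [nat_lit 10426906543, nat_lit 11252786925, nat_lit 11436998195, nat_lit 12080435191, nat_lit 9714054542, nat_lit 10196121188, nat_lit 10502422718, nat_lit 11192377431], nat_lit 0, nat_lit 0, nat_lit 0, nat_lit 0, nat_lit 0, nat_lit 0,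 [], [nat_lit 23, nat_lit 40, nat_lit 40, nat_lit 80, nat_lit 12, nat_lit 456, nat_lit 225, nat_lit 12]⟩,
 ⟨nat_lit 4743, nat_lit 5000, ⟨.ofNat (nat_lit 442849), .ofNat (nat_lit 657129), .ofNat (nat_lit 464274), .ofNat (nat_lit 678555), .ofNat (nat_lit 446544), .ofNat (nat_lit 655639), .ofNat (nat_lit 468029), .ofNat (nat_lit 677124)⟩, ⟨.ofNat (nat_lit 257141), .ofNat (nat_lit 471427), .ofNat (nat_lit 299999), .ofNat (nat_lit 514284), .ofNat (nat_lit 258394), .ofNat (nat_lit 467493), .ofNat (nat_lit 301370), .ofNat (nat_lit 510469)⟩⟩, [⟨nat_lit 4, nat_lit 100, nat_lit 88, nat_lit 74, nat_lit 428990319⟩, ⟨nat_lit 19, nat_lit 94, nat_lit 100, nat_lit 75, nat_lit 87447282⟩]⟩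
noncomputable def p068_l99 : Lf2 := ⟨nat_lit 0, nat_lit 20, [nat_lit 5, nat_lit 5, nat_lit 5, nat_lit 20], false, nat_lit 160, nat_lit 268, nat_lit 0, nat_lit 300, ⟨nat_lit 357, nat_lit 643, nat_lit 0, nat_lit 7, nat_lit 225, nat_lit 643, nat_lit 149, nat_lit 0, nat_lit 0, nat_lit 0, nat_lit 0, nat_lit 0, nat_lit 0, nat_lit 0, nat_lit 0, nat_lit 5000000, false, false⟩,
 nat_lit 0, nat_lit 7230, nat_lit 0, nat_lit 0, nat_lit 5212, nat_lit 3139, nat_lit 793, nat_lit 0, nat_lit 0, nat_lit 422, nat_lit 0, nat_lit 0, nat_lit 0, nat_lit 0, nat_lit 0, nat_lit 257200, nat_lit 0, nat_lit 0, [(nat_lit 16, [(nat_lit 1, nat_lit 643)])],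
 ⟨p068_k9, nat_lit 0, nat_lit 0, nat_lit 369, nat_lit 0, nat_lit 634917, [nat_lit 2470662600, nat_lit 3773849867, nat_lit 4912207778], [], [nat_lit 17932349052, nat_lit 18212700014, nat_lit 19705569822, nat_lit 20158478442, nat_lit 20414973592, nat_lit 20869548859, nat_lit 24485606436, nat_lit 23604471811], nat_lit 1271250, nat_lit 1271250, nat_lit 780000, nat_lit 1762500, nat_lit 1100001, nat_lit 2024750, [nat_lit 780000, nat_lit 1435000, nat_lit 1271250], [nat_lit 8, nat_lit 40, nat_lit 40, nat_lit 80, nat_lit 1, nat_lit 373, nat_lit 150, nat_lit 10]⟩, ⟨p068_k1, nat_lit 0, nat_lit 0, nat_lit 212, nat_lit 0, nat_lit 0, [nat_lit 1171674000, nat_lit 2231250000, nat_lit 4238304000], [], [nat_lit 8471678166, nat_lit 9145437712, nat_lit 9291790178, nat_lit 9816562606, nat_lit 7877424307, nat_lit 8282382203, nat_lit 8545194682, nat_lit 9107957796], nat_lit 0, nat_lit 0, nat_lit 0, nat_lit 0, nat_lit 0, nat_lit 0, [], [nat_lit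 23, nat_lit 40, nat_lit 40, nat_lit 80, nat_lit 12, nat_lit 456, nat_lit 225, nat_lit 12]⟩,
 ⟨nat_lit 4472, nat_lit 4744, ⟨.ofNat (nat_lit 446540), .ofNat (nat_lit 655638), .ofNat (nat_lit 468025), .ofNat (nat_lit 677123), .ofNat (nat_lit 450297), .ofNat (nat_lit 654230), .ofNat (nat_lit 471860), .ofNat (nat_lit 675793)⟩, ⟨.ofNat (nat_lit 258394), .ofNat (nat_lit 446583), .ofNat (nat_lit 301370), .ofNat (nat_lit 489559), .ofNat (nat_lit 259489), .ofNat (nat_lit 443030), .ofNat (nat_lit 302621), .ofNat (nat_lit 486162)⟩⟩, [⟨nat_lit 4, nat_lit 100, nat_lit 83, nat_lit 73, nat_lit 422295367⟩, ⟨nat_lit 7, nat_lit 100, nat_lit 94, nat_lit 75, nat_lit 70960676⟩]⟩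
noncomputable def p068_l100 : Lf2 := ⟨nat_lit 0, nat_lit 20, [nat_lit 5, nat_lit 5, nat_lit 5, nat_lit 20], false, nat_lit 0, nat_lit 300, nat_lit 0, nat_lit 160, ⟨nat_lit 1000, nat_lit 0, nat_lit 0, nat_lit 0, nat_lit 0, nat_lit 0, nat_lit 0, nat_lit 0, nat_lit 0, nat_lit 0, nat_lit 0, nat_lit 0, nat_lit 0, nat_lit 0, nat_lit 0, nat_lit 0, false, false⟩,
 nat_lit 0, nat_lit 10720, nat_lit 0, nat_lit 0, nat_lit 6821, nat_lit 6721, nat_lit 815, nat_lit 0, nat_lit 0, nat_lit 1046, nat_lit 0, nat_lit 0, nat_lit 0, nat_lit 0, nat_lit 0, nat_lit 0, nat_lit 0, nat_lit 0, [],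
 ⟨p068_k1, nat_lit 0, nat_lit 0, nat_lit 502, nat_lit 0, nat_lit 551743, [nat_lit 3282000000, nat_lit 6250000000, nat_lit 11872000000], [], [nat_lit 32620852193, nat_lit 33395263299, nat_lit 38587550437, nat_lit 39152980050, nat_lit 30512135028, nat_lit 30965201337, nat_lit 35218866861, nat_lit 35582162768], nat_lit 1271250, nat_lit 1271250, nat_lit 1271250, nat_lit 1271250, nat_lit 0, nat_lit 2118750, [nat_lit 780000, nat_lit 1435000, nat_lit 1271250], [nat_lit 23, nat_lit 40, nat_lit 40, nat_lit 80, nat_lit 12, nat_lit 483, nat_lit 250, nat_lit 12]⟩, ⟨p068_k1, nat_lit 0, nat_lit 0, nat_lit 240, nat_lit 0, nat_lit 0, [nat_lit 3282000000, nat_lit 6250000000, nat_lit 11872000000], [], [nat_lit 28311819238, nat_lit 29304424368, nat_lit 37605188136, nat_lit 38841417106, nat_lit 23990079446, nat_lit 24825029336, nat_lit 32294655288, nat_lit 32976525880], nat_lit 0, nat_lit 0, nat_lit 0, nat_lit 0, nat_lit 0, nat_lit 0,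 [], [nat_lit 23, nat_lit 40, nat_lit 40, nat_lit 80, nat_lit 12, nat_lit 456, nat_lit 225, nat_lit 11]⟩,
 zbF0, [⟨nat_lit 16, nat_lit 94, nat_lit 100, nat_lit 75, nat_lit 171773528⟩]⟩
noncomputable def p068_l101 : Lf2 := ⟨nat_lit 0, nat_lit 20, [nat_lit 5, nat_lit 5, nat_lit 5, nat_lit 20], false, nat_lit 0, nat_lit 280, nat_lit 0, nat_lit 160, ⟨nat_lit 1000, nat_lit 0, nat_lit 0, nat_lit 0, nat_lit 0, nat_lit 0, nat_lit 0, nat_lit 0, nat_lit 0, nat_lit 0, nat_lit 0, nat_lit 0, nat_lit 0, nat_lit 0, nat_lit 0, nat_lit 0, false, false⟩,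
 nat_lit 0, nat_lit 8945, nat_lit 0, nat_lit 0, nat_lit 6192, nat_lit 6916, nat_lit 772, nat_lit 0, nat_lit 0, nat_lit 1050, nat_lit 0, nat_lit 0, nat_lit 0, nat_lit 0, nat_lit 0, nat_lit 0, nat_lit 0, nat_lit 0, [],
 ⟨p068_k4, nat_lit 0, nat_lit 0, nat_lit 487, nat_lit 0, nat_lit 672041, [nat_lit 3282000000, nat_lit 6250000000, nat_lit 9842000000], [], [nat_lit 31660982988, nat_lit 32234900556, nat_lit 37409315712, nat_lit 38597633152, nat_lit 29993013992, nat_lit 30429159936, nat_lit 33277822424, nat_lit 33828078608], nat_lit 1271250, nat_lit 1271250, nat_lit 1271250, nat_lit 1271250, nat_lit 0, nat_lit 1977500, [nat_lit 780000, nat_lit 1435000, nat_lit 1271250], [nat_lit 8, nat_lit 40, nat_lit 40, nat_lit 80, nat_lit 1, nat_lit 401, nat_lit 175, nat_lit 11]⟩, ⟨p068_k1, nat_lit 0, nat_lit 0, nat_lit 240, nat_lit 0, nat_lit 0, [nat_lit 3282000000, nat_lit 6250000000, nat_lit 11872000000], [], [nat_lit 28114498198,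 nat_lit 29120271678, nat_lit 38115428256, nat_lit 39369318376, nat_lit 23590279766, nat_lit 24432683966, nat_lit 32009005248, nat_lit 32696950480], nat_lit 0, nat_lit 0, nat_lit 0, nat_lit 0, nat_lit 0, nat_lit 0, [], [nat_lit 23, nat_lit 40, nat_lit 40, nat_lit 80, nat_lit 12, nat_lit 456, nat_lit 225, nat_lit 11]⟩,
 zbF0, [⟨nat_lit 4, nat_lit 100, nat_lit 85, nat_lit 73, nat_lit 145961496⟩]⟩
noncomputable def p068_l102 : Lf2 := ⟨nat_lit 0, nat_lit 20, [nat_lit 5, nat_lit 5, nat_lit 5, nat_lit 20], false, nat_lit 0, nat_lit 300, nat_lit 160, nat_lit 300, ⟨nat_lit 1000, nat_lit 0, nat_lit 0, nat_lit 0, nat_lit 0, nat_lit 0, nat_lit 0, nat_lit 0, nat_lit 0, nat_lit 0, nat_lit 0, nat_lit 0, nat_lit 0, nat_lit 0, nat_lit 0, nat_lit 0, false, false⟩,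
 nat_lit 0, nat_lit 10720, nat_lit 0, nat_lit 0, nat_lit 6821, nat_lit 7044, nat_lit 815, nat_lit 0, nat_lit 0, nat_lit 0, nat_lit 0, nat_lit 0, nat_lit 0, nat_lit 0, nat_lit 0, nat_lit 0, nat_lit 0, nat_lit 0, [],
 ⟨p068_k1, nat_lit 0, nat_lit 0, nat_lit 502, nat_lit 0, nat_lit 551743, [nat_lit 3282000000, nat_lit 6250000000, nat_lit 11872000000], [], [nat_lit 32620852193, nat_lit 33395263299, nat_lit 38587550437, nat_lit 39152980050, nat_lit 30512135028, nat_lit 30965201337, nat_lit 35218866861, nat_lit 35582162768], nat_lit 1271250, nat_lit 1271250, nat_lit 1271250, nat_lit 1271250, nat_lit 0, nat_lit 2118750, [nat_lit 780000, nat_lit 1435000, nat_lit 1271250], [nat_lit 23, nat_lit 40, nat_lit 40, nat_lit 80, nat_lit 12, nat_lit 483, nat_lit 250, nat_lit 12]⟩, ⟨p068_k1, nat_lit 0, nat_lit 0, nat_lit 86, nat_lit 0, nat_lit 0, [nat_lit 3282000000, nat_lit 6250000000, nat_lit 11872000000], [], [nat_lit 19384041920,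 nat_lit 20900199592, nat_lit 30755070816, nat_lit 31641121984, nat_lit 25147365296, nat_lit 26227351286, nat_lit 33878470516, nat_lit 34663118554], nat_lit 0, nat_lit 0, nat_lit 0, nat_lit 0, nat_lit 0, nat_lit 0, [], [nat_lit 23, nat_lit 40, nat_lit 40, nat_lit 80, nat_lit 12, nat_lit 483, nat_lit 250, nat_lit 11]⟩,
 zbF0, [⟨nat_lit 4, nat_lit 100, nat_lit 94, nat_lit 75, nat_lit 171773528⟩, ⟨nat_lit 7, nat_lit 100, nat_lit 94, nat_lit 75, nat_lit 509968983⟩]⟩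
noncomputable def p068_l103 : Lf2 := ⟨nat_lit 0, nat_lit 20, [nat_lit 5, nat_lit 5, nat_lit 5, nat_lit 20], false, nat_lit 0, nat_lit 280, nat_lit 160, nat_lit 300, ⟨nat_lit 1000, nat_lit 0, nat_lit 0, nat_lit 0, nat_lit 0, nat_lit 0, nat_lit 0, nat_lit 0, nat_lit 0, nat_lit 0, nat_lit 0, nat_lit 0, nat_lit 0, nat_lit 0, nat_lit 0, nat_lit 0, false, false⟩,
 nat_lit 0, nat_lit 8057, nat_lit 0, nat_lit 0, nat_lit 5577, nat_lit 7044, nat_lit 1198, nat_lit 0, nat_lit 0, nat_lit 0, nat_lit 0, nat_lit 0, nat_lit 0, nat_lit 0, nat_lit 0, nat_lit 0, nat_lit 0, nat_lit 0, [],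
 ⟨p068_k4, nat_lit 0, nat_lit 0, nat_lit 487, nat_lit 0, nat_lit 672041, [nat_lit 3282000000, nat_lit 6250000000, nat_lit 9842000000], [], [nat_lit 30293312402, nat_lit 30959562800, nat_lit 35744396322, nat_lit 36877013212, nat_lit 29642033627, nat_lit 30073685766, nat_lit 32859469275, nat_lit 33124823886], nat_lit 1271250, nat_lit 1271250, nat_lit 1271250, nat_lit 1271250, nat_lit 0, nat_lit 1977500, [nat_lit 780000, nat_lit 1435000, nat_lit 1271250], [nat_lit 8, nat_lit 40, nat_lit 40, nat_lit 80, nat_lit 1, nat_lit 401, nat_lit 175, nat_lit 11]⟩, ⟨p068_k1, nat_lit 0, nat_lit 0, nat_lit 86, nat_lit 0, nat_lit 0, [nat_lit 3282000000, nat_lit 6250000000, nat_lit 11872000000], [], [nat_lit 19384041920, nat_lit 20900199592, nat_lit 30755070816, nat_lit 31641121984, nat_lit 25147365296, nat_lit 26227351286, nat_lit 33878470516, nat_lit 34663118554], nat_lit 0, nat_lit 0, nat_lit 0, nat_lit 0, nat_lit 0, nat_lit 0, [],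 [nat_lit 23, nat_lit 40, nat_lit 40, nat_lit 80, nat_lit 12, nat_lit 483, nat_lit 250, nat_lit 11]⟩,
 zbF0, [⟨nat_lit 4, nat_lit 100, nat_lit 85, nat_lit 73, nat_lit 175084417⟩, ⟨nat_lit 7, nat_lit 100, nat_lit 94, nat_lit 75, nat_lit 574187591⟩]⟩
noncomputable def p068_l104 : Lf2 := ⟨nat_lit 0, nat_lit 20, [nat_lit 5, nat_lit 5, nat_lit 5, nat_lit 20], false, nat_lit 0, nat_lit 160, nat_lit 0, nat_lit 160, ⟨nat_lit 1000, nat_lit 0, nat_lit 0, nat_lit 0, nat_lit 0, nat_lit 0, nat_lit 0, nat_lit 0, nat_lit 0, nat_lit 0, nat_lit 0, nat_lit 0, nat_lit 0, nat_lit 0, nat_lit 0, nat_lit 0, false, false⟩,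
 nat_lit 0, nat_lit 8823, nat_lit 0, nat_lit 0, nat_lit 6108, nat_lit 6525, nat_lit 851, nat_lit 0, nat_lit 0, nat_lit 969, nat_lit 0, nat_lit 0, nat_lit 0, nat_lit 6654509213640, nat_lit 0, nat_lit 0, nat_lit 0, nat_lit 0, [],
 ⟨p068_k4, nat_lit 0, nat_lit 0, nat_lit 511, nat_lit 0, nat_lit 673969, [nat_lit 3282000000, nat_lit 6250000000, nat_lit 9842000000], [], [nat_lit 33990535641, nat_lit 32375769789, nat_lit 37181912088, nat_lit 37772266868, nat_lit 27393545913, nat_lit 27689913725, nat_lit 39435204025, nat_lit 38104142557], nat_lit 1271250, nat_lit 1271250, nat_lit 780000, nat_lit 3072500, nat_lit 0, nat_lit 1100001, [nat_lit 780000, nat_lit 1435000, nat_lit 1271250], [nat_lit 8, nat_lit 40, nat_lit 40, nat_lit 80, nat_lit 1, nat_lit 373, nat_lit 150, nat_lit 11]⟩, ⟨p068_k4, nat_lit 0, nat_lit 0, nat_lit 218, nat_lit 0, nat_lit 0, [nat_lit 3282000000, nat_lit 6250000000, nat_lit 9842000000], [], [nat_lit 22407064900,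 nat_lit 23302689975, nat_lit 38310808650, nat_lit 38920047275, nat_lit 18226826050, nat_lit 18979523900, nat_lit 31025634400, nat_lit 31562590500], nat_lit 0, nat_lit 0, nat_lit 0, nat_lit 0, nat_lit 0, nat_lit 0, [], [nat_lit 8, nat_lit 40, nat_lit 40, nat_lit 80, nat_lit 1, nat_lit 373, nat_lit 150, nat_lit 11]⟩,
 zbF0, []⟩
noncomputable def p068_l105 : Lf2 := ⟨nat_lit 0, nat_lit 20, [nat_lit 5, nat_lit 5, nat_lit 5, nat_lit 20], false, nat_lit 0, nat_lit 160, nat_lit 0, nat_lit 160, ⟨nat_lit 1000, nat_lit 0, nat_lit 0, nat_lit 0, nat_lit 0, nat_lit 0, nat_lit 0, nat_lit 0, nat_lit 0, nat_lit 0, nat_lit 0, nat_lit 0, nat_lit 0, nat_lit 0, nat_lit 0, nat_lit 0, false, false⟩,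
 nat_lit 0, nat_lit 8335, nat_lit 0, nat_lit 0, nat_lit 6008, nat_lit 6877, nat_lit 866, nat_lit 0, nat_lit 0, nat_lit 870, nat_lit 0, nat_lit 0, nat_lit 0, nat_lit 34608369453296, nat_lit 0, nat_lit 0, nat_lit 0, nat_lit 0, [],
 ⟨p068_k9, nat_lit 0, nat_lit 0, nat_lit 596, nat_lit 0, nat_lit 814456, [nat_lit 3282000000, nat_lit 6250000000, nat_lit 9842000000], [], [nat_lit 31462274614, nat_lit 29873945662, nat_lit 37497019768, nat_lit 38082846048, nat_lit 24898508950, nat_lit 25196563902, nat_lit 37344357782, nat_lit 36035088414], nat_lit 1271250, nat_lit 1271250, nat_lit 780000, nat_lit 3072500, nat_lit 0, nat_lit 1100001, [nat_lit 780000, nat_lit 1435000, nat_lit 1271250], [nat_lit 8, nat_lit 40, nat_lit 40, nat_lit 80, nat_lit 1, nat_lit 373, nat_lit 150, nat_lit 11]⟩, ⟨p068_k4, nat_lit 0, nat_lit 0, nat_lit 219, nat_lit 0, nat_lit 0, [nat_lit 3282000000, nat_lit 6250000000, nat_lit 9842000000], [], [nat_lit 24279005742,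 nat_lit 25713709502, nat_lit 39263738122, nat_lit 40514096012, nat_lit 20387492534, nat_lit 21583004438, nat_lit 31442830432, nat_lit 32543328488], nat_lit 0, nat_lit 0, nat_lit 0, nat_lit 0, nat_lit 0, nat_lit 0, [], [nat_lit 8, nat_lit 40, nat_lit 40, nat_lit 80, nat_lit 1, nat_lit 373, nat_lit 150, nat_lit 11]⟩,
 zbF0, []⟩
noncomputable def p068_l106 : Lf2 := ⟨nat_lit 0, nat_lit 20, [nat_lit 5, nat_lit 5, nat_lit 5, nat_lit 20], false, nat_lit 160, nat_lit 280, nat_lit 0, nat_lit 160, ⟨nat_lit 1000, nat_lit 0, nat_lit 0, nat_lit 0, nat_lit 0, nat_lit 0, nat_lit 0, nat_lit 0, nat_lit 0, nat_lit 0, nat_lit 0, nat_lit 0, nat_lit 0, nat_lit 0, nat_lit 0, nat_lit 0, false, false⟩,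
 nat_lit 0, nat_lit 9665, nat_lit 0, nat_lit 0, nat_lit 6691, nat_lit 6066, nat_lit 950, nat_lit 0, nat_lit 0, nat_lit 1087, nat_lit 0, nat_lit 0, nat_lit 0, nat_lit 9653457585224, nat_lit 0, nat_lit 0, nat_lit 0, nat_lit 0, [],
 ⟨p068_k4, nat_lit 0, nat_lit 0, nat_lit 414, nat_lit 0, nat_lit 673969, [nat_lit 3282000000, nat_lit 6250000000, nat_lit 9842000000], [], [nat_lit 21742406144, nat_lit 22143297277, nat_lit 34727915858, nat_lit 33213046694, nat_lit 24441597822, nat_lit 24841636721, nat_lit 33581461491, nat_lit 33991825788], nat_lit 1271250, nat_lit 1271250, nat_lit 780000, nat_lit 3072500, nat_lit 1271250, nat_lit 1271250, [nat_lit 780000, nat_lit 1435000, nat_lit 1271250], [nat_lit 8, nat_lit 40, nat_lit 40, nat_lit 80, nat_lit 1, nat_lit 401, nat_lit 175, nat_lit 11]⟩, ⟨p068_k4, nat_lit 0, nat_lit 0, nat_lit 218, nat_lit 0, nat_lit 0, [nat_lit 3282000000, nat_lit 6250000000, nat_lit 9842000000], [], [nat_lit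 21319132026, nat_lit 22176502664, nat_lit 37068210276, nat_lit 37656663086, nat_lit 17680579293, nat_lit 18370291306, nat_lit 30481620256, nat_lit 31001242680], nat_lit 0, nat_lit 0, nat_lit 0, nat_lit 0, nat_lit 0, nat_lit 0, [], [nat_lit 8, nat_lit 40, nat_lit 40, nat_lit 80, nat_lit 1, nat_lit 373, nat_lit 150, nat_lit 11]⟩,
 zbF0, [⟨nat_lit 4, nat_lit 100, nat_lit 88, nat_lit 74, nat_lit 502435677⟩]⟩
noncomputable def p068_l107 : Lf2 := ⟨nat_lit 0, nat_lit 20, [nat_lit 5, nat_lit 5, nat_lit 5, nat_lit 20], false, nat_lit 160, nat_lit 268, nat_lit 0, nat_lit 160, ⟨nat_lit 1000, nat_lit 0, nat_lit 0, nat_lit 0, nat_lit 0, nat_lit 0, nat_lit 0, nat_lit 0, nat_lit 0, nat_lit 0, nat_lit 0, nat_lit 0, nat_lit 0, nat_lit 0, nat_lit 0, nat_lit 0, false, false⟩,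
 nat_lit 0, nat_lit 8875, nat_lit 0, nat_lit 0, nat_lit 6398, nat_lit 6360, nat_lit 1273, nat_lit 0, nat_lit 0, nat_lit 605, nat_lit 0, nat_lit 0, nat_lit 0, nat_lit 35248230806026, nat_lit 0, nat_lit 0, nat_lit 0, nat_lit 0, [],
 ⟨p068_k9, nat_lit 0, nat_lit 0, nat_lit 475, nat_lit 0, nat_lit 814456, [nat_lit 3282000000, nat_lit 6250000000, nat_lit 9842000000], [], [nat_lit 20619786781, nat_lit 18953817959, nat_lit 31407272040, nat_lit 31939432112, nat_lit 20853184078, nat_lit 21389097744, nat_lit 38577730263, nat_lit 37178035005], nat_lit 1271250, nat_lit 1271250, nat_lit 780000, nat_lit 3072500, nat_lit 1100001, nat_lit 2024750, [nat_lit 780000, nat_lit 1435000, nat_lit 1271250], [nat_lit 8, nat_lit 40, nat_lit 40, nat_lit 80, nat_lit 1, nat_lit 401, nat_lit 175, nat_lit 11]⟩, ⟨p068_k4, nat_lit 0, nat_lit 0, nat_lit 219, nat_lit 0, nat_lit 0, [nat_lit 3282000000, nat_lit 6250000000, nat_lit 9842000000], [], [nat_lit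 27316055185, nat_lit 28689297985, nat_lit 38047360690, nat_lit 39067656160, nat_lit 24064067905, nat_lit 25082594945, nat_lit 32386411425, nat_lit 32936914305], nat_lit 0, nat_lit 0, nat_lit 0, nat_lit 0, nat_lit 0, nat_lit 0, [], [nat_lit 8, nat_lit 40, nat_lit 40, nat_lit 80, nat_lit 1, nat_lit 373, nat_lit 150, nat_lit 11]⟩,
 zbF0, [⟨nat_lit 4, nat_lit 100, nat_lit 83, nat_lit 73, nat_lit 535636108⟩]⟩
noncomputable def p068_l108 : Lf2 := ⟨nat_lit 0, nat_lit 20, [nat_lit 5, nat_lit 5, nat_lit 5, nat_lit 20], false, nat_lit 0, nat_lit 280, nat_lit 160, nat_lit 280, ⟨nat_lit 1000, nat_lit 0, nat_lit 0, nat_lit 0, nat_lit 0, nat_lit 0, nat_lit 0, nat_lit 0, nat_lit 0, nat_lit 0, nat_lit 0, nat_lit 0, nat_lit 0, nat_lit 0, nat_lit 0, nat_lit 0, false, false⟩,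
 nat_lit 0, nat_lit 9421, nat_lit 0, nat_lit 0, nat_lit 6522, nat_lit 5549, nat_lit 1553, nat_lit 0, nat_lit 0, nat_lit 0, nat_lit 0, nat_lit 0, nat_lit 0, nat_lit 20680503359656, nat_lit 0, nat_lit 0, nat_lit 0, nat_lit 0, [],
 ⟨p068_k4, nat_lit 0, nat_lit 0, nat_lit 613, nat_lit 0, nat_lit 862286, [nat_lit 3282000000, nat_lit 6250000000, nat_lit 9842000000], [], [nat_lit 33066514119, nat_lit 29618084883, nat_lit 24474120672, nat_lit 25183222560, nat_lit 22619809754, nat_lit 23107786548, nat_lit 31908502082, nat_lit 29065490540], nat_lit 1271250, nat_lit 1271250, nat_lit 780000, nat_lit 1762500, nat_lit 0, nat_lit 1977500, [nat_lit 780000, nat_lit 1435000, nat_lit 1271250], [nat_lit 8, nat_lit 40, nat_lit 40, nat_lit 80, nat_lit 1, nat_lit 373, nat_lit 150, nat_lit 11]⟩, ⟨p068_k4, nat_lit 0, nat_lit 0, nat_lit 44, nat_lit 0, nat_lit 0, [nat_lit 3282000000, nat_lit 6250000000, nat_lit 9842000000], [], [nat_lit 13752518636,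 nat_lit 15678971064, nat_lit 17907918368, nat_lit 19606398420, nat_lit 20195806611, nat_lit 21822409094, nat_lit 23074989225, nat_lit 24370353138], nat_lit 0, nat_lit 0, nat_lit 0, nat_lit 0, nat_lit 0, nat_lit 0, [], [nat_lit 8, nat_lit 40, nat_lit 40, nat_lit 80, nat_lit 1, nat_lit 373, nat_lit 150, nat_lit 10]⟩,
 zbF0, [⟨nat_lit 0, nat_lit 83, nat_lit 83, nat_lit 100, nat_lit 111354062⟩, ⟨nat_lit 4, nat_lit 100, nat_lit 85, nat_lit 73, nat_lit 95783975⟩, ⟨nat_lit 7, nat_lit 100, nat_lit 85, nat_lit 73, nat_lit 758627173⟩]⟩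
noncomputable def p068_l109 : Lf2 := ⟨nat_lit 0, nat_lit 20, [nat_lit 5, nat_lit 5, nat_lit 5, nat_lit 20], false, nat_lit 0, nat_lit 280, nat_lit 160, nat_lit 280, ⟨nat_lit 1000, nat_lit 0, nat_lit 0, nat_lit 0, nat_lit 0, nat_lit 0, nat_lit 0, nat_lit 0, nat_lit 0, nat_lit 0, nat_lit 0, nat_lit 0, nat_lit 0, nat_lit 0, nat_lit 0, nat_lit 0, false, false⟩,
 nat_lit 0, nat_lit 7648, nat_lit 0, nat_lit 0, nat_lit 5294, nat_lit 6882, nat_lit 1362, nat_lit 0, nat_lit 0, nat_lit 0, nat_lit 0, nat_lit 0, nat_lit 0, nat_lit 0, nat_lit 0, nat_lit 0, nat_lit 0, nat_lit 0, [],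
 ⟨p068_k4, nat_lit 0, nat_lit 0, nat_lit 580, nat_lit 0, nat_lit 862286, [nat_lit 3282000000, nat_lit 6250000000, nat_lit 9842000000], [], [nat_lit 31403973844, nat_lit 31985851992, nat_lit 35710388928, nat_lit 36086759768, nat_lit 30899328880, nat_lit 31279347780, nat_lit 34335021434, nat_lit 34659542770], nat_lit 1271250, nat_lit 1271250, nat_lit 1271250, nat_lit 1271250, nat_lit 0, nat_lit 1977500, [nat_lit 780000, nat_lit 1435000, nat_lit 1271250], [nat_lit 8, nat_lit 40, nat_lit 40, nat_lit 80, nat_lit 1, nat_lit 401, nat_lit 175, nat_lit 11]⟩, ⟨p068_k4, nat_lit 0, nat_lit 0, nat_lit 90, nat_lit 0, nat_lit 0, [nat_lit 3282000000, nat_lit 6250000000, nat_lit 9842000000], [], [nat_lit 21070588276, nat_lit 22566246792, nat_lit 31673256952, nat_lit 32550953456, nat_lit 25373940710, nat_lit 26506046940, nat_lit 33792860482, nat_lit 34621940168], nat_lit 0, nat_lit 0, nat_lit 0, nat_lit 0, nat_lit 0, nat_lit 0, [],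 [nat_lit 8, nat_lit 40, nat_lit 40, nat_lit 80, nat_lit 1, nat_lit 401, nat_lit 175, nat_lit 10]⟩,
 zbF0, [⟨nat_lit 4, nat_lit 100, nat_lit 85, nat_lit 73, nat_lit 242113335⟩, ⟨nat_lit 7, nat_lit 100, nat_lit 85, nat_lit 73, nat_lit 610658338⟩]⟩
noncomputable def b_V_700_700_10_38 : St := ⟨true, nat_lit 1, nat_lit 0, nat_lit 2, nat_lit 80, nat_lit 280, nat_lit 320, nat_lit 280, nat_lit 320, nat_lit 120, nat_lit 400, nat_lit 40, nat_lit 80, nat_lit 0, nat_lit 300, nat_lit 0, nat_lit 300, nat_lit 40, nat_lit 80, nat_lit 0, nat_lit 0, nat_lit 0, nat_lit 0⟩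
theorem d_V_700_700_10_38 (h : EB TB.env) : Dead b_V_700_700_10_38 := chkB_sound0 h (T :=
(.spl (nat_lit 1) (nat_lit 300)
(.spl (nat_lit 2) (nat_lit 240)
(.spl (nat_lit 4) (nat_lit 160)
(.spl (nat_lit 0) (nat_lit 300)
(.spl (nat_lit 4) (nat_lit 80)
(.leaf p068_l92)
(.leaf p068_l93))
(.spl (nat_lit 0) (nat_lit 310)
(.leaf p068_l94)
(.leaf p068_l95)))
(.spl (nat_lit 0) (nat_lit 300)
(.spl (nat_lit 5) (nat_lit 160)
(.leaf p068_l96)
(.leaf p068_l97))
(.trX (nat_lit 16) (nat_lit 94) (nat_lit 100) (nat_lit 87) (nat_lit 280) (.spl (nat_lit 0) (nat_lit 310)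
(.leaf p068_l98)
(.trX (nat_lit 16) (nat_lit 89) (nat_lit 100) (nat_lit 85) (nat_lit 268) (.leaf p068_l99))))))
(.spl (nat_lit 5) (nat_lit 160)
(.spl (nat_lit 0) (nat_lit 300)
(.leaf p068_l100)
(.trX (nat_lit 16) (nat_lit 94) (nat_lit 100) (nat_lit 87) (nat_lit 280) (.leaf p068_l101)))
(.spl (nat_lit 0) (nat_lit 300)
(.leaf p068_l102)
(.trX (nat_lit 16) (nat_lit 94) (nat_lit 100) (nat_lit 87) (nat_lit 280) (.leaf p068_l103)))))
(.ord (.trX (nat_lit 16) (nat_lit 94) (nat_lit 100) (nat_lit 87) (nat_lit 280) (.trX (nat_lit 19) (nat_lit 94) (nat_lit 100) (nat_lit 87) (nat_lit 280) (.spl (nat_lit 5) (nat_lit 160)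
(.spl (nat_lit 4) (nat_lit 160)
(.spl (nat_lit 0) (nat_lit 310)
(.ord (.leaf p068_l104))
(.leaf p068_l105))
(.spl (nat_lit 0) (nat_lit 310)
(.ord (.leaf p068_l106))
(.trX (nat_lit 16) (nat_lit 89) (nat_lit 100) (nat_lit 85) (nat_lit 268) (.leaf p068_l107))))
(.spl (nat_lit 2) (nat_lit 240)
(.leaf p068_l108)
(.leaf p068_l109)))))))) (by decide +kernel)
noncomputable def p068_l110 : Lf2 := ⟨nat_lit 0, nat_lit 20, [nat_lit 5, nat_lit 5, nat_lit 5, nat_lit 20], false, nat_lit 0, nat_lit 160, nat_lit 0, nat_lit 300, ⟨nat_lit 0, nat_lit 1000, nat_lit 0, nat_lit 7, nat_lit 180, nat_lit 1000, nat_lit 56, nat_lit 0, nat_lit 0, nat_lit 0, nat_lit 0, nat_lit 0, nat_lit 0, nat_lit 0, nat_lit 0, nat_lit 5000000, false, false⟩,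
 nat_lit 8617, nat_lit 0, nat_lit 0, nat_lit 0, nat_lit 5483, nat_lit 0, nat_lit 134, nat_lit 0, nat_lit 0, nat_lit 0, nat_lit 0, nat_lit 0, nat_lit 0, nat_lit 33295390457400, nat_lit 82, nat_lit 1000000, nat_lit 0, nat_lit 0, [(nat_lit 13, [(nat_lit 2, nat_lit 1000)]), (nat_lit 16, [(nat_lit 2, nat_lit 1000)])],
 ⟨p068_k1, nat_lit 0, nat_lit 0, nat_lit 557, nat_lit 0, nat_lit 534769, [nat_lit 3319200001, nat_lit 3625000001, nat_lit 179200000], [], [nat_lit 25785974887, nat_lit 21819578224, nat_lit 19098638433, nat_lit 20883572814, nat_lit 17601528162, nat_lit 19269434082, nat_lit 23772077036, nat_lit 19126629509], nat_lit 1271250, nat_lit 1271250, nat_lit 382400, nat_lit 1100001, nat_lit 0, nat_lit 1100001, [nat_lit 780000, nat_lit 1435000, nat_lit 1271250], [nat_lit 23, nat_lit 40, nat_lit 40, nat_lit 80, nat_lit 12, nat_lit 401, nat_lit 175, nat_lit 10]⟩, ⟨p068_k1, nat_lit 0, nat_lit 0, nat_lit 557, nat_lit 0, nat_lit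 534769, [nat_lit 0, nat_lit 0, nat_lit 0], [], [nat_lit 0, nat_lit 0, nat_lit 0, nat_lit 0, nat_lit 0, nat_lit 0, nat_lit 0, nat_lit 0], nat_lit 1271250, nat_lit 1271250, nat_lit 382400, nat_lit 1100001, nat_lit 0, nat_lit 2118750, [nat_lit 780000, nat_lit 1435000, nat_lit 1271250], [nat_lit 23, nat_lit 40, nat_lit 40, nat_lit 80, nat_lit 12, nat_lit 428, nat_lit 200, nat_lit 11]⟩,
 ⟨nat_lit 4472, nat_lit 5478, ⟨.ofNat (nat_lit 330579), .ofNat (nat_lit 510352), .ofNat (nat_lit 373223), .ofNat (nat_lit 552978), .ofNat (nat_lit 355064), .ofNat (nat_lit 518145), .ofNat (nat_lit 398126), .ofNat (nat_lit 561189)⟩, ⟨.negSucc (nat_lit 45522), .ofNat (nat_lit 254209), .negSucc (nat_lit 2834), .ofNat (nat_lit 296923), .negSucc (nat_lit 12423), .ofNat (nat_lit 259489), .ofNat (nat_lit 0), .ofNat (nat_lit 302621)⟩⟩, [⟨nat_lit 0, nat_lit 83, nat_lit 83, nat_lit 100, nat_lit 46343347⟩]⟩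
noncomputable def p068_l111 : Lf2 := ⟨nat_lit 0, nat_lit 20, [nat_lit 5, nat_lit 5, nat_lit 5, nat_lit 20], false, nat_lit 0, nat_lit 160, nat_lit 0, nat_lit 300, ⟨nat_lit 358, nat_lit 642, nat_lit 0, nat_lit 7, nat_lit 243, nat_lit 642, nat_lit 56, nat_lit 0, nat_lit 0, nat_lit 0, nat_lit 0, nat_lit 0, nat_lit 0, nat_lit 0, nat_lit 0, nat_lit 5000000, false, false⟩,
 nat_lit 9532, nat_lit 0, nat_lit 0, nat_lit 0, nat_lit 6065, nat_lit 4234, nat_lit 341, nat_lit 0, nat_lit 0, nat_lit 245, nat_lit 0, nat_lit 0, nat_lit 0, nat_lit 16452395282750, nat_lit 0, nat_lit 642000, nat_lit 0, nat_lit 0, [(nat_lit 13, [(nat_lit 2, nat_lit 642)]), (nat_lit 16, [(nat_lit 2, nat_lit 642)])],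
 ⟨p068_k1, nat_lit 0, nat_lit 0, nat_lit 514, nat_lit 0, nat_lit 534769, [nat_lit 2674154401, nat_lit 3511870001, nat_lit 2680614400], [], [nat_lit 29014534062, nat_lit 24387221317, nat_lit 23952944797, nat_lit 26221303995, nat_lit 19862076624, nat_lit 21587925924, nat_lit 25488302122, nat_lit 22925917403], nat_lit 1271250, nat_lit 1271250, nat_lit 1100001, nat_lit 1785000, nat_lit 0, nat_lit 1100001, [nat_lit 780000, nat_lit 1435000, nat_lit 1271250], [nat_lit 23, nat_lit 40, nat_lit 40, nat_lit 80, nat_lit 12, nat_lit 428, nat_lit 200, nat_lit 11]⟩, ⟨p068_k1, nat_lit 0, nat_lit 0, nat_lit 514, nat_lit 0, nat_lit 534769, [nat_lit 1174956000, nat_lit 2237500000, nat_lit 4250176000], [], [nat_lit 12547045472, nat_lit 12126789443, nat_lit 11458275611, nat_lit 12724699755, nat_lit 8794370961, nat_lit 9653045039, nat_lit 12282415570, nat_lit 10250825046], nat_lit 1271250, nat_lit 1271250, nat_lit 1100001, nat_lit 1785000,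 nat_lit 0, nat_lit 2118750, [nat_lit 780000, nat_lit 1435000, nat_lit 1271250], [nat_lit 23, nat_lit 40, nat_lit 40, nat_lit 80, nat_lit 12, nat_lit 456, nat_lit 225, nat_lit 12]⟩,
 ⟨nat_lit 4472, nat_lit 5478, ⟨.ofNat (nat_lit 510352), .ofNat (nat_lit 660148), .ofNat (nat_lit 552978), .ofNat (nat_lit 702774), .ofNat (nat_lit 518145), .ofNat (nat_lit 654031), .ofNat (nat_lit 561189), .ofNat (nat_lit 697075)⟩, ⟨.negSucc (nat_lit 45522), .ofNat (nat_lit 254209), .negSucc (nat_lit 2834), .ofNat (nat_lit 296923), .negSucc (nat_lit 12423), .ofNat (nat_lit 259489), .ofNat (nat_lit 0), .ofNat (nat_lit 302621)⟩⟩, [⟨nat_lit 7, nat_lit 100, nat_lit 90, nat_lit 74, nat_lit 35224159⟩]⟩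
noncomputable def p068_l112 : Lf2 := ⟨nat_lit 0, nat_lit 20, [nat_lit 5, nat_lit 5, nat_lit 5, nat_lit 20], false, nat_lit 160, nat_lit 300, nat_lit 0, nat_lit 300, ⟨nat_lit 0, nat_lit 1000, nat_lit 0, nat_lit 7, nat_lit 201, nat_lit 1000, nat_lit 162, nat_lit 0, nat_lit 0, nat_lit 0, nat_lit 0, nat_lit 0, nat_lit 0, nat_lit 0, nat_lit 0, nat_lit 5000000, false, false⟩,
 nat_lit 6502, nat_lit 0, nat_lit 0, nat_lit 0, nat_lit 4137, nat_lit 0, nat_lit 0, nat_lit 0, nat_lit 0, nat_lit 0, nat_lit 0, nat_lit 0, nat_lit 0, nat_lit 29834524735806, nat_lit 0, nat_lit 250000, nat_lit 0, nat_lit 0, [(nat_lit 13, [(nat_lit 0, nat_lit 1000)])],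
 ⟨p068_k1, nat_lit 0, nat_lit 0, nat_lit 221, nat_lit 0, nat_lit 200420, [nat_lit 2378400000, nat_lit 3128000000, nat_lit 3715520000], [], [nat_lit 28436071153, nat_lit 27352255756, nat_lit 25881429340, nat_lit 26277639415, nat_lit 28030353490, nat_lit 28417940580, nat_lit 30756717021, nat_lit 29813829564], nat_lit 1271250, nat_lit 1271250, nat_lit 382400, nat_lit 1731000, nat_lit 1100001, nat_lit 2298750, [nat_lit 780000, nat_lit 1435000, nat_lit 1271250], [nat_lit 23, nat_lit 40, nat_lit 40, nat_lit 80, nat_lit 12, nat_lit 456, nat_lit 225, nat_lit 11]⟩, ⟨p068_k1, nat_lit 0, nat_lit 0, nat_lit 385, nat_lit 0, nat_lit 200420, [nat_lit 0, nat_lit 0, nat_lit 0], [], [nat_lit 0, nat_lit 0, nat_lit 0, nat_lit 0, nat_lit 0, nat_lit 0, nat_lit 0, nat_lit 0], nat_lit 1271250, nat_lit 1271250, nat_lit 382400, nat_lit 1731000, nat_lit 0, nat_lit 2118750, [nat_lit 780000, nat_lit 1435000, nat_lit 1271250], [nat_lit 23, nat_lit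 40, nat_lit 40, nat_lit 80, nat_lit 12, nat_lit 456, nat_lit 225, nat_lit 12]⟩,
 ⟨nat_lit 5244, nat_lit 5478, ⟨.ofNat (nat_lit 330654), .ofNat (nat_lit 660348), .ofNat (nat_lit 341333), .ofNat (nat_lit 671025), .ofNat (nat_lit 336758), .ofNat (nat_lit 658700), .ofNat (nat_lit 347451), .ofNat (nat_lit 669391)⟩, ⟨.ofNat (nat_lit 254209), .ofNat (nat_lit 516475), .ofNat (nat_lit 296923), .ofNat (nat_lit 559189), .ofNat (nat_lit 255744), .ofNat (nat_lit 511843), .ofNat (nat_lit 298515), .ofNat (nat_lit 554614)⟩⟩, [⟨nat_lit 4, nat_lit 100, nat_lit 97, nat_lit 76, nat_lit 238726283⟩]⟩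
noncomputable def p068_l113 : Lf2 := ⟨nat_lit 0, nat_lit 20, [nat_lit 5, nat_lit 5, nat_lit 5, nat_lit 20], false, nat_lit 160, nat_lit 292, nat_lit 0, nat_lit 300, ⟨nat_lit 0, nat_lit 1000, nat_lit 0, nat_lit 7, nat_lit 207, nat_lit 1000, nat_lit 159, nat_lit 0, nat_lit 0, nat_lit 0, nat_lit 0, nat_lit 0, nat_lit 0, nat_lit 0, nat_lit 0, nat_lit 5000000, false, false⟩,
 nat_lit 0, nat_lit 7288, nat_lit 0, nat_lit 0, nat_lit 4840, nat_lit 0, nat_lit 97, nat_lit 0, nat_lit 0, nat_lit 0, nat_lit 0, nat_lit 0, nat_lit 0, nat_lit 31355773690070, nat_lit 0, nat_lit 400000, nat_lit 0, nat_lit 0, [(nat_lit 13, [(nat_lit 1, nat_lit 1000)])],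
 ⟨p068_k3, nat_lit 0, nat_lit 0, nat_lit 249, nat_lit 0, nat_lit 295834, [nat_lit 2067066667, nat_lit 2874400001, nat_lit 2403200000], [], [nat_lit 26150848462, nat_lit 24886713062, nat_lit 23940540216, nat_lit 24309894216, nat_lit 25911925490, nat_lit 26277521267, nat_lit 27901552092, nat_lit 26795513114], nat_lit 1271250, nat_lit 1271250, nat_lit 435600, nat_lit 1735500, nat_lit 1100001, nat_lit 2230250, [nat_lit 780000, nat_lit 1435000, nat_lit 1271250], [nat_lit 23, nat_lit 40, nat_lit 40, nat_lit 80, nat_lit 12, nat_lit 456, nat_lit 225, nat_lit 11]⟩, ⟨p068_k1, nat_lit 0, nat_lit 0, nat_lit 418, nat_lit 0, nat_lit 312202, [nat_lit 0, nat_lit 0, nat_lit 0], [], [nat_lit 0, nat_lit 0, nat_lit 0, nat_lit 0, nat_lit 0, nat_lit 0, nat_lit 0, nat_lit 0], nat_lit 1271250, nat_lit 1271250, nat_lit 435600, nat_lit 1735500, nat_lit 0, nat_lit 2118750, [nat_lit 780000, nat_lit 1435000, nat_lit 1271250], [nat_lit 23, nat_lit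 40, nat_lit 40, nat_lit 80, nat_lit 12, nat_lit 456, nat_lit 225, nat_lit 12]⟩,
 ⟨nat_lit 5000, nat_lit 5245, ⟨.ofNat (nat_lit 351391), .ofNat (nat_lit 658699), .ofNat (nat_lit 372775), .ofNat (nat_lit 680082), .ofNat (nat_lit 357140), .ofNat (nat_lit 657129), .ofNat (nat_lit 378567), .ofNat (nat_lit 678555)⟩, ⟨.ofNat (nat_lit 255744), .ofNat (nat_lit 497209), .ofNat (nat_lit 298515), .ofNat (nat_lit 539979), .ofNat (nat_lit 257141), .ofNat (nat_lit 492856), .ofNat (nat_lit 299999), .ofNat (nat_lit 535713)⟩⟩, [⟨nat_lit 4, nat_lit 100, nat_lit 92, nat_lit 75, nat_lit 260338368⟩]⟩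
noncomputable def p068_l114 : Lf2 := ⟨nat_lit 0, nat_lit 20, [nat_lit 5, nat_lit 5, nat_lit 5, nat_lit 20], false, nat_lit 160, nat_lit 280, nat_lit 0, nat_lit 300, ⟨nat_lit 0, nat_lit 1000, nat_lit 0, nat_lit 7, nat_lit 215, nat_lit 1000, nat_lit 154, nat_lit 0, nat_lit 0, nat_lit 0, nat_lit 0, nat_lit 0, nat_lit 0, nat_lit 0, nat_lit 0, nat_lit 5000000, false, false⟩,
 nat_lit 0, nat_lit 6635, nat_lit 0, nat_lit 0, nat_lit 4593, nat_lit 0, nat_lit 272, nat_lit 0, nat_lit 0, nat_lit 0, nat_lit 0, nat_lit 0, nat_lit 0, nat_lit 25009696691046, nat_lit 0, nat_lit 430600, nat_lit 0, nat_lit 0, [(nat_lit 16, [(nat_lit 1, nat_lit 949), (nat_lit 2, nat_lit 51)])],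
 ⟨p068_k4, nat_lit 0, nat_lit 0, nat_lit 329, nat_lit 0, nat_lit 481034, [nat_lit 2025228600, nat_lit 2329733867, nat_lit 2008984533], [], [nat_lit 23800545698, nat_lit 21408612344, nat_lit 20795543036, nat_lit 21517545288, nat_lit 21984261058, nat_lit 22798718998, nat_lit 25999758782, nat_lit 24071454907], nat_lit 1271250, nat_lit 1271250, nat_lit 490000, nat_lit 1740000, nat_lit 1100001, nat_lit 2127500, [nat_lit 780000, nat_lit 1435000, nat_lit 1271250], [nat_lit 8, nat_lit 40, nat_lit 40, nat_lit 80, nat_lit 1, nat_lit 373, nat_lit 150, nat_lit 10]⟩, ⟨p068_k1, nat_lit 0, nat_lit 0, nat_lit 548, nat_lit 0, nat_lit 534769, [nat_lit 0, nat_lit 0, nat_lit 0], [], [nat_lit 0, nat_lit 0, nat_lit 0, nat_lit 0, nat_lit 0, nat_lit 0, nat_lit 0, nat_lit 0], nat_lit 1271250, nat_lit 1271250, nat_lit 490000, nat_lit 1740000, nat_lit 0, nat_lit 2118750, [nat_lit 780000, nat_lit 1435000, nat_lit 1271250], [nat_lit 23, nat_lit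 40, nat_lit 40, nat_lit 80, nat_lit 12, nat_lit 456, nat_lit 225, nat_lit 12]⟩,
 ⟨nat_lit 4472, nat_lit 5000, ⟨.ofNat (nat_lit 371392), .ofNat (nat_lit 657088), .ofNat (nat_lit 414225), .ofNat (nat_lit 699920), .ofNat (nat_lit 382295), .ofNat (nat_lit 654189), .ofNat (nat_lit 425403), .ofNat (nat_lit 697297)⟩, ⟨.ofNat (nat_lit 257141), .ofNat (nat_lit 471427), .ofNat (nat_lit 299999), .ofNat (nat_lit 514284), .ofNat (nat_lit 259489), .ofNat (nat_lit 463423), .ofNat (nat_lit 302621), .ofNat (nat_lit 506556)⟩⟩, [⟨nat_lit 4, nat_lit 100, nat_lit 85, nat_lit 73, nat_lit 317642800⟩]⟩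
noncomputable def p068_l115 : Lf2 := ⟨nat_lit 0, nat_lit 20, [nat_lit 5, nat_lit 5, nat_lit 5, nat_lit 20], false, nat_lit 0, nat_lit 300, nat_lit 0, nat_lit 300, ⟨nat_lit 1000, nat_lit 0, nat_lit 0, nat_lit 0, nat_lit 0, nat_lit 0, nat_lit 0, nat_lit 0, nat_lit 0, nat_lit 0, nat_lit 0, nat_lit 0, nat_lit 0, nat_lit 0, nat_lit 0, nat_lit 0, false, false⟩,
 nat_lit 12311, nat_lit 0, nat_lit 0, nat_lit 0, nat_lit 7834, nat_lit 7834, nat_lit 655, nat_lit 0, nat_lit 0, nat_lit 684, nat_lit 0, nat_lit 0, nat_lit 0, nat_lit 0, nat_lit 0, nat_lit 0, nat_lit 0, nat_lit 0, [],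
 ⟨p068_k1, nat_lit 0, nat_lit 0, nat_lit 383, nat_lit 0, nat_lit 312202, [nat_lit 3282000000, nat_lit 6250000000, nat_lit 11872000000], [], [nat_lit 31154467177, nat_lit 32222233197, nat_lit 41100938225, nat_lit 41859158729, nat_lit 28395486613, nat_lit 29013088846, nat_lit 34743314326, nat_lit 35557776569], nat_lit 1271250, nat_lit 1271250, nat_lit 1271250, nat_lit 1271250, nat_lit 0, nat_lit 2118750, [nat_lit 780000, nat_lit 1435000, nat_lit 1271250], [nat_lit 23, nat_lit 40, nat_lit 40, nat_lit 80, nat_lit 12, nat_lit 483, nat_lit 250, nat_lit 12]⟩, ⟨p068_k1, nat_lit 0, nat_lit 0, nat_lit 383, nat_lit 0, nat_lit 312202, [nat_lit 3282000000, nat_lit 6250000000, nat_lit 11872000000], [], [nat_lit 30876339052, nat_lit 31944105072, nat_lit 40822810100, nat_lit 41854515124, nat_lit 28117358488, nat_lit 28734960721, nat_lit 34743314326, nat_lit 35557776569], nat_lit 1271250, nat_lit 1271250, nat_lit 1271250, nat_lit 1271250,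 nat_lit 0, nat_lit 2118750, [nat_lit 780000, nat_lit 1435000, nat_lit 1271250], [nat_lit 23, nat_lit 40, nat_lit 40, nat_lit 80, nat_lit 12, nat_lit 483, nat_lit 250, nat_lit 12]⟩,
 zbF0, [⟨nat_lit 4, nat_lit 100, nat_lit 94, nat_lit 75, nat_lit 107333629⟩, ⟨nat_lit 7, nat_lit 100, nat_lit 94, nat_lit 75, nat_lit 121002202⟩]⟩
noncomputable def p068_l116 : Lf2 := ⟨nat_lit 0, nat_lit 20, [nat_lit 5, nat_lit 5, nat_lit 5, nat_lit 20], false, nat_lit 0, nat_lit 280, nat_lit 0, nat_lit 300, ⟨nat_lit 1000, nat_lit 0, nat_lit 0, nat_lit 0, nat_lit 0, nat_lit 0, nat_lit 0, nat_lit 0, nat_lit 0, nat_lit 0, nat_lit 0, nat_lit 0, nat_lit 0, nat_lit 0, nat_lit 0, nat_lit 0, false, false⟩,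
 nat_lit 10921, nat_lit 0, nat_lit 0, nat_lit 0, nat_lit 7560, nat_lit 6949, nat_lit 464, nat_lit 0, nat_lit 0, nat_lit 747, nat_lit 0, nat_lit 0, nat_lit 0, nat_lit 0, nat_lit 0, nat_lit 0, nat_lit 0, nat_lit 0, [],
 ⟨p068_k4, nat_lit 0, nat_lit 0, nat_lit 424, nat_lit 0, nat_lit 481034, [nat_lit 3282000000, nat_lit 6250000000, nat_lit 9842000000], [], [nat_lit 30598547520, nat_lit 31510920480, nat_lit 41112746160, nat_lit 42424963360, nat_lit 27614530400, nat_lit 28173520000, nat_lit 34543271560, nat_lit 35401995440], nat_lit 1271250, nat_lit 1271250, nat_lit 1271250, nat_lit 1271250, nat_lit 0, nat_lit 1977500, [nat_lit 780000, nat_lit 1435000, nat_lit 1271250], [nat_lit 8, nat_lit 40, nat_lit 40, nat_lit 80, nat_lit 1, nat_lit 401, nat_lit 175, nat_lit 11]⟩, ⟨p068_k1, nat_lit 0, nat_lit 0, nat_lit 496, nat_lit 0, nat_lit 534769, [nat_lit 3282000000, nat_lit 6250000000, nat_lit 11872000000], [], [nat_lit 33026871717,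 nat_lit 34586595945, nat_lit 39221736725, nat_lit 40715534444, nat_lit 30779547832, nat_lit 31687120183, nat_lit 34862033709, nat_lit 35587465075], nat_lit 1271250, nat_lit 1271250, nat_lit 1271250, nat_lit 1271250, nat_lit 0, nat_lit 2118750, [nat_lit 780000, nat_lit 1435000, nat_lit 1271250], [nat_lit 23, nat_lit 40, nat_lit 40, nat_lit 80, nat_lit 12, nat_lit 538, nat_lit 300, nat_lit 13]⟩,
 zbF0, [⟨nat_lit 4, nat_lit 100, nat_lit 85, nat_lit 73, nat_lit 81091867⟩, ⟨nat_lit 7, nat_lit 100, nat_lit 90, nat_lit 74, nat_lit 198626429⟩]⟩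
noncomputable def b_V_700_700_10_39 : St := ⟨true, nat_lit 1, nat_lit 1, nat_lit 2, nat_lit 80, nat_lit 280, nat_lit 320, nat_lit 280, nat_lit 320, nat_lit 64, nat_lit 400, nat_lit 40, nat_lit 80, nat_lit 0, nat_lit 300, nat_lit 0, nat_lit 300, nat_lit 40, nat_lit 80, nat_lit 0, nat_lit 0, nat_lit 0, nat_lit 0⟩
theorem d_V_700_700_10_39 (h : EB TB.env) : Dead b_V_700_700_10_39 := chkB_sound0 h (T :=
(.spl (nat_lit 2) (nat_lit 240)
(.spl (nat_lit 4) (nat_lit 160)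
(.spl (nat_lit 2) (nat_lit 160)
(.leaf p068_l110)
(.leaf p068_l111))
(.spl (nat_lit 0) (nat_lit 300)
(.ord (.spl (nat_lit 0) (nat_lit 290)
(.ord (.leaf p068_l112))
(.trZ (nat_lit 0) (nat_lit 100) (nat_lit 97) (nat_lit 84) (nat_lit 72) (.trX (nat_lit 16) (nat_lit 100) (nat_lit 100) (nat_lit 89) (nat_lit 292) (.leaf p068_l113)))))
(.trZ (nat_lit 0) (nat_lit 100) (nat_lit 94) (nat_lit 88) (nat_lit 80) (.trX (nat_lit 16) (nat_lit 94) (nat_lit 100) (nat_lit 87) (nat_lit 280) (.leaf p068_l114)))))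
(.spl (nat_lit 0) (nat_lit 300)
(.ord (.leaf p068_l115))
(.trX (nat_lit 16) (nat_lit 94) (nat_lit 100) (nat_lit 87) (nat_lit 280) (.leaf p068_l116))))) (by decide +kernel)
noncomputable def p068_l117 : Lf2 := ⟨nat_lit 0, nat_lit 20, [nat_lit 5, nat_lit 5, nat_lit 5, nat_lit 20], false, nat_lit 0, nat_lit 160, nat_lit 0, nat_lit 160, ⟨nat_lit 1000, nat_lit 0, nat_lit 0, nat_lit 0, nat_lit 0, nat_lit 0, nat_lit 0, nat_lit 0, nat_lit 0, nat_lit 0, nat_lit 0, nat_lit 0, nat_lit 0, nat_lit 0, nat_lit 0, nat_lit 0, false, false⟩,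
 nat_lit 0, nat_lit 0, nat_lit 0, nat_lit 23230, nat_lit 8084, nat_lit 8084, nat_lit 1305, nat_lit 0, nat_lit 0, nat_lit 1305, nat_lit 0, nat_lit 0, nat_lit 0, nat_lit 0, nat_lit 0, nat_lit 0, nat_lit 0, nat_lit 0, [],
 ⟨p068_k1, nat_lit 0, nat_lit 0, nat_lit 327, nat_lit 0, nat_lit 0, [nat_lit 3282000000, nat_lit 6250000000, nat_lit 11872000000], [], [nat_lit 24532167441, nat_lit 27915943588, nat_lit 23014297959, nat_lit 25788542791, nat_lit 18967245287, nat_lit 22134152804, nat_lit 17905183936, nat_lit 21105984080], nat_lit 0, nat_lit 0, nat_lit 0, nat_lit 0, nat_lit 0, nat_lit 0, [], [nat_lit 23, nat_lit 40, nat_lit 40, nat_lit 80, nat_lit 12, nat_lit 373, nat_lit 150, nat_lit 10]⟩, ⟨p068_k1, nat_lit 0, nat_lit 0, nat_lit 327, nat_lit 0, nat_lit 0, [nat_lit 3282000000, nat_lit 6250000000, nat_lit 11872000000], [], [nat_lit 24532167441, nat_lit 27915943588, nat_lit 23014297959, nat_lit 25788542791, nat_lit 18967245287,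 nat_lit 22134152804, nat_lit 17905183936, nat_lit 21105984080], nat_lit 0, nat_lit 0, nat_lit 0, nat_lit 0, nat_lit 0, nat_lit 0, [], [nat_lit 23, nat_lit 40, nat_lit 40, nat_lit 80, nat_lit 12, nat_lit 373, nat_lit 150, nat_lit 10]⟩,
 zbF0, [⟨nat_lit 0, nat_lit 100, nat_lit 100, nat_lit 100, nat_lit 903946185⟩]⟩
noncomputable def p068_l118 : Lf2 := ⟨nat_lit 0, nat_lit 20, [nat_lit 5, nat_lit 5, nat_lit 5, nat_lit 20], false, nat_lit 0, nat_lit 160, nat_lit 160, nat_lit 300, ⟨nat_lit 1000, nat_lit 0, nat_lit 0, nat_lit 0, nat_lit 0, nat_lit 0, nat_lit 0, nat_lit 0, nat_lit 0, nat_lit 0, nat_lit 0, nat_lit 0, nat_lit 0, nat_lit 0, nat_lit 0, nat_lit 0, false, false⟩,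
 nat_lit 0, nat_lit 0, nat_lit 0, nat_lit 28892, nat_lit 8438, nat_lit 24162, nat_lit 1398, nat_lit 0, nat_lit 0, nat_lit 0, nat_lit 0, nat_lit 0, nat_lit 0, nat_lit 1391250969256, nat_lit 0, nat_lit 0, nat_lit 0, nat_lit 0, [],
 ⟨p068_k1, nat_lit 0, nat_lit 0, nat_lit 327, nat_lit 0, nat_lit 0, [nat_lit 3282000000, nat_lit 6250000000, nat_lit 11872000000], [], [nat_lit 23512338550, nat_lit 27433706460, nat_lit 21880720938, nat_lit 25403636720, nat_lit 18019917256, nat_lit 21566586303, nat_lit 17157501952, nat_lit 20445285560], nat_lit 0, nat_lit 0, nat_lit 0, nat_lit 0, nat_lit 0, nat_lit 0, [], [nat_lit 23, nat_lit 40, nat_lit 40, nat_lit 80, nat_lit 12, nat_lit 373, nat_lit 150, nat_lit 10]⟩, ⟨p068_k1, nat_lit 0, nat_lit 0, nat_lit 163, nat_lit 0, nat_lit 0, [nat_lit 3282000000, nat_lit 6250000000, nat_lit 11872000000], [], [nat_lit 24400180759, nat_lit 31529596610, nat_lit 17844817400, nat_lit 24414571104, nat_lit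 33824579467, nat_lit 43247067200, nat_lit 26333422072, nat_lit 34998029578], nat_lit 0, nat_lit 0, nat_lit 0, nat_lit 0, nat_lit 0, nat_lit 0, [], [nat_lit 23, nat_lit 40, nat_lit 40, nat_lit 80, nat_lit 12, nat_lit 428, nat_lit 200, nat_lit 11]⟩,
 zbF0, [⟨nat_lit 0, nat_lit 100, nat_lit 100, nat_lit 100, nat_lit 1344870343⟩, ⟨nat_lit 7, nat_lit 100, nat_lit 90, nat_lit 74, nat_lit 835152592⟩]⟩
noncomputable def p068_l119 : Lf2 := ⟨nat_lit 0, nat_lit 20, [nat_lit 5, nat_lit 5, nat_lit 5, nat_lit 20], false, nat_lit 160, nat_lit 300, nat_lit 0, nat_lit 300, ⟨nat_lit 1000, nat_lit 0, nat_lit 0, nat_lit 0, nat_lit 0, nat_lit 0, nat_lit 0, nat_lit 0, nat_lit 0, nat_lit 0, nat_lit 0, nat_lit 0, nat_lit 0, nat_lit 0, nat_lit 0, nat_lit 0, false, false⟩,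
 nat_lit 0, nat_lit 0, nat_lit 0, nat_lit 30247, nat_lit 5790, nat_lit 8782, nat_lit 0, nat_lit 0, nat_lit 0, nat_lit 1180, nat_lit 0, nat_lit 0, nat_lit 0, nat_lit 5919080432441, nat_lit 0, nat_lit 0, nat_lit 0, nat_lit 0, [],
 ⟨p068_k1, nat_lit 0, nat_lit 0, nat_lit 71, nat_lit 0, nat_lit 0, [nat_lit 3282000000, nat_lit 6250000000, nat_lit 11872000000], [], [nat_lit 11679839784, nat_lit 14053095149, nat_lit 11500087680, nat_lit 13477673560, nat_lit 21111292204, nat_lit 22780325385, nat_lit 20180269880, nat_lit 21748975695], nat_lit 0, nat_lit 0, nat_lit 0, nat_lit 0, nat_lit 0, nat_lit 0, [], [nat_lit 23, nat_lit 40, nat_lit 40, nat_lit 80, nat_lit 12, nat_lit 428, nat_lit 200, nat_lit 11]⟩, ⟨p068_k1, nat_lit 0, nat_lit 0, nat_lit 322, nat_lit 0, nat_lit 0, [nat_lit 3282000000, nat_lit 6250000000, nat_lit 11872000000], [], [nat_lit 25897136732, nat_lit 27909858624, nat_lit 23744906404, nat_lit 25630701264, nat_lit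 24176042835, nat_lit 25355377693, nat_lit 22090423292, nat_lit 23195500941], nat_lit 0, nat_lit 0, nat_lit 0, nat_lit 0, nat_lit 0, nat_lit 0, [], [nat_lit 23, nat_lit 40, nat_lit 40, nat_lit 80, nat_lit 12, nat_lit 428, nat_lit 200, nat_lit 11]⟩,
 zbF0, [⟨nat_lit 0, nat_lit 100, nat_lit 100, nat_lit 90, nat_lit 833254588⟩, ⟨nat_lit 4, nat_lit 100, nat_lit 94, nat_lit 75, nat_lit 753652168⟩, ⟨nat_lit 7, nat_lit 100, nat_lit 94, nat_lit 75, nat_lit 195800579⟩]⟩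
noncomputable def p068_l120 : Lf2 := ⟨nat_lit 0, nat_lit 20, [nat_lit 5, nat_lit 5, nat_lit 5, nat_lit 20], false, nat_lit 160, nat_lit 280, nat_lit 0, nat_lit 300, ⟨nat_lit 1000, nat_lit 0, nat_lit 0, nat_lit 0, nat_lit 0, nat_lit 0, nat_lit 0, nat_lit 0, nat_lit 0, nat_lit 0, nat_lit 0, nat_lit 0, nat_lit 0, nat_lit 0, nat_lit 0, nat_lit 0, false, false⟩,
 nat_lit 0, nat_lit 0, nat_lit 0, nat_lit 26329, nat_lit 5258, nat_lit 8395, nat_lit 0, nat_lit 0, nat_lit 0, nat_lit 1122, nat_lit 0, nat_lit 0, nat_lit 0, nat_lit 405237313134, nat_lit 0, nat_lit 0, nat_lit 0, nat_lit 0, [],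
 ⟨p068_k4, nat_lit 0, nat_lit 0, nat_lit 62, nat_lit 0, nat_lit 0, [nat_lit 3282000000, nat_lit 6250000000, nat_lit 9842000000], [], [nat_lit 13902268812, nat_lit 15868840096, nat_lit 14084385512, nat_lit 15949095888, nat_lit 20360535888, nat_lit 22017352528, nat_lit 20095224672, nat_lit 21673357148], nat_lit 0, nat_lit 0, nat_lit 0, nat_lit 0, nat_lit 0, nat_lit 0, [], [nat_lit 8, nat_lit 40, nat_lit 40, nat_lit 80, nat_lit 1, nat_lit 317, nat_lit 100, nat_lit 9]⟩, ⟨p068_k1, nat_lit 0, nat_lit 0, nat_lit 239, nat_lit 0, nat_lit 0, [nat_lit 3282000000, nat_lit 6250000000, nat_lit 11872000000], [], [nat_lit 25153888010, nat_lit 29009811410, nat_lit 24114678190, nat_lit 27778890890, nat_lit 23940079405, nat_lit 26209583630, nat_lit 22824677870, nat_lit 24975540035], nat_lit 0, nat_lit 0, nat_lit 0, nat_lit 0, nat_lit 0, nat_lit 0, [], [nat_lit 23, nat_lit 40, nat_lit 40, nat_lit 80, nat_lit 12, nat_lit 428, nat_lit 200,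 nat_lit 11]⟩,
 zbF0, [⟨nat_lit 0, nat_lit 97, nat_lit 93, nat_lit 100, nat_lit 823785009⟩, ⟨nat_lit 4, nat_lit 100, nat_lit 85, nat_lit 73, nat_lit 749722313⟩, ⟨nat_lit 19, nat_lit 90, nat_lit 100, nat_lit 74, nat_lit 201045433⟩]⟩
noncomputable def p068_l121 : Lf2 := ⟨nat_lit 0, nat_lit 20, [nat_lit 5, nat_lit 5, nat_lit 5, nat_lit 20], false, nat_lit 0, nat_lit 300, nat_lit 0, nat_lit 160, ⟨nat_lit 1000, nat_lit 0, nat_lit 0, nat_lit 0, nat_lit 0, nat_lit 0, nat_lit 0, nat_lit 0, nat_lit 0, nat_lit 0, nat_lit 0, nat_lit 0, nat_lit 0, nat_lit 0, nat_lit 0, nat_lit 0, false, false⟩,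
 nat_lit 0, nat_lit 0, nat_lit 0, nat_lit 9856, nat_lit 10479, nat_lit 8418, nat_lit 228, nat_lit 0, nat_lit 0, nat_lit 663, nat_lit 0, nat_lit 0, nat_lit 0, nat_lit 0, nat_lit 0, nat_lit 0, nat_lit 0, nat_lit 0, [],
 ⟨p068_k1, nat_lit 0, nat_lit 0, nat_lit 240, nat_lit 0, nat_lit 0, [nat_lit 3282000000, nat_lit 6250000000, nat_lit 11872000000], [], [nat_lit 33692918188, nat_lit 35814137858, nat_lit 48175463100, nat_lit 49017678224, nat_lit 30440173324, nat_lit 31648904341, nat_lit 37638898981, nat_lit 38553182202], nat_lit 0, nat_lit 0, nat_lit 0, nat_lit 0, nat_lit 0, nat_lit 0, [], [nat_lit 23, nat_lit 40, nat_lit 40, nat_lit 80, nat_lit 12, nat_lit 483, nat_lit 250, nat_lit 12]⟩, ⟨p068_k1, nat_lit 0, nat_lit 0, nat_lit 240, nat_lit 0, nat_lit 0, [nat_lit 3282000000, nat_lit 6250000000, nat_lit 11872000000], [], [nat_lit 28943482793, nat_lit 30363545625, nat_lit 42045585488, nat_lit 43435511748, nat_lit 23251695417,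 nat_lit 24430481817, nat_lit 33048373657, nat_lit 33711598613], nat_lit 0, nat_lit 0, nat_lit 0, nat_lit 0, nat_lit 0, nat_lit 0, [], [nat_lit 23, nat_lit 40, nat_lit 40, nat_lit 80, nat_lit 12, nat_lit 456, nat_lit 225, nat_lit 12]⟩,
 zbF0, [⟨nat_lit 16, nat_lit 94, nat_lit 100, nat_lit 75, nat_lit 157735623⟩]⟩
noncomputable def p068_l122 : Lf2 := ⟨nat_lit 0, nat_lit 20, [nat_lit 5, nat_lit 5, nat_lit 5, nat_lit 20], false, nat_lit 0, nat_lit 280, nat_lit 0, nat_lit 160, ⟨nat_lit 1000, nat_lit 0, nat_lit 0, nat_lit 0, nat_lit 0, nat_lit 0, nat_lit 0, nat_lit 0, nat_lit 0, nat_lit 0, nat_lit 0, nat_lit 0, nat_lit 0, nat_lit 0, nat_lit 0, nat_lit 0, false, false⟩,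
 nat_lit 0, nat_lit 0, nat_lit 0, nat_lit 5280, nat_lit 11346, nat_lit 8084, nat_lit 0, nat_lit 0, nat_lit 0, nat_lit 291, nat_lit 0, nat_lit 0, nat_lit 0, nat_lit 0, nat_lit 0, nat_lit 0, nat_lit 0, nat_lit 0, [],
 ⟨p068_k4, nat_lit 0, nat_lit 0, nat_lit 219, nat_lit 0, nat_lit 0, [nat_lit 3282000000, nat_lit 6250000000, nat_lit 9842000000], [], [nat_lit 31672520356, nat_lit 34267363712, nat_lit 51362152356, nat_lit 53017267576, nat_lit 27411403224, nat_lit 28976972752, nat_lit 38733620146, nat_lit 39757879304], nat_lit 0, nat_lit 0, nat_lit 0, nat_lit 0, nat_lit 0, nat_lit 0, [], [nat_lit 8, nat_lit 40, nat_lit 40, nat_lit 80, nat_lit 1, nat_lit 401, nat_lit 175, nat_lit 11]⟩, ⟨p068_k1, nat_lit 0, nat_lit 0, nat_lit 242, nat_lit 0, nat_lit 0, [nat_lit 3282000000, nat_lit 6250000000, nat_lit 11872000000], [], [nat_lit 32739191709, nat_lit 35513436541, nat_lit 44873525725, nat_lit 46405844733, nat_lit 27385757021,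 nat_lit 29692695421, nat_lit 36678870141, nat_lit 37990395597], nat_lit 0, nat_lit 0, nat_lit 0, nat_lit 0, nat_lit 0, nat_lit 0, [], [nat_lit 23, nat_lit 40, nat_lit 40, nat_lit 80, nat_lit 12, nat_lit 456, nat_lit 225, nat_lit 12]⟩,
 zbF0, []⟩
noncomputable def p068_l123 : Lf2 := ⟨nat_lit 0, nat_lit 20, [nat_lit 5, nat_lit 5, nat_lit 5, nat_lit 20], false, nat_lit 0, nat_lit 300, nat_lit 160, nat_lit 300, ⟨nat_lit 1000, nat_lit 0, nat_lit 0, nat_lit 0, nat_lit 0, nat_lit 0, nat_lit 0, nat_lit 0, nat_lit 0, nat_lit 0, nat_lit 0, nat_lit 0, nat_lit 0, nat_lit 0, nat_lit 0, nat_lit 0, false, false⟩,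
 nat_lit 0, nat_lit 0, nat_lit 0, nat_lit 12703, nat_lit 7949, nat_lit 8395, nat_lit 833, nat_lit 0, nat_lit 0, nat_lit 0, nat_lit 0, nat_lit 0, nat_lit 0, nat_lit 0, nat_lit 0, nat_lit 0, nat_lit 0, nat_lit 0, [],
 ⟨p068_k1, nat_lit 0, nat_lit 0, nat_lit 242, nat_lit 0, nat_lit 0, [nat_lit 3282000000, nat_lit 6250000000, nat_lit 11872000000], [], [nat_lit 27633227199, nat_lit 30380843551, nat_lit 40818392584, nat_lit 43513290444, nat_lit 26287024081, nat_lit 27895385182, nat_lit 34869209311, nat_lit 36506813882], nat_lit 0, nat_lit 0, nat_lit 0, nat_lit 0, nat_lit 0, nat_lit 0, [], [nat_lit 23, nat_lit 40, nat_lit 40, nat_lit 80, nat_lit 12, nat_lit 538, nat_lit 300, nat_lit 14]⟩, ⟨p068_k1, nat_lit 0, nat_lit 0, nat_lit 90, nat_lit 0, nat_lit 0, [nat_lit 3282000000, nat_lit 6250000000, nat_lit 11872000000], [], [nat_lit 13637228300, nat_lit 17972596140, nat_lit 32026838760, nat_lit 34457137880, nat_lit 21943415945,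 nat_lit 24974273200, nat_lit 35357462905, nat_lit 37028731110], nat_lit 0, nat_lit 0, nat_lit 0, nat_lit 0, nat_lit 0, nat_lit 0, [], [nat_lit 23, nat_lit 40, nat_lit 40, nat_lit 80, nat_lit 12, nat_lit 538, nat_lit 300, nat_lit 13]⟩,
 zbF0, [⟨nat_lit 4, nat_lit 100, nat_lit 90, nat_lit 74, nat_lit 95868931⟩, ⟨nat_lit 19, nat_lit 100, nat_lit 95, nat_lit 87, nat_lit 539872901⟩]⟩
noncomputable def p068_l124 : Lf2 := ⟨nat_lit 1, nat_lit 15, [nat_lit 30, nat_lit 5, nat_lit 5, nat_lit 20], false, nat_lit 0, nat_lit 276, nat_lit 0, nat_lit 276, zbN0,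
 nat_lit 0, nat_lit 0, nat_lit 0, nat_lit 0, nat_lit 0, nat_lit 0, nat_lit 0, nat_lit 0, nat_lit 0, nat_lit 0, nat_lit 0, nat_lit 0, nat_lit 0, nat_lit 0, nat_lit 0, nat_lit 0, nat_lit 0, nat_lit 0, [],
 C1.Rw.none, C1.Rw.none,
 zbF0, []⟩
noncomputable def p068_l125 : Lf2 := ⟨nat_lit 1, nat_lit 20, [nat_lit 5, nat_lit 5, nat_lit 5, nat_lit 20], false, nat_lit 0, nat_lit 300, nat_lit 0, nat_lit 300, zbN0,
 nat_lit 0, nat_lit 0, nat_lit 0, nat_lit 0, nat_lit 0, nat_lit 0, nat_lit 0, nat_lit 0, nat_lit 0, nat_lit 0, nat_lit 0, nat_lit 0, nat_lit 0, nat_lit 0, nat_lit 0, nat_lit 0, nat_lit 0, nat_lit 0, [],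
 C1.Rw.none, C1.Rw.none,
 zbF0, []⟩
noncomputable def p068_l126 : Lf2 := ⟨nat_lit 1, nat_lit 20, [nat_lit 5, nat_lit 5, nat_lit 5, nat_lit 20], false, nat_lit 0, nat_lit 300, nat_lit 0, nat_lit 300, zbN0,
 nat_lit 0, nat_lit 0, nat_lit 0, nat_lit 0, nat_lit 0, nat_lit 0, nat_lit 0, nat_lit 0, nat_lit 0, nat_lit 0, nat_lit 0, nat_lit 0, nat_lit 0, nat_lit 0, nat_lit 0, nat_lit 0, nat_lit 0, nat_lit 0, [],
 C1.Rw.none, C1.Rw.none,
 zbF0, []⟩
noncomputable def p068_l127 : Lf2 := ⟨nat_lit 0, nat_lit 15, [nat_lit 30, nat_lit 5, nat_lit 5, nat_lit 20], false, nat_lit 0, nat_lit 160, nat_lit 0, nat_lit 276, ⟨nat_lit 1000, nat_lit 0, nat_lit 0, nat_lit 0, nat_lit 0, nat_lit 0, nat_lit 0, nat_lit 0, nat_lit 0, nat_lit 0, nat_lit 0, nat_lit 0, nat_lit 0, nat_lit 0, nat_lit 0, nat_lit 0, false, false⟩,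
 nat_lit 0, nat_lit 0, nat_lit 20894, nat_lit 0, nat_lit 6719, nat_lit 13296, nat_lit 0, nat_lit 0, nat_lit 0, nat_lit 138, nat_lit 0, nat_lit 0, nat_lit 0, nat_lit 0, nat_lit 0, nat_lit 0, nat_lit 0, nat_lit 0, [],
 ⟨p068_k7, nat_lit 0, nat_lit 0, nat_lit 200, nat_lit 0, nat_lit 0, [nat_lit 3282000000, nat_lit 6250000000, nat_lit 9842000000], [], [nat_lit 30781128026, nat_lit 32699992572, nat_lit 30214154734, nat_lit 32037741968, nat_lit 26210294194, nat_lit 27824714552, nat_lit 25818701208, nat_lit 27349873300], nat_lit 0, nat_lit 0, nat_lit 0, nat_lit 0, nat_lit 0, nat_lit 0, [], [nat_lit 8, nat_lit 40, nat_lit 40, nat_lit 80, nat_lit 1, nat_lit 289, nat_lit 75, nat_lit 8]⟩, ⟨p068_k5, nat_lit 0, nat_lit 0, nat_lit 316, nat_lit 0, nat_lit 203667, [nat_lit 3282000000, nat_lit 6250000000, nat_lit 9842000000], [], [nat_lit 38700787744, nat_lit 35970438596, nat_lit 32239508548, nat_lit 33979369860, nat_lit 26031927318,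 nat_lit 27113369134, nat_lit 25409099565, nat_lit 25053720468], nat_lit 1271250, nat_lit 1271250, nat_lit 490000, nat_lit 780000, nat_lit 0, nat_lit 1949250, [nat_lit 780000, nat_lit 1435000, nat_lit 1271250], [nat_lit 8, nat_lit 40, nat_lit 40, nat_lit 80, nat_lit 1, nat_lit 317, nat_lit 100, nat_lit 9]⟩,
 zbF0, [⟨nat_lit 0, nat_lit 94, nat_lit 87, nat_lit 100, nat_lit 1446742876⟩, ⟨nat_lit 7, nat_lit 100, nat_lit 92, nat_lit 68, nat_lit 20895069⟩]⟩
noncomputable def p068_l128 : Lf2 := ⟨nat_lit 0, nat_lit 20, [nat_lit 5, nat_lit 5, nat_lit 5, nat_lit 20], false, nat_lit 0, nat_lit 160, nat_lit 0, nat_lit 300, ⟨nat_lit 713, nat_lit 0, nat_lit 287, nat_lit 7, nat_lit 169, nat_lit 287, nat_lit 58, nat_lit 287, nat_lit 30817, nat_lit 258, nat_lit 92319, nat_lit 289, nat_lit 56854258, nat_lit 0, nat_lit 0, nat_lit 2125897, false, false⟩,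
 nat_lit 0, nat_lit 0, nat_lit 15046, nat_lit 0, nat_lit 5226, nat_lit 9574, nat_lit 0, nat_lit 0, nat_lit 0, nat_lit 342, nat_lit 0, nat_lit 0, nat_lit 0, nat_lit 0, nat_lit 0, nat_lit 287000, nat_lit 0, nat_lit 0, [(nat_lit 16, [(nat_lit 6, nat_lit 287)])],
 ⟨p068_k4, nat_lit 0, nat_lit 0, nat_lit 200, nat_lit 0, nat_lit 0, [nat_lit 2623162800, nat_lit 3793165201, nat_lit 4802624400], [], [nat_lit 24952173404, nat_lit 26605382488, nat_lit 24704206436, nat_lit 26278931472, nat_lit 22083849276, nat_lit 23485245408, nat_lit 22035180216, nat_lit 23297818600], nat_lit 0, nat_lit 0, nat_lit 0, nat_lit 0, nat_lit 0, nat_lit 0, [], [nat_lit 8, nat_lit 40, nat_lit 40, nat_lit 80, nat_lit 1, nat_lit 289, nat_lit 75, nat_lit 8]⟩, ⟨p068_k1, nat_lit 0, nat_lit 0, nat_lit 355, nat_lit 0, nat_lit 133815, [nat_lit 2340066000, nat_lit 4456250000, nat_lit 8464736000], [], [nat_lit 27637477492, nat_lit 27789623580, nat_lit 25160275928,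 nat_lit 26080711998, nat_lit 20604707563, nat_lit 21663455285, nat_lit 19787771372, nat_lit 20012227098], nat_lit 1271250, nat_lit 1271250, nat_lit 490000, nat_lit 780000, nat_lit 0, nat_lit 2118750, [nat_lit 780000, nat_lit 1435000, nat_lit 1271250], [nat_lit 23, nat_lit 40, nat_lit 40, nat_lit 80, nat_lit 12, nat_lit 428, nat_lit 200, nat_lit 11]⟩,
 ⟨nat_lit 4472, nat_lit 5000, ⟨.ofNat (nat_lit 371392), .ofNat (nat_lit 442816), .ofNat (nat_lit 392808), .ofNat (nat_lit 464232), .ofNat (nat_lit 382295), .ofNat (nat_lit 450269), .ofNat (nat_lit 403849), .ofNat (nat_lit 471823)⟩, ⟨.negSucc (nat_lit 7143), .ofNat (nat_lit 278570), .ofNat (nat_lit 0), .ofNat (nat_lit 299999), .ofNat (nat_lit 0), .ofNat (nat_lit 281055), .ofNat (nat_lit 0), .ofNat (nat_lit 302621)⟩⟩, [⟨nat_lit 0, nat_lit 94, nat_lit 87, nat_lit 100, nat_lit 815889569⟩, ⟨nat_lit 7, nat_lit 100, nat_lit 97, nat_lit 82, nat_lit 33577694⟩]⟩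
noncomputable def p068_l129 : Lf2 := ⟨nat_lit 0, nat_lit 15, [nat_lit 30, nat_lit 5, nat_lit 5, nat_lit 20], false, nat_lit 0, nat_lit 160, nat_lit 0, nat_lit 276, ⟨nat_lit 1000, nat_lit 0, nat_lit 0, nat_lit 0, nat_lit 0, nat_lit 0, nat_lit 0, nat_lit 0, nat_lit 0, nat_lit 0, nat_lit 0, nat_lit 0, nat_lit 0, nat_lit 0, nat_lit 0, nat_lit 0, false, false⟩,
 nat_lit 0, nat_lit 0, nat_lit 10759, nat_lit 0, nat_lit 6719, nat_lit 6846, nat_lit 0, nat_lit 0, nat_lit 0, nat_lit 809, nat_lit 0, nat_lit 0, nat_lit 0, nat_lit 0, nat_lit 0, nat_lit 0, nat_lit 0, nat_lit 0, [],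
 ⟨p068_k7, nat_lit 0, nat_lit 0, nat_lit 182, nat_lit 0, nat_lit 0, [nat_lit 3282000000, nat_lit 6250000000, nat_lit 9842000000], [], [nat_lit 30214154734, nat_lit 32037741968, nat_lit 33073010086, nat_lit 34510294832, nat_lit 25818701208, nat_lit 27349873300, nat_lit 28315684110, nat_lit 29526446324], nat_lit 0, nat_lit 0, nat_lit 0, nat_lit 0, nat_lit 0, nat_lit 0, [], [nat_lit 8, nat_lit 40, nat_lit 40, nat_lit 80, nat_lit 1, nat_lit 317, nat_lit 100, nat_lit 9]⟩, ⟨p068_k5, nat_lit 0, nat_lit 0, nat_lit 297, nat_lit 0, nat_lit 203667, [nat_lit 3282000000, nat_lit 6250000000, nat_lit 9842000000], [], [nat_lit 39964220640, nat_lit 36344480292, nat_lit 29890137426, nat_lit 30817780814, nat_lit 26686525794, nat_lit 27440414578, nat_lit 37726055805, nat_lit 34661443221], nat_lit 1271250, nat_lit 1271250, nat_lit 780000, nat_lit 1762500, nat_lit 0, nat_lit 1949250, [nat_lit 780000, nat_lit 1435000, nat_lit 1271250], [nat_lit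 8, nat_lit 40, nat_lit 40, nat_lit 80, nat_lit 1, nat_lit 373, nat_lit 150, nat_lit 11]⟩,
 zbF0, []⟩
noncomputable def p068_l130 : Lf2 := ⟨nat_lit 0, nat_lit 20, [nat_lit 5, nat_lit 5, nat_lit 5, nat_lit 20], false, nat_lit 0, nat_lit 160, nat_lit 0, nat_lit 300, ⟨nat_lit 1000, nat_lit 0, nat_lit 0, nat_lit 0, nat_lit 0, nat_lit 0, nat_lit 0, nat_lit 0, nat_lit 0, nat_lit 0, nat_lit 0, nat_lit 0, nat_lit 0, nat_lit 0, nat_lit 0, nat_lit 0, false, false⟩,
 nat_lit 0, nat_lit 0, nat_lit 12813, nat_lit 0, nat_lit 6719, nat_lit 8153, nat_lit 0, nat_lit 0, nat_lit 0, nat_lit 593, nat_lit 0, nat_lit 0, nat_lit 0, nat_lit 0, nat_lit 0, nat_lit 0, nat_lit 0, nat_lit 0, [],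
 ⟨p068_k4, nat_lit 0, nat_lit 0, nat_lit 182, nat_lit 0, nat_lit 0, [nat_lit 3282000000, nat_lit 6250000000, nat_lit 9842000000], [], [nat_lit 30214154734, nat_lit 32037741968, nat_lit 33073010086, nat_lit 34510294832, nat_lit 25818701208, nat_lit 27349873300, nat_lit 28315684110, nat_lit 29526446324], nat_lit 0, nat_lit 0, nat_lit 0, nat_lit 0, nat_lit 0, nat_lit 0, [], [nat_lit 8, nat_lit 40, nat_lit 40, nat_lit 80, nat_lit 1, nat_lit 317, nat_lit 100, nat_lit 9]⟩, ⟨p068_k1, nat_lit 0, nat_lit 0, nat_lit 336, nat_lit 0, nat_lit 131631, [nat_lit 3282000000, nat_lit 6250000000, nat_lit 11872000000], [], [nat_lit 41955879520, nat_lit 37645078606, nat_lit 31489046059, nat_lit 32829773999, nat_lit 28258211257, nat_lit 29070597606, nat_lit 38715676552, nat_lit 35094020193], nat_lit 1271250, nat_lit 1271250, nat_lit 780000, nat_lit 1762500, nat_lit 0, nat_lit 2118750, [nat_lit 780000, nat_lit 1435000, nat_lit 1271250],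 [nat_lit 23, nat_lit 40, nat_lit 40, nat_lit 80, nat_lit 12, nat_lit 456, nat_lit 225, nat_lit 12]⟩,
 zbF0, []⟩
noncomputable def p068_l131 : Lf2 := ⟨nat_lit 1, nat_lit 20, [nat_lit 5, nat_lit 5, nat_lit 5, nat_lit 20], false, nat_lit 0, nat_lit 160, nat_lit 0, nat_lit 300, zbN0,
 nat_lit 0, nat_lit 0, nat_lit 0, nat_lit 0, nat_lit 0, nat_lit 0, nat_lit 0, nat_lit 0, nat_lit 0, nat_lit 0, nat_lit 0, nat_lit 0, nat_lit 0, nat_lit 0, nat_lit 0, nat_lit 0, nat_lit 0, nat_lit 0, [],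
 C1.Rw.none, C1.Rw.none,
 zbF0, []⟩
noncomputable def p068_l132 : Lf2 := ⟨nat_lit 1, nat_lit 20, [nat_lit 5, nat_lit 5, nat_lit 5, nat_lit 20], false, nat_lit 0, nat_lit 160, nat_lit 0, nat_lit 300, zbN0,
 nat_lit 0, nat_lit 0, nat_lit 0, nat_lit 0, nat_lit 0, nat_lit 0, nat_lit 0, nat_lit 0, nat_lit 0, nat_lit 0, nat_lit 0, nat_lit 0, nat_lit 0, nat_lit 0, nat_lit 0, nat_lit 0, nat_lit 0, nat_lit 0, [],
 C1.Rw.none, C1.Rw.none,
 zbF0, []⟩
noncomputable def p068_l133 : Lf2 := ⟨nat_lit 0, nat_lit 15, [nat_lit 30, nat_lit 5, nat_lit 5, nat_lit 20], false, nat_lit 0, nat_lit 160, nat_lit 0, nat_lit 256, ⟨nat_lit 1000, nat_lit 0, nat_lit 0, nat_lit 0, nat_lit 0, nat_lit 0, nat_lit 0, nat_lit 0, nat_lit 0, nat_lit 0, nat_lit 0, nat_lit 0, nat_lit 0, nat_lit 0, nat_lit 0, nat_lit 0, false, false⟩,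
 nat_lit 0, nat_lit 0, nat_lit 8923, nat_lit 0, nat_lit 6638, nat_lit 6177, nat_lit 0, nat_lit 0, nat_lit 0, nat_lit 806, nat_lit 0, nat_lit 0, nat_lit 0, nat_lit 0, nat_lit 0, nat_lit 0, nat_lit 0, nat_lit 0, [],
 ⟨p068_k7, nat_lit 0, nat_lit 0, nat_lit 191, nat_lit 0, nat_lit 0, [nat_lit 3282000000, nat_lit 6250000000, nat_lit 9842000000], [], [nat_lit 30463457760, nat_lit 32320726540, nat_lit 33050524972, nat_lit 34478111264, nat_lit 26071426202, nat_lit 27633062652, nat_lit 28384964220, nat_lit 29588103848], nat_lit 0, nat_lit 0, nat_lit 0, nat_lit 0, nat_lit 0, nat_lit 0, [], [nat_lit 8, nat_lit 40, nat_lit 40, nat_lit 80, nat_lit 1, nat_lit 317, nat_lit 100, nat_lit 9]⟩, ⟨p068_k7, nat_lit 0, nat_lit 0, nat_lit 366, nat_lit 0, nat_lit 354052, [nat_lit 3282000000, nat_lit 6250000000, nat_lit 9842000000], [], [nat_lit 37436178630, nat_lit 34144838304, nat_lit 29837185660, nat_lit 30530696314, nat_lit 27062135246,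 nat_lit 27619653693, nat_lit 30693345225, nat_lit 27910510364], nat_lit 1271250, nat_lit 1271250, nat_lit 631250, nat_lit 1751250, nat_lit 0, nat_lit 1808000, [nat_lit 780000, nat_lit 1435000, nat_lit 1271250], [nat_lit 8, nat_lit 40, nat_lit 40, nat_lit 80, nat_lit 1, nat_lit 345, nat_lit 125, nat_lit 10]⟩,
 zbF0, [⟨nat_lit 0, nat_lit 91, nat_lit 91, nat_lit 100, nat_lit 435682059⟩]⟩
noncomputable def p068_l134 : Lf2 := ⟨nat_lit 0, nat_lit 20, [nat_lit 5, nat_lit 5, nat_lit 5, nat_lit 20], false, nat_lit 0, nat_lit 160, nat_lit 0, nat_lit 280, ⟨nat_lit 1000, nat_lit 0, nat_lit 0, nat_lit 0, nat_lit 0, nat_lit 0, nat_lit 0, nat_lit 0, nat_lit 0, nat_lit 0, nat_lit 0, nat_lit 0, nat_lit 0, nat_lit 0, nat_lit 0, nat_lit 0, false, false⟩,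
 nat_lit 0, nat_lit 0, nat_lit 8823, nat_lit 0, nat_lit 6638, nat_lit 6108, nat_lit 0, nat_lit 0, nat_lit 0, nat_lit 889, nat_lit 0, nat_lit 0, nat_lit 0, nat_lit 0, nat_lit 0, nat_lit 0, nat_lit 0, nat_lit 0, [],
 ⟨p068_k4, nat_lit 0, nat_lit 0, nat_lit 191, nat_lit 0, nat_lit 0, [nat_lit 3282000000, nat_lit 6250000000, nat_lit 9842000000], [], [nat_lit 30463457760, nat_lit 32320726540, nat_lit 33050524972, nat_lit 34478111264, nat_lit 26071426202, nat_lit 27633062652, nat_lit 28384964220, nat_lit 29588103848], nat_lit 0, nat_lit 0, nat_lit 0, nat_lit 0, nat_lit 0, nat_lit 0, [], [nat_lit 8, nat_lit 40, nat_lit 40, nat_lit 80, nat_lit 1, nat_lit 317, nat_lit 100, nat_lit 9]⟩, ⟨p068_k4, nat_lit 0, nat_lit 0, nat_lit 344, nat_lit 0, nat_lit 289217, [nat_lit 3282000000, nat_lit 6250000000, nat_lit 9842000000], [], [nat_lit 37172791395, nat_lit 33918216891, nat_lit 27560688572, nat_lit 28444806196, nat_lit 25248033406,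 nat_lit 25983749500, nat_lit 32138097679, nat_lit 29441898211], nat_lit 1271250, nat_lit 1271250, nat_lit 631250, nat_lit 1751250, nat_lit 0, nat_lit 1977500, [nat_lit 780000, nat_lit 1435000, nat_lit 1271250], [nat_lit 8, nat_lit 40, nat_lit 40, nat_lit 80, nat_lit 1, nat_lit 373, nat_lit 150, nat_lit 11]⟩,
 zbF0, [⟨nat_lit 0, nat_lit 83, nat_lit 83, nat_lit 100, nat_lit 375917836⟩]⟩
noncomputable def p068_l135 : Lf2 := ⟨nat_lit 0, nat_lit 20, [nat_lit 5, nat_lit 5, nat_lit 5, nat_lit 20], false, nat_lit 160, nat_lit 280, nat_lit 0, nat_lit 300, ⟨nat_lit 181, nat_lit 819, nat_lit 0, nat_lit 7, nat_lit 169, nat_lit 819, nat_lit 154, nat_lit 0, nat_lit 0, nat_lit 0, nat_lit 0, nat_lit 0, nat_lit 48301325, nat_lit 10038214, nat_lit 8660461, nat_lit 4207343, false, false⟩,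
 nat_lit 0, nat_lit 0, nat_lit 3101, nat_lit 5465, nat_lit 4503, nat_lit 1973, nat_lit 0, nat_lit 0, nat_lit 0, nat_lit 142, nat_lit 0, nat_lit 0, nat_lit 0, nat_lit 0, nat_lit 0, nat_lit 204750, nat_lit 0, nat_lit 0, [(nat_lit 16, [(nat_lit 0, nat_lit 819)])],
 ⟨p068_k4, nat_lit 0, nat_lit 0, nat_lit 62, nat_lit 0, nat_lit 0, [nat_lit 2506570801, nat_lit 3380005600, nat_lit 4552570400], [], [nat_lit 13879262043, nat_lit 15674374337, nat_lit 14169985493, nat_lit 15874506009, nat_lit 19936802708, nat_lit 21459546448, nat_lit 19834642053, nat_lit 21286641618], nat_lit 0, nat_lit 0, nat_lit 0, nat_lit 0, nat_lit 0, nat_lit 0, [], [nat_lit 8, nat_lit 40, nat_lit 40, nat_lit 80, nat_lit 1, nat_lit 317, nat_lit 100, nat_lit 9]⟩, ⟨p068_k1, nat_lit 0, nat_lit 0, nat_lit 493, nat_lit 0, nat_lit 371488, [nat_lit 594042000, nat_lit 1131250000, nat_lit 2148832000], [], [nat_lit 6802638344, nat_lit 6047057640, nat_lit 5511642136,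 nat_lit 5719312086, nat_lit 4892472682, nat_lit 5047610823, nat_lit 5615637604, nat_lit 4739208315], nat_lit 1271250, nat_lit 1271250, nat_lit 490000, nat_lit 780000, nat_lit 0, nat_lit 2118750, [nat_lit 780000, nat_lit 1435000, nat_lit 1271250], [nat_lit 23, nat_lit 40, nat_lit 40, nat_lit 80, nat_lit 12, nat_lit 428, nat_lit 200, nat_lit 11]⟩,
 ⟨nat_lit 4472, nat_lit 5000, ⟨.ofNat (nat_lit 371392), .ofNat (nat_lit 442816), .ofNat (nat_lit 392808), .ofNat (nat_lit 464232), .ofNat (nat_lit 382295), .ofNat (nat_lit 450269), .ofNat (nat_lit 403849), .ofNat (nat_lit 471823)⟩, ⟨.ofNat (nat_lit 257141), .ofNat (nat_lit 471427), .ofNat (nat_lit 299999), .ofNat (nat_lit 514284), .ofNat (nat_lit 259489), .ofNat (nat_lit 463423), .ofNat (nat_lit 302621), .ofNat (nat_lit 506556)⟩⟩, [⟨nat_lit 0, nat_lit 100, nat_lit 94, nat_lit 97, nat_lit 259464415⟩, ⟨nat_lit 4, nat_lit 100, nat_lit 85, nat_lit 73, nat_lit 380675517⟩, ⟨nat_lit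 7, nat_lit 100, nat_lit 94, nat_lit 75, nat_lit 22685558⟩]⟩
noncomputable def p068_l136 : Lf2 := ⟨nat_lit 0, nat_lit 20, [nat_lit 5, nat_lit 5, nat_lit 5, nat_lit 20], false, nat_lit 160, nat_lit 280, nat_lit 0, nat_lit 280, ⟨nat_lit 1000, nat_lit 0, nat_lit 0, nat_lit 0, nat_lit 0, nat_lit 0, nat_lit 0, nat_lit 0, nat_lit 0, nat_lit 0, nat_lit 0, nat_lit 0, nat_lit 0, nat_lit 0, nat_lit 0, nat_lit 0, false, false⟩,
 nat_lit 0, nat_lit 0, nat_lit 14483, nat_lit 0, nat_lit 5549, nat_lit 10026, nat_lit 0, nat_lit 0, nat_lit 0, nat_lit 539, nat_lit 0, nat_lit 0, nat_lit 0, nat_lit 7699640677953, nat_lit 0, nat_lit 0, nat_lit 0, nat_lit 0, [],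
 ⟨p068_k4, nat_lit 0, nat_lit 0, nat_lit 53, nat_lit 0, nat_lit 0, [nat_lit 3282000000, nat_lit 6250000000, nat_lit 9842000000], [], [nat_lit 13682390461, nat_lit 15754115214, nat_lit 13752518636, nat_lit 15678971064, nat_lit 20359831088, nat_lit 22027378539, nat_lit 20195806611, nat_lit 21822409094], nat_lit 0, nat_lit 0, nat_lit 0, nat_lit 0, nat_lit 0, nat_lit 0, [], [nat_lit 8, nat_lit 40, nat_lit 40, nat_lit 80, nat_lit 1, nat_lit 317, nat_lit 100, nat_lit 9]⟩, ⟨p068_k4, nat_lit 0, nat_lit 0, nat_lit 459, nat_lit 0, nat_lit 501102, [nat_lit 3282000000, nat_lit 6250000000, nat_lit 9842000000], [], [nat_lit 29845919868, nat_lit 31341067280, nat_lit 29189674160, nat_lit 30642357532, nat_lit 24604221857, nat_lit 26058554020, nat_lit 23906811252, nat_lit 25354593662], nat_lit 1271250, nat_lit 1271250, nat_lit 631250, nat_lit 780000, nat_lit 0, nat_lit 1977500, [nat_lit 780000, nat_lit 1435000, nat_lit 1271250], [nat_lit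 8, nat_lit 40, nat_lit 40, nat_lit 80, nat_lit 1, nat_lit 317, nat_lit 100, nat_lit 9]⟩,
 zbF0, [⟨nat_lit 0, nat_lit 91, nat_lit 91, nat_lit 100, nat_lit 1577156000⟩, ⟨nat_lit 4, nat_lit 100, nat_lit 85, nat_lit 73, nat_lit 768309605⟩, ⟨nat_lit 7, nat_lit 100, nat_lit 85, nat_lit 73, nat_lit 131097543⟩]⟩
noncomputable def p068_l137 : Lf2 := ⟨nat_lit 0, nat_lit 20, [nat_lit 5, nat_lit 5, nat_lit 5, nat_lit 20], false, nat_lit 160, nat_lit 280, nat_lit 0, nat_lit 300, ⟨nat_lit 802, nat_lit 198, nat_lit 0, nat_lit 7, nat_lit 225, nat_lit 198, nat_lit 154, nat_lit 0, nat_lit 0, nat_lit 0, nat_lit 0, nat_lit 0, nat_lit 43680317, nat_lit 15057260, nat_lit 8262423, nat_lit 4683201, false, false⟩,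
 nat_lit 0, nat_lit 0, nat_lit 10409, nat_lit 0, nat_lit 5189, nat_lit 6623, nat_lit 0, nat_lit 0, nat_lit 0, nat_lit 664, nat_lit 0, nat_lit 0, nat_lit 0, nat_lit 0, nat_lit 0, nat_lit 49500, nat_lit 0, nat_lit 0, [(nat_lit 16, [(nat_lit 0, nat_lit 198)])],
 ⟨p068_k4, nat_lit 0, nat_lit 0, nat_lit 44, nat_lit 0, nat_lit 0, [nat_lit 3094533600, nat_lit 5556155200, nat_lit 8563236800], [], [nat_lit 13975609196, nat_lit 15825679704, nat_lit 18075688448, nat_lit 19545120240, nat_lit 20071304571, nat_lit 21638014934, nat_lit 22965360225, nat_lit 24217726818], nat_lit 0, nat_lit 0, nat_lit 0, nat_lit 0, nat_lit 0, nat_lit 0, [], [nat_lit 8, nat_lit 40, nat_lit 40, nat_lit 80, nat_lit 1, nat_lit 373, nat_lit 150, nat_lit 10]⟩, ⟨p068_k1, nat_lit 0, nat_lit 0, nat_lit 415, nat_lit 0, nat_lit 371488, [nat_lit 2632164000, nat_lit 5012500000, nat_lit 9521344000], [], [nat_lit 33777065944, nat_lit 30275234170, nat_lit 24837154132,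 nat_lit 25456052848, nat_lit 21197444427, nat_lit 21652311695, nat_lit 31009088656, nat_lit 28067075892], nat_lit 1271250, nat_lit 1271250, nat_lit 780000, nat_lit 1762500, nat_lit 0, nat_lit 2118750, [nat_lit 780000, nat_lit 1435000, nat_lit 1271250], [nat_lit 23, nat_lit 40, nat_lit 40, nat_lit 80, nat_lit 12, nat_lit 456, nat_lit 225, nat_lit 12]⟩,
 ⟨nat_lit 4472, nat_lit 5000, ⟨.ofNat (nat_lit 442816), .ofNat (nat_lit 657088), .ofNat (nat_lit 464232), .ofNat (nat_lit 678503), .ofNat (nat_lit 450269), .ofNat (nat_lit 654189), .ofNat (nat_lit 471823), .ofNat (nat_lit 675743)⟩, ⟨.ofNat (nat_lit 257141), .ofNat (nat_lit 471427), .ofNat (nat_lit 299999), .ofNat (nat_lit 514284), .ofNat (nat_lit 259489), .ofNat (nat_lit 463423), .ofNat (nat_lit 302621), .ofNat (nat_lit 506556)⟩⟩, [⟨nat_lit 4, nat_lit 100, nat_lit 85, nat_lit 73, nat_lit 658637209⟩]⟩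
noncomputable def p068_l138 : Lf2 := ⟨nat_lit 0, nat_lit 20, [nat_lit 5, nat_lit 5, nat_lit 5, nat_lit 20], false, nat_lit 160, nat_lit 280, nat_lit 0, nat_lit 280, ⟨nat_lit 1000, nat_lit 0, nat_lit 0, nat_lit 0, nat_lit 0, nat_lit 0, nat_lit 0, nat_lit 0, nat_lit 0, nat_lit 0, nat_lit 0, nat_lit 0, nat_lit 0, nat_lit 0, nat_lit 0, nat_lit 0, false, false⟩,
 nat_lit 0, nat_lit 0, nat_lit 10063, nat_lit 0, nat_lit 5549, nat_lit 6966, nat_lit 0, nat_lit 0, nat_lit 0, nat_lit 869, nat_lit 0, nat_lit 0, nat_lit 0, nat_lit 0, nat_lit 0, nat_lit 0, nat_lit 0, nat_lit 0, [],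
 ⟨p068_k4, nat_lit 0, nat_lit 0, nat_lit 44, nat_lit 0, nat_lit 0, [nat_lit 3282000000, nat_lit 6250000000, nat_lit 9842000000], [], [nat_lit 13752518636, nat_lit 15678971064, nat_lit 17907918368, nat_lit 19606398420, nat_lit 20195806611, nat_lit 21822409094, nat_lit 23074989225, nat_lit 24370353138], nat_lit 0, nat_lit 0, nat_lit 0, nat_lit 0, nat_lit 0, nat_lit 0, [], [nat_lit 8, nat_lit 40, nat_lit 40, nat_lit 80, nat_lit 1, nat_lit 373, nat_lit 150, nat_lit 10]⟩, ⟨p068_k4, nat_lit 0, nat_lit 0, nat_lit 450, nat_lit 0, nat_lit 501102, [nat_lit 3282000000, nat_lit 6250000000, nat_lit 9842000000], [], [nat_lit 34810076907, nat_lit 31126887999, nat_lit 27176307144, nat_lit 28111027892, nat_lit 24271881398, nat_lit 24975022921, nat_lit 31502662176, nat_lit 28388323794], nat_lit 1271250, nat_lit 1271250, nat_lit 780000, nat_lit 1762500, nat_lit 0, nat_lit 1977500, [nat_lit 780000, nat_lit 1435000, nat_lit 1271250], [nat_lit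 8, nat_lit 40, nat_lit 40, nat_lit 80, nat_lit 1, nat_lit 373, nat_lit 150, nat_lit 11]⟩,
 zbF0, [⟨nat_lit 0, nat_lit 83, nat_lit 83, nat_lit 100, nat_lit 237087233⟩, ⟨nat_lit 4, nat_lit 100, nat_lit 85, nat_lit 73, nat_lit 758627173⟩, ⟨nat_lit 7, nat_lit 100, nat_lit 85, nat_lit 73, nat_lit 67869528⟩]⟩
noncomputable def p068_l139 : Lf2 := ⟨nat_lit 0, nat_lit 15, [nat_lit 30, nat_lit 5, nat_lit 5, nat_lit 20], false, nat_lit 0, nat_lit 160, nat_lit 0, nat_lit 276, ⟨nat_lit 1000, nat_lit 0, nat_lit 0, nat_lit 0, nat_lit 0, nat_lit 0, nat_lit 0, nat_lit 0, nat_lit 0, nat_lit 0, nat_lit 0, nat_lit 0, nat_lit 0, nat_lit 0, nat_lit 0, nat_lit 0, false, false⟩,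
 nat_lit 0, nat_lit 0, nat_lit 10821, nat_lit 0, nat_lit 8207, nat_lit 6885, nat_lit 0, nat_lit 0, nat_lit 0, nat_lit 624, nat_lit 0, nat_lit 0, nat_lit 0, nat_lit 0, nat_lit 0, nat_lit 0, nat_lit 0, nat_lit 0, [],
 ⟨p068_k5, nat_lit 0, nat_lit 0, nat_lit 219, nat_lit 0, nat_lit 0, [nat_lit 3282000000, nat_lit 6250000000, nat_lit 9842000000], [], [nat_lit 32613999552, nat_lit 35102267396, nat_lit 43992245056, nat_lit 45772944800, nat_lit 27178062464, nat_lit 29237536532, nat_lit 35896570888, nat_lit 37416620968], nat_lit 0, nat_lit 0, nat_lit 0, nat_lit 0, nat_lit 0, nat_lit 0, [], [nat_lit 8, nat_lit 40, nat_lit 40, nat_lit 80, nat_lit 1, nat_lit 373, nat_lit 150, nat_lit 10]⟩, ⟨p068_k5, nat_lit 0, nat_lit 0, nat_lit 370, nat_lit 0, nat_lit 399432, [nat_lit 3282000000, nat_lit 6250000000, nat_lit 9842000000], [], [nat_lit 34163813780, nat_lit 35601672320, nat_lit 39716826580, nat_lit 40539427740, nat_lit 31192571410,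 nat_lit 32089516686, nat_lit 34807198329, nat_lit 35427343549], nat_lit 1271250, nat_lit 1271250, nat_lit 1271250, nat_lit 1271250, nat_lit 0, nat_lit 1949250, [nat_lit 780000, nat_lit 1435000, nat_lit 1271250], [nat_lit 8, nat_lit 40, nat_lit 40, nat_lit 80, nat_lit 1, nat_lit 401, nat_lit 175, nat_lit 11]⟩,
 zbF0, [⟨nat_lit 7, nat_lit 100, nat_lit 88, nat_lit 67, nat_lit 110747235⟩, ⟨nat_lit 22, nat_lit 84, nat_lit 100, nat_lit 34, nat_lit 33310944⟩, ⟨nat_lit 22, nat_lit 83, nat_lit 100, nat_lit 83, nat_lit 10616479⟩]⟩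
noncomputable def p068_l140 : Lf2 := ⟨nat_lit 0, nat_lit 20, [nat_lit 5, nat_lit 5, nat_lit 5, nat_lit 20], false, nat_lit 0, nat_lit 160, nat_lit 0, nat_lit 300, ⟨nat_lit 1000, nat_lit 0, nat_lit 0, nat_lit 0, nat_lit 0, nat_lit 0, nat_lit 0, nat_lit 0, nat_lit 0, nat_lit 0, nat_lit 0, nat_lit 0, nat_lit 0, nat_lit 0, nat_lit 0, nat_lit 0, false, false⟩,
 nat_lit 0, nat_lit 0, nat_lit 11481, nat_lit 0, nat_lit 7706, nat_lit 7306, nat_lit 617, nat_lit 0, nat_lit 0, nat_lit 707, nat_lit 0, nat_lit 0, nat_lit 0, nat_lit 0, nat_lit 0, nat_lit 0, nat_lit 0, nat_lit 0, [],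
 ⟨p068_k1, nat_lit 0, nat_lit 0, nat_lit 242, nat_lit 0, nat_lit 0, [nat_lit 3282000000, nat_lit 6250000000, nat_lit 11872000000], [], [nat_lit 31623252943, nat_lit 33741497303, nat_lit 41321202775, nat_lit 42833435736, nat_lit 26278736431, nat_lit 28042465831, nat_lit 33623381319, nat_lit 34918016223], nat_lit 0, nat_lit 0, nat_lit 0, nat_lit 0, nat_lit 0, nat_lit 0, [], [nat_lit 23, nat_lit 40, nat_lit 40, nat_lit 80, nat_lit 12, nat_lit 456, nat_lit 225, nat_lit 11]⟩, ⟨p068_k1, nat_lit 0, nat_lit 0, nat_lit 388, nat_lit 0, nat_lit 326437, [nat_lit 3282000000, nat_lit 6250000000, nat_lit 11872000000], [], [nat_lit 34565179602, nat_lit 35699940146, nat_lit 40007486525, nat_lit 41714333336, nat_lit 30383347858, nat_lit 31002187777, nat_lit 34168196361, nat_lit 35754363708], nat_lit 1271250, nat_lit 1271250, nat_lit 1271250, nat_lit 1271250, nat_lit 0, nat_lit 2118750, [nat_lit 780000, nat_lit 1435000, nat_lit 1271250],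 [nat_lit 23, nat_lit 40, nat_lit 40, nat_lit 80, nat_lit 12, nat_lit 538, nat_lit 300, nat_lit 13]⟩,
 zbF0, [⟨nat_lit 7, nat_lit 100, nat_lit 92, nat_lit 81, nat_lit 92539703⟩, ⟨nat_lit 22, nat_lit 83, nat_lit 100, nat_lit 39, nat_lit 38084770⟩]⟩
noncomputable def p068_l141 : Lf2 := ⟨nat_lit 0, nat_lit 20, [nat_lit 5, nat_lit 5, nat_lit 5, nat_lit 20], false, nat_lit 160, nat_lit 300, nat_lit 0, nat_lit 300, ⟨nat_lit 1000, nat_lit 0, nat_lit 0, nat_lit 0, nat_lit 0, nat_lit 0, nat_lit 0, nat_lit 0, nat_lit 0, nat_lit 0, nat_lit 0, nat_lit 0, nat_lit 0, nat_lit 0, nat_lit 0, nat_lit 0, false, false⟩,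
 nat_lit 0, nat_lit 0, nat_lit 10497, nat_lit 0, nat_lit 6882, nat_lit 6679, nat_lit 0, nat_lit 0, nat_lit 0, nat_lit 716, nat_lit 0, nat_lit 0, nat_lit 0, nat_lit 0, nat_lit 0, nat_lit 0, nat_lit 0, nat_lit 0, [],
 ⟨p068_k1, nat_lit 0, nat_lit 0, nat_lit 90, nat_lit 0, nat_lit 0, [nat_lit 3282000000, nat_lit 6250000000, nat_lit 11872000000], [], [nat_lit 19574929760, nat_lit 22566246792, nat_lit 30795560448, nat_lit 32550953456, nat_lit 25291102388, nat_lit 27426686078, nat_lit 33701122798, nat_lit 35258191276], nat_lit 0, nat_lit 0, nat_lit 0, nat_lit 0, nat_lit 0, nat_lit 0, [], [nat_lit 23, nat_lit 40, nat_lit 40, nat_lit 80, nat_lit 12, nat_lit 538, nat_lit 300, nat_lit 13]⟩, ⟨p068_k1, nat_lit 0, nat_lit 0, nat_lit 507, nat_lit 0, nat_lit 565591, [nat_lit 3282000000, nat_lit 6250000000, nat_lit 11872000000], [], [nat_lit 35569244268, nat_lit 36682546364, nat_lit 39918694648, nat_lit 40661068104, nat_lit 32166412372,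 nat_lit 32795591355, nat_lit 35614728639, nat_lit 36342607825], nat_lit 1271250, nat_lit 1271250, nat_lit 1271250, nat_lit 1271250, nat_lit 0, nat_lit 2118750, [nat_lit 780000, nat_lit 1435000, nat_lit 1271250], [nat_lit 23, nat_lit 40, nat_lit 40, nat_lit 80, nat_lit 12, nat_lit 538, nat_lit 300, nat_lit 13]⟩,
 zbF0, [⟨nat_lit 4, nat_lit 100, nat_lit 90, nat_lit 74, nat_lit 581076527⟩, ⟨nat_lit 7, nat_lit 100, nat_lit 90, nat_lit 74, nat_lit 163177359⟩]⟩
noncomputable def b_V_700_700_10_40 : St := ⟨true, nat_lit 0, nat_lit 2, nat_lit 1, nat_lit 80, nat_lit 280, nat_lit 320, nat_lit 280, nat_lit 320, nat_lit 64, nat_lit 400, nat_lit 40, nat_lit 80, nat_lit 0, nat_lit 300, nat_lit 0, nat_lit 300, nat_lit 80, nat_lit 116, nat_lit 0, nat_lit 0, nat_lit 0, nat_lit 0⟩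
theorem d_V_700_700_10_40 (h : EB TB.env) : Dead b_V_700_700_10_40 := chkB_sound0 h (T :=
(.st (nat_lit 1)
(.spl (nat_lit 2) (nat_lit 120)
(.spl (nat_lit 4) (nat_lit 160)
(.spl (nat_lit 5) (nat_lit 160)
(.leaf p068_l117)
(.leaf p068_l118))
(.spl (nat_lit 0) (nat_lit 300)
(.ord (.leaf p068_l119))
(.trZ (nat_lit 0) (nat_lit 100) (nat_lit 94) (nat_lit 88) (nat_lit 80) (.trX (nat_lit 16) (nat_lit 94) (nat_lit 100) (nat_lit 87) (nat_lit 280) (.leaf p068_l120)))))
(.spl (nat_lit 5) (nat_lit 160)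
(.spl (nat_lit 0) (nat_lit 300)
(.ord (.leaf p068_l121))
(.trX (nat_lit 16) (nat_lit 94) (nat_lit 100) (nat_lit 87) (nat_lit 280) (.leaf p068_l122)))
(.leaf p068_l123)))
(.spl (nat_lit 2) (nat_lit 240)
(.spl (nat_lit 0) (nat_lit 300)
(.ord (.spl (nat_lit 6) (nat_lit 92)
(.spl (nat_lit 3) (nat_lit 60)
(.trX (nat_lit 16) (nat_lit 99) (nat_lit 100) (nat_lit 77) (nat_lit 276) (.trX (nat_lit 19) (nat_lit 99) (nat_lit 100) (nat_lit 77) (nat_lit 276) (.leaf p068_l124)))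
(.leaf p068_l125))
(.leaf p068_l126)))
(.trZ (nat_lit 0) (nat_lit 100) (nat_lit 94) (nat_lit 88) (nat_lit 80) (.trX (nat_lit 16) (nat_lit 94) (nat_lit 100) (nat_lit 87) (nat_lit 280) (.spl (nat_lit 4) (nat_lit 160)
(.spl (nat_lit 1) (nat_lit 300)
(.spl (nat_lit 6) (nat_lit 104)
(.spl (nat_lit 2) (nat_lit 120)
(.spl (nat_lit 3) (nat_lit 60)
(.trX (nat_lit 19) (nat_lit 99) (nat_lit 100) (nat_lit 77) (nat_lit 276) (.leaf p068_l127))
(.leaf p068_l128))
(.spl (nat_lit 3) (nat_lit 60)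
(.trX (nat_lit 19) (nat_lit 99) (nat_lit 100) (nat_lit 77) (nat_lit 276) (.leaf p068_l129))
(.spl (nat_lit 6) (nat_lit 92)
(.leaf p068_l130)
(.leaf p068_l131))))
(.leaf p068_l132))
(.trZ (nat_lit 0) (nat_lit 100) (nat_lit 100) (nat_lit 100) (nat_lit 100) (.trX (nat_lit 19) (nat_lit 94) (nat_lit 100) (nat_lit 87) (nat_lit 280) (.spl (nat_lit 3) (nat_lit 60)
(.trX (nat_lit 19) (nat_lit 90) (nat_lit 100) (nat_lit 74) (nat_lit 256) (.leaf p068_l133))
(.leaf p068_l134)))))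
(.spl (nat_lit 2) (nat_lit 120)
(.spl (nat_lit 1) (nat_lit 300)
(.leaf p068_l135)
(.trZ (nat_lit 0) (nat_lit 100) (nat_lit 100) (nat_lit 100) (nat_lit 100) (.trX (nat_lit 19) (nat_lit 94) (nat_lit 100) (nat_lit 87) (nat_lit 280) (.leaf p068_l136))))
(.spl (nat_lit 1) (nat_lit 300)
(.leaf p068_l137)
(.trX (nat_lit 19) (nat_lit 94) (nat_lit 100) (nat_lit 87) (nat_lit 280) (.leaf p068_l138))))))))
(.spl (nat_lit 4) (nat_lit 160)
(.spl (nat_lit 3) (nat_lit 60)
(.trX (nat_lit 19) (nat_lit 99) (nat_lit 100) (nat_lit 77) (nat_lit 276) (.leaf p068_l139))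
(.leaf p068_l140))
(.leaf p068_l141))))) (by decide +kernel)
noncomputable def p068_l142 : Lf2 := ⟨nat_lit 0, nat_lit 20, [nat_lit 5, nat_lit 5, nat_lit 5, nat_lit 20], true, nat_lit 0, nat_lit 300, nat_lit 0, nat_lit 300, ⟨nat_lit 0, nat_lit 1000, nat_lit 0, nat_lit 7, nat_lit 203, nat_lit 1000, nat_lit 107, nat_lit 0, nat_lit 0, nat_lit 0, nat_lit 0, nat_lit 0, nat_lit 0, nat_lit 0, nat_lit 0, nat_lit 5000000, false, false⟩,
 nat_lit 0, nat_lit 0, nat_lit 0, nat_lit 5951, nat_lit 6539, nat_lit 0, nat_lit 353, nat_lit 0, nat_lit 0, nat_lit 0, nat_lit 0, nat_lit 0, nat_lit 0, nat_lit 501055007258, nat_lit 0, nat_lit 250000, nat_lit 0, nat_lit 0, [(nat_lit 13, [(nat_lit 0, nat_lit 1000)])],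
 ⟨p068_k1, nat_lit 0, nat_lit 0, nat_lit 322, nat_lit 0, nat_lit 0, [nat_lit 2378400000, nat_lit 3128000000, nat_lit 3715520000], [], [nat_lit 25519920038, nat_lit 26478194357, nat_lit 24926805167, nat_lit 26174809887, nat_lit 24194327210, nat_lit 25214171982, nat_lit 23855806874, nat_lit 24614050281], nat_lit 0, nat_lit 0, nat_lit 0, nat_lit 0, nat_lit 0, nat_lit 0, [], [nat_lit 23, nat_lit 40, nat_lit 40, nat_lit 80, nat_lit 12, nat_lit 456, nat_lit 225, nat_lit 12]⟩, C1.Rw.none,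
 ⟨nat_lit 5000, nat_lit 5478, ⟨.ofNat (nat_lit 330654), .ofNat (nat_lit 660309), .ofNat (nat_lit 352005), .ofNat (nat_lit 681655), .ofNat (nat_lit 342856), .ofNat (nat_lit 657090), .ofNat (nat_lit 364277), .ofNat (nat_lit 678509)⟩, ⟨.negSucc (nat_lit 45522), .ofNat (nat_lit 516475), .negSucc (nat_lit 2832), .ofNat (nat_lit 559189), .negSucc (nat_lit 28572), .ofNat (nat_lit 507141), .ofNat (nat_lit 0), .ofNat (nat_lit 549998)⟩⟩, [⟨nat_lit 16, nat_lit 94, nat_lit 100, nat_lit 75, nat_lit 57538183⟩]⟩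
noncomputable def p068_l143 : Lf2 := ⟨nat_lit 0, nat_lit 20, [nat_lit 5, nat_lit 5, nat_lit 5, nat_lit 20], true, nat_lit 0, nat_lit 280, nat_lit 0, nat_lit 300, ⟨nat_lit 0, nat_lit 1000, nat_lit 0, nat_lit 7, nat_lit 215, nat_lit 1000, nat_lit 98, nat_lit 0, nat_lit 0, nat_lit 0, nat_lit 0, nat_lit 0, nat_lit 0, nat_lit 0, nat_lit 0, nat_lit 5000000, false, false⟩,
 nat_lit 0, nat_lit 0, nat_lit 0, nat_lit 3080, nat_lit 7745, nat_lit 0, nat_lit 0, nat_lit 0, nat_lit 0, nat_lit 0, nat_lit 0, nat_lit 0, nat_lit 0, nat_lit 17213929416213, nat_lit 0, nat_lit 250000, nat_lit 0, nat_lit 0, [(nat_lit 16, [(nat_lit 0, nat_lit 1000)])],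
 ⟨p068_k4, nat_lit 0, nat_lit 0, nat_lit 200, nat_lit 0, nat_lit 0, [nat_lit 2335200000, nat_lit 2745733334, nat_lit 3400666666], [], [nat_lit 24882398896, nat_lit 26983823726, nat_lit 26916488196, nat_lit 28476620026, nat_lit 24005109426, nat_lit 25323970776, nat_lit 24322876276, nat_lit 25301546576], nat_lit 0, nat_lit 0, nat_lit 0, nat_lit 0, nat_lit 0, nat_lit 0, [], [nat_lit 8, nat_lit 40, nat_lit 40, nat_lit 80, nat_lit 1, nat_lit 373, nat_lit 150, nat_lit 11]⟩, C1.Rw.none,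
 ⟨nat_lit 4472, nat_lit 5000, ⟨.ofNat (nat_lit 371392), .ofNat (nat_lit 657088), .ofNat (nat_lit 414225), .ofNat (nat_lit 699920), .ofNat (nat_lit 382295), .ofNat (nat_lit 654189), .ofNat (nat_lit 425403), .ofNat (nat_lit 697297)⟩, ⟨.negSucc (nat_lit 28572), .ofNat (nat_lit 471427), .ofNat (nat_lit 0), .ofNat (nat_lit 514284), .negSucc (nat_lit 12423), .ofNat (nat_lit 463423), .ofNat (nat_lit 0), .ofNat (nat_lit 506556)⟩⟩, [⟨nat_lit 16, nat_lit 94, nat_lit 100, nat_lit 87, nat_lit 8173475⟩]⟩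
noncomputable def p068_l144 : Lf2 := ⟨nat_lit 0, nat_lit 20, [nat_lit 5, nat_lit 5, nat_lit 5, nat_lit 20], false, nat_lit 0, nat_lit 300, nat_lit 0, nat_lit 300, ⟨nat_lit 1000, nat_lit 0, nat_lit 0, nat_lit 0, nat_lit 0, nat_lit 0, nat_lit 0, nat_lit 0, nat_lit 0, nat_lit 0, nat_lit 0, nat_lit 0, nat_lit 0, nat_lit 0, nat_lit 0, nat_lit 0, false, false⟩,
 nat_lit 0, nat_lit 0, nat_lit 0, nat_lit 5280, nat_lit 10571, nat_lit 10302, nat_lit 110, nat_lit 0, nat_lit 0, nat_lit 181, nat_lit 0, nat_lit 0, nat_lit 0, nat_lit 0, nat_lit 0, nat_lit 0, nat_lit 0, nat_lit 0, [],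
 ⟨p068_k1, nat_lit 0, nat_lit 0, nat_lit 242, nat_lit 0, nat_lit 0, [nat_lit 3282000000, nat_lit 6250000000, nat_lit 11872000000], [], [nat_lit 37015833538, nat_lit 40305985698, nat_lit 49410785650, nat_lit 51101059002, nat_lit 31498801261, nat_lit 33338759307, nat_lit 38579330076, nat_lit 39575125478], nat_lit 0, nat_lit 0, nat_lit 0, nat_lit 0, nat_lit 0, nat_lit 0, [], [nat_lit 23, nat_lit 40, nat_lit 40, nat_lit 80, nat_lit 12, nat_lit 538, nat_lit 300, nat_lit 13]⟩, ⟨p068_k1, nat_lit 0, nat_lit 0, nat_lit 242, nat_lit 0, nat_lit 0, [nat_lit 3282000000, nat_lit 6250000000, nat_lit 11872000000], [], [nat_lit 36228017931, nat_lit 39465187851, nat_lit 48426849675, nat_lit 50100038299, nat_lit 31007608457, nat_lit 32825985709, nat_lit 38006693487, nat_lit 39260336836], nat_lit 0, nat_lit 0, nat_lit 0, nat_lit 0, nat_lit 0, nat_lit 0, [], [nat_lit 23, nat_lit 40, nat_lit 40, nat_lit 80, nat_lit 12, nat_lit 538, nat_lit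 300, nat_lit 13]⟩,
 zbF0, []⟩
noncomputable def p068_l145 : Lf2 := ⟨nat_lit 0, nat_lit 20, [nat_lit 5, nat_lit 5, nat_lit 5, nat_lit 20], true, nat_lit 0, nat_lit 300, nat_lit 0, nat_lit 300, ⟨nat_lit 0, nat_lit 1000, nat_lit 0, nat_lit 7, nat_lit 203, nat_lit 1000, nat_lit 107, nat_lit 0, nat_lit 0, nat_lit 0, nat_lit 0, nat_lit 0, nat_lit 0, nat_lit 0, nat_lit 0, nat_lit 5000000, false, false⟩,
 nat_lit 0, nat_lit 0, nat_lit 0, nat_lit 5951, nat_lit 6539, nat_lit 0, nat_lit 353, nat_lit 0, nat_lit 0, nat_lit 0, nat_lit 0, nat_lit 0, nat_lit 0, nat_lit 501055007258, nat_lit 0, nat_lit 250000, nat_lit 0, nat_lit 0, [(nat_lit 13, [(nat_lit 0, nat_lit 1000)])],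
 ⟨p068_k1, nat_lit 0, nat_lit 0, nat_lit 322, nat_lit 0, nat_lit 0, [nat_lit 2378400000, nat_lit 3128000000, nat_lit 3715520000], [], [nat_lit 25519920038, nat_lit 26478194357, nat_lit 24926805167, nat_lit 26174809887, nat_lit 24194327210, nat_lit 25214171982, nat_lit 23855806874, nat_lit 24614050281], nat_lit 0, nat_lit 0, nat_lit 0, nat_lit 0, nat_lit 0, nat_lit 0, [], [nat_lit 23, nat_lit 40, nat_lit 40, nat_lit 80, nat_lit 12, nat_lit 456, nat_lit 225, nat_lit 12]⟩, C1.Rw.none,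
 ⟨nat_lit 5000, nat_lit 5478, ⟨.ofNat (nat_lit 330654), .ofNat (nat_lit 660309), .ofNat (nat_lit 352005), .ofNat (nat_lit 681655), .ofNat (nat_lit 342856), .ofNat (nat_lit 657090), .ofNat (nat_lit 364277), .ofNat (nat_lit 678509)⟩, ⟨.negSucc (nat_lit 45522), .ofNat (nat_lit 516475), .negSucc (nat_lit 2832), .ofNat (nat_lit 559189), .negSucc (nat_lit 28572), .ofNat (nat_lit 507141), .ofNat (nat_lit 0), .ofNat (nat_lit 549998)⟩⟩, [⟨nat_lit 16, nat_lit 94, nat_lit 100, nat_lit 75, nat_lit 57538183⟩]⟩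
noncomputable def p068_l146 : Lf2 := ⟨nat_lit 0, nat_lit 20, [nat_lit 5, nat_lit 5, nat_lit 5, nat_lit 20], true, nat_lit 0, nat_lit 280, nat_lit 0, nat_lit 300, ⟨nat_lit 0, nat_lit 1000, nat_lit 0, nat_lit 7, nat_lit 215, nat_lit 1000, nat_lit 98, nat_lit 0, nat_lit 0, nat_lit 0, nat_lit 0, nat_lit 0, nat_lit 0, nat_lit 0, nat_lit 0, nat_lit 5000000, false, false⟩,
 nat_lit 0, nat_lit 0, nat_lit 0, nat_lit 3080, nat_lit 7745, nat_lit 0, nat_lit 0, nat_lit 0, nat_lit 0, nat_lit 0, nat_lit 0, nat_lit 0, nat_lit 0, nat_lit 17213929416213, nat_lit 0, nat_lit 250000, nat_lit 0, nat_lit 0, [(nat_lit 16, [(nat_lit 0, nat_lit 1000)])],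
 ⟨p068_k4, nat_lit 0, nat_lit 0, nat_lit 200, nat_lit 0, nat_lit 0, [nat_lit 2335200000, nat_lit 2745733334, nat_lit 3400666666], [], [nat_lit 24882398896, nat_lit 26983823726, nat_lit 26916488196, nat_lit 28476620026, nat_lit 24005109426, nat_lit 25323970776, nat_lit 24322876276, nat_lit 25301546576], nat_lit 0, nat_lit 0, nat_lit 0, nat_lit 0, nat_lit 0, nat_lit 0, [], [nat_lit 8, nat_lit 40, nat_lit 40, nat_lit 80, nat_lit 1, nat_lit 373, nat_lit 150, nat_lit 11]⟩, C1.Rw.none,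
 ⟨nat_lit 4472, nat_lit 5000, ⟨.ofNat (nat_lit 371392), .ofNat (nat_lit 657088), .ofNat (nat_lit 414225), .ofNat (nat_lit 699920), .ofNat (nat_lit 382295), .ofNat (nat_lit 654189), .ofNat (nat_lit 425403), .ofNat (nat_lit 697297)⟩, ⟨.negSucc (nat_lit 28572), .ofNat (nat_lit 471427), .ofNat (nat_lit 0), .ofNat (nat_lit 514284), .negSucc (nat_lit 12423), .ofNat (nat_lit 463423), .ofNat (nat_lit 0), .ofNat (nat_lit 506556)⟩⟩, [⟨nat_lit 16, nat_lit 94, nat_lit 100, nat_lit 87, nat_lit 8173475⟩]⟩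
noncomputable def p068_l147 : Lf2 := ⟨nat_lit 0, nat_lit 20, [nat_lit 5, nat_lit 5, nat_lit 5, nat_lit 20], false, nat_lit 0, nat_lit 160, nat_lit 0, nat_lit 300, ⟨nat_lit 462, nat_lit 538, nat_lit 0, nat_lit 7, nat_lit 324, nat_lit 538, nat_lit 56, nat_lit 0, nat_lit 0, nat_lit 0, nat_lit 0, nat_lit 0, nat_lit 0, nat_lit 0, nat_lit 0, nat_lit 5000000, true, true⟩,
 nat_lit 0, nat_lit 0, nat_lit 5171, nat_lit 0, nat_lit 5465, nat_lit 3290, nat_lit 461, nat_lit 0, nat_lit 0, nat_lit 335, nat_lit 0, nat_lit 0, nat_lit 0, nat_lit 0, nat_lit 0, nat_lit 215200, nat_lit 0, nat_lit 0, [(nat_lit 13, [(nat_lit 1, nat_lit 538)]), (nat_lit 16, [(nat_lit 1, nat_lit 538)])],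
 ⟨p068_k1, nat_lit 0, nat_lit 0, nat_lit 242, nat_lit 0, nat_lit 0, [nat_lit 2628365867, nat_lit 4433927201, nat_lit 6777785600], [], [nat_lit 28035903696, nat_lit 29851478596, nat_lit 35198863475, nat_lit 36564844555, nat_lit 25018334016, nat_lit 26558187516, nat_lit 30946942596, nat_lit 31903102556], nat_lit 0, nat_lit 0, nat_lit 0, nat_lit 0, nat_lit 0, nat_lit 0, [], [nat_lit 23, nat_lit 40, nat_lit 40, nat_lit 80, nat_lit 12, nat_lit 456, nat_lit 225, nat_lit 11]⟩, ⟨p068_k1, nat_lit 0, nat_lit 0, nat_lit 401, nat_lit 0, nat_lit 371488, [nat_lit 1516284000, nat_lit 2887500000, nat_lit 5484864000], [], [nat_lit 15968860954, nat_lit 16229529754, nat_lit 18307060585, nat_lit 18646900953, nat_lit 14142922910, nat_lit 14288153077, nat_lit 15884459892, nat_lit 16054758545], nat_lit 1271250, nat_lit 1271250, nat_lit 1271250, nat_lit 1271250, nat_lit 0, nat_lit 2118750, [nat_lit 780000, nat_lit 1435000, nat_lit 1271250],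 [nat_lit 23, nat_lit 40, nat_lit 40, nat_lit 80, nat_lit 12, nat_lit 483, nat_lit 250, nat_lit 12]⟩,
 ⟨nat_lit 4472, nat_lit 5478, ⟨.ofNat (nat_lit 660148), .ofNat (nat_lit 959740), .ofNat (nat_lit 681461), .ofNat (nat_lit 981053), .ofNat (nat_lit 654031), .ofNat (nat_lit 925804), .ofNat (nat_lit 675553), .ofNat (nat_lit 947326)⟩, ⟨.negSucc (nat_lit 45522), .ofNat (nat_lit 254209), .negSucc (nat_lit 2834), .ofNat (nat_lit 296923), .negSucc (nat_lit 12423), .ofNat (nat_lit 259489), .ofNat (nat_lit 0), .ofNat (nat_lit 302621)⟩⟩, [⟨nat_lit 22, nat_lit 83, nat_lit 100, nat_lit 83, nat_lit 58404798⟩]⟩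
noncomputable def p068_l148 : Lf2 := ⟨nat_lit 0, nat_lit 20, [nat_lit 5, nat_lit 5, nat_lit 5, nat_lit 20], false, nat_lit 0, nat_lit 160, nat_lit 0, nat_lit 280, ⟨nat_lit 1000, nat_lit 0, nat_lit 0, nat_lit 0, nat_lit 0, nat_lit 0, nat_lit 0, nat_lit 0, nat_lit 0, nat_lit 0, nat_lit 0, nat_lit 0, nat_lit 0, nat_lit 0, nat_lit 0, nat_lit 0, false, false⟩,
 nat_lit 0, nat_lit 0, nat_lit 8186, nat_lit 0, nat_lit 7224, nat_lit 5667, nat_lit 398, nat_lit 0, nat_lit 0, nat_lit 771, nat_lit 0, nat_lit 0, nat_lit 0, nat_lit 0, nat_lit 0, nat_lit 0, nat_lit 0, nat_lit 0, [],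
 ⟨p068_k4, nat_lit 0, nat_lit 0, nat_lit 219, nat_lit 0, nat_lit 0, [nat_lit 3282000000, nat_lit 6250000000, nat_lit 9842000000], [], [nat_lit 30802322118, nat_lit 31964625222, nat_lit 40637177596, nat_lit 41484917344, nat_lit 26152454086, nat_lit 27120594374, nat_lit 33692027596, nat_lit 34419888876], nat_lit 0, nat_lit 0, nat_lit 0, nat_lit 0, nat_lit 0, nat_lit 0, [], [nat_lit 8, nat_lit 40, nat_lit 40, nat_lit 80, nat_lit 1, nat_lit 373, nat_lit 150, nat_lit 10]⟩, ⟨p068_k4, nat_lit 0, nat_lit 0, nat_lit 431, nat_lit 0, nat_lit 501102, [nat_lit 3282000000, nat_lit 6250000000, nat_lit 9842000000], [], [nat_lit 31693991543, nat_lit 32298377421, nat_lit 36625876502, nat_lit 37128811252, nat_lit 30181812483, nat_lit 30649939730, nat_lit 34212951291, nat_lit 34561297985], nat_lit 1271250, nat_lit 1271250, nat_lit 1271250, nat_lit 1271250, nat_lit 0, nat_lit 1977500, [nat_lit 780000, nat_lit 1435000, nat_lit 1271250],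 [nat_lit 8, nat_lit 40, nat_lit 40, nat_lit 80, nat_lit 1, nat_lit 401, nat_lit 175, nat_lit 11]⟩,
 zbF0, [⟨nat_lit 7, nat_lit 100, nat_lit 85, nat_lit 73, nat_lit 206595669⟩, ⟨nat_lit 22, nat_lit 84, nat_lit 100, nat_lit 35, nat_lit 5821072⟩]⟩
noncomputable def p068_l149 : Lf2 := ⟨nat_lit 0, nat_lit 20, [nat_lit 5, nat_lit 5, nat_lit 5, nat_lit 20], false, nat_lit 160, nat_lit 300, nat_lit 0, nat_lit 300, ⟨nat_lit 1000, nat_lit 0, nat_lit 0, nat_lit 0, nat_lit 0, nat_lit 0, nat_lit 0, nat_lit 0, nat_lit 0, nat_lit 0, nat_lit 0, nat_lit 0, nat_lit 0, nat_lit 0, nat_lit 0, nat_lit 0, false, false⟩,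
 nat_lit 0, nat_lit 0, nat_lit 10497, nat_lit 0, nat_lit 6882, nat_lit 6679, nat_lit 0, nat_lit 0, nat_lit 0, nat_lit 716, nat_lit 0, nat_lit 0, nat_lit 0, nat_lit 0, nat_lit 0, nat_lit 0, nat_lit 0, nat_lit 0, [],
 ⟨p068_k1, nat_lit 0, nat_lit 0, nat_lit 90, nat_lit 0, nat_lit 0, [nat_lit 3282000000, nat_lit 6250000000, nat_lit 11872000000], [], [nat_lit 19574929760, nat_lit 22566246792, nat_lit 30795560448, nat_lit 32550953456, nat_lit 25291102388, nat_lit 27426686078, nat_lit 33701122798, nat_lit 35258191276], nat_lit 0, nat_lit 0, nat_lit 0, nat_lit 0, nat_lit 0, nat_lit 0, [], [nat_lit 23, nat_lit 40, nat_lit 40, nat_lit 80, nat_lit 12, nat_lit 538, nat_lit 300, nat_lit 13]⟩, ⟨p068_k1, nat_lit 0, nat_lit 0, nat_lit 507, nat_lit 0, nat_lit 565591, [nat_lit 3282000000, nat_lit 6250000000, nat_lit 11872000000], [], [nat_lit 35569244268, nat_lit 36682546364, nat_lit 39918694648, nat_lit 40661068104, nat_lit 32166412372,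 nat_lit 32795591355, nat_lit 35614728639, nat_lit 36342607825], nat_lit 1271250, nat_lit 1271250, nat_lit 1271250, nat_lit 1271250, nat_lit 0, nat_lit 2118750, [nat_lit 780000, nat_lit 1435000, nat_lit 1271250], [nat_lit 23, nat_lit 40, nat_lit 40, nat_lit 80, nat_lit 12, nat_lit 538, nat_lit 300, nat_lit 13]⟩,
 zbF0, [⟨nat_lit 4, nat_lit 100, nat_lit 90, nat_lit 74, nat_lit 581076527⟩, ⟨nat_lit 19, nat_lit 90, nat_lit 100, nat_lit 74, nat_lit 163177359⟩]⟩
noncomputable def b_V_700_700_10_41 : St := ⟨true, nat_lit 0, nat_lit 2, nat_lit 2, nat_lit 80, nat_lit 280, nat_lit 320, nat_lit 280, nat_lit 320, nat_lit 64, nat_lit 400, nat_lit 40, nat_lit 80, nat_lit 0, nat_lit 300, nat_lit 0, nat_lit 300, nat_lit 80, nat_lit 116, nat_lit 0, nat_lit 0, nat_lit 0, nat_lit 0⟩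
theorem d_V_700_700_10_41 (h : EB TB.env) : Dead b_V_700_700_10_41 := chkB_sound0 h (T :=
(.st (nat_lit 1)
(.spl (nat_lit 2) (nat_lit 240)
(.spl (nat_lit 0) (nat_lit 300)
(.ord (.leaf p068_l142))
(.trZ (nat_lit 0) (nat_lit 100) (nat_lit 94) (nat_lit 88) (nat_lit 80) (.trX (nat_lit 16) (nat_lit 94) (nat_lit 100) (nat_lit 87) (nat_lit 280) (.leaf p068_l143))))
(.leaf p068_l144))
(.spl (nat_lit 2) (nat_lit 240)
(.spl (nat_lit 0) (nat_lit 300)
(.ord (.leaf p068_l145))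
(.trZ (nat_lit 0) (nat_lit 100) (nat_lit 94) (nat_lit 88) (nat_lit 80) (.trX (nat_lit 16) (nat_lit 94) (nat_lit 100) (nat_lit 87) (nat_lit 280) (.leaf p068_l146))))
(.spl (nat_lit 4) (nat_lit 160)
(.spl (nat_lit 1) (nat_lit 300)
(.leaf p068_l147)
(.ord (.trX (nat_lit 19) (nat_lit 94) (nat_lit 100) (nat_lit 87) (nat_lit 280) (.leaf p068_l148))))
(.leaf p068_l149))))) (by decide +kernel)

end B2
end Pool.Agent.Lib.MP_6947cd_al
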