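import Pool.Agent.Lib.MP_6947cd_al.ZB.Pre

/-!
Problem MP_6947cd_al (Chollet).  Case B, second entry in [2/5, 17/20]: certificates of the tree, part P069 (generated).
-/

set_option autoImplicit false
set_option linter.all false

namespace Pool.Agent.Lib.MP_6947cd_al
namespace B2

open Ent Fr B1 PkA

noncomputable def p069_k0 : C1.Kn := ⟨[nat_lit 60, nat_lit 100, nat_lit 140], [nat_lit 0, nat_lit 609, nat_lit 2558], [(nat_lit 0, nat_lit 0, nat_lit 0), (nat_lit 1000, nat_lit 905, nat_lit 238), (nat_lit 1000, nat_lit 904, nat_lit 760)], (nat_lit 90, nat_lit 100, nat_lit 74)⟩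
noncomputable def p069_k1 : C1.Kn := ⟨[nat_lit 60, nat_lit 100, nat_lit 140], [nat_lit 0, nat_lit 0, nat_lit 2047], [(nat_lit 0, nat_lit 0, nat_lit 0), (nat_lit 0, nat_lit 0, nat_lit 0), (nat_lit 1000, nat_lit 993, nat_lit 781)], (nat_lit 99, nat_lit 100, nat_lit 77)⟩
noncomputable def p069_k2 : C1.Kn := ⟨[nat_lit 60, nat_lit 100, nat_lit 160], [nat_lit 0, nat_lit 0, nat_lit 3069], [(nat_lit 0, nat_lit 0, nat_lit 0), (nat_lit 0, nat_lit 0, nat_lit 0), (nat_lit 1000, nat_lit 999, nat_lit 798)], (nat_lit 100, nat_lit 95, nat_lit 87)⟩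
noncomputable def p069_k3 : C1.Kn := ⟨[nat_lit 60, nat_lit 80, nat_lit 140], [nat_lit 0, nat_lit 0, nat_lit 1595], [(nat_lit 0, nat_lit 0, nat_lit 0), (nat_lit 0, nat_lit 0, nat_lit 0), (nat_lit 1000, nat_lit 917, nat_lit 415)], (nat_lit 99, nat_lit 100, nat_lit 77)⟩
noncomputable def p069_k4 : C1.Kn := ⟨[nat_lit 60, nat_lit 100, nat_lit 140], [nat_lit 0, nat_lit 609, nat_lit 2558], [(nat_lit 0, nat_lit 0, nat_lit 0), (nat_lit 1000, nat_lit 905, nat_lit 238), (nat_lit 1000, nat_lit 904, nat_lit 760)], (nat_lit 94, nat_lit 100, nat_lit 87)⟩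
noncomputable def p069_k5 : C1.Kn := ⟨[nat_lit 60, nat_lit 100, nat_lit 140], [nat_lit 0, nat_lit 909, nat_lit 2819], [(nat_lit 0, nat_lit 0, nat_lit 0), (nat_lit 1000, nat_lit 858, nat_lit 354), (nat_lit 1000, nat_lit 858, nat_lit 746)], (nat_lit 89, nat_lit 100, nat_lit 85)⟩
noncomputable def p069_k6 : C1.Kn := ⟨[nat_lit 60, nat_lit 100, nat_lit 160], [nat_lit 0, nat_lit 302, nat_lit 3303], [(nat_lit 0, nat_lit 0, nat_lit 0), (nat_lit 1000, nat_lit 953, nat_lit 118), (nat_lit 1000, nat_lit 952, nat_lit 781)], (nat_lit 100, nat_lit 100, nat_lit 89)⟩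
noncomputable def p069_k7 : C1.Kn := ⟨[nat_lit 60, nat_lit 100, nat_lit 140], [nat_lit 0, nat_lit 0, nat_lit 2047], [(nat_lit 0, nat_lit 0, nat_lit 0), (nat_lit 0, nat_lit 0, nat_lit 0), (nat_lit 1000, nat_lit 993, nat_lit 781)], (nat_lit 94, nat_lit 100, nat_lit 62)⟩
noncomputable def p069_k8 : C1.Kn := ⟨[nat_lit 60, nat_lit 100, nat_lit 120], [nat_lit 0, nat_lit 609, nat_lit 1609], [(nat_lit 0, nat_lit 0, nat_lit 0), (nat_lit 1000, nat_lit 905, nat_lit 238), (nat_lit 1000, nat_lit 882, nat_lit 668)], (nat_lit 87, nat_lit 100, nat_lit 60)⟩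
noncomputable def p069_k9 : C1.Kn := ⟨[nat_lit 60, nat_lit 140], [nat_lit 0, nat_lit 0], [(nat_lit 0, nat_lit 0, nat_lit 0), (nat_lit 0, nat_lit 0, nat_lit 0)], (nat_lit 94, nat_lit 100, nat_lit 62)⟩
noncomputable def p069_k10 : C1.Kn := ⟨[nat_lit 60, nat_lit 100, nat_lit 140], [nat_lit 0, nat_lit 151, nat_lit 2175], [(nat_lit 0, nat_lit 0, nat_lit 0), (nat_lit 1000, nat_lit 977, nat_lit 59), (nat_lit 1000, nat_lit 974, nat_lit 785)], (nat_lit 92, nat_lit 100, nat_lit 61)⟩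
noncomputable def p069_k11 : C1.Kn := ⟨[nat_lit 60, nat_lit 100, nat_lit 120], [nat_lit 0, nat_lit 302, nat_lit 1376], [(nat_lit 0, nat_lit 0, nat_lit 0), (nat_lit 1000, nat_lit 953, nat_lit 118), (nat_lit 1000, nat_lit 911, nat_lit 628)], (nat_lit 91, nat_lit 100, nat_lit 61)⟩
noncomputable def p069_k12 : C1.Kn := ⟨[nat_lit 60, nat_lit 120], [nat_lit 0, nat_lit 913], [(nat_lit 0, nat_lit 0, nat_lit 0), (nat_lit 1000, nat_lit 905, nat_lit 238)], (nat_lit 87, nat_lit 100, nat_lit 60)⟩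
noncomputable def p069_k13 : C1.Kn := ⟨[nat_lit 30, nat_lit 60, nat_lit 70, nat_lit 90, nat_lit 130], [nat_lit 0, nat_lit 0, nat_lit 0, nat_lit 280, nat_lit 1294], [(nat_lit 0, nat_lit 0, nat_lit 0), (nat_lit 0, nat_lit 0, nat_lit 0), (nat_lit 0, nat_lit 0, nat_lit 0), (nat_lit 1000, nat_lit 934, nat_lit 219), (nat_lit 1000, nat_lit 917, nat_lit 396)], (nat_lit 94, nat_lit 100, nat_lit 62)⟩
noncomputable def p069_k14 : C1.Kn := ⟨[nat_lit 60, nat_lit 80, nat_lit 130], [nat_lit 0, nat_lit 0, nat_lit 1330], [(nat_lit 0, nat_lit 0, nat_lit 0), (nat_lit 0, nat_lit 0, nat_lit 0), (nat_lit 1000, nat_lit 917, nat_lit 415)], (nat_lit 94, nat_lit 100, nat_lit 62)⟩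
noncomputable def p069_k15 : C1.Kn := ⟨[nat_lit 60, nat_lit 70, nat_lit 90, nat_lit 130], [nat_lit 0, nat_lit 0, nat_lit 280, nat_lit 1294], [(nat_lit 0, nat_lit 0, nat_lit 0), (nat_lit 0, nat_lit 0, nat_lit 0), (nat_lit 1000, nat_lit 934, nat_lit 219), (nat_lit 1000, nat_lit 917, nat_lit 396)], (nat_lit 94, nat_lit 100, nat_lit 62)⟩
noncomputable def p069_k16 : C1.Kn := ⟨[nat_lit 60, nat_lit 70, nat_lit 90, nat_lit 130], [nat_lit 0, nat_lit 37, nat_lit 318, nat_lit 1463], [(nat_lit 0, nat_lit 0, nat_lit 0), (nat_lit 1000, nat_lit 977, nat_lit 59), (nat_lit 1000, nat_lit 928, nat_lit 219), (nat_lit 1000, nat_lit 905, nat_lit 447)], (nat_lit 92, nat_lit 100, nat_lit 61)⟩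
noncomputable def p069_k17 : C1.Kn := ⟨[nat_lit 40, nat_lit 60, nat_lit 80, nat_lit 140], [nat_lit 0, nat_lit 0, nat_lit 0, nat_lit 1595], [(nat_lit 0, nat_lit 0, nat_lit 0), (nat_lit 0, nat_lit 0, nat_lit 0), (nat_lit 0, nat_lit 0, nat_lit 0), (nat_lit 1000, nat_lit 917, nat_lit 415)], (nat_lit 94, nat_lit 100, nat_lit 62)⟩
noncomputable def p069_k18 : C1.Kn := ⟨[nat_lit 60, nat_lit 100, nat_lit 120], [nat_lit 0, nat_lit 0, nat_lit 1164], [(nat_lit 0, nat_lit 0, nat_lit 0), (nat_lit 0, nat_lit 0, nat_lit 0), (nat_lit 1000, nat_lit 933, nat_lit 572)], (nat_lit 92, nat_lit 100, nat_lit 51)⟩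
noncomputable def p069_k19 : C1.Kn := ⟨[nat_lit 60, nat_lit 80, nat_lit 120], [nat_lit 0, nat_lit 0, nat_lit 1064], [(nat_lit 0, nat_lit 0, nat_lit 0), (nat_lit 0, nat_lit 0, nat_lit 0), (nat_lit 1000, nat_lit 917, nat_lit 415)], (nat_lit 92, nat_lit 100, nat_lit 51)⟩
noncomputable def p069_k20 : C1.Kn := ⟨[nat_lit 60, nat_lit 70, nat_lit 90, nat_lit 120], [nat_lit 0, nat_lit 0, nat_lit 280, nat_lit 1041], [(nat_lit 0, nat_lit 0, nat_lit 0), (nat_lit 0, nat_lit 0, nat_lit 0), (nat_lit 1000, nat_lit 934, nat_lit 219), (nat_lit 1000, nat_lit 917, nat_lit 396)], (nat_lit 92, nat_lit 100, nat_lit 51)⟩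
noncomputable def p069_k21 : C1.Kn := ⟨[nat_lit 60, nat_lit 70, nat_lit 90, nat_lit 110], [nat_lit 0, nat_lit 37, nat_lit 318, nat_lit 891], [(nat_lit 0, nat_lit 0, nat_lit 0), (nat_lit 1000, nat_lit 977, nat_lit 59), (nat_lit 1000, nat_lit 928, nat_lit 219), (nat_lit 1000, nat_lit 905, nat_lit 447)], (nat_lit 91, nat_lit 100, nat_lit 51)⟩
noncomputable def p069_k22 : C1.Kn := ⟨[nat_lit 60, nat_lit 80, nat_lit 120], [nat_lit 0, nat_lit 75, nat_lit 1136], [(nat_lit 0, nat_lit 0, nat_lit 0), (nat_lit 1000, nat_lit 977, nat_lit 59), (nat_lit 1000, nat_lit 905, nat_lit 414)], (nat_lit 91, nat_lit 100, nat_lit 51)⟩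
noncomputable def p069_k23 : C1.Kn := ⟨[nat_lit 60, nat_lit 80, nat_lit 140], [nat_lit 0, nat_lit 0, nat_lit 1595], [(nat_lit 0, nat_lit 0, nat_lit 0), (nat_lit 0, nat_lit 0, nat_lit 0), (nat_lit 1000, nat_lit 917, nat_lit 415)], (nat_lit 94, nat_lit 100, nat_lit 62)⟩
noncomputable def p069_k24 : C1.Kn := ⟨[nat_lit 40, nat_lit 60, nat_lit 80, nat_lit 120], [nat_lit 0, nat_lit 0, nat_lit 151, nat_lit 1205], [(nat_lit 0, nat_lit 0, nat_lit 0), (nat_lit 0, nat_lit 0, nat_lit 0), (nat_lit 1000, nat_lit 953, nat_lit 118), (nat_lit 1000, nat_lit 894, nat_lit 411)], (nat_lit 91, nat_lit 100, nat_lit 61)⟩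
noncomputable def p069_k25 : C1.Kn := ⟨[nat_lit 30, nat_lit 60, nat_lit 80, nat_lit 120], [nat_lit 0, nat_lit 0, nat_lit 151, nat_lit 1205], [(nat_lit 0, nat_lit 0, nat_lit 0), (nat_lit 0, nat_lit 0, nat_lit 0), (nat_lit 1000, nat_lit 953, nat_lit 118), (nat_lit 1000, nat_lit 894, nat_lit 411)], (nat_lit 91, nat_lit 100, nat_lit 61)⟩
noncomputable def p069_k26 : C1.Kn := ⟨[nat_lit 60, nat_lit 80, nat_lit 120], [nat_lit 0, nat_lit 151, nat_lit 1205], [(nat_lit 0, nat_lit 0, nat_lit 0), (nat_lit 1000, nat_lit 953, nat_lit 118), (nat_lit 1000, nat_lit 894, nat_lit 411)], (nat_lit 91, nat_lit 100, nat_lit 61)⟩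
noncomputable def p069_k27 : C1.Kn := ⟨[nat_lit 60, nat_lit 80, nat_lit 120], [nat_lit 0, nat_lit 228, nat_lit 1272], [(nat_lit 0, nat_lit 0, nat_lit 0), (nat_lit 1000, nat_lit 929, nat_lit 178), (nat_lit 1000, nat_lit 883, nat_lit 407)], (nat_lit 89, nat_lit 100, nat_lit 61)⟩
noncomputable def p069_k28 : C1.Kn := ⟨[nat_lit 60, nat_lit 100, nat_lit 120], [nat_lit 0, nat_lit 455, nat_lit 1489], [(nat_lit 0, nat_lit 0, nat_lit 0), (nat_lit 1000, nat_lit 929, nat_lit 178), (nat_lit 1000, nat_lit 895, nat_lit 641)], (nat_lit 89, nat_lit 100, nat_lit 61)⟩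
noncomputable def p069_k29 : C1.Kn := ⟨[nat_lit 60, nat_lit 80, nat_lit 100], [nat_lit 0, nat_lit 151, nat_lit 679], [(nat_lit 0, nat_lit 0, nat_lit 0), (nat_lit 1000, nat_lit 953, nat_lit 118), (nat_lit 1000, nat_lit 894, nat_lit 411)], (nat_lit 89, nat_lit 100, nat_lit 44)⟩
noncomputable def p069_k30 : C1.Kn := ⟨[nat_lit 60, nat_lit 80, nat_lit 120], [nat_lit 0, nat_lit 0, nat_lit 1064], [(nat_lit 0, nat_lit 0, nat_lit 0), (nat_lit 0, nat_lit 0, nat_lit 0), (nat_lit 1000, nat_lit 917, nat_lit 415)], (nat_lit 92, nat_lit 100, nat_lit 44)⟩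
noncomputable def p069_k31 : C1.Kn := ⟨[nat_lit 30, nat_lit 60, nat_lit 80, nat_lit 100], [nat_lit 0, nat_lit 0, nat_lit 151, nat_lit 679], [(nat_lit 0, nat_lit 0, nat_lit 0), (nat_lit 0, nat_lit 0, nat_lit 0), (nat_lit 1000, nat_lit 953, nat_lit 118), (nat_lit 1000, nat_lit 894, nat_lit 411)], (nat_lit 89, nat_lit 100, nat_lit 44)⟩
noncomputable def p069_k32 : C1.Kn := ⟨[nat_lit 40, nat_lit 60, nat_lit 80, nat_lit 100], [nat_lit 0, nat_lit 0, nat_lit 151, nat_lit 679], [(nat_lit 0, nat_lit 0, nat_lit 0), (nat_lit 0, nat_lit 0, nat_lit 0), (nat_lit 1000, nat_lit 953, nat_lit 118), (nat_lit 1000, nat_lit 894, nat_lit 411)], (nat_lit 89, nat_lit 100, nat_lit 44)⟩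
noncomputable def p069_k33 : C1.Kn := ⟨[nat_lit 40, nat_lit 60, nat_lit 80, nat_lit 120], [nat_lit 0, nat_lit 0, nat_lit 0, nat_lit 1064], [(nat_lit 0, nat_lit 0, nat_lit 0), (nat_lit 0, nat_lit 0, nat_lit 0), (nat_lit 0, nat_lit 0, nat_lit 0), (nat_lit 1000, nat_lit 917, nat_lit 415)], (nat_lit 92, nat_lit 100, nat_lit 44)⟩
noncomputable def p069_k34 : C1.Kn := ⟨[nat_lit 60, nat_lit 120], [nat_lit 0, nat_lit 0], [(nat_lit 0, nat_lit 0, nat_lit 0), (nat_lit 0, nat_lit 0, nat_lit 0)], (nat_lit 92, nat_lit 100, nat_lit 44)⟩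
noncomputable def p069_k35 : C1.Kn := ⟨[nat_lit 60, nat_lit 120], [nat_lit 0, nat_lit 453], [(nat_lit 0, nat_lit 0, nat_lit 0), (nat_lit 1000, nat_lit 953, nat_lit 118)], (nat_lit 91, nat_lit 100, nat_lit 61)⟩
noncomputable def p069_k36 : C1.Kn := ⟨[nat_lit 60, nat_lit 80, nat_lit 90], [nat_lit 0, nat_lit 0, nat_lit 307], [(nat_lit 0, nat_lit 0, nat_lit 0), (nat_lit 0, nat_lit 0, nat_lit 0), (nat_lit 1000, nat_lit 922, nat_lit 296)], (nat_lit 92, nat_lit 100, nat_lit 28)⟩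
noncomputable def p069_k37 : C1.Kn := ⟨[nat_lit 60, nat_lit 80, nat_lit 100], [nat_lit 0, nat_lit 0, nat_lit 534], [(nat_lit 0, nat_lit 0, nat_lit 0), (nat_lit 0, nat_lit 0, nat_lit 0), (nat_lit 1000, nat_lit 917, nat_lit 393)], (nat_lit 92, nat_lit 100, nat_lit 28)⟩
noncomputable def p069_k38 : C1.Kn := ⟨[nat_lit 60, nat_lit 80, nat_lit 90], [nat_lit 0, nat_lit 151, nat_lit 425], [(nat_lit 0, nat_lit 0, nat_lit 0), (nat_lit 1000, nat_lit 953, nat_lit 118), (nat_lit 1000, nat_lit 898, nat_lit 352)], (nat_lit 91, nat_lit 100, nat_lit 28)⟩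
noncomputable def p069_k39 : C1.Kn := ⟨[nat_lit 60, nat_lit 80, nat_lit 90], [nat_lit 0, nat_lit 75, nat_lit 363], [(nat_lit 0, nat_lit 0, nat_lit 0), (nat_lit 1000, nat_lit 977, nat_lit 59), (nat_lit 1000, nat_lit 911, nat_lit 320)], (nat_lit 92, nat_lit 100, nat_lit 28)⟩
noncomputable def p069_k40 : C1.Kn := ⟨[nat_lit 60, nat_lit 80, nat_lit 100], [nat_lit 0, nat_lit 75, nat_lit 606], [(nat_lit 0, nat_lit 0, nat_lit 0), (nat_lit 1000, nat_lit 977, nat_lit 59), (nat_lit 1000, nat_lit 905, nat_lit 411)], (nat_lit 92, nat_lit 100, nat_lit 28)⟩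
noncomputable def p069_k41 : C1.Kn := ⟨[nat_lit 60, nat_lit 100, nat_lit 120], [nat_lit 0, nat_lit 0, nat_lit 1164], [(nat_lit 0, nat_lit 0, nat_lit 0), (nat_lit 0, nat_lit 0, nat_lit 0), (nat_lit 1000, nat_lit 933, nat_lit 572)], (nat_lit 92, nat_lit 100, nat_lit 44)⟩
noncomputable def p069_l0 : Lf2 := ⟨nat_lit 1, nat_lit 15, [nat_lit 30, nat_lit 5, nat_lit 5, nat_lit 20], false, nat_lit 0, nat_lit 160, nat_lit 0, nat_lit 276, zbN0,
 nat_lit 0, nat_lit 0, nat_lit 0, nat_lit 0, nat_lit 0, nat_lit 0, nat_lit 0, nat_lit 0, nat_lit 0, nat_lit 0, nat_lit 0, nat_lit 0, nat_lit 0, nat_lit 0, nat_lit 0, nat_lit 0, nat_lit 0, nat_lit 0, [],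
 C1.Rw.none, C1.Rw.none,
 zbF0, []⟩
noncomputable def p069_l1 : Lf2 := ⟨nat_lit 0, nat_lit 15, [nat_lit 30, nat_lit 5, nat_lit 5, nat_lit 20], false, nat_lit 0, nat_lit 160, nat_lit 0, nat_lit 276, ⟨nat_lit 1000, nat_lit 0, nat_lit 0, nat_lit 0, nat_lit 0, nat_lit 0, nat_lit 0, nat_lit 0, nat_lit 0, nat_lit 0, nat_lit 0, nat_lit 0, nat_lit 0, nat_lit 0, nat_lit 0, nat_lit 0, false, false⟩,
 nat_lit 0, nat_lit 11039, nat_lit 0, nat_lit 0, nat_lit 7642, nat_lit 16807, nat_lit 606, nat_lit 0, nat_lit 0, nat_lit 0, nat_lit 0, nat_lit 0, nat_lit 0, nat_lit 0, nat_lit 0, nat_lit 0, nat_lit 0, nat_lit 0, [],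
 ⟨p069_k0, nat_lit 0, nat_lit 0, nat_lit 312, nat_lit 0, nat_lit 173633, [nat_lit 3282000000, nat_lit 6250000000, nat_lit 9842000000], [], [nat_lit 29777592712, nat_lit 28508692718, nat_lit 28485016848, nat_lit 30032816076, nat_lit 22173388534, nat_lit 23511543190, nat_lit 30885884428, nat_lit 27469910428], nat_lit 1271250, nat_lit 1271250, nat_lit 490000, nat_lit 1740000, nat_lit 0, nat_lit 1100001, [nat_lit 780000, nat_lit 1435000, nat_lit 1271250], [nat_lit 8, nat_lit 40, nat_lit 40, nat_lit 80, nat_lit 1, nat_lit 317, nat_lit 100, nat_lit 9]⟩, ⟨p069_k1, nat_lit 0, nat_lit 0, nat_lit 187, nat_lit 0, nat_lit 0, [nat_lit 3282000000, nat_lit 6250000000, nat_lit 9842000000], [], [nat_lit 32402344440, nat_lit 36116207178, nat_lit 33228217020, nat_lit 35896793974, nat_lit 24261244940, nat_lit 26468957105, nat_lit 23382026649, nat_lit 26060091137], nat_lit 0, nat_lit 0, nat_lit 0, nat_lit 0, nat_lit 0, nat_lit 0, [],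 [nat_lit 8, nat_lit 40, nat_lit 40, nat_lit 80, nat_lit 1, nat_lit 373, nat_lit 150, nat_lit 11]⟩,
 zbF0, [⟨nat_lit 0, nat_lit 94, nat_lit 87, nat_lit 100, nat_lit 432889447⟩]⟩
noncomputable def p069_l2 : Lf2 := ⟨nat_lit 1, nat_lit 15, [nat_lit 30, nat_lit 5, nat_lit 5, nat_lit 20], false, nat_lit 0, nat_lit 160, nat_lit 0, nat_lit 276, zbN0,
 nat_lit 0, nat_lit 0, nat_lit 0, nat_lit 0, nat_lit 0, nat_lit 0, nat_lit 0, nat_lit 0, nat_lit 0, nat_lit 0, nat_lit 0, nat_lit 0, nat_lit 0, nat_lit 0, nat_lit 0, nat_lit 0, nat_lit 0, nat_lit 0, [],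
 C1.Rw.none, C1.Rw.none,
 zbF0, []⟩
noncomputable def p069_l3 : Lf2 := ⟨nat_lit 0, nat_lit 20, [nat_lit 5, nat_lit 5, nat_lit 5, nat_lit 20], false, nat_lit 0, nat_lit 160, nat_lit 0, nat_lit 160, ⟨nat_lit 1000, nat_lit 0, nat_lit 0, nat_lit 0, nat_lit 0, nat_lit 0, nat_lit 0, nat_lit 0, nat_lit 0, nat_lit 0, nat_lit 0, nat_lit 0, nat_lit 0, nat_lit 0, nat_lit 0, nat_lit 0, false, false⟩,
 nat_lit 0, nat_lit 12208, nat_lit 0, nat_lit 3176, nat_lit 7768, nat_lit 6222, nat_lit 0, nat_lit 0, nat_lit 0, nat_lit 1168, nat_lit 0, nat_lit 0, nat_lit 0, nat_lit 0, nat_lit 0, nat_lit 0, nat_lit 0, nat_lit 0, [],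
 ⟨p069_k2, nat_lit 0, nat_lit 0, nat_lit 368, nat_lit 0, nat_lit 127990, [nat_lit 3282000000, nat_lit 6250000000, nat_lit 11872000000], [], [nat_lit 39408516980, nat_lit 40066663764, nat_lit 37490127904, nat_lit 39695165184, nat_lit 31927317024, nat_lit 34354314714, nat_lit 36155972512, nat_lit 33851156768], nat_lit 1271250, nat_lit 1271250, nat_lit 382400, nat_lit 1731000, nat_lit 0, nat_lit 1100001, [nat_lit 780000, nat_lit 1435000, nat_lit 1271250], [nat_lit 23, nat_lit 40, nat_lit 40, nat_lit 80, nat_lit 12, nat_lit 428, nat_lit 200, nat_lit 11]⟩, ⟨p069_k2, nat_lit 0, nat_lit 0, nat_lit 322, nat_lit 0, nat_lit 0, [nat_lit 3282000000, nat_lit 6250000000, nat_lit 11872000000], [], [nat_lit 23820157672, nat_lit 25447544268, nat_lit 25140972816, nat_lit 26357759376, nat_lit 19374656551, nat_lit 20760393604, nat_lit 20732914712, nat_lit 21767028924], nat_lit 0, nat_lit 0, nat_lit 0, nat_lit 0, nat_lit 0, nat_lit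 0, [], [nat_lit 23, nat_lit 40, nat_lit 40, nat_lit 80, nat_lit 12, nat_lit 401, nat_lit 175, nat_lit 10]⟩,
 zbF0, [⟨nat_lit 0, nat_lit 100, nat_lit 97, nat_lit 94, nat_lit 494602512⟩]⟩
noncomputable def p069_l4 : Lf2 := ⟨nat_lit 0, nat_lit 20, [nat_lit 5, nat_lit 5, nat_lit 5, nat_lit 20], false, nat_lit 0, nat_lit 160, nat_lit 160, nat_lit 300, ⟨nat_lit 1000, nat_lit 0, nat_lit 0, nat_lit 0, nat_lit 0, nat_lit 0, nat_lit 0, nat_lit 0, nat_lit 0, nat_lit 0, nat_lit 0, nat_lit 0, nat_lit 0, nat_lit 0, nat_lit 0, nat_lit 0, false, false⟩,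
 nat_lit 0, nat_lit 12110, nat_lit 0, nat_lit 8800, nat_lit 7706, nat_lit 4881, nat_lit 0, nat_lit 0, nat_lit 0, nat_lit 0, nat_lit 0, nat_lit 0, nat_lit 0, nat_lit 0, nat_lit 0, nat_lit 0, nat_lit 0, nat_lit 0, [],
 ⟨p069_k2, nat_lit 0, nat_lit 0, nat_lit 368, nat_lit 0, nat_lit 127990, [nat_lit 3282000000, nat_lit 6250000000, nat_lit 11872000000], [], [nat_lit 39353377007, nat_lit 40075613935, nat_lit 37540668568, nat_lit 39658912928, nat_lit 32014491009, nat_lit 34431027612, nat_lit 36225531304, nat_lit 33959881456], nat_lit 1271250, nat_lit 1271250, nat_lit 382400, nat_lit 1731000, nat_lit 0, nat_lit 1100001, [nat_lit 780000, nat_lit 1435000, nat_lit 1271250], [nat_lit 23, nat_lit 40, nat_lit 40, nat_lit 80, nat_lit 12, nat_lit 428, nat_lit 200, nat_lit 11]⟩, ⟨p069_k2, nat_lit 0, nat_lit 0, nat_lit 71, nat_lit 0, nat_lit 0, [nat_lit 3282000000, nat_lit 6250000000, nat_lit 11872000000], [], [nat_lit 12603015006,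 nat_lit 14514423058, nat_lit 17145242224, nat_lit 18567079392, nat_lit 20624502688, nat_lit 22001779495, nat_lit 23076629118, nat_lit 24119982497], nat_lit 0, nat_lit 0, nat_lit 0, nat_lit 0, nat_lit 0, nat_lit 0, [], [nat_lit 23, nat_lit 40, nat_lit 40, nat_lit 80, nat_lit 12, nat_lit 456, nat_lit 225, nat_lit 11]⟩,
 zbF0, [⟨nat_lit 0, nat_lit 94, nat_lit 87, nat_lit 100, nat_lit 510041731⟩, ⟨nat_lit 7, nat_lit 100, nat_lit 97, nat_lit 82, nat_lit 612334886⟩]⟩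
noncomputable def p069_l5 : Lf2 := ⟨nat_lit 1, nat_lit 20, [nat_lit 5, nat_lit 5, nat_lit 5, nat_lit 20], false, nat_lit 0, nat_lit 160, nat_lit 0, nat_lit 300, zbN0,
 nat_lit 0, nat_lit 0, nat_lit 0, nat_lit 0, nat_lit 0, nat_lit 0, nat_lit 0, nat_lit 0, nat_lit 0, nat_lit 0, nat_lit 0, nat_lit 0, nat_lit 0, nat_lit 0, nat_lit 0, nat_lit 0, nat_lit 0, nat_lit 0, [],
 C1.Rw.none, C1.Rw.none,
 zbF0, []⟩
noncomputable def p069_l6 : Lf2 := ⟨nat_lit 0, nat_lit 15, [nat_lit 30, nat_lit 5, nat_lit 5, nat_lit 20], false, nat_lit 160, nat_lit 276, nat_lit 0, nat_lit 276, ⟨nat_lit 1000, nat_lit 0, nat_lit 0, nat_lit 0, nat_lit 0, nat_lit 0, nat_lit 0, nat_lit 0, nat_lit 0, nat_lit 0, nat_lit 0, nat_lit 0, nat_lit 0, nat_lit 0, nat_lit 0, nat_lit 0, false, false⟩,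
 nat_lit 0, nat_lit 23975, nat_lit 0, nat_lit 3273, nat_lit 15256, nat_lit 16484, nat_lit 0, nat_lit 0, nat_lit 0, nat_lit 0, nat_lit 0, nat_lit 0, nat_lit 0, nat_lit 12019101567798, nat_lit 0, nat_lit 0, nat_lit 0, nat_lit 0, [],
 ⟨p069_k3, nat_lit 0, nat_lit 0, nat_lit 184, nat_lit 0, nat_lit 197970, [nat_lit 3282000000, nat_lit 4688000000, nat_lit 9842000000], [], [nat_lit 27422874183, nat_lit 25436309940, nat_lit 16095970176, nat_lit 21033971936, nat_lit 26676198626, nat_lit 30865340578, nat_lit 29688494799, nat_lit 25520436266], nat_lit 1271250, nat_lit 1271250, nat_lit 382400, nat_lit 1100001, nat_lit 1100001, nat_lit 2093250, [nat_lit 780000, nat_lit 1100000, nat_lit 2127500], [nat_lit 42, nat_lit 40, nat_lit 40, nat_lit 80, nat_lit 13, nat_lit 345, nat_lit 125, nat_lit 10]⟩, ⟨p069_k3, nat_lit 0, nat_lit 0, nat_lit 187, nat_lit 0, nat_lit 0, [nat_lit 3282000000, nat_lit 4688000000, nat_lit 9842000000], [],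 [nat_lit 34350905524, nat_lit 38065008754, nat_lit 29423160800, nat_lit 32624118392, nat_lit 26202590806, nat_lit 28418006463, nat_lit 20840324138, nat_lit 22739837308], nat_lit 0, nat_lit 0, nat_lit 0, nat_lit 0, nat_lit 0, nat_lit 0, [], [nat_lit 42, nat_lit 40, nat_lit 40, nat_lit 80, nat_lit 13, nat_lit 345, nat_lit 125, nat_lit 10]⟩,
 zbF0, [⟨nat_lit 0, nat_lit 100, nat_lit 97, nat_lit 94, nat_lit 1058922739⟩, ⟨nat_lit 4, nat_lit 100, nat_lit 88, nat_lit 67, nat_lit 759483251⟩]⟩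
noncomputable def p069_l7 : Lf2 := ⟨nat_lit 0, nat_lit 20, [nat_lit 5, nat_lit 5, nat_lit 5, nat_lit 20], false, nat_lit 160, nat_lit 300, nat_lit 0, nat_lit 160, ⟨nat_lit 1000, nat_lit 0, nat_lit 0, nat_lit 0, nat_lit 0, nat_lit 0, nat_lit 0, nat_lit 0, nat_lit 0, nat_lit 0, nat_lit 0, nat_lit 0, nat_lit 0, nat_lit 0, nat_lit 0, nat_lit 0, false, false⟩,
 nat_lit 0, nat_lit 13397, nat_lit 0, nat_lit 12160, nat_lit 8525, nat_lit 6222, nat_lit 1105, nat_lit 0, nat_lit 0, nat_lit 1256, nat_lit 0, nat_lit 0, nat_lit 0, nat_lit 0, nat_lit 0, nat_lit 0, nat_lit 0, nat_lit 0, [],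
 ⟨p069_k2, nat_lit 0, nat_lit 0, nat_lit 204, nat_lit 0, nat_lit 127990, [nat_lit 3282000000, nat_lit 6250000000, nat_lit 11872000000], [], [nat_lit 19185996456, nat_lit 22516909796, nat_lit 17607765275, nat_lit 20509153875, nat_lit 24923218711, nat_lit 27247732890, nat_lit 23528135875, nat_lit 24911301150], nat_lit 1271250, nat_lit 1271250, nat_lit 382400, nat_lit 1100001, nat_lit 1100001, nat_lit 2298750, [nat_lit 780000, nat_lit 1435000, nat_lit 1271250], [nat_lit 23, nat_lit 40, nat_lit 40, nat_lit 80, nat_lit 12, nat_lit 428, nat_lit 200, nat_lit 11]⟩, ⟨p069_k2, nat_lit 0, nat_lit 0, nat_lit 322, nat_lit 0, nat_lit 0, [nat_lit 3282000000, nat_lit 6250000000, nat_lit 11872000000], [], [nat_lit 22976182672, nat_lit 24603569268, nat_lit 22023845472, nat_lit 23461933024, nat_lit 18530681551, nat_lit 19916418604, nat_lit 17918713632, nat_lit 19141226780], nat_lit 0, nat_lit 0, nat_lit 0, nat_lit 0, nat_lit 0, nat_lit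 0, [], [nat_lit 23, nat_lit 40, nat_lit 40, nat_lit 80, nat_lit 12, nat_lit 401, nat_lit 175, nat_lit 10]⟩,
 zbF0, [⟨nat_lit 0, nat_lit 100, nat_lit 97, nat_lit 94, nat_lit 713821223⟩, ⟨nat_lit 4, nat_lit 100, nat_lit 92, nat_lit 81, nat_lit 521337002⟩]⟩
noncomputable def p069_l8 : Lf2 := ⟨nat_lit 0, nat_lit 20, [nat_lit 5, nat_lit 5, nat_lit 5, nat_lit 20], false, nat_lit 160, nat_lit 300, nat_lit 160, nat_lit 300, ⟨nat_lit 1000, nat_lit 0, nat_lit 0, nat_lit 0, nat_lit 0, nat_lit 0, nat_lit 0, nat_lit 0, nat_lit 0, nat_lit 0, nat_lit 0, nat_lit 0, nat_lit 0, nat_lit 0, nat_lit 0, nat_lit 0, false, false⟩,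
 nat_lit 0, nat_lit 13381, nat_lit 0, nat_lit 17608, nat_lit 8515, nat_lit 5175, nat_lit 1106, nat_lit 0, nat_lit 0, nat_lit 0, nat_lit 0, nat_lit 0, nat_lit 0, nat_lit 0, nat_lit 0, nat_lit 0, nat_lit 0, nat_lit 0, [],
 ⟨p069_k2, nat_lit 0, nat_lit 0, nat_lit 204, nat_lit 0, nat_lit 127990, [nat_lit 3282000000, nat_lit 6250000000, nat_lit 11872000000], [], [nat_lit 19179848599, nat_lit 22508332763, nat_lit 17605813090, nat_lit 20505187050, nat_lit 24914712872, nat_lit 27237501174, nat_lit 23541770925, nat_lit 24906197890], nat_lit 1271250, nat_lit 1271250, nat_lit 382400, nat_lit 1100001, nat_lit 1100001, nat_lit 2298750, [nat_lit 780000, nat_lit 1435000, nat_lit 1271250], [nat_lit 23, nat_lit 40, nat_lit 40, nat_lit 80, nat_lit 12, nat_lit 428, nat_lit 200, nat_lit 11]⟩, ⟨p069_k2, nat_lit 0, nat_lit 0, nat_lit 71, nat_lit 0, nat_lit 0, [nat_lit 3282000000, nat_lit 6250000000, nat_lit 11872000000], [], [nat_lit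 12275709981, nat_lit 14255233011, nat_lit 13306992900, nat_lit 15037941650, nat_lit 20685719830, nat_lit 22252913931, nat_lit 20560615675, nat_lit 21814039688], nat_lit 0, nat_lit 0, nat_lit 0, nat_lit 0, nat_lit 0, nat_lit 0, [], [nat_lit 23, nat_lit 40, nat_lit 40, nat_lit 80, nat_lit 12, nat_lit 428, nat_lit 200, nat_lit 11]⟩,
 zbF0, [⟨nat_lit 0, nat_lit 94, nat_lit 87, nat_lit 100, nat_lit 824717160⟩, ⟨nat_lit 4, nat_lit 100, nat_lit 92, nat_lit 81, nat_lit 521271046⟩, ⟨nat_lit 7, nat_lit 100, nat_lit 97, nat_lit 82, nat_lit 580379274⟩]⟩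
noncomputable def p069_l9 : Lf2 := ⟨nat_lit 1, nat_lit 20, [nat_lit 5, nat_lit 5, nat_lit 5, nat_lit 20], false, nat_lit 160, nat_lit 300, nat_lit 0, nat_lit 300, zbN0,
 nat_lit 0, nat_lit 0, nat_lit 0, nat_lit 0, nat_lit 0, nat_lit 0, nat_lit 0, nat_lit 0, nat_lit 0, nat_lit 0, nat_lit 0, nat_lit 0, nat_lit 0, nat_lit 0, nat_lit 0, nat_lit 0, nat_lit 0, nat_lit 0, [],
 C1.Rw.none, C1.Rw.none,
 zbF0, []⟩
noncomputable def p069_l10 : Lf2 := ⟨nat_lit 0, nat_lit 20, [nat_lit 5, nat_lit 5, nat_lit 5, nat_lit 20], false, nat_lit 160, nat_lit 300, nat_lit 0, nat_lit 300, ⟨nat_lit 1000, nat_lit 0, nat_lit 0, nat_lit 0, nat_lit 0, nat_lit 0, nat_lit 0, nat_lit 0, nat_lit 0, nat_lit 0, nat_lit 0, nat_lit 0, nat_lit 0, nat_lit 0, nat_lit 0, nat_lit 0, false, false⟩,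
 nat_lit 0, nat_lit 14309, nat_lit 0, nat_lit 0, nat_lit 9105, nat_lit 16511, nat_lit 1099, nat_lit 0, nat_lit 0, nat_lit 392, nat_lit 0, nat_lit 0, nat_lit 0, nat_lit 31524623938606, nat_lit 0, nat_lit 0, nat_lit 0, nat_lit 0, [],
 ⟨p069_k2, nat_lit 0, nat_lit 0, nat_lit 166, nat_lit 0, nat_lit 151955, [nat_lit 3282000000, nat_lit 6250000000, nat_lit 11872000000], [], [nat_lit 21012888840, nat_lit 18731398365, nat_lit 19200116705, nat_lit 20456354535, nat_lit 22228212545, nat_lit 23272326360, nat_lit 24027058840, nat_lit 25637451983], nat_lit 1271250, nat_lit 1271250, nat_lit 1271250, nat_lit 1271250, nat_lit 1100001, nat_lit 2298750, [nat_lit 780000, nat_lit 1435000, nat_lit 1271250], [nat_lit 23, nat_lit 40, nat_lit 40, nat_lit 80, nat_lit 12, nat_lit 456, nat_lit 225, nat_lit 11]⟩, ⟨p069_k2, nat_lit 0, nat_lit 0, nat_lit 202, nat_lit 0, nat_lit 0, [nat_lit 3282000000, nat_lit 6250000000, nat_lit 11872000000],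 [], [nat_lit 34105510636, nat_lit 36850465812, nat_lit 36671405608, nat_lit 38901452888, nat_lit 24547439644, nat_lit 26014259006, nat_lit 26183745288, nat_lit 28601085082], nat_lit 0, nat_lit 0, nat_lit 0, nat_lit 0, nat_lit 0, nat_lit 0, [], [nat_lit 23, nat_lit 40, nat_lit 40, nat_lit 80, nat_lit 12, nat_lit 456, nat_lit 225, nat_lit 12]⟩,
 zbF0, [⟨nat_lit 4, nat_lit 100, nat_lit 94, nat_lit 75, nat_lit 541567253⟩]⟩
noncomputable def p069_l11 : Lf2 := ⟨nat_lit 0, nat_lit 20, [nat_lit 5, nat_lit 5, nat_lit 5, nat_lit 20], false, nat_lit 160, nat_lit 280, nat_lit 0, nat_lit 300, ⟨nat_lit 1000, nat_lit 0, nat_lit 0, nat_lit 0, nat_lit 0, nat_lit 0, nat_lit 0, nat_lit 0, nat_lit 0, nat_lit 0, nat_lit 0, nat_lit 0, nat_lit 0, nat_lit 0, nat_lit 0, nat_lit 0, false, false⟩,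
 nat_lit 0, nat_lit 8493, nat_lit 0, nat_lit 0, nat_lit 5879, nat_lit 16511, nat_lit 0, nat_lit 0, nat_lit 0, nat_lit 392, nat_lit 0, nat_lit 0, nat_lit 0, nat_lit 0, nat_lit 0, nat_lit 0, nat_lit 0, nat_lit 0, [],
 ⟨p069_k4, nat_lit 0, nat_lit 0, nat_lit 194, nat_lit 0, nat_lit 315268, [nat_lit 3282000000, nat_lit 6250000000, nat_lit 9842000000], [], [nat_lit 27008642394, nat_lit 28197522688, nat_lit 29034144510, nat_lit 30165857684, nat_lit 30821657076, nat_lit 31843045172, nat_lit 32256677462, nat_lit 33125738922], nat_lit 1271250, nat_lit 1271250, nat_lit 1100001, nat_lit 1785000, nat_lit 1100001, nat_lit 2127500, [nat_lit 780000, nat_lit 1435000, nat_lit 1271250], [nat_lit 8, nat_lit 40, nat_lit 40, nat_lit 80, nat_lit 1, nat_lit 373, nat_lit 150, nat_lit 10]⟩, ⟨p069_k2, nat_lit 0, nat_lit 0, nat_lit 202, nat_lit 0, nat_lit 0, [nat_lit 3282000000, nat_lit 6250000000, nat_lit 11872000000], [], [nat_lit 34105510636,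 nat_lit 36850465812, nat_lit 36671405608, nat_lit 38901452888, nat_lit 24547439644, nat_lit 26014259006, nat_lit 26183745288, nat_lit 28601085082], nat_lit 0, nat_lit 0, nat_lit 0, nat_lit 0, nat_lit 0, nat_lit 0, [], [nat_lit 23, nat_lit 40, nat_lit 40, nat_lit 80, nat_lit 12, nat_lit 456, nat_lit 225, nat_lit 12]⟩,
 zbF0, [⟨nat_lit 16, nat_lit 85, nat_lit 100, nat_lit 73, nat_lit 590963399⟩]⟩
noncomputable def p069_l12 : Lf2 := ⟨nat_lit 1, nat_lit 20, [nat_lit 5, nat_lit 5, nat_lit 5, nat_lit 20], false, nat_lit 0, nat_lit 300, nat_lit 0, nat_lit 300, zbN0,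
 nat_lit 0, nat_lit 0, nat_lit 0, nat_lit 0, nat_lit 0, nat_lit 0, nat_lit 0, nat_lit 0, nat_lit 0, nat_lit 0, nat_lit 0, nat_lit 0, nat_lit 0, nat_lit 0, nat_lit 0, nat_lit 0, nat_lit 0, nat_lit 0, [],
 C1.Rw.none, C1.Rw.none,
 zbF0, []⟩
noncomputable def p069_l13 : Lf2 := ⟨nat_lit 0, nat_lit 20, [nat_lit 5, nat_lit 5, nat_lit 5, nat_lit 20], false, nat_lit 0, nat_lit 160, nat_lit 0, nat_lit 280, ⟨nat_lit 1000, nat_lit 0, nat_lit 0, nat_lit 0, nat_lit 0, nat_lit 0, nat_lit 0, nat_lit 0, nat_lit 0, nat_lit 0, nat_lit 0, nat_lit 0, nat_lit 0, nat_lit 0, nat_lit 0, nat_lit 0, false, false⟩,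
 nat_lit 0, nat_lit 10443, nat_lit 0, nat_lit 0, nat_lit 7229, nat_lit 16054, nat_lit 1171, nat_lit 0, nat_lit 0, nat_lit 0, nat_lit 0, nat_lit 0, nat_lit 0, nat_lit 1114768419633, nat_lit 0, nat_lit 0, nat_lit 0, nat_lit 0, [],
 ⟨p069_k4, nat_lit 0, nat_lit 0, nat_lit 350, nat_lit 0, nat_lit 317184, [nat_lit 3282000000, nat_lit 6250000000, nat_lit 9842000000], [], [nat_lit 23912734222, nat_lit 22331742325, nat_lit 23853901776, nat_lit 25039862649, nat_lit 17014023363, nat_lit 17645574874, nat_lit 29738752486, nat_lit 28123070986], nat_lit 1271250, nat_lit 1271250, nat_lit 631250, nat_lit 1751250, nat_lit 0, nat_lit 1100001, [nat_lit 780000, nat_lit 1435000, nat_lit 1271250], [nat_lit 8, nat_lit 40, nat_lit 40, nat_lit 80, nat_lit 1, nat_lit 317, nat_lit 100, nat_lit 9]⟩, ⟨p069_k4, nat_lit 0, nat_lit 0, nat_lit 185, nat_lit 0, nat_lit 0, [nat_lit 3282000000, nat_lit 6250000000, nat_lit 9842000000], [], [nat_lit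 34437198080, nat_lit 36177067950, nat_lit 35664350076, nat_lit 37103469974, nat_lit 25841525484, nat_lit 26862270907, nat_lit 26274024350, nat_lit 27549049149], nat_lit 0, nat_lit 0, nat_lit 0, nat_lit 0, nat_lit 0, nat_lit 0, [], [nat_lit 8, nat_lit 40, nat_lit 40, nat_lit 80, nat_lit 1, nat_lit 373, nat_lit 150, nat_lit 11]⟩,
 zbF0, [⟨nat_lit 0, nat_lit 91, nat_lit 91, nat_lit 100, nat_lit 121175199⟩, ⟨nat_lit 7, nat_lit 100, nat_lit 88, nat_lit 74, nat_lit 14431309⟩]⟩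
noncomputable def p069_l14 : Lf2 := ⟨nat_lit 0, nat_lit 20, [nat_lit 5, nat_lit 5, nat_lit 5, nat_lit 20], false, nat_lit 0, nat_lit 160, nat_lit 0, nat_lit 280, ⟨nat_lit 1000, nat_lit 0, nat_lit 0, nat_lit 0, nat_lit 0, nat_lit 0, nat_lit 0, nat_lit 0, nat_lit 0, nat_lit 0, nat_lit 0, nat_lit 0, nat_lit 0, nat_lit 0, nat_lit 0, nat_lit 0, false, false⟩,
 nat_lit 0, nat_lit 9591, nat_lit 0, nat_lit 0, nat_lit 6914, nat_lit 15092, nat_lit 995, nat_lit 0, nat_lit 0, nat_lit 0, nat_lit 0, nat_lit 0, nat_lit 0, nat_lit 3136823599461, nat_lit 0, nat_lit 0, nat_lit 0, nat_lit 0, [],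
 ⟨p069_k5, nat_lit 0, nat_lit 0, nat_lit 446, nat_lit 0, nat_lit 473117, [nat_lit 3282000000, nat_lit 6250000000, nat_lit 9842000000], [], [nat_lit 22635545548, nat_lit 23578211651, nat_lit 25092129229, nat_lit 25822445667, nat_lit 18423648240, nat_lit 18891185527, nat_lit 28583837535, nat_lit 27058104413], nat_lit 1271250, nat_lit 1271250, nat_lit 689850, nat_lit 1755750, nat_lit 0, nat_lit 1100001, [nat_lit 780000, nat_lit 1435000, nat_lit 1271250], [nat_lit 8, nat_lit 40, nat_lit 40, nat_lit 80, nat_lit 1, nat_lit 317, nat_lit 100, nat_lit 9]⟩, ⟨p069_k4, nat_lit 0, nat_lit 0, nat_lit 187, nat_lit 0, nat_lit 0, [nat_lit 3282000000, nat_lit 6250000000, nat_lit 9842000000], [], [nat_lit 33560011749, nat_lit 36836097906, nat_lit 35397304648, nat_lit 37837122176, nat_lit 25849713859, nat_lit 27779465726, nat_lit 25981071300, nat_lit 28416222504], nat_lit 0, nat_lit 0, nat_lit 0, nat_lit 0, nat_lit 0, nat_lit 0, [],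 [nat_lit 8, nat_lit 40, nat_lit 40, nat_lit 80, nat_lit 1, nat_lit 373, nat_lit 150, nat_lit 11]⟩,
 zbF0, [⟨nat_lit 0, nat_lit 83, nat_lit 83, nat_lit 100, nat_lit 210717932⟩, ⟨nat_lit 7, nat_lit 100, nat_lit 85, nat_lit 73, nat_lit 22589330⟩]⟩
noncomputable def p069_l15 : Lf2 := ⟨nat_lit 0, nat_lit 20, [nat_lit 5, nat_lit 5, nat_lit 5, nat_lit 20], false, nat_lit 160, nat_lit 280, nat_lit 0, nat_lit 280, ⟨nat_lit 1000, nat_lit 0, nat_lit 0, nat_lit 0, nat_lit 0, nat_lit 0, nat_lit 0, nat_lit 0, nat_lit 0, nat_lit 0, nat_lit 0, nat_lit 0, nat_lit 0, nat_lit 0, nat_lit 0, nat_lit 0, false, false⟩,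
 nat_lit 0, nat_lit 8730, nat_lit 0, nat_lit 0, nat_lit 6043, nat_lit 16054, nat_lit 0, nat_lit 0, nat_lit 0, nat_lit 0, nat_lit 0, nat_lit 0, nat_lit 0, nat_lit 25268751808144, nat_lit 0, nat_lit 0, nat_lit 0, nat_lit 0, [],
 ⟨p069_k4, nat_lit 0, nat_lit 0, nat_lit 212, nat_lit 0, nat_lit 317184, [nat_lit 3282000000, nat_lit 6250000000, nat_lit 9842000000], [], [nat_lit 26489604697, nat_lit 27229434860, nat_lit 28893873670, nat_lit 29467446949, nat_lit 30879100728, nat_lit 31443850107, nat_lit 32125506654, nat_lit 32564854064], nat_lit 1271250, nat_lit 1271250, nat_lit 631250, nat_lit 1751250, nat_lit 1100001, nat_lit 2127500, [nat_lit 780000, nat_lit 1435000, nat_lit 1271250], [nat_lit 8, nat_lit 40, nat_lit 40, nat_lit 80, nat_lit 1, nat_lit 373, nat_lit 150, nat_lit 10]⟩, ⟨p069_k4, nat_lit 0, nat_lit 0, nat_lit 185, nat_lit 0, nat_lit 0, [nat_lit 3282000000, nat_lit 6250000000, nat_lit 9842000000], [], [nat_lit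 34437198080, nat_lit 36177067950, nat_lit 35664350076, nat_lit 37103469974, nat_lit 25841525484, nat_lit 26862270907, nat_lit 26274024350, nat_lit 27549049149], nat_lit 0, nat_lit 0, nat_lit 0, nat_lit 0, nat_lit 0, nat_lit 0, [], [nat_lit 8, nat_lit 40, nat_lit 40, nat_lit 80, nat_lit 1, nat_lit 373, nat_lit 150, nat_lit 11]⟩,
 zbF0, [⟨nat_lit 0, nat_lit 95, nat_lit 95, nat_lit 100, nat_lit 437255852⟩, ⟨nat_lit 4, nat_lit 100, nat_lit 88, nat_lit 74, nat_lit 599446085⟩, ⟨nat_lit 7, nat_lit 100, nat_lit 88, nat_lit 74, nat_lit 14431309⟩]⟩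
noncomputable def p069_l16 : Lf2 := ⟨nat_lit 0, nat_lit 20, [nat_lit 5, nat_lit 5, nat_lit 5, nat_lit 20], false, nat_lit 160, nat_lit 268, nat_lit 0, nat_lit 280, ⟨nat_lit 1000, nat_lit 0, nat_lit 0, nat_lit 0, nat_lit 0, nat_lit 0, nat_lit 0, nat_lit 0, nat_lit 0, nat_lit 0, nat_lit 0, nat_lit 0, nat_lit 0, nat_lit 0, nat_lit 0, nat_lit 0, false, false⟩,
 nat_lit 0, nat_lit 8658, nat_lit 0, nat_lit 0, nat_lit 6241, nat_lit 15092, nat_lit 1010, nat_lit 0, nat_lit 0, nat_lit 0, nat_lit 0, nat_lit 0, nat_lit 0, nat_lit 17979760674655, nat_lit 0, nat_lit 0, nat_lit 0, nat_lit 0, [],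
 ⟨p069_k5, nat_lit 0, nat_lit 0, nat_lit 313, nat_lit 0, nat_lit 473117, [nat_lit 3282000000, nat_lit 6250000000, nat_lit 9842000000], [], [nat_lit 20099670326, nat_lit 19697450489, nat_lit 20848567404, nat_lit 21333062008, nat_lit 21863762682, nat_lit 22354164860, nat_lit 24631286469, nat_lit 23988149073], nat_lit 1271250, nat_lit 1271250, nat_lit 689850, nat_lit 1755750, nat_lit 1100001, nat_lit 2024750, [nat_lit 780000, nat_lit 1435000, nat_lit 1271250], [nat_lit 8, nat_lit 40, nat_lit 40, nat_lit 80, nat_lit 1, nat_lit 373, nat_lit 150, nat_lit 10]⟩, ⟨p069_k4, nat_lit 0, nat_lit 0, nat_lit 187, nat_lit 0, nat_lit 0, [nat_lit 3282000000, nat_lit 6250000000, nat_lit 9842000000], [], [nat_lit 33560011749, nat_lit 36836097906, nat_lit 35397304648, nat_lit 37837122176, nat_lit 25849713859, nat_lit 27779465726, nat_lit 25981071300, nat_lit 28416222504], nat_lit 0, nat_lit 0, nat_lit 0, nat_lit 0, nat_lit 0, nat_lit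 0, [], [nat_lit 8, nat_lit 40, nat_lit 40, nat_lit 80, nat_lit 1, nat_lit 373, nat_lit 150, nat_lit 11]⟩,
 zbF0, [⟨nat_lit 0, nat_lit 83, nat_lit 83, nat_lit 100, nat_lit 569863940⟩, ⟨nat_lit 4, nat_lit 100, nat_lit 83, nat_lit 73, nat_lit 552674939⟩, ⟨nat_lit 7, nat_lit 100, nat_lit 85, nat_lit 73, nat_lit 22589330⟩]⟩
noncomputable def p069_l17 : Lf2 := ⟨nat_lit 0, nat_lit 20, [nat_lit 5, nat_lit 5, nat_lit 5, nat_lit 20], false, nat_lit 0, nat_lit 300, nat_lit 0, nat_lit 300, ⟨nat_lit 1000, nat_lit 0, nat_lit 0, nat_lit 0, nat_lit 0, nat_lit 0, nat_lit 0, nat_lit 0, nat_lit 0, nat_lit 0, nat_lit 0, nat_lit 0, nat_lit 0, nat_lit 0, nat_lit 0, nat_lit 0, false, false⟩,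
 nat_lit 0, nat_lit 12121, nat_lit 0, nat_lit 0, nat_lit 7713, nat_lit 7834, nat_lit 782, nat_lit 0, nat_lit 0, nat_lit 655, nat_lit 0, nat_lit 0, nat_lit 0, nat_lit 0, nat_lit 0, nat_lit 0, nat_lit 0, nat_lit 0, [],
 ⟨p069_k2, nat_lit 0, nat_lit 0, nat_lit 336, nat_lit 0, nat_lit 154505, [nat_lit 3282000000, nat_lit 6250000000, nat_lit 11872000000], [], [nat_lit 32215040032, nat_lit 32967958604, nat_lit 40200871208, nat_lit 41526945618, nat_lit 27598888368, nat_lit 28021657235, nat_lit 34610850907, nat_lit 35420746671], nat_lit 1271250, nat_lit 1271250, nat_lit 1271250, nat_lit 1271250, nat_lit 0, nat_lit 2118750, [nat_lit 780000, nat_lit 1435000, nat_lit 1271250], [nat_lit 23, nat_lit 40, nat_lit 40, nat_lit 80, nat_lit 12, nat_lit 483, nat_lit 250, nat_lit 12]⟩, ⟨p069_k2, nat_lit 0, nat_lit 0, nat_lit 240, nat_lit 0, nat_lit 0, [nat_lit 3282000000, nat_lit 6250000000, nat_lit 11872000000], [], [nat_lit 31154467177,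 nat_lit 32222233197, nat_lit 41100938225, nat_lit 41859158729, nat_lit 28395486613, nat_lit 29013088846, nat_lit 34743314326, nat_lit 35557776569], nat_lit 0, nat_lit 0, nat_lit 0, nat_lit 0, nat_lit 0, nat_lit 0, [], [nat_lit 23, nat_lit 40, nat_lit 40, nat_lit 80, nat_lit 12, nat_lit 483, nat_lit 250, nat_lit 12]⟩,
 zbF0, [⟨nat_lit 4, nat_lit 100, nat_lit 94, nat_lit 75, nat_lit 111843333⟩, ⟨nat_lit 7, nat_lit 100, nat_lit 94, nat_lit 75, nat_lit 107333629⟩]⟩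
noncomputable def p069_l18 : Lf2 := ⟨nat_lit 0, nat_lit 20, [nat_lit 5, nat_lit 5, nat_lit 5, nat_lit 20], false, nat_lit 0, nat_lit 280, nat_lit 0, nat_lit 160, ⟨nat_lit 1000, nat_lit 0, nat_lit 0, nat_lit 0, nat_lit 0, nat_lit 0, nat_lit 0, nat_lit 0, nat_lit 0, nat_lit 0, nat_lit 0, nat_lit 0, nat_lit 0, nat_lit 0, nat_lit 0, nat_lit 0, false, false⟩,
 nat_lit 0, nat_lit 8178, nat_lit 0, nat_lit 0, nat_lit 5661, nat_lit 7706, nat_lit 775, nat_lit 0, nat_lit 0, nat_lit 617, nat_lit 0, nat_lit 0, nat_lit 0, nat_lit 0, nat_lit 0, nat_lit 0, nat_lit 0, nat_lit 0, [],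
 ⟨p069_k4, nat_lit 0, nat_lit 0, nat_lit 431, nat_lit 0, nat_lit 501102, [nat_lit 3282000000, nat_lit 6250000000, nat_lit 9842000000], [], [nat_lit 31639275519, nat_lit 32243495593, nat_lit 36588363466, nat_lit 37114362643, nat_lit 30157481789, nat_lit 30627084485, nat_lit 34211760303, nat_lit 34560142505], nat_lit 1271250, nat_lit 1271250, nat_lit 1271250, nat_lit 1271250, nat_lit 0, nat_lit 1977500, [nat_lit 780000, nat_lit 1435000, nat_lit 1271250], [nat_lit 8, nat_lit 40, nat_lit 40, nat_lit 80, nat_lit 1, nat_lit 401, nat_lit 175, nat_lit 11]⟩, ⟨p069_k2, nat_lit 0, nat_lit 0, nat_lit 242, nat_lit 0, nat_lit 0, [nat_lit 3282000000, nat_lit 6250000000, nat_lit 11872000000], [], [nat_lit 31623252943, nat_lit 33741497303, nat_lit 41321202775, nat_lit 42833435736, nat_lit 26278736431, nat_lit 28042465831, nat_lit 33623381319, nat_lit 34918016223], nat_lit 0, nat_lit 0, nat_lit 0, nat_lit 0, nat_lit 0, nat_lit 0,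 [], [nat_lit 23, nat_lit 40, nat_lit 40, nat_lit 80, nat_lit 12, nat_lit 456, nat_lit 225, nat_lit 11]⟩,
 zbF0, [⟨nat_lit 16, nat_lit 85, nat_lit 100, nat_lit 73, nat_lit 213827905⟩, ⟨nat_lit 9, nat_lit 100, nat_lit 84, nat_lit 35, nat_lit 37631380⟩]⟩
noncomputable def p069_l19 : Lf2 := ⟨nat_lit 0, nat_lit 20, [nat_lit 5, nat_lit 5, nat_lit 5, nat_lit 20], false, nat_lit 0, nat_lit 280, nat_lit 160, nat_lit 300, ⟨nat_lit 1000, nat_lit 0, nat_lit 0, nat_lit 0, nat_lit 0, nat_lit 0, nat_lit 0, nat_lit 0, nat_lit 0, nat_lit 0, nat_lit 0, nat_lit 0, nat_lit 0, nat_lit 0, nat_lit 0, nat_lit 0, false, false⟩,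
 nat_lit 0, nat_lit 8349, nat_lit 0, nat_lit 0, nat_lit 5779, nat_lit 6882, nat_lit 729, nat_lit 0, nat_lit 0, nat_lit 0, nat_lit 0, nat_lit 0, nat_lit 0, nat_lit 0, nat_lit 0, nat_lit 0, nat_lit 0, nat_lit 0, [],
 ⟨p069_k4, nat_lit 0, nat_lit 0, nat_lit 431, nat_lit 0, nat_lit 501102, [nat_lit 3282000000, nat_lit 6250000000, nat_lit 9842000000], [], [nat_lit 32130930241, nat_lit 32738411127, nat_lit 36983629839, nat_lit 37442273388, nat_lit 30329556387, nat_lit 30719849010, nat_lit 34048676817, nat_lit 34398729283], nat_lit 1271250, nat_lit 1271250, nat_lit 1271250, nat_lit 1271250, nat_lit 0, nat_lit 1977500, [nat_lit 780000, nat_lit 1435000, nat_lit 1271250], [nat_lit 8, nat_lit 40, nat_lit 40, nat_lit 80, nat_lit 1, nat_lit 401, nat_lit 175, nat_lit 11]⟩, ⟨p069_k2, nat_lit 0, nat_lit 0, nat_lit 90, nat_lit 0, nat_lit 0, [nat_lit 3282000000, nat_lit 6250000000, nat_lit 11872000000], [], [nat_lit 19574929760,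 nat_lit 22566246792, nat_lit 30795560448, nat_lit 32550953456, nat_lit 25291102388, nat_lit 27426686078, nat_lit 33701122798, nat_lit 35258191276], nat_lit 0, nat_lit 0, nat_lit 0, nat_lit 0, nat_lit 0, nat_lit 0, [], [nat_lit 23, nat_lit 40, nat_lit 40, nat_lit 80, nat_lit 12, nat_lit 538, nat_lit 300, nat_lit 13]⟩,
 zbF0, [⟨nat_lit 4, nat_lit 100, nat_lit 85, nat_lit 73, nat_lit 195553137⟩, ⟨nat_lit 7, nat_lit 100, nat_lit 90, nat_lit 74, nat_lit 574394773⟩]⟩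
noncomputable def b_V_700_700_10_42 : St := ⟨true, nat_lit 1, nat_lit 0, nat_lit 1, nat_lit 80, nat_lit 280, nat_lit 320, nat_lit 280, nat_lit 320, nat_lit 64, nat_lit 400, nat_lit 40, nat_lit 80, nat_lit 0, nat_lit 300, nat_lit 0, nat_lit 300, nat_lit 80, nat_lit 116, nat_lit 0, nat_lit 0, nat_lit 0, nat_lit 0⟩
theorem d_V_700_700_10_42 (h : EB TB.env) : Dead b_V_700_700_10_42 := chkB_sound0 h (T :=
(.spl (nat_lit 2) (nat_lit 240)
(.spl (nat_lit 1) (nat_lit 300)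
(.spl (nat_lit 6) (nat_lit 104)
(.spl (nat_lit 4) (nat_lit 160)
(.spl (nat_lit 3) (nat_lit 60)
(.trX (nat_lit 19) (nat_lit 99) (nat_lit 100) (nat_lit 77) (nat_lit 276) (.spl (nat_lit 6) (nat_lit 96)
(.spl (nat_lit 0) (nat_lit 300)
(.leaf p069_l0)
(.trZ (nat_lit 0) (nat_lit 100) (nat_lit 94) (nat_lit 88) (nat_lit 80) (.leaf p069_l1)))
(.leaf p069_l2)))
(.spl (nat_lit 6) (nat_lit 92)
(.spl (nat_lit 5) (nat_lit 160)
(.leaf p069_l3)
(.leaf p069_l4))
(.leaf p069_l5)))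
(.spl (nat_lit 2) (nat_lit 160)
(.spl (nat_lit 3) (nat_lit 60)
(.trX (nat_lit 16) (nat_lit 99) (nat_lit 100) (nat_lit 77) (nat_lit 276) (.trX (nat_lit 19) (nat_lit 99) (nat_lit 100) (nat_lit 77) (nat_lit 276) (.leaf p069_l6)))
(.spl (nat_lit 6) (nat_lit 92)
(.spl (nat_lit 5) (nat_lit 160)
(.leaf p069_l7)
(.leaf p069_l8))
(.leaf p069_l9)))
(.spl (nat_lit 0) (nat_lit 300)
(.leaf p069_l10)
(.trX (nat_lit 16) (nat_lit 94) (nat_lit 100) (nat_lit 87) (nat_lit 280) (.leaf p069_l11)))))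
(.leaf p069_l12))
(.ord (.trZ (nat_lit 0) (nat_lit 100) (nat_lit 100) (nat_lit 100) (nat_lit 100) (.trX (nat_lit 16) (nat_lit 94) (nat_lit 100) (nat_lit 87) (nat_lit 280) (.trX (nat_lit 19) (nat_lit 94) (nat_lit 100) (nat_lit 87) (nat_lit 280) (.spl (nat_lit 4) (nat_lit 160)
(.spl (nat_lit 0) (nat_lit 310)
(.ord (.leaf p069_l13))
(.trZ (nat_lit 0) (nat_lit 97) (nat_lit 93) (nat_lit 100) (nat_lit 108) (.leaf p069_l14)))
(.spl (nat_lit 0) (nat_lit 310)
(.ord (.leaf p069_l15))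
(.trZ (nat_lit 0) (nat_lit 97) (nat_lit 93) (nat_lit 100) (nat_lit 108) (.trX (nat_lit 16) (nat_lit 89) (nat_lit 100) (nat_lit 85) (nat_lit 268) (.leaf p069_l16))))))))))
(.spl (nat_lit 0) (nat_lit 300)
(.ord (.leaf p069_l17))
(.trX (nat_lit 16) (nat_lit 94) (nat_lit 100) (nat_lit 87) (nat_lit 280) (.spl (nat_lit 5) (nat_lit 160)
(.leaf p069_l18)
(.leaf p069_l19)))))) (by decide +kernel)
noncomputable def p069_l20 : Lf2 := ⟨nat_lit 1, nat_lit 15, [nat_lit 30, nat_lit 5, nat_lit 5, nat_lit 20], false, nat_lit 0, nat_lit 160, nat_lit 0, nat_lit 276, zbN0,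
 nat_lit 0, nat_lit 0, nat_lit 0, nat_lit 0, nat_lit 0, nat_lit 0, nat_lit 0, nat_lit 0, nat_lit 0, nat_lit 0, nat_lit 0, nat_lit 0, nat_lit 0, nat_lit 0, nat_lit 0, nat_lit 0, nat_lit 0, nat_lit 0, [],
 C1.Rw.none, C1.Rw.none,
 zbF0, []⟩
noncomputable def p069_l21 : Lf2 := ⟨nat_lit 1, nat_lit 20, [nat_lit 5, nat_lit 5, nat_lit 5, nat_lit 20], false, nat_lit 0, nat_lit 160, nat_lit 0, nat_lit 300, zbN0,
 nat_lit 0, nat_lit 0, nat_lit 0, nat_lit 0, nat_lit 0, nat_lit 0, nat_lit 0, nat_lit 0, nat_lit 0, nat_lit 0, nat_lit 0, nat_lit 0, nat_lit 0, nat_lit 0, nat_lit 0, nat_lit 0, nat_lit 0, nat_lit 0, [],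
 C1.Rw.none, C1.Rw.none,
 zbF0, []⟩
noncomputable def p069_l22 : Lf2 := ⟨nat_lit 1, nat_lit 20, [nat_lit 5, nat_lit 5, nat_lit 5, nat_lit 20], false, nat_lit 0, nat_lit 160, nat_lit 0, nat_lit 300, zbN0,
 nat_lit 0, nat_lit 0, nat_lit 0, nat_lit 0, nat_lit 0, nat_lit 0, nat_lit 0, nat_lit 0, nat_lit 0, nat_lit 0, nat_lit 0, nat_lit 0, nat_lit 0, nat_lit 0, nat_lit 0, nat_lit 0, nat_lit 0, nat_lit 0, [],
 C1.Rw.none, C1.Rw.none,
 zbF0, []⟩
noncomputable def p069_l23 : Lf2 := ⟨nat_lit 0, nat_lit 20, [nat_lit 5, nat_lit 5, nat_lit 5, nat_lit 20], false, nat_lit 0, nat_lit 160, nat_lit 0, nat_lit 160, ⟨nat_lit 1000, nat_lit 0, nat_lit 0, nat_lit 0, nat_lit 0, nat_lit 0, nat_lit 0, nat_lit 0, nat_lit 0, nat_lit 0, nat_lit 0, nat_lit 0, nat_lit 0, nat_lit 0, nat_lit 0, nat_lit 0, false, false⟩,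
 nat_lit 14989, nat_lit 0, nat_lit 0, nat_lit 0, nat_lit 8467, nat_lit 9538, nat_lit 905, nat_lit 0, nat_lit 0, nat_lit 920, nat_lit 0, nat_lit 0, nat_lit 0, nat_lit 0, nat_lit 0, nat_lit 0, nat_lit 0, nat_lit 0, [],
 ⟨p069_k4, nat_lit 0, nat_lit 0, nat_lit 353, nat_lit 0, nat_lit 290043, [nat_lit 3282000000, nat_lit 6250000000, nat_lit 9842000000], [], [nat_lit 25310312942, nat_lit 26701114246, nat_lit 24090334696, nat_lit 25633453342, nat_lit 19095497390, nat_lit 20250297548, nat_lit 19584700042, nat_lit 18990775140], nat_lit 1271250, nat_lit 1271250, nat_lit 490000, nat_lit 1100001, nat_lit 0, nat_lit 1100001, [nat_lit 780000, nat_lit 1435000, nat_lit 1271250], [nat_lit 8, nat_lit 40, nat_lit 40, nat_lit 80, nat_lit 1, nat_lit 317, nat_lit 100, nat_lit 9]⟩, ⟨p069_k2, nat_lit 0, nat_lit 0, nat_lit 420, nat_lit 0, nat_lit 323303, [nat_lit 3282000000, nat_lit 6250000000, nat_lit 11872000000], [], [nat_lit 29831194600,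 nat_lit 32093451208, nat_lit 27765008520, nat_lit 30188033504, nat_lit 21777648584, nat_lit 23656301352, nat_lit 24961611424, nat_lit 21713728560], nat_lit 1271250, nat_lit 1271250, nat_lit 490000, nat_lit 1100001, nat_lit 0, nat_lit 1100001, [nat_lit 780000, nat_lit 1435000, nat_lit 1271250], [nat_lit 23, nat_lit 40, nat_lit 40, nat_lit 80, nat_lit 12, nat_lit 401, nat_lit 175, nat_lit 10]⟩,
 zbF0, [⟨nat_lit 0, nat_lit 97, nat_lit 93, nat_lit 100, nat_lit 789964625⟩]⟩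
noncomputable def p069_l24 : Lf2 := ⟨nat_lit 0, nat_lit 20, [nat_lit 5, nat_lit 5, nat_lit 5, nat_lit 20], false, nat_lit 0, nat_lit 160, nat_lit 160, nat_lit 300, ⟨nat_lit 1000, nat_lit 0, nat_lit 0, nat_lit 0, nat_lit 0, nat_lit 0, nat_lit 0, nat_lit 0, nat_lit 0, nat_lit 0, nat_lit 0, nat_lit 0, nat_lit 0, nat_lit 0, nat_lit 0, nat_lit 0, false, false⟩,
 nat_lit 16411, nat_lit 0, nat_lit 0, nat_lit 2336, nat_lit 8303, nat_lit 10443, nat_lit 978, nat_lit 0, nat_lit 0, nat_lit 983, nat_lit 0, nat_lit 0, nat_lit 0, nat_lit 0, nat_lit 0, nat_lit 0, nat_lit 0, nat_lit 0, [],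
 ⟨p069_k4, nat_lit 0, nat_lit 0, nat_lit 313, nat_lit 0, nat_lit 186038, [nat_lit 3282000000, nat_lit 6250000000, nat_lit 9842000000], [], [nat_lit 24212609578, nat_lit 24901301263, nat_lit 23047331564, nat_lit 24014118971, nat_lit 18171676010, nat_lit 18743100421, nat_lit 19681013728, nat_lit 17776421770], nat_lit 1271250, nat_lit 1271250, nat_lit 490000, nat_lit 1100001, nat_lit 0, nat_lit 1100001, [nat_lit 780000, nat_lit 1435000, nat_lit 1271250], [nat_lit 8, nat_lit 40, nat_lit 40, nat_lit 80, nat_lit 1, nat_lit 317, nat_lit 100, nat_lit 9]⟩, ⟨p069_k2, nat_lit 0, nat_lit 0, nat_lit 218, nat_lit 0, nat_lit 207371, [nat_lit 3282000000, nat_lit 6250000000, nat_lit 11872000000], [], [nat_lit 18681348769, nat_lit 21483128494, nat_lit 17312768733, nat_lit 19778616147, nat_lit 24784091352, nat_lit 26699961601, nat_lit 22534719197, nat_lit 24827946148], nat_lit 1271250, nat_lit 1271250, nat_lit 490000, nat_lit 1100001,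 nat_lit 1100001, nat_lit 2298750, [nat_lit 780000, nat_lit 1435000, nat_lit 1271250], [nat_lit 23, nat_lit 40, nat_lit 40, nat_lit 80, nat_lit 12, nat_lit 428, nat_lit 200, nat_lit 11]⟩,
 zbF0, [⟨nat_lit 0, nat_lit 100, nat_lit 97, nat_lit 98, nat_lit 724804583⟩, ⟨nat_lit 7, nat_lit 100, nat_lit 92, nat_lit 75, nat_lit 588322927⟩]⟩
noncomputable def p069_l25 : Lf2 := ⟨nat_lit 0, nat_lit 20, [nat_lit 5, nat_lit 5, nat_lit 5, nat_lit 20], false, nat_lit 0, nat_lit 160, nat_lit 160, nat_lit 300, ⟨nat_lit 1000, nat_lit 0, nat_lit 0, nat_lit 0, nat_lit 0, nat_lit 0, nat_lit 0, nat_lit 0, nat_lit 0, nat_lit 0, nat_lit 0, nat_lit 0, nat_lit 0, nat_lit 0, nat_lit 0, nat_lit 0, false, false⟩,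
 nat_lit 14316, nat_lit 0, nat_lit 0, nat_lit 0, nat_lit 6978, nat_lit 9110, nat_lit 864, nat_lit 0, nat_lit 0, nat_lit 810, nat_lit 0, nat_lit 0, nat_lit 0, nat_lit 0, nat_lit 0, nat_lit 0, nat_lit 0, nat_lit 0, [],
 ⟨p069_k5, nat_lit 0, nat_lit 0, nat_lit 344, nat_lit 0, nat_lit 275454, [nat_lit 3282000000, nat_lit 6250000000, nat_lit 9842000000], [], [nat_lit 24154994223, nat_lit 25127649895, nat_lit 23833200946, nat_lit 24707240728, nat_lit 19721877148, nat_lit 20351173655, nat_lit 19917290020, nat_lit 20021349408], nat_lit 1271250, nat_lit 1271250, nat_lit 545600, nat_lit 1100001, nat_lit 0, nat_lit 1100001, [nat_lit 780000, nat_lit 1435000, nat_lit 1271250], [nat_lit 8, nat_lit 40, nat_lit 40, nat_lit 80, nat_lit 1, nat_lit 317, nat_lit 100, nat_lit 9]⟩, ⟨p069_k2, nat_lit 0, nat_lit 0, nat_lit 325, nat_lit 0, nat_lit 323303, [nat_lit 3282000000, nat_lit 6250000000, nat_lit 11872000000], [], [nat_lit 28914873008,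 nat_lit 26022190468, nat_lit 22713723700, nat_lit 24324173940, nat_lit 26527850570, nat_lit 28850568248, nat_lit 24996891190, nat_lit 27085688850], nat_lit 1271250, nat_lit 1271250, nat_lit 545600, nat_lit 1100001, nat_lit 1100001, nat_lit 2298750, [nat_lit 780000, nat_lit 1435000, nat_lit 1271250], [nat_lit 23, nat_lit 40, nat_lit 40, nat_lit 80, nat_lit 12, nat_lit 428, nat_lit 200, nat_lit 11]⟩,
 zbF0, [⟨nat_lit 0, nat_lit 95, nat_lit 90, nat_lit 100, nat_lit 790321134⟩, ⟨nat_lit 19, nat_lit 90, nat_lit 100, nat_lit 74, nat_lit 201466349⟩]⟩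
noncomputable def p069_l26 : Lf2 := ⟨nat_lit 0, nat_lit 20, [nat_lit 5, nat_lit 5, nat_lit 5, nat_lit 20], false, nat_lit 0, nat_lit 160, nat_lit 0, nat_lit 300, ⟨nat_lit 1000, nat_lit 0, nat_lit 0, nat_lit 0, nat_lit 0, nat_lit 0, nat_lit 0, nat_lit 0, nat_lit 0, nat_lit 0, nat_lit 0, nat_lit 0, nat_lit 0, nat_lit 0, nat_lit 0, nat_lit 0, false, false⟩,
 nat_lit 21339, nat_lit 0, nat_lit 0, nat_lit 0, nat_lit 6535, nat_lit 13579, nat_lit 1300, nat_lit 0, nat_lit 0, nat_lit 672, nat_lit 0, nat_lit 0, nat_lit 0, nat_lit 0, nat_lit 0, nat_lit 0, nat_lit 0, nat_lit 0, [],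
 ⟨p069_k2, nat_lit 0, nat_lit 0, nat_lit 232, nat_lit 0, nat_lit 90748, [nat_lit 3282000000, nat_lit 6250000000, nat_lit 11872000000], [], [nat_lit 21717316160, nat_lit 23195159720, nat_lit 23999373980, nat_lit 25362645430, nat_lit 17257642960, nat_lit 18513189150, nat_lit 20058619260, nat_lit 21435556630], nat_lit 1271250, nat_lit 1271250, nat_lit 1100001, nat_lit 1785000, nat_lit 0, nat_lit 1100001, [nat_lit 780000, nat_lit 1435000, nat_lit 1271250], [nat_lit 23, nat_lit 40, nat_lit 40, nat_lit 80, nat_lit 12, nat_lit 401, nat_lit 175, nat_lit 10]⟩, ⟨p069_k2, nat_lit 0, nat_lit 0, nat_lit 232, nat_lit 0, nat_lit 90748, [nat_lit 3282000000, nat_lit 6250000000, nat_lit 11872000000], [], [nat_lit 35864768756, nat_lit 32711135468, nat_lit 32821064912, nat_lit 34762368832, nat_lit 23628289716, nat_lit 24927818134, nat_lit 25329923432, nat_lit 27427796904], nat_lit 1271250, nat_lit 1271250, nat_lit 1100001, nat_lit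 1785000, nat_lit 0, nat_lit 2118750, [nat_lit 780000, nat_lit 1435000, nat_lit 1271250], [nat_lit 23, nat_lit 40, nat_lit 40, nat_lit 80, nat_lit 12, nat_lit 456, nat_lit 225, nat_lit 12]⟩,
 zbF0, [⟨nat_lit 7, nat_lit 100, nat_lit 94, nat_lit 75, nat_lit 72189359⟩]⟩
noncomputable def p069_l27 : Lf2 := ⟨nat_lit 0, nat_lit 20, [nat_lit 5, nat_lit 5, nat_lit 5, nat_lit 20], false, nat_lit 0, nat_lit 160, nat_lit 0, nat_lit 300, ⟨nat_lit 1000, nat_lit 0, nat_lit 0, nat_lit 0, nat_lit 0, nat_lit 0, nat_lit 0, nat_lit 0, nat_lit 0, nat_lit 0, nat_lit 0, nat_lit 0, nat_lit 0, nat_lit 0, nat_lit 0, nat_lit 0, false, false⟩,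
 nat_lit 13169, nat_lit 0, nat_lit 0, nat_lit 0, nat_lit 7731, nat_lit 8380, nat_lit 962, nat_lit 0, nat_lit 0, nat_lit 758, nat_lit 0, nat_lit 0, nat_lit 0, nat_lit 0, nat_lit 0, nat_lit 0, nat_lit 0, nat_lit 0, [],
 ⟨p069_k4, nat_lit 0, nat_lit 0, nat_lit 323, nat_lit 0, nat_lit 290043, [nat_lit 3282000000, nat_lit 6250000000, nat_lit 9842000000], [], [nat_lit 27280531116, nat_lit 24906316856, nat_lit 25663947714, nat_lit 27222403268, nat_lit 18384171692, nat_lit 19357242520, nat_lit 21588054226, nat_lit 21066120376], nat_lit 1271250, nat_lit 1271250, nat_lit 1100001, nat_lit 1785000, nat_lit 0, nat_lit 1100001, [nat_lit 780000, nat_lit 1435000, nat_lit 1271250], [nat_lit 8, nat_lit 40, nat_lit 40, nat_lit 80, nat_lit 1, nat_lit 317, nat_lit 100, nat_lit 9]⟩, ⟨p069_k2, nat_lit 0, nat_lit 0, nat_lit 390, nat_lit 0, nat_lit 323303, [nat_lit 3282000000, nat_lit 6250000000, nat_lit 11872000000], [], [nat_lit 33440142320,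 nat_lit 33382490420, nat_lit 32228742820, nat_lit 33780528260, nat_lit 26889968200, nat_lit 27941594220, nat_lit 37008793180, nat_lit 29657329240], nat_lit 1271250, nat_lit 1271250, nat_lit 1100001, nat_lit 1785000, nat_lit 0, nat_lit 2118750, [nat_lit 780000, nat_lit 1435000, nat_lit 1271250], [nat_lit 23, nat_lit 40, nat_lit 40, nat_lit 80, nat_lit 12, nat_lit 456, nat_lit 225, nat_lit 12]⟩,
 zbF0, [⟨nat_lit 7, nat_lit 100, nat_lit 90, nat_lit 74, nat_lit 135045585⟩]⟩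
noncomputable def p069_l28 : Lf2 := ⟨nat_lit 1, nat_lit 15, [nat_lit 30, nat_lit 5, nat_lit 5, nat_lit 20], false, nat_lit 160, nat_lit 276, nat_lit 0, nat_lit 276, zbN0,
 nat_lit 0, nat_lit 0, nat_lit 0, nat_lit 0, nat_lit 0, nat_lit 0, nat_lit 0, nat_lit 0, nat_lit 0, nat_lit 0, nat_lit 0, nat_lit 0, nat_lit 0, nat_lit 0, nat_lit 0, nat_lit 0, nat_lit 0, nat_lit 0, [],
 C1.Rw.none, C1.Rw.none,
 zbF0, []⟩
noncomputable def p069_l29 : Lf2 := ⟨nat_lit 1, nat_lit 20, [nat_lit 5, nat_lit 5, nat_lit 5, nat_lit 20], false, nat_lit 160, nat_lit 300, nat_lit 0, nat_lit 300, zbN0,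
 nat_lit 0, nat_lit 0, nat_lit 0, nat_lit 0, nat_lit 0, nat_lit 0, nat_lit 0, nat_lit 0, nat_lit 0, nat_lit 0, nat_lit 0, nat_lit 0, nat_lit 0, nat_lit 0, nat_lit 0, nat_lit 0, nat_lit 0, nat_lit 0, [],
 C1.Rw.none, C1.Rw.none,
 zbF0, []⟩
noncomputable def p069_l30 : Lf2 := ⟨nat_lit 1, nat_lit 20, [nat_lit 5, nat_lit 5, nat_lit 5, nat_lit 20], false, nat_lit 160, nat_lit 300, nat_lit 0, nat_lit 300, zbN0,
 nat_lit 0, nat_lit 0, nat_lit 0, nat_lit 0, nat_lit 0, nat_lit 0, nat_lit 0, nat_lit 0, nat_lit 0, nat_lit 0, nat_lit 0, nat_lit 0, nat_lit 0, nat_lit 0, nat_lit 0, nat_lit 0, nat_lit 0, nat_lit 0, [],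
 C1.Rw.none, C1.Rw.none,
 zbF0, []⟩
noncomputable def p069_l31 : Lf2 := ⟨nat_lit 0, nat_lit 20, [nat_lit 5, nat_lit 5, nat_lit 5, nat_lit 20], false, nat_lit 160, nat_lit 280, nat_lit 0, nat_lit 160, ⟨nat_lit 1000, nat_lit 0, nat_lit 0, nat_lit 0, nat_lit 0, nat_lit 0, nat_lit 0, nat_lit 0, nat_lit 0, nat_lit 0, nat_lit 0, nat_lit 0, nat_lit 0, nat_lit 0, nat_lit 0, nat_lit 0, false, false⟩,
 nat_lit 15292, nat_lit 1793, nat_lit 0, nat_lit 0, nat_lit 11828, nat_lit 9731, nat_lit 0, nat_lit 0, nat_lit 0, nat_lit 899, nat_lit 0, nat_lit 0, nat_lit 0, nat_lit 3579075988602, nat_lit 0, nat_lit 0, nat_lit 0, nat_lit 0, [],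
 ⟨p069_k4, nat_lit 0, nat_lit 0, nat_lit 215, nat_lit 0, nat_lit 290043, [nat_lit 3282000000, nat_lit 6250000000, nat_lit 9842000000], [], [nat_lit 23086273528, nat_lit 25429656224, nat_lit 21599004728, nat_lit 23652429168, nat_lit 28817521744, nat_lit 30522757384, nat_lit 26452973232, nat_lit 27944475104], nat_lit 1271250, nat_lit 1271250, nat_lit 490000, nat_lit 1100001, nat_lit 1100001, nat_lit 2127500, [nat_lit 780000, nat_lit 1435000, nat_lit 1271250], [nat_lit 8, nat_lit 40, nat_lit 40, nat_lit 80, nat_lit 1, nat_lit 345, nat_lit 125, nat_lit 9]⟩, ⟨p069_k2, nat_lit 0, nat_lit 0, nat_lit 420, nat_lit 0, nat_lit 323303, [nat_lit 3282000000, nat_lit 6250000000, nat_lit 11872000000], [], [nat_lit 30200553950, nat_lit 32488405873, nat_lit 28061768990, nat_lit 30509657873, nat_lit 21930918958, nat_lit 23827392574, nat_lit 24609820288, nat_lit 21806592345], nat_lit 1271250, nat_lit 1271250, nat_lit 490000, nat_lit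 1100001, nat_lit 0, nat_lit 1100001, [nat_lit 780000, nat_lit 1435000, nat_lit 1271250], [nat_lit 23, nat_lit 40, nat_lit 40, nat_lit 80, nat_lit 12, nat_lit 401, nat_lit 175, nat_lit 10]⟩,
 zbF0, [⟨nat_lit 0, nat_lit 97, nat_lit 93, nat_lit 100, nat_lit 860770357⟩, ⟨nat_lit 16, nat_lit 85, nat_lit 100, nat_lit 73, nat_lit 672036818⟩]⟩
noncomputable def p069_l32 : Lf2 := ⟨nat_lit 0, nat_lit 20, [nat_lit 5, nat_lit 5, nat_lit 5, nat_lit 20], false, nat_lit 160, nat_lit 280, nat_lit 160, nat_lit 300, ⟨nat_lit 1000, nat_lit 0, nat_lit 0, nat_lit 0, nat_lit 0, nat_lit 0, nat_lit 0, nat_lit 0, nat_lit 0, nat_lit 0, nat_lit 0, nat_lit 0, nat_lit 0, nat_lit 0, nat_lit 0, nat_lit 0, false, false⟩,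
 nat_lit 23845, nat_lit 0, nat_lit 0, nat_lit 2928, nat_lit 16507, nat_lit 15173, nat_lit 0, nat_lit 0, nat_lit 0, nat_lit 609, nat_lit 0, nat_lit 0, nat_lit 0, nat_lit 0, nat_lit 0, nat_lit 0, nat_lit 0, nat_lit 0, [],
 ⟨p069_k4, nat_lit 0, nat_lit 0, nat_lit 180, nat_lit 0, nat_lit 190504, [nat_lit 3282000000, nat_lit 6250000000, nat_lit 9842000000], [], [nat_lit 20225186682, nat_lit 23236178456, nat_lit 17457743482, nat_lit 20078403092, nat_lit 26950825336, nat_lit 30328293712, nat_lit 23289546400, nat_lit 26488992208], nat_lit 1271250, nat_lit 1271250, nat_lit 490000, nat_lit 1100001, nat_lit 1100001, nat_lit 2127500, [nat_lit 780000, nat_lit 1435000, nat_lit 1271250], [nat_lit 8, nat_lit 40, nat_lit 40, nat_lit 80, nat_lit 1, nat_lit 345, nat_lit 125, nat_lit 9]⟩, ⟨p069_k2, nat_lit 0, nat_lit 0, nat_lit 217, nat_lit 0, nat_lit 212350, [nat_lit 3282000000, nat_lit 6250000000, nat_lit 11872000000], [], [nat_lit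 20050856359, nat_lit 22481816009, nat_lit 17286680363, nat_lit 19407040999, nat_lit 27241409072, nat_lit 28847757480, nat_lit 23272279867, nat_lit 25518468458], nat_lit 1271250, nat_lit 1271250, nat_lit 490000, nat_lit 1100001, nat_lit 1100001, nat_lit 2298750, [nat_lit 780000, nat_lit 1435000, nat_lit 1271250], [nat_lit 23, nat_lit 40, nat_lit 40, nat_lit 80, nat_lit 12, nat_lit 428, nat_lit 200, nat_lit 11]⟩,
 zbF0, [⟨nat_lit 0, nat_lit 100, nat_lit 94, nat_lit 97, nat_lit 1031197579⟩, ⟨nat_lit 4, nat_lit 100, nat_lit 85, nat_lit 73, nat_lit 797731675⟩, ⟨nat_lit 19, nat_lit 94, nat_lit 100, nat_lit 75, nat_lit 621270654⟩]⟩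
noncomputable def p069_l33 : Lf2 := ⟨nat_lit 0, nat_lit 20, [nat_lit 5, nat_lit 5, nat_lit 5, nat_lit 20], false, nat_lit 160, nat_lit 280, nat_lit 160, nat_lit 280, ⟨nat_lit 1000, nat_lit 0, nat_lit 0, nat_lit 0, nat_lit 0, nat_lit 0, nat_lit 0, nat_lit 0, nat_lit 0, nat_lit 0, nat_lit 0, nat_lit 0, nat_lit 0, nat_lit 0, nat_lit 0, nat_lit 0, false, false⟩,
 nat_lit 22537, nat_lit 0, nat_lit 0, nat_lit 0, nat_lit 15602, nat_lit 15602, nat_lit 0, nat_lit 0, nat_lit 0, nat_lit 0, nat_lit 0, nat_lit 0, nat_lit 0, nat_lit 0, nat_lit 0, nat_lit 0, nat_lit 0, nat_lit 0, [],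
 ⟨p069_k4, nat_lit 0, nat_lit 0, nat_lit 206, nat_lit 0, nat_lit 290043, [nat_lit 3282000000, nat_lit 6250000000, nat_lit 9842000000], [], [nat_lit 19771338758, nat_lit 22567990308, nat_lit 18258735452, nat_lit 20769681912, nat_lit 26068973692, nat_lit 28315640622, nat_lit 23681513688, nat_lit 26129033888], nat_lit 1271250, nat_lit 1271250, nat_lit 631250, nat_lit 1100001, nat_lit 1100001, nat_lit 2127500, [nat_lit 780000, nat_lit 1435000, nat_lit 1271250], [nat_lit 8, nat_lit 40, nat_lit 40, nat_lit 80, nat_lit 1, nat_lit 345, nat_lit 125, nat_lit 9]⟩, ⟨p069_k4, nat_lit 0, nat_lit 0, nat_lit 206, nat_lit 0, nat_lit 290043, [nat_lit 3282000000, nat_lit 6250000000, nat_lit 9842000000], [], [nat_lit 19771338758, nat_lit 22567990308, nat_lit 18258735452, nat_lit 20769681912, nat_lit 26068973692, nat_lit 28315640622, nat_lit 23681513688, nat_lit 26129033888], nat_lit 1271250, nat_lit 1271250, nat_lit 631250, nat_lit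 1100001, nat_lit 1100001, nat_lit 2127500, [nat_lit 780000, nat_lit 1435000, nat_lit 1271250], [nat_lit 8, nat_lit 40, nat_lit 40, nat_lit 80, nat_lit 1, nat_lit 345, nat_lit 125, nat_lit 9]⟩,
 zbF0, [⟨nat_lit 0, nat_lit 91, nat_lit 91, nat_lit 100, nat_lit 1067755791⟩, ⟨nat_lit 4, nat_lit 100, nat_lit 85, nat_lit 73, nat_lit 706035821⟩, ⟨nat_lit 7, nat_lit 100, nat_lit 85, nat_lit 73, nat_lit 706035821⟩]⟩
noncomputable def p069_l34 : Lf2 := ⟨nat_lit 0, nat_lit 20, [nat_lit 5, nat_lit 5, nat_lit 5, nat_lit 20], false, nat_lit 160, nat_lit 280, nat_lit 0, nat_lit 300, ⟨nat_lit 1000, nat_lit 0, nat_lit 0, nat_lit 0, nat_lit 0, nat_lit 0, nat_lit 0, nat_lit 0, nat_lit 0, nat_lit 0, nat_lit 0, nat_lit 0, nat_lit 0, nat_lit 0, nat_lit 0, nat_lit 0, false, false⟩,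
 nat_lit 15154, nat_lit 0, nat_lit 0, nat_lit 0, nat_lit 10490, nat_lit 9643, nat_lit 0, nat_lit 0, nat_lit 0, nat_lit 863, nat_lit 0, nat_lit 0, nat_lit 0, nat_lit 0, nat_lit 0, nat_lit 0, nat_lit 0, nat_lit 0, [],
 ⟨p069_k4, nat_lit 0, nat_lit 0, nat_lit 185, nat_lit 0, nat_lit 290043, [nat_lit 3282000000, nat_lit 6250000000, nat_lit 9842000000], [], [nat_lit 22783233740, nat_lit 24674452440, nat_lit 25090310100, nat_lit 26655946040, nat_lit 27435541560, nat_lit 28821309320, nat_lit 28568698220, nat_lit 29708609820], nat_lit 1271250, nat_lit 1271250, nat_lit 1100001, nat_lit 1785000, nat_lit 1100001, nat_lit 2127500, [nat_lit 780000, nat_lit 1435000, nat_lit 1271250], [nat_lit 8, nat_lit 40, nat_lit 40, nat_lit 80, nat_lit 1, nat_lit 373, nat_lit 150, nat_lit 10]⟩, ⟨p069_k2, nat_lit 0, nat_lit 0, nat_lit 390, nat_lit 0, nat_lit 323303, [nat_lit 3282000000, nat_lit 6250000000, nat_lit 11872000000], [], [nat_lit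 34029160052, nat_lit 30801604562, nat_lit 29425372529, nat_lit 32532745809, nat_lit 24167510997, nat_lit 26317073855, nat_lit 36019309723, nat_lit 27559862614], nat_lit 1271250, nat_lit 1271250, nat_lit 1100001, nat_lit 1785000, nat_lit 0, nat_lit 2118750, [nat_lit 780000, nat_lit 1435000, nat_lit 1271250], [nat_lit 23, nat_lit 40, nat_lit 40, nat_lit 80, nat_lit 12, nat_lit 456, nat_lit 225, nat_lit 12]⟩,
 zbF0, [⟨nat_lit 4, nat_lit 100, nat_lit 85, nat_lit 73, nat_lit 624560887⟩, ⟨nat_lit 7, nat_lit 100, nat_lit 90, nat_lit 74, nat_lit 159015111⟩]⟩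
noncomputable def p069_l35 : Lf2 := ⟨nat_lit 0, nat_lit 20, [nat_lit 5, nat_lit 5, nat_lit 5, nat_lit 20], false, nat_lit 0, nat_lit 160, nat_lit 0, nat_lit 300, ⟨nat_lit 1000, nat_lit 0, nat_lit 0, nat_lit 0, nat_lit 0, nat_lit 0, nat_lit 0, nat_lit 0, nat_lit 0, nat_lit 0, nat_lit 0, nat_lit 0, nat_lit 0, nat_lit 0, nat_lit 0, nat_lit 0, false, false⟩,
 nat_lit 11458, nat_lit 0, nat_lit 0, nat_lit 0, nat_lit 7291, nat_lit 7291, nat_lit 852, nat_lit 0, nat_lit 0, nat_lit 707, nat_lit 0, nat_lit 0, nat_lit 0, nat_lit 0, nat_lit 0, nat_lit 0, nat_lit 0, nat_lit 0, [],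
 ⟨p069_k2, nat_lit 0, nat_lit 0, nat_lit 387, nat_lit 0, nat_lit 323303, [nat_lit 3282000000, nat_lit 6250000000, nat_lit 11872000000], [], [nat_lit 31812048972, nat_lit 32951045880, nat_lit 39096659256, nat_lit 41672366996, nat_lit 26850184480, nat_lit 28162806168, nat_lit 32684281748, nat_lit 33752328136], nat_lit 1271250, nat_lit 1271250, nat_lit 1271250, nat_lit 1271250, nat_lit 0, nat_lit 1100001, [nat_lit 780000, nat_lit 1435000, nat_lit 1271250], [nat_lit 23, nat_lit 40, nat_lit 40, nat_lit 80, nat_lit 12, nat_lit 456, nat_lit 225, nat_lit 11]⟩, ⟨p069_k2, nat_lit 0, nat_lit 0, nat_lit 387, nat_lit 0, nat_lit 323303, [nat_lit 3282000000, nat_lit 6250000000, nat_lit 11872000000], [], [nat_lit 34593330222, nat_lit 35727577406, nat_lit 39990590525, nat_lit 41672366996, nat_lit 30430134838, nat_lit 31047304545, nat_lit 34174235271, nat_lit 35736810438], nat_lit 1271250, nat_lit 1271250, nat_lit 1271250, nat_lit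 1271250, nat_lit 0, nat_lit 2118750, [nat_lit 780000, nat_lit 1435000, nat_lit 1271250], [nat_lit 23, nat_lit 40, nat_lit 40, nat_lit 80, nat_lit 12, nat_lit 538, nat_lit 300, nat_lit 13]⟩,
 zbF0, [⟨nat_lit 7, nat_lit 100, nat_lit 90, nat_lit 74, nat_lit 120801595⟩, ⟨nat_lit 22, nat_lit 83, nat_lit 100, nat_lit 39, nat_lit 3796465⟩]⟩
noncomputable def p069_l36 : Lf2 := ⟨nat_lit 0, nat_lit 20, [nat_lit 5, nat_lit 5, nat_lit 5, nat_lit 20], false, nat_lit 160, nat_lit 300, nat_lit 0, nat_lit 300, ⟨nat_lit 1000, nat_lit 0, nat_lit 0, nat_lit 0, nat_lit 0, nat_lit 0, nat_lit 0, nat_lit 0, nat_lit 0, nat_lit 0, nat_lit 0, nat_lit 0, nat_lit 0, nat_lit 0, nat_lit 0, nat_lit 0, false, false⟩,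
 nat_lit 12105, nat_lit 0, nat_lit 0, nat_lit 0, nat_lit 7703, nat_lit 7703, nat_lit 713, nat_lit 0, nat_lit 0, nat_lit 716, nat_lit 0, nat_lit 0, nat_lit 0, nat_lit 0, nat_lit 0, nat_lit 0, nat_lit 0, nat_lit 0, [],
 ⟨p069_k2, nat_lit 0, nat_lit 0, nat_lit 248, nat_lit 0, nat_lit 323303, [nat_lit 3282000000, nat_lit 6250000000, nat_lit 11872000000], [], [nat_lit 25363597003, nat_lit 27127026703, nat_lit 32703245247, nat_lit 33997746099, nat_lit 28087346721, nat_lit 29348493876, nat_lit 34599903517, nat_lit 36218940254], nat_lit 1271250, nat_lit 1271250, nat_lit 1271250, nat_lit 1271250, nat_lit 1100001, nat_lit 2298750, [nat_lit 780000, nat_lit 1435000, nat_lit 1271250], [nat_lit 23, nat_lit 40, nat_lit 40, nat_lit 80, nat_lit 12, nat_lit 538, nat_lit 300, nat_lit 13]⟩, ⟨p069_k2, nat_lit 0, nat_lit 0, nat_lit 387, nat_lit 0, nat_lit 323303, [nat_lit 3282000000, nat_lit 6250000000, nat_lit 11872000000], [], [nat_lit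 33647495276, nat_lit 34992847156, nat_lit 40368351700, nat_lit 42825042468, nat_lit 28972421204, nat_lit 29727588426, nat_lit 34599903517, nat_lit 36218940254], nat_lit 1271250, nat_lit 1271250, nat_lit 1271250, nat_lit 1271250, nat_lit 0, nat_lit 2118750, [nat_lit 780000, nat_lit 1435000, nat_lit 1271250], [nat_lit 23, nat_lit 40, nat_lit 40, nat_lit 80, nat_lit 12, nat_lit 538, nat_lit 300, nat_lit 13]⟩,
 zbF0, [⟨nat_lit 4, nat_lit 100, nat_lit 90, nat_lit 74, nat_lit 448916060⟩, ⟨nat_lit 19, nat_lit 90, nat_lit 100, nat_lit 74, nat_lit 105875695⟩]⟩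
noncomputable def b_V_700_700_10_43 : St := ⟨true, nat_lit 1, nat_lit 1, nat_lit 1, nat_lit 80, nat_lit 280, nat_lit 320, nat_lit 280, nat_lit 320, nat_lit 64, nat_lit 400, nat_lit 40, nat_lit 80, nat_lit 0, nat_lit 300, nat_lit 0, nat_lit 300, nat_lit 80, nat_lit 116, nat_lit 0, nat_lit 0, nat_lit 0, nat_lit 0⟩
theorem d_V_700_700_10_43 (h : EB TB.env) : Dead b_V_700_700_10_43 := chkB_sound0 h (T :=
(.spl (nat_lit 2) (nat_lit 240)
(.spl (nat_lit 4) (nat_lit 160)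
(.spl (nat_lit 2) (nat_lit 160)
(.spl (nat_lit 0) (nat_lit 300)
(.ord (.spl (nat_lit 6) (nat_lit 92)
(.spl (nat_lit 3) (nat_lit 60)
(.trX (nat_lit 19) (nat_lit 99) (nat_lit 100) (nat_lit 77) (nat_lit 276) (.leaf p069_l20))
(.leaf p069_l21))
(.leaf p069_l22)))
(.trZ (nat_lit 0) (nat_lit 100) (nat_lit 94) (nat_lit 88) (nat_lit 80) (.spl (nat_lit 5) (nat_lit 160)
(.leaf p069_l23)
(.spl (nat_lit 0) (nat_lit 310)
(.ord (.leaf p069_l24))
(.trZ (nat_lit 0) (nat_lit 100) (nat_lit 91) (nat_lit 91) (nat_lit 88) (.leaf p069_l25))))))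
(.spl (nat_lit 0) (nat_lit 300)
(.ord (.leaf p069_l26))
(.leaf p069_l27)))
(.spl (nat_lit 0) (nat_lit 300)
(.ord (.spl (nat_lit 6) (nat_lit 92)
(.spl (nat_lit 3) (nat_lit 60)
(.trX (nat_lit 16) (nat_lit 99) (nat_lit 100) (nat_lit 77) (nat_lit 276) (.trX (nat_lit 19) (nat_lit 99) (nat_lit 100) (nat_lit 77) (nat_lit 276) (.leaf p069_l28)))
(.leaf p069_l29))
(.leaf p069_l30)))
(.trZ (nat_lit 0) (nat_lit 100) (nat_lit 94) (nat_lit 88) (nat_lit 80) (.trX (nat_lit 16) (nat_lit 94) (nat_lit 100) (nat_lit 87) (nat_lit 280) (.spl (nat_lit 2) (nat_lit 160)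
(.spl (nat_lit 5) (nat_lit 160)
(.leaf p069_l31)
(.spl (nat_lit 1) (nat_lit 300)
(.leaf p069_l32)
(.trZ (nat_lit 0) (nat_lit 100) (nat_lit 100) (nat_lit 100) (nat_lit 100) (.trX (nat_lit 19) (nat_lit 94) (nat_lit 100) (nat_lit 87) (nat_lit 280) (.leaf p069_l33)))))
(.leaf p069_l34))))))
(.spl (nat_lit 4) (nat_lit 160)
(.leaf p069_l35)
(.leaf p069_l36)))) (by decide +kernel)
noncomputable def p069_l37 : Lf2 := ⟨nat_lit 1, nat_lit 20, [nat_lit 5, nat_lit 5, nat_lit 5, nat_lit 20], false, nat_lit 0, nat_lit 300, nat_lit 0, nat_lit 300, zbN0,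
 nat_lit 0, nat_lit 0, nat_lit 0, nat_lit 0, nat_lit 0, nat_lit 0, nat_lit 0, nat_lit 0, nat_lit 0, nat_lit 0, nat_lit 0, nat_lit 0, nat_lit 0, nat_lit 0, nat_lit 0, nat_lit 0, nat_lit 0, nat_lit 0, [],
 C1.Rw.none, C1.Rw.none,
 zbF0, []⟩
noncomputable def p069_l38 : Lf2 := ⟨nat_lit 0, nat_lit 20, [nat_lit 5, nat_lit 5, nat_lit 5, nat_lit 20], true, nat_lit 0, nat_lit 292, nat_lit 0, nat_lit 300, ⟨nat_lit 0, nat_lit 1000, nat_lit 0, nat_lit 7, nat_lit 163, nat_lit 1000, nat_lit 103, nat_lit 0, nat_lit 0, nat_lit 0, nat_lit 0, nat_lit 0, nat_lit 0, nat_lit 0, nat_lit 0, nat_lit 5000000, false, false⟩,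
 nat_lit 0, nat_lit 8964, nat_lit 0, nat_lit 0, nat_lit 5953, nat_lit 0, nat_lit 0, nat_lit 0, nat_lit 0, nat_lit 0, nat_lit 0, nat_lit 0, nat_lit 0, nat_lit 26077752946341, nat_lit 0, nat_lit 250000, nat_lit 0, nat_lit 0, [(nat_lit 13, [(nat_lit 0, nat_lit 1000)])],
 ⟨p069_k6, nat_lit 0, nat_lit 0, nat_lit 362, nat_lit 0, nat_lit 140554, [nat_lit 2378400000, nat_lit 3128000000, nat_lit 3715520000], [], [nat_lit 27121975063, nat_lit 27910298929, nat_lit 26294732664, nat_lit 27035475706, nat_lit 27502563539, nat_lit 27999625204, nat_lit 28459507963, nat_lit 27133900769], nat_lit 1271250, nat_lit 1271250, nat_lit 435600, nat_lit 780000, nat_lit 0, nat_lit 2062250, [nat_lit 780000, nat_lit 1435000, nat_lit 1271250], [nat_lit 23, nat_lit 40, nat_lit 40, nat_lit 80, nat_lit 12, nat_lit 428, nat_lit 200, nat_lit 11]⟩, C1.Rw.none,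
 ⟨nat_lit 5000, nat_lit 5245, ⟨.ofNat (nat_lit 351391), .ofNat (nat_lit 439194), .ofNat (nat_lit 372775), .ofNat (nat_lit 460577), .ofNat (nat_lit 357140), .ofNat (nat_lit 442852), .ofNat (nat_lit 378567), .ofNat (nat_lit 464278)⟩, ⟨.negSucc (nat_lit 36940), .ofNat (nat_lit 497209), .ofNat (nat_lit 0), .ofNat (nat_lit 539979), .negSucc (nat_lit 28572), .ofNat (nat_lit 492856), .ofNat (nat_lit 0), .ofNat (nat_lit 535713)⟩⟩, [⟨nat_lit 0, nat_lit 100, nat_lit 100, nat_lit 100, nat_lit 80287053⟩, ⟨nat_lit 16, nat_lit 92, nat_lit 100, nat_lit 75, nat_lit 97892129⟩]⟩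
noncomputable def p069_l39 : Lf2 := ⟨nat_lit 1, nat_lit 20, [nat_lit 5, nat_lit 5, nat_lit 5, nat_lit 20], false, nat_lit 0, nat_lit 300, nat_lit 0, nat_lit 300, zbN0,
 nat_lit 0, nat_lit 0, nat_lit 0, nat_lit 0, nat_lit 0, nat_lit 0, nat_lit 0, nat_lit 0, nat_lit 0, nat_lit 0, nat_lit 0, nat_lit 0, nat_lit 0, nat_lit 0, nat_lit 0, nat_lit 0, nat_lit 0, nat_lit 0, [],
 C1.Rw.none, C1.Rw.none,
 zbF0, []⟩
noncomputable def p069_l40 : Lf2 := ⟨nat_lit 0, nat_lit 15, [nat_lit 30, nat_lit 5, nat_lit 5, nat_lit 20], true, nat_lit 0, nat_lit 256, nat_lit 0, nat_lit 276, ⟨nat_lit 0, nat_lit 1000, nat_lit 0, nat_lit 7, nat_lit 173, nat_lit 1000, nat_lit 87, nat_lit 0, nat_lit 0, nat_lit 0, nat_lit 0, nat_lit 0, nat_lit 0, nat_lit 0, nat_lit 0, nat_lit 5000000, false, false⟩,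
 nat_lit 0, nat_lit 10501, nat_lit 0, nat_lit 0, nat_lit 7269, nat_lit 0, nat_lit 151, nat_lit 0, nat_lit 0, nat_lit 0, nat_lit 0, nat_lit 0, nat_lit 0, nat_lit 600882552322, nat_lit 0, nat_lit 400000, nat_lit 0, nat_lit 0, [(nat_lit 16, [(nat_lit 1, nat_lit 1000)])],
 ⟨p069_k0, nat_lit 0, nat_lit 0, nat_lit 375, nat_lit 0, nat_lit 354052, [nat_lit 2020200000, nat_lit 2399066667, nat_lit 2245733333], [], [nat_lit 23827866218, nat_lit 24285403055, nat_lit 21938827456, nat_lit 23499448651, nat_lit 20508135733, nat_lit 21871437915, nat_lit 19831740171, nat_lit 21121193288], nat_lit 1271250, nat_lit 1271250, nat_lit 490000, nat_lit 780000, nat_lit 0, nat_lit 1808000, [nat_lit 780000, nat_lit 1435000, nat_lit 1271250], [nat_lit 8, nat_lit 40, nat_lit 40, nat_lit 80, nat_lit 1, nat_lit 317, nat_lit 100, nat_lit 9]⟩, C1.Rw.none,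
 ⟨nat_lit 4472, nat_lit 5000, ⟨.ofNat (nat_lit 371392), .ofNat (nat_lit 442816), .ofNat (nat_lit 414225), .ofNat (nat_lit 485648), .ofNat (nat_lit 382295), .ofNat (nat_lit 450269), .ofNat (nat_lit 425403), .ofNat (nat_lit 493376)⟩, ⟨.negSucc (nat_lit 28572), .ofNat (nat_lit 428570), .negSucc (nat_lit 7143), .ofNat (nat_lit 449999), .negSucc (nat_lit 12423), .ofNat (nat_lit 422636), .ofNat (nat_lit 0), .ofNat (nat_lit 444203)⟩⟩, [⟨nat_lit 0, nat_lit 97, nat_lit 93, nat_lit 100, nat_lit 1182961793⟩, ⟨nat_lit 16, nat_lit 84, nat_lit 100, nat_lit 67, nat_lit 38236925⟩]⟩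
noncomputable def p069_l41 : Lf2 := ⟨nat_lit 0, nat_lit 20, [nat_lit 5, nat_lit 5, nat_lit 5, nat_lit 20], true, nat_lit 0, nat_lit 280, nat_lit 0, nat_lit 300, ⟨nat_lit 0, nat_lit 1000, nat_lit 0, nat_lit 7, nat_lit 173, nat_lit 1000, nat_lit 100, nat_lit 0, nat_lit 0, nat_lit 0, nat_lit 0, nat_lit 0, nat_lit 0, nat_lit 0, nat_lit 0, nat_lit 5000000, false, false⟩,
 nat_lit 0, nat_lit 10693, nat_lit 0, nat_lit 0, nat_lit 7402, nat_lit 0, nat_lit 82, nat_lit 0, nat_lit 0, nat_lit 0, nat_lit 0, nat_lit 0, nat_lit 0, nat_lit 0, nat_lit 0, nat_lit 400000, nat_lit 0, nat_lit 0, [(nat_lit 16, [(nat_lit 1, nat_lit 1000)])],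
 ⟨p069_k4, nat_lit 0, nat_lit 0, nat_lit 353, nat_lit 0, nat_lit 289217, [nat_lit 2020200000, nat_lit 2399066667, nat_lit 2245733333], [], [nat_lit 24083260406, nat_lit 25014654522, nat_lit 22958096486, nat_lit 24180334930, nat_lit 22331529129, nat_lit 23617932389, nat_lit 21555455521, nat_lit 22775656857], nat_lit 1271250, nat_lit 1271250, nat_lit 490000, nat_lit 780000, nat_lit 0, nat_lit 1977500, [nat_lit 780000, nat_lit 1435000, nat_lit 1271250], [nat_lit 8, nat_lit 40, nat_lit 40, nat_lit 80, nat_lit 1, nat_lit 317, nat_lit 100, nat_lit 9]⟩, C1.Rw.none,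
 ⟨nat_lit 4472, nat_lit 5000, ⟨.ofNat (nat_lit 371392), .ofNat (nat_lit 442816), .ofNat (nat_lit 414225), .ofNat (nat_lit 485648), .ofNat (nat_lit 382295), .ofNat (nat_lit 450269), .ofNat (nat_lit 425403), .ofNat (nat_lit 493376)⟩, ⟨.negSucc (nat_lit 7143), .ofNat (nat_lit 492856), .ofNat (nat_lit 0), .ofNat (nat_lit 514284), .ofNat (nat_lit 0), .ofNat (nat_lit 484989), .ofNat (nat_lit 0), .ofNat (nat_lit 506556)⟩⟩, [⟨nat_lit 0, nat_lit 97, nat_lit 93, nat_lit 100, nat_lit 1065353011⟩, ⟨nat_lit 4, nat_lit 100, nat_lit 87, nat_lit 79, nat_lit 56975273⟩]⟩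
noncomputable def p069_l42 : Lf2 := ⟨nat_lit 0, nat_lit 20, [nat_lit 5, nat_lit 5, nat_lit 5, nat_lit 20], true, nat_lit 0, nat_lit 160, nat_lit 0, nat_lit 300, ⟨nat_lit 0, nat_lit 1000, nat_lit 0, nat_lit 7, nat_lit 224, nat_lit 1000, nat_lit 55, nat_lit 0, nat_lit 0, nat_lit 0, nat_lit 0, nat_lit 0, nat_lit 0, nat_lit 0, nat_lit 0, nat_lit 5000000, false, false⟩,
 nat_lit 0, nat_lit 5612, nat_lit 0, nat_lit 0, nat_lit 3571, nat_lit 0, nat_lit 225, nat_lit 0, nat_lit 0, nat_lit 0, nat_lit 0, nat_lit 0, nat_lit 0, nat_lit 20804631070237, nat_lit 0, nat_lit 400000, nat_lit 0, nat_lit 0, [(nat_lit 13, [(nat_lit 1, nat_lit 1000)])],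
 ⟨p069_k2, nat_lit 0, nat_lit 0, nat_lit 342, nat_lit 0, nat_lit 151955, [nat_lit 2067066667, nat_lit 2874400001, nat_lit 2403200000], [], [nat_lit 30383111308, nat_lit 28494987910, nat_lit 27133707177, nat_lit 27694547743, nat_lit 24595717721, nat_lit 25177283555, nat_lit 27201617659, nat_lit 26389675009], nat_lit 1271250, nat_lit 1271250, nat_lit 780000, nat_lit 1762500, nat_lit 0, nat_lit 1100001, [nat_lit 780000, nat_lit 1435000, nat_lit 1271250], [nat_lit 23, nat_lit 40, nat_lit 40, nat_lit 80, nat_lit 12, nat_lit 401, nat_lit 175, nat_lit 10]⟩, C1.Rw.none,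
 ⟨nat_lit 5000, nat_lit 5478, ⟨.ofNat (nat_lit 435548), .ofNat (nat_lit 660309), .ofNat (nat_lit 456895), .ofNat (nat_lit 681655), .ofNat (nat_lit 442843), .ofNat (nat_lit 657090), .ofNat (nat_lit 464262), .ofNat (nat_lit 678509)⟩, ⟨.negSucc (nat_lit 45522), .ofNat (nat_lit 254209), .negSucc (nat_lit 2832), .ofNat (nat_lit 296923), .negSucc (nat_lit 28572), .ofNat (nat_lit 257141), .ofNat (nat_lit 0), .ofNat (nat_lit 299999)⟩⟩, []⟩
noncomputable def p069_l43 : Lf2 := ⟨nat_lit 0, nat_lit 20, [nat_lit 5, nat_lit 5, nat_lit 5, nat_lit 20], false, nat_lit 0, nat_lit 160, nat_lit 0, nat_lit 300, ⟨nat_lit 608, nat_lit 392, nat_lit 0, nat_lit 7, nat_lit 225, nat_lit 392, nat_lit 56, nat_lit 0, nat_lit 0, nat_lit 0, nat_lit 0, nat_lit 0, nat_lit 0, nat_lit 0, nat_lit 0, nat_lit 5000000, false, false⟩,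
 nat_lit 0, nat_lit 8895, nat_lit 0, nat_lit 0, nat_lit 6157, nat_lit 8833, nat_lit 600, nat_lit 0, nat_lit 0, nat_lit 192, nat_lit 0, nat_lit 0, nat_lit 0, nat_lit 0, nat_lit 0, nat_lit 392000, nat_lit 0, nat_lit 0, [(nat_lit 16, [(nat_lit 2, nat_lit 392)])],
 ⟨p069_k4, nat_lit 0, nat_lit 0, nat_lit 344, nat_lit 0, nat_lit 315268, [nat_lit 2826025600, nat_lit 4207523200, nat_lit 4958759467], [], [nat_lit 20887708304, nat_lit 22087439371, nat_lit 23237511725, nat_lit 24644307360, nat_lit 18001070922, nat_lit 18550315675, nat_lit 29288304188, nat_lit 26536125188], nat_lit 1271250, nat_lit 1271250, nat_lit 780000, nat_lit 1762500, nat_lit 0, nat_lit 1100001, [nat_lit 780000, nat_lit 1435000, nat_lit 1271250], [nat_lit 8, nat_lit 40, nat_lit 40, nat_lit 80, nat_lit 1, nat_lit 317, nat_lit 100, nat_lit 9]⟩, ⟨p069_k2, nat_lit 0, nat_lit 0, nat_lit 212, nat_lit 0, nat_lit 0, [nat_lit 1995456000, nat_lit 3800000000, nat_lit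 7218176000], [], [nat_lit 21159642128, nat_lit 22790864762, nat_lit 22261552208, nat_lit 23498684800, nat_lit 16863440760, nat_lit 17755812516, nat_lit 16254316913, nat_lit 16910169298], nat_lit 0, nat_lit 0, nat_lit 0, nat_lit 0, nat_lit 0, nat_lit 0, [], [nat_lit 23, nat_lit 40, nat_lit 40, nat_lit 80, nat_lit 12, nat_lit 456, nat_lit 225, nat_lit 12]⟩,
 ⟨nat_lit 4472, nat_lit 5000, ⟨.ofNat (nat_lit 442816), .ofNat (nat_lit 657088), .ofNat (nat_lit 464232), .ofNat (nat_lit 678503), .ofNat (nat_lit 450269), .ofNat (nat_lit 654189), .ofNat (nat_lit 471823), .ofNat (nat_lit 675743)⟩, ⟨.negSucc (nat_lit 28572), .ofNat (nat_lit 257141), .ofNat (nat_lit 0), .ofNat (nat_lit 299999), .negSucc (nat_lit 12423), .ofNat (nat_lit 259489), .ofNat (nat_lit 0), .ofNat (nat_lit 302621)⟩⟩, []⟩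
noncomputable def p069_l44 : Lf2 := ⟨nat_lit 0, nat_lit 20, [nat_lit 5, nat_lit 5, nat_lit 5, nat_lit 20], true, nat_lit 160, nat_lit 300, nat_lit 0, nat_lit 300, ⟨nat_lit 0, nat_lit 1000, nat_lit 0, nat_lit 7, nat_lit 224, nat_lit 1000, nat_lit 162, nat_lit 0, nat_lit 0, nat_lit 0, nat_lit 0, nat_lit 0, nat_lit 0, nat_lit 0, nat_lit 0, nat_lit 5000000, false, false⟩,
 nat_lit 0, nat_lit 8856, nat_lit 0, nat_lit 0, nat_lit 5635, nat_lit 0, nat_lit 454, nat_lit 0, nat_lit 0, nat_lit 0, nat_lit 0, nat_lit 0, nat_lit 0, nat_lit 10748579947865, nat_lit 0, nat_lit 250000, nat_lit 0, nat_lit 0, [(nat_lit 13, [(nat_lit 0, nat_lit 1000)])],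
 ⟨p069_k2, nat_lit 0, nat_lit 0, nat_lit 178, nat_lit 0, nat_lit 151955, [nat_lit 2378400000, nat_lit 3128000000, nat_lit 3715520000], [], [nat_lit 17586098750, nat_lit 18819184460, nat_lit 21776465320, nat_lit 20859855920, nat_lit 22344180810, nat_lit 23243072633, nat_lit 23524798285, nat_lit 24249450128], nat_lit 1271250, nat_lit 1271250, nat_lit 780000, nat_lit 1762500, nat_lit 1271250, nat_lit 1271250, [nat_lit 780000, nat_lit 1435000, nat_lit 1271250], [nat_lit 23, nat_lit 40, nat_lit 40, nat_lit 80, nat_lit 12, nat_lit 456, nat_lit 225, nat_lit 11]⟩, C1.Rw.none,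
 ⟨nat_lit 5000, nat_lit 5478, ⟨.ofNat (nat_lit 435548), .ofNat (nat_lit 660309), .ofNat (nat_lit 456895), .ofNat (nat_lit 681655), .ofNat (nat_lit 442843), .ofNat (nat_lit 657090), .ofNat (nat_lit 464262), .ofNat (nat_lit 678509)⟩, ⟨.ofNat (nat_lit 254209), .ofNat (nat_lit 516475), .ofNat (nat_lit 296923), .ofNat (nat_lit 559189), .ofNat (nat_lit 257141), .ofNat (nat_lit 507141), .ofNat (nat_lit 299999), .ofNat (nat_lit 549998)⟩⟩, [⟨nat_lit 4, nat_lit 100, nat_lit 94, nat_lit 75, nat_lit 294170852⟩]⟩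
noncomputable def p069_l45 : Lf2 := ⟨nat_lit 0, nat_lit 20, [nat_lit 5, nat_lit 5, nat_lit 5, nat_lit 20], true, nat_lit 160, nat_lit 280, nat_lit 0, nat_lit 300, ⟨nat_lit 0, nat_lit 1000, nat_lit 0, nat_lit 7, nat_lit 225, nat_lit 1000, nat_lit 154, nat_lit 0, nat_lit 0, nat_lit 0, nat_lit 0, nat_lit 0, nat_lit 0, nat_lit 0, nat_lit 0, nat_lit 5000000, false, false⟩,
 nat_lit 0, nat_lit 6225, nat_lit 0, nat_lit 0, nat_lit 4309, nat_lit 0, nat_lit 0, nat_lit 0, nat_lit 0, nat_lit 0, nat_lit 0, nat_lit 0, nat_lit 0, nat_lit 0, nat_lit 0, nat_lit 400000, nat_lit 0, nat_lit 0, [(nat_lit 16, [(nat_lit 1, nat_lit 1000)])],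
 ⟨p069_k4, nat_lit 0, nat_lit 0, nat_lit 206, nat_lit 0, nat_lit 315268, [nat_lit 2020200000, nat_lit 2399066667, nat_lit 2245733333], [], [nat_lit 20416880377, nat_lit 21504914149, nat_lit 22877571211, nat_lit 23765483713, nat_lit 24089804429, nat_lit 25039157941, nat_lit 26594393802, nat_lit 26692970995], nat_lit 1271250, nat_lit 1271250, nat_lit 780000, nat_lit 1762500, nat_lit 1100001, nat_lit 2127500, [nat_lit 780000, nat_lit 1435000, nat_lit 1271250], [nat_lit 8, nat_lit 40, nat_lit 40, nat_lit 80, nat_lit 1, nat_lit 373, nat_lit 150, nat_lit 10]⟩, C1.Rw.none,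
 ⟨nat_lit 4472, nat_lit 5000, ⟨.ofNat (nat_lit 442816), .ofNat (nat_lit 657088), .ofNat (nat_lit 464232), .ofNat (nat_lit 678503), .ofNat (nat_lit 450269), .ofNat (nat_lit 654189), .ofNat (nat_lit 471823), .ofNat (nat_lit 675743)⟩, ⟨.ofNat (nat_lit 257141), .ofNat (nat_lit 471427), .ofNat (nat_lit 299999), .ofNat (nat_lit 514284), .ofNat (nat_lit 259489), .ofNat (nat_lit 463423), .ofNat (nat_lit 302621), .ofNat (nat_lit 506556)⟩⟩, [⟨nat_lit 4, nat_lit 100, nat_lit 85, nat_lit 73, nat_lit 342710676⟩]⟩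
noncomputable def p069_l46 : Lf2 := ⟨nat_lit 1, nat_lit 20, [nat_lit 5, nat_lit 5, nat_lit 5, nat_lit 20], false, nat_lit 0, nat_lit 300, nat_lit 0, nat_lit 300, zbN0,
 nat_lit 0, nat_lit 0, nat_lit 0, nat_lit 0, nat_lit 0, nat_lit 0, nat_lit 0, nat_lit 0, nat_lit 0, nat_lit 0, nat_lit 0, nat_lit 0, nat_lit 0, nat_lit 0, nat_lit 0, nat_lit 0, nat_lit 0, nat_lit 0, [],
 C1.Rw.none, C1.Rw.none,
 zbF0, []⟩
noncomputable def p069_l47 : Lf2 := ⟨nat_lit 0, nat_lit 20, [nat_lit 5, nat_lit 5, nat_lit 5, nat_lit 20], false, nat_lit 0, nat_lit 160, nat_lit 0, nat_lit 280, ⟨nat_lit 1000, nat_lit 0, nat_lit 0, nat_lit 0, nat_lit 0, nat_lit 0, nat_lit 0, nat_lit 0, nat_lit 0, nat_lit 0, nat_lit 0, nat_lit 0, nat_lit 0, nat_lit 0, nat_lit 0, nat_lit 0, false, false⟩,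
 nat_lit 0, nat_lit 10620, nat_lit 0, nat_lit 0, nat_lit 7352, nat_lit 15396, nat_lit 1091, nat_lit 0, nat_lit 0, nat_lit 0, nat_lit 0, nat_lit 0, nat_lit 0, nat_lit 24292197661288, nat_lit 0, nat_lit 0, nat_lit 0, nat_lit 0, [],
 ⟨p069_k4, nat_lit 0, nat_lit 0, nat_lit 341, nat_lit 0, nat_lit 317184, [nat_lit 3282000000, nat_lit 6250000000, nat_lit 9842000000], [], [nat_lit 22050771820, nat_lit 22659695492, nat_lit 24527545838, nat_lit 25284084022, nat_lit 17520894642, nat_lit 17970763911, nat_lit 30236078818, nat_lit 28592906818], nat_lit 1271250, nat_lit 1271250, nat_lit 780000, nat_lit 1762500, nat_lit 0, nat_lit 1100001, [nat_lit 780000, nat_lit 1435000, nat_lit 1271250], [nat_lit 8, nat_lit 40, nat_lit 40, nat_lit 80, nat_lit 1, nat_lit 317, nat_lit 100, nat_lit 9]⟩, ⟨p069_k4, nat_lit 0, nat_lit 0, nat_lit 175, nat_lit 0, nat_lit 0, [nat_lit 3282000000, nat_lit 6250000000, nat_lit 9842000000], [], [nat_lit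 32949023656, nat_lit 34583984484, nat_lit 35481693224, nat_lit 36719801556, nat_lit 24951206424, nat_lit 25911316388, nat_lit 26073646900, nat_lit 27309376926], nat_lit 0, nat_lit 0, nat_lit 0, nat_lit 0, nat_lit 0, nat_lit 0, [], [nat_lit 8, nat_lit 40, nat_lit 40, nat_lit 80, nat_lit 1, nat_lit 373, nat_lit 150, nat_lit 11]⟩,
 zbF0, [⟨nat_lit 7, nat_lit 100, nat_lit 88, nat_lit 74, nat_lit 11835200⟩]⟩
noncomputable def p069_l48 : Lf2 := ⟨nat_lit 0, nat_lit 20, [nat_lit 5, nat_lit 5, nat_lit 5, nat_lit 20], false, nat_lit 0, nat_lit 160, nat_lit 0, nat_lit 280, ⟨nat_lit 1000, nat_lit 0, nat_lit 0, nat_lit 0, nat_lit 0, nat_lit 0, nat_lit 0, nat_lit 0, nat_lit 0, nat_lit 0, nat_lit 0, nat_lit 0, nat_lit 0, nat_lit 0, nat_lit 0, nat_lit 0, false, false⟩,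
 nat_lit 0, nat_lit 9274, nat_lit 0, nat_lit 0, nat_lit 6685, nat_lit 15401, nat_lit 860, nat_lit 0, nat_lit 0, nat_lit 0, nat_lit 0, nat_lit 0, nat_lit 0, nat_lit 40670091663814, nat_lit 0, nat_lit 0, nat_lit 0, nat_lit 0, [],
 ⟨p069_k5, nat_lit 0, nat_lit 0, nat_lit 440, nat_lit 0, nat_lit 473117, [nat_lit 3282000000, nat_lit 6250000000, nat_lit 9842000000], [], [nat_lit 27741553945, nat_lit 26000853480, nat_lit 26204116285, nat_lit 26920723180, nat_lit 20911004960, nat_lit 21310620380, nat_lit 28971150040, nat_lit 27477052540], nat_lit 1271250, nat_lit 1271250, nat_lit 780000, nat_lit 1762500, nat_lit 0, nat_lit 1100001, [nat_lit 780000, nat_lit 1435000, nat_lit 1271250], [nat_lit 8, nat_lit 40, nat_lit 40, nat_lit 80, nat_lit 1, nat_lit 317, nat_lit 100, nat_lit 9]⟩, ⟨p069_k4, nat_lit 0, nat_lit 0, nat_lit 182, nat_lit 0, nat_lit 0, [nat_lit 3282000000, nat_lit 6250000000, nat_lit 9842000000], [], [nat_lit 32950599586,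 nat_lit 36221354672, nat_lit 35483081194, nat_lit 38292888480, nat_lit 24948169144, nat_lit 26868826912, nat_lit 26075169525, nat_lit 28547226762], nat_lit 0, nat_lit 0, nat_lit 0, nat_lit 0, nat_lit 0, nat_lit 0, [], [nat_lit 8, nat_lit 40, nat_lit 40, nat_lit 80, nat_lit 1, nat_lit 373, nat_lit 150, nat_lit 11]⟩,
 zbF0, [⟨nat_lit 0, nat_lit 83, nat_lit 83, nat_lit 100, nat_lit 211190783⟩, ⟨nat_lit 7, nat_lit 100, nat_lit 85, nat_lit 73, nat_lit 14081754⟩]⟩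
noncomputable def p069_l49 : Lf2 := ⟨nat_lit 0, nat_lit 20, [nat_lit 5, nat_lit 5, nat_lit 5, nat_lit 20], true, nat_lit 160, nat_lit 280, nat_lit 0, nat_lit 280, ⟨nat_lit 0, nat_lit 1000, nat_lit 0, nat_lit 7, nat_lit 231, nat_lit 1000, nat_lit 154, nat_lit 0, nat_lit 0, nat_lit 0, nat_lit 0, nat_lit 0, nat_lit 0, nat_lit 0, nat_lit 0, nat_lit 5000000, false, false⟩,
 nat_lit 0, nat_lit 6302, nat_lit 0, nat_lit 0, nat_lit 4362, nat_lit 0, nat_lit 0, nat_lit 0, nat_lit 0, nat_lit 0, nat_lit 0, nat_lit 0, nat_lit 0, nat_lit 43750824553490, nat_lit 0, nat_lit 400000, nat_lit 0, nat_lit 0, [(nat_lit 16, [(nat_lit 1, nat_lit 1000)])],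
 ⟨p069_k4, nat_lit 0, nat_lit 0, nat_lit 203, nat_lit 0, nat_lit 317184, [nat_lit 2020200000, nat_lit 2399066667, nat_lit 2245733333], [], [nat_lit 20327782925, nat_lit 20874813073, nat_lit 22784616737, nat_lit 23230684455, nat_lit 24057609261, nat_lit 24534606569, nat_lit 26527853097, nat_lit 26263717209], nat_lit 1271250, nat_lit 1271250, nat_lit 780000, nat_lit 1762500, nat_lit 1100001, nat_lit 2127500, [nat_lit 780000, nat_lit 1435000, nat_lit 1271250], [nat_lit 8, nat_lit 40, nat_lit 40, nat_lit 80, nat_lit 1, nat_lit 373, nat_lit 150, nat_lit 10]⟩, C1.Rw.none,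
 ⟨nat_lit 4743, nat_lit 5000, ⟨.ofNat (nat_lit 464274), .ofNat (nat_lit 678555), .ofNat (nat_lit 474987), .ofNat (nat_lit 689267), .ofNat (nat_lit 468029), .ofNat (nat_lit 677124), .ofNat (nat_lit 478772), .ofNat (nat_lit 687866)⟩, ⟨.ofNat (nat_lit 257141), .ofNat (nat_lit 471427), .ofNat (nat_lit 299999), .ofNat (nat_lit 514284), .ofNat (nat_lit 258394), .ofNat (nat_lit 467493), .ofNat (nat_lit 301370), .ofNat (nat_lit 510469)⟩⟩, [⟨nat_lit 4, nat_lit 100, nat_lit 88, nat_lit 74, nat_lit 328482758⟩]⟩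
noncomputable def p069_l50 : Lf2 := ⟨nat_lit 0, nat_lit 20, [nat_lit 5, nat_lit 5, nat_lit 5, nat_lit 20], false, nat_lit 160, nat_lit 268, nat_lit 0, nat_lit 280, ⟨nat_lit 1000, nat_lit 0, nat_lit 0, nat_lit 0, nat_lit 0, nat_lit 0, nat_lit 0, nat_lit 0, nat_lit 0, nat_lit 0, nat_lit 0, nat_lit 0, nat_lit 0, nat_lit 0, nat_lit 0, nat_lit 0, false, false⟩,
 nat_lit 0, nat_lit 8781, nat_lit 0, nat_lit 0, nat_lit 6330, nat_lit 15401, nat_lit 1071, nat_lit 0, nat_lit 0, nat_lit 0, nat_lit 0, nat_lit 0, nat_lit 0, nat_lit 30684696459993, nat_lit 0, nat_lit 0, nat_lit 0, nat_lit 0, [],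
 ⟨p069_k5, nat_lit 0, nat_lit 0, nat_lit 308, nat_lit 0, nat_lit 473117, [nat_lit 3282000000, nat_lit 6250000000, nat_lit 9842000000], [], [nat_lit 18160411400, nat_lit 18669830410, nat_lit 20255244770, nat_lit 20742947290, nat_lit 21191906732, nat_lit 21677539118, nat_lit 24645781379, nat_lit 24021333987], nat_lit 1271250, nat_lit 1271250, nat_lit 780000, nat_lit 1762500, nat_lit 1100001, nat_lit 2024750, [nat_lit 780000, nat_lit 1435000, nat_lit 1271250], [nat_lit 8, nat_lit 40, nat_lit 40, nat_lit 80, nat_lit 1, nat_lit 373, nat_lit 150, nat_lit 10]⟩, ⟨p069_k4, nat_lit 0, nat_lit 0, nat_lit 182, nat_lit 0, nat_lit 0, [nat_lit 3282000000, nat_lit 6250000000, nat_lit 9842000000], [], [nat_lit 32950599586, nat_lit 36221354672, nat_lit 35483081194, nat_lit 38292888480, nat_lit 24948169144, nat_lit 26868826912, nat_lit 26075169525, nat_lit 28547226762], nat_lit 0, nat_lit 0, nat_lit 0, nat_lit 0, nat_lit 0, nat_lit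 0, [], [nat_lit 8, nat_lit 40, nat_lit 40, nat_lit 80, nat_lit 1, nat_lit 373, nat_lit 150, nat_lit 11]⟩,
 zbF0, [⟨nat_lit 0, nat_lit 83, nat_lit 83, nat_lit 100, nat_lit 442324731⟩, ⟨nat_lit 4, nat_lit 100, nat_lit 83, nat_lit 73, nat_lit 579421881⟩, ⟨nat_lit 7, nat_lit 100, nat_lit 85, nat_lit 73, nat_lit 14081754⟩]⟩
noncomputable def p069_l51 : Lf2 := ⟨nat_lit 0, nat_lit 20, [nat_lit 5, nat_lit 5, nat_lit 5, nat_lit 20], false, nat_lit 0, nat_lit 300, nat_lit 0, nat_lit 300, ⟨nat_lit 1000, nat_lit 0, nat_lit 0, nat_lit 0, nat_lit 0, nat_lit 0, nat_lit 0, nat_lit 0, nat_lit 0, nat_lit 0, nat_lit 0, nat_lit 0, nat_lit 0, nat_lit 0, nat_lit 0, nat_lit 0, false, false⟩,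
 nat_lit 0, nat_lit 12121, nat_lit 0, nat_lit 0, nat_lit 7713, nat_lit 7834, nat_lit 782, nat_lit 0, nat_lit 0, nat_lit 655, nat_lit 0, nat_lit 0, nat_lit 0, nat_lit 0, nat_lit 0, nat_lit 0, nat_lit 0, nat_lit 0, [],
 ⟨p069_k2, nat_lit 0, nat_lit 0, nat_lit 336, nat_lit 0, nat_lit 154505, [nat_lit 3282000000, nat_lit 6250000000, nat_lit 11872000000], [], [nat_lit 32215040032, nat_lit 32967958604, nat_lit 40200871208, nat_lit 41526945618, nat_lit 27598888368, nat_lit 28021657235, nat_lit 34610850907, nat_lit 35420746671], nat_lit 1271250, nat_lit 1271250, nat_lit 1271250, nat_lit 1271250, nat_lit 0, nat_lit 2118750, [nat_lit 780000, nat_lit 1435000, nat_lit 1271250], [nat_lit 23, nat_lit 40, nat_lit 40, nat_lit 80, nat_lit 12, nat_lit 483, nat_lit 250, nat_lit 12]⟩, ⟨p069_k2, nat_lit 0, nat_lit 0, nat_lit 240, nat_lit 0, nat_lit 0, [nat_lit 3282000000, nat_lit 6250000000, nat_lit 11872000000], [], [nat_lit 31154467177,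 nat_lit 32222233197, nat_lit 41100938225, nat_lit 41859158729, nat_lit 28395486613, nat_lit 29013088846, nat_lit 34743314326, nat_lit 35557776569], nat_lit 0, nat_lit 0, nat_lit 0, nat_lit 0, nat_lit 0, nat_lit 0, [], [nat_lit 23, nat_lit 40, nat_lit 40, nat_lit 80, nat_lit 12, nat_lit 483, nat_lit 250, nat_lit 12]⟩,
 zbF0, [⟨nat_lit 4, nat_lit 100, nat_lit 94, nat_lit 75, nat_lit 111843333⟩, ⟨nat_lit 7, nat_lit 100, nat_lit 94, nat_lit 75, nat_lit 107333629⟩]⟩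
noncomputable def p069_l52 : Lf2 := ⟨nat_lit 0, nat_lit 20, [nat_lit 5, nat_lit 5, nat_lit 5, nat_lit 20], false, nat_lit 0, nat_lit 280, nat_lit 0, nat_lit 160, ⟨nat_lit 1000, nat_lit 0, nat_lit 0, nat_lit 0, nat_lit 0, nat_lit 0, nat_lit 0, nat_lit 0, nat_lit 0, nat_lit 0, nat_lit 0, nat_lit 0, nat_lit 0, nat_lit 0, nat_lit 0, nat_lit 0, false, false⟩,
 nat_lit 0, nat_lit 8178, nat_lit 0, nat_lit 0, nat_lit 5661, nat_lit 7706, nat_lit 775, nat_lit 0, nat_lit 0, nat_lit 617, nat_lit 0, nat_lit 0, nat_lit 0, nat_lit 0, nat_lit 0, nat_lit 0, nat_lit 0, nat_lit 0, [],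
 ⟨p069_k4, nat_lit 0, nat_lit 0, nat_lit 431, nat_lit 0, nat_lit 501102, [nat_lit 3282000000, nat_lit 6250000000, nat_lit 9842000000], [], [nat_lit 31639275519, nat_lit 32243495593, nat_lit 36588363466, nat_lit 37114362643, nat_lit 30157481789, nat_lit 30627084485, nat_lit 34211760303, nat_lit 34560142505], nat_lit 1271250, nat_lit 1271250, nat_lit 1271250, nat_lit 1271250, nat_lit 0, nat_lit 1977500, [nat_lit 780000, nat_lit 1435000, nat_lit 1271250], [nat_lit 8, nat_lit 40, nat_lit 40, nat_lit 80, nat_lit 1, nat_lit 401, nat_lit 175, nat_lit 11]⟩, ⟨p069_k2, nat_lit 0, nat_lit 0, nat_lit 242, nat_lit 0, nat_lit 0, [nat_lit 3282000000, nat_lit 6250000000, nat_lit 11872000000], [], [nat_lit 31623252943, nat_lit 33741497303, nat_lit 41321202775, nat_lit 42833435736, nat_lit 26278736431, nat_lit 28042465831, nat_lit 33623381319, nat_lit 34918016223], nat_lit 0, nat_lit 0, nat_lit 0, nat_lit 0, nat_lit 0, nat_lit 0,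 [], [nat_lit 23, nat_lit 40, nat_lit 40, nat_lit 80, nat_lit 12, nat_lit 456, nat_lit 225, nat_lit 11]⟩,
 zbF0, [⟨nat_lit 16, nat_lit 85, nat_lit 100, nat_lit 73, nat_lit 213827905⟩, ⟨nat_lit 9, nat_lit 100, nat_lit 84, nat_lit 35, nat_lit 37631380⟩]⟩
noncomputable def p069_l53 : Lf2 := ⟨nat_lit 0, nat_lit 20, [nat_lit 5, nat_lit 5, nat_lit 5, nat_lit 20], false, nat_lit 0, nat_lit 280, nat_lit 160, nat_lit 300, ⟨nat_lit 1000, nat_lit 0, nat_lit 0, nat_lit 0, nat_lit 0, nat_lit 0, nat_lit 0, nat_lit 0, nat_lit 0, nat_lit 0, nat_lit 0, nat_lit 0, nat_lit 0, nat_lit 0, nat_lit 0, nat_lit 0, false, false⟩,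
 nat_lit 0, nat_lit 8349, nat_lit 0, nat_lit 0, nat_lit 5779, nat_lit 6882, nat_lit 729, nat_lit 0, nat_lit 0, nat_lit 0, nat_lit 0, nat_lit 0, nat_lit 0, nat_lit 0, nat_lit 0, nat_lit 0, nat_lit 0, nat_lit 0, [],
 ⟨p069_k4, nat_lit 0, nat_lit 0, nat_lit 431, nat_lit 0, nat_lit 501102, [nat_lit 3282000000, nat_lit 6250000000, nat_lit 9842000000], [], [nat_lit 32130930241, nat_lit 32738411127, nat_lit 36983629839, nat_lit 37442273388, nat_lit 30329556387, nat_lit 30719849010, nat_lit 34048676817, nat_lit 34398729283], nat_lit 1271250, nat_lit 1271250, nat_lit 1271250, nat_lit 1271250, nat_lit 0, nat_lit 1977500, [nat_lit 780000, nat_lit 1435000, nat_lit 1271250], [nat_lit 8, nat_lit 40, nat_lit 40, nat_lit 80, nat_lit 1, nat_lit 401, nat_lit 175, nat_lit 11]⟩, ⟨p069_k2, nat_lit 0, nat_lit 0, nat_lit 90, nat_lit 0, nat_lit 0, [nat_lit 3282000000, nat_lit 6250000000, nat_lit 11872000000], [], [nat_lit 19574929760,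 nat_lit 22566246792, nat_lit 30795560448, nat_lit 32550953456, nat_lit 25291102388, nat_lit 27426686078, nat_lit 33701122798, nat_lit 35258191276], nat_lit 0, nat_lit 0, nat_lit 0, nat_lit 0, nat_lit 0, nat_lit 0, [], [nat_lit 23, nat_lit 40, nat_lit 40, nat_lit 80, nat_lit 12, nat_lit 538, nat_lit 300, nat_lit 13]⟩,
 zbF0, [⟨nat_lit 16, nat_lit 85, nat_lit 100, nat_lit 73, nat_lit 195553137⟩, ⟨nat_lit 7, nat_lit 100, nat_lit 90, nat_lit 74, nat_lit 574394773⟩]⟩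
noncomputable def p069_l54 : Lf2 := ⟨nat_lit 0, nat_lit 20, [nat_lit 5, nat_lit 5, nat_lit 5, nat_lit 20], false, nat_lit 0, nat_lit 160, nat_lit 0, nat_lit 300, ⟨nat_lit 0, nat_lit 1000, nat_lit 0, nat_lit 7, nat_lit 180, nat_lit 1000, nat_lit 56, nat_lit 0, nat_lit 0, nat_lit 0, nat_lit 0, nat_lit 0, nat_lit 0, nat_lit 0, nat_lit 0, nat_lit 5000000, false, false⟩,
 nat_lit 7804, nat_lit 0, nat_lit 0, nat_lit 0, nat_lit 4966, nat_lit 0, nat_lit 0, nat_lit 0, nat_lit 0, nat_lit 0, nat_lit 0, nat_lit 0, nat_lit 0, nat_lit 33072255038427, nat_lit 48, nat_lit 872800, nat_lit 0, nat_lit 0, [(nat_lit 13, [(nat_lit 1, nat_lit 212), (nat_lit 2, nat_lit 788)]), (nat_lit 16, [(nat_lit 1, nat_lit 212), (nat_lit 2, nat_lit 788)])],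
 ⟨p069_k2, nat_lit 0, nat_lit 0, nat_lit 488, nat_lit 0, nat_lit 323303, [nat_lit 2854355734, nat_lit 3133552801, nat_lit 118976000], [], [nat_lit 25942819636, nat_lit 23808200127, nat_lit 21345841640, nat_lit 22876087744, nat_lit 19631565919, nat_lit 21053559210, nat_lit 24138694904, nat_lit 21119279865], nat_lit 1271250, nat_lit 1271250, nat_lit 382400, nat_lit 1100001, nat_lit 0, nat_lit 1100001, [nat_lit 780000, nat_lit 1435000, nat_lit 1271250], [nat_lit 23, nat_lit 40, nat_lit 40, nat_lit 80, nat_lit 12, nat_lit 401, nat_lit 175, nat_lit 10]⟩, ⟨p069_k2, nat_lit 0, nat_lit 0, nat_lit 488, nat_lit 0, nat_lit 323303, [nat_lit 0, nat_lit 0, nat_lit 0], [], [nat_lit 0, nat_lit 0, nat_lit 0, nat_lit 0, nat_lit 0, nat_lit 0, nat_lit 0, nat_lit 0], nat_lit 1271250, nat_lit 1271250, nat_lit 382400, nat_lit 1100001, nat_lit 0, nat_lit 2118750, [nat_lit 780000, nat_lit 1435000, nat_lit 1271250], [nat_lit 23, nat_lit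 40, nat_lit 40, nat_lit 80, nat_lit 12, nat_lit 428, nat_lit 200, nat_lit 11]⟩,
 ⟨nat_lit 4472, nat_lit 5478, ⟨.ofNat (nat_lit 330579), .ofNat (nat_lit 510352), .ofNat (nat_lit 373223), .ofNat (nat_lit 552978), .ofNat (nat_lit 355064), .ofNat (nat_lit 518145), .ofNat (nat_lit 398126), .ofNat (nat_lit 561189)⟩, ⟨.negSucc (nat_lit 45522), .ofNat (nat_lit 254209), .negSucc (nat_lit 2834), .ofNat (nat_lit 296923), .negSucc (nat_lit 12423), .ofNat (nat_lit 259489), .ofNat (nat_lit 0), .ofNat (nat_lit 302621)⟩⟩, [⟨nat_lit 0, nat_lit 83, nat_lit 83, nat_lit 100, nat_lit 46035650⟩]⟩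
noncomputable def p069_l55 : Lf2 := ⟨nat_lit 0, nat_lit 20, [nat_lit 5, nat_lit 5, nat_lit 5, nat_lit 20], false, nat_lit 0, nat_lit 160, nat_lit 0, nat_lit 300, ⟨nat_lit 315, nat_lit 685, nat_lit 0, nat_lit 7, nat_lit 243, nat_lit 685, nat_lit 56, nat_lit 0, nat_lit 0, nat_lit 0, nat_lit 0, nat_lit 0, nat_lit 0, nat_lit 0, nat_lit 0, nat_lit 5000000, false, false⟩,
 nat_lit 8166, nat_lit 0, nat_lit 0, nat_lit 0, nat_lit 5196, nat_lit 3818, nat_lit 270, nat_lit 0, nat_lit 0, nat_lit 206, nat_lit 0, nat_lit 0, nat_lit 0, nat_lit 16114110947102, nat_lit 0, nat_lit 685000, nat_lit 0, nat_lit 0, [(nat_lit 13, [(nat_lit 2, nat_lit 685)]), (nat_lit 16, [(nat_lit 2, nat_lit 685)])],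
 ⟨p069_k2, nat_lit 0, nat_lit 0, nat_lit 390, nat_lit 0, nat_lit 323303, [nat_lit 2633442001, nat_lit 3328475001, nat_lit 2064992000], [], [nat_lit 28385156346, nat_lit 24557954564, nat_lit 24268748539, nat_lit 26047992299, nat_lit 20300574396, nat_lit 21878085836, nat_lit 26432854827, nat_lit 23439276051], nat_lit 1271250, nat_lit 1271250, nat_lit 1100001, nat_lit 1785000, nat_lit 0, nat_lit 1100001, [nat_lit 780000, nat_lit 1435000, nat_lit 1271250], [nat_lit 23, nat_lit 40, nat_lit 40, nat_lit 80, nat_lit 12, nat_lit 428, nat_lit 200, nat_lit 11]⟩, ⟨p069_k2, nat_lit 0, nat_lit 0, nat_lit 390, nat_lit 0, nat_lit 323303, [nat_lit 1033830000, nat_lit 1968750000, nat_lit 3739680000], [], [nat_lit 11083161532, nat_lit 10819679274, nat_lit 10210583674, nat_lit 11343124674, nat_lit 7774117697, nat_lit 8540206550, nat_lit 10734643678, nat_lit 9066701780], nat_lit 1271250, nat_lit 1271250, nat_lit 1100001, nat_lit 1785000,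 nat_lit 0, nat_lit 2118750, [nat_lit 780000, nat_lit 1435000, nat_lit 1271250], [nat_lit 23, nat_lit 40, nat_lit 40, nat_lit 80, nat_lit 12, nat_lit 456, nat_lit 225, nat_lit 12]⟩,
 ⟨nat_lit 4472, nat_lit 5478, ⟨.ofNat (nat_lit 510352), .ofNat (nat_lit 660148), .ofNat (nat_lit 552978), .ofNat (nat_lit 702774), .ofNat (nat_lit 518145), .ofNat (nat_lit 654031), .ofNat (nat_lit 561189), .ofNat (nat_lit 697075)⟩, ⟨.negSucc (nat_lit 45522), .ofNat (nat_lit 254209), .negSucc (nat_lit 2834), .ofNat (nat_lit 296923), .negSucc (nat_lit 12423), .ofNat (nat_lit 259489), .ofNat (nat_lit 0), .ofNat (nat_lit 302621)⟩⟩, [⟨nat_lit 7, nat_lit 100, nat_lit 90, nat_lit 74, nat_lit 28420213⟩]⟩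
noncomputable def p069_l56 : Lf2 := ⟨nat_lit 0, nat_lit 20, [nat_lit 5, nat_lit 5, nat_lit 5, nat_lit 20], true, nat_lit 160, nat_lit 300, nat_lit 0, nat_lit 300, ⟨nat_lit 0, nat_lit 1000, nat_lit 0, nat_lit 7, nat_lit 203, nat_lit 1000, nat_lit 162, nat_lit 0, nat_lit 0, nat_lit 0, nat_lit 0, nat_lit 0, nat_lit 0, nat_lit 0, nat_lit 0, nat_lit 5000000, false, false⟩,
 nat_lit 0, nat_lit 7240, nat_lit 0, nat_lit 2007, nat_lit 4607, nat_lit 0, nat_lit 0, nat_lit 0, nat_lit 0, nat_lit 0, nat_lit 0, nat_lit 0, nat_lit 0, nat_lit 36096891292894, nat_lit 0, nat_lit 250000, nat_lit 0, nat_lit 0, [(nat_lit 13, [(nat_lit 0, nat_lit 1000)])],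
 ⟨p069_k2, nat_lit 0, nat_lit 0, nat_lit 208, nat_lit 0, nat_lit 154505, [nat_lit 2378400000, nat_lit 3128000000, nat_lit 3715520000], [], [nat_lit 28854067721, nat_lit 26440174787, nat_lit 25094564740, nat_lit 25917511390, nat_lit 27789398490, nat_lit 28671867050, nat_lit 30427967531, nat_lit 29284796178], nat_lit 1271250, nat_lit 1271250, nat_lit 382400, nat_lit 1731000, nat_lit 1100001, nat_lit 2298750, [nat_lit 780000, nat_lit 1435000, nat_lit 1271250], [nat_lit 23, nat_lit 40, nat_lit 40, nat_lit 80, nat_lit 12, nat_lit 456, nat_lit 225, nat_lit 11]⟩, C1.Rw.none,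
 ⟨nat_lit 5000, nat_lit 5478, ⟨.ofNat (nat_lit 330654), .ofNat (nat_lit 660309), .ofNat (nat_lit 352005), .ofNat (nat_lit 681655), .ofNat (nat_lit 342856), .ofNat (nat_lit 657090), .ofNat (nat_lit 364277), .ofNat (nat_lit 678509)⟩, ⟨.ofNat (nat_lit 254209), .ofNat (nat_lit 516475), .ofNat (nat_lit 296923), .ofNat (nat_lit 559189), .ofNat (nat_lit 257141), .ofNat (nat_lit 507141), .ofNat (nat_lit 299999), .ofNat (nat_lit 549998)⟩⟩, [⟨nat_lit 4, nat_lit 100, nat_lit 94, nat_lit 75, nat_lit 293185721⟩]⟩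
noncomputable def p069_l57 : Lf2 := ⟨nat_lit 0, nat_lit 20, [nat_lit 5, nat_lit 5, nat_lit 5, nat_lit 20], false, nat_lit 160, nat_lit 280, nat_lit 0, nat_lit 300, ⟨nat_lit 82, nat_lit 918, nat_lit 0, nat_lit 7, nat_lit 215, nat_lit 918, nat_lit 154, nat_lit 0, nat_lit 0, nat_lit 0, nat_lit 0, nat_lit 0, nat_lit 0, nat_lit 0, nat_lit 0, nat_lit 5000000, false, false⟩,
 nat_lit 1769, nat_lit 4697, nat_lit 0, nat_lit 0, nat_lit 4476, nat_lit 1125, nat_lit 0, nat_lit 0, nat_lit 0, nat_lit 16, nat_lit 0, nat_lit 0, nat_lit 0, nat_lit 14690476480529, nat_lit 0, nat_lit 229500, nat_lit 0, nat_lit 0, [(nat_lit 16, [(nat_lit 0, nat_lit 918)])],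
 ⟨p069_k4, nat_lit 0, nat_lit 0, nat_lit 215, nat_lit 0, nat_lit 290043, [nat_lit 2412837600, nat_lit 3033083200, nat_lit 3916421600], [], [nat_lit 24582130136, nat_lit 23286982064, nat_lit 24648002792, nat_lit 25549221520, nat_lit 25947879984, nat_lit 26861263416, nat_lit 27526828592, nat_lit 28240258232], nat_lit 1271250, nat_lit 1271250, nat_lit 490000, nat_lit 1740000, nat_lit 1100001, nat_lit 2127500, [nat_lit 780000, nat_lit 1435000, nat_lit 1271250], [nat_lit 8, nat_lit 40, nat_lit 40, nat_lit 80, nat_lit 1, nat_lit 373, nat_lit 150, nat_lit 10]⟩, ⟨p069_k2, nat_lit 0, nat_lit 0, nat_lit 420, nat_lit 0, nat_lit 323303, [nat_lit 269124000, nat_lit 512500000, nat_lit 973504000], [], [nat_lit 5344055484, nat_lit 4135944984, nat_lit 3234893260, nat_lit 3392301588, nat_lit 2648306830, nat_lit 2834600914, nat_lit 2844667984, nat_lit 2505440113], nat_lit 1271250, nat_lit 1271250, nat_lit 490000, nat_lit 1740000,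 nat_lit 0, nat_lit 2118750, [nat_lit 780000, nat_lit 1435000, nat_lit 1271250], [nat_lit 23, nat_lit 40, nat_lit 40, nat_lit 80, nat_lit 12, nat_lit 456, nat_lit 225, nat_lit 12]⟩,
 ⟨nat_lit 4472, nat_lit 5000, ⟨.ofNat (nat_lit 371392), .ofNat (nat_lit 657088), .ofNat (nat_lit 414225), .ofNat (nat_lit 699920), .ofNat (nat_lit 382295), .ofNat (nat_lit 654189), .ofNat (nat_lit 425403), .ofNat (nat_lit 697297)⟩, ⟨.ofNat (nat_lit 257141), .ofNat (nat_lit 471427), .ofNat (nat_lit 299999), .ofNat (nat_lit 514284), .ofNat (nat_lit 259489), .ofNat (nat_lit 463423), .ofNat (nat_lit 302621), .ofNat (nat_lit 506556)⟩⟩, [⟨nat_lit 4, nat_lit 100, nat_lit 85, nat_lit 73, nat_lit 343158696⟩]⟩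
noncomputable def p069_l58 : Lf2 := ⟨nat_lit 0, nat_lit 20, [nat_lit 5, nat_lit 5, nat_lit 5, nat_lit 20], false, nat_lit 0, nat_lit 160, nat_lit 0, nat_lit 300, ⟨nat_lit 1000, nat_lit 0, nat_lit 0, nat_lit 0, nat_lit 0, nat_lit 0, nat_lit 0, nat_lit 0, nat_lit 0, nat_lit 0, nat_lit 0, nat_lit 0, nat_lit 0, nat_lit 0, nat_lit 0, nat_lit 0, false, false⟩,
 nat_lit 11458, nat_lit 0, nat_lit 0, nat_lit 0, nat_lit 7291, nat_lit 7291, nat_lit 852, nat_lit 0, nat_lit 0, nat_lit 707, nat_lit 0, nat_lit 0, nat_lit 0, nat_lit 0, nat_lit 0, nat_lit 0, nat_lit 0, nat_lit 0, [],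
 ⟨p069_k2, nat_lit 0, nat_lit 0, nat_lit 387, nat_lit 0, nat_lit 323303, [nat_lit 3282000000, nat_lit 6250000000, nat_lit 11872000000], [], [nat_lit 31812048972, nat_lit 32951045880, nat_lit 39096659256, nat_lit 41672366996, nat_lit 26850184480, nat_lit 28162806168, nat_lit 32684281748, nat_lit 33752328136], nat_lit 1271250, nat_lit 1271250, nat_lit 1271250, nat_lit 1271250, nat_lit 0, nat_lit 1100001, [nat_lit 780000, nat_lit 1435000, nat_lit 1271250], [nat_lit 23, nat_lit 40, nat_lit 40, nat_lit 80, nat_lit 12, nat_lit 456, nat_lit 225, nat_lit 11]⟩, ⟨p069_k2, nat_lit 0, nat_lit 0, nat_lit 387, nat_lit 0, nat_lit 323303, [nat_lit 3282000000, nat_lit 6250000000, nat_lit 11872000000], [], [nat_lit 34593330222, nat_lit 35727577406, nat_lit 39990590525, nat_lit 41672366996, nat_lit 30430134838, nat_lit 31047304545, nat_lit 34174235271, nat_lit 35736810438], nat_lit 1271250, nat_lit 1271250, nat_lit 1271250, nat_lit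 1271250, nat_lit 0, nat_lit 2118750, [nat_lit 780000, nat_lit 1435000, nat_lit 1271250], [nat_lit 23, nat_lit 40, nat_lit 40, nat_lit 80, nat_lit 12, nat_lit 538, nat_lit 300, nat_lit 13]⟩,
 zbF0, [⟨nat_lit 19, nat_lit 90, nat_lit 100, nat_lit 74, nat_lit 120801595⟩, ⟨nat_lit 22, nat_lit 83, nat_lit 100, nat_lit 39, nat_lit 3796465⟩]⟩
noncomputable def p069_l59 : Lf2 := ⟨nat_lit 0, nat_lit 20, [nat_lit 5, nat_lit 5, nat_lit 5, nat_lit 20], false, nat_lit 160, nat_lit 300, nat_lit 0, nat_lit 300, ⟨nat_lit 1000, nat_lit 0, nat_lit 0, nat_lit 0, nat_lit 0, nat_lit 0, nat_lit 0, nat_lit 0, nat_lit 0, nat_lit 0, nat_lit 0, nat_lit 0, nat_lit 0, nat_lit 0, nat_lit 0, nat_lit 0, false, false⟩,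
 nat_lit 12105, nat_lit 0, nat_lit 0, nat_lit 0, nat_lit 7703, nat_lit 7703, nat_lit 713, nat_lit 0, nat_lit 0, nat_lit 716, nat_lit 0, nat_lit 0, nat_lit 0, nat_lit 0, nat_lit 0, nat_lit 0, nat_lit 0, nat_lit 0, [],
 ⟨p069_k2, nat_lit 0, nat_lit 0, nat_lit 248, nat_lit 0, nat_lit 323303, [nat_lit 3282000000, nat_lit 6250000000, nat_lit 11872000000], [], [nat_lit 25363597003, nat_lit 27127026703, nat_lit 32703245247, nat_lit 33997746099, nat_lit 28087346721, nat_lit 29348493876, nat_lit 34599903517, nat_lit 36218940254], nat_lit 1271250, nat_lit 1271250, nat_lit 1271250, nat_lit 1271250, nat_lit 1100001, nat_lit 2298750, [nat_lit 780000, nat_lit 1435000, nat_lit 1271250], [nat_lit 23, nat_lit 40, nat_lit 40, nat_lit 80, nat_lit 12, nat_lit 538, nat_lit 300, nat_lit 13]⟩, ⟨p069_k2, nat_lit 0, nat_lit 0, nat_lit 387, nat_lit 0, nat_lit 323303, [nat_lit 3282000000, nat_lit 6250000000, nat_lit 11872000000], [], [nat_lit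 33647495276, nat_lit 34992847156, nat_lit 40368351700, nat_lit 42825042468, nat_lit 28972421204, nat_lit 29727588426, nat_lit 34599903517, nat_lit 36218940254], nat_lit 1271250, nat_lit 1271250, nat_lit 1271250, nat_lit 1271250, nat_lit 0, nat_lit 2118750, [nat_lit 780000, nat_lit 1435000, nat_lit 1271250], [nat_lit 23, nat_lit 40, nat_lit 40, nat_lit 80, nat_lit 12, nat_lit 538, nat_lit 300, nat_lit 13]⟩,
 zbF0, [⟨nat_lit 4, nat_lit 100, nat_lit 90, nat_lit 74, nat_lit 448916060⟩, ⟨nat_lit 19, nat_lit 90, nat_lit 100, nat_lit 74, nat_lit 105875695⟩]⟩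
noncomputable def b_V_700_700_10_44 : St := ⟨true, nat_lit 1, nat_lit 2, nat_lit 2, nat_lit 80, nat_lit 280, nat_lit 320, nat_lit 280, nat_lit 320, nat_lit 64, nat_lit 400, nat_lit 40, nat_lit 80, nat_lit 0, nat_lit 300, nat_lit 0, nat_lit 300, nat_lit 80, nat_lit 116, nat_lit 0, nat_lit 0, nat_lit 0, nat_lit 0⟩
theorem d_V_700_700_10_44 (h : EB TB.env) : Dead b_V_700_700_10_44 := chkB_sound0 h (T :=
(.st (nat_lit 1)
(.spl (nat_lit 2) (nat_lit 120)
(.spl (nat_lit 0) (nat_lit 300)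
(.ord (.spl (nat_lit 6) (nat_lit 92)
(.spl (nat_lit 0) (nat_lit 290)
(.ord (.leaf p069_l37))
(.trZ (nat_lit 0) (nat_lit 100) (nat_lit 97) (nat_lit 84) (nat_lit 72) (.trX (nat_lit 16) (nat_lit 100) (nat_lit 100) (nat_lit 89) (nat_lit 292) (.leaf p069_l38))))
(.leaf p069_l39)))
(.trZ (nat_lit 0) (nat_lit 100) (nat_lit 94) (nat_lit 88) (nat_lit 80) (.trX (nat_lit 16) (nat_lit 94) (nat_lit 100) (nat_lit 87) (nat_lit 280) (.spl (nat_lit 3) (nat_lit 60)
(.trX (nat_lit 16) (nat_lit 90) (nat_lit 100) (nat_lit 74) (nat_lit 256) (.trX (nat_lit 19) (nat_lit 99) (nat_lit 100) (nat_lit 77) (nat_lit 276) (.leaf p069_l40)))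
(.leaf p069_l41)))))
(.spl (nat_lit 2) (nat_lit 240)
(.spl (nat_lit 1) (nat_lit 300)
(.spl (nat_lit 6) (nat_lit 104)
(.spl (nat_lit 4) (nat_lit 160)
(.spl (nat_lit 0) (nat_lit 300)
(.leaf p069_l42)
(.leaf p069_l43))
(.spl (nat_lit 0) (nat_lit 300)
(.leaf p069_l44)
(.trX (nat_lit 16) (nat_lit 94) (nat_lit 100) (nat_lit 87) (nat_lit 280) (.leaf p069_l45))))
(.leaf p069_l46))
(.ord (.trX (nat_lit 16) (nat_lit 94) (nat_lit 100) (nat_lit 87) (nat_lit 280) (.trX (nat_lit 19) (nat_lit 94) (nat_lit 100) (nat_lit 87) (nat_lit 280) (.spl (nat_lit 4) (nat_lit 160)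
(.spl (nat_lit 0) (nat_lit 310)
(.ord (.leaf p069_l47))
(.leaf p069_l48))
(.spl (nat_lit 0) (nat_lit 310)
(.ord (.leaf p069_l49))
(.trX (nat_lit 16) (nat_lit 89) (nat_lit 100) (nat_lit 85) (nat_lit 268) (.leaf p069_l50))))))))
(.spl (nat_lit 0) (nat_lit 300)
(.ord (.leaf p069_l51))
(.trX (nat_lit 16) (nat_lit 94) (nat_lit 100) (nat_lit 87) (nat_lit 280) (.spl (nat_lit 5) (nat_lit 160)
(.leaf p069_l52)
(.leaf p069_l53))))))
(.spl (nat_lit 2) (nat_lit 240)
(.spl (nat_lit 4) (nat_lit 160)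
(.spl (nat_lit 2) (nat_lit 160)
(.leaf p069_l54)
(.leaf p069_l55))
(.spl (nat_lit 0) (nat_lit 300)
(.ord (.leaf p069_l56))
(.trZ (nat_lit 0) (nat_lit 100) (nat_lit 94) (nat_lit 88) (nat_lit 80) (.trX (nat_lit 16) (nat_lit 94) (nat_lit 100) (nat_lit 87) (nat_lit 280) (.leaf p069_l57)))))
(.spl (nat_lit 4) (nat_lit 160)
(.leaf p069_l58)
(.leaf p069_l59))))) (by decide +kernel)
noncomputable def p069_l60 : Lf2 := ⟨nat_lit 0, nat_lit 10, [nat_lit 0, nat_lit 5, nat_lit 5, nat_lit 20], false, nat_lit 0, nat_lit 160, nat_lit 0, nat_lit 336, ⟨nat_lit 1000, nat_lit 0, nat_lit 0, nat_lit 0, nat_lit 0, nat_lit 0, nat_lit 0, nat_lit 0, nat_lit 0, nat_lit 0, nat_lit 0, nat_lit 0, nat_lit 0, nat_lit 0, nat_lit 0, nat_lit 0, false, false⟩,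
 nat_lit 0, nat_lit 0, nat_lit 0, nat_lit 19513, nat_lit 6947, nat_lit 8252, nat_lit 1306, nat_lit 0, nat_lit 0, nat_lit 1030, nat_lit 0, nat_lit 0, nat_lit 0, nat_lit 0, nat_lit 0, nat_lit 0, nat_lit 0, nat_lit 0, [],
 ⟨p069_k7, nat_lit 0, nat_lit 0, nat_lit 211, nat_lit 0, nat_lit 0, [nat_lit 3282000000, nat_lit 6250000000, nat_lit 9842000000], [], [nat_lit 21283355596, nat_lit 25258489022, nat_lit 20070106750, nat_lit 23793290034, nat_lit 16595906205, nat_lit 20141525748, nat_lit 15721846158, nat_lit 19337000204], nat_lit 0, nat_lit 0, nat_lit 0, nat_lit 0, nat_lit 0, nat_lit 0, [], [nat_lit 8, nat_lit 40, nat_lit 40, nat_lit 80, nat_lit 1, nat_lit 289, nat_lit 75, nat_lit 9]⟩, ⟨p069_k7, nat_lit 0, nat_lit 0, nat_lit 211, nat_lit 0, nat_lit 0, [nat_lit 3282000000, nat_lit 6250000000, nat_lit 9842000000], [], [nat_lit 23693830360, nat_lit 28141466702, nat_lit 22029436750, nat_lit 26187670494, nat_lit 26922095571,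 nat_lit 30554981138, nat_lit 25025107989, nat_lit 28248483889], nat_lit 0, nat_lit 0, nat_lit 0, nat_lit 0, nat_lit 0, nat_lit 0, [], [nat_lit 8, nat_lit 40, nat_lit 40, nat_lit 80, nat_lit 1, nat_lit 345, nat_lit 125, nat_lit 10]⟩,
 zbF0, [⟨nat_lit 0, nat_lit 100, nat_lit 100, nat_lit 100, nat_lit 858027320⟩, ⟨nat_lit 7, nat_lit 100, nat_lit 100, nat_lit 100, nat_lit 233970331⟩]⟩
noncomputable def p069_l61 : Lf2 := ⟨nat_lit 0, nat_lit 10, [nat_lit 0, nat_lit 5, nat_lit 5, nat_lit 20], false, nat_lit 160, nat_lit 336, nat_lit 0, nat_lit 160, ⟨nat_lit 1000, nat_lit 0, nat_lit 0, nat_lit 0, nat_lit 0, nat_lit 0, nat_lit 0, nat_lit 0, nat_lit 0, nat_lit 0, nat_lit 0, nat_lit 0, nat_lit 0, nat_lit 0, nat_lit 0, nat_lit 0, false, false⟩,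
 nat_lit 0, nat_lit 0, nat_lit 0, nat_lit 14948, nat_lit 8078, nat_lit 7855, nat_lit 0, nat_lit 0, nat_lit 0, nat_lit 1613, nat_lit 0, nat_lit 0, nat_lit 0, nat_lit 6079122279549, nat_lit 0, nat_lit 0, nat_lit 0, nat_lit 0, [],
 ⟨p069_k7, nat_lit 0, nat_lit 0, nat_lit 90, nat_lit 0, nat_lit 0, [nat_lit 3282000000, nat_lit 6250000000, nat_lit 9842000000], [], [nat_lit 14851209522, nat_lit 17124979808, nat_lit 14047064920, nat_lit 16159180008, nat_lit 26741019489, nat_lit 28534208926, nat_lit 25122280834, nat_lit 26432293304], nat_lit 0, nat_lit 0, nat_lit 0, nat_lit 0, nat_lit 0, nat_lit 0, [], [nat_lit 8, nat_lit 40, nat_lit 40, nat_lit 80, nat_lit 1, nat_lit 345, nat_lit 125, nat_lit 10]⟩, ⟨p069_k7, nat_lit 0, nat_lit 0, nat_lit 198, nat_lit 0, nat_lit 0, [nat_lit 3282000000, nat_lit 6250000000, nat_lit 9842000000], [], [nat_lit 19770285785, nat_lit 22453340345, nat_lit 18647367020, nat_lit 21149588730, nat_lit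 15083234957, nat_lit 17314219302, nat_lit 14335372700, nat_lit 16408396780], nat_lit 0, nat_lit 0, nat_lit 0, nat_lit 0, nat_lit 0, nat_lit 0, [], [nat_lit 8, nat_lit 40, nat_lit 40, nat_lit 80, nat_lit 1, nat_lit 289, nat_lit 75, nat_lit 9]⟩,
 zbF0, [⟨nat_lit 0, nat_lit 100, nat_lit 100, nat_lit 80, nat_lit 825205620⟩, ⟨nat_lit 16, nat_lit 100, nat_lit 80, nat_lit 100, nat_lit 543041486⟩]⟩
noncomputable def p069_l62 : Lf2 := ⟨nat_lit 0, nat_lit 10, [nat_lit 0, nat_lit 5, nat_lit 5, nat_lit 20], false, nat_lit 160, nat_lit 336, nat_lit 160, nat_lit 336, ⟨nat_lit 1000, nat_lit 0, nat_lit 0, nat_lit 0, nat_lit 0, nat_lit 0, nat_lit 0, nat_lit 0, nat_lit 0, nat_lit 0, nat_lit 0, nat_lit 0, nat_lit 0, nat_lit 0, nat_lit 0, nat_lit 0, false, false⟩,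
 nat_lit 0, nat_lit 0, nat_lit 0, nat_lit 2791, nat_lit 8078, nat_lit 8078, nat_lit 0, nat_lit 0, nat_lit 0, nat_lit 0, nat_lit 0, nat_lit 0, nat_lit 0, nat_lit 0, nat_lit 0, nat_lit 0, nat_lit 0, nat_lit 0, [],
 ⟨p069_k7, nat_lit 0, nat_lit 0, nat_lit 90, nat_lit 0, nat_lit 0, [nat_lit 3282000000, nat_lit 6250000000, nat_lit 9842000000], [], [nat_lit 14851209522, nat_lit 17124979808, nat_lit 14047064920, nat_lit 16159180008, nat_lit 26741019489, nat_lit 28534208926, nat_lit 25122280834, nat_lit 26432293304], nat_lit 0, nat_lit 0, nat_lit 0, nat_lit 0, nat_lit 0, nat_lit 0, [], [nat_lit 8, nat_lit 40, nat_lit 40, nat_lit 80, nat_lit 1, nat_lit 345, nat_lit 125, nat_lit 10]⟩, ⟨p069_k7, nat_lit 0, nat_lit 0, nat_lit 90, nat_lit 0, nat_lit 0, [nat_lit 3282000000, nat_lit 6250000000, nat_lit 9842000000], [], [nat_lit 14851209522, nat_lit 17124979808, nat_lit 14047064920, nat_lit 16159180008, nat_lit 26741019489, nat_lit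 28534208926, nat_lit 25122280834, nat_lit 26432293304], nat_lit 0, nat_lit 0, nat_lit 0, nat_lit 0, nat_lit 0, nat_lit 0, [], [nat_lit 8, nat_lit 40, nat_lit 40, nat_lit 80, nat_lit 1, nat_lit 345, nat_lit 125, nat_lit 10]⟩,
 zbF0, [⟨nat_lit 0, nat_lit 100, nat_lit 100, nat_lit 90, nat_lit 169750448⟩, ⟨nat_lit 11, nat_lit 100, nat_lit 100, nat_lit 96, nat_lit 581075092⟩]⟩
noncomputable def p069_l63 : Lf2 := ⟨nat_lit 0, nat_lit 10, [nat_lit 0, nat_lit 5, nat_lit 5, nat_lit 20], false, nat_lit 160, nat_lit 320, nat_lit 0, nat_lit 336, ⟨nat_lit 1000, nat_lit 0, nat_lit 0, nat_lit 0, nat_lit 0, nat_lit 0, nat_lit 0, nat_lit 0, nat_lit 0, nat_lit 0, nat_lit 0, nat_lit 0, nat_lit 0, nat_lit 0, nat_lit 0, nat_lit 0, false, false⟩,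
 nat_lit 0, nat_lit 0, nat_lit 0, nat_lit 10670, nat_lit 4870, nat_lit 8239, nat_lit 0, nat_lit 0, nat_lit 0, nat_lit 1058, nat_lit 0, nat_lit 0, nat_lit 0, nat_lit 0, nat_lit 0, nat_lit 0, nat_lit 0, nat_lit 0, [],
 ⟨p069_k8, nat_lit 0, nat_lit 0, nat_lit 79, nat_lit 0, nat_lit 0, [nat_lit 3282000000, nat_lit 6250000000, nat_lit 7968000000], [], [nat_lit 14288944180, nat_lit 16167401440, nat_lit 14526874680, nat_lit 16309262320, nat_lit 22957634760, nat_lit 24363241960, nat_lit 22795600180, nat_lit 24013958280], nat_lit 0, nat_lit 0, nat_lit 0, nat_lit 0, nat_lit 0, nat_lit 0, [], [nat_lit 18, nat_lit 40, nat_lit 40, nat_lit 80, nat_lit 2, nat_lit 345, nat_lit 125, nat_lit 11]⟩, ⟨p069_k7, nat_lit 0, nat_lit 0, nat_lit 200, nat_lit 0, nat_lit 0, [nat_lit 3282000000, nat_lit 6250000000, nat_lit 9842000000], [], [nat_lit 22627768130, nat_lit 27006416582, nat_lit 21848393750, nat_lit 26002293658, nat_lit 25932506849,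 nat_lit 29515558475, nat_lit 25031353057, nat_lit 28236819717], nat_lit 0, nat_lit 0, nat_lit 0, nat_lit 0, nat_lit 0, nat_lit 0, [], [nat_lit 8, nat_lit 40, nat_lit 40, nat_lit 80, nat_lit 1, nat_lit 345, nat_lit 125, nat_lit 10]⟩,
 zbF0, [⟨nat_lit 0, nat_lit 100, nat_lit 94, nat_lit 88, nat_lit 528704247⟩, ⟨nat_lit 16, nat_lit 94, nat_lit 88, nat_lit 100, nat_lit 275058244⟩, ⟨nat_lit 11, nat_lit 100, nat_lit 100, nat_lit 100, nat_lit 224351751⟩]⟩
noncomputable def p069_l64 : Lf2 := ⟨nat_lit 0, nat_lit 10, [nat_lit 0, nat_lit 5, nat_lit 5, nat_lit 20], false, nat_lit 0, nat_lit 160, nat_lit 0, nat_lit 336, ⟨nat_lit 1000, nat_lit 0, nat_lit 0, nat_lit 0, nat_lit 0, nat_lit 0, nat_lit 0, nat_lit 0, nat_lit 0, nat_lit 0, nat_lit 0, nat_lit 0, nat_lit 0, nat_lit 0, nat_lit 0, nat_lit 0, false, false⟩,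
 nat_lit 0, nat_lit 0, nat_lit 0, nat_lit 3642, nat_lit 7427, nat_lit 8378, nat_lit 1083, nat_lit 0, nat_lit 0, nat_lit 898, nat_lit 0, nat_lit 0, nat_lit 0, nat_lit 0, nat_lit 0, nat_lit 0, nat_lit 0, nat_lit 0, [],
 ⟨p069_k7, nat_lit 0, nat_lit 0, nat_lit 219, nat_lit 0, nat_lit 0, [nat_lit 3282000000, nat_lit 6250000000, nat_lit 9842000000], [], [nat_lit 24020556407, nat_lit 27020731927, nat_lit 39452519032, nat_lit 42052861812, nat_lit 19840688255, nat_lit 22332859263, nat_lit 31260455656, nat_lit 33236737688], nat_lit 0, nat_lit 0, nat_lit 0, nat_lit 0, nat_lit 0, nat_lit 0, [], [nat_lit 8, nat_lit 40, nat_lit 40, nat_lit 80, nat_lit 1, nat_lit 373, nat_lit 150, nat_lit 11]⟩, ⟨p069_k7, nat_lit 0, nat_lit 0, nat_lit 219, nat_lit 0, nat_lit 0, [nat_lit 3282000000, nat_lit 6250000000, nat_lit 9842000000], [], [nat_lit 24328693098, nat_lit 27554978378, nat_lit 41940920848, nat_lit 44713527768, nat_lit 25812858371,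 nat_lit 28361536633, nat_lit 37058061826, nat_lit 38506437772], nat_lit 0, nat_lit 0, nat_lit 0, nat_lit 0, nat_lit 0, nat_lit 0, [], [nat_lit 8, nat_lit 40, nat_lit 40, nat_lit 80, nat_lit 1, nat_lit 428, nat_lit 200, nat_lit 12]⟩,
 zbF0, [⟨nat_lit 19, nat_lit 100, nat_lit 80, nat_lit 100, nat_lit 97030120⟩]⟩
noncomputable def p069_l65 : Lf2 := ⟨nat_lit 0, nat_lit 10, [nat_lit 0, nat_lit 5, nat_lit 5, nat_lit 20], false, nat_lit 160, nat_lit 336, nat_lit 0, nat_lit 336, ⟨nat_lit 1000, nat_lit 0, nat_lit 0, nat_lit 0, nat_lit 0, nat_lit 0, nat_lit 0, nat_lit 0, nat_lit 0, nat_lit 0, nat_lit 0, nat_lit 0, nat_lit 0, nat_lit 0, nat_lit 0, nat_lit 0, false, false⟩,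
 nat_lit 0, nat_lit 0, nat_lit 0, nat_lit 2660, nat_lit 4999, nat_lit 13821, nat_lit 0, nat_lit 0, nat_lit 0, nat_lit 0, nat_lit 0, nat_lit 0, nat_lit 0, nat_lit 9118476042835, nat_lit 0, nat_lit 0, nat_lit 0, nat_lit 0, [],
 ⟨p069_k9, nat_lit 0, nat_lit 0, nat_lit 50, nat_lit 0, nat_lit 0, [nat_lit 3282000000, nat_lit 9842000000], [], [nat_lit 12570000608, nat_lit 16189516264, nat_lit 17010569296, nat_lit 19890712240, nat_lit 22747834908, nat_lit 25329749157, nat_lit 25109223787, nat_lit 27193499143], nat_lit 0, nat_lit 0, nat_lit 0, nat_lit 0, nat_lit 0, nat_lit 0, [], [nat_lit 82, nat_lit 40, nat_lit 40, nat_lit 80, nat_lit 63, nat_lit 373, nat_lit 150, nat_lit 10]⟩, ⟨p069_k9, nat_lit 0, nat_lit 0, nat_lit 168, nat_lit 0, nat_lit 0, [nat_lit 3282000000, nat_lit 9842000000], [], [nat_lit 29445214500, nat_lit 35459996912, nat_lit 32756847060, nat_lit 37332118288, nat_lit 29105161664, nat_lit 33245235725, nat_lit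 29677375366, nat_lit 33348234490], nat_lit 0, nat_lit 0, nat_lit 0, nat_lit 0, nat_lit 0, nat_lit 0, [], [nat_lit 82, nat_lit 40, nat_lit 40, nat_lit 80, nat_lit 63, nat_lit 373, nat_lit 150, nat_lit 11]⟩,
 zbF0, [⟨nat_lit 16, nat_lit 100, nat_lit 80, nat_lit 100, nat_lit 331637713⟩, ⟨nat_lit 11, nat_lit 75, nat_lit 75, nat_lit 100, nat_lit 208596483⟩]⟩
noncomputable def p069_l66 : Lf2 := ⟨nat_lit 0, nat_lit 10, [nat_lit 0, nat_lit 5, nat_lit 5, nat_lit 20], false, nat_lit 160, nat_lit 336, nat_lit 0, nat_lit 336, ⟨nat_lit 1000, nat_lit 0, nat_lit 0, nat_lit 0, nat_lit 0, nat_lit 0, nat_lit 0, nat_lit 0, nat_lit 0, nat_lit 0, nat_lit 0, nat_lit 0, nat_lit 0, nat_lit 0, nat_lit 0, nat_lit 0, false, false⟩,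
 nat_lit 0, nat_lit 0, nat_lit 0, nat_lit 2791, nat_lit 9898, nat_lit 9325, nat_lit 0, nat_lit 0, nat_lit 0, nat_lit 0, nat_lit 0, nat_lit 0, nat_lit 0, nat_lit 451616176244, nat_lit 0, nat_lit 0, nat_lit 0, nat_lit 0, [],
 ⟨p069_k9, nat_lit 0, nat_lit 0, nat_lit 92, nat_lit 0, nat_lit 0, [nat_lit 3282000000, nat_lit 9842000000], [], [nat_lit 24086728432, nat_lit 27106578808, nat_lit 35468044432, nat_lit 37098753552, nat_lit 31029570378, nat_lit 32829685864, nat_lit 38860136130, nat_lit 40389247180], nat_lit 0, nat_lit 0, nat_lit 0, nat_lit 0, nat_lit 0, nat_lit 0, [], [nat_lit 82, nat_lit 40, nat_lit 40, nat_lit 80, nat_lit 63, nat_lit 428, nat_lit 200, nat_lit 11]⟩, ⟨p069_k9, nat_lit 0, nat_lit 0, nat_lit 200, nat_lit 0, nat_lit 0, [nat_lit 3282000000, nat_lit 9842000000], [], [nat_lit 32047108500, nat_lit 35545731600, nat_lit 45152961600, nat_lit 47363002700, nat_lit 31427317640, nat_lit 33180781301, nat_lit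 38181202200, nat_lit 39679477580], nat_lit 0, nat_lit 0, nat_lit 0, nat_lit 0, nat_lit 0, nat_lit 0, [], [nat_lit 82, nat_lit 40, nat_lit 40, nat_lit 80, nat_lit 63, nat_lit 428, nat_lit 200, nat_lit 12]⟩,
 zbF0, [⟨nat_lit 16, nat_lit 100, nat_lit 80, nat_lit 100, nat_lit 324792251⟩, ⟨nat_lit 19, nat_lit 100, nat_lit 80, nat_lit 100, nat_lit 75055918⟩]⟩
noncomputable def b_V_700_700_20_0 : St := ⟨true, nat_lit 0, nat_lit 0, nat_lit 1, nat_lit 120, nat_lit 280, nat_lit 320, nat_lit 280, nat_lit 320, nat_lit 64, nat_lit 400, nat_lit 80, nat_lit 120, nat_lit 0, nat_lit 336, nat_lit 0, nat_lit 336, nat_lit 0, nat_lit 40, nat_lit 0, nat_lit 0, nat_lit 0, nat_lit 0⟩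
theorem d_V_700_700_20_0 (h : EB TB.env) : Dead b_V_700_700_20_0 := chkB_sound0 h (T :=
(.spl (nat_lit 2) (nat_lit 120)
(.spl (nat_lit 4) (nat_lit 160)
(.leaf p069_l60)
(.spl (nat_lit 0) (nat_lit 300)
(.ord (.spl (nat_lit 5) (nat_lit 160)
(.leaf p069_l61)
(.leaf p069_l62)))
(.trZ (nat_lit 0) (nat_lit 100) (nat_lit 94) (nat_lit 88) (nat_lit 80) (.trX (nat_lit 16) (nat_lit 94) (nat_lit 88) (nat_lit 100) (nat_lit 320) (.leaf p069_l63)))))
(.spl (nat_lit 4) (nat_lit 160)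
(.leaf p069_l64)
(.spl (nat_lit 2) (nat_lit 240)
(.leaf p069_l65)
(.leaf p069_l66))))) (by decide +kernel)
noncomputable def p069_l67 : Lf2 := ⟨nat_lit 0, nat_lit 10, [nat_lit 0, nat_lit 5, nat_lit 5, nat_lit 20], true, nat_lit 0, nat_lit 160, nat_lit 0, nat_lit 336, ⟨nat_lit 0, nat_lit 0, nat_lit 1000, nat_lit 7, nat_lit 155, nat_lit 511, nat_lit 64, nat_lit 1000, nat_lit 38400, nat_lit 263, nat_lit 224267, nat_lit 331, nat_lit 58272751, nat_lit 0, nat_lit 0, nat_lit 1934377, false, false⟩,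
 nat_lit 0, nat_lit 0, nat_lit 0, nat_lit 8032, nat_lit 3172, nat_lit 0, nat_lit 0, nat_lit 0, nat_lit 0, nat_lit 0, nat_lit 0, nat_lit 0, nat_lit 0, nat_lit 0, nat_lit 195, nat_lit 934000, nat_lit 0, nat_lit 0, [(nat_lit 12, [(nat_lit 5, nat_lit 110), (nat_lit 6, nat_lit 890)])],
 ⟨p069_k7, nat_lit 0, nat_lit 0, nat_lit 188, nat_lit 0, nat_lit 0, [nat_lit 3492156001, nat_lit 2837622667, nat_lit 390028000], [], [nat_lit 12860079226, nat_lit 13188112776, nat_lit 13301837884, nat_lit 13633471102, nat_lit 13430750573, nat_lit 13729992648, nat_lit 13924422108, nat_lit 14226488150], nat_lit 0, nat_lit 0, nat_lit 0, nat_lit 0, nat_lit 0, nat_lit 0, [], [nat_lit 8, nat_lit 40, nat_lit 40, nat_lit 80, nat_lit 1, nat_lit 289, nat_lit 75, nat_lit 9]⟩, C1.Rw.none,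
 ⟨nat_lit 5361, nat_lit 5478, ⟨.ofNat (nat_lit 330654), .ofNat (nat_lit 435560), .ofNat (nat_lit 335994), .ofNat (nat_lit 440899), .ofNat (nat_lit 333709), .ofNat (nat_lit 437377), .ofNat (nat_lit 339051), .ofNat (nat_lit 442720)⟩, ⟨.negSucc (nat_lit 2817), .ofNat (nat_lit 296923), .ofNat (nat_lit 0), .ofNat (nat_lit 339637), .ofNat (nat_lit 0), .ofNat (nat_lit 297732), .ofNat (nat_lit 0), .ofNat (nat_lit 340471)⟩⟩, [⟨nat_lit 0, nat_lit 100, nat_lit 100, nat_lit 85, nat_lit 76357711⟩]⟩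
noncomputable def p069_l68 : Lf2 := ⟨nat_lit 0, nat_lit 10, [nat_lit 0, nat_lit 5, nat_lit 5, nat_lit 20], true, nat_lit 0, nat_lit 160, nat_lit 0, nat_lit 336, ⟨nat_lit 0, nat_lit 0, nat_lit 1000, nat_lit 7, nat_lit 158, nat_lit 389, nat_lit 64, nat_lit 1000, nat_lit 38400, nat_lit 263, nat_lit 236017, nat_lit 334, nat_lit 57926109, nat_lit 0, nat_lit 0, nat_lit 1982909, false, false⟩,
 nat_lit 0, nat_lit 0, nat_lit 0, nat_lit 6595, nat_lit 3342, nat_lit 0, nat_lit 346, nat_lit 0, nat_lit 0, nat_lit 0, nat_lit 0, nat_lit 0, nat_lit 0, nat_lit 17544444350765, nat_lit 95, nat_lit 400000, nat_lit 0, nat_lit 0, [(nat_lit 12, [(nat_lit 5, nat_lit 1000)])],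
 ⟨p069_k10, nat_lit 0, nat_lit 0, nat_lit 189, nat_lit 0, nat_lit 0, [nat_lit 2380800000, nat_lit 1365333334, nat_lit 202000000], [], [nat_lit 13492306289, nat_lit 13825258193, nat_lit 13880182883, nat_lit 14219943206, nat_lit 13867500331, nat_lit 14172583714, nat_lit 14307286541, nat_lit 14594741658], nat_lit 0, nat_lit 0, nat_lit 0, nat_lit 0, nat_lit 0, nat_lit 0, [], [nat_lit 8, nat_lit 40, nat_lit 40, nat_lit 80, nat_lit 1, nat_lit 289, nat_lit 75, nat_lit 8]⟩, C1.Rw.none,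
 ⟨nat_lit 5244, nat_lit 5362, ⟨.ofNat (nat_lit 341114), .ofNat (nat_lit 437377), .ofNat (nat_lit 351798), .ofNat (nat_lit 448062), .ofNat (nat_lit 344076), .ofNat (nat_lit 439197), .ofNat (nat_lit 354768), .ofNat (nat_lit 449890)⟩, ⟨.ofNat (nat_lit 0), .ofNat (nat_lit 297732), .ofNat (nat_lit 0), .ofNat (nat_lit 340471), .ofNat (nat_lit 0), .ofNat (nat_lit 298515), .ofNat (nat_lit 0), .ofNat (nat_lit 341286)⟩⟩, [⟨nat_lit 0, nat_lit 100, nat_lit 100, nat_lit 90, nat_lit 76521020⟩]⟩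
noncomputable def p069_l69 : Lf2 := ⟨nat_lit 0, nat_lit 10, [nat_lit 0, nat_lit 5, nat_lit 5, nat_lit 20], false, nat_lit 0, nat_lit 160, nat_lit 0, nat_lit 336, ⟨nat_lit 188, nat_lit 0, nat_lit 812, nat_lit 7, nat_lit 163, nat_lit 500, nat_lit 64, nat_lit 812, nat_lit 38400, nat_lit 263, nat_lit 121584, nat_lit 300, nat_lit 57424614, nat_lit 0, nat_lit 0, nat_lit 2051109, false, false⟩,
 nat_lit 0, nat_lit 0, nat_lit 2606, nat_lit 1434, nat_lit 3986, nat_lit 1658, nat_lit 407, nat_lit 0, nat_lit 0, nat_lit 157, nat_lit 0, nat_lit 0, nat_lit 0, nat_lit 0, nat_lit 0, nat_lit 324800, nat_lit 0, nat_lit 0, [(nat_lit 12, [(nat_lit 5, nat_lit 812)])],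
 ⟨p069_k11, nat_lit 0, nat_lit 0, nat_lit 152, nat_lit 0, nat_lit 0, [nat_lit 1624545600, nat_lit 740850667, nat_lit 179326133], [], [nat_lit 14853461948, nat_lit 15659692430, nat_lit 14907362243, nat_lit 15648457661, nat_lit 14417032537, nat_lit 15077404585, nat_lit 14726521359, nat_lit 15349748981], nat_lit 0, nat_lit 0, nat_lit 0, nat_lit 0, nat_lit 0, nat_lit 0, [], [nat_lit 18, nat_lit 40, nat_lit 40, nat_lit 80, nat_lit 2, nat_lit 289, nat_lit 75, nat_lit 10]⟩, ⟨p069_k7, nat_lit 0, nat_lit 0, nat_lit 612, nat_lit 0, nat_lit 796178, [nat_lit 617016000, nat_lit 1175000000, nat_lit 1850296000], [], [nat_lit 7233892810, nat_lit 6367803350, nat_lit 5156333920, nat_lit 5317077857, nat_lit 6119836175, nat_lit 5424850585, nat_lit 6889251815, nat_lit 6161104639], nat_lit 1271250, nat_lit 1271250, nat_lit 435600, nat_lit 780000, nat_lit 0, nat_lit 2373000, [nat_lit 780000, nat_lit 1435000, nat_lit 1271250], [nat_lit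 8, nat_lit 40, nat_lit 40, nat_lit 80, nat_lit 1, nat_lit 345, nat_lit 125, nat_lit 10]⟩,
 ⟨nat_lit 5000, nat_lit 5245, ⟨.ofNat (nat_lit 351391), .ofNat (nat_lit 439194), .ofNat (nat_lit 372775), .ofNat (nat_lit 460577), .ofNat (nat_lit 357140), .ofNat (nat_lit 442852), .ofNat (nat_lit 378567), .ofNat (nat_lit 464278)⟩, ⟨.ofNat (nat_lit 0), .ofNat (nat_lit 298515), .ofNat (nat_lit 0), .ofNat (nat_lit 341286), .ofNat (nat_lit 0), .ofNat (nat_lit 299999), .ofNat (nat_lit 0), .ofNat (nat_lit 342856)⟩⟩, [⟨nat_lit 0, nat_lit 100, nat_lit 99, nat_lit 92, nat_lit 112821421⟩, ⟨nat_lit 19, nat_lit 100, nat_lit 80, nat_lit 100, nat_lit 19010129⟩]⟩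
noncomputable def p069_l70 : Lf2 := ⟨nat_lit 0, nat_lit 10, [nat_lit 0, nat_lit 5, nat_lit 5, nat_lit 20], true, nat_lit 0, nat_lit 160, nat_lit 0, nat_lit 336, ⟨nat_lit 0, nat_lit 0, nat_lit 1000, nat_lit 7, nat_lit 192, nat_lit 299, nat_lit 64, nat_lit 1000, nat_lit 38400, nat_lit 263, nat_lit 20699, nat_lit 247, nat_lit 54464691, nat_lit 0, nat_lit 0, nat_lit 2409908, false, false⟩,
 nat_lit 0, nat_lit 0, nat_lit 0, nat_lit 6353, nat_lit 3628, nat_lit 0, nat_lit 314, nat_lit 0, nat_lit 0, nat_lit 0, nat_lit 0, nat_lit 0, nat_lit 0, nat_lit 0, nat_lit 95, nat_lit 400000, nat_lit 0, nat_lit 0, [(nat_lit 12, [(nat_lit 5, nat_lit 1000)])],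
 ⟨p069_k7, nat_lit 0, nat_lit 0, nat_lit 162, nat_lit 0, nat_lit 0, [nat_lit 2380800000, nat_lit 1365333334, nat_lit 202000000], [], [nat_lit 13622935250, nat_lit 14277115654, nat_lit 14302042850, nat_lit 14922449198, nat_lit 13581361894, nat_lit 14177729850, nat_lit 14394628070, nat_lit 14957437562], nat_lit 0, nat_lit 0, nat_lit 0, nat_lit 0, nat_lit 0, nat_lit 0, [], [nat_lit 8, nat_lit 40, nat_lit 40, nat_lit 80, nat_lit 1, nat_lit 317, nat_lit 100, nat_lit 9]⟩, C1.Rw.none,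
 ⟨nat_lit 5244, nat_lit 5478, ⟨.ofNat (nat_lit 435559), .ofNat (nat_lit 510489), .ofNat (nat_lit 446237), .ofNat (nat_lit 521166), .ofNat (nat_lit 439196), .ofNat (nat_lit 512365), .ofNat (nat_lit 449888), .ofNat (nat_lit 523056)⟩, ⟨.negSucc (nat_lit 2827), .ofNat (nat_lit 296923), .ofNat (nat_lit 0), .ofNat (nat_lit 339637), .ofNat (nat_lit 0), .ofNat (nat_lit 298515), .ofNat (nat_lit 0), .ofNat (nat_lit 341286)⟩⟩, []⟩
noncomputable def p069_l71 : Lf2 := ⟨nat_lit 0, nat_lit 10, [nat_lit 0, nat_lit 5, nat_lit 5, nat_lit 20], false, nat_lit 0, nat_lit 160, nat_lit 0, nat_lit 336, ⟨nat_lit 212, nat_lit 0, nat_lit 788, nat_lit 7, nat_lit 195, nat_lit 788, nat_lit 64, nat_lit 788, nat_lit 38400, nat_lit 263, nat_lit 14440, nat_lit 240, nat_lit 54118633, nat_lit 0, nat_lit 0, nat_lit 2447410, false, false⟩,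
 nat_lit 0, nat_lit 0, nat_lit 2674, nat_lit 0, nat_lit 4312, nat_lit 1701, nat_lit 414, nat_lit 0, nat_lit 0, nat_lit 0, nat_lit 0, nat_lit 0, nat_lit 0, nat_lit 0, nat_lit 0, nat_lit 315200, nat_lit 0, nat_lit 0, [(nat_lit 12, [(nat_lit 5, nat_lit 788)])],
 ⟨p069_k11, nat_lit 0, nat_lit 0, nat_lit 127, nat_lit 0, nat_lit 0, [nat_lit 1673534400, nat_lit 903682667, nat_lit 408380533], [], [nat_lit 15074669621, nat_lit 15862640245, nat_lit 15796812797, nat_lit 16545876727, nat_lit 14270297231, nat_lit 14917983655, nat_lit 15018475279, nat_lit 15628165447], nat_lit 0, nat_lit 0, nat_lit 0, nat_lit 0, nat_lit 0, nat_lit 0, [], [nat_lit 18, nat_lit 40, nat_lit 40, nat_lit 80, nat_lit 2, nat_lit 317, nat_lit 100, nat_lit 10]⟩, ⟨p069_k7, nat_lit 0, nat_lit 0, nat_lit 588, nat_lit 0, nat_lit 796178, [nat_lit 695784000, nat_lit 1325000000, nat_lit 2086504000], [], [nat_lit 7406172548, nat_lit 7598858164, nat_lit 7381725616,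 nat_lit 7561279130, nat_lit 7950679909, nat_lit 7293606824, nat_lit 8905264417, nat_lit 8167501254], nat_lit 1271250, nat_lit 1271250, nat_lit 780000, nat_lit 1100001, nat_lit 0, nat_lit 2373000, [nat_lit 780000, nat_lit 1435000, nat_lit 1271250], [nat_lit 8, nat_lit 40, nat_lit 40, nat_lit 80, nat_lit 1, nat_lit 345, nat_lit 125, nat_lit 10]⟩,
 ⟨nat_lit 5000, nat_lit 5245, ⟨.ofNat (nat_lit 439194), .ofNat (nat_lit 512362), .ofNat (nat_lit 460577), .ofNat (nat_lit 533746), .ofNat (nat_lit 442852), .ofNat (nat_lit 514278), .ofNat (nat_lit 464278), .ofNat (nat_lit 535704)⟩, ⟨.ofNat (nat_lit 0), .ofNat (nat_lit 298515), .ofNat (nat_lit 0), .ofNat (nat_lit 341286), .ofNat (nat_lit 0), .ofNat (nat_lit 299999), .ofNat (nat_lit 0), .ofNat (nat_lit 342856)⟩⟩, [⟨nat_lit 7, nat_lit 94, nat_lit 100, nat_lit 97, nat_lit 4843875⟩, ⟨nat_lit 10, nat_lit 77, nat_lit 100, nat_lit 45, nat_lit 68669912⟩]⟩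
noncomputable def p069_l72 : Lf2 := ⟨nat_lit 0, nat_lit 10, [nat_lit 0, nat_lit 5, nat_lit 5, nat_lit 20], false, nat_lit 0, nat_lit 160, nat_lit 0, nat_lit 336, ⟨nat_lit 157, nat_lit 0, nat_lit 843, nat_lit 7, nat_lit 181, nat_lit 483, nat_lit 65, nat_lit 843, nat_lit 38400, nat_lit 263, nat_lit 14267, nat_lit 243, nat_lit 55637406, nat_lit 0, nat_lit 0, nat_lit 2276183, false, false⟩,
 nat_lit 0, nat_lit 0, nat_lit 2141, nat_lit 0, nat_lit 3327, nat_lit 1362, nat_lit 0, nat_lit 0, nat_lit 0, nat_lit 45, nat_lit 0, nat_lit 0, nat_lit 0, nat_lit 0, nat_lit 90, nat_lit 640200, nat_lit 0, nat_lit 0, [(nat_lit 15, [(nat_lit 5, nat_lit 338), (nat_lit 6, nat_lit 505)])],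
 ⟨p069_k8, nat_lit 0, nat_lit 0, nat_lit 163, nat_lit 0, nat_lit 0, [nat_lit 2534711601, nat_lit 1296477201, nat_lit 6116199], [], [nat_lit 15030458420, nat_lit 16523552648, nat_lit 16169915374, nat_lit 17449199166, nat_lit 15199600406, nat_lit 16403455666, nat_lit 16369262032, nat_lit 17592591778], nat_lit 0, nat_lit 0, nat_lit 0, nat_lit 0, nat_lit 0, nat_lit 0, [], [nat_lit 18, nat_lit 40, nat_lit 40, nat_lit 80, nat_lit 2, nat_lit 317, nat_lit 100, nat_lit 10]⟩, ⟨p069_k7, nat_lit 0, nat_lit 0, nat_lit 660, nat_lit 0, nat_lit 937612, [nat_lit 515274000, nat_lit 981250000, nat_lit 1545194000], [], [nat_lit 5737689652, nat_lit 5383039834, nat_lit 5104789781, nat_lit 5155719859, nat_lit 5227154944, nat_lit 4924267663, nat_lit 6525667370, nat_lit 6230301871], nat_lit 1271250, nat_lit 1271250, nat_lit 490000, nat_lit 1100001, nat_lit 0, nat_lit 2373000, [nat_lit 780000, nat_lit 1435000, nat_lit 1271250], [nat_lit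 8, nat_lit 40, nat_lit 40, nat_lit 80, nat_lit 1, nat_lit 345, nat_lit 125, nat_lit 10]⟩,
 ⟨nat_lit 4472, nat_lit 5000, ⟨.ofNat (nat_lit 371392), .ofNat (nat_lit 514240), .ofNat (nat_lit 382100), .ofNat (nat_lit 524948), .ofNat (nat_lit 382295), .ofNat (nat_lit 518242), .ofNat (nat_lit 393072), .ofNat (nat_lit 529019)⟩, ⟨.ofNat (nat_lit 0), .ofNat (nat_lit 299999), .ofNat (nat_lit 0), .ofNat (nat_lit 342856), .ofNat (nat_lit 0), .ofNat (nat_lit 302621), .ofNat (nat_lit 0), .ofNat (nat_lit 345754)⟩⟩, [⟨nat_lit 19, nat_lit 100, nat_lit 80, nat_lit 100, nat_lit 22913731⟩]⟩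
noncomputable def p069_l73 : Lf2 := ⟨nat_lit 0, nat_lit 10, [nat_lit 0, nat_lit 5, nat_lit 5, nat_lit 20], false, nat_lit 0, nat_lit 160, nat_lit 0, nat_lit 328, ⟨nat_lit 141, nat_lit 0, nat_lit 859, nat_lit 7, nat_lit 188, nat_lit 506, nat_lit 65, nat_lit 859, nat_lit 38400, nat_lit 263, nat_lit 8067, nat_lit 237, nat_lit 54893355, nat_lit 0, nat_lit 0, nat_lit 2362236, false, false⟩,
 nat_lit 0, nat_lit 0, nat_lit 1898, nat_lit 0, nat_lit 3373, nat_lit 1260, nat_lit 0, nat_lit 0, nat_lit 0, nat_lit 13, nat_lit 0, nat_lit 0, nat_lit 0, nat_lit 0, nat_lit 87, nat_lit 599200, nat_lit 0, nat_lit 0, [(nat_lit 15, [(nat_lit 5, nat_lit 433), (nat_lit 6, nat_lit 426)])],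
 ⟨p069_k8, nat_lit 0, nat_lit 0, nat_lit 159, nat_lit 0, nat_lit 0, [nat_lit 2493723600, nat_lit 1226256001, nat_lit 23133399], [], [nat_lit 15145169872, nat_lit 16605957758, nat_lit 16157982535, nat_lit 17392155144, nat_lit 15181117759, nat_lit 16381035179, nat_lit 16263234872, nat_lit 17498320224], nat_lit 0, nat_lit 0, nat_lit 0, nat_lit 0, nat_lit 0, nat_lit 0, [], [nat_lit 18, nat_lit 40, nat_lit 40, nat_lit 80, nat_lit 2, nat_lit 317, nat_lit 100, nat_lit 10]⟩, ⟨p069_k11, nat_lit 0, nat_lit 0, nat_lit 611, nat_lit 0, nat_lit 964302, [nat_lit 462762000, nat_lit 881250000, nat_lit 1123488000], [], [nat_lit 4555993300, nat_lit 4424915298, nat_lit 4237906174, nat_lit 4289835916, nat_lit 4334153293, nat_lit 4053955022, nat_lit 5438946502, nat_lit 5165033464], nat_lit 1271250, nat_lit 1271250, nat_lit 545600, nat_lit 1100001, nat_lit 0, nat_lit 2316500, [nat_lit 780000, nat_lit 1435000, nat_lit 1271250], [nat_lit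 18, nat_lit 40, nat_lit 40, nat_lit 80, nat_lit 2, nat_lit 345, nat_lit 125, nat_lit 11]⟩,
 ⟨nat_lit 4472, nat_lit 5000, ⟨.ofNat (nat_lit 396385), .ofNat (nat_lit 524948), .ofNat (nat_lit 407093), .ofNat (nat_lit 535656), .ofNat (nat_lit 406666), .ofNat (nat_lit 529019), .ofNat (nat_lit 417444), .ofNat (nat_lit 539796)⟩, ⟨.ofNat (nat_lit 0), .ofNat (nat_lit 299999), .ofNat (nat_lit 0), .ofNat (nat_lit 342856), .ofNat (nat_lit 0), .ofNat (nat_lit 302621), .ofNat (nat_lit 0), .ofNat (nat_lit 345754)⟩⟩, [⟨nat_lit 19, nat_lit 97, nat_lit 84, nat_lit 100, nat_lit 18080426⟩, ⟨nat_lit 10, nat_lit 83, nat_lit 100, nat_lit 32, nat_lit 9970373⟩]⟩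
noncomputable def p069_l74 : Lf2 := ⟨nat_lit 0, nat_lit 10, [nat_lit 0, nat_lit 5, nat_lit 5, nat_lit 20], false, nat_lit 0, nat_lit 160, nat_lit 0, nat_lit 320, ⟨nat_lit 451, nat_lit 0, nat_lit 549, nat_lit 7, nat_lit 198, nat_lit 549, nat_lit 65, nat_lit 549, nat_lit 38400, nat_lit 263, nat_lit 3013, nat_lit 227, nat_lit 53763064, nat_lit 0, nat_lit 0, nat_lit 2485048, false, false⟩,
 nat_lit 0, nat_lit 0, nat_lit 4169, nat_lit 0, nat_lit 4371, nat_lit 2885, nat_lit 286, nat_lit 0, nat_lit 0, nat_lit 660, nat_lit 0, nat_lit 0, nat_lit 0, nat_lit 0, nat_lit 0, nat_lit 549000, nat_lit 0, nat_lit 0, [(nat_lit 15, [(nat_lit 6, nat_lit 549)])],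
 ⟨p069_k8, nat_lit 0, nat_lit 0, nat_lit 154, nat_lit 0, nat_lit 0, [nat_lit 2018202000, nat_lit 1558685201, nat_lit 708682800], [], [nat_lit 16487373900, nat_lit 18129195082, nat_lit 17180375518, nat_lit 18675511288, nat_lit 15516868724, nat_lit 16855149731, nat_lit 16355870241, nat_lit 17583338179], nat_lit 0, nat_lit 0, nat_lit 0, nat_lit 0, nat_lit 0, nat_lit 0, [], [nat_lit 18, nat_lit 40, nat_lit 40, nat_lit 80, nat_lit 2, nat_lit 317, nat_lit 100, nat_lit 10]⟩, ⟨p069_k8, nat_lit 0, nat_lit 0, nat_lit 651, nat_lit 0, nat_lit 1075315, [nat_lit 1480182000, nat_lit 2818750000, nat_lit 3593568000], [], [nat_lit 11207232118, nat_lit 11566752756, nat_lit 11226615104, nat_lit 11554361332, nat_lit 13239797812, nat_lit 11974454122, nat_lit 15730140036, nat_lit 14488216776], nat_lit 1271250, nat_lit 1271250, nat_lit 631250, nat_lit 1100001, nat_lit 0, nat_lit 2260000, [nat_lit 780000, nat_lit 1435000, nat_lit 1271250],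 [nat_lit 18, nat_lit 40, nat_lit 40, nat_lit 80, nat_lit 2, nat_lit 345, nat_lit 125, nat_lit 11]⟩,
 ⟨nat_lit 4472, nat_lit 5000, ⟨.ofNat (nat_lit 428520), .ofNat (nat_lit 535656), .ofNat (nat_lit 449936), .ofNat (nat_lit 557072), .ofNat (nat_lit 437835), .ofNat (nat_lit 539796), .ofNat (nat_lit 459390), .ofNat (nat_lit 561349)⟩, ⟨.ofNat (nat_lit 0), .ofNat (nat_lit 299999), .ofNat (nat_lit 0), .ofNat (nat_lit 342856), .ofNat (nat_lit 0), .ofNat (nat_lit 302621), .ofNat (nat_lit 0), .ofNat (nat_lit 345754)⟩⟩, [⟨nat_lit 0, nat_lit 83, nat_lit 83, nat_lit 100, nat_lit 17581606⟩, ⟨nat_lit 7, nat_lit 100, nat_lit 93, nat_lit 97, nat_lit 99827531⟩]⟩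
noncomputable def p069_l75 : Lf2 := ⟨nat_lit 0, nat_lit 10, [nat_lit 0, nat_lit 5, nat_lit 5, nat_lit 20], false, nat_lit 0, nat_lit 160, nat_lit 0, nat_lit 160, ⟨nat_lit 1000, nat_lit 0, nat_lit 0, nat_lit 0, nat_lit 0, nat_lit 0, nat_lit 0, nat_lit 0, nat_lit 0, nat_lit 0, nat_lit 0, nat_lit 0, nat_lit 0, nat_lit 0, nat_lit 0, nat_lit 0, false, false⟩,
 nat_lit 0, nat_lit 0, nat_lit 13181, nat_lit 0, nat_lit 9234, nat_lit 8387, nat_lit 1491, nat_lit 0, nat_lit 0, nat_lit 865, nat_lit 0, nat_lit 0, nat_lit 0, nat_lit 0, nat_lit 0, nat_lit 0, nat_lit 0, nat_lit 0, [],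
 ⟨p069_k7, nat_lit 0, nat_lit 0, nat_lit 164, nat_lit 0, nat_lit 0, [nat_lit 3282000000, nat_lit 6250000000, nat_lit 9842000000], [], [nat_lit 19427220175, nat_lit 21520102267, nat_lit 23560329256, nat_lit 26373882788, nat_lit 13186311264, nat_lit 15341864860, nat_lit 16803521120, nat_lit 18596797012], nat_lit 0, nat_lit 0, nat_lit 0, nat_lit 0, nat_lit 0, nat_lit 0, [], [nat_lit 8, nat_lit 40, nat_lit 40, nat_lit 80, nat_lit 1, nat_lit 317, nat_lit 100, nat_lit 9]⟩, ⟨p069_k7, nat_lit 0, nat_lit 0, nat_lit 574, nat_lit 0, nat_lit 796178, [nat_lit 3282000000, nat_lit 6250000000, nat_lit 9842000000], [], [nat_lit 33443406868, nat_lit 29077318403, nat_lit 29166911137, nat_lit 30041860380, nat_lit 23531443749, nat_lit 24391440686, nat_lit 28008767576, nat_lit 25326044044], nat_lit 1271250, nat_lit 1271250, nat_lit 1100001, nat_lit 1785000, nat_lit 0, nat_lit 1100001, [nat_lit 780000, nat_lit 1435000, nat_lit 1271250],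 [nat_lit 8, nat_lit 40, nat_lit 40, nat_lit 80, nat_lit 1, nat_lit 317, nat_lit 100, nat_lit 9]⟩,
 zbF0, []⟩
noncomputable def p069_l76 : Lf2 := ⟨nat_lit 0, nat_lit 10, [nat_lit 0, nat_lit 5, nat_lit 5, nat_lit 20], false, nat_lit 0, nat_lit 160, nat_lit 0, nat_lit 160, ⟨nat_lit 214, nat_lit 786, nat_lit 0, nat_lit 7, nat_lit 243, nat_lit 786, nat_lit 65, nat_lit 0, nat_lit 0, nat_lit 0, nat_lit 0, nat_lit 0, nat_lit 48942096, nat_lit 18057904, nat_lit 0, nat_lit 2913908, false, false⟩,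
 nat_lit 0, nat_lit 0, nat_lit 3008, nat_lit 0, nat_lit 4919, nat_lit 1914, nat_lit 181, nat_lit 0, nat_lit 0, nat_lit 149, nat_lit 0, nat_lit 0, nat_lit 0, nat_lit 0, nat_lit 0, nat_lit 786000, nat_lit 0, nat_lit 0, [(nat_lit 15, [(nat_lit 2, nat_lit 786)])],
 ⟨p069_k8, nat_lit 0, nat_lit 0, nat_lit 142, nat_lit 0, nat_lit 0, [nat_lit 2363637601, nat_lit 2161228001, nat_lit 1157152800], [], [nat_lit 18153789027, nat_lit 19744735195, nat_lit 20971767573, nat_lit 22816425120, nat_lit 16404109287, nat_lit 17706695969, nat_lit 18893587333, nat_lit 20008893689], nat_lit 0, nat_lit 0, nat_lit 0, nat_lit 0, nat_lit 0, nat_lit 0, [], [nat_lit 18, nat_lit 40, nat_lit 40, nat_lit 80, nat_lit 2, nat_lit 317, nat_lit 100, nat_lit 10]⟩, ⟨p069_k7, nat_lit 0, nat_lit 0, nat_lit 758, nat_lit 0, nat_lit 1212671, [nat_lit 702348000, nat_lit 1337500000, nat_lit 2106188000], [], [nat_lit 7212471264, nat_lit 6609899248, nat_lit 6433113768,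 nat_lit 6640452832, nat_lit 5355350936, nat_lit 5554731336, nat_lit 5842163296, nat_lit 5534430184], nat_lit 1271250, nat_lit 1271250, nat_lit 1100001, nat_lit 1785000, nat_lit 0, nat_lit 1100001, [nat_lit 780000, nat_lit 1435000, nat_lit 1271250], [nat_lit 8, nat_lit 40, nat_lit 40, nat_lit 80, nat_lit 1, nat_lit 317, nat_lit 100, nat_lit 9]⟩,
 ⟨nat_lit 4472, nat_lit 5000, ⟨.ofNat (nat_lit 514240), .ofNat (nat_lit 657088), .ofNat (nat_lit 557072), .ofNat (nat_lit 699920), .ofNat (nat_lit 518242), .ofNat (nat_lit 654189), .ofNat (nat_lit 561349), .ofNat (nat_lit 697297)⟩, ⟨.ofNat (nat_lit 0), .ofNat (nat_lit 299999), .ofNat (nat_lit 0), .ofNat (nat_lit 342856), .ofNat (nat_lit 0), .ofNat (nat_lit 302621), .ofNat (nat_lit 0), .ofNat (nat_lit 345754)⟩⟩, []⟩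
noncomputable def p069_l77 : Lf2 := ⟨nat_lit 0, nat_lit 10, [nat_lit 0, nat_lit 5, nat_lit 5, nat_lit 20], false, nat_lit 0, nat_lit 160, nat_lit 160, nat_lit 336, ⟨nat_lit 657, nat_lit 343, nat_lit 0, nat_lit 7, nat_lit 238, nat_lit 0, nat_lit 64, nat_lit 0, nat_lit 0, nat_lit 0, nat_lit 0, nat_lit 0, nat_lit 49428927, nat_lit 17571073, nat_lit 0, nat_lit 2877010, false, false⟩,
 nat_lit 0, nat_lit 0, nat_lit 6583, nat_lit 0, nat_lit 7968, nat_lit 4188, nat_lit 1105, nat_lit 0, nat_lit 0, nat_lit 583, nat_lit 0, nat_lit 0, nat_lit 0, nat_lit 0, nat_lit 0, nat_lit 343000, nat_lit 0, nat_lit 0, [(nat_lit 12, [(nat_lit 2, nat_lit 343)])],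
 ⟨p069_k7, nat_lit 0, nat_lit 0, nat_lit 164, nat_lit 0, nat_lit 0, [nat_lit 2957247601, nat_lit 4773865200, nat_lit 6365352000], [], [nat_lit 18339754725, nat_lit 20239653040, nat_lit 22245608512, nat_lit 24781910576, nat_lit 13397379728, nat_lit 15349747920, nat_lit 16819139440, nat_lit 18452218224], nat_lit 0, nat_lit 0, nat_lit 0, nat_lit 0, nat_lit 0, nat_lit 0, [], [nat_lit 8, nat_lit 40, nat_lit 40, nat_lit 80, nat_lit 1, nat_lit 317, nat_lit 100, nat_lit 9]⟩, ⟨p069_k7, nat_lit 0, nat_lit 0, nat_lit 452, nat_lit 0, nat_lit 796178, [nat_lit 2156274000, nat_lit 4106250000, nat_lit 6466194000], [], [nat_lit 18189094447, nat_lit 18671936977, nat_lit 19075307652, nat_lit 19568906082, nat_lit 21152381600, nat_lit 21533765258, nat_lit 21618601203, nat_lit 21982437569], nat_lit 1271250, nat_lit 1271250, nat_lit 1100001, nat_lit 1785000, nat_lit 1271250, nat_lit 1271250, [nat_lit 780000, nat_lit 1435000, nat_lit 1271250],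 [nat_lit 8, nat_lit 40, nat_lit 40, nat_lit 80, nat_lit 1, nat_lit 373, nat_lit 150, nat_lit 10]⟩,
 ⟨nat_lit 5000, nat_lit 5478, ⟨.ofNat (nat_lit 510468), .ofNat (nat_lit 660309), .ofNat (nat_lit 531815), .ofNat (nat_lit 681655), .ofNat (nat_lit 514258), .ofNat (nat_lit 657090), .ofNat (nat_lit 535678), .ofNat (nat_lit 678509)⟩, ⟨.negSucc (nat_lit 2832), .ofNat (nat_lit 296923), .ofNat (nat_lit 0), .ofNat (nat_lit 339637), .ofNat (nat_lit 0), .ofNat (nat_lit 299999), .ofNat (nat_lit 0), .ofNat (nat_lit 342856)⟩⟩, [⟨nat_lit 7, nat_lit 94, nat_lit 100, nat_lit 97, nat_lit 236990768⟩, ⟨nat_lit 22, nat_lit 100, nat_lit 97, nat_lit 24, nat_lit 6530836⟩]⟩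
noncomputable def p069_l78 : Lf2 := ⟨nat_lit 0, nat_lit 10, [nat_lit 0, nat_lit 5, nat_lit 5, nat_lit 20], false, nat_lit 0, nat_lit 160, nat_lit 160, nat_lit 336, ⟨nat_lit 293, nat_lit 707, nat_lit 0, nat_lit 7, nat_lit 239, nat_lit 707, nat_lit 65, nat_lit 0, nat_lit 0, nat_lit 0, nat_lit 0, nat_lit 0, nat_lit 49408952, nat_lit 17591048, nat_lit 0, nat_lit 2878550, false, false⟩,
 nat_lit 0, nat_lit 0, nat_lit 3906, nat_lit 0, nat_lit 5094, nat_lit 2485, nat_lit 489, nat_lit 0, nat_lit 0, nat_lit 227, nat_lit 0, nat_lit 0, nat_lit 0, nat_lit 0, nat_lit 0, nat_lit 707000, nat_lit 0, nat_lit 0, [(nat_lit 15, [(nat_lit 2, nat_lit 707)])],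
 ⟨p069_k8, nat_lit 0, nat_lit 0, nat_lit 142, nat_lit 0, nat_lit 0, [nat_lit 2455941201, nat_lit 2572186000, nat_lit 1841703600], [], [nat_lit 17553160595, nat_lit 19605237232, nat_lit 21167907308, nat_lit 23074809120, nat_lit 15970069136, nat_lit 17296644468, nat_lit 18475863132, nat_lit 19612140939], nat_lit 0, nat_lit 0, nat_lit 0, nat_lit 0, nat_lit 0, nat_lit 0, [], [nat_lit 18, nat_lit 40, nat_lit 40, nat_lit 80, nat_lit 2, nat_lit 317, nat_lit 100, nat_lit 10]⟩, ⟨p069_k7, nat_lit 0, nat_lit 0, nat_lit 571, nat_lit 0, nat_lit 1025129, [nat_lit 961626000, nat_lit 1831250000, nat_lit 2883706000], [], [nat_lit 6958675719, nat_lit 7164719799, nat_lit 7141628015, nat_lit 7313689928, nat_lit 7968818457, nat_lit 8124306023, nat_lit 8011463873, nat_lit 8282417288], nat_lit 1271250, nat_lit 1271250, nat_lit 1100001, nat_lit 1785000, nat_lit 1271250, nat_lit 1271250, [nat_lit 780000, nat_lit 1435000, nat_lit 1271250],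 [nat_lit 8, nat_lit 40, nat_lit 40, nat_lit 80, nat_lit 1, nat_lit 373, nat_lit 150, nat_lit 10]⟩,
 ⟨nat_lit 4472, nat_lit 5000, ⟨.ofNat (nat_lit 514240), .ofNat (nat_lit 657088), .ofNat (nat_lit 535656), .ofNat (nat_lit 678503), .ofNat (nat_lit 518242), .ofNat (nat_lit 654189), .ofNat (nat_lit 539796), .ofNat (nat_lit 675743)⟩, ⟨.ofNat (nat_lit 0), .ofNat (nat_lit 299999), .ofNat (nat_lit 0), .ofNat (nat_lit 342856), .ofNat (nat_lit 0), .ofNat (nat_lit 302621), .ofNat (nat_lit 0), .ofNat (nat_lit 345754)⟩⟩, [⟨nat_lit 19, nat_lit 100, nat_lit 94, nat_lit 97, nat_lit 97165319⟩]⟩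
noncomputable def p069_l79 : Lf2 := ⟨nat_lit 0, nat_lit 10, [nat_lit 0, nat_lit 5, nat_lit 5, nat_lit 20], false, nat_lit 0, nat_lit 160, nat_lit 160, nat_lit 320, ⟨nat_lit 1000, nat_lit 0, nat_lit 0, nat_lit 0, nat_lit 0, nat_lit 0, nat_lit 0, nat_lit 0, nat_lit 0, nat_lit 0, nat_lit 0, nat_lit 0, nat_lit 0, nat_lit 0, nat_lit 0, nat_lit 0, false, false⟩,
 nat_lit 0, nat_lit 0, nat_lit 7155, nat_lit 0, nat_lit 7100, nat_lit 4953, nat_lit 528, nat_lit 0, nat_lit 0, nat_lit 2039, nat_lit 0, nat_lit 0, nat_lit 0, nat_lit 0, nat_lit 0, nat_lit 0, nat_lit 0, nat_lit 0, [],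
 ⟨p069_k12, nat_lit 0, nat_lit 0, nat_lit 135, nat_lit 0, nat_lit 0, [nat_lit 3282000000, nat_lit 7968000000], [], [nat_lit 24356298800, nat_lit 26335620000, nat_lit 27433236200, nat_lit 29091205600, nat_lit 19997775400, nat_lit 21647658800, nat_lit 22617749400, nat_lit 24005657600], nat_lit 0, nat_lit 0, nat_lit 0, nat_lit 0, nat_lit 0, nat_lit 0, [], [nat_lit 74, nat_lit 40, nat_lit 40, nat_lit 80, nat_lit 43, nat_lit 317, nat_lit 100, nat_lit 10]⟩, ⟨p069_k12, nat_lit 0, nat_lit 0, nat_lit 515, nat_lit 0, nat_lit 1075315, [nat_lit 3282000000, nat_lit 7968000000], [], [nat_lit 26853553342, nat_lit 27464194002, nat_lit 27894557910, nat_lit 28425305741, nat_lit 31025517129, nat_lit 30433192056, nat_lit 30912283824, nat_lit 31485563456], nat_lit 1271250, nat_lit 1271250, nat_lit 1271250, nat_lit 1271250, nat_lit 1100001, nat_lit 2470000, [nat_lit 780000, nat_lit 1762500], [nat_lit 74, nat_lit 40, nat_lit 40, nat_lit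 80, nat_lit 43, nat_lit 373, nat_lit 150, nat_lit 11]⟩,
 zbF0, [⟨nat_lit 19, nat_lit 93, nat_lit 100, nat_lit 97, nat_lit 351651786⟩]⟩
noncomputable def b_V_700_700_20_1 : St := ⟨true, nat_lit 0, nat_lit 1, nat_lit 1, nat_lit 120, nat_lit 280, nat_lit 320, nat_lit 280, nat_lit 320, nat_lit 64, nat_lit 240, nat_lit 80, nat_lit 120, nat_lit 0, nat_lit 160, nat_lit 0, nat_lit 336, nat_lit 0, nat_lit 40, nat_lit 0, nat_lit 0, nat_lit 0, nat_lit 0⟩
theorem d_V_700_700_20_1 (h : EB TB.env) : Dead b_V_700_700_20_1 := chkB_sound0 h (T :=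
(.spl (nat_lit 2) (nat_lit 160)
(.spl (nat_lit 0) (nat_lit 300)
(.ord (.spl (nat_lit 2) (nat_lit 120)
(.spl (nat_lit 0) (nat_lit 290)
(.ord (.spl (nat_lit 0) (nat_lit 285)
(.ord (.leaf p069_l67))
(.trZ (nat_lit 0) (nat_lit 100) (nat_lit 99) (nat_lit 82) (nat_lit 68) (.leaf p069_l68))))
(.trZ (nat_lit 0) (nat_lit 100) (nat_lit 97) (nat_lit 84) (nat_lit 72) (.leaf p069_l69)))
(.spl (nat_lit 0) (nat_lit 290)
(.ord (.leaf p069_l70))
(.leaf p069_l71))))
(.trZ (nat_lit 0) (nat_lit 100) (nat_lit 94) (nat_lit 88) (nat_lit 80) (.spl (nat_lit 1) (nat_lit 300)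
(.spl (nat_lit 1) (nat_lit 290)
(.leaf p069_l72)
(.trZ (nat_lit 0) (nat_lit 100) (nat_lit 97) (nat_lit 94) (nat_lit 88) (.trX (nat_lit 19) (nat_lit 97) (nat_lit 84) (nat_lit 100) (nat_lit 328) (.leaf p069_l73))))
(.trZ (nat_lit 0) (nat_lit 100) (nat_lit 100) (nat_lit 100) (nat_lit 100) (.trX (nat_lit 19) (nat_lit 94) (nat_lit 88) (nat_lit 100) (nat_lit 320) (.leaf p069_l74))))))
(.spl (nat_lit 5) (nat_lit 160)
(.spl (nat_lit 0) (nat_lit 300)
(.ord (.leaf p069_l75))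
(.leaf p069_l76))
(.spl (nat_lit 0) (nat_lit 300)
(.ord (.leaf p069_l77))
(.spl (nat_lit 1) (nat_lit 300)
(.leaf p069_l78)
(.trX (nat_lit 19) (nat_lit 94) (nat_lit 88) (nat_lit 100) (nat_lit 320) (.leaf p069_l79))))))) (by decide +kernel)
noncomputable def p069_l80 : Lf2 := ⟨nat_lit 0, nat_lit 10, [nat_lit 0, nat_lit 5, nat_lit 5, nat_lit 20], true, nat_lit 240, nat_lit 280, nat_lit 0, nat_lit 336, ⟨nat_lit 0, nat_lit 1000, nat_lit 0, nat_lit 7, nat_lit 155, nat_lit 1000, nat_lit 202, nat_lit 0, nat_lit 0, nat_lit 0, nat_lit 0, nat_lit 0, nat_lit 45493075, nat_lit 8571139, nat_lit 12935786, nat_lit 4527701, false, false⟩,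
 nat_lit 0, nat_lit 0, nat_lit 0, nat_lit 2899, nat_lit 4283, nat_lit 0, nat_lit 0, nat_lit 0, nat_lit 0, nat_lit 0, nat_lit 0, nat_lit 0, nat_lit 0, nat_lit 2673530258008, nat_lit 0, nat_lit 250000, nat_lit 0, nat_lit 0, [(nat_lit 12, [(nat_lit 0, nat_lit 1000)])],
 ⟨p069_k7, nat_lit 0, nat_lit 0, nat_lit 54, nat_lit 0, nat_lit 0, [nat_lit 2364000000, nat_lit 2954000000, nat_lit 3510800000], [], [nat_lit 16064153803, nat_lit 16817618873, nat_lit 16134867072, nat_lit 16841062027, nat_lit 18647493480, nat_lit 19398968704, nat_lit 18562358472, nat_lit 19202225622], nat_lit 0, nat_lit 0, nat_lit 0, nat_lit 0, nat_lit 0, nat_lit 0, [], [nat_lit 8, nat_lit 40, nat_lit 40, nat_lit 80, nat_lit 1, nat_lit 317, nat_lit 100, nat_lit 8]⟩, C1.Rw.none,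
 ⟨nat_lit 5244, nat_lit 5478, ⟨.ofNat (nat_lit 330654), .ofNat (nat_lit 435559), .ofNat (nat_lit 335994), .ofNat (nat_lit 440898), .ofNat (nat_lit 336758), .ofNat (nat_lit 439196), .ofNat (nat_lit 342105), .ofNat (nat_lit 444542)⟩, ⟨.ofNat (nat_lit 446789), .ofNat (nat_lit 521722), .ofNat (nat_lit 489503), .ofNat (nat_lit 564436), .ofNat (nat_lit 444857), .ofNat (nat_lit 518028), .ofNat (nat_lit 487628), .ofNat (nat_lit 560799)⟩⟩, [⟨nat_lit 0, nat_lit 100, nat_lit 99, nat_lit 83, nat_lit 128205440⟩]⟩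
noncomputable def p069_l81 : Lf2 := ⟨nat_lit 0, nat_lit 10, [nat_lit 0, nat_lit 5, nat_lit 5, nat_lit 20], true, nat_lit 240, nat_lit 280, nat_lit 0, nat_lit 332, ⟨nat_lit 0, nat_lit 1000, nat_lit 0, nat_lit 7, nat_lit 161, nat_lit 1000, nat_lit 201, nat_lit 0, nat_lit 0, nat_lit 0, nat_lit 0, nat_lit 0, nat_lit 45126633, nat_lit 9018881, nat_lit 12854486, nat_lit 4581429, false, false⟩,
 nat_lit 0, nat_lit 0, nat_lit 0, nat_lit 2874, nat_lit 4265, nat_lit 0, nat_lit 0, nat_lit 0, nat_lit 0, nat_lit 0, nat_lit 0, nat_lit 0, nat_lit 0, nat_lit 10423169218461, nat_lit 0, nat_lit 250000, nat_lit 0, nat_lit 0, [(nat_lit 12, [(nat_lit 0, nat_lit 1000)])],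
 ⟨p069_k10, nat_lit 0, nat_lit 0, nat_lit 48, nat_lit 0, nat_lit 0, [nat_lit 2364000000, nat_lit 2954000000, nat_lit 3510800000], [], [nat_lit 16363872844, nat_lit 16736947273, nat_lit 16506839773, nat_lit 16859177785, nat_lit 18888220993, nat_lit 19225656642, nat_lit 18896525385, nat_lit 19215806010], nat_lit 0, nat_lit 0, nat_lit 0, nat_lit 0, nat_lit 0, nat_lit 0, [], [nat_lit 8, nat_lit 40, nat_lit 40, nat_lit 80, nat_lit 1, nat_lit 317, nat_lit 100, nat_lit 8]⟩, C1.Rw.none,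
 ⟨nat_lit 5244, nat_lit 5362, ⟨.ofNat (nat_lit 353861), .ofNat (nat_lit 442719), .ofNat (nat_lit 359203), .ofNat (nat_lit 448062), .ofNat (nat_lit 356739), .ofNat (nat_lit 444544), .ofNat (nat_lit 362085), .ofNat (nat_lit 449890)⟩, ⟨.ofNat (nat_lit 445831), .ofNat (nat_lit 519880), .ofNat (nat_lit 488570), .ofNat (nat_lit 562619), .ofNat (nat_lit 444857), .ofNat (nat_lit 518028), .ofNat (nat_lit 487628), .ofNat (nat_lit 560799)⟩⟩, [⟨nat_lit 0, nat_lit 100, nat_lit 100, nat_lit 90, nat_lit 115400003⟩]⟩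
noncomputable def b_V_700_700_20_2 : St := ⟨true, nat_lit 0, nat_lit 1, nat_lit 1, nat_lit 120, nat_lit 280, nat_lit 290, nat_lit 280, nat_lit 290, nat_lit 64, nat_lit 120, nat_lit 80, nat_lit 120, nat_lit 240, nat_lit 280, nat_lit 0, nat_lit 336, nat_lit 0, nat_lit 40, nat_lit 0, nat_lit 0, nat_lit 0, nat_lit 0⟩
theorem d_V_700_700_20_2 (h : EB TB.env) : Dead b_V_700_700_20_2 := chkB_sound0 h (T :=
(.spl (nat_lit 1) (nat_lit 285)
(.leaf p069_l80)
(.ord (.trZ (nat_lit 0) (nat_lit 100) (nat_lit 100) (nat_lit 85) (nat_lit 72) (.trX (nat_lit 19) (nat_lit 99) (nat_lit 82) (nat_lit 100) (nat_lit 332) (.leaf p069_l81)))))) (by decide +kernel)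
noncomputable def p069_l82 : Lf2 := ⟨nat_lit 0, nat_lit 10, [nat_lit 0, nat_lit 5, nat_lit 5, nat_lit 20], true, nat_lit 280, nat_lit 336, nat_lit 0, nat_lit 336, ⟨nat_lit 0, nat_lit 1000, nat_lit 0, nat_lit 7, nat_lit 156, nat_lit 1000, nat_lit 237, nat_lit 0, nat_lit 0, nat_lit 0, nat_lit 0, nat_lit 0, nat_lit 42481806, nat_lit 8347893, nat_lit 16170301, nat_lit 4786540, false, false⟩,
 nat_lit 0, nat_lit 0, nat_lit 0, nat_lit 2845, nat_lit 0, nat_lit 0, nat_lit 0, nat_lit 0, nat_lit 377, nat_lit 0, nat_lit 0, nat_lit 0, nat_lit 0, nat_lit 7451300681479, nat_lit 0, nat_lit 250000, nat_lit 0, nat_lit 0, [(nat_lit 12, [(nat_lit 0, nat_lit 1000)])],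
 ⟨p069_k7, nat_lit 0, nat_lit 0, nat_lit 0, nat_lit 0, nat_lit 0, [nat_lit 2364000000, nat_lit 2954000000, nat_lit 3510800000], [], [nat_lit 16408982800, nat_lit 16751944500, nat_lit 17580468000, nat_lit 17925030000, nat_lit 18424419201, nat_lit 18762144960, nat_lit 19537995201, nat_lit 19864603001], nat_lit 0, nat_lit 0, nat_lit 0, nat_lit 0, nat_lit 0, nat_lit 0, [], [nat_lit 8, nat_lit 40, nat_lit 40, nat_lit 80]⟩, C1.Rw.none,
 ⟨nat_lit 5244, nat_lit 5478, ⟨.ofNat (nat_lit 330654), .ofNat (nat_lit 435559), .ofNat (nat_lit 341333), .ofNat (nat_lit 446237), .ofNat (nat_lit 336758), .ofNat (nat_lit 439196), .ofNat (nat_lit 347451), .ofNat (nat_lit 449888)⟩, ⟨.ofNat (nat_lit 521722), .ofNat (nat_lit 626629), .ofNat (nat_lit 564436), .ofNat (nat_lit 669340), .ofNat (nat_lit 518028), .ofNat (nat_lit 620468), .ofNat (nat_lit 560799), .ofNat (nat_lit 663236)⟩⟩, [⟨nat_lit 0, nat_lit 100, nat_lit 100, nat_lit 90, nat_lit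 2535105⟩]⟩
noncomputable def p069_l83 : Lf2 := ⟨nat_lit 0, nat_lit 10, [nat_lit 0, nat_lit 5, nat_lit 5, nat_lit 20], true, nat_lit 280, nat_lit 300, nat_lit 0, nat_lit 320, ⟨nat_lit 0, nat_lit 1000, nat_lit 0, nat_lit 7, nat_lit 156, nat_lit 1000, nat_lit 220, nat_lit 0, nat_lit 0, nat_lit 0, nat_lit 0, nat_lit 0, nat_lit 43934645, nat_lit 8508371, nat_lit 14556984, nat_lit 4674087, false, false⟩,
 nat_lit 0, nat_lit 0, nat_lit 0, nat_lit 2809, nat_lit 2764, nat_lit 0, nat_lit 0, nat_lit 0, nat_lit 0, nat_lit 0, nat_lit 0, nat_lit 0, nat_lit 0, nat_lit 4807192871698, nat_lit 0, nat_lit 250000, nat_lit 0, nat_lit 0, [(nat_lit 12, [(nat_lit 0, nat_lit 1000)])],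
 ⟨p069_k13, nat_lit 0, nat_lit 0, nat_lit 0, nat_lit 0, nat_lit 0, [nat_lit 1182000000, nat_lit 1968800001, nat_lit 2239600001, nat_lit 2709733334, nat_lit 3407066666], [], [nat_lit 17700086320, nat_lit 18279028784, nat_lit 18113498848, nat_lit 18660130528, nat_lit 18870581872, nat_lit 19420786496, nat_lit 19218479360, nat_lit 19738790880], nat_lit 0, nat_lit 0, nat_lit 0, nat_lit 0, nat_lit 0, nat_lit 0, [], [nat_lit 260, nat_lit 10, nat_lit 4, nat_lit 20]⟩, C1.Rw.none,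
 ⟨nat_lit 5244, nat_lit 5478, ⟨.ofNat (nat_lit 330654), .ofNat (nat_lit 435559), .ofNat (nat_lit 341333), .ofNat (nat_lit 446237), .ofNat (nat_lit 336758), .ofNat (nat_lit 439196), .ofNat (nat_lit 347451), .ofNat (nat_lit 449888)⟩, ⟨.ofNat (nat_lit 521722), .ofNat (nat_lit 559189), .ofNat (nat_lit 543079), .ofNat (nat_lit 580546), .ofNat (nat_lit 518028), .ofNat (nat_lit 554614), .ofNat (nat_lit 539414), .ofNat (nat_lit 575999)⟩⟩, [⟨nat_lit 0, nat_lit 100, nat_lit 100, nat_lit 90, nat_lit 81094505⟩]⟩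
noncomputable def p069_l84 : Lf2 := ⟨nat_lit 0, nat_lit 10, [nat_lit 0, nat_lit 5, nat_lit 5, nat_lit 20], false, nat_lit 300, nat_lit 320, nat_lit 0, nat_lit 320, ⟨nat_lit 1000, nat_lit 0, nat_lit 0, nat_lit 0, nat_lit 0, nat_lit 0, nat_lit 0, nat_lit 0, nat_lit 0, nat_lit 0, nat_lit 0, nat_lit 0, nat_lit 0, nat_lit 0, nat_lit 0, nat_lit 0, false, false⟩,
 nat_lit 0, nat_lit 0, nat_lit 0, nat_lit 4654, nat_lit 4881, nat_lit 0, nat_lit 0, nat_lit 0, nat_lit 0, nat_lit 255, nat_lit 0, nat_lit 514, nat_lit 0, nat_lit 0, nat_lit 0, nat_lit 0, nat_lit 0, nat_lit 0, [],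
 ⟨p069_k7, nat_lit 0, nat_lit 0, nat_lit 0, nat_lit 0, nat_lit 0, [nat_lit 3282000000, nat_lit 6250000000, nat_lit 9842000000], [], [nat_lit 20624502688, nat_lit 21313141091, nat_lit 20278424804, nat_lit 20924974287, nat_lit 22002615938, nat_lit 22714510121, nat_lit 21571046704, nat_lit 22180893619], nat_lit 0, nat_lit 0, nat_lit 0, nat_lit 0, nat_lit 0, nat_lit 0, [], [nat_lit 8, nat_lit 40, nat_lit 40, nat_lit 80]⟩, ⟨p069_k7, nat_lit 0, nat_lit 0, nat_lit 0, nat_lit 0, nat_lit 578014, [nat_lit 3282000000, nat_lit 6250000000, nat_lit 9842000000], [], [nat_lit 10357279275, nat_lit 10676832475, nat_lit 11480860875, nat_lit 11789443875, nat_lit 17822258400, nat_lit 18167679000, nat_lit 18979012000, nat_lit 19291778000], nat_lit 1271250, nat_lit 1271250, nat_lit 382400, nat_lit 780000, nat_lit 0, nat_lit 2260000, [nat_lit 780000, nat_lit 1435000, nat_lit 1271250], [nat_lit 8, nat_lit 40, nat_lit 40, nat_lit 80]⟩,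
 zbF0, [⟨nat_lit 0, nat_lit 100, nat_lit 100, nat_lit 80, nat_lit 491180644⟩, ⟨nat_lit 16, nat_lit 100, nat_lit 88, nat_lit 94, nat_lit 588936967⟩, ⟨nat_lit 23, nat_lit 91, nat_lit 100, nat_lit 92, nat_lit 53892684⟩]⟩
noncomputable def p069_l85 : Lf2 := ⟨nat_lit 0, nat_lit 10, [nat_lit 0, nat_lit 5, nat_lit 5, nat_lit 20], false, nat_lit 300, nat_lit 320, nat_lit 0, nat_lit 160, ⟨nat_lit 1000, nat_lit 0, nat_lit 0, nat_lit 0, nat_lit 0, nat_lit 0, nat_lit 0, nat_lit 0, nat_lit 0, nat_lit 0, nat_lit 0, nat_lit 0, nat_lit 0, nat_lit 0, nat_lit 0, nat_lit 0, false, false⟩,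
 nat_lit 0, nat_lit 0, nat_lit 18385, nat_lit 0, nat_lit 5057, nat_lit 11699, nat_lit 0, nat_lit 0, nat_lit 0, nat_lit 1895, nat_lit 58, nat_lit 0, nat_lit 0, nat_lit 18347465102950, nat_lit 0, nat_lit 0, nat_lit 0, nat_lit 0, [],
 ⟨p069_k7, nat_lit 0, nat_lit 0, nat_lit 0, nat_lit 0, nat_lit 0, [nat_lit 3282000000, nat_lit 6250000000, nat_lit 9842000000], [], [nat_lit 20604065294, nat_lit 21377892416, nat_lit 20227379463, nat_lit 20918692598, nat_lit 22152446133, nat_lit 22878460598, nat_lit 21683310916, nat_lit 22400179626], nat_lit 0, nat_lit 0, nat_lit 0, nat_lit 0, nat_lit 0, nat_lit 0, [], [nat_lit 8, nat_lit 40, nat_lit 40, nat_lit 80]⟩, ⟨p069_k7, nat_lit 0, nat_lit 0, nat_lit 0, nat_lit 0, nat_lit 324422, [nat_lit 3978000000, nat_lit 7410000000, nat_lit 11466000000], [], [nat_lit 21554303633, nat_lit 22912916937, nat_lit 20558216340, nat_lit 21892750255, nat_lit 14227537989, nat_lit 15335213655, nat_lit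 14956088540, nat_lit 14469981428], nat_lit 1271250, nat_lit 1271250, nat_lit 382400, nat_lit 490000, nat_lit 0, nat_lit 1100001, [nat_lit 780000, nat_lit 1435000, nat_lit 1271250], [nat_lit 8, nat_lit 40, nat_lit 40, nat_lit 80]⟩,
 zbF0, [⟨nat_lit 0, nat_lit 100, nat_lit 100, nat_lit 85, nat_lit 1077887506⟩, ⟨nat_lit 16, nat_lit 100, nat_lit 94, nat_lit 92, nat_lit 688878014⟩]⟩
noncomputable def p069_l86 : Lf2 := ⟨nat_lit 0, nat_lit 10, [nat_lit 0, nat_lit 5, nat_lit 5, nat_lit 20], false, nat_lit 300, nat_lit 320, nat_lit 0, nat_lit 160, ⟨nat_lit 546, nat_lit 454, nat_lit 0, nat_lit 7, nat_lit 162, nat_lit 454, nat_lit 234, nat_lit 0, nat_lit 0, nat_lit 0, nat_lit 0, nat_lit 0, nat_lit 42342173, nat_lit 8828438, nat_lit 15829389, nat_lit 4825685, false, false⟩,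
 nat_lit 0, nat_lit 0, nat_lit 7435, nat_lit 0, nat_lit 4540, nat_lit 4731, nat_lit 0, nat_lit 0, nat_lit 0, nat_lit 617, nat_lit 0, nat_lit 0, nat_lit 0, nat_lit 0, nat_lit 0, nat_lit 181600, nat_lit 0, nat_lit 0, [(nat_lit 12, [(nat_lit 1, nat_lit 454)])],
 ⟨p069_k7, nat_lit 0, nat_lit 0, nat_lit 0, nat_lit 0, nat_lit 0, [nat_lit 2731025601, nat_lit 4647924801, nat_lit 6570657600], [], [nat_lit 19941440461, nat_lit 20595809551, nat_lit 19964484961, nat_lit 20588312761, nat_lit 21317901520, nat_lit 21996496720, nat_lit 21212128961, nat_lit 21801272061], nat_lit 0, nat_lit 0, nat_lit 0, nat_lit 0, nat_lit 0, nat_lit 0, [], [nat_lit 8, nat_lit 40, nat_lit 40, nat_lit 80]⟩, ⟨p069_k7, nat_lit 0, nat_lit 0, nat_lit 0, nat_lit 0, nat_lit 578014, [nat_lit 1791972000, nat_lit 3412500000, nat_lit 5373732000], [], [nat_lit 15195217200, nat_lit 13981578501, nat_lit 13211172713, nat_lit 13552922906, nat_lit 11065791492, nat_lit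 11429952423, nat_lit 12142354824, nat_lit 11152038114], nat_lit 1271250, nat_lit 1271250, nat_lit 490000, nat_lit 780000, nat_lit 0, nat_lit 1100001, [nat_lit 780000, nat_lit 1435000, nat_lit 1271250], [nat_lit 8, nat_lit 40, nat_lit 40, nat_lit 80]⟩,
 ⟨nat_lit 5244, nat_lit 5478, ⟨.ofNat (nat_lit 360628), .ofNat (nat_lit 435559), .ofNat (nat_lit 371306), .ofNat (nat_lit 446237), .ofNat (nat_lit 366027), .ofNat (nat_lit 439196), .ofNat (nat_lit 376720), .ofNat (nat_lit 449888)⟩, ⟨.ofNat (nat_lit 559189), .ofNat (nat_lit 596655), .ofNat (nat_lit 580546), .ofNat (nat_lit 618012), .ofNat (nat_lit 554614), .ofNat (nat_lit 591199), .ofNat (nat_lit 575999), .ofNat (nat_lit 612585)⟩⟩, [⟨nat_lit 0, nat_lit 100, nat_lit 100, nat_lit 90, nat_lit 108795781⟩, ⟨nat_lit 4, nat_lit 94, nat_lit 100, nat_lit 92, nat_lit 510110494⟩]⟩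
noncomputable def p069_l87 : Lf2 := ⟨nat_lit 0, nat_lit 10, [nat_lit 0, nat_lit 5, nat_lit 5, nat_lit 20], false, nat_lit 300, nat_lit 320, nat_lit 160, nat_lit 240, ⟨nat_lit 1000, nat_lit 0, nat_lit 0, nat_lit 0, nat_lit 0, nat_lit 0, nat_lit 0, nat_lit 0, nat_lit 0, nat_lit 0, nat_lit 0, nat_lit 0, nat_lit 0, nat_lit 0, nat_lit 0, nat_lit 0, false, false⟩,
 nat_lit 0, nat_lit 0, nat_lit 8639, nat_lit 0, nat_lit 4884, nat_lit 5497, nat_lit 0, nat_lit 0, nat_lit 0, nat_lit 1568, nat_lit 0, nat_lit 0, nat_lit 0, nat_lit 0, nat_lit 0, nat_lit 0, nat_lit 0, nat_lit 0, [],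
 ⟨p069_k14, nat_lit 0, nat_lit 0, nat_lit 0, nat_lit 0, nat_lit 0, [nat_lit 3282000000, nat_lit 4688000000, nat_lit 8885500000], [], [nat_lit 20456638148, nat_lit 21146747281, nat_lit 20201118496, nat_lit 20848192666, nat_lit 21917732596, nat_lit 22616529642, nat_lit 21569357056, nat_lit 22179386116], nat_lit 0, nat_lit 0, nat_lit 0, nat_lit 0, nat_lit 0, nat_lit 0, [], [nat_lit 160, nat_lit 40, nat_lit 20, nat_lit 40]⟩, ⟨p069_k14, nat_lit 0, nat_lit 0, nat_lit 0, nat_lit 0, nat_lit 578014, [nat_lit 3282000000, nat_lit 4688000000, nat_lit 8885500000], [], [nat_lit 27090096216, nat_lit 25671526104, nat_lit 20564434276, nat_lit 21101533892, nat_lit 23329452964, nat_lit 23414451140, nat_lit 26388092868, nat_lit 25110309721], nat_lit 1271250, nat_lit 1271250, nat_lit 382400, nat_lit 780000, nat_lit 1100001, nat_lit 1785000, [nat_lit 780000, nat_lit 1100000, nat_lit 1956250], [nat_lit 160, nat_lit 40, nat_lit 20, nat_lit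 40]⟩,
 zbF0, [⟨nat_lit 0, nat_lit 100, nat_lit 100, nat_lit 85, nat_lit 402004156⟩, ⟨nat_lit 16, nat_lit 100, nat_lit 88, nat_lit 94, nat_lit 663753445⟩]⟩
noncomputable def p069_l88 : Lf2 := ⟨nat_lit 0, nat_lit 10, [nat_lit 0, nat_lit 5, nat_lit 5, nat_lit 20], false, nat_lit 300, nat_lit 320, nat_lit 240, nat_lit 320, ⟨nat_lit 489, nat_lit 511, nat_lit 0, nat_lit 7, nat_lit 155, nat_lit 511, nat_lit 234, nat_lit 0, nat_lit 0, nat_lit 0, nat_lit 0, nat_lit 0, nat_lit 42778133, nat_lit 8292904, nat_lit 15928963, nat_lit 4759772, false, false⟩,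
 nat_lit 0, nat_lit 0, nat_lit 5100, nat_lit 0, nat_lit 4387, nat_lit 3245, nat_lit 0, nat_lit 0, nat_lit 0, nat_lit 844, nat_lit 0, nat_lit 0, nat_lit 0, nat_lit 0, nat_lit 0, nat_lit 204400, nat_lit 0, nat_lit 0, [(nat_lit 12, [(nat_lit 1, nat_lit 511)])],
 ⟨p069_k15, nat_lit 0, nat_lit 0, nat_lit 0, nat_lit 0, nat_lit 0, [nat_lit 2643965400, nat_lit 3091741101, nat_lit 4006555234, nat_lit 5692209900], [], [nat_lit 20026518130, nat_lit 20680298850, nat_lit 19915236228, nat_lit 20529164226, nat_lit 21485626528, nat_lit 22162205839, nat_lit 21211240808, nat_lit 21791094513], nat_lit 0, nat_lit 0, nat_lit 0, nat_lit 0, nat_lit 0, nat_lit 0, [], [nat_lit 148, nat_lit 40, nat_lit 20, nat_lit 40]⟩, ⟨p069_k15, nat_lit 0, nat_lit 0, nat_lit 0, nat_lit 0, nat_lit 532581, [nat_lit 1604898000, nat_lit 1939129500, nat_lit 2664805500, nat_lit 4345009500], [], [nat_lit 9464655297, nat_lit 9603592012, nat_lit 9302168676, nat_lit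 9431174752, nat_lit 11501562923, nat_lit 11642745933, nat_lit 11048020896, nat_lit 11152676959], nat_lit 1271250, nat_lit 1271250, nat_lit 382400, nat_lit 780000, nat_lit 1271250, nat_lit 1271250, [nat_lit 780000, nat_lit 936250, nat_lit 1271250, nat_lit 1271250], [nat_lit 148, nat_lit 40, nat_lit 20, nat_lit 40]⟩,
 ⟨nat_lit 5244, nat_lit 5478, ⟨.ofNat (nat_lit 330654), .ofNat (nat_lit 435559), .ofNat (nat_lit 335994), .ofNat (nat_lit 440898), .ofNat (nat_lit 336758), .ofNat (nat_lit 439196), .ofNat (nat_lit 342105), .ofNat (nat_lit 444542)⟩, ⟨.ofNat (nat_lit 559189), .ofNat (nat_lit 596655), .ofNat (nat_lit 580546), .ofNat (nat_lit 618012), .ofNat (nat_lit 554614), .ofNat (nat_lit 591199), .ofNat (nat_lit 575999), .ofNat (nat_lit 612585)⟩⟩, [⟨nat_lit 0, nat_lit 100, nat_lit 99, nat_lit 87, nat_lit 106912860⟩, ⟨nat_lit 16, nat_lit 100, nat_lit 94, nat_lit 92, nat_lit 297841458⟩, ⟨nat_lit 11, nat_lit 100, nat_lit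 91, nat_lit 91, nat_lit 298211394⟩]⟩
noncomputable def p069_l89 : Lf2 := ⟨nat_lit 0, nat_lit 10, [nat_lit 0, nat_lit 5, nat_lit 5, nat_lit 20], false, nat_lit 300, nat_lit 316, nat_lit 240, nat_lit 316, ⟨nat_lit 687, nat_lit 313, nat_lit 0, nat_lit 7, nat_lit 161, nat_lit 313, nat_lit 232, nat_lit 0, nat_lit 0, nat_lit 0, nat_lit 0, nat_lit 0, nat_lit 42591643, nat_lit 8738274, nat_lit 15670083, nat_lit 4800681, false, false⟩,
 nat_lit 0, nat_lit 0, nat_lit 6636, nat_lit 0, nat_lit 4658, nat_lit 4314, nat_lit 0, nat_lit 0, nat_lit 0, nat_lit 1496, nat_lit 0, nat_lit 0, nat_lit 0, nat_lit 4090633624930, nat_lit 0, nat_lit 125200, nat_lit 0, nat_lit 0, [(nat_lit 12, [(nat_lit 1, nat_lit 313)])],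
 ⟨p069_k16, nat_lit 0, nat_lit 0, nat_lit 0, nat_lit 0, nat_lit 0, [nat_lit 2891188200, nat_lit 3430301301, nat_lit 4565661034, nat_lit 6929531700], [], [nat_lit 20396995451, nat_lit 20731179707, nat_lit 20286441185, nat_lit 20602442017, nat_lit 21594919420, nat_lit 21945494853, nat_lit 21340476883, nat_lit 21642200038], nat_lit 0, nat_lit 0, nat_lit 0, nat_lit 0, nat_lit 0, nat_lit 0, [], [nat_lit 148, nat_lit 40, nat_lit 20, nat_lit 40]⟩, ⟨p069_k16, nat_lit 0, nat_lit 0, nat_lit 0, nat_lit 0, nat_lit 560640, [nat_lit 2254734000, nat_lit 2724298500, nat_lit 3743806500, nat_lit 6104338500], [], [nat_lit 13557313217, nat_lit 13732689668, nat_lit 13393251539, nat_lit 13557812654, nat_lit 15819783361, nat_lit 15984172876, nat_lit 15574531266, nat_lit 15730168630], nat_lit 1271250, nat_lit 1271250, nat_lit 435600, nat_lit 780000, nat_lit 1271250, nat_lit 1271250, [nat_lit 780000, nat_lit 936250, nat_lit 1271250, nat_lit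 1271250], [nat_lit 148, nat_lit 40, nat_lit 20, nat_lit 40]⟩,
 ⟨nat_lit 5244, nat_lit 5362, ⟨.ofNat (nat_lit 353861), .ofNat (nat_lit 442719), .ofNat (nat_lit 359203), .ofNat (nat_lit 448062), .ofNat (nat_lit 356739), .ofNat (nat_lit 444544), .ofNat (nat_lit 362085), .ofNat (nat_lit 449890)⟩, ⟨.ofNat (nat_lit 556905), .ofNat (nat_lit 586525), .ofNat (nat_lit 578274), .ofNat (nat_lit 607894), .ofNat (nat_lit 554614), .ofNat (nat_lit 583882), .ofNat (nat_lit 575999), .ofNat (nat_lit 605268)⟩⟩, [⟨nat_lit 0, nat_lit 100, nat_lit 100, nat_lit 90, nat_lit 121947770⟩, ⟨nat_lit 4, nat_lit 96, nat_lit 100, nat_lit 93, nat_lit 393504317⟩, ⟨nat_lit 11, nat_lit 100, nat_lit 91, nat_lit 90, nat_lit 385553438⟩]⟩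
noncomputable def p069_l90 : Lf2 := ⟨nat_lit 0, nat_lit 10, [nat_lit 0, nat_lit 5, nat_lit 5, nat_lit 20], false, nat_lit 300, nat_lit 320, nat_lit 0, nat_lit 320, ⟨nat_lit 0, nat_lit 1000, nat_lit 0, nat_lit 7, nat_lit 155, nat_lit 1000, nat_lit 234, nat_lit 0, nat_lit 0, nat_lit 0, nat_lit 0, nat_lit 0, nat_lit 42778133, nat_lit 8292904, nat_lit 15928963, nat_lit 4759772, false, false⟩,
 nat_lit 0, nat_lit 0, nat_lit 2830, nat_lit 0, nat_lit 3650, nat_lit 1800, nat_lit 0, nat_lit 0, nat_lit 0, nat_lit 186, nat_lit 140, nat_lit 0, nat_lit 0, nat_lit 0, nat_lit 0, nat_lit 383500, nat_lit 0, nat_lit 0, [(nat_lit 12, [(nat_lit 0, nat_lit 110), (nat_lit 1, nat_lit 890)])],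
 ⟨p069_k17, nat_lit 0, nat_lit 0, nat_lit 0, nat_lit 0, nat_lit 0, [nat_lit 1411528001, nat_lit 1972360001, nat_lit 2721704000, nat_lit 2751644000], [], [nat_lit 19793801211, nat_lit 20392729751, nat_lit 19855242352, nat_lit 20389317440, nat_lit 20993968242, nat_lit 21567788320, nat_lit 20954725601, nat_lit 21489832351], nat_lit 0, nat_lit 0, nat_lit 0, nat_lit 0, nat_lit 0, nat_lit 0, [], [nat_lit 206, nat_lit 40, nat_lit 40, nat_lit 80]⟩, ⟨p069_k7, nat_lit 0, nat_lit 0, nat_lit 485, nat_lit 0, nat_lit 532581, [nat_lit 1680000000, nat_lit 2800000000, nat_lit 3920000000], [], [nat_lit 5874574721, nat_lit 5651066710, nat_lit 5153673250, nat_lit 5184113050, nat_lit 4554667520, nat_lit 4352472080, nat_lit 5156144000, nat_lit 4957538300], nat_lit 1271250, nat_lit 1271250, nat_lit 382400, nat_lit 780000, nat_lit 0, nat_lit 2260000, [nat_lit 780000, nat_lit 1435000, nat_lit 1271250], [nat_lit 8, nat_lit 40, nat_lit 40,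 nat_lit 80, nat_lit 1, nat_lit 345, nat_lit 125, nat_lit 10]⟩,
 ⟨nat_lit 5244, nat_lit 5478, ⟨.ofNat (nat_lit 330654), .ofNat (nat_lit 435559), .ofNat (nat_lit 335994), .ofNat (nat_lit 440898), .ofNat (nat_lit 336758), .ofNat (nat_lit 439196), .ofNat (nat_lit 342105), .ofNat (nat_lit 444542)⟩, ⟨.ofNat (nat_lit 559189), .ofNat (nat_lit 596655), .ofNat (nat_lit 580546), .ofNat (nat_lit 618012), .ofNat (nat_lit 554614), .ofNat (nat_lit 591199), .ofNat (nat_lit 575999), .ofNat (nat_lit 612585)⟩⟩, [⟨nat_lit 16, nat_lit 100, nat_lit 88, nat_lit 94, nat_lit 201431163⟩, ⟨nat_lit 23, nat_lit 91, nat_lit 100, nat_lit 92, nat_lit 59370534⟩]⟩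
noncomputable def p069_l91 : Lf2 := ⟨nat_lit 0, nat_lit 10, [nat_lit 0, nat_lit 5, nat_lit 5, nat_lit 20], false, nat_lit 300, nat_lit 316, nat_lit 0, nat_lit 316, ⟨nat_lit 0, nat_lit 1000, nat_lit 0, nat_lit 7, nat_lit 161, nat_lit 1000, nat_lit 232, nat_lit 0, nat_lit 0, nat_lit 0, nat_lit 0, nat_lit 0, nat_lit 42591643, nat_lit 8738274, nat_lit 15670083, nat_lit 4800681, false, false⟩,
 nat_lit 0, nat_lit 0, nat_lit 3751, nat_lit 0, nat_lit 3899, nat_lit 2438, nat_lit 0, nat_lit 0, nat_lit 0, nat_lit 569, nat_lit 128, nat_lit 0, nat_lit 0, nat_lit 6901171158851, nat_lit 0, nat_lit 400000, nat_lit 0, nat_lit 0, [(nat_lit 12, [(nat_lit 1, nat_lit 1000)])],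
 ⟨p069_k10, nat_lit 0, nat_lit 0, nat_lit 0, nat_lit 0, nat_lit 0, [nat_lit 2068400000, nat_lit 2721200001, nat_lit 2642799999], [], [nat_lit 20006600622, nat_lit 20336862963, nat_lit 20037986900, nat_lit 20328545084, nat_lit 21064295468, nat_lit 21385665939, nat_lit 20956107147, nat_lit 21234308698], nat_lit 0, nat_lit 0, nat_lit 0, nat_lit 0, nat_lit 0, nat_lit 0, [], [nat_lit 8, nat_lit 40, nat_lit 40, nat_lit 80]⟩, ⟨p069_k10, nat_lit 0, nat_lit 0, nat_lit 491, nat_lit 0, nat_lit 560640, [nat_lit 1536000000, nat_lit 2560000000, nat_lit 3584000000], [], [nat_lit 4155397816, nat_lit 3841747897, nat_lit 1831068754, nat_lit 1898007701, nat_lit 2178746550, nat_lit 1905231341, nat_lit 2916890789, nat_lit 2647541098], nat_lit 1271250, nat_lit 1271250, nat_lit 435600, nat_lit 780000, nat_lit 0, nat_lit 2231750, [nat_lit 780000, nat_lit 1435000, nat_lit 1271250], [nat_lit 8, nat_lit 40, nat_lit 40, nat_lit 80, nat_lit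 1, nat_lit 345, nat_lit 125, nat_lit 10]⟩,
 ⟨nat_lit 5244, nat_lit 5362, ⟨.ofNat (nat_lit 353861), .ofNat (nat_lit 442719), .ofNat (nat_lit 359203), .ofNat (nat_lit 448062), .ofNat (nat_lit 356739), .ofNat (nat_lit 444544), .ofNat (nat_lit 362085), .ofNat (nat_lit 449890)⟩, ⟨.ofNat (nat_lit 556905), .ofNat (nat_lit 586525), .ofNat (nat_lit 578274), .ofNat (nat_lit 607894), .ofNat (nat_lit 554614), .ofNat (nat_lit 583882), .ofNat (nat_lit 575999), .ofNat (nat_lit 605268)⟩⟩, [⟨nat_lit 16, nat_lit 100, nat_lit 96, nat_lit 93, nat_lit 262929765⟩, ⟨nat_lit 23, nat_lit 94, nat_lit 100, nat_lit 95, nat_lit 36405768⟩]⟩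
noncomputable def p069_l92 : Lf2 := ⟨nat_lit 0, nat_lit 7, [nat_lit 80, nat_lit 5, nat_lit 5, nat_lit 20], false, nat_lit 280, nat_lit 336, nat_lit 0, nat_lit 160, ⟨nat_lit 1000, nat_lit 0, nat_lit 0, nat_lit 0, nat_lit 0, nat_lit 0, nat_lit 0, nat_lit 0, nat_lit 0, nat_lit 0, nat_lit 0, nat_lit 0, nat_lit 0, nat_lit 0, nat_lit 0, nat_lit 0, false, false⟩,
 nat_lit 0, nat_lit 0, nat_lit 15080, nat_lit 0, nat_lit 0, nat_lit 9596, nat_lit 0, nat_lit 0, nat_lit 444, nat_lit 1149, nat_lit 0, nat_lit 0, nat_lit 0, nat_lit 2482241210140, nat_lit 0, nat_lit 0, nat_lit 0, nat_lit 0, [],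
 ⟨p069_k18, nat_lit 0, nat_lit 0, nat_lit 0, nat_lit 0, nat_lit 0, [nat_lit 3282000000, nat_lit 6250000000, nat_lit 7968000000], [], [nat_lit 16522982800, nat_lit 16864363800, nat_lit 16825326000, nat_lit 17163558000, nat_lit 18430414881, nat_lit 18762144960, nat_lit 18715301600, nat_lit 19040556801], nat_lit 0, nat_lit 0, nat_lit 0, nat_lit 0, nat_lit 0, nat_lit 0, [], [nat_lit 18, nat_lit 40, nat_lit 40, nat_lit 80]⟩, ⟨p069_k18, nat_lit 0, nat_lit 0, nat_lit 276, nat_lit 0, nat_lit 252363, [nat_lit 3282000000, nat_lit 6250000000, nat_lit 7968000000], [], [nat_lit 21395090145, nat_lit 22460879348, nat_lit 20595579956, nat_lit 21679441020, nat_lit 16073990999, nat_lit 16814524580, nat_lit 16967394160, nat_lit 16158358312], nat_lit 1271250, nat_lit 1271250, nat_lit 382400, nat_lit 490000, nat_lit 0, nat_lit 1100001, [nat_lit 780000, nat_lit 1435000, nat_lit 1271250], [nat_lit 18, nat_lit 40, nat_lit 40, nat_lit 80,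 nat_lit 2, nat_lit 272, nat_lit 60, nat_lit 9]⟩,
 zbF0, [⟨nat_lit 0, nat_lit 100, nat_lit 100, nat_lit 85, nat_lit 715549497⟩, ⟨nat_lit 4, nat_lit 87, nat_lit 100, nat_lit 99, nat_lit 205580492⟩]⟩
noncomputable def p069_l93 : Lf2 := ⟨nat_lit 0, nat_lit 7, [nat_lit 80, nat_lit 5, nat_lit 5, nat_lit 20], false, nat_lit 280, nat_lit 336, nat_lit 160, nat_lit 300, ⟨nat_lit 1000, nat_lit 0, nat_lit 0, nat_lit 0, nat_lit 0, nat_lit 0, nat_lit 0, nat_lit 0, nat_lit 0, nat_lit 0, nat_lit 0, nat_lit 0, nat_lit 0, nat_lit 0, nat_lit 0, nat_lit 0, false, false⟩,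
 nat_lit 0, nat_lit 0, nat_lit 9098, nat_lit 0, nat_lit 3692, nat_lit 5789, nat_lit 0, nat_lit 0, nat_lit 103, nat_lit 994, nat_lit 0, nat_lit 0, nat_lit 0, nat_lit 439803195153, nat_lit 0, nat_lit 0, nat_lit 0, nat_lit 0, [],
 ⟨p069_k18, nat_lit 0, nat_lit 0, nat_lit 0, nat_lit 0, nat_lit 0, [nat_lit 3282000000, nat_lit 6250000000, nat_lit 7968000000], [], [nat_lit 18644862191, nat_lit 19279166471, nat_lit 18501421496, nat_lit 19126828332, nat_lit 22225339698, nat_lit 22818558209, nat_lit 21990072970, nat_lit 22530004081], nat_lit 0, nat_lit 0, nat_lit 0, nat_lit 0, nat_lit 0, nat_lit 0, [], [nat_lit 18, nat_lit 40, nat_lit 40, nat_lit 80]⟩, ⟨p069_k18, nat_lit 0, nat_lit 0, nat_lit 180, nat_lit 0, nat_lit 252363, [nat_lit 3282000000, nat_lit 6250000000, nat_lit 7968000000], [], [nat_lit 18046885090, nat_lit 18791648211, nat_lit 17775597248, nat_lit 18508468818, nat_lit 24696094939, nat_lit 25353799586, nat_lit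 24342633197, nat_lit 24923431930], nat_lit 1271250, nat_lit 1271250, nat_lit 382400, nat_lit 490000, nat_lit 1100001, nat_lit 2298750, [nat_lit 780000, nat_lit 1435000, nat_lit 1271250], [nat_lit 18, nat_lit 40, nat_lit 40, nat_lit 80, nat_lit 2, nat_lit 317, nat_lit 100, nat_lit 10]⟩,
 zbF0, [⟨nat_lit 0, nat_lit 100, nat_lit 100, nat_lit 90, nat_lit 466679963⟩, ⟨nat_lit 23, nat_lit 88, nat_lit 100, nat_lit 81, nat_lit 629546179⟩]⟩
noncomputable def p069_l94 : Lf2 := ⟨nat_lit 0, nat_lit 7, [nat_lit 80, nat_lit 5, nat_lit 5, nat_lit 20], false, nat_lit 280, nat_lit 336, nat_lit 0, nat_lit 160, ⟨nat_lit 1000, nat_lit 0, nat_lit 0, nat_lit 0, nat_lit 0, nat_lit 0, nat_lit 0, nat_lit 0, nat_lit 0, nat_lit 0, nat_lit 0, nat_lit 0, nat_lit 0, nat_lit 0, nat_lit 0, nat_lit 0, false, false⟩,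
 nat_lit 0, nat_lit 0, nat_lit 13588, nat_lit 0, nat_lit 0, nat_lit 8646, nat_lit 0, nat_lit 0, nat_lit 443, nat_lit 863, nat_lit 0, nat_lit 0, nat_lit 0, nat_lit 0, nat_lit 0, nat_lit 0, nat_lit 0, nat_lit 0, [],
 ⟨p069_k18, nat_lit 0, nat_lit 0, nat_lit 0, nat_lit 0, nat_lit 0, [nat_lit 3282000000, nat_lit 6250000000, nat_lit 7968000000], [], [nat_lit 16837326000, nat_lit 17175558000, nat_lit 17706468000, nat_lit 18035603500, nat_lit 18727301600, nat_lit 19042400801, nat_lit 19545952000, nat_lit 19864603001], nat_lit 0, nat_lit 0, nat_lit 0, nat_lit 0, nat_lit 0, nat_lit 0, [], [nat_lit 18, nat_lit 40, nat_lit 40, nat_lit 80]⟩, ⟨p069_k18, nat_lit 0, nat_lit 0, nat_lit 367, nat_lit 0, nat_lit 445463, [nat_lit 3282000000, nat_lit 6250000000, nat_lit 7968000000], [], [nat_lit 27840901968, nat_lit 25638641024, nat_lit 24331152844, nat_lit 25029426234, nat_lit 20319384040, nat_lit 20985492690, nat_lit 22279673008,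 nat_lit 20479266412], nat_lit 1271250, nat_lit 1271250, nat_lit 490000, nat_lit 780000, nat_lit 0, nat_lit 1100001, [nat_lit 780000, nat_lit 1435000, nat_lit 1271250], [nat_lit 18, nat_lit 40, nat_lit 40, nat_lit 80, nat_lit 2, nat_lit 289, nat_lit 75, nat_lit 10]⟩,
 zbF0, [⟨nat_lit 4, nat_lit 87, nat_lit 100, nat_lit 99, nat_lit 204803595⟩]⟩
noncomputable def p069_l95 : Lf2 := ⟨nat_lit 0, nat_lit 7, [nat_lit 80, nat_lit 5, nat_lit 5, nat_lit 20], false, nat_lit 280, nat_lit 336, nat_lit 160, nat_lit 240, ⟨nat_lit 113, nat_lit 887, nat_lit 0, nat_lit 7, nat_lit 162, nat_lit 887, nat_lit 242, nat_lit 0, nat_lit 0, nat_lit 0, nat_lit 0, nat_lit 0, nat_lit 41770494, nat_lit 8756585, nat_lit 16472921, nat_lit 4865892, false, false⟩,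
 nat_lit 0, nat_lit 0, nat_lit 1877, nat_lit 0, nat_lit 409, nat_lit 1194, nat_lit 0, nat_lit 0, nat_lit 316, nat_lit 112, nat_lit 0, nat_lit 0, nat_lit 0, nat_lit 9019035253045, nat_lit 0, nat_lit 354800, nat_lit 0, nat_lit 0, [(nat_lit 12, [(nat_lit 1, nat_lit 887)])],
 ⟨p069_k18, nat_lit 0, nat_lit 0, nat_lit 0, nat_lit 0, nat_lit 0, [nat_lit 2205536800, nat_lit 3119954400, nat_lit 3279318000], [], [nat_lit 17017228742, nat_lit 17387273989, nat_lit 17815755256, nat_lit 18174563706, nat_lit 19084305760, nat_lit 19427117997, nat_lit 19820519428, nat_lit 20153284853], nat_lit 0, nat_lit 0, nat_lit 0, nat_lit 0, nat_lit 0, nat_lit 0, [], [nat_lit 18, nat_lit 40, nat_lit 40, nat_lit 80]⟩, ⟨p069_k18, nat_lit 0, nat_lit 0, nat_lit 247, nat_lit 0, nat_lit 445463, [nat_lit 370866000, nat_lit 706250000, nat_lit 900384000], [], [nat_lit 1534209464, nat_lit 1637619565, nat_lit 1446087340, nat_lit 1543474346, nat_lit 1863203516,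 nat_lit 1963724946, nat_lit 1867518892, nat_lit 1854093870], nat_lit 1271250, nat_lit 1271250, nat_lit 490000, nat_lit 780000, nat_lit 1100001, nat_lit 1785000, [nat_lit 780000, nat_lit 1435000, nat_lit 1271250], [nat_lit 18, nat_lit 40, nat_lit 40, nat_lit 80, nat_lit 2, nat_lit 317, nat_lit 100, nat_lit 10]⟩,
 ⟨nat_lit 5244, nat_lit 5478, ⟨.ofNat (nat_lit 360628), .ofNat (nat_lit 435559), .ofNat (nat_lit 371306), .ofNat (nat_lit 446237), .ofNat (nat_lit 366027), .ofNat (nat_lit 439196), .ofNat (nat_lit 376720), .ofNat (nat_lit 449888)⟩, ⟨.ofNat (nat_lit 543079), .ofNat (nat_lit 647985), .ofNat (nat_lit 564436), .ofNat (nat_lit 669340), .ofNat (nat_lit 539414), .ofNat (nat_lit 641853), .ofNat (nat_lit 560799), .ofNat (nat_lit 663236)⟩⟩, [⟨nat_lit 0, nat_lit 100, nat_lit 100, nat_lit 90, nat_lit 74853380⟩]⟩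
noncomputable def p069_l96 : Lf2 := ⟨nat_lit 0, nat_lit 7, [nat_lit 80, nat_lit 5, nat_lit 5, nat_lit 20], false, nat_lit 280, nat_lit 336, nat_lit 240, nat_lit 336, ⟨nat_lit 255, nat_lit 745, nat_lit 0, nat_lit 7, nat_lit 162, nat_lit 745, nat_lit 242, nat_lit 0, nat_lit 0, nat_lit 0, nat_lit 0, nat_lit 0, nat_lit 41770494, nat_lit 8756585, nat_lit 16472921, nat_lit 4865892, false, false⟩,
 nat_lit 0, nat_lit 0, nat_lit 2669, nat_lit 0, nat_lit 1680, nat_lit 1698, nat_lit 0, nat_lit 0, nat_lit 211, nat_lit 430, nat_lit 0, nat_lit 0, nat_lit 0, nat_lit 9525935546765, nat_lit 0, nat_lit 298000, nat_lit 0, nat_lit 0, [(nat_lit 12, [(nat_lit 1, nat_lit 745)])],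
 ⟨p069_k19, nat_lit 0, nat_lit 0, nat_lit 0, nat_lit 0, nat_lit 0, [nat_lit 2351793000, nat_lit 3113666000, nat_lit 4032290667], [], [nat_lit 17524115880, nat_lit 17993319760, nat_lit 18106555720, nat_lit 18557840320, nat_lit 20193571528, nat_lit 20611102504, nat_lit 20674013224, nat_lit 21075204688], nat_lit 0, nat_lit 0, nat_lit 0, nat_lit 0, nat_lit 0, nat_lit 0, [], [nat_lit 36, nat_lit 40, nat_lit 20, nat_lit 40]⟩, ⟨p069_k19, nat_lit 0, nat_lit 0, nat_lit 268, nat_lit 0, nat_lit 445463, [nat_lit 836910000, nat_lit 1195440000, nat_lit 2031840000], [], [nat_lit 4832503868, nat_lit 4980128745, nat_lit 4788529464, nat_lit 4946977809, nat_lit 6315132159, nat_lit 6460185290, nat_lit 6201121673, nat_lit 6337797589], nat_lit 1271250, nat_lit 1271250, nat_lit 490000, nat_lit 780000, nat_lit 1271250, nat_lit 1271250, [nat_lit 780000, nat_lit 1100000, nat_lit 1785000], [nat_lit 36, nat_lit 40, nat_lit 40, nat_lit 80,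 nat_lit 7, nat_lit 238, nat_lit 30, nat_lit 7]⟩,
 ⟨nat_lit 5244, nat_lit 5478, ⟨.ofNat (nat_lit 360628), .ofNat (nat_lit 435559), .ofNat (nat_lit 371306), .ofNat (nat_lit 446237), .ofNat (nat_lit 366027), .ofNat (nat_lit 439196), .ofNat (nat_lit 376720), .ofNat (nat_lit 449888)⟩, ⟨.ofNat (nat_lit 543079), .ofNat (nat_lit 647985), .ofNat (nat_lit 564436), .ofNat (nat_lit 669340), .ofNat (nat_lit 539414), .ofNat (nat_lit 641853), .ofNat (nat_lit 560799), .ofNat (nat_lit 663236)⟩⟩, [⟨nat_lit 0, nat_lit 100, nat_lit 100, nat_lit 90, nat_lit 16058269⟩, ⟨nat_lit 11, nat_lit 100, nat_lit 94, nat_lit 95, nat_lit 157080153⟩]⟩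
noncomputable def p069_l97 : Lf2 := ⟨nat_lit 0, nat_lit 7, [nat_lit 80, nat_lit 5, nat_lit 5, nat_lit 20], false, nat_lit 280, nat_lit 336, nat_lit 0, nat_lit 300, ⟨nat_lit 1000, nat_lit 0, nat_lit 0, nat_lit 0, nat_lit 0, nat_lit 0, nat_lit 0, nat_lit 0, nat_lit 0, nat_lit 0, nat_lit 0, nat_lit 0, nat_lit 0, nat_lit 0, nat_lit 0, nat_lit 0, false, false⟩,
 nat_lit 0, nat_lit 0, nat_lit 10378, nat_lit 2544, nat_lit 4748, nat_lit 6604, nat_lit 0, nat_lit 0, nat_lit 0, nat_lit 1826, nat_lit 0, nat_lit 0, nat_lit 0, nat_lit 10262544033227, nat_lit 0, nat_lit 0, nat_lit 0, nat_lit 0, [],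
 ⟨p069_k20, nat_lit 0, nat_lit 0, nat_lit 0, nat_lit 0, nat_lit 0, [nat_lit 3282000000, nat_lit 3965500000, nat_lit 5449500000, nat_lit 7968000000], [], [nat_lit 19074098823, nat_lit 19433957187, nat_lit 18892155168, nat_lit 19246280252, nat_lit 23203133370, nat_lit 23507623046, nat_lit 22955322221, nat_lit 23255312959], nat_lit 0, nat_lit 0, nat_lit 0, nat_lit 0, nat_lit 0, nat_lit 0, [], [nat_lit 166, nat_lit 40, nat_lit 20, nat_lit 40]⟩, ⟨p069_k20, nat_lit 0, nat_lit 0, nat_lit 0, nat_lit 0, nat_lit 201334, [nat_lit 3282000000, nat_lit 3965500000, nat_lit 5449500000, nat_lit 7968000000], [], [nat_lit 18150194554, nat_lit 18691210930, nat_lit 17691322246, nat_lit 18223545346, nat_lit 21416413752, nat_lit 21868447313, nat_lit 20978907768, nat_lit 21323458363], nat_lit 1271250, nat_lit 1271250, nat_lit 382400, nat_lit 490000, nat_lit 0, nat_lit 2118750, [nat_lit 780000, nat_lit 936250, nat_lit 1271250, nat_lit 1271250],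 [nat_lit 166, nat_lit 40, nat_lit 20, nat_lit 40]⟩,
 zbF0, [⟨nat_lit 0, nat_lit 100, nat_lit 100, nat_lit 82, nat_lit 558839433⟩, ⟨nat_lit 16, nat_lit 100, nat_lit 80, nat_lit 100, nat_lit 350455285⟩, ⟨nat_lit 23, nat_lit 88, nat_lit 100, nat_lit 81, nat_lit 327670246⟩]⟩
noncomputable def p069_l98 : Lf2 := ⟨nat_lit 0, nat_lit 7, [nat_lit 80, nat_lit 5, nat_lit 5, nat_lit 20], false, nat_lit 280, nat_lit 332, nat_lit 0, nat_lit 300, ⟨nat_lit 1000, nat_lit 0, nat_lit 0, nat_lit 0, nat_lit 0, nat_lit 0, nat_lit 0, nat_lit 0, nat_lit 0, nat_lit 0, nat_lit 0, nat_lit 0, nat_lit 0, nat_lit 0, nat_lit 0, nat_lit 0, false, false⟩,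
 nat_lit 0, nat_lit 0, nat_lit 12126, nat_lit 0, nat_lit 4799, nat_lit 7716, nat_lit 0, nat_lit 0, nat_lit 0, nat_lit 1817, nat_lit 0, nat_lit 0, nat_lit 0, nat_lit 334929740519, nat_lit 0, nat_lit 0, nat_lit 0, nat_lit 0, [],
 ⟨p069_k21, nat_lit 0, nat_lit 0, nat_lit 0, nat_lit 0, nat_lit 0, [nat_lit 3282000000, nat_lit 3965500000, nat_lit 5449500000, nat_lit 7089500000], [], [nat_lit 19358261132, nat_lit 19718705929, nat_lit 19213455326, nat_lit 19569567268, nat_lit 23129679047, nat_lit 23467543357, nat_lit 22939739447, nat_lit 23245160370], nat_lit 0, nat_lit 0, nat_lit 0, nat_lit 0, nat_lit 0, nat_lit 0, [], [nat_lit 195, nat_lit 40, nat_lit 20, nat_lit 40]⟩, ⟨p069_k20, nat_lit 0, nat_lit 0, nat_lit 0, nat_lit 0, nat_lit 252363, [nat_lit 3282000000, nat_lit 3965500000, nat_lit 5449500000, nat_lit 7968000000], [], [nat_lit 18231600861, nat_lit 19426117962, nat_lit 17787903059, nat_lit 18967496859, nat_lit 22096792786,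 nat_lit 22969620010, nat_lit 22794661088, nat_lit 22447318890], nat_lit 1271250, nat_lit 1271250, nat_lit 408851, nat_lit 490000, nat_lit 0, nat_lit 2118750, [nat_lit 780000, nat_lit 936250, nat_lit 1271250, nat_lit 1271250], [nat_lit 166, nat_lit 40, nat_lit 20, nat_lit 40]⟩,
 zbF0, [⟨nat_lit 0, nat_lit 100, nat_lit 99, nat_lit 86, nat_lit 432047565⟩, ⟨nat_lit 16, nat_lit 99, nat_lit 82, nat_lit 100, nat_lit 347256485⟩, ⟨nat_lit 23, nat_lit 90, nat_lit 100, nat_lit 82, nat_lit 324809671⟩]⟩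
noncomputable def p069_l99 : Lf2 := ⟨nat_lit 0, nat_lit 7, [nat_lit 80, nat_lit 5, nat_lit 5, nat_lit 20], false, nat_lit 280, nat_lit 336, nat_lit 0, nat_lit 160, ⟨nat_lit 1000, nat_lit 0, nat_lit 0, nat_lit 0, nat_lit 0, nat_lit 0, nat_lit 0, nat_lit 0, nat_lit 0, nat_lit 0, nat_lit 0, nat_lit 0, nat_lit 0, nat_lit 0, nat_lit 0, nat_lit 0, false, false⟩,
 nat_lit 0, nat_lit 0, nat_lit 13588, nat_lit 0, nat_lit 4806, nat_lit 8646, nat_lit 0, nat_lit 0, nat_lit 0, nat_lit 863, nat_lit 0, nat_lit 0, nat_lit 0, nat_lit 0, nat_lit 0, nat_lit 0, nat_lit 0, nat_lit 0, [],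
 ⟨p069_k18, nat_lit 0, nat_lit 0, nat_lit 0, nat_lit 0, nat_lit 0, [nat_lit 3282000000, nat_lit 6250000000, nat_lit 7968000000], [], [nat_lit 19008462228, nat_lit 19720519326, nat_lit 19047829104, nat_lit 19725639904, nat_lit 22979487733, nat_lit 23583174738, nat_lit 22829456152, nat_lit 23405638041], nat_lit 0, nat_lit 0, nat_lit 0, nat_lit 0, nat_lit 0, nat_lit 0, [], [nat_lit 18, nat_lit 40, nat_lit 40, nat_lit 80]⟩, ⟨p069_k18, nat_lit 0, nat_lit 0, nat_lit 0, nat_lit 0, nat_lit 445463, [nat_lit 3282000000, nat_lit 6250000000, nat_lit 7968000000], [], [nat_lit 27840901968, nat_lit 25638641024, nat_lit 24331152844, nat_lit 25029426234, nat_lit 20319384040, nat_lit 20985492690, nat_lit 22279673008, nat_lit 20479266412], nat_lit 1271250, nat_lit 1271250, nat_lit 490000, nat_lit 780000, nat_lit 0, nat_lit 1100001, [nat_lit 780000, nat_lit 1435000, nat_lit 1271250], [nat_lit 18, nat_lit 40, nat_lit 40, nat_lit 80]⟩,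
 zbF0, [⟨nat_lit 16, nat_lit 100, nat_lit 87, nat_lit 99, nat_lit 608625843⟩]⟩
noncomputable def p069_l100 : Lf2 := ⟨nat_lit 0, nat_lit 7, [nat_lit 80, nat_lit 5, nat_lit 5, nat_lit 20], false, nat_lit 280, nat_lit 336, nat_lit 160, nat_lit 240, ⟨nat_lit 1000, nat_lit 0, nat_lit 0, nat_lit 0, nat_lit 0, nat_lit 0, nat_lit 0, nat_lit 0, nat_lit 0, nat_lit 0, nat_lit 0, nat_lit 0, nat_lit 0, nat_lit 0, nat_lit 0, nat_lit 0, false, false⟩,
 nat_lit 0, nat_lit 0, nat_lit 10880, nat_lit 0, nat_lit 4806, nat_lit 6923, nat_lit 0, nat_lit 0, nat_lit 0, nat_lit 1812, nat_lit 0, nat_lit 0, nat_lit 0, nat_lit 0, nat_lit 0, nat_lit 0, nat_lit 0, nat_lit 0, [],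
 ⟨p069_k19, nat_lit 0, nat_lit 0, nat_lit 0, nat_lit 0, nat_lit 0, [nat_lit 3282000000, nat_lit 4688000000, nat_lit 7968000000], [], [nat_lit 19008462228, nat_lit 19720519326, nat_lit 19047829104, nat_lit 19725639904, nat_lit 22979487733, nat_lit 23583174738, nat_lit 22829456152, nat_lit 23405638041], nat_lit 0, nat_lit 0, nat_lit 0, nat_lit 0, nat_lit 0, nat_lit 0, [], [nat_lit 36, nat_lit 40, nat_lit 40, nat_lit 80]⟩, ⟨p069_k19, nat_lit 0, nat_lit 0, nat_lit 0, nat_lit 0, nat_lit 445463, [nat_lit 3282000000, nat_lit 4688000000, nat_lit 7968000000], [], [nat_lit 23987957784, nat_lit 22212007517, nat_lit 16884156716, nat_lit 15932434324, nat_lit 20708655888, nat_lit 19077576319, nat_lit 23375017612, nat_lit 21765759339], nat_lit 1271250, nat_lit 1271250, nat_lit 490000, nat_lit 780000, nat_lit 1100001, nat_lit 1785000, [nat_lit 780000, nat_lit 1100000, nat_lit 1785000], [nat_lit 36, nat_lit 40, nat_lit 40, nat_lit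 80]⟩,
 zbF0, [⟨nat_lit 4, nat_lit 87, nat_lit 100, nat_lit 99, nat_lit 608625843⟩]⟩
noncomputable def p069_l101 : Lf2 := ⟨nat_lit 0, nat_lit 7, [nat_lit 80, nat_lit 5, nat_lit 5, nat_lit 20], false, nat_lit 280, nat_lit 336, nat_lit 240, nat_lit 336, ⟨nat_lit 1000, nat_lit 0, nat_lit 0, nat_lit 0, nat_lit 0, nat_lit 0, nat_lit 0, nat_lit 0, nat_lit 0, nat_lit 0, nat_lit 0, nat_lit 0, nat_lit 0, nat_lit 0, nat_lit 0, nat_lit 0, false, false⟩,
 nat_lit 0, nat_lit 0, nat_lit 10539, nat_lit 0, nat_lit 4806, nat_lit 6706, nat_lit 0, nat_lit 0, nat_lit 0, nat_lit 1702, nat_lit 0, nat_lit 0, nat_lit 0, nat_lit 0, nat_lit 0, nat_lit 0, nat_lit 0, nat_lit 0, [],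
 ⟨p069_k19, nat_lit 0, nat_lit 0, nat_lit 0, nat_lit 0, nat_lit 0, [nat_lit 3282000000, nat_lit 4688000000, nat_lit 7968000000], [], [nat_lit 19008462228, nat_lit 19720519326, nat_lit 19047829104, nat_lit 19725639904, nat_lit 22979487733, nat_lit 23583174738, nat_lit 22829456152, nat_lit 23405638041], nat_lit 0, nat_lit 0, nat_lit 0, nat_lit 0, nat_lit 0, nat_lit 0, [], [nat_lit 36, nat_lit 40, nat_lit 40, nat_lit 80]⟩, ⟨p069_k19, nat_lit 0, nat_lit 0, nat_lit 0, nat_lit 0, nat_lit 400987, [nat_lit 3282000000, nat_lit 4688000000, nat_lit 7968000000], [], [nat_lit 18776942816, nat_lit 19077903020, nat_lit 18647113648, nat_lit 18958994488, nat_lit 24700235581, nat_lit 24983636936, nat_lit 24244528234, nat_lit 24513449192], nat_lit 1271250, nat_lit 1271250, nat_lit 490000, nat_lit 780000, nat_lit 1271250, nat_lit 1271250, [nat_lit 780000, nat_lit 1100000, nat_lit 1785000], [nat_lit 36, nat_lit 40, nat_lit 40, nat_lit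 80]⟩,
 zbF0, [⟨nat_lit 16, nat_lit 100, nat_lit 87, nat_lit 99, nat_lit 11684698⟩, ⟨nat_lit 11, nat_lit 100, nat_lit 94, nat_lit 95, nat_lit 622075510⟩]⟩
noncomputable def p069_l102 : Lf2 := ⟨nat_lit 0, nat_lit 7, [nat_lit 80, nat_lit 5, nat_lit 5, nat_lit 20], false, nat_lit 280, nat_lit 332, nat_lit 240, nat_lit 332, ⟨nat_lit 1000, nat_lit 0, nat_lit 0, nat_lit 0, nat_lit 0, nat_lit 0, nat_lit 0, nat_lit 0, nat_lit 0, nat_lit 0, nat_lit 0, nat_lit 0, nat_lit 0, nat_lit 0, nat_lit 0, nat_lit 0, false, false⟩,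
 nat_lit 0, nat_lit 0, nat_lit 9710, nat_lit 0, nat_lit 4836, nat_lit 6313, nat_lit 0, nat_lit 0, nat_lit 0, nat_lit 3256, nat_lit 0, nat_lit 0, nat_lit 0, nat_lit 0, nat_lit 0, nat_lit 0, nat_lit 0, nat_lit 0, [],
 ⟨p069_k22, nat_lit 0, nat_lit 0, nat_lit 0, nat_lit 0, nat_lit 0, [nat_lit 3282000000, nat_lit 4688000000, nat_lit 7968000000], [], [nat_lit 19346026662, nat_lit 19703221956, nat_lit 19363012274, nat_lit 19703005924, nat_lit 22959403656, nat_lit 23266043194, nat_lit 22804261506, nat_lit 23096848471], nat_lit 0, nat_lit 0, nat_lit 0, nat_lit 0, nat_lit 0, nat_lit 0, [], [nat_lit 36, nat_lit 40, nat_lit 40, nat_lit 80]⟩, ⟨p069_k22, nat_lit 0, nat_lit 0, nat_lit 0, nat_lit 0, nat_lit 432049, [nat_lit 3282000000, nat_lit 4688000000, nat_lit 7968000000], [], [nat_lit 18582523460, nat_lit 18901286200, nat_lit 18517661074, nat_lit 18819563644, nat_lit 24212578883, nat_lit 24600628664, nat_lit 23563297882, nat_lit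 23933284836], nat_lit 1271250, nat_lit 1271250, nat_lit 490000, nat_lit 780000, nat_lit 1271250, nat_lit 1271250, [nat_lit 780000, nat_lit 1100000, nat_lit 1785000], [nat_lit 36, nat_lit 40, nat_lit 40, nat_lit 80]⟩,
 zbF0, [⟨nat_lit 4, nat_lit 88, nat_lit 100, nat_lit 99, nat_lit 7047120⟩, ⟨nat_lit 11, nat_lit 100, nat_lit 94, nat_lit 93, nat_lit 636882510⟩]⟩
noncomputable def p069_l103 : Lf2 := ⟨nat_lit 0, nat_lit 7, [nat_lit 80, nat_lit 5, nat_lit 5, nat_lit 20], false, nat_lit 280, nat_lit 336, nat_lit 0, nat_lit 160, ⟨nat_lit 0, nat_lit 1000, nat_lit 0, nat_lit 7, nat_lit 156, nat_lit 1000, nat_lit 242, nat_lit 0, nat_lit 0, nat_lit 0, nat_lit 0, nat_lit 0, nat_lit 42130448, nat_lit 8306900, nat_lit 16562652, nat_lit 4810862, false, false⟩,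
 nat_lit 0, nat_lit 0, nat_lit 100000, nat_lit 0, nat_lit 3630, nat_lit 63636, nat_lit 0, nat_lit 0, nat_lit 0, nat_lit 5251, nat_lit 4263, nat_lit 0, nat_lit 0, nat_lit 0, nat_lit 0, nat_lit 400000, nat_lit 0, nat_lit 0, [(nat_lit 12, [(nat_lit 1, nat_lit 1000)])],
 ⟨p069_k18, nat_lit 0, nat_lit 0, nat_lit 0, nat_lit 0, nat_lit 0, [nat_lit 2068400000, nat_lit 2721200001, nat_lit 2682000000], [], [nat_lit 18700346556, nat_lit 19329731757, nat_lit 18806799920, nat_lit 19399291920, nat_lit 22210674252, nat_lit 22750666339, nat_lit 22113195960, nat_lit 22623583001], nat_lit 0, nat_lit 0, nat_lit 0, nat_lit 0, nat_lit 0, nat_lit 0, [], [nat_lit 18, nat_lit 40, nat_lit 40, nat_lit 80]⟩, ⟨p069_k18, nat_lit 0, nat_lit 0, nat_lit 378, nat_lit 0, nat_lit 445463, [nat_lit 51156000000, nat_lit 85260000000, nat_lit 102312000000], [], [nat_lit 177481264935, nat_lit 161058531507, nat_lit 126944940684, nat_lit 129495217020, nat_lit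 90757743833, nat_lit 92873793560, nat_lit 76122882576, nat_lit 78300951948], nat_lit 1271250, nat_lit 1271250, nat_lit 382400, nat_lit 780000, nat_lit 0, nat_lit 1100001, [nat_lit 780000, nat_lit 1435000, nat_lit 1271250], [nat_lit 18, nat_lit 40, nat_lit 40, nat_lit 80, nat_lit 2, nat_lit 289, nat_lit 75, nat_lit 10]⟩,
 ⟨nat_lit 5244, nat_lit 5478, ⟨.ofNat (nat_lit 330654), .ofNat (nat_lit 435559), .ofNat (nat_lit 341333), .ofNat (nat_lit 446237), .ofNat (nat_lit 336758), .ofNat (nat_lit 439196), .ofNat (nat_lit 347451), .ofNat (nat_lit 449888)⟩, ⟨.ofNat (nat_lit 543079), .ofNat (nat_lit 647985), .ofNat (nat_lit 564436), .ofNat (nat_lit 669340), .ofNat (nat_lit 539414), .ofNat (nat_lit 641853), .ofNat (nat_lit 560799), .ofNat (nat_lit 663236)⟩⟩, [⟨nat_lit 0, nat_lit 100, nat_lit 100, nat_lit 90, nat_lit 1401498156⟩, ⟨nat_lit 16, nat_lit 100, nat_lit 87, nat_lit 99, nat_lit 247077382⟩]⟩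
noncomputable def p069_l104 : Lf2 := ⟨nat_lit 0, nat_lit 7, [nat_lit 80, nat_lit 5, nat_lit 5, nat_lit 20], false, nat_lit 280, nat_lit 336, nat_lit 160, nat_lit 336, ⟨nat_lit 0, nat_lit 1000, nat_lit 0, nat_lit 7, nat_lit 156, nat_lit 1000, nat_lit 242, nat_lit 0, nat_lit 0, nat_lit 0, nat_lit 0, nat_lit 0, nat_lit 42130448, nat_lit 8306900, nat_lit 16562652, nat_lit 4810862, false, false⟩,
 nat_lit 0, nat_lit 0, nat_lit 100000, nat_lit 0, nat_lit 42648, nat_lit 63636, nat_lit 0, nat_lit 3472, nat_lit 0, nat_lit 6390, nat_lit 4583, nat_lit 0, nat_lit 0, nat_lit 0, nat_lit 0, nat_lit 400000, nat_lit 0, nat_lit 0, [(nat_lit 12, [(nat_lit 1, nat_lit 1000)])],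
 ⟨p069_k18, nat_lit 0, nat_lit 0, nat_lit 0, nat_lit 0, nat_lit 0, [nat_lit 43732400000, nat_lit 72161200000, nat_lit 86010000000], [], [nat_lit 39543608218, nat_lit 43268681538, nat_lit 28202289632, nat_lit 31625537532, nat_lit 62330610261, nat_lit 65619650976, nat_lit 47276171616, nat_lit 49969537721], nat_lit 0, nat_lit 0, nat_lit 0, nat_lit 0, nat_lit 0, nat_lit 0, [], [nat_lit 18, nat_lit 40, nat_lit 40, nat_lit 80]⟩, ⟨p069_k18, nat_lit 0, nat_lit 0, nat_lit 282, nat_lit 0, nat_lit 445463, [nat_lit 54996000000, nat_lit 91660000000, nat_lit 109992000000], [], [nat_lit 71121069612, nat_lit 74322477112, nat_lit 56594492960, nat_lit 59885937788, nat_lit 97720627407, nat_lit 99514765799, nat_lit 79825145668, nat_lit 81402529381], nat_lit 1271250, nat_lit 1271250, nat_lit 382400, nat_lit 780000, nat_lit 1100001, nat_lit 2607000, [nat_lit 780000, nat_lit 1435000, nat_lit 1271250], [nat_lit 18, nat_lit 40, nat_lit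 40, nat_lit 80, nat_lit 2, nat_lit 345, nat_lit 125, nat_lit 11]⟩,
 ⟨nat_lit 5244, nat_lit 5478, ⟨.ofNat (nat_lit 330654), .ofNat (nat_lit 435559), .ofNat (nat_lit 341333), .ofNat (nat_lit 446237), .ofNat (nat_lit 336758), .ofNat (nat_lit 439196), .ofNat (nat_lit 347451), .ofNat (nat_lit 449888)⟩, ⟨.ofNat (nat_lit 543079), .ofNat (nat_lit 647985), .ofNat (nat_lit 564436), .ofNat (nat_lit 669340), .ofNat (nat_lit 539414), .ofNat (nat_lit 641853), .ofNat (nat_lit 560799), .ofNat (nat_lit 663236)⟩⟩, [⟨nat_lit 16, nat_lit 100, nat_lit 87, nat_lit 99, nat_lit 193532244⟩, ⟨nat_lit 23, nat_lit 93, nat_lit 100, nat_lit 93, nat_lit 3356290354⟩]⟩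
noncomputable def p069_l105 : Lf2 := ⟨nat_lit 1, nat_lit 10, [nat_lit 0, nat_lit 5, nat_lit 5, nat_lit 20], false, nat_lit 280, nat_lit 336, nat_lit 0, nat_lit 336, zbN0,
 nat_lit 0, nat_lit 0, nat_lit 0, nat_lit 0, nat_lit 0, nat_lit 0, nat_lit 0, nat_lit 0, nat_lit 0, nat_lit 0, nat_lit 0, nat_lit 0, nat_lit 0, nat_lit 0, nat_lit 0, nat_lit 0, nat_lit 0, nat_lit 0, [],
 C1.Rw.none, C1.Rw.none,
 zbF0, []⟩
noncomputable def p069_l106 : Lf2 := ⟨nat_lit 2, nat_lit 10, [nat_lit 0, nat_lit 5, nat_lit 5, nat_lit 20], true, nat_lit 280, nat_lit 336, nat_lit 0, nat_lit 336, zbN0,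
 nat_lit 0, nat_lit 0, nat_lit 0, nat_lit 0, nat_lit 0, nat_lit 0, nat_lit 0, nat_lit 0, nat_lit 0, nat_lit 0, nat_lit 0, nat_lit 0, nat_lit 0, nat_lit 0, nat_lit 0, nat_lit 0, nat_lit 0, nat_lit 0, [],
 ⟨p069_k9, nat_lit 0, nat_lit 0, nat_lit 0, nat_lit 0, nat_lit 0, [], [], [], nat_lit 0, nat_lit 0, nat_lit 0, nat_lit 0, nat_lit 0, nat_lit 0, [], [nat_lit 82, nat_lit 40, nat_lit 40, nat_lit 80]⟩, C1.Rw.none,
 zbF0, []⟩
noncomputable def p069_l107 : Lf2 := ⟨nat_lit 2, nat_lit 10, [nat_lit 0, nat_lit 5, nat_lit 5, nat_lit 20], true, nat_lit 280, nat_lit 336, nat_lit 0, nat_lit 336, zbN0,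
 nat_lit 0, nat_lit 0, nat_lit 0, nat_lit 0, nat_lit 0, nat_lit 0, nat_lit 0, nat_lit 0, nat_lit 0, nat_lit 0, nat_lit 0, nat_lit 0, nat_lit 0, nat_lit 0, nat_lit 0, nat_lit 0, nat_lit 0, nat_lit 0, [],
 ⟨p069_k23, nat_lit 0, nat_lit 0, nat_lit 71, nat_lit 0, nat_lit 0, [], [], [], nat_lit 0, nat_lit 0, nat_lit 0, nat_lit 0, nat_lit 0, nat_lit 0, [], [nat_lit 42, nat_lit 40, nat_lit 40, nat_lit 80, nat_lit 13, nat_lit 238, nat_lit 30, nat_lit 6]⟩, C1.Rw.none,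
 zbF0, []⟩
noncomputable def b_V_700_700_20_3 : St := ⟨true, nat_lit 0, nat_lit 1, nat_lit 1, nat_lit 120, nat_lit 280, nat_lit 290, nat_lit 280, nat_lit 290, nat_lit 64, nat_lit 120, nat_lit 80, nat_lit 120, nat_lit 280, nat_lit 336, nat_lit 0, nat_lit 336, nat_lit 0, nat_lit 40, nat_lit 0, nat_lit 0, nat_lit 0, nat_lit 0⟩
theorem d_V_700_700_20_3 (h : EB TB.env) : Dead b_V_700_700_20_3 := chkB_sound0 h (T :=
(.spl (nat_lit 7) (nat_lit 600)
(.spl (nat_lit 7) (nat_lit 300)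
(.leaf p069_l82)
(.spl (nat_lit 7) (nat_lit 460)
(.spl (nat_lit 3) (nat_lit 100)
(.trX (nat_lit 16) (nat_lit 100) (nat_lit 88) (nat_lit 94) (nat_lit 320) (.trX (nat_lit 19) (nat_lit 100) (nat_lit 88) (nat_lit 94) (nat_lit 320) (.spl (nat_lit 4) (nat_lit 300)
(.leaf p069_l83)
(.spl (nat_lit 8) (nat_lit 800)
(.spl (nat_lit 8) (nat_lit 400)
(.leaf p069_l84)
(.spl (nat_lit 5) (nat_lit 160)
(.spl (nat_lit 2) (nat_lit 80)
(.leaf p069_l85)
(.leaf p069_l86))
(.spl (nat_lit 5) (nat_lit 240)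
(.leaf p069_l87)
(.spl (nat_lit 1) (nat_lit 285)
(.leaf p069_l88)
(.ord (.trZ (nat_lit 0) (nat_lit 100) (nat_lit 100) (nat_lit 85) (nat_lit 72) (.trX (nat_lit 16) (nat_lit 100) (nat_lit 91) (nat_lit 96) (nat_lit 316) (.trX (nat_lit 19) (nat_lit 100) (nat_lit 91) (nat_lit 96) (nat_lit 316) (.leaf p069_l89)))))))))
(.spl (nat_lit 1) (nat_lit 285)
(.leaf p069_l90)
(.ord (.trZ (nat_lit 0) (nat_lit 100) (nat_lit 100) (nat_lit 85) (nat_lit 72) (.trX (nat_lit 16) (nat_lit 100) (nat_lit 91) (nat_lit 96) (nat_lit 316) (.trX (nat_lit 19) (nat_lit 100) (nat_lit 91) (nat_lit 96) (nat_lit 316) (.leaf p069_l91))))))))))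
(.spl (nat_lit 6) (nat_lit 28)
(.spl (nat_lit 7) (nat_lit 380)
(.spl (nat_lit 2) (nat_lit 80)
(.trX (nat_lit 23) (nat_lit 100) (nat_lit 95) (nat_lit 87) (nat_lit 300) (.spl (nat_lit 5) (nat_lit 160)
(.leaf p069_l92)
(.leaf p069_l93)))
(.spl (nat_lit 5) (nat_lit 160)
(.leaf p069_l94)
(.spl (nat_lit 5) (nat_lit 240)
(.leaf p069_l95)
(.leaf p069_l96))))
(.spl (nat_lit 8) (nat_lit 800)
(.spl (nat_lit 2) (nat_lit 80)
(.trX (nat_lit 23) (nat_lit 100) (nat_lit 95) (nat_lit 87) (nat_lit 300) (.spl (nat_lit 0) (nat_lit 285)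
(.ord (.leaf p069_l97))
(.trZ (nat_lit 0) (nat_lit 100) (nat_lit 99) (nat_lit 82) (nat_lit 68) (.trX (nat_lit 16) (nat_lit 99) (nat_lit 82) (nat_lit 100) (nat_lit 332) (.leaf p069_l98)))))
(.spl (nat_lit 5) (nat_lit 160)
(.leaf p069_l99)
(.spl (nat_lit 5) (nat_lit 240)
(.leaf p069_l100)
(.spl (nat_lit 1) (nat_lit 285)
(.leaf p069_l101)
(.ord (.trX (nat_lit 16) (nat_lit 99) (nat_lit 82) (nat_lit 100) (nat_lit 332) (.trX (nat_lit 19) (nat_lit 99) (nat_lit 82) (nat_lit 100) (nat_lit 332) (.leaf p069_l102))))))))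
(.spl (nat_lit 5) (nat_lit 160)
(.leaf p069_l103)
(.leaf p069_l104))))
(.leaf p069_l105)))
(.leaf p069_l106)))
(.leaf p069_l107))) (by decide +kernel)
noncomputable def p069_l108 : Lf2 := ⟨nat_lit 0, nat_lit 10, [nat_lit 0, nat_lit 5, nat_lit 5, nat_lit 20], true, nat_lit 240, nat_lit 280, nat_lit 0, nat_lit 336, ⟨nat_lit 0, nat_lit 1000, nat_lit 0, nat_lit 7, nat_lit 160, nat_lit 1000, nat_lit 201, nat_lit 0, nat_lit 0, nat_lit 0, nat_lit 0, nat_lit 0, nat_lit 45246729, nat_lit 8967287, nat_lit 12785984, nat_lit 4567360, false, false⟩,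
 nat_lit 0, nat_lit 0, nat_lit 0, nat_lit 2882, nat_lit 4265, nat_lit 0, nat_lit 0, nat_lit 0, nat_lit 0, nat_lit 0, nat_lit 0, nat_lit 0, nat_lit 0, nat_lit 0, nat_lit 0, nat_lit 250000, nat_lit 0, nat_lit 0, [(nat_lit 12, [(nat_lit 0, nat_lit 1000)])],
 ⟨p069_k11, nat_lit 0, nat_lit 0, nat_lit 55, nat_lit 0, nat_lit 0, [nat_lit 2364000000, nat_lit 2875200000, nat_lit 3241600000], [], [nat_lit 16736947273, nat_lit 17483096129, nat_lit 16859177785, nat_lit 17563853810, nat_lit 19225656642, nat_lit 19970585082, nat_lit 19215806010, nat_lit 19854367260], nat_lit 0, nat_lit 0, nat_lit 0, nat_lit 0, nat_lit 0, nat_lit 0, [], [nat_lit 18, nat_lit 40, nat_lit 40, nat_lit 80, nat_lit 2, nat_lit 238, nat_lit 30, nat_lit 7]⟩, C1.Rw.none,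
 ⟨nat_lit 5000, nat_lit 5245, ⟨.ofNat (nat_lit 351391), .ofNat (nat_lit 439194), .ofNat (nat_lit 356737), .ofNat (nat_lit 444540), .ofNat (nat_lit 357140), .ofNat (nat_lit 442852), .ofNat (nat_lit 362497), .ofNat (nat_lit 448209)⟩, ⟨.ofNat (nat_lit 444857), .ofNat (nat_lit 518028), .ofNat (nat_lit 487628), .ofNat (nat_lit 560799), .ofNat (nat_lit 442856), .ofNat (nat_lit 514284), .ofNat (nat_lit 485713), .ofNat (nat_lit 557141)⟩⟩, [⟨nat_lit 0, nat_lit 100, nat_lit 97, nat_lit 87, nat_lit 119557019⟩]⟩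
noncomputable def p069_l109 : Lf2 := ⟨nat_lit 0, nat_lit 10, [nat_lit 0, nat_lit 5, nat_lit 5, nat_lit 20], true, nat_lit 240, nat_lit 280, nat_lit 0, nat_lit 332, ⟨nat_lit 0, nat_lit 1000, nat_lit 0, nat_lit 7, nat_lit 164, nat_lit 1000, nat_lit 201, nat_lit 0, nat_lit 0, nat_lit 0, nat_lit 0, nat_lit 0, nat_lit 44994119, nat_lit 9256691, nat_lit 12749190, nat_lit 4602633, false, false⟩,
 nat_lit 0, nat_lit 0, nat_lit 0, nat_lit 2874, nat_lit 4289, nat_lit 0, nat_lit 0, nat_lit 0, nat_lit 0, nat_lit 0, nat_lit 0, nat_lit 0, nat_lit 0, nat_lit 0, nat_lit 0, nat_lit 250000, nat_lit 0, nat_lit 0, [(nat_lit 12, [(nat_lit 0, nat_lit 1000)])],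
 ⟨p069_k11, nat_lit 0, nat_lit 0, nat_lit 52, nat_lit 0, nat_lit 0, [nat_lit 2364000000, nat_lit 2875200000, nat_lit 3241600000], [], [nat_lit 16670401900, nat_lit 17415904457, nat_lit 16835023441, nat_lit 17541724706, nat_lit 19156948509, nat_lit 19901259229, nat_lit 19197698826, nat_lit 19838001276], nat_lit 0, nat_lit 0, nat_lit 0, nat_lit 0, nat_lit 0, nat_lit 0, [], [nat_lit 18, nat_lit 40, nat_lit 40, nat_lit 80, nat_lit 2, nat_lit 238, nat_lit 30, nat_lit 7]⟩, C1.Rw.none,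
 ⟨nat_lit 5000, nat_lit 5245, ⟨.ofNat (nat_lit 364054), .ofNat (nat_lit 444540), .ofNat (nat_lit 369400), .ofNat (nat_lit 449886), .ofNat (nat_lit 369640), .ofNat (nat_lit 448209), .ofNat (nat_lit 374996), .ofNat (nat_lit 453565)⟩, ⟨.ofNat (nat_lit 444857), .ofNat (nat_lit 518028), .ofNat (nat_lit 487628), .ofNat (nat_lit 560799), .ofNat (nat_lit 442856), .ofNat (nat_lit 514284), .ofNat (nat_lit 485713), .ofNat (nat_lit 557141)⟩⟩, [⟨nat_lit 0, nat_lit 100, nat_lit 98, nat_lit 90, nat_lit 114361260⟩]⟩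
noncomputable def p069_l110 : Lf2 := ⟨nat_lit 0, nat_lit 10, [nat_lit 0, nat_lit 5, nat_lit 5, nat_lit 20], false, nat_lit 240, nat_lit 280, nat_lit 0, nat_lit 328, ⟨nat_lit 133, nat_lit 867, nat_lit 0, nat_lit 7, nat_lit 161, nat_lit 867, nat_lit 201, nat_lit 0, nat_lit 0, nat_lit 0, nat_lit 0, nat_lit 0, nat_lit 45175453, nat_lit 9048868, nat_lit 12775679, nat_lit 4577407, false, false⟩,
 nat_lit 0, nat_lit 0, nat_lit 2110, nat_lit 0, nat_lit 4490, nat_lit 1401, nat_lit 0, nat_lit 0, nat_lit 0, nat_lit 0, nat_lit 0, nat_lit 0, nat_lit 0, nat_lit 3076610732133, nat_lit 0, nat_lit 216750, nat_lit 0, nat_lit 0, [(nat_lit 12, [(nat_lit 0, nat_lit 867)])],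
 ⟨p069_k11, nat_lit 0, nat_lit 0, nat_lit 49, nat_lit 0, nat_lit 0, [nat_lit 2486094000, nat_lit 3324048401, nat_lit 3865024199], [], [nat_lit 16574562720, nat_lit 17335403400, nat_lit 16664693765, nat_lit 17406945430, nat_lit 19169289040, nat_lit 19929506640, nat_lit 19137478725, nat_lit 19879534875], nat_lit 0, nat_lit 0, nat_lit 0, nat_lit 0, nat_lit 0, nat_lit 0, [], [nat_lit 18, nat_lit 40, nat_lit 40, nat_lit 80, nat_lit 2, nat_lit 232, nat_lit 25, nat_lit 7]⟩, ⟨p069_k11, nat_lit 0, nat_lit 0, nat_lit 363, nat_lit 0, nat_lit 426895, [nat_lit 436506000, nat_lit 831250000, nat_lit 1059744000], [], [nat_lit 3372209588, nat_lit 3566014480, nat_lit 3311376111, nat_lit 3488378648, nat_lit 3744541267, nat_lit 3846869684, nat_lit 3928442707, nat_lit 3744916425], nat_lit 1271250, nat_lit 1271250, nat_lit 490000, nat_lit 631250, nat_lit 0, nat_lit 2316500, [nat_lit 780000, nat_lit 1435000, nat_lit 1271250], [nat_lit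 18, nat_lit 40, nat_lit 40, nat_lit 80, nat_lit 2, nat_lit 345, nat_lit 125, nat_lit 11]⟩,
 ⟨nat_lit 5000, nat_lit 5245, ⟨.ofNat (nat_lit 376717), .ofNat (nat_lit 413302), .ofNat (nat_lit 387409), .ofNat (nat_lit 423993), .ofNat (nat_lit 382139), .ofNat (nat_lit 417852), .ofNat (nat_lit 392852), .ofNat (nat_lit 428565)⟩, ⟨.ofNat (nat_lit 444857), .ofNat (nat_lit 518028), .ofNat (nat_lit 487628), .ofNat (nat_lit 560799), .ofNat (nat_lit 442856), .ofNat (nat_lit 514284), .ofNat (nat_lit 485713), .ofNat (nat_lit 557141)⟩⟩, [⟨nat_lit 0, nat_lit 100, nat_lit 100, nat_lit 95, nat_lit 170486413⟩, ⟨nat_lit 11, nat_lit 100, nat_lit 100, nat_lit 95, nat_lit 30779509⟩]⟩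
noncomputable def p069_l111 : Lf2 := ⟨nat_lit 0, nat_lit 10, [nat_lit 0, nat_lit 5, nat_lit 5, nat_lit 20], false, nat_lit 240, nat_lit 280, nat_lit 0, nat_lit 328, ⟨nat_lit 77, nat_lit 923, nat_lit 0, nat_lit 7, nat_lit 176, nat_lit 923, nat_lit 201, nat_lit 0, nat_lit 0, nat_lit 0, nat_lit 0, nat_lit 0, nat_lit 44150374, nat_lit 10228740, nat_lit 12620886, nat_lit 4713861, false, false⟩,
 nat_lit 0, nat_lit 0, nat_lit 1167, nat_lit 0, nat_lit 4372, nat_lit 775, nat_lit 0, nat_lit 0, nat_lit 0, nat_lit 11, nat_lit 0, nat_lit 0, nat_lit 0, nat_lit 1824909745706, nat_lit 0, nat_lit 230750, nat_lit 0, nat_lit 0, [(nat_lit 12, [(nat_lit 0, nat_lit 923)])],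
 ⟨p069_k11, nat_lit 0, nat_lit 0, nat_lit 40, nat_lit 0, nat_lit 0, [nat_lit 2434686000, nat_lit 3135059600, nat_lit 3602529800], [], [nat_lit 16722660142, nat_lit 17454597604, nat_lit 16822175668, nat_lit 17535880888, nat_lit 19164602380, nat_lit 19826914068, nat_lit 19205764148, nat_lit 19852088248], nat_lit 0, nat_lit 0, nat_lit 0, nat_lit 0, nat_lit 0, nat_lit 0, [], [nat_lit 18, nat_lit 40, nat_lit 40, nat_lit 80, nat_lit 2, nat_lit 238, nat_lit 30, nat_lit 7]⟩, ⟨p069_k11, nat_lit 0, nat_lit 0, nat_lit 502, nat_lit 0, nat_lit 749131, [nat_lit 252714000, nat_lit 481250000, nat_lit 613536000], [], [nat_lit 2239261849, nat_lit 2038956124, nat_lit 1936913571, nat_lit 1980843928, nat_lit 2307757294, nat_lit 2136067049, nat_lit 2470226922, nat_lit 2299626559], nat_lit 1271250, nat_lit 1271250, nat_lit 631250, nat_lit 780000, nat_lit 0, nat_lit 2316500, [nat_lit 780000, nat_lit 1435000, nat_lit 1271250], [nat_lit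 18, nat_lit 40, nat_lit 40, nat_lit 80, nat_lit 2, nat_lit 345, nat_lit 125, nat_lit 11]⟩,
 ⟨nat_lit 5000, nat_lit 5245, ⟨.ofNat (nat_lit 413302), .ofNat (nat_lit 449886), .ofNat (nat_lit 423993), .ofNat (nat_lit 460577), .ofNat (nat_lit 417852), .ofNat (nat_lit 453565), .ofNat (nat_lit 428565), .ofNat (nat_lit 464278)⟩, ⟨.ofNat (nat_lit 444857), .ofNat (nat_lit 518028), .ofNat (nat_lit 487628), .ofNat (nat_lit 560799), .ofNat (nat_lit 442856), .ofNat (nat_lit 514284), .ofNat (nat_lit 485713), .ofNat (nat_lit 557141)⟩⟩, [⟨nat_lit 19, nat_lit 97, nat_lit 84, nat_lit 100, nat_lit 16363012⟩]⟩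
noncomputable def b_V_700_700_20_4 : St := ⟨true, nat_lit 0, nat_lit 1, nat_lit 1, nat_lit 120, nat_lit 290, nat_lit 300, nat_lit 280, nat_lit 300, nat_lit 72, nat_lit 120, nat_lit 80, nat_lit 120, nat_lit 240, nat_lit 280, nat_lit 0, nat_lit 336, nat_lit 0, nat_lit 40, nat_lit 0, nat_lit 0, nat_lit 0, nat_lit 0⟩
theorem d_V_700_700_20_4 (h : EB TB.env) : Dead b_V_700_700_20_4 := chkB_sound0 h (T :=
(.spl (nat_lit 1) (nat_lit 290)
(.spl (nat_lit 1) (nat_lit 285)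
(.leaf p069_l108)
(.trZ (nat_lit 0) (nat_lit 100) (nat_lit 99) (nat_lit 87) (nat_lit 76) (.trX (nat_lit 19) (nat_lit 99) (nat_lit 82) (nat_lit 100) (nat_lit 332) (.leaf p069_l109))))
(.trZ (nat_lit 0) (nat_lit 100) (nat_lit 100) (nat_lit 90) (nat_lit 80) (.trX (nat_lit 19) (nat_lit 97) (nat_lit 84) (nat_lit 100) (nat_lit 328) (.spl (nat_lit 2) (nat_lit 100)
(.leaf p069_l110)
(.leaf p069_l111)))))) (by decide +kernel)
noncomputable def p069_l112 : Lf2 := ⟨nat_lit 0, nat_lit 10, [nat_lit 0, nat_lit 5, nat_lit 5, nat_lit 20], false, nat_lit 280, nat_lit 300, nat_lit 0, nat_lit 160, ⟨nat_lit 103, nat_lit 897, nat_lit 0, nat_lit 7, nat_lit 163, nat_lit 897, nat_lit 222, nat_lit 0, nat_lit 0, nat_lit 0, nat_lit 0, nat_lit 0, nat_lit 43261814, nat_lit 9030469, nat_lit 14707717, nat_lit 4758923, false, false⟩,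
 nat_lit 0, nat_lit 0, nat_lit 1552, nat_lit 0, nat_lit 3258, nat_lit 987, nat_lit 0, nat_lit 0, nat_lit 0, nat_lit 103, nat_lit 0, nat_lit 0, nat_lit 0, nat_lit 2060283744224, nat_lit 0, nat_lit 224250, nat_lit 0, nat_lit 0, [(nat_lit 12, [(nat_lit 0, nat_lit 897)])],
 ⟨p069_k24, nat_lit 0, nat_lit 0, nat_lit 0, nat_lit 0, nat_lit 0, [nat_lit 1622968001, nat_lit 2104059601, nat_lit 2748686000, nat_lit 3715242400], [], [nat_lit 18731345311, nat_lit 19354544207, nat_lit 18954031619, nat_lit 19545680633, nat_lit 19887945272, nat_lit 20508777087, nat_lit 20053347916, nat_lit 20616107209], nat_lit 0, nat_lit 0, nat_lit 0, nat_lit 0, nat_lit 0, nat_lit 0, [], [nat_lit 154, nat_lit 40, nat_lit 40, nat_lit 80]⟩, ⟨p069_k7, nat_lit 0, nat_lit 0, nat_lit 612, nat_lit 0, nat_lit 796178, [nat_lit 338046000, nat_lit 643750000, nat_lit 1013726000], [], [nat_lit 3017731887, nat_lit 2724690818, nat_lit 2483064947, nat_lit 2606843196,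 nat_lit 2069839770, nat_lit 2179411606, nat_lit 2085199024, nat_lit 2068832204], nat_lit 1271250, nat_lit 1271250, nat_lit 435600, nat_lit 780000, nat_lit 0, nat_lit 1100001, [nat_lit 780000, nat_lit 1435000, nat_lit 1271250], [nat_lit 8, nat_lit 40, nat_lit 40, nat_lit 80, nat_lit 1, nat_lit 289, nat_lit 75, nat_lit 8]⟩,
 ⟨nat_lit 5000, nat_lit 5245, ⟨.ofNat (nat_lit 351391), .ofNat (nat_lit 439194), .ofNat (nat_lit 372775), .ofNat (nat_lit 460577), .ofNat (nat_lit 357140), .ofNat (nat_lit 442852), .ofNat (nat_lit 378567), .ofNat (nat_lit 464278)⟩, ⟨.ofNat (nat_lit 518028), .ofNat (nat_lit 554614), .ofNat (nat_lit 560799), .ofNat (nat_lit 597385), .ofNat (nat_lit 514284), .ofNat (nat_lit 549998), .ofNat (nat_lit 557141), .ofNat (nat_lit 592856)⟩⟩, [⟨nat_lit 0, nat_lit 100, nat_lit 99, nat_lit 92, nat_lit 156617461⟩]⟩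
noncomputable def p069_l113 : Lf2 := ⟨nat_lit 0, nat_lit 10, [nat_lit 0, nat_lit 5, nat_lit 5, nat_lit 20], false, nat_lit 280, nat_lit 300, nat_lit 160, nat_lit 320, ⟨nat_lit 193, nat_lit 807, nat_lit 0, nat_lit 7, nat_lit 156, nat_lit 807, nat_lit 222, nat_lit 0, nat_lit 0, nat_lit 0, nat_lit 0, nat_lit 0, nat_lit 43733434, nat_lit 8466369, nat_lit 14800197, nat_lit 4689740, false, false⟩,
 nat_lit 0, nat_lit 0, nat_lit 2789, nat_lit 0, nat_lit 3304, nat_lit 1774, nat_lit 0, nat_lit 0, nat_lit 0, nat_lit 169, nat_lit 0, nat_lit 0, nat_lit 0, nat_lit 1187668316719, nat_lit 0, nat_lit 201750, nat_lit 0, nat_lit 0, [(nat_lit 12, [(nat_lit 0, nat_lit 807)])],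
 ⟨p069_k24, nat_lit 0, nat_lit 0, nat_lit 0, nat_lit 0, nat_lit 0, [nat_lit 1664008001, nat_lit 2222247600, nat_lit 2943266001, nat_lit 4139914800], [], [nat_lit 18757152609, nat_lit 19384218499, nat_lit 18833667785, nat_lit 19442673473, nat_lit 19920495155, nat_lit 20544786384, nat_lit 19964315149, nat_lit 20543170841], nat_lit 0, nat_lit 0, nat_lit 0, nat_lit 0, nat_lit 0, nat_lit 0, [], [nat_lit 154, nat_lit 40, nat_lit 40, nat_lit 80]⟩, ⟨p069_k7, nat_lit 0, nat_lit 0, nat_lit 318, nat_lit 0, nat_lit 450515, [nat_lit 633426000, nat_lit 1206250000, nat_lit 1899506000], [], [nat_lit 3650553749, nat_lit 3941179459, nat_lit 3514923853, nat_lit 3794852044, nat_lit 5094588336, nat_lit 5255189625, nat_lit 5490206548, nat_lit 5040700190], nat_lit 1271250, nat_lit 1271250, nat_lit 435600, nat_lit 631250, nat_lit 1100001, nat_lit 2470000, [nat_lit 780000, nat_lit 1435000, nat_lit 1271250], [nat_lit 8, nat_lit 40, nat_lit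 40, nat_lit 80, nat_lit 1, nat_lit 345, nat_lit 125, nat_lit 10]⟩,
 ⟨nat_lit 5000, nat_lit 5245, ⟨.ofNat (nat_lit 351391), .ofNat (nat_lit 402610), .ofNat (nat_lit 372775), .ofNat (nat_lit 423993), .ofNat (nat_lit 357140), .ofNat (nat_lit 407139), .ofNat (nat_lit 378567), .ofNat (nat_lit 428565)⟩, ⟨.ofNat (nat_lit 518028), .ofNat (nat_lit 554614), .ofNat (nat_lit 560799), .ofNat (nat_lit 597385), .ofNat (nat_lit 514284), .ofNat (nat_lit 549998), .ofNat (nat_lit 557141), .ofNat (nat_lit 592856)⟩⟩, [⟨nat_lit 0, nat_lit 100, nat_lit 99, nat_lit 92, nat_lit 132456532⟩, ⟨nat_lit 11, nat_lit 100, nat_lit 100, nat_lit 93, nat_lit 90770338⟩]⟩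
noncomputable def p069_l114 : Lf2 := ⟨nat_lit 0, nat_lit 10, [nat_lit 0, nat_lit 5, nat_lit 5, nat_lit 20], true, nat_lit 280, nat_lit 300, nat_lit 160, nat_lit 336, ⟨nat_lit 0, nat_lit 1000, nat_lit 0, nat_lit 7, nat_lit 171, nat_lit 1000, nat_lit 222, nat_lit 0, nat_lit 0, nat_lit 0, nat_lit 0, nat_lit 0, nat_lit 42736865, nat_lit 9661625, nat_lit 14601510, nat_lit 4831710, false, false⟩,
 nat_lit 0, nat_lit 0, nat_lit 0, nat_lit 2862, nat_lit 3258, nat_lit 0, nat_lit 0, nat_lit 0, nat_lit 0, nat_lit 0, nat_lit 0, nat_lit 0, nat_lit 0, nat_lit 0, nat_lit 0, nat_lit 250000, nat_lit 0, nat_lit 0, [(nat_lit 12, [(nat_lit 0, nat_lit 1000)])],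
 ⟨p069_k24, nat_lit 0, nat_lit 0, nat_lit 0, nat_lit 0, nat_lit 0, [nat_lit 1576000001, nat_lit 1968800001, nat_lit 2526000001, nat_lit 3235866667], [], [nat_lit 18767992969, nat_lit 19373294645, nat_lit 18907063619, nat_lit 19498712633, nat_lit 19892186660, nat_lit 20467639306, nat_lit 20006379916, nat_lit 20569139209], nat_lit 0, nat_lit 0, nat_lit 0, nat_lit 0, nat_lit 0, nat_lit 0, [], [nat_lit 154, nat_lit 40, nat_lit 40, nat_lit 80]⟩, C1.Rw.none,
 ⟨nat_lit 5000, nat_lit 5245, ⟨.ofNat (nat_lit 402610), .ofNat (nat_lit 439194), .ofNat (nat_lit 413302), .ofNat (nat_lit 449886), .ofNat (nat_lit 407139), .ofNat (nat_lit 442852), .ofNat (nat_lit 417852), .ofNat (nat_lit 453565)⟩, ⟨.ofNat (nat_lit 518028), .ofNat (nat_lit 554614), .ofNat (nat_lit 560799), .ofNat (nat_lit 597385), .ofNat (nat_lit 514284), .ofNat (nat_lit 549998), .ofNat (nat_lit 557141), .ofNat (nat_lit 592856)⟩⟩, []⟩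
noncomputable def p069_l115 : Lf2 := ⟨nat_lit 0, nat_lit 10, [nat_lit 0, nat_lit 5, nat_lit 5, nat_lit 20], false, nat_lit 280, nat_lit 300, nat_lit 160, nat_lit 328, ⟨nat_lit 175, nat_lit 825, nat_lit 0, nat_lit 7, nat_lit 176, nat_lit 825, nat_lit 222, nat_lit 0, nat_lit 0, nat_lit 0, nat_lit 0, nat_lit 0, nat_lit 42453712, nat_lit 10003457, nat_lit 14542831, nat_lit 4869192, false, false⟩,
 nat_lit 0, nat_lit 0, nat_lit 1710, nat_lit 0, nat_lit 2909, nat_lit 1135, nat_lit 0, nat_lit 0, nat_lit 0, nat_lit 236, nat_lit 0, nat_lit 0, nat_lit 0, nat_lit 7260665391706, nat_lit 0, nat_lit 206250, nat_lit 0, nat_lit 0, [(nat_lit 12, [(nat_lit 0, nat_lit 825)])],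
 ⟨p069_k25, nat_lit 0, nat_lit 0, nat_lit 0, nat_lit 0, nat_lit 0, [nat_lit 1231612500, nat_lit 2198610001, nat_lit 2904350001, nat_lit 4054530000], [], [nat_lit 18433508556, nat_lit 19022371464, nat_lit 18658504982, nat_lit 19233846976, nat_lit 19582620173, nat_lit 20142868882, nat_lit 19781516568, nat_lit 20329186160], nat_lit 0, nat_lit 0, nat_lit 0, nat_lit 0, nat_lit 0, nat_lit 0, [], [nat_lit 222, nat_lit 40, nat_lit 20, nat_lit 40]⟩, ⟨p069_k26, nat_lit 0, nat_lit 0, nat_lit 387, nat_lit 0, nat_lit 749131, [nat_lit 574350000, nat_lit 820400000, nat_lit 1394400000], [], [nat_lit 3390431963, nat_lit 3481413485, nat_lit 3377470055, nat_lit 3465956910, nat_lit 4389619142, nat_lit 4341128390, nat_lit 4644508291, nat_lit 4384823243], nat_lit 1271250, nat_lit 1271250, nat_lit 631250, nat_lit 780000, nat_lit 1100001, nat_lit 2538500, [nat_lit 780000, nat_lit 1100000, nat_lit 1785000], [nat_lit 36, nat_lit 40, nat_lit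 40, nat_lit 80, nat_lit 7, nat_lit 345, nat_lit 125, nat_lit 11]⟩,
 ⟨nat_lit 5000, nat_lit 5245, ⟨.ofNat (nat_lit 413302), .ofNat (nat_lit 449886), .ofNat (nat_lit 423993), .ofNat (nat_lit 460577), .ofNat (nat_lit 417852), .ofNat (nat_lit 453565), .ofNat (nat_lit 428565), .ofNat (nat_lit 464278)⟩, ⟨.ofNat (nat_lit 518028), .ofNat (nat_lit 554614), .ofNat (nat_lit 560799), .ofNat (nat_lit 597385), .ofNat (nat_lit 514284), .ofNat (nat_lit 549998), .ofNat (nat_lit 557141), .ofNat (nat_lit 592856)⟩⟩, [⟨nat_lit 11, nat_lit 95, nat_lit 95, nat_lit 100, nat_lit 68653264⟩]⟩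
noncomputable def b_V_700_700_20_5 : St := ⟨true, nat_lit 0, nat_lit 1, nat_lit 1, nat_lit 120, nat_lit 290, nat_lit 300, nat_lit 280, nat_lit 300, nat_lit 72, nat_lit 120, nat_lit 80, nat_lit 120, nat_lit 280, nat_lit 300, nat_lit 0, nat_lit 336, nat_lit 0, nat_lit 40, nat_lit 300, nat_lit 460, nat_lit 0, nat_lit 0⟩
theorem d_V_700_700_20_5 (h : EB TB.env) : Dead b_V_700_700_20_5 := chkB_sound0 h (T :=
(.spl (nat_lit 5) (nat_lit 160)
(.leaf p069_l112)
(.spl (nat_lit 2) (nat_lit 100)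
(.trX (nat_lit 23) (nat_lit 100) (nat_lit 88) (nat_lit 94) (nat_lit 320) (.leaf p069_l113))
(.spl (nat_lit 1) (nat_lit 290)
(.leaf p069_l114)
(.trX (nat_lit 19) (nat_lit 97) (nat_lit 84) (nat_lit 100) (nat_lit 328) (.leaf p069_l115)))))) (by decide +kernel)
noncomputable def p069_l116 : Lf2 := ⟨nat_lit 0, nat_lit 10, [nat_lit 0, nat_lit 5, nat_lit 5, nat_lit 20], false, nat_lit 300, nat_lit 312, nat_lit 0, nat_lit 160, ⟨nat_lit 170, nat_lit 830, nat_lit 0, nat_lit 7, nat_lit 163, nat_lit 830, nat_lit 230, nat_lit 0, nat_lit 0, nat_lit 0, nat_lit 0, nat_lit 0, nat_lit 42671708, nat_lit 8959393, nat_lit 15368899, nat_lit 4805812, false, false⟩,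
 nat_lit 0, nat_lit 0, nat_lit 2549, nat_lit 0, nat_lit 3083, nat_lit 1622, nat_lit 0, nat_lit 0, nat_lit 0, nat_lit 170, nat_lit 0, nat_lit 0, nat_lit 0, nat_lit 5751526158926, nat_lit 0, nat_lit 332000, nat_lit 0, nat_lit 0, [(nat_lit 12, [(nat_lit 1, nat_lit 830)])],
 ⟨p069_k24, nat_lit 0, nat_lit 0, nat_lit 0, nat_lit 0, nat_lit 0, [nat_lit 1500136001, nat_lit 2195364000, nat_lit 2934044001, nat_lit 3592149333], [], [nat_lit 19797412628, nat_lit 20375958639, nat_lit 20007722854, nat_lit 20557976909, nat_lit 20475981920, nat_lit 21062704574, nat_lit 20653096000, nat_lit 21186680295], nat_lit 0, nat_lit 0, nat_lit 0, nat_lit 0, nat_lit 0, nat_lit 0, [], [nat_lit 154, nat_lit 40, nat_lit 40, nat_lit 80]⟩, ⟨p069_k7, nat_lit 0, nat_lit 0, nat_lit 603, nat_lit 0, nat_lit 773134, [nat_lit 557940000, nat_lit 1062500000, nat_lit 1673140000], [], [nat_lit 4983301383, nat_lit 4506592199, nat_lit 4118239170, nat_lit 4322715000,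 nat_lit 3441208061, nat_lit 3621634824, nat_lit 3456864576, nat_lit 3440521704], nat_lit 1271250, nat_lit 1271250, nat_lit 435600, nat_lit 780000, nat_lit 0, nat_lit 1100001, [nat_lit 780000, nat_lit 1435000, nat_lit 1271250], [nat_lit 8, nat_lit 40, nat_lit 40, nat_lit 80, nat_lit 1, nat_lit 289, nat_lit 75, nat_lit 8]⟩,
 ⟨nat_lit 5000, nat_lit 5245, ⟨.ofNat (nat_lit 351391), .ofNat (nat_lit 439194), .ofNat (nat_lit 372775), .ofNat (nat_lit 460577), .ofNat (nat_lit 357140), .ofNat (nat_lit 442852), .ofNat (nat_lit 378567), .ofNat (nat_lit 464278)⟩, ⟨.ofNat (nat_lit 554614), .ofNat (nat_lit 576565), .ofNat (nat_lit 575999), .ofNat (nat_lit 597950), .ofNat (nat_lit 549998), .ofNat (nat_lit 571427), .ofNat (nat_lit 571427), .ofNat (nat_lit 592856)⟩⟩, [⟨nat_lit 0, nat_lit 100, nat_lit 99, nat_lit 92, nat_lit 190180643⟩, ⟨nat_lit 16, nat_lit 100, nat_lit 94, nat_lit 97, nat_lit 296105802⟩]⟩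
noncomputable def p069_l117 : Lf2 := ⟨nat_lit 0, nat_lit 10, [nat_lit 0, nat_lit 5, nat_lit 5, nat_lit 20], false, nat_lit 300, nat_lit 312, nat_lit 160, nat_lit 300, ⟨nat_lit 372, nat_lit 628, nat_lit 0, nat_lit 7, nat_lit 156, nat_lit 628, nat_lit 230, nat_lit 0, nat_lit 0, nat_lit 0, nat_lit 0, nat_lit 0, nat_lit 43131130, nat_lit 8400944, nat_lit 15467926, nat_lit 4737500, false, false⟩,
 nat_lit 0, nat_lit 0, nat_lit 5215, nat_lit 0, nat_lit 3229, nat_lit 3318, nat_lit 0, nat_lit 0, nat_lit 0, nat_lit 447, nat_lit 0, nat_lit 0, nat_lit 0, nat_lit 1774511513635, nat_lit 0, nat_lit 251200, nat_lit 0, nat_lit 0, [(nat_lit 12, [(nat_lit 1, nat_lit 628)])],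
 ⟨p069_k24, nat_lit 0, nat_lit 0, nat_lit 0, nat_lit 0, nat_lit 0, [nat_lit 1629577601, nat_lit 2459822400, nat_lit 3360910400, nat_lit 4648392000], [], [nat_lit 19899907337, nat_lit 20489728877, nat_lit 19955775256, nat_lit 20529082504, nat_lit 20591492190, nat_lit 21189960802, nat_lit 20627850298, nat_lit 21183361972], nat_lit 0, nat_lit 0, nat_lit 0, nat_lit 0, nat_lit 0, nat_lit 0, [], [nat_lit 154, nat_lit 40, nat_lit 40, nat_lit 80]⟩, ⟨p069_k7, nat_lit 0, nat_lit 0, nat_lit 308, nat_lit 0, nat_lit 427471, [nat_lit 1220904000, nat_lit 2325000000, nat_lit 3661224000], [], [nat_lit 6429044677, nat_lit 6979006885, nat_lit 6181284051, nat_lit 6732194934, nat_lit 8994544286, nat_lit 9277883409, nat_lit 9728558457, nat_lit 8970426648], nat_lit 1271250, nat_lit 1271250, nat_lit 435600, nat_lit 631250, nat_lit 1100001, nat_lit 2298750, [nat_lit 780000, nat_lit 1435000, nat_lit 1271250], [nat_lit 8, nat_lit 40, nat_lit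 40, nat_lit 80, nat_lit 1, nat_lit 317, nat_lit 100, nat_lit 9]⟩,
 ⟨nat_lit 5000, nat_lit 5245, ⟨.ofNat (nat_lit 351391), .ofNat (nat_lit 402610), .ofNat (nat_lit 372775), .ofNat (nat_lit 423993), .ofNat (nat_lit 357140), .ofNat (nat_lit 407139), .ofNat (nat_lit 378567), .ofNat (nat_lit 428565)⟩, ⟨.ofNat (nat_lit 554614), .ofNat (nat_lit 576565), .ofNat (nat_lit 575999), .ofNat (nat_lit 597950), .ofNat (nat_lit 549998), .ofNat (nat_lit 571427), .ofNat (nat_lit 571427), .ofNat (nat_lit 592856)⟩⟩, [⟨nat_lit 0, nat_lit 100, nat_lit 99, nat_lit 92, nat_lit 145186864⟩, ⟨nat_lit 16, nat_lit 100, nat_lit 94, nat_lit 97, nat_lit 172941730⟩, ⟨nat_lit 23, nat_lit 92, nat_lit 100, nat_lit 89, nat_lit 199774342⟩]⟩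
noncomputable def p069_l118 : Lf2 := ⟨nat_lit 0, nat_lit 10, [nat_lit 0, nat_lit 5, nat_lit 5, nat_lit 20], false, nat_lit 300, nat_lit 312, nat_lit 160, nat_lit 320, ⟨nat_lit 100, nat_lit 900, nat_lit 0, nat_lit 7, nat_lit 171, nat_lit 900, nat_lit 230, nat_lit 0, nat_lit 0, nat_lit 0, nat_lit 0, nat_lit 0, nat_lit 42160309, nat_lit 9584171, nat_lit 15255520, nat_lit 4877685, false, false⟩,
 nat_lit 0, nat_lit 0, nat_lit 1544, nat_lit 0, nat_lit 3306, nat_lit 982, nat_lit 0, nat_lit 0, nat_lit 0, nat_lit 85, nat_lit 0, nat_lit 0, nat_lit 0, nat_lit 0, nat_lit 0, nat_lit 225000, nat_lit 0, nat_lit 0, [(nat_lit 12, [(nat_lit 0, nat_lit 900)])],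
 ⟨p069_k24, nat_lit 0, nat_lit 0, nat_lit 0, nat_lit 0, nat_lit 0, [nat_lit 1621600001, nat_lit 2100120001, nat_lit 2742200000, nat_lit 3701280000], [], [nat_lit 19921216736, nat_lit 20500220386, nat_lit 20030803156, nat_lit 20596992457, nat_lit 20599773511, nat_lit 21187481975, nat_lit 20694292354, nat_lit 21242965677], nat_lit 0, nat_lit 0, nat_lit 0, nat_lit 0, nat_lit 0, nat_lit 0, [], [nat_lit 154, nat_lit 40, nat_lit 40, nat_lit 80]⟩, ⟨p069_k7, nat_lit 0, nat_lit 0, nat_lit 430, nat_lit 0, nat_lit 682096, [nat_lit 328200000, nat_lit 625000000, nat_lit 984200000], [], [nat_lit 1819334289, nat_lit 1875813125, nat_lit 1775790697, nat_lit 1830540889, nat_lit 2763206776, nat_lit 2541207055, nat_lit 2956482672, nat_lit 2734153944], nat_lit 1271250, nat_lit 1271250, nat_lit 631250, nat_lit 780000, nat_lit 1100001, nat_lit 2470000, [nat_lit 780000, nat_lit 1435000, nat_lit 1271250], [nat_lit 8, nat_lit 40, nat_lit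 40, nat_lit 80, nat_lit 1, nat_lit 345, nat_lit 125, nat_lit 9]⟩,
 ⟨nat_lit 5000, nat_lit 5245, ⟨.ofNat (nat_lit 402610), .ofNat (nat_lit 439194), .ofNat (nat_lit 413302), .ofNat (nat_lit 449886), .ofNat (nat_lit 407139), .ofNat (nat_lit 442852), .ofNat (nat_lit 417852), .ofNat (nat_lit 453565)⟩, ⟨.ofNat (nat_lit 554614), .ofNat (nat_lit 576565), .ofNat (nat_lit 575999), .ofNat (nat_lit 597950), .ofNat (nat_lit 549998), .ofNat (nat_lit 571427), .ofNat (nat_lit 571427), .ofNat (nat_lit 592856)⟩⟩, [⟨nat_lit 16, nat_lit 100, nat_lit 94, nat_lit 97, nat_lit 230318228⟩, ⟨nat_lit 23, nat_lit 95, nat_lit 96, nat_lit 100, nat_lit 45509349⟩]⟩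
noncomputable def p069_l119 : Lf2 := ⟨nat_lit 0, nat_lit 10, [nat_lit 0, nat_lit 5, nat_lit 5, nat_lit 20], false, nat_lit 300, nat_lit 312, nat_lit 160, nat_lit 312, ⟨nat_lit 82, nat_lit 918, nat_lit 0, nat_lit 7, nat_lit 176, nat_lit 918, nat_lit 230, nat_lit 0, nat_lit 0, nat_lit 0, nat_lit 0, nat_lit 0, nat_lit 41884450, nat_lit 9922530, nat_lit 15193020, nat_lit 4914700, false, false⟩,
 nat_lit 0, nat_lit 0, nat_lit 1136, nat_lit 0, nat_lit 3271, nat_lit 754, nat_lit 0, nat_lit 0, nat_lit 0, nat_lit 42, nat_lit 0, nat_lit 0, nat_lit 0, nat_lit 11017988533698, nat_lit 0, nat_lit 229500, nat_lit 0, nat_lit 0, [(nat_lit 12, [(nat_lit 0, nat_lit 918)])],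
 ⟨p069_k24, nat_lit 0, nat_lit 0, nat_lit 0, nat_lit 0, nat_lit 0, [nat_lit 1613392001, nat_lit 2076482401, nat_lit 2703284001, nat_lit 3617505600], [], [nat_lit 19925090972, nat_lit 20501505349, nat_lit 20038036544, nat_lit 20601724797, nat_lit 20600701505, nat_lit 21163650913, nat_lit 20698682415, nat_lit 21244987505], nat_lit 0, nat_lit 0, nat_lit 0, nat_lit 0, nat_lit 0, nat_lit 0, [], [nat_lit 154, nat_lit 40, nat_lit 40, nat_lit 80]⟩, ⟨p069_k11, nat_lit 0, nat_lit 0, nat_lit 382, nat_lit 0, nat_lit 727648, [nat_lit 269124000, nat_lit 512500000, nat_lit 653376000], [], [nat_lit 1564071358, nat_lit 1614025844, nat_lit 1535918440, nat_lit 1584378224, nat_lit 2031494736, nat_lit 2068824509, nat_lit 2183193748, nat_lit 2021773824], nat_lit 1271250, nat_lit 1271250, nat_lit 631250, nat_lit 780000, nat_lit 1100001, nat_lit 2401500, [nat_lit 780000, nat_lit 1435000, nat_lit 1271250], [nat_lit 18, nat_lit 40, nat_lit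 40, nat_lit 80, nat_lit 2, nat_lit 345, nat_lit 125, nat_lit 11]⟩,
 ⟨nat_lit 5000, nat_lit 5245, ⟨.ofNat (nat_lit 413302), .ofNat (nat_lit 449886), .ofNat (nat_lit 423993), .ofNat (nat_lit 460577), .ofNat (nat_lit 417852), .ofNat (nat_lit 453565), .ofNat (nat_lit 428565), .ofNat (nat_lit 464278)⟩, ⟨.ofNat (nat_lit 554614), .ofNat (nat_lit 576565), .ofNat (nat_lit 575999), .ofNat (nat_lit 597950), .ofNat (nat_lit 549998), .ofNat (nat_lit 571427), .ofNat (nat_lit 571427), .ofNat (nat_lit 592856)⟩⟩, [⟨nat_lit 16, nat_lit 100, nat_lit 94, nat_lit 97, nat_lit 234226137⟩, ⟨nat_lit 23, nat_lit 95, nat_lit 96, nat_lit 100, nat_lit 35056609⟩]⟩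
noncomputable def b_V_700_700_20_6 : St := ⟨true, nat_lit 0, nat_lit 1, nat_lit 1, nat_lit 120, nat_lit 290, nat_lit 300, nat_lit 280, nat_lit 300, nat_lit 72, nat_lit 120, nat_lit 80, nat_lit 100, nat_lit 300, nat_lit 328, nat_lit 0, nat_lit 320, nat_lit 0, nat_lit 40, nat_lit 300, nat_lit 460, nat_lit 0, nat_lit 0⟩
theorem d_V_700_700_20_6 (h : EB TB.env) : Dead b_V_700_700_20_6 := chkB_sound0 h (T :=
(.trX (nat_lit 16) (nat_lit 100) (nat_lit 94) (nat_lit 97) (nat_lit 312) (.spl (nat_lit 5) (nat_lit 160)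
(.leaf p069_l116)
(.spl (nat_lit 2) (nat_lit 100)
(.trX (nat_lit 23) (nat_lit 100) (nat_lit 100) (nat_lit 100) (nat_lit 300) (.leaf p069_l117))
(.spl (nat_lit 1) (nat_lit 290)
(.leaf p069_l118)
(.trX (nat_lit 19) (nat_lit 100) (nat_lit 94) (nat_lit 97) (nat_lit 312) (.leaf p069_l119))))))) (by decide +kernel)
noncomputable def p069_l120 : Lf2 := ⟨nat_lit 0, nat_lit 10, [nat_lit 0, nat_lit 5, nat_lit 5, nat_lit 20], false, nat_lit 300, nat_lit 328, nat_lit 0, nat_lit 320, ⟨nat_lit 1000, nat_lit 0, nat_lit 0, nat_lit 0, nat_lit 0, nat_lit 0, nat_lit 0, nat_lit 0, nat_lit 0, nat_lit 0, nat_lit 0, nat_lit 0, nat_lit 0, nat_lit 0, nat_lit 0, nat_lit 0, false, false⟩,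
 nat_lit 0, nat_lit 0, nat_lit 0, nat_lit 3362, nat_lit 4814, nat_lit 0, nat_lit 0, nat_lit 0, nat_lit 0, nat_lit 78, nat_lit 0, nat_lit 554, nat_lit 0, nat_lit 0, nat_lit 0, nat_lit 0, nat_lit 0, nat_lit 0, [],
 ⟨p069_k11, nat_lit 0, nat_lit 0, nat_lit 0, nat_lit 0, nat_lit 0, [nat_lit 3282000000, nat_lit 6250000000, nat_lit 7968000000], [], [nat_lit 21180112850, nat_lit 21858965079, nat_lit 20967082681, nat_lit 21609167786, nat_lit 23127179601, nat_lit 23811132350, nat_lit 22808631774, nat_lit 23399836014], nat_lit 0, nat_lit 0, nat_lit 0, nat_lit 0, nat_lit 0, nat_lit 0, [], [nat_lit 18, nat_lit 40, nat_lit 40, nat_lit 80]⟩, ⟨p069_k7, nat_lit 0, nat_lit 0, nat_lit 0, nat_lit 0, nat_lit 646572, [nat_lit 3282000000, nat_lit 6250000000, nat_lit 9842000000], [], [nat_lit 10343476550, nat_lit 11070095750, nat_lit 11381839750, nat_lit 12085463750, nat_lit 17965671200, nat_lit 18653590800, nat_lit 18958044000, nat_lit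 19625512000], nat_lit 1271250, nat_lit 1271250, nat_lit 435600, nat_lit 780000, nat_lit 0, nat_lit 2260000, [nat_lit 780000, nat_lit 1435000, nat_lit 1271250], [nat_lit 8, nat_lit 40, nat_lit 40, nat_lit 80]⟩,
 zbF0, [⟨nat_lit 0, nat_lit 100, nat_lit 97, nat_lit 84, nat_lit 500212537⟩, ⟨nat_lit 16, nat_lit 97, nat_lit 84, nat_lit 100, nat_lit 595468240⟩, ⟨nat_lit 23, nat_lit 90, nat_lit 100, nat_lit 93, nat_lit 33009367⟩]⟩
noncomputable def p069_l121 : Lf2 := ⟨nat_lit 0, nat_lit 10, [nat_lit 0, nat_lit 5, nat_lit 5, nat_lit 20], false, nat_lit 300, nat_lit 328, nat_lit 0, nat_lit 160, ⟨nat_lit 1000, nat_lit 0, nat_lit 0, nat_lit 0, nat_lit 0, nat_lit 0, nat_lit 0, nat_lit 0, nat_lit 0, nat_lit 0, nat_lit 0, nat_lit 0, nat_lit 0, nat_lit 0, nat_lit 0, nat_lit 0, false, false⟩,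
 nat_lit 0, nat_lit 0, nat_lit 9079, nat_lit 0, nat_lit 0, nat_lit 5777, nat_lit 0, nat_lit 0, nat_lit 445, nat_lit 1064, nat_lit 0, nat_lit 0, nat_lit 0, nat_lit 0, nat_lit 0, nat_lit 0, nat_lit 0, nat_lit 0, [],
 ⟨p069_k11, nat_lit 0, nat_lit 0, nat_lit 0, nat_lit 0, nat_lit 0, [nat_lit 3282000000, nat_lit 6250000000, nat_lit 7968000000], [], [nat_lit 17663106051, nat_lit 17994546100, nat_lit 18231177375, nat_lit 18556809250, nat_lit 18605490940, nat_lit 18945639880, nat_lit 19162130201, nat_lit 19496578000], nat_lit 0, nat_lit 0, nat_lit 0, nat_lit 0, nat_lit 0, nat_lit 0, [], [nat_lit 18, nat_lit 40, nat_lit 40, nat_lit 80]⟩, ⟨p069_k7, nat_lit 0, nat_lit 0, nat_lit 0, nat_lit 0, nat_lit 365861, [nat_lit 3282000000, nat_lit 6250000000, nat_lit 9842000000], [], [nat_lit 30694541619, nat_lit 28054557741, nat_lit 26768600502, nat_lit 27832797593, nat_lit 25726032651, nat_lit 26419518651, nat_lit 27203714358, nat_lit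 26301982876], nat_lit 1271250, nat_lit 1271250, nat_lit 435600, nat_lit 631250, nat_lit 0, nat_lit 1100001, [nat_lit 780000, nat_lit 1435000, nat_lit 1271250], [nat_lit 8, nat_lit 40, nat_lit 40, nat_lit 80]⟩,
 zbF0, [⟨nat_lit 0, nat_lit 100, nat_lit 97, nat_lit 84, nat_lit 305965125⟩, ⟨nat_lit 16, nat_lit 97, nat_lit 84, nat_lit 100, nat_lit 209970350⟩]⟩
noncomputable def p069_l122 : Lf2 := ⟨nat_lit 0, nat_lit 10, [nat_lit 0, nat_lit 5, nat_lit 5, nat_lit 20], false, nat_lit 300, nat_lit 328, nat_lit 0, nat_lit 160, ⟨nat_lit 1000, nat_lit 0, nat_lit 0, nat_lit 0, nat_lit 0, nat_lit 0, nat_lit 0, nat_lit 0, nat_lit 0, nat_lit 0, nat_lit 0, nat_lit 0, nat_lit 0, nat_lit 0, nat_lit 0, nat_lit 0, false, false⟩,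
 nat_lit 0, nat_lit 0, nat_lit 10399, nat_lit 0, nat_lit 2998, nat_lit 6617, nat_lit 0, nat_lit 0, nat_lit 184, nat_lit 2324, nat_lit 0, nat_lit 0, nat_lit 0, nat_lit 0, nat_lit 0, nat_lit 0, nat_lit 0, nat_lit 0, [],
 ⟨p069_k26, nat_lit 0, nat_lit 0, nat_lit 0, nat_lit 0, nat_lit 0, [nat_lit 3282000000, nat_lit 4688000000, nat_lit 7968000000], [], [nat_lit 19657671596, nat_lit 20192681628, nat_lit 19850747227, nat_lit 20372039342, nat_lit 21324949973, nat_lit 21866274441, nat_lit 21449247372, nat_lit 21978945643], nat_lit 0, nat_lit 0, nat_lit 0, nat_lit 0, nat_lit 0, nat_lit 0, [], [nat_lit 36, nat_lit 40, nat_lit 20, nat_lit 40]⟩, ⟨p069_k14, nat_lit 0, nat_lit 0, nat_lit 0, nat_lit 0, nat_lit 646572, [nat_lit 3282000000, nat_lit 4688000000, nat_lit 8885500000], [], [nat_lit 30879527836, nat_lit 27459253472, nat_lit 27445966536, nat_lit 25016662792, nat_lit 22579841752, nat_lit 23114808678, nat_lit 24045559548,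 nat_lit 23110424620], nat_lit 1271250, nat_lit 1271250, nat_lit 631250, nat_lit 780000, nat_lit 0, nat_lit 1100001, [nat_lit 780000, nat_lit 1100000, nat_lit 1956250], [nat_lit 160, nat_lit 40, nat_lit 20, nat_lit 40]⟩,
 zbF0, [⟨nat_lit 4, nat_lit 92, nat_lit 99, nat_lit 100, nat_lit 472304994⟩]⟩
noncomputable def p069_l123 : Lf2 := ⟨nat_lit 0, nat_lit 10, [nat_lit 0, nat_lit 5, nat_lit 5, nat_lit 20], false, nat_lit 300, nat_lit 328, nat_lit 160, nat_lit 240, ⟨nat_lit 724, nat_lit 276, nat_lit 0, nat_lit 7, nat_lit 162, nat_lit 276, nat_lit 244, nat_lit 0, nat_lit 0, nat_lit 0, nat_lit 0, nat_lit 0, nat_lit 41565620, nat_lit 8689994, nat_lit 16744386, nat_lit 4877112, false, false⟩,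
 nat_lit 0, nat_lit 0, nat_lit 7280, nat_lit 0, nat_lit 0, nat_lit 4632, nat_lit 0, nat_lit 0, nat_lit 418, nat_lit 1263, nat_lit 0, nat_lit 0, nat_lit 0, nat_lit 0, nat_lit 0, nat_lit 276000, nat_lit 0, nat_lit 0, [(nat_lit 12, [(nat_lit 2, nat_lit 276)])],
 ⟨p069_k26, nat_lit 0, nat_lit 0, nat_lit 0, nat_lit 0, nat_lit 0, [nat_lit 2926224960, nat_lit 4156865601, nat_lit 5909150400], [], [nat_lit 17614512960, nat_lit 17780286760, nat_lit 18611278960, nat_lit 18771952960, nat_lit 18595458640, nat_lit 18765556521, nat_lit 19576054401, nat_lit 19741123201], nat_lit 0, nat_lit 0, nat_lit 0, nat_lit 0, nat_lit 0, nat_lit 0, [], [nat_lit 36, nat_lit 40, nat_lit 20, nat_lit 40]⟩, ⟨p069_k14, nat_lit 0, nat_lit 0, nat_lit 0, nat_lit 0, nat_lit 549366, [nat_lit 2376168000, nat_lit 3394112000, nat_lit 6433102000], [], [nat_lit 18547417264, nat_lit 16759726046, nat_lit 12833030032, nat_lit 13210431664, nat_lit 15595935594,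 nat_lit 14944859222, nat_lit 17726968496, nat_lit 16111898948], nat_lit 1271250, nat_lit 1271250, nat_lit 435600, nat_lit 780000, nat_lit 1100001, nat_lit 1785000, [nat_lit 780000, nat_lit 1100000, nat_lit 1956250], [nat_lit 160, nat_lit 40, nat_lit 20, nat_lit 40]⟩,
 ⟨nat_lit 5123, nat_lit 5245, ⟨.ofNat (nat_lit 351393), .ofNat (nat_lit 439197), .ofNat (nat_lit 367431), .ofNat (nat_lit 455236), .ofNat (nat_lit 354266), .ofNat (nat_lit 441022), .ofNat (nat_lit 370319), .ofNat (nat_lit 457076)⟩, ⟨.ofNat (nat_lit 575999), .ofNat (nat_lit 627219), .ofNat (nat_lit 597385), .ofNat (nat_lit 648604), .ofNat (nat_lit 573718), .ofNat (nat_lit 624326), .ofNat (nat_lit 595123), .ofNat (nat_lit 645731)⟩⟩, [⟨nat_lit 0, nat_lit 100, nat_lit 99, nat_lit 89, nat_lit 198536351⟩, ⟨nat_lit 4, nat_lit 91, nat_lit 99, nat_lit 100, nat_lit 142693424⟩]⟩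
noncomputable def p069_l124 : Lf2 := ⟨nat_lit 0, nat_lit 10, [nat_lit 0, nat_lit 5, nat_lit 5, nat_lit 20], false, nat_lit 300, nat_lit 324, nat_lit 160, nat_lit 240, ⟨nat_lit 521, nat_lit 479, nat_lit 0, nat_lit 7, nat_lit 163, nat_lit 479, nat_lit 242, nat_lit 0, nat_lit 0, nat_lit 0, nat_lit 0, nat_lit 0, nat_lit 41685370, nat_lit 8815447, nat_lit 16499183, nat_lit 4875770, false, false⟩,
 nat_lit 0, nat_lit 0, nat_lit 5263, nat_lit 0, nat_lit 823, nat_lit 3348, nat_lit 0, nat_lit 0, nat_lit 324, nat_lit 914, nat_lit 0, nat_lit 0, nat_lit 0, nat_lit 0, nat_lit 0, nat_lit 191600, nat_lit 0, nat_lit 0, [(nat_lit 12, [(nat_lit 1, nat_lit 479)])],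
 ⟨p069_k27, nat_lit 0, nat_lit 0, nat_lit 0, nat_lit 0, nat_lit 0, [nat_lit 2683920601, nat_lit 3675777200, nat_lit 5436006000], [], [nat_lit 18419847816, nat_lit 18614824809, nat_lit 19156838905, nat_lit 19344956868, nat_lit 19426263362, nat_lit 19626931961, nat_lit 20111796684, nat_lit 20305732100], nat_lit 0, nat_lit 0, nat_lit 0, nat_lit 0, nat_lit 0, nat_lit 0, [], [nat_lit 36, nat_lit 40, nat_lit 20, nat_lit 40]⟩, ⟨p069_k14, nat_lit 0, nat_lit 0, nat_lit 0, nat_lit 0, nat_lit 555486, [nat_lit 1709922000, nat_lit 2442448000, nat_lit 4629345500], [], [nat_lit 12994088876, nat_lit 12133946161, nat_lit 9211197068, nat_lit 9294624433, nat_lit 11288083936, nat_lit 10520421839, nat_lit 12725392564, nat_lit 11947146616], nat_lit 1271250, nat_lit 1271250, nat_lit 462650, nat_lit 780000, nat_lit 1100001, nat_lit 1785000, [nat_lit 780000, nat_lit 1100000, nat_lit 1956250], [nat_lit 160, nat_lit 40, nat_lit 20, nat_lit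 40]⟩,
 ⟨nat_lit 5000, nat_lit 5124, ⟨.ofNat (nat_lit 361495), .ofNat (nat_lit 441022), .ofNat (nat_lit 372197), .ofNat (nat_lit 451724), .ofNat (nat_lit 364284), .ofNat (nat_lit 442855), .ofNat (nat_lit 374998), .ofNat (nat_lit 453569)⟩, ⟨.ofNat (nat_lit 573718), .ofNat (nat_lit 617096), .ofNat (nat_lit 595123), .ofNat (nat_lit 638501), .ofNat (nat_lit 571427), .ofNat (nat_lit 614284), .ofNat (nat_lit 592856), .ofNat (nat_lit 635713)⟩⟩, [⟨nat_lit 0, nat_lit 100, nat_lit 96, nat_lit 90, nat_lit 111516202⟩, ⟨nat_lit 4, nat_lit 93, nat_lit 98, nat_lit 100, nat_lit 164211751⟩]⟩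
noncomputable def p069_l125 : Lf2 := ⟨nat_lit 0, nat_lit 10, [nat_lit 0, nat_lit 5, nat_lit 5, nat_lit 20], false, nat_lit 300, nat_lit 324, nat_lit 160, nat_lit 240, ⟨nat_lit 1000, nat_lit 0, nat_lit 0, nat_lit 0, nat_lit 0, nat_lit 0, nat_lit 0, nat_lit 0, nat_lit 0, nat_lit 0, nat_lit 0, nat_lit 0, nat_lit 0, nat_lit 0, nat_lit 0, nat_lit 0, false, false⟩,
 nat_lit 0, nat_lit 0, nat_lit 10841, nat_lit 0, nat_lit 0, nat_lit 7199, nat_lit 0, nat_lit 0, nat_lit 448, nat_lit 3484, nat_lit 0, nat_lit 0, nat_lit 0, nat_lit 0, nat_lit 0, nat_lit 0, nat_lit 0, nat_lit 0, [],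
 ⟨p069_k28, nat_lit 0, nat_lit 0, nat_lit 0, nat_lit 0, nat_lit 0, [nat_lit 3282000000, nat_lit 6250000000, nat_lit 7968000000], [], [nat_lit 18022579663, nat_lit 18187121850, nat_lit 18779766500, nat_lit 18951129000, nat_lit 18852315186, nat_lit 19022188140, nat_lit 19600960475, nat_lit 19766936700], nat_lit 0, nat_lit 0, nat_lit 0, nat_lit 0, nat_lit 0, nat_lit 0, [], [nat_lit 18, nat_lit 40, nat_lit 40, nat_lit 80]⟩, ⟨p069_k11, nat_lit 0, nat_lit 0, nat_lit 0, nat_lit 0, nat_lit 608365, [nat_lit 3282000000, nat_lit 6250000000, nat_lit 7968000000], [], [nat_lit 14385591711, nat_lit 14991766676, nat_lit 14223209126, nat_lit 14799216932, nat_lit 16819818293, nat_lit 17480831843, nat_lit 18478342007, nat_lit 17116665298], nat_lit 1271250, nat_lit 1271250, nat_lit 517650, nat_lit 780000, nat_lit 1100001, nat_lit 1785000, [nat_lit 780000, nat_lit 1435000, nat_lit 1271250], [nat_lit 18, nat_lit 40, nat_lit 40, nat_lit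 80]⟩,
 zbF0, [⟨nat_lit 0, nat_lit 100, nat_lit 99, nat_lit 96, nat_lit 266793053⟩, ⟨nat_lit 4, nat_lit 93, nat_lit 98, nat_lit 100, nat_lit 213422915⟩]⟩
noncomputable def p069_l126 : Lf2 := ⟨nat_lit 0, nat_lit 5, [nat_lit 4, nat_lit 5, nat_lit 5, nat_lit 20], false, nat_lit 300, nat_lit 328, nat_lit 240, nat_lit 320, ⟨nat_lit 171, nat_lit 829, nat_lit 0, nat_lit 7, nat_lit 161, nat_lit 829, nat_lit 244, nat_lit 0, nat_lit 0, nat_lit 0, nat_lit 0, nat_lit 0, nat_lit 41643487, nat_lit 8649869, nat_lit 16706644, nat_lit 4868900, false, false⟩,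
 nat_lit 0, nat_lit 0, nat_lit 1835, nat_lit 0, nat_lit 1127, nat_lit 1167, nat_lit 0, nat_lit 0, nat_lit 262, nat_lit 266, nat_lit 0, nat_lit 0, nat_lit 0, nat_lit 0, nat_lit 0, nat_lit 331600, nat_lit 0, nat_lit 0, [(nat_lit 12, [(nat_lit 1, nat_lit 829)])],
 ⟨p069_k29, nat_lit 0, nat_lit 0, nat_lit 0, nat_lit 0, nat_lit 0, [nat_lit 2246910601, nat_lit 2824076400, nat_lit 3247693600], [], [nat_lit 18397237811, nat_lit 18840607272, nat_lit 19105211947, nat_lit 19501623024, nat_lit 19663799073, nat_lit 20084694723, nat_lit 20286544149, nat_lit 20691757358], nat_lit 0, nat_lit 0, nat_lit 0, nat_lit 0, nat_lit 0, nat_lit 0, [], [nat_lit 59, nat_lit 40, nat_lit 40, nat_lit 80]⟩, ⟨p069_k30, nat_lit 0, nat_lit 0, nat_lit 0, nat_lit 0, nat_lit 539408, [nat_lit 561222000, nat_lit 801648000, nat_lit 1362528000], [], [nat_lit 3319984051, nat_lit 3405759836, nat_lit 3246651928, nat_lit 3328109334, nat_lit 4027620528, nat_lit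 4130105927, nat_lit 3911923212, nat_lit 4009630257], nat_lit 1271250, nat_lit 1271250, nat_lit 435600, nat_lit 780000, nat_lit 1271250, nat_lit 1271250, [nat_lit 780000, nat_lit 1100000, nat_lit 1785000], [nat_lit 36, nat_lit 40, nat_lit 40, nat_lit 80]⟩,
 ⟨nat_lit 5000, nat_lit 5245, ⟨.ofNat (nat_lit 351391), .ofNat (nat_lit 439194), .ofNat (nat_lit 362083), .ofNat (nat_lit 449886), .ofNat (nat_lit 357140), .ofNat (nat_lit 442852), .ofNat (nat_lit 367854), .ofNat (nat_lit 453565)⟩, ⟨.ofNat (nat_lit 575999), .ofNat (nat_lit 627219), .ofNat (nat_lit 597385), .ofNat (nat_lit 648604), .ofNat (nat_lit 571427), .ofNat (nat_lit 621427), .ofNat (nat_lit 592856), .ofNat (nat_lit 642856)⟩⟩, [⟨nat_lit 0, nat_lit 100, nat_lit 97, nat_lit 89, nat_lit 30976104⟩, ⟨nat_lit 11, nat_lit 100, nat_lit 90, nat_lit 93, nat_lit 103585367⟩]⟩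
noncomputable def p069_l127 : Lf2 := ⟨nat_lit 0, nat_lit 5, [nat_lit 4, nat_lit 5, nat_lit 5, nat_lit 20], false, nat_lit 300, nat_lit 328, nat_lit 240, nat_lit 320, ⟨nat_lit 700, nat_lit 300, nat_lit 0, nat_lit 7, nat_lit 168, nat_lit 300, nat_lit 244, nat_lit 0, nat_lit 0, nat_lit 0, nat_lit 0, nat_lit 0, nat_lit 41208869, nat_lit 9197795, nat_lit 16593336, nat_lit 4933060, false, false⟩,
 nat_lit 0, nat_lit 0, nat_lit 6245, nat_lit 0, nat_lit 4635, nat_lit 4147, nat_lit 0, nat_lit 0, nat_lit 0, nat_lit 2475, nat_lit 0, nat_lit 0, nat_lit 0, nat_lit 0, nat_lit 0, nat_lit 75000, nat_lit 0, nat_lit 0, [(nat_lit 12, [(nat_lit 0, nat_lit 300)])],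
 ⟨p069_k31, nat_lit 0, nat_lit 0, nat_lit 0, nat_lit 0, nat_lit 0, [nat_lit 1380450000, nat_lit 2888040001, nat_lit 4023920001, nat_lit 5237560000], [], [nat_lit 20635720856, nat_lit 21297223231, nat_lit 20614056679, nat_lit 21244524416, nat_lit 22726004529, nat_lit 23393953787, nat_lit 22474764854, nat_lit 23110732738], nat_lit 0, nat_lit 0, nat_lit 0, nat_lit 0, nat_lit 0, nat_lit 0, [], [nat_lit 174, nat_lit 40, nat_lit 20, nat_lit 40]⟩, ⟨p069_k31, nat_lit 0, nat_lit 0, nat_lit 0, nat_lit 0, nat_lit 590919, [nat_lit 1025850000, nat_lit 2297400000, nat_lit 3281600000, nat_lit 4375000000], [], [nat_lit 12820301795, nat_lit 13224989429, nat_lit 12772902649, nat_lit 13156570565, nat_lit 15528745917, nat_lit 15897894699, nat_lit 15376665464, nat_lit 15736498312], nat_lit 1271250, nat_lit 1271250, nat_lit 490000, nat_lit 780000, nat_lit 1271250, nat_lit 1271250, [nat_lit 356250, nat_lit 780000, nat_lit 1100000, nat_lit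 1442500], [nat_lit 174, nat_lit 40, nat_lit 20, nat_lit 40]⟩,
 ⟨nat_lit 5000, nat_lit 5245, ⟨.ofNat (nat_lit 376717), .ofNat (nat_lit 449886), .ofNat (nat_lit 387409), .ofNat (nat_lit 460577), .ofNat (nat_lit 382139), .ofNat (nat_lit 453565), .ofNat (nat_lit 392852), .ofNat (nat_lit 464278)⟩, ⟨.ofNat (nat_lit 575999), .ofNat (nat_lit 627219), .ofNat (nat_lit 597385), .ofNat (nat_lit 648604), .ofNat (nat_lit 571427), .ofNat (nat_lit 621427), .ofNat (nat_lit 592856), .ofNat (nat_lit 642856)⟩⟩, [⟨nat_lit 0, nat_lit 100, nat_lit 100, nat_lit 100, nat_lit 126059483⟩, ⟨nat_lit 4, nat_lit 92, nat_lit 99, nat_lit 100, nat_lit 213551765⟩, ⟨nat_lit 11, nat_lit 100, nat_lit 100, nat_lit 100, nat_lit 332097385⟩]⟩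
noncomputable def p069_l128 : Lf2 := ⟨nat_lit 0, nat_lit 10, [nat_lit 0, nat_lit 5, nat_lit 5, nat_lit 20], false, nat_lit 300, nat_lit 328, nat_lit 240, nat_lit 320, ⟨nat_lit 1000, nat_lit 0, nat_lit 0, nat_lit 0, nat_lit 0, nat_lit 0, nat_lit 0, nat_lit 0, nat_lit 0, nat_lit 0, nat_lit 0, nat_lit 0, nat_lit 0, nat_lit 0, nat_lit 0, nat_lit 0, false, false⟩,
 nat_lit 0, nat_lit 0, nat_lit 8715, nat_lit 0, nat_lit 4935, nat_lit 5545, nat_lit 0, nat_lit 0, nat_lit 0, nat_lit 1003, nat_lit 0, nat_lit 0, nat_lit 0, nat_lit 0, nat_lit 0, nat_lit 0, nat_lit 0, nat_lit 0, [],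
 ⟨p069_k11, nat_lit 0, nat_lit 0, nat_lit 0, nat_lit 0, nat_lit 0, [nat_lit 3282000000, nat_lit 6250000000, nat_lit 7968000000], [], [nat_lit 21134291874, nat_lit 21821876316, nat_lit 20891036178, nat_lit 21541183815, nat_lit 23239697361, nat_lit 23933426614, nat_lit 22756029383, nat_lit 23354291735], nat_lit 0, nat_lit 0, nat_lit 0, nat_lit 0, nat_lit 0, nat_lit 0, [], [nat_lit 18, nat_lit 40, nat_lit 40, nat_lit 80]⟩, ⟨p069_k7, nat_lit 0, nat_lit 0, nat_lit 0, nat_lit 0, nat_lit 275009, [nat_lit 3282000000, nat_lit 6250000000, nat_lit 9842000000], [], [nat_lit 22181514663, nat_lit 23293802066, nat_lit 21857391015, nat_lit 22906415795, nat_lit 26093354208, nat_lit 27091404045, nat_lit 25629565340, nat_lit 26651048760], nat_lit 1271250, nat_lit 1271250, nat_lit 435600, nat_lit 780000, nat_lit 1271250, nat_lit 1271250, [nat_lit 780000, nat_lit 1435000, nat_lit 1271250], [nat_lit 8, nat_lit 40, nat_lit 40, nat_lit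 80]⟩,
 zbF0, [⟨nat_lit 0, nat_lit 100, nat_lit 100, nat_lit 100, nat_lit 162200363⟩, ⟨nat_lit 4, nat_lit 92, nat_lit 99, nat_lit 100, nat_lit 161216241⟩, ⟨nat_lit 11, nat_lit 100, nat_lit 100, nat_lit 98, nat_lit 487860982⟩]⟩
noncomputable def p069_l129 : Lf2 := ⟨nat_lit 0, nat_lit 10, [nat_lit 0, nat_lit 5, nat_lit 5, nat_lit 20], false, nat_lit 300, nat_lit 328, nat_lit 0, nat_lit 160, ⟨nat_lit 1000, nat_lit 0, nat_lit 0, nat_lit 0, nat_lit 0, nat_lit 0, nat_lit 0, nat_lit 0, nat_lit 0, nat_lit 0, nat_lit 0, nat_lit 0, nat_lit 0, nat_lit 0, nat_lit 0, nat_lit 0, false, false⟩,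
 nat_lit 0, nat_lit 0, nat_lit 9079, nat_lit 0, nat_lit 0, nat_lit 5777, nat_lit 0, nat_lit 0, nat_lit 445, nat_lit 992, nat_lit 0, nat_lit 0, nat_lit 0, nat_lit 0, nat_lit 0, nat_lit 0, nat_lit 0, nat_lit 0, [],
 ⟨p069_k11, nat_lit 0, nat_lit 0, nat_lit 0, nat_lit 0, nat_lit 0, [nat_lit 3282000000, nat_lit 6250000000, nat_lit 7968000000], [], [nat_lit 17663106051, nat_lit 17994546100, nat_lit 18231177375, nat_lit 18556809250, nat_lit 18605490940, nat_lit 18945639880, nat_lit 19162130201, nat_lit 19496578000], nat_lit 0, nat_lit 0, nat_lit 0, nat_lit 0, nat_lit 0, nat_lit 0, [], [nat_lit 18, nat_lit 40, nat_lit 40, nat_lit 80]⟩, ⟨p069_k7, nat_lit 0, nat_lit 0, nat_lit 0, nat_lit 0, nat_lit 365861, [nat_lit 3282000000, nat_lit 6250000000, nat_lit 9842000000], [], [nat_lit 30694541619, nat_lit 28515132741, nat_lit 27229175502, nat_lit 28293372593, nat_lit 25726032651, nat_lit 26421365493, nat_lit 27203714358, nat_lit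 26301982876], nat_lit 1271250, nat_lit 1271250, nat_lit 435600, nat_lit 631250, nat_lit 0, nat_lit 1100001, [nat_lit 780000, nat_lit 1435000, nat_lit 1271250], [nat_lit 8, nat_lit 40, nat_lit 40, nat_lit 80]⟩,
 zbF0, [⟨nat_lit 0, nat_lit 100, nat_lit 97, nat_lit 84, nat_lit 305965125⟩, ⟨nat_lit 16, nat_lit 97, nat_lit 84, nat_lit 100, nat_lit 209970350⟩]⟩
noncomputable def p069_l130 : Lf2 := ⟨nat_lit 0, nat_lit 10, [nat_lit 0, nat_lit 5, nat_lit 5, nat_lit 20], false, nat_lit 300, nat_lit 328, nat_lit 160, nat_lit 300, ⟨nat_lit 1000, nat_lit 0, nat_lit 0, nat_lit 0, nat_lit 0, nat_lit 0, nat_lit 0, nat_lit 0, nat_lit 0, nat_lit 0, nat_lit 0, nat_lit 0, nat_lit 0, nat_lit 0, nat_lit 0, nat_lit 0, false, false⟩,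
 nat_lit 0, nat_lit 0, nat_lit 9168, nat_lit 0, nat_lit 4787, nat_lit 5834, nat_lit 0, nat_lit 0, nat_lit 0, nat_lit 1198, nat_lit 0, nat_lit 0, nat_lit 0, nat_lit 0, nat_lit 0, nat_lit 0, nat_lit 0, nat_lit 0, [],
 ⟨p069_k11, nat_lit 0, nat_lit 0, nat_lit 0, nat_lit 0, nat_lit 0, [nat_lit 3282000000, nat_lit 6250000000, nat_lit 7968000000], [], [nat_lit 21190337365, nat_lit 21528789224, nat_lit 21010931804, nat_lit 21339008146, nat_lit 23131742778, nat_lit 23442894671, nat_lit 22892781981, nat_lit 23194689998], nat_lit 0, nat_lit 0, nat_lit 0, nat_lit 0, nat_lit 0, nat_lit 0, [], [nat_lit 18, nat_lit 40, nat_lit 40, nat_lit 80]⟩, ⟨p069_k7, nat_lit 0, nat_lit 0, nat_lit 0, nat_lit 0, nat_lit 287068, [nat_lit 3282000000, nat_lit 6250000000, nat_lit 9842000000], [], [nat_lit 18024029819, nat_lit 18693984146, nat_lit 17826766746, nat_lit 18475418653, nat_lit 24461210046, nat_lit 25116702393, nat_lit 24172537345, nat_lit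 24741002642], nat_lit 1271250, nat_lit 1271250, nat_lit 435600, nat_lit 631250, nat_lit 1100001, nat_lit 2298750, [nat_lit 780000, nat_lit 1435000, nat_lit 1271250], [nat_lit 8, nat_lit 40, nat_lit 40, nat_lit 80]⟩,
 zbF0, [⟨nat_lit 0, nat_lit 100, nat_lit 99, nat_lit 92, nat_lit 202393734⟩, ⟨nat_lit 4, nat_lit 91, nat_lit 99, nat_lit 100, nat_lit 92496125⟩, ⟨nat_lit 23, nat_lit 88, nat_lit 100, nat_lit 88, nat_lit 572573419⟩]⟩
noncomputable def p069_l131 : Lf2 := ⟨nat_lit 0, nat_lit 10, [nat_lit 0, nat_lit 5, nat_lit 5, nat_lit 20], false, nat_lit 300, nat_lit 328, nat_lit 160, nat_lit 300, ⟨nat_lit 1000, nat_lit 0, nat_lit 0, nat_lit 0, nat_lit 0, nat_lit 0, nat_lit 0, nat_lit 0, nat_lit 0, nat_lit 0, nat_lit 0, nat_lit 0, nat_lit 0, nat_lit 0, nat_lit 0, nat_lit 0, false, false⟩,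
 nat_lit 0, nat_lit 0, nat_lit 9060, nat_lit 0, nat_lit 4839, nat_lit 6016, nat_lit 0, nat_lit 0, nat_lit 0, nat_lit 1360, nat_lit 0, nat_lit 0, nat_lit 0, nat_lit 2225042531441, nat_lit 0, nat_lit 0, nat_lit 0, nat_lit 0, [],
 ⟨p069_k11, nat_lit 0, nat_lit 0, nat_lit 0, nat_lit 0, nat_lit 0, [nat_lit 3282000000, nat_lit 6250000000, nat_lit 7968000000], [], [nat_lit 21014870383, nat_lit 21352737974, nat_lit 20983120488, nat_lit 21312992013, nat_lit 22953050129, nat_lit 23263678878, nat_lit 22875406820, nat_lit 23178886827], nat_lit 0, nat_lit 0, nat_lit 0, nat_lit 0, nat_lit 0, nat_lit 0, [], [nat_lit 18, nat_lit 40, nat_lit 40, nat_lit 80]⟩, ⟨p069_k11, nat_lit 0, nat_lit 0, nat_lit 0, nat_lit 0, nat_lit 296707, [nat_lit 3282000000, nat_lit 6250000000, nat_lit 7968000000], [], [nat_lit 16794386592, nat_lit 17203838112, nat_lit 16834671672, nat_lit 17233280540, nat_lit 23516270660, nat_lit 23846888694, nat_lit 23340985246,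 nat_lit 23663417657], nat_lit 1271250, nat_lit 1271250, nat_lit 490000, nat_lit 631250, nat_lit 1100001, nat_lit 2298750, [nat_lit 780000, nat_lit 1435000, nat_lit 1271250], [nat_lit 18, nat_lit 40, nat_lit 40, nat_lit 80]⟩,
 zbF0, [⟨nat_lit 0, nat_lit 100, nat_lit 100, nat_lit 95, nat_lit 156125128⟩, ⟨nat_lit 4, nat_lit 91, nat_lit 99, nat_lit 100, nat_lit 89813454⟩, ⟨nat_lit 23, nat_lit 89, nat_lit 100, nat_lit 90, nat_lit 560962909⟩]⟩
noncomputable def p069_l132 : Lf2 := ⟨nat_lit 0, nat_lit 10, [nat_lit 0, nat_lit 5, nat_lit 5, nat_lit 20], false, nat_lit 300, nat_lit 324, nat_lit 160, nat_lit 300, ⟨nat_lit 1000, nat_lit 0, nat_lit 0, nat_lit 0, nat_lit 0, nat_lit 0, nat_lit 0, nat_lit 0, nat_lit 0, nat_lit 0, nat_lit 0, nat_lit 0, nat_lit 0, nat_lit 0, nat_lit 0, nat_lit 0, false, false⟩,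
 nat_lit 0, nat_lit 0, nat_lit 9168, nat_lit 0, nat_lit 4835, nat_lit 5834, nat_lit 0, nat_lit 0, nat_lit 0, nat_lit 1218, nat_lit 0, nat_lit 0, nat_lit 0, nat_lit 0, nat_lit 0, nat_lit 0, nat_lit 0, nat_lit 0, [],
 ⟨p069_k28, nat_lit 0, nat_lit 0, nat_lit 0, nat_lit 0, nat_lit 0, [nat_lit 3282000000, nat_lit 6250000000, nat_lit 7968000000], [], [nat_lit 21433352052, nat_lit 21772306323, nat_lit 21314993254, nat_lit 21644726688, nat_lit 23040888122, nat_lit 23378658216, nat_lit 22878876306, nat_lit 23186010837], nat_lit 0, nat_lit 0, nat_lit 0, nat_lit 0, nat_lit 0, nat_lit 0, [], [nat_lit 18, nat_lit 40, nat_lit 40, nat_lit 80]⟩, ⟨p069_k7, nat_lit 0, nat_lit 0, nat_lit 0, nat_lit 0, nat_lit 314320, [nat_lit 3282000000, nat_lit 6250000000, nat_lit 9842000000], [], [nat_lit 17817644545, nat_lit 18487919721, nat_lit 17698829246, nat_lit 18475418653, nat_lit 24361666309, nat_lit 25007580367, nat_lit 24172537345, nat_lit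 24741002642], nat_lit 1271250, nat_lit 1271250, nat_lit 462650, nat_lit 631250, nat_lit 1100001, nat_lit 2298750, [nat_lit 780000, nat_lit 1435000, nat_lit 1271250], [nat_lit 8, nat_lit 40, nat_lit 40, nat_lit 80]⟩,
 zbF0, [⟨nat_lit 0, nat_lit 100, nat_lit 97, nat_lit 94, nat_lit 179400587⟩, ⟨nat_lit 4, nat_lit 93, nat_lit 98, nat_lit 100, nat_lit 98019129⟩, ⟨nat_lit 23, nat_lit 89, nat_lit 100, nat_lit 89, nat_lit 559778886⟩]⟩
noncomputable def p069_l133 : Lf2 := ⟨nat_lit 0, nat_lit 10, [nat_lit 0, nat_lit 5, nat_lit 5, nat_lit 20], false, nat_lit 300, nat_lit 324, nat_lit 160, nat_lit 300, ⟨nat_lit 1000, nat_lit 0, nat_lit 0, nat_lit 0, nat_lit 0, nat_lit 0, nat_lit 0, nat_lit 0, nat_lit 0, nat_lit 0, nat_lit 0, nat_lit 0, nat_lit 0, nat_lit 0, nat_lit 0, nat_lit 0, false, false⟩,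
 nat_lit 0, nat_lit 0, nat_lit 11594, nat_lit 0, nat_lit 6058, nat_lit 7699, nat_lit 0, nat_lit 88, nat_lit 0, nat_lit 1846, nat_lit 0, nat_lit 0, nat_lit 0, nat_lit 0, nat_lit 0, nat_lit 0, nat_lit 0, nat_lit 0, [],
 ⟨p069_k28, nat_lit 0, nat_lit 0, nat_lit 0, nat_lit 0, nat_lit 0, [nat_lit 4338000000, nat_lit 8010000000, nat_lit 10080000000], [], [nat_lit 21919289363, nat_lit 22339872022, nat_lit 21759113818, nat_lit 22134808363, nat_lit 23909177890, nat_lit 24297410577, nat_lit 23674153612, nat_lit 24055115711], nat_lit 0, nat_lit 0, nat_lit 0, nat_lit 0, nat_lit 0, nat_lit 0, [], [nat_lit 18, nat_lit 40, nat_lit 40, nat_lit 80]⟩, ⟨p069_k11, nat_lit 0, nat_lit 0, nat_lit 0, nat_lit 0, nat_lit 346679, [nat_lit 3282000000, nat_lit 6250000000, nat_lit 7968000000], [], [nat_lit 14029916336, nat_lit 15105934637, nat_lit 13935613659, nat_lit 14987996693, nat_lit 23376958390, nat_lit 23464875736, nat_lit 24494283865,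 nat_lit 23112239244], nat_lit 1271250, nat_lit 1271250, nat_lit 517650, nat_lit 631250, nat_lit 1100001, nat_lit 2298750, [nat_lit 780000, nat_lit 1435000, nat_lit 1271250], [nat_lit 18, nat_lit 40, nat_lit 40, nat_lit 80]⟩,
 zbF0, [⟨nat_lit 16, nat_lit 98, nat_lit 93, nat_lit 100, nat_lit 197372822⟩, ⟨nat_lit 11, nat_lit 100, nat_lit 100, nat_lit 96, nat_lit 539810071⟩]⟩
noncomputable def p069_l134 : Lf2 := ⟨nat_lit 0, nat_lit 10, [nat_lit 0, nat_lit 5, nat_lit 5, nat_lit 20], false, nat_lit 300, nat_lit 328, nat_lit 0, nat_lit 160, ⟨nat_lit 1000, nat_lit 0, nat_lit 0, nat_lit 0, nat_lit 0, nat_lit 0, nat_lit 0, nat_lit 0, nat_lit 0, nat_lit 0, nat_lit 0, nat_lit 0, nat_lit 0, nat_lit 0, nat_lit 0, nat_lit 0, false, false⟩,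
 nat_lit 0, nat_lit 0, nat_lit 10316, nat_lit 0, nat_lit 4894, nat_lit 6564, nat_lit 0, nat_lit 0, nat_lit 0, nat_lit 1567, nat_lit 0, nat_lit 0, nat_lit 0, nat_lit 0, nat_lit 0, nat_lit 0, nat_lit 0, nat_lit 0, [],
 ⟨p069_k26, nat_lit 0, nat_lit 0, nat_lit 0, nat_lit 0, nat_lit 0, [nat_lit 3282000000, nat_lit 4688000000, nat_lit 7968000000], [], [nat_lit 20800502588, nat_lit 21465170724, nat_lit 20841774031, nat_lit 21489515126, nat_lit 22764093960, nat_lit 23375018359, nat_lit 22755248614, nat_lit 23351025569], nat_lit 0, nat_lit 0, nat_lit 0, nat_lit 0, nat_lit 0, nat_lit 0, [], [nat_lit 36, nat_lit 40, nat_lit 20, nat_lit 40]⟩, ⟨p069_k14, nat_lit 0, nat_lit 0, nat_lit 0, nat_lit 0, nat_lit 646572, [nat_lit 3282000000, nat_lit 4688000000, nat_lit 8885500000], [], [nat_lit 30882511312, nat_lit 27489632224, nat_lit 27476451712, nat_lit 25694236018, nat_lit 22727941984, nat_lit 23335917576, nat_lit 24186685616,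 nat_lit 23334569040], nat_lit 1271250, nat_lit 1271250, nat_lit 631250, nat_lit 780000, nat_lit 0, nat_lit 1100001, [nat_lit 780000, nat_lit 1100000, nat_lit 1956250], [nat_lit 160, nat_lit 40, nat_lit 20, nat_lit 40]⟩,
 zbF0, [⟨nat_lit 4, nat_lit 92, nat_lit 99, nat_lit 100, nat_lit 607707102⟩]⟩
noncomputable def p069_l135 : Lf2 := ⟨nat_lit 0, nat_lit 5, [nat_lit 4, nat_lit 5, nat_lit 5, nat_lit 20], false, nat_lit 300, nat_lit 328, nat_lit 160, nat_lit 320, ⟨nat_lit 258, nat_lit 742, nat_lit 0, nat_lit 7, nat_lit 171, nat_lit 742, nat_lit 244, nat_lit 0, nat_lit 0, nat_lit 0, nat_lit 0, nat_lit 0, nat_lit 41029264, nat_lit 9424933, nat_lit 16545803, nat_lit 4958589, false, false⟩,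
 nat_lit 0, nat_lit 0, nat_lit 2810, nat_lit 0, nat_lit 3146, nat_lit 1787, nat_lit 0, nat_lit 0, nat_lit 0, nat_lit 671, nat_lit 0, nat_lit 0, nat_lit 0, nat_lit 0, nat_lit 0, nat_lit 296800, nat_lit 0, nat_lit 0, [(nat_lit 12, [(nat_lit 1, nat_lit 742)])],
 ⟨p069_k32, nat_lit 0, nat_lit 0, nat_lit 0, nat_lit 0, nat_lit 0, [nat_lit 1556526401, nat_lit 2310573600, nat_lit 3022952001, nat_lit 3562772800], [], [nat_lit 19911376216, nat_lit 20478543186, nat_lit 20036318756, nat_lit 20591074697, nat_lit 21533594405, nat_lit 22059993784, nat_lit 21622968046, nat_lit 22138259488], nat_lit 0, nat_lit 0, nat_lit 0, nat_lit 0, nat_lit 0, nat_lit 0, [], [nat_lit 127, nat_lit 40, nat_lit 40, nat_lit 80]⟩, ⟨p069_k33, nat_lit 0, nat_lit 0, nat_lit 0, nat_lit 0, nat_lit 539408, [nat_lit 524256000, nat_lit 846756000, nat_lit 1209504000, nat_lit 2055744000], [], [nat_lit 5271560346, nat_lit 4816490968, nat_lit 4354725700, nat_lit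 4107844267, nat_lit 6477481412, nat_lit 6070233047, nat_lit 6874430848, nat_lit 6469846900], nat_lit 1271250, nat_lit 1271250, nat_lit 631250, nat_lit 780000, nat_lit 1100001, nat_lit 2470000, [nat_lit 490000, nat_lit 780000, nat_lit 1100000, nat_lit 1785000], [nat_lit 154, nat_lit 40, nat_lit 40, nat_lit 80]⟩,
 ⟨nat_lit 5000, nat_lit 5245, ⟨.ofNat (nat_lit 402610), .ofNat (nat_lit 439194), .ofNat (nat_lit 413302), .ofNat (nat_lit 449886), .ofNat (nat_lit 407139), .ofNat (nat_lit 442852), .ofNat (nat_lit 417852), .ofNat (nat_lit 453565)⟩, ⟨.ofNat (nat_lit 575999), .ofNat (nat_lit 627219), .ofNat (nat_lit 597385), .ofNat (nat_lit 648604), .ofNat (nat_lit 571427), .ofNat (nat_lit 621427), .ofNat (nat_lit 592856), .ofNat (nat_lit 642856)⟩⟩, [⟨nat_lit 16, nat_lit 97, nat_lit 84, nat_lit 100, nat_lit 221989789⟩, ⟨nat_lit 23, nat_lit 92, nat_lit 98, nat_lit 100, nat_lit 103625809⟩]⟩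
noncomputable def p069_l136 : Lf2 := ⟨nat_lit 0, nat_lit 5, [nat_lit 4, nat_lit 5, nat_lit 5, nat_lit 20], false, nat_lit 300, nat_lit 328, nat_lit 160, nat_lit 320, ⟨nat_lit 1000, nat_lit 0, nat_lit 0, nat_lit 0, nat_lit 0, nat_lit 0, nat_lit 0, nat_lit 0, nat_lit 0, nat_lit 0, nat_lit 0, nat_lit 0, nat_lit 0, nat_lit 0, nat_lit 0, nat_lit 0, false, false⟩,
 nat_lit 0, nat_lit 0, nat_lit 8462, nat_lit 0, nat_lit 5460, nat_lit 5619, nat_lit 0, nat_lit 195, nat_lit 0, nat_lit 3432, nat_lit 0, nat_lit 0, nat_lit 0, nat_lit 0, nat_lit 0, nat_lit 0, nat_lit 0, nat_lit 0, [],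
 ⟨p069_k32, nat_lit 0, nat_lit 0, nat_lit 0, nat_lit 0, nat_lit 0, [nat_lit 3592000000, nat_lit 5622000000, nat_lit 7808000001, nat_lit 10150000000], [], [nat_lit 21148041395, nat_lit 21886396350, nat_lit 21050896050, nat_lit 21771006960, nat_lit 23267503937, nat_lit 23944178248, nat_lit 23118018746, nat_lit 23778145068], nat_lit 0, nat_lit 0, nat_lit 0, nat_lit 0, nat_lit 0, nat_lit 0, [], [nat_lit 127, nat_lit 40, nat_lit 40, nat_lit 80]⟩, ⟨p069_k32, nat_lit 0, nat_lit 0, nat_lit 0, nat_lit 0, nat_lit 590919, [nat_lit 2032000000, nat_lit 3282000000, nat_lit 4688000000, nat_lit 6250000000], [], [nat_lit 19800225996, nat_lit 18369316741, nat_lit 17070162538, nat_lit 17651798480, nat_lit 22906625852, nat_lit 23357738483, nat_lit 24073443626, nat_lit 23250774484], nat_lit 1271250, nat_lit 1271250, nat_lit 631250, nat_lit 780000, nat_lit 1100001, nat_lit 2470000, [nat_lit 490000, nat_lit 780000, nat_lit 1100000, nat_lit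 1442500], [nat_lit 127, nat_lit 40, nat_lit 40, nat_lit 80]⟩,
 zbF0, [⟨nat_lit 4, nat_lit 92, nat_lit 99, nat_lit 100, nat_lit 338476496⟩, ⟨nat_lit 23, nat_lit 92, nat_lit 98, nat_lit 100, nat_lit 398461758⟩]⟩
noncomputable def p069_l137 : Lf2 := ⟨nat_lit 0, nat_lit 10, [nat_lit 0, nat_lit 5, nat_lit 5, nat_lit 20], false, nat_lit 300, nat_lit 328, nat_lit 160, nat_lit 320, ⟨nat_lit 1000, nat_lit 0, nat_lit 0, nat_lit 0, nat_lit 0, nat_lit 0, nat_lit 0, nat_lit 0, nat_lit 0, nat_lit 0, nat_lit 0, nat_lit 0, nat_lit 0, nat_lit 0, nat_lit 0, nat_lit 0, false, false⟩,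
 nat_lit 0, nat_lit 0, nat_lit 8850, nat_lit 0, nat_lit 7094, nat_lit 5631, nat_lit 0, nat_lit 180, nat_lit 0, nat_lit 992, nat_lit 0, nat_lit 0, nat_lit 0, nat_lit 16013450896844, nat_lit 0, nat_lit 0, nat_lit 0, nat_lit 0, [],
 ⟨p069_k11, nat_lit 0, nat_lit 0, nat_lit 0, nat_lit 0, nat_lit 0, [nat_lit 5442000000, nat_lit 9850000001, nat_lit 12288000000], [], [nat_lit 21937072073, nat_lit 22752512725, nat_lit 21694140301, nat_lit 22488147506, nat_lit 24452509077, nat_lit 25275200008, nat_lit 24036984449, nat_lit 24839515723], nat_lit 0, nat_lit 0, nat_lit 0, nat_lit 0, nat_lit 0, nat_lit 0, [], [nat_lit 18, nat_lit 40, nat_lit 40, nat_lit 80]⟩, ⟨p069_k7, nat_lit 0, nat_lit 0, nat_lit 0, nat_lit 0, nat_lit 275009, [nat_lit 3282000000, nat_lit 6250000000, nat_lit 9842000000], [], [nat_lit 19493075214, nat_lit 20764317864, nat_lit 19468498248, nat_lit 20706853996, nat_lit 25684520430, nat_lit 26661556096, nat_lit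 26163758736, nat_lit 26521388968], nat_lit 1271250, nat_lit 1271250, nat_lit 631250, nat_lit 780000, nat_lit 1100001, nat_lit 2470000, [nat_lit 780000, nat_lit 1435000, nat_lit 1271250], [nat_lit 8, nat_lit 40, nat_lit 40, nat_lit 80]⟩,
 zbF0, [⟨nat_lit 16, nat_lit 99, nat_lit 92, nat_lit 100, nat_lit 369500959⟩, ⟨nat_lit 23, nat_lit 92, nat_lit 98, nat_lit 100, nat_lit 444276292⟩]⟩
noncomputable def p069_l138 : Lf2 := ⟨nat_lit 0, nat_lit 10, [nat_lit 0, nat_lit 5, nat_lit 5, nat_lit 20], false, nat_lit 300, nat_lit 328, nat_lit 0, nat_lit 160, ⟨nat_lit 1000, nat_lit 0, nat_lit 0, nat_lit 0, nat_lit 0, nat_lit 0, nat_lit 0, nat_lit 0, nat_lit 0, nat_lit 0, nat_lit 0, nat_lit 0, nat_lit 0, nat_lit 0, nat_lit 0, nat_lit 0, false, false⟩,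
 nat_lit 0, nat_lit 0, nat_lit 8873, nat_lit 0, nat_lit 4814, nat_lit 5646, nat_lit 0, nat_lit 0, nat_lit 0, nat_lit 989, nat_lit 0, nat_lit 0, nat_lit 0, nat_lit 0, nat_lit 0, nat_lit 0, nat_lit 0, nat_lit 0, [],
 ⟨p069_k11, nat_lit 0, nat_lit 0, nat_lit 0, nat_lit 0, nat_lit 0, [nat_lit 3282000000, nat_lit 6250000000, nat_lit 7968000000], [], [nat_lit 21180112850, nat_lit 21858965079, nat_lit 20996491313, nat_lit 21654508225, nat_lit 23127179601, nat_lit 23811132350, nat_lit 22883760263, nat_lit 23489208748], nat_lit 0, nat_lit 0, nat_lit 0, nat_lit 0, nat_lit 0, nat_lit 0, [], [nat_lit 18, nat_lit 40, nat_lit 40, nat_lit 80]⟩, ⟨p069_k7, nat_lit 0, nat_lit 0, nat_lit 0, nat_lit 0, nat_lit 365861, [nat_lit 3282000000, nat_lit 6250000000, nat_lit 9842000000], [], [nat_lit 30742603004, nat_lit 28834535385, nat_lit 27577054821, nat_lit 28629608239, nat_lit 26042668140, nat_lit 26851466281, nat_lit 27504588084, nat_lit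 26745995848], nat_lit 1271250, nat_lit 1271250, nat_lit 435600, nat_lit 631250, nat_lit 0, nat_lit 1100001, [nat_lit 780000, nat_lit 1435000, nat_lit 1271250], [nat_lit 8, nat_lit 40, nat_lit 40, nat_lit 80]⟩,
 zbF0, [⟨nat_lit 0, nat_lit 100, nat_lit 97, nat_lit 84, nat_lit 406714777⟩, ⟨nat_lit 16, nat_lit 97, nat_lit 84, nat_lit 100, nat_lit 616106311⟩]⟩
noncomputable def p069_l139 : Lf2 := ⟨nat_lit 0, nat_lit 10, [nat_lit 0, nat_lit 5, nat_lit 5, nat_lit 20], false, nat_lit 300, nat_lit 328, nat_lit 160, nat_lit 300, ⟨nat_lit 1000, nat_lit 0, nat_lit 0, nat_lit 0, nat_lit 0, nat_lit 0, nat_lit 0, nat_lit 0, nat_lit 0, nat_lit 0, nat_lit 0, nat_lit 0, nat_lit 0, nat_lit 0, nat_lit 0, nat_lit 0, false, false⟩,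
 nat_lit 0, nat_lit 0, nat_lit 14186, nat_lit 0, nat_lit 15348, nat_lit 9027, nat_lit 0, nat_lit 979, nat_lit 0, nat_lit 1209, nat_lit 0, nat_lit 0, nat_lit 0, nat_lit 9810325684600, nat_lit 0, nat_lit 0, nat_lit 0, nat_lit 0, [],
 ⟨p069_k11, nat_lit 0, nat_lit 0, nat_lit 0, nat_lit 0, nat_lit 0, [nat_lit 15030000001, nat_lit 25830000000, nat_lit 31464000000], [], [nat_lit 28939037161, nat_lit 29658567127, nat_lit 27110560492, nat_lit 27803231597, nat_lit 33094864499, nat_lit 33739750751, nat_lit 31111953732, nat_lit 31733126588], nat_lit 0, nat_lit 0, nat_lit 0, nat_lit 0, nat_lit 0, nat_lit 0, [], [nat_lit 18, nat_lit 40, nat_lit 40, nat_lit 80]⟩, ⟨p069_k7, nat_lit 0, nat_lit 0, nat_lit 0, nat_lit 0, nat_lit 313123, [nat_lit 3282000000, nat_lit 6250000000, nat_lit 9842000000], [], [nat_lit 17056179335, nat_lit 18173108014, nat_lit 16375642049, nat_lit 17451616439, nat_lit 23474041274, nat_lit 24477452577, nat_lit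 22698641896, nat_lit 23627511147], nat_lit 1271250, nat_lit 1271250, nat_lit 435600, nat_lit 631250, nat_lit 1100001, nat_lit 2298750, [nat_lit 780000, nat_lit 1435000, nat_lit 1271250], [nat_lit 8, nat_lit 40, nat_lit 40, nat_lit 80]⟩,
 zbF0, [⟨nat_lit 0, nat_lit 100, nat_lit 99, nat_lit 89, nat_lit 607983309⟩, ⟨nat_lit 16, nat_lit 97, nat_lit 84, nat_lit 100, nat_lit 980870513⟩, ⟨nat_lit 23, nat_lit 88, nat_lit 100, nat_lit 88, nat_lit 568544718⟩]⟩
noncomputable def p069_l140 : Lf2 := ⟨nat_lit 0, nat_lit 10, [nat_lit 0, nat_lit 5, nat_lit 5, nat_lit 20], false, nat_lit 300, nat_lit 324, nat_lit 160, nat_lit 300, ⟨nat_lit 1000, nat_lit 0, nat_lit 0, nat_lit 0, nat_lit 0, nat_lit 0, nat_lit 0, nat_lit 0, nat_lit 0, nat_lit 0, nat_lit 0, nat_lit 0, nat_lit 0, nat_lit 0, nat_lit 0, nat_lit 0, false, false⟩,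
 nat_lit 0, nat_lit 0, nat_lit 15364, nat_lit 0, nat_lit 100000, nat_lit 9777, nat_lit 0, nat_lit 8736, nat_lit 0, nat_lit 1304, nat_lit 0, nat_lit 0, nat_lit 0, nat_lit 0, nat_lit 0, nat_lit 0, nat_lit 0, nat_lit 0, [],
 ⟨p069_k28, nat_lit 0, nat_lit 0, nat_lit 0, nat_lit 0, nat_lit 0, [nat_lit 108114000001, nat_lit 180970000000, nat_lit 217632000000], [], [nat_lit 90671002414, nat_lit 94426988052, nat_lit 78534968314, nat_lit 82150059251, nat_lit 108318127691, nat_lit 112129741820, nat_lit 95517108764, nat_lit 98759740951], nat_lit 0, nat_lit 0, nat_lit 0, nat_lit 0, nat_lit 0, nat_lit 0, [], [nat_lit 18, nat_lit 40, nat_lit 40, nat_lit 80]⟩, ⟨p069_k7, nat_lit 0, nat_lit 0, nat_lit 0, nat_lit 0, nat_lit 365861, [nat_lit 3282000000, nat_lit 6250000000, nat_lit 9842000000], [], [nat_lit 15017943755, nat_lit 16945870763, nat_lit 14591646586, nat_lit 16455325399, nat_lit 23014462445, nat_lit 25318133413, nat_lit 24851345790,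 nat_lit 24349960982], nat_lit 1271250, nat_lit 1271250, nat_lit 462650, nat_lit 631250, nat_lit 1100001, nat_lit 2298750, [nat_lit 780000, nat_lit 1435000, nat_lit 1271250], [nat_lit 8, nat_lit 40, nat_lit 40, nat_lit 80]⟩,
 zbF0, [⟨nat_lit 0, nat_lit 100, nat_lit 96, nat_lit 86, nat_lit 2416574760⟩, ⟨nat_lit 16, nat_lit 96, nat_lit 86, nat_lit 100, nat_lit 7914403760⟩, ⟨nat_lit 23, nat_lit 89, nat_lit 100, nat_lit 89, nat_lit 637820925⟩]⟩
noncomputable def p069_l141 : Lf2 := ⟨nat_lit 0, nat_lit 10, [nat_lit 0, nat_lit 5, nat_lit 5, nat_lit 20], true, nat_lit 300, nat_lit 328, nat_lit 0, nat_lit 320, ⟨nat_lit 0, nat_lit 1000, nat_lit 0, nat_lit 7, nat_lit 173, nat_lit 1000, nat_lit 244, nat_lit 0, nat_lit 0, nat_lit 0, nat_lit 0, nat_lit 0, nat_lit 40898589, nat_lit 9590446, nat_lit 16510965, nat_lit 4976810, false, false⟩,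
 nat_lit 0, nat_lit 0, nat_lit 0, nat_lit 2857, nat_lit 100000, nat_lit 0, nat_lit 0, nat_lit 8631, nat_lit 0, nat_lit 0, nat_lit 0, nat_lit 0, nat_lit 0, nat_lit 14796417758183, nat_lit 0, nat_lit 250000, nat_lit 0, nat_lit 0, [(nat_lit 12, [(nat_lit 0, nat_lit 1000)])],
 ⟨p069_k11, nat_lit 0, nat_lit 0, nat_lit 0, nat_lit 0, nat_lit 0, [nat_lit 105936000000, nat_lit 175495200001, nat_lit 210385599999], [], [nat_lit 72741877375, nat_lit 79972059250, nat_lit 63798252250, nat_lit 70782818500, nat_lit 93737530201, nat_lit 100954458000, nat_lit 84082374401, nat_lit 90225920801], nat_lit 0, nat_lit 0, nat_lit 0, nat_lit 0, nat_lit 0, nat_lit 0, [], [nat_lit 18, nat_lit 40, nat_lit 40, nat_lit 80]⟩, C1.Rw.none,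
 ⟨nat_lit 5000, nat_lit 5245, ⟨.ofNat (nat_lit 402610), .ofNat (nat_lit 439194), .ofNat (nat_lit 423993), .ofNat (nat_lit 460577), .ofNat (nat_lit 407139), .ofNat (nat_lit 442852), .ofNat (nat_lit 428565), .ofNat (nat_lit 464278)⟩, ⟨.ofNat (nat_lit 575999), .ofNat (nat_lit 627219), .ofNat (nat_lit 597385), .ofNat (nat_lit 648604), .ofNat (nat_lit 571427), .ofNat (nat_lit 621427), .ofNat (nat_lit 592856), .ofNat (nat_lit 642856)⟩⟩, [⟨nat_lit 16, nat_lit 97, nat_lit 84, nat_lit 100, nat_lit 8261982533⟩]⟩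
noncomputable def p069_l142 : Lf2 := ⟨nat_lit 0, nat_lit 10, [nat_lit 0, nat_lit 5, nat_lit 5, nat_lit 20], false, nat_lit 300, nat_lit 328, nat_lit 0, nat_lit 300, ⟨nat_lit 0, nat_lit 1000, nat_lit 0, nat_lit 7, nat_lit 156, nat_lit 1000, nat_lit 244, nat_lit 0, nat_lit 0, nat_lit 0, nat_lit 0, nat_lit 0, nat_lit 41949682, nat_lit 8265332, nat_lit 16784986, nat_lit 4821609, false, false⟩,
 nat_lit 0, nat_lit 0, nat_lit 100000, nat_lit 0, nat_lit 3916, nat_lit 63636, nat_lit 0, nat_lit 0, nat_lit 0, nat_lit 3778, nat_lit 1948, nat_lit 0, nat_lit 0, nat_lit 0, nat_lit 0, nat_lit 400000, nat_lit 0, nat_lit 18794693309, [(nat_lit 12, [(nat_lit 1, nat_lit 1000)])],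
 ⟨p069_k11, nat_lit 0, nat_lit 0, nat_lit 0, nat_lit 0, nat_lit 0, [nat_lit 2068400000, nat_lit 2721200001, nat_lit 2682000000], [], [nat_lit 20348774995, nat_lit 21023866593, nat_lit 20263171347, nat_lit 20859185400, nat_lit 22282806511, nat_lit 22903526983, nat_lit 22082502865, nat_lit 22686468581], nat_lit 0, nat_lit 0, nat_lit 0, nat_lit 0, nat_lit 0, nat_lit 0, [], [nat_lit 18, nat_lit 40, nat_lit 40, nat_lit 80]⟩, ⟨p069_k7, nat_lit 0, nat_lit 0, nat_lit 422, nat_lit 0, nat_lit 365861, [nat_lit 23376000000, nat_lit 38960000000, nat_lit 54544000000], [], [nat_lit 81159866721, nat_lit 52956042380, nat_lit 35254816309, nat_lit 43103356863, nat_lit 18884164363, nat_lit 1495554695, nat_lit 28450207881, nat_lit 0], nat_lit 1271250, nat_lit 1271250, nat_lit 435600, nat_lit 631250, nat_lit 0, nat_lit 2118750, [nat_lit 780000, nat_lit 1435000, nat_lit 1271250], [nat_lit 8, nat_lit 40, nat_lit 40, nat_lit 80, nat_lit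 1, nat_lit 317, nat_lit 100, nat_lit 9]⟩,
 ⟨nat_lit 5000, nat_lit 5245, ⟨.ofNat (nat_lit 351391), .ofNat (nat_lit 402610), .ofNat (nat_lit 372775), .ofNat (nat_lit 423993), .ofNat (nat_lit 357140), .ofNat (nat_lit 407139), .ofNat (nat_lit 378567), .ofNat (nat_lit 428565)⟩, ⟨.ofNat (nat_lit 575999), .ofNat (nat_lit 627219), .ofNat (nat_lit 597385), .ofNat (nat_lit 648604), .ofNat (nat_lit 571427), .ofNat (nat_lit 621427), .ofNat (nat_lit 592856), .ofNat (nat_lit 642856)⟩⟩, [⟨nat_lit 4, nat_lit 92, nat_lit 99, nat_lit 100, nat_lit 195053078⟩, ⟨nat_lit 23, nat_lit 100, nat_lit 100, nat_lit 100, nat_lit 91282897⟩]⟩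
noncomputable def p069_l143 : Lf2 := ⟨nat_lit 0, nat_lit 10, [nat_lit 0, nat_lit 5, nat_lit 5, nat_lit 20], false, nat_lit 300, nat_lit 328, nat_lit 0, nat_lit 320, ⟨nat_lit 0, nat_lit 1000, nat_lit 0, nat_lit 7, nat_lit 173, nat_lit 1000, nat_lit 244, nat_lit 0, nat_lit 0, nat_lit 0, nat_lit 0, nat_lit 0, nat_lit 40898589, nat_lit 9590446, nat_lit 16510965, nat_lit 4976810, false, false⟩,
 nat_lit 0, nat_lit 0, nat_lit 4265, nat_lit 0, nat_lit 3867, nat_lit 2714, nat_lit 0, nat_lit 0, nat_lit 0, nat_lit 880, nat_lit 152, nat_lit 0, nat_lit 0, nat_lit 3158083408702, nat_lit 0, nat_lit 400000, nat_lit 0, nat_lit 0, [(nat_lit 12, [(nat_lit 1, nat_lit 1000)])],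
 ⟨p069_k26, nat_lit 0, nat_lit 0, nat_lit 0, nat_lit 0, nat_lit 0, [nat_lit 2033400000, nat_lit 2574800000, nat_lit 2711866667], [], [nat_lit 20254378164, nat_lit 20847008988, nat_lit 20313656556, nat_lit 20892640683, nat_lit 22045960919, nat_lit 22646554220, nat_lit 22008717171, nat_lit 22596375746], nat_lit 0, nat_lit 0, nat_lit 0, nat_lit 0, nat_lit 0, nat_lit 0, [], [nat_lit 36, nat_lit 40, nat_lit 40, nat_lit 80]⟩, ⟨p069_k23, nat_lit 0, nat_lit 0, nat_lit 498, nat_lit 0, nat_lit 646572, [nat_lit 1824000000, nat_lit 2432000000, nat_lit 4256000000], [], [nat_lit 5932320404, nat_lit 4529404952, nat_lit 4518928912, nat_lit 3126489500, nat_lit 2020265120, nat_lit 830067812, nat_lit 2421937120, nat_lit 1225965844], nat_lit 1271250, nat_lit 1271250, nat_lit 631250, nat_lit 780000, nat_lit 0, nat_lit 2260000, [nat_lit 780000, nat_lit 1100000, nat_lit 2127500], [nat_lit 42, nat_lit 40, nat_lit 40, nat_lit 80, nat_lit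 13, nat_lit 345, nat_lit 125, nat_lit 10]⟩,
 ⟨nat_lit 5000, nat_lit 5245, ⟨.ofNat (nat_lit 402610), .ofNat (nat_lit 439194), .ofNat (nat_lit 423993), .ofNat (nat_lit 460577), .ofNat (nat_lit 407139), .ofNat (nat_lit 442852), .ofNat (nat_lit 428565), .ofNat (nat_lit 464278)⟩, ⟨.ofNat (nat_lit 575999), .ofNat (nat_lit 627219), .ofNat (nat_lit 597385), .ofNat (nat_lit 648604), .ofNat (nat_lit 571427), .ofNat (nat_lit 621427), .ofNat (nat_lit 592856), .ofNat (nat_lit 642856)⟩⟩, [⟨nat_lit 4, nat_lit 92, nat_lit 99, nat_lit 100, nat_lit 244823985⟩, ⟨nat_lit 11, nat_lit 95, nat_lit 95, nat_lit 100, nat_lit 19126781⟩]⟩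
noncomputable def b_V_700_700_20_7 : St := ⟨true, nat_lit 0, nat_lit 1, nat_lit 1, nat_lit 120, nat_lit 290, nat_lit 300, nat_lit 280, nat_lit 300, nat_lit 72, nat_lit 120, nat_lit 100, nat_lit 120, nat_lit 300, nat_lit 328, nat_lit 0, nat_lit 320, nat_lit 0, nat_lit 40, nat_lit 300, nat_lit 460, nat_lit 0, nat_lit 0⟩
theorem d_V_700_700_20_7 (h : EB TB.env) : Dead b_V_700_700_20_7 := chkB_sound0 h (T :=
(.spl (nat_lit 8) (nat_lit 800)
(.spl (nat_lit 8) (nat_lit 400)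
(.leaf p069_l120)
(.spl (nat_lit 7) (nat_lit 380)
(.spl (nat_lit 5) (nat_lit 160)
(.spl (nat_lit 2) (nat_lit 100)
(.leaf p069_l121)
(.leaf p069_l122))
(.spl (nat_lit 5) (nat_lit 240)
(.spl (nat_lit 0) (nat_lit 295)
(.ord (.leaf p069_l123))
(.trZ (nat_lit 0) (nat_lit 100) (nat_lit 96) (nat_lit 86) (nat_lit 76) (.trX (nat_lit 16) (nat_lit 96) (nat_lit 86) (nat_lit 100) (nat_lit 324) (.spl (nat_lit 1) (nat_lit 290)
(.leaf p069_l124)
(.trZ (nat_lit 0) (nat_lit 100) (nat_lit 99) (nat_lit 92) (nat_lit 84) (.leaf p069_l125))))))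
(.spl (nat_lit 6) (nat_lit 20)
(.spl (nat_lit 1) (nat_lit 290)
(.leaf p069_l126)
(.trZ (nat_lit 0) (nat_lit 100) (nat_lit 100) (nat_lit 90) (nat_lit 80) (.leaf p069_l127)))
(.leaf p069_l128))))
(.spl (nat_lit 7) (nat_lit 420)
(.spl (nat_lit 2) (nat_lit 100)
(.trX (nat_lit 23) (nat_lit 100) (nat_lit 100) (nat_lit 100) (nat_lit 300) (.spl (nat_lit 5) (nat_lit 160)
(.leaf p069_l129)
(.spl (nat_lit 0) (nat_lit 295)
(.ord (.spl (nat_lit 1) (nat_lit 290)
(.leaf p069_l130)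
(.trZ (nat_lit 0) (nat_lit 100) (nat_lit 100) (nat_lit 90) (nat_lit 80) (.leaf p069_l131))))
(.trZ (nat_lit 0) (nat_lit 100) (nat_lit 96) (nat_lit 86) (nat_lit 76) (.trX (nat_lit 16) (nat_lit 96) (nat_lit 86) (nat_lit 100) (nat_lit 324) (.spl (nat_lit 1) (nat_lit 290)
(.leaf p069_l132)
(.trZ (nat_lit 0) (nat_lit 100) (nat_lit 99) (nat_lit 92) (nat_lit 84) (.leaf p069_l133))))))))
(.spl (nat_lit 5) (nat_lit 160)
(.leaf p069_l134)
(.spl (nat_lit 6) (nat_lit 20)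
(.spl (nat_lit 1) (nat_lit 290)
(.leaf p069_l135)
(.leaf p069_l136))
(.leaf p069_l137))))
(.spl (nat_lit 2) (nat_lit 100)
(.trX (nat_lit 23) (nat_lit 100) (nat_lit 100) (nat_lit 100) (nat_lit 300) (.spl (nat_lit 5) (nat_lit 160)
(.leaf p069_l138)
(.spl (nat_lit 0) (nat_lit 295)
(.ord (.leaf p069_l139))
(.trZ (nat_lit 0) (nat_lit 100) (nat_lit 96) (nat_lit 86) (nat_lit 76) (.trX (nat_lit 16) (nat_lit 96) (nat_lit 86) (nat_lit 100) (nat_lit 324) (.leaf p069_l140))))))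
(.leaf p069_l141)))))
(.spl (nat_lit 2) (nat_lit 100)
(.trX (nat_lit 23) (nat_lit 100) (nat_lit 100) (nat_lit 100) (nat_lit 300) (.leaf p069_l142))
(.leaf p069_l143)))) (by decide +kernel)
noncomputable def p069_l144 : Lf2 := ⟨nat_lit 0, nat_lit 10, [nat_lit 0, nat_lit 5, nat_lit 5, nat_lit 20], true, nat_lit 160, nat_lit 240, nat_lit 0, nat_lit 336, ⟨nat_lit 0, nat_lit 1000, nat_lit 0, nat_lit 7, nat_lit 224, nat_lit 1000, nat_lit 157, nat_lit 0, nat_lit 0, nat_lit 0, nat_lit 0, nat_lit 0, nat_lit 43529670, nat_lit 14932603, nat_lit 8537727, nat_lit 4711265, false, false⟩,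
 nat_lit 0, nat_lit 0, nat_lit 0, nat_lit 2840, nat_lit 4429, nat_lit 0, nat_lit 0, nat_lit 0, nat_lit 0, nat_lit 0, nat_lit 0, nat_lit 0, nat_lit 0, nat_lit 14163026494386, nat_lit 0, nat_lit 250000, nat_lit 0, nat_lit 0, [(nat_lit 12, [(nat_lit 0, nat_lit 1000)])],
 ⟨p069_k7, nat_lit 0, nat_lit 0, nat_lit 11, nat_lit 0, nat_lit 0, [nat_lit 2364000000, nat_lit 2954000000, nat_lit 3510800000], [], [nat_lit 12422987168, nat_lit 14111806956, nat_lit 16743108016, nat_lit 18095098528, nat_lit 15975607936, nat_lit 17412638266, nat_lit 19510747960, nat_lit 20669298082], nat_lit 0, nat_lit 0, nat_lit 0, nat_lit 0, nat_lit 0, nat_lit 0, [], [nat_lit 8, nat_lit 40, nat_lit 40, nat_lit 80, nat_lit 1, nat_lit 345, nat_lit 125, nat_lit 9]⟩, C1.Rw.none,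
 ⟨nat_lit 5000, nat_lit 5478, ⟨.ofNat (nat_lit 435548), .ofNat (nat_lit 660309), .ofNat (nat_lit 456895), .ofNat (nat_lit 681655), .ofNat (nat_lit 442843), .ofNat (nat_lit 657090), .ofNat (nat_lit 464262), .ofNat (nat_lit 678509)⟩, ⟨.ofNat (nat_lit 296923), .ofNat (nat_lit 446789), .ofNat (nat_lit 339637), .ofNat (nat_lit 489503), .ofNat (nat_lit 299999), .ofNat (nat_lit 442856), .ofNat (nat_lit 342856), .ofNat (nat_lit 485713)⟩⟩, []⟩
noncomputable def p069_l145 : Lf2 := ⟨nat_lit 0, nat_lit 10, [nat_lit 0, nat_lit 5, nat_lit 5, nat_lit 20], false, nat_lit 240, nat_lit 280, nat_lit 0, nat_lit 336, ⟨nat_lit 92, nat_lit 908, nat_lit 0, nat_lit 7, nat_lit 224, nat_lit 908, nat_lit 201, nat_lit 0, nat_lit 0, nat_lit 0, nat_lit 0, nat_lit 0, nat_lit 40634081, nat_lit 14307925, nat_lit 12057994, nat_lit 5079805, false, false⟩,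
 nat_lit 0, nat_lit 0, nat_lit 1226, nat_lit 0, nat_lit 4446, nat_lit 780, nat_lit 0, nat_lit 0, nat_lit 0, nat_lit 38, nat_lit 0, nat_lit 0, nat_lit 0, nat_lit 4038174510798, nat_lit 0, nat_lit 227000, nat_lit 0, nat_lit 0, [(nat_lit 12, [(nat_lit 0, nat_lit 908)])],
 ⟨p069_k7, nat_lit 0, nat_lit 0, nat_lit 31, nat_lit 0, nat_lit 0, [nat_lit 2448456001, nat_lit 3257232000, nat_lit 4086094400], [], [nat_lit 16041520065, nat_lit 17481419485, nat_lit 19578089041, nat_lit 20738706669, nat_lit 18512010865, nat_lit 19815396465, nat_lit 21575473248, nat_lit 22739098150], nat_lit 0, nat_lit 0, nat_lit 0, nat_lit 0, nat_lit 0, nat_lit 0, [], [nat_lit 8, nat_lit 40, nat_lit 40, nat_lit 80, nat_lit 1, nat_lit 373, nat_lit 150, nat_lit 10]⟩, ⟨p069_k7, nat_lit 0, nat_lit 0, nat_lit 588, nat_lit 0, nat_lit 796178, [nat_lit 301944000, nat_lit 575000000, nat_lit 905464000], [], [nat_lit 3905540304, nat_lit 3493124664, nat_lit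 2923880174, nat_lit 2990197302, nat_lit 2724685829, nat_lit 2766433658, nat_lit 3809544848, nat_lit 3466990688], nat_lit 1271250, nat_lit 1271250, nat_lit 780000, nat_lit 1762500, nat_lit 0, nat_lit 2373000, [nat_lit 780000, nat_lit 1435000, nat_lit 1271250], [nat_lit 8, nat_lit 40, nat_lit 40, nat_lit 80, nat_lit 1, nat_lit 373, nat_lit 150, nat_lit 11]⟩,
 ⟨nat_lit 5000, nat_lit 5478, ⟨.ofNat (nat_lit 435548), .ofNat (nat_lit 660309), .ofNat (nat_lit 456895), .ofNat (nat_lit 681655), .ofNat (nat_lit 442843), .ofNat (nat_lit 657090), .ofNat (nat_lit 464262), .ofNat (nat_lit 678509)⟩, ⟨.ofNat (nat_lit 446789), .ofNat (nat_lit 521722), .ofNat (nat_lit 489503), .ofNat (nat_lit 564436), .ofNat (nat_lit 442856), .ofNat (nat_lit 514284), .ofNat (nat_lit 485713), .ofNat (nat_lit 557141)⟩⟩, [⟨nat_lit 7, nat_lit 94, nat_lit 100, nat_lit 97, nat_lit 6548355⟩]⟩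
noncomputable def p069_l146 : Lf2 := ⟨nat_lit 0, nat_lit 5, [nat_lit 4, nat_lit 5, nat_lit 5, nat_lit 20], false, nat_lit 280, nat_lit 320, nat_lit 0, nat_lit 320, ⟨nat_lit 35, nat_lit 965, nat_lit 0, nat_lit 7, nat_lit 195, nat_lit 965, nat_lit 226, nat_lit 0, nat_lit 0, nat_lit 0, nat_lit 0, nat_lit 0, nat_lit 40903298, nat_lit 11492153, nat_lit 14604549, nat_lit 5045830, false, false⟩,
 nat_lit 0, nat_lit 0, nat_lit 599, nat_lit 0, nat_lit 4210, nat_lit 381, nat_lit 0, nat_lit 0, nat_lit 0, nat_lit 0, nat_lit 0, nat_lit 0, nat_lit 0, nat_lit 11035339532784, nat_lit 0, nat_lit 241250, nat_lit 0, nat_lit 0, [(nat_lit 12, [(nat_lit 0, nat_lit 965)])],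
 ⟨p069_k34, nat_lit 0, nat_lit 0, nat_lit 36, nat_lit 0, nat_lit 0, [nat_lit 2396130000, nat_lit 3390426000], [], [nat_lit 18654860640, nat_lit 19924002640, nat_lit 19294193420, nat_lit 20490904190, nat_lit 21063094640, nat_lit 22238246420, nat_lit 21563205000, nat_lit 22638477660], nat_lit 0, nat_lit 0, nat_lit 0, nat_lit 0, nat_lit 0, nat_lit 0, [], [nat_lit 74, nat_lit 40, nat_lit 40, nat_lit 80, nat_lit 43, nat_lit 249, nat_lit 40, nat_lit 7]⟩, ⟨p069_k34, nat_lit 0, nat_lit 0, nat_lit 491, nat_lit 0, nat_lit 750090, [nat_lit 114870000, nat_lit 278880000], [], [nat_lit 1271435104, nat_lit 1115919852, nat_lit 1064202764, nat_lit 1092128494, nat_lit 902099900, nat_lit 928950692, nat_lit 1093967564, nat_lit 925814738], nat_lit 1271250, nat_lit 1271250, nat_lit 780000, nat_lit 1100001, nat_lit 0, nat_lit 2260000, [nat_lit 780000, nat_lit 1762500], [nat_lit 74, nat_lit 40, nat_lit 40, nat_lit 80, nat_lit 43, nat_lit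 345, nat_lit 125, nat_lit 11]⟩,
 ⟨nat_lit 5000, nat_lit 5478, ⟨.ofNat (nat_lit 435548), .ofNat (nat_lit 510468), .ofNat (nat_lit 456895), .ofNat (nat_lit 531815), .ofNat (nat_lit 442843), .ofNat (nat_lit 514258), .ofNat (nat_lit 464262), .ofNat (nat_lit 535678)⟩, ⟨.ofNat (nat_lit 521722), .ofNat (nat_lit 596655), .ofNat (nat_lit 543079), .ofNat (nat_lit 618012), .ofNat (nat_lit 514284), .ofNat (nat_lit 585713), .ofNat (nat_lit 535713), .ofNat (nat_lit 607141)⟩⟩, [⟨nat_lit 16, nat_lit 100, nat_lit 97, nat_lit 94, nat_lit 278069020⟩, ⟨nat_lit 7, nat_lit 97, nat_lit 100, nat_lit 94, nat_lit 680154⟩]⟩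
noncomputable def p069_l147 : Lf2 := ⟨nat_lit 0, nat_lit 10, [nat_lit 0, nat_lit 5, nat_lit 5, nat_lit 20], false, nat_lit 280, nat_lit 320, nat_lit 0, nat_lit 320, ⟨nat_lit 174, nat_lit 826, nat_lit 0, nat_lit 7, nat_lit 192, nat_lit 826, nat_lit 226, nat_lit 0, nat_lit 0, nat_lit 0, nat_lit 0, nat_lit 0, nat_lit 41044559, nat_lit 11318032, nat_lit 14637409, nat_lit 5029758, false, false⟩,
 nat_lit 0, nat_lit 0, nat_lit 3771, nat_lit 0, nat_lit 4388, nat_lit 2399, nat_lit 0, nat_lit 0, nat_lit 0, nat_lit 34, nat_lit 0, nat_lit 0, nat_lit 0, nat_lit 0, nat_lit 0, nat_lit 206500, nat_lit 0, nat_lit 0, [(nat_lit 12, [(nat_lit 0, nat_lit 826)])],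
 ⟨p069_k7, nat_lit 0, nat_lit 0, nat_lit 52, nat_lit 0, nat_lit 0, [nat_lit 2523732000, nat_lit 3527504000, nat_lit 4598856800], [], [nat_lit 18635253792, nat_lit 19930223592, nat_lit 19261364376, nat_lit 20481684532, nat_lit 21090444192, nat_lit 22348713576, nat_lit 21573095600, nat_lit 22726292096], nat_lit 0, nat_lit 0, nat_lit 0, nat_lit 0, nat_lit 0, nat_lit 0, [], [nat_lit 8, nat_lit 40, nat_lit 40, nat_lit 80, nat_lit 1, nat_lit 249, nat_lit 40, nat_lit 6]⟩, ⟨p069_k7, nat_lit 0, nat_lit 0, nat_lit 335, nat_lit 0, nat_lit 315883, [nat_lit 571068000, nat_lit 1087500000, nat_lit 1712508000], [], [nat_lit 6312013324, nat_lit 5687340113, nat_lit 4872481778, nat_lit 5115108071, nat_lit 5122392008, nat_lit 4679337878, nat_lit 6298264192, nat_lit 5775471713], nat_lit 1271250, nat_lit 1271250, nat_lit 780000, nat_lit 1100001, nat_lit 0, nat_lit 2260000, [nat_lit 780000, nat_lit 1435000, nat_lit 1271250], [nat_lit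 8, nat_lit 40, nat_lit 40, nat_lit 80, nat_lit 1, nat_lit 345, nat_lit 125, nat_lit 10]⟩,
 ⟨nat_lit 5000, nat_lit 5478, ⟨.ofNat (nat_lit 435548), .ofNat (nat_lit 510468), .ofNat (nat_lit 446221), .ofNat (nat_lit 521142), .ofNat (nat_lit 442843), .ofNat (nat_lit 514258), .ofNat (nat_lit 453552), .ofNat (nat_lit 524968)⟩, ⟨.ofNat (nat_lit 521722), .ofNat (nat_lit 596655), .ofNat (nat_lit 543079), .ofNat (nat_lit 618012), .ofNat (nat_lit 514284), .ofNat (nat_lit 585713), .ofNat (nat_lit 535713), .ofNat (nat_lit 607141)⟩⟩, [⟨nat_lit 4, nat_lit 97, nat_lit 100, nat_lit 94, nat_lit 311690700⟩, ⟨nat_lit 19, nat_lit 100, nat_lit 88, nat_lit 94, nat_lit 16302356⟩]⟩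
noncomputable def p069_l148 : Lf2 := ⟨nat_lit 0, nat_lit 10, [nat_lit 0, nat_lit 5, nat_lit 5, nat_lit 20], false, nat_lit 280, nat_lit 312, nat_lit 0, nat_lit 312, ⟨nat_lit 130, nat_lit 870, nat_lit 0, nat_lit 7, nat_lit 197, nat_lit 870, nat_lit 222, nat_lit 0, nat_lit 0, nat_lit 0, nat_lit 0, nat_lit 0, nat_lit 41002593, nat_lit 11764030, nat_lit 14233377, nat_lit 5042721, false, false⟩,
 nat_lit 0, nat_lit 0, nat_lit 2186, nat_lit 0, nat_lit 4301, nat_lit 1451, nat_lit 0, nat_lit 0, nat_lit 0, nat_lit 0, nat_lit 0, nat_lit 0, nat_lit 0, nat_lit 8357822109102, nat_lit 0, nat_lit 217500, nat_lit 0, nat_lit 0, [(nat_lit 12, [(nat_lit 0, nat_lit 870)])],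
 ⟨p069_k35, nat_lit 0, nat_lit 0, nat_lit 33, nat_lit 0, nat_lit 0, [nat_lit 2483340000, nat_lit 3841068000], [], [nat_lit 19307985234, nat_lit 19949158284, nat_lit 19903775671, nat_lit 20508166039, nat_lit 21200544406, nat_lit 21788616870, nat_lit 21687084713, nat_lit 22242103005], nat_lit 0, nat_lit 0, nat_lit 0, nat_lit 0, nat_lit 0, nat_lit 0, [], [nat_lit 74, nat_lit 40, nat_lit 40, nat_lit 80, nat_lit 43, nat_lit 249, nat_lit 40, nat_lit 7]⟩, ⟨p069_k35, nat_lit 0, nat_lit 0, nat_lit 285, nat_lit 0, nat_lit 382921, [nat_lit 426660000, nat_lit 1035840000], [], [nat_lit 4361371285, nat_lit 3983546846, nat_lit 3534712673, nat_lit 3654152034, nat_lit 3270133760, nat_lit 3341396693, nat_lit 3602714155, nat_lit 3284314326], nat_lit 1271250, nat_lit 1271250, nat_lit 780000, nat_lit 1100001, nat_lit 0, nat_lit 2203500, [nat_lit 780000, nat_lit 1762500], [nat_lit 74, nat_lit 40, nat_lit 40, nat_lit 80, nat_lit 43, nat_lit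 345, nat_lit 125, nat_lit 11]⟩,
 ⟨nat_lit 5000, nat_lit 5245, ⟨.ofNat (nat_lit 449886), .ofNat (nat_lit 523054), .ofNat (nat_lit 460577), .ofNat (nat_lit 533746), .ofNat (nat_lit 453565), .ofNat (nat_lit 524991), .ofNat (nat_lit 464278), .ofNat (nat_lit 535704)⟩, ⟨.ofNat (nat_lit 518028), .ofNat (nat_lit 576565), .ofNat (nat_lit 539414), .ofNat (nat_lit 597950), .ofNat (nat_lit 514284), .ofNat (nat_lit 571427), .ofNat (nat_lit 535713), .ofNat (nat_lit 592856)⟩⟩, [⟨nat_lit 4, nat_lit 100, nat_lit 100, nat_lit 95, nat_lit 303308867⟩, ⟨nat_lit 7, nat_lit 100, nat_lit 100, nat_lit 95, nat_lit 14337816⟩]⟩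
noncomputable def p069_l149 : Lf2 := ⟨nat_lit 0, nat_lit 10, [nat_lit 0, nat_lit 5, nat_lit 5, nat_lit 20], false, nat_lit 280, nat_lit 320, nat_lit 4, nat_lit 320, ⟨nat_lit 55, nat_lit 945, nat_lit 0, nat_lit 7, nat_lit 236, nat_lit 945, nat_lit 227, nat_lit 0, nat_lit 0, nat_lit 0, nat_lit 0, nat_lit 0, nat_lit 38077651, nat_lit 14928218, nat_lit 13994131, nat_lit 5311976, false, false⟩,
 nat_lit 0, nat_lit 0, nat_lit 1296, nat_lit 0, nat_lit 4211, nat_lit 824, nat_lit 0, nat_lit 0, nat_lit 0, nat_lit 0, nat_lit 0, nat_lit 0, nat_lit 0, nat_lit 7368331135847, nat_lit 0, nat_lit 236250, nat_lit 0, nat_lit 0, [(nat_lit 12, [(nat_lit 0, nat_lit 945)])],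
 ⟨p069_k7, nat_lit 0, nat_lit 0, nat_lit 37, nat_lit 0, nat_lit 0, [nat_lit 2414490001, nat_lit 3135280001, nat_lit 3854726000], [], [nat_lit 19311652123, nat_lit 19910073827, nat_lit 21726396453, nat_lit 22241757969, nat_lit 21580903701, nat_lit 22118595404, nat_lit 23672081265, nat_lit 24181167848], nat_lit 0, nat_lit 0, nat_lit 0, nat_lit 0, nat_lit 0, nat_lit 0, [], [nat_lit 8, nat_lit 40, nat_lit 40, nat_lit 80, nat_lit 1, nat_lit 272, nat_lit 60, nat_lit 7]⟩, ⟨p069_k7, nat_lit 0, nat_lit 0, nat_lit 458, nat_lit 0, nat_lit 578014, [nat_lit 180510000, nat_lit 343750000, nat_lit 541310000], [], [nat_lit 1923356510, nat_lit 1709109383, nat_lit 1781406936, nat_lit 1847944990, nat_lit 1404280204, nat_lit 1468737571, nat_lit 1900112372, nat_lit 1720545468], nat_lit 1271250, nat_lit 1271250, nat_lit 1100001, nat_lit 1785000, nat_lit 21650, nat_lit 2265250, [nat_lit 780000, nat_lit 1435000, nat_lit 1271250], [nat_lit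 8, nat_lit 40, nat_lit 40, nat_lit 80, nat_lit 1, nat_lit 373, nat_lit 150, nat_lit 11]⟩,
 ⟨nat_lit 5244, nat_lit 5478, ⟨.ofNat (nat_lit 510489), .ofNat (nat_lit 660348), .ofNat (nat_lit 521166), .ofNat (nat_lit 671025), .ofNat (nat_lit 512365), .ofNat (nat_lit 658700), .ofNat (nat_lit 523056), .ofNat (nat_lit 669391)⟩, ⟨.ofNat (nat_lit 521722), .ofNat (nat_lit 596655), .ofNat (nat_lit 543079), .ofNat (nat_lit 618012), .ofNat (nat_lit 518028), .ofNat (nat_lit 591199), .ofNat (nat_lit 539414), .ofNat (nat_lit 612585)⟩⟩, [⟨nat_lit 16, nat_lit 100, nat_lit 88, nat_lit 94, nat_lit 228572555⟩, ⟨nat_lit 19, nat_lit 100, nat_lit 88, nat_lit 94, nat_lit 5352081⟩]⟩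
noncomputable def p069_l150 : Lf2 := ⟨nat_lit 0, nat_lit 10, [nat_lit 0, nat_lit 5, nat_lit 5, nat_lit 20], false, nat_lit 280, nat_lit 312, nat_lit 4, nat_lit 320, ⟨nat_lit 78, nat_lit 922, nat_lit 0, nat_lit 7, nat_lit 239, nat_lit 922, nat_lit 222, nat_lit 0, nat_lit 0, nat_lit 0, nat_lit 0, nat_lit 0, nat_lit 38232392, nat_lit 15198102, nat_lit 13569506, nat_lit 5296429, false, false⟩,
 nat_lit 0, nat_lit 0, nat_lit 1063, nat_lit 0, nat_lit 4224, nat_lit 676, nat_lit 0, nat_lit 0, nat_lit 0, nat_lit 0, nat_lit 0, nat_lit 0, nat_lit 0, nat_lit 6606280393656, nat_lit 0, nat_lit 230500, nat_lit 0, nat_lit 0, [(nat_lit 12, [(nat_lit 0, nat_lit 922)])],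
 ⟨p069_k11, nat_lit 0, nat_lit 0, nat_lit 38, nat_lit 0, nat_lit 0, [nat_lit 2435604000, nat_lit 3138434401, nat_lit 3607217199], [], [nat_lit 19920333092, nat_lit 20519616936, nat_lit 22252842312, nat_lit 22768876656, nat_lit 21689532500, nat_lit 22240118511, nat_lit 23770678581, nat_lit 24291886714], nat_lit 0, nat_lit 0, nat_lit 0, nat_lit 0, nat_lit 0, nat_lit 0, [], [nat_lit 18, nat_lit 40, nat_lit 40, nat_lit 80, nat_lit 2, nat_lit 272, nat_lit 60, nat_lit 8]⟩, ⟨p069_k7, nat_lit 0, nat_lit 0, nat_lit 562, nat_lit 0, nat_lit 773134, [nat_lit 255996000, nat_lit 487500000, nat_lit 767676000], [], [nat_lit 2552605157, nat_lit 2620734176, nat_lit 2624857638, nat_lit 2681342184, nat_lit 2371734872, nat_lit 2410138328, nat_lit 3010751224, nat_lit 2716122032], nat_lit 1271250, nat_lit 1271250, nat_lit 1100001, nat_lit 1785000, nat_lit 21650, nat_lit 2265250, [nat_lit 780000, nat_lit 1435000, nat_lit 1271250], [nat_lit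 8, nat_lit 40, nat_lit 40, nat_lit 80, nat_lit 1, nat_lit 373, nat_lit 150, nat_lit 11]⟩,
 ⟨nat_lit 5000, nat_lit 5245, ⟨.ofNat (nat_lit 512362), .ofNat (nat_lit 658699), .ofNat (nat_lit 533746), .ofNat (nat_lit 680082), .ofNat (nat_lit 514278), .ofNat (nat_lit 657129), .ofNat (nat_lit 535704), .ofNat (nat_lit 678555)⟩, ⟨.ofNat (nat_lit 518028), .ofNat (nat_lit 576565), .ofNat (nat_lit 539414), .ofNat (nat_lit 597950), .ofNat (nat_lit 514284), .ofNat (nat_lit 571427), .ofNat (nat_lit 535713), .ofNat (nat_lit 592856)⟩⟩, [⟨nat_lit 16, nat_lit 100, nat_lit 94, nat_lit 97, nat_lit 230184434⟩, ⟨nat_lit 19, nat_lit 100, nat_lit 97, nat_lit 94, nat_lit 11934950⟩]⟩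
noncomputable def p069_l151 : Lf2 := ⟨nat_lit 0, nat_lit 10, [nat_lit 0, nat_lit 5, nat_lit 5, nat_lit 20], false, nat_lit 280, nat_lit 336, nat_lit 0, nat_lit 160, ⟨nat_lit 579, nat_lit 421, nat_lit 0, nat_lit 7, nat_lit 222, nat_lit 421, nat_lit 241, nat_lit 0, nat_lit 0, nat_lit 0, nat_lit 0, nat_lit 0, nat_lit 38135994, nat_lit 13487109, nat_lit 15376897, nat_lit 5302873, false, false⟩,
 nat_lit 0, nat_lit 0, nat_lit 4821, nat_lit 0, nat_lit 3401, nat_lit 3067, nat_lit 0, nat_lit 0, nat_lit 0, nat_lit 528, nat_lit 0, nat_lit 0, nat_lit 0, nat_lit 0, nat_lit 0, nat_lit 168400, nat_lit 0, nat_lit 0, [(nat_lit 12, [(nat_lit 1, nat_lit 421)])],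
 ⟨p069_k17, nat_lit 0, nat_lit 0, nat_lit 0, nat_lit 0, nat_lit 0, [nat_lit 1762223201, nat_lit 2730826800, nat_lit 3858966800, nat_lit 6808442400], [], [nat_lit 18408064039, nat_lit 19613608005, nat_lit 21577511281, nat_lit 22566897445, nat_lit 21770709370, nat_lit 22809350185, nat_lit 24340850005, nat_lit 25200869459], nat_lit 0, nat_lit 0, nat_lit 0, nat_lit 0, nat_lit 0, nat_lit 0, [], [nat_lit 206, nat_lit 40, nat_lit 40, nat_lit 80]⟩, ⟨p069_k7, nat_lit 0, nat_lit 0, nat_lit 466, nat_lit 0, nat_lit 555486, [nat_lit 1900278000, nat_lit 3618750000, nat_lit 5698518000], [], [nat_lit 21772652228, nat_lit 20961832505, nat_lit 20149496228, nat_lit 20392545123, nat_lit 18092416460, nat_lit 18304240228, nat_lit 19142672652, nat_lit 19346166069], nat_lit 1271250, nat_lit 1271250, nat_lit 780000, nat_lit 1762500, nat_lit 0, nat_lit 1100001, [nat_lit 780000, nat_lit 1435000, nat_lit 1271250], [nat_lit 8, nat_lit 40, nat_lit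 40, nat_lit 80, nat_lit 1, nat_lit 317, nat_lit 100, nat_lit 9]⟩,
 ⟨nat_lit 5000, nat_lit 5478, ⟨.ofNat (nat_lit 435548), .ofNat (nat_lit 660309), .ofNat (nat_lit 446221), .ofNat (nat_lit 670982), .ofNat (nat_lit 442843), .ofNat (nat_lit 657090), .ofNat (nat_lit 453552), .ofNat (nat_lit 667800)⟩, ⟨.ofNat (nat_lit 543079), .ofNat (nat_lit 647986), .ofNat (nat_lit 564436), .ofNat (nat_lit 669336), .ofNat (nat_lit 535713), .ofNat (nat_lit 635713), .ofNat (nat_lit 557141), .ofNat (nat_lit 657134)⟩⟩, [⟨nat_lit 4, nat_lit 90, nat_lit 100, nat_lit 100, nat_lit 418421584⟩]⟩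
noncomputable def p069_l152 : Lf2 := ⟨nat_lit 0, nat_lit 10, [nat_lit 0, nat_lit 5, nat_lit 5, nat_lit 20], false, nat_lit 280, nat_lit 328, nat_lit 0, nat_lit 160, ⟨nat_lit 1000, nat_lit 0, nat_lit 0, nat_lit 0, nat_lit 0, nat_lit 0, nat_lit 0, nat_lit 0, nat_lit 0, nat_lit 0, nat_lit 0, nat_lit 0, nat_lit 0, nat_lit 0, nat_lit 0, nat_lit 0, false, false⟩,
 nat_lit 0, nat_lit 0, nat_lit 9810, nat_lit 0, nat_lit 4949, nat_lit 6514, nat_lit 0, nat_lit 0, nat_lit 0, nat_lit 2450, nat_lit 0, nat_lit 0, nat_lit 0, nat_lit 0, nat_lit 0, nat_lit 0, nat_lit 0, nat_lit 0, [],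
 ⟨p069_k35, nat_lit 0, nat_lit 0, nat_lit 0, nat_lit 0, nat_lit 0, [nat_lit 3282000000, nat_lit 7968000000], [], [nat_lit 19617751266, nat_lit 20305936716, nat_lit 22539892112, nat_lit 23093449556, nat_lit 22749943156, nat_lit 23349022149, nat_lit 25057708138, nat_lit 25588710239], nat_lit 0, nat_lit 0, nat_lit 0, nat_lit 0, nat_lit 0, nat_lit 0, [], [nat_lit 74, nat_lit 40, nat_lit 40, nat_lit 80]⟩, ⟨p069_k35, nat_lit 0, nat_lit 0, nat_lit 403, nat_lit 0, nat_lit 608365, [nat_lit 3282000000, nat_lit 7968000000], [], [nat_lit 31187733150, nat_lit 29491559204, nat_lit 29271322258, nat_lit 29667672578, nat_lit 24759038298, nat_lit 25125855338, nat_lit 28372384894, nat_lit 26897589238], nat_lit 1271250, nat_lit 1271250, nat_lit 780000, nat_lit 1762500, nat_lit 0, nat_lit 1100001, [nat_lit 780000, nat_lit 1762500], [nat_lit 74, nat_lit 40, nat_lit 40, nat_lit 80, nat_lit 43, nat_lit 317, nat_lit 100, nat_lit 10]⟩,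
 zbF0, [⟨nat_lit 16, nat_lit 97, nat_lit 84, nat_lit 100, nat_lit 590416317⟩]⟩
noncomputable def p069_l153 : Lf2 := ⟨nat_lit 0, nat_lit 2, [nat_lit 10, nat_lit 5, nat_lit 5, nat_lit 20], false, nat_lit 280, nat_lit 336, nat_lit 160, nat_lit 336, ⟨nat_lit 649, nat_lit 351, nat_lit 0, nat_lit 7, nat_lit 191, nat_lit 351, nat_lit 242, nat_lit 0, nat_lit 0, nat_lit 0, nat_lit 0, nat_lit 0, nat_lit 40006782, nat_lit 10983636, nat_lit 16009582, nat_lit 5103029, false, false⟩,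
 nat_lit 0, nat_lit 0, nat_lit 7035, nat_lit 0, nat_lit 4569, nat_lit 4476, nat_lit 0, nat_lit 0, nat_lit 0, nat_lit 916, nat_lit 0, nat_lit 0, nat_lit 0, nat_lit 0, nat_lit 0, nat_lit 351000, nat_lit 0, nat_lit 0, [(nat_lit 12, [(nat_lit 2, nat_lit 351)])],
 ⟨p069_k36, nat_lit 0, nat_lit 0, nat_lit 0, nat_lit 0, nat_lit 0, [nat_lit 2829546960, nat_lit 3859583841, nat_lit 4230161100], [], [nat_lit 18649404136, nat_lit 19310632366, nat_lit 19268203476, nat_lit 19890956422, nat_lit 22442412420, nat_lit 23051281107, nat_lit 22842715225, nat_lit 23374064571], nat_lit 0, nat_lit 0, nat_lit 0, nat_lit 0, nat_lit 0, nat_lit 0, [], [nat_lit 217, nat_lit 40, nat_lit 20, nat_lit 40]⟩, ⟨p069_k37, nat_lit 0, nat_lit 0, nat_lit 178, nat_lit 0, nat_lit 388999, [nat_lit 2130018000, nat_lit 3042512000, nat_lit 4056250000], [], [nat_lit 14665484396, nat_lit 14091372494, nat_lit 10524922232, nat_lit 10735175957, nat_lit 15553826082,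 nat_lit 15802609932, nat_lit 17878500696, nat_lit 17367769402], nat_lit 1271250, nat_lit 1271250, nat_lit 780000, nat_lit 1100001, nat_lit 1100001, nat_lit 2607000, [nat_lit 780000, nat_lit 1100000, nat_lit 1442500], [nat_lit 59, nat_lit 40, nat_lit 40, nat_lit 80, nat_lit 3, nat_lit 345, nat_lit 125, nat_lit 12]⟩,
 ⟨nat_lit 5244, nat_lit 5478, ⟨.ofNat (nat_lit 435559), .ofNat (nat_lit 510489), .ofNat (nat_lit 440898), .ofNat (nat_lit 515827), .ofNat (nat_lit 439196), .ofNat (nat_lit 512365), .ofNat (nat_lit 444542), .ofNat (nat_lit 517710)⟩, ⟨.ofNat (nat_lit 543079), .ofNat (nat_lit 647985), .ofNat (nat_lit 564436), .ofNat (nat_lit 669340), .ofNat (nat_lit 539414), .ofNat (nat_lit 641853), .ofNat (nat_lit 560799), .ofNat (nat_lit 663236)⟩⟩, [⟨nat_lit 4, nat_lit 87, nat_lit 100, nat_lit 99, nat_lit 266896639⟩, ⟨nat_lit 11, nat_lit 85, nat_lit 85, nat_lit 100, nat_lit 230894895⟩]⟩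
noncomputable def p069_l154 : Lf2 := ⟨nat_lit 0, nat_lit 2, [nat_lit 10, nat_lit 5, nat_lit 5, nat_lit 20], false, nat_lit 280, nat_lit 328, nat_lit 160, nat_lit 336, ⟨nat_lit 244, nat_lit 756, nat_lit 0, nat_lit 7, nat_lit 192, nat_lit 756, nat_lit 237, nat_lit 0, nat_lit 0, nat_lit 0, nat_lit 0, nat_lit 0, nat_lit 40296218, nat_lit 11137338, nat_lit 15566444, nat_lit 5085900, false, false⟩,
 nat_lit 0, nat_lit 0, nat_lit 2618, nat_lit 0, nat_lit 4090, nat_lit 1666, nat_lit 0, nat_lit 0, nat_lit 0, nat_lit 338, nat_lit 0, nat_lit 0, nat_lit 0, nat_lit 0, nat_lit 0, nat_lit 756000, nat_lit 0, nat_lit 0, [(nat_lit 12, [(nat_lit 2, nat_lit 756)])],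
 ⟨p069_k38, nat_lit 0, nat_lit 0, nat_lit 0, nat_lit 0, nat_lit 0, [nat_lit 2307485760, nat_lit 2903719040, nat_lit 2823231600], [], [nat_lit 19162778420, nat_lit 19789197720, nat_lit 19781123580, nat_lit 20372054640, nat_lit 22132992662, nat_lit 22733931292, nat_lit 22585186378, nat_lit 23117609580], nat_lit 0, nat_lit 0, nat_lit 0, nat_lit 0, nat_lit 0, nat_lit 0, [], [nat_lit 217, nat_lit 40, nat_lit 20, nat_lit 40]⟩, ⟨p069_k37, nat_lit 0, nat_lit 0, nat_lit 227, nat_lit 0, nat_lit 487900, [nat_lit 800808000, nat_lit 1143872000, nat_lit 1525000000], [], [nat_lit 5523349056, nat_lit 5309660399, nat_lit 4016818372, nat_lit 4095423764, nat_lit 5869276301, nat_lit 5935478556, nat_lit 6747820019, nat_lit 6555195766], nat_lit 1271250, nat_lit 1271250, nat_lit 780000, nat_lit 1100001, nat_lit 1100001, nat_lit 2607000, [nat_lit 780000, nat_lit 1100000, nat_lit 1442500], [nat_lit 59, nat_lit 40, nat_lit 40, nat_lit 80,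 nat_lit 3, nat_lit 345, nat_lit 125, nat_lit 12]⟩,
 ⟨nat_lit 5000, nat_lit 5245, ⟨.ofNat (nat_lit 439194), .ofNat (nat_lit 512362), .ofNat (nat_lit 444540), .ofNat (nat_lit 517708), .ofNat (nat_lit 442852), .ofNat (nat_lit 514278), .ofNat (nat_lit 448209), .ofNat (nat_lit 519634)⟩, ⟨.ofNat (nat_lit 539414), .ofNat (nat_lit 627219), .ofNat (nat_lit 560799), .ofNat (nat_lit 648604), .ofNat (nat_lit 535713), .ofNat (nat_lit 621427), .ofNat (nat_lit 557141), .ofNat (nat_lit 642856)⟩⟩, [⟨nat_lit 16, nat_lit 97, nat_lit 84, nat_lit 100, nat_lit 269946317⟩, ⟨nat_lit 11, nat_lit 85, nat_lit 85, nat_lit 100, nat_lit 86285165⟩]⟩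
noncomputable def p069_l155 : Lf2 := ⟨nat_lit 0, nat_lit 2, [nat_lit 10, nat_lit 5, nat_lit 5, nat_lit 20], false, nat_lit 280, nat_lit 332, nat_lit 160, nat_lit 332, ⟨nat_lit 318, nat_lit 682, nat_lit 0, nat_lit 7, nat_lit 194, nat_lit 682, nat_lit 239, nat_lit 0, nat_lit 0, nat_lit 0, nat_lit 0, nat_lit 0, nat_lit 40036246, nat_lit 11260131, nat_lit 15703623, nat_lit 5109932, false, false⟩,
 nat_lit 0, nat_lit 0, nat_lit 3015, nat_lit 0, nat_lit 4131, nat_lit 1960, nat_lit 0, nat_lit 0, nat_lit 0, nat_lit 1098, nat_lit 0, nat_lit 0, nat_lit 0, nat_lit 0, nat_lit 0, nat_lit 272800, nat_lit 0, nat_lit 0, [(nat_lit 12, [(nat_lit 1, nat_lit 682)])],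
 ⟨p069_k39, nat_lit 0, nat_lit 0, nat_lit 0, nat_lit 0, nat_lit 0, [nat_lit 2430454800, nat_lit 3124037601, nat_lit 3461129000], [], [nat_lit 18939017809, nat_lit 19883115964, nat_lit 19571980511, nat_lit 20462462792, nat_lit 22231502420, nat_lit 23048807304, nat_lit 22679547588, nat_lit 23452193930], nat_lit 0, nat_lit 0, nat_lit 0, nat_lit 0, nat_lit 0, nat_lit 0, [], [nat_lit 217, nat_lit 40, nat_lit 20, nat_lit 40]⟩, ⟨p069_k40, nat_lit 0, nat_lit 0, nat_lit 235, nat_lit 0, nat_lit 513846, [nat_lit 1043676000, nat_lit 1490784000, nat_lit 1987500000], [], [nat_lit 7068581076, nat_lit 6817182656, nat_lit 5332150820, nat_lit 5436622484, nat_lit 7625612673, nat_lit 7579070989, nat_lit 8729137250, nat_lit 8505204212], nat_lit 1271250, nat_lit 1271250, nat_lit 780000, nat_lit 1100001, nat_lit 1100001, nat_lit 2572750, [nat_lit 780000, nat_lit 1100000, nat_lit 1442500], [nat_lit 59, nat_lit 40, nat_lit 40, nat_lit 80,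 nat_lit 3, nat_lit 345, nat_lit 125, nat_lit 12]⟩,
 ⟨nat_lit 5000, nat_lit 5362, ⟨.ofNat (nat_lit 442710), .ofNat (nat_lit 516753), .ofNat (nat_lit 448051), .ofNat (nat_lit 522094), .ofNat (nat_lit 448203), .ofNat (nat_lit 519625), .ofNat (nat_lit 453559), .ofNat (nat_lit 524980)⟩, ⟨.ofNat (nat_lit 541250), .ofNat (nat_lit 637514), .ofNat (nat_lit 562619), .ofNat (nat_lit 658883), .ofNat (nat_lit 535713), .ofNat (nat_lit 628570), .ofNat (nat_lit 557141), .ofNat (nat_lit 649998)⟩⟩, [⟨nat_lit 4, nat_lit 91, nat_lit 99, nat_lit 100, nat_lit 248479457⟩, ⟨nat_lit 11, nat_lit 85, nat_lit 85, nat_lit 100, nat_lit 111160897⟩]⟩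
noncomputable def p069_l156 : Lf2 := ⟨nat_lit 0, nat_lit 5, [nat_lit 4, nat_lit 5, nat_lit 5, nat_lit 20], false, nat_lit 280, nat_lit 336, nat_lit 160, nat_lit 336, ⟨nat_lit 207, nat_lit 793, nat_lit 0, nat_lit 7, nat_lit 192, nat_lit 793, nat_lit 241, nat_lit 0, nat_lit 0, nat_lit 0, nat_lit 0, nat_lit 0, nat_lit 39977959, nat_lit 11125880, nat_lit 15896161, nat_lit 5110075, false, false⟩,
 nat_lit 0, nat_lit 0, nat_lit 2787, nat_lit 0, nat_lit 3174, nat_lit 1773, nat_lit 0, nat_lit 0, nat_lit 0, nat_lit 146, nat_lit 0, nat_lit 0, nat_lit 0, nat_lit 0, nat_lit 0, nat_lit 283900, nat_lit 0, nat_lit 0, [(nat_lit 12, [(nat_lit 0, nat_lit 222), (nat_lit 1, nat_lit 571)])],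
 ⟨p069_k33, nat_lit 0, nat_lit 0, nat_lit 0, nat_lit 0, nat_lit 0, [nat_lit 1564871201, nat_lit 2242916400, nat_lit 3001398801, nat_lit 3900068267], [], [nat_lit 18359252213, nat_lit 19529482697, nat_lit 19096997357, nat_lit 20204683699, nat_lit 21623604093, nat_lit 22634983388, nat_lit 22188150739, nat_lit 23148395210], nat_lit 0, nat_lit 0, nat_lit 0, nat_lit 0, nat_lit 0, nat_lit 0, [], [nat_lit 154, nat_lit 40, nat_lit 40, nat_lit 80]⟩, ⟨p069_k41, nat_lit 0, nat_lit 0, nat_lit 210, nat_lit 0, nat_lit 378420, [nat_lit 679374000, nat_lit 1293750000, nat_lit 1649376000], [], [nat_lit 4478935068, nat_lit 4024109151, nat_lit 3751879092, nat_lit 3897421413, nat_lit 5278016091, nat_lit 5375080996, nat_lit 5804048816, nat_lit 5394057459], nat_lit 1271250, nat_lit 1271250, nat_lit 780000, nat_lit 1100001, nat_lit 1100001, nat_lit 2607000, [nat_lit 780000, nat_lit 1435000, nat_lit 1271250], [nat_lit 18, nat_lit 40, nat_lit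 40, nat_lit 80, nat_lit 2, nat_lit 345, nat_lit 125, nat_lit 11]⟩,
 ⟨nat_lit 5000, nat_lit 5478, ⟨.ofNat (nat_lit 435548), .ofNat (nat_lit 510468), .ofNat (nat_lit 446221), .ofNat (nat_lit 521142), .ofNat (nat_lit 442843), .ofNat (nat_lit 514258), .ofNat (nat_lit 453552), .ofNat (nat_lit 524968)⟩, ⟨.ofNat (nat_lit 543079), .ofNat (nat_lit 647986), .ofNat (nat_lit 564436), .ofNat (nat_lit 669336), .ofNat (nat_lit 535713), .ofNat (nat_lit 635713), .ofNat (nat_lit 557141), .ofNat (nat_lit 657134)⟩⟩, [⟨nat_lit 4, nat_lit 90, nat_lit 100, nat_lit 100, nat_lit 211154928⟩, ⟨nat_lit 11, nat_lit 85, nat_lit 85, nat_lit 100, nat_lit 100409758⟩]⟩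
noncomputable def p069_l157 : Lf2 := ⟨nat_lit 0, nat_lit 5, [nat_lit 4, nat_lit 5, nat_lit 5, nat_lit 20], false, nat_lit 280, nat_lit 328, nat_lit 160, nat_lit 328, ⟨nat_lit 734, nat_lit 266, nat_lit 0, nat_lit 7, nat_lit 197, nat_lit 266, nat_lit 237, nat_lit 0, nat_lit 0, nat_lit 0, nat_lit 0, nat_lit 0, nat_lit 39955744, nat_lit 11567083, nat_lit 15477173, nat_lit 5125118, false, false⟩,
 nat_lit 0, nat_lit 0, nat_lit 6435, nat_lit 0, nat_lit 3048, nat_lit 4273, nat_lit 0, nat_lit 0, nat_lit 0, nat_lit 2482, nat_lit 0, nat_lit 0, nat_lit 0, nat_lit 0, nat_lit 0, nat_lit 106400, nat_lit 0, nat_lit 0, [(nat_lit 12, [(nat_lit 1, nat_lit 266)])],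
 ⟨p069_k31, nat_lit 0, nat_lit 0, nat_lit 0, nat_lit 0, nat_lit 0, [nat_lit 1354179000, nat_lit 2940855000, nat_lit 4089925600, nat_lit 5286654400], [], [nat_lit 18715560504, nat_lit 19302031672, nat_lit 19439440376, nat_lit 19994835512, nat_lit 21495965813, nat_lit 22013835404, nat_lit 22074421996, nat_lit 22566183647], nat_lit 0, nat_lit 0, nat_lit 0, nat_lit 0, nat_lit 0, nat_lit 0, [], [nat_lit 174, nat_lit 40, nat_lit 20, nat_lit 40]⟩, ⟨p069_k29, nat_lit 0, nat_lit 0, nat_lit 261, nat_lit 0, nat_lit 590919, [nat_lit 2408988000, nat_lit 3440992000, nat_lit 4587500000], [], [nat_lit 15944040975, nat_lit 14847892558, nat_lit 13187314754, nat_lit 13599308948, nat_lit 17294668780, nat_lit 17597029616, nat_lit 19753959798, nat_lit 18776308508], nat_lit 1271250, nat_lit 1271250, nat_lit 780000, nat_lit 1100001, nat_lit 1100001, nat_lit 2538500, [nat_lit 780000, nat_lit 1100000, nat_lit 1442500], [nat_lit 59, nat_lit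 40, nat_lit 40, nat_lit 80, nat_lit 3, nat_lit 345, nat_lit 125, nat_lit 12]⟩,
 ⟨nat_lit 5000, nat_lit 5245, ⟨.ofNat (nat_lit 449886), .ofNat (nat_lit 523054), .ofNat (nat_lit 460577), .ofNat (nat_lit 533746), .ofNat (nat_lit 453565), .ofNat (nat_lit 524991), .ofNat (nat_lit 464278), .ofNat (nat_lit 535704)⟩, ⟨.ofNat (nat_lit 539414), .ofNat (nat_lit 627219), .ofNat (nat_lit 560799), .ofNat (nat_lit 648604), .ofNat (nat_lit 535713), .ofNat (nat_lit 621427), .ofNat (nat_lit 557141), .ofNat (nat_lit 642856)⟩⟩, [⟨nat_lit 4, nat_lit 92, nat_lit 99, nat_lit 100, nat_lit 225266729⟩, ⟨nat_lit 7, nat_lit 92, nat_lit 99, nat_lit 100, nat_lit 11784473⟩, ⟨nat_lit 11, nat_lit 85, nat_lit 85, nat_lit 100, nat_lit 271281029⟩]⟩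
noncomputable def p069_l158 : Lf2 := ⟨nat_lit 0, nat_lit 5, [nat_lit 4, nat_lit 5, nat_lit 5, nat_lit 20], false, nat_lit 280, nat_lit 320, nat_lit 160, nat_lit 336, ⟨nat_lit 67, nat_lit 933, nat_lit 0, nat_lit 7, nat_lit 224, nat_lit 933, nat_lit 235, nat_lit 0, nat_lit 0, nat_lit 0, nat_lit 0, nat_lit 0, nat_lit 38391431, nat_lit 13761419, nat_lit 14847150, nat_lit 5285649, false, false⟩,
 nat_lit 0, nat_lit 0, nat_lit 889, nat_lit 0, nat_lit 3327, nat_lit 565, nat_lit 0, nat_lit 0, nat_lit 0, nat_lit 45, nat_lit 0, nat_lit 0, nat_lit 0, nat_lit 7029646283407, nat_lit 0, nat_lit 233250, nat_lit 0, nat_lit 0, [(nat_lit 12, [(nat_lit 0, nat_lit 933)])],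
 ⟨p069_k33, nat_lit 0, nat_lit 0, nat_lit 0, nat_lit 0, nat_lit 0, [nat_lit 1606552001, nat_lit 2056784401, nat_lit 2670854001, nat_lit 3547693600], [], [nat_lit 19027415639, nat_lit 20156894230, nat_lit 20103846991, nat_lit 21161748039, nat_lit 21179409017, nat_lit 22200150684, nat_lit 22116960709, nat_lit 23075981952], nat_lit 0, nat_lit 0, nat_lit 0, nat_lit 0, nat_lit 0, nat_lit 0, [], [nat_lit 154, nat_lit 40, nat_lit 40, nat_lit 80]⟩, ⟨p069_k41, nat_lit 0, nat_lit 0, nat_lit 308, nat_lit 0, nat_lit 627858, [nat_lit 219894000, nat_lit 418750000, nat_lit 533856000], [], [nat_lit 1433767324, nat_lit 1334516754, nat_lit 1297013748, nat_lit 1382994502, nat_lit 1887247868, nat_lit 1771683777, nat_lit 2230479324, nat_lit 1972603380], nat_lit 1271250, nat_lit 1271250, nat_lit 1100001, nat_lit 1442500, nat_lit 1100001, nat_lit 2607000, [nat_lit 780000, nat_lit 1435000, nat_lit 1271250], [nat_lit 18, nat_lit 40, nat_lit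 40, nat_lit 80, nat_lit 2, nat_lit 373, nat_lit 150, nat_lit 11]⟩,
 ⟨nat_lit 5000, nat_lit 5478, ⟨.ofNat (nat_lit 510468), .ofNat (nat_lit 585388), .ofNat (nat_lit 531815), .ofNat (nat_lit 606735), .ofNat (nat_lit 514258), .ofNat (nat_lit 585674), .ofNat (nat_lit 535678), .ofNat (nat_lit 607093)⟩, ⟨.ofNat (nat_lit 543079), .ofNat (nat_lit 618012), .ofNat (nat_lit 564436), .ofNat (nat_lit 639367), .ofNat (nat_lit 535713), .ofNat (nat_lit 607141), .ofNat (nat_lit 557141), .ofNat (nat_lit 628568)⟩⟩, [⟨nat_lit 4, nat_lit 90, nat_lit 100, nat_lit 100, nat_lit 166172180⟩, ⟨nat_lit 7, nat_lit 90, nat_lit 100, nat_lit 100, nat_lit 27721358⟩]⟩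
noncomputable def p069_l159 : Lf2 := ⟨nat_lit 0, nat_lit 5, [nat_lit 4, nat_lit 5, nat_lit 5, nat_lit 20], false, nat_lit 280, nat_lit 320, nat_lit 160, nat_lit 336, ⟨nat_lit 52, nat_lit 948, nat_lit 0, nat_lit 7, nat_lit 253, nat_lit 948, nat_lit 235, nat_lit 0, nat_lit 0, nat_lit 0, nat_lit 0, nat_lit 0, nat_lit 36513562, nat_lit 16175962, nat_lit 14310476, nat_lit 5429508, true, false⟩,
 nat_lit 0, nat_lit 0, nat_lit 790, nat_lit 0, nat_lit 4123, nat_lit 502, nat_lit 0, nat_lit 0, nat_lit 0, nat_lit 0, nat_lit 0, nat_lit 0, nat_lit 0, nat_lit 8639312772155, nat_lit 0, nat_lit 237000, nat_lit 0, nat_lit 0, [(nat_lit 12, [(nat_lit 0, nat_lit 948)])],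
 ⟨p069_k34, nat_lit 0, nat_lit 0, nat_lit 0, nat_lit 0, nat_lit 0, [nat_lit 2411736000, nat_lit 3471067200], [], [nat_lit 20428777938, nat_lit 21534989273, nat_lit 21796090036, nat_lit 22817704012, nat_lit 22523673248, nat_lit 23520146000, nat_lit 23725627552, nat_lit 24647520490], nat_lit 0, nat_lit 0, nat_lit 0, nat_lit 0, nat_lit 0, nat_lit 0, [], [nat_lit 74, nat_lit 40, nat_lit 40, nat_lit 80]⟩, ⟨p069_k34, nat_lit 0, nat_lit 0, nat_lit 286, nat_lit 0, nat_lit 627858, [nat_lit 170664000, nat_lit 414336000], [], [nat_lit 1160549144, nat_lit 1225951964, nat_lit 1221858808, nat_lit 1281005972, nat_lit 1674848570, nat_lit 1501312520, nat_lit 1484345317, nat_lit 1519401686], nat_lit 1271250, nat_lit 1271250, nat_lit 1271250, nat_lit 1271250, nat_lit 1100001, nat_lit 2607000, [nat_lit 780000, nat_lit 1762500], [nat_lit 74, nat_lit 40, nat_lit 40, nat_lit 80, nat_lit 43, nat_lit 373, nat_lit 150, nat_lit 11]⟩,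
 ⟨nat_lit 5000, nat_lit 5478, ⟨.ofNat (nat_lit 585388), .ofNat (nat_lit 660309), .ofNat (nat_lit 606735), .ofNat (nat_lit 681655), .ofNat (nat_lit 585674), .ofNat (nat_lit 657090), .ofNat (nat_lit 607093), .ofNat (nat_lit 678509)⟩, ⟨.ofNat (nat_lit 543079), .ofNat (nat_lit 618012), .ofNat (nat_lit 564436), .ofNat (nat_lit 639367), .ofNat (nat_lit 535713), .ofNat (nat_lit 607141), .ofNat (nat_lit 557141), .ofNat (nat_lit 628568)⟩⟩, [⟨nat_lit 4, nat_lit 90, nat_lit 100, nat_lit 100, nat_lit 190118805⟩, ⟨nat_lit 7, nat_lit 90, nat_lit 100, nat_lit 100, nat_lit 18506598⟩]⟩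
noncomputable def p069_l160 : Lf2 := ⟨nat_lit 0, nat_lit 5, [nat_lit 4, nat_lit 5, nat_lit 5, nat_lit 20], false, nat_lit 320, nat_lit 336, nat_lit 160, nat_lit 336, ⟨nat_lit 117, nat_lit 883, nat_lit 0, nat_lit 7, nat_lit 236, nat_lit 883, nat_lit 256, nat_lit 0, nat_lit 0, nat_lit 0, nat_lit 0, nat_lit 0, nat_lit 36211521, nat_lit 14382746, nat_lit 16405733, nat_lit 5450700, false, false⟩,
 nat_lit 0, nat_lit 0, nat_lit 1569, nat_lit 0, nat_lit 3129, nat_lit 998, nat_lit 0, nat_lit 0, nat_lit 0, nat_lit 81, nat_lit 0, nat_lit 0, nat_lit 0, nat_lit 10169406151342, nat_lit 0, nat_lit 353200, nat_lit 0, nat_lit 0, [(nat_lit 12, [(nat_lit 1, nat_lit 883)])],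
 ⟨p069_k33, nat_lit 0, nat_lit 0, nat_lit 0, nat_lit 0, nat_lit 0, [nat_lit 1466173601, nat_lit 2125976400, nat_lit 2822044401, nat_lit 3317708267], [], [nat_lit 21131851433, nat_lit 21630412158, nat_lit 23277658225, nat_lit 23713793672, nat_lit 22104326431, nat_lit 22581982244, nat_lit 24140912355, nat_lit 24577904124], nat_lit 0, nat_lit 0, nat_lit 0, nat_lit 0, nat_lit 0, nat_lit 0, [], [nat_lit 154, nat_lit 40, nat_lit 40, nat_lit 80]⟩, ⟨p069_k41, nat_lit 0, nat_lit 0, nat_lit 220, nat_lit 0, nat_lit 440137, [nat_lit 383994000, nat_lit 731250000, nat_lit 932256000], [], [nat_lit 2134817552, nat_lit 2216878728, nat_lit 2644947740, nat_lit 2455852641, nat_lit 2955303841, nat_lit 3009468410, nat_lit 3151696785, nat_lit 3231235992], nat_lit 1271250, nat_lit 1271250, nat_lit 1100001, nat_lit 1785000, nat_lit 1271250, nat_lit 1271250, [nat_lit 780000, nat_lit 1435000, nat_lit 1271250], [nat_lit 18, nat_lit 40, nat_lit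 40, nat_lit 80, nat_lit 2, nat_lit 373, nat_lit 150, nat_lit 11]⟩,
 ⟨nat_lit 5244, nat_lit 5478, ⟨.ofNat (nat_lit 510489), .ofNat (nat_lit 660348), .ofNat (nat_lit 521166), .ofNat (nat_lit 671025), .ofNat (nat_lit 512365), .ofNat (nat_lit 658700), .ofNat (nat_lit 523056), .ofNat (nat_lit 669391)⟩, ⟨.ofNat (nat_lit 618012), .ofNat (nat_lit 647985), .ofNat (nat_lit 639368), .ofNat (nat_lit 669340), .ofNat (nat_lit 612585), .ofNat (nat_lit 641853), .ofNat (nat_lit 633969), .ofNat (nat_lit 663236)⟩⟩, [⟨nat_lit 4, nat_lit 87, nat_lit 100, nat_lit 99, nat_lit 273946976⟩, ⟨nat_lit 19, nat_lit 100, nat_lit 87, nat_lit 99, nat_lit 23514895⟩, ⟨nat_lit 11, nat_lit 71, nat_lit 71, nat_lit 100, nat_lit 30226527⟩]⟩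
noncomputable def p069_l161 : Lf2 := ⟨nat_lit 0, nat_lit 5, [nat_lit 4, nat_lit 5, nat_lit 5, nat_lit 20], false, nat_lit 320, nat_lit 328, nat_lit 160, nat_lit 336, ⟨nat_lit 71, nat_lit 929, nat_lit 0, nat_lit 7, nat_lit 239, nat_lit 929, nat_lit 251, nat_lit 0, nat_lit 0, nat_lit 0, nat_lit 0, nat_lit 0, nat_lit 36408083, nat_lit 14659109, nat_lit 15932808, nat_lit 5440081, false, false⟩,
 nat_lit 0, nat_lit 0, nat_lit 938, nat_lit 0, nat_lit 3292, nat_lit 596, nat_lit 0, nat_lit 0, nat_lit 0, nat_lit 50, nat_lit 0, nat_lit 0, nat_lit 0, nat_lit 9405193120891, nat_lit 0, nat_lit 249050, nat_lit 0, nat_lit 0, [(nat_lit 12, [(nat_lit 0, nat_lit 817), (nat_lit 1, nat_lit 112)])],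
 ⟨p069_k32, nat_lit 0, nat_lit 0, nat_lit 0, nat_lit 0, nat_lit 0, [nat_lit 1587678401, nat_lit 2062485201, nat_lit 2628160800, nat_lit 3087169200], [], [nat_lit 21685206437, nat_lit 22193469737, nat_lit 23771858709, nat_lit 24234891936, nat_lit 22171876522, nat_lit 22683898125, nat_lit 24220204120, nat_lit 24674424366], nat_lit 0, nat_lit 0, nat_lit 0, nat_lit 0, nat_lit 0, nat_lit 0, [], [nat_lit 127, nat_lit 40, nat_lit 40, nat_lit 80]⟩, ⟨p069_k41, nat_lit 0, nat_lit 0, nat_lit 308, nat_lit 0, nat_lit 627858, [nat_lit 233022000, nat_lit 443750000, nat_lit 565728000], [], [nat_lit 1520936420, nat_lit 1411230552, nat_lit 1617662724, nat_lit 1548040122, nat_lit 1809183739, nat_lit 1876999452, nat_lit 1907584732, nat_lit 2003254093], nat_lit 1271250, nat_lit 1271250, nat_lit 1100001, nat_lit 1785000, nat_lit 1271250, nat_lit 1271250, [nat_lit 780000, nat_lit 1435000, nat_lit 1271250], [nat_lit 18, nat_lit 40, nat_lit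 40, nat_lit 80, nat_lit 2, nat_lit 373, nat_lit 150, nat_lit 11]⟩,
 ⟨nat_lit 5000, nat_lit 5245, ⟨.ofNat (nat_lit 512362), .ofNat (nat_lit 658699), .ofNat (nat_lit 533746), .ofNat (nat_lit 680082), .ofNat (nat_lit 514278), .ofNat (nat_lit 657129), .ofNat (nat_lit 535704), .ofNat (nat_lit 678555)⟩, ⟨.ofNat (nat_lit 612585), .ofNat (nat_lit 627219), .ofNat (nat_lit 633970), .ofNat (nat_lit 648604), .ofNat (nat_lit 607141), .ofNat (nat_lit 621427), .ofNat (nat_lit 628570), .ofNat (nat_lit 642856)⟩⟩, [⟨nat_lit 16, nat_lit 97, nat_lit 84, nat_lit 100, nat_lit 296250141⟩, ⟨nat_lit 7, nat_lit 90, nat_lit 100, nat_lit 100, nat_lit 24403579⟩]⟩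
noncomputable def p069_l162 : Lf2 := ⟨nat_lit 0, nat_lit 10, [nat_lit 0, nat_lit 5, nat_lit 5, nat_lit 20], false, nat_lit 280, nat_lit 336, nat_lit 160, nat_lit 336, ⟨nat_lit 1000, nat_lit 0, nat_lit 0, nat_lit 0, nat_lit 0, nat_lit 0, nat_lit 0, nat_lit 0, nat_lit 0, nat_lit 0, nat_lit 0, nat_lit 0, nat_lit 0, nat_lit 0, nat_lit 0, nat_lit 0, false, false⟩,
 nat_lit 0, nat_lit 0, nat_lit 8731, nat_lit 0, nat_lit 3711, nat_lit 5555, nat_lit 0, nat_lit 0, nat_lit 0, nat_lit 953, nat_lit 0, nat_lit 0, nat_lit 0, nat_lit 0, nat_lit 0, nat_lit 0, nat_lit 0, nat_lit 0, [],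
 ⟨p069_k17, nat_lit 0, nat_lit 0, nat_lit 0, nat_lit 0, nat_lit 0, [nat_lit 2032000001, nat_lit 3282000000, nat_lit 4688000000, nat_lit 9842000000], [], [nat_lit 18474988619, nat_lit 19728758045, nat_lit 21650772881, nat_lit 22674743885, nat_lit 21971867298, nat_lit 23047737501, nat_lit 24510560045, nat_lit 25396747715], nat_lit 0, nat_lit 0, nat_lit 0, nat_lit 0, nat_lit 0, nat_lit 0, [], [nat_lit 206, nat_lit 40, nat_lit 40, nat_lit 80]⟩, ⟨p069_k7, nat_lit 0, nat_lit 0, nat_lit 201, nat_lit 0, nat_lit 275009, [nat_lit 3282000000, nat_lit 6250000000, nat_lit 9842000000], [], [nat_lit 19854380565, nat_lit 21084094505, nat_lit 25914078760, nat_lit 23454108935, nat_lit 26732614082, nat_lit 27631858626, nat_lit 28371650976, nat_lit 29241200561], nat_lit 1271250, nat_lit 1271250, nat_lit 780000, nat_lit 1762500, nat_lit 1271250, nat_lit 1271250, [nat_lit 780000, nat_lit 1435000, nat_lit 1271250], [nat_lit 8, nat_lit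 40, nat_lit 40, nat_lit 80, nat_lit 1, nat_lit 373, nat_lit 150, nat_lit 10]⟩,
 zbF0, [⟨nat_lit 16, nat_lit 100, nat_lit 90, nat_lit 100, nat_lit 254994472⟩, ⟨nat_lit 7, nat_lit 90, nat_lit 100, nat_lit 100, nat_lit 109857683⟩, ⟨nat_lit 11, nat_lit 75, nat_lit 75, nat_lit 100, nat_lit 398680580⟩]⟩
noncomputable def p069_l163 : Lf2 := ⟨nat_lit 2, nat_lit 10, [nat_lit 0, nat_lit 5, nat_lit 5, nat_lit 20], true, nat_lit 280, nat_lit 336, nat_lit 0, nat_lit 336, zbN0,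
 nat_lit 0, nat_lit 0, nat_lit 0, nat_lit 0, nat_lit 0, nat_lit 0, nat_lit 0, nat_lit 0, nat_lit 0, nat_lit 0, nat_lit 0, nat_lit 0, nat_lit 0, nat_lit 0, nat_lit 0, nat_lit 0, nat_lit 0, nat_lit 0, [],
 ⟨p069_k7, nat_lit 0, nat_lit 0, nat_lit 62, nat_lit 0, nat_lit 0, [], [], [], nat_lit 0, nat_lit 0, nat_lit 0, nat_lit 0, nat_lit 0, nat_lit 0, [], [nat_lit 8, nat_lit 40, nat_lit 40, nat_lit 80, nat_lit 1, nat_lit 272, nat_lit 60, nat_lit 7]⟩, C1.Rw.none,
 zbF0, []⟩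
noncomputable def b_V_700_700_20_8 : St := ⟨true, nat_lit 0, nat_lit 1, nat_lit 1, nat_lit 120, nat_lit 280, nat_lit 300, nat_lit 280, nat_lit 300, nat_lit 120, nat_lit 240, nat_lit 80, nat_lit 120, nat_lit 160, nat_lit 336, nat_lit 0, nat_lit 336, nat_lit 0, nat_lit 40, nat_lit 0, nat_lit 0, nat_lit 0, nat_lit 0⟩
theorem d_V_700_700_20_8 (h : EB TB.env) : Dead b_V_700_700_20_8 := chkB_sound0 h (T :=
(.spl (nat_lit 4) (nat_lit 240)
(.leaf p069_l144)
(.spl (nat_lit 4) (nat_lit 280)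
(.leaf p069_l145)
(.spl (nat_lit 3) (nat_lit 100)
(.trX (nat_lit 16) (nat_lit 100) (nat_lit 88) (nat_lit 94) (nat_lit 320) (.trX (nat_lit 19) (nat_lit 100) (nat_lit 88) (nat_lit 94) (nat_lit 320) (.spl (nat_lit 2) (nat_lit 160)
(.spl (nat_lit 6) (nat_lit 20)
(.leaf p069_l146)
(.spl (nat_lit 1) (nat_lit 290)
(.leaf p069_l147)
(.ord (.trX (nat_lit 16) (nat_lit 100) (nat_lit 94) (nat_lit 97) (nat_lit 312) (.trX (nat_lit 19) (nat_lit 100) (nat_lit 94) (nat_lit 97) (nat_lit 312) (.leaf p069_l148))))))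
(.trZ (nat_lit 9) (nat_lit 94) (nat_lit 100) (nat_lit 21) (nat_lit 4) (.spl (nat_lit 0) (nat_lit 290)
(.ord (.leaf p069_l149))
(.trX (nat_lit 16) (nat_lit 100) (nat_lit 94) (nat_lit 97) (nat_lit 312) (.leaf p069_l150)))))))
(.spl (nat_lit 7) (nat_lit 600)
(.spl (nat_lit 5) (nat_lit 160)
(.spl (nat_lit 1) (nat_lit 290)
(.leaf p069_l151)
(.ord (.trX (nat_lit 16) (nat_lit 97) (nat_lit 84) (nat_lit 100) (nat_lit 328) (.leaf p069_l152))))
(.spl (nat_lit 6) (nat_lit 20)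
(.spl (nat_lit 2) (nat_lit 160)
(.spl (nat_lit 1) (nat_lit 290)
(.spl (nat_lit 6) (nat_lit 8)
(.spl (nat_lit 1) (nat_lit 285)
(.spl (nat_lit 0) (nat_lit 290)
(.leaf p069_l153)
(.trX (nat_lit 16) (nat_lit 97) (nat_lit 84) (nat_lit 100) (nat_lit 328) (.leaf p069_l154)))
(.ord (.trX (nat_lit 16) (nat_lit 99) (nat_lit 82) (nat_lit 100) (nat_lit 332) (.trX (nat_lit 19) (nat_lit 99) (nat_lit 82) (nat_lit 100) (nat_lit 332) (.leaf p069_l155)))))
(.leaf p069_l156))
(.ord (.trX (nat_lit 16) (nat_lit 97) (nat_lit 84) (nat_lit 100) (nat_lit 328) (.trX (nat_lit 19) (nat_lit 97) (nat_lit 84) (nat_lit 100) (nat_lit 328) (.leaf p069_l157)))))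
(.spl (nat_lit 4) (nat_lit 320)
(.spl (nat_lit 2) (nat_lit 200)
(.leaf p069_l158)
(.leaf p069_l159))
(.spl (nat_lit 0) (nat_lit 290)
(.ord (.leaf p069_l160))
(.trX (nat_lit 16) (nat_lit 97) (nat_lit 84) (nat_lit 100) (nat_lit 328) (.leaf p069_l161)))))
(.leaf p069_l162)))
(.leaf p069_l163)))))) (by decide +kernel)

end B2
end Pool.Agent.Lib.MP_6947cd_al
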