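import Pool.Agent.Lib.MP_6947cd_al.ZB.P043
import Pool.Agent.Lib.MP_6947cd_al.ZB.P044
import Pool.Agent.Lib.MP_6947cd_al.ZB.P045
import Pool.Agent.Lib.MP_6947cd_al.ZB.P046
import Pool.Agent.Lib.MP_6947cd_al.ZB.P047
import Pool.Agent.Lib.MP_6947cd_al.ZB.P048
import Pool.Agent.Lib.MP_6947cd_al.ZB.P049
import Pool.Agent.Lib.MP_6947cd_al.ZB.P050
import Pool.Agent.Lib.MP_6947cd_al.ZB.P051
import Pool.Agent.Lib.MP_6947cd_al.ZB.P052
import Pool.Agent.Lib.MP_6947cd_al.ZB.P053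
import Pool.Agent.Lib.MP_6947cd_al.ZB.P054
import Pool.Agent.Lib.MP_6947cd_al.ZB.P055
import Pool.Agent.Lib.MP_6947cd_al.ZB.P056
import Pool.Agent.Lib.MP_6947cd_al.ZB.P057
import Pool.Agent.Lib.MP_6947cd_al.ZB.P058
import Pool.Agent.Lib.MP_6947cd_al.ZB.P059
import Pool.Agent.Lib.MP_6947cd_al.ZB.P060
import Pool.Agent.Lib.MP_6947cd_al.ZB.P061
import Pool.Agent.Lib.MP_6947cd_al.ZB.P062
import Pool.Agent.Lib.MP_6947cd_al.ZB.P063
import Pool.Agent.Lib.MP_6947cd_al.ZB.P064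
import Pool.Agent.Lib.MP_6947cd_al.ZB.P065
import Pool.Agent.Lib.MP_6947cd_al.ZB.P066
import Pool.Agent.Lib.MP_6947cd_al.ZB.P067
import Pool.Agent.Lib.MP_6947cd_al.ZB.P068
import Pool.Agent.Lib.MP_6947cd_al.ZB.P069

/-!
Problem MP_6947cd_al (Chollet).  Case B, second entry in [2/5, 17/20]: certificates of the tree, part T05 (generated).
-/

set_option autoImplicit false
set_option linter.all false

namespace Pool.Agent.Lib.MP_6947cd_al
namespace B2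

open Ent Fr B1 PkA

noncomputable def t05_k0 : C1.Kn := ⟨[nat_lit 80, nat_lit 140], [nat_lit 0, nat_lit 0], [(nat_lit 0, nat_lit 0, nat_lit 0), (nat_lit 0, nat_lit 0, nat_lit 0)], (nat_lit 100, nat_lit 98, nat_lit 48)⟩
noncomputable def t05_k1 : C1.Kn := ⟨[nat_lit 80, nat_lit 90, nat_lit 110, nat_lit 120], [nat_lit 0, nat_lit 66, nat_lit 324, nat_lit 648], [(nat_lit 0, nat_lit 0, nat_lit 0), (nat_lit 1000, nat_lit 979, nat_lit 103), (nat_lit 1000, nat_lit 969, nat_lit 202), (nat_lit 1000, nat_lit 986, nat_lit 438)], (nat_lit 98, nat_lit 100, nat_lit 40)⟩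
noncomputable def t05_k2 : C1.Kn := ⟨[nat_lit 80, nat_lit 100, nat_lit 140], [nat_lit 0, nat_lit 0, nat_lit 1022], [(nat_lit 0, nat_lit 0, nat_lit 0), (nat_lit 0, nat_lit 0, nat_lit 0), (nat_lit 1000, nat_lit 1000, nat_lit 399)], (nat_lit 100, nat_lit 98, nat_lit 48)⟩
noncomputable def t05_k3 : C1.Kn := ⟨[nat_lit 80, nat_lit 140], [nat_lit 0, nat_lit 792], [(nat_lit 0, nat_lit 0, nat_lit 0), (nat_lit 1000, nat_lit 959, nat_lit 206)], (nat_lit 100, nat_lit 99, nat_lit 63)⟩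
noncomputable def t05_k4 : C1.Kn := ⟨[nat_lit 40, nat_lit 70, nat_lit 90, nat_lit 120], [nat_lit 0, nat_lit 0, nat_lit 0, nat_lit 774], [(nat_lit 0, nat_lit 0, nat_lit 0), (nat_lit 0, nat_lit 0, nat_lit 0), (nat_lit 0, nat_lit 0, nat_lit 0), (nat_lit 1000, nat_lit 959, nat_lit 402)], (nat_lit 97, nat_lit 100, nat_lit 48)⟩
noncomputable def t05_k5 : C1.Kn := ⟨[nat_lit 80, nat_lit 120, nat_lit 140], [nat_lit 0, nat_lit 528, nat_lit 1572], [(nat_lit 0, nat_lit 0, nat_lit 0), (nat_lit 1000, nat_lit 959, nat_lit 206), (nat_lit 966, nat_lit 1000, nat_lit 679)], (nat_lit 100, nat_lit 99, nat_lit 63)⟩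
noncomputable def t05_k6 : C1.Kn := ⟨[nat_lit 80, nat_lit 100, nat_lit 140], [nat_lit 0, nat_lit 265, nat_lit 1269], [(nat_lit 0, nat_lit 0, nat_lit 0), (nat_lit 1000, nat_lit 959, nat_lit 206), (nat_lit 1000, nat_lit 958, nat_lit 392)], (nat_lit 100, nat_lit 99, nat_lit 63)⟩
noncomputable def t05_k7 : C1.Kn := ⟨[nat_lit 70, nat_lit 90, nat_lit 140], [nat_lit 0, nat_lit 0, nat_lit 1289], [(nat_lit 0, nat_lit 0, nat_lit 0), (nat_lit 0, nat_lit 0, nat_lit 0), (nat_lit 1000, nat_lit 959, nat_lit 402)], (nat_lit 100, nat_lit 99, nat_lit 63)⟩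
noncomputable def t05_k8 : C1.Kn := ⟨[nat_lit 80, nat_lit 100, nat_lit 140], [nat_lit 0, nat_lit 132, nat_lit 1148], [(nat_lit 0, nat_lit 0, nat_lit 0), (nat_lit 1000, nat_lit 979, nat_lit 103), (nat_lit 1000, nat_lit 979, nat_lit 397)], (nat_lit 100, nat_lit 100, nat_lit 49)⟩
noncomputable def t05_k9 : C1.Kn := ⟨[nat_lit 80, nat_lit 100, nat_lit 120], [nat_lit 0, nat_lit 265, nat_lit 768], [(nat_lit 0, nat_lit 0, nat_lit 0), (nat_lit 1000, nat_lit 959, nat_lit 206), (nat_lit 1000, nat_lit 958, nat_lit 392)], (nat_lit 96, nat_lit 100, nat_lit 44)⟩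
noncomputable def t05_k10 : C1.Kn := ⟨[nat_lit 40, nat_lit 70, nat_lit 90, nat_lit 140], [nat_lit 0, nat_lit 0, nat_lit 0, nat_lit 1289], [(nat_lit 0, nat_lit 0, nat_lit 0), (nat_lit 0, nat_lit 0, nat_lit 0), (nat_lit 0, nat_lit 0, nat_lit 0), (nat_lit 1000, nat_lit 959, nat_lit 402)], (nat_lit 100, nat_lit 99, nat_lit 63)⟩
noncomputable def t05_k11 : C1.Kn := ⟨[nat_lit 80, nat_lit 120, nat_lit 160], [nat_lit 0, nat_lit 528, nat_lit 2577], [(nat_lit 0, nat_lit 0, nat_lit 0), (nat_lit 1000, nat_lit 959, nat_lit 206), (nat_lit 929, nat_lit 1000, nat_lit 742)], (nat_lit 100, nat_lit 92, nat_lit 75)⟩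
noncomputable def t05_k12 : C1.Kn := ⟨[nat_lit 80, nat_lit 120, nat_lit 160], [nat_lit 0, nat_lit 0, nat_lit 2132], [(nat_lit 0, nat_lit 0, nat_lit 0), (nat_lit 0, nat_lit 0, nat_lit 0), (nat_lit 858, nat_lit 1000, nat_lit 713)], (nat_lit 100, nat_lit 85, nat_lit 73)⟩
noncomputable def t05_k13 : C1.Kn := ⟨[nat_lit 60, nat_lit 120, nat_lit 140], [nat_lit 0, nat_lit 0, nat_lit 2047], [(nat_lit 0, nat_lit 0, nat_lit 0), (nat_lit 0, nat_lit 0, nat_lit 0), (nat_lit 1000, nat_lit 993, nat_lit 781)], (nat_lit 94, nat_lit 100, nat_lit 62)⟩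
noncomputable def t05_k14 : C1.Kn := ⟨[nat_lit 100, nat_lit 160], [nat_lit 0, nat_lit 0], [(nat_lit 0, nat_lit 0, nat_lit 0), (nat_lit 0, nat_lit 0, nat_lit 0)], (nat_lit 100, nat_lit 80, nat_lit 60)⟩
noncomputable def t05_k15 : C1.Kn := ⟨[nat_lit 60, nat_lit 140], [nat_lit 0, nat_lit 0], [(nat_lit 0, nat_lit 0, nat_lit 0), (nat_lit 0, nat_lit 0, nat_lit 0)], (nat_lit 94, nat_lit 100, nat_lit 62)⟩
noncomputable def t05_k16 : C1.Kn := ⟨[nat_lit 40, nat_lit 60, nat_lit 80, nat_lit 100, nat_lit 110], [nat_lit 0, nat_lit 0, nat_lit 0, nat_lit 534, nat_lit 795], [(nat_lit 0, nat_lit 0, nat_lit 0), (nat_lit 0, nat_lit 0, nat_lit 0), (nat_lit 0, nat_lit 0, nat_lit 0), (nat_lit 1000, nat_lit 917, nat_lit 393), (nat_lit 1000, nat_lit 917, nat_lit 409)], (nat_lit 92, nat_lit 100, nat_lit 44)⟩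
noncomputable def t05_k17 : C1.Kn := ⟨[nat_lit 80, nat_lit 100, nat_lit 140], [nat_lit 0, nat_lit 0, nat_lit 1022], [(nat_lit 0, nat_lit 0, nat_lit 0), (nat_lit 0, nat_lit 0, nat_lit 0), (nat_lit 1000, nat_lit 1000, nat_lit 399)], (nat_lit 100, nat_lit 99, nat_lit 44)⟩
noncomputable def t05_k18 : C1.Kn := ⟨[nat_lit 60, nat_lit 100, nat_lit 140], [nat_lit 0, nat_lit 0, nat_lit 2047], [(nat_lit 0, nat_lit 0, nat_lit 0), (nat_lit 0, nat_lit 0, nat_lit 0), (nat_lit 1000, nat_lit 993, nat_lit 781)], (nat_lit 94, nat_lit 100, nat_lit 62)⟩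
noncomputable def t05_k19 : C1.Kn := ⟨[nat_lit 60, nat_lit 100], [nat_lit 0, nat_lit 609], [(nat_lit 0, nat_lit 0, nat_lit 0), (nat_lit 1000, nat_lit 905, nat_lit 238)], (nat_lit 87, nat_lit 100, nat_lit 44)⟩
noncomputable def t05_k20 : C1.Kn := ⟨[nat_lit 80, nat_lit 120, nat_lit 140], [nat_lit 0, nat_lit 0, nat_lit 1164], [(nat_lit 0, nat_lit 0, nat_lit 0), (nat_lit 0, nat_lit 0, nat_lit 0), (nat_lit 941, nat_lit 1000, nat_lit 576)], (nat_lit 100, nat_lit 99, nat_lit 44)⟩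
noncomputable def t05_k21 : C1.Kn := ⟨[nat_lit 60, nat_lit 80, nat_lit 120], [nat_lit 0, nat_lit 304, nat_lit 1346], [(nat_lit 0, nat_lit 0, nat_lit 0), (nat_lit 1000, nat_lit 905, nat_lit 238), (nat_lit 1000, nat_lit 871, nat_lit 407)], (nat_lit 87, nat_lit 100, nat_lit 60)⟩
noncomputable def t05_k22 : C1.Kn := ⟨[nat_lit 60, nat_lit 100, nat_lit 120], [nat_lit 0, nat_lit 609, nat_lit 1609], [(nat_lit 0, nat_lit 0, nat_lit 0), (nat_lit 1000, nat_lit 905, nat_lit 238), (nat_lit 1000, nat_lit 882, nat_lit 668)], (nat_lit 87, nat_lit 100, nat_lit 60)⟩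
noncomputable def t05_k23 : C1.Kn := ⟨[nat_lit 60, nat_lit 80, nat_lit 140], [nat_lit 0, nat_lit 0, nat_lit 1595], [(nat_lit 0, nat_lit 0, nat_lit 0), (nat_lit 0, nat_lit 0, nat_lit 0), (nat_lit 1000, nat_lit 917, nat_lit 415)], (nat_lit 94, nat_lit 100, nat_lit 62)⟩
theorem t_V_600_600_10 (h : EB TB.env) : RC.Tail ⟨true, 80, 240, 280, 240, 280, 40, 80, [60]⟩ := RC.tail_chk h (b := ⟨nat_lit 40, nat_lit 30, nat_lit 5, nat_lit 5, nat_lit 20, nat_lit 226, nat_lit 20, nat_lit 18, nat_lit 5⟩) (by decide +kernel)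
noncomputable def t05_l0 : Lf2 := ⟨nat_lit 0, nat_lit 6, [nat_lit 47, nat_lit 5, nat_lit 5, nat_lit 20], true, nat_lit 160, nat_lit 240, nat_lit 0, nat_lit 336, ⟨nat_lit 0, nat_lit 0, nat_lit 1000, nat_lit 6, nat_lit 115, nat_lit 1000, nat_lit 140, nat_lit 1000, nat_lit 183750, nat_lit 320, nat_lit 123267, nat_lit 301, nat_lit 53666129, nat_lit 0, nat_lit 0, nat_lit 3381817, false, false⟩,
 nat_lit 0, nat_lit 0, nat_lit 0, nat_lit 3219, nat_lit 4161, nat_lit 0, nat_lit 0, nat_lit 0, nat_lit 0, nat_lit 0, nat_lit 0, nat_lit 0, nat_lit 0, nat_lit 6633145134599, nat_lit 69, nat_lit 400000, nat_lit 0, nat_lit 0, [(nat_lit 6, [(nat_lit 5, nat_lit 1000)])],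
 ⟨t05_k0, nat_lit 0, nat_lit 0, nat_lit 43, nat_lit 0, nat_lit 0, [nat_lit 2521600001, nat_lit 7200000], [], [nat_lit 10629701777, nat_lit 12169677292, nat_lit 10038826093, nat_lit 11434595781, nat_lit 14634257015, nat_lit 15934063238, nat_lit 13738048605, nat_lit 14920311975], nat_lit 0, nat_lit 0, nat_lit 0, nat_lit 0, nat_lit 0, nat_lit 0, [], [nat_lit 70, nat_lit 40, nat_lit 40, nat_lit 80, nat_lit 13, nat_lit 401, nat_lit 175, nat_lit 11]⟩, C1.Rw.none,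
 ⟨nat_lit 5916, nat_lit 6325, ⟨.ofNat (nat_lit 164319), .ofNat (nat_lit 378206), .ofNat (nat_lit 185687), .ofNat (nat_lit 399574), .ofNat (nat_lit 181423), .ofNat (nat_lit 385610), .ofNat (nat_lit 202762), .ofNat (nat_lit 406949)⟩, ⟨.ofNat (nat_lit 246791), .ofNat (nat_lit 411320), .ofNat (nat_lit 289527), .ofNat (nat_lit 454055), .ofNat (nat_lit 250751), .ofNat (nat_lit 407818), .ofNat (nat_lit 293429), .ofNat (nat_lit 450496)⟩⟩, [⟨nat_lit 0, nat_lit 100, nat_lit 100, nat_lit 60, nat_lit 162396219⟩]⟩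
noncomputable def t05_l1 : Lf2 := ⟨nat_lit 0, nat_lit 6, [nat_lit 47, nat_lit 5, nat_lit 5, nat_lit 20], true, nat_lit 280, nat_lit 320, nat_lit 0, nat_lit 248, ⟨nat_lit 0, nat_lit 1000, nat_lit 0, nat_lit 6, nat_lit 83, nat_lit 1000, nat_lit 221, nat_lit 0, nat_lit 0, nat_lit 0, nat_lit 0, nat_lit 0, nat_lit 48291209, nat_lit 3365176, nat_lit 15343615, nat_lit 3815889, false, false⟩,
 nat_lit 0, nat_lit 0, nat_lit 0, nat_lit 2291, nat_lit 0, nat_lit 0, nat_lit 0, nat_lit 0, nat_lit 397, nat_lit 0, nat_lit 0, nat_lit 0, nat_lit 0, nat_lit 14354595556993, nat_lit 0, nat_lit 250000, nat_lit 0, nat_lit 0, [(nat_lit 6, [(nat_lit 0, nat_lit 1000)])],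
 ⟨t05_k0, nat_lit 0, nat_lit 0, nat_lit 0, nat_lit 0, nat_lit 0, [nat_lit 3128000000, nat_lit 3710400000], [], [nat_lit 14238726800, nat_lit 14922968000, nat_lit 14571986000, nat_lit 15224408000, nat_lit 15749388000, nat_lit 16428842400, nat_lit 16043040000, nat_lit 16717530000], nat_lit 0, nat_lit 0, nat_lit 0, nat_lit 0, nat_lit 0, nat_lit 0, [], [nat_lit 70, nat_lit 40, nat_lit 40, nat_lit 80]⟩, C1.Rw.none,
 ⟨nat_lit 5916, nat_lit 6325, ⟨.ofNat (nat_lit 164319), .ofNat (nat_lit 213677), .ofNat (nat_lit 185687), .ofNat (nat_lit 235045), .ofNat (nat_lit 181423), .ofNat (nat_lit 228543), .ofNat (nat_lit 202762), .ofNat (nat_lit 249882)⟩, ⟨.ofNat (nat_lit 493584), .ofNat (nat_lit 575835), .ofNat (nat_lit 536315), .ofNat (nat_lit 618556), .ofNat (nat_lit 486351), .ofNat (nat_lit 564872), .ofNat (nat_lit 529025), .ofNat (nat_lit 607536)⟩⟩, [⟨nat_lit 0, nat_lit 100, nat_lit 100, nat_lit 60, nat_lit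 22859267⟩, ⟨nat_lit 4, nat_lit 88, nat_lit 100, nat_lit 74, nat_lit 52562345⟩]⟩
noncomputable def t05_l2 : Lf2 := ⟨nat_lit 0, nat_lit 4, [nat_lit 38, nat_lit 5, nat_lit 5, nat_lit 20], true, nat_lit 280, nat_lit 304, nat_lit 0, nat_lit 248, ⟨nat_lit 0, nat_lit 1000, nat_lit 0, nat_lit 6, nat_lit 91, nat_lit 1000, nat_lit 209, nat_lit 0, nat_lit 0, nat_lit 0, nat_lit 0, nat_lit 0, nat_lit 48971421, nat_lit 3887000, nat_lit 14141579, nat_lit 3823136, false, false⟩,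
 nat_lit 0, nat_lit 0, nat_lit 0, nat_lit 3015, nat_lit 100000, nat_lit 0, nat_lit 0, nat_lit 7074, nat_lit 0, nat_lit 0, nat_lit 0, nat_lit 0, nat_lit 0, nat_lit 16411395768251, nat_lit 0, nat_lit 400000, nat_lit 0, nat_lit 0, [(nat_lit 6, [(nat_lit 1, nat_lit 1000)])],
 ⟨t05_k1, nat_lit 0, nat_lit 0, nat_lit 0, nat_lit 0, nat_lit 0, [nat_lit 115876266667, nat_lit 130237200001, nat_lit 158783600001, nat_lit 172998800000], [], [nat_lit 78346361867, nat_lit 84792967468, nat_lit 69963172667, nat_lit 76375310667, nat_lit 99509752308, nat_lit 106499275120, nat_lit 90993775667, nat_lit 96664508668], nat_lit 0, nat_lit 0, nat_lit 0, nat_lit 0, nat_lit 0, nat_lit 0, [], [nat_lit 129, nat_lit 40, nat_lit 20, nat_lit 40]⟩, C1.Rw.none,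
 ⟨nat_lit 5916, nat_lit 6124, ⟨.ofNat (nat_lit 205096), .ofNat (nat_lit 221172), .ofNat (nat_lit 226444), .ofNat (nat_lit 242520), .ofNat (nat_lit 212836), .ofNat (nat_lit 228543), .ofNat (nat_lit 234175), .ofNat (nat_lit 249882)⟩, ⟨.ofNat (nat_lit 489975), .ofNat (nat_lit 538203), .ofNat (nat_lit 511323), .ofNat (nat_lit 559550), .ofNat (nat_lit 486351), .ofNat (nat_lit 533471), .ofNat (nat_lit 507691), .ofNat (nat_lit 554809)⟩⟩, [⟨nat_lit 16, nat_lit 100, nat_lit 88, nat_lit 74, nat_lit 10633634104⟩]⟩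
noncomputable def t05_l3 : Lf2 := ⟨nat_lit 0, nat_lit 6, [nat_lit 47, nat_lit 5, nat_lit 5, nat_lit 20], false, nat_lit 280, nat_lit 320, nat_lit 0, nat_lit 248, ⟨nat_lit 0, nat_lit 0, nat_lit 1000, nat_lit 6, nat_lit 83, nat_lit 1000, nat_lit 221, nat_lit 1000, nat_lit 2976, nat_lit 206, nat_lit 64067, nat_lit 277, nat_lit 48291209, nat_lit 0, nat_lit 0, nat_lit 3815889, false, false⟩,
 nat_lit 0, nat_lit 0, nat_lit 100000, nat_lit 0, nat_lit 4007, nat_lit 52941, nat_lit 0, nat_lit 0, nat_lit 0, nat_lit 0, nat_lit 3052, nat_lit 0, nat_lit 0, nat_lit 0, nat_lit 147, nat_lit 1000000, nat_lit 0, nat_lit 0, [(nat_lit 6, [(nat_lit 6, nat_lit 1000)])],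
 ⟨t05_k2, nat_lit 0, nat_lit 0, nat_lit 0, nat_lit 0, nat_lit 0, [nat_lit 3329066667, nat_lit 3042400001, nat_lit 177599999], [], [nat_lit 17500336297, nat_lit 18822844862, nat_lit 16700114458, nat_lit 17603222152, nat_lit 20645070077, nat_lit 21805218622, nat_lit 19407862152, nat_lit 20564738854], nat_lit 0, nat_lit 0, nat_lit 0, nat_lit 0, nat_lit 0, nat_lit 0, [], [nat_lit 11, nat_lit 40, nat_lit 40, nat_lit 80]⟩, ⟨t05_k2, nat_lit 0, nat_lit 0, nat_lit 423, nat_lit 0, nat_lit 265448, [nat_lit 48832000000, nat_lit 61040000000, nat_lit 85456000000], [], [nat_lit 204776078674, nat_lit 176952724360, nat_lit 171185776524, nat_lit 143615268426, nat_lit 138399042966, nat_lit 113651528987, nat_lit 138528689122, nat_lit 113980339185], nat_lit 1271250, nat_lit 1271250, nat_lit 88400, nat_lit 230001, nat_lit 0, nat_lit 1751500, [nat_lit 1100000, nat_lit 1442500, nat_lit 1271250], [nat_lit 11, nat_lit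 40, nat_lit 40, nat_lit 80, nat_lit 1, nat_lit 373, nat_lit 150, nat_lit 11]⟩,
 ⟨nat_lit 5916, nat_lit 6325, ⟨.ofNat (nat_lit 164319), .ofNat (nat_lit 213677), .ofNat (nat_lit 185687), .ofNat (nat_lit 235045), .ofNat (nat_lit 181423), .ofNat (nat_lit 228543), .ofNat (nat_lit 202762), .ofNat (nat_lit 249882)⟩, ⟨.ofNat (nat_lit 493584), .ofNat (nat_lit 575835), .ofNat (nat_lit 536315), .ofNat (nat_lit 618556), .ofNat (nat_lit 486351), .ofNat (nat_lit 564872), .ofNat (nat_lit 529025), .ofNat (nat_lit 607536)⟩⟩, [⟨nat_lit 4, nat_lit 88, nat_lit 100, nat_lit 74, nat_lit 5972887786⟩, ⟨nat_lit 23, nat_lit 94, nat_lit 100, nat_lit 62, nat_lit 321848196⟩]⟩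
noncomputable def t05_l4 : Lf2 := ⟨nat_lit 0, nat_lit 6, [nat_lit 47, nat_lit 5, nat_lit 5, nat_lit 20], true, nat_lit 280, nat_lit 320, nat_lit 0, nat_lit 248, ⟨nat_lit 0, nat_lit 0, nat_lit 1000, nat_lit 6, nat_lit 83, nat_lit 1000, nat_lit 221, nat_lit 1000, nat_lit 2976, nat_lit 206, nat_lit 64067, nat_lit 277, nat_lit 48291209, nat_lit 0, nat_lit 0, nat_lit 3815889, false, false⟩,
 nat_lit 0, nat_lit 0, nat_lit 0, nat_lit 100000, nat_lit 100000, nat_lit 0, nat_lit 21328, nat_lit 6300, nat_lit 0, nat_lit 0, nat_lit 0, nat_lit 0, nat_lit 0, nat_lit 44478813371200, nat_lit 0, nat_lit 1000000, nat_lit 0, nat_lit 0, [(nat_lit 6, [(nat_lit 6, nat_lit 1000)])],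
 ⟨t05_k2, nat_lit 0, nat_lit 0, nat_lit 161, nat_lit 0, nat_lit 0, [nat_lit 101777066667, nat_lit 126102400000, nat_lit 172461600000], [], [nat_lit 123214360001, nat_lit 131240163601, nat_lit 93291130667, nat_lit 100619805000, nat_lit 145558685601, nat_lit 151839490001, nat_lit 114781592000, nat_lit 121011918667], nat_lit 0, nat_lit 0, nat_lit 0, nat_lit 0, nat_lit 0, nat_lit 0, [], [nat_lit 11, nat_lit 40, nat_lit 40, nat_lit 80, nat_lit 1, nat_lit 289, nat_lit 75, nat_lit 8]⟩, C1.Rw.none,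
 ⟨nat_lit 5916, nat_lit 6325, ⟨.ofNat (nat_lit 164319), .ofNat (nat_lit 213677), .ofNat (nat_lit 185687), .ofNat (nat_lit 235045), .ofNat (nat_lit 181423), .ofNat (nat_lit 228543), .ofNat (nat_lit 202762), .ofNat (nat_lit 249882)⟩, ⟨.ofNat (nat_lit 493584), .ofNat (nat_lit 575835), .ofNat (nat_lit 536315), .ofNat (nat_lit 618556), .ofNat (nat_lit 486351), .ofNat (nat_lit 564872), .ofNat (nat_lit 529025), .ofNat (nat_lit 607536)⟩⟩, [⟨nat_lit 0, nat_lit 100, nat_lit 100, nat_lit 50, nat_lit 6529548102⟩, ⟨nat_lit 16, nat_lit 100, nat_lit 88, nat_lit 74, nat_lit 2185521368⟩, ⟨nat_lit 16, nat_lit 100, nat_lit 76, nat_lit 82, nat_lit 2600642025⟩]⟩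
noncomputable def t05_l5 : Lf2 := ⟨nat_lit 0, nat_lit 6, [nat_lit 47, nat_lit 5, nat_lit 5, nat_lit 20], true, nat_lit 280, nat_lit 312, nat_lit 0, nat_lit 300, ⟨nat_lit 0, nat_lit 1000, nat_lit 0, nat_lit 6, nat_lit 109, nat_lit 1000, nat_lit 213, nat_lit 0, nat_lit 0, nat_lit 0, nat_lit 0, nat_lit 0, nat_lit 47532281, nat_lit 5048055, nat_lit 14419664, nat_lit 4090109, false, false⟩,
 nat_lit 0, nat_lit 0, nat_lit 0, nat_lit 11465, nat_lit 5550, nat_lit 0, nat_lit 0, nat_lit 0, nat_lit 0, nat_lit 0, nat_lit 0, nat_lit 0, nat_lit 0, nat_lit 28557937380874, nat_lit 0, nat_lit 250000, nat_lit 0, nat_lit 0, [(nat_lit 6, [(nat_lit 0, nat_lit 1000)])],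
 ⟨t05_k2, nat_lit 0, nat_lit 0, nat_lit 74, nat_lit 0, nat_lit 0, [nat_lit 3128000000, nat_lit 3146133334, nat_lit 3771466666], [], [nat_lit 17194463700, nat_lit 18518269000, nat_lit 16378866600, nat_lit 17655575650, nat_lit 19956548560, nat_lit 21340408061, nat_lit 18811439401, nat_lit 20043851870], nat_lit 0, nat_lit 0, nat_lit 0, nat_lit 0, nat_lit 0, nat_lit 0, [], [nat_lit 11, nat_lit 40, nat_lit 40, nat_lit 80, nat_lit 1, nat_lit 317, nat_lit 100, nat_lit 9]⟩, C1.Rw.none,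
 ⟨nat_lit 5916, nat_lit 6325, ⟨.ofNat (nat_lit 213677), .ofNat (nat_lit 295942), .ofNat (nat_lit 235045), .ofNat (nat_lit 317309), .ofNat (nat_lit 228543), .ofNat (nat_lit 307076), .ofNat (nat_lit 249882), .ofNat (nat_lit 328416)⟩, ⟨.ofNat (nat_lit 493584), .ofNat (nat_lit 559386), .ofNat (nat_lit 514952), .ofNat (nat_lit 580747), .ofNat (nat_lit 486351), .ofNat (nat_lit 549169), .ofNat (nat_lit 507691), .ofNat (nat_lit 570502)⟩⟩, [⟨nat_lit 4, nat_lit 92, nat_lit 100, nat_lit 68, nat_lit 544320977⟩]⟩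
noncomputable def t05_l6 : Lf2 := ⟨nat_lit 1, nat_lit 6, [nat_lit 47, nat_lit 5, nat_lit 5, nat_lit 20], false, nat_lit 280, nat_lit 320, nat_lit 0, nat_lit 300, zbN0,
 nat_lit 0, nat_lit 0, nat_lit 0, nat_lit 0, nat_lit 0, nat_lit 0, nat_lit 0, nat_lit 0, nat_lit 0, nat_lit 0, nat_lit 0, nat_lit 0, nat_lit 0, nat_lit 0, nat_lit 0, nat_lit 0, nat_lit 0, nat_lit 0, [],
 C1.Rw.none, C1.Rw.none,
 zbF0, []⟩
noncomputable def t05_l7 : Lf2 := ⟨nat_lit 1, nat_lit 10, [nat_lit 0, nat_lit 5, nat_lit 5, nat_lit 20], false, nat_lit 160, nat_lit 336, nat_lit 0, nat_lit 336, zbN0,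
 nat_lit 0, nat_lit 0, nat_lit 0, nat_lit 0, nat_lit 0, nat_lit 0, nat_lit 0, nat_lit 0, nat_lit 0, nat_lit 0, nat_lit 0, nat_lit 0, nat_lit 0, nat_lit 0, nat_lit 0, nat_lit 0, nat_lit 0, nat_lit 0, [],
 C1.Rw.none, C1.Rw.none,
 zbF0, []⟩
noncomputable def t05_l8 : Lf2 := ⟨nat_lit 0, nat_lit 10, [nat_lit 0, nat_lit 5, nat_lit 5, nat_lit 20], true, nat_lit 160, nat_lit 240, nat_lit 0, nat_lit 336, ⟨nat_lit 0, nat_lit 0, nat_lit 1000, nat_lit 6, nat_lit 127, nat_lit 1000, nat_lit 140, nat_lit 1000, nat_lit 183750, nat_lit 320, nat_lit 153600, nat_lit 311, nat_lit 52727517, nat_lit 0, nat_lit 0, nat_lit 3549045, false, false⟩,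
 nat_lit 0, nat_lit 0, nat_lit 0, nat_lit 2241, nat_lit 5724, nat_lit 0, nat_lit 0, nat_lit 0, nat_lit 0, nat_lit 0, nat_lit 0, nat_lit 0, nat_lit 0, nat_lit 7174817577336, nat_lit 61, nat_lit 250000, nat_lit 0, nat_lit 0, [(nat_lit 9, [(nat_lit 4, nat_lit 1000)])],
 ⟨t05_k3, nat_lit 0, nat_lit 0, nat_lit 46, nat_lit 0, nat_lit 0, [nat_lit 4076800001, nat_lit 14000000], [], [nat_lit 12066252518, nat_lit 13896669128, nat_lit 10718559521, nat_lit 12374424913, nat_lit 16301208398, nat_lit 18054465655, nat_lit 14619336617, nat_lit 16001929697], nat_lit 0, nat_lit 0, nat_lit 0, nat_lit 0, nat_lit 0, nat_lit 0, [], [nat_lit 70, nat_lit 40, nat_lit 40, nat_lit 80, nat_lit 13, nat_lit 401, nat_lit 175, nat_lit 11]⟩, C1.Rw.none,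
 ⟨nat_lit 5477, nat_lit 5917, ⟨.ofNat (nat_lit 197129), .ofNat (nat_lit 385610), .ofNat (nat_lit 239808), .ofNat (nat_lit 428288), .ofNat (nat_lit 213007), .ofNat (nat_lit 392847), .ofNat (nat_lit 255721), .ofNat (nat_lit 435561)⟩, ⟨.ofNat (nat_lit 250751), .ofNat (nat_lit 407818), .ofNat (nat_lit 293429), .ofNat (nat_lit 450496), .ofNat (nat_lit 254209), .ofNat (nat_lit 404075), .ofNat (nat_lit 296923), .ofNat (nat_lit 446789)⟩⟩, [⟨nat_lit 0, nat_lit 100, nat_lit 100, nat_lit 80, nat_lit 215932840⟩]⟩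
noncomputable def t05_l9 : Lf2 := ⟨nat_lit 0, nat_lit 10, [nat_lit 0, nat_lit 5, nat_lit 5, nat_lit 20], true, nat_lit 280, nat_lit 300, nat_lit 0, nat_lit 300, ⟨nat_lit 0, nat_lit 1000, nat_lit 0, nat_lit 6, nat_lit 118, nat_lit 1000, nat_lit 209, nat_lit 0, nat_lit 0, nat_lit 0, nat_lit 0, nat_lit 0, nat_lit 47303213, nat_lit 5720646, nat_lit 13976141, nat_lit 4174292, false, false⟩,
 nat_lit 0, nat_lit 0, nat_lit 0, nat_lit 2661, nat_lit 0, nat_lit 0, nat_lit 0, nat_lit 0, nat_lit 392, nat_lit 0, nat_lit 0, nat_lit 0, nat_lit 0, nat_lit 14495435215710, nat_lit 0, nat_lit 250000, nat_lit 0, nat_lit 0, [(nat_lit 9, [(nat_lit 0, nat_lit 1000)])],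
 ⟨t05_k3, nat_lit 0, nat_lit 0, nat_lit 0, nat_lit 0, nat_lit 0, [nat_lit 3116800000, nat_lit 3614800000], [], [nat_lit 15291010000, nat_lit 15941234000, nat_lit 16048789000, nat_lit 16686456000, nat_lit 15970969000, nat_lit 16665055000, nat_lit 16717598000, nat_lit 17397770000], nat_lit 0, nat_lit 0, nat_lit 0, nat_lit 0, nat_lit 0, nat_lit 0, [], [nat_lit 70, nat_lit 40, nat_lit 40, nat_lit 80]⟩, C1.Rw.none,
 ⟨nat_lit 5477, nat_lit 5917, ⟨.ofNat (nat_lit 228543), .ofNat (nat_lit 307076), .ofNat (nat_lit 271221), .ofNat (nat_lit 349755), .ofNat (nat_lit 242980), .ofNat (nat_lit 317913), .ofNat (nat_lit 285695), .ofNat (nat_lit 360628)⟩, ⟨.ofNat (nat_lit 486351), .ofNat (nat_lit 525618), .ofNat (nat_lit 529030), .ofNat (nat_lit 568297), .ofNat (nat_lit 479008), .ofNat (nat_lit 516475), .ofNat (nat_lit 521722), .ofNat (nat_lit 559189)⟩⟩, [⟨nat_lit 4, nat_lit 97, nat_lit 100, nat_lit 76, nat_lit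 58151235⟩]⟩
noncomputable def t05_l10 : Lf2 := ⟨nat_lit 0, nat_lit 6, [nat_lit 47, nat_lit 5, nat_lit 5, nat_lit 20], true, nat_lit 280, nat_lit 300, nat_lit 0, nat_lit 300, ⟨nat_lit 0, nat_lit 1000, nat_lit 0, nat_lit 6, nat_lit 114, nat_lit 1000, nat_lit 214, nat_lit 0, nat_lit 0, nat_lit 0, nat_lit 0, nat_lit 0, nat_lit 47178277, nat_lit 5400682, nat_lit 14421041, nat_lit 4157539, false, false⟩,
 nat_lit 0, nat_lit 0, nat_lit 0, nat_lit 3320, nat_lit 2935, nat_lit 0, nat_lit 0, nat_lit 0, nat_lit 0, nat_lit 0, nat_lit 0, nat_lit 0, nat_lit 0, nat_lit 0, nat_lit 0, nat_lit 400000, nat_lit 0, nat_lit 0, [(nat_lit 9, [(nat_lit 1, nat_lit 1000)])],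
 ⟨t05_k4, nat_lit 0, nat_lit 0, nat_lit 0, nat_lit 0, nat_lit 0, [nat_lit 1383200001, nat_lit 2355600001, nat_lit 2802800000, nat_lit 3018800000], [], [nat_lit 16901503571, nat_lit 18011875001, nat_lit 16786350111, nat_lit 17862831701, nat_lit 18186344221, nat_lit 19278524700, nat_lit 18028216086, nat_lit 19047943441], nat_lit 0, nat_lit 0, nat_lit 0, nat_lit 0, nat_lit 0, nat_lit 0, [], [nat_lit 138, nat_lit 40, nat_lit 20, nat_lit 40]⟩, C1.Rw.none,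
 ⟨nat_lit 5477, nat_lit 5917, ⟨.ofNat (nat_lit 228543), .ofNat (nat_lit 307076), .ofNat (nat_lit 249882), .ofNat (nat_lit 328416), .ofNat (nat_lit 242980), .ofNat (nat_lit 317913), .ofNat (nat_lit 264337), .ofNat (nat_lit 339271)⟩, ⟨.ofNat (nat_lit 507691), .ofNat (nat_lit 546958), .ofNat (nat_lit 529030), .ofNat (nat_lit 568297), .ofNat (nat_lit 500365), .ofNat (nat_lit 537832), .ofNat (nat_lit 521722), .ofNat (nat_lit 559189)⟩⟩, [⟨nat_lit 16, nat_lit 100, nat_lit 93, nat_lit 81, nat_lit 47196408⟩]⟩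
noncomputable def t05_l11 : Lf2 := ⟨nat_lit 1, nat_lit 10, [nat_lit 0, nat_lit 5, nat_lit 5, nat_lit 20], false, nat_lit 280, nat_lit 300, nat_lit 0, nat_lit 300, zbN0,
 nat_lit 0, nat_lit 0, nat_lit 0, nat_lit 0, nat_lit 0, nat_lit 0, nat_lit 0, nat_lit 0, nat_lit 0, nat_lit 0, nat_lit 0, nat_lit 0, nat_lit 0, nat_lit 0, nat_lit 0, nat_lit 0, nat_lit 0, nat_lit 0, [],
 C1.Rw.none, C1.Rw.none,
 zbF0, []⟩
noncomputable def t05_l12 : Lf2 := ⟨nat_lit 0, nat_lit 10, [nat_lit 0, nat_lit 5, nat_lit 5, nat_lit 20], false, nat_lit 280, nat_lit 300, nat_lit 0, nat_lit 300, ⟨nat_lit 1000, nat_lit 0, nat_lit 0, nat_lit 0, nat_lit 0, nat_lit 0, nat_lit 0, nat_lit 0, nat_lit 0, nat_lit 0, nat_lit 0, nat_lit 0, nat_lit 0, nat_lit 0, nat_lit 0, nat_lit 0, false, false⟩,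
 nat_lit 0, nat_lit 0, nat_lit 0, nat_lit 6378, nat_lit 6453, nat_lit 0, nat_lit 0, nat_lit 0, nat_lit 0, nat_lit 490, nat_lit 0, nat_lit 525, nat_lit 0, nat_lit 0, nat_lit 0, nat_lit 0, nat_lit 0, nat_lit 0, [],
 ⟨t05_k5, nat_lit 0, nat_lit 0, nat_lit 0, nat_lit 0, nat_lit 0, [nat_lit 4688000000, nat_lit 7968000001, nat_lit 9842000000], [], [nat_lit 19581059140, nat_lit 21014457938, nat_lit 18454710559, nat_lit 19835617682, nat_lit 21212036592, nat_lit 22551892313, nat_lit 20023466445, nat_lit 21315515453], nat_lit 0, nat_lit 0, nat_lit 0, nat_lit 0, nat_lit 0, nat_lit 0, [], [nat_lit 29, nat_lit 40, nat_lit 40, nat_lit 80]⟩, ⟨t05_k5, nat_lit 0, nat_lit 0, nat_lit 0, nat_lit 0, nat_lit 337739, [nat_lit 4688000000, nat_lit 7968000000, nat_lit 9842000000], [], [nat_lit 10847512000, nat_lit 10847512000, nat_lit 10847512000, nat_lit 10847512000, nat_lit 15970969000, nat_lit 16665055000, nat_lit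 16999012000, nat_lit 17397770000], nat_lit 1271250, nat_lit 1271250, nat_lit 230001, nat_lit 490000, nat_lit 0, nat_lit 2118750, [nat_lit 1100000, nat_lit 1785000, nat_lit 1271250], [nat_lit 29, nat_lit 40, nat_lit 40, nat_lit 80]⟩,
 zbF0, [⟨nat_lit 0, nat_lit 100, nat_lit 100, nat_lit 60, nat_lit 139581053⟩, ⟨nat_lit 23, nat_lit 94, nat_lit 100, nat_lit 75, nat_lit 4926932⟩]⟩
noncomputable def t05_l13 : Lf2 := ⟨nat_lit 0, nat_lit 10, [nat_lit 0, nat_lit 5, nat_lit 5, nat_lit 20], false, nat_lit 280, nat_lit 300, nat_lit 0, nat_lit 300, ⟨nat_lit 0, nat_lit 1000, nat_lit 0, nat_lit 6, nat_lit 122, nat_lit 1000, nat_lit 214, nat_lit 0, nat_lit 0, nat_lit 0, nat_lit 0, nat_lit 0, nat_lit 46646209, nat_lit 6005621, nat_lit 14348170, nat_lit 4260796, false, false⟩,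
 nat_lit 0, nat_lit 0, nat_lit 100000, nat_lit 0, nat_lit 5644, nat_lit 58208, nat_lit 0, nat_lit 0, nat_lit 0, nat_lit 17813, nat_lit 1768, nat_lit 0, nat_lit 0, nat_lit 0, nat_lit 0, nat_lit 250000, nat_lit 0, nat_lit 8344936064, [(nat_lit 9, [(nat_lit 0, nat_lit 1000)])],
 ⟨t05_k6, nat_lit 0, nat_lit 0, nat_lit 0, nat_lit 0, nat_lit 0, [nat_lit 3116800000, nat_lit 3043066667, nat_lit 3665733333], [], [nat_lit 18572981912, nat_lit 20135894016, nat_lit 17565171532, nat_lit 18852727336, nat_lit 20354720240, nat_lit 21813150584, nat_lit 19059093238, nat_lit 20475002968], nat_lit 0, nat_lit 0, nat_lit 0, nat_lit 0, nat_lit 0, nat_lit 0, [], [nat_lit 11, nat_lit 40, nat_lit 40, nat_lit 80]⟩, ⟨t05_k6, nat_lit 0, nat_lit 0, nat_lit 428, nat_lit 0, nat_lit 337739, [nat_lit 28288000000, nat_lit 35360000000, nat_lit 49504000000], [], [nat_lit 90041605952, nat_lit 59728160128, nat_lit 29864080064, nat_lit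 0, nat_lit 31324820558, nat_lit 4791780606, nat_lit 39137585630, nat_lit 12947303486], nat_lit 1271250, nat_lit 1271250, nat_lit 230001, nat_lit 490000, nat_lit 0, nat_lit 2118750, [nat_lit 1100000, nat_lit 1442500, nat_lit 1271250], [nat_lit 11, nat_lit 40, nat_lit 40, nat_lit 80, nat_lit 1, nat_lit 401, nat_lit 175, nat_lit 12]⟩,
 ⟨nat_lit 5477, nat_lit 5917, ⟨.ofNat (nat_lit 249882), .ofNat (nat_lit 328416), .ofNat (nat_lit 271221), .ofNat (nat_lit 349755), .ofNat (nat_lit 264337), .ofNat (nat_lit 339271), .ofNat (nat_lit 285695), .ofNat (nat_lit 360628)⟩, ⟨.ofNat (nat_lit 507691), .ofNat (nat_lit 546958), .ofNat (nat_lit 529030), .ofNat (nat_lit 568297), .ofNat (nat_lit 500365), .ofNat (nat_lit 537832), .ofNat (nat_lit 521722), .ofNat (nat_lit 559189)⟩⟩, [⟨nat_lit 16, nat_lit 100, nat_lit 93, nat_lit 81, nat_lit 3689677520⟩]⟩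
noncomputable def t05_l14 : Lf2 := ⟨nat_lit 2, nat_lit 10, [nat_lit 0, nat_lit 5, nat_lit 5, nat_lit 20], true, nat_lit 280, nat_lit 300, nat_lit 0, nat_lit 300, zbN0,
 nat_lit 0, nat_lit 0, nat_lit 0, nat_lit 0, nat_lit 0, nat_lit 0, nat_lit 0, nat_lit 0, nat_lit 0, nat_lit 0, nat_lit 0, nat_lit 0, nat_lit 0, nat_lit 0, nat_lit 0, nat_lit 0, nat_lit 0, nat_lit 0, [],
 ⟨t05_k7, nat_lit 0, nat_lit 0, nat_lit 0, nat_lit 0, nat_lit 0, [], [], [], nat_lit 0, nat_lit 0, nat_lit 0, nat_lit 0, nat_lit 0, nat_lit 0, [], [nat_lit 169, nat_lit 40, nat_lit 20, nat_lit 40]⟩, C1.Rw.none,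
 zbF0, []⟩
noncomputable def t05_l15 : Lf2 := ⟨nat_lit 2, nat_lit 10, [nat_lit 0, nat_lit 5, nat_lit 5, nat_lit 20], true, nat_lit 280, nat_lit 320, nat_lit 0, nat_lit 300, zbN0,
 nat_lit 0, nat_lit 0, nat_lit 0, nat_lit 0, nat_lit 0, nat_lit 0, nat_lit 0, nat_lit 0, nat_lit 0, nat_lit 0, nat_lit 0, nat_lit 0, nat_lit 0, nat_lit 0, nat_lit 0, nat_lit 0, nat_lit 0, nat_lit 0, [],
 ⟨t05_k6, nat_lit 0, nat_lit 0, nat_lit 87, nat_lit 0, nat_lit 0, [], [], [], nat_lit 0, nat_lit 0, nat_lit 0, nat_lit 0, nat_lit 0, nat_lit 0, [], [nat_lit 11, nat_lit 40, nat_lit 40, nat_lit 80, nat_lit 1, nat_lit 317, nat_lit 100, nat_lit 8]⟩, C1.Rw.none,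
 zbF0, []⟩
noncomputable def t05_l16 : Lf2 := ⟨nat_lit 1, nat_lit 10, [nat_lit 0, nat_lit 5, nat_lit 5, nat_lit 20], false, nat_lit 160, nat_lit 336, nat_lit 0, nat_lit 336, zbN0,
 nat_lit 0, nat_lit 0, nat_lit 0, nat_lit 0, nat_lit 0, nat_lit 0, nat_lit 0, nat_lit 0, nat_lit 0, nat_lit 0, nat_lit 0, nat_lit 0, nat_lit 0, nat_lit 0, nat_lit 0, nat_lit 0, nat_lit 0, nat_lit 0, [],
 C1.Rw.none, C1.Rw.none,
 zbF0, []⟩
noncomputable def t05_l17 : Lf2 := ⟨nat_lit 0, nat_lit 6, [nat_lit 47, nat_lit 5, nat_lit 5, nat_lit 20], true, nat_lit 240, nat_lit 304, nat_lit 0, nat_lit 312, ⟨nat_lit 0, nat_lit 0, nat_lit 1000, nat_lit 6, nat_lit 102, nat_lit 1000, nat_lit 193, nat_lit 1000, nat_lit 4524, nat_lit 228, nat_lit 98817, nat_lit 292, nat_lit 49811571, nat_lit 0, nat_lit 0, nat_lit 3821374, false, false⟩,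
 nat_lit 0, nat_lit 100000, nat_lit 0, nat_lit 0, nat_lit 55555, nat_lit 0, nat_lit 20571, nat_lit 3432, nat_lit 0, nat_lit 0, nat_lit 0, nat_lit 0, nat_lit 0, nat_lit 114948455052014, nat_lit 0, nat_lit 1000000, nat_lit 0, nat_lit 0, [(nat_lit 6, [(nat_lit 6, nat_lit 1000)])],
 ⟨t05_k8, nat_lit 0, nat_lit 0, nat_lit 230, nat_lit 0, nat_lit 234262, [nat_lit 55889066667, nat_lit 68742400001, nat_lit 92157599999], [], [nat_lit 50883453498, nat_lit 53987955078, nat_lit 26295545013, nat_lit 29193528958, nat_lit 72099039012, nat_lit 74398003409, nat_lit 46119636489, nat_lit 48263644855], nat_lit 1271250, nat_lit 1271250, nat_lit 111251, nat_lit 490000, nat_lit 1271250, nat_lit 1271250, [nat_lit 1100000, nat_lit 1442500, nat_lit 1271250], [nat_lit 11, nat_lit 40, nat_lit 40, nat_lit 80, nat_lit 1, nat_lit 401, nat_lit 175, nat_lit 11]⟩, C1.Rw.none,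
 ⟨nat_lit 5916, nat_lit 6124, ⟨.ofNat (nat_lit 180982), .ofNat (nat_lit 301553), .ofNat (nat_lit 202330), .ofNat (nat_lit 322901), .ofNat (nat_lit 189276), .ofNat (nat_lit 307076), .ofNat (nat_lit 210615), .ofNat (nat_lit 328416)⟩, ⟨.ofNat (nat_lit 409594), .ofNat (nat_lit 538203), .ofNat (nat_lit 430942), .ofNat (nat_lit 559550), .ofNat (nat_lit 407818), .ofNat (nat_lit 533471), .ofNat (nat_lit 429157), .ofNat (nat_lit 554809)⟩⟩, [⟨nat_lit 0, nat_lit 100, nat_lit 100, nat_lit 60, nat_lit 2178108417⟩, ⟨nat_lit 4, nat_lit 94, nat_lit 100, nat_lit 69, nat_lit 4786505669⟩]⟩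
noncomputable def t05_l18 : Lf2 := ⟨nat_lit 1, nat_lit 6, [nat_lit 47, nat_lit 5, nat_lit 5, nat_lit 20], false, nat_lit 240, nat_lit 336, nat_lit 0, nat_lit 336, zbN0,
 nat_lit 0, nat_lit 0, nat_lit 0, nat_lit 0, nat_lit 0, nat_lit 0, nat_lit 0, nat_lit 0, nat_lit 0, nat_lit 0, nat_lit 0, nat_lit 0, nat_lit 0, nat_lit 0, nat_lit 0, nat_lit 0, nat_lit 0, nat_lit 0, [],
 C1.Rw.none, C1.Rw.none,
 zbF0, []⟩
noncomputable def t05_l19 : Lf2 := ⟨nat_lit 1, nat_lit 10, [nat_lit 0, nat_lit 5, nat_lit 5, nat_lit 20], false, nat_lit 240, nat_lit 336, nat_lit 0, nat_lit 336, zbN0,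
 nat_lit 0, nat_lit 0, nat_lit 0, nat_lit 0, nat_lit 0, nat_lit 0, nat_lit 0, nat_lit 0, nat_lit 0, nat_lit 0, nat_lit 0, nat_lit 0, nat_lit 0, nat_lit 0, nat_lit 0, nat_lit 0, nat_lit 0, nat_lit 0, [],
 C1.Rw.none, C1.Rw.none,
 zbF0, []⟩
noncomputable def t05_l20 : Lf2 := ⟨nat_lit 0, nat_lit 5, [nat_lit 4, nat_lit 5, nat_lit 5, nat_lit 20], true, nat_lit 240, nat_lit 296, nat_lit 0, nat_lit 312, ⟨nat_lit 0, nat_lit 0, nat_lit 1000, nat_lit 6, nat_lit 106, nat_lit 1000, nat_lit 189, nat_lit 1000, nat_lit 11818, nat_lit 238, nat_lit 106667, nat_lit 295, nat_lit 49947366, nat_lit 0, nat_lit 0, nat_lit 3834074, false, false⟩,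
 nat_lit 0, nat_lit 100000, nat_lit 0, nat_lit 0, nat_lit 58208, nat_lit 0, nat_lit 21561, nat_lit 4294, nat_lit 0, nat_lit 0, nat_lit 0, nat_lit 0, nat_lit 0, nat_lit 0, nat_lit 0, nat_lit 1000000, nat_lit 0, nat_lit 0, [(nat_lit 9, [(nat_lit 6, nat_lit 1000)])],
 ⟨t05_k9, nat_lit 0, nat_lit 0, nat_lit 210, nat_lit 0, nat_lit 268991, [nat_lit 69801600000, nat_lit 85140000001, nat_lit 100474399999], [], [nat_lit 68466564064, nat_lit 71697231561, nat_lit 44924507500, nat_lit 47948517392, nat_lit 88646637464, nat_lit 91477912270, nat_lit 64037093633, nat_lit 66690464303], nat_lit 1271250, nat_lit 1271250, nat_lit 134400, nat_lit 490000, nat_lit 1271250, nat_lit 1271250, [nat_lit 1100000, nat_lit 1442500, nat_lit 1271250], [nat_lit 9, nat_lit 40, nat_lit 40, nat_lit 80, nat_lit 2, nat_lit 226, nat_lit 20, nat_lit 7]⟩, C1.Rw.none,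
 ⟨nat_lit 5700, nat_lit 5917, ⟨.ofNat (nat_lit 197129), .ofNat (nat_lit 307076), .ofNat (nat_lit 218469), .ofNat (nat_lit 328416), .ofNat (nat_lit 205119), .ofNat (nat_lit 312525), .ofNat (nat_lit 226461), .ofNat (nat_lit 333867)⟩, ⟨.ofNat (nat_lit 407818), .ofNat (nat_lit 517765), .ofNat (nat_lit 429157), .ofNat (nat_lit 539104), .ofNat (nat_lit 405982), .ofNat (nat_lit 513388), .ofNat (nat_lit 427324), .ofNat (nat_lit 534730)⟩⟩, [⟨nat_lit 0, nat_lit 100, nat_lit 98, nat_lit 64, nat_lit 2274364196⟩, ⟨nat_lit 4, nat_lit 98, nat_lit 100, nat_lit 70, nat_lit 5581290538⟩]⟩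
noncomputable def t05_l21 : Lf2 := ⟨nat_lit 0, nat_lit 5, [nat_lit 4, nat_lit 5, nat_lit 5, nat_lit 20], true, nat_lit 240, nat_lit 320, nat_lit 0, nat_lit 336, ⟨nat_lit 0, nat_lit 0, nat_lit 1000, nat_lit 6, nat_lit 108, nat_lit 1000, nat_lit 206, nat_lit 1000, nat_lit 4618, nat_lit 210, nat_lit 109350, nat_lit 296, nat_lit 48269509, nat_lit 0, nat_lit 0, nat_lit 4014754, false, false⟩,
 nat_lit 0, nat_lit 100000, nat_lit 0, nat_lit 0, nat_lit 58208, nat_lit 0, nat_lit 20481, nat_lit 4120, nat_lit 0, nat_lit 0, nat_lit 0, nat_lit 0, nat_lit 0, nat_lit 0, nat_lit 0, nat_lit 1000000, nat_lit 0, nat_lit 0, [(nat_lit 9, [(nat_lit 6, nat_lit 1000)])],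
 ⟨t05_k9, nat_lit 0, nat_lit 0, nat_lit 203, nat_lit 0, nat_lit 218582, [nat_lit 67017600000, nat_lit 81660000000, nat_lit 96298400000], [], [nat_lit 63096939063, nat_lit 69558274058, nat_lit 39554882499, nat_lit 45787519072, nat_lit 91991144189, nat_lit 96962595482, nat_lit 66824341312, nat_lit 71485113216], nat_lit 1271250, nat_lit 1271250, nat_lit 134400, nat_lit 490000, nat_lit 1271250, nat_lit 1271250, [nat_lit 1100000, nat_lit 1442500, nat_lit 1271250], [nat_lit 9, nat_lit 40, nat_lit 40, nat_lit 80, nat_lit 2, nat_lit 226, nat_lit 20, nat_lit 7]⟩, C1.Rw.none,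
 ⟨nat_lit 5477, nat_lit 5917, ⟨.ofNat (nat_lit 197129), .ofNat (nat_lit 307076), .ofNat (nat_lit 218469), .ofNat (nat_lit 328416), .ofNat (nat_lit 213007), .ofNat (nat_lit 317913), .ofNat (nat_lit 234364), .ofNat (nat_lit 339271)⟩, ⟨.ofNat (nat_lit 429157), .ofNat (nat_lit 586223), .ofNat (nat_lit 450496), .ofNat (nat_lit 607556), .ofNat (nat_lit 425432), .ofNat (nat_lit 575297), .ofNat (nat_lit 446789), .ofNat (nat_lit 596648)⟩⟩, [⟨nat_lit 0, nat_lit 100, nat_lit 96, nat_lit 69, nat_lit 2319062053⟩, ⟨nat_lit 4, nat_lit 93, nat_lit 100, nat_lit 81, nat_lit 4669519953⟩]⟩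
noncomputable def t05_l22 : Lf2 := ⟨nat_lit 0, nat_lit 10, [nat_lit 0, nat_lit 5, nat_lit 5, nat_lit 20], true, nat_lit 240, nat_lit 320, nat_lit 0, nat_lit 320, ⟨nat_lit 0, nat_lit 1000, nat_lit 0, nat_lit 6, nat_lit 136, nat_lit 1000, nat_lit 202, nat_lit 0, nat_lit 0, nat_lit 0, nat_lit 0, nat_lit 0, nat_lit 46804664, nat_lit 7091712, nat_lit 13103624, nat_lit 4321930, false, false⟩,
 nat_lit 0, nat_lit 782, nat_lit 0, nat_lit 0, nat_lit 455, nat_lit 0, nat_lit 0, nat_lit 0, nat_lit 311, nat_lit 0, nat_lit 0, nat_lit 0, nat_lit 0, nat_lit 11174040191746, nat_lit 0, nat_lit 250000, nat_lit 0, nat_lit 0, [(nat_lit 9, [(nat_lit 0, nat_lit 1000)])],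
 ⟨t05_k10, nat_lit 0, nat_lit 0, nat_lit 0, nat_lit 0, nat_lit 455593, [nat_lit 1558400000, nat_lit 2319600001, nat_lit 2900133334, nat_lit 3657244444], [], [nat_lit 13828504400, nat_lit 14632756232, nat_lit 15424085580, nat_lit 16182067180, nat_lit 17120585572, nat_lit 17850908273, nat_lit 18482641580, nat_lit 19177295760], nat_lit 1271250, nat_lit 1271250, nat_lit 205650, nat_lit 780000, nat_lit 1271250, nat_lit 1271250, [nat_lit 490000, nat_lit 936250, nat_lit 1271250, nat_lit 1271250], [nat_lit 224, nat_lit 40, nat_lit 20, nat_lit 40]⟩, C1.Rw.none,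
 ⟨nat_lit 5477, nat_lit 5917, ⟨.ofNat (nat_lit 242029), .ofNat (nat_lit 406949), .ofNat (nat_lit 263368), .ofNat (nat_lit 428288), .ofNat (nat_lit 256844), .ofNat (nat_lit 414204), .ofNat (nat_lit 278201), .ofNat (nat_lit 435561)⟩, ⟨.ofNat (nat_lit 407818), .ofNat (nat_lit 564885), .ofNat (nat_lit 450496), .ofNat (nat_lit 607556), .ofNat (nat_lit 404075), .ofNat (nat_lit 553941), .ofNat (nat_lit 446789), .ofNat (nat_lit 596648)⟩⟩, [⟨nat_lit 0, nat_lit 100, nat_lit 100, nat_lit 80, nat_lit 14242879⟩]⟩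
noncomputable def t05_l23 : Lf2 := ⟨nat_lit 0, nat_lit 10, [nat_lit 0, nat_lit 5, nat_lit 5, nat_lit 20], false, nat_lit 240, nat_lit 320, nat_lit 0, nat_lit 320, ⟨nat_lit 0, nat_lit 0, nat_lit 1000, nat_lit 6, nat_lit 136, nat_lit 1000, nat_lit 202, nat_lit 1000, nat_lit 4618, nat_lit 210, nat_lit 173400, nat_lit 317, nat_lit 46804664, nat_lit 0, nat_lit 0, nat_lit 4321930, false, false⟩,
 nat_lit 71795, nat_lit 100000, nat_lit 0, nat_lit 0, nat_lit 100000, nat_lit 0, nat_lit 30906, nat_lit 6212, nat_lit 0, nat_lit 0, nat_lit 0, nat_lit 0, nat_lit 0, nat_lit 270108688098483, nat_lit 0, nat_lit 1000000, nat_lit 0, nat_lit 0, [(nat_lit 9, [(nat_lit 6, nat_lit 1000)])],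
 ⟨t05_k3, nat_lit 0, nat_lit 0, nat_lit 214, nat_lit 0, nat_lit 249092, [nat_lit 101427600001, nat_lit 168738600000], [], [nat_lit 75452859602, nat_lit 82975624401, nat_lit 29511042001, nat_lit 35944682001, nat_lit 114041750801, nat_lit 120271444000, nat_lit 57603600000, nat_lit 62986862000], nat_lit 1271250, nat_lit 1271250, nat_lit 205650, nat_lit 780000, nat_lit 1271250, nat_lit 1271250, [nat_lit 1100000, nat_lit 2127500], [nat_lit 70, nat_lit 40, nat_lit 40, nat_lit 80, nat_lit 13, nat_lit 428, nat_lit 200, nat_lit 12]⟩, ⟨t05_k3, nat_lit 0, nat_lit 0, nat_lit 343, nat_lit 0, nat_lit 249092, [nat_lit 0, nat_lit 0], [], [nat_lit 0, nat_lit 0, nat_lit 0, nat_lit 0, nat_lit 0, nat_lit 0, nat_lit 0, nat_lit 0], nat_lit 1271250, nat_lit 1271250, nat_lit 205650, nat_lit 780000, nat_lit 0, nat_lit 2260000, [nat_lit 1100000, nat_lit 2127500], [nat_lit 70, nat_lit 40, nat_lit 40, nat_lit 80, nat_lit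 13, nat_lit 428, nat_lit 200, nat_lit 13]⟩,
 ⟨nat_lit 5477, nat_lit 5917, ⟨.ofNat (nat_lit 242029), .ofNat (nat_lit 406949), .ofNat (nat_lit 263368), .ofNat (nat_lit 428288), .ofNat (nat_lit 256844), .ofNat (nat_lit 414204), .ofNat (nat_lit 278201), .ofNat (nat_lit 435561)⟩, ⟨.ofNat (nat_lit 407818), .ofNat (nat_lit 564885), .ofNat (nat_lit 450496), .ofNat (nat_lit 607556), .ofNat (nat_lit 404075), .ofNat (nat_lit 553941), .ofNat (nat_lit 446789), .ofNat (nat_lit 596648)⟩⟩, [⟨nat_lit 0, nat_lit 100, nat_lit 100, nat_lit 80, nat_lit 2911714325⟩, ⟨nat_lit 4, nat_lit 97, nat_lit 100, nat_lit 76, nat_lit 7168389084⟩]⟩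
noncomputable def t05_l24 : Lf2 := ⟨nat_lit 1, nat_lit 15, [nat_lit 30, nat_lit 5, nat_lit 5, nat_lit 20], false, nat_lit 0, nat_lit 336, nat_lit 0, nat_lit 336, zbN0,
 nat_lit 0, nat_lit 0, nat_lit 0, nat_lit 0, nat_lit 0, nat_lit 0, nat_lit 0, nat_lit 0, nat_lit 0, nat_lit 0, nat_lit 0, nat_lit 0, nat_lit 0, nat_lit 0, nat_lit 0, nat_lit 0, nat_lit 0, nat_lit 0, [],
 C1.Rw.none, C1.Rw.none,
 zbF0, []⟩
noncomputable def t05_l25 : Lf2 := ⟨nat_lit 0, nat_lit 15, [nat_lit 30, nat_lit 5, nat_lit 5, nat_lit 20], false, nat_lit 0, nat_lit 320, nat_lit 0, nat_lit 336, ⟨nat_lit 1000, nat_lit 0, nat_lit 0, nat_lit 0, nat_lit 0, nat_lit 0, nat_lit 0, nat_lit 0, nat_lit 0, nat_lit 0, nat_lit 0, nat_lit 0, nat_lit 0, nat_lit 0, nat_lit 0, nat_lit 0, false, false⟩,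
 nat_lit 16138, nat_lit 0, nat_lit 0, nat_lit 0, nat_lit 8313, nat_lit 8543, nat_lit 867, nat_lit 0, nat_lit 0, nat_lit 872, nat_lit 0, nat_lit 0, nat_lit 0, nat_lit 0, nat_lit 0, nat_lit 0, nat_lit 0, nat_lit 0, [],
 ⟨t05_k11, nat_lit 0, nat_lit 0, nat_lit 322, nat_lit 0, nat_lit 102329, [nat_lit 4688000000, nat_lit 7968000001, nat_lit 11872000000], [], [nat_lit 30512351516, nat_lit 31318285362, nat_lit 40700083852, nat_lit 41770840808, nat_lit 27585993938, nat_lit 27959722422, nat_lit 35494908384, nat_lit 36050343200], nat_lit 1271250, nat_lit 1271250, nat_lit 1271250, nat_lit 1271250, nat_lit 0, nat_lit 2260000, [nat_lit 1100000, nat_lit 1785000, nat_lit 1271250], [nat_lit 21, nat_lit 40, nat_lit 40, nat_lit 80, nat_lit 14, nat_lit 483, nat_lit 250, nat_lit 12]⟩, ⟨t05_k12, nat_lit 0, nat_lit 0, nat_lit 329, nat_lit 0, nat_lit 115479, [nat_lit 4688000000, nat_lit 7968000000, nat_lit 11872000000],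 [], [nat_lit 32105912284, nat_lit 33734313296, nat_lit 41257334848, nat_lit 42372662488, nat_lit 30966592489, nat_lit 30761162887, nat_lit 36239182936, nat_lit 37253681734], nat_lit 1271250, nat_lit 1271250, nat_lit 1271250, nat_lit 1271250, nat_lit 0, nat_lit 2373000, [nat_lit 1100000, nat_lit 1785000, nat_lit 1271250], [nat_lit 21, nat_lit 40, nat_lit 40, nat_lit 80, nat_lit 14, nat_lit 538, nat_lit 300, nat_lit 13]⟩,
 zbF0, [⟨nat_lit 4, nat_lit 97, nat_lit 100, nat_lit 76, nat_lit 126456812⟩, ⟨nat_lit 7, nat_lit 92, nat_lit 100, nat_lit 75, nat_lit 150951970⟩]⟩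
theorem r_V_600_600_10 (h : EB TB.env) : Dead (RC.box ⟨true, 80, 240, 280, 240, 280, 40, 80, [60]⟩ 0 60) := chkB_sound h (refs := [b_V_600_600_10_0, b_V_600_600_10_1, b_V_600_600_10_2, b_V_600_600_10_3, b_V_600_600_10_4, b_V_600_600_10_5, b_V_600_600_10_6, b_V_600_600_10_7, b_V_600_600_10_8, b_V_600_600_10_9, b_V_600_600_10_10, b_V_600_600_10_11, b_V_600_600_10_12, b_V_600_600_10_13, b_V_600_600_10_14, b_V_600_600_10_15, b_V_600_600_10_16, b_V_600_600_10_17, b_V_600_600_10_18, b_V_600_600_10_19, b_V_600_600_10_20, b_V_600_600_10_21, b_V_600_600_10_22, b_V_600_600_10_23, b_V_600_600_10_24, b_V_600_600_10_25, b_V_600_600_10_26, b_V_600_600_10_27, b_V_600_600_10_28, b_V_600_600_10_29, b_V_600_600_10_30, b_V_600_600_10_31, b_V_600_600_10_32, b_V_600_600_10_33, b_V_600_600_10_34, b_V_600_600_10_35, b_V_600_600_10_36, b_V_600_600_10_37, b_V_600_600_10_38, b_V_600_600_10_39, b_V_600_600_10_40, b_V_600_600_10_41,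 b_V_600_600_10_42, b_V_600_600_10_43, b_V_600_600_10_44, b_V_600_600_10_45, b_V_600_600_10_46, b_V_600_600_10_47, b_V_600_600_10_48, b_V_600_600_10_49, b_V_600_600_10_50, b_V_600_600_10_51, b_V_600_600_10_52, b_V_600_600_10_53, b_V_600_600_10_54, b_V_600_600_10_55, b_V_600_600_10_56, b_V_600_600_10_57, b_V_600_600_10_58, b_V_600_600_10_59, b_V_600_600_10_60, b_V_600_600_10_61, b_V_600_600_10_62, b_V_600_600_10_63, b_V_600_600_10_64, b_V_600_600_10_65, b_V_600_600_10_66, b_V_600_600_10_67, b_V_600_600_10_68, b_V_600_600_10_69, b_V_600_600_10_70, b_V_600_600_10_71, b_V_600_600_10_72, b_V_600_600_10_73, b_V_600_600_10_74, b_V_600_600_10_75, b_V_600_600_10_76, b_V_600_600_10_77, b_V_600_600_10_78, b_V_600_600_10_79, b_V_600_600_10_80, b_V_600_600_10_81, b_V_600_600_10_82, b_V_600_600_10_83, b_V_600_600_10_84]) (refs_cons (d_V_600_600_10_0 h) (refs_cons (d_V_600_600_10_1 h) (refs_cons (d_V_600_600_10_2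 h) (refs_cons (d_V_600_600_10_3 h) (refs_cons (d_V_600_600_10_4 h) (refs_cons (d_V_600_600_10_5 h) (refs_cons (d_V_600_600_10_6 h) (refs_cons (d_V_600_600_10_7 h) (refs_cons (d_V_600_600_10_8 h) (refs_cons (d_V_600_600_10_9 h) (refs_cons (d_V_600_600_10_10 h) (refs_cons (d_V_600_600_10_11 h) (refs_cons (d_V_600_600_10_12 h) (refs_cons (d_V_600_600_10_13 h) (refs_cons (d_V_600_600_10_14 h) (refs_cons (d_V_600_600_10_15 h) (refs_cons (d_V_600_600_10_16 h) (refs_cons (d_V_600_600_10_17 h) (refs_cons (d_V_600_600_10_18 h) (refs_cons (d_V_600_600_10_19 h) (refs_cons (d_V_600_600_10_20 h) (refs_cons (d_V_600_600_10_21 h) (refs_cons (d_V_600_600_10_22 h) (refs_cons (d_V_600_600_10_23 h) (refs_cons (d_V_600_600_10_24 h) (refs_cons (d_V_600_600_10_25 h) (refs_cons (d_V_600_600_10_26 h) (refs_cons (d_V_600_600_10_27 h) (refs_cons (d_V_600_600_10_28 h) (refs_cons (d_V_600_600_10_29 h) (refs_cons (d_V_600_600_10_30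 h) (refs_cons (d_V_600_600_10_31 h) (refs_cons (d_V_600_600_10_32 h) (refs_cons (d_V_600_600_10_33 h) (refs_cons (d_V_600_600_10_34 h) (refs_cons (d_V_600_600_10_35 h) (refs_cons (d_V_600_600_10_36 h) (refs_cons (d_V_600_600_10_37 h) (refs_cons (d_V_600_600_10_38 h) (refs_cons (d_V_600_600_10_39 h) (refs_cons (d_V_600_600_10_40 h) (refs_cons (d_V_600_600_10_41 h) (refs_cons (d_V_600_600_10_42 h) (refs_cons (d_V_600_600_10_43 h) (refs_cons (d_V_600_600_10_44 h) (refs_cons (d_V_600_600_10_45 h) (refs_cons (d_V_600_600_10_46 h) (refs_cons (d_V_600_600_10_47 h) (refs_cons (d_V_600_600_10_48 h) (refs_cons (d_V_600_600_10_49 h) (refs_cons (d_V_600_600_10_50 h) (refs_cons (d_V_600_600_10_51 h) (refs_cons (d_V_600_600_10_52 h) (refs_cons (d_V_600_600_10_53 h) (refs_cons (d_V_600_600_10_54 h) (refs_cons (d_V_600_600_10_55 h) (refs_cons (d_V_600_600_10_56 h) (refs_cons (d_V_600_600_10_57 h) (refs_cons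 (d_V_600_600_10_58 h) (refs_cons (d_V_600_600_10_59 h) (refs_cons (d_V_600_600_10_60 h) (refs_cons (d_V_600_600_10_61 h) (refs_cons (d_V_600_600_10_62 h) (refs_cons (d_V_600_600_10_63 h) (refs_cons (d_V_600_600_10_64 h) (refs_cons (d_V_600_600_10_65 h) (refs_cons (d_V_600_600_10_66 h) (refs_cons (d_V_600_600_10_67 h) (refs_cons (d_V_600_600_10_68 h) (refs_cons (d_V_600_600_10_69 h) (refs_cons (d_V_600_600_10_70 h) (refs_cons (d_V_600_600_10_71 h) (refs_cons (d_V_600_600_10_72 h) (refs_cons (d_V_600_600_10_73 h) (refs_cons (d_V_600_600_10_74 h) (refs_cons (d_V_600_600_10_75 h) (refs_cons (d_V_600_600_10_76 h) (refs_cons (d_V_600_600_10_77 h) (refs_cons (d_V_600_600_10_78 h) (refs_cons (d_V_600_600_10_79 h) (refs_cons (d_V_600_600_10_80 h) (refs_cons (d_V_600_600_10_81 h) (refs_cons (d_V_600_600_10_82 h) (refs_cons (d_V_600_600_10_83 h) (refs_cons (d_V_600_600_10_84 h) (refs_nil))))))))))))))))))))))))))))))))))))))))))))))))))))))))))))))))))))))))))))))))))))))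 (T :=
(.trZ (nat_lit 0) (nat_lit 100) (nat_lit 100) (nat_lit 40) (nat_lit 16) (.trX (nat_lit 16) (nat_lit 100) (nat_lit 76) (nat_lit 82) (nat_lit 336) (.trX (nat_lit 19) (nat_lit 100) (nat_lit 76) (nat_lit 82) (nat_lit 336) (.spl (nat_lit 6) (nat_lit 40)
(.st (nat_lit 0)
(.gv
(.st (nat_lit 1)
(.spl (nat_lit 2) (nat_lit 120)
(.spl (nat_lit 4) (nat_lit 160)
(.ref (nat_lit 0))
(.ref (nat_lit 1)))
(.ref (nat_lit 2)))
(.spl (nat_lit 2) (nat_lit 240)
(.spl (nat_lit 4) (nat_lit 160)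
(.ref (nat_lit 3))
(.spl (nat_lit 2) (nat_lit 120)
(.spl (nat_lit 0) (nat_lit 260)
(.ord (.spl (nat_lit 6) (nat_lit 24)
(.spl (nat_lit 4) (nat_lit 240)
(.leaf t05_l0)
(.spl (nat_lit 2) (nat_lit 80)
(.spl (nat_lit 4) (nat_lit 280)
(.ref (nat_lit 4))
(.trX (nat_lit 23) (nat_lit 100) (nat_lit 95) (nat_lit 87) (nat_lit 300) (.spl (nat_lit 4) (nat_lit 320)
(.spl (nat_lit 2) (nat_lit 40)
(.trX (nat_lit 23) (nat_lit 94) (nat_lit 100) (nat_lit 62) (nat_lit 248) (.spl (nat_lit 7) (nat_lit 600)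
(.spl (nat_lit 7) (nat_lit 300)
(.leaf t05_l1)
(.spl (nat_lit 8) (nat_lit 800)
(.spl (nat_lit 6) (nat_lit 16)
(.spl (nat_lit 7) (nat_lit 460)
(.spl (nat_lit 0) (nat_lit 250)
(.ref (nat_lit 5))
(.trZ (nat_lit 0) (nat_lit 100) (nat_lit 99) (nat_lit 45) (nat_lit 20) (.spl (nat_lit 3) (nat_lit 60)
(.trX (nat_lit 16) (nat_lit 100) (nat_lit 88) (nat_lit 74) (nat_lit 304) (.spl (nat_lit 2) (nat_lit 32)
(.ref (nat_lit 6))
(.spl (nat_lit 7) (nat_lit 380)
(.ref (nat_lit 7))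
(.spl (nat_lit 7) (nat_lit 420)
(.ref (nat_lit 8))
(.leaf t05_l2)))))
(.ref (nat_lit 9)))))
(.ref (nat_lit 10)))
(.ref (nat_lit 11)))
(.leaf t05_l3)))
(.leaf t05_l4)))
(.spl (nat_lit 6) (nat_lit 16)
(.spl (nat_lit 3) (nat_lit 60)
(.ref (nat_lit 12))
(.ref (nat_lit 13)))
(.spl (nat_lit 3) (nat_lit 60)
(.trX (nat_lit 16) (nat_lit 100) (nat_lit 85) (nat_lit 73) (nat_lit 312) (.leaf t05_l5))
(.leaf t05_l6))))
(.ref (nat_lit 14)))))
(.ref (nat_lit 15))))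
(.leaf t05_l7)))
(.trZ (nat_lit 0) (nat_lit 100) (nat_lit 97) (nat_lit 49) (nat_lit 24) (.trX (nat_lit 16) (nat_lit 100) (nat_lit 85) (nat_lit 84) (nat_lit 320) (.spl (nat_lit 4) (nat_lit 240)
(.leaf t05_l8)
(.spl (nat_lit 2) (nat_lit 80)
(.spl (nat_lit 2) (nat_lit 40)
(.trX (nat_lit 23) (nat_lit 100) (nat_lit 92) (nat_lit 61) (nat_lit 288) (.spl (nat_lit 4) (nat_lit 280)
(.ref (nat_lit 16))
(.trX (nat_lit 23) (nat_lit 94) (nat_lit 100) (nat_lit 62) (nat_lit 248) (.spl (nat_lit 6) (nat_lit 20)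
(.spl (nat_lit 2) (nat_lit 32)
(.ref (nat_lit 17))
(.ref (nat_lit 18)))
(.ref (nat_lit 19))))))
(.spl (nat_lit 4) (nat_lit 280)
(.ref (nat_lit 20))
(.trX (nat_lit 23) (nat_lit 100) (nat_lit 95) (nat_lit 87) (nat_lit 300) (.spl (nat_lit 7) (nat_lit 600)
(.spl (nat_lit 4) (nat_lit 300)
(.spl (nat_lit 7) (nat_lit 300)
(.leaf t05_l9)
(.spl (nat_lit 7) (nat_lit 460)
(.spl (nat_lit 3) (nat_lit 60)
(.ref (nat_lit 21))
(.spl (nat_lit 1) (nat_lit 260)
(.spl (nat_lit 6) (nat_lit 24)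
(.leaf t05_l10)
(.leaf t05_l11))
(.spl (nat_lit 8) (nat_lit 800)
(.spl (nat_lit 8) (nat_lit 400)
(.leaf t05_l12)
(.ref (nat_lit 22)))
(.leaf t05_l13))))
(.leaf t05_l14)))
(.trX (nat_lit 23) (nat_lit 94) (nat_lit 100) (nat_lit 87) (nat_lit 280) (.spl (nat_lit 2) (nat_lit 60)
(.ref (nat_lit 23))
(.ref (nat_lit 24)))))
(.leaf t05_l15)))))
(.ref (nat_lit 25)))))))
(.ref (nat_lit 26))))
(.ref (nat_lit 27))))
(.ref (nat_lit 28)))
(.gv
(.st (nat_lit 1)
(.spl (nat_lit 2) (nat_lit 240)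
(.spl (nat_lit 4) (nat_lit 160)
(.spl (nat_lit 0) (nat_lit 260)
(.ref (nat_lit 29))
(.ref (nat_lit 30)))
(.spl (nat_lit 0) (nat_lit 260)
(.ord (.spl (nat_lit 6) (nat_lit 24)
(.spl (nat_lit 4) (nat_lit 240)
(.ref (nat_lit 31))
(.ref (nat_lit 32)))
(.leaf t05_l16)))
(.trZ (nat_lit 0) (nat_lit 100) (nat_lit 97) (nat_lit 49) (nat_lit 24) (.trX (nat_lit 16) (nat_lit 100) (nat_lit 85) (nat_lit 84) (nat_lit 320) (.spl (nat_lit 2) (nat_lit 120)
(.spl (nat_lit 2) (nat_lit 80)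
(.spl (nat_lit 4) (nat_lit 240)
(.ref (nat_lit 33))
(.ref (nat_lit 34)))
(.ref (nat_lit 35)))
(.ref (nat_lit 36)))))))
(.ref (nat_lit 37)))
(.spl (nat_lit 2) (nat_lit 240)
(.spl (nat_lit 4) (nat_lit 160)
(.spl (nat_lit 2) (nat_lit 160)
(.spl (nat_lit 0) (nat_lit 260)
(.ref (nat_lit 38))
(.trZ (nat_lit 0) (nat_lit 100) (nat_lit 97) (nat_lit 49) (nat_lit 24) (.spl (nat_lit 2) (nat_lit 80)
(.ref (nat_lit 39))
(.ref (nat_lit 40)))))
(.ref (nat_lit 41)))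
(.spl (nat_lit 4) (nat_lit 240)
(.spl (nat_lit 0) (nat_lit 260)
(.ref (nat_lit 42))
(.trZ (nat_lit 0) (nat_lit 100) (nat_lit 97) (nat_lit 49) (nat_lit 24) (.spl (nat_lit 2) (nat_lit 160)
(.spl (nat_lit 2) (nat_lit 120)
(.spl (nat_lit 4) (nat_lit 200)
(.ref (nat_lit 43))
(.ref (nat_lit 44)))
(.ref (nat_lit 45)))
(.ref (nat_lit 46)))))
(.spl (nat_lit 0) (nat_lit 260)
(.ord (.spl (nat_lit 6) (nat_lit 24)
(.spl (nat_lit 2) (nat_lit 120)
(.spl (nat_lit 3) (nat_lit 60)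
(.trX (nat_lit 16) (nat_lit 100) (nat_lit 85) (nat_lit 73) (nat_lit 312) (.trX (nat_lit 19) (nat_lit 100) (nat_lit 85) (nat_lit 73) (nat_lit 312) (.spl (nat_lit 0) (nat_lit 250)
(.ref (nat_lit 47))
(.trZ (nat_lit 0) (nat_lit 100) (nat_lit 99) (nat_lit 45) (nat_lit 20) (.trX (nat_lit 16) (nat_lit 100) (nat_lit 88) (nat_lit 74) (nat_lit 304) (.spl (nat_lit 2) (nat_lit 80)
(.spl (nat_lit 7) (nat_lit 600)
(.spl (nat_lit 6) (nat_lit 16)
(.spl (nat_lit 0) (nat_lit 255)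
(.ref (nat_lit 48))
(.ref (nat_lit 49)))
(.ref (nat_lit 50)))
(.leaf t05_l17))
(.ref (nat_lit 51))))))))
(.spl (nat_lit 6) (nat_lit 12)
(.spl (nat_lit 2) (nat_lit 80)
(.spl (nat_lit 4) (nat_lit 280)
(.ref (nat_lit 52))
(.ref (nat_lit 53)))
(.ref (nat_lit 54)))
(.leaf t05_l18)))
(.ref (nat_lit 55)))
(.leaf t05_l19)))
(.trZ (nat_lit 0) (nat_lit 100) (nat_lit 97) (nat_lit 49) (nat_lit 24) (.trX (nat_lit 16) (nat_lit 100) (nat_lit 85) (nat_lit 84) (nat_lit 320) (.spl (nat_lit 2) (nat_lit 120)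
(.spl (nat_lit 6) (nat_lit 20)
(.spl (nat_lit 1) (nat_lit 260)
(.spl (nat_lit 3) (nat_lit 60)
(.trX (nat_lit 16) (nat_lit 100) (nat_lit 92) (nat_lit 75) (nat_lit 296) (.trX (nat_lit 19) (nat_lit 100) (nat_lit 85) (nat_lit 73) (nat_lit 312) (.spl (nat_lit 0) (nat_lit 270)
(.spl (nat_lit 2) (nat_lit 80)
(.spl (nat_lit 7) (nat_lit 600)
(.spl (nat_lit 1) (nat_lit 250)
(.ref (nat_lit 56))
(.trZ (nat_lit 0) (nat_lit 100) (nat_lit 99) (nat_lit 55) (nat_lit 28) (.trX (nat_lit 19) (nat_lit 100) (nat_lit 88) (nat_lit 74) (nat_lit 304) (.spl (nat_lit 2) (nat_lit 60)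
(.ref (nat_lit 57))
(.ref (nat_lit 58))))))
(.leaf t05_l20))
(.ref (nat_lit 59)))
(.trZ (nat_lit 0) (nat_lit 100) (nat_lit 96) (nat_lit 54) (nat_lit 28) (.trX (nat_lit 16) (nat_lit 100) (nat_lit 97) (nat_lit 76) (nat_lit 288) (.spl (nat_lit 2) (nat_lit 80)
(.spl (nat_lit 1) (nat_lit 250)
(.ref (nat_lit 60))
(.ref (nat_lit 61)))
(.ref (nat_lit 62))))))))
(.spl (nat_lit 2) (nat_lit 80)
(.spl (nat_lit 7) (nat_lit 600)
(.spl (nat_lit 4) (nat_lit 280)
(.ref (nat_lit 63))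
(.ref (nat_lit 64)))
(.leaf t05_l21))
(.ref (nat_lit 65))))
(.trZ (nat_lit 0) (nat_lit 100) (nat_lit 100) (nat_lit 60) (nat_lit 36) (.trX (nat_lit 19) (nat_lit 100) (nat_lit 85) (nat_lit 84) (nat_lit 320) (.spl (nat_lit 1) (nat_lit 270)
(.spl (nat_lit 3) (nat_lit 60)
(.ref (nat_lit 66))
(.ref (nat_lit 67)))
(.ref (nat_lit 68))))))
(.spl (nat_lit 1) (nat_lit 260)
(.ref (nat_lit 69))
(.trZ (nat_lit 0) (nat_lit 100) (nat_lit 100) (nat_lit 60) (nat_lit 36) (.trX (nat_lit 19) (nat_lit 100) (nat_lit 85) (nat_lit 84) (nat_lit 320) (.spl (nat_lit 7) (nat_lit 600)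
(.spl (nat_lit 7) (nat_lit 300)
(.leaf t05_l22)
(.spl (nat_lit 0) (nat_lit 270)
(.ref (nat_lit 70))
(.ref (nat_lit 71))))
(.leaf t05_l23))))))
(.ref (nat_lit 72))))))))
(.ref (nat_lit 73))))
(.st (nat_lit 1)
(.spl (nat_lit 2) (nat_lit 240)
(.spl (nat_lit 0) (nat_lit 260)
(.ref (nat_lit 74))
(.trZ (nat_lit 0) (nat_lit 100) (nat_lit 97) (nat_lit 49) (nat_lit 24) (.trX (nat_lit 16) (nat_lit 100) (nat_lit 85) (nat_lit 84) (nat_lit 320) (.spl (nat_lit 4) (nat_lit 160)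
(.ref (nat_lit 75))
(.ref (nat_lit 76))))))
(.ref (nat_lit 77)))
(.ref (nat_lit 78)))))
(.st (nat_lit 0)
(.gv
(.ref (nat_lit 79))
(.ref (nat_lit 80)))
(.gv
(.st (nat_lit 1)
(.ref (nat_lit 81))
(.spl (nat_lit 2) (nat_lit 240)
(.spl (nat_lit 4) (nat_lit 160)
(.ref (nat_lit 82))
(.ref (nat_lit 83)))
(.spl (nat_lit 0) (nat_lit 260)
(.ord (.leaf t05_l24))
(.trX (nat_lit 16) (nat_lit 100) (nat_lit 85) (nat_lit 84) (nat_lit 320) (.leaf t05_l25)))))
(.ref (nat_lit 84))))))))) (by decide +kernel)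
theorem done_V_600_600_10 (h : EB TB.env) : RC.Done ⟨true, 80, 240, 280, 240, 280, 40, 80, [60]⟩ := RC.done1 (r_V_600_600_10 h) (t_V_600_600_10 h)
theorem t_V_600_600_20 (h : EB TB.env) : RC.Tail ⟨true, 120, 240, 280, 240, 280, 80, 120, [32]⟩ := RC.tail_chk h (b := ⟨nat_lit 60, nat_lit 16, nat_lit 5, nat_lit 5, nat_lit 20, nat_lit 238, nat_lit 30, nat_lit 13, nat_lit 15⟩) (by decide +kernel)
noncomputable def t05_l26 : Lf2 := ⟨nat_lit 0, nat_lit 6, [nat_lit 47, nat_lit 5, nat_lit 5, nat_lit 20], true, nat_lit 160, nat_lit 240, nat_lit 0, nat_lit 364, ⟨nat_lit 0, nat_lit 0, nat_lit 1000, nat_lit 6, nat_lit 122, nat_lit 1000, nat_lit 157, nat_lit 1000, nat_lit 40279, nat_lit 264, nat_lit 138017, nat_lit 306, nat_lit 51701435, nat_lit 0, nat_lit 0, nat_lit 3688659, false, false⟩,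
 nat_lit 0, nat_lit 0, nat_lit 0, nat_lit 3459, nat_lit 4685, nat_lit 0, nat_lit 0, nat_lit 0, nat_lit 0, nat_lit 0, nat_lit 0, nat_lit 0, nat_lit 0, nat_lit 8132442046890, nat_lit 69, nat_lit 400000, nat_lit 0, nat_lit 0, [(nat_lit 6, [(nat_lit 5, nat_lit 1000)]), (nat_lit 9, [(nat_lit 5, nat_lit 1000)])],
 ⟨t05_k0, nat_lit 0, nat_lit 0, nat_lit 54, nat_lit 0, nat_lit 0, [nat_lit 2630400000, nat_lit 7200000], [], [nat_lit 10198814892, nat_lit 13768759400, nat_lit 9256077820, nat_lit 12222012780, nat_lit 14642853217, nat_lit 17858178805, nat_lit 13114487340, nat_lit 15613336240], nat_lit 0, nat_lit 0, nat_lit 0, nat_lit 0, nat_lit 0, nat_lit 0, [], [nat_lit 70, nat_lit 40, nat_lit 40, nat_lit 80, nat_lit 13, nat_lit 401, nat_lit 175, nat_lit 11]⟩, C1.Rw.none,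
 ⟨nat_lit 5477, nat_lit 6325, ⟨.ofNat (nat_lit 164319), .ofNat (nat_lit 378206), .ofNat (nat_lit 207055), .ofNat (nat_lit 420942), .ofNat (nat_lit 198021), .ofNat (nat_lit 392847), .ofNat (nat_lit 240735), .ofNat (nat_lit 435561)⟩, ⟨.ofNat (nat_lit 289527), .ofNat (nat_lit 454055), .ofNat (nat_lit 332263), .ofNat (nat_lit 496791), .ofNat (nat_lit 296923), .ofNat (nat_lit 446789), .ofNat (nat_lit 339637), .ofNat (nat_lit 489503)⟩⟩, [⟨nat_lit 0, nat_lit 100, nat_lit 100, nat_lit 80, nat_lit 214753187⟩]⟩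
noncomputable def t05_l27 : Lf2 := ⟨nat_lit 1, nat_lit 6, [nat_lit 47, nat_lit 5, nat_lit 5, nat_lit 20], false, nat_lit 240, nat_lit 364, nat_lit 0, nat_lit 364, zbN0,
 nat_lit 0, nat_lit 0, nat_lit 0, nat_lit 0, nat_lit 0, nat_lit 0, nat_lit 0, nat_lit 0, nat_lit 0, nat_lit 0, nat_lit 0, nat_lit 0, nat_lit 0, nat_lit 0, nat_lit 0, nat_lit 0, nat_lit 0, nat_lit 0, [],
 C1.Rw.none, C1.Rw.none,
 zbF0, []⟩
noncomputable def t05_l28 : Lf2 := ⟨nat_lit 1, nat_lit 6, [nat_lit 47, nat_lit 5, nat_lit 5, nat_lit 20], false, nat_lit 240, nat_lit 320, nat_lit 0, nat_lit 364, zbN0,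
 nat_lit 0, nat_lit 0, nat_lit 0, nat_lit 0, nat_lit 0, nat_lit 0, nat_lit 0, nat_lit 0, nat_lit 0, nat_lit 0, nat_lit 0, nat_lit 0, nat_lit 0, nat_lit 0, nat_lit 0, nat_lit 0, nat_lit 0, nat_lit 0, [],
 C1.Rw.none, C1.Rw.none,
 zbF0, []⟩
noncomputable def t05_l29 : Lf2 := ⟨nat_lit 1, nat_lit 8, [nat_lit 50, nat_lit 5, nat_lit 5, nat_lit 20], false, nat_lit 0, nat_lit 364, nat_lit 0, nat_lit 364, zbN0,
 nat_lit 0, nat_lit 0, nat_lit 0, nat_lit 0, nat_lit 0, nat_lit 0, nat_lit 0, nat_lit 0, nat_lit 0, nat_lit 0, nat_lit 0, nat_lit 0, nat_lit 0, nat_lit 0, nat_lit 0, nat_lit 0, nat_lit 0, nat_lit 0, [],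
 C1.Rw.none, C1.Rw.none,
 zbF0, []⟩
theorem r_V_600_600_20 (h : EB TB.env) : Dead (RC.box ⟨true, 120, 240, 280, 240, 280, 80, 120, [32]⟩ 0 32) := chkB_sound h (refs := [b_V_600_600_20_0, b_V_600_600_20_1, b_V_600_600_20_2, b_V_600_600_20_3, b_V_600_600_20_4, b_V_600_600_20_5, b_V_600_600_20_6, b_V_600_600_20_7, b_V_600_600_20_8, b_V_600_600_20_9, b_V_600_600_20_10, b_V_600_600_20_11, b_V_600_600_20_12, b_V_600_600_20_13, b_V_600_600_20_14, b_V_600_600_20_15, b_V_600_600_20_16, b_V_600_600_20_17, b_V_600_600_20_18, b_V_600_600_20_19, b_V_600_600_20_20, b_V_600_600_20_21, b_V_600_600_20_22, b_V_600_600_20_23]) (refs_cons (d_V_600_600_20_0 h) (refs_cons (d_V_600_600_20_1 h) (refs_cons (d_V_600_600_20_2 h) (refs_cons (d_V_600_600_20_3 h) (refs_cons (d_V_600_600_20_4 h) (refs_cons (d_V_600_600_20_5 h) (refs_cons (d_V_600_600_20_6 h) (refs_cons (d_V_600_600_20_7 h) (refs_cons (d_V_600_600_20_8 h)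 (refs_cons (d_V_600_600_20_9 h) (refs_cons (d_V_600_600_20_10 h) (refs_cons (d_V_600_600_20_11 h) (refs_cons (d_V_600_600_20_12 h) (refs_cons (d_V_600_600_20_13 h) (refs_cons (d_V_600_600_20_14 h) (refs_cons (d_V_600_600_20_15 h) (refs_cons (d_V_600_600_20_16 h) (refs_cons (d_V_600_600_20_17 h) (refs_cons (d_V_600_600_20_18 h) (refs_cons (d_V_600_600_20_19 h) (refs_cons (d_V_600_600_20_20 h) (refs_cons (d_V_600_600_20_21 h) (refs_cons (d_V_600_600_20_22 h) (refs_cons (d_V_600_600_20_23 h) (refs_nil))))))))))))))))))))))))) (T :=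
(.trZ (nat_lit 0) (nat_lit 100) (nat_lit 100) (nat_lit 40) (nat_lit 16) (.trX (nat_lit 16) (nat_lit 100) (nat_lit 59) (nat_lit 94) (nat_lit 364) (.trX (nat_lit 19) (nat_lit 100) (nat_lit 59) (nat_lit 94) (nat_lit 364) (.spl (nat_lit 6) (nat_lit 24)
(.st (nat_lit 0)
(.gv
(.st (nat_lit 1)
(.ref (nat_lit 0))
(.spl (nat_lit 2) (nat_lit 240)
(.spl (nat_lit 4) (nat_lit 160)
(.ref (nat_lit 1))
(.spl (nat_lit 2) (nat_lit 120)
(.spl (nat_lit 4) (nat_lit 240)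
(.leaf t05_l26)
(.spl (nat_lit 1) (nat_lit 260)
(.spl (nat_lit 6) (nat_lit 12)
(.spl (nat_lit 2) (nat_lit 80)
(.ref (nat_lit 2))
(.ref (nat_lit 3)))
(.leaf t05_l27))
(.ord (.trZ (nat_lit 0) (nat_lit 100) (nat_lit 100) (nat_lit 60) (nat_lit 36) (.trX (nat_lit 16) (nat_lit 100) (nat_lit 69) (nat_lit 96) (nat_lit 352) (.trX (nat_lit 19) (nat_lit 100) (nat_lit 69) (nat_lit 96) (nat_lit 352) (.spl (nat_lit 1) (nat_lit 270)
(.ref (nat_lit 4))
(.ref (nat_lit 5)))))))))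
(.ref (nat_lit 6))))
(.ref (nat_lit 7))))
(.ref (nat_lit 8)))
(.gv
(.st (nat_lit 1)
(.spl (nat_lit 2) (nat_lit 240)
(.spl (nat_lit 4) (nat_lit 160)
(.ref (nat_lit 9))
(.spl (nat_lit 0) (nat_lit 260)
(.ref (nat_lit 10))
(.ref (nat_lit 11))))
(.ref (nat_lit 12)))
(.spl (nat_lit 2) (nat_lit 240)
(.spl (nat_lit 4) (nat_lit 160)
(.ref (nat_lit 13))
(.spl (nat_lit 4) (nat_lit 240)
(.ref (nat_lit 14))
(.spl (nat_lit 2) (nat_lit 120)
(.spl (nat_lit 0) (nat_lit 260)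
(.ref (nat_lit 15))
(.trZ (nat_lit 0) (nat_lit 100) (nat_lit 97) (nat_lit 49) (nat_lit 24) (.trX (nat_lit 16) (nat_lit 100) (nat_lit 69) (nat_lit 96) (nat_lit 352) (.spl (nat_lit 4) (nat_lit 320)
(.spl (nat_lit 1) (nat_lit 260)
(.spl (nat_lit 6) (nat_lit 12)
(.spl (nat_lit 2) (nat_lit 80)
(.trX (nat_lit 23) (nat_lit 100) (nat_lit 76) (nat_lit 82) (nat_lit 336) (.spl (nat_lit 4) (nat_lit 280)
(.ref (nat_lit 16))
(.ref (nat_lit 17))))
(.ref (nat_lit 18)))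
(.leaf t05_l28))
(.ref (nat_lit 19)))
(.ref (nat_lit 20))))))
(.ref (nat_lit 21)))))
(.ref (nat_lit 22))))
(.ref (nat_lit 23))))
(.leaf t05_l29)))))) (by decide +kernel)
theorem done_V_600_600_20 (h : EB TB.env) : RC.Done ⟨true, 120, 240, 280, 240, 280, 80, 120, [32]⟩ := RC.done1 (r_V_600_600_20 h) (t_V_600_600_20 h)
theorem t_V_700_400_10 (h : EB TB.env) : RC.Tail ⟨true, 80, 280, 320, 160, 200, 40, 80, [52]⟩ := RC.tail_chk h (b := ⟨nat_lit 40, nat_lit 26, nat_lit 5, nat_lit 5, nat_lit 20, nat_lit 226, nat_lit 20, nat_lit 18, nat_lit 5⟩) (by decide +kernel)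
theorem r_V_700_400_10 (h : EB TB.env) : Dead (RC.box ⟨true, 80, 280, 320, 160, 200, 40, 80, [52]⟩ 0 52) := chkB_sound h (refs := [b_V_700_400_10_0, b_V_700_400_10_1, b_V_700_400_10_2, b_V_700_400_10_3, b_V_700_400_10_4, b_V_700_400_10_5, b_V_700_400_10_6, b_V_700_400_10_7]) (refs_cons (d_V_700_400_10_0 h) (refs_cons (d_V_700_400_10_1 h) (refs_cons (d_V_700_400_10_2 h) (refs_cons (d_V_700_400_10_3 h) (refs_cons (d_V_700_400_10_4 h) (refs_cons (d_V_700_400_10_5 h) (refs_cons (d_V_700_400_10_6 h) (refs_cons (d_V_700_400_10_7 h) (refs_nil))))))))) (T :=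
(.trZ (nat_lit 0) (nat_lit 100) (nat_lit 94) (nat_lit 21) (nat_lit 4) (.trX (nat_lit 13) (nat_lit 92) (nat_lit 40) (nat_lit 100) (nat_lit 384) (.trX (nat_lit 16) (nat_lit 100) (nat_lit 95) (nat_lit 87) (nat_lit 300) (.trX (nat_lit 19) (nat_lit 100) (nat_lit 44) (nat_lit 82) (nat_lit 384) (.spl (nat_lit 6) (nat_lit 40)
(.st (nat_lit 0)
(.ref (nat_lit 0))
(.gv
(.st (nat_lit 1)
(.ref (nat_lit 1))
(.spl (nat_lit 2) (nat_lit 160)
(.ref (nat_lit 2))
(.spl (nat_lit 4) (nat_lit 160)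
(.ref (nat_lit 3))
(.ref (nat_lit 4)))))
(.ref (nat_lit 5))))
(.st (nat_lit 0)
(.ref (nat_lit 6))
(.ref (nat_lit 7))))))))) (by decide +kernel)
theorem done_V_700_400_10 (h : EB TB.env) : RC.Done ⟨true, 80, 280, 320, 160, 200, 40, 80, [52]⟩ := RC.done1 (r_V_700_400_10 h) (t_V_700_400_10 h)
theorem t_V_700_400_20 (h : EB TB.env) : RC.Tail ⟨true, 120, 280, 320, 160, 200, 80, 120, [28]⟩ := RC.tail_chk h (b := ⟨nat_lit 60, nat_lit 14, nat_lit 5, nat_lit 5, nat_lit 20, nat_lit 238, nat_lit 30, nat_lit 13, nat_lit 15⟩) (by decide +kernel)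
theorem r_V_700_400_20 (h : EB TB.env) : Dead (RC.box ⟨true, 120, 280, 320, 160, 200, 80, 120, [28]⟩ 0 28) := chkB_sound h (refs := [b_V_700_400_20_0, b_V_700_400_20_1, b_V_700_400_20_2, b_V_700_400_20_3]) (refs_cons (d_V_700_400_20_0 h) (refs_cons (d_V_700_400_20_1 h) (refs_cons (d_V_700_400_20_2 h) (refs_cons (d_V_700_400_20_3 h) (refs_nil))))) (T :=
(.trZ (nat_lit 0) (nat_lit 100) (nat_lit 94) (nat_lit 21) (nat_lit 4) (.trX (nat_lit 13) (nat_lit 92) (nat_lit 40) (nat_lit 100) (nat_lit 384) (.trX (nat_lit 16) (nat_lit 100) (nat_lit 80) (nat_lit 100) (nat_lit 336) (.trX (nat_lit 19) (nat_lit 100) (nat_lit 21) (nat_lit 94) (nat_lit 396) (.st (nat_lit 0)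
(.ref (nat_lit 0))
(.gv
(.st (nat_lit 1)
(.ref (nat_lit 1))
(.ref (nat_lit 2)))
(.ref (nat_lit 3))))))))) (by decide +kernel)
theorem done_V_700_400_20 (h : EB TB.env) : RC.Done ⟨true, 120, 280, 320, 160, 200, 80, 120, [28]⟩ := RC.done1 (r_V_700_400_20 h) (t_V_700_400_20 h)
theorem t_V_700_500_10 (h : EB TB.env) : RC.Tail ⟨true, 80, 280, 320, 200, 240, 40, 80, [72]⟩ := RC.tail_chk h (b := ⟨nat_lit 40, nat_lit 36, nat_lit 5, nat_lit 5, nat_lit 20, nat_lit 226, nat_lit 20, nat_lit 18, nat_lit 5⟩) (by decide +kernel)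
theorem r_V_700_500_10 (h : EB TB.env) : Dead (RC.box ⟨true, 80, 280, 320, 200, 240, 40, 80, [72]⟩ 0 72) := chkB_sound h (refs := [b_V_700_500_10_0, b_V_700_500_10_1, b_V_700_500_10_2, b_V_700_500_10_3, b_V_700_500_10_4, b_V_700_500_10_5, b_V_700_500_10_6, b_V_700_500_10_7, b_V_700_500_10_8, b_V_700_500_10_9, b_V_700_500_10_10, b_V_700_500_10_11, b_V_700_500_10_12, b_V_700_500_10_13, b_V_700_500_10_14]) (refs_cons (d_V_700_500_10_0 h) (refs_cons (d_V_700_500_10_1 h) (refs_cons (d_V_700_500_10_2 h) (refs_cons (d_V_700_500_10_3 h) (refs_cons (d_V_700_500_10_4 h) (refs_cons (d_V_700_500_10_5 h) (refs_cons (d_V_700_500_10_6 h) (refs_cons (d_V_700_500_10_7 h) (refs_cons (d_V_700_500_10_8 h) (refs_cons (d_V_700_500_10_9 h) (refs_cons (d_V_700_500_10_10 h) (refs_cons (d_V_700_500_10_11 h) (refs_cons (d_V_700_500_10_12 h) (refs_cons (d_V_700_500_10_13 h) (refs_cons (d_V_700_500_10_14 h) (refs_nil))))))))))))))))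 (T :=
(.trZ (nat_lit 0) (nat_lit 100) (nat_lit 92) (nat_lit 40) (nat_lit 16) (.trX (nat_lit 13) (nat_lit 94) (nat_lit 21) (nat_lit 100) (nat_lit 396) (.trX (nat_lit 16) (nat_lit 100) (nat_lit 95) (nat_lit 87) (nat_lit 300) (.trX (nat_lit 19) (nat_lit 100) (nat_lit 60) (nat_lit 80) (nat_lit 360) (.spl (nat_lit 6) (nat_lit 40)
(.st (nat_lit 0)
(.gv
(.st (nat_lit 1)
(.ref (nat_lit 0))
(.ref (nat_lit 1)))
(.ref (nat_lit 2)))
(.gv
(.st (nat_lit 1)
(.spl (nat_lit 0) (nat_lit 300)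
(.spl (nat_lit 2) (nat_lit 240)
(.spl (nat_lit 2) (nat_lit 120)
(.ref (nat_lit 3))
(.ref (nat_lit 4)))
(.ref (nat_lit 5)))
(.ref (nat_lit 6)))
(.spl (nat_lit 2) (nat_lit 120)
(.ref (nat_lit 7))
(.spl (nat_lit 2) (nat_lit 240)
(.ref (nat_lit 8))
(.ref (nat_lit 9)))))
(.ref (nat_lit 10))))
(.st (nat_lit 0)
(.gv
(.ref (nat_lit 11))
(.ref (nat_lit 12)))
(.gv
(.ref (nat_lit 13))
(.ref (nat_lit 14)))))))))) (by decide +kernel)
theorem done_V_700_500_10 (h : EB TB.env) : RC.Done ⟨true, 80, 280, 320, 200, 240, 40, 80, [72]⟩ := RC.done1 (r_V_700_500_10 h) (t_V_700_500_10 h)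
theorem t_V_700_500_20 (h : EB TB.env) : RC.Tail ⟨true, 120, 280, 320, 200, 240, 80, 120, [40]⟩ := RC.tail_chk h (b := ⟨nat_lit 60, nat_lit 20, nat_lit 5, nat_lit 5, nat_lit 20, nat_lit 238, nat_lit 30, nat_lit 13, nat_lit 15⟩) (by decide +kernel)
noncomputable def t05_l30 : Lf2 := ⟨nat_lit 0, nat_lit 10, [nat_lit 0, nat_lit 5, nat_lit 5, nat_lit 20], false, nat_lit 160, nat_lit 240, nat_lit 0, nat_lit 384, ⟨nat_lit 0, nat_lit 0, nat_lit 1000, nat_lit 5, nat_lit 114, nat_lit 1000, nat_lit 157, nat_lit 1000, nat_lit 50417, nat_lit 270, nat_lit 123267, nat_lit 301, nat_lit 52278821, nat_lit 0, nat_lit 0, nat_lit 3583672, false, false⟩,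
 nat_lit 0, nat_lit 5407, nat_lit 0, nat_lit 0, nat_lit 3440, nat_lit 0, nat_lit 102, nat_lit 0, nat_lit 0, nat_lit 0, nat_lit 0, nat_lit 0, nat_lit 0, nat_lit 0, nat_lit 87, nat_lit 402400, nat_lit 0, nat_lit 0, [(nat_lit 12, [(nat_lit 5, nat_lit 996), (nat_lit 6, nat_lit 4)]), (nat_lit 15, [(nat_lit 5, nat_lit 996), (nat_lit 6, nat_lit 4)])],
 ⟨t05_k13, nat_lit 0, nat_lit 0, nat_lit 323, nat_lit 0, nat_lit 315660, [nat_lit 2361755200, nat_lit 613858401, nat_lit 190315200], [], [nat_lit 16453029505, nat_lit 17996904767, nat_lit 16396927201, nat_lit 17538398110, nat_lit 18251589505, nat_lit 19954379649, nat_lit 22122086401, nat_lit 19673938400], nat_lit 1271250, nat_lit 1271250, nat_lit 88400, nat_lit 780000, nat_lit 1100001, nat_lit 1785000, [nat_lit 780000, nat_lit 1762500, nat_lit 1271250], [nat_lit 99, nat_lit 40, nat_lit 40, nat_lit 80, nat_lit 17, nat_lit 317, nat_lit 100, nat_lit 9]⟩,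 ⟨t05_k14, nat_lit 0, nat_lit 0, nat_lit 649, nat_lit 0, nat_lit 530082, [nat_lit 0, nat_lit 0], [], [nat_lit 0, nat_lit 0, nat_lit 0, nat_lit 0, nat_lit 0, nat_lit 0, nat_lit 0, nat_lit 0], nat_lit 1271250, nat_lit 1271250, nat_lit 88400, nat_lit 780000, nat_lit 0, nat_lit 2712000, [nat_lit 1412500, nat_lit 1271250], [nat_lit 107, nat_lit 40, nat_lit 40, nat_lit 80, nat_lit 12, nat_lit 428, nat_lit 200, nat_lit 12]⟩,
 ⟨nat_lit 4472, nat_lit 5478, ⟨.ofNat (nat_lit 155307), .ofNat (nat_lit 350132), .ofNat (nat_lit 198021), .ofNat (nat_lit 392815), .ofNat (nat_lit 187299), .ofNat (nat_lit 364042), .ofNat (nat_lit 230432), .ofNat (nat_lit 407143)⟩, ⟨.ofNat (nat_lit 296923), .ofNat (nat_lit 446789), .ofNat (nat_lit 339637), .ofNat (nat_lit 489503), .ofNat (nat_lit 302621), .ofNat (nat_lit 438578), .ofNat (nat_lit 345754), .ofNat (nat_lit 481711)⟩⟩, [⟨nat_lit 0, nat_lit 100, nat_lit 82, nat_lit 76,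 nat_lit 3157170⟩]⟩
theorem r_V_700_500_20 (h : EB TB.env) : Dead (RC.box ⟨true, 120, 280, 320, 200, 240, 80, 120, [40]⟩ 0 40) := chkB_sound h (refs := [b_V_700_500_20_0, b_V_700_500_20_1, b_V_700_500_20_2, b_V_700_500_20_3, b_V_700_500_20_4, b_V_700_500_20_5, b_V_700_500_20_6, b_V_700_500_20_7, b_V_700_500_20_8, b_V_700_500_20_9, b_V_700_500_20_10, b_V_700_500_20_11]) (refs_cons (d_V_700_500_20_0 h) (refs_cons (d_V_700_500_20_1 h) (refs_cons (d_V_700_500_20_2 h) (refs_cons (d_V_700_500_20_3 h) (refs_cons (d_V_700_500_20_4 h) (refs_cons (d_V_700_500_20_5 h) (refs_cons (d_V_700_500_20_6 h) (refs_cons (d_V_700_500_20_7 h) (refs_cons (d_V_700_500_20_8 h) (refs_cons (d_V_700_500_20_9 h) (refs_cons (d_V_700_500_20_10 h) (refs_cons (d_V_700_500_20_11 h) (refs_nil))))))))))))) (T :=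
(.trZ (nat_lit 0) (nat_lit 100) (nat_lit 92) (nat_lit 40) (nat_lit 16) (.trX (nat_lit 13) (nat_lit 94) (nat_lit 21) (nat_lit 100) (nat_lit 396) (.trX (nat_lit 16) (nat_lit 100) (nat_lit 80) (nat_lit 100) (nat_lit 336) (.trX (nat_lit 19) (nat_lit 100) (nat_lit 40) (nat_lit 92) (nat_lit 384) (.st (nat_lit 0)
(.gv
(.st (nat_lit 1)
(.ref (nat_lit 0))
(.spl (nat_lit 4) (nat_lit 160)
(.ref (nat_lit 1))
(.spl (nat_lit 2) (nat_lit 240)
(.ref (nat_lit 2))
(.ref (nat_lit 3)))))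
(.ref (nat_lit 4)))
(.gv
(.st (nat_lit 1)
(.spl (nat_lit 0) (nat_lit 300)
(.ref (nat_lit 5))
(.ref (nat_lit 6)))
(.spl (nat_lit 2) (nat_lit 120)
(.spl (nat_lit 4) (nat_lit 160)
(.ref (nat_lit 7))
(.spl (nat_lit 4) (nat_lit 240)
(.leaf t05_l30)
(.trX (nat_lit 23) (nat_lit 100) (nat_lit 59) (nat_lit 94) (nat_lit 364) (.spl (nat_lit 0) (nat_lit 300)
(.ref (nat_lit 8))
(.ref (nat_lit 9))))))
(.ref (nat_lit 10))))
(.ref (nat_lit 11))))))))) (by decide +kernel)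
theorem done_V_700_500_20 (h : EB TB.env) : RC.Done ⟨true, 120, 280, 320, 200, 240, 80, 120, [40]⟩ := RC.done1 (r_V_700_500_20 h) (t_V_700_500_20 h)
theorem t_V_700_600_10 (h : EB TB.env) : RC.Tail ⟨true, 80, 280, 320, 240, 280, 40, 80, [92]⟩ := RC.tail_chk h (b := ⟨nat_lit 40, nat_lit 46, nat_lit 5, nat_lit 5, nat_lit 20, nat_lit 226, nat_lit 20, nat_lit 17, nat_lit 5⟩) (by decide +kernel)
theorem r_V_700_600_10 (h : EB TB.env) : Dead (RC.box ⟨true, 80, 280, 320, 240, 280, 40, 80, [92]⟩ 0 92) := chkB_sound h (refs := [b_V_700_600_10_0, b_V_700_600_10_1, b_V_700_600_10_2, b_V_700_600_10_3, b_V_700_600_10_4, b_V_700_600_10_5, b_V_700_600_10_6, b_V_700_600_10_7, b_V_700_600_10_8, b_V_700_600_10_9, b_V_700_600_10_10, b_V_700_600_10_11, b_V_700_600_10_12, b_V_700_600_10_13, b_V_700_600_10_14, b_V_700_600_10_15, b_V_700_600_10_16, b_V_700_600_10_17, b_V_700_600_10_18, b_V_700_600_10_19, b_V_700_600_10_20,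 b_V_700_600_10_21, b_V_700_600_10_22, b_V_700_600_10_23, b_V_700_600_10_24, b_V_700_600_10_25, b_V_700_600_10_26, b_V_700_600_10_27, b_V_700_600_10_28, b_V_700_600_10_29, b_V_700_600_10_30, b_V_700_600_10_31, b_V_700_600_10_32, b_V_700_600_10_33, b_V_700_600_10_34, b_V_700_600_10_35, b_V_700_600_10_36, b_V_700_600_10_37, b_V_700_600_10_38, b_V_700_600_10_39, b_V_700_600_10_40, b_V_700_600_10_41, b_V_700_600_10_42, b_V_700_600_10_43, b_V_700_600_10_44, b_V_700_600_10_45, b_V_700_600_10_46, b_V_700_600_10_47, b_V_700_600_10_48, b_V_700_600_10_49, b_V_700_600_10_50]) (refs_cons (d_V_700_600_10_0 h) (refs_cons (d_V_700_600_10_1 h) (refs_cons (d_V_700_600_10_2 h) (refs_cons (d_V_700_600_10_3 h) (refs_cons (d_V_700_600_10_4 h) (refs_cons (d_V_700_600_10_5 h) (refs_cons (d_V_700_600_10_6 h) (refs_cons (d_V_700_600_10_7 h) (refs_cons (d_V_700_600_10_8 h) (refs_cons (d_V_700_600_10_9 h) (refs_cons (d_V_700_600_10_10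 h) (refs_cons (d_V_700_600_10_11 h) (refs_cons (d_V_700_600_10_12 h) (refs_cons (d_V_700_600_10_13 h) (refs_cons (d_V_700_600_10_14 h) (refs_cons (d_V_700_600_10_15 h) (refs_cons (d_V_700_600_10_16 h) (refs_cons (d_V_700_600_10_17 h) (refs_cons (d_V_700_600_10_18 h) (refs_cons (d_V_700_600_10_19 h) (refs_cons (d_V_700_600_10_20 h) (refs_cons (d_V_700_600_10_21 h) (refs_cons (d_V_700_600_10_22 h) (refs_cons (d_V_700_600_10_23 h) (refs_cons (d_V_700_600_10_24 h) (refs_cons (d_V_700_600_10_25 h) (refs_cons (d_V_700_600_10_26 h) (refs_cons (d_V_700_600_10_27 h) (refs_cons (d_V_700_600_10_28 h) (refs_cons (d_V_700_600_10_29 h) (refs_cons (d_V_700_600_10_30 h) (refs_cons (d_V_700_600_10_31 h) (refs_cons (d_V_700_600_10_32 h) (refs_cons (d_V_700_600_10_33 h) (refs_cons (d_V_700_600_10_34 h) (refs_cons (d_V_700_600_10_35 h) (refs_cons (d_V_700_600_10_36 h) (refs_cons (d_V_700_600_10_37 h) (refs_cons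 (d_V_700_600_10_38 h) (refs_cons (d_V_700_600_10_39 h) (refs_cons (d_V_700_600_10_40 h) (refs_cons (d_V_700_600_10_41 h) (refs_cons (d_V_700_600_10_42 h) (refs_cons (d_V_700_600_10_43 h) (refs_cons (d_V_700_600_10_44 h) (refs_cons (d_V_700_600_10_45 h) (refs_cons (d_V_700_600_10_46 h) (refs_cons (d_V_700_600_10_47 h) (refs_cons (d_V_700_600_10_48 h) (refs_cons (d_V_700_600_10_49 h) (refs_cons (d_V_700_600_10_50 h) (refs_nil)))))))))))))))))))))))))))))))))))))))))))))))))))) (T :=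
(.trZ (nat_lit 0) (nat_lit 100) (nat_lit 94) (nat_lit 59) (nat_lit 36) (.trX (nat_lit 16) (nat_lit 100) (nat_lit 95) (nat_lit 87) (nat_lit 300) (.trX (nat_lit 19) (nat_lit 100) (nat_lit 76) (nat_lit 82) (nat_lit 336) (.spl (nat_lit 6) (nat_lit 40)
(.st (nat_lit 0)
(.gv
(.st (nat_lit 1)
(.ref (nat_lit 0))
(.spl (nat_lit 2) (nat_lit 240)
(.ref (nat_lit 1))
(.spl (nat_lit 4) (nat_lit 160)
(.ref (nat_lit 2))
(.ref (nat_lit 3)))))
(.ref (nat_lit 4)))
(.gv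
(.st (nat_lit 1)
(.spl (nat_lit 2) (nat_lit 240)
(.spl (nat_lit 4) (nat_lit 160)
(.spl (nat_lit 2) (nat_lit 160)
(.spl (nat_lit 2) (nat_lit 80)
(.ref (nat_lit 5))
(.ref (nat_lit 6)))
(.ref (nat_lit 7)))
(.spl (nat_lit 0) (nat_lit 300)
(.spl (nat_lit 2) (nat_lit 120)
(.spl (nat_lit 4) (nat_lit 240)
(.ref (nat_lit 8))
(.ref (nat_lit 9)))
(.ref (nat_lit 10)))
(.ref (nat_lit 11))))
(.ref (nat_lit 12)))
(.spl (nat_lit 2) (nat_lit 240)
(.spl (nat_lit 4) (nat_lit 160)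
(.spl (nat_lit 2) (nat_lit 160)
(.spl (nat_lit 2) (nat_lit 80)
(.ref (nat_lit 13))
(.ref (nat_lit 14)))
(.ref (nat_lit 15)))
(.spl (nat_lit 4) (nat_lit 240)
(.spl (nat_lit 2) (nat_lit 160)
(.spl (nat_lit 4) (nat_lit 200)
(.ref (nat_lit 16))
(.ref (nat_lit 17)))
(.ref (nat_lit 18)))
(.spl (nat_lit 2) (nat_lit 120)
(.spl (nat_lit 1) (nat_lit 260)
(.spl (nat_lit 0) (nat_lit 300)
(.spl (nat_lit 3) (nat_lit 60)
(.ref (nat_lit 19))
(.spl (nat_lit 2) (nat_lit 80)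
(.spl (nat_lit 1) (nat_lit 250)
(.ref (nat_lit 20))
(.ref (nat_lit 21)))
(.ref (nat_lit 22))))
(.ref (nat_lit 23)))
(.trZ (nat_lit 0) (nat_lit 100) (nat_lit 96) (nat_lit 69) (nat_lit 48) (.trX (nat_lit 19) (nat_lit 100) (nat_lit 85) (nat_lit 84) (nat_lit 320) (.spl (nat_lit 5) (nat_lit 160)
(.ref (nat_lit 24))
(.spl (nat_lit 5) (nat_lit 240)
(.ref (nat_lit 25))
(.ref (nat_lit 26)))))))
(.ref (nat_lit 27)))))
(.ref (nat_lit 28))))
(.st (nat_lit 1)
(.spl (nat_lit 2) (nat_lit 120)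
(.spl (nat_lit 4) (nat_lit 160)
(.ref (nat_lit 29))
(.ref (nat_lit 30)))
(.ref (nat_lit 31)))
(.ref (nat_lit 32)))))
(.spl (nat_lit 6) (nat_lit 80)
(.st (nat_lit 0)
(.gv
(.st (nat_lit 1)
(.ref (nat_lit 33))
(.spl (nat_lit 2) (nat_lit 240)
(.ref (nat_lit 34))
(.ref (nat_lit 35))))
(.ref (nat_lit 36)))
(.gv
(.st (nat_lit 1)
(.spl (nat_lit 2) (nat_lit 240)
(.spl (nat_lit 4) (nat_lit 160)
(.ref (nat_lit 37))
(.spl (nat_lit 4) (nat_lit 240)
(.ref (nat_lit 38))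
(.spl (nat_lit 0) (nat_lit 300)
(.ref (nat_lit 39))
(.ref (nat_lit 40)))))
(.ref (nat_lit 41)))
(.spl (nat_lit 2) (nat_lit 240)
(.spl (nat_lit 4) (nat_lit 160)
(.ref (nat_lit 42))
(.spl (nat_lit 2) (nat_lit 160)
(.spl (nat_lit 4) (nat_lit 240)
(.ref (nat_lit 43))
(.spl (nat_lit 3) (nat_lit 60)
(.ref (nat_lit 44))
(.ref (nat_lit 45))))
(.ref (nat_lit 46))))
(.ref (nat_lit 47))))
(.ref (nat_lit 48))))
(.st (nat_lit 0)
(.ref (nat_lit 49))
(.ref (nat_lit 50))))))))) (by decide +kernel)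
theorem done_V_700_600_10 (h : EB TB.env) : RC.Done ⟨true, 80, 280, 320, 240, 280, 40, 80, [92]⟩ := RC.done1 (r_V_700_600_10 h) (t_V_700_600_10 h)
theorem t_V_700_600_20 (h : EB TB.env) : RC.Tail ⟨true, 120, 280, 320, 240, 280, 80, 120, [60]⟩ := RC.tail_chk h (b := ⟨nat_lit 60, nat_lit 30, nat_lit 5, nat_lit 5, nat_lit 20, nat_lit 238, nat_lit 30, nat_lit 12, nat_lit 15⟩) (by decide +kernel)
noncomputable def t05_l31 : Lf2 := ⟨nat_lit 0, nat_lit 10, [nat_lit 0, nat_lit 5, nat_lit 5, nat_lit 20], true, nat_lit 160, nat_lit 240, nat_lit 0, nat_lit 364, ⟨nat_lit 0, nat_lit 0, nat_lit 1000, nat_lit 6, nat_lit 139, nat_lit 1000, nat_lit 157, nat_lit 1000, nat_lit 50417, nat_lit 270, nat_lit 180267, nat_lit 319, nat_lit 50454639, nat_lit 0, nat_lit 0, nat_lit 3899302, false, false⟩,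
 nat_lit 0, nat_lit 0, nat_lit 0, nat_lit 4039, nat_lit 3687, nat_lit 0, nat_lit 0, nat_lit 0, nat_lit 0, nat_lit 0, nat_lit 0, nat_lit 0, nat_lit 0, nat_lit 0, nat_lit 86, nat_lit 400000, nat_lit 0, nat_lit 0, [(nat_lit 12, [(nat_lit 5, nat_lit 1000)]), (nat_lit 15, [(nat_lit 5, nat_lit 1000)])],
 ⟨t05_k15, nat_lit 0, nat_lit 0, nat_lit 49, nat_lit 0, nat_lit 0, [nat_lit 2347200000, nat_lit 174400000], [], [nat_lit 12370576281, nat_lit 16085706007, nat_lit 12377822304, nat_lit 15543711436, nat_lit 16166344317, nat_lit 19324972145, nat_lit 15736193408, nat_lit 18644725960], nat_lit 0, nat_lit 0, nat_lit 0, nat_lit 0, nat_lit 0, nat_lit 0, [], [nat_lit 82, nat_lit 40, nat_lit 40, nat_lit 80, nat_lit 63, nat_lit 317, nat_lit 100, nat_lit 9]⟩, C1.Rw.none,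
 ⟨nat_lit 4472, nat_lit 5478, ⟨.ofNat (nat_lit 235487), .ofNat (nat_lit 392815), .ofNat (nat_lit 278138), .ofNat (nat_lit 435455), .ofNat (nat_lit 264421), .ofNat (nat_lit 407143), .ofNat (nat_lit 307491), .ofNat (nat_lit 450202)⟩, ⟨.ofNat (nat_lit 296923), .ofNat (nat_lit 446789), .ofNat (nat_lit 339637), .ofNat (nat_lit 489503), .ofNat (nat_lit 302621), .ofNat (nat_lit 438578), .ofNat (nat_lit 345754), .ofNat (nat_lit 481711)⟩⟩, [⟨nat_lit 0, nat_lit 100, nat_lit 91, nat_lit 77, nat_lit 153533503⟩]⟩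
noncomputable def t05_l32 : Lf2 := ⟨nat_lit 0, nat_lit 10, [nat_lit 0, nat_lit 5, nat_lit 5, nat_lit 20], true, nat_lit 280, nat_lit 336, nat_lit 0, nat_lit 300, ⟨nat_lit 0, nat_lit 1000, nat_lit 0, nat_lit 6, nat_lit 124, nat_lit 1000, nat_lit 234, nat_lit 0, nat_lit 0, nat_lit 0, nat_lit 0, nat_lit 0, nat_lit 44672897, nat_lit 6017460, nat_lit 16309643, nat_lit 4432855, false, false⟩,
 nat_lit 0, nat_lit 0, nat_lit 0, nat_lit 2908, nat_lit 0, nat_lit 0, nat_lit 0, nat_lit 0, nat_lit 380, nat_lit 0, nat_lit 0, nat_lit 0, nat_lit 0, nat_lit 0, nat_lit 0, nat_lit 250000, nat_lit 0, nat_lit 0, [(nat_lit 12, [(nat_lit 0, nat_lit 1000)]), (nat_lit 15, [(nat_lit 0, nat_lit 1000)])],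
 ⟨t05_k15, nat_lit 0, nat_lit 0, nat_lit 0, nat_lit 0, nat_lit 0, [nat_lit 2378800001, nat_lit 3513428572], [], [nat_lit 15888786800, nat_lit 17369970800, nat_lit 16690126001, nat_lit 18132658000, nat_lit 17956284640, nat_lit 19325640640, nat_lit 18705606401, nat_lit 20045408000], nat_lit 0, nat_lit 0, nat_lit 0, nat_lit 0, nat_lit 0, nat_lit 0, [], [nat_lit 82, nat_lit 40, nat_lit 40, nat_lit 80]⟩, C1.Rw.none,
 ⟨nat_lit 4472, nat_lit 5478, ⟨.ofNat (nat_lit 235487), .ofNat (nat_lit 317898), .ofNat (nat_lit 278138), .ofNat (nat_lit 360546), .ofNat (nat_lit 264421), .ofNat (nat_lit 339182), .ofNat (nat_lit 307491), .ofNat (nat_lit 382248)⟩, ⟨.ofNat (nat_lit 521722), .ofNat (nat_lit 626629), .ofNat (nat_lit 564436), .ofNat (nat_lit 669343), .ofNat (nat_lit 506556), .ofNat (nat_lit 601725), .ofNat (nat_lit 549689), .ofNat (nat_lit 644858)⟩⟩, [⟨nat_lit 0, nat_lit 100, nat_lit 91, nat_lit 77, nat_lit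 13040665⟩]⟩
noncomputable def t05_l33 : Lf2 := ⟨nat_lit 0, nat_lit 5, [nat_lit 4, nat_lit 5, nat_lit 5, nat_lit 20], false, nat_lit 280, nat_lit 336, nat_lit 0, nat_lit 300, ⟨nat_lit 0, nat_lit 1000, nat_lit 0, nat_lit 6, nat_lit 117, nat_lit 1000, nat_lit 236, nat_lit 0, nat_lit 0, nat_lit 0, nat_lit 0, nat_lit 0, nat_lit 44886740, nat_lit 5532883, nat_lit 16580377, nat_lit 4367751, false, false⟩,
 nat_lit 0, nat_lit 0, nat_lit 10910, nat_lit 0, nat_lit 12658, nat_lit 5775, nat_lit 358, nat_lit 76, nat_lit 0, nat_lit 321, nat_lit 483, nat_lit 0, nat_lit 0, nat_lit 0, nat_lit 0, nat_lit 1000000, nat_lit 0, nat_lit 0, [(nat_lit 12, [(nat_lit 2, nat_lit 1000)])],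
 ⟨t05_k16, nat_lit 0, nat_lit 0, nat_lit 0, nat_lit 0, nat_lit 0, [nat_lit 1944000001, nat_lit 2897600000, nat_lit 3551200001, nat_lit 3156000000, nat_lit 2831200000], [], [nat_lit 17496529588, nat_lit 19950699649, nat_lit 14031954180, nat_lit 16210320097, nat_lit 25530534595, nat_lit 27807937760, nat_lit 21545352227, nat_lit 23730754960], nat_lit 0, nat_lit 0, nat_lit 0, nat_lit 0, nat_lit 0, nat_lit 0, [], [nat_lit 241, nat_lit 10, nat_lit 4, nat_lit 20]⟩, ⟨t05_k17, nat_lit 0, nat_lit 0, nat_lit 370, nat_lit 0, nat_lit 304090, [nat_lit 7728000000, nat_lit 9660000000, nat_lit 13524000000], [], [nat_lit 26487944491, nat_lit 23849868525, nat_lit 21941386950, nat_lit 22266300000, nat_lit 25035465053, nat_lit 22399544843, nat_lit 25805624250, nat_lit 23207203425], nat_lit 1271250, nat_lit 1271250, nat_lit 205650, nat_lit 490000, nat_lit 0, nat_lit 2118750, [nat_lit 1100000, nat_lit 1442500, nat_lit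 1271250], [nat_lit 11, nat_lit 40, nat_lit 40, nat_lit 80, nat_lit 1, nat_lit 401, nat_lit 175, nat_lit 12]⟩,
 ⟨nat_lit 5000, nat_lit 5478, ⟨.ofNat (nat_lit 235487), .ofNat (nat_lit 317913), .ofNat (nat_lit 256844), .ofNat (nat_lit 339271), .ofNat (nat_lit 249999), .ofNat (nat_lit 328570), .ofNat (nat_lit 271427), .ofNat (nat_lit 349999)⟩, ⟨.ofNat (nat_lit 521722), .ofNat (nat_lit 626629), .ofNat (nat_lit 564436), .ofNat (nat_lit 669336), .ofNat (nat_lit 514284), .ofNat (nat_lit 614284), .ofNat (nat_lit 557141), .ofNat (nat_lit 657134)⟩⟩, [⟨nat_lit 0, nat_lit 100, nat_lit 91, nat_lit 77, nat_lit 168552782⟩, ⟨nat_lit 4, nat_lit 94, nat_lit 100, nat_lit 97, nat_lit 422370084⟩, ⟨nat_lit 23, nat_lit 86, nat_lit 100, nat_lit 72, nat_lit 351003082⟩]⟩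
noncomputable def t05_l34 : Lf2 := ⟨nat_lit 0, nat_lit 10, [nat_lit 0, nat_lit 5, nat_lit 5, nat_lit 20], true, nat_lit 280, nat_lit 336, nat_lit 0, nat_lit 300, ⟨nat_lit 0, nat_lit 0, nat_lit 1000, nat_lit 6, nat_lit 124, nat_lit 1000, nat_lit 234, nat_lit 1000, nat_lit 67436, nat_lit 200, nat_lit 144150, nat_lit 308, nat_lit 44672897, nat_lit 0, nat_lit 0, nat_lit 4432855, false, false⟩,
 nat_lit 0, nat_lit 0, nat_lit 0, nat_lit 94289, nat_lit 100000, nat_lit 0, nat_lit 11373, nat_lit 7609, nat_lit 0, nat_lit 0, nat_lit 0, nat_lit 0, nat_lit 0, nat_lit 0, nat_lit 0, nat_lit 1000000, nat_lit 0, nat_lit 0, [(nat_lit 12, [(nat_lit 6, nat_lit 1000)]), (nat_lit 15, [(nat_lit 6, nat_lit 1000)])],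
 ⟨t05_k18, nat_lit 0, nat_lit 0, nat_lit 164, nat_lit 0, nat_lit 0, [nat_lit 92449200000, nat_lit 151052400001, nat_lit 207797200000], [], [nat_lit 144422666825, nat_lit 165587154425, nat_lit 110068916625, nat_lit 128893618625, nat_lit 173943572562, nat_lit 195714566722, nat_lit 137703883201, nat_lit 158411942402], nat_lit 0, nat_lit 0, nat_lit 0, nat_lit 0, nat_lit 0, nat_lit 0, [], [nat_lit 8, nat_lit 40, nat_lit 40, nat_lit 80, nat_lit 1, nat_lit 226, nat_lit 20, nat_lit 6]⟩, C1.Rw.none,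
 ⟨nat_lit 4472, nat_lit 5478, ⟨.ofNat (nat_lit 235487), .ofNat (nat_lit 317898), .ofNat (nat_lit 278138), .ofNat (nat_lit 360546), .ofNat (nat_lit 264421), .ofNat (nat_lit 339182), .ofNat (nat_lit 307491), .ofNat (nat_lit 382248)⟩, ⟨.ofNat (nat_lit 521722), .ofNat (nat_lit 626629), .ofNat (nat_lit 564436), .ofNat (nat_lit 669343), .ofNat (nat_lit 506556), .ofNat (nat_lit 601725), .ofNat (nat_lit 549689), .ofNat (nat_lit 644858)⟩⟩, [⟨nat_lit 0, nat_lit 100, nat_lit 91, nat_lit 77, nat_lit 4648450276⟩, ⟨nat_lit 16, nat_lit 100, nat_lit 80, nat_lit 100, nat_lit 6288432064⟩]⟩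
noncomputable def t05_l35 : Lf2 := ⟨nat_lit 1, nat_lit 7, [nat_lit 80, nat_lit 5, nat_lit 5, nat_lit 20], false, nat_lit 280, nat_lit 336, nat_lit 0, nat_lit 336, zbN0,
 nat_lit 0, nat_lit 0, nat_lit 0, nat_lit 0, nat_lit 0, nat_lit 0, nat_lit 0, nat_lit 0, nat_lit 0, nat_lit 0, nat_lit 0, nat_lit 0, nat_lit 0, nat_lit 0, nat_lit 0, nat_lit 0, nat_lit 0, nat_lit 0, [],
 C1.Rw.none, C1.Rw.none,
 zbF0, []⟩
noncomputable def t05_l36 : Lf2 := ⟨nat_lit 1, nat_lit 10, [nat_lit 0, nat_lit 5, nat_lit 5, nat_lit 20], false, nat_lit 280, nat_lit 336, nat_lit 0, nat_lit 336, zbN0,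
 nat_lit 0, nat_lit 0, nat_lit 0, nat_lit 0, nat_lit 0, nat_lit 0, nat_lit 0, nat_lit 0, nat_lit 0, nat_lit 0, nat_lit 0, nat_lit 0, nat_lit 0, nat_lit 0, nat_lit 0, nat_lit 0, nat_lit 0, nat_lit 0, [],
 C1.Rw.none, C1.Rw.none,
 zbF0, []⟩
noncomputable def t05_l37 : Lf2 := ⟨nat_lit 0, nat_lit 5, [nat_lit 4, nat_lit 5, nat_lit 5, nat_lit 20], false, nat_lit 280, nat_lit 320, nat_lit 0, nat_lit 336, ⟨nat_lit 0, nat_lit 0, nat_lit 1000, nat_lit 6, nat_lit 141, nat_lit 1000, nat_lit 227, nat_lit 1000, nat_lit 4748, nat_lit 203, nat_lit 183750, nat_lit 320, nat_lit 44343565, nat_lit 0, nat_lit 0, nat_lit 4562217, false, false⟩,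
 nat_lit 44444, nat_lit 100000, nat_lit 0, nat_lit 0, nat_lit 99999, nat_lit 0, nat_lit 25481, nat_lit 7628, nat_lit 0, nat_lit 0, nat_lit 0, nat_lit 0, nat_lit 0, nat_lit 0, nat_lit 0, nat_lit 1000000, nat_lit 0, nat_lit 0, [(nat_lit 15, [(nat_lit 6, nat_lit 1000)])],
 ⟨t05_k19, nat_lit 0, nat_lit 0, nat_lit 210, nat_lit 0, nat_lit 330820, [nat_lit 92516000001, nat_lit 150264799999], [], [nat_lit 99473847231, nat_lit 109743956746, nat_lit 65155138986, nat_lit 75181287455, nat_lit 118105751137, nat_lit 128714207349, nat_lit 82474773907, nat_lit 91855867627], nat_lit 1271250, nat_lit 1271250, nat_lit 279600, nat_lit 780000, nat_lit 1271250, nat_lit 1271250, [nat_lit 780000, nat_lit 1435000], [nat_lit 49, nat_lit 40, nat_lit 40, nat_lit 80, nat_lit 16, nat_lit 238, nat_lit 30, nat_lit 8]⟩, ⟨t05_k20, nat_lit 0, nat_lit 0, nat_lit 474, nat_lit 0, nat_lit 463364, [nat_lit 0, nat_lit 0, nat_lit 0],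 [], [nat_lit 0, nat_lit 0, nat_lit 0, nat_lit 0, nat_lit 0, nat_lit 0, nat_lit 0, nat_lit 0], nat_lit 1271250, nat_lit 1271250, nat_lit 279600, nat_lit 780000, nat_lit 0, nat_lit 2373000, [nat_lit 1100000, nat_lit 1785000, nat_lit 1271250], [nat_lit 29, nat_lit 40, nat_lit 40, nat_lit 80, nat_lit 17, nat_lit 428, nat_lit 200, nat_lit 13]⟩,
 ⟨nat_lit 4472, nat_lit 5000, ⟨.ofNat (nat_lit 271418), .ofNat (nat_lit 399984), .ofNat (nat_lit 292837), .ofNat (nat_lit 421400), .ofNat (nat_lit 284805), .ofNat (nat_lit 407160), .ofNat (nat_lit 306362), .ofNat (nat_lit 428715)⟩, ⟨.ofNat (nat_lit 514284), .ofNat (nat_lit 585713), .ofNat (nat_lit 557141), .ofNat (nat_lit 628570), .ofNat (nat_lit 506556), .ofNat (nat_lit 574534), .ofNat (nat_lit 549689), .ofNat (nat_lit 617667)⟩⟩, [⟨nat_lit 0, nat_lit 100, nat_lit 84, nat_lit 85, nat_lit 2964004774⟩, ⟨nat_lit 4, nat_lit 100, nat_lit 93, nat_lit 97, nat_lit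 6896239637⟩]⟩
noncomputable def t05_l38 : Lf2 := ⟨nat_lit 0, nat_lit 10, [nat_lit 0, nat_lit 5, nat_lit 5, nat_lit 20], false, nat_lit 240, nat_lit 320, nat_lit 0, nat_lit 160, ⟨nat_lit 1000, nat_lit 0, nat_lit 0, nat_lit 0, nat_lit 0, nat_lit 0, nat_lit 0, nat_lit 0, nat_lit 0, nat_lit 0, nat_lit 0, nat_lit 0, nat_lit 0, nat_lit 0, nat_lit 0, nat_lit 0, false, false⟩,
 nat_lit 19613, nat_lit 0, nat_lit 0, nat_lit 0, nat_lit 9001, nat_lit 11416, nat_lit 320, nat_lit 0, nat_lit 0, nat_lit 1568, nat_lit 0, nat_lit 0, nat_lit 0, nat_lit 0, nat_lit 0, nat_lit 0, nat_lit 0, nat_lit 0, [],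
 ⟨t05_k21, nat_lit 0, nat_lit 0, nat_lit 0, nat_lit 0, nat_lit 230487, [nat_lit 3282000000, nat_lit 4688000000, nat_lit 7968000000], [], [nat_lit 22505489664, nat_lit 24350244870, nat_lit 20880428858, nat_lit 22595016476, nat_lit 28174379616, nat_lit 29620970920, nat_lit 26153567630, nat_lit 27492071036], nat_lit 1271250, nat_lit 1271250, nat_lit 382400, nat_lit 780000, nat_lit 1271250, nat_lit 1271250, [nat_lit 780000, nat_lit 1100000, nat_lit 1785000], [nat_lit 36, nat_lit 40, nat_lit 40, nat_lit 80]⟩, ⟨t05_k6, nat_lit 0, nat_lit 0, nat_lit 349, nat_lit 0, nat_lit 287101, [nat_lit 4688000000, nat_lit 6250000000, nat_lit 9842000000], [], [nat_lit 26361458711, nat_lit 25628175597, nat_lit 20639554976, nat_lit 22869972000, nat_lit 21672946826, nat_lit 16264059725, nat_lit 26399714736, nat_lit 21092393504], nat_lit 1271250, nat_lit 1271250, nat_lit 382400, nat_lit 780000, nat_lit 0, nat_lit 1100001,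 [nat_lit 1100000, nat_lit 1442500, nat_lit 1271250], [nat_lit 11, nat_lit 40, nat_lit 40, nat_lit 80, nat_lit 1, nat_lit 373, nat_lit 150, nat_lit 11]⟩,
 zbF0, [⟨nat_lit 0, nat_lit 100, nat_lit 89, nat_lit 86, nat_lit 418301602⟩, ⟨nat_lit 4, nat_lit 100, nat_lit 93, nat_lit 97, nat_lit 635836255⟩]⟩
noncomputable def t05_l39 : Lf2 := ⟨nat_lit 0, nat_lit 10, [nat_lit 0, nat_lit 5, nat_lit 5, nat_lit 20], false, nat_lit 240, nat_lit 320, nat_lit 160, nat_lit 240, ⟨nat_lit 1000, nat_lit 0, nat_lit 0, nat_lit 0, nat_lit 0, nat_lit 0, nat_lit 0, nat_lit 0, nat_lit 0, nat_lit 0, nat_lit 0, nat_lit 0, nat_lit 0, nat_lit 0, nat_lit 0, nat_lit 0, false, false⟩,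
 nat_lit 21324, nat_lit 0, nat_lit 0, nat_lit 0, nat_lit 6268, nat_lit 12412, nat_lit 1026, nat_lit 0, nat_lit 0, nat_lit 1509, nat_lit 0, nat_lit 0, nat_lit 0, nat_lit 0, nat_lit 0, nat_lit 0, nat_lit 0, nat_lit 0, [],
 ⟨t05_k22, nat_lit 0, nat_lit 0, nat_lit 0, nat_lit 0, nat_lit 230487, [nat_lit 3282000000, nat_lit 6250000000, nat_lit 7968000000], [], [nat_lit 20281972395, nat_lit 21761582403, nat_lit 19486665694, nat_lit 20868871318, nat_lit 25169022218, nat_lit 26458593914, nat_lit 24153123750, nat_lit 25361144982], nat_lit 1271250, nat_lit 1271250, nat_lit 382400, nat_lit 780000, nat_lit 1271250, nat_lit 1271250, [nat_lit 780000, nat_lit 1435000, nat_lit 1271250], [nat_lit 18, nat_lit 40, nat_lit 40, nat_lit 80]⟩, ⟨t05_k5, nat_lit 0, nat_lit 0, nat_lit 212, nat_lit 0, nat_lit 287101, [nat_lit 4688000000, nat_lit 7968000000, nat_lit 9842000000], [], [nat_lit 21001441973, nat_lit 14595037821,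 nat_lit 9647065108, nat_lit 11596950668, nat_lit 17268903064, nat_lit 17423910486, nat_lit 21814873328, nat_lit 15885809872], nat_lit 1271250, nat_lit 1271250, nat_lit 382400, nat_lit 780000, nat_lit 1100001, nat_lit 1785000, [nat_lit 1100000, nat_lit 1785000, nat_lit 1271250], [nat_lit 29, nat_lit 40, nat_lit 40, nat_lit 80, nat_lit 17, nat_lit 401, nat_lit 175, nat_lit 11]⟩,
 zbF0, [⟨nat_lit 0, nat_lit 100, nat_lit 89, nat_lit 86, nat_lit 462551326⟩, ⟨nat_lit 4, nat_lit 100, nat_lit 93, nat_lit 97, nat_lit 595937483⟩]⟩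
noncomputable def t05_l40 : Lf2 := ⟨nat_lit 0, nat_lit 10, [nat_lit 0, nat_lit 5, nat_lit 5, nat_lit 20], false, nat_lit 240, nat_lit 320, nat_lit 0, nat_lit 352, ⟨nat_lit 152, nat_lit 0, nat_lit 848, nat_lit 6, nat_lit 155, nat_lit 848, nat_lit 213, nat_lit 848, nat_lit 4748, nat_lit 203, nat_lit 224267, nat_lit 331, nat_lit 44606312, nat_lit 0, nat_lit 0, nat_lit 4609312, false, false⟩,
 nat_lit 44444, nat_lit 100000, nat_lit 0, nat_lit 0, nat_lit 99999, nat_lit 1546, nat_lit 27320, nat_lit 7486, nat_lit 0, nat_lit 1821, nat_lit 0, nat_lit 0, nat_lit 0, nat_lit 0, nat_lit 0, nat_lit 848000, nat_lit 0, nat_lit 0, [(nat_lit 15, [(nat_lit 6, nat_lit 848)])],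
 ⟨t05_k22, nat_lit 0, nat_lit 0, nat_lit 274, nat_lit 0, nat_lit 422750, [nat_lit 91161904001, nat_lit 148723670401, nat_lit 176419065600], [], [nat_lit 65788884802, nat_lit 77442990104, nat_lit 42751873519, nat_lit 54444419283, nat_lit 104128394666, nat_lit 114493752728, nat_lit 78412485907, nat_lit 87793579627], nat_lit 1271250, nat_lit 1271250, nat_lit 382400, nat_lit 780000, nat_lit 1271250, nat_lit 1271250, [nat_lit 780000, nat_lit 1435000, nat_lit 1271250], [nat_lit 18, nat_lit 40, nat_lit 40, nat_lit 80, nat_lit 2, nat_lit 238, nat_lit 30, nat_lit 7]⟩, ⟨t05_k5, nat_lit 0, nat_lit 0, nat_lit 491, nat_lit 0, nat_lit 526588, [nat_lit 712576000, nat_lit 1211136000, nat_lit 1495984000], [], [nat_lit 4156505555, nat_lit 3336657791, nat_lit 2240366136, nat_lit 2761912928, nat_lit 4509561002, nat_lit 4751456906, nat_lit 4996336239, nat_lit 4303383172], nat_lit 1271250, nat_lit 1271250, nat_lit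 382400, nat_lit 780000, nat_lit 0, nat_lit 2486000, [nat_lit 1100000, nat_lit 1785000, nat_lit 1271250], [nat_lit 29, nat_lit 40, nat_lit 40, nat_lit 80, nat_lit 17, nat_lit 428, nat_lit 200, nat_lit 13]⟩,
 ⟨nat_lit 4472, nat_lit 5000, ⟨.ofNat (nat_lit 321407), .ofNat (nat_lit 421400), .ofNat (nat_lit 342823), .ofNat (nat_lit 442816), .ofNat (nat_lit 333552), .ofNat (nat_lit 428715), .ofNat (nat_lit 355106), .ofNat (nat_lit 450269)⟩, ⟨.ofNat (nat_lit 442856), .ofNat (nat_lit 585713), .ofNat (nat_lit 485713), .ofNat (nat_lit 628570), .ofNat (nat_lit 438578), .ofNat (nat_lit 574534), .ofNat (nat_lit 481711), .ofNat (nat_lit 617667)⟩⟩, [⟨nat_lit 0, nat_lit 100, nat_lit 87, nat_lit 95, nat_lit 2600209228⟩, ⟨nat_lit 16, nat_lit 93, nat_lit 100, nat_lit 97, nat_lit 6786773887⟩, ⟨nat_lit 7, nat_lit 82, nat_lit 100, nat_lit 92, nat_lit 53813967⟩]⟩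
theorem r_V_700_600_20 (h : EB TB.env) : Dead (RC.box ⟨true, 120, 280, 320, 240, 280, 80, 120, [60]⟩ 0 60) := chkB_sound h (refs := [b_V_700_600_20_0, b_V_700_600_20_1, b_V_700_600_20_2, b_V_700_600_20_3, b_V_700_600_20_4, b_V_700_600_20_5, b_V_700_600_20_6, b_V_700_600_20_7, b_V_700_600_20_8, b_V_700_600_20_9, b_V_700_600_20_10, b_V_700_600_20_11, b_V_700_600_20_12, b_V_700_600_20_13, b_V_700_600_20_14, b_V_700_600_20_15, b_V_700_600_20_16, b_V_700_600_20_17, b_V_700_600_20_18, b_V_700_600_20_19, b_V_700_600_20_20, b_V_700_600_20_21, b_V_700_600_20_22, b_V_700_600_20_23, b_V_700_600_20_24, b_V_700_600_20_25, b_V_700_600_20_26, b_V_700_600_20_27, b_V_700_600_20_28, b_V_700_600_20_29, b_V_700_600_20_30, b_V_700_600_20_31, b_V_700_600_20_32, b_V_700_600_20_33, b_V_700_600_20_34, b_V_700_600_20_35, b_V_700_600_20_36, b_V_700_600_20_37, b_V_700_600_20_38, b_V_700_600_20_39, b_V_700_600_20_40, b_V_700_600_20_41,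 b_V_700_600_20_42, b_V_700_600_20_43, b_V_700_600_20_44, b_V_700_600_20_45, b_V_700_600_20_46, b_V_700_600_20_47, b_V_700_600_20_48, b_V_700_600_20_49, b_V_700_600_20_50, b_V_700_600_20_51, b_V_700_600_20_52, b_V_700_600_20_53, b_V_700_600_20_54, b_V_700_600_20_55]) (refs_cons (d_V_700_600_20_0 h) (refs_cons (d_V_700_600_20_1 h) (refs_cons (d_V_700_600_20_2 h) (refs_cons (d_V_700_600_20_3 h) (refs_cons (d_V_700_600_20_4 h) (refs_cons (d_V_700_600_20_5 h) (refs_cons (d_V_700_600_20_6 h) (refs_cons (d_V_700_600_20_7 h) (refs_cons (d_V_700_600_20_8 h) (refs_cons (d_V_700_600_20_9 h) (refs_cons (d_V_700_600_20_10 h) (refs_cons (d_V_700_600_20_11 h) (refs_cons (d_V_700_600_20_12 h) (refs_cons (d_V_700_600_20_13 h) (refs_cons (d_V_700_600_20_14 h) (refs_cons (d_V_700_600_20_15 h) (refs_cons (d_V_700_600_20_16 h) (refs_cons (d_V_700_600_20_17 h) (refs_cons (d_V_700_600_20_18 h) (refs_cons (d_V_700_600_20_19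 h) (refs_cons (d_V_700_600_20_20 h) (refs_cons (d_V_700_600_20_21 h) (refs_cons (d_V_700_600_20_22 h) (refs_cons (d_V_700_600_20_23 h) (refs_cons (d_V_700_600_20_24 h) (refs_cons (d_V_700_600_20_25 h) (refs_cons (d_V_700_600_20_26 h) (refs_cons (d_V_700_600_20_27 h) (refs_cons (d_V_700_600_20_28 h) (refs_cons (d_V_700_600_20_29 h) (refs_cons (d_V_700_600_20_30 h) (refs_cons (d_V_700_600_20_31 h) (refs_cons (d_V_700_600_20_32 h) (refs_cons (d_V_700_600_20_33 h) (refs_cons (d_V_700_600_20_34 h) (refs_cons (d_V_700_600_20_35 h) (refs_cons (d_V_700_600_20_36 h) (refs_cons (d_V_700_600_20_37 h) (refs_cons (d_V_700_600_20_38 h) (refs_cons (d_V_700_600_20_39 h) (refs_cons (d_V_700_600_20_40 h) (refs_cons (d_V_700_600_20_41 h) (refs_cons (d_V_700_600_20_42 h) (refs_cons (d_V_700_600_20_43 h) (refs_cons (d_V_700_600_20_44 h) (refs_cons (d_V_700_600_20_45 h) (refs_cons (d_V_700_600_20_46 h) (refs_cons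 (d_V_700_600_20_47 h) (refs_cons (d_V_700_600_20_48 h) (refs_cons (d_V_700_600_20_49 h) (refs_cons (d_V_700_600_20_50 h) (refs_cons (d_V_700_600_20_51 h) (refs_cons (d_V_700_600_20_52 h) (refs_cons (d_V_700_600_20_53 h) (refs_cons (d_V_700_600_20_54 h) (refs_cons (d_V_700_600_20_55 h) (refs_nil))))))))))))))))))))))))))))))))))))))))))))))))))))))))) (T :=
(.trZ (nat_lit 0) (nat_lit 100) (nat_lit 94) (nat_lit 59) (nat_lit 36) (.trX (nat_lit 16) (nat_lit 100) (nat_lit 80) (nat_lit 100) (nat_lit 336) (.trX (nat_lit 19) (nat_lit 100) (nat_lit 59) (nat_lit 94) (nat_lit 364) (.spl (nat_lit 6) (nat_lit 40)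
(.st (nat_lit 0)
(.gv
(.st (nat_lit 1)
(.ref (nat_lit 0))
(.spl (nat_lit 2) (nat_lit 240)
(.spl (nat_lit 4) (nat_lit 160)
(.ref (nat_lit 1))
(.spl (nat_lit 2) (nat_lit 120)
(.spl (nat_lit 4) (nat_lit 240)
(.leaf t05_l31)
(.spl (nat_lit 2) (nat_lit 80)
(.trX (nat_lit 23) (nat_lit 100) (nat_lit 76) (nat_lit 82) (nat_lit 336) (.spl (nat_lit 4) (nat_lit 280)
(.ref (nat_lit 2))
(.trX (nat_lit 23) (nat_lit 100) (nat_lit 95) (nat_lit 87) (nat_lit 300) (.spl (nat_lit 7) (nat_lit 600)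
(.spl (nat_lit 7) (nat_lit 300)
(.leaf t05_l32)
(.spl (nat_lit 7) (nat_lit 460)
(.spl (nat_lit 7) (nat_lit 380)
(.ref (nat_lit 3))
(.spl (nat_lit 1) (nat_lit 260)
(.spl (nat_lit 6) (nat_lit 20)
(.spl (nat_lit 7) (nat_lit 420)
(.ref (nat_lit 4))
(.spl (nat_lit 0) (nat_lit 300)
(.spl (nat_lit 8) (nat_lit 800)
(.ref (nat_lit 5))
(.leaf t05_l33))
(.ref (nat_lit 6))))
(.ref (nat_lit 7)))
(.ref (nat_lit 8))))
(.ref (nat_lit 9))))
(.leaf t05_l34)))))
(.spl (nat_lit 0) (nat_lit 300)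
(.ref (nat_lit 10))
(.ref (nat_lit 11)))))
(.ref (nat_lit 12))))
(.spl (nat_lit 4) (nat_lit 160)
(.ref (nat_lit 13))
(.spl (nat_lit 2) (nat_lit 320)
(.ref (nat_lit 14))
(.trZ (nat_lit 9) (nat_lit 100) (nat_lit 82) (nat_lit 44) (nat_lit 16) (.spl (nat_lit 4) (nat_lit 240)
(.ref (nat_lit 15))
(.ref (nat_lit 16))))))))
(.ref (nat_lit 17)))
(.gv
(.st (nat_lit 1)
(.spl (nat_lit 2) (nat_lit 240)
(.spl (nat_lit 4) (nat_lit 160)
(.ref (nat_lit 18))
(.spl (nat_lit 4) (nat_lit 240)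
(.ref (nat_lit 19))
(.spl (nat_lit 0) (nat_lit 300)
(.spl (nat_lit 2) (nat_lit 160)
(.ref (nat_lit 20))
(.ref (nat_lit 21)))
(.trZ (nat_lit 0) (nat_lit 100) (nat_lit 88) (nat_lit 68) (nat_lit 48) (.trX (nat_lit 16) (nat_lit 94) (nat_lit 88) (nat_lit 100) (nat_lit 320) (.spl (nat_lit 2) (nat_lit 160)
(.spl (nat_lit 2) (nat_lit 80)
(.ref (nat_lit 22))
(.ref (nat_lit 23)))
(.ref (nat_lit 24))))))))
(.ref (nat_lit 25)))
(.spl (nat_lit 2) (nat_lit 240)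
(.spl (nat_lit 4) (nat_lit 160)
(.ref (nat_lit 26))
(.spl (nat_lit 4) (nat_lit 240)
(.ref (nat_lit 27))
(.spl (nat_lit 2) (nat_lit 120)
(.spl (nat_lit 0) (nat_lit 300)
(.spl (nat_lit 4) (nat_lit 280)
(.ref (nat_lit 28))
(.trX (nat_lit 23) (nat_lit 100) (nat_lit 80) (nat_lit 100) (nat_lit 336) (.spl (nat_lit 1) (nat_lit 260)
(.spl (nat_lit 6) (nat_lit 28)
(.spl (nat_lit 3) (nat_lit 100)
(.trX (nat_lit 16) (nat_lit 100) (nat_lit 88) (nat_lit 94) (nat_lit 320) (.spl (nat_lit 6) (nat_lit 20)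
(.spl (nat_lit 2) (nat_lit 80)
(.trX (nat_lit 23) (nat_lit 100) (nat_lit 95) (nat_lit 87) (nat_lit 300) (.spl (nat_lit 0) (nat_lit 290)
(.ref (nat_lit 29))
(.ref (nat_lit 30))))
(.ref (nat_lit 31)))
(.ref (nat_lit 32))))
(.spl (nat_lit 6) (nat_lit 20)
(.spl (nat_lit 2) (nat_lit 80)
(.ref (nat_lit 33))
(.ref (nat_lit 34)))
(.leaf t05_l35)))
(.leaf t05_l36))
(.trZ (nat_lit 0) (nat_lit 100) (nat_lit 96) (nat_lit 69) (nat_lit 48) (.spl (nat_lit 6) (nat_lit 20)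
(.ref (nat_lit 35))
(.ref (nat_lit 36)))))))
(.trZ (nat_lit 0) (nat_lit 100) (nat_lit 88) (nat_lit 68) (nat_lit 48) (.trX (nat_lit 16) (nat_lit 94) (nat_lit 88) (nat_lit 100) (nat_lit 320) (.spl (nat_lit 1) (nat_lit 260)
(.spl (nat_lit 6) (nat_lit 20)
(.spl (nat_lit 4) (nat_lit 280)
(.ref (nat_lit 37))
(.trX (nat_lit 23) (nat_lit 100) (nat_lit 80) (nat_lit 100) (nat_lit 336) (.spl (nat_lit 7) (nat_lit 600)
(.spl (nat_lit 3) (nat_lit 100)
(.ref (nat_lit 38))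
(.spl (nat_lit 0) (nat_lit 310)
(.ref (nat_lit 39))
(.ref (nat_lit 40))))
(.leaf t05_l37))))
(.ref (nat_lit 41)))
(.trZ (nat_lit 0) (nat_lit 100) (nat_lit 91) (nat_lit 77) (nat_lit 64) (.trX (nat_lit 19) (nat_lit 100) (nat_lit 69) (nat_lit 96) (nat_lit 352) (.spl (nat_lit 7) (nat_lit 600)
(.spl (nat_lit 6) (nat_lit 20)
(.ref (nat_lit 42))
(.spl (nat_lit 5) (nat_lit 160)
(.leaf t05_l38)
(.spl (nat_lit 5) (nat_lit 240)
(.leaf t05_l39)
(.spl (nat_lit 4) (nat_lit 280)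
(.ref (nat_lit 43))
(.ref (nat_lit 44))))))
(.leaf t05_l40))))))))
(.spl (nat_lit 0) (nat_lit 300)
(.ref (nat_lit 45))
(.trX (nat_lit 16) (nat_lit 94) (nat_lit 88) (nat_lit 100) (nat_lit 320) (.spl (nat_lit 6) (nat_lit 20)
(.ref (nat_lit 46))
(.ref (nat_lit 47))))))))
(.ref (nat_lit 48))))
(.st (nat_lit 1)
(.ref (nat_lit 49))
(.ref (nat_lit 50)))))
(.st (nat_lit 0)
(.gv
(.ref (nat_lit 51))
(.ref (nat_lit 52)))
(.gv
(.st (nat_lit 1)
(.ref (nat_lit 53))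
(.ref (nat_lit 54)))
(.ref (nat_lit 55))))))))) (by decide +kernel)
theorem done_V_700_600_20 (h : EB TB.env) : RC.Done ⟨true, 120, 280, 320, 240, 280, 80, 120, [60]⟩ := RC.done1 (r_V_700_600_20 h) (t_V_700_600_20 h)
theorem t_V_700_700_10 (h : EB TB.env) : RC.Tail ⟨true, 80, 280, 320, 280, 320, 40, 80, [116]⟩ := RC.tail_chk h (b := ⟨nat_lit 40, nat_lit 58, nat_lit 5, nat_lit 5, nat_lit 20, nat_lit 226, nat_lit 20, nat_lit 17, nat_lit 5⟩) (by decide +kernel)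
noncomputable def t05_l41 : Lf2 := ⟨nat_lit 0, nat_lit 10, [nat_lit 0, nat_lit 5, nat_lit 5, nat_lit 20], false, nat_lit 160, nat_lit 276, nat_lit 160, nat_lit 276, ⟨nat_lit 1000, nat_lit 0, nat_lit 0, nat_lit 0, nat_lit 0, nat_lit 0, nat_lit 0, nat_lit 0, nat_lit 0, nat_lit 0, nat_lit 0, nat_lit 0, nat_lit 0, nat_lit 0, nat_lit 0, nat_lit 0, false, false⟩,
 nat_lit 0, nat_lit 10296, nat_lit 0, nat_lit 0, nat_lit 6552, nat_lit 5175, nat_lit 1613, nat_lit 0, nat_lit 0, nat_lit 0, nat_lit 0, nat_lit 0, nat_lit 0, nat_lit 10536792540953, nat_lit 0, nat_lit 0, nat_lit 0, nat_lit 0, [],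
 ⟨t05_k23, nat_lit 0, nat_lit 0, nat_lit 354, nat_lit 0, nat_lit 574425, [nat_lit 3282000000, nat_lit 4688000000, nat_lit 9842000000], [], [nat_lit 26931063981, nat_lit 25240169685, nat_lit 27603495413, nat_lit 26080476461, nat_lit 23817167300, nat_lit 24202325656, nat_lit 24792470111, nat_lit 25163000689], nat_lit 1271250, nat_lit 1271250, nat_lit 382400, nat_lit 1731000, nat_lit 1271250, nat_lit 1271250, [nat_lit 780000, nat_lit 1100000, nat_lit 2127500], [nat_lit 42, nat_lit 40, nat_lit 40, nat_lit 80, nat_lit 13, nat_lit 373, nat_lit 150, nat_lit 10]⟩, ⟨t05_k23, nat_lit 0, nat_lit 0, nat_lit 41, nat_lit 0, nat_lit 0, [nat_lit 3282000000, nat_lit 4688000000, nat_lit 9842000000], [], [nat_lit 12275709981, nat_lit 13265471496, nat_lit 16809701200, nat_lit 17543335400, nat_lit 18805383073, nat_lit 19646438809, nat_lit 21588018990, nat_lit 22159211718], nat_lit 0, nat_lit 0, nat_lit 0, nat_lit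 0, nat_lit 0, nat_lit 0, [], [nat_lit 42, nat_lit 40, nat_lit 40, nat_lit 80, nat_lit 13, nat_lit 373, nat_lit 150, nat_lit 10]⟩,
 zbF0, [⟨nat_lit 0, nat_lit 100, nat_lit 100, nat_lit 85, nat_lit 400283022⟩, ⟨nat_lit 16, nat_lit 94, nat_lit 100, nat_lit 69, nat_lit 211950627⟩, ⟨nat_lit 7, nat_lit 100, nat_lit 94, nat_lit 69, nat_lit 753746846⟩]⟩
noncomputable def t05_l42 : Lf2 := ⟨nat_lit 0, nat_lit 10, [nat_lit 0, nat_lit 5, nat_lit 5, nat_lit 20], false, nat_lit 0, nat_lit 300, nat_lit 0, nat_lit 300, ⟨nat_lit 1000, nat_lit 0, nat_lit 0, nat_lit 0, nat_lit 0, nat_lit 0, nat_lit 0, nat_lit 0, nat_lit 0, nat_lit 0, nat_lit 0, nat_lit 0, nat_lit 0, nat_lit 0, nat_lit 0, nat_lit 0, false, false⟩,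
 nat_lit 10955, nat_lit 0, nat_lit 0, nat_lit 0, nat_lit 6971, nat_lit 6971, nat_lit 878, nat_lit 0, nat_lit 0, nat_lit 1199, nat_lit 0, nat_lit 0, nat_lit 0, nat_lit 0, nat_lit 0, nat_lit 0, nat_lit 0, nat_lit 0, [],
 ⟨t05_k23, nat_lit 0, nat_lit 0, nat_lit 567, nat_lit 0, nat_lit 829096, [nat_lit 3282000000, nat_lit 4688000000, nat_lit 9842000000], [], [nat_lit 30280623366, nat_lit 31554248174, nat_lit 38332738718, nat_lit 40777085076, nat_lit 28668538353, nat_lit 29478969890, nat_lit 33798554569, nat_lit 35362340678], nat_lit 1271250, nat_lit 1271250, nat_lit 1271250, nat_lit 1271250, nat_lit 0, nat_lit 2118750, [nat_lit 780000, nat_lit 1100000, nat_lit 2127500], [nat_lit 42, nat_lit 40, nat_lit 40, nat_lit 80, nat_lit 13, nat_lit 401, nat_lit 175, nat_lit 11]⟩, ⟨t05_k23, nat_lit 0, nat_lit 0, nat_lit 567, nat_lit 0, nat_lit 829096, [nat_lit 3282000000, nat_lit 4688000000, nat_lit 9842000000],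 [], [nat_lit 28680638991, nat_lit 29954263799, nat_lit 38259342136, nat_lit 40777085076, nat_lit 27068553978, nat_lit 27881342656, nat_lit 33798554569, nat_lit 35362340678], nat_lit 1271250, nat_lit 1271250, nat_lit 1271250, nat_lit 1271250, nat_lit 0, nat_lit 2118750, [nat_lit 780000, nat_lit 1100000, nat_lit 2127500], [nat_lit 42, nat_lit 40, nat_lit 40, nat_lit 80, nat_lit 13, nat_lit 401, nat_lit 175, nat_lit 11]⟩,
 zbF0, [⟨nat_lit 4, nat_lit 100, nat_lit 90, nat_lit 74, nat_lit 135701726⟩, ⟨nat_lit 19, nat_lit 90, nat_lit 100, nat_lit 74, nat_lit 135701726⟩]⟩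
theorem r_V_700_700_10 (h : EB TB.env) : Dead (RC.box ⟨true, 80, 280, 320, 280, 320, 40, 80, [116]⟩ 0 116) := chkB_sound h (refs := [b_V_700_700_10_0, b_V_700_700_10_1, b_V_700_700_10_2, b_V_700_700_10_3, b_V_700_700_10_4, b_V_700_700_10_5, b_V_700_700_10_6, b_V_700_700_10_7, b_V_700_700_10_8, b_V_700_700_10_9, b_V_700_700_10_10, b_V_700_700_10_11, b_V_700_700_10_12, b_V_700_700_10_13, b_V_700_700_10_14, b_V_700_700_10_15, b_V_700_700_10_16, b_V_700_700_10_17, b_V_700_700_10_18, b_V_700_700_10_19, b_V_700_700_10_20, b_V_700_700_10_21, b_V_700_700_10_22, b_V_700_700_10_23, b_V_700_700_10_24, b_V_700_700_10_25, b_V_700_700_10_26, b_V_700_700_10_27, b_V_700_700_10_28, b_V_700_700_10_29, b_V_700_700_10_30, b_V_700_700_10_31, b_V_700_700_10_32, b_V_700_700_10_33, b_V_700_700_10_34, b_V_700_700_10_35, b_V_700_700_10_36, b_V_700_700_10_37, b_V_700_700_10_38, b_V_700_700_10_39, b_V_700_700_10_40, b_V_700_700_10_41,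 b_V_700_700_10_42, b_V_700_700_10_43, b_V_700_700_10_44]) (refs_cons (d_V_700_700_10_0 h) (refs_cons (d_V_700_700_10_1 h) (refs_cons (d_V_700_700_10_2 h) (refs_cons (d_V_700_700_10_3 h) (refs_cons (d_V_700_700_10_4 h) (refs_cons (d_V_700_700_10_5 h) (refs_cons (d_V_700_700_10_6 h) (refs_cons (d_V_700_700_10_7 h) (refs_cons (d_V_700_700_10_8 h) (refs_cons (d_V_700_700_10_9 h) (refs_cons (d_V_700_700_10_10 h) (refs_cons (d_V_700_700_10_11 h) (refs_cons (d_V_700_700_10_12 h) (refs_cons (d_V_700_700_10_13 h) (refs_cons (d_V_700_700_10_14 h) (refs_cons (d_V_700_700_10_15 h) (refs_cons (d_V_700_700_10_16 h) (refs_cons (d_V_700_700_10_17 h) (refs_cons (d_V_700_700_10_18 h) (refs_cons (d_V_700_700_10_19 h) (refs_cons (d_V_700_700_10_20 h) (refs_cons (d_V_700_700_10_21 h) (refs_cons (d_V_700_700_10_22 h) (refs_cons (d_V_700_700_10_23 h) (refs_cons (d_V_700_700_10_24 h) (refs_cons (d_V_700_700_10_25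 h) (refs_cons (d_V_700_700_10_26 h) (refs_cons (d_V_700_700_10_27 h) (refs_cons (d_V_700_700_10_28 h) (refs_cons (d_V_700_700_10_29 h) (refs_cons (d_V_700_700_10_30 h) (refs_cons (d_V_700_700_10_31 h) (refs_cons (d_V_700_700_10_32 h) (refs_cons (d_V_700_700_10_33 h) (refs_cons (d_V_700_700_10_34 h) (refs_cons (d_V_700_700_10_35 h) (refs_cons (d_V_700_700_10_36 h) (refs_cons (d_V_700_700_10_37 h) (refs_cons (d_V_700_700_10_38 h) (refs_cons (d_V_700_700_10_39 h) (refs_cons (d_V_700_700_10_40 h) (refs_cons (d_V_700_700_10_41 h) (refs_cons (d_V_700_700_10_42 h) (refs_cons (d_V_700_700_10_43 h) (refs_cons (d_V_700_700_10_44 h) (refs_nil)))))))))))))))))))))))))))))))))))))))))))))) (T :=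
(.trZ (nat_lit 0) (nat_lit 100) (nat_lit 100) (nat_lit 80) (nat_lit 64) (.trX (nat_lit 16) (nat_lit 100) (nat_lit 95) (nat_lit 87) (nat_lit 300) (.trX (nat_lit 19) (nat_lit 100) (nat_lit 95) (nat_lit 87) (nat_lit 300) (.spl (nat_lit 6) (nat_lit 40)
(.st (nat_lit 0)
(.gv
(.st (nat_lit 1)
(.ref (nat_lit 0))
(.spl (nat_lit 2) (nat_lit 240)
(.ref (nat_lit 1))
(.spl (nat_lit 4) (nat_lit 160)
(.ref (nat_lit 2))
(.ref (nat_lit 3)))))
(.ref (nat_lit 4)))
(.gv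
(.st (nat_lit 1)
(.spl (nat_lit 1) (nat_lit 300)
(.spl (nat_lit 2) (nat_lit 240)
(.spl (nat_lit 0) (nat_lit 300)
(.spl (nat_lit 4) (nat_lit 160)
(.spl (nat_lit 5) (nat_lit 160)
(.ref (nat_lit 5))
(.ref (nat_lit 6)))
(.spl (nat_lit 5) (nat_lit 160)
(.ref (nat_lit 7))
(.spl (nat_lit 0) (nat_lit 290)
(.ord (.spl (nat_lit 3) (nat_lit 60)
(.trX (nat_lit 16) (nat_lit 99) (nat_lit 100) (nat_lit 77) (nat_lit 276) (.trX (nat_lit 19) (nat_lit 99) (nat_lit 100) (nat_lit 77) (nat_lit 276) (.spl (nat_lit 6) (nat_lit 20)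
(.spl (nat_lit 4) (nat_lit 240)
(.ref (nat_lit 8))
(.ref (nat_lit 9)))
(.leaf t05_l41))))
(.ref (nat_lit 10))))
(.ref (nat_lit 11)))))
(.ref (nat_lit 12)))
(.ref (nat_lit 13)))
(.ref (nat_lit 14)))
(.spl (nat_lit 2) (nat_lit 240)
(.spl (nat_lit 2) (nat_lit 120)
(.spl (nat_lit 4) (nat_lit 160)
(.ref (nat_lit 15))
(.ref (nat_lit 16)))
(.ref (nat_lit 17)))
(.leaf t05_l42)))
(.st (nat_lit 1)
(.spl (nat_lit 0) (nat_lit 300)
(.ord (.spl (nat_lit 2) (nat_lit 240)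
(.spl (nat_lit 4) (nat_lit 160)
(.ref (nat_lit 18))
(.spl (nat_lit 0) (nat_lit 290)
(.ord (.spl (nat_lit 3) (nat_lit 60)
(.ref (nat_lit 19))
(.ref (nat_lit 20))))
(.ref (nat_lit 21))))
(.ref (nat_lit 22))))
(.ref (nat_lit 23)))
(.ref (nat_lit 24)))))
(.spl (nat_lit 6) (nat_lit 80)
(.st (nat_lit 0)
(.gv
(.st (nat_lit 1)
(.ref (nat_lit 25))
(.spl (nat_lit 2) (nat_lit 240)
(.spl (nat_lit 0) (nat_lit 300)
(.ref (nat_lit 26))
(.ref (nat_lit 27)))
(.ref (nat_lit 28))))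
(.ref (nat_lit 29)))
(.gv
(.st (nat_lit 1)
(.spl (nat_lit 2) (nat_lit 240)
(.spl (nat_lit 1) (nat_lit 300)
(.ref (nat_lit 30))
(.ref (nat_lit 31)))
(.ref (nat_lit 32)))
(.spl (nat_lit 2) (nat_lit 240)
(.spl (nat_lit 4) (nat_lit 160)
(.ref (nat_lit 33))
(.spl (nat_lit 0) (nat_lit 300)
(.ref (nat_lit 34))
(.ref (nat_lit 35))))
(.ref (nat_lit 36))))
(.st (nat_lit 1)
(.spl (nat_lit 2) (nat_lit 120)
(.ref (nat_lit 37))
(.ref (nat_lit 38)))
(.ref (nat_lit 39)))))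
(.st (nat_lit 0)
(.gv
(.ref (nat_lit 40))
(.ref (nat_lit 41)))
(.gv
(.st (nat_lit 1)
(.ref (nat_lit 42))
(.ref (nat_lit 43)))
(.ref (nat_lit 44)))))))))) (by decide +kernel)
theorem done_V_700_700_10 (h : EB TB.env) : RC.Done ⟨true, 80, 280, 320, 280, 320, 40, 80, [116]⟩ := RC.done1 (r_V_700_700_10 h) (t_V_700_700_10 h)

end B2
end Pool.Agent.Lib.MP_6947cd_al
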