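import Pool.Agent.Lib.MP_6947cd_al.ZB.Pre

/-!
Problem MP_6947cd_al (Chollet).  Case B, second entry in [2/5, 17/20]: certificates of the tree, part P070 (generated).
-/

set_option autoImplicit false
set_option linter.all false

namespace Pool.Agent.Lib.MP_6947cd_al
namespace B2

open Ent Fr B1 PkA

noncomputable def p070_k0 : C1.Kn := ⟨[nat_lit 60, nat_lit 100, nat_lit 120], [nat_lit 0, nat_lit 609, nat_lit 1609], [(nat_lit 0, nat_lit 0, nat_lit 0), (nat_lit 1000, nat_lit 905, nat_lit 238), (nat_lit 1000, nat_lit 882, nat_lit 668)], (nat_lit 87, nat_lit 100, nat_lit 60)⟩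
noncomputable def p070_k1 : C1.Kn := ⟨[nat_lit 60, nat_lit 100, nat_lit 120], [nat_lit 0, nat_lit 909, nat_lit 1866], [(nat_lit 0, nat_lit 0, nat_lit 0), (nat_lit 1000, nat_lit 858, nat_lit 354), (nat_lit 1000, nat_lit 849, nat_lit 705)], (nat_lit 84, nat_lit 100, nat_lit 60)⟩
noncomputable def p070_k2 : C1.Kn := ⟨[nat_lit 60, nat_lit 100], [nat_lit 0, nat_lit 609], [(nat_lit 0, nat_lit 0, nat_lit 0), (nat_lit 1000, nat_lit 905, nat_lit 238)], (nat_lit 87, nat_lit 100, nat_lit 44)⟩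
noncomputable def p070_k3 : C1.Kn := ⟨[nat_lit 60, nat_lit 100, nat_lit 120], [nat_lit 0, nat_lit 302, nat_lit 1376], [(nat_lit 0, nat_lit 0, nat_lit 0), (nat_lit 1000, nat_lit 953, nat_lit 118), (nat_lit 1000, nat_lit 911, nat_lit 628)], (nat_lit 91, nat_lit 100, nat_lit 61)⟩
noncomputable def p070_k4 : C1.Kn := ⟨[nat_lit 60, nat_lit 120], [nat_lit 0, nat_lit 913], [(nat_lit 0, nat_lit 0, nat_lit 0), (nat_lit 1000, nat_lit 905, nat_lit 238)], (nat_lit 87, nat_lit 100, nat_lit 60)⟩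
noncomputable def p070_k5 : C1.Kn := ⟨[nat_lit 40, nat_lit 60, nat_lit 80, nat_lit 120], [nat_lit 0, nat_lit 0, nat_lit 304, nat_lit 1346], [(nat_lit 0, nat_lit 0, nat_lit 0), (nat_lit 0, nat_lit 0, nat_lit 0), (nat_lit 1000, nat_lit 905, nat_lit 238), (nat_lit 1000, nat_lit 871, nat_lit 407)], (nat_lit 87, nat_lit 100, nat_lit 60)⟩
noncomputable def p070_k6 : C1.Kn := ⟨[nat_lit 60, nat_lit 100, nat_lit 140], [nat_lit 0, nat_lit 0, nat_lit 2047], [(nat_lit 0, nat_lit 0, nat_lit 0), (nat_lit 0, nat_lit 0, nat_lit 0), (nat_lit 1000, nat_lit 993, nat_lit 781)], (nat_lit 94, nat_lit 100, nat_lit 62)⟩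
noncomputable def p070_k7 : C1.Kn := ⟨[nat_lit 40, nat_lit 60, nat_lit 80, nat_lit 120], [nat_lit 0, nat_lit 0, nat_lit 456, nat_lit 1495], [(nat_lit 0, nat_lit 0, nat_lit 0), (nat_lit 0, nat_lit 0, nat_lit 0), (nat_lit 1000, nat_lit 859, nat_lit 351), (nat_lit 1000, nat_lit 848, nat_lit 406)], (nat_lit 84, nat_lit 100, nat_lit 60)⟩
noncomputable def p070_k8 : C1.Kn := ⟨[nat_lit 30, nat_lit 50, nat_lit 70, nat_lit 110, nat_lit 120], [nat_lit 0, nat_lit 0, nat_lit 0, nat_lit 1122, nat_lit 1609], [(nat_lit 0, nat_lit 0, nat_lit 0), (nat_lit 0, nat_lit 0, nat_lit 0), (nat_lit 0, nat_lit 0, nat_lit 0), (nat_lit 1000, nat_lit 868, nat_lit 437), (nat_lit 1000, nat_lit 882, nat_lit 668)], (nat_lit 87, nat_lit 100, nat_lit 60)⟩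
noncomputable def p070_k9 : C1.Kn := ⟨[nat_lit 60, nat_lit 80, nat_lit 120], [nat_lit 0, nat_lit 151, nat_lit 1205], [(nat_lit 0, nat_lit 0, nat_lit 0), (nat_lit 1000, nat_lit 953, nat_lit 118), (nat_lit 1000, nat_lit 894, nat_lit 411)], (nat_lit 91, nat_lit 100, nat_lit 61)⟩
noncomputable def p070_k10 : C1.Kn := ⟨[nat_lit 50, nat_lit 70, nat_lit 110], [nat_lit 0, nat_lit 167, nat_lit 1284], [(nat_lit 0, nat_lit 0, nat_lit 0), (nat_lit 1000, nat_lit 935, nat_lit 130), (nat_lit 1000, nat_lit 843, nat_lit 436)], (nat_lit 84, nat_lit 100, nat_lit 60)⟩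
noncomputable def p070_k11 : C1.Kn := ⟨[nat_lit 40, nat_lit 60, nat_lit 80, nat_lit 100], [nat_lit 0, nat_lit 0, nat_lit 304, nat_lit 825], [(nat_lit 0, nat_lit 0, nat_lit 0), (nat_lit 0, nat_lit 0, nat_lit 0), (nat_lit 1000, nat_lit 905, nat_lit 238), (nat_lit 1000, nat_lit 871, nat_lit 407)], (nat_lit 87, nat_lit 100, nat_lit 44)⟩
noncomputable def p070_k12 : C1.Kn := ⟨[nat_lit 40, nat_lit 60, nat_lit 80, nat_lit 100], [nat_lit 0, nat_lit 0, nat_lit 456, nat_lit 976], [(nat_lit 0, nat_lit 0, nat_lit 0), (nat_lit 0, nat_lit 0, nat_lit 0), (nat_lit 1000, nat_lit 859, nat_lit 351), (nat_lit 1000, nat_lit 848, nat_lit 406)], (nat_lit 84, nat_lit 100, nat_lit 44)⟩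
noncomputable def p070_k13 : C1.Kn := ⟨[nat_lit 60, nat_lit 100, nat_lit 120], [nat_lit 0, nat_lit 0, nat_lit 1164], [(nat_lit 0, nat_lit 0, nat_lit 0), (nat_lit 0, nat_lit 0, nat_lit 0), (nat_lit 1000, nat_lit 933, nat_lit 572)], (nat_lit 92, nat_lit 100, nat_lit 44)⟩
noncomputable def p070_k14 : C1.Kn := ⟨[nat_lit 50, nat_lit 70, nat_lit 100], [nat_lit 0, nat_lit 0, nat_lit 842], [(nat_lit 0, nat_lit 0, nat_lit 0), (nat_lit 0, nat_lit 0, nat_lit 0), (nat_lit 1000, nat_lit 868, nat_lit 437)], (nat_lit 87, nat_lit 100, nat_lit 44)⟩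
noncomputable def p070_k15 : C1.Kn := ⟨[nat_lit 60, nat_lit 80, nat_lit 120], [nat_lit 0, nat_lit 0, nat_lit 1064], [(nat_lit 0, nat_lit 0, nat_lit 0), (nat_lit 0, nat_lit 0, nat_lit 0), (nat_lit 1000, nat_lit 917, nat_lit 415)], (nat_lit 92, nat_lit 100, nat_lit 44)⟩
noncomputable def p070_k16 : C1.Kn := ⟨[nat_lit 30, nat_lit 50, nat_lit 70, nat_lit 100], [nat_lit 0, nat_lit 0, nat_lit 0, nat_lit 842], [(nat_lit 0, nat_lit 0, nat_lit 0), (nat_lit 0, nat_lit 0, nat_lit 0), (nat_lit 0, nat_lit 0, nat_lit 0), (nat_lit 1000, nat_lit 868, nat_lit 437)], (nat_lit 87, nat_lit 100, nat_lit 44)⟩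
noncomputable def p070_k17 : C1.Kn := ⟨[nat_lit 30, nat_lit 50, nat_lit 70, nat_lit 90], [nat_lit 0, nat_lit 0, nat_lit 83, nat_lit 644], [(nat_lit 0, nat_lit 0, nat_lit 0), (nat_lit 0, nat_lit 0, nat_lit 0), (nat_lit 1000, nat_lit 967, nat_lit 65), (nat_lit 1000, nat_lit 856, nat_lit 435)], (nat_lit 86, nat_lit 100, nat_lit 44)⟩
noncomputable def p070_k18 : C1.Kn := ⟨[nat_lit 60, nat_lit 80, nat_lit 100], [nat_lit 0, nat_lit 304, nat_lit 825], [(nat_lit 0, nat_lit 0, nat_lit 0), (nat_lit 1000, nat_lit 905, nat_lit 238), (nat_lit 1000, nat_lit 871, nat_lit 407)], (nat_lit 87, nat_lit 100, nat_lit 44)⟩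
noncomputable def p070_k19 : C1.Kn := ⟨[nat_lit 30, nat_lit 50, nat_lit 70, nat_lit 90], [nat_lit 0, nat_lit 0, nat_lit 167, nat_lit 726], [(nat_lit 0, nat_lit 0, nat_lit 0), (nat_lit 0, nat_lit 0, nat_lit 0), (nat_lit 1000, nat_lit 935, nat_lit 130), (nat_lit 1000, nat_lit 843, nat_lit 436)], (nat_lit 84, nat_lit 100, nat_lit 44)⟩
noncomputable def p070_k20 : C1.Kn := ⟨[nat_lit 40, nat_lit 60, nat_lit 80], [nat_lit 0, nat_lit 0, nat_lit 456], [(nat_lit 0, nat_lit 0, nat_lit 0), (nat_lit 0, nat_lit 0, nat_lit 0), (nat_lit 1000, nat_lit 859, nat_lit 351)], (nat_lit 87, nat_lit 100, nat_lit 29)⟩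
noncomputable def p070_k21 : C1.Kn := ⟨[nat_lit 60, nat_lit 80, nat_lit 100], [nat_lit 0, nat_lit 151, nat_lit 679], [(nat_lit 0, nat_lit 0, nat_lit 0), (nat_lit 1000, nat_lit 953, nat_lit 118), (nat_lit 1000, nat_lit 894, nat_lit 411)], (nat_lit 89, nat_lit 100, nat_lit 44)⟩
noncomputable def p070_k22 : C1.Kn := ⟨[nat_lit 30, nat_lit 50, nat_lit 70, nat_lit 90], [nat_lit 0, nat_lit 0, nat_lit 219, nat_lit 775], [(nat_lit 0, nat_lit 0, nat_lit 0), (nat_lit 0, nat_lit 0, nat_lit 0), (nat_lit 1000, nat_lit 915, nat_lit 170), (nat_lit 1000, nat_lit 836, nat_lit 433)], (nat_lit 83, nat_lit 100, nat_lit 44)⟩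
noncomputable def p070_k23 : C1.Kn := ⟨[nat_lit 40, nat_lit 60, nat_lit 80, nat_lit 100], [nat_lit 0, nat_lit 0, nat_lit 533, nat_lit 1067], [(nat_lit 0, nat_lit 0, nat_lit 0), (nat_lit 0, nat_lit 0, nat_lit 0), (nat_lit 1000, nat_lit 837, nat_lit 397), (nat_lit 1000, nat_lit 833, nat_lit 417)], (nat_lit 83, nat_lit 100, nat_lit 44)⟩
noncomputable def p070_k24 : C1.Kn := ⟨[nat_lit 50, nat_lit 70, nat_lit 120], [nat_lit 0, nat_lit 0, nat_lit 1402], [(nat_lit 0, nat_lit 0, nat_lit 0), (nat_lit 0, nat_lit 0, nat_lit 0), (nat_lit 1000, nat_lit 868, nat_lit 437)], (nat_lit 87, nat_lit 100, nat_lit 60)⟩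
noncomputable def p070_k25 : C1.Kn := ⟨[nat_lit 60, nat_lit 80, nat_lit 140], [nat_lit 0, nat_lit 0, nat_lit 1595], [(nat_lit 0, nat_lit 0, nat_lit 0), (nat_lit 0, nat_lit 0, nat_lit 0), (nat_lit 1000, nat_lit 917, nat_lit 415)], (nat_lit 94, nat_lit 100, nat_lit 62)⟩
noncomputable def p070_k26 : C1.Kn := ⟨[nat_lit 30, nat_lit 50, nat_lit 70, nat_lit 110], [nat_lit 0, nat_lit 0, nat_lit 167, nat_lit 1284], [(nat_lit 0, nat_lit 0, nat_lit 0), (nat_lit 0, nat_lit 0, nat_lit 0), (nat_lit 1000, nat_lit 935, nat_lit 130), (nat_lit 1000, nat_lit 843, nat_lit 436)], (nat_lit 84, nat_lit 100, nat_lit 60)⟩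
noncomputable def p070_k27 : C1.Kn := ⟨[nat_lit 30, nat_lit 50, nat_lit 70, nat_lit 120], [nat_lit 0, nat_lit 0, nat_lit 0, nat_lit 1402], [(nat_lit 0, nat_lit 0, nat_lit 0), (nat_lit 0, nat_lit 0, nat_lit 0), (nat_lit 0, nat_lit 0, nat_lit 0), (nat_lit 1000, nat_lit 868, nat_lit 437)], (nat_lit 87, nat_lit 100, nat_lit 60)⟩
noncomputable def p070_k28 : C1.Kn := ⟨[nat_lit 60, nat_lit 80, nat_lit 120], [nat_lit 0, nat_lit 304, nat_lit 1346], [(nat_lit 0, nat_lit 0, nat_lit 0), (nat_lit 1000, nat_lit 905, nat_lit 238), (nat_lit 1000, nat_lit 871, nat_lit 407)], (nat_lit 87, nat_lit 100, nat_lit 60)⟩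
noncomputable def p070_k29 : C1.Kn := ⟨[nat_lit 60, nat_lit 80, nat_lit 120], [nat_lit 0, nat_lit 456, nat_lit 1495], [(nat_lit 0, nat_lit 0, nat_lit 0), (nat_lit 1000, nat_lit 859, nat_lit 351), (nat_lit 1000, nat_lit 848, nat_lit 406)], (nat_lit 84, nat_lit 100, nat_lit 60)⟩
noncomputable def p070_k30 : C1.Kn := ⟨[nat_lit 60, nat_lit 120], [nat_lit 0, nat_lit 453], [(nat_lit 0, nat_lit 0, nat_lit 0), (nat_lit 1000, nat_lit 953, nat_lit 118)], (nat_lit 91, nat_lit 100, nat_lit 61)⟩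
noncomputable def p070_k31 : C1.Kn := ⟨[nat_lit 60, nat_lit 100, nat_lit 140], [nat_lit 0, nat_lit 151, nat_lit 2175], [(nat_lit 0, nat_lit 0, nat_lit 0), (nat_lit 1000, nat_lit 977, nat_lit 59), (nat_lit 1000, nat_lit 974, nat_lit 785)], (nat_lit 92, nat_lit 100, nat_lit 61)⟩
noncomputable def p070_k32 : C1.Kn := ⟨[nat_lit 60, nat_lit 80, nat_lit 140], [nat_lit 0, nat_lit 75, nat_lit 1666], [(nat_lit 0, nat_lit 0, nat_lit 0), (nat_lit 1000, nat_lit 977, nat_lit 59), (nat_lit 1000, nat_lit 905, nat_lit 414)], (nat_lit 92, nat_lit 100, nat_lit 61)⟩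
noncomputable def p070_k33 : C1.Kn := ⟨[nat_lit 60, nat_lit 120], [nat_lit 0, nat_lit 1362], [(nat_lit 0, nat_lit 0, nat_lit 0), (nat_lit 1000, nat_lit 858, nat_lit 354)], (nat_lit 84, nat_lit 100, nat_lit 60)⟩
noncomputable def p070_k34 : C1.Kn := ⟨[nat_lit 60, nat_lit 140], [nat_lit 0, nat_lit 0], [(nat_lit 0, nat_lit 0, nat_lit 0), (nat_lit 0, nat_lit 0, nat_lit 0)], (nat_lit 94, nat_lit 100, nat_lit 62)⟩
noncomputable def p070_k35 : C1.Kn := ⟨[nat_lit 60, nat_lit 100, nat_lit 120], [nat_lit 0, nat_lit 151, nat_lit 1267], [(nat_lit 0, nat_lit 0, nat_lit 0), (nat_lit 1000, nat_lit 977, nat_lit 59), (nat_lit 1000, nat_lit 921, nat_lit 595)], (nat_lit 91, nat_lit 100, nat_lit 44)⟩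
noncomputable def p070_k36 : C1.Kn := ⟨[nat_lit 60, nat_lit 100], [nat_lit 0, nat_lit 302], [(nat_lit 0, nat_lit 0, nat_lit 0), (nat_lit 1000, nat_lit 953, nat_lit 118)], (nat_lit 89, nat_lit 100, nat_lit 44)⟩
noncomputable def p070_k37 : C1.Kn := ⟨[nat_lit 60, nat_lit 100], [nat_lit 0, nat_lit 0], [(nat_lit 0, nat_lit 0, nat_lit 0), (nat_lit 0, nat_lit 0, nat_lit 0)], (nat_lit 92, nat_lit 100, nat_lit 28)⟩
noncomputable def p070_k38 : C1.Kn := ⟨[nat_lit 60, nat_lit 100], [nat_lit 0, nat_lit 302], [(nat_lit 0, nat_lit 0, nat_lit 0), (nat_lit 1000, nat_lit 953, nat_lit 118)], (nat_lit 91, nat_lit 100, nat_lit 28)⟩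
noncomputable def p070_k39 : C1.Kn := ⟨[nat_lit 60, nat_lit 80, nat_lit 120], [nat_lit 0, nat_lit 0, nat_lit 1064], [(nat_lit 0, nat_lit 0, nat_lit 0), (nat_lit 0, nat_lit 0, nat_lit 0), (nat_lit 1000, nat_lit 917, nat_lit 415)], (nat_lit 93, nat_lit 100, nat_lit 55)⟩
noncomputable def p070_k40 : C1.Kn := ⟨[nat_lit 60, nat_lit 80, nat_lit 120], [nat_lit 0, nat_lit 27, nat_lit 1093], [(nat_lit 0, nat_lit 0, nat_lit 0), (nat_lit 1000, nat_lit 992, nat_lit 21), (nat_lit 1000, nat_lit 912, nat_lit 415)], (nat_lit 92, nat_lit 100, nat_lit 55)⟩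
noncomputable def p070_k41 : C1.Kn := ⟨[nat_lit 60, nat_lit 80, nat_lit 120], [nat_lit 0, nat_lit 42, nat_lit 1110], [(nat_lit 0, nat_lit 0, nat_lit 0), (nat_lit 1000, nat_lit 987, nat_lit 33), (nat_lit 1000, nat_lit 910, nat_lit 417)], (nat_lit 91, nat_lit 100, nat_lit 44)⟩
noncomputable def p070_k42 : C1.Kn := ⟨[nat_lit 60, nat_lit 80, nat_lit 120], [nat_lit 0, nat_lit 59, nat_lit 1124], [(nat_lit 0, nat_lit 0, nat_lit 0), (nat_lit 1000, nat_lit 982, nat_lit 46), (nat_lit 1000, nat_lit 908, nat_lit 416)], (nat_lit 91, nat_lit 100, nat_lit 44)⟩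
noncomputable def p070_k43 : C1.Kn := ⟨[nat_lit 60, nat_lit 80, nat_lit 120], [nat_lit 0, nat_lit 42, nat_lit 1110], [(nat_lit 0, nat_lit 0, nat_lit 0), (nat_lit 1000, nat_lit 987, nat_lit 33), (nat_lit 1000, nat_lit 910, nat_lit 417)], (nat_lit 92, nat_lit 100, nat_lit 55)⟩
noncomputable def p070_k44 : C1.Kn := ⟨[nat_lit 60, nat_lit 80, nat_lit 120], [nat_lit 0, nat_lit 75, nat_lit 1136], [(nat_lit 0, nat_lit 0, nat_lit 0), (nat_lit 1000, nat_lit 977, nat_lit 59), (nat_lit 1000, nat_lit 905, nat_lit 414)], (nat_lit 91, nat_lit 100, nat_lit 44)⟩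
noncomputable def p070_k45 : C1.Kn := ⟨[nat_lit 60, nat_lit 80, nat_lit 120], [nat_lit 0, nat_lit 103, nat_lit 1167], [(nat_lit 0, nat_lit 0, nat_lit 0), (nat_lit 1000, nat_lit 968, nat_lit 80), (nat_lit 1000, nat_lit 901, nat_lit 415)], (nat_lit 90, nat_lit 100, nat_lit 44)⟩
noncomputable def p070_k46 : C1.Kn := ⟨[nat_lit 60, nat_lit 100], [nat_lit 0, nat_lit 238], [(nat_lit 0, nat_lit 0, nat_lit 0), (nat_lit 1000, nat_lit 963, nat_lit 93)], (nat_lit 90, nat_lit 100, nat_lit 44)⟩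
noncomputable def p070_k47 : C1.Kn := ⟨[nat_lit 60, nat_lit 80, nat_lit 100], [nat_lit 0, nat_lit 119, nat_lit 650], [(nat_lit 0, nat_lit 0, nat_lit 0), (nat_lit 1000, nat_lit 963, nat_lit 93), (nat_lit 1000, nat_lit 898, nat_lit 413)], (nat_lit 90, nat_lit 100, nat_lit 44)⟩
noncomputable def p070_k48 : C1.Kn := ⟨[nat_lit 60, nat_lit 80, nat_lit 100], [nat_lit 0, nat_lit 135, nat_lit 664], [(nat_lit 0, nat_lit 0, nat_lit 0), (nat_lit 1000, nat_lit 958, nat_lit 105), (nat_lit 1000, nat_lit 896, nat_lit 412)], (nat_lit 90, nat_lit 100, nat_lit 44)⟩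
noncomputable def p070_k49 : C1.Kn := ⟨[nat_lit 60, nat_lit 80, nat_lit 120], [nat_lit 0, nat_lit 75, nat_lit 1136], [(nat_lit 0, nat_lit 0, nat_lit 0), (nat_lit 1000, nat_lit 977, nat_lit 59), (nat_lit 1000, nat_lit 905, nat_lit 414)], (nat_lit 91, nat_lit 100, nat_lit 51)⟩
noncomputable def p070_k50 : C1.Kn := ⟨[nat_lit 60, nat_lit 80, nat_lit 120], [nat_lit 0, nat_lit 0, nat_lit 1064], [(nat_lit 0, nat_lit 0, nat_lit 0), (nat_lit 0, nat_lit 0, nat_lit 0), (nat_lit 1000, nat_lit 917, nat_lit 415)], (nat_lit 92, nat_lit 100, nat_lit 51)⟩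
noncomputable def p070_k51 : C1.Kn := ⟨[nat_lit 60, nat_lit 80, nat_lit 120], [nat_lit 0, nat_lit 119, nat_lit 1178], [(nat_lit 0, nat_lit 0, nat_lit 0), (nat_lit 1000, nat_lit 963, nat_lit 93), (nat_lit 1000, nat_lit 898, nat_lit 413)], (nat_lit 90, nat_lit 100, nat_lit 51)⟩
noncomputable def p070_l0 : Lf2 := ⟨nat_lit 0, nat_lit 10, [nat_lit 0, nat_lit 5, nat_lit 5, nat_lit 20], true, nat_lit 160, nat_lit 240, nat_lit 0, nat_lit 336, ⟨nat_lit 0, nat_lit 1000, nat_lit 0, nat_lit 7, nat_lit 213, nat_lit 1000, nat_lit 157, nat_lit 0, nat_lit 0, nat_lit 0, nat_lit 0, nat_lit 0, nat_lit 44472118, nat_lit 13901751, nat_lit 8626131, nat_lit 4630331, false, false⟩,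
 nat_lit 0, nat_lit 0, nat_lit 0, nat_lit 0, nat_lit 4351, nat_lit 0, nat_lit 0, nat_lit 0, nat_lit 0, nat_lit 0, nat_lit 0, nat_lit 0, nat_lit 0, nat_lit 7982098992465, nat_lit 0, nat_lit 250000, nat_lit 0, nat_lit 0, [(nat_lit 15, [(nat_lit 0, nat_lit 1000)])],
 ⟨p070_k0, nat_lit 0, nat_lit 0, nat_lit 34, nat_lit 0, nat_lit 0, [nat_lit 2318400000, nat_lit 2724800000, nat_lit 3082400000], [], [nat_lit 13842572314, nat_lit 14722869013, nat_lit 18126466432, nat_lit 18796435096, nat_lit 17272924060, nat_lit 18021194692, nat_lit 20692739158, nat_lit 21296397089], nat_lit 0, nat_lit 0, nat_lit 0, nat_lit 0, nat_lit 0, nat_lit 0, [], [nat_lit 18, nat_lit 40, nat_lit 40, nat_lit 80, nat_lit 2, nat_lit 345, nat_lit 125, nat_lit 11]⟩, C1.Rw.none,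
 ⟨nat_lit 4743, nat_lit 5000, ⟨.ofNat (nat_lit 371422), .ofNat (nat_lit 657129), .ofNat (nat_lit 403560), .ofNat (nat_lit 689267), .ofNat (nat_lit 376847), .ofNat (nat_lit 655639), .ofNat (nat_lit 409074), .ofNat (nat_lit 687866)⟩, ⟨.ofNat (nat_lit 299999), .ofNat (nat_lit 442856), .ofNat (nat_lit 342856), .ofNat (nat_lit 485713), .ofNat (nat_lit 301370), .ofNat (nat_lit 440769), .ofNat (nat_lit 344346), .ofNat (nat_lit 483746)⟩⟩, [⟨nat_lit 0, nat_lit 91, nat_lit 91, nat_lit 100, nat_lit 14759602⟩]⟩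
noncomputable def p070_l1 : Lf2 := ⟨nat_lit 0, nat_lit 10, [nat_lit 0, nat_lit 5, nat_lit 5, nat_lit 20], true, nat_lit 160, nat_lit 240, nat_lit 0, nat_lit 336, ⟨nat_lit 0, nat_lit 1000, nat_lit 0, nat_lit 7, nat_lit 218, nat_lit 1000, nat_lit 157, nat_lit 0, nat_lit 0, nat_lit 0, nat_lit 0, nat_lit 0, nat_lit 44008477, nat_lit 14425236, nat_lit 8566287, nat_lit 4670340, false, false⟩,
 nat_lit 0, nat_lit 0, nat_lit 0, nat_lit 0, nat_lit 4296, nat_lit 0, nat_lit 0, nat_lit 0, nat_lit 0, nat_lit 0, nat_lit 0, nat_lit 0, nat_lit 0, nat_lit 4149436473482, nat_lit 0, nat_lit 250000, nat_lit 0, nat_lit 0, [(nat_lit 15, [(nat_lit 0, nat_lit 1000)])],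
 ⟨p070_k1, nat_lit 0, nat_lit 0, nat_lit 39, nat_lit 0, nat_lit 0, [nat_lit 2318400000, nat_lit 2724800000, nat_lit 3082400000], [], [nat_lit 14826785919, nat_lit 15692087213, nat_lit 18846457816, nat_lit 19512176960, nat_lit 18085674575, nat_lit 18821770464, nat_lit 21312609432, nat_lit 21918460256], nat_lit 0, nat_lit 0, nat_lit 0, nat_lit 0, nat_lit 0, nat_lit 0, [], [nat_lit 18, nat_lit 40, nat_lit 40, nat_lit 80, nat_lit 2, nat_lit 345, nat_lit 125, nat_lit 11]⟩, C1.Rw.none,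
 ⟨nat_lit 4472, nat_lit 4744, ⟨.ofNat (nat_lit 390781), .ofNat (nat_lit 655638), .ofNat (nat_lit 433750), .ofNat (nat_lit 698608), .ofNat (nat_lit 395915), .ofNat (nat_lit 654230), .ofNat (nat_lit 439041), .ofNat (nat_lit 697356)⟩, ⟨.ofNat (nat_lit 301370), .ofNat (nat_lit 440769), .ofNat (nat_lit 344346), .ofNat (nat_lit 483746), .ofNat (nat_lit 302621), .ofNat (nat_lit 438578), .ofNat (nat_lit 345754), .ofNat (nat_lit 481711)⟩⟩, [⟨nat_lit 0, nat_lit 83, nat_lit 83, nat_lit 100, nat_lit 8033218⟩]⟩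
noncomputable def b_V_700_700_20_9 : St := ⟨true, nat_lit 0, nat_lit 1, nat_lit 1, nat_lit 120, nat_lit 300, nat_lit 320, nat_lit 280, nat_lit 320, nat_lit 80, nat_lit 240, nat_lit 80, nat_lit 120, nat_lit 160, nat_lit 240, nat_lit 0, nat_lit 336, nat_lit 0, nat_lit 40, nat_lit 0, nat_lit 0, nat_lit 0, nat_lit 0⟩
theorem d_V_700_700_20_9 (h : EB TB.env) : Dead b_V_700_700_20_9 := chkB_sound0 h (T :=
(.spl (nat_lit 0) (nat_lit 310)
(.ord (.leaf p070_l0))
(.trZ (nat_lit 0) (nat_lit 100) (nat_lit 91) (nat_lit 91) (nat_lit 88) (.leaf p070_l1)))) (by decide +kernel)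
noncomputable def p070_l2 : Lf2 := ⟨nat_lit 0, nat_lit 10, [nat_lit 0, nat_lit 5, nat_lit 5, nat_lit 20], true, nat_lit 240, nat_lit 260, nat_lit 0, nat_lit 336, ⟨nat_lit 0, nat_lit 1000, nat_lit 0, nat_lit 7, nat_lit 187, nat_lit 1000, nat_lit 192, nat_lit 0, nat_lit 0, nat_lit 0, nat_lit 0, nat_lit 0, nat_lit 43974571, nat_lit 11289535, nat_lit 11735894, nat_lit 4744973, false, false⟩,
 nat_lit 0, nat_lit 0, nat_lit 0, nat_lit 0, nat_lit 4318, nat_lit 0, nat_lit 0, nat_lit 0, nat_lit 0, nat_lit 0, nat_lit 0, nat_lit 0, nat_lit 0, nat_lit 6229009061727, nat_lit 0, nat_lit 250000, nat_lit 0, nat_lit 0, [(nat_lit 15, [(nat_lit 0, nat_lit 1000)])],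
 ⟨p070_k0, nat_lit 0, nat_lit 0, nat_lit 53, nat_lit 0, nat_lit 0, [nat_lit 2318400000, nat_lit 2724800000, nat_lit 3082400000], [], [nat_lit 17297903080, nat_lit 18836094232, nat_lit 18159029776, nat_lit 19493867680, nat_lit 18506803240, nat_lit 20079479860, nat_lit 19244594289, nat_lit 20517531024], nat_lit 0, nat_lit 0, nat_lit 0, nat_lit 0, nat_lit 0, nat_lit 0, [], [nat_lit 18, nat_lit 40, nat_lit 40, nat_lit 80, nat_lit 2, nat_lit 249, nat_lit 40, nat_lit 7]⟩, C1.Rw.none,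
 ⟨nat_lit 4472, nat_lit 5000, ⟨.ofNat (nat_lit 371392), .ofNat (nat_lit 514240), .ofNat (nat_lit 414225), .ofNat (nat_lit 557072), .ofNat (nat_lit 382295), .ofNat (nat_lit 518242), .ofNat (nat_lit 425403), .ofNat (nat_lit 561349)⟩, ⟨.ofNat (nat_lit 442856), .ofNat (nat_lit 478570), .ofNat (nat_lit 485713), .ofNat (nat_lit 521427), .ofNat (nat_lit 438578), .ofNat (nat_lit 472567), .ofNat (nat_lit 481711), .ofNat (nat_lit 515700)⟩⟩, [⟨nat_lit 0, nat_lit 83, nat_lit 83, nat_lit 100, nat_lit 104489955⟩]⟩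
noncomputable def p070_l3 : Lf2 := ⟨nat_lit 0, nat_lit 5, [nat_lit 4, nat_lit 5, nat_lit 5, nat_lit 20], true, nat_lit 260, nat_lit 280, nat_lit 0, nat_lit 336, ⟨nat_lit 0, nat_lit 1000, nat_lit 0, nat_lit 7, nat_lit 169, nat_lit 1000, nat_lit 206, nat_lit 0, nat_lit 0, nat_lit 0, nat_lit 0, nat_lit 0, nat_lit 44204780, nat_lit 9636328, nat_lit 13158892, nat_lit 4693777, false, false⟩,
 nat_lit 0, nat_lit 0, nat_lit 0, nat_lit 0, nat_lit 4320, nat_lit 0, nat_lit 0, nat_lit 0, nat_lit 0, nat_lit 0, nat_lit 0, nat_lit 0, nat_lit 0, nat_lit 0, nat_lit 0, nat_lit 250000, nat_lit 0, nat_lit 0, [(nat_lit 15, [(nat_lit 0, nat_lit 1000)])],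
 ⟨p070_k2, nat_lit 0, nat_lit 0, nat_lit 41, nat_lit 0, nat_lit 0, [nat_lit 2318400000, nat_lit 2724800000], [], [nat_lit 18507632100, nat_lit 20080693400, nat_lit 18619401580, nat_lit 20002714760, nat_lit 19834096520, nat_lit 21324343120, nat_lit 19771261880, nat_lit 21192907920], nat_lit 0, nat_lit 0, nat_lit 0, nat_lit 0, nat_lit 0, nat_lit 0, [], [nat_lit 49, nat_lit 40, nat_lit 40, nat_lit 80, nat_lit 16, nat_lit 238, nat_lit 30, nat_lit 8]⟩, C1.Rw.none,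
 ⟨nat_lit 4472, nat_lit 5000, ⟨.ofNat (nat_lit 371392), .ofNat (nat_lit 442816), .ofNat (nat_lit 392808), .ofNat (nat_lit 464232), .ofNat (nat_lit 382295), .ofNat (nat_lit 450269), .ofNat (nat_lit 403849), .ofNat (nat_lit 471823)⟩, ⟨.ofNat (nat_lit 478570), .ofNat (nat_lit 514284), .ofNat (nat_lit 521427), .ofNat (nat_lit 557141), .ofNat (nat_lit 472567), .ofNat (nat_lit 506556), .ofNat (nat_lit 515700), .ofNat (nat_lit 549689)⟩⟩, [⟨nat_lit 0, nat_lit 100, nat_lit 94, nat_lit 97, nat_lit 126270278⟩]⟩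
noncomputable def p070_l4 : Lf2 := ⟨nat_lit 0, nat_lit 10, [nat_lit 0, nat_lit 5, nat_lit 5, nat_lit 20], true, nat_lit 260, nat_lit 280, nat_lit 0, nat_lit 336, ⟨nat_lit 0, nat_lit 1000, nat_lit 0, nat_lit 7, nat_lit 167, nat_lit 1000, nat_lit 206, nat_lit 0, nat_lit 0, nat_lit 0, nat_lit 0, nat_lit 0, nat_lit 44354442, nat_lit 9462352, nat_lit 13183206, nat_lit 4673647, false, false⟩,
 nat_lit 0, nat_lit 0, nat_lit 0, nat_lit 3504, nat_lit 4204, nat_lit 0, nat_lit 0, nat_lit 0, nat_lit 0, nat_lit 0, nat_lit 0, nat_lit 0, nat_lit 0, nat_lit 0, nat_lit 0, nat_lit 250000, nat_lit 0, nat_lit 0, [(nat_lit 15, [(nat_lit 0, nat_lit 1000)])],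
 ⟨p070_k0, nat_lit 0, nat_lit 0, nat_lit 62, nat_lit 0, nat_lit 0, [nat_lit 2318400000, nat_lit 2724800000, nat_lit 3082400000], [], [nat_lit 18576722928, nat_lit 20010308080, nat_lit 18712431376, nat_lit 20046095616, nat_lit 19769251616, nat_lit 21238640464, nat_lit 19850364136, nat_lit 21133492024], nat_lit 0, nat_lit 0, nat_lit 0, nat_lit 0, nat_lit 0, nat_lit 0, [], [nat_lit 18, nat_lit 40, nat_lit 40, nat_lit 80, nat_lit 2, nat_lit 238, nat_lit 30, nat_lit 7]⟩, C1.Rw.none,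
 ⟨nat_lit 4472, nat_lit 5000, ⟨.ofNat (nat_lit 371392), .ofNat (nat_lit 442816), .ofNat (nat_lit 382100), .ofNat (nat_lit 453524), .ofNat (nat_lit 382295), .ofNat (nat_lit 450269), .ofNat (nat_lit 393072), .ofNat (nat_lit 461045)⟩, ⟨.ofNat (nat_lit 478570), .ofNat (nat_lit 514284), .ofNat (nat_lit 521427), .ofNat (nat_lit 557141), .ofNat (nat_lit 472567), .ofNat (nat_lit 506556), .ofNat (nat_lit 515700), .ofNat (nat_lit 549689)⟩⟩, [⟨nat_lit 0, nat_lit 100, nat_lit 92, nat_lit 94, nat_lit 109570251⟩]⟩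
noncomputable def p070_l5 : Lf2 := ⟨nat_lit 0, nat_lit 10, [nat_lit 0, nat_lit 5, nat_lit 5, nat_lit 20], false, nat_lit 260, nat_lit 280, nat_lit 0, nat_lit 328, ⟨nat_lit 100, nat_lit 900, nat_lit 0, nat_lit 7, nat_lit 174, nat_lit 900, nat_lit 206, nat_lit 0, nat_lit 0, nat_lit 0, nat_lit 0, nat_lit 0, nat_lit 43859810, nat_lit 10038340, nat_lit 13101850, nat_lit 4738955, false, false⟩,
 nat_lit 0, nat_lit 0, nat_lit 1581, nat_lit 0, nat_lit 4317, nat_lit 1049, nat_lit 0, nat_lit 0, nat_lit 0, nat_lit 0, nat_lit 0, nat_lit 0, nat_lit 0, nat_lit 0, nat_lit 0, nat_lit 225000, nat_lit 0, nat_lit 0, [(nat_lit 15, [(nat_lit 0, nat_lit 900)])],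
 ⟨p070_k0, nat_lit 0, nat_lit 0, nat_lit 59, nat_lit 0, nat_lit 0, [nat_lit 2414760001, nat_lit 3077320000, nat_lit 3567060000], [], [nat_lit 18625340581, nat_lit 20063408239, nat_lit 18718167524, nat_lit 20069565419, nat_lit 19821331661, nat_lit 21295975598, nat_lit 19869667629, nat_lit 21191371302], nat_lit 0, nat_lit 0, nat_lit 0, nat_lit 0, nat_lit 0, nat_lit 0, [], [nat_lit 18, nat_lit 40, nat_lit 40, nat_lit 80, nat_lit 2, nat_lit 238, nat_lit 30, nat_lit 7]⟩, ⟨p070_k3, nat_lit 0, nat_lit 0, nat_lit 429, nat_lit 0, nat_lit 598492, [nat_lit 328200000, nat_lit 625000000, nat_lit 796800000], [], [nat_lit 3248360355, nat_lit 2976022122, nat_lit 2452674221, nat_lit 2564156724, nat_lit 2846398540, nat_lit 2862286382, nat_lit 3177689233, nat_lit 2946773387], nat_lit 1271250, nat_lit 1271250, nat_lit 545600, nat_lit 780000, nat_lit 0, nat_lit 2316500, [nat_lit 780000, nat_lit 1435000, nat_lit 1271250], [nat_lit 18,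 nat_lit 40, nat_lit 40, nat_lit 80, nat_lit 2, nat_lit 345, nat_lit 125, nat_lit 11]⟩,
 ⟨nat_lit 4472, nat_lit 5000, ⟨.ofNat (nat_lit 396385), .ofNat (nat_lit 453524), .ofNat (nat_lit 407093), .ofNat (nat_lit 464232), .ofNat (nat_lit 406666), .ofNat (nat_lit 461045), .ofNat (nat_lit 417444), .ofNat (nat_lit 471823)⟩, ⟨.ofNat (nat_lit 478570), .ofNat (nat_lit 514284), .ofNat (nat_lit 521427), .ofNat (nat_lit 557141), .ofNat (nat_lit 472567), .ofNat (nat_lit 506556), .ofNat (nat_lit 515700), .ofNat (nat_lit 549689)⟩⟩, [⟨nat_lit 0, nat_lit 100, nat_lit 95, nat_lit 100, nat_lit 144700239⟩, ⟨nat_lit 19, nat_lit 97, nat_lit 84, nat_lit 100, nat_lit 16214273⟩]⟩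
noncomputable def p070_l6 : Lf2 := ⟨nat_lit 0, nat_lit 10, [nat_lit 0, nat_lit 5, nat_lit 5, nat_lit 20], true, nat_lit 260, nat_lit 280, nat_lit 0, nat_lit 336, ⟨nat_lit 0, nat_lit 1000, nat_lit 0, nat_lit 7, nat_lit 197, nat_lit 1000, nat_lit 206, nat_lit 0, nat_lit 0, nat_lit 0, nat_lit 0, nat_lit 0, nat_lit 42241165, nat_lit 11942339, nat_lit 12816496, nat_lit 4929297, false, false⟩,
 nat_lit 0, nat_lit 0, nat_lit 0, nat_lit 1047, nat_lit 4320, nat_lit 0, nat_lit 0, nat_lit 0, nat_lit 0, nat_lit 0, nat_lit 0, nat_lit 0, nat_lit 0, nat_lit 0, nat_lit 0, nat_lit 250000, nat_lit 0, nat_lit 0, [(nat_lit 15, [(nat_lit 0, nat_lit 1000)])],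
 ⟨p070_k0, nat_lit 0, nat_lit 0, nat_lit 44, nat_lit 0, nat_lit 0, [nat_lit 2318400000, nat_lit 2724800000, nat_lit 3082400000], [], [nat_lit 18619401580, nat_lit 20002714760, nat_lit 19242838860, nat_lit 20517991840, nat_lit 19771261880, nat_lit 21192907920, nat_lit 20328621480, nat_lit 21641686080], nat_lit 0, nat_lit 0, nat_lit 0, nat_lit 0, nat_lit 0, nat_lit 0, [], [nat_lit 18, nat_lit 40, nat_lit 40, nat_lit 80, nat_lit 2, nat_lit 249, nat_lit 40, nat_lit 7]⟩, C1.Rw.none,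
 ⟨nat_lit 4472, nat_lit 5000, ⟨.ofNat (nat_lit 442816), .ofNat (nat_lit 514240), .ofNat (nat_lit 464232), .ofNat (nat_lit 535656), .ofNat (nat_lit 450269), .ofNat (nat_lit 518242), .ofNat (nat_lit 471823), .ofNat (nat_lit 539796)⟩, ⟨.ofNat (nat_lit 478570), .ofNat (nat_lit 514284), .ofNat (nat_lit 521427), .ofNat (nat_lit 557141), .ofNat (nat_lit 472567), .ofNat (nat_lit 506556), .ofNat (nat_lit 515700), .ofNat (nat_lit 549689)⟩⟩, []⟩
noncomputable def p070_l7 : Lf2 := ⟨nat_lit 0, nat_lit 10, [nat_lit 0, nat_lit 5, nat_lit 5, nat_lit 20], false, nat_lit 260, nat_lit 280, nat_lit 0, nat_lit 160, ⟨nat_lit 1000, nat_lit 0, nat_lit 0, nat_lit 0, nat_lit 0, nat_lit 0, nat_lit 0, nat_lit 0, nat_lit 0, nat_lit 0, nat_lit 0, nat_lit 0, nat_lit 0, nat_lit 0, nat_lit 0, nat_lit 0, false, false⟩,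
 nat_lit 0, nat_lit 0, nat_lit 10049, nat_lit 0, nat_lit 5089, nat_lit 6956, nat_lit 0, nat_lit 0, nat_lit 0, nat_lit 3781, nat_lit 0, nat_lit 0, nat_lit 0, nat_lit 0, nat_lit 0, nat_lit 0, nat_lit 0, nat_lit 0, [],
 ⟨p070_k4, nat_lit 0, nat_lit 0, nat_lit 36, nat_lit 0, nat_lit 0, [nat_lit 3282000000, nat_lit 7968000000], [], [nat_lit 18975468970, nat_lit 20486284395, nat_lit 19531476410, nat_lit 20915115252, nat_lit 20250942816, nat_lit 21739643479, nat_lit 20701121171, nat_lit 22014419864], nat_lit 0, nat_lit 0, nat_lit 0, nat_lit 0, nat_lit 0, nat_lit 0, [], [nat_lit 74, nat_lit 40, nat_lit 40, nat_lit 80, nat_lit 43, nat_lit 249, nat_lit 40, nat_lit 7]⟩, ⟨p070_k4, nat_lit 0, nat_lit 0, nat_lit 641, nat_lit 0, nat_lit 1075315, [nat_lit 3282000000, nat_lit 7968000000], [], [nat_lit 23734059239, nat_lit 22049456152, nat_lit 19216857120, nat_lit 21999635168, nat_lit 16966861592, nat_lit 17997446728, nat_lit 19521418503,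 nat_lit 18207773376], nat_lit 1271250, nat_lit 1271250, nat_lit 631250, nat_lit 1100001, nat_lit 0, nat_lit 1100001, [nat_lit 780000, nat_lit 1762500], [nat_lit 74, nat_lit 40, nat_lit 40, nat_lit 80, nat_lit 43, nat_lit 317, nat_lit 100, nat_lit 10]⟩,
 zbF0, [⟨nat_lit 0, nat_lit 91, nat_lit 91, nat_lit 100, nat_lit 569138907⟩, ⟨nat_lit 4, nat_lit 100, nat_lit 93, nat_lit 97, nat_lit 398684430⟩]⟩
noncomputable def p070_l8 : Lf2 := ⟨nat_lit 0, nat_lit 10, [nat_lit 0, nat_lit 5, nat_lit 5, nat_lit 20], false, nat_lit 260, nat_lit 280, nat_lit 160, nat_lit 320, ⟨nat_lit 162, nat_lit 838, nat_lit 0, nat_lit 7, nat_lit 198, nat_lit 838, nat_lit 206, nat_lit 0, nat_lit 0, nat_lit 0, nat_lit 0, nat_lit 0, nat_lit 42125935, nat_lit 12078948, nat_lit 12795117, nat_lit 4941549, false, false⟩,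
 nat_lit 0, nat_lit 0, nat_lit 1504, nat_lit 0, nat_lit 4372, nat_lit 1041, nat_lit 0, nat_lit 0, nat_lit 0, nat_lit 231, nat_lit 0, nat_lit 0, nat_lit 0, nat_lit 2993913721150, nat_lit 0, nat_lit 209500, nat_lit 0, nat_lit 0, [(nat_lit 15, [(nat_lit 0, nat_lit 838)])],
 ⟨p070_k0, nat_lit 0, nat_lit 0, nat_lit 53, nat_lit 0, nat_lit 0, [nat_lit 2474503200, nat_lit 3295882400, nat_lit 3867549200], [], [nat_lit 18680573036, nat_lit 20074822186, nat_lit 19353300906, nat_lit 20633991096, nat_lit 19866731268, nat_lit 21291152092, nat_lit 20444754308, nat_lit 21662952272], nat_lit 0, nat_lit 0, nat_lit 0, nat_lit 0, nat_lit 0, nat_lit 0, [], [nat_lit 18, nat_lit 40, nat_lit 40, nat_lit 80, nat_lit 2, nat_lit 249, nat_lit 40, nat_lit 7]⟩, ⟨p070_k0, nat_lit 0, nat_lit 0, nat_lit 548, nat_lit 0, nat_lit 1075315, [nat_lit 531684000, nat_lit 1012500000, nat_lit 1290816000], [], [nat_lit 3708613332, nat_lit 3652794483, nat_lit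 3527872173, nat_lit 3638383083, nat_lit 4039936974, nat_lit 4138782780, nat_lit 3987217269, nat_lit 4082541372], nat_lit 1271250, nat_lit 1271250, nat_lit 631250, nat_lit 1100001, nat_lit 1100001, nat_lit 2470000, [nat_lit 780000, nat_lit 1435000, nat_lit 1271250], [nat_lit 18, nat_lit 40, nat_lit 40, nat_lit 80, nat_lit 2, nat_lit 345, nat_lit 125, nat_lit 11]⟩,
 ⟨nat_lit 4472, nat_lit 5000, ⟨.ofNat (nat_lit 428520), .ofNat (nat_lit 535656), .ofNat (nat_lit 449936), .ofNat (nat_lit 557072), .ofNat (nat_lit 437835), .ofNat (nat_lit 539796), .ofNat (nat_lit 459390), .ofNat (nat_lit 561349)⟩, ⟨.ofNat (nat_lit 478570), .ofNat (nat_lit 514284), .ofNat (nat_lit 521427), .ofNat (nat_lit 557141), .ofNat (nat_lit 472567), .ofNat (nat_lit 506556), .ofNat (nat_lit 515700), .ofNat (nat_lit 549689)⟩⟩, [⟨nat_lit 0, nat_lit 91, nat_lit 91, nat_lit 100, nat_lit 174175693⟩, ⟨nat_lit 19, nat_lit 94, nat_lit 88, nat_lit 100, nat_lit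 49915717⟩]⟩
noncomputable def b_V_700_700_20_10 : St := ⟨true, nat_lit 0, nat_lit 1, nat_lit 1, nat_lit 120, nat_lit 300, nat_lit 320, nat_lit 280, nat_lit 320, nat_lit 80, nat_lit 160, nat_lit 80, nat_lit 120, nat_lit 240, nat_lit 280, nat_lit 0, nat_lit 336, nat_lit 0, nat_lit 40, nat_lit 0, nat_lit 0, nat_lit 0, nat_lit 0⟩
theorem d_V_700_700_20_10 (h : EB TB.env) : Dead b_V_700_700_20_10 := chkB_sound0 h (T :=
(.spl (nat_lit 4) (nat_lit 260)
(.leaf p070_l2)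
(.spl (nat_lit 1) (nat_lit 300)
(.spl (nat_lit 2) (nat_lit 120)
(.spl (nat_lit 6) (nat_lit 20)
(.leaf p070_l3)
(.spl (nat_lit 1) (nat_lit 290)
(.leaf p070_l4)
(.trZ (nat_lit 0) (nat_lit 100) (nat_lit 97) (nat_lit 94) (nat_lit 88) (.trX (nat_lit 19) (nat_lit 97) (nat_lit 84) (nat_lit 100) (nat_lit 328) (.leaf p070_l5)))))
(.leaf p070_l6))
(.trZ (nat_lit 0) (nat_lit 100) (nat_lit 100) (nat_lit 100) (nat_lit 100) (.trX (nat_lit 19) (nat_lit 94) (nat_lit 88) (nat_lit 100) (nat_lit 320) (.spl (nat_lit 5) (nat_lit 160)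
(.leaf p070_l7)
(.leaf p070_l8))))))) (by decide +kernel)
noncomputable def p070_l9 : Lf2 := ⟨nat_lit 0, nat_lit 10, [nat_lit 0, nat_lit 5, nat_lit 5, nat_lit 20], true, nat_lit 280, nat_lit 300, nat_lit 0, nat_lit 320, ⟨nat_lit 0, nat_lit 1000, nat_lit 0, nat_lit 7, nat_lit 167, nat_lit 1000, nat_lit 215, nat_lit 0, nat_lit 0, nat_lit 0, nat_lit 0, nat_lit 0, nat_lit 43580262, nat_lit 9371976, nat_lit 14047762, nat_lit 4744627, false, false⟩,
 nat_lit 0, nat_lit 0, nat_lit 0, nat_lit 2819, nat_lit 3175, nat_lit 0, nat_lit 0, nat_lit 0, nat_lit 0, nat_lit 0, nat_lit 0, nat_lit 0, nat_lit 0, nat_lit 0, nat_lit 0, nat_lit 250000, nat_lit 0, nat_lit 0, [(nat_lit 15, [(nat_lit 0, nat_lit 1000)])],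
 ⟨p070_k5, nat_lit 0, nat_lit 0, nat_lit 0, nat_lit 0, nat_lit 0, [nat_lit 1545600000, nat_lit 1881600001, nat_lit 2378000000, nat_lit 3078800000], [], [nat_lit 19243303600, nat_lit 20478398800, nat_lit 19509712700, nat_lit 20680098750, nat_lit 20350076075, nat_lit 21570855850, nat_lit 20569426300, nat_lit 21683082775], nat_lit 0, nat_lit 0, nat_lit 0, nat_lit 0, nat_lit 0, nat_lit 0, [], [nat_lit 154, nat_lit 40, nat_lit 40, nat_lit 80]⟩, C1.Rw.none,
 ⟨nat_lit 4472, nat_lit 5000, ⟨.ofNat (nat_lit 371392), .ofNat (nat_lit 442816), .ofNat (nat_lit 382100), .ofNat (nat_lit 453524), .ofNat (nat_lit 382295), .ofNat (nat_lit 450269), .ofNat (nat_lit 393072), .ofNat (nat_lit 461045)⟩, ⟨.ofNat (nat_lit 514284), .ofNat (nat_lit 549998), .ofNat (nat_lit 535713), .ofNat (nat_lit 571427), .ofNat (nat_lit 506556), .ofNat (nat_lit 540545), .ofNat (nat_lit 528122), .ofNat (nat_lit 562111)⟩⟩, [⟨nat_lit 0, nat_lit 100, nat_lit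 94, nat_lit 88, nat_lit 87627452⟩, ⟨nat_lit 16, nat_lit 100, nat_lit 100, nat_lit 100, nat_lit 3864047⟩]⟩
noncomputable def p070_l10 : Lf2 := ⟨nat_lit 0, nat_lit 10, [nat_lit 0, nat_lit 5, nat_lit 5, nat_lit 20], false, nat_lit 280, nat_lit 300, nat_lit 0, nat_lit 160, ⟨nat_lit 1000, nat_lit 0, nat_lit 0, nat_lit 0, nat_lit 0, nat_lit 0, nat_lit 0, nat_lit 0, nat_lit 0, nat_lit 0, nat_lit 0, nat_lit 0, nat_lit 0, nat_lit 0, nat_lit 0, nat_lit 0, false, false⟩,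
 nat_lit 0, nat_lit 0, nat_lit 10813, nat_lit 0, nat_lit 3798, nat_lit 7181, nat_lit 0, nat_lit 0, nat_lit 0, nat_lit 3446, nat_lit 0, nat_lit 0, nat_lit 0, nat_lit 0, nat_lit 0, nat_lit 0, nat_lit 0, nat_lit 0, [],
 ⟨p070_k5, nat_lit 0, nat_lit 0, nat_lit 0, nat_lit 0, nat_lit 0, [nat_lit 2032000001, nat_lit 3282000000, nat_lit 4688000000, nat_lit 7968000000], [], [nat_lit 19565749309, nat_lit 20936052212, nat_lit 19685362793, nat_lit 20952666461, nat_lit 20790050505, nat_lit 22100968234, nat_lit 20825488249, nat_lit 22051229662], nat_lit 0, nat_lit 0, nat_lit 0, nat_lit 0, nat_lit 0, nat_lit 0, [], [nat_lit 154, nat_lit 40, nat_lit 40, nat_lit 80]⟩, ⟨p070_k3, nat_lit 0, nat_lit 0, nat_lit 597, nat_lit 0, nat_lit 937421, [nat_lit 3282000000, nat_lit 6250000000, nat_lit 7968000000], [], [nat_lit 22120934642, nat_lit 20284181334, nat_lit 19096451825, nat_lit 19444748910, nat_lit 16433798056, nat_lit 16778193709,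 nat_lit 18291241798, nat_lit 16644020932], nat_lit 1271250, nat_lit 1271250, nat_lit 545600, nat_lit 780000, nat_lit 0, nat_lit 1100001, [nat_lit 780000, nat_lit 1435000, nat_lit 1271250], [nat_lit 18, nat_lit 40, nat_lit 40, nat_lit 80, nat_lit 2, nat_lit 289, nat_lit 75, nat_lit 10]⟩,
 zbF0, [⟨nat_lit 0, nat_lit 100, nat_lit 95, nat_lit 100, nat_lit 446051744⟩, ⟨nat_lit 4, nat_lit 100, nat_lit 91, nat_lit 91, nat_lit 858358642⟩]⟩
noncomputable def p070_l11 : Lf2 := ⟨nat_lit 0, nat_lit 10, [nat_lit 0, nat_lit 5, nat_lit 5, nat_lit 20], false, nat_lit 280, nat_lit 300, nat_lit 160, nat_lit 312, ⟨nat_lit 89, nat_lit 911, nat_lit 0, nat_lit 7, nat_lit 174, nat_lit 911, nat_lit 215, nat_lit 0, nat_lit 0, nat_lit 0, nat_lit 0, nat_lit 0, nat_lit 43101616, nat_lit 9940370, nat_lit 13958014, nat_lit 4808748, false, false⟩,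
 nat_lit 0, nat_lit 0, nat_lit 1148, nat_lit 0, nat_lit 3243, nat_lit 762, nat_lit 0, nat_lit 0, nat_lit 0, nat_lit 60, nat_lit 0, nat_lit 0, nat_lit 0, nat_lit 0, nat_lit 0, nat_lit 227750, nat_lit 0, nat_lit 0, [(nat_lit 15, [(nat_lit 0, nat_lit 911)])],
 ⟨p070_k5, nat_lit 0, nat_lit 0, nat_lit 0, nat_lit 0, nat_lit 0, [nat_lit 1588889601, nat_lit 2006235601, nat_lit 2583590000, nat_lit 3507379600], [], [nat_lit 19316163857, nat_lit 20551163042, nat_lit 19519084173, nat_lit 20700048711, nat_lit 20422810909, nat_lit 21643735147, nat_lit 20587574669, nat_lit 21710949500], nat_lit 0, nat_lit 0, nat_lit 0, nat_lit 0, nat_lit 0, nat_lit 0, [], [nat_lit 154, nat_lit 40, nat_lit 40, nat_lit 80]⟩, ⟨p070_k3, nat_lit 0, nat_lit 0, nat_lit 493, nat_lit 0, nat_lit 937421, [nat_lit 292098000, nat_lit 556250000, nat_lit 709152000], [], [nat_lit 1930474464, nat_lit 1970174895, nat_lit 1883221979, nat_lit 1921025306, nat_lit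 2212818276, nat_lit 2242240986, nat_lit 2439188709, nat_lit 2266208079], nat_lit 1271250, nat_lit 1271250, nat_lit 545600, nat_lit 780000, nat_lit 1100001, nat_lit 2401500, [nat_lit 780000, nat_lit 1435000, nat_lit 1271250], [nat_lit 18, nat_lit 40, nat_lit 40, nat_lit 80, nat_lit 2, nat_lit 345, nat_lit 125, nat_lit 11]⟩,
 ⟨nat_lit 4472, nat_lit 5000, ⟨.ofNat (nat_lit 396385), .ofNat (nat_lit 453524), .ofNat (nat_lit 407093), .ofNat (nat_lit 464232), .ofNat (nat_lit 406666), .ofNat (nat_lit 461045), .ofNat (nat_lit 417444), .ofNat (nat_lit 471823)⟩, ⟨.ofNat (nat_lit 514284), .ofNat (nat_lit 549998), .ofNat (nat_lit 535713), .ofNat (nat_lit 571427), .ofNat (nat_lit 506556), .ofNat (nat_lit 540545), .ofNat (nat_lit 528122), .ofNat (nat_lit 562111)⟩⟩, [⟨nat_lit 0, nat_lit 100, nat_lit 95, nat_lit 100, nat_lit 99908759⟩, ⟨nat_lit 16, nat_lit 100, nat_lit 100, nat_lit 100, nat_lit 8486020⟩, ⟨nat_lit 11, nat_lit 98,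 nat_lit 98, nat_lit 100, nat_lit 29341327⟩]⟩
noncomputable def p070_l12 : Lf2 := ⟨nat_lit 0, nat_lit 10, [nat_lit 0, nat_lit 5, nat_lit 5, nat_lit 20], false, nat_lit 280, nat_lit 300, nat_lit 0, nat_lit 320, ⟨nat_lit 57, nat_lit 943, nat_lit 0, nat_lit 7, nat_lit 197, nat_lit 943, nat_lit 215, nat_lit 0, nat_lit 0, nat_lit 0, nat_lit 0, nat_lit 0, nat_lit 41535154, nat_lit 11818952, nat_lit 13645894, nat_lit 4995650, false, false⟩,
 nat_lit 0, nat_lit 0, nat_lit 1045, nat_lit 0, nat_lit 3306, nat_lit 664, nat_lit 0, nat_lit 0, nat_lit 0, nat_lit 28, nat_lit 0, nat_lit 0, nat_lit 0, nat_lit 0, nat_lit 0, nat_lit 235750, nat_lit 0, nat_lit 0, [(nat_lit 15, [(nat_lit 0, nat_lit 943)])],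
 ⟨p070_k5, nat_lit 0, nat_lit 0, nat_lit 0, nat_lit 0, nat_lit 0, [nat_lit 1573324800, nat_lit 1961422801, nat_lit 2509670000, nat_lit 3353038400], [], [nat_lit 19472095224, nat_lit 20673531036, nat_lit 20135947262, nat_lit 21262434760, nat_lit 20548717256, nat_lit 21738431314, nat_lit 21155083505, nat_lit 22247909756], nat_lit 0, nat_lit 0, nat_lit 0, nat_lit 0, nat_lit 0, nat_lit 0, [], [nat_lit 154, nat_lit 40, nat_lit 40, nat_lit 80]⟩, ⟨p070_k6, nat_lit 0, nat_lit 0, nat_lit 669, nat_lit 0, nat_lit 996293, [nat_lit 187074000, nat_lit 356250000, nat_lit 560994000], [], [nat_lit 2010888380, nat_lit 1665091788, nat_lit 1480590504, nat_lit 1620924768, nat_lit 1821832804, nat_lit 1530733912, nat_lit 2158608200, nat_lit 1869209112], nat_lit 1271250, nat_lit 1271250, nat_lit 780000, nat_lit 1100001, nat_lit 0, nat_lit 2260000, [nat_lit 780000, nat_lit 1435000, nat_lit 1271250], [nat_lit 8, nat_lit 40, nat_lit 40,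 nat_lit 80, nat_lit 1, nat_lit 345, nat_lit 125, nat_lit 10]⟩,
 ⟨nat_lit 4472, nat_lit 5000, ⟨.ofNat (nat_lit 442816), .ofNat (nat_lit 514240), .ofNat (nat_lit 464232), .ofNat (nat_lit 535656), .ofNat (nat_lit 450269), .ofNat (nat_lit 518242), .ofNat (nat_lit 471823), .ofNat (nat_lit 539796)⟩, ⟨.ofNat (nat_lit 514284), .ofNat (nat_lit 549998), .ofNat (nat_lit 535713), .ofNat (nat_lit 571427), .ofNat (nat_lit 506556), .ofNat (nat_lit 540545), .ofNat (nat_lit 528122), .ofNat (nat_lit 562111)⟩⟩, [⟨nat_lit 16, nat_lit 100, nat_lit 100, nat_lit 100, nat_lit 51716206⟩, ⟨nat_lit 19, nat_lit 100, nat_lit 97, nat_lit 94, nat_lit 9028846⟩]⟩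
noncomputable def p070_l13 : Lf2 := ⟨nat_lit 0, nat_lit 10, [nat_lit 0, nat_lit 5, nat_lit 5, nat_lit 20], false, nat_lit 280, nat_lit 300, nat_lit 0, nat_lit 300, ⟨nat_lit 113, nat_lit 887, nat_lit 0, nat_lit 7, nat_lit 196, nat_lit 887, nat_lit 216, nat_lit 0, nat_lit 0, nat_lit 0, nat_lit 0, nat_lit 0, nat_lit 41553621, nat_lit 11709110, nat_lit 13737269, nat_lit 4992389, false, false⟩,
 nat_lit 0, nat_lit 0, nat_lit 1356, nat_lit 0, nat_lit 3287, nat_lit 938, nat_lit 0, nat_lit 0, nat_lit 0, nat_lit 135, nat_lit 0, nat_lit 0, nat_lit 0, nat_lit 10341783405056, nat_lit 0, nat_lit 221750, nat_lit 0, nat_lit 0, [(nat_lit 15, [(nat_lit 0, nat_lit 887)])],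
 ⟨p070_k5, nat_lit 0, nat_lit 0, nat_lit 0, nat_lit 0, nat_lit 0, [nat_lit 1600563200, nat_lit 2039845201, nat_lit 2639030000, nat_lit 3624893200], [], [nat_lit 19386113366, nat_lit 19993750180, nat_lit 20174296349, nat_lit 20736186985, nat_lit 20484336908, nat_lit 21090843109, nat_lit 21191199798, nat_lit 21726127953], nat_lit 0, nat_lit 0, nat_lit 0, nat_lit 0, nat_lit 0, nat_lit 0, [], [nat_lit 154, nat_lit 40, nat_lit 40, nat_lit 80]⟩, ⟨p070_k0, nat_lit 0, nat_lit 0, nat_lit 550, nat_lit 0, nat_lit 864027, [nat_lit 370866000, nat_lit 706250000, nat_lit 900384000], [], [nat_lit 2622748190, nat_lit 2526672901, nat_lit 2325075600, nat_lit 2503229712, nat_lit 2749821672, nat_lit 2765400977, nat_lit 3473117706, nat_lit 3269949955], nat_lit 1271250, nat_lit 1271250, nat_lit 631250, nat_lit 1100001, nat_lit 0, nat_lit 2118750, [nat_lit 780000, nat_lit 1435000, nat_lit 1271250], [nat_lit 18, nat_lit 40, nat_lit 40,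 nat_lit 80, nat_lit 2, nat_lit 345, nat_lit 125, nat_lit 11]⟩,
 ⟨nat_lit 4743, nat_lit 5000, ⟨.ofNat (nat_lit 428561), .ofNat (nat_lit 535701), .ofNat (nat_lit 439274), .ofNat (nat_lit 546414), .ofNat (nat_lit 433181), .ofNat (nat_lit 537728), .ofNat (nat_lit 443923), .ofNat (nat_lit 548471)⟩, ⟨.ofNat (nat_lit 514284), .ofNat (nat_lit 549998), .ofNat (nat_lit 535713), .ofNat (nat_lit 571427), .ofNat (nat_lit 510469), .ofNat (nat_lit 545319), .ofNat (nat_lit 531957), .ofNat (nat_lit 566807)⟩⟩, [⟨nat_lit 0, nat_lit 95, nat_lit 95, nat_lit 100, nat_lit 45865077⟩, ⟨nat_lit 16, nat_lit 100, nat_lit 100, nat_lit 100, nat_lit 271324082⟩, ⟨nat_lit 19, nat_lit 100, nat_lit 100, nat_lit 100, nat_lit 22616272⟩]⟩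
noncomputable def p070_l14 : Lf2 := ⟨nat_lit 0, nat_lit 10, [nat_lit 0, nat_lit 5, nat_lit 5, nat_lit 20], false, nat_lit 280, nat_lit 292, nat_lit 0, nat_lit 300, ⟨nat_lit 115, nat_lit 885, nat_lit 0, nat_lit 7, nat_lit 202, nat_lit 885, nat_lit 212, nat_lit 0, nat_lit 0, nat_lit 0, nat_lit 0, nat_lit 0, nat_lit 41446249, nat_lit 12288699, nat_lit 13265052, nat_lit 5008814, false, false⟩,
 nat_lit 0, nat_lit 0, nat_lit 1220, nat_lit 0, nat_lit 3297, nat_lit 844, nat_lit 0, nat_lit 0, nat_lit 0, nat_lit 107, nat_lit 0, nat_lit 0, nat_lit 0, nat_lit 6738164854982, nat_lit 0, nat_lit 221250, nat_lit 0, nat_lit 0, [(nat_lit 15, [(nat_lit 0, nat_lit 885)])],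
 ⟨p070_k7, nat_lit 0, nat_lit 0, nat_lit 0, nat_lit 0, nat_lit 0, [nat_lit 1601536000, nat_lit 2042646001, nat_lit 2643650000, nat_lit 3634686000], [], [nat_lit 20034678284, nat_lit 20638805133, nat_lit 20732024220, nat_lit 21294627020, nat_lit 20670800526, nat_lit 21285138181, nat_lit 21326658819, nat_lit 21873049057], nat_lit 0, nat_lit 0, nat_lit 0, nat_lit 0, nat_lit 0, nat_lit 0, [], [nat_lit 154, nat_lit 40, nat_lit 40, nat_lit 80]⟩, ⟨p070_k0, nat_lit 0, nat_lit 0, nat_lit 635, nat_lit 0, nat_lit 1045600, [nat_lit 377430000, nat_lit 718750000, nat_lit 916320000], [], [nat_lit 3652103416, nat_lit 3210551312, nat_lit 2683809779, nat_lit 2818982039, nat_lit 3196739140, nat_lit 2825661674, nat_lit 3798558964, nat_lit 3428353978], nat_lit 1271250, nat_lit 1271250, nat_lit 689850, nat_lit 1100001, nat_lit 0, nat_lit 2118750, [nat_lit 780000, nat_lit 1435000, nat_lit 1271250], [nat_lit 18, nat_lit 40, nat_lit 40,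 nat_lit 80, nat_lit 2, nat_lit 345, nat_lit 125, nat_lit 11]⟩,
 ⟨nat_lit 4472, nat_lit 4744, ⟨.ofNat (nat_lit 447115), .ofNat (nat_lit 537724), .ofNat (nat_lit 468600), .ofNat (nat_lit 559209), .ofNat (nat_lit 451467), .ofNat (nat_lit 539838), .ofNat (nat_lit 473029), .ofNat (nat_lit 561401)⟩, ⟨.ofNat (nat_lit 510469), .ofNat (nat_lit 531379), .ofNat (nat_lit 531957), .ofNat (nat_lit 552867), .ofNat (nat_lit 506556), .ofNat (nat_lit 526949), .ofNat (nat_lit 528122), .ofNat (nat_lit 548516)⟩⟩, [⟨nat_lit 0, nat_lit 90, nat_lit 88, nat_lit 100, nat_lit 46176101⟩, ⟨nat_lit 16, nat_lit 93, nat_lit 100, nat_lit 97, nat_lit 279486938⟩, ⟨nat_lit 7, nat_lit 100, nat_lit 91, nat_lit 91, nat_lit 16033618⟩]⟩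
noncomputable def b_V_700_700_20_11 : St := ⟨true, nat_lit 0, nat_lit 1, nat_lit 1, nat_lit 120, nat_lit 300, nat_lit 320, nat_lit 280, nat_lit 320, nat_lit 80, nat_lit 160, nat_lit 80, nat_lit 100, nat_lit 280, nat_lit 320, nat_lit 0, nat_lit 336, nat_lit 0, nat_lit 40, nat_lit 300, nat_lit 460, nat_lit 0, nat_lit 0⟩
theorem d_V_700_700_20_11 (h : EB TB.env) : Dead b_V_700_700_20_11 := chkB_sound0 h (T :=
(.trX (nat_lit 16) (nat_lit 100) (nat_lit 100) (nat_lit 100) (nat_lit 300) (.trX (nat_lit 19) (nat_lit 100) (nat_lit 88) (nat_lit 94) (nat_lit 320) (.spl (nat_lit 1) (nat_lit 300)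
(.spl (nat_lit 2) (nat_lit 120)
(.spl (nat_lit 1) (nat_lit 290)
(.leaf p070_l9)
(.trZ (nat_lit 0) (nat_lit 100) (nat_lit 97) (nat_lit 94) (nat_lit 88) (.trX (nat_lit 19) (nat_lit 100) (nat_lit 94) (nat_lit 97) (nat_lit 312) (.spl (nat_lit 5) (nat_lit 160)
(.leaf p070_l10)
(.leaf p070_l11)))))
(.leaf p070_l12))
(.trZ (nat_lit 0) (nat_lit 100) (nat_lit 100) (nat_lit 100) (nat_lit 100) (.trX (nat_lit 19) (nat_lit 100) (nat_lit 100) (nat_lit 100) (nat_lit 300) (.spl (nat_lit 0) (nat_lit 310)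
(.ord (.leaf p070_l13))
(.trZ (nat_lit 0) (nat_lit 97) (nat_lit 93) (nat_lit 100) (nat_lit 108) (.trX (nat_lit 16) (nat_lit 93) (nat_lit 100) (nat_lit 97) (nat_lit 292) (.leaf p070_l14)))))))))) (by decide +kernel)
noncomputable def p070_l15 : Lf2 := ⟨nat_lit 0, nat_lit 10, [nat_lit 0, nat_lit 5, nat_lit 5, nat_lit 20], false, nat_lit 280, nat_lit 300, nat_lit 0, nat_lit 160, ⟨nat_lit 76, nat_lit 924, nat_lit 0, nat_lit 7, nat_lit 170, nat_lit 924, nat_lit 225, nat_lit 0, nat_lit 0, nat_lit 0, nat_lit 0, nat_lit 0, nat_lit 42601945, nat_lit 9545463, nat_lit 14852592, nat_lit 4838753, false, false⟩,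
 nat_lit 0, nat_lit 0, nat_lit 1231, nat_lit 0, nat_lit 3283, nat_lit 783, nat_lit 0, nat_lit 0, nat_lit 0, nat_lit 96, nat_lit 0, nat_lit 0, nat_lit 0, nat_lit 3896377873665, nat_lit 0, nat_lit 231000, nat_lit 0, nat_lit 0, [(nat_lit 15, [(nat_lit 0, nat_lit 924)])],
 ⟨p070_k5, nat_lit 0, nat_lit 0, nat_lit 0, nat_lit 0, nat_lit 0, [nat_lit 1582566400, nat_lit 1988030401, nat_lit 2553560000, nat_lit 3444451200], [], [nat_lit 19252094788, nat_lit 19905142858, nat_lit 19492809132, nat_lit 20086402721, nat_lit 20426321386, nat_lit 21045615166, nat_lit 20566462508, nat_lit 21131008264], nat_lit 0, nat_lit 0, nat_lit 0, nat_lit 0, nat_lit 0, nat_lit 0, [], [nat_lit 154, nat_lit 40, nat_lit 40, nat_lit 80]⟩, ⟨p070_k6, nat_lit 0, nat_lit 0, nat_lit 625, nat_lit 0, nat_lit 844562, [nat_lit 249432000, nat_lit 475000000, nat_lit 747992000], [], [nat_lit 2043489576, nat_lit 1972142980, nat_lit 1748179652, nat_lit 1860013839,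 nat_lit 1392566632, nat_lit 1483497487, nat_lit 1419671800, nat_lit 1407697658], nat_lit 1271250, nat_lit 1271250, nat_lit 490000, nat_lit 780000, nat_lit 0, nat_lit 1100001, [nat_lit 780000, nat_lit 1435000, nat_lit 1271250], [nat_lit 8, nat_lit 40, nat_lit 40, nat_lit 80, nat_lit 1, nat_lit 289, nat_lit 75, nat_lit 8]⟩,
 ⟨nat_lit 4743, nat_lit 5000, ⟨.ofNat (nat_lit 371422), .ofNat (nat_lit 442849), .ofNat (nat_lit 403560), .ofNat (nat_lit 474987), .ofNat (nat_lit 376847), .ofNat (nat_lit 446544), .ofNat (nat_lit 409074), .ofNat (nat_lit 478772)⟩, ⟨.ofNat (nat_lit 535713), .ofNat (nat_lit 571427), .ofNat (nat_lit 557141), .ofNat (nat_lit 592856), .ofNat (nat_lit 531957), .ofNat (nat_lit 566807), .ofNat (nat_lit 553445), .ofNat (nat_lit 588295)⟩⟩, [⟨nat_lit 0, nat_lit 100, nat_lit 97, nat_lit 98, nat_lit 84467695⟩, ⟨nat_lit 0, nat_lit 91, nat_lit 91, nat_lit 100, nat_lit 67322118⟩, ⟨nat_lit 6, nat_lit 100, nat_lit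 91, nat_lit 19, nat_lit 3088219⟩]⟩
noncomputable def p070_l16 : Lf2 := ⟨nat_lit 0, nat_lit 10, [nat_lit 0, nat_lit 5, nat_lit 5, nat_lit 20], false, nat_lit 280, nat_lit 300, nat_lit 0, nat_lit 160, ⟨nat_lit 70, nat_lit 930, nat_lit 0, nat_lit 7, nat_lit 177, nat_lit 930, nat_lit 223, nat_lit 0, nat_lit 0, nat_lit 0, nat_lit 0, nat_lit 0, nat_lit 42289458, nat_lit 10102103, nat_lit 14608439, nat_lit 4886989, false, false⟩,
 nat_lit 0, nat_lit 0, nat_lit 1110, nat_lit 0, nat_lit 3280, nat_lit 706, nat_lit 0, nat_lit 0, nat_lit 0, nat_lit 86, nat_lit 0, nat_lit 0, nat_lit 0, nat_lit 0, nat_lit 0, nat_lit 232500, nat_lit 0, nat_lit 0, [(nat_lit 15, [(nat_lit 0, nat_lit 930)])],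
 ⟨p070_k7, nat_lit 0, nat_lit 0, nat_lit 0, nat_lit 0, nat_lit 0, [nat_lit 1579648001, nat_lit 1979628001, nat_lit 2539700000, nat_lit 3415584000], [], [nat_lit 19929685385, nat_lit 20576822320, nat_lit 20084747361, nat_lit 20678107601, nat_lit 21060396805, nat_lit 21674217352, nat_lit 21128996780, nat_lit 21721901320], nat_lit 0, nat_lit 0, nat_lit 0, nat_lit 0, nat_lit 0, nat_lit 0, [], [nat_lit 154, nat_lit 40, nat_lit 40, nat_lit 80]⟩, ⟨p070_k6, nat_lit 0, nat_lit 0, nat_lit 725, nat_lit 0, nat_lit 1047270, [nat_lit 229740000, nat_lit 437500000, nat_lit 688940000], [], [nat_lit 1746007709, nat_lit 1912770852, nat_lit 1667688664, nat_lit 1813931120, nat_lit 1337388781, nat_lit 1446558817, nat_lit 1340587008, nat_lit 1391196512], nat_lit 1271250, nat_lit 1271250, nat_lit 545600, nat_lit 780000, nat_lit 0, nat_lit 1100001, [nat_lit 780000, nat_lit 1435000, nat_lit 1271250], [nat_lit 8, nat_lit 40, nat_lit 40,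 nat_lit 80, nat_lit 1, nat_lit 289, nat_lit 75, nat_lit 8]⟩,
 ⟨nat_lit 4472, nat_lit 4744, ⟨.ofNat (nat_lit 390781), .ofNat (nat_lit 446540), .ofNat (nat_lit 433750), .ofNat (nat_lit 489510), .ofNat (nat_lit 395915), .ofNat (nat_lit 450297), .ofNat (nat_lit 439041), .ofNat (nat_lit 493423)⟩, ⟨.ofNat (nat_lit 531957), .ofNat (nat_lit 566807), .ofNat (nat_lit 553445), .ofNat (nat_lit 588295), .ofNat (nat_lit 528122), .ofNat (nat_lit 562111), .ofNat (nat_lit 549689), .ofNat (nat_lit 583678)⟩⟩, [⟨nat_lit 0, nat_lit 95, nat_lit 90, nat_lit 100, nat_lit 342812761⟩, ⟨nat_lit 6, nat_lit 100, nat_lit 87, nat_lit 25, nat_lit 146030⟩]⟩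
noncomputable def p070_l17 : Lf2 := ⟨nat_lit 0, nat_lit 10, [nat_lit 0, nat_lit 5, nat_lit 5, nat_lit 20], false, nat_lit 280, nat_lit 300, nat_lit 160, nat_lit 320, ⟨nat_lit 178, nat_lit 822, nat_lit 0, nat_lit 7, nat_lit 160, nat_lit 822, nat_lit 224, nat_lit 0, nat_lit 0, nat_lit 0, nat_lit 0, nat_lit 0, nat_lit 43343705, nat_lit 8741277, nat_lit 14915018, nat_lit 4737860, false, false⟩,
 nat_lit 0, nat_lit 0, nat_lit 2767, nat_lit 0, nat_lit 3247, nat_lit 1760, nat_lit 0, nat_lit 0, nat_lit 0, nat_lit 148, nat_lit 0, nat_lit 0, nat_lit 0, nat_lit 0, nat_lit 0, nat_lit 205500, nat_lit 0, nat_lit 0, [(nat_lit 15, [(nat_lit 0, nat_lit 822)])],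
 ⟨p070_k5, nat_lit 0, nat_lit 0, nat_lit 0, nat_lit 0, nat_lit 0, [nat_lit 1632179201, nat_lit 2130871201, nat_lit 2789180000, nat_lit 3943159200], [], [nat_lit 19307478705, nat_lit 20543555639, nat_lit 19433928647, nat_lit 20642760515, nat_lit 20424218644, nat_lit 21633557914, nat_lit 20526802009, nat_lit 21676079758], nat_lit 0, nat_lit 0, nat_lit 0, nat_lit 0, nat_lit 0, nat_lit 0, [], [nat_lit 154, nat_lit 40, nat_lit 40, nat_lit 80]⟩, ⟨p070_k6, nat_lit 0, nat_lit 0, nat_lit 304, nat_lit 0, nat_lit 429017, [nat_lit 584196000, nat_lit 1112500000, nat_lit 1751876000], [], [nat_lit 3144037132, nat_lit 3283032756, nat_lit 3069428660, nat_lit 3204445883, nat_lit 4615366536, nat_lit 4664565102, nat_lit 4902897816, nat_lit 4539608293], nat_lit 1271250, nat_lit 1271250, nat_lit 490000, nat_lit 631250, nat_lit 1100001, nat_lit 2470000, [nat_lit 780000, nat_lit 1435000, nat_lit 1271250], [nat_lit 8, nat_lit 40, nat_lit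 40, nat_lit 80, nat_lit 1, nat_lit 345, nat_lit 125, nat_lit 9]⟩,
 ⟨nat_lit 4472, nat_lit 5000, ⟨.ofNat (nat_lit 371392), .ofNat (nat_lit 407104), .ofNat (nat_lit 382100), .ofNat (nat_lit 417812), .ofNat (nat_lit 382295), .ofNat (nat_lit 416281), .ofNat (nat_lit 393072), .ofNat (nat_lit 427059)⟩, ⟨.ofNat (nat_lit 535713), .ofNat (nat_lit 571427), .ofNat (nat_lit 557141), .ofNat (nat_lit 592856), .ofNat (nat_lit 528122), .ofNat (nat_lit 562111), .ofNat (nat_lit 549689), .ofNat (nat_lit 583678)⟩⟩, [⟨nat_lit 0, nat_lit 100, nat_lit 92, nat_lit 94, nat_lit 108416025⟩, ⟨nat_lit 11, nat_lit 100, nat_lit 100, nat_lit 95, nat_lit 87530279⟩]⟩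
noncomputable def p070_l18 : Lf2 := ⟨nat_lit 0, nat_lit 10, [nat_lit 0, nat_lit 5, nat_lit 5, nat_lit 20], true, nat_lit 280, nat_lit 300, nat_lit 160, nat_lit 336, ⟨nat_lit 0, nat_lit 1000, nat_lit 0, nat_lit 7, nat_lit 174, nat_lit 1000, nat_lit 224, nat_lit 0, nat_lit 0, nat_lit 0, nat_lit 0, nat_lit 0, nat_lit 42433222, nat_lit 9839828, nat_lit 14726950, nat_lit 4864999, false, false⟩,
 nat_lit 0, nat_lit 0, nat_lit 0, nat_lit 2820, nat_lit 3158, nat_lit 0, nat_lit 0, nat_lit 0, nat_lit 0, nat_lit 0, nat_lit 0, nat_lit 0, nat_lit 0, nat_lit 0, nat_lit 0, nat_lit 250000, nat_lit 0, nat_lit 0, [(nat_lit 15, [(nat_lit 0, nat_lit 1000)])],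
 ⟨p070_k5, nat_lit 0, nat_lit 0, nat_lit 0, nat_lit 0, nat_lit 0, [nat_lit 1545600000, nat_lit 1881600001, nat_lit 2378000000, nat_lit 3078800000], [], [nat_lit 19383392844, nat_lit 20577891796, nat_lit 19518192232, nat_lit 20685933660, nat_lit 20464362055, nat_lit 21600471498, nat_lit 20575711608, nat_lit 21686938494], nat_lit 0, nat_lit 0, nat_lit 0, nat_lit 0, nat_lit 0, nat_lit 0, [], [nat_lit 154, nat_lit 40, nat_lit 40, nat_lit 80]⟩, C1.Rw.none,
 ⟨nat_lit 4472, nat_lit 5000, ⟨.ofNat (nat_lit 407104), .ofNat (nat_lit 442816), .ofNat (nat_lit 417812), .ofNat (nat_lit 453524), .ofNat (nat_lit 416281), .ofNat (nat_lit 450269), .ofNat (nat_lit 427059), .ofNat (nat_lit 461045)⟩, ⟨.ofNat (nat_lit 535713), .ofNat (nat_lit 571427), .ofNat (nat_lit 557141), .ofNat (nat_lit 592856), .ofNat (nat_lit 528122), .ofNat (nat_lit 562111), .ofNat (nat_lit 549689), .ofNat (nat_lit 583678)⟩⟩, [⟨nat_lit 0, nat_lit 100, nat_lit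 92, nat_lit 94, nat_lit 15189282⟩]⟩
noncomputable def p070_l19 : Lf2 := ⟨nat_lit 0, nat_lit 10, [nat_lit 0, nat_lit 5, nat_lit 5, nat_lit 20], false, nat_lit 280, nat_lit 300, nat_lit 160, nat_lit 328, ⟨nat_lit 178, nat_lit 822, nat_lit 0, nat_lit 7, nat_lit 173, nat_lit 822, nat_lit 225, nat_lit 0, nat_lit 0, nat_lit 0, nat_lit 0, nat_lit 0, nat_lit 42417280, nat_lit 9769394, nat_lit 14813326, nat_lit 4863661, false, false⟩,
 nat_lit 0, nat_lit 0, nat_lit 1763, nat_lit 0, nat_lit 2860, nat_lit 1170, nat_lit 0, nat_lit 0, nat_lit 0, nat_lit 230, nat_lit 0, nat_lit 0, nat_lit 0, nat_lit 0, nat_lit 0, nat_lit 205500, nat_lit 0, nat_lit 0, [(nat_lit 15, [(nat_lit 0, nat_lit 822)])],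
 ⟨p070_k8, nat_lit 0, nat_lit 0, nat_lit 0, nat_lit 0, nat_lit 0, [nat_lit 1213721400, nat_lit 1810650201, nat_lit 2483680601, nat_lit 3655704601, nat_lit 3943159200], [], [nat_lit 18918076600, nat_lit 19516824200, nat_lit 19212015800, nat_lit 19789687320, nat_lit 20021635560, nat_lit 20609036720, nat_lit 20277758360, nat_lit 20827853720], nat_lit 0, nat_lit 0, nat_lit 0, nat_lit 0, nat_lit 0, nat_lit 0, [], [nat_lit 259, nat_lit 10, nat_lit 4, nat_lit 20]⟩, ⟨p070_k9, nat_lit 0, nat_lit 0, nat_lit 377, nat_lit 0, nat_lit 707879, [nat_lit 584196000, nat_lit 834464000, nat_lit 1418304000], [], [nat_lit 3657782970, nat_lit 3545588140, nat_lit 3428069184, nat_lit 3518664642, nat_lit 4380782776, nat_lit 4463332359, nat_lit 4702137008, nat_lit 4434444051], nat_lit 1271250, nat_lit 1271250, nat_lit 545600, nat_lit 780000, nat_lit 1100001, nat_lit 2538500, [nat_lit 780000, nat_lit 1100000, nat_lit 1785000], [nat_lit 36,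 nat_lit 40, nat_lit 40, nat_lit 80, nat_lit 7, nat_lit 345, nat_lit 125, nat_lit 11]⟩,
 ⟨nat_lit 4743, nat_lit 5000, ⟨.ofNat (nat_lit 396420), .ofNat (nat_lit 453562), .ofNat (nat_lit 407133), .ofNat (nat_lit 464274), .ofNat (nat_lit 401529), .ofNat (nat_lit 457287), .ofNat (nat_lit 412272), .ofNat (nat_lit 468029)⟩, ⟨.ofNat (nat_lit 535713), .ofNat (nat_lit 571427), .ofNat (nat_lit 557141), .ofNat (nat_lit 592856), .ofNat (nat_lit 531957), .ofNat (nat_lit 566807), .ofNat (nat_lit 553445), .ofNat (nat_lit 588295)⟩⟩, [⟨nat_lit 0, nat_lit 100, nat_lit 97, nat_lit 98, nat_lit 91201452⟩, ⟨nat_lit 11, nat_lit 98, nat_lit 98, nat_lit 100, nat_lit 68956653⟩]⟩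
noncomputable def p070_l20 : Lf2 := ⟨nat_lit 0, nat_lit 10, [nat_lit 0, nat_lit 5, nat_lit 5, nat_lit 20], false, nat_lit 280, nat_lit 300, nat_lit 160, nat_lit 328, ⟨nat_lit 140, nat_lit 860, nat_lit 0, nat_lit 7, nat_lit 179, nat_lit 860, nat_lit 223, nat_lit 0, nat_lit 0, nat_lit 0, nat_lit 0, nat_lit 0, nat_lit 42158606, nat_lit 10260856, nat_lit 14580538, nat_lit 4903751, false, false⟩,
 nat_lit 0, nat_lit 0, nat_lit 1437, nat_lit 0, nat_lit 3745, nat_lit 954, nat_lit 0, nat_lit 0, nat_lit 0, nat_lit 174, nat_lit 0, nat_lit 0, nat_lit 0, nat_lit 0, nat_lit 0, nat_lit 215000, nat_lit 0, nat_lit 0, [(nat_lit 15, [(nat_lit 0, nat_lit 860)])],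
 ⟨p070_k10, nat_lit 0, nat_lit 0, nat_lit 0, nat_lit 0, nat_lit 0, [nat_lit 2030770000, nat_lit 2415178001, nat_lit 3489626000], [], [nat_lit 20091596120, nat_lit 20723385760, nat_lit 20226047295, nat_lit 20842422880, nat_lit 21258146168, nat_lit 21901778550, nat_lit 21364992050, nat_lit 21950098830], nat_lit 0, nat_lit 0, nat_lit 0, nat_lit 0, nat_lit 0, nat_lit 0, [], [nat_lit 210, nat_lit 40, nat_lit 20, nat_lit 40]⟩, ⟨p070_k9, nat_lit 0, nat_lit 0, nat_lit 411, nat_lit 0, nat_lit 813649, [nat_lit 459480000, nat_lit 656320000, nat_lit 1115520000], [], [nat_lit 2864541484, nat_lit 2925837816, nat_lit 2847302458, nat_lit 2906880008, nat_lit 3439125277, nat_lit 3506629096, nat_lit 3643476207, nat_lit 3450311451], nat_lit 1271250, nat_lit 1271250, nat_lit 631250, nat_lit 780000, nat_lit 1100001, nat_lit 2538500, [nat_lit 780000, nat_lit 1100000, nat_lit 1785000], [nat_lit 36, nat_lit 40, nat_lit 40, nat_lit 80,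 nat_lit 7, nat_lit 345, nat_lit 125, nat_lit 11]⟩,
 ⟨nat_lit 4472, nat_lit 4744, ⟨.ofNat (nat_lit 422433), .ofNat (nat_lit 457283), .ofNat (nat_lit 433175), .ofNat (nat_lit 468025), .ofNat (nat_lit 427090), .ofNat (nat_lit 461079), .ofNat (nat_lit 437871), .ofNat (nat_lit 471860)⟩, ⟨.ofNat (nat_lit 531957), .ofNat (nat_lit 566807), .ofNat (nat_lit 553445), .ofNat (nat_lit 588295), .ofNat (nat_lit 528122), .ofNat (nat_lit 562111), .ofNat (nat_lit 549689), .ofNat (nat_lit 583678)⟩⟩, [⟨nat_lit 0, nat_lit 98, nat_lit 91, nat_lit 100, nat_lit 123958740⟩, ⟨nat_lit 11, nat_lit 95, nat_lit 95, nat_lit 100, nat_lit 50281928⟩]⟩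
noncomputable def p070_l21 : Lf2 := ⟨nat_lit 0, nat_lit 5, [nat_lit 4, nat_lit 5, nat_lit 5, nat_lit 20], false, nat_lit 280, nat_lit 300, nat_lit 160, nat_lit 320, ⟨nat_lit 103, nat_lit 897, nat_lit 0, nat_lit 7, nat_lit 182, nat_lit 897, nat_lit 225, nat_lit 0, nat_lit 0, nat_lit 0, nat_lit 0, nat_lit 0, nat_lit 41856986, nat_lit 10451322, nat_lit 14691692, nat_lit 4936029, false, false⟩,
 nat_lit 0, nat_lit 0, nat_lit 1028, nat_lit 0, nat_lit 3281, nat_lit 711, nat_lit 0, nat_lit 0, nat_lit 0, nat_lit 103, nat_lit 0, nat_lit 0, nat_lit 0, nat_lit 3607988492051, nat_lit 0, nat_lit 224250, nat_lit 0, nat_lit 0, [(nat_lit 15, [(nat_lit 0, nat_lit 897)])],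
 ⟨p070_k11, nat_lit 0, nat_lit 0, nat_lit 0, nat_lit 0, nat_lit 0, [nat_lit 1595699200, nat_lit 2025841201, nat_lit 2589020000, nat_lit 3087895600], [], [nat_lit 19383679258, nat_lit 19990832940, nat_lit 19506939524, nat_lit 20100377547, nat_lit 20481100273, nat_lit 21086796269, nat_lit 20580334756, nat_lit 21144737595], nat_lit 0, nat_lit 0, nat_lit 0, nat_lit 0, nat_lit 0, nat_lit 0, [], [nat_lit 127, nat_lit 40, nat_lit 40, nat_lit 80]⟩, ⟨p070_k2, nat_lit 0, nat_lit 0, nat_lit 326, nat_lit 0, nat_lit 728099, [nat_lit 338046000, nat_lit 643750000], [], [nat_lit 1923993766, nat_lit 1983680676, nat_lit 1915046998, nat_lit 1973064614, nat_lit 2715570419, nat_lit 2588934488, nat_lit 2875833729, nat_lit 2714860485], nat_lit 1271250, nat_lit 1271250, nat_lit 631250, nat_lit 780000, nat_lit 1100001, nat_lit 2470000, [nat_lit 780000, nat_lit 1435000], [nat_lit 49, nat_lit 40, nat_lit 40, nat_lit 80, nat_lit 16, nat_lit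 345, nat_lit 125, nat_lit 12]⟩,
 ⟨nat_lit 4743, nat_lit 5000, ⟨.ofNat (nat_lit 428561), .ofNat (nat_lit 464274), .ofNat (nat_lit 439274), .ofNat (nat_lit 474987), .ofNat (nat_lit 433181), .ofNat (nat_lit 468029), .ofNat (nat_lit 443923), .ofNat (nat_lit 478772)⟩, ⟨.ofNat (nat_lit 535713), .ofNat (nat_lit 571427), .ofNat (nat_lit 557141), .ofNat (nat_lit 592856), .ofNat (nat_lit 531957), .ofNat (nat_lit 566807), .ofNat (nat_lit 553445), .ofNat (nat_lit 588295)⟩⟩, [⟨nat_lit 0, nat_lit 95, nat_lit 95, nat_lit 100, nat_lit 113624186⟩, ⟨nat_lit 19, nat_lit 94, nat_lit 88, nat_lit 100, nat_lit 44713651⟩]⟩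
noncomputable def p070_l22 : Lf2 := ⟨nat_lit 0, nat_lit 5, [nat_lit 4, nat_lit 5, nat_lit 5, nat_lit 20], false, nat_lit 280, nat_lit 300, nat_lit 160, nat_lit 320, ⟨nat_lit 115, nat_lit 885, nat_lit 0, nat_lit 7, nat_lit 188, nat_lit 885, nat_lit 223, nat_lit 0, nat_lit 0, nat_lit 0, nat_lit 0, nat_lit 0, nat_lit 41547010, nat_lit 11005493, nat_lit 14447497, nat_lit 4978751, false, false⟩,
 nat_lit 0, nat_lit 0, nat_lit 1082, nat_lit 0, nat_lit 3305, nat_lit 749, nat_lit 0, nat_lit 0, nat_lit 0, nat_lit 136, nat_lit 0, nat_lit 0, nat_lit 0, nat_lit 0, nat_lit 0, nat_lit 221250, nat_lit 0, nat_lit 0, [(nat_lit 15, [(nat_lit 0, nat_lit 885)])],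
 ⟨p070_k12, nat_lit 0, nat_lit 0, nat_lit 0, nat_lit 0, nat_lit 0, [nat_lit 1601536000, nat_lit 2042646001, nat_lit 2617100000, nat_lit 3130198000], [], [nat_lit 20031773634, nat_lit 20643446645, nat_lit 20096110035, nat_lit 20691414850, nat_lit 21118983838, nat_lit 21721677255, nat_lit 21143416023, nat_lit 21737795545], nat_lit 0, nat_lit 0, nat_lit 0, nat_lit 0, nat_lit 0, nat_lit 0, [], [nat_lit 127, nat_lit 40, nat_lit 40, nat_lit 80]⟩, ⟨p070_k2, nat_lit 0, nat_lit 0, nat_lit 402, nat_lit 0, nat_lit 902986, [nat_lit 377430000, nat_lit 718750000], [], [nat_lit 2325360767, nat_lit 2437605962, nat_lit 2320653832, nat_lit 2431018732, nat_lit 3136514118, nat_lit 2929084346, nat_lit 3243240492, nat_lit 2904087300], nat_lit 1271250, nat_lit 1271250, nat_lit 689850, nat_lit 780000, nat_lit 1100001, nat_lit 2470000, [nat_lit 780000, nat_lit 1435000], [nat_lit 49, nat_lit 40, nat_lit 40, nat_lit 80, nat_lit 16, nat_lit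 345, nat_lit 125, nat_lit 12]⟩,
 ⟨nat_lit 4472, nat_lit 4744, ⟨.ofNat (nat_lit 447115), .ofNat (nat_lit 468025), .ofNat (nat_lit 468600), .ofNat (nat_lit 489510), .ofNat (nat_lit 451467), .ofNat (nat_lit 471860), .ofNat (nat_lit 473029), .ofNat (nat_lit 493423)⟩, ⟨.ofNat (nat_lit 531957), .ofNat (nat_lit 566807), .ofNat (nat_lit 553445), .ofNat (nat_lit 588295), .ofNat (nat_lit 528122), .ofNat (nat_lit 562111), .ofNat (nat_lit 549689), .ofNat (nat_lit 583678)⟩⟩, [⟨nat_lit 0, nat_lit 90, nat_lit 88, nat_lit 100, nat_lit 217061128⟩, ⟨nat_lit 19, nat_lit 94, nat_lit 88, nat_lit 100, nat_lit 43196722⟩]⟩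
noncomputable def p070_l23 : Lf2 := ⟨nat_lit 0, nat_lit 10, [nat_lit 0, nat_lit 5, nat_lit 5, nat_lit 20], false, nat_lit 280, nat_lit 300, nat_lit 160, nat_lit 320, ⟨nat_lit 1000, nat_lit 0, nat_lit 0, nat_lit 0, nat_lit 0, nat_lit 0, nat_lit 0, nat_lit 0, nat_lit 0, nat_lit 0, nat_lit 0, nat_lit 0, nat_lit 0, nat_lit 0, nat_lit 0, nat_lit 0, false, false⟩,
 nat_lit 0, nat_lit 0, nat_lit 8856, nat_lit 0, nat_lit 4954, nat_lit 6130, nat_lit 0, nat_lit 0, nat_lit 0, nat_lit 1919, nat_lit 0, nat_lit 0, nat_lit 0, nat_lit 0, nat_lit 0, nat_lit 0, nat_lit 0, nat_lit 0, [],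
 ⟨p070_k4, nat_lit 0, nat_lit 0, nat_lit 0, nat_lit 0, nat_lit 0, [nat_lit 3282000000, nat_lit 7968000000], [], [nat_lit 20330640876, nat_lit 21742758058, nat_lit 20302527136, nat_lit 21679623536, nat_lit 21589297975, nat_lit 22953148987, nat_lit 21530508646, nat_lit 22833335956], nat_lit 0, nat_lit 0, nat_lit 0, nat_lit 0, nat_lit 0, nat_lit 0, [], [nat_lit 74, nat_lit 40, nat_lit 40, nat_lit 80]⟩, ⟨p070_k4, nat_lit 0, nat_lit 0, nat_lit 297, nat_lit 0, nat_lit 588788, [nat_lit 3282000000, nat_lit 7968000000], [], [nat_lit 23061746840, nat_lit 20810697030, nat_lit 19893039500, nat_lit 20680916130, nat_lit 23883957130, nat_lit 25287295600, nat_lit 23619937310, nat_lit 24947685160], nat_lit 1271250, nat_lit 1271250, nat_lit 631250, nat_lit 780000, nat_lit 1100001, nat_lit 2470000, [nat_lit 780000, nat_lit 1762500], [nat_lit 74, nat_lit 40, nat_lit 40, nat_lit 80, nat_lit 43, nat_lit 345, nat_lit 125, nat_lit 11]⟩,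
 zbF0, [⟨nat_lit 0, nat_lit 91, nat_lit 91, nat_lit 100, nat_lit 778335642⟩, ⟨nat_lit 4, nat_lit 97, nat_lit 94, nat_lit 100, nat_lit 108828513⟩, ⟨nat_lit 19, nat_lit 94, nat_lit 97, nat_lit 100, nat_lit 211134529⟩, ⟨nat_lit 19, nat_lit 94, nat_lit 88, nat_lit 100, nat_lit 54908379⟩]⟩
noncomputable def b_V_700_700_20_12 : St := ⟨true, nat_lit 0, nat_lit 1, nat_lit 1, nat_lit 120, nat_lit 300, nat_lit 320, nat_lit 280, nat_lit 320, nat_lit 80, nat_lit 120, nat_lit 100, nat_lit 120, nat_lit 280, nat_lit 300, nat_lit 0, nat_lit 336, nat_lit 0, nat_lit 40, nat_lit 300, nat_lit 460, nat_lit 0, nat_lit 0⟩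
theorem d_V_700_700_20_12 (h : EB TB.env) : Dead b_V_700_700_20_12 := chkB_sound0 h (T :=
(.spl (nat_lit 5) (nat_lit 160)
(.spl (nat_lit 0) (nat_lit 310)
(.ord (.leaf p070_l15))
(.trZ (nat_lit 0) (nat_lit 100) (nat_lit 91) (nat_lit 91) (nat_lit 88) (.leaf p070_l16)))
(.spl (nat_lit 1) (nat_lit 300)
(.spl (nat_lit 1) (nat_lit 290)
(.spl (nat_lit 2) (nat_lit 100)
(.trX (nat_lit 23) (nat_lit 100) (nat_lit 88) (nat_lit 94) (nat_lit 320) (.leaf p070_l17))
(.leaf p070_l18))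
(.trZ (nat_lit 0) (nat_lit 100) (nat_lit 97) (nat_lit 94) (nat_lit 88) (.trX (nat_lit 19) (nat_lit 97) (nat_lit 84) (nat_lit 100) (nat_lit 328) (.spl (nat_lit 0) (nat_lit 310)
(.leaf p070_l19)
(.trZ (nat_lit 0) (nat_lit 100) (nat_lit 94) (nat_lit 97) (nat_lit 100) (.leaf p070_l20))))))
(.trZ (nat_lit 0) (nat_lit 100) (nat_lit 100) (nat_lit 100) (nat_lit 100) (.trX (nat_lit 19) (nat_lit 94) (nat_lit 88) (nat_lit 100) (nat_lit 320) (.spl (nat_lit 6) (nat_lit 20)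
(.spl (nat_lit 0) (nat_lit 310)
(.ord (.leaf p070_l21))
(.trZ (nat_lit 0) (nat_lit 97) (nat_lit 93) (nat_lit 100) (nat_lit 108) (.leaf p070_l22)))
(.leaf p070_l23))))))) (by decide +kernel)
noncomputable def p070_l24 : Lf2 := ⟨nat_lit 0, nat_lit 5, [nat_lit 4, nat_lit 5, nat_lit 5, nat_lit 20], false, nat_lit 300, nat_lit 320, nat_lit 0, nat_lit 160, ⟨nat_lit 1000, nat_lit 0, nat_lit 0, nat_lit 0, nat_lit 0, nat_lit 0, nat_lit 0, nat_lit 0, nat_lit 0, nat_lit 0, nat_lit 0, nat_lit 0, nat_lit 0, nat_lit 0, nat_lit 0, nat_lit 0, false, false⟩,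
 nat_lit 0, nat_lit 0, nat_lit 11622, nat_lit 0, nat_lit 4870, nat_lit 7395, nat_lit 0, nat_lit 0, nat_lit 0, nat_lit 824, nat_lit 0, nat_lit 0, nat_lit 0, nat_lit 0, nat_lit 0, nat_lit 0, nat_lit 0, nat_lit 0, [],
 ⟨p070_k2, nat_lit 0, nat_lit 0, nat_lit 0, nat_lit 0, nat_lit 0, [nat_lit 3282000000, nat_lit 6250000000], [], [nat_lit 21679144120, nat_lit 22357094515, nat_lit 21628424125, nat_lit 22290307585, nat_lit 22957634760, nat_lit 23660216860, nat_lit 22876617470, nat_lit 23500639785], nat_lit 0, nat_lit 0, nat_lit 0, nat_lit 0, nat_lit 0, nat_lit 0, [], [nat_lit 49, nat_lit 40, nat_lit 40, nat_lit 80]⟩, ⟨p070_k13, nat_lit 0, nat_lit 0, nat_lit 375, nat_lit 0, nat_lit 446980, [nat_lit 3282000000, nat_lit 6250000000, nat_lit 7968000000], [], [nat_lit 28560467160, nat_lit 29398224670, nat_lit 27188822320, nat_lit 29158370238, nat_lit 23872911320, nat_lit 25625898175, nat_lit 23713871420, nat_lit 25431402193],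 nat_lit 1271250, nat_lit 1271250, nat_lit 490000, nat_lit 631250, nat_lit 0, nat_lit 1100001, [nat_lit 780000, nat_lit 1435000, nat_lit 1271250], [nat_lit 18, nat_lit 40, nat_lit 40, nat_lit 80, nat_lit 2, nat_lit 289, nat_lit 75, nat_lit 10]⟩,
 zbF0, [⟨nat_lit 0, nat_lit 100, nat_lit 94, nat_lit 88, nat_lit 699551869⟩, ⟨nat_lit 16, nat_lit 94, nat_lit 88, nat_lit 100, nat_lit 607112691⟩]⟩
noncomputable def p070_l25 : Lf2 := ⟨nat_lit 0, nat_lit 5, [nat_lit 4, nat_lit 5, nat_lit 5, nat_lit 20], false, nat_lit 300, nat_lit 320, nat_lit 0, nat_lit 160, ⟨nat_lit 1000, nat_lit 0, nat_lit 0, nat_lit 0, nat_lit 0, nat_lit 0, nat_lit 0, nat_lit 0, nat_lit 0, nat_lit 0, nat_lit 0, nat_lit 0, nat_lit 0, nat_lit 0, nat_lit 0, nat_lit 0, false, false⟩,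
 nat_lit 0, nat_lit 0, nat_lit 9686, nat_lit 0, nat_lit 4306, nat_lit 6163, nat_lit 0, nat_lit 0, nat_lit 0, nat_lit 1704, nat_lit 0, nat_lit 0, nat_lit 0, nat_lit 0, nat_lit 0, nat_lit 0, nat_lit 0, nat_lit 0, [],
 ⟨p070_k14, nat_lit 0, nat_lit 0, nat_lit 0, nat_lit 0, nat_lit 0, [nat_lit 2637500000, nat_lit 3965500000, nat_lit 6250000000], [], [nat_lit 21035660274, nat_lit 21675421699, nat_lit 21110292476, nat_lit 21734245140, nat_lit 22315183124, nat_lit 22954760030, nat_lit 22358197804, nat_lit 22947409634], nat_lit 0, nat_lit 0, nat_lit 0, nat_lit 0, nat_lit 0, nat_lit 0, [], [nat_lit 271, nat_lit 40, nat_lit 20, nat_lit 40]⟩, ⟨p070_k15, nat_lit 0, nat_lit 0, nat_lit 526, nat_lit 0, nat_lit 820467, [nat_lit 3282000000, nat_lit 4688000000, nat_lit 7968000000], [], [nat_lit 30916658518, nat_lit 27202894652, nat_lit 27707103704, nat_lit 27190638810, nat_lit 24831233936, nat_lit 25549772648, nat_lit 26265807100,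 nat_lit 25506869486], nat_lit 1271250, nat_lit 1271250, nat_lit 631250, nat_lit 780000, nat_lit 0, nat_lit 1100001, [nat_lit 780000, nat_lit 1100000, nat_lit 1785000], [nat_lit 36, nat_lit 40, nat_lit 40, nat_lit 80, nat_lit 7, nat_lit 289, nat_lit 75, nat_lit 10]⟩,
 zbF0, [⟨nat_lit 0, nat_lit 100, nat_lit 97, nat_lit 98, nat_lit 564620100⟩, ⟨nat_lit 16, nat_lit 94, nat_lit 88, nat_lit 100, nat_lit 615438746⟩]⟩
noncomputable def p070_l26 : Lf2 := ⟨nat_lit 0, nat_lit 5, [nat_lit 4, nat_lit 5, nat_lit 5, nat_lit 20], false, nat_lit 300, nat_lit 320, nat_lit 160, nat_lit 300, ⟨nat_lit 300, nat_lit 700, nat_lit 0, nat_lit 7, nat_lit 162, nat_lit 700, nat_lit 239, nat_lit 0, nat_lit 0, nat_lit 0, nat_lit 0, nat_lit 0, nat_lit 41976158, nat_lit 8723208, nat_lit 16300634, nat_lit 4848305, false, false⟩,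
 nat_lit 0, nat_lit 0, nat_lit 3332, nat_lit 0, nat_lit 3540, nat_lit 2120, nat_lit 0, nat_lit 0, nat_lit 0, nat_lit 437, nat_lit 0, nat_lit 0, nat_lit 0, nat_lit 0, nat_lit 0, nat_lit 175000, nat_lit 0, nat_lit 0, [(nat_lit 15, [(nat_lit 0, nat_lit 700)])],
 ⟨p070_k16, nat_lit 0, nat_lit 0, nat_lit 0, nat_lit 0, nat_lit 0, [nat_lit 1251090000, nat_lit 1933370000, nat_lit 2684990001, nat_lit 3782360000], [], [nat_lit 20626566260, nat_lit 20925192545, nat_lit 20645261660, nat_lit 20937619035, nat_lit 21821071400, nat_lit 22122526520, nat_lit 21814691160, nat_lit 22091533970], nat_lit 0, nat_lit 0, nat_lit 0, nat_lit 0, nat_lit 0, nat_lit 0, [], [nat_lit 177, nat_lit 40, nat_lit 20, nat_lit 40]⟩, ⟨p070_k15, nat_lit 0, nat_lit 0, nat_lit 246, nat_lit 0, nat_lit 397116, [nat_lit 984600000, nat_lit 1406400000, nat_lit 2390400000], [], [nat_lit 7171596560, nat_lit 5811992860, nat_lit 6083913600, nat_lit 5389863120, nat_lit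 8108426880, nat_lit 7070693203, nat_lit 8496540220, nat_lit 7280571820], nat_lit 1271250, nat_lit 1271250, nat_lit 490000, nat_lit 631250, nat_lit 1100001, nat_lit 2298750, [nat_lit 780000, nat_lit 1100000, nat_lit 1785000], [nat_lit 36, nat_lit 40, nat_lit 40, nat_lit 80, nat_lit 7, nat_lit 317, nat_lit 100, nat_lit 10]⟩,
 ⟨nat_lit 4873, nat_lit 5000, ⟨.ofNat (nat_lit 371426), .ofNat (nat_lit 407140), .ofNat (nat_lit 398211), .ofNat (nat_lit 433925), .ofNat (nat_lit 374134), .ofNat (nat_lit 409415), .ofNat (nat_lit 400953), .ofNat (nat_lit 436235)⟩, ⟨.ofNat (nat_lit 571427), .ofNat (nat_lit 607141), .ofNat (nat_lit 592856), .ofNat (nat_lit 628570), .ofNat (nat_lit 569125), .ofNat (nat_lit 604406), .ofNat (nat_lit 590581), .ofNat (nat_lit 625862)⟩⟩, [⟨nat_lit 0, nat_lit 100, nat_lit 97, nat_lit 96, nat_lit 54188229⟩, ⟨nat_lit 16, nat_lit 94, nat_lit 88, nat_lit 100, nat_lit 244915203⟩, ⟨nat_lit 23, nat_lit 91,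 nat_lit 100, nat_lit 91, nat_lit 119984653⟩]⟩
noncomputable def p070_l27 : Lf2 := ⟨nat_lit 0, nat_lit 5, [nat_lit 4, nat_lit 5, nat_lit 5, nat_lit 20], false, nat_lit 300, nat_lit 316, nat_lit 160, nat_lit 300, ⟨nat_lit 211, nat_lit 789, nat_lit 0, nat_lit 7, nat_lit 165, nat_lit 789, nat_lit 237, nat_lit 0, nat_lit 0, nat_lit 0, nat_lit 0, nat_lit 0, nat_lit 41955143, nat_lit 9015413, nat_lit 16029444, nat_lit 4866409, false, false⟩,
 nat_lit 0, nat_lit 0, nat_lit 2492, nat_lit 0, nat_lit 3508, nat_lit 1585, nat_lit 0, nat_lit 0, nat_lit 0, nat_lit 268, nat_lit 0, nat_lit 0, nat_lit 0, nat_lit 0, nat_lit 0, nat_lit 197250, nat_lit 0, nat_lit 0, [(nat_lit 15, [(nat_lit 0, nat_lit 789)])],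
 ⟨p070_k17, nat_lit 0, nat_lit 0, nat_lit 0, nat_lit 0, nat_lit 0, [nat_lit 1223829300, nat_lit 1843844900, nat_lit 2518552901, nat_lit 3148539300], [], [nat_lit 20847258489, nat_lit 21145027698, nat_lit 20860050407, nat_lit 21151257982, nat_lit 21829738716, nat_lit 22133211082, nat_lit 21779585037, nat_lit 22077854493], nat_lit 0, nat_lit 0, nat_lit 0, nat_lit 0, nat_lit 0, nat_lit 0, [], [nat_lit 173, nat_lit 40, nat_lit 20, nat_lit 40]⟩, ⟨p070_k15, nat_lit 0, nat_lit 0, nat_lit 262, nat_lit 0, nat_lit 446980, [nat_lit 692502000, nat_lit 989168000, nat_lit 1681248000], [], [nat_lit 4827353826, nat_lit 3865616366, nat_lit 4176796282, nat_lit 3834208745, nat_lit 5597368004, nat_lit 5126318539, nat_lit 5827805930, nat_lit 5053176351], nat_lit 1271250, nat_lit 1271250, nat_lit 517650, nat_lit 631250, nat_lit 1100001, nat_lit 2298750, [nat_lit 780000, nat_lit 1100000, nat_lit 1785000], [nat_lit 36, nat_lit 40, nat_lit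 40, nat_lit 80, nat_lit 7, nat_lit 317, nat_lit 100, nat_lit 10]⟩,
 ⟨nat_lit 4743, nat_lit 4874, ⟨.ofNat (nat_lit 381190), .ofNat (nat_lit 409415), .ofNat (nat_lit 413373), .ofNat (nat_lit 441598), .ofNat (nat_lit 383820), .ofNat (nat_lit 411700), .ofNat (nat_lit 416052), .ofNat (nat_lit 443931)⟩, ⟨.ofNat (nat_lit 569125), .ofNat (nat_lit 597350), .ofNat (nat_lit 590581), .ofNat (nat_lit 618806), .ofNat (nat_lit 566807), .ofNat (nat_lit 594687), .ofNat (nat_lit 588295), .ofNat (nat_lit 616175)⟩⟩, [⟨nat_lit 0, nat_lit 100, nat_lit 96, nat_lit 99, nat_lit 155563644⟩, ⟨nat_lit 16, nat_lit 93, nat_lit 90, nat_lit 100, nat_lit 237826297⟩, ⟨nat_lit 23, nat_lit 93, nat_lit 100, nat_lit 93, nat_lit 96178365⟩]⟩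
noncomputable def p070_l28 : Lf2 := ⟨nat_lit 0, nat_lit 5, [nat_lit 4, nat_lit 5, nat_lit 5, nat_lit 20], false, nat_lit 300, nat_lit 320, nat_lit 160, nat_lit 312, ⟨nat_lit 1000, nat_lit 0, nat_lit 0, nat_lit 0, nat_lit 0, nat_lit 0, nat_lit 0, nat_lit 0, nat_lit 0, nat_lit 0, nat_lit 0, nat_lit 0, nat_lit 0, nat_lit 0, nat_lit 0, nat_lit 0, false, false⟩,
 nat_lit 0, nat_lit 0, nat_lit 10696, nat_lit 0, nat_lit 4294, nat_lit 6806, nat_lit 0, nat_lit 0, nat_lit 0, nat_lit 1750, nat_lit 0, nat_lit 0, nat_lit 0, nat_lit 0, nat_lit 0, nat_lit 0, nat_lit 0, nat_lit 0, [],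
 ⟨p070_k16, nat_lit 0, nat_lit 0, nat_lit 0, nat_lit 0, nat_lit 0, [nat_lit 1465500000, nat_lit 2637500000, nat_lit 3965500000, nat_lit 6250000000], [], [nat_lit 21040575126, nat_lit 21679474201, nat_lit 21085951925, nat_lit 21715384597, nat_lit 22318373276, nat_lit 22945228970, nat_lit 22344817268, nat_lit 22939105243], nat_lit 0, nat_lit 0, nat_lit 0, nat_lit 0, nat_lit 0, nat_lit 0, [], [nat_lit 177, nat_lit 40, nat_lit 20, nat_lit 40]⟩, ⟨p070_k15, nat_lit 0, nat_lit 0, nat_lit 257, nat_lit 0, nat_lit 446980, [nat_lit 3282000000, nat_lit 4688000000, nat_lit 7968000000], [], [nat_lit 20563382500, nat_lit 17827679278, nat_lit 18468258852, nat_lit 17761130290, nat_lit 24948388814, nat_lit 24421501821, nat_lit 25803365340, nat_lit 24277235687], nat_lit 1271250, nat_lit 1271250, nat_lit 631250, nat_lit 719601, nat_lit 1100001, nat_lit 2401500, [nat_lit 780000, nat_lit 1100000, nat_lit 1785000], [nat_lit 36, nat_lit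 40, nat_lit 40, nat_lit 80, nat_lit 7, nat_lit 345, nat_lit 125, nat_lit 11]⟩,
 zbF0, [⟨nat_lit 0, nat_lit 100, nat_lit 97, nat_lit 98, nat_lit 40637862⟩, ⟨nat_lit 16, nat_lit 95, nat_lit 95, nat_lit 100, nat_lit 184363017⟩, ⟨nat_lit 23, nat_lit 95, nat_lit 99, nat_lit 100, nat_lit 404021581⟩]⟩
noncomputable def p070_l29 : Lf2 := ⟨nat_lit 0, nat_lit 5, [nat_lit 4, nat_lit 5, nat_lit 5, nat_lit 20], false, nat_lit 300, nat_lit 320, nat_lit 160, nat_lit 316, ⟨nat_lit 833, nat_lit 167, nat_lit 0, nat_lit 7, nat_lit 180, nat_lit 167, nat_lit 239, nat_lit 0, nat_lit 0, nat_lit 0, nat_lit 0, nat_lit 0, nat_lit 40867965, nat_lit 10165706, nat_lit 15966329, nat_lit 5005886, false, false⟩,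
 nat_lit 0, nat_lit 0, nat_lit 9019, nat_lit 0, nat_lit 4141, nat_lit 5739, nat_lit 0, nat_lit 0, nat_lit 0, nat_lit 1473, nat_lit 0, nat_lit 0, nat_lit 0, nat_lit 0, nat_lit 0, nat_lit 41750, nat_lit 0, nat_lit 0, [(nat_lit 15, [(nat_lit 0, nat_lit 167)])],
 ⟨p070_k16, nat_lit 0, nat_lit 0, nat_lit 0, nat_lit 0, nat_lit 0, [nat_lit 1414347900, nat_lit 2469514700, nat_lit 3660006900, nat_lit 5661291600], [], [nat_lit 20988248828, nat_lit 21606926915, nat_lit 21005913707, nat_lit 21621516453, nat_lit 22225605002, nat_lit 22819322791, nat_lit 22237119198, nat_lit 22818769977], nat_lit 0, nat_lit 0, nat_lit 0, nat_lit 0, nat_lit 0, nat_lit 0, [], [nat_lit 177, nat_lit 40, nat_lit 20, nat_lit 40]⟩, ⟨p070_k15, nat_lit 0, nat_lit 0, nat_lit 253, nat_lit 0, nat_lit 446980, [nat_lit 2733906000, nat_lit 3905104000, nat_lit 6637344000], [], [nat_lit 15286889329, nat_lit 14607937494, nat_lit 14698001357, nat_lit 14602246453,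 nat_lit 21735827434, nat_lit 20459694883, nat_lit 21991407242, nat_lit 20392428529], nat_lit 1271250, nat_lit 1271250, nat_lit 719601, nat_lit 749650, nat_lit 1100001, nat_lit 2435750, [nat_lit 780000, nat_lit 1100000, nat_lit 1785000], [nat_lit 36, nat_lit 40, nat_lit 40, nat_lit 80, nat_lit 7, nat_lit 345, nat_lit 125, nat_lit 11]⟩,
 ⟨nat_lit 4743, nat_lit 5000, ⟨.ofNat (nat_lit 428563), .ofNat (nat_lit 435706), .ofNat (nat_lit 460702), .ofNat (nat_lit 467844), .ofNat (nat_lit 432605), .ofNat (nat_lit 439575), .ofNat (nat_lit 464833), .ofNat (nat_lit 471803)⟩, ⟨.ofNat (nat_lit 571427), .ofNat (nat_lit 607141), .ofNat (nat_lit 592856), .ofNat (nat_lit 628570), .ofNat (nat_lit 566807), .ofNat (nat_lit 601657), .ofNat (nat_lit 588295), .ofNat (nat_lit 623145)⟩⟩, [⟨nat_lit 16, nat_lit 95, nat_lit 95, nat_lit 100, nat_lit 142144518⟩, ⟨nat_lit 11, nat_lit 94, nat_lit 94, nat_lit 100, nat_lit 397736984⟩]⟩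
noncomputable def p070_l30 : Lf2 := ⟨nat_lit 0, nat_lit 5, [nat_lit 4, nat_lit 5, nat_lit 5, nat_lit 20], false, nat_lit 300, nat_lit 320, nat_lit 160, nat_lit 320, ⟨nat_lit 127, nat_lit 873, nat_lit 0, nat_lit 7, nat_lit 181, nat_lit 873, nat_lit 239, nat_lit 0, nat_lit 0, nat_lit 0, nat_lit 0, nat_lit 0, nat_lit 40825606, nat_lit 10219009, nat_lit 15955385, nat_lit 5011379, false, false⟩,
 nat_lit 0, nat_lit 0, nat_lit 1438, nat_lit 0, nat_lit 2662, nat_lit 915, nat_lit 0, nat_lit 0, nat_lit 0, nat_lit 174, nat_lit 0, nat_lit 0, nat_lit 0, nat_lit 0, nat_lit 0, nat_lit 349200, nat_lit 0, nat_lit 0, [(nat_lit 15, [(nat_lit 1, nat_lit 873)])],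
 ⟨p070_k16, nat_lit 0, nat_lit 0, nat_lit 0, nat_lit 0, nat_lit 0, [nat_lit 1065753300, nat_lit 1806840501, nat_lit 2343378701, nat_lit 2840576800], [], [nat_lit 20182144460, nat_lit 20714044317, nat_lit 20223659180, nat_lit 20753177236, nat_lit 21245944174, nat_lit 21766551486, nat_lit 21282695292, nat_lit 21795938154], nat_lit 0, nat_lit 0, nat_lit 0, nat_lit 0, nat_lit 0, nat_lit 0, [], [nat_lit 177, nat_lit 40, nat_lit 20, nat_lit 40]⟩, ⟨p070_k15, nat_lit 0, nat_lit 0, nat_lit 374, nat_lit 0, nat_lit 730967, [nat_lit 416814000, nat_lit 595376000, nat_lit 1011936000], [], [nat_lit 2293329398, nat_lit 2429500878, nat_lit 2290573684, nat_lit 2425958338, nat_lit 3343593390, nat_lit 3071165202, nat_lit 3385015124, nat_lit 3061931284], nat_lit 1271250, nat_lit 1271250, nat_lit 749650, nat_lit 780000, nat_lit 1100001, nat_lit 2470000, [nat_lit 780000, nat_lit 1100000, nat_lit 1785000], [nat_lit 36, nat_lit 40, nat_lit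 40, nat_lit 80, nat_lit 7, nat_lit 345, nat_lit 125, nat_lit 11]⟩,
 ⟨nat_lit 4743, nat_lit 5000, ⟨.ofNat (nat_lit 435706), .ofNat (nat_lit 442849), .ofNat (nat_lit 457131), .ofNat (nat_lit 464274), .ofNat (nat_lit 439575), .ofNat (nat_lit 446544), .ofNat (nat_lit 461060), .ofNat (nat_lit 468029)⟩, ⟨.ofNat (nat_lit 571427), .ofNat (nat_lit 607141), .ofNat (nat_lit 592856), .ofNat (nat_lit 628570), .ofNat (nat_lit 566807), .ofNat (nat_lit 601657), .ofNat (nat_lit 588295), .ofNat (nat_lit 623145)⟩⟩, [⟨nat_lit 16, nat_lit 94, nat_lit 88, nat_lit 100, nat_lit 227957253⟩, ⟨nat_lit 23, nat_lit 92, nat_lit 93, nat_lit 100, nat_lit 52734520⟩]⟩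
noncomputable def p070_l31 : Lf2 := ⟨nat_lit 0, nat_lit 5, [nat_lit 4, nat_lit 5, nat_lit 5, nat_lit 20], false, nat_lit 300, nat_lit 320, nat_lit 160, nat_lit 320, ⟨nat_lit 230, nat_lit 770, nat_lit 0, nat_lit 7, nat_lit 187, nat_lit 770, nat_lit 239, nat_lit 0, nat_lit 0, nat_lit 0, nat_lit 0, nat_lit 0, nat_lit 40421839, nat_lit 10728177, nat_lit 15849984, nat_lit 5062301, false, false⟩,
 nat_lit 0, nat_lit 0, nat_lit 1934, nat_lit 0, nat_lit 2706, nat_lit 1338, nat_lit 0, nat_lit 0, nat_lit 0, nat_lit 392, nat_lit 0, nat_lit 0, nat_lit 0, nat_lit 7556213117459, nat_lit 0, nat_lit 308000, nat_lit 0, nat_lit 0, [(nat_lit 15, [(nat_lit 1, nat_lit 770)])],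
 ⟨p070_k16, nat_lit 0, nat_lit 0, nat_lit 0, nat_lit 0, nat_lit 0, [nat_lit 1112917000, nat_lit 1904845000, nat_lit 2534763001, nat_lit 3235932000], [], [nat_lit 20219318030, nat_lit 20754475234, nat_lit 20260075440, nat_lit 20792826968, nat_lit 21289632437, nat_lit 21798273673, nat_lit 21325578496, nat_lit 21831992956], nat_lit 0, nat_lit 0, nat_lit 0, nat_lit 0, nat_lit 0, nat_lit 0, [], [nat_lit 177, nat_lit 40, nat_lit 20, nat_lit 40]⟩, ⟨p070_k18, nat_lit 0, nat_lit 0, nat_lit 323, nat_lit 0, nat_lit 728099, [nat_lit 754860000, nat_lit 1078240000, nat_lit 1437500000], [], [nat_lit 4203690328, nat_lit 4333457869, nat_lit 4204877288, nat_lit 4333929600, nat_lit 5582375326, nat_lit 5526847423, nat_lit 5649142944, nat_lit 5516098800], nat_lit 1271250, nat_lit 1271250, nat_lit 749650, nat_lit 780000, nat_lit 1100001, nat_lit 2470000, [nat_lit 780000, nat_lit 1100000, nat_lit 1442500], [nat_lit 59, nat_lit 40, nat_lit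 40, nat_lit 80, nat_lit 3, nat_lit 345, nat_lit 125, nat_lit 12]⟩,
 ⟨nat_lit 4743, nat_lit 5000, ⟨.ofNat (nat_lit 457131), .ofNat (nat_lit 464274), .ofNat (nat_lit 467844), .ofNat (nat_lit 474987), .ofNat (nat_lit 461060), .ofNat (nat_lit 468029), .ofNat (nat_lit 471803), .ofNat (nat_lit 478772)⟩, ⟨.ofNat (nat_lit 571427), .ofNat (nat_lit 607141), .ofNat (nat_lit 592856), .ofNat (nat_lit 628570), .ofNat (nat_lit 566807), .ofNat (nat_lit 601657), .ofNat (nat_lit 588295), .ofNat (nat_lit 623145)⟩⟩, [⟨nat_lit 0, nat_lit 91, nat_lit 91, nat_lit 100, nat_lit 82312926⟩, ⟨nat_lit 4, nat_lit 95, nat_lit 95, nat_lit 100, nat_lit 215718902⟩, ⟨nat_lit 23, nat_lit 92, nat_lit 93, nat_lit 100, nat_lit 96504756⟩]⟩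
noncomputable def p070_l32 : Lf2 := ⟨nat_lit 0, nat_lit 5, [nat_lit 4, nat_lit 5, nat_lit 5, nat_lit 20], true, nat_lit 300, nat_lit 312, nat_lit 0, nat_lit 300, ⟨nat_lit 0, nat_lit 1000, nat_lit 0, nat_lit 7, nat_lit 170, nat_lit 1000, nat_lit 234, nat_lit 0, nat_lit 0, nat_lit 0, nat_lit 0, nat_lit 0, nat_lit 41869246, nat_lit 9436156, nat_lit 15694598, nat_lit 4894605, false, false⟩,
 nat_lit 0, nat_lit 0, nat_lit 0, nat_lit 0, nat_lit 3290, nat_lit 0, nat_lit 0, nat_lit 0, nat_lit 0, nat_lit 0, nat_lit 0, nat_lit 0, nat_lit 0, nat_lit 0, nat_lit 0, nat_lit 250000, nat_lit 0, nat_lit 0, [(nat_lit 15, [(nat_lit 0, nat_lit 1000)])],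
 ⟨p070_k19, nat_lit 0, nat_lit 0, nat_lit 0, nat_lit 0, nat_lit 0, [nat_lit 1159200000, nat_lit 1631600000, nat_lit 2131600001, nat_lit 2533200000], [], [nat_lit 20992060538, nat_lit 21593155592, nat_lit 21012633535, nat_lit 21579382660, nat_lit 21695961740, nat_lit 22290975945, nat_lit 21675076433, nat_lit 22262738120], nat_lit 0, nat_lit 0, nat_lit 0, nat_lit 0, nat_lit 0, nat_lit 0, [], [nat_lit 173, nat_lit 40, nat_lit 20, nat_lit 40]⟩, C1.Rw.none,
 ⟨nat_lit 4472, nat_lit 4744, ⟨.ofNat (nat_lit 390781), .ofNat (nat_lit 411691), .ofNat (nat_lit 433750), .ofNat (nat_lit 454660), .ofNat (nat_lit 395915), .ofNat (nat_lit 416308), .ofNat (nat_lit 439041), .ofNat (nat_lit 459434)⟩, ⟨.ofNat (nat_lit 566807), .ofNat (nat_lit 587717), .ofNat (nat_lit 588295), .ofNat (nat_lit 609205), .ofNat (nat_lit 562111), .ofNat (nat_lit 582505), .ofNat (nat_lit 583678), .ofNat (nat_lit 604071)⟩⟩, [⟨nat_lit 0, nat_lit 100, nat_lit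 91, nat_lit 91, nat_lit 326149559⟩, ⟨nat_lit 16, nat_lit 91, nat_lit 91, nat_lit 100, nat_lit 265833590⟩]⟩
noncomputable def p070_l33 : Lf2 := ⟨nat_lit 0, nat_lit 2, [nat_lit 10, nat_lit 5, nat_lit 5, nat_lit 20], true, nat_lit 300, nat_lit 312, nat_lit 0, nat_lit 320, ⟨nat_lit 0, nat_lit 1000, nat_lit 0, nat_lit 7, nat_lit 180, nat_lit 1000, nat_lit 235, nat_lit 0, nat_lit 0, nat_lit 0, nat_lit 0, nat_lit 0, nat_lit 41227834, nat_lit 10178827, nat_lit 15593339, nat_lit 4978278, false, false⟩,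
 nat_lit 0, nat_lit 0, nat_lit 0, nat_lit 0, nat_lit 3206, nat_lit 0, nat_lit 0, nat_lit 0, nat_lit 0, nat_lit 0, nat_lit 0, nat_lit 0, nat_lit 0, nat_lit 0, nat_lit 0, nat_lit 250000, nat_lit 0, nat_lit 0, [(nat_lit 15, [(nat_lit 0, nat_lit 1000)])],
 ⟨p070_k20, nat_lit 0, nat_lit 0, nat_lit 0, nat_lit 0, nat_lit 0, [nat_lit 1545600000, nat_lit 1881600001, nat_lit 2347999999], [], [nat_lit 21036210766, nat_lit 21336282130, nat_lit 21117008307, nat_lit 21396530033, nat_lit 21700237528, nat_lit 21990659679, nat_lit 21738100698, nat_lit 22022093295], nat_lit 0, nat_lit 0, nat_lit 0, nat_lit 0, nat_lit 0, nat_lit 0, [], [nat_lit 78, nat_lit 40, nat_lit 40, nat_lit 80]⟩, C1.Rw.none,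
 ⟨nat_lit 4609, nat_lit 4744, ⟨.ofNat (nat_lit 411700), .ofNat (nat_lit 446549), .ofNat (nat_lit 449303), .ofNat (nat_lit 484153), .ofNat (nat_lit 413999), .ofNat (nat_lit 448419), .ofNat (nat_lit 451667), .ofNat (nat_lit 486086)⟩, ⟨.ofNat (nat_lit 566807), .ofNat (nat_lit 587717), .ofNat (nat_lit 588295), .ofNat (nat_lit 609205), .ofNat (nat_lit 564471), .ofNat (nat_lit 585122), .ofNat (nat_lit 585996), .ofNat (nat_lit 606647)⟩⟩, [⟨nat_lit 0, nat_lit 87, nat_lit 87, nat_lit 100, nat_lit 306816883⟩, ⟨nat_lit 16, nat_lit 91, nat_lit 91, nat_lit 100, nat_lit 247493847⟩]⟩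
noncomputable def p070_l34 : Lf2 := ⟨nat_lit 0, nat_lit 5, [nat_lit 4, nat_lit 5, nat_lit 5, nat_lit 20], false, nat_lit 300, nat_lit 312, nat_lit 0, nat_lit 160, ⟨nat_lit 456, nat_lit 544, nat_lit 0, nat_lit 7, nat_lit 180, nat_lit 544, nat_lit 235, nat_lit 0, nat_lit 0, nat_lit 0, nat_lit 0, nat_lit 0, nat_lit 41227834, nat_lit 10178827, nat_lit 15593339, nat_lit 4978278, false, false⟩,
 nat_lit 0, nat_lit 0, nat_lit 7199, nat_lit 0, nat_lit 3498, nat_lit 4581, nat_lit 0, nat_lit 0, nat_lit 0, nat_lit 342, nat_lit 0, nat_lit 0, nat_lit 0, nat_lit 0, nat_lit 0, nat_lit 136000, nat_lit 0, nat_lit 0, [(nat_lit 15, [(nat_lit 0, nat_lit 544)])],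
 ⟨p070_k12, nat_lit 0, nat_lit 0, nat_lit 0, nat_lit 0, nat_lit 0, [nat_lit 1767398401, nat_lit 2520182401, nat_lit 3415040001, nat_lit 4332291200], [], [nat_lit 21233156991, nat_lit 21544739305, nat_lit 21251713182, nat_lit 21555732799, nat_lit 21920826840, nat_lit 22222134072, nat_lit 21924036994, nat_lit 22218855291], nat_lit 0, nat_lit 0, nat_lit 0, nat_lit 0, nat_lit 0, nat_lit 0, [], [nat_lit 127, nat_lit 40, nat_lit 40, nat_lit 80]⟩, ⟨p070_k13, nat_lit 0, nat_lit 0, nat_lit 507, nat_lit 0, nat_lit 754375, [nat_lit 1496592000, nat_lit 2850000000, nat_lit 3633408000], [], [nat_lit 10650495726, nat_lit 11736231793, nat_lit 10455991692, nat_lit 11365633386, nat_lit 8094492540, nat_lit 8930231152, nat_lit 8772266184, nat_lit 8725780056], nat_lit 1271250, nat_lit 1271250, nat_lit 631250, nat_lit 780000, nat_lit 0, nat_lit 1100001, [nat_lit 780000, nat_lit 1435000, nat_lit 1271250], [nat_lit 18, nat_lit 40, nat_lit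 40, nat_lit 80, nat_lit 2, nat_lit 289, nat_lit 75, nat_lit 10]⟩,
 ⟨nat_lit 4609, nat_lit 4744, ⟨.ofNat (nat_lit 411700), .ofNat (nat_lit 446549), .ofNat (nat_lit 449303), .ofNat (nat_lit 484153), .ofNat (nat_lit 413999), .ofNat (nat_lit 448419), .ofNat (nat_lit 451667), .ofNat (nat_lit 486086)⟩, ⟨.ofNat (nat_lit 566807), .ofNat (nat_lit 587717), .ofNat (nat_lit 588295), .ofNat (nat_lit 609205), .ofNat (nat_lit 564471), .ofNat (nat_lit 585122), .ofNat (nat_lit 585996), .ofNat (nat_lit 606647)⟩⟩, [⟨nat_lit 0, nat_lit 87, nat_lit 87, nat_lit 100, nat_lit 927835238⟩, ⟨nat_lit 16, nat_lit 93, nat_lit 98, nat_lit 100, nat_lit 407672086⟩]⟩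
noncomputable def p070_l35 : Lf2 := ⟨nat_lit 0, nat_lit 5, [nat_lit 4, nat_lit 5, nat_lit 5, nat_lit 20], true, nat_lit 300, nat_lit 312, nat_lit 160, nat_lit 320, ⟨nat_lit 0, nat_lit 1000, nat_lit 0, nat_lit 7, nat_lit 174, nat_lit 1000, nat_lit 235, nat_lit 0, nat_lit 0, nat_lit 0, nat_lit 0, nat_lit 0, nat_lit 41568772, nat_lit 9754862, nat_lit 15676366, nat_lit 4933258, false, false⟩,
 nat_lit 0, nat_lit 0, nat_lit 0, nat_lit 0, nat_lit 3290, nat_lit 0, nat_lit 0, nat_lit 0, nat_lit 0, nat_lit 0, nat_lit 0, nat_lit 0, nat_lit 0, nat_lit 0, nat_lit 0, nat_lit 250000, nat_lit 0, nat_lit 0, [(nat_lit 15, [(nat_lit 0, nat_lit 1000)])],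
 ⟨p070_k19, nat_lit 0, nat_lit 0, nat_lit 0, nat_lit 0, nat_lit 0, [nat_lit 1159200000, nat_lit 1631600000, nat_lit 2131600001, nat_lit 2533200000], [], [nat_lit 21012633535, nat_lit 21296008098, nat_lit 21158428100, nat_lit 21435228480, nat_lit 21675076433, nat_lit 21968759649, nat_lit 21805677327, nat_lit 22073941863], nat_lit 0, nat_lit 0, nat_lit 0, nat_lit 0, nat_lit 0, nat_lit 0, [], [nat_lit 173, nat_lit 40, nat_lit 20, nat_lit 40]⟩, C1.Rw.none,
 ⟨nat_lit 4609, nat_lit 4744, ⟨.ofNat (nat_lit 411700), .ofNat (nat_lit 446549), .ofNat (nat_lit 422443), .ofNat (nat_lit 457293), .ofNat (nat_lit 413999), .ofNat (nat_lit 448419), .ofNat (nat_lit 424761), .ofNat (nat_lit 459181)⟩, ⟨.ofNat (nat_lit 566807), .ofNat (nat_lit 587717), .ofNat (nat_lit 588295), .ofNat (nat_lit 609205), .ofNat (nat_lit 564471), .ofNat (nat_lit 585122), .ofNat (nat_lit 585996), .ofNat (nat_lit 606647)⟩⟩, [⟨nat_lit 0, nat_lit 100, nat_lit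 91, nat_lit 95, nat_lit 70627571⟩, ⟨nat_lit 16, nat_lit 91, nat_lit 91, nat_lit 100, nat_lit 265634265⟩]⟩
noncomputable def p070_l36 : Lf2 := ⟨nat_lit 0, nat_lit 5, [nat_lit 4, nat_lit 5, nat_lit 5, nat_lit 20], false, nat_lit 300, nat_lit 312, nat_lit 160, nat_lit 320, ⟨nat_lit 121, nat_lit 879, nat_lit 0, nat_lit 7, nat_lit 179, nat_lit 879, nat_lit 235, nat_lit 0, nat_lit 0, nat_lit 0, nat_lit 0, nat_lit 0, nat_lit 41296137, nat_lit 10093778, nat_lit 15610085, nat_lit 4969408, false, false⟩,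
 nat_lit 0, nat_lit 0, nat_lit 1212, nat_lit 0, nat_lit 3413, nat_lit 804, nat_lit 0, nat_lit 0, nat_lit 0, nat_lit 142, nat_lit 0, nat_lit 0, nat_lit 0, nat_lit 0, nat_lit 0, nat_lit 219750, nat_lit 0, nat_lit 0, [(nat_lit 15, [(nat_lit 0, nat_lit 879)])],
 ⟨p070_k19, nat_lit 0, nat_lit 0, nat_lit 0, nat_lit 0, nat_lit 0, [nat_lit 1196262300, nat_lit 1753313900, nat_lit 2353501901, nat_lit 2886072300], [], [nat_lit 21092809290, nat_lit 21380603396, nat_lit 21228074870, nat_lit 21509133756, nat_lit 21765386071, nat_lit 22063623166, nat_lit 21885087763, nat_lit 22157382432], nat_lit 0, nat_lit 0, nat_lit 0, nat_lit 0, nat_lit 0, nat_lit 0, [], [nat_lit 173, nat_lit 40, nat_lit 20, nat_lit 40]⟩, ⟨p070_k21, nat_lit 0, nat_lit 0, nat_lit 264, nat_lit 0, nat_lit 584007, [nat_lit 397122000, nat_lit 567248000, nat_lit 756250000], [], [nat_lit 2245579421, nat_lit 2315003588, nat_lit 2240285872, nat_lit 2307783322, nat_lit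 2903100896, nat_lit 2927407105, nat_lit 3080926818, nat_lit 2899933768], nat_lit 1271250, nat_lit 1271250, nat_lit 631250, nat_lit 780000, nat_lit 1100001, nat_lit 2470000, [nat_lit 780000, nat_lit 1100000, nat_lit 1442500], [nat_lit 59, nat_lit 40, nat_lit 40, nat_lit 80, nat_lit 3, nat_lit 345, nat_lit 125, nat_lit 13]⟩,
 ⟨nat_lit 4609, nat_lit 4744, ⟨.ofNat (nat_lit 422443), .ofNat (nat_lit 457293), .ofNat (nat_lit 433187), .ofNat (nat_lit 468037), .ofNat (nat_lit 424761), .ofNat (nat_lit 459181), .ofNat (nat_lit 435524), .ofNat (nat_lit 469943)⟩, ⟨.ofNat (nat_lit 566807), .ofNat (nat_lit 587717), .ofNat (nat_lit 588295), .ofNat (nat_lit 609205), .ofNat (nat_lit 564471), .ofNat (nat_lit 585122), .ofNat (nat_lit 585996), .ofNat (nat_lit 606647)⟩⟩, [⟨nat_lit 0, nat_lit 99, nat_lit 93, nat_lit 100, nat_lit 99274327⟩, ⟨nat_lit 16, nat_lit 91, nat_lit 91, nat_lit 100, nat_lit 251625570⟩, ⟨nat_lit 23, nat_lit 95,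 nat_lit 96, nat_lit 100, nat_lit 48056933⟩]⟩
noncomputable def p070_l37 : Lf2 := ⟨nat_lit 0, nat_lit 5, [nat_lit 4, nat_lit 5, nat_lit 5, nat_lit 20], false, nat_lit 300, nat_lit 312, nat_lit 160, nat_lit 320, ⟨nat_lit 664, nat_lit 336, nat_lit 0, nat_lit 7, nat_lit 186, nat_lit 336, nat_lit 235, nat_lit 0, nat_lit 0, nat_lit 0, nat_lit 0, nat_lit 0, nat_lit 40800490, nat_lit 10691201, nat_lit 15508309, nat_lit 5031391, false, false⟩,
 nat_lit 0, nat_lit 0, nat_lit 5559, nat_lit 0, nat_lit 3001, nat_lit 3848, nat_lit 0, nat_lit 0, nat_lit 0, nat_lit 1121, nat_lit 0, nat_lit 0, nat_lit 0, nat_lit 0, nat_lit 0, nat_lit 134400, nat_lit 0, nat_lit 0, [(nat_lit 15, [(nat_lit 1, nat_lit 336)])],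
 ⟨p070_k19, nat_lit 0, nat_lit 0, nat_lit 0, nat_lit 0, nat_lit 0, [nat_lit 1311645601, nat_lit 2317796000, nat_lit 3335197601, nat_lit 4381591200], [], [nat_lit 20841835092, nat_lit 21010473407, nat_lit 20941177829, nat_lit 21107506976, nat_lit 21511341193, nat_lit 21679752865, nat_lit 21589527868, nat_lit 21750767051], nat_lit 0, nat_lit 0, nat_lit 0, nat_lit 0, nat_lit 0, nat_lit 0, [], [nat_lit 173, nat_lit 40, nat_lit 20, nat_lit 40]⟩, ⟨p070_k18, nat_lit 0, nat_lit 0, nat_lit 280, nat_lit 0, nat_lit 634995, [nat_lit 2179248000, nat_lit 3112832000, nat_lit 4150000000], [], [nat_lit 12210759431, nat_lit 12702186269, nat_lit 12221597648, nat_lit 12704995348, nat_lit 15788352898, nat_lit 16168550499, nat_lit 16349090832, nat_lit 16062996406], nat_lit 1271250, nat_lit 1271250, nat_lit 689850, nat_lit 780000, nat_lit 1100001, nat_lit 2470000, [nat_lit 780000, nat_lit 1100000, nat_lit 1442500], [nat_lit 59, nat_lit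 40, nat_lit 40, nat_lit 80, nat_lit 3, nat_lit 345, nat_lit 125, nat_lit 12]⟩,
 ⟨nat_lit 4663, nat_lit 4744, ⟨.ofNat (nat_lit 447129), .ofNat (nat_lit 468039), .ofNat (nat_lit 461096), .ofNat (nat_lit 482006), .ofNat (nat_lit 448425), .ofNat (nat_lit 469180), .ofNat (nat_lit 462406), .ofNat (nat_lit 483161)⟩, ⟨.ofNat (nat_lit 566807), .ofNat (nat_lit 587717), .ofNat (nat_lit 588295), .ofNat (nat_lit 609205), .ofNat (nat_lit 565408), .ofNat (nat_lit 586163), .ofNat (nat_lit 586917), .ofNat (nat_lit 607672)⟩⟩, [⟨nat_lit 0, nat_lit 93, nat_lit 91, nat_lit 100, nat_lit 333791691⟩, ⟨nat_lit 16, nat_lit 91, nat_lit 91, nat_lit 100, nat_lit 215623294⟩, ⟨nat_lit 19, nat_lit 94, nat_lit 88, nat_lit 100, nat_lit 20981943⟩, ⟨nat_lit 23, nat_lit 94, nat_lit 93, nat_lit 100, nat_lit 249193332⟩]⟩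
noncomputable def p070_l38 : Lf2 := ⟨nat_lit 0, nat_lit 5, [nat_lit 4, nat_lit 5, nat_lit 5, nat_lit 20], true, nat_lit 300, nat_lit 308, nat_lit 160, nat_lit 320, ⟨nat_lit 0, nat_lit 1000, nat_lit 0, nat_lit 7, nat_lit 188, nat_lit 1000, nat_lit 233, nat_lit 0, nat_lit 0, nat_lit 0, nat_lit 0, nat_lit 0, nat_lit 40799019, nat_lit 10892622, nat_lit 15308359, nat_lit 5038217, false, false⟩,
 nat_lit 0, nat_lit 0, nat_lit 0, nat_lit 0, nat_lit 2798, nat_lit 0, nat_lit 0, nat_lit 0, nat_lit 0, nat_lit 0, nat_lit 0, nat_lit 0, nat_lit 0, nat_lit 0, nat_lit 0, nat_lit 250000, nat_lit 0, nat_lit 0, [(nat_lit 15, [(nat_lit 0, nat_lit 1000)])],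
 ⟨p070_k22, nat_lit 0, nat_lit 0, nat_lit 0, nat_lit 0, nat_lit 0, [nat_lit 1159200000, nat_lit 1631600000, nat_lit 2131600001, nat_lit 2533200000], [], [nat_lit 20913289332, nat_lit 21023537399, nat_lit 20985252672, nat_lit 21093155156, nat_lit 21345313872, nat_lit 21455277812, nat_lit 21402852644, nat_lit 21511723311], nat_lit 0, nat_lit 0, nat_lit 0, nat_lit 0, nat_lit 0, nat_lit 0, [], [nat_lit 173, nat_lit 40, nat_lit 20, nat_lit 40]⟩, C1.Rw.none,
 ⟨nat_lit 4609, nat_lit 4664, ⟨.ofNat (nat_lit 455344), .ofNat (nat_lit 469180), .ofNat (nat_lit 471476), .ofNat (nat_lit 485312), .ofNat (nat_lit 456177), .ofNat (nat_lit 469945), .ofNat (nat_lit 472321), .ofNat (nat_lit 486088)⟩, ⟨.ofNat (nat_lit 565408), .ofNat (nat_lit 579244), .ofNat (nat_lit 586917), .ofNat (nat_lit 600754), .ofNat (nat_lit 564471), .ofNat (nat_lit 578239), .ofNat (nat_lit 585996), .ofNat (nat_lit 599763)⟩⟩, [⟨nat_lit 0, nat_lit 91, nat_lit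 89, nat_lit 100, nat_lit 299701275⟩, ⟨nat_lit 16, nat_lit 90, nat_lit 93, nat_lit 100, nat_lit 256270197⟩]⟩
noncomputable def p070_l39 : Lf2 := ⟨nat_lit 0, nat_lit 5, [nat_lit 4, nat_lit 5, nat_lit 5, nat_lit 20], true, nat_lit 300, nat_lit 304, nat_lit 0, nat_lit 320, ⟨nat_lit 0, nat_lit 1000, nat_lit 0, nat_lit 7, nat_lit 182, nat_lit 1000, nat_lit 231, nat_lit 0, nat_lit 0, nat_lit 0, nat_lit 0, nat_lit 0, nat_lit 41390077, nat_lit 10376545, nat_lit 15233378, nat_lit 4972682, false, false⟩,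
 nat_lit 0, nat_lit 0, nat_lit 0, nat_lit 0, nat_lit 3212, nat_lit 0, nat_lit 0, nat_lit 0, nat_lit 0, nat_lit 0, nat_lit 0, nat_lit 0, nat_lit 0, nat_lit 0, nat_lit 0, nat_lit 250000, nat_lit 0, nat_lit 0, [(nat_lit 15, [(nat_lit 0, nat_lit 1000)])],
 ⟨p070_k23, nat_lit 0, nat_lit 0, nat_lit 0, nat_lit 0, nat_lit 0, [nat_lit 1545600000, nat_lit 1881600001, nat_lit 2348000000, nat_lit 2724800000], [], [nat_lit 21340565496, nat_lit 21640873386, nat_lit 21394954815, nat_lit 21678669028, nat_lit 21558848998, nat_lit 21855936197, nat_lit 21599273030, nat_lit 21889326100], nat_lit 0, nat_lit 0, nat_lit 0, nat_lit 0, nat_lit 0, nat_lit 0, [], [nat_lit 127, nat_lit 40, nat_lit 40, nat_lit 80]⟩, C1.Rw.none,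
 ⟨nat_lit 4472, nat_lit 4610, ⟨.ofNat (nat_lit 413999), .ofNat (nat_lit 448418), .ofNat (nat_lit 457047), .ofNat (nat_lit 491466), .ofNat (nat_lit 416317), .ofNat (nat_lit 450306), .ofNat (nat_lit 459448), .ofNat (nat_lit 493437)⟩, ⟨.ofNat (nat_lit 564471), .ofNat (nat_lit 571355), .ofNat (nat_lit 585996), .ofNat (nat_lit 592879), .ofNat (nat_lit 562111), .ofNat (nat_lit 568909), .ofNat (nat_lit 583678), .ofNat (nat_lit 590476)⟩⟩, [⟨nat_lit 0, nat_lit 95, nat_lit 89, nat_lit 100, nat_lit 298007299⟩, ⟨nat_lit 16, nat_lit 89, nat_lit 93, nat_lit 100, nat_lit 253812133⟩]⟩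
noncomputable def p070_l40 : Lf2 := ⟨nat_lit 0, nat_lit 10, [nat_lit 0, nat_lit 5, nat_lit 5, nat_lit 20], false, nat_lit 300, nat_lit 320, nat_lit 0, nat_lit 160, ⟨nat_lit 1000, nat_lit 0, nat_lit 0, nat_lit 0, nat_lit 0, nat_lit 0, nat_lit 0, nat_lit 0, nat_lit 0, nat_lit 0, nat_lit 0, nat_lit 0, nat_lit 0, nat_lit 0, nat_lit 0, nat_lit 0, false, false⟩,
 nat_lit 0, nat_lit 0, nat_lit 14603, nat_lit 0, nat_lit 4998, nat_lit 9292, nat_lit 0, nat_lit 0, nat_lit 0, nat_lit 928, nat_lit 0, nat_lit 0, nat_lit 0, nat_lit 13181577744960, nat_lit 0, nat_lit 0, nat_lit 0, nat_lit 0, [],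
 ⟨p070_k0, nat_lit 0, nat_lit 0, nat_lit 0, nat_lit 0, nat_lit 0, [nat_lit 3282000000, nat_lit 6250000000, nat_lit 7968000000], [], [nat_lit 21640613416, nat_lit 23158437276, nat_lit 21505787202, nat_lit 22814478172, nat_lit 23066612304, nat_lit 24491614184, nat_lit 22739051572, nat_lit 24088121336], nat_lit 0, nat_lit 0, nat_lit 0, nat_lit 0, nat_lit 0, nat_lit 0, [], [nat_lit 18, nat_lit 40, nat_lit 40, nat_lit 80]⟩, ⟨p070_k6, nat_lit 0, nat_lit 0, nat_lit 554, nat_lit 0, nat_lit 663997, [nat_lit 3282000000, nat_lit 6250000000, nat_lit 9842000000], [], [nat_lit 27469327936, nat_lit 28582258096, nat_lit 25393665840, nat_lit 27346572752, nat_lit 20859838672, nat_lit 22924889840, nat_lit 20875946016, nat_lit 22132000448], nat_lit 1271250, nat_lit 1271250, nat_lit 490000, nat_lit 780000, nat_lit 0, nat_lit 1100001, [nat_lit 780000, nat_lit 1435000, nat_lit 1271250], [nat_lit 8, nat_lit 40, nat_lit 40, nat_lit 80,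 nat_lit 1, nat_lit 289, nat_lit 75, nat_lit 8]⟩,
 zbF0, [⟨nat_lit 0, nat_lit 97, nat_lit 93, nat_lit 100, nat_lit 1134253836⟩, ⟨nat_lit 16, nat_lit 94, nat_lit 97, nat_lit 100, nat_lit 908571964⟩]⟩
noncomputable def p070_l41 : Lf2 := ⟨nat_lit 0, nat_lit 10, [nat_lit 0, nat_lit 5, nat_lit 5, nat_lit 20], false, nat_lit 300, nat_lit 320, nat_lit 160, nat_lit 240, ⟨nat_lit 1000, nat_lit 0, nat_lit 0, nat_lit 0, nat_lit 0, nat_lit 0, nat_lit 0, nat_lit 0, nat_lit 0, nat_lit 0, nat_lit 0, nat_lit 0, nat_lit 0, nat_lit 0, nat_lit 0, nat_lit 0, false, false⟩,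
 nat_lit 0, nat_lit 0, nat_lit 16226, nat_lit 0, nat_lit 4998, nat_lit 10325, nat_lit 0, nat_lit 0, nat_lit 0, nat_lit 1229, nat_lit 0, nat_lit 0, nat_lit 0, nat_lit 0, nat_lit 0, nat_lit 0, nat_lit 0, nat_lit 0, [],
 ⟨p070_k0, nat_lit 0, nat_lit 0, nat_lit 0, nat_lit 0, nat_lit 0, [nat_lit 3282000000, nat_lit 6250000000, nat_lit 7968000000], [], [nat_lit 21640613416, nat_lit 23158437276, nat_lit 21505787202, nat_lit 22814478172, nat_lit 23066612304, nat_lit 24491614184, nat_lit 22739051572, nat_lit 24088121336], nat_lit 0, nat_lit 0, nat_lit 0, nat_lit 0, nat_lit 0, nat_lit 0, [], [nat_lit 18, nat_lit 40, nat_lit 40, nat_lit 80]⟩, ⟨p070_k6, nat_lit 0, nat_lit 0, nat_lit 324, nat_lit 0, nat_lit 482257, [nat_lit 3282000000, nat_lit 6250000000, nat_lit 9842000000], [], [nat_lit 14370129425, nat_lit 16143559575, nat_lit 13459779625, nat_lit 15093172025, nat_lit 17129604225, nat_lit 18894297025, nat_lit 17022241300,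 nat_lit 17663419050], nat_lit 1271250, nat_lit 1271250, nat_lit 490000, nat_lit 780000, nat_lit 1100001, nat_lit 1785000, [nat_lit 780000, nat_lit 1435000, nat_lit 1271250], [nat_lit 8, nat_lit 40, nat_lit 40, nat_lit 80, nat_lit 1, nat_lit 317, nat_lit 100, nat_lit 9]⟩,
 zbF0, [⟨nat_lit 0, nat_lit 94, nat_lit 87, nat_lit 100, nat_lit 983602878⟩, ⟨nat_lit 4, nat_lit 97, nat_lit 94, nat_lit 100, nat_lit 1042267693⟩]⟩
noncomputable def p070_l42 : Lf2 := ⟨nat_lit 0, nat_lit 10, [nat_lit 0, nat_lit 5, nat_lit 5, nat_lit 20], false, nat_lit 300, nat_lit 320, nat_lit 240, nat_lit 320, ⟨nat_lit 501, nat_lit 499, nat_lit 0, nat_lit 7, nat_lit 168, nat_lit 499, nat_lit 239, nat_lit 0, nat_lit 0, nat_lit 0, nat_lit 0, nat_lit 0, nat_lit 41616663, nat_lit 9227190, nat_lit 16156147, nat_lit 4903918, false, false⟩,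
 nat_lit 0, nat_lit 0, nat_lit 5428, nat_lit 0, nat_lit 4053, nat_lit 3453, nat_lit 0, nat_lit 0, nat_lit 0, nat_lit 829, nat_lit 0, nat_lit 0, nat_lit 0, nat_lit 0, nat_lit 0, nat_lit 124750, nat_lit 0, nat_lit 0, [(nat_lit 15, [(nat_lit 0, nat_lit 499)])],
 ⟨p070_k24, nat_lit 0, nat_lit 0, nat_lit 0, nat_lit 0, nat_lit 0, [nat_lit 2285455500, nat_lit 3071674567, nat_lit 5524696400], [], [nat_lit 20893992103, nat_lit 21576386524, nat_lit 20882864138, nat_lit 21489298070, nat_lit 22258780944, nat_lit 22901323534, nat_lit 22140811906, nat_lit 22755682251], nat_lit 0, nat_lit 0, nat_lit 0, nat_lit 0, nat_lit 0, nat_lit 0, [], [nat_lit 215, nat_lit 40, nat_lit 20, nat_lit 40]⟩, ⟨p070_k25, nat_lit 0, nat_lit 0, nat_lit 286, nat_lit 0, nat_lit 375332, [nat_lit 1644282000, nat_lit 2348688000, nat_lit 4930842000], [], [nat_lit 9867646385, nat_lit 10445931383, nat_lit 9654123749, nat_lit 10202086463, nat_lit 11821526501,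 nat_lit 12370371803, nat_lit 11476586273, nat_lit 11980308762], nat_lit 1271250, nat_lit 1271250, nat_lit 490000, nat_lit 780000, nat_lit 1271250, nat_lit 1271250, [nat_lit 780000, nat_lit 1100000, nat_lit 2127500], [nat_lit 42, nat_lit 40, nat_lit 40, nat_lit 80, nat_lit 13, nat_lit 345, nat_lit 125, nat_lit 9]⟩,
 ⟨nat_lit 4743, nat_lit 5000, ⟨.ofNat (nat_lit 371422), .ofNat (nat_lit 442849), .ofNat (nat_lit 392848), .ofNat (nat_lit 464274), .ofNat (nat_lit 376847), .ofNat (nat_lit 446544), .ofNat (nat_lit 398332), .ofNat (nat_lit 468029)⟩, ⟨.ofNat (nat_lit 571427), .ofNat (nat_lit 607141), .ofNat (nat_lit 592856), .ofNat (nat_lit 628570), .ofNat (nat_lit 566807), .ofNat (nat_lit 601657), .ofNat (nat_lit 588295), .ofNat (nat_lit 623145)⟩⟩, [⟨nat_lit 0, nat_lit 97, nat_lit 93, nat_lit 100, nat_lit 205771968⟩, ⟨nat_lit 4, nat_lit 95, nat_lit 95, nat_lit 100, nat_lit 235962624⟩, ⟨nat_lit 23, nat_lit 94, nat_lit 88,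 nat_lit 100, nat_lit 248343088⟩]⟩
noncomputable def p070_l43 : Lf2 := ⟨nat_lit 0, nat_lit 10, [nat_lit 0, nat_lit 5, nat_lit 5, nat_lit 20], false, nat_lit 300, nat_lit 312, nat_lit 240, nat_lit 320, ⟨nat_lit 305, nat_lit 695, nat_lit 0, nat_lit 7, nat_lit 173, nat_lit 695, nat_lit 234, nat_lit 0, nat_lit 0, nat_lit 0, nat_lit 0, nat_lit 0, nat_lit 41706160, nat_lit 9638031, nat_lit 15655809, nat_lit 4917047, false, false⟩,
 nat_lit 0, nat_lit 0, nat_lit 3304, nat_lit 0, nat_lit 3617, nat_lit 2102, nat_lit 0, nat_lit 0, nat_lit 0, nat_lit 505, nat_lit 0, nat_lit 0, nat_lit 0, nat_lit 0, nat_lit 0, nat_lit 173750, nat_lit 0, nat_lit 0, [(nat_lit 15, [(nat_lit 0, nat_lit 695)])],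
 ⟨p070_k26, nat_lit 0, nat_lit 0, nat_lit 0, nat_lit 0, nat_lit 0, [nat_lit 1252621501, nat_lit 1938399500, nat_lit 2712623501, nat_lit 4180299500], [], [nat_lit 21213768764, nat_lit 21855365382, nat_lit 21326805230, nat_lit 21903048778, nat_lit 21961991688, nat_lit 22581895288, nat_lit 22000011520, nat_lit 22571782080], nat_lit 0, nat_lit 0, nat_lit 0, nat_lit 0, nat_lit 0, nat_lit 0, [], [nat_lit 165, nat_lit 40, nat_lit 20, nat_lit 40]⟩, ⟨p070_k25, nat_lit 0, nat_lit 0, nat_lit 316, nat_lit 0, nat_lit 482257, [nat_lit 1001010000, nat_lit 1429840000, nat_lit 3001810000], [], [nat_lit 5979873333, nat_lit 6328220437, nat_lit 5875899713, nat_lit 6209479769, nat_lit 7150972303, nat_lit 7481769642, nat_lit 6985354361, nat_lit 7293599910], nat_lit 1271250, nat_lit 1271250, nat_lit 545600, nat_lit 780000, nat_lit 1271250, nat_lit 1271250, [nat_lit 780000, nat_lit 1100000, nat_lit 2127500], [nat_lit 42, nat_lit 40, nat_lit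 40, nat_lit 80, nat_lit 13, nat_lit 345, nat_lit 125, nat_lit 9]⟩,
 ⟨nat_lit 4472, nat_lit 4744, ⟨.ofNat (nat_lit 390781), .ofNat (nat_lit 446540), .ofNat (nat_lit 412266), .ofNat (nat_lit 468025), .ofNat (nat_lit 395915), .ofNat (nat_lit 450297), .ofNat (nat_lit 417478), .ofNat (nat_lit 471860)⟩, ⟨.ofNat (nat_lit 566807), .ofNat (nat_lit 587717), .ofNat (nat_lit 588295), .ofNat (nat_lit 609205), .ofNat (nat_lit 562111), .ofNat (nat_lit 582505), .ofNat (nat_lit 583678), .ofNat (nat_lit 604071)⟩⟩, [⟨nat_lit 0, nat_lit 94, nat_lit 87, nat_lit 100, nat_lit 153948914⟩, ⟨nat_lit 16, nat_lit 91, nat_lit 91, nat_lit 100, nat_lit 212308183⟩, ⟨nat_lit 11, nat_lit 98, nat_lit 98, nat_lit 100, nat_lit 145015948⟩]⟩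
noncomputable def p070_l44 : Lf2 := ⟨nat_lit 0, nat_lit 10, [nat_lit 0, nat_lit 5, nat_lit 5, nat_lit 20], false, nat_lit 300, nat_lit 320, nat_lit 160, nat_lit 320, ⟨nat_lit 1000, nat_lit 0, nat_lit 0, nat_lit 0, nat_lit 0, nat_lit 0, nat_lit 0, nat_lit 0, nat_lit 0, nat_lit 0, nat_lit 0, nat_lit 0, nat_lit 0, nat_lit 0, nat_lit 0, nat_lit 0, false, false⟩,
 nat_lit 0, nat_lit 0, nat_lit 9088, nat_lit 0, nat_lit 4350, nat_lit 6291, nat_lit 0, nat_lit 0, nat_lit 0, nat_lit 1198, nat_lit 0, nat_lit 0, nat_lit 0, nat_lit 2554578810894, nat_lit 0, nat_lit 0, nat_lit 0, nat_lit 0, [],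
 ⟨p070_k27, nat_lit 0, nat_lit 0, nat_lit 0, nat_lit 0, nat_lit 0, [nat_lit 1465500000, nat_lit 2637500000, nat_lit 3965500000, nat_lit 7968000000], [], [nat_lit 21017639150, nat_lit 22338824500, nat_lit 21088620100, nat_lit 22342618900, nat_lit 22338824500, nat_lit 23640590000, nat_lit 22342618900, nat_lit 23596074200], nat_lit 0, nat_lit 0, nat_lit 0, nat_lit 0, nat_lit 0, nat_lit 0, [], [nat_lit 186, nat_lit 40, nat_lit 20, nat_lit 40]⟩, ⟨p070_k28, nat_lit 0, nat_lit 0, nat_lit 306, nat_lit 0, nat_lit 588788, [nat_lit 3282000000, nat_lit 4688000000, nat_lit 7968000000], [], [nat_lit 19592292221, nat_lit 20616588218, nat_lit 19517819936, nat_lit 20514273512, nat_lit 24245370726, nat_lit 25429155920, nat_lit 24075634188, nat_lit 25069937612], nat_lit 1271250, nat_lit 1271250, nat_lit 631250, nat_lit 780000, nat_lit 1100001, nat_lit 2470000, [nat_lit 780000, nat_lit 1100000, nat_lit 1785000], [nat_lit 36, nat_lit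 40, nat_lit 40, nat_lit 80, nat_lit 7, nat_lit 345, nat_lit 125, nat_lit 11]⟩,
 zbF0, [⟨nat_lit 0, nat_lit 91, nat_lit 91, nat_lit 100, nat_lit 845922931⟩, ⟨nat_lit 16, nat_lit 94, nat_lit 88, nat_lit 100, nat_lit 344951829⟩, ⟨nat_lit 19, nat_lit 94, nat_lit 88, nat_lit 100, nat_lit 126636241⟩, ⟨nat_lit 11, nat_lit 95, nat_lit 95, nat_lit 100, nat_lit 260936087⟩]⟩
noncomputable def b_V_700_700_20_13 : St := ⟨true, nat_lit 0, nat_lit 1, nat_lit 1, nat_lit 120, nat_lit 300, nat_lit 320, nat_lit 280, nat_lit 320, nat_lit 80, nat_lit 120, nat_lit 100, nat_lit 120, nat_lit 300, nat_lit 320, nat_lit 0, nat_lit 336, nat_lit 0, nat_lit 40, nat_lit 300, nat_lit 460, nat_lit 0, nat_lit 0⟩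
theorem d_V_700_700_20_13 (h : EB TB.env) : Dead b_V_700_700_20_13 := chkB_sound0 h (T :=
(.trX (nat_lit 23) (nat_lit 94) (nat_lit 88) (nat_lit 100) (nat_lit 320) (.spl (nat_lit 6) (nat_lit 20)
(.spl (nat_lit 0) (nat_lit 310)
(.ord (.spl (nat_lit 5) (nat_lit 160)
(.spl (nat_lit 2) (nat_lit 100)
(.leaf p070_l24)
(.leaf p070_l25))
(.spl (nat_lit 2) (nat_lit 100)
(.trX (nat_lit 23) (nat_lit 100) (nat_lit 100) (nat_lit 100) (nat_lit 300) (.spl (nat_lit 0) (nat_lit 305)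
(.ord (.leaf p070_l26))
(.trZ (nat_lit 0) (nat_lit 100) (nat_lit 93) (nat_lit 90) (nat_lit 84) (.trX (nat_lit 16) (nat_lit 93) (nat_lit 90) (nat_lit 100) (nat_lit 316) (.leaf p070_l27)))))
(.spl (nat_lit 2) (nat_lit 112)
(.trX (nat_lit 23) (nat_lit 96) (nat_lit 92) (nat_lit 100) (nat_lit 312) (.leaf p070_l28))
(.spl (nat_lit 2) (nat_lit 116)
(.trX (nat_lit 23) (nat_lit 95) (nat_lit 90) (nat_lit 100) (nat_lit 316) (.leaf p070_l29))
(.spl (nat_lit 1) (nat_lit 300)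
(.leaf p070_l30)
(.leaf p070_l31)))))))
(.trZ (nat_lit 0) (nat_lit 100) (nat_lit 91) (nat_lit 91) (nat_lit 88) (.trX (nat_lit 16) (nat_lit 91) (nat_lit 91) (nat_lit 100) (nat_lit 312) (.spl (nat_lit 2) (nat_lit 100)
(.trX (nat_lit 23) (nat_lit 100) (nat_lit 100) (nat_lit 100) (nat_lit 300) (.leaf p070_l32))
(.spl (nat_lit 0) (nat_lit 315)
(.ord (.spl (nat_lit 6) (nat_lit 8)
(.leaf p070_l33)
(.spl (nat_lit 5) (nat_lit 160)
(.leaf p070_l34)
(.spl (nat_lit 1) (nat_lit 300)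
(.spl (nat_lit 1) (nat_lit 290)
(.leaf p070_l35)
(.leaf p070_l36))
(.trZ (nat_lit 0) (nat_lit 97) (nat_lit 93) (nat_lit 100) (nat_lit 108) (.spl (nat_lit 0) (nat_lit 313)
(.ord (.leaf p070_l37))
(.trZ (nat_lit 0) (nat_lit 96) (nat_lit 91) (nat_lit 100) (nat_lit 112) (.trX (nat_lit 16) (nat_lit 90) (nat_lit 93) (nat_lit 100) (nat_lit 308) (.leaf p070_l38)))))))))
(.trX (nat_lit 16) (nat_lit 89) (nat_lit 93) (nat_lit 100) (nat_lit 304) (.leaf p070_l39)))))))
(.spl (nat_lit 5) (nat_lit 160)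
(.leaf p070_l40)
(.spl (nat_lit 1) (nat_lit 300)
(.spl (nat_lit 5) (nat_lit 240)
(.leaf p070_l41)
(.spl (nat_lit 0) (nat_lit 310)
(.leaf p070_l42)
(.trZ (nat_lit 0) (nat_lit 100) (nat_lit 91) (nat_lit 91) (nat_lit 88) (.trX (nat_lit 16) (nat_lit 91) (nat_lit 91) (nat_lit 100) (nat_lit 312) (.leaf p070_l43)))))
(.trZ (nat_lit 0) (nat_lit 100) (nat_lit 100) (nat_lit 100) (nat_lit 100) (.leaf p070_l44))))))) (by decide +kernel)
noncomputable def p070_l45 : Lf2 := ⟨nat_lit 0, nat_lit 10, [nat_lit 0, nat_lit 5, nat_lit 5, nat_lit 20], false, nat_lit 280, nat_lit 320, nat_lit 0, nat_lit 160, ⟨nat_lit 178, nat_lit 822, nat_lit 0, nat_lit 7, nat_lit 196, nat_lit 822, nat_lit 232, nat_lit 0, nat_lit 0, nat_lit 0, nat_lit 0, nat_lit 0, nat_lit 40364998, nat_lit 11551173, nat_lit 15083829, nat_lit 5092031, false, false⟩,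
 nat_lit 0, nat_lit 0, nat_lit 2949, nat_lit 0, nat_lit 3179, nat_lit 1876, nat_lit 0, nat_lit 0, nat_lit 0, nat_lit 247, nat_lit 0, nat_lit 0, nat_lit 0, nat_lit 0, nat_lit 0, nat_lit 328800, nat_lit 0, nat_lit 0, [(nat_lit 15, [(nat_lit 1, nat_lit 822)])],
 ⟨p070_k5, nat_lit 0, nat_lit 0, nat_lit 0, nat_lit 0, nat_lit 0, [nat_lit 1516770400, nat_lit 2119363200, nat_lit 2755313600, nat_lit 3330530400], [], [nat_lit 19478887916, nat_lit 20064392073, nat_lit 20153659033, nat_lit 20707858287, nat_lit 21599347692, nat_lit 22152651093, nat_lit 22162082582, nat_lit 22663619557], nat_lit 0, nat_lit 0, nat_lit 0, nat_lit 0, nat_lit 0, nat_lit 0, [], [nat_lit 154, nat_lit 40, nat_lit 40, nat_lit 80]⟩, ⟨p070_k6, nat_lit 0, nat_lit 0, nat_lit 572, nat_lit 0, nat_lit 752435, [nat_lit 584196000, nat_lit 1112500000, nat_lit 1751876000], [], [nat_lit 4705941944, nat_lit 4016609616, nat_lit 3764898280, nat_lit 4065142560, nat_lit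 3233470896, nat_lit 2946652152, nat_lit 4118286808, nat_lit 3257630536], nat_lit 1271250, nat_lit 1271250, nat_lit 780000, nat_lit 1100001, nat_lit 0, nat_lit 1100001, [nat_lit 780000, nat_lit 1435000, nat_lit 1271250], [nat_lit 8, nat_lit 40, nat_lit 40, nat_lit 80, nat_lit 1, nat_lit 317, nat_lit 100, nat_lit 9]⟩,
 ⟨nat_lit 4743, nat_lit 5000, ⟨.ofNat (nat_lit 442849), .ofNat (nat_lit 514275), .ofNat (nat_lit 464274), .ofNat (nat_lit 535701), .ofNat (nat_lit 446544), .ofNat (nat_lit 516242), .ofNat (nat_lit 468029), .ofNat (nat_lit 537728)⟩, ⟨.ofNat (nat_lit 535713), .ofNat (nat_lit 607141), .ofNat (nat_lit 557141), .ofNat (nat_lit 628570), .ofNat (nat_lit 531957), .ofNat (nat_lit 601657), .ofNat (nat_lit 553445), .ofNat (nat_lit 623145)⟩⟩, [⟨nat_lit 16, nat_lit 94, nat_lit 88, nat_lit 100, nat_lit 293349032⟩, ⟨nat_lit 9, nat_lit 91, nat_lit 100, nat_lit 23, nat_lit 8158479⟩]⟩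
noncomputable def p070_l46 : Lf2 := ⟨nat_lit 0, nat_lit 10, [nat_lit 0, nat_lit 5, nat_lit 5, nat_lit 20], false, nat_lit 280, nat_lit 320, nat_lit 0, nat_lit 160, ⟨nat_lit 1000, nat_lit 0, nat_lit 0, nat_lit 0, nat_lit 0, nat_lit 0, nat_lit 0, nat_lit 0, nat_lit 0, nat_lit 0, nat_lit 0, nat_lit 0, nat_lit 0, nat_lit 0, nat_lit 0, nat_lit 0, false, false⟩,
 nat_lit 0, nat_lit 0, nat_lit 9949, nat_lit 0, nat_lit 4949, nat_lit 6887, nat_lit 0, nat_lit 0, nat_lit 0, nat_lit 3132, nat_lit 0, nat_lit 0, nat_lit 0, nat_lit 0, nat_lit 0, nat_lit 0, nat_lit 0, nat_lit 0, [],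
 ⟨p070_k0, nat_lit 0, nat_lit 0, nat_lit 0, nat_lit 0, nat_lit 0, [nat_lit 3282000000, nat_lit 6250000000, nat_lit 7968000000], [], [nat_lit 20305936716, nat_lit 20994122166, nat_lit 20808733711, nat_lit 21456098468, nat_lit 22760699086, nat_lit 23374674621, nat_lit 23117488254, nat_lit 23696045231], nat_lit 0, nat_lit 0, nat_lit 0, nat_lit 0, nat_lit 0, nat_lit 0, [], [nat_lit 18, nat_lit 40, nat_lit 40, nat_lit 80]⟩, ⟨p070_k0, nat_lit 0, nat_lit 0, nat_lit 495, nat_lit 0, nat_lit 749089, [nat_lit 3282000000, nat_lit 6250000000, nat_lit 7968000000], [], [nat_lit 18538734934, nat_lit 20014651177, nat_lit 19147131240, nat_lit 20529018688, nat_lit 14835685164, nat_lit 15330182501, nat_lit 18653025252, nat_lit 17093780904], nat_lit 1271250, nat_lit 1271250, nat_lit 780000, nat_lit 1100001, nat_lit 0, nat_lit 1100001, [nat_lit 780000, nat_lit 1435000, nat_lit 1271250], [nat_lit 18, nat_lit 40, nat_lit 40, nat_lit 80,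 nat_lit 2, nat_lit 317, nat_lit 100, nat_lit 10]⟩,
 zbF0, [⟨nat_lit 0, nat_lit 91, nat_lit 91, nat_lit 100, nat_lit 226045039⟩, ⟨nat_lit 4, nat_lit 95, nat_lit 95, nat_lit 100, nat_lit 580357780⟩]⟩
noncomputable def p070_l47 : Lf2 := ⟨nat_lit 0, nat_lit 10, [nat_lit 0, nat_lit 5, nat_lit 5, nat_lit 20], false, nat_lit 280, nat_lit 312, nat_lit 0, nat_lit 160, ⟨nat_lit 101, nat_lit 899, nat_lit 0, nat_lit 7, nat_lit 197, nat_lit 899, nat_lit 227, nat_lit 0, nat_lit 0, nat_lit 0, nat_lit 0, nat_lit 0, nat_lit 40625724, nat_lit 11708290, nat_lit 14665986, nat_lit 5074046, false, false⟩,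
 nat_lit 0, nat_lit 0, nat_lit 1673, nat_lit 0, nat_lit 3929, nat_lit 1064, nat_lit 0, nat_lit 0, nat_lit 0, nat_lit 140, nat_lit 0, nat_lit 0, nat_lit 0, nat_lit 0, nat_lit 0, nat_lit 359600, nat_lit 0, nat_lit 0, [(nat_lit 15, [(nat_lit 1, nat_lit 899)])],
 ⟨p070_k1, nat_lit 0, nat_lit 0, nat_lit 0, nat_lit 0, nat_lit 0, [nat_lit 2147641801, nat_lit 2748275134, nat_lit 2894000666], [], [nat_lit 20481317287, nat_lit 21095501737, nat_lit 21038129619, nat_lit 21617849505, nat_lit 22199470532, nat_lit 22819643418, nat_lit 22661043246, nat_lit 23213647661], nat_lit 0, nat_lit 0, nat_lit 0, nat_lit 0, nat_lit 0, nat_lit 0, [], [nat_lit 18, nat_lit 40, nat_lit 40, nat_lit 80]⟩, ⟨p070_k6, nat_lit 0, nat_lit 0, nat_lit 614, nat_lit 0, nat_lit 864973, [nat_lit 331482000, nat_lit 631250000, nat_lit 994042000], [], [nat_lit 2670496924, nat_lit 2280440832, nat_lit 2137691972, nat_lit 2306148960, nat_lit 1835747688, nat_lit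 1673718588, nat_lit 2337640892, nat_lit 1849507484], nat_lit 1271250, nat_lit 1271250, nat_lit 780000, nat_lit 1100001, nat_lit 0, nat_lit 1100001, [nat_lit 780000, nat_lit 1435000, nat_lit 1271250], [nat_lit 8, nat_lit 40, nat_lit 40, nat_lit 80, nat_lit 1, nat_lit 317, nat_lit 100, nat_lit 9]⟩,
 ⟨nat_lit 4472, nat_lit 4744, ⟨.ofNat (nat_lit 446540), .ofNat (nat_lit 516239), .ofNat (nat_lit 468025), .ofNat (nat_lit 537724), .ofNat (nat_lit 450297), .ofNat (nat_lit 518274), .ofNat (nat_lit 471860), .ofNat (nat_lit 539838)⟩, ⟨.ofNat (nat_lit 531957), .ofNat (nat_lit 587717), .ofNat (nat_lit 553445), .ofNat (nat_lit 609205), .ofNat (nat_lit 528122), .ofNat (nat_lit 582505), .ofNat (nat_lit 549689), .ofNat (nat_lit 604071)⟩⟩, [⟨nat_lit 16, nat_lit 91, nat_lit 91, nat_lit 100, nat_lit 290725410⟩, ⟨nat_lit 9, nat_lit 92, nat_lit 100, nat_lit 20, nat_lit 4580019⟩]⟩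
noncomputable def p070_l48 : Lf2 := ⟨nat_lit 0, nat_lit 10, [nat_lit 0, nat_lit 5, nat_lit 5, nat_lit 20], false, nat_lit 280, nat_lit 312, nat_lit 0, nat_lit 160, ⟨nat_lit 1000, nat_lit 0, nat_lit 0, nat_lit 0, nat_lit 0, nat_lit 0, nat_lit 0, nat_lit 0, nat_lit 0, nat_lit 0, nat_lit 0, nat_lit 0, nat_lit 0, nat_lit 0, nat_lit 0, nat_lit 0, false, false⟩,
 nat_lit 0, nat_lit 0, nat_lit 10002, nat_lit 0, nat_lit 5026, nat_lit 6924, nat_lit 0, nat_lit 0, nat_lit 0, nat_lit 3468, nat_lit 0, nat_lit 0, nat_lit 0, nat_lit 1557935444745, nat_lit 0, nat_lit 0, nat_lit 0, nat_lit 0, [],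
 ⟨p070_k1, nat_lit 0, nat_lit 0, nat_lit 0, nat_lit 0, nat_lit 0, [nat_lit 3282000000, nat_lit 6250000000, nat_lit 7968000000], [], [nat_lit 20947200984, nat_lit 21640972784, nat_lit 21402018095, nat_lit 22054489376, nat_lit 22898561931, nat_lit 23598411177, nat_lit 23206736655, nat_lit 23847576756], nat_lit 0, nat_lit 0, nat_lit 0, nat_lit 0, nat_lit 0, nat_lit 0, [], [nat_lit 18, nat_lit 40, nat_lit 40, nat_lit 80]⟩, ⟨p070_k0, nat_lit 0, nat_lit 0, nat_lit 568, nat_lit 0, nat_lit 928648, [nat_lit 3282000000, nat_lit 6250000000, nat_lit 7968000000], [], [nat_lit 18578868168, nat_lit 21541725840, nat_lit 19184520480, nat_lit 21958485472, nat_lit 15778537680, nat_lit 16924718736, nat_lit 17913930404, nat_lit 17274953088], nat_lit 1271250, nat_lit 1271250, nat_lit 780000, nat_lit 1100001, nat_lit 0, nat_lit 1100001, [nat_lit 780000, nat_lit 1435000, nat_lit 1271250], [nat_lit 18, nat_lit 40, nat_lit 40, nat_lit 80,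 nat_lit 2, nat_lit 317, nat_lit 100, nat_lit 10]⟩,
 zbF0, [⟨nat_lit 0, nat_lit 83, nat_lit 83, nat_lit 100, nat_lit 635830778⟩, ⟨nat_lit 4, nat_lit 99, nat_lit 92, nat_lit 100, nat_lit 578349502⟩]⟩
noncomputable def p070_l49 : Lf2 := ⟨nat_lit 0, nat_lit 10, [nat_lit 0, nat_lit 5, nat_lit 5, nat_lit 20], false, nat_lit 280, nat_lit 320, nat_lit 160, nat_lit 336, ⟨nat_lit 203, nat_lit 797, nat_lit 0, nat_lit 7, nat_lit 194, nat_lit 797, nat_lit 232, nat_lit 0, nat_lit 0, nat_lit 0, nat_lit 0, nat_lit 0, nat_lit 40503902, nat_lit 11377611, nat_lit 15118487, nat_lit 5076267, false, false⟩,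
 nat_lit 0, nat_lit 0, nat_lit 2269, nat_lit 0, nat_lit 2886, nat_lit 1443, nat_lit 0, nat_lit 0, nat_lit 0, nat_lit 316, nat_lit 0, nat_lit 0, nat_lit 0, nat_lit 0, nat_lit 0, nat_lit 199250, nat_lit 0, nat_lit 0, [(nat_lit 15, [(nat_lit 0, nat_lit 797)])],
 ⟨p070_k27, nat_lit 0, nat_lit 0, nat_lit 0, nat_lit 0, nat_lit 0, [nat_lit 1221378900, nat_lit 1835797701, nat_lit 2537887034, nat_lit 4065569200], [], [nat_lit 19232611804, nat_lit 19806112280, nat_lit 19939375184, nat_lit 20482886486, nat_lit 21416569372, nat_lit 21950490762, nat_lit 22011320416, nat_lit 22503781730], nat_lit 0, nat_lit 0, nat_lit 0, nat_lit 0, nat_lit 0, nat_lit 0, [], [nat_lit 186, nat_lit 40, nat_lit 20, nat_lit 40]⟩, ⟨p070_k25, nat_lit 0, nat_lit 0, nat_lit 365, nat_lit 0, nat_lit 664408, [nat_lit 666246000, nat_lit 951664000, nat_lit 1997926000], [], [nat_lit 3795123780, nat_lit 3892330023, nat_lit 4170676096, nat_lit 3919278658, nat_lit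 4952382178, nat_lit 5051017864, nat_lit 4951620304, nat_lit 5048932600], nat_lit 1271250, nat_lit 1271250, nat_lit 780000, nat_lit 1100001, nat_lit 1271250, nat_lit 1271250, [nat_lit 780000, nat_lit 1100000, nat_lit 2127500], [nat_lit 42, nat_lit 40, nat_lit 40, nat_lit 80, nat_lit 13, nat_lit 345, nat_lit 125, nat_lit 9]⟩,
 ⟨nat_lit 4743, nat_lit 5000, ⟨.ofNat (nat_lit 442849), .ofNat (nat_lit 514275), .ofNat (nat_lit 453562), .ofNat (nat_lit 524988), .ofNat (nat_lit 446544), .ofNat (nat_lit 516242), .ofNat (nat_lit 457287), .ofNat (nat_lit 526985)⟩, ⟨.ofNat (nat_lit 535713), .ofNat (nat_lit 607141), .ofNat (nat_lit 557141), .ofNat (nat_lit 628570), .ofNat (nat_lit 531957), .ofNat (nat_lit 601657), .ofNat (nat_lit 553445), .ofNat (nat_lit 623145)⟩⟩, [⟨nat_lit 16, nat_lit 94, nat_lit 88, nat_lit 100, nat_lit 227213232⟩, ⟨nat_lit 11, nat_lit 85, nat_lit 85, nat_lit 100, nat_lit 93183260⟩]⟩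
noncomputable def p070_l50 : Lf2 := ⟨nat_lit 0, nat_lit 10, [nat_lit 0, nat_lit 5, nat_lit 5, nat_lit 20], false, nat_lit 280, nat_lit 320, nat_lit 160, nat_lit 328, ⟨nat_lit 225, nat_lit 775, nat_lit 0, nat_lit 7, nat_lit 198, nat_lit 775, nat_lit 232, nat_lit 0, nat_lit 0, nat_lit 0, nat_lit 0, nat_lit 0, nat_lit 40225976, nat_lit 11725098, nat_lit 15048926, nat_lit 5107532, false, false⟩,
 nat_lit 0, nat_lit 0, nat_lit 2189, nat_lit 0, nat_lit 2873, nat_lit 1453, nat_lit 0, nat_lit 0, nat_lit 0, nat_lit 349, nat_lit 0, nat_lit 0, nat_lit 0, nat_lit 0, nat_lit 0, nat_lit 209500, nat_lit 0, nat_lit 0, [(nat_lit 15, [(nat_lit 0, nat_lit 670), (nat_lit 1, nat_lit 105)])],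
 ⟨p070_k27, nat_lit 0, nat_lit 0, nat_lit 0, nat_lit 0, nat_lit 0, [nat_lit 1212199500, nat_lit 1863639500, nat_lit 2584336167, nat_lit 4093952000], [], [nat_lit 19228518472, nat_lit 19800978090, nat_lit 19936402062, nat_lit 20478959723, nat_lit 21408614568, nat_lit 21941521191, nat_lit 22004848838, nat_lit 22496514565], nat_lit 0, nat_lit 0, nat_lit 0, nat_lit 0, nat_lit 0, nat_lit 0, [], [nat_lit 186, nat_lit 40, nat_lit 20, nat_lit 40]⟩, ⟨p070_k9, nat_lit 0, nat_lit 0, nat_lit 364, nat_lit 0, nat_lit 707879, [nat_lit 738450000, nat_lit 1054800000, nat_lit 1792800000], [], [nat_lit 4768412087, nat_lit 4395675450, nat_lit 4213248488, nat_lit 4319659923, nat_lit 5516269169, nat_lit 5492900834, nat_lit 6321055237, nat_lit 5988612615], nat_lit 1271250, nat_lit 1271250, nat_lit 780000, nat_lit 1100001, nat_lit 1100001, nat_lit 2538500, [nat_lit 780000, nat_lit 1100000, nat_lit 1785000], [nat_lit 36, nat_lit 40, nat_lit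 40, nat_lit 80, nat_lit 7, nat_lit 345, nat_lit 125, nat_lit 11]⟩,
 ⟨nat_lit 4743, nat_lit 5000, ⟨.ofNat (nat_lit 453562), .ofNat (nat_lit 524988), .ofNat (nat_lit 464274), .ofNat (nat_lit 535701), .ofNat (nat_lit 457287), .ofNat (nat_lit 526985), .ofNat (nat_lit 468029), .ofNat (nat_lit 537728)⟩, ⟨.ofNat (nat_lit 535713), .ofNat (nat_lit 607141), .ofNat (nat_lit 557141), .ofNat (nat_lit 628570), .ofNat (nat_lit 531957), .ofNat (nat_lit 601657), .ofNat (nat_lit 553445), .ofNat (nat_lit 623145)⟩⟩, [⟨nat_lit 16, nat_lit 94, nat_lit 88, nat_lit 100, nat_lit 214532376⟩, ⟨nat_lit 11, nat_lit 85, nat_lit 85, nat_lit 100, nat_lit 98283223⟩]⟩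
noncomputable def p070_l51 : Lf2 := ⟨nat_lit 0, nat_lit 10, [nat_lit 0, nat_lit 5, nat_lit 5, nat_lit 20], false, nat_lit 280, nat_lit 312, nat_lit 160, nat_lit 336, ⟨nat_lit 95, nat_lit 905, nat_lit 0, nat_lit 7, nat_lit 195, nat_lit 905, nat_lit 227, nat_lit 0, nat_lit 0, nat_lit 0, nat_lit 0, nat_lit 0, nat_lit 40767453, nat_lit 11532839, nat_lit 14699708, nat_lit 5058258, false, false⟩,
 nat_lit 0, nat_lit 0, nat_lit 1321, nat_lit 0, nat_lit 3260, nat_lit 840, nat_lit 0, nat_lit 0, nat_lit 0, nat_lit 87, nat_lit 0, nat_lit 0, nat_lit 0, nat_lit 0, nat_lit 0, nat_lit 226250, nat_lit 0, nat_lit 0, [(nat_lit 15, [(nat_lit 0, nat_lit 905)])],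
 ⟨p070_k7, nat_lit 0, nat_lit 0, nat_lit 0, nat_lit 0, nat_lit 0, [nat_lit 1591808000, nat_lit 2014638001, nat_lit 2597450000, nat_lit 3536758000], [], [nat_lit 20105327620, nat_lit 20697132200, nat_lit 20741297810, nat_lit 21301265600, nat_lit 21772245807, nat_lit 22344715769, nat_lit 22320379226, nat_lit 22837459584], nat_lit 0, nat_lit 0, nat_lit 0, nat_lit 0, nat_lit 0, nat_lit 0, [], [nat_lit 154, nat_lit 40, nat_lit 40, nat_lit 80]⟩, ⟨p070_k6, nat_lit 0, nat_lit 0, nat_lit 459, nat_lit 0, nat_lit 780131, [nat_lit 311790000, nat_lit 593750000, nat_lit 934990000], [], [nat_lit 2040419860, nat_lit 1955966720, nat_lit 1894591415, nat_lit 1940368740, nat_lit 2431514409, nat_lit 2480029110, nat_lit 2638062376, nat_lit 2457571507], nat_lit 1271250, nat_lit 1271250, nat_lit 780000, nat_lit 1100001, nat_lit 1100001, nat_lit 2607000, [nat_lit 780000, nat_lit 1435000, nat_lit 1271250], [nat_lit 8, nat_lit 40, nat_lit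 40, nat_lit 80, nat_lit 1, nat_lit 345, nat_lit 125, nat_lit 9]⟩,
 ⟨nat_lit 4472, nat_lit 4744, ⟨.ofNat (nat_lit 446540), .ofNat (nat_lit 516239), .ofNat (nat_lit 457283), .ofNat (nat_lit 526981), .ofNat (nat_lit 450297), .ofNat (nat_lit 518274), .ofNat (nat_lit 461079), .ofNat (nat_lit 529056)⟩, ⟨.ofNat (nat_lit 531957), .ofNat (nat_lit 587717), .ofNat (nat_lit 553445), .ofNat (nat_lit 609205), .ofNat (nat_lit 528122), .ofNat (nat_lit 582505), .ofNat (nat_lit 549689), .ofNat (nat_lit 604071)⟩⟩, [⟨nat_lit 16, nat_lit 91, nat_lit 91, nat_lit 100, nat_lit 240949193⟩, ⟨nat_lit 11, nat_lit 85, nat_lit 85, nat_lit 100, nat_lit 42790589⟩]⟩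
noncomputable def p070_l52 : Lf2 := ⟨nat_lit 0, nat_lit 10, [nat_lit 0, nat_lit 5, nat_lit 5, nat_lit 20], false, nat_lit 280, nat_lit 312, nat_lit 160, nat_lit 328, ⟨nat_lit 140, nat_lit 860, nat_lit 0, nat_lit 7, nat_lit 200, nat_lit 860, nat_lit 227, nat_lit 0, nat_lit 0, nat_lit 0, nat_lit 0, nat_lit 0, nat_lit 40483886, nat_lit 11884095, nat_lit 14632019, nat_lit 5089565, false, false⟩,
 nat_lit 0, nat_lit 0, nat_lit 1437, nat_lit 0, nat_lit 2855, nat_lit 954, nat_lit 0, nat_lit 0, nat_lit 0, nat_lit 174, nat_lit 0, nat_lit 0, nat_lit 0, nat_lit 0, nat_lit 0, nat_lit 215000, nat_lit 0, nat_lit 0, [(nat_lit 15, [(nat_lit 0, nat_lit 860)])],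
 ⟨p070_k26, nat_lit 0, nat_lit 0, nat_lit 0, nat_lit 0, nat_lit 0, [nat_lit 1202082000, nat_lit 1772426000, nat_lit 2415178001, nat_lit 3489626000], [], [nat_lit 19796461650, nat_lit 20367480080, nat_lit 20476115105, nat_lit 21017352340, nat_lit 21492598114, nat_lit 22035456001, nat_lit 22086458841, nat_lit 22587157605], nat_lit 0, nat_lit 0, nat_lit 0, nat_lit 0, nat_lit 0, nat_lit 0, [], [nat_lit 165, nat_lit 40, nat_lit 20, nat_lit 40]⟩, ⟨p070_k9, nat_lit 0, nat_lit 0, nat_lit 403, nat_lit 0, nat_lit 813649, [nat_lit 459480000, nat_lit 656320000, nat_lit 1115520000], [], [nat_lit 2925499846, nat_lit 2906880008, nat_lit 2866720754, nat_lit 2922486800, nat_lit 3536180537, nat_lit 3450311451, nat_lit 4054688083, nat_lit 3836415363], nat_lit 1271250, nat_lit 1271250, nat_lit 780000, nat_lit 1100001, nat_lit 1100001, nat_lit 2538500, [nat_lit 780000, nat_lit 1100000, nat_lit 1785000], [nat_lit 36, nat_lit 40, nat_lit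 40, nat_lit 80, nat_lit 7, nat_lit 345, nat_lit 125, nat_lit 11]⟩,
 ⟨nat_lit 4472, nat_lit 4744, ⟨.ofNat (nat_lit 457283), .ofNat (nat_lit 526981), .ofNat (nat_lit 468025), .ofNat (nat_lit 537724), .ofNat (nat_lit 461079), .ofNat (nat_lit 529056), .ofNat (nat_lit 471860), .ofNat (nat_lit 539838)⟩, ⟨.ofNat (nat_lit 531957), .ofNat (nat_lit 587717), .ofNat (nat_lit 553445), .ofNat (nat_lit 609205), .ofNat (nat_lit 528122), .ofNat (nat_lit 582505), .ofNat (nat_lit 549689), .ofNat (nat_lit 604071)⟩⟩, [⟨nat_lit 16, nat_lit 91, nat_lit 91, nat_lit 100, nat_lit 236588462⟩, ⟨nat_lit 11, nat_lit 85, nat_lit 85, nat_lit 100, nat_lit 56197448⟩]⟩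
noncomputable def p070_l53 : Lf2 := ⟨nat_lit 0, nat_lit 10, [nat_lit 0, nat_lit 5, nat_lit 5, nat_lit 20], false, nat_lit 280, nat_lit 320, nat_lit 160, nat_lit 320, ⟨nat_lit 173, nat_lit 827, nat_lit 0, nat_lit 7, nat_lit 203, nat_lit 827, nat_lit 232, nat_lit 0, nat_lit 0, nat_lit 0, nat_lit 0, nat_lit 0, nat_lit 39947651, nat_lit 12073938, nat_lit 14978411, nat_lit 5137737, false, false⟩,
 nat_lit 0, nat_lit 0, nat_lit 1526, nat_lit 0, nat_lit 2851, nat_lit 1056, nat_lit 0, nat_lit 0, nat_lit 0, nat_lit 226, nat_lit 0, nat_lit 0, nat_lit 0, nat_lit 9972388758823, nat_lit 0, nat_lit 206750, nat_lit 0, nat_lit 0, [(nat_lit 15, [(nat_lit 0, nat_lit 827)])],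
 ⟨p070_k27, nat_lit 0, nat_lit 0, nat_lit 0, nat_lit 0, nat_lit 0, [nat_lit 1212189901, nat_lit 1805620701, nat_lit 2484150034, nat_lit 3918677200], [], [nat_lit 19237116065, nat_lit 19807814231, nat_lit 19946895395, nat_lit 20487839202, nat_lit 21410745217, nat_lit 21926861627, nat_lit 22009421707, nat_lit 22499741056], nat_lit 0, nat_lit 0, nat_lit 0, nat_lit 0, nat_lit 0, nat_lit 0, [], [nat_lit 186, nat_lit 40, nat_lit 20, nat_lit 40]⟩, ⟨p070_k28, nat_lit 0, nat_lit 0, nat_lit 382, nat_lit 0, nat_lit 749089, [nat_lit 567786000, nat_lit 811024000, nat_lit 1378464000], [], [nat_lit 3446382076, nat_lit 3459482079, nat_lit 3422877832, nat_lit 3502603820, nat_lit 4122664662, nat_lit 4191162793, nat_lit 4583151700, nat_lit 4340920084], nat_lit 1271250, nat_lit 1271250, nat_lit 780000, nat_lit 1100001, nat_lit 1100001, nat_lit 2470000, [nat_lit 780000, nat_lit 1100000, nat_lit 1785000], [nat_lit 36, nat_lit 40, nat_lit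 40, nat_lit 80, nat_lit 7, nat_lit 345, nat_lit 125, nat_lit 11]⟩,
 ⟨nat_lit 4743, nat_lit 5000, ⟨.ofNat (nat_lit 464274), .ofNat (nat_lit 535701), .ofNat (nat_lit 474987), .ofNat (nat_lit 546414), .ofNat (nat_lit 468029), .ofNat (nat_lit 537728), .ofNat (nat_lit 478772), .ofNat (nat_lit 548471)⟩, ⟨.ofNat (nat_lit 535713), .ofNat (nat_lit 607141), .ofNat (nat_lit 557141), .ofNat (nat_lit 628570), .ofNat (nat_lit 531957), .ofNat (nat_lit 601657), .ofNat (nat_lit 553445), .ofNat (nat_lit 623145)⟩⟩, [⟨nat_lit 16, nat_lit 94, nat_lit 88, nat_lit 100, nat_lit 243877452⟩, ⟨nat_lit 19, nat_lit 94, nat_lit 88, nat_lit 100, nat_lit 7595363⟩, ⟨nat_lit 11, nat_lit 85, nat_lit 85, nat_lit 100, nat_lit 61804147⟩]⟩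
noncomputable def p070_l54 : Lf2 := ⟨nat_lit 0, nat_lit 5, [nat_lit 4, nat_lit 5, nat_lit 5, nat_lit 20], false, nat_lit 280, nat_lit 312, nat_lit 160, nat_lit 320, ⟨nat_lit 152, nat_lit 848, nat_lit 0, nat_lit 7, nat_lit 206, nat_lit 848, nat_lit 227, nat_lit 0, nat_lit 0, nat_lit 0, nat_lit 0, nat_lit 0, nat_lit 40057880, nat_lit 12413430, nat_lit 14528690, nat_lit 5134509, false, false⟩,
 nat_lit 0, nat_lit 0, nat_lit 1313, nat_lit 0, nat_lit 2860, nat_lit 908, nat_lit 0, nat_lit 0, nat_lit 0, nat_lit 240, nat_lit 0, nat_lit 0, nat_lit 0, nat_lit 7390203894204, nat_lit 0, nat_lit 212000, nat_lit 0, nat_lit 0, [(nat_lit 15, [(nat_lit 0, nat_lit 848)])],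
 ⟨p070_k19, nat_lit 0, nat_lit 0, nat_lit 0, nat_lit 0, nat_lit 0, [nat_lit 1205757600, nat_lit 1784496800, nat_lit 2410352801, nat_lit 2976477600], [], [nat_lit 19798581400, nat_lit 20370000160, nat_lit 20477770460, nat_lit 21019374480, nat_lit 21495841048, nat_lit 22038975201, nat_lit 22089142012, nat_lit 22590158929], nat_lit 0, nat_lit 0, nat_lit 0, nat_lit 0, nat_lit 0, nat_lit 0, [], [nat_lit 173, nat_lit 40, nat_lit 20, nat_lit 40]⟩, ⟨p070_k18, nat_lit 0, nat_lit 0, nat_lit 390, nat_lit 0, nat_lit 902986, [nat_lit 498864000, nat_lit 712576000, nat_lit 950000000], [], [nat_lit 3049598824, nat_lit 3122733616, nat_lit 3028614768, nat_lit 3171346560, nat_lit 3663866032, nat_lit 3778141872, nat_lit 3717247008, nat_lit 3792429872], nat_lit 1271250, nat_lit 1271250, nat_lit 780000, nat_lit 1100001, nat_lit 1100001, nat_lit 2470000, [nat_lit 780000, nat_lit 1100000, nat_lit 1442500], [nat_lit 59, nat_lit 40, nat_lit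 40, nat_lit 80, nat_lit 3, nat_lit 345, nat_lit 125, nat_lit 12]⟩,
 ⟨nat_lit 4472, nat_lit 4744, ⟨.ofNat (nat_lit 468025), .ofNat (nat_lit 537724), .ofNat (nat_lit 489510), .ofNat (nat_lit 559209), .ofNat (nat_lit 471860), .ofNat (nat_lit 539838), .ofNat (nat_lit 493423), .ofNat (nat_lit 561401)⟩, ⟨.ofNat (nat_lit 531957), .ofNat (nat_lit 587717), .ofNat (nat_lit 553445), .ofNat (nat_lit 609205), .ofNat (nat_lit 528122), .ofNat (nat_lit 582505), .ofNat (nat_lit 549689), .ofNat (nat_lit 604071)⟩⟩, [⟨nat_lit 0, nat_lit 90, nat_lit 88, nat_lit 100, nat_lit 106103285⟩, ⟨nat_lit 16, nat_lit 91, nat_lit 91, nat_lit 100, nat_lit 305218145⟩, ⟨nat_lit 7, nat_lit 97, nat_lit 94, nat_lit 100, nat_lit 56595322⟩]⟩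
noncomputable def p070_l55 : Lf2 := ⟨nat_lit 0, nat_lit 10, [nat_lit 0, nat_lit 5, nat_lit 5, nat_lit 20], false, nat_lit 280, nat_lit 312, nat_lit 160, nat_lit 320, ⟨nat_lit 1000, nat_lit 0, nat_lit 0, nat_lit 0, nat_lit 0, nat_lit 0, nat_lit 0, nat_lit 0, nat_lit 0, nat_lit 0, nat_lit 0, nat_lit 0, nat_lit 0, nat_lit 0, nat_lit 0, nat_lit 0, false, false⟩,
 nat_lit 0, nat_lit 0, nat_lit 8330, nat_lit 0, nat_lit 3198, nat_lit 5766, nat_lit 0, nat_lit 0, nat_lit 0, nat_lit 1614, nat_lit 0, nat_lit 0, nat_lit 0, nat_lit 0, nat_lit 0, nat_lit 0, nat_lit 0, nat_lit 0, [],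
 ⟨p070_k26, nat_lit 0, nat_lit 0, nat_lit 0, nat_lit 0, nat_lit 0, [nat_lit 1465500000, nat_lit 2637500000, nat_lit 3965500000, nat_lit 7089500000], [], [nat_lit 19953148340, nat_lit 20551629408, nat_lit 20600944298, nat_lit 21167342984, nat_lit 21726335227, nat_lit 22277498784, nat_lit 22281796212, nat_lit 22804320271], nat_lit 0, nat_lit 0, nat_lit 0, nat_lit 0, nat_lit 0, nat_lit 0, [], [nat_lit 165, nat_lit 40, nat_lit 20, nat_lit 40]⟩, ⟨p070_k28, nat_lit 0, nat_lit 0, nat_lit 298, nat_lit 0, nat_lit 588788, [nat_lit 3282000000, nat_lit 4688000000, nat_lit 7968000000], [], [nat_lit 20289162500, nat_lit 19837366424, nat_lit 19186975352, nat_lit 20235851648, nat_lit 23868167560, nat_lit 24675562800, nat_lit 25584078052, nat_lit 24802862800], nat_lit 1271250, nat_lit 1271250, nat_lit 780000, nat_lit 1100001, nat_lit 1100001, nat_lit 2470000, [nat_lit 780000, nat_lit 1100000, nat_lit 1785000], [nat_lit 36, nat_lit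 40, nat_lit 40, nat_lit 80, nat_lit 7, nat_lit 345, nat_lit 125, nat_lit 11]⟩,
 zbF0, [⟨nat_lit 0, nat_lit 90, nat_lit 88, nat_lit 100, nat_lit 343723308⟩, ⟨nat_lit 16, nat_lit 91, nat_lit 91, nat_lit 100, nat_lit 573072668⟩, ⟨nat_lit 7, nat_lit 97, nat_lit 94, nat_lit 100, nat_lit 367660566⟩]⟩
noncomputable def b_V_700_700_20_14 : St := ⟨true, nat_lit 0, nat_lit 1, nat_lit 1, nat_lit 120, nat_lit 300, nat_lit 320, nat_lit 280, nat_lit 320, nat_lit 120, nat_lit 160, nat_lit 100, nat_lit 120, nat_lit 280, nat_lit 320, nat_lit 0, nat_lit 336, nat_lit 0, nat_lit 40, nat_lit 300, nat_lit 460, nat_lit 0, nat_lit 0⟩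
theorem d_V_700_700_20_14 (h : EB TB.env) : Dead b_V_700_700_20_14 := chkB_sound0 h (T :=
(.spl (nat_lit 5) (nat_lit 160)
(.spl (nat_lit 0) (nat_lit 310)
(.ord (.spl (nat_lit 1) (nat_lit 300)
(.leaf p070_l45)
(.leaf p070_l46)))
(.trX (nat_lit 16) (nat_lit 91) (nat_lit 91) (nat_lit 100) (nat_lit 312) (.spl (nat_lit 1) (nat_lit 300)
(.leaf p070_l47)
(.leaf p070_l48))))
(.spl (nat_lit 1) (nat_lit 300)
(.spl (nat_lit 0) (nat_lit 310)
(.spl (nat_lit 1) (nat_lit 290)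
(.leaf p070_l49)
(.trX (nat_lit 19) (nat_lit 97) (nat_lit 84) (nat_lit 100) (nat_lit 328) (.leaf p070_l50)))
(.trX (nat_lit 16) (nat_lit 91) (nat_lit 91) (nat_lit 100) (nat_lit 312) (.spl (nat_lit 1) (nat_lit 290)
(.leaf p070_l51)
(.trX (nat_lit 19) (nat_lit 97) (nat_lit 84) (nat_lit 100) (nat_lit 328) (.leaf p070_l52)))))
(.trX (nat_lit 19) (nat_lit 94) (nat_lit 88) (nat_lit 100) (nat_lit 320) (.spl (nat_lit 0) (nat_lit 310)
(.ord (.leaf p070_l53))
(.trX (nat_lit 16) (nat_lit 91) (nat_lit 91) (nat_lit 100) (nat_lit 312) (.spl (nat_lit 6) (nat_lit 20)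
(.leaf p070_l54)
(.leaf p070_l55)))))))) (by decide +kernel)
noncomputable def p070_l56 : Lf2 := ⟨nat_lit 0, nat_lit 10, [nat_lit 0, nat_lit 5, nat_lit 5, nat_lit 20], false, nat_lit 240, nat_lit 300, nat_lit 0, nat_lit 320, ⟨nat_lit 73, nat_lit 927, nat_lit 0, nat_lit 7, nat_lit 239, nat_lit 927, nat_lit 201, nat_lit 0, nat_lit 0, nat_lit 0, nat_lit 0, nat_lit 0, nat_lit 39542957, nat_lit 15579870, nat_lit 11877173, nat_lit 5165320, false, false⟩,
 nat_lit 0, nat_lit 0, nat_lit 974, nat_lit 0, nat_lit 4186, nat_lit 619, nat_lit 0, nat_lit 0, nat_lit 0, nat_lit 0, nat_lit 0, nat_lit 0, nat_lit 0, nat_lit 0, nat_lit 0, nat_lit 231750, nat_lit 0, nat_lit 0, [(nat_lit 15, [(nat_lit 0, nat_lit 927)])],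
 ⟨p070_k0, nat_lit 0, nat_lit 0, nat_lit 43, nat_lit 0, nat_lit 0, [nat_lit 2388742800, nat_lit 2982139600, nat_lit 3436201800], [], [nat_lit 18359625952, nat_lit 19674066160, nat_lit 20909130388, nat_lit 22038127336, nat_lit 21573134305, nat_lit 22706205424, nat_lit 23669484082, nat_lit 24743459250], nat_lit 0, nat_lit 0, nat_lit 0, nat_lit 0, nat_lit 0, nat_lit 0, [], [nat_lit 18, nat_lit 40, nat_lit 40, nat_lit 80, nat_lit 2, nat_lit 272, nat_lit 60, nat_lit 8]⟩, ⟨p070_k6, nat_lit 0, nat_lit 0, nat_lit 649, nat_lit 0, nat_lit 996293, [nat_lit 239586000, nat_lit 456250000, nat_lit 718466000], [], [nat_lit 2562866392, nat_lit 2609869012, nat_lit 2597381072, nat_lit 2635998634, nat_lit 2325687500, nat_lit 2348285396, nat_lit 2811991048, nat_lit 2542204850], nat_lit 1271250, nat_lit 1271250, nat_lit 1100001, nat_lit 1785000, nat_lit 0, nat_lit 2260000, [nat_lit 780000, nat_lit 1435000, nat_lit 1271250], [nat_lit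 8, nat_lit 40, nat_lit 40, nat_lit 80, nat_lit 1, nat_lit 373, nat_lit 150, nat_lit 11]⟩,
 ⟨nat_lit 4472, nat_lit 5000, ⟨.ofNat (nat_lit 514240), .ofNat (nat_lit 657088), .ofNat (nat_lit 535656), .ofNat (nat_lit 678503), .ofNat (nat_lit 518242), .ofNat (nat_lit 654189), .ofNat (nat_lit 539796), .ofNat (nat_lit 675743)⟩, ⟨.ofNat (nat_lit 442856), .ofNat (nat_lit 549998), .ofNat (nat_lit 464284), .ofNat (nat_lit 571427), .ofNat (nat_lit 438578), .ofNat (nat_lit 540545), .ofNat (nat_lit 460144), .ofNat (nat_lit 562111)⟩⟩, [⟨nat_lit 16, nat_lit 100, nat_lit 100, nat_lit 100, nat_lit 214445017⟩, ⟨nat_lit 7, nat_lit 97, nat_lit 100, nat_lit 94, nat_lit 10074707⟩]⟩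
noncomputable def p070_l57 : Lf2 := ⟨nat_lit 0, nat_lit 10, [nat_lit 0, nat_lit 5, nat_lit 5, nat_lit 20], false, nat_lit 240, nat_lit 300, nat_lit 0, nat_lit 300, ⟨nat_lit 266, nat_lit 734, nat_lit 0, nat_lit 7, nat_lit 247, nat_lit 734, nat_lit 201, nat_lit 0, nat_lit 0, nat_lit 0, nat_lit 0, nat_lit 0, nat_lit 38927270, nat_lit 16322229, nat_lit 11750501, nat_lit 5207599, false, false⟩,
 nat_lit 0, nat_lit 0, nat_lit 2493, nat_lit 0, nat_lit 4372, nat_lit 1725, nat_lit 0, nat_lit 0, nat_lit 0, nat_lit 616, nat_lit 0, nat_lit 0, nat_lit 0, nat_lit 4457336635042, nat_lit 0, nat_lit 183500, nat_lit 0, nat_lit 0, [(nat_lit 15, [(nat_lit 0, nat_lit 734)])],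
 ⟨p070_k0, nat_lit 0, nat_lit 0, nat_lit 43, nat_lit 0, nat_lit 0, [nat_lit 2574717600, nat_lit 3662503200, nat_lit 4374042400], [], [nat_lit 18362061904, nat_lit 19705244320, nat_lit 20930468776, nat_lit 22082086672, nat_lit 21636422110, nat_lit 22792127848, nat_lit 23743463938, nat_lit 24838156500], nat_lit 0, nat_lit 0, nat_lit 0, nat_lit 0, nat_lit 0, nat_lit 0, [], [nat_lit 18, nat_lit 40, nat_lit 40, nat_lit 80, nat_lit 2, nat_lit 272, nat_lit 60, nat_lit 8]⟩, ⟨p070_k0, nat_lit 0, nat_lit 0, nat_lit 615, nat_lit 0, nat_lit 1045600, [nat_lit 873012000, nat_lit 1662500000, nat_lit 2119488000], [], [nat_lit 6589326042, nat_lit 5900052252, nat_lit 6141397032, nat_lit 6684190920, nat_lit 6162690247, nat_lit 6349477702, nat_lit 8310290580, nat_lit 7553651242], nat_lit 1271250, nat_lit 1271250, nat_lit 1100001, nat_lit 1785000, nat_lit 0, nat_lit 2118750, [nat_lit 780000, nat_lit 1435000, nat_lit 1271250], [nat_lit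 18, nat_lit 40, nat_lit 40, nat_lit 80, nat_lit 2, nat_lit 373, nat_lit 150, nat_lit 12]⟩,
 ⟨nat_lit 4472, nat_lit 5000, ⟨.ofNat (nat_lit 535656), .ofNat (nat_lit 678503), .ofNat (nat_lit 557072), .ofNat (nat_lit 699920), .ofNat (nat_lit 539796), .ofNat (nat_lit 675743), .ofNat (nat_lit 561349), .ofNat (nat_lit 697297)⟩, ⟨.ofNat (nat_lit 442856), .ofNat (nat_lit 549998), .ofNat (nat_lit 464284), .ofNat (nat_lit 571427), .ofNat (nat_lit 438578), .ofNat (nat_lit 540545), .ofNat (nat_lit 460144), .ofNat (nat_lit 562111)⟩⟩, [⟨nat_lit 4, nat_lit 100, nat_lit 91, nat_lit 91, nat_lit 338734232⟩, ⟨nat_lit 7, nat_lit 100, nat_lit 91, nat_lit 91, nat_lit 66358057⟩]⟩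
noncomputable def p070_l58 : Lf2 := ⟨nat_lit 0, nat_lit 10, [nat_lit 0, nat_lit 5, nat_lit 5, nat_lit 20], false, nat_lit 240, nat_lit 280, nat_lit 0, nat_lit 336, ⟨nat_lit 78, nat_lit 922, nat_lit 0, nat_lit 7, nat_lit 239, nat_lit 922, nat_lit 203, nat_lit 0, nat_lit 0, nat_lit 0, nat_lit 0, nat_lit 0, nat_lit 39439811, nat_lit 15551673, nat_lit 12008516, nat_lit 5176510, false, false⟩,
 nat_lit 0, nat_lit 0, nat_lit 908, nat_lit 0, nat_lit 4199, nat_lit 577, nat_lit 0, nat_lit 0, nat_lit 0, nat_lit 0, nat_lit 0, nat_lit 0, nat_lit 0, nat_lit 0, nat_lit 0, nat_lit 230500, nat_lit 0, nat_lit 0, [(nat_lit 15, [(nat_lit 0, nat_lit 922)])],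
 ⟨p070_k0, nat_lit 0, nat_lit 0, nat_lit 35, nat_lit 0, nat_lit 0, [nat_lit 2393560800, nat_lit 2999765600, nat_lit 3460434800], [], [nat_lit 18351615968, nat_lit 19668065040, nat_lit 20902441542, nat_lit 22033019524, nat_lit 20496790261, nat_lit 21692042024, nat_lit 22744827356, nat_lit 23798004438], nat_lit 0, nat_lit 0, nat_lit 0, nat_lit 0, nat_lit 0, nat_lit 0, [], [nat_lit 18, nat_lit 40, nat_lit 40, nat_lit 80, nat_lit 2, nat_lit 272, nat_lit 60, nat_lit 8]⟩, ⟨p070_k6, nat_lit 0, nat_lit 0, nat_lit 600, nat_lit 0, nat_lit 864973, [nat_lit 255996000, nat_lit 487500000, nat_lit 767676000], [], [nat_lit 2860061224, nat_lit 2923869222, nat_lit 2940653748, nat_lit 2994204668, nat_lit 2797575891, nat_lit 2829820424, nat_lit 3156629618, nat_lit 2906371332], nat_lit 1271250, nat_lit 1271250, nat_lit 1100001, nat_lit 1785000, nat_lit 0, nat_lit 2373000, [nat_lit 780000, nat_lit 1435000, nat_lit 1271250], [nat_lit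 8, nat_lit 40, nat_lit 40, nat_lit 80, nat_lit 1, nat_lit 373, nat_lit 150, nat_lit 11]⟩,
 ⟨nat_lit 4472, nat_lit 5000, ⟨.ofNat (nat_lit 514240), .ofNat (nat_lit 657088), .ofNat (nat_lit 535656), .ofNat (nat_lit 678503), .ofNat (nat_lit 518242), .ofNat (nat_lit 654189), .ofNat (nat_lit 539796), .ofNat (nat_lit 675743)⟩, ⟨.ofNat (nat_lit 464284), .ofNat (nat_lit 535713), .ofNat (nat_lit 485713), .ofNat (nat_lit 557141), .ofNat (nat_lit 460144), .ofNat (nat_lit 528122), .ofNat (nat_lit 481711), .ofNat (nat_lit 549689)⟩⟩, [⟨nat_lit 7, nat_lit 90, nat_lit 100, nat_lit 100, nat_lit 13478557⟩]⟩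
noncomputable def p070_l59 : Lf2 := ⟨nat_lit 0, nat_lit 10, [nat_lit 0, nat_lit 5, nat_lit 5, nat_lit 20], false, nat_lit 240, nat_lit 280, nat_lit 0, nat_lit 320, ⟨nat_lit 357, nat_lit 643, nat_lit 0, nat_lit 7, nat_lit 247, nat_lit 643, nat_lit 203, nat_lit 0, nat_lit 0, nat_lit 0, nat_lit 0, nat_lit 0, nat_lit 38827346, nat_lit 16292402, nat_lit 11880252, nat_lit 5218659, false, false⟩,
 nat_lit 0, nat_lit 0, nat_lit 3083, nat_lit 0, nat_lit 4554, nat_lit 2134, nat_lit 0, nat_lit 0, nat_lit 0, nat_lit 868, nat_lit 0, nat_lit 0, nat_lit 0, nat_lit 0, nat_lit 0, nat_lit 160750, nat_lit 0, nat_lit 0, [(nat_lit 15, [(nat_lit 0, nat_lit 643)])],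
 ⟨p070_k0, nat_lit 0, nat_lit 0, nat_lit 35, nat_lit 0, nat_lit 0, [nat_lit 2662405200, nat_lit 3983296400, nat_lit 4819614800], [], [nat_lit 18270157728, nat_lit 19641464240, nat_lit 20857060532, nat_lit 22030812904, nat_lit 20492760006, nat_lit 21735097904, nat_lit 22771986850, nat_lit 23948510948], nat_lit 0, nat_lit 0, nat_lit 0, nat_lit 0, nat_lit 0, nat_lit 0, [], [nat_lit 18, nat_lit 40, nat_lit 40, nat_lit 80, nat_lit 2, nat_lit 272, nat_lit 60, nat_lit 8]⟩, ⟨p070_k0, nat_lit 0, nat_lit 0, nat_lit 555, nat_lit 0, nat_lit 928648, [nat_lit 1171674000, nat_lit 2231250000, nat_lit 2844576000], [], [nat_lit 8774896308, nat_lit 8139386036, nat_lit 8526767334, nat_lit 8896461416, nat_lit 8996083306, nat_lit 9247376736, nat_lit 11761613948, nat_lit 10831527120], nat_lit 1271250, nat_lit 1271250, nat_lit 1100001, nat_lit 1785000, nat_lit 0, nat_lit 2260000, [nat_lit 780000, nat_lit 1435000, nat_lit 1271250], [nat_lit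 18, nat_lit 40, nat_lit 40, nat_lit 80, nat_lit 2, nat_lit 373, nat_lit 150, nat_lit 12]⟩,
 ⟨nat_lit 4472, nat_lit 5000, ⟨.ofNat (nat_lit 535656), .ofNat (nat_lit 678503), .ofNat (nat_lit 557072), .ofNat (nat_lit 699920), .ofNat (nat_lit 539796), .ofNat (nat_lit 675743), .ofNat (nat_lit 561349), .ofNat (nat_lit 697297)⟩, ⟨.ofNat (nat_lit 464284), .ofNat (nat_lit 535713), .ofNat (nat_lit 485713), .ofNat (nat_lit 557141), .ofNat (nat_lit 460144), .ofNat (nat_lit 528122), .ofNat (nat_lit 481711), .ofNat (nat_lit 549689)⟩⟩, [⟨nat_lit 7, nat_lit 97, nat_lit 94, nat_lit 100, nat_lit 88938744⟩]⟩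
noncomputable def p070_l60 : Lf2 := ⟨nat_lit 0, nat_lit 10, [nat_lit 0, nat_lit 5, nat_lit 5, nat_lit 20], false, nat_lit 280, nat_lit 320, nat_lit 4, nat_lit 160, ⟨nat_lit 193, nat_lit 807, nat_lit 0, nat_lit 7, nat_lit 239, nat_lit 807, nat_lit 231, nat_lit 0, nat_lit 0, nat_lit 0, nat_lit 0, nat_lit 0, nat_lit 37671002, nat_lit 15050490, nat_lit 14278508, nat_lit 5345159, false, false⟩,
 nat_lit 0, nat_lit 0, nat_lit 2610, nat_lit 0, nat_lit 4084, nat_lit 1660, nat_lit 0, nat_lit 0, nat_lit 0, nat_lit 405, nat_lit 0, nat_lit 0, nat_lit 0, nat_lit 0, nat_lit 0, nat_lit 322800, nat_lit 0, nat_lit 0, [(nat_lit 15, [(nat_lit 1, nat_lit 807)])],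
 ⟨p070_k0, nat_lit 0, nat_lit 0, nat_lit 51, nat_lit 0, nat_lit 0, [nat_lit 2263727400, nat_lit 3106627401, nat_lit 3409261999], [], [nat_lit 20455352876, nat_lit 21635351384, nat_lit 22697765896, nat_lit 23749248808, nat_lit 22575540928, nat_lit 23742068272, nat_lit 24627571872, nat_lit 25633808192], nat_lit 0, nat_lit 0, nat_lit 0, nat_lit 0, nat_lit 0, nat_lit 0, [], [nat_lit 18, nat_lit 40, nat_lit 40, nat_lit 80, nat_lit 2, nat_lit 272, nat_lit 60, nat_lit 7]⟩, ⟨p070_k6, nat_lit 0, nat_lit 0, nat_lit 597, nat_lit 0, nat_lit 864973, [nat_lit 633426000, nat_lit 1206250000, nat_lit 1899506000], [], [nat_lit 6302225780, nat_lit 5438997063, nat_lit 5463866176, nat_lit 5636370534, nat_lit 4382643940, nat_lit 4550886892, nat_lit 5353107768, nat_lit 4728069428], nat_lit 1271250, nat_lit 1271250, nat_lit 1100001, nat_lit 1785000, nat_lit 21650, nat_lit 1100001, [nat_lit 780000, nat_lit 1435000, nat_lit 1271250], [nat_lit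 8, nat_lit 40, nat_lit 40, nat_lit 80, nat_lit 1, nat_lit 317, nat_lit 100, nat_lit 9]⟩,
 ⟨nat_lit 4472, nat_lit 5000, ⟨.ofNat (nat_lit 514240), .ofNat (nat_lit 657088), .ofNat (nat_lit 535656), .ofNat (nat_lit 678503), .ofNat (nat_lit 518242), .ofNat (nat_lit 654189), .ofNat (nat_lit 539796), .ofNat (nat_lit 675743)⟩, ⟨.ofNat (nat_lit 535713), .ofNat (nat_lit 607141), .ofNat (nat_lit 557141), .ofNat (nat_lit 628570), .ofNat (nat_lit 528122), .ofNat (nat_lit 596101), .ofNat (nat_lit 549689), .ofNat (nat_lit 617667)⟩⟩, [⟨nat_lit 16, nat_lit 94, nat_lit 88, nat_lit 100, nat_lit 306580146⟩]⟩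
noncomputable def p070_l61 : Lf2 := ⟨nat_lit 0, nat_lit 10, [nat_lit 0, nat_lit 5, nat_lit 5, nat_lit 20], false, nat_lit 280, nat_lit 320, nat_lit 4, nat_lit 160, ⟨nat_lit 1000, nat_lit 0, nat_lit 0, nat_lit 0, nat_lit 0, nat_lit 0, nat_lit 0, nat_lit 0, nat_lit 0, nat_lit 0, nat_lit 0, nat_lit 0, nat_lit 0, nat_lit 0, nat_lit 0, nat_lit 0, false, false⟩,
 nat_lit 0, nat_lit 0, nat_lit 10053, nat_lit 0, nat_lit 5153, nat_lit 6959, nat_lit 0, nat_lit 0, nat_lit 0, nat_lit 3131, nat_lit 0, nat_lit 0, nat_lit 0, nat_lit 22220733328218, nat_lit 0, nat_lit 0, nat_lit 0, nat_lit 0, [],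
 ⟨p070_k0, nat_lit 0, nat_lit 0, nat_lit 51, nat_lit 0, nat_lit 0, [nat_lit 3282000000, nat_lit 6250000000, nat_lit 7968000000], [], [nat_lit 20651926867, nat_lit 21973714328, nat_lit 22954397325, nat_lit 24202464186, nat_lit 23105649476, nat_lit 24407956924, nat_lit 25157590624, nat_lit 26269102064], nat_lit 0, nat_lit 0, nat_lit 0, nat_lit 0, nat_lit 0, nat_lit 0, [], [nat_lit 18, nat_lit 40, nat_lit 40, nat_lit 80, nat_lit 2, nat_lit 272, nat_lit 60, nat_lit 7]⟩, ⟨p070_k0, nat_lit 0, nat_lit 0, nat_lit 552, nat_lit 0, nat_lit 928648, [nat_lit 3282000000, nat_lit 6250000000, nat_lit 7968000000], [], [nat_lit 22480507838, nat_lit 21713644440, nat_lit 23231827047, nat_lit 25541514120, nat_lit 16039289600, nat_lit 17115336008, nat_lit 18498258273, nat_lit 19849736220], nat_lit 1271250, nat_lit 1271250, nat_lit 1100001, nat_lit 1785000, nat_lit 21650, nat_lit 1100001, [nat_lit 780000, nat_lit 1435000, nat_lit 1271250],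 [nat_lit 18, nat_lit 40, nat_lit 40, nat_lit 80, nat_lit 2, nat_lit 317, nat_lit 100, nat_lit 10]⟩,
 zbF0, [⟨nat_lit 4, nat_lit 97, nat_lit 94, nat_lit 100, nat_lit 593763855⟩]⟩
noncomputable def p070_l62 : Lf2 := ⟨nat_lit 0, nat_lit 10, [nat_lit 0, nat_lit 5, nat_lit 5, nat_lit 20], false, nat_lit 280, nat_lit 320, nat_lit 160, nat_lit 336, ⟨nat_lit 230, nat_lit 770, nat_lit 0, nat_lit 7, nat_lit 237, nat_lit 770, nat_lit 231, nat_lit 0, nat_lit 0, nat_lit 0, nat_lit 0, nat_lit 0, nat_lit 37810733, nat_lit 14872284, nat_lit 14316983, nat_lit 5334458, false, false⟩,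
 nat_lit 0, nat_lit 0, nat_lit 2562, nat_lit 0, nat_lit 4218, nat_lit 1630, nat_lit 0, nat_lit 0, nat_lit 0, nat_lit 348, nat_lit 0, nat_lit 0, nat_lit 0, nat_lit 0, nat_lit 0, nat_lit 260750, nat_lit 0, nat_lit 0, [(nat_lit 15, [(nat_lit 0, nat_lit 315), (nat_lit 1, nat_lit 455)])],
 ⟨p070_k28, nat_lit 0, nat_lit 0, nat_lit 43, nat_lit 0, nat_lit 0, [nat_lit 2404347001, nat_lit 2890554001, nat_lit 3853974000], [], [nat_lit 20492971903, nat_lit 21690743769, nat_lit 22741938193, nat_lit 23806059716, nat_lit 22642290229, nat_lit 23825537944, nat_lit 24694010144, nat_lit 25713442784], nat_lit 0, nat_lit 0, nat_lit 0, nat_lit 0, nat_lit 0, nat_lit 0, [], [nat_lit 36, nat_lit 40, nat_lit 40, nat_lit 80, nat_lit 7, nat_lit 272, nat_lit 60, nat_lit 7]⟩, ⟨p070_k25, nat_lit 0, nat_lit 0, nat_lit 443, nat_lit 0, nat_lit 780131, [nat_lit 754860000, nat_lit 1078240000, nat_lit 2263660000], [], [nat_lit 6055786420, nat_lit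 5666470700, nat_lit 4754259980, nat_lit 4853085910, nat_lit 5623045912, nat_lit 5721949008, nat_lit 6023791097, nat_lit 6165228550], nat_lit 1271250, nat_lit 1271250, nat_lit 1271250, nat_lit 1271250, nat_lit 1271250, nat_lit 1271250, [nat_lit 780000, nat_lit 1100000, nat_lit 2127500], [nat_lit 42, nat_lit 40, nat_lit 40, nat_lit 80, nat_lit 13, nat_lit 373, nat_lit 150, nat_lit 10]⟩,
 ⟨nat_lit 4472, nat_lit 5000, ⟨.ofNat (nat_lit 514240), .ofNat (nat_lit 657088), .ofNat (nat_lit 524948), .ofNat (nat_lit 667796), .ofNat (nat_lit 518242), .ofNat (nat_lit 654189), .ofNat (nat_lit 529019), .ofNat (nat_lit 664966)⟩, ⟨.ofNat (nat_lit 535713), .ofNat (nat_lit 607141), .ofNat (nat_lit 557141), .ofNat (nat_lit 628570), .ofNat (nat_lit 528122), .ofNat (nat_lit 596101), .ofNat (nat_lit 549689), .ofNat (nat_lit 617667)⟩⟩, [⟨nat_lit 16, nat_lit 94, nat_lit 88, nat_lit 100, nat_lit 321360292⟩, ⟨nat_lit 7, nat_lit 87, nat_lit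 100, nat_lit 99, nat_lit 51131916⟩]⟩
noncomputable def p070_l63 : Lf2 := ⟨nat_lit 0, nat_lit 10, [nat_lit 0, nat_lit 5, nat_lit 5, nat_lit 20], false, nat_lit 280, nat_lit 320, nat_lit 160, nat_lit 328, ⟨nat_lit 296, nat_lit 704, nat_lit 0, nat_lit 7, nat_lit 241, nat_lit 704, nat_lit 231, nat_lit 0, nat_lit 0, nat_lit 0, nat_lit 0, nat_lit 0, nat_lit 37531361, nat_lit 15228765, nat_lit 14239874, nat_lit 5355614, false, false⟩,
 nat_lit 0, nat_lit 0, nat_lit 2890, nat_lit 0, nat_lit 4208, nat_lit 1919, nat_lit 0, nat_lit 0, nat_lit 0, nat_lit 511, nat_lit 0, nat_lit 0, nat_lit 0, nat_lit 0, nat_lit 0, nat_lit 281600, nat_lit 0, nat_lit 0, [(nat_lit 15, [(nat_lit 1, nat_lit 704)])],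
 ⟨p070_k28, nat_lit 0, nat_lit 0, nat_lit 43, nat_lit 0, nat_lit 0, [nat_lit 2393692800, nat_lit 3032755200, nat_lit 3988992000], [], [nat_lit 20490004312, nat_lit 21686449808, nat_lit 22738481552, nat_lit 23801820096, nat_lit 22637141568, nat_lit 23819308864, nat_lit 24689052064, nat_lit 25707499904], nat_lit 0, nat_lit 0, nat_lit 0, nat_lit 0, nat_lit 0, nat_lit 0, [], [nat_lit 36, nat_lit 40, nat_lit 40, nat_lit 80, nat_lit 7, nat_lit 272, nat_lit 60, nat_lit 7]⟩, ⟨p070_k9, nat_lit 0, nat_lit 0, nat_lit 392, nat_lit 0, nat_lit 813649, [nat_lit 971472000, nat_lit 1387648000, nat_lit 2358528000], [], [nat_lit 5724260811, nat_lit 5868734589, nat_lit 6885068084, nat_lit 6432945927, nat_lit 7145314313, nat_lit 7247948899, nat_lit 7645876780, nat_lit 7824815598], nat_lit 1271250, nat_lit 1271250, nat_lit 1100001, nat_lit 1785000, nat_lit 1271250, nat_lit 1271250, [nat_lit 780000, nat_lit 1100000, nat_lit 1785000],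 [nat_lit 36, nat_lit 40, nat_lit 40, nat_lit 80, nat_lit 7, nat_lit 373, nat_lit 150, nat_lit 11]⟩,
 ⟨nat_lit 4472, nat_lit 5000, ⟨.ofNat (nat_lit 524948), .ofNat (nat_lit 667796), .ofNat (nat_lit 535656), .ofNat (nat_lit 678503), .ofNat (nat_lit 529019), .ofNat (nat_lit 664966), .ofNat (nat_lit 539796), .ofNat (nat_lit 675743)⟩, ⟨.ofNat (nat_lit 535713), .ofNat (nat_lit 607141), .ofNat (nat_lit 557141), .ofNat (nat_lit 628570), .ofNat (nat_lit 528122), .ofNat (nat_lit 596101), .ofNat (nat_lit 549689), .ofNat (nat_lit 617667)⟩⟩, [⟨nat_lit 16, nat_lit 94, nat_lit 88, nat_lit 100, nat_lit 341765693⟩, ⟨nat_lit 7, nat_lit 92, nat_lit 99, nat_lit 100, nat_lit 109083057⟩]⟩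
noncomputable def p070_l64 : Lf2 := ⟨nat_lit 0, nat_lit 10, [nat_lit 0, nat_lit 5, nat_lit 5, nat_lit 20], false, nat_lit 280, nat_lit 320, nat_lit 160, nat_lit 320, ⟨nat_lit 435, nat_lit 565, nat_lit 0, nat_lit 7, nat_lit 245, nat_lit 565, nat_lit 231, nat_lit 0, nat_lit 0, nat_lit 0, nat_lit 0, nat_lit 0, nat_lit 37252395, nat_lit 15585454, nat_lit 14162151, nat_lit 5375786, false, false⟩,
 nat_lit 0, nat_lit 0, nat_lit 3801, nat_lit 0, nat_lit 4338, nat_lit 2631, nat_lit 0, nat_lit 0, nat_lit 0, nat_lit 845, nat_lit 0, nat_lit 0, nat_lit 0, nat_lit 0, nat_lit 0, nat_lit 226000, nat_lit 0, nat_lit 0, [(nat_lit 15, [(nat_lit 1, nat_lit 565)])],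
 ⟨p070_k28, nat_lit 0, nat_lit 0, nat_lit 43, nat_lit 0, nat_lit 0, [nat_lit 2569083001, nat_lit 3359572001, nat_lit 4774620000], [], [nat_lit 20565468583, nat_lit 21779156889, nat_lit 22820303473, nat_lit 23864172529, nat_lit 22740959749, nat_lit 23900286904, nat_lit 24753507104, nat_lit 25784757344], nat_lit 0, nat_lit 0, nat_lit 0, nat_lit 0, nat_lit 0, nat_lit 0, [], [nat_lit 36, nat_lit 40, nat_lit 40, nat_lit 80, nat_lit 7, nat_lit 272, nat_lit 60, nat_lit 7]⟩, ⟨p070_k28, nat_lit 0, nat_lit 0, nat_lit 406, nat_lit 0, nat_lit 846092, [nat_lit 1427670000, nat_lit 2039280000, nat_lit 3466080000], [], [nat_lit 9793371986, nat_lit 9108288527, nat_lit 9008561586, nat_lit 9221205063, nat_lit 10383616680, nat_lit 10557918198, nat_lit 11136641868, nat_lit 11397571878], nat_lit 1271250, nat_lit 1271250, nat_lit 1271250, nat_lit 1271250, nat_lit 1100001, nat_lit 2470000, [nat_lit 780000, nat_lit 1100000, nat_lit 1785000],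 [nat_lit 36, nat_lit 40, nat_lit 40, nat_lit 80, nat_lit 7, nat_lit 373, nat_lit 150, nat_lit 11]⟩,
 ⟨nat_lit 4472, nat_lit 5000, ⟨.ofNat (nat_lit 535656), .ofNat (nat_lit 678503), .ofNat (nat_lit 546364), .ofNat (nat_lit 689212), .ofNat (nat_lit 539796), .ofNat (nat_lit 675743), .ofNat (nat_lit 550573), .ofNat (nat_lit 686520)⟩, ⟨.ofNat (nat_lit 535713), .ofNat (nat_lit 607141), .ofNat (nat_lit 557141), .ofNat (nat_lit 628570), .ofNat (nat_lit 528122), .ofNat (nat_lit 596101), .ofNat (nat_lit 549689), .ofNat (nat_lit 617667)⟩⟩, [⟨nat_lit 4, nat_lit 97, nat_lit 94, nat_lit 100, nat_lit 388069734⟩, ⟨nat_lit 7, nat_lit 95, nat_lit 95, nat_lit 100, nat_lit 144062943⟩]⟩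
noncomputable def p070_l65 : Lf2 := ⟨nat_lit 0, nat_lit 10, [nat_lit 0, nat_lit 5, nat_lit 5, nat_lit 20], false, nat_lit 280, nat_lit 312, nat_lit 160, nat_lit 312, ⟨nat_lit 248, nat_lit 752, nat_lit 0, nat_lit 7, nat_lit 250, nat_lit 752, nat_lit 227, nat_lit 0, nat_lit 0, nat_lit 0, nat_lit 0, nat_lit 0, nat_lit 37192047, nat_lit 16021973, nat_lit 13785980, nat_lit 5375840, false, false⟩,
 nat_lit 0, nat_lit 0, nat_lit 2077, nat_lit 0, nat_lit 4086, nat_lit 1497, nat_lit 0, nat_lit 0, nat_lit 0, nat_lit 333, nat_lit 0, nat_lit 0, nat_lit 0, nat_lit 6865868138945, nat_lit 0, nat_lit 300800, nat_lit 0, nat_lit 0, [(nat_lit 15, [(nat_lit 1, nat_lit 752)])],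
 ⟨p070_k29, nat_lit 0, nat_lit 0, nat_lit 40, nat_lit 0, nat_lit 0, [nat_lit 2333126400, nat_lit 2919897601, nat_lit 3718806400], [], [nat_lit 21113346445, nat_lit 21703478336, nat_lit 23274617400, nat_lit 23783509416, nat_lit 22762279557, nat_lit 23304921997, nat_lit 24743380691, nat_lit 25258016761], nat_lit 0, nat_lit 0, nat_lit 0, nat_lit 0, nat_lit 0, nat_lit 0, [], [nat_lit 36, nat_lit 40, nat_lit 40, nat_lit 80, nat_lit 7, nat_lit 272, nat_lit 60, nat_lit 7]⟩, ⟨p070_k29, nat_lit 0, nat_lit 0, nat_lit 419, nat_lit 0, nat_lit 877137, [nat_lit 813936000, nat_lit 1162624000, nat_lit 1976064000], [], [nat_lit 5176841885, nat_lit 5063388665, nat_lit 5321073823, nat_lit 5418441213, nat_lit 5954250500, nat_lit 6058986823, nat_lit 6382492853, nat_lit 6534952239], nat_lit 1271250, nat_lit 1271250, nat_lit 1100001, nat_lit 1785000, nat_lit 1100001, nat_lit 2401500, [nat_lit 780000, nat_lit 1100000, nat_lit 1785000],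 [nat_lit 36, nat_lit 40, nat_lit 40, nat_lit 80, nat_lit 7, nat_lit 373, nat_lit 150, nat_lit 11]⟩,
 ⟨nat_lit 4472, nat_lit 4744, ⟨.ofNat (nat_lit 548466), .ofNat (nat_lit 687865), .ofNat (nat_lit 559209), .ofNat (nat_lit 698608), .ofNat (nat_lit 550619), .ofNat (nat_lit 686574), .ofNat (nat_lit 561401), .ofNat (nat_lit 697356)⟩, ⟨.ofNat (nat_lit 531957), .ofNat (nat_lit 587717), .ofNat (nat_lit 553445), .ofNat (nat_lit 609205), .ofNat (nat_lit 528122), .ofNat (nat_lit 582505), .ofNat (nat_lit 549689), .ofNat (nat_lit 604071)⟩⟩, [⟨nat_lit 4, nat_lit 99, nat_lit 92, nat_lit 100, nat_lit 325365185⟩, ⟨nat_lit 7, nat_lit 99, nat_lit 92, nat_lit 100, nat_lit 95498887⟩]⟩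
noncomputable def b_V_700_700_20_15 : St := ⟨true, nat_lit 0, nat_lit 1, nat_lit 1, nat_lit 120, nat_lit 300, nat_lit 320, nat_lit 280, nat_lit 320, nat_lit 160, nat_lit 240, nat_lit 80, nat_lit 120, nat_lit 240, nat_lit 320, nat_lit 0, nat_lit 336, nat_lit 0, nat_lit 40, nat_lit 0, nat_lit 0, nat_lit 0, nat_lit 0⟩
theorem d_V_700_700_20_15 (h : EB TB.env) : Dead b_V_700_700_20_15 := chkB_sound0 h (T :=
(.spl (nat_lit 3) (nat_lit 100)
(.trX (nat_lit 16) (nat_lit 100) (nat_lit 100) (nat_lit 100) (nat_lit 300) (.trX (nat_lit 19) (nat_lit 100) (nat_lit 88) (nat_lit 94) (nat_lit 320) (.spl (nat_lit 1) (nat_lit 300)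
(.leaf p070_l56)
(.trX (nat_lit 19) (nat_lit 100) (nat_lit 100) (nat_lit 100) (nat_lit 300) (.leaf p070_l57)))))
(.spl (nat_lit 4) (nat_lit 280)
(.spl (nat_lit 1) (nat_lit 300)
(.leaf p070_l58)
(.trX (nat_lit 19) (nat_lit 94) (nat_lit 88) (nat_lit 100) (nat_lit 320) (.leaf p070_l59)))
(.trZ (nat_lit 9) (nat_lit 94) (nat_lit 100) (nat_lit 21) (nat_lit 4) (.spl (nat_lit 5) (nat_lit 160)
(.spl (nat_lit 1) (nat_lit 300)
(.leaf p070_l60)
(.leaf p070_l61))
(.spl (nat_lit 1) (nat_lit 300)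
(.spl (nat_lit 1) (nat_lit 290)
(.leaf p070_l62)
(.trX (nat_lit 19) (nat_lit 97) (nat_lit 84) (nat_lit 100) (nat_lit 328) (.leaf p070_l63)))
(.trX (nat_lit 19) (nat_lit 94) (nat_lit 88) (nat_lit 100) (nat_lit 320) (.spl (nat_lit 1) (nat_lit 310)
(.leaf p070_l64)
(.ord (.trX (nat_lit 16) (nat_lit 91) (nat_lit 91) (nat_lit 100) (nat_lit 312) (.trX (nat_lit 19) (nat_lit 91) (nat_lit 91) (nat_lit 100) (nat_lit 312) (.leaf p070_l65)))))))))))) (by decide +kernel)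
noncomputable def p070_l66 : Lf2 := ⟨nat_lit 0, nat_lit 10, [nat_lit 0, nat_lit 5, nat_lit 5, nat_lit 20], false, nat_lit 0, nat_lit 160, nat_lit 0, nat_lit 336, ⟨nat_lit 1000, nat_lit 0, nat_lit 0, nat_lit 0, nat_lit 0, nat_lit 0, nat_lit 0, nat_lit 0, nat_lit 0, nat_lit 0, nat_lit 0, nat_lit 0, nat_lit 0, nat_lit 0, nat_lit 0, nat_lit 0, false, false⟩,
 nat_lit 0, nat_lit 0, nat_lit 11167, nat_lit 0, nat_lit 6487, nat_lit 7106, nat_lit 1099, nat_lit 0, nat_lit 0, nat_lit 676, nat_lit 0, nat_lit 0, nat_lit 0, nat_lit 0, nat_lit 0, nat_lit 0, nat_lit 0, nat_lit 0, [],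
 ⟨p070_k6, nat_lit 0, nat_lit 0, nat_lit 217, nat_lit 0, nat_lit 0, [nat_lit 3282000000, nat_lit 6250000000, nat_lit 9842000000], [], [nat_lit 24568936195, nat_lit 25978442653, nat_lit 36992899992, nat_lit 38207935582, nat_lit 20351674920, nat_lit 21487406486, nat_lit 30894285168, nat_lit 31751610732], nat_lit 0, nat_lit 0, nat_lit 0, nat_lit 0, nat_lit 0, nat_lit 0, [], [nat_lit 8, nat_lit 40, nat_lit 40, nat_lit 80, nat_lit 1, nat_lit 373, nat_lit 150, nat_lit 10]⟩, ⟨p070_k6, nat_lit 0, nat_lit 0, nat_lit 542, nat_lit 0, nat_lit 796178, [nat_lit 3282000000, nat_lit 6250000000, nat_lit 9842000000], [], [nat_lit 34260071356, nat_lit 34937376100, nat_lit 39494822788, nat_lit 39884158572, nat_lit 32773051925, nat_lit 33197280878, nat_lit 36108510868, nat_lit 36330677668], nat_lit 1271250, nat_lit 1271250, nat_lit 1271250, nat_lit 1271250, nat_lit 0, nat_lit 2373000, [nat_lit 780000, nat_lit 1435000, nat_lit 1271250],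 [nat_lit 8, nat_lit 40, nat_lit 40, nat_lit 80, nat_lit 1, nat_lit 428, nat_lit 200, nat_lit 12]⟩,
 zbF0, [⟨nat_lit 7, nat_lit 94, nat_lit 100, nat_lit 97, nat_lit 124407853⟩, ⟨nat_lit 22, nat_lit 83, nat_lit 100, nat_lit 83, nat_lit 23007182⟩]⟩
noncomputable def p070_l67 : Lf2 := ⟨nat_lit 0, nat_lit 10, [nat_lit 0, nat_lit 5, nat_lit 5, nat_lit 20], false, nat_lit 0, nat_lit 80, nat_lit 0, nat_lit 336, ⟨nat_lit 477, nat_lit 523, nat_lit 0, nat_lit 7, nat_lit 320, nat_lit 523, nat_lit 36, nat_lit 0, nat_lit 0, nat_lit 0, nat_lit 0, nat_lit 0, nat_lit 40837444, nat_lit 26162556, nat_lit 0, nat_lit 3344824, true, true⟩,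
 nat_lit 0, nat_lit 0, nat_lit 5552, nat_lit 0, nat_lit 4424, nat_lit 3533, nat_lit 1619, nat_lit 0, nat_lit 0, nat_lit 300, nat_lit 0, nat_lit 0, nat_lit 0, nat_lit 0, nat_lit 0, nat_lit 209200, nat_lit 0, nat_lit 0, [(nat_lit 15, [(nat_lit 1, nat_lit 523)])],
 ⟨p070_k0, nat_lit 0, nat_lit 0, nat_lit 199, nat_lit 0, nat_lit 0, [nat_lit 2622078600, nat_lit 4212845267, nat_lit 5012004000], [], [nat_lit 21498169476, nat_lit 22624859252, nat_lit 32623010864, nat_lit 33651200544, nat_lit 19968980868, nat_lit 21027281976, nat_lit 28986571568, nat_lit 29988642784], nat_lit 0, nat_lit 0, nat_lit 0, nat_lit 0, nat_lit 0, nat_lit 0, [], [nat_lit 18, nat_lit 40, nat_lit 40, nat_lit 80, nat_lit 2, nat_lit 226, nat_lit 20, nat_lit 7]⟩, ⟨p070_k6, nat_lit 0, nat_lit 0, nat_lit 608, nat_lit 0, nat_lit 937612, [nat_lit 1565514000, nat_lit 2981250000, nat_lit 4694634000], [], [nat_lit 17100677652, nat_lit 17223268703, nat_lit 19012462388,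 nat_lit 19103177915, nat_lit 15903583718, nat_lit 15976481864, nat_lit 17127411388, nat_lit 17293978071], nat_lit 1271250, nat_lit 1271250, nat_lit 1271250, nat_lit 1271250, nat_lit 0, nat_lit 2373000, [nat_lit 780000, nat_lit 1435000, nat_lit 1271250], [nat_lit 8, nat_lit 40, nat_lit 40, nat_lit 80, nat_lit 1, nat_lit 428, nat_lit 200, nat_lit 12]⟩,
 ⟨nat_lit 4472, nat_lit 5000, ⟨.ofNat (nat_lit 657088), .ofNat (nat_lit 942783), .ofNat (nat_lit 667796), .ofNat (nat_lit 953491), .ofNat (nat_lit 654189), .ofNat (nat_lit 926083), .ofNat (nat_lit 664966), .ofNat (nat_lit 936859)⟩, ⟨.ofNat (nat_lit 0), .ofNat (nat_lit 157141), .ofNat (nat_lit 0), .ofNat (nat_lit 199998), .ofNat (nat_lit 0), .ofNat (nat_lit 166665), .ofNat (nat_lit 0), .ofNat (nat_lit 200000)⟩⟩, [⟨nat_lit 22, nat_lit 80, nat_lit 100, nat_lit 60, nat_lit 132389190⟩]⟩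
noncomputable def p070_l68 : Lf2 := ⟨nat_lit 0, nat_lit 10, [nat_lit 0, nat_lit 5, nat_lit 5, nat_lit 20], false, nat_lit 0, nat_lit 80, nat_lit 0, nat_lit 328, ⟨nat_lit 1000, nat_lit 0, nat_lit 0, nat_lit 0, nat_lit 0, nat_lit 0, nat_lit 0, nat_lit 0, nat_lit 0, nat_lit 0, nat_lit 0, nat_lit 0, nat_lit 0, nat_lit 0, nat_lit 0, nat_lit 0, false, false⟩,
 nat_lit 0, nat_lit 0, nat_lit 9550, nat_lit 0, nat_lit 6077, nat_lit 6342, nat_lit 784, nat_lit 0, nat_lit 0, nat_lit 2860, nat_lit 0, nat_lit 0, nat_lit 0, nat_lit 0, nat_lit 0, nat_lit 0, nat_lit 0, nat_lit 0, [],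
 ⟨p070_k4, nat_lit 0, nat_lit 0, nat_lit 180, nat_lit 0, nat_lit 0, [nat_lit 3282000000, nat_lit 7968000000], [], [nat_lit 26586989634, nat_lit 28101335972, nat_lit 37300783342, nat_lit 38275891212, nat_lit 23171848256, nat_lit 24305555064, nat_lit 33045142640, nat_lit 33897373788], nat_lit 0, nat_lit 0, nat_lit 0, nat_lit 0, nat_lit 0, nat_lit 0, [], [nat_lit 74, nat_lit 40, nat_lit 40, nat_lit 80, nat_lit 43, nat_lit 226, nat_lit 20, nat_lit 7]⟩, ⟨p070_k30, nat_lit 0, nat_lit 0, nat_lit 545, nat_lit 0, nat_lit 964302, [nat_lit 3282000000, nat_lit 7968000000], [], [nat_lit 28335248510, nat_lit 28607070376, nat_lit 37214442142, nat_lit 37815393612, nat_lit 27198177978, nat_lit 27349367368, nat_lit 34582459072, nat_lit 34927698385], nat_lit 1271250, nat_lit 1271250, nat_lit 1271250, nat_lit 1271250, nat_lit 0, nat_lit 2316500, [nat_lit 780000, nat_lit 1762500], [nat_lit 74, nat_lit 40, nat_lit 40, nat_lit 80, nat_lit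 43, nat_lit 317, nat_lit 100, nat_lit 10]⟩,
 zbF0, [⟨nat_lit 7, nat_lit 97, nat_lit 100, nat_lit 98, nat_lit 56421916⟩, ⟨nat_lit 22, nat_lit 80, nat_lit 100, nat_lit 60, nat_lit 183599396⟩]⟩
noncomputable def p070_l69 : Lf2 := ⟨nat_lit 0, nat_lit 10, [nat_lit 0, nat_lit 5, nat_lit 5, nat_lit 20], false, nat_lit 80, nat_lit 160, nat_lit 0, nat_lit 336, ⟨nat_lit 285, nat_lit 715, nat_lit 0, nat_lit 7, nat_lit 320, nat_lit 715, nat_lit 101, nat_lit 0, nat_lit 0, nat_lit 0, nat_lit 0, nat_lit 0, nat_lit 38172277, nat_lit 24859470, nat_lit 3968253, nat_lit 4518678, true, true⟩,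
 nat_lit 0, nat_lit 0, nat_lit 3292, nat_lit 0, nat_lit 3988, nat_lit 2094, nat_lit 315, nat_lit 0, nat_lit 0, nat_lit 180, nat_lit 0, nat_lit 0, nat_lit 0, nat_lit 0, nat_lit 0, nat_lit 715000, nat_lit 0, nat_lit 0, [(nat_lit 15, [(nat_lit 2, nat_lit 715)])],
 ⟨p070_k0, nat_lit 0, nat_lit 0, nat_lit 138, nat_lit 0, nat_lit 0, [nat_lit 2446594001, nat_lit 2530570001, nat_lit 1772382000], [], [nat_lit 20106750771, nat_lit 21234910443, nat_lit 28268574616, nat_lit 29231957808, nat_lit 20872126939, nat_lit 21887142251, nat_lit 28230330859, nat_lit 28901039072], nat_lit 0, nat_lit 0, nat_lit 0, nat_lit 0, nat_lit 0, nat_lit 0, [], [nat_lit 18, nat_lit 40, nat_lit 40, nat_lit 80, nat_lit 2, nat_lit 249, nat_lit 40, nat_lit 7]⟩, ⟨p070_k6, nat_lit 0, nat_lit 0, nat_lit 608, nat_lit 0, nat_lit 937612, [nat_lit 935370000, nat_lit 1781250000, nat_lit 2804970000], [], [nat_lit 10280239608, nat_lit 10353367602, nat_lit 11420713944,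 nat_lit 11465521785, nat_lit 9585646443, nat_lit 9629266621, nat_lit 10279559518, nat_lit 10312605021], nat_lit 1271250, nat_lit 1271250, nat_lit 1271250, nat_lit 1271250, nat_lit 0, nat_lit 2373000, [nat_lit 780000, nat_lit 1435000, nat_lit 1271250], [nat_lit 8, nat_lit 40, nat_lit 40, nat_lit 80, nat_lit 1, nat_lit 428, nat_lit 200, nat_lit 12]⟩,
 ⟨nat_lit 4472, nat_lit 5000, ⟨.ofNat (nat_lit 657088), .ofNat (nat_lit 942783), .ofNat (nat_lit 667796), .ofNat (nat_lit 953491), .ofNat (nat_lit 654189), .ofNat (nat_lit 926083), .ofNat (nat_lit 664966), .ofNat (nat_lit 936859)⟩, ⟨.ofNat (nat_lit 157141), .ofNat (nat_lit 299999), .ofNat (nat_lit 199998), .ofNat (nat_lit 342856), .ofNat (nat_lit 166665), .ofNat (nat_lit 302621), .ofNat (nat_lit 200000), .ofNat (nat_lit 345754)⟩⟩, [⟨nat_lit 22, nat_lit 87, nat_lit 95, nat_lit 100, nat_lit 42209878⟩]⟩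
noncomputable def p070_l70 : Lf2 := ⟨nat_lit 0, nat_lit 10, [nat_lit 0, nat_lit 5, nat_lit 5, nat_lit 20], false, nat_lit 80, nat_lit 160, nat_lit 0, nat_lit 328, ⟨nat_lit 1000, nat_lit 0, nat_lit 0, nat_lit 0, nat_lit 0, nat_lit 0, nat_lit 0, nat_lit 0, nat_lit 0, nat_lit 0, nat_lit 0, nat_lit 0, nat_lit 0, nat_lit 0, nat_lit 0, nat_lit 0, false, false⟩,
 nat_lit 0, nat_lit 0, nat_lit 8295, nat_lit 0, nat_lit 8885, nat_lit 5508, nat_lit 5, nat_lit 0, nat_lit 0, nat_lit 3113, nat_lit 0, nat_lit 0, nat_lit 0, nat_lit 0, nat_lit 0, nat_lit 0, nat_lit 0, nat_lit 0, [],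
 ⟨p070_k4, nat_lit 0, nat_lit 0, nat_lit 134, nat_lit 0, nat_lit 0, [nat_lit 3282000000, nat_lit 7968000000], [], [nat_lit 23124768585, nat_lit 24923705755, nat_lit 36332866070, nat_lit 37730779660, nat_lit 22359302165, nat_lit 23944813435, nat_lit 33822744160, nat_lit 35074902440], nat_lit 0, nat_lit 0, nat_lit 0, nat_lit 0, nat_lit 0, nat_lit 0, [], [nat_lit 74, nat_lit 40, nat_lit 40, nat_lit 80, nat_lit 43, nat_lit 249, nat_lit 40, nat_lit 7]⟩, ⟨p070_k30, nat_lit 0, nat_lit 0, nat_lit 545, nat_lit 0, nat_lit 964302, [nat_lit 3282000000, nat_lit 7968000000], [], [nat_lit 30914174010, nat_lit 31202653446, nat_lit 35287038002, nat_lit 35557600488, nat_lit 31261401258, nat_lit 31425549043, nat_lit 33817103985, nat_lit 33945373573], nat_lit 1271250, nat_lit 1271250, nat_lit 1271250, nat_lit 1271250, nat_lit 0, nat_lit 2316500, [nat_lit 780000, nat_lit 1762500], [nat_lit 74, nat_lit 40, nat_lit 40, nat_lit 80, nat_lit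 43, nat_lit 317, nat_lit 100, nat_lit 10]⟩,
 zbF0, [⟨nat_lit 19, nat_lit 100, nat_lit 97, nat_lit 98, nat_lit 166082097⟩]⟩
noncomputable def p070_l71 : Lf2 := ⟨nat_lit 0, nat_lit 10, [nat_lit 0, nat_lit 5, nat_lit 5, nat_lit 20], false, nat_lit 0, nat_lit 160, nat_lit 0, nat_lit 320, ⟨nat_lit 1000, nat_lit 0, nat_lit 0, nat_lit 0, nat_lit 0, nat_lit 0, nat_lit 0, nat_lit 0, nat_lit 0, nat_lit 0, nat_lit 0, nat_lit 0, nat_lit 0, nat_lit 0, nat_lit 0, nat_lit 0, false, false⟩,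
 nat_lit 0, nat_lit 0, nat_lit 8079, nat_lit 0, nat_lit 6000, nat_lit 5593, nat_lit 1427, nat_lit 0, nat_lit 0, nat_lit 1558, nat_lit 0, nat_lit 0, nat_lit 0, nat_lit 0, nat_lit 0, nat_lit 0, nat_lit 0, nat_lit 0, [],
 ⟨p070_k4, nat_lit 0, nat_lit 0, nat_lit 180, nat_lit 0, nat_lit 0, [nat_lit 3282000000, nat_lit 7968000000], [], [nat_lit 24743710625, nat_lit 26247246625, nat_lit 36889536000, nat_lit 38060464000, nat_lit 21637284625, nat_lit 22640026625, nat_lit 30403396000, nat_lit 31437656000], nat_lit 0, nat_lit 0, nat_lit 0, nat_lit 0, nat_lit 0, nat_lit 0, [], [nat_lit 74, nat_lit 40, nat_lit 40, nat_lit 80, nat_lit 43, nat_lit 249, nat_lit 40, nat_lit 8]⟩, ⟨p070_k4, nat_lit 0, nat_lit 0, nat_lit 608, nat_lit 0, nat_lit 1075315, [nat_lit 3282000000, nat_lit 7968000000], [], [nat_lit 30766044150, nat_lit 31397089090, nat_lit 35787711298, nat_lit 36921777308, nat_lit 31364387654, nat_lit 31734002750, nat_lit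 34134053762, nat_lit 34362480292], nat_lit 1271250, nat_lit 1271250, nat_lit 1271250, nat_lit 1271250, nat_lit 0, nat_lit 2260000, [nat_lit 780000, nat_lit 1762500], [nat_lit 74, nat_lit 40, nat_lit 40, nat_lit 80, nat_lit 43, nat_lit 317, nat_lit 100, nat_lit 10]⟩,
 zbF0, [⟨nat_lit 7, nat_lit 100, nat_lit 93, nat_lit 97, nat_lit 161263398⟩]⟩
noncomputable def p070_l72 : Lf2 := ⟨nat_lit 0, nat_lit 10, [nat_lit 0, nat_lit 5, nat_lit 5, nat_lit 20], false, nat_lit 160, nat_lit 336, nat_lit 0, nat_lit 336, ⟨nat_lit 1000, nat_lit 0, nat_lit 0, nat_lit 0, nat_lit 0, nat_lit 0, nat_lit 0, nat_lit 0, nat_lit 0, nat_lit 0, nat_lit 0, nat_lit 0, nat_lit 0, nat_lit 0, nat_lit 0, nat_lit 0, false, false⟩,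
 nat_lit 0, nat_lit 0, nat_lit 10074, nat_lit 0, nat_lit 6224, nat_lit 6410, nat_lit 0, nat_lit 0, nat_lit 0, nat_lit 1247, nat_lit 0, nat_lit 0, nat_lit 0, nat_lit 0, nat_lit 0, nat_lit 0, nat_lit 0, nat_lit 0, [],
 ⟨p070_k25, nat_lit 0, nat_lit 0, nat_lit 73, nat_lit 0, nat_lit 0, [nat_lit 3282000000, nat_lit 4688000000, nat_lit 9842000000], [], [nat_lit 17875129792, nat_lit 18552771512, nat_lit 29617706112, nat_lit 30143295248, nat_lit 25829267840, nat_lit 26320187589, nat_lit 34504332845, nat_lit 34837824296], nat_lit 0, nat_lit 0, nat_lit 0, nat_lit 0, nat_lit 0, nat_lit 0, [], [nat_lit 42, nat_lit 40, nat_lit 40, nat_lit 80, nat_lit 13, nat_lit 428, nat_lit 200, nat_lit 11]⟩, ⟨p070_k25, nat_lit 0, nat_lit 0, nat_lit 459, nat_lit 0, nat_lit 595503, [nat_lit 3282000000, nat_lit 4688000000, nat_lit 9842000000], [], [nat_lit 28948750375, nat_lit 29313005245, nat_lit 36791420560, nat_lit 37395451410, nat_lit 29128744295,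 nat_lit 29324022575, nat_lit 34724849833, nat_lit 35060811140], nat_lit 1271250, nat_lit 1271250, nat_lit 1271250, nat_lit 1271250, nat_lit 0, nat_lit 2373000, [nat_lit 780000, nat_lit 1100000, nat_lit 2127500], [nat_lit 42, nat_lit 40, nat_lit 40, nat_lit 80, nat_lit 13, nat_lit 428, nat_lit 200, nat_lit 12]⟩,
 zbF0, [⟨nat_lit 16, nat_lit 100, nat_lit 91, nat_lit 96, nat_lit 376841573⟩, ⟨nat_lit 19, nat_lit 100, nat_lit 91, nat_lit 96, nat_lit 161083173⟩]⟩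
noncomputable def p070_l73 : Lf2 := ⟨nat_lit 0, nat_lit 10, [nat_lit 0, nat_lit 5, nat_lit 5, nat_lit 20], false, nat_lit 160, nat_lit 328, nat_lit 0, nat_lit 336, ⟨nat_lit 1000, nat_lit 0, nat_lit 0, nat_lit 0, nat_lit 0, nat_lit 0, nat_lit 0, nat_lit 0, nat_lit 0, nat_lit 0, nat_lit 0, nat_lit 0, nat_lit 0, nat_lit 0, nat_lit 0, nat_lit 0, false, false⟩,
 nat_lit 0, nat_lit 0, nat_lit 10149, nat_lit 0, nat_lit 5595, nat_lit 6458, nat_lit 1596, nat_lit 0, nat_lit 0, nat_lit 1245, nat_lit 0, nat_lit 0, nat_lit 0, nat_lit 0, nat_lit 0, nat_lit 0, nat_lit 0, nat_lit 0, [],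
 ⟨p070_k9, nat_lit 0, nat_lit 0, nat_lit 74, nat_lit 0, nat_lit 0, [nat_lit 3282000000, nat_lit 4688000000, nat_lit 7968000000], [], [nat_lit 19040494860, nat_lit 19680220460, nat_lit 29421547940, nat_lit 29923383520, nat_lit 25465326285, nat_lit 25946207859, nat_lit 33708046270, nat_lit 34042395519], nat_lit 0, nat_lit 0, nat_lit 0, nat_lit 0, nat_lit 0, nat_lit 0, [], [nat_lit 36, nat_lit 40, nat_lit 40, nat_lit 80, nat_lit 7, nat_lit 317, nat_lit 100, nat_lit 9]⟩, ⟨p070_k25, nat_lit 0, nat_lit 0, nat_lit 490, nat_lit 0, nat_lit 702427, [nat_lit 3282000000, nat_lit 4688000000, nat_lit 9842000000], [], [nat_lit 28786447125, nat_lit 29151700731, nat_lit 36917018128, nat_lit 37523222658, nat_lit 28923803221, nat_lit 29117396082, nat_lit 34781757442, nat_lit 35118356132], nat_lit 1271250, nat_lit 1271250, nat_lit 1271250, nat_lit 1271250, nat_lit 0, nat_lit 2373000, [nat_lit 780000, nat_lit 1100000, nat_lit 2127500],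 [nat_lit 42, nat_lit 40, nat_lit 40, nat_lit 80, nat_lit 13, nat_lit 428, nat_lit 200, nat_lit 12]⟩,
 zbF0, [⟨nat_lit 16, nat_lit 100, nat_lit 97, nat_lit 98, nat_lit 356162899⟩, ⟨nat_lit 19, nat_lit 100, nat_lit 91, nat_lit 96, nat_lit 159999185⟩]⟩
noncomputable def p070_l74 : Lf2 := ⟨nat_lit 0, nat_lit 10, [nat_lit 0, nat_lit 5, nat_lit 5, nat_lit 20], false, nat_lit 160, nat_lit 320, nat_lit 0, nat_lit 336, ⟨nat_lit 161, nat_lit 839, nat_lit 0, nat_lit 7, nat_lit 277, nat_lit 839, nat_lit 185, nat_lit 0, nat_lit 0, nat_lit 0, nat_lit 0, nat_lit 0, nat_lit 37706409, nat_lit 19259705, nat_lit 10033886, nat_lit 5206358, true, false⟩,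
 nat_lit 0, nat_lit 0, nat_lit 2076, nat_lit 0, nat_lit 3768, nat_lit 1320, nat_lit 0, nat_lit 0, nat_lit 0, nat_lit 113, nat_lit 0, nat_lit 0, nat_lit 0, nat_lit 0, nat_lit 0, nat_lit 335600, nat_lit 0, nat_lit 0, [(nat_lit 15, [(nat_lit 1, nat_lit 839)])],
 ⟨p070_k0, nat_lit 0, nat_lit 0, nat_lit 52, nat_lit 0, nat_lit 0, [nat_lit 2223349800, nat_lit 2981983134, nat_lit 3230040666], [], [nat_lit 18606701976, nat_lit 19856549480, nat_lit 20543640776, nat_lit 21682719400, nat_lit 24655935640, nat_lit 25547509448, nat_lit 26013658888, nat_lit 26831705800], nat_lit 0, nat_lit 0, nat_lit 0, nat_lit 0, nat_lit 0, nat_lit 0, [], [nat_lit 18, nat_lit 40, nat_lit 40, nat_lit 80, nat_lit 2, nat_lit 317, nat_lit 100, nat_lit 9]⟩, ⟨p070_k6, nat_lit 0, nat_lit 0, nat_lit 593, nat_lit 0, nat_lit 895582, [nat_lit 528402000, nat_lit 1006250000, nat_lit 1584562000], [], [nat_lit 4955781197, nat_lit 4984438046, nat_lit 5115073545,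 nat_lit 5140603895, nat_lit 4581775546, nat_lit 4599034560, nat_lit 4664468918, nat_lit 4679564593], nat_lit 1271250, nat_lit 1271250, nat_lit 1271250, nat_lit 1271250, nat_lit 0, nat_lit 2373000, [nat_lit 780000, nat_lit 1435000, nat_lit 1271250], [nat_lit 8, nat_lit 40, nat_lit 40, nat_lit 80, nat_lit 1, nat_lit 401, nat_lit 175, nat_lit 11]⟩,
 ⟨nat_lit 4472, nat_lit 5000, ⟨.ofNat (nat_lit 657088), .ofNat (nat_lit 728511), .ofNat (nat_lit 662441), .ofNat (nat_lit 733866), .ofNat (nat_lit 654189), .ofNat (nat_lit 722162), .ofNat (nat_lit 659577), .ofNat (nat_lit 727551)⟩, ⟨.ofNat (nat_lit 299999), .ofNat (nat_lit 585713), .ofNat (nat_lit 342856), .ofNat (nat_lit 628570), .ofNat (nat_lit 302621), .ofNat (nat_lit 574534), .ofNat (nat_lit 345754), .ofNat (nat_lit 617667)⟩⟩, [⟨nat_lit 16, nat_lit 94, nat_lit 88, nat_lit 100, nat_lit 193041169⟩, ⟨nat_lit 19, nat_lit 100, nat_lit 80, nat_lit 100, nat_lit 23600558⟩]⟩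
noncomputable def p070_l75 : Lf2 := ⟨nat_lit 0, nat_lit 10, [nat_lit 0, nat_lit 5, nat_lit 5, nat_lit 20], false, nat_lit 160, nat_lit 320, nat_lit 0, nat_lit 332, ⟨nat_lit 587, nat_lit 413, nat_lit 0, nat_lit 7, nat_lit 279, nat_lit 413, nat_lit 185, nat_lit 0, nat_lit 0, nat_lit 0, nat_lit 0, nat_lit 0, nat_lit 37548400, nat_lit 19447627, nat_lit 10003973, nat_lit 5213083, true, false⟩,
 nat_lit 0, nat_lit 0, nat_lit 6418, nat_lit 0, nat_lit 4369, nat_lit 4172, nat_lit 0, nat_lit 0, nat_lit 0, nat_lit 1988, nat_lit 0, nat_lit 0, nat_lit 0, nat_lit 0, nat_lit 0, nat_lit 165200, nat_lit 0, nat_lit 0, [(nat_lit 15, [(nat_lit 1, nat_lit 413)])],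
 ⟨p070_k0, nat_lit 0, nat_lit 0, nat_lit 52, nat_lit 0, nat_lit 0, [nat_lit 2760876600, nat_lit 4641309934, nat_lit 5633724000], [], [nat_lit 18551181208, nat_lit 19893900040, nat_lit 20603872608, nat_lit 21822804900, nat_lit 24860286070, nat_lit 25803188884, nat_lit 26295581848, nat_lit 27236831824], nat_lit 0, nat_lit 0, nat_lit 0, nat_lit 0, nat_lit 0, nat_lit 0, [], [nat_lit 18, nat_lit 40, nat_lit 40, nat_lit 80, nat_lit 2, nat_lit 317, nat_lit 100, nat_lit 9]⟩, ⟨p070_k31, nat_lit 0, nat_lit 0, nat_lit 598, nat_lit 0, nat_lit 909119, [nat_lit 1926534000, nat_lit 3668750000, nat_lit 5777254000], [], [nat_lit 15779702259, nat_lit 15900696462, nat_lit 16489426774, nat_lit 16598479636, nat_lit 15469462447, nat_lit 15544491972, nat_lit 16418815306, nat_lit 16582936933], nat_lit 1271250, nat_lit 1271250, nat_lit 1271250, nat_lit 1271250, nat_lit 0, nat_lit 2344750, [nat_lit 780000, nat_lit 1435000, nat_lit 1271250],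 [nat_lit 8, nat_lit 40, nat_lit 40, nat_lit 80, nat_lit 1, nat_lit 401, nat_lit 175, nat_lit 11]⟩,
 ⟨nat_lit 4472, nat_lit 5000, ⟨.ofNat (nat_lit 662441), .ofNat (nat_lit 733866), .ofNat (nat_lit 667796), .ofNat (nat_lit 739219), .ofNat (nat_lit 659577), .ofNat (nat_lit 727551), .ofNat (nat_lit 664966), .ofNat (nat_lit 732939)⟩, ⟨.ofNat (nat_lit 299999), .ofNat (nat_lit 585713), .ofNat (nat_lit 342856), .ofNat (nat_lit 628570), .ofNat (nat_lit 302621), .ofNat (nat_lit 574534), .ofNat (nat_lit 345754), .ofNat (nat_lit 617667)⟩⟩, [⟨nat_lit 16, nat_lit 94, nat_lit 88, nat_lit 100, nat_lit 91803478⟩, ⟨nat_lit 4, nat_lit 100, nat_lit 93, nat_lit 97, nat_lit 229765291⟩, ⟨nat_lit 19, nat_lit 99, nat_lit 82, nat_lit 100, nat_lit 106228640⟩]⟩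
noncomputable def p070_l76 : Lf2 := ⟨nat_lit 0, nat_lit 10, [nat_lit 0, nat_lit 5, nat_lit 5, nat_lit 20], true, nat_lit 160, nat_lit 240, nat_lit 4, nat_lit 336, ⟨nat_lit 0, nat_lit 1000, nat_lit 0, nat_lit 7, nat_lit 305, nat_lit 1000, nat_lit 157, nat_lit 0, nat_lit 0, nat_lit 0, nat_lit 0, nat_lit 0, nat_lit 37006798, nat_lit 22319532, nat_lit 7673670, nat_lit 5052035, true, true⟩,
 nat_lit 0, nat_lit 0, nat_lit 0, nat_lit 2826, nat_lit 3952, nat_lit 0, nat_lit 0, nat_lit 0, nat_lit 0, nat_lit 0, nat_lit 0, nat_lit 0, nat_lit 0, nat_lit 0, nat_lit 0, nat_lit 250000, nat_lit 0, nat_lit 0, [(nat_lit 15, [(nat_lit 0, nat_lit 1000)])],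
 ⟨p070_k0, nat_lit 0, nat_lit 0, nat_lit 51, nat_lit 0, nat_lit 0, [nat_lit 2318400000, nat_lit 2724800000, nat_lit 3082400000], [], [nat_lit 20492564064, nat_lit 21656090400, nat_lit 22702790592, nat_lit 23749490784, nat_lit 22736691344, nat_lit 23741693248, nat_lit 24648981760, nat_lit 25556270272], nat_lit 0, nat_lit 0, nat_lit 0, nat_lit 0, nat_lit 0, nat_lit 0, [], [nat_lit 18, nat_lit 40, nat_lit 40, nat_lit 80, nat_lit 2, nat_lit 272, nat_lit 60, nat_lit 7]⟩, C1.Rw.none,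
 ⟨nat_lit 4472, nat_lit 5000, ⟨.ofNat (nat_lit 728511), .ofNat (nat_lit 799935), .ofNat (nat_lit 733866), .ofNat (nat_lit 805289), .ofNat (nat_lit 722162), .ofNat (nat_lit 790136), .ofNat (nat_lit 727551), .ofNat (nat_lit 795524)⟩, ⟨.ofNat (nat_lit 299999), .ofNat (nat_lit 442856), .ofNat (nat_lit 342856), .ofNat (nat_lit 485713), .ofNat (nat_lit 302621), .ofNat (nat_lit 438578), .ofNat (nat_lit 345754), .ofNat (nat_lit 481711)⟩⟩, []⟩
noncomputable def p070_l77 : Lf2 := ⟨nat_lit 0, nat_lit 10, [nat_lit 0, nat_lit 5, nat_lit 5, nat_lit 20], false, nat_lit 240, nat_lit 320, nat_lit 36, nat_lit 336, ⟨nat_lit 222, nat_lit 778, nat_lit 0, nat_lit 7, nat_lit 306, nat_lit 778, nat_lit 214, nat_lit 0, nat_lit 0, nat_lit 0, nat_lit 0, nat_lit 0, nat_lit 34237008, nat_lit 21046332, nat_lit 11716660, nat_lit 5466587, true, true⟩,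
 nat_lit 0, nat_lit 0, nat_lit 2754, nat_lit 0, nat_lit 3752, nat_lit 1752, nat_lit 0, nat_lit 0, nat_lit 0, nat_lit 170, nat_lit 0, nat_lit 0, nat_lit 0, nat_lit 0, nat_lit 0, nat_lit 311200, nat_lit 0, nat_lit 0, [(nat_lit 15, [(nat_lit 1, nat_lit 778)])],
 ⟨p070_k0, nat_lit 0, nat_lit 0, nat_lit 58, nat_lit 0, nat_lit 0, [nat_lit 2300319600, nat_lit 3219586267, nat_lit 3571681333], [], [nat_lit 22867316544, nat_lit 23359442296, nat_lit 24741775360, nat_lit 25186879016, nat_lit 26098170832, nat_lit 26506623216, nat_lit 27656271232, nat_lit 28026869048], nat_lit 0, nat_lit 0, nat_lit 0, nat_lit 0, nat_lit 0, nat_lit 0, [], [nat_lit 18, nat_lit 40, nat_lit 40, nat_lit 80, nat_lit 2, nat_lit 203, nat_lit 0, nat_lit 5]⟩, ⟨p070_k6, nat_lit 0, nat_lit 0, nat_lit 490, nat_lit 0, nat_lit 772832, [nat_lit 728604000, nat_lit 1387500000, nat_lit 2184924000], [], [nat_lit 6805923459, nat_lit 6839617442, nat_lit 7075475328,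 nat_lit 7109581955, nat_lit 6702722703, nat_lit 6723558301, nat_lit 6869407484, nat_lit 6895844227], nat_lit 1271250, nat_lit 1271250, nat_lit 1271250, nat_lit 1271250, nat_lit 205650, nat_lit 2425650, [nat_lit 780000, nat_lit 1435000, nat_lit 1271250], [nat_lit 8, nat_lit 40, nat_lit 40, nat_lit 80, nat_lit 1, nat_lit 317, nat_lit 100, nat_lit 8]⟩,
 ⟨nat_lit 4743, nat_lit 5000, ⟨.ofNat (nat_lit 728556), .ofNat (nat_lit 799982), .ofNat (nat_lit 733912), .ofNat (nat_lit 805339), .ofNat (nat_lit 725336), .ofNat (nat_lit 795034), .ofNat (nat_lit 730708), .ofNat (nat_lit 800406)⟩, ⟨.ofNat (nat_lit 442856), .ofNat (nat_lit 585713), .ofNat (nat_lit 485713), .ofNat (nat_lit 628570), .ofNat (nat_lit 440769), .ofNat (nat_lit 580169), .ofNat (nat_lit 483746), .ofNat (nat_lit 623145)⟩⟩, [⟨nat_lit 16, nat_lit 94, nat_lit 88, nat_lit 100, nat_lit 234675533⟩, ⟨nat_lit 19, nat_lit 100, nat_lit 80, nat_lit 100, nat_lit 40366668⟩]⟩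
noncomputable def p070_l78 : Lf2 := ⟨nat_lit 0, nat_lit 10, [nat_lit 0, nat_lit 5, nat_lit 5, nat_lit 20], false, nat_lit 240, nat_lit 312, nat_lit 36, nat_lit 336, ⟨nat_lit 145, nat_lit 855, nat_lit 0, nat_lit 7, nat_lit 304, nat_lit 855, nat_lit 209, nat_lit 0, nat_lit 0, nat_lit 0, nat_lit 0, nat_lit 0, nat_lit 34552394, nat_lit 21018601, nat_lit 11429005, nat_lit 5438086, true, true⟩,
 nat_lit 0, nat_lit 0, nat_lit 1791, nat_lit 0, nat_lit 3659, nat_lit 1139, nat_lit 0, nat_lit 0, nat_lit 0, nat_lit 93, nat_lit 0, nat_lit 0, nat_lit 0, nat_lit 0, nat_lit 0, nat_lit 342000, nat_lit 0, nat_lit 0, [(nat_lit 15, [(nat_lit 1, nat_lit 855)])],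
 ⟨p070_k1, nat_lit 0, nat_lit 0, nat_lit 59, nat_lit 0, nat_lit 0, [nat_lit 2203161000, nat_lit 2919661000, nat_lit 3140430000], [], [nat_lit 23326607332, nat_lit 23813908616, nat_lit 25137305447, nat_lit 25578437724, nat_lit 26137646308, nat_lit 26550996162, nat_lit 27676816700, nat_lit 28056017209], nat_lit 0, nat_lit 0, nat_lit 0, nat_lit 0, nat_lit 0, nat_lit 0, [], [nat_lit 18, nat_lit 40, nat_lit 40, nat_lit 80, nat_lit 2, nat_lit 203, nat_lit 0, nat_lit 5]⟩, ⟨p070_k6, nat_lit 0, nat_lit 0, nat_lit 563, nat_lit 0, nat_lit 895582, [nat_lit 475890000, nat_lit 906250000, nat_lit 1427090000], [], [nat_lit 4578163261, nat_lit 4600141218, nat_lit 4753986914, nat_lit 4773242618, nat_lit 4399082471, nat_lit 4412692905, nat_lit 4507965944, nat_lit 4519612949], nat_lit 1271250, nat_lit 1271250, nat_lit 1271250, nat_lit 1271250, nat_lit 205650, nat_lit 2425650, [nat_lit 780000, nat_lit 1435000, nat_lit 1271250], [nat_lit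 8, nat_lit 40, nat_lit 40, nat_lit 80, nat_lit 1, nat_lit 317, nat_lit 100, nat_lit 8]⟩,
 ⟨nat_lit 4472, nat_lit 4744, ⟨.ofNat (nat_lit 725337), .ofNat (nat_lit 795036), .ofNat (nat_lit 730708), .ofNat (nat_lit 800407), .ofNat (nat_lit 722207), .ofNat (nat_lit 790184), .ofNat (nat_lit 727598), .ofNat (nat_lit 795575)⟩, ⟨.ofNat (nat_lit 440769), .ofNat (nat_lit 566229), .ofNat (nat_lit 483746), .ofNat (nat_lit 609205), .ofNat (nat_lit 438578), .ofNat (nat_lit 560938), .ofNat (nat_lit 481711), .ofNat (nat_lit 604071)⟩⟩, [⟨nat_lit 16, nat_lit 91, nat_lit 91, nat_lit 100, nat_lit 219875874⟩, ⟨nat_lit 19, nat_lit 100, nat_lit 80, nat_lit 100, nat_lit 24363449⟩]⟩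
noncomputable def p070_l79 : Lf2 := ⟨nat_lit 0, nat_lit 10, [nat_lit 0, nat_lit 5, nat_lit 5, nat_lit 20], false, nat_lit 160, nat_lit 320, nat_lit 4, nat_lit 332, ⟨nat_lit 1000, nat_lit 0, nat_lit 0, nat_lit 0, nat_lit 0, nat_lit 0, nat_lit 0, nat_lit 0, nat_lit 0, nat_lit 0, nat_lit 0, nat_lit 0, nat_lit 0, nat_lit 0, nat_lit 0, nat_lit 0, false, false⟩,
 nat_lit 0, nat_lit 0, nat_lit 10182, nat_lit 0, nat_lit 4753, nat_lit 6619, nat_lit 0, nat_lit 0, nat_lit 0, nat_lit 3741, nat_lit 0, nat_lit 0, nat_lit 0, nat_lit 0, nat_lit 0, nat_lit 0, nat_lit 0, nat_lit 0, [],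
 ⟨p070_k0, nat_lit 0, nat_lit 0, nat_lit 60, nat_lit 0, nat_lit 0, [nat_lit 3282000000, nat_lit 6250000000, nat_lit 7968000000], [], [nat_lit 20820035496, nat_lit 22089989100, nat_lit 23225396838, nat_lit 24360804576, nat_lit 26607995848, nat_lit 27496356000, nat_lit 28366413668, nat_lit 29236528248], nat_lit 0, nat_lit 0, nat_lit 0, nat_lit 0, nat_lit 0, nat_lit 0, [], [nat_lit 18, nat_lit 40, nat_lit 40, nat_lit 80, nat_lit 2, nat_lit 317, nat_lit 100, nat_lit 9]⟩, ⟨p070_k31, nat_lit 0, nat_lit 0, nat_lit 590, nat_lit 0, nat_lit 909119, [nat_lit 3282000000, nat_lit 6250000000, nat_lit 9842000000], [], [nat_lit 29123962928, nat_lit 29263673702, nat_lit 30226489519, nat_lit 30351040690, nat_lit 28174134563, nat_lit 28269744307, nat_lit 29802909762, nat_lit 30040910633], nat_lit 1271250, nat_lit 1271250, nat_lit 1271250, nat_lit 1271250, nat_lit 21650, nat_lit 2350450, [nat_lit 780000, nat_lit 1435000, nat_lit 1271250],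 [nat_lit 8, nat_lit 40, nat_lit 40, nat_lit 80, nat_lit 1, nat_lit 317, nat_lit 100, nat_lit 9]⟩,
 zbF0, [⟨nat_lit 4, nat_lit 100, nat_lit 93, nat_lit 97, nat_lit 417767905⟩, ⟨nat_lit 7, nat_lit 92, nat_lit 100, nat_lit 96, nat_lit 181516925⟩]⟩
noncomputable def p070_l80 : Lf2 := ⟨nat_lit 0, nat_lit 10, [nat_lit 0, nat_lit 5, nat_lit 5, nat_lit 20], false, nat_lit 160, nat_lit 320, nat_lit 16, nat_lit 160, ⟨nat_lit 844, nat_lit 156, nat_lit 0, nat_lit 8, nat_lit 348, nat_lit 156, nat_lit 185, nat_lit 0, nat_lit 0, nat_lit 0, nat_lit 0, nat_lit 0, nat_lit 32709217, nat_lit 25277190, nat_lit 9013593, nat_lit 5313175, true, true⟩,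
 nat_lit 0, nat_lit 0, nat_lit 10012, nat_lit 0, nat_lit 4547, nat_lit 6371, nat_lit 2904, nat_lit 0, nat_lit 0, nat_lit 585, nat_lit 0, nat_lit 0, nat_lit 0, nat_lit 0, nat_lit 0, nat_lit 62400, nat_lit 0, nat_lit 0, [(nat_lit 15, [(nat_lit 1, nat_lit 156)])],
 ⟨p070_k0, nat_lit 0, nat_lit 0, nat_lit 90, nat_lit 0, nat_lit 0, [nat_lit 3085159200, nat_lit 5642359200, nat_lit 7086288000], [], [nat_lit 24039796234, nat_lit 25043328740, nat_lit 28824570142, nat_lit 29605794968, nat_lit 28647738644, nat_lit 29364073520, nat_lit 32462159332, nat_lit 33115997864], nat_lit 0, nat_lit 0, nat_lit 0, nat_lit 0, nat_lit 0, nat_lit 0, [], [nat_lit 18, nat_lit 40, nat_lit 40, nat_lit 80, nat_lit 2, nat_lit 317, nat_lit 100, nat_lit 9]⟩, ⟨p070_k6, nat_lit 0, nat_lit 0, nat_lit 592, nat_lit 0, nat_lit 937612, [nat_lit 2770008000, nat_lit 5275000000, nat_lit 8306648000], [], [nat_lit 30245016710, nat_lit 30411326195, nat_lit 32595157992,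 nat_lit 32949311391, nat_lit 27151746756, nat_lit 27321146394, nat_lit 29156662004, nat_lit 29276312604], nat_lit 1271250, nat_lit 1271250, nat_lit 1271250, nat_lit 1271250, nat_lit 88400, nat_lit 1100001, [nat_lit 780000, nat_lit 1435000, nat_lit 1271250], [nat_lit 8, nat_lit 40, nat_lit 40, nat_lit 80, nat_lit 1, nat_lit 255, nat_lit 40, nat_lit 7]⟩,
 ⟨nat_lit 4472, nat_lit 5000, ⟨.ofNat (nat_lit 799935), .ofNat (nat_lit 942783), .ofNat (nat_lit 810643), .ofNat (nat_lit 953491), .ofNat (nat_lit 790136), .ofNat (nat_lit 926083), .ofNat (nat_lit 800912), .ofNat (nat_lit 936859)⟩, ⟨.ofNat (nat_lit 299999), .ofNat (nat_lit 585713), .ofNat (nat_lit 342856), .ofNat (nat_lit 628570), .ofNat (nat_lit 302621), .ofNat (nat_lit 574534), .ofNat (nat_lit 345754), .ofNat (nat_lit 617667)⟩⟩, [⟨nat_lit 4, nat_lit 100, nat_lit 93, nat_lit 97, nat_lit 328677222⟩]⟩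
noncomputable def p070_l81 : Lf2 := ⟨nat_lit 0, nat_lit 10, [nat_lit 0, nat_lit 5, nat_lit 5, nat_lit 20], false, nat_lit 160, nat_lit 320, nat_lit 160, nat_lit 336, ⟨nat_lit 1000, nat_lit 0, nat_lit 0, nat_lit 0, nat_lit 0, nat_lit 0, nat_lit 0, nat_lit 0, nat_lit 0, nat_lit 0, nat_lit 0, nat_lit 0, nat_lit 0, nat_lit 0, nat_lit 0, nat_lit 0, false, false⟩,
 nat_lit 0, nat_lit 0, nat_lit 9614, nat_lit 0, nat_lit 4878, nat_lit 6117, nat_lit 2001, nat_lit 0, nat_lit 0, nat_lit 1233, nat_lit 0, nat_lit 0, nat_lit 0, nat_lit 0, nat_lit 0, nat_lit 0, nat_lit 0, nat_lit 0, [],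
 ⟨p070_k28, nat_lit 0, nat_lit 0, nat_lit 78, nat_lit 0, nat_lit 0, [nat_lit 3282000000, nat_lit 4688000000, nat_lit 7968000000], [], [nat_lit 23946054516, nat_lit 24980965160, nat_lit 29073583648, nat_lit 30023101232, nat_lit 28606966856, nat_lit 29339026880, nat_lit 32845508968, nat_lit 33509858736], nat_lit 0, nat_lit 0, nat_lit 0, nat_lit 0, nat_lit 0, nat_lit 0, [], [nat_lit 36, nat_lit 40, nat_lit 40, nat_lit 80, nat_lit 7, nat_lit 317, nat_lit 100, nat_lit 9]⟩, ⟨p070_k25, nat_lit 0, nat_lit 0, nat_lit 471, nat_lit 0, nat_lit 895582, [nat_lit 3282000000, nat_lit 4688000000, nat_lit 9842000000], [], [nat_lit 29546567129, nat_lit 29667039323, nat_lit 32179007709, nat_lit 32270499462, nat_lit 31982198463, nat_lit 32084378266, nat_lit 34377476299, nat_lit 34543511609], nat_lit 1271250, nat_lit 1271250, nat_lit 1271250, nat_lit 1271250, nat_lit 1100001, nat_lit 2607000, [nat_lit 780000, nat_lit 1100000, nat_lit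 2127500], [nat_lit 42, nat_lit 40, nat_lit 40, nat_lit 80, nat_lit 13, nat_lit 317, nat_lit 100, nat_lit 8]⟩,
 zbF0, [⟨nat_lit 16, nat_lit 93, nat_lit 100, nat_lit 97, nat_lit 369648036⟩, ⟨nat_lit 19, nat_lit 100, nat_lit 80, nat_lit 100, nat_lit 293121085⟩]⟩
noncomputable def p070_l82 : Lf2 := ⟨nat_lit 0, nat_lit 10, [nat_lit 0, nat_lit 5, nat_lit 5, nat_lit 20], false, nat_lit 160, nat_lit 320, nat_lit 160, nat_lit 332, ⟨nat_lit 1000, nat_lit 0, nat_lit 0, nat_lit 0, nat_lit 0, nat_lit 0, nat_lit 0, nat_lit 0, nat_lit 0, nat_lit 0, nat_lit 0, nat_lit 0, nat_lit 0, nat_lit 0, nat_lit 0, nat_lit 0, false, false⟩,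
 nat_lit 0, nat_lit 0, nat_lit 8780, nat_lit 0, nat_lit 5199, nat_lit 5708, nat_lit 513, nat_lit 0, nat_lit 0, nat_lit 2468, nat_lit 0, nat_lit 0, nat_lit 0, nat_lit 0, nat_lit 0, nat_lit 0, nat_lit 0, nat_lit 0, [],
 ⟨p070_k28, nat_lit 0, nat_lit 0, nat_lit 78, nat_lit 0, nat_lit 0, [nat_lit 3282000000, nat_lit 4688000000, nat_lit 7968000000], [], [nat_lit 24690489500, nat_lit 25693743272, nat_lit 29580742110, nat_lit 30428175664, nat_lit 29101497752, nat_lit 29806252172, nat_lit 33217277044, nat_lit 33891820488], nat_lit 0, nat_lit 0, nat_lit 0, nat_lit 0, nat_lit 0, nat_lit 0, [], [nat_lit 36, nat_lit 40, nat_lit 40, nat_lit 80, nat_lit 7, nat_lit 317, nat_lit 100, nat_lit 9]⟩, ⟨p070_k32, nat_lit 0, nat_lit 0, nat_lit 475, nat_lit 0, nat_lit 909119, [nat_lit 3282000000, nat_lit 4688000000, nat_lit 9842000000], [], [nat_lit 28441680256, nat_lit 28594636944, nat_lit 31595549456, nat_lit 31714756416, nat_lit 31413250952,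 nat_lit 31516372808, nat_lit 33864108881, nat_lit 34029767931], nat_lit 1271250, nat_lit 1271250, nat_lit 1271250, nat_lit 1271250, nat_lit 1100001, nat_lit 2572750, [nat_lit 780000, nat_lit 1100000, nat_lit 2127500], [nat_lit 42, nat_lit 40, nat_lit 40, nat_lit 80, nat_lit 13, nat_lit 317, nat_lit 100, nat_lit 8]⟩,
 zbF0, [⟨nat_lit 16, nat_lit 93, nat_lit 100, nat_lit 97, nat_lit 368862150⟩, ⟨nat_lit 19, nat_lit 99, nat_lit 82, nat_lit 100, nat_lit 297762829⟩]⟩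
noncomputable def p070_l83 : Lf2 := ⟨nat_lit 0, nat_lit 10, [nat_lit 0, nat_lit 5, nat_lit 5, nat_lit 20], false, nat_lit 160, nat_lit 328, nat_lit 0, nat_lit 328, ⟨nat_lit 1000, nat_lit 0, nat_lit 0, nat_lit 0, nat_lit 0, nat_lit 0, nat_lit 0, nat_lit 0, nat_lit 0, nat_lit 0, nat_lit 0, nat_lit 0, nat_lit 0, nat_lit 0, nat_lit 0, nat_lit 0, false, false⟩,
 nat_lit 0, nat_lit 0, nat_lit 9418, nat_lit 0, nat_lit 4816, nat_lit 6254, nat_lit 0, nat_lit 0, nat_lit 0, nat_lit 3463, nat_lit 0, nat_lit 0, nat_lit 0, nat_lit 0, nat_lit 0, nat_lit 0, nat_lit 0, nat_lit 0, [],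
 ⟨p070_k30, nat_lit 0, nat_lit 0, nat_lit 47, nat_lit 0, nat_lit 0, [nat_lit 3282000000, nat_lit 7968000000], [], [nat_lit 17925322888, nat_lit 20043012160, nat_lit 22619519568, nat_lit 24333096672, nat_lit 25130360399, nat_lit 26567703316, nat_lit 28422651120, nat_lit 29702264330], nat_lit 0, nat_lit 0, nat_lit 0, nat_lit 0, nat_lit 0, nat_lit 0, [], [nat_lit 74, nat_lit 40, nat_lit 40, nat_lit 80, nat_lit 43, nat_lit 317, nat_lit 100, nat_lit 9]⟩, ⟨p070_k30, nat_lit 0, nat_lit 0, nat_lit 537, nat_lit 0, nat_lit 964302, [nat_lit 3282000000, nat_lit 7968000000], [], [nat_lit 26313413380, nat_lit 26612237598, nat_lit 28489258868, nat_lit 29328481360, nat_lit 26104197045, nat_lit 26311791152, nat_lit 29504014465, nat_lit 29975453464], nat_lit 1271250, nat_lit 1271250, nat_lit 1271250, nat_lit 1271250, nat_lit 0, nat_lit 2316500, [nat_lit 780000, nat_lit 1762500], [nat_lit 74, nat_lit 40, nat_lit 40, nat_lit 80, nat_lit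 43, nat_lit 317, nat_lit 100, nat_lit 10]⟩,
 zbF0, [⟨nat_lit 4, nat_lit 100, nat_lit 97, nat_lit 98, nat_lit 416162860⟩, ⟨nat_lit 19, nat_lit 97, nat_lit 84, nat_lit 100, nat_lit 88443463⟩, ⟨nat_lit 7, nat_lit 97, nat_lit 100, nat_lit 98, nat_lit 99044910⟩]⟩
noncomputable def p070_l84 : Lf2 := ⟨nat_lit 0, nat_lit 10, [nat_lit 0, nat_lit 5, nat_lit 5, nat_lit 20], false, nat_lit 160, nat_lit 328, nat_lit 16, nat_lit 328, ⟨nat_lit 1000, nat_lit 0, nat_lit 0, nat_lit 0, nat_lit 0, nat_lit 0, nat_lit 0, nat_lit 0, nat_lit 0, nat_lit 0, nat_lit 0, nat_lit 0, nat_lit 0, nat_lit 0, nat_lit 0, nat_lit 0, false, false⟩,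
 nat_lit 0, nat_lit 0, nat_lit 8490, nat_lit 0, nat_lit 6430, nat_lit 5638, nat_lit 0, nat_lit 0, nat_lit 0, nat_lit 2436, nat_lit 0, nat_lit 0, nat_lit 0, nat_lit 1459938616968, nat_lit 0, nat_lit 0, nat_lit 0, nat_lit 0, [],
 ⟨p070_k3, nat_lit 0, nat_lit 0, nat_lit 86, nat_lit 0, nat_lit 0, [nat_lit 3282000000, nat_lit 6250000000, nat_lit 7968000000], [], [nat_lit 25522481180, nat_lit 26096766320, nat_lit 31335724500, nat_lit 31762917480, nat_lit 30713525724, nat_lit 31091646063, nat_lit 34755378290, nat_lit 35033156018], nat_lit 0, nat_lit 0, nat_lit 0, nat_lit 0, nat_lit 0, nat_lit 0, [], [nat_lit 18, nat_lit 40, nat_lit 40, nat_lit 80, nat_lit 2, nat_lit 317, nat_lit 100, nat_lit 9]⟩, ⟨p070_k3, nat_lit 0, nat_lit 0, nat_lit 457, nat_lit 0, nat_lit 749131, [nat_lit 3282000000, nat_lit 6250000000, nat_lit 7968000000], [], [nat_lit 31421894440, nat_lit 31692513275, nat_lit 34358544625, nat_lit 34924780718, nat_lit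 31213377823, nat_lit 31365816625, nat_lit 33758380608, nat_lit 34093356728], nat_lit 1271250, nat_lit 1271250, nat_lit 1271250, nat_lit 1271250, nat_lit 88400, nat_lit 2338700, [nat_lit 780000, nat_lit 1435000, nat_lit 1271250], [nat_lit 18, nat_lit 40, nat_lit 40, nat_lit 80, nat_lit 2, nat_lit 317, nat_lit 100, nat_lit 9]⟩,
 zbF0, [⟨nat_lit 16, nat_lit 97, nat_lit 84, nat_lit 100, nat_lit 333790396⟩, ⟨nat_lit 19, nat_lit 100, nat_lit 97, nat_lit 98, nat_lit 80888571⟩, ⟨nat_lit 19, nat_lit 97, nat_lit 84, nat_lit 100, nat_lit 101801082⟩]⟩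
noncomputable def p070_l85 : Lf2 := ⟨nat_lit 0, nat_lit 10, [nat_lit 0, nat_lit 5, nat_lit 5, nat_lit 20], false, nat_lit 160, nat_lit 320, nat_lit 16, nat_lit 328, ⟨nat_lit 1000, nat_lit 0, nat_lit 0, nat_lit 0, nat_lit 0, nat_lit 0, nat_lit 0, nat_lit 0, nat_lit 0, nat_lit 0, nat_lit 0, nat_lit 0, nat_lit 0, nat_lit 0, nat_lit 0, nat_lit 0, false, false⟩,
 nat_lit 0, nat_lit 0, nat_lit 8609, nat_lit 0, nat_lit 5710, nat_lit 5717, nat_lit 619, nat_lit 0, nat_lit 0, nat_lit 2521, nat_lit 0, nat_lit 0, nat_lit 0, nat_lit 0, nat_lit 0, nat_lit 0, nat_lit 0, nat_lit 0, [],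
 ⟨p070_k0, nat_lit 0, nat_lit 0, nat_lit 90, nat_lit 0, nat_lit 0, [nat_lit 3282000000, nat_lit 6250000000, nat_lit 7968000000], [], [nat_lit 25425450665, nat_lit 26509655825, nat_lit 30727705185, nat_lit 31544959305, nat_lit 29937828965, nat_lit 30683748705, nat_lit 33809094760, nat_lit 34499865520], nat_lit 0, nat_lit 0, nat_lit 0, nat_lit 0, nat_lit 0, nat_lit 0, [], [nat_lit 18, nat_lit 40, nat_lit 40, nat_lit 80, nat_lit 2, nat_lit 317, nat_lit 100, nat_lit 9]⟩, ⟨p070_k3, nat_lit 0, nat_lit 0, nat_lit 546, nat_lit 0, nat_lit 964302, [nat_lit 3282000000, nat_lit 6250000000, nat_lit 7968000000], [], [nat_lit 32253835416, nat_lit 32462797919, nat_lit 34552094925, nat_lit 35121894029, nat_lit 31360924976, nat_lit 31473755464, nat_lit 33850855322, nat_lit 34186983135], nat_lit 1271250, nat_lit 1271250, nat_lit 1271250, nat_lit 1271250, nat_lit 88400, nat_lit 2338700, [nat_lit 780000, nat_lit 1435000, nat_lit 1271250],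 [nat_lit 18, nat_lit 40, nat_lit 40, nat_lit 80, nat_lit 2, nat_lit 317, nat_lit 100, nat_lit 9]⟩,
 zbF0, [⟨nat_lit 4, nat_lit 100, nat_lit 93, nat_lit 97, nat_lit 351244362⟩, ⟨nat_lit 7, nat_lit 97, nat_lit 100, nat_lit 98, nat_lit 179074144⟩]⟩
noncomputable def p070_l86 : Lf2 := ⟨nat_lit 0, nat_lit 10, [nat_lit 0, nat_lit 5, nat_lit 5, nat_lit 20], false, nat_lit 160, nat_lit 320, nat_lit 0, nat_lit 320, ⟨nat_lit 1000, nat_lit 0, nat_lit 0, nat_lit 0, nat_lit 0, nat_lit 0, nat_lit 0, nat_lit 0, nat_lit 0, nat_lit 0, nat_lit 0, nat_lit 0, nat_lit 0, nat_lit 0, nat_lit 0, nat_lit 0, false, false⟩,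
 nat_lit 0, nat_lit 0, nat_lit 8427, nat_lit 0, nat_lit 5446, nat_lit 5834, nat_lit 1451, nat_lit 0, nat_lit 0, nat_lit 1564, nat_lit 0, nat_lit 0, nat_lit 0, nat_lit 0, nat_lit 0, nat_lit 0, nat_lit 0, nat_lit 0, [],
 ⟨p070_k0, nat_lit 0, nat_lit 0, nat_lit 90, nat_lit 0, nat_lit 0, [nat_lit 3282000000, nat_lit 6250000000, nat_lit 7968000000], [], [nat_lit 20475456529, nat_lit 21647533433, nat_lit 29746786336, nat_lit 30739203824, nat_lit 25745730581, nat_lit 26562647337, nat_lit 33503341576, nat_lit 34185728752], nat_lit 0, nat_lit 0, nat_lit 0, nat_lit 0, nat_lit 0, nat_lit 0, [], [nat_lit 18, nat_lit 40, nat_lit 40, nat_lit 80, nat_lit 2, nat_lit 317, nat_lit 100, nat_lit 9]⟩, ⟨p070_k0, nat_lit 0, nat_lit 0, nat_lit 565, nat_lit 0, nat_lit 990390, [nat_lit 3282000000, nat_lit 6250000000, nat_lit 7968000000], [], [nat_lit 28191605136, nat_lit 28493024702, nat_lit 36440143124, nat_lit 37018089814, nat_lit 28220896504,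 nat_lit 28420673540, nat_lit 33952706104, nat_lit 34300060356], nat_lit 1271250, nat_lit 1271250, nat_lit 1271250, nat_lit 1271250, nat_lit 0, nat_lit 2260000, [nat_lit 780000, nat_lit 1435000, nat_lit 1271250], [nat_lit 18, nat_lit 40, nat_lit 40, nat_lit 80, nat_lit 2, nat_lit 317, nat_lit 100, nat_lit 10]⟩,
 zbF0, [⟨nat_lit 4, nat_lit 100, nat_lit 93, nat_lit 97, nat_lit 368255881⟩, ⟨nat_lit 19, nat_lit 97, nat_lit 100, nat_lit 98, nat_lit 142806379⟩, ⟨nat_lit 19, nat_lit 94, nat_lit 88, nat_lit 100, nat_lit 7734096⟩]⟩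
noncomputable def p070_l87 : Lf2 := ⟨nat_lit 0, nat_lit 10, [nat_lit 0, nat_lit 5, nat_lit 5, nat_lit 20], false, nat_lit 160, nat_lit 312, nat_lit 0, nat_lit 312, ⟨nat_lit 1000, nat_lit 0, nat_lit 0, nat_lit 0, nat_lit 0, nat_lit 0, nat_lit 0, nat_lit 0, nat_lit 0, nat_lit 0, nat_lit 0, nat_lit 0, nat_lit 0, nat_lit 0, nat_lit 0, nat_lit 0, false, false⟩,
 nat_lit 0, nat_lit 0, nat_lit 8237, nat_lit 0, nat_lit 5177, nat_lit 5938, nat_lit 1429, nat_lit 0, nat_lit 0, nat_lit 1180, nat_lit 0, nat_lit 0, nat_lit 0, nat_lit 0, nat_lit 0, nat_lit 0, nat_lit 0, nat_lit 0, [],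
 ⟨p070_k33, nat_lit 0, nat_lit 0, nat_lit 84, nat_lit 0, nat_lit 0, [nat_lit 3282000000, nat_lit 7968000000], [], [nat_lit 21206175497, nat_lit 21732128382, nat_lit 29914013460, nat_lit 30400063688, nat_lit 25492603747, nat_lit 25870399287, nat_lit 33279582167, nat_lit 33624573289], nat_lit 0, nat_lit 0, nat_lit 0, nat_lit 0, nat_lit 0, nat_lit 0, [], [nat_lit 74, nat_lit 40, nat_lit 40, nat_lit 80, nat_lit 43, nat_lit 317, nat_lit 100, nat_lit 9]⟩, ⟨p070_k33, nat_lit 0, nat_lit 0, nat_lit 573, nat_lit 0, nat_lit 1015668, [nat_lit 3282000000, nat_lit 7968000000], [], [nat_lit 28689346420, nat_lit 29011006440, nat_lit 37304346798, nat_lit 37887003128, nat_lit 28727314048, nat_lit 28917059880, nat_lit 34166116499, nat_lit 34524101468], nat_lit 1271250, nat_lit 1271250, nat_lit 1271250, nat_lit 1271250, nat_lit 0, nat_lit 2203500, [nat_lit 780000, nat_lit 1762500], [nat_lit 74, nat_lit 40, nat_lit 40, nat_lit 80,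 nat_lit 43, nat_lit 317, nat_lit 100, nat_lit 10]⟩,
 zbF0, [⟨nat_lit 4, nat_lit 100, nat_lit 90, nat_lit 95, nat_lit 384348384⟩, ⟨nat_lit 19, nat_lit 91, nat_lit 91, nat_lit 100, nat_lit 61275967⟩, ⟨nat_lit 7, nat_lit 100, nat_lit 90, nat_lit 95, nat_lit 86421569⟩]⟩
noncomputable def b_V_700_700_20_16 : St := ⟨true, nat_lit 0, nat_lit 1, nat_lit 1, nat_lit 120, nat_lit 280, nat_lit 320, nat_lit 280, nat_lit 320, nat_lit 240, nat_lit 400, nat_lit 80, nat_lit 120, nat_lit 0, nat_lit 336, nat_lit 0, nat_lit 336, nat_lit 0, nat_lit 40, nat_lit 0, nat_lit 0, nat_lit 0, nat_lit 0⟩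
theorem d_V_700_700_20_16 (h : EB TB.env) : Dead b_V_700_700_20_16 := chkB_sound0 h (T :=
(.spl (nat_lit 4) (nat_lit 160)
(.spl (nat_lit 1) (nat_lit 300)
(.spl (nat_lit 0) (nat_lit 300)
(.leaf p070_l66)
(.spl (nat_lit 4) (nat_lit 80)
(.spl (nat_lit 1) (nat_lit 290)
(.leaf p070_l67)
(.trX (nat_lit 19) (nat_lit 97) (nat_lit 84) (nat_lit 100) (nat_lit 328) (.leaf p070_l68)))
(.spl (nat_lit 1) (nat_lit 290)
(.leaf p070_l69)
(.trX (nat_lit 19) (nat_lit 97) (nat_lit 84) (nat_lit 100) (nat_lit 328) (.leaf p070_l70)))))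
(.ord (.trX (nat_lit 19) (nat_lit 94) (nat_lit 88) (nat_lit 100) (nat_lit 320) (.leaf p070_l71))))
(.spl (nat_lit 1) (nat_lit 300)
(.spl (nat_lit 1) (nat_lit 290)
(.spl (nat_lit 0) (nat_lit 300)
(.spl (nat_lit 0) (nat_lit 290)
(.leaf p070_l72)
(.trX (nat_lit 16) (nat_lit 97) (nat_lit 84) (nat_lit 100) (nat_lit 328) (.leaf p070_l73)))
(.trX (nat_lit 16) (nat_lit 94) (nat_lit 88) (nat_lit 100) (nat_lit 320) (.spl (nat_lit 2) (nat_lit 320)
(.spl (nat_lit 2) (nat_lit 280)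
(.spl (nat_lit 1) (nat_lit 285)
(.leaf p070_l74)
(.trX (nat_lit 19) (nat_lit 99) (nat_lit 82) (nat_lit 100) (nat_lit 332) (.leaf p070_l75)))
(.trZ (nat_lit 9) (nat_lit 100) (nat_lit 94) (nat_lit 21) (nat_lit 4) (.spl (nat_lit 1) (nat_lit 285)
(.spl (nat_lit 4) (nat_lit 240)
(.leaf p070_l76)
(.trZ (nat_lit 9) (nat_lit 100) (nat_lit 94) (nat_lit 59) (nat_lit 36) (.spl (nat_lit 0) (nat_lit 310)
(.leaf p070_l77)
(.trX (nat_lit 16) (nat_lit 91) (nat_lit 91) (nat_lit 100) (nat_lit 312) (.leaf p070_l78)))))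
(.trX (nat_lit 19) (nat_lit 99) (nat_lit 82) (nat_lit 100) (nat_lit 332) (.leaf p070_l79)))))
(.trZ (nat_lit 9) (nat_lit 100) (nat_lit 82) (nat_lit 44) (nat_lit 16) (.spl (nat_lit 5) (nat_lit 160)
(.leaf p070_l80)
(.spl (nat_lit 1) (nat_lit 285)
(.leaf p070_l81)
(.trX (nat_lit 19) (nat_lit 99) (nat_lit 82) (nat_lit 100) (nat_lit 332) (.leaf p070_l82))))))))
(.ord (.trX (nat_lit 16) (nat_lit 97) (nat_lit 84) (nat_lit 100) (nat_lit 328) (.trX (nat_lit 19) (nat_lit 97) (nat_lit 84) (nat_lit 100) (nat_lit 328) (.spl (nat_lit 2) (nat_lit 320)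
(.leaf p070_l83)
(.trZ (nat_lit 9) (nat_lit 100) (nat_lit 82) (nat_lit 44) (nat_lit 16) (.spl (nat_lit 0) (nat_lit 300)
(.leaf p070_l84)
(.trX (nat_lit 16) (nat_lit 94) (nat_lit 88) (nat_lit 100) (nat_lit 320) (.leaf p070_l85)))))))))
(.ord (.trX (nat_lit 16) (nat_lit 94) (nat_lit 88) (nat_lit 100) (nat_lit 320) (.trX (nat_lit 19) (nat_lit 94) (nat_lit 88) (nat_lit 100) (nat_lit 320) (.spl (nat_lit 1) (nat_lit 310)
(.leaf p070_l86)
(.ord (.trX (nat_lit 16) (nat_lit 91) (nat_lit 91) (nat_lit 100) (nat_lit 312) (.trX (nat_lit 19) (nat_lit 91) (nat_lit 91) (nat_lit 100) (nat_lit 312) (.leaf p070_l87))))))))))) (by decide +kernel)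
noncomputable def p070_l88 : Lf2 := ⟨nat_lit 0, nat_lit 10, [nat_lit 0, nat_lit 5, nat_lit 5, nat_lit 20], true, nat_lit 0, nat_lit 336, nat_lit 0, nat_lit 336, ⟨nat_lit 0, nat_lit 1000, nat_lit 0, nat_lit 7, nat_lit 203, nat_lit 1000, nat_lit 128, nat_lit 0, nat_lit 0, nat_lit 0, nat_lit 0, nat_lit 0, nat_lit 0, nat_lit 0, nat_lit 0, nat_lit 5000000, false, false⟩,
 nat_lit 0, nat_lit 0, nat_lit 0, nat_lit 3623, nat_lit 6567, nat_lit 0, nat_lit 105, nat_lit 0, nat_lit 0, nat_lit 0, nat_lit 0, nat_lit 0, nat_lit 0, nat_lit 18320694619154, nat_lit 0, nat_lit 250000, nat_lit 0, nat_lit 0, [(nat_lit 12, [(nat_lit 0, nat_lit 1000)])],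
 ⟨p070_k6, nat_lit 0, nat_lit 0, nat_lit 198, nat_lit 0, nat_lit 0, [nat_lit 2364000000, nat_lit 2954000000, nat_lit 3510800000], [], [nat_lit 22447004647, nat_lit 24365777832, nat_lit 24608858745, nat_lit 26027943923, nat_lit 26674937492, nat_lit 27703338467, nat_lit 26338908156, nat_lit 27104290886], nat_lit 0, nat_lit 0, nat_lit 0, nat_lit 0, nat_lit 0, nat_lit 0, [], [nat_lit 8, nat_lit 40, nat_lit 40, nat_lit 80, nat_lit 1, nat_lit 373, nat_lit 150, nat_lit 11]⟩, C1.Rw.none,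
 ⟨nat_lit 5000, nat_lit 5478, ⟨.ofNat (nat_lit 330654), .ofNat (nat_lit 660309), .ofNat (nat_lit 352005), .ofNat (nat_lit 681655), .ofNat (nat_lit 342856), .ofNat (nat_lit 657090), .ofNat (nat_lit 364277), .ofNat (nat_lit 678509)⟩, ⟨.negSucc (nat_lit 2832), .ofNat (nat_lit 626629), .ofNat (nat_lit 0), .ofNat (nat_lit 669336), .ofNat (nat_lit 0), .ofNat (nat_lit 614284), .ofNat (nat_lit 0), .ofNat (nat_lit 657134)⟩⟩, [⟨nat_lit 4, nat_lit 94, nat_lit 100, nat_lit 97, nat_lit 74726217⟩]⟩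
noncomputable def p070_l89 : Lf2 := ⟨nat_lit 0, nat_lit 10, [nat_lit 0, nat_lit 5, nat_lit 5, nat_lit 20], true, nat_lit 0, nat_lit 320, nat_lit 0, nat_lit 336, ⟨nat_lit 0, nat_lit 1000, nat_lit 0, nat_lit 7, nat_lit 215, nat_lit 1000, nat_lit 120, nat_lit 0, nat_lit 0, nat_lit 0, nat_lit 0, nat_lit 0, nat_lit 0, nat_lit 0, nat_lit 0, nat_lit 5000000, false, false⟩,
 nat_lit 0, nat_lit 0, nat_lit 0, nat_lit 0, nat_lit 5852, nat_lit 0, nat_lit 0, nat_lit 0, nat_lit 0, nat_lit 0, nat_lit 0, nat_lit 0, nat_lit 0, nat_lit 13063373087966, nat_lit 0, nat_lit 250000, nat_lit 0, nat_lit 0, [(nat_lit 15, [(nat_lit 0, nat_lit 1000)])],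
 ⟨p070_k0, nat_lit 0, nat_lit 0, nat_lit 163, nat_lit 0, nat_lit 0, [nat_lit 2318400000, nat_lit 2724800000, nat_lit 3082400000], [], [nat_lit 20673567648, nat_lit 22646720848, nat_lit 23912760184, nat_lit 25395517872, nat_lit 24832008584, nat_lit 25955574256, nat_lit 25829214384, nat_lit 26685502624], nat_lit 0, nat_lit 0, nat_lit 0, nat_lit 0, nat_lit 0, nat_lit 0, [], [nat_lit 18, nat_lit 40, nat_lit 40, nat_lit 80, nat_lit 2, nat_lit 373, nat_lit 150, nat_lit 12]⟩, C1.Rw.none,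
 ⟨nat_lit 4472, nat_lit 5000, ⟨.ofNat (nat_lit 371392), .ofNat (nat_lit 657088), .ofNat (nat_lit 414225), .ofNat (nat_lit 699920), .ofNat (nat_lit 382295), .ofNat (nat_lit 654189), .ofNat (nat_lit 425403), .ofNat (nat_lit 697297)⟩, ⟨.ofNat (nat_lit 0), .ofNat (nat_lit 585713), .ofNat (nat_lit 0), .ofNat (nat_lit 628570), .ofNat (nat_lit 0), .ofNat (nat_lit 574534), .ofNat (nat_lit 0), .ofNat (nat_lit 617667)⟩⟩, [⟨nat_lit 4, nat_lit 100, nat_lit 93, nat_lit 97, nat_lit 85887019⟩]⟩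
noncomputable def p070_l90 : Lf2 := ⟨nat_lit 0, nat_lit 10, [nat_lit 0, nat_lit 5, nat_lit 5, nat_lit 20], false, nat_lit 0, nat_lit 336, nat_lit 0, nat_lit 336, ⟨nat_lit 1000, nat_lit 0, nat_lit 0, nat_lit 0, nat_lit 0, nat_lit 0, nat_lit 0, nat_lit 0, nat_lit 0, nat_lit 0, nat_lit 0, nat_lit 0, nat_lit 0, nat_lit 0, nat_lit 0, nat_lit 0, false, false⟩,
 nat_lit 0, nat_lit 0, nat_lit 0, nat_lit 2791, nat_lit 9374, nat_lit 9755, nat_lit 0, nat_lit 0, nat_lit 0, nat_lit 0, nat_lit 0, nat_lit 0, nat_lit 0, nat_lit 0, nat_lit 0, nat_lit 0, nat_lit 0, nat_lit 0, [],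
 ⟨p070_k34, nat_lit 0, nat_lit 0, nat_lit 200, nat_lit 0, nat_lit 0, [nat_lit 3282000000, nat_lit 9842000000], [], [nat_lit 32054843640, nat_lit 35565200672, nat_lit 45203833792, nat_lit 47500092744, nat_lit 31393304349, nat_lit 33150757432, nat_lit 38238894725, nat_lit 39740173410], nat_lit 0, nat_lit 0, nat_lit 0, nat_lit 0, nat_lit 0, nat_lit 0, [], [nat_lit 82, nat_lit 40, nat_lit 40, nat_lit 80, nat_lit 63, nat_lit 428, nat_lit 200, nat_lit 12]⟩, ⟨p070_k34, nat_lit 0, nat_lit 0, nat_lit 200, nat_lit 0, nat_lit 0, [nat_lit 3282000000, nat_lit 9842000000], [], [nat_lit 32114988300, nat_lit 35716582640, nat_lit 45599391040, nat_lit 48566037780, nat_lit 31128833656, nat_lit 32917306541, nat_lit 38690598877, nat_lit 40212114452], nat_lit 0, nat_lit 0, nat_lit 0, nat_lit 0, nat_lit 0, nat_lit 0, [], [nat_lit 82, nat_lit 40, nat_lit 40, nat_lit 80, nat_lit 63, nat_lit 428, nat_lit 200, nat_lit 12]⟩,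
 zbF0, [⟨nat_lit 16, nat_lit 100, nat_lit 80, nat_lit 100, nat_lit 73911189⟩, ⟨nat_lit 19, nat_lit 100, nat_lit 80, nat_lit 100, nat_lit 65082430⟩]⟩
noncomputable def p070_l91 : Lf2 := ⟨nat_lit 0, nat_lit 10, [nat_lit 0, nat_lit 5, nat_lit 5, nat_lit 20], true, nat_lit 0, nat_lit 336, nat_lit 0, nat_lit 336, ⟨nat_lit 0, nat_lit 1000, nat_lit 0, nat_lit 7, nat_lit 203, nat_lit 1000, nat_lit 128, nat_lit 0, nat_lit 0, nat_lit 0, nat_lit 0, nat_lit 0, nat_lit 0, nat_lit 0, nat_lit 0, nat_lit 5000000, false, false⟩,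
 nat_lit 0, nat_lit 0, nat_lit 0, nat_lit 3623, nat_lit 6567, nat_lit 0, nat_lit 105, nat_lit 0, nat_lit 0, nat_lit 0, nat_lit 0, nat_lit 0, nat_lit 0, nat_lit 18320694619154, nat_lit 0, nat_lit 250000, nat_lit 0, nat_lit 0, [(nat_lit 12, [(nat_lit 0, nat_lit 1000)])],
 ⟨p070_k6, nat_lit 0, nat_lit 0, nat_lit 198, nat_lit 0, nat_lit 0, [nat_lit 2364000000, nat_lit 2954000000, nat_lit 3510800000], [], [nat_lit 22447004647, nat_lit 24365777832, nat_lit 24608858745, nat_lit 26027943923, nat_lit 26674937492, nat_lit 27703338467, nat_lit 26338908156, nat_lit 27104290886], nat_lit 0, nat_lit 0, nat_lit 0, nat_lit 0, nat_lit 0, nat_lit 0, [], [nat_lit 8, nat_lit 40, nat_lit 40, nat_lit 80, nat_lit 1, nat_lit 373, nat_lit 150, nat_lit 11]⟩, C1.Rw.none,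
 ⟨nat_lit 5000, nat_lit 5478, ⟨.ofNat (nat_lit 330654), .ofNat (nat_lit 660309), .ofNat (nat_lit 352005), .ofNat (nat_lit 681655), .ofNat (nat_lit 342856), .ofNat (nat_lit 657090), .ofNat (nat_lit 364277), .ofNat (nat_lit 678509)⟩, ⟨.negSucc (nat_lit 2832), .ofNat (nat_lit 626629), .ofNat (nat_lit 0), .ofNat (nat_lit 669336), .ofNat (nat_lit 0), .ofNat (nat_lit 614284), .ofNat (nat_lit 0), .ofNat (nat_lit 657134)⟩⟩, [⟨nat_lit 4, nat_lit 94, nat_lit 100, nat_lit 97, nat_lit 74726217⟩]⟩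
noncomputable def p070_l92 : Lf2 := ⟨nat_lit 0, nat_lit 10, [nat_lit 0, nat_lit 5, nat_lit 5, nat_lit 20], true, nat_lit 0, nat_lit 320, nat_lit 0, nat_lit 336, ⟨nat_lit 0, nat_lit 1000, nat_lit 0, nat_lit 7, nat_lit 215, nat_lit 1000, nat_lit 120, nat_lit 0, nat_lit 0, nat_lit 0, nat_lit 0, nat_lit 0, nat_lit 0, nat_lit 0, nat_lit 0, nat_lit 5000000, false, false⟩,
 nat_lit 0, nat_lit 0, nat_lit 0, nat_lit 0, nat_lit 5852, nat_lit 0, nat_lit 0, nat_lit 0, nat_lit 0, nat_lit 0, nat_lit 0, nat_lit 0, nat_lit 0, nat_lit 13063373087966, nat_lit 0, nat_lit 250000, nat_lit 0, nat_lit 0, [(nat_lit 15, [(nat_lit 0, nat_lit 1000)])],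
 ⟨p070_k0, nat_lit 0, nat_lit 0, nat_lit 163, nat_lit 0, nat_lit 0, [nat_lit 2318400000, nat_lit 2724800000, nat_lit 3082400000], [], [nat_lit 20673567648, nat_lit 22646720848, nat_lit 23912760184, nat_lit 25395517872, nat_lit 24832008584, nat_lit 25955574256, nat_lit 25829214384, nat_lit 26685502624], nat_lit 0, nat_lit 0, nat_lit 0, nat_lit 0, nat_lit 0, nat_lit 0, [], [nat_lit 18, nat_lit 40, nat_lit 40, nat_lit 80, nat_lit 2, nat_lit 373, nat_lit 150, nat_lit 12]⟩, C1.Rw.none,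
 ⟨nat_lit 4472, nat_lit 5000, ⟨.ofNat (nat_lit 371392), .ofNat (nat_lit 657088), .ofNat (nat_lit 414225), .ofNat (nat_lit 699920), .ofNat (nat_lit 382295), .ofNat (nat_lit 654189), .ofNat (nat_lit 425403), .ofNat (nat_lit 697297)⟩, ⟨.ofNat (nat_lit 0), .ofNat (nat_lit 585713), .ofNat (nat_lit 0), .ofNat (nat_lit 628570), .ofNat (nat_lit 0), .ofNat (nat_lit 574534), .ofNat (nat_lit 0), .ofNat (nat_lit 617667)⟩⟩, [⟨nat_lit 4, nat_lit 100, nat_lit 93, nat_lit 97, nat_lit 85887019⟩]⟩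
noncomputable def p070_l93 : Lf2 := ⟨nat_lit 0, nat_lit 10, [nat_lit 0, nat_lit 5, nat_lit 5, nat_lit 20], false, nat_lit 0, nat_lit 160, nat_lit 0, nat_lit 336, ⟨nat_lit 227, nat_lit 773, nat_lit 0, nat_lit 7, nat_lit 329, nat_lit 773, nat_lit 64, nat_lit 0, nat_lit 0, nat_lit 0, nat_lit 0, nat_lit 0, nat_lit 0, nat_lit 0, nat_lit 0, nat_lit 5000000, true, true⟩,
 nat_lit 0, nat_lit 0, nat_lit 2626, nat_lit 0, nat_lit 4381, nat_lit 1670, nat_lit 46, nat_lit 0, nat_lit 0, nat_lit 130, nat_lit 0, nat_lit 0, nat_lit 0, nat_lit 0, nat_lit 0, nat_lit 773000, nat_lit 0, nat_lit 0, [(nat_lit 12, [(nat_lit 2, nat_lit 773)]), (nat_lit 15, [(nat_lit 2, nat_lit 773)])],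
 ⟨p070_k6, nat_lit 0, nat_lit 0, nat_lit 219, nat_lit 0, nat_lit 0, [nat_lit 2550123601, nat_lit 2923317200, nat_lit 2006872000], [], [nat_lit 25514092099, nat_lit 27186009251, nat_lit 31979788354, nat_lit 33530897036, nat_lit 24178383279, nat_lit 25600694247, nat_lit 29659681871, nat_lit 30605066127], nat_lit 0, nat_lit 0, nat_lit 0, nat_lit 0, nat_lit 0, nat_lit 0, [], [nat_lit 8, nat_lit 40, nat_lit 40, nat_lit 80, nat_lit 1, nat_lit 373, nat_lit 150, nat_lit 10]⟩, ⟨p070_k6, nat_lit 0, nat_lit 0, nat_lit 736, nat_lit 0, nat_lit 1212671, [nat_lit 745014000, nat_lit 1418750000, nat_lit 2234134000], [], [nat_lit 8764888914, nat_lit 8935485310, nat_lit 9436844362, nat_lit 9526433256, nat_lit 8042755356, nat_lit 8132849696, nat_lit 8421458960, nat_lit 8454785013], nat_lit 1271250, nat_lit 1271250, nat_lit 1271250, nat_lit 1271250, nat_lit 0, nat_lit 2373000, [nat_lit 780000, nat_lit 1435000, nat_lit 1271250], [nat_lit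 8, nat_lit 40, nat_lit 40, nat_lit 80, nat_lit 1, nat_lit 428, nat_lit 200, nat_lit 12]⟩,
 ⟨nat_lit 4472, nat_lit 5478, ⟨.ofNat (nat_lit 660148), .ofNat (nat_lit 959740), .ofNat (nat_lit 702774), .ofNat (nat_lit 1002365), .ofNat (nat_lit 654031), .ofNat (nat_lit 925804), .ofNat (nat_lit 697075), .ofNat (nat_lit 968848)⟩, ⟨.negSucc (nat_lit 2834), .ofNat (nat_lit 296923), .ofNat (nat_lit 0), .ofNat (nat_lit 339637), .ofNat (nat_lit 0), .ofNat (nat_lit 302621), .ofNat (nat_lit 0), .ofNat (nat_lit 345754)⟩⟩, [⟨nat_lit 10, nat_lit 100, nat_lit 47, nat_lit 81, nat_lit 71069892⟩]⟩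
noncomputable def p070_l94 : Lf2 := ⟨nat_lit 0, nat_lit 10, [nat_lit 0, nat_lit 5, nat_lit 5, nat_lit 20], false, nat_lit 160, nat_lit 336, nat_lit 0, nat_lit 336, ⟨nat_lit 709, nat_lit 291, nat_lit 0, nat_lit 7, nat_lit 324, nat_lit 291, nat_lit 192, nat_lit 0, nat_lit 0, nat_lit 0, nat_lit 0, nat_lit 0, nat_lit 0, nat_lit 0, nat_lit 0, nat_lit 5000000, true, true⟩,
 nat_lit 0, nat_lit 0, nat_lit 6759, nat_lit 0, nat_lit 5080, nat_lit 4301, nat_lit 0, nat_lit 0, nat_lit 0, nat_lit 892, nat_lit 0, nat_lit 0, nat_lit 0, nat_lit 0, nat_lit 0, nat_lit 291000, nat_lit 0, nat_lit 0, [(nat_lit 12, [(nat_lit 2, nat_lit 291)])],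
 ⟨p070_k25, nat_lit 0, nat_lit 0, nat_lit 74, nat_lit 0, nat_lit 0, [nat_lit 2906889360, nat_lit 4084000400, nat_lit 6892424000], [], [nat_lit 19221762400, nat_lit 20439125200, nat_lit 28636383920, nat_lit 29476719600, nat_lit 26072085824, nat_lit 26887060481, nat_lit 33148034817, nat_lit 33784635825], nat_lit 0, nat_lit 0, nat_lit 0, nat_lit 0, nat_lit 0, nat_lit 0, [], [nat_lit 42, nat_lit 40, nat_lit 40, nat_lit 80, nat_lit 13, nat_lit 428, nat_lit 200, nat_lit 11]⟩, ⟨p070_k25, nat_lit 0, nat_lit 0, nat_lit 490, nat_lit 0, nat_lit 702427, [nat_lit 2326938000, nat_lit 3323792000, nat_lit 6977978000], [], [nat_lit 21360005504, nat_lit 21613191749, nat_lit 25447474024, nat_lit 25864696395, nat_lit 21704088096, nat_lit 21841124739, nat_lit 24460863014, nat_lit 24569219353], nat_lit 1271250, nat_lit 1271250, nat_lit 1271250, nat_lit 1271250, nat_lit 0, nat_lit 2373000, [nat_lit 780000, nat_lit 1100000, nat_lit 2127500],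 [nat_lit 42, nat_lit 40, nat_lit 40, nat_lit 80, nat_lit 13, nat_lit 428, nat_lit 200, nat_lit 12]⟩,
 ⟨nat_lit 5000, nat_lit 5478, ⟨.ofNat (nat_lit 660309), .ofNat (nat_lit 959989), .ofNat (nat_lit 670982), .ofNat (nat_lit 970663), .ofNat (nat_lit 657090), .ofNat (nat_lit 942753), .ofNat (nat_lit 667800), .ofNat (nat_lit 953463)⟩, ⟨.ofNat (nat_lit 296923), .ofNat (nat_lit 626629), .ofNat (nat_lit 339637), .ofNat (nat_lit 669336), .ofNat (nat_lit 299999), .ofNat (nat_lit 614284), .ofNat (nat_lit 342856), .ofNat (nat_lit 657134)⟩⟩, [⟨nat_lit 4, nat_lit 94, nat_lit 100, nat_lit 97, nat_lit 318540697⟩, ⟨nat_lit 19, nat_lit 100, nat_lit 80, nat_lit 100, nat_lit 114930078⟩]⟩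
noncomputable def p070_l95 : Lf2 := ⟨nat_lit 0, nat_lit 10, [nat_lit 0, nat_lit 5, nat_lit 5, nat_lit 20], false, nat_lit 160, nat_lit 320, nat_lit 0, nat_lit 160, ⟨nat_lit 358, nat_lit 642, nat_lit 0, nat_lit 7, nat_lit 320, nat_lit 642, nat_lit 185, nat_lit 0, nat_lit 0, nat_lit 0, nat_lit 0, nat_lit 0, nat_lit 0, nat_lit 0, nat_lit 0, nat_lit 5000000, true, true⟩,
 nat_lit 0, nat_lit 0, nat_lit 4541, nat_lit 0, nat_lit 3806, nat_lit 2889, nat_lit 1004, nat_lit 0, nat_lit 0, nat_lit 253, nat_lit 0, nat_lit 0, nat_lit 0, nat_lit 0, nat_lit 0, nat_lit 256800, nat_lit 0, nat_lit 0, [(nat_lit 15, [(nat_lit 1, nat_lit 642)])],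
 ⟨p070_k0, nat_lit 0, nat_lit 0, nat_lit 90, nat_lit 0, nat_lit 0, [nat_lit 2471924400, nat_lit 3749324401, nat_lit 4339416000], [], [nat_lit 21153174845, nat_lit 22148584389, nat_lit 28378638885, nat_lit 29040131936, nat_lit 26029091217, nat_lit 26753370933, nat_lit 31691037828, nat_lit 32235299512], nat_lit 0, nat_lit 0, nat_lit 0, nat_lit 0, nat_lit 0, nat_lit 0, [], [nat_lit 18, nat_lit 40, nat_lit 40, nat_lit 80, nat_lit 2, nat_lit 317, nat_lit 100, nat_lit 9]⟩, ⟨p070_k6, nat_lit 0, nat_lit 0, nat_lit 608, nat_lit 0, nat_lit 937612, [nat_lit 1174956000, nat_lit 2237500000, nat_lit 3523436000], [], [nat_lit 11706298917, nat_lit 11799966108, nat_lit 14726174120, nat_lit 14969326417, nat_lit 10057974713, nat_lit 10135482961, nat_lit 11494038540, nat_lit 11549545160], nat_lit 1271250, nat_lit 1271250, nat_lit 1271250, nat_lit 1271250, nat_lit 0, nat_lit 1100001, [nat_lit 780000, nat_lit 1435000, nat_lit 1271250],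 [nat_lit 8, nat_lit 40, nat_lit 40, nat_lit 80, nat_lit 1, nat_lit 373, nat_lit 150, nat_lit 10]⟩,
 ⟨nat_lit 4472, nat_lit 5000, ⟨.ofNat (nat_lit 657088), .ofNat (nat_lit 942783), .ofNat (nat_lit 667796), .ofNat (nat_lit 953491), .ofNat (nat_lit 654189), .ofNat (nat_lit 926083), .ofNat (nat_lit 664966), .ofNat (nat_lit 936859)⟩, ⟨.ofNat (nat_lit 299999), .ofNat (nat_lit 585713), .ofNat (nat_lit 342856), .ofNat (nat_lit 628570), .ofNat (nat_lit 302621), .ofNat (nat_lit 574534), .ofNat (nat_lit 345754), .ofNat (nat_lit 617667)⟩⟩, [⟨nat_lit 4, nat_lit 100, nat_lit 93, nat_lit 97, nat_lit 188313022⟩, ⟨nat_lit 9, nat_lit 100, nat_lit 76, nat_lit 82, nat_lit 109465743⟩]⟩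
noncomputable def p070_l96 : Lf2 := ⟨nat_lit 0, nat_lit 10, [nat_lit 0, nat_lit 5, nat_lit 5, nat_lit 20], false, nat_lit 160, nat_lit 320, nat_lit 160, nat_lit 336, ⟨nat_lit 622, nat_lit 378, nat_lit 0, nat_lit 7, nat_lit 321, nat_lit 378, nat_lit 185, nat_lit 0, nat_lit 0, nat_lit 0, nat_lit 0, nat_lit 0, nat_lit 0, nat_lit 0, nat_lit 0, nat_lit 5000000, true, true⟩,
 nat_lit 0, nat_lit 0, nat_lit 5927, nat_lit 0, nat_lit 4228, nat_lit 3771, nat_lit 784, nat_lit 0, nat_lit 0, nat_lit 782, nat_lit 0, nat_lit 0, nat_lit 0, nat_lit 0, nat_lit 0, nat_lit 151200, nat_lit 0, nat_lit 0, [(nat_lit 15, [(nat_lit 1, nat_lit 378)])],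
 ⟨p070_k28, nat_lit 0, nat_lit 0, nat_lit 76, nat_lit 0, nat_lit 0, [nat_lit 2805039600, nat_lit 3799246401, nat_lit 5831544000], [], [nat_lit 20937113505, nat_lit 21494436345, nat_lit 28974855913, nat_lit 29336285509, nat_lit 26292975561, nat_lit 26692140861, nat_lit 32153989849, nat_lit 32416594565], nat_lit 0, nat_lit 0, nat_lit 0, nat_lit 0, nat_lit 0, nat_lit 0, [], [nat_lit 36, nat_lit 40, nat_lit 40, nat_lit 80, nat_lit 7, nat_lit 317, nat_lit 100, nat_lit 9]⟩, ⟨p070_k25, nat_lit 0, nat_lit 0, nat_lit 446, nat_lit 0, nat_lit 816422, [nat_lit 2041404000, nat_lit 2915936000, nat_lit 6121724000], [], [nat_lit 17230124886, nat_lit 17414024097, nat_lit 20132076068, nat_lit 20281691064, nat_lit 19053532174, nat_lit 19173752585, nat_lit 21468680695, nat_lit 21563752243], nat_lit 1271250, nat_lit 1271250, nat_lit 1271250, nat_lit 1271250, nat_lit 1100001, nat_lit 2607000, [nat_lit 780000, nat_lit 1100000, nat_lit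 2127500], [nat_lit 42, nat_lit 40, nat_lit 40, nat_lit 80, nat_lit 13, nat_lit 428, nat_lit 200, nat_lit 11]⟩,
 ⟨nat_lit 4743, nat_lit 5000, ⟨.ofNat (nat_lit 657129), .ofNat (nat_lit 942836), .ofNat (nat_lit 667841), .ofNat (nat_lit 953549), .ofNat (nat_lit 655639), .ofNat (nat_lit 934430), .ofNat (nat_lit 666381), .ofNat (nat_lit 945173)⟩, ⟨.ofNat (nat_lit 299999), .ofNat (nat_lit 585713), .ofNat (nat_lit 342856), .ofNat (nat_lit 628570), .ofNat (nat_lit 301370), .ofNat (nat_lit 580169), .ofNat (nat_lit 344346), .ofNat (nat_lit 623145)⟩⟩, [⟨nat_lit 16, nat_lit 94, nat_lit 88, nat_lit 100, nat_lit 285773951⟩, ⟨nat_lit 19, nat_lit 100, nat_lit 80, nat_lit 100, nat_lit 178372010⟩]⟩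
noncomputable def p070_l97 : Lf2 := ⟨nat_lit 0, nat_lit 10, [nat_lit 0, nat_lit 5, nat_lit 5, nat_lit 20], false, nat_lit 160, nat_lit 312, nat_lit 160, nat_lit 336, ⟨nat_lit 657, nat_lit 343, nat_lit 0, nat_lit 7, nat_lit 319, nat_lit 343, nat_lit 182, nat_lit 0, nat_lit 0, nat_lit 0, nat_lit 0, nat_lit 0, nat_lit 0, nat_lit 0, nat_lit 0, nat_lit 5000000, true, true⟩,
 nat_lit 0, nat_lit 0, nat_lit 6264, nat_lit 0, nat_lit 4156, nat_lit 3986, nat_lit 978, nat_lit 0, nat_lit 0, nat_lit 827, nat_lit 0, nat_lit 0, nat_lit 0, nat_lit 0, nat_lit 0, nat_lit 343000, nat_lit 0, nat_lit 0, [(nat_lit 15, [(nat_lit 2, nat_lit 343)])],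
 ⟨p070_k29, nat_lit 0, nat_lit 0, nat_lit 78, nat_lit 0, nat_lit 0, [nat_lit 2835907921, nat_lit 3824051600, nat_lit 4995836400], [], [nat_lit 21034614809, nat_lit 21587597489, nat_lit 29076506718, nat_lit 29455568578, nat_lit 26020356316, nat_lit 26448334650, nat_lit 32137918408, nat_lit 32419286046], nat_lit 0, nat_lit 0, nat_lit 0, nat_lit 0, nat_lit 0, nat_lit 0, [], [nat_lit 36, nat_lit 40, nat_lit 40, nat_lit 80, nat_lit 7, nat_lit 317, nat_lit 100, nat_lit 9]⟩, ⟨p070_k25, nat_lit 0, nat_lit 0, nat_lit 484, nat_lit 0, nat_lit 937612, [nat_lit 2156274000, nat_lit 3080016000, nat_lit 6466194000], [], [nat_lit 18182346251, nat_lit 18376631292, nat_lit 21253651628, nat_lit 21411702279, nat_lit 20108147039, nat_lit 20236037262, nat_lit 22664961579, nat_lit 22765368483], nat_lit 1271250, nat_lit 1271250, nat_lit 1271250, nat_lit 1271250, nat_lit 1100001, nat_lit 2607000, [nat_lit 780000, nat_lit 1100000, nat_lit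 2127500], [nat_lit 42, nat_lit 40, nat_lit 40, nat_lit 80, nat_lit 13, nat_lit 428, nat_lit 200, nat_lit 11]⟩,
 ⟨nat_lit 4472, nat_lit 4744, ⟨.ofNat (nat_lit 655638), .ofNat (nat_lit 934435), .ofNat (nat_lit 666380), .ofNat (nat_lit 945177), .ofNat (nat_lit 654230), .ofNat (nat_lit 926140), .ofNat (nat_lit 665011), .ofNat (nat_lit 936922)⟩, ⟨.ofNat (nat_lit 301370), .ofNat (nat_lit 566229), .ofNat (nat_lit 344346), .ofNat (nat_lit 609205), .ofNat (nat_lit 302621), .ofNat (nat_lit 560938), .ofNat (nat_lit 345754), .ofNat (nat_lit 604071)⟩⟩, [⟨nat_lit 16, nat_lit 91, nat_lit 91, nat_lit 100, nat_lit 301420534⟩, ⟨nat_lit 19, nat_lit 100, nat_lit 80, nat_lit 100, nat_lit 188529909⟩]⟩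
noncomputable def p070_l98 : Lf2 := ⟨nat_lit 0, nat_lit 10, [nat_lit 0, nat_lit 5, nat_lit 5, nat_lit 20], false, nat_lit 160, nat_lit 328, nat_lit 0, nat_lit 328, ⟨nat_lit 586, nat_lit 414, nat_lit 0, nat_lit 7, nat_lit 297, nat_lit 414, nat_lit 188, nat_lit 0, nat_lit 0, nat_lit 0, nat_lit 0, nat_lit 0, nat_lit 0, nat_lit 0, nat_lit 0, nat_lit 5000000, true, false⟩,
 nat_lit 0, nat_lit 0, nat_lit 5385, nat_lit 0, nat_lit 4334, nat_lit 3576, nat_lit 0, nat_lit 0, nat_lit 0, nat_lit 1637, nat_lit 0, nat_lit 0, nat_lit 0, nat_lit 0, nat_lit 0, nat_lit 103500, nat_lit 0, nat_lit 0, [(nat_lit 12, [(nat_lit 0, nat_lit 414)]), (nat_lit 15, [(nat_lit 0, nat_lit 414)])],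
 ⟨p070_k30, nat_lit 0, nat_lit 0, nat_lit 47, nat_lit 0, nat_lit 0, [nat_lit 2901948000, nat_lit 6004149600], [], [nat_lit 18058134312, nat_lit 20064099840, nat_lit 22531524382, nat_lit 24165032128, nat_lit 25013604562, nat_lit 26391876065, nat_lit 28060191361, nat_lit 29294653511], nat_lit 0, nat_lit 0, nat_lit 0, nat_lit 0, nat_lit 0, nat_lit 0, [], [nat_lit 74, nat_lit 40, nat_lit 40, nat_lit 80, nat_lit 43, nat_lit 317, nat_lit 100, nat_lit 9]⟩, ⟨p070_k30, nat_lit 0, nat_lit 0, nat_lit 537, nat_lit 0, nat_lit 964302, [nat_lit 1923252000, nat_lit 4669248000], [], [nat_lit 17384615849, nat_lit 17542496113, nat_lit 18391151457, nat_lit 18518959961, nat_lit 16859293153, nat_lit 16944116427, nat_lit 17422959023, nat_lit 17498104546], nat_lit 1271250, nat_lit 1271250, nat_lit 1271250, nat_lit 1271250, nat_lit 0, nat_lit 2316500, [nat_lit 780000, nat_lit 1762500], [nat_lit 74, nat_lit 40, nat_lit 40, nat_lit 80, nat_lit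 43, nat_lit 317, nat_lit 100, nat_lit 10]⟩,
 ⟨nat_lit 4472, nat_lit 5245, ⟨.ofNat (nat_lit 669271), .ofNat (nat_lit 815582), .ofNat (nat_lit 679950), .ofNat (nat_lit 826262), .ofNat (nat_lit 664893), .ofNat (nat_lit 800818), .ofNat (nat_lit 675662), .ofNat (nat_lit 811588)⟩, ⟨.ofNat (nat_lit 298515), .ofNat (nat_lit 605833), .ofNat (nat_lit 341286), .ofNat (nat_lit 648604), .ofNat (nat_lit 302621), .ofNat (nat_lit 588130), .ofNat (nat_lit 345754), .ofNat (nat_lit 631263)⟩⟩, [⟨nat_lit 16, nat_lit 97, nat_lit 84, nat_lit 100, nat_lit 207478424⟩, ⟨nat_lit 4, nat_lit 100, nat_lit 97, nat_lit 98, nat_lit 128154293⟩, ⟨nat_lit 19, nat_lit 97, nat_lit 84, nat_lit 100, nat_lit 97209503⟩]⟩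
noncomputable def p070_l99 : Lf2 := ⟨nat_lit 0, nat_lit 10, [nat_lit 0, nat_lit 5, nat_lit 5, nat_lit 20], false, nat_lit 160, nat_lit 328, nat_lit 16, nat_lit 328, ⟨nat_lit 1000, nat_lit 0, nat_lit 0, nat_lit 0, nat_lit 0, nat_lit 0, nat_lit 0, nat_lit 0, nat_lit 0, nat_lit 0, nat_lit 0, nat_lit 0, nat_lit 0, nat_lit 0, nat_lit 0, nat_lit 0, false, false⟩,
 nat_lit 0, nat_lit 0, nat_lit 8490, nat_lit 0, nat_lit 6430, nat_lit 5638, nat_lit 0, nat_lit 0, nat_lit 0, nat_lit 2436, nat_lit 0, nat_lit 0, nat_lit 0, nat_lit 0, nat_lit 0, nat_lit 0, nat_lit 0, nat_lit 0, [],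
 ⟨p070_k3, nat_lit 0, nat_lit 0, nat_lit 86, nat_lit 0, nat_lit 0, [nat_lit 3282000000, nat_lit 6250000000, nat_lit 7968000000], [], [nat_lit 25522481180, nat_lit 26096766320, nat_lit 31335724500, nat_lit 31762917480, nat_lit 30713525724, nat_lit 31091646063, nat_lit 34755378290, nat_lit 35033156018], nat_lit 0, nat_lit 0, nat_lit 0, nat_lit 0, nat_lit 0, nat_lit 0, [], [nat_lit 18, nat_lit 40, nat_lit 40, nat_lit 80, nat_lit 2, nat_lit 317, nat_lit 100, nat_lit 9]⟩, ⟨p070_k3, nat_lit 0, nat_lit 0, nat_lit 457, nat_lit 0, nat_lit 749131, [nat_lit 3282000000, nat_lit 6250000000, nat_lit 7968000000], [], [nat_lit 31421894440, nat_lit 31692513275, nat_lit 34358544625, nat_lit 34924780718, nat_lit 31213377823, nat_lit 31365816625, nat_lit 33758380608, nat_lit 34093356728], nat_lit 1271250, nat_lit 1271250, nat_lit 1271250, nat_lit 1271250, nat_lit 88400, nat_lit 2338700, [nat_lit 780000, nat_lit 1435000, nat_lit 1271250],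 [nat_lit 18, nat_lit 40, nat_lit 40, nat_lit 80, nat_lit 2, nat_lit 317, nat_lit 100, nat_lit 9]⟩,
 zbF0, [⟨nat_lit 16, nat_lit 97, nat_lit 84, nat_lit 100, nat_lit 252067921⟩, ⟨nat_lit 4, nat_lit 97, nat_lit 100, nat_lit 98, nat_lit 80888571⟩, ⟨nat_lit 19, nat_lit 97, nat_lit 84, nat_lit 100, nat_lit 183523556⟩]⟩
noncomputable def p070_l100 : Lf2 := ⟨nat_lit 0, nat_lit 10, [nat_lit 0, nat_lit 5, nat_lit 5, nat_lit 20], false, nat_lit 160, nat_lit 320, nat_lit 16, nat_lit 328, ⟨nat_lit 839, nat_lit 161, nat_lit 0, nat_lit 8, nat_lit 352, nat_lit 161, nat_lit 185, nat_lit 0, nat_lit 0, nat_lit 0, nat_lit 0, nat_lit 0, nat_lit 0, nat_lit 0, nat_lit 0, nat_lit 5000000, true, true⟩,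
 nat_lit 0, nat_lit 0, nat_lit 7095, nat_lit 0, nat_lit 5444, nat_lit 4711, nat_lit 284, nat_lit 0, nat_lit 0, nat_lit 2117, nat_lit 0, nat_lit 0, nat_lit 0, nat_lit 0, nat_lit 0, nat_lit 161000, nat_lit 0, nat_lit 0, [(nat_lit 15, [(nat_lit 2, nat_lit 161)])],
 ⟨p070_k0, nat_lit 0, nat_lit 0, nat_lit 90, nat_lit 0, nat_lit 0, [nat_lit 3093887600, nat_lit 5412478001, nat_lit 6572902800], [], [nat_lit 25450396037, nat_lit 26473105781, nat_lit 30580494885, nat_lit 31384030853, nat_lit 29895657277, nat_lit 30630193813, nat_lit 33630540613, nat_lit 34185799813], nat_lit 0, nat_lit 0, nat_lit 0, nat_lit 0, nat_lit 0, nat_lit 0, [], [nat_lit 18, nat_lit 40, nat_lit 40, nat_lit 80, nat_lit 2, nat_lit 317, nat_lit 100, nat_lit 9]⟩, ⟨p070_k3, nat_lit 0, nat_lit 0, nat_lit 546, nat_lit 0, nat_lit 964302, [nat_lit 2753598000, nat_lit 5243750000, nat_lit 6685152000], [], [nat_lit 27458520901, nat_lit 27633611115, nat_lit 29327587086,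 nat_lit 29462137538, nat_lit 26793820074, nat_lit 26889291772, nat_lit 28300710477, nat_lit 28581474340], nat_lit 1271250, nat_lit 1271250, nat_lit 1271250, nat_lit 1271250, nat_lit 88400, nat_lit 2338700, [nat_lit 780000, nat_lit 1435000, nat_lit 1271250], [nat_lit 18, nat_lit 40, nat_lit 40, nat_lit 80, nat_lit 2, nat_lit 317, nat_lit 100, nat_lit 9]⟩,
 ⟨nat_lit 4472, nat_lit 5000, ⟨.ofNat (nat_lit 810643), .ofNat (nat_lit 953491), .ofNat (nat_lit 821351), .ofNat (nat_lit 964199), .ofNat (nat_lit 800912), .ofNat (nat_lit 936859), .ofNat (nat_lit 811690), .ofNat (nat_lit 947637)⟩, ⟨.ofNat (nat_lit 299999), .ofNat (nat_lit 585713), .ofNat (nat_lit 342856), .ofNat (nat_lit 628570), .ofNat (nat_lit 302621), .ofNat (nat_lit 574534), .ofNat (nat_lit 345754), .ofNat (nat_lit 617667)⟩⟩, [⟨nat_lit 4, nat_lit 100, nat_lit 93, nat_lit 97, nat_lit 321879479⟩, ⟨nat_lit 19, nat_lit 97, nat_lit 84, nat_lit 100, nat_lit 151264929⟩]⟩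
noncomputable def p070_l101 : Lf2 := ⟨nat_lit 0, nat_lit 10, [nat_lit 0, nat_lit 5, nat_lit 5, nat_lit 20], false, nat_lit 160, nat_lit 320, nat_lit 0, nat_lit 320, ⟨nat_lit 713, nat_lit 287, nat_lit 0, nat_lit 7, nat_lit 329, nat_lit 287, nat_lit 185, nat_lit 0, nat_lit 0, nat_lit 0, nat_lit 0, nat_lit 0, nat_lit 0, nat_lit 0, nat_lit 0, nat_lit 5000000, true, true⟩,
 nat_lit 0, nat_lit 0, nat_lit 5649, nat_lit 0, nat_lit 5088, nat_lit 3910, nat_lit 538, nat_lit 0, nat_lit 0, nat_lit 1144, nat_lit 0, nat_lit 0, nat_lit 0, nat_lit 0, nat_lit 0, nat_lit 287000, nat_lit 0, nat_lit 0, [(nat_lit 15, [(nat_lit 2, nat_lit 287)])],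
 ⟨p070_k0, nat_lit 0, nat_lit 0, nat_lit 90, nat_lit 0, nat_lit 0, [nat_lit 2946669200, nat_lit 4757026000, nat_lit 5481087600], [], [nat_lit 21069657662, nat_lit 22203169374, nat_lit 29512266718, nat_lit 30297443054, nat_lit 26253846318, nat_lit 27050590894, nat_lit 33088721728, nat_lit 33759740256], nat_lit 0, nat_lit 0, nat_lit 0, nat_lit 0, nat_lit 0, nat_lit 0, [], [nat_lit 18, nat_lit 40, nat_lit 40, nat_lit 80, nat_lit 2, nat_lit 317, nat_lit 100, nat_lit 9]⟩, ⟨p070_k0, nat_lit 0, nat_lit 0, nat_lit 565, nat_lit 0, nat_lit 990390, [nat_lit 2340066000, nat_lit 4456250000, nat_lit 5681184000], [], [nat_lit 21171535608, nat_lit 21382678414, nat_lit 25305994720, nat_lit 25706765672, nat_lit 21414794156, nat_lit 21557258608, nat_lit 24037421578, nat_lit 24162854838], nat_lit 1271250, nat_lit 1271250, nat_lit 1271250, nat_lit 1271250, nat_lit 0, nat_lit 2260000, [nat_lit 780000, nat_lit 1435000, nat_lit 1271250],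 [nat_lit 18, nat_lit 40, nat_lit 40, nat_lit 80, nat_lit 2, nat_lit 317, nat_lit 100, nat_lit 10]⟩,
 ⟨nat_lit 4472, nat_lit 5000, ⟨.ofNat (nat_lit 678503), .ofNat (nat_lit 964199), .ofNat (nat_lit 689212), .ofNat (nat_lit 974907), .ofNat (nat_lit 675743), .ofNat (nat_lit 947637), .ofNat (nat_lit 686520), .ofNat (nat_lit 958413)⟩, ⟨.ofNat (nat_lit 299999), .ofNat (nat_lit 585713), .ofNat (nat_lit 342856), .ofNat (nat_lit 628570), .ofNat (nat_lit 302621), .ofNat (nat_lit 574534), .ofNat (nat_lit 345754), .ofNat (nat_lit 617667)⟩⟩, [⟨nat_lit 4, nat_lit 100, nat_lit 93, nat_lit 97, nat_lit 326088116⟩, ⟨nat_lit 19, nat_lit 94, nat_lit 88, nat_lit 100, nat_lit 115130147⟩]⟩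
noncomputable def p070_l102 : Lf2 := ⟨nat_lit 0, nat_lit 10, [nat_lit 0, nat_lit 5, nat_lit 5, nat_lit 20], false, nat_lit 160, nat_lit 312, nat_lit 0, nat_lit 312, ⟨nat_lit 855, nat_lit 145, nat_lit 0, nat_lit 7, nat_lit 332, nat_lit 145, nat_lit 182, nat_lit 0, nat_lit 0, nat_lit 0, nat_lit 0, nat_lit 0, nat_lit 0, nat_lit 0, nat_lit 0, nat_lit 5000000, true, true⟩,
 nat_lit 0, nat_lit 0, nat_lit 6815, nat_lit 0, nat_lit 5007, nat_lit 4913, nat_lit 1289, nat_lit 0, nat_lit 0, nat_lit 1019, nat_lit 0, nat_lit 0, nat_lit 0, nat_lit 0, nat_lit 0, nat_lit 58000, nat_lit 0, nat_lit 0, [(nat_lit 15, [(nat_lit 1, nat_lit 145)])],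
 ⟨p070_k33, nat_lit 0, nat_lit 0, nat_lit 84, nat_lit 0, nat_lit 0, [nat_lit 3112437001, nat_lit 7148460000], [], [nat_lit 21120747628, nat_lit 21638709663, nat_lit 29706106860, nat_lit 30185737208, nat_lit 25384940983, nat_lit 25776053229, nat_lit 33081539018, nat_lit 33423627441], nat_lit 0, nat_lit 0, nat_lit 0, nat_lit 0, nat_lit 0, nat_lit 0, [], [nat_lit 74, nat_lit 40, nat_lit 40, nat_lit 80, nat_lit 43, nat_lit 317, nat_lit 100, nat_lit 9]⟩, ⟨p070_k33, nat_lit 0, nat_lit 0, nat_lit 573, nat_lit 0, nat_lit 1015668, [nat_lit 2806110000, nat_lit 6812640000], [], [nat_lit 25349139695, nat_lit 25621241630, nat_lit 31443838793, nat_lit 31934583668, nat_lit 25520443167, nat_lit 25681978635, nat_lit 29020987866, nat_lit 29324264934], nat_lit 1271250, nat_lit 1271250, nat_lit 1271250, nat_lit 1271250, nat_lit 0, nat_lit 2203500, [nat_lit 780000, nat_lit 1762500], [nat_lit 74, nat_lit 40, nat_lit 40, nat_lit 80,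 nat_lit 43, nat_lit 317, nat_lit 100, nat_lit 10]⟩,
 ⟨nat_lit 4472, nat_lit 4744, ⟨.ofNat (nat_lit 687865), .ofNat (nat_lit 966662), .ofNat (nat_lit 698608), .ofNat (nat_lit 977404), .ofNat (nat_lit 686574), .ofNat (nat_lit 958485), .ofNat (nat_lit 697356), .ofNat (nat_lit 969266)⟩, ⟨.ofNat (nat_lit 301370), .ofNat (nat_lit 566229), .ofNat (nat_lit 344346), .ofNat (nat_lit 609205), .ofNat (nat_lit 302621), .ofNat (nat_lit 560938), .ofNat (nat_lit 345754), .ofNat (nat_lit 604071)⟩⟩, [⟨nat_lit 16, nat_lit 91, nat_lit 91, nat_lit 100, nat_lit 340335099⟩, ⟨nat_lit 19, nat_lit 91, nat_lit 91, nat_lit 100, nat_lit 126460368⟩]⟩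
noncomputable def b_V_700_700_20_17 : St := ⟨true, nat_lit 0, nat_lit 2, nat_lit 2, nat_lit 120, nat_lit 280, nat_lit 320, nat_lit 280, nat_lit 320, nat_lit 64, nat_lit 400, nat_lit 80, nat_lit 120, nat_lit 0, nat_lit 336, nat_lit 0, nat_lit 336, nat_lit 0, nat_lit 40, nat_lit 0, nat_lit 0, nat_lit 0, nat_lit 0⟩
theorem d_V_700_700_20_17 (h : EB TB.env) : Dead b_V_700_700_20_17 := chkB_sound0 h (T :=
(.st (nat_lit 1)
(.spl (nat_lit 2) (nat_lit 240)
(.spl (nat_lit 0) (nat_lit 300)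
(.ord (.leaf p070_l88))
(.trZ (nat_lit 0) (nat_lit 100) (nat_lit 94) (nat_lit 88) (nat_lit 80) (.trX (nat_lit 16) (nat_lit 94) (nat_lit 88) (nat_lit 100) (nat_lit 320) (.leaf p070_l89))))
(.leaf p070_l90))
(.spl (nat_lit 2) (nat_lit 240)
(.spl (nat_lit 0) (nat_lit 300)
(.ord (.leaf p070_l91))
(.trZ (nat_lit 0) (nat_lit 100) (nat_lit 94) (nat_lit 88) (nat_lit 80) (.trX (nat_lit 16) (nat_lit 94) (nat_lit 88) (nat_lit 100) (nat_lit 320) (.leaf p070_l92))))
(.spl (nat_lit 4) (nat_lit 160)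
(.leaf p070_l93)
(.spl (nat_lit 1) (nat_lit 300)
(.spl (nat_lit 1) (nat_lit 290)
(.spl (nat_lit 0) (nat_lit 300)
(.leaf p070_l94)
(.trX (nat_lit 16) (nat_lit 94) (nat_lit 88) (nat_lit 100) (nat_lit 320) (.spl (nat_lit 5) (nat_lit 160)
(.leaf p070_l95)
(.spl (nat_lit 0) (nat_lit 310)
(.leaf p070_l96)
(.trX (nat_lit 16) (nat_lit 91) (nat_lit 91) (nat_lit 100) (nat_lit 312) (.leaf p070_l97))))))
(.ord (.trX (nat_lit 16) (nat_lit 97) (nat_lit 84) (nat_lit 100) (nat_lit 328) (.trX (nat_lit 19) (nat_lit 97) (nat_lit 84) (nat_lit 100) (nat_lit 328) (.spl (nat_lit 2) (nat_lit 320)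
(.leaf p070_l98)
(.trZ (nat_lit 9) (nat_lit 100) (nat_lit 82) (nat_lit 44) (nat_lit 16) (.spl (nat_lit 0) (nat_lit 300)
(.leaf p070_l99)
(.trX (nat_lit 16) (nat_lit 94) (nat_lit 88) (nat_lit 100) (nat_lit 320) (.leaf p070_l100)))))))))
(.ord (.trX (nat_lit 16) (nat_lit 94) (nat_lit 88) (nat_lit 100) (nat_lit 320) (.trX (nat_lit 19) (nat_lit 94) (nat_lit 88) (nat_lit 100) (nat_lit 320) (.spl (nat_lit 1) (nat_lit 310)
(.leaf p070_l101)
(.ord (.trX (nat_lit 16) (nat_lit 91) (nat_lit 91) (nat_lit 100) (nat_lit 312) (.trX (nat_lit 19) (nat_lit 91) (nat_lit 91) (nat_lit 100) (nat_lit 312) (.leaf p070_l102))))))))))))) (by decide +kernel)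
noncomputable def p070_l103 : Lf2 := ⟨nat_lit 0, nat_lit 10, [nat_lit 0, nat_lit 5, nat_lit 5, nat_lit 20], false, nat_lit 0, nat_lit 160, nat_lit 0, nat_lit 160, ⟨nat_lit 1000, nat_lit 0, nat_lit 0, nat_lit 0, nat_lit 0, nat_lit 0, nat_lit 0, nat_lit 0, nat_lit 0, nat_lit 0, nat_lit 0, nat_lit 0, nat_lit 0, nat_lit 0, nat_lit 0, nat_lit 0, false, false⟩,
 nat_lit 0, nat_lit 13860, nat_lit 0, nat_lit 0, nat_lit 8819, nat_lit 7968, nat_lit 984, nat_lit 0, nat_lit 0, nat_lit 1580, nat_lit 0, nat_lit 0, nat_lit 0, nat_lit 0, nat_lit 0, nat_lit 0, nat_lit 0, nat_lit 0, [],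
 ⟨p070_k6, nat_lit 0, nat_lit 0, nat_lit 579, nat_lit 0, nat_lit 692261, [nat_lit 3282000000, nat_lit 6250000000, nat_lit 9842000000], [], [nat_lit 31415586698, nat_lit 28776159636, nat_lit 26362159824, nat_lit 27450911770, nat_lit 23061701932, nat_lit 24089830971, nat_lit 26272170112, nat_lit 22753114382], nat_lit 1271250, nat_lit 1271250, nat_lit 382400, nat_lit 1100001, nat_lit 0, nat_lit 1100001, [nat_lit 780000, nat_lit 1435000, nat_lit 1271250], [nat_lit 8, nat_lit 40, nat_lit 40, nat_lit 80, nat_lit 1, nat_lit 317, nat_lit 100, nat_lit 9]⟩, ⟨p070_k6, nat_lit 0, nat_lit 0, nat_lit 192, nat_lit 0, nat_lit 0, [nat_lit 3282000000, nat_lit 6250000000, nat_lit 9842000000], [], [nat_lit 20035194947, nat_lit 21124052863, nat_lit 19357783680, nat_lit 20536785760, nat_lit 14965661530, nat_lit 16091994087, nat_lit 14873514528, nat_lit 15849698624], nat_lit 0, nat_lit 0, nat_lit 0, nat_lit 0, nat_lit 0, nat_lit 0, [],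 [nat_lit 8, nat_lit 40, nat_lit 40, nat_lit 80, nat_lit 1, nat_lit 317, nat_lit 100, nat_lit 9]⟩,
 zbF0, [⟨nat_lit 0, nat_lit 100, nat_lit 99, nat_lit 87, nat_lit 648368817⟩]⟩
noncomputable def p070_l104 : Lf2 := ⟨nat_lit 0, nat_lit 5, [nat_lit 4, nat_lit 5, nat_lit 5, nat_lit 20], false, nat_lit 0, nat_lit 80, nat_lit 160, nat_lit 320, ⟨nat_lit 1000, nat_lit 0, nat_lit 0, nat_lit 0, nat_lit 0, nat_lit 0, nat_lit 0, nat_lit 0, nat_lit 0, nat_lit 0, nat_lit 0, nat_lit 0, nat_lit 0, nat_lit 0, nat_lit 0, nat_lit 0, false, false⟩,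
 nat_lit 0, nat_lit 15756, nat_lit 0, nat_lit 0, nat_lit 10026, nat_lit 4852, nat_lit 990, nat_lit 0, nat_lit 0, nat_lit 0, nat_lit 0, nat_lit 0, nat_lit 0, nat_lit 16753679341372, nat_lit 0, nat_lit 0, nat_lit 0, nat_lit 0, [],
 ⟨p070_k13, nat_lit 0, nat_lit 0, nat_lit 385, nat_lit 0, nat_lit 467804, [nat_lit 3282000000, nat_lit 6250000000, nat_lit 7968000000], [], [nat_lit 22602477119, nat_lit 23016290376, nat_lit 21198184464, nat_lit 21620341833, nat_lit 17522915848, nat_lit 17947015089, nat_lit 20738420240, nat_lit 19588508222], nat_lit 1271250, nat_lit 1271250, nat_lit 382400, nat_lit 780000, nat_lit 0, nat_lit 490000, [nat_lit 780000, nat_lit 1435000, nat_lit 1271250], [nat_lit 18, nat_lit 40, nat_lit 40, nat_lit 80, nat_lit 2, nat_lit 260, nat_lit 50, nat_lit 9]⟩, ⟨p070_k13, nat_lit 0, nat_lit 0, nat_lit 73, nat_lit 0, nat_lit 0, [nat_lit 3282000000, nat_lit 6250000000, nat_lit 7968000000], [], [nat_lit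 12635300196, nat_lit 13111472502, nat_lit 12768833984, nat_lit 13213476120, nat_lit 22009706740, nat_lit 22333062411, nat_lit 21587379968, nat_lit 21891423058], nat_lit 0, nat_lit 0, nat_lit 0, nat_lit 0, nat_lit 0, nat_lit 0, [], [nat_lit 18, nat_lit 40, nat_lit 40, nat_lit 80, nat_lit 2, nat_lit 345, nat_lit 125, nat_lit 11]⟩,
 zbF0, [⟨nat_lit 0, nat_lit 100, nat_lit 100, nat_lit 85, nat_lit 720145988⟩, ⟨nat_lit 19, nat_lit 100, nat_lit 93, nat_lit 92, nat_lit 557277397⟩]⟩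
noncomputable def p070_l105 : Lf2 := ⟨nat_lit 0, nat_lit 5, [nat_lit 4, nat_lit 5, nat_lit 5, nat_lit 20], false, nat_lit 0, nat_lit 80, nat_lit 160, nat_lit 320, ⟨nat_lit 1000, nat_lit 0, nat_lit 0, nat_lit 0, nat_lit 0, nat_lit 0, nat_lit 0, nat_lit 0, nat_lit 0, nat_lit 0, nat_lit 0, nat_lit 0, nat_lit 0, nat_lit 0, nat_lit 0, nat_lit 0, false, false⟩,
 nat_lit 0, nat_lit 12223, nat_lit 0, nat_lit 0, nat_lit 7947, nat_lit 4849, nat_lit 5057, nat_lit 0, nat_lit 0, nat_lit 0, nat_lit 0, nat_lit 0, nat_lit 0, nat_lit 1417196159760, nat_lit 0, nat_lit 0, nat_lit 0, nat_lit 0, [],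
 ⟨p070_k35, nat_lit 0, nat_lit 0, nat_lit 415, nat_lit 0, nat_lit 543759, [nat_lit 3282000000, nat_lit 6250000000, nat_lit 7968000000], [], [nat_lit 19512803333, nat_lit 19904437487, nat_lit 18762310889, nat_lit 19127386194, nat_lit 16428669566, nat_lit 16143059134, nat_lit 20091329259, nat_lit 19179863988], nat_lit 1271250, nat_lit 1271250, nat_lit 408851, nat_lit 780000, nat_lit 0, nat_lit 490000, [nat_lit 780000, nat_lit 1435000, nat_lit 1271250], [nat_lit 18, nat_lit 40, nat_lit 40, nat_lit 80, nat_lit 2, nat_lit 260, nat_lit 50, nat_lit 9]⟩, ⟨p070_k13, nat_lit 0, nat_lit 0, nat_lit 73, nat_lit 0, nat_lit 0, [nat_lit 3282000000, nat_lit 6250000000, nat_lit 7968000000], [], [nat_lit 12588026103, nat_lit 13536234945, nat_lit 12772891808, nat_lit 13661857822, nat_lit 21929753433, nat_lit 22574011956, nat_lit 21589069616, nat_lit 22196973651], nat_lit 0, nat_lit 0, nat_lit 0, nat_lit 0, nat_lit 0, nat_lit 0, [],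 [nat_lit 18, nat_lit 40, nat_lit 40, nat_lit 80, nat_lit 2, nat_lit 345, nat_lit 125, nat_lit 11]⟩,
 zbF0, [⟨nat_lit 0, nat_lit 100, nat_lit 100, nat_lit 90, nat_lit 446263344⟩, ⟨nat_lit 19, nat_lit 100, nat_lit 94, nat_lit 92, nat_lit 543509656⟩]⟩
noncomputable def p070_l106 : Lf2 := ⟨nat_lit 0, nat_lit 5, [nat_lit 4, nat_lit 5, nat_lit 5, nat_lit 20], false, nat_lit 0, nat_lit 80, nat_lit 160, nat_lit 320, ⟨nat_lit 1000, nat_lit 0, nat_lit 0, nat_lit 0, nat_lit 0, nat_lit 0, nat_lit 0, nat_lit 0, nat_lit 0, nat_lit 0, nat_lit 0, nat_lit 0, nat_lit 0, nat_lit 0, nat_lit 0, nat_lit 0, false, false⟩,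
 nat_lit 0, nat_lit 10977, nat_lit 0, nat_lit 0, nat_lit 6985, nat_lit 5069, nat_lit 880, nat_lit 0, nat_lit 0, nat_lit 0, nat_lit 0, nat_lit 0, nat_lit 0, nat_lit 0, nat_lit 0, nat_lit 0, nat_lit 0, nat_lit 0, [],
 ⟨p070_k13, nat_lit 0, nat_lit 0, nat_lit 396, nat_lit 0, nat_lit 560524, [nat_lit 3282000000, nat_lit 6250000000, nat_lit 7968000000], [], [nat_lit 27652908060, nat_lit 28250210920, nat_lit 27989846740, nat_lit 28595556550, nat_lit 24970324200, nat_lit 25525529085, nat_lit 25287455860, nat_lit 25807047335], nat_lit 1271250, nat_lit 1271250, nat_lit 780000, nat_lit 1100001, nat_lit 0, nat_lit 490000, [nat_lit 780000, nat_lit 1435000, nat_lit 1271250], [nat_lit 18, nat_lit 40, nat_lit 40, nat_lit 80, nat_lit 2, nat_lit 272, nat_lit 60, nat_lit 9]⟩, ⟨p070_k13, nat_lit 0, nat_lit 0, nat_lit 47, nat_lit 0, nat_lit 0, [nat_lit 3282000000, nat_lit 6250000000, nat_lit 7968000000], [], [nat_lit 12475318048,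 nat_lit 13387622982, nat_lit 13452065772, nat_lit 14307221577, nat_lit 21465162096, nat_lit 22086423431, nat_lit 21881018300, nat_lit 22466220037], nat_lit 0, nat_lit 0, nat_lit 0, nat_lit 0, nat_lit 0, nat_lit 0, [], [nat_lit 18, nat_lit 40, nat_lit 40, nat_lit 80, nat_lit 2, nat_lit 345, nat_lit 125, nat_lit 11]⟩,
 zbF0, [⟨nat_lit 7, nat_lit 94, nat_lit 100, nat_lit 92, nat_lit 539507492⟩]⟩
noncomputable def p070_l107 : Lf2 := ⟨nat_lit 0, nat_lit 5, [nat_lit 4, nat_lit 5, nat_lit 5, nat_lit 20], false, nat_lit 0, nat_lit 80, nat_lit 160, nat_lit 320, ⟨nat_lit 1000, nat_lit 0, nat_lit 0, nat_lit 0, nat_lit 0, nat_lit 0, nat_lit 0, nat_lit 0, nat_lit 0, nat_lit 0, nat_lit 0, nat_lit 0, nat_lit 0, nat_lit 0, nat_lit 0, nat_lit 0, false, false⟩,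
 nat_lit 0, nat_lit 7577, nat_lit 0, nat_lit 0, nat_lit 5031, nat_lit 4935, nat_lit 2652, nat_lit 0, nat_lit 0, nat_lit 0, nat_lit 0, nat_lit 0, nat_lit 0, nat_lit 0, nat_lit 0, nat_lit 0, nat_lit 0, nat_lit 0, [],
 ⟨p070_k36, nat_lit 0, nat_lit 0, nat_lit 352, nat_lit 0, nat_lit 613537, [nat_lit 3282000000, nat_lit 6250000000], [], [nat_lit 27170928365, nat_lit 26789904465, nat_lit 26672226382, nat_lit 27149749160, nat_lit 24612136284, nat_lit 25115206915, nat_lit 25040437041, nat_lit 25486880526], nat_lit 1271250, nat_lit 1271250, nat_lit 435600, nat_lit 1100001, nat_lit 0, nat_lit 490000, [nat_lit 780000, nat_lit 1435000], [nat_lit 49, nat_lit 40, nat_lit 40, nat_lit 80, nat_lit 16, nat_lit 272, nat_lit 60, nat_lit 11]⟩, ⟨p070_k13, nat_lit 0, nat_lit 0, nat_lit 70, nat_lit 0, nat_lit 0, [nat_lit 3282000000, nat_lit 6250000000, nat_lit 7968000000], [], [nat_lit 12436922608, nat_lit 13391207008, nat_lit 13635459780,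 nat_lit 14477571355, nat_lit 21822603089, nat_lit 22534866469, nat_lit 21969632500, nat_lit 22547414255], nat_lit 0, nat_lit 0, nat_lit 0, nat_lit 0, nat_lit 0, nat_lit 0, [], [nat_lit 18, nat_lit 40, nat_lit 40, nat_lit 80, nat_lit 2, nat_lit 345, nat_lit 125, nat_lit 11]⟩,
 zbF0, [⟨nat_lit 0, nat_lit 100, nat_lit 97, nat_lit 84, nat_lit 501316599⟩, ⟨nat_lit 19, nat_lit 100, nat_lit 88, nat_lit 94, nat_lit 550855617⟩]⟩
noncomputable def p070_l108 : Lf2 := ⟨nat_lit 0, nat_lit 2, [nat_lit 10, nat_lit 5, nat_lit 5, nat_lit 20], false, nat_lit 0, nat_lit 80, nat_lit 160, nat_lit 336, ⟨nat_lit 1000, nat_lit 0, nat_lit 0, nat_lit 0, nat_lit 0, nat_lit 0, nat_lit 0, nat_lit 0, nat_lit 0, nat_lit 0, nat_lit 0, nat_lit 0, nat_lit 0, nat_lit 0, nat_lit 0, nat_lit 0, false, false⟩,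
 nat_lit 0, nat_lit 10007, nat_lit 0, nat_lit 0, nat_lit 6368, nat_lit 4704, nat_lit 0, nat_lit 0, nat_lit 0, nat_lit 0, nat_lit 0, nat_lit 0, nat_lit 0, nat_lit 0, nat_lit 0, nat_lit 0, nat_lit 0, nat_lit 0, [],
 ⟨p070_k37, nat_lit 0, nat_lit 0, nat_lit 259, nat_lit 0, nat_lit 432146, [nat_lit 3282000000, nat_lit 6250000000], [], [nat_lit 24531195393, nat_lit 25328386125, nat_lit 24811540672, nat_lit 25506328544, nat_lit 21870142810, nat_lit 22613915498, nat_lit 24684057280, nat_lit 23183737376], nat_lit 1271250, nat_lit 1271250, nat_lit 382400, nat_lit 1100001, nat_lit 0, nat_lit 490000, [nat_lit 780000, nat_lit 1435000], [nat_lit 49, nat_lit 40, nat_lit 40, nat_lit 80, nat_lit 16, nat_lit 272, nat_lit 60, nat_lit 11]⟩, ⟨p070_k37, nat_lit 0, nat_lit 0, nat_lit 59, nat_lit 0, nat_lit 0, [nat_lit 3282000000, nat_lit 6250000000], [], [nat_lit 12800065991, nat_lit 13735266018, nat_lit 13951609152, nat_lit 14771234032,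 nat_lit 23325412809, nat_lit 23931147144, nat_lit 23257489159, nat_lit 23795859300], nat_lit 0, nat_lit 0, nat_lit 0, nat_lit 0, nat_lit 0, nat_lit 0, [], [nat_lit 49, nat_lit 40, nat_lit 40, nat_lit 80, nat_lit 16, nat_lit 345, nat_lit 125, nat_lit 13]⟩,
 zbF0, [⟨nat_lit 0, nat_lit 100, nat_lit 100, nat_lit 90, nat_lit 534216784⟩, ⟨nat_lit 19, nat_lit 100, nat_lit 87, nat_lit 99, nat_lit 427956027⟩, ⟨nat_lit 19, nat_lit 100, nat_lit 80, nat_lit 100, nat_lit 61118870⟩]⟩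
noncomputable def p070_l109 : Lf2 := ⟨nat_lit 0, nat_lit 2, [nat_lit 10, nat_lit 5, nat_lit 5, nat_lit 20], false, nat_lit 0, nat_lit 80, nat_lit 160, nat_lit 336, ⟨nat_lit 1000, nat_lit 0, nat_lit 0, nat_lit 0, nat_lit 0, nat_lit 0, nat_lit 0, nat_lit 0, nat_lit 0, nat_lit 0, nat_lit 0, nat_lit 0, nat_lit 0, nat_lit 0, nat_lit 0, nat_lit 0, false, false⟩,
 nat_lit 0, nat_lit 9068, nat_lit 0, nat_lit 0, nat_lit 6021, nat_lit 4807, nat_lit 4186, nat_lit 0, nat_lit 0, nat_lit 0, nat_lit 0, nat_lit 0, nat_lit 0, nat_lit 0, nat_lit 0, nat_lit 0, nat_lit 0, nat_lit 0, [],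
 ⟨p070_k38, nat_lit 0, nat_lit 0, nat_lit 315, nat_lit 0, nat_lit 491186, [nat_lit 3282000000, nat_lit 6250000000], [], [nat_lit 17797296487, nat_lit 18576156736, nat_lit 18517632256, nat_lit 19202394008, nat_lit 15758463404, nat_lit 16482298431, nat_lit 18313687037, nat_lit 17122876022], nat_lit 1271250, nat_lit 1271250, nat_lit 435600, nat_lit 1100001, nat_lit 0, nat_lit 490000, [nat_lit 780000, nat_lit 1435000], [nat_lit 49, nat_lit 40, nat_lit 40, nat_lit 80, nat_lit 16, nat_lit 272, nat_lit 60, nat_lit 11]⟩, ⟨p070_k37, nat_lit 0, nat_lit 0, nat_lit 55, nat_lit 0, nat_lit 0, [nat_lit 3282000000, nat_lit 6250000000], [], [nat_lit 12586488458, nat_lit 13526091846, nat_lit 13810642116, nat_lit 14640293531, nat_lit 23147599033, nat_lit 23813722436, nat_lit 23202725048, nat_lit 23746343059], nat_lit 0, nat_lit 0, nat_lit 0, nat_lit 0, nat_lit 0, nat_lit 0, [], [nat_lit 49, nat_lit 40, nat_lit 40, nat_lit 80, nat_lit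 16, nat_lit 345, nat_lit 125, nat_lit 13]⟩,
 zbF0, [⟨nat_lit 0, nat_lit 100, nat_lit 97, nat_lit 89, nat_lit 509415185⟩, ⟨nat_lit 19, nat_lit 100, nat_lit 80, nat_lit 100, nat_lit 487098901⟩]⟩
noncomputable def p070_l110 : Lf2 := ⟨nat_lit 0, nat_lit 5, [nat_lit 4, nat_lit 5, nat_lit 5, nat_lit 20], false, nat_lit 0, nat_lit 80, nat_lit 160, nat_lit 336, ⟨nat_lit 1000, nat_lit 0, nat_lit 0, nat_lit 0, nat_lit 0, nat_lit 0, nat_lit 0, nat_lit 0, nat_lit 0, nat_lit 0, nat_lit 0, nat_lit 0, nat_lit 0, nat_lit 0, nat_lit 0, nat_lit 0, false, false⟩,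
 nat_lit 0, nat_lit 10148, nat_lit 0, nat_lit 0, nat_lit 6457, nat_lit 4755, nat_lit 1011, nat_lit 0, nat_lit 0, nat_lit 0, nat_lit 0, nat_lit 0, nat_lit 0, nat_lit 0, nat_lit 0, nat_lit 0, nat_lit 0, nat_lit 0, [],
 ⟨p070_k13, nat_lit 0, nat_lit 0, nat_lit 329, nat_lit 0, nat_lit 372780, [nat_lit 3282000000, nat_lit 6250000000, nat_lit 7968000000], [], [nat_lit 24504604822, nat_lit 26155008247, nat_lit 24623564128, nat_lit 26063190304, nat_lit 21651383231, nat_lit 23151013205, nat_lit 24471299220, nat_lit 23294702102], nat_lit 1271250, nat_lit 1271250, nat_lit 382400, nat_lit 1100001, nat_lit 0, nat_lit 490000, [nat_lit 780000, nat_lit 1435000, nat_lit 1271250], [nat_lit 18, nat_lit 40, nat_lit 40, nat_lit 80, nat_lit 2, nat_lit 272, nat_lit 60, nat_lit 9]⟩, ⟨p070_k13, nat_lit 0, nat_lit 0, nat_lit 86, nat_lit 0, nat_lit 0, [nat_lit 3282000000, nat_lit 6250000000, nat_lit 7968000000], [], [nat_lit 12743288589,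 nat_lit 13684396548, nat_lit 13881809940, nat_lit 14706399415, nat_lit 23320718272, nat_lit 23986480008, nat_lit 23230372949, nat_lit 23771341549], nat_lit 0, nat_lit 0, nat_lit 0, nat_lit 0, nat_lit 0, nat_lit 0, [], [nat_lit 18, nat_lit 40, nat_lit 40, nat_lit 80, nat_lit 2, nat_lit 345, nat_lit 125, nat_lit 11]⟩,
 zbF0, [⟨nat_lit 0, nat_lit 100, nat_lit 99, nat_lit 87, nat_lit 327684179⟩, ⟨nat_lit 0, nat_lit 100, nat_lit 97, nat_lit 94, nat_lit 270470891⟩, ⟨nat_lit 19, nat_lit 100, nat_lit 87, nat_lit 99, nat_lit 44023030⟩, ⟨nat_lit 19, nat_lit 100, nat_lit 80, nat_lit 100, nat_lit 442364354⟩]⟩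
noncomputable def p070_l111 : Lf2 := ⟨nat_lit 0, nat_lit 10, [nat_lit 0, nat_lit 5, nat_lit 5, nat_lit 20], false, nat_lit 0, nat_lit 80, nat_lit 160, nat_lit 336, ⟨nat_lit 1000, nat_lit 0, nat_lit 0, nat_lit 0, nat_lit 0, nat_lit 0, nat_lit 0, nat_lit 0, nat_lit 0, nat_lit 0, nat_lit 0, nat_lit 0, nat_lit 0, nat_lit 0, nat_lit 0, nat_lit 0, false, false⟩,
 nat_lit 0, nat_lit 12269, nat_lit 0, nat_lit 0, nat_lit 7807, nat_lit 4704, nat_lit 1311, nat_lit 0, nat_lit 0, nat_lit 0, nat_lit 0, nat_lit 0, nat_lit 0, nat_lit 0, nat_lit 0, nat_lit 0, nat_lit 0, nat_lit 0, [],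
 ⟨p070_k6, nat_lit 0, nat_lit 0, nat_lit 368, nat_lit 0, nat_lit 320591, [nat_lit 3282000000, nat_lit 6250000000, nat_lit 9842000000], [], [nat_lit 23415171177, nat_lit 25073440831, nat_lit 22741840032, nat_lit 24516457504, nat_lit 18919833825, nat_lit 20723397105, nat_lit 21244070220, nat_lit 20397229084], nat_lit 1271250, nat_lit 1271250, nat_lit 382400, nat_lit 1100001, nat_lit 0, nat_lit 490000, [nat_lit 780000, nat_lit 1435000, nat_lit 1271250], [nat_lit 8, nat_lit 40, nat_lit 40, nat_lit 80, nat_lit 1, nat_lit 272, nat_lit 60, nat_lit 8]⟩, ⟨p070_k6, nat_lit 0, nat_lit 0, nat_lit 86, nat_lit 0, nat_lit 0, [nat_lit 3282000000, nat_lit 6250000000, nat_lit 9842000000], [], [nat_lit 12800065991, nat_lit 13735266018, nat_lit 13951609152, nat_lit 14771234032, nat_lit 23325412809, nat_lit 23931147144, nat_lit 23257489159, nat_lit 23795859300], nat_lit 0, nat_lit 0, nat_lit 0, nat_lit 0, nat_lit 0, nat_lit 0, [],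 [nat_lit 8, nat_lit 40, nat_lit 40, nat_lit 80, nat_lit 1, nat_lit 345, nat_lit 125, nat_lit 10]⟩,
 zbF0, [⟨nat_lit 0, nat_lit 100, nat_lit 99, nat_lit 87, nat_lit 612849011⟩, ⟨nat_lit 19, nat_lit 100, nat_lit 91, nat_lit 96, nat_lit 504995143⟩]⟩
noncomputable def p070_l112 : Lf2 := ⟨nat_lit 0, nat_lit 10, [nat_lit 0, nat_lit 5, nat_lit 5, nat_lit 20], false, nat_lit 80, nat_lit 160, nat_lit 160, nat_lit 336, ⟨nat_lit 1000, nat_lit 0, nat_lit 0, nat_lit 0, nat_lit 0, nat_lit 0, nat_lit 0, nat_lit 0, nat_lit 0, nat_lit 0, nat_lit 0, nat_lit 0, nat_lit 0, nat_lit 0, nat_lit 0, nat_lit 0, false, false⟩,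
 nat_lit 0, nat_lit 12022, nat_lit 0, nat_lit 0, nat_lit 7650, nat_lit 4730, nat_lit 1214, nat_lit 0, nat_lit 0, nat_lit 0, nat_lit 0, nat_lit 0, nat_lit 0, nat_lit 27343594448679, nat_lit 0, nat_lit 0, nat_lit 0, nat_lit 0, [],
 ⟨p070_k6, nat_lit 0, nat_lit 0, nat_lit 365, nat_lit 0, nat_lit 497226, [nat_lit 3282000000, nat_lit 6250000000, nat_lit 9842000000], [], [nat_lit 23389920760, nat_lit 22417296700, nat_lit 21619385000, nat_lit 20718203525, nat_lit 20819875560, nat_lit 19913816010, nat_lit 28402967200, nat_lit 27525565750], nat_lit 1271250, nat_lit 1271250, nat_lit 382400, nat_lit 1100001, nat_lit 490000, nat_lit 1100001, [nat_lit 780000, nat_lit 1435000, nat_lit 1271250], [nat_lit 8, nat_lit 40, nat_lit 40, nat_lit 80, nat_lit 1, nat_lit 317, nat_lit 100, nat_lit 9]⟩, ⟨p070_k6, nat_lit 0, nat_lit 0, nat_lit 84, nat_lit 0, nat_lit 0, [nat_lit 3282000000, nat_lit 6250000000, nat_lit 9842000000], [], [nat_lit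 12771120649, nat_lit 13240226605, nat_lit 13916025240, nat_lit 14327103165, nat_lit 23323019516, nat_lit 23626682445, nat_lit 23243665209, nat_lit 23513512632], nat_lit 0, nat_lit 0, nat_lit 0, nat_lit 0, nat_lit 0, nat_lit 0, [], [nat_lit 8, nat_lit 40, nat_lit 40, nat_lit 80, nat_lit 1, nat_lit 345, nat_lit 125, nat_lit 10]⟩,
 zbF0, [⟨nat_lit 0, nat_lit 100, nat_lit 100, nat_lit 85, nat_lit 134418688⟩, ⟨nat_lit 7, nat_lit 89, nat_lit 100, nat_lit 95, nat_lit 551025957⟩]⟩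
noncomputable def p070_l113 : Lf2 := ⟨nat_lit 0, nat_lit 10, [nat_lit 0, nat_lit 5, nat_lit 5, nat_lit 20], false, nat_lit 80, nat_lit 160, nat_lit 160, nat_lit 336, ⟨nat_lit 1000, nat_lit 0, nat_lit 0, nat_lit 0, nat_lit 0, nat_lit 0, nat_lit 0, nat_lit 0, nat_lit 0, nat_lit 0, nat_lit 0, nat_lit 0, nat_lit 0, nat_lit 0, nat_lit 0, nat_lit 0, false, false⟩,
 nat_lit 0, nat_lit 14901, nat_lit 0, nat_lit 0, nat_lit 9688, nat_lit 4729, nat_lit 4183, nat_lit 0, nat_lit 0, nat_lit 0, nat_lit 0, nat_lit 0, nat_lit 0, nat_lit 0, nat_lit 0, nat_lit 0, nat_lit 0, nat_lit 0, [],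
 ⟨p070_k31, nat_lit 0, nat_lit 0, nat_lit 439, nat_lit 0, nat_lit 577521, [nat_lit 3282000000, nat_lit 6250000000, nat_lit 9842000000], [], [nat_lit 14791216240, nat_lit 13561295092, nat_lit 11857436345, nat_lit 12214078945, nat_lit 12314828505, nat_lit 12676655486, nat_lit 19629346590, nat_lit 18518200806], nat_lit 1271250, nat_lit 1271250, nat_lit 408851, nat_lit 1100001, nat_lit 490000, nat_lit 1100001, [nat_lit 780000, nat_lit 1435000, nat_lit 1271250], [nat_lit 8, nat_lit 40, nat_lit 40, nat_lit 80, nat_lit 1, nat_lit 317, nat_lit 100, nat_lit 9]⟩, ⟨p070_k6, nat_lit 0, nat_lit 0, nat_lit 84, nat_lit 0, nat_lit 0, [nat_lit 3282000000, nat_lit 6250000000, nat_lit 9842000000], [], [nat_lit 12724932039, nat_lit 13659308649, nat_lit 13917393852, nat_lit 14739452357, nat_lit 23241466618, nat_lit 23846680942, nat_lit 23244196899, nat_lit 23783840795], nat_lit 0, nat_lit 0, nat_lit 0, nat_lit 0, nat_lit 0, nat_lit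 0, [], [nat_lit 8, nat_lit 40, nat_lit 40, nat_lit 80, nat_lit 1, nat_lit 345, nat_lit 125, nat_lit 10]⟩,
 zbF0, [⟨nat_lit 0, nat_lit 100, nat_lit 100, nat_lit 90, nat_lit 163761326⟩, ⟨nat_lit 7, nat_lit 91, nat_lit 100, nat_lit 96, nat_lit 539407754⟩]⟩
noncomputable def p070_l114 : Lf2 := ⟨nat_lit 0, nat_lit 10, [nat_lit 0, nat_lit 5, nat_lit 5, nat_lit 20], false, nat_lit 80, nat_lit 160, nat_lit 160, nat_lit 336, ⟨nat_lit 1000, nat_lit 0, nat_lit 0, nat_lit 0, nat_lit 0, nat_lit 0, nat_lit 0, nat_lit 0, nat_lit 0, nat_lit 0, nat_lit 0, nat_lit 0, nat_lit 0, nat_lit 0, nat_lit 0, nat_lit 0, false, false⟩,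
 nat_lit 0, nat_lit 12047, nat_lit 0, nat_lit 0, nat_lit 8000, nat_lit 4754, nat_lit 3407, nat_lit 0, nat_lit 0, nat_lit 0, nat_lit 0, nat_lit 0, nat_lit 0, nat_lit 0, nat_lit 0, nat_lit 0, nat_lit 0, nat_lit 0, [],
 ⟨p070_k3, nat_lit 0, nat_lit 0, nat_lit 395, nat_lit 0, nat_lit 651443, [nat_lit 3282000000, nat_lit 6250000000, nat_lit 7968000000], [], [nat_lit 13411846451, nat_lit 14141052851, nat_lit 13106224250, nat_lit 13743085250, nat_lit 13336631450, nat_lit 13979410051, nat_lit 20212063750, nat_lit 18400831750], nat_lit 1271250, nat_lit 1271250, nat_lit 435600, nat_lit 1100001, nat_lit 490000, nat_lit 1100001, [nat_lit 780000, nat_lit 1435000, nat_lit 1271250], [nat_lit 18, nat_lit 40, nat_lit 40, nat_lit 80, nat_lit 2, nat_lit 317, nat_lit 100, nat_lit 10]⟩, ⟨p070_k6, nat_lit 0, nat_lit 0, nat_lit 81, nat_lit 0, nat_lit 0, [nat_lit 3282000000, nat_lit 6250000000, nat_lit 9842000000], [], [nat_lit 12648418068,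 nat_lit 13581942599, nat_lit 13883178552, nat_lit 14707670682, nat_lit 23155904159, nat_lit 23760583908, nat_lit 23230904639, nat_lit 23771822290], nat_lit 0, nat_lit 0, nat_lit 0, nat_lit 0, nat_lit 0, nat_lit 0, [], [nat_lit 8, nat_lit 40, nat_lit 40, nat_lit 80, nat_lit 1, nat_lit 345, nat_lit 125, nat_lit 10]⟩,
 zbF0, [⟨nat_lit 0, nat_lit 100, nat_lit 97, nat_lit 89, nat_lit 170434773⟩, ⟨nat_lit 7, nat_lit 91, nat_lit 100, nat_lit 96, nat_lit 539157134⟩]⟩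
noncomputable def p070_l115 : Lf2 := ⟨nat_lit 0, nat_lit 10, [nat_lit 0, nat_lit 5, nat_lit 5, nat_lit 20], false, nat_lit 0, nat_lit 160, nat_lit 0, nat_lit 312, ⟨nat_lit 1000, nat_lit 0, nat_lit 0, nat_lit 0, nat_lit 0, nat_lit 0, nat_lit 0, nat_lit 0, nat_lit 0, nat_lit 0, nat_lit 0, nat_lit 0, nat_lit 0, nat_lit 0, nat_lit 0, nat_lit 0, false, false⟩,
 nat_lit 0, nat_lit 11562, nat_lit 0, nat_lit 0, nat_lit 7678, nat_lit 7669, nat_lit 2764, nat_lit 0, nat_lit 0, nat_lit 937, nat_lit 0, nat_lit 0, nat_lit 0, nat_lit 20926027152706, nat_lit 0, nat_lit 0, nat_lit 0, nat_lit 0, [],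
 ⟨p070_k3, nat_lit 0, nat_lit 0, nat_lit 503, nat_lit 0, nat_lit 727648, [nat_lit 3282000000, nat_lit 6250000000, nat_lit 7968000000], [], [nat_lit 23819533162, nat_lit 21849903500, nat_lit 19891028114, nat_lit 20397788740, nat_lit 16692589246, nat_lit 17163142684, nat_lit 21613172400, nat_lit 19874842488], nat_lit 1271250, nat_lit 1271250, nat_lit 490000, nat_lit 1100001, nat_lit 0, nat_lit 1100001, [nat_lit 780000, nat_lit 1435000, nat_lit 1271250], [nat_lit 18, nat_lit 40, nat_lit 40, nat_lit 80, nat_lit 2, nat_lit 317, nat_lit 100, nat_lit 11]⟩, ⟨p070_k3, nat_lit 0, nat_lit 0, nat_lit 146, nat_lit 0, nat_lit 0, [nat_lit 3282000000, nat_lit 6250000000, nat_lit 7968000000], [], [nat_lit 20841613506, nat_lit 22016340456, nat_lit 20790201768, nat_lit 21830523852, nat_lit 23893591900, nat_lit 24622664227, nat_lit 23195837343, nat_lit 23842298905], nat_lit 0, nat_lit 0, nat_lit 0, nat_lit 0, nat_lit 0, nat_lit 0,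 [], [nat_lit 18, nat_lit 40, nat_lit 40, nat_lit 80, nat_lit 2, nat_lit 345, nat_lit 125, nat_lit 11]⟩,
 zbF0, [⟨nat_lit 0, nat_lit 100, nat_lit 100, nat_lit 95, nat_lit 435415816⟩, ⟨nat_lit 19, nat_lit 100, nat_lit 100, nat_lit 95, nat_lit 227115210⟩]⟩
noncomputable def p070_l116 : Lf2 := ⟨nat_lit 0, nat_lit 10, [nat_lit 0, nat_lit 5, nat_lit 5, nat_lit 20], false, nat_lit 0, nat_lit 160, nat_lit 0, nat_lit 328, ⟨nat_lit 1000, nat_lit 0, nat_lit 0, nat_lit 0, nat_lit 0, nat_lit 0, nat_lit 0, nat_lit 0, nat_lit 0, nat_lit 0, nat_lit 0, nat_lit 0, nat_lit 0, nat_lit 0, nat_lit 0, nat_lit 0, false, false⟩,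
 nat_lit 0, nat_lit 11859, nat_lit 0, nat_lit 0, nat_lit 7875, nat_lit 7412, nat_lit 2208, nat_lit 0, nat_lit 0, nat_lit 900, nat_lit 0, nat_lit 0, nat_lit 0, nat_lit 25314835268859, nat_lit 0, nat_lit 0, nat_lit 0, nat_lit 0, [],
 ⟨p070_k3, nat_lit 0, nat_lit 0, nat_lit 436, nat_lit 0, nat_lit 608365, [nat_lit 3282000000, nat_lit 6250000000, nat_lit 7968000000], [], [nat_lit 24180409125, nat_lit 22160243250, nat_lit 20459875250, nat_lit 21137861500, nat_lit 16842766125, nat_lit 17473967750, nat_lit 22018833250, nat_lit 20212418500], nat_lit 1271250, nat_lit 1271250, nat_lit 490000, nat_lit 1100001, nat_lit 0, nat_lit 1100001, [nat_lit 780000, nat_lit 1435000, nat_lit 1271250], [nat_lit 18, nat_lit 40, nat_lit 40, nat_lit 80, nat_lit 2, nat_lit 317, nat_lit 100, nat_lit 11]⟩, ⟨p070_k3, nat_lit 0, nat_lit 0, nat_lit 146, nat_lit 0, nat_lit 0, [nat_lit 3282000000, nat_lit 6250000000, nat_lit 7968000000], [], [nat_lit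 20958546488, nat_lit 22106661088, nat_lit 20973595464, nat_lit 21991035296, nat_lit 25330891568, nat_lit 26008091920, nat_lit 24570917661, nat_lit 25172529863], nat_lit 0, nat_lit 0, nat_lit 0, nat_lit 0, nat_lit 0, nat_lit 0, [], [nat_lit 18, nat_lit 40, nat_lit 40, nat_lit 80, nat_lit 2, nat_lit 345, nat_lit 125, nat_lit 11]⟩,
 zbF0, [⟨nat_lit 0, nat_lit 100, nat_lit 100, nat_lit 95, nat_lit 437173678⟩, ⟨nat_lit 7, nat_lit 92, nat_lit 99, nat_lit 100, nat_lit 238313586⟩]⟩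
noncomputable def p070_l117 : Lf2 := ⟨nat_lit 0, nat_lit 10, [nat_lit 0, nat_lit 5, nat_lit 5, nat_lit 20], false, nat_lit 0, nat_lit 160, nat_lit 0, nat_lit 336, ⟨nat_lit 1000, nat_lit 0, nat_lit 0, nat_lit 0, nat_lit 0, nat_lit 0, nat_lit 0, nat_lit 0, nat_lit 0, nat_lit 0, nat_lit 0, nat_lit 0, nat_lit 0, nat_lit 0, nat_lit 0, nat_lit 0, false, false⟩,
 nat_lit 0, nat_lit 10753, nat_lit 0, nat_lit 0, nat_lit 6842, nat_lit 8237, nat_lit 904, nat_lit 0, nat_lit 0, nat_lit 1470, nat_lit 0, nat_lit 0, nat_lit 0, nat_lit 0, nat_lit 0, nat_lit 0, nat_lit 0, nat_lit 0, [],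
 ⟨p070_k6, nat_lit 0, nat_lit 0, nat_lit 467, nat_lit 0, nat_lit 595503, [nat_lit 3282000000, nat_lit 6250000000, nat_lit 9842000000], [], [nat_lit 32722874488, nat_lit 30941292950, nat_lit 30837377392, nat_lit 31274046478, nat_lit 25877326968, nat_lit 26257341506, nat_lit 29975478416, nat_lit 28385048674], nat_lit 1271250, nat_lit 1271250, nat_lit 1100001, nat_lit 1785000, nat_lit 0, nat_lit 1100001, [nat_lit 780000, nat_lit 1435000, nat_lit 1271250], [nat_lit 8, nat_lit 40, nat_lit 40, nat_lit 80, nat_lit 1, nat_lit 317, nat_lit 100, nat_lit 9]⟩, ⟨p070_k6, nat_lit 0, nat_lit 0, nat_lit 159, nat_lit 0, nat_lit 0, [nat_lit 3282000000, nat_lit 6250000000, nat_lit 9842000000], [], [nat_lit 19498544150, nat_lit 20468795453, nat_lit 23380267204, nat_lit 24383623915, nat_lit 24903326823, nat_lit 25522128020, nat_lit 26785904224, nat_lit 27452556781], nat_lit 0, nat_lit 0, nat_lit 0, nat_lit 0, nat_lit 0, nat_lit 0,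 [], [nat_lit 8, nat_lit 40, nat_lit 40, nat_lit 80, nat_lit 1, nat_lit 373, nat_lit 150, nat_lit 11]⟩,
 zbF0, [⟨nat_lit 7, nat_lit 91, nat_lit 100, nat_lit 96, nat_lit 275632059⟩]⟩
noncomputable def p070_l118 : Lf2 := ⟨nat_lit 0, nat_lit 10, [nat_lit 0, nat_lit 5, nat_lit 5, nat_lit 20], false, nat_lit 0, nat_lit 160, nat_lit 0, nat_lit 336, ⟨nat_lit 1000, nat_lit 0, nat_lit 0, nat_lit 0, nat_lit 0, nat_lit 0, nat_lit 0, nat_lit 0, nat_lit 0, nat_lit 0, nat_lit 0, nat_lit 0, nat_lit 0, nat_lit 0, nat_lit 0, nat_lit 0, false, false⟩,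
 nat_lit 0, nat_lit 10453, nat_lit 0, nat_lit 0, nat_lit 6941, nat_lit 12767, nat_lit 3816, nat_lit 0, nat_lit 0, nat_lit 0, nat_lit 0, nat_lit 0, nat_lit 0, nat_lit 8563658903854, nat_lit 0, nat_lit 0, nat_lit 0, nat_lit 0, [],
 ⟨p070_k30, nat_lit 0, nat_lit 0, nat_lit 479, nat_lit 0, nat_lit 749131, [nat_lit 3282000000, nat_lit 7968000000], [], [nat_lit 24073036539, nat_lit 22292468750, nat_lit 22891497659, nat_lit 23519655722, nat_lit 17518753349, nat_lit 17917531682, nat_lit 26458728536, nat_lit 24887258372], nat_lit 1271250, nat_lit 1271250, nat_lit 1100001, nat_lit 1785000, nat_lit 0, nat_lit 1100001, [nat_lit 780000, nat_lit 1762500], [nat_lit 74, nat_lit 40, nat_lit 40, nat_lit 80, nat_lit 43, nat_lit 317, nat_lit 100, nat_lit 10]⟩, ⟨p070_k34, nat_lit 0, nat_lit 0, nat_lit 157, nat_lit 0, nat_lit 0, [nat_lit 3282000000, nat_lit 9842000000], [], [nat_lit 29188246400, nat_lit 31821105146, nat_lit 32590462620,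 nat_lit 34751898598, nat_lit 28574247708, nat_lit 29837289767, nat_lit 29131599832, nat_lit 30872251606], nat_lit 0, nat_lit 0, nat_lit 0, nat_lit 0, nat_lit 0, nat_lit 0, [], [nat_lit 82, nat_lit 40, nat_lit 40, nat_lit 80, nat_lit 63, nat_lit 373, nat_lit 150, nat_lit 11]⟩,
 zbF0, [⟨nat_lit 7, nat_lit 94, nat_lit 100, nat_lit 97, nat_lit 135741228⟩]⟩
noncomputable def p070_l119 : Lf2 := ⟨nat_lit 0, nat_lit 10, [nat_lit 0, nat_lit 5, nat_lit 5, nat_lit 20], false, nat_lit 0, nat_lit 160, nat_lit 0, nat_lit 160, ⟨nat_lit 1000, nat_lit 0, nat_lit 0, nat_lit 0, nat_lit 0, nat_lit 0, nat_lit 0, nat_lit 0, nat_lit 0, nat_lit 0, nat_lit 0, nat_lit 0, nat_lit 0, nat_lit 0, nat_lit 0, nat_lit 0, false, false⟩,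
 nat_lit 0, nat_lit 9853, nat_lit 0, nat_lit 0, nat_lit 6821, nat_lit 7617, nat_lit 2085, nat_lit 0, nat_lit 0, nat_lit 1503, nat_lit 0, nat_lit 0, nat_lit 0, nat_lit 0, nat_lit 0, nat_lit 0, nat_lit 0, nat_lit 0, [],
 ⟨p070_k0, nat_lit 0, nat_lit 0, nat_lit 569, nat_lit 0, nat_lit 883896, [nat_lit 3282000000, nat_lit 6250000000, nat_lit 7968000000], [], [nat_lit 24192822856, nat_lit 22290134104, nat_lit 23339578722, nat_lit 25624690080, nat_lit 16559631000, nat_lit 17604070491, nat_lit 28648072273, nat_lit 25637651207], nat_lit 1271250, nat_lit 1271250, nat_lit 490000, nat_lit 1740000, nat_lit 0, nat_lit 1100001, [nat_lit 780000, nat_lit 1435000, nat_lit 1271250], [nat_lit 18, nat_lit 40, nat_lit 40, nat_lit 80, nat_lit 2, nat_lit 317, nat_lit 100, nat_lit 10]⟩, ⟨p070_k6, nat_lit 0, nat_lit 0, nat_lit 187, nat_lit 0, nat_lit 0, [nat_lit 3282000000, nat_lit 6250000000, nat_lit 9842000000], [], [nat_lit 19562886515,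 nat_lit 21644037160, nat_lit 23470606164, nat_lit 25378115866, nat_lit 14808108404, nat_lit 16956549426, nat_lit 18708864560, nat_lit 20297528506], nat_lit 0, nat_lit 0, nat_lit 0, nat_lit 0, nat_lit 0, nat_lit 0, [], [nat_lit 8, nat_lit 40, nat_lit 40, nat_lit 80, nat_lit 1, nat_lit 317, nat_lit 100, nat_lit 9]⟩,
 zbF0, [⟨nat_lit 0, nat_lit 94, nat_lit 87, nat_lit 100, nat_lit 176032602⟩]⟩
noncomputable def p070_l120 : Lf2 := ⟨nat_lit 0, nat_lit 10, [nat_lit 0, nat_lit 5, nat_lit 5, nat_lit 20], false, nat_lit 0, nat_lit 160, nat_lit 160, nat_lit 336, ⟨nat_lit 1000, nat_lit 0, nat_lit 0, nat_lit 0, nat_lit 0, nat_lit 0, nat_lit 0, nat_lit 0, nat_lit 0, nat_lit 0, nat_lit 0, nat_lit 0, nat_lit 0, nat_lit 0, nat_lit 0, nat_lit 0, false, false⟩,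
 nat_lit 0, nat_lit 9814, nat_lit 0, nat_lit 0, nat_lit 6794, nat_lit 4753, nat_lit 2685, nat_lit 0, nat_lit 0, nat_lit 0, nat_lit 0, nat_lit 0, nat_lit 0, nat_lit 0, nat_lit 0, nat_lit 0, nat_lit 0, nat_lit 0, [],
 ⟨p070_k0, nat_lit 0, nat_lit 0, nat_lit 569, nat_lit 0, nat_lit 883896, [nat_lit 3282000000, nat_lit 6250000000, nat_lit 7968000000], [], [nat_lit 21910542034, nat_lit 22245572656, nat_lit 23305626708, nat_lit 25584825120, nat_lit 16358117148, nat_lit 17558427280, nat_lit 27558071347, nat_lit 24559566623], nat_lit 1271250, nat_lit 1271250, nat_lit 490000, nat_lit 1740000, nat_lit 0, nat_lit 1100001, [nat_lit 780000, nat_lit 1435000, nat_lit 1271250], [nat_lit 18, nat_lit 40, nat_lit 40, nat_lit 80, nat_lit 2, nat_lit 317, nat_lit 100, nat_lit 10]⟩, ⟨p070_k6, nat_lit 0, nat_lit 0, nat_lit 80, nat_lit 0, nat_lit 0, [nat_lit 3282000000, nat_lit 6250000000, nat_lit 9842000000], [], [nat_lit 12553657948,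 nat_lit 14405544742, nat_lit 17291328112, nat_lit 18693385696, nat_lit 22991219347, nat_lit 24192228331, nat_lit 25183635273, nat_lit 26114099174], nat_lit 0, nat_lit 0, nat_lit 0, nat_lit 0, nat_lit 0, nat_lit 0, [], [nat_lit 8, nat_lit 40, nat_lit 40, nat_lit 80, nat_lit 1, nat_lit 373, nat_lit 150, nat_lit 10]⟩,
 zbF0, [⟨nat_lit 0, nat_lit 94, nat_lit 87, nat_lit 100, nat_lit 194857885⟩, ⟨nat_lit 7, nat_lit 94, nat_lit 100, nat_lit 97, nat_lit 522112793⟩]⟩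
noncomputable def b_V_700_700_20_18 : St := ⟨true, nat_lit 1, nat_lit 0, nat_lit 1, nat_lit 120, nat_lit 280, nat_lit 320, nat_lit 280, nat_lit 300, nat_lit 64, nat_lit 240, nat_lit 80, nat_lit 120, nat_lit 0, nat_lit 160, nat_lit 0, nat_lit 336, nat_lit 0, nat_lit 40, nat_lit 0, nat_lit 0, nat_lit 0, nat_lit 0⟩
theorem d_V_700_700_20_18 (h : EB TB.env) : Dead b_V_700_700_20_18 := chkB_sound0 h (T :=
(.spl (nat_lit 0) (nat_lit 300)
(.spl (nat_lit 2) (nat_lit 160)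
(.spl (nat_lit 1) (nat_lit 290)
(.spl (nat_lit 5) (nat_lit 160)
(.leaf p070_l103)
(.spl (nat_lit 4) (nat_lit 80)
(.spl (nat_lit 6) (nat_lit 20)
(.spl (nat_lit 3) (nat_lit 100)
(.trX (nat_lit 19) (nat_lit 100) (nat_lit 88) (nat_lit 94) (nat_lit 320) (.spl (nat_lit 0) (nat_lit 290)
(.spl (nat_lit 2) (nat_lit 120)
(.spl (nat_lit 0) (nat_lit 285)
(.ord (.leaf p070_l104))
(.trZ (nat_lit 0) (nat_lit 100) (nat_lit 99) (nat_lit 82) (nat_lit 68) (.leaf p070_l105)))
(.leaf p070_l106))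
(.trZ (nat_lit 0) (nat_lit 100) (nat_lit 97) (nat_lit 84) (nat_lit 72) (.leaf p070_l107))))
(.spl (nat_lit 6) (nat_lit 8)
(.spl (nat_lit 0) (nat_lit 290)
(.leaf p070_l108)
(.trZ (nat_lit 0) (nat_lit 100) (nat_lit 97) (nat_lit 84) (nat_lit 72) (.leaf p070_l109)))
(.leaf p070_l110)))
(.leaf p070_l111))
(.spl (nat_lit 0) (nat_lit 290)
(.spl (nat_lit 0) (nat_lit 285)
(.ord (.leaf p070_l112))
(.trZ (nat_lit 0) (nat_lit 100) (nat_lit 99) (nat_lit 82) (nat_lit 68) (.leaf p070_l113)))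
(.trZ (nat_lit 0) (nat_lit 100) (nat_lit 97) (nat_lit 84) (nat_lit 72) (.leaf p070_l114)))))
(.ord (.trZ (nat_lit 0) (nat_lit 100) (nat_lit 100) (nat_lit 90) (nat_lit 80) (.trX (nat_lit 19) (nat_lit 97) (nat_lit 84) (nat_lit 100) (nat_lit 328) (.spl (nat_lit 3) (nat_lit 100)
(.trX (nat_lit 19) (nat_lit 100) (nat_lit 94) (nat_lit 97) (nat_lit 312) (.leaf p070_l115))
(.leaf p070_l116))))))
(.spl (nat_lit 0) (nat_lit 290)
(.ord (.leaf p070_l117))
(.leaf p070_l118)))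
(.trZ (nat_lit 0) (nat_lit 100) (nat_lit 94) (nat_lit 88) (nat_lit 80) (.spl (nat_lit 5) (nat_lit 160)
(.leaf p070_l119)
(.leaf p070_l120))))) (by decide +kernel)
noncomputable def p070_l121 : Lf2 := ⟨nat_lit 0, nat_lit 10, [nat_lit 0, nat_lit 5, nat_lit 5, nat_lit 20], false, nat_lit 160, nat_lit 336, nat_lit 0, nat_lit 160, ⟨nat_lit 1000, nat_lit 0, nat_lit 0, nat_lit 0, nat_lit 0, nat_lit 0, nat_lit 0, nat_lit 0, nat_lit 0, nat_lit 0, nat_lit 0, nat_lit 0, nat_lit 0, nat_lit 0, nat_lit 0, nat_lit 0, false, false⟩,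
 nat_lit 0, nat_lit 10838, nat_lit 0, nat_lit 4550, nat_lit 6896, nat_lit 6806, nat_lit 1571, nat_lit 0, nat_lit 0, nat_lit 2443, nat_lit 0, nat_lit 0, nat_lit 0, nat_lit 6263778514646, nat_lit 0, nat_lit 0, nat_lit 0, nat_lit 0, [],
 ⟨p070_k25, nat_lit 0, nat_lit 0, nat_lit 375, nat_lit 0, nat_lit 595503, [nat_lit 3282000000, nat_lit 4688000000, nat_lit 9842000000], [], [nat_lit 26876516039, nat_lit 25096844631, nat_lit 25670159035, nat_lit 24045440747, nat_lit 25816532484, nat_lit 26340787959, nat_lit 24945591642, nat_lit 25370636300], nat_lit 1271250, nat_lit 1271250, nat_lit 382400, nat_lit 1100001, nat_lit 1271250, nat_lit 1271250, [nat_lit 780000, nat_lit 1100000, nat_lit 2127500], [nat_lit 42, nat_lit 40, nat_lit 40, nat_lit 80, nat_lit 13, nat_lit 345, nat_lit 125, nat_lit 10]⟩, ⟨p070_k25, nat_lit 0, nat_lit 0, nat_lit 181, nat_lit 0, nat_lit 0, [nat_lit 3282000000, nat_lit 4688000000, nat_lit 9842000000],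 [], [nat_lit 17391163344, nat_lit 18644197566, nat_lit 16634683075, nat_lit 17694545696, nat_lit 12863003007, nat_lit 13958495450, nat_lit 13471539880, nat_lit 14316358740], nat_lit 0, nat_lit 0, nat_lit 0, nat_lit 0, nat_lit 0, nat_lit 0, [], [nat_lit 42, nat_lit 40, nat_lit 40, nat_lit 80, nat_lit 13, nat_lit 317, nat_lit 100, nat_lit 9]⟩,
 zbF0, [⟨nat_lit 0, nat_lit 100, nat_lit 100, nat_lit 85, nat_lit 609928838⟩, ⟨nat_lit 4, nat_lit 91, nat_lit 100, nat_lit 96, nat_lit 206478993⟩]⟩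
noncomputable def p070_l122 : Lf2 := ⟨nat_lit 0, nat_lit 10, [nat_lit 0, nat_lit 5, nat_lit 5, nat_lit 20], false, nat_lit 160, nat_lit 328, nat_lit 0, nat_lit 160, ⟨nat_lit 1000, nat_lit 0, nat_lit 0, nat_lit 0, nat_lit 0, nat_lit 0, nat_lit 0, nat_lit 0, nat_lit 0, nat_lit 0, nat_lit 0, nat_lit 0, nat_lit 0, nat_lit 0, nat_lit 0, nat_lit 0, false, false⟩,
 nat_lit 0, nat_lit 10362, nat_lit 0, nat_lit 0, nat_lit 6881, nat_lit 8042, nat_lit 2157, nat_lit 0, nat_lit 0, nat_lit 1537, nat_lit 0, nat_lit 0, nat_lit 0, nat_lit 0, nat_lit 0, nat_lit 0, nat_lit 0, nat_lit 0, [],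
 ⟨p070_k3, nat_lit 0, nat_lit 0, nat_lit 406, nat_lit 0, nat_lit 749131, [nat_lit 3282000000, nat_lit 6250000000, nat_lit 7968000000], [], [nat_lit 29431147171, nat_lit 27633933186, nat_lit 20006861783, nat_lit 20463297788, nat_lit 25511297377, nat_lit 25903959506, nat_lit 25160783989, nat_lit 24900759088], nat_lit 1271250, nat_lit 1271250, nat_lit 435600, nat_lit 1100001, nat_lit 1100001, nat_lit 2538500, [nat_lit 780000, nat_lit 1435000, nat_lit 1271250], [nat_lit 18, nat_lit 40, nat_lit 40, nat_lit 80, nat_lit 2, nat_lit 345, nat_lit 125, nat_lit 11]⟩, ⟨p070_k6, nat_lit 0, nat_lit 0, nat_lit 193, nat_lit 0, nat_lit 0, [nat_lit 3282000000, nat_lit 6250000000, nat_lit 9842000000], [], [nat_lit 19920682746, nat_lit 22090718708, nat_lit 19331347920, nat_lit 21704308960, nat_lit 14603802524, nat_lit 16851397379, nat_lit 14774894432, nat_lit 16739139180], nat_lit 0, nat_lit 0, nat_lit 0, nat_lit 0, nat_lit 0, nat_lit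 0, [], [nat_lit 8, nat_lit 40, nat_lit 40, nat_lit 80, nat_lit 1, nat_lit 317, nat_lit 100, nat_lit 9]⟩,
 zbF0, [⟨nat_lit 0, nat_lit 100, nat_lit 99, nat_lit 92, nat_lit 636034324⟩, ⟨nat_lit 16, nat_lit 100, nat_lit 97, nat_lit 98, nat_lit 111930946⟩]⟩
noncomputable def b_V_700_700_20_19 : St := ⟨true, nat_lit 1, nat_lit 0, nat_lit 1, nat_lit 120, nat_lit 280, nat_lit 300, nat_lit 280, nat_lit 300, nat_lit 64, nat_lit 160, nat_lit 80, nat_lit 120, nat_lit 160, nat_lit 336, nat_lit 0, nat_lit 160, nat_lit 0, nat_lit 40, nat_lit 0, nat_lit 0, nat_lit 0, nat_lit 0⟩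
theorem d_V_700_700_20_19 (h : EB TB.env) : Dead b_V_700_700_20_19 := chkB_sound0 h (T :=
(.spl (nat_lit 0) (nat_lit 290)
(.ord (.leaf p070_l121))
(.trZ (nat_lit 0) (nat_lit 100) (nat_lit 97) (nat_lit 84) (nat_lit 72) (.trX (nat_lit 16) (nat_lit 97) (nat_lit 84) (nat_lit 100) (nat_lit 328) (.leaf p070_l122))))) (by decide +kernel)
noncomputable def p070_l123 : Lf2 := ⟨nat_lit 0, nat_lit 5, [nat_lit 4, nat_lit 5, nat_lit 5, nat_lit 20], false, nat_lit 160, nat_lit 200, nat_lit 160, nat_lit 336, ⟨nat_lit 1000, nat_lit 0, nat_lit 0, nat_lit 0, nat_lit 0, nat_lit 0, nat_lit 0, nat_lit 0, nat_lit 0, nat_lit 0, nat_lit 0, nat_lit 0, nat_lit 0, nat_lit 0, nat_lit 0, nat_lit 0, false, false⟩,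
 nat_lit 0, nat_lit 10727, nat_lit 0, nat_lit 0, nat_lit 6826, nat_lit 4704, nat_lit 2550, nat_lit 0, nat_lit 0, nat_lit 0, nat_lit 0, nat_lit 0, nat_lit 0, nat_lit 14049073174009, nat_lit 0, nat_lit 0, nat_lit 0, nat_lit 0, [],
 ⟨p070_k15, nat_lit 0, nat_lit 0, nat_lit 301, nat_lit 0, nat_lit 578014, [nat_lit 3282000000, nat_lit 4688000000, nat_lit 7968000000], [], [nat_lit 21247190719, nat_lit 19511469978, nat_lit 18381255648, nat_lit 16794545122, nat_lit 19273052784, nat_lit 17949816922, nat_lit 22797845620, nat_lit 21231773505], nat_lit 1271250, nat_lit 1271250, nat_lit 382400, nat_lit 780000, nat_lit 1100001, nat_lit 1442500, [nat_lit 780000, nat_lit 1100000, nat_lit 1785000], [nat_lit 36, nat_lit 40, nat_lit 40, nat_lit 80, nat_lit 7, nat_lit 317, nat_lit 100, nat_lit 10]⟩, ⟨p070_k15, nat_lit 0, nat_lit 0, nat_lit 71, nat_lit 0, nat_lit 0, [nat_lit 3282000000, nat_lit 4688000000, nat_lit 7968000000], [],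 [nat_lit 12800065991, nat_lit 13735266018, nat_lit 12969019968, nat_lit 13842603512, nat_lit 23325412809, nat_lit 23931147144, nat_lit 22872592768, nat_lit 23443067960], nat_lit 0, nat_lit 0, nat_lit 0, nat_lit 0, nat_lit 0, nat_lit 0, [], [nat_lit 36, nat_lit 40, nat_lit 40, nat_lit 80, nat_lit 7, nat_lit 345, nat_lit 125, nat_lit 11]⟩,
 zbF0, [⟨nat_lit 0, nat_lit 100, nat_lit 100, nat_lit 85, nat_lit 303686934⟩, ⟨nat_lit 7, nat_lit 91, nat_lit 100, nat_lit 96, nat_lit 536094413⟩]⟩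
noncomputable def p070_l124 : Lf2 := ⟨nat_lit 0, nat_lit 5, [nat_lit 4, nat_lit 5, nat_lit 5, nat_lit 20], false, nat_lit 160, nat_lit 200, nat_lit 160, nat_lit 336, ⟨nat_lit 1000, nat_lit 0, nat_lit 0, nat_lit 0, nat_lit 0, nat_lit 0, nat_lit 0, nat_lit 0, nat_lit 0, nat_lit 0, nat_lit 0, nat_lit 0, nat_lit 0, nat_lit 0, nat_lit 0, nat_lit 0, false, false⟩,
 nat_lit 0, nat_lit 11463, nat_lit 0, nat_lit 0, nat_lit 7294, nat_lit 4944, nat_lit 1835, nat_lit 0, nat_lit 0, nat_lit 0, nat_lit 0, nat_lit 0, nat_lit 0, nat_lit 0, nat_lit 0, nat_lit 0, nat_lit 0, nat_lit 0, [],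
 ⟨p070_k15, nat_lit 0, nat_lit 0, nat_lit 278, nat_lit 0, nat_lit 578014, [nat_lit 3282000000, nat_lit 4688000000, nat_lit 7968000000], [], [nat_lit 16290071448, nat_lit 15026594672, nat_lit 15069307960, nat_lit 15449028806, nat_lit 15864352588, nat_lit 16269606781, nat_lit 19510821948, nat_lit 17792009083], nat_lit 1271250, nat_lit 1271250, nat_lit 780000, nat_lit 1100001, nat_lit 1100001, nat_lit 1442500, [nat_lit 780000, nat_lit 1100000, nat_lit 1785000], [nat_lit 36, nat_lit 40, nat_lit 40, nat_lit 80, nat_lit 7, nat_lit 317, nat_lit 100, nat_lit 10]⟩, ⟨p070_k15, nat_lit 0, nat_lit 0, nat_lit 48, nat_lit 0, nat_lit 0, [nat_lit 3282000000, nat_lit 4688000000, nat_lit 7968000000], [], [nat_lit 12644394048, nat_lit 13543438232, nat_lit 13623142272, nat_lit 14466129952, nat_lit 22771094848, nat_lit 23354997560, nat_lit 23129883463, nat_lit 23680481652], nat_lit 0, nat_lit 0, nat_lit 0, nat_lit 0, nat_lit 0, nat_lit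 0, [], [nat_lit 36, nat_lit 40, nat_lit 40, nat_lit 80, nat_lit 7, nat_lit 345, nat_lit 125, nat_lit 11]⟩,
 zbF0, [⟨nat_lit 19, nat_lit 100, nat_lit 91, nat_lit 96, nat_lit 528287684⟩]⟩
noncomputable def p070_l125 : Lf2 := ⟨nat_lit 0, nat_lit 5, [nat_lit 4, nat_lit 5, nat_lit 5, nat_lit 20], false, nat_lit 200, nat_lit 240, nat_lit 160, nat_lit 336, ⟨nat_lit 1000, nat_lit 0, nat_lit 0, nat_lit 0, nat_lit 0, nat_lit 0, nat_lit 0, nat_lit 0, nat_lit 0, nat_lit 0, nat_lit 0, nat_lit 0, nat_lit 0, nat_lit 0, nat_lit 0, nat_lit 0, false, false⟩,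
 nat_lit 0, nat_lit 10899, nat_lit 0, nat_lit 0, nat_lit 6935, nat_lit 4704, nat_lit 1795, nat_lit 0, nat_lit 0, nat_lit 0, nat_lit 0, nat_lit 0, nat_lit 0, nat_lit 0, nat_lit 0, nat_lit 0, nat_lit 0, nat_lit 0, [],
 ⟨p070_k15, nat_lit 0, nat_lit 0, nat_lit 301, nat_lit 0, nat_lit 578014, [nat_lit 3282000000, nat_lit 4688000000, nat_lit 7968000000], [], [nat_lit 19763984618, nat_lit 18000165845, nat_lit 18285114690, nat_lit 17748202168, nat_lit 18476218601, nat_lit 19160014027, nat_lit 18415659840, nat_lit 19010278020], nat_lit 1271250, nat_lit 1271250, nat_lit 382400, nat_lit 1100001, nat_lit 1271250, nat_lit 1271250, [nat_lit 780000, nat_lit 1100000, nat_lit 1785000], [nat_lit 36, nat_lit 40, nat_lit 40, nat_lit 80, nat_lit 7, nat_lit 317, nat_lit 100, nat_lit 10]⟩, ⟨p070_k15, nat_lit 0, nat_lit 0, nat_lit 71, nat_lit 0, nat_lit 0, [nat_lit 3282000000, nat_lit 4688000000, nat_lit 7968000000], [], [nat_lit 12800065991,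 nat_lit 13735266018, nat_lit 13951609152, nat_lit 14771234032, nat_lit 23325412809, nat_lit 23931147144, nat_lit 23257489159, nat_lit 23795859300], nat_lit 0, nat_lit 0, nat_lit 0, nat_lit 0, nat_lit 0, nat_lit 0, [], [nat_lit 36, nat_lit 40, nat_lit 40, nat_lit 80, nat_lit 7, nat_lit 345, nat_lit 125, nat_lit 11]⟩,
 zbF0, [⟨nat_lit 0, nat_lit 100, nat_lit 100, nat_lit 90, nat_lit 532827899⟩, ⟨nat_lit 19, nat_lit 100, nat_lit 91, nat_lit 96, nat_lit 539659121⟩]⟩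
noncomputable def p070_l126 : Lf2 := ⟨nat_lit 0, nat_lit 10, [nat_lit 0, nat_lit 5, nat_lit 5, nat_lit 20], false, nat_lit 160, nat_lit 240, nat_lit 160, nat_lit 336, ⟨nat_lit 1000, nat_lit 0, nat_lit 0, nat_lit 0, nat_lit 0, nat_lit 0, nat_lit 0, nat_lit 0, nat_lit 0, nat_lit 0, nat_lit 0, nat_lit 0, nat_lit 0, nat_lit 0, nat_lit 0, nat_lit 0, false, false⟩,
 nat_lit 0, nat_lit 18935, nat_lit 0, nat_lit 0, nat_lit 12049, nat_lit 4704, nat_lit 1276, nat_lit 0, nat_lit 0, nat_lit 0, nat_lit 0, nat_lit 0, nat_lit 0, nat_lit 2077701532071, nat_lit 0, nat_lit 0, nat_lit 0, nat_lit 0, [],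
 ⟨p070_k25, nat_lit 0, nat_lit 0, nat_lit 173, nat_lit 0, nat_lit 223952, [nat_lit 3282000000, nat_lit 4688000000, nat_lit 9842000000], [], [nat_lit 26059406890, nat_lit 22949885313, nat_lit 13278139236, nat_lit 14003232739, nat_lit 18672035952, nat_lit 19667675036, nat_lit 26474016456, nat_lit 23710144542], nat_lit 1271250, nat_lit 1271250, nat_lit 382400, nat_lit 1100001, nat_lit 1100001, nat_lit 1785000, [nat_lit 780000, nat_lit 1100000, nat_lit 2127500], [nat_lit 42, nat_lit 40, nat_lit 40, nat_lit 80, nat_lit 13, nat_lit 317, nat_lit 100, nat_lit 9]⟩, ⟨p070_k25, nat_lit 0, nat_lit 0, nat_lit 71, nat_lit 0, nat_lit 0, [nat_lit 3282000000, nat_lit 4688000000, nat_lit 9842000000], [], [nat_lit 12800065991, nat_lit 13735266018, nat_lit 13951609152, nat_lit 14771234032, nat_lit 23325412809, nat_lit 23931147144, nat_lit 23257489159, nat_lit 23795859300], nat_lit 0, nat_lit 0, nat_lit 0, nat_lit 0, nat_lit 0, nat_lit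 0, [], [nat_lit 42, nat_lit 40, nat_lit 40, nat_lit 80, nat_lit 13, nat_lit 345, nat_lit 125, nat_lit 10]⟩,
 zbF0, [⟨nat_lit 0, nat_lit 100, nat_lit 100, nat_lit 85, nat_lit 314490910⟩, ⟨nat_lit 19, nat_lit 100, nat_lit 91, nat_lit 96, nat_lit 539659121⟩]⟩
noncomputable def p070_l127 : Lf2 := ⟨nat_lit 0, nat_lit 8, [nat_lit 50, nat_lit 5, nat_lit 5, nat_lit 20], false, nat_lit 240, nat_lit 336, nat_lit 160, nat_lit 240, ⟨nat_lit 1000, nat_lit 0, nat_lit 0, nat_lit 0, nat_lit 0, nat_lit 0, nat_lit 0, nat_lit 0, nat_lit 0, nat_lit 0, nat_lit 0, nat_lit 0, nat_lit 0, nat_lit 0, nat_lit 0, nat_lit 0, false, false⟩,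
 nat_lit 0, nat_lit 10356, nat_lit 0, nat_lit 0, nat_lit 6589, nat_lit 5387, nat_lit 1707, nat_lit 0, nat_lit 0, nat_lit 0, nat_lit 0, nat_lit 0, nat_lit 0, nat_lit 590762352356, nat_lit 0, nat_lit 0, nat_lit 0, nat_lit 0, [],
 ⟨p070_k39, nat_lit 0, nat_lit 0, nat_lit 290, nat_lit 0, nat_lit 491342, [nat_lit 3282000000, nat_lit 4688000000, nat_lit 7968000000], [], [nat_lit 19408421529, nat_lit 19694202223, nat_lit 19402429696, nat_lit 19691775942, nat_lit 25321510993, nat_lit 25606893233, nat_lit 24536206645, nat_lit 24786240019], nat_lit 1271250, nat_lit 1271250, nat_lit 382400, nat_lit 1100001, nat_lit 1271250, nat_lit 1271250, [nat_lit 780000, nat_lit 1100000, nat_lit 1785000], [nat_lit 36, nat_lit 40, nat_lit 40, nat_lit 80, nat_lit 7, nat_lit 249, nat_lit 40, nat_lit 7]⟩, ⟨p070_k39, nat_lit 0, nat_lit 0, nat_lit 19, nat_lit 0, nat_lit 0, [nat_lit 3282000000, nat_lit 4688000000, nat_lit 7968000000], [], [nat_lit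 12039694112, nat_lit 12546854100, nat_lit 13016847156, nat_lit 13459902914, nat_lit 16073862974, nat_lit 16501527887, nat_lit 16567746448, nat_lit 16942753532], nat_lit 0, nat_lit 0, nat_lit 0, nat_lit 0, nat_lit 0, nat_lit 0, [], [nat_lit 36, nat_lit 40, nat_lit 40, nat_lit 80, nat_lit 7, nat_lit 317, nat_lit 100, nat_lit 10]⟩,
 zbF0, [⟨nat_lit 0, nat_lit 100, nat_lit 100, nat_lit 85, nat_lit 564656828⟩, ⟨nat_lit 16, nat_lit 100, nat_lit 80, nat_lit 100, nat_lit 70006861⟩, ⟨nat_lit 4, nat_lit 89, nat_lit 100, nat_lit 95, nat_lit 511485105⟩]⟩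
noncomputable def p070_l128 : Lf2 := ⟨nat_lit 0, nat_lit 8, [nat_lit 50, nat_lit 5, nat_lit 5, nat_lit 20], false, nat_lit 240, nat_lit 320, nat_lit 240, nat_lit 320, ⟨nat_lit 1000, nat_lit 0, nat_lit 0, nat_lit 0, nat_lit 0, nat_lit 0, nat_lit 0, nat_lit 0, nat_lit 0, nat_lit 0, nat_lit 0, nat_lit 0, nat_lit 0, nat_lit 0, nat_lit 0, nat_lit 0, false, false⟩,
 nat_lit 0, nat_lit 10754, nat_lit 0, nat_lit 0, nat_lit 6843, nat_lit 4870, nat_lit 1769, nat_lit 0, nat_lit 0, nat_lit 0, nat_lit 0, nat_lit 0, nat_lit 0, nat_lit 0, nat_lit 0, nat_lit 0, nat_lit 0, nat_lit 0, [],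
 ⟨p070_k39, nat_lit 0, nat_lit 0, nat_lit 262, nat_lit 0, nat_lit 420956, [nat_lit 3282000000, nat_lit 4688000000, nat_lit 7968000000], [], [nat_lit 18717089536, nat_lit 18847479805, nat_lit 18265432744, nat_lit 18391576452, nat_lit 23732462496, nat_lit 23855116398, nat_lit 22846074496, nat_lit 22960509997], nat_lit 1271250, nat_lit 1271250, nat_lit 382400, nat_lit 780000, nat_lit 1271250, nat_lit 1271250, [nat_lit 780000, nat_lit 1100000, nat_lit 1785000], [nat_lit 36, nat_lit 40, nat_lit 40, nat_lit 80, nat_lit 7, nat_lit 238, nat_lit 30, nat_lit 7]⟩, ⟨p070_k39, nat_lit 0, nat_lit 0, nat_lit 58, nat_lit 0, nat_lit 0, [nat_lit 3282000000, nat_lit 4688000000, nat_lit 7968000000], [], [nat_lit 16499212936, nat_lit 16660738308, nat_lit 16412558080, nat_lit 16563703871, nat_lit 22005305553, nat_lit 22134886901, nat_lit 21577242080, nat_lit 21699077890], nat_lit 0, nat_lit 0, nat_lit 0, nat_lit 0, nat_lit 0, nat_lit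 0, [], [nat_lit 36, nat_lit 40, nat_lit 40, nat_lit 80, nat_lit 7, nat_lit 238, nat_lit 30, nat_lit 7]⟩,
 zbF0, [⟨nat_lit 7, nat_lit 92, nat_lit 100, nat_lit 91, nat_lit 7495530⟩, ⟨nat_lit 11, nat_lit 100, nat_lit 100, nat_lit 80, nat_lit 414428777⟩, ⟨nat_lit 23, nat_lit 100, nat_lit 91, nat_lit 92, nat_lit 269321802⟩]⟩
noncomputable def p070_l129 : Lf2 := ⟨nat_lit 0, nat_lit 8, [nat_lit 50, nat_lit 5, nat_lit 5, nat_lit 20], false, nat_lit 240, nat_lit 320, nat_lit 240, nat_lit 320, ⟨nat_lit 1000, nat_lit 0, nat_lit 0, nat_lit 0, nat_lit 0, nat_lit 0, nat_lit 0, nat_lit 0, nat_lit 0, nat_lit 0, nat_lit 0, nat_lit 0, nat_lit 0, nat_lit 0, nat_lit 0, nat_lit 0, false, false⟩,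
 nat_lit 0, nat_lit 10271, nat_lit 0, nat_lit 0, nat_lit 6592, nat_lit 4864, nat_lit 3187, nat_lit 0, nat_lit 0, nat_lit 0, nat_lit 0, nat_lit 0, nat_lit 0, nat_lit 0, nat_lit 0, nat_lit 0, nat_lit 0, nat_lit 0, [],
 ⟨p070_k40, nat_lit 0, nat_lit 0, nat_lit 266, nat_lit 0, nat_lit 434159, [nat_lit 3282000000, nat_lit 4688000000, nat_lit 7968000000], [], [nat_lit 18949456511, nat_lit 19015904291, nat_lit 18550505038, nat_lit 18612302314, nat_lit 23661074627, nat_lit 23721207571, nat_lit 22838044792, nat_lit 22894185401], nat_lit 1271250, nat_lit 1271250, nat_lit 382400, nat_lit 780000, nat_lit 1271250, nat_lit 1271250, [nat_lit 780000, nat_lit 1100000, nat_lit 1785000], [nat_lit 36, nat_lit 40, nat_lit 40, nat_lit 80, nat_lit 7, nat_lit 238, nat_lit 30, nat_lit 7]⟩, ⟨p070_k39, nat_lit 0, nat_lit 0, nat_lit 59, nat_lit 0, nat_lit 0, [nat_lit 3282000000, nat_lit 4688000000, nat_lit 7968000000], [], [nat_lit 16504149300,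 nat_lit 16746271273, nat_lit 16419102976, nat_lit 16645669768, nat_lit 22006772615, nat_lit 22201025098, nat_lit 21580621376, nat_lit 21763265804], nat_lit 0, nat_lit 0, nat_lit 0, nat_lit 0, nat_lit 0, nat_lit 0, [], [nat_lit 36, nat_lit 40, nat_lit 40, nat_lit 80, nat_lit 7, nat_lit 238, nat_lit 30, nat_lit 7]⟩,
 zbF0, [⟨nat_lit 7, nat_lit 92, nat_lit 100, nat_lit 91, nat_lit 38511104⟩, ⟨nat_lit 11, nat_lit 100, nat_lit 100, nat_lit 80, nat_lit 524213891⟩, ⟨nat_lit 23, nat_lit 100, nat_lit 91, nat_lit 92, nat_lit 141868055⟩]⟩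
noncomputable def p070_l130 : Lf2 := ⟨nat_lit 0, nat_lit 8, [nat_lit 50, nat_lit 5, nat_lit 5, nat_lit 20], false, nat_lit 240, nat_lit 320, nat_lit 240, nat_lit 320, ⟨nat_lit 1000, nat_lit 0, nat_lit 0, nat_lit 0, nat_lit 0, nat_lit 0, nat_lit 0, nat_lit 0, nat_lit 0, nat_lit 0, nat_lit 0, nat_lit 0, nat_lit 0, nat_lit 0, nat_lit 0, nat_lit 0, false, false⟩,
 nat_lit 0, nat_lit 11133, nat_lit 0, nat_lit 0, nat_lit 7084, nat_lit 5112, nat_lit 1742, nat_lit 0, nat_lit 0, nat_lit 0, nat_lit 0, nat_lit 0, nat_lit 0, nat_lit 32596521114175, nat_lit 0, nat_lit 0, nat_lit 0, nat_lit 0, [],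
 ⟨p070_k39, nat_lit 0, nat_lit 0, nat_lit 243, nat_lit 0, nat_lit 439501, [nat_lit 3282000000, nat_lit 4688000000, nat_lit 7968000000], [], [nat_lit 17602639264, nat_lit 17787316690, nat_lit 17990721376, nat_lit 18189548157, nat_lit 22445212448, nat_lit 22619968381, nat_lit 22572013520, nat_lit 22747777886], nat_lit 1271250, nat_lit 1271250, nat_lit 780000, nat_lit 1100001, nat_lit 1271250, nat_lit 1271250, [nat_lit 780000, nat_lit 1100000, nat_lit 1785000], [nat_lit 36, nat_lit 40, nat_lit 40, nat_lit 80, nat_lit 7, nat_lit 249, nat_lit 40, nat_lit 7]⟩, ⟨p070_k39, nat_lit 0, nat_lit 0, nat_lit 36, nat_lit 0, nat_lit 0, [nat_lit 3282000000, nat_lit 4688000000, nat_lit 7968000000], [], [nat_lit 16148580608, nat_lit 16381425645, nat_lit 16881602848, nat_lit 17100232819, nat_lit 21440943808, nat_lit 21628105432, nat_lit 21852582400, nat_lit 22028857233], nat_lit 0, nat_lit 0, nat_lit 0, nat_lit 0, nat_lit 0, nat_lit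 0, [], [nat_lit 36, nat_lit 40, nat_lit 40, nat_lit 80, nat_lit 7, nat_lit 249, nat_lit 40, nat_lit 7]⟩,
 zbF0, [⟨nat_lit 4, nat_lit 92, nat_lit 100, nat_lit 91, nat_lit 349616177⟩, ⟨nat_lit 7, nat_lit 92, nat_lit 100, nat_lit 91, nat_lit 378002328⟩, ⟨nat_lit 11, nat_lit 85, nat_lit 85, nat_lit 100, nat_lit 268167783⟩]⟩
noncomputable def p070_l131 : Lf2 := ⟨nat_lit 0, nat_lit 5, [nat_lit 4, nat_lit 5, nat_lit 5, nat_lit 20], false, nat_lit 240, nat_lit 320, nat_lit 240, nat_lit 320, ⟨nat_lit 1000, nat_lit 0, nat_lit 0, nat_lit 0, nat_lit 0, nat_lit 0, nat_lit 0, nat_lit 0, nat_lit 0, nat_lit 0, nat_lit 0, nat_lit 0, nat_lit 0, nat_lit 0, nat_lit 0, nat_lit 0, false, false⟩,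
 nat_lit 0, nat_lit 9860, nat_lit 0, nat_lit 0, nat_lit 6356, nat_lit 4858, nat_lit 3983, nat_lit 0, nat_lit 0, nat_lit 0, nat_lit 0, nat_lit 0, nat_lit 0, nat_lit 35810745505118, nat_lit 0, nat_lit 0, nat_lit 0, nat_lit 0, [],
 ⟨p070_k41, nat_lit 0, nat_lit 0, nat_lit 269, nat_lit 0, nat_lit 441369, [nat_lit 3282000000, nat_lit 4688000000, nat_lit 7968000000], [], [nat_lit 19108392814, nat_lit 19173511452, nat_lit 19191783675, nat_lit 19248580472, nat_lit 23535574455, nat_lit 23594584747, nat_lit 23008114776, nat_lit 23054129028], nat_lit 1271250, nat_lit 1271250, nat_lit 382400, nat_lit 1100001, nat_lit 1271250, nat_lit 1271250, [nat_lit 780000, nat_lit 1100000, nat_lit 1785000], [nat_lit 36, nat_lit 40, nat_lit 40, nat_lit 80, nat_lit 7, nat_lit 249, nat_lit 40, nat_lit 7]⟩, ⟨p070_k15, nat_lit 0, nat_lit 0, nat_lit 59, nat_lit 0, nat_lit 0, [nat_lit 3282000000, nat_lit 4688000000, nat_lit 7968000000], [], [nat_lit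 16509085663, nat_lit 16831693515, nat_lit 17171492032, nat_lit 17455148637, nat_lit 22008239677, nat_lit 22267083601, nat_lit 22020552600, nat_lit 22249959814], nat_lit 0, nat_lit 0, nat_lit 0, nat_lit 0, nat_lit 0, nat_lit 0, [], [nat_lit 36, nat_lit 40, nat_lit 40, nat_lit 80, nat_lit 7, nat_lit 249, nat_lit 40, nat_lit 7]⟩,
 zbF0, [⟨nat_lit 7, nat_lit 93, nat_lit 100, nat_lit 92, nat_lit 68913426⟩, ⟨nat_lit 11, nat_lit 100, nat_lit 100, nat_lit 80, nat_lit 256994681⟩, ⟨nat_lit 11, nat_lit 94, nat_lit 94, nat_lit 100, nat_lit 334825270⟩]⟩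
noncomputable def p070_l132 : Lf2 := ⟨nat_lit 0, nat_lit 5, [nat_lit 4, nat_lit 5, nat_lit 5, nat_lit 20], false, nat_lit 240, nat_lit 316, nat_lit 240, nat_lit 320, ⟨nat_lit 1000, nat_lit 0, nat_lit 0, nat_lit 0, nat_lit 0, nat_lit 0, nat_lit 0, nat_lit 0, nat_lit 0, nat_lit 0, nat_lit 0, nat_lit 0, nat_lit 0, nat_lit 0, nat_lit 0, nat_lit 0, false, false⟩,
 nat_lit 0, nat_lit 9647, nat_lit 0, nat_lit 0, nat_lit 6245, nat_lit 4852, nat_lit 3890, nat_lit 0, nat_lit 0, nat_lit 0, nat_lit 0, nat_lit 0, nat_lit 0, nat_lit 0, nat_lit 0, nat_lit 0, nat_lit 0, nat_lit 0, [],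
 ⟨p070_k42, nat_lit 0, nat_lit 0, nat_lit 273, nat_lit 0, nat_lit 456571, [nat_lit 3282000000, nat_lit 4688000000, nat_lit 7968000000], [], [nat_lit 19066293061, nat_lit 19130786551, nat_lit 19174201725, nat_lit 19230487610, nat_lit 23182736021, nat_lit 23235488898, nat_lit 22761021094, nat_lit 22807209695], nat_lit 1271250, nat_lit 1271250, nat_lit 382400, nat_lit 1100001, nat_lit 1271250, nat_lit 1271250, [nat_lit 780000, nat_lit 1100000, nat_lit 1785000], [nat_lit 36, nat_lit 40, nat_lit 40, nat_lit 80, nat_lit 7, nat_lit 249, nat_lit 40, nat_lit 7]⟩, ⟨p070_k15, nat_lit 0, nat_lit 0, nat_lit 60, nat_lit 0, nat_lit 0, [nat_lit 3282000000, nat_lit 4688000000, nat_lit 7968000000], [], [nat_lit 16514022026, nat_lit 16917005035, nat_lit 17178339808, nat_lit 17532678772, nat_lit 22009706740, nat_lit 22333062411, nat_lit 22024520400, nat_lit 22311113298], nat_lit 0, nat_lit 0, nat_lit 0, nat_lit 0, nat_lit 0, nat_lit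 0, [], [nat_lit 36, nat_lit 40, nat_lit 40, nat_lit 80, nat_lit 7, nat_lit 249, nat_lit 40, nat_lit 7]⟩,
 zbF0, [⟨nat_lit 19, nat_lit 100, nat_lit 93, nat_lit 92, nat_lit 75491560⟩, ⟨nat_lit 11, nat_lit 100, nat_lit 100, nat_lit 79, nat_lit 263975079⟩, ⟨nat_lit 11, nat_lit 94, nat_lit 94, nat_lit 100, nat_lit 323977154⟩]⟩
noncomputable def p070_l133 : Lf2 := ⟨nat_lit 0, nat_lit 8, [nat_lit 50, nat_lit 5, nat_lit 5, nat_lit 20], false, nat_lit 240, nat_lit 320, nat_lit 240, nat_lit 320, ⟨nat_lit 1000, nat_lit 0, nat_lit 0, nat_lit 0, nat_lit 0, nat_lit 0, nat_lit 0, nat_lit 0, nat_lit 0, nat_lit 0, nat_lit 0, nat_lit 0, nat_lit 0, nat_lit 0, nat_lit 0, nat_lit 0, false, false⟩,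
 nat_lit 0, nat_lit 9608, nat_lit 0, nat_lit 0, nat_lit 6193, nat_lit 4852, nat_lit 1647, nat_lit 0, nat_lit 0, nat_lit 0, nat_lit 0, nat_lit 0, nat_lit 0, nat_lit 8213789216009, nat_lit 0, nat_lit 0, nat_lit 0, nat_lit 0, [],
 ⟨p070_k43, nat_lit 0, nat_lit 0, nat_lit 137, nat_lit 0, nat_lit 125537, [nat_lit 3282000000, nat_lit 4688000000, nat_lit 7968000000], [], [nat_lit 18522261501, nat_lit 18669220457, nat_lit 18206328509, nat_lit 18335078658, nat_lit 23415430727, nat_lit 23532625484, nat_lit 22768889450, nat_lit 22890468177], nat_lit 1271250, nat_lit 1271250, nat_lit 382400, nat_lit 1100001, nat_lit 1271250, nat_lit 1271250, [nat_lit 780000, nat_lit 1100000, nat_lit 1785000], [nat_lit 36, nat_lit 40, nat_lit 40, nat_lit 80, nat_lit 7, nat_lit 249, nat_lit 40, nat_lit 7]⟩, ⟨p070_k39, nat_lit 0, nat_lit 0, nat_lit 60, nat_lit 0, nat_lit 0, [nat_lit 3282000000, nat_lit 4688000000, nat_lit 7968000000], [], [nat_lit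 16514022026, nat_lit 16917005035, nat_lit 17178339808, nat_lit 17532678772, nat_lit 22009706740, nat_lit 22333062411, nat_lit 22024520400, nat_lit 22311113298], nat_lit 0, nat_lit 0, nat_lit 0, nat_lit 0, nat_lit 0, nat_lit 0, [], [nat_lit 36, nat_lit 40, nat_lit 40, nat_lit 80, nat_lit 7, nat_lit 249, nat_lit 40, nat_lit 7]⟩,
 zbF0, [⟨nat_lit 7, nat_lit 93, nat_lit 100, nat_lit 92, nat_lit 37553840⟩, ⟨nat_lit 11, nat_lit 100, nat_lit 100, nat_lit 80, nat_lit 232839050⟩, ⟨nat_lit 11, nat_lit 94, nat_lit 94, nat_lit 100, nat_lit 384798192⟩]⟩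
noncomputable def p070_l134 : Lf2 := ⟨nat_lit 0, nat_lit 8, [nat_lit 50, nat_lit 5, nat_lit 5, nat_lit 20], false, nat_lit 240, nat_lit 336, nat_lit 240, nat_lit 336, ⟨nat_lit 1000, nat_lit 0, nat_lit 0, nat_lit 0, nat_lit 0, nat_lit 0, nat_lit 0, nat_lit 0, nat_lit 0, nat_lit 0, nat_lit 0, nat_lit 0, nat_lit 0, nat_lit 0, nat_lit 0, nat_lit 0, false, false⟩,
 nat_lit 0, nat_lit 10356, nat_lit 0, nat_lit 0, nat_lit 6589, nat_lit 4730, nat_lit 1706, nat_lit 0, nat_lit 0, nat_lit 0, nat_lit 0, nat_lit 0, nat_lit 0, nat_lit 0, nat_lit 0, nat_lit 0, nat_lit 0, nat_lit 0, [],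
 ⟨p070_k39, nat_lit 0, nat_lit 0, nat_lit 247, nat_lit 0, nat_lit 354857, [nat_lit 3282000000, nat_lit 4688000000, nat_lit 7968000000], [], [nat_lit 19411746529, nat_lit 19694202223, nat_lit 19402429696, nat_lit 19691775942, nat_lit 25321510993, nat_lit 25606893233, nat_lit 24536206645, nat_lit 24786240019], nat_lit 1271250, nat_lit 1271250, nat_lit 382400, nat_lit 1100001, nat_lit 1271250, nat_lit 1271250, [nat_lit 780000, nat_lit 1100000, nat_lit 1785000], [nat_lit 36, nat_lit 40, nat_lit 40, nat_lit 80, nat_lit 7, nat_lit 249, nat_lit 40, nat_lit 7]⟩, ⟨p070_k39, nat_lit 0, nat_lit 0, nat_lit 69, nat_lit 0, nat_lit 0, [nat_lit 3282000000, nat_lit 4688000000, nat_lit 7968000000], [], [nat_lit 16614394744, nat_lit 17011749357, nat_lit 17317577920, nat_lit 17667203780, nat_lit 23323019516, nat_lit 23626682445, nat_lit 23243665209, nat_lit 23513512632], nat_lit 0, nat_lit 0, nat_lit 0, nat_lit 0, nat_lit 0, nat_lit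 0, [], [nat_lit 36, nat_lit 40, nat_lit 40, nat_lit 80, nat_lit 7, nat_lit 249, nat_lit 40, nat_lit 7]⟩,
 zbF0, [⟨nat_lit 11, nat_lit 100, nat_lit 100, nat_lit 88, nat_lit 85982223⟩, ⟨nat_lit 23, nat_lit 100, nat_lit 88, nat_lit 100, nat_lit 304304220⟩, ⟨nat_lit 11, nat_lit 94, nat_lit 94, nat_lit 100, nat_lit 226027277⟩]⟩
noncomputable def p070_l135 : Lf2 := ⟨nat_lit 1, nat_lit 10, [nat_lit 0, nat_lit 5, nat_lit 5, nat_lit 20], false, nat_lit 240, nat_lit 336, nat_lit 160, nat_lit 336, zbN0,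
 nat_lit 0, nat_lit 0, nat_lit 0, nat_lit 0, nat_lit 0, nat_lit 0, nat_lit 0, nat_lit 0, nat_lit 0, nat_lit 0, nat_lit 0, nat_lit 0, nat_lit 0, nat_lit 0, nat_lit 0, nat_lit 0, nat_lit 0, nat_lit 0, [],
 C1.Rw.none, C1.Rw.none,
 zbF0, []⟩
noncomputable def p070_l136 : Lf2 := ⟨nat_lit 0, nat_lit 5, [nat_lit 4, nat_lit 5, nat_lit 5, nat_lit 20], false, nat_lit 240, nat_lit 316, nat_lit 160, nat_lit 240, ⟨nat_lit 1000, nat_lit 0, nat_lit 0, nat_lit 0, nat_lit 0, nat_lit 0, nat_lit 0, nat_lit 0, nat_lit 0, nat_lit 0, nat_lit 0, nat_lit 0, nat_lit 0, nat_lit 0, nat_lit 0, nat_lit 0, false, false⟩,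
 nat_lit 0, nat_lit 9493, nat_lit 0, nat_lit 0, nat_lit 6172, nat_lit 5467, nat_lit 3509, nat_lit 0, nat_lit 0, nat_lit 0, nat_lit 0, nat_lit 0, nat_lit 0, nat_lit 3361830288463, nat_lit 0, nat_lit 0, nat_lit 0, nat_lit 0, [],
 ⟨p070_k44, nat_lit 0, nat_lit 0, nat_lit 288, nat_lit 0, nat_lit 507712, [nat_lit 3282000000, nat_lit 4688000000, nat_lit 7968000000], [], [nat_lit 19037360425, nat_lit 19228778937, nat_lit 19226592666, nat_lit 19394442311, nat_lit 23101452910, nat_lit 23258168858, nat_lit 22784699338, nat_lit 22922545444], nat_lit 1271250, nat_lit 1271250, nat_lit 408851, nat_lit 1100001, nat_lit 1271250, nat_lit 1271250, [nat_lit 780000, nat_lit 1100000, nat_lit 1785000], [nat_lit 36, nat_lit 40, nat_lit 40, nat_lit 80, nat_lit 7, nat_lit 249, nat_lit 40, nat_lit 7]⟩, ⟨p070_k15, nat_lit 0, nat_lit 0, nat_lit 19, nat_lit 0, nat_lit 0, [nat_lit 3282000000, nat_lit 4688000000, nat_lit 7968000000], [], [nat_lit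 11882960533, nat_lit 12698516402, nat_lit 12907358196, nat_lit 13622477488, nat_lit 15929381982, nat_lit 16694730216, nat_lit 16476442768, nat_lit 17081398999], nat_lit 0, nat_lit 0, nat_lit 0, nat_lit 0, nat_lit 0, nat_lit 0, [], [nat_lit 36, nat_lit 40, nat_lit 40, nat_lit 80, nat_lit 7, nat_lit 317, nat_lit 100, nat_lit 10]⟩,
 zbF0, [⟨nat_lit 0, nat_lit 100, nat_lit 99, nat_lit 85, nat_lit 556136941⟩, ⟨nat_lit 4, nat_lit 95, nat_lit 100, nat_lit 93, nat_lit 546365225⟩]⟩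
noncomputable def p070_l137 : Lf2 := ⟨nat_lit 0, nat_lit 5, [nat_lit 4, nat_lit 5, nat_lit 5, nat_lit 20], false, nat_lit 240, nat_lit 316, nat_lit 240, nat_lit 320, ⟨nat_lit 1000, nat_lit 0, nat_lit 0, nat_lit 0, nat_lit 0, nat_lit 0, nat_lit 0, nat_lit 0, nat_lit 0, nat_lit 0, nat_lit 0, nat_lit 0, nat_lit 0, nat_lit 0, nat_lit 0, nat_lit 0, false, false⟩,
 nat_lit 0, nat_lit 9438, nat_lit 0, nat_lit 0, nat_lit 6136, nat_lit 4867, nat_lit 3805, nat_lit 0, nat_lit 0, nat_lit 0, nat_lit 0, nat_lit 0, nat_lit 0, nat_lit 26812002217434, nat_lit 0, nat_lit 0, nat_lit 0, nat_lit 0, [],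
 ⟨p070_k44, nat_lit 0, nat_lit 0, nat_lit 282, nat_lit 0, nat_lit 489799, [nat_lit 3282000000, nat_lit 4688000000, nat_lit 7968000000], [], [nat_lit 18990583230, nat_lit 19117792518, nat_lit 19189683858, nat_lit 19301252220, nat_lit 23043225299, nat_lit 23147409691, nat_lit 22738610327, nat_lit 22830271118], nat_lit 1271250, nat_lit 1271250, nat_lit 408851, nat_lit 1100001, nat_lit 1271250, nat_lit 1271250, [nat_lit 780000, nat_lit 1100000, nat_lit 1785000], [nat_lit 36, nat_lit 40, nat_lit 40, nat_lit 80, nat_lit 7, nat_lit 249, nat_lit 40, nat_lit 7]⟩, ⟨p070_k15, nat_lit 0, nat_lit 0, nat_lit 58, nat_lit 0, nat_lit 0, [nat_lit 3282000000, nat_lit 4688000000, nat_lit 7968000000], [], [nat_lit 16440279822, nat_lit 17003251968, nat_lit 17161220368, nat_lit 17658106190, nat_lit 21924783403, nat_lit 22376597127, nat_lit 22014600900, nat_lit 22416412374], nat_lit 0, nat_lit 0, nat_lit 0, nat_lit 0, nat_lit 0, nat_lit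 0, [], [nat_lit 36, nat_lit 40, nat_lit 40, nat_lit 80, nat_lit 7, nat_lit 249, nat_lit 40, nat_lit 7]⟩,
 zbF0, [⟨nat_lit 4, nat_lit 95, nat_lit 100, nat_lit 93, nat_lit 90467887⟩, ⟨nat_lit 7, nat_lit 93, nat_lit 100, nat_lit 92, nat_lit 169392022⟩, ⟨nat_lit 11, nat_lit 100, nat_lit 100, nat_lit 79, nat_lit 536715966⟩]⟩
noncomputable def p070_l138 : Lf2 := ⟨nat_lit 0, nat_lit 5, [nat_lit 4, nat_lit 5, nat_lit 5, nat_lit 20], false, nat_lit 240, nat_lit 316, nat_lit 240, nat_lit 320, ⟨nat_lit 1000, nat_lit 0, nat_lit 0, nat_lit 0, nat_lit 0, nat_lit 0, nat_lit 0, nat_lit 0, nat_lit 0, nat_lit 0, nat_lit 0, nat_lit 0, nat_lit 0, nat_lit 0, nat_lit 0, nat_lit 0, false, false⟩,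
 nat_lit 0, nat_lit 9067, nat_lit 0, nat_lit 0, nat_lit 5945, nat_lit 4861, nat_lit 3635, nat_lit 0, nat_lit 0, nat_lit 0, nat_lit 0, nat_lit 0, nat_lit 0, nat_lit 26642509303351, nat_lit 0, nat_lit 0, nat_lit 0, nat_lit 0, [],
 ⟨p070_k45, nat_lit 0, nat_lit 0, nat_lit 286, nat_lit 0, nat_lit 501663, [nat_lit 3282000000, nat_lit 4688000000, nat_lit 7968000000], [], [nat_lit 19047183422, nat_lit 19109718854, nat_lit 19283380553, nat_lit 19338285598, nat_lit 23016634167, nat_lit 23067949347, nat_lit 22764196278, nat_lit 22809398992], nat_lit 1271250, nat_lit 1271250, nat_lit 408851, nat_lit 1100001, nat_lit 1271250, nat_lit 1271250, [nat_lit 780000, nat_lit 1100000, nat_lit 1785000], [nat_lit 36, nat_lit 40, nat_lit 40, nat_lit 80, nat_lit 7, nat_lit 249, nat_lit 40, nat_lit 7]⟩, ⟨p070_k15, nat_lit 0, nat_lit 0, nat_lit 59, nat_lit 0, nat_lit 0, [nat_lit 3282000000, nat_lit 4688000000, nat_lit 7968000000], [], [nat_lit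 16445388800, nat_lit 17088344853, nat_lit 17168068144, nat_lit 17735566788, nat_lit 21926440080, nat_lit 22442481380, nat_lit 22018568700, nat_lit 22477516023], nat_lit 0, nat_lit 0, nat_lit 0, nat_lit 0, nat_lit 0, nat_lit 0, [], [nat_lit 36, nat_lit 40, nat_lit 40, nat_lit 80, nat_lit 7, nat_lit 249, nat_lit 40, nat_lit 7]⟩,
 zbF0, [⟨nat_lit 4, nat_lit 96, nat_lit 100, nat_lit 93, nat_lit 88586891⟩, ⟨nat_lit 7, nat_lit 94, nat_lit 100, nat_lit 92, nat_lit 171288763⟩, ⟨nat_lit 11, nat_lit 100, nat_lit 100, nat_lit 79, nat_lit 532995663⟩]⟩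
noncomputable def p070_l139 : Lf2 := ⟨nat_lit 0, nat_lit 5, [nat_lit 4, nat_lit 5, nat_lit 5, nat_lit 20], false, nat_lit 240, nat_lit 312, nat_lit 160, nat_lit 240, ⟨nat_lit 1000, nat_lit 0, nat_lit 0, nat_lit 0, nat_lit 0, nat_lit 0, nat_lit 0, nat_lit 0, nat_lit 0, nat_lit 0, nat_lit 0, nat_lit 0, nat_lit 0, nat_lit 0, nat_lit 0, nat_lit 0, false, false⟩,
 nat_lit 0, nat_lit 9613, nat_lit 0, nat_lit 0, nat_lit 6330, nat_lit 5439, nat_lit 3881, nat_lit 0, nat_lit 0, nat_lit 0, nat_lit 0, nat_lit 0, nat_lit 0, nat_lit 2759693222187, nat_lit 0, nat_lit 0, nat_lit 0, nat_lit 0, [],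
 ⟨p070_k46, nat_lit 0, nat_lit 0, nat_lit 248, nat_lit 0, nat_lit 534082, [nat_lit 3282000000, nat_lit 6250000000], [], [nat_lit 19673756468, nat_lit 19784986839, nat_lit 19493930476, nat_lit 19591470980, nat_lit 23107173551, nat_lit 23218957379, nat_lit 22438023731, nat_lit 22528943452], nat_lit 1271250, nat_lit 1271250, nat_lit 408851, nat_lit 1100001, nat_lit 1271250, nat_lit 1271250, [nat_lit 780000, nat_lit 1435000], [nat_lit 49, nat_lit 40, nat_lit 40, nat_lit 80, nat_lit 16, nat_lit 249, nat_lit 40, nat_lit 8]⟩, ⟨p070_k13, nat_lit 0, nat_lit 0, nat_lit 26, nat_lit 0, nat_lit 0, [nat_lit 3282000000, nat_lit 6250000000, nat_lit 7968000000], [], [nat_lit 11914905251, nat_lit 12931122567, nat_lit 12945679332, nat_lit 13836852787, nat_lit 15953223881, nat_lit 16878594149, nat_lit 16508399056, nat_lit 17262430952], nat_lit 0, nat_lit 0, nat_lit 0, nat_lit 0, nat_lit 0, nat_lit 0, [], [nat_lit 18, nat_lit 40, nat_lit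 40, nat_lit 80, nat_lit 2, nat_lit 317, nat_lit 100, nat_lit 10]⟩,
 zbF0, [⟨nat_lit 0, nat_lit 100, nat_lit 100, nat_lit 90, nat_lit 567014762⟩, ⟨nat_lit 4, nat_lit 97, nat_lit 100, nat_lit 93, nat_lit 516688713⟩]⟩
noncomputable def p070_l140 : Lf2 := ⟨nat_lit 0, nat_lit 5, [nat_lit 4, nat_lit 5, nat_lit 5, nat_lit 20], false, nat_lit 240, nat_lit 312, nat_lit 240, nat_lit 320, ⟨nat_lit 1000, nat_lit 0, nat_lit 0, nat_lit 0, nat_lit 0, nat_lit 0, nat_lit 0, nat_lit 0, nat_lit 0, nat_lit 0, nat_lit 0, nat_lit 0, nat_lit 0, nat_lit 0, nat_lit 0, nat_lit 0, false, false⟩,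
 nat_lit 0, nat_lit 9070, nat_lit 0, nat_lit 0, nat_lit 5972, nat_lit 4855, nat_lit 3637, nat_lit 0, nat_lit 0, nat_lit 0, nat_lit 0, nat_lit 0, nat_lit 0, nat_lit 0, nat_lit 0, nat_lit 0, nat_lit 0, nat_lit 0, [],
 ⟨p070_k47, nat_lit 0, nat_lit 0, nat_lit 251, nat_lit 0, nat_lit 516405, [nat_lit 3282000000, nat_lit 4688000000, nat_lit 6250000000], [], [nat_lit 19244860869, nat_lit 19303858015, nat_lit 19532854257, nat_lit 19584636555, nat_lit 22794455998, nat_lit 22843624886, nat_lit 22642742473, nat_lit 22686009114], nat_lit 1271250, nat_lit 1271250, nat_lit 408851, nat_lit 1100001, nat_lit 1271250, nat_lit 1271250, [nat_lit 780000, nat_lit 1100000, nat_lit 1442500], [nat_lit 59, nat_lit 40, nat_lit 40, nat_lit 80, nat_lit 3, nat_lit 249, nat_lit 40, nat_lit 8]⟩, ⟨p070_k15, nat_lit 0, nat_lit 0, nat_lit 59, nat_lit 0, nat_lit 0, [nat_lit 3282000000, nat_lit 4688000000, nat_lit 7968000000], [], [nat_lit 16450497779,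 nat_lit 17173327566, nat_lit 17174915920, nat_lit 17812934668, nat_lit 21928096756, nat_lit 22508286324, nat_lit 22022536500, nat_lit 22538553224], nat_lit 0, nat_lit 0, nat_lit 0, nat_lit 0, nat_lit 0, nat_lit 0, [], [nat_lit 36, nat_lit 40, nat_lit 40, nat_lit 80, nat_lit 7, nat_lit 249, nat_lit 40, nat_lit 7]⟩,
 zbF0, [⟨nat_lit 4, nat_lit 96, nat_lit 100, nat_lit 93, nat_lit 81020402⟩, ⟨nat_lit 7, nat_lit 94, nat_lit 100, nat_lit 92, nat_lit 174735062⟩, ⟨nat_lit 11, nat_lit 99, nat_lit 100, nat_lit 78, nat_lit 534236067⟩]⟩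
noncomputable def p070_l141 : Lf2 := ⟨nat_lit 0, nat_lit 5, [nat_lit 4, nat_lit 5, nat_lit 5, nat_lit 20], false, nat_lit 240, nat_lit 312, nat_lit 240, nat_lit 320, ⟨nat_lit 1000, nat_lit 0, nat_lit 0, nat_lit 0, nat_lit 0, nat_lit 0, nat_lit 0, nat_lit 0, nat_lit 0, nat_lit 0, nat_lit 0, nat_lit 0, nat_lit 0, nat_lit 0, nat_lit 0, nat_lit 0, false, false⟩,
 nat_lit 0, nat_lit 8954, nat_lit 0, nat_lit 0, nat_lit 5921, nat_lit 4849, nat_lit 3587, nat_lit 0, nat_lit 0, nat_lit 0, nat_lit 0, nat_lit 0, nat_lit 0, nat_lit 2565491211074, nat_lit 0, nat_lit 0, nat_lit 0, nat_lit 0, [],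
 ⟨p070_k48, nat_lit 0, nat_lit 0, nat_lit 256, nat_lit 0, nat_lit 530917, [nat_lit 3282000000, nat_lit 4688000000, nat_lit 6250000000], [], [nat_lit 19305448388, nat_lit 19364182439, nat_lit 19599505053, nat_lit 19651072054, nat_lit 22831337298, nat_lit 22880311078, nat_lit 22689854905, nat_lit 22732964869], nat_lit 1271250, nat_lit 1271250, nat_lit 408851, nat_lit 1100001, nat_lit 1271250, nat_lit 1271250, [nat_lit 780000, nat_lit 1100000, nat_lit 1442500], [nat_lit 59, nat_lit 40, nat_lit 40, nat_lit 80, nat_lit 3, nat_lit 249, nat_lit 40, nat_lit 8]⟩, ⟨p070_k15, nat_lit 0, nat_lit 0, nat_lit 60, nat_lit 0, nat_lit 0, [nat_lit 3282000000, nat_lit 4688000000, nat_lit 7968000000], [], [nat_lit 16455606757, nat_lit 17258200107, nat_lit 17181763696, nat_lit 17890209832, nat_lit 21929753433, nat_lit 22574011956, nat_lit 22026504300, nat_lit 22599523977], nat_lit 0, nat_lit 0, nat_lit 0, nat_lit 0, nat_lit 0, nat_lit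 0, [], [nat_lit 36, nat_lit 40, nat_lit 40, nat_lit 80, nat_lit 7, nat_lit 249, nat_lit 40, nat_lit 7]⟩,
 zbF0, [⟨nat_lit 0, nat_lit 100, nat_lit 100, nat_lit 90, nat_lit 135353529⟩, ⟨nat_lit 4, nat_lit 97, nat_lit 100, nat_lit 93, nat_lit 194104950⟩, ⟨nat_lit 7, nat_lit 94, nat_lit 100, nat_lit 92, nat_lit 290725579⟩, ⟨nat_lit 11, nat_lit 99, nat_lit 100, nat_lit 78, nat_lit 395901531⟩]⟩
noncomputable def p070_l142 : Lf2 := ⟨nat_lit 0, nat_lit 10, [nat_lit 0, nat_lit 5, nat_lit 5, nat_lit 20], false, nat_lit 240, nat_lit 316, nat_lit 160, nat_lit 320, ⟨nat_lit 1000, nat_lit 0, nat_lit 0, nat_lit 0, nat_lit 0, nat_lit 0, nat_lit 0, nat_lit 0, nat_lit 0, nat_lit 0, nat_lit 0, nat_lit 0, nat_lit 0, nat_lit 0, nat_lit 0, nat_lit 0, false, false⟩,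
 nat_lit 0, nat_lit 8799, nat_lit 0, nat_lit 0, nat_lit 5721, nat_lit 4849, nat_lit 1817, nat_lit 0, nat_lit 0, nat_lit 0, nat_lit 0, nat_lit 0, nat_lit 0, nat_lit 0, nat_lit 0, nat_lit 0, nat_lit 0, nat_lit 0, [],
 ⟨p070_k32, nat_lit 0, nat_lit 0, nat_lit 187, nat_lit 0, nat_lit 210841, [nat_lit 3282000000, nat_lit 4688000000, nat_lit 9842000000], [], [nat_lit 19239199066, nat_lit 19522642238, nat_lit 19049120754, nat_lit 19299225213, nat_lit 23165339267, nat_lit 23422281453, nat_lit 22925135269, nat_lit 23190231589], nat_lit 1271250, nat_lit 1271250, nat_lit 408851, nat_lit 1100001, nat_lit 1271250, nat_lit 1271250, [nat_lit 780000, nat_lit 1100000, nat_lit 2127500], [nat_lit 42, nat_lit 40, nat_lit 40, nat_lit 80, nat_lit 13, nat_lit 345, nat_lit 125, nat_lit 9]⟩, ⟨p070_k25, nat_lit 0, nat_lit 0, nat_lit 60, nat_lit 0, nat_lit 0, [nat_lit 3282000000, nat_lit 4688000000, nat_lit 9842000000], [], [nat_lit 12588026103,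 nat_lit 13536234945, nat_lit 13753160412, nat_lit 14586900317, nat_lit 21929753433, nat_lit 22574011956, nat_lit 22026504300, nat_lit 22599523977], nat_lit 0, nat_lit 0, nat_lit 0, nat_lit 0, nat_lit 0, nat_lit 0, [], [nat_lit 42, nat_lit 40, nat_lit 40, nat_lit 80, nat_lit 13, nat_lit 345, nat_lit 125, nat_lit 10]⟩,
 zbF0, [⟨nat_lit 0, nat_lit 100, nat_lit 100, nat_lit 90, nat_lit 62660128⟩, ⟨nat_lit 7, nat_lit 94, nat_lit 100, nat_lit 92, nat_lit 8010823⟩, ⟨nat_lit 11, nat_lit 94, nat_lit 94, nat_lit 100, nat_lit 531473060⟩]⟩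
noncomputable def p070_l143 : Lf2 := ⟨nat_lit 0, nat_lit 7, [nat_lit 80, nat_lit 5, nat_lit 5, nat_lit 20], false, nat_lit 240, nat_lit 332, nat_lit 160, nat_lit 336, ⟨nat_lit 1000, nat_lit 0, nat_lit 0, nat_lit 0, nat_lit 0, nat_lit 0, nat_lit 0, nat_lit 0, nat_lit 0, nat_lit 0, nat_lit 0, nat_lit 0, nat_lit 0, nat_lit 0, nat_lit 0, nat_lit 0, false, false⟩,
 nat_lit 0, nat_lit 9353, nat_lit 0, nat_lit 0, nat_lit 6081, nat_lit 4739, nat_lit 2906, nat_lit 0, nat_lit 0, nat_lit 0, nat_lit 0, nat_lit 0, nat_lit 0, nat_lit 7076119952191, nat_lit 0, nat_lit 0, nat_lit 0, nat_lit 0, [],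
 ⟨p070_k49, nat_lit 0, nat_lit 0, nat_lit 257, nat_lit 0, nat_lit 396153, [nat_lit 3282000000, nat_lit 4688000000, nat_lit 7968000000], [], [nat_lit 19552503488, nat_lit 19742393755, nat_lit 19766680818, nat_lit 19933273899, nat_lit 24577502298, nat_lit 24725813474, nat_lit 24176873216, nat_lit 24307489957], nat_lit 1271250, nat_lit 1271250, nat_lit 408851, nat_lit 1100001, nat_lit 1271250, nat_lit 1271250, [nat_lit 780000, nat_lit 1100000, nat_lit 1785000], [nat_lit 36, nat_lit 40, nat_lit 40, nat_lit 80, nat_lit 7, nat_lit 249, nat_lit 40, nat_lit 7]⟩, ⟨p070_k50, nat_lit 0, nat_lit 0, nat_lit 68, nat_lit 0, nat_lit 0, [nat_lit 3282000000, nat_lit 4688000000, nat_lit 7968000000], [], [nat_lit 12713523211, nat_lit 13461946648, nat_lit 13903707732, nat_lit 14562133296, nat_lit 23240222867, nat_lit 23724881696, nat_lit 23238879995, nat_lit 23671002713], nat_lit 0, nat_lit 0, nat_lit 0, nat_lit 0, nat_lit 0, nat_lit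 0, [], [nat_lit 36, nat_lit 40, nat_lit 40, nat_lit 80, nat_lit 7, nat_lit 345, nat_lit 125, nat_lit 11]⟩,
 zbF0, [⟨nat_lit 0, nat_lit 100, nat_lit 100, nat_lit 88, nat_lit 22900865⟩, ⟨nat_lit 23, nat_lit 100, nat_lit 86, nat_lit 100, nat_lit 15839423⟩, ⟨nat_lit 11, nat_lit 94, nat_lit 94, nat_lit 100, nat_lit 536326686⟩]⟩
noncomputable def p070_l144 : Lf2 := ⟨nat_lit 0, nat_lit 7, [nat_lit 80, nat_lit 5, nat_lit 5, nat_lit 20], false, nat_lit 240, nat_lit 332, nat_lit 160, nat_lit 336, ⟨nat_lit 1000, nat_lit 0, nat_lit 0, nat_lit 0, nat_lit 0, nat_lit 0, nat_lit 0, nat_lit 0, nat_lit 0, nat_lit 0, nat_lit 0, nat_lit 0, nat_lit 0, nat_lit 0, nat_lit 0, nat_lit 0, false, false⟩,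
 nat_lit 0, nat_lit 8830, nat_lit 0, nat_lit 0, nat_lit 5814, nat_lit 4729, nat_lit 2885, nat_lit 0, nat_lit 0, nat_lit 0, nat_lit 0, nat_lit 0, nat_lit 0, nat_lit 6303257564776, nat_lit 0, nat_lit 0, nat_lit 0, nat_lit 0, [],
 ⟨p070_k51, nat_lit 0, nat_lit 0, nat_lit 266, nat_lit 0, nat_lit 424307, [nat_lit 3282000000, nat_lit 4688000000, nat_lit 7968000000], [], [nat_lit 19636510171, nat_lit 19760114366, nat_lit 19901377980, nat_lit 20009982138, nat_lit 24513043255, nat_lit 24609919263, nat_lit 24189248684, nat_lit 24274722279], nat_lit 1271250, nat_lit 1271250, nat_lit 408851, nat_lit 1100001, nat_lit 1271250, nat_lit 1271250, [nat_lit 780000, nat_lit 1100000, nat_lit 1785000], [nat_lit 36, nat_lit 40, nat_lit 40, nat_lit 80, nat_lit 7, nat_lit 249, nat_lit 40, nat_lit 7]⟩, ⟨p070_k50, nat_lit 0, nat_lit 0, nat_lit 69, nat_lit 0, nat_lit 0, [nat_lit 3282000000, nat_lit 4688000000, nat_lit 7968000000], [], [nat_lit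 12724932039, nat_lit 13659308649, nat_lit 13917393852, nat_lit 14739452357, nat_lit 23241466618, nat_lit 23846680942, nat_lit 23244196899, nat_lit 23783840795], nat_lit 0, nat_lit 0, nat_lit 0, nat_lit 0, nat_lit 0, nat_lit 0, [], [nat_lit 36, nat_lit 40, nat_lit 40, nat_lit 80, nat_lit 7, nat_lit 345, nat_lit 125, nat_lit 11]⟩,
 zbF0, [⟨nat_lit 0, nat_lit 100, nat_lit 100, nat_lit 90, nat_lit 22370781⟩, ⟨nat_lit 23, nat_lit 100, nat_lit 86, nat_lit 100, nat_lit 52182431⟩, ⟨nat_lit 11, nat_lit 94, nat_lit 94, nat_lit 100, nat_lit 495371290⟩]⟩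
noncomputable def p070_l145 : Lf2 := ⟨nat_lit 1, nat_lit 10, [nat_lit 0, nat_lit 5, nat_lit 5, nat_lit 20], false, nat_lit 240, nat_lit 332, nat_lit 160, nat_lit 336, zbN0,
 nat_lit 0, nat_lit 0, nat_lit 0, nat_lit 0, nat_lit 0, nat_lit 0, nat_lit 0, nat_lit 0, nat_lit 0, nat_lit 0, nat_lit 0, nat_lit 0, nat_lit 0, nat_lit 0, nat_lit 0, nat_lit 0, nat_lit 0, nat_lit 0, [],
 C1.Rw.none, C1.Rw.none,
 zbF0, []⟩
noncomputable def b_V_700_700_20_20 : St := ⟨true, nat_lit 1, nat_lit 0, nat_lit 1, nat_lit 120, nat_lit 280, nat_lit 290, nat_lit 280, nat_lit 300, nat_lit 64, nat_lit 160, nat_lit 80, nat_lit 120, nat_lit 160, nat_lit 336, nat_lit 160, nat_lit 336, nat_lit 0, nat_lit 40, nat_lit 0, nat_lit 0, nat_lit 0, nat_lit 0⟩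
theorem d_V_700_700_20_20 (h : EB TB.env) : Dead b_V_700_700_20_20 := chkB_sound0 h (T :=
(.ord (.spl (nat_lit 4) (nat_lit 240)
(.spl (nat_lit 6) (nat_lit 20)
(.spl (nat_lit 4) (nat_lit 200)
(.spl (nat_lit 2) (nat_lit 120)
(.leaf p070_l123)
(.leaf p070_l124))
(.leaf p070_l125))
(.leaf p070_l126))
(.spl (nat_lit 0) (nat_lit 285)
(.ord (.spl (nat_lit 6) (nat_lit 32)
(.spl (nat_lit 5) (nat_lit 240)
(.leaf p070_l127)
(.spl (nat_lit 3) (nat_lit 100)
(.trX (nat_lit 16) (nat_lit 100) (nat_lit 88) (nat_lit 94) (nat_lit 320) (.trX (nat_lit 19) (nat_lit 100) (nat_lit 88) (nat_lit 94) (nat_lit 320) (.spl (nat_lit 0) (nat_lit 283)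
(.ord (.spl (nat_lit 2) (nat_lit 120)
(.spl (nat_lit 0) (nat_lit 282)
(.ord (.leaf p070_l128))
(.leaf p070_l129))
(.leaf p070_l130)))
(.spl (nat_lit 6) (nat_lit 20)
(.spl (nat_lit 0) (nat_lit 284)
(.ord (.leaf p070_l131))
(.trX (nat_lit 16) (nat_lit 100) (nat_lit 90) (nat_lit 95) (nat_lit 316) (.leaf p070_l132)))
(.leaf p070_l133)))))
(.leaf p070_l134)))
(.leaf p070_l135)))
(.trZ (nat_lit 0) (nat_lit 100) (nat_lit 99) (nat_lit 82) (nat_lit 68) (.trX (nat_lit 16) (nat_lit 99) (nat_lit 82) (nat_lit 100) (nat_lit 332) (.spl (nat_lit 3) (nat_lit 100)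
(.trX (nat_lit 16) (nat_lit 100) (nat_lit 91) (nat_lit 96) (nat_lit 316) (.trX (nat_lit 19) (nat_lit 100) (nat_lit 88) (nat_lit 94) (nat_lit 320) (.spl (nat_lit 6) (nat_lit 20)
(.spl (nat_lit 0) (nat_lit 288)
(.ord (.spl (nat_lit 5) (nat_lit 240)
(.leaf p070_l136)
(.spl (nat_lit 0) (nat_lit 287)
(.ord (.leaf p070_l137))
(.leaf p070_l138))))
(.trX (nat_lit 16) (nat_lit 100) (nat_lit 92) (nat_lit 96) (nat_lit 312) (.spl (nat_lit 5) (nat_lit 240)
(.leaf p070_l139)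
(.spl (nat_lit 0) (nat_lit 289)
(.ord (.leaf p070_l140))
(.leaf p070_l141)))))
(.leaf p070_l142))))
(.spl (nat_lit 6) (nat_lit 28)
(.spl (nat_lit 0) (nat_lit 288)
(.ord (.leaf p070_l143))
(.leaf p070_l144))
(.leaf p070_l145))))))))) (by decide +kernel)

end B2
end Pool.Agent.Lib.MP_6947cd_al
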