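import Pool.Agent.Lib.MP_6947cd_al.ZB.Pre

/-!
Problem MP_6947cd_al (Chollet).  Case B, second entry in [2/5, 17/20]: certificates of the tree, part P071 (generated).
-/

set_option autoImplicit false
set_option linter.all false

namespace Pool.Agent.Lib.MP_6947cd_al
namespace B2

open Ent Fr B1 PkA

noncomputable def p071_k0 : C1.Kn := ⟨[nat_lit 60, nat_lit 80, nat_lit 120], [nat_lit 0, nat_lit 151, nat_lit 1205], [(nat_lit 0, nat_lit 0, nat_lit 0), (nat_lit 1000, nat_lit 953, nat_lit 118), (nat_lit 1000, nat_lit 894, nat_lit 411)], (nat_lit 91, nat_lit 100, nat_lit 61)⟩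
noncomputable def p071_k1 : C1.Kn := ⟨[nat_lit 60, nat_lit 80, nat_lit 140], [nat_lit 0, nat_lit 0, nat_lit 1595], [(nat_lit 0, nat_lit 0, nat_lit 0), (nat_lit 0, nat_lit 0, nat_lit 0), (nat_lit 1000, nat_lit 917, nat_lit 415)], (nat_lit 94, nat_lit 100, nat_lit 62)⟩
noncomputable def p071_k2 : C1.Kn := ⟨[nat_lit 60, nat_lit 80, nat_lit 120], [nat_lit 0, nat_lit 228, nat_lit 1272], [(nat_lit 0, nat_lit 0, nat_lit 0), (nat_lit 1000, nat_lit 929, nat_lit 178), (nat_lit 1000, nat_lit 883, nat_lit 407)], (nat_lit 89, nat_lit 100, nat_lit 61)⟩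
noncomputable def p071_k3 : C1.Kn := ⟨[nat_lit 60, nat_lit 80, nat_lit 100], [nat_lit 0, nat_lit 151, nat_lit 679], [(nat_lit 0, nat_lit 0, nat_lit 0), (nat_lit 1000, nat_lit 953, nat_lit 118), (nat_lit 1000, nat_lit 894, nat_lit 411)], (nat_lit 89, nat_lit 100, nat_lit 44)⟩
noncomputable def p071_k4 : C1.Kn := ⟨[nat_lit 60, nat_lit 80, nat_lit 120], [nat_lit 0, nat_lit 0, nat_lit 1064], [(nat_lit 0, nat_lit 0, nat_lit 0), (nat_lit 0, nat_lit 0, nat_lit 0), (nat_lit 1000, nat_lit 917, nat_lit 415)], (nat_lit 92, nat_lit 100, nat_lit 44)⟩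
noncomputable def p071_k5 : C1.Kn := ⟨[nat_lit 60, nat_lit 80, nat_lit 100], [nat_lit 0, nat_lit 228, nat_lit 751], [(nat_lit 0, nat_lit 0, nat_lit 0), (nat_lit 1000, nat_lit 929, nat_lit 178), (nat_lit 1000, nat_lit 883, nat_lit 407)], (nat_lit 88, nat_lit 100, nat_lit 44)⟩
noncomputable def p071_k6 : C1.Kn := ⟨[nat_lit 60, nat_lit 100], [nat_lit 0, nat_lit 455], [(nat_lit 0, nat_lit 0, nat_lit 0), (nat_lit 1000, nat_lit 929, nat_lit 178)], (nat_lit 88, nat_lit 100, nat_lit 44)⟩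
noncomputable def p071_k7 : C1.Kn := ⟨[nat_lit 60, nat_lit 100], [nat_lit 0, nat_lit 302], [(nat_lit 0, nat_lit 0, nat_lit 0), (nat_lit 1000, nat_lit 953, nat_lit 118)], (nat_lit 89, nat_lit 100, nat_lit 44)⟩
noncomputable def p071_k8 : C1.Kn := ⟨[nat_lit 60, nat_lit 100], [nat_lit 0, nat_lit 544], [(nat_lit 0, nat_lit 0, nat_lit 0), (nat_lit 1000, nat_lit 915, nat_lit 212)], (nat_lit 87, nat_lit 100, nat_lit 44)⟩
noncomputable def p071_k9 : C1.Kn := ⟨[nat_lit 60, nat_lit 120], [nat_lit 0, nat_lit 0], [(nat_lit 0, nat_lit 0, nat_lit 0), (nat_lit 0, nat_lit 0, nat_lit 0)], (nat_lit 92, nat_lit 100, nat_lit 44)⟩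
noncomputable def p071_k10 : C1.Kn := ⟨[nat_lit 60, nat_lit 80, nat_lit 100], [nat_lit 0, nat_lit 304, nat_lit 825], [(nat_lit 0, nat_lit 0, nat_lit 0), (nat_lit 1000, nat_lit 905, nat_lit 238), (nat_lit 1000, nat_lit 871, nat_lit 407)], (nat_lit 87, nat_lit 100, nat_lit 44)⟩
noncomputable def p071_k11 : C1.Kn := ⟨[nat_lit 60, nat_lit 80, nat_lit 100], [nat_lit 0, nat_lit 379, nat_lit 901], [(nat_lit 0, nat_lit 0, nat_lit 0), (nat_lit 1000, nat_lit 882, nat_lit 294), (nat_lit 1000, nat_lit 859, nat_lit 408)], (nat_lit 86, nat_lit 100, nat_lit 44)⟩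
noncomputable def p071_k12 : C1.Kn := ⟨[nat_lit 60, nat_lit 100], [nat_lit 0, nat_lit 609], [(nat_lit 0, nat_lit 0, nat_lit 0), (nat_lit 1000, nat_lit 905, nat_lit 238)], (nat_lit 87, nat_lit 100, nat_lit 44)⟩
noncomputable def p071_k13 : C1.Kn := ⟨[nat_lit 60, nat_lit 80], [nat_lit 0, nat_lit 304], [(nat_lit 0, nat_lit 0, nat_lit 0), (nat_lit 1000, nat_lit 905, nat_lit 238)], (nat_lit 89, nat_lit 100, nat_lit 29)⟩
noncomputable def p071_k14 : C1.Kn := ⟨[nat_lit 60, nat_lit 100], [nat_lit 0, nat_lit 0], [(nat_lit 0, nat_lit 0, nat_lit 0), (nat_lit 0, nat_lit 0, nat_lit 0)], (nat_lit 92, nat_lit 100, nat_lit 28)⟩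
noncomputable def p071_k15 : C1.Kn := ⟨[nat_lit 60, nat_lit 100], [nat_lit 0, nat_lit 302], [(nat_lit 0, nat_lit 0, nat_lit 0), (nat_lit 1000, nat_lit 953, nat_lit 118)], (nat_lit 91, nat_lit 100, nat_lit 28)⟩
noncomputable def p071_k16 : C1.Kn := ⟨[nat_lit 60, nat_lit 80], [nat_lit 0, nat_lit 349], [(nat_lit 0, nat_lit 0, nat_lit 0), (nat_lit 1000, nat_lit 891, nat_lit 272)], (nat_lit 89, nat_lit 100, nat_lit 29)⟩
noncomputable def p071_k17 : C1.Kn := ⟨[nat_lit 60, nat_lit 80], [nat_lit 0, nat_lit 379], [(nat_lit 0, nat_lit 0, nat_lit 0), (nat_lit 1000, nat_lit 882, nat_lit 294)], (nat_lit 88, nat_lit 100, nat_lit 29)⟩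
noncomputable def p071_k18 : C1.Kn := ⟨[nat_lit 60, nat_lit 80], [nat_lit 0, nat_lit 426], [(nat_lit 0, nat_lit 0, nat_lit 0), (nat_lit 1000, nat_lit 867, nat_lit 332)], (nat_lit 88, nat_lit 100, nat_lit 29)⟩
noncomputable def p071_k19 : C1.Kn := ⟨[nat_lit 60, nat_lit 80, nat_lit 100], [nat_lit 0, nat_lit 456, nat_lit 976], [(nat_lit 0, nat_lit 0, nat_lit 0), (nat_lit 1000, nat_lit 859, nat_lit 351), (nat_lit 1000, nat_lit 848, nat_lit 406)], (nat_lit 84, nat_lit 100, nat_lit 44)⟩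
noncomputable def p071_k20 : C1.Kn := ⟨[nat_lit 60, nat_lit 80], [nat_lit 0, nat_lit 456], [(nat_lit 0, nat_lit 0, nat_lit 0), (nat_lit 1000, nat_lit 859, nat_lit 351)], (nat_lit 87, nat_lit 100, nat_lit 29)⟩
noncomputable def p071_k21 : C1.Kn := ⟨[nat_lit 60, nat_lit 80, nat_lit 100], [nat_lit 0, nat_lit 0, nat_lit 534], [(nat_lit 0, nat_lit 0, nat_lit 0), (nat_lit 0, nat_lit 0, nat_lit 0), (nat_lit 1000, nat_lit 917, nat_lit 393)], (nat_lit 92, nat_lit 100, nat_lit 28)⟩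
noncomputable def p071_k22 : C1.Kn := ⟨[nat_lit 60, nat_lit 80, nat_lit 100], [nat_lit 0, nat_lit 151, nat_lit 679], [(nat_lit 0, nat_lit 0, nat_lit 0), (nat_lit 1000, nat_lit 953, nat_lit 118), (nat_lit 1000, nat_lit 894, nat_lit 411)], (nat_lit 91, nat_lit 100, nat_lit 28)⟩
noncomputable def p071_k23 : C1.Kn := ⟨[nat_lit 60, nat_lit 80], [nat_lit 0, nat_lit 502], [(nat_lit 0, nat_lit 0, nat_lit 0), (nat_lit 1000, nat_lit 845, nat_lit 382)], (nat_lit 87, nat_lit 100, nat_lit 29)⟩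
noncomputable def p071_k24 : C1.Kn := ⟨[nat_lit 60, nat_lit 80], [nat_lit 0, nat_lit 533], [(nat_lit 0, nat_lit 0, nat_lit 0), (nat_lit 1000, nat_lit 837, nat_lit 397)], (nat_lit 86, nat_lit 100, nat_lit 30)⟩
noncomputable def p071_k25 : C1.Kn := ⟨[nat_lit 60, nat_lit 80], [nat_lit 0, nat_lit 581], [(nat_lit 0, nat_lit 0, nat_lit 0), (nat_lit 1000, nat_lit 827, nat_lit 411)], (nat_lit 86, nat_lit 100, nat_lit 30)⟩
noncomputable def p071_k26 : C1.Kn := ⟨[nat_lit 60, nat_lit 80, nat_lit 120], [nat_lit 0, nat_lit 304, nat_lit 1346], [(nat_lit 0, nat_lit 0, nat_lit 0), (nat_lit 1000, nat_lit 905, nat_lit 238), (nat_lit 1000, nat_lit 871, nat_lit 407)], (nat_lit 87, nat_lit 100, nat_lit 60)⟩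
noncomputable def p071_k27 : C1.Kn := ⟨[nat_lit 60, nat_lit 80, nat_lit 120], [nat_lit 0, nat_lit 456, nat_lit 1495], [(nat_lit 0, nat_lit 0, nat_lit 0), (nat_lit 1000, nat_lit 859, nat_lit 351), (nat_lit 1000, nat_lit 848, nat_lit 406)], (nat_lit 84, nat_lit 100, nat_lit 60)⟩
noncomputable def p071_k28 : C1.Kn := ⟨[nat_lit 60, nat_lit 100, nat_lit 120], [nat_lit 0, nat_lit 609, nat_lit 1609], [(nat_lit 0, nat_lit 0, nat_lit 0), (nat_lit 1000, nat_lit 905, nat_lit 238), (nat_lit 1000, nat_lit 882, nat_lit 668)], (nat_lit 87, nat_lit 100, nat_lit 60)⟩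
noncomputable def p071_k29 : C1.Kn := ⟨[nat_lit 60, nat_lit 100, nat_lit 140], [nat_lit 0, nat_lit 0, nat_lit 2047], [(nat_lit 0, nat_lit 0, nat_lit 0), (nat_lit 0, nat_lit 0, nat_lit 0), (nat_lit 1000, nat_lit 993, nat_lit 781)], (nat_lit 94, nat_lit 100, nat_lit 62)⟩
noncomputable def p071_k30 : C1.Kn := ⟨[nat_lit 60, nat_lit 100, nat_lit 120], [nat_lit 0, nat_lit 909, nat_lit 1866], [(nat_lit 0, nat_lit 0, nat_lit 0), (nat_lit 1000, nat_lit 858, nat_lit 354), (nat_lit 1000, nat_lit 849, nat_lit 705)], (nat_lit 84, nat_lit 100, nat_lit 60)⟩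
noncomputable def p071_k31 : C1.Kn := ⟨[nat_lit 60, nat_lit 80], [nat_lit 0, nat_lit 333], [(nat_lit 0, nat_lit 0, nat_lit 0), (nat_lit 1000, nat_lit 896, nat_lit 259)], (nat_lit 89, nat_lit 100, nat_lit 29)⟩
noncomputable def p071_k32 : C1.Kn := ⟨[nat_lit 60, nat_lit 80], [nat_lit 0, nat_lit 379], [(nat_lit 0, nat_lit 0, nat_lit 0), (nat_lit 1000, nat_lit 882, nat_lit 294)], (nat_lit 91, nat_lit 100, nat_lit 21)⟩
noncomputable def p071_k33 : C1.Kn := ⟨[nat_lit 60, nat_lit 80], [nat_lit 0, nat_lit 304], [(nat_lit 0, nat_lit 0, nat_lit 0), (nat_lit 1000, nat_lit 905, nat_lit 238)], (nat_lit 91, nat_lit 100, nat_lit 21)⟩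
noncomputable def p071_k34 : C1.Kn := ⟨[nat_lit 60, nat_lit 80], [nat_lit 0, nat_lit 395], [(nat_lit 0, nat_lit 0, nat_lit 0), (nat_lit 1000, nat_lit 877, nat_lit 307)], (nat_lit 91, nat_lit 100, nat_lit 21)⟩
noncomputable def p071_k35 : C1.Kn := ⟨[nat_lit 60, nat_lit 80], [nat_lit 0, nat_lit 410], [(nat_lit 0, nat_lit 0, nat_lit 0), (nat_lit 1000, nat_lit 872, nat_lit 319)], (nat_lit 90, nat_lit 100, nat_lit 21)⟩
noncomputable def p071_k36 : C1.Kn := ⟨[nat_lit 60, nat_lit 80], [nat_lit 0, nat_lit 426], [(nat_lit 0, nat_lit 0, nat_lit 0), (nat_lit 1000, nat_lit 867, nat_lit 332)], (nat_lit 90, nat_lit 100, nat_lit 21)⟩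
noncomputable def p071_k37 : C1.Kn := ⟨[nat_lit 50, nat_lit 70], [nat_lit 0, nat_lit 134], [(nat_lit 0, nat_lit 0, nat_lit 0), (nat_lit 1000, nat_lit 947, nat_lit 105)], (nat_lit 90, nat_lit 100, nat_lit 21)⟩
noncomputable def p071_k38 : C1.Kn := ⟨[nat_lit 60, nat_lit 80], [nat_lit 0, nat_lit 441], [(nat_lit 0, nat_lit 0, nat_lit 0), (nat_lit 1000, nat_lit 862, nat_lit 345)], (nat_lit 90, nat_lit 100, nat_lit 21)⟩
noncomputable def p071_k39 : C1.Kn := ⟨[nat_lit 50, nat_lit 70], [nat_lit 0, nat_lit 153], [(nat_lit 0, nat_lit 0, nat_lit 0), (nat_lit 1000, nat_lit 940, nat_lit 120)], (nat_lit 90, nat_lit 100, nat_lit 21)⟩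
noncomputable def p071_k40 : C1.Kn := ⟨[nat_lit 60, nat_lit 80], [nat_lit 0, nat_lit 456], [(nat_lit 0, nat_lit 0, nat_lit 0), (nat_lit 1000, nat_lit 859, nat_lit 351)], (nat_lit 90, nat_lit 100, nat_lit 21)⟩
noncomputable def p071_k41 : C1.Kn := ⟨[nat_lit 60, nat_lit 80], [nat_lit 0, nat_lit 533], [(nat_lit 0, nat_lit 0, nat_lit 0), (nat_lit 1000, nat_lit 837, nat_lit 397)], (nat_lit 89, nat_lit 100, nat_lit 22)⟩
noncomputable def p071_k42 : C1.Kn := ⟨[nat_lit 60, nat_lit 80], [nat_lit 0, nat_lit 487], [(nat_lit 0, nat_lit 0, nat_lit 0), (nat_lit 1000, nat_lit 849, nat_lit 376)], (nat_lit 90, nat_lit 100, nat_lit 22)⟩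
noncomputable def p071_k43 : C1.Kn := ⟨[nat_lit 60, nat_lit 80], [nat_lit 0, nat_lit 502], [(nat_lit 0, nat_lit 0, nat_lit 0), (nat_lit 1000, nat_lit 845, nat_lit 382)], (nat_lit 90, nat_lit 100, nat_lit 22)⟩
noncomputable def p071_k44 : C1.Kn := ⟨[nat_lit 60, nat_lit 120], [nat_lit 0, nat_lit 1362], [(nat_lit 0, nat_lit 0, nat_lit 0), (nat_lit 1000, nat_lit 858, nat_lit 354)], (nat_lit 84, nat_lit 100, nat_lit 60)⟩
noncomputable def p071_k45 : C1.Kn := ⟨[nat_lit 60, nat_lit 120], [nat_lit 0, nat_lit 913], [(nat_lit 0, nat_lit 0, nat_lit 0), (nat_lit 1000, nat_lit 905, nat_lit 238)], (nat_lit 87, nat_lit 100, nat_lit 60)⟩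
noncomputable def p071_k46 : C1.Kn := ⟨[nat_lit 60, nat_lit 80, nat_lit 120], [nat_lit 0, nat_lit 533, nat_lit 1600], [(nat_lit 0, nat_lit 0, nat_lit 0), (nat_lit 1000, nat_lit 837, nat_lit 397), (nat_lit 1000, nat_lit 833, nat_lit 417)], (nat_lit 82, nat_lit 100, nat_lit 60)⟩
noncomputable def p071_k47 : C1.Kn := ⟨[nat_lit 60, nat_lit 80, nat_lit 140], [nat_lit 0, nat_lit 75, nat_lit 1666], [(nat_lit 0, nat_lit 0, nat_lit 0), (nat_lit 1000, nat_lit 977, nat_lit 59), (nat_lit 1000, nat_lit 905, nat_lit 414)], (nat_lit 92, nat_lit 100, nat_lit 61)⟩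
noncomputable def p071_k48 : C1.Kn := ⟨[nat_lit 60, nat_lit 100, nat_lit 120], [nat_lit 0, nat_lit 302, nat_lit 1376], [(nat_lit 0, nat_lit 0, nat_lit 0), (nat_lit 1000, nat_lit 953, nat_lit 118), (nat_lit 1000, nat_lit 911, nat_lit 628)], (nat_lit 91, nat_lit 100, nat_lit 61)⟩
noncomputable def p071_l0 : Lf2 := ⟨nat_lit 0, nat_lit 10, [nat_lit 0, nat_lit 5, nat_lit 5, nat_lit 20], false, nat_lit 160, nat_lit 240, nat_lit 160, nat_lit 336, ⟨nat_lit 1000, nat_lit 0, nat_lit 0, nat_lit 0, nat_lit 0, nat_lit 0, nat_lit 0, nat_lit 0, nat_lit 0, nat_lit 0, nat_lit 0, nat_lit 0, nat_lit 0, nat_lit 0, nat_lit 0, nat_lit 0, false, false⟩,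
 nat_lit 0, nat_lit 10187, nat_lit 0, nat_lit 0, nat_lit 6765, nat_lit 4729, nat_lit 2191, nat_lit 0, nat_lit 0, nat_lit 0, nat_lit 0, nat_lit 0, nat_lit 0, nat_lit 0, nat_lit 0, nat_lit 0, nat_lit 0, nat_lit 0, [],
 ⟨p071_k0, nat_lit 0, nat_lit 0, nat_lit 364, nat_lit 0, nat_lit 654143, [nat_lit 3282000000, nat_lit 4688000000, nat_lit 7968000000], [], [nat_lit 22713543998, nat_lit 21843223366, nat_lit 16540720535, nat_lit 16825156370, nat_lit 18627590749, nat_lit 18902950064, nat_lit 23738419120, nat_lit 22962520975], nat_lit 1271250, nat_lit 1271250, nat_lit 435600, nat_lit 1100001, nat_lit 1100001, nat_lit 1785000, [nat_lit 780000, nat_lit 1100000, nat_lit 1785000], [nat_lit 36, nat_lit 40, nat_lit 40, nat_lit 80, nat_lit 7, nat_lit 317, nat_lit 100, nat_lit 10]⟩, ⟨p071_k1, nat_lit 0, nat_lit 0, nat_lit 69, nat_lit 0, nat_lit 0, [nat_lit 3282000000, nat_lit 4688000000, nat_lit 9842000000], [], [nat_lit 12677630148,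 nat_lit 14073615868, nat_lit 13917393852, nat_lit 15150481610, nat_lit 23159821671, nat_lit 24064567672, nat_lit 23244196899, nat_lit 24053662743], nat_lit 0, nat_lit 0, nat_lit 0, nat_lit 0, nat_lit 0, nat_lit 0, [], [nat_lit 42, nat_lit 40, nat_lit 40, nat_lit 80, nat_lit 13, nat_lit 345, nat_lit 125, nat_lit 10]⟩,
 zbF0, [⟨nat_lit 0, nat_lit 100, nat_lit 99, nat_lit 89, nat_lit 268302126⟩, ⟨nat_lit 19, nat_lit 100, nat_lit 92, nat_lit 96, nat_lit 533578509⟩]⟩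
noncomputable def p071_l1 : Lf2 := ⟨nat_lit 0, nat_lit 10, [nat_lit 0, nat_lit 5, nat_lit 5, nat_lit 20], false, nat_lit 160, nat_lit 240, nat_lit 160, nat_lit 336, ⟨nat_lit 1000, nat_lit 0, nat_lit 0, nat_lit 0, nat_lit 0, nat_lit 0, nat_lit 0, nat_lit 0, nat_lit 0, nat_lit 0, nat_lit 0, nat_lit 0, nat_lit 0, nat_lit 0, nat_lit 0, nat_lit 0, false, false⟩,
 nat_lit 0, nat_lit 9629, nat_lit 0, nat_lit 0, nat_lit 6529, nat_lit 4728, nat_lit 2363, nat_lit 0, nat_lit 0, nat_lit 0, nat_lit 0, nat_lit 0, nat_lit 0, nat_lit 0, nat_lit 0, nat_lit 0, nat_lit 0, nat_lit 0, [],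
 ⟨p071_k2, nat_lit 0, nat_lit 0, nat_lit 389, nat_lit 0, nat_lit 727244, [nat_lit 3282000000, nat_lit 4688000000, nat_lit 7968000000], [], [nat_lit 20694880792, nat_lit 19856181775, nat_lit 15725824457, nat_lit 16005011888, nat_lit 17662435238, nat_lit 17931619530, nat_lit 22160215285, nat_lit 21411384688], nat_lit 1271250, nat_lit 1271250, nat_lit 462650, nat_lit 1100001, nat_lit 1100001, nat_lit 1785000, [nat_lit 780000, nat_lit 1100000, nat_lit 1785000], [nat_lit 36, nat_lit 40, nat_lit 40, nat_lit 80, nat_lit 7, nat_lit 317, nat_lit 100, nat_lit 10]⟩, ⟨p071_k1, nat_lit 0, nat_lit 0, nat_lit 68, nat_lit 0, nat_lit 0, [nat_lit 3282000000, nat_lit 4688000000, nat_lit 9842000000], [], [nat_lit 12631524340, nat_lit 14485171463, nat_lit 13918762464, nat_lit 15562684784, nat_lit 23078365749, nat_lit 24280472427, nat_lit 23244728589, nat_lit 24323914481], nat_lit 0, nat_lit 0, nat_lit 0, nat_lit 0, nat_lit 0, nat_lit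 0, [], [nat_lit 42, nat_lit 40, nat_lit 40, nat_lit 80, nat_lit 13, nat_lit 345, nat_lit 125, nat_lit 10]⟩,
 zbF0, [⟨nat_lit 0, nat_lit 100, nat_lit 98, nat_lit 93, nat_lit 277845337⟩, ⟨nat_lit 7, nat_lit 94, nat_lit 100, nat_lit 97, nat_lit 522357258⟩]⟩
noncomputable def p071_l2 : Lf2 := ⟨nat_lit 0, nat_lit 5, [nat_lit 4, nat_lit 5, nat_lit 5, nat_lit 20], false, nat_lit 240, nat_lit 312, nat_lit 160, nat_lit 320, ⟨nat_lit 1000, nat_lit 0, nat_lit 0, nat_lit 0, nat_lit 0, nat_lit 0, nat_lit 0, nat_lit 0, nat_lit 0, nat_lit 0, nat_lit 0, nat_lit 0, nat_lit 0, nat_lit 0, nat_lit 0, nat_lit 0, false, false⟩,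
 nat_lit 0, nat_lit 9364, nat_lit 0, nat_lit 0, nat_lit 6218, nat_lit 4871, nat_lit 1891, nat_lit 0, nat_lit 0, nat_lit 0, nat_lit 0, nat_lit 0, nat_lit 0, nat_lit 0, nat_lit 0, nat_lit 0, nat_lit 0, nat_lit 0, [],
 ⟨p071_k3, nat_lit 0, nat_lit 0, nat_lit 174, nat_lit 0, nat_lit 337670, [nat_lit 3282000000, nat_lit 4688000000, nat_lit 6250000000], [], [nat_lit 19030075987, nat_lit 19349005625, nat_lit 18855257242, nat_lit 19163078572, nat_lit 22964726985, nat_lit 23379976995, nat_lit 22516280825, nat_lit 22771447067], nat_lit 1271250, nat_lit 1271250, nat_lit 435600, nat_lit 631250, nat_lit 1271250, nat_lit 1271250, [nat_lit 780000, nat_lit 1100000, nat_lit 1442500], [nat_lit 59, nat_lit 40, nat_lit 40, nat_lit 80, nat_lit 3, nat_lit 232, nat_lit 25, nat_lit 8]⟩, ⟨p071_k4, nat_lit 0, nat_lit 0, nat_lit 60, nat_lit 0, nat_lit 0, [nat_lit 3282000000, nat_lit 4688000000, nat_lit 7968000000], [], [nat_lit 12511705533,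 nat_lit 13932121373, nat_lit 12576198834, nat_lit 13949180398, nat_lit 21842296861, nat_lit 22833849888, nat_lit 21628105772, nat_lit 22564233632], nat_lit 0, nat_lit 0, nat_lit 0, nat_lit 0, nat_lit 0, nat_lit 0, [], [nat_lit 36, nat_lit 40, nat_lit 40, nat_lit 80, nat_lit 7, nat_lit 345, nat_lit 125, nat_lit 11]⟩,
 zbF0, [⟨nat_lit 0, nat_lit 100, nat_lit 100, nat_lit 95, nat_lit 314582940⟩, ⟨nat_lit 4, nat_lit 99, nat_lit 100, nat_lit 94, nat_lit 93836749⟩, ⟨nat_lit 19, nat_lit 100, nat_lit 96, nat_lit 93, nat_lit 96006922⟩, ⟨nat_lit 11, nat_lit 100, nat_lit 100, nat_lit 93, nat_lit 434888542⟩]⟩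
noncomputable def p071_l3 : Lf2 := ⟨nat_lit 0, nat_lit 5, [nat_lit 4, nat_lit 5, nat_lit 5, nat_lit 20], false, nat_lit 240, nat_lit 312, nat_lit 160, nat_lit 320, ⟨nat_lit 1000, nat_lit 0, nat_lit 0, nat_lit 0, nat_lit 0, nat_lit 0, nat_lit 0, nat_lit 0, nat_lit 0, nat_lit 0, nat_lit 0, nat_lit 0, nat_lit 0, nat_lit 0, nat_lit 0, nat_lit 0, false, false⟩,
 nat_lit 0, nat_lit 8951, nat_lit 0, nat_lit 0, nat_lit 5944, nat_lit 4968, nat_lit 3550, nat_lit 0, nat_lit 0, nat_lit 0, nat_lit 0, nat_lit 0, nat_lit 0, nat_lit 15479325832092, nat_lit 0, nat_lit 0, nat_lit 0, nat_lit 0, [],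
 ⟨p071_k3, nat_lit 0, nat_lit 0, nat_lit 272, nat_lit 0, nat_lit 616356, [nat_lit 3282000000, nat_lit 4688000000, nat_lit 6250000000], [], [nat_lit 19285049190, nat_lit 19534220752, nat_lit 19248586682, nat_lit 19491095278, nat_lit 22356413392, nat_lit 22592435961, nat_lit 22269400727, nat_lit 22508325670], nat_lit 1271250, nat_lit 1271250, nat_lit 631250, nat_lit 780000, nat_lit 1271250, nat_lit 1271250, [nat_lit 780000, nat_lit 1100000, nat_lit 1442500], [nat_lit 59, nat_lit 40, nat_lit 40, nat_lit 80, nat_lit 3, nat_lit 238, nat_lit 30, nat_lit 8]⟩, ⟨p071_k4, nat_lit 0, nat_lit 0, nat_lit 48, nat_lit 0, nat_lit 0, [nat_lit 3282000000, nat_lit 4688000000, nat_lit 7968000000], [], [nat_lit 12451248672, nat_lit 13840208682, nat_lit 12611931456, nat_lit 13964316828, nat_lit 21582800176, nat_lit 22528083550, nat_lit 21522046912, nat_lit 22444740592], nat_lit 0, nat_lit 0, nat_lit 0, nat_lit 0, nat_lit 0, nat_lit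 0, [], [nat_lit 36, nat_lit 40, nat_lit 40, nat_lit 80, nat_lit 7, nat_lit 345, nat_lit 125, nat_lit 11]⟩,
 zbF0, [⟨nat_lit 4, nat_lit 99, nat_lit 100, nat_lit 94, nat_lit 239828039⟩, ⟨nat_lit 19, nat_lit 100, nat_lit 96, nat_lit 93, nat_lit 287131644⟩, ⟨nat_lit 11, nat_lit 95, nat_lit 95, nat_lit 100, nat_lit 241024114⟩]⟩
noncomputable def p071_l4 : Lf2 := ⟨nat_lit 0, nat_lit 5, [nat_lit 4, nat_lit 5, nat_lit 5, nat_lit 20], false, nat_lit 240, nat_lit 312, nat_lit 160, nat_lit 320, ⟨nat_lit 1000, nat_lit 0, nat_lit 0, nat_lit 0, nat_lit 0, nat_lit 0, nat_lit 0, nat_lit 0, nat_lit 0, nat_lit 0, nat_lit 0, nat_lit 0, nat_lit 0, nat_lit 0, nat_lit 0, nat_lit 0, false, false⟩,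
 nat_lit 0, nat_lit 9024, nat_lit 0, nat_lit 0, nat_lit 5992, nat_lit 5039, nat_lit 3581, nat_lit 0, nat_lit 0, nat_lit 0, nat_lit 0, nat_lit 0, nat_lit 0, nat_lit 7596428171517, nat_lit 0, nat_lit 0, nat_lit 0, nat_lit 0, [],
 ⟨p071_k3, nat_lit 0, nat_lit 0, nat_lit 264, nat_lit 0, nat_lit 616356, [nat_lit 3282000000, nat_lit 4688000000, nat_lit 6250000000], [], [nat_lit 19036055651, nat_lit 19279477879, nat_lit 19354838707, nat_lit 19583344927, nat_lit 22117710269, nat_lit 22363272053, nat_lit 22388310483, nat_lit 22618966246], nat_lit 1271250, nat_lit 1271250, nat_lit 780000, nat_lit 1100001, nat_lit 1271250, nat_lit 1271250, [nat_lit 780000, nat_lit 1100000, nat_lit 1442500], [nat_lit 59, nat_lit 40, nat_lit 40, nat_lit 80, nat_lit 3, nat_lit 249, nat_lit 40, nat_lit 8]⟩, ⟨p071_k4, nat_lit 0, nat_lit 0, nat_lit 41, nat_lit 0, nat_lit 0, [nat_lit 3282000000, nat_lit 4688000000, nat_lit 7968000000], [], [nat_lit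 12515896288, nat_lit 13879579819, nat_lit 13493124132, nat_lit 14771477315, nat_lit 21482058576, nat_lit 22411218404, nat_lit 21900857300, nat_lit 22776168121], nat_lit 0, nat_lit 0, nat_lit 0, nat_lit 0, nat_lit 0, nat_lit 0, [], [nat_lit 36, nat_lit 40, nat_lit 40, nat_lit 80, nat_lit 7, nat_lit 345, nat_lit 125, nat_lit 11]⟩,
 zbF0, [⟨nat_lit 16, nat_lit 100, nat_lit 94, nat_lit 97, nat_lit 470365776⟩, ⟨nat_lit 19, nat_lit 100, nat_lit 96, nat_lit 93, nat_lit 528082118⟩]⟩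
noncomputable def p071_l5 : Lf2 := ⟨nat_lit 0, nat_lit 5, [nat_lit 4, nat_lit 5, nat_lit 5, nat_lit 20], false, nat_lit 240, nat_lit 308, nat_lit 160, nat_lit 320, ⟨nat_lit 1000, nat_lit 0, nat_lit 0, nat_lit 0, nat_lit 0, nat_lit 0, nat_lit 0, nat_lit 0, nat_lit 0, nat_lit 0, nat_lit 0, nat_lit 0, nat_lit 0, nat_lit 0, nat_lit 0, nat_lit 0, false, false⟩,
 nat_lit 0, nat_lit 8644, nat_lit 0, nat_lit 0, nat_lit 5861, nat_lit 4902, nat_lit 2625, nat_lit 0, nat_lit 0, nat_lit 0, nat_lit 0, nat_lit 0, nat_lit 0, nat_lit 0, nat_lit 0, nat_lit 0, nat_lit 0, nat_lit 0, [],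
 ⟨p071_k5, nat_lit 0, nat_lit 0, nat_lit 275, nat_lit 0, nat_lit 595820, [nat_lit 3282000000, nat_lit 4688000000, nat_lit 6250000000], [], [nat_lit 19384602642, nat_lit 19672086520, nat_lit 19333720819, nat_lit 19606983088, nat_lit 22765423369, nat_lit 23025463062, nat_lit 22567835532, nat_lit 22813565198], nat_lit 1271250, nat_lit 1271250, nat_lit 462650, nat_lit 780000, nat_lit 1271250, nat_lit 1271250, [nat_lit 780000, nat_lit 1100000, nat_lit 1442500], [nat_lit 59, nat_lit 40, nat_lit 40, nat_lit 80, nat_lit 3, nat_lit 238, nat_lit 30, nat_lit 8]⟩, ⟨p071_k4, nat_lit 0, nat_lit 0, nat_lit 55, nat_lit 0, nat_lit 0, [nat_lit 3282000000, nat_lit 4688000000, nat_lit 7968000000], [], [nat_lit 12423405793, nat_lit 13370086618, nat_lit 12701203584, nat_lit 13595792156, nat_lit 21750395925, nat_lit 22393616302, nat_lit 21559219168, nat_lit 22170341098], nat_lit 0, nat_lit 0, nat_lit 0, nat_lit 0, nat_lit 0, nat_lit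 0, [], [nat_lit 36, nat_lit 40, nat_lit 40, nat_lit 80, nat_lit 7, nat_lit 345, nat_lit 125, nat_lit 11]⟩,
 zbF0, [⟨nat_lit 0, nat_lit 100, nat_lit 97, nat_lit 94, nat_lit 383329594⟩, ⟨nat_lit 16, nat_lit 98, nat_lit 100, nat_lit 94, nat_lit 239075068⟩, ⟨nat_lit 7, nat_lit 94, nat_lit 100, nat_lit 92, nat_lit 256316973⟩, ⟨nat_lit 11, nat_lit 100, nat_lit 100, nat_lit 99, nat_lit 259251164⟩]⟩
noncomputable def p071_l6 : Lf2 := ⟨nat_lit 0, nat_lit 5, [nat_lit 4, nat_lit 5, nat_lit 5, nat_lit 20], false, nat_lit 240, nat_lit 308, nat_lit 160, nat_lit 312, ⟨nat_lit 1000, nat_lit 0, nat_lit 0, nat_lit 0, nat_lit 0, nat_lit 0, nat_lit 0, nat_lit 0, nat_lit 0, nat_lit 0, nat_lit 0, nat_lit 0, nat_lit 0, nat_lit 0, nat_lit 0, nat_lit 0, false, false⟩,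
 nat_lit 0, nat_lit 8715, nat_lit 0, nat_lit 0, nat_lit 5910, nat_lit 4943, nat_lit 3065, nat_lit 0, nat_lit 0, nat_lit 0, nat_lit 0, nat_lit 0, nat_lit 0, nat_lit 8989311638661, nat_lit 0, nat_lit 0, nat_lit 0, nat_lit 0, [],
 ⟨p071_k6, nat_lit 0, nat_lit 0, nat_lit 304, nat_lit 0, nat_lit 650919, [nat_lit 3282000000, nat_lit 6250000000], [], [nat_lit 19140130577, nat_lit 19300899402, nat_lit 19154523850, nat_lit 19329945749, nat_lit 22543953333, nat_lit 22699140247, nat_lit 22419041530, nat_lit 22567051553], nat_lit 1271250, nat_lit 1271250, nat_lit 517650, nat_lit 780000, nat_lit 1271250, nat_lit 1271250, [nat_lit 780000, nat_lit 1435000], [nat_lit 49, nat_lit 40, nat_lit 40, nat_lit 80, nat_lit 16, nat_lit 238, nat_lit 30, nat_lit 8]⟩, ⟨p071_k7, nat_lit 0, nat_lit 0, nat_lit 42, nat_lit 0, nat_lit 0, [nat_lit 3282000000, nat_lit 6250000000], [], [nat_lit 13296276601, nat_lit 14050404398, nat_lit 13544684754,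 nat_lit 14263835233, nat_lit 21753341384, nat_lit 22278412560, nat_lit 21644246458, nat_lit 22146997679], nat_lit 0, nat_lit 0, nat_lit 0, nat_lit 0, nat_lit 0, nat_lit 0, [], [nat_lit 49, nat_lit 40, nat_lit 40, nat_lit 80, nat_lit 16, nat_lit 345, nat_lit 125, nat_lit 13]⟩,
 zbF0, [⟨nat_lit 0, nat_lit 100, nat_lit 100, nat_lit 98, nat_lit 377607716⟩, ⟨nat_lit 16, nat_lit 100, nat_lit 97, nat_lit 98, nat_lit 249542222⟩, ⟨nat_lit 7, nat_lit 99, nat_lit 100, nat_lit 95, nat_lit 260344210⟩, ⟨nat_lit 11, nat_lit 99, nat_lit 99, nat_lit 100, nat_lit 236921984⟩]⟩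
noncomputable def p071_l7 : Lf2 := ⟨nat_lit 0, nat_lit 5, [nat_lit 4, nat_lit 5, nat_lit 5, nat_lit 20], false, nat_lit 240, nat_lit 304, nat_lit 160, nat_lit 312, ⟨nat_lit 1000, nat_lit 0, nat_lit 0, nat_lit 0, nat_lit 0, nat_lit 0, nat_lit 0, nat_lit 0, nat_lit 0, nat_lit 0, nat_lit 0, nat_lit 0, nat_lit 0, nat_lit 0, nat_lit 0, nat_lit 0, false, false⟩,
 nat_lit 0, nat_lit 8644, nat_lit 0, nat_lit 0, nat_lit 5935, nat_lit 4945, nat_lit 2500, nat_lit 0, nat_lit 0, nat_lit 0, nat_lit 0, nat_lit 0, nat_lit 0, nat_lit 8477259730280, nat_lit 0, nat_lit 0, nat_lit 0, nat_lit 0, [],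
 ⟨p071_k8, nat_lit 0, nat_lit 0, nat_lit 309, nat_lit 0, nat_lit 673907, [nat_lit 3282000000, nat_lit 6250000000], [], [nat_lit 19321096833, nat_lit 19427820417, nat_lit 19263429587, nat_lit 19365665120, nat_lit 22412650174, nat_lit 22516918021, nat_lit 22300649175, nat_lit 22400595808], nat_lit 1271250, nat_lit 1271250, nat_lit 545600, nat_lit 780000, nat_lit 1271250, nat_lit 1271250, [nat_lit 780000, nat_lit 1435000], [nat_lit 49, nat_lit 40, nat_lit 40, nat_lit 80, nat_lit 16, nat_lit 238, nat_lit 30, nat_lit 8]⟩, ⟨p071_k7, nat_lit 0, nat_lit 0, nat_lit 42, nat_lit 0, nat_lit 0, [nat_lit 3282000000, nat_lit 6250000000], [], [nat_lit 13321602682, nat_lit 14259628580, nat_lit 13542191710, nat_lit 14441341980, nat_lit 21740422657, nat_lit 22393795128, nat_lit 21643140670, nat_lit 22271705860], nat_lit 0, nat_lit 0, nat_lit 0, nat_lit 0, nat_lit 0, nat_lit 0, [], [nat_lit 49, nat_lit 40, nat_lit 40, nat_lit 80,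 nat_lit 16, nat_lit 345, nat_lit 125, nat_lit 13]⟩,
 zbF0, [⟨nat_lit 0, nat_lit 100, nat_lit 100, nat_lit 100, nat_lit 373809531⟩, ⟨nat_lit 16, nat_lit 100, nat_lit 99, nat_lit 99, nat_lit 243206487⟩, ⟨nat_lit 19, nat_lit 100, nat_lit 100, nat_lit 95, nat_lit 256501259⟩, ⟨nat_lit 11, nat_lit 98, nat_lit 98, nat_lit 100, nat_lit 241277138⟩]⟩
noncomputable def p071_l8 : Lf2 := ⟨nat_lit 0, nat_lit 5, [nat_lit 4, nat_lit 5, nat_lit 5, nat_lit 20], false, nat_lit 240, nat_lit 308, nat_lit 160, nat_lit 320, ⟨nat_lit 1000, nat_lit 0, nat_lit 0, nat_lit 0, nat_lit 0, nat_lit 0, nat_lit 0, nat_lit 0, nat_lit 0, nat_lit 0, nat_lit 0, nat_lit 0, nat_lit 0, nat_lit 0, nat_lit 0, nat_lit 0, false, false⟩,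
 nat_lit 0, nat_lit 8824, nat_lit 0, nat_lit 0, nat_lit 5984, nat_lit 5009, nat_lit 2614, nat_lit 0, nat_lit 0, nat_lit 0, nat_lit 0, nat_lit 0, nat_lit 0, nat_lit 0, nat_lit 0, nat_lit 0, nat_lit 0, nat_lit 0, [],
 ⟨p071_k5, nat_lit 0, nat_lit 0, nat_lit 303, nat_lit 0, nat_lit 685724, [nat_lit 3282000000, nat_lit 4688000000, nat_lit 6250000000], [], [nat_lit 18929677936, nat_lit 19205809672, nat_lit 19386152936, nat_lit 19662284672, nat_lit 22194332222, nat_lit 22442455883, nat_lit 22462885710, nat_lit 22695938208], nat_lit 1271250, nat_lit 1271250, nat_lit 780000, nat_lit 1100001, nat_lit 1271250, nat_lit 1271250, [nat_lit 780000, nat_lit 1100000, nat_lit 1442500], [nat_lit 59, nat_lit 40, nat_lit 40, nat_lit 80, nat_lit 3, nat_lit 249, nat_lit 40, nat_lit 8]⟩, ⟨p071_k4, nat_lit 0, nat_lit 0, nat_lit 43, nat_lit 0, nat_lit 0, [nat_lit 3282000000, nat_lit 4688000000, nat_lit 7968000000], [], [nat_lit 12556474528,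 nat_lit 14368354076, nat_lit 13534182492, nat_lit 15232812702, nat_lit 21498955056, nat_lit 22734191926, nat_lit 21920696300, nat_lit 23084455014], nat_lit 0, nat_lit 0, nat_lit 0, nat_lit 0, nat_lit 0, nat_lit 0, [], [nat_lit 36, nat_lit 40, nat_lit 40, nat_lit 80, nat_lit 7, nat_lit 345, nat_lit 125, nat_lit 11]⟩,
 zbF0, [⟨nat_lit 16, nat_lit 100, nat_lit 97, nat_lit 98, nat_lit 488858926⟩, ⟨nat_lit 7, nat_lit 97, nat_lit 100, nat_lit 94, nat_lit 516951244⟩]⟩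
noncomputable def p071_l9 : Lf2 := ⟨nat_lit 0, nat_lit 5, [nat_lit 4, nat_lit 5, nat_lit 5, nat_lit 20], false, nat_lit 240, nat_lit 328, nat_lit 160, nat_lit 336, ⟨nat_lit 1000, nat_lit 0, nat_lit 0, nat_lit 0, nat_lit 0, nat_lit 0, nat_lit 0, nat_lit 0, nat_lit 0, nat_lit 0, nat_lit 0, nat_lit 0, nat_lit 0, nat_lit 0, nat_lit 0, nat_lit 0, false, false⟩,
 nat_lit 0, nat_lit 8305, nat_lit 0, nat_lit 0, nat_lit 5515, nat_lit 4754, nat_lit 3351, nat_lit 0, nat_lit 0, nat_lit 0, nat_lit 0, nat_lit 0, nat_lit 0, nat_lit 0, nat_lit 0, nat_lit 0, nat_lit 0, nat_lit 0, [],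
 ⟨p071_k3, nat_lit 0, nat_lit 0, nat_lit 236, nat_lit 0, nat_lit 456812, [nat_lit 3282000000, nat_lit 4688000000, nat_lit 6250000000], [], [nat_lit 19444668348, nat_lit 19744040596, nat_lit 19366006570, nat_lit 19647647920, nat_lit 23914603440, nat_lit 24153068641, nat_lit 23574472812, nat_lit 23799386650], nat_lit 1271250, nat_lit 1271250, nat_lit 435600, nat_lit 780000, nat_lit 1271250, nat_lit 1271250, [nat_lit 780000, nat_lit 1100000, nat_lit 1442500], [nat_lit 59, nat_lit 40, nat_lit 40, nat_lit 80, nat_lit 3, nat_lit 238, nat_lit 30, nat_lit 8]⟩, ⟨p071_k4, nat_lit 0, nat_lit 0, nat_lit 67, nat_lit 0, nat_lit 0, [nat_lit 3282000000, nat_lit 4688000000, nat_lit 7968000000], [], [nat_lit 12648418068, nat_lit 13581942599, nat_lit 12901389568, nat_lit 13780277412, nat_lit 23155904159, nat_lit 23760583908, nat_lit 22851447368, nat_lit 23424719960], nat_lit 0, nat_lit 0, nat_lit 0, nat_lit 0, nat_lit 0, nat_lit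 0, [], [nat_lit 36, nat_lit 40, nat_lit 40, nat_lit 80, nat_lit 7, nat_lit 345, nat_lit 125, nat_lit 11]⟩,
 zbF0, [⟨nat_lit 0, nat_lit 100, nat_lit 99, nat_lit 92, nat_lit 124348101⟩, ⟨nat_lit 23, nat_lit 100, nat_lit 92, nat_lit 94, nat_lit 79024847⟩, ⟨nat_lit 11, nat_lit 100, nat_lit 100, nat_lit 98, nat_lit 436866692⟩]⟩
noncomputable def p071_l10 : Lf2 := ⟨nat_lit 0, nat_lit 5, [nat_lit 4, nat_lit 5, nat_lit 5, nat_lit 20], false, nat_lit 240, nat_lit 328, nat_lit 160, nat_lit 328, ⟨nat_lit 1000, nat_lit 0, nat_lit 0, nat_lit 0, nat_lit 0, nat_lit 0, nat_lit 0, nat_lit 0, nat_lit 0, nat_lit 0, nat_lit 0, nat_lit 0, nat_lit 0, nat_lit 0, nat_lit 0, nat_lit 0, false, false⟩,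
 nat_lit 0, nat_lit 8348, nat_lit 0, nat_lit 0, nat_lit 5543, nat_lit 4839, nat_lit 3399, nat_lit 0, nat_lit 0, nat_lit 0, nat_lit 0, nat_lit 0, nat_lit 0, nat_lit 0, nat_lit 0, nat_lit 0, nat_lit 0, nat_lit 0, [],
 ⟨p071_k3, nat_lit 0, nat_lit 0, nat_lit 246, nat_lit 0, nat_lit 502007, [nat_lit 3282000000, nat_lit 4688000000, nat_lit 6250000000], [], [nat_lit 19218341950, nat_lit 19515945090, nat_lit 19244120634, nat_lit 19526472904, nat_lit 23661821170, nat_lit 23898913879, nat_lit 23461989447, nat_lit 23687384628], nat_lit 1271250, nat_lit 1271250, nat_lit 490000, nat_lit 780000, nat_lit 1271250, nat_lit 1271250, [nat_lit 780000, nat_lit 1100000, nat_lit 1442500], [nat_lit 59, nat_lit 40, nat_lit 40, nat_lit 80, nat_lit 3, nat_lit 238, nat_lit 30, nat_lit 8]⟩, ⟨p071_k3, nat_lit 0, nat_lit 0, nat_lit 60, nat_lit 0, nat_lit 0, [nat_lit 3282000000, nat_lit 4688000000, nat_lit 6250000000], [], [nat_lit 13384129735,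 nat_lit 13851984041, nat_lit 13674323042, nat_lit 14118275619, nat_lit 22953050129, nat_lit 23263678878, nat_lit 22797763511, nat_lit 23094094775], nat_lit 0, nat_lit 0, nat_lit 0, nat_lit 0, nat_lit 0, nat_lit 0, [], [nat_lit 59, nat_lit 40, nat_lit 40, nat_lit 80, nat_lit 3, nat_lit 345, nat_lit 125, nat_lit 13]⟩,
 zbF0, [⟨nat_lit 0, nat_lit 100, nat_lit 100, nat_lit 95, nat_lit 98868200⟩, ⟨nat_lit 11, nat_lit 100, nat_lit 100, nat_lit 100, nat_lit 495002225⟩]⟩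
noncomputable def p071_l11 : Lf2 := ⟨nat_lit 0, nat_lit 5, [nat_lit 4, nat_lit 5, nat_lit 5, nat_lit 20], false, nat_lit 240, nat_lit 324, nat_lit 160, nat_lit 240, ⟨nat_lit 1000, nat_lit 0, nat_lit 0, nat_lit 0, nat_lit 0, nat_lit 0, nat_lit 0, nat_lit 0, nat_lit 0, nat_lit 0, nat_lit 0, nat_lit 0, nat_lit 0, nat_lit 0, nat_lit 0, nat_lit 0, false, false⟩,
 nat_lit 0, nat_lit 8487, nat_lit 0, nat_lit 0, nat_lit 5755, nat_lit 5524, nat_lit 2635, nat_lit 0, nat_lit 0, nat_lit 0, nat_lit 0, nat_lit 0, nat_lit 0, nat_lit 10528404206195, nat_lit 0, nat_lit 0, nat_lit 0, nat_lit 0, [],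
 ⟨p071_k5, nat_lit 0, nat_lit 0, nat_lit 271, nat_lit 0, nat_lit 573732, [nat_lit 3282000000, nat_lit 4688000000, nat_lit 6250000000], [], [nat_lit 19715936238, nat_lit 20000926018, nat_lit 19681549645, nat_lit 19952339040, nat_lit 23915572797, nat_lit 24236652194, nat_lit 23689908635, nat_lit 23923016279], nat_lit 1271250, nat_lit 1271250, nat_lit 462650, nat_lit 780000, nat_lit 1271250, nat_lit 1271250, [nat_lit 780000, nat_lit 1100000, nat_lit 1442500], [nat_lit 59, nat_lit 40, nat_lit 40, nat_lit 80, nat_lit 3, nat_lit 238, nat_lit 30, nat_lit 8]⟩, ⟨p071_k4, nat_lit 0, nat_lit 0, nat_lit 23, nat_lit 0, nat_lit 0, [nat_lit 3282000000, nat_lit 4688000000, nat_lit 7968000000], [], [nat_lit 11679441794, nat_lit 13714771460, nat_lit 11859881408, nat_lit 13781029536, nat_lit 15720241365, nat_lit 17623762286, nat_lit 15699164416, nat_lit 17320997896], nat_lit 0, nat_lit 0, nat_lit 0, nat_lit 0, nat_lit 0, nat_lit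 0, [], [nat_lit 36, nat_lit 40, nat_lit 40, nat_lit 80, nat_lit 7, nat_lit 317, nat_lit 100, nat_lit 10]⟩,
 zbF0, [⟨nat_lit 0, nat_lit 100, nat_lit 100, nat_lit 100, nat_lit 637504170⟩, ⟨nat_lit 16, nat_lit 96, nat_lit 86, nat_lit 100, nat_lit 501392814⟩]⟩
noncomputable def p071_l12 : Lf2 := ⟨nat_lit 0, nat_lit 5, [nat_lit 4, nat_lit 5, nat_lit 5, nat_lit 20], false, nat_lit 240, nat_lit 324, nat_lit 240, nat_lit 336, ⟨nat_lit 1000, nat_lit 0, nat_lit 0, nat_lit 0, nat_lit 0, nat_lit 0, nat_lit 0, nat_lit 0, nat_lit 0, nat_lit 0, nat_lit 0, nat_lit 0, nat_lit 0, nat_lit 0, nat_lit 0, nat_lit 0, false, false⟩,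
 nat_lit 0, nat_lit 8548, nat_lit 0, nat_lit 0, nat_lit 5796, nat_lit 4821, nat_lit 1801, nat_lit 0, nat_lit 0, nat_lit 0, nat_lit 0, nat_lit 0, nat_lit 0, nat_lit 1729830850295, nat_lit 0, nat_lit 0, nat_lit 0, nat_lit 0, [],
 ⟨p071_k5, nat_lit 0, nat_lit 0, nat_lit 173, nat_lit 0, nat_lit 320842, [nat_lit 3282000000, nat_lit 4688000000, nat_lit 6250000000], [], [nat_lit 19569527111, nat_lit 19875399721, nat_lit 19494930584, nat_lit 19791596344, nat_lit 23893112750, nat_lit 24274888882, nat_lit 23615773716, nat_lit 23854369762], nat_lit 1271250, nat_lit 1271250, nat_lit 462650, nat_lit 631250, nat_lit 1271250, nat_lit 1271250, [nat_lit 780000, nat_lit 1100000, nat_lit 1442500], [nat_lit 59, nat_lit 40, nat_lit 40, nat_lit 80, nat_lit 3, nat_lit 232, nat_lit 25, nat_lit 8]⟩, ⟨p071_k4, nat_lit 0, nat_lit 0, nat_lit 68, nat_lit 0, nat_lit 0, [nat_lit 3282000000, nat_lit 4688000000, nat_lit 7968000000], [], [nat_lit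 16359292830, nat_lit 17947006180, nat_lit 16382611490, nat_lit 17924979247, nat_lit 23060786346, nat_lit 24377819551, nat_lit 22899639999, nat_lit 24081248822], nat_lit 0, nat_lit 0, nat_lit 0, nat_lit 0, nat_lit 0, nat_lit 0, [], [nat_lit 36, nat_lit 40, nat_lit 40, nat_lit 80, nat_lit 7, nat_lit 232, nat_lit 25, nat_lit 7]⟩,
 zbF0, [⟨nat_lit 0, nat_lit 100, nat_lit 100, nat_lit 100, nat_lit 196518296⟩, ⟨nat_lit 19, nat_lit 100, nat_lit 90, nat_lit 100, nat_lit 45083538⟩, ⟨nat_lit 23, nat_lit 100, nat_lit 93, nat_lit 91, nat_lit 575235512⟩]⟩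
noncomputable def p071_l13 : Lf2 := ⟨nat_lit 0, nat_lit 5, [nat_lit 4, nat_lit 5, nat_lit 5, nat_lit 20], false, nat_lit 240, nat_lit 324, nat_lit 240, nat_lit 336, ⟨nat_lit 1000, nat_lit 0, nat_lit 0, nat_lit 0, nat_lit 0, nat_lit 0, nat_lit 0, nat_lit 0, nat_lit 0, nat_lit 0, nat_lit 0, nat_lit 0, nat_lit 0, nat_lit 0, nat_lit 0, nat_lit 0, false, false⟩,
 nat_lit 0, nat_lit 8932, nat_lit 0, nat_lit 0, nat_lit 6057, nat_lit 4821, nat_lit 1898, nat_lit 0, nat_lit 0, nat_lit 0, nat_lit 0, nat_lit 0, nat_lit 0, nat_lit 9771235013031, nat_lit 0, nat_lit 0, nat_lit 0, nat_lit 0, [],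
 ⟨p071_k6, nat_lit 0, nat_lit 0, nat_lit 154, nat_lit 0, nat_lit 320842, [nat_lit 3282000000, nat_lit 6250000000], [], [nat_lit 19325769615, nat_lit 19626115153, nat_lit 19300661639, nat_lit 19596178444, nat_lit 23754122483, nat_lit 24054677069, nat_lit 23618239171, nat_lit 23914289522], nat_lit 1271250, nat_lit 1271250, nat_lit 631250, nat_lit 719601, nat_lit 1271250, nat_lit 1271250, [nat_lit 780000, nat_lit 1435000], [nat_lit 49, nat_lit 40, nat_lit 40, nat_lit 80, nat_lit 16, nat_lit 238, nat_lit 30, nat_lit 8]⟩, ⟨p071_k9, nat_lit 0, nat_lit 0, nat_lit 49, nat_lit 0, nat_lit 0, [nat_lit 3282000000, nat_lit 7968000000], [], [nat_lit 16382611490, nat_lit 17924979247, nat_lit 16432649435, nat_lit 17951509440, nat_lit 22899639999, nat_lit 24081248822, nat_lit 22853723519, nat_lit 24018792378], nat_lit 0, nat_lit 0, nat_lit 0, nat_lit 0, nat_lit 0, nat_lit 0, [], [nat_lit 74, nat_lit 40, nat_lit 40, nat_lit 80,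 nat_lit 43, nat_lit 238, nat_lit 30, nat_lit 7]⟩,
 zbF0, [⟨nat_lit 19, nat_lit 100, nat_lit 90, nat_lit 100, nat_lit 59955954⟩, ⟨nat_lit 11, nat_lit 97, nat_lit 97, nat_lit 100, nat_lit 524321547⟩]⟩
noncomputable def p071_l14 : Lf2 := ⟨nat_lit 0, nat_lit 5, [nat_lit 4, nat_lit 5, nat_lit 5, nat_lit 20], false, nat_lit 240, nat_lit 324, nat_lit 240, nat_lit 336, ⟨nat_lit 1000, nat_lit 0, nat_lit 0, nat_lit 0, nat_lit 0, nat_lit 0, nat_lit 0, nat_lit 0, nat_lit 0, nat_lit 0, nat_lit 0, nat_lit 0, nat_lit 0, nat_lit 0, nat_lit 0, nat_lit 0, false, false⟩,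
 nat_lit 0, nat_lit 8243, nat_lit 0, nat_lit 0, nat_lit 5590, nat_lit 4873, nat_lit 3151, nat_lit 0, nat_lit 0, nat_lit 0, nat_lit 0, nat_lit 0, nat_lit 0, nat_lit 16309210772629, nat_lit 0, nat_lit 0, nat_lit 0, nat_lit 0, [],
 ⟨p071_k6, nat_lit 0, nat_lit 0, nat_lit 239, nat_lit 0, nat_lit 539147, [nat_lit 3282000000, nat_lit 6250000000], [], [nat_lit 18738912070, nat_lit 18909318126, nat_lit 18735691435, nat_lit 18924337724, nat_lit 23243419588, nat_lit 23400221102, nat_lit 23212394827, nat_lit 23367578479], nat_lit 1271250, nat_lit 1271250, nat_lit 719601, nat_lit 780000, nat_lit 1271250, nat_lit 1271250, [nat_lit 780000, nat_lit 1435000], [nat_lit 49, nat_lit 40, nat_lit 40, nat_lit 80, nat_lit 16, nat_lit 238, nat_lit 30, nat_lit 8]⟩, ⟨p071_k9, nat_lit 0, nat_lit 0, nat_lit 45, nat_lit 0, nat_lit 0, [nat_lit 3282000000, nat_lit 7968000000], [], [nat_lit 16377518328, nat_lit 17752503968, nat_lit 16409285632,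 nat_lit 17770053422, nat_lit 22833828494, nat_lit 23887703940, nat_lit 22801121316, nat_lit 23844996044], nat_lit 0, nat_lit 0, nat_lit 0, nat_lit 0, nat_lit 0, nat_lit 0, [], [nat_lit 74, nat_lit 40, nat_lit 40, nat_lit 80, nat_lit 43, nat_lit 238, nat_lit 30, nat_lit 7]⟩,
 zbF0, [⟨nat_lit 4, nat_lit 92, nat_lit 98, nat_lit 100, nat_lit 129616375⟩, ⟨nat_lit 7, nat_lit 89, nat_lit 100, nat_lit 100, nat_lit 182184836⟩, ⟨nat_lit 11, nat_lit 93, nat_lit 93, nat_lit 100, nat_lit 414270332⟩]⟩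
noncomputable def p071_l15 : Lf2 := ⟨nat_lit 0, nat_lit 5, [nat_lit 4, nat_lit 5, nat_lit 5, nat_lit 20], false, nat_lit 240, nat_lit 324, nat_lit 240, nat_lit 336, ⟨nat_lit 1000, nat_lit 0, nat_lit 0, nat_lit 0, nat_lit 0, nat_lit 0, nat_lit 0, nat_lit 0, nat_lit 0, nat_lit 0, nat_lit 0, nat_lit 0, nat_lit 0, nat_lit 0, nat_lit 0, nat_lit 0, false, false⟩,
 nat_lit 0, nat_lit 8501, nat_lit 0, nat_lit 0, nat_lit 5837, nat_lit 4862, nat_lit 2516, nat_lit 0, nat_lit 0, nat_lit 0, nat_lit 0, nat_lit 0, nat_lit 0, nat_lit 23185405132185, nat_lit 0, nat_lit 0, nat_lit 0, nat_lit 0, [],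
 ⟨p071_k8, nat_lit 0, nat_lit 0, nat_lit 246, nat_lit 0, nat_lit 563798, [nat_lit 3282000000, nat_lit 6250000000], [], [nat_lit 19575682904, nat_lit 19678213189, nat_lit 19568687664, nat_lit 19684884776, nat_lit 23622724934, nat_lit 23717557725, nat_lit 23586992631, nat_lit 23680825638], nat_lit 1271250, nat_lit 1271250, nat_lit 719601, nat_lit 780000, nat_lit 1271250, nat_lit 1271250, [nat_lit 780000, nat_lit 1435000], [nat_lit 49, nat_lit 40, nat_lit 40, nat_lit 80, nat_lit 16, nat_lit 238, nat_lit 30, nat_lit 8]⟩, ⟨p071_k9, nat_lit 0, nat_lit 0, nat_lit 46, nat_lit 0, nat_lit 0, [nat_lit 3282000000, nat_lit 7968000000], [], [nat_lit 16389180677, nat_lit 17915059423, nat_lit 16421284608, nat_lit 17931392348, nat_lit 22838037057, nat_lit 24007760882, nat_lit 22805773304, nat_lit 23964403256], nat_lit 0, nat_lit 0, nat_lit 0, nat_lit 0, nat_lit 0, nat_lit 0, [], [nat_lit 74, nat_lit 40, nat_lit 40, nat_lit 80,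 nat_lit 43, nat_lit 238, nat_lit 30, nat_lit 7]⟩,
 zbF0, [⟨nat_lit 4, nat_lit 93, nat_lit 97, nat_lit 100, nat_lit 130259026⟩, ⟨nat_lit 7, nat_lit 90, nat_lit 100, nat_lit 100, nat_lit 206170010⟩, ⟨nat_lit 11, nat_lit 93, nat_lit 93, nat_lit 100, nat_lit 386111754⟩]⟩
noncomputable def p071_l16 : Lf2 := ⟨nat_lit 0, nat_lit 5, [nat_lit 4, nat_lit 5, nat_lit 5, nat_lit 20], false, nat_lit 240, nat_lit 328, nat_lit 160, nat_lit 336, ⟨nat_lit 1000, nat_lit 0, nat_lit 0, nat_lit 0, nat_lit 0, nat_lit 0, nat_lit 0, nat_lit 0, nat_lit 0, nat_lit 0, nat_lit 0, nat_lit 0, nat_lit 0, nat_lit 0, nat_lit 0, nat_lit 0, false, false⟩,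
 nat_lit 0, nat_lit 8459, nat_lit 0, nat_lit 0, nat_lit 5617, nat_lit 4917, nat_lit 3449, nat_lit 0, nat_lit 0, nat_lit 0, nat_lit 0, nat_lit 0, nat_lit 0, nat_lit 0, nat_lit 0, nat_lit 0, nat_lit 0, nat_lit 0, [],
 ⟨p071_k3, nat_lit 0, nat_lit 0, nat_lit 230, nat_lit 0, nat_lit 502007, [nat_lit 3282000000, nat_lit 4688000000, nat_lit 6250000000], [], [nat_lit 18994527446, nat_lit 19278758576, nat_lit 19453471014, nat_lit 19720447652, nat_lit 23237245910, nat_lit 23463913215, nat_lit 23458742785, nat_lit 23685410090], nat_lit 1271250, nat_lit 1271250, nat_lit 780000, nat_lit 1100001, nat_lit 1271250, nat_lit 1271250, [nat_lit 780000, nat_lit 1100000, nat_lit 1442500], [nat_lit 59, nat_lit 40, nat_lit 40, nat_lit 80, nat_lit 3, nat_lit 249, nat_lit 40, nat_lit 8]⟩, ⟨p071_k4, nat_lit 0, nat_lit 0, nat_lit 50, nat_lit 0, nat_lit 0, [nat_lit 3282000000, nat_lit 4688000000, nat_lit 7968000000], [], [nat_lit 12680914464,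 nat_lit 14025184257, nat_lit 13660094796, nat_lit 14920633844, nat_lit 22782513364, nat_lit 23656101538, nat_lit 23144239104, nat_lit 23968072904], nat_lit 0, nat_lit 0, nat_lit 0, nat_lit 0, nat_lit 0, nat_lit 0, [], [nat_lit 36, nat_lit 40, nat_lit 40, nat_lit 80, nat_lit 7, nat_lit 345, nat_lit 125, nat_lit 11]⟩,
 zbF0, [⟨nat_lit 16, nat_lit 99, nat_lit 91, nat_lit 100, nat_lit 137744693⟩, ⟨nat_lit 7, nat_lit 88, nat_lit 100, nat_lit 99, nat_lit 156189718⟩, ⟨nat_lit 11, nat_lit 85, nat_lit 85, nat_lit 100, nat_lit 408700726⟩]⟩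
noncomputable def p071_l17 : Lf2 := ⟨nat_lit 0, nat_lit 5, [nat_lit 4, nat_lit 5, nat_lit 5, nat_lit 20], false, nat_lit 240, nat_lit 324, nat_lit 160, nat_lit 336, ⟨nat_lit 1000, nat_lit 0, nat_lit 0, nat_lit 0, nat_lit 0, nat_lit 0, nat_lit 0, nat_lit 0, nat_lit 0, nat_lit 0, nat_lit 0, nat_lit 0, nat_lit 0, nat_lit 0, nat_lit 0, nat_lit 0, false, false⟩,
 nat_lit 0, nat_lit 8637, nat_lit 0, nat_lit 0, nat_lit 5857, nat_lit 4890, nat_lit 3477, nat_lit 0, nat_lit 0, nat_lit 0, nat_lit 0, nat_lit 0, nat_lit 0, nat_lit 18134538155509, nat_lit 0, nat_lit 0, nat_lit 0, nat_lit 0, [],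
 ⟨p071_k5, nat_lit 0, nat_lit 0, nat_lit 254, nat_lit 0, nat_lit 573732, [nat_lit 3282000000, nat_lit 4688000000, nat_lit 6250000000], [], [nat_lit 19328674695, nat_lit 19619681736, nat_lit 19811427803, nat_lit 20084596756, nat_lit 23386812508, nat_lit 23621754750, nat_lit 23617894765, nat_lit 23838718000], nat_lit 1271250, nat_lit 1271250, nat_lit 780000, nat_lit 1100001, nat_lit 1271250, nat_lit 1271250, [nat_lit 780000, nat_lit 1100000, nat_lit 1442500], [nat_lit 59, nat_lit 40, nat_lit 40, nat_lit 80, nat_lit 3, nat_lit 249, nat_lit 40, nat_lit 8]⟩, ⟨p071_k4, nat_lit 0, nat_lit 0, nat_lit 52, nat_lit 0, nat_lit 0, [nat_lit 3282000000, nat_lit 4688000000, nat_lit 7968000000], [], [nat_lit 12717434880, nat_lit 14504065960, nat_lit 13697047320, nat_lit 15372509420, nat_lit 22793931880, nat_lit 23955694921, nat_lit 23158594745, nat_lit 24254288501], nat_lit 0, nat_lit 0, nat_lit 0, nat_lit 0, nat_lit 0, nat_lit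 0, [], [nat_lit 36, nat_lit 40, nat_lit 40, nat_lit 80, nat_lit 7, nat_lit 345, nat_lit 125, nat_lit 11]⟩,
 zbF0, [⟨nat_lit 4, nat_lit 93, nat_lit 98, nat_lit 100, nat_lit 168876349⟩, ⟨nat_lit 7, nat_lit 90, nat_lit 100, nat_lit 100, nat_lit 179230216⟩, ⟨nat_lit 11, nat_lit 85, nat_lit 85, nat_lit 100, nat_lit 373768928⟩]⟩
noncomputable def p071_l18 : Lf2 := ⟨nat_lit 0, nat_lit 10, [nat_lit 0, nat_lit 5, nat_lit 5, nat_lit 20], false, nat_lit 240, nat_lit 328, nat_lit 160, nat_lit 336, ⟨nat_lit 1000, nat_lit 0, nat_lit 0, nat_lit 0, nat_lit 0, nat_lit 0, nat_lit 0, nat_lit 0, nat_lit 0, nat_lit 0, nat_lit 0, nat_lit 0, nat_lit 0, nat_lit 0, nat_lit 0, nat_lit 0, false, false⟩,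
 nat_lit 0, nat_lit 9146, nat_lit 0, nat_lit 0, nat_lit 6074, nat_lit 4729, nat_lit 1494, nat_lit 0, nat_lit 0, nat_lit 0, nat_lit 0, nat_lit 0, nat_lit 0, nat_lit 0, nat_lit 0, nat_lit 0, nat_lit 0, nat_lit 0, [],
 ⟨p071_k0, nat_lit 0, nat_lit 0, nat_lit 191, nat_lit 0, nat_lit 301875, [nat_lit 3282000000, nat_lit 4688000000, nat_lit 7968000000], [], [nat_lit 20421540486, nat_lit 20689712600, nat_lit 20340637258, nat_lit 20577261043, nat_lit 24449810533, nat_lit 24698279914, nat_lit 24137232910, nat_lit 24357470955], nat_lit 1271250, nat_lit 1271250, nat_lit 435600, nat_lit 1100001, nat_lit 1271250, nat_lit 1271250, [nat_lit 780000, nat_lit 1100000, nat_lit 1785000], [nat_lit 36, nat_lit 40, nat_lit 40, nat_lit 80, nat_lit 7, nat_lit 249, nat_lit 40, nat_lit 7]⟩, ⟨p071_k1, nat_lit 0, nat_lit 0, nat_lit 69, nat_lit 0, nat_lit 0, [nat_lit 3282000000, nat_lit 4688000000, nat_lit 9842000000], [], [nat_lit 12677630148,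 nat_lit 14073615868, nat_lit 13917393852, nat_lit 15150481610, nat_lit 23159821671, nat_lit 24064567672, nat_lit 23244196899, nat_lit 24053662743], nat_lit 0, nat_lit 0, nat_lit 0, nat_lit 0, nat_lit 0, nat_lit 0, [], [nat_lit 42, nat_lit 40, nat_lit 40, nat_lit 80, nat_lit 13, nat_lit 345, nat_lit 125, nat_lit 10]⟩,
 zbF0, [⟨nat_lit 0, nat_lit 100, nat_lit 100, nat_lit 95, nat_lit 163637758⟩, ⟨nat_lit 16, nat_lit 100, nat_lit 95, nat_lit 98, nat_lit 100639621⟩, ⟨nat_lit 7, nat_lit 92, nat_lit 100, nat_lit 96, nat_lit 142807830⟩, ⟨nat_lit 11, nat_lit 93, nat_lit 93, nat_lit 100, nat_lit 403376185⟩]⟩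
noncomputable def p071_l19 : Lf2 := ⟨nat_lit 0, nat_lit 10, [nat_lit 0, nat_lit 5, nat_lit 5, nat_lit 20], false, nat_lit 240, nat_lit 324, nat_lit 160, nat_lit 336, ⟨nat_lit 1000, nat_lit 0, nat_lit 0, nat_lit 0, nat_lit 0, nat_lit 0, nat_lit 0, nat_lit 0, nat_lit 0, nat_lit 0, nat_lit 0, nat_lit 0, nat_lit 0, nat_lit 0, nat_lit 0, nat_lit 0, false, false⟩,
 nat_lit 0, nat_lit 8827, nat_lit 0, nat_lit 0, nat_lit 5986, nat_lit 4728, nat_lit 1415, nat_lit 0, nat_lit 0, nat_lit 0, nat_lit 0, nat_lit 0, nat_lit 0, nat_lit 0, nat_lit 0, nat_lit 0, nat_lit 0, nat_lit 0, [],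
 ⟨p071_k2, nat_lit 0, nat_lit 0, nat_lit 248, nat_lit 0, nat_lit 382708, [nat_lit 3282000000, nat_lit 4688000000, nat_lit 7968000000], [], [nat_lit 20529340955, nat_lit 20794483659, nat_lit 20518798627, nat_lit 20753868992, nat_lit 24187072503, nat_lit 24452130623, nat_lit 23755951721, nat_lit 23969051679], nat_lit 1271250, nat_lit 1271250, nat_lit 462650, nat_lit 1100001, nat_lit 1271250, nat_lit 1271250, [nat_lit 780000, nat_lit 1100000, nat_lit 1785000], [nat_lit 36, nat_lit 40, nat_lit 40, nat_lit 80, nat_lit 7, nat_lit 249, nat_lit 40, nat_lit 7]⟩, ⟨p071_k1, nat_lit 0, nat_lit 0, nat_lit 68, nat_lit 0, nat_lit 0, [nat_lit 3282000000, nat_lit 4688000000, nat_lit 9842000000], [], [nat_lit 12631524340, nat_lit 14485171463, nat_lit 13918762464, nat_lit 15562684784, nat_lit 23078365749, nat_lit 24280472427, nat_lit 23244728589, nat_lit 24323914481], nat_lit 0, nat_lit 0, nat_lit 0, nat_lit 0, nat_lit 0, nat_lit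 0, [], [nat_lit 42, nat_lit 40, nat_lit 40, nat_lit 80, nat_lit 13, nat_lit 345, nat_lit 125, nat_lit 10]⟩,
 zbF0, [⟨nat_lit 0, nat_lit 100, nat_lit 98, nat_lit 93, nat_lit 207493142⟩, ⟨nat_lit 4, nat_lit 98, nat_lit 100, nat_lit 99, nat_lit 146025042⟩, ⟨nat_lit 7, nat_lit 94, nat_lit 100, nat_lit 97, nat_lit 194385107⟩, ⟨nat_lit 11, nat_lit 92, nat_lit 92, nat_lit 100, nat_lit 345796724⟩]⟩
noncomputable def b_V_700_700_20_21 : St := ⟨true, nat_lit 1, nat_lit 0, nat_lit 1, nat_lit 120, nat_lit 290, nat_lit 300, nat_lit 280, nat_lit 300, nat_lit 64, nat_lit 160, nat_lit 80, nat_lit 120, nat_lit 160, nat_lit 336, nat_lit 160, nat_lit 336, nat_lit 0, nat_lit 40, nat_lit 0, nat_lit 0, nat_lit 0, nat_lit 0⟩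
theorem d_V_700_700_20_21 (h : EB TB.env) : Dead b_V_700_700_20_21 := chkB_sound0 h (T :=
(.trZ (nat_lit 0) (nat_lit 100) (nat_lit 97) (nat_lit 84) (nat_lit 72) (.trX (nat_lit 16) (nat_lit 97) (nat_lit 84) (nat_lit 100) (nat_lit 328) (.spl (nat_lit 4) (nat_lit 240)
(.spl (nat_lit 0) (nat_lit 295)
(.ord (.leaf p071_l0))
(.trZ (nat_lit 0) (nat_lit 100) (nat_lit 96) (nat_lit 86) (nat_lit 76) (.leaf p071_l1)))
(.spl (nat_lit 6) (nat_lit 20)
(.spl (nat_lit 3) (nat_lit 100)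
(.trX (nat_lit 16) (nat_lit 100) (nat_lit 94) (nat_lit 97) (nat_lit 312) (.trX (nat_lit 19) (nat_lit 100) (nat_lit 88) (nat_lit 94) (nat_lit 320) (.spl (nat_lit 0) (nat_lit 295)
(.ord (.spl (nat_lit 2) (nat_lit 120)
(.spl (nat_lit 2) (nat_lit 100)
(.leaf p071_l2)
(.leaf p071_l3))
(.leaf p071_l4)))
(.trZ (nat_lit 0) (nat_lit 100) (nat_lit 96) (nat_lit 86) (nat_lit 76) (.trX (nat_lit 16) (nat_lit 100) (nat_lit 97) (nat_lit 98) (nat_lit 308) (.spl (nat_lit 2) (nat_lit 120)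
(.spl (nat_lit 1) (nat_lit 290)
(.leaf p071_l5)
(.trZ (nat_lit 0) (nat_lit 100) (nat_lit 99) (nat_lit 92) (nat_lit 84) (.trX (nat_lit 19) (nat_lit 100) (nat_lit 94) (nat_lit 97) (nat_lit 312) (.spl (nat_lit 0) (nat_lit 298)
(.ord (.leaf p071_l6))
(.trZ (nat_lit 0) (nat_lit 100) (nat_lit 98) (nat_lit 93) (nat_lit 88) (.trX (nat_lit 16) (nat_lit 100) (nat_lit 99) (nat_lit 99) (nat_lit 304) (.leaf p071_l7)))))))
(.leaf p071_l8)))))))
(.spl (nat_lit 2) (nat_lit 120)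
(.spl (nat_lit 0) (nat_lit 295)
(.ord (.spl (nat_lit 1) (nat_lit 290)
(.leaf p071_l9)
(.trZ (nat_lit 0) (nat_lit 100) (nat_lit 100) (nat_lit 90) (nat_lit 80) (.trX (nat_lit 19) (nat_lit 97) (nat_lit 84) (nat_lit 100) (nat_lit 328) (.leaf p071_l10)))))
(.trZ (nat_lit 0) (nat_lit 100) (nat_lit 96) (nat_lit 86) (nat_lit 76) (.trX (nat_lit 16) (nat_lit 96) (nat_lit 86) (nat_lit 100) (nat_lit 324) (.spl (nat_lit 5) (nat_lit 240)
(.leaf p071_l11)
(.spl (nat_lit 2) (nat_lit 100)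
(.leaf p071_l12)
(.spl (nat_lit 2) (nat_lit 112)
(.leaf p071_l13)
(.spl (nat_lit 0) (nat_lit 298)
(.ord (.leaf p071_l14))
(.leaf p071_l15))))))))
(.spl (nat_lit 0) (nat_lit 295)
(.ord (.leaf p071_l16))
(.trX (nat_lit 16) (nat_lit 96) (nat_lit 86) (nat_lit 100) (nat_lit 324) (.leaf p071_l17)))))
(.spl (nat_lit 0) (nat_lit 295)
(.ord (.leaf p071_l18))
(.trZ (nat_lit 0) (nat_lit 100) (nat_lit 96) (nat_lit 86) (nat_lit 76) (.trX (nat_lit 16) (nat_lit 96) (nat_lit 86) (nat_lit 100) (nat_lit 324) (.leaf p071_l19))))))))) (by decide +kernel)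
noncomputable def p071_l20 : Lf2 := ⟨nat_lit 0, nat_lit 5, [nat_lit 4, nat_lit 5, nat_lit 5, nat_lit 20], false, nat_lit 160, nat_lit 240, nat_lit 160, nat_lit 336, ⟨nat_lit 1000, nat_lit 0, nat_lit 0, nat_lit 0, nat_lit 0, nat_lit 0, nat_lit 0, nat_lit 0, nat_lit 0, nat_lit 0, nat_lit 0, nat_lit 0, nat_lit 0, nat_lit 0, nat_lit 0, nat_lit 0, false, false⟩,
 nat_lit 0, nat_lit 9351, nat_lit 0, nat_lit 0, nat_lit 6473, nat_lit 4859, nat_lit 2119, nat_lit 0, nat_lit 0, nat_lit 0, nat_lit 0, nat_lit 0, nat_lit 0, nat_lit 0, nat_lit 0, nat_lit 0, nat_lit 0, nat_lit 0, [],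
 ⟨p071_k10, nat_lit 0, nat_lit 0, nat_lit 382, nat_lit 0, nat_lit 858776, [nat_lit 3282000000, nat_lit 4688000000, nat_lit 6250000000], [], [nat_lit 18912719750, nat_lit 17571011564, nat_lit 16869733298, nat_lit 18054512696, nat_lit 18723530516, nat_lit 19862321072, nat_lit 20876965256, nat_lit 20024918180], nat_lit 1271250, nat_lit 1271250, nat_lit 490000, nat_lit 1100001, nat_lit 1100001, nat_lit 1785000, [nat_lit 780000, nat_lit 1100000, nat_lit 1442500], [nat_lit 59, nat_lit 40, nat_lit 40, nat_lit 80, nat_lit 3, nat_lit 317, nat_lit 100, nat_lit 11]⟩, ⟨p071_k4, nat_lit 0, nat_lit 0, nat_lit 66, nat_lit 0, nat_lit 0, [nat_lit 3282000000, nat_lit 4688000000, nat_lit 7968000000], [], [nat_lit 12423947444, nat_lit 14299906626, nat_lit 13739474292, nat_lit 15408901002, nat_lit 22967756120, nat_lit 24298815094, nat_lit 23175077147, nat_lit 24267611990], nat_lit 0, nat_lit 0, nat_lit 0, nat_lit 0, nat_lit 0, nat_lit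 0, [], [nat_lit 36, nat_lit 40, nat_lit 40, nat_lit 80, nat_lit 7, nat_lit 345, nat_lit 125, nat_lit 11]⟩,
 zbF0, [⟨nat_lit 0, nat_lit 100, nat_lit 94, nat_lit 97, nat_lit 567052445⟩, ⟨nat_lit 19, nat_lit 100, nat_lit 94, nat_lit 97, nat_lit 482940829⟩, ⟨nat_lit 19, nat_lit 100, nat_lit 80, nat_lit 100, nat_lit 26412174⟩]⟩
noncomputable def p071_l21 : Lf2 := ⟨nat_lit 0, nat_lit 5, [nat_lit 4, nat_lit 5, nat_lit 5, nat_lit 20], false, nat_lit 240, nat_lit 320, nat_lit 160, nat_lit 336, ⟨nat_lit 1000, nat_lit 0, nat_lit 0, nat_lit 0, nat_lit 0, nat_lit 0, nat_lit 0, nat_lit 0, nat_lit 0, nat_lit 0, nat_lit 0, nat_lit 0, nat_lit 0, nat_lit 0, nat_lit 0, nat_lit 0, false, false⟩,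
 nat_lit 0, nat_lit 3309, nat_lit 0, nat_lit 0, nat_lit 2290, nat_lit 4859, nat_lit 998, nat_lit 0, nat_lit 286, nat_lit 0, nat_lit 0, nat_lit 0, nat_lit 0, nat_lit 0, nat_lit 0, nat_lit 0, nat_lit 0, nat_lit 0, [],
 ⟨p071_k10, nat_lit 0, nat_lit 0, nat_lit 0, nat_lit 0, nat_lit 858776, [nat_lit 3282000000, nat_lit 4688000000, nat_lit 6250000000], [], [nat_lit 17062205340, nat_lit 17873353960, nat_lit 17531813320, nat_lit 18317799000, nat_lit 20751683920, nat_lit 21775739320, nat_lit 21046690580, nat_lit 22031850280], nat_lit 1271250, nat_lit 1271250, nat_lit 490000, nat_lit 780000, nat_lit 1271250, nat_lit 1271250, [nat_lit 780000, nat_lit 1100000, nat_lit 1442500], [nat_lit 59, nat_lit 40, nat_lit 40, nat_lit 80]⟩, ⟨p071_k4, nat_lit 0, nat_lit 0, nat_lit 66, nat_lit 0, nat_lit 0, [nat_lit 3282000000, nat_lit 4688000000, nat_lit 7968000000], [], [nat_lit 12423947444, nat_lit 14299906626, nat_lit 12759365728,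 nat_lit 14539419476, nat_lit 22967756120, nat_lit 24298815094, nat_lit 22807042028, nat_lit 23965336292], nat_lit 0, nat_lit 0, nat_lit 0, nat_lit 0, nat_lit 0, nat_lit 0, [], [nat_lit 36, nat_lit 40, nat_lit 40, nat_lit 80, nat_lit 7, nat_lit 345, nat_lit 125, nat_lit 11]⟩,
 zbF0, [⟨nat_lit 0, nat_lit 100, nat_lit 94, nat_lit 97, nat_lit 177421294⟩, ⟨nat_lit 19, nat_lit 100, nat_lit 80, nat_lit 100, nat_lit 105325538⟩, ⟨nat_lit 23, nat_lit 100, nat_lit 88, nat_lit 94, nat_lit 417217900⟩]⟩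
noncomputable def p071_l22 : Lf2 := ⟨nat_lit 0, nat_lit 5, [nat_lit 4, nat_lit 5, nat_lit 5, nat_lit 20], false, nat_lit 240, nat_lit 320, nat_lit 160, nat_lit 336, ⟨nat_lit 1000, nat_lit 0, nat_lit 0, nat_lit 0, nat_lit 0, nat_lit 0, nat_lit 0, nat_lit 0, nat_lit 0, nat_lit 0, nat_lit 0, nat_lit 0, nat_lit 0, nat_lit 0, nat_lit 0, nat_lit 0, false, false⟩,
 nat_lit 0, nat_lit 2245, nat_lit 0, nat_lit 0, nat_lit 1554, nat_lit 4999, nat_lit 650, nat_lit 0, nat_lit 323, nat_lit 0, nat_lit 0, nat_lit 0, nat_lit 0, nat_lit 0, nat_lit 0, nat_lit 0, nat_lit 0, nat_lit 0, [],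
 ⟨p071_k10, nat_lit 0, nat_lit 0, nat_lit 0, nat_lit 0, nat_lit 858776, [nat_lit 3282000000, nat_lit 4688000000, nat_lit 6250000000], [], [nat_lit 18387708962, nat_lit 19077408534, nat_lit 19102018956, nat_lit 19764653176, nat_lit 20825226692, nat_lit 21472981928, nat_lit 21452671040, nat_lit 22166111032], nat_lit 1271250, nat_lit 1271250, nat_lit 780000, nat_lit 1100001, nat_lit 1271250, nat_lit 1271250, [nat_lit 780000, nat_lit 1100000, nat_lit 1442500], [nat_lit 59, nat_lit 40, nat_lit 40, nat_lit 80]⟩, ⟨p071_k4, nat_lit 0, nat_lit 0, nat_lit 52, nat_lit 0, nat_lit 0, [nat_lit 3282000000, nat_lit 4688000000, nat_lit 7968000000], [], [nat_lit 12570000608, nat_lit 14379758436, nat_lit 13547868612, nat_lit 15244551922, nat_lit 22747834908, nat_lit 24038593170, nat_lit 23100640491, nat_lit 24266824644], nat_lit 0, nat_lit 0, nat_lit 0, nat_lit 0, nat_lit 0, nat_lit 0, [], [nat_lit 36, nat_lit 40, nat_lit 40, nat_lit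 80, nat_lit 7, nat_lit 345, nat_lit 125, nat_lit 11]⟩,
 zbF0, [⟨nat_lit 19, nat_lit 100, nat_lit 80, nat_lit 100, nat_lit 185452312⟩, ⟨nat_lit 23, nat_lit 96, nat_lit 69, nat_lit 100, nat_lit 317237231⟩, ⟨nat_lit 11, nat_lit 85, nat_lit 85, nat_lit 100, nat_lit 15081090⟩]⟩
noncomputable def p071_l23 : Lf2 := ⟨nat_lit 0, nat_lit 5, [nat_lit 4, nat_lit 5, nat_lit 5, nat_lit 20], false, nat_lit 240, nat_lit 300, nat_lit 160, nat_lit 320, ⟨nat_lit 1000, nat_lit 0, nat_lit 0, nat_lit 0, nat_lit 0, nat_lit 0, nat_lit 0, nat_lit 0, nat_lit 0, nat_lit 0, nat_lit 0, nat_lit 0, nat_lit 0, nat_lit 0, nat_lit 0, nat_lit 0, false, false⟩,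
 nat_lit 0, nat_lit 9611, nat_lit 0, nat_lit 0, nat_lit 6653, nat_lit 4870, nat_lit 3800, nat_lit 0, nat_lit 0, nat_lit 0, nat_lit 0, nat_lit 0, nat_lit 0, nat_lit 0, nat_lit 0, nat_lit 0, nat_lit 0, nat_lit 0, [],
 ⟨p071_k10, nat_lit 0, nat_lit 0, nat_lit 326, nat_lit 0, nat_lit 706874, [nat_lit 3282000000, nat_lit 4688000000, nat_lit 6250000000], [], [nat_lit 17095342258, nat_lit 17424569881, nat_lit 17437664324, nat_lit 17729403161, nat_lit 20266705899, nat_lit 20548709305, nat_lit 20242358677, nat_lit 20492651191], nat_lit 1271250, nat_lit 1271250, nat_lit 490000, nat_lit 1100001, nat_lit 1271250, nat_lit 1271250, [nat_lit 780000, nat_lit 1100000, nat_lit 1442500], [nat_lit 59, nat_lit 40, nat_lit 40, nat_lit 80, nat_lit 3, nat_lit 249, nat_lit 40, nat_lit 8]⟩, ⟨p071_k4, nat_lit 0, nat_lit 0, nat_lit 57, nat_lit 0, nat_lit 0, [nat_lit 3282000000, nat_lit 4688000000, nat_lit 7968000000], [], [nat_lit 12410486920,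 nat_lit 14288944180, nat_lit 13724419560, nat_lit 15395987860, nat_lit 21679903600, nat_lit 22957634760, nat_lit 22012617000, nat_lit 23160982020], nat_lit 0, nat_lit 0, nat_lit 0, nat_lit 0, nat_lit 0, nat_lit 0, [], [nat_lit 36, nat_lit 40, nat_lit 40, nat_lit 80, nat_lit 7, nat_lit 345, nat_lit 125, nat_lit 11]⟩,
 zbF0, [⟨nat_lit 0, nat_lit 100, nat_lit 96, nat_lit 95, nat_lit 511405520⟩, ⟨nat_lit 16, nat_lit 100, nat_lit 100, nat_lit 100, nat_lit 412100715⟩, ⟨nat_lit 19, nat_lit 100, nat_lit 97, nat_lit 94, nat_lit 436023257⟩, ⟨nat_lit 11, nat_lit 91, nat_lit 91, nat_lit 100, nat_lit 62969322⟩]⟩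
noncomputable def p071_l24 : Lf2 := ⟨nat_lit 0, nat_lit 5, [nat_lit 4, nat_lit 5, nat_lit 5, nat_lit 20], false, nat_lit 240, nat_lit 296, nat_lit 160, nat_lit 320, ⟨nat_lit 1000, nat_lit 0, nat_lit 0, nat_lit 0, nat_lit 0, nat_lit 0, nat_lit 0, nat_lit 0, nat_lit 0, nat_lit 0, nat_lit 0, nat_lit 0, nat_lit 0, nat_lit 0, nat_lit 0, nat_lit 0, false, false⟩,
 nat_lit 0, nat_lit 9727, nat_lit 0, nat_lit 0, nat_lit 6872, nat_lit 4983, nat_lit 2290, nat_lit 0, nat_lit 0, nat_lit 0, nat_lit 0, nat_lit 0, nat_lit 0, nat_lit 0, nat_lit 0, nat_lit 0, nat_lit 0, nat_lit 0, [],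
 ⟨p071_k11, nat_lit 0, nat_lit 0, nat_lit 332, nat_lit 0, nat_lit 727357, [nat_lit 3282000000, nat_lit 4688000000, nat_lit 6250000000], [], [nat_lit 17491097036, nat_lit 17783428700, nat_lit 17682749924, nat_lit 17942998456, nat_lit 20079268072, nat_lit 20332990609, nat_lit 19978966059, nat_lit 20208441449], nat_lit 1271250, nat_lit 1271250, nat_lit 517650, nat_lit 1100001, nat_lit 1271250, nat_lit 1271250, [nat_lit 780000, nat_lit 1100000, nat_lit 1442500], [nat_lit 59, nat_lit 40, nat_lit 40, nat_lit 80, nat_lit 3, nat_lit 249, nat_lit 40, nat_lit 8]⟩, ⟨p071_k4, nat_lit 0, nat_lit 0, nat_lit 56, nat_lit 0, nat_lit 0, [nat_lit 3282000000, nat_lit 4688000000, nat_lit 7968000000], [], [nat_lit 12304153799, nat_lit 14198497507, nat_lit 13569766404, nat_lit 15263334674, nat_lit 21625550544, nat_lit 23020207803, nat_lit 21937890100, nat_lit 23098769418], nat_lit 0, nat_lit 0, nat_lit 0, nat_lit 0, nat_lit 0, nat_lit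 0, [], [nat_lit 36, nat_lit 40, nat_lit 40, nat_lit 80, nat_lit 7, nat_lit 345, nat_lit 125, nat_lit 11]⟩,
 zbF0, [⟨nat_lit 0, nat_lit 100, nat_lit 94, nat_lit 96, nat_lit 540433793⟩, ⟨nat_lit 16, nat_lit 97, nat_lit 100, nat_lit 98, nat_lit 415167948⟩, ⟨nat_lit 19, nat_lit 100, nat_lit 97, nat_lit 94, nat_lit 237069128⟩, ⟨nat_lit 19, nat_lit 100, nat_lit 88, nat_lit 94, nat_lit 213339384⟩, ⟨nat_lit 11, nat_lit 91, nat_lit 91, nat_lit 100, nat_lit 50523720⟩]⟩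
noncomputable def p071_l25 : Lf2 := ⟨nat_lit 0, nat_lit 5, [nat_lit 4, nat_lit 5, nat_lit 5, nat_lit 20], false, nat_lit 240, nat_lit 320, nat_lit 160, nat_lit 240, ⟨nat_lit 1000, nat_lit 0, nat_lit 0, nat_lit 0, nat_lit 0, nat_lit 0, nat_lit 0, nat_lit 0, nat_lit 0, nat_lit 0, nat_lit 0, nat_lit 0, nat_lit 0, nat_lit 0, nat_lit 0, nat_lit 0, false, false⟩,
 nat_lit 0, nat_lit 8935, nat_lit 0, nat_lit 0, nat_lit 6185, nat_lit 5524, nat_lit 2223, nat_lit 0, nat_lit 0, nat_lit 0, nat_lit 0, nat_lit 0, nat_lit 0, nat_lit 0, nat_lit 0, nat_lit 0, nat_lit 0, nat_lit 0, [],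
 ⟨p071_k12, nat_lit 0, nat_lit 0, nat_lit 306, nat_lit 0, nat_lit 639325, [nat_lit 3282000000, nat_lit 6250000000], [], [nat_lit 18663838365, nat_lit 19214343345, nat_lit 18550906245, nat_lit 19149233690, nat_lit 22642415240, nat_lit 23365694170, nat_lit 22415830790, nat_lit 22903670865], nat_lit 1271250, nat_lit 1271250, nat_lit 490000, nat_lit 780000, nat_lit 1271250, nat_lit 1271250, [nat_lit 780000, nat_lit 1435000], [nat_lit 49, nat_lit 40, nat_lit 40, nat_lit 80, nat_lit 16, nat_lit 238, nat_lit 30, nat_lit 8]⟩, ⟨p071_k9, nat_lit 0, nat_lit 0, nat_lit 16, nat_lit 0, nat_lit 0, [nat_lit 3282000000, nat_lit 7968000000], [], [nat_lit 11610197584, nat_lit 13637176936, nat_lit 11859881408, nat_lit 13781029536, nat_lit 15639938704, nat_lit 17503386976, nat_lit 15699164416, nat_lit 17320997896], nat_lit 0, nat_lit 0, nat_lit 0, nat_lit 0, nat_lit 0, nat_lit 0, [], [nat_lit 74, nat_lit 40, nat_lit 40, nat_lit 80,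 nat_lit 43, nat_lit 317, nat_lit 100, nat_lit 10]⟩,
 zbF0, [⟨nat_lit 0, nat_lit 100, nat_lit 95, nat_lit 95, nat_lit 655551843⟩, ⟨nat_lit 16, nat_lit 94, nat_lit 88, nat_lit 100, nat_lit 516596824⟩]⟩
noncomputable def p071_l26 : Lf2 := ⟨nat_lit 0, nat_lit 2, [nat_lit 10, nat_lit 5, nat_lit 5, nat_lit 20], false, nat_lit 240, nat_lit 320, nat_lit 240, nat_lit 336, ⟨nat_lit 1000, nat_lit 0, nat_lit 0, nat_lit 0, nat_lit 0, nat_lit 0, nat_lit 0, nat_lit 0, nat_lit 0, nat_lit 0, nat_lit 0, nat_lit 0, nat_lit 0, nat_lit 0, nat_lit 0, nat_lit 0, false, false⟩,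
 nat_lit 0, nat_lit 8514, nat_lit 0, nat_lit 0, nat_lit 5894, nat_lit 4806, nat_lit 2062, nat_lit 0, nat_lit 0, nat_lit 0, nat_lit 0, nat_lit 0, nat_lit 0, nat_lit 0, nat_lit 0, nat_lit 0, nat_lit 0, nat_lit 0, [],
 ⟨p071_k13, nat_lit 0, nat_lit 0, nat_lit 201, nat_lit 0, nat_lit 488025, [nat_lit 3282000000, nat_lit 4688000000], [], [nat_lit 18262623556, nat_lit 18459270474, nat_lit 18276564424, nat_lit 18475126513, nat_lit 22753904140, nat_lit 22923467751, nat_lit 22547579824, nat_lit 22708605472], nat_lit 1271250, nat_lit 1271250, nat_lit 490000, nat_lit 780000, nat_lit 1271250, nat_lit 1271250, [nat_lit 780000, nat_lit 1100000], [nat_lit 40, nat_lit 40, nat_lit 40, nat_lit 80, nat_lit 22, nat_lit 238, nat_lit 30, nat_lit 10]⟩, ⟨p071_k14, nat_lit 0, nat_lit 0, nat_lit 52, nat_lit 0, nat_lit 0, [nat_lit 3282000000, nat_lit 6250000000], [], [nat_lit 16313281976, nat_lit 17102699168, nat_lit 16482370304, nat_lit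 17232698614, nat_lit 22979487733, nat_lit 23583174738, nat_lit 22829456152, nat_lit 23405638041], nat_lit 0, nat_lit 0, nat_lit 0, nat_lit 0, nat_lit 0, nat_lit 0, [], [nat_lit 49, nat_lit 40, nat_lit 40, nat_lit 80, nat_lit 16, nat_lit 238, nat_lit 30, nat_lit 8]⟩,
 zbF0, [⟨nat_lit 0, nat_lit 100, nat_lit 96, nat_lit 95, nat_lit 55048011⟩, ⟨nat_lit 23, nat_lit 100, nat_lit 88, nat_lit 94, nat_lit 411312066⟩, ⟨nat_lit 11, nat_lit 100, nat_lit 100, nat_lit 100, nat_lit 182782576⟩]⟩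
noncomputable def p071_l27 : Lf2 := ⟨nat_lit 0, nat_lit 2, [nat_lit 10, nat_lit 5, nat_lit 5, nat_lit 20], false, nat_lit 240, nat_lit 320, nat_lit 240, nat_lit 328, ⟨nat_lit 1000, nat_lit 0, nat_lit 0, nat_lit 0, nat_lit 0, nat_lit 0, nat_lit 0, nat_lit 0, nat_lit 0, nat_lit 0, nat_lit 0, nat_lit 0, nat_lit 0, nat_lit 0, nat_lit 0, nat_lit 0, false, false⟩,
 nat_lit 0, nat_lit 8922, nat_lit 0, nat_lit 0, nat_lit 6176, nat_lit 4838, nat_lit 1936, nat_lit 0, nat_lit 0, nat_lit 0, nat_lit 0, nat_lit 0, nat_lit 0, nat_lit 0, nat_lit 0, nat_lit 0, nat_lit 0, nat_lit 0, [],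
 ⟨p071_k13, nat_lit 0, nat_lit 0, nat_lit 226, nat_lit 0, nat_lit 571389, [nat_lit 3282000000, nat_lit 4688000000], [], [nat_lit 18632572199, nat_lit 18808452103, nat_lit 18590628608, nat_lit 18759218941, nat_lit 22622738001, nat_lit 22775185154, nat_lit 22442599184, nat_lit 22588702153], nat_lit 1271250, nat_lit 1271250, nat_lit 545600, nat_lit 780000, nat_lit 1271250, nat_lit 1271250, [nat_lit 780000, nat_lit 1100000], [nat_lit 40, nat_lit 40, nat_lit 40, nat_lit 80, nat_lit 22, nat_lit 238, nat_lit 30, nat_lit 9]⟩, ⟨p071_k15, nat_lit 0, nat_lit 0, nat_lit 49, nat_lit 0, nat_lit 0, [nat_lit 3282000000, nat_lit 6250000000], [], [nat_lit 17100565176, nat_lit 17885019715, nat_lit 17200492822, nat_lit 17953521452, nat_lit 22922266588, nat_lit 23537743352, nat_lit 22798198241, nat_lit 23390802439], nat_lit 0, nat_lit 0, nat_lit 0, nat_lit 0, nat_lit 0, nat_lit 0, [], [nat_lit 49, nat_lit 40, nat_lit 40, nat_lit 80,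 nat_lit 16, nat_lit 238, nat_lit 30, nat_lit 8]⟩,
 zbF0, [⟨nat_lit 0, nat_lit 99, nat_lit 98, nat_lit 100, nat_lit 288757202⟩, ⟨nat_lit 4, nat_lit 94, nat_lit 96, nat_lit 100, nat_lit 144397453⟩, ⟨nat_lit 7, nat_lit 92, nat_lit 99, nat_lit 100, nat_lit 212291226⟩, ⟨nat_lit 11, nat_lit 98, nat_lit 98, nat_lit 100, nat_lit 351768352⟩]⟩
noncomputable def p071_l28 : Lf2 := ⟨nat_lit 0, nat_lit 2, [nat_lit 10, nat_lit 5, nat_lit 5, nat_lit 20], false, nat_lit 240, nat_lit 316, nat_lit 240, nat_lit 336, ⟨nat_lit 1000, nat_lit 0, nat_lit 0, nat_lit 0, nat_lit 0, nat_lit 0, nat_lit 0, nat_lit 0, nat_lit 0, nat_lit 0, nat_lit 0, nat_lit 0, nat_lit 0, nat_lit 0, nat_lit 0, nat_lit 0, false, false⟩,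
 nat_lit 0, nat_lit 9379, nat_lit 0, nat_lit 0, nat_lit 6572, nat_lit 4767, nat_lit 1699, nat_lit 0, nat_lit 0, nat_lit 0, nat_lit 0, nat_lit 0, nat_lit 0, nat_lit 0, nat_lit 0, nat_lit 0, nat_lit 0, nat_lit 0, [],
 ⟨p071_k16, nat_lit 0, nat_lit 0, nat_lit 232, nat_lit 0, nat_lit 577396, [nat_lit 3282000000, nat_lit 4688000000], [], [nat_lit 17537996972, nat_lit 17668082994, nat_lit 17474308158, nat_lit 17598064892, nat_lit 21531945014, nat_lit 21667271792, nat_lit 21218207916, nat_lit 21319690521], nat_lit 1271250, nat_lit 1271250, nat_lit 517650, nat_lit 780000, nat_lit 1271250, nat_lit 1271250, [nat_lit 780000, nat_lit 1100000], [nat_lit 40, nat_lit 40, nat_lit 40, nat_lit 80, nat_lit 22, nat_lit 238, nat_lit 30, nat_lit 9]⟩, ⟨p071_k14, nat_lit 0, nat_lit 0, nat_lit 54, nat_lit 0, nat_lit 0, [nat_lit 3282000000, nat_lit 6250000000], [], [nat_lit 16367361912, nat_lit 17931371990, nat_lit 16524912128, nat_lit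 18018986718, nat_lit 22973903344, nat_lit 24171124607, nat_lit 22845949564, nat_lit 23993949396], nat_lit 0, nat_lit 0, nat_lit 0, nat_lit 0, nat_lit 0, nat_lit 0, [], [nat_lit 49, nat_lit 40, nat_lit 40, nat_lit 80, nat_lit 16, nat_lit 238, nat_lit 30, nat_lit 8]⟩,
 zbF0, [⟨nat_lit 0, nat_lit 98, nat_lit 97, nat_lit 100, nat_lit 327807968⟩, ⟨nat_lit 4, nat_lit 95, nat_lit 96, nat_lit 100, nat_lit 163719682⟩, ⟨nat_lit 7, nat_lit 90, nat_lit 100, nat_lit 100, nat_lit 228383105⟩, ⟨nat_lit 11, nat_lit 99, nat_lit 99, nat_lit 100, nat_lit 334055803⟩]⟩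
noncomputable def p071_l29 : Lf2 := ⟨nat_lit 0, nat_lit 2, [nat_lit 10, nat_lit 5, nat_lit 5, nat_lit 20], false, nat_lit 240, nat_lit 316, nat_lit 240, nat_lit 336, ⟨nat_lit 1000, nat_lit 0, nat_lit 0, nat_lit 0, nat_lit 0, nat_lit 0, nat_lit 0, nat_lit 0, nat_lit 0, nat_lit 0, nat_lit 0, nat_lit 0, nat_lit 0, nat_lit 0, nat_lit 0, nat_lit 0, false, false⟩,
 nat_lit 0, nat_lit 9266, nat_lit 0, nat_lit 0, nat_lit 6547, nat_lit 4890, nat_lit 1515, nat_lit 0, nat_lit 0, nat_lit 0, nat_lit 0, nat_lit 0, nat_lit 0, nat_lit 0, nat_lit 0, nat_lit 0, nat_lit 0, nat_lit 0, [],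
 ⟨p071_k17, nat_lit 0, nat_lit 0, nat_lit 243, nat_lit 0, nat_lit 594655, [nat_lit 3282000000, nat_lit 4688000000], [], [nat_lit 17797871616, nat_lit 17980279096, nat_lit 17691083114, nat_lit 17864642692, nat_lit 21697375511, nat_lit 21899938768, nat_lit 21393936326, nat_lit 21545879311], nat_lit 1271250, nat_lit 1271250, nat_lit 517650, nat_lit 780000, nat_lit 1271250, nat_lit 1271250, [nat_lit 780000, nat_lit 1100000], [nat_lit 40, nat_lit 40, nat_lit 40, nat_lit 80, nat_lit 22, nat_lit 238, nat_lit 30, nat_lit 9]⟩, ⟨p071_k14, nat_lit 0, nat_lit 0, nat_lit 54, nat_lit 0, nat_lit 0, [nat_lit 3282000000, nat_lit 6250000000], [], [nat_lit 16250129973, nat_lit 17836237566, nat_lit 16390741760, nat_lit 17905575060, nat_lit 22962644536, nat_lit 24292673181, nat_lit 22793931880, nat_lit 23955694921], nat_lit 0, nat_lit 0, nat_lit 0, nat_lit 0, nat_lit 0, nat_lit 0, [], [nat_lit 49, nat_lit 40, nat_lit 40, nat_lit 80,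 nat_lit 16, nat_lit 238, nat_lit 30, nat_lit 8]⟩,
 zbF0, [⟨nat_lit 0, nat_lit 97, nat_lit 95, nat_lit 100, nat_lit 357405518⟩, ⟨nat_lit 4, nat_lit 96, nat_lit 95, nat_lit 100, nat_lit 159526733⟩, ⟨nat_lit 7, nat_lit 90, nat_lit 100, nat_lit 100, nat_lit 229343137⟩, ⟨nat_lit 11, nat_lit 99, nat_lit 99, nat_lit 100, nat_lit 337067141⟩]⟩
noncomputable def p071_l30 : Lf2 := ⟨nat_lit 0, nat_lit 2, [nat_lit 10, nat_lit 5, nat_lit 5, nat_lit 20], false, nat_lit 240, nat_lit 312, nat_lit 240, nat_lit 336, ⟨nat_lit 1000, nat_lit 0, nat_lit 0, nat_lit 0, nat_lit 0, nat_lit 0, nat_lit 0, nat_lit 0, nat_lit 0, nat_lit 0, nat_lit 0, nat_lit 0, nat_lit 0, nat_lit 0, nat_lit 0, nat_lit 0, false, false⟩,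
 nat_lit 0, nat_lit 9177, nat_lit 0, nat_lit 0, nat_lit 6563, nat_lit 4890, nat_lit 1347, nat_lit 0, nat_lit 0, nat_lit 0, nat_lit 0, nat_lit 0, nat_lit 0, nat_lit 0, nat_lit 0, nat_lit 0, nat_lit 0, nat_lit 0, [],
 ⟨p071_k18, nat_lit 0, nat_lit 0, nat_lit 243, nat_lit 0, nat_lit 600300, [nat_lit 3282000000, nat_lit 4688000000], [], [nat_lit 17917717476, nat_lit 18038826472, nat_lit 17813169618, nat_lit 17936335262, nat_lit 21582984388, nat_lit 21719196759, nat_lit 21304548592, nat_lit 21407134775], nat_lit 1271250, nat_lit 1271250, nat_lit 545600, nat_lit 780000, nat_lit 1271250, nat_lit 1271250, [nat_lit 780000, nat_lit 1100000], [nat_lit 40, nat_lit 40, nat_lit 40, nat_lit 80, nat_lit 22, nat_lit 238, nat_lit 30, nat_lit 9]⟩, ⟨p071_k14, nat_lit 0, nat_lit 0, nat_lit 53, nat_lit 0, nat_lit 0, [nat_lit 3282000000, nat_lit 6250000000], [], [nat_lit 16265753504, nat_lit 17843941732, nat_lit 16390741760, nat_lit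 17905575060, nat_lit 22930957071, nat_lit 24255120989, nat_lit 22793931880, nat_lit 23955694921], nat_lit 0, nat_lit 0, nat_lit 0, nat_lit 0, nat_lit 0, nat_lit 0, [], [nat_lit 49, nat_lit 40, nat_lit 40, nat_lit 80, nat_lit 16, nat_lit 238, nat_lit 30, nat_lit 8]⟩,
 zbF0, [⟨nat_lit 0, nat_lit 97, nat_lit 93, nat_lit 100, nat_lit 361816384⟩, ⟨nat_lit 4, nat_lit 97, nat_lit 94, nat_lit 100, nat_lit 156038403⟩, ⟨nat_lit 7, nat_lit 90, nat_lit 100, nat_lit 100, nat_lit 226636483⟩, ⟨nat_lit 11, nat_lit 98, nat_lit 98, nat_lit 100, nat_lit 343268494⟩]⟩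
noncomputable def p071_l31 : Lf2 := ⟨nat_lit 0, nat_lit 5, [nat_lit 4, nat_lit 5, nat_lit 5, nat_lit 20], false, nat_lit 240, nat_lit 320, nat_lit 240, nat_lit 336, ⟨nat_lit 1000, nat_lit 0, nat_lit 0, nat_lit 0, nat_lit 0, nat_lit 0, nat_lit 0, nat_lit 0, nat_lit 0, nat_lit 0, nat_lit 0, nat_lit 0, nat_lit 0, nat_lit 0, nat_lit 0, nat_lit 0, false, false⟩,
 nat_lit 0, nat_lit 8570, nat_lit 0, nat_lit 0, nat_lit 5933, nat_lit 4890, nat_lit 2121, nat_lit 0, nat_lit 0, nat_lit 0, nat_lit 0, nat_lit 0, nat_lit 0, nat_lit 0, nat_lit 0, nat_lit 0, nat_lit 0, nat_lit 0, [],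
 ⟨p071_k12, nat_lit 0, nat_lit 0, nat_lit 239, nat_lit 0, nat_lit 496567, [nat_lit 3282000000, nat_lit 6250000000], [], [nat_lit 18808019968, nat_lit 19339705567, nat_lit 18636318718, nat_lit 19141217347, nat_lit 22701821684, nat_lit 23409924706, nat_lit 22461471568, nat_lit 22999945188], nat_lit 1271250, nat_lit 1271250, nat_lit 490000, nat_lit 780000, nat_lit 1271250, nat_lit 1271250, [nat_lit 780000, nat_lit 1435000], [nat_lit 49, nat_lit 40, nat_lit 40, nat_lit 80, nat_lit 16, nat_lit 238, nat_lit 30, nat_lit 8]⟩, ⟨p071_k9, nat_lit 0, nat_lit 0, nat_lit 55, nat_lit 0, nat_lit 0, [nat_lit 3282000000, nat_lit 7968000000], [], [nat_lit 16234506440, nat_lit 17828533400, nat_lit 16390741760, nat_lit 17905575060, nat_lit 22994332000, nat_lit 24330225372, nat_lit 22793931880, nat_lit 23955694921], nat_lit 0, nat_lit 0, nat_lit 0, nat_lit 0, nat_lit 0, nat_lit 0, [], [nat_lit 74, nat_lit 40, nat_lit 40, nat_lit 80,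 nat_lit 43, nat_lit 238, nat_lit 30, nat_lit 7]⟩,
 zbF0, [⟨nat_lit 0, nat_lit 97, nat_lit 93, nat_lit 100, nat_lit 341603791⟩, ⟨nat_lit 16, nat_lit 95, nat_lit 95, nat_lit 100, nat_lit 138436038⟩, ⟨nat_lit 7, nat_lit 90, nat_lit 100, nat_lit 100, nat_lit 209421329⟩, ⟨nat_lit 11, nat_lit 100, nat_lit 100, nat_lit 100, nat_lit 353618279⟩]⟩
noncomputable def p071_l32 : Lf2 := ⟨nat_lit 0, nat_lit 5, [nat_lit 4, nat_lit 5, nat_lit 5, nat_lit 20], false, nat_lit 240, nat_lit 320, nat_lit 160, nat_lit 336, ⟨nat_lit 1000, nat_lit 0, nat_lit 0, nat_lit 0, nat_lit 0, nat_lit 0, nat_lit 0, nat_lit 0, nat_lit 0, nat_lit 0, nat_lit 0, nat_lit 0, nat_lit 0, nat_lit 0, nat_lit 0, nat_lit 0, false, false⟩,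
 nat_lit 0, nat_lit 8991, nat_lit 0, nat_lit 0, nat_lit 6224, nat_lit 4890, nat_lit 3281, nat_lit 0, nat_lit 0, nat_lit 0, nat_lit 0, nat_lit 0, nat_lit 0, nat_lit 0, nat_lit 0, nat_lit 0, nat_lit 0, nat_lit 0, [],
 ⟨p071_k12, nat_lit 0, nat_lit 0, nat_lit 253, nat_lit 0, nat_lit 597860, [nat_lit 3282000000, nat_lit 6250000000], [], [nat_lit 18423205952, nat_lit 18723649664, nat_lit 18864214592, nat_lit 19145945288, nat_lit 22299834416, nat_lit 22544220668, nat_lit 22494416352, nat_lit 22740110680], nat_lit 1271250, nat_lit 1271250, nat_lit 780000, nat_lit 1100001, nat_lit 1271250, nat_lit 1271250, [nat_lit 780000, nat_lit 1435000], [nat_lit 49, nat_lit 40, nat_lit 40, nat_lit 80, nat_lit 16, nat_lit 249, nat_lit 40, nat_lit 8]⟩, ⟨p071_k9, nat_lit 0, nat_lit 0, nat_lit 43, nat_lit 0, nat_lit 0, [nat_lit 3282000000, nat_lit 7968000000], [], [nat_lit 12717434880, nat_lit 14504065960, nat_lit 13697047320, nat_lit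 15372509420, nat_lit 22793931880, nat_lit 23955694921, nat_lit 23158594745, nat_lit 24254288501], nat_lit 0, nat_lit 0, nat_lit 0, nat_lit 0, nat_lit 0, nat_lit 0, [], [nat_lit 74, nat_lit 40, nat_lit 40, nat_lit 80, nat_lit 43, nat_lit 345, nat_lit 125, nat_lit 11]⟩,
 zbF0, [⟨nat_lit 4, nat_lit 95, nat_lit 96, nat_lit 100, nat_lit 185788869⟩, ⟨nat_lit 7, nat_lit 90, nat_lit 100, nat_lit 100, nat_lit 192497871⟩, ⟨nat_lit 11, nat_lit 85, nat_lit 85, nat_lit 100, nat_lit 358159922⟩]⟩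
noncomputable def p071_l33 : Lf2 := ⟨nat_lit 0, nat_lit 5, [nat_lit 4, nat_lit 5, nat_lit 5, nat_lit 20], false, nat_lit 240, nat_lit 316, nat_lit 160, nat_lit 336, ⟨nat_lit 1000, nat_lit 0, nat_lit 0, nat_lit 0, nat_lit 0, nat_lit 0, nat_lit 0, nat_lit 0, nat_lit 0, nat_lit 0, nat_lit 0, nat_lit 0, nat_lit 0, nat_lit 0, nat_lit 0, nat_lit 0, false, false⟩,
 nat_lit 0, nat_lit 9242, nat_lit 0, nat_lit 0, nat_lit 6530, nat_lit 4890, nat_lit 1997, nat_lit 0, nat_lit 0, nat_lit 0, nat_lit 0, nat_lit 0, nat_lit 0, nat_lit 0, nat_lit 0, nat_lit 0, nat_lit 0, nat_lit 0, [],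
 ⟨p071_k11, nat_lit 0, nat_lit 0, nat_lit 270, nat_lit 0, nat_lit 621348, [nat_lit 3282000000, nat_lit 4688000000, nat_lit 6250000000], [], [nat_lit 17733911330, nat_lit 18042223220, nat_lit 18135544610, nat_lit 18424413980, nat_lit 21444423473, nat_lit 21697343404, nat_lit 21606663213, nat_lit 21879609452], nat_lit 1271250, nat_lit 1271250, nat_lit 780000, nat_lit 1100001, nat_lit 1271250, nat_lit 1271250, [nat_lit 780000, nat_lit 1100000, nat_lit 1442500], [nat_lit 59, nat_lit 40, nat_lit 40, nat_lit 80, nat_lit 3, nat_lit 249, nat_lit 40, nat_lit 8]⟩, ⟨p071_k4, nat_lit 0, nat_lit 0, nat_lit 52, nat_lit 0, nat_lit 0, [nat_lit 3282000000, nat_lit 4688000000, nat_lit 7968000000], [], [nat_lit 12717434880, nat_lit 14504065960, nat_lit 13697047320, nat_lit 15372509420, nat_lit 22793931880, nat_lit 23955694921, nat_lit 23158594745, nat_lit 24254288501], nat_lit 0, nat_lit 0, nat_lit 0, nat_lit 0, nat_lit 0, nat_lit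 0, [], [nat_lit 36, nat_lit 40, nat_lit 40, nat_lit 80, nat_lit 7, nat_lit 345, nat_lit 125, nat_lit 11]⟩,
 zbF0, [⟨nat_lit 4, nat_lit 96, nat_lit 94, nat_lit 100, nat_lit 201644720⟩, ⟨nat_lit 7, nat_lit 90, nat_lit 100, nat_lit 100, nat_lit 202983187⟩, ⟨nat_lit 11, nat_lit 85, nat_lit 85, nat_lit 100, nat_lit 345824256⟩]⟩
noncomputable def p071_l34 : Lf2 := ⟨nat_lit 0, nat_lit 5, [nat_lit 4, nat_lit 5, nat_lit 5, nat_lit 20], false, nat_lit 240, nat_lit 292, nat_lit 160, nat_lit 320, ⟨nat_lit 1000, nat_lit 0, nat_lit 0, nat_lit 0, nat_lit 0, nat_lit 0, nat_lit 0, nat_lit 0, nat_lit 0, nat_lit 0, nat_lit 0, nat_lit 0, nat_lit 0, nat_lit 0, nat_lit 0, nat_lit 0, false, false⟩,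
 nat_lit 0, nat_lit 9506, nat_lit 0, nat_lit 0, nat_lit 6853, nat_lit 5017, nat_lit 3693, nat_lit 0, nat_lit 0, nat_lit 0, nat_lit 0, nat_lit 0, nat_lit 0, nat_lit 0, nat_lit 0, nat_lit 0, nat_lit 0, nat_lit 0, [],
 ⟨p071_k19, nat_lit 0, nat_lit 0, nat_lit 353, nat_lit 0, nat_lit 788018, [nat_lit 3282000000, nat_lit 4688000000, nat_lit 6250000000], [], [nat_lit 17840517517, nat_lit 18421115431, nat_lit 18018082219, nat_lit 18537848980, nat_lit 20191860460, nat_lit 20795059702, nat_lit 20116113694, nat_lit 20667203393], nat_lit 1271250, nat_lit 1271250, nat_lit 545600, nat_lit 1100001, nat_lit 1271250, nat_lit 1271250, [nat_lit 780000, nat_lit 1100000, nat_lit 1442500], [nat_lit 59, nat_lit 40, nat_lit 40, nat_lit 80, nat_lit 3, nat_lit 249, nat_lit 40, nat_lit 8]⟩, ⟨p071_k4, nat_lit 0, nat_lit 0, nat_lit 54, nat_lit 0, nat_lit 0, [nat_lit 3282000000, nat_lit 4688000000, nat_lit 7968000000], [], [nat_lit 12293615031,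 nat_lit 14185802948, nat_lit 13523233596, nat_lit 15223421326, nat_lit 21599192554, nat_lit 23014097980, nat_lit 21915405900, nat_lit 23080050582], nat_lit 0, nat_lit 0, nat_lit 0, nat_lit 0, nat_lit 0, nat_lit 0, [], [nat_lit 36, nat_lit 40, nat_lit 40, nat_lit 80, nat_lit 7, nat_lit 345, nat_lit 125, nat_lit 11]⟩,
 zbF0, [⟨nat_lit 0, nat_lit 100, nat_lit 92, nat_lit 99, nat_lit 570099999⟩, ⟨nat_lit 16, nat_lit 93, nat_lit 100, nat_lit 97, nat_lit 513545652⟩, ⟨nat_lit 19, nat_lit 100, nat_lit 88, nat_lit 94, nat_lit 513052510⟩]⟩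
noncomputable def p071_l35 : Lf2 := ⟨nat_lit 0, nat_lit 2, [nat_lit 10, nat_lit 5, nat_lit 5, nat_lit 20], false, nat_lit 240, nat_lit 312, nat_lit 160, nat_lit 336, ⟨nat_lit 1000, nat_lit 0, nat_lit 0, nat_lit 0, nat_lit 0, nat_lit 0, nat_lit 0, nat_lit 0, nat_lit 0, nat_lit 0, nat_lit 0, nat_lit 0, nat_lit 0, nat_lit 0, nat_lit 0, nat_lit 0, false, false⟩,
 nat_lit 0, nat_lit 8984, nat_lit 0, nat_lit 0, nat_lit 6476, nat_lit 4944, nat_lit 1230, nat_lit 0, nat_lit 0, nat_lit 0, nat_lit 0, nat_lit 0, nat_lit 0, nat_lit 0, nat_lit 0, nat_lit 0, nat_lit 0, nat_lit 0, [],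
 ⟨p071_k20, nat_lit 0, nat_lit 0, nat_lit 245, nat_lit 0, nat_lit 597897, [nat_lit 3282000000, nat_lit 4688000000], [], [nat_lit 18354886745, nat_lit 18956097770, nat_lit 18254710216, nat_lit 18829929424, nat_lit 21887388398, nat_lit 22500931570, nat_lit 21665060465, nat_lit 22174668719], nat_lit 1271250, nat_lit 1271250, nat_lit 545600, nat_lit 780000, nat_lit 1271250, nat_lit 1271250, [nat_lit 780000, nat_lit 1100000], [nat_lit 40, nat_lit 40, nat_lit 40, nat_lit 80, nat_lit 22, nat_lit 238, nat_lit 30, nat_lit 9]⟩, ⟨p071_k21, nat_lit 0, nat_lit 0, nat_lit 60, nat_lit 0, nat_lit 0, [nat_lit 3282000000, nat_lit 4688000000, nat_lit 6250000000], [], [nat_lit 12384826253, nat_lit 13322740095, nat_lit 12644394048, nat_lit 13543438232, nat_lit 22975778980, nat_lit 23641491861, nat_lit 22771094848, nat_lit 23354997560], nat_lit 0, nat_lit 0, nat_lit 0, nat_lit 0, nat_lit 0, nat_lit 0, [], [nat_lit 59, nat_lit 40, nat_lit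 40, nat_lit 80, nat_lit 3, nat_lit 345, nat_lit 125, nat_lit 13]⟩,
 zbF0, [⟨nat_lit 0, nat_lit 100, nat_lit 89, nat_lit 100, nat_lit 394742480⟩, ⟨nat_lit 4, nat_lit 99, nat_lit 92, nat_lit 100, nat_lit 200572802⟩, ⟨nat_lit 19, nat_lit 100, nat_lit 87, nat_lit 99, nat_lit 163733969⟩, ⟨nat_lit 23, nat_lit 100, nat_lit 84, nat_lit 95, nat_lit 363220577⟩]⟩
noncomputable def p071_l36 : Lf2 := ⟨nat_lit 0, nat_lit 2, [nat_lit 10, nat_lit 5, nat_lit 5, nat_lit 20], false, nat_lit 240, nat_lit 312, nat_lit 160, nat_lit 328, ⟨nat_lit 1000, nat_lit 0, nat_lit 0, nat_lit 0, nat_lit 0, nat_lit 0, nat_lit 0, nat_lit 0, nat_lit 0, nat_lit 0, nat_lit 0, nat_lit 0, nat_lit 0, nat_lit 0, nat_lit 0, nat_lit 0, false, false⟩,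
 nat_lit 0, nat_lit 9067, nat_lit 0, nat_lit 0, nat_lit 6536, nat_lit 4949, nat_lit 1246, nat_lit 0, nat_lit 0, nat_lit 0, nat_lit 0, nat_lit 0, nat_lit 0, nat_lit 0, nat_lit 0, nat_lit 0, nat_lit 0, nat_lit 0, [],
 ⟨p071_k20, nat_lit 0, nat_lit 0, nat_lit 245, nat_lit 0, nat_lit 617152, [nat_lit 3282000000, nat_lit 4688000000], [], [nat_lit 18101951056, nat_lit 18280265652, nat_lit 18035192176, nat_lit 18208597783, nat_lit 21636380903, nat_lit 21837071936, nat_lit 21487180679, nat_lit 21640750602], nat_lit 1271250, nat_lit 1271250, nat_lit 631250, nat_lit 780000, nat_lit 1271250, nat_lit 1271250, [nat_lit 780000, nat_lit 1100000], [nat_lit 40, nat_lit 40, nat_lit 40, nat_lit 80, nat_lit 22, nat_lit 238, nat_lit 30, nat_lit 9]⟩, ⟨p071_k22, nat_lit 0, nat_lit 0, nat_lit 55, nat_lit 0, nat_lit 0, [nat_lit 3282000000, nat_lit 4688000000, nat_lit 6250000000], [], [nat_lit 13399610254, nat_lit 14323497061, nat_lit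 13537205622, nat_lit 14436780236, nat_lit 22852866747, nat_lit 23527928482, nat_lit 22749943156, nat_lit 23349022149], nat_lit 0, nat_lit 0, nat_lit 0, nat_lit 0, nat_lit 0, nat_lit 0, [], [nat_lit 59, nat_lit 40, nat_lit 40, nat_lit 80, nat_lit 3, nat_lit 345, nat_lit 125, nat_lit 13]⟩,
 zbF0, [⟨nat_lit 0, nat_lit 96, nat_lit 91, nat_lit 100, nat_lit 408957339⟩, ⟨nat_lit 4, nat_lit 98, nat_lit 93, nat_lit 100, nat_lit 187910920⟩, ⟨nat_lit 19, nat_lit 99, nat_lit 92, nat_lit 100, nat_lit 187893756⟩, ⟨nat_lit 11, nat_lit 95, nat_lit 95, nat_lit 100, nat_lit 321780777⟩]⟩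
noncomputable def p071_l37 : Lf2 := ⟨nat_lit 0, nat_lit 2, [nat_lit 10, nat_lit 5, nat_lit 5, nat_lit 20], false, nat_lit 240, nat_lit 308, nat_lit 160, nat_lit 328, ⟨nat_lit 1000, nat_lit 0, nat_lit 0, nat_lit 0, nat_lit 0, nat_lit 0, nat_lit 0, nat_lit 0, nat_lit 0, nat_lit 0, nat_lit 0, nat_lit 0, nat_lit 0, nat_lit 0, nat_lit 0, nat_lit 0, false, false⟩,
 nat_lit 0, nat_lit 8980, nat_lit 0, nat_lit 0, nat_lit 6551, nat_lit 4949, nat_lit 1145, nat_lit 0, nat_lit 0, nat_lit 0, nat_lit 0, nat_lit 0, nat_lit 0, nat_lit 0, nat_lit 0, nat_lit 0, nat_lit 0, nat_lit 0, [],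
 ⟨p071_k23, nat_lit 0, nat_lit 0, nat_lit 247, nat_lit 0, nat_lit 622523, [nat_lit 3282000000, nat_lit 4688000000], [], [nat_lit 18211692909, nat_lit 18338741023, nat_lit 18160151092, nat_lit 18283691837, nat_lit 21568443111, nat_lit 21704053885, nat_lit 21405546883, nat_lit 21509210640], nat_lit 1271250, nat_lit 1271250, nat_lit 631250, nat_lit 780000, nat_lit 1271250, nat_lit 1271250, [nat_lit 780000, nat_lit 1100000], [nat_lit 40, nat_lit 40, nat_lit 40, nat_lit 80, nat_lit 22, nat_lit 238, nat_lit 30, nat_lit 9]⟩, ⟨p071_k22, nat_lit 0, nat_lit 0, nat_lit 55, nat_lit 0, nat_lit 0, [nat_lit 3282000000, nat_lit 4688000000, nat_lit 6250000000], [], [nat_lit 13399610254, nat_lit 14323497061, nat_lit 13537205622, nat_lit 14436780236, nat_lit 22852866747, nat_lit 23527928482, nat_lit 22749943156, nat_lit 23349022149], nat_lit 0, nat_lit 0, nat_lit 0, nat_lit 0, nat_lit 0, nat_lit 0, [], [nat_lit 59, nat_lit 40, nat_lit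 40, nat_lit 80, nat_lit 3, nat_lit 345, nat_lit 125, nat_lit 13]⟩,
 zbF0, [⟨nat_lit 0, nat_lit 95, nat_lit 90, nat_lit 100, nat_lit 419349835⟩, ⟨nat_lit 16, nat_lit 90, nat_lit 93, nat_lit 100, nat_lit 195525939⟩, ⟨nat_lit 19, nat_lit 99, nat_lit 92, nat_lit 100, nat_lit 191333270⟩, ⟨nat_lit 11, nat_lit 95, nat_lit 95, nat_lit 100, nat_lit 318196442⟩]⟩
noncomputable def p071_l38 : Lf2 := ⟨nat_lit 0, nat_lit 2, [nat_lit 10, nat_lit 5, nat_lit 5, nat_lit 20], false, nat_lit 240, nat_lit 304, nat_lit 160, nat_lit 328, ⟨nat_lit 1000, nat_lit 0, nat_lit 0, nat_lit 0, nat_lit 0, nat_lit 0, nat_lit 0, nat_lit 0, nat_lit 0, nat_lit 0, nat_lit 0, nat_lit 0, nat_lit 0, nat_lit 0, nat_lit 0, nat_lit 0, false, false⟩,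
 nat_lit 0, nat_lit 8892, nat_lit 0, nat_lit 0, nat_lit 6539, nat_lit 4949, nat_lit 1062, nat_lit 0, nat_lit 0, nat_lit 0, nat_lit 0, nat_lit 0, nat_lit 0, nat_lit 0, nat_lit 0, nat_lit 0, nat_lit 0, nat_lit 0, [],
 ⟨p071_k24, nat_lit 0, nat_lit 0, nat_lit 256, nat_lit 0, nat_lit 654584, [nat_lit 3282000000, nat_lit 4688000000], [], [nat_lit 18381212588, nat_lit 18680820990, nat_lit 18321887993, nat_lit 18630431300, nat_lit 21467340300, nat_lit 21774485862, nat_lit 21355137643, nat_lit 21616982152], nat_lit 1271250, nat_lit 1271250, nat_lit 660400, nat_lit 780000, nat_lit 1271250, nat_lit 1271250, [nat_lit 780000, nat_lit 1100000], [nat_lit 40, nat_lit 40, nat_lit 40, nat_lit 80, nat_lit 22, nat_lit 238, nat_lit 30, nat_lit 9]⟩, ⟨p071_k22, nat_lit 0, nat_lit 0, nat_lit 53, nat_lit 0, nat_lit 0, [nat_lit 3282000000, nat_lit 4688000000, nat_lit 6250000000], [], [nat_lit 13427129328, nat_lit 14346153696, nat_lit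 13537205622, nat_lit 14436780236, nat_lit 22820909970, nat_lit 23492041080, nat_lit 22749943156, nat_lit 23349022149], nat_lit 0, nat_lit 0, nat_lit 0, nat_lit 0, nat_lit 0, nat_lit 0, [], [nat_lit 59, nat_lit 40, nat_lit 40, nat_lit 80, nat_lit 3, nat_lit 345, nat_lit 125, nat_lit 13]⟩,
 zbF0, [⟨nat_lit 0, nat_lit 94, nat_lit 87, nat_lit 100, nat_lit 552800385⟩, ⟨nat_lit 16, nat_lit 89, nat_lit 93, nat_lit 100, nat_lit 306409874⟩, ⟨nat_lit 19, nat_lit 97, nat_lit 84, nat_lit 100, nat_lit 299980425⟩, ⟨nat_lit 11, nat_lit 94, nat_lit 94, nat_lit 100, nat_lit 213537813⟩]⟩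
noncomputable def p071_l39 : Lf2 := ⟨nat_lit 0, nat_lit 2, [nat_lit 10, nat_lit 5, nat_lit 5, nat_lit 20], false, nat_lit 240, nat_lit 312, nat_lit 160, nat_lit 336, ⟨nat_lit 1000, nat_lit 0, nat_lit 0, nat_lit 0, nat_lit 0, nat_lit 0, nat_lit 0, nat_lit 0, nat_lit 0, nat_lit 0, nat_lit 0, nat_lit 0, nat_lit 0, nat_lit 0, nat_lit 0, nat_lit 0, false, false⟩,
 nat_lit 0, nat_lit 9067, nat_lit 0, nat_lit 0, nat_lit 6536, nat_lit 4890, nat_lit 1246, nat_lit 0, nat_lit 0, nat_lit 0, nat_lit 0, nat_lit 0, nat_lit 0, nat_lit 0, nat_lit 0, nat_lit 0, nat_lit 0, nat_lit 0, [],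
 ⟨p071_k20, nat_lit 0, nat_lit 0, nat_lit 236, nat_lit 0, nat_lit 617152, [nat_lit 3282000000, nat_lit 4688000000], [], [nat_lit 18035192176, nat_lit 18208597783, nat_lit 18404742176, nat_lit 18578147783, nat_lit 21487180679, nat_lit 21640750602, nat_lit 21645495649, nat_lit 21824588992], nat_lit 1271250, nat_lit 1271250, nat_lit 780000, nat_lit 1100001, nat_lit 1271250, nat_lit 1271250, [nat_lit 780000, nat_lit 1100000], [nat_lit 40, nat_lit 40, nat_lit 40, nat_lit 80, nat_lit 22, nat_lit 249, nat_lit 40, nat_lit 10]⟩, ⟨p071_k21, nat_lit 0, nat_lit 0, nat_lit 52, nat_lit 0, nat_lit 0, [nat_lit 3282000000, nat_lit 4688000000, nat_lit 6250000000], [], [nat_lit 12717434880, nat_lit 14504065960, nat_lit 13697047320, nat_lit 15372509420, nat_lit 22793931880, nat_lit 23955694921, nat_lit 23158594745, nat_lit 24254288501], nat_lit 0, nat_lit 0, nat_lit 0, nat_lit 0, nat_lit 0, nat_lit 0, [], [nat_lit 59, nat_lit 40,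 nat_lit 40, nat_lit 80, nat_lit 3, nat_lit 345, nat_lit 125, nat_lit 12]⟩,
 zbF0, [⟨nat_lit 16, nat_lit 91, nat_lit 91, nat_lit 100, nat_lit 198870272⟩, ⟨nat_lit 19, nat_lit 100, nat_lit 90, nat_lit 100, nat_lit 197456859⟩, ⟨nat_lit 11, nat_lit 85, nat_lit 85, nat_lit 100, nat_lit 352325819⟩]⟩
noncomputable def p071_l40 : Lf2 := ⟨nat_lit 0, nat_lit 2, [nat_lit 10, nat_lit 5, nat_lit 5, nat_lit 20], false, nat_lit 240, nat_lit 308, nat_lit 160, nat_lit 336, ⟨nat_lit 1000, nat_lit 0, nat_lit 0, nat_lit 0, nat_lit 0, nat_lit 0, nat_lit 0, nat_lit 0, nat_lit 0, nat_lit 0, nat_lit 0, nat_lit 0, nat_lit 0, nat_lit 0, nat_lit 0, nat_lit 0, false, false⟩,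
 nat_lit 0, nat_lit 8980, nat_lit 0, nat_lit 0, nat_lit 6551, nat_lit 4890, nat_lit 1131, nat_lit 0, nat_lit 0, nat_lit 0, nat_lit 0, nat_lit 0, nat_lit 0, nat_lit 0, nat_lit 0, nat_lit 0, nat_lit 0, nat_lit 0, [],
 ⟨p071_k23, nat_lit 0, nat_lit 0, nat_lit 239, nat_lit 0, nat_lit 622523, [nat_lit 3282000000, nat_lit 4688000000], [], [nat_lit 18160921984, nat_lit 18283691837, nat_lit 18529178234, nat_lit 18644921945, nat_lit 21405546883, nat_lit 21509210640, nat_lit 21575249182, nat_lit 21699042697], nat_lit 1271250, nat_lit 1271250, nat_lit 780000, nat_lit 1100001, nat_lit 1271250, nat_lit 1271250, [nat_lit 780000, nat_lit 1100000], [nat_lit 40, nat_lit 40, nat_lit 40, nat_lit 80, nat_lit 22, nat_lit 249, nat_lit 40, nat_lit 10]⟩, ⟨p071_k21, nat_lit 0, nat_lit 0, nat_lit 52, nat_lit 0, nat_lit 0, [nat_lit 3282000000, nat_lit 4688000000, nat_lit 6250000000], [], [nat_lit 12717434880, nat_lit 14504065960, nat_lit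 13697047320, nat_lit 15372509420, nat_lit 22793931880, nat_lit 23955694921, nat_lit 23158594745, nat_lit 24254288501], nat_lit 0, nat_lit 0, nat_lit 0, nat_lit 0, nat_lit 0, nat_lit 0, [], [nat_lit 59, nat_lit 40, nat_lit 40, nat_lit 80, nat_lit 3, nat_lit 345, nat_lit 125, nat_lit 12]⟩,
 zbF0, [⟨nat_lit 16, nat_lit 90, nat_lit 93, nat_lit 100, nat_lit 194969700⟩, ⟨nat_lit 7, nat_lit 90, nat_lit 100, nat_lit 100, nat_lit 194146570⟩, ⟨nat_lit 11, nat_lit 85, nat_lit 85, nat_lit 100, nat_lit 356220276⟩]⟩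
noncomputable def p071_l41 : Lf2 := ⟨nat_lit 0, nat_lit 2, [nat_lit 10, nat_lit 5, nat_lit 5, nat_lit 20], false, nat_lit 240, nat_lit 304, nat_lit 160, nat_lit 336, ⟨nat_lit 1000, nat_lit 0, nat_lit 0, nat_lit 0, nat_lit 0, nat_lit 0, nat_lit 0, nat_lit 0, nat_lit 0, nat_lit 0, nat_lit 0, nat_lit 0, nat_lit 0, nat_lit 0, nat_lit 0, nat_lit 0, false, false⟩,
 nat_lit 0, nat_lit 8917, nat_lit 0, nat_lit 0, nat_lit 6557, nat_lit 4890, nat_lit 1061, nat_lit 0, nat_lit 0, nat_lit 0, nat_lit 0, nat_lit 0, nat_lit 0, nat_lit 0, nat_lit 0, nat_lit 0, nat_lit 0, nat_lit 0, [],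
 ⟨p071_k24, nat_lit 0, nat_lit 0, nat_lit 245, nat_lit 0, nat_lit 639047, [nat_lit 3282000000, nat_lit 4688000000], [], [nat_lit 18264593759, nat_lit 18449997444, nat_lit 18625390115, nat_lit 18799089667, nat_lit 21301642539, nat_lit 21458963419, nat_lit 21466430058, nat_lit 21652051769], nat_lit 1271250, nat_lit 1271250, nat_lit 780000, nat_lit 1100001, nat_lit 1271250, nat_lit 1271250, [nat_lit 780000, nat_lit 1100000], [nat_lit 40, nat_lit 40, nat_lit 40, nat_lit 80, nat_lit 22, nat_lit 249, nat_lit 40, nat_lit 10]⟩, ⟨p071_k21, nat_lit 0, nat_lit 0, nat_lit 52, nat_lit 0, nat_lit 0, [nat_lit 3282000000, nat_lit 4688000000, nat_lit 6250000000], [], [nat_lit 12717434880, nat_lit 14504065960, nat_lit 13697047320, nat_lit 15372509420, nat_lit 22793931880, nat_lit 23955694921, nat_lit 23158594745, nat_lit 24254288501], nat_lit 0, nat_lit 0, nat_lit 0, nat_lit 0, nat_lit 0, nat_lit 0, [], [nat_lit 59, nat_lit 40,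 nat_lit 40, nat_lit 80, nat_lit 3, nat_lit 345, nat_lit 125, nat_lit 12]⟩,
 zbF0, [⟨nat_lit 16, nat_lit 89, nat_lit 93, nat_lit 100, nat_lit 194968990⟩, ⟨nat_lit 7, nat_lit 90, nat_lit 100, nat_lit 100, nat_lit 195276234⟩, ⟨nat_lit 11, nat_lit 85, nat_lit 85, nat_lit 100, nat_lit 354891260⟩]⟩
noncomputable def p071_l42 : Lf2 := ⟨nat_lit 0, nat_lit 2, [nat_lit 10, nat_lit 5, nat_lit 5, nat_lit 20], false, nat_lit 240, nat_lit 304, nat_lit 160, nat_lit 336, ⟨nat_lit 1000, nat_lit 0, nat_lit 0, nat_lit 0, nat_lit 0, nat_lit 0, nat_lit 0, nat_lit 0, nat_lit 0, nat_lit 0, nat_lit 0, nat_lit 0, nat_lit 0, nat_lit 0, nat_lit 0, nat_lit 0, false, false⟩,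
 nat_lit 0, nat_lit 8788, nat_lit 0, nat_lit 0, nat_lit 6539, nat_lit 4890, nat_lit 967, nat_lit 0, nat_lit 0, nat_lit 0, nat_lit 0, nat_lit 0, nat_lit 0, nat_lit 0, nat_lit 0, nat_lit 0, nat_lit 0, nat_lit 0, [],
 ⟨p071_k25, nat_lit 0, nat_lit 0, nat_lit 247, nat_lit 0, nat_lit 644001, [nat_lit 3282000000, nat_lit 4688000000], [], [nat_lit 18507723829, nat_lit 18630431300, nat_lit 18857433204, nat_lit 18973064936, nat_lit 21512244348, nat_lit 21616982152, nat_lit 21678239891, nat_lit 21803391580], nat_lit 1271250, nat_lit 1271250, nat_lit 780000, nat_lit 1100001, nat_lit 1271250, nat_lit 1271250, [nat_lit 780000, nat_lit 1100000], [nat_lit 40, nat_lit 40, nat_lit 40, nat_lit 80, nat_lit 22, nat_lit 249, nat_lit 40, nat_lit 10]⟩, ⟨p071_k21, nat_lit 0, nat_lit 0, nat_lit 52, nat_lit 0, nat_lit 0, [nat_lit 3282000000, nat_lit 4688000000, nat_lit 6250000000], [], [nat_lit 12717434880, nat_lit 14504065960, nat_lit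 13697047320, nat_lit 15372509420, nat_lit 22793931880, nat_lit 23955694921, nat_lit 23158594745, nat_lit 24254288501], nat_lit 0, nat_lit 0, nat_lit 0, nat_lit 0, nat_lit 0, nat_lit 0, [], [nat_lit 59, nat_lit 40, nat_lit 40, nat_lit 80, nat_lit 3, nat_lit 345, nat_lit 125, nat_lit 12]⟩,
 zbF0, [⟨nat_lit 0, nat_lit 94, nat_lit 87, nat_lit 100, nat_lit 273827011⟩, ⟨nat_lit 16, nat_lit 88, nat_lit 94, nat_lit 100, nat_lit 537989013⟩, ⟨nat_lit 7, nat_lit 90, nat_lit 100, nat_lit 100, nat_lit 496933805⟩]⟩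
noncomputable def p071_l43 : Lf2 := ⟨nat_lit 0, nat_lit 5, [nat_lit 4, nat_lit 5, nat_lit 5, nat_lit 20], false, nat_lit 240, nat_lit 312, nat_lit 160, nat_lit 336, ⟨nat_lit 1000, nat_lit 0, nat_lit 0, nat_lit 0, nat_lit 0, nat_lit 0, nat_lit 0, nat_lit 0, nat_lit 0, nat_lit 0, nat_lit 0, nat_lit 0, nat_lit 0, nat_lit 0, nat_lit 0, nat_lit 0, false, false⟩,
 nat_lit 0, nat_lit 8688, nat_lit 0, nat_lit 0, nat_lit 6263, nat_lit 4780, nat_lit 1403, nat_lit 0, nat_lit 0, nat_lit 0, nat_lit 0, nat_lit 0, nat_lit 0, nat_lit 0, nat_lit 0, nat_lit 0, nat_lit 0, nat_lit 0, [],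
 ⟨p071_k19, nat_lit 0, nat_lit 0, nat_lit 260, nat_lit 0, nat_lit 549888, [nat_lit 3282000000, nat_lit 4688000000, nat_lit 6250000000], [], [nat_lit 18942087903, nat_lit 19572063227, nat_lit 19299809258, nat_lit 19865090312, nat_lit 22492030148, nat_lit 23015665623, nat_lit 22481276058, nat_lit 22951892179], nat_lit 1271250, nat_lit 1271250, nat_lit 545600, nat_lit 1100001, nat_lit 1271250, nat_lit 1271250, [nat_lit 780000, nat_lit 1100000, nat_lit 1442500], [nat_lit 59, nat_lit 40, nat_lit 40, nat_lit 80, nat_lit 3, nat_lit 249, nat_lit 40, nat_lit 8]⟩, ⟨p071_k4, nat_lit 0, nat_lit 0, nat_lit 63, nat_lit 0, nat_lit 0, [nat_lit 3282000000, nat_lit 4688000000, nat_lit 7968000000], [], [nat_lit 12589739136, nat_lit 14428812320, nat_lit 13847594640, nat_lit 15501640840, nat_lit 22956284644, nat_lit 24149576775, nat_lit 23217080689, nat_lit 24301565401], nat_lit 0, nat_lit 0, nat_lit 0, nat_lit 0, nat_lit 0, nat_lit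 0, [], [nat_lit 36, nat_lit 40, nat_lit 40, nat_lit 80, nat_lit 7, nat_lit 345, nat_lit 125, nat_lit 11]⟩,
 zbF0, [⟨nat_lit 0, nat_lit 94, nat_lit 87, nat_lit 100, nat_lit 465114047⟩, ⟨nat_lit 4, nat_lit 99, nat_lit 92, nat_lit 100, nat_lit 313062695⟩, ⟨nat_lit 7, nat_lit 90, nat_lit 100, nat_lit 100, nat_lit 310010262⟩, ⟨nat_lit 11, nat_lit 90, nat_lit 90, nat_lit 100, nat_lit 187109039⟩]⟩
noncomputable def b_V_700_700_20_22 : St := ⟨true, nat_lit 1, nat_lit 0, nat_lit 1, nat_lit 120, nat_lit 300, nat_lit 320, nat_lit 280, nat_lit 300, nat_lit 80, nat_lit 160, nat_lit 80, nat_lit 120, nat_lit 160, nat_lit 320, nat_lit 160, nat_lit 336, nat_lit 0, nat_lit 20, nat_lit 0, nat_lit 0, nat_lit 0, nat_lit 0⟩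
theorem d_V_700_700_20_22 (h : EB TB.env) : Dead b_V_700_700_20_22 := chkB_sound0 h (T :=
(.spl (nat_lit 4) (nat_lit 240)
(.leaf p071_l20)
(.spl (nat_lit 7) (nat_lit 600)
(.spl (nat_lit 2) (nat_lit 120)
(.leaf p071_l21)
(.leaf p071_l22))
(.spl (nat_lit 0) (nat_lit 310)
(.spl (nat_lit 3) (nat_lit 100)
(.trX (nat_lit 16) (nat_lit 100) (nat_lit 100) (nat_lit 100) (nat_lit 300) (.trX (nat_lit 19) (nat_lit 100) (nat_lit 88) (nat_lit 94) (nat_lit 320) (.spl (nat_lit 0) (nat_lit 305)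
(.leaf p071_l23)
(.trZ (nat_lit 0) (nat_lit 100) (nat_lit 93) (nat_lit 90) (nat_lit 84) (.trX (nat_lit 16) (nat_lit 97) (nat_lit 100) (nat_lit 98) (nat_lit 296) (.leaf p071_l24))))))
(.spl (nat_lit 2) (nat_lit 120)
(.spl (nat_lit 5) (nat_lit 240)
(.leaf p071_l25)
(.spl (nat_lit 6) (nat_lit 8)
(.spl (nat_lit 0) (nat_lit 305)
(.spl (nat_lit 0) (nat_lit 303)
(.spl (nat_lit 1) (nat_lit 290)
(.leaf p071_l26)
(.trZ (nat_lit 0) (nat_lit 100) (nat_lit 97) (nat_lit 94) (nat_lit 88) (.trX (nat_lit 19) (nat_lit 97) (nat_lit 84) (nat_lit 100) (nat_lit 328) (.leaf p071_l27))))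
(.trZ (nat_lit 0) (nat_lit 100) (nat_lit 94) (nat_lit 89) (nat_lit 84) (.trX (nat_lit 16) (nat_lit 94) (nat_lit 89) (nat_lit 100) (nat_lit 316) (.leaf p071_l28))))
(.trZ (nat_lit 0) (nat_lit 100) (nat_lit 93) (nat_lit 90) (nat_lit 84) (.trX (nat_lit 16) (nat_lit 93) (nat_lit 90) (nat_lit 100) (nat_lit 316) (.spl (nat_lit 0) (nat_lit 308)
(.leaf p071_l29)
(.trZ (nat_lit 0) (nat_lit 100) (nat_lit 92) (nat_lit 91) (nat_lit 88) (.trX (nat_lit 16) (nat_lit 92) (nat_lit 91) (nat_lit 100) (nat_lit 312) (.leaf p071_l30)))))))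
(.leaf p071_l31)))
(.spl (nat_lit 0) (nat_lit 305)
(.leaf p071_l32)
(.trX (nat_lit 16) (nat_lit 93) (nat_lit 90) (nat_lit 100) (nat_lit 316) (.leaf p071_l33)))))
(.trZ (nat_lit 0) (nat_lit 100) (nat_lit 91) (nat_lit 91) (nat_lit 88) (.trX (nat_lit 16) (nat_lit 91) (nat_lit 91) (nat_lit 100) (nat_lit 312) (.spl (nat_lit 3) (nat_lit 100)
(.trX (nat_lit 16) (nat_lit 93) (nat_lit 100) (nat_lit 97) (nat_lit 292) (.trX (nat_lit 19) (nat_lit 100) (nat_lit 88) (nat_lit 94) (nat_lit 320) (.leaf p071_l34)))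
(.spl (nat_lit 6) (nat_lit 8)
(.spl (nat_lit 2) (nat_lit 120)
(.spl (nat_lit 1) (nat_lit 290)
(.leaf p071_l35)
(.trZ (nat_lit 0) (nat_lit 100) (nat_lit 94) (nat_lit 97) (nat_lit 100) (.trX (nat_lit 19) (nat_lit 97) (nat_lit 84) (nat_lit 100) (nat_lit 328) (.spl (nat_lit 0) (nat_lit 315)
(.spl (nat_lit 0) (nat_lit 313)
(.leaf p071_l36)
(.trX (nat_lit 16) (nat_lit 90) (nat_lit 93) (nat_lit 100) (nat_lit 308) (.leaf p071_l37)))
(.trZ (nat_lit 0) (nat_lit 100) (nat_lit 92) (nat_lit 99) (nat_lit 104) (.trX (nat_lit 16) (nat_lit 89) (nat_lit 93) (nat_lit 100) (nat_lit 304) (.leaf p071_l38)))))))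
(.spl (nat_lit 0) (nat_lit 315)
(.spl (nat_lit 0) (nat_lit 313)
(.leaf p071_l39)
(.trX (nat_lit 16) (nat_lit 90) (nat_lit 93) (nat_lit 100) (nat_lit 308) (.leaf p071_l40)))
(.trX (nat_lit 16) (nat_lit 89) (nat_lit 93) (nat_lit 100) (nat_lit 304) (.spl (nat_lit 0) (nat_lit 318)
(.leaf p071_l41)
(.leaf p071_l42)))))
(.leaf p071_l43))))))))) (by decide +kernel)
noncomputable def p071_l44 : Lf2 := ⟨nat_lit 0, nat_lit 10, [nat_lit 0, nat_lit 5, nat_lit 5, nat_lit 20], false, nat_lit 160, nat_lit 240, nat_lit 160, nat_lit 336, ⟨nat_lit 1000, nat_lit 0, nat_lit 0, nat_lit 0, nat_lit 0, nat_lit 0, nat_lit 0, nat_lit 0, nat_lit 0, nat_lit 0, nat_lit 0, nat_lit 0, nat_lit 0, nat_lit 0, nat_lit 0, nat_lit 0, false, false⟩,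
 nat_lit 0, nat_lit 8998, nat_lit 0, nat_lit 0, nat_lit 6229, nat_lit 4824, nat_lit 1595, nat_lit 0, nat_lit 0, nat_lit 0, nat_lit 0, nat_lit 0, nat_lit 0, nat_lit 0, nat_lit 0, nat_lit 0, nat_lit 0, nat_lit 0, [],
 ⟨p071_k26, nat_lit 0, nat_lit 0, nat_lit 293, nat_lit 0, nat_lit 548588, [nat_lit 3282000000, nat_lit 4688000000, nat_lit 7968000000], [], [nat_lit 19676052750, nat_lit 17600074370, nat_lit 16609152730, nat_lit 17733397554, nat_lit 18519893094, nat_lit 19745079302, nat_lit 22414618088, nat_lit 19723752820], nat_lit 1271250, nat_lit 1271250, nat_lit 490000, nat_lit 1100001, nat_lit 1100001, nat_lit 1785000, [nat_lit 780000, nat_lit 1100000, nat_lit 1785000], [nat_lit 36, nat_lit 40, nat_lit 40, nat_lit 80, nat_lit 7, nat_lit 317, nat_lit 100, nat_lit 10]⟩, ⟨p071_k1, nat_lit 0, nat_lit 0, nat_lit 66, nat_lit 0, nat_lit 0, [nat_lit 3282000000, nat_lit 4688000000, nat_lit 9842000000], [], [nat_lit 12466776384,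 nat_lit 14334787136, nat_lit 13787375712, nat_lit 15449988272, nat_lit 22975503412, nat_lit 24263351876, nat_lit 23193686311, nat_lit 24282654640], nat_lit 0, nat_lit 0, nat_lit 0, nat_lit 0, nat_lit 0, nat_lit 0, [], [nat_lit 42, nat_lit 40, nat_lit 40, nat_lit 80, nat_lit 13, nat_lit 345, nat_lit 125, nat_lit 9]⟩,
 zbF0, [⟨nat_lit 0, nat_lit 100, nat_lit 94, nat_lit 97, nat_lit 335025894⟩, ⟨nat_lit 19, nat_lit 100, nat_lit 80, nat_lit 100, nat_lit 59816522⟩, ⟨nat_lit 7, nat_lit 94, nat_lit 100, nat_lit 97, nat_lit 449297050⟩]⟩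
noncomputable def p071_l45 : Lf2 := ⟨nat_lit 0, nat_lit 10, [nat_lit 0, nat_lit 5, nat_lit 5, nat_lit 20], false, nat_lit 240, nat_lit 320, nat_lit 160, nat_lit 336, ⟨nat_lit 1000, nat_lit 0, nat_lit 0, nat_lit 0, nat_lit 0, nat_lit 0, nat_lit 0, nat_lit 0, nat_lit 0, nat_lit 0, nat_lit 0, nat_lit 0, nat_lit 0, nat_lit 0, nat_lit 0, nat_lit 0, false, false⟩,
 nat_lit 0, nat_lit 8434, nat_lit 0, nat_lit 0, nat_lit 5838, nat_lit 4753, nat_lit 1411, nat_lit 0, nat_lit 0, nat_lit 0, nat_lit 0, nat_lit 0, nat_lit 0, nat_lit 0, nat_lit 0, nat_lit 0, nat_lit 0, nat_lit 0, [],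
 ⟨p071_k26, nat_lit 0, nat_lit 0, nat_lit 270, nat_lit 0, nat_lit 458452, [nat_lit 3282000000, nat_lit 4688000000, nat_lit 7968000000], [], [nat_lit 20444408618, nat_lit 20966119118, nat_lit 20518165086, nat_lit 20983080676, nat_lit 23789395906, nat_lit 24559370764, nat_lit 23492137798, nat_lit 24139992200], nat_lit 1271250, nat_lit 1271250, nat_lit 490000, nat_lit 1100001, nat_lit 1271250, nat_lit 1271250, [nat_lit 780000, nat_lit 1100000, nat_lit 1785000], [nat_lit 36, nat_lit 40, nat_lit 40, nat_lit 80, nat_lit 7, nat_lit 249, nat_lit 40, nat_lit 7]⟩, ⟨p071_k1, nat_lit 0, nat_lit 0, nat_lit 66, nat_lit 0, nat_lit 0, [nat_lit 3282000000, nat_lit 4688000000, nat_lit 9842000000], [], [nat_lit 12553657948, nat_lit 14405544742, nat_lit 13884547164, nat_lit 15533336734, nat_lit 22991219347, nat_lit 24192228331, nat_lit 23231436329, nat_lit 24313169731], nat_lit 0, nat_lit 0, nat_lit 0, nat_lit 0, nat_lit 0, nat_lit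 0, [], [nat_lit 42, nat_lit 40, nat_lit 40, nat_lit 80, nat_lit 13, nat_lit 345, nat_lit 125, nat_lit 9]⟩,
 zbF0, [⟨nat_lit 0, nat_lit 100, nat_lit 95, nat_lit 95, nat_lit 309902087⟩, ⟨nat_lit 4, nat_lit 100, nat_lit 97, nat_lit 98, nat_lit 178311780⟩, ⟨nat_lit 7, nat_lit 94, nat_lit 100, nat_lit 97, nat_lit 201808832⟩, ⟨nat_lit 11, nat_lit 91, nat_lit 91, nat_lit 100, nat_lit 311615709⟩]⟩
noncomputable def p071_l46 : Lf2 := ⟨nat_lit 0, nat_lit 10, [nat_lit 0, nat_lit 5, nat_lit 5, nat_lit 20], false, nat_lit 240, nat_lit 312, nat_lit 160, nat_lit 336, ⟨nat_lit 1000, nat_lit 0, nat_lit 0, nat_lit 0, nat_lit 0, nat_lit 0, nat_lit 0, nat_lit 0, nat_lit 0, nat_lit 0, nat_lit 0, nat_lit 0, nat_lit 0, nat_lit 0, nat_lit 0, nat_lit 0, false, false⟩,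
 nat_lit 0, nat_lit 7970, nat_lit 0, nat_lit 0, nat_lit 5745, nat_lit 4780, nat_lit 1242, nat_lit 0, nat_lit 0, nat_lit 0, nat_lit 0, nat_lit 0, nat_lit 0, nat_lit 0, nat_lit 0, nat_lit 0, nat_lit 0, nat_lit 0, [],
 ⟨p071_k27, nat_lit 0, nat_lit 0, nat_lit 287, nat_lit 0, nat_lit 518283, [nat_lit 3282000000, nat_lit 4688000000, nat_lit 7968000000], [], [nat_lit 20925770293, nat_lit 21471311498, nat_lit 21074474545, nat_lit 21565828890, nat_lit 23990922505, nat_lit 24556215115, nat_lit 24067115809, nat_lit 24519946762], nat_lit 1271250, nat_lit 1271250, nat_lit 545600, nat_lit 1100001, nat_lit 1271250, nat_lit 1271250, [nat_lit 780000, nat_lit 1100000, nat_lit 1785000], [nat_lit 36, nat_lit 40, nat_lit 40, nat_lit 80, nat_lit 7, nat_lit 249, nat_lit 40, nat_lit 7]⟩, ⟨p071_k1, nat_lit 0, nat_lit 0, nat_lit 63, nat_lit 0, nat_lit 0, [nat_lit 3282000000, nat_lit 4688000000, nat_lit 9842000000], [], [nat_lit 12589739136,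 nat_lit 14428812320, nat_lit 13847594640, nat_lit 15501640840, nat_lit 22956284644, nat_lit 24149576775, nat_lit 23217080689, nat_lit 24301565401], nat_lit 0, nat_lit 0, nat_lit 0, nat_lit 0, nat_lit 0, nat_lit 0, [], [nat_lit 42, nat_lit 40, nat_lit 40, nat_lit 80, nat_lit 13, nat_lit 345, nat_lit 125, nat_lit 9]⟩,
 zbF0, [⟨nat_lit 0, nat_lit 94, nat_lit 87, nat_lit 100, nat_lit 385920239⟩, ⟨nat_lit 16, nat_lit 91, nat_lit 91, nat_lit 100, nat_lit 229322421⟩, ⟨nat_lit 7, nat_lit 94, nat_lit 100, nat_lit 97, nat_lit 247444596⟩, ⟨nat_lit 11, nat_lit 90, nat_lit 90, nat_lit 100, nat_lit 264874599⟩]⟩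
noncomputable def b_V_700_700_20_23 : St := ⟨true, nat_lit 1, nat_lit 0, nat_lit 1, nat_lit 120, nat_lit 300, nat_lit 320, nat_lit 280, nat_lit 300, nat_lit 80, nat_lit 160, nat_lit 80, nat_lit 120, nat_lit 160, nat_lit 320, nat_lit 160, nat_lit 336, nat_lit 20, nat_lit 40, nat_lit 0, nat_lit 0, nat_lit 0, nat_lit 0⟩
theorem d_V_700_700_20_23 (h : EB TB.env) : Dead b_V_700_700_20_23 := chkB_sound0 h (T :=
(.spl (nat_lit 4) (nat_lit 240)
(.leaf p071_l44)
(.spl (nat_lit 0) (nat_lit 310)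
(.leaf p071_l45)
(.trZ (nat_lit 0) (nat_lit 100) (nat_lit 91) (nat_lit 91) (nat_lit 88) (.trX (nat_lit 16) (nat_lit 91) (nat_lit 91) (nat_lit 100) (nat_lit 312) (.leaf p071_l46)))))) (by decide +kernel)
noncomputable def p071_l47 : Lf2 := ⟨nat_lit 0, nat_lit 10, [nat_lit 0, nat_lit 5, nat_lit 5, nat_lit 20], false, nat_lit 160, nat_lit 336, nat_lit 0, nat_lit 160, ⟨nat_lit 1000, nat_lit 0, nat_lit 0, nat_lit 0, nat_lit 0, nat_lit 0, nat_lit 0, nat_lit 0, nat_lit 0, nat_lit 0, nat_lit 0, nat_lit 0, nat_lit 0, nat_lit 0, nat_lit 0, nat_lit 0, false, false⟩,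
 nat_lit 0, nat_lit 10339, nat_lit 0, nat_lit 0, nat_lit 6579, nat_lit 7199, nat_lit 1578, nat_lit 0, nat_lit 0, nat_lit 2238, nat_lit 0, nat_lit 0, nat_lit 0, nat_lit 18474679992538, nat_lit 0, nat_lit 0, nat_lit 0, nat_lit 0, [],
 ⟨p071_k1, nat_lit 0, nat_lit 0, nat_lit 449, nat_lit 0, nat_lit 796178, [nat_lit 3282000000, nat_lit 4688000000, nat_lit 9842000000], [], [nat_lit 26308057978, nat_lit 23165348626, nat_lit 22004381250, nat_lit 22791757814, nat_lit 25867803296, nat_lit 26605623796, nat_lit 26958594770, nat_lit 27665082112], nat_lit 1271250, nat_lit 1271250, nat_lit 1271250, nat_lit 1271250, nat_lit 1271250, nat_lit 1271250, [nat_lit 780000, nat_lit 1100000, nat_lit 2127500], [nat_lit 42, nat_lit 40, nat_lit 40, nat_lit 80, nat_lit 13, nat_lit 373, nat_lit 150, nat_lit 10]⟩, ⟨p071_k1, nat_lit 0, nat_lit 0, nat_lit 160, nat_lit 0, nat_lit 0, [nat_lit 3282000000, nat_lit 4688000000, nat_lit 9842000000],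 [], [nat_lit 17681317550, nat_lit 19463174312, nat_lit 21447014316, nat_lit 23814906918, nat_lit 13048730254, nat_lit 14775393640, nat_lit 16455603380, nat_lit 18119472906], nat_lit 0, nat_lit 0, nat_lit 0, nat_lit 0, nat_lit 0, nat_lit 0, [], [nat_lit 42, nat_lit 40, nat_lit 40, nat_lit 80, nat_lit 13, nat_lit 317, nat_lit 100, nat_lit 9]⟩,
 zbF0, [⟨nat_lit 16, nat_lit 100, nat_lit 94, nat_lit 97, nat_lit 272619217⟩]⟩
noncomputable def p071_l48 : Lf2 := ⟨nat_lit 0, nat_lit 10, [nat_lit 0, nat_lit 5, nat_lit 5, nat_lit 20], false, nat_lit 160, nat_lit 336, nat_lit 160, nat_lit 336, ⟨nat_lit 1000, nat_lit 0, nat_lit 0, nat_lit 0, nat_lit 0, nat_lit 0, nat_lit 0, nat_lit 0, nat_lit 0, nat_lit 0, nat_lit 0, nat_lit 0, nat_lit 0, nat_lit 0, nat_lit 0, nat_lit 0, false, false⟩,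
 nat_lit 0, nat_lit 10684, nat_lit 0, nat_lit 0, nat_lit 6798, nat_lit 4995, nat_lit 2379, nat_lit 0, nat_lit 0, nat_lit 0, nat_lit 0, nat_lit 0, nat_lit 0, nat_lit 0, nat_lit 0, nat_lit 0, nat_lit 0, nat_lit 0, [],
 ⟨p071_k1, nat_lit 0, nat_lit 0, nat_lit 328, nat_lit 0, nat_lit 595503, [nat_lit 3282000000, nat_lit 4688000000, nat_lit 9842000000], [], [nat_lit 22185231811, nat_lit 20561570299, nat_lit 19350023080, nat_lit 19867550344, nat_lit 24187352874, nat_lit 24694823028, nat_lit 26040770453, nat_lit 26642724131], nat_lit 1271250, nat_lit 1271250, nat_lit 1271250, nat_lit 1271250, nat_lit 1271250, nat_lit 1271250, [nat_lit 780000, nat_lit 1100000, nat_lit 2127500], [nat_lit 42, nat_lit 40, nat_lit 40, nat_lit 80, nat_lit 13, nat_lit 373, nat_lit 150, nat_lit 10]⟩, ⟨p071_k1, nat_lit 0, nat_lit 0, nat_lit 40, nat_lit 0, nat_lit 0, [nat_lit 3282000000, nat_lit 4688000000, nat_lit 9842000000], [], [nat_lit 13553343060,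 nat_lit 14401295335, nat_lit 17015134480, nat_lit 17734861160, nat_lit 23102767253, nat_lit 23655963902, nat_lit 25107152533, nat_lit 25628041527], nat_lit 0, nat_lit 0, nat_lit 0, nat_lit 0, nat_lit 0, nat_lit 0, [], [nat_lit 42, nat_lit 40, nat_lit 40, nat_lit 80, nat_lit 13, nat_lit 373, nat_lit 150, nat_lit 10]⟩,
 zbF0, [⟨nat_lit 16, nat_lit 100, nat_lit 80, nat_lit 100, nat_lit 257467806⟩, ⟨nat_lit 19, nat_lit 100, nat_lit 80, nat_lit 100, nat_lit 459053701⟩, ⟨nat_lit 11, nat_lit 71, nat_lit 71, nat_lit 100, nat_lit 45453011⟩]⟩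
noncomputable def p071_l49 : Lf2 := ⟨nat_lit 0, nat_lit 10, [nat_lit 0, nat_lit 5, nat_lit 5, nat_lit 20], false, nat_lit 160, nat_lit 328, nat_lit 160, nat_lit 336, ⟨nat_lit 1000, nat_lit 0, nat_lit 0, nat_lit 0, nat_lit 0, nat_lit 0, nat_lit 0, nat_lit 0, nat_lit 0, nat_lit 0, nat_lit 0, nat_lit 0, nat_lit 0, nat_lit 0, nat_lit 0, nat_lit 0, false, false⟩,
 nat_lit 0, nat_lit 9196, nat_lit 0, nat_lit 0, nat_lit 6107, nat_lit 4943, nat_lit 2491, nat_lit 0, nat_lit 0, nat_lit 0, nat_lit 0, nat_lit 0, nat_lit 0, nat_lit 0, nat_lit 0, nat_lit 0, nat_lit 0, nat_lit 0, [],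
 ⟨p071_k0, nat_lit 0, nat_lit 0, nat_lit 369, nat_lit 0, nat_lit 749131, [nat_lit 3282000000, nat_lit 4688000000, nat_lit 7968000000], [], [nat_lit 18500431583, nat_lit 19040036729, nat_lit 20795135396, nat_lit 20945535987, nat_lit 23908485027, nat_lit 24276269537, nat_lit 25640853830, nat_lit 26227661983], nat_lit 1271250, nat_lit 1271250, nat_lit 1100001, nat_lit 1785000, nat_lit 1271250, nat_lit 1271250, [nat_lit 780000, nat_lit 1100000, nat_lit 1785000], [nat_lit 36, nat_lit 40, nat_lit 40, nat_lit 80, nat_lit 7, nat_lit 373, nat_lit 150, nat_lit 11]⟩, ⟨p071_k1, nat_lit 0, nat_lit 0, nat_lit 43, nat_lit 0, nat_lit 0, [nat_lit 3282000000, nat_lit 4688000000, nat_lit 9842000000], [], [nat_lit 13624510884, nat_lit 15310291554, nat_lit 17074481872, nat_lit 18505899776, nat_lit 23130415153, nat_lit 24231509631, nat_lit 25082091217, nat_lit 26117328271], nat_lit 0, nat_lit 0, nat_lit 0, nat_lit 0, nat_lit 0, nat_lit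 0, [], [nat_lit 42, nat_lit 40, nat_lit 40, nat_lit 80, nat_lit 13, nat_lit 373, nat_lit 150, nat_lit 10]⟩,
 zbF0, [⟨nat_lit 16, nat_lit 97, nat_lit 84, nat_lit 100, nat_lit 394117390⟩, ⟨nat_lit 19, nat_lit 100, nat_lit 80, nat_lit 100, nat_lit 481847181⟩]⟩
noncomputable def p071_l50 : Lf2 := ⟨nat_lit 0, nat_lit 10, [nat_lit 0, nat_lit 5, nat_lit 5, nat_lit 20], false, nat_lit 160, nat_lit 320, nat_lit 0, nat_lit 160, ⟨nat_lit 1000, nat_lit 0, nat_lit 0, nat_lit 0, nat_lit 0, nat_lit 0, nat_lit 0, nat_lit 0, nat_lit 0, nat_lit 0, nat_lit 0, nat_lit 0, nat_lit 0, nat_lit 0, nat_lit 0, nat_lit 0, false, false⟩,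
 nat_lit 0, nat_lit 9175, nat_lit 0, nat_lit 0, nat_lit 6351, nat_lit 7199, nat_lit 1078, nat_lit 0, nat_lit 0, nat_lit 2238, nat_lit 0, nat_lit 0, nat_lit 0, nat_lit 0, nat_lit 0, nat_lit 0, nat_lit 0, nat_lit 0, [],
 ⟨p071_k26, nat_lit 0, nat_lit 0, nat_lit 421, nat_lit 0, nat_lit 883896, [nat_lit 3282000000, nat_lit 4688000000, nat_lit 7968000000], [], [nat_lit 23318328686, nat_lit 22487292408, nat_lit 22879455842, nat_lit 23539499356, nat_lit 24952301920, nat_lit 25488613344, nat_lit 25803528292, nat_lit 26981059088], nat_lit 1271250, nat_lit 1271250, nat_lit 1271250, nat_lit 1271250, nat_lit 1100001, nat_lit 2470000, [nat_lit 780000, nat_lit 1100000, nat_lit 1785000], [nat_lit 36, nat_lit 40, nat_lit 40, nat_lit 80, nat_lit 7, nat_lit 373, nat_lit 150, nat_lit 11]⟩, ⟨p071_k1, nat_lit 0, nat_lit 0, nat_lit 160, nat_lit 0, nat_lit 0, [nat_lit 3282000000, nat_lit 4688000000, nat_lit 9842000000], [], [nat_lit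 17681317550, nat_lit 19463174312, nat_lit 21447014316, nat_lit 23814906918, nat_lit 13048730254, nat_lit 14775393640, nat_lit 16455603380, nat_lit 18119472906], nat_lit 0, nat_lit 0, nat_lit 0, nat_lit 0, nat_lit 0, nat_lit 0, [], [nat_lit 42, nat_lit 40, nat_lit 40, nat_lit 80, nat_lit 13, nat_lit 317, nat_lit 100, nat_lit 9]⟩,
 zbF0, [⟨nat_lit 4, nat_lit 100, nat_lit 93, nat_lit 97, nat_lit 340228079⟩]⟩
noncomputable def p071_l51 : Lf2 := ⟨nat_lit 0, nat_lit 10, [nat_lit 0, nat_lit 5, nat_lit 5, nat_lit 20], false, nat_lit 160, nat_lit 320, nat_lit 160, nat_lit 336, ⟨nat_lit 1000, nat_lit 0, nat_lit 0, nat_lit 0, nat_lit 0, nat_lit 0, nat_lit 0, nat_lit 0, nat_lit 0, nat_lit 0, nat_lit 0, nat_lit 0, nat_lit 0, nat_lit 0, nat_lit 0, nat_lit 0, false, false⟩,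
 nat_lit 0, nat_lit 8741, nat_lit 0, nat_lit 0, nat_lit 6051, nat_lit 4943, nat_lit 2419, nat_lit 0, nat_lit 0, nat_lit 0, nat_lit 0, nat_lit 0, nat_lit 0, nat_lit 0, nat_lit 0, nat_lit 0, nat_lit 0, nat_lit 0, [],
 ⟨p071_k28, nat_lit 0, nat_lit 0, nat_lit 391, nat_lit 0, nat_lit 793394, [nat_lit 3282000000, nat_lit 6250000000, nat_lit 7968000000], [], [nat_lit 18575024326, nat_lit 19146582839, nat_lit 20698467086, nat_lit 21187407373, nat_lit 23860069450, nat_lit 24260835283, nat_lit 29658311913, nat_lit 28288341309], nat_lit 1271250, nat_lit 1271250, nat_lit 1100001, nat_lit 1785000, nat_lit 1100001, nat_lit 2470000, [nat_lit 780000, nat_lit 1435000, nat_lit 1271250], [nat_lit 18, nat_lit 40, nat_lit 40, nat_lit 80, nat_lit 2, nat_lit 373, nat_lit 150, nat_lit 11]⟩, ⟨p071_k29, nat_lit 0, nat_lit 0, nat_lit 52, nat_lit 0, nat_lit 0, [nat_lit 3282000000, nat_lit 6250000000, nat_lit 9842000000], [], [nat_lit 13624510884,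 nat_lit 15310291554, nat_lit 17074481872, nat_lit 18505899776, nat_lit 23130415153, nat_lit 24231509631, nat_lit 25082091217, nat_lit 26117328271], nat_lit 0, nat_lit 0, nat_lit 0, nat_lit 0, nat_lit 0, nat_lit 0, [], [nat_lit 8, nat_lit 40, nat_lit 40, nat_lit 80, nat_lit 1, nat_lit 373, nat_lit 150, nat_lit 10]⟩,
 zbF0, [⟨nat_lit 16, nat_lit 94, nat_lit 88, nat_lit 100, nat_lit 408854500⟩, ⟨nat_lit 7, nat_lit 94, nat_lit 100, nat_lit 97, nat_lit 495754596⟩]⟩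
noncomputable def p071_l52 : Lf2 := ⟨nat_lit 0, nat_lit 10, [nat_lit 0, nat_lit 5, nat_lit 5, nat_lit 20], false, nat_lit 160, nat_lit 312, nat_lit 160, nat_lit 336, ⟨nat_lit 1000, nat_lit 0, nat_lit 0, nat_lit 0, nat_lit 0, nat_lit 0, nat_lit 0, nat_lit 0, nat_lit 0, nat_lit 0, nat_lit 0, nat_lit 0, nat_lit 0, nat_lit 0, nat_lit 0, nat_lit 0, false, false⟩,
 nat_lit 0, nat_lit 8369, nat_lit 0, nat_lit 0, nat_lit 6033, nat_lit 4943, nat_lit 1462, nat_lit 0, nat_lit 0, nat_lit 0, nat_lit 0, nat_lit 0, nat_lit 0, nat_lit 0, nat_lit 0, nat_lit 0, nat_lit 0, nat_lit 0, [],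
 ⟨p071_k30, nat_lit 0, nat_lit 0, nat_lit 410, nat_lit 0, nat_lit 835068, [nat_lit 3282000000, nat_lit 6250000000, nat_lit 7968000000], [], [nat_lit 19291046996, nat_lit 19789101816, nat_lit 21258539359, nat_lit 21746787780, nat_lit 24021507436, nat_lit 24430589264, nat_lit 27932436806, nat_lit 26562893318], nat_lit 1271250, nat_lit 1271250, nat_lit 1100001, nat_lit 1785000, nat_lit 1100001, nat_lit 2401500, [nat_lit 780000, nat_lit 1435000, nat_lit 1271250], [nat_lit 18, nat_lit 40, nat_lit 40, nat_lit 80, nat_lit 2, nat_lit 373, nat_lit 150, nat_lit 11]⟩, ⟨p071_k29, nat_lit 0, nat_lit 0, nat_lit 52, nat_lit 0, nat_lit 0, [nat_lit 3282000000, nat_lit 6250000000, nat_lit 9842000000], [], [nat_lit 13624510884, nat_lit 15310291554, nat_lit 17074481872, nat_lit 18505899776, nat_lit 23130415153, nat_lit 24231509631, nat_lit 25082091217, nat_lit 26117328271], nat_lit 0, nat_lit 0, nat_lit 0, nat_lit 0, nat_lit 0, nat_lit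 0, [], [nat_lit 8, nat_lit 40, nat_lit 40, nat_lit 80, nat_lit 1, nat_lit 373, nat_lit 150, nat_lit 10]⟩,
 zbF0, [⟨nat_lit 16, nat_lit 91, nat_lit 91, nat_lit 100, nat_lit 412342964⟩, ⟨nat_lit 7, nat_lit 94, nat_lit 100, nat_lit 97, nat_lit 496749671⟩]⟩
noncomputable def b_V_700_700_20_24 : St := ⟨true, nat_lit 1, nat_lit 0, nat_lit 1, nat_lit 120, nat_lit 280, nat_lit 320, nat_lit 280, nat_lit 300, nat_lit 160, nat_lit 240, nat_lit 80, nat_lit 120, nat_lit 160, nat_lit 336, nat_lit 0, nat_lit 336, nat_lit 0, nat_lit 40, nat_lit 0, nat_lit 0, nat_lit 0, nat_lit 0⟩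
theorem d_V_700_700_20_24 (h : EB TB.env) : Dead b_V_700_700_20_24 := chkB_sound0 h (T :=
(.spl (nat_lit 0) (nat_lit 300)
(.spl (nat_lit 5) (nat_lit 160)
(.leaf p071_l47)
(.spl (nat_lit 0) (nat_lit 290)
(.ord (.leaf p071_l48))
(.trX (nat_lit 16) (nat_lit 97) (nat_lit 84) (nat_lit 100) (nat_lit 328) (.leaf p071_l49))))
(.trX (nat_lit 16) (nat_lit 94) (nat_lit 88) (nat_lit 100) (nat_lit 320) (.spl (nat_lit 5) (nat_lit 160)
(.leaf p071_l50)
(.spl (nat_lit 0) (nat_lit 310)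
(.leaf p071_l51)
(.trX (nat_lit 16) (nat_lit 91) (nat_lit 91) (nat_lit 100) (nat_lit 312) (.leaf p071_l52))))))) (by decide +kernel)
noncomputable def p071_l53 : Lf2 := ⟨nat_lit 0, nat_lit 10, [nat_lit 0, nat_lit 5, nat_lit 5, nat_lit 20], false, nat_lit 0, nat_lit 320, nat_lit 0, nat_lit 160, ⟨nat_lit 1000, nat_lit 0, nat_lit 0, nat_lit 0, nat_lit 0, nat_lit 0, nat_lit 0, nat_lit 0, nat_lit 0, nat_lit 0, nat_lit 0, nat_lit 0, nat_lit 0, nat_lit 0, nat_lit 0, nat_lit 0, false, false⟩,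
 nat_lit 0, nat_lit 8965, nat_lit 0, nat_lit 0, nat_lit 6206, nat_lit 6897, nat_lit 1818, nat_lit 0, nat_lit 0, nat_lit 1463, nat_lit 0, nat_lit 0, nat_lit 0, nat_lit 43561089776047, nat_lit 0, nat_lit 0, nat_lit 0, nat_lit 0, [],
 ⟨p071_k28, nat_lit 0, nat_lit 0, nat_lit 560, nat_lit 0, nat_lit 888935, [nat_lit 3282000000, nat_lit 6250000000, nat_lit 7968000000], [], [nat_lit 35554526390, nat_lit 33901130076, nat_lit 23985763998, nat_lit 24335213736, nat_lit 24231950678, nat_lit 24573565228, nat_lit 34889826968, nat_lit 33554059940], nat_lit 1271250, nat_lit 1271250, nat_lit 631250, nat_lit 1751250, nat_lit 0, nat_lit 2260000, [nat_lit 780000, nat_lit 1435000, nat_lit 1271250], [nat_lit 18, nat_lit 40, nat_lit 40, nat_lit 80, nat_lit 2, nat_lit 373, nat_lit 150, nat_lit 12]⟩, ⟨p071_k28, nat_lit 0, nat_lit 0, nat_lit 145, nat_lit 0, nat_lit 0, [nat_lit 3282000000, nat_lit 6250000000, nat_lit 7968000000], [], [nat_lit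 18932180781, nat_lit 20446080478, nat_lit 23435147354, nat_lit 24586024957, nat_lit 14780202304, nat_lit 15759751308, nat_lit 18270539671, nat_lit 19019317964], nat_lit 0, nat_lit 0, nat_lit 0, nat_lit 0, nat_lit 0, nat_lit 0, [], [nat_lit 18, nat_lit 40, nat_lit 40, nat_lit 80, nat_lit 2, nat_lit 317, nat_lit 100, nat_lit 10]⟩,
 zbF0, [⟨nat_lit 0, nat_lit 91, nat_lit 91, nat_lit 100, nat_lit 47134861⟩, ⟨nat_lit 16, nat_lit 97, nat_lit 100, nat_lit 98, nat_lit 41765009⟩]⟩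
noncomputable def p071_l54 : Lf2 := ⟨nat_lit 0, nat_lit 10, [nat_lit 0, nat_lit 5, nat_lit 5, nat_lit 20], false, nat_lit 0, nat_lit 312, nat_lit 0, nat_lit 160, ⟨nat_lit 1000, nat_lit 0, nat_lit 0, nat_lit 0, nat_lit 0, nat_lit 0, nat_lit 0, nat_lit 0, nat_lit 0, nat_lit 0, nat_lit 0, nat_lit 0, nat_lit 0, nat_lit 0, nat_lit 0, nat_lit 0, false, false⟩,
 nat_lit 0, nat_lit 6936, nat_lit 0, nat_lit 0, nat_lit 5000, nat_lit 6918, nat_lit 1242, nat_lit 0, nat_lit 0, nat_lit 1223, nat_lit 0, nat_lit 0, nat_lit 0, nat_lit 23855943863079, nat_lit 0, nat_lit 0, nat_lit 0, nat_lit 0, [],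
 ⟨p071_k30, nat_lit 0, nat_lit 0, nat_lit 623, nat_lit 0, nat_lit 1015668, [nat_lit 3282000000, nat_lit 6250000000, nat_lit 7968000000], [], [nat_lit 31249984750, nat_lit 29921989750, nat_lit 30908673500, nat_lit 31236103500, nat_lit 31322191070, nat_lit 31608296641, nat_lit 35363997500, nat_lit 34285090000], nat_lit 1271250, nat_lit 1271250, nat_lit 689850, nat_lit 1755750, nat_lit 0, nat_lit 2203500, [nat_lit 780000, nat_lit 1435000, nat_lit 1271250], [nat_lit 18, nat_lit 40, nat_lit 40, nat_lit 80, nat_lit 2, nat_lit 373, nat_lit 150, nat_lit 12]⟩, ⟨p071_k28, nat_lit 0, nat_lit 0, nat_lit 150, nat_lit 0, nat_lit 0, [nat_lit 3282000000, nat_lit 6250000000, nat_lit 7968000000], [], [nat_lit 19375318213, nat_lit 21808468486, nat_lit 23461554476, nat_lit 25767908640, nat_lit 15180276640, nat_lit 17121532686, nat_lit 18705202249, nat_lit 20205416133], nat_lit 0, nat_lit 0, nat_lit 0, nat_lit 0, nat_lit 0, nat_lit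 0, [], [nat_lit 18, nat_lit 40, nat_lit 40, nat_lit 80, nat_lit 2, nat_lit 317, nat_lit 100, nat_lit 10]⟩,
 zbF0, [⟨nat_lit 0, nat_lit 83, nat_lit 83, nat_lit 100, nat_lit 349980534⟩, ⟨nat_lit 16, nat_lit 90, nat_lit 100, nat_lit 95, nat_lit 240097776⟩]⟩
noncomputable def b_V_700_700_20_25 : St := ⟨true, nat_lit 1, nat_lit 0, nat_lit 1, nat_lit 120, nat_lit 300, nat_lit 320, nat_lit 300, nat_lit 320, nat_lit 100, nat_lit 240, nat_lit 80, nat_lit 120, nat_lit 0, nat_lit 320, nat_lit 0, nat_lit 160, nat_lit 0, nat_lit 40, nat_lit 0, nat_lit 0, nat_lit 0, nat_lit 0⟩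
theorem d_V_700_700_20_25 (h : EB TB.env) : Dead b_V_700_700_20_25 := chkB_sound0 h (T :=
(.spl (nat_lit 0) (nat_lit 310)
(.ord (.leaf p071_l53))
(.trZ (nat_lit 0) (nat_lit 97) (nat_lit 93) (nat_lit 100) (nat_lit 108) (.trX (nat_lit 16) (nat_lit 91) (nat_lit 91) (nat_lit 100) (nat_lit 312) (.leaf p071_l54))))) (by decide +kernel)
noncomputable def p071_l55 : Lf2 := ⟨nat_lit 0, nat_lit 2, [nat_lit 10, nat_lit 5, nat_lit 5, nat_lit 20], false, nat_lit 240, nat_lit 300, nat_lit 240, nat_lit 300, ⟨nat_lit 1000, nat_lit 0, nat_lit 0, nat_lit 0, nat_lit 0, nat_lit 0, nat_lit 0, nat_lit 0, nat_lit 0, nat_lit 0, nat_lit 0, nat_lit 0, nat_lit 0, nat_lit 0, nat_lit 0, nat_lit 0, false, false⟩,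
 nat_lit 0, nat_lit 10005, nat_lit 0, nat_lit 0, nat_lit 6926, nat_lit 5059, nat_lit 1843, nat_lit 0, nat_lit 0, nat_lit 0, nat_lit 0, nat_lit 0, nat_lit 0, nat_lit 0, nat_lit 0, nat_lit 0, nat_lit 0, nat_lit 0, [],
 ⟨p071_k13, nat_lit 0, nat_lit 0, nat_lit 279, nat_lit 0, nat_lit 738652, [nat_lit 3282000000, nat_lit 4688000000], [], [nat_lit 16945298934, nat_lit 17232062409, nat_lit 17207029836, nat_lit 17468316167, nat_lit 19706434413, nat_lit 20003239948, nat_lit 19712214234, nat_lit 20035604819], nat_lit 1271250, nat_lit 1271250, nat_lit 631250, nat_lit 1100001, nat_lit 1271250, nat_lit 1271250, [nat_lit 780000, nat_lit 1100000], [nat_lit 40, nat_lit 40, nat_lit 40, nat_lit 80, nat_lit 22, nat_lit 249, nat_lit 40, nat_lit 10]⟩, ⟨p071_k13, nat_lit 0, nat_lit 0, nat_lit 36, nat_lit 0, nat_lit 0, [nat_lit 3282000000, nat_lit 4688000000], [], [nat_lit 17725179913, nat_lit 18121173464, nat_lit 18391434688, nat_lit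 18753770476, nat_lit 21540390288, nat_lit 21912891337, nat_lit 21890554158, nat_lit 22200381108], nat_lit 0, nat_lit 0, nat_lit 0, nat_lit 0, nat_lit 0, nat_lit 0, [], [nat_lit 40, nat_lit 40, nat_lit 40, nat_lit 80, nat_lit 22, nat_lit 249, nat_lit 40, nat_lit 10]⟩,
 zbF0, [⟨nat_lit 0, nat_lit 98, nat_lit 98, nat_lit 100, nat_lit 533796226⟩, ⟨nat_lit 16, nat_lit 100, nat_lit 100, nat_lit 100, nat_lit 453142619⟩, ⟨nat_lit 19, nat_lit 100, nat_lit 100, nat_lit 100, nat_lit 528600232⟩]⟩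
noncomputable def p071_l56 : Lf2 := ⟨nat_lit 0, nat_lit 2, [nat_lit 10, nat_lit 5, nat_lit 5, nat_lit 20], false, nat_lit 240, nat_lit 320, nat_lit 240, nat_lit 320, ⟨nat_lit 1000, nat_lit 0, nat_lit 0, nat_lit 0, nat_lit 0, nat_lit 0, nat_lit 0, nat_lit 0, nat_lit 0, nat_lit 0, nat_lit 0, nat_lit 0, nat_lit 0, nat_lit 0, nat_lit 0, nat_lit 0, false, false⟩,
 nat_lit 0, nat_lit 8968, nat_lit 0, nat_lit 0, nat_lit 6208, nat_lit 4926, nat_lit 1960, nat_lit 0, nat_lit 0, nat_lit 0, nat_lit 0, nat_lit 0, nat_lit 0, nat_lit 0, nat_lit 0, nat_lit 0, nat_lit 0, nat_lit 0, [],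
 ⟨p071_k13, nat_lit 0, nat_lit 0, nat_lit 222, nat_lit 0, nat_lit 580876, [nat_lit 3282000000, nat_lit 4688000000], [], [nat_lit 18489783416, nat_lit 18605469587, nat_lit 18475368384, nat_lit 18595381306, nat_lit 22462517752, nat_lit 22562808649, nat_lit 22347422672, nat_lit 22445059666], nat_lit 1271250, nat_lit 1271250, nat_lit 631250, nat_lit 780000, nat_lit 1271250, nat_lit 1271250, [nat_lit 780000, nat_lit 1100000], [nat_lit 40, nat_lit 40, nat_lit 40, nat_lit 80, nat_lit 22, nat_lit 238, nat_lit 30, nat_lit 9]⟩, ⟨p071_k13, nat_lit 0, nat_lit 0, nat_lit 42, nat_lit 0, nat_lit 0, [nat_lit 3282000000, nat_lit 4688000000], [], [nat_lit 17836832482, nat_lit 17992904837, nat_lit 17872381404, nat_lit 18024472306, nat_lit 22857509206, nat_lit 22983018424, nat_lit 22770860164, nat_lit 22893375982], nat_lit 0, nat_lit 0, nat_lit 0, nat_lit 0, nat_lit 0, nat_lit 0, [], [nat_lit 40, nat_lit 40, nat_lit 40, nat_lit 80,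 nat_lit 22, nat_lit 238, nat_lit 30, nat_lit 9]⟩,
 zbF0, [⟨nat_lit 0, nat_lit 98, nat_lit 98, nat_lit 100, nat_lit 233417815⟩, ⟨nat_lit 4, nat_lit 94, nat_lit 97, nat_lit 100, nat_lit 147711071⟩, ⟨nat_lit 7, nat_lit 94, nat_lit 97, nat_lit 100, nat_lit 214257745⟩, ⟨nat_lit 11, nat_lit 95, nat_lit 95, nat_lit 100, nat_lit 366398502⟩]⟩
noncomputable def p071_l57 : Lf2 := ⟨nat_lit 0, nat_lit 2, [nat_lit 10, nat_lit 5, nat_lit 5, nat_lit 20], false, nat_lit 240, nat_lit 320, nat_lit 240, nat_lit 320, ⟨nat_lit 1000, nat_lit 0, nat_lit 0, nat_lit 0, nat_lit 0, nat_lit 0, nat_lit 0, nat_lit 0, nat_lit 0, nat_lit 0, nat_lit 0, nat_lit 0, nat_lit 0, nat_lit 0, nat_lit 0, nat_lit 0, false, false⟩,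
 nat_lit 0, nat_lit 8883, nat_lit 0, nat_lit 0, nat_lit 6200, nat_lit 4920, nat_lit 1766, nat_lit 0, nat_lit 0, nat_lit 0, nat_lit 0, nat_lit 0, nat_lit 0, nat_lit 0, nat_lit 0, nat_lit 0, nat_lit 0, nat_lit 0, [],
 ⟨p071_k31, nat_lit 0, nat_lit 0, nat_lit 231, nat_lit 0, nat_lit 590839, [nat_lit 3282000000, nat_lit 4688000000], [], [nat_lit 18655713010, nat_lit 18713517191, nat_lit 18624746171, nat_lit 18681345560, nat_lit 22585914320, nat_lit 22636029080, nat_lit 22468795040, nat_lit 22517584161], nat_lit 1271250, nat_lit 1271250, nat_lit 631250, nat_lit 780000, nat_lit 1271250, nat_lit 1271250, [nat_lit 780000, nat_lit 1100000], [nat_lit 40, nat_lit 40, nat_lit 40, nat_lit 80, nat_lit 22, nat_lit 238, nat_lit 30, nat_lit 9]⟩, ⟨p071_k13, nat_lit 0, nat_lit 0, nat_lit 43, nat_lit 0, nat_lit 0, [nat_lit 3282000000, nat_lit 4688000000], [], [nat_lit 17841869440, nat_lit 18075820636, nat_lit 17877913680, nat_lit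 18105898140, nat_lit 22859556520, nat_lit 23047707082, nat_lit 22773510880, nat_lit 22957175321], nat_lit 0, nat_lit 0, nat_lit 0, nat_lit 0, nat_lit 0, nat_lit 0, [], [nat_lit 40, nat_lit 40, nat_lit 40, nat_lit 80, nat_lit 22, nat_lit 238, nat_lit 30, nat_lit 9]⟩,
 zbF0, [⟨nat_lit 0, nat_lit 97, nat_lit 97, nat_lit 100, nat_lit 303949828⟩, ⟨nat_lit 4, nat_lit 95, nat_lit 96, nat_lit 100, nat_lit 147585382⟩, ⟨nat_lit 7, nat_lit 94, nat_lit 96, nat_lit 100, nat_lit 213691743⟩, ⟨nat_lit 11, nat_lit 95, nat_lit 95, nat_lit 100, nat_lit 360093955⟩]⟩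
noncomputable def p071_l58 : Lf2 := ⟨nat_lit 0, nat_lit 2, [nat_lit 10, nat_lit 5, nat_lit 5, nat_lit 20], false, nat_lit 240, nat_lit 316, nat_lit 240, nat_lit 320, ⟨nat_lit 1000, nat_lit 0, nat_lit 0, nat_lit 0, nat_lit 0, nat_lit 0, nat_lit 0, nat_lit 0, nat_lit 0, nat_lit 0, nat_lit 0, nat_lit 0, nat_lit 0, nat_lit 0, nat_lit 0, nat_lit 0, false, false⟩,
 nat_lit 0, nat_lit 9335, nat_lit 0, nat_lit 0, nat_lit 6542, nat_lit 4909, nat_lit 1677, nat_lit 0, nat_lit 0, nat_lit 0, nat_lit 0, nat_lit 0, nat_lit 0, nat_lit 14015350109915, nat_lit 0, nat_lit 0, nat_lit 0, nat_lit 0, [],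
 ⟨p071_k16, nat_lit 0, nat_lit 0, nat_lit 245, nat_lit 0, nat_lit 620298, [nat_lit 3282000000, nat_lit 4688000000], [], [nat_lit 17612994341, nat_lit 17732016145, nat_lit 17571649884, nat_lit 17695098062, nat_lit 21447348108, nat_lit 21551406404, nat_lit 21307527619, nat_lit 21408785487], nat_lit 1271250, nat_lit 1271250, nat_lit 631250, nat_lit 780000, nat_lit 1271250, nat_lit 1271250, [nat_lit 780000, nat_lit 1100000], [nat_lit 40, nat_lit 40, nat_lit 40, nat_lit 80, nat_lit 22, nat_lit 238, nat_lit 30, nat_lit 9]⟩, ⟨p071_k13, nat_lit 0, nat_lit 0, nat_lit 43, nat_lit 0, nat_lit 0, [nat_lit 3282000000, nat_lit 4688000000], [], [nat_lit 17851103863, nat_lit 18240541777, nat_lit 17888056186, nat_lit 18267566169, nat_lit 22863309929, nat_lit 23176548115, nat_lit 22778370526, nat_lit 23084143994], nat_lit 0, nat_lit 0, nat_lit 0, nat_lit 0, nat_lit 0, nat_lit 0, [], [nat_lit 40, nat_lit 40, nat_lit 40, nat_lit 80,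 nat_lit 22, nat_lit 238, nat_lit 30, nat_lit 9]⟩,
 zbF0, [⟨nat_lit 0, nat_lit 95, nat_lit 95, nat_lit 100, nat_lit 340266184⟩, ⟨nat_lit 16, nat_lit 96, nat_lit 95, nat_lit 100, nat_lit 170739870⟩, ⟨nat_lit 7, nat_lit 95, nat_lit 96, nat_lit 100, nat_lit 230827667⟩, ⟨nat_lit 11, nat_lit 95, nat_lit 95, nat_lit 100, nat_lit 340471032⟩]⟩
noncomputable def p071_l59 : Lf2 := ⟨nat_lit 0, nat_lit 2, [nat_lit 10, nat_lit 5, nat_lit 5, nat_lit 20], false, nat_lit 240, nat_lit 320, nat_lit 240, nat_lit 320, ⟨nat_lit 1000, nat_lit 0, nat_lit 0, nat_lit 0, nat_lit 0, nat_lit 0, nat_lit 0, nat_lit 0, nat_lit 0, nat_lit 0, nat_lit 0, nat_lit 0, nat_lit 0, nat_lit 0, nat_lit 0, nat_lit 0, false, false⟩,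
 nat_lit 0, nat_lit 8991, nat_lit 0, nat_lit 0, nat_lit 6224, nat_lit 4979, nat_lit 1924, nat_lit 0, nat_lit 0, nat_lit 0, nat_lit 0, nat_lit 0, nat_lit 0, nat_lit 0, nat_lit 0, nat_lit 0, nat_lit 0, nat_lit 0, [],
 ⟨p071_k13, nat_lit 0, nat_lit 0, nat_lit 243, nat_lit 0, nat_lit 631023, [nat_lit 3282000000, nat_lit 4688000000], [], [nat_lit 18442414592, nat_lit 18724145288, nat_lit 18864214592, nat_lit 19145945288, nat_lit 22299834416, nat_lit 22544220668, nat_lit 22494416352, nat_lit 22740110680], nat_lit 1271250, nat_lit 1271250, nat_lit 780000, nat_lit 1100001, nat_lit 1271250, nat_lit 1271250, [nat_lit 780000, nat_lit 1100000], [nat_lit 40, nat_lit 40, nat_lit 40, nat_lit 80, nat_lit 22, nat_lit 249, nat_lit 40, nat_lit 10]⟩, ⟨p071_k13, nat_lit 0, nat_lit 0, nat_lit 37, nat_lit 0, nat_lit 0, [nat_lit 3282000000, nat_lit 4688000000], [], [nat_lit 17823512966, nat_lit 18205976424, nat_lit 18470376128, nat_lit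 18829621356, nat_lit 22747445506, nat_lit 23055343999, nat_lit 23100971634, nat_lit 23391080718], nat_lit 0, nat_lit 0, nat_lit 0, nat_lit 0, nat_lit 0, nat_lit 0, [], [nat_lit 40, nat_lit 40, nat_lit 40, nat_lit 80, nat_lit 22, nat_lit 249, nat_lit 40, nat_lit 10]⟩,
 zbF0, [⟨nat_lit 16, nat_lit 96, nat_lit 95, nat_lit 100, nat_lit 156072466⟩, ⟨nat_lit 7, nat_lit 95, nat_lit 96, nat_lit 100, nat_lit 223052209⟩, ⟨nat_lit 11, nat_lit 85, nat_lit 85, nat_lit 100, nat_lit 391721978⟩]⟩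
noncomputable def b_V_700_700_20_26 : St := ⟨true, nat_lit 1, nat_lit 0, nat_lit 1, nat_lit 120, nat_lit 300, nat_lit 305, nat_lit 300, nat_lit 310, nat_lit 100, nat_lit 160, nat_lit 80, nat_lit 120, nat_lit 240, nat_lit 320, nat_lit 240, nat_lit 320, nat_lit 0, nat_lit 8, nat_lit 600, nat_lit 0, nat_lit 0, nat_lit 0⟩
theorem d_V_700_700_20_26 (h : EB TB.env) : Dead b_V_700_700_20_26 := chkB_sound0 h (T :=
(.ord (.spl (nat_lit 3) (nat_lit 100)
(.trX (nat_lit 16) (nat_lit 100) (nat_lit 100) (nat_lit 100) (nat_lit 300) (.trX (nat_lit 19) (nat_lit 100) (nat_lit 100) (nat_lit 100) (nat_lit 300) (.leaf p071_l55)))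
(.spl (nat_lit 2) (nat_lit 120)
(.spl (nat_lit 0) (nat_lit 303)
(.ord (.spl (nat_lit 0) (nat_lit 302)
(.ord (.leaf p071_l56))
(.leaf p071_l57)))
(.trX (nat_lit 16) (nat_lit 94) (nat_lit 89) (nat_lit 100) (nat_lit 316) (.leaf p071_l58)))
(.leaf p071_l59))))) (by decide +kernel)
noncomputable def p071_l60 : Lf2 := ⟨nat_lit 0, nat_lit 1, [nat_lit 19, nat_lit 5, nat_lit 5, nat_lit 20], false, nat_lit 240, nat_lit 316, nat_lit 240, nat_lit 320, ⟨nat_lit 1000, nat_lit 0, nat_lit 0, nat_lit 0, nat_lit 0, nat_lit 0, nat_lit 0, nat_lit 0, nat_lit 0, nat_lit 0, nat_lit 0, nat_lit 0, nat_lit 0, nat_lit 0, nat_lit 0, nat_lit 0, false, false⟩,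
 nat_lit 0, nat_lit 9256, nat_lit 0, nat_lit 0, nat_lit 6539, nat_lit 4917, nat_lit 1537, nat_lit 0, nat_lit 0, nat_lit 0, nat_lit 0, nat_lit 0, nat_lit 0, nat_lit 0, nat_lit 0, nat_lit 0, nat_lit 0, nat_lit 0, [],
 ⟨p071_k32, nat_lit 0, nat_lit 0, nat_lit 246, nat_lit 0, nat_lit 625990, [nat_lit 3282000000, nat_lit 4688000000], [], [nat_lit 17738467928, nat_lit 17797593331, nat_lit 17704801379, nat_lit 17766510041, nat_lit 21531603207, nat_lit 21583340676, nat_lit 21417694983, nat_lit 21468312680], nat_lit 1271250, nat_lit 1271250, nat_lit 660400, nat_lit 780000, nat_lit 1271250, nat_lit 1271250, [nat_lit 780000, nat_lit 1100000], [nat_lit 40, nat_lit 40, nat_lit 40, nat_lit 80, nat_lit 22, nat_lit 238, nat_lit 30, nat_lit 9]⟩, ⟨p071_k33, nat_lit 0, nat_lit 0, nat_lit 43, nat_lit 0, nat_lit 0, [nat_lit 3282000000, nat_lit 4688000000], [], [nat_lit 17851646299, nat_lit 18317005750, nat_lit 17880679818, nat_lit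 18336496845, nat_lit 22843431390, nat_lit 23217825596, nat_lit 22774836238, nat_lit 23142055831], nat_lit 0, nat_lit 0, nat_lit 0, nat_lit 0, nat_lit 0, nat_lit 0, [], [nat_lit 40, nat_lit 40, nat_lit 40, nat_lit 80, nat_lit 22, nat_lit 238, nat_lit 30, nat_lit 9]⟩,
 zbF0, [⟨nat_lit 0, nat_lit 94, nat_lit 94, nat_lit 100, nat_lit 344676802⟩, ⟨nat_lit 4, nat_lit 96, nat_lit 95, nat_lit 100, nat_lit 167734126⟩, ⟨nat_lit 7, nat_lit 95, nat_lit 96, nat_lit 100, nat_lit 226164447⟩, ⟨nat_lit 11, nat_lit 94, nat_lit 94, nat_lit 100, nat_lit 348121745⟩]⟩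
noncomputable def p071_l61 : Lf2 := ⟨nat_lit 0, nat_lit 1, [nat_lit 19, nat_lit 5, nat_lit 5, nat_lit 20], false, nat_lit 240, nat_lit 316, nat_lit 240, nat_lit 320, ⟨nat_lit 1000, nat_lit 0, nat_lit 0, nat_lit 0, nat_lit 0, nat_lit 0, nat_lit 0, nat_lit 0, nat_lit 0, nat_lit 0, nat_lit 0, nat_lit 0, nat_lit 0, nat_lit 0, nat_lit 0, nat_lit 0, false, false⟩,
 nat_lit 0, nat_lit 9241, nat_lit 0, nat_lit 0, nat_lit 6555, nat_lit 4967, nat_lit 1460, nat_lit 0, nat_lit 0, nat_lit 0, nat_lit 0, nat_lit 0, nat_lit 0, nat_lit 12170250819927, nat_lit 0, nat_lit 0, nat_lit 0, nat_lit 0, [],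
 ⟨p071_k34, nat_lit 0, nat_lit 0, nat_lit 250, nat_lit 0, nat_lit 638785, [nat_lit 3282000000, nat_lit 4688000000], [], [nat_lit 17763908371, nat_lit 17823110953, nat_lit 17714841298, nat_lit 17776632242, nat_lit 21561117032, nat_lit 21626949975, nat_lit 21420855295, nat_lit 21471532922], nat_lit 1271250, nat_lit 1271250, nat_lit 660400, nat_lit 780000, nat_lit 1271250, nat_lit 1271250, [nat_lit 780000, nat_lit 1100000], [nat_lit 40, nat_lit 40, nat_lit 40, nat_lit 80, nat_lit 22, nat_lit 238, nat_lit 30, nat_lit 9]⟩, ⟨p071_k33, nat_lit 0, nat_lit 0, nat_lit 43, nat_lit 0, nat_lit 0, [nat_lit 3282000000, nat_lit 4688000000], [], [nat_lit 17808846119, nat_lit 18354803612, nat_lit 17834577518, nat_lit 18369317525, nat_lit 22840870087, nat_lit 23324601151, nat_lit 22752746938, nat_lit 23183294822], nat_lit 0, nat_lit 0, nat_lit 0, nat_lit 0, nat_lit 0, nat_lit 0, [], [nat_lit 40, nat_lit 40, nat_lit 40, nat_lit 80,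 nat_lit 22, nat_lit 238, nat_lit 30, nat_lit 9]⟩,
 zbF0, [⟨nat_lit 0, nat_lit 93, nat_lit 93, nat_lit 100, nat_lit 391035838⟩, ⟨nat_lit 4, nat_lit 96, nat_lit 95, nat_lit 100, nat_lit 168938002⟩, ⟨nat_lit 7, nat_lit 95, nat_lit 96, nat_lit 100, nat_lit 228388024⟩, ⟨nat_lit 11, nat_lit 94, nat_lit 94, nat_lit 100, nat_lit 346418783⟩]⟩
noncomputable def p071_l62 : Lf2 := ⟨nat_lit 0, nat_lit 1, [nat_lit 19, nat_lit 5, nat_lit 5, nat_lit 20], false, nat_lit 240, nat_lit 316, nat_lit 240, nat_lit 320, ⟨nat_lit 1000, nat_lit 0, nat_lit 0, nat_lit 0, nat_lit 0, nat_lit 0, nat_lit 0, nat_lit 0, nat_lit 0, nat_lit 0, nat_lit 0, nat_lit 0, nat_lit 0, nat_lit 0, nat_lit 0, nat_lit 0, false, false⟩,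
 nat_lit 0, nat_lit 9192, nat_lit 0, nat_lit 0, nat_lit 6547, nat_lit 4979, nat_lit 1401, nat_lit 0, nat_lit 0, nat_lit 0, nat_lit 0, nat_lit 0, nat_lit 0, nat_lit 0, nat_lit 0, nat_lit 0, nat_lit 0, nat_lit 0, [],
 ⟨p071_k35, nat_lit 0, nat_lit 0, nat_lit 246, nat_lit 0, nat_lit 625818, [nat_lit 3282000000, nat_lit 4688000000], [], [nat_lit 17856169532, nat_lit 17915333525, nat_lit 17806086375, nat_lit 17864175274, nat_lit 21637215551, nat_lit 21703004611, nat_lit 21495231650, nat_lit 21545879311], nat_lit 1271250, nat_lit 1271250, nat_lit 660400, nat_lit 780000, nat_lit 1271250, nat_lit 1271250, [nat_lit 780000, nat_lit 1100000], [nat_lit 40, nat_lit 40, nat_lit 40, nat_lit 80, nat_lit 22, nat_lit 238, nat_lit 30, nat_lit 9]⟩, ⟨p071_k33, nat_lit 0, nat_lit 0, nat_lit 42, nat_lit 0, nat_lit 0, [nat_lit 3282000000, nat_lit 4688000000], [], [nat_lit 17798574076, nat_lit 18189064536, nat_lit 17823512966, nat_lit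 18205976424, nat_lit 22849441692, nat_lit 23195391267, nat_lit 22747445506, nat_lit 23055343999], nat_lit 0, nat_lit 0, nat_lit 0, nat_lit 0, nat_lit 0, nat_lit 0, [], [nat_lit 40, nat_lit 40, nat_lit 40, nat_lit 80, nat_lit 22, nat_lit 238, nat_lit 30, nat_lit 9]⟩,
 zbF0, [⟨nat_lit 0, nat_lit 94, nat_lit 93, nat_lit 100, nat_lit 382144622⟩, ⟨nat_lit 4, nat_lit 96, nat_lit 94, nat_lit 100, nat_lit 164496205⟩, ⟨nat_lit 7, nat_lit 95, nat_lit 96, nat_lit 100, nat_lit 225493093⟩, ⟨nat_lit 11, nat_lit 94, nat_lit 94, nat_lit 100, nat_lit 351723865⟩]⟩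
noncomputable def p071_l63 : Lf2 := ⟨nat_lit 0, nat_lit 1, [nat_lit 19, nat_lit 5, nat_lit 5, nat_lit 20], false, nat_lit 240, nat_lit 280, nat_lit 240, nat_lit 316, ⟨nat_lit 1000, nat_lit 0, nat_lit 0, nat_lit 0, nat_lit 0, nat_lit 0, nat_lit 0, nat_lit 0, nat_lit 0, nat_lit 0, nat_lit 0, nat_lit 0, nat_lit 0, nat_lit 0, nat_lit 0, nat_lit 0, false, false⟩,
 nat_lit 0, nat_lit 9611, nat_lit 0, nat_lit 0, nat_lit 6845, nat_lit 4974, nat_lit 1388, nat_lit 0, nat_lit 0, nat_lit 0, nat_lit 0, nat_lit 0, nat_lit 0, nat_lit 0, nat_lit 0, nat_lit 0, nat_lit 0, nat_lit 0, [],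
 ⟨p071_k35, nat_lit 0, nat_lit 0, nat_lit 243, nat_lit 0, nat_lit 651382, [nat_lit 3282000000, nat_lit 4688000000], [], [nat_lit 16874751260, nat_lit 16934673785, nat_lit 16841627640, nat_lit 16904909936, nat_lit 18873393686, nat_lit 18931263124, nat_lit 18826273121, nat_lit 18883493081], nat_lit 1271250, nat_lit 1271250, nat_lit 719601, nat_lit 780000, nat_lit 1271250, nat_lit 1271250, [nat_lit 780000, nat_lit 1100000], [nat_lit 40, nat_lit 40, nat_lit 40, nat_lit 80, nat_lit 22, nat_lit 238, nat_lit 30, nat_lit 9]⟩, ⟨p071_k32, nat_lit 0, nat_lit 0, nat_lit 39, nat_lit 0, nat_lit 0, [nat_lit 3282000000, nat_lit 4688000000], [], [nat_lit 18201751618, nat_lit 18433509402, nat_lit 18210375691, nat_lit 18439727188, nat_lit 22852243523, nat_lit 23060142934, nat_lit 22815049869, nat_lit 23001933066], nat_lit 0, nat_lit 0, nat_lit 0, nat_lit 0, nat_lit 0, nat_lit 0, [], [nat_lit 40, nat_lit 40, nat_lit 40, nat_lit 80,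 nat_lit 22, nat_lit 238, nat_lit 30, nat_lit 9]⟩,
 zbF0, [⟨nat_lit 0, nat_lit 94, nat_lit 93, nat_lit 100, nat_lit 688425569⟩, ⟨nat_lit 19, nat_lit 93, nat_lit 90, nat_lit 100, nat_lit 587066439⟩]⟩
noncomputable def p071_l64 : Lf2 := ⟨nat_lit 0, nat_lit 1, [nat_lit 19, nat_lit 5, nat_lit 5, nat_lit 20], false, nat_lit 280, nat_lit 316, nat_lit 240, nat_lit 280, ⟨nat_lit 1000, nat_lit 0, nat_lit 0, nat_lit 0, nat_lit 0, nat_lit 0, nat_lit 0, nat_lit 0, nat_lit 0, nat_lit 0, nat_lit 0, nat_lit 0, nat_lit 0, nat_lit 0, nat_lit 0, nat_lit 0, false, false⟩,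
 nat_lit 0, nat_lit 9182, nat_lit 0, nat_lit 0, nat_lit 6540, nat_lit 5197, nat_lit 1306, nat_lit 0, nat_lit 0, nat_lit 0, nat_lit 0, nat_lit 0, nat_lit 0, nat_lit 10925808793422, nat_lit 0, nat_lit 0, nat_lit 0, nat_lit 0, [],
 ⟨p071_k35, nat_lit 0, nat_lit 0, nat_lit 252, nat_lit 0, nat_lit 651382, [nat_lit 3282000000, nat_lit 4688000000], [], [nat_lit 19813695186, nat_lit 19866654004, nat_lit 19768101167, nat_lit 19823487892, nat_lit 21574073471, nat_lit 21633428718, nat_lit 21515968036, nat_lit 21566589478], nat_lit 1271250, nat_lit 1271250, nat_lit 719601, nat_lit 780000, nat_lit 1271250, nat_lit 1271250, [nat_lit 780000, nat_lit 1100000], [nat_lit 40, nat_lit 40, nat_lit 40, nat_lit 80, nat_lit 22, nat_lit 238, nat_lit 30, nat_lit 9]⟩, ⟨p071_k32, nat_lit 0, nat_lit 0, nat_lit 27, nat_lit 0, nat_lit 0, [nat_lit 3282000000, nat_lit 4688000000], [], [nat_lit 18013042863, nat_lit 18250526912, nat_lit 18014168361,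 nat_lit 18249165214, nat_lit 20520424598, nat_lit 20757969082, nat_lit 20489910473, nat_lit 20701763829], nat_lit 0, nat_lit 0, nat_lit 0, nat_lit 0, nat_lit 0, nat_lit 0, [], [nat_lit 40, nat_lit 40, nat_lit 40, nat_lit 80, nat_lit 22, nat_lit 238, nat_lit 30, nat_lit 9]⟩,
 zbF0, [⟨nat_lit 0, nat_lit 93, nat_lit 93, nat_lit 100, nat_lit 715653022⟩, ⟨nat_lit 16, nat_lit 92, nat_lit 90, nat_lit 100, nat_lit 538710288⟩]⟩
noncomputable def p071_l65 : Lf2 := ⟨nat_lit 0, nat_lit 1, [nat_lit 19, nat_lit 5, nat_lit 5, nat_lit 20], true, nat_lit 280, nat_lit 316, nat_lit 280, nat_lit 316, ⟨nat_lit 0, nat_lit 696, nat_lit 304, nat_lit 7, nat_lit 185, nat_lit 1000, nat_lit 230, nat_lit 304, nat_lit 1350, nat_lit 206, nat_lit 102534, nat_lit 293, nat_lit 41207560, nat_lit 10699696, nat_lit 15092744, nat_lit 4998708, false, false⟩,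
 nat_lit 0, nat_lit 42328, nat_lit 0, nat_lit 0, nat_lit 30150, nat_lit 0, nat_lit 3758, nat_lit 1802, nat_lit 0, nat_lit 0, nat_lit 0, nat_lit 0, nat_lit 0, nat_lit 26196541384442, nat_lit 0, nat_lit 1000000, nat_lit 0, nat_lit 0, [(nat_lit 15, [(nat_lit 2, nat_lit 696), (nat_lit 6, nat_lit 304)])],
 ⟨p071_k35, nat_lit 0, nat_lit 0, nat_lit 142, nat_lit 0, nat_lit 356385, [nat_lit 23301002240, nat_lit 29732326400], [], [nat_lit 24799777013, nat_lit 24990372190, nat_lit 24415812219, nat_lit 24605051866, nat_lit 30456049753, nat_lit 30648667512, nat_lit 29990113679, nat_lit 30181409320], nat_lit 1271250, nat_lit 1271250, nat_lit 719601, nat_lit 749650, nat_lit 1271250, nat_lit 1271250, [nat_lit 780000, nat_lit 1100000], [nat_lit 40, nat_lit 40, nat_lit 40, nat_lit 80, nat_lit 22, nat_lit 238, nat_lit 30, nat_lit 9]⟩, C1.Rw.none,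
 ⟨nat_lit 4795, nat_lit 4822, ⟨.ofNat (nat_lit 458230), .ofNat (nat_lit 465251), .ofNat (nat_lit 461450), .ofNat (nat_lit 468471), .ofNat (nat_lit 458643), .ofNat (nat_lit 465647), .ofNat (nat_lit 461864), .ofNat (nat_lit 468868)⟩, ⟨.ofNat (nat_lit 533091), .ofNat (nat_lit 596287), .ofNat (nat_lit 554559), .ofNat (nat_lit 617755), .ofNat (nat_lit 532714), .ofNat (nat_lit 595754), .ofNat (nat_lit 554189), .ofNat (nat_lit 617229)⟩⟩, [⟨nat_lit 0, nat_lit 93, nat_lit 93, nat_lit 100, nat_lit 2177045926⟩, ⟨nat_lit 16, nat_lit 92, nat_lit 90, nat_lit 100, nat_lit 1801549421⟩]⟩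
noncomputable def p071_l66 : Lf2 := ⟨nat_lit 0, nat_lit 1, [nat_lit 19, nat_lit 5, nat_lit 5, nat_lit 20], false, nat_lit 280, nat_lit 316, nat_lit 280, nat_lit 316, ⟨nat_lit 1000, nat_lit 0, nat_lit 0, nat_lit 0, nat_lit 0, nat_lit 0, nat_lit 0, nat_lit 0, nat_lit 0, nat_lit 0, nat_lit 0, nat_lit 0, nat_lit 0, nat_lit 0, nat_lit 0, nat_lit 0, false, false⟩,
 nat_lit 0, nat_lit 9183, nat_lit 0, nat_lit 0, nat_lit 6541, nat_lit 4970, nat_lit 1306, nat_lit 0, nat_lit 0, nat_lit 0, nat_lit 0, nat_lit 0, nat_lit 0, nat_lit 0, nat_lit 0, nat_lit 0, nat_lit 0, nat_lit 0, [],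
 ⟨p071_k35, nat_lit 0, nat_lit 0, nat_lit 250, nat_lit 0, nat_lit 651382, [nat_lit 3282000000, nat_lit 4688000000], [], [nat_lit 19787743180, nat_lit 19840412466, nat_lit 19764931239, nat_lit 19820405942, nat_lit 21542074189, nat_lit 21592979386, nat_lit 21513005695, nat_lit 21563630883], nat_lit 1271250, nat_lit 1271250, nat_lit 749650, nat_lit 780000, nat_lit 1271250, nat_lit 1271250, [nat_lit 780000, nat_lit 1100000], [nat_lit 40, nat_lit 40, nat_lit 40, nat_lit 80, nat_lit 22, nat_lit 238, nat_lit 30, nat_lit 9]⟩, ⟨p071_k32, nat_lit 0, nat_lit 0, nat_lit 38, nat_lit 0, nat_lit 0, [nat_lit 3282000000, nat_lit 4688000000], [], [nat_lit 20644141946, nat_lit 20852107781, nat_lit 20636470980, nat_lit 20843383680, nat_lit 22835305462, nat_lit 23023033162, nat_lit 22816789268, nat_lit 23003598186], nat_lit 0, nat_lit 0, nat_lit 0, nat_lit 0, nat_lit 0, nat_lit 0, [], [nat_lit 40, nat_lit 40, nat_lit 40, nat_lit 80,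 nat_lit 22, nat_lit 238, nat_lit 30, nat_lit 9]⟩,
 zbF0, [⟨nat_lit 0, nat_lit 93, nat_lit 93, nat_lit 100, nat_lit 326270121⟩, ⟨nat_lit 16, nat_lit 92, nat_lit 90, nat_lit 100, nat_lit 187369989⟩, ⟨nat_lit 19, nat_lit 93, nat_lit 90, nat_lit 100, nat_lit 247754895⟩, ⟨nat_lit 11, nat_lit 92, nat_lit 92, nat_lit 100, nat_lit 352051635⟩]⟩
noncomputable def p071_l67 : Lf2 := ⟨nat_lit 0, nat_lit 1, [nat_lit 19, nat_lit 5, nat_lit 5, nat_lit 20], false, nat_lit 240, nat_lit 312, nat_lit 240, nat_lit 320, ⟨nat_lit 1000, nat_lit 0, nat_lit 0, nat_lit 0, nat_lit 0, nat_lit 0, nat_lit 0, nat_lit 0, nat_lit 0, nat_lit 0, nat_lit 0, nat_lit 0, nat_lit 0, nat_lit 0, nat_lit 0, nat_lit 0, false, false⟩,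
 nat_lit 0, nat_lit 9177, nat_lit 0, nat_lit 0, nat_lit 6563, nat_lit 4979, nat_lit 1342, nat_lit 0, nat_lit 0, nat_lit 0, nat_lit 0, nat_lit 0, nat_lit 0, nat_lit 0, nat_lit 0, nat_lit 0, nat_lit 0, nat_lit 0, [],
 ⟨p071_k36, nat_lit 0, nat_lit 0, nat_lit 248, nat_lit 0, nat_lit 637636, [nat_lit 3282000000, nat_lit 4688000000], [], [nat_lit 17859031315, nat_lit 17976856995, nat_lit 17819825868, nat_lit 17936335262, nat_lit 21391381829, nat_lit 21524070428, nat_lit 21304548592, nat_lit 21407134775], nat_lit 1271250, nat_lit 1271250, nat_lit 689850, nat_lit 780000, nat_lit 1271250, nat_lit 1271250, [nat_lit 780000, nat_lit 1100000], [nat_lit 40, nat_lit 40, nat_lit 40, nat_lit 80, nat_lit 22, nat_lit 238, nat_lit 30, nat_lit 9]⟩, ⟨p071_k33, nat_lit 0, nat_lit 0, nat_lit 41, nat_lit 0, nat_lit 0, [nat_lit 3282000000, nat_lit 4688000000], [], [nat_lit 17804808799, nat_lit 18193292508, nat_lit 17823512966, nat_lit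 18205976424, nat_lit 22815953609, nat_lit 23160303581, nat_lit 22747445506, nat_lit 23055343999], nat_lit 0, nat_lit 0, nat_lit 0, nat_lit 0, nat_lit 0, nat_lit 0, [], [nat_lit 40, nat_lit 40, nat_lit 40, nat_lit 80, nat_lit 22, nat_lit 238, nat_lit 30, nat_lit 9]⟩,
 zbF0, [⟨nat_lit 0, nat_lit 94, nat_lit 92, nat_lit 100, nat_lit 383829221⟩, ⟨nat_lit 16, nat_lit 94, nat_lit 97, nat_lit 100, nat_lit 163726996⟩, ⟨nat_lit 7, nat_lit 95, nat_lit 96, nat_lit 100, nat_lit 226997870⟩, ⟨nat_lit 11, nat_lit 94, nat_lit 94, nat_lit 100, nat_lit 350187071⟩]⟩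
noncomputable def p071_l68 : Lf2 := ⟨nat_lit 0, nat_lit 1, [nat_lit 19, nat_lit 5, nat_lit 5, nat_lit 20], false, nat_lit 240, nat_lit 312, nat_lit 240, nat_lit 280, ⟨nat_lit 1000, nat_lit 0, nat_lit 0, nat_lit 0, nat_lit 0, nat_lit 0, nat_lit 0, nat_lit 0, nat_lit 0, nat_lit 0, nat_lit 0, nat_lit 0, nat_lit 0, nat_lit 0, nat_lit 0, nat_lit 0, false, false⟩,
 nat_lit 0, nat_lit 9201, nat_lit 0, nat_lit 0, nat_lit 6580, nat_lit 5189, nat_lit 1346, nat_lit 0, nat_lit 0, nat_lit 0, nat_lit 0, nat_lit 0, nat_lit 0, nat_lit 10047728117146, nat_lit 0, nat_lit 0, nat_lit 0, nat_lit 0, [],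
 ⟨p071_k36, nat_lit 0, nat_lit 0, nat_lit 255, nat_lit 0, nat_lit 663782, [nat_lit 3282000000, nat_lit 4688000000], [], [nat_lit 17785209902, nat_lit 17843875071, nat_lit 17758605452, nat_lit 17819867413, nat_lit 21330382460, nat_lit 21396467970, nat_lit 21254019468, nat_lit 21318509882], nat_lit 1271250, nat_lit 1271250, nat_lit 719601, nat_lit 780000, nat_lit 1271250, nat_lit 1271250, [nat_lit 780000, nat_lit 1100000], [nat_lit 40, nat_lit 40, nat_lit 40, nat_lit 80, nat_lit 22, nat_lit 238, nat_lit 30, nat_lit 9]⟩, ⟨p071_k32, nat_lit 0, nat_lit 0, nat_lit 27, nat_lit 0, nat_lit 0, [nat_lit 3282000000, nat_lit 4688000000], [], [nat_lit 18019812684, nat_lit 18336184181, nat_lit 18021207189, nat_lit 18334266295, nat_lit 20518552791, nat_lit 20833432235, nat_lit 20495075601, nat_lit 20777314581], nat_lit 0, nat_lit 0, nat_lit 0, nat_lit 0, nat_lit 0, nat_lit 0, [], [nat_lit 40, nat_lit 40, nat_lit 40, nat_lit 80,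 nat_lit 22, nat_lit 238, nat_lit 30, nat_lit 9]⟩,
 zbF0, [⟨nat_lit 0, nat_lit 92, nat_lit 92, nat_lit 100, nat_lit 743632764⟩, ⟨nat_lit 16, nat_lit 92, nat_lit 91, nat_lit 100, nat_lit 526995126⟩]⟩
noncomputable def p071_l69 : Lf2 := ⟨nat_lit 0, nat_lit 1, [nat_lit 19, nat_lit 5, nat_lit 5, nat_lit 20], false, nat_lit 240, nat_lit 280, nat_lit 280, nat_lit 316, ⟨nat_lit 1000, nat_lit 0, nat_lit 0, nat_lit 0, nat_lit 0, nat_lit 0, nat_lit 0, nat_lit 0, nat_lit 0, nat_lit 0, nat_lit 0, nat_lit 0, nat_lit 0, nat_lit 0, nat_lit 0, nat_lit 0, false, false⟩,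
 nat_lit 0, nat_lit 9557, nat_lit 0, nat_lit 0, nat_lit 6834, nat_lit 4974, nat_lit 1288, nat_lit 0, nat_lit 0, nat_lit 0, nat_lit 0, nat_lit 0, nat_lit 0, nat_lit 0, nat_lit 0, nat_lit 0, nat_lit 0, nat_lit 0, [],
 ⟨p071_k36, nat_lit 0, nat_lit 0, nat_lit 247, nat_lit 0, nat_lit 663782, [nat_lit 3282000000, nat_lit 4688000000], [], [nat_lit 17034263916, nat_lit 17094134249, nat_lit 17000674690, nat_lit 17059866967, nat_lit 18964842582, nat_lit 19022662712, nat_lit 18917394534, nat_lit 18974566014], nat_lit 1271250, nat_lit 1271250, nat_lit 719601, nat_lit 780000, nat_lit 1271250, nat_lit 1271250, [nat_lit 780000, nat_lit 1100000], [nat_lit 40, nat_lit 40, nat_lit 40, nat_lit 80, nat_lit 22, nat_lit 238, nat_lit 30, nat_lit 9]⟩, ⟨p071_k32, nat_lit 0, nat_lit 0, nat_lit 40, nat_lit 0, nat_lit 0, [nat_lit 3282000000, nat_lit 4688000000], [], [nat_lit 20649378937, nat_lit 20928188652, nat_lit 20633888416, nat_lit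 20909888096, nat_lit 22852243523, nat_lit 23129536516, nat_lit 22815049869, nat_lit 23064227465], nat_lit 0, nat_lit 0, nat_lit 0, nat_lit 0, nat_lit 0, nat_lit 0, [], [nat_lit 40, nat_lit 40, nat_lit 40, nat_lit 80, nat_lit 22, nat_lit 238, nat_lit 30, nat_lit 9]⟩,
 zbF0, [⟨nat_lit 0, nat_lit 94, nat_lit 93, nat_lit 100, nat_lit 687809763⟩, ⟨nat_lit 19, nat_lit 93, nat_lit 90, nat_lit 100, nat_lit 597550310⟩]⟩
noncomputable def p071_l70 : Lf2 := ⟨nat_lit 0, nat_lit 1, [nat_lit 19, nat_lit 5, nat_lit 5, nat_lit 20], true, nat_lit 280, nat_lit 312, nat_lit 280, nat_lit 316, ⟨nat_lit 0, nat_lit 382, nat_lit 618, nat_lit 7, nat_lit 186, nat_lit 1000, nat_lit 228, nat_lit 618, nat_lit 4119, nat_lit 209, nat_lit 97440, nat_lit 291, nat_lit 41302660, nat_lit 10749564, nat_lit 14947776, nat_lit 4992382, false, false⟩,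
 nat_lit 0, nat_lit 85854, nat_lit 0, nat_lit 0, nat_lit 61400, nat_lit 0, nat_lit 7987, nat_lit 4003, nat_lit 0, nat_lit 0, nat_lit 0, nat_lit 0, nat_lit 0, nat_lit 0, nat_lit 0, nat_lit 1000000, nat_lit 0, nat_lit 0, [(nat_lit 15, [(nat_lit 2, nat_lit 382), (nat_lit 6, nat_lit 618)])],
 ⟨p071_k36, nat_lit 0, nat_lit 0, nat_lit 145, nat_lit 0, nat_lit 362909, [nat_lit 49398550080, nat_lit 64245468800], [], [nat_lit 31162882082, nat_lit 31518093700, nat_lit 30293167261, nat_lit 30648581126, nat_lit 40430839253, nat_lit 40798716209, nat_lit 39413643526, nat_lit 39772478139], nat_lit 1271250, nat_lit 1271250, nat_lit 719601, nat_lit 749650, nat_lit 1271250, nat_lit 1271250, [nat_lit 780000, nat_lit 1100000], [nat_lit 40, nat_lit 40, nat_lit 40, nat_lit 80, nat_lit 22, nat_lit 238, nat_lit 30, nat_lit 9]⟩, C1.Rw.none,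
 ⟨nat_lit 4769, nat_lit 4796, ⟨.ofNat (nat_lit 458643), .ofNat (nat_lit 465647), .ofNat (nat_lit 462938), .ofNat (nat_lit 469942), .ofNat (nat_lit 459057), .ofNat (nat_lit 466044), .ofNat (nat_lit 463353), .ofNat (nat_lit 470340)⟩, ⟨.ofNat (nat_lit 532714), .ofNat (nat_lit 588750), .ofNat (nat_lit 554189), .ofNat (nat_lit 610224), .ofNat (nat_lit 532336), .ofNat (nat_lit 588234), .ofNat (nat_lit 553817), .ofNat (nat_lit 609715)⟩⟩, [⟨nat_lit 0, nat_lit 93, nat_lit 93, nat_lit 100, nat_lit 5556406179⟩, ⟨nat_lit 16, nat_lit 92, nat_lit 91, nat_lit 100, nat_lit 3724446191⟩]⟩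
noncomputable def p071_l71 : Lf2 := ⟨nat_lit 0, nat_lit 1, [nat_lit 19, nat_lit 5, nat_lit 5, nat_lit 20], false, nat_lit 280, nat_lit 312, nat_lit 280, nat_lit 316, ⟨nat_lit 1000, nat_lit 0, nat_lit 0, nat_lit 0, nat_lit 0, nat_lit 0, nat_lit 0, nat_lit 0, nat_lit 0, nat_lit 0, nat_lit 0, nat_lit 0, nat_lit 0, nat_lit 0, nat_lit 0, nat_lit 0, false, false⟩,
 nat_lit 0, nat_lit 9181, nat_lit 0, nat_lit 0, nat_lit 6565, nat_lit 4976, nat_lit 1250, nat_lit 0, nat_lit 0, nat_lit 0, nat_lit 0, nat_lit 0, nat_lit 0, nat_lit 0, nat_lit 0, nat_lit 0, nat_lit 0, nat_lit 0, [],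
 ⟨p071_k36, nat_lit 0, nat_lit 0, nat_lit 248, nat_lit 0, nat_lit 646838, [nat_lit 3282000000, nat_lit 4688000000], [], [nat_lit 19774038937, nat_lit 19826804612, nat_lit 19750574193, nat_lit 19803045443, nat_lit 21327227352, nat_lit 21378812601, nat_lit 21298603990, nat_lit 21349904719], nat_lit 1271250, nat_lit 1271250, nat_lit 749650, nat_lit 780000, nat_lit 1271250, nat_lit 1271250, [nat_lit 780000, nat_lit 1100000], [nat_lit 40, nat_lit 40, nat_lit 40, nat_lit 80, nat_lit 22, nat_lit 238, nat_lit 30, nat_lit 9]⟩, ⟨p071_k32, nat_lit 0, nat_lit 0, nat_lit 38, nat_lit 0, nat_lit 0, [nat_lit 3282000000, nat_lit 4688000000], [], [nat_lit 20640379542, nat_lit 20779111120, nat_lit 20632597134, nat_lit 20770625995, nat_lit 22832817313, nat_lit 22958043931, nat_lit 22814180169, nat_lit 22938793727], nat_lit 0, nat_lit 0, nat_lit 0, nat_lit 0, nat_lit 0, nat_lit 0, [], [nat_lit 40, nat_lit 40, nat_lit 40, nat_lit 80,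 nat_lit 22, nat_lit 238, nat_lit 30, nat_lit 9]⟩,
 zbF0, [⟨nat_lit 0, nat_lit 93, nat_lit 92, nat_lit 100, nat_lit 341906017⟩, ⟨nat_lit 16, nat_lit 92, nat_lit 91, nat_lit 100, nat_lit 183045337⟩, ⟨nat_lit 19, nat_lit 93, nat_lit 90, nat_lit 100, nat_lit 247536844⟩, ⟨nat_lit 11, nat_lit 92, nat_lit 92, nat_lit 100, nat_lit 353482531⟩]⟩
noncomputable def p071_l72 : Lf2 := ⟨nat_lit 0, nat_lit 1, [nat_lit 19, nat_lit 5, nat_lit 5, nat_lit 20], false, nat_lit 280, nat_lit 312, nat_lit 280, nat_lit 316, ⟨nat_lit 1000, nat_lit 0, nat_lit 0, nat_lit 0, nat_lit 0, nat_lit 0, nat_lit 0, nat_lit 0, nat_lit 0, nat_lit 0, nat_lit 0, nat_lit 0, nat_lit 0, nat_lit 0, nat_lit 0, nat_lit 0, false, false⟩,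
 nat_lit 0, nat_lit 9181, nat_lit 0, nat_lit 0, nat_lit 6565, nat_lit 4970, nat_lit 1250, nat_lit 0, nat_lit 0, nat_lit 0, nat_lit 0, nat_lit 0, nat_lit 0, nat_lit 0, nat_lit 0, nat_lit 0, nat_lit 0, nat_lit 0, [],
 ⟨p071_k36, nat_lit 0, nat_lit 0, nat_lit 251, nat_lit 0, nat_lit 655299, [nat_lit 3282000000, nat_lit 4688000000], [], [nat_lit 19774038937, nat_lit 19826804612, nat_lit 19750574193, nat_lit 19803045443, nat_lit 21327227352, nat_lit 21378812601, nat_lit 21298603990, nat_lit 21349904719], nat_lit 1271250, nat_lit 1271250, nat_lit 749650, nat_lit 780000, nat_lit 1271250, nat_lit 1271250, [nat_lit 780000, nat_lit 1100000], [nat_lit 40, nat_lit 40, nat_lit 40, nat_lit 80, nat_lit 22, nat_lit 238, nat_lit 30, nat_lit 9]⟩, ⟨p071_k35, nat_lit 0, nat_lit 0, nat_lit 38, nat_lit 0, nat_lit 0, [nat_lit 3282000000, nat_lit 4688000000], [], [nat_lit 20782785836, nat_lit 20852107781, nat_lit 20774412781, nat_lit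 20843383680, nat_lit 22960457262, nat_lit 23023033162, nat_lit 22941328547, nat_lit 23003598186], nat_lit 0, nat_lit 0, nat_lit 0, nat_lit 0, nat_lit 0, nat_lit 0, [], [nat_lit 40, nat_lit 40, nat_lit 40, nat_lit 80, nat_lit 22, nat_lit 238, nat_lit 30, nat_lit 9]⟩,
 zbF0, [⟨nat_lit 0, nat_lit 92, nat_lit 92, nat_lit 100, nat_lit 363815816⟩, ⟨nat_lit 16, nat_lit 92, nat_lit 91, nat_lit 100, nat_lit 185944348⟩, ⟨nat_lit 19, nat_lit 92, nat_lit 90, nat_lit 100, nat_lit 250298959⟩, ⟨nat_lit 11, nat_lit 92, nat_lit 92, nat_lit 100, nat_lit 350583521⟩]⟩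
noncomputable def p071_l73 : Lf2 := ⟨nat_lit 0, nat_lit 1, [nat_lit 19, nat_lit 5, nat_lit 5, nat_lit 20], false, nat_lit 280, nat_lit 312, nat_lit 280, nat_lit 312, ⟨nat_lit 1000, nat_lit 0, nat_lit 0, nat_lit 0, nat_lit 0, nat_lit 0, nat_lit 0, nat_lit 0, nat_lit 0, nat_lit 0, nat_lit 0, nat_lit 0, nat_lit 0, nat_lit 0, nat_lit 0, nat_lit 0, false, false⟩,
 nat_lit 0, nat_lit 9189, nat_lit 0, nat_lit 0, nat_lit 6571, nat_lit 4365, nat_lit 1250, nat_lit 0, nat_lit 0, nat_lit 0, nat_lit 0, nat_lit 0, nat_lit 0, nat_lit 0, nat_lit 0, nat_lit 0, nat_lit 0, nat_lit 0, [],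
 ⟨p071_k36, nat_lit 0, nat_lit 0, nat_lit 253, nat_lit 0, nat_lit 663782, [nat_lit 3282000000, nat_lit 4688000000], [], [nat_lit 19755133055, nat_lit 19807922827, nat_lit 19731578507, nat_lit 19784073643, nat_lit 21309487615, nat_lit 21369607915, nat_lit 21280770181, nat_lit 21332093826], nat_lit 1271250, nat_lit 1271250, nat_lit 749650, nat_lit 780000, nat_lit 1271250, nat_lit 1271250, [nat_lit 780000, nat_lit 1100000], [nat_lit 40, nat_lit 40, nat_lit 40, nat_lit 80, nat_lit 22, nat_lit 238, nat_lit 30, nat_lit 9]⟩, ⟨p071_k37, nat_lit 0, nat_lit 0, nat_lit 0, nat_lit 0, nat_lit 0, [nat_lit 2637500000, nat_lit 3965500000], [], [nat_lit 20338086242, nat_lit 20404744131, nat_lit 20355670906, nat_lit 20421985311, nat_lit 22318371076, nat_lit 22383924000, nat_lit 22320457038, nat_lit 22381154485], nat_lit 0, nat_lit 0, nat_lit 0, nat_lit 0, nat_lit 0, nat_lit 0, [], [nat_lit 180, nat_lit 40, nat_lit 20, nat_lit 40]⟩,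
 zbF0, [⟨nat_lit 0, nat_lit 92, nat_lit 92, nat_lit 100, nat_lit 351282544⟩, ⟨nat_lit 16, nat_lit 92, nat_lit 91, nat_lit 100, nat_lit 183678805⟩, ⟨nat_lit 19, nat_lit 92, nat_lit 91, nat_lit 100, nat_lit 253489896⟩, ⟨nat_lit 11, nat_lit 92, nat_lit 92, nat_lit 100, nat_lit 352962267⟩]⟩
noncomputable def p071_l74 : Lf2 := ⟨nat_lit 3, nat_lit 1, [nat_lit 19, nat_lit 5, nat_lit 5, nat_lit 20], false, nat_lit 280, nat_lit 312, nat_lit 280, nat_lit 312, zbN0,
 nat_lit 0, nat_lit 0, nat_lit 0, nat_lit 0, nat_lit 0, nat_lit 0, nat_lit 0, nat_lit 0, nat_lit 0, nat_lit 0, nat_lit 0, nat_lit 0, nat_lit 0, nat_lit 0, nat_lit 0, nat_lit 0, nat_lit 0, nat_lit 0, [],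
 C1.Rw.none, ⟨p071_k36, nat_lit 0, nat_lit 0, nat_lit 37, nat_lit 0, nat_lit 0, [], [], [], nat_lit 0, nat_lit 0, nat_lit 0, nat_lit 0, nat_lit 0, nat_lit 0, [], [nat_lit 40, nat_lit 40, nat_lit 40, nat_lit 80, nat_lit 22, nat_lit 238, nat_lit 30, nat_lit 9]⟩,
 zbF0, []⟩
noncomputable def p071_l75 : Lf2 := ⟨nat_lit 0, nat_lit 1, [nat_lit 19, nat_lit 5, nat_lit 5, nat_lit 20], false, nat_lit 240, nat_lit 312, nat_lit 240, nat_lit 316, ⟨nat_lit 1000, nat_lit 0, nat_lit 0, nat_lit 0, nat_lit 0, nat_lit 0, nat_lit 0, nat_lit 0, nat_lit 0, nat_lit 0, nat_lit 0, nat_lit 0, nat_lit 0, nat_lit 0, nat_lit 0, nat_lit 0, false, false⟩,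
 nat_lit 0, nat_lit 9140, nat_lit 0, nat_lit 0, nat_lit 6562, nat_lit 4984, nat_lit 1305, nat_lit 0, nat_lit 0, nat_lit 0, nat_lit 0, nat_lit 0, nat_lit 0, nat_lit 0, nat_lit 0, nat_lit 0, nat_lit 0, nat_lit 0, [],
 ⟨p071_k38, nat_lit 0, nat_lit 0, nat_lit 254, nat_lit 0, nat_lit 659165, [nat_lit 3282000000, nat_lit 4688000000], [], [nat_lit 17895887438, nat_lit 17958351483, nat_lit 17877717047, nat_lit 17939543988, nat_lit 21420381785, nat_lit 21486368202, nat_lit 21358810166, nat_lit 21410099438], nat_lit 1271250, nat_lit 1271250, nat_lit 719601, nat_lit 780000, nat_lit 1271250, nat_lit 1271250, [nat_lit 780000, nat_lit 1100000], [nat_lit 40, nat_lit 40, nat_lit 40, nat_lit 80, nat_lit 22, nat_lit 238, nat_lit 30, nat_lit 9]⟩, ⟨p071_k32, nat_lit 0, nat_lit 0, nat_lit 39, nat_lit 0, nat_lit 0, [nat_lit 3282000000, nat_lit 4688000000], [], [nat_lit 18193289342, nat_lit 18425303909, nat_lit 18201577156, nat_lit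 18431181808, nat_lit 22858716659, nat_lit 23067112503, nat_lit 22810701371, nat_lit 22997770264], nat_lit 0, nat_lit 0, nat_lit 0, nat_lit 0, nat_lit 0, nat_lit 0, [], [nat_lit 40, nat_lit 40, nat_lit 40, nat_lit 80, nat_lit 22, nat_lit 238, nat_lit 30, nat_lit 9]⟩,
 zbF0, [⟨nat_lit 0, nat_lit 92, nat_lit 91, nat_lit 100, nat_lit 412748899⟩, ⟨nat_lit 16, nat_lit 91, nat_lit 91, nat_lit 100, nat_lit 185999128⟩, ⟨nat_lit 19, nat_lit 93, nat_lit 90, nat_lit 100, nat_lit 246937262⟩, ⟨nat_lit 11, nat_lit 93, nat_lit 93, nat_lit 100, nat_lit 337440878⟩]⟩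
noncomputable def p071_l76 : Lf2 := ⟨nat_lit 0, nat_lit 1, [nat_lit 19, nat_lit 5, nat_lit 5, nat_lit 20], false, nat_lit 240, nat_lit 280, nat_lit 240, nat_lit 312, ⟨nat_lit 1000, nat_lit 0, nat_lit 0, nat_lit 0, nat_lit 0, nat_lit 0, nat_lit 0, nat_lit 0, nat_lit 0, nat_lit 0, nat_lit 0, nat_lit 0, nat_lit 0, nat_lit 0, nat_lit 0, nat_lit 0, false, false⟩,
 nat_lit 0, nat_lit 9519, nat_lit 0, nat_lit 0, nat_lit 6835, nat_lit 5007, nat_lit 1238, nat_lit 0, nat_lit 0, nat_lit 0, nat_lit 0, nat_lit 0, nat_lit 0, nat_lit 0, nat_lit 0, nat_lit 0, nat_lit 0, nat_lit 0, [],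
 ⟨p071_k38, nat_lit 0, nat_lit 0, nat_lit 250, nat_lit 0, nat_lit 675989, [nat_lit 3282000000, nat_lit 4688000000], [], [nat_lit 17082262348, nat_lit 17141798358, nat_lit 17065114918, nat_lit 17124311860, nat_lit 18995551494, nat_lit 19061247048, nat_lit 18971488471, nat_lit 19028664358], nat_lit 1271250, nat_lit 1271250, nat_lit 749650, nat_lit 780000, nat_lit 1271250, nat_lit 1271250, [nat_lit 780000, nat_lit 1100000], [nat_lit 40, nat_lit 40, nat_lit 40, nat_lit 80, nat_lit 22, nat_lit 238, nat_lit 30, nat_lit 9]⟩, ⟨p071_k36, nat_lit 0, nat_lit 0, nat_lit 38, nat_lit 0, nat_lit 0, [nat_lit 3282000000, nat_lit 4688000000], [], [nat_lit 18408979355, nat_lit 18563243381, nat_lit 18411527434, nat_lit 18564985373, nat_lit 22780951990, nat_lit 22921313338, nat_lit 22747318536, nat_lit 22886444147], nat_lit 0, nat_lit 0, nat_lit 0, nat_lit 0, nat_lit 0, nat_lit 0, [], [nat_lit 40, nat_lit 40, nat_lit 40, nat_lit 80,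 nat_lit 22, nat_lit 238, nat_lit 30, nat_lit 9]⟩,
 zbF0, [⟨nat_lit 0, nat_lit 92, nat_lit 91, nat_lit 100, nat_lit 749266612⟩, ⟨nat_lit 19, nat_lit 92, nat_lit 91, nat_lit 100, nat_lit 590393558⟩]⟩
noncomputable def p071_l77 : Lf2 := ⟨nat_lit 0, nat_lit 1, [nat_lit 19, nat_lit 5, nat_lit 5, nat_lit 20], false, nat_lit 280, nat_lit 312, nat_lit 240, nat_lit 280, ⟨nat_lit 1000, nat_lit 0, nat_lit 0, nat_lit 0, nat_lit 0, nat_lit 0, nat_lit 0, nat_lit 0, nat_lit 0, nat_lit 0, nat_lit 0, nat_lit 0, nat_lit 0, nat_lit 0, nat_lit 0, nat_lit 0, false, false⟩,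
 nat_lit 0, nat_lit 9152, nat_lit 0, nat_lit 0, nat_lit 6571, nat_lit 5184, nat_lit 1208, nat_lit 0, nat_lit 0, nat_lit 0, nat_lit 0, nat_lit 0, nat_lit 0, nat_lit 10375215603215, nat_lit 0, nat_lit 0, nat_lit 0, nat_lit 0, [],
 ⟨p071_k38, nat_lit 0, nat_lit 0, nat_lit 258, nat_lit 0, nat_lit 675989, [nat_lit 3282000000, nat_lit 4688000000], [], [nat_lit 19807210327, nat_lit 19860475732, nat_lit 19783959783, nat_lit 19839972130, nat_lit 21369607915, nat_lit 21435291165, nat_lit 21332093826, nat_lit 21396121490], nat_lit 1271250, nat_lit 1271250, nat_lit 749650, nat_lit 780000, nat_lit 1271250, nat_lit 1271250, [nat_lit 780000, nat_lit 1100000], [nat_lit 40, nat_lit 40, nat_lit 40, nat_lit 80, nat_lit 22, nat_lit 238, nat_lit 30, nat_lit 9]⟩, ⟨p071_k36, nat_lit 0, nat_lit 0, nat_lit 26, nat_lit 0, nat_lit 0, [nat_lit 3282000000, nat_lit 4688000000], [], [nat_lit 18260734131, nat_lit 18418006792, nat_lit 18260274208,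 nat_lit 18416719376, nat_lit 20723981580, nat_lit 20881347405, nat_lit 20709874216, nat_lit 20852514640], nat_lit 0, nat_lit 0, nat_lit 0, nat_lit 0, nat_lit 0, nat_lit 0, [], [nat_lit 40, nat_lit 40, nat_lit 40, nat_lit 80, nat_lit 22, nat_lit 238, nat_lit 30, nat_lit 9]⟩,
 zbF0, [⟨nat_lit 0, nat_lit 92, nat_lit 92, nat_lit 100, nat_lit 741174237⟩, ⟨nat_lit 16, nat_lit 91, nat_lit 91, nat_lit 100, nat_lit 542538227⟩]⟩
noncomputable def p071_l78 : Lf2 := ⟨nat_lit 0, nat_lit 1, [nat_lit 19, nat_lit 5, nat_lit 5, nat_lit 20], false, nat_lit 280, nat_lit 312, nat_lit 280, nat_lit 312, ⟨nat_lit 1000, nat_lit 0, nat_lit 0, nat_lit 0, nat_lit 0, nat_lit 0, nat_lit 0, nat_lit 0, nat_lit 0, nat_lit 0, nat_lit 0, nat_lit 0, nat_lit 0, nat_lit 0, nat_lit 0, nat_lit 0, false, false⟩,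
 nat_lit 0, nat_lit 9140, nat_lit 0, nat_lit 0, nat_lit 6562, nat_lit 4365, nat_lit 1206, nat_lit 0, nat_lit 0, nat_lit 0, nat_lit 0, nat_lit 0, nat_lit 0, nat_lit 0, nat_lit 0, nat_lit 0, nat_lit 0, nat_lit 0, [],
 ⟨p071_k38, nat_lit 0, nat_lit 0, nat_lit 255, nat_lit 0, nat_lit 667566, [nat_lit 3282000000, nat_lit 4688000000], [], [nat_lit 19838289254, nat_lit 19891042881, nat_lit 19814575093, nat_lit 19867630349, nat_lit 21387670911, nat_lit 21447360987, nat_lit 21358810166, nat_lit 21410099438], nat_lit 1271250, nat_lit 1271250, nat_lit 749650, nat_lit 780000, nat_lit 1271250, nat_lit 1271250, [nat_lit 780000, nat_lit 1100000], [nat_lit 40, nat_lit 40, nat_lit 40, nat_lit 80, nat_lit 22, nat_lit 238, nat_lit 30, nat_lit 9]⟩, ⟨p071_k37, nat_lit 0, nat_lit 0, nat_lit 0, nat_lit 0, nat_lit 0, [nat_lit 2637500000, nat_lit 3965500000], [], [nat_lit 20338086242, nat_lit 20404744131, nat_lit 20355670906, nat_lit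 20421985311, nat_lit 22318371076, nat_lit 22383924000, nat_lit 22320457038, nat_lit 22381154485], nat_lit 0, nat_lit 0, nat_lit 0, nat_lit 0, nat_lit 0, nat_lit 0, [], [nat_lit 180, nat_lit 40, nat_lit 20, nat_lit 40]⟩,
 zbF0, [⟨nat_lit 0, nat_lit 92, nat_lit 91, nat_lit 100, nat_lit 353334234⟩, ⟨nat_lit 16, nat_lit 91, nat_lit 91, nat_lit 100, nat_lit 183510342⟩, ⟨nat_lit 19, nat_lit 92, nat_lit 91, nat_lit 100, nat_lit 252283889⟩, ⟨nat_lit 11, nat_lit 92, nat_lit 92, nat_lit 100, nat_lit 354168274⟩]⟩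
noncomputable def p071_l79 : Lf2 := ⟨nat_lit 3, nat_lit 1, [nat_lit 19, nat_lit 5, nat_lit 5, nat_lit 20], false, nat_lit 280, nat_lit 312, nat_lit 280, nat_lit 312, zbN0,
 nat_lit 0, nat_lit 0, nat_lit 0, nat_lit 0, nat_lit 0, nat_lit 0, nat_lit 0, nat_lit 0, nat_lit 0, nat_lit 0, nat_lit 0, nat_lit 0, nat_lit 0, nat_lit 0, nat_lit 0, nat_lit 0, nat_lit 0, nat_lit 0, [],
 C1.Rw.none, ⟨p071_k36, nat_lit 0, nat_lit 0, nat_lit 37, nat_lit 0, nat_lit 0, [], [], [], nat_lit 0, nat_lit 0, nat_lit 0, nat_lit 0, nat_lit 0, nat_lit 0, [], [nat_lit 40, nat_lit 40, nat_lit 40, nat_lit 80, nat_lit 22, nat_lit 238, nat_lit 30, nat_lit 9]⟩,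
 zbF0, []⟩
noncomputable def p071_l80 : Lf2 := ⟨nat_lit 0, nat_lit 1, [nat_lit 19, nat_lit 5, nat_lit 5, nat_lit 20], false, nat_lit 280, nat_lit 312, nat_lit 280, nat_lit 312, ⟨nat_lit 1000, nat_lit 0, nat_lit 0, nat_lit 0, nat_lit 0, nat_lit 0, nat_lit 0, nat_lit 0, nat_lit 0, nat_lit 0, nat_lit 0, nat_lit 0, nat_lit 0, nat_lit 0, nat_lit 0, nat_lit 0, false, false⟩,
 nat_lit 0, nat_lit 9140, nat_lit 0, nat_lit 0, nat_lit 6562, nat_lit 4364, nat_lit 1206, nat_lit 0, nat_lit 0, nat_lit 0, nat_lit 0, nat_lit 0, nat_lit 0, nat_lit 0, nat_lit 0, nat_lit 0, nat_lit 0, nat_lit 0, [],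
 ⟨p071_k38, nat_lit 0, nat_lit 0, nat_lit 258, nat_lit 0, nat_lit 675989, [nat_lit 3282000000, nat_lit 4688000000], [], [nat_lit 19838289254, nat_lit 19891042881, nat_lit 19814575093, nat_lit 19867630349, nat_lit 21387670911, nat_lit 21447360987, nat_lit 21358810166, nat_lit 21410099438], nat_lit 1271250, nat_lit 1271250, nat_lit 749650, nat_lit 780000, nat_lit 1271250, nat_lit 1271250, [nat_lit 780000, nat_lit 1100000], [nat_lit 40, nat_lit 40, nat_lit 40, nat_lit 80, nat_lit 22, nat_lit 238, nat_lit 30, nat_lit 9]⟩, ⟨p071_k39, nat_lit 0, nat_lit 0, nat_lit 0, nat_lit 0, nat_lit 0, [nat_lit 2637500000, nat_lit 3965500000], [], [nat_lit 20405291223, nat_lit 20471941512, nat_lit 20422548463, nat_lit 20488855324, nat_lit 22383279151, nat_lit 22448824807, nat_lit 22381504968, nat_lit 22445292102], nat_lit 0, nat_lit 0, nat_lit 0, nat_lit 0, nat_lit 0, nat_lit 0, [], [nat_lit 180, nat_lit 40, nat_lit 20, nat_lit 40]⟩,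
 zbF0, [⟨nat_lit 0, nat_lit 91, nat_lit 91, nat_lit 100, nat_lit 546056372⟩, ⟨nat_lit 16, nat_lit 91, nat_lit 91, nat_lit 100, nat_lit 370728759⟩, ⟨nat_lit 19, nat_lit 91, nat_lit 91, nat_lit 100, nat_lit 441882844⟩, ⟨nat_lit 11, nat_lit 92, nat_lit 92, nat_lit 100, nat_lit 168984839⟩]⟩
noncomputable def p071_l81 : Lf2 := ⟨nat_lit 3, nat_lit 1, [nat_lit 19, nat_lit 5, nat_lit 5, nat_lit 20], false, nat_lit 280, nat_lit 312, nat_lit 280, nat_lit 312, zbN0,
 nat_lit 0, nat_lit 0, nat_lit 0, nat_lit 0, nat_lit 0, nat_lit 0, nat_lit 0, nat_lit 0, nat_lit 0, nat_lit 0, nat_lit 0, nat_lit 0, nat_lit 0, nat_lit 0, nat_lit 0, nat_lit 0, nat_lit 0, nat_lit 0, [],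
 C1.Rw.none, ⟨p071_k38, nat_lit 0, nat_lit 0, nat_lit 38, nat_lit 0, nat_lit 0, [], [], [], nat_lit 0, nat_lit 0, nat_lit 0, nat_lit 0, nat_lit 0, nat_lit 0, [], [nat_lit 40, nat_lit 40, nat_lit 40, nat_lit 80, nat_lit 22, nat_lit 238, nat_lit 30, nat_lit 9]⟩,
 zbF0, []⟩
noncomputable def b_V_700_700_20_27 : St := ⟨true, nat_lit 1, nat_lit 0, nat_lit 1, nat_lit 120, nat_lit 305, nat_lit 310, nat_lit 300, nat_lit 310, nat_lit 104, nat_lit 120, nat_lit 100, nat_lit 120, nat_lit 240, nat_lit 316, nat_lit 240, nat_lit 320, nat_lit 0, nat_lit 4, nat_lit 600, nat_lit 0, nat_lit 0, nat_lit 0⟩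
theorem d_V_700_700_20_27 (h : EB TB.env) : Dead b_V_700_700_20_27 := chkB_sound0 h (T :=
(.spl (nat_lit 0) (nat_lit 308)
(.ord (.spl (nat_lit 0) (nat_lit 307)
(.ord (.spl (nat_lit 0) (nat_lit 306)
(.ord (.leaf p071_l60))
(.leaf p071_l61)))
(.spl (nat_lit 1) (nat_lit 305)
(.leaf p071_l62)
(.trZ (nat_lit 0) (nat_lit 95) (nat_lit 94) (nat_lit 100) (nat_lit 112) (.trX (nat_lit 19) (nat_lit 93) (nat_lit 90) (nat_lit 100) (nat_lit 316) (.spl (nat_lit 4) (nat_lit 280)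
(.leaf p071_l63)
(.spl (nat_lit 5) (nat_lit 280)
(.leaf p071_l64)
(.spl (nat_lit 2) (nat_lit 116)
(.leaf p071_l65)
(.leaf p071_l66)))))))))
(.trZ (nat_lit 0) (nat_lit 97) (nat_lit 95) (nat_lit 100) (nat_lit 108) (.trX (nat_lit 16) (nat_lit 92) (nat_lit 91) (nat_lit 100) (nat_lit 312) (.spl (nat_lit 1) (nat_lit 305)
(.leaf p071_l67)
(.trZ (nat_lit 0) (nat_lit 94) (nat_lit 93) (nat_lit 100) (nat_lit 112) (.trX (nat_lit 19) (nat_lit 93) (nat_lit 90) (nat_lit 100) (nat_lit 316) (.spl (nat_lit 0) (nat_lit 309)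
(.ord (.spl (nat_lit 5) (nat_lit 280)
(.leaf p071_l68)
(.spl (nat_lit 4) (nat_lit 280)
(.leaf p071_l69)
(.spl (nat_lit 2) (nat_lit 116)
(.leaf p071_l70)
(.spl (nat_lit 1) (nat_lit 307)
(.leaf p071_l71)
(.spl (nat_lit 1) (nat_lit 308)
(.leaf p071_l72)
(.trX (nat_lit 19) (nat_lit 92) (nat_lit 91) (nat_lit 100) (nat_lit 312) (.spl (nat_lit 8) (nat_lit 800)
(.leaf p071_l73)
(.leaf p071_l74)))))))))
(.spl (nat_lit 1) (nat_lit 308)
(.leaf p071_l75)
(.trZ (nat_lit 0) (nat_lit 92) (nat_lit 92) (nat_lit 100) (nat_lit 116) (.trX (nat_lit 19) (nat_lit 92) (nat_lit 91) (nat_lit 100) (nat_lit 312) (.spl (nat_lit 4) (nat_lit 280)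
(.leaf p071_l76)
(.spl (nat_lit 5) (nat_lit 280)
(.leaf p071_l77)
(.spl (nat_lit 1) (nat_lit 309)
(.spl (nat_lit 8) (nat_lit 800)
(.leaf p071_l78)
(.leaf p071_l79))
(.spl (nat_lit 8) (nat_lit 800)
(.leaf p071_l80)
(.leaf p071_l81)))))))))))))))) (by decide +kernel)
noncomputable def p071_l82 : Lf2 := ⟨nat_lit 0, nat_lit 1, [nat_lit 19, nat_lit 5, nat_lit 5, nat_lit 20], false, nat_lit 240, nat_lit 316, nat_lit 240, nat_lit 320, ⟨nat_lit 1000, nat_lit 0, nat_lit 0, nat_lit 0, nat_lit 0, nat_lit 0, nat_lit 0, nat_lit 0, nat_lit 0, nat_lit 0, nat_lit 0, nat_lit 0, nat_lit 0, nat_lit 0, nat_lit 0, nat_lit 0, false, false⟩,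
 nat_lit 0, nat_lit 9278, nat_lit 0, nat_lit 0, nat_lit 6555, nat_lit 4967, nat_lit 1518, nat_lit 0, nat_lit 0, nat_lit 0, nat_lit 0, nat_lit 0, nat_lit 0, nat_lit 26650164304253, nat_lit 0, nat_lit 0, nat_lit 0, nat_lit 0, [],
 ⟨p071_k32, nat_lit 0, nat_lit 0, nat_lit 246, nat_lit 0, nat_lit 642395, [nat_lit 3282000000, nat_lit 4688000000], [], [nat_lit 17661114285, nat_lit 17776895324, nat_lit 18052995535, nat_lit 18168776574, nat_lit 21370177668, nat_lit 21471532922, nat_lit 21541362655, nat_lit 21662233008], nat_lit 1271250, nat_lit 1271250, nat_lit 780000, nat_lit 1100001, nat_lit 1271250, nat_lit 1271250, [nat_lit 780000, nat_lit 1100000], [nat_lit 40, nat_lit 40, nat_lit 40, nat_lit 80, nat_lit 22, nat_lit 249, nat_lit 40, nat_lit 10]⟩, ⟨p071_k33, nat_lit 0, nat_lit 0, nat_lit 38, nat_lit 0, nat_lit 0, [nat_lit 3282000000, nat_lit 4688000000], [], [nat_lit 17834577518, nat_lit 18369317525, nat_lit 18482217344,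 nat_lit 18984511646, nat_lit 22752746938, nat_lit 23183294822, nat_lit 23107578282, nat_lit 23513265866], nat_lit 0, nat_lit 0, nat_lit 0, nat_lit 0, nat_lit 0, nat_lit 0, [], [nat_lit 40, nat_lit 40, nat_lit 40, nat_lit 80, nat_lit 22, nat_lit 249, nat_lit 40, nat_lit 10]⟩,
 zbF0, [⟨nat_lit 16, nat_lit 93, nat_lit 90, nat_lit 100, nat_lit 180242357⟩, ⟨nat_lit 7, nat_lit 95, nat_lit 96, nat_lit 100, nat_lit 235819577⟩, ⟨nat_lit 11, nat_lit 85, nat_lit 85, nat_lit 100, nat_lit 374705136⟩]⟩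
noncomputable def p071_l83 : Lf2 := ⟨nat_lit 0, nat_lit 1, [nat_lit 19, nat_lit 5, nat_lit 5, nat_lit 20], false, nat_lit 240, nat_lit 316, nat_lit 240, nat_lit 320, ⟨nat_lit 1000, nat_lit 0, nat_lit 0, nat_lit 0, nat_lit 0, nat_lit 0, nat_lit 0, nat_lit 0, nat_lit 0, nat_lit 0, nat_lit 0, nat_lit 0, nat_lit 0, nat_lit 0, nat_lit 0, nat_lit 0, false, false⟩,
 nat_lit 0, nat_lit 9192, nat_lit 0, nat_lit 0, nat_lit 6547, nat_lit 4961, nat_lit 1401, nat_lit 0, nat_lit 0, nat_lit 0, nat_lit 0, nat_lit 0, nat_lit 0, nat_lit 26204103957113, nat_lit 0, nat_lit 0, nat_lit 0, nat_lit 0, [],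
 ⟨p071_k35, nat_lit 0, nat_lit 0, nat_lit 249, nat_lit 0, nat_lit 651382, [nat_lit 3282000000, nat_lit 4688000000], [], [nat_lit 17806086375, nat_lit 17864175274, nat_lit 18195117625, nat_lit 18252970817, nat_lit 21495231650, nat_lit 21545879311, nat_lit 21673891705, nat_lit 21734288213], nat_lit 1271250, nat_lit 1271250, nat_lit 780000, nat_lit 1100001, nat_lit 1271250, nat_lit 1271250, [nat_lit 780000, nat_lit 1100000], [nat_lit 40, nat_lit 40, nat_lit 40, nat_lit 80, nat_lit 22, nat_lit 249, nat_lit 40, nat_lit 10]⟩, ⟨p071_k33, nat_lit 0, nat_lit 0, nat_lit 38, nat_lit 0, nat_lit 0, [nat_lit 3282000000, nat_lit 4688000000], [], [nat_lit 17840109794, nat_lit 18450836182, nat_lit 18488137952, nat_lit 19061817716, nat_lit 22755397654, nat_lit 23247160946, nat_lit 23110881606, nat_lit 23574258769], nat_lit 0, nat_lit 0, nat_lit 0, nat_lit 0, nat_lit 0, nat_lit 0, [], [nat_lit 40, nat_lit 40, nat_lit 40, nat_lit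 80, nat_lit 22, nat_lit 249, nat_lit 40, nat_lit 10]⟩,
 zbF0, [⟨nat_lit 16, nat_lit 92, nat_lit 90, nat_lit 100, nat_lit 180668401⟩, ⟨nat_lit 7, nat_lit 95, nat_lit 96, nat_lit 100, nat_lit 234118171⟩, ⟨nat_lit 11, nat_lit 85, nat_lit 85, nat_lit 100, nat_lit 375331691⟩]⟩
noncomputable def p071_l84 : Lf2 := ⟨nat_lit 0, nat_lit 1, [nat_lit 19, nat_lit 5, nat_lit 5, nat_lit 20], false, nat_lit 240, nat_lit 312, nat_lit 240, nat_lit 320, ⟨nat_lit 1000, nat_lit 0, nat_lit 0, nat_lit 0, nat_lit 0, nat_lit 0, nat_lit 0, nat_lit 0, nat_lit 0, nat_lit 0, nat_lit 0, nat_lit 0, nat_lit 0, nat_lit 0, nat_lit 0, nat_lit 0, false, false⟩,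
 nat_lit 0, nat_lit 9189, nat_lit 0, nat_lit 0, nat_lit 6571, nat_lit 4979, nat_lit 1344, nat_lit 0, nat_lit 0, nat_lit 0, nat_lit 0, nat_lit 0, nat_lit 0, nat_lit 0, nat_lit 0, nat_lit 0, nat_lit 0, nat_lit 0, [],
 ⟨p071_k36, nat_lit 0, nat_lit 0, nat_lit 242, nat_lit 0, nat_lit 629981, [nat_lit 3282000000, nat_lit 4688000000], [], [nat_lit 17790859643, nat_lit 17848824815, nat_lit 18174059643, nat_lit 18232024815, nat_lit 21280770181, nat_lit 21332093826, nat_lit 21467714830, nat_lit 21528969671], nat_lit 1271250, nat_lit 1271250, nat_lit 780000, nat_lit 1100001, nat_lit 1271250, nat_lit 1271250, [nat_lit 780000, nat_lit 1100000], [nat_lit 40, nat_lit 40, nat_lit 40, nat_lit 80, nat_lit 22, nat_lit 249, nat_lit 40, nat_lit 10]⟩, ⟨p071_k33, nat_lit 0, nat_lit 0, nat_lit 37, nat_lit 0, nat_lit 0, [nat_lit 3282000000, nat_lit 4688000000], [], [nat_lit 17823512966, nat_lit 18205976424, nat_lit 18470376128, nat_lit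 18829621356, nat_lit 22747445506, nat_lit 23055343999, nat_lit 23100971634, nat_lit 23391080718], nat_lit 0, nat_lit 0, nat_lit 0, nat_lit 0, nat_lit 0, nat_lit 0, [], [nat_lit 40, nat_lit 40, nat_lit 40, nat_lit 80, nat_lit 22, nat_lit 249, nat_lit 40, nat_lit 10]⟩,
 zbF0, [⟨nat_lit 16, nat_lit 92, nat_lit 91, nat_lit 100, nat_lit 181856041⟩, ⟨nat_lit 19, nat_lit 94, nat_lit 88, nat_lit 100, nat_lit 245150610⟩, ⟨nat_lit 11, nat_lit 85, nat_lit 85, nat_lit 100, nat_lit 372532034⟩]⟩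
noncomputable def p071_l85 : Lf2 := ⟨nat_lit 0, nat_lit 1, [nat_lit 19, nat_lit 5, nat_lit 5, nat_lit 20], false, nat_lit 240, nat_lit 312, nat_lit 240, nat_lit 316, ⟨nat_lit 1000, nat_lit 0, nat_lit 0, nat_lit 0, nat_lit 0, nat_lit 0, nat_lit 0, nat_lit 0, nat_lit 0, nat_lit 0, nat_lit 0, nat_lit 0, nat_lit 0, nat_lit 0, nat_lit 0, nat_lit 0, false, false⟩,
 nat_lit 0, nat_lit 9189, nat_lit 0, nat_lit 0, nat_lit 6571, nat_lit 4978, nat_lit 1344, nat_lit 0, nat_lit 0, nat_lit 0, nat_lit 0, nat_lit 0, nat_lit 0, nat_lit 26751803985118, nat_lit 0, nat_lit 0, nat_lit 0, nat_lit 0, [],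
 ⟨p071_k36, nat_lit 0, nat_lit 0, nat_lit 252, nat_lit 0, nat_lit 663782, [nat_lit 3282000000, nat_lit 4688000000], [], [nat_lit 17790859643, nat_lit 17848824815, nat_lit 17980489324, nat_lit 18040408522, nat_lit 21280770181, nat_lit 21332093826, nat_lit 21366587623, nat_lit 21429880312], nat_lit 1271250, nat_lit 1271250, nat_lit 780000, nat_lit 936251, nat_lit 1271250, nat_lit 1271250, [nat_lit 780000, nat_lit 1100000], [nat_lit 40, nat_lit 40, nat_lit 40, nat_lit 80, nat_lit 22, nat_lit 249, nat_lit 40, nat_lit 10]⟩, ⟨p071_k32, nat_lit 0, nat_lit 0, nat_lit 37, nat_lit 0, nat_lit 0, [nat_lit 3282000000, nat_lit 4688000000], [], [nat_lit 18206856277, nat_lit 18512793289, nat_lit 18518712885, nat_lit 18815364029, nat_lit 22813310470, nat_lit 23062587103, nat_lit 22988431175, nat_lit 23230484555], nat_lit 0, nat_lit 0, nat_lit 0, nat_lit 0, nat_lit 0, nat_lit 0, [], [nat_lit 40, nat_lit 40, nat_lit 40, nat_lit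 80, nat_lit 22, nat_lit 249, nat_lit 40, nat_lit 10]⟩,
 zbF0, [⟨nat_lit 16, nat_lit 92, nat_lit 91, nat_lit 100, nat_lit 188225307⟩, ⟨nat_lit 19, nat_lit 93, nat_lit 90, nat_lit 100, nat_lit 249002878⟩, ⟨nat_lit 11, nat_lit 88, nat_lit 88, nat_lit 100, nat_lit 353173299⟩]⟩
noncomputable def p071_l86 : Lf2 := ⟨nat_lit 0, nat_lit 1, [nat_lit 19, nat_lit 5, nat_lit 5, nat_lit 20], false, nat_lit 240, nat_lit 312, nat_lit 240, nat_lit 316, ⟨nat_lit 1000, nat_lit 0, nat_lit 0, nat_lit 0, nat_lit 0, nat_lit 0, nat_lit 0, nat_lit 0, nat_lit 0, nat_lit 0, nat_lit 0, nat_lit 0, nat_lit 0, nat_lit 0, nat_lit 0, nat_lit 0, false, false⟩,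
 nat_lit 0, nat_lit 9172, nat_lit 0, nat_lit 0, nat_lit 6559, nat_lit 5002, nat_lit 1325, nat_lit 0, nat_lit 0, nat_lit 0, nat_lit 0, nat_lit 0, nat_lit 0, nat_lit 15208452346859, nat_lit 0, nat_lit 0, nat_lit 0, nat_lit 0, [],
 ⟨p071_k36, nat_lit 0, nat_lit 0, nat_lit 248, nat_lit 0, nat_lit 663782, [nat_lit 3282000000, nat_lit 4688000000], [], [nat_lit 18019531185, nat_lit 18079391533, nat_lit 18213515230, nat_lit 18271424412, nat_lit 21397681949, nat_lit 21447359810, nat_lit 21485359010, nat_lit 21546554726], nat_lit 1271250, nat_lit 1271250, nat_lit 936251, nat_lit 1100001, nat_lit 1271250, nat_lit 1271250, [nat_lit 780000, nat_lit 1100000], [nat_lit 40, nat_lit 40, nat_lit 40, nat_lit 80, nat_lit 22, nat_lit 249, nat_lit 40, nat_lit 10]⟩, ⟨p071_k32, nat_lit 0, nat_lit 0, nat_lit 34, nat_lit 0, nat_lit 0, [nat_lit 3282000000, nat_lit 4688000000], [], [nat_lit 18496777011, nat_lit 18794204071, nat_lit 18807814228,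 nat_lit 19095921240, nat_lit 22976683407, nat_lit 23219304944, nat_lit 23150492739, nat_lit 23385864953], nat_lit 0, nat_lit 0, nat_lit 0, nat_lit 0, nat_lit 0, nat_lit 0, [], [nat_lit 40, nat_lit 40, nat_lit 40, nat_lit 80, nat_lit 22, nat_lit 249, nat_lit 40, nat_lit 10]⟩,
 zbF0, [⟨nat_lit 16, nat_lit 92, nat_lit 91, nat_lit 100, nat_lit 517327944⟩, ⟨nat_lit 19, nat_lit 93, nat_lit 90, nat_lit 100, nat_lit 574375484⟩]⟩
noncomputable def p071_l87 : Lf2 := ⟨nat_lit 0, nat_lit 1, [nat_lit 19, nat_lit 5, nat_lit 5, nat_lit 20], false, nat_lit 240, nat_lit 312, nat_lit 240, nat_lit 320, ⟨nat_lit 1000, nat_lit 0, nat_lit 0, nat_lit 0, nat_lit 0, nat_lit 0, nat_lit 0, nat_lit 0, nat_lit 0, nat_lit 0, nat_lit 0, nat_lit 0, nat_lit 0, nat_lit 0, nat_lit 0, nat_lit 0, false, false⟩,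
 nat_lit 0, nat_lit 9140, nat_lit 0, nat_lit 0, nat_lit 6562, nat_lit 4979, nat_lit 1296, nat_lit 0, nat_lit 0, nat_lit 0, nat_lit 0, nat_lit 0, nat_lit 0, nat_lit 0, nat_lit 0, nat_lit 0, nat_lit 0, nat_lit 0, [],
 ⟨p071_k38, nat_lit 0, nat_lit 0, nat_lit 243, nat_lit 0, nat_lit 634090, [nat_lit 3282000000, nat_lit 4688000000], [], [nat_lit 17881524513, nat_lit 17939543988, nat_lit 18261574513, nat_lit 18319497692, nat_lit 21358810166, nat_lit 21410099438, nat_lit 21542158462, nat_lit 21603368960], nat_lit 1271250, nat_lit 1271250, nat_lit 780000, nat_lit 1100001, nat_lit 1271250, nat_lit 1271250, [nat_lit 780000, nat_lit 1100000], [nat_lit 40, nat_lit 40, nat_lit 40, nat_lit 80, nat_lit 22, nat_lit 249, nat_lit 40, nat_lit 10]⟩, ⟨p071_k33, nat_lit 0, nat_lit 0, nat_lit 37, nat_lit 0, nat_lit 0, [nat_lit 3282000000, nat_lit 4688000000], [], [nat_lit 17823512966, nat_lit 18205976424, nat_lit 18470376128, nat_lit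 18829621356, nat_lit 22747445506, nat_lit 23055343999, nat_lit 23100971634, nat_lit 23391080718], nat_lit 0, nat_lit 0, nat_lit 0, nat_lit 0, nat_lit 0, nat_lit 0, [], [nat_lit 40, nat_lit 40, nat_lit 40, nat_lit 80, nat_lit 22, nat_lit 249, nat_lit 40, nat_lit 10]⟩,
 zbF0, [⟨nat_lit 16, nat_lit 91, nat_lit 91, nat_lit 100, nat_lit 182023182⟩, ⟨nat_lit 19, nat_lit 94, nat_lit 88, nat_lit 100, nat_lit 244314547⟩, ⟨nat_lit 11, nat_lit 85, nat_lit 85, nat_lit 100, nat_lit 373456621⟩]⟩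
noncomputable def p071_l88 : Lf2 := ⟨nat_lit 0, nat_lit 1, [nat_lit 19, nat_lit 5, nat_lit 5, nat_lit 20], false, nat_lit 240, nat_lit 312, nat_lit 240, nat_lit 316, ⟨nat_lit 1000, nat_lit 0, nat_lit 0, nat_lit 0, nat_lit 0, nat_lit 0, nat_lit 0, nat_lit 0, nat_lit 0, nat_lit 0, nat_lit 0, nat_lit 0, nat_lit 0, nat_lit 0, nat_lit 0, nat_lit 0, false, false⟩,
 nat_lit 0, nat_lit 9140, nat_lit 0, nat_lit 0, nat_lit 6562, nat_lit 4984, nat_lit 1296, nat_lit 0, nat_lit 0, nat_lit 0, nat_lit 0, nat_lit 0, nat_lit 0, nat_lit 0, nat_lit 0, nat_lit 0, nat_lit 0, nat_lit 0, [],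
 ⟨p071_k38, nat_lit 0, nat_lit 0, nat_lit 251, nat_lit 0, nat_lit 659165, [nat_lit 3282000000, nat_lit 4688000000], [], [nat_lit 17881524513, nat_lit 17939543988, nat_lit 18261574513, nat_lit 18319497692, nat_lit 21358810166, nat_lit 21410099438, nat_lit 21542158462, nat_lit 21603368960], nat_lit 1271250, nat_lit 1271250, nat_lit 780000, nat_lit 1100001, nat_lit 1271250, nat_lit 1271250, [nat_lit 780000, nat_lit 1100000], [nat_lit 40, nat_lit 40, nat_lit 40, nat_lit 80, nat_lit 22, nat_lit 249, nat_lit 40, nat_lit 10]⟩, ⟨p071_k32, nat_lit 0, nat_lit 0, nat_lit 37, nat_lit 0, nat_lit 0, [nat_lit 3282000000, nat_lit 4688000000], [], [nat_lit 18201577156, nat_lit 18431181808, nat_lit 18824880676, nat_lit 19040543709, nat_lit 22810701371, nat_lit 22997770264, nat_lit 23160287095, nat_lit 23336511331], nat_lit 0, nat_lit 0, nat_lit 0, nat_lit 0, nat_lit 0, nat_lit 0, [], [nat_lit 40, nat_lit 40, nat_lit 40, nat_lit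 80, nat_lit 22, nat_lit 249, nat_lit 40, nat_lit 10]⟩,
 zbF0, [⟨nat_lit 16, nat_lit 91, nat_lit 91, nat_lit 100, nat_lit 185999128⟩, ⟨nat_lit 19, nat_lit 93, nat_lit 90, nat_lit 100, nat_lit 246937262⟩, ⟨nat_lit 11, nat_lit 85, nat_lit 85, nat_lit 100, nat_lit 369200020⟩]⟩
noncomputable def p071_l89 : Lf2 := ⟨nat_lit 0, nat_lit 1, [nat_lit 19, nat_lit 5, nat_lit 5, nat_lit 20], false, nat_lit 240, nat_lit 280, nat_lit 240, nat_lit 312, ⟨nat_lit 1000, nat_lit 0, nat_lit 0, nat_lit 0, nat_lit 0, nat_lit 0, nat_lit 0, nat_lit 0, nat_lit 0, nat_lit 0, nat_lit 0, nat_lit 0, nat_lit 0, nat_lit 0, nat_lit 0, nat_lit 0, false, false⟩,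
 nat_lit 0, nat_lit 9519, nat_lit 0, nat_lit 0, nat_lit 6835, nat_lit 4995, nat_lit 1236, nat_lit 0, nat_lit 0, nat_lit 0, nat_lit 0, nat_lit 0, nat_lit 0, nat_lit 0, nat_lit 0, nat_lit 0, nat_lit 0, nat_lit 0, [],
 ⟨p071_k38, nat_lit 0, nat_lit 0, nat_lit 249, nat_lit 0, nat_lit 675989, [nat_lit 3282000000, nat_lit 4688000000], [], [nat_lit 17067871168, nat_lit 17127068110, nat_lit 17370446263, nat_lit 17425871715, nat_lit 18971488471, nat_lit 19028664358, nat_lit 19256840216, nat_lit 19325532075], nat_lit 1271250, nat_lit 1271250, nat_lit 780000, nat_lit 1100001, nat_lit 1271250, nat_lit 1271250, [nat_lit 780000, nat_lit 1100000], [nat_lit 40, nat_lit 40, nat_lit 40, nat_lit 80, nat_lit 22, nat_lit 249, nat_lit 40, nat_lit 10]⟩, ⟨p071_k36, nat_lit 0, nat_lit 0, nat_lit 36, nat_lit 0, nat_lit 0, [nat_lit 3282000000, nat_lit 4688000000], [], [nat_lit 18421781890, nat_lit 18575037305, nat_lit 19030369184, nat_lit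 19174314520, nat_lit 22752590693, nat_lit 22878934550, nat_lit 23104378389, nat_lit 23223371667], nat_lit 0, nat_lit 0, nat_lit 0, nat_lit 0, nat_lit 0, nat_lit 0, [], [nat_lit 40, nat_lit 40, nat_lit 40, nat_lit 80, nat_lit 22, nat_lit 249, nat_lit 40, nat_lit 10]⟩,
 zbF0, [⟨nat_lit 0, nat_lit 91, nat_lit 91, nat_lit 100, nat_lit 436970502⟩, ⟨nat_lit 19, nat_lit 92, nat_lit 91, nat_lit 100, nat_lit 587973485⟩]⟩
noncomputable def p071_l90 : Lf2 := ⟨nat_lit 0, nat_lit 1, [nat_lit 19, nat_lit 5, nat_lit 5, nat_lit 20], false, nat_lit 280, nat_lit 312, nat_lit 240, nat_lit 280, ⟨nat_lit 1000, nat_lit 0, nat_lit 0, nat_lit 0, nat_lit 0, nat_lit 0, nat_lit 0, nat_lit 0, nat_lit 0, nat_lit 0, nat_lit 0, nat_lit 0, nat_lit 0, nat_lit 0, nat_lit 0, nat_lit 0, false, false⟩,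
 nat_lit 0, nat_lit 9140, nat_lit 0, nat_lit 0, nat_lit 6562, nat_lit 5182, nat_lit 1206, nat_lit 0, nat_lit 0, nat_lit 0, nat_lit 0, nat_lit 0, nat_lit 0, nat_lit 5660314484811, nat_lit 0, nat_lit 0, nat_lit 0, nat_lit 0, [],
 ⟨p071_k38, nat_lit 0, nat_lit 0, nat_lit 256, nat_lit 0, nat_lit 675989, [nat_lit 3282000000, nat_lit 4688000000], [], [nat_lit 19814575093, nat_lit 19867630349, nat_lit 20070593843, nat_lit 20123053149, nat_lit 21358810166, nat_lit 21410099438, nat_lit 21542158462, nat_lit 21603368960], nat_lit 1271250, nat_lit 1271250, nat_lit 780000, nat_lit 1100001, nat_lit 1271250, nat_lit 1271250, [nat_lit 780000, nat_lit 1100000], [nat_lit 40, nat_lit 40, nat_lit 40, nat_lit 80, nat_lit 22, nat_lit 249, nat_lit 40, nat_lit 10]⟩, ⟨p071_k36, nat_lit 0, nat_lit 0, nat_lit 25, nat_lit 0, nat_lit 0, [nat_lit 3282000000, nat_lit 4688000000], [], [nat_lit 18261983284, nat_lit 18418394698, nat_lit 18857402263,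 nat_lit 19004237272, nat_lit 20711121969, nat_lit 20852139888, nat_lit 21159889272, nat_lit 21292452665], nat_lit 0, nat_lit 0, nat_lit 0, nat_lit 0, nat_lit 0, nat_lit 0, [], [nat_lit 40, nat_lit 40, nat_lit 40, nat_lit 80, nat_lit 22, nat_lit 249, nat_lit 40, nat_lit 10]⟩,
 zbF0, [⟨nat_lit 0, nat_lit 91, nat_lit 91, nat_lit 100, nat_lit 530717702⟩, ⟨nat_lit 16, nat_lit 91, nat_lit 91, nat_lit 100, nat_lit 541570575⟩]⟩
noncomputable def p071_l91 : Lf2 := ⟨nat_lit 0, nat_lit 1, [nat_lit 19, nat_lit 5, nat_lit 5, nat_lit 20], false, nat_lit 280, nat_lit 312, nat_lit 280, nat_lit 312, ⟨nat_lit 1000, nat_lit 0, nat_lit 0, nat_lit 0, nat_lit 0, nat_lit 0, nat_lit 0, nat_lit 0, nat_lit 0, nat_lit 0, nat_lit 0, nat_lit 0, nat_lit 0, nat_lit 0, nat_lit 0, nat_lit 0, false, false⟩,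
 nat_lit 0, nat_lit 9140, nat_lit 0, nat_lit 0, nat_lit 6562, nat_lit 4365, nat_lit 1206, nat_lit 0, nat_lit 0, nat_lit 0, nat_lit 0, nat_lit 0, nat_lit 0, nat_lit 0, nat_lit 0, nat_lit 0, nat_lit 0, nat_lit 0, [],
 ⟨p071_k38, nat_lit 0, nat_lit 0, nat_lit 254, nat_lit 0, nat_lit 667566, [nat_lit 3282000000, nat_lit 4688000000], [], [nat_lit 19814575093, nat_lit 19867630349, nat_lit 19837551286, nat_lit 19893172629, nat_lit 21358810166, nat_lit 21410099438, nat_lit 21374710080, nat_lit 21427855291], nat_lit 1271250, nat_lit 1271250, nat_lit 780000, nat_lit 810650, nat_lit 1271250, nat_lit 1271250, [nat_lit 780000, nat_lit 1100000], [nat_lit 40, nat_lit 40, nat_lit 40, nat_lit 80, nat_lit 22, nat_lit 249, nat_lit 40, nat_lit 10]⟩, ⟨p071_k37, nat_lit 0, nat_lit 0, nat_lit 0, nat_lit 0, nat_lit 0, [nat_lit 2637500000, nat_lit 3965500000], [], [nat_lit 20355670906, nat_lit 20421985311, nat_lit 20398436173, nat_lit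 20464380251, nat_lit 22320457038, nat_lit 22381154485, nat_lit 22352495810, nat_lit 22412863072], nat_lit 0, nat_lit 0, nat_lit 0, nat_lit 0, nat_lit 0, nat_lit 0, [], [nat_lit 180, nat_lit 40, nat_lit 20, nat_lit 40]⟩,
 zbF0, [⟨nat_lit 16, nat_lit 91, nat_lit 91, nat_lit 100, nat_lit 183510342⟩, ⟨nat_lit 19, nat_lit 92, nat_lit 91, nat_lit 100, nat_lit 252283889⟩, ⟨nat_lit 11, nat_lit 91, nat_lit 91, nat_lit 100, nat_lit 358060233⟩]⟩
noncomputable def p071_l92 : Lf2 := ⟨nat_lit 3, nat_lit 1, [nat_lit 19, nat_lit 5, nat_lit 5, nat_lit 20], false, nat_lit 280, nat_lit 312, nat_lit 280, nat_lit 312, zbN0,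
 nat_lit 0, nat_lit 0, nat_lit 0, nat_lit 0, nat_lit 0, nat_lit 0, nat_lit 0, nat_lit 0, nat_lit 0, nat_lit 0, nat_lit 0, nat_lit 0, nat_lit 0, nat_lit 0, nat_lit 0, nat_lit 0, nat_lit 0, nat_lit 0, [],
 C1.Rw.none, ⟨p071_k36, nat_lit 0, nat_lit 0, nat_lit 36, nat_lit 0, nat_lit 0, [], [], [], nat_lit 0, nat_lit 0, nat_lit 0, nat_lit 0, nat_lit 0, nat_lit 0, [], [nat_lit 40, nat_lit 40, nat_lit 40, nat_lit 80, nat_lit 22, nat_lit 249, nat_lit 40, nat_lit 10]⟩,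
 zbF0, []⟩
noncomputable def p071_l93 : Lf2 := ⟨nat_lit 0, nat_lit 1, [nat_lit 19, nat_lit 5, nat_lit 5, nat_lit 20], false, nat_lit 280, nat_lit 312, nat_lit 280, nat_lit 312, ⟨nat_lit 1000, nat_lit 0, nat_lit 0, nat_lit 0, nat_lit 0, nat_lit 0, nat_lit 0, nat_lit 0, nat_lit 0, nat_lit 0, nat_lit 0, nat_lit 0, nat_lit 0, nat_lit 0, nat_lit 0, nat_lit 0, false, false⟩,
 nat_lit 0, nat_lit 9140, nat_lit 0, nat_lit 0, nat_lit 6562, nat_lit 4364, nat_lit 1206, nat_lit 0, nat_lit 0, nat_lit 0, nat_lit 0, nat_lit 0, nat_lit 0, nat_lit 0, nat_lit 0, nat_lit 0, nat_lit 0, nat_lit 0, [],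
 ⟨p071_k38, nat_lit 0, nat_lit 0, nat_lit 256, nat_lit 0, nat_lit 675989, [nat_lit 3282000000, nat_lit 4688000000], [], [nat_lit 19814575093, nat_lit 19867630349, nat_lit 19837551286, nat_lit 19893172629, nat_lit 21358810166, nat_lit 21410099438, nat_lit 21374710080, nat_lit 21427855291], nat_lit 1271250, nat_lit 1271250, nat_lit 780000, nat_lit 810650, nat_lit 1271250, nat_lit 1271250, [nat_lit 780000, nat_lit 1100000], [nat_lit 40, nat_lit 40, nat_lit 40, nat_lit 80, nat_lit 22, nat_lit 249, nat_lit 40, nat_lit 10]⟩, ⟨p071_k39, nat_lit 0, nat_lit 0, nat_lit 0, nat_lit 0, nat_lit 0, [nat_lit 2637500000, nat_lit 3965500000], [], [nat_lit 20422548463, nat_lit 20488855324, nat_lit 20464954638, nat_lit 20530891235, nat_lit 22381504968, nat_lit 22445292102, nat_lit 22413226558, nat_lit 22473587321], nat_lit 0, nat_lit 0, nat_lit 0, nat_lit 0, nat_lit 0, nat_lit 0, [], [nat_lit 180, nat_lit 40, nat_lit 20, nat_lit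 40]⟩,
 zbF0, [⟨nat_lit 0, nat_lit 91, nat_lit 91, nat_lit 100, nat_lit 375214556⟩, ⟨nat_lit 16, nat_lit 91, nat_lit 91, nat_lit 100, nat_lit 541570575⟩, ⟨nat_lit 19, nat_lit 91, nat_lit 91, nat_lit 100, nat_lit 612724660⟩]⟩
noncomputable def p071_l94 : Lf2 := ⟨nat_lit 3, nat_lit 1, [nat_lit 19, nat_lit 5, nat_lit 5, nat_lit 20], false, nat_lit 280, nat_lit 312, nat_lit 280, nat_lit 312, zbN0,
 nat_lit 0, nat_lit 0, nat_lit 0, nat_lit 0, nat_lit 0, nat_lit 0, nat_lit 0, nat_lit 0, nat_lit 0, nat_lit 0, nat_lit 0, nat_lit 0, nat_lit 0, nat_lit 0, nat_lit 0, nat_lit 0, nat_lit 0, nat_lit 0, [],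
 C1.Rw.none, ⟨p071_k38, nat_lit 0, nat_lit 0, nat_lit 36, nat_lit 0, nat_lit 0, [], [], [], nat_lit 0, nat_lit 0, nat_lit 0, nat_lit 0, nat_lit 0, nat_lit 0, [], [nat_lit 40, nat_lit 40, nat_lit 40, nat_lit 80, nat_lit 22, nat_lit 249, nat_lit 40, nat_lit 10]⟩,
 zbF0, []⟩
noncomputable def p071_l95 : Lf2 := ⟨nat_lit 0, nat_lit 1, [nat_lit 19, nat_lit 5, nat_lit 5, nat_lit 20], false, nat_lit 280, nat_lit 312, nat_lit 280, nat_lit 312, ⟨nat_lit 1000, nat_lit 0, nat_lit 0, nat_lit 0, nat_lit 0, nat_lit 0, nat_lit 0, nat_lit 0, nat_lit 0, nat_lit 0, nat_lit 0, nat_lit 0, nat_lit 0, nat_lit 0, nat_lit 0, nat_lit 0, false, false⟩,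
 nat_lit 0, nat_lit 9137, nat_lit 0, nat_lit 0, nat_lit 6560, nat_lit 4999, nat_lit 1202, nat_lit 0, nat_lit 0, nat_lit 0, nat_lit 0, nat_lit 0, nat_lit 0, nat_lit 0, nat_lit 0, nat_lit 0, nat_lit 0, nat_lit 0, [],
 ⟨p071_k38, nat_lit 0, nat_lit 0, nat_lit 255, nat_lit 0, nat_lit 675989, [nat_lit 3282000000, nat_lit 4688000000], [], [nat_lit 19847024414, nat_lit 19899335871, nat_lit 19869633759, nat_lit 19924895120, nat_lit 21380666328, nat_lit 21431627933, nat_lit 21396585526, nat_lit 21450115635], nat_lit 1271250, nat_lit 1271250, nat_lit 810650, nat_lit 841600, nat_lit 1271250, nat_lit 1271250, [nat_lit 780000, nat_lit 1100000], [nat_lit 40, nat_lit 40, nat_lit 40, nat_lit 80, nat_lit 22, nat_lit 249, nat_lit 40, nat_lit 9]⟩, ⟨p071_k36, nat_lit 0, nat_lit 0, nat_lit 36, nat_lit 0, nat_lit 0, [nat_lit 3282000000, nat_lit 4688000000], [], [nat_lit 20871846670, nat_lit 21009386614, nat_lit 20918402063, nat_lit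 21055119362, nat_lit 22785968565, nat_lit 22911627389, nat_lit 22821103823, nat_lit 22946027147], nat_lit 0, nat_lit 0, nat_lit 0, nat_lit 0, nat_lit 0, nat_lit 0, [], [nat_lit 40, nat_lit 40, nat_lit 40, nat_lit 80, nat_lit 22, nat_lit 249, nat_lit 40, nat_lit 9]⟩,
 zbF0, [⟨nat_lit 16, nat_lit 91, nat_lit 91, nat_lit 100, nat_lit 539814762⟩, ⟨nat_lit 19, nat_lit 92, nat_lit 91, nat_lit 100, nat_lit 596794533⟩]⟩
noncomputable def p071_l96 : Lf2 := ⟨nat_lit 0, nat_lit 1, [nat_lit 19, nat_lit 5, nat_lit 5, nat_lit 20], false, nat_lit 280, nat_lit 312, nat_lit 280, nat_lit 312, ⟨nat_lit 1000, nat_lit 0, nat_lit 0, nat_lit 0, nat_lit 0, nat_lit 0, nat_lit 0, nat_lit 0, nat_lit 0, nat_lit 0, nat_lit 0, nat_lit 0, nat_lit 0, nat_lit 0, nat_lit 0, nat_lit 0, false, false⟩,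
 nat_lit 0, nat_lit 9133, nat_lit 0, nat_lit 0, nat_lit 6557, nat_lit 5004, nat_lit 1198, nat_lit 0, nat_lit 0, nat_lit 0, nat_lit 0, nat_lit 0, nat_lit 0, nat_lit 0, nat_lit 0, nat_lit 0, nat_lit 0, nat_lit 0, [],
 ⟨p071_k38, nat_lit 0, nat_lit 0, nat_lit 254, nat_lit 0, nat_lit 675989, [nat_lit 3282000000, nat_lit 4688000000], [], [nat_lit 19882689655, nat_lit 19934470656, nat_lit 19956724530, nat_lit 20010919552, nat_lit 21405548823, nat_lit 21456179173, nat_lit 21453393193, nat_lit 21512910457], nat_lit 1271250, nat_lit 1271250, nat_lit 841600, nat_lit 936251, nat_lit 1271250, nat_lit 1271250, [nat_lit 780000, nat_lit 1100000], [nat_lit 40, nat_lit 40, nat_lit 40, nat_lit 80, nat_lit 22, nat_lit 249, nat_lit 40, nat_lit 9]⟩, ⟨p071_k36, nat_lit 0, nat_lit 0, nat_lit 35, nat_lit 0, nat_lit 0, [nat_lit 3282000000, nat_lit 4688000000], [], [nat_lit 20915190952, nat_lit 21051979555, nat_lit 21054719536, nat_lit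 21189038333, nat_lit 22818798311, nat_lit 22943783614, nat_lit 22924040916, nat_lit 23046818064], nat_lit 0, nat_lit 0, nat_lit 0, nat_lit 0, nat_lit 0, nat_lit 0, [], [nat_lit 40, nat_lit 40, nat_lit 40, nat_lit 80, nat_lit 22, nat_lit 249, nat_lit 40, nat_lit 9]⟩,
 zbF0, [⟨nat_lit 16, nat_lit 91, nat_lit 91, nat_lit 100, nat_lit 538059927⟩, ⟨nat_lit 19, nat_lit 92, nat_lit 91, nat_lit 100, nat_lit 595015452⟩]⟩
noncomputable def p071_l97 : Lf2 := ⟨nat_lit 0, nat_lit 1, [nat_lit 19, nat_lit 5, nat_lit 5, nat_lit 20], false, nat_lit 280, nat_lit 312, nat_lit 280, nat_lit 312, ⟨nat_lit 1000, nat_lit 0, nat_lit 0, nat_lit 0, nat_lit 0, nat_lit 0, nat_lit 0, nat_lit 0, nat_lit 0, nat_lit 0, nat_lit 0, nat_lit 0, nat_lit 0, nat_lit 0, nat_lit 0, nat_lit 0, false, false⟩,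
 nat_lit 0, nat_lit 9123, nat_lit 0, nat_lit 0, nat_lit 6550, nat_lit 5019, nat_lit 1187, nat_lit 0, nat_lit 0, nat_lit 0, nat_lit 0, nat_lit 0, nat_lit 0, nat_lit 0, nat_lit 0, nat_lit 0, nat_lit 0, nat_lit 0, [],
 ⟨p071_k38, nat_lit 0, nat_lit 0, nat_lit 252, nat_lit 0, nat_lit 675989, [nat_lit 3282000000, nat_lit 4688000000], [], [nat_lit 19982217123, nat_lit 20032984050, nat_lit 20108537443, nat_lit 20160948975, nat_lit 21474510031, nat_lit 21524155256, nat_lit 21559743518, nat_lit 21620894890], nat_lit 1271250, nat_lit 1271250, nat_lit 936251, nat_lit 1100001, nat_lit 1271250, nat_lit 1271250, [nat_lit 780000, nat_lit 1100000], [nat_lit 40, nat_lit 40, nat_lit 40, nat_lit 80, nat_lit 22, nat_lit 249, nat_lit 40, nat_lit 9]⟩, ⟨p071_k36, nat_lit 0, nat_lit 0, nat_lit 33, nat_lit 0, nat_lit 0, [nat_lit 3282000000, nat_lit 4688000000], [], [nat_lit 21044673420, nat_lit 21179200520, nat_lit 21276533083, nat_lit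 21406934493, nat_lit 22916634875, nat_lit 23039592989, nat_lit 23091223372, nat_lit 23210492948], nat_lit 0, nat_lit 0, nat_lit 0, nat_lit 0, nat_lit 0, nat_lit 0, [], [nat_lit 40, nat_lit 40, nat_lit 40, nat_lit 80, nat_lit 22, nat_lit 249, nat_lit 40, nat_lit 9]⟩,
 zbF0, [⟨nat_lit 16, nat_lit 91, nat_lit 91, nat_lit 100, nat_lit 532801296⟩, ⟨nat_lit 19, nat_lit 92, nat_lit 91, nat_lit 100, nat_lit 589664281⟩]⟩
noncomputable def b_V_700_700_20_28 : St := ⟨true, nat_lit 1, nat_lit 0, nat_lit 1, nat_lit 120, nat_lit 305, nat_lit 310, nat_lit 300, nat_lit 310, nat_lit 120, nat_lit 160, nat_lit 100, nat_lit 120, nat_lit 240, nat_lit 316, nat_lit 240, nat_lit 320, nat_lit 0, nat_lit 4, nat_lit 600, nat_lit 0, nat_lit 0, nat_lit 0⟩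
theorem d_V_700_700_20_28 (h : EB TB.env) : Dead b_V_700_700_20_28 := chkB_sound0 h (T :=
(.spl (nat_lit 0) (nat_lit 308)
(.ord (.spl (nat_lit 0) (nat_lit 307)
(.ord (.leaf p071_l82))
(.leaf p071_l83)))
(.trX (nat_lit 16) (nat_lit 92) (nat_lit 91) (nat_lit 100) (nat_lit 312) (.spl (nat_lit 0) (nat_lit 309)
(.ord (.spl (nat_lit 1) (nat_lit 305)
(.leaf p071_l84)
(.trX (nat_lit 19) (nat_lit 93) (nat_lit 90) (nat_lit 100) (nat_lit 316) (.spl (nat_lit 2) (nat_lit 140)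
(.leaf p071_l85)
(.leaf p071_l86)))))
(.spl (nat_lit 1) (nat_lit 305)
(.leaf p071_l87)
(.trX (nat_lit 19) (nat_lit 93) (nat_lit 90) (nat_lit 100) (nat_lit 316) (.spl (nat_lit 1) (nat_lit 308)
(.leaf p071_l88)
(.trX (nat_lit 19) (nat_lit 92) (nat_lit 91) (nat_lit 100) (nat_lit 312) (.spl (nat_lit 4) (nat_lit 280)
(.leaf p071_l89)
(.spl (nat_lit 5) (nat_lit 280)
(.leaf p071_l90)
(.spl (nat_lit 2) (nat_lit 140)
(.spl (nat_lit 2) (nat_lit 128)
(.spl (nat_lit 2) (nat_lit 124)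
(.spl (nat_lit 1) (nat_lit 309)
(.spl (nat_lit 8) (nat_lit 800)
(.leaf p071_l91)
(.leaf p071_l92))
(.spl (nat_lit 8) (nat_lit 800)
(.leaf p071_l93)
(.leaf p071_l94)))
(.leaf p071_l95))
(.leaf p071_l96))
(.leaf p071_l97)))))))))))) (by decide +kernel)
noncomputable def p071_l98 : Lf2 := ⟨nat_lit 0, nat_lit 5, [nat_lit 4, nat_lit 5, nat_lit 5, nat_lit 20], false, nat_lit 240, nat_lit 320, nat_lit 240, nat_lit 320, ⟨nat_lit 1000, nat_lit 0, nat_lit 0, nat_lit 0, nat_lit 0, nat_lit 0, nat_lit 0, nat_lit 0, nat_lit 0, nat_lit 0, nat_lit 0, nat_lit 0, nat_lit 0, nat_lit 0, nat_lit 0, nat_lit 0, false, false⟩,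
 nat_lit 0, nat_lit 8933, nat_lit 0, nat_lit 0, nat_lit 6184, nat_lit 4909, nat_lit 1698, nat_lit 0, nat_lit 0, nat_lit 0, nat_lit 0, nat_lit 0, nat_lit 0, nat_lit 0, nat_lit 0, nat_lit 0, nat_lit 0, nat_lit 0, [],
 ⟨p071_k10, nat_lit 0, nat_lit 0, nat_lit 280, nat_lit 0, nat_lit 628823, [nat_lit 3282000000, nat_lit 4688000000, nat_lit 6250000000], [], [nat_lit 19152536504, nat_lit 19406482086, nat_lit 19358473744, nat_lit 19590262684, nat_lit 22538513048, nat_lit 22782285812, nat_lit 22617228432, nat_lit 22845975212], nat_lit 1271250, nat_lit 1271250, nat_lit 631250, nat_lit 1100001, nat_lit 1271250, nat_lit 1271250, [nat_lit 780000, nat_lit 1100000, nat_lit 1442500], [nat_lit 59, nat_lit 40, nat_lit 40, nat_lit 80, nat_lit 3, nat_lit 249, nat_lit 40, nat_lit 8]⟩, ⟨p071_k10, nat_lit 0, nat_lit 0, nat_lit 52, nat_lit 0, nat_lit 0, [nat_lit 3282000000, nat_lit 4688000000, nat_lit 6250000000], [], [nat_lit 17851103863,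 nat_lit 18240541777, nat_lit 18539449888, nat_lit 18895990876, nat_lit 22863309929, nat_lit 23176548115, nat_lit 23139510414, nat_lit 23427681443], nat_lit 0, nat_lit 0, nat_lit 0, nat_lit 0, nat_lit 0, nat_lit 0, [], [nat_lit 59, nat_lit 40, nat_lit 40, nat_lit 80, nat_lit 3, nat_lit 249, nat_lit 40, nat_lit 8]⟩,
 zbF0, [⟨nat_lit 0, nat_lit 95, nat_lit 95, nat_lit 100, nat_lit 246677694⟩, ⟨nat_lit 4, nat_lit 100, nat_lit 98, nat_lit 99, nat_lit 178177408⟩, ⟨nat_lit 7, nat_lit 100, nat_lit 98, nat_lit 99, nat_lit 278674002⟩, ⟨nat_lit 11, nat_lit 88, nat_lit 88, nat_lit 100, nat_lit 320610260⟩]⟩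
noncomputable def p071_l99 : Lf2 := ⟨nat_lit 0, nat_lit 5, [nat_lit 4, nat_lit 5, nat_lit 5, nat_lit 20], false, nat_lit 240, nat_lit 316, nat_lit 240, nat_lit 320, ⟨nat_lit 1000, nat_lit 0, nat_lit 0, nat_lit 0, nat_lit 0, nat_lit 0, nat_lit 0, nat_lit 0, nat_lit 0, nat_lit 0, nat_lit 0, nat_lit 0, nat_lit 0, nat_lit 0, nat_lit 0, nat_lit 0, false, false⟩,
 nat_lit 0, nat_lit 8786, nat_lit 0, nat_lit 0, nat_lit 6207, nat_lit 4893, nat_lit 1409, nat_lit 0, nat_lit 0, nat_lit 0, nat_lit 0, nat_lit 0, nat_lit 0, nat_lit 0, nat_lit 0, nat_lit 0, nat_lit 0, nat_lit 0, [],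
 ⟨p071_k11, nat_lit 0, nat_lit 0, nat_lit 316, nat_lit 0, nat_lit 697013, [nat_lit 3282000000, nat_lit 4688000000, nat_lit 6250000000], [], [nat_lit 19097534623, nat_lit 19355526307, nat_lit 19348987160, nat_lit 19596501698, nat_lit 22496725685, nat_lit 22748974379, nat_lit 22597054429, nat_lit 22828790718], nat_lit 1271250, nat_lit 1271250, nat_lit 660400, nat_lit 1100001, nat_lit 1271250, nat_lit 1271250, [nat_lit 780000, nat_lit 1100000, nat_lit 1442500], [nat_lit 59, nat_lit 40, nat_lit 40, nat_lit 80, nat_lit 3, nat_lit 249, nat_lit 40, nat_lit 8]⟩, ⟨p071_k10, nat_lit 0, nat_lit 0, nat_lit 53, nat_lit 0, nat_lit 0, [nat_lit 3282000000, nat_lit 4688000000, nat_lit 6250000000], [], [nat_lit 17872190386, nat_lit 18645706179, nat_lit 18555238176, nat_lit 19267083928, nat_lit 22852103367, nat_lit 23474594129, nat_lit 23148319278, nat_lit 23723775367], nat_lit 0, nat_lit 0, nat_lit 0, nat_lit 0, nat_lit 0, nat_lit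 0, [], [nat_lit 59, nat_lit 40, nat_lit 40, nat_lit 80, nat_lit 3, nat_lit 249, nat_lit 40, nat_lit 8]⟩,
 zbF0, [⟨nat_lit 0, nat_lit 91, nat_lit 91, nat_lit 100, nat_lit 501566033⟩, ⟨nat_lit 16, nat_lit 93, nat_lit 90, nat_lit 100, nat_lit 381833822⟩, ⟨nat_lit 19, nat_lit 94, nat_lit 88, nat_lit 100, nat_lit 448961841⟩, ⟨nat_lit 11, nat_lit 87, nat_lit 87, nat_lit 100, nat_lit 115561383⟩]⟩
noncomputable def b_V_700_700_20_29 : St := ⟨true, nat_lit 1, nat_lit 0, nat_lit 1, nat_lit 120, nat_lit 300, nat_lit 310, nat_lit 300, nat_lit 310, nat_lit 100, nat_lit 160, nat_lit 80, nat_lit 120, nat_lit 240, nat_lit 320, nat_lit 240, nat_lit 320, nat_lit 8, nat_lit 20, nat_lit 600, nat_lit 0, nat_lit 0, nat_lit 0⟩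
theorem d_V_700_700_20_29 (h : EB TB.env) : Dead b_V_700_700_20_29 := chkB_sound0 h (T :=
(.spl (nat_lit 0) (nat_lit 305)
(.ord (.leaf p071_l98))
(.trZ (nat_lit 0) (nat_lit 98) (nat_lit 97) (nat_lit 100) (nat_lit 104) (.trX (nat_lit 16) (nat_lit 93) (nat_lit 90) (nat_lit 100) (nat_lit 316) (.leaf p071_l99))))) (by decide +kernel)
noncomputable def p071_l100 : Lf2 := ⟨nat_lit 0, nat_lit 10, [nat_lit 0, nat_lit 5, nat_lit 5, nat_lit 20], false, nat_lit 160, nat_lit 312, nat_lit 160, nat_lit 320, ⟨nat_lit 1000, nat_lit 0, nat_lit 0, nat_lit 0, nat_lit 0, nat_lit 0, nat_lit 0, nat_lit 0, nat_lit 0, nat_lit 0, nat_lit 0, nat_lit 0, nat_lit 0, nat_lit 0, nat_lit 0, nat_lit 0, false, false⟩,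
 nat_lit 0, nat_lit 3064, nat_lit 0, nat_lit 0, nat_lit 2208, nat_lit 4966, nat_lit 772, nat_lit 0, nat_lit 273, nat_lit 0, nat_lit 0, nat_lit 0, nat_lit 0, nat_lit 0, nat_lit 0, nat_lit 0, nat_lit 0, nat_lit 0, [],
 ⟨p071_k27, nat_lit 0, nat_lit 0, nat_lit 0, nat_lit 0, nat_lit 1015668, [nat_lit 3282000000, nat_lit 4688000000, nat_lit 7968000000], [], [nat_lit 17154488713, nat_lit 17535264769, nat_lit 17945997532, nat_lit 18304923252, nat_lit 21101396158, nat_lit 21510803702, nat_lit 22647690410, nat_lit 22219124442], nat_lit 1271250, nat_lit 1271250, nat_lit 689850, nat_lit 1100001, nat_lit 1100001, nat_lit 2401500, [nat_lit 780000, nat_lit 1100000, nat_lit 1785000], [nat_lit 36, nat_lit 40, nat_lit 40, nat_lit 80]⟩, ⟨p071_k26, nat_lit 0, nat_lit 0, nat_lit 56, nat_lit 0, nat_lit 0, [nat_lit 3282000000, nat_lit 4688000000, nat_lit 7968000000], [], [nat_lit 14350156554, nat_lit 16182163461, nat_lit 15283291348,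 nat_lit 16973549888, nat_lit 22807591758, nat_lit 24182532237, nat_lit 23108128836, nat_lit 24291473128], nat_lit 0, nat_lit 0, nat_lit 0, nat_lit 0, nat_lit 0, nat_lit 0, [], [nat_lit 36, nat_lit 40, nat_lit 40, nat_lit 80, nat_lit 7, nat_lit 345, nat_lit 125, nat_lit 11]⟩,
 zbF0, [⟨nat_lit 0, nat_lit 97, nat_lit 93, nat_lit 100, nat_lit 193241006⟩, ⟨nat_lit 19, nat_lit 94, nat_lit 88, nat_lit 100, nat_lit 268704596⟩, ⟨nat_lit 11, nat_lit 86, nat_lit 86, nat_lit 100, nat_lit 250941603⟩]⟩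
noncomputable def p071_l101 : Lf2 := ⟨nat_lit 0, nat_lit 5, [nat_lit 4, nat_lit 5, nat_lit 5, nat_lit 20], false, nat_lit 160, nat_lit 292, nat_lit 160, nat_lit 300, ⟨nat_lit 1000, nat_lit 0, nat_lit 0, nat_lit 0, nat_lit 0, nat_lit 0, nat_lit 0, nat_lit 0, nat_lit 0, nat_lit 0, nat_lit 0, nat_lit 0, nat_lit 0, nat_lit 0, nat_lit 0, nat_lit 0, false, false⟩,
 nat_lit 0, nat_lit 9744, nat_lit 0, nat_lit 0, nat_lit 7024, nat_lit 5088, nat_lit 2030, nat_lit 0, nat_lit 0, nat_lit 0, nat_lit 0, nat_lit 0, nat_lit 0, nat_lit 0, nat_lit 0, nat_lit 0, nat_lit 0, nat_lit 0, [],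
 ⟨p071_k19, nat_lit 0, nat_lit 0, nat_lit 425, nat_lit 0, nat_lit 960011, [nat_lit 3282000000, nat_lit 4688000000, nat_lit 6250000000], [], [nat_lit 15910328089, nat_lit 16498035060, nat_lit 16278244944, nat_lit 16818904288, nat_lit 19922736350, nat_lit 20362086194, nat_lit 19906030841, nat_lit 20411587018], nat_lit 1271250, nat_lit 1271250, nat_lit 689850, nat_lit 1100001, nat_lit 1100001, nat_lit 2230250, [nat_lit 780000, nat_lit 1100000, nat_lit 1442500], [nat_lit 59, nat_lit 40, nat_lit 40, nat_lit 80, nat_lit 3, nat_lit 345, nat_lit 125, nat_lit 12]⟩, ⟨p071_k10, nat_lit 0, nat_lit 0, nat_lit 48, nat_lit 0, nat_lit 0, [nat_lit 3282000000, nat_lit 4688000000, nat_lit 6250000000], [], [nat_lit 14216288272, nat_lit 16074726455, nat_lit 15140072864, nat_lit 16854083584, nat_lit 21498217715, nat_lit 22981004628, nat_lit 21871425540, nat_lit 23157310688], nat_lit 0, nat_lit 0, nat_lit 0, nat_lit 0, nat_lit 0, nat_lit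 0, [], [nat_lit 59, nat_lit 40, nat_lit 40, nat_lit 80, nat_lit 3, nat_lit 345, nat_lit 125, nat_lit 12]⟩,
 zbF0, [⟨nat_lit 0, nat_lit 90, nat_lit 88, nat_lit 100, nat_lit 618424070⟩, ⟨nat_lit 16, nat_lit 93, nat_lit 100, nat_lit 97, nat_lit 392284930⟩, ⟨nat_lit 19, nat_lit 100, nat_lit 100, nat_lit 100, nat_lit 14404790⟩, ⟨nat_lit 7, nat_lit 100, nat_lit 91, nat_lit 91, nat_lit 526261727⟩]⟩
noncomputable def p071_l102 : Lf2 := ⟨nat_lit 0, nat_lit 2, [nat_lit 10, nat_lit 5, nat_lit 5, nat_lit 20], false, nat_lit 160, nat_lit 240, nat_lit 160, nat_lit 320, ⟨nat_lit 1000, nat_lit 0, nat_lit 0, nat_lit 0, nat_lit 0, nat_lit 0, nat_lit 0, nat_lit 0, nat_lit 0, nat_lit 0, nat_lit 0, nat_lit 0, nat_lit 0, nat_lit 0, nat_lit 0, nat_lit 0, false, false⟩,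
 nat_lit 0, nat_lit 10028, nat_lit 0, nat_lit 0, nat_lit 7229, nat_lit 5011, nat_lit 1206, nat_lit 0, nat_lit 0, nat_lit 0, nat_lit 0, nat_lit 0, nat_lit 0, nat_lit 0, nat_lit 0, nat_lit 0, nat_lit 0, nat_lit 0, [],
 ⟨p071_k20, nat_lit 0, nat_lit 0, nat_lit 301, nat_lit 0, nat_lit 838684, [nat_lit 3282000000, nat_lit 4688000000], [], [nat_lit 14156584620, nat_lit 14797399177, nat_lit 14521241839, nat_lit 15110220192, nat_lit 16325570754, nat_lit 16906631676, nat_lit 16532214067, nat_lit 17066433140], nat_lit 1271250, nat_lit 1271250, nat_lit 689850, nat_lit 1100001, nat_lit 1100001, nat_lit 1785000, [nat_lit 780000, nat_lit 1100000], [nat_lit 40, nat_lit 40, nat_lit 40, nat_lit 80, nat_lit 22, nat_lit 249, nat_lit 40, nat_lit 10]⟩, ⟨p071_k13, nat_lit 0, nat_lit 0, nat_lit 46, nat_lit 0, nat_lit 0, [nat_lit 3282000000, nat_lit 4688000000], [], [nat_lit 14300778909, nat_lit 16142535057, nat_lit 15230464858, nat_lit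 16929484448, nat_lit 22838061634, nat_lit 24219990453, nat_lit 23083353906, nat_lit 24319503988], nat_lit 0, nat_lit 0, nat_lit 0, nat_lit 0, nat_lit 0, nat_lit 0, [], [nat_lit 40, nat_lit 40, nat_lit 40, nat_lit 80, nat_lit 22, nat_lit 249, nat_lit 40, nat_lit 10]⟩,
 zbF0, [⟨nat_lit 0, nat_lit 90, nat_lit 88, nat_lit 100, nat_lit 460619399⟩, ⟨nat_lit 0, nat_lit 83, nat_lit 83, nat_lit 100, nat_lit 184739903⟩, ⟨nat_lit 7, nat_lit 97, nat_lit 94, nat_lit 100, nat_lit 484554944⟩]⟩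
noncomputable def p071_l103 : Lf2 := ⟨nat_lit 0, nat_lit 1, [nat_lit 19, nat_lit 5, nat_lit 5, nat_lit 20], false, nat_lit 240, nat_lit 312, nat_lit 160, nat_lit 240, ⟨nat_lit 1000, nat_lit 0, nat_lit 0, nat_lit 0, nat_lit 0, nat_lit 0, nat_lit 0, nat_lit 0, nat_lit 0, nat_lit 0, nat_lit 0, nat_lit 0, nat_lit 0, nat_lit 0, nat_lit 0, nat_lit 0, false, false⟩,
 nat_lit 0, nat_lit 9239, nat_lit 0, nat_lit 0, nat_lit 6660, nat_lit 5376, nat_lit 1139, nat_lit 0, nat_lit 0, nat_lit 0, nat_lit 0, nat_lit 0, nat_lit 0, nat_lit 15654056245730, nat_lit 0, nat_lit 0, nat_lit 0, nat_lit 0, [],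
 ⟨p071_k40, nat_lit 0, nat_lit 0, nat_lit 323, nat_lit 0, nat_lit 833877, [nat_lit 3282000000, nat_lit 4688000000], [], [nat_lit 18611836075, nat_lit 19132954281, nat_lit 18813723220, nat_lit 19293775080, nat_lit 21635061378, nat_lit 22097894365, nat_lit 21652320220, nat_lit 22078869264], nat_lit 1271250, nat_lit 1271250, nat_lit 689850, nat_lit 1100001, nat_lit 1271250, nat_lit 1271250, [nat_lit 780000, nat_lit 1100000], [nat_lit 40, nat_lit 40, nat_lit 40, nat_lit 80, nat_lit 22, nat_lit 249, nat_lit 40, nat_lit 10]⟩, ⟨p071_k33, nat_lit 0, nat_lit 0, nat_lit 20, nat_lit 0, nat_lit 0, [nat_lit 3282000000, nat_lit 4688000000], [], [nat_lit 13900271344, nat_lit 15821104669, nat_lit 14801983328, nat_lit 16572064768, nat_lit 17458420661, nat_lit 19166217924, nat_lit 18078629232, nat_lit 19576957760], nat_lit 0, nat_lit 0, nat_lit 0, nat_lit 0, nat_lit 0, nat_lit 0, [], [nat_lit 40, nat_lit 40, nat_lit 40, nat_lit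 80, nat_lit 22, nat_lit 249, nat_lit 40, nat_lit 10]⟩,
 zbF0, [⟨nat_lit 0, nat_lit 83, nat_lit 83, nat_lit 100, nat_lit 695865782⟩, ⟨nat_lit 4, nat_lit 99, nat_lit 92, nat_lit 100, nat_lit 473383415⟩]⟩
noncomputable def p071_l104 : Lf2 := ⟨nat_lit 0, nat_lit 1, [nat_lit 19, nat_lit 5, nat_lit 5, nat_lit 20], false, nat_lit 240, nat_lit 280, nat_lit 240, nat_lit 320, ⟨nat_lit 1000, nat_lit 0, nat_lit 0, nat_lit 0, nat_lit 0, nat_lit 0, nat_lit 0, nat_lit 0, nat_lit 0, nat_lit 0, nat_lit 0, nat_lit 0, nat_lit 0, nat_lit 0, nat_lit 0, nat_lit 0, false, false⟩,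
 nat_lit 0, nat_lit 9622, nat_lit 0, nat_lit 0, nat_lit 6936, nat_lit 4966, nat_lit 1162, nat_lit 0, nat_lit 0, nat_lit 0, nat_lit 0, nat_lit 0, nat_lit 0, nat_lit 0, nat_lit 0, nat_lit 0, nat_lit 0, nat_lit 0, [],
 ⟨p071_k40, nat_lit 0, nat_lit 0, nat_lit 314, nat_lit 0, nat_lit 833877, [nat_lit 3282000000, nat_lit 4688000000], [], [nat_lit 17499557151, nat_lit 18031570208, nat_lit 17690084728, nat_lit 18213041760, nat_lit 19217712485, nat_lit 19732330709, nat_lit 19311940108, nat_lit 19856405872], nat_lit 1271250, nat_lit 1271250, nat_lit 689850, nat_lit 1100001, nat_lit 1271250, nat_lit 1271250, [nat_lit 780000, nat_lit 1100000], [nat_lit 40, nat_lit 40, nat_lit 40, nat_lit 80, nat_lit 22, nat_lit 249, nat_lit 40, nat_lit 10]⟩, ⟨p071_k33, nat_lit 0, nat_lit 0, nat_lit 46, nat_lit 0, nat_lit 0, [nat_lit 3282000000, nat_lit 4688000000], [], [nat_lit 17816151483, nat_lit 19367845144, nat_lit 18483204112, nat_lit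 19918176160, nat_lit 22807591758, nat_lit 24182532237, nat_lit 23108128836, nat_lit 24291473128], nat_lit 0, nat_lit 0, nat_lit 0, nat_lit 0, nat_lit 0, nat_lit 0, [], [nat_lit 40, nat_lit 40, nat_lit 40, nat_lit 80, nat_lit 22, nat_lit 249, nat_lit 40, nat_lit 10]⟩,
 zbF0, [⟨nat_lit 0, nat_lit 90, nat_lit 88, nat_lit 100, nat_lit 618392504⟩, ⟨nat_lit 19, nat_lit 94, nat_lit 88, nat_lit 100, nat_lit 567099517⟩]⟩
noncomputable def p071_l105 : Lf2 := ⟨nat_lit 0, nat_lit 1, [nat_lit 19, nat_lit 5, nat_lit 5, nat_lit 20], false, nat_lit 280, nat_lit 312, nat_lit 240, nat_lit 320, ⟨nat_lit 1000, nat_lit 0, nat_lit 0, nat_lit 0, nat_lit 0, nat_lit 0, nat_lit 0, nat_lit 0, nat_lit 0, nat_lit 0, nat_lit 0, nat_lit 0, nat_lit 0, nat_lit 0, nat_lit 0, nat_lit 0, false, false⟩,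
 nat_lit 0, nat_lit 9043, nat_lit 0, nat_lit 0, nat_lit 6519, nat_lit 4979, nat_lit 1156, nat_lit 0, nat_lit 0, nat_lit 0, nat_lit 0, nat_lit 0, nat_lit 0, nat_lit 0, nat_lit 0, nat_lit 0, nat_lit 0, nat_lit 0, [],
 ⟨p071_k40, nat_lit 0, nat_lit 0, nat_lit 259, nat_lit 0, nat_lit 668955, [nat_lit 3282000000, nat_lit 4688000000], [], [nat_lit 20087632119, nat_lit 20353464876, nat_lit 20017546526, nat_lit 20278987110, nat_lit 21622984184, nat_lit 21911991067, nat_lit 21537579952, nat_lit 21793205196], nat_lit 1271250, nat_lit 1271250, nat_lit 689850, nat_lit 780000, nat_lit 1271250, nat_lit 1271250, [nat_lit 780000, nat_lit 1100000], [nat_lit 40, nat_lit 40, nat_lit 40, nat_lit 80, nat_lit 22, nat_lit 238, nat_lit 30, nat_lit 9]⟩, ⟨p071_k33, nat_lit 0, nat_lit 0, nat_lit 41, nat_lit 0, nat_lit 0, [nat_lit 3282000000, nat_lit 4688000000], [], [nat_lit 17804808799, nat_lit 18193292508, nat_lit 17823512966, nat_lit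 18205976424, nat_lit 22815953609, nat_lit 23160303581, nat_lit 22747445506, nat_lit 23055343999], nat_lit 0, nat_lit 0, nat_lit 0, nat_lit 0, nat_lit 0, nat_lit 0, [], [nat_lit 40, nat_lit 40, nat_lit 40, nat_lit 80, nat_lit 22, nat_lit 238, nat_lit 30, nat_lit 9]⟩,
 zbF0, [⟨nat_lit 0, nat_lit 93, nat_lit 89, nat_lit 100, nat_lit 695482060⟩, ⟨nat_lit 16, nat_lit 91, nat_lit 91, nat_lit 100, nat_lit 198408520⟩, ⟨nat_lit 19, nat_lit 94, nat_lit 88, nat_lit 100, nat_lit 228981697⟩, ⟨nat_lit 23, nat_lit 97, nat_lit 90, nat_lit 100, nat_lit 342114440⟩]⟩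
noncomputable def p071_l106 : Lf2 := ⟨nat_lit 0, nat_lit 1, [nat_lit 19, nat_lit 5, nat_lit 5, nat_lit 20], false, nat_lit 280, nat_lit 312, nat_lit 240, nat_lit 316, ⟨nat_lit 1000, nat_lit 0, nat_lit 0, nat_lit 0, nat_lit 0, nat_lit 0, nat_lit 0, nat_lit 0, nat_lit 0, nat_lit 0, nat_lit 0, nat_lit 0, nat_lit 0, nat_lit 0, nat_lit 0, nat_lit 0, false, false⟩,
 nat_lit 0, nat_lit 9055, nat_lit 0, nat_lit 0, nat_lit 6527, nat_lit 5002, nat_lit 1173, nat_lit 0, nat_lit 0, nat_lit 0, nat_lit 0, nat_lit 0, nat_lit 0, nat_lit 0, nat_lit 0, nat_lit 0, nat_lit 0, nat_lit 0, [],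
 ⟨p071_k40, nat_lit 0, nat_lit 0, nat_lit 266, nat_lit 0, nat_lit 693629, [nat_lit 3282000000, nat_lit 4688000000], [], [nat_lit 20015021972, nat_lit 20297122669, nat_lit 19975190092, nat_lit 20254282209, nat_lit 21571050741, nat_lit 21861643295, nat_lit 21513862647, nat_lit 21781383801], nat_lit 1271250, nat_lit 1271250, nat_lit 719601, nat_lit 780000, nat_lit 1271250, nat_lit 1271250, [nat_lit 780000, nat_lit 1100000], [nat_lit 40, nat_lit 40, nat_lit 40, nat_lit 80, nat_lit 22, nat_lit 238, nat_lit 30, nat_lit 9]⟩, ⟨p071_k32, nat_lit 0, nat_lit 0, nat_lit 39, nat_lit 0, nat_lit 0, [nat_lit 3282000000, nat_lit 4688000000], [], [nat_lit 18178057245, nat_lit 18410534022, nat_lit 18185739793, nat_lit 18415800124, nat_lit 22870874710, nat_lit 23079657726, nat_lit 22802874076, nat_lit 23008976507], nat_lit 0, nat_lit 0, nat_lit 0, nat_lit 0, nat_lit 0, nat_lit 0, [], [nat_lit 40, nat_lit 40, nat_lit 40, nat_lit 80,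 nat_lit 22, nat_lit 238, nat_lit 30, nat_lit 9]⟩,
 zbF0, [⟨nat_lit 0, nat_lit 92, nat_lit 90, nat_lit 100, nat_lit 589675099⟩, ⟨nat_lit 16, nat_lit 91, nat_lit 91, nat_lit 100, nat_lit 363862460⟩, ⟨nat_lit 19, nat_lit 93, nat_lit 90, nat_lit 100, nat_lit 414751040⟩, ⟨nat_lit 11, nat_lit 93, nat_lit 93, nat_lit 100, nat_lit 171565801⟩]⟩
noncomputable def p071_l107 : Lf2 := ⟨nat_lit 0, nat_lit 1, [nat_lit 19, nat_lit 5, nat_lit 5, nat_lit 20], false, nat_lit 280, nat_lit 312, nat_lit 240, nat_lit 312, ⟨nat_lit 1000, nat_lit 0, nat_lit 0, nat_lit 0, nat_lit 0, nat_lit 0, nat_lit 0, nat_lit 0, nat_lit 0, nat_lit 0, nat_lit 0, nat_lit 0, nat_lit 0, nat_lit 0, nat_lit 0, nat_lit 0, false, false⟩,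
 nat_lit 0, nat_lit 9104, nat_lit 0, nat_lit 0, nat_lit 6563, nat_lit 5007, nat_lit 1166, nat_lit 0, nat_lit 0, nat_lit 0, nat_lit 0, nat_lit 0, nat_lit 0, nat_lit 0, nat_lit 0, nat_lit 0, nat_lit 0, nat_lit 0, [],
 ⟨p071_k40, nat_lit 0, nat_lit 0, nat_lit 269, nat_lit 0, nat_lit 710184, [nat_lit 3282000000, nat_lit 4688000000], [], [nat_lit 19888368683, nat_lit 20166399257, nat_lit 19864557214, nat_lit 20144442654, nat_lit 21446019895, nat_lit 21774217622, nat_lit 21407134775, nat_lit 21733430469], nat_lit 1271250, nat_lit 1271250, nat_lit 749650, nat_lit 780000, nat_lit 1271250, nat_lit 1271250, [nat_lit 780000, nat_lit 1100000], [nat_lit 40, nat_lit 40, nat_lit 40, nat_lit 80, nat_lit 22, nat_lit 238, nat_lit 30, nat_lit 9]⟩, ⟨p071_k36, nat_lit 0, nat_lit 0, nat_lit 38, nat_lit 0, nat_lit 0, [nat_lit 3282000000, nat_lit 4688000000], [], [nat_lit 18408979355, nat_lit 18563243381, nat_lit 18411527434, nat_lit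 18564985373, nat_lit 22780951990, nat_lit 22921313338, nat_lit 22747318536, nat_lit 22886444147], nat_lit 0, nat_lit 0, nat_lit 0, nat_lit 0, nat_lit 0, nat_lit 0, [], [nat_lit 40, nat_lit 40, nat_lit 40, nat_lit 80, nat_lit 22, nat_lit 238, nat_lit 30, nat_lit 9]⟩,
 zbF0, [⟨nat_lit 0, nat_lit 92, nat_lit 91, nat_lit 100, nat_lit 613756682⟩, ⟨nat_lit 16, nat_lit 91, nat_lit 91, nat_lit 100, nat_lit 396806747⟩, ⟨nat_lit 19, nat_lit 92, nat_lit 91, nat_lit 100, nat_lit 447203250⟩, ⟨nat_lit 11, nat_lit 92, nat_lit 92, nat_lit 100, nat_lit 143190308⟩]⟩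
noncomputable def p071_l108 : Lf2 := ⟨nat_lit 0, nat_lit 1, [nat_lit 19, nat_lit 5, nat_lit 5, nat_lit 20], false, nat_lit 280, nat_lit 312, nat_lit 240, nat_lit 320, ⟨nat_lit 1000, nat_lit 0, nat_lit 0, nat_lit 0, nat_lit 0, nat_lit 0, nat_lit 0, nat_lit 0, nat_lit 0, nat_lit 0, nat_lit 0, nat_lit 0, nat_lit 0, nat_lit 0, nat_lit 0, nat_lit 0, false, false⟩,
 nat_lit 0, nat_lit 9043, nat_lit 0, nat_lit 0, nat_lit 6519, nat_lit 4979, nat_lit 1156, nat_lit 0, nat_lit 0, nat_lit 0, nat_lit 0, nat_lit 0, nat_lit 0, nat_lit 0, nat_lit 0, nat_lit 0, nat_lit 0, nat_lit 0, [],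
 ⟨p071_k40, nat_lit 0, nat_lit 0, nat_lit 255, nat_lit 0, nat_lit 668955, [nat_lit 3282000000, nat_lit 4688000000], [], [nat_lit 20017546526, nat_lit 20278987110, nat_lit 20129310851, nat_lit 20399489055, nat_lit 21537579952, nat_lit 21793205196, nat_lit 21617560267, nat_lit 21881601739], nat_lit 1271250, nat_lit 1271250, nat_lit 780000, nat_lit 936251, nat_lit 1271250, nat_lit 1271250, [nat_lit 780000, nat_lit 1100000], [nat_lit 40, nat_lit 40, nat_lit 40, nat_lit 80, nat_lit 22, nat_lit 249, nat_lit 40, nat_lit 10]⟩, ⟨p071_k33, nat_lit 0, nat_lit 0, nat_lit 37, nat_lit 0, nat_lit 0, [nat_lit 3282000000, nat_lit 4688000000], [], [nat_lit 17823512966, nat_lit 18205976424, nat_lit 18146944547, nat_lit 18517798890, nat_lit 22747445506, nat_lit 23055343999, nat_lit 22924208570, nat_lit 23223212358], nat_lit 0, nat_lit 0, nat_lit 0, nat_lit 0, nat_lit 0, nat_lit 0, [], [nat_lit 40, nat_lit 40, nat_lit 40, nat_lit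 80, nat_lit 22, nat_lit 249, nat_lit 40, nat_lit 10]⟩,
 zbF0, [⟨nat_lit 0, nat_lit 93, nat_lit 89, nat_lit 100, nat_lit 346415737⟩, ⟨nat_lit 16, nat_lit 91, nat_lit 91, nat_lit 100, nat_lit 536763461⟩, ⟨nat_lit 19, nat_lit 94, nat_lit 88, nat_lit 100, nat_lit 582014683⟩]⟩
noncomputable def p071_l109 : Lf2 := ⟨nat_lit 0, nat_lit 1, [nat_lit 19, nat_lit 5, nat_lit 5, nat_lit 20], false, nat_lit 280, nat_lit 312, nat_lit 240, nat_lit 316, ⟨nat_lit 1000, nat_lit 0, nat_lit 0, nat_lit 0, nat_lit 0, nat_lit 0, nat_lit 0, nat_lit 0, nat_lit 0, nat_lit 0, nat_lit 0, nat_lit 0, nat_lit 0, nat_lit 0, nat_lit 0, nat_lit 0, false, false⟩,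
 nat_lit 0, nat_lit 9057, nat_lit 0, nat_lit 0, nat_lit 6529, nat_lit 5002, nat_lit 1168, nat_lit 0, nat_lit 0, nat_lit 0, nat_lit 0, nat_lit 0, nat_lit 0, nat_lit 0, nat_lit 0, nat_lit 0, nat_lit 0, nat_lit 0, [],
 ⟨p071_k40, nat_lit 0, nat_lit 0, nat_lit 263, nat_lit 0, nat_lit 693629, [nat_lit 3282000000, nat_lit 4688000000], [], [nat_lit 19969043821, nat_lit 20248180012, nat_lit 20098155246, nat_lit 20368543162, nat_lit 21507933321, nat_lit 21778719727, nat_lit 21587429618, nat_lit 21867762260], nat_lit 1271250, nat_lit 1271250, nat_lit 780000, nat_lit 936251, nat_lit 1271250, nat_lit 1271250, [nat_lit 780000, nat_lit 1100000], [nat_lit 40, nat_lit 40, nat_lit 40, nat_lit 80, nat_lit 22, nat_lit 249, nat_lit 40, nat_lit 10]⟩, ⟨p071_k32, nat_lit 0, nat_lit 0, nat_lit 37, nat_lit 0, nat_lit 0, [nat_lit 3282000000, nat_lit 4688000000], [], [nat_lit 18185739793, nat_lit 18415800124, nat_lit 18496777011, nat_lit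 18719847306, nat_lit 22802874076, nat_lit 23008976507, nat_lit 22976683407, nat_lit 23158649560], nat_lit 0, nat_lit 0, nat_lit 0, nat_lit 0, nat_lit 0, nat_lit 0, [], [nat_lit 40, nat_lit 40, nat_lit 40, nat_lit 80, nat_lit 22, nat_lit 249, nat_lit 40, nat_lit 10]⟩,
 zbF0, [⟨nat_lit 0, nat_lit 92, nat_lit 90, nat_lit 100, nat_lit 418308399⟩, ⟨nat_lit 16, nat_lit 91, nat_lit 91, nat_lit 100, nat_lit 539569279⟩, ⟨nat_lit 19, nat_lit 93, nat_lit 90, nat_lit 100, nat_lit 586316840⟩]⟩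
noncomputable def p071_l110 : Lf2 := ⟨nat_lit 0, nat_lit 1, [nat_lit 19, nat_lit 5, nat_lit 5, nat_lit 20], false, nat_lit 280, nat_lit 312, nat_lit 240, nat_lit 312, ⟨nat_lit 1000, nat_lit 0, nat_lit 0, nat_lit 0, nat_lit 0, nat_lit 0, nat_lit 0, nat_lit 0, nat_lit 0, nat_lit 0, nat_lit 0, nat_lit 0, nat_lit 0, nat_lit 0, nat_lit 0, nat_lit 0, false, false⟩,
 nat_lit 0, nat_lit 9104, nat_lit 0, nat_lit 0, nat_lit 6563, nat_lit 5007, nat_lit 1166, nat_lit 0, nat_lit 0, nat_lit 0, nat_lit 0, nat_lit 0, nat_lit 0, nat_lit 0, nat_lit 0, nat_lit 0, nat_lit 0, nat_lit 0, [],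
 ⟨p071_k40, nat_lit 0, nat_lit 0, nat_lit 268, nat_lit 0, nat_lit 710184, [nat_lit 3282000000, nat_lit 4688000000], [], [nat_lit 19864557214, nat_lit 20144442654, nat_lit 19992226189, nat_lit 20263327128, nat_lit 21407134775, nat_lit 21733430469, nat_lit 21504451548, nat_lit 21820708030], nat_lit 1271250, nat_lit 1271250, nat_lit 780000, nat_lit 936251, nat_lit 1271250, nat_lit 1271250, [nat_lit 780000, nat_lit 1100000], [nat_lit 40, nat_lit 40, nat_lit 40, nat_lit 80, nat_lit 22, nat_lit 249, nat_lit 40, nat_lit 10]⟩, ⟨p071_k36, nat_lit 0, nat_lit 0, nat_lit 36, nat_lit 0, nat_lit 0, [nat_lit 3282000000, nat_lit 4688000000], [], [nat_lit 18411527434, nat_lit 18564985373, nat_lit 18715398569, nat_lit 18864192923, nat_lit 22747318536, nat_lit 22886444147, nat_lit 22922559708, nat_lit 23045373049], nat_lit 0, nat_lit 0, nat_lit 0, nat_lit 0, nat_lit 0, nat_lit 0, [], [nat_lit 40, nat_lit 40, nat_lit 40, nat_lit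 80, nat_lit 22, nat_lit 249, nat_lit 40, nat_lit 10]⟩,
 zbF0, [⟨nat_lit 0, nat_lit 92, nat_lit 91, nat_lit 100, nat_lit 470566374⟩, ⟨nat_lit 16, nat_lit 91, nat_lit 91, nat_lit 100, nat_lit 541570575⟩, ⟨nat_lit 19, nat_lit 92, nat_lit 91, nat_lit 100, nat_lit 590393558⟩]⟩
noncomputable def p071_l111 : Lf2 := ⟨nat_lit 0, nat_lit 1, [nat_lit 19, nat_lit 5, nat_lit 5, nat_lit 20], false, nat_lit 280, nat_lit 312, nat_lit 240, nat_lit 320, ⟨nat_lit 1000, nat_lit 0, nat_lit 0, nat_lit 0, nat_lit 0, nat_lit 0, nat_lit 0, nat_lit 0, nat_lit 0, nat_lit 0, nat_lit 0, nat_lit 0, nat_lit 0, nat_lit 0, nat_lit 0, nat_lit 0, false, false⟩,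
 nat_lit 0, nat_lit 9028, nat_lit 0, nat_lit 0, nat_lit 6508, nat_lit 4974, nat_lit 1151, nat_lit 0, nat_lit 0, nat_lit 0, nat_lit 0, nat_lit 0, nat_lit 0, nat_lit 0, nat_lit 0, nat_lit 0, nat_lit 0, nat_lit 0, [],
 ⟨p071_k40, nat_lit 0, nat_lit 0, nat_lit 264, nat_lit 0, nat_lit 710184, [nat_lit 3282000000, nat_lit 4688000000], [], [nat_lit 20163582016, nat_lit 20433529536, nat_lit 20293584366, nat_lit 20554805987, nat_lit 21650703981, nat_lit 21898168583, nat_lit 21731216717, nat_lit 21986957829], nat_lit 1271250, nat_lit 1271250, nat_lit 936251, nat_lit 1100001, nat_lit 1271250, nat_lit 1271250, [nat_lit 780000, nat_lit 1100000], [nat_lit 40, nat_lit 40, nat_lit 40, nat_lit 80, nat_lit 22, nat_lit 249, nat_lit 40, nat_lit 9]⟩, ⟨p071_k33, nat_lit 0, nat_lit 0, nat_lit 36, nat_lit 0, nat_lit 0, [nat_lit 3282000000, nat_lit 4688000000], [], [nat_lit 18151716582, nat_lit 18893021145, nat_lit 18475309968, nat_lit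 19193414104, nat_lit 22926689420, nat_lit 23524406776, nat_lit 23103724404, nat_lit 23683665706], nat_lit 0, nat_lit 0, nat_lit 0, nat_lit 0, nat_lit 0, nat_lit 0, [], [nat_lit 40, nat_lit 40, nat_lit 40, nat_lit 80, nat_lit 22, nat_lit 249, nat_lit 40, nat_lit 10]⟩,
 zbF0, [⟨nat_lit 16, nat_lit 91, nat_lit 91, nat_lit 100, nat_lit 528200918⟩, ⟨nat_lit 7, nat_lit 95, nat_lit 95, nat_lit 100, nat_lit 561552020⟩]⟩
noncomputable def p071_l112 : Lf2 := ⟨nat_lit 0, nat_lit 1, [nat_lit 19, nat_lit 5, nat_lit 5, nat_lit 20], false, nat_lit 280, nat_lit 304, nat_lit 240, nat_lit 320, ⟨nat_lit 1000, nat_lit 0, nat_lit 0, nat_lit 0, nat_lit 0, nat_lit 0, nat_lit 0, nat_lit 0, nat_lit 0, nat_lit 0, nat_lit 0, nat_lit 0, nat_lit 0, nat_lit 0, nat_lit 0, nat_lit 0, false, false⟩,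
 nat_lit 0, nat_lit 8875, nat_lit 0, nat_lit 0, nat_lit 6526, nat_lit 4980, nat_lit 960, nat_lit 0, nat_lit 0, nat_lit 0, nat_lit 0, nat_lit 0, nat_lit 0, nat_lit 0, nat_lit 0, nat_lit 0, nat_lit 0, nat_lit 0, [],
 ⟨p071_k41, nat_lit 0, nat_lit 0, nat_lit 276, nat_lit 0, nat_lit 728446, [nat_lit 3282000000, nat_lit 4688000000], [], [nat_lit 20355185378, nat_lit 20619695873, nat_lit 20498320552, nat_lit 20759900476, nat_lit 21449467138, nat_lit 21713959738, nat_lit 21561530141, nat_lit 21822172253], nat_lit 1271250, nat_lit 1271250, nat_lit 719601, nat_lit 1100001, nat_lit 1271250, nat_lit 1271250, [nat_lit 780000, nat_lit 1100000], [nat_lit 40, nat_lit 40, nat_lit 40, nat_lit 80, nat_lit 22, nat_lit 249, nat_lit 40, nat_lit 10]⟩, ⟨p071_k33, nat_lit 0, nat_lit 0, nat_lit 42, nat_lit 0, nat_lit 0, [nat_lit 3282000000, nat_lit 4688000000], [], [nat_lit 17810154496, nat_lit 18583194009, nat_lit 18469389360, nat_lit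 19187957080, nat_lit 22783835584, nat_lit 23468704016, nat_lit 23100421080, nat_lit 23680694620], nat_lit 0, nat_lit 0, nat_lit 0, nat_lit 0, nat_lit 0, nat_lit 0, [], [nat_lit 40, nat_lit 40, nat_lit 40, nat_lit 80, nat_lit 22, nat_lit 249, nat_lit 40, nat_lit 10]⟩,
 zbF0, [⟨nat_lit 0, nat_lit 95, nat_lit 90, nat_lit 100, nat_lit 491360796⟩, ⟨nat_lit 16, nat_lit 89, nat_lit 93, nat_lit 100, nat_lit 445134910⟩, ⟨nat_lit 19, nat_lit 94, nat_lit 88, nat_lit 100, nat_lit 486294771⟩, ⟨nat_lit 11, nat_lit 86, nat_lit 86, nat_lit 100, nat_lit 87584149⟩]⟩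
noncomputable def p071_l113 : Lf2 := ⟨nat_lit 0, nat_lit 1, [nat_lit 19, nat_lit 5, nat_lit 5, nat_lit 20], false, nat_lit 280, nat_lit 312, nat_lit 240, nat_lit 312, ⟨nat_lit 1000, nat_lit 0, nat_lit 0, nat_lit 0, nat_lit 0, nat_lit 0, nat_lit 0, nat_lit 0, nat_lit 0, nat_lit 0, nat_lit 0, nat_lit 0, nat_lit 0, nat_lit 0, nat_lit 0, nat_lit 0, false, false⟩,
 nat_lit 0, nat_lit 9104, nat_lit 0, nat_lit 0, nat_lit 6563, nat_lit 4995, nat_lit 1166, nat_lit 0, nat_lit 0, nat_lit 0, nat_lit 0, nat_lit 0, nat_lit 0, nat_lit 0, nat_lit 0, nat_lit 0, nat_lit 0, nat_lit 0, [],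
 ⟨p071_k40, nat_lit 0, nat_lit 0, nat_lit 266, nat_lit 0, nat_lit 704472, [nat_lit 3282000000, nat_lit 4688000000], [], [nat_lit 19864557214, nat_lit 19976511390, nat_lit 20119895164, nat_lit 20224821739, nat_lit 21407134775, nat_lit 21537568965, nat_lit 21601908466, nat_lit 21724339315], nat_lit 1271250, nat_lit 1271250, nat_lit 780000, nat_lit 1100001, nat_lit 1271250, nat_lit 1271250, [nat_lit 780000, nat_lit 1100000], [nat_lit 40, nat_lit 40, nat_lit 40, nat_lit 80, nat_lit 22, nat_lit 249, nat_lit 40, nat_lit 10]⟩, ⟨p071_k40, nat_lit 0, nat_lit 0, nat_lit 37, nat_lit 0, nat_lit 0, [nat_lit 3282000000, nat_lit 4688000000], [], [nat_lit 18575037305, nat_lit 18728292721, nat_lit 19174314520, nat_lit 19318259857, nat_lit 22878934550, nat_lit 23018313461, nat_lit 23223371667, nat_lit 23342364945], nat_lit 0, nat_lit 0, nat_lit 0, nat_lit 0, nat_lit 0, nat_lit 0, [], [nat_lit 40, nat_lit 40, nat_lit 40, nat_lit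 80, nat_lit 22, nat_lit 249, nat_lit 40, nat_lit 10]⟩,
 zbF0, [⟨nat_lit 0, nat_lit 91, nat_lit 91, nat_lit 100, nat_lit 506717277⟩, ⟨nat_lit 16, nat_lit 91, nat_lit 91, nat_lit 100, nat_lit 541570575⟩, ⟨nat_lit 19, nat_lit 91, nat_lit 91, nat_lit 100, nat_lit 594434732⟩]⟩
noncomputable def p071_l114 : Lf2 := ⟨nat_lit 0, nat_lit 1, [nat_lit 19, nat_lit 5, nat_lit 5, nat_lit 20], false, nat_lit 280, nat_lit 308, nat_lit 240, nat_lit 312, ⟨nat_lit 1000, nat_lit 0, nat_lit 0, nat_lit 0, nat_lit 0, nat_lit 0, nat_lit 0, nat_lit 0, nat_lit 0, nat_lit 0, nat_lit 0, nat_lit 0, nat_lit 0, nat_lit 0, nat_lit 0, nat_lit 0, false, false⟩,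
 nat_lit 0, nat_lit 9052, nat_lit 0, nat_lit 0, nat_lit 6578, nat_lit 4995, nat_lit 1086, nat_lit 0, nat_lit 0, nat_lit 0, nat_lit 0, nat_lit 0, nat_lit 0, nat_lit 0, nat_lit 0, nat_lit 0, nat_lit 0, nat_lit 0, [],
 ⟨p071_k42, nat_lit 0, nat_lit 0, nat_lit 268, nat_lit 0, nat_lit 712579, [nat_lit 3282000000, nat_lit 4688000000], [], [nat_lit 19930815141, nat_lit 19986589776, nat_lit 20177571391, nat_lit 20230094396, nat_lit 21273513210, nat_lit 21338983706, nat_lit 21473713440, nat_lit 21535745755], nat_lit 1271250, nat_lit 1271250, nat_lit 780000, nat_lit 1100001, nat_lit 1271250, nat_lit 1271250, [nat_lit 780000, nat_lit 1100000], [nat_lit 40, nat_lit 40, nat_lit 40, nat_lit 80, nat_lit 22, nat_lit 249, nat_lit 40, nat_lit 9]⟩, ⟨p071_k40, nat_lit 0, nat_lit 0, nat_lit 38, nat_lit 0, nat_lit 0, [nat_lit 3282000000, nat_lit 4688000000], [], [nat_lit 18575037305, nat_lit 18804920428, nat_lit 19174314520, nat_lit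 19390232524, nat_lit 22878934550, nat_lit 23088074787, nat_lit 23223371667, nat_lit 23401861584], nat_lit 0, nat_lit 0, nat_lit 0, nat_lit 0, nat_lit 0, nat_lit 0, [], [nat_lit 40, nat_lit 40, nat_lit 40, nat_lit 80, nat_lit 22, nat_lit 249, nat_lit 40, nat_lit 10]⟩,
 zbF0, [⟨nat_lit 0, nat_lit 90, nat_lit 90, nat_lit 100, nat_lit 564068352⟩, ⟨nat_lit 16, nat_lit 90, nat_lit 92, nat_lit 100, nat_lit 536010839⟩, ⟨nat_lit 19, nat_lit 91, nat_lit 91, nat_lit 100, nat_lit 574986836⟩]⟩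
noncomputable def p071_l115 : Lf2 := ⟨nat_lit 0, nat_lit 1, [nat_lit 19, nat_lit 5, nat_lit 5, nat_lit 20], false, nat_lit 280, nat_lit 308, nat_lit 240, nat_lit 312, ⟨nat_lit 1000, nat_lit 0, nat_lit 0, nat_lit 0, nat_lit 0, nat_lit 0, nat_lit 0, nat_lit 0, nat_lit 0, nat_lit 0, nat_lit 0, nat_lit 0, nat_lit 0, nat_lit 0, nat_lit 0, nat_lit 0, false, false⟩,
 nat_lit 0, nat_lit 9001, nat_lit 0, nat_lit 0, nat_lit 6567, nat_lit 4999, nat_lit 1049, nat_lit 0, nat_lit 0, nat_lit 0, nat_lit 0, nat_lit 0, nat_lit 0, nat_lit 0, nat_lit 0, nat_lit 0, nat_lit 0, nat_lit 0, [],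
 ⟨p071_k43, nat_lit 0, nat_lit 0, nat_lit 276, nat_lit 0, nat_lit 740244, [nat_lit 3282000000, nat_lit 4688000000], [], [nat_lit 20044694028, nat_lit 20155980362, nat_lit 20264700858, nat_lit 20369659282, nat_lit 21373887021, nat_lit 21505144027, nat_lit 21551839744, nat_lit 21675793919], nat_lit 1271250, nat_lit 1271250, nat_lit 810650, nat_lit 1100001, nat_lit 1271250, nat_lit 1271250, [nat_lit 780000, nat_lit 1100000], [nat_lit 40, nat_lit 40, nat_lit 40, nat_lit 80, nat_lit 22, nat_lit 249, nat_lit 40, nat_lit 9]⟩, ⟨p071_k40, nat_lit 0, nat_lit 0, nat_lit 38, nat_lit 0, nat_lit 0, [nat_lit 3282000000, nat_lit 4688000000], [], [nat_lit 18631585646, nat_lit 19012564009, nat_lit 19170676504, nat_lit 19530694372, nat_lit 22911627389, nat_lit 23257586153, nat_lit 23221225214, nat_lit 23518823533], nat_lit 0, nat_lit 0, nat_lit 0, nat_lit 0, nat_lit 0, nat_lit 0, [], [nat_lit 40, nat_lit 40, nat_lit 40, nat_lit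 80, nat_lit 22, nat_lit 249, nat_lit 40, nat_lit 10]⟩,
 zbF0, [⟨nat_lit 0, nat_lit 90, nat_lit 89, nat_lit 100, nat_lit 521287402⟩, ⟨nat_lit 16, nat_lit 90, nat_lit 93, nat_lit 100, nat_lit 542424727⟩, ⟨nat_lit 19, nat_lit 91, nat_lit 91, nat_lit 100, nat_lit 592638429⟩]⟩
noncomputable def p071_l116 : Lf2 := ⟨nat_lit 0, nat_lit 1, [nat_lit 19, nat_lit 5, nat_lit 5, nat_lit 20], false, nat_lit 280, nat_lit 304, nat_lit 240, nat_lit 312, ⟨nat_lit 1000, nat_lit 0, nat_lit 0, nat_lit 0, nat_lit 0, nat_lit 0, nat_lit 0, nat_lit 0, nat_lit 0, nat_lit 0, nat_lit 0, nat_lit 0, nat_lit 0, nat_lit 0, nat_lit 0, nat_lit 0, false, false⟩,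
 nat_lit 0, nat_lit 9240, nat_lit 0, nat_lit 0, nat_lit 6794, nat_lit 4999, nat_lit 951, nat_lit 0, nat_lit 0, nat_lit 0, nat_lit 0, nat_lit 0, nat_lit 0, nat_lit 0, nat_lit 0, nat_lit 0, nat_lit 0, nat_lit 0, [],
 ⟨p071_k41, nat_lit 0, nat_lit 0, nat_lit 299, nat_lit 0, nat_lit 811161, [nat_lit 3282000000, nat_lit 4688000000], [], [nat_lit 19943027706, nat_lit 20191824072, nat_lit 20093953902, nat_lit 20328476472, nat_lit 20953612018, nat_lit 21290241289, nat_lit 21115601590, nat_lit 21435001444], nat_lit 1271250, nat_lit 1271250, nat_lit 810650, nat_lit 1100001, nat_lit 1271250, nat_lit 1271250, [nat_lit 780000, nat_lit 1100000], [nat_lit 40, nat_lit 40, nat_lit 40, nat_lit 80, nat_lit 22, nat_lit 249, nat_lit 40, nat_lit 9]⟩, ⟨p071_k40, nat_lit 0, nat_lit 0, nat_lit 39, nat_lit 0, nat_lit 0, [nat_lit 3282000000, nat_lit 4688000000], [], [nat_lit 18631585646, nat_lit 19393542373, nat_lit 19170676504, nat_lit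 19890712240, nat_lit 22911627389, nat_lit 23604516737, nat_lit 23221225214, nat_lit 23831974125], nat_lit 0, nat_lit 0, nat_lit 0, nat_lit 0, nat_lit 0, nat_lit 0, [], [nat_lit 40, nat_lit 40, nat_lit 40, nat_lit 80, nat_lit 22, nat_lit 249, nat_lit 40, nat_lit 10]⟩,
 zbF0, [⟨nat_lit 0, nat_lit 90, nat_lit 88, nat_lit 100, nat_lit 575552263⟩, ⟨nat_lit 16, nat_lit 89, nat_lit 93, nat_lit 100, nat_lit 517303922⟩, ⟨nat_lit 19, nat_lit 91, nat_lit 91, nat_lit 100, nat_lit 575122836⟩]⟩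
noncomputable def p071_l117 : Lf2 := ⟨nat_lit 0, nat_lit 2, [nat_lit 10, nat_lit 5, nat_lit 5, nat_lit 20], false, nat_lit 240, nat_lit 312, nat_lit 160, nat_lit 320, ⟨nat_lit 1000, nat_lit 0, nat_lit 0, nat_lit 0, nat_lit 0, nat_lit 0, nat_lit 0, nat_lit 0, nat_lit 0, nat_lit 0, nat_lit 0, nat_lit 0, nat_lit 0, nat_lit 0, nat_lit 0, nat_lit 0, false, false⟩,
 nat_lit 0, nat_lit 9342, nat_lit 0, nat_lit 0, nat_lit 6734, nat_lit 4966, nat_lit 1087, nat_lit 0, nat_lit 0, nat_lit 0, nat_lit 0, nat_lit 0, nat_lit 0, nat_lit 0, nat_lit 0, nat_lit 0, nat_lit 0, nat_lit 0, [],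
 ⟨p071_k20, nat_lit 0, nat_lit 0, nat_lit 290, nat_lit 0, nat_lit 763385, [nat_lit 3282000000, nat_lit 4688000000], [], [nat_lit 18396503863, nat_lit 18920543152, nat_lit 18589463878, nat_lit 19072073992, nat_lit 21366049096, nat_lit 21973845949, nat_lit 21372703228, nat_lit 21972743478], nat_lit 1271250, nat_lit 1271250, nat_lit 689850, nat_lit 1100001, nat_lit 1271250, nat_lit 1271250, [nat_lit 780000, nat_lit 1100000], [nat_lit 40, nat_lit 40, nat_lit 40, nat_lit 80, nat_lit 22, nat_lit 249, nat_lit 40, nat_lit 10]⟩, ⟨p071_k13, nat_lit 0, nat_lit 0, nat_lit 46, nat_lit 0, nat_lit 0, [nat_lit 3282000000, nat_lit 4688000000], [], [nat_lit 14350156554, nat_lit 16182163461, nat_lit 15283291348, nat_lit 16973549888, nat_lit 22807591758, nat_lit 24182532237, nat_lit 23108128836, nat_lit 24291473128], nat_lit 0, nat_lit 0, nat_lit 0, nat_lit 0, nat_lit 0, nat_lit 0, [], [nat_lit 40, nat_lit 40, nat_lit 40, nat_lit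 80, nat_lit 22, nat_lit 249, nat_lit 40, nat_lit 10]⟩,
 zbF0, [⟨nat_lit 0, nat_lit 90, nat_lit 88, nat_lit 100, nat_lit 620867237⟩, ⟨nat_lit 16, nat_lit 91, nat_lit 91, nat_lit 100, nat_lit 470362955⟩, ⟨nat_lit 19, nat_lit 94, nat_lit 88, nat_lit 100, nat_lit 470998991⟩, ⟨nat_lit 11, nat_lit 86, nat_lit 86, nat_lit 100, nat_lit 13818051⟩]⟩
noncomputable def p071_l118 : Lf2 := ⟨nat_lit 0, nat_lit 5, [nat_lit 4, nat_lit 5, nat_lit 5, nat_lit 20], false, nat_lit 160, nat_lit 312, nat_lit 160, nat_lit 320, ⟨nat_lit 1000, nat_lit 0, nat_lit 0, nat_lit 0, nat_lit 0, nat_lit 0, nat_lit 0, nat_lit 0, nat_lit 0, nat_lit 0, nat_lit 0, nat_lit 0, nat_lit 0, nat_lit 0, nat_lit 0, nat_lit 0, false, false⟩,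
 nat_lit 0, nat_lit 8958, nat_lit 0, nat_lit 0, nat_lit 6457, nat_lit 4943, nat_lit 1660, nat_lit 0, nat_lit 0, nat_lit 0, nat_lit 0, nat_lit 0, nat_lit 0, nat_lit 2044772235350, nat_lit 0, nat_lit 0, nat_lit 0, nat_lit 0, [],
 ⟨p071_k19, nat_lit 0, nat_lit 0, nat_lit 322, nat_lit 0, nat_lit 714495, [nat_lit 3282000000, nat_lit 4688000000, nat_lit 6250000000], [], [nat_lit 15685956893, nat_lit 16419660555, nat_lit 16300118986, nat_lit 16975411388, nat_lit 21803864507, nat_lit 22321173365, nat_lit 23844267976, nat_lit 22378472800], nat_lit 1271250, nat_lit 1271250, nat_lit 689850, nat_lit 1100001, nat_lit 1100001, nat_lit 2401500, [nat_lit 780000, nat_lit 1100000, nat_lit 1442500], [nat_lit 59, nat_lit 40, nat_lit 40, nat_lit 80, nat_lit 3, nat_lit 345, nat_lit 125, nat_lit 12]⟩, ⟨p071_k10, nat_lit 0, nat_lit 0, nat_lit 56, nat_lit 0, nat_lit 0, [nat_lit 3282000000, nat_lit 4688000000, nat_lit 6250000000], [],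 [nat_lit 14375394017, nat_lit 16202417979, nat_lit 15310291554, nat_lit 16996072224, nat_lit 22816365011, nat_lit 24163386927, nat_lit 23120791578, nat_lit 24277241056], nat_lit 0, nat_lit 0, nat_lit 0, nat_lit 0, nat_lit 0, nat_lit 0, [], [nat_lit 59, nat_lit 40, nat_lit 40, nat_lit 80, nat_lit 3, nat_lit 345, nat_lit 125, nat_lit 12]⟩,
 zbF0, [⟨nat_lit 0, nat_lit 90, nat_lit 88, nat_lit 100, nat_lit 421503032⟩, ⟨nat_lit 16, nat_lit 91, nat_lit 91, nat_lit 100, nat_lit 457897419⟩, ⟨nat_lit 7, nat_lit 97, nat_lit 94, nat_lit 100, nat_lit 480891521⟩]⟩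
noncomputable def p071_l119 : Lf2 := ⟨nat_lit 0, nat_lit 10, [nat_lit 0, nat_lit 5, nat_lit 5, nat_lit 20], false, nat_lit 160, nat_lit 312, nat_lit 160, nat_lit 320, ⟨nat_lit 1000, nat_lit 0, nat_lit 0, nat_lit 0, nat_lit 0, nat_lit 0, nat_lit 0, nat_lit 0, nat_lit 0, nat_lit 0, nat_lit 0, nat_lit 0, nat_lit 0, nat_lit 0, nat_lit 0, nat_lit 0, false, false⟩,
 nat_lit 0, nat_lit 8891, nat_lit 0, nat_lit 0, nat_lit 6409, nat_lit 4943, nat_lit 1578, nat_lit 0, nat_lit 0, nat_lit 0, nat_lit 0, nat_lit 0, nat_lit 0, nat_lit 4161692006996, nat_lit 0, nat_lit 0, nat_lit 0, nat_lit 0, [],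
 ⟨p071_k27, nat_lit 0, nat_lit 0, nat_lit 367, nat_lit 0, nat_lit 689864, [nat_lit 3282000000, nat_lit 4688000000, nat_lit 7968000000], [], [nat_lit 16169696614, nat_lit 16751457333, nat_lit 16466233111, nat_lit 17133375356, nat_lit 21943900885, nat_lit 22459327951, nat_lit 24056666359, nat_lit 22601767600], nat_lit 1271250, nat_lit 1271250, nat_lit 689850, nat_lit 1100001, nat_lit 1100001, nat_lit 2401500, [nat_lit 780000, nat_lit 1100000, nat_lit 1785000], [nat_lit 36, nat_lit 40, nat_lit 40, nat_lit 80, nat_lit 7, nat_lit 345, nat_lit 125, nat_lit 11]⟩, ⟨p071_k26, nat_lit 0, nat_lit 0, nat_lit 56, nat_lit 0, nat_lit 0, [nat_lit 3282000000, nat_lit 4688000000, nat_lit 7968000000], [], [nat_lit 14375394017, nat_lit 16202417979, nat_lit 15310291554, nat_lit 16996072224, nat_lit 22816365011, nat_lit 24163386927, nat_lit 23120791578, nat_lit 24277241056], nat_lit 0, nat_lit 0, nat_lit 0, nat_lit 0, nat_lit 0, nat_lit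 0, [], [nat_lit 36, nat_lit 40, nat_lit 40, nat_lit 80, nat_lit 7, nat_lit 345, nat_lit 125, nat_lit 11]⟩,
 zbF0, [⟨nat_lit 0, nat_lit 90, nat_lit 88, nat_lit 100, nat_lit 429142961⟩, ⟨nat_lit 16, nat_lit 91, nat_lit 91, nat_lit 100, nat_lit 450875355⟩, ⟨nat_lit 19, nat_lit 94, nat_lit 88, nat_lit 100, nat_lit 480891521⟩]⟩
noncomputable def b_V_700_700_20_30 : St := ⟨true, nat_lit 1, nat_lit 0, nat_lit 1, nat_lit 120, nat_lit 310, nat_lit 320, nat_lit 300, nat_lit 320, nat_lit 100, nat_lit 160, nat_lit 80, nat_lit 120, nat_lit 160, nat_lit 320, nat_lit 160, nat_lit 320, nat_lit 0, nat_lit 40, nat_lit 0, nat_lit 0, nat_lit 0, nat_lit 0⟩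
theorem d_V_700_700_20_30 (h : EB TB.env) : Dead b_V_700_700_20_30 := chkB_sound0 h (T :=
(.trZ (nat_lit 0) (nat_lit 97) (nat_lit 93) (nat_lit 100) (nat_lit 108) (.trX (nat_lit 16) (nat_lit 91) (nat_lit 91) (nat_lit 100) (nat_lit 312) (.spl (nat_lit 7) (nat_lit 600)
(.leaf p071_l100)
(.spl (nat_lit 6) (nat_lit 20)
(.spl (nat_lit 3) (nat_lit 100)
(.trX (nat_lit 16) (nat_lit 93) (nat_lit 100) (nat_lit 97) (nat_lit 292) (.trX (nat_lit 19) (nat_lit 100) (nat_lit 100) (nat_lit 100) (nat_lit 300) (.leaf p071_l101)))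
(.spl (nat_lit 6) (nat_lit 8)
(.spl (nat_lit 4) (nat_lit 240)
(.leaf p071_l102)
(.spl (nat_lit 6) (nat_lit 4)
(.spl (nat_lit 5) (nat_lit 240)
(.leaf p071_l103)
(.spl (nat_lit 4) (nat_lit 280)
(.leaf p071_l104)
(.spl (nat_lit 1) (nat_lit 310)
(.spl (nat_lit 0) (nat_lit 315)
(.spl (nat_lit 2) (nat_lit 140)
(.spl (nat_lit 2) (nat_lit 120)
(.spl (nat_lit 1) (nat_lit 305)
(.leaf p071_l105)
(.trZ (nat_lit 0) (nat_lit 94) (nat_lit 92) (nat_lit 100) (nat_lit 112) (.trX (nat_lit 19) (nat_lit 93) (nat_lit 90) (nat_lit 100) (nat_lit 316) (.spl (nat_lit 1) (nat_lit 308)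
(.leaf p071_l106)
(.trZ (nat_lit 0) (nat_lit 92) (nat_lit 91) (nat_lit 100) (nat_lit 116) (.trX (nat_lit 19) (nat_lit 92) (nat_lit 91) (nat_lit 100) (nat_lit 312) (.leaf p071_l107)))))))
(.spl (nat_lit 1) (nat_lit 305)
(.leaf p071_l108)
(.trX (nat_lit 19) (nat_lit 93) (nat_lit 90) (nat_lit 100) (nat_lit 316) (.spl (nat_lit 1) (nat_lit 308)
(.leaf p071_l109)
(.trX (nat_lit 19) (nat_lit 92) (nat_lit 91) (nat_lit 100) (nat_lit 312) (.leaf p071_l110))))))
(.leaf p071_l111))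
(.trZ (nat_lit 0) (nat_lit 95) (nat_lit 90) (nat_lit 100) (nat_lit 112) (.trX (nat_lit 16) (nat_lit 89) (nat_lit 93) (nat_lit 100) (nat_lit 304) (.leaf p071_l112))))
(.trZ (nat_lit 0) (nat_lit 91) (nat_lit 91) (nat_lit 100) (nat_lit 120) (.trX (nat_lit 19) (nat_lit 91) (nat_lit 91) (nat_lit 100) (nat_lit 312) (.spl (nat_lit 0) (nat_lit 315)
(.ord (.spl (nat_lit 0) (nat_lit 313)
(.ord (.spl (nat_lit 0) (nat_lit 312)
(.ord (.leaf p071_l113))
(.trX (nat_lit 16) (nat_lit 90) (nat_lit 92) (nat_lit 100) (nat_lit 308) (.leaf p071_l114))))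
(.trZ (nat_lit 0) (nat_lit 90) (nat_lit 89) (nat_lit 100) (nat_lit 124) (.trX (nat_lit 16) (nat_lit 90) (nat_lit 93) (nat_lit 100) (nat_lit 308) (.leaf p071_l115)))))
(.trZ (nat_lit 0) (nat_lit 90) (nat_lit 88) (nat_lit 100) (nat_lit 124) (.trX (nat_lit 16) (nat_lit 89) (nat_lit 93) (nat_lit 100) (nat_lit 304) (.leaf p071_l116)))))))))
(.leaf p071_l117)))
(.leaf p071_l118)))
(.leaf p071_l119)))))) (by decide +kernel)
noncomputable def p071_l120 : Lf2 := ⟨nat_lit 0, nat_lit 10, [nat_lit 0, nat_lit 5, nat_lit 5, nat_lit 20], false, nat_lit 0, nat_lit 160, nat_lit 160, nat_lit 320, ⟨nat_lit 1000, nat_lit 0, nat_lit 0, nat_lit 0, nat_lit 0, nat_lit 0, nat_lit 0, nat_lit 0, nat_lit 0, nat_lit 0, nat_lit 0, nat_lit 0, nat_lit 0, nat_lit 0, nat_lit 0, nat_lit 0, false, false⟩,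
 nat_lit 0, nat_lit 10216, nat_lit 0, nat_lit 0, nat_lit 7072, nat_lit 4999, nat_lit 3606, nat_lit 0, nat_lit 0, nat_lit 0, nat_lit 0, nat_lit 0, nat_lit 0, nat_lit 0, nat_lit 0, nat_lit 0, nat_lit 0, nat_lit 0, [],
 ⟨p071_k28, nat_lit 0, nat_lit 0, nat_lit 538, nat_lit 0, nat_lit 888935, [nat_lit 3282000000, nat_lit 6250000000, nat_lit 7968000000], [], [nat_lit 22284527442, nat_lit 20741440128, nat_lit 23655206704, nat_lit 24825246632, nat_lit 15514788800, nat_lit 16057394832, nat_lit 22115996224, nat_lit 20514867136], nat_lit 1271250, nat_lit 1271250, nat_lit 1100001, nat_lit 1785000, nat_lit 0, nat_lit 1100001, [nat_lit 780000, nat_lit 1435000, nat_lit 1271250], [nat_lit 18, nat_lit 40, nat_lit 40, nat_lit 80, nat_lit 2, nat_lit 317, nat_lit 100, nat_lit 10]⟩, ⟨p071_k28, nat_lit 0, nat_lit 0, nat_lit 46, nat_lit 0, nat_lit 0, [nat_lit 3282000000, nat_lit 6250000000, nat_lit 7968000000], [], [nat_lit 15244551922,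 nat_lit 16092893577, nat_lit 18450640768, nat_lit 19170676504, nat_lit 23089960554, nat_lit 23671286181, nat_lit 25081236192, nat_lit 25629408952], nat_lit 0, nat_lit 0, nat_lit 0, nat_lit 0, nat_lit 0, nat_lit 0, [], [nat_lit 18, nat_lit 40, nat_lit 40, nat_lit 80, nat_lit 2, nat_lit 373, nat_lit 150, nat_lit 11]⟩,
 zbF0, [⟨nat_lit 7, nat_lit 100, nat_lit 97, nat_lit 98, nat_lit 485309944⟩]⟩
noncomputable def p071_l121 : Lf2 := ⟨nat_lit 0, nat_lit 10, [nat_lit 0, nat_lit 5, nat_lit 5, nat_lit 20], false, nat_lit 160, nat_lit 320, nat_lit 160, nat_lit 320, ⟨nat_lit 1000, nat_lit 0, nat_lit 0, nat_lit 0, nat_lit 0, nat_lit 0, nat_lit 0, nat_lit 0, nat_lit 0, nat_lit 0, nat_lit 0, nat_lit 0, nat_lit 0, nat_lit 0, nat_lit 0, nat_lit 0, false, false⟩,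
 nat_lit 0, nat_lit 8741, nat_lit 0, nat_lit 0, nat_lit 6051, nat_lit 4999, nat_lit 2456, nat_lit 0, nat_lit 0, nat_lit 0, nat_lit 0, nat_lit 0, nat_lit 0, nat_lit 0, nat_lit 0, nat_lit 0, nat_lit 0, nat_lit 0, [],
 ⟨p071_k28, nat_lit 0, nat_lit 0, nat_lit 431, nat_lit 0, nat_lit 888935, [nat_lit 3282000000, nat_lit 6250000000, nat_lit 7968000000], [], [nat_lit 18575024326, nat_lit 19146582839, nat_lit 20698467086, nat_lit 21187407373, nat_lit 23860069450, nat_lit 24260835283, nat_lit 29587896288, nat_lit 28217925684], nat_lit 1271250, nat_lit 1271250, nat_lit 1100001, nat_lit 1785000, nat_lit 1100001, nat_lit 2470000, [nat_lit 780000, nat_lit 1435000, nat_lit 1271250], [nat_lit 18, nat_lit 40, nat_lit 40, nat_lit 80, nat_lit 2, nat_lit 373, nat_lit 150, nat_lit 11]⟩, ⟨p071_k28, nat_lit 0, nat_lit 0, nat_lit 46, nat_lit 0, nat_lit 0, [nat_lit 3282000000, nat_lit 6250000000, nat_lit 7968000000], [], [nat_lit 15244551922,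 nat_lit 16092893577, nat_lit 18450640768, nat_lit 19170676504, nat_lit 23089960554, nat_lit 23671286181, nat_lit 25081236192, nat_lit 25629408952], nat_lit 0, nat_lit 0, nat_lit 0, nat_lit 0, nat_lit 0, nat_lit 0, [], [nat_lit 18, nat_lit 40, nat_lit 40, nat_lit 80, nat_lit 2, nat_lit 373, nat_lit 150, nat_lit 11]⟩,
 zbF0, [⟨nat_lit 16, nat_lit 94, nat_lit 88, nat_lit 100, nat_lit 408854500⟩, ⟨nat_lit 19, nat_lit 94, nat_lit 88, nat_lit 100, nat_lit 490782588⟩]⟩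
noncomputable def p071_l122 : Lf2 := ⟨nat_lit 0, nat_lit 10, [nat_lit 0, nat_lit 5, nat_lit 5, nat_lit 20], false, nat_lit 0, nat_lit 160, nat_lit 160, nat_lit 320, ⟨nat_lit 1000, nat_lit 0, nat_lit 0, nat_lit 0, nat_lit 0, nat_lit 0, nat_lit 0, nat_lit 0, nat_lit 0, nat_lit 0, nat_lit 0, nat_lit 0, nat_lit 0, nat_lit 0, nat_lit 0, nat_lit 0, false, false⟩,
 nat_lit 0, nat_lit 9842, nat_lit 0, nat_lit 0, nat_lit 7095, nat_lit 4943, nat_lit 1450, nat_lit 0, nat_lit 0, nat_lit 0, nat_lit 0, nat_lit 0, nat_lit 0, nat_lit 0, nat_lit 0, nat_lit 0, nat_lit 0, nat_lit 0, [],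
 ⟨p071_k44, nat_lit 0, nat_lit 0, nat_lit 603, nat_lit 0, nat_lit 1015668, [nat_lit 3282000000, nat_lit 7968000000], [], [nat_lit 20767849280, nat_lit 22178379160, nat_lit 24856687195, nat_lit 26029245600, nat_lit 17115091965, nat_lit 17492059060, nat_lit 22239865860, nat_lit 20633529480], nat_lit 1271250, nat_lit 1271250, nat_lit 1100001, nat_lit 1785000, nat_lit 0, nat_lit 1100001, [nat_lit 780000, nat_lit 1762500], [nat_lit 74, nat_lit 40, nat_lit 40, nat_lit 80, nat_lit 43, nat_lit 317, nat_lit 100, nat_lit 10]⟩, ⟨p071_k45, nat_lit 0, nat_lit 0, nat_lit 36, nat_lit 0, nat_lit 0, [nat_lit 3282000000, nat_lit 7968000000], [], [nat_lit 15310291554, nat_lit 16996072224, nat_lit 18505899776, nat_lit 19937317680, nat_lit 23120791578, nat_lit 24277241056, nat_lit 25063201090, nat_lit 26144301584], nat_lit 0, nat_lit 0, nat_lit 0, nat_lit 0, nat_lit 0, nat_lit 0, [], [nat_lit 74, nat_lit 40, nat_lit 40, nat_lit 80,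 nat_lit 43, nat_lit 373, nat_lit 150, nat_lit 11]⟩,
 zbF0, [⟨nat_lit 7, nat_lit 100, nat_lit 93, nat_lit 97, nat_lit 501095255⟩]⟩
noncomputable def p071_l123 : Lf2 := ⟨nat_lit 0, nat_lit 10, [nat_lit 0, nat_lit 5, nat_lit 5, nat_lit 20], false, nat_lit 160, nat_lit 292, nat_lit 160, nat_lit 300, ⟨nat_lit 1000, nat_lit 0, nat_lit 0, nat_lit 0, nat_lit 0, nat_lit 0, nat_lit 0, nat_lit 0, nat_lit 0, nat_lit 0, nat_lit 0, nat_lit 0, nat_lit 0, nat_lit 0, nat_lit 0, nat_lit 0, false, false⟩,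
 nat_lit 0, nat_lit 8826, nat_lit 0, nat_lit 0, nat_lit 6362, nat_lit 5046, nat_lit 1543, nat_lit 0, nat_lit 0, nat_lit 0, nat_lit 0, nat_lit 0, nat_lit 0, nat_lit 17233338927723, nat_lit 0, nat_lit 0, nat_lit 0, nat_lit 0, [],
 ⟨p071_k44, nat_lit 0, nat_lit 0, nat_lit 486, nat_lit 0, nat_lit 987840, [nat_lit 3282000000, nat_lit 7968000000], [], [nat_lit 19424350948, nat_lit 19837947344, nat_lit 21094789924, nat_lit 21534250120, nat_lit 22881343203, nat_lit 23269179228, nat_lit 28648687514, nat_lit 27213674158], nat_lit 1271250, nat_lit 1271250, nat_lit 1100001, nat_lit 1785000, nat_lit 1100001, nat_lit 2230250, [nat_lit 780000, nat_lit 1762500], [nat_lit 74, nat_lit 40, nat_lit 40, nat_lit 80, nat_lit 43, nat_lit 373, nat_lit 150, nat_lit 11]⟩, ⟨p071_k45, nat_lit 0, nat_lit 0, nat_lit 30, nat_lit 0, nat_lit 0, [nat_lit 3282000000, nat_lit 7968000000], [], [nat_lit 15189377588, nat_lit 16895211328, nat_lit 18404262672,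 nat_lit 19851596960, nat_lit 21899129055, nat_lit 23136854864, nat_lit 24014867102, nat_lit 25181306750], nat_lit 0, nat_lit 0, nat_lit 0, nat_lit 0, nat_lit 0, nat_lit 0, [], [nat_lit 74, nat_lit 40, nat_lit 40, nat_lit 80, nat_lit 43, nat_lit 373, nat_lit 150, nat_lit 11]⟩,
 zbF0, [⟨nat_lit 4, nat_lit 100, nat_lit 88, nat_lit 90, nat_lit 438949614⟩, ⟨nat_lit 7, nat_lit 100, nat_lit 91, nat_lit 91, nat_lit 534422828⟩]⟩
noncomputable def p071_l124 : Lf2 := ⟨nat_lit 0, nat_lit 10, [nat_lit 0, nat_lit 5, nat_lit 5, nat_lit 20], false, nat_lit 160, nat_lit 312, nat_lit 160, nat_lit 320, ⟨nat_lit 1000, nat_lit 0, nat_lit 0, nat_lit 0, nat_lit 0, nat_lit 0, nat_lit 0, nat_lit 0, nat_lit 0, nat_lit 0, nat_lit 0, nat_lit 0, nat_lit 0, nat_lit 0, nat_lit 0, nat_lit 0, false, false⟩,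
 nat_lit 0, nat_lit 8420, nat_lit 0, nat_lit 0, nat_lit 6070, nat_lit 4971, nat_lit 2751, nat_lit 0, nat_lit 0, nat_lit 0, nat_lit 0, nat_lit 0, nat_lit 0, nat_lit 15264232137660, nat_lit 0, nat_lit 0, nat_lit 0, nat_lit 0, [],
 ⟨p071_k27, nat_lit 0, nat_lit 0, nat_lit 387, nat_lit 0, nat_lit 791968, [nat_lit 3282000000, nat_lit 4688000000, nat_lit 7968000000], [], [nat_lit 19070742230, nat_lit 19356990435, nat_lit 21112323610, nat_lit 21357158905, nat_lit 23881698940, nat_lit 24086755235, nat_lit 25753012697, nat_lit 26061255747], nat_lit 1271250, nat_lit 1271250, nat_lit 1100001, nat_lit 1785000, nat_lit 1100001, nat_lit 2401500, [nat_lit 780000, nat_lit 1100000, nat_lit 1785000], [nat_lit 36, nat_lit 40, nat_lit 40, nat_lit 80, nat_lit 7, nat_lit 373, nat_lit 150, nat_lit 11]⟩, ⟨p071_k26, nat_lit 0, nat_lit 0, nat_lit 41, nat_lit 0, nat_lit 0, [nat_lit 3282000000, nat_lit 4688000000, nat_lit 7968000000], [],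 [nat_lit 15277421738, nat_lit 16545845731, nat_lit 18478270272, nat_lit 19555078788, nat_lit 23105376066, nat_lit 23975038841, nat_lit 25067353568, nat_lit 25887544628], nat_lit 0, nat_lit 0, nat_lit 0, nat_lit 0, nat_lit 0, nat_lit 0, [], [nat_lit 36, nat_lit 40, nat_lit 40, nat_lit 80, nat_lit 7, nat_lit 373, nat_lit 150, nat_lit 11]⟩,
 zbF0, [⟨nat_lit 16, nat_lit 91, nat_lit 91, nat_lit 100, nat_lit 415532273⟩, ⟨nat_lit 7, nat_lit 96, nat_lit 94, nat_lit 100, nat_lit 485815320⟩]⟩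
noncomputable def p071_l125 : Lf2 := ⟨nat_lit 0, nat_lit 10, [nat_lit 0, nat_lit 5, nat_lit 5, nat_lit 20], false, nat_lit 160, nat_lit 304, nat_lit 160, nat_lit 320, ⟨nat_lit 1000, nat_lit 0, nat_lit 0, nat_lit 0, nat_lit 0, nat_lit 0, nat_lit 0, nat_lit 0, nat_lit 0, nat_lit 0, nat_lit 0, nat_lit 0, nat_lit 0, nat_lit 0, nat_lit 0, nat_lit 0, false, false⟩,
 nat_lit 0, nat_lit 8276, nat_lit 0, nat_lit 0, nat_lit 6086, nat_lit 4943, nat_lit 1567, nat_lit 0, nat_lit 0, nat_lit 0, nat_lit 0, nat_lit 0, nat_lit 0, nat_lit 14246094355071, nat_lit 0, nat_lit 0, nat_lit 0, nat_lit 0, [],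
 ⟨p071_k46, nat_lit 0, nat_lit 0, nat_lit 410, nat_lit 0, nat_lit 853058, [nat_lit 3282000000, nat_lit 4688000000, nat_lit 7968000000], [], [nat_lit 19369722840, nat_lit 19580162672, nat_lit 21294237969, nat_lit 21539380760, nat_lit 23722933440, nat_lit 23932641893, nat_lit 25616892804, nat_lit 25933351954], nat_lit 1271250, nat_lit 1271250, nat_lit 1100001, nat_lit 1785000, nat_lit 1100001, nat_lit 2333000, [nat_lit 780000, nat_lit 1100000, nat_lit 1785000], [nat_lit 36, nat_lit 40, nat_lit 40, nat_lit 80, nat_lit 7, nat_lit 373, nat_lit 150, nat_lit 11]⟩, ⟨p071_k26, nat_lit 0, nat_lit 0, nat_lit 43, nat_lit 0, nat_lit 0, [nat_lit 3282000000, nat_lit 4688000000, nat_lit 7968000000], [], [nat_lit 15310291554, nat_lit 16996072224, nat_lit 18505899776, nat_lit 19937317680, nat_lit 23120791578, nat_lit 24277241056, nat_lit 25063201090, nat_lit 26144301584], nat_lit 0, nat_lit 0, nat_lit 0, nat_lit 0, nat_lit 0, nat_lit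 0, [], [nat_lit 36, nat_lit 40, nat_lit 40, nat_lit 80, nat_lit 7, nat_lit 373, nat_lit 150, nat_lit 11]⟩,
 zbF0, [⟨nat_lit 16, nat_lit 89, nat_lit 93, nat_lit 100, nat_lit 417674026⟩, ⟨nat_lit 7, nat_lit 97, nat_lit 94, nat_lit 100, nat_lit 480891521⟩]⟩
noncomputable def b_V_700_700_20_31 : St := ⟨true, nat_lit 1, nat_lit 0, nat_lit 1, nat_lit 120, nat_lit 300, nat_lit 320, nat_lit 300, nat_lit 320, nat_lit 160, nat_lit 240, nat_lit 80, nat_lit 120, nat_lit 0, nat_lit 320, nat_lit 160, nat_lit 320, nat_lit 0, nat_lit 40, nat_lit 0, nat_lit 0, nat_lit 0, nat_lit 0⟩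
theorem d_V_700_700_20_31 (h : EB TB.env) : Dead b_V_700_700_20_31 := chkB_sound0 h (T :=
(.spl (nat_lit 0) (nat_lit 310)
(.ord (.spl (nat_lit 4) (nat_lit 160)
(.leaf p071_l120)
(.leaf p071_l121)))
(.trX (nat_lit 16) (nat_lit 91) (nat_lit 91) (nat_lit 100) (nat_lit 312) (.spl (nat_lit 4) (nat_lit 160)
(.leaf p071_l122)
(.spl (nat_lit 3) (nat_lit 100)
(.trX (nat_lit 16) (nat_lit 93) (nat_lit 100) (nat_lit 97) (nat_lit 292) (.trX (nat_lit 19) (nat_lit 100) (nat_lit 100) (nat_lit 100) (nat_lit 300) (.leaf p071_l123)))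
(.spl (nat_lit 0) (nat_lit 315)
(.ord (.leaf p071_l124))
(.trX (nat_lit 16) (nat_lit 89) (nat_lit 93) (nat_lit 100) (nat_lit 304) (.leaf p071_l125)))))))) (by decide +kernel)
noncomputable def p071_l126 : Lf2 := ⟨nat_lit 0, nat_lit 10, [nat_lit 0, nat_lit 5, nat_lit 5, nat_lit 20], false, nat_lit 0, nat_lit 336, nat_lit 0, nat_lit 336, ⟨nat_lit 1000, nat_lit 0, nat_lit 0, nat_lit 0, nat_lit 0, nat_lit 0, nat_lit 0, nat_lit 0, nat_lit 0, nat_lit 0, nat_lit 0, nat_lit 0, nat_lit 0, nat_lit 0, nat_lit 0, nat_lit 0, false, false⟩,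
 nat_lit 0, nat_lit 9703, nat_lit 0, nat_lit 2963, nat_lit 6174, nat_lit 6546, nat_lit 1231, nat_lit 0, nat_lit 0, nat_lit 1453, nat_lit 0, nat_lit 0, nat_lit 0, nat_lit 6736511569335, nat_lit 0, nat_lit 0, nat_lit 0, nat_lit 0, [],
 ⟨p071_k1, nat_lit 0, nat_lit 0, nat_lit 429, nat_lit 0, nat_lit 497226, [nat_lit 3282000000, nat_lit 4688000000, nat_lit 9842000000], [], [nat_lit 27825118703, nat_lit 28041372139, nat_lit 36173899184, nat_lit 36470570979, nat_lit 28828622979, nat_lit 28946183903, nat_lit 34445054085, nat_lit 34611467841], nat_lit 1271250, nat_lit 1271250, nat_lit 1271250, nat_lit 1271250, nat_lit 0, nat_lit 2373000, [nat_lit 780000, nat_lit 1100000, nat_lit 2127500], [nat_lit 42, nat_lit 40, nat_lit 40, nat_lit 80, nat_lit 13, nat_lit 428, nat_lit 200, nat_lit 12]⟩, ⟨p071_k1, nat_lit 0, nat_lit 0, nat_lit 205, nat_lit 0, nat_lit 0, [nat_lit 3282000000, nat_lit 4688000000, nat_lit 9842000000], [],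 [nat_lit 24714873989, nat_lit 25013494458, nat_lit 37147280336, nat_lit 37452375141, nat_lit 26144933761, nat_lit 26306048500, nat_lit 34886088060, nat_lit 35054971672], nat_lit 0, nat_lit 0, nat_lit 0, nat_lit 0, nat_lit 0, nat_lit 0, [], [nat_lit 42, nat_lit 40, nat_lit 40, nat_lit 80, nat_lit 13, nat_lit 428, nat_lit 200, nat_lit 12]⟩,
 zbF0, [⟨nat_lit 4, nat_lit 89, nat_lit 100, nat_lit 95, nat_lit 170226205⟩, ⟨nat_lit 7, nat_lit 89, nat_lit 100, nat_lit 95, nat_lit 161798442⟩]⟩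
noncomputable def p071_l127 : Lf2 := ⟨nat_lit 0, nat_lit 10, [nat_lit 0, nat_lit 5, nat_lit 5, nat_lit 20], false, nat_lit 0, nat_lit 332, nat_lit 0, nat_lit 336, ⟨nat_lit 1000, nat_lit 0, nat_lit 0, nat_lit 0, nat_lit 0, nat_lit 0, nat_lit 0, nat_lit 0, nat_lit 0, nat_lit 0, nat_lit 0, nat_lit 0, nat_lit 0, nat_lit 0, nat_lit 0, nat_lit 0, false, false⟩,
 nat_lit 0, nat_lit 10090, nat_lit 0, nat_lit 0, nat_lit 6560, nat_lit 5858, nat_lit 1261, nat_lit 0, nat_lit 0, nat_lit 1424, nat_lit 0, nat_lit 0, nat_lit 0, nat_lit 0, nat_lit 0, nat_lit 0, nat_lit 0, nat_lit 0, [],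
 ⟨p071_k47, nat_lit 0, nat_lit 0, nat_lit 453, nat_lit 0, nat_lit 577521, [nat_lit 3282000000, nat_lit 4688000000, nat_lit 9842000000], [], [nat_lit 27357882085, nat_lit 27541570045, nat_lit 37489324760, nat_lit 37794736560, nat_lit 27239229585, nat_lit 27352526959, nat_lit 34867548217, nat_lit 35039140851], nat_lit 1271250, nat_lit 1271250, nat_lit 1271250, nat_lit 1271250, nat_lit 0, nat_lit 2344750, [nat_lit 780000, nat_lit 1100000, nat_lit 2127500], [nat_lit 42, nat_lit 40, nat_lit 40, nat_lit 80, nat_lit 13, nat_lit 428, nat_lit 200, nat_lit 12]⟩, ⟨p071_k1, nat_lit 0, nat_lit 0, nat_lit 206, nat_lit 0, nat_lit 0, [nat_lit 3282000000, nat_lit 4688000000, nat_lit 9842000000], [], [nat_lit 25597828112, nat_lit 26103494974, nat_lit 35347048528, nat_lit 35926082058, nat_lit 27518227170, nat_lit 27830644662, nat_lit 34070412322, nat_lit 34399043732], nat_lit 0, nat_lit 0, nat_lit 0, nat_lit 0, nat_lit 0, nat_lit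 0, [], [nat_lit 42, nat_lit 40, nat_lit 40, nat_lit 80, nat_lit 13, nat_lit 428, nat_lit 200, nat_lit 12]⟩,
 zbF0, [⟨nat_lit 4, nat_lit 92, nat_lit 100, nat_lit 96, nat_lit 153039485⟩, ⟨nat_lit 19, nat_lit 100, nat_lit 91, nat_lit 96, nat_lit 173601038⟩]⟩
noncomputable def p071_l128 : Lf2 := ⟨nat_lit 0, nat_lit 10, [nat_lit 0, nat_lit 5, nat_lit 5, nat_lit 20], false, nat_lit 0, nat_lit 328, nat_lit 0, nat_lit 336, ⟨nat_lit 1000, nat_lit 0, nat_lit 0, nat_lit 0, nat_lit 0, nat_lit 0, nat_lit 0, nat_lit 0, nat_lit 0, nat_lit 0, nat_lit 0, nat_lit 0, nat_lit 0, nat_lit 0, nat_lit 0, nat_lit 0, false, false⟩,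
 nat_lit 0, nat_lit 9006, nat_lit 0, nat_lit 0, nat_lit 5981, nat_lit 6516, nat_lit 1174, nat_lit 0, nat_lit 0, nat_lit 1439, nat_lit 0, nat_lit 0, nat_lit 0, nat_lit 1613860493700, nat_lit 0, nat_lit 0, nat_lit 0, nat_lit 0, [],
 ⟨p071_k0, nat_lit 0, nat_lit 0, nat_lit 427, nat_lit 0, nat_lit 654143, [nat_lit 3282000000, nat_lit 4688000000, nat_lit 7968000000], [], [nat_lit 27928668087, nat_lit 28123970385, nat_lit 36253495881, nat_lit 36545797674, nat_lit 28680168818, nat_lit 28806824040, nat_lit 34159884746, nat_lit 34329873002], nat_lit 1271250, nat_lit 1271250, nat_lit 1271250, nat_lit 1271250, nat_lit 0, nat_lit 2316500, [nat_lit 780000, nat_lit 1100000, nat_lit 1785000], [nat_lit 36, nat_lit 40, nat_lit 40, nat_lit 80, nat_lit 7, nat_lit 317, nat_lit 100, nat_lit 10]⟩, ⟨p071_k1, nat_lit 0, nat_lit 0, nat_lit 206, nat_lit 0, nat_lit 0, [nat_lit 3282000000, nat_lit 4688000000, nat_lit 9842000000], [], [nat_lit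 24813137719, nat_lit 25706881741, nat_lit 37068781856, nat_lit 37982028446, nat_lit 26268294075, nat_lit 26778918681, nat_lit 34850520804, nat_lit 35356574095], nat_lit 0, nat_lit 0, nat_lit 0, nat_lit 0, nat_lit 0, nat_lit 0, [], [nat_lit 42, nat_lit 40, nat_lit 40, nat_lit 80, nat_lit 13, nat_lit 428, nat_lit 200, nat_lit 12]⟩,
 zbF0, [⟨nat_lit 16, nat_lit 100, nat_lit 95, nat_lit 98, nat_lit 156804147⟩, ⟨nat_lit 7, nat_lit 92, nat_lit 100, nat_lit 96, nat_lit 156591888⟩]⟩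
noncomputable def p071_l129 : Lf2 := ⟨nat_lit 0, nat_lit 10, [nat_lit 0, nat_lit 5, nat_lit 5, nat_lit 20], false, nat_lit 0, nat_lit 324, nat_lit 0, nat_lit 336, ⟨nat_lit 1000, nat_lit 0, nat_lit 0, nat_lit 0, nat_lit 0, nat_lit 0, nat_lit 0, nat_lit 0, nat_lit 0, nat_lit 0, nat_lit 0, nat_lit 0, nat_lit 0, nat_lit 0, nat_lit 0, nat_lit 0, false, false⟩,
 nat_lit 0, nat_lit 8543, nat_lit 0, nat_lit 0, nat_lit 5793, nat_lit 6479, nat_lit 1317, nat_lit 0, nat_lit 0, nat_lit 1427, nat_lit 0, nat_lit 0, nat_lit 0, nat_lit 671682938156, nat_lit 0, nat_lit 0, nat_lit 0, nat_lit 0, [],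
 ⟨p071_k2, nat_lit 0, nat_lit 0, nat_lit 462, nat_lit 0, nat_lit 727244, [nat_lit 3282000000, nat_lit 4688000000, nat_lit 7968000000], [], [nat_lit 27300161162, nat_lit 27481654496, nat_lit 36041103496, nat_lit 36329148498, nat_lit 28452354118, nat_lit 28574577625, nat_lit 33920153153, nat_lit 34091137909], nat_lit 1271250, nat_lit 1271250, nat_lit 1271250, nat_lit 1271250, nat_lit 0, nat_lit 2288250, [nat_lit 780000, nat_lit 1100000, nat_lit 1785000], [nat_lit 36, nat_lit 40, nat_lit 40, nat_lit 80, nat_lit 7, nat_lit 317, nat_lit 100, nat_lit 10]⟩, ⟨p071_k1, nat_lit 0, nat_lit 0, nat_lit 207, nat_lit 0, nat_lit 0, [nat_lit 3282000000, nat_lit 4688000000, nat_lit 9842000000], [], [nat_lit 24908078611, nat_lit 26096255385, nat_lit 36971967064, nat_lit 38186278094, nat_lit 26394187420, nat_lit 27051359713, nat_lit 34806654521, nat_lit 35480409612], nat_lit 0, nat_lit 0, nat_lit 0, nat_lit 0, nat_lit 0, nat_lit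 0, [], [nat_lit 42, nat_lit 40, nat_lit 40, nat_lit 80, nat_lit 13, nat_lit 428, nat_lit 200, nat_lit 12]⟩,
 zbF0, [⟨nat_lit 16, nat_lit 100, nat_lit 98, nat_lit 99, nat_lit 153461913⟩, ⟨nat_lit 7, nat_lit 94, nat_lit 100, nat_lit 97, nat_lit 153740945⟩]⟩
noncomputable def p071_l130 : Lf2 := ⟨nat_lit 0, nat_lit 10, [nat_lit 0, nat_lit 5, nat_lit 5, nat_lit 20], false, nat_lit 0, nat_lit 320, nat_lit 0, nat_lit 160, ⟨nat_lit 1000, nat_lit 0, nat_lit 0, nat_lit 0, nat_lit 0, nat_lit 0, nat_lit 0, nat_lit 0, nat_lit 0, nat_lit 0, nat_lit 0, nat_lit 0, nat_lit 0, nat_lit 0, nat_lit 0, nat_lit 0, false, false⟩,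
 nat_lit 0, nat_lit 7745, nat_lit 0, nat_lit 0, nat_lit 5361, nat_lit 6865, nat_lit 1874, nat_lit 0, nat_lit 0, nat_lit 945, nat_lit 0, nat_lit 0, nat_lit 0, nat_lit 30658682026223, nat_lit 0, nat_lit 0, nat_lit 0, nat_lit 0, [],
 ⟨p071_k28, nat_lit 0, nat_lit 0, nat_lit 609, nat_lit 0, nat_lit 1075315, [nat_lit 3282000000, nat_lit 6250000000, nat_lit 7968000000], [], [nat_lit 30451260850, nat_lit 31077019202, nat_lit 35774401386, nat_lit 36280003236, nat_lit 31995582944, nat_lit 32452848292, nat_lit 35408608264, nat_lit 35704033284], nat_lit 1271250, nat_lit 1271250, nat_lit 1271250, nat_lit 1271250, nat_lit 0, nat_lit 2260000, [nat_lit 780000, nat_lit 1435000, nat_lit 1271250], [nat_lit 18, nat_lit 40, nat_lit 40, nat_lit 80, nat_lit 2, nat_lit 317, nat_lit 100, nat_lit 10]⟩, ⟨p071_k29, nat_lit 0, nat_lit 0, nat_lit 219, nat_lit 0, nat_lit 0, [nat_lit 3282000000, nat_lit 6250000000, nat_lit 9842000000], [],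 [nat_lit 27886345765, nat_lit 30151181345, nat_lit 37981980840, nat_lit 40480522940, nat_lit 23788629605, nat_lit 25681392240, nat_lit 32083713720, nat_lit 33456426680], nat_lit 0, nat_lit 0, nat_lit 0, nat_lit 0, nat_lit 0, nat_lit 0, [], [nat_lit 8, nat_lit 40, nat_lit 40, nat_lit 80, nat_lit 1, nat_lit 373, nat_lit 150, nat_lit 10]⟩,
 zbF0, [⟨nat_lit 16, nat_lit 93, nat_lit 100, nat_lit 97, nat_lit 195637835⟩]⟩
noncomputable def p071_l131 : Lf2 := ⟨nat_lit 0, nat_lit 10, [nat_lit 0, nat_lit 5, nat_lit 5, nat_lit 20], false, nat_lit 0, nat_lit 320, nat_lit 160, nat_lit 336, ⟨nat_lit 1000, nat_lit 0, nat_lit 0, nat_lit 0, nat_lit 0, nat_lit 0, nat_lit 0, nat_lit 0, nat_lit 0, nat_lit 0, nat_lit 0, nat_lit 0, nat_lit 0, nat_lit 0, nat_lit 0, nat_lit 0, false, false⟩,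
 nat_lit 0, nat_lit 8747, nat_lit 0, nat_lit 0, nat_lit 6055, nat_lit 4816, nat_lit 1656, nat_lit 0, nat_lit 0, nat_lit 0, nat_lit 0, nat_lit 0, nat_lit 0, nat_lit 0, nat_lit 0, nat_lit 0, nat_lit 0, nat_lit 0, [],
 ⟨p071_k28, nat_lit 0, nat_lit 0, nat_lit 523, nat_lit 0, nat_lit 888935, [nat_lit 3282000000, nat_lit 6250000000, nat_lit 7968000000], [], [nat_lit 25557814690, nat_lit 25904240955, nat_lit 28956184200, nat_lit 29779984590, nat_lit 25943085140, nat_lit 26206731400, nat_lit 29331919580, nat_lit 29809851730], nat_lit 1271250, nat_lit 1271250, nat_lit 1271250, nat_lit 1271250, nat_lit 0, nat_lit 2260000, [nat_lit 780000, nat_lit 1435000, nat_lit 1271250], [nat_lit 18, nat_lit 40, nat_lit 40, nat_lit 80, nat_lit 2, nat_lit 317, nat_lit 100, nat_lit 10]⟩, ⟨p071_k29, nat_lit 0, nat_lit 0, nat_lit 63, nat_lit 0, nat_lit 0, [nat_lit 3282000000, nat_lit 6250000000, nat_lit 9842000000], [], [nat_lit 17219426464,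 nat_lit 19337115736, nat_lit 22048327200, nat_lit 23761904304, nat_lit 25149965402, nat_lit 26553032292, nat_lit 28453358829, nat_lit 29701189610], nat_lit 0, nat_lit 0, nat_lit 0, nat_lit 0, nat_lit 0, nat_lit 0, [], [nat_lit 8, nat_lit 40, nat_lit 40, nat_lit 80, nat_lit 1, nat_lit 401, nat_lit 175, nat_lit 11]⟩,
 zbF0, [⟨nat_lit 16, nat_lit 94, nat_lit 88, nat_lit 100, nat_lit 197830153⟩, ⟨nat_lit 7, nat_lit 97, nat_lit 100, nat_lit 98, nat_lit 415748460⟩]⟩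
noncomputable def p071_l132 : Lf2 := ⟨nat_lit 0, nat_lit 10, [nat_lit 0, nat_lit 5, nat_lit 5, nat_lit 20], false, nat_lit 0, nat_lit 312, nat_lit 160, nat_lit 336, ⟨nat_lit 1000, nat_lit 0, nat_lit 0, nat_lit 0, nat_lit 0, nat_lit 0, nat_lit 0, nat_lit 0, nat_lit 0, nat_lit 0, nat_lit 0, nat_lit 0, nat_lit 0, nat_lit 0, nat_lit 0, nat_lit 0, false, false⟩,
 nat_lit 0, nat_lit 8603, nat_lit 0, nat_lit 0, nat_lit 6202, nat_lit 4774, nat_lit 1066, nat_lit 0, nat_lit 0, nat_lit 0, nat_lit 0, nat_lit 0, nat_lit 0, nat_lit 16250767860332, nat_lit 0, nat_lit 0, nat_lit 0, nat_lit 0, [],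
 ⟨p071_k30, nat_lit 0, nat_lit 0, nat_lit 573, nat_lit 0, nat_lit 1015668, [nat_lit 3282000000, nat_lit 6250000000, nat_lit 7968000000], [], [nat_lit 26175898940, nat_lit 26528296884, nat_lit 30066390276, nat_lit 30901582872, nat_lit 26207883631, nat_lit 26445227902, nat_lit 29559841225, nat_lit 30055077647], nat_lit 1271250, nat_lit 1271250, nat_lit 1271250, nat_lit 1271250, nat_lit 0, nat_lit 2203500, [nat_lit 780000, nat_lit 1435000, nat_lit 1271250], [nat_lit 18, nat_lit 40, nat_lit 40, nat_lit 80, nat_lit 2, nat_lit 317, nat_lit 100, nat_lit 10]⟩, ⟨p071_k29, nat_lit 0, nat_lit 0, nat_lit 65, nat_lit 0, nat_lit 0, [nat_lit 3282000000, nat_lit 6250000000, nat_lit 9842000000], [], [nat_lit 17267360896, nat_lit 20077966240, nat_lit 22076101800, nat_lit 24351568608, nat_lit 25172411983, nat_lit 27036615802, nat_lit 28421193684, nat_lit 30080008765], nat_lit 0, nat_lit 0, nat_lit 0, nat_lit 0, nat_lit 0, nat_lit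 0, [], [nat_lit 8, nat_lit 40, nat_lit 40, nat_lit 80, nat_lit 1, nat_lit 401, nat_lit 175, nat_lit 11]⟩,
 zbF0, [⟨nat_lit 16, nat_lit 91, nat_lit 91, nat_lit 100, nat_lit 186790780⟩, ⟨nat_lit 7, nat_lit 100, nat_lit 100, nat_lit 100, nat_lit 399828429⟩]⟩
noncomputable def p071_l133 : Lf2 := ⟨nat_lit 0, nat_lit 10, [nat_lit 0, nat_lit 5, nat_lit 5, nat_lit 20], false, nat_lit 16, nat_lit 320, nat_lit 160, nat_lit 336, ⟨nat_lit 1000, nat_lit 0, nat_lit 0, nat_lit 0, nat_lit 0, nat_lit 0, nat_lit 0, nat_lit 0, nat_lit 0, nat_lit 0, nat_lit 0, nat_lit 0, nat_lit 0, nat_lit 0, nat_lit 0, nat_lit 0, false, false⟩,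
 nat_lit 0, nat_lit 7919, nat_lit 0, nat_lit 0, nat_lit 5482, nat_lit 6701, nat_lit 1573, nat_lit 0, nat_lit 0, nat_lit 0, nat_lit 0, nat_lit 0, nat_lit 0, nat_lit 16716697483309, nat_lit 0, nat_lit 0, nat_lit 0, nat_lit 0, [],
 ⟨p071_k28, nat_lit 0, nat_lit 0, nat_lit 518, nat_lit 0, nat_lit 888935, [nat_lit 3282000000, nat_lit 6250000000, nat_lit 7968000000], [], [nat_lit 30775451418, nat_lit 31089644846, nat_lit 34535544307, nat_lit 35094744582, nat_lit 31508623708, nat_lit 31723406602, nat_lit 33722577940, nat_lit 33889785902], nat_lit 1271250, nat_lit 1271250, nat_lit 1271250, nat_lit 1271250, nat_lit 88400, nat_lit 2281000, [nat_lit 780000, nat_lit 1435000, nat_lit 1271250], [nat_lit 18, nat_lit 40, nat_lit 40, nat_lit 80, nat_lit 2, nat_lit 317, nat_lit 100, nat_lit 9]⟩, ⟨p071_k29, nat_lit 0, nat_lit 0, nat_lit 88, nat_lit 0, nat_lit 0, [nat_lit 3282000000, nat_lit 6250000000, nat_lit 9842000000], [], [nat_lit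 24733246428, nat_lit 26492441322, nat_lit 30840798864, nat_lit 32143341822, nat_lit 30604036378, nat_lit 31722943731, nat_lit 35069852216, nat_lit 36089328532], nat_lit 0, nat_lit 0, nat_lit 0, nat_lit 0, nat_lit 0, nat_lit 0, [], [nat_lit 8, nat_lit 40, nat_lit 40, nat_lit 80, nat_lit 1, nat_lit 317, nat_lit 100, nat_lit 8]⟩,
 zbF0, [⟨nat_lit 16, nat_lit 94, nat_lit 88, nat_lit 100, nat_lit 180342314⟩, ⟨nat_lit 7, nat_lit 97, nat_lit 100, nat_lit 98, nat_lit 347484197⟩]⟩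
noncomputable def p071_l134 : Lf2 := ⟨nat_lit 0, nat_lit 10, [nat_lit 0, nat_lit 5, nat_lit 5, nat_lit 20], false, nat_lit 16, nat_lit 312, nat_lit 160, nat_lit 336, ⟨nat_lit 1000, nat_lit 0, nat_lit 0, nat_lit 0, nat_lit 0, nat_lit 0, nat_lit 0, nat_lit 0, nat_lit 0, nat_lit 0, nat_lit 0, nat_lit 0, nat_lit 0, nat_lit 0, nat_lit 0, nat_lit 0, false, false⟩,
 nat_lit 0, nat_lit 7618, nat_lit 0, nat_lit 0, nat_lit 5491, nat_lit 5572, nat_lit 1059, nat_lit 0, nat_lit 0, nat_lit 0, nat_lit 0, nat_lit 0, nat_lit 0, nat_lit 0, nat_lit 0, nat_lit 0, nat_lit 0, nat_lit 0, [],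
 ⟨p071_k27, nat_lit 0, nat_lit 0, nat_lit 555, nat_lit 0, nat_lit 1015668, [nat_lit 3282000000, nat_lit 4688000000, nat_lit 7968000000], [], [nat_lit 31437370541, nat_lit 31727765446, nat_lit 35117606441, nat_lit 35677212629, nat_lit 31559577503, nat_lit 31735406516, nat_lit 33721630359, nat_lit 33995732091], nat_lit 1271250, nat_lit 1271250, nat_lit 1271250, nat_lit 1271250, nat_lit 88400, nat_lit 2223300, [nat_lit 780000, nat_lit 1100000, nat_lit 1785000], [nat_lit 36, nat_lit 40, nat_lit 40, nat_lit 80, nat_lit 7, nat_lit 317, nat_lit 100, nat_lit 9]⟩, ⟨p071_k1, nat_lit 0, nat_lit 0, nat_lit 78, nat_lit 0, nat_lit 0, [nat_lit 3282000000, nat_lit 4688000000, nat_lit 9842000000], [], [nat_lit 23554164384, nat_lit 25624699616, nat_lit 29158831568, nat_lit 30898194592, nat_lit 29379521050, nat_lit 30892365994, nat_lit 33731337815, nat_lit 35030672509], nat_lit 0, nat_lit 0, nat_lit 0, nat_lit 0, nat_lit 0, nat_lit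 0, [], [nat_lit 42, nat_lit 40, nat_lit 40, nat_lit 80, nat_lit 13, nat_lit 317, nat_lit 100, nat_lit 8]⟩,
 zbF0, [⟨nat_lit 16, nat_lit 91, nat_lit 91, nat_lit 100, nat_lit 174758018⟩, ⟨nat_lit 7, nat_lit 100, nat_lit 100, nat_lit 100, nat_lit 345803768⟩]⟩
noncomputable def b_V_700_700_20_32 : St := ⟨true, nat_lit 1, nat_lit 0, nat_lit 1, nat_lit 120, nat_lit 280, nat_lit 320, nat_lit 280, nat_lit 320, nat_lit 240, nat_lit 400, nat_lit 80, nat_lit 120, nat_lit 0, nat_lit 336, nat_lit 0, nat_lit 336, nat_lit 0, nat_lit 40, nat_lit 0, nat_lit 0, nat_lit 0, nat_lit 0⟩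
theorem d_V_700_700_20_32 (h : EB TB.env) : Dead b_V_700_700_20_32 := chkB_sound0 h (T :=
(.spl (nat_lit 0) (nat_lit 300)
(.ord (.spl (nat_lit 0) (nat_lit 290)
(.ord (.spl (nat_lit 0) (nat_lit 285)
(.ord (.leaf p071_l126))
(.trX (nat_lit 16) (nat_lit 99) (nat_lit 82) (nat_lit 100) (nat_lit 332) (.leaf p071_l127))))
(.trX (nat_lit 16) (nat_lit 97) (nat_lit 84) (nat_lit 100) (nat_lit 328) (.spl (nat_lit 0) (nat_lit 295)
(.ord (.leaf p071_l128))
(.trX (nat_lit 16) (nat_lit 96) (nat_lit 86) (nat_lit 100) (nat_lit 324) (.leaf p071_l129))))))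
(.trX (nat_lit 16) (nat_lit 94) (nat_lit 88) (nat_lit 100) (nat_lit 320) (.spl (nat_lit 5) (nat_lit 160)
(.leaf p071_l130)
(.spl (nat_lit 2) (nat_lit 320)
(.spl (nat_lit 0) (nat_lit 310)
(.ord (.leaf p071_l131))
(.trX (nat_lit 16) (nat_lit 91) (nat_lit 91) (nat_lit 100) (nat_lit 312) (.leaf p071_l132)))
(.trZ (nat_lit 22) (nat_lit 82) (nat_lit 100) (nat_lit 44) (nat_lit 16) (.spl (nat_lit 0) (nat_lit 310)
(.ord (.leaf p071_l133))
(.trX (nat_lit 16) (nat_lit 91) (nat_lit 91) (nat_lit 100) (nat_lit 312) (.leaf p071_l134))))))))) (by decide +kernel)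
noncomputable def p071_l135 : Lf2 := ⟨nat_lit 0, nat_lit 10, [nat_lit 0, nat_lit 5, nat_lit 5, nat_lit 20], false, nat_lit 0, nat_lit 160, nat_lit 0, nat_lit 160, ⟨nat_lit 1000, nat_lit 0, nat_lit 0, nat_lit 0, nat_lit 0, nat_lit 0, nat_lit 0, nat_lit 0, nat_lit 0, nat_lit 0, nat_lit 0, nat_lit 0, nat_lit 0, nat_lit 0, nat_lit 0, nat_lit 0, false, false⟩,
 nat_lit 13439, nat_lit 0, nat_lit 0, nat_lit 0, nat_lit 8552, nat_lit 8552, nat_lit 945, nat_lit 0, nat_lit 0, nat_lit 955, nat_lit 0, nat_lit 0, nat_lit 0, nat_lit 0, nat_lit 0, nat_lit 0, nat_lit 0, nat_lit 0, [],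
 ⟨p071_k29, nat_lit 0, nat_lit 0, nat_lit 570, nat_lit 0, nat_lit 666884, [nat_lit 3282000000, nat_lit 6250000000, nat_lit 9842000000], [], [nat_lit 31457924781, nat_lit 30709989695, nat_lit 27214870405, nat_lit 29313225728, nat_lit 23998443450, nat_lit 26022315284, nat_lit 26758844896, nat_lit 24635109824], nat_lit 1271250, nat_lit 1271250, nat_lit 382400, nat_lit 1100001, nat_lit 0, nat_lit 1100001, [nat_lit 780000, nat_lit 1435000, nat_lit 1271250], [nat_lit 8, nat_lit 40, nat_lit 40, nat_lit 80, nat_lit 1, nat_lit 317, nat_lit 100, nat_lit 9]⟩, ⟨p071_k29, nat_lit 0, nat_lit 0, nat_lit 570, nat_lit 0, nat_lit 666884, [nat_lit 3282000000, nat_lit 6250000000, nat_lit 9842000000], [], [nat_lit 31457924781, nat_lit 30646020945, nat_lit 27170930592, nat_lit 29313225728, nat_lit 23998443450, nat_lit 26022315284, nat_lit 26758844896, nat_lit 24635109824], nat_lit 1271250, nat_lit 1271250, nat_lit 382400, nat_lit 1100001,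 nat_lit 0, nat_lit 1100001, [nat_lit 780000, nat_lit 1435000, nat_lit 1271250], [nat_lit 8, nat_lit 40, nat_lit 40, nat_lit 80, nat_lit 1, nat_lit 317, nat_lit 100, nat_lit 9]⟩,
 zbF0, [⟨nat_lit 0, nat_lit 100, nat_lit 100, nat_lit 80, nat_lit 597411553⟩]⟩
noncomputable def p071_l136 : Lf2 := ⟨nat_lit 0, nat_lit 10, [nat_lit 0, nat_lit 5, nat_lit 5, nat_lit 20], false, nat_lit 0, nat_lit 160, nat_lit 160, nat_lit 240, ⟨nat_lit 1000, nat_lit 0, nat_lit 0, nat_lit 0, nat_lit 0, nat_lit 0, nat_lit 0, nat_lit 0, nat_lit 0, nat_lit 0, nat_lit 0, nat_lit 0, nat_lit 0, nat_lit 0, nat_lit 0, nat_lit 0, false, false⟩,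
 nat_lit 15274, nat_lit 0, nat_lit 0, nat_lit 0, nat_lit 9719, nat_lit 9719, nat_lit 1157, nat_lit 0, nat_lit 0, nat_lit 1128, nat_lit 0, nat_lit 0, nat_lit 0, nat_lit 12526383307499, nat_lit 0, nat_lit 0, nat_lit 0, nat_lit 0, [],
 ⟨p071_k29, nat_lit 0, nat_lit 0, nat_lit 570, nat_lit 0, nat_lit 666884, [nat_lit 3282000000, nat_lit 6250000000, nat_lit 9842000000], [], [nat_lit 31272874058, nat_lit 28686453354, nat_lit 23635966224, nat_lit 25932151316, nat_lit 19904146252, nat_lit 22069571451, nat_lit 24631693312, nat_lit 20264242028], nat_lit 1271250, nat_lit 1271250, nat_lit 382400, nat_lit 1100001, nat_lit 0, nat_lit 1100001, [nat_lit 780000, nat_lit 1435000, nat_lit 1271250], [nat_lit 8, nat_lit 40, nat_lit 40, nat_lit 80, nat_lit 1, nat_lit 317, nat_lit 100, nat_lit 9]⟩, ⟨p071_k29, nat_lit 0, nat_lit 0, nat_lit 447, nat_lit 0, nat_lit 666884, [nat_lit 3282000000, nat_lit 6250000000, nat_lit 9842000000], [],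 [nat_lit 17958028110, nat_lit 20856137442, nat_lit 16770531596, nat_lit 19272252968, nat_lit 20098819746, nat_lit 22524606364, nat_lit 22949930436, nat_lit 20553792440], nat_lit 1271250, nat_lit 1271250, nat_lit 382400, nat_lit 1100001, nat_lit 1100001, nat_lit 1785000, [nat_lit 780000, nat_lit 1435000, nat_lit 1271250], [nat_lit 8, nat_lit 40, nat_lit 40, nat_lit 80, nat_lit 1, nat_lit 317, nat_lit 100, nat_lit 9]⟩,
 zbF0, [⟨nat_lit 0, nat_lit 100, nat_lit 100, nat_lit 100, nat_lit 557784239⟩]⟩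
noncomputable def p071_l137 : Lf2 := ⟨nat_lit 0, nat_lit 10, [nat_lit 0, nat_lit 5, nat_lit 5, nat_lit 20], false, nat_lit 0, nat_lit 160, nat_lit 240, nat_lit 336, ⟨nat_lit 1000, nat_lit 0, nat_lit 0, nat_lit 0, nat_lit 0, nat_lit 0, nat_lit 0, nat_lit 0, nat_lit 0, nat_lit 0, nat_lit 0, nat_lit 0, nat_lit 0, nat_lit 0, nat_lit 0, nat_lit 0, false, false⟩,
 nat_lit 15080, nat_lit 0, nat_lit 0, nat_lit 1729, nat_lit 9596, nat_lit 8476, nat_lit 1520, nat_lit 0, nat_lit 0, nat_lit 991, nat_lit 0, nat_lit 0, nat_lit 0, nat_lit 0, nat_lit 0, nat_lit 0, nat_lit 0, nat_lit 0, [],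
 ⟨p071_k29, nat_lit 0, nat_lit 0, nat_lit 372, nat_lit 0, nat_lit 341911, [nat_lit 3282000000, nat_lit 6250000000, nat_lit 9842000000], [], [nat_lit 21283872292, nat_lit 22460879348, nat_lit 20434344896, nat_lit 21450547504, nat_lit 16073990999, nat_lit 16814524580, nat_lit 24855891808, nat_lit 22654703752], nat_lit 1271250, nat_lit 1271250, nat_lit 382400, nat_lit 1100001, nat_lit 0, nat_lit 1100001, [nat_lit 780000, nat_lit 1435000, nat_lit 1271250], [nat_lit 8, nat_lit 40, nat_lit 40, nat_lit 80, nat_lit 1, nat_lit 317, nat_lit 100, nat_lit 9]⟩, ⟨p071_k29, nat_lit 0, nat_lit 0, nat_lit 288, nat_lit 0, nat_lit 341911, [nat_lit 3282000000, nat_lit 6250000000, nat_lit 9842000000], [], [nat_lit 21828939247, nat_lit 22433873347, nat_lit 20306449227, nat_lit 20829745783, nat_lit 27151477876, nat_lit 28074755657, nat_lit 25336484826, nat_lit 25816252825], nat_lit 1271250, nat_lit 1271250, nat_lit 382400, nat_lit 1100001,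 nat_lit 1271250, nat_lit 1271250, [nat_lit 780000, nat_lit 1435000, nat_lit 1271250], [nat_lit 8, nat_lit 40, nat_lit 40, nat_lit 80, nat_lit 1, nat_lit 345, nat_lit 125, nat_lit 9]⟩,
 zbF0, [⟨nat_lit 0, nat_lit 100, nat_lit 100, nat_lit 85, nat_lit 313061889⟩, ⟨nat_lit 19, nat_lit 100, nat_lit 80, nat_lit 100, nat_lit 154912921⟩, ⟨nat_lit 7, nat_lit 91, nat_lit 100, nat_lit 96, nat_lit 369677946⟩]⟩
noncomputable def p071_l138 : Lf2 := ⟨nat_lit 0, nat_lit 10, [nat_lit 0, nat_lit 5, nat_lit 5, nat_lit 20], false, nat_lit 0, nat_lit 160, nat_lit 240, nat_lit 336, ⟨nat_lit 1000, nat_lit 0, nat_lit 0, nat_lit 0, nat_lit 0, nat_lit 0, nat_lit 0, nat_lit 0, nat_lit 0, nat_lit 0, nat_lit 0, nat_lit 0, nat_lit 0, nat_lit 0, nat_lit 0, nat_lit 0, false, false⟩,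
 nat_lit 13428, nat_lit 2443, nat_lit 0, nat_lit 0, nat_lit 10540, nat_lit 8544, nat_lit 1261, nat_lit 0, nat_lit 0, nat_lit 992, nat_lit 0, nat_lit 0, nat_lit 0, nat_lit 0, nat_lit 0, nat_lit 0, nat_lit 0, nat_lit 0, [],
 ⟨p071_k48, nat_lit 0, nat_lit 0, nat_lit 369, nat_lit 0, nat_lit 426895, [nat_lit 3282000000, nat_lit 6250000000, nat_lit 7968000000], [], [nat_lit 25045067078, nat_lit 25040325144, nat_lit 20953640640, nat_lit 22838560800, nat_lit 12582967350, nat_lit 14175408145, nat_lit 18337347980, nat_lit 15919619540], nat_lit 1271250, nat_lit 1271250, nat_lit 435600, nat_lit 1100001, nat_lit 0, nat_lit 1100001, [nat_lit 780000, nat_lit 1435000, nat_lit 1271250], [nat_lit 18, nat_lit 40, nat_lit 40, nat_lit 80, nat_lit 2, nat_lit 317, nat_lit 100, nat_lit 11]⟩, ⟨p071_k29, nat_lit 0, nat_lit 0, nat_lit 322, nat_lit 0, nat_lit 450515, [nat_lit 3282000000, nat_lit 6250000000, nat_lit 9842000000], [], [nat_lit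 21389066087, nat_lit 22593800871, nat_lit 20165490688, nat_lit 21216344816, nat_lit 26711984762, nat_lit 28555519041, nat_lit 25215721287, nat_lit 26513492500], nat_lit 1271250, nat_lit 1271250, nat_lit 435600, nat_lit 1100001, nat_lit 1271250, nat_lit 1271250, [nat_lit 780000, nat_lit 1435000, nat_lit 1271250], [nat_lit 8, nat_lit 40, nat_lit 40, nat_lit 80, nat_lit 1, nat_lit 345, nat_lit 125, nat_lit 9]⟩,
 zbF0, [⟨nat_lit 0, nat_lit 100, nat_lit 97, nat_lit 84, nat_lit 791966116⟩, ⟨nat_lit 19, nat_lit 100, nat_lit 80, nat_lit 100, nat_lit 367314438⟩, ⟨nat_lit 7, nat_lit 94, nat_lit 100, nat_lit 97, nat_lit 162637654⟩]⟩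
noncomputable def p071_l139 : Lf2 := ⟨nat_lit 0, nat_lit 10, [nat_lit 0, nat_lit 5, nat_lit 5, nat_lit 20], false, nat_lit 0, nat_lit 160, nat_lit 240, nat_lit 336, ⟨nat_lit 1000, nat_lit 0, nat_lit 0, nat_lit 0, nat_lit 0, nat_lit 0, nat_lit 0, nat_lit 0, nat_lit 0, nat_lit 0, nat_lit 0, nat_lit 0, nat_lit 0, nat_lit 0, nat_lit 0, nat_lit 0, false, false⟩,
 nat_lit 13929, nat_lit 0, nat_lit 0, nat_lit 0, nat_lit 7483, nat_lit 8863, nat_lit 1281, nat_lit 0, nat_lit 0, nat_lit 950, nat_lit 0, nat_lit 0, nat_lit 0, nat_lit 0, nat_lit 0, nat_lit 0, nat_lit 0, nat_lit 0, [],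
 ⟨p071_k28, nat_lit 0, nat_lit 0, nat_lit 438, nat_lit 0, nat_lit 599874, [nat_lit 3282000000, nat_lit 6250000000, nat_lit 7968000000], [], [nat_lit 22232734125, nat_lit 23382714792, nat_lit 20885943133, nat_lit 22677319224, nat_lit 17466024695, nat_lit 18692932345, nat_lit 20570619643, nat_lit 18338137801], nat_lit 1271250, nat_lit 1271250, nat_lit 490000, nat_lit 1100001, nat_lit 0, nat_lit 1100001, [nat_lit 780000, nat_lit 1435000, nat_lit 1271250], [nat_lit 18, nat_lit 40, nat_lit 40, nat_lit 80, nat_lit 2, nat_lit 317, nat_lit 100, nat_lit 10]⟩, ⟨p071_k29, nat_lit 0, nat_lit 0, nat_lit 423, nat_lit 0, nat_lit 666884, [nat_lit 3282000000, nat_lit 6250000000, nat_lit 9842000000], [], [nat_lit 21921893978, nat_lit 24061845632, nat_lit 21052203312, nat_lit 23033829880, nat_lit 26481094960, nat_lit 30232802545, nat_lit 25139587492, nat_lit 28384589698], nat_lit 1271250, nat_lit 1271250, nat_lit 490000, nat_lit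 1100001, nat_lit 1271250, nat_lit 1271250, [nat_lit 780000, nat_lit 1435000, nat_lit 1271250], [nat_lit 8, nat_lit 40, nat_lit 40, nat_lit 80, nat_lit 1, nat_lit 345, nat_lit 125, nat_lit 9]⟩,
 zbF0, [⟨nat_lit 0, nat_lit 97, nat_lit 93, nat_lit 100, nat_lit 581878487⟩, ⟨nat_lit 19, nat_lit 100, nat_lit 80, nat_lit 100, nat_lit 301647123⟩, ⟨nat_lit 7, nat_lit 100, nat_lit 100, nat_lit 100, nat_lit 159144680⟩]⟩
noncomputable def p071_l140 : Lf2 := ⟨nat_lit 0, nat_lit 10, [nat_lit 0, nat_lit 5, nat_lit 5, nat_lit 20], false, nat_lit 0, nat_lit 160, nat_lit 0, nat_lit 336, ⟨nat_lit 1000, nat_lit 0, nat_lit 0, nat_lit 0, nat_lit 0, nat_lit 0, nat_lit 0, nat_lit 0, nat_lit 0, nat_lit 0, nat_lit 0, nat_lit 0, nat_lit 0, nat_lit 0, nat_lit 0, nat_lit 0, false, false⟩,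
 nat_lit 14916, nat_lit 0, nat_lit 0, nat_lit 0, nat_lit 9491, nat_lit 9491, nat_lit 1117, nat_lit 0, nat_lit 0, nat_lit 700, nat_lit 0, nat_lit 0, nat_lit 0, nat_lit 13574848554473, nat_lit 0, nat_lit 0, nat_lit 0, nat_lit 0, [],
 ⟨p071_k29, nat_lit 0, nat_lit 0, nat_lit 375, nat_lit 0, nat_lit 450515, [nat_lit 3282000000, nat_lit 6250000000, nat_lit 9842000000], [], [nat_lit 33958272724, nat_lit 29015568726, nat_lit 24928003885, nat_lit 26697191279, nat_lit 17455242044, nat_lit 18689004098, nat_lit 26603428568, nat_lit 22191043686], nat_lit 1271250, nat_lit 1271250, nat_lit 1100001, nat_lit 1785000, nat_lit 0, nat_lit 1100001, [nat_lit 780000, nat_lit 1435000, nat_lit 1271250], [nat_lit 8, nat_lit 40, nat_lit 40, nat_lit 80, nat_lit 1, nat_lit 317, nat_lit 100, nat_lit 9]⟩, ⟨p071_k29, nat_lit 0, nat_lit 0, nat_lit 375, nat_lit 0, nat_lit 450515, [nat_lit 3282000000, nat_lit 6250000000, nat_lit 9842000000], [],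 [nat_lit 33958272724, nat_lit 29015568726, nat_lit 27595500760, nat_lit 29364688154, nat_lit 27336862490, nat_lit 27113660189, nat_lit 39303203853, nat_lit 35186736962], nat_lit 1271250, nat_lit 1271250, nat_lit 1100001, nat_lit 1785000, nat_lit 0, nat_lit 2373000, [nat_lit 780000, nat_lit 1435000, nat_lit 1271250], [nat_lit 8, nat_lit 40, nat_lit 40, nat_lit 80, nat_lit 1, nat_lit 373, nat_lit 150, nat_lit 11]⟩,
 zbF0, [⟨nat_lit 7, nat_lit 94, nat_lit 100, nat_lit 97, nat_lit 106994596⟩]⟩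
noncomputable def p071_l141 : Lf2 := ⟨nat_lit 0, nat_lit 10, [nat_lit 0, nat_lit 5, nat_lit 5, nat_lit 20], false, nat_lit 0, nat_lit 160, nat_lit 0, nat_lit 336, ⟨nat_lit 1000, nat_lit 0, nat_lit 0, nat_lit 0, nat_lit 0, nat_lit 0, nat_lit 0, nat_lit 0, nat_lit 0, nat_lit 0, nat_lit 0, nat_lit 0, nat_lit 0, nat_lit 0, nat_lit 0, nat_lit 0, false, false⟩,
 nat_lit 10571, nat_lit 0, nat_lit 0, nat_lit 0, nat_lit 7131, nat_lit 6727, nat_lit 1221, nat_lit 0, nat_lit 0, nat_lit 751, nat_lit 0, nat_lit 0, nat_lit 0, nat_lit 0, nat_lit 0, nat_lit 0, nat_lit 0, nat_lit 0, [],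
 ⟨p071_k28, nat_lit 0, nat_lit 0, nat_lit 408, nat_lit 0, nat_lit 599874, [nat_lit 3282000000, nat_lit 6250000000, nat_lit 7968000000], [], [nat_lit 26820270141, nat_lit 23238005333, nat_lit 23925591561, nat_lit 26082398880, nat_lit 18687106663, nat_lit 19685001357, nat_lit 21964182852, nat_lit 21080702685], nat_lit 1271250, nat_lit 1271250, nat_lit 1100001, nat_lit 1785000, nat_lit 0, nat_lit 1100001, [nat_lit 780000, nat_lit 1435000, nat_lit 1271250], [nat_lit 18, nat_lit 40, nat_lit 40, nat_lit 80, nat_lit 2, nat_lit 317, nat_lit 100, nat_lit 10]⟩, ⟨p071_k29, nat_lit 0, nat_lit 0, nat_lit 496, nat_lit 0, nat_lit 666884, [nat_lit 3282000000, nat_lit 6250000000, nat_lit 9842000000], [], [nat_lit 32669242628, nat_lit 32519722975, nat_lit 32049747527, nat_lit 33783919691, nat_lit 31563721652, nat_lit 32464078847, nat_lit 40843136602, nat_lit 35007824669], nat_lit 1271250, nat_lit 1271250, nat_lit 1100001, nat_lit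 1785000, nat_lit 0, nat_lit 2373000, [nat_lit 780000, nat_lit 1435000, nat_lit 1271250], [nat_lit 8, nat_lit 40, nat_lit 40, nat_lit 80, nat_lit 1, nat_lit 373, nat_lit 150, nat_lit 11]⟩,
 zbF0, [⟨nat_lit 7, nat_lit 100, nat_lit 100, nat_lit 100, nat_lit 186298174⟩]⟩
noncomputable def b_V_700_700_20_33 : St := ⟨true, nat_lit 1, nat_lit 1, nat_lit 1, nat_lit 120, nat_lit 280, nat_lit 320, nat_lit 280, nat_lit 320, nat_lit 64, nat_lit 240, nat_lit 80, nat_lit 120, nat_lit 0, nat_lit 160, nat_lit 0, nat_lit 336, nat_lit 0, nat_lit 40, nat_lit 0, nat_lit 0, nat_lit 0, nat_lit 0⟩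
theorem d_V_700_700_20_33 (h : EB TB.env) : Dead b_V_700_700_20_33 := chkB_sound0 h (T :=
(.spl (nat_lit 2) (nat_lit 160)
(.spl (nat_lit 5) (nat_lit 160)
(.leaf p071_l135)
(.spl (nat_lit 5) (nat_lit 240)
(.leaf p071_l136)
(.spl (nat_lit 0) (nat_lit 300)
(.ord (.spl (nat_lit 0) (nat_lit 290)
(.ord (.leaf p071_l137))
(.trZ (nat_lit 0) (nat_lit 100) (nat_lit 97) (nat_lit 84) (nat_lit 72) (.leaf p071_l138))))
(.trZ (nat_lit 0) (nat_lit 100) (nat_lit 94) (nat_lit 88) (nat_lit 80) (.leaf p071_l139)))))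
(.spl (nat_lit 0) (nat_lit 300)
(.ord (.leaf p071_l140))
(.leaf p071_l141)))) (by decide +kernel)
noncomputable def p071_l142 : Lf2 := ⟨nat_lit 0, nat_lit 5, [nat_lit 4, nat_lit 5, nat_lit 5, nat_lit 20], false, nat_lit 160, nat_lit 240, nat_lit 0, nat_lit 160, ⟨nat_lit 1000, nat_lit 0, nat_lit 0, nat_lit 0, nat_lit 0, nat_lit 0, nat_lit 0, nat_lit 0, nat_lit 0, nat_lit 0, nat_lit 0, nat_lit 0, nat_lit 0, nat_lit 0, nat_lit 0, nat_lit 0, false, false⟩,
 nat_lit 11774, nat_lit 0, nat_lit 0, nat_lit 0, nat_lit 7492, nat_lit 7492, nat_lit 1499, nat_lit 0, nat_lit 0, nat_lit 1158, nat_lit 0, nat_lit 0, nat_lit 0, nat_lit 0, nat_lit 0, nat_lit 0, nat_lit 0, nat_lit 0, [],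
 ⟨p071_k4, nat_lit 0, nat_lit 0, nat_lit 297, nat_lit 0, nat_lit 534913, [nat_lit 3282000000, nat_lit 4688000000, nat_lit 7968000000], [], [nat_lit 26782008557, nat_lit 19048076893, nat_lit 15973012464, nat_lit 18015427976, nat_lit 20779434130, nat_lit 21387996844, nat_lit 24494799080, nat_lit 20153437672], nat_lit 1271250, nat_lit 1271250, nat_lit 382400, nat_lit 780000, nat_lit 1100001, nat_lit 1785000, [nat_lit 780000, nat_lit 1100000, nat_lit 1785000], [nat_lit 36, nat_lit 40, nat_lit 40, nat_lit 80, nat_lit 7, nat_lit 317, nat_lit 100, nat_lit 10]⟩, ⟨p071_k4, nat_lit 0, nat_lit 0, nat_lit 409, nat_lit 0, nat_lit 534913, [nat_lit 3282000000, nat_lit 4688000000, nat_lit 7968000000], [], [nat_lit 31470008557, nat_lit 27603042725, nat_lit 21075186352, nat_lit 22329099456, nat_lit 26783157460, nat_lit 23372847008, nat_lit 30754263328, nat_lit 27405339328], nat_lit 1271250, nat_lit 1271250, nat_lit 382400, nat_lit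 780000, nat_lit 0, nat_lit 1100001, [nat_lit 780000, nat_lit 1100000, nat_lit 1785000], [nat_lit 36, nat_lit 40, nat_lit 40, nat_lit 80, nat_lit 7, nat_lit 289, nat_lit 75, nat_lit 10]⟩,
 zbF0, [⟨nat_lit 0, nat_lit 100, nat_lit 100, nat_lit 80, nat_lit 170643051⟩]⟩
noncomputable def p071_l143 : Lf2 := ⟨nat_lit 0, nat_lit 5, [nat_lit 4, nat_lit 5, nat_lit 5, nat_lit 20], false, nat_lit 160, nat_lit 240, nat_lit 0, nat_lit 160, ⟨nat_lit 1000, nat_lit 0, nat_lit 0, nat_lit 0, nat_lit 0, nat_lit 0, nat_lit 0, nat_lit 0, nat_lit 0, nat_lit 0, nat_lit 0, nat_lit 0, nat_lit 0, nat_lit 0, nat_lit 0, nat_lit 0, false, false⟩,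
 nat_lit 6775, nat_lit 5048, nat_lit 0, nat_lit 0, nat_lit 7523, nat_lit 4311, nat_lit 1630, nat_lit 0, nat_lit 0, nat_lit 1089, nat_lit 0, nat_lit 0, nat_lit 0, nat_lit 0, nat_lit 0, nat_lit 0, nat_lit 0, nat_lit 0, [],
 ⟨p071_k4, nat_lit 0, nat_lit 0, nat_lit 273, nat_lit 0, nat_lit 534913, [nat_lit 3282000000, nat_lit 4688000000, nat_lit 7968000000], [], [nat_lit 22236842584, nat_lit 17524304944, nat_lit 18363483580, nat_lit 19947071340, nat_lit 17118285108, nat_lit 19664054944, nat_lit 27631788520, nat_lit 22736943628], nat_lit 1271250, nat_lit 1271250, nat_lit 780000, nat_lit 1762500, nat_lit 1100001, nat_lit 1785000, [nat_lit 780000, nat_lit 1100000, nat_lit 1785000], [nat_lit 36, nat_lit 40, nat_lit 40, nat_lit 80, nat_lit 7, nat_lit 345, nat_lit 125, nat_lit 11]⟩, ⟨p071_k4, nat_lit 0, nat_lit 0, nat_lit 384, nat_lit 0, nat_lit 534913, [nat_lit 3282000000, nat_lit 4688000000, nat_lit 7968000000], [], [nat_lit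 35945286240, nat_lit 33665896722, nat_lit 32237457432, nat_lit 33059467142, nat_lit 29247778060, nat_lit 30093482356, nat_lit 37557357124, nat_lit 35630340124], nat_lit 1271250, nat_lit 1271250, nat_lit 780000, nat_lit 1762500, nat_lit 0, nat_lit 1100001, [nat_lit 780000, nat_lit 1100000, nat_lit 1785000], [nat_lit 36, nat_lit 40, nat_lit 40, nat_lit 80, nat_lit 7, nat_lit 317, nat_lit 100, nat_lit 10]⟩,
 zbF0, []⟩
noncomputable def p071_l144 : Lf2 := ⟨nat_lit 0, nat_lit 10, [nat_lit 0, nat_lit 5, nat_lit 5, nat_lit 20], false, nat_lit 160, nat_lit 240, nat_lit 0, nat_lit 160, ⟨nat_lit 1000, nat_lit 0, nat_lit 0, nat_lit 0, nat_lit 0, nat_lit 0, nat_lit 0, nat_lit 0, nat_lit 0, nat_lit 0, nat_lit 0, nat_lit 0, nat_lit 0, nat_lit 0, nat_lit 0, nat_lit 0, false, false⟩,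
 nat_lit 14758, nat_lit 0, nat_lit 0, nat_lit 0, nat_lit 9391, nat_lit 5969, nat_lit 1294, nat_lit 0, nat_lit 0, nat_lit 0, nat_lit 0, nat_lit 0, nat_lit 0, nat_lit 0, nat_lit 0, nat_lit 0, nat_lit 0, nat_lit 0, [],
 ⟨p071_k29, nat_lit 0, nat_lit 0, nat_lit 189, nat_lit 0, nat_lit 237081, [nat_lit 3282000000, nat_lit 6250000000, nat_lit 9842000000], [], [nat_lit 15119494974, nat_lit 17148716048, nat_lit 16618524880, nat_lit 18431667238, nat_lit 18184044371, nat_lit 19873552944, nat_lit 22765146204, nat_lit 21231123622], nat_lit 1271250, nat_lit 1271250, nat_lit 382400, nat_lit 1731000, nat_lit 1100001, nat_lit 1785000, [nat_lit 780000, nat_lit 1435000, nat_lit 1271250], [nat_lit 8, nat_lit 40, nat_lit 40, nat_lit 80, nat_lit 1, nat_lit 345, nat_lit 125, nat_lit 10]⟩, ⟨p071_k29, nat_lit 0, nat_lit 0, nat_lit 338, nat_lit 0, nat_lit 237081, [nat_lit 3282000000, nat_lit 6250000000, nat_lit 9842000000], [], [nat_lit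 37808568414, nat_lit 34681039236, nat_lit 35088026144, nat_lit 35931957336, nat_lit 31365542060, nat_lit 32304759852, nat_lit 38174299396, nat_lit 35506156396], nat_lit 1271250, nat_lit 1271250, nat_lit 382400, nat_lit 1731000, nat_lit 0, nat_lit 1100001, [nat_lit 780000, nat_lit 1435000, nat_lit 1271250], [nat_lit 8, nat_lit 40, nat_lit 40, nat_lit 80, nat_lit 1, nat_lit 317, nat_lit 100, nat_lit 9]⟩,
 zbF0, [⟨nat_lit 0, nat_lit 100, nat_lit 100, nat_lit 90, nat_lit 366978819⟩]⟩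
noncomputable def p071_l145 : Lf2 := ⟨nat_lit 0, nat_lit 10, [nat_lit 0, nat_lit 5, nat_lit 5, nat_lit 20], false, nat_lit 160, nat_lit 240, nat_lit 0, nat_lit 160, ⟨nat_lit 1000, nat_lit 0, nat_lit 0, nat_lit 0, nat_lit 0, nat_lit 0, nat_lit 0, nat_lit 0, nat_lit 0, nat_lit 0, nat_lit 0, nat_lit 0, nat_lit 0, nat_lit 0, nat_lit 0, nat_lit 0, false, false⟩,
 nat_lit 10297, nat_lit 0, nat_lit 0, nat_lit 0, nat_lit 7128, nat_lit 6552, nat_lit 1372, nat_lit 0, nat_lit 0, nat_lit 256, nat_lit 0, nat_lit 0, nat_lit 0, nat_lit 0, nat_lit 0, nat_lit 0, nat_lit 0, nat_lit 0, [],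
 ⟨p071_k26, nat_lit 0, nat_lit 0, nat_lit 175, nat_lit 0, nat_lit 314732, [nat_lit 3282000000, nat_lit 4688000000, nat_lit 7968000000], [], [nat_lit 18909566000, nat_lit 17456614536, nat_lit 18325763512, nat_lit 19878902240, nat_lit 18600865288, nat_lit 20170068672, nat_lit 23584156904, nat_lit 22636757408], nat_lit 1271250, nat_lit 1271250, nat_lit 490000, nat_lit 1740000, nat_lit 1100001, nat_lit 1785000, [nat_lit 780000, nat_lit 1100000, nat_lit 1785000], [nat_lit 36, nat_lit 40, nat_lit 40, nat_lit 80, nat_lit 7, nat_lit 345, nat_lit 125, nat_lit 11]⟩, ⟨p071_k1, nat_lit 0, nat_lit 0, nat_lit 354, nat_lit 0, nat_lit 349890, [nat_lit 3282000000, nat_lit 4688000000, nat_lit 9842000000], [], [nat_lit 34307628928, nat_lit 30957077488, nat_lit 34154044288, nat_lit 32712703488, nat_lit 29622874496, nat_lit 28299336048, nat_lit 43487966368, nat_lit 40596267376], nat_lit 1271250, nat_lit 1271250, nat_lit 490000, nat_lit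 1740000, nat_lit 0, nat_lit 1100001, [nat_lit 780000, nat_lit 1100000, nat_lit 2127500], [nat_lit 42, nat_lit 40, nat_lit 40, nat_lit 80, nat_lit 13, nat_lit 317, nat_lit 100, nat_lit 9]⟩,
 zbF0, [⟨nat_lit 0, nat_lit 100, nat_lit 94, nat_lit 97, nat_lit 19012266⟩]⟩
noncomputable def p071_l146 : Lf2 := ⟨nat_lit 0, nat_lit 10, [nat_lit 0, nat_lit 5, nat_lit 5, nat_lit 20], false, nat_lit 160, nat_lit 200, nat_lit 160, nat_lit 336, ⟨nat_lit 507, nat_lit 0, nat_lit 493, nat_lit 7, nat_lit 159, nat_lit 493, nat_lit 143, nat_lit 493, nat_lit 190817, nat_lit 322, nat_lit 121536, nat_lit 300, nat_lit 49944920, nat_lit 0, nat_lit 0, nat_lit 3975466, false, false⟩,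
 nat_lit 10925, nat_lit 0, nat_lit 0, nat_lit 0, nat_lit 6952, nat_lit 5238, nat_lit 623, nat_lit 0, nat_lit 0, nat_lit 499, nat_lit 0, nat_lit 0, nat_lit 0, nat_lit 0, nat_lit 0, nat_lit 493000, nat_lit 0, nat_lit 0, [(nat_lit 12, [(nat_lit 6, nat_lit 493)])],
 ⟨p071_k29, nat_lit 0, nat_lit 0, nat_lit 322, nat_lit 0, nat_lit 450515, [nat_lit 2226585601, nat_lit 2612843200, nat_lit 2331243600], [], [nat_lit 16560570958, nat_lit 15125106434, nat_lit 13021763008, nat_lit 14483087824, nat_lit 14955603911, nat_lit 16405832335, nat_lit 14728100304, nat_lit 15685992256], nat_lit 1271250, nat_lit 1271250, nat_lit 382400, nat_lit 780000, nat_lit 1100001, nat_lit 1442500, [nat_lit 780000, nat_lit 1435000, nat_lit 1271250], [nat_lit 8, nat_lit 40, nat_lit 40, nat_lit 80, nat_lit 1, nat_lit 317, nat_lit 100, nat_lit 9]⟩, ⟨p071_k29, nat_lit 0, nat_lit 0, nat_lit 327, nat_lit 0, nat_lit 450515, [nat_lit 1663974000, nat_lit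 3168750000, nat_lit 4989894000], [], [nat_lit 8734997024, nat_lit 9465517623, nat_lit 7611918067, nat_lit 8443548403, nat_lit 14733710754, nat_lit 15801121893, nat_lit 15951529011, nat_lit 14268267911], nat_lit 1271250, nat_lit 1271250, nat_lit 382400, nat_lit 780000, nat_lit 1100001, nat_lit 2607000, [nat_lit 780000, nat_lit 1435000, nat_lit 1271250], [nat_lit 8, nat_lit 40, nat_lit 40, nat_lit 80, nat_lit 1, nat_lit 345, nat_lit 125, nat_lit 10]⟩,
 ⟨nat_lit 5000, nat_lit 5478, ⟨.ofNat (nat_lit 330654), .ofNat (nat_lit 435548), .ofNat (nat_lit 352005), .ofNat (nat_lit 456895), .ofNat (nat_lit 342856), .ofNat (nat_lit 442843), .ofNat (nat_lit 364277), .ofNat (nat_lit 464262)⟩, ⟨.ofNat (nat_lit 296923), .ofNat (nat_lit 371856), .ofNat (nat_lit 339637), .ofNat (nat_lit 414570), .ofNat (nat_lit 299999), .ofNat (nat_lit 371427), .ofNat (nat_lit 342856), .ofNat (nat_lit 414284)⟩⟩, [⟨nat_lit 0, nat_lit 100, nat_lit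 100, nat_lit 90, nat_lit 400837956⟩, ⟨nat_lit 7, nat_lit 94, nat_lit 100, nat_lit 97, nat_lit 305036424⟩]⟩
noncomputable def p071_l147 : Lf2 := ⟨nat_lit 0, nat_lit 10, [nat_lit 0, nat_lit 5, nat_lit 5, nat_lit 20], false, nat_lit 160, nat_lit 200, nat_lit 160, nat_lit 336, ⟨nat_lit 345, nat_lit 0, nat_lit 655, nat_lit 7, nat_lit 169, nat_lit 655, nat_lit 143, nat_lit 655, nat_lit 190817, nat_lit 322, nat_lit 92319, nat_lit 289, nat_lit 49114779, nat_lit 0, nat_lit 0, nat_lit 4085815, false, false⟩,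
 nat_lit 6490, nat_lit 0, nat_lit 0, nat_lit 0, nat_lit 4492, nat_lit 4129, nat_lit 230, nat_lit 0, nat_lit 0, nat_lit 94, nat_lit 0, nat_lit 0, nat_lit 0, nat_lit 0, nat_lit 29, nat_lit 655000, nat_lit 0, nat_lit 0, [(nat_lit 15, [(nat_lit 6, nat_lit 655)])],
 ⟨p071_k28, nat_lit 0, nat_lit 0, nat_lit 286, nat_lit 0, nat_lit 507102, [nat_lit 2122190000, nat_lit 1232894001, nat_lit 3066000], [], [nat_lit 14848867614, nat_lit 15934986163, nat_lit 15012361054, nat_lit 16129368675, nat_lit 15943468559, nat_lit 17232593928, nat_lit 16136390523, nat_lit 17230544227], nat_lit 1271250, nat_lit 1271250, nat_lit 490000, nat_lit 780000, nat_lit 1100001, nat_lit 1442500, [nat_lit 780000, nat_lit 1435000, nat_lit 1271250], [nat_lit 18, nat_lit 40, nat_lit 40, nat_lit 80, nat_lit 2, nat_lit 317, nat_lit 100, nat_lit 10]⟩, ⟨p071_k29, nat_lit 0, nat_lit 0, nat_lit 356, nat_lit 0, nat_lit 563749, [nat_lit 1132290000, nat_lit 2156250000,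 nat_lit 3395490000], [], [nat_lit 6518535186, nat_lit 7333899464, nat_lit 6099080086, nat_lit 6867951098, nat_lit 10384364926, nat_lit 10868196474, nat_lit 10305593032, nat_lit 10181333629], nat_lit 1271250, nat_lit 1271250, nat_lit 490000, nat_lit 780000, nat_lit 1100001, nat_lit 2607000, [nat_lit 780000, nat_lit 1435000, nat_lit 1271250], [nat_lit 8, nat_lit 40, nat_lit 40, nat_lit 80, nat_lit 1, nat_lit 345, nat_lit 125, nat_lit 9]⟩,
 ⟨nat_lit 4472, nat_lit 5000, ⟨.ofNat (nat_lit 371392), .ofNat (nat_lit 442816), .ofNat (nat_lit 392808), .ofNat (nat_lit 464232), .ofNat (nat_lit 382295), .ofNat (nat_lit 450269), .ofNat (nat_lit 403849), .ofNat (nat_lit 471823)⟩, ⟨.ofNat (nat_lit 299999), .ofNat (nat_lit 371427), .ofNat (nat_lit 342856), .ofNat (nat_lit 414284), .ofNat (nat_lit 302621), .ofNat (nat_lit 370600), .ofNat (nat_lit 345754), .ofNat (nat_lit 413733)⟩⟩, [⟨nat_lit 0, nat_lit 100, nat_lit 94, nat_lit 97,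 nat_lit 317249437⟩, ⟨nat_lit 19, nat_lit 100, nat_lit 80, nat_lit 100, nat_lit 101489056⟩, ⟨nat_lit 7, nat_lit 94, nat_lit 100, nat_lit 97, nat_lit 80099290⟩]⟩
noncomputable def p071_l148 : Lf2 := ⟨nat_lit 0, nat_lit 10, [nat_lit 0, nat_lit 5, nat_lit 5, nat_lit 20], false, nat_lit 200, nat_lit 240, nat_lit 160, nat_lit 240, ⟨nat_lit 903, nat_lit 0, nat_lit 97, nat_lit 7, nat_lit 161, nat_lit 97, nat_lit 171, nat_lit 97, nat_lit 50417, nat_lit 270, nat_lit 92033, nat_lit 289, nat_lit 47518214, nat_lit 0, nat_lit 0, nat_lit 4314407, false, false⟩,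
 nat_lit 14261, nat_lit 0, nat_lit 0, nat_lit 0, nat_lit 9075, nat_lit 9075, nat_lit 1007, nat_lit 0, nat_lit 0, nat_lit 1133, nat_lit 0, nat_lit 0, nat_lit 0, nat_lit 0, nat_lit 0, nat_lit 97000, nat_lit 0, nat_lit 0, [(nat_lit 12, [(nat_lit 6, nat_lit 97)]), (nat_lit 15, [(nat_lit 6, nat_lit 97)])],
 ⟨p071_k29, nat_lit 0, nat_lit 0, nat_lit 365, nat_lit 0, nat_lit 563749, [nat_lit 3074342400, nat_lit 5534372800, nat_lit 8377610400], [], [nat_lit 17510712105, nat_lit 20843547716, nat_lit 16036144625, nat_lit 18983742925, nat_lit 18725506236, nat_lit 22122071460, nat_lit 17203221400, nat_lit 20081678075], nat_lit 1271250, nat_lit 1271250, nat_lit 382400, nat_lit 780000, nat_lit 1271250, nat_lit 1271250, [nat_lit 780000, nat_lit 1435000, nat_lit 1271250], [nat_lit 8, nat_lit 40, nat_lit 40, nat_lit 80, nat_lit 1, nat_lit 317, nat_lit 100, nat_lit 9]⟩, ⟨p071_k29, nat_lit 0, nat_lit 0, nat_lit 366, nat_lit 0, nat_lit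 563749, [nat_lit 2963646000, nat_lit 5643750000, nat_lit 8887326000], [], [nat_lit 15860337816, nat_lit 15420815246, nat_lit 12472714013, nat_lit 14082350502, nat_lit 16428808836, nat_lit 17923590912, nat_lit 19161039036, nat_lit 16428880218], nat_lit 1271250, nat_lit 1271250, nat_lit 382400, nat_lit 780000, nat_lit 1100001, nat_lit 1785000, [nat_lit 780000, nat_lit 1435000, nat_lit 1271250], [nat_lit 8, nat_lit 40, nat_lit 40, nat_lit 80, nat_lit 1, nat_lit 317, nat_lit 100, nat_lit 9]⟩,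
 ⟨nat_lit 4472, nat_lit 5478, ⟨.ofNat (nat_lit 330579), .ofNat (nat_lit 435455), .ofNat (nat_lit 351903), .ofNat (nat_lit 456767), .ofNat (nat_lit 355064), .ofNat (nat_lit 450202), .ofNat (nat_lit 376597), .ofNat (nat_lit 471724)⟩, ⟨.ofNat (nat_lit 371856), .ofNat (nat_lit 446789), .ofNat (nat_lit 414570), .ofNat (nat_lit 489503), .ofNat (nat_lit 370600), .ofNat (nat_lit 438578), .ofNat (nat_lit 413733), .ofNat (nat_lit 481711)⟩⟩, [⟨nat_lit 0, nat_lit 94, nat_lit 87, nat_lit 100, nat_lit 690811918⟩]⟩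
noncomputable def p071_l149 : Lf2 := ⟨nat_lit 0, nat_lit 5, [nat_lit 4, nat_lit 5, nat_lit 5, nat_lit 20], false, nat_lit 200, nat_lit 240, nat_lit 240, nat_lit 336, ⟨nat_lit 898, nat_lit 0, nat_lit 102, nat_lit 7, nat_lit 161, nat_lit 102, nat_lit 171, nat_lit 102, nat_lit 50417, nat_lit 270, nat_lit 92033, nat_lit 289, nat_lit 47518214, nat_lit 0, nat_lit 0, nat_lit 4314407, false, false⟩,
 nat_lit 12064, nat_lit 0, nat_lit 0, nat_lit 0, nat_lit 7676, nat_lit 6539, nat_lit 1523, nat_lit 0, nat_lit 0, nat_lit 1091, nat_lit 0, nat_lit 0, nat_lit 0, nat_lit 0, nat_lit 0, nat_lit 102000, nat_lit 0, nat_lit 0, [(nat_lit 12, [(nat_lit 6, nat_lit 102)]), (nat_lit 15, [(nat_lit 6, nat_lit 102)])],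
 ⟨p071_k4, nat_lit 0, nat_lit 0, nat_lit 296, nat_lit 0, nat_lit 534913, [nat_lit 3047196000, nat_lit 4294728800, nat_lit 6758728800], [], [nat_lit 15099697309, nat_lit 19229859461, nat_lit 17015578720, nat_lit 17767777304, nat_lit 16681051938, nat_lit 21253671869, nat_lit 15572922296, nat_lit 19702130080], nat_lit 1271250, nat_lit 1271250, nat_lit 382400, nat_lit 780000, nat_lit 1271250, nat_lit 1271250, [nat_lit 780000, nat_lit 1100000, nat_lit 1785000], [nat_lit 36, nat_lit 40, nat_lit 40, nat_lit 80, nat_lit 7, nat_lit 317, nat_lit 100, nat_lit 10]⟩, ⟨p071_k4, nat_lit 0, nat_lit 0, nat_lit 306, nat_lit 0, nat_lit 534913, [nat_lit 2947236000, nat_lit 4209824000, nat_lit 7155264000], [], [nat_lit 18818530519, nat_lit 19816013241, nat_lit 18102272080, nat_lit 19028804650, nat_lit 23277040451, nat_lit 24788616010, nat_lit 21981742467, nat_lit 23164320485], nat_lit 1271250, nat_lit 1271250, nat_lit 382400, nat_lit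 780000, nat_lit 1271250, nat_lit 1271250, [nat_lit 780000, nat_lit 1100000, nat_lit 1785000], [nat_lit 36, nat_lit 40, nat_lit 40, nat_lit 80, nat_lit 7, nat_lit 238, nat_lit 30, nat_lit 7]⟩,
 ⟨nat_lit 4472, nat_lit 5478, ⟨.ofNat (nat_lit 330579), .ofNat (nat_lit 435455), .ofNat (nat_lit 351903), .ofNat (nat_lit 456767), .ofNat (nat_lit 355064), .ofNat (nat_lit 450202), .ofNat (nat_lit 376597), .ofNat (nat_lit 471724)⟩, ⟨.ofNat (nat_lit 371856), .ofNat (nat_lit 446789), .ofNat (nat_lit 414570), .ofNat (nat_lit 489503), .ofNat (nat_lit 370600), .ofNat (nat_lit 438578), .ofNat (nat_lit 413733), .ofNat (nat_lit 481711)⟩⟩, [⟨nat_lit 0, nat_lit 100, nat_lit 97, nat_lit 94, nat_lit 789030982⟩, ⟨nat_lit 19, nat_lit 100, nat_lit 80, nat_lit 100, nat_lit 409252079⟩, ⟨nat_lit 23, nat_lit 100, nat_lit 62, nat_lit 85, nat_lit 18126378⟩]⟩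
noncomputable def p071_l150 : Lf2 := ⟨nat_lit 0, nat_lit 10, [nat_lit 0, nat_lit 5, nat_lit 5, nat_lit 20], false, nat_lit 200, nat_lit 240, nat_lit 240, nat_lit 336, ⟨nat_lit 1000, nat_lit 0, nat_lit 0, nat_lit 0, nat_lit 0, nat_lit 0, nat_lit 0, nat_lit 0, nat_lit 0, nat_lit 0, nat_lit 0, nat_lit 0, nat_lit 0, nat_lit 0, nat_lit 0, nat_lit 0, false, false⟩,
 nat_lit 15709, nat_lit 0, nat_lit 0, nat_lit 8290, nat_lit 9996, nat_lit 8078, nat_lit 1262, nat_lit 0, nat_lit 0, nat_lit 1061, nat_lit 0, nat_lit 0, nat_lit 0, nat_lit 0, nat_lit 0, nat_lit 0, nat_lit 0, nat_lit 0, [],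
 ⟨p071_k29, nat_lit 0, nat_lit 0, nat_lit 189, nat_lit 0, nat_lit 237081, [nat_lit 3282000000, nat_lit 6250000000, nat_lit 9842000000], [], [nat_lit 16501541582, nat_lit 18438622172, nat_lit 14619124382, nat_lit 16418454142, nat_lit 18063368595, nat_lit 19820212230, nat_lit 16061472870, nat_lit 17693551862], nat_lit 1271250, nat_lit 1271250, nat_lit 382400, nat_lit 780000, nat_lit 1271250, nat_lit 1271250, [nat_lit 780000, nat_lit 1435000, nat_lit 1271250], [nat_lit 8, nat_lit 40, nat_lit 40, nat_lit 80, nat_lit 1, nat_lit 317, nat_lit 100, nat_lit 9]⟩, ⟨p071_k29, nat_lit 0, nat_lit 0, nat_lit 216, nat_lit 0, nat_lit 237081, [nat_lit 3282000000, nat_lit 6250000000, nat_lit 9842000000], [], [nat_lit 20380662352, nat_lit 21918487265, nat_lit 18972327785, nat_lit 20405410441, nat_lit 26741030584, nat_lit 28534208926, nat_lit 25122280834, nat_lit 26432293304], nat_lit 1271250, nat_lit 1271250, nat_lit 382400, nat_lit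 780000, nat_lit 1271250, nat_lit 1271250, [nat_lit 780000, nat_lit 1435000, nat_lit 1271250], [nat_lit 8, nat_lit 40, nat_lit 40, nat_lit 80, nat_lit 1, nat_lit 345, nat_lit 125, nat_lit 9]⟩,
 zbF0, [⟨nat_lit 0, nat_lit 100, nat_lit 100, nat_lit 90, nat_lit 930012914⟩, ⟨nat_lit 19, nat_lit 100, nat_lit 94, nat_lit 97, nat_lit 585789206⟩]⟩
noncomputable def p071_l151 : Lf2 := ⟨nat_lit 0, nat_lit 10, [nat_lit 0, nat_lit 5, nat_lit 5, nat_lit 20], false, nat_lit 200, nat_lit 240, nat_lit 240, nat_lit 336, ⟨nat_lit 1000, nat_lit 0, nat_lit 0, nat_lit 0, nat_lit 0, nat_lit 0, nat_lit 0, nat_lit 0, nat_lit 0, nat_lit 0, nat_lit 0, nat_lit 0, nat_lit 0, nat_lit 0, nat_lit 0, nat_lit 0, false, false⟩,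
 nat_lit 13711, nat_lit 918, nat_lit 0, nat_lit 0, nat_lit 10127, nat_lit 8724, nat_lit 529, nat_lit 0, nat_lit 0, nat_lit 974, nat_lit 0, nat_lit 0, nat_lit 0, nat_lit 0, nat_lit 0, nat_lit 0, nat_lit 0, nat_lit 0, [],
 ⟨p071_k28, nat_lit 0, nat_lit 0, nat_lit 186, nat_lit 0, nat_lit 314732, [nat_lit 3282000000, nat_lit 6250000000, nat_lit 7968000000], [], [nat_lit 17924145292, nat_lit 20087773075, nat_lit 16993248590, nat_lit 19035258861, nat_lit 19607701817, nat_lit 21593765948, nat_lit 18569880841, nat_lit 20421410327], nat_lit 1271250, nat_lit 1271250, nat_lit 490000, nat_lit 780000, nat_lit 1271250, nat_lit 1271250, [nat_lit 780000, nat_lit 1435000, nat_lit 1271250], [nat_lit 18, nat_lit 40, nat_lit 40, nat_lit 80, nat_lit 2, nat_lit 317, nat_lit 100, nat_lit 10]⟩, ⟨p071_k29, nat_lit 0, nat_lit 0, nat_lit 282, nat_lit 0, nat_lit 349890, [nat_lit 3282000000, nat_lit 6250000000, nat_lit 9842000000], [], [nat_lit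 20873988470, nat_lit 22082017998, nat_lit 20070275542, nat_lit 21210661046, nat_lit 26356903361, nat_lit 28214967596, nat_lit 25173256573, nat_lit 26905466410], nat_lit 1271250, nat_lit 1271250, nat_lit 490000, nat_lit 780000, nat_lit 1271250, nat_lit 1271250, [nat_lit 780000, nat_lit 1435000, nat_lit 1271250], [nat_lit 8, nat_lit 40, nat_lit 40, nat_lit 80, nat_lit 1, nat_lit 345, nat_lit 125, nat_lit 9]⟩,
 zbF0, [⟨nat_lit 0, nat_lit 100, nat_lit 94, nat_lit 97, nat_lit 921677431⟩, ⟨nat_lit 19, nat_lit 100, nat_lit 80, nat_lit 100, nat_lit 513612519⟩]⟩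
noncomputable def p071_l152 : Lf2 := ⟨nat_lit 0, nat_lit 10, [nat_lit 0, nat_lit 5, nat_lit 5, nat_lit 20], false, nat_lit 160, nat_lit 240, nat_lit 160, nat_lit 336, ⟨nat_lit 1000, nat_lit 0, nat_lit 0, nat_lit 0, nat_lit 0, nat_lit 0, nat_lit 0, nat_lit 0, nat_lit 0, nat_lit 0, nat_lit 0, nat_lit 0, nat_lit 0, nat_lit 0, nat_lit 0, nat_lit 0, false, false⟩,
 nat_lit 13539, nat_lit 0, nat_lit 0, nat_lit 0, nat_lit 8615, nat_lit 8615, nat_lit 1671, nat_lit 0, nat_lit 0, nat_lit 1149, nat_lit 0, nat_lit 0, nat_lit 0, nat_lit 0, nat_lit 0, nat_lit 0, nat_lit 0, nat_lit 0, [],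
 ⟨p071_k1, nat_lit 0, nat_lit 0, nat_lit 334, nat_lit 0, nat_lit 563749, [nat_lit 3282000000, nat_lit 4688000000, nat_lit 9842000000], [], [nat_lit 21608732920, nat_lit 17767157875, nat_lit 27176780435, nat_lit 20135528700, nat_lit 16975532175, nat_lit 19953127135, nat_lit 19272581520, nat_lit 23013914140], nat_lit 1271250, nat_lit 1271250, nat_lit 780000, nat_lit 1762500, nat_lit 1271250, nat_lit 1271250, [nat_lit 780000, nat_lit 1100000, nat_lit 2127500], [nat_lit 42, nat_lit 40, nat_lit 40, nat_lit 80, nat_lit 13, nat_lit 345, nat_lit 125, nat_lit 9]⟩, ⟨p071_k1, nat_lit 0, nat_lit 0, nat_lit 331, nat_lit 0, nat_lit 563749, [nat_lit 3282000000, nat_lit 4688000000, nat_lit 9842000000], [], [nat_lit 21608732920, nat_lit 18585911805, nat_lit 29778624185, nat_lit 25773493455, nat_lit 25723317834, nat_lit 26821576697, nat_lit 26981637765, nat_lit 28348933394], nat_lit 1271250, nat_lit 1271250, nat_lit 780000, nat_lit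 1762500, nat_lit 1271250, nat_lit 1271250, [nat_lit 780000, nat_lit 1100000, nat_lit 2127500], [nat_lit 42, nat_lit 40, nat_lit 40, nat_lit 80, nat_lit 13, nat_lit 373, nat_lit 150, nat_lit 10]⟩,
 zbF0, [⟨nat_lit 7, nat_lit 94, nat_lit 100, nat_lit 97, nat_lit 368611633⟩]⟩
noncomputable def b_V_700_700_20_34 : St := ⟨true, nat_lit 1, nat_lit 1, nat_lit 1, nat_lit 120, nat_lit 280, nat_lit 320, nat_lit 280, nat_lit 300, nat_lit 64, nat_lit 240, nat_lit 80, nat_lit 120, nat_lit 160, nat_lit 240, nat_lit 0, nat_lit 336, nat_lit 0, nat_lit 40, nat_lit 0, nat_lit 0, nat_lit 0, nat_lit 0⟩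
theorem d_V_700_700_20_34 (h : EB TB.env) : Dead b_V_700_700_20_34 := chkB_sound0 h (T :=
(.spl (nat_lit 5) (nat_lit 160)
(.spl (nat_lit 6) (nat_lit 20)
(.spl (nat_lit 2) (nat_lit 120)
(.leaf p071_l142)
(.leaf p071_l143))
(.spl (nat_lit 0) (nat_lit 300)
(.leaf p071_l144)
(.trZ (nat_lit 0) (nat_lit 100) (nat_lit 94) (nat_lit 88) (nat_lit 80) (.leaf p071_l145))))
(.spl (nat_lit 2) (nat_lit 120)
(.spl (nat_lit 4) (nat_lit 200)
(.spl (nat_lit 0) (nat_lit 300)
(.leaf p071_l146)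
(.trZ (nat_lit 0) (nat_lit 100) (nat_lit 94) (nat_lit 88) (nat_lit 80) (.leaf p071_l147)))
(.spl (nat_lit 5) (nat_lit 240)
(.leaf p071_l148)
(.spl (nat_lit 6) (nat_lit 20)
(.leaf p071_l149)
(.spl (nat_lit 0) (nat_lit 300)
(.leaf p071_l150)
(.trZ (nat_lit 0) (nat_lit 100) (nat_lit 94) (nat_lit 88) (nat_lit 80) (.leaf p071_l151))))))
(.leaf p071_l152)))) (by decide +kernel)

end B2
end Pool.Agent.Lib.MP_6947cd_al
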