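import Pool.Agent.Lib.MP_6947cd_al.ZB.Pre

/-!
Problem MP_6947cd_al (Chollet).  Case B, second entry in [2/5, 17/20]: certificates of the tree, part P072 (generated).
-/

set_option autoImplicit false
set_option linter.all false

namespace Pool.Agent.Lib.MP_6947cd_al
namespace B2

open Ent Fr B1 PkA

noncomputable def p072_k0 : C1.Kn := ⟨[nat_lit 60, nat_lit 100, nat_lit 140], [nat_lit 0, nat_lit 0, nat_lit 2047], [(nat_lit 0, nat_lit 0, nat_lit 0), (nat_lit 0, nat_lit 0, nat_lit 0), (nat_lit 1000, nat_lit 993, nat_lit 781)], (nat_lit 94, nat_lit 100, nat_lit 62)⟩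
noncomputable def p072_k1 : C1.Kn := ⟨[nat_lit 60, nat_lit 100], [nat_lit 0, nat_lit 302], [(nat_lit 0, nat_lit 0, nat_lit 0), (nat_lit 1000, nat_lit 953, nat_lit 118)], (nat_lit 89, nat_lit 100, nat_lit 44)⟩
noncomputable def p072_k2 : C1.Kn := ⟨[nat_lit 60, nat_lit 100, nat_lit 120], [nat_lit 0, nat_lit 0, nat_lit 1164], [(nat_lit 0, nat_lit 0, nat_lit 0), (nat_lit 0, nat_lit 0, nat_lit 0), (nat_lit 1000, nat_lit 933, nat_lit 572)], (nat_lit 92, nat_lit 100, nat_lit 44)⟩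
noncomputable def p072_k3 : C1.Kn := ⟨[nat_lit 60, nat_lit 100, nat_lit 120], [nat_lit 0, nat_lit 302, nat_lit 1376], [(nat_lit 0, nat_lit 0, nat_lit 0), (nat_lit 1000, nat_lit 953, nat_lit 118), (nat_lit 1000, nat_lit 911, nat_lit 628)], (nat_lit 91, nat_lit 100, nat_lit 61)⟩
noncomputable def p072_k4 : C1.Kn := ⟨[nat_lit 60, nat_lit 100, nat_lit 120], [nat_lit 0, nat_lit 609, nat_lit 1609], [(nat_lit 0, nat_lit 0, nat_lit 0), (nat_lit 1000, nat_lit 905, nat_lit 238), (nat_lit 1000, nat_lit 882, nat_lit 668)], (nat_lit 87, nat_lit 100, nat_lit 60)⟩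
noncomputable def p072_k5 : C1.Kn := ⟨[nat_lit 60, nat_lit 80, nat_lit 120], [nat_lit 0, nat_lit 0, nat_lit 1064], [(nat_lit 0, nat_lit 0, nat_lit 0), (nat_lit 0, nat_lit 0, nat_lit 0), (nat_lit 1000, nat_lit 917, nat_lit 415)], (nat_lit 92, nat_lit 100, nat_lit 44)⟩
noncomputable def p072_k6 : C1.Kn := ⟨[nat_lit 60, nat_lit 80, nat_lit 100], [nat_lit 0, nat_lit 151, nat_lit 679], [(nat_lit 0, nat_lit 0, nat_lit 0), (nat_lit 1000, nat_lit 953, nat_lit 118), (nat_lit 1000, nat_lit 894, nat_lit 411)], (nat_lit 89, nat_lit 100, nat_lit 44)⟩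
noncomputable def p072_k7 : C1.Kn := ⟨[nat_lit 60, nat_lit 80, nat_lit 120], [nat_lit 0, nat_lit 75, nat_lit 1136], [(nat_lit 0, nat_lit 0, nat_lit 0), (nat_lit 1000, nat_lit 977, nat_lit 59), (nat_lit 1000, nat_lit 905, nat_lit 414)], (nat_lit 91, nat_lit 100, nat_lit 44)⟩
noncomputable def p072_k8 : C1.Kn := ⟨[nat_lit 60, nat_lit 100, nat_lit 120], [nat_lit 0, nat_lit 0, nat_lit 1164], [(nat_lit 0, nat_lit 0, nat_lit 0), (nat_lit 0, nat_lit 0, nat_lit 0), (nat_lit 1000, nat_lit 933, nat_lit 572)], (nat_lit 93, nat_lit 100, nat_lit 55)⟩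
noncomputable def p072_k9 : C1.Kn := ⟨[nat_lit 60, nat_lit 100, nat_lit 120], [nat_lit 0, nat_lit 0, nat_lit 1164], [(nat_lit 0, nat_lit 0, nat_lit 0), (nat_lit 0, nat_lit 0, nat_lit 0), (nat_lit 1000, nat_lit 933, nat_lit 572)], (nat_lit 92, nat_lit 100, nat_lit 51)⟩
noncomputable def p072_k10 : C1.Kn := ⟨[nat_lit 60, nat_lit 100, nat_lit 120], [nat_lit 0, nat_lit 302, nat_lit 1376], [(nat_lit 0, nat_lit 0, nat_lit 0), (nat_lit 1000, nat_lit 953, nat_lit 118), (nat_lit 1000, nat_lit 911, nat_lit 628)], (nat_lit 90, nat_lit 100, nat_lit 55)⟩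
noncomputable def p072_k11 : C1.Kn := ⟨[nat_lit 60, nat_lit 80, nat_lit 100], [nat_lit 0, nat_lit 304, nat_lit 825], [(nat_lit 0, nat_lit 0, nat_lit 0), (nat_lit 1000, nat_lit 905, nat_lit 238), (nat_lit 1000, nat_lit 871, nat_lit 407)], (nat_lit 87, nat_lit 100, nat_lit 44)⟩
noncomputable def p072_k12 : C1.Kn := ⟨[nat_lit 60, nat_lit 100, nat_lit 120], [nat_lit 0, nat_lit 755, nat_lit 1734], [(nat_lit 0, nat_lit 0, nat_lit 0), (nat_lit 1000, nat_lit 882, nat_lit 294), (nat_lit 1000, nat_lit 866, nat_lit 684)], (nat_lit 85, nat_lit 100, nat_lit 60)⟩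
noncomputable def p072_k13 : C1.Kn := ⟨[nat_lit 60, nat_lit 100, nat_lit 120], [nat_lit 0, nat_lit 909, nat_lit 1866], [(nat_lit 0, nat_lit 0, nat_lit 0), (nat_lit 1000, nat_lit 858, nat_lit 354), (nat_lit 1000, nat_lit 849, nat_lit 705)], (nat_lit 84, nat_lit 100, nat_lit 60)⟩
noncomputable def p072_k14 : C1.Kn := ⟨[nat_lit 60, nat_lit 100, nat_lit 120], [nat_lit 0, nat_lit 609, nat_lit 1609], [(nat_lit 0, nat_lit 0, nat_lit 0), (nat_lit 1000, nat_lit 905, nat_lit 238), (nat_lit 1000, nat_lit 882, nat_lit 668)], (nat_lit 87, nat_lit 100, nat_lit 54)⟩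
noncomputable def p072_k15 : C1.Kn := ⟨[nat_lit 60, nat_lit 100], [nat_lit 0, nat_lit 909], [(nat_lit 0, nat_lit 0, nat_lit 0), (nat_lit 1000, nat_lit 858, nat_lit 354)], (nat_lit 84, nat_lit 100, nat_lit 54)⟩
noncomputable def p072_k16 : C1.Kn := ⟨[nat_lit 60, nat_lit 100, nat_lit 120], [nat_lit 0, nat_lit 909, nat_lit 1866], [(nat_lit 0, nat_lit 0, nat_lit 0), (nat_lit 1000, nat_lit 858, nat_lit 354), (nat_lit 1000, nat_lit 849, nat_lit 705)], (nat_lit 84, nat_lit 100, nat_lit 57)⟩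
noncomputable def p072_k17 : C1.Kn := ⟨[nat_lit 60, nat_lit 100, nat_lit 120], [nat_lit 0, nat_lit 0, nat_lit 1164], [(nat_lit 0, nat_lit 0, nat_lit 0), (nat_lit 0, nat_lit 0, nat_lit 0), (nat_lit 1000, nat_lit 933, nat_lit 572)], (nat_lit 93, nat_lit 100, nat_lit 58)⟩
noncomputable def p072_k18 : C1.Kn := ⟨[nat_lit 60, nat_lit 100, nat_lit 120], [nat_lit 0, nat_lit 1063, nat_lit 2005], [(nat_lit 0, nat_lit 0, nat_lit 0), (nat_lit 1000, nat_lit 834, nat_lit 414), (nat_lit 1000, nat_lit 833, nat_lit 732)], (nat_lit 82, nat_lit 100, nat_lit 60)⟩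
noncomputable def p072_k19 : C1.Kn := ⟨[nat_lit 60, nat_lit 100, nat_lit 140], [nat_lit 0, nat_lit 151, nat_lit 2175], [(nat_lit 0, nat_lit 0, nat_lit 0), (nat_lit 1000, nat_lit 977, nat_lit 59), (nat_lit 1000, nat_lit 974, nat_lit 785)], (nat_lit 92, nat_lit 100, nat_lit 61)⟩
noncomputable def p072_k20 : C1.Kn := ⟨[nat_lit 60, nat_lit 80, nat_lit 100], [nat_lit 0, nat_lit 228, nat_lit 751], [(nat_lit 0, nat_lit 0, nat_lit 0), (nat_lit 1000, nat_lit 929, nat_lit 178), (nat_lit 1000, nat_lit 883, nat_lit 407)], (nat_lit 88, nat_lit 100, nat_lit 44)⟩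
noncomputable def p072_k21 : C1.Kn := ⟨[nat_lit 60, nat_lit 80, nat_lit 120], [nat_lit 0, nat_lit 304, nat_lit 1346], [(nat_lit 0, nat_lit 0, nat_lit 0), (nat_lit 1000, nat_lit 905, nat_lit 238), (nat_lit 1000, nat_lit 871, nat_lit 407)], (nat_lit 87, nat_lit 100, nat_lit 60)⟩
noncomputable def p072_k22 : C1.Kn := ⟨[nat_lit 60, nat_lit 80, nat_lit 140], [nat_lit 0, nat_lit 0, nat_lit 1595], [(nat_lit 0, nat_lit 0, nat_lit 0), (nat_lit 0, nat_lit 0, nat_lit 0), (nat_lit 1000, nat_lit 917, nat_lit 415)], (nat_lit 94, nat_lit 100, nat_lit 62)⟩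
noncomputable def p072_k23 : C1.Kn := ⟨[nat_lit 60, nat_lit 80, nat_lit 120], [nat_lit 0, nat_lit 151, nat_lit 1205], [(nat_lit 0, nat_lit 0, nat_lit 0), (nat_lit 1000, nat_lit 953, nat_lit 118), (nat_lit 1000, nat_lit 894, nat_lit 411)], (nat_lit 91, nat_lit 100, nat_lit 61)⟩
noncomputable def p072_k24 : C1.Kn := ⟨[nat_lit 60, nat_lit 80, nat_lit 100], [nat_lit 0, nat_lit 456, nat_lit 976], [(nat_lit 0, nat_lit 0, nat_lit 0), (nat_lit 1000, nat_lit 859, nat_lit 351), (nat_lit 1000, nat_lit 848, nat_lit 406)], (nat_lit 84, nat_lit 100, nat_lit 54)⟩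
noncomputable def p072_k25 : C1.Kn := ⟨[nat_lit 60, nat_lit 80, nat_lit 120], [nat_lit 0, nat_lit 304, nat_lit 1346], [(nat_lit 0, nat_lit 0, nat_lit 0), (nat_lit 1000, nat_lit 905, nat_lit 238), (nat_lit 1000, nat_lit 871, nat_lit 407)], (nat_lit 87, nat_lit 100, nat_lit 54)⟩
noncomputable def p072_k26 : C1.Kn := ⟨[nat_lit 60, nat_lit 80, nat_lit 120], [nat_lit 0, nat_lit 228, nat_lit 1272], [(nat_lit 0, nat_lit 0, nat_lit 0), (nat_lit 1000, nat_lit 929, nat_lit 178), (nat_lit 1000, nat_lit 883, nat_lit 407)], (nat_lit 89, nat_lit 100, nat_lit 61)⟩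
noncomputable def p072_k27 : C1.Kn := ⟨[nat_lit 60, nat_lit 80, nat_lit 140], [nat_lit 0, nat_lit 75, nat_lit 1666], [(nat_lit 0, nat_lit 0, nat_lit 0), (nat_lit 1000, nat_lit 977, nat_lit 59), (nat_lit 1000, nat_lit 905, nat_lit 414)], (nat_lit 92, nat_lit 100, nat_lit 61)⟩
noncomputable def p072_k28 : C1.Kn := ⟨[nat_lit 60, nat_lit 80], [nat_lit 0, nat_lit 228], [(nat_lit 0, nat_lit 0, nat_lit 0), (nat_lit 1000, nat_lit 929, nat_lit 178)], (nat_lit 90, nat_lit 100, nat_lit 29)⟩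
noncomputable def p072_k29 : C1.Kn := ⟨[nat_lit 60, nat_lit 80], [nat_lit 0, nat_lit 272], [(nat_lit 0, nat_lit 0, nat_lit 0), (nat_lit 1000, nat_lit 915, nat_lit 212)], (nat_lit 89, nat_lit 100, nat_lit 29)⟩
noncomputable def p072_k30 : C1.Kn := ⟨[nat_lit 60, nat_lit 80, nat_lit 100], [nat_lit 0, nat_lit 0, nat_lit 534], [(nat_lit 0, nat_lit 0, nat_lit 0), (nat_lit 0, nat_lit 0, nat_lit 0), (nat_lit 1000, nat_lit 917, nat_lit 393)], (nat_lit 92, nat_lit 100, nat_lit 28)⟩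
noncomputable def p072_k31 : C1.Kn := ⟨[nat_lit 60, nat_lit 80, nat_lit 120], [nat_lit 0, nat_lit 456, nat_lit 1495], [(nat_lit 0, nat_lit 0, nat_lit 0), (nat_lit 1000, nat_lit 859, nat_lit 351), (nat_lit 1000, nat_lit 848, nat_lit 406)], (nat_lit 84, nat_lit 100, nat_lit 60)⟩
noncomputable def p072_k32 : C1.Kn := ⟨[nat_lit 60, nat_lit 80], [nat_lit 0, nat_lit 304], [(nat_lit 0, nat_lit 0, nat_lit 0), (nat_lit 1000, nat_lit 905, nat_lit 238)], (nat_lit 89, nat_lit 100, nat_lit 29)⟩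
noncomputable def p072_k33 : C1.Kn := ⟨[nat_lit 60, nat_lit 80], [nat_lit 0, nat_lit 456], [(nat_lit 0, nat_lit 0, nat_lit 0), (nat_lit 1000, nat_lit 859, nat_lit 351)], (nat_lit 87, nat_lit 100, nat_lit 29)⟩
noncomputable def p072_k34 : C1.Kn := ⟨[nat_lit 60, nat_lit 80], [nat_lit 0, nat_lit 379], [(nat_lit 0, nat_lit 0, nat_lit 0), (nat_lit 1000, nat_lit 882, nat_lit 294)], (nat_lit 88, nat_lit 100, nat_lit 29)⟩
noncomputable def p072_k35 : C1.Kn := ⟨[nat_lit 60, nat_lit 80, nat_lit 100], [nat_lit 0, nat_lit 456, nat_lit 976], [(nat_lit 0, nat_lit 0, nat_lit 0), (nat_lit 1000, nat_lit 859, nat_lit 351), (nat_lit 1000, nat_lit 848, nat_lit 406)], (nat_lit 84, nat_lit 100, nat_lit 44)⟩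
noncomputable def p072_k36 : C1.Kn := ⟨[nat_lit 60, nat_lit 80, nat_lit 100], [nat_lit 0, nat_lit 349, nat_lit 870], [(nat_lit 0, nat_lit 0, nat_lit 0), (nat_lit 1000, nat_lit 891, nat_lit 272), (nat_lit 1000, nat_lit 864, nat_lit 407)], (nat_lit 86, nat_lit 100, nat_lit 44)⟩
noncomputable def p072_k37 : C1.Kn := ⟨[nat_lit 60, nat_lit 80, nat_lit 100], [nat_lit 0, nat_lit 379, nat_lit 901], [(nat_lit 0, nat_lit 0, nat_lit 0), (nat_lit 1000, nat_lit 882, nat_lit 294), (nat_lit 1000, nat_lit 859, nat_lit 408)], (nat_lit 86, nat_lit 100, nat_lit 44)⟩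
noncomputable def p072_k38 : C1.Kn := ⟨[nat_lit 60, nat_lit 80, nat_lit 100], [nat_lit 0, nat_lit 426, nat_lit 944], [(nat_lit 0, nat_lit 0, nat_lit 0), (nat_lit 1000, nat_lit 867, nat_lit 332), (nat_lit 1000, nat_lit 852, nat_lit 405)], (nat_lit 85, nat_lit 100, nat_lit 44)⟩
noncomputable def p072_k39 : C1.Kn := ⟨[nat_lit 60, nat_lit 80, nat_lit 100], [nat_lit 0, nat_lit 502, nat_lit 1025], [(nat_lit 0, nat_lit 0, nat_lit 0), (nat_lit 1000, nat_lit 845, nat_lit 382), (nat_lit 1000, nat_lit 840, nat_lit 409)], (nat_lit 83, nat_lit 100, nat_lit 44)⟩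
noncomputable def p072_k40 : C1.Kn := ⟨[nat_lit 60, nat_lit 80, nat_lit 100], [nat_lit 0, nat_lit 533, nat_lit 1067], [(nat_lit 0, nat_lit 0, nat_lit 0), (nat_lit 1000, nat_lit 837, nat_lit 397), (nat_lit 1000, nat_lit 833, nat_lit 417)], (nat_lit 83, nat_lit 100, nat_lit 44)⟩
noncomputable def p072_k41 : C1.Kn := ⟨[nat_lit 60, nat_lit 80, nat_lit 100], [nat_lit 0, nat_lit 581, nat_lit 1141], [(nat_lit 0, nat_lit 0, nat_lit 0), (nat_lit 1000, nat_lit 827, nat_lit 411), (nat_lit 1000, nat_lit 822, nat_lit 438)], (nat_lit 82, nat_lit 100, nat_lit 44)⟩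
noncomputable def p072_k42 : C1.Kn := ⟨[nat_lit 60, nat_lit 80], [nat_lit 0, nat_lit 333], [(nat_lit 0, nat_lit 0, nat_lit 0), (nat_lit 1000, nat_lit 896, nat_lit 259)], (nat_lit 89, nat_lit 100, nat_lit 29)⟩
noncomputable def p072_k43 : C1.Kn := ⟨[nat_lit 60, nat_lit 80], [nat_lit 0, nat_lit 349], [(nat_lit 0, nat_lit 0, nat_lit 0), (nat_lit 1000, nat_lit 891, nat_lit 272)], (nat_lit 89, nat_lit 100, nat_lit 29)⟩
noncomputable def p072_k44 : C1.Kn := ⟨[nat_lit 60, nat_lit 80], [nat_lit 0, nat_lit 379], [(nat_lit 0, nat_lit 0, nat_lit 0), (nat_lit 1000, nat_lit 882, nat_lit 294)], (nat_lit 91, nat_lit 100, nat_lit 21)⟩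
noncomputable def p072_k45 : C1.Kn := ⟨[nat_lit 60, nat_lit 80], [nat_lit 0, nat_lit 304], [(nat_lit 0, nat_lit 0, nat_lit 0), (nat_lit 1000, nat_lit 905, nat_lit 238)], (nat_lit 91, nat_lit 100, nat_lit 21)⟩
noncomputable def p072_k46 : C1.Kn := ⟨[nat_lit 60, nat_lit 80], [nat_lit 0, nat_lit 395], [(nat_lit 0, nat_lit 0, nat_lit 0), (nat_lit 1000, nat_lit 877, nat_lit 307)], (nat_lit 91, nat_lit 100, nat_lit 21)⟩
noncomputable def p072_k47 : C1.Kn := ⟨[nat_lit 60, nat_lit 80], [nat_lit 0, nat_lit 410], [(nat_lit 0, nat_lit 0, nat_lit 0), (nat_lit 1000, nat_lit 872, nat_lit 319)], (nat_lit 90, nat_lit 100, nat_lit 21)⟩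
noncomputable def p072_k48 : C1.Kn := ⟨[nat_lit 60, nat_lit 80], [nat_lit 0, nat_lit 426], [(nat_lit 0, nat_lit 0, nat_lit 0), (nat_lit 1000, nat_lit 867, nat_lit 332)], (nat_lit 90, nat_lit 100, nat_lit 21)⟩
noncomputable def p072_k49 : C1.Kn := ⟨[nat_lit 50, nat_lit 70], [nat_lit 0, nat_lit 134], [(nat_lit 0, nat_lit 0, nat_lit 0), (nat_lit 1000, nat_lit 947, nat_lit 105)], (nat_lit 90, nat_lit 100, nat_lit 21)⟩
noncomputable def p072_k50 : C1.Kn := ⟨[nat_lit 60, nat_lit 80], [nat_lit 0, nat_lit 441], [(nat_lit 0, nat_lit 0, nat_lit 0), (nat_lit 1000, nat_lit 862, nat_lit 345)], (nat_lit 90, nat_lit 100, nat_lit 21)⟩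
noncomputable def p072_k51 : C1.Kn := ⟨[nat_lit 50, nat_lit 70], [nat_lit 0, nat_lit 153], [(nat_lit 0, nat_lit 0, nat_lit 0), (nat_lit 1000, nat_lit 940, nat_lit 120)], (nat_lit 90, nat_lit 100, nat_lit 21)⟩
noncomputable def p072_l0 : Lf2 := ⟨nat_lit 0, nat_lit 10, [nat_lit 0, nat_lit 5, nat_lit 5, nat_lit 20], false, nat_lit 240, nat_lit 336, nat_lit 0, nat_lit 160, ⟨nat_lit 1000, nat_lit 0, nat_lit 0, nat_lit 0, nat_lit 0, nat_lit 0, nat_lit 0, nat_lit 0, nat_lit 0, nat_lit 0, nat_lit 0, nat_lit 0, nat_lit 0, nat_lit 0, nat_lit 0, nat_lit 0, false, false⟩,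
 nat_lit 15080, nat_lit 0, nat_lit 0, nat_lit 1199, nat_lit 8323, nat_lit 9596, nat_lit 965, nat_lit 0, nat_lit 0, nat_lit 1520, nat_lit 0, nat_lit 0, nat_lit 0, nat_lit 10625806489126, nat_lit 0, nat_lit 0, nat_lit 0, nat_lit 0, [],
 ⟨p072_k0, nat_lit 0, nat_lit 0, nat_lit 288, nat_lit 0, nat_lit 341911, [nat_lit 3282000000, nat_lit 6250000000, nat_lit 9842000000], [], [nat_lit 22237525663, nat_lit 22836465988, nat_lit 20775531721, nat_lit 21294034634, nat_lit 27358163250, nat_lit 27908174537, nat_lit 25608202789, nat_lit 26083861453], nat_lit 1271250, nat_lit 1271250, nat_lit 382400, nat_lit 1100001, nat_lit 1271250, nat_lit 1271250, [nat_lit 780000, nat_lit 1435000, nat_lit 1271250], [nat_lit 8, nat_lit 40, nat_lit 40, nat_lit 80, nat_lit 1, nat_lit 345, nat_lit 125, nat_lit 9]⟩, ⟨p072_k0, nat_lit 0, nat_lit 0, nat_lit 372, nat_lit 0, nat_lit 341911, [nat_lit 3282000000, nat_lit 6250000000, nat_lit 9842000000],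 [], [nat_lit 21283872292, nat_lit 22460879348, nat_lit 20434344896, nat_lit 21450547504, nat_lit 16073990999, nat_lit 16814524580, nat_lit 24855891808, nat_lit 22654703752], nat_lit 1271250, nat_lit 1271250, nat_lit 382400, nat_lit 1100001, nat_lit 0, nat_lit 1100001, [nat_lit 780000, nat_lit 1435000, nat_lit 1271250], [nat_lit 8, nat_lit 40, nat_lit 40, nat_lit 80, nat_lit 1, nat_lit 317, nat_lit 100, nat_lit 9]⟩,
 zbF0, [⟨nat_lit 0, nat_lit 100, nat_lit 100, nat_lit 90, nat_lit 274818706⟩, ⟨nat_lit 16, nat_lit 100, nat_lit 80, nat_lit 100, nat_lit 171073083⟩, ⟨nat_lit 4, nat_lit 91, nat_lit 100, nat_lit 96, nat_lit 339966594⟩]⟩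
noncomputable def p072_l1 : Lf2 := ⟨nat_lit 0, nat_lit 5, [nat_lit 4, nat_lit 5, nat_lit 5, nat_lit 20], false, nat_lit 240, nat_lit 328, nat_lit 0, nat_lit 160, ⟨nat_lit 1000, nat_lit 0, nat_lit 0, nat_lit 0, nat_lit 0, nat_lit 0, nat_lit 0, nat_lit 0, nat_lit 0, nat_lit 0, nat_lit 0, nat_lit 0, nat_lit 0, nat_lit 0, nat_lit 0, nat_lit 0, false, false⟩,
 nat_lit 14229, nat_lit 0, nat_lit 0, nat_lit 0, nat_lit 6406, nat_lit 9054, nat_lit 2684, nat_lit 0, nat_lit 0, nat_lit 0, nat_lit 0, nat_lit 0, nat_lit 0, nat_lit 0, nat_lit 0, nat_lit 0, nat_lit 0, nat_lit 0, [],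
 ⟨p072_k1, nat_lit 0, nat_lit 0, nat_lit 217, nat_lit 0, nat_lit 405413, [nat_lit 3282000000, nat_lit 6250000000], [], [nat_lit 20216938481, nat_lit 20774061982, nat_lit 20082207936, nat_lit 20572649800, nat_lit 24621038322, nat_lit 25420161019, nat_lit 23913880309, nat_lit 24442761307], nat_lit 1271250, nat_lit 1271250, nat_lit 435600, nat_lit 1100001, nat_lit 1271250, nat_lit 1271250, [nat_lit 780000, nat_lit 1435000], [nat_lit 49, nat_lit 40, nat_lit 40, nat_lit 80, nat_lit 16, nat_lit 249, nat_lit 40, nat_lit 8]⟩, ⟨p072_k2, nat_lit 0, nat_lit 0, nat_lit 369, nat_lit 0, nat_lit 427471, [nat_lit 3282000000, nat_lit 6250000000, nat_lit 7968000000], [], [nat_lit 29492273237, nat_lit 29132753289, nat_lit 26742753024, nat_lit 28079940064, nat_lit 22631751575, nat_lit 23887329644, nat_lit 25843823392, nat_lit 22792507972], nat_lit 1271250, nat_lit 1271250, nat_lit 435600, nat_lit 1100001, nat_lit 0, nat_lit 1100001, [nat_lit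 780000, nat_lit 1435000, nat_lit 1271250], [nat_lit 18, nat_lit 40, nat_lit 40, nat_lit 80, nat_lit 2, nat_lit 317, nat_lit 100, nat_lit 11]⟩,
 zbF0, [⟨nat_lit 0, nat_lit 100, nat_lit 97, nat_lit 84, nat_lit 549002315⟩, ⟨nat_lit 16, nat_lit 97, nat_lit 84, nat_lit 100, nat_lit 511511283⟩]⟩
noncomputable def p072_l2 : Lf2 := ⟨nat_lit 0, nat_lit 10, [nat_lit 0, nat_lit 5, nat_lit 5, nat_lit 20], false, nat_lit 240, nat_lit 328, nat_lit 0, nat_lit 160, ⟨nat_lit 1000, nat_lit 0, nat_lit 0, nat_lit 0, nat_lit 0, nat_lit 0, nat_lit 0, nat_lit 0, nat_lit 0, nat_lit 0, nat_lit 0, nat_lit 0, nat_lit 0, nat_lit 0, nat_lit 0, nat_lit 0, false, false⟩,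
 nat_lit 14769, nat_lit 0, nat_lit 0, nat_lit 2657, nat_lit 8872, nat_lit 9398, nat_lit 446, nat_lit 0, nat_lit 0, nat_lit 1459, nat_lit 0, nat_lit 0, nat_lit 0, nat_lit 1777203009852, nat_lit 0, nat_lit 0, nat_lit 0, nat_lit 0, [],
 ⟨p072_k3, nat_lit 0, nat_lit 0, nat_lit 179, nat_lit 0, nat_lit 224651, [nat_lit 3282000000, nat_lit 6250000000, nat_lit 7968000000], [], [nat_lit 20713342722, nat_lit 21619531786, nat_lit 19676481416, nat_lit 20468517488, nat_lit 27226781299, nat_lit 27913144022, nat_lit 25365632888, nat_lit 25967098559], nat_lit 1271250, nat_lit 1271250, nat_lit 435600, nat_lit 1100001, nat_lit 1271250, nat_lit 1271250, [nat_lit 780000, nat_lit 1435000, nat_lit 1271250], [nat_lit 18, nat_lit 40, nat_lit 40, nat_lit 80, nat_lit 2, nat_lit 249, nat_lit 40, nat_lit 7]⟩, ⟨p072_k0, nat_lit 0, nat_lit 0, nat_lit 333, nat_lit 0, nat_lit 237081, [nat_lit 3282000000, nat_lit 6250000000, nat_lit 9842000000], [],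 [nat_lit 21107363173, nat_lit 23407175612, nat_lit 20689730048, nat_lit 22693604256, nat_lit 16973841010, nat_lit 17797045110, nat_lit 25216796704, nat_lit 20905257448], nat_lit 1271250, nat_lit 1271250, nat_lit 435600, nat_lit 1100001, nat_lit 0, nat_lit 1100001, [nat_lit 780000, nat_lit 1435000, nat_lit 1271250], [nat_lit 8, nat_lit 40, nat_lit 40, nat_lit 80, nat_lit 1, nat_lit 317, nat_lit 100, nat_lit 9]⟩,
 zbF0, [⟨nat_lit 0, nat_lit 100, nat_lit 99, nat_lit 92, nat_lit 299437478⟩, ⟨nat_lit 16, nat_lit 97, nat_lit 84, nat_lit 100, nat_lit 586820213⟩]⟩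
noncomputable def p072_l3 : Lf2 := ⟨nat_lit 0, nat_lit 10, [nat_lit 0, nat_lit 5, nat_lit 5, nat_lit 20], false, nat_lit 240, nat_lit 320, nat_lit 0, nat_lit 160, ⟨nat_lit 1000, nat_lit 0, nat_lit 0, nat_lit 0, nat_lit 0, nat_lit 0, nat_lit 0, nat_lit 0, nat_lit 0, nat_lit 0, nat_lit 0, nat_lit 0, nat_lit 0, nat_lit 0, nat_lit 0, nat_lit 0, false, false⟩,
 nat_lit 14788, nat_lit 0, nat_lit 0, nat_lit 0, nat_lit 5963, nat_lit 9410, nat_lit 1594, nat_lit 0, nat_lit 0, nat_lit 761, nat_lit 0, nat_lit 0, nat_lit 0, nat_lit 0, nat_lit 0, nat_lit 0, nat_lit 0, nat_lit 0, [],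
 ⟨p072_k4, nat_lit 0, nat_lit 0, nat_lit 294, nat_lit 0, nat_lit 507102, [nat_lit 3282000000, nat_lit 6250000000, nat_lit 7968000000], [], [nat_lit 20737118098, nat_lit 21803105476, nat_lit 20815791400, nat_lit 21777607850, nat_lit 24152419222, nat_lit 25459420404, nat_lit 23911080420, nat_lit 24912512404], nat_lit 1271250, nat_lit 1271250, nat_lit 490000, nat_lit 1100001, nat_lit 1271250, nat_lit 1271250, [nat_lit 780000, nat_lit 1435000, nat_lit 1271250], [nat_lit 18, nat_lit 40, nat_lit 40, nat_lit 80, nat_lit 2, nat_lit 249, nat_lit 40, nat_lit 7]⟩, ⟨p072_k0, nat_lit 0, nat_lit 0, nat_lit 488, nat_lit 0, nat_lit 563749, [nat_lit 3282000000, nat_lit 6250000000, nat_lit 9842000000], [], [nat_lit 27401455280, nat_lit 27362710705, nat_lit 25039709765, nat_lit 26260993445, nat_lit 20277545405, nat_lit 21414520205, nat_lit 25194923680, nat_lit 20877879160], nat_lit 1271250, nat_lit 1271250, nat_lit 490000, nat_lit 1100001,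 nat_lit 0, nat_lit 1100001, [nat_lit 780000, nat_lit 1435000, nat_lit 1271250], [nat_lit 8, nat_lit 40, nat_lit 40, nat_lit 80, nat_lit 1, nat_lit 317, nat_lit 100, nat_lit 9]⟩,
 zbF0, [⟨nat_lit 0, nat_lit 100, nat_lit 94, nat_lit 97, nat_lit 441034388⟩, ⟨nat_lit 4, nat_lit 100, nat_lit 93, nat_lit 97, nat_lit 507117072⟩]⟩
noncomputable def b_V_700_700_20_35 : St := ⟨true, nat_lit 1, nat_lit 1, nat_lit 1, nat_lit 120, nat_lit 280, nat_lit 320, nat_lit 280, nat_lit 300, nat_lit 64, nat_lit 160, nat_lit 80, nat_lit 120, nat_lit 240, nat_lit 336, nat_lit 0, nat_lit 160, nat_lit 0, nat_lit 40, nat_lit 0, nat_lit 0, nat_lit 0, nat_lit 0⟩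
theorem d_V_700_700_20_35 (h : EB TB.env) : Dead b_V_700_700_20_35 := chkB_sound0 h (T :=
(.spl (nat_lit 0) (nat_lit 300)
(.spl (nat_lit 0) (nat_lit 290)
(.ord (.leaf p072_l0))
(.trZ (nat_lit 0) (nat_lit 100) (nat_lit 97) (nat_lit 84) (nat_lit 72) (.trX (nat_lit 16) (nat_lit 97) (nat_lit 84) (nat_lit 100) (nat_lit 328) (.spl (nat_lit 6) (nat_lit 20)
(.leaf p072_l1)
(.leaf p072_l2)))))
(.trZ (nat_lit 0) (nat_lit 100) (nat_lit 94) (nat_lit 88) (nat_lit 80) (.trX (nat_lit 16) (nat_lit 94) (nat_lit 88) (nat_lit 100) (nat_lit 320) (.leaf p072_l3))))) (by decide +kernel)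
noncomputable def p072_l4 : Lf2 := ⟨nat_lit 0, nat_lit 10, [nat_lit 0, nat_lit 5, nat_lit 5, nat_lit 20], false, nat_lit 240, nat_lit 336, nat_lit 160, nat_lit 240, ⟨nat_lit 1000, nat_lit 0, nat_lit 0, nat_lit 0, nat_lit 0, nat_lit 0, nat_lit 0, nat_lit 0, nat_lit 0, nat_lit 0, nat_lit 0, nat_lit 0, nat_lit 0, nat_lit 0, nat_lit 0, nat_lit 0, false, false⟩,
 nat_lit 17493, nat_lit 0, nat_lit 0, nat_lit 26, nat_lit 8542, nat_lit 11131, nat_lit 979, nat_lit 0, nat_lit 0, nat_lit 1316, nat_lit 0, nat_lit 0, nat_lit 0, nat_lit 14361923273846, nat_lit 0, nat_lit 0, nat_lit 0, nat_lit 0, [],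
 ⟨p072_k0, nat_lit 0, nat_lit 0, nat_lit 308, nat_lit 0, nat_lit 397466, [nat_lit 3282000000, nat_lit 6250000000, nat_lit 9842000000], [], [nat_lit 21801194126, nat_lit 23016233426, nat_lit 21149806135, nat_lit 22343926859, nat_lit 27219605966, nat_lit 29076116939, nat_lit 26367277860, nat_lit 28030558862], nat_lit 1271250, nat_lit 1271250, nat_lit 382400, nat_lit 490000, nat_lit 1271250, nat_lit 1271250, [nat_lit 780000, nat_lit 1435000, nat_lit 1271250], [nat_lit 8, nat_lit 40, nat_lit 40, nat_lit 80, nat_lit 1, nat_lit 345, nat_lit 125, nat_lit 9]⟩, ⟨p072_k0, nat_lit 0, nat_lit 0, nat_lit 298, nat_lit 0, nat_lit 397466, [nat_lit 3282000000, nat_lit 6250000000, nat_lit 9842000000], [], [nat_lit 16276531531, nat_lit 15014280089, nat_lit 12850250064, nat_lit 13972216735, nat_lit 17168392235, nat_lit 18725866644, nat_lit 16041928548, nat_lit 17470737694], nat_lit 1271250, nat_lit 1271250, nat_lit 382400, nat_lit 490000,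 nat_lit 1100001, nat_lit 1785000, [nat_lit 780000, nat_lit 1435000, nat_lit 1271250], [nat_lit 8, nat_lit 40, nat_lit 40, nat_lit 80, nat_lit 1, nat_lit 317, nat_lit 100, nat_lit 9]⟩,
 zbF0, [⟨nat_lit 0, nat_lit 100, nat_lit 99, nat_lit 87, nat_lit 1265546217⟩, ⟨nat_lit 16, nat_lit 100, nat_lit 94, nat_lit 97, nat_lit 535731300⟩]⟩
noncomputable def p072_l5 : Lf2 := ⟨nat_lit 0, nat_lit 10, [nat_lit 0, nat_lit 5, nat_lit 5, nat_lit 20], false, nat_lit 240, nat_lit 336, nat_lit 160, nat_lit 240, ⟨nat_lit 1000, nat_lit 0, nat_lit 0, nat_lit 0, nat_lit 0, nat_lit 0, nat_lit 0, nat_lit 0, nat_lit 0, nat_lit 0, nat_lit 0, nat_lit 0, nat_lit 0, nat_lit 0, nat_lit 0, nat_lit 0, false, false⟩,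
 nat_lit 16564, nat_lit 0, nat_lit 0, nat_lit 0, nat_lit 8614, nat_lit 10540, nat_lit 1061, nat_lit 0, nat_lit 0, nat_lit 1308, nat_lit 0, nat_lit 0, nat_lit 0, nat_lit 0, nat_lit 0, nat_lit 0, nat_lit 0, nat_lit 0, [],
 ⟨p072_k0, nat_lit 0, nat_lit 0, nat_lit 341, nat_lit 0, nat_lit 515621, [nat_lit 3282000000, nat_lit 6250000000, nat_lit 9842000000], [], [nat_lit 20503494545, nat_lit 23082004608, nat_lit 19719391537, nat_lit 22354003336, nat_lit 26261940247, nat_lit 29946594575, nat_lit 25355147381, nat_lit 28573286217], nat_lit 1271250, nat_lit 1271250, nat_lit 490000, nat_lit 780000, nat_lit 1271250, nat_lit 1271250, [nat_lit 780000, nat_lit 1435000, nat_lit 1271250], [nat_lit 8, nat_lit 40, nat_lit 40, nat_lit 80, nat_lit 1, nat_lit 345, nat_lit 125, nat_lit 9]⟩, ⟨p072_k0, nat_lit 0, nat_lit 0, nat_lit 334, nat_lit 0, nat_lit 515621, [nat_lit 3282000000, nat_lit 6250000000, nat_lit 9842000000], [], [nat_lit 13496090860,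 nat_lit 14426935400, nat_lit 12717876160, nat_lit 13668945820, nat_lit 16537710720, nat_lit 17376935300, nat_lit 16580855760, nat_lit 16459993660], nat_lit 1271250, nat_lit 1271250, nat_lit 490000, nat_lit 780000, nat_lit 1100001, nat_lit 1785000, [nat_lit 780000, nat_lit 1435000, nat_lit 1271250], [nat_lit 8, nat_lit 40, nat_lit 40, nat_lit 80, nat_lit 1, nat_lit 317, nat_lit 100, nat_lit 9]⟩,
 zbF0, [⟨nat_lit 0, nat_lit 100, nat_lit 96, nat_lit 91, nat_lit 694376702⟩, ⟨nat_lit 16, nat_lit 100, nat_lit 80, nat_lit 100, nat_lit 70808132⟩, ⟨nat_lit 4, nat_lit 100, nat_lit 100, nat_lit 100, nat_lit 477035827⟩]⟩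
noncomputable def b_V_700_700_20_36 : St := ⟨true, nat_lit 1, nat_lit 1, nat_lit 1, nat_lit 120, nat_lit 280, nat_lit 320, nat_lit 280, nat_lit 290, nat_lit 64, nat_lit 120, nat_lit 80, nat_lit 120, nat_lit 240, nat_lit 336, nat_lit 160, nat_lit 240, nat_lit 0, nat_lit 40, nat_lit 0, nat_lit 0, nat_lit 0, nat_lit 0⟩
theorem d_V_700_700_20_36 (h : EB TB.env) : Dead b_V_700_700_20_36 := chkB_sound0 h (T :=
(.spl (nat_lit 2) (nat_lit 80)
(.spl (nat_lit 0) (nat_lit 300)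
(.leaf p072_l4)
(.emL (nat_lit 0) (nat_lit 100) (nat_lit 94) (nat_lit 88)))
(.leaf p072_l5))) (by decide +kernel)
noncomputable def p072_l6 : Lf2 := ⟨nat_lit 0, nat_lit 5, [nat_lit 4, nat_lit 5, nat_lit 5, nat_lit 20], false, nat_lit 240, nat_lit 280, nat_lit 240, nat_lit 336, ⟨nat_lit 1000, nat_lit 0, nat_lit 0, nat_lit 0, nat_lit 0, nat_lit 0, nat_lit 0, nat_lit 0, nat_lit 0, nat_lit 0, nat_lit 0, nat_lit 0, nat_lit 0, nat_lit 0, nat_lit 0, nat_lit 0, false, false⟩,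
 nat_lit 11661, nat_lit 0, nat_lit 0, nat_lit 0, nat_lit 7420, nat_lit 7420, nat_lit 1578, nat_lit 0, nat_lit 0, nat_lit 1090, nat_lit 0, nat_lit 0, nat_lit 0, nat_lit 0, nat_lit 0, nat_lit 0, nat_lit 0, nat_lit 0, [],
 ⟨p072_k5, nat_lit 0, nat_lit 0, nat_lit 186, nat_lit 0, nat_lit 324422, [nat_lit 3282000000, nat_lit 4688000000, nat_lit 7968000000], [], [nat_lit 17890524592, nat_lit 18707286652, nat_lit 16856678800, nat_lit 17617833580, nat_lit 20608337649, nat_lit 21338615040, nat_lit 19391189440, nat_lit 20072635960], nat_lit 1271250, nat_lit 1271250, nat_lit 382400, nat_lit 780000, nat_lit 1271250, nat_lit 1271250, [nat_lit 780000, nat_lit 1100000, nat_lit 1785000], [nat_lit 36, nat_lit 40, nat_lit 40, nat_lit 80, nat_lit 7, nat_lit 238, nat_lit 30, nat_lit 7]⟩, ⟨p072_k5, nat_lit 0, nat_lit 0, nat_lit 225, nat_lit 0, nat_lit 324422, [nat_lit 3282000000, nat_lit 4688000000, nat_lit 7968000000], [], [nat_lit 20001473088,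 nat_lit 20680393712, nat_lit 19114800320, nat_lit 19746185420, nat_lit 26307634535, nat_lit 26916226202, nat_lit 24820027392, nat_lit 25389272876], nat_lit 1271250, nat_lit 1271250, nat_lit 382400, nat_lit 780000, nat_lit 1271250, nat_lit 1271250, [nat_lit 780000, nat_lit 1100000, nat_lit 1785000], [nat_lit 36, nat_lit 40, nat_lit 40, nat_lit 80, nat_lit 7, nat_lit 238, nat_lit 30, nat_lit 7]⟩,
 zbF0, [⟨nat_lit 0, nat_lit 100, nat_lit 100, nat_lit 90, nat_lit 339116695⟩, ⟨nat_lit 19, nat_lit 100, nat_lit 91, nat_lit 96, nat_lit 143657141⟩, ⟨nat_lit 11, nat_lit 100, nat_lit 100, nat_lit 96, nat_lit 452956043⟩]⟩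
noncomputable def p072_l7 : Lf2 := ⟨nat_lit 0, nat_lit 5, [nat_lit 4, nat_lit 5, nat_lit 5, nat_lit 20], false, nat_lit 240, nat_lit 280, nat_lit 240, nat_lit 336, ⟨nat_lit 1000, nat_lit 0, nat_lit 0, nat_lit 0, nat_lit 0, nat_lit 0, nat_lit 0, nat_lit 0, nat_lit 0, nat_lit 0, nat_lit 0, nat_lit 0, nat_lit 0, nat_lit 0, nat_lit 0, nat_lit 0, false, false⟩,
 nat_lit 10669, nat_lit 0, nat_lit 0, nat_lit 0, nat_lit 7085, nat_lit 6789, nat_lit 1002, nat_lit 0, nat_lit 0, nat_lit 1413, nat_lit 0, nat_lit 0, nat_lit 0, nat_lit 0, nat_lit 0, nat_lit 0, nat_lit 0, nat_lit 0, [],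
 ⟨p072_k6, nat_lit 0, nat_lit 0, nat_lit 172, nat_lit 0, nat_lit 357675, [nat_lit 3282000000, nat_lit 4688000000, nat_lit 6250000000], [], [nat_lit 18176538541, nat_lit 19042410426, nat_lit 17575800615, nat_lit 18389139920, nat_lit 20985082084, nat_lit 21760717699, nat_lit 20216992673, nat_lit 20945811585], nat_lit 1271250, nat_lit 1271250, nat_lit 435600, nat_lit 780000, nat_lit 1271250, nat_lit 1271250, [nat_lit 780000, nat_lit 1100000, nat_lit 1442500], [nat_lit 59, nat_lit 40, nat_lit 40, nat_lit 80, nat_lit 3, nat_lit 238, nat_lit 30, nat_lit 8]⟩, ⟨p072_k5, nat_lit 0, nat_lit 0, nat_lit 250, nat_lit 0, nat_lit 377135, [nat_lit 3282000000, nat_lit 4688000000, nat_lit 7968000000], [], [nat_lit 19782374793, nat_lit 20423023967, nat_lit 19272287444, nat_lit 19874012389, nat_lit 25154375792, nat_lit 25839168748, nat_lit 24320534492, nat_lit 24778414419], nat_lit 1271250, nat_lit 1271250, nat_lit 435600, nat_lit 780000,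 nat_lit 1271250, nat_lit 1271250, [nat_lit 780000, nat_lit 1100000, nat_lit 1785000], [nat_lit 36, nat_lit 40, nat_lit 40, nat_lit 80, nat_lit 7, nat_lit 238, nat_lit 30, nat_lit 7]⟩,
 zbF0, [⟨nat_lit 0, nat_lit 100, nat_lit 97, nat_lit 94, nat_lit 401756237⟩, ⟨nat_lit 19, nat_lit 100, nat_lit 91, nat_lit 96, nat_lit 164229857⟩, ⟨nat_lit 11, nat_lit 100, nat_lit 100, nat_lit 98, nat_lit 364957625⟩]⟩
noncomputable def p072_l8 : Lf2 := ⟨nat_lit 0, nat_lit 5, [nat_lit 4, nat_lit 5, nat_lit 5, nat_lit 20], false, nat_lit 280, nat_lit 336, nat_lit 240, nat_lit 336, ⟨nat_lit 1000, nat_lit 0, nat_lit 0, nat_lit 0, nat_lit 0, nat_lit 0, nat_lit 0, nat_lit 0, nat_lit 0, nat_lit 0, nat_lit 0, nat_lit 0, nat_lit 0, nat_lit 0, nat_lit 0, nat_lit 0, false, false⟩,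
 nat_lit 10151, nat_lit 0, nat_lit 0, nat_lit 0, nat_lit 6459, nat_lit 6459, nat_lit 1748, nat_lit 0, nat_lit 0, nat_lit 1706, nat_lit 0, nat_lit 0, nat_lit 0, nat_lit 0, nat_lit 0, nat_lit 0, nat_lit 0, nat_lit 0, [],
 ⟨p072_k5, nat_lit 0, nat_lit 0, nat_lit 188, nat_lit 0, nat_lit 272886, [nat_lit 3282000000, nat_lit 4688000000, nat_lit 7968000000], [], [nat_lit 20535394110, nat_lit 20873162277, nat_lit 19639116392, nat_lit 19933941426, nat_lit 25073971068, nat_lit 25466320903, nat_lit 23730372507, nat_lit 24054149672], nat_lit 1271250, nat_lit 1271250, nat_lit 382400, nat_lit 780000, nat_lit 1271250, nat_lit 1271250, [nat_lit 780000, nat_lit 1100000, nat_lit 1785000], [nat_lit 36, nat_lit 40, nat_lit 40, nat_lit 80, nat_lit 7, nat_lit 238, nat_lit 30, nat_lit 7]⟩, ⟨p072_k5, nat_lit 0, nat_lit 0, nat_lit 188, nat_lit 0, nat_lit 272886, [nat_lit 3282000000, nat_lit 4688000000, nat_lit 7968000000], [], [nat_lit 18152176439,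 nat_lit 18528458627, nat_lit 17423670548, nat_lit 17749933826, nat_lit 25073971068, nat_lit 25466320903, nat_lit 23730372507, nat_lit 24054149672], nat_lit 1271250, nat_lit 1271250, nat_lit 382400, nat_lit 780000, nat_lit 1271250, nat_lit 1271250, [nat_lit 780000, nat_lit 1100000, nat_lit 1785000], [nat_lit 36, nat_lit 40, nat_lit 40, nat_lit 80, nat_lit 7, nat_lit 238, nat_lit 30, nat_lit 7]⟩,
 zbF0, [⟨nat_lit 0, nat_lit 100, nat_lit 100, nat_lit 85, nat_lit 109815864⟩, ⟨nat_lit 4, nat_lit 89, nat_lit 100, nat_lit 95, nat_lit 27811306⟩, ⟨nat_lit 11, nat_lit 100, nat_lit 95, nat_lit 94, nat_lit 682389537⟩]⟩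
noncomputable def p072_l9 : Lf2 := ⟨nat_lit 0, nat_lit 5, [nat_lit 4, nat_lit 5, nat_lit 5, nat_lit 20], false, nat_lit 280, nat_lit 332, nat_lit 240, nat_lit 336, ⟨nat_lit 1000, nat_lit 0, nat_lit 0, nat_lit 0, nat_lit 0, nat_lit 0, nat_lit 0, nat_lit 0, nat_lit 0, nat_lit 0, nat_lit 0, nat_lit 0, nat_lit 0, nat_lit 0, nat_lit 0, nat_lit 0, false, false⟩,
 nat_lit 11551, nat_lit 0, nat_lit 0, nat_lit 0, nat_lit 7142, nat_lit 7350, nat_lit 1572, nat_lit 0, nat_lit 0, nat_lit 1129, nat_lit 0, nat_lit 0, nat_lit 0, nat_lit 4483546139151, nat_lit 0, nat_lit 0, nat_lit 0, nat_lit 0, [],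
 ⟨p072_k7, nat_lit 0, nat_lit 0, nat_lit 198, nat_lit 0, nat_lit 315869, [nat_lit 3282000000, nat_lit 4688000000, nat_lit 7968000000], [], [nat_lit 20626387988, nat_lit 20982225352, nat_lit 19676088626, nat_lit 19954117416, nat_lit 25538029836, nat_lit 25959017556, nat_lit 24089363687, nat_lit 24486374527], nat_lit 1271250, nat_lit 1271250, nat_lit 408851, nat_lit 780000, nat_lit 1271250, nat_lit 1271250, [nat_lit 780000, nat_lit 1100000, nat_lit 1785000], [nat_lit 36, nat_lit 40, nat_lit 40, nat_lit 80, nat_lit 7, nat_lit 238, nat_lit 30, nat_lit 7]⟩, ⟨p072_k5, nat_lit 0, nat_lit 0, nat_lit 210, nat_lit 0, nat_lit 324422, [nat_lit 3282000000, nat_lit 4688000000, nat_lit 7968000000], [], [nat_lit 19870601880, nat_lit 20543008946, nat_lit 19121737600, nat_lit 19749832350, nat_lit 26023183965, nat_lit 26626535841, nat_lit 24727763360, nat_lit 25294278830], nat_lit 1271250, nat_lit 1271250, nat_lit 408851, nat_lit 780000,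 nat_lit 1271250, nat_lit 1271250, [nat_lit 780000, nat_lit 1100000, nat_lit 1785000], [nat_lit 36, nat_lit 40, nat_lit 40, nat_lit 80, nat_lit 7, nat_lit 238, nat_lit 30, nat_lit 7]⟩,
 zbF0, [⟨nat_lit 0, nat_lit 100, nat_lit 100, nat_lit 90, nat_lit 186734551⟩, ⟨nat_lit 4, nat_lit 92, nat_lit 100, nat_lit 96, nat_lit 177776039⟩, ⟨nat_lit 11, nat_lit 100, nat_lit 100, nat_lit 97, nat_lit 582257411⟩]⟩
noncomputable def p072_l10 : Lf2 := ⟨nat_lit 0, nat_lit 5, [nat_lit 4, nat_lit 5, nat_lit 5, nat_lit 20], false, nat_lit 280, nat_lit 328, nat_lit 240, nat_lit 336, ⟨nat_lit 1000, nat_lit 0, nat_lit 0, nat_lit 0, nat_lit 0, nat_lit 0, nat_lit 0, nat_lit 0, nat_lit 0, nat_lit 0, nat_lit 0, nat_lit 0, nat_lit 0, nat_lit 0, nat_lit 0, nat_lit 0, false, false⟩,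
 nat_lit 10632, nat_lit 0, nat_lit 0, nat_lit 0, nat_lit 7060, nat_lit 6765, nat_lit 1015, nat_lit 0, nat_lit 0, nat_lit 1390, nat_lit 0, nat_lit 0, nat_lit 0, nat_lit 0, nat_lit 0, nat_lit 0, nat_lit 0, nat_lit 0, [],
 ⟨p072_k6, nat_lit 0, nat_lit 0, nat_lit 204, nat_lit 0, nat_lit 357675, [nat_lit 3282000000, nat_lit 4688000000, nat_lit 6250000000], [], [nat_lit 21090539801, nat_lit 21745562080, nat_lit 20441742430, nat_lit 21047190790, nat_lit 25235176316, nat_lit 26081156464, nat_lit 24015614419, nat_lit 24815881772], nat_lit 1271250, nat_lit 1271250, nat_lit 435600, nat_lit 780000, nat_lit 1271250, nat_lit 1271250, [nat_lit 780000, nat_lit 1100000, nat_lit 1442500], [nat_lit 59, nat_lit 40, nat_lit 40, nat_lit 80, nat_lit 3, nat_lit 238, nat_lit 30, nat_lit 8]⟩, ⟨p072_k5, nat_lit 0, nat_lit 0, nat_lit 250, nat_lit 0, nat_lit 377135, [nat_lit 3282000000, nat_lit 4688000000, nat_lit 7968000000], [], [nat_lit 19900575828,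 nat_lit 20539988987, nat_lit 19399417220, nat_lit 19996197765, nat_lit 25263029554, nat_lit 25814642657, nat_lit 24435185312, nat_lit 24892357561], nat_lit 1271250, nat_lit 1271250, nat_lit 435600, nat_lit 780000, nat_lit 1271250, nat_lit 1271250, [nat_lit 780000, nat_lit 1100000, nat_lit 1785000], [nat_lit 36, nat_lit 40, nat_lit 40, nat_lit 80, nat_lit 7, nat_lit 238, nat_lit 30, nat_lit 7]⟩,
 zbF0, [⟨nat_lit 0, nat_lit 100, nat_lit 97, nat_lit 94, nat_lit 184918287⟩, ⟨nat_lit 4, nat_lit 97, nat_lit 100, nat_lit 98, nat_lit 188375198⟩, ⟨nat_lit 11, nat_lit 100, nat_lit 100, nat_lit 98, nat_lit 533506090⟩]⟩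
noncomputable def p072_l11 : Lf2 := ⟨nat_lit 0, nat_lit 8, [nat_lit 50, nat_lit 5, nat_lit 5, nat_lit 20], false, nat_lit 240, nat_lit 320, nat_lit 240, nat_lit 320, ⟨nat_lit 1000, nat_lit 0, nat_lit 0, nat_lit 0, nat_lit 0, nat_lit 0, nat_lit 0, nat_lit 0, nat_lit 0, nat_lit 0, nat_lit 0, nat_lit 0, nat_lit 0, nat_lit 0, nat_lit 0, nat_lit 0, false, false⟩,
 nat_lit 12984, nat_lit 0, nat_lit 0, nat_lit 0, nat_lit 8262, nat_lit 8262, nat_lit 861, nat_lit 0, nat_lit 0, nat_lit 861, nat_lit 0, nat_lit 0, nat_lit 0, nat_lit 0, nat_lit 0, nat_lit 0, nat_lit 0, nat_lit 0, [],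
 ⟨p072_k8, nat_lit 0, nat_lit 0, nat_lit 140, nat_lit 0, nat_lit 121880, [nat_lit 3282000000, nat_lit 6250000000, nat_lit 7968000000], [], [nat_lit 19403337192, nat_lit 20276347378, nat_lit 18123949380, nat_lit 18936305338, nat_lit 25180574155, nat_lit 25864553813, nat_lit 23536556512, nat_lit 24238895256], nat_lit 1271250, nat_lit 1271250, nat_lit 382400, nat_lit 780000, nat_lit 1271250, nat_lit 1271250, [nat_lit 780000, nat_lit 1435000, nat_lit 1271250], [nat_lit 18, nat_lit 40, nat_lit 40, nat_lit 80, nat_lit 2, nat_lit 238, nat_lit 30, nat_lit 7]⟩, ⟨p072_k8, nat_lit 0, nat_lit 0, nat_lit 140, nat_lit 0, nat_lit 121880, [nat_lit 3282000000, nat_lit 6250000000, nat_lit 7968000000], [], [nat_lit 19403337192, nat_lit 20276347378, nat_lit 18123949380, nat_lit 18936305338, nat_lit 25180574155, nat_lit 25864553813, nat_lit 23536556512, nat_lit 24238895256], nat_lit 1271250, nat_lit 1271250, nat_lit 382400, nat_lit 780000,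 nat_lit 1271250, nat_lit 1271250, [nat_lit 780000, nat_lit 1435000, nat_lit 1271250], [nat_lit 18, nat_lit 40, nat_lit 40, nat_lit 80, nat_lit 2, nat_lit 238, nat_lit 30, nat_lit 7]⟩,
 zbF0, [⟨nat_lit 0, nat_lit 100, nat_lit 100, nat_lit 90, nat_lit 338025121⟩, ⟨nat_lit 16, nat_lit 100, nat_lit 94, nat_lit 92, nat_lit 126350873⟩, ⟨nat_lit 7, nat_lit 94, nat_lit 100, nat_lit 92, nat_lit 126350873⟩, ⟨nat_lit 11, nat_lit 100, nat_lit 100, nat_lit 96, nat_lit 496873236⟩]⟩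
noncomputable def p072_l12 : Lf2 := ⟨nat_lit 0, nat_lit 10, [nat_lit 0, nat_lit 5, nat_lit 5, nat_lit 20], false, nat_lit 240, nat_lit 320, nat_lit 240, nat_lit 320, ⟨nat_lit 1000, nat_lit 0, nat_lit 0, nat_lit 0, nat_lit 0, nat_lit 0, nat_lit 0, nat_lit 0, nat_lit 0, nat_lit 0, nat_lit 0, nat_lit 0, nat_lit 0, nat_lit 0, nat_lit 0, nat_lit 0, false, false⟩,
 nat_lit 7581, nat_lit 0, nat_lit 0, nat_lit 737, nat_lit 4823, nat_lit 4823, nat_lit 0, nat_lit 0, nat_lit 0, nat_lit 0, nat_lit 0, nat_lit 0, nat_lit 0, nat_lit 0, nat_lit 0, nat_lit 0, nat_lit 0, nat_lit 0, [],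
 ⟨p072_k0, nat_lit 0, nat_lit 0, nat_lit 100, nat_lit 0, nat_lit 34947, [nat_lit 3282000000, nat_lit 6250000000, nat_lit 9842000000], [], [nat_lit 16537881115, nat_lit 17341171337, nat_lit 16463826432, nat_lit 17215589287, nat_lit 22016797541, nat_lit 22661582959, nat_lit 21603713232, nat_lit 22210038677], nat_lit 1271250, nat_lit 1271250, nat_lit 382400, nat_lit 780000, nat_lit 1271250, nat_lit 1271250, [nat_lit 780000, nat_lit 1435000, nat_lit 1271250], [nat_lit 8, nat_lit 40, nat_lit 40, nat_lit 80, nat_lit 1, nat_lit 345, nat_lit 125, nat_lit 9]⟩, ⟨p072_k0, nat_lit 0, nat_lit 0, nat_lit 100, nat_lit 0, nat_lit 34947, [nat_lit 3282000000, nat_lit 6250000000, nat_lit 9842000000], [], [nat_lit 16537881115, nat_lit 17341171337, nat_lit 16463826432, nat_lit 17215589287, nat_lit 22016797541, nat_lit 22661582959, nat_lit 21603713232, nat_lit 22210038677], nat_lit 1271250, nat_lit 1271250, nat_lit 382400, nat_lit 780000,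 nat_lit 1271250, nat_lit 1271250, [nat_lit 780000, nat_lit 1435000, nat_lit 1271250], [nat_lit 8, nat_lit 40, nat_lit 40, nat_lit 80, nat_lit 1, nat_lit 345, nat_lit 125, nat_lit 9]⟩,
 zbF0, [⟨nat_lit 0, nat_lit 100, nat_lit 100, nat_lit 90, nat_lit 17473883⟩, ⟨nat_lit 11, nat_lit 100, nat_lit 100, nat_lit 96, nat_lit 600583344⟩]⟩
noncomputable def p072_l13 : Lf2 := ⟨nat_lit 0, nat_lit 7, [nat_lit 80, nat_lit 5, nat_lit 5, nat_lit 20], false, nat_lit 240, nat_lit 336, nat_lit 240, nat_lit 336, ⟨nat_lit 1000, nat_lit 0, nat_lit 0, nat_lit 0, nat_lit 0, nat_lit 0, nat_lit 0, nat_lit 0, nat_lit 0, nat_lit 0, nat_lit 0, nat_lit 0, nat_lit 0, nat_lit 0, nat_lit 0, nat_lit 0, false, false⟩,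
 nat_lit 12582, nat_lit 0, nat_lit 0, nat_lit 0, nat_lit 8006, nat_lit 8006, nat_lit 795, nat_lit 0, nat_lit 0, nat_lit 795, nat_lit 0, nat_lit 0, nat_lit 0, nat_lit 0, nat_lit 0, nat_lit 0, nat_lit 0, nat_lit 0, [],
 ⟨p072_k9, nat_lit 0, nat_lit 0, nat_lit 125, nat_lit 0, nat_lit 51674, [nat_lit 3282000000, nat_lit 6250000000, nat_lit 7968000000], [], [nat_lit 19826488646, nat_lit 20682397264, nat_lit 18621754940, nat_lit 19418543794, nat_lit 26926006150, nat_lit 27559856855, nat_lit 25239281646, nat_lit 25831381247], nat_lit 1271250, nat_lit 1271250, nat_lit 382400, nat_lit 780000, nat_lit 1271250, nat_lit 1271250, [nat_lit 780000, nat_lit 1435000, nat_lit 1271250], [nat_lit 18, nat_lit 40, nat_lit 40, nat_lit 80, nat_lit 2, nat_lit 238, nat_lit 30, nat_lit 7]⟩, ⟨p072_k9, nat_lit 0, nat_lit 0, nat_lit 125, nat_lit 0, nat_lit 51674, [nat_lit 3282000000, nat_lit 6250000000, nat_lit 7968000000], [], [nat_lit 19826488646,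 nat_lit 20682397264, nat_lit 18621754940, nat_lit 19418543794, nat_lit 26926006150, nat_lit 27559856855, nat_lit 25239281646, nat_lit 25831381247], nat_lit 1271250, nat_lit 1271250, nat_lit 382400, nat_lit 780000, nat_lit 1271250, nat_lit 1271250, [nat_lit 780000, nat_lit 1435000, nat_lit 1271250], [nat_lit 18, nat_lit 40, nat_lit 40, nat_lit 80, nat_lit 2, nat_lit 238, nat_lit 30, nat_lit 7]⟩,
 zbF0, [⟨nat_lit 0, nat_lit 100, nat_lit 100, nat_lit 90, nat_lit 132543443⟩, ⟨nat_lit 11, nat_lit 100, nat_lit 100, nat_lit 88, nat_lit 688780339⟩]⟩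
noncomputable def p072_l14 : Lf2 := ⟨nat_lit 1, nat_lit 10, [nat_lit 0, nat_lit 5, nat_lit 5, nat_lit 20], false, nat_lit 240, nat_lit 336, nat_lit 240, nat_lit 336, zbN0,
 nat_lit 0, nat_lit 0, nat_lit 0, nat_lit 0, nat_lit 0, nat_lit 0, nat_lit 0, nat_lit 0, nat_lit 0, nat_lit 0, nat_lit 0, nat_lit 0, nat_lit 0, nat_lit 0, nat_lit 0, nat_lit 0, nat_lit 0, nat_lit 0, [],
 C1.Rw.none, C1.Rw.none,
 zbF0, []⟩
noncomputable def p072_l15 : Lf2 := ⟨nat_lit 0, nat_lit 8, [nat_lit 50, nat_lit 5, nat_lit 5, nat_lit 20], false, nat_lit 240, nat_lit 312, nat_lit 240, nat_lit 320, ⟨nat_lit 1000, nat_lit 0, nat_lit 0, nat_lit 0, nat_lit 0, nat_lit 0, nat_lit 0, nat_lit 0, nat_lit 0, nat_lit 0, nat_lit 0, nat_lit 0, nat_lit 0, nat_lit 0, nat_lit 0, nat_lit 0, false, false⟩,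
 nat_lit 13113, nat_lit 0, nat_lit 0, nat_lit 0, nat_lit 7666, nat_lit 8344, nat_lit 939, nat_lit 0, nat_lit 0, nat_lit 859, nat_lit 0, nat_lit 0, nat_lit 0, nat_lit 0, nat_lit 0, nat_lit 0, nat_lit 0, nat_lit 0, [],
 ⟨p072_k10, nat_lit 0, nat_lit 0, nat_lit 151, nat_lit 0, nat_lit 164481, [nat_lit 3282000000, nat_lit 6250000000, nat_lit 7968000000], [], [nat_lit 19446937605, nat_lit 20273395597, nat_lit 18594279634, nat_lit 19370393428, nat_lit 24231700273, nat_lit 25057329868, nat_lit 23178345653, nat_lit 23869361744], nat_lit 1271250, nat_lit 1271250, nat_lit 435600, nat_lit 780000, nat_lit 1271250, nat_lit 1271250, [nat_lit 780000, nat_lit 1435000, nat_lit 1271250], [nat_lit 18, nat_lit 40, nat_lit 40, nat_lit 80, nat_lit 2, nat_lit 238, nat_lit 30, nat_lit 7]⟩, ⟨p072_k8, nat_lit 0, nat_lit 0, nat_lit 153, nat_lit 0, nat_lit 173364, [nat_lit 3282000000, nat_lit 6250000000, nat_lit 7968000000], [], [nat_lit 19008917696,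 nat_lit 19880199624, nat_lit 18048670060, nat_lit 18866012356, nat_lit 24773514579, nat_lit 25455566993, nat_lit 23480581344, nat_lit 24186963672], nat_lit 1271250, nat_lit 1271250, nat_lit 435600, nat_lit 780000, nat_lit 1271250, nat_lit 1271250, [nat_lit 780000, nat_lit 1435000, nat_lit 1271250], [nat_lit 18, nat_lit 40, nat_lit 40, nat_lit 80, nat_lit 2, nat_lit 238, nat_lit 30, nat_lit 7]⟩,
 zbF0, [⟨nat_lit 0, nat_lit 100, nat_lit 97, nat_lit 89, nat_lit 396880589⟩, ⟨nat_lit 16, nat_lit 100, nat_lit 100, nat_lit 95, nat_lit 175138820⟩, ⟨nat_lit 7, nat_lit 94, nat_lit 100, nat_lit 92, nat_lit 188700839⟩, ⟨nat_lit 11, nat_lit 100, nat_lit 100, nat_lit 98, nat_lit 416273104⟩]⟩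
noncomputable def p072_l16 : Lf2 := ⟨nat_lit 0, nat_lit 10, [nat_lit 0, nat_lit 5, nat_lit 5, nat_lit 20], false, nat_lit 240, nat_lit 312, nat_lit 240, nat_lit 320, ⟨nat_lit 1000, nat_lit 0, nat_lit 0, nat_lit 0, nat_lit 0, nat_lit 0, nat_lit 0, nat_lit 0, nat_lit 0, nat_lit 0, nat_lit 0, nat_lit 0, nat_lit 0, nat_lit 0, nat_lit 0, nat_lit 0, false, false⟩,
 nat_lit 13113, nat_lit 3352, nat_lit 0, nat_lit 0, nat_lit 10934, nat_lit 8344, nat_lit 0, nat_lit 0, nat_lit 0, nat_lit 1105, nat_lit 0, nat_lit 0, nat_lit 0, nat_lit 0, nat_lit 0, nat_lit 0, nat_lit 0, nat_lit 0, [],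
 ⟨p072_k3, nat_lit 0, nat_lit 0, nat_lit 122, nat_lit 0, nat_lit 82617, [nat_lit 3282000000, nat_lit 6250000000, nat_lit 7968000000], [], [nat_lit 21171850476, nat_lit 22214362484, nat_lit 19540611766, nat_lit 20515449372, nat_lit 27080014484, nat_lit 27906813448, nat_lit 25062617613, nat_lit 25836718316], nat_lit 1271250, nat_lit 1271250, nat_lit 435600, nat_lit 780000, nat_lit 1271250, nat_lit 1271250, [nat_lit 780000, nat_lit 1435000, nat_lit 1271250], [nat_lit 18, nat_lit 40, nat_lit 40, nat_lit 80, nat_lit 2, nat_lit 238, nat_lit 30, nat_lit 7]⟩, ⟨p072_k0, nat_lit 0, nat_lit 0, nat_lit 151, nat_lit 0, nat_lit 87112, [nat_lit 3282000000, nat_lit 6250000000, nat_lit 9842000000], [], [nat_lit 19592210975, nat_lit 20370053282, nat_lit 18465488805, nat_lit 19195829149, nat_lit 24702582413, nat_lit 25454085853, nat_lit 23480581344, nat_lit 24186963672], nat_lit 1271250, nat_lit 1271250, nat_lit 435600, nat_lit 780000,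 nat_lit 1271250, nat_lit 1271250, [nat_lit 780000, nat_lit 1435000, nat_lit 1271250], [nat_lit 8, nat_lit 40, nat_lit 40, nat_lit 80, nat_lit 1, nat_lit 345, nat_lit 125, nat_lit 9]⟩,
 zbF0, [⟨nat_lit 0, nat_lit 100, nat_lit 97, nat_lit 89, nat_lit 497530333⟩, ⟨nat_lit 4, nat_lit 100, nat_lit 100, nat_lit 95, nat_lit 258249911⟩, ⟨nat_lit 7, nat_lit 94, nat_lit 100, nat_lit 92, nat_lit 184442993⟩, ⟨nat_lit 11, nat_lit 100, nat_lit 100, nat_lit 98, nat_lit 400042296⟩]⟩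
noncomputable def p072_l17 : Lf2 := ⟨nat_lit 0, nat_lit 8, [nat_lit 50, nat_lit 5, nat_lit 5, nat_lit 20], false, nat_lit 240, nat_lit 328, nat_lit 240, nat_lit 336, ⟨nat_lit 1000, nat_lit 0, nat_lit 0, nat_lit 0, nat_lit 0, nat_lit 0, nat_lit 0, nat_lit 0, nat_lit 0, nat_lit 0, nat_lit 0, nat_lit 0, nat_lit 0, nat_lit 0, nat_lit 0, nat_lit 0, false, false⟩,
 nat_lit 12577, nat_lit 0, nat_lit 0, nat_lit 0, nat_lit 7274, nat_lit 8003, nat_lit 988, nat_lit 0, nat_lit 0, nat_lit 822, nat_lit 0, nat_lit 0, nat_lit 0, nat_lit 0, nat_lit 0, nat_lit 0, nat_lit 0, nat_lit 0, [],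
 ⟨p072_k10, nat_lit 0, nat_lit 0, nat_lit 135, nat_lit 0, nat_lit 99238, [nat_lit 3282000000, nat_lit 6250000000, nat_lit 7968000000], [], [nat_lit 19513658828, nat_lit 20314200916, nat_lit 18754392426, nat_lit 19506669092, nat_lit 25622777585, nat_lit 26298035678, nat_lit 24597370215, nat_lit 25233493443], nat_lit 1271250, nat_lit 1271250, nat_lit 435600, nat_lit 780000, nat_lit 1271250, nat_lit 1271250, [nat_lit 780000, nat_lit 1435000, nat_lit 1271250], [nat_lit 18, nat_lit 40, nat_lit 40, nat_lit 80, nat_lit 2, nat_lit 238, nat_lit 30, nat_lit 7]⟩, ⟨p072_k8, nat_lit 0, nat_lit 0, nat_lit 138, nat_lit 0, nat_lit 104693, [nat_lit 3282000000, nat_lit 6250000000, nat_lit 7968000000], [], [nat_lit 19407377543, nat_lit 20256115279, nat_lit 18526562720, nat_lit 19323169147, nat_lit 26449736109, nat_lit 27080378733, nat_lit 25164638494, nat_lit 25816251234], nat_lit 1271250, nat_lit 1271250, nat_lit 435600, nat_lit 780000,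 nat_lit 1271250, nat_lit 1271250, [nat_lit 780000, nat_lit 1435000, nat_lit 1271250], [nat_lit 18, nat_lit 40, nat_lit 40, nat_lit 80, nat_lit 2, nat_lit 238, nat_lit 30, nat_lit 7]⟩,
 zbF0, [⟨nat_lit 0, nat_lit 100, nat_lit 97, nat_lit 94, nat_lit 207402062⟩, ⟨nat_lit 11, nat_lit 100, nat_lit 100, nat_lit 98, nat_lit 597965490⟩]⟩
noncomputable def p072_l18 : Lf2 := ⟨nat_lit 0, nat_lit 10, [nat_lit 0, nat_lit 5, nat_lit 5, nat_lit 20], false, nat_lit 240, nat_lit 328, nat_lit 240, nat_lit 336, ⟨nat_lit 1000, nat_lit 0, nat_lit 0, nat_lit 0, nat_lit 0, nat_lit 0, nat_lit 0, nat_lit 0, nat_lit 0, nat_lit 0, nat_lit 0, nat_lit 0, nat_lit 0, nat_lit 0, nat_lit 0, nat_lit 0, false, false⟩,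
 nat_lit 7472, nat_lit 0, nat_lit 0, nat_lit 5015, nat_lit 4760, nat_lit 4754, nat_lit 0, nat_lit 0, nat_lit 0, nat_lit 0, nat_lit 0, nat_lit 0, nat_lit 0, nat_lit 0, nat_lit 0, nat_lit 0, nat_lit 0, nat_lit 0, [],
 ⟨p072_k3, nat_lit 0, nat_lit 0, nat_lit 90, nat_lit 0, nat_lit 17928, [nat_lit 3282000000, nat_lit 6250000000, nat_lit 7968000000], [], [nat_lit 17264434249, nat_lit 18055801553, nat_lit 17278994440, nat_lit 18025441040, nat_lit 23136305955, nat_lit 23756903308, nat_lit 22832107220, nat_lit 23420161560], nat_lit 1271250, nat_lit 1271250, nat_lit 435600, nat_lit 780000, nat_lit 1271250, nat_lit 1271250, [nat_lit 780000, nat_lit 1435000, nat_lit 1271250], [nat_lit 18, nat_lit 40, nat_lit 40, nat_lit 80, nat_lit 2, nat_lit 238, nat_lit 30, nat_lit 7]⟩, ⟨p072_k0, nat_lit 0, nat_lit 0, nat_lit 95, nat_lit 0, nat_lit 19005, [nat_lit 3282000000, nat_lit 6250000000, nat_lit 9842000000], [], [nat_lit 16478348538,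 nat_lit 17269167740, nat_lit 16539092736, nat_lit 17285033026, nat_lit 23155904159, nat_lit 23760583908, nat_lit 22851447368, nat_lit 23424719960], nat_lit 1271250, nat_lit 1271250, nat_lit 435600, nat_lit 780000, nat_lit 1271250, nat_lit 1271250, [nat_lit 780000, nat_lit 1435000, nat_lit 1271250], [nat_lit 8, nat_lit 40, nat_lit 40, nat_lit 80, nat_lit 1, nat_lit 345, nat_lit 125, nat_lit 9]⟩,
 zbF0, [⟨nat_lit 0, nat_lit 100, nat_lit 97, nat_lit 94, nat_lit 36733101⟩, ⟨nat_lit 11, nat_lit 100, nat_lit 100, nat_lit 98, nat_lit 581517074⟩]⟩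
noncomputable def b_V_700_700_20_37 : St := ⟨true, nat_lit 1, nat_lit 1, nat_lit 1, nat_lit 120, nat_lit 280, nat_lit 300, nat_lit 280, nat_lit 290, nat_lit 64, nat_lit 120, nat_lit 80, nat_lit 120, nat_lit 240, nat_lit 336, nat_lit 240, nat_lit 336, nat_lit 0, nat_lit 40, nat_lit 0, nat_lit 0, nat_lit 0, nat_lit 0⟩
theorem d_V_700_700_20_37 (h : EB TB.env) : Dead b_V_700_700_20_37 := chkB_sound0 h (T :=
(.spl (nat_lit 6) (nat_lit 20)
(.spl (nat_lit 4) (nat_lit 280)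
(.spl (nat_lit 0) (nat_lit 290)
(.leaf p072_l6)
(.trZ (nat_lit 0) (nat_lit 100) (nat_lit 97) (nat_lit 84) (nat_lit 72) (.leaf p072_l7)))
(.spl (nat_lit 0) (nat_lit 290)
(.spl (nat_lit 0) (nat_lit 285)
(.ord (.leaf p072_l8))
(.trZ (nat_lit 0) (nat_lit 100) (nat_lit 99) (nat_lit 82) (nat_lit 68) (.trX (nat_lit 16) (nat_lit 99) (nat_lit 82) (nat_lit 100) (nat_lit 332) (.leaf p072_l9))))
(.trZ (nat_lit 0) (nat_lit 100) (nat_lit 97) (nat_lit 84) (nat_lit 72) (.trX (nat_lit 16) (nat_lit 97) (nat_lit 84) (nat_lit 100) (nat_lit 328) (.leaf p072_l10)))))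
(.spl (nat_lit 0) (nat_lit 290)
(.spl (nat_lit 3) (nat_lit 100)
(.trX (nat_lit 16) (nat_lit 100) (nat_lit 88) (nat_lit 94) (nat_lit 320) (.trX (nat_lit 19) (nat_lit 100) (nat_lit 88) (nat_lit 94) (nat_lit 320) (.spl (nat_lit 6) (nat_lit 32)
(.leaf p072_l11)
(.leaf p072_l12))))
(.spl (nat_lit 6) (nat_lit 28)
(.leaf p072_l13)
(.leaf p072_l14)))
(.trZ (nat_lit 0) (nat_lit 100) (nat_lit 97) (nat_lit 84) (nat_lit 72) (.trX (nat_lit 16) (nat_lit 97) (nat_lit 84) (nat_lit 100) (nat_lit 328) (.spl (nat_lit 3) (nat_lit 100)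
(.trX (nat_lit 16) (nat_lit 100) (nat_lit 94) (nat_lit 97) (nat_lit 312) (.trX (nat_lit 19) (nat_lit 100) (nat_lit 88) (nat_lit 94) (nat_lit 320) (.spl (nat_lit 6) (nat_lit 32)
(.leaf p072_l15)
(.leaf p072_l16))))
(.spl (nat_lit 6) (nat_lit 32)
(.leaf p072_l17)
(.leaf p072_l18)))))))) (by decide +kernel)
noncomputable def p072_l19 : Lf2 := ⟨nat_lit 0, nat_lit 5, [nat_lit 4, nat_lit 5, nat_lit 5, nat_lit 20], false, nat_lit 240, nat_lit 320, nat_lit 240, nat_lit 336, ⟨nat_lit 1000, nat_lit 0, nat_lit 0, nat_lit 0, nat_lit 0, nat_lit 0, nat_lit 0, nat_lit 0, nat_lit 0, nat_lit 0, nat_lit 0, nat_lit 0, nat_lit 0, nat_lit 0, nat_lit 0, nat_lit 0, false, false⟩,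
 nat_lit 10533, nat_lit 0, nat_lit 0, nat_lit 0, nat_lit 6979, nat_lit 6702, nat_lit 860, nat_lit 0, nat_lit 0, nat_lit 1451, nat_lit 0, nat_lit 0, nat_lit 0, nat_lit 0, nat_lit 0, nat_lit 0, nat_lit 0, nat_lit 0, [],
 ⟨p072_k11, nat_lit 0, nat_lit 0, nat_lit 229, nat_lit 0, nat_lit 440835, [nat_lit 3282000000, nat_lit 4688000000, nat_lit 6250000000], [], [nat_lit 18988777160, nat_lit 20467698084, nat_lit 18675651296, nat_lit 20012869092, nat_lit 24760066192, nat_lit 26478374932, nat_lit 23956693358, nat_lit 25592358028], nat_lit 1271250, nat_lit 1271250, nat_lit 490000, nat_lit 780000, nat_lit 1271250, nat_lit 1271250, [nat_lit 780000, nat_lit 1100000, nat_lit 1442500], [nat_lit 59, nat_lit 40, nat_lit 40, nat_lit 80, nat_lit 3, nat_lit 238, nat_lit 30, nat_lit 8]⟩, ⟨p072_k5, nat_lit 0, nat_lit 0, nat_lit 281, nat_lit 0, nat_lit 489247, [nat_lit 3282000000, nat_lit 4688000000, nat_lit 7968000000], [], [nat_lit 19621842072,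 nat_lit 20233112676, nat_lit 19368774496, nat_lit 19913362502, nat_lit 24896050831, nat_lit 25375897587, nat_lit 24332571842, nat_lit 24788452677], nat_lit 1271250, nat_lit 1271250, nat_lit 490000, nat_lit 780000, nat_lit 1271250, nat_lit 1271250, [nat_lit 780000, nat_lit 1100000, nat_lit 1785000], [nat_lit 36, nat_lit 40, nat_lit 40, nat_lit 80, nat_lit 7, nat_lit 238, nat_lit 30, nat_lit 7]⟩,
 zbF0, [⟨nat_lit 0, nat_lit 100, nat_lit 89, nat_lit 100, nat_lit 350857478⟩, ⟨nat_lit 4, nat_lit 100, nat_lit 93, nat_lit 97, nat_lit 203172459⟩, ⟨nat_lit 19, nat_lit 100, nat_lit 91, nat_lit 96, nat_lit 38072769⟩, ⟨nat_lit 23, nat_lit 100, nat_lit 88, nat_lit 94, nat_lit 494940612⟩]⟩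
noncomputable def p072_l20 : Lf2 := ⟨nat_lit 0, nat_lit 10, [nat_lit 0, nat_lit 5, nat_lit 5, nat_lit 20], false, nat_lit 240, nat_lit 300, nat_lit 240, nat_lit 320, ⟨nat_lit 1000, nat_lit 0, nat_lit 0, nat_lit 0, nat_lit 0, nat_lit 0, nat_lit 0, nat_lit 0, nat_lit 0, nat_lit 0, nat_lit 0, nat_lit 0, nat_lit 0, nat_lit 0, nat_lit 0, nat_lit 0, false, false⟩,
 nat_lit 13244, nat_lit 0, nat_lit 0, nat_lit 0, nat_lit 9168, nat_lit 8428, nat_lit 499, nat_lit 0, nat_lit 0, nat_lit 1103, nat_lit 0, nat_lit 0, nat_lit 0, nat_lit 0, nat_lit 0, nat_lit 0, nat_lit 0, nat_lit 0, [],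
 ⟨p072_k4, nat_lit 0, nat_lit 0, nat_lit 149, nat_lit 0, nat_lit 181818, [nat_lit 3282000000, nat_lit 6250000000, nat_lit 7968000000], [], [nat_lit 20431431753, nat_lit 20890423117, nat_lit 19569575769, nat_lit 20003300225, nat_lit 24661103349, nat_lit 25142344371, nat_lit 23565859041, nat_lit 23927933819], nat_lit 1271250, nat_lit 1271250, nat_lit 490000, nat_lit 780000, nat_lit 1271250, nat_lit 1271250, [nat_lit 780000, nat_lit 1435000, nat_lit 1271250], [nat_lit 18, nat_lit 40, nat_lit 40, nat_lit 80, nat_lit 2, nat_lit 238, nat_lit 30, nat_lit 7]⟩, ⟨p072_k0, nat_lit 0, nat_lit 0, nat_lit 185, nat_lit 0, nat_lit 201785, [nat_lit 3282000000, nat_lit 6250000000, nat_lit 9842000000], [], [nat_lit 19185718299, nat_lit 19961999635, nat_lit 18407111035, nat_lit 19141808963, nat_lit 24283705259, nat_lit 25032453664, nat_lit 23423240928, nat_lit 24133765464], nat_lit 1271250, nat_lit 1271250, nat_lit 490000, nat_lit 780000,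 nat_lit 1271250, nat_lit 1271250, [nat_lit 780000, nat_lit 1435000, nat_lit 1271250], [nat_lit 8, nat_lit 40, nat_lit 40, nat_lit 80, nat_lit 1, nat_lit 345, nat_lit 125, nat_lit 9]⟩,
 zbF0, [⟨nat_lit 0, nat_lit 100, nat_lit 95, nat_lit 92, nat_lit 449385819⟩, ⟨nat_lit 4, nat_lit 100, nat_lit 95, nat_lit 93, nat_lit 226460706⟩, ⟨nat_lit 7, nat_lit 94, nat_lit 100, nat_lit 92, nat_lit 186033294⟩, ⟨nat_lit 11, nat_lit 100, nat_lit 100, nat_lit 100, nat_lit 384932771⟩]⟩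
noncomputable def p072_l21 : Lf2 := ⟨nat_lit 0, nat_lit 10, [nat_lit 0, nat_lit 5, nat_lit 5, nat_lit 20], false, nat_lit 240, nat_lit 296, nat_lit 240, nat_lit 320, ⟨nat_lit 1000, nat_lit 0, nat_lit 0, nat_lit 0, nat_lit 0, nat_lit 0, nat_lit 0, nat_lit 0, nat_lit 0, nat_lit 0, nat_lit 0, nat_lit 0, nat_lit 0, nat_lit 0, nat_lit 0, nat_lit 0, false, false⟩,
 nat_lit 13270, nat_lit 0, nat_lit 0, nat_lit 0, nat_lit 8376, nat_lit 8444, nat_lit 631, nat_lit 0, nat_lit 0, nat_lit 1100, nat_lit 0, nat_lit 0, nat_lit 0, nat_lit 0, nat_lit 0, nat_lit 0, nat_lit 0, nat_lit 0, [],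
 ⟨p072_k12, nat_lit 0, nat_lit 0, nat_lit 155, nat_lit 0, nat_lit 201687, [nat_lit 3282000000, nat_lit 6250000000, nat_lit 7968000000], [], [nat_lit 20436032090, nat_lit 20866772683, nat_lit 19770055450, nat_lit 20179699542, nat_lit 24099298923, nat_lit 24589416027, nat_lit 23254685791, nat_lit 23628536513], nat_lit 1271250, nat_lit 1271250, nat_lit 517650, nat_lit 780000, nat_lit 1271250, nat_lit 1271250, [nat_lit 780000, nat_lit 1435000, nat_lit 1271250], [nat_lit 18, nat_lit 40, nat_lit 40, nat_lit 80, nat_lit 2, nat_lit 238, nat_lit 30, nat_lit 7]⟩, ⟨p072_k0, nat_lit 0, nat_lit 0, nat_lit 193, nat_lit 0, nat_lit 229499, [nat_lit 3282000000, nat_lit 6250000000, nat_lit 9842000000], [], [nat_lit 19116203065, nat_lit 19889214195, nat_lit 18412745180, nat_lit 19148273124, nat_lit 24191852270, nat_lit 24935341212, nat_lit 23412318944, nat_lit 24123632472], nat_lit 1271250, nat_lit 1271250, nat_lit 517650, nat_lit 780000,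 nat_lit 1271250, nat_lit 1271250, [nat_lit 780000, nat_lit 1435000, nat_lit 1271250], [nat_lit 8, nat_lit 40, nat_lit 40, nat_lit 80, nat_lit 1, nat_lit 345, nat_lit 125, nat_lit 9]⟩,
 zbF0, [⟨nat_lit 0, nat_lit 100, nat_lit 93, nat_lit 93, nat_lit 481619231⟩, ⟨nat_lit 16, nat_lit 92, nat_lit 100, nat_lit 92, nat_lit 219590616⟩, ⟨nat_lit 7, nat_lit 94, nat_lit 100, nat_lit 92, nat_lit 209980388⟩, ⟨nat_lit 11, nat_lit 99, nat_lit 99, nat_lit 100, nat_lit 367090541⟩]⟩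
noncomputable def p072_l22 : Lf2 := ⟨nat_lit 0, nat_lit 10, [nat_lit 0, nat_lit 5, nat_lit 5, nat_lit 20], false, nat_lit 240, nat_lit 292, nat_lit 240, nat_lit 320, ⟨nat_lit 906, nat_lit 0, nat_lit 94, nat_lit 7, nat_lit 171, nat_lit 94, nat_lit 198, nat_lit 94, nat_lit 5873, nat_lit 231, nat_lit 135041, nat_lit 305, nat_lit 44710846, nat_lit 0, nat_lit 0, nat_lit 4647234, false, false⟩,
 nat_lit 12041, nat_lit 0, nat_lit 0, nat_lit 0, nat_lit 6394, nat_lit 7662, nat_lit 825, nat_lit 0, nat_lit 0, nat_lit 992, nat_lit 0, nat_lit 0, nat_lit 0, nat_lit 0, nat_lit 0, nat_lit 21540, nat_lit 0, nat_lit 0, [(nat_lit 15, [(nat_lit 3, nat_lit 28), (nat_lit 4, nat_lit 66)])],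
 ⟨p072_k13, nat_lit 0, nat_lit 0, nat_lit 172, nat_lit 0, nat_lit 245580, [nat_lit 3676696800, nat_lit 5614620801, nat_lit 7090079200], [], [nat_lit 19856537069, nat_lit 20585493917, nat_lit 19552965364, nat_lit 20242821494, nat_lit 22751809922, nat_lit 23638344475, nat_lit 22319541411, nat_lit 23123100858], nat_lit 1271250, nat_lit 1271250, nat_lit 545600, nat_lit 780000, nat_lit 1271250, nat_lit 1271250, [nat_lit 780000, nat_lit 1435000, nat_lit 1271250], [nat_lit 18, nat_lit 40, nat_lit 40, nat_lit 80, nat_lit 2, nat_lit 238, nat_lit 30, nat_lit 7]⟩, ⟨p072_k0, nat_lit 0, nat_lit 0, nat_lit 211, nat_lit 0, nat_lit 286404, [nat_lit 2973492000, nat_lit 5662500000, nat_lit 8916852000], [], [nat_lit 17269714962, nat_lit 17966936448, nat_lit 16701429080, nat_lit 17368426214, nat_lit 21847040322, nat_lit 22504158438, nat_lit 21203549688, nat_lit 21848578470], nat_lit 1271250, nat_lit 1271250, nat_lit 545600, nat_lit 780000,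 nat_lit 1271250, nat_lit 1271250, [nat_lit 780000, nat_lit 1435000, nat_lit 1271250], [nat_lit 8, nat_lit 40, nat_lit 40, nat_lit 80, nat_lit 1, nat_lit 345, nat_lit 125, nat_lit 9]⟩,
 ⟨nat_lit 4472, nat_lit 4744, ⟨.ofNat (nat_lit 390781), .ofNat (nat_lit 446540), .ofNat (nat_lit 401523), .ofNat (nat_lit 457283), .ofNat (nat_lit 395915), .ofNat (nat_lit 450297), .ofNat (nat_lit 406696), .ofNat (nat_lit 461079)⟩, ⟨.ofNat (nat_lit 440769), .ofNat (nat_lit 531379), .ofNat (nat_lit 462258), .ofNat (nat_lit 552867), .ofNat (nat_lit 438578), .ofNat (nat_lit 526949), .ofNat (nat_lit 460144), .ofNat (nat_lit 548516)⟩⟩, [⟨nat_lit 0, nat_lit 100, nat_lit 90, nat_lit 96, nat_lit 443371913⟩, ⟨nat_lit 16, nat_lit 93, nat_lit 100, nat_lit 97, nat_lit 196540860⟩, ⟨nat_lit 19, nat_lit 100, nat_lit 88, nat_lit 94, nat_lit 207622502⟩, ⟨nat_lit 11, nat_lit 98, nat_lit 98, nat_lit 100, nat_lit 312000145⟩]⟩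
noncomputable def p072_l23 : Lf2 := ⟨nat_lit 0, nat_lit 10, [nat_lit 0, nat_lit 5, nat_lit 5, nat_lit 20], false, nat_lit 240, nat_lit 320, nat_lit 240, nat_lit 280, ⟨nat_lit 1000, nat_lit 0, nat_lit 0, nat_lit 0, nat_lit 0, nat_lit 0, nat_lit 0, nat_lit 0, nat_lit 0, nat_lit 0, nat_lit 0, nat_lit 0, nat_lit 0, nat_lit 0, nat_lit 0, nat_lit 0, false, false⟩,
 nat_lit 14790, nat_lit 0, nat_lit 0, nat_lit 6712, nat_lit 6863, nat_lit 9411, nat_lit 937, nat_lit 0, nat_lit 0, nat_lit 1201, nat_lit 0, nat_lit 0, nat_lit 0, nat_lit 0, nat_lit 0, nat_lit 0, nat_lit 0, nat_lit 0, [],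
 ⟨p072_k4, nat_lit 0, nat_lit 0, nat_lit 167, nat_lit 0, nat_lit 196572, [nat_lit 3282000000, nat_lit 6250000000, nat_lit 7968000000], [], [nat_lit 19846425473, nat_lit 21380800119, nat_lit 19407509329, nat_lit 20862077663, nat_lit 24660903824, nat_lit 26362037604, nat_lit 23975021875, nat_lit 25504275516], nat_lit 1271250, nat_lit 1271250, nat_lit 490000, nat_lit 780000, nat_lit 1271250, nat_lit 1271250, [nat_lit 780000, nat_lit 1435000, nat_lit 1271250], [nat_lit 18, nat_lit 40, nat_lit 40, nat_lit 80, nat_lit 2, nat_lit 238, nat_lit 30, nat_lit 7]⟩, ⟨p072_k0, nat_lit 0, nat_lit 0, nat_lit 179, nat_lit 0, nat_lit 218530, [nat_lit 3282000000, nat_lit 6250000000, nat_lit 9842000000], [], [nat_lit 17911035413, nat_lit 18742278245, nat_lit 16947341045, nat_lit 17733033081, nat_lit 20622626923, nat_lit 21494195806, nat_lit 19531140866, nat_lit 20397943914], nat_lit 1271250, nat_lit 1271250, nat_lit 490000, nat_lit 780000,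 nat_lit 1271250, nat_lit 1271250, [nat_lit 780000, nat_lit 1435000, nat_lit 1271250], [nat_lit 8, nat_lit 40, nat_lit 40, nat_lit 80, nat_lit 1, nat_lit 317, nat_lit 100, nat_lit 8]⟩,
 zbF0, [⟨nat_lit 0, nat_lit 100, nat_lit 92, nat_lit 94, nat_lit 872641387⟩, ⟨nat_lit 16, nat_lit 94, nat_lit 88, nat_lit 100, nat_lit 385308731⟩, ⟨nat_lit 4, nat_lit 97, nat_lit 94, nat_lit 100, nat_lit 177871031⟩]⟩
noncomputable def p072_l24 : Lf2 := ⟨nat_lit 0, nat_lit 8, [nat_lit 50, nat_lit 5, nat_lit 5, nat_lit 20], false, nat_lit 240, nat_lit 320, nat_lit 280, nat_lit 336, ⟨nat_lit 1000, nat_lit 0, nat_lit 0, nat_lit 0, nat_lit 0, nat_lit 0, nat_lit 0, nat_lit 0, nat_lit 0, nat_lit 0, nat_lit 0, nat_lit 0, nat_lit 0, nat_lit 0, nat_lit 0, nat_lit 0, false, false⟩,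
 nat_lit 10483, nat_lit 0, nat_lit 0, nat_lit 0, nat_lit 6662, nat_lit 6671, nat_lit 938, nat_lit 0, nat_lit 0, nat_lit 808, nat_lit 0, nat_lit 0, nat_lit 0, nat_lit 0, nat_lit 0, nat_lit 0, nat_lit 0, nat_lit 0, [],
 ⟨p072_k14, nat_lit 0, nat_lit 0, nat_lit 145, nat_lit 0, nat_lit 143612, [nat_lit 3282000000, nat_lit 6250000000, nat_lit 7968000000], [], [nat_lit 19982429802, nat_lit 20736467504, nat_lit 19580394746, nat_lit 20295456304, nat_lit 24723350354, nat_lit 25324766236, nat_lit 24090502750, nat_lit 24713942294], nat_lit 1271250, nat_lit 1271250, nat_lit 490000, nat_lit 780000, nat_lit 1271250, nat_lit 1271250, [nat_lit 780000, nat_lit 1435000, nat_lit 1271250], [nat_lit 18, nat_lit 40, nat_lit 40, nat_lit 80, nat_lit 2, nat_lit 238, nat_lit 30, nat_lit 7]⟩, ⟨p072_k8, nat_lit 0, nat_lit 0, nat_lit 152, nat_lit 0, nat_lit 159549, [nat_lit 3282000000, nat_lit 6250000000, nat_lit 7968000000], [], [nat_lit 22771269680,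 nat_lit 23448369902, nat_lit 22315567172, nat_lit 22958248448, nat_lit 26551983884, nat_lit 27120009847, nat_lit 25916910536, nat_lit 26508254804], nat_lit 1271250, nat_lit 1271250, nat_lit 490000, nat_lit 780000, nat_lit 1271250, nat_lit 1271250, [nat_lit 780000, nat_lit 1435000, nat_lit 1271250], [nat_lit 18, nat_lit 40, nat_lit 40, nat_lit 80, nat_lit 2, nat_lit 238, nat_lit 30, nat_lit 7]⟩,
 zbF0, [⟨nat_lit 0, nat_lit 100, nat_lit 94, nat_lit 97, nat_lit 200033697⟩, ⟨nat_lit 19, nat_lit 100, nat_lit 87, nat_lit 99, nat_lit 27536282⟩, ⟨nat_lit 11, nat_lit 95, nat_lit 100, nat_lit 97, nat_lit 564370680⟩]⟩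
noncomputable def p072_l25 : Lf2 := ⟨nat_lit 0, nat_lit 10, [nat_lit 0, nat_lit 5, nat_lit 5, nat_lit 20], false, nat_lit 240, nat_lit 320, nat_lit 280, nat_lit 336, ⟨nat_lit 1000, nat_lit 0, nat_lit 0, nat_lit 0, nat_lit 0, nat_lit 0, nat_lit 0, nat_lit 0, nat_lit 0, nat_lit 0, nat_lit 0, nat_lit 0, nat_lit 0, nat_lit 0, nat_lit 0, nat_lit 0, false, false⟩,
 nat_lit 12701, nat_lit 0, nat_lit 0, nat_lit 0, nat_lit 8083, nat_lit 8082, nat_lit 0, nat_lit 0, nat_lit 0, nat_lit 1034, nat_lit 0, nat_lit 0, nat_lit 0, nat_lit 0, nat_lit 0, nat_lit 0, nat_lit 0, nat_lit 0, [],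
 ⟨p072_k4, nat_lit 0, nat_lit 0, nat_lit 94, nat_lit 0, nat_lit 62377, [nat_lit 3282000000, nat_lit 6250000000, nat_lit 7968000000], [], [nat_lit 20103797828, nat_lit 21036919498, nat_lit 19547300466, nat_lit 20429834105, nat_lit 25913481176, nat_lit 26645240298, nat_lit 25045770000, nat_lit 25739281896], nat_lit 1271250, nat_lit 1271250, nat_lit 490000, nat_lit 780000, nat_lit 1271250, nat_lit 1271250, [nat_lit 780000, nat_lit 1435000, nat_lit 1271250], [nat_lit 18, nat_lit 40, nat_lit 40, nat_lit 80, nat_lit 2, nat_lit 238, nat_lit 30, nat_lit 7]⟩, ⟨p072_k0, nat_lit 0, nat_lit 0, nat_lit 147, nat_lit 0, nat_lit 69345, [nat_lit 3282000000, nat_lit 6250000000, nat_lit 9842000000], [], [nat_lit 22346875526, nat_lit 23022251356, nat_lit 21500023282, nat_lit 22139897070, nat_lit 26119892540, nat_lit 26680199343, nat_lit 25120021759, nat_lit 25775208980], nat_lit 1271250, nat_lit 1271250, nat_lit 490000, nat_lit 780000,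 nat_lit 1271250, nat_lit 1271250, [nat_lit 780000, nat_lit 1435000, nat_lit 1271250], [nat_lit 8, nat_lit 40, nat_lit 40, nat_lit 80, nat_lit 1, nat_lit 238, nat_lit 30, nat_lit 6]⟩,
 zbF0, [⟨nat_lit 0, nat_lit 100, nat_lit 94, nat_lit 97, nat_lit 242235231⟩, ⟨nat_lit 16, nat_lit 95, nat_lit 95, nat_lit 100, nat_lit 23895201⟩, ⟨nat_lit 11, nat_lit 95, nat_lit 100, nat_lit 97, nat_lit 600271138⟩]⟩
noncomputable def p072_l26 : Lf2 := ⟨nat_lit 0, nat_lit 8, [nat_lit 50, nat_lit 5, nat_lit 5, nat_lit 20], false, nat_lit 240, nat_lit 312, nat_lit 280, nat_lit 336, ⟨nat_lit 1000, nat_lit 0, nat_lit 0, nat_lit 0, nat_lit 0, nat_lit 0, nat_lit 0, nat_lit 0, nat_lit 0, nat_lit 0, nat_lit 0, nat_lit 0, nat_lit 0, nat_lit 0, nat_lit 0, nat_lit 0, false, false⟩,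
 nat_lit 11384, nat_lit 0, nat_lit 0, nat_lit 0, nat_lit 8206, nat_lit 7244, nat_lit 0, nat_lit 0, nat_lit 0, nat_lit 809, nat_lit 0, nat_lit 0, nat_lit 0, nat_lit 0, nat_lit 0, nat_lit 0, nat_lit 0, nat_lit 0, [],
 ⟨p072_k15, nat_lit 0, nat_lit 0, nat_lit 125, nat_lit 0, nat_lit 185437, [nat_lit 3282000000, nat_lit 6250000000], [], [nat_lit 20822304311, nat_lit 21754343783, nat_lit 20319064610, nat_lit 21210126208, nat_lit 25859130742, nat_lit 26776167647, nat_lit 25138070206, nat_lit 25856795911], nat_lit 1271250, nat_lit 1271250, nat_lit 545600, nat_lit 780000, nat_lit 1271250, nat_lit 1271250, [nat_lit 780000, nat_lit 1435000], [nat_lit 49, nat_lit 40, nat_lit 40, nat_lit 80, nat_lit 16, nat_lit 238, nat_lit 30, nat_lit 8]⟩, ⟨p072_k8, nat_lit 0, nat_lit 0, nat_lit 168, nat_lit 0, nat_lit 216592, [nat_lit 3282000000, nat_lit 6250000000, nat_lit 7968000000], [], [nat_lit 22291556238, nat_lit 22993274377, nat_lit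 21840197108, nat_lit 22512534572, nat_lit 26209827772, nat_lit 26796072429, nat_lit 25595601755, nat_lit 26210568584], nat_lit 1271250, nat_lit 1271250, nat_lit 545600, nat_lit 780000, nat_lit 1271250, nat_lit 1271250, [nat_lit 780000, nat_lit 1435000, nat_lit 1271250], [nat_lit 18, nat_lit 40, nat_lit 40, nat_lit 80, nat_lit 2, nat_lit 238, nat_lit 30, nat_lit 7]⟩,
 zbF0, [⟨nat_lit 0, nat_lit 100, nat_lit 89, nat_lit 100, nat_lit 372902153⟩, ⟨nat_lit 16, nat_lit 92, nat_lit 99, nat_lit 100, nat_lit 135222231⟩, ⟨nat_lit 7, nat_lit 87, nat_lit 100, nat_lit 99, nat_lit 64374575⟩, ⟨nat_lit 23, nat_lit 100, nat_lit 84, nat_lit 95, nat_lit 551812568⟩]⟩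
noncomputable def p072_l27 : Lf2 := ⟨nat_lit 0, nat_lit 9, [nat_lit 203, nat_lit 5, nat_lit 5, nat_lit 20], false, nat_lit 240, nat_lit 312, nat_lit 280, nat_lit 320, ⟨nat_lit 1000, nat_lit 0, nat_lit 0, nat_lit 0, nat_lit 0, nat_lit 0, nat_lit 0, nat_lit 0, nat_lit 0, nat_lit 0, nat_lit 0, nat_lit 0, nat_lit 0, nat_lit 0, nat_lit 0, nat_lit 0, false, false⟩,
 nat_lit 17482, nat_lit 0, nat_lit 0, nat_lit 0, nat_lit 6012, nat_lit 11124, nat_lit 950, nat_lit 0, nat_lit 0, nat_lit 0, nat_lit 0, nat_lit 0, nat_lit 0, nat_lit 0, nat_lit 0, nat_lit 0, nat_lit 0, nat_lit 0, [],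
 ⟨p072_k16, nat_lit 0, nat_lit 0, nat_lit 129, nat_lit 0, nat_lit 106231, [nat_lit 3282000000, nat_lit 6250000000, nat_lit 7968000000], [], [nat_lit 20262963464, nat_lit 20967281848, nat_lit 20007966504, nat_lit 20683502212, nat_lit 24153209371, nat_lit 24797063277, nat_lit 23743450697, nat_lit 24298997911], nat_lit 1271250, nat_lit 1271250, nat_lit 545600, nat_lit 780000, nat_lit 1271250, nat_lit 1271250, [nat_lit 780000, nat_lit 1435000, nat_lit 1271250], [nat_lit 18, nat_lit 40, nat_lit 40, nat_lit 80, nat_lit 2, nat_lit 238, nat_lit 30, nat_lit 7]⟩, ⟨p072_k17, nat_lit 0, nat_lit 0, nat_lit 126, nat_lit 0, nat_lit 124140, [nat_lit 3282000000, nat_lit 6250000000, nat_lit 7968000000], [], [nat_lit 22627750090, nat_lit 23542778213, nat_lit 21588654768, nat_lit 22461805512, nat_lit 25999691431, nat_lit 26795712451, nat_lit 24802819776, nat_lit 25562729948], nat_lit 1271250, nat_lit 1271250, nat_lit 545600, nat_lit 780000,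 nat_lit 1271250, nat_lit 1271250, [nat_lit 780000, nat_lit 1435000, nat_lit 1271250], [nat_lit 18, nat_lit 40, nat_lit 40, nat_lit 80, nat_lit 2, nat_lit 238, nat_lit 30, nat_lit 7]⟩,
 zbF0, [⟨nat_lit 0, nat_lit 100, nat_lit 89, nat_lit 100, nat_lit 585453319⟩, ⟨nat_lit 4, nat_lit 99, nat_lit 92, nat_lit 100, nat_lit 215990984⟩, ⟨nat_lit 7, nat_lit 87, nat_lit 100, nat_lit 99, nat_lit 246618273⟩, ⟨nat_lit 23, nat_lit 100, nat_lit 84, nat_lit 95, nat_lit 368914047⟩]⟩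
noncomputable def p072_l28 : Lf2 := ⟨nat_lit 0, nat_lit 10, [nat_lit 0, nat_lit 5, nat_lit 5, nat_lit 20], false, nat_lit 240, nat_lit 312, nat_lit 280, nat_lit 320, ⟨nat_lit 1000, nat_lit 0, nat_lit 0, nat_lit 0, nat_lit 0, nat_lit 0, nat_lit 0, nat_lit 0, nat_lit 0, nat_lit 0, nat_lit 0, nat_lit 0, nat_lit 0, nat_lit 0, nat_lit 0, nat_lit 0, false, false⟩,
 nat_lit 7789, nat_lit 3529, nat_lit 0, nat_lit 0, nat_lit 8159, nat_lit 4956, nat_lit 0, nat_lit 0, nat_lit 0, nat_lit 0, nat_lit 0, nat_lit 0, nat_lit 0, nat_lit 0, nat_lit 0, nat_lit 0, nat_lit 0, nat_lit 0, [],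
 ⟨p072_k13, nat_lit 0, nat_lit 0, nat_lit 89, nat_lit 0, nat_lit 57947, [nat_lit 3282000000, nat_lit 6250000000, nat_lit 7968000000], [], [nat_lit 20857916597, nat_lit 21322210055, nat_lit 20361391165, nat_lit 20805292639, nat_lit 25878260604, nat_lit 26252330345, nat_lit 25164920164, nat_lit 25523077135], nat_lit 1271250, nat_lit 1271250, nat_lit 545600, nat_lit 780000, nat_lit 1271250, nat_lit 1271250, [nat_lit 780000, nat_lit 1435000, nat_lit 1271250], [nat_lit 18, nat_lit 40, nat_lit 40, nat_lit 80, nat_lit 2, nat_lit 238, nat_lit 30, nat_lit 7]⟩, ⟨p072_k0, nat_lit 0, nat_lit 0, nat_lit 84, nat_lit 0, nat_lit 67748, [nat_lit 3282000000, nat_lit 6250000000, nat_lit 9842000000], [], [nat_lit 18913001684, nat_lit 19629719982, nat_lit 18923776704, nat_lit 19612470004, nat_lit 21624164685, nat_lit 22262618477, nat_lit 21528805504, nat_lit 22143206044], nat_lit 1271250, nat_lit 1271250, nat_lit 545600, nat_lit 780000,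 nat_lit 1271250, nat_lit 1271250, [nat_lit 780000, nat_lit 1435000, nat_lit 1271250], [nat_lit 8, nat_lit 40, nat_lit 40, nat_lit 80, nat_lit 1, nat_lit 238, nat_lit 30, nat_lit 6]⟩,
 zbF0, [⟨nat_lit 0, nat_lit 100, nat_lit 92, nat_lit 99, nat_lit 218897728⟩, ⟨nat_lit 16, nat_lit 93, nat_lit 98, nat_lit 100, nat_lit 106387140⟩, ⟨nat_lit 7, nat_lit 87, nat_lit 100, nat_lit 99, nat_lit 9797254⟩, ⟨nat_lit 23, nat_lit 100, nat_lit 84, nat_lit 95, nat_lit 589912345⟩]⟩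
noncomputable def p072_l29 : Lf2 := ⟨nat_lit 0, nat_lit 10, [nat_lit 0, nat_lit 5, nat_lit 5, nat_lit 20], false, nat_lit 240, nat_lit 304, nat_lit 280, nat_lit 320, ⟨nat_lit 1000, nat_lit 0, nat_lit 0, nat_lit 0, nat_lit 0, nat_lit 0, nat_lit 0, nat_lit 0, nat_lit 0, nat_lit 0, nat_lit 0, nat_lit 0, nat_lit 0, nat_lit 0, nat_lit 0, nat_lit 0, false, false⟩,
 nat_lit 13496, nat_lit 0, nat_lit 0, nat_lit 0, nat_lit 8280, nat_lit 8588, nat_lit 0, nat_lit 0, nat_lit 0, nat_lit 1055, nat_lit 0, nat_lit 0, nat_lit 0, nat_lit 0, nat_lit 0, nat_lit 0, nat_lit 0, nat_lit 0, [],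
 ⟨p072_k18, nat_lit 0, nat_lit 0, nat_lit 92, nat_lit 0, nat_lit 80753, [nat_lit 3282000000, nat_lit 6250000000, nat_lit 7968000000], [], [nat_lit 21101358436, nat_lit 21564935744, nat_lit 20700518920, nat_lit 21148615040, nat_lit 25472637272, nat_lit 25916608781, nat_lit 24928553016, nat_lit 25299462785], nat_lit 1271250, nat_lit 1271250, nat_lit 602400, nat_lit 780000, nat_lit 1271250, nat_lit 1271250, [nat_lit 780000, nat_lit 1435000, nat_lit 1271250], [nat_lit 18, nat_lit 40, nat_lit 40, nat_lit 80, nat_lit 2, nat_lit 238, nat_lit 30, nat_lit 7]⟩, ⟨p072_k0, nat_lit 0, nat_lit 0, nat_lit 141, nat_lit 0, nat_lit 96762, [nat_lit 3282000000, nat_lit 6250000000, nat_lit 9842000000], [], [nat_lit 21583275901, nat_lit 22267677630, nat_lit 21014006763, nat_lit 21676035255, nat_lit 24102715560, nat_lit 24704669333, nat_lit 23449417291, nat_lit 24032435544], nat_lit 1271250, nat_lit 1271250, nat_lit 602400, nat_lit 780000,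 nat_lit 1271250, nat_lit 1271250, [nat_lit 780000, nat_lit 1435000, nat_lit 1271250], [nat_lit 8, nat_lit 40, nat_lit 40, nat_lit 80, nat_lit 1, nat_lit 238, nat_lit 30, nat_lit 6]⟩,
 zbF0, [⟨nat_lit 0, nat_lit 100, nat_lit 89, nat_lit 97, nat_lit 456364099⟩, ⟨nat_lit 16, nat_lit 91, nat_lit 100, nat_lit 100, nat_lit 192823548⟩, ⟨nat_lit 7, nat_lit 87, nat_lit 100, nat_lit 99, nat_lit 58974794⟩, ⟨nat_lit 23, nat_lit 100, nat_lit 80, nat_lit 95, nat_lit 515449715⟩]⟩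
noncomputable def p072_l30 : Lf2 := ⟨nat_lit 0, nat_lit 10, [nat_lit 0, nat_lit 5, nat_lit 5, nat_lit 20], false, nat_lit 240, nat_lit 300, nat_lit 320, nat_lit 336, ⟨nat_lit 1000, nat_lit 0, nat_lit 0, nat_lit 0, nat_lit 0, nat_lit 0, nat_lit 0, nat_lit 0, nat_lit 0, nat_lit 0, nat_lit 0, nat_lit 0, nat_lit 0, nat_lit 0, nat_lit 0, nat_lit 0, false, false⟩,
 nat_lit 13642, nat_lit 0, nat_lit 0, nat_lit 0, nat_lit 8395, nat_lit 8681, nat_lit 0, nat_lit 0, nat_lit 0, nat_lit 1067, nat_lit 0, nat_lit 0, nat_lit 0, nat_lit 0, nat_lit 0, nat_lit 0, nat_lit 0, nat_lit 0, [],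
 ⟨p072_k13, nat_lit 0, nat_lit 0, nat_lit 96, nat_lit 0, nat_lit 89601, [nat_lit 3282000000, nat_lit 6250000000, nat_lit 7968000000], [], [nat_lit 20679097462, nat_lit 21625020608, nat_lit 20148857825, nat_lit 21053023360, nat_lit 24931686474, nat_lit 25888176343, nat_lit 24216558887, nat_lit 24974273200], nat_lit 1271250, nat_lit 1271250, nat_lit 545600, nat_lit 780000, nat_lit 1271250, nat_lit 1271250, [nat_lit 780000, nat_lit 1435000, nat_lit 1271250], [nat_lit 18, nat_lit 40, nat_lit 40, nat_lit 80, nat_lit 2, nat_lit 238, nat_lit 30, nat_lit 7]⟩, ⟨p072_k0, nat_lit 0, nat_lit 0, nat_lit 154, nat_lit 0, nat_lit 104756, [nat_lit 3282000000, nat_lit 6250000000, nat_lit 9842000000], [], [nat_lit 24209207668, nat_lit 24514448677, nat_lit 23322177367, nat_lit 23614366493, nat_lit 26077621121, nat_lit 26536114156, nat_lit 25111343041, nat_lit 25551600357], nat_lit 1271250, nat_lit 1271250, nat_lit 545600, nat_lit 780000,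 nat_lit 1271250, nat_lit 1271250, [nat_lit 780000, nat_lit 1435000, nat_lit 1271250], [nat_lit 8, nat_lit 40, nat_lit 40, nat_lit 80, nat_lit 1, nat_lit 238, nat_lit 30, nat_lit 6]⟩,
 zbF0, [⟨nat_lit 0, nat_lit 100, nat_lit 88, nat_lit 98, nat_lit 321119314⟩, ⟨nat_lit 16, nat_lit 92, nat_lit 99, nat_lit 100, nat_lit 37618912⟩, ⟨nat_lit 7, nat_lit 85, nat_lit 100, nat_lit 98, nat_lit 265256203⟩, ⟨nat_lit 11, nat_lit 83, nat_lit 100, nat_lit 94, nat_lit 680971317⟩]⟩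
noncomputable def p072_l31 : Lf2 := ⟨nat_lit 0, nat_lit 10, [nat_lit 0, nat_lit 5, nat_lit 5, nat_lit 20], false, nat_lit 240, nat_lit 300, nat_lit 320, nat_lit 332, ⟨nat_lit 1000, nat_lit 0, nat_lit 0, nat_lit 0, nat_lit 0, nat_lit 0, nat_lit 0, nat_lit 0, nat_lit 0, nat_lit 0, nat_lit 0, nat_lit 0, nat_lit 0, nat_lit 0, nat_lit 0, nat_lit 0, false, false⟩,
 nat_lit 12569, nat_lit 0, nat_lit 0, nat_lit 0, nat_lit 9061, nat_lit 8171, nat_lit 357, nat_lit 0, nat_lit 0, nat_lit 1058, nat_lit 0, nat_lit 0, nat_lit 0, nat_lit 0, nat_lit 0, nat_lit 0, nat_lit 0, nat_lit 0, [],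
 ⟨p072_k13, nat_lit 0, nat_lit 0, nat_lit 124, nat_lit 0, nat_lit 108664, [nat_lit 3282000000, nat_lit 6250000000, nat_lit 7968000000], [], [nat_lit 21577090607, nat_lit 22473061189, nat_lit 20952506437, nat_lit 21813448786, nat_lit 25560492682, nat_lit 26308317706, nat_lit 24780398907, nat_lit 25499494906], nat_lit 1271250, nat_lit 1271250, nat_lit 573850, nat_lit 780000, nat_lit 1271250, nat_lit 1271250, [nat_lit 780000, nat_lit 1435000, nat_lit 1271250], [nat_lit 18, nat_lit 40, nat_lit 40, nat_lit 80, nat_lit 2, nat_lit 238, nat_lit 30, nat_lit 7]⟩, ⟨p072_k19, nat_lit 0, nat_lit 0, nat_lit 158, nat_lit 0, nat_lit 123639, [nat_lit 3282000000, nat_lit 6250000000, nat_lit 9842000000], [], [nat_lit 24226869586, nat_lit 24520933473, nat_lit 23516448588, nat_lit 23799536254, nat_lit 25502077809, nat_lit 25948127197, nat_lit 24742345246, nat_lit 25172899609], nat_lit 1271250, nat_lit 1271250, nat_lit 573850, nat_lit 780000,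 nat_lit 1271250, nat_lit 1271250, [nat_lit 780000, nat_lit 1435000, nat_lit 1271250], [nat_lit 8, nat_lit 40, nat_lit 40, nat_lit 80, nat_lit 1, nat_lit 238, nat_lit 30, nat_lit 6]⟩,
 zbF0, [⟨nat_lit 0, nat_lit 100, nat_lit 89, nat_lit 100, nat_lit 317549363⟩, ⟨nat_lit 16, nat_lit 92, nat_lit 99, nat_lit 100, nat_lit 18464591⟩, ⟨nat_lit 7, nat_lit 88, nat_lit 100, nat_lit 99, nat_lit 230217476⟩, ⟨nat_lit 11, nat_lit 84, nat_lit 100, nat_lit 96, nat_lit 656386155⟩]⟩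
noncomputable def b_V_700_700_20_38 : St := ⟨true, nat_lit 1, nat_lit 1, nat_lit 1, nat_lit 120, nat_lit 300, nat_lit 320, nat_lit 280, nat_lit 290, nat_lit 64, nat_lit 120, nat_lit 80, nat_lit 120, nat_lit 240, nat_lit 336, nat_lit 240, nat_lit 336, nat_lit 0, nat_lit 40, nat_lit 0, nat_lit 0, nat_lit 0, nat_lit 0⟩
theorem d_V_700_700_20_38 (h : EB TB.env) : Dead b_V_700_700_20_38 := chkB_sound0 h (T :=
(.trZ (nat_lit 0) (nat_lit 100) (nat_lit 94) (nat_lit 88) (nat_lit 80) (.trX (nat_lit 16) (nat_lit 94) (nat_lit 88) (nat_lit 100) (nat_lit 320) (.spl (nat_lit 6) (nat_lit 20)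
(.leaf p072_l19)
(.spl (nat_lit 3) (nat_lit 100)
(.trX (nat_lit 16) (nat_lit 100) (nat_lit 100) (nat_lit 100) (nat_lit 300) (.trX (nat_lit 19) (nat_lit 100) (nat_lit 88) (nat_lit 94) (nat_lit 320) (.spl (nat_lit 0) (nat_lit 310)
(.spl (nat_lit 0) (nat_lit 305)
(.leaf p072_l20)
(.trZ (nat_lit 0) (nat_lit 100) (nat_lit 93) (nat_lit 90) (nat_lit 84) (.trX (nat_lit 16) (nat_lit 97) (nat_lit 100) (nat_lit 98) (nat_lit 296) (.leaf p072_l21))))
(.trZ (nat_lit 0) (nat_lit 100) (nat_lit 91) (nat_lit 91) (nat_lit 88) (.trX (nat_lit 16) (nat_lit 93) (nat_lit 100) (nat_lit 97) (nat_lit 292) (.leaf p072_l22))))))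
(.spl (nat_lit 5) (nat_lit 280)
(.leaf p072_l23)
(.spl (nat_lit 0) (nat_lit 310)
(.spl (nat_lit 6) (nat_lit 32)
(.leaf p072_l24)
(.leaf p072_l25))
(.trZ (nat_lit 0) (nat_lit 100) (nat_lit 91) (nat_lit 91) (nat_lit 88) (.trX (nat_lit 16) (nat_lit 91) (nat_lit 91) (nat_lit 100) (nat_lit 312) (.spl (nat_lit 6) (nat_lit 32)
(.leaf p072_l26)
(.spl (nat_lit 5) (nat_lit 320)
(.spl (nat_lit 6) (nat_lit 36)
(.leaf p072_l27)
(.spl (nat_lit 0) (nat_lit 315)
(.leaf p072_l28)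
(.trZ (nat_lit 0) (nat_lit 100) (nat_lit 89) (nat_lit 93) (nat_lit 96) (.trX (nat_lit 16) (nat_lit 89) (nat_lit 93) (nat_lit 100) (nat_lit 304) (.leaf p072_l29)))))
(.trX (nat_lit 11) (nat_lit 87) (nat_lit 95) (nat_lit 100) (nat_lit 300) (.spl (nat_lit 1) (nat_lit 285)
(.leaf p072_l30)
(.trZ (nat_lit 0) (nat_lit 100) (nat_lit 92) (nat_lit 94) (nat_lit 92) (.trX (nat_lit 19) (nat_lit 99) (nat_lit 82) (nat_lit 100) (nat_lit 332) (.leaf p072_l31)))))))))))))))) (by decide +kernel)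
noncomputable def p072_l32 : Lf2 := ⟨nat_lit 0, nat_lit 10, [nat_lit 0, nat_lit 5, nat_lit 5, nat_lit 20], false, nat_lit 240, nat_lit 336, nat_lit 160, nat_lit 240, ⟨nat_lit 1000, nat_lit 0, nat_lit 0, nat_lit 0, nat_lit 0, nat_lit 0, nat_lit 0, nat_lit 0, nat_lit 0, nat_lit 0, nat_lit 0, nat_lit 0, nat_lit 0, nat_lit 0, nat_lit 0, nat_lit 0, false, false⟩,
 nat_lit 16294, nat_lit 0, nat_lit 0, nat_lit 0, nat_lit 8250, nat_lit 10368, nat_lit 1227, nat_lit 0, nat_lit 0, nat_lit 1308, nat_lit 0, nat_lit 0, nat_lit 0, nat_lit 0, nat_lit 0, nat_lit 0, nat_lit 0, nat_lit 0, [],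
 ⟨p072_k0, nat_lit 0, nat_lit 0, nat_lit 222, nat_lit 0, nat_lit 341911, [nat_lit 3282000000, nat_lit 6250000000, nat_lit 9842000000], [], [nat_lit 17764714375, nat_lit 18491215250, nat_lit 17962988000, nat_lit 18797369250, nat_lit 25025140600, nat_lit 25687929251, nat_lit 24894428000, nat_lit 25528477801], nat_lit 1271250, nat_lit 1271250, nat_lit 780000, nat_lit 1100001, nat_lit 1271250, nat_lit 1271250, [nat_lit 780000, nat_lit 1435000, nat_lit 1271250], [nat_lit 8, nat_lit 40, nat_lit 40, nat_lit 80, nat_lit 1, nat_lit 345, nat_lit 125, nat_lit 9]⟩, ⟨p072_k0, nat_lit 0, nat_lit 0, nat_lit 196, nat_lit 0, nat_lit 341911, [nat_lit 3282000000, nat_lit 6250000000, nat_lit 9842000000], [], [nat_lit 12537662252, nat_lit 13545665964, nat_lit 12647671628, nat_lit 13585885948, nat_lit 15452028460, nat_lit 16290123992, nat_lit 15467306240, nat_lit 16596170696], nat_lit 1271250, nat_lit 1271250, nat_lit 780000, nat_lit 1100001,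 nat_lit 1100001, nat_lit 1785000, [nat_lit 780000, nat_lit 1435000, nat_lit 1271250], [nat_lit 8, nat_lit 40, nat_lit 40, nat_lit 80, nat_lit 1, nat_lit 317, nat_lit 100, nat_lit 9]⟩,
 zbF0, [⟨nat_lit 16, nat_lit 100, nat_lit 80, nat_lit 100, nat_lit 622735073⟩]⟩
noncomputable def p072_l33 : Lf2 := ⟨nat_lit 0, nat_lit 10, [nat_lit 0, nat_lit 5, nat_lit 5, nat_lit 20], false, nat_lit 240, nat_lit 336, nat_lit 240, nat_lit 336, ⟨nat_lit 1000, nat_lit 0, nat_lit 0, nat_lit 0, nat_lit 0, nat_lit 0, nat_lit 0, nat_lit 0, nat_lit 0, nat_lit 0, nat_lit 0, nat_lit 0, nat_lit 0, nat_lit 0, nat_lit 0, nat_lit 0, false, false⟩,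
 nat_lit 13088, nat_lit 0, nat_lit 0, nat_lit 0, nat_lit 8250, nat_lit 8328, nat_lit 1227, nat_lit 0, nat_lit 0, nat_lit 1022, nat_lit 0, nat_lit 0, nat_lit 0, nat_lit 0, nat_lit 0, nat_lit 0, nat_lit 0, nat_lit 0, [],
 ⟨p072_k0, nat_lit 0, nat_lit 0, nat_lit 212, nat_lit 0, nat_lit 315037, [nat_lit 3282000000, nat_lit 6250000000, nat_lit 9842000000], [], [nat_lit 17764714375, nat_lit 18491215250, nat_lit 17962988000, nat_lit 18797369250, nat_lit 25025140600, nat_lit 25687929251, nat_lit 24894428000, nat_lit 25528477801], nat_lit 1271250, nat_lit 1271250, nat_lit 780000, nat_lit 1100001, nat_lit 1271250, nat_lit 1271250, [nat_lit 780000, nat_lit 1435000, nat_lit 1271250], [nat_lit 8, nat_lit 40, nat_lit 40, nat_lit 80, nat_lit 1, nat_lit 345, nat_lit 125, nat_lit 9]⟩, ⟨p072_k0, nat_lit 0, nat_lit 0, nat_lit 211, nat_lit 0, nat_lit 315037, [nat_lit 3282000000, nat_lit 6250000000, nat_lit 9842000000], [], [nat_lit 19009985910,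 nat_lit 19374741074, nat_lit 19039705302, nat_lit 19380249994, nat_lit 25042046448, nat_lit 25314247577, nat_lit 24841035066, nat_lit 25171737704], nat_lit 1271250, nat_lit 1271250, nat_lit 780000, nat_lit 1100001, nat_lit 1271250, nat_lit 1271250, [nat_lit 780000, nat_lit 1435000, nat_lit 1271250], [nat_lit 8, nat_lit 40, nat_lit 40, nat_lit 80, nat_lit 1, nat_lit 345, nat_lit 125, nat_lit 9]⟩,
 zbF0, [⟨nat_lit 4, nat_lit 91, nat_lit 100, nat_lit 96, nat_lit 107437747⟩, ⟨nat_lit 19, nat_lit 100, nat_lit 89, nat_lit 95, nat_lit 39506671⟩, ⟨nat_lit 11, nat_lit 85, nat_lit 85, nat_lit 100, nat_lit 611288043⟩]⟩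
noncomputable def p072_l34 : Lf2 := ⟨nat_lit 0, nat_lit 10, [nat_lit 0, nat_lit 5, nat_lit 5, nat_lit 20], false, nat_lit 240, nat_lit 332, nat_lit 240, nat_lit 332, ⟨nat_lit 1000, nat_lit 0, nat_lit 0, nat_lit 0, nat_lit 0, nat_lit 0, nat_lit 0, nat_lit 0, nat_lit 0, nat_lit 0, nat_lit 0, nat_lit 0, nat_lit 0, nat_lit 0, nat_lit 0, nat_lit 0, false, false⟩,
 nat_lit 12205, nat_lit 0, nat_lit 0, nat_lit 0, nat_lit 7935, nat_lit 7935, nat_lit 1026, nat_lit 0, nat_lit 0, nat_lit 1026, nat_lit 0, nat_lit 0, nat_lit 0, nat_lit 0, nat_lit 0, nat_lit 0, nat_lit 0, nat_lit 0, [],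
 ⟨p072_k19, nat_lit 0, nat_lit 0, nat_lit 217, nat_lit 0, nat_lit 332750, [nat_lit 3282000000, nat_lit 6250000000, nat_lit 9842000000], [], [nat_lit 19261540980, nat_lit 19616102510, nat_lit 19308137068, nat_lit 19639435845, nat_lit 24749262056, nat_lit 25016462142, nat_lit 24594625491, nat_lit 24924767677], nat_lit 1271250, nat_lit 1271250, nat_lit 780000, nat_lit 1100001, nat_lit 1271250, nat_lit 1271250, [nat_lit 780000, nat_lit 1435000, nat_lit 1271250], [nat_lit 8, nat_lit 40, nat_lit 40, nat_lit 80, nat_lit 1, nat_lit 345, nat_lit 125, nat_lit 9]⟩, ⟨p072_k19, nat_lit 0, nat_lit 0, nat_lit 217, nat_lit 0, nat_lit 332750, [nat_lit 3282000000, nat_lit 6250000000, nat_lit 9842000000], [], [nat_lit 19261540980, nat_lit 19616102510, nat_lit 19308137068, nat_lit 19639435845, nat_lit 24749262056, nat_lit 25016462142, nat_lit 24594625491, nat_lit 24924767677], nat_lit 1271250, nat_lit 1271250, nat_lit 780000, nat_lit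 1100001, nat_lit 1271250, nat_lit 1271250, [nat_lit 780000, nat_lit 1435000, nat_lit 1271250], [nat_lit 8, nat_lit 40, nat_lit 40, nat_lit 80, nat_lit 1, nat_lit 345, nat_lit 125, nat_lit 9]⟩,
 zbF0, [⟨nat_lit 4, nat_lit 92, nat_lit 100, nat_lit 96, nat_lit 85630895⟩, ⟨nat_lit 7, nat_lit 92, nat_lit 100, nat_lit 96, nat_lit 85630895⟩, ⟨nat_lit 11, nat_lit 85, nat_lit 85, nat_lit 100, nat_lit 539089385⟩]⟩
noncomputable def p072_l35 : Lf2 := ⟨nat_lit 0, nat_lit 5, [nat_lit 4, nat_lit 5, nat_lit 5, nat_lit 20], false, nat_lit 240, nat_lit 328, nat_lit 160, nat_lit 336, ⟨nat_lit 1000, nat_lit 0, nat_lit 0, nat_lit 0, nat_lit 0, nat_lit 0, nat_lit 0, nat_lit 0, nat_lit 0, nat_lit 0, nat_lit 0, nat_lit 0, nat_lit 0, nat_lit 0, nat_lit 0, nat_lit 0, false, false⟩,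
 nat_lit 10919, nat_lit 1322, nat_lit 0, nat_lit 0, nat_lit 8129, nat_lit 6948, nat_lit 108, nat_lit 0, nat_lit 0, nat_lit 2574, nat_lit 0, nat_lit 0, nat_lit 0, nat_lit 0, nat_lit 0, nat_lit 0, nat_lit 0, nat_lit 0, [],
 ⟨p072_k6, nat_lit 0, nat_lit 0, nat_lit 160, nat_lit 0, nat_lit 332378, [nat_lit 3282000000, nat_lit 4688000000, nat_lit 6250000000], [], [nat_lit 18387799701, nat_lit 18830661180, nat_lit 18703127921, nat_lit 19116490772, nat_lit 24807796095, nat_lit 25146069609, nat_lit 24692068334, nat_lit 25008220673], nat_lit 1271250, nat_lit 1271250, nat_lit 780000, nat_lit 1100001, nat_lit 1271250, nat_lit 1271250, [nat_lit 780000, nat_lit 1100000, nat_lit 1442500], [nat_lit 59, nat_lit 40, nat_lit 40, nat_lit 80, nat_lit 3, nat_lit 249, nat_lit 40, nat_lit 8]⟩, ⟨p072_k5, nat_lit 0, nat_lit 0, nat_lit 189, nat_lit 0, nat_lit 350462, [nat_lit 3282000000, nat_lit 4688000000, nat_lit 7968000000], [], [nat_lit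 22567577984, nat_lit 20785214492, nat_lit 15438124016, nat_lit 14454343380, nat_lit 23998727927, nat_lit 24768665373, nat_lit 27476068176, nat_lit 25890473434], nat_lit 1271250, nat_lit 1271250, nat_lit 780000, nat_lit 1100001, nat_lit 1100001, nat_lit 2607000, [nat_lit 780000, nat_lit 1100000, nat_lit 1785000], [nat_lit 36, nat_lit 40, nat_lit 40, nat_lit 80, nat_lit 7, nat_lit 345, nat_lit 125, nat_lit 11]⟩,
 zbF0, [⟨nat_lit 16, nat_lit 97, nat_lit 84, nat_lit 100, nat_lit 110050036⟩, ⟨nat_lit 4, nat_lit 95, nat_lit 100, nat_lit 98, nat_lit 184227217⟩, ⟨nat_lit 11, nat_lit 85, nat_lit 85, nat_lit 100, nat_lit 345203445⟩]⟩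
noncomputable def p072_l36 : Lf2 := ⟨nat_lit 0, nat_lit 5, [nat_lit 4, nat_lit 5, nat_lit 5, nat_lit 20], false, nat_lit 240, nat_lit 324, nat_lit 160, nat_lit 336, ⟨nat_lit 1000, nat_lit 0, nat_lit 0, nat_lit 0, nat_lit 0, nat_lit 0, nat_lit 0, nat_lit 0, nat_lit 0, nat_lit 0, nat_lit 0, nat_lit 0, nat_lit 0, nat_lit 0, nat_lit 0, nat_lit 0, false, false⟩,
 nat_lit 10849, nat_lit 995, nat_lit 0, nat_lit 0, nat_lit 8031, nat_lit 6903, nat_lit 148, nat_lit 0, nat_lit 0, nat_lit 2562, nat_lit 0, nat_lit 0, nat_lit 0, nat_lit 0, nat_lit 0, nat_lit 0, nat_lit 0, nat_lit 0, [],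
 ⟨p072_k20, nat_lit 0, nat_lit 0, nat_lit 165, nat_lit 0, nat_lit 348558, [nat_lit 3282000000, nat_lit 4688000000, nat_lit 6250000000], [], [nat_lit 18810933501, nat_lit 19250397662, nat_lit 19104490589, nat_lit 19514753258, nat_lit 24732696732, nat_lit 25073412065, nat_lit 24627960171, nat_lit 24946713805], nat_lit 1271250, nat_lit 1271250, nat_lit 780000, nat_lit 1100001, nat_lit 1271250, nat_lit 1271250, [nat_lit 780000, nat_lit 1100000, nat_lit 1442500], [nat_lit 59, nat_lit 40, nat_lit 40, nat_lit 80, nat_lit 3, nat_lit 249, nat_lit 40, nat_lit 8]⟩, ⟨p072_k5, nat_lit 0, nat_lit 0, nat_lit 197, nat_lit 0, nat_lit 377135, [nat_lit 3282000000, nat_lit 4688000000, nat_lit 7968000000], [], [nat_lit 22593461624, nat_lit 20822641937, nat_lit 15878009348, nat_lit 16578569547, nat_lit 23969837171, nat_lit 24736903311, nat_lit 27539040636, nat_lit 25963715290], nat_lit 1271250, nat_lit 1271250, nat_lit 780000, nat_lit 1100001,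 nat_lit 1100001, nat_lit 2607000, [nat_lit 780000, nat_lit 1100000, nat_lit 1785000], [nat_lit 36, nat_lit 40, nat_lit 40, nat_lit 80, nat_lit 7, nat_lit 345, nat_lit 125, nat_lit 11]⟩,
 zbF0, [⟨nat_lit 16, nat_lit 96, nat_lit 86, nat_lit 100, nat_lit 283446843⟩, ⟨nat_lit 11, nat_lit 85, nat_lit 85, nat_lit 100, nat_lit 348467195⟩]⟩
noncomputable def p072_l37 : Lf2 := ⟨nat_lit 0, nat_lit 10, [nat_lit 0, nat_lit 5, nat_lit 5, nat_lit 20], false, nat_lit 240, nat_lit 328, nat_lit 160, nat_lit 336, ⟨nat_lit 1000, nat_lit 0, nat_lit 0, nat_lit 0, nat_lit 0, nat_lit 0, nat_lit 0, nat_lit 0, nat_lit 0, nat_lit 0, nat_lit 0, nat_lit 0, nat_lit 0, nat_lit 0, nat_lit 0, nat_lit 0, false, false⟩,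
 nat_lit 12974, nat_lit 1355, nat_lit 0, nat_lit 0, nat_lit 9516, nat_lit 8255, nat_lit 325, nat_lit 0, nat_lit 0, nat_lit 1009, nat_lit 0, nat_lit 0, nat_lit 0, nat_lit 0, nat_lit 0, nat_lit 0, nat_lit 0, nat_lit 0, [],
 ⟨p072_k3, nat_lit 0, nat_lit 0, nat_lit 137, nat_lit 0, nat_lit 174419, [nat_lit 3282000000, nat_lit 6250000000, nat_lit 7968000000], [], [nat_lit 19484470284, nat_lit 20373080728, nat_lit 19529534948, nat_lit 20357217064, nat_lit 25851449679, nat_lit 26523087160, nat_lit 25450637252, nat_lit 26199365191], nat_lit 1271250, nat_lit 1271250, nat_lit 780000, nat_lit 1100001, nat_lit 1271250, nat_lit 1271250, [nat_lit 780000, nat_lit 1435000, nat_lit 1271250], [nat_lit 18, nat_lit 40, nat_lit 40, nat_lit 80, nat_lit 2, nat_lit 249, nat_lit 40, nat_lit 7]⟩, ⟨p072_k0, nat_lit 0, nat_lit 0, nat_lit 168, nat_lit 0, nat_lit 184069, [nat_lit 3282000000, nat_lit 6250000000, nat_lit 9842000000], [], [nat_lit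 21815802040, nat_lit 19698155145, nat_lit 16686657605, nat_lit 17496792430, nat_lit 25158090922, nat_lit 25695059273, nat_lit 28341165692, nat_lit 26432266284], nat_lit 1271250, nat_lit 1271250, nat_lit 780000, nat_lit 1100001, nat_lit 1100001, nat_lit 2607000, [nat_lit 780000, nat_lit 1435000, nat_lit 1271250], [nat_lit 8, nat_lit 40, nat_lit 40, nat_lit 80, nat_lit 1, nat_lit 345, nat_lit 125, nat_lit 9]⟩,
 zbF0, [⟨nat_lit 4, nat_lit 97, nat_lit 100, nat_lit 98, nat_lit 321610995⟩, ⟨nat_lit 19, nat_lit 100, nat_lit 91, nat_lit 96, nat_lit 63509947⟩, ⟨nat_lit 11, nat_lit 85, nat_lit 85, nat_lit 100, nat_lit 329621757⟩]⟩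
noncomputable def p072_l38 : Lf2 := ⟨nat_lit 0, nat_lit 10, [nat_lit 0, nat_lit 5, nat_lit 5, nat_lit 20], false, nat_lit 240, nat_lit 320, nat_lit 160, nat_lit 240, ⟨nat_lit 1000, nat_lit 0, nat_lit 0, nat_lit 0, nat_lit 0, nat_lit 0, nat_lit 0, nat_lit 0, nat_lit 0, nat_lit 0, nat_lit 0, nat_lit 0, nat_lit 0, nat_lit 0, nat_lit 0, nat_lit 0, false, false⟩,
 nat_lit 12872, nat_lit 0, nat_lit 0, nat_lit 0, nat_lit 8911, nat_lit 8191, nat_lit 480, nat_lit 0, nat_lit 0, nat_lit 2014, nat_lit 0, nat_lit 0, nat_lit 0, nat_lit 0, nat_lit 0, nat_lit 0, nat_lit 0, nat_lit 0, [],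
 ⟨p072_k21, nat_lit 0, nat_lit 0, nat_lit 258, nat_lit 0, nat_lit 463810, [nat_lit 3282000000, nat_lit 4688000000, nat_lit 7968000000], [], [nat_lit 20287091638, nat_lit 21990733636, nat_lit 20329068394, nat_lit 21917457916, nat_lit 25530460930, nat_lit 27059387452, nat_lit 25206178062, nat_lit 26748845188], nat_lit 1271250, nat_lit 1271250, nat_lit 780000, nat_lit 1100001, nat_lit 1271250, nat_lit 1271250, [nat_lit 780000, nat_lit 1100000, nat_lit 1785000], [nat_lit 36, nat_lit 40, nat_lit 40, nat_lit 80, nat_lit 7, nat_lit 249, nat_lit 40, nat_lit 7]⟩, ⟨p072_k22, nat_lit 0, nat_lit 0, nat_lit 311, nat_lit 0, nat_lit 515621, [nat_lit 3282000000, nat_lit 4688000000, nat_lit 9842000000], [], [nat_lit 14853698172, nat_lit 13747777768, nat_lit 13166976686, nat_lit 13973232151, nat_lit 16177164846, nat_lit 16347541586, nat_lit 20222384918, nat_lit 18318378777], nat_lit 1271250, nat_lit 1271250, nat_lit 780000, nat_lit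 1100001, nat_lit 1100001, nat_lit 1785000, [nat_lit 780000, nat_lit 1100000, nat_lit 2127500], [nat_lit 42, nat_lit 40, nat_lit 40, nat_lit 80, nat_lit 13, nat_lit 317, nat_lit 100, nat_lit 9]⟩,
 zbF0, [⟨nat_lit 16, nat_lit 94, nat_lit 88, nat_lit 100, nat_lit 596655245⟩]⟩
noncomputable def p072_l39 : Lf2 := ⟨nat_lit 0, nat_lit 5, [nat_lit 4, nat_lit 5, nat_lit 5, nat_lit 20], false, nat_lit 240, nat_lit 320, nat_lit 240, nat_lit 336, ⟨nat_lit 1000, nat_lit 0, nat_lit 0, nat_lit 0, nat_lit 0, nat_lit 0, nat_lit 0, nat_lit 0, nat_lit 0, nat_lit 0, nat_lit 0, nat_lit 0, nat_lit 0, nat_lit 0, nat_lit 0, nat_lit 0, false, false⟩,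
 nat_lit 10668, nat_lit 0, nat_lit 0, nat_lit 0, nat_lit 6945, nat_lit 6788, nat_lit 895, nat_lit 0, nat_lit 0, nat_lit 1450, nat_lit 0, nat_lit 0, nat_lit 0, nat_lit 0, nat_lit 0, nat_lit 0, nat_lit 0, nat_lit 0, [],
 ⟨p072_k11, nat_lit 0, nat_lit 0, nat_lit 213, nat_lit 0, nat_lit 440835, [nat_lit 3282000000, nat_lit 4688000000, nat_lit 6250000000], [], [nat_lit 18617218305, nat_lit 19950887885, nat_lit 18895760875, nat_lit 20200534545, nat_lit 23935592890, nat_lit 25566540740, nat_lit 23994287940, nat_lit 25524208060], nat_lit 1271250, nat_lit 1271250, nat_lit 780000, nat_lit 1100001, nat_lit 1271250, nat_lit 1271250, [nat_lit 780000, nat_lit 1100000, nat_lit 1442500], [nat_lit 59, nat_lit 40, nat_lit 40, nat_lit 80, nat_lit 3, nat_lit 249, nat_lit 40, nat_lit 8]⟩, ⟨p072_k5, nat_lit 0, nat_lit 0, nat_lit 265, nat_lit 0, nat_lit 489247, [nat_lit 3282000000, nat_lit 4688000000, nat_lit 7968000000], [], [nat_lit 19151214048,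 nat_lit 19752891988, nat_lit 19414107472, nat_lit 19977493956, nat_lit 24199100151, nat_lit 24657678342, nat_lit 24204044442, nat_lit 24711160366], nat_lit 1271250, nat_lit 1271250, nat_lit 780000, nat_lit 1100001, nat_lit 1271250, nat_lit 1271250, [nat_lit 780000, nat_lit 1100000, nat_lit 1785000], [nat_lit 36, nat_lit 40, nat_lit 40, nat_lit 80, nat_lit 7, nat_lit 249, nat_lit 40, nat_lit 7]⟩,
 zbF0, [⟨nat_lit 4, nat_lit 100, nat_lit 93, nat_lit 97, nat_lit 183521645⟩, ⟨nat_lit 19, nat_lit 100, nat_lit 80, nat_lit 100, nat_lit 73944192⟩, ⟨nat_lit 11, nat_lit 85, nat_lit 85, nat_lit 100, nat_lit 505166059⟩]⟩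
noncomputable def p072_l40 : Lf2 := ⟨nat_lit 0, nat_lit 10, [nat_lit 0, nat_lit 5, nat_lit 5, nat_lit 20], false, nat_lit 240, nat_lit 320, nat_lit 240, nat_lit 336, ⟨nat_lit 1000, nat_lit 0, nat_lit 0, nat_lit 0, nat_lit 0, nat_lit 0, nat_lit 0, nat_lit 0, nat_lit 0, nat_lit 0, nat_lit 0, nat_lit 0, nat_lit 0, nat_lit 0, nat_lit 0, nat_lit 0, false, false⟩,
 nat_lit 12965, nat_lit 0, nat_lit 0, nat_lit 0, nat_lit 8426, nat_lit 8250, nat_lit 535, nat_lit 0, nat_lit 0, nat_lit 1010, nat_lit 0, nat_lit 0, nat_lit 0, nat_lit 0, nat_lit 0, nat_lit 0, nat_lit 0, nat_lit 0, [],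
 ⟨p072_k4, nat_lit 0, nat_lit 0, nat_lit 152, nat_lit 0, nat_lit 217567, [nat_lit 3282000000, nat_lit 6250000000, nat_lit 7968000000], [], [nat_lit 20045338633, nat_lit 20867667267, nat_lit 20133683329, nat_lit 20901032855, nat_lit 25128283505, nat_lit 25772980983, nat_lit 24866947817, nat_lit 25587719400], nat_lit 1271250, nat_lit 1271250, nat_lit 780000, nat_lit 1100001, nat_lit 1271250, nat_lit 1271250, [nat_lit 780000, nat_lit 1435000, nat_lit 1271250], [nat_lit 18, nat_lit 40, nat_lit 40, nat_lit 80, nat_lit 2, nat_lit 249, nat_lit 40, nat_lit 7]⟩, ⟨p072_k0, nat_lit 0, nat_lit 0, nat_lit 187, nat_lit 0, nat_lit 241871, [nat_lit 3282000000, nat_lit 6250000000, nat_lit 9842000000], [], [nat_lit 19152836250, nat_lit 19878300250, nat_lit 19190522250, nat_lit 19867941500, nat_lit 25153946451, nat_lit 25690753050, nat_lit 24894428000, nat_lit 25528477801], nat_lit 1271250, nat_lit 1271250, nat_lit 780000, nat_lit 1100001,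 nat_lit 1271250, nat_lit 1271250, [nat_lit 780000, nat_lit 1435000, nat_lit 1271250], [nat_lit 8, nat_lit 40, nat_lit 40, nat_lit 80, nat_lit 1, nat_lit 345, nat_lit 125, nat_lit 9]⟩,
 zbF0, [⟨nat_lit 4, nat_lit 100, nat_lit 97, nat_lit 98, nat_lit 174379184⟩, ⟨nat_lit 7, nat_lit 91, nat_lit 100, nat_lit 96, nat_lit 172710901⟩, ⟨nat_lit 11, nat_lit 85, nat_lit 85, nat_lit 100, nat_lit 452745843⟩]⟩
noncomputable def p072_l41 : Lf2 := ⟨nat_lit 0, nat_lit 10, [nat_lit 0, nat_lit 5, nat_lit 5, nat_lit 20], false, nat_lit 240, nat_lit 312, nat_lit 240, nat_lit 336, ⟨nat_lit 1000, nat_lit 0, nat_lit 0, nat_lit 0, nat_lit 0, nat_lit 0, nat_lit 0, nat_lit 0, nat_lit 0, nat_lit 0, nat_lit 0, nat_lit 0, nat_lit 0, nat_lit 0, nat_lit 0, nat_lit 0, false, false⟩,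
 nat_lit 13088, nat_lit 0, nat_lit 0, nat_lit 0, nat_lit 7899, nat_lit 8328, nat_lit 582, nat_lit 0, nat_lit 0, nat_lit 1022, nat_lit 0, nat_lit 0, nat_lit 0, nat_lit 0, nat_lit 0, nat_lit 0, nat_lit 0, nat_lit 0, [],
 ⟨p072_k13, nat_lit 0, nat_lit 0, nat_lit 149, nat_lit 0, nat_lit 211999, [nat_lit 3282000000, nat_lit 6250000000, nat_lit 7968000000], [], [nat_lit 20598350133, nat_lit 20993491279, nat_lit 20684975395, nat_lit 21054065170, nat_lit 24864834994, nat_lit 25184435913, nat_lit 24663374311, nat_lit 25083276176], nat_lit 1271250, nat_lit 1271250, nat_lit 780000, nat_lit 1100001, nat_lit 1271250, nat_lit 1271250, [nat_lit 780000, nat_lit 1435000, nat_lit 1271250], [nat_lit 18, nat_lit 40, nat_lit 40, nat_lit 80, nat_lit 2, nat_lit 249, nat_lit 40, nat_lit 7]⟩, ⟨p072_k0, nat_lit 0, nat_lit 0, nat_lit 188, nat_lit 0, nat_lit 247856, [nat_lit 3282000000, nat_lit 6250000000, nat_lit 9842000000], [], [nat_lit 19009985910,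 nat_lit 19374741074, nat_lit 19039705302, nat_lit 19380249994, nat_lit 25042046448, nat_lit 25314247577, nat_lit 24841035066, nat_lit 25171737704], nat_lit 1271250, nat_lit 1271250, nat_lit 780000, nat_lit 1100001, nat_lit 1271250, nat_lit 1271250, [nat_lit 780000, nat_lit 1435000, nat_lit 1271250], [nat_lit 8, nat_lit 40, nat_lit 40, nat_lit 80, nat_lit 1, nat_lit 345, nat_lit 125, nat_lit 9]⟩,
 zbF0, [⟨nat_lit 16, nat_lit 92, nat_lit 100, nat_lit 96, nat_lit 177895034⟩, ⟨nat_lit 19, nat_lit 100, nat_lit 89, nat_lit 95, nat_lit 190679493⟩, ⟨nat_lit 11, nat_lit 85, nat_lit 85, nat_lit 100, nat_lit 442330183⟩]⟩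
noncomputable def p072_l42 : Lf2 := ⟨nat_lit 0, nat_lit 10, [nat_lit 0, nat_lit 5, nat_lit 5, nat_lit 20], false, nat_lit 240, nat_lit 304, nat_lit 240, nat_lit 336, ⟨nat_lit 1000, nat_lit 0, nat_lit 0, nat_lit 0, nat_lit 0, nat_lit 0, nat_lit 0, nat_lit 0, nat_lit 0, nat_lit 0, nat_lit 0, nat_lit 0, nat_lit 0, nat_lit 0, nat_lit 0, nat_lit 0, false, false⟩,
 nat_lit 13088, nat_lit 0, nat_lit 0, nat_lit 0, nat_lit 6677, nat_lit 8328, nat_lit 783, nat_lit 0, nat_lit 0, nat_lit 1022, nat_lit 0, nat_lit 0, nat_lit 0, nat_lit 0, nat_lit 0, nat_lit 0, nat_lit 0, nat_lit 0, [],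
 ⟨p072_k18, nat_lit 0, nat_lit 0, nat_lit 156, nat_lit 0, nat_lit 232588, [nat_lit 3282000000, nat_lit 6250000000, nat_lit 7968000000], [], [nat_lit 20451475031, nat_lit 20809461877, nat_lit 20638881524, nat_lit 20974151837, nat_lit 23879858232, nat_lit 24179459573, nat_lit 23851652902, nat_lit 24246028705], nat_lit 1271250, nat_lit 1271250, nat_lit 780000, nat_lit 1100001, nat_lit 1271250, nat_lit 1271250, [nat_lit 780000, nat_lit 1435000, nat_lit 1271250], [nat_lit 18, nat_lit 40, nat_lit 40, nat_lit 80, nat_lit 2, nat_lit 249, nat_lit 40, nat_lit 7]⟩, ⟨p072_k0, nat_lit 0, nat_lit 0, nat_lit 199, nat_lit 0, nat_lit 278699, [nat_lit 3282000000, nat_lit 6250000000, nat_lit 9842000000], [], [nat_lit 19009985910, nat_lit 19374741074, nat_lit 19039705302, nat_lit 19380249994, nat_lit 25042046448, nat_lit 25314247577, nat_lit 24841035066, nat_lit 25171737704], nat_lit 1271250, nat_lit 1271250, nat_lit 780000, nat_lit 1100001,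 nat_lit 1271250, nat_lit 1271250, [nat_lit 780000, nat_lit 1435000, nat_lit 1271250], [nat_lit 8, nat_lit 40, nat_lit 40, nat_lit 80, nat_lit 1, nat_lit 345, nat_lit 125, nat_lit 9]⟩,
 zbF0, [⟨nat_lit 16, nat_lit 89, nat_lit 93, nat_lit 100, nat_lit 194212599⟩, ⟨nat_lit 19, nat_lit 100, nat_lit 80, nat_lit 100, nat_lit 226593283⟩, ⟨nat_lit 11, nat_lit 85, nat_lit 85, nat_lit 100, nat_lit 388862224⟩]⟩
noncomputable def p072_l43 : Lf2 := ⟨nat_lit 0, nat_lit 10, [nat_lit 0, nat_lit 5, nat_lit 5, nat_lit 20], false, nat_lit 240, nat_lit 312, nat_lit 240, nat_lit 332, ⟨nat_lit 1000, nat_lit 0, nat_lit 0, nat_lit 0, nat_lit 0, nat_lit 0, nat_lit 0, nat_lit 0, nat_lit 0, nat_lit 0, nat_lit 0, nat_lit 0, nat_lit 0, nat_lit 0, nat_lit 0, nat_lit 0, false, false⟩,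
 nat_lit 12205, nat_lit 0, nat_lit 0, nat_lit 0, nat_lit 6927, nat_lit 7935, nat_lit 760, nat_lit 0, nat_lit 0, nat_lit 1026, nat_lit 0, nat_lit 0, nat_lit 0, nat_lit 0, nat_lit 0, nat_lit 0, nat_lit 0, nat_lit 0, [],
 ⟨p072_k13, nat_lit 0, nat_lit 0, nat_lit 168, nat_lit 0, nat_lit 258176, [nat_lit 3282000000, nat_lit 6250000000, nat_lit 7968000000], [], [nat_lit 20361639309, nat_lit 21092815252, nat_lit 20546496835, nat_lit 21230875212, nat_lit 24354603953, nat_lit 24950338660, nat_lit 24280161703, nat_lit 24946117511], nat_lit 1271250, nat_lit 1271250, nat_lit 780000, nat_lit 1100001, nat_lit 1271250, nat_lit 1271250, [nat_lit 780000, nat_lit 1435000, nat_lit 1271250], [nat_lit 18, nat_lit 40, nat_lit 40, nat_lit 80, nat_lit 2, nat_lit 249, nat_lit 40, nat_lit 7]⟩, ⟨p072_k19, nat_lit 0, nat_lit 0, nat_lit 204, nat_lit 0, nat_lit 293756, [nat_lit 3282000000, nat_lit 6250000000, nat_lit 9842000000], [], [nat_lit 19261540980,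 nat_lit 19616102510, nat_lit 19308137068, nat_lit 19639435845, nat_lit 24749262056, nat_lit 25016462142, nat_lit 24594625491, nat_lit 24924767677], nat_lit 1271250, nat_lit 1271250, nat_lit 780000, nat_lit 1100001, nat_lit 1271250, nat_lit 1271250, [nat_lit 780000, nat_lit 1435000, nat_lit 1271250], [nat_lit 8, nat_lit 40, nat_lit 40, nat_lit 80, nat_lit 1, nat_lit 345, nat_lit 125, nat_lit 9]⟩,
 zbF0, [⟨nat_lit 16, nat_lit 91, nat_lit 91, nat_lit 100, nat_lit 177466828⟩, ⟨nat_lit 19, nat_lit 99, nat_lit 82, nat_lit 100, nat_lit 193924966⟩, ⟨nat_lit 11, nat_lit 85, nat_lit 85, nat_lit 100, nat_lit 409936378⟩]⟩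
noncomputable def b_V_700_700_20_39 : St := ⟨true, nat_lit 1, nat_lit 1, nat_lit 1, nat_lit 120, nat_lit 280, nat_lit 320, nat_lit 280, nat_lit 290, nat_lit 120, nat_lit 160, nat_lit 80, nat_lit 120, nat_lit 240, nat_lit 336, nat_lit 160, nat_lit 336, nat_lit 0, nat_lit 40, nat_lit 0, nat_lit 0, nat_lit 0, nat_lit 0⟩
theorem d_V_700_700_20_39 (h : EB TB.env) : Dead b_V_700_700_20_39 := chkB_sound0 h (T :=
(.spl (nat_lit 0) (nat_lit 300)
(.spl (nat_lit 0) (nat_lit 290)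
(.spl (nat_lit 5) (nat_lit 240)
(.leaf p072_l32)
(.spl (nat_lit 1) (nat_lit 285)
(.leaf p072_l33)
(.ord (.trX (nat_lit 16) (nat_lit 99) (nat_lit 82) (nat_lit 100) (nat_lit 332) (.trX (nat_lit 19) (nat_lit 99) (nat_lit 82) (nat_lit 100) (nat_lit 332) (.leaf p072_l34))))))
(.trX (nat_lit 16) (nat_lit 97) (nat_lit 84) (nat_lit 100) (nat_lit 328) (.spl (nat_lit 6) (nat_lit 20)
(.spl (nat_lit 0) (nat_lit 295)
(.leaf p072_l35)
(.trX (nat_lit 16) (nat_lit 96) (nat_lit 86) (nat_lit 100) (nat_lit 324) (.leaf p072_l36)))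
(.leaf p072_l37))))
(.trX (nat_lit 16) (nat_lit 94) (nat_lit 88) (nat_lit 100) (nat_lit 320) (.spl (nat_lit 5) (nat_lit 240)
(.leaf p072_l38)
(.spl (nat_lit 6) (nat_lit 20)
(.leaf p072_l39)
(.spl (nat_lit 0) (nat_lit 310)
(.leaf p072_l40)
(.trX (nat_lit 16) (nat_lit 91) (nat_lit 91) (nat_lit 100) (nat_lit 312) (.spl (nat_lit 1) (nat_lit 285)
(.spl (nat_lit 0) (nat_lit 315)
(.leaf p072_l41)
(.trX (nat_lit 16) (nat_lit 89) (nat_lit 93) (nat_lit 100) (nat_lit 304) (.leaf p072_l42)))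
(.trX (nat_lit 19) (nat_lit 99) (nat_lit 82) (nat_lit 100) (nat_lit 332) (.leaf p072_l43)))))))))) (by decide +kernel)
noncomputable def p072_l44 : Lf2 := ⟨nat_lit 0, nat_lit 10, [nat_lit 0, nat_lit 5, nat_lit 5, nat_lit 20], false, nat_lit 240, nat_lit 328, nat_lit 160, nat_lit 240, ⟨nat_lit 1000, nat_lit 0, nat_lit 0, nat_lit 0, nat_lit 0, nat_lit 0, nat_lit 0, nat_lit 0, nat_lit 0, nat_lit 0, nat_lit 0, nat_lit 0, nat_lit 0, nat_lit 0, nat_lit 0, nat_lit 0, false, false⟩,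
 nat_lit 13614, nat_lit 0, nat_lit 0, nat_lit 0, nat_lit 7610, nat_lit 9041, nat_lit 1014, nat_lit 0, nat_lit 0, nat_lit 1217, nat_lit 0, nat_lit 0, nat_lit 0, nat_lit 308534690844, nat_lit 0, nat_lit 0, nat_lit 0, nat_lit 0, [],
 ⟨p072_k23, nat_lit 0, nat_lit 0, nat_lit 298, nat_lit 0, nat_lit 534193, [nat_lit 3282000000, nat_lit 4688000000, nat_lit 7968000000], [], [nat_lit 19485938790, nat_lit 21847412930, nat_lit 19084790390, nat_lit 21250041410, nat_lit 25315279739, nat_lit 27951888568, nat_lit 24338543289, nat_lit 26691343076], nat_lit 1271250, nat_lit 1271250, nat_lit 490000, nat_lit 1100001, nat_lit 1271250, nat_lit 1271250, [nat_lit 780000, nat_lit 1100000, nat_lit 1785000], [nat_lit 36, nat_lit 40, nat_lit 40, nat_lit 80, nat_lit 7, nat_lit 249, nat_lit 40, nat_lit 7]⟩, ⟨p072_k23, nat_lit 0, nat_lit 0, nat_lit 280, nat_lit 0, nat_lit 534193, [nat_lit 3282000000, nat_lit 4688000000, nat_lit 7968000000], [],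 [nat_lit 19876150564, nat_lit 17556871875, nat_lit 13905627912, nat_lit 14867676029, nat_lit 17537136300, nat_lit 18446810561, nat_lit 20676089977, nat_lit 18574500486], nat_lit 1271250, nat_lit 1271250, nat_lit 490000, nat_lit 1100001, nat_lit 1100001, nat_lit 1785000, [nat_lit 780000, nat_lit 1100000, nat_lit 1785000], [nat_lit 36, nat_lit 40, nat_lit 40, nat_lit 80, nat_lit 7, nat_lit 317, nat_lit 100, nat_lit 10]⟩,
 zbF0, [⟨nat_lit 0, nat_lit 100, nat_lit 97, nat_lit 98, nat_lit 463132476⟩, ⟨nat_lit 16, nat_lit 97, nat_lit 84, nat_lit 100, nat_lit 561498361⟩]⟩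
noncomputable def p072_l45 : Lf2 := ⟨nat_lit 0, nat_lit 5, [nat_lit 4, nat_lit 5, nat_lit 5, nat_lit 20], false, nat_lit 240, nat_lit 328, nat_lit 240, nat_lit 328, ⟨nat_lit 1000, nat_lit 0, nat_lit 0, nat_lit 0, nat_lit 0, nat_lit 0, nat_lit 0, nat_lit 0, nat_lit 0, nat_lit 0, nat_lit 0, nat_lit 0, nat_lit 0, nat_lit 0, nat_lit 0, nat_lit 0, false, false⟩,
 nat_lit 9654, nat_lit 0, nat_lit 0, nat_lit 0, nat_lit 6411, nat_lit 6411, nat_lit 1065, nat_lit 0, nat_lit 0, nat_lit 1065, nat_lit 0, nat_lit 0, nat_lit 0, nat_lit 0, nat_lit 0, nat_lit 0, nat_lit 0, nat_lit 0, [],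
 ⟨p072_k6, nat_lit 0, nat_lit 0, nat_lit 215, nat_lit 0, nat_lit 405413, [nat_lit 3282000000, nat_lit 4688000000, nat_lit 6250000000], [], [nat_lit 19930210956, nat_lit 20526141862, nat_lit 20092950100, nat_lit 20621974874, nat_lit 24545174261, nat_lit 25072934016, nat_lit 24164441393, nat_lit 24634087400], nat_lit 1271250, nat_lit 1271250, nat_lit 490000, nat_lit 1100001, nat_lit 1271250, nat_lit 1271250, [nat_lit 780000, nat_lit 1100000, nat_lit 1442500], [nat_lit 59, nat_lit 40, nat_lit 40, nat_lit 80, nat_lit 3, nat_lit 249, nat_lit 40, nat_lit 8]⟩, ⟨p072_k6, nat_lit 0, nat_lit 0, nat_lit 215, nat_lit 0, nat_lit 405413, [nat_lit 3282000000, nat_lit 4688000000, nat_lit 6250000000], [], [nat_lit 19930210956, nat_lit 20526141862, nat_lit 20092950100, nat_lit 20621974874, nat_lit 24545174261, nat_lit 25072934016, nat_lit 24164441393, nat_lit 24634087400], nat_lit 1271250, nat_lit 1271250, nat_lit 490000, nat_lit 1100001,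 nat_lit 1271250, nat_lit 1271250, [nat_lit 780000, nat_lit 1100000, nat_lit 1442500], [nat_lit 59, nat_lit 40, nat_lit 40, nat_lit 80, nat_lit 3, nat_lit 249, nat_lit 40, nat_lit 8]⟩,
 zbF0, [⟨nat_lit 0, nat_lit 100, nat_lit 100, nat_lit 100, nat_lit 153471676⟩, ⟨nat_lit 16, nat_lit 100, nat_lit 97, nat_lit 98, nat_lit 76493454⟩, ⟨nat_lit 7, nat_lit 97, nat_lit 100, nat_lit 98, nat_lit 76493454⟩, ⟨nat_lit 11, nat_lit 91, nat_lit 91, nat_lit 100, nat_lit 471787749⟩]⟩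
noncomputable def p072_l46 : Lf2 := ⟨nat_lit 0, nat_lit 5, [nat_lit 4, nat_lit 5, nat_lit 5, nat_lit 20], false, nat_lit 240, nat_lit 320, nat_lit 240, nat_lit 328, ⟨nat_lit 1000, nat_lit 0, nat_lit 0, nat_lit 0, nat_lit 0, nat_lit 0, nat_lit 0, nat_lit 0, nat_lit 0, nat_lit 0, nat_lit 0, nat_lit 0, nat_lit 0, nat_lit 0, nat_lit 0, nat_lit 0, false, false⟩,
 nat_lit 9353, nat_lit 0, nat_lit 0, nat_lit 0, nat_lit 6475, nat_lit 6211, nat_lit 727, nat_lit 0, nat_lit 0, nat_lit 1265, nat_lit 0, nat_lit 0, nat_lit 0, nat_lit 0, nat_lit 0, nat_lit 0, nat_lit 0, nat_lit 0, [],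
 ⟨p072_k11, nat_lit 0, nat_lit 0, nat_lit 240, nat_lit 0, nat_lit 481983, [nat_lit 3282000000, nat_lit 4688000000, nat_lit 6250000000], [], [nat_lit 20520731196, nat_lit 21706172265, nat_lit 20641527525, nat_lit 21704803825, nat_lit 24554158205, nat_lit 25821480006, nat_lit 24242832675, nat_lit 25343392625], nat_lit 1271250, nat_lit 1271250, nat_lit 545600, nat_lit 1100001, nat_lit 1271250, nat_lit 1271250, [nat_lit 780000, nat_lit 1100000, nat_lit 1442500], [nat_lit 59, nat_lit 40, nat_lit 40, nat_lit 80, nat_lit 3, nat_lit 249, nat_lit 40, nat_lit 8]⟩, ⟨p072_k6, nat_lit 0, nat_lit 0, nat_lit 246, nat_lit 0, nat_lit 507311, [nat_lit 3282000000, nat_lit 4688000000, nat_lit 6250000000], [], [nat_lit 19904190427, nat_lit 20484165412, nat_lit 20138130100, nat_lit 20658988074, nat_lit 24229998442, nat_lit 24754046212, nat_lit 24010128355, nat_lit 24454817358], nat_lit 1271250, nat_lit 1271250, nat_lit 545600, nat_lit 1100001,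 nat_lit 1271250, nat_lit 1271250, [nat_lit 780000, nat_lit 1100000, nat_lit 1442500], [nat_lit 59, nat_lit 40, nat_lit 40, nat_lit 80, nat_lit 3, nat_lit 249, nat_lit 40, nat_lit 8]⟩,
 zbF0, [⟨nat_lit 0, nat_lit 94, nat_lit 87, nat_lit 100, nat_lit 320981936⟩, ⟨nat_lit 4, nat_lit 100, nat_lit 93, nat_lit 97, nat_lit 116574408⟩, ⟨nat_lit 19, nat_lit 97, nat_lit 84, nat_lit 100, nat_lit 98295723⟩, ⟨nat_lit 11, nat_lit 90, nat_lit 90, nat_lit 100, nat_lit 406989899⟩]⟩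
noncomputable def p072_l47 : Lf2 := ⟨nat_lit 0, nat_lit 10, [nat_lit 0, nat_lit 5, nat_lit 5, nat_lit 20], false, nat_lit 240, nat_lit 312, nat_lit 240, nat_lit 312, ⟨nat_lit 1000, nat_lit 0, nat_lit 0, nat_lit 0, nat_lit 0, nat_lit 0, nat_lit 0, nat_lit 0, nat_lit 0, nat_lit 0, nat_lit 0, nat_lit 0, nat_lit 0, nat_lit 0, nat_lit 0, nat_lit 0, false, false⟩,
 nat_lit 12946, nat_lit 0, nat_lit 0, nat_lit 0, nat_lit 8597, nat_lit 8597, nat_lit 548, nat_lit 0, nat_lit 0, nat_lit 737, nat_lit 0, nat_lit 0, nat_lit 0, nat_lit 0, nat_lit 0, nat_lit 0, nat_lit 0, nat_lit 0, [],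
 ⟨p072_k3, nat_lit 0, nat_lit 0, nat_lit 205, nat_lit 0, nat_lit 314861, [nat_lit 3282000000, nat_lit 6250000000, nat_lit 7968000000], [], [nat_lit 21230344035, nat_lit 23239283592, nat_lit 20531549687, nat_lit 22428191792, nat_lit 25168370426, nat_lit 27377715892, nat_lit 24183110003, nat_lit 26193327260], nat_lit 1271250, nat_lit 1271250, nat_lit 490000, nat_lit 780000, nat_lit 1271250, nat_lit 1271250, [nat_lit 780000, nat_lit 1435000, nat_lit 1271250], [nat_lit 18, nat_lit 40, nat_lit 40, nat_lit 80, nat_lit 2, nat_lit 238, nat_lit 30, nat_lit 7]⟩, ⟨p072_k3, nat_lit 0, nat_lit 0, nat_lit 199, nat_lit 0, nat_lit 314861, [nat_lit 3282000000, nat_lit 6250000000, nat_lit 7968000000], [], [nat_lit 19291383225, nat_lit 20172010562, nat_lit 18582199253, nat_lit 19414926226, nat_lit 24355670426, nat_lit 25361468784, nat_lit 23370410003, nat_lit 24218646692], nat_lit 1271250, nat_lit 1271250, nat_lit 490000, nat_lit 780000,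 nat_lit 1271250, nat_lit 1271250, [nat_lit 780000, nat_lit 1435000, nat_lit 1271250], [nat_lit 18, nat_lit 40, nat_lit 40, nat_lit 80, nat_lit 2, nat_lit 238, nat_lit 30, nat_lit 7]⟩,
 zbF0, [⟨nat_lit 0, nat_lit 100, nat_lit 97, nat_lit 98, nat_lit 570720668⟩, ⟨nat_lit 4, nat_lit 100, nat_lit 94, nat_lit 92, nat_lit 248059456⟩, ⟨nat_lit 19, nat_lit 100, nat_lit 94, nat_lit 97, nat_lit 302497435⟩, ⟨nat_lit 11, nat_lit 100, nat_lit 100, nat_lit 100, nat_lit 281157727⟩]⟩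
noncomputable def p072_l48 : Lf2 := ⟨nat_lit 0, nat_lit 10, [nat_lit 0, nat_lit 5, nat_lit 5, nat_lit 20], false, nat_lit 240, nat_lit 328, nat_lit 240, nat_lit 328, ⟨nat_lit 1000, nat_lit 0, nat_lit 0, nat_lit 0, nat_lit 0, nat_lit 0, nat_lit 0, nat_lit 0, nat_lit 0, nat_lit 0, nat_lit 0, nat_lit 0, nat_lit 0, nat_lit 0, nat_lit 0, nat_lit 0, false, false⟩,
 nat_lit 11524, nat_lit 0, nat_lit 0, nat_lit 0, nat_lit 7653, nat_lit 7653, nat_lit 817, nat_lit 0, nat_lit 0, nat_lit 817, nat_lit 0, nat_lit 0, nat_lit 0, nat_lit 0, nat_lit 0, nat_lit 0, nat_lit 0, nat_lit 0, [],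
 ⟨p072_k3, nat_lit 0, nat_lit 0, nat_lit 147, nat_lit 0, nat_lit 147455, [nat_lit 3282000000, nat_lit 6250000000, nat_lit 7968000000], [], [nat_lit 19671502025, nat_lit 20490371938, nat_lit 19131176997, nat_lit 19906500274, nat_lit 25606123000, nat_lit 26233302710, nat_lit 24753527588, nat_lit 25348537882], nat_lit 1271250, nat_lit 1271250, nat_lit 490000, nat_lit 780000, nat_lit 1271250, nat_lit 1271250, [nat_lit 780000, nat_lit 1435000, nat_lit 1271250], [nat_lit 18, nat_lit 40, nat_lit 40, nat_lit 80, nat_lit 2, nat_lit 238, nat_lit 30, nat_lit 7]⟩, ⟨p072_k3, nat_lit 0, nat_lit 0, nat_lit 147, nat_lit 0, nat_lit 147455, [nat_lit 3282000000, nat_lit 6250000000, nat_lit 7968000000], [], [nat_lit 19671502025, nat_lit 20490371938, nat_lit 19131176997, nat_lit 19906500274, nat_lit 25606123000, nat_lit 26233302710, nat_lit 24753527588, nat_lit 25348537882], nat_lit 1271250, nat_lit 1271250, nat_lit 490000, nat_lit 780000,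 nat_lit 1271250, nat_lit 1271250, [nat_lit 780000, nat_lit 1435000, nat_lit 1271250], [nat_lit 18, nat_lit 40, nat_lit 40, nat_lit 80, nat_lit 2, nat_lit 238, nat_lit 30, nat_lit 7]⟩,
 zbF0, [⟨nat_lit 0, nat_lit 100, nat_lit 100, nat_lit 100, nat_lit 237629406⟩, ⟨nat_lit 11, nat_lit 100, nat_lit 100, nat_lit 100, nat_lit 555163904⟩]⟩
noncomputable def p072_l49 : Lf2 := ⟨nat_lit 0, nat_lit 10, [nat_lit 0, nat_lit 5, nat_lit 5, nat_lit 20], false, nat_lit 240, nat_lit 320, nat_lit 240, nat_lit 328, ⟨nat_lit 1000, nat_lit 0, nat_lit 0, nat_lit 0, nat_lit 0, nat_lit 0, nat_lit 0, nat_lit 0, nat_lit 0, nat_lit 0, nat_lit 0, nat_lit 0, nat_lit 0, nat_lit 0, nat_lit 0, nat_lit 0, false, false⟩,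
 nat_lit 11315, nat_lit 0, nat_lit 0, nat_lit 0, nat_lit 6879, nat_lit 7514, nat_lit 905, nat_lit 0, nat_lit 0, nat_lit 862, nat_lit 0, nat_lit 0, nat_lit 0, nat_lit 0, nat_lit 0, nat_lit 0, nat_lit 0, nat_lit 0, [],
 ⟨p072_k4, nat_lit 0, nat_lit 0, nat_lit 157, nat_lit 0, nat_lit 188315, [nat_lit 3282000000, nat_lit 6250000000, nat_lit 7968000000], [], [nat_lit 19907728619, nat_lit 20667967289, nat_lit 19554247057, nat_lit 20282504168, nat_lit 24676965444, nat_lit 25362172009, nat_lit 24125487645, nat_lit 24705528993], nat_lit 1271250, nat_lit 1271250, nat_lit 545600, nat_lit 780000, nat_lit 1271250, nat_lit 1271250, [nat_lit 780000, nat_lit 1435000, nat_lit 1271250], [nat_lit 18, nat_lit 40, nat_lit 40, nat_lit 80, nat_lit 2, nat_lit 238, nat_lit 30, nat_lit 7]⟩, ⟨p072_k3, nat_lit 0, nat_lit 0, nat_lit 161, nat_lit 0, nat_lit 198375, [nat_lit 3282000000, nat_lit 6250000000, nat_lit 7968000000], [], [nat_lit 19481533198,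 nat_lit 20282728478, nat_lit 19069164186, nat_lit 19836035012, nat_lit 25294530214, nat_lit 25909228117, nat_lit 24635957394, nat_lit 25225412871], nat_lit 1271250, nat_lit 1271250, nat_lit 545600, nat_lit 780000, nat_lit 1271250, nat_lit 1271250, [nat_lit 780000, nat_lit 1435000, nat_lit 1271250], [nat_lit 18, nat_lit 40, nat_lit 40, nat_lit 80, nat_lit 2, nat_lit 238, nat_lit 30, nat_lit 7]⟩,
 zbF0, [⟨nat_lit 0, nat_lit 97, nat_lit 93, nat_lit 100, nat_lit 305764764⟩, ⟨nat_lit 4, nat_lit 95, nat_lit 95, nat_lit 100, nat_lit 17155748⟩, ⟨nat_lit 19, nat_lit 99, nat_lit 92, nat_lit 100, nat_lit 48586910⟩, ⟨nat_lit 11, nat_lit 98, nat_lit 98, nat_lit 100, nat_lit 514353111⟩]⟩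
noncomputable def p072_l50 : Lf2 := ⟨nat_lit 0, nat_lit 10, [nat_lit 0, nat_lit 5, nat_lit 5, nat_lit 20], false, nat_lit 240, nat_lit 312, nat_lit 240, nat_lit 328, ⟨nat_lit 1000, nat_lit 0, nat_lit 0, nat_lit 0, nat_lit 0, nat_lit 0, nat_lit 0, nat_lit 0, nat_lit 0, nat_lit 0, nat_lit 0, nat_lit 0, nat_lit 0, nat_lit 0, nat_lit 0, nat_lit 0, false, false⟩,
 nat_lit 11357, nat_lit 0, nat_lit 0, nat_lit 0, nat_lit 6196, nat_lit 7542, nat_lit 926, nat_lit 0, nat_lit 0, nat_lit 862, nat_lit 0, nat_lit 0, nat_lit 0, nat_lit 0, nat_lit 0, nat_lit 0, nat_lit 0, nat_lit 0, [],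
 ⟨p072_k13, nat_lit 0, nat_lit 0, nat_lit 166, nat_lit 0, nat_lit 226840, [nat_lit 3282000000, nat_lit 6250000000, nat_lit 7968000000], [], [nat_lit 20172917532, nat_lit 20878055572, nat_lit 19996239232, nat_lit 20682963796, nat_lit 24059112071, nat_lit 24762776448, nat_lit 23783500915, nat_lit 24429002133], nat_lit 1271250, nat_lit 1271250, nat_lit 631250, nat_lit 780000, nat_lit 1271250, nat_lit 1271250, [nat_lit 780000, nat_lit 1435000, nat_lit 1271250], [nat_lit 18, nat_lit 40, nat_lit 40, nat_lit 80, nat_lit 2, nat_lit 238, nat_lit 30, nat_lit 7]⟩, ⟨p072_k3, nat_lit 0, nat_lit 0, nat_lit 174, nat_lit 0, nat_lit 251303, [nat_lit 3282000000, nat_lit 6250000000, nat_lit 7968000000], [], [nat_lit 19302912454, nat_lit 20093003284, nat_lit 19042677558, nat_lit 19811251036, nat_lit 25035229269, nat_lit 25641605300, nat_lit 24620662181, nat_lit 25211137948], nat_lit 1271250, nat_lit 1271250, nat_lit 631250, nat_lit 780000,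 nat_lit 1271250, nat_lit 1271250, [nat_lit 780000, nat_lit 1435000, nat_lit 1271250], [nat_lit 18, nat_lit 40, nat_lit 40, nat_lit 80, nat_lit 2, nat_lit 238, nat_lit 30, nat_lit 7]⟩,
 zbF0, [⟨nat_lit 0, nat_lit 98, nat_lit 91, nat_lit 100, nat_lit 362960316⟩, ⟨nat_lit 4, nat_lit 99, nat_lit 92, nat_lit 100, nat_lit 70842305⟩, ⟨nat_lit 19, nat_lit 99, nat_lit 92, nat_lit 100, nat_lit 116687568⟩, ⟨nat_lit 11, nat_lit 95, nat_lit 95, nat_lit 100, nat_lit 460268020⟩]⟩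
noncomputable def p072_l51 : Lf2 := ⟨nat_lit 0, nat_lit 10, [nat_lit 0, nat_lit 5, nat_lit 5, nat_lit 20], false, nat_lit 240, nat_lit 328, nat_lit 240, nat_lit 328, ⟨nat_lit 1000, nat_lit 0, nat_lit 0, nat_lit 0, nat_lit 0, nat_lit 0, nat_lit 0, nat_lit 0, nat_lit 0, nat_lit 0, nat_lit 0, nat_lit 0, nat_lit 0, nat_lit 0, nat_lit 0, nat_lit 0, false, false⟩,
 nat_lit 12296, nat_lit 0, nat_lit 0, nat_lit 0, nat_lit 8166, nat_lit 8166, nat_lit 702, nat_lit 0, nat_lit 0, nat_lit 702, nat_lit 0, nat_lit 0, nat_lit 0, nat_lit 0, nat_lit 0, nat_lit 0, nat_lit 0, nat_lit 0, [],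
 ⟨p072_k3, nat_lit 0, nat_lit 0, nat_lit 155, nat_lit 0, nat_lit 224651, [nat_lit 3282000000, nat_lit 6250000000, nat_lit 7968000000], [], [nat_lit 19140404134, nat_lit 19946922428, nat_lit 19307165898, nat_lit 20060124164, nat_lit 24967797439, nat_lit 25584680290, nat_lit 24742035867, nat_lit 25436852251], nat_lit 1271250, nat_lit 1271250, nat_lit 780000, nat_lit 1100001, nat_lit 1271250, nat_lit 1271250, [nat_lit 780000, nat_lit 1435000, nat_lit 1271250], [nat_lit 18, nat_lit 40, nat_lit 40, nat_lit 80, nat_lit 2, nat_lit 249, nat_lit 40, nat_lit 7]⟩, ⟨p072_k3, nat_lit 0, nat_lit 0, nat_lit 155, nat_lit 0, nat_lit 224651, [nat_lit 3282000000, nat_lit 6250000000, nat_lit 7968000000], [], [nat_lit 19140404134, nat_lit 19946922428, nat_lit 19307165898, nat_lit 20060124164, nat_lit 24967797439, nat_lit 25584680290, nat_lit 24742035867, nat_lit 25436852251], nat_lit 1271250, nat_lit 1271250, nat_lit 780000, nat_lit 1100001,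 nat_lit 1271250, nat_lit 1271250, [nat_lit 780000, nat_lit 1435000, nat_lit 1271250], [nat_lit 18, nat_lit 40, nat_lit 40, nat_lit 80, nat_lit 2, nat_lit 249, nat_lit 40, nat_lit 7]⟩,
 zbF0, [⟨nat_lit 4, nat_lit 97, nat_lit 100, nat_lit 98, nat_lit 148789596⟩, ⟨nat_lit 7, nat_lit 97, nat_lit 100, nat_lit 98, nat_lit 148789596⟩, ⟨nat_lit 11, nat_lit 85, nat_lit 85, nat_lit 100, nat_lit 494605924⟩]⟩
noncomputable def p072_l52 : Lf2 := ⟨nat_lit 0, nat_lit 10, [nat_lit 0, nat_lit 5, nat_lit 5, nat_lit 20], false, nat_lit 240, nat_lit 320, nat_lit 240, nat_lit 328, ⟨nat_lit 1000, nat_lit 0, nat_lit 0, nat_lit 0, nat_lit 0, nat_lit 0, nat_lit 0, nat_lit 0, nat_lit 0, nat_lit 0, nat_lit 0, nat_lit 0, nat_lit 0, nat_lit 0, nat_lit 0, nat_lit 0, false, false⟩,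
 nat_lit 11399, nat_lit 0, nat_lit 0, nat_lit 0, nat_lit 6708, nat_lit 7570, nat_lit 900, nat_lit 0, nat_lit 0, nat_lit 862, nat_lit 0, nat_lit 0, nat_lit 0, nat_lit 0, nat_lit 0, nat_lit 0, nat_lit 0, nat_lit 0, [],
 ⟨p072_k4, nat_lit 0, nat_lit 0, nat_lit 189, nat_lit 0, nat_lit 314732, [nat_lit 3282000000, nat_lit 6250000000, nat_lit 7968000000], [], [nat_lit 19730746964, nat_lit 21166464508, nat_lit 19983339332, nat_lit 21327852348, nat_lit 24245425540, nat_lit 25388092988, nat_lit 24207065636, nat_lit 25376578864], nat_lit 1271250, nat_lit 1271250, nat_lit 780000, nat_lit 1100001, nat_lit 1271250, nat_lit 1271250, [nat_lit 780000, nat_lit 1435000, nat_lit 1271250], [nat_lit 18, nat_lit 40, nat_lit 40, nat_lit 80, nat_lit 2, nat_lit 249, nat_lit 40, nat_lit 7]⟩, ⟨p072_k3, nat_lit 0, nat_lit 0, nat_lit 193, nat_lit 0, nat_lit 331546, [nat_lit 3282000000, nat_lit 6250000000, nat_lit 7968000000], [], [nat_lit 19016190930,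 nat_lit 19786467060, nat_lit 19236679710, nat_lit 19956648780, nat_lit 24605366969, nat_lit 25196986580, nat_lit 24496805588, nat_lit 25105181265], nat_lit 1271250, nat_lit 1271250, nat_lit 780000, nat_lit 1100001, nat_lit 1271250, nat_lit 1271250, [nat_lit 780000, nat_lit 1435000, nat_lit 1271250], [nat_lit 18, nat_lit 40, nat_lit 40, nat_lit 80, nat_lit 2, nat_lit 249, nat_lit 40, nat_lit 7]⟩,
 zbF0, [⟨nat_lit 0, nat_lit 94, nat_lit 87, nat_lit 100, nat_lit 233112162⟩, ⟨nat_lit 4, nat_lit 100, nat_lit 93, nat_lit 97, nat_lit 179088457⟩, ⟨nat_lit 19, nat_lit 97, nat_lit 84, nat_lit 100, nat_lit 213469229⟩, ⟨nat_lit 11, nat_lit 85, nat_lit 85, nat_lit 100, nat_lit 407413300⟩]⟩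
noncomputable def b_V_700_700_20_40 : St := ⟨true, nat_lit 1, nat_lit 1, nat_lit 1, nat_lit 120, nat_lit 280, nat_lit 320, nat_lit 290, nat_lit 300, nat_lit 64, nat_lit 160, nat_lit 80, nat_lit 120, nat_lit 240, nat_lit 336, nat_lit 160, nat_lit 336, nat_lit 0, nat_lit 40, nat_lit 0, nat_lit 0, nat_lit 0, nat_lit 0⟩
theorem d_V_700_700_20_40 (h : EB TB.env) : Dead b_V_700_700_20_40 := chkB_sound0 h (T :=
(.ord (.trZ (nat_lit 0) (nat_lit 100) (nat_lit 100) (nat_lit 90) (nat_lit 80) (.trX (nat_lit 16) (nat_lit 97) (nat_lit 84) (nat_lit 100) (nat_lit 328) (.trX (nat_lit 19) (nat_lit 97) (nat_lit 84) (nat_lit 100) (nat_lit 328) (.spl (nat_lit 5) (nat_lit 240)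
(.leaf p072_l44)
(.spl (nat_lit 6) (nat_lit 20)
(.spl (nat_lit 0) (nat_lit 300)
(.leaf p072_l45)
(.trZ (nat_lit 0) (nat_lit 100) (nat_lit 97) (nat_lit 94) (nat_lit 88) (.trX (nat_lit 16) (nat_lit 94) (nat_lit 88) (nat_lit 100) (nat_lit 320) (.leaf p072_l46))))
(.spl (nat_lit 2) (nat_lit 120)
(.spl (nat_lit 3) (nat_lit 100)
(.trX (nat_lit 16) (nat_lit 100) (nat_lit 94) (nat_lit 97) (nat_lit 312) (.trX (nat_lit 19) (nat_lit 100) (nat_lit 94) (nat_lit 97) (nat_lit 312) (.leaf p072_l47)))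
(.spl (nat_lit 0) (nat_lit 300)
(.leaf p072_l48)
(.trZ (nat_lit 0) (nat_lit 100) (nat_lit 97) (nat_lit 94) (nat_lit 88) (.trX (nat_lit 16) (nat_lit 94) (nat_lit 88) (nat_lit 100) (nat_lit 320) (.spl (nat_lit 0) (nat_lit 310)
(.leaf p072_l49)
(.trZ (nat_lit 0) (nat_lit 100) (nat_lit 94) (nat_lit 97) (nat_lit 100) (.trX (nat_lit 16) (nat_lit 91) (nat_lit 91) (nat_lit 100) (nat_lit 312) (.leaf p072_l50))))))))
(.spl (nat_lit 0) (nat_lit 300)
(.leaf p072_l51)
(.trX (nat_lit 16) (nat_lit 94) (nat_lit 88) (nat_lit 100) (nat_lit 320) (.leaf p072_l52))))))))))) (by decide +kernel)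
noncomputable def p072_l53 : Lf2 := ⟨nat_lit 0, nat_lit 10, [nat_lit 0, nat_lit 5, nat_lit 5, nat_lit 20], false, nat_lit 240, nat_lit 336, nat_lit 0, nat_lit 160, ⟨nat_lit 1000, nat_lit 0, nat_lit 0, nat_lit 0, nat_lit 0, nat_lit 0, nat_lit 0, nat_lit 0, nat_lit 0, nat_lit 0, nat_lit 0, nat_lit 0, nat_lit 0, nat_lit 0, nat_lit 0, nat_lit 0, false, false⟩,
 nat_lit 12775, nat_lit 0, nat_lit 0, nat_lit 0, nat_lit 8129, nat_lit 6870, nat_lit 961, nat_lit 0, nat_lit 0, nat_lit 901, nat_lit 0, nat_lit 0, nat_lit 0, nat_lit 0, nat_lit 0, nat_lit 0, nat_lit 0, nat_lit 0, [],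
 ⟨p072_k0, nat_lit 0, nat_lit 0, nat_lit 325, nat_lit 0, nat_lit 563749, [nat_lit 3282000000, nat_lit 6250000000, nat_lit 9842000000], [], [nat_lit 21185015733, nat_lit 23237544304, nat_lit 22607576740, nat_lit 24714021400, nat_lit 25952734063, nat_lit 27834526597, nat_lit 26965496657, nat_lit 29377167431], nat_lit 1271250, nat_lit 1271250, nat_lit 1100001, nat_lit 1785000, nat_lit 1271250, nat_lit 1271250, [nat_lit 780000, nat_lit 1435000, nat_lit 1271250], [nat_lit 8, nat_lit 40, nat_lit 40, nat_lit 80, nat_lit 1, nat_lit 373, nat_lit 150, nat_lit 10]⟩, ⟨p072_k0, nat_lit 0, nat_lit 0, nat_lit 457, nat_lit 0, nat_lit 563749, [nat_lit 3282000000, nat_lit 6250000000, nat_lit 9842000000], [], [nat_lit 32735932680, nat_lit 30259878865, nat_lit 30799679745, nat_lit 31674540165, nat_lit 25794634105, nat_lit 26611983465, nat_lit 29939835760, nat_lit 27954840640], nat_lit 1271250, nat_lit 1271250, nat_lit 1100001, nat_lit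 1785000, nat_lit 0, nat_lit 1100001, [nat_lit 780000, nat_lit 1435000, nat_lit 1271250], [nat_lit 8, nat_lit 40, nat_lit 40, nat_lit 80, nat_lit 1, nat_lit 317, nat_lit 100, nat_lit 9]⟩,
 zbF0, [⟨nat_lit 4, nat_lit 100, nat_lit 100, nat_lit 100, nat_lit 487330643⟩]⟩
noncomputable def p072_l54 : Lf2 := ⟨nat_lit 0, nat_lit 10, [nat_lit 0, nat_lit 5, nat_lit 5, nat_lit 20], false, nat_lit 240, nat_lit 336, nat_lit 160, nat_lit 240, ⟨nat_lit 1000, nat_lit 0, nat_lit 0, nat_lit 0, nat_lit 0, nat_lit 0, nat_lit 0, nat_lit 0, nat_lit 0, nat_lit 0, nat_lit 0, nat_lit 0, nat_lit 0, nat_lit 0, nat_lit 0, nat_lit 0, false, false⟩,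
 nat_lit 14650, nat_lit 0, nat_lit 0, nat_lit 0, nat_lit 9322, nat_lit 9322, nat_lit 863, nat_lit 0, nat_lit 0, nat_lit 2114, nat_lit 0, nat_lit 0, nat_lit 0, nat_lit 0, nat_lit 0, nat_lit 0, nat_lit 0, nat_lit 0, [],
 ⟨p072_k22, nat_lit 0, nat_lit 0, nat_lit 320, nat_lit 0, nat_lit 563749, [nat_lit 3282000000, nat_lit 4688000000, nat_lit 9842000000], [], [nat_lit 20332076423, nat_lit 23243516687, nat_lit 22194029983, nat_lit 24611538359, nat_lit 26314095771, nat_lit 28729057815, nat_lit 27347731980, nat_lit 30209472948], nat_lit 1271250, nat_lit 1271250, nat_lit 1100001, nat_lit 1785000, nat_lit 1271250, nat_lit 1271250, [nat_lit 780000, nat_lit 1100000, nat_lit 2127500], [nat_lit 42, nat_lit 40, nat_lit 40, nat_lit 80, nat_lit 13, nat_lit 373, nat_lit 150, nat_lit 10]⟩, ⟨p072_k22, nat_lit 0, nat_lit 0, nat_lit 319, nat_lit 0, nat_lit 563749, [nat_lit 3282000000, nat_lit 4688000000, nat_lit 9842000000], [], [nat_lit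 22003887154, nat_lit 17550879618, nat_lit 15507548392, nat_lit 17882545576, nat_lit 15507548392, nat_lit 17882545576, nat_lit 19253385056, nat_lit 21223309924], nat_lit 1271250, nat_lit 1271250, nat_lit 1271250, nat_lit 1271250, nat_lit 1271250, nat_lit 1271250, [nat_lit 780000, nat_lit 1100000, nat_lit 2127500], [nat_lit 42, nat_lit 40, nat_lit 40, nat_lit 80, nat_lit 13, nat_lit 345, nat_lit 125, nat_lit 9]⟩,
 zbF0, [⟨nat_lit 4, nat_lit 100, nat_lit 100, nat_lit 100, nat_lit 533601152⟩]⟩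
noncomputable def p072_l55 : Lf2 := ⟨nat_lit 0, nat_lit 10, [nat_lit 0, nat_lit 5, nat_lit 5, nat_lit 20], false, nat_lit 240, nat_lit 336, nat_lit 240, nat_lit 336, ⟨nat_lit 1000, nat_lit 0, nat_lit 0, nat_lit 0, nat_lit 0, nat_lit 0, nat_lit 0, nat_lit 0, nat_lit 0, nat_lit 0, nat_lit 0, nat_lit 0, nat_lit 0, nat_lit 0, nat_lit 0, nat_lit 0, false, false⟩,
 nat_lit 10114, nat_lit 0, nat_lit 0, nat_lit 14164, nat_lit 6436, nat_lit 6436, nat_lit 1663, nat_lit 0, nat_lit 0, nat_lit 1663, nat_lit 0, nat_lit 0, nat_lit 0, nat_lit 0, nat_lit 0, nat_lit 0, nat_lit 0, nat_lit 0, [],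
 ⟨p072_k22, nat_lit 0, nat_lit 0, nat_lit 200, nat_lit 0, nat_lit 341911, [nat_lit 3282000000, nat_lit 4688000000, nat_lit 9842000000], [], [nat_lit 19084590999, nat_lit 19676656107, nat_lit 20963918279, nat_lit 21465187251, nat_lit 24036719313, nat_lit 24485598590, nat_lit 25853321930, nat_lit 26438999726], nat_lit 1271250, nat_lit 1271250, nat_lit 1100001, nat_lit 1785000, nat_lit 1271250, nat_lit 1271250, [nat_lit 780000, nat_lit 1100000, nat_lit 2127500], [nat_lit 42, nat_lit 40, nat_lit 40, nat_lit 80, nat_lit 13, nat_lit 373, nat_lit 150, nat_lit 10]⟩, ⟨p072_k22, nat_lit 0, nat_lit 0, nat_lit 200, nat_lit 0, nat_lit 341911, [nat_lit 3282000000, nat_lit 4688000000, nat_lit 9842000000], [], [nat_lit 19084590999, nat_lit 19676656107, nat_lit 20963918279, nat_lit 21465187251, nat_lit 24036719313, nat_lit 24485598590, nat_lit 25853321930, nat_lit 26438999726], nat_lit 1271250, nat_lit 1271250, nat_lit 1100001, nat_lit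 1785000, nat_lit 1271250, nat_lit 1271250, [nat_lit 780000, nat_lit 1100000, nat_lit 2127500], [nat_lit 42, nat_lit 40, nat_lit 40, nat_lit 80, nat_lit 13, nat_lit 373, nat_lit 150, nat_lit 10]⟩,
 zbF0, [⟨nat_lit 16, nat_lit 100, nat_lit 80, nat_lit 100, nat_lit 354716233⟩, ⟨nat_lit 19, nat_lit 100, nat_lit 80, nat_lit 100, nat_lit 354716233⟩, ⟨nat_lit 11, nat_lit 71, nat_lit 71, nat_lit 100, nat_lit 202329738⟩]⟩
noncomputable def p072_l56 : Lf2 := ⟨nat_lit 0, nat_lit 10, [nat_lit 0, nat_lit 5, nat_lit 5, nat_lit 20], false, nat_lit 240, nat_lit 328, nat_lit 240, nat_lit 336, ⟨nat_lit 1000, nat_lit 0, nat_lit 0, nat_lit 0, nat_lit 0, nat_lit 0, nat_lit 0, nat_lit 0, nat_lit 0, nat_lit 0, nat_lit 0, nat_lit 0, nat_lit 0, nat_lit 0, nat_lit 0, nat_lit 0, false, false⟩,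
 nat_lit 11949, nat_lit 498, nat_lit 0, nat_lit 0, nat_lit 8266, nat_lit 7603, nat_lit 771, nat_lit 0, nat_lit 0, nat_lit 1407, nat_lit 0, nat_lit 0, nat_lit 0, nat_lit 0, nat_lit 0, nat_lit 0, nat_lit 0, nat_lit 0, [],
 ⟨p072_k23, nat_lit 0, nat_lit 0, nat_lit 204, nat_lit 0, nat_lit 426895, [nat_lit 3282000000, nat_lit 4688000000, nat_lit 7968000000], [], [nat_lit 19318859323, nat_lit 20077352689, nat_lit 21482819459, nat_lit 22116978817, nat_lit 24789746502, nat_lit 25493334691, nat_lit 26730439166, nat_lit 27418937299], nat_lit 1271250, nat_lit 1271250, nat_lit 1100001, nat_lit 1785000, nat_lit 1271250, nat_lit 1271250, [nat_lit 780000, nat_lit 1100000, nat_lit 1785000], [nat_lit 36, nat_lit 40, nat_lit 40, nat_lit 80, nat_lit 7, nat_lit 272, nat_lit 60, nat_lit 8]⟩, ⟨p072_k22, nat_lit 0, nat_lit 0, nat_lit 284, nat_lit 0, nat_lit 450515, [nat_lit 3282000000, nat_lit 4688000000, nat_lit 9842000000], [], [nat_lit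 19253787523, nat_lit 20546574445, nat_lit 21124924467, nat_lit 22210849229, nat_lit 24621203660, nat_lit 25917127351, nat_lit 26457610401, nat_lit 27733904967], nat_lit 1271250, nat_lit 1271250, nat_lit 1100001, nat_lit 1785000, nat_lit 1271250, nat_lit 1271250, [nat_lit 780000, nat_lit 1100000, nat_lit 2127500], [nat_lit 42, nat_lit 40, nat_lit 40, nat_lit 80, nat_lit 13, nat_lit 373, nat_lit 150, nat_lit 10]⟩,
 zbF0, [⟨nat_lit 16, nat_lit 97, nat_lit 84, nat_lit 100, nat_lit 570764853⟩, ⟨nat_lit 19, nat_lit 100, nat_lit 80, nat_lit 100, nat_lit 527535559⟩]⟩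
noncomputable def p072_l57 : Lf2 := ⟨nat_lit 0, nat_lit 10, [nat_lit 0, nat_lit 5, nat_lit 5, nat_lit 20], false, nat_lit 240, nat_lit 320, nat_lit 240, nat_lit 336, ⟨nat_lit 1000, nat_lit 0, nat_lit 0, nat_lit 0, nat_lit 0, nat_lit 0, nat_lit 0, nat_lit 0, nat_lit 0, nat_lit 0, nat_lit 0, nat_lit 0, nat_lit 0, nat_lit 0, nat_lit 0, nat_lit 0, false, false⟩,
 nat_lit 11453, nat_lit 0, nat_lit 0, nat_lit 0, nat_lit 7929, nat_lit 7288, nat_lit 769, nat_lit 0, nat_lit 0, nat_lit 1479, nat_lit 0, nat_lit 0, nat_lit 0, nat_lit 0, nat_lit 0, nat_lit 0, nat_lit 0, nat_lit 0, [],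
 ⟨p072_k21, nat_lit 0, nat_lit 0, nat_lit 260, nat_lit 0, nat_lit 507102, [nat_lit 3282000000, nat_lit 4688000000, nat_lit 7968000000], [], [nat_lit 20076554716, nat_lit 21556234874, nat_lit 22112471148, nat_lit 23352035002, nat_lit 24662414968, nat_lit 26137149532, nat_lit 26533953632, nat_lit 27918845552], nat_lit 1271250, nat_lit 1271250, nat_lit 1100001, nat_lit 1785000, nat_lit 1271250, nat_lit 1271250, [nat_lit 780000, nat_lit 1100000, nat_lit 1785000], [nat_lit 36, nat_lit 40, nat_lit 40, nat_lit 80, nat_lit 7, nat_lit 272, nat_lit 60, nat_lit 8]⟩, ⟨p072_k22, nat_lit 0, nat_lit 0, nat_lit 319, nat_lit 0, nat_lit 563749, [nat_lit 3282000000, nat_lit 4688000000, nat_lit 9842000000], [], [nat_lit 19504589983, nat_lit 20557014847, nat_lit 21067011807, nat_lit 22130428559, nat_lit 24448984556, nat_lit 25717493959, nat_lit 26294499117, nat_lit 27542468253], nat_lit 1271250, nat_lit 1271250, nat_lit 1100001, nat_lit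 1785000, nat_lit 1271250, nat_lit 1271250, [nat_lit 780000, nat_lit 1100000, nat_lit 2127500], [nat_lit 42, nat_lit 40, nat_lit 40, nat_lit 80, nat_lit 13, nat_lit 373, nat_lit 150, nat_lit 10]⟩,
 zbF0, [⟨nat_lit 16, nat_lit 94, nat_lit 88, nat_lit 100, nat_lit 564060615⟩, ⟨nat_lit 19, nat_lit 100, nat_lit 80, nat_lit 100, nat_lit 505448781⟩]⟩
noncomputable def b_V_700_700_20_41 : St := ⟨true, nat_lit 1, nat_lit 1, nat_lit 1, nat_lit 120, nat_lit 280, nat_lit 320, nat_lit 280, nat_lit 300, nat_lit 160, nat_lit 240, nat_lit 80, nat_lit 120, nat_lit 240, nat_lit 336, nat_lit 0, nat_lit 336, nat_lit 0, nat_lit 40, nat_lit 0, nat_lit 0, nat_lit 0, nat_lit 0⟩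
theorem d_V_700_700_20_41 (h : EB TB.env) : Dead b_V_700_700_20_41 := chkB_sound0 h (T :=
(.spl (nat_lit 5) (nat_lit 160)
(.leaf p072_l53)
(.spl (nat_lit 5) (nat_lit 240)
(.leaf p072_l54)
(.spl (nat_lit 0) (nat_lit 300)
(.spl (nat_lit 0) (nat_lit 290)
(.ord (.leaf p072_l55))
(.trX (nat_lit 16) (nat_lit 97) (nat_lit 84) (nat_lit 100) (nat_lit 328) (.leaf p072_l56)))
(.trX (nat_lit 16) (nat_lit 94) (nat_lit 88) (nat_lit 100) (nat_lit 320) (.leaf p072_l57)))))) (by decide +kernel)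
noncomputable def p072_l58 : Lf2 := ⟨nat_lit 0, nat_lit 10, [nat_lit 0, nat_lit 5, nat_lit 5, nat_lit 20], false, nat_lit 160, nat_lit 320, nat_lit 0, nat_lit 160, ⟨nat_lit 1000, nat_lit 0, nat_lit 0, nat_lit 0, nat_lit 0, nat_lit 0, nat_lit 0, nat_lit 0, nat_lit 0, nat_lit 0, nat_lit 0, nat_lit 0, nat_lit 0, nat_lit 0, nat_lit 0, nat_lit 0, false, false⟩,
 nat_lit 10894, nat_lit 0, nat_lit 0, nat_lit 0, nat_lit 7541, nat_lit 7541, nat_lit 684, nat_lit 0, nat_lit 0, nat_lit 1293, nat_lit 0, nat_lit 0, nat_lit 0, nat_lit 7718761683713, nat_lit 0, nat_lit 0, nat_lit 0, nat_lit 0, [],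
 ⟨p072_k4, nat_lit 0, nat_lit 0, nat_lit 319, nat_lit 0, nat_lit 599874, [nat_lit 3282000000, nat_lit 6250000000, nat_lit 7968000000], [], [nat_lit 22255597388, nat_lit 22417728652, nat_lit 22457677546, nat_lit 23293082356, nat_lit 25693914297, nat_lit 26530951912, nat_lit 30744661908, nat_lit 27688261808], nat_lit 1271250, nat_lit 1271250, nat_lit 631250, nat_lit 1751250, nat_lit 1100001, nat_lit 2470000, [nat_lit 780000, nat_lit 1435000, nat_lit 1271250], [nat_lit 18, nat_lit 40, nat_lit 40, nat_lit 80, nat_lit 2, nat_lit 373, nat_lit 150, nat_lit 12]⟩, ⟨p072_k4, nat_lit 0, nat_lit 0, nat_lit 429, nat_lit 0, nat_lit 599874, [nat_lit 3282000000, nat_lit 6250000000, nat_lit 7968000000], [], [nat_lit 23270116138, nat_lit 22936633222, nat_lit 24244965762, nat_lit 26687755680, nat_lit 17052752450, nat_lit 18250866383, nat_lit 29156383633, nat_lit 25828193447], nat_lit 1271250, nat_lit 1271250, nat_lit 631250, nat_lit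 1751250, nat_lit 0, nat_lit 1100001, [nat_lit 780000, nat_lit 1435000, nat_lit 1271250], [nat_lit 18, nat_lit 40, nat_lit 40, nat_lit 80, nat_lit 2, nat_lit 317, nat_lit 100, nat_lit 10]⟩,
 zbF0, [⟨nat_lit 16, nat_lit 94, nat_lit 88, nat_lit 100, nat_lit 375623788⟩]⟩
noncomputable def p072_l59 : Lf2 := ⟨nat_lit 0, nat_lit 5, [nat_lit 4, nat_lit 5, nat_lit 5, nat_lit 20], false, nat_lit 160, nat_lit 320, nat_lit 160, nat_lit 320, ⟨nat_lit 1000, nat_lit 0, nat_lit 0, nat_lit 0, nat_lit 0, nat_lit 0, nat_lit 0, nat_lit 0, nat_lit 0, nat_lit 0, nat_lit 0, nat_lit 0, nat_lit 0, nat_lit 0, nat_lit 0, nat_lit 0, false, false⟩,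
 nat_lit 9485, nat_lit 0, nat_lit 0, nat_lit 0, nat_lit 6566, nat_lit 6566, nat_lit 1001, nat_lit 0, nat_lit 0, nat_lit 1001, nat_lit 0, nat_lit 0, nat_lit 0, nat_lit 0, nat_lit 0, nat_lit 0, nat_lit 0, nat_lit 0, [],
 ⟨p072_k11, nat_lit 0, nat_lit 0, nat_lit 264, nat_lit 0, nat_lit 570159, [nat_lit 3282000000, nat_lit 4688000000, nat_lit 6250000000], [], [nat_lit 18518725199, nat_lit 19659056963, nat_lit 18464294771, nat_lit 19573077659, nat_lit 24053699350, nat_lit 25671463920, nat_lit 23701362888, nat_lit 25278753912], nat_lit 1271250, nat_lit 1271250, nat_lit 631250, nat_lit 780000, nat_lit 1100001, nat_lit 2470000, [nat_lit 780000, nat_lit 1100000, nat_lit 1442500], [nat_lit 59, nat_lit 40, nat_lit 40, nat_lit 80, nat_lit 3, nat_lit 345, nat_lit 125, nat_lit 12]⟩, ⟨p072_k11, nat_lit 0, nat_lit 0, nat_lit 264, nat_lit 0, nat_lit 570159, [nat_lit 3282000000, nat_lit 4688000000, nat_lit 6250000000], [], [nat_lit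 18518725199, nat_lit 19659056963, nat_lit 18464294771, nat_lit 19573077659, nat_lit 24053699350, nat_lit 25671463920, nat_lit 23701362888, nat_lit 25278753912], nat_lit 1271250, nat_lit 1271250, nat_lit 631250, nat_lit 780000, nat_lit 1100001, nat_lit 2470000, [nat_lit 780000, nat_lit 1100000, nat_lit 1442500], [nat_lit 59, nat_lit 40, nat_lit 40, nat_lit 80, nat_lit 3, nat_lit 345, nat_lit 125, nat_lit 12]⟩,
 zbF0, [⟨nat_lit 0, nat_lit 91, nat_lit 91, nat_lit 100, nat_lit 568563755⟩, ⟨nat_lit 16, nat_lit 94, nat_lit 88, nat_lit 100, nat_lit 106974539⟩, ⟨nat_lit 19, nat_lit 94, nat_lit 88, nat_lit 100, nat_lit 106974539⟩, ⟨nat_lit 11, nat_lit 95, nat_lit 95, nat_lit 100, nat_lit 302784736⟩]⟩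
noncomputable def p072_l60 : Lf2 := ⟨nat_lit 0, nat_lit 8, [nat_lit 50, nat_lit 5, nat_lit 5, nat_lit 20], false, nat_lit 160, nat_lit 320, nat_lit 160, nat_lit 320, ⟨nat_lit 1000, nat_lit 0, nat_lit 0, nat_lit 0, nat_lit 0, nat_lit 0, nat_lit 0, nat_lit 0, nat_lit 0, nat_lit 0, nat_lit 0, nat_lit 0, nat_lit 0, nat_lit 0, nat_lit 0, nat_lit 0, false, false⟩,
 nat_lit 9817, nat_lit 0, nat_lit 0, nat_lit 0, nat_lit 6796, nat_lit 6796, nat_lit 936, nat_lit 0, nat_lit 0, nat_lit 936, nat_lit 0, nat_lit 0, nat_lit 0, nat_lit 0, nat_lit 0, nat_lit 0, nat_lit 0, nat_lit 0, [],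
 ⟨p072_k14, nat_lit 0, nat_lit 0, nat_lit 193, nat_lit 0, nat_lit 306670, [nat_lit 3282000000, nat_lit 6250000000, nat_lit 7968000000], [], [nat_lit 16791001344, nat_lit 17673810800, nat_lit 16657093672, nat_lit 17515972816, nat_lit 24351532656, nat_lit 25048748810, nat_lit 24016053000, nat_lit 24648261732], nat_lit 1271250, nat_lit 1271250, nat_lit 631250, nat_lit 780000, nat_lit 1100001, nat_lit 2470000, [nat_lit 780000, nat_lit 1435000, nat_lit 1271250], [nat_lit 18, nat_lit 40, nat_lit 40, nat_lit 80, nat_lit 2, nat_lit 345, nat_lit 125, nat_lit 11]⟩, ⟨p072_k14, nat_lit 0, nat_lit 0, nat_lit 193, nat_lit 0, nat_lit 306670, [nat_lit 3282000000, nat_lit 6250000000, nat_lit 7968000000], [], [nat_lit 16791001344, nat_lit 17673810800, nat_lit 16657093672, nat_lit 17515972816, nat_lit 24351532656, nat_lit 25048748810, nat_lit 24016053000, nat_lit 24648261732], nat_lit 1271250, nat_lit 1271250, nat_lit 631250, nat_lit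 780000, nat_lit 1100001, nat_lit 2470000, [nat_lit 780000, nat_lit 1435000, nat_lit 1271250], [nat_lit 18, nat_lit 40, nat_lit 40, nat_lit 80, nat_lit 2, nat_lit 345, nat_lit 125, nat_lit 11]⟩,
 zbF0, [⟨nat_lit 0, nat_lit 95, nat_lit 95, nat_lit 100, nat_lit 429847910⟩, ⟨nat_lit 16, nat_lit 97, nat_lit 100, nat_lit 98, nat_lit 92530748⟩, ⟨nat_lit 7, nat_lit 100, nat_lit 97, nat_lit 98, nat_lit 90313936⟩, ⟨nat_lit 11, nat_lit 95, nat_lit 95, nat_lit 100, nat_lit 380576491⟩]⟩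
noncomputable def p072_l61 : Lf2 := ⟨nat_lit 0, nat_lit 8, [nat_lit 50, nat_lit 5, nat_lit 5, nat_lit 20], false, nat_lit 160, nat_lit 312, nat_lit 160, nat_lit 320, ⟨nat_lit 1000, nat_lit 0, nat_lit 0, nat_lit 0, nat_lit 0, nat_lit 0, nat_lit 0, nat_lit 0, nat_lit 0, nat_lit 0, nat_lit 0, nat_lit 0, nat_lit 0, nat_lit 0, nat_lit 0, nat_lit 0, false, false⟩,
 nat_lit 9960, nat_lit 0, nat_lit 0, nat_lit 0, nat_lit 7180, nat_lit 6895, nat_lit 454, nat_lit 0, nat_lit 0, nat_lit 1132, nat_lit 0, nat_lit 0, nat_lit 0, nat_lit 0, nat_lit 0, nat_lit 0, nat_lit 0, nat_lit 0, [],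
 ⟨p072_k24, nat_lit 0, nat_lit 0, nat_lit 186, nat_lit 0, nat_lit 381993, [nat_lit 3282000000, nat_lit 4688000000, nat_lit 6250000000], [], [nat_lit 17464886526, nat_lit 18285126456, nat_lit 17399600220, nat_lit 18205860240, nat_lit 24546698756, nat_lit 25398716976, nat_lit 24339499074, nat_lit 25127550425], nat_lit 1271250, nat_lit 1271250, nat_lit 689850, nat_lit 780000, nat_lit 1100001, nat_lit 2401500, [nat_lit 780000, nat_lit 1100000, nat_lit 1442500], [nat_lit 59, nat_lit 40, nat_lit 40, nat_lit 80, nat_lit 3, nat_lit 345, nat_lit 125, nat_lit 12]⟩, ⟨p072_k25, nat_lit 0, nat_lit 0, nat_lit 243, nat_lit 0, nat_lit 401604, [nat_lit 3282000000, nat_lit 4688000000, nat_lit 7968000000], [], [nat_lit 16890143312, nat_lit 18351665263, nat_lit 16830404360, nat_lit 18237310200, nat_lit 24139671641, nat_lit 25788241096, nat_lit 23905595850, nat_lit 25528574140], nat_lit 1271250, nat_lit 1271250, nat_lit 689850, nat_lit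 780000, nat_lit 1100001, nat_lit 2470000, [nat_lit 780000, nat_lit 1100000, nat_lit 1785000], [nat_lit 36, nat_lit 40, nat_lit 40, nat_lit 80, nat_lit 7, nat_lit 345, nat_lit 125, nat_lit 11]⟩,
 zbF0, [⟨nat_lit 0, nat_lit 90, nat_lit 88, nat_lit 100, nat_lit 588725536⟩, ⟨nat_lit 16, nat_lit 91, nat_lit 91, nat_lit 100, nat_lit 156184345⟩, ⟨nat_lit 19, nat_lit 94, nat_lit 88, nat_lit 100, nat_lit 146240728⟩, ⟨nat_lit 11, nat_lit 94, nat_lit 94, nat_lit 100, nat_lit 327826831⟩]⟩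
noncomputable def p072_l62 : Lf2 := ⟨nat_lit 0, nat_lit 10, [nat_lit 0, nat_lit 5, nat_lit 5, nat_lit 20], false, nat_lit 160, nat_lit 320, nat_lit 160, nat_lit 320, ⟨nat_lit 1000, nat_lit 0, nat_lit 0, nat_lit 0, nat_lit 0, nat_lit 0, nat_lit 0, nat_lit 0, nat_lit 0, nat_lit 0, nat_lit 0, nat_lit 0, nat_lit 0, nat_lit 0, nat_lit 0, nat_lit 0, false, false⟩,
 nat_lit 13272, nat_lit 0, nat_lit 0, nat_lit 0, nat_lit 9188, nat_lit 9188, nat_lit 403, nat_lit 0, nat_lit 0, nat_lit 403, nat_lit 0, nat_lit 0, nat_lit 0, nat_lit 0, nat_lit 0, nat_lit 0, nat_lit 0, nat_lit 0, [],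
 ⟨p072_k4, nat_lit 0, nat_lit 0, nat_lit 201, nat_lit 0, nat_lit 322452, [nat_lit 3282000000, nat_lit 6250000000, nat_lit 7968000000], [], [nat_lit 17310331857, nat_lit 19459082193, nat_lit 16976735241, nat_lit 19064124505, nat_lit 25988014300, nat_lit 27981760560, nat_lit 25370779569, nat_lit 27269722416], nat_lit 1271250, nat_lit 1271250, nat_lit 631250, nat_lit 780000, nat_lit 1100001, nat_lit 2470000, [nat_lit 780000, nat_lit 1435000, nat_lit 1271250], [nat_lit 18, nat_lit 40, nat_lit 40, nat_lit 80, nat_lit 2, nat_lit 345, nat_lit 125, nat_lit 11]⟩, ⟨p072_k4, nat_lit 0, nat_lit 0, nat_lit 201, nat_lit 0, nat_lit 322452, [nat_lit 3282000000, nat_lit 6250000000, nat_lit 7968000000], [], [nat_lit 17310331857, nat_lit 19459082193, nat_lit 16976735241, nat_lit 19064124505, nat_lit 25988014300, nat_lit 27981760560, nat_lit 25370779569, nat_lit 27269722416], nat_lit 1271250, nat_lit 1271250, nat_lit 631250, nat_lit 780000,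 nat_lit 1100001, nat_lit 2470000, [nat_lit 780000, nat_lit 1435000, nat_lit 1271250], [nat_lit 18, nat_lit 40, nat_lit 40, nat_lit 80, nat_lit 2, nat_lit 345, nat_lit 125, nat_lit 11]⟩,
 zbF0, [⟨nat_lit 0, nat_lit 91, nat_lit 91, nat_lit 100, nat_lit 765995390⟩, ⟨nat_lit 16, nat_lit 94, nat_lit 88, nat_lit 100, nat_lit 225942296⟩, ⟨nat_lit 19, nat_lit 94, nat_lit 88, nat_lit 100, nat_lit 225942296⟩, ⟨nat_lit 11, nat_lit 95, nat_lit 95, nat_lit 100, nat_lit 282634943⟩]⟩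
noncomputable def p072_l63 : Lf2 := ⟨nat_lit 0, nat_lit 5, [nat_lit 4, nat_lit 5, nat_lit 5, nat_lit 20], false, nat_lit 160, nat_lit 320, nat_lit 160, nat_lit 320, ⟨nat_lit 1000, nat_lit 0, nat_lit 0, nat_lit 0, nat_lit 0, nat_lit 0, nat_lit 0, nat_lit 0, nat_lit 0, nat_lit 0, nat_lit 0, nat_lit 0, nat_lit 0, nat_lit 0, nat_lit 0, nat_lit 0, false, false⟩,
 nat_lit 9529, nat_lit 0, nat_lit 0, nat_lit 0, nat_lit 6596, nat_lit 6596, nat_lit 718, nat_lit 0, nat_lit 0, nat_lit 1298, nat_lit 0, nat_lit 0, nat_lit 0, nat_lit 0, nat_lit 0, nat_lit 0, nat_lit 0, nat_lit 0, [],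
 ⟨p072_k11, nat_lit 0, nat_lit 0, nat_lit 256, nat_lit 0, nat_lit 570159, [nat_lit 3282000000, nat_lit 4688000000, nat_lit 6250000000], [], [nat_lit 19385915000, nat_lit 19694732874, nat_lit 20780005282, nat_lit 21725645226, nat_lit 24063084250, nat_lit 25303454154, nat_lit 31566471498, nat_lit 28579749930], nat_lit 1271250, nat_lit 1271250, nat_lit 780000, nat_lit 1762500, nat_lit 1100001, nat_lit 2470000, [nat_lit 780000, nat_lit 1100000, nat_lit 1442500], [nat_lit 59, nat_lit 40, nat_lit 40, nat_lit 80, nat_lit 3, nat_lit 373, nat_lit 150, nat_lit 14]⟩, ⟨p072_k11, nat_lit 0, nat_lit 0, nat_lit 256, nat_lit 0, nat_lit 570159, [nat_lit 3282000000, nat_lit 4688000000, nat_lit 6250000000], [], [nat_lit 19385915000, nat_lit 17648420374, nat_lit 18733692782, nat_lit 19787089680, nat_lit 23719002792, nat_lit 25301533872, nat_lit 30071158998, nat_lit 27126659648], nat_lit 1271250, nat_lit 1271250, nat_lit 780000, nat_lit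 1762500, nat_lit 1100001, nat_lit 2470000, [nat_lit 780000, nat_lit 1100000, nat_lit 1442500], [nat_lit 59, nat_lit 40, nat_lit 40, nat_lit 80, nat_lit 3, nat_lit 373, nat_lit 150, nat_lit 14]⟩,
 zbF0, [⟨nat_lit 16, nat_lit 94, nat_lit 88, nat_lit 100, nat_lit 411165849⟩, ⟨nat_lit 19, nat_lit 94, nat_lit 88, nat_lit 100, nat_lit 411165849⟩]⟩
noncomputable def p072_l64 : Lf2 := ⟨nat_lit 0, nat_lit 10, [nat_lit 0, nat_lit 5, nat_lit 5, nat_lit 20], false, nat_lit 160, nat_lit 320, nat_lit 160, nat_lit 320, ⟨nat_lit 1000, nat_lit 0, nat_lit 0, nat_lit 0, nat_lit 0, nat_lit 0, nat_lit 0, nat_lit 0, nat_lit 0, nat_lit 0, nat_lit 0, nat_lit 0, nat_lit 0, nat_lit 0, nat_lit 0, nat_lit 0, false, false⟩,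
 nat_lit 11023, nat_lit 0, nat_lit 0, nat_lit 0, nat_lit 7631, nat_lit 7631, nat_lit 725, nat_lit 0, nat_lit 0, nat_lit 725, nat_lit 0, nat_lit 0, nat_lit 0, nat_lit 0, nat_lit 0, nat_lit 0, nat_lit 0, nat_lit 0, [],
 ⟨p072_k4, nat_lit 0, nat_lit 0, nat_lit 185, nat_lit 0, nat_lit 310545, [nat_lit 3282000000, nat_lit 6250000000, nat_lit 7968000000], [], [nat_lit 18259576250, nat_lit 17817471351, nat_lit 19958032649, nat_lit 20681378130, nat_lit 24613663905, nat_lit 25224412498, nat_lit 30978698703, nat_lit 29251009779], nat_lit 1271250, nat_lit 1271250, nat_lit 780000, nat_lit 1762500, nat_lit 1100001, nat_lit 2470000, [nat_lit 780000, nat_lit 1435000, nat_lit 1271250], [nat_lit 18, nat_lit 40, nat_lit 40, nat_lit 80, nat_lit 2, nat_lit 373, nat_lit 150, nat_lit 12]⟩, ⟨p072_k4, nat_lit 0, nat_lit 0, nat_lit 185, nat_lit 0, nat_lit 310545, [nat_lit 3282000000, nat_lit 6250000000, nat_lit 7968000000], [], [nat_lit 18259576250,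 nat_lit 17817471351, nat_lit 19958032649, nat_lit 20681378130, nat_lit 24613663905, nat_lit 25224412498, nat_lit 30978698703, nat_lit 29251009779], nat_lit 1271250, nat_lit 1271250, nat_lit 780000, nat_lit 1762500, nat_lit 1100001, nat_lit 2470000, [nat_lit 780000, nat_lit 1435000, nat_lit 1271250], [nat_lit 18, nat_lit 40, nat_lit 40, nat_lit 80, nat_lit 2, nat_lit 373, nat_lit 150, nat_lit 12]⟩,
 zbF0, [⟨nat_lit 16, nat_lit 94, nat_lit 88, nat_lit 100, nat_lit 450075580⟩, ⟨nat_lit 19, nat_lit 94, nat_lit 88, nat_lit 100, nat_lit 463300472⟩]⟩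
noncomputable def p072_l65 : Lf2 := ⟨nat_lit 0, nat_lit 10, [nat_lit 0, nat_lit 5, nat_lit 5, nat_lit 20], false, nat_lit 160, nat_lit 312, nat_lit 160, nat_lit 320, ⟨nat_lit 1000, nat_lit 0, nat_lit 0, nat_lit 0, nat_lit 0, nat_lit 0, nat_lit 0, nat_lit 0, nat_lit 0, nat_lit 0, nat_lit 0, nat_lit 0, nat_lit 0, nat_lit 0, nat_lit 0, nat_lit 0, false, false⟩,
 nat_lit 10186, nat_lit 0, nat_lit 0, nat_lit 0, nat_lit 7343, nat_lit 7051, nat_lit 674, nat_lit 0, nat_lit 0, nat_lit 849, nat_lit 0, nat_lit 0, nat_lit 0, nat_lit 0, nat_lit 0, nat_lit 0, nat_lit 0, nat_lit 0, [],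
 ⟨p072_k13, nat_lit 0, nat_lit 0, nat_lit 213, nat_lit 0, nat_lit 387432, [nat_lit 3282000000, nat_lit 6250000000, nat_lit 7968000000], [], [nat_lit 19136777248, nat_lit 19824991914, nat_lit 21155132163, nat_lit 21697355634, nat_lit 24630231076, nat_lit 25244483440, nat_lit 28069899463, nat_lit 27082662421], nat_lit 1271250, nat_lit 1271250, nat_lit 780000, nat_lit 1762500, nat_lit 1100001, nat_lit 2401500, [nat_lit 780000, nat_lit 1435000, nat_lit 1271250], [nat_lit 18, nat_lit 40, nat_lit 40, nat_lit 80, nat_lit 2, nat_lit 373, nat_lit 150, nat_lit 11]⟩, ⟨p072_k4, nat_lit 0, nat_lit 0, nat_lit 232, nat_lit 0, nat_lit 407447, [nat_lit 3282000000, nat_lit 6250000000, nat_lit 7968000000], [], [nat_lit 18967451674, nat_lit 20312425598, nat_lit 21154348944, nat_lit 22216897638, nat_lit 24655005604, nat_lit 25649410634, nat_lit 31208516163, nat_lit 28015766955], nat_lit 1271250, nat_lit 1271250, nat_lit 780000, nat_lit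 1762500, nat_lit 1100001, nat_lit 2470000, [nat_lit 780000, nat_lit 1435000, nat_lit 1271250], [nat_lit 18, nat_lit 40, nat_lit 40, nat_lit 80, nat_lit 2, nat_lit 373, nat_lit 150, nat_lit 12]⟩,
 zbF0, [⟨nat_lit 0, nat_lit 90, nat_lit 88, nat_lit 100, nat_lit 114759461⟩, ⟨nat_lit 16, nat_lit 91, nat_lit 91, nat_lit 100, nat_lit 440500748⟩, ⟨nat_lit 19, nat_lit 94, nat_lit 88, nat_lit 100, nat_lit 416262583⟩]⟩
noncomputable def b_V_700_700_20_42 : St := ⟨true, nat_lit 1, nat_lit 1, nat_lit 1, nat_lit 120, nat_lit 280, nat_lit 320, nat_lit 300, nat_lit 320, nat_lit 64, nat_lit 240, nat_lit 80, nat_lit 120, nat_lit 160, nat_lit 336, nat_lit 0, nat_lit 336, nat_lit 0, nat_lit 40, nat_lit 0, nat_lit 0, nat_lit 0, nat_lit 0⟩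
theorem d_V_700_700_20_42 (h : EB TB.env) : Dead b_V_700_700_20_42 := chkB_sound0 h (T :=
(.ord (.trZ (nat_lit 0) (nat_lit 100) (nat_lit 100) (nat_lit 100) (nat_lit 100) (.trX (nat_lit 16) (nat_lit 94) (nat_lit 88) (nat_lit 100) (nat_lit 320) (.trX (nat_lit 19) (nat_lit 94) (nat_lit 88) (nat_lit 100) (nat_lit 320) (.spl (nat_lit 5) (nat_lit 160)
(.leaf p072_l58)
(.spl (nat_lit 2) (nat_lit 120)
(.spl (nat_lit 6) (nat_lit 20)
(.leaf p072_l59)
(.spl (nat_lit 6) (nat_lit 32)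
(.spl (nat_lit 0) (nat_lit 310)
(.ord (.leaf p072_l60))
(.trZ (nat_lit 0) (nat_lit 97) (nat_lit 93) (nat_lit 100) (nat_lit 108) (.trX (nat_lit 16) (nat_lit 91) (nat_lit 91) (nat_lit 100) (nat_lit 312) (.leaf p072_l61))))
(.leaf p072_l62)))
(.spl (nat_lit 6) (nat_lit 20)
(.leaf p072_l63)
(.spl (nat_lit 0) (nat_lit 310)
(.ord (.leaf p072_l64))
(.trX (nat_lit 16) (nat_lit 91) (nat_lit 91) (nat_lit 100) (nat_lit 312) (.leaf p072_l65))))))))))) (by decide +kernel)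
noncomputable def p072_l66 : Lf2 := ⟨nat_lit 0, nat_lit 10, [nat_lit 0, nat_lit 5, nat_lit 5, nat_lit 20], false, nat_lit 0, nat_lit 336, nat_lit 0, nat_lit 336, ⟨nat_lit 1000, nat_lit 0, nat_lit 0, nat_lit 0, nat_lit 0, nat_lit 0, nat_lit 0, nat_lit 0, nat_lit 0, nat_lit 0, nat_lit 0, nat_lit 0, nat_lit 0, nat_lit 0, nat_lit 0, nat_lit 0, false, false⟩,
 nat_lit 10529, nat_lit 0, nat_lit 0, nat_lit 2072, nat_lit 6700, nat_lit 6700, nat_lit 1208, nat_lit 0, nat_lit 0, nat_lit 896, nat_lit 0, nat_lit 0, nat_lit 0, nat_lit 0, nat_lit 0, nat_lit 0, nat_lit 0, nat_lit 0, [],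
 ⟨p072_k22, nat_lit 0, nat_lit 0, nat_lit 405, nat_lit 0, nat_lit 450515, [nat_lit 3282000000, nat_lit 4688000000, nat_lit 9842000000], [], [nat_lit 26681420200, nat_lit 27691727800, nat_lit 37550239200, nat_lit 38784566200, nat_lit 27890554360, nat_lit 27998930880, nat_lit 35068666641, nat_lit 35748290961], nat_lit 1271250, nat_lit 1271250, nat_lit 1271250, nat_lit 1271250, nat_lit 0, nat_lit 2373000, [nat_lit 780000, nat_lit 1100000, nat_lit 2127500], [nat_lit 42, nat_lit 40, nat_lit 40, nat_lit 80, nat_lit 13, nat_lit 428, nat_lit 200, nat_lit 12]⟩, ⟨p072_k22, nat_lit 0, nat_lit 0, nat_lit 405, nat_lit 0, nat_lit 450515, [nat_lit 3282000000, nat_lit 4688000000, nat_lit 9842000000], [], [nat_lit 28236545200, nat_lit 29246852800, nat_lit 37961665600, nat_lit 38785562800, nat_lit 29445679360, nat_lit 29554055880, nat_lit 35068666641, nat_lit 35748290961], nat_lit 1271250, nat_lit 1271250, nat_lit 1271250, nat_lit 1271250,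 nat_lit 0, nat_lit 2373000, [nat_lit 780000, nat_lit 1100000, nat_lit 2127500], [nat_lit 42, nat_lit 40, nat_lit 40, nat_lit 80, nat_lit 13, nat_lit 428, nat_lit 200, nat_lit 12]⟩,
 zbF0, [⟨nat_lit 4, nat_lit 94, nat_lit 100, nat_lit 97, nat_lit 148669814⟩, ⟨nat_lit 7, nat_lit 94, nat_lit 100, nat_lit 97, nat_lit 148669814⟩]⟩
noncomputable def p072_l67 : Lf2 := ⟨nat_lit 0, nat_lit 10, [nat_lit 0, nat_lit 5, nat_lit 5, nat_lit 20], false, nat_lit 0, nat_lit 320, nat_lit 0, nat_lit 336, ⟨nat_lit 1000, nat_lit 0, nat_lit 0, nat_lit 0, nat_lit 0, nat_lit 0, nat_lit 0, nat_lit 0, nat_lit 0, nat_lit 0, nat_lit 0, nat_lit 0, nat_lit 0, nat_lit 0, nat_lit 0, nat_lit 0, false, false⟩,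
 nat_lit 10112, nat_lit 0, nat_lit 0, nat_lit 0, nat_lit 6410, nat_lit 6434, nat_lit 736, nat_lit 0, nat_lit 0, nat_lit 1219, nat_lit 0, nat_lit 0, nat_lit 0, nat_lit 4120890394542, nat_lit 0, nat_lit 0, nat_lit 0, nat_lit 0, [],
 ⟨p072_k21, nat_lit 0, nat_lit 0, nat_lit 411, nat_lit 0, nat_lit 599874, [nat_lit 3282000000, nat_lit 4688000000, nat_lit 7968000000], [], [nat_lit 27668817020, nat_lit 28471900920, nat_lit 37999482260, nat_lit 39207543960, nat_lit 27635294860, nat_lit 28088894120, nat_lit 34619803960, nat_lit 35332803920], nat_lit 1271250, nat_lit 1271250, nat_lit 1271250, nat_lit 1271250, nat_lit 0, nat_lit 2260000, [nat_lit 780000, nat_lit 1100000, nat_lit 1785000], [nat_lit 36, nat_lit 40, nat_lit 40, nat_lit 80, nat_lit 7, nat_lit 317, nat_lit 100, nat_lit 10]⟩, ⟨p072_k22, nat_lit 0, nat_lit 0, nat_lit 480, nat_lit 0, nat_lit 666884, [nat_lit 3282000000, nat_lit 4688000000, nat_lit 9842000000], [], [nat_lit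 29002176875, nat_lit 30461193827, nat_lit 36854219344, nat_lit 39274690104, nat_lit 29160851883, nat_lit 29988530028, nat_lit 34753303637, nat_lit 36098423634], nat_lit 1271250, nat_lit 1271250, nat_lit 1271250, nat_lit 1271250, nat_lit 0, nat_lit 2373000, [nat_lit 780000, nat_lit 1100000, nat_lit 2127500], [nat_lit 42, nat_lit 40, nat_lit 40, nat_lit 80, nat_lit 13, nat_lit 428, nat_lit 200, nat_lit 12]⟩,
 zbF0, [⟨nat_lit 4, nat_lit 100, nat_lit 93, nat_lit 97, nat_lit 138500743⟩, ⟨nat_lit 7, nat_lit 100, nat_lit 100, nat_lit 100, nat_lit 142113968⟩]⟩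
noncomputable def b_V_700_700_20_43 : St := ⟨true, nat_lit 1, nat_lit 1, nat_lit 1, nat_lit 120, nat_lit 280, nat_lit 320, nat_lit 280, nat_lit 320, nat_lit 240, nat_lit 400, nat_lit 80, nat_lit 120, nat_lit 0, nat_lit 336, nat_lit 0, nat_lit 336, nat_lit 0, nat_lit 40, nat_lit 0, nat_lit 0, nat_lit 0, nat_lit 0⟩
theorem d_V_700_700_20_43 (h : EB TB.env) : Dead b_V_700_700_20_43 := chkB_sound0 h (T :=
(.spl (nat_lit 0) (nat_lit 300)
(.ord (.leaf p072_l66))
(.trX (nat_lit 16) (nat_lit 94) (nat_lit 88) (nat_lit 100) (nat_lit 320) (.leaf p072_l67)))) (by decide +kernel)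
noncomputable def p072_l68 : Lf2 := ⟨nat_lit 0, nat_lit 10, [nat_lit 0, nat_lit 5, nat_lit 5, nat_lit 20], true, nat_lit 0, nat_lit 160, nat_lit 0, nat_lit 336, ⟨nat_lit 0, nat_lit 1000, nat_lit 0, nat_lit 7, nat_lit 170, nat_lit 1000, nat_lit 64, nat_lit 0, nat_lit 0, nat_lit 0, nat_lit 0, nat_lit 0, nat_lit 0, nat_lit 0, nat_lit 0, nat_lit 5000000, false, false⟩,
 nat_lit 0, nat_lit 8328, nat_lit 0, nat_lit 0, nat_lit 5299, nat_lit 0, nat_lit 0, nat_lit 0, nat_lit 0, nat_lit 0, nat_lit 0, nat_lit 0, nat_lit 0, nat_lit 52922894499947, nat_lit 12, nat_lit 1000000, nat_lit 0, nat_lit 0, [(nat_lit 12, [(nat_lit 2, nat_lit 1000)])],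
 ⟨p072_k0, nat_lit 0, nat_lit 0, nat_lit 472, nat_lit 0, nat_lit 497226, [nat_lit 2479200001, nat_lit 2186400000, nat_lit 42000000], [], [nat_lit 25776551692, nat_lit 25092787279, nat_lit 19427532705, nat_lit 19633003002, nat_lit 17851650231, nat_lit 17929530154, nat_lit 24145691499, nat_lit 23545834101], nat_lit 1271250, nat_lit 1271250, nat_lit 382400, nat_lit 1100001, nat_lit 0, nat_lit 1100001, [nat_lit 780000, nat_lit 1435000, nat_lit 1271250], [nat_lit 8, nat_lit 40, nat_lit 40, nat_lit 80, nat_lit 1, nat_lit 317, nat_lit 100, nat_lit 9]⟩, C1.Rw.none,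
 ⟨nat_lit 5361, nat_lit 5478, ⟨.ofNat (nat_lit 330654), .ofNat (nat_lit 510493), .ofNat (nat_lit 335994), .ofNat (nat_lit 515832), .ofNat (nat_lit 333709), .ofNat (nat_lit 511426), .ofNat (nat_lit 339051), .ofNat (nat_lit 516768)⟩, ⟨.negSucc (nat_lit 2817), .ofNat (nat_lit 296923), .ofNat (nat_lit 0), .ofNat (nat_lit 339637), .ofNat (nat_lit 0), .ofNat (nat_lit 297732), .ofNat (nat_lit 0), .ofNat (nat_lit 340471)⟩⟩, []⟩
noncomputable def p072_l69 : Lf2 := ⟨nat_lit 0, nat_lit 10, [nat_lit 0, nat_lit 5, nat_lit 5, nat_lit 20], true, nat_lit 0, nat_lit 160, nat_lit 0, nat_lit 336, ⟨nat_lit 0, nat_lit 1000, nat_lit 0, nat_lit 7, nat_lit 173, nat_lit 1000, nat_lit 64, nat_lit 0, nat_lit 0, nat_lit 0, nat_lit 0, nat_lit 0, nat_lit 0, nat_lit 0, nat_lit 0, nat_lit 5000000, false, false⟩,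
 nat_lit 0, nat_lit 8448, nat_lit 0, nat_lit 0, nat_lit 5492, nat_lit 0, nat_lit 2387, nat_lit 0, nat_lit 0, nat_lit 0, nat_lit 0, nat_lit 0, nat_lit 0, nat_lit 26072630318688, nat_lit 0, nat_lit 400000, nat_lit 0, nat_lit 0, [(nat_lit 12, [(nat_lit 1, nat_lit 1000)])],
 ⟨p072_k19, nat_lit 0, nat_lit 0, nat_lit 499, nat_lit 0, nat_lit 577521, [nat_lit 2068400000, nat_lit 2721200001, nat_lit 2642799999], [], [nat_lit 23581151076, nat_lit 22873542574, nat_lit 17511392872, nat_lit 17790994488, nat_lit 15697748384, nat_lit 15932594750, nat_lit 21939643360, nat_lit 21317937976], nat_lit 1271250, nat_lit 1271250, nat_lit 408851, nat_lit 1100001, nat_lit 0, nat_lit 1100001, [nat_lit 780000, nat_lit 1435000, nat_lit 1271250], [nat_lit 8, nat_lit 40, nat_lit 40, nat_lit 80, nat_lit 1, nat_lit 317, nat_lit 100, nat_lit 9]⟩, C1.Rw.none,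
 ⟨nat_lit 5244, nat_lit 5362, ⟨.ofNat (nat_lit 341114), .ofNat (nat_lit 511426), .ofNat (nat_lit 351798), .ofNat (nat_lit 522110), .ofNat (nat_lit 344076), .ofNat (nat_lit 512368), .ofNat (nat_lit 354768), .ofNat (nat_lit 523060)⟩, ⟨.ofNat (nat_lit 0), .ofNat (nat_lit 297732), .ofNat (nat_lit 0), .ofNat (nat_lit 340471), .ofNat (nat_lit 0), .ofNat (nat_lit 298515), .ofNat (nat_lit 0), .ofNat (nat_lit 341286)⟩⟩, []⟩
noncomputable def p072_l70 : Lf2 := ⟨nat_lit 0, nat_lit 10, [nat_lit 0, nat_lit 5, nat_lit 5, nat_lit 20], false, nat_lit 0, nat_lit 160, nat_lit 0, nat_lit 336, ⟨nat_lit 1000, nat_lit 0, nat_lit 0, nat_lit 0, nat_lit 0, nat_lit 0, nat_lit 0, nat_lit 0, nat_lit 0, nat_lit 0, nat_lit 0, nat_lit 0, nat_lit 0, nat_lit 0, nat_lit 0, nat_lit 0, false, false⟩,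
 nat_lit 0, nat_lit 8315, nat_lit 0, nat_lit 0, nat_lit 5291, nat_lit 6526, nat_lit 424, nat_lit 0, nat_lit 0, nat_lit 1692, nat_lit 0, nat_lit 0, nat_lit 0, nat_lit 2822865870293, nat_lit 0, nat_lit 0, nat_lit 0, nat_lit 0, [],
 ⟨p072_k22, nat_lit 0, nat_lit 0, nat_lit 461, nat_lit 0, nat_lit 595503, [nat_lit 3282000000, nat_lit 4688000000, nat_lit 9842000000], [], [nat_lit 36032649440, nat_lit 34633873061, nat_lit 34265364652, nat_lit 34671798300, nat_lit 30933869776, nat_lit 31329634312, nat_lit 35942989004, nat_lit 34729307678], nat_lit 1271250, nat_lit 1271250, nat_lit 1100001, nat_lit 1785000, nat_lit 0, nat_lit 1100001, [nat_lit 780000, nat_lit 1100000, nat_lit 2127500], [nat_lit 42, nat_lit 40, nat_lit 40, nat_lit 80, nat_lit 13, nat_lit 317, nat_lit 100, nat_lit 9]⟩, ⟨p072_k22, nat_lit 0, nat_lit 0, nat_lit 156, nat_lit 0, nat_lit 0, [nat_lit 3282000000, nat_lit 4688000000, nat_lit 9842000000], [], [nat_lit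 20360252700, nat_lit 21199751094, nat_lit 23171695860, nat_lit 23878783902, nat_lit 23838842182, nat_lit 24536492338, nat_lit 25899925154, nat_lit 26489649440], nat_lit 0, nat_lit 0, nat_lit 0, nat_lit 0, nat_lit 0, nat_lit 0, [], [nat_lit 42, nat_lit 40, nat_lit 40, nat_lit 80, nat_lit 13, nat_lit 373, nat_lit 150, nat_lit 11]⟩,
 zbF0, [⟨nat_lit 7, nat_lit 91, nat_lit 100, nat_lit 96, nat_lit 249017599⟩]⟩
noncomputable def p072_l71 : Lf2 := ⟨nat_lit 0, nat_lit 10, [nat_lit 0, nat_lit 5, nat_lit 5, nat_lit 20], false, nat_lit 0, nat_lit 160, nat_lit 0, nat_lit 160, ⟨nat_lit 1000, nat_lit 0, nat_lit 0, nat_lit 0, nat_lit 0, nat_lit 0, nat_lit 0, nat_lit 0, nat_lit 0, nat_lit 0, nat_lit 0, nat_lit 0, nat_lit 0, nat_lit 0, nat_lit 0, nat_lit 0, false, false⟩,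
 nat_lit 0, nat_lit 9647, nat_lit 0, nat_lit 0, nat_lit 6406, nat_lit 7525, nat_lit 2026, nat_lit 0, nat_lit 0, nat_lit 1501, nat_lit 0, nat_lit 0, nat_lit 0, nat_lit 8316262695369, nat_lit 0, nat_lit 0, nat_lit 0, nat_lit 0, [],
 ⟨p072_k3, nat_lit 0, nat_lit 0, nat_lit 517, nat_lit 0, nat_lit 749131, [nat_lit 3282000000, nat_lit 6250000000, nat_lit 7968000000], [], [nat_lit 31345151926, nat_lit 29672000816, nat_lit 28303281434, nat_lit 28652229756, nat_lit 24912594648, nat_lit 25297176996, nat_lit 32781697366, nat_lit 31368066128], nat_lit 1271250, nat_lit 1271250, nat_lit 435600, nat_lit 1735500, nat_lit 0, nat_lit 1100001, [nat_lit 780000, nat_lit 1435000, nat_lit 1271250], [nat_lit 18, nat_lit 40, nat_lit 40, nat_lit 80, nat_lit 2, nat_lit 317, nat_lit 100, nat_lit 11]⟩, ⟨p072_k0, nat_lit 0, nat_lit 0, nat_lit 193, nat_lit 0, nat_lit 0, [nat_lit 3282000000, nat_lit 6250000000, nat_lit 9842000000], [], [nat_lit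 19932505486, nat_lit 22009747805, nat_lit 23484011300, nat_lit 25376800450, nat_lit 15170295140, nat_lit 17319703631, nat_lit 18817270000, nat_lit 20394292450], nat_lit 0, nat_lit 0, nat_lit 0, nat_lit 0, nat_lit 0, nat_lit 0, [], [nat_lit 8, nat_lit 40, nat_lit 40, nat_lit 80, nat_lit 1, nat_lit 317, nat_lit 100, nat_lit 9]⟩,
 zbF0, [⟨nat_lit 0, nat_lit 100, nat_lit 99, nat_lit 92, nat_lit 252815295⟩]⟩
noncomputable def p072_l72 : Lf2 := ⟨nat_lit 0, nat_lit 10, [nat_lit 0, nat_lit 5, nat_lit 5, nat_lit 20], false, nat_lit 0, nat_lit 160, nat_lit 160, nat_lit 336, ⟨nat_lit 288, nat_lit 712, nat_lit 0, nat_lit 7, nat_lit 205, nat_lit 712, nat_lit 64, nat_lit 0, nat_lit 0, nat_lit 0, nat_lit 0, nat_lit 0, nat_lit 0, nat_lit 0, nat_lit 0, nat_lit 5000000, false, false⟩,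
 nat_lit 0, nat_lit 5508, nat_lit 0, nat_lit 0, nat_lit 3657, nat_lit 1360, nat_lit 1096, nat_lit 0, nat_lit 0, nat_lit 0, nat_lit 0, nat_lit 0, nat_lit 0, nat_lit 10449932259397, nat_lit 0, nat_lit 284800, nat_lit 0, nat_lit 0, [(nat_lit 12, [(nat_lit 1, nat_lit 712)])],
 ⟨p072_k23, nat_lit 0, nat_lit 0, nat_lit 461, nat_lit 0, nat_lit 654143, [nat_lit 2392996800, nat_lit 3183401600, nat_lit 4204368000], [], [nat_lit 28976009750, nat_lit 28498432977, nat_lit 28527452247, nat_lit 28716035805, nat_lit 25990129603, nat_lit 26193391065, nat_lit 30185992688, nat_lit 29777322938], nat_lit 1271250, nat_lit 1271250, nat_lit 435600, nat_lit 1735500, nat_lit 0, nat_lit 1100001, [nat_lit 780000, nat_lit 1100000, nat_lit 1785000], [nat_lit 36, nat_lit 40, nat_lit 40, nat_lit 80, nat_lit 7, nat_lit 317, nat_lit 100, nat_lit 11]⟩, ⟨p072_k22, nat_lit 0, nat_lit 0, nat_lit 69, nat_lit 0, nat_lit 0, [nat_lit 945216000, nat_lit 1350144000,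 nat_lit 2834496000], [], [nat_lit 3653438362, nat_lit 4055146421, nat_lit 4990018944, nat_lit 5291836080, nat_lit 6670334521, nat_lit 6930723845, nat_lit 7257624256, nat_lit 7458085913], nat_lit 0, nat_lit 0, nat_lit 0, nat_lit 0, nat_lit 0, nat_lit 0, [], [nat_lit 42, nat_lit 40, nat_lit 40, nat_lit 80, nat_lit 13, nat_lit 373, nat_lit 150, nat_lit 10]⟩,
 ⟨nat_lit 5123, nat_lit 5245, ⟨.ofNat (nat_lit 351393), .ofNat (nat_lit 658709), .ofNat (nat_lit 367431), .ofNat (nat_lit 674748), .ofNat (nat_lit 354266), .ofNat (nat_lit 657914), .ofNat (nat_lit 370319), .ofNat (nat_lit 673968)⟩, ⟨.ofNat (nat_lit 0), .ofNat (nat_lit 298515), .ofNat (nat_lit 0), .ofNat (nat_lit 341286), .ofNat (nat_lit 0), .ofNat (nat_lit 299270), .ofNat (nat_lit 0), .ofNat (nat_lit 342080)⟩⟩, [⟨nat_lit 7, nat_lit 92, nat_lit 100, nat_lit 96, nat_lit 153547157⟩]⟩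
noncomputable def p072_l73 : Lf2 := ⟨nat_lit 0, nat_lit 10, [nat_lit 0, nat_lit 5, nat_lit 5, nat_lit 20], false, nat_lit 0, nat_lit 160, nat_lit 160, nat_lit 336, ⟨nat_lit 465, nat_lit 535, nat_lit 0, nat_lit 7, nat_lit 208, nat_lit 535, nat_lit 64, nat_lit 0, nat_lit 0, nat_lit 0, nat_lit 0, nat_lit 0, nat_lit 0, nat_lit 0, nat_lit 0, nat_lit 5000000, false, false⟩,
 nat_lit 0, nat_lit 5652, nat_lit 0, nat_lit 0, nat_lit 3832, nat_lit 2200, nat_lit 1319, nat_lit 0, nat_lit 0, nat_lit 0, nat_lit 0, nat_lit 0, nat_lit 0, nat_lit 1956417818784, nat_lit 0, nat_lit 214000, nat_lit 0, nat_lit 0, [(nat_lit 12, [(nat_lit 1, nat_lit 535)])],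
 ⟨p072_k26, nat_lit 0, nat_lit 0, nat_lit 502, nat_lit 0, nat_lit 727244, [nat_lit 2613999000, nat_lit 3557438001, nat_lit 5139990000], [], [nat_lit 28538988477, nat_lit 28039320585, nat_lit 28116823096, nat_lit 28308398716, nat_lit 25498986098, nat_lit 25704959033, nat_lit 30036387389, nat_lit 29608161389], nat_lit 1271250, nat_lit 1271250, nat_lit 462650, nat_lit 1737750, nat_lit 0, nat_lit 1100001, [nat_lit 780000, nat_lit 1100000, nat_lit 1785000], [nat_lit 36, nat_lit 40, nat_lit 40, nat_lit 80, nat_lit 7, nat_lit 317, nat_lit 100, nat_lit 11]⟩, ⟨p072_k22, nat_lit 0, nat_lit 0, nat_lit 68, nat_lit 0, nat_lit 0, [nat_lit 1526130000, nat_lit 2179920000, nat_lit 4576530000], [], [nat_lit 5871888614, nat_lit 6734172328, nat_lit 8052046020, nat_lit 8702435110, nat_lit 10731160315, nat_lit 11291753388, nat_lit 11715812320, nat_lit 12147686720], nat_lit 0, nat_lit 0, nat_lit 0, nat_lit 0, nat_lit 0, nat_lit 0, [], [nat_lit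 42, nat_lit 40, nat_lit 40, nat_lit 80, nat_lit 13, nat_lit 373, nat_lit 150, nat_lit 10]⟩,
 ⟨nat_lit 5000, nat_lit 5124, ⟨.ofNat (nat_lit 361495), .ofNat (nat_lit 657914), .ofNat (nat_lit 382900), .ofNat (nat_lit 679319), .ofNat (nat_lit 364284), .ofNat (nat_lit 657139), .ofNat (nat_lit 385712), .ofNat (nat_lit 678567)⟩, ⟨.ofNat (nat_lit 0), .ofNat (nat_lit 299270), .ofNat (nat_lit 0), .ofNat (nat_lit 342080), .ofNat (nat_lit 0), .ofNat (nat_lit 299999), .ofNat (nat_lit 0), .ofNat (nat_lit 342856)⟩⟩, [⟨nat_lit 0, nat_lit 100, nat_lit 98, nat_lit 93, nat_lit 54164904⟩, ⟨nat_lit 7, nat_lit 94, nat_lit 100, nat_lit 97, nat_lit 243085149⟩]⟩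
noncomputable def b_V_700_700_20_44 : St := ⟨true, nat_lit 1, nat_lit 0, nat_lit 2, nat_lit 120, nat_lit 280, nat_lit 300, nat_lit 280, nat_lit 300, nat_lit 64, nat_lit 240, nat_lit 80, nat_lit 120, nat_lit 0, nat_lit 160, nat_lit 0, nat_lit 336, nat_lit 0, nat_lit 40, nat_lit 0, nat_lit 0, nat_lit 0, nat_lit 0⟩
theorem d_V_700_700_20_44 (h : EB TB.env) : Dead b_V_700_700_20_44 := chkB_sound0 h (T :=
(.spl (nat_lit 0) (nat_lit 290)
(.ord (.spl (nat_lit 2) (nat_lit 160)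
(.spl (nat_lit 0) (nat_lit 285)
(.ord (.leaf p072_l68))
(.trZ (nat_lit 0) (nat_lit 100) (nat_lit 99) (nat_lit 82) (nat_lit 68) (.leaf p072_l69)))
(.leaf p072_l70)))
(.trZ (nat_lit 0) (nat_lit 100) (nat_lit 97) (nat_lit 84) (nat_lit 72) (.spl (nat_lit 5) (nat_lit 160)
(.leaf p072_l71)
(.spl (nat_lit 0) (nat_lit 295)
(.ord (.leaf p072_l72))
(.trZ (nat_lit 0) (nat_lit 100) (nat_lit 96) (nat_lit 86) (nat_lit 76) (.leaf p072_l73))))))) (by decide +kernel)
noncomputable def p072_l74 : Lf2 := ⟨nat_lit 0, nat_lit 10, [nat_lit 0, nat_lit 5, nat_lit 5, nat_lit 20], true, nat_lit 160, nat_lit 240, nat_lit 0, nat_lit 336, ⟨nat_lit 0, nat_lit 1000, nat_lit 0, nat_lit 7, nat_lit 199, nat_lit 1000, nat_lit 157, nat_lit 0, nat_lit 0, nat_lit 0, nat_lit 0, nat_lit 0, nat_lit 0, nat_lit 0, nat_lit 0, nat_lit 5000000, false, false⟩,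
 nat_lit 0, nat_lit 5163, nat_lit 0, nat_lit 0, nat_lit 3285, nat_lit 0, nat_lit 0, nat_lit 0, nat_lit 0, nat_lit 0, nat_lit 0, nat_lit 0, nat_lit 0, nat_lit 7208806153353, nat_lit 12, nat_lit 1000000, nat_lit 0, nat_lit 0, [(nat_lit 12, [(nat_lit 2, nat_lit 1000)])],
 ⟨p072_k22, nat_lit 0, nat_lit 0, nat_lit 327, nat_lit 0, nat_lit 497226, [nat_lit 2136960000, nat_lit 2804400000, nat_lit 42000000], [], [nat_lit 24084470865, nat_lit 23660585962, nat_lit 27011936540, nat_lit 26630135773, nat_lit 23064583625, nat_lit 23257984041, nat_lit 25343757920, nat_lit 25531148883], nat_lit 1271250, nat_lit 1271250, nat_lit 382400, nat_lit 1731000, nat_lit 1271250, nat_lit 1271250, [nat_lit 780000, nat_lit 1100000, nat_lit 2127500], [nat_lit 42, nat_lit 40, nat_lit 40, nat_lit 80, nat_lit 13, nat_lit 345, nat_lit 125, nat_lit 10]⟩, C1.Rw.none,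
 ⟨nat_lit 5361, nat_lit 5478, ⟨.ofNat (nat_lit 330654), .ofNat (nat_lit 660357), .ofNat (nat_lit 335994), .ofNat (nat_lit 665696), .ofNat (nat_lit 333709), .ofNat (nat_lit 659523), .ofNat (nat_lit 339051), .ofNat (nat_lit 664866)⟩, ⟨.ofNat (nat_lit 296923), .ofNat (nat_lit 446789), .ofNat (nat_lit 339637), .ofNat (nat_lit 489503), .ofNat (nat_lit 297732), .ofNat (nat_lit 445831), .ofNat (nat_lit 340471), .ofNat (nat_lit 488570)⟩⟩, []⟩
noncomputable def p072_l75 : Lf2 := ⟨nat_lit 0, nat_lit 10, [nat_lit 0, nat_lit 5, nat_lit 5, nat_lit 20], false, nat_lit 160, nat_lit 240, nat_lit 0, nat_lit 336, ⟨nat_lit 152, nat_lit 848, nat_lit 0, nat_lit 7, nat_lit 202, nat_lit 848, nat_lit 157, nat_lit 0, nat_lit 0, nat_lit 0, nat_lit 0, nat_lit 0, nat_lit 0, nat_lit 0, nat_lit 0, nat_lit 5000000, false, false⟩,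
 nat_lit 0, nat_lit 6983, nat_lit 0, nat_lit 0, nat_lit 4540, nat_lit 935, nat_lit 1006, nat_lit 0, nat_lit 0, nat_lit 322, nat_lit 0, nat_lit 0, nat_lit 0, nat_lit 19398993303041, nat_lit 0, nat_lit 848000, nat_lit 0, nat_lit 0, [(nat_lit 12, [(nat_lit 2, nat_lit 848)])],
 ⟨p072_k27, nat_lit 0, nat_lit 0, nat_lit 353, nat_lit 0, nat_lit 577521, [nat_lit 2188894080, nat_lit 2927891200, nat_lit 1246672000], [], [nat_lit 23103294132, nat_lit 22518344642, nat_lit 24942546100, nat_lit 24414882330, nat_lit 20822634941, nat_lit 21065934644, nat_lit 23163488800, nat_lit 23350789620], nat_lit 1271250, nat_lit 1271250, nat_lit 408851, nat_lit 1733250, nat_lit 1271250, nat_lit 1271250, [nat_lit 780000, nat_lit 1100000, nat_lit 2127500], [nat_lit 42, nat_lit 40, nat_lit 40, nat_lit 80, nat_lit 13, nat_lit 345, nat_lit 125, nat_lit 10]⟩, ⟨p072_k22, nat_lit 0, nat_lit 0, nat_lit 179, nat_lit 0, nat_lit 0, [nat_lit 498864000, nat_lit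 712576000, nat_lit 1495984000], [], [nat_lit 2818093763, nat_lit 2957713607, nat_lit 3190040078, nat_lit 3295780344, nat_lit 3754936790, nat_lit 3853817367, nat_lit 3933387236, nat_lit 4007619571], nat_lit 0, nat_lit 0, nat_lit 0, nat_lit 0, nat_lit 0, nat_lit 0, [], [nat_lit 42, nat_lit 40, nat_lit 40, nat_lit 80, nat_lit 13, nat_lit 373, nat_lit 150, nat_lit 11]⟩,
 ⟨nat_lit 5244, nat_lit 5362, ⟨.ofNat (nat_lit 341114), .ofNat (nat_lit 659523), .ofNat (nat_lit 351798), .ofNat (nat_lit 670208), .ofNat (nat_lit 344076), .ofNat (nat_lit 658709), .ofNat (nat_lit 354768), .ofNat (nat_lit 669401)⟩, ⟨.ofNat (nat_lit 297732), .ofNat (nat_lit 445831), .ofNat (nat_lit 340471), .ofNat (nat_lit 488570), .ofNat (nat_lit 298515), .ofNat (nat_lit 444857), .ofNat (nat_lit 341286), .ofNat (nat_lit 487628)⟩⟩, [⟨nat_lit 7, nat_lit 91, nat_lit 100, nat_lit 96, nat_lit 41023905⟩]⟩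
noncomputable def p072_l76 : Lf2 := ⟨nat_lit 0, nat_lit 10, [nat_lit 0, nat_lit 5, nat_lit 5, nat_lit 20], true, nat_lit 240, nat_lit 336, nat_lit 0, nat_lit 336, ⟨nat_lit 0, nat_lit 1000, nat_lit 0, nat_lit 7, nat_lit 170, nat_lit 1000, nat_lit 223, nat_lit 0, nat_lit 0, nat_lit 0, nat_lit 0, nat_lit 0, nat_lit 0, nat_lit 0, nat_lit 0, nat_lit 5000000, false, false⟩,
 nat_lit 0, nat_lit 7595, nat_lit 0, nat_lit 0, nat_lit 4832, nat_lit 0, nat_lit 41, nat_lit 0, nat_lit 0, nat_lit 0, nat_lit 0, nat_lit 0, nat_lit 0, nat_lit 0, nat_lit 12, nat_lit 1000000, nat_lit 0, nat_lit 0, [(nat_lit 12, [(nat_lit 2, nat_lit 1000)])],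
 ⟨p072_k22, nat_lit 0, nat_lit 0, nat_lit 334, nat_lit 0, nat_lit 497226, [nat_lit 2136960000, nat_lit 2804400000, nat_lit 42000000], [], [nat_lit 19448061873, nat_lit 19646648409, nat_lit 19603070720, nat_lit 19824413508, nat_lit 23509336025, nat_lit 23735255890, nat_lit 23398999162, nat_lit 23575196482], nat_lit 1271250, nat_lit 1271250, nat_lit 382400, nat_lit 1100001, nat_lit 1271250, nat_lit 1271250, [nat_lit 780000, nat_lit 1100000, nat_lit 2127500], [nat_lit 42, nat_lit 40, nat_lit 40, nat_lit 80, nat_lit 13, nat_lit 345, nat_lit 125, nat_lit 9]⟩, C1.Rw.none,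
 ⟨nat_lit 5361, nat_lit 5478, ⟨.ofNat (nat_lit 330654), .ofNat (nat_lit 510493), .ofNat (nat_lit 335994), .ofNat (nat_lit 515832), .ofNat (nat_lit 333709), .ofNat (nat_lit 511426), .ofNat (nat_lit 339051), .ofNat (nat_lit 516768)⟩, ⟨.ofNat (nat_lit 446789), .ofNat (nat_lit 626629), .ofNat (nat_lit 489503), .ofNat (nat_lit 669342), .ofNat (nat_lit 445831), .ofNat (nat_lit 623549), .ofNat (nat_lit 488570), .ofNat (nat_lit 666288)⟩⟩, [⟨nat_lit 4, nat_lit 89, nat_lit 100, nat_lit 95, nat_lit 298066580⟩]⟩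
noncomputable def p072_l77 : Lf2 := ⟨nat_lit 0, nat_lit 10, [nat_lit 0, nat_lit 5, nat_lit 5, nat_lit 20], true, nat_lit 240, nat_lit 316, nat_lit 0, nat_lit 320, ⟨nat_lit 0, nat_lit 1000, nat_lit 0, nat_lit 7, nat_lit 173, nat_lit 1000, nat_lit 210, nat_lit 0, nat_lit 0, nat_lit 0, nat_lit 0, nat_lit 0, nat_lit 0, nat_lit 0, nat_lit 0, nat_lit 5000000, false, false⟩,
 nat_lit 0, nat_lit 7506, nat_lit 0, nat_lit 0, nat_lit 4880, nat_lit 0, nat_lit 1375, nat_lit 0, nat_lit 0, nat_lit 0, nat_lit 0, nat_lit 0, nat_lit 0, nat_lit 7188492994213, nat_lit 0, nat_lit 929800, nat_lit 0, nat_lit 0, [(nat_lit 12, [(nat_lit 1, nat_lit 117), (nat_lit 2, nat_lit 883)])],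
 ⟨p072_k19, nat_lit 0, nat_lit 0, nat_lit 358, nat_lit 0, nat_lit 560640, [nat_lit 2303984401, nat_lit 2037051600, nat_lit 48856800], [], [nat_lit 19013661340, nat_lit 19232634176, nat_lit 19269126072, nat_lit 19463139912, nat_lit 21947188335, nat_lit 22307043422, nat_lit 21940997477, nat_lit 22125662164], nat_lit 1271250, nat_lit 1271250, nat_lit 408851, nat_lit 1100001, nat_lit 1271250, nat_lit 1271250, [nat_lit 780000, nat_lit 1435000, nat_lit 1271250], [nat_lit 8, nat_lit 40, nat_lit 40, nat_lit 80, nat_lit 1, nat_lit 345, nat_lit 125, nat_lit 9]⟩, C1.Rw.none,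
 ⟨nat_lit 5244, nat_lit 5362, ⟨.ofNat (nat_lit 341114), .ofNat (nat_lit 511426), .ofNat (nat_lit 351798), .ofNat (nat_lit 522110), .ofNat (nat_lit 344076), .ofNat (nat_lit 512368), .ofNat (nat_lit 354768), .ofNat (nat_lit 523060)⟩, ⟨.ofNat (nat_lit 445831), .ofNat (nat_lit 586525), .ofNat (nat_lit 467200), .ofNat (nat_lit 607894), .ofNat (nat_lit 444857), .ofNat (nat_lit 583882), .ofNat (nat_lit 466242), .ofNat (nat_lit 605268)⟩⟩, [⟨nat_lit 4, nat_lit 96, nat_lit 100, nat_lit 93, nat_lit 284543902⟩]⟩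
noncomputable def p072_l78 : Lf2 := ⟨nat_lit 0, nat_lit 10, [nat_lit 0, nat_lit 5, nat_lit 5, nat_lit 20], true, nat_lit 240, nat_lit 332, nat_lit 0, nat_lit 336, ⟨nat_lit 0, nat_lit 1000, nat_lit 0, nat_lit 7, nat_lit 173, nat_lit 1000, nat_lit 225, nat_lit 0, nat_lit 0, nat_lit 0, nat_lit 0, nat_lit 0, nat_lit 0, nat_lit 0, nat_lit 0, nat_lit 5000000, false, false⟩,
 nat_lit 0, nat_lit 7160, nat_lit 0, nat_lit 0, nat_lit 4655, nat_lit 0, nat_lit 769, nat_lit 0, nat_lit 0, nat_lit 0, nat_lit 0, nat_lit 0, nat_lit 0, nat_lit 7083271543313, nat_lit 12, nat_lit 1000000, nat_lit 0, nat_lit 0, [(nat_lit 12, [(nat_lit 2, nat_lit 1000)])],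
 ⟨p072_k19, nat_lit 0, nat_lit 0, nat_lit 319, nat_lit 0, nat_lit 439762, [nat_lit 2479200001, nat_lit 2186400000, nat_lit 42000000], [], [nat_lit 19279307815, nat_lit 19520153685, nat_lit 19635996521, nat_lit 19849660931, nat_lit 23150902465, nat_lit 23425515021, nat_lit 23073720827, nat_lit 23245524482], nat_lit 1271250, nat_lit 1271250, nat_lit 408851, nat_lit 1100001, nat_lit 1271250, nat_lit 1271250, [nat_lit 780000, nat_lit 1435000, nat_lit 1271250], [nat_lit 8, nat_lit 40, nat_lit 40, nat_lit 80, nat_lit 1, nat_lit 345, nat_lit 125, nat_lit 9]⟩, C1.Rw.none,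
 ⟨nat_lit 5244, nat_lit 5362, ⟨.ofNat (nat_lit 341114), .ofNat (nat_lit 511426), .ofNat (nat_lit 351798), .ofNat (nat_lit 522110), .ofNat (nat_lit 344076), .ofNat (nat_lit 512368), .ofNat (nat_lit 354768), .ofNat (nat_lit 523060)⟩, ⟨.ofNat (nat_lit 467200), .ofNat (nat_lit 637514), .ofNat (nat_lit 488570), .ofNat (nat_lit 658883), .ofNat (nat_lit 466242), .ofNat (nat_lit 634536), .ofNat (nat_lit 487628), .ofNat (nat_lit 655921)⟩⟩, [⟨nat_lit 4, nat_lit 88, nat_lit 100, nat_lit 99, nat_lit 275323552⟩]⟩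
noncomputable def p072_l79 : Lf2 := ⟨nat_lit 0, nat_lit 10, [nat_lit 0, nat_lit 5, nat_lit 5, nat_lit 20], false, nat_lit 240, nat_lit 336, nat_lit 0, nat_lit 336, ⟨nat_lit 349, nat_lit 651, nat_lit 0, nat_lit 7, nat_lit 235, nat_lit 651, nat_lit 223, nat_lit 0, nat_lit 0, nat_lit 0, nat_lit 0, nat_lit 0, nat_lit 0, nat_lit 0, nat_lit 0, nat_lit 5000000, false, false⟩,
 nat_lit 0, nat_lit 8825, nat_lit 0, nat_lit 0, nat_lit 5615, nat_lit 2260, nat_lit 599, nat_lit 0, nat_lit 0, nat_lit 585, nat_lit 0, nat_lit 0, nat_lit 0, nat_lit 6791419260760, nat_lit 0, nat_lit 651000, nat_lit 0, nat_lit 0, [(nat_lit 12, [(nat_lit 2, nat_lit 651)])],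
 ⟨p072_k22, nat_lit 0, nat_lit 0, nat_lit 297, nat_lit 0, nat_lit 497226, [nat_lit 2442834961, nat_lit 3336784400, nat_lit 3243464000], [], [nat_lit 19179153115, nat_lit 19412300920, nat_lit 20756658475, nat_lit 20956027458, nat_lit 23459534169, nat_lit 23692316541, nat_lit 25428196965, nat_lit 25702579372], nat_lit 1271250, nat_lit 1271250, nat_lit 1100001, nat_lit 1785000, nat_lit 1271250, nat_lit 1271250, [nat_lit 780000, nat_lit 1100000, nat_lit 2127500], [nat_lit 42, nat_lit 40, nat_lit 40, nat_lit 80, nat_lit 13, nat_lit 373, nat_lit 150, nat_lit 10]⟩, ⟨p072_k22, nat_lit 0, nat_lit 0, nat_lit 154, nat_lit 0, nat_lit 0, [nat_lit 1145418000, nat_lit 1636112000, nat_lit 3434858000], [], [nat_lit 7132071453, nat_lit 7277892429, nat_lit 8111601561, nat_lit 8234462373, nat_lit 8357623481, nat_lit 8436152490, nat_lit 9029973823, nat_lit 9132485638], nat_lit 0, nat_lit 0, nat_lit 0, nat_lit 0, nat_lit 0, nat_lit 0, [],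 [nat_lit 42, nat_lit 40, nat_lit 40, nat_lit 80, nat_lit 13, nat_lit 373, nat_lit 150, nat_lit 11]⟩,
 ⟨nat_lit 5361, nat_lit 5478, ⟨.ofNat (nat_lit 510493), .ofNat (nat_lit 660357), .ofNat (nat_lit 515832), .ofNat (nat_lit 665696), .ofNat (nat_lit 511426), .ofNat (nat_lit 659523), .ofNat (nat_lit 516768), .ofNat (nat_lit 664866)⟩, ⟨.ofNat (nat_lit 446789), .ofNat (nat_lit 626629), .ofNat (nat_lit 489503), .ofNat (nat_lit 669342), .ofNat (nat_lit 445831), .ofNat (nat_lit 623549), .ofNat (nat_lit 488570), .ofNat (nat_lit 666288)⟩⟩, [⟨nat_lit 4, nat_lit 89, nat_lit 100, nat_lit 95, nat_lit 386061517⟩, ⟨nat_lit 7, nat_lit 89, nat_lit 100, nat_lit 95, nat_lit 83624179⟩]⟩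
noncomputable def p072_l80 : Lf2 := ⟨nat_lit 0, nat_lit 10, [nat_lit 0, nat_lit 5, nat_lit 5, nat_lit 20], false, nat_lit 240, nat_lit 332, nat_lit 0, nat_lit 336, ⟨nat_lit 391, nat_lit 609, nat_lit 0, nat_lit 7, nat_lit 236, nat_lit 609, nat_lit 221, nat_lit 0, nat_lit 0, nat_lit 0, nat_lit 0, nat_lit 0, nat_lit 0, nat_lit 0, nat_lit 0, nat_lit 5000000, false, false⟩,
 nat_lit 0, nat_lit 8500, nat_lit 0, nat_lit 0, nat_lit 5526, nat_lit 2516, nat_lit 1081, nat_lit 0, nat_lit 0, nat_lit 650, nat_lit 0, nat_lit 0, nat_lit 0, nat_lit 14593455174130, nat_lit 0, nat_lit 243600, nat_lit 0, nat_lit 0, [(nat_lit 12, [(nat_lit 1, nat_lit 609)])],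
 ⟨p072_k27, nat_lit 0, nat_lit 0, nat_lit 322, nat_lit 0, nat_lit 577521, [nat_lit 2521602601, nat_lit 3488757200, nat_lit 5453789600], [], [nat_lit 19049588673, nat_lit 19298200643, nat_lit 21025080978, nat_lit 21252031193, nat_lit 23391895636, nat_lit 23625938309, nat_lit 25361205810, nat_lit 25637257322], nat_lit 1271250, nat_lit 1271250, nat_lit 1100001, nat_lit 1785000, nat_lit 1271250, nat_lit 1271250, [nat_lit 780000, nat_lit 1100000, nat_lit 2127500], [nat_lit 42, nat_lit 40, nat_lit 40, nat_lit 80, nat_lit 13, nat_lit 373, nat_lit 150, nat_lit 10]⟩, ⟨p072_k22, nat_lit 0, nat_lit 0, nat_lit 156, nat_lit 0, nat_lit 0, [nat_lit 1283262000, nat_lit 1833008000, nat_lit 3848222000], [], [nat_lit 8016283902, nat_lit 8341802214, nat_lit 9112182034, nat_lit 9386518242, nat_lit 9399800669, nat_lit 9575298734, nat_lit 10108402396, nat_lit 10337381012], nat_lit 0, nat_lit 0, nat_lit 0, nat_lit 0, nat_lit 0, nat_lit 0,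 [], [nat_lit 42, nat_lit 40, nat_lit 40, nat_lit 80, nat_lit 13, nat_lit 373, nat_lit 150, nat_lit 11]⟩,
 ⟨nat_lit 5244, nat_lit 5362, ⟨.ofNat (nat_lit 511426), .ofNat (nat_lit 659523), .ofNat (nat_lit 522110), .ofNat (nat_lit 670208), .ofNat (nat_lit 512368), .ofNat (nat_lit 658709), .ofNat (nat_lit 523060), .ofNat (nat_lit 669401)⟩, ⟨.ofNat (nat_lit 445831), .ofNat (nat_lit 616144), .ofNat (nat_lit 488570), .ofNat (nat_lit 658883), .ofNat (nat_lit 444857), .ofNat (nat_lit 613151), .ofNat (nat_lit 487628), .ofNat (nat_lit 655921)⟩⟩, [⟨nat_lit 16, nat_lit 99, nat_lit 82, nat_lit 100, nat_lit 39146748⟩, ⟨nat_lit 4, nat_lit 92, nat_lit 100, nat_lit 96, nat_lit 361977543⟩, ⟨nat_lit 7, nat_lit 91, nat_lit 100, nat_lit 96, nat_lit 95678212⟩]⟩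
noncomputable def p072_l81 : Lf2 := ⟨nat_lit 0, nat_lit 10, [nat_lit 0, nat_lit 5, nat_lit 5, nat_lit 20], true, nat_lit 160, nat_lit 240, nat_lit 0, nat_lit 336, ⟨nat_lit 0, nat_lit 1000, nat_lit 0, nat_lit 7, nat_lit 163, nat_lit 1000, nat_lit 157, nat_lit 0, nat_lit 0, nat_lit 0, nat_lit 0, nat_lit 0, nat_lit 0, nat_lit 0, nat_lit 0, nat_lit 5000000, false, false⟩,
 nat_lit 0, nat_lit 7566, nat_lit 0, nat_lit 0, nat_lit 5024, nat_lit 0, nat_lit 2539, nat_lit 0, nat_lit 0, nat_lit 0, nat_lit 0, nat_lit 0, nat_lit 0, nat_lit 26293255967562, nat_lit 0, nat_lit 400000, nat_lit 0, nat_lit 0, [(nat_lit 12, [(nat_lit 1, nat_lit 1000)])],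
 ⟨p072_k3, nat_lit 0, nat_lit 0, nat_lit 406, nat_lit 0, nat_lit 749131, [nat_lit 2068400000, nat_lit 2721200001, nat_lit 2682000000], [], [nat_lit 14244143339, nat_lit 14828385385, nat_lit 14392455823, nat_lit 14964204816, nat_lit 16837097741, nat_lit 17574750196, nat_lit 18384945983, nat_lit 17480988352], nat_lit 1271250, nat_lit 1271250, nat_lit 435600, nat_lit 780000, nat_lit 1100001, nat_lit 1785000, [nat_lit 780000, nat_lit 1435000, nat_lit 1271250], [nat_lit 18, nat_lit 40, nat_lit 40, nat_lit 80, nat_lit 2, nat_lit 317, nat_lit 100, nat_lit 10]⟩, C1.Rw.none,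
 ⟨nat_lit 5000, nat_lit 5245, ⟨.ofNat (nat_lit 351391), .ofNat (nat_lit 439194), .ofNat (nat_lit 372775), .ofNat (nat_lit 460577), .ofNat (nat_lit 357140), .ofNat (nat_lit 442852), .ofNat (nat_lit 378567), .ofNat (nat_lit 464278)⟩, ⟨.ofNat (nat_lit 298515), .ofNat (nat_lit 444857), .ofNat (nat_lit 341286), .ofNat (nat_lit 487628), .ofNat (nat_lit 299999), .ofNat (nat_lit 442856), .ofNat (nat_lit 342856), .ofNat (nat_lit 485713)⟩⟩, []⟩
noncomputable def p072_l82 : Lf2 := ⟨nat_lit 0, nat_lit 10, [nat_lit 0, nat_lit 5, nat_lit 5, nat_lit 20], false, nat_lit 160, nat_lit 240, nat_lit 0, nat_lit 336, ⟨nat_lit 446, nat_lit 554, nat_lit 0, nat_lit 7, nat_lit 224, nat_lit 554, nat_lit 157, nat_lit 0, nat_lit 0, nat_lit 0, nat_lit 0, nat_lit 0, nat_lit 0, nat_lit 0, nat_lit 0, nat_lit 5000000, false, false⟩,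
 nat_lit 0, nat_lit 8956, nat_lit 0, nat_lit 0, nat_lit 5947, nat_lit 3614, nat_lit 2614, nat_lit 0, nat_lit 0, nat_lit 563, nat_lit 0, nat_lit 0, nat_lit 0, nat_lit 21625743679380, nat_lit 0, nat_lit 221600, nat_lit 0, nat_lit 0, [(nat_lit 12, [(nat_lit 1, nat_lit 554)])],
 ⟨p072_k3, nat_lit 0, nat_lit 0, nat_lit 382, nat_lit 0, nat_lit 749131, [nat_lit 2609665600, nat_lit 4295044800, nat_lit 5039556000], [], [nat_lit 20273098413, nat_lit 18747520450, nat_lit 17144263854, nat_lit 17901081076, nat_lit 16921832105, nat_lit 17350668972, nat_lit 23231946538, nat_lit 21867787996], nat_lit 1271250, nat_lit 1271250, nat_lit 780000, nat_lit 1762500, nat_lit 1100001, nat_lit 1785000, [nat_lit 780000, nat_lit 1435000, nat_lit 1271250], [nat_lit 18, nat_lit 40, nat_lit 40, nat_lit 80, nat_lit 2, nat_lit 345, nat_lit 125, nat_lit 11]⟩, ⟨p072_k0, nat_lit 0, nat_lit 0, nat_lit 169, nat_lit 0, nat_lit 0, [nat_lit 1463772000, nat_lit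 2787500000, nat_lit 4389532000], [], [nat_lit 9152425391, nat_lit 10068644899, nat_lit 10605543959, nat_lit 11321739740, nat_lit 11198205064, nat_lit 11786724283, nat_lit 11915598777, nat_lit 12504884334], nat_lit 0, nat_lit 0, nat_lit 0, nat_lit 0, nat_lit 0, nat_lit 0, [], [nat_lit 8, nat_lit 40, nat_lit 40, nat_lit 80, nat_lit 1, nat_lit 373, nat_lit 150, nat_lit 11]⟩,
 ⟨nat_lit 5000, nat_lit 5245, ⟨.ofNat (nat_lit 439194), .ofNat (nat_lit 658699), .ofNat (nat_lit 460577), .ofNat (nat_lit 680082), .ofNat (nat_lit 442852), .ofNat (nat_lit 657129), .ofNat (nat_lit 464278), .ofNat (nat_lit 678555)⟩, ⟨.ofNat (nat_lit 298515), .ofNat (nat_lit 444857), .ofNat (nat_lit 341286), .ofNat (nat_lit 487628), .ofNat (nat_lit 299999), .ofNat (nat_lit 442856), .ofNat (nat_lit 342856), .ofNat (nat_lit 485713)⟩⟩, [⟨nat_lit 7, nat_lit 94, nat_lit 100, nat_lit 97, nat_lit 105304078⟩]⟩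
noncomputable def p072_l83 : Lf2 := ⟨nat_lit 0, nat_lit 5, [nat_lit 4, nat_lit 5, nat_lit 5, nat_lit 20], false, nat_lit 240, nat_lit 328, nat_lit 0, nat_lit 336, ⟨nat_lit 48, nat_lit 952, nat_lit 0, nat_lit 7, nat_lit 176, nat_lit 952, nat_lit 218, nat_lit 0, nat_lit 0, nat_lit 0, nat_lit 0, nat_lit 0, nat_lit 0, nat_lit 0, nat_lit 0, nat_lit 5000000, false, false⟩,
 nat_lit 0, nat_lit 6614, nat_lit 0, nat_lit 0, nat_lit 4392, nat_lit 303, nat_lit 1834, nat_lit 0, nat_lit 0, nat_lit 102, nat_lit 0, nat_lit 0, nat_lit 0, nat_lit 22124815648654, nat_lit 0, nat_lit 948400, nat_lit 0, nat_lit 0, [(nat_lit 12, [(nat_lit 1, nat_lit 6), (nat_lit 2, nat_lit 946)])],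
 ⟨p072_k6, nat_lit 0, nat_lit 0, nat_lit 309, nat_lit 0, nat_lit 635250, [nat_lit 2055076561, nat_lit 2441798241, nat_lit 1863426400], [], [nat_lit 19073568529, nat_lit 19299017247, nat_lit 19643876080, nat_lit 19856843908, nat_lit 22843086567, nat_lit 23061230761, nat_lit 23200494871, nat_lit 23395662096], nat_lit 1271250, nat_lit 1271250, nat_lit 435600, nat_lit 1100001, nat_lit 1271250, nat_lit 1271250, [nat_lit 780000, nat_lit 1100000, nat_lit 1442500], [nat_lit 59, nat_lit 40, nat_lit 40, nat_lit 80, nat_lit 3, nat_lit 249, nat_lit 40, nat_lit 8]⟩, ⟨p072_k5, nat_lit 0, nat_lit 0, nat_lit 142, nat_lit 0, nat_lit 0, [nat_lit 157536000, nat_lit 225024000, nat_lit 382464000], [], [nat_lit 807829361, nat_lit 882848256, nat_lit 814193244, nat_lit 880400466, nat_lit 1179961692, nat_lit 1235379258, nat_lit 1150864630, nat_lit 1192805698], nat_lit 0, nat_lit 0, nat_lit 0, nat_lit 0, nat_lit 0, nat_lit 0, [], [nat_lit 36,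 nat_lit 40, nat_lit 40, nat_lit 80, nat_lit 7, nat_lit 345, nat_lit 125, nat_lit 12]⟩,
 ⟨nat_lit 5123, nat_lit 5245, ⟨.ofNat (nat_lit 351393), .ofNat (nat_lit 512368), .ofNat (nat_lit 367431), .ofNat (nat_lit 528407), .ofNat (nat_lit 354266), .ofNat (nat_lit 513320), .ofNat (nat_lit 370319), .ofNat (nat_lit 529373)⟩, ⟨.ofNat (nat_lit 444857), .ofNat (nat_lit 605833), .ofNat (nat_lit 487628), .ofNat (nat_lit 648604), .ofNat (nat_lit 443866), .ofNat (nat_lit 602921), .ofNat (nat_lit 486676), .ofNat (nat_lit 645731)⟩⟩, [⟨nat_lit 4, nat_lit 95, nat_lit 100, nat_lit 98, nat_lit 305993600⟩, ⟨nat_lit 7, nat_lit 92, nat_lit 100, nat_lit 96, nat_lit 14177403⟩]⟩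
noncomputable def p072_l84 : Lf2 := ⟨nat_lit 0, nat_lit 5, [nat_lit 4, nat_lit 5, nat_lit 5, nat_lit 20], false, nat_lit 240, nat_lit 308, nat_lit 0, nat_lit 320, ⟨nat_lit 20, nat_lit 980, nat_lit 0, nat_lit 7, nat_lit 165, nat_lit 980, nat_lit 206, nat_lit 0, nat_lit 0, nat_lit 0, nat_lit 0, nat_lit 0, nat_lit 0, nat_lit 0, nat_lit 0, nat_lit 5000000, false, false⟩,
 nat_lit 0, nat_lit 6600, nat_lit 0, nat_lit 0, nat_lit 4475, nat_lit 129, nat_lit 1333, nat_lit 0, nat_lit 0, nat_lit 43, nat_lit 0, nat_lit 0, nat_lit 0, nat_lit 0, nat_lit 0, nat_lit 980000, nat_lit 0, nat_lit 0, [(nat_lit 12, [(nat_lit 2, nat_lit 980)])],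
 ⟨p072_k20, nat_lit 0, nat_lit 0, nat_lit 321, nat_lit 0, nat_lit 685724, [nat_lit 2018740800, nat_lit 2375043200, nat_lit 1728280000], [], [nat_lit 18628522715, nat_lit 18883047461, nat_lit 18816703325, nat_lit 19072175000, nat_lit 21679906153, nat_lit 21910404957, nat_lit 21723543345, nat_lit 21942296773], nat_lit 1271250, nat_lit 1271250, nat_lit 462650, nat_lit 780000, nat_lit 1271250, nat_lit 1271250, [nat_lit 780000, nat_lit 1100000, nat_lit 1442500], [nat_lit 59, nat_lit 40, nat_lit 40, nat_lit 80, nat_lit 3, nat_lit 238, nat_lit 30, nat_lit 8]⟩, ⟨p072_k5, nat_lit 0, nat_lit 0, nat_lit 143, nat_lit 0, nat_lit 0, [nat_lit 65640000, nat_lit 93760000, nat_lit 159360000], [], [nat_lit 332379619, nat_lit 379042921, nat_lit 324298968, nat_lit 364113404, nat_lit 458522352, nat_lit 489652495, nat_lit 447475260, nat_lit 473942134], nat_lit 0, nat_lit 0, nat_lit 0, nat_lit 0, nat_lit 0, nat_lit 0, [], [nat_lit 36, nat_lit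 40, nat_lit 40, nat_lit 80, nat_lit 7, nat_lit 345, nat_lit 125, nat_lit 12]⟩,
 ⟨nat_lit 5000, nat_lit 5124, ⟨.ofNat (nat_lit 361495), .ofNat (nat_lit 441022), .ofNat (nat_lit 382900), .ofNat (nat_lit 462427), .ofNat (nat_lit 364284), .ofNat (nat_lit 442855), .ofNat (nat_lit 385712), .ofNat (nat_lit 464283)⟩, ⟨.ofNat (nat_lit 443866), .ofNat (nat_lit 566772), .ofNat (nat_lit 465271), .ofNat (nat_lit 588177), .ofNat (nat_lit 442856), .ofNat (nat_lit 564284), .ofNat (nat_lit 464284), .ofNat (nat_lit 585713)⟩⟩, [⟨nat_lit 4, nat_lit 100, nat_lit 98, nat_lit 94, nat_lit 332800198⟩, ⟨nat_lit 7, nat_lit 97, nat_lit 100, nat_lit 94, nat_lit 5764994⟩]⟩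
noncomputable def p072_l85 : Lf2 := ⟨nat_lit 0, nat_lit 5, [nat_lit 4, nat_lit 5, nat_lit 5, nat_lit 20], false, nat_lit 240, nat_lit 308, nat_lit 0, nat_lit 320, ⟨nat_lit 338, nat_lit 662, nat_lit 0, nat_lit 7, nat_lit 195, nat_lit 662, nat_lit 206, nat_lit 0, nat_lit 0, nat_lit 0, nat_lit 0, nat_lit 0, nat_lit 0, nat_lit 0, nat_lit 0, nat_lit 5000000, false, false⟩,
 nat_lit 0, nat_lit 7409, nat_lit 0, nat_lit 0, nat_lit 5024, nat_lit 2200, nat_lit 1633, nat_lit 0, nat_lit 0, nat_lit 735, nat_lit 0, nat_lit 0, nat_lit 0, nat_lit 35159983403136, nat_lit 0, nat_lit 662000, nat_lit 0, nat_lit 0, [(nat_lit 12, [(nat_lit 2, nat_lit 662)])],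
 ⟨p072_k20, nat_lit 0, nat_lit 0, nat_lit 303, nat_lit 0, nat_lit 685724, [nat_lit 2428655521, nat_lit 3125574080, nat_lit 3195532000], [], [nat_lit 18735816158, nat_lit 18974717738, nat_lit 19202410099, nat_lit 19441311679, nat_lit 21696102090, nat_lit 21925540911, nat_lit 22050525370, nat_lit 22271350026], nat_lit 1271250, nat_lit 1271250, nat_lit 780000, nat_lit 1100001, nat_lit 1271250, nat_lit 1271250, [nat_lit 780000, nat_lit 1100000, nat_lit 1442500], [nat_lit 59, nat_lit 40, nat_lit 40, nat_lit 80, nat_lit 3, nat_lit 249, nat_lit 40, nat_lit 8]⟩, ⟨p072_k5, nat_lit 0, nat_lit 0, nat_lit 126, nat_lit 0, nat_lit 0, [nat_lit 1109316000, nat_lit 1584544000, nat_lit 2693184000], [], [nat_lit 5450608792, nat_lit 6127463540, nat_lit 5665399616, nat_lit 6360106464, nat_lit 7549172024, nat_lit 7998747456, nat_lit 7625756688, nat_lit 8047447540], nat_lit 0, nat_lit 0, nat_lit 0, nat_lit 0, nat_lit 0, nat_lit 0, [], [nat_lit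 36, nat_lit 40, nat_lit 40, nat_lit 80, nat_lit 7, nat_lit 345, nat_lit 125, nat_lit 11]⟩,
 ⟨nat_lit 5000, nat_lit 5124, ⟨.ofNat (nat_lit 441022), .ofNat (nat_lit 513320), .ofNat (nat_lit 462427), .ofNat (nat_lit 534724), .ofNat (nat_lit 442855), .ofNat (nat_lit 514283), .ofNat (nat_lit 464283), .ofNat (nat_lit 535711)⟩, ⟨.ofNat (nat_lit 443866), .ofNat (nat_lit 566772), .ofNat (nat_lit 465271), .ofNat (nat_lit 588177), .ofNat (nat_lit 442856), .ofNat (nat_lit 564284), .ofNat (nat_lit 464284), .ofNat (nat_lit 585713)⟩⟩, [⟨nat_lit 16, nat_lit 100, nat_lit 97, nat_lit 98, nat_lit 351945350⟩, ⟨nat_lit 4, nat_lit 100, nat_lit 98, nat_lit 94, nat_lit 16134153⟩, ⟨nat_lit 19, nat_lit 100, nat_lit 97, nat_lit 94, nat_lit 97837523⟩]⟩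
noncomputable def p072_l86 : Lf2 := ⟨nat_lit 0, nat_lit 2, [nat_lit 10, nat_lit 5, nat_lit 5, nat_lit 20], true, nat_lit 240, nat_lit 324, nat_lit 0, nat_lit 336, ⟨nat_lit 0, nat_lit 1000, nat_lit 0, nat_lit 7, nat_lit 165, nat_lit 1000, nat_lit 221, nat_lit 0, nat_lit 0, nat_lit 0, nat_lit 0, nat_lit 0, nat_lit 0, nat_lit 0, nat_lit 0, nat_lit 5000000, false, false⟩,
 nat_lit 0, nat_lit 6460, nat_lit 0, nat_lit 0, nat_lit 4380, nat_lit 0, nat_lit 1265, nat_lit 0, nat_lit 0, nat_lit 0, nat_lit 0, nat_lit 0, nat_lit 0, nat_lit 39797777262305, nat_lit 0, nat_lit 1000000, nat_lit 0, nat_lit 0, [(nat_lit 12, [(nat_lit 2, nat_lit 1000)])],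
 ⟨p072_k28, nat_lit 0, nat_lit 0, nat_lit 215, nat_lit 0, nat_lit 529613, [nat_lit 1992960000, nat_lit 2327840000], [], [nat_lit 18855946662, nat_lit 19007059306, nat_lit 19034748520, nat_lit 19177975733, nat_lit 22624123530, nat_lit 22822243954, nat_lit 22619603279, nat_lit 22744629208], nat_lit 1271250, nat_lit 1271250, nat_lit 462650, nat_lit 780000, nat_lit 1271250, nat_lit 1271250, [nat_lit 780000, nat_lit 1100000], [nat_lit 40, nat_lit 40, nat_lit 40, nat_lit 80, nat_lit 22, nat_lit 238, nat_lit 30, nat_lit 10]⟩, C1.Rw.none,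
 ⟨nat_lit 5049, nat_lit 5124, ⟨.ofNat (nat_lit 361496), .ofNat (nat_lit 441023), .ofNat (nat_lit 380760), .ofNat (nat_lit 460287), .ofNat (nat_lit 363168), .ofNat (nat_lit 442121), .ofNat (nat_lit 382445), .ofNat (nat_lit 461398)⟩, ⟨.ofNat (nat_lit 465271), .ofNat (nat_lit 617096), .ofNat (nat_lit 486676), .ofNat (nat_lit 638501), .ofNat (nat_lit 464681), .ofNat (nat_lit 615410), .ofNat (nat_lit 486100), .ofNat (nat_lit 636829)⟩⟩, [⟨nat_lit 16, nat_lit 96, nat_lit 86, nat_lit 100, nat_lit 315453206⟩]⟩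
noncomputable def p072_l87 : Lf2 := ⟨nat_lit 0, nat_lit 2, [nat_lit 10, nat_lit 5, nat_lit 5, nat_lit 20], true, nat_lit 240, nat_lit 324, nat_lit 0, nat_lit 336, ⟨nat_lit 0, nat_lit 1000, nat_lit 0, nat_lit 7, nat_lit 166, nat_lit 1000, nat_lit 220, nat_lit 0, nat_lit 0, nat_lit 0, nat_lit 0, nat_lit 0, nat_lit 0, nat_lit 0, nat_lit 0, nat_lit 5000000, false, false⟩,
 nat_lit 0, nat_lit 6363, nat_lit 0, nat_lit 0, nat_lit 4369, nat_lit 0, nat_lit 1062, nat_lit 0, nat_lit 0, nat_lit 0, nat_lit 0, nat_lit 0, nat_lit 0, nat_lit 39194580223304, nat_lit 0, nat_lit 1000000, nat_lit 0, nat_lit 0, [(nat_lit 12, [(nat_lit 2, nat_lit 1000)])],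
 ⟨p072_k29, nat_lit 0, nat_lit 0, nat_lit 226, nat_lit 0, nat_lit 553885, [nat_lit 1992960000, nat_lit 2327840000], [], [nat_lit 19040648098, nat_lit 19141277809, nat_lit 19213529474, nat_lit 19314627912, nat_lit 22812145593, nat_lit 22944065614, nat_lit 22777197336, nat_lit 22860468817], nat_lit 1271250, nat_lit 1271250, nat_lit 462650, nat_lit 780000, nat_lit 1271250, nat_lit 1271250, [nat_lit 780000, nat_lit 1100000], [nat_lit 40, nat_lit 40, nat_lit 40, nat_lit 80, nat_lit 22, nat_lit 238, nat_lit 30, nat_lit 10]⟩, C1.Rw.none,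
 ⟨nat_lit 5000, nat_lit 5050, ⟨.ofNat (nat_lit 363168), .ofNat (nat_lit 442122), .ofNat (nat_lit 384587), .ofNat (nat_lit 463540), .ofNat (nat_lit 364284), .ofNat (nat_lit 442855), .ofNat (nat_lit 385713), .ofNat (nat_lit 464284)⟩, ⟨.ofNat (nat_lit 464681), .ofNat (nat_lit 615410), .ofNat (nat_lit 486100), .ofNat (nat_lit 636829), .ofNat (nat_lit 464284), .ofNat (nat_lit 614284), .ofNat (nat_lit 485713), .ofNat (nat_lit 635713)⟩⟩, [⟨nat_lit 16, nat_lit 95, nat_lit 87, nat_lit 100, nat_lit 318579778⟩]⟩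
noncomputable def p072_l88 : Lf2 := ⟨nat_lit 0, nat_lit 2, [nat_lit 10, nat_lit 5, nat_lit 5, nat_lit 20], true, nat_lit 240, nat_lit 324, nat_lit 0, nat_lit 336, ⟨nat_lit 0, nat_lit 1000, nat_lit 0, nat_lit 7, nat_lit 195, nat_lit 1000, nat_lit 221, nat_lit 0, nat_lit 0, nat_lit 0, nat_lit 0, nat_lit 0, nat_lit 0, nat_lit 0, nat_lit 0, nat_lit 5000000, false, false⟩,
 nat_lit 0, nat_lit 6279, nat_lit 0, nat_lit 0, nat_lit 4258, nat_lit 0, nat_lit 1285, nat_lit 0, nat_lit 0, nat_lit 0, nat_lit 0, nat_lit 0, nat_lit 0, nat_lit 38810488907960, nat_lit 0, nat_lit 1000000, nat_lit 0, nat_lit 0, [(nat_lit 12, [(nat_lit 2, nat_lit 1000)])],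
 ⟨p072_k28, nat_lit 0, nat_lit 0, nat_lit 201, nat_lit 0, nat_lit 529613, [nat_lit 1992960000, nat_lit 2327840000], [], [nat_lit 18375915424, nat_lit 18525912077, nat_lit 18956597924, nat_lit 19106594577, nat_lit 22282580115, nat_lit 22443822365, nat_lit 22698764289, nat_lit 22829120028], nat_lit 1271250, nat_lit 1271250, nat_lit 780000, nat_lit 1100001, nat_lit 1271250, nat_lit 1271250, [nat_lit 780000, nat_lit 1100000], [nat_lit 40, nat_lit 40, nat_lit 40, nat_lit 80, nat_lit 22, nat_lit 249, nat_lit 40, nat_lit 10]⟩, C1.Rw.none,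
 ⟨nat_lit 5049, nat_lit 5124, ⟨.ofNat (nat_lit 441023), .ofNat (nat_lit 513320), .ofNat (nat_lit 460287), .ofNat (nat_lit 532585), .ofNat (nat_lit 442121), .ofNat (nat_lit 513897), .ofNat (nat_lit 461398), .ofNat (nat_lit 533174)⟩, ⟨.ofNat (nat_lit 465271), .ofNat (nat_lit 617096), .ofNat (nat_lit 486676), .ofNat (nat_lit 638501), .ofNat (nat_lit 464681), .ofNat (nat_lit 615410), .ofNat (nat_lit 486100), .ofNat (nat_lit 636829)⟩⟩, [⟨nat_lit 16, nat_lit 96, nat_lit 86, nat_lit 100, nat_lit 325074929⟩]⟩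
noncomputable def p072_l89 : Lf2 := ⟨nat_lit 0, nat_lit 2, [nat_lit 10, nat_lit 5, nat_lit 5, nat_lit 20], false, nat_lit 240, nat_lit 324, nat_lit 0, nat_lit 336, ⟨nat_lit 196, nat_lit 804, nat_lit 0, nat_lit 7, nat_lit 196, nat_lit 804, nat_lit 220, nat_lit 0, nat_lit 0, nat_lit 0, nat_lit 0, nat_lit 0, nat_lit 0, nat_lit 0, nat_lit 0, nat_lit 5000000, false, false⟩,
 nat_lit 0, nat_lit 6858, nat_lit 0, nat_lit 0, nat_lit 4708, nat_lit 956, nat_lit 1216, nat_lit 0, nat_lit 0, nat_lit 0, nat_lit 0, nat_lit 0, nat_lit 0, nat_lit 37373829232747, nat_lit 0, nat_lit 804000, nat_lit 0, nat_lit 0, [(nat_lit 12, [(nat_lit 2, nat_lit 804)])],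
 ⟨p072_k29, nat_lit 0, nat_lit 0, nat_lit 208, nat_lit 0, nat_lit 553885, [nat_lit 2245611841, nat_lit 2782787359], [], [nat_lit 19164834574, nat_lit 19263380146, nat_lit 19661259056, nat_lit 19759804628, nat_lit 22784114213, nat_lit 22869824629, nat_lit 23118189579, nat_lit 23199104238], nat_lit 1271250, nat_lit 1271250, nat_lit 780000, nat_lit 1100001, nat_lit 1271250, nat_lit 1271250, [nat_lit 780000, nat_lit 1100000], [nat_lit 40, nat_lit 40, nat_lit 40, nat_lit 80, nat_lit 22, nat_lit 249, nat_lit 40, nat_lit 10]⟩, ⟨p072_k30, nat_lit 0, nat_lit 0, nat_lit 70, nat_lit 0, nat_lit 0, [nat_lit 643272000, nat_lit 918848000, nat_lit 1225000000], [], [nat_lit 2745187936, nat_lit 3206387872, nat_lit 2924076432, nat_lit 3354842400, nat_lit 4468642544, nat_lit 4696075074, nat_lit 4540381895, nat_lit 4754889234], nat_lit 0, nat_lit 0, nat_lit 0, nat_lit 0, nat_lit 0, nat_lit 0, [], [nat_lit 59, nat_lit 40, nat_lit 40, nat_lit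 80, nat_lit 3, nat_lit 345, nat_lit 125, nat_lit 13]⟩,
 ⟨nat_lit 5000, nat_lit 5050, ⟨.ofNat (nat_lit 442122), .ofNat (nat_lit 513897), .ofNat (nat_lit 463540), .ofNat (nat_lit 535316), .ofNat (nat_lit 442855), .ofNat (nat_lit 514284), .ofNat (nat_lit 464284), .ofNat (nat_lit 535712)⟩, ⟨.ofNat (nat_lit 464681), .ofNat (nat_lit 615410), .ofNat (nat_lit 486100), .ofNat (nat_lit 636829), .ofNat (nat_lit 464284), .ofNat (nat_lit 614284), .ofNat (nat_lit 485713), .ofNat (nat_lit 635713)⟩⟩, [⟨nat_lit 16, nat_lit 97, nat_lit 93, nat_lit 100, nat_lit 281522059⟩, ⟨nat_lit 7, nat_lit 90, nat_lit 100, nat_lit 100, nat_lit 4532272⟩, ⟨nat_lit 11, nat_lit 85, nat_lit 85, nat_lit 100, nat_lit 62635547⟩]⟩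
noncomputable def p072_l90 : Lf2 := ⟨nat_lit 0, nat_lit 5, [nat_lit 4, nat_lit 5, nat_lit 5, nat_lit 20], true, nat_lit 240, nat_lit 324, nat_lit 0, nat_lit 336, ⟨nat_lit 0, nat_lit 1000, nat_lit 0, nat_lit 7, nat_lit 180, nat_lit 1000, nat_lit 220, nat_lit 0, nat_lit 0, nat_lit 0, nat_lit 0, nat_lit 0, nat_lit 0, nat_lit 0, nat_lit 0, nat_lit 5000000, false, false⟩,
 nat_lit 0, nat_lit 6345, nat_lit 0, nat_lit 0, nat_lit 4302, nat_lit 0, nat_lit 1029, nat_lit 0, nat_lit 0, nat_lit 0, nat_lit 0, nat_lit 0, nat_lit 0, nat_lit 0, nat_lit 0, nat_lit 400000, nat_lit 0, nat_lit 0, [(nat_lit 12, [(nat_lit 1, nat_lit 1000)])],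
 ⟨p072_k20, nat_lit 0, nat_lit 0, nat_lit 223, nat_lit 0, nat_lit 426703, [nat_lit 2033400000, nat_lit 2439600000, nat_lit 2628400000], [], [nat_lit 18726487215, nat_lit 18991050800, nat_lit 19423222012, nat_lit 19659935240, nat_lit 22554221581, nat_lit 22881581270, nat_lit 22777548097, nat_lit 22972560672], nat_lit 1271250, nat_lit 1271250, nat_lit 462650, nat_lit 1100001, nat_lit 1271250, nat_lit 1271250, [nat_lit 780000, nat_lit 1100000, nat_lit 1442500], [nat_lit 59, nat_lit 40, nat_lit 40, nat_lit 80, nat_lit 3, nat_lit 249, nat_lit 40, nat_lit 8]⟩, C1.Rw.none,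
 ⟨nat_lit 5000, nat_lit 5124, ⟨.ofNat (nat_lit 361495), .ofNat (nat_lit 513320), .ofNat (nat_lit 382900), .ofNat (nat_lit 534724), .ofNat (nat_lit 364284), .ofNat (nat_lit 514283), .ofNat (nat_lit 385712), .ofNat (nat_lit 535711)⟩, ⟨.ofNat (nat_lit 465271), .ofNat (nat_lit 617096), .ofNat (nat_lit 486676), .ofNat (nat_lit 638501), .ofNat (nat_lit 464284), .ofNat (nat_lit 614284), .ofNat (nat_lit 485713), .ofNat (nat_lit 635713)⟩⟩, [⟨nat_lit 16, nat_lit 96, nat_lit 86, nat_lit 100, nat_lit 300812404⟩]⟩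
noncomputable def p072_l91 : Lf2 := ⟨nat_lit 0, nat_lit 5, [nat_lit 4, nat_lit 5, nat_lit 5, nat_lit 20], false, nat_lit 240, nat_lit 328, nat_lit 0, nat_lit 336, ⟨nat_lit 508, nat_lit 492, nat_lit 0, nat_lit 7, nat_lit 237, nat_lit 492, nat_lit 218, nat_lit 0, nat_lit 0, nat_lit 0, nat_lit 0, nat_lit 0, nat_lit 0, nat_lit 0, nat_lit 0, nat_lit 5000000, false, false⟩,
 nat_lit 0, nat_lit 7852, nat_lit 0, nat_lit 0, nat_lit 5214, nat_lit 3250, nat_lit 2291, nat_lit 0, nat_lit 0, nat_lit 755, nat_lit 0, nat_lit 0, nat_lit 0, nat_lit 0, nat_lit 0, nat_lit 196800, nat_lit 0, nat_lit 0, [(nat_lit 12, [(nat_lit 1, nat_lit 492)])],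
 ⟨p072_k6, nat_lit 0, nat_lit 0, nat_lit 265, nat_lit 0, nat_lit 635250, [nat_lit 2667688801, nat_lit 3581787200, nat_lit 4468172800], [], [nat_lit 20043966520, nat_lit 20259170885, nat_lit 21639916704, nat_lit 21825441669, nat_lit 23275868729, nat_lit 23450355777, nat_lit 25190182359, nat_lit 25462556062], nat_lit 1271250, nat_lit 1271250, nat_lit 1100001, nat_lit 1785000, nat_lit 1271250, nat_lit 1271250, [nat_lit 780000, nat_lit 1100000, nat_lit 1442500], [nat_lit 59, nat_lit 40, nat_lit 40, nat_lit 80, nat_lit 3, nat_lit 272, nat_lit 60, nat_lit 9]⟩, ⟨p072_k5, nat_lit 0, nat_lit 0, nat_lit 126, nat_lit 0, nat_lit 0, [nat_lit 1667256000, nat_lit 2381504000, nat_lit 4047744000], [], [nat_lit 9687901856, nat_lit 10394371166, nat_lit 11358424968, nat_lit 11952541875, nat_lit 12218541781, nat_lit 12602426888, nat_lit 13123396389, nat_lit 13568368570], nat_lit 0, nat_lit 0, nat_lit 0, nat_lit 0, nat_lit 0, nat_lit 0,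 [], [nat_lit 36, nat_lit 40, nat_lit 40, nat_lit 80, nat_lit 7, nat_lit 373, nat_lit 150, nat_lit 12]⟩,
 ⟨nat_lit 5123, nat_lit 5245, ⟨.ofNat (nat_lit 512368), .ofNat (nat_lit 658709), .ofNat (nat_lit 528407), .ofNat (nat_lit 674748), .ofNat (nat_lit 513320), .ofNat (nat_lit 657914), .ofNat (nat_lit 529373), .ofNat (nat_lit 673968)⟩, ⟨.ofNat (nat_lit 444857), .ofNat (nat_lit 605833), .ofNat (nat_lit 487628), .ofNat (nat_lit 648604), .ofNat (nat_lit 443866), .ofNat (nat_lit 602921), .ofNat (nat_lit 486676), .ofNat (nat_lit 645731)⟩⟩, [⟨nat_lit 16, nat_lit 97, nat_lit 84, nat_lit 100, nat_lit 362155477⟩, ⟨nat_lit 19, nat_lit 100, nat_lit 80, nat_lit 100, nat_lit 129145775⟩]⟩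
noncomputable def p072_l92 : Lf2 := ⟨nat_lit 0, nat_lit 5, [nat_lit 4, nat_lit 5, nat_lit 5, nat_lit 20], false, nat_lit 240, nat_lit 324, nat_lit 0, nat_lit 336, ⟨nat_lit 1000, nat_lit 0, nat_lit 0, nat_lit 0, nat_lit 0, nat_lit 0, nat_lit 0, nat_lit 0, nat_lit 0, nat_lit 0, nat_lit 0, nat_lit 0, nat_lit 0, nat_lit 0, nat_lit 0, nat_lit 0, false, false⟩,
 nat_lit 0, nat_lit 8742, nat_lit 0, nat_lit 0, nat_lit 5928, nat_lit 6348, nat_lit 2051, nat_lit 0, nat_lit 0, nat_lit 1472, nat_lit 0, nat_lit 0, nat_lit 0, nat_lit 0, nat_lit 0, nat_lit 0, nat_lit 0, nat_lit 0, [],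
 ⟨p072_k20, nat_lit 0, nat_lit 0, nat_lit 302, nat_lit 0, nat_lit 706484, [nat_lit 3282000000, nat_lit 4688000000, nat_lit 6250000000], [], [nat_lit 20497589968, nat_lit 20725001948, nat_lit 22045658036, nat_lit 22240284716, nat_lit 23651097372, nat_lit 23835145409, nat_lit 25542294857, nat_lit 25835368328], nat_lit 1271250, nat_lit 1271250, nat_lit 1100001, nat_lit 1785000, nat_lit 1271250, nat_lit 1271250, [nat_lit 780000, nat_lit 1100000, nat_lit 1442500], [nat_lit 59, nat_lit 40, nat_lit 40, nat_lit 80, nat_lit 3, nat_lit 272, nat_lit 60, nat_lit 9]⟩, ⟨p072_k5, nat_lit 0, nat_lit 0, nat_lit 129, nat_lit 0, nat_lit 0, [nat_lit 3282000000, nat_lit 4688000000, nat_lit 7968000000], [], [nat_lit 19127067728, nat_lit 20972478784, nat_lit 22407735104, nat_lit 23960128216, nat_lit 24132502080, nat_lit 25123039236, nat_lit 25807754333, nat_lit 26971196789], nat_lit 0, nat_lit 0, nat_lit 0, nat_lit 0, nat_lit 0, nat_lit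 0, [], [nat_lit 36, nat_lit 40, nat_lit 40, nat_lit 80, nat_lit 7, nat_lit 373, nat_lit 150, nat_lit 12]⟩,
 zbF0, [⟨nat_lit 16, nat_lit 96, nat_lit 86, nat_lit 100, nat_lit 448032538⟩, ⟨nat_lit 7, nat_lit 94, nat_lit 100, nat_lit 97, nat_lit 258932049⟩]⟩
noncomputable def p072_l93 : Lf2 := ⟨nat_lit 0, nat_lit 10, [nat_lit 0, nat_lit 5, nat_lit 5, nat_lit 20], false, nat_lit 240, nat_lit 328, nat_lit 0, nat_lit 336, ⟨nat_lit 130, nat_lit 870, nat_lit 0, nat_lit 7, nat_lit 207, nat_lit 870, nat_lit 218, nat_lit 0, nat_lit 0, nat_lit 0, nat_lit 0, nat_lit 0, nat_lit 0, nat_lit 0, nat_lit 0, nat_lit 5000000, false, false⟩,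
 nat_lit 0, nat_lit 7261, nat_lit 0, nat_lit 0, nat_lit 4822, nat_lit 799, nat_lit 631, nat_lit 0, nat_lit 0, nat_lit 221, nat_lit 0, nat_lit 0, nat_lit 0, nat_lit 20267835873135, nat_lit 0, nat_lit 348000, nat_lit 0, nat_lit 0, [(nat_lit 12, [(nat_lit 1, nat_lit 870)])],
 ⟨p072_k23, nat_lit 0, nat_lit 0, nat_lit 255, nat_lit 0, nat_lit 394225, [nat_lit 2195718000, nat_lit 2849516000, nat_lit 3385024000], [], [nat_lit 19688804636, nat_lit 20170930004, nat_lit 21567776522, nat_lit 21948550434, nat_lit 23377752886, nat_lit 23819217921, nat_lit 24992351209, nat_lit 25518635220], nat_lit 1271250, nat_lit 1271250, nat_lit 435600, nat_lit 1735500, nat_lit 1271250, nat_lit 1271250, [nat_lit 780000, nat_lit 1100000, nat_lit 1785000], [nat_lit 36, nat_lit 40, nat_lit 40, nat_lit 80, nat_lit 7, nat_lit 272, nat_lit 60, nat_lit 8]⟩, ⟨p072_k22, nat_lit 0, nat_lit 0, nat_lit 182, nat_lit 0, nat_lit 0, [nat_lit 426660000, nat_lit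 609440000, nat_lit 1279460000], [], [nat_lit 2662156747, nat_lit 2900025598, nat_lit 2999341585, nat_lit 3177272011, nat_lit 3246821629, nat_lit 3375689459, nat_lit 3364526928, nat_lit 3491456222], nat_lit 0, nat_lit 0, nat_lit 0, nat_lit 0, nat_lit 0, nat_lit 0, [], [nat_lit 42, nat_lit 40, nat_lit 40, nat_lit 80, nat_lit 13, nat_lit 373, nat_lit 150, nat_lit 11]⟩,
 ⟨nat_lit 5000, nat_lit 5245, ⟨.ofNat (nat_lit 351391), .ofNat (nat_lit 658699), .ofNat (nat_lit 372775), .ofNat (nat_lit 680082), .ofNat (nat_lit 357140), .ofNat (nat_lit 657129), .ofNat (nat_lit 378567), .ofNat (nat_lit 678555)⟩, ⟨.ofNat (nat_lit 444857), .ofNat (nat_lit 605833), .ofNat (nat_lit 487628), .ofNat (nat_lit 648604), .ofNat (nat_lit 442856), .ofNat (nat_lit 599999), .ofNat (nat_lit 485713), .ofNat (nat_lit 642856)⟩⟩, [⟨nat_lit 4, nat_lit 97, nat_lit 100, nat_lit 98, nat_lit 322426545⟩, ⟨nat_lit 7, nat_lit 94, nat_lit 100, nat_lit 97, nat_lit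 30190278⟩]⟩
noncomputable def b_V_700_700_20_45 : St := ⟨true, nat_lit 1, nat_lit 0, nat_lit 2, nat_lit 120, nat_lit 280, nat_lit 300, nat_lit 280, nat_lit 300, nat_lit 64, nat_lit 240, nat_lit 80, nat_lit 120, nat_lit 160, nat_lit 336, nat_lit 0, nat_lit 336, nat_lit 0, nat_lit 40, nat_lit 0, nat_lit 0, nat_lit 0, nat_lit 0⟩
theorem d_V_700_700_20_45 (h : EB TB.env) : Dead b_V_700_700_20_45 := chkB_sound0 h (T :=
(.spl (nat_lit 0) (nat_lit 290)
(.ord (.spl (nat_lit 4) (nat_lit 240)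
(.spl (nat_lit 0) (nat_lit 285)
(.ord (.leaf p072_l74))
(.trZ (nat_lit 0) (nat_lit 100) (nat_lit 99) (nat_lit 82) (nat_lit 68) (.leaf p072_l75)))
(.spl (nat_lit 2) (nat_lit 160)
(.spl (nat_lit 0) (nat_lit 285)
(.ord (.leaf p072_l76))
(.trZ (nat_lit 0) (nat_lit 100) (nat_lit 99) (nat_lit 82) (nat_lit 68) (.trX (nat_lit 16) (nat_lit 99) (nat_lit 82) (nat_lit 100) (nat_lit 332) (.spl (nat_lit 3) (nat_lit 100)
(.trX (nat_lit 16) (nat_lit 100) (nat_lit 91) (nat_lit 96) (nat_lit 316) (.trX (nat_lit 19) (nat_lit 100) (nat_lit 88) (nat_lit 94) (nat_lit 320) (.leaf p072_l77)))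
(.leaf p072_l78)))))
(.spl (nat_lit 0) (nat_lit 285)
(.ord (.leaf p072_l79))
(.trX (nat_lit 16) (nat_lit 99) (nat_lit 82) (nat_lit 100) (nat_lit 332) (.leaf p072_l80))))))
(.trZ (nat_lit 0) (nat_lit 100) (nat_lit 97) (nat_lit 84) (nat_lit 72) (.trX (nat_lit 16) (nat_lit 97) (nat_lit 84) (nat_lit 100) (nat_lit 328) (.spl (nat_lit 4) (nat_lit 240)
(.spl (nat_lit 2) (nat_lit 120)
(.leaf p072_l81)
(.leaf p072_l82))
(.spl (nat_lit 6) (nat_lit 20)
(.spl (nat_lit 2) (nat_lit 160)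
(.spl (nat_lit 0) (nat_lit 295)
(.ord (.leaf p072_l83))
(.trZ (nat_lit 0) (nat_lit 100) (nat_lit 96) (nat_lit 86) (nat_lit 76) (.trX (nat_lit 16) (nat_lit 96) (nat_lit 86) (nat_lit 100) (nat_lit 324) (.spl (nat_lit 3) (nat_lit 100)
(.trX (nat_lit 16) (nat_lit 100) (nat_lit 97) (nat_lit 98) (nat_lit 308) (.trX (nat_lit 19) (nat_lit 100) (nat_lit 88) (nat_lit 94) (nat_lit 320) (.spl (nat_lit 2) (nat_lit 120)
(.leaf p072_l84)
(.leaf p072_l85))))
(.spl (nat_lit 6) (nat_lit 8)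
(.spl (nat_lit 2) (nat_lit 120)
(.spl (nat_lit 0) (nat_lit 298)
(.ord (.leaf p072_l86))
(.leaf p072_l87))
(.spl (nat_lit 0) (nat_lit 298)
(.ord (.leaf p072_l88))
(.leaf p072_l89)))
(.leaf p072_l90))))))
(.spl (nat_lit 0) (nat_lit 295)
(.ord (.leaf p072_l91))
(.trX (nat_lit 16) (nat_lit 96) (nat_lit 86) (nat_lit 100) (nat_lit 324) (.leaf p072_l92))))
(.leaf p072_l93))))))) (by decide +kernel)
noncomputable def p072_l94 : Lf2 := ⟨nat_lit 0, nat_lit 10, [nat_lit 0, nat_lit 5, nat_lit 5, nat_lit 20], false, nat_lit 0, nat_lit 160, nat_lit 0, nat_lit 160, ⟨nat_lit 1000, nat_lit 0, nat_lit 0, nat_lit 0, nat_lit 0, nat_lit 0, nat_lit 0, nat_lit 0, nat_lit 0, nat_lit 0, nat_lit 0, nat_lit 0, nat_lit 0, nat_lit 0, nat_lit 0, nat_lit 0, false, false⟩,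
 nat_lit 0, nat_lit 10097, nat_lit 0, nat_lit 0, nat_lit 6990, nat_lit 7218, nat_lit 2421, nat_lit 0, nat_lit 0, nat_lit 1399, nat_lit 0, nat_lit 0, nat_lit 0, nat_lit 6011924389559, nat_lit 0, nat_lit 0, nat_lit 0, nat_lit 0, [],
 ⟨p072_k4, nat_lit 0, nat_lit 0, nat_lit 660, nat_lit 0, nat_lit 1075315, [nat_lit 3282000000, nat_lit 6250000000, nat_lit 7968000000], [], [nat_lit 22904726890, nat_lit 22569055760, nat_lit 23552093180, nat_lit 25874215200, nat_lit 16820488820, nat_lit 17882971280, nat_lit 27683928995, nat_lit 24598920455], nat_lit 1271250, nat_lit 1271250, nat_lit 490000, nat_lit 1740000, nat_lit 0, nat_lit 1100001, [nat_lit 780000, nat_lit 1435000, nat_lit 1271250], [nat_lit 18, nat_lit 40, nat_lit 40, nat_lit 80, nat_lit 2, nat_lit 317, nat_lit 100, nat_lit 10]⟩, ⟨p072_k0, nat_lit 0, nat_lit 0, nat_lit 200, nat_lit 0, nat_lit 0, [nat_lit 3282000000, nat_lit 6250000000, nat_lit 9842000000], [], [nat_lit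 20088144435, nat_lit 24103451659, nat_lit 23528743656, nat_lit 27216078272, nat_lit 15270321867, nat_lit 19414237792, nat_lit 19179014240, nat_lit 22255364808], nat_lit 0, nat_lit 0, nat_lit 0, nat_lit 0, nat_lit 0, nat_lit 0, [], [nat_lit 8, nat_lit 40, nat_lit 40, nat_lit 80, nat_lit 1, nat_lit 317, nat_lit 100, nat_lit 9]⟩,
 zbF0, [⟨nat_lit 0, nat_lit 83, nat_lit 83, nat_lit 100, nat_lit 282275536⟩]⟩
noncomputable def p072_l95 : Lf2 := ⟨nat_lit 0, nat_lit 10, [nat_lit 0, nat_lit 5, nat_lit 5, nat_lit 20], false, nat_lit 0, nat_lit 160, nat_lit 160, nat_lit 336, ⟨nat_lit 947, nat_lit 53, nat_lit 0, nat_lit 7, nat_lit 213, nat_lit 53, nat_lit 64, nat_lit 0, nat_lit 0, nat_lit 0, nat_lit 0, nat_lit 0, nat_lit 0, nat_lit 0, nat_lit 0, nat_lit 5000000, false, false⟩,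
 nat_lit 0, nat_lit 7560, nat_lit 0, nat_lit 0, nat_lit 5233, nat_lit 4451, nat_lit 1659, nat_lit 0, nat_lit 0, nat_lit 0, nat_lit 0, nat_lit 0, nat_lit 0, nat_lit 0, nat_lit 0, nat_lit 21200, nat_lit 0, nat_lit 0, [(nat_lit 15, [(nat_lit 1, nat_lit 53)])],
 ⟨p072_k21, nat_lit 0, nat_lit 0, nat_lit 559, nat_lit 0, nat_lit 888935, [nat_lit 3215124601, nat_lit 4563386400, nat_lit 7668444000], [], [nat_lit 29132849140, nat_lit 27770233503, nat_lit 26997193171, nat_lit 27356924468, nat_lit 24074252753, nat_lit 24461776997, nat_lit 28500256775, nat_lit 27330681275], nat_lit 1271250, nat_lit 1271250, nat_lit 490000, nat_lit 1740000, nat_lit 0, nat_lit 1100001, [nat_lit 780000, nat_lit 1100000, nat_lit 1785000], [nat_lit 36, nat_lit 40, nat_lit 40, nat_lit 80, nat_lit 7, nat_lit 317, nat_lit 100, nat_lit 10]⟩, ⟨p072_k22, nat_lit 0, nat_lit 0, nat_lit 70, nat_lit 0, nat_lit 0, [nat_lit 3108054000, nat_lit 4439536000, nat_lit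 9320374000], [], [nat_lit 11949609632, nat_lit 14563151474, nat_lit 16432056380, nat_lit 18412068485, nat_lit 21783772425, nat_lit 23480782184, nat_lit 23875673358, nat_lit 25191536653], nat_lit 0, nat_lit 0, nat_lit 0, nat_lit 0, nat_lit 0, nat_lit 0, [], [nat_lit 42, nat_lit 40, nat_lit 40, nat_lit 80, nat_lit 13, nat_lit 373, nat_lit 150, nat_lit 10]⟩,
 ⟨nat_lit 4743, nat_lit 5000, ⟨.ofNat (nat_lit 371422), .ofNat (nat_lit 657129), .ofNat (nat_lit 403560), .ofNat (nat_lit 689267), .ofNat (nat_lit 376847), .ofNat (nat_lit 655639), .ofNat (nat_lit 409074), .ofNat (nat_lit 687866)⟩, ⟨.ofNat (nat_lit 0), .ofNat (nat_lit 299999), .ofNat (nat_lit 0), .ofNat (nat_lit 342856), .ofNat (nat_lit 0), .ofNat (nat_lit 301370), .ofNat (nat_lit 0), .ofNat (nat_lit 344346)⟩⟩, [⟨nat_lit 0, nat_lit 100, nat_lit 97, nat_lit 98, nat_lit 328842274⟩, ⟨nat_lit 19, nat_lit 100, nat_lit 80, nat_lit 100, nat_lit 81948723⟩, ⟨nat_lit 7, nat_lit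 97, nat_lit 100, nat_lit 98, nat_lit 333535727⟩]⟩
noncomputable def p072_l96 : Lf2 := ⟨nat_lit 0, nat_lit 10, [nat_lit 0, nat_lit 5, nat_lit 5, nat_lit 20], false, nat_lit 0, nat_lit 160, nat_lit 160, nat_lit 336, ⟨nat_lit 1000, nat_lit 0, nat_lit 0, nat_lit 0, nat_lit 0, nat_lit 0, nat_lit 0, nat_lit 0, nat_lit 0, nat_lit 0, nat_lit 0, nat_lit 0, nat_lit 0, nat_lit 0, nat_lit 0, nat_lit 0, false, false⟩,
 nat_lit 0, nat_lit 9337, nat_lit 0, nat_lit 0, nat_lit 6731, nat_lit 4677, nat_lit 2828, nat_lit 0, nat_lit 0, nat_lit 0, nat_lit 0, nat_lit 0, nat_lit 0, nat_lit 0, nat_lit 0, nat_lit 0, nat_lit 0, nat_lit 0, [],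
 ⟨p072_k31, nat_lit 0, nat_lit 0, nat_lit 629, nat_lit 0, nat_lit 1015668, [nat_lit 3282000000, nat_lit 4688000000, nat_lit 7968000000], [], [nat_lit 23716619316, nat_lit 21969137289, nat_lit 24359106111, nat_lit 25491806880, nat_lit 18637049841, nat_lit 19152276451, nat_lit 21451797904, nat_lit 20805106132], nat_lit 1271250, nat_lit 1271250, nat_lit 545600, nat_lit 1744500, nat_lit 0, nat_lit 1100001, [nat_lit 780000, nat_lit 1100000, nat_lit 1785000], [nat_lit 36, nat_lit 40, nat_lit 40, nat_lit 80, nat_lit 7, nat_lit 317, nat_lit 100, nat_lit 10]⟩, ⟨p072_k22, nat_lit 0, nat_lit 0, nat_lit 71, nat_lit 0, nat_lit 0, [nat_lit 3282000000, nat_lit 4688000000, nat_lit 9842000000], [], [nat_lit 12718434423, nat_lit 16350413554, nat_lit 17378066608, nat_lit 20158693520, nat_lit 22983235887, nat_lit 25345418412, nat_lit 25224252896, nat_lit 27073324637], nat_lit 0, nat_lit 0, nat_lit 0, nat_lit 0, nat_lit 0, nat_lit 0, [],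 [nat_lit 42, nat_lit 40, nat_lit 40, nat_lit 80, nat_lit 13, nat_lit 373, nat_lit 150, nat_lit 10]⟩,
 zbF0, [⟨nat_lit 0, nat_lit 83, nat_lit 83, nat_lit 100, nat_lit 463582415⟩, ⟨nat_lit 7, nat_lit 100, nat_lit 100, nat_lit 100, nat_lit 483944208⟩]⟩
noncomputable def b_V_700_700_20_46 : St := ⟨true, nat_lit 1, nat_lit 0, nat_lit 2, nat_lit 120, nat_lit 300, nat_lit 320, nat_lit 280, nat_lit 320, nat_lit 80, nat_lit 240, nat_lit 80, nat_lit 120, nat_lit 0, nat_lit 160, nat_lit 0, nat_lit 336, nat_lit 0, nat_lit 40, nat_lit 0, nat_lit 0, nat_lit 0, nat_lit 0⟩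
theorem d_V_700_700_20_46 (h : EB TB.env) : Dead b_V_700_700_20_46 := chkB_sound0 h (T :=
(.spl (nat_lit 5) (nat_lit 160)
(.leaf p072_l94)
(.spl (nat_lit 0) (nat_lit 310)
(.ord (.leaf p072_l95))
(.trZ (nat_lit 0) (nat_lit 100) (nat_lit 91) (nat_lit 91) (nat_lit 88) (.leaf p072_l96))))) (by decide +kernel)
noncomputable def p072_l97 : Lf2 := ⟨nat_lit 0, nat_lit 5, [nat_lit 4, nat_lit 5, nat_lit 5, nat_lit 20], false, nat_lit 160, nat_lit 320, nat_lit 0, nat_lit 160, ⟨nat_lit 1000, nat_lit 0, nat_lit 0, nat_lit 0, nat_lit 0, nat_lit 0, nat_lit 0, nat_lit 0, nat_lit 0, nat_lit 0, nat_lit 0, nat_lit 0, nat_lit 0, nat_lit 0, nat_lit 0, nat_lit 0, false, false⟩,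
 nat_lit 0, nat_lit 8755, nat_lit 0, nat_lit 0, nat_lit 6061, nat_lit 6931, nat_lit 1548, nat_lit 0, nat_lit 0, nat_lit 2059, nat_lit 0, nat_lit 0, nat_lit 0, nat_lit 0, nat_lit 0, nat_lit 0, nat_lit 0, nat_lit 0, [],
 ⟨p072_k11, nat_lit 0, nat_lit 0, nat_lit 391, nat_lit 0, nat_lit 858776, [nat_lit 3282000000, nat_lit 4688000000, nat_lit 6250000000], [], [nat_lit 19903528750, nat_lit 20336401252, nat_lit 19269083450, nat_lit 20276372180, nat_lit 24130133958, nat_lit 25557705388, nat_lit 24212686548, nat_lit 24895291252], nat_lit 1271250, nat_lit 1271250, nat_lit 490000, nat_lit 780000, nat_lit 1100001, nat_lit 2470000, [nat_lit 780000, nat_lit 1100000, nat_lit 1442500], [nat_lit 59, nat_lit 40, nat_lit 40, nat_lit 80, nat_lit 3, nat_lit 345, nat_lit 125, nat_lit 13]⟩, ⟨p072_k5, nat_lit 0, nat_lit 0, nat_lit 140, nat_lit 0, nat_lit 0, [nat_lit 3282000000, nat_lit 4688000000, nat_lit 7968000000], [], [nat_lit 16805144844,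 nat_lit 19360178784, nat_lit 16458395032, nat_lit 18586460942, nat_lit 12838520780, nat_lit 14674385476, nat_lit 12645410424, nat_lit 14384029992], nat_lit 0, nat_lit 0, nat_lit 0, nat_lit 0, nat_lit 0, nat_lit 0, [], [nat_lit 36, nat_lit 40, nat_lit 40, nat_lit 80, nat_lit 7, nat_lit 289, nat_lit 75, nat_lit 10]⟩,
 zbF0, [⟨nat_lit 0, nat_lit 100, nat_lit 94, nat_lit 97, nat_lit 635683707⟩, ⟨nat_lit 4, nat_lit 100, nat_lit 93, nat_lit 97, nat_lit 395271557⟩]⟩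
noncomputable def p072_l98 : Lf2 := ⟨nat_lit 0, nat_lit 5, [nat_lit 4, nat_lit 5, nat_lit 5, nat_lit 20], false, nat_lit 160, nat_lit 240, nat_lit 160, nat_lit 336, ⟨nat_lit 833, nat_lit 167, nat_lit 0, nat_lit 7, nat_lit 169, nat_lit 167, nat_lit 157, nat_lit 0, nat_lit 0, nat_lit 0, nat_lit 0, nat_lit 0, nat_lit 0, nat_lit 0, nat_lit 0, nat_lit 5000000, false, false⟩,
 nat_lit 0, nat_lit 8974, nat_lit 0, nat_lit 0, nat_lit 6212, nat_lit 4162, nat_lit 1548, nat_lit 0, nat_lit 0, nat_lit 0, nat_lit 0, nat_lit 0, nat_lit 0, nat_lit 0, nat_lit 0, nat_lit 167000, nat_lit 0, nat_lit 0, [(nat_lit 15, [(nat_lit 2, nat_lit 167)])],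
 ⟨p072_k11, nat_lit 0, nat_lit 0, nat_lit 382, nat_lit 0, nat_lit 858776, [nat_lit 3064806480, nat_lit 4189939200, nat_lit 5329162000], [], [nat_lit 19023948680, nat_lit 17811884944, nat_lit 16712421960, nat_lit 17731931120, nat_lit 18707677512, nat_lit 19742475760, nat_lit 18624607752, nat_lit 19653117136], nat_lit 1271250, nat_lit 1271250, nat_lit 490000, nat_lit 780000, nat_lit 1100001, nat_lit 1785000, [nat_lit 780000, nat_lit 1100000, nat_lit 1442500], [nat_lit 59, nat_lit 40, nat_lit 40, nat_lit 80, nat_lit 3, nat_lit 317, nat_lit 100, nat_lit 11]⟩, ⟨p072_k5, nat_lit 0, nat_lit 0, nat_lit 66, nat_lit 0, nat_lit 0, [nat_lit 2733906000, nat_lit 3905104000, nat_lit 6637344000], [], [nat_lit 10209093916, nat_lit 11797759962, nat_lit 10473741608, nat_lit 11980810102, nat_lit 19232010612, nat_lit 20356880736, nat_lit 18949862920, nat_lit 20022480322], nat_lit 0, nat_lit 0, nat_lit 0, nat_lit 0, nat_lit 0, nat_lit 0,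 [], [nat_lit 36, nat_lit 40, nat_lit 40, nat_lit 80, nat_lit 7, nat_lit 345, nat_lit 125, nat_lit 11]⟩,
 ⟨nat_lit 4472, nat_lit 5000, ⟨.ofNat (nat_lit 371392), .ofNat (nat_lit 442816), .ofNat (nat_lit 392808), .ofNat (nat_lit 464232), .ofNat (nat_lit 382295), .ofNat (nat_lit 450269), .ofNat (nat_lit 403849), .ofNat (nat_lit 471823)⟩, ⟨.ofNat (nat_lit 299999), .ofNat (nat_lit 442856), .ofNat (nat_lit 342856), .ofNat (nat_lit 485713), .ofNat (nat_lit 302621), .ofNat (nat_lit 438578), .ofNat (nat_lit 345754), .ofNat (nat_lit 481711)⟩⟩, [⟨nat_lit 0, nat_lit 100, nat_lit 94, nat_lit 97, nat_lit 553247142⟩, ⟨nat_lit 19, nat_lit 100, nat_lit 94, nat_lit 97, nat_lit 431609077⟩]⟩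
noncomputable def p072_l99 : Lf2 := ⟨nat_lit 0, nat_lit 2, [nat_lit 10, nat_lit 5, nat_lit 5, nat_lit 20], false, nat_lit 240, nat_lit 300, nat_lit 160, nat_lit 320, ⟨nat_lit 462, nat_lit 538, nat_lit 0, nat_lit 7, nat_lit 168, nat_lit 538, nat_lit 202, nat_lit 0, nat_lit 0, nat_lit 0, nat_lit 0, nat_lit 0, nat_lit 0, nat_lit 0, nat_lit 0, nat_lit 5000000, false, false⟩,
 nat_lit 0, nat_lit 7667, nat_lit 0, nat_lit 0, nat_lit 5307, nat_lit 2312, nat_lit 885, nat_lit 0, nat_lit 0, nat_lit 0, nat_lit 0, nat_lit 0, nat_lit 0, nat_lit 0, nat_lit 0, nat_lit 538000, nat_lit 0, nat_lit 0, [(nat_lit 15, [(nat_lit 2, nat_lit 538)])],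
 ⟨p072_k32, nat_lit 0, nat_lit 0, nat_lit 285, nat_lit 0, nat_lit 734770, [nat_lit 2582298721, nat_lit 3016326400], [], [nat_lit 19715060908, nat_lit 20199959366, nat_lit 19761957586, nat_lit 20222300745, nat_lit 22178259677, nat_lit 22643466014, nat_lit 22134595246, nat_lit 22560194939], nat_lit 1271250, nat_lit 1271250, nat_lit 490000, nat_lit 780000, nat_lit 1271250, nat_lit 1271250, [nat_lit 780000, nat_lit 1100000], [nat_lit 40, nat_lit 40, nat_lit 40, nat_lit 80, nat_lit 22, nat_lit 238, nat_lit 30, nat_lit 10]⟩, ⟨p072_k30, nat_lit 0, nat_lit 0, nat_lit 57, nat_lit 0, nat_lit 0, [nat_lit 1516284000, nat_lit 2165856000, nat_lit 2887500000], [], [nat_lit 5657703128, nat_lit 6539644084, nat_lit 5804010160, nat_lit 6640640644, nat_lit 10000490664, nat_lit 10659274460, nat_lit 9933732656, nat_lit 10504150044], nat_lit 0, nat_lit 0, nat_lit 0, nat_lit 0, nat_lit 0, nat_lit 0, [], [nat_lit 59, nat_lit 40, nat_lit 40,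 nat_lit 80, nat_lit 3, nat_lit 345, nat_lit 125, nat_lit 13]⟩,
 ⟨nat_lit 4743, nat_lit 5000, ⟨.ofNat (nat_lit 371422), .ofNat (nat_lit 442849), .ofNat (nat_lit 392848), .ofNat (nat_lit 464274), .ofNat (nat_lit 376847), .ofNat (nat_lit 446544), .ofNat (nat_lit 398332), .ofNat (nat_lit 468029)⟩, ⟨.ofNat (nat_lit 442856), .ofNat (nat_lit 549998), .ofNat (nat_lit 464284), .ofNat (nat_lit 571427), .ofNat (nat_lit 440769), .ofNat (nat_lit 545319), .ofNat (nat_lit 462258), .ofNat (nat_lit 566807)⟩⟩, [⟨nat_lit 0, nat_lit 97, nat_lit 93, nat_lit 100, nat_lit 314718574⟩, ⟨nat_lit 16, nat_lit 100, nat_lit 100, nat_lit 100, nat_lit 356703491⟩, ⟨nat_lit 19, nat_lit 100, nat_lit 97, nat_lit 94, nat_lit 238706540⟩]⟩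
noncomputable def p072_l100 : Lf2 := ⟨nat_lit 0, nat_lit 2, [nat_lit 10, nat_lit 5, nat_lit 5, nat_lit 20], false, nat_lit 240, nat_lit 292, nat_lit 160, nat_lit 320, ⟨nat_lit 707, nat_lit 293, nat_lit 0, nat_lit 7, nat_lit 173, nat_lit 293, nat_lit 198, nat_lit 0, nat_lit 0, nat_lit 0, nat_lit 0, nat_lit 0, nat_lit 0, nat_lit 0, nat_lit 0, nat_lit 5000000, false, false⟩,
 nat_lit 0, nat_lit 7993, nat_lit 0, nat_lit 0, nat_lit 5762, nat_lit 3541, nat_lit 877, nat_lit 0, nat_lit 0, nat_lit 0, nat_lit 0, nat_lit 0, nat_lit 0, nat_lit 0, nat_lit 0, nat_lit 293000, nat_lit 0, nat_lit 0, [(nat_lit 15, [(nat_lit 2, nat_lit 293)])],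
 ⟨p072_k33, nat_lit 0, nat_lit 0, nat_lit 296, nat_lit 0, nat_lit 773903, [nat_lit 2900935920, nat_lit 3777590400], [], [nat_lit 20082384395, nat_lit 20582261002, nat_lit 20051080006, nat_lit 20559546736, nat_lit 22316737045, nat_lit 23150627774, nat_lit 22141985594, nat_lit 22752531576], nat_lit 1271250, nat_lit 1271250, nat_lit 545600, nat_lit 780000, nat_lit 1271250, nat_lit 1271250, [nat_lit 780000, nat_lit 1100000], [nat_lit 40, nat_lit 40, nat_lit 40, nat_lit 80, nat_lit 22, nat_lit 238, nat_lit 30, nat_lit 9]⟩, ⟨p072_k30, nat_lit 0, nat_lit 0, nat_lit 54, nat_lit 0, nat_lit 0, [nat_lit 2320374000, nat_lit 3314416000, nat_lit 4418750000], [], [nat_lit 8699106380, nat_lit 10035534302, nat_lit 8877918488, nat_lit 10158840310, nat_lit 15273093189, nat_lit 16266103927, nat_lit 15199965672, nat_lit 16073234060], nat_lit 0, nat_lit 0, nat_lit 0, nat_lit 0, nat_lit 0, nat_lit 0, [], [nat_lit 59, nat_lit 40, nat_lit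 40, nat_lit 80, nat_lit 3, nat_lit 345, nat_lit 125, nat_lit 13]⟩,
 ⟨nat_lit 4472, nat_lit 4744, ⟨.ofNat (nat_lit 390781), .ofNat (nat_lit 446540), .ofNat (nat_lit 412266), .ofNat (nat_lit 468025), .ofNat (nat_lit 395915), .ofNat (nat_lit 450297), .ofNat (nat_lit 417478), .ofNat (nat_lit 471860)⟩, ⟨.ofNat (nat_lit 440769), .ofNat (nat_lit 531379), .ofNat (nat_lit 462258), .ofNat (nat_lit 552867), .ofNat (nat_lit 438578), .ofNat (nat_lit 526949), .ofNat (nat_lit 460144), .ofNat (nat_lit 548516)⟩⟩, [⟨nat_lit 0, nat_lit 100, nat_lit 92, nat_lit 99, nat_lit 489208611⟩, ⟨nat_lit 16, nat_lit 93, nat_lit 100, nat_lit 97, nat_lit 439616926⟩, ⟨nat_lit 19, nat_lit 100, nat_lit 97, nat_lit 94, nat_lit 365501113⟩]⟩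
noncomputable def p072_l101 : Lf2 := ⟨nat_lit 0, nat_lit 2, [nat_lit 10, nat_lit 5, nat_lit 5, nat_lit 20], true, nat_lit 240, nat_lit 320, nat_lit 160, nat_lit 336, ⟨nat_lit 0, nat_lit 1000, nat_lit 0, nat_lit 7, nat_lit 168, nat_lit 1000, nat_lit 218, nat_lit 0, nat_lit 0, nat_lit 0, nat_lit 0, nat_lit 0, nat_lit 0, nat_lit 0, nat_lit 0, nat_lit 5000000, false, false⟩,
 nat_lit 0, nat_lit 6331, nat_lit 0, nat_lit 0, nat_lit 4383, nat_lit 0, nat_lit 154, nat_lit 0, nat_lit 0, nat_lit 0, nat_lit 0, nat_lit 0, nat_lit 0, nat_lit 0, nat_lit 0, nat_lit 1000000, nat_lit 0, nat_lit 0, [(nat_lit 15, [(nat_lit 2, nat_lit 1000)])],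
 ⟨p072_k32, nat_lit 0, nat_lit 0, nat_lit 243, nat_lit 0, nat_lit 587367, [nat_lit 1981440001, nat_lit 1580800000], [], [nat_lit 19048458621, nat_lit 19299354979, nat_lit 19236897167, nat_lit 19476011867, nat_lit 22540880784, nat_lit 22874367029, nat_lit 22573218126, nat_lit 22783802698], nat_lit 1271250, nat_lit 1271250, nat_lit 490000, nat_lit 780000, nat_lit 1271250, nat_lit 1271250, [nat_lit 780000, nat_lit 1100000], [nat_lit 40, nat_lit 40, nat_lit 40, nat_lit 80, nat_lit 22, nat_lit 238, nat_lit 30, nat_lit 10]⟩, C1.Rw.none,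
 ⟨nat_lit 4873, nat_lit 5000, ⟨.ofNat (nat_lit 371426), .ofNat (nat_lit 442854), .ofNat (nat_lit 392854), .ofNat (nat_lit 464282), .ofNat (nat_lit 374134), .ofNat (nat_lit 444696), .ofNat (nat_lit 395589), .ofNat (nat_lit 466152)⟩, ⟨.ofNat (nat_lit 464284), .ofNat (nat_lit 607141), .ofNat (nat_lit 485713), .ofNat (nat_lit 628570), .ofNat (nat_lit 463280), .ofNat (nat_lit 604406), .ofNat (nat_lit 484737), .ofNat (nat_lit 625862)⟩⟩, [⟨nat_lit 16, nat_lit 94, nat_lit 88, nat_lit 100, nat_lit 319035258⟩]⟩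
noncomputable def p072_l102 : Lf2 := ⟨nat_lit 0, nat_lit 2, [nat_lit 10, nat_lit 5, nat_lit 5, nat_lit 20], true, nat_lit 240, nat_lit 316, nat_lit 160, nat_lit 336, ⟨nat_lit 0, nat_lit 1000, nat_lit 0, nat_lit 7, nat_lit 170, nat_lit 1000, nat_lit 216, nat_lit 0, nat_lit 0, nat_lit 0, nat_lit 0, nat_lit 0, nat_lit 0, nat_lit 0, nat_lit 0, nat_lit 5000000, false, false⟩,
 nat_lit 0, nat_lit 6202, nat_lit 0, nat_lit 0, nat_lit 4382, nat_lit 0, nat_lit 123, nat_lit 0, nat_lit 0, nat_lit 0, nat_lit 0, nat_lit 0, nat_lit 0, nat_lit 0, nat_lit 0, nat_lit 1000000, nat_lit 0, nat_lit 0, [(nat_lit 15, [(nat_lit 2, nat_lit 1000)])],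
 ⟨p072_k34, nat_lit 0, nat_lit 0, nat_lit 249, nat_lit 0, nat_lit 610493, [nat_lit 1981440001, nat_lit 1580800000], [], [nat_lit 19320788556, nat_lit 19570448373, nat_lit 19479603012, nat_lit 19732326672, nat_lit 22590742008, nat_lit 22926891402, nat_lit 22621382989, nat_lit 22834074907], nat_lit 1271250, nat_lit 1271250, nat_lit 517650, nat_lit 780000, nat_lit 1271250, nat_lit 1271250, [nat_lit 780000, nat_lit 1100000], [nat_lit 40, nat_lit 40, nat_lit 40, nat_lit 80, nat_lit 22, nat_lit 238, nat_lit 30, nat_lit 9]⟩, C1.Rw.none,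
 ⟨nat_lit 4743, nat_lit 4874, ⟨.ofNat (nat_lit 381190), .ofNat (nat_lit 444696), .ofNat (nat_lit 402645), .ofNat (nat_lit 466151), .ofNat (nat_lit 383820), .ofNat (nat_lit 446550), .ofNat (nat_lit 405308), .ofNat (nat_lit 468037)⟩, ⟨.ofNat (nat_lit 463280), .ofNat (nat_lit 597350), .ofNat (nat_lit 484737), .ofNat (nat_lit 618806), .ofNat (nat_lit 462258), .ofNat (nat_lit 594687), .ofNat (nat_lit 483746), .ofNat (nat_lit 616175)⟩⟩, [⟨nat_lit 16, nat_lit 93, nat_lit 90, nat_lit 100, nat_lit 321260547⟩]⟩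
noncomputable def p072_l103 : Lf2 := ⟨nat_lit 0, nat_lit 2, [nat_lit 10, nat_lit 5, nat_lit 5, nat_lit 20], true, nat_lit 240, nat_lit 312, nat_lit 160, nat_lit 336, ⟨nat_lit 0, nat_lit 1000, nat_lit 0, nat_lit 7, nat_lit 173, nat_lit 1000, nat_lit 214, nat_lit 0, nat_lit 0, nat_lit 0, nat_lit 0, nat_lit 0, nat_lit 0, nat_lit 0, nat_lit 0, nat_lit 5000000, false, false⟩,
 nat_lit 0, nat_lit 6063, nat_lit 0, nat_lit 0, nat_lit 4370, nat_lit 0, nat_lit 76, nat_lit 0, nat_lit 0, nat_lit 0, nat_lit 0, nat_lit 0, nat_lit 0, nat_lit 0, nat_lit 0, nat_lit 1000000, nat_lit 0, nat_lit 0, [(nat_lit 15, [(nat_lit 2, nat_lit 1000)])],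
 ⟨p072_k33, nat_lit 0, nat_lit 0, nat_lit 268, nat_lit 0, nat_lit 672846, [nat_lit 1981440001, nat_lit 1580800000], [], [nat_lit 19662277384, nat_lit 20158576755, nat_lit 19795083423, nat_lit 20276375004, nat_lit 22663437250, nat_lit 23315892185, nat_lit 22706400957, nat_lit 23135577913], nat_lit 1271250, nat_lit 1271250, nat_lit 545600, nat_lit 780000, nat_lit 1271250, nat_lit 1271250, [nat_lit 780000, nat_lit 1100000], [nat_lit 40, nat_lit 40, nat_lit 40, nat_lit 80, nat_lit 22, nat_lit 238, nat_lit 30, nat_lit 9]⟩, C1.Rw.none,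
 ⟨nat_lit 4472, nat_lit 4744, ⟨.ofNat (nat_lit 390781), .ofNat (nat_lit 446540), .ofNat (nat_lit 412266), .ofNat (nat_lit 468025), .ofNat (nat_lit 395915), .ofNat (nat_lit 450297), .ofNat (nat_lit 417478), .ofNat (nat_lit 471860)⟩, ⟨.ofNat (nat_lit 462258), .ofNat (nat_lit 587717), .ofNat (nat_lit 483746), .ofNat (nat_lit 609205), .ofNat (nat_lit 460144), .ofNat (nat_lit 582505), .ofNat (nat_lit 481711), .ofNat (nat_lit 604071)⟩⟩, [⟨nat_lit 0, nat_lit 94, nat_lit 87, nat_lit 100, nat_lit 204766733⟩, ⟨nat_lit 4, nat_lit 99, nat_lit 92, nat_lit 100, nat_lit 322417893⟩]⟩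
noncomputable def p072_l104 : Lf2 := ⟨nat_lit 0, nat_lit 5, [nat_lit 4, nat_lit 5, nat_lit 5, nat_lit 20], true, nat_lit 240, nat_lit 320, nat_lit 160, nat_lit 336, ⟨nat_lit 0, nat_lit 1000, nat_lit 0, nat_lit 7, nat_lit 168, nat_lit 1000, nat_lit 214, nat_lit 0, nat_lit 0, nat_lit 0, nat_lit 0, nat_lit 0, nat_lit 0, nat_lit 0, nat_lit 0, nat_lit 5000000, false, false⟩,
 nat_lit 0, nat_lit 6290, nat_lit 0, nat_lit 0, nat_lit 4354, nat_lit 0, nat_lit 223, nat_lit 0, nat_lit 0, nat_lit 0, nat_lit 0, nat_lit 0, nat_lit 0, nat_lit 0, nat_lit 0, nat_lit 1000000, nat_lit 0, nat_lit 0, [(nat_lit 15, [(nat_lit 2, nat_lit 1000)])],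
 ⟨p072_k11, nat_lit 0, nat_lit 0, nat_lit 302, nat_lit 0, nat_lit 626075, [nat_lit 1981440001, nat_lit 1705600000, nat_lit 736000000], [], [nat_lit 19275022565, nat_lit 19733298394, nat_lit 19419778158, nat_lit 19869297268, nat_lit 22599010420, nat_lit 23180915812, nat_lit 22659471840, nat_lit 23079576074], nat_lit 1271250, nat_lit 1271250, nat_lit 490000, nat_lit 780000, nat_lit 1271250, nat_lit 1271250, [nat_lit 780000, nat_lit 1100000, nat_lit 1442500], [nat_lit 59, nat_lit 40, nat_lit 40, nat_lit 80, nat_lit 3, nat_lit 238, nat_lit 30, nat_lit 8]⟩, C1.Rw.none,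
 ⟨nat_lit 4743, nat_lit 5000, ⟨.ofNat (nat_lit 371422), .ofNat (nat_lit 442849), .ofNat (nat_lit 392848), .ofNat (nat_lit 464274), .ofNat (nat_lit 376847), .ofNat (nat_lit 446544), .ofNat (nat_lit 398332), .ofNat (nat_lit 468029)⟩, ⟨.ofNat (nat_lit 442856), .ofNat (nat_lit 585713), .ofNat (nat_lit 485713), .ofNat (nat_lit 628570), .ofNat (nat_lit 440769), .ofNat (nat_lit 580169), .ofNat (nat_lit 483746), .ofNat (nat_lit 623145)⟩⟩, [⟨nat_lit 4, nat_lit 100, nat_lit 97, nat_lit 98, nat_lit 312512927⟩]⟩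
noncomputable def p072_l105 : Lf2 := ⟨nat_lit 0, nat_lit 5, [nat_lit 4, nat_lit 5, nat_lit 5, nat_lit 20], true, nat_lit 240, nat_lit 312, nat_lit 160, nat_lit 336, ⟨nat_lit 0, nat_lit 1000, nat_lit 0, nat_lit 7, nat_lit 173, nat_lit 1000, nat_lit 209, nat_lit 0, nat_lit 0, nat_lit 0, nat_lit 0, nat_lit 0, nat_lit 0, nat_lit 0, nat_lit 0, nat_lit 5000000, false, false⟩,
 nat_lit 0, nat_lit 6112, nat_lit 0, nat_lit 0, nat_lit 4406, nat_lit 0, nat_lit 433, nat_lit 0, nat_lit 0, nat_lit 0, nat_lit 0, nat_lit 0, nat_lit 0, nat_lit 0, nat_lit 0, nat_lit 502600, nat_lit 0, nat_lit 0, [(nat_lit 15, [(nat_lit 1, nat_lit 829), (nat_lit 2, nat_lit 171)])],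
 ⟨p072_k35, nat_lit 0, nat_lit 0, nat_lit 316, nat_lit 0, nat_lit 674779, [nat_lit 2013572040, nat_lit 2128721601, nat_lit 2054441600], [], [nat_lit 19751101259, nat_lit 20216857876, nat_lit 19843353524, nat_lit 20291282465, nat_lit 22689772435, nat_lit 23348366095, nat_lit 22728201242, nat_lit 23158753091], nat_lit 1271250, nat_lit 1271250, nat_lit 545600, nat_lit 780000, nat_lit 1271250, nat_lit 1271250, [nat_lit 780000, nat_lit 1100000, nat_lit 1442500], [nat_lit 59, nat_lit 40, nat_lit 40, nat_lit 80, nat_lit 3, nat_lit 238, nat_lit 30, nat_lit 8]⟩, C1.Rw.none,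
 ⟨nat_lit 4472, nat_lit 4744, ⟨.ofNat (nat_lit 390781), .ofNat (nat_lit 446540), .ofNat (nat_lit 412266), .ofNat (nat_lit 468025), .ofNat (nat_lit 395915), .ofNat (nat_lit 450297), .ofNat (nat_lit 417478), .ofNat (nat_lit 471860)⟩, ⟨.ofNat (nat_lit 440769), .ofNat (nat_lit 566229), .ofNat (nat_lit 483746), .ofNat (nat_lit 609205), .ofNat (nat_lit 438578), .ofNat (nat_lit 560938), .ofNat (nat_lit 481711), .ofNat (nat_lit 604071)⟩⟩, [⟨nat_lit 0, nat_lit 94, nat_lit 87, nat_lit 100, nat_lit 195938274⟩, ⟨nat_lit 4, nat_lit 100, nat_lit 90, nat_lit 95, nat_lit 349530135⟩]⟩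
noncomputable def p072_l106 : Lf2 := ⟨nat_lit 0, nat_lit 10, [nat_lit 0, nat_lit 5, nat_lit 5, nat_lit 20], true, nat_lit 160, nat_lit 320, nat_lit 0, nat_lit 336, ⟨nat_lit 0, nat_lit 1000, nat_lit 0, nat_lit 7, nat_lit 169, nat_lit 1000, nat_lit 185, nat_lit 0, nat_lit 0, nat_lit 0, nat_lit 0, nat_lit 0, nat_lit 0, nat_lit 0, nat_lit 0, nat_lit 5000000, false, false⟩,
 nat_lit 0, nat_lit 6337, nat_lit 0, nat_lit 0, nat_lit 4387, nat_lit 0, nat_lit 623, nat_lit 0, nat_lit 0, nat_lit 0, nat_lit 0, nat_lit 0, nat_lit 0, nat_lit 0, nat_lit 0, nat_lit 400000, nat_lit 0, nat_lit 0, [(nat_lit 15, [(nat_lit 1, nat_lit 1000)])],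
 ⟨p072_k21, nat_lit 0, nat_lit 0, nat_lit 301, nat_lit 0, nat_lit 548588, [nat_lit 2020200000, nat_lit 2336800001, nat_lit 2343200000], [], [nat_lit 18991009251, nat_lit 18876762775, nat_lit 18076662315, nat_lit 19058409071, nat_lit 22913310083, nat_lit 23878837396, nat_lit 24164767367, nat_lit 23624186602], nat_lit 1271250, nat_lit 1271250, nat_lit 490000, nat_lit 780000, nat_lit 1100001, nat_lit 2470000, [nat_lit 780000, nat_lit 1100000, nat_lit 1785000], [nat_lit 36, nat_lit 40, nat_lit 40, nat_lit 80, nat_lit 7, nat_lit 345, nat_lit 125, nat_lit 11]⟩, C1.Rw.none,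
 ⟨nat_lit 4472, nat_lit 5000, ⟨.ofNat (nat_lit 371392), .ofNat (nat_lit 442816), .ofNat (nat_lit 392808), .ofNat (nat_lit 464232), .ofNat (nat_lit 382295), .ofNat (nat_lit 450269), .ofNat (nat_lit 403849), .ofNat (nat_lit 471823)⟩, ⟨.ofNat (nat_lit 299999), .ofNat (nat_lit 585713), .ofNat (nat_lit 342856), .ofNat (nat_lit 628570), .ofNat (nat_lit 302621), .ofNat (nat_lit 574534), .ofNat (nat_lit 345754), .ofNat (nat_lit 617667)⟩⟩, [⟨nat_lit 0, nat_lit 94, nat_lit 87, nat_lit 100, nat_lit 19457333⟩, ⟨nat_lit 4, nat_lit 100, nat_lit 93, nat_lit 97, nat_lit 258051914⟩]⟩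
noncomputable def p072_l107 : Lf2 := ⟨nat_lit 0, nat_lit 10, [nat_lit 0, nat_lit 5, nat_lit 5, nat_lit 20], false, nat_lit 160, nat_lit 320, nat_lit 0, nat_lit 160, ⟨nat_lit 1000, nat_lit 0, nat_lit 0, nat_lit 0, nat_lit 0, nat_lit 0, nat_lit 0, nat_lit 0, nat_lit 0, nat_lit 0, nat_lit 0, nat_lit 0, nat_lit 0, nat_lit 0, nat_lit 0, nat_lit 0, false, false⟩,
 nat_lit 0, nat_lit 9469, nat_lit 0, nat_lit 0, nat_lit 6555, nat_lit 7145, nat_lit 1121, nat_lit 0, nat_lit 0, nat_lit 2313, nat_lit 0, nat_lit 0, nat_lit 0, nat_lit 0, nat_lit 0, nat_lit 0, nat_lit 0, nat_lit 0, [],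
 ⟨p072_k21, nat_lit 0, nat_lit 0, nat_lit 432, nat_lit 0, nat_lit 883896, [nat_lit 3282000000, nat_lit 4688000000, nat_lit 7968000000], [], [nat_lit 20391280460, nat_lit 21228088710, nat_lit 22742459500, nat_lit 22346896830, nat_lit 24140350400, nat_lit 25270401260, nat_lit 25852713440, nat_lit 27102293840], nat_lit 1271250, nat_lit 1271250, nat_lit 780000, nat_lit 1762500, nat_lit 1271250, nat_lit 1271250, [nat_lit 780000, nat_lit 1100000, nat_lit 1785000], [nat_lit 36, nat_lit 40, nat_lit 40, nat_lit 80, nat_lit 7, nat_lit 373, nat_lit 150, nat_lit 12]⟩, ⟨p072_k22, nat_lit 0, nat_lit 0, nat_lit 163, nat_lit 0, nat_lit 0, [nat_lit 3282000000, nat_lit 4688000000, nat_lit 9842000000], [], [nat_lit 16924969125, nat_lit 18819564595, nat_lit 21390936180, nat_lit 23747002890, nat_lit 12363752405, nat_lit 14131315310, nat_lit 16520369900, nat_lit 18176610630], nat_lit 0, nat_lit 0, nat_lit 0, nat_lit 0, nat_lit 0, nat_lit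 0, [], [nat_lit 42, nat_lit 40, nat_lit 40, nat_lit 80, nat_lit 13, nat_lit 317, nat_lit 100, nat_lit 9]⟩,
 zbF0, [⟨nat_lit 0, nat_lit 94, nat_lit 87, nat_lit 100, nat_lit 236948287⟩, ⟨nat_lit 4, nat_lit 100, nat_lit 93, nat_lit 97, nat_lit 388937084⟩]⟩
noncomputable def p072_l108 : Lf2 := ⟨nat_lit 0, nat_lit 5, [nat_lit 4, nat_lit 5, nat_lit 5, nat_lit 20], false, nat_lit 160, nat_lit 300, nat_lit 160, nat_lit 320, ⟨nat_lit 1000, nat_lit 0, nat_lit 0, nat_lit 0, nat_lit 0, nat_lit 0, nat_lit 0, nat_lit 0, nat_lit 0, nat_lit 0, nat_lit 0, nat_lit 0, nat_lit 0, nat_lit 0, nat_lit 0, nat_lit 0, false, false⟩,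
 nat_lit 0, nat_lit 8828, nat_lit 0, nat_lit 0, nat_lit 6111, nat_lit 5009, nat_lit 1903, nat_lit 0, nat_lit 0, nat_lit 0, nat_lit 0, nat_lit 0, nat_lit 0, nat_lit 0, nat_lit 0, nat_lit 0, nat_lit 0, nat_lit 0, [],
 ⟨p072_k11, nat_lit 0, nat_lit 0, nat_lit 358, nat_lit 0, nat_lit 833657, [nat_lit 3282000000, nat_lit 4688000000, nat_lit 6250000000], [], [nat_lit 19913716250, nat_lit 19099066128, nat_lit 20459054246, nat_lit 21441547260, nat_lit 22620707807, nat_lit 23525193498, nat_lit 26819126992, nat_lit 25723524875], nat_lit 1271250, nat_lit 1271250, nat_lit 780000, nat_lit 1762500, nat_lit 1100001, nat_lit 2298750, [nat_lit 780000, nat_lit 1100000, nat_lit 1442500], [nat_lit 59, nat_lit 40, nat_lit 40, nat_lit 80, nat_lit 3, nat_lit 373, nat_lit 150, nat_lit 14]⟩, ⟨p072_k5, nat_lit 0, nat_lit 0, nat_lit 43, nat_lit 0, nat_lit 0, [nat_lit 3282000000, nat_lit 4688000000, nat_lit 7968000000], [], [nat_lit 12556474528,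 nat_lit 14368354076, nat_lit 16999156336, nat_lit 18440773088, nat_lit 21498955056, nat_lit 22734191926, nat_lit 24029050016, nat_lit 25086194272], nat_lit 0, nat_lit 0, nat_lit 0, nat_lit 0, nat_lit 0, nat_lit 0, [], [nat_lit 36, nat_lit 40, nat_lit 40, nat_lit 80, nat_lit 7, nat_lit 373, nat_lit 150, nat_lit 12]⟩,
 zbF0, [⟨nat_lit 4, nat_lit 100, nat_lit 91, nat_lit 91, nat_lit 456150255⟩, ⟨nat_lit 7, nat_lit 97, nat_lit 100, nat_lit 94, nat_lit 516951244⟩]⟩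
noncomputable def p072_l109 : Lf2 := ⟨nat_lit 0, nat_lit 5, [nat_lit 4, nat_lit 5, nat_lit 5, nat_lit 20], false, nat_lit 160, nat_lit 240, nat_lit 160, nat_lit 336, ⟨nat_lit 1000, nat_lit 0, nat_lit 0, nat_lit 0, nat_lit 0, nat_lit 0, nat_lit 0, nat_lit 0, nat_lit 0, nat_lit 0, nat_lit 0, nat_lit 0, nat_lit 0, nat_lit 0, nat_lit 0, nat_lit 0, false, false⟩,
 nat_lit 0, nat_lit 9120, nat_lit 0, nat_lit 0, nat_lit 6313, nat_lit 4890, nat_lit 1858, nat_lit 0, nat_lit 0, nat_lit 0, nat_lit 0, nat_lit 0, nat_lit 0, nat_lit 0, nat_lit 0, nat_lit 0, nat_lit 0, nat_lit 0, [],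
 ⟨p072_k11, nat_lit 0, nat_lit 0, nat_lit 314, nat_lit 0, nat_lit 724609, [nat_lit 3282000000, nat_lit 4688000000, nat_lit 6250000000], [], [nat_lit 19693889750, nat_lit 17272847732, nat_lit 18583210782, nat_lit 19738249540, nat_lit 18224110782, nat_lit 19344391512, nat_lit 23104650484, nat_lit 22430044068], nat_lit 1271250, nat_lit 1271250, nat_lit 780000, nat_lit 1762500, nat_lit 1100001, nat_lit 1785000, [nat_lit 780000, nat_lit 1100000, nat_lit 1442500], [nat_lit 59, nat_lit 40, nat_lit 40, nat_lit 80, nat_lit 3, nat_lit 345, nat_lit 125, nat_lit 12]⟩, ⟨p072_k5, nat_lit 0, nat_lit 0, nat_lit 52, nat_lit 0, nat_lit 0, [nat_lit 3282000000, nat_lit 4688000000, nat_lit 7968000000], [], [nat_lit 12717434880, nat_lit 14504065960, nat_lit 17134970560, nat_lit 18558198480, nat_lit 22793931880, nat_lit 23955694921, nat_lit 25110416664, nat_lit 26085118284], nat_lit 0, nat_lit 0, nat_lit 0, nat_lit 0, nat_lit 0, nat_lit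 0, [], [nat_lit 36, nat_lit 40, nat_lit 40, nat_lit 80, nat_lit 7, nat_lit 373, nat_lit 150, nat_lit 12]⟩,
 zbF0, [⟨nat_lit 0, nat_lit 94, nat_lit 87, nat_lit 100, nat_lit 248588452⟩, ⟨nat_lit 7, nat_lit 90, nat_lit 100, nat_lit 100, nat_lit 496933805⟩]⟩
noncomputable def p072_l110 : Lf2 := ⟨nat_lit 0, nat_lit 5, [nat_lit 4, nat_lit 5, nat_lit 5, nat_lit 20], false, nat_lit 240, nat_lit 320, nat_lit 160, nat_lit 336, ⟨nat_lit 495, nat_lit 505, nat_lit 0, nat_lit 7, nat_lit 196, nat_lit 505, nat_lit 218, nat_lit 0, nat_lit 0, nat_lit 0, nat_lit 0, nat_lit 0, nat_lit 0, nat_lit 0, nat_lit 0, nat_lit 5000000, false, false⟩,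
 nat_lit 0, nat_lit 7428, nat_lit 0, nat_lit 0, nat_lit 5142, nat_lit 2420, nat_lit 1114, nat_lit 0, nat_lit 0, nat_lit 0, nat_lit 0, nat_lit 0, nat_lit 0, nat_lit 0, nat_lit 0, nat_lit 505000, nat_lit 0, nat_lit 0, [(nat_lit 15, [(nat_lit 2, nat_lit 505)])],
 ⟨p072_k11, nat_lit 0, nat_lit 0, nat_lit 256, nat_lit 0, nat_lit 581596, [nat_lit 2625217200, nat_lit 3181888000, nat_lit 3465430000], [], [nat_lit 19333420136, nat_lit 19487313367, nat_lit 19835049336, nat_lit 19988942567, nat_lit 22890859028, nat_lit 23025571143, nat_lit 23189351916, nat_lit 23316295126], nat_lit 1271250, nat_lit 1271250, nat_lit 780000, nat_lit 1100001, nat_lit 1271250, nat_lit 1271250, [nat_lit 780000, nat_lit 1100000, nat_lit 1442500], [nat_lit 59, nat_lit 40, nat_lit 40, nat_lit 80, nat_lit 3, nat_lit 249, nat_lit 40, nat_lit 8]⟩, ⟨p072_k5, nat_lit 0, nat_lit 0, nat_lit 52, nat_lit 0, nat_lit 0, [nat_lit 1624590000, nat_lit 2320560000,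 nat_lit 3944160000], [], [nat_lit 6295874200, nat_lit 7180139890, nat_lit 6780791160, nat_lit 7610037820, nat_lit 11283228880, nat_lit 11858240043, nat_lit 11463796829, nat_lit 12006109193], nat_lit 0, nat_lit 0, nat_lit 0, nat_lit 0, nat_lit 0, nat_lit 0, [], [nat_lit 36, nat_lit 40, nat_lit 40, nat_lit 80, nat_lit 7, nat_lit 345, nat_lit 125, nat_lit 11]⟩,
 ⟨nat_lit 4924, nat_lit 5000, ⟨.ofNat (nat_lit 442855), .ofNat (nat_lit 514284), .ofNat (nat_lit 464284), .ofNat (nat_lit 535712), .ofNat (nat_lit 443959), .ofNat (nat_lit 514868), .ofNat (nat_lit 465403), .ofNat (nat_lit 536312)⟩, ⟨.ofNat (nat_lit 464284), .ofNat (nat_lit 607141), .ofNat (nat_lit 485713), .ofNat (nat_lit 628570), .ofNat (nat_lit 463684), .ofNat (nat_lit 605502), .ofNat (nat_lit 485129), .ofNat (nat_lit 626946)⟩⟩, [⟨nat_lit 4, nat_lit 94, nat_lit 96, nat_lit 100, nat_lit 230808603⟩, ⟨nat_lit 7, nat_lit 90, nat_lit 100, nat_lit 100, nat_lit 78919251⟩,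 ⟨nat_lit 11, nat_lit 85, nat_lit 85, nat_lit 100, nat_lit 196492014⟩]⟩
noncomputable def p072_l111 : Lf2 := ⟨nat_lit 0, nat_lit 5, [nat_lit 4, nat_lit 5, nat_lit 5, nat_lit 20], false, nat_lit 240, nat_lit 316, nat_lit 160, nat_lit 336, ⟨nat_lit 357, nat_lit 643, nat_lit 0, nat_lit 7, nat_lit 196, nat_lit 643, nat_lit 217, nat_lit 0, nat_lit 0, nat_lit 0, nat_lit 0, nat_lit 0, nat_lit 0, nat_lit 0, nat_lit 0, nat_lit 5000000, false, false⟩,
 nat_lit 0, nat_lit 7071, nat_lit 0, nat_lit 0, nat_lit 4955, nat_lit 1744, nat_lit 716, nat_lit 0, nat_lit 0, nat_lit 0, nat_lit 0, nat_lit 0, nat_lit 0, nat_lit 0, nat_lit 0, nat_lit 643000, nat_lit 0, nat_lit 0, [(nat_lit 15, [(nat_lit 2, nat_lit 643)])],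
 ⟨p072_k36, nat_lit 0, nat_lit 0, nat_lit 258, nat_lit 0, nat_lit 587682, [nat_lit 2445739920, nat_lit 2770316800, nat_lit 2704498000], [], [nat_lit 19440494908, nat_lit 19535472973, nat_lit 19896805528, nat_lit 19991783593, nat_lit 22687499575, nat_lit 22776868828, nat_lit 23006661263, nat_lit 23090929906], nat_lit 1271250, nat_lit 1271250, nat_lit 780000, nat_lit 1100001, nat_lit 1271250, nat_lit 1271250, [nat_lit 780000, nat_lit 1100000, nat_lit 1442500], [nat_lit 59, nat_lit 40, nat_lit 40, nat_lit 80, nat_lit 3, nat_lit 249, nat_lit 40, nat_lit 8]⟩, ⟨p072_k5, nat_lit 0, nat_lit 0, nat_lit 52, nat_lit 0, nat_lit 0, [nat_lit 1171674000, nat_lit 1673616000, nat_lit 2844576000], [], [nat_lit 4542464264, nat_lit 5179924502, nat_lit 4892213592, nat_lit 5490016748, nat_lit 8138165312, nat_lit 8552721138, nat_lit 8268538149, nat_lit 8659524532], nat_lit 0, nat_lit 0, nat_lit 0, nat_lit 0, nat_lit 0, nat_lit 0, [], [nat_lit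 36, nat_lit 40, nat_lit 40, nat_lit 80, nat_lit 7, nat_lit 345, nat_lit 125, nat_lit 11]⟩,
 ⟨nat_lit 4873, nat_lit 4925, ⟨.ofNat (nat_lit 443959), .ofNat (nat_lit 514868), .ofNat (nat_lit 465404), .ofNat (nat_lit 536312), .ofNat (nat_lit 444697), .ofNat (nat_lit 515260), .ofNat (nat_lit 466153), .ofNat (nat_lit 536716)⟩, ⟨.ofNat (nat_lit 463684), .ofNat (nat_lit 598411), .ofNat (nat_lit 485129), .ofNat (nat_lit 619855), .ofNat (nat_lit 463280), .ofNat (nat_lit 597350), .ofNat (nat_lit 484737), .ofNat (nat_lit 618806)⟩⟩, [⟨nat_lit 4, nat_lit 95, nat_lit 96, nat_lit 100, nat_lit 238690280⟩, ⟨nat_lit 7, nat_lit 90, nat_lit 100, nat_lit 100, nat_lit 56268401⟩, ⟨nat_lit 11, nat_lit 85, nat_lit 85, nat_lit 100, nat_lit 142382541⟩]⟩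
noncomputable def p072_l112 : Lf2 := ⟨nat_lit 0, nat_lit 5, [nat_lit 4, nat_lit 5, nat_lit 5, nat_lit 20], false, nat_lit 240, nat_lit 316, nat_lit 160, nat_lit 336, ⟨nat_lit 242, nat_lit 758, nat_lit 0, nat_lit 7, nat_lit 196, nat_lit 758, nat_lit 216, nat_lit 0, nat_lit 0, nat_lit 0, nat_lit 0, nat_lit 0, nat_lit 0, nat_lit 0, nat_lit 0, nat_lit 5000000, false, false⟩,
 nat_lit 0, nat_lit 6752, nat_lit 0, nat_lit 0, nat_lit 4770, nat_lit 1185, nat_lit 551, nat_lit 0, nat_lit 0, nat_lit 0, nat_lit 0, nat_lit 0, nat_lit 0, nat_lit 0, nat_lit 0, nat_lit 758000, nat_lit 0, nat_lit 0, [(nat_lit 15, [(nat_lit 2, nat_lit 758)])],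
 ⟨p072_k37, nat_lit 0, nat_lit 0, nat_lit 264, nat_lit 0, nat_lit 605229, [nat_lit 2296175521, nat_lit 2427340800, nat_lit 2070388000], [], [nat_lit 19483226054, nat_lit 19641060260, nat_lit 20003701574, nat_lit 20152387772, nat_lit 22728030185, nat_lit 22860005243, nat_lit 23059924245, nat_lit 23184459654], nat_lit 1271250, nat_lit 1271250, nat_lit 780000, nat_lit 1100001, nat_lit 1271250, nat_lit 1271250, [nat_lit 780000, nat_lit 1100000, nat_lit 1442500], [nat_lit 59, nat_lit 40, nat_lit 40, nat_lit 80, nat_lit 3, nat_lit 249, nat_lit 40, nat_lit 8]⟩, ⟨p072_k5, nat_lit 0, nat_lit 0, nat_lit 52, nat_lit 0, nat_lit 0, [nat_lit 794244000, nat_lit 1134496000, nat_lit 1928256000], [], [nat_lit 3075428016, nat_lit 3508136456, nat_lit 3312468300, nat_lit 3718245526, nat_lit 5515446404, nat_lit 5798285038, nat_lit 5603518590, nat_lit 5868841558], nat_lit 0, nat_lit 0, nat_lit 0, nat_lit 0, nat_lit 0, nat_lit 0, [], [nat_lit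 36, nat_lit 40, nat_lit 40, nat_lit 80, nat_lit 7, nat_lit 345, nat_lit 125, nat_lit 11]⟩,
 ⟨nat_lit 4795, nat_lit 4874, ⟨.ofNat (nat_lit 444697), .ofNat (nat_lit 515260), .ofNat (nat_lit 466153), .ofNat (nat_lit 536716), .ofNat (nat_lit 445808), .ofNat (nat_lit 515852), .ofNat (nat_lit 467282), .ofNat (nat_lit 537327)⟩, ⟨.ofNat (nat_lit 463280), .ofNat (nat_lit 597350), .ofNat (nat_lit 484737), .ofNat (nat_lit 618806), .ofNat (nat_lit 462669), .ofNat (nat_lit 595754), .ofNat (nat_lit 484144), .ofNat (nat_lit 617229)⟩⟩, [⟨nat_lit 16, nat_lit 93, nat_lit 90, nat_lit 100, nat_lit 270180252⟩, ⟨nat_lit 19, nat_lit 100, nat_lit 90, nat_lit 100, nat_lit 38184439⟩, ⟨nat_lit 11, nat_lit 85, nat_lit 85, nat_lit 100, nat_lit 92137523⟩]⟩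
noncomputable def p072_l113 : Lf2 := ⟨nat_lit 0, nat_lit 5, [nat_lit 4, nat_lit 5, nat_lit 5, nat_lit 20], false, nat_lit 240, nat_lit 312, nat_lit 160, nat_lit 336, ⟨nat_lit 257, nat_lit 743, nat_lit 0, nat_lit 7, nat_lit 197, nat_lit 743, nat_lit 214, nat_lit 0, nat_lit 0, nat_lit 0, nat_lit 0, nat_lit 0, nat_lit 0, nat_lit 0, nat_lit 0, nat_lit 5000000, false, false⟩,
 nat_lit 0, nat_lit 6717, nat_lit 0, nat_lit 0, nat_lit 4803, nat_lit 1255, nat_lit 458, nat_lit 0, nat_lit 0, nat_lit 0, nat_lit 0, nat_lit 0, nat_lit 0, nat_lit 0, nat_lit 0, nat_lit 743000, nat_lit 0, nat_lit 0, [(nat_lit 15, [(nat_lit 2, nat_lit 743)])],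
 ⟨p072_k38, nat_lit 0, nat_lit 0, nat_lit 266, nat_lit 0, nat_lit 610945, [nat_lit 2315683920, nat_lit 2472076800, nat_lit 2153098000], [], [nat_lit 19674936998, nat_lit 19768631727, nat_lit 20128256618, nat_lit 20221951347, nat_lit 22670534736, nat_lit 22759677511, nat_lit 23001655512, nat_lit 23085753120], nat_lit 1271250, nat_lit 1271250, nat_lit 780000, nat_lit 1100001, nat_lit 1271250, nat_lit 1271250, [nat_lit 780000, nat_lit 1100000, nat_lit 1442500], [nat_lit 59, nat_lit 40, nat_lit 40, nat_lit 80, nat_lit 3, nat_lit 249, nat_lit 40, nat_lit 8]⟩, ⟨p072_k5, nat_lit 0, nat_lit 0, nat_lit 52, nat_lit 0, nat_lit 0, [nat_lit 843474000, nat_lit 1204816000, nat_lit 2047776000], [], [nat_lit 3270720776, nat_lit 3729517906, nat_lit 3522508860, nat_lit 3952765806, nat_lit 5858772124, nat_lit 6157151646, nat_lit 5952678674, nat_lit 6234095682], nat_lit 0, nat_lit 0, nat_lit 0, nat_lit 0, nat_lit 0, nat_lit 0, [], [nat_lit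 36, nat_lit 40, nat_lit 40, nat_lit 80, nat_lit 7, nat_lit 345, nat_lit 125, nat_lit 11]⟩,
 ⟨nat_lit 4743, nat_lit 4796, ⟨.ofNat (nat_lit 445808), .ofNat (nat_lit 515853), .ofNat (nat_lit 467283), .ofNat (nat_lit 537327), .ofNat (nat_lit 446551), .ofNat (nat_lit 516251), .ofNat (nat_lit 468039), .ofNat (nat_lit 537739)⟩, ⟨.ofNat (nat_lit 462669), .ofNat (nat_lit 588750), .ofNat (nat_lit 484144), .ofNat (nat_lit 610224), .ofNat (nat_lit 462258), .ofNat (nat_lit 587717), .ofNat (nat_lit 483746), .ofNat (nat_lit 609205)⟩⟩, [⟨nat_lit 16, nat_lit 92, nat_lit 91, nat_lit 100, nat_lit 266531988⟩, ⟨nat_lit 19, nat_lit 100, nat_lit 90, nat_lit 100, nat_lit 37376112⟩, ⟨nat_lit 11, nat_lit 85, nat_lit 85, nat_lit 100, nat_lit 101199474⟩]⟩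
noncomputable def p072_l114 : Lf2 := ⟨nat_lit 0, nat_lit 5, [nat_lit 4, nat_lit 5, nat_lit 5, nat_lit 20], false, nat_lit 240, nat_lit 312, nat_lit 160, nat_lit 336, ⟨nat_lit 120, nat_lit 880, nat_lit 0, nat_lit 7, nat_lit 197, nat_lit 880, nat_lit 214, nat_lit 0, nat_lit 0, nat_lit 0, nat_lit 0, nat_lit 0, nat_lit 0, nat_lit 0, nat_lit 0, nat_lit 5000000, false, false⟩,
 nat_lit 0, nat_lit 6363, nat_lit 0, nat_lit 0, nat_lit 4587, nat_lit 587, nat_lit 272, nat_lit 0, nat_lit 0, nat_lit 0, nat_lit 0, nat_lit 0, nat_lit 0, nat_lit 0, nat_lit 0, nat_lit 880000, nat_lit 0, nat_lit 0, [(nat_lit 15, [(nat_lit 2, nat_lit 880)])],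
 ⟨p072_k35, nat_lit 0, nat_lit 0, nat_lit 272, nat_lit 0, nat_lit 628076, [nat_lit 2137507200, nat_lit 2063488000, nat_lit 1397680000], [], [nat_lit 19763999423, nat_lit 19901805985, nat_lit 20225618623, nat_lit 20363425185, nat_lit 22687337861, nat_lit 22819032769, nat_lit 23034323048, nat_lit 23158244598], nat_lit 1271250, nat_lit 1271250, nat_lit 780000, nat_lit 1100001, nat_lit 1271250, nat_lit 1271250, [nat_lit 780000, nat_lit 1100000, nat_lit 1442500], [nat_lit 59, nat_lit 40, nat_lit 40, nat_lit 80, nat_lit 3, nat_lit 249, nat_lit 40, nat_lit 8]⟩, ⟨p072_k5, nat_lit 0, nat_lit 0, nat_lit 52, nat_lit 0, nat_lit 0, [nat_lit 393840000, nat_lit 562560000, nat_lit 956160000], [], [nat_lit 1525821664, nat_lit 1740259828, nat_lit 1643371956, nat_lit 1844466346, nat_lit 2735187244, nat_lit 2874718341, nat_lit 2778925032, nat_lit 2910428663], nat_lit 0, nat_lit 0, nat_lit 0, nat_lit 0, nat_lit 0, nat_lit 0, [], [nat_lit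 36, nat_lit 40, nat_lit 40, nat_lit 80, nat_lit 7, nat_lit 345, nat_lit 125, nat_lit 11]⟩,
 ⟨nat_lit 4663, nat_lit 4744, ⟨.ofNat (nat_lit 446551), .ofNat (nat_lit 516251), .ofNat (nat_lit 468039), .ofNat (nat_lit 537738), .ofNat (nat_lit 447670), .ofNat (nat_lit 516853), .ofNat (nat_lit 469180), .ofNat (nat_lit 538362)⟩, ⟨.ofNat (nat_lit 462258), .ofNat (nat_lit 587717), .ofNat (nat_lit 483746), .ofNat (nat_lit 609205), .ofNat (nat_lit 461634), .ofNat (nat_lit 586163), .ofNat (nat_lit 483143), .ofNat (nat_lit 607672)⟩⟩, [⟨nat_lit 16, nat_lit 91, nat_lit 91, nat_lit 100, nat_lit 337609605⟩, ⟨nat_lit 7, nat_lit 90, nat_lit 100, nat_lit 100, nat_lit 57746413⟩]⟩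
noncomputable def p072_l115 : Lf2 := ⟨nat_lit 0, nat_lit 5, [nat_lit 4, nat_lit 5, nat_lit 5, nat_lit 20], false, nat_lit 240, nat_lit 308, nat_lit 160, nat_lit 336, ⟨nat_lit 122, nat_lit 878, nat_lit 0, nat_lit 7, nat_lit 197, nat_lit 878, nat_lit 212, nat_lit 0, nat_lit 0, nat_lit 0, nat_lit 0, nat_lit 0, nat_lit 0, nat_lit 0, nat_lit 0, nat_lit 5000000, false, false⟩,
 nat_lit 0, nat_lit 6306, nat_lit 0, nat_lit 0, nat_lit 4600, nat_lit 598, nat_lit 246, nat_lit 0, nat_lit 0, nat_lit 0, nat_lit 0, nat_lit 0, nat_lit 0, nat_lit 0, nat_lit 0, nat_lit 878000, nat_lit 0, nat_lit 0, [(nat_lit 15, [(nat_lit 2, nat_lit 878)])],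
 ⟨p072_k39, nat_lit 0, nat_lit 0, nat_lit 274, nat_lit 0, nat_lit 633512, [nat_lit 2140108321, nat_lit 2069452800, nat_lit 1408708000], [], [nat_lit 19878862842, nat_lit 19971887263, nat_lit 20335430863, nat_lit 20428455284, nat_lit 22625707754, nat_lit 22714182294, nat_lit 22973535785, nat_lit 23057063539], nat_lit 1271250, nat_lit 1271250, nat_lit 780000, nat_lit 1100001, nat_lit 1271250, nat_lit 1271250, [nat_lit 780000, nat_lit 1100000, nat_lit 1442500], [nat_lit 59, nat_lit 40, nat_lit 40, nat_lit 80, nat_lit 3, nat_lit 249, nat_lit 40, nat_lit 8]⟩, ⟨p072_k5, nat_lit 0, nat_lit 0, nat_lit 52, nat_lit 0, nat_lit 0, [nat_lit 400404000, nat_lit 571936000, nat_lit 972096000], [], [nat_lit 1549606352, nat_lit 1767876628, nat_lit 1669096344, nat_lit 1873779180, nat_lit 2780259160, nat_lit 2923566697, nat_lit 2824593559, nat_lit 2958412896], nat_lit 0, nat_lit 0, nat_lit 0, nat_lit 0, nat_lit 0, nat_lit 0, [], [nat_lit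 36, nat_lit 40, nat_lit 40, nat_lit 80, nat_lit 7, nat_lit 345, nat_lit 125, nat_lit 11]⟩,
 ⟨nat_lit 4609, nat_lit 4664, ⟨.ofNat (nat_lit 447671), .ofNat (nat_lit 516853), .ofNat (nat_lit 469180), .ofNat (nat_lit 538363), .ofNat (nat_lit 448420), .ofNat (nat_lit 517259), .ofNat (nat_lit 469945), .ofNat (nat_lit 538783)⟩, ⟨.ofNat (nat_lit 461634), .ofNat (nat_lit 579244), .ofNat (nat_lit 483143), .ofNat (nat_lit 600754), .ofNat (nat_lit 461213), .ofNat (nat_lit 578239), .ofNat (nat_lit 482738), .ofNat (nat_lit 599763)⟩⟩, [⟨nat_lit 16, nat_lit 90, nat_lit 93, nat_lit 100, nat_lit 341103168⟩, ⟨nat_lit 19, nat_lit 100, nat_lit 90, nat_lit 100, nat_lit 58847920⟩]⟩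
noncomputable def p072_l116 : Lf2 := ⟨nat_lit 0, nat_lit 5, [nat_lit 4, nat_lit 5, nat_lit 5, nat_lit 20], false, nat_lit 240, nat_lit 304, nat_lit 160, nat_lit 336, ⟨nat_lit 124, nat_lit 876, nat_lit 0, nat_lit 7, nat_lit 198, nat_lit 876, nat_lit 211, nat_lit 0, nat_lit 0, nat_lit 0, nat_lit 0, nat_lit 0, nat_lit 0, nat_lit 0, nat_lit 0, nat_lit 5000000, false, false⟩,
 nat_lit 0, nat_lit 6266, nat_lit 0, nat_lit 0, nat_lit 4607, nat_lit 608, nat_lit 228, nat_lit 0, nat_lit 0, nat_lit 0, nat_lit 0, nat_lit 0, nat_lit 0, nat_lit 0, nat_lit 0, nat_lit 876000, nat_lit 0, nat_lit 0, [(nat_lit 15, [(nat_lit 2, nat_lit 876)])],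
 ⟨p072_k40, nat_lit 0, nat_lit 0, nat_lit 279, nat_lit 0, nat_lit 650308, [nat_lit 2142709441, nat_lit 2075417600, nat_lit 1419736000], [], [nat_lit 19976938438, nat_lit 20115422910, nat_lit 20423992779, nat_lit 20562477251, nat_lit 22539783193, nat_lit 22673901803, nat_lit 22891369792, nat_lit 23017972578], nat_lit 1271250, nat_lit 1271250, nat_lit 780000, nat_lit 1100001, nat_lit 1271250, nat_lit 1271250, [nat_lit 780000, nat_lit 1100000, nat_lit 1442500], [nat_lit 59, nat_lit 40, nat_lit 40, nat_lit 80, nat_lit 3, nat_lit 249, nat_lit 40, nat_lit 8]⟩, ⟨p072_k5, nat_lit 0, nat_lit 0, nat_lit 52, nat_lit 0, nat_lit 0, [nat_lit 406968000, nat_lit 581312000, nat_lit 988032000], [], [nat_lit 1574743648, nat_lit 1796633864, nat_lit 1696189344, nat_lit 1904265936, nat_lit 2825753984, nat_lit 2971645423, nat_lit 2870793776, nat_lit 3006826919], nat_lit 0, nat_lit 0, nat_lit 0, nat_lit 0, nat_lit 0, nat_lit 0, [], [nat_lit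 36, nat_lit 40, nat_lit 40, nat_lit 80, nat_lit 7, nat_lit 345, nat_lit 125, nat_lit 11]⟩,
 ⟨nat_lit 4527, nat_lit 4610, ⟨.ofNat (nat_lit 448420), .ofNat (nat_lit 517258), .ofNat (nat_lit 469944), .ofNat (nat_lit 538783), .ofNat (nat_lit 449550), .ofNat (nat_lit 517872), .ofNat (nat_lit 471099), .ofNat (nat_lit 539421)⟩, ⟨.ofNat (nat_lit 461213), .ofNat (nat_lit 571355), .ofNat (nat_lit 482738), .ofNat (nat_lit 592879), .ofNat (nat_lit 460575), .ofNat (nat_lit 569891), .ofNat (nat_lit 482124), .ofNat (nat_lit 591440)⟩⟩, [⟨nat_lit 16, nat_lit 89, nat_lit 93, nat_lit 100, nat_lit 343940510⟩, ⟨nat_lit 7, nat_lit 90, nat_lit 100, nat_lit 100, nat_lit 59825239⟩]⟩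
noncomputable def p072_l117 : Lf2 := ⟨nat_lit 0, nat_lit 5, [nat_lit 4, nat_lit 5, nat_lit 5, nat_lit 20], false, nat_lit 240, nat_lit 304, nat_lit 160, nat_lit 336, ⟨nat_lit 125, nat_lit 875, nat_lit 0, nat_lit 7, nat_lit 198, nat_lit 875, nat_lit 210, nat_lit 0, nat_lit 0, nat_lit 0, nat_lit 0, nat_lit 0, nat_lit 0, nat_lit 0, nat_lit 0, nat_lit 5000000, false, false⟩,
 nat_lit 0, nat_lit 6175, nat_lit 0, nat_lit 0, nat_lit 4595, nat_lit 611, nat_lit 207, nat_lit 0, nat_lit 0, nat_lit 0, nat_lit 0, nat_lit 0, nat_lit 0, nat_lit 0, nat_lit 0, nat_lit 875000, nat_lit 0, nat_lit 0, [(nat_lit 15, [(nat_lit 2, nat_lit 875)])],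
 ⟨p072_k41, nat_lit 0, nat_lit 0, nat_lit 284, nat_lit 0, nat_lit 655320, [nat_lit 2144010000, nat_lit 2078400000, nat_lit 1425250000], [], [nat_lit 20171274845, nat_lit 20263213430, nat_lit 20612719220, nat_lit 20704657805, nat_lit 22714624658, nat_lit 22803941877, nat_lit 23059859216, nat_lit 23144175385], nat_lit 1271250, nat_lit 1271250, nat_lit 780000, nat_lit 1100001, nat_lit 1271250, nat_lit 1271250, [nat_lit 780000, nat_lit 1100000, nat_lit 1442500], [nat_lit 59, nat_lit 40, nat_lit 40, nat_lit 80, nat_lit 3, nat_lit 249, nat_lit 40, nat_lit 8]⟩, ⟨p072_k5, nat_lit 0, nat_lit 0, nat_lit 52, nat_lit 0, nat_lit 0, [nat_lit 410250000, nat_lit 586000000, nat_lit 996000000], [], [nat_lit 1590017512, nat_lit 1813293354, nat_lit 1712473068, nat_lit 1921857158, nat_lit 2849347212, nat_lit 2994539619, nat_lit 2894957266, nat_lit 3031893511], nat_lit 0, nat_lit 0, nat_lit 0, nat_lit 0, nat_lit 0, nat_lit 0, [], [nat_lit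 36, nat_lit 40, nat_lit 40, nat_lit 80, nat_lit 7, nat_lit 345, nat_lit 125, nat_lit 11]⟩,
 ⟨nat_lit 4472, nat_lit 4528, ⟨.ofNat (nat_lit 449550), .ofNat (nat_lit 517873), .ofNat (nat_lit 471099), .ofNat (nat_lit 539422), .ofNat (nat_lit 450308), .ofNat (nat_lit 518286), .ofNat (nat_lit 471874), .ofNat (nat_lit 539852)⟩, ⟨.ofNat (nat_lit 460575), .ofNat (nat_lit 569891), .ofNat (nat_lit 482124), .ofNat (nat_lit 591440), .ofNat (nat_lit 460144), .ofNat (nat_lit 568909), .ofNat (nat_lit 481711), .ofNat (nat_lit 590476)⟩⟩, [⟨nat_lit 16, nat_lit 88, nat_lit 94, nat_lit 100, nat_lit 347626785⟩, ⟨nat_lit 19, nat_lit 100, nat_lit 90, nat_lit 100, nat_lit 60119041⟩]⟩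
noncomputable def p072_l118 : Lf2 := ⟨nat_lit 0, nat_lit 5, [nat_lit 4, nat_lit 5, nat_lit 5, nat_lit 20], false, nat_lit 240, nat_lit 320, nat_lit 160, nat_lit 336, ⟨nat_lit 1000, nat_lit 0, nat_lit 0, nat_lit 0, nat_lit 0, nat_lit 0, nat_lit 0, nat_lit 0, nat_lit 0, nat_lit 0, nat_lit 0, nat_lit 0, nat_lit 0, nat_lit 0, nat_lit 0, nat_lit 0, false, false⟩,
 nat_lit 0, nat_lit 8328, nat_lit 0, nat_lit 0, nat_lit 5765, nat_lit 4943, nat_lit 1846, nat_lit 0, nat_lit 0, nat_lit 0, nat_lit 0, nat_lit 0, nat_lit 0, nat_lit 0, nat_lit 0, nat_lit 0, nat_lit 0, nat_lit 0, [],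
 ⟨p072_k11, nat_lit 0, nat_lit 0, nat_lit 310, nat_lit 0, nat_lit 724609, [nat_lit 3282000000, nat_lit 4688000000, nat_lit 6250000000], [], [nat_lit 20467769940, nat_lit 21474614360, nat_lit 22339874040, nat_lit 23268191800, nat_lit 23903684970, nat_lit 24791047420, nat_lit 25461025120, nat_lit 26632806320], nat_lit 1271250, nat_lit 1271250, nat_lit 1100001, nat_lit 1785000, nat_lit 1271250, nat_lit 1271250, [nat_lit 780000, nat_lit 1100000, nat_lit 1442500], [nat_lit 59, nat_lit 40, nat_lit 40, nat_lit 80, nat_lit 3, nat_lit 272, nat_lit 60, nat_lit 9]⟩, ⟨p072_k5, nat_lit 0, nat_lit 0, nat_lit 43, nat_lit 0, nat_lit 0, [nat_lit 3282000000, nat_lit 4688000000, nat_lit 7968000000], [], [nat_lit 13624510884, nat_lit 15310291554, nat_lit 17074481872, nat_lit 18505899776, nat_lit 23130415153, nat_lit 24231509631, nat_lit 25082091217, nat_lit 26117328271], nat_lit 0, nat_lit 0, nat_lit 0, nat_lit 0, nat_lit 0, nat_lit 0,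 [], [nat_lit 36, nat_lit 40, nat_lit 40, nat_lit 80, nat_lit 7, nat_lit 373, nat_lit 150, nat_lit 11]⟩,
 zbF0, [⟨nat_lit 4, nat_lit 97, nat_lit 94, nat_lit 100, nat_lit 480089790⟩, ⟨nat_lit 7, nat_lit 90, nat_lit 100, nat_lit 100, nat_lit 481847181⟩]⟩
noncomputable def p072_l119 : Lf2 := ⟨nat_lit 0, nat_lit 10, [nat_lit 0, nat_lit 5, nat_lit 5, nat_lit 20], false, nat_lit 160, nat_lit 320, nat_lit 160, nat_lit 336, ⟨nat_lit 278, nat_lit 722, nat_lit 0, nat_lit 7, nat_lit 225, nat_lit 722, nat_lit 185, nat_lit 0, nat_lit 0, nat_lit 0, nat_lit 0, nat_lit 0, nat_lit 0, nat_lit 0, nat_lit 0, nat_lit 5000000, false, false⟩,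
 nat_lit 0, nat_lit 7018, nat_lit 0, nat_lit 0, nat_lit 4858, nat_lit 1358, nat_lit 445, nat_lit 0, nat_lit 0, nat_lit 0, nat_lit 0, nat_lit 0, nat_lit 0, nat_lit 0, nat_lit 0, nat_lit 465200, nat_lit 0, nat_lit 0, [(nat_lit 15, [(nat_lit 1, nat_lit 428), (nat_lit 2, nat_lit 294)])],
 ⟨p072_k21, nat_lit 0, nat_lit 0, nat_lit 285, nat_lit 0, nat_lit 548588, [nat_lit 2359584960, nat_lit 2941159200, nat_lit 3019478400], [], [nat_lit 19432463420, nat_lit 19282999134, nat_lit 22136142610, nat_lit 21436642966, nat_lit 23207907274, nat_lit 23985176904, nat_lit 25011327264, nat_lit 26093787104], nat_lit 1271250, nat_lit 1271250, nat_lit 780000, nat_lit 1762500, nat_lit 1271250, nat_lit 1271250, [nat_lit 780000, nat_lit 1100000, nat_lit 1785000], [nat_lit 36, nat_lit 40, nat_lit 40, nat_lit 80, nat_lit 7, nat_lit 373, nat_lit 150, nat_lit 12]⟩, ⟨p072_k22, nat_lit 0, nat_lit 0, nat_lit 52, nat_lit 0, nat_lit 0, [nat_lit 912396000,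 nat_lit 1303264000, nat_lit 2736076000], [], [nat_lit 3537367600, nat_lit 4033749756, nat_lit 4765142456, nat_lit 5160580388, nat_lit 6337313592, nat_lit 6660124825, nat_lit 6981454741, nat_lit 7250799899], nat_lit 0, nat_lit 0, nat_lit 0, nat_lit 0, nat_lit 0, nat_lit 0, [], [nat_lit 42, nat_lit 40, nat_lit 40, nat_lit 80, nat_lit 13, nat_lit 373, nat_lit 150, nat_lit 10]⟩,
 ⟨nat_lit 4472, nat_lit 5000, ⟨.ofNat (nat_lit 442816), .ofNat (nat_lit 657088), .ofNat (nat_lit 464232), .ofNat (nat_lit 678503), .ofNat (nat_lit 450269), .ofNat (nat_lit 654189), .ofNat (nat_lit 471823), .ofNat (nat_lit 675743)⟩, ⟨.ofNat (nat_lit 299999), .ofNat (nat_lit 585713), .ofNat (nat_lit 342856), .ofNat (nat_lit 628570), .ofNat (nat_lit 302621), .ofNat (nat_lit 574534), .ofNat (nat_lit 345754), .ofNat (nat_lit 617667)⟩⟩, [⟨nat_lit 4, nat_lit 100, nat_lit 93, nat_lit 97, nat_lit 303382514⟩, ⟨nat_lit 7, nat_lit 94, nat_lit 100, nat_lit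 97, nat_lit 126652916⟩]⟩
noncomputable def b_V_700_700_20_47 : St := ⟨true, nat_lit 1, nat_lit 0, nat_lit 2, nat_lit 120, nat_lit 300, nat_lit 320, nat_lit 280, nat_lit 300, nat_lit 80, nat_lit 240, nat_lit 80, nat_lit 120, nat_lit 160, nat_lit 320, nat_lit 0, nat_lit 336, nat_lit 0, nat_lit 40, nat_lit 0, nat_lit 0, nat_lit 0, nat_lit 0⟩
theorem d_V_700_700_20_47 (h : EB TB.env) : Dead b_V_700_700_20_47 := chkB_sound0 h (T :=
(.spl (nat_lit 2) (nat_lit 120)
(.spl (nat_lit 6) (nat_lit 20)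
(.spl (nat_lit 5) (nat_lit 160)
(.leaf p072_l97)
(.spl (nat_lit 4) (nat_lit 240)
(.leaf p072_l98)
(.spl (nat_lit 6) (nat_lit 8)
(.spl (nat_lit 3) (nat_lit 100)
(.trX (nat_lit 16) (nat_lit 100) (nat_lit 100) (nat_lit 100) (nat_lit 300) (.trX (nat_lit 19) (nat_lit 100) (nat_lit 88) (nat_lit 94) (nat_lit 320) (.spl (nat_lit 0) (nat_lit 310)
(.leaf p072_l99)
(.trZ (nat_lit 0) (nat_lit 100) (nat_lit 91) (nat_lit 91) (nat_lit 88) (.trX (nat_lit 16) (nat_lit 93) (nat_lit 100) (nat_lit 97) (nat_lit 292) (.leaf p072_l100))))))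
(.spl (nat_lit 0) (nat_lit 310)
(.spl (nat_lit 0) (nat_lit 305)
(.leaf p072_l101)
(.trZ (nat_lit 0) (nat_lit 100) (nat_lit 93) (nat_lit 90) (nat_lit 84) (.trX (nat_lit 16) (nat_lit 93) (nat_lit 90) (nat_lit 100) (nat_lit 316) (.leaf p072_l102))))
(.trZ (nat_lit 0) (nat_lit 100) (nat_lit 91) (nat_lit 91) (nat_lit 88) (.trX (nat_lit 16) (nat_lit 91) (nat_lit 91) (nat_lit 100) (nat_lit 312) (.leaf p072_l103)))))
(.spl (nat_lit 0) (nat_lit 310)
(.leaf p072_l104)
(.trZ (nat_lit 0) (nat_lit 100) (nat_lit 91) (nat_lit 91) (nat_lit 88) (.trX (nat_lit 16) (nat_lit 91) (nat_lit 91) (nat_lit 100) (nat_lit 312) (.leaf p072_l105)))))))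
(.leaf p072_l106))
(.spl (nat_lit 5) (nat_lit 160)
(.leaf p072_l107)
(.spl (nat_lit 6) (nat_lit 20)
(.spl (nat_lit 3) (nat_lit 100)
(.trX (nat_lit 16) (nat_lit 100) (nat_lit 100) (nat_lit 100) (nat_lit 300) (.trX (nat_lit 19) (nat_lit 100) (nat_lit 88) (nat_lit 94) (nat_lit 320) (.leaf p072_l108)))
(.spl (nat_lit 4) (nat_lit 240)
(.leaf p072_l109)
(.spl (nat_lit 2) (nat_lit 160)
(.spl (nat_lit 0) (nat_lit 310)
(.spl (nat_lit 0) (nat_lit 305)
(.spl (nat_lit 0) (nat_lit 303)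
(.leaf p072_l110)
(.trX (nat_lit 16) (nat_lit 94) (nat_lit 89) (nat_lit 100) (nat_lit 316) (.leaf p072_l111)))
(.trX (nat_lit 16) (nat_lit 93) (nat_lit 90) (nat_lit 100) (nat_lit 316) (.spl (nat_lit 0) (nat_lit 308)
(.leaf p072_l112)
(.trX (nat_lit 16) (nat_lit 92) (nat_lit 91) (nat_lit 100) (nat_lit 312) (.leaf p072_l113)))))
(.trX (nat_lit 16) (nat_lit 91) (nat_lit 91) (nat_lit 100) (nat_lit 312) (.spl (nat_lit 0) (nat_lit 315)
(.spl (nat_lit 0) (nat_lit 313)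
(.leaf p072_l114)
(.trX (nat_lit 16) (nat_lit 90) (nat_lit 93) (nat_lit 100) (nat_lit 308) (.leaf p072_l115)))
(.trX (nat_lit 16) (nat_lit 89) (nat_lit 93) (nat_lit 100) (nat_lit 304) (.spl (nat_lit 0) (nat_lit 318)
(.leaf p072_l116)
(.leaf p072_l117))))))
(.leaf p072_l118))))
(.leaf p072_l119))))) (by decide +kernel)
noncomputable def p072_l120 : Lf2 := ⟨nat_lit 0, nat_lit 2, [nat_lit 10, nat_lit 5, nat_lit 5, nat_lit 20], false, nat_lit 240, nat_lit 300, nat_lit 240, nat_lit 300, ⟨nat_lit 1000, nat_lit 0, nat_lit 0, nat_lit 0, nat_lit 0, nat_lit 0, nat_lit 0, nat_lit 0, nat_lit 0, nat_lit 0, nat_lit 0, nat_lit 0, nat_lit 0, nat_lit 0, nat_lit 0, nat_lit 0, false, false⟩,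
 nat_lit 0, nat_lit 10043, nat_lit 0, nat_lit 0, nat_lit 6952, nat_lit 5059, nat_lit 1817, nat_lit 0, nat_lit 0, nat_lit 0, nat_lit 0, nat_lit 0, nat_lit 0, nat_lit 0, nat_lit 0, nat_lit 0, nat_lit 0, nat_lit 0, [],
 ⟨p072_k32, nat_lit 0, nat_lit 0, nat_lit 279, nat_lit 0, nat_lit 738652, [nat_lit 3282000000, nat_lit 4688000000], [], [nat_lit 16867964768, nat_lit 17137311296, nat_lit 16783134272, nat_lit 17062227716, nat_lit 19610905700, nat_lit 19967888289, nat_lit 19469683908, nat_lit 19768405204], nat_lit 1271250, nat_lit 1271250, nat_lit 631250, nat_lit 780000, nat_lit 1271250, nat_lit 1271250, [nat_lit 780000, nat_lit 1100000], [nat_lit 40, nat_lit 40, nat_lit 40, nat_lit 80, nat_lit 22, nat_lit 238, nat_lit 30, nat_lit 9]⟩, ⟨p072_k32, nat_lit 0, nat_lit 0, nat_lit 36, nat_lit 0, nat_lit 0, [nat_lit 3282000000, nat_lit 4688000000], [], [nat_lit 17725179913, nat_lit 18121173464, nat_lit 17749749286, nat_lit 18135588144,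 nat_lit 21540390288, nat_lit 21912891337, nat_lit 21471514291, nat_lit 21800719325], nat_lit 0, nat_lit 0, nat_lit 0, nat_lit 0, nat_lit 0, nat_lit 0, [], [nat_lit 40, nat_lit 40, nat_lit 40, nat_lit 80, nat_lit 22, nat_lit 238, nat_lit 30, nat_lit 9]⟩,
 zbF0, [⟨nat_lit 0, nat_lit 100, nat_lit 100, nat_lit 100, nat_lit 587933860⟩, ⟨nat_lit 16, nat_lit 100, nat_lit 100, nat_lit 100, nat_lit 464621924⟩, ⟨nat_lit 19, nat_lit 100, nat_lit 100, nat_lit 100, nat_lit 557077316⟩]⟩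
noncomputable def p072_l121 : Lf2 := ⟨nat_lit 0, nat_lit 2, [nat_lit 10, nat_lit 5, nat_lit 5, nat_lit 20], true, nat_lit 240, nat_lit 320, nat_lit 240, nat_lit 320, ⟨nat_lit 0, nat_lit 1000, nat_lit 0, nat_lit 7, nat_lit 179, nat_lit 1000, nat_lit 218, nat_lit 0, nat_lit 0, nat_lit 0, nat_lit 0, nat_lit 0, nat_lit 0, nat_lit 0, nat_lit 0, nat_lit 5000000, false, false⟩,
 nat_lit 0, nat_lit 6790, nat_lit 0, nat_lit 0, nat_lit 4700, nat_lit 0, nat_lit 141, nat_lit 0, nat_lit 0, nat_lit 0, nat_lit 0, nat_lit 0, nat_lit 0, nat_lit 0, nat_lit 0, nat_lit 1000000, nat_lit 0, nat_lit 0, [(nat_lit 15, [(nat_lit 2, nat_lit 1000)])],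
 ⟨p072_k32, nat_lit 0, nat_lit 0, nat_lit 222, nat_lit 0, nat_lit 580876, [nat_lit 1981440001, nat_lit 1580800000], [], [nat_lit 18122202903, nat_lit 18223221813, nat_lit 18195129603, nat_lit 18293940445, nat_lit 21634064701, nat_lit 21756729731, nat_lit 21630375804, nat_lit 21716937744], nat_lit 1271250, nat_lit 1271250, nat_lit 631250, nat_lit 780000, nat_lit 1271250, nat_lit 1271250, [nat_lit 780000, nat_lit 1100000], [nat_lit 40, nat_lit 40, nat_lit 40, nat_lit 80, nat_lit 22, nat_lit 238, nat_lit 30, nat_lit 9]⟩, C1.Rw.none,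
 ⟨nat_lit 4949, nat_lit 5000, ⟨.ofNat (nat_lit 428570), .ofNat (nat_lit 464284), .ofNat (nat_lit 430713), .ofNat (nat_lit 466427), .ofNat (nat_lit 429489), .ofNat (nat_lit 465030), .ofNat (nat_lit 431633), .ofNat (nat_lit 467174)⟩, ⟨.ofNat (nat_lit 464284), .ofNat (nat_lit 607141), .ofNat (nat_lit 485713), .ofNat (nat_lit 628570), .ofNat (nat_lit 463885), .ofNat (nat_lit 606049), .ofNat (nat_lit 485324), .ofNat (nat_lit 627488)⟩⟩, [⟨nat_lit 16, nat_lit 97, nat_lit 94, nat_lit 100, nat_lit 113435715⟩, ⟨nat_lit 16, nat_lit 94, nat_lit 88, nat_lit 100, nat_lit 208466829⟩]⟩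
noncomputable def p072_l122 : Lf2 := ⟨nat_lit 0, nat_lit 2, [nat_lit 10, nat_lit 5, nat_lit 5, nat_lit 20], false, nat_lit 240, nat_lit 320, nat_lit 240, nat_lit 320, ⟨nat_lit 1000, nat_lit 0, nat_lit 0, nat_lit 0, nat_lit 0, nat_lit 0, nat_lit 0, nat_lit 0, nat_lit 0, nat_lit 0, nat_lit 0, nat_lit 0, nat_lit 0, nat_lit 0, nat_lit 0, nat_lit 0, false, false⟩,
 nat_lit 0, nat_lit 8883, nat_lit 0, nat_lit 0, nat_lit 6200, nat_lit 4920, nat_lit 1766, nat_lit 0, nat_lit 0, nat_lit 0, nat_lit 0, nat_lit 0, nat_lit 0, nat_lit 0, nat_lit 0, nat_lit 0, nat_lit 0, nat_lit 0, [],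
 ⟨p072_k42, nat_lit 0, nat_lit 0, nat_lit 231, nat_lit 0, nat_lit 590839, [nat_lit 3282000000, nat_lit 4688000000], [], [nat_lit 18655713010, nat_lit 18713517191, nat_lit 18624746171, nat_lit 18681345560, nat_lit 22585914320, nat_lit 22636029080, nat_lit 22468795040, nat_lit 22517584161], nat_lit 1271250, nat_lit 1271250, nat_lit 631250, nat_lit 780000, nat_lit 1271250, nat_lit 1271250, [nat_lit 780000, nat_lit 1100000], [nat_lit 40, nat_lit 40, nat_lit 40, nat_lit 80, nat_lit 22, nat_lit 238, nat_lit 30, nat_lit 9]⟩, ⟨p072_k32, nat_lit 0, nat_lit 0, nat_lit 43, nat_lit 0, nat_lit 0, [nat_lit 3282000000, nat_lit 4688000000], [], [nat_lit 17841869440, nat_lit 18075820636, nat_lit 17877913680, nat_lit 18105898140, nat_lit 22859556520, nat_lit 23047707082, nat_lit 22773510880, nat_lit 22957175321], nat_lit 0, nat_lit 0, nat_lit 0, nat_lit 0, nat_lit 0, nat_lit 0, [], [nat_lit 40, nat_lit 40, nat_lit 40, nat_lit 80, nat_lit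 22, nat_lit 238, nat_lit 30, nat_lit 9]⟩,
 zbF0, [⟨nat_lit 0, nat_lit 97, nat_lit 97, nat_lit 100, nat_lit 303949828⟩, ⟨nat_lit 4, nat_lit 95, nat_lit 96, nat_lit 100, nat_lit 147585382⟩, ⟨nat_lit 7, nat_lit 94, nat_lit 96, nat_lit 100, nat_lit 213691743⟩, ⟨nat_lit 11, nat_lit 95, nat_lit 95, nat_lit 100, nat_lit 360093955⟩]⟩
noncomputable def p072_l123 : Lf2 := ⟨nat_lit 0, nat_lit 2, [nat_lit 10, nat_lit 5, nat_lit 5, nat_lit 20], false, nat_lit 240, nat_lit 316, nat_lit 240, nat_lit 320, ⟨nat_lit 1000, nat_lit 0, nat_lit 0, nat_lit 0, nat_lit 0, nat_lit 0, nat_lit 0, nat_lit 0, nat_lit 0, nat_lit 0, nat_lit 0, nat_lit 0, nat_lit 0, nat_lit 0, nat_lit 0, nat_lit 0, false, false⟩,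
 nat_lit 0, nat_lit 9335, nat_lit 0, nat_lit 0, nat_lit 6542, nat_lit 4909, nat_lit 1677, nat_lit 0, nat_lit 0, nat_lit 0, nat_lit 0, nat_lit 0, nat_lit 0, nat_lit 0, nat_lit 0, nat_lit 0, nat_lit 0, nat_lit 0, [],
 ⟨p072_k43, nat_lit 0, nat_lit 0, nat_lit 245, nat_lit 0, nat_lit 620298, [nat_lit 3282000000, nat_lit 4688000000], [], [nat_lit 17612994341, nat_lit 17732016145, nat_lit 17571649884, nat_lit 17695098062, nat_lit 21447348108, nat_lit 21551406404, nat_lit 21307527619, nat_lit 21408785487], nat_lit 1271250, nat_lit 1271250, nat_lit 631250, nat_lit 780000, nat_lit 1271250, nat_lit 1271250, [nat_lit 780000, nat_lit 1100000], [nat_lit 40, nat_lit 40, nat_lit 40, nat_lit 80, nat_lit 22, nat_lit 238, nat_lit 30, nat_lit 9]⟩, ⟨p072_k32, nat_lit 0, nat_lit 0, nat_lit 43, nat_lit 0, nat_lit 0, [nat_lit 3282000000, nat_lit 4688000000], [], [nat_lit 17851103863, nat_lit 18240541777, nat_lit 17888056186, nat_lit 18267566169,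 nat_lit 22863309929, nat_lit 23176548115, nat_lit 22778370526, nat_lit 23084143994], nat_lit 0, nat_lit 0, nat_lit 0, nat_lit 0, nat_lit 0, nat_lit 0, [], [nat_lit 40, nat_lit 40, nat_lit 40, nat_lit 80, nat_lit 22, nat_lit 238, nat_lit 30, nat_lit 9]⟩,
 zbF0, [⟨nat_lit 0, nat_lit 95, nat_lit 95, nat_lit 100, nat_lit 340266184⟩, ⟨nat_lit 4, nat_lit 95, nat_lit 96, nat_lit 100, nat_lit 170739870⟩, ⟨nat_lit 19, nat_lit 96, nat_lit 95, nat_lit 100, nat_lit 230827667⟩, ⟨nat_lit 11, nat_lit 95, nat_lit 95, nat_lit 100, nat_lit 340471032⟩]⟩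
noncomputable def b_V_700_700_20_48 : St := ⟨true, nat_lit 1, nat_lit 0, nat_lit 2, nat_lit 120, nat_lit 300, nat_lit 305, nat_lit 300, nat_lit 310, nat_lit 100, nat_lit 120, nat_lit 80, nat_lit 120, nat_lit 240, nat_lit 320, nat_lit 240, nat_lit 320, nat_lit 0, nat_lit 8, nat_lit 600, nat_lit 0, nat_lit 0, nat_lit 0⟩
theorem d_V_700_700_20_48 (h : EB TB.env) : Dead b_V_700_700_20_48 := chkB_sound0 h (T :=
(.ord (.spl (nat_lit 3) (nat_lit 100)
(.trX (nat_lit 16) (nat_lit 100) (nat_lit 100) (nat_lit 100) (nat_lit 300) (.trX (nat_lit 19) (nat_lit 100) (nat_lit 100) (nat_lit 100) (nat_lit 300) (.leaf p072_l120)))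
(.spl (nat_lit 0) (nat_lit 303)
(.ord (.spl (nat_lit 0) (nat_lit 302)
(.ord (.leaf p072_l121))
(.leaf p072_l122)))
(.trX (nat_lit 16) (nat_lit 94) (nat_lit 89) (nat_lit 100) (nat_lit 316) (.leaf p072_l123)))))) (by decide +kernel)
noncomputable def p072_l124 : Lf2 := ⟨nat_lit 0, nat_lit 2, [nat_lit 10, nat_lit 5, nat_lit 5, nat_lit 20], false, nat_lit 240, nat_lit 296, nat_lit 240, nat_lit 300, ⟨nat_lit 1000, nat_lit 0, nat_lit 0, nat_lit 0, nat_lit 0, nat_lit 0, nat_lit 0, nat_lit 0, nat_lit 0, nat_lit 0, nat_lit 0, nat_lit 0, nat_lit 0, nat_lit 0, nat_lit 0, nat_lit 0, false, false⟩,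
 nat_lit 0, nat_lit 9829, nat_lit 0, nat_lit 0, nat_lit 6944, nat_lit 5073, nat_lit 1443, nat_lit 0, nat_lit 0, nat_lit 0, nat_lit 0, nat_lit 0, nat_lit 0, nat_lit 0, nat_lit 0, nat_lit 0, nat_lit 0, nat_lit 0, [],
 ⟨p072_k34, nat_lit 0, nat_lit 0, nat_lit 298, nat_lit 0, nat_lit 801118, [nat_lit 3282000000, nat_lit 4688000000], [], [nat_lit 17167271135, nat_lit 17435036840, nat_lit 17093785123, nat_lit 17372883512, nat_lit 19677012773, nat_lit 20037115024, nat_lit 19563170665, nat_lit 19876007548], nat_lit 1271250, nat_lit 1271250, nat_lit 660400, nat_lit 780000, nat_lit 1271250, nat_lit 1271250, [nat_lit 780000, nat_lit 1100000], [nat_lit 40, nat_lit 40, nat_lit 40, nat_lit 80, nat_lit 22, nat_lit 238, nat_lit 30, nat_lit 9]⟩, ⟨p072_k32, nat_lit 0, nat_lit 0, nat_lit 37, nat_lit 0, nat_lit 0, [nat_lit 3282000000, nat_lit 4688000000], [], [nat_lit 17718109738, nat_lit 18507250215, nat_lit 17736840642, nat_lit 18509699747,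 nat_lit 21519825086, nat_lit 22262796219, nat_lit 21463648377, nat_lit 22132170867], nat_lit 0, nat_lit 0, nat_lit 0, nat_lit 0, nat_lit 0, nat_lit 0, [], [nat_lit 40, nat_lit 40, nat_lit 40, nat_lit 80, nat_lit 22, nat_lit 238, nat_lit 30, nat_lit 9]⟩,
 zbF0, [⟨nat_lit 0, nat_lit 98, nat_lit 97, nat_lit 100, nat_lit 642817912⟩, ⟨nat_lit 16, nat_lit 97, nat_lit 100, nat_lit 98, nat_lit 482506839⟩, ⟨nat_lit 19, nat_lit 100, nat_lit 100, nat_lit 100, nat_lit 545247884⟩]⟩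
noncomputable def p072_l125 : Lf2 := ⟨nat_lit 0, nat_lit 1, [nat_lit 19, nat_lit 5, nat_lit 5, nat_lit 20], false, nat_lit 240, nat_lit 316, nat_lit 240, nat_lit 320, ⟨nat_lit 1000, nat_lit 0, nat_lit 0, nat_lit 0, nat_lit 0, nat_lit 0, nat_lit 0, nat_lit 0, nat_lit 0, nat_lit 0, nat_lit 0, nat_lit 0, nat_lit 0, nat_lit 0, nat_lit 0, nat_lit 0, false, false⟩,
 nat_lit 0, nat_lit 9256, nat_lit 0, nat_lit 0, nat_lit 6539, nat_lit 4917, nat_lit 1522, nat_lit 0, nat_lit 0, nat_lit 0, nat_lit 0, nat_lit 0, nat_lit 0, nat_lit 13635880036980, nat_lit 0, nat_lit 0, nat_lit 0, nat_lit 0, [],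
 ⟨p072_k44, nat_lit 0, nat_lit 0, nat_lit 246, nat_lit 0, nat_lit 625990, [nat_lit 3282000000, nat_lit 4688000000], [], [nat_lit 17756233553, nat_lit 17815358956, nat_lit 17709208193, nat_lit 17767024060, nat_lit 21531603207, nat_lit 21583340676, nat_lit 21417694983, nat_lit 21468312680], nat_lit 1271250, nat_lit 1271250, nat_lit 660400, nat_lit 780000, nat_lit 1271250, nat_lit 1271250, [nat_lit 780000, nat_lit 1100000], [nat_lit 40, nat_lit 40, nat_lit 40, nat_lit 80, nat_lit 22, nat_lit 238, nat_lit 30, nat_lit 9]⟩, ⟨p072_k45, nat_lit 0, nat_lit 0, nat_lit 43, nat_lit 0, nat_lit 0, [nat_lit 3282000000, nat_lit 4688000000], [], [nat_lit 17851646299, nat_lit 18317005750, nat_lit 17880679818, nat_lit 18336496845, nat_lit 22843431390, nat_lit 23217825596, nat_lit 22774836238, nat_lit 23142055831], nat_lit 0, nat_lit 0, nat_lit 0, nat_lit 0, nat_lit 0, nat_lit 0, [], [nat_lit 40, nat_lit 40, nat_lit 40, nat_lit 80, nat_lit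 22, nat_lit 238, nat_lit 30, nat_lit 9]⟩,
 zbF0, [⟨nat_lit 0, nat_lit 94, nat_lit 94, nat_lit 100, nat_lit 344676802⟩, ⟨nat_lit 16, nat_lit 95, nat_lit 96, nat_lit 100, nat_lit 167734126⟩, ⟨nat_lit 7, nat_lit 95, nat_lit 96, nat_lit 100, nat_lit 226164447⟩, ⟨nat_lit 11, nat_lit 94, nat_lit 94, nat_lit 100, nat_lit 348121745⟩]⟩
noncomputable def p072_l126 : Lf2 := ⟨nat_lit 0, nat_lit 1, [nat_lit 19, nat_lit 5, nat_lit 5, nat_lit 20], false, nat_lit 240, nat_lit 316, nat_lit 240, nat_lit 320, ⟨nat_lit 1000, nat_lit 0, nat_lit 0, nat_lit 0, nat_lit 0, nat_lit 0, nat_lit 0, nat_lit 0, nat_lit 0, nat_lit 0, nat_lit 0, nat_lit 0, nat_lit 0, nat_lit 0, nat_lit 0, nat_lit 0, false, false⟩,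
 nat_lit 0, nat_lit 9241, nat_lit 0, nat_lit 0, nat_lit 6555, nat_lit 4967, nat_lit 1457, nat_lit 0, nat_lit 0, nat_lit 0, nat_lit 0, nat_lit 0, nat_lit 0, nat_lit 12170250819927, nat_lit 0, nat_lit 0, nat_lit 0, nat_lit 0, [],
 ⟨p072_k46, nat_lit 0, nat_lit 0, nat_lit 250, nat_lit 0, nat_lit 638785, [nat_lit 3282000000, nat_lit 4688000000], [], [nat_lit 17767611496, nat_lit 17826814078, nat_lit 17718401679, nat_lit 17776632242, nat_lit 21561117032, nat_lit 21626949975, nat_lit 21420855295, nat_lit 21471532922], nat_lit 1271250, nat_lit 1271250, nat_lit 660400, nat_lit 780000, nat_lit 1271250, nat_lit 1271250, [nat_lit 780000, nat_lit 1100000], [nat_lit 40, nat_lit 40, nat_lit 40, nat_lit 80, nat_lit 22, nat_lit 238, nat_lit 30, nat_lit 9]⟩, ⟨p072_k45, nat_lit 0, nat_lit 0, nat_lit 43, nat_lit 0, nat_lit 0, [nat_lit 3282000000, nat_lit 4688000000], [], [nat_lit 17808846119, nat_lit 18354803612, nat_lit 17834577518,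 nat_lit 18369317525, nat_lit 22840870087, nat_lit 23324601151, nat_lit 22752746938, nat_lit 23183294822], nat_lit 0, nat_lit 0, nat_lit 0, nat_lit 0, nat_lit 0, nat_lit 0, [], [nat_lit 40, nat_lit 40, nat_lit 40, nat_lit 80, nat_lit 22, nat_lit 238, nat_lit 30, nat_lit 9]⟩,
 zbF0, [⟨nat_lit 0, nat_lit 93, nat_lit 93, nat_lit 100, nat_lit 391035838⟩, ⟨nat_lit 4, nat_lit 96, nat_lit 95, nat_lit 100, nat_lit 168938002⟩, ⟨nat_lit 7, nat_lit 95, nat_lit 96, nat_lit 100, nat_lit 228388024⟩, ⟨nat_lit 11, nat_lit 94, nat_lit 94, nat_lit 100, nat_lit 346418783⟩]⟩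
noncomputable def p072_l127 : Lf2 := ⟨nat_lit 0, nat_lit 1, [nat_lit 19, nat_lit 5, nat_lit 5, nat_lit 20], false, nat_lit 240, nat_lit 316, nat_lit 240, nat_lit 320, ⟨nat_lit 1000, nat_lit 0, nat_lit 0, nat_lit 0, nat_lit 0, nat_lit 0, nat_lit 0, nat_lit 0, nat_lit 0, nat_lit 0, nat_lit 0, nat_lit 0, nat_lit 0, nat_lit 0, nat_lit 0, nat_lit 0, false, false⟩,
 nat_lit 0, nat_lit 9192, nat_lit 0, nat_lit 0, nat_lit 6547, nat_lit 4979, nat_lit 1404, nat_lit 0, nat_lit 0, nat_lit 0, nat_lit 0, nat_lit 0, nat_lit 0, nat_lit 0, nat_lit 0, nat_lit 0, nat_lit 0, nat_lit 0, [],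
 ⟨p072_k47, nat_lit 0, nat_lit 0, nat_lit 246, nat_lit 0, nat_lit 625818, [nat_lit 3282000000, nat_lit 4688000000], [], [nat_lit 17852325782, nat_lit 17911489775, nat_lit 17802425472, nat_lit 17864175274, nat_lit 21637215551, nat_lit 21703004611, nat_lit 21495231650, nat_lit 21545879311], nat_lit 1271250, nat_lit 1271250, nat_lit 660400, nat_lit 780000, nat_lit 1271250, nat_lit 1271250, [nat_lit 780000, nat_lit 1100000], [nat_lit 40, nat_lit 40, nat_lit 40, nat_lit 80, nat_lit 22, nat_lit 238, nat_lit 30, nat_lit 9]⟩, ⟨p072_k45, nat_lit 0, nat_lit 0, nat_lit 42, nat_lit 0, nat_lit 0, [nat_lit 3282000000, nat_lit 4688000000], [], [nat_lit 17798574076, nat_lit 18189064536, nat_lit 17823512966, nat_lit 18205976424, nat_lit 22849441692, nat_lit 23195391267, nat_lit 22747445506, nat_lit 23055343999], nat_lit 0, nat_lit 0, nat_lit 0, nat_lit 0, nat_lit 0, nat_lit 0, [], [nat_lit 40, nat_lit 40, nat_lit 40, nat_lit 80, nat_lit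 22, nat_lit 238, nat_lit 30, nat_lit 9]⟩,
 zbF0, [⟨nat_lit 0, nat_lit 94, nat_lit 93, nat_lit 100, nat_lit 382144622⟩, ⟨nat_lit 4, nat_lit 96, nat_lit 94, nat_lit 100, nat_lit 164496205⟩, ⟨nat_lit 7, nat_lit 95, nat_lit 96, nat_lit 100, nat_lit 225493093⟩, ⟨nat_lit 11, nat_lit 94, nat_lit 94, nat_lit 100, nat_lit 351723865⟩]⟩
noncomputable def p072_l128 : Lf2 := ⟨nat_lit 0, nat_lit 1, [nat_lit 19, nat_lit 5, nat_lit 5, nat_lit 20], true, nat_lit 240, nat_lit 280, nat_lit 240, nat_lit 316, ⟨nat_lit 0, nat_lit 1000, nat_lit 0, nat_lit 7, nat_lit 187, nat_lit 1000, nat_lit 203, nat_lit 0, nat_lit 0, nat_lit 0, nat_lit 0, nat_lit 0, nat_lit 0, nat_lit 0, nat_lit 0, nat_lit 5000000, false, false⟩,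
 nat_lit 0, nat_lit 7275, nat_lit 0, nat_lit 0, nat_lit 5181, nat_lit 0, nat_lit 36, nat_lit 0, nat_lit 0, nat_lit 0, nat_lit 0, nat_lit 0, nat_lit 0, nat_lit 45274912048559, nat_lit 0, nat_lit 1000000, nat_lit 0, nat_lit 0, [(nat_lit 15, [(nat_lit 2, nat_lit 1000)])],
 ⟨p072_k47, nat_lit 0, nat_lit 0, nat_lit 243, nat_lit 0, nat_lit 651382, [nat_lit 1981440001, nat_lit 1580800000], [], [nat_lit 17031432733, nat_lit 17083460011, nat_lit 17043847120, nat_lit 17095326830, nat_lit 18762670240, nat_lit 18822591788, nat_lit 18759732088, nat_lit 18809618218], nat_lit 1271250, nat_lit 1271250, nat_lit 719601, nat_lit 780000, nat_lit 1271250, nat_lit 1271250, [nat_lit 780000, nat_lit 1100000], [nat_lit 40, nat_lit 40, nat_lit 40, nat_lit 80, nat_lit 22, nat_lit 238, nat_lit 30, nat_lit 9]⟩, C1.Rw.none,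
 ⟨nat_lit 4795, nat_lit 4822, ⟨.ofNat (nat_lit 458230), .ofNat (nat_lit 472273), .ofNat (nat_lit 461450), .ofNat (nat_lit 475493), .ofNat (nat_lit 458643), .ofNat (nat_lit 472652), .ofNat (nat_lit 461864), .ofNat (nat_lit 475873)⟩, ⟨.ofNat (nat_lit 462874), .ofNat (nat_lit 533091), .ofNat (nat_lit 484342), .ofNat (nat_lit 554559), .ofNat (nat_lit 462669), .ofNat (nat_lit 532714), .ofNat (nat_lit 484144), .ofNat (nat_lit 554189)⟩⟩, []⟩
noncomputable def p072_l129 : Lf2 := ⟨nat_lit 0, nat_lit 1, [nat_lit 19, nat_lit 5, nat_lit 5, nat_lit 20], false, nat_lit 280, nat_lit 316, nat_lit 240, nat_lit 280, ⟨nat_lit 1000, nat_lit 0, nat_lit 0, nat_lit 0, nat_lit 0, nat_lit 0, nat_lit 0, nat_lit 0, nat_lit 0, nat_lit 0, nat_lit 0, nat_lit 0, nat_lit 0, nat_lit 0, nat_lit 0, nat_lit 0, false, false⟩,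
 nat_lit 0, nat_lit 9182, nat_lit 0, nat_lit 0, nat_lit 6540, nat_lit 5197, nat_lit 1306, nat_lit 0, nat_lit 0, nat_lit 0, nat_lit 0, nat_lit 0, nat_lit 0, nat_lit 10925808793422, nat_lit 0, nat_lit 0, nat_lit 0, nat_lit 0, [],
 ⟨p072_k47, nat_lit 0, nat_lit 0, nat_lit 252, nat_lit 0, nat_lit 651382, [nat_lit 3282000000, nat_lit 4688000000], [], [nat_lit 19813695186, nat_lit 19866654004, nat_lit 19768101167, nat_lit 19823487892, nat_lit 21574073471, nat_lit 21633428718, nat_lit 21515968036, nat_lit 21566589478], nat_lit 1271250, nat_lit 1271250, nat_lit 719601, nat_lit 780000, nat_lit 1271250, nat_lit 1271250, [nat_lit 780000, nat_lit 1100000], [nat_lit 40, nat_lit 40, nat_lit 40, nat_lit 80, nat_lit 22, nat_lit 238, nat_lit 30, nat_lit 9]⟩, ⟨p072_k44, nat_lit 0, nat_lit 0, nat_lit 27, nat_lit 0, nat_lit 0, [nat_lit 3282000000, nat_lit 4688000000], [], [nat_lit 18013042863, nat_lit 18250526912, nat_lit 18014168361,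 nat_lit 18249165214, nat_lit 20520424598, nat_lit 20757969082, nat_lit 20489910473, nat_lit 20701763829], nat_lit 0, nat_lit 0, nat_lit 0, nat_lit 0, nat_lit 0, nat_lit 0, [], [nat_lit 40, nat_lit 40, nat_lit 40, nat_lit 80, nat_lit 22, nat_lit 238, nat_lit 30, nat_lit 9]⟩,
 zbF0, [⟨nat_lit 0, nat_lit 93, nat_lit 93, nat_lit 100, nat_lit 715653022⟩, ⟨nat_lit 16, nat_lit 92, nat_lit 90, nat_lit 100, nat_lit 538710288⟩]⟩
noncomputable def p072_l130 : Lf2 := ⟨nat_lit 0, nat_lit 1, [nat_lit 19, nat_lit 5, nat_lit 5, nat_lit 20], true, nat_lit 280, nat_lit 316, nat_lit 280, nat_lit 316, ⟨nat_lit 0, nat_lit 1000, nat_lit 0, nat_lit 7, nat_lit 185, nat_lit 1000, nat_lit 230, nat_lit 0, nat_lit 0, nat_lit 0, nat_lit 0, nat_lit 0, nat_lit 0, nat_lit 0, nat_lit 0, nat_lit 5000000, false, false⟩,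
 nat_lit 0, nat_lit 42328, nat_lit 0, nat_lit 0, nat_lit 30150, nat_lit 0, nat_lit 3965, nat_lit 1777, nat_lit 0, nat_lit 0, nat_lit 0, nat_lit 0, nat_lit 0, nat_lit 30253873737286, nat_lit 0, nat_lit 1000000, nat_lit 0, nat_lit 0, [(nat_lit 15, [(nat_lit 2, nat_lit 1000)])],
 ⟨p072_k47, nat_lit 0, nat_lit 0, nat_lit 142, nat_lit 0, nat_lit 356385, [nat_lit 23305440000, nat_lit 30012800000], [], [nat_lit 24822561426, nat_lit 25003685470, nat_lit 24429125499, nat_lit 24618365146, nat_lit 30464925273, nat_lit 30657543032, nat_lit 29999996679, nat_lit 30190284840], nat_lit 1271250, nat_lit 1271250, nat_lit 719601, nat_lit 749650, nat_lit 1271250, nat_lit 1271250, [nat_lit 780000, nat_lit 1100000], [nat_lit 40, nat_lit 40, nat_lit 40, nat_lit 80, nat_lit 22, nat_lit 238, nat_lit 30, nat_lit 9]⟩, C1.Rw.none,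
 ⟨nat_lit 4795, nat_lit 4822, ⟨.ofNat (nat_lit 458230), .ofNat (nat_lit 465251), .ofNat (nat_lit 461450), .ofNat (nat_lit 468471), .ofNat (nat_lit 458643), .ofNat (nat_lit 465647), .ofNat (nat_lit 461864), .ofNat (nat_lit 468868)⟩, ⟨.ofNat (nat_lit 533091), .ofNat (nat_lit 596287), .ofNat (nat_lit 554559), .ofNat (nat_lit 617755), .ofNat (nat_lit 532714), .ofNat (nat_lit 595754), .ofNat (nat_lit 554189), .ofNat (nat_lit 617229)⟩⟩, [⟨nat_lit 0, nat_lit 93, nat_lit 93, nat_lit 100, nat_lit 2143471302⟩, ⟨nat_lit 16, nat_lit 92, nat_lit 90, nat_lit 100, nat_lit 1914075226⟩]⟩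
noncomputable def p072_l131 : Lf2 := ⟨nat_lit 0, nat_lit 1, [nat_lit 19, nat_lit 5, nat_lit 5, nat_lit 20], false, nat_lit 280, nat_lit 316, nat_lit 280, nat_lit 316, ⟨nat_lit 1000, nat_lit 0, nat_lit 0, nat_lit 0, nat_lit 0, nat_lit 0, nat_lit 0, nat_lit 0, nat_lit 0, nat_lit 0, nat_lit 0, nat_lit 0, nat_lit 0, nat_lit 0, nat_lit 0, nat_lit 0, false, false⟩,
 nat_lit 0, nat_lit 9183, nat_lit 0, nat_lit 0, nat_lit 6541, nat_lit 4970, nat_lit 1306, nat_lit 0, nat_lit 0, nat_lit 0, nat_lit 0, nat_lit 0, nat_lit 0, nat_lit 14558605105195, nat_lit 0, nat_lit 0, nat_lit 0, nat_lit 0, [],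
 ⟨p072_k47, nat_lit 0, nat_lit 0, nat_lit 250, nat_lit 0, nat_lit 651382, [nat_lit 3282000000, nat_lit 4688000000], [], [nat_lit 19787743180, nat_lit 19840412466, nat_lit 19764931239, nat_lit 19820405942, nat_lit 21542074189, nat_lit 21592979386, nat_lit 21513005695, nat_lit 21563630883], nat_lit 1271250, nat_lit 1271250, nat_lit 749650, nat_lit 780000, nat_lit 1271250, nat_lit 1271250, [nat_lit 780000, nat_lit 1100000], [nat_lit 40, nat_lit 40, nat_lit 40, nat_lit 80, nat_lit 22, nat_lit 238, nat_lit 30, nat_lit 9]⟩, ⟨p072_k44, nat_lit 0, nat_lit 0, nat_lit 38, nat_lit 0, nat_lit 0, [nat_lit 3282000000, nat_lit 4688000000], [], [nat_lit 20644141946, nat_lit 20852107781, nat_lit 20636470980, nat_lit 20843383680, nat_lit 22835305462, nat_lit 23023033162, nat_lit 22816789268, nat_lit 23003598186], nat_lit 0, nat_lit 0, nat_lit 0, nat_lit 0, nat_lit 0, nat_lit 0, [], [nat_lit 40, nat_lit 40, nat_lit 40, nat_lit 80, nat_lit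 22, nat_lit 238, nat_lit 30, nat_lit 9]⟩,
 zbF0, [⟨nat_lit 0, nat_lit 93, nat_lit 93, nat_lit 100, nat_lit 326270121⟩, ⟨nat_lit 16, nat_lit 92, nat_lit 90, nat_lit 100, nat_lit 187369989⟩, ⟨nat_lit 19, nat_lit 93, nat_lit 90, nat_lit 100, nat_lit 247754895⟩, ⟨nat_lit 11, nat_lit 92, nat_lit 92, nat_lit 100, nat_lit 352051635⟩]⟩
noncomputable def p072_l132 : Lf2 := ⟨nat_lit 0, nat_lit 1, [nat_lit 19, nat_lit 5, nat_lit 5, nat_lit 20], false, nat_lit 240, nat_lit 312, nat_lit 240, nat_lit 320, ⟨nat_lit 1000, nat_lit 0, nat_lit 0, nat_lit 0, nat_lit 0, nat_lit 0, nat_lit 0, nat_lit 0, nat_lit 0, nat_lit 0, nat_lit 0, nat_lit 0, nat_lit 0, nat_lit 0, nat_lit 0, nat_lit 0, false, false⟩,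
 nat_lit 0, nat_lit 9177, nat_lit 0, nat_lit 0, nat_lit 6563, nat_lit 4979, nat_lit 1351, nat_lit 0, nat_lit 0, nat_lit 0, nat_lit 0, nat_lit 0, nat_lit 0, nat_lit 0, nat_lit 0, nat_lit 0, nat_lit 0, nat_lit 0, [],
 ⟨p072_k48, nat_lit 0, nat_lit 0, nat_lit 248, nat_lit 0, nat_lit 637636, [nat_lit 3282000000, nat_lit 4688000000], [], [nat_lit 17847050065, nat_lit 17964875745, nat_lit 17812671095, nat_lit 17936335262, nat_lit 21391381829, nat_lit 21524070428, nat_lit 21304548592, nat_lit 21407134775], nat_lit 1271250, nat_lit 1271250, nat_lit 689850, nat_lit 780000, nat_lit 1271250, nat_lit 1271250, [nat_lit 780000, nat_lit 1100000], [nat_lit 40, nat_lit 40, nat_lit 40, nat_lit 80, nat_lit 22, nat_lit 238, nat_lit 30, nat_lit 9]⟩, ⟨p072_k45, nat_lit 0, nat_lit 0, nat_lit 41, nat_lit 0, nat_lit 0, [nat_lit 3282000000, nat_lit 4688000000], [], [nat_lit 17804808799, nat_lit 18193292508, nat_lit 17823512966, nat_lit 18205976424,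 nat_lit 22815953609, nat_lit 23160303581, nat_lit 22747445506, nat_lit 23055343999], nat_lit 0, nat_lit 0, nat_lit 0, nat_lit 0, nat_lit 0, nat_lit 0, [], [nat_lit 40, nat_lit 40, nat_lit 40, nat_lit 80, nat_lit 22, nat_lit 238, nat_lit 30, nat_lit 9]⟩,
 zbF0, [⟨nat_lit 0, nat_lit 94, nat_lit 92, nat_lit 100, nat_lit 383829221⟩, ⟨nat_lit 4, nat_lit 97, nat_lit 94, nat_lit 100, nat_lit 163726996⟩, ⟨nat_lit 7, nat_lit 95, nat_lit 96, nat_lit 100, nat_lit 226997870⟩, ⟨nat_lit 11, nat_lit 94, nat_lit 94, nat_lit 100, nat_lit 350187071⟩]⟩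
noncomputable def p072_l133 : Lf2 := ⟨nat_lit 0, nat_lit 1, [nat_lit 19, nat_lit 5, nat_lit 5, nat_lit 20], false, nat_lit 240, nat_lit 312, nat_lit 240, nat_lit 280, ⟨nat_lit 1000, nat_lit 0, nat_lit 0, nat_lit 0, nat_lit 0, nat_lit 0, nat_lit 0, nat_lit 0, nat_lit 0, nat_lit 0, nat_lit 0, nat_lit 0, nat_lit 0, nat_lit 0, nat_lit 0, nat_lit 0, false, false⟩,
 nat_lit 0, nat_lit 9201, nat_lit 0, nat_lit 0, nat_lit 6580, nat_lit 5189, nat_lit 1346, nat_lit 0, nat_lit 0, nat_lit 0, nat_lit 0, nat_lit 0, nat_lit 0, nat_lit 10047728117146, nat_lit 0, nat_lit 0, nat_lit 0, nat_lit 0, [],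
 ⟨p072_k48, nat_lit 0, nat_lit 0, nat_lit 255, nat_lit 0, nat_lit 663782, [nat_lit 3282000000, nat_lit 4688000000], [], [nat_lit 17785209902, nat_lit 17843875071, nat_lit 17758605452, nat_lit 17819867413, nat_lit 21330382460, nat_lit 21396467970, nat_lit 21254019468, nat_lit 21318509882], nat_lit 1271250, nat_lit 1271250, nat_lit 719601, nat_lit 780000, nat_lit 1271250, nat_lit 1271250, [nat_lit 780000, nat_lit 1100000], [nat_lit 40, nat_lit 40, nat_lit 40, nat_lit 80, nat_lit 22, nat_lit 238, nat_lit 30, nat_lit 9]⟩, ⟨p072_k44, nat_lit 0, nat_lit 0, nat_lit 27, nat_lit 0, nat_lit 0, [nat_lit 3282000000, nat_lit 4688000000], [], [nat_lit 18019812684, nat_lit 18336184181, nat_lit 18021207189, nat_lit 18334266295, nat_lit 20518552791, nat_lit 20833432235, nat_lit 20495075601, nat_lit 20777314581], nat_lit 0, nat_lit 0, nat_lit 0, nat_lit 0, nat_lit 0, nat_lit 0, [], [nat_lit 40, nat_lit 40, nat_lit 40, nat_lit 80, nat_lit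 22, nat_lit 238, nat_lit 30, nat_lit 9]⟩,
 zbF0, [⟨nat_lit 0, nat_lit 92, nat_lit 92, nat_lit 100, nat_lit 743632764⟩, ⟨nat_lit 16, nat_lit 92, nat_lit 91, nat_lit 100, nat_lit 526995126⟩]⟩
noncomputable def p072_l134 : Lf2 := ⟨nat_lit 0, nat_lit 1, [nat_lit 19, nat_lit 5, nat_lit 5, nat_lit 20], false, nat_lit 240, nat_lit 280, nat_lit 280, nat_lit 316, ⟨nat_lit 1000, nat_lit 0, nat_lit 0, nat_lit 0, nat_lit 0, nat_lit 0, nat_lit 0, nat_lit 0, nat_lit 0, nat_lit 0, nat_lit 0, nat_lit 0, nat_lit 0, nat_lit 0, nat_lit 0, nat_lit 0, false, false⟩,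
 nat_lit 0, nat_lit 9557, nat_lit 0, nat_lit 0, nat_lit 6834, nat_lit 4974, nat_lit 1288, nat_lit 0, nat_lit 0, nat_lit 0, nat_lit 0, nat_lit 0, nat_lit 0, nat_lit 0, nat_lit 0, nat_lit 0, nat_lit 0, nat_lit 0, [],
 ⟨p072_k48, nat_lit 0, nat_lit 0, nat_lit 247, nat_lit 0, nat_lit 663782, [nat_lit 3282000000, nat_lit 4688000000], [], [nat_lit 17034263916, nat_lit 17094134249, nat_lit 17000674690, nat_lit 17059866967, nat_lit 18964842582, nat_lit 19022662712, nat_lit 18917394534, nat_lit 18974566014], nat_lit 1271250, nat_lit 1271250, nat_lit 719601, nat_lit 780000, nat_lit 1271250, nat_lit 1271250, [nat_lit 780000, nat_lit 1100000], [nat_lit 40, nat_lit 40, nat_lit 40, nat_lit 80, nat_lit 22, nat_lit 238, nat_lit 30, nat_lit 9]⟩, ⟨p072_k44, nat_lit 0, nat_lit 0, nat_lit 40, nat_lit 0, nat_lit 0, [nat_lit 3282000000, nat_lit 4688000000], [], [nat_lit 20649378937, nat_lit 20928188652, nat_lit 20633888416, nat_lit 20909888096,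 nat_lit 22852243523, nat_lit 23129536516, nat_lit 22815049869, nat_lit 23064227465], nat_lit 0, nat_lit 0, nat_lit 0, nat_lit 0, nat_lit 0, nat_lit 0, [], [nat_lit 40, nat_lit 40, nat_lit 40, nat_lit 80, nat_lit 22, nat_lit 238, nat_lit 30, nat_lit 9]⟩,
 zbF0, [⟨nat_lit 0, nat_lit 94, nat_lit 93, nat_lit 100, nat_lit 687809763⟩, ⟨nat_lit 19, nat_lit 93, nat_lit 90, nat_lit 100, nat_lit 597550310⟩]⟩
noncomputable def p072_l135 : Lf2 := ⟨nat_lit 0, nat_lit 1, [nat_lit 19, nat_lit 5, nat_lit 5, nat_lit 20], true, nat_lit 280, nat_lit 312, nat_lit 280, nat_lit 316, ⟨nat_lit 0, nat_lit 1000, nat_lit 0, nat_lit 7, nat_lit 186, nat_lit 1000, nat_lit 228, nat_lit 0, nat_lit 0, nat_lit 0, nat_lit 0, nat_lit 0, nat_lit 0, nat_lit 0, nat_lit 0, nat_lit 5000000, false, false⟩,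
 nat_lit 0, nat_lit 85854, nat_lit 0, nat_lit 0, nat_lit 61400, nat_lit 0, nat_lit 8392, nat_lit 3951, nat_lit 0, nat_lit 0, nat_lit 0, nat_lit 0, nat_lit 0, nat_lit 0, nat_lit 0, nat_lit 1000000, nat_lit 0, nat_lit 0, [(nat_lit 15, [(nat_lit 2, nat_lit 1000)])],
 ⟨p072_k48, nat_lit 0, nat_lit 0, nat_lit 145, nat_lit 0, nat_lit 362909, [nat_lit 49393440000, nat_lit 64796800000], [], [nat_lit 31164836872, nat_lit 31502763460, nat_lit 30278218537, nat_lit 30633250886, nat_lit 40420619093, nat_lit 40788496049, nat_lit 39398313286, nat_lit 39762257979], nat_lit 1271250, nat_lit 1271250, nat_lit 719601, nat_lit 749650, nat_lit 1271250, nat_lit 1271250, [nat_lit 780000, nat_lit 1100000], [nat_lit 40, nat_lit 40, nat_lit 40, nat_lit 80, nat_lit 22, nat_lit 238, nat_lit 30, nat_lit 9]⟩, C1.Rw.none,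
 ⟨nat_lit 4769, nat_lit 4796, ⟨.ofNat (nat_lit 458643), .ofNat (nat_lit 465647), .ofNat (nat_lit 462938), .ofNat (nat_lit 469942), .ofNat (nat_lit 459057), .ofNat (nat_lit 466044), .ofNat (nat_lit 463353), .ofNat (nat_lit 470340)⟩, ⟨.ofNat (nat_lit 532714), .ofNat (nat_lit 588750), .ofNat (nat_lit 554189), .ofNat (nat_lit 610224), .ofNat (nat_lit 532336), .ofNat (nat_lit 588234), .ofNat (nat_lit 553817), .ofNat (nat_lit 609715)⟩⟩, [⟨nat_lit 0, nat_lit 93, nat_lit 93, nat_lit 100, nat_lit 5628181941⟩, ⟨nat_lit 16, nat_lit 92, nat_lit 91, nat_lit 100, nat_lit 3803446329⟩]⟩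
noncomputable def p072_l136 : Lf2 := ⟨nat_lit 0, nat_lit 1, [nat_lit 19, nat_lit 5, nat_lit 5, nat_lit 20], false, nat_lit 280, nat_lit 312, nat_lit 280, nat_lit 316, ⟨nat_lit 1000, nat_lit 0, nat_lit 0, nat_lit 0, nat_lit 0, nat_lit 0, nat_lit 0, nat_lit 0, nat_lit 0, nat_lit 0, nat_lit 0, nat_lit 0, nat_lit 0, nat_lit 0, nat_lit 0, nat_lit 0, false, false⟩,
 nat_lit 0, nat_lit 9181, nat_lit 0, nat_lit 0, nat_lit 6565, nat_lit 4976, nat_lit 1253, nat_lit 0, nat_lit 0, nat_lit 0, nat_lit 0, nat_lit 0, nat_lit 0, nat_lit 0, nat_lit 0, nat_lit 0, nat_lit 0, nat_lit 0, [],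
 ⟨p072_k48, nat_lit 0, nat_lit 0, nat_lit 248, nat_lit 0, nat_lit 646838, [nat_lit 3282000000, nat_lit 4688000000], [], [nat_lit 19770045187, nat_lit 19822810862, nat_lit 19746580443, nat_lit 19802425040, nat_lit 21327227352, nat_lit 21378812601, nat_lit 21298603990, nat_lit 21349904719], nat_lit 1271250, nat_lit 1271250, nat_lit 749650, nat_lit 780000, nat_lit 1271250, nat_lit 1271250, [nat_lit 780000, nat_lit 1100000], [nat_lit 40, nat_lit 40, nat_lit 40, nat_lit 80, nat_lit 22, nat_lit 238, nat_lit 30, nat_lit 9]⟩, ⟨p072_k44, nat_lit 0, nat_lit 0, nat_lit 38, nat_lit 0, nat_lit 0, [nat_lit 3282000000, nat_lit 4688000000], [], [nat_lit 20640379542, nat_lit 20779111120, nat_lit 20632597134, nat_lit 20770625995, nat_lit 22832817313, nat_lit 22958043931, nat_lit 22814180169, nat_lit 22938793727], nat_lit 0, nat_lit 0, nat_lit 0, nat_lit 0, nat_lit 0, nat_lit 0, [], [nat_lit 40, nat_lit 40, nat_lit 40, nat_lit 80, nat_lit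 22, nat_lit 238, nat_lit 30, nat_lit 9]⟩,
 zbF0, [⟨nat_lit 0, nat_lit 93, nat_lit 92, nat_lit 100, nat_lit 341906017⟩, ⟨nat_lit 16, nat_lit 92, nat_lit 91, nat_lit 100, nat_lit 183045337⟩, ⟨nat_lit 19, nat_lit 93, nat_lit 90, nat_lit 100, nat_lit 247536844⟩, ⟨nat_lit 11, nat_lit 92, nat_lit 92, nat_lit 100, nat_lit 353482531⟩]⟩
noncomputable def p072_l137 : Lf2 := ⟨nat_lit 0, nat_lit 1, [nat_lit 19, nat_lit 5, nat_lit 5, nat_lit 20], false, nat_lit 280, nat_lit 312, nat_lit 280, nat_lit 316, ⟨nat_lit 1000, nat_lit 0, nat_lit 0, nat_lit 0, nat_lit 0, nat_lit 0, nat_lit 0, nat_lit 0, nat_lit 0, nat_lit 0, nat_lit 0, nat_lit 0, nat_lit 0, nat_lit 0, nat_lit 0, nat_lit 0, false, false⟩,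
 nat_lit 0, nat_lit 9181, nat_lit 0, nat_lit 0, nat_lit 6565, nat_lit 4970, nat_lit 1250, nat_lit 0, nat_lit 0, nat_lit 0, nat_lit 0, nat_lit 0, nat_lit 0, nat_lit 0, nat_lit 0, nat_lit 0, nat_lit 0, nat_lit 0, [],
 ⟨p072_k48, nat_lit 0, nat_lit 0, nat_lit 251, nat_lit 0, nat_lit 655299, [nat_lit 3282000000, nat_lit 4688000000], [], [nat_lit 19774038937, nat_lit 19826804612, nat_lit 19750574193, nat_lit 19803045443, nat_lit 21327227352, nat_lit 21378812601, nat_lit 21298603990, nat_lit 21349904719], nat_lit 1271250, nat_lit 1271250, nat_lit 749650, nat_lit 780000, nat_lit 1271250, nat_lit 1271250, [nat_lit 780000, nat_lit 1100000], [nat_lit 40, nat_lit 40, nat_lit 40, nat_lit 80, nat_lit 22, nat_lit 238, nat_lit 30, nat_lit 9]⟩, ⟨p072_k47, nat_lit 0, nat_lit 0, nat_lit 38, nat_lit 0, nat_lit 0, [nat_lit 3282000000, nat_lit 4688000000], [], [nat_lit 20782785836, nat_lit 20852107781, nat_lit 20774412781, nat_lit 20843383680,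 nat_lit 22960457262, nat_lit 23023033162, nat_lit 22941328547, nat_lit 23003598186], nat_lit 0, nat_lit 0, nat_lit 0, nat_lit 0, nat_lit 0, nat_lit 0, [], [nat_lit 40, nat_lit 40, nat_lit 40, nat_lit 80, nat_lit 22, nat_lit 238, nat_lit 30, nat_lit 9]⟩,
 zbF0, [⟨nat_lit 0, nat_lit 92, nat_lit 92, nat_lit 100, nat_lit 363815816⟩, ⟨nat_lit 16, nat_lit 92, nat_lit 91, nat_lit 100, nat_lit 185944348⟩, ⟨nat_lit 19, nat_lit 92, nat_lit 90, nat_lit 100, nat_lit 250298959⟩, ⟨nat_lit 11, nat_lit 92, nat_lit 92, nat_lit 100, nat_lit 350583521⟩]⟩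
noncomputable def p072_l138 : Lf2 := ⟨nat_lit 0, nat_lit 1, [nat_lit 19, nat_lit 5, nat_lit 5, nat_lit 20], false, nat_lit 280, nat_lit 312, nat_lit 280, nat_lit 312, ⟨nat_lit 1000, nat_lit 0, nat_lit 0, nat_lit 0, nat_lit 0, nat_lit 0, nat_lit 0, nat_lit 0, nat_lit 0, nat_lit 0, nat_lit 0, nat_lit 0, nat_lit 0, nat_lit 0, nat_lit 0, nat_lit 0, false, false⟩,
 nat_lit 0, nat_lit 9189, nat_lit 0, nat_lit 0, nat_lit 6571, nat_lit 4365, nat_lit 1250, nat_lit 0, nat_lit 0, nat_lit 0, nat_lit 0, nat_lit 0, nat_lit 0, nat_lit 0, nat_lit 0, nat_lit 0, nat_lit 0, nat_lit 0, [],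
 ⟨p072_k48, nat_lit 0, nat_lit 0, nat_lit 253, nat_lit 0, nat_lit 663782, [nat_lit 3282000000, nat_lit 4688000000], [], [nat_lit 19755133055, nat_lit 19807922827, nat_lit 19731578507, nat_lit 19784073643, nat_lit 21309487615, nat_lit 21369607915, nat_lit 21280770181, nat_lit 21332093826], nat_lit 1271250, nat_lit 1271250, nat_lit 749650, nat_lit 780000, nat_lit 1271250, nat_lit 1271250, [nat_lit 780000, nat_lit 1100000], [nat_lit 40, nat_lit 40, nat_lit 40, nat_lit 80, nat_lit 22, nat_lit 238, nat_lit 30, nat_lit 9]⟩, ⟨p072_k49, nat_lit 0, nat_lit 0, nat_lit 0, nat_lit 0, nat_lit 0, [nat_lit 2637500000, nat_lit 3965500000], [], [nat_lit 20338086242, nat_lit 20404744131, nat_lit 20355670906, nat_lit 20421985311, nat_lit 22318371076, nat_lit 22383924000, nat_lit 22320457038, nat_lit 22381154485], nat_lit 0, nat_lit 0, nat_lit 0, nat_lit 0, nat_lit 0, nat_lit 0, [], [nat_lit 180, nat_lit 40, nat_lit 20, nat_lit 40]⟩,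
 zbF0, [⟨nat_lit 0, nat_lit 92, nat_lit 92, nat_lit 100, nat_lit 351282544⟩, ⟨nat_lit 16, nat_lit 92, nat_lit 91, nat_lit 100, nat_lit 183678805⟩, ⟨nat_lit 19, nat_lit 92, nat_lit 91, nat_lit 100, nat_lit 253489896⟩, ⟨nat_lit 11, nat_lit 92, nat_lit 92, nat_lit 100, nat_lit 352962267⟩]⟩
noncomputable def p072_l139 : Lf2 := ⟨nat_lit 3, nat_lit 1, [nat_lit 19, nat_lit 5, nat_lit 5, nat_lit 20], false, nat_lit 280, nat_lit 312, nat_lit 280, nat_lit 312, zbN0,
 nat_lit 0, nat_lit 0, nat_lit 0, nat_lit 0, nat_lit 0, nat_lit 0, nat_lit 0, nat_lit 0, nat_lit 0, nat_lit 0, nat_lit 0, nat_lit 0, nat_lit 0, nat_lit 0, nat_lit 0, nat_lit 0, nat_lit 0, nat_lit 0, [],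
 C1.Rw.none, ⟨p072_k48, nat_lit 0, nat_lit 0, nat_lit 37, nat_lit 0, nat_lit 0, [], [], [], nat_lit 0, nat_lit 0, nat_lit 0, nat_lit 0, nat_lit 0, nat_lit 0, [], [nat_lit 40, nat_lit 40, nat_lit 40, nat_lit 80, nat_lit 22, nat_lit 238, nat_lit 30, nat_lit 9]⟩,
 zbF0, []⟩
noncomputable def p072_l140 : Lf2 := ⟨nat_lit 0, nat_lit 1, [nat_lit 19, nat_lit 5, nat_lit 5, nat_lit 20], false, nat_lit 240, nat_lit 312, nat_lit 240, nat_lit 316, ⟨nat_lit 1000, nat_lit 0, nat_lit 0, nat_lit 0, nat_lit 0, nat_lit 0, nat_lit 0, nat_lit 0, nat_lit 0, nat_lit 0, nat_lit 0, nat_lit 0, nat_lit 0, nat_lit 0, nat_lit 0, nat_lit 0, false, false⟩,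
 nat_lit 0, nat_lit 9140, nat_lit 0, nat_lit 0, nat_lit 6562, nat_lit 4984, nat_lit 1296, nat_lit 0, nat_lit 0, nat_lit 0, nat_lit 0, nat_lit 0, nat_lit 0, nat_lit 0, nat_lit 0, nat_lit 0, nat_lit 0, nat_lit 0, [],
 ⟨p072_k50, nat_lit 0, nat_lit 0, nat_lit 254, nat_lit 0, nat_lit 659165, [nat_lit 3282000000, nat_lit 4688000000], [], [nat_lit 17908290563, nat_lit 17966870326, nat_lit 17881524513, nat_lit 17939543988, nat_lit 21420381785, nat_lit 21486368202, nat_lit 21358810166, nat_lit 21410099438], nat_lit 1271250, nat_lit 1271250, nat_lit 719601, nat_lit 780000, nat_lit 1271250, nat_lit 1271250, [nat_lit 780000, nat_lit 1100000], [nat_lit 40, nat_lit 40, nat_lit 40, nat_lit 80, nat_lit 22, nat_lit 238, nat_lit 30, nat_lit 9]⟩, ⟨p072_k44, nat_lit 0, nat_lit 0, nat_lit 39, nat_lit 0, nat_lit 0, [nat_lit 3282000000, nat_lit 4688000000], [], [nat_lit 18193289342, nat_lit 18425303909, nat_lit 18201577156, nat_lit 18431181808,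 nat_lit 22858716659, nat_lit 23067112503, nat_lit 22810701371, nat_lit 22997770264], nat_lit 0, nat_lit 0, nat_lit 0, nat_lit 0, nat_lit 0, nat_lit 0, [], [nat_lit 40, nat_lit 40, nat_lit 40, nat_lit 80, nat_lit 22, nat_lit 238, nat_lit 30, nat_lit 9]⟩,
 zbF0, [⟨nat_lit 0, nat_lit 92, nat_lit 91, nat_lit 100, nat_lit 412748899⟩, ⟨nat_lit 16, nat_lit 91, nat_lit 91, nat_lit 100, nat_lit 185999128⟩, ⟨nat_lit 19, nat_lit 93, nat_lit 90, nat_lit 100, nat_lit 246937262⟩, ⟨nat_lit 11, nat_lit 93, nat_lit 93, nat_lit 100, nat_lit 337440878⟩]⟩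
noncomputable def p072_l141 : Lf2 := ⟨nat_lit 0, nat_lit 1, [nat_lit 19, nat_lit 5, nat_lit 5, nat_lit 20], false, nat_lit 240, nat_lit 280, nat_lit 240, nat_lit 312, ⟨nat_lit 1000, nat_lit 0, nat_lit 0, nat_lit 0, nat_lit 0, nat_lit 0, nat_lit 0, nat_lit 0, nat_lit 0, nat_lit 0, nat_lit 0, nat_lit 0, nat_lit 0, nat_lit 0, nat_lit 0, nat_lit 0, false, false⟩,
 nat_lit 0, nat_lit 9519, nat_lit 0, nat_lit 0, nat_lit 6835, nat_lit 5007, nat_lit 1238, nat_lit 0, nat_lit 0, nat_lit 0, nat_lit 0, nat_lit 0, nat_lit 0, nat_lit 0, nat_lit 0, nat_lit 0, nat_lit 0, nat_lit 0, [],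
 ⟨p072_k50, nat_lit 0, nat_lit 0, nat_lit 250, nat_lit 0, nat_lit 675989, [nat_lit 3282000000, nat_lit 4688000000], [], [nat_lit 17082262348, nat_lit 17141798358, nat_lit 17065114918, nat_lit 17124311860, nat_lit 18995551494, nat_lit 19061247048, nat_lit 18971488471, nat_lit 19028664358], nat_lit 1271250, nat_lit 1271250, nat_lit 749650, nat_lit 780000, nat_lit 1271250, nat_lit 1271250, [nat_lit 780000, nat_lit 1100000], [nat_lit 40, nat_lit 40, nat_lit 40, nat_lit 80, nat_lit 22, nat_lit 238, nat_lit 30, nat_lit 9]⟩, ⟨p072_k48, nat_lit 0, nat_lit 0, nat_lit 38, nat_lit 0, nat_lit 0, [nat_lit 3282000000, nat_lit 4688000000], [], [nat_lit 18408979355, nat_lit 18563243381, nat_lit 18411527434, nat_lit 18564985373, nat_lit 22780951990, nat_lit 22921313338, nat_lit 22747318536, nat_lit 22886444147], nat_lit 0, nat_lit 0, nat_lit 0, nat_lit 0, nat_lit 0, nat_lit 0, [], [nat_lit 40, nat_lit 40, nat_lit 40, nat_lit 80, nat_lit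 22, nat_lit 238, nat_lit 30, nat_lit 9]⟩,
 zbF0, [⟨nat_lit 0, nat_lit 92, nat_lit 91, nat_lit 100, nat_lit 749266612⟩, ⟨nat_lit 19, nat_lit 92, nat_lit 91, nat_lit 100, nat_lit 590393558⟩]⟩
noncomputable def p072_l142 : Lf2 := ⟨nat_lit 0, nat_lit 1, [nat_lit 19, nat_lit 5, nat_lit 5, nat_lit 20], false, nat_lit 280, nat_lit 312, nat_lit 240, nat_lit 280, ⟨nat_lit 1000, nat_lit 0, nat_lit 0, nat_lit 0, nat_lit 0, nat_lit 0, nat_lit 0, nat_lit 0, nat_lit 0, nat_lit 0, nat_lit 0, nat_lit 0, nat_lit 0, nat_lit 0, nat_lit 0, nat_lit 0, false, false⟩,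
 nat_lit 0, nat_lit 9152, nat_lit 0, nat_lit 0, nat_lit 6571, nat_lit 5184, nat_lit 1208, nat_lit 0, nat_lit 0, nat_lit 0, nat_lit 0, nat_lit 0, nat_lit 0, nat_lit 10375215603215, nat_lit 0, nat_lit 0, nat_lit 0, nat_lit 0, [],
 ⟨p072_k50, nat_lit 0, nat_lit 0, nat_lit 258, nat_lit 0, nat_lit 675989, [nat_lit 3282000000, nat_lit 4688000000], [], [nat_lit 19807210327, nat_lit 19860475732, nat_lit 19783959783, nat_lit 19839972130, nat_lit 21369607915, nat_lit 21435291165, nat_lit 21332093826, nat_lit 21396121490], nat_lit 1271250, nat_lit 1271250, nat_lit 749650, nat_lit 780000, nat_lit 1271250, nat_lit 1271250, [nat_lit 780000, nat_lit 1100000], [nat_lit 40, nat_lit 40, nat_lit 40, nat_lit 80, nat_lit 22, nat_lit 238, nat_lit 30, nat_lit 9]⟩, ⟨p072_k48, nat_lit 0, nat_lit 0, nat_lit 26, nat_lit 0, nat_lit 0, [nat_lit 3282000000, nat_lit 4688000000], [], [nat_lit 18260734131, nat_lit 18418006792, nat_lit 18260274208,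 nat_lit 18416719376, nat_lit 20723981580, nat_lit 20881347405, nat_lit 20709874216, nat_lit 20852514640], nat_lit 0, nat_lit 0, nat_lit 0, nat_lit 0, nat_lit 0, nat_lit 0, [], [nat_lit 40, nat_lit 40, nat_lit 40, nat_lit 80, nat_lit 22, nat_lit 238, nat_lit 30, nat_lit 9]⟩,
 zbF0, [⟨nat_lit 0, nat_lit 92, nat_lit 92, nat_lit 100, nat_lit 741174237⟩, ⟨nat_lit 16, nat_lit 91, nat_lit 91, nat_lit 100, nat_lit 542538227⟩]⟩
noncomputable def p072_l143 : Lf2 := ⟨nat_lit 0, nat_lit 1, [nat_lit 19, nat_lit 5, nat_lit 5, nat_lit 20], false, nat_lit 280, nat_lit 312, nat_lit 280, nat_lit 312, ⟨nat_lit 1000, nat_lit 0, nat_lit 0, nat_lit 0, nat_lit 0, nat_lit 0, nat_lit 0, nat_lit 0, nat_lit 0, nat_lit 0, nat_lit 0, nat_lit 0, nat_lit 0, nat_lit 0, nat_lit 0, nat_lit 0, false, false⟩,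
 nat_lit 0, nat_lit 9140, nat_lit 0, nat_lit 0, nat_lit 6562, nat_lit 4365, nat_lit 1208, nat_lit 0, nat_lit 0, nat_lit 0, nat_lit 0, nat_lit 0, nat_lit 0, nat_lit 0, nat_lit 0, nat_lit 0, nat_lit 0, nat_lit 0, [],
 ⟨p072_k50, nat_lit 0, nat_lit 0, nat_lit 255, nat_lit 0, nat_lit 667566, [nat_lit 3282000000, nat_lit 4688000000], [], [nat_lit 19835533004, nat_lit 19888286631, nat_lit 19811818843, nat_lit 19867630349, nat_lit 21387670911, nat_lit 21447360987, nat_lit 21358810166, nat_lit 21410099438], nat_lit 1271250, nat_lit 1271250, nat_lit 749650, nat_lit 780000, nat_lit 1271250, nat_lit 1271250, [nat_lit 780000, nat_lit 1100000], [nat_lit 40, nat_lit 40, nat_lit 40, nat_lit 80, nat_lit 22, nat_lit 238, nat_lit 30, nat_lit 9]⟩, ⟨p072_k49, nat_lit 0, nat_lit 0, nat_lit 0, nat_lit 0, nat_lit 0, [nat_lit 2637500000, nat_lit 3965500000], [], [nat_lit 20338086242, nat_lit 20404744131, nat_lit 20355670906, nat_lit 20421985311,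 nat_lit 22318371076, nat_lit 22383924000, nat_lit 22320457038, nat_lit 22381154485], nat_lit 0, nat_lit 0, nat_lit 0, nat_lit 0, nat_lit 0, nat_lit 0, [], [nat_lit 180, nat_lit 40, nat_lit 20, nat_lit 40]⟩,
 zbF0, [⟨nat_lit 0, nat_lit 92, nat_lit 91, nat_lit 100, nat_lit 353334234⟩, ⟨nat_lit 16, nat_lit 91, nat_lit 91, nat_lit 100, nat_lit 183510342⟩, ⟨nat_lit 19, nat_lit 92, nat_lit 91, nat_lit 100, nat_lit 252283889⟩, ⟨nat_lit 11, nat_lit 92, nat_lit 92, nat_lit 100, nat_lit 354168274⟩]⟩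
noncomputable def p072_l144 : Lf2 := ⟨nat_lit 3, nat_lit 1, [nat_lit 19, nat_lit 5, nat_lit 5, nat_lit 20], false, nat_lit 280, nat_lit 312, nat_lit 280, nat_lit 312, zbN0,
 nat_lit 0, nat_lit 0, nat_lit 0, nat_lit 0, nat_lit 0, nat_lit 0, nat_lit 0, nat_lit 0, nat_lit 0, nat_lit 0, nat_lit 0, nat_lit 0, nat_lit 0, nat_lit 0, nat_lit 0, nat_lit 0, nat_lit 0, nat_lit 0, [],
 C1.Rw.none, ⟨p072_k48, nat_lit 0, nat_lit 0, nat_lit 37, nat_lit 0, nat_lit 0, [], [], [], nat_lit 0, nat_lit 0, nat_lit 0, nat_lit 0, nat_lit 0, nat_lit 0, [], [nat_lit 40, nat_lit 40, nat_lit 40, nat_lit 80, nat_lit 22, nat_lit 238, nat_lit 30, nat_lit 9]⟩,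
 zbF0, []⟩
noncomputable def p072_l145 : Lf2 := ⟨nat_lit 0, nat_lit 1, [nat_lit 19, nat_lit 5, nat_lit 5, nat_lit 20], false, nat_lit 280, nat_lit 312, nat_lit 280, nat_lit 312, ⟨nat_lit 1000, nat_lit 0, nat_lit 0, nat_lit 0, nat_lit 0, nat_lit 0, nat_lit 0, nat_lit 0, nat_lit 0, nat_lit 0, nat_lit 0, nat_lit 0, nat_lit 0, nat_lit 0, nat_lit 0, nat_lit 0, false, false⟩,
 nat_lit 0, nat_lit 9140, nat_lit 0, nat_lit 0, nat_lit 6562, nat_lit 4364, nat_lit 1208, nat_lit 0, nat_lit 0, nat_lit 0, nat_lit 0, nat_lit 0, nat_lit 0, nat_lit 0, nat_lit 0, nat_lit 0, nat_lit 0, nat_lit 0, [],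
 ⟨p072_k50, nat_lit 0, nat_lit 0, nat_lit 258, nat_lit 0, nat_lit 675989, [nat_lit 3282000000, nat_lit 4688000000], [], [nat_lit 19835533004, nat_lit 19888286631, nat_lit 19811818843, nat_lit 19867630349, nat_lit 21387670911, nat_lit 21447360987, nat_lit 21358810166, nat_lit 21410099438], nat_lit 1271250, nat_lit 1271250, nat_lit 749650, nat_lit 780000, nat_lit 1271250, nat_lit 1271250, [nat_lit 780000, nat_lit 1100000], [nat_lit 40, nat_lit 40, nat_lit 40, nat_lit 80, nat_lit 22, nat_lit 238, nat_lit 30, nat_lit 9]⟩, ⟨p072_k51, nat_lit 0, nat_lit 0, nat_lit 0, nat_lit 0, nat_lit 0, [nat_lit 2637500000, nat_lit 3965500000], [], [nat_lit 20405291223, nat_lit 20471941512, nat_lit 20422548463, nat_lit 20488855324, nat_lit 22383279151, nat_lit 22448824807, nat_lit 22381504968, nat_lit 22445292102], nat_lit 0, nat_lit 0, nat_lit 0, nat_lit 0, nat_lit 0, nat_lit 0, [], [nat_lit 180, nat_lit 40, nat_lit 20, nat_lit 40]⟩,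
 zbF0, [⟨nat_lit 0, nat_lit 91, nat_lit 91, nat_lit 100, nat_lit 546056372⟩, ⟨nat_lit 16, nat_lit 91, nat_lit 91, nat_lit 100, nat_lit 370728759⟩, ⟨nat_lit 19, nat_lit 91, nat_lit 91, nat_lit 100, nat_lit 441882844⟩, ⟨nat_lit 11, nat_lit 92, nat_lit 92, nat_lit 100, nat_lit 168984839⟩]⟩
noncomputable def p072_l146 : Lf2 := ⟨nat_lit 3, nat_lit 1, [nat_lit 19, nat_lit 5, nat_lit 5, nat_lit 20], false, nat_lit 280, nat_lit 312, nat_lit 280, nat_lit 312, zbN0,
 nat_lit 0, nat_lit 0, nat_lit 0, nat_lit 0, nat_lit 0, nat_lit 0, nat_lit 0, nat_lit 0, nat_lit 0, nat_lit 0, nat_lit 0, nat_lit 0, nat_lit 0, nat_lit 0, nat_lit 0, nat_lit 0, nat_lit 0, nat_lit 0, [],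
 C1.Rw.none, ⟨p072_k50, nat_lit 0, nat_lit 0, nat_lit 38, nat_lit 0, nat_lit 0, [], [], [], nat_lit 0, nat_lit 0, nat_lit 0, nat_lit 0, nat_lit 0, nat_lit 0, [], [nat_lit 40, nat_lit 40, nat_lit 40, nat_lit 80, nat_lit 22, nat_lit 238, nat_lit 30, nat_lit 9]⟩,
 zbF0, []⟩
noncomputable def p072_l147 : Lf2 := ⟨nat_lit 0, nat_lit 2, [nat_lit 10, nat_lit 5, nat_lit 5, nat_lit 20], false, nat_lit 240, nat_lit 316, nat_lit 240, nat_lit 320, ⟨nat_lit 1000, nat_lit 0, nat_lit 0, nat_lit 0, nat_lit 0, nat_lit 0, nat_lit 0, nat_lit 0, nat_lit 0, nat_lit 0, nat_lit 0, nat_lit 0, nat_lit 0, nat_lit 0, nat_lit 0, nat_lit 0, false, false⟩,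
 nat_lit 0, nat_lit 9242, nat_lit 0, nat_lit 0, nat_lit 6530, nat_lit 4949, nat_lit 1341, nat_lit 0, nat_lit 0, nat_lit 0, nat_lit 0, nat_lit 0, nat_lit 0, nat_lit 0, nat_lit 0, nat_lit 0, nat_lit 0, nat_lit 0, [],
 ⟨p072_k34, nat_lit 0, nat_lit 0, nat_lit 245, nat_lit 0, nat_lit 619010, [nat_lit 3282000000, nat_lit 4688000000], [], [nat_lit 17999832373, nat_lit 18295242326, nat_lit 17953297735, nat_lit 18242167105, nat_lit 21557766166, nat_lit 21865346334, nat_lit 21444423473, nat_lit 21697362577], nat_lit 1271250, nat_lit 1271250, nat_lit 660400, nat_lit 780000, nat_lit 1271250, nat_lit 1271250, [nat_lit 780000, nat_lit 1100000], [nat_lit 40, nat_lit 40, nat_lit 40, nat_lit 80, nat_lit 22, nat_lit 238, nat_lit 30, nat_lit 9]⟩, ⟨p072_k32, nat_lit 0, nat_lit 0, nat_lit 44, nat_lit 0, nat_lit 0, [nat_lit 3282000000, nat_lit 4688000000], [], [nat_lit 17824254184, nat_lit 18602630990, nat_lit 17851174346, nat_lit 18613569711,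 nat_lit 22831868753, nat_lit 23517774899, nat_lit 22760699086, nat_lit 23374674621], nat_lit 0, nat_lit 0, nat_lit 0, nat_lit 0, nat_lit 0, nat_lit 0, [], [nat_lit 40, nat_lit 40, nat_lit 40, nat_lit 80, nat_lit 22, nat_lit 238, nat_lit 30, nat_lit 9]⟩,
 zbF0, [⟨nat_lit 0, nat_lit 91, nat_lit 91, nat_lit 100, nat_lit 716789243⟩, ⟨nat_lit 16, nat_lit 93, nat_lit 90, nat_lit 100, nat_lit 179400674⟩, ⟨nat_lit 7, nat_lit 95, nat_lit 95, nat_lit 100, nat_lit 250599018⟩, ⟨nat_lit 11, nat_lit 94, nat_lit 94, nat_lit 100, nat_lit 322894493⟩]⟩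
noncomputable def b_V_700_700_20_49 : St := ⟨true, nat_lit 1, nat_lit 0, nat_lit 2, nat_lit 120, nat_lit 305, nat_lit 310, nat_lit 300, nat_lit 310, nat_lit 100, nat_lit 120, nat_lit 80, nat_lit 120, nat_lit 240, nat_lit 320, nat_lit 240, nat_lit 320, nat_lit 0, nat_lit 8, nat_lit 600, nat_lit 0, nat_lit 0, nat_lit 0⟩
theorem d_V_700_700_20_49 (h : EB TB.env) : Dead b_V_700_700_20_49 := chkB_sound0 h (T :=
(.trZ (nat_lit 0) (nat_lit 98) (nat_lit 97) (nat_lit 100) (nat_lit 104) (.trX (nat_lit 16) (nat_lit 93) (nat_lit 90) (nat_lit 100) (nat_lit 316) (.spl (nat_lit 3) (nat_lit 100)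
(.trX (nat_lit 16) (nat_lit 97) (nat_lit 100) (nat_lit 98) (nat_lit 296) (.trX (nat_lit 19) (nat_lit 100) (nat_lit 100) (nat_lit 100) (nat_lit 300) (.leaf p072_l124)))
(.spl (nat_lit 6) (nat_lit 4)
(.spl (nat_lit 0) (nat_lit 308)
(.ord (.spl (nat_lit 0) (nat_lit 307)
(.ord (.spl (nat_lit 0) (nat_lit 306)
(.ord (.leaf p072_l125))
(.leaf p072_l126)))
(.spl (nat_lit 1) (nat_lit 305)
(.leaf p072_l127)
(.trZ (nat_lit 0) (nat_lit 95) (nat_lit 94) (nat_lit 100) (nat_lit 112) (.trX (nat_lit 19) (nat_lit 93) (nat_lit 90) (nat_lit 100) (nat_lit 316) (.spl (nat_lit 4) (nat_lit 280)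
(.leaf p072_l128)
(.spl (nat_lit 5) (nat_lit 280)
(.leaf p072_l129)
(.spl (nat_lit 2) (nat_lit 116)
(.leaf p072_l130)
(.leaf p072_l131)))))))))
(.trZ (nat_lit 0) (nat_lit 97) (nat_lit 95) (nat_lit 100) (nat_lit 108) (.trX (nat_lit 16) (nat_lit 92) (nat_lit 91) (nat_lit 100) (nat_lit 312) (.spl (nat_lit 1) (nat_lit 305)
(.leaf p072_l132)
(.trZ (nat_lit 0) (nat_lit 94) (nat_lit 93) (nat_lit 100) (nat_lit 112) (.trX (nat_lit 19) (nat_lit 93) (nat_lit 90) (nat_lit 100) (nat_lit 316) (.spl (nat_lit 0) (nat_lit 309)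
(.ord (.spl (nat_lit 5) (nat_lit 280)
(.leaf p072_l133)
(.spl (nat_lit 4) (nat_lit 280)
(.leaf p072_l134)
(.spl (nat_lit 2) (nat_lit 116)
(.leaf p072_l135)
(.spl (nat_lit 1) (nat_lit 307)
(.leaf p072_l136)
(.spl (nat_lit 1) (nat_lit 308)
(.leaf p072_l137)
(.trX (nat_lit 19) (nat_lit 92) (nat_lit 91) (nat_lit 100) (nat_lit 312) (.spl (nat_lit 8) (nat_lit 800)
(.leaf p072_l138)
(.leaf p072_l139)))))))))
(.spl (nat_lit 1) (nat_lit 308)
(.leaf p072_l140)
(.trZ (nat_lit 0) (nat_lit 92) (nat_lit 92) (nat_lit 100) (nat_lit 116) (.trX (nat_lit 19) (nat_lit 92) (nat_lit 91) (nat_lit 100) (nat_lit 312) (.spl (nat_lit 4) (nat_lit 280)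
(.leaf p072_l141)
(.spl (nat_lit 5) (nat_lit 280)
(.leaf p072_l142)
(.spl (nat_lit 1) (nat_lit 309)
(.spl (nat_lit 8) (nat_lit 800)
(.leaf p072_l143)
(.leaf p072_l144))
(.spl (nat_lit 8) (nat_lit 800)
(.leaf p072_l145)
(.leaf p072_l146)))))))))))))))
(.leaf p072_l147)))))) (by decide +kernel)
noncomputable def p072_l148 : Lf2 := ⟨nat_lit 0, nat_lit 5, [nat_lit 4, nat_lit 5, nat_lit 5, nat_lit 20], false, nat_lit 160, nat_lit 320, nat_lit 160, nat_lit 320, ⟨nat_lit 648, nat_lit 352, nat_lit 0, nat_lit 7, nat_lit 180, nat_lit 352, nat_lit 186, nat_lit 0, nat_lit 0, nat_lit 0, nat_lit 0, nat_lit 0, nat_lit 0, nat_lit 0, nat_lit 0, nat_lit 5000000, false, false⟩,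
 nat_lit 0, nat_lit 8160, nat_lit 0, nat_lit 0, nat_lit 5649, nat_lit 3181, nat_lit 1138, nat_lit 0, nat_lit 0, nat_lit 0, nat_lit 0, nat_lit 0, nat_lit 0, nat_lit 22591718366447, nat_lit 0, nat_lit 352000, nat_lit 0, nat_lit 0, [(nat_lit 15, [(nat_lit 2, nat_lit 352)])],
 ⟨p072_k11, nat_lit 0, nat_lit 0, nat_lit 280, nat_lit 0, nat_lit 628823, [nat_lit 2824202880, nat_lit 3638195200, nat_lit 4309072000], [], [nat_lit 16844463832, nat_lit 17128479454, nat_lit 16880888104, nat_lit 17157303107, nat_lit 22250126751, nat_lit 22490132234, nat_lit 23477898692, nat_lit 22829997935], nat_lit 1271250, nat_lit 1271250, nat_lit 631250, nat_lit 780000, nat_lit 1100001, nat_lit 2470000, [nat_lit 780000, nat_lit 1100000, nat_lit 1442500], [nat_lit 59, nat_lit 40, nat_lit 40, nat_lit 80, nat_lit 3, nat_lit 345, nat_lit 125, nat_lit 12]⟩, ⟨p072_k11, nat_lit 0, nat_lit 0, nat_lit 52, nat_lit 0, nat_lit 0, [nat_lit 2126736000, nat_lit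 3037824000, nat_lit 4050000000], [], [nat_lit 9309356093, nat_lit 9607270427, nat_lit 9384630188, nat_lit 9674715791, nat_lit 14815435753, nat_lit 15018413091, nat_lit 14760398238, nat_lit 14958538474], nat_lit 0, nat_lit 0, nat_lit 0, nat_lit 0, nat_lit 0, nat_lit 0, [], [nat_lit 59, nat_lit 40, nat_lit 40, nat_lit 80, nat_lit 3, nat_lit 345, nat_lit 125, nat_lit 12]⟩,
 ⟨nat_lit 4873, nat_lit 5000, ⟨.ofNat (nat_lit 428568), .ofNat (nat_lit 464282), .ofNat (nat_lit 433925), .ofNat (nat_lit 469639), .ofNat (nat_lit 430871), .ofNat (nat_lit 466152), .ofNat (nat_lit 436235), .ofNat (nat_lit 471516)⟩, ⟨.ofNat (nat_lit 299999), .ofNat (nat_lit 585713), .ofNat (nat_lit 342856), .ofNat (nat_lit 628570), .ofNat (nat_lit 300699), .ofNat (nat_lit 582950), .ofNat (nat_lit 343611), .ofNat (nat_lit 625862)⟩⟩, [⟨nat_lit 0, nat_lit 95, nat_lit 95, nat_lit 100, nat_lit 189994768⟩, ⟨nat_lit 4, nat_lit 100, nat_lit 98, nat_lit 99, nat_lit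 228993593⟩, ⟨nat_lit 7, nat_lit 100, nat_lit 98, nat_lit 99, nat_lit 195799478⟩, ⟨nat_lit 11, nat_lit 95, nat_lit 95, nat_lit 100, nat_lit 126996686⟩]⟩
noncomputable def p072_l149 : Lf2 := ⟨nat_lit 0, nat_lit 5, [nat_lit 4, nat_lit 5, nat_lit 5, nat_lit 20], false, nat_lit 160, nat_lit 316, nat_lit 160, nat_lit 320, ⟨nat_lit 1000, nat_lit 0, nat_lit 0, nat_lit 0, nat_lit 0, nat_lit 0, nat_lit 0, nat_lit 0, nat_lit 0, nat_lit 0, nat_lit 0, nat_lit 0, nat_lit 0, nat_lit 0, nat_lit 0, nat_lit 0, false, false⟩,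
 nat_lit 0, nat_lit 8898, nat_lit 0, nat_lit 0, nat_lit 6286, nat_lit 4949, nat_lit 1497, nat_lit 0, nat_lit 0, nat_lit 0, nat_lit 0, nat_lit 0, nat_lit 0, nat_lit 2697803163614, nat_lit 0, nat_lit 0, nat_lit 0, nat_lit 0, [],
 ⟨p072_k37, nat_lit 0, nat_lit 0, nat_lit 316, nat_lit 0, nat_lit 697013, [nat_lit 3282000000, nat_lit 4688000000, nat_lit 6250000000], [], [nat_lit 16429994131, nat_lit 16725654005, nat_lit 16412582858, nat_lit 16701719900, nat_lit 22269882710, nat_lit 22607239156, nat_lit 22315342757, nat_lit 22417412792], nat_lit 1271250, nat_lit 1271250, nat_lit 660400, nat_lit 780000, nat_lit 1100001, nat_lit 2435750, [nat_lit 780000, nat_lit 1100000, nat_lit 1442500], [nat_lit 59, nat_lit 40, nat_lit 40, nat_lit 80, nat_lit 3, nat_lit 345, nat_lit 125, nat_lit 12]⟩, ⟨p072_k11, nat_lit 0, nat_lit 0, nat_lit 53, nat_lit 0, nat_lit 0, [nat_lit 3282000000, nat_lit 4688000000, nat_lit 6250000000], [], [nat_lit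 14346153696, nat_lit 15265178065, nat_lit 14436780236, nat_lit 15336354850, nat_lit 22831868753, nat_lit 23517774899, nat_lit 22760699086, nat_lit 23374674621], nat_lit 0, nat_lit 0, nat_lit 0, nat_lit 0, nat_lit 0, nat_lit 0, [], [nat_lit 59, nat_lit 40, nat_lit 40, nat_lit 80, nat_lit 3, nat_lit 345, nat_lit 125, nat_lit 12]⟩,
 zbF0, [⟨nat_lit 0, nat_lit 91, nat_lit 91, nat_lit 100, nat_lit 580570216⟩, ⟨nat_lit 16, nat_lit 93, nat_lit 90, nat_lit 100, nat_lit 242073869⟩, ⟨nat_lit 19, nat_lit 94, nat_lit 88, nat_lit 100, nat_lit 312901082⟩, ⟨nat_lit 11, nat_lit 94, nat_lit 94, nat_lit 100, nat_lit 193175936⟩]⟩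
noncomputable def b_V_700_700_20_50 : St := ⟨true, nat_lit 1, nat_lit 0, nat_lit 2, nat_lit 120, nat_lit 300, nat_lit 310, nat_lit 300, nat_lit 310, nat_lit 100, nat_lit 120, nat_lit 80, nat_lit 120, nat_lit 160, nat_lit 320, nat_lit 160, nat_lit 320, nat_lit 8, nat_lit 20, nat_lit 600, nat_lit 0, nat_lit 0, nat_lit 0⟩
theorem d_V_700_700_20_50 (h : EB TB.env) : Dead b_V_700_700_20_50 := chkB_sound0 h (T :=
(.spl (nat_lit 0) (nat_lit 305)
(.ord (.leaf p072_l148))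
(.trZ (nat_lit 0) (nat_lit 98) (nat_lit 97) (nat_lit 100) (nat_lit 104) (.trX (nat_lit 16) (nat_lit 93) (nat_lit 90) (nat_lit 100) (nat_lit 316) (.leaf p072_l149))))) (by decide +kernel)

end B2
end Pool.Agent.Lib.MP_6947cd_al
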