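import Pool.Agent.Lib.MP_6947cd_al.ZB.Pre

/-!
Problem MP_6947cd_al (Chollet).  Case B, second entry in [2/5, 17/20]: certificates of the tree, part P073 (generated).
-/

set_option autoImplicit false
set_option linter.all false

namespace Pool.Agent.Lib.MP_6947cd_al
namespace B2

open Ent Fr B1 PkA

noncomputable def p073_k0 : C1.Kn := ⟨[nat_lit 60, nat_lit 80], [nat_lit 0, nat_lit 304], [(nat_lit 0, nat_lit 0, nat_lit 0), (nat_lit 1000, nat_lit 905, nat_lit 238)], (nat_lit 89, nat_lit 100, nat_lit 29)⟩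
noncomputable def p073_k1 : C1.Kn := ⟨[nat_lit 60, nat_lit 80], [nat_lit 0, nat_lit 349], [(nat_lit 0, nat_lit 0, nat_lit 0), (nat_lit 1000, nat_lit 891, nat_lit 272)], (nat_lit 89, nat_lit 100, nat_lit 29)⟩
noncomputable def p073_k2 : C1.Kn := ⟨[nat_lit 60, nat_lit 80], [nat_lit 0, nat_lit 365], [(nat_lit 0, nat_lit 0, nat_lit 0), (nat_lit 1000, nat_lit 886, nat_lit 285)], (nat_lit 88, nat_lit 100, nat_lit 29)⟩
noncomputable def p073_k3 : C1.Kn := ⟨[nat_lit 60, nat_lit 80], [nat_lit 0, nat_lit 379], [(nat_lit 0, nat_lit 0, nat_lit 0), (nat_lit 1000, nat_lit 882, nat_lit 294)], (nat_lit 88, nat_lit 100, nat_lit 29)⟩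
noncomputable def p073_k4 : C1.Kn := ⟨[nat_lit 60, nat_lit 80], [nat_lit 0, nat_lit 379], [(nat_lit 0, nat_lit 0, nat_lit 0), (nat_lit 1000, nat_lit 882, nat_lit 294)], (nat_lit 91, nat_lit 100, nat_lit 21)⟩
noncomputable def p073_k5 : C1.Kn := ⟨[nat_lit 60, nat_lit 80], [nat_lit 0, nat_lit 304], [(nat_lit 0, nat_lit 0, nat_lit 0), (nat_lit 1000, nat_lit 905, nat_lit 238)], (nat_lit 91, nat_lit 100, nat_lit 21)⟩
noncomputable def p073_k6 : C1.Kn := ⟨[nat_lit 60, nat_lit 80], [nat_lit 0, nat_lit 410], [(nat_lit 0, nat_lit 0, nat_lit 0), (nat_lit 1000, nat_lit 872, nat_lit 319)], (nat_lit 90, nat_lit 100, nat_lit 21)⟩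
noncomputable def p073_k7 : C1.Kn := ⟨[nat_lit 60, nat_lit 80], [nat_lit 0, nat_lit 426], [(nat_lit 0, nat_lit 0, nat_lit 0), (nat_lit 1000, nat_lit 867, nat_lit 332)], (nat_lit 90, nat_lit 100, nat_lit 21)⟩
noncomputable def p073_k8 : C1.Kn := ⟨[nat_lit 60, nat_lit 80], [nat_lit 0, nat_lit 441], [(nat_lit 0, nat_lit 0, nat_lit 0), (nat_lit 1000, nat_lit 862, nat_lit 345)], (nat_lit 90, nat_lit 100, nat_lit 21)⟩
noncomputable def p073_k9 : C1.Kn := ⟨[nat_lit 50, nat_lit 70], [nat_lit 0, nat_lit 134], [(nat_lit 0, nat_lit 0, nat_lit 0), (nat_lit 1000, nat_lit 947, nat_lit 105)], (nat_lit 90, nat_lit 100, nat_lit 21)⟩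
noncomputable def p073_k10 : C1.Kn := ⟨[nat_lit 50, nat_lit 70], [nat_lit 0, nat_lit 153], [(nat_lit 0, nat_lit 0, nat_lit 0), (nat_lit 1000, nat_lit 940, nat_lit 120)], (nat_lit 90, nat_lit 100, nat_lit 21)⟩
noncomputable def p073_k11 : C1.Kn := ⟨[nat_lit 60, nat_lit 80, nat_lit 100], [nat_lit 0, nat_lit 304, nat_lit 825], [(nat_lit 0, nat_lit 0, nat_lit 0), (nat_lit 1000, nat_lit 905, nat_lit 238), (nat_lit 1000, nat_lit 871, nat_lit 407)], (nat_lit 87, nat_lit 100, nat_lit 44)⟩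
noncomputable def p073_k12 : C1.Kn := ⟨[nat_lit 60, nat_lit 80, nat_lit 100], [nat_lit 0, nat_lit 379, nat_lit 901], [(nat_lit 0, nat_lit 0, nat_lit 0), (nat_lit 1000, nat_lit 882, nat_lit 294), (nat_lit 1000, nat_lit 859, nat_lit 408)], (nat_lit 86, nat_lit 100, nat_lit 44)⟩
noncomputable def p073_k13 : C1.Kn := ⟨[nat_lit 60, nat_lit 80, nat_lit 100], [nat_lit 0, nat_lit 456, nat_lit 976], [(nat_lit 0, nat_lit 0, nat_lit 0), (nat_lit 1000, nat_lit 859, nat_lit 351), (nat_lit 1000, nat_lit 848, nat_lit 406)], (nat_lit 84, nat_lit 100, nat_lit 44)⟩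
noncomputable def p073_k14 : C1.Kn := ⟨[nat_lit 60, nat_lit 80], [nat_lit 0, nat_lit 456], [(nat_lit 0, nat_lit 0, nat_lit 0), (nat_lit 1000, nat_lit 859, nat_lit 351)], (nat_lit 87, nat_lit 100, nat_lit 29)⟩
noncomputable def p073_k15 : C1.Kn := ⟨[nat_lit 60, nat_lit 80], [nat_lit 0, nat_lit 456], [(nat_lit 0, nat_lit 0, nat_lit 0), (nat_lit 1000, nat_lit 859, nat_lit 351)], (nat_lit 90, nat_lit 100, nat_lit 21)⟩
noncomputable def p073_k16 : C1.Kn := ⟨[nat_lit 60, nat_lit 80], [nat_lit 0, nat_lit 533], [(nat_lit 0, nat_lit 0, nat_lit 0), (nat_lit 1000, nat_lit 837, nat_lit 397)], (nat_lit 89, nat_lit 100, nat_lit 22)⟩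
noncomputable def p073_k17 : C1.Kn := ⟨[nat_lit 60, nat_lit 80, nat_lit 120], [nat_lit 0, nat_lit 456, nat_lit 1495], [(nat_lit 0, nat_lit 0, nat_lit 0), (nat_lit 1000, nat_lit 859, nat_lit 351), (nat_lit 1000, nat_lit 848, nat_lit 406)], (nat_lit 84, nat_lit 100, nat_lit 60)⟩
noncomputable def p073_k18 : C1.Kn := ⟨[nat_lit 60, nat_lit 80, nat_lit 120], [nat_lit 0, nat_lit 304, nat_lit 1346], [(nat_lit 0, nat_lit 0, nat_lit 0), (nat_lit 1000, nat_lit 905, nat_lit 238), (nat_lit 1000, nat_lit 871, nat_lit 407)], (nat_lit 87, nat_lit 100, nat_lit 60)⟩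
noncomputable def p073_k19 : C1.Kn := ⟨[nat_lit 60, nat_lit 100, nat_lit 120], [nat_lit 0, nat_lit 909, nat_lit 1866], [(nat_lit 0, nat_lit 0, nat_lit 0), (nat_lit 1000, nat_lit 858, nat_lit 354), (nat_lit 1000, nat_lit 849, nat_lit 705)], (nat_lit 84, nat_lit 100, nat_lit 60)⟩
noncomputable def p073_k20 : C1.Kn := ⟨[nat_lit 60, nat_lit 80, nat_lit 120], [nat_lit 0, nat_lit 533, nat_lit 1600], [(nat_lit 0, nat_lit 0, nat_lit 0), (nat_lit 1000, nat_lit 837, nat_lit 397), (nat_lit 1000, nat_lit 833, nat_lit 417)], (nat_lit 82, nat_lit 100, nat_lit 60)⟩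
noncomputable def p073_k21 : C1.Kn := ⟨[nat_lit 60, nat_lit 100], [nat_lit 0, nat_lit 909], [(nat_lit 0, nat_lit 0, nat_lit 0), (nat_lit 1000, nat_lit 858, nat_lit 354)], (nat_lit 84, nat_lit 100, nat_lit 44)⟩
noncomputable def p073_k22 : C1.Kn := ⟨[nat_lit 60, nat_lit 80], [nat_lit 0, nat_lit 487], [(nat_lit 0, nat_lit 0, nat_lit 0), (nat_lit 1000, nat_lit 849, nat_lit 376)], (nat_lit 90, nat_lit 100, nat_lit 22)⟩
noncomputable def p073_k23 : C1.Kn := ⟨[nat_lit 60, nat_lit 80], [nat_lit 0, nat_lit 502], [(nat_lit 0, nat_lit 0, nat_lit 0), (nat_lit 1000, nat_lit 845, nat_lit 382)], (nat_lit 87, nat_lit 100, nat_lit 29)⟩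
noncomputable def p073_k24 : C1.Kn := ⟨[nat_lit 60, nat_lit 80], [nat_lit 0, nat_lit 518], [(nat_lit 0, nat_lit 0, nat_lit 0), (nat_lit 1000, nat_lit 839, nat_lit 398)], (nat_lit 87, nat_lit 100, nat_lit 30)⟩
noncomputable def p073_k25 : C1.Kn := ⟨[nat_lit 60, nat_lit 80], [nat_lit 0, nat_lit 533], [(nat_lit 0, nat_lit 0, nat_lit 0), (nat_lit 1000, nat_lit 837, nat_lit 397)], (nat_lit 86, nat_lit 100, nat_lit 30)⟩
noncomputable def p073_k26 : C1.Kn := ⟨[nat_lit 60, nat_lit 120], [nat_lit 0, nat_lit 1362], [(nat_lit 0, nat_lit 0, nat_lit 0), (nat_lit 1000, nat_lit 858, nat_lit 354)], (nat_lit 84, nat_lit 100, nat_lit 60)⟩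
noncomputable def p073_k27 : C1.Kn := ⟨[nat_lit 60, nat_lit 80, nat_lit 140], [nat_lit 0, nat_lit 0, nat_lit 1595], [(nat_lit 0, nat_lit 0, nat_lit 0), (nat_lit 0, nat_lit 0, nat_lit 0), (nat_lit 1000, nat_lit 917, nat_lit 415)], (nat_lit 94, nat_lit 100, nat_lit 62)⟩
noncomputable def p073_k28 : C1.Kn := ⟨[nat_lit 60, nat_lit 80, nat_lit 140], [nat_lit 0, nat_lit 75, nat_lit 1666], [(nat_lit 0, nat_lit 0, nat_lit 0), (nat_lit 1000, nat_lit 977, nat_lit 59), (nat_lit 1000, nat_lit 905, nat_lit 414)], (nat_lit 92, nat_lit 100, nat_lit 61)⟩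
noncomputable def p073_k29 : C1.Kn := ⟨[nat_lit 60, nat_lit 80, nat_lit 120], [nat_lit 0, nat_lit 151, nat_lit 1205], [(nat_lit 0, nat_lit 0, nat_lit 0), (nat_lit 1000, nat_lit 953, nat_lit 118), (nat_lit 1000, nat_lit 894, nat_lit 411)], (nat_lit 91, nat_lit 100, nat_lit 61)⟩
noncomputable def p073_k30 : C1.Kn := ⟨[nat_lit 60, nat_lit 80, nat_lit 120], [nat_lit 0, nat_lit 228, nat_lit 1272], [(nat_lit 0, nat_lit 0, nat_lit 0), (nat_lit 1000, nat_lit 929, nat_lit 178), (nat_lit 1000, nat_lit 883, nat_lit 407)], (nat_lit 89, nat_lit 100, nat_lit 61)⟩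
noncomputable def p073_k31 : C1.Kn := ⟨[nat_lit 60, nat_lit 120], [nat_lit 0, nat_lit 913], [(nat_lit 0, nat_lit 0, nat_lit 0), (nat_lit 1000, nat_lit 905, nat_lit 238)], (nat_lit 87, nat_lit 100, nat_lit 60)⟩
noncomputable def p073_k32 : C1.Kn := ⟨[nat_lit 60, nat_lit 140], [nat_lit 0, nat_lit 0], [(nat_lit 0, nat_lit 0, nat_lit 0), (nat_lit 0, nat_lit 0, nat_lit 0)], (nat_lit 94, nat_lit 100, nat_lit 62)⟩
noncomputable def p073_k33 : C1.Kn := ⟨[nat_lit 60, nat_lit 100, nat_lit 140], [nat_lit 0, nat_lit 0, nat_lit 2047], [(nat_lit 0, nat_lit 0, nat_lit 0), (nat_lit 0, nat_lit 0, nat_lit 0), (nat_lit 1000, nat_lit 993, nat_lit 781)], (nat_lit 94, nat_lit 100, nat_lit 62)⟩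
noncomputable def p073_k34 : C1.Kn := ⟨[nat_lit 60, nat_lit 100, nat_lit 120], [nat_lit 0, nat_lit 609, nat_lit 1609], [(nat_lit 0, nat_lit 0, nat_lit 0), (nat_lit 1000, nat_lit 905, nat_lit 238), (nat_lit 1000, nat_lit 882, nat_lit 668)], (nat_lit 87, nat_lit 100, nat_lit 60)⟩
noncomputable def p073_k35 : C1.Kn := ⟨[nat_lit 60, nat_lit 100, nat_lit 160], [nat_lit 0, nat_lit 0, nat_lit 3069], [(nat_lit 0, nat_lit 0, nat_lit 0), (nat_lit 0, nat_lit 0, nat_lit 0), (nat_lit 1000, nat_lit 999, nat_lit 798)], (nat_lit 100, nat_lit 95, nat_lit 87)⟩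
noncomputable def p073_k36 : C1.Kn := ⟨[nat_lit 60, nat_lit 100, nat_lit 140], [nat_lit 0, nat_lit 609, nat_lit 2558], [(nat_lit 0, nat_lit 0, nat_lit 0), (nat_lit 1000, nat_lit 905, nat_lit 238), (nat_lit 1000, nat_lit 904, nat_lit 760)], (nat_lit 94, nat_lit 100, nat_lit 87)⟩
noncomputable def p073_k37 : C1.Kn := ⟨[nat_lit 60, nat_lit 100, nat_lit 160], [nat_lit 0, nat_lit 0, nat_lit 3069], [(nat_lit 0, nat_lit 0, nat_lit 0), (nat_lit 0, nat_lit 0, nat_lit 0), (nat_lit 1000, nat_lit 999, nat_lit 798)], (nat_lit 100, nat_lit 99, nat_lit 82)⟩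
noncomputable def p073_k38 : C1.Kn := ⟨[nat_lit 60, nat_lit 80, nat_lit 140], [nat_lit 0, nat_lit 151, nat_lit 1731], [(nat_lit 0, nat_lit 0, nat_lit 0), (nat_lit 1000, nat_lit 953, nat_lit 118), (nat_lit 1000, nat_lit 894, nat_lit 411)], (nat_lit 92, nat_lit 100, nat_lit 67)⟩
noncomputable def p073_k39 : C1.Kn := ⟨[nat_lit 60, nat_lit 80, nat_lit 140], [nat_lit 0, nat_lit 0, nat_lit 1595], [(nat_lit 0, nat_lit 0, nat_lit 0), (nat_lit 0, nat_lit 0, nat_lit 0), (nat_lit 1000, nat_lit 917, nat_lit 415)], (nat_lit 96, nat_lit 100, nat_lit 68)⟩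
noncomputable def p073_k40 : C1.Kn := ⟨[nat_lit 60, nat_lit 100, nat_lit 140], [nat_lit 0, nat_lit 609, nat_lit 2558], [(nat_lit 0, nat_lit 0, nat_lit 0), (nat_lit 1000, nat_lit 905, nat_lit 238), (nat_lit 1000, nat_lit 904, nat_lit 760)], (nat_lit 91, nat_lit 100, nat_lit 79)⟩
noncomputable def p073_k41 : C1.Kn := ⟨[nat_lit 60, nat_lit 100, nat_lit 160], [nat_lit 0, nat_lit 302, nat_lit 3303], [(nat_lit 0, nat_lit 0, nat_lit 0), (nat_lit 1000, nat_lit 953, nat_lit 118), (nat_lit 1000, nat_lit 952, nat_lit 781)], (nat_lit 100, nat_lit 100, nat_lit 89)⟩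
noncomputable def p073_k42 : C1.Kn := ⟨[nat_lit 60, nat_lit 140], [nat_lit 0, nat_lit 1218], [(nat_lit 0, nat_lit 0, nat_lit 0), (nat_lit 1000, nat_lit 905, nat_lit 238)], (nat_lit 94, nat_lit 100, nat_lit 87)⟩
noncomputable def p073_k43 : C1.Kn := ⟨[nat_lit 60, nat_lit 100, nat_lit 140], [nat_lit 0, nat_lit 0, nat_lit 2047], [(nat_lit 0, nat_lit 0, nat_lit 0), (nat_lit 0, nat_lit 0, nat_lit 0), (nat_lit 1000, nat_lit 993, nat_lit 781)], (nat_lit 98, nat_lit 100, nat_lit 74)⟩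
noncomputable def p073_k44 : C1.Kn := ⟨[nat_lit 60, nat_lit 100, nat_lit 140], [nat_lit 0, nat_lit 302, nat_lit 2304], [(nat_lit 0, nat_lit 0, nat_lit 0), (nat_lit 1000, nat_lit 953, nat_lit 118), (nat_lit 1000, nat_lit 952, nat_lit 781)], (nat_lit 93, nat_lit 100, nat_lit 73)⟩
noncomputable def p073_k45 : C1.Kn := ⟨[nat_lit 60, nat_lit 100, nat_lit 140], [nat_lit 0, nat_lit 909, nat_lit 2819], [(nat_lit 0, nat_lit 0, nat_lit 0), (nat_lit 1000, nat_lit 858, nat_lit 354), (nat_lit 1000, nat_lit 858, nat_lit 746)], (nat_lit 89, nat_lit 100, nat_lit 85)⟩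
noncomputable def p073_k46 : C1.Kn := ⟨[nat_lit 60, nat_lit 80, nat_lit 140], [nat_lit 0, nat_lit 304, nat_lit 1867], [(nat_lit 0, nat_lit 0, nat_lit 0), (nat_lit 1000, nat_lit 905, nat_lit 238), (nat_lit 1000, nat_lit 871, nat_lit 407)], (nat_lit 94, nat_lit 100, nat_lit 87)⟩
noncomputable def p073_l0 : Lf2 := ⟨nat_lit 0, nat_lit 2, [nat_lit 10, nat_lit 5, nat_lit 5, nat_lit 20], false, nat_lit 240, nat_lit 320, nat_lit 160, nat_lit 320, ⟨nat_lit 1000, nat_lit 0, nat_lit 0, nat_lit 0, nat_lit 0, nat_lit 0, nat_lit 0, nat_lit 0, nat_lit 0, nat_lit 0, nat_lit 0, nat_lit 0, nat_lit 0, nat_lit 0, nat_lit 0, nat_lit 0, false, false⟩,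
 nat_lit 0, nat_lit 8481, nat_lit 0, nat_lit 0, nat_lit 5871, nat_lit 4991, nat_lit 3900, nat_lit 0, nat_lit 0, nat_lit 0, nat_lit 0, nat_lit 0, nat_lit 0, nat_lit 0, nat_lit 0, nat_lit 0, nat_lit 0, nat_lit 0, [],
 ⟨p073_k0, nat_lit 0, nat_lit 0, nat_lit 220, nat_lit 0, nat_lit 597638, [nat_lit 3282000000, nat_lit 4688000000], [], [nat_lit 19574039608, nat_lit 19748859822, nat_lit 21989918856, nat_lit 22130311066, nat_lit 23349750314, nat_lit 23492493312, nat_lit 25513580768, nat_lit 25690913781], nat_lit 1271250, nat_lit 1271250, nat_lit 780000, nat_lit 1762500, nat_lit 1271250, nat_lit 1271250, [nat_lit 780000, nat_lit 1100000], [nat_lit 40, nat_lit 40, nat_lit 40, nat_lit 80, nat_lit 22, nat_lit 272, nat_lit 60, nat_lit 11]⟩, ⟨p073_k0, nat_lit 0, nat_lit 0, nat_lit 37, nat_lit 0, nat_lit 0, [nat_lit 3282000000, nat_lit 4688000000], [], [nat_lit 14388881924, nat_lit 14660090992, nat_lit 18458534912, nat_lit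 18674360200, nat_lit 22742144074, nat_lit 22927101744, nat_lit 25077269728, nat_lit 25241603381], nat_lit 0, nat_lit 0, nat_lit 0, nat_lit 0, nat_lit 0, nat_lit 0, [], [nat_lit 40, nat_lit 40, nat_lit 40, nat_lit 80, nat_lit 22, nat_lit 272, nat_lit 60, nat_lit 11]⟩,
 zbF0, [⟨nat_lit 4, nat_lit 94, nat_lit 96, nat_lit 100, nat_lit 164926311⟩, ⟨nat_lit 7, nat_lit 94, nat_lit 96, nat_lit 100, nat_lit 169994197⟩, ⟨nat_lit 11, nat_lit 75, nat_lit 75, nat_lit 100, nat_lit 426204493⟩]⟩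
noncomputable def p073_l1 : Lf2 := ⟨nat_lit 0, nat_lit 2, [nat_lit 10, nat_lit 5, nat_lit 5, nat_lit 20], false, nat_lit 240, nat_lit 316, nat_lit 160, nat_lit 320, ⟨nat_lit 1000, nat_lit 0, nat_lit 0, nat_lit 0, nat_lit 0, nat_lit 0, nat_lit 0, nat_lit 0, nat_lit 0, nat_lit 0, nat_lit 0, nat_lit 0, nat_lit 0, nat_lit 0, nat_lit 0, nat_lit 0, false, false⟩,
 nat_lit 0, nat_lit 8409, nat_lit 0, nat_lit 0, nat_lit 5893, nat_lit 4985, nat_lit 1700, nat_lit 0, nat_lit 0, nat_lit 0, nat_lit 0, nat_lit 0, nat_lit 0, nat_lit 25928884471669, nat_lit 0, nat_lit 0, nat_lit 0, nat_lit 0, [],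
 ⟨p073_k1, nat_lit 0, nat_lit 0, nat_lit 222, nat_lit 0, nat_lit 603915, [nat_lit 3282000000, nat_lit 4688000000], [], [nat_lit 19681229023, nat_lit 19736030782, nat_lit 20129291523, nat_lit 20184093282, nat_lit 23239810522, nat_lit 23288008545, nat_lit 23469268287, nat_lit 23514558946], nat_lit 1271250, nat_lit 1271250, nat_lit 780000, nat_lit 1100001, nat_lit 1271250, nat_lit 1271250, [nat_lit 780000, nat_lit 1100000], [nat_lit 40, nat_lit 40, nat_lit 40, nat_lit 80, nat_lit 22, nat_lit 249, nat_lit 40, nat_lit 10]⟩, ⟨p073_k0, nat_lit 0, nat_lit 0, nat_lit 37, nat_lit 0, nat_lit 0, [nat_lit 3282000000, nat_lit 4688000000], [], [nat_lit 14395724540, nat_lit 14757082024, nat_lit 15260986830, nat_lit 15599778361, nat_lit 22744794790, nat_lit 22991259301, nat_lit 23097668310, nat_lit 23329888472], nat_lit 0, nat_lit 0, nat_lit 0, nat_lit 0, nat_lit 0, nat_lit 0, [], [nat_lit 40, nat_lit 40, nat_lit 40, nat_lit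 80, nat_lit 22, nat_lit 249, nat_lit 40, nat_lit 10]⟩,
 zbF0, [⟨nat_lit 16, nat_lit 96, nat_lit 95, nat_lit 100, nat_lit 162339457⟩, ⟨nat_lit 7, nat_lit 94, nat_lit 96, nat_lit 100, nat_lit 167650498⟩, ⟨nat_lit 11, nat_lit 85, nat_lit 85, nat_lit 100, nat_lit 377503916⟩]⟩
noncomputable def p073_l2 : Lf2 := ⟨nat_lit 0, nat_lit 2, [nat_lit 10, nat_lit 5, nat_lit 5, nat_lit 20], false, nat_lit 240, nat_lit 316, nat_lit 160, nat_lit 320, ⟨nat_lit 1000, nat_lit 0, nat_lit 0, nat_lit 0, nat_lit 0, nat_lit 0, nat_lit 0, nat_lit 0, nat_lit 0, nat_lit 0, nat_lit 0, nat_lit 0, nat_lit 0, nat_lit 0, nat_lit 0, nat_lit 0, false, false⟩,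
 nat_lit 0, nat_lit 8364, nat_lit 0, nat_lit 0, nat_lit 5885, nat_lit 4979, nat_lit 1623, nat_lit 0, nat_lit 0, nat_lit 0, nat_lit 0, nat_lit 0, nat_lit 0, nat_lit 25684693472678, nat_lit 0, nat_lit 0, nat_lit 0, nat_lit 0, [],
 ⟨p073_k2, nat_lit 0, nat_lit 0, nat_lit 233, nat_lit 0, nat_lit 616788, [nat_lit 3282000000, nat_lit 4688000000], [], [nat_lit 19765311938, nat_lit 19820124485, nat_lit 20210546313, nat_lit 20265310745, nat_lit 23311797168, nat_lit 23359965226, nat_lit 23539115679, nat_lit 23584379418], nat_lit 1271250, nat_lit 1271250, nat_lit 780000, nat_lit 1100001, nat_lit 1271250, nat_lit 1271250, [nat_lit 780000, nat_lit 1100000], [nat_lit 40, nat_lit 40, nat_lit 40, nat_lit 80, nat_lit 22, nat_lit 249, nat_lit 40, nat_lit 10]⟩, ⟨p073_k0, nat_lit 0, nat_lit 0, nat_lit 37, nat_lit 0, nat_lit 0, [nat_lit 3282000000, nat_lit 4688000000], [], [nat_lit 14402567156, nat_lit 14853945753, nat_lit 15268030362,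 nat_lit 15691227740, nat_lit 22747445506, nat_lit 23055343999, nat_lit 23100971634, nat_lit 23391080718], nat_lit 0, nat_lit 0, nat_lit 0, nat_lit 0, nat_lit 0, nat_lit 0, [], [nat_lit 40, nat_lit 40, nat_lit 40, nat_lit 80, nat_lit 22, nat_lit 249, nat_lit 40, nat_lit 10]⟩,
 zbF0, [⟨nat_lit 4, nat_lit 95, nat_lit 95, nat_lit 100, nat_lit 163167567⟩, ⟨nat_lit 7, nat_lit 95, nat_lit 96, nat_lit 100, nat_lit 166547775⟩, ⟨nat_lit 11, nat_lit 85, nat_lit 85, nat_lit 100, nat_lit 377545695⟩]⟩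
noncomputable def p073_l3 : Lf2 := ⟨nat_lit 0, nat_lit 2, [nat_lit 10, nat_lit 5, nat_lit 5, nat_lit 20], false, nat_lit 240, nat_lit 316, nat_lit 160, nat_lit 320, ⟨nat_lit 1000, nat_lit 0, nat_lit 0, nat_lit 0, nat_lit 0, nat_lit 0, nat_lit 0, nat_lit 0, nat_lit 0, nat_lit 0, nat_lit 0, nat_lit 0, nat_lit 0, nat_lit 0, nat_lit 0, nat_lit 0, false, false⟩,
 nat_lit 0, nat_lit 8413, nat_lit 0, nat_lit 0, nat_lit 5896, nat_lit 5028, nat_lit 1644, nat_lit 0, nat_lit 0, nat_lit 0, nat_lit 0, nat_lit 0, nat_lit 0, nat_lit 0, nat_lit 0, nat_lit 0, nat_lit 0, nat_lit 0, [],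
 ⟨p073_k1, nat_lit 0, nat_lit 0, nat_lit 219, nat_lit 0, nat_lit 620298, [nat_lit 3282000000, nat_lit 4688000000], [], [nat_lit 20126334236, nat_lit 20229257164, nat_lit 22048044406, nat_lit 22141819172, nat_lit 23460049417, nat_lit 23550650925, nat_lit 25471428521, nat_lit 25591417993], nat_lit 1271250, nat_lit 1271250, nat_lit 1100001, nat_lit 1785000, nat_lit 1271250, nat_lit 1271250, [nat_lit 780000, nat_lit 1100000], [nat_lit 40, nat_lit 40, nat_lit 40, nat_lit 80, nat_lit 22, nat_lit 203, nat_lit 0, nat_lit 7]⟩, ⟨p073_k0, nat_lit 0, nat_lit 0, nat_lit 31, nat_lit 0, nat_lit 0, [nat_lit 3282000000, nat_lit 4688000000], [], [nat_lit 15210508184, nat_lit 15636090514, nat_lit 18422024496, nat_lit 18783162692, nat_lit 23073994488, nat_lit 23365460210, nat_lit 25095614624, nat_lit 25370414984], nat_lit 0, nat_lit 0, nat_lit 0, nat_lit 0, nat_lit 0, nat_lit 0, [], [nat_lit 40, nat_lit 40, nat_lit 40, nat_lit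 80, nat_lit 22, nat_lit 203, nat_lit 0, nat_lit 8]⟩,
 zbF0, [⟨nat_lit 16, nat_lit 94, nat_lit 89, nat_lit 100, nat_lit 491022913⟩, ⟨nat_lit 19, nat_lit 94, nat_lit 88, nat_lit 100, nat_lit 495793831⟩]⟩
noncomputable def p073_l4 : Lf2 := ⟨nat_lit 0, nat_lit 2, [nat_lit 10, nat_lit 5, nat_lit 5, nat_lit 20], false, nat_lit 240, nat_lit 316, nat_lit 160, nat_lit 320, ⟨nat_lit 1000, nat_lit 0, nat_lit 0, nat_lit 0, nat_lit 0, nat_lit 0, nat_lit 0, nat_lit 0, nat_lit 0, nat_lit 0, nat_lit 0, nat_lit 0, nat_lit 0, nat_lit 0, nat_lit 0, nat_lit 0, false, false⟩,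
 nat_lit 0, nat_lit 1564, nat_lit 0, nat_lit 0, nat_lit 1105, nat_lit 5009, nat_lit 472, nat_lit 0, nat_lit 360, nat_lit 0, nat_lit 0, nat_lit 0, nat_lit 0, nat_lit 0, nat_lit 0, nat_lit 0, nat_lit 0, nat_lit 0, [],
 ⟨p073_k3, nat_lit 0, nat_lit 0, nat_lit 0, nat_lit 0, nat_lit 695395, [nat_lit 3282000000, nat_lit 4688000000], [], [nat_lit 18175668885, nat_lit 18337978430, nat_lit 20680270003, nat_lit 20823180995, nat_lit 20367917925, nat_lit 20559746768, nat_lit 23187181006, nat_lit 23366690143], nat_lit 1271250, nat_lit 1271250, nat_lit 780000, nat_lit 1762500, nat_lit 1271250, nat_lit 1271250, [nat_lit 780000, nat_lit 1100000], [nat_lit 40, nat_lit 40, nat_lit 40, nat_lit 80]⟩, ⟨p073_k0, nat_lit 0, nat_lit 0, nat_lit 39, nat_lit 0, nat_lit 0, [nat_lit 3282000000, nat_lit 4688000000], [], [nat_lit 14368354076, nat_lit 15274293850, nat_lit 18440773088, nat_lit 19161581464, nat_lit 22734191926, nat_lit 23415290703,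 nat_lit 25086194272, nat_lit 25634859432], nat_lit 0, nat_lit 0, nat_lit 0, nat_lit 0, nat_lit 0, nat_lit 0, [], [nat_lit 40, nat_lit 40, nat_lit 40, nat_lit 80, nat_lit 22, nat_lit 272, nat_lit 60, nat_lit 11]⟩,
 zbF0, [⟨nat_lit 19, nat_lit 94, nat_lit 88, nat_lit 100, nat_lit 296616312⟩, ⟨nat_lit 11, nat_lit 75, nat_lit 75, nat_lit 100, nat_lit 276153114⟩]⟩
noncomputable def p073_l5 : Lf2 := ⟨nat_lit 0, nat_lit 2, [nat_lit 10, nat_lit 5, nat_lit 5, nat_lit 20], false, nat_lit 240, nat_lit 316, nat_lit 160, nat_lit 240, ⟨nat_lit 1000, nat_lit 0, nat_lit 0, nat_lit 0, nat_lit 0, nat_lit 0, nat_lit 0, nat_lit 0, nat_lit 0, nat_lit 0, nat_lit 0, nat_lit 0, nat_lit 0, nat_lit 0, nat_lit 0, nat_lit 0, false, false⟩,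
 nat_lit 0, nat_lit 9242, nat_lit 0, nat_lit 0, nat_lit 6530, nat_lit 5430, nat_lit 1510, nat_lit 0, nat_lit 0, nat_lit 0, nat_lit 0, nat_lit 0, nat_lit 0, nat_lit 27523374353617, nat_lit 0, nat_lit 0, nat_lit 0, nat_lit 0, [],
 ⟨p073_k3, nat_lit 0, nat_lit 0, nat_lit 263, nat_lit 0, nat_lit 695395, [nat_lit 3282000000, nat_lit 4688000000], [], [nat_lit 17753138360, nat_lit 18042223220, nat_lit 20060100460, nat_lit 20305946840, nat_lit 21444423473, nat_lit 21697343404, nat_lit 23341923171, nat_lit 23597681831], nat_lit 1271250, nat_lit 1271250, nat_lit 780000, nat_lit 1762500, nat_lit 1271250, nat_lit 1271250, [nat_lit 780000, nat_lit 1100000], [nat_lit 40, nat_lit 40, nat_lit 40, nat_lit 80, nat_lit 22, nat_lit 272, nat_lit 60, nat_lit 11]⟩, ⟨p073_k0, nat_lit 0, nat_lit 0, nat_lit 11, nat_lit 0, nat_lit 0, [nat_lit 3282000000, nat_lit 4688000000], [], [nat_lit 13888230520, nat_lit 14838832500, nat_lit 18025343760,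 nat_lit 18778680280, nat_lit 17407670220, nat_lit 18210654770, nat_lit 20782572060, nat_lit 21494327770], nat_lit 0, nat_lit 0, nat_lit 0, nat_lit 0, nat_lit 0, nat_lit 0, [], [nat_lit 40, nat_lit 40, nat_lit 40, nat_lit 80, nat_lit 22, nat_lit 272, nat_lit 60, nat_lit 11]⟩,
 zbF0, [⟨nat_lit 0, nat_lit 91, nat_lit 91, nat_lit 100, nat_lit 325789578⟩, ⟨nat_lit 16, nat_lit 93, nat_lit 90, nat_lit 100, nat_lit 519888876⟩]⟩
noncomputable def p073_l6 : Lf2 := ⟨nat_lit 0, nat_lit 1, [nat_lit 19, nat_lit 5, nat_lit 5, nat_lit 20], false, nat_lit 240, nat_lit 316, nat_lit 240, nat_lit 320, ⟨nat_lit 1000, nat_lit 0, nat_lit 0, nat_lit 0, nat_lit 0, nat_lit 0, nat_lit 0, nat_lit 0, nat_lit 0, nat_lit 0, nat_lit 0, nat_lit 0, nat_lit 0, nat_lit 0, nat_lit 0, nat_lit 0, false, false⟩,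
 nat_lit 0, nat_lit 9278, nat_lit 0, nat_lit 0, nat_lit 6555, nat_lit 4967, nat_lit 1525, nat_lit 0, nat_lit 0, nat_lit 0, nat_lit 0, nat_lit 0, nat_lit 0, nat_lit 0, nat_lit 0, nat_lit 0, nat_lit 0, nat_lit 0, [],
 ⟨p073_k4, nat_lit 0, nat_lit 0, nat_lit 246, nat_lit 0, nat_lit 642395, [nat_lit 3282000000, nat_lit 4688000000], [], [nat_lit 17653050355, nat_lit 17776632242, nat_lit 18052995535, nat_lit 18168776574, nat_lit 21370177668, nat_lit 21471532922, nat_lit 21541362655, nat_lit 21662233008], nat_lit 1271250, nat_lit 1271250, nat_lit 780000, nat_lit 1100001, nat_lit 1271250, nat_lit 1271250, [nat_lit 780000, nat_lit 1100000], [nat_lit 40, nat_lit 40, nat_lit 40, nat_lit 80, nat_lit 22, nat_lit 249, nat_lit 40, nat_lit 10]⟩, ⟨p073_k5, nat_lit 0, nat_lit 0, nat_lit 38, nat_lit 0, nat_lit 0, [nat_lit 3282000000, nat_lit 4688000000], [], [nat_lit 17834577518, nat_lit 18369317525, nat_lit 18482217344, nat_lit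 18984511646, nat_lit 22752746938, nat_lit 23183294822, nat_lit 23107578282, nat_lit 23513265866], nat_lit 0, nat_lit 0, nat_lit 0, nat_lit 0, nat_lit 0, nat_lit 0, [], [nat_lit 40, nat_lit 40, nat_lit 40, nat_lit 80, nat_lit 22, nat_lit 249, nat_lit 40, nat_lit 10]⟩,
 zbF0, [⟨nat_lit 16, nat_lit 93, nat_lit 90, nat_lit 100, nat_lit 180242357⟩, ⟨nat_lit 7, nat_lit 95, nat_lit 96, nat_lit 100, nat_lit 235819577⟩, ⟨nat_lit 11, nat_lit 85, nat_lit 85, nat_lit 100, nat_lit 374705136⟩]⟩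
noncomputable def p073_l7 : Lf2 := ⟨nat_lit 0, nat_lit 1, [nat_lit 19, nat_lit 5, nat_lit 5, nat_lit 20], false, nat_lit 240, nat_lit 316, nat_lit 240, nat_lit 320, ⟨nat_lit 1000, nat_lit 0, nat_lit 0, nat_lit 0, nat_lit 0, nat_lit 0, nat_lit 0, nat_lit 0, nat_lit 0, nat_lit 0, nat_lit 0, nat_lit 0, nat_lit 0, nat_lit 0, nat_lit 0, nat_lit 0, false, false⟩,
 nat_lit 0, nat_lit 9192, nat_lit 0, nat_lit 0, nat_lit 6547, nat_lit 4961, nat_lit 1401, nat_lit 0, nat_lit 0, nat_lit 0, nat_lit 0, nat_lit 0, nat_lit 0, nat_lit 26204103957113, nat_lit 0, nat_lit 0, nat_lit 0, nat_lit 0, [],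
 ⟨p073_k6, nat_lit 0, nat_lit 0, nat_lit 249, nat_lit 0, nat_lit 651382, [nat_lit 3282000000, nat_lit 4688000000], [], [nat_lit 17806086375, nat_lit 17864175274, nat_lit 18195117625, nat_lit 18252970817, nat_lit 21495231650, nat_lit 21545879311, nat_lit 21673891705, nat_lit 21734288213], nat_lit 1271250, nat_lit 1271250, nat_lit 780000, nat_lit 1100001, nat_lit 1271250, nat_lit 1271250, [nat_lit 780000, nat_lit 1100000], [nat_lit 40, nat_lit 40, nat_lit 40, nat_lit 80, nat_lit 22, nat_lit 249, nat_lit 40, nat_lit 10]⟩, ⟨p073_k5, nat_lit 0, nat_lit 0, nat_lit 38, nat_lit 0, nat_lit 0, [nat_lit 3282000000, nat_lit 4688000000], [], [nat_lit 17840109794, nat_lit 18450836182, nat_lit 18488137952, nat_lit 19061817716, nat_lit 22755397654, nat_lit 23247160946, nat_lit 23110881606, nat_lit 23574258769], nat_lit 0, nat_lit 0, nat_lit 0, nat_lit 0, nat_lit 0, nat_lit 0, [], [nat_lit 40, nat_lit 40, nat_lit 40, nat_lit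 80, nat_lit 22, nat_lit 249, nat_lit 40, nat_lit 10]⟩,
 zbF0, [⟨nat_lit 16, nat_lit 92, nat_lit 90, nat_lit 100, nat_lit 180668401⟩, ⟨nat_lit 19, nat_lit 96, nat_lit 95, nat_lit 100, nat_lit 234118171⟩, ⟨nat_lit 11, nat_lit 85, nat_lit 85, nat_lit 100, nat_lit 375331691⟩]⟩
noncomputable def p073_l8 : Lf2 := ⟨nat_lit 0, nat_lit 1, [nat_lit 19, nat_lit 5, nat_lit 5, nat_lit 20], false, nat_lit 240, nat_lit 316, nat_lit 240, nat_lit 320, ⟨nat_lit 1000, nat_lit 0, nat_lit 0, nat_lit 0, nat_lit 0, nat_lit 0, nat_lit 0, nat_lit 0, nat_lit 0, nat_lit 0, nat_lit 0, nat_lit 0, nat_lit 0, nat_lit 0, nat_lit 0, nat_lit 0, false, false⟩,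
 nat_lit 0, nat_lit 9233, nat_lit 0, nat_lit 0, nat_lit 6523, nat_lit 5011, nat_lit 1466, nat_lit 0, nat_lit 0, nat_lit 0, nat_lit 0, nat_lit 0, nat_lit 0, nat_lit 0, nat_lit 0, nat_lit 0, nat_lit 0, nat_lit 0, [],
 ⟨p073_k4, nat_lit 0, nat_lit 0, nat_lit 242, nat_lit 0, nat_lit 658754, [nat_lit 3282000000, nat_lit 4688000000], [], [nat_lit 18169149695, nat_lit 18331881992, nat_lit 20083084736, nat_lit 20230516981, nat_lit 21628126799, nat_lit 21770358560, nat_lit 23352304257, nat_lit 23505681715], nat_lit 1271250, nat_lit 1271250, nat_lit 1100001, nat_lit 1785000, nat_lit 1271250, nat_lit 1271250, [nat_lit 780000, nat_lit 1100000], [nat_lit 40, nat_lit 40, nat_lit 40, nat_lit 80, nat_lit 22, nat_lit 203, nat_lit 0, nat_lit 7]⟩, ⟨p073_k5, nat_lit 0, nat_lit 0, nat_lit 32, nat_lit 0, nat_lit 0, [nat_lit 3282000000, nat_lit 4688000000], [], [nat_lit 18438799552, nat_lit 19015569876, nat_lit 21072145438, nat_lit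 21563878158, nat_lit 23083353906, nat_lit 23548945989, nat_lit 25087185888, nat_lit 25526196801], nat_lit 0, nat_lit 0, nat_lit 0, nat_lit 0, nat_lit 0, nat_lit 0, [], [nat_lit 40, nat_lit 40, nat_lit 40, nat_lit 80, nat_lit 22, nat_lit 203, nat_lit 0, nat_lit 7]⟩,
 zbF0, [⟨nat_lit 16, nat_lit 93, nat_lit 90, nat_lit 100, nat_lit 504572123⟩, ⟨nat_lit 19, nat_lit 94, nat_lit 88, nat_lit 100, nat_lit 560995876⟩]⟩
noncomputable def p073_l9 : Lf2 := ⟨nat_lit 0, nat_lit 1, [nat_lit 19, nat_lit 5, nat_lit 5, nat_lit 20], false, nat_lit 240, nat_lit 312, nat_lit 240, nat_lit 320, ⟨nat_lit 1000, nat_lit 0, nat_lit 0, nat_lit 0, nat_lit 0, nat_lit 0, nat_lit 0, nat_lit 0, nat_lit 0, nat_lit 0, nat_lit 0, nat_lit 0, nat_lit 0, nat_lit 0, nat_lit 0, nat_lit 0, false, false⟩,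
 nat_lit 0, nat_lit 9177, nat_lit 0, nat_lit 0, nat_lit 6563, nat_lit 4979, nat_lit 1342, nat_lit 0, nat_lit 0, nat_lit 0, nat_lit 0, nat_lit 0, nat_lit 0, nat_lit 0, nat_lit 0, nat_lit 0, nat_lit 0, nat_lit 0, [],
 ⟨p073_k7, nat_lit 0, nat_lit 0, nat_lit 244, nat_lit 0, nat_lit 637636, [nat_lit 3282000000, nat_lit 4688000000], [], [nat_lit 17819825868, nat_lit 17936335262, nat_lit 20099610165, nat_lit 20198186264, nat_lit 21304548592, nat_lit 21407134775, nat_lit 23251972223, nat_lit 23355763992], nat_lit 1271250, nat_lit 1271250, nat_lit 780000, nat_lit 1762500, nat_lit 1271250, nat_lit 1271250, [nat_lit 780000, nat_lit 1100000], [nat_lit 40, nat_lit 40, nat_lit 40, nat_lit 80, nat_lit 22, nat_lit 272, nat_lit 60, nat_lit 11]⟩, ⟨p073_k5, nat_lit 0, nat_lit 0, nat_lit 37, nat_lit 0, nat_lit 0, [nat_lit 3282000000, nat_lit 4688000000], [], [nat_lit 17823512966, nat_lit 18205976424, nat_lit 21100469982, nat_lit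 21406829988, nat_lit 22747445506, nat_lit 23055343999, nat_lit 25071320032, nat_lit 25344914012], nat_lit 0, nat_lit 0, nat_lit 0, nat_lit 0, nat_lit 0, nat_lit 0, [], [nat_lit 40, nat_lit 40, nat_lit 40, nat_lit 80, nat_lit 22, nat_lit 272, nat_lit 60, nat_lit 11]⟩,
 zbF0, [⟨nat_lit 16, nat_lit 92, nat_lit 91, nat_lit 100, nat_lit 525086112⟩, ⟨nat_lit 19, nat_lit 94, nat_lit 88, nat_lit 100, nat_lit 582014683⟩]⟩
noncomputable def p073_l10 : Lf2 := ⟨nat_lit 0, nat_lit 1, [nat_lit 19, nat_lit 5, nat_lit 5, nat_lit 20], false, nat_lit 240, nat_lit 312, nat_lit 240, nat_lit 316, ⟨nat_lit 1000, nat_lit 0, nat_lit 0, nat_lit 0, nat_lit 0, nat_lit 0, nat_lit 0, nat_lit 0, nat_lit 0, nat_lit 0, nat_lit 0, nat_lit 0, nat_lit 0, nat_lit 0, nat_lit 0, nat_lit 0, false, false⟩,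
 nat_lit 0, nat_lit 9189, nat_lit 0, nat_lit 0, nat_lit 6571, nat_lit 4978, nat_lit 1344, nat_lit 0, nat_lit 0, nat_lit 0, nat_lit 0, nat_lit 0, nat_lit 0, nat_lit 0, nat_lit 0, nat_lit 0, nat_lit 0, nat_lit 0, [],
 ⟨p073_k7, nat_lit 0, nat_lit 0, nat_lit 252, nat_lit 0, nat_lit 663782, [nat_lit 3282000000, nat_lit 4688000000], [], [nat_lit 17790859643, nat_lit 17848824815, nat_lit 17980489324, nat_lit 18040408522, nat_lit 21280770181, nat_lit 21332093826, nat_lit 21366587623, nat_lit 21429880312], nat_lit 1271250, nat_lit 1271250, nat_lit 780000, nat_lit 936251, nat_lit 1271250, nat_lit 1271250, [nat_lit 780000, nat_lit 1100000], [nat_lit 40, nat_lit 40, nat_lit 40, nat_lit 80, nat_lit 22, nat_lit 249, nat_lit 40, nat_lit 10]⟩, ⟨p073_k4, nat_lit 0, nat_lit 0, nat_lit 37, nat_lit 0, nat_lit 0, [nat_lit 3282000000, nat_lit 4688000000], [], [nat_lit 18206856277, nat_lit 18512793289, nat_lit 18518712885, nat_lit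 18815364029, nat_lit 22813310470, nat_lit 23062587103, nat_lit 22988431175, nat_lit 23230484555], nat_lit 0, nat_lit 0, nat_lit 0, nat_lit 0, nat_lit 0, nat_lit 0, [], [nat_lit 40, nat_lit 40, nat_lit 40, nat_lit 80, nat_lit 22, nat_lit 249, nat_lit 40, nat_lit 10]⟩,
 zbF0, [⟨nat_lit 16, nat_lit 92, nat_lit 91, nat_lit 100, nat_lit 188225307⟩, ⟨nat_lit 19, nat_lit 93, nat_lit 90, nat_lit 100, nat_lit 249002878⟩, ⟨nat_lit 11, nat_lit 88, nat_lit 88, nat_lit 100, nat_lit 353173299⟩]⟩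
noncomputable def p073_l11 : Lf2 := ⟨nat_lit 0, nat_lit 1, [nat_lit 19, nat_lit 5, nat_lit 5, nat_lit 20], false, nat_lit 240, nat_lit 312, nat_lit 240, nat_lit 316, ⟨nat_lit 1000, nat_lit 0, nat_lit 0, nat_lit 0, nat_lit 0, nat_lit 0, nat_lit 0, nat_lit 0, nat_lit 0, nat_lit 0, nat_lit 0, nat_lit 0, nat_lit 0, nat_lit 0, nat_lit 0, nat_lit 0, false, false⟩,
 nat_lit 0, nat_lit 9172, nat_lit 0, nat_lit 0, nat_lit 6559, nat_lit 5002, nat_lit 1322, nat_lit 0, nat_lit 0, nat_lit 0, nat_lit 0, nat_lit 0, nat_lit 0, nat_lit 0, nat_lit 0, nat_lit 0, nat_lit 0, nat_lit 0, [],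
 ⟨p073_k7, nat_lit 0, nat_lit 0, nat_lit 248, nat_lit 0, nat_lit 663782, [nat_lit 3282000000, nat_lit 4688000000], [], [nat_lit 18023187902, nat_lit 18079391533, nat_lit 18213515230, nat_lit 18271424412, nat_lit 21397681949, nat_lit 21447359810, nat_lit 21485359010, nat_lit 21546554726], nat_lit 1271250, nat_lit 1271250, nat_lit 936251, nat_lit 1100001, nat_lit 1271250, nat_lit 1271250, [nat_lit 780000, nat_lit 1100000], [nat_lit 40, nat_lit 40, nat_lit 40, nat_lit 80, nat_lit 22, nat_lit 249, nat_lit 40, nat_lit 10]⟩, ⟨p073_k4, nat_lit 0, nat_lit 0, nat_lit 34, nat_lit 0, nat_lit 0, [nat_lit 3282000000, nat_lit 4688000000], [], [nat_lit 18496777011, nat_lit 18794204071, nat_lit 18807814228, nat_lit 19095921240, nat_lit 22976683407, nat_lit 23219304944, nat_lit 23150492739, nat_lit 23385864953], nat_lit 0, nat_lit 0, nat_lit 0, nat_lit 0, nat_lit 0, nat_lit 0, [], [nat_lit 40, nat_lit 40, nat_lit 40, nat_lit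 80, nat_lit 22, nat_lit 249, nat_lit 40, nat_lit 10]⟩,
 zbF0, [⟨nat_lit 16, nat_lit 92, nat_lit 91, nat_lit 100, nat_lit 517327944⟩, ⟨nat_lit 19, nat_lit 93, nat_lit 90, nat_lit 100, nat_lit 574375484⟩]⟩
noncomputable def p073_l12 : Lf2 := ⟨nat_lit 0, nat_lit 1, [nat_lit 19, nat_lit 5, nat_lit 5, nat_lit 20], false, nat_lit 240, nat_lit 312, nat_lit 240, nat_lit 316, ⟨nat_lit 1000, nat_lit 0, nat_lit 0, nat_lit 0, nat_lit 0, nat_lit 0, nat_lit 0, nat_lit 0, nat_lit 0, nat_lit 0, nat_lit 0, nat_lit 0, nat_lit 0, nat_lit 0, nat_lit 0, nat_lit 0, false, false⟩,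
 nat_lit 0, nat_lit 9154, nat_lit 0, nat_lit 0, nat_lit 6546, nat_lit 5027, nat_lit 1300, nat_lit 0, nat_lit 0, nat_lit 0, nat_lit 0, nat_lit 0, nat_lit 0, nat_lit 0, nat_lit 0, nat_lit 0, nat_lit 0, nat_lit 0, [],
 ⟨p073_k7, nat_lit 0, nat_lit 0, nat_lit 243, nat_lit 0, nat_lit 663782, [nat_lit 3282000000, nat_lit 4688000000], [], [nat_lit 18259784956, nat_lit 18314107310, nat_lit 20155245562, nat_lit 20204472425, nat_lit 21518814437, nat_lit 21566847710, nat_lit 23277221302, nat_lit 23329052930], nat_lit 1271250, nat_lit 1271250, nat_lit 1100001, nat_lit 1785000, nat_lit 1271250, nat_lit 1271250, [nat_lit 780000, nat_lit 1100000], [nat_lit 40, nat_lit 40, nat_lit 40, nat_lit 80, nat_lit 22, nat_lit 203, nat_lit 0, nat_lit 7]⟩, ⟨p073_k4, nat_lit 0, nat_lit 0, nat_lit 31, nat_lit 0, nat_lit 0, [nat_lit 3282000000, nat_lit 4688000000], [], [nat_lit 18784110828, nat_lit 19072990480, nat_lit 21365802588, nat_lit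 21612058125, nat_lit 23136889466, nat_lit 23372826355, nat_lit 25155333263, nat_lit 25377832152], nat_lit 0, nat_lit 0, nat_lit 0, nat_lit 0, nat_lit 0, nat_lit 0, [], [nat_lit 40, nat_lit 40, nat_lit 40, nat_lit 80, nat_lit 22, nat_lit 203, nat_lit 0, nat_lit 7]⟩,
 zbF0, [⟨nat_lit 16, nat_lit 92, nat_lit 91, nat_lit 100, nat_lit 508637534⟩, ⟨nat_lit 19, nat_lit 93, nat_lit 90, nat_lit 100, nat_lit 565503799⟩]⟩
noncomputable def p073_l13 : Lf2 := ⟨nat_lit 0, nat_lit 1, [nat_lit 19, nat_lit 5, nat_lit 5, nat_lit 20], false, nat_lit 240, nat_lit 312, nat_lit 240, nat_lit 316, ⟨nat_lit 1000, nat_lit 0, nat_lit 0, nat_lit 0, nat_lit 0, nat_lit 0, nat_lit 0, nat_lit 0, nat_lit 0, nat_lit 0, nat_lit 0, nat_lit 0, nat_lit 0, nat_lit 0, nat_lit 0, nat_lit 0, false, false⟩,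
 nat_lit 0, nat_lit 9140, nat_lit 0, nat_lit 0, nat_lit 6562, nat_lit 4984, nat_lit 1296, nat_lit 0, nat_lit 0, nat_lit 0, nat_lit 0, nat_lit 0, nat_lit 0, nat_lit 0, nat_lit 0, nat_lit 0, nat_lit 0, nat_lit 0, [],
 ⟨p073_k8, nat_lit 0, nat_lit 0, nat_lit 251, nat_lit 0, nat_lit 659165, [nat_lit 3282000000, nat_lit 4688000000], [], [nat_lit 17881524513, nat_lit 17939543988, nat_lit 20152167286, nat_lit 20201451736, nat_lit 21358810166, nat_lit 21410099438, nat_lit 23305349567, nat_lit 23357241672], nat_lit 1271250, nat_lit 1271250, nat_lit 780000, nat_lit 1762500, nat_lit 1271250, nat_lit 1271250, [nat_lit 780000, nat_lit 1100000], [nat_lit 40, nat_lit 40, nat_lit 40, nat_lit 80, nat_lit 22, nat_lit 272, nat_lit 60, nat_lit 11]⟩, ⟨p073_k4, nat_lit 0, nat_lit 0, nat_lit 37, nat_lit 0, nat_lit 0, [nat_lit 3282000000, nat_lit 4688000000], [], [nat_lit 18201577156, nat_lit 18431181808, nat_lit 21402556300, nat_lit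 21586463517, nat_lit 22810701371, nat_lit 22997770264, nat_lit 25133754847, nat_lit 25299980301], nat_lit 0, nat_lit 0, nat_lit 0, nat_lit 0, nat_lit 0, nat_lit 0, [], [nat_lit 40, nat_lit 40, nat_lit 40, nat_lit 80, nat_lit 22, nat_lit 272, nat_lit 60, nat_lit 11]⟩,
 zbF0, [⟨nat_lit 16, nat_lit 91, nat_lit 91, nat_lit 100, nat_lit 530856289⟩, ⟨nat_lit 19, nat_lit 93, nat_lit 90, nat_lit 100, nat_lit 584378141⟩]⟩
noncomputable def p073_l14 : Lf2 := ⟨nat_lit 0, nat_lit 1, [nat_lit 19, nat_lit 5, nat_lit 5, nat_lit 20], false, nat_lit 240, nat_lit 312, nat_lit 240, nat_lit 280, ⟨nat_lit 1000, nat_lit 0, nat_lit 0, nat_lit 0, nat_lit 0, nat_lit 0, nat_lit 0, nat_lit 0, nat_lit 0, nat_lit 0, nat_lit 0, nat_lit 0, nat_lit 0, nat_lit 0, nat_lit 0, nat_lit 0, false, false⟩,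
 nat_lit 0, nat_lit 9140, nat_lit 0, nat_lit 0, nat_lit 6562, nat_lit 5182, nat_lit 1296, nat_lit 0, nat_lit 0, nat_lit 0, nat_lit 0, nat_lit 0, nat_lit 0, nat_lit 0, nat_lit 0, nat_lit 0, nat_lit 0, nat_lit 0, [],
 ⟨p073_k8, nat_lit 0, nat_lit 0, nat_lit 256, nat_lit 0, nat_lit 675989, [nat_lit 3282000000, nat_lit 4688000000], [], [nat_lit 17881524513, nat_lit 17939543988, nat_lit 20152167286, nat_lit 20201451736, nat_lit 21358810166, nat_lit 21410099438, nat_lit 23305349567, nat_lit 23357241672], nat_lit 1271250, nat_lit 1271250, nat_lit 780000, nat_lit 1762500, nat_lit 1271250, nat_lit 1271250, [nat_lit 780000, nat_lit 1100000], [nat_lit 40, nat_lit 40, nat_lit 40, nat_lit 80, nat_lit 22, nat_lit 272, nat_lit 60, nat_lit 11]⟩, ⟨p073_k7, nat_lit 0, nat_lit 0, nat_lit 25, nat_lit 0, nat_lit 0, [nat_lit 3282000000, nat_lit 4688000000], [], [nat_lit 18261983284, nat_lit 18418394698, nat_lit 21420837547, nat_lit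 21545850394, nat_lit 20711121969, nat_lit 20852139888, nat_lit 23463840764, nat_lit 23588993817], nat_lit 0, nat_lit 0, nat_lit 0, nat_lit 0, nat_lit 0, nat_lit 0, [], [nat_lit 40, nat_lit 40, nat_lit 40, nat_lit 80, nat_lit 22, nat_lit 272, nat_lit 60, nat_lit 11]⟩,
 zbF0, [⟨nat_lit 0, nat_lit 91, nat_lit 91, nat_lit 100, nat_lit 353390448⟩, ⟨nat_lit 16, nat_lit 91, nat_lit 91, nat_lit 100, nat_lit 530856289⟩]⟩
noncomputable def p073_l15 : Lf2 := ⟨nat_lit 0, nat_lit 1, [nat_lit 19, nat_lit 5, nat_lit 5, nat_lit 20], false, nat_lit 240, nat_lit 280, nat_lit 280, nat_lit 312, ⟨nat_lit 1000, nat_lit 0, nat_lit 0, nat_lit 0, nat_lit 0, nat_lit 0, nat_lit 0, nat_lit 0, nat_lit 0, nat_lit 0, nat_lit 0, nat_lit 0, nat_lit 0, nat_lit 0, nat_lit 0, nat_lit 0, false, false⟩,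
 nat_lit 0, nat_lit 9519, nat_lit 0, nat_lit 0, nat_lit 6835, nat_lit 4995, nat_lit 1236, nat_lit 0, nat_lit 0, nat_lit 0, nat_lit 0, nat_lit 0, nat_lit 0, nat_lit 0, nat_lit 0, nat_lit 0, nat_lit 0, nat_lit 0, [],
 ⟨p073_k8, nat_lit 0, nat_lit 0, nat_lit 249, nat_lit 0, nat_lit 675989, [nat_lit 3282000000, nat_lit 4688000000], [], [nat_lit 17067871168, nat_lit 17127068110, nat_lit 19340211562, nat_lit 19404713385, nat_lit 18971488471, nat_lit 19028664358, nat_lit 21318377890, nat_lit 21376447588], nat_lit 1271250, nat_lit 1271250, nat_lit 780000, nat_lit 1762500, nat_lit 1271250, nat_lit 1271250, [nat_lit 780000, nat_lit 1100000], [nat_lit 40, nat_lit 40, nat_lit 40, nat_lit 80, nat_lit 22, nat_lit 272, nat_lit 60, nat_lit 11]⟩, ⟨p073_k7, nat_lit 0, nat_lit 0, nat_lit 36, nat_lit 0, nat_lit 0, [nat_lit 3282000000, nat_lit 4688000000], [], [nat_lit 20827786780, nat_lit 20966091330, nat_lit 23505091357, nat_lit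 23616279000, nat_lit 22752590693, nat_lit 22878934550, nat_lit 25093699021, nat_lit 25205959065], nat_lit 0, nat_lit 0, nat_lit 0, nat_lit 0, nat_lit 0, nat_lit 0, [], [nat_lit 40, nat_lit 40, nat_lit 40, nat_lit 80, nat_lit 22, nat_lit 272, nat_lit 60, nat_lit 11]⟩,
 zbF0, [⟨nat_lit 0, nat_lit 91, nat_lit 91, nat_lit 100, nat_lit 353421062⟩, ⟨nat_lit 19, nat_lit 92, nat_lit 91, nat_lit 100, nat_lit 598571311⟩]⟩
noncomputable def p073_l16 : Lf2 := ⟨nat_lit 0, nat_lit 1, [nat_lit 19, nat_lit 5, nat_lit 5, nat_lit 20], false, nat_lit 280, nat_lit 312, nat_lit 280, nat_lit 312, ⟨nat_lit 1000, nat_lit 0, nat_lit 0, nat_lit 0, nat_lit 0, nat_lit 0, nat_lit 0, nat_lit 0, nat_lit 0, nat_lit 0, nat_lit 0, nat_lit 0, nat_lit 0, nat_lit 0, nat_lit 0, nat_lit 0, false, false⟩,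
 nat_lit 0, nat_lit 9140, nat_lit 0, nat_lit 0, nat_lit 6562, nat_lit 4365, nat_lit 1206, nat_lit 0, nat_lit 0, nat_lit 0, nat_lit 0, nat_lit 0, nat_lit 0, nat_lit 0, nat_lit 0, nat_lit 0, nat_lit 0, nat_lit 0, [],
 ⟨p073_k8, nat_lit 0, nat_lit 0, nat_lit 254, nat_lit 0, nat_lit 667566, [nat_lit 3282000000, nat_lit 4688000000], [], [nat_lit 19814575093, nat_lit 19867630349, nat_lit 19837551286, nat_lit 19893172629, nat_lit 21358810166, nat_lit 21410099438, nat_lit 21374710080, nat_lit 21427855291], nat_lit 1271250, nat_lit 1271250, nat_lit 780000, nat_lit 810650, nat_lit 1271250, nat_lit 1271250, [nat_lit 780000, nat_lit 1100000], [nat_lit 40, nat_lit 40, nat_lit 40, nat_lit 80, nat_lit 22, nat_lit 249, nat_lit 40, nat_lit 10]⟩, ⟨p073_k9, nat_lit 0, nat_lit 0, nat_lit 0, nat_lit 0, nat_lit 0, [nat_lit 2637500000, nat_lit 3965500000], [], [nat_lit 20355670906, nat_lit 20421985311, nat_lit 20398436173, nat_lit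 20464380251, nat_lit 22320457038, nat_lit 22381154485, nat_lit 22352495810, nat_lit 22412863072], nat_lit 0, nat_lit 0, nat_lit 0, nat_lit 0, nat_lit 0, nat_lit 0, [], [nat_lit 180, nat_lit 40, nat_lit 20, nat_lit 40]⟩,
 zbF0, [⟨nat_lit 16, nat_lit 91, nat_lit 91, nat_lit 100, nat_lit 183510342⟩, ⟨nat_lit 19, nat_lit 92, nat_lit 91, nat_lit 100, nat_lit 252283889⟩, ⟨nat_lit 11, nat_lit 91, nat_lit 91, nat_lit 100, nat_lit 358060233⟩]⟩
noncomputable def p073_l17 : Lf2 := ⟨nat_lit 3, nat_lit 1, [nat_lit 19, nat_lit 5, nat_lit 5, nat_lit 20], false, nat_lit 280, nat_lit 312, nat_lit 280, nat_lit 312, zbN0,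
 nat_lit 0, nat_lit 0, nat_lit 0, nat_lit 0, nat_lit 0, nat_lit 0, nat_lit 0, nat_lit 0, nat_lit 0, nat_lit 0, nat_lit 0, nat_lit 0, nat_lit 0, nat_lit 0, nat_lit 0, nat_lit 0, nat_lit 0, nat_lit 0, [],
 C1.Rw.none, ⟨p073_k7, nat_lit 0, nat_lit 0, nat_lit 36, nat_lit 0, nat_lit 0, [], [], [], nat_lit 0, nat_lit 0, nat_lit 0, nat_lit 0, nat_lit 0, nat_lit 0, [], [nat_lit 40, nat_lit 40, nat_lit 40, nat_lit 80, nat_lit 22, nat_lit 249, nat_lit 40, nat_lit 10]⟩,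
 zbF0, []⟩
noncomputable def p073_l18 : Lf2 := ⟨nat_lit 0, nat_lit 1, [nat_lit 19, nat_lit 5, nat_lit 5, nat_lit 20], false, nat_lit 280, nat_lit 312, nat_lit 280, nat_lit 312, ⟨nat_lit 1000, nat_lit 0, nat_lit 0, nat_lit 0, nat_lit 0, nat_lit 0, nat_lit 0, nat_lit 0, nat_lit 0, nat_lit 0, nat_lit 0, nat_lit 0, nat_lit 0, nat_lit 0, nat_lit 0, nat_lit 0, false, false⟩,
 nat_lit 0, nat_lit 9140, nat_lit 0, nat_lit 0, nat_lit 6562, nat_lit 4364, nat_lit 1206, nat_lit 0, nat_lit 0, nat_lit 0, nat_lit 0, nat_lit 0, nat_lit 0, nat_lit 0, nat_lit 0, nat_lit 0, nat_lit 0, nat_lit 0, [],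
 ⟨p073_k8, nat_lit 0, nat_lit 0, nat_lit 256, nat_lit 0, nat_lit 675989, [nat_lit 3282000000, nat_lit 4688000000], [], [nat_lit 19814575093, nat_lit 19867630349, nat_lit 19837551286, nat_lit 19893172629, nat_lit 21358810166, nat_lit 21410099438, nat_lit 21374710080, nat_lit 21427855291], nat_lit 1271250, nat_lit 1271250, nat_lit 780000, nat_lit 810650, nat_lit 1271250, nat_lit 1271250, [nat_lit 780000, nat_lit 1100000], [nat_lit 40, nat_lit 40, nat_lit 40, nat_lit 80, nat_lit 22, nat_lit 249, nat_lit 40, nat_lit 10]⟩, ⟨p073_k10, nat_lit 0, nat_lit 0, nat_lit 0, nat_lit 0, nat_lit 0, [nat_lit 2637500000, nat_lit 3965500000], [], [nat_lit 20422548463, nat_lit 20488855324, nat_lit 20464954638, nat_lit 20530891235, nat_lit 22381504968, nat_lit 22445292102, nat_lit 22413226558, nat_lit 22473587321], nat_lit 0, nat_lit 0, nat_lit 0, nat_lit 0, nat_lit 0, nat_lit 0, [], [nat_lit 180, nat_lit 40, nat_lit 20, nat_lit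 40]⟩,
 zbF0, [⟨nat_lit 0, nat_lit 91, nat_lit 91, nat_lit 100, nat_lit 375214556⟩, ⟨nat_lit 16, nat_lit 91, nat_lit 91, nat_lit 100, nat_lit 541570575⟩, ⟨nat_lit 19, nat_lit 91, nat_lit 91, nat_lit 100, nat_lit 612724660⟩]⟩
noncomputable def p073_l19 : Lf2 := ⟨nat_lit 3, nat_lit 1, [nat_lit 19, nat_lit 5, nat_lit 5, nat_lit 20], false, nat_lit 280, nat_lit 312, nat_lit 280, nat_lit 312, zbN0,
 nat_lit 0, nat_lit 0, nat_lit 0, nat_lit 0, nat_lit 0, nat_lit 0, nat_lit 0, nat_lit 0, nat_lit 0, nat_lit 0, nat_lit 0, nat_lit 0, nat_lit 0, nat_lit 0, nat_lit 0, nat_lit 0, nat_lit 0, nat_lit 0, [],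
 C1.Rw.none, ⟨p073_k8, nat_lit 0, nat_lit 0, nat_lit 36, nat_lit 0, nat_lit 0, [], [], [], nat_lit 0, nat_lit 0, nat_lit 0, nat_lit 0, nat_lit 0, nat_lit 0, [], [nat_lit 40, nat_lit 40, nat_lit 40, nat_lit 80, nat_lit 22, nat_lit 249, nat_lit 40, nat_lit 10]⟩,
 zbF0, []⟩
noncomputable def p073_l20 : Lf2 := ⟨nat_lit 0, nat_lit 1, [nat_lit 19, nat_lit 5, nat_lit 5, nat_lit 20], false, nat_lit 280, nat_lit 312, nat_lit 280, nat_lit 312, ⟨nat_lit 1000, nat_lit 0, nat_lit 0, nat_lit 0, nat_lit 0, nat_lit 0, nat_lit 0, nat_lit 0, nat_lit 0, nat_lit 0, nat_lit 0, nat_lit 0, nat_lit 0, nat_lit 0, nat_lit 0, nat_lit 0, false, false⟩,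
 nat_lit 0, nat_lit 9137, nat_lit 0, nat_lit 0, nat_lit 6560, nat_lit 4999, nat_lit 1202, nat_lit 0, nat_lit 0, nat_lit 0, nat_lit 0, nat_lit 0, nat_lit 0, nat_lit 14045086253386, nat_lit 0, nat_lit 0, nat_lit 0, nat_lit 0, [],
 ⟨p073_k8, nat_lit 0, nat_lit 0, nat_lit 255, nat_lit 0, nat_lit 675989, [nat_lit 3282000000, nat_lit 4688000000], [], [nat_lit 19847024414, nat_lit 19899335871, nat_lit 19869633759, nat_lit 19924895120, nat_lit 21380666328, nat_lit 21431627933, nat_lit 21396585526, nat_lit 21450115635], nat_lit 1271250, nat_lit 1271250, nat_lit 810650, nat_lit 841600, nat_lit 1271250, nat_lit 1271250, [nat_lit 780000, nat_lit 1100000], [nat_lit 40, nat_lit 40, nat_lit 40, nat_lit 80, nat_lit 22, nat_lit 249, nat_lit 40, nat_lit 9]⟩, ⟨p073_k7, nat_lit 0, nat_lit 0, nat_lit 36, nat_lit 0, nat_lit 0, [nat_lit 3282000000, nat_lit 4688000000], [], [nat_lit 20871846670, nat_lit 21009386614, nat_lit 20918402063,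 nat_lit 21055119362, nat_lit 22785968565, nat_lit 22911627389, nat_lit 22821103823, nat_lit 22946027147], nat_lit 0, nat_lit 0, nat_lit 0, nat_lit 0, nat_lit 0, nat_lit 0, [], [nat_lit 40, nat_lit 40, nat_lit 40, nat_lit 80, nat_lit 22, nat_lit 249, nat_lit 40, nat_lit 9]⟩,
 zbF0, [⟨nat_lit 16, nat_lit 91, nat_lit 91, nat_lit 100, nat_lit 539814762⟩, ⟨nat_lit 19, nat_lit 92, nat_lit 91, nat_lit 100, nat_lit 596794533⟩]⟩
noncomputable def p073_l21 : Lf2 := ⟨nat_lit 0, nat_lit 1, [nat_lit 19, nat_lit 5, nat_lit 5, nat_lit 20], false, nat_lit 280, nat_lit 312, nat_lit 280, nat_lit 312, ⟨nat_lit 1000, nat_lit 0, nat_lit 0, nat_lit 0, nat_lit 0, nat_lit 0, nat_lit 0, nat_lit 0, nat_lit 0, nat_lit 0, nat_lit 0, nat_lit 0, nat_lit 0, nat_lit 0, nat_lit 0, nat_lit 0, false, false⟩,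
 nat_lit 0, nat_lit 9133, nat_lit 0, nat_lit 0, nat_lit 6557, nat_lit 5004, nat_lit 1198, nat_lit 0, nat_lit 0, nat_lit 0, nat_lit 0, nat_lit 0, nat_lit 0, nat_lit 14143404490852, nat_lit 0, nat_lit 0, nat_lit 0, nat_lit 0, [],
 ⟨p073_k8, nat_lit 0, nat_lit 0, nat_lit 254, nat_lit 0, nat_lit 675989, [nat_lit 3282000000, nat_lit 4688000000], [], [nat_lit 19882689655, nat_lit 19934470656, nat_lit 19956724530, nat_lit 20010919552, nat_lit 21405548823, nat_lit 21456179173, nat_lit 21453393193, nat_lit 21512910457], nat_lit 1271250, nat_lit 1271250, nat_lit 841600, nat_lit 936251, nat_lit 1271250, nat_lit 1271250, [nat_lit 780000, nat_lit 1100000], [nat_lit 40, nat_lit 40, nat_lit 40, nat_lit 80, nat_lit 22, nat_lit 249, nat_lit 40, nat_lit 9]⟩, ⟨p073_k7, nat_lit 0, nat_lit 0, nat_lit 35, nat_lit 0, nat_lit 0, [nat_lit 3282000000, nat_lit 4688000000], [], [nat_lit 20915190952, nat_lit 21051979555, nat_lit 21054719536,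 nat_lit 21189038333, nat_lit 22818798311, nat_lit 22943783614, nat_lit 22924040916, nat_lit 23046818064], nat_lit 0, nat_lit 0, nat_lit 0, nat_lit 0, nat_lit 0, nat_lit 0, [], [nat_lit 40, nat_lit 40, nat_lit 40, nat_lit 80, nat_lit 22, nat_lit 249, nat_lit 40, nat_lit 9]⟩,
 zbF0, [⟨nat_lit 16, nat_lit 91, nat_lit 91, nat_lit 100, nat_lit 538059927⟩, ⟨nat_lit 19, nat_lit 92, nat_lit 91, nat_lit 100, nat_lit 595015452⟩]⟩
noncomputable def p073_l22 : Lf2 := ⟨nat_lit 0, nat_lit 1, [nat_lit 19, nat_lit 5, nat_lit 5, nat_lit 20], false, nat_lit 280, nat_lit 312, nat_lit 280, nat_lit 312, ⟨nat_lit 1000, nat_lit 0, nat_lit 0, nat_lit 0, nat_lit 0, nat_lit 0, nat_lit 0, nat_lit 0, nat_lit 0, nat_lit 0, nat_lit 0, nat_lit 0, nat_lit 0, nat_lit 0, nat_lit 0, nat_lit 0, false, false⟩,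
 nat_lit 0, nat_lit 9123, nat_lit 0, nat_lit 0, nat_lit 6550, nat_lit 5019, nat_lit 1187, nat_lit 0, nat_lit 0, nat_lit 0, nat_lit 0, nat_lit 0, nat_lit 0, nat_lit 0, nat_lit 0, nat_lit 0, nat_lit 0, nat_lit 0, [],
 ⟨p073_k8, nat_lit 0, nat_lit 0, nat_lit 252, nat_lit 0, nat_lit 675989, [nat_lit 3282000000, nat_lit 4688000000], [], [nat_lit 19982217123, nat_lit 20032984050, nat_lit 20108537443, nat_lit 20160948975, nat_lit 21474510031, nat_lit 21524155256, nat_lit 21559743518, nat_lit 21620894890], nat_lit 1271250, nat_lit 1271250, nat_lit 936251, nat_lit 1100001, nat_lit 1271250, nat_lit 1271250, [nat_lit 780000, nat_lit 1100000], [nat_lit 40, nat_lit 40, nat_lit 40, nat_lit 80, nat_lit 22, nat_lit 249, nat_lit 40, nat_lit 9]⟩, ⟨p073_k7, nat_lit 0, nat_lit 0, nat_lit 33, nat_lit 0, nat_lit 0, [nat_lit 3282000000, nat_lit 4688000000], [], [nat_lit 21044673420, nat_lit 21179200520, nat_lit 21276533083, nat_lit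 21406934493, nat_lit 22916634875, nat_lit 23039592989, nat_lit 23091223372, nat_lit 23210492948], nat_lit 0, nat_lit 0, nat_lit 0, nat_lit 0, nat_lit 0, nat_lit 0, [], [nat_lit 40, nat_lit 40, nat_lit 40, nat_lit 80, nat_lit 22, nat_lit 249, nat_lit 40, nat_lit 9]⟩,
 zbF0, [⟨nat_lit 16, nat_lit 91, nat_lit 91, nat_lit 100, nat_lit 532801296⟩, ⟨nat_lit 19, nat_lit 92, nat_lit 91, nat_lit 100, nat_lit 589664281⟩]⟩
noncomputable def p073_l23 : Lf2 := ⟨nat_lit 0, nat_lit 1, [nat_lit 19, nat_lit 5, nat_lit 5, nat_lit 20], false, nat_lit 280, nat_lit 312, nat_lit 280, nat_lit 312, ⟨nat_lit 1000, nat_lit 0, nat_lit 0, nat_lit 0, nat_lit 0, nat_lit 0, nat_lit 0, nat_lit 0, nat_lit 0, nat_lit 0, nat_lit 0, nat_lit 0, nat_lit 0, nat_lit 0, nat_lit 0, nat_lit 0, false, false⟩,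
 nat_lit 0, nat_lit 9106, nat_lit 0, nat_lit 0, nat_lit 6538, nat_lit 5043, nat_lit 1169, nat_lit 0, nat_lit 0, nat_lit 0, nat_lit 0, nat_lit 0, nat_lit 0, nat_lit 0, nat_lit 0, nat_lit 0, nat_lit 0, nat_lit 0, [],
 ⟨p073_k8, nat_lit 0, nat_lit 0, nat_lit 248, nat_lit 0, nat_lit 675989, [nat_lit 3282000000, nat_lit 4688000000], [], [nat_lit 20149560113, nat_lit 20198844801, nat_lit 21789865820, nat_lit 21846627545, nat_lit 21591366911, nat_lit 21639372716, nat_lit 23340904611, nat_lit 23392705999], nat_lit 1271250, nat_lit 1271250, nat_lit 1100001, nat_lit 1785000, nat_lit 1271250, nat_lit 1271250, [nat_lit 780000, nat_lit 1100000], [nat_lit 40, nat_lit 40, nat_lit 40, nat_lit 80, nat_lit 22, nat_lit 203, nat_lit 0, nat_lit 7]⟩, ⟨p073_k7, nat_lit 0, nat_lit 0, nat_lit 30, nat_lit 0, nat_lit 0, [nat_lit 3282000000, nat_lit 4688000000], [], [nat_lit 21259358534, nat_lit 21390078273, nat_lit 23472530499, nat_lit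 23584215000, nat_lit 23078068355, nat_lit 23197614229, nat_lit 25117632779, nat_lit 25230385646], nat_lit 0, nat_lit 0, nat_lit 0, nat_lit 0, nat_lit 0, nat_lit 0, [], [nat_lit 40, nat_lit 40, nat_lit 40, nat_lit 80, nat_lit 22, nat_lit 203, nat_lit 0, nat_lit 7]⟩,
 zbF0, [⟨nat_lit 16, nat_lit 91, nat_lit 91, nat_lit 100, nat_lit 524056542⟩, ⟨nat_lit 19, nat_lit 92, nat_lit 91, nat_lit 100, nat_lit 580698595⟩]⟩
noncomputable def p073_l24 : Lf2 := ⟨nat_lit 0, nat_lit 2, [nat_lit 10, nat_lit 5, nat_lit 5, nat_lit 20], false, nat_lit 240, nat_lit 316, nat_lit 240, nat_lit 320, ⟨nat_lit 1000, nat_lit 0, nat_lit 0, nat_lit 0, nat_lit 0, nat_lit 0, nat_lit 0, nat_lit 0, nat_lit 0, nat_lit 0, nat_lit 0, nat_lit 0, nat_lit 0, nat_lit 0, nat_lit 0, nat_lit 0, false, false⟩,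
 nat_lit 0, nat_lit 9242, nat_lit 0, nat_lit 0, nat_lit 6530, nat_lit 4949, nat_lit 1341, nat_lit 0, nat_lit 0, nat_lit 0, nat_lit 0, nat_lit 0, nat_lit 0, nat_lit 0, nat_lit 0, nat_lit 0, nat_lit 0, nat_lit 0, [],
 ⟨p073_k3, nat_lit 0, nat_lit 0, nat_lit 238, nat_lit 0, nat_lit 619010, [nat_lit 3282000000, nat_lit 4688000000], [], [nat_lit 17953297735, nat_lit 18242167105, nat_lit 20060100460, nat_lit 20305946840, nat_lit 21444423473, nat_lit 21697362577, nat_lit 23341923171, nat_lit 23597681831], nat_lit 1271250, nat_lit 1271250, nat_lit 780000, nat_lit 1762500, nat_lit 1271250, nat_lit 1271250, [nat_lit 780000, nat_lit 1100000], [nat_lit 40, nat_lit 40, nat_lit 40, nat_lit 80, nat_lit 22, nat_lit 272, nat_lit 60, nat_lit 11]⟩, ⟨p073_k0, nat_lit 0, nat_lit 0, nat_lit 39, nat_lit 0, nat_lit 0, [nat_lit 3282000000, nat_lit 4688000000], [], [nat_lit 17851174346, nat_lit 18613569711, nat_lit 21127024242, nat_lit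 21737919983, nat_lit 22760699086, nat_lit 23374674621, nat_lit 25059874870, nat_lit 25602156552], nat_lit 0, nat_lit 0, nat_lit 0, nat_lit 0, nat_lit 0, nat_lit 0, [], [nat_lit 40, nat_lit 40, nat_lit 40, nat_lit 80, nat_lit 22, nat_lit 272, nat_lit 60, nat_lit 11]⟩,
 zbF0, [⟨nat_lit 0, nat_lit 91, nat_lit 91, nat_lit 100, nat_lit 343865884⟩, ⟨nat_lit 16, nat_lit 93, nat_lit 90, nat_lit 100, nat_lit 505767150⟩, ⟨nat_lit 7, nat_lit 95, nat_lit 95, nat_lit 100, nat_lit 570094622⟩]⟩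
noncomputable def b_V_700_700_20_51 : St := ⟨true, nat_lit 1, nat_lit 0, nat_lit 2, nat_lit 120, nat_lit 300, nat_lit 310, nat_lit 300, nat_lit 310, nat_lit 120, nat_lit 240, nat_lit 100, nat_lit 120, nat_lit 240, nat_lit 320, nat_lit 160, nat_lit 320, nat_lit 0, nat_lit 8, nat_lit 0, nat_lit 0, nat_lit 0, nat_lit 0⟩
theorem d_V_700_700_20_51 (h : EB TB.env) : Dead b_V_700_700_20_51 := chkB_sound0 h (T :=
(.spl (nat_lit 0) (nat_lit 305)
(.ord (.spl (nat_lit 0) (nat_lit 303)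
(.ord (.leaf p073_l0))
(.trX (nat_lit 16) (nat_lit 94) (nat_lit 89) (nat_lit 100) (nat_lit 316) (.spl (nat_lit 2) (nat_lit 160)
(.spl (nat_lit 0) (nat_lit 304)
(.ord (.leaf p073_l1))
(.leaf p073_l2))
(.leaf p073_l3)))))
(.trX (nat_lit 16) (nat_lit 93) (nat_lit 90) (nat_lit 100) (nat_lit 316) (.spl (nat_lit 7) (nat_lit 600)
(.leaf p073_l4)
(.spl (nat_lit 5) (nat_lit 240)
(.leaf p073_l5)
(.spl (nat_lit 6) (nat_lit 4)
(.spl (nat_lit 0) (nat_lit 308)
(.ord (.spl (nat_lit 2) (nat_lit 160)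
(.spl (nat_lit 0) (nat_lit 307)
(.ord (.leaf p073_l6))
(.leaf p073_l7))
(.leaf p073_l8)))
(.trX (nat_lit 16) (nat_lit 92) (nat_lit 91) (nat_lit 100) (nat_lit 312) (.spl (nat_lit 1) (nat_lit 305)
(.leaf p073_l9)
(.trX (nat_lit 19) (nat_lit 93) (nat_lit 90) (nat_lit 100) (nat_lit 316) (.spl (nat_lit 0) (nat_lit 309)
(.ord (.spl (nat_lit 2) (nat_lit 160)
(.spl (nat_lit 2) (nat_lit 140)
(.leaf p073_l10)
(.leaf p073_l11))
(.leaf p073_l12)))
(.spl (nat_lit 1) (nat_lit 308)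
(.leaf p073_l13)
(.trX (nat_lit 19) (nat_lit 92) (nat_lit 91) (nat_lit 100) (nat_lit 312) (.spl (nat_lit 5) (nat_lit 280)
(.leaf p073_l14)
(.spl (nat_lit 4) (nat_lit 280)
(.leaf p073_l15)
(.spl (nat_lit 2) (nat_lit 160)
(.spl (nat_lit 2) (nat_lit 140)
(.spl (nat_lit 2) (nat_lit 128)
(.spl (nat_lit 2) (nat_lit 124)
(.spl (nat_lit 1) (nat_lit 309)
(.spl (nat_lit 8) (nat_lit 800)
(.leaf p073_l16)
(.leaf p073_l17))
(.spl (nat_lit 8) (nat_lit 800)
(.leaf p073_l18)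
(.leaf p073_l19)))
(.leaf p073_l20))
(.leaf p073_l21))
(.leaf p073_l22))
(.leaf p073_l23)))))))))))
(.leaf p073_l24))))))) (by decide +kernel)
noncomputable def p073_l25 : Lf2 := ⟨nat_lit 0, nat_lit 5, [nat_lit 4, nat_lit 5, nat_lit 5, nat_lit 20], false, nat_lit 240, nat_lit 320, nat_lit 160, nat_lit 320, ⟨nat_lit 1000, nat_lit 0, nat_lit 0, nat_lit 0, nat_lit 0, nat_lit 0, nat_lit 0, nat_lit 0, nat_lit 0, nat_lit 0, nat_lit 0, nat_lit 0, nat_lit 0, nat_lit 0, nat_lit 0, nat_lit 0, false, false⟩,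
 nat_lit 0, nat_lit 8087, nat_lit 0, nat_lit 0, nat_lit 5598, nat_lit 4979, nat_lit 1764, nat_lit 0, nat_lit 0, nat_lit 0, nat_lit 0, nat_lit 0, nat_lit 0, nat_lit 0, nat_lit 0, nat_lit 0, nat_lit 0, nat_lit 0, [],
 ⟨p073_k11, nat_lit 0, nat_lit 0, nat_lit 229, nat_lit 0, nat_lit 498417, [nat_lit 3282000000, nat_lit 4688000000, nat_lit 6250000000], [], [nat_lit 19517387664, nat_lit 19801136384, nat_lit 21821956556, nat_lit 22062788999, nat_lit 23216795260, nat_lit 23463062277, nat_lit 25378225184, nat_lit 25667058944], nat_lit 1271250, nat_lit 1271250, nat_lit 780000, nat_lit 1762500, nat_lit 1271250, nat_lit 1271250, [nat_lit 780000, nat_lit 1100000, nat_lit 1442500], [nat_lit 59, nat_lit 40, nat_lit 40, nat_lit 80, nat_lit 3, nat_lit 272, nat_lit 60, nat_lit 9]⟩, ⟨p073_k11, nat_lit 0, nat_lit 0, nat_lit 45, nat_lit 0, nat_lit 0, [nat_lit 3282000000, nat_lit 4688000000, nat_lit 6250000000], [], [nat_lit 14402567156,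 nat_lit 14853945753, nat_lit 18470376128, nat_lit 18829621356, nat_lit 22747445506, nat_lit 23055343999, nat_lit 25071320032, nat_lit 25344914012], nat_lit 0, nat_lit 0, nat_lit 0, nat_lit 0, nat_lit 0, nat_lit 0, [], [nat_lit 59, nat_lit 40, nat_lit 40, nat_lit 80, nat_lit 3, nat_lit 373, nat_lit 150, nat_lit 14]⟩,
 zbF0, [⟨nat_lit 16, nat_lit 94, nat_lit 88, nat_lit 100, nat_lit 167624570⟩, ⟨nat_lit 19, nat_lit 94, nat_lit 88, nat_lit 100, nat_lit 176038582⟩, ⟨nat_lit 11, nat_lit 75, nat_lit 75, nat_lit 100, nat_lit 420431250⟩]⟩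
noncomputable def p073_l26 : Lf2 := ⟨nat_lit 0, nat_lit 5, [nat_lit 4, nat_lit 5, nat_lit 5, nat_lit 20], false, nat_lit 240, nat_lit 316, nat_lit 160, nat_lit 320, ⟨nat_lit 1000, nat_lit 0, nat_lit 0, nat_lit 0, nat_lit 0, nat_lit 0, nat_lit 0, nat_lit 0, nat_lit 0, nat_lit 0, nat_lit 0, nat_lit 0, nat_lit 0, nat_lit 0, nat_lit 0, nat_lit 0, false, false⟩,
 nat_lit 0, nat_lit 8277, nat_lit 0, nat_lit 0, nat_lit 5848, nat_lit 4949, nat_lit 1367, nat_lit 0, nat_lit 0, nat_lit 0, nat_lit 0, nat_lit 0, nat_lit 0, nat_lit 0, nat_lit 0, nat_lit 0, nat_lit 0, nat_lit 0, [],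
 ⟨p073_k12, nat_lit 0, nat_lit 0, nat_lit 252, nat_lit 0, nat_lit 566894, [nat_lit 3282000000, nat_lit 4688000000, nat_lit 6250000000], [], [nat_lit 20174442751, nat_lit 20447401743, nat_lit 22326418419, nat_lit 22545826887, nat_lit 23484789180, nat_lit 23710485357, nat_lit 25567330459, nat_lit 25866097233], nat_lit 1271250, nat_lit 1271250, nat_lit 780000, nat_lit 1762500, nat_lit 1271250, nat_lit 1271250, [nat_lit 780000, nat_lit 1100000, nat_lit 1442500], [nat_lit 59, nat_lit 40, nat_lit 40, nat_lit 80, nat_lit 3, nat_lit 272, nat_lit 60, nat_lit 9]⟩, ⟨p073_k11, nat_lit 0, nat_lit 0, nat_lit 47, nat_lit 0, nat_lit 0, [nat_lit 3282000000, nat_lit 4688000000, nat_lit 6250000000], [], [nat_lit 14436780236, nat_lit 15336354850, nat_lit 18499979168, nat_lit 19216151704, nat_lit 22760699086, nat_lit 23374674621, nat_lit 25059874870, nat_lit 25602156552], nat_lit 0, nat_lit 0, nat_lit 0, nat_lit 0, nat_lit 0, nat_lit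 0, [], [nat_lit 59, nat_lit 40, nat_lit 40, nat_lit 80, nat_lit 3, nat_lit 373, nat_lit 150, nat_lit 14]⟩,
 zbF0, [⟨nat_lit 0, nat_lit 91, nat_lit 91, nat_lit 100, nat_lit 301148320⟩, ⟨nat_lit 16, nat_lit 93, nat_lit 90, nat_lit 100, nat_lit 492158946⟩, ⟨nat_lit 7, nat_lit 95, nat_lit 95, nat_lit 100, nat_lit 500749892⟩]⟩
noncomputable def b_V_700_700_20_52 : St := ⟨true, nat_lit 1, nat_lit 0, nat_lit 2, nat_lit 120, nat_lit 300, nat_lit 310, nat_lit 300, nat_lit 310, nat_lit 120, nat_lit 240, nat_lit 100, nat_lit 120, nat_lit 240, nat_lit 320, nat_lit 160, nat_lit 320, nat_lit 8, nat_lit 20, nat_lit 0, nat_lit 0, nat_lit 0, nat_lit 0⟩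
theorem d_V_700_700_20_52 (h : EB TB.env) : Dead b_V_700_700_20_52 := chkB_sound0 h (T :=
(.spl (nat_lit 0) (nat_lit 305)
(.ord (.leaf p073_l25))
(.trX (nat_lit 16) (nat_lit 93) (nat_lit 90) (nat_lit 100) (nat_lit 316) (.leaf p073_l26)))) (by decide +kernel)
noncomputable def p073_l27 : Lf2 := ⟨nat_lit 0, nat_lit 5, [nat_lit 4, nat_lit 5, nat_lit 5, nat_lit 20], false, nat_lit 160, nat_lit 312, nat_lit 160, nat_lit 320, ⟨nat_lit 725, nat_lit 275, nat_lit 0, nat_lit 7, nat_lit 200, nat_lit 275, nat_lit 182, nat_lit 0, nat_lit 0, nat_lit 0, nat_lit 0, nat_lit 0, nat_lit 0, nat_lit 0, nat_lit 0, nat_lit 5000000, false, false⟩,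
 nat_lit 0, nat_lit 1756, nat_lit 0, nat_lit 0, nat_lit 1265, nat_lit 3600, nat_lit 388, nat_lit 0, nat_lit 317, nat_lit 0, nat_lit 0, nat_lit 0, nat_lit 0, nat_lit 0, nat_lit 0, nat_lit 110000, nat_lit 0, nat_lit 0, [(nat_lit 15, [(nat_lit 1, nat_lit 275)])],
 ⟨p073_k13, nat_lit 0, nat_lit 0, nat_lit 0, nat_lit 0, nat_lit 897007, [nat_lit 2935005001, nat_lit 4008200000, nat_lit 5171010000], [], [nat_lit 16386597954, nat_lit 16726045990, nat_lit 17316565253, nat_lit 17652355163, nat_lit 20347152826, nat_lit 20773413875, nat_lit 21938228008, nat_lit 21674188128], nat_lit 1271250, nat_lit 1271250, nat_lit 689850, nat_lit 1100001, nat_lit 1100001, nat_lit 2401500, [nat_lit 780000, nat_lit 1100000, nat_lit 1442500], [nat_lit 59, nat_lit 40, nat_lit 40, nat_lit 80]⟩, ⟨p073_k11, nat_lit 0, nat_lit 0, nat_lit 51, nat_lit 0, nat_lit 0, [nat_lit 2379450000, nat_lit 3398800000, nat_lit 4531250000], [], [nat_lit 10404247550,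 nat_lit 11068312141, nat_lit 11080797100, nat_lit 11693481750, nat_lit 16535637531, nat_lit 17033428793, nat_lit 16753586100, nat_lit 17173703000], nat_lit 0, nat_lit 0, nat_lit 0, nat_lit 0, nat_lit 0, nat_lit 0, [], [nat_lit 59, nat_lit 40, nat_lit 40, nat_lit 80, nat_lit 3, nat_lit 345, nat_lit 125, nat_lit 12]⟩,
 ⟨nat_lit 4472, nat_lit 4744, ⟨.ofNat (nat_lit 447115), .ofNat (nat_lit 537724), .ofNat (nat_lit 457857), .ofNat (nat_lit 548466), .ofNat (nat_lit 451467), .ofNat (nat_lit 539838), .ofNat (nat_lit 462248), .ofNat (nat_lit 550619)⟩, ⟨.ofNat (nat_lit 301370), .ofNat (nat_lit 566229), .ofNat (nat_lit 344346), .ofNat (nat_lit 609205), .ofNat (nat_lit 302621), .ofNat (nat_lit 560938), .ofNat (nat_lit 345754), .ofNat (nat_lit 604071)⟩⟩, [⟨nat_lit 0, nat_lit 97, nat_lit 93, nat_lit 100, nat_lit 85380774⟩, ⟨nat_lit 19, nat_lit 94, nat_lit 88, nat_lit 100, nat_lit 189415501⟩, ⟨nat_lit 11, nat_lit 86, nat_lit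 86, nat_lit 100, nat_lit 182276944⟩]⟩
noncomputable def p073_l28 : Lf2 := ⟨nat_lit 0, nat_lit 2, [nat_lit 10, nat_lit 5, nat_lit 5, nat_lit 20], false, nat_lit 160, nat_lit 240, nat_lit 160, nat_lit 320, ⟨nat_lit 1000, nat_lit 0, nat_lit 0, nat_lit 0, nat_lit 0, nat_lit 0, nat_lit 0, nat_lit 0, nat_lit 0, nat_lit 0, nat_lit 0, nat_lit 0, nat_lit 0, nat_lit 0, nat_lit 0, nat_lit 0, false, false⟩,
 nat_lit 0, nat_lit 10028, nat_lit 0, nat_lit 0, nat_lit 7229, nat_lit 4966, nat_lit 1206, nat_lit 0, nat_lit 0, nat_lit 0, nat_lit 0, nat_lit 0, nat_lit 0, nat_lit 0, nat_lit 0, nat_lit 0, nat_lit 0, nat_lit 0, [],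
 ⟨p073_k14, nat_lit 0, nat_lit 0, nat_lit 328, nat_lit 0, nat_lit 881629, [nat_lit 3282000000, nat_lit 4688000000], [], [nat_lit 14156584620, nat_lit 14797399177, nat_lit 14521241839, nat_lit 15110220192, nat_lit 16325570754, nat_lit 16906631676, nat_lit 16532214067, nat_lit 17066433140], nat_lit 1271250, nat_lit 1271250, nat_lit 689850, nat_lit 1100001, nat_lit 1100001, nat_lit 1785000, [nat_lit 780000, nat_lit 1100000], [nat_lit 40, nat_lit 40, nat_lit 40, nat_lit 80, nat_lit 22, nat_lit 249, nat_lit 40, nat_lit 10]⟩, ⟨p073_k0, nat_lit 0, nat_lit 0, nat_lit 43, nat_lit 0, nat_lit 0, [nat_lit 3282000000, nat_lit 4688000000], [], [nat_lit 14350156554, nat_lit 15266160008, nat_lit 15283291348, nat_lit 16128420618, nat_lit 22807591758, nat_lit 23494752230, nat_lit 23108128836, nat_lit 23687627154], nat_lit 0, nat_lit 0, nat_lit 0, nat_lit 0, nat_lit 0, nat_lit 0, [], [nat_lit 40, nat_lit 40, nat_lit 40, nat_lit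 80, nat_lit 22, nat_lit 249, nat_lit 40, nat_lit 10]⟩,
 zbF0, [⟨nat_lit 0, nat_lit 93, nat_lit 89, nat_lit 100, nat_lit 131121029⟩, ⟨nat_lit 0, nat_lit 89, nat_lit 85, nat_lit 100, nat_lit 499584551⟩, ⟨nat_lit 19, nat_lit 97, nat_lit 100, nat_lit 98, nat_lit 485861987⟩]⟩
noncomputable def p073_l29 : Lf2 := ⟨nat_lit 0, nat_lit 1, [nat_lit 19, nat_lit 5, nat_lit 5, nat_lit 20], false, nat_lit 240, nat_lit 312, nat_lit 160, nat_lit 240, ⟨nat_lit 1000, nat_lit 0, nat_lit 0, nat_lit 0, nat_lit 0, nat_lit 0, nat_lit 0, nat_lit 0, nat_lit 0, nat_lit 0, nat_lit 0, nat_lit 0, nat_lit 0, nat_lit 0, nat_lit 0, nat_lit 0, false, false⟩,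
 nat_lit 0, nat_lit 9379, nat_lit 0, nat_lit 0, nat_lit 6761, nat_lit 5447, nat_lit 1206, nat_lit 0, nat_lit 0, nat_lit 0, nat_lit 0, nat_lit 0, nat_lit 0, nat_lit 0, nat_lit 0, nat_lit 0, nat_lit 0, nat_lit 0, [],
 ⟨p073_k15, nat_lit 0, nat_lit 0, nat_lit 337, nat_lit 0, nat_lit 876502, [nat_lit 3282000000, nat_lit 4688000000], [], [nat_lit 18121915278, nat_lit 18682528437, nat_lit 18232069766, nat_lit 18765753234, nat_lit 21267895966, nat_lit 21940108979, nat_lit 21225307524, nat_lit 21868065147], nat_lit 1271250, nat_lit 1271250, nat_lit 689850, nat_lit 936251, nat_lit 1271250, nat_lit 1271250, [nat_lit 780000, nat_lit 1100000], [nat_lit 40, nat_lit 40, nat_lit 40, nat_lit 80, nat_lit 22, nat_lit 249, nat_lit 40, nat_lit 10]⟩, ⟨p073_k5, nat_lit 0, nat_lit 0, nat_lit 14, nat_lit 0, nat_lit 0, [nat_lit 3282000000, nat_lit 4688000000], [], [nat_lit 13822364393, nat_lit 14790472124, nat_lit 14293738987, nat_lit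 15215917816, nat_lit 17396472153, nat_lit 18277464840, nat_lit 17700282071, nat_lit 18479816623], nat_lit 0, nat_lit 0, nat_lit 0, nat_lit 0, nat_lit 0, nat_lit 0, [], [nat_lit 40, nat_lit 40, nat_lit 40, nat_lit 80, nat_lit 22, nat_lit 249, nat_lit 40, nat_lit 10]⟩,
 zbF0, [⟨nat_lit 0, nat_lit 93, nat_lit 89, nat_lit 100, nat_lit 590685227⟩, ⟨nat_lit 4, nat_lit 100, nat_lit 90, nat_lit 95, nat_lit 538636577⟩]⟩
noncomputable def p073_l30 : Lf2 := ⟨nat_lit 0, nat_lit 1, [nat_lit 19, nat_lit 5, nat_lit 5, nat_lit 20], false, nat_lit 240, nat_lit 292, nat_lit 240, nat_lit 300, ⟨nat_lit 1000, nat_lit 0, nat_lit 0, nat_lit 0, nat_lit 0, nat_lit 0, nat_lit 0, nat_lit 0, nat_lit 0, nat_lit 0, nat_lit 0, nat_lit 0, nat_lit 0, nat_lit 0, nat_lit 0, nat_lit 0, false, false⟩,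
 nat_lit 0, nat_lit 9614, nat_lit 0, nat_lit 0, nat_lit 6930, nat_lit 5088, nat_lit 1167, nat_lit 0, nat_lit 0, nat_lit 0, nat_lit 0, nat_lit 0, nat_lit 0, nat_lit 0, nat_lit 0, nat_lit 0, nat_lit 0, nat_lit 0, [],
 ⟨p073_k15, nat_lit 0, nat_lit 0, nat_lit 300, nat_lit 0, nat_lit 812231, [nat_lit 3282000000, nat_lit 4688000000], [], [nat_lit 17515899628, nat_lit 17781787734, nat_lit 17571017600, nat_lit 17840747718, nat_lit 19770114865, nat_lit 20122212339, nat_lit 19763092384, nat_lit 20108988223], nat_lit 1271250, nat_lit 1271250, nat_lit 689850, nat_lit 936251, nat_lit 1271250, nat_lit 1271250, [nat_lit 780000, nat_lit 1100000], [nat_lit 40, nat_lit 40, nat_lit 40, nat_lit 80, nat_lit 22, nat_lit 249, nat_lit 40, nat_lit 10]⟩, ⟨p073_k5, nat_lit 0, nat_lit 0, nat_lit 36, nat_lit 0, nat_lit 0, [nat_lit 3282000000, nat_lit 4688000000], [], [nat_lit 17709704751, nat_lit 18496067872, nat_lit 18042914184, nat_lit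 18793432740, nat_lit 21498217715, nat_lit 22239567110, nat_lit 21663323076, nat_lit 22304987328], nat_lit 0, nat_lit 0, nat_lit 0, nat_lit 0, nat_lit 0, nat_lit 0, [], [nat_lit 40, nat_lit 40, nat_lit 40, nat_lit 80, nat_lit 22, nat_lit 249, nat_lit 40, nat_lit 10]⟩,
 zbF0, [⟨nat_lit 0, nat_lit 97, nat_lit 93, nat_lit 100, nat_lit 573815062⟩, ⟨nat_lit 16, nat_lit 93, nat_lit 100, nat_lit 97, nat_lit 498487698⟩, ⟨nat_lit 19, nat_lit 100, nat_lit 100, nat_lit 100, nat_lit 536215391⟩]⟩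
noncomputable def p073_l31 : Lf2 := ⟨nat_lit 0, nat_lit 1, [nat_lit 19, nat_lit 5, nat_lit 5, nat_lit 20], false, nat_lit 240, nat_lit 312, nat_lit 240, nat_lit 320, ⟨nat_lit 1000, nat_lit 0, nat_lit 0, nat_lit 0, nat_lit 0, nat_lit 0, nat_lit 0, nat_lit 0, nat_lit 0, nat_lit 0, nat_lit 0, nat_lit 0, nat_lit 0, nat_lit 0, nat_lit 0, nat_lit 0, false, false⟩,
 nat_lit 0, nat_lit 9043, nat_lit 0, nat_lit 0, nat_lit 6519, nat_lit 4979, nat_lit 1264, nat_lit 0, nat_lit 0, nat_lit 0, nat_lit 0, nat_lit 0, nat_lit 0, nat_lit 0, nat_lit 0, nat_lit 0, nat_lit 0, nat_lit 0, [],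
 ⟨p073_k15, nat_lit 0, nat_lit 0, nat_lit 259, nat_lit 0, nat_lit 668955, [nat_lit 3282000000, nat_lit 4688000000], [], [nat_lit 18104629029, nat_lit 18417269319, nat_lit 18077519206, nat_lit 18385548253, nat_lit 21622984184, nat_lit 21911991067, nat_lit 21537579952, nat_lit 21793205196], nat_lit 1271250, nat_lit 1271250, nat_lit 689850, nat_lit 780000, nat_lit 1271250, nat_lit 1271250, [nat_lit 780000, nat_lit 1100000], [nat_lit 40, nat_lit 40, nat_lit 40, nat_lit 80, nat_lit 22, nat_lit 238, nat_lit 30, nat_lit 9]⟩, ⟨p073_k5, nat_lit 0, nat_lit 0, nat_lit 41, nat_lit 0, nat_lit 0, [nat_lit 3282000000, nat_lit 4688000000], [], [nat_lit 17804808799, nat_lit 18193292508, nat_lit 17823512966, nat_lit 18205976424, nat_lit 22815953609, nat_lit 23160303581, nat_lit 22747445506, nat_lit 23055343999], nat_lit 0, nat_lit 0, nat_lit 0, nat_lit 0, nat_lit 0, nat_lit 0, [], [nat_lit 40, nat_lit 40, nat_lit 40, nat_lit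 80, nat_lit 22, nat_lit 238, nat_lit 30, nat_lit 9]⟩,
 zbF0, [⟨nat_lit 0, nat_lit 93, nat_lit 89, nat_lit 100, nat_lit 550969659⟩, ⟨nat_lit 16, nat_lit 91, nat_lit 91, nat_lit 100, nat_lit 312350610⟩, ⟨nat_lit 19, nat_lit 94, nat_lit 88, nat_lit 100, nat_lit 375136285⟩, ⟨nat_lit 11, nat_lit 94, nat_lit 94, nat_lit 100, nat_lit 206878398⟩]⟩
noncomputable def p073_l32 : Lf2 := ⟨nat_lit 0, nat_lit 1, [nat_lit 19, nat_lit 5, nat_lit 5, nat_lit 20], false, nat_lit 240, nat_lit 312, nat_lit 240, nat_lit 316, ⟨nat_lit 1000, nat_lit 0, nat_lit 0, nat_lit 0, nat_lit 0, nat_lit 0, nat_lit 0, nat_lit 0, nat_lit 0, nat_lit 0, nat_lit 0, nat_lit 0, nat_lit 0, nat_lit 0, nat_lit 0, nat_lit 0, false, false⟩,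
 nat_lit 0, nat_lit 9043, nat_lit 0, nat_lit 0, nat_lit 6519, nat_lit 5001, nat_lit 1242, nat_lit 0, nat_lit 0, nat_lit 0, nat_lit 0, nat_lit 0, nat_lit 0, nat_lit 0, nat_lit 0, nat_lit 0, nat_lit 0, nat_lit 0, [],
 ⟨p073_k15, nat_lit 0, nat_lit 0, nat_lit 266, nat_lit 0, nat_lit 693629, [nat_lit 3282000000, nat_lit 4688000000], [], [nat_lit 18122862337, nat_lit 18414741038, nat_lit 18096628954, nat_lit 18385548253, nat_lit 21594516106, nat_lit 21872007411, nat_lit 21537579952, nat_lit 21793205196], nat_lit 1271250, nat_lit 1271250, nat_lit 719601, nat_lit 780000, nat_lit 1271250, nat_lit 1271250, [nat_lit 780000, nat_lit 1100000], [nat_lit 40, nat_lit 40, nat_lit 40, nat_lit 80, nat_lit 22, nat_lit 238, nat_lit 30, nat_lit 9]⟩, ⟨p073_k4, nat_lit 0, nat_lit 0, nat_lit 39, nat_lit 0, nat_lit 0, [nat_lit 3282000000, nat_lit 4688000000], [], [nat_lit 18178903473, nat_lit 18411354571, nat_lit 18186619647, nat_lit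 18416654662, nat_lit 22870199263, nat_lit 23078960769, nat_lit 22803308926, nat_lit 23008326784], nat_lit 0, nat_lit 0, nat_lit 0, nat_lit 0, nat_lit 0, nat_lit 0, [], [nat_lit 40, nat_lit 40, nat_lit 40, nat_lit 80, nat_lit 22, nat_lit 238, nat_lit 30, nat_lit 9]⟩,
 zbF0, [⟨nat_lit 0, nat_lit 92, nat_lit 90, nat_lit 100, nat_lit 587692477⟩, ⟨nat_lit 16, nat_lit 91, nat_lit 91, nat_lit 100, nat_lit 349709088⟩, ⟨nat_lit 19, nat_lit 93, nat_lit 90, nat_lit 100, nat_lit 413676405⟩, ⟨nat_lit 11, nat_lit 93, nat_lit 93, nat_lit 100, nat_lit 172547827⟩]⟩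
noncomputable def p073_l33 : Lf2 := ⟨nat_lit 0, nat_lit 1, [nat_lit 19, nat_lit 5, nat_lit 5, nat_lit 20], false, nat_lit 240, nat_lit 312, nat_lit 240, nat_lit 312, ⟨nat_lit 1000, nat_lit 0, nat_lit 0, nat_lit 0, nat_lit 0, nat_lit 0, nat_lit 0, nat_lit 0, nat_lit 0, nat_lit 0, nat_lit 0, nat_lit 0, nat_lit 0, nat_lit 0, nat_lit 0, nat_lit 0, false, false⟩,
 nat_lit 0, nat_lit 9104, nat_lit 0, nat_lit 0, nat_lit 6563, nat_lit 5007, nat_lit 1253, nat_lit 0, nat_lit 0, nat_lit 0, nat_lit 0, nat_lit 0, nat_lit 0, nat_lit 0, nat_lit 0, nat_lit 0, nat_lit 0, nat_lit 0, [],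
 ⟨p073_k15, nat_lit 0, nat_lit 0, nat_lit 269, nat_lit 0, nat_lit 710184, [nat_lit 3282000000, nat_lit 4688000000], [], [nat_lit 17950419204, nat_lit 18256669074, nat_lit 17936694058, nat_lit 18245495681, nat_lit 21446019895, nat_lit 21774217622, nat_lit 21407134775, nat_lit 21733430469], nat_lit 1271250, nat_lit 1271250, nat_lit 749650, nat_lit 780000, nat_lit 1271250, nat_lit 1271250, [nat_lit 780000, nat_lit 1100000], [nat_lit 40, nat_lit 40, nat_lit 40, nat_lit 80, nat_lit 22, nat_lit 238, nat_lit 30, nat_lit 9]⟩, ⟨p073_k7, nat_lit 0, nat_lit 0, nat_lit 38, nat_lit 0, nat_lit 0, [nat_lit 3282000000, nat_lit 4688000000], [], [nat_lit 18408979355, nat_lit 18563243381, nat_lit 18411527434, nat_lit 18564985373, nat_lit 22780951990, nat_lit 22921313338, nat_lit 22747318536, nat_lit 22886444147], nat_lit 0, nat_lit 0, nat_lit 0, nat_lit 0, nat_lit 0, nat_lit 0, [], [nat_lit 40, nat_lit 40, nat_lit 40, nat_lit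 80, nat_lit 22, nat_lit 238, nat_lit 30, nat_lit 9]⟩,
 zbF0, [⟨nat_lit 0, nat_lit 92, nat_lit 91, nat_lit 100, nat_lit 619084551⟩, ⟨nat_lit 16, nat_lit 91, nat_lit 91, nat_lit 100, nat_lit 391420330⟩, ⟨nat_lit 19, nat_lit 92, nat_lit 91, nat_lit 100, nat_lit 452473207⟩, ⟨nat_lit 11, nat_lit 92, nat_lit 92, nat_lit 100, nat_lit 137920351⟩]⟩
noncomputable def p073_l34 : Lf2 := ⟨nat_lit 0, nat_lit 1, [nat_lit 19, nat_lit 5, nat_lit 5, nat_lit 20], false, nat_lit 240, nat_lit 312, nat_lit 240, nat_lit 320, ⟨nat_lit 1000, nat_lit 0, nat_lit 0, nat_lit 0, nat_lit 0, nat_lit 0, nat_lit 0, nat_lit 0, nat_lit 0, nat_lit 0, nat_lit 0, nat_lit 0, nat_lit 0, nat_lit 0, nat_lit 0, nat_lit 0, false, false⟩,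
 nat_lit 0, nat_lit 9043, nat_lit 0, nat_lit 0, nat_lit 6519, nat_lit 4979, nat_lit 1242, nat_lit 0, nat_lit 0, nat_lit 0, nat_lit 0, nat_lit 0, nat_lit 0, nat_lit 0, nat_lit 0, nat_lit 0, nat_lit 0, nat_lit 0, [],
 ⟨p073_k15, nat_lit 0, nat_lit 0, nat_lit 255, nat_lit 0, nat_lit 668955, [nat_lit 3282000000, nat_lit 4688000000], [], [nat_lit 18096628954, nat_lit 18385548253, nat_lit 18268999080, nat_lit 18567319979, nat_lit 21537579952, nat_lit 21793205196, nat_lit 21617560267, nat_lit 21881601739], nat_lit 1271250, nat_lit 1271250, nat_lit 780000, nat_lit 936251, nat_lit 1271250, nat_lit 1271250, [nat_lit 780000, nat_lit 1100000], [nat_lit 40, nat_lit 40, nat_lit 40, nat_lit 80, nat_lit 22, nat_lit 249, nat_lit 40, nat_lit 10]⟩, ⟨p073_k5, nat_lit 0, nat_lit 0, nat_lit 37, nat_lit 0, nat_lit 0, [nat_lit 3282000000, nat_lit 4688000000], [], [nat_lit 17823512966, nat_lit 18205976424, nat_lit 18146944547, nat_lit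 18517798890, nat_lit 22747445506, nat_lit 23055343999, nat_lit 22924208570, nat_lit 23223212358], nat_lit 0, nat_lit 0, nat_lit 0, nat_lit 0, nat_lit 0, nat_lit 0, [], [nat_lit 40, nat_lit 40, nat_lit 40, nat_lit 80, nat_lit 22, nat_lit 249, nat_lit 40, nat_lit 10]⟩,
 zbF0, [⟨nat_lit 0, nat_lit 93, nat_lit 89, nat_lit 100, nat_lit 346415737⟩, ⟨nat_lit 16, nat_lit 91, nat_lit 91, nat_lit 100, nat_lit 526049175⟩, ⟨nat_lit 19, nat_lit 94, nat_lit 88, nat_lit 100, nat_lit 582014683⟩]⟩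
noncomputable def p073_l35 : Lf2 := ⟨nat_lit 0, nat_lit 1, [nat_lit 19, nat_lit 5, nat_lit 5, nat_lit 20], false, nat_lit 240, nat_lit 312, nat_lit 240, nat_lit 316, ⟨nat_lit 1000, nat_lit 0, nat_lit 0, nat_lit 0, nat_lit 0, nat_lit 0, nat_lit 0, nat_lit 0, nat_lit 0, nat_lit 0, nat_lit 0, nat_lit 0, nat_lit 0, nat_lit 0, nat_lit 0, nat_lit 0, false, false⟩,
 nat_lit 0, nat_lit 9043, nat_lit 0, nat_lit 0, nat_lit 6519, nat_lit 5000, nat_lit 1242, nat_lit 0, nat_lit 0, nat_lit 0, nat_lit 0, nat_lit 0, nat_lit 0, nat_lit 0, nat_lit 0, nat_lit 0, nat_lit 0, nat_lit 0, [],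
 ⟨p073_k15, nat_lit 0, nat_lit 0, nat_lit 263, nat_lit 0, nat_lit 693629, [nat_lit 3282000000, nat_lit 4688000000], [], [nat_lit 18096628954, nat_lit 18385548253, nat_lit 18268999080, nat_lit 18567319979, nat_lit 21537579952, nat_lit 21793205196, nat_lit 21617560267, nat_lit 21881601739], nat_lit 1271250, nat_lit 1271250, nat_lit 780000, nat_lit 936251, nat_lit 1271250, nat_lit 1271250, [nat_lit 780000, nat_lit 1100000], [nat_lit 40, nat_lit 40, nat_lit 40, nat_lit 80, nat_lit 22, nat_lit 249, nat_lit 40, nat_lit 10]⟩, ⟨p073_k4, nat_lit 0, nat_lit 0, nat_lit 37, nat_lit 0, nat_lit 0, [nat_lit 3282000000, nat_lit 4688000000], [], [nat_lit 18187499500, nat_lit 18417509200, nat_lit 18498605000, nat_lit 18721626801, nat_lit 22803743775, nat_lit 23007677060, nat_lit 22977662388, nat_lit 23159593030], nat_lit 0, nat_lit 0, nat_lit 0, nat_lit 0, nat_lit 0, nat_lit 0, [], [nat_lit 40, nat_lit 40, nat_lit 40, nat_lit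 80, nat_lit 22, nat_lit 249, nat_lit 40, nat_lit 10]⟩,
 zbF0, [⟨nat_lit 0, nat_lit 92, nat_lit 90, nat_lit 100, nat_lit 413269130⟩, ⟨nat_lit 16, nat_lit 91, nat_lit 91, nat_lit 100, nat_lit 526049175⟩, ⟨nat_lit 19, nat_lit 93, nat_lit 90, nat_lit 100, nat_lit 586119303⟩]⟩
noncomputable def p073_l36 : Lf2 := ⟨nat_lit 0, nat_lit 1, [nat_lit 19, nat_lit 5, nat_lit 5, nat_lit 20], false, nat_lit 240, nat_lit 312, nat_lit 240, nat_lit 312, ⟨nat_lit 1000, nat_lit 0, nat_lit 0, nat_lit 0, nat_lit 0, nat_lit 0, nat_lit 0, nat_lit 0, nat_lit 0, nat_lit 0, nat_lit 0, nat_lit 0, nat_lit 0, nat_lit 0, nat_lit 0, nat_lit 0, false, false⟩,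
 nat_lit 0, nat_lit 9104, nat_lit 0, nat_lit 0, nat_lit 6563, nat_lit 5007, nat_lit 1253, nat_lit 0, nat_lit 0, nat_lit 0, nat_lit 0, nat_lit 0, nat_lit 0, nat_lit 0, nat_lit 0, nat_lit 0, nat_lit 0, nat_lit 0, [],
 ⟨p073_k15, nat_lit 0, nat_lit 0, nat_lit 268, nat_lit 0, nat_lit 710184, [nat_lit 3282000000, nat_lit 4688000000], [], [nat_lit 17936694058, nat_lit 18245495681, nat_lit 18126277160, nat_lit 18425676983, nat_lit 21407134775, nat_lit 21733430469, nat_lit 21504451548, nat_lit 21820708030], nat_lit 1271250, nat_lit 1271250, nat_lit 780000, nat_lit 936251, nat_lit 1271250, nat_lit 1271250, [nat_lit 780000, nat_lit 1100000], [nat_lit 40, nat_lit 40, nat_lit 40, nat_lit 80, nat_lit 22, nat_lit 249, nat_lit 40, nat_lit 10]⟩, ⟨p073_k7, nat_lit 0, nat_lit 0, nat_lit 36, nat_lit 0, nat_lit 0, [nat_lit 3282000000, nat_lit 4688000000], [], [nat_lit 18411527434, nat_lit 18564985373, nat_lit 18715398569, nat_lit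 18864192923, nat_lit 22747318536, nat_lit 22886444147, nat_lit 22922559708, nat_lit 23045373049], nat_lit 0, nat_lit 0, nat_lit 0, nat_lit 0, nat_lit 0, nat_lit 0, [], [nat_lit 40, nat_lit 40, nat_lit 40, nat_lit 80, nat_lit 22, nat_lit 249, nat_lit 40, nat_lit 10]⟩,
 zbF0, [⟨nat_lit 0, nat_lit 92, nat_lit 91, nat_lit 100, nat_lit 481164201⟩, ⟨nat_lit 16, nat_lit 91, nat_lit 91, nat_lit 100, nat_lit 530856289⟩, ⟨nat_lit 19, nat_lit 92, nat_lit 91, nat_lit 100, nat_lit 590393558⟩]⟩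
noncomputable def p073_l37 : Lf2 := ⟨nat_lit 0, nat_lit 1, [nat_lit 19, nat_lit 5, nat_lit 5, nat_lit 20], false, nat_lit 240, nat_lit 304, nat_lit 240, nat_lit 320, ⟨nat_lit 828, nat_lit 172, nat_lit 0, nat_lit 7, nat_lit 194, nat_lit 172, nat_lit 206, nat_lit 0, nat_lit 0, nat_lit 0, nat_lit 0, nat_lit 0, nat_lit 0, nat_lit 0, nat_lit 0, nat_lit 5000000, false, false⟩,
 nat_lit 0, nat_lit 8834, nat_lit 0, nat_lit 0, nat_lit 6496, nat_lit 4123, nat_lit 822, nat_lit 0, nat_lit 0, nat_lit 0, nat_lit 0, nat_lit 0, nat_lit 0, nat_lit 0, nat_lit 0, nat_lit 172000, nat_lit 0, nat_lit 0, [(nat_lit 15, [(nat_lit 2, nat_lit 172)])],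
 ⟨p073_k16, nat_lit 0, nat_lit 0, nat_lit 304, nat_lit 0, nat_lit 811270, [nat_lit 3058303680, nat_lit 4153561600], [], [nat_lit 18320047339, nat_lit 18575936283, nat_lit 18413186132, nat_lit 18673936224, nat_lit 20976573185, nat_lit 21304182714, nat_lit 21000245630, nat_lit 21322404557], nat_lit 1271250, nat_lit 1271250, nat_lit 719601, nat_lit 936251, nat_lit 1271250, nat_lit 1271250, [nat_lit 780000, nat_lit 1100000], [nat_lit 40, nat_lit 40, nat_lit 40, nat_lit 80, nat_lit 22, nat_lit 249, nat_lit 40, nat_lit 10]⟩, ⟨p073_k5, nat_lit 0, nat_lit 0, nat_lit 40, nat_lit 0, nat_lit 0, [nat_lit 2717496000, nat_lit 3881664000], [], [nat_lit 14747199094, nat_lit 15067218621, nat_lit 15025299775, nat_lit 15332382851, nat_lit 18865192550, nat_lit 19147951371, nat_lit 18981052182, nat_lit 19228638579], nat_lit 0, nat_lit 0, nat_lit 0, nat_lit 0, nat_lit 0, nat_lit 0, [], [nat_lit 40, nat_lit 40, nat_lit 40, nat_lit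 80, nat_lit 22, nat_lit 249, nat_lit 40, nat_lit 10]⟩,
 ⟨nat_lit 4472, nat_lit 4610, ⟨.ofNat (nat_lit 456175), .ofNat (nat_lit 504361), .ofNat (nat_lit 461556), .ofNat (nat_lit 509743), .ofNat (nat_lit 458276), .ofNat (nat_lit 505860), .ofNat (nat_lit 463667), .ofNat (nat_lit 511252)⟩, ⟨.ofNat (nat_lit 439688), .ofNat (nat_lit 549830), .ofNat (nat_lit 482738), .ofNat (nat_lit 592879), .ofNat (nat_lit 438578), .ofNat (nat_lit 547343), .ofNat (nat_lit 481711), .ofNat (nat_lit 590476)⟩⟩, [⟨nat_lit 0, nat_lit 93, nat_lit 88, nat_lit 100, nat_lit 509611287⟩, ⟨nat_lit 16, nat_lit 89, nat_lit 93, nat_lit 100, nat_lit 472116965⟩, ⟨nat_lit 19, nat_lit 94, nat_lit 88, nat_lit 100, nat_lit 473960639⟩]⟩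
noncomputable def p073_l38 : Lf2 := ⟨nat_lit 0, nat_lit 1, [nat_lit 19, nat_lit 5, nat_lit 5, nat_lit 20], false, nat_lit 240, nat_lit 304, nat_lit 240, nat_lit 316, ⟨nat_lit 1000, nat_lit 0, nat_lit 0, nat_lit 0, nat_lit 0, nat_lit 0, nat_lit 0, nat_lit 0, nat_lit 0, nat_lit 0, nat_lit 0, nat_lit 0, nat_lit 0, nat_lit 0, nat_lit 0, nat_lit 0, false, false⟩,
 nat_lit 0, nat_lit 9244, nat_lit 0, nat_lit 0, nat_lit 6798, nat_lit 5002, nat_lit 995, nat_lit 0, nat_lit 0, nat_lit 0, nat_lit 0, nat_lit 0, nat_lit 0, nat_lit 0, nat_lit 0, nat_lit 0, nat_lit 0, nat_lit 0, [],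
 ⟨p073_k16, nat_lit 0, nat_lit 0, nat_lit 324, nat_lit 0, nat_lit 852679, [nat_lit 3282000000, nat_lit 4688000000], [], [nat_lit 18242959442, nat_lit 18501785805, nat_lit 18354816471, nat_lit 18622407612, nat_lit 20928786041, nat_lit 21268788703, nat_lit 21018740165, nat_lit 21349005739], nat_lit 1271250, nat_lit 1271250, nat_lit 780000, nat_lit 936251, nat_lit 1271250, nat_lit 1271250, [nat_lit 780000, nat_lit 1100000], [nat_lit 40, nat_lit 40, nat_lit 40, nat_lit 80, nat_lit 22, nat_lit 249, nat_lit 40, nat_lit 10]⟩, ⟨p073_k4, nat_lit 0, nat_lit 0, nat_lit 38, nat_lit 0, nat_lit 0, [nat_lit 3282000000, nat_lit 4688000000], [], [nat_lit 18185739793, nat_lit 18569173678, nat_lit 18496777011, nat_lit 18868560835, nat_lit 22802874076, nat_lit 23146858096, nat_lit 22976683407, nat_lit 23285515955], nat_lit 0, nat_lit 0, nat_lit 0, nat_lit 0, nat_lit 0, nat_lit 0, [], [nat_lit 40, nat_lit 40, nat_lit 40, nat_lit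 80, nat_lit 22, nat_lit 249, nat_lit 40, nat_lit 10]⟩,
 zbF0, [⟨nat_lit 0, nat_lit 93, nat_lit 89, nat_lit 100, nat_lit 564434316⟩, ⟨nat_lit 16, nat_lit 89, nat_lit 93, nat_lit 100, nat_lit 503713136⟩, ⟨nat_lit 19, nat_lit 93, nat_lit 90, nat_lit 100, nat_lit 578252250⟩]⟩
noncomputable def p073_l39 : Lf2 := ⟨nat_lit 0, nat_lit 1, [nat_lit 19, nat_lit 5, nat_lit 5, nat_lit 20], false, nat_lit 240, nat_lit 312, nat_lit 160, nat_lit 320, ⟨nat_lit 1000, nat_lit 0, nat_lit 0, nat_lit 0, nat_lit 0, nat_lit 0, nat_lit 0, nat_lit 0, nat_lit 0, nat_lit 0, nat_lit 0, nat_lit 0, nat_lit 0, nat_lit 0, nat_lit 0, nat_lit 0, false, false⟩,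
 nat_lit 0, nat_lit 9259, nat_lit 0, nat_lit 0, nat_lit 6674, nat_lit 4974, nat_lit 1181, nat_lit 0, nat_lit 0, nat_lit 0, nat_lit 0, nat_lit 0, nat_lit 0, nat_lit 0, nat_lit 0, nat_lit 0, nat_lit 0, nat_lit 0, [],
 ⟨p073_k15, nat_lit 0, nat_lit 0, nat_lit 328, nat_lit 0, nat_lit 876502, [nat_lit 3282000000, nat_lit 4688000000], [], [nat_lit 18572976080, nat_lit 19102809156, nat_lit 18725450302, nat_lit 19238336840, nat_lit 21547034370, nat_lit 21988300517, nat_lit 21599419708, nat_lit 22057416894], nat_lit 1271250, nat_lit 1271250, nat_lit 936251, nat_lit 1100001, nat_lit 1271250, nat_lit 1271250, [nat_lit 780000, nat_lit 1100000], [nat_lit 40, nat_lit 40, nat_lit 40, nat_lit 80, nat_lit 22, nat_lit 249, nat_lit 40, nat_lit 10]⟩, ⟨p073_k5, nat_lit 0, nat_lit 0, nat_lit 36, nat_lit 0, nat_lit 0, [nat_lit 3282000000, nat_lit 4688000000], [], [nat_lit 14841084654, nat_lit 15715152051, nat_lit 15273899972, nat_lit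 16119808002, nat_lit 22926689420, nat_lit 23524406776, nat_lit 23103724404, nat_lit 23683665706], nat_lit 0, nat_lit 0, nat_lit 0, nat_lit 0, nat_lit 0, nat_lit 0, [], [nat_lit 40, nat_lit 40, nat_lit 40, nat_lit 80, nat_lit 22, nat_lit 249, nat_lit 40, nat_lit 10]⟩,
 zbF0, [⟨nat_lit 16, nat_lit 91, nat_lit 91, nat_lit 100, nat_lit 486200101⟩, ⟨nat_lit 19, nat_lit 94, nat_lit 88, nat_lit 100, nat_lit 498455634⟩]⟩
noncomputable def p073_l40 : Lf2 := ⟨nat_lit 0, nat_lit 2, [nat_lit 10, nat_lit 5, nat_lit 5, nat_lit 20], false, nat_lit 240, nat_lit 312, nat_lit 160, nat_lit 320, ⟨nat_lit 957, nat_lit 43, nat_lit 0, nat_lit 7, nat_lit 200, nat_lit 43, nat_lit 209, nat_lit 0, nat_lit 0, nat_lit 0, nat_lit 0, nat_lit 0, nat_lit 0, nat_lit 0, nat_lit 0, nat_lit 5000000, false, false⟩,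
 nat_lit 0, nat_lit 9254, nat_lit 0, nat_lit 0, nat_lit 6671, nat_lit 4752, nat_lit 1037, nat_lit 0, nat_lit 0, nat_lit 0, nat_lit 0, nat_lit 0, nat_lit 0, nat_lit 0, nat_lit 0, nat_lit 43000, nat_lit 0, nat_lit 0, [(nat_lit 15, [(nat_lit 2, nat_lit 43)])],
 ⟨p073_k14, nat_lit 0, nat_lit 0, nat_lit 307, nat_lit 0, nat_lit 806457, [nat_lit 3226075921, nat_lit 4554390400], [], [nat_lit 18356856451, nat_lit 18878408872, nat_lit 18557416591, nat_lit 19037848732, nat_lit 21315452671, nat_lit 21940717387, nat_lit 21332326934, nat_lit 21949802407], nat_lit 1271250, nat_lit 1271250, nat_lit 689850, nat_lit 1100001, nat_lit 1271250, nat_lit 1271250, [nat_lit 780000, nat_lit 1100000], [nat_lit 40, nat_lit 40, nat_lit 40, nat_lit 80, nat_lit 22, nat_lit 249, nat_lit 40, nat_lit 10]⟩, ⟨p073_k0, nat_lit 0, nat_lit 0, nat_lit 43, nat_lit 0, nat_lit 0, [nat_lit 3140874000, nat_lit 4486416000], [], [nat_lit 13733606766, nat_lit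 14610172025, nat_lit 14626652172, nat_lit 15435395910, nat_lit 21827041540, nat_lit 22484126007, nat_lit 22114733652, nat_lit 22669287960], nat_lit 0, nat_lit 0, nat_lit 0, nat_lit 0, nat_lit 0, nat_lit 0, [], [nat_lit 40, nat_lit 40, nat_lit 40, nat_lit 80, nat_lit 22, nat_lit 249, nat_lit 40, nat_lit 10]⟩,
 ⟨nat_lit 4472, nat_lit 4744, ⟨.ofNat (nat_lit 447115), .ofNat (nat_lit 537724), .ofNat (nat_lit 457857), .ofNat (nat_lit 548466), .ofNat (nat_lit 451467), .ofNat (nat_lit 539838), .ofNat (nat_lit 462248), .ofNat (nat_lit 550619)⟩, ⟨.ofNat (nat_lit 440769), .ofNat (nat_lit 566229), .ofNat (nat_lit 483746), .ofNat (nat_lit 609205), .ofNat (nat_lit 438578), .ofNat (nat_lit 560938), .ofNat (nat_lit 481711), .ofNat (nat_lit 604071)⟩⟩, [⟨nat_lit 0, nat_lit 93, nat_lit 89, nat_lit 100, nat_lit 578129820⟩, ⟨nat_lit 16, nat_lit 91, nat_lit 91, nat_lit 100, nat_lit 475741770⟩, ⟨nat_lit 19, nat_lit 94, nat_lit 88,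 nat_lit 100, nat_lit 470074034⟩]⟩
noncomputable def p073_l41 : Lf2 := ⟨nat_lit 0, nat_lit 5, [nat_lit 4, nat_lit 5, nat_lit 5, nat_lit 20], false, nat_lit 160, nat_lit 312, nat_lit 160, nat_lit 320, ⟨nat_lit 1000, nat_lit 0, nat_lit 0, nat_lit 0, nat_lit 0, nat_lit 0, nat_lit 0, nat_lit 0, nat_lit 0, nat_lit 0, nat_lit 0, nat_lit 0, nat_lit 0, nat_lit 0, nat_lit 0, nat_lit 0, false, false⟩,
 nat_lit 0, nat_lit 9257, nat_lit 0, nat_lit 0, nat_lit 6673, nat_lit 4907, nat_lit 1786, nat_lit 0, nat_lit 0, nat_lit 0, nat_lit 0, nat_lit 0, nat_lit 0, nat_lit 0, nat_lit 0, nat_lit 0, nat_lit 0, nat_lit 0, [],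
 ⟨p073_k13, nat_lit 0, nat_lit 0, nat_lit 337, nat_lit 0, nat_lit 758362, [nat_lit 3282000000, nat_lit 4688000000, nat_lit 6250000000], [], [nat_lit 16162376350, nat_lit 16816658985, nat_lit 16663800797, nat_lit 17266063096, nat_lit 21587802463, nat_lit 22051053355, nat_lit 23234750256, nat_lit 22058828118], nat_lit 1271250, nat_lit 1271250, nat_lit 689850, nat_lit 1100001, nat_lit 1100001, nat_lit 2401500, [nat_lit 780000, nat_lit 1100000, nat_lit 1442500], [nat_lit 59, nat_lit 40, nat_lit 40, nat_lit 80, nat_lit 3, nat_lit 345, nat_lit 125, nat_lit 12]⟩, ⟨p073_k11, nat_lit 0, nat_lit 0, nat_lit 51, nat_lit 0, nat_lit 0, [nat_lit 3282000000, nat_lit 4688000000, nat_lit 6250000000], [], [nat_lit 14414896133, nat_lit 15324508418, nat_lit 15352552746, nat_lit 16191938661, nat_lit 22830097060, nat_lit 23450477575, nat_lit 23140611522, nat_lit 23716842833], nat_lit 0, nat_lit 0, nat_lit 0, nat_lit 0, nat_lit 0,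 nat_lit 0, [], [nat_lit 59, nat_lit 40, nat_lit 40, nat_lit 80, nat_lit 3, nat_lit 345, nat_lit 125, nat_lit 12]⟩,
 zbF0, [⟨nat_lit 0, nat_lit 89, nat_lit 85, nat_lit 100, nat_lit 471462165⟩, ⟨nat_lit 16, nat_lit 91, nat_lit 91, nat_lit 100, nat_lit 433777379⟩, ⟨nat_lit 19, nat_lit 94, nat_lit 88, nat_lit 100, nat_lit 489004663⟩]⟩
noncomputable def p073_l42 : Lf2 := ⟨nat_lit 0, nat_lit 5, [nat_lit 4, nat_lit 5, nat_lit 5, nat_lit 20], false, nat_lit 160, nat_lit 312, nat_lit 160, nat_lit 320, ⟨nat_lit 1000, nat_lit 0, nat_lit 0, nat_lit 0, nat_lit 0, nat_lit 0, nat_lit 0, nat_lit 0, nat_lit 0, nat_lit 0, nat_lit 0, nat_lit 0, nat_lit 0, nat_lit 0, nat_lit 0, nat_lit 0, false, false⟩,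
 nat_lit 0, nat_lit 8369, nat_lit 0, nat_lit 0, nat_lit 6033, nat_lit 4999, nat_lit 1385, nat_lit 0, nat_lit 0, nat_lit 0, nat_lit 0, nat_lit 0, nat_lit 0, nat_lit 0, nat_lit 0, nat_lit 0, nat_lit 0, nat_lit 0, [],
 ⟨p073_k13, nat_lit 0, nat_lit 0, nat_lit 371, nat_lit 0, nat_lit 897007, [nat_lit 3282000000, nat_lit 4688000000, nat_lit 6250000000], [], [nat_lit 19219790746, nat_lit 19789101816, nat_lit 21258539359, nat_lit 21746787780, nat_lit 24021507436, nat_lit 24430589264, nat_lit 28072170556, nat_lit 26702627068], nat_lit 1271250, nat_lit 1271250, nat_lit 1100001, nat_lit 1785000, nat_lit 1100001, nat_lit 2401500, [nat_lit 780000, nat_lit 1100000, nat_lit 1442500], [nat_lit 59, nat_lit 40, nat_lit 40, nat_lit 80, nat_lit 3, nat_lit 373, nat_lit 150, nat_lit 13]⟩, ⟨p073_k11, nat_lit 0, nat_lit 0, nat_lit 39, nat_lit 0, nat_lit 0, [nat_lit 3282000000, nat_lit 4688000000, nat_lit 6250000000], [], [nat_lit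 15244551922, nat_lit 16092893577, nat_lit 18450640768, nat_lit 19170676504, nat_lit 23089960554, nat_lit 23671286181, nat_lit 25081236192, nat_lit 25629408952], nat_lit 0, nat_lit 0, nat_lit 0, nat_lit 0, nat_lit 0, nat_lit 0, [], [nat_lit 59, nat_lit 40, nat_lit 40, nat_lit 80, nat_lit 3, nat_lit 373, nat_lit 150, nat_lit 13]⟩,
 zbF0, [⟨nat_lit 16, nat_lit 91, nat_lit 91, nat_lit 100, nat_lit 412342964⟩, ⟨nat_lit 19, nat_lit 94, nat_lit 88, nat_lit 100, nat_lit 490782588⟩]⟩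
noncomputable def p073_l43 : Lf2 := ⟨nat_lit 0, nat_lit 10, [nat_lit 0, nat_lit 5, nat_lit 5, nat_lit 20], false, nat_lit 160, nat_lit 312, nat_lit 160, nat_lit 320, ⟨nat_lit 1000, nat_lit 0, nat_lit 0, nat_lit 0, nat_lit 0, nat_lit 0, nat_lit 0, nat_lit 0, nat_lit 0, nat_lit 0, nat_lit 0, nat_lit 0, nat_lit 0, nat_lit 0, nat_lit 0, nat_lit 0, false, false⟩,
 nat_lit 0, nat_lit 8004, nat_lit 0, nat_lit 0, nat_lit 5770, nat_lit 4907, nat_lit 1343, nat_lit 0, nat_lit 0, nat_lit 0, nat_lit 0, nat_lit 0, nat_lit 0, nat_lit 0, nat_lit 0, nat_lit 0, nat_lit 0, nat_lit 0, [],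
 ⟨p073_k17, nat_lit 0, nat_lit 0, nat_lit 306, nat_lit 0, nat_lit 601371, [nat_lit 3282000000, nat_lit 4688000000, nat_lit 7968000000], [], [nat_lit 20587525626, nat_lit 19887314748, nat_lit 21432633505, nat_lit 21868934395, nat_lit 23902381407, nat_lit 24298510889, nat_lit 31297245129, nat_lit 30004253907], nat_lit 1271250, nat_lit 1271250, nat_lit 689850, nat_lit 1755750, nat_lit 1100001, nat_lit 2401500, [nat_lit 780000, nat_lit 1100000, nat_lit 1785000], [nat_lit 36, nat_lit 40, nat_lit 40, nat_lit 80, nat_lit 7, nat_lit 373, nat_lit 150, nat_lit 12]⟩, ⟨p073_k18, nat_lit 0, nat_lit 0, nat_lit 51, nat_lit 0, nat_lit 0, [nat_lit 3282000000, nat_lit 4688000000, nat_lit 7968000000], [], [nat_lit 14414896133, nat_lit 15324508418, nat_lit 18541423424, nat_lit 19254350872, nat_lit 22830097060, nat_lit 23450477575, nat_lit 25083158410, nat_lit 25579264536], nat_lit 0, nat_lit 0, nat_lit 0, nat_lit 0, nat_lit 0,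 nat_lit 0, [], [nat_lit 36, nat_lit 40, nat_lit 40, nat_lit 80, nat_lit 7, nat_lit 373, nat_lit 150, nat_lit 12]⟩,
 zbF0, [⟨nat_lit 0, nat_lit 89, nat_lit 85, nat_lit 100, nat_lit 209252667⟩, ⟨nat_lit 16, nat_lit 91, nat_lit 91, nat_lit 100, nat_lit 377915825⟩, ⟨nat_lit 19, nat_lit 94, nat_lit 88, nat_lit 100, nat_lit 449129141⟩]⟩
noncomputable def b_V_700_700_20_53 : St := ⟨true, nat_lit 1, nat_lit 0, nat_lit 2, nat_lit 120, nat_lit 310, nat_lit 320, nat_lit 300, nat_lit 310, nat_lit 100, nat_lit 240, nat_lit 80, nat_lit 120, nat_lit 160, nat_lit 320, nat_lit 160, nat_lit 320, nat_lit 0, nat_lit 40, nat_lit 0, nat_lit 0, nat_lit 0, nat_lit 0⟩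
theorem d_V_700_700_20_53 (h : EB TB.env) : Dead b_V_700_700_20_53 := chkB_sound0 h (T :=
(.trZ (nat_lit 0) (nat_lit 97) (nat_lit 93) (nat_lit 100) (nat_lit 108) (.trX (nat_lit 16) (nat_lit 91) (nat_lit 91) (nat_lit 100) (nat_lit 312) (.spl (nat_lit 6) (nat_lit 20)
(.spl (nat_lit 2) (nat_lit 160)
(.spl (nat_lit 7) (nat_lit 600)
(.leaf p073_l27)
(.spl (nat_lit 6) (nat_lit 8)
(.spl (nat_lit 4) (nat_lit 240)
(.leaf p073_l28)
(.spl (nat_lit 6) (nat_lit 4)
(.spl (nat_lit 2) (nat_lit 140)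
(.spl (nat_lit 5) (nat_lit 240)
(.leaf p073_l29)
(.spl (nat_lit 0) (nat_lit 315)
(.spl (nat_lit 3) (nat_lit 100)
(.trX (nat_lit 16) (nat_lit 93) (nat_lit 100) (nat_lit 97) (nat_lit 292) (.trX (nat_lit 19) (nat_lit 100) (nat_lit 100) (nat_lit 100) (nat_lit 300) (.leaf p073_l30)))
(.spl (nat_lit 2) (nat_lit 120)
(.spl (nat_lit 1) (nat_lit 305)
(.leaf p073_l31)
(.trZ (nat_lit 0) (nat_lit 94) (nat_lit 92) (nat_lit 100) (nat_lit 112) (.trX (nat_lit 19) (nat_lit 93) (nat_lit 90) (nat_lit 100) (nat_lit 316) (.spl (nat_lit 1) (nat_lit 308)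
(.leaf p073_l32)
(.trZ (nat_lit 0) (nat_lit 92) (nat_lit 91) (nat_lit 100) (nat_lit 116) (.trX (nat_lit 19) (nat_lit 92) (nat_lit 91) (nat_lit 100) (nat_lit 312) (.leaf p073_l33)))))))
(.spl (nat_lit 1) (nat_lit 305)
(.leaf p073_l34)
(.trX (nat_lit 19) (nat_lit 93) (nat_lit 90) (nat_lit 100) (nat_lit 316) (.spl (nat_lit 1) (nat_lit 308)
(.leaf p073_l35)
(.trX (nat_lit 19) (nat_lit 92) (nat_lit 91) (nat_lit 100) (nat_lit 312) (.leaf p073_l36)))))))
(.trZ (nat_lit 0) (nat_lit 95) (nat_lit 90) (nat_lit 100) (nat_lit 112) (.trX (nat_lit 16) (nat_lit 89) (nat_lit 93) (nat_lit 100) (nat_lit 304) (.spl (nat_lit 1) (nat_lit 305)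
(.leaf p073_l37)
(.trZ (nat_lit 0) (nat_lit 93) (nat_lit 89) (nat_lit 100) (nat_lit 120) (.trX (nat_lit 19) (nat_lit 93) (nat_lit 90) (nat_lit 100) (nat_lit 316) (.leaf p073_l38))))))))
(.leaf p073_l39))
(.leaf p073_l40)))
(.leaf p073_l41)))
(.leaf p073_l42))
(.leaf p073_l43))))) (by decide +kernel)
noncomputable def p073_l44 : Lf2 := ⟨nat_lit 0, nat_lit 10, [nat_lit 0, nat_lit 5, nat_lit 5, nat_lit 20], false, nat_lit 160, nat_lit 312, nat_lit 0, nat_lit 160, ⟨nat_lit 1000, nat_lit 0, nat_lit 0, nat_lit 0, nat_lit 0, nat_lit 0, nat_lit 0, nat_lit 0, nat_lit 0, nat_lit 0, nat_lit 0, nat_lit 0, nat_lit 0, nat_lit 0, nat_lit 0, nat_lit 0, false, false⟩,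
 nat_lit 0, nat_lit 8639, nat_lit 0, nat_lit 0, nat_lit 6227, nat_lit 5973, nat_lit 1441, nat_lit 0, nat_lit 0, nat_lit 1708, nat_lit 0, nat_lit 0, nat_lit 0, nat_lit 11037334236072, nat_lit 0, nat_lit 0, nat_lit 0, nat_lit 0, [],
 ⟨p073_k19, nat_lit 0, nat_lit 0, nat_lit 514, nat_lit 0, nat_lit 1015668, [nat_lit 3282000000, nat_lit 6250000000, nat_lit 7968000000], [], [nat_lit 19567409328, nat_lit 20058455828, nat_lit 21714561154, nat_lit 22149815020, nat_lit 24066327306, nat_lit 24455271322, nat_lit 27141724442, nat_lit 26457453776], nat_lit 1271250, nat_lit 1271250, nat_lit 780000, nat_lit 1762500, nat_lit 1100001, nat_lit 2401500, [nat_lit 780000, nat_lit 1435000, nat_lit 1271250], [nat_lit 18, nat_lit 40, nat_lit 40, nat_lit 80, nat_lit 2, nat_lit 373, nat_lit 150, nat_lit 11]⟩, ⟨p073_k19, nat_lit 0, nat_lit 0, nat_lit 145, nat_lit 0, nat_lit 0, [nat_lit 3282000000, nat_lit 6250000000, nat_lit 7968000000],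 [], [nat_lit 18887075883, nat_lit 20226816180, nat_lit 23322934513, nat_lit 24372635040, nat_lit 14938526773, nat_lit 15711095728, nat_lit 18790255312, nat_lit 19679572340], nat_lit 0, nat_lit 0, nat_lit 0, nat_lit 0, nat_lit 0, nat_lit 0, [], [nat_lit 18, nat_lit 40, nat_lit 40, nat_lit 80, nat_lit 2, nat_lit 317, nat_lit 100, nat_lit 10]⟩,
 zbF0, [⟨nat_lit 0, nat_lit 83, nat_lit 83, nat_lit 100, nat_lit 342396811⟩, ⟨nat_lit 4, nat_lit 100, nat_lit 90, nat_lit 95, nat_lit 429458053⟩]⟩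
noncomputable def p073_l45 : Lf2 := ⟨nat_lit 0, nat_lit 10, [nat_lit 0, nat_lit 5, nat_lit 5, nat_lit 20], false, nat_lit 160, nat_lit 292, nat_lit 160, nat_lit 292, ⟨nat_lit 1000, nat_lit 0, nat_lit 0, nat_lit 0, nat_lit 0, nat_lit 0, nat_lit 0, nat_lit 0, nat_lit 0, nat_lit 0, nat_lit 0, nat_lit 0, nat_lit 0, nat_lit 0, nat_lit 0, nat_lit 0, false, false⟩,
 nat_lit 0, nat_lit 8617, nat_lit 0, nat_lit 0, nat_lit 6212, nat_lit 5076, nat_lit 2233, nat_lit 0, nat_lit 0, nat_lit 0, nat_lit 0, nat_lit 0, nat_lit 0, nat_lit 0, nat_lit 0, nat_lit 0, nat_lit 0, nat_lit 0, [],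
 ⟨p073_k17, nat_lit 0, nat_lit 0, nat_lit 438, nat_lit 0, nat_lit 901697, [nat_lit 3282000000, nat_lit 4688000000, nat_lit 7968000000], [], [nat_lit 18210244852, nat_lit 18297829730, nat_lit 20551171276, nat_lit 20798735598, nat_lit 22366334977, nat_lit 22598941225, nat_lit 24911808534, nat_lit 24993812383], nat_lit 1271250, nat_lit 1271250, nat_lit 780000, nat_lit 1762500, nat_lit 1100001, nat_lit 2230250, [nat_lit 780000, nat_lit 1100000, nat_lit 1785000], [nat_lit 36, nat_lit 40, nat_lit 40, nat_lit 80, nat_lit 7, nat_lit 373, nat_lit 150, nat_lit 11]⟩, ⟨p073_k17, nat_lit 0, nat_lit 0, nat_lit 38, nat_lit 0, nat_lit 0, [nat_lit 3282000000, nat_lit 4688000000, nat_lit 7968000000], [], [nat_lit 15204992400, nat_lit 15661516168, nat_lit 19100644696, nat_lit 19463637228, nat_lit 21639596460, nat_lit 21976939166, nat_lit 24186682099, nat_lit 24486279022], nat_lit 0, nat_lit 0, nat_lit 0, nat_lit 0, nat_lit 0,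 nat_lit 0, [], [nat_lit 36, nat_lit 40, nat_lit 40, nat_lit 80, nat_lit 7, nat_lit 373, nat_lit 150, nat_lit 11]⟩,
 zbF0, [⟨nat_lit 0, nat_lit 87, nat_lit 87, nat_lit 100, nat_lit 383573876⟩, ⟨nat_lit 16, nat_lit 93, nat_lit 100, nat_lit 97, nat_lit 417499598⟩, ⟨nat_lit 19, nat_lit 93, nat_lit 100, nat_lit 97, nat_lit 452217565⟩]⟩
noncomputable def p073_l46 : Lf2 := ⟨nat_lit 0, nat_lit 10, [nat_lit 0, nat_lit 5, nat_lit 5, nat_lit 20], false, nat_lit 160, nat_lit 288, nat_lit 160, nat_lit 292, ⟨nat_lit 1000, nat_lit 0, nat_lit 0, nat_lit 0, nat_lit 0, nat_lit 0, nat_lit 0, nat_lit 0, nat_lit 0, nat_lit 0, nat_lit 0, nat_lit 0, nat_lit 0, nat_lit 0, nat_lit 0, nat_lit 0, false, false⟩,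
 nat_lit 0, nat_lit 8704, nat_lit 0, nat_lit 0, nat_lit 6400, nat_lit 5046, nat_lit 1849, nat_lit 0, nat_lit 0, nat_lit 0, nat_lit 0, nat_lit 0, nat_lit 0, nat_lit 0, nat_lit 0, nat_lit 0, nat_lit 0, nat_lit 0, [],
 ⟨p073_k20, nat_lit 0, nat_lit 0, nat_lit 488, nat_lit 0, nat_lit 960834, [nat_lit 3282000000, nat_lit 4688000000, nat_lit 7968000000], [], [nat_lit 19045952990, nat_lit 19319042320, nat_lit 21140657900, nat_lit 21360980000, nat_lit 22651482825, nat_lit 22859575569, nat_lit 24846475040, nat_lit 25186951681], nat_lit 1271250, nat_lit 1271250, nat_lit 810650, nat_lit 1764750, nat_lit 1100001, nat_lit 2196000, [nat_lit 780000, nat_lit 1100000, nat_lit 1785000], [nat_lit 36, nat_lit 40, nat_lit 40, nat_lit 80, nat_lit 7, nat_lit 373, nat_lit 150, nat_lit 11]⟩, ⟨p073_k17, nat_lit 0, nat_lit 0, nat_lit 40, nat_lit 0, nat_lit 0, [nat_lit 3282000000, nat_lit 4688000000, nat_lit 7968000000], [], [nat_lit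 15316650056, nat_lit 16220820204, nat_lit 19127929816, nat_lit 19851596960, nat_lit 21696838874, nat_lit 22365476439, nat_lit 24174127554, nat_lit 24771624151], nat_lit 0, nat_lit 0, nat_lit 0, nat_lit 0, nat_lit 0, nat_lit 0, [], [nat_lit 36, nat_lit 40, nat_lit 40, nat_lit 80, nat_lit 7, nat_lit 373, nat_lit 150, nat_lit 11]⟩,
 zbF0, [⟨nat_lit 0, nat_lit 83, nat_lit 83, nat_lit 100, nat_lit 411036993⟩, ⟨nat_lit 16, nat_lit 90, nat_lit 100, nat_lit 95, nat_lit 415212195⟩, ⟨nat_lit 19, nat_lit 88, nat_lit 100, nat_lit 90, nat_lit 510190586⟩]⟩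
noncomputable def p073_l47 : Lf2 := ⟨nat_lit 0, nat_lit 5, [nat_lit 4, nat_lit 5, nat_lit 5, nat_lit 20], false, nat_lit 160, nat_lit 312, nat_lit 160, nat_lit 312, ⟨nat_lit 1000, nat_lit 0, nat_lit 0, nat_lit 0, nat_lit 0, nat_lit 0, nat_lit 0, nat_lit 0, nat_lit 0, nat_lit 0, nat_lit 0, nat_lit 0, nat_lit 0, nat_lit 0, nat_lit 0, nat_lit 0, false, false⟩,
 nat_lit 0, nat_lit 2143, nat_lit 0, nat_lit 0, nat_lit 1544, nat_lit 4995, nat_lit 619, nat_lit 0, nat_lit 325, nat_lit 0, nat_lit 0, nat_lit 0, nat_lit 0, nat_lit 0, nat_lit 0, nat_lit 0, nat_lit 0, nat_lit 0, [],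
 ⟨p073_k21, nat_lit 0, nat_lit 0, nat_lit 0, nat_lit 0, nat_lit 853104, [nat_lit 3282000000, nat_lit 6250000000], [], [nat_lit 16719197653, nat_lit 17083904101, nat_lit 17464058725, nat_lit 17813322661, nat_lit 20697341262, nat_lit 21126515700, nat_lit 21406159634, nat_lit 21835415309], nat_lit 1271250, nat_lit 1271250, nat_lit 780000, nat_lit 1100001, nat_lit 1100001, nat_lit 2401500, [nat_lit 780000, nat_lit 1435000], [nat_lit 49, nat_lit 40, nat_lit 40, nat_lit 80]⟩, ⟨p073_k21, nat_lit 0, nat_lit 0, nat_lit 40, nat_lit 0, nat_lit 0, [nat_lit 3282000000, nat_lit 6250000000], [], [nat_lit 15288774750, nat_lit 16193229320, nat_lit 16097199885, nat_lit 16945152160, nat_lit 22878934550, nat_lit 23576404067, nat_lit 23223371667, nat_lit 23829662624], nat_lit 0, nat_lit 0, nat_lit 0, nat_lit 0, nat_lit 0, nat_lit 0, [], [nat_lit 49, nat_lit 40, nat_lit 40, nat_lit 80, nat_lit 16, nat_lit 345, nat_lit 125, nat_lit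 12]⟩,
 zbF0, [⟨nat_lit 0, nat_lit 91, nat_lit 91, nat_lit 100, nat_lit 473806123⟩, ⟨nat_lit 16, nat_lit 91, nat_lit 91, nat_lit 100, nat_lit 209062475⟩, ⟨nat_lit 19, nat_lit 91, nat_lit 91, nat_lit 100, nat_lit 502160378⟩]⟩
noncomputable def p073_l48 : Lf2 := ⟨nat_lit 0, nat_lit 1, [nat_lit 19, nat_lit 5, nat_lit 5, nat_lit 20], true, nat_lit 160, nat_lit 240, nat_lit 160, nat_lit 312, ⟨nat_lit 0, nat_lit 1000, nat_lit 0, nat_lit 7, nat_lit 206, nat_lit 1000, nat_lit 161, nat_lit 0, nat_lit 0, nat_lit 0, nat_lit 0, nat_lit 0, nat_lit 0, nat_lit 0, nat_lit 0, nat_lit 5000000, false, false⟩,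
 nat_lit 0, nat_lit 7450, nat_lit 0, nat_lit 0, nat_lit 5370, nat_lit 0, nat_lit 62, nat_lit 0, nat_lit 0, nat_lit 0, nat_lit 0, nat_lit 0, nat_lit 0, nat_lit 45867766720609, nat_lit 0, nat_lit 1000000, nat_lit 0, nat_lit 0, [(nat_lit 15, [(nat_lit 2, nat_lit 1000)])],
 ⟨p073_k15, nat_lit 0, nat_lit 0, nat_lit 256, nat_lit 0, nat_lit 720521, [nat_lit 1981440001, nat_lit 1580800000], [], [nat_lit 14250667263, nat_lit 14433889210, nat_lit 14826124183, nat_lit 14998237177, nat_lit 16562105384, nat_lit 16729196270, nat_lit 17025389424, nat_lit 17182474062], nat_lit 1271250, nat_lit 1271250, nat_lit 780000, nat_lit 1100001, nat_lit 1100001, nat_lit 1785000, [nat_lit 780000, nat_lit 1100000], [nat_lit 40, nat_lit 40, nat_lit 40, nat_lit 80, nat_lit 22, nat_lit 249, nat_lit 40, nat_lit 10]⟩, C1.Rw.none,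
 ⟨nat_lit 4663, nat_lit 4744, ⟨.ofNat (nat_lit 478783), .ofNat (nat_lit 548482), .ofNat (nat_lit 482006), .ofNat (nat_lit 551706), .ofNat (nat_lit 479934), .ofNat (nat_lit 549117), .ofNat (nat_lit 483161), .ofNat (nat_lit 552343)⟩, ⟨.ofNat (nat_lit 322858), .ofNat (nat_lit 462258), .ofNat (nat_lit 344346), .ofNat (nat_lit 483746), .ofNat (nat_lit 323268), .ofNat (nat_lit 461634), .ofNat (nat_lit 344777), .ofNat (nat_lit 483143)⟩⟩, []⟩
noncomputable def p073_l49 : Lf2 := ⟨nat_lit 0, nat_lit 1, [nat_lit 19, nat_lit 5, nat_lit 5, nat_lit 20], false, nat_lit 240, nat_lit 312, nat_lit 160, nat_lit 240, ⟨nat_lit 1000, nat_lit 0, nat_lit 0, nat_lit 0, nat_lit 0, nat_lit 0, nat_lit 0, nat_lit 0, nat_lit 0, nat_lit 0, nat_lit 0, nat_lit 0, nat_lit 0, nat_lit 0, nat_lit 0, nat_lit 0, false, false⟩,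
 nat_lit 0, nat_lit 9067, nat_lit 0, nat_lit 0, nat_lit 6536, nat_lit 5437, nat_lit 1255, nat_lit 0, nat_lit 0, nat_lit 0, nat_lit 0, nat_lit 0, nat_lit 0, nat_lit 19623082252008, nat_lit 0, nat_lit 0, nat_lit 0, nat_lit 0, [],
 ⟨p073_k15, nat_lit 0, nat_lit 0, nat_lit 271, nat_lit 0, nat_lit 720521, [nat_lit 3282000000, nat_lit 4688000000], [], [nat_lit 18022970864, nat_lit 18208050565, nat_lit 18404742176, nat_lit 18578147783, nat_lit 21487180679, nat_lit 21640750602, nat_lit 21645495649, nat_lit 21824588992], nat_lit 1271250, nat_lit 1271250, nat_lit 780000, nat_lit 1100001, nat_lit 1271250, nat_lit 1271250, [nat_lit 780000, nat_lit 1100000], [nat_lit 40, nat_lit 40, nat_lit 40, nat_lit 80, nat_lit 22, nat_lit 249, nat_lit 40, nat_lit 10]⟩, ⟨p073_k15, nat_lit 0, nat_lit 0, nat_lit 12, nat_lit 0, nat_lit 0, [nat_lit 3282000000, nat_lit 4688000000], [], [nat_lit 14831592050, nat_lit 15116995425, nat_lit 15621352851,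 nat_lit 15888646481, nat_lit 18211518086, nat_lit 18480647449, nat_lit 18772313752, nat_lit 18998476963], nat_lit 0, nat_lit 0, nat_lit 0, nat_lit 0, nat_lit 0, nat_lit 0, [], [nat_lit 40, nat_lit 40, nat_lit 40, nat_lit 80, nat_lit 22, nat_lit 249, nat_lit 40, nat_lit 10]⟩,
 zbF0, [⟨nat_lit 0, nat_lit 88, nat_lit 88, nat_lit 100, nat_lit 561057593⟩, ⟨nat_lit 16, nat_lit 91, nat_lit 91, nat_lit 100, nat_lit 513874386⟩]⟩
noncomputable def p073_l50 : Lf2 := ⟨nat_lit 0, nat_lit 1, [nat_lit 19, nat_lit 5, nat_lit 5, nat_lit 20], false, nat_lit 240, nat_lit 312, nat_lit 240, nat_lit 312, ⟨nat_lit 1000, nat_lit 0, nat_lit 0, nat_lit 0, nat_lit 0, nat_lit 0, nat_lit 0, nat_lit 0, nat_lit 0, nat_lit 0, nat_lit 0, nat_lit 0, nat_lit 0, nat_lit 0, nat_lit 0, nat_lit 0, false, false⟩,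
 nat_lit 0, nat_lit 9104, nat_lit 0, nat_lit 0, nat_lit 6563, nat_lit 4995, nat_lit 1253, nat_lit 0, nat_lit 0, nat_lit 0, nat_lit 0, nat_lit 0, nat_lit 0, nat_lit 0, nat_lit 0, nat_lit 0, nat_lit 0, nat_lit 0, [],
 ⟨p073_k15, nat_lit 0, nat_lit 0, nat_lit 266, nat_lit 0, nat_lit 704472, [nat_lit 3282000000, nat_lit 4688000000], [], [nat_lit 17936694058, nat_lit 18059999430, nat_lit 18316219058, nat_lit 18432074749, nat_lit 21407134775, nat_lit 21537568965, nat_lit 21601908466, nat_lit 21724339315], nat_lit 1271250, nat_lit 1271250, nat_lit 780000, nat_lit 1100001, nat_lit 1271250, nat_lit 1271250, [nat_lit 780000, nat_lit 1100000], [nat_lit 40, nat_lit 40, nat_lit 40, nat_lit 80, nat_lit 22, nat_lit 249, nat_lit 40, nat_lit 10]⟩, ⟨p073_k15, nat_lit 0, nat_lit 0, nat_lit 37, nat_lit 0, nat_lit 0, [nat_lit 3282000000, nat_lit 4688000000], [], [nat_lit 18575037305, nat_lit 18728292721, nat_lit 19174314520, nat_lit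 19318259857, nat_lit 22878934550, nat_lit 23018313461, nat_lit 23223371667, nat_lit 23342364945], nat_lit 0, nat_lit 0, nat_lit 0, nat_lit 0, nat_lit 0, nat_lit 0, [], [nat_lit 40, nat_lit 40, nat_lit 40, nat_lit 80, nat_lit 22, nat_lit 249, nat_lit 40, nat_lit 10]⟩,
 zbF0, [⟨nat_lit 0, nat_lit 91, nat_lit 91, nat_lit 100, nat_lit 487917140⟩, ⟨nat_lit 16, nat_lit 91, nat_lit 91, nat_lit 100, nat_lit 530856289⟩, ⟨nat_lit 19, nat_lit 91, nat_lit 91, nat_lit 100, nat_lit 594434732⟩]⟩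
noncomputable def p073_l51 : Lf2 := ⟨nat_lit 0, nat_lit 1, [nat_lit 19, nat_lit 5, nat_lit 5, nat_lit 20], false, nat_lit 240, nat_lit 308, nat_lit 240, nat_lit 312, ⟨nat_lit 1000, nat_lit 0, nat_lit 0, nat_lit 0, nat_lit 0, nat_lit 0, nat_lit 0, nat_lit 0, nat_lit 0, nat_lit 0, nat_lit 0, nat_lit 0, nat_lit 0, nat_lit 0, nat_lit 0, nat_lit 0, false, false⟩,
 nat_lit 0, nat_lit 9052, nat_lit 0, nat_lit 0, nat_lit 6578, nat_lit 4995, nat_lit 1128, nat_lit 0, nat_lit 0, nat_lit 0, nat_lit 0, nat_lit 0, nat_lit 0, nat_lit 0, nat_lit 0, nat_lit 0, nat_lit 0, nat_lit 0, [],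
 ⟨p073_k22, nat_lit 0, nat_lit 0, nat_lit 268, nat_lit 0, nat_lit 712579, [nat_lit 3282000000, nat_lit 4688000000], [], [nat_lit 18072360213, nat_lit 18130358046, nat_lit 18383467816, nat_lit 18441033046, nat_lit 21273513210, nat_lit 21338983706, nat_lit 21473713440, nat_lit 21535745755], nat_lit 1271250, nat_lit 1271250, nat_lit 780000, nat_lit 1100001, nat_lit 1271250, nat_lit 1271250, [nat_lit 780000, nat_lit 1100000], [nat_lit 40, nat_lit 40, nat_lit 40, nat_lit 80, nat_lit 22, nat_lit 249, nat_lit 40, nat_lit 10]⟩, ⟨p073_k15, nat_lit 0, nat_lit 0, nat_lit 38, nat_lit 0, nat_lit 0, [nat_lit 3282000000, nat_lit 4688000000], [], [nat_lit 18575037305, nat_lit 18804920428, nat_lit 19174314520, nat_lit 19390232524, nat_lit 22878934550, nat_lit 23088074787, nat_lit 23223371667, nat_lit 23401861584], nat_lit 0, nat_lit 0, nat_lit 0, nat_lit 0, nat_lit 0, nat_lit 0, [], [nat_lit 40, nat_lit 40, nat_lit 40, nat_lit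 80, nat_lit 22, nat_lit 249, nat_lit 40, nat_lit 10]⟩,
 zbF0, [⟨nat_lit 0, nat_lit 90, nat_lit 90, nat_lit 100, nat_lit 564068352⟩, ⟨nat_lit 16, nat_lit 90, nat_lit 92, nat_lit 100, nat_lit 520431598⟩, ⟨nat_lit 19, nat_lit 91, nat_lit 91, nat_lit 100, nat_lit 574986836⟩]⟩
noncomputable def p073_l52 : Lf2 := ⟨nat_lit 0, nat_lit 2, [nat_lit 10, nat_lit 5, nat_lit 5, nat_lit 20], false, nat_lit 160, nat_lit 312, nat_lit 160, nat_lit 312, ⟨nat_lit 1000, nat_lit 0, nat_lit 0, nat_lit 0, nat_lit 0, nat_lit 0, nat_lit 0, nat_lit 0, nat_lit 0, nat_lit 0, nat_lit 0, nat_lit 0, nat_lit 0, nat_lit 0, nat_lit 0, nat_lit 0, false, false⟩,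
 nat_lit 0, nat_lit 9067, nat_lit 0, nat_lit 0, nat_lit 6536, nat_lit 4976, nat_lit 1117, nat_lit 0, nat_lit 0, nat_lit 0, nat_lit 0, nat_lit 0, nat_lit 0, nat_lit 10986540633683, nat_lit 0, nat_lit 0, nat_lit 0, nat_lit 0, [],
 ⟨p073_k14, nat_lit 0, nat_lit 0, nat_lit 249, nat_lit 0, nat_lit 650102, [nat_lit 3282000000, nat_lit 4688000000], [], [nat_lit 15849720128, nat_lit 16053715297, nat_lit 16361998504, nat_lit 16553019588, nat_lit 21487180679, nat_lit 21640750602, nat_lit 24460786264, nat_lit 24015667605], nat_lit 1271250, nat_lit 1271250, nat_lit 780000, nat_lit 1100001, nat_lit 1100001, nat_lit 2401500, [nat_lit 780000, nat_lit 1100000], [nat_lit 40, nat_lit 40, nat_lit 40, nat_lit 80, nat_lit 22, nat_lit 249, nat_lit 40, nat_lit 10]⟩, ⟨p073_k14, nat_lit 0, nat_lit 0, nat_lit 38, nat_lit 0, nat_lit 0, [nat_lit 3282000000, nat_lit 4688000000], [], [nat_lit 15308427400, nat_lit 15579159081, nat_lit 16117654848,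 nat_lit 16371485664, nat_lit 22887042421, nat_lit 23076198640, nat_lit 23233567320, nat_lit 23411729133], nat_lit 0, nat_lit 0, nat_lit 0, nat_lit 0, nat_lit 0, nat_lit 0, [], [nat_lit 40, nat_lit 40, nat_lit 40, nat_lit 80, nat_lit 22, nat_lit 249, nat_lit 40, nat_lit 10]⟩,
 zbF0, [⟨nat_lit 0, nat_lit 88, nat_lit 88, nat_lit 100, nat_lit 194863330⟩, ⟨nat_lit 16, nat_lit 91, nat_lit 91, nat_lit 100, nat_lit 446522065⟩, ⟨nat_lit 19, nat_lit 91, nat_lit 91, nat_lit 100, nat_lit 499063275⟩]⟩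
noncomputable def p073_l53 : Lf2 := ⟨nat_lit 0, nat_lit 2, [nat_lit 10, nat_lit 5, nat_lit 5, nat_lit 20], false, nat_lit 160, nat_lit 308, nat_lit 160, nat_lit 312, ⟨nat_lit 1000, nat_lit 0, nat_lit 0, nat_lit 0, nat_lit 0, nat_lit 0, nat_lit 0, nat_lit 0, nat_lit 0, nat_lit 0, nat_lit 0, nat_lit 0, nat_lit 0, nat_lit 0, nat_lit 0, nat_lit 0, false, false⟩,
 nat_lit 0, nat_lit 9001, nat_lit 0, nat_lit 0, nat_lit 6567, nat_lit 4999, nat_lit 2266, nat_lit 0, nat_lit 0, nat_lit 0, nat_lit 0, nat_lit 0, nat_lit 0, nat_lit 0, nat_lit 0, nat_lit 0, nat_lit 0, nat_lit 0, [],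
 ⟨p073_k23, nat_lit 0, nat_lit 0, nat_lit 272, nat_lit 0, nat_lit 728599, [nat_lit 3282000000, nat_lit 4688000000], [], [nat_lit 15623751079, nat_lit 15696124995, nat_lit 16136133225, nat_lit 16204315711, nat_lit 21373887021, nat_lit 21439449241, nat_lit 21552131052, nat_lit 21613816831], nat_lit 1271250, nat_lit 1271250, nat_lit 810650, nat_lit 1100001, nat_lit 1100001, nat_lit 2367250, [nat_lit 780000, nat_lit 1100000], [nat_lit 40, nat_lit 40, nat_lit 40, nat_lit 80, nat_lit 22, nat_lit 249, nat_lit 40, nat_lit 10]⟩, ⟨p073_k14, nat_lit 0, nat_lit 0, nat_lit 37, nat_lit 0, nat_lit 0, [nat_lit 3282000000, nat_lit 4688000000], [], [nat_lit 15365462973, nat_lit 15725153048, nat_lit 16092893577, nat_lit 16432230239, nat_lit 22911627389, nat_lit 23188200036, nat_lit 23221225214, nat_lit 23459303869], nat_lit 0, nat_lit 0, nat_lit 0, nat_lit 0, nat_lit 0, nat_lit 0, [], [nat_lit 40, nat_lit 40, nat_lit 40, nat_lit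 80, nat_lit 22, nat_lit 249, nat_lit 40, nat_lit 10]⟩,
 zbF0, [⟨nat_lit 0, nat_lit 90, nat_lit 89, nat_lit 100, nat_lit 554621436⟩, ⟨nat_lit 16, nat_lit 90, nat_lit 93, nat_lit 100, nat_lit 449296401⟩, ⟨nat_lit 19, nat_lit 91, nat_lit 91, nat_lit 100, nat_lit 502891221⟩]⟩
noncomputable def p073_l54 : Lf2 := ⟨nat_lit 0, nat_lit 2, [nat_lit 10, nat_lit 5, nat_lit 5, nat_lit 20], false, nat_lit 160, nat_lit 308, nat_lit 160, nat_lit 312, ⟨nat_lit 1000, nat_lit 0, nat_lit 0, nat_lit 0, nat_lit 0, nat_lit 0, nat_lit 0, nat_lit 0, nat_lit 0, nat_lit 0, nat_lit 0, nat_lit 0, nat_lit 0, nat_lit 0, nat_lit 0, nat_lit 0, false, false⟩,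
 nat_lit 0, nat_lit 8953, nat_lit 0, nat_lit 0, nat_lit 6558, nat_lit 4999, nat_lit 2069, nat_lit 0, nat_lit 0, nat_lit 0, nat_lit 0, nat_lit 0, nat_lit 0, nat_lit 0, nat_lit 0, nat_lit 0, nat_lit 0, nat_lit 0, [],
 ⟨p073_k24, nat_lit 0, nat_lit 0, nat_lit 276, nat_lit 0, nat_lit 740443, [nat_lit 3282000000, nat_lit 4688000000], [], [nat_lit 15725671031, nat_lit 15797986852, nat_lit 16234254640, nat_lit 16302383678, nat_lit 21452208026, nat_lit 21517395614, nat_lit 21627593134, nat_lit 21688871357], nat_lit 1271250, nat_lit 1271250, nat_lit 810650, nat_lit 1100001, nat_lit 1100001, nat_lit 2367250, [nat_lit 780000, nat_lit 1100000], [nat_lit 40, nat_lit 40, nat_lit 40, nat_lit 80, nat_lit 22, nat_lit 249, nat_lit 40, nat_lit 10]⟩, ⟨p073_k14, nat_lit 0, nat_lit 0, nat_lit 38, nat_lit 0, nat_lit 0, [nat_lit 3282000000, nat_lit 4688000000], [], [nat_lit 15365462973, nat_lit 15815075567, nat_lit 16092893577, nat_lit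 16517064405, nat_lit 22911627389, nat_lit 23257586153, nat_lit 23221225214, nat_lit 23518823533], nat_lit 0, nat_lit 0, nat_lit 0, nat_lit 0, nat_lit 0, nat_lit 0, [], [nat_lit 40, nat_lit 40, nat_lit 40, nat_lit 80, nat_lit 22, nat_lit 249, nat_lit 40, nat_lit 10]⟩,
 zbF0, [⟨nat_lit 0, nat_lit 90, nat_lit 89, nat_lit 100, nat_lit 568007464⟩, ⟨nat_lit 16, nat_lit 90, nat_lit 93, nat_lit 100, nat_lit 448410891⟩, ⟨nat_lit 19, nat_lit 91, nat_lit 91, nat_lit 100, nat_lit 500079735⟩]⟩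
noncomputable def p073_l55 : Lf2 := ⟨nat_lit 0, nat_lit 2, [nat_lit 10, nat_lit 5, nat_lit 5, nat_lit 20], false, nat_lit 160, nat_lit 304, nat_lit 160, nat_lit 312, ⟨nat_lit 1000, nat_lit 0, nat_lit 0, nat_lit 0, nat_lit 0, nat_lit 0, nat_lit 0, nat_lit 0, nat_lit 0, nat_lit 0, nat_lit 0, nat_lit 0, nat_lit 0, nat_lit 0, nat_lit 0, nat_lit 0, false, false⟩,
 nat_lit 0, nat_lit 9201, nat_lit 0, nat_lit 0, nat_lit 6766, nat_lit 4999, nat_lit 1650, nat_lit 0, nat_lit 0, nat_lit 0, nat_lit 0, nat_lit 0, nat_lit 0, nat_lit 0, nat_lit 0, nat_lit 0, nat_lit 0, nat_lit 0, [],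
 ⟨p073_k25, nat_lit 0, nat_lit 0, nat_lit 300, nat_lit 0, nat_lit 815816, [nat_lit 3282000000, nat_lit 4688000000], [], [nat_lit 16177362389, nat_lit 16499380504, nat_lit 16596007503, nat_lit 16899434032, nat_lit 21057103394, nat_lit 21328105544, nat_lit 21186135339, nat_lit 21475452125], nat_lit 1271250, nat_lit 1271250, nat_lit 810650, nat_lit 1100001, nat_lit 1100001, nat_lit 2333000, [nat_lit 780000, nat_lit 1100000], [nat_lit 40, nat_lit 40, nat_lit 40, nat_lit 80, nat_lit 22, nat_lit 249, nat_lit 40, nat_lit 10]⟩, ⟨p073_k14, nat_lit 0, nat_lit 0, nat_lit 39, nat_lit 0, nat_lit 0, [nat_lit 3282000000, nat_lit 4688000000], [], [nat_lit 15365462973, nat_lit 16264688161, nat_lit 16092893577, nat_lit 16941235232, nat_lit 22911627389, nat_lit 23604516737, nat_lit 23221225214, nat_lit 23831974125], nat_lit 0, nat_lit 0, nat_lit 0, nat_lit 0, nat_lit 0, nat_lit 0, [], [nat_lit 40, nat_lit 40, nat_lit 40, nat_lit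 80, nat_lit 22, nat_lit 249, nat_lit 40, nat_lit 10]⟩,
 zbF0, [⟨nat_lit 0, nat_lit 90, nat_lit 88, nat_lit 100, nat_lit 574215618⟩, ⟨nat_lit 16, nat_lit 89, nat_lit 93, nat_lit 100, nat_lit 426408469⟩, ⟨nat_lit 19, nat_lit 91, nat_lit 91, nat_lit 100, nat_lit 496504666⟩]⟩
noncomputable def p073_l56 : Lf2 := ⟨nat_lit 0, nat_lit 5, [nat_lit 4, nat_lit 5, nat_lit 5, nat_lit 20], false, nat_lit 160, nat_lit 312, nat_lit 160, nat_lit 312, ⟨nat_lit 1000, nat_lit 0, nat_lit 0, nat_lit 0, nat_lit 0, nat_lit 0, nat_lit 0, nat_lit 0, nat_lit 0, nat_lit 0, nat_lit 0, nat_lit 0, nat_lit 0, nat_lit 0, nat_lit 0, nat_lit 0, false, false⟩,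
 nat_lit 0, nat_lit 8840, nat_lit 0, nat_lit 0, nat_lit 6373, nat_lit 4984, nat_lit 1466, nat_lit 0, nat_lit 0, nat_lit 0, nat_lit 0, nat_lit 0, nat_lit 0, nat_lit 6455754087415, nat_lit 0, nat_lit 0, nat_lit 0, nat_lit 0, [],
 ⟨p073_k13, nat_lit 0, nat_lit 0, nat_lit 317, nat_lit 0, nat_lit 714495, [nat_lit 3282000000, nat_lit 4688000000, nat_lit 6250000000], [], [nat_lit 16082271476, nat_lit 16705056936, nat_lit 16581544354, nat_lit 17251848332, nat_lit 21970420764, nat_lit 22476095294, nat_lit 24287927646, nat_lit 22841201200], nat_lit 1271250, nat_lit 1271250, nat_lit 780000, nat_lit 1100001, nat_lit 1100001, nat_lit 2401500, [nat_lit 780000, nat_lit 1100000, nat_lit 1442500], [nat_lit 59, nat_lit 40, nat_lit 40, nat_lit 80, nat_lit 3, nat_lit 345, nat_lit 125, nat_lit 12]⟩, ⟨p073_k13, nat_lit 0, nat_lit 0, nat_lit 48, nat_lit 0, nat_lit 0, [nat_lit 3282000000, nat_lit 4688000000, nat_lit 6250000000], [],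 [nat_lit 15300152600, nat_lit 16203440224, nat_lit 16109042232, nat_lit 16955923712, nat_lit 22883628581, nat_lit 23568595092, nat_lit 23229274413, nat_lit 23823607620], nat_lit 0, nat_lit 0, nat_lit 0, nat_lit 0, nat_lit 0, nat_lit 0, [], [nat_lit 59, nat_lit 40, nat_lit 40, nat_lit 80, nat_lit 3, nat_lit 345, nat_lit 125, nat_lit 12]⟩,
 zbF0, [⟨nat_lit 0, nat_lit 87, nat_lit 87, nat_lit 100, nat_lit 350442617⟩, ⟨nat_lit 16, nat_lit 91, nat_lit 91, nat_lit 100, nat_lit 453173997⟩, ⟨nat_lit 19, nat_lit 91, nat_lit 91, nat_lit 100, nat_lit 492819066⟩]⟩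
noncomputable def p073_l57 : Lf2 := ⟨nat_lit 0, nat_lit 5, [nat_lit 4, nat_lit 5, nat_lit 5, nat_lit 20], false, nat_lit 160, nat_lit 312, nat_lit 160, nat_lit 312, ⟨nat_lit 1000, nat_lit 0, nat_lit 0, nat_lit 0, nat_lit 0, nat_lit 0, nat_lit 0, nat_lit 0, nat_lit 0, nat_lit 0, nat_lit 0, nat_lit 0, nat_lit 0, nat_lit 0, nat_lit 0, nat_lit 0, false, false⟩,
 nat_lit 0, nat_lit 8369, nat_lit 0, nat_lit 0, nat_lit 6033, nat_lit 4984, nat_lit 1462, nat_lit 0, nat_lit 0, nat_lit 0, nat_lit 0, nat_lit 0, nat_lit 0, nat_lit 0, nat_lit 0, nat_lit 0, nat_lit 0, nat_lit 0, [],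
 ⟨p073_k21, nat_lit 0, nat_lit 0, nat_lit 348, nat_lit 0, nat_lit 853104, [nat_lit 3282000000, nat_lit 6250000000], [], [nat_lit 19291046996, nat_lit 19789101816, nat_lit 21258539359, nat_lit 21746787780, nat_lit 24021507436, nat_lit 24430589264, nat_lit 27932436806, nat_lit 26562893318], nat_lit 1271250, nat_lit 1271250, nat_lit 1100001, nat_lit 1785000, nat_lit 1100001, nat_lit 2401500, [nat_lit 780000, nat_lit 1435000], [nat_lit 49, nat_lit 40, nat_lit 40, nat_lit 80, nat_lit 16, nat_lit 373, nat_lit 150, nat_lit 13]⟩, ⟨p073_k21, nat_lit 0, nat_lit 0, nat_lit 33, nat_lit 0, nat_lit 0, [nat_lit 3282000000, nat_lit 6250000000], [], [nat_lit 16109042232, nat_lit 16955923712, nat_lit 19184319064, nat_lit 19903195840, nat_lit 23229274413, nat_lit 23823607620, nat_lit 25200361307, nat_lit 25761096836], nat_lit 0, nat_lit 0, nat_lit 0, nat_lit 0, nat_lit 0, nat_lit 0, [], [nat_lit 49, nat_lit 40, nat_lit 40, nat_lit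 80, nat_lit 16, nat_lit 373, nat_lit 150, nat_lit 13]⟩,
 zbF0, [⟨nat_lit 4, nat_lit 99, nat_lit 92, nat_lit 100, nat_lit 407860975⟩, ⟨nat_lit 7, nat_lit 99, nat_lit 92, nat_lit 100, nat_lit 487462337⟩]⟩
noncomputable def p073_l58 : Lf2 := ⟨nat_lit 0, nat_lit 10, [nat_lit 0, nat_lit 5, nat_lit 5, nat_lit 20], false, nat_lit 160, nat_lit 312, nat_lit 160, nat_lit 312, ⟨nat_lit 1000, nat_lit 0, nat_lit 0, nat_lit 0, nat_lit 0, nat_lit 0, nat_lit 0, nat_lit 0, nat_lit 0, nat_lit 0, nat_lit 0, nat_lit 0, nat_lit 0, nat_lit 0, nat_lit 0, nat_lit 0, false, false⟩,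
 nat_lit 0, nat_lit 8047, nat_lit 0, nat_lit 0, nat_lit 5801, nat_lit 4933, nat_lit 1464, nat_lit 0, nat_lit 0, nat_lit 0, nat_lit 0, nat_lit 0, nat_lit 0, nat_lit 8602892100805, nat_lit 0, nat_lit 0, nat_lit 0, nat_lit 0, [],
 ⟨p073_k26, nat_lit 0, nat_lit 0, nat_lit 280, nat_lit 0, nat_lit 556128, [nat_lit 3282000000, nat_lit 7968000000], [], [nat_lit 19269388166, nat_lit 19813113224, nat_lit 21371646019, nat_lit 21808946876, nat_lit 23761849058, nat_lit 24151421952, nat_lit 30891907291, nat_lit 29591969322], nat_lit 1271250, nat_lit 1271250, nat_lit 780000, nat_lit 1762500, nat_lit 1100001, nat_lit 2401500, [nat_lit 780000, nat_lit 1762500], [nat_lit 74, nat_lit 40, nat_lit 40, nat_lit 80, nat_lit 43, nat_lit 373, nat_lit 150, nat_lit 11]⟩, ⟨p073_k26, nat_lit 0, nat_lit 0, nat_lit 40, nat_lit 0, nat_lit 0, [nat_lit 3282000000, nat_lit 7968000000], [], [nat_lit 15352904450, nat_lit 16250781688, nat_lit 19230703768,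 nat_lit 19945640080, nat_lit 22905391810, nat_lit 23533200017, nat_lit 25182963552, nat_lit 25732525473], nat_lit 0, nat_lit 0, nat_lit 0, nat_lit 0, nat_lit 0, nat_lit 0, [], [nat_lit 74, nat_lit 40, nat_lit 40, nat_lit 80, nat_lit 43, nat_lit 373, nat_lit 150, nat_lit 11]⟩,
 zbF0, [⟨nat_lit 0, nat_lit 83, nat_lit 83, nat_lit 100, nat_lit 197609875⟩, ⟨nat_lit 16, nat_lit 92, nat_lit 99, nat_lit 100, nat_lit 397021146⟩, ⟨nat_lit 7, nat_lit 99, nat_lit 92, nat_lit 100, nat_lit 448850695⟩]⟩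
noncomputable def b_V_700_700_20_54 : St := ⟨true, nat_lit 1, nat_lit 0, nat_lit 2, nat_lit 120, nat_lit 300, nat_lit 320, nat_lit 310, nat_lit 320, nat_lit 100, nat_lit 240, nat_lit 80, nat_lit 120, nat_lit 160, nat_lit 320, nat_lit 0, nat_lit 320, nat_lit 0, nat_lit 40, nat_lit 0, nat_lit 0, nat_lit 0, nat_lit 0⟩
theorem d_V_700_700_20_54 (h : EB TB.env) : Dead b_V_700_700_20_54 := chkB_sound0 h (T :=
(.ord (.trZ (nat_lit 0) (nat_lit 91) (nat_lit 91) (nat_lit 100) (nat_lit 120) (.trX (nat_lit 16) (nat_lit 91) (nat_lit 91) (nat_lit 100) (nat_lit 312) (.trX (nat_lit 19) (nat_lit 91) (nat_lit 91) (nat_lit 100) (nat_lit 312) (.spl (nat_lit 5) (nat_lit 160)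
(.leaf p073_l44)
(.spl (nat_lit 3) (nat_lit 100)
(.trX (nat_lit 16) (nat_lit 93) (nat_lit 100) (nat_lit 97) (nat_lit 292) (.trX (nat_lit 19) (nat_lit 93) (nat_lit 100) (nat_lit 97) (nat_lit 292) (.spl (nat_lit 0) (nat_lit 315)
(.ord (.leaf p073_l45))
(.trZ (nat_lit 0) (nat_lit 90) (nat_lit 88) (nat_lit 100) (nat_lit 124) (.trX (nat_lit 16) (nat_lit 90) (nat_lit 100) (nat_lit 95) (nat_lit 288) (.leaf p073_l46))))))
(.spl (nat_lit 6) (nat_lit 20)
(.spl (nat_lit 2) (nat_lit 160)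
(.spl (nat_lit 7) (nat_lit 600)
(.leaf p073_l47)
(.spl (nat_lit 6) (nat_lit 8)
(.spl (nat_lit 0) (nat_lit 315)
(.ord (.spl (nat_lit 0) (nat_lit 313)
(.ord (.spl (nat_lit 6) (nat_lit 4)
(.spl (nat_lit 4) (nat_lit 240)
(.leaf p073_l48)
(.spl (nat_lit 5) (nat_lit 240)
(.leaf p073_l49)
(.spl (nat_lit 0) (nat_lit 312)
(.ord (.leaf p073_l50))
(.trX (nat_lit 16) (nat_lit 90) (nat_lit 92) (nat_lit 100) (nat_lit 308) (.leaf p073_l51)))))
(.leaf p073_l52)))
(.trZ (nat_lit 0) (nat_lit 90) (nat_lit 89) (nat_lit 100) (nat_lit 124) (.trX (nat_lit 16) (nat_lit 90) (nat_lit 93) (nat_lit 100) (nat_lit 308) (.spl (nat_lit 0) (nat_lit 314)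
(.ord (.leaf p073_l53))
(.leaf p073_l54))))))
(.trZ (nat_lit 0) (nat_lit 90) (nat_lit 88) (nat_lit 100) (nat_lit 124) (.trX (nat_lit 16) (nat_lit 89) (nat_lit 93) (nat_lit 100) (nat_lit 304) (.leaf p073_l55))))
(.leaf p073_l56)))
(.leaf p073_l57))
(.leaf p073_l58))))))))) (by decide +kernel)
noncomputable def p073_l59 : Lf2 := ⟨nat_lit 0, nat_lit 10, [nat_lit 0, nat_lit 5, nat_lit 5, nat_lit 20], false, nat_lit 0, nat_lit 336, nat_lit 0, nat_lit 336, ⟨nat_lit 1000, nat_lit 0, nat_lit 0, nat_lit 0, nat_lit 0, nat_lit 0, nat_lit 0, nat_lit 0, nat_lit 0, nat_lit 0, nat_lit 0, nat_lit 0, nat_lit 0, nat_lit 0, nat_lit 0, nat_lit 0, false, false⟩,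
 nat_lit 0, nat_lit 9703, nat_lit 0, nat_lit 2963, nat_lit 6174, nat_lit 6546, nat_lit 1332, nat_lit 0, nat_lit 0, nat_lit 1352, nat_lit 0, nat_lit 0, nat_lit 0, nat_lit 0, nat_lit 0, nat_lit 0, nat_lit 0, nat_lit 0, [],
 ⟨p073_k27, nat_lit 0, nat_lit 0, nat_lit 429, nat_lit 0, nat_lit 497226, [nat_lit 3282000000, nat_lit 4688000000, nat_lit 9842000000], [], [nat_lit 27321696828, nat_lit 27537950264, nat_lit 36173899184, nat_lit 36470570979, nat_lit 28325201104, nat_lit 28443505453, nat_lit 34445054085, nat_lit 34611467841], nat_lit 1271250, nat_lit 1271250, nat_lit 1271250, nat_lit 1271250, nat_lit 0, nat_lit 2373000, [nat_lit 780000, nat_lit 1100000, nat_lit 2127500], [nat_lit 42, nat_lit 40, nat_lit 40, nat_lit 80, nat_lit 13, nat_lit 428, nat_lit 200, nat_lit 12]⟩, ⟨p073_k27, nat_lit 0, nat_lit 0, nat_lit 205, nat_lit 0, nat_lit 0, [nat_lit 3282000000, nat_lit 4688000000, nat_lit 9842000000], [], [nat_lit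 25218295864, nat_lit 25516916333, nat_lit 37147280336, nat_lit 37452375141, nat_lit 26648355636, nat_lit 26809188123, nat_lit 34886088060, nat_lit 35054971672], nat_lit 0, nat_lit 0, nat_lit 0, nat_lit 0, nat_lit 0, nat_lit 0, [], [nat_lit 42, nat_lit 40, nat_lit 40, nat_lit 80, nat_lit 13, nat_lit 428, nat_lit 200, nat_lit 12]⟩,
 zbF0, [⟨nat_lit 4, nat_lit 89, nat_lit 100, nat_lit 95, nat_lit 170226205⟩, ⟨nat_lit 7, nat_lit 89, nat_lit 100, nat_lit 95, nat_lit 161798442⟩]⟩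
noncomputable def p073_l60 : Lf2 := ⟨nat_lit 0, nat_lit 10, [nat_lit 0, nat_lit 5, nat_lit 5, nat_lit 20], false, nat_lit 0, nat_lit 332, nat_lit 0, nat_lit 336, ⟨nat_lit 1000, nat_lit 0, nat_lit 0, nat_lit 0, nat_lit 0, nat_lit 0, nat_lit 0, nat_lit 0, nat_lit 0, nat_lit 0, nat_lit 0, nat_lit 0, nat_lit 0, nat_lit 0, nat_lit 0, nat_lit 0, false, false⟩,
 nat_lit 0, nat_lit 10090, nat_lit 0, nat_lit 0, nat_lit 6560, nat_lit 5858, nat_lit 1261, nat_lit 0, nat_lit 0, nat_lit 1424, nat_lit 0, nat_lit 0, nat_lit 0, nat_lit 2133943060038, nat_lit 0, nat_lit 0, nat_lit 0, nat_lit 0, [],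
 ⟨p073_k28, nat_lit 0, nat_lit 0, nat_lit 453, nat_lit 0, nat_lit 577521, [nat_lit 3282000000, nat_lit 4688000000, nat_lit 9842000000], [], [nat_lit 27357882085, nat_lit 27541570045, nat_lit 37489324760, nat_lit 37794736560, nat_lit 27239229585, nat_lit 27352526959, nat_lit 34867548217, nat_lit 35039140851], nat_lit 1271250, nat_lit 1271250, nat_lit 1271250, nat_lit 1271250, nat_lit 0, nat_lit 2344750, [nat_lit 780000, nat_lit 1100000, nat_lit 2127500], [nat_lit 42, nat_lit 40, nat_lit 40, nat_lit 80, nat_lit 13, nat_lit 428, nat_lit 200, nat_lit 12]⟩, ⟨p073_k27, nat_lit 0, nat_lit 0, nat_lit 206, nat_lit 0, nat_lit 0, [nat_lit 3282000000, nat_lit 4688000000, nat_lit 9842000000], [], [nat_lit 25597828112, nat_lit 26103494974, nat_lit 35347048528, nat_lit 35926082058, nat_lit 27518227170, nat_lit 27830644662, nat_lit 34070412322, nat_lit 34399043732], nat_lit 0, nat_lit 0, nat_lit 0, nat_lit 0, nat_lit 0, nat_lit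 0, [], [nat_lit 42, nat_lit 40, nat_lit 40, nat_lit 80, nat_lit 13, nat_lit 428, nat_lit 200, nat_lit 12]⟩,
 zbF0, [⟨nat_lit 16, nat_lit 100, nat_lit 92, nat_lit 96, nat_lit 153039485⟩, ⟨nat_lit 19, nat_lit 100, nat_lit 91, nat_lit 96, nat_lit 173601038⟩]⟩
noncomputable def p073_l61 : Lf2 := ⟨nat_lit 0, nat_lit 10, [nat_lit 0, nat_lit 5, nat_lit 5, nat_lit 20], false, nat_lit 0, nat_lit 328, nat_lit 0, nat_lit 336, ⟨nat_lit 1000, nat_lit 0, nat_lit 0, nat_lit 0, nat_lit 0, nat_lit 0, nat_lit 0, nat_lit 0, nat_lit 0, nat_lit 0, nat_lit 0, nat_lit 0, nat_lit 0, nat_lit 0, nat_lit 0, nat_lit 0, false, false⟩,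
 nat_lit 0, nat_lit 9006, nat_lit 0, nat_lit 0, nat_lit 5981, nat_lit 6516, nat_lit 1174, nat_lit 0, nat_lit 0, nat_lit 1439, nat_lit 0, nat_lit 0, nat_lit 0, nat_lit 1613860493700, nat_lit 0, nat_lit 0, nat_lit 0, nat_lit 0, [],
 ⟨p073_k29, nat_lit 0, nat_lit 0, nat_lit 427, nat_lit 0, nat_lit 654143, [nat_lit 3282000000, nat_lit 4688000000, nat_lit 7968000000], [], [nat_lit 27928668087, nat_lit 28123970385, nat_lit 36253495881, nat_lit 36545797674, nat_lit 28680168818, nat_lit 28806824040, nat_lit 34159884746, nat_lit 34329873002], nat_lit 1271250, nat_lit 1271250, nat_lit 1271250, nat_lit 1271250, nat_lit 0, nat_lit 2316500, [nat_lit 780000, nat_lit 1100000, nat_lit 1785000], [nat_lit 36, nat_lit 40, nat_lit 40, nat_lit 80, nat_lit 7, nat_lit 317, nat_lit 100, nat_lit 10]⟩, ⟨p073_k27, nat_lit 0, nat_lit 0, nat_lit 206, nat_lit 0, nat_lit 0, [nat_lit 3282000000, nat_lit 4688000000, nat_lit 9842000000], [],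 [nat_lit 24813137719, nat_lit 25706881741, nat_lit 37068781856, nat_lit 37982028446, nat_lit 26268294075, nat_lit 26778918681, nat_lit 34850520804, nat_lit 35356574095], nat_lit 0, nat_lit 0, nat_lit 0, nat_lit 0, nat_lit 0, nat_lit 0, [], [nat_lit 42, nat_lit 40, nat_lit 40, nat_lit 80, nat_lit 13, nat_lit 428, nat_lit 200, nat_lit 12]⟩,
 zbF0, [⟨nat_lit 16, nat_lit 100, nat_lit 95, nat_lit 98, nat_lit 156804147⟩, ⟨nat_lit 7, nat_lit 92, nat_lit 100, nat_lit 96, nat_lit 156591888⟩]⟩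
noncomputable def p073_l62 : Lf2 := ⟨nat_lit 0, nat_lit 10, [nat_lit 0, nat_lit 5, nat_lit 5, nat_lit 20], false, nat_lit 0, nat_lit 324, nat_lit 0, nat_lit 336, ⟨nat_lit 1000, nat_lit 0, nat_lit 0, nat_lit 0, nat_lit 0, nat_lit 0, nat_lit 0, nat_lit 0, nat_lit 0, nat_lit 0, nat_lit 0, nat_lit 0, nat_lit 0, nat_lit 0, nat_lit 0, nat_lit 0, false, false⟩,
 nat_lit 0, nat_lit 8543, nat_lit 0, nat_lit 0, nat_lit 5793, nat_lit 6479, nat_lit 1317, nat_lit 0, nat_lit 0, nat_lit 1427, nat_lit 0, nat_lit 0, nat_lit 0, nat_lit 671682938156, nat_lit 0, nat_lit 0, nat_lit 0, nat_lit 0, [],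
 ⟨p073_k30, nat_lit 0, nat_lit 0, nat_lit 462, nat_lit 0, nat_lit 727244, [nat_lit 3282000000, nat_lit 4688000000, nat_lit 7968000000], [], [nat_lit 27300161162, nat_lit 27481654496, nat_lit 36041103496, nat_lit 36329148498, nat_lit 28452354118, nat_lit 28574577625, nat_lit 33920153153, nat_lit 34091137909], nat_lit 1271250, nat_lit 1271250, nat_lit 1271250, nat_lit 1271250, nat_lit 0, nat_lit 2288250, [nat_lit 780000, nat_lit 1100000, nat_lit 1785000], [nat_lit 36, nat_lit 40, nat_lit 40, nat_lit 80, nat_lit 7, nat_lit 317, nat_lit 100, nat_lit 10]⟩, ⟨p073_k27, nat_lit 0, nat_lit 0, nat_lit 207, nat_lit 0, nat_lit 0, [nat_lit 3282000000, nat_lit 4688000000, nat_lit 9842000000], [], [nat_lit 24908078611, nat_lit 26096255385, nat_lit 36971967064, nat_lit 38186278094, nat_lit 26394187420, nat_lit 27051359713, nat_lit 34806654521, nat_lit 35480409612], nat_lit 0, nat_lit 0, nat_lit 0, nat_lit 0, nat_lit 0, nat_lit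 0, [], [nat_lit 42, nat_lit 40, nat_lit 40, nat_lit 80, nat_lit 13, nat_lit 428, nat_lit 200, nat_lit 12]⟩,
 zbF0, [⟨nat_lit 4, nat_lit 98, nat_lit 100, nat_lit 99, nat_lit 153461913⟩, ⟨nat_lit 7, nat_lit 94, nat_lit 100, nat_lit 97, nat_lit 153740945⟩]⟩
noncomputable def p073_l63 : Lf2 := ⟨nat_lit 0, nat_lit 10, [nat_lit 0, nat_lit 5, nat_lit 5, nat_lit 20], false, nat_lit 0, nat_lit 320, nat_lit 0, nat_lit 160, ⟨nat_lit 1000, nat_lit 0, nat_lit 0, nat_lit 0, nat_lit 0, nat_lit 0, nat_lit 0, nat_lit 0, nat_lit 0, nat_lit 0, nat_lit 0, nat_lit 0, nat_lit 0, nat_lit 0, nat_lit 0, nat_lit 0, false, false⟩,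
 nat_lit 0, nat_lit 8079, nat_lit 0, nat_lit 0, nat_lit 5593, nat_lit 6024, nat_lit 1346, nat_lit 0, nat_lit 0, nat_lit 1639, nat_lit 0, nat_lit 0, nat_lit 0, nat_lit 0, nat_lit 0, nat_lit 0, nat_lit 0, nat_lit 0, [],
 ⟨p073_k18, nat_lit 0, nat_lit 0, nat_lit 608, nat_lit 0, nat_lit 1075315, [nat_lit 3282000000, nat_lit 4688000000, nat_lit 7968000000], [], [nat_lit 29808748414, nat_lit 30431792264, nat_lit 35787711298, nat_lit 36921777308, nat_lit 30810270292, nat_lit 31215772484, nat_lit 34069417032, nat_lit 34362480292], nat_lit 1271250, nat_lit 1271250, nat_lit 1271250, nat_lit 1271250, nat_lit 0, nat_lit 2260000, [nat_lit 780000, nat_lit 1100000, nat_lit 1785000], [nat_lit 36, nat_lit 40, nat_lit 40, nat_lit 80, nat_lit 7, nat_lit 317, nat_lit 100, nat_lit 10]⟩, ⟨p073_k27, nat_lit 0, nat_lit 0, nat_lit 209, nat_lit 0, nat_lit 0, [nat_lit 3282000000, nat_lit 4688000000, nat_lit 9842000000], [], [nat_lit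 24283375391, nat_lit 26574092479, nat_lit 35781406784, nat_lit 38127610144, nat_lit 21514227903, nat_lit 23226538591, nat_lit 29628054304, nat_lit 31467913856], nat_lit 0, nat_lit 0, nat_lit 0, nat_lit 0, nat_lit 0, nat_lit 0, [], [nat_lit 42, nat_lit 40, nat_lit 40, nat_lit 80, nat_lit 13, nat_lit 373, nat_lit 150, nat_lit 10]⟩,
 zbF0, [⟨nat_lit 16, nat_lit 93, nat_lit 100, nat_lit 97, nat_lit 161263398⟩]⟩
noncomputable def p073_l64 : Lf2 := ⟨nat_lit 0, nat_lit 10, [nat_lit 0, nat_lit 5, nat_lit 5, nat_lit 20], false, nat_lit 0, nat_lit 320, nat_lit 160, nat_lit 336, ⟨nat_lit 1000, nat_lit 0, nat_lit 0, nat_lit 0, nat_lit 0, nat_lit 0, nat_lit 0, nat_lit 0, nat_lit 0, nat_lit 0, nat_lit 0, nat_lit 0, nat_lit 0, nat_lit 0, nat_lit 0, nat_lit 0, false, false⟩,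
 nat_lit 0, nat_lit 8747, nat_lit 0, nat_lit 0, nat_lit 6055, nat_lit 4816, nat_lit 1861, nat_lit 0, nat_lit 0, nat_lit 0, nat_lit 0, nat_lit 0, nat_lit 0, nat_lit 0, nat_lit 0, nat_lit 0, nat_lit 0, nat_lit 0, [],
 ⟨p073_k31, nat_lit 0, nat_lit 0, nat_lit 514, nat_lit 0, nat_lit 888935, [nat_lit 3282000000, nat_lit 7968000000], [], [nat_lit 25834657340, nat_lit 26170910295, nat_lit 28956184200, nat_lit 29779984590, nat_lit 25963737085, nat_lit 26206731400, nat_lit 29331919580, nat_lit 29809851730], nat_lit 1271250, nat_lit 1271250, nat_lit 1271250, nat_lit 1271250, nat_lit 0, nat_lit 2260000, [nat_lit 780000, nat_lit 1762500], [nat_lit 74, nat_lit 40, nat_lit 40, nat_lit 80, nat_lit 43, nat_lit 317, nat_lit 100, nat_lit 10]⟩, ⟨p073_k32, nat_lit 0, nat_lit 0, nat_lit 47, nat_lit 0, nat_lit 0, [nat_lit 3282000000, nat_lit 9842000000], [], [nat_lit 17219426464, nat_lit 19337115736, nat_lit 22048327200, nat_lit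 23761904304, nat_lit 25149965402, nat_lit 26553032292, nat_lit 28453358829, nat_lit 29701189610], nat_lit 0, nat_lit 0, nat_lit 0, nat_lit 0, nat_lit 0, nat_lit 0, [], [nat_lit 82, nat_lit 40, nat_lit 40, nat_lit 80, nat_lit 63, nat_lit 401, nat_lit 175, nat_lit 11]⟩,
 zbF0, [⟨nat_lit 16, nat_lit 94, nat_lit 88, nat_lit 100, nat_lit 197830153⟩, ⟨nat_lit 7, nat_lit 97, nat_lit 100, nat_lit 98, nat_lit 415748460⟩]⟩
noncomputable def p073_l65 : Lf2 := ⟨nat_lit 0, nat_lit 10, [nat_lit 0, nat_lit 5, nat_lit 5, nat_lit 20], false, nat_lit 0, nat_lit 312, nat_lit 160, nat_lit 336, ⟨nat_lit 1000, nat_lit 0, nat_lit 0, nat_lit 0, nat_lit 0, nat_lit 0, nat_lit 0, nat_lit 0, nat_lit 0, nat_lit 0, nat_lit 0, nat_lit 0, nat_lit 0, nat_lit 0, nat_lit 0, nat_lit 0, false, false⟩,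
 nat_lit 0, nat_lit 8603, nat_lit 0, nat_lit 0, nat_lit 6202, nat_lit 4774, nat_lit 1198, nat_lit 0, nat_lit 0, nat_lit 0, nat_lit 0, nat_lit 0, nat_lit 0, nat_lit 16250767860332, nat_lit 0, nat_lit 0, nat_lit 0, nat_lit 0, [],
 ⟨p073_k26, nat_lit 0, nat_lit 0, nat_lit 572, nat_lit 0, nat_lit 1015668, [nat_lit 3282000000, nat_lit 7968000000], [], [nat_lit 26101382076, nat_lit 26473373204, nat_lit 30066390276, nat_lit 30901582872, nat_lit 26229264057, nat_lit 26446682415, nat_lit 29559841225, nat_lit 30055077647], nat_lit 1271250, nat_lit 1271250, nat_lit 1271250, nat_lit 1271250, nat_lit 0, nat_lit 2203500, [nat_lit 780000, nat_lit 1762500], [nat_lit 74, nat_lit 40, nat_lit 40, nat_lit 80, nat_lit 43, nat_lit 317, nat_lit 100, nat_lit 10]⟩, ⟨p073_k32, nat_lit 0, nat_lit 0, nat_lit 49, nat_lit 0, nat_lit 0, [nat_lit 3282000000, nat_lit 9842000000], [], [nat_lit 17267360896, nat_lit 20077966240, nat_lit 22076101800,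 nat_lit 24351568608, nat_lit 25172411983, nat_lit 27036615802, nat_lit 28421193684, nat_lit 30080008765], nat_lit 0, nat_lit 0, nat_lit 0, nat_lit 0, nat_lit 0, nat_lit 0, [], [nat_lit 82, nat_lit 40, nat_lit 40, nat_lit 80, nat_lit 63, nat_lit 401, nat_lit 175, nat_lit 11]⟩,
 zbF0, [⟨nat_lit 16, nat_lit 91, nat_lit 91, nat_lit 100, nat_lit 186790780⟩, ⟨nat_lit 7, nat_lit 100, nat_lit 100, nat_lit 100, nat_lit 399828429⟩]⟩
noncomputable def p073_l66 : Lf2 := ⟨nat_lit 0, nat_lit 10, [nat_lit 0, nat_lit 5, nat_lit 5, nat_lit 20], false, nat_lit 16, nat_lit 320, nat_lit 160, nat_lit 336, ⟨nat_lit 1000, nat_lit 0, nat_lit 0, nat_lit 0, nat_lit 0, nat_lit 0, nat_lit 0, nat_lit 0, nat_lit 0, nat_lit 0, nat_lit 0, nat_lit 0, nat_lit 0, nat_lit 0, nat_lit 0, nat_lit 0, false, false⟩,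
 nat_lit 0, nat_lit 8077, nat_lit 0, nat_lit 0, nat_lit 5591, nat_lit 5253, nat_lit 2730, nat_lit 0, nat_lit 0, nat_lit 0, nat_lit 0, nat_lit 0, nat_lit 0, nat_lit 0, nat_lit 0, nat_lit 0, nat_lit 0, nat_lit 0, [],
 ⟨p073_k18, nat_lit 0, nat_lit 0, nat_lit 515, nat_lit 0, nat_lit 888935, [nat_lit 3282000000, nat_lit 4688000000, nat_lit 7968000000], [], [nat_lit 29704756106, nat_lit 30065070054, nat_lit 34807510774, nat_lit 35371627101, nat_lit 30942945754, nat_lit 31158150151, nat_lit 33671274196, nat_lit 34014770094], nat_lit 1271250, nat_lit 1271250, nat_lit 1271250, nat_lit 1271250, nat_lit 88400, nat_lit 2281000, [nat_lit 780000, nat_lit 1100000, nat_lit 1785000], [nat_lit 36, nat_lit 40, nat_lit 40, nat_lit 80, nat_lit 7, nat_lit 317, nat_lit 100, nat_lit 9]⟩, ⟨p073_k27, nat_lit 0, nat_lit 0, nat_lit 76, nat_lit 0, nat_lit 0, [nat_lit 3282000000, nat_lit 4688000000, nat_lit 9842000000], [], [nat_lit 24084766016,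 nat_lit 25596598742, nat_lit 29211707732, nat_lit 30487689389, nat_lit 29546512387, nat_lit 30644968428, nat_lit 33471846335, nat_lit 34316263145], nat_lit 0, nat_lit 0, nat_lit 0, nat_lit 0, nat_lit 0, nat_lit 0, [], [nat_lit 42, nat_lit 40, nat_lit 40, nat_lit 80, nat_lit 13, nat_lit 317, nat_lit 100, nat_lit 8]⟩,
 zbF0, [⟨nat_lit 16, nat_lit 94, nat_lit 88, nat_lit 100, nat_lit 177725485⟩, ⟨nat_lit 7, nat_lit 97, nat_lit 100, nat_lit 98, nat_lit 344046159⟩]⟩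
noncomputable def p073_l67 : Lf2 := ⟨nat_lit 0, nat_lit 10, [nat_lit 0, nat_lit 5, nat_lit 5, nat_lit 20], false, nat_lit 16, nat_lit 312, nat_lit 160, nat_lit 336, ⟨nat_lit 1000, nat_lit 0, nat_lit 0, nat_lit 0, nat_lit 0, nat_lit 0, nat_lit 0, nat_lit 0, nat_lit 0, nat_lit 0, nat_lit 0, nat_lit 0, nat_lit 0, nat_lit 0, nat_lit 0, nat_lit 0, false, false⟩,
 nat_lit 0, nat_lit 7618, nat_lit 0, nat_lit 0, nat_lit 5491, nat_lit 5572, nat_lit 1059, nat_lit 0, nat_lit 0, nat_lit 0, nat_lit 0, nat_lit 0, nat_lit 0, nat_lit 0, nat_lit 0, nat_lit 0, nat_lit 0, nat_lit 0, [],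
 ⟨p073_k17, nat_lit 0, nat_lit 0, nat_lit 555, nat_lit 0, nat_lit 1015668, [nat_lit 3282000000, nat_lit 4688000000, nat_lit 7968000000], [], [nat_lit 31437370541, nat_lit 31727765446, nat_lit 35117606441, nat_lit 35677212629, nat_lit 31559577503, nat_lit 31735406516, nat_lit 33721630359, nat_lit 33995732091], nat_lit 1271250, nat_lit 1271250, nat_lit 1271250, nat_lit 1271250, nat_lit 88400, nat_lit 2223300, [nat_lit 780000, nat_lit 1100000, nat_lit 1785000], [nat_lit 36, nat_lit 40, nat_lit 40, nat_lit 80, nat_lit 7, nat_lit 317, nat_lit 100, nat_lit 9]⟩, ⟨p073_k27, nat_lit 0, nat_lit 0, nat_lit 78, nat_lit 0, nat_lit 0, [nat_lit 3282000000, nat_lit 4688000000, nat_lit 9842000000], [], [nat_lit 23554164384, nat_lit 25624699616, nat_lit 29158831568, nat_lit 30898194592, nat_lit 29379521050, nat_lit 30892365994, nat_lit 33731337815, nat_lit 35030672509], nat_lit 0, nat_lit 0, nat_lit 0, nat_lit 0, nat_lit 0,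 nat_lit 0, [], [nat_lit 42, nat_lit 40, nat_lit 40, nat_lit 80, nat_lit 13, nat_lit 317, nat_lit 100, nat_lit 8]⟩,
 zbF0, [⟨nat_lit 16, nat_lit 91, nat_lit 91, nat_lit 100, nat_lit 174758018⟩, ⟨nat_lit 19, nat_lit 100, nat_lit 100, nat_lit 100, nat_lit 345803768⟩]⟩
noncomputable def b_V_700_700_20_55 : St := ⟨true, nat_lit 1, nat_lit 0, nat_lit 2, nat_lit 120, nat_lit 280, nat_lit 320, nat_lit 280, nat_lit 320, nat_lit 240, nat_lit 400, nat_lit 80, nat_lit 120, nat_lit 0, nat_lit 336, nat_lit 0, nat_lit 336, nat_lit 0, nat_lit 40, nat_lit 0, nat_lit 0, nat_lit 0, nat_lit 0⟩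
theorem d_V_700_700_20_55 (h : EB TB.env) : Dead b_V_700_700_20_55 := chkB_sound0 h (T :=
(.spl (nat_lit 0) (nat_lit 300)
(.ord (.spl (nat_lit 0) (nat_lit 290)
(.ord (.spl (nat_lit 0) (nat_lit 285)
(.ord (.leaf p073_l59))
(.trX (nat_lit 16) (nat_lit 99) (nat_lit 82) (nat_lit 100) (nat_lit 332) (.leaf p073_l60))))
(.trX (nat_lit 16) (nat_lit 97) (nat_lit 84) (nat_lit 100) (nat_lit 328) (.spl (nat_lit 0) (nat_lit 295)
(.ord (.leaf p073_l61))
(.trX (nat_lit 16) (nat_lit 96) (nat_lit 86) (nat_lit 100) (nat_lit 324) (.leaf p073_l62))))))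
(.trX (nat_lit 16) (nat_lit 94) (nat_lit 88) (nat_lit 100) (nat_lit 320) (.spl (nat_lit 5) (nat_lit 160)
(.leaf p073_l63)
(.spl (nat_lit 2) (nat_lit 320)
(.spl (nat_lit 0) (nat_lit 310)
(.ord (.leaf p073_l64))
(.trX (nat_lit 16) (nat_lit 91) (nat_lit 91) (nat_lit 100) (nat_lit 312) (.leaf p073_l65)))
(.trZ (nat_lit 22) (nat_lit 82) (nat_lit 100) (nat_lit 44) (nat_lit 16) (.spl (nat_lit 0) (nat_lit 310)
(.ord (.leaf p073_l66))
(.trX (nat_lit 16) (nat_lit 91) (nat_lit 91) (nat_lit 100) (nat_lit 312) (.leaf p073_l67))))))))) (by decide +kernel)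
noncomputable def p073_l68 : Lf2 := ⟨nat_lit 0, nat_lit 10, [nat_lit 0, nat_lit 5, nat_lit 5, nat_lit 20], false, nat_lit 0, nat_lit 160, nat_lit 0, nat_lit 336, ⟨nat_lit 0, nat_lit 1000, nat_lit 0, nat_lit 7, nat_lit 174, nat_lit 1000, nat_lit 64, nat_lit 0, nat_lit 0, nat_lit 0, nat_lit 0, nat_lit 0, nat_lit 0, nat_lit 0, nat_lit 0, nat_lit 5000000, false, false⟩,
 nat_lit 8558, nat_lit 0, nat_lit 0, nat_lit 0, nat_lit 5446, nat_lit 0, nat_lit 0, nat_lit 0, nat_lit 0, nat_lit 0, nat_lit 0, nat_lit 0, nat_lit 0, nat_lit 23943107019390, nat_lit 12, nat_lit 1000000, nat_lit 0, nat_lit 0, [(nat_lit 12, [(nat_lit 2, nat_lit 1000)])],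
 ⟨p073_k33, nat_lit 0, nat_lit 0, nat_lit 457, nat_lit 0, nat_lit 450515, [nat_lit 2479200001, nat_lit 2186400000, nat_lit 42000000], [], [nat_lit 25753241961, nat_lit 22942310845, nat_lit 19093308584, nat_lit 20103490948, nat_lit 17427351312, nat_lit 18041397203, nat_lit 23816367987, nat_lit 21350375619], nat_lit 1271250, nat_lit 1271250, nat_lit 382400, nat_lit 1100001, nat_lit 0, nat_lit 1100001, [nat_lit 780000, nat_lit 1435000, nat_lit 1271250], [nat_lit 8, nat_lit 40, nat_lit 40, nat_lit 80, nat_lit 1, nat_lit 317, nat_lit 100, nat_lit 9]⟩, ⟨p073_k33, nat_lit 0, nat_lit 0, nat_lit 457, nat_lit 0, nat_lit 450515, [nat_lit 0, nat_lit 0, nat_lit 0], [], [nat_lit 0, nat_lit 0, nat_lit 0, nat_lit 0, nat_lit 0, nat_lit 0, nat_lit 0, nat_lit 0], nat_lit 1271250, nat_lit 1271250, nat_lit 382400, nat_lit 1100001, nat_lit 0, nat_lit 2373000, [nat_lit 780000, nat_lit 1435000, nat_lit 1271250], [nat_lit 8, nat_lit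 40, nat_lit 40, nat_lit 80, nat_lit 1, nat_lit 345, nat_lit 125, nat_lit 10]⟩,
 ⟨nat_lit 5000, nat_lit 5478, ⟨.ofNat (nat_lit 330654), .ofNat (nat_lit 510468), .ofNat (nat_lit 352005), .ofNat (nat_lit 531815), .ofNat (nat_lit 342856), .ofNat (nat_lit 514258), .ofNat (nat_lit 364277), .ofNat (nat_lit 535678)⟩, ⟨.negSucc (nat_lit 2832), .ofNat (nat_lit 296923), .ofNat (nat_lit 0), .ofNat (nat_lit 339637), .ofNat (nat_lit 0), .ofNat (nat_lit 299999), .ofNat (nat_lit 0), .ofNat (nat_lit 342856)⟩⟩, []⟩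
noncomputable def p073_l69 : Lf2 := ⟨nat_lit 0, nat_lit 10, [nat_lit 0, nat_lit 5, nat_lit 5, nat_lit 20], false, nat_lit 0, nat_lit 160, nat_lit 0, nat_lit 336, ⟨nat_lit 0, nat_lit 1000, nat_lit 0, nat_lit 7, nat_lit 238, nat_lit 1000, nat_lit 64, nat_lit 0, nat_lit 0, nat_lit 0, nat_lit 0, nat_lit 0, nat_lit 0, nat_lit 0, nat_lit 0, nat_lit 5000000, false, false⟩,
 nat_lit 5590, nat_lit 0, nat_lit 0, nat_lit 0, nat_lit 3557, nat_lit 0, nat_lit 0, nat_lit 0, nat_lit 0, nat_lit 0, nat_lit 0, nat_lit 0, nat_lit 0, nat_lit 26853089466264, nat_lit 0, nat_lit 868000, nat_lit 0, nat_lit 0, [(nat_lit 12, [(nat_lit 1, nat_lit 220), (nat_lit 2, nat_lit 780)])],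
 ⟨p073_k27, nat_lit 0, nat_lit 0, nat_lit 367, nat_lit 0, nat_lit 450515, [nat_lit 2001856800, nat_lit 2635808001, nat_lit 350688000], [], [nat_lit 30057975681, nat_lit 28177254615, nat_lit 26250987806, nat_lit 26961451998, nat_lit 24321320954, nat_lit 25013332298, nat_lit 27852818909, nat_lit 26449628800], nat_lit 1271250, nat_lit 1271250, nat_lit 1100001, nat_lit 1785000, nat_lit 0, nat_lit 1100001, [nat_lit 780000, nat_lit 1100000, nat_lit 2127500], [nat_lit 42, nat_lit 40, nat_lit 40, nat_lit 80, nat_lit 13, nat_lit 317, nat_lit 100, nat_lit 9]⟩, ⟨p073_k27, nat_lit 0, nat_lit 0, nat_lit 367, nat_lit 0, nat_lit 450515, [nat_lit 0, nat_lit 0, nat_lit 0], [], [nat_lit 0, nat_lit 0, nat_lit 0, nat_lit 0, nat_lit 0, nat_lit 0, nat_lit 0, nat_lit 0], nat_lit 1271250, nat_lit 1271250, nat_lit 1271250, nat_lit 1271250, nat_lit 0, nat_lit 2373000, [nat_lit 780000, nat_lit 1100000, nat_lit 2127500], [nat_lit 42,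 nat_lit 40, nat_lit 40, nat_lit 80, nat_lit 13, nat_lit 373, nat_lit 150, nat_lit 11]⟩,
 ⟨nat_lit 5000, nat_lit 5478, ⟨.ofNat (nat_lit 510468), .ofNat (nat_lit 660309), .ofNat (nat_lit 531815), .ofNat (nat_lit 681655), .ofNat (nat_lit 514258), .ofNat (nat_lit 657090), .ofNat (nat_lit 535678), .ofNat (nat_lit 678509)⟩, ⟨.negSucc (nat_lit 2832), .ofNat (nat_lit 296923), .ofNat (nat_lit 0), .ofNat (nat_lit 339637), .ofNat (nat_lit 0), .ofNat (nat_lit 299999), .ofNat (nat_lit 0), .ofNat (nat_lit 342856)⟩⟩, []⟩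
noncomputable def p073_l70 : Lf2 := ⟨nat_lit 0, nat_lit 10, [nat_lit 0, nat_lit 5, nat_lit 5, nat_lit 20], false, nat_lit 0, nat_lit 160, nat_lit 0, nat_lit 336, ⟨nat_lit 224, nat_lit 776, nat_lit 0, nat_lit 7, nat_lit 215, nat_lit 776, nat_lit 65, nat_lit 0, nat_lit 0, nat_lit 0, nat_lit 0, nat_lit 0, nat_lit 0, nat_lit 0, nat_lit 0, nat_lit 5000000, false, false⟩,
 nat_lit 3621, nat_lit 5038, nat_lit 0, nat_lit 0, nat_lit 5994, nat_lit 2304, nat_lit 1459, nat_lit 0, nat_lit 0, nat_lit 60, nat_lit 0, nat_lit 0, nat_lit 0, nat_lit 18596520614262, nat_lit 0, nat_lit 310400, nat_lit 0, nat_lit 0, [(nat_lit 15, [(nat_lit 1, nat_lit 776)])],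
 ⟨p073_k34, nat_lit 0, nat_lit 0, nat_lit 438, nat_lit 0, nat_lit 599874, [nat_lit 2302843201, nat_lit 3227376534, nat_lit 3582882666], [], [nat_lit 20575288802, nat_lit 20925233456, nat_lit 22299641108, nat_lit 24403641120, nat_lit 13557169084, nat_lit 15948342736, nat_lit 25468218334, nat_lit 22822790410], nat_lit 1271250, nat_lit 1271250, nat_lit 490000, nat_lit 1740000, nat_lit 0, nat_lit 1100001, [nat_lit 780000, nat_lit 1435000, nat_lit 1271250], [nat_lit 18, nat_lit 40, nat_lit 40, nat_lit 80, nat_lit 2, nat_lit 317, nat_lit 100, nat_lit 10]⟩, ⟨p073_k33, nat_lit 0, nat_lit 0, nat_lit 560, nat_lit 0, nat_lit 666884, [nat_lit 735168000, nat_lit 1400000000, nat_lit 2204608000], [], [nat_lit 12600308352, nat_lit 10126098048, nat_lit 6828711276, nat_lit 7663936364, nat_lit 6835389676, nat_lit 7406875040, nat_lit 8939066548, nat_lit 6917526682], nat_lit 1271250, nat_lit 1271250, nat_lit 490000, nat_lit 1740000,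 nat_lit 0, nat_lit 2373000, [nat_lit 780000, nat_lit 1435000, nat_lit 1271250], [nat_lit 8, nat_lit 40, nat_lit 40, nat_lit 80, nat_lit 1, nat_lit 373, nat_lit 150, nat_lit 11]⟩,
 ⟨nat_lit 4472, nat_lit 5000, ⟨.ofNat (nat_lit 371392), .ofNat (nat_lit 657088), .ofNat (nat_lit 414225), .ofNat (nat_lit 699920), .ofNat (nat_lit 382295), .ofNat (nat_lit 654189), .ofNat (nat_lit 425403), .ofNat (nat_lit 697297)⟩, ⟨.ofNat (nat_lit 0), .ofNat (nat_lit 299999), .ofNat (nat_lit 0), .ofNat (nat_lit 342856), .ofNat (nat_lit 0), .ofNat (nat_lit 302621), .ofNat (nat_lit 0), .ofNat (nat_lit 345754)⟩⟩, []⟩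
noncomputable def p073_l71 : Lf2 := ⟨nat_lit 0, nat_lit 10, [nat_lit 0, nat_lit 5, nat_lit 5, nat_lit 20], false, nat_lit 160, nat_lit 240, nat_lit 0, nat_lit 336, ⟨nat_lit 30, nat_lit 970, nat_lit 0, nat_lit 7, nat_lit 204, nat_lit 970, nat_lit 157, nat_lit 0, nat_lit 0, nat_lit 0, nat_lit 0, nat_lit 0, nat_lit 0, nat_lit 0, nat_lit 0, nat_lit 5000000, false, false⟩,
 nat_lit 8475, nat_lit 0, nat_lit 0, nat_lit 0, nat_lit 5393, nat_lit 428, nat_lit 47, nat_lit 0, nat_lit 0, nat_lit 157, nat_lit 0, nat_lit 0, nat_lit 0, nat_lit 0, nat_lit 1, nat_lit 970000, nat_lit 0, nat_lit 0, [(nat_lit 12, [(nat_lit 2, nat_lit 970)]), (nat_lit 15, [(nat_lit 2, nat_lit 970)])],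
 ⟨p073_k27, nat_lit 0, nat_lit 0, nat_lit 358, nat_lit 0, nat_lit 563749, [nat_lit 2043631200, nat_lit 2690668001, nat_lit 38080000], [], [nat_lit 23851145349, nat_lit 19286131565, nat_lit 25084672867, nat_lit 20600433659, nat_lit 19152286145, nat_lit 21008027257, nat_lit 20505717851, nat_lit 22196698948], nat_lit 1271250, nat_lit 1271250, nat_lit 382400, nat_lit 1731000, nat_lit 1271250, nat_lit 1271250, [nat_lit 780000, nat_lit 1100000, nat_lit 2127500], [nat_lit 42, nat_lit 40, nat_lit 40, nat_lit 80, nat_lit 13, nat_lit 345, nat_lit 125, nat_lit 10]⟩, ⟨p073_k27, nat_lit 0, nat_lit 0, nat_lit 488, nat_lit 0, nat_lit 563749, [nat_lit 98460000, nat_lit 140640000, nat_lit 295260000], [], [nat_lit 2179845029, nat_lit 1948588240, nat_lit 863600192, nat_lit 981071116, nat_lit 993359330, nat_lit 1072859548, nat_lit 1129200079, nat_lit 953509573], nat_lit 1271250, nat_lit 1271250, nat_lit 382400, nat_lit 1731000,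 nat_lit 0, nat_lit 2373000, [nat_lit 780000, nat_lit 1100000, nat_lit 2127500], [nat_lit 42, nat_lit 40, nat_lit 40, nat_lit 80, nat_lit 13, nat_lit 373, nat_lit 150, nat_lit 11]⟩,
 ⟨nat_lit 4472, nat_lit 5478, ⟨.ofNat (nat_lit 330579), .ofNat (nat_lit 660148), .ofNat (nat_lit 351903), .ofNat (nat_lit 681461), .ofNat (nat_lit 355064), .ofNat (nat_lit 654031), .ofNat (nat_lit 376597), .ofNat (nat_lit 675553)⟩, ⟨.ofNat (nat_lit 296923), .ofNat (nat_lit 446789), .ofNat (nat_lit 339637), .ofNat (nat_lit 489503), .ofNat (nat_lit 302621), .ofNat (nat_lit 438578), .ofNat (nat_lit 345754), .ofNat (nat_lit 481711)⟩⟩, [⟨nat_lit 7, nat_lit 94, nat_lit 100, nat_lit 97, nat_lit 5517023⟩]⟩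
noncomputable def p073_l72 : Lf2 := ⟨nat_lit 0, nat_lit 10, [nat_lit 0, nat_lit 5, nat_lit 5, nat_lit 20], false, nat_lit 240, nat_lit 336, nat_lit 0, nat_lit 336, ⟨nat_lit 0, nat_lit 1000, nat_lit 0, nat_lit 7, nat_lit 201, nat_lit 1000, nat_lit 222, nat_lit 0, nat_lit 0, nat_lit 0, nat_lit 0, nat_lit 0, nat_lit 0, nat_lit 0, nat_lit 0, nat_lit 5000000, false, false⟩,
 nat_lit 0, nat_lit 7143, nat_lit 0, nat_lit 0, nat_lit 4545, nat_lit 0, nat_lit 0, nat_lit 0, nat_lit 0, nat_lit 0, nat_lit 0, nat_lit 0, nat_lit 0, nat_lit 0, nat_lit 12, nat_lit 1000000, nat_lit 0, nat_lit 0, [(nat_lit 12, [(nat_lit 2, nat_lit 1000)])],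
 ⟨p073_k33, nat_lit 0, nat_lit 0, nat_lit 308, nat_lit 0, nat_lit 397466, [nat_lit 2479200001, nat_lit 2186400000, nat_lit 42000000], [], [nat_lit 20458072593, nat_lit 21269175991, nat_lit 22148875601, nat_lit 22882883341, nat_lit 24182909700, nat_lit 24942344130, nat_lit 25291643510, nat_lit 25877803318], nat_lit 1271250, nat_lit 1271250, nat_lit 382400, nat_lit 1731000, nat_lit 1271250, nat_lit 1271250, [nat_lit 780000, nat_lit 1435000, nat_lit 1271250], [nat_lit 8, nat_lit 40, nat_lit 40, nat_lit 80, nat_lit 1, nat_lit 373, nat_lit 150, nat_lit 10]⟩, ⟨p073_k33, nat_lit 0, nat_lit 0, nat_lit 436, nat_lit 0, nat_lit 397466, [nat_lit 0, nat_lit 0, nat_lit 0], [], [nat_lit 0, nat_lit 0, nat_lit 0, nat_lit 0, nat_lit 0, nat_lit 0, nat_lit 0, nat_lit 0], nat_lit 1271250, nat_lit 1271250, nat_lit 382400, nat_lit 1731000, nat_lit 0, nat_lit 2373000, [nat_lit 780000, nat_lit 1435000, nat_lit 1271250], [nat_lit 8,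 nat_lit 40, nat_lit 40, nat_lit 80, nat_lit 1, nat_lit 373, nat_lit 150, nat_lit 11]⟩,
 ⟨nat_lit 5000, nat_lit 5478, ⟨.ofNat (nat_lit 330654), .ofNat (nat_lit 660309), .ofNat (nat_lit 341330), .ofNat (nat_lit 670982), .ofNat (nat_lit 342856), .ofNat (nat_lit 657090), .ofNat (nat_lit 353567), .ofNat (nat_lit 667800)⟩, ⟨.ofNat (nat_lit 446789), .ofNat (nat_lit 626629), .ofNat (nat_lit 489503), .ofNat (nat_lit 669336), .ofNat (nat_lit 442856), .ofNat (nat_lit 614284), .ofNat (nat_lit 485713), .ofNat (nat_lit 657134)⟩⟩, [⟨nat_lit 16, nat_lit 100, nat_lit 94, nat_lit 97, nat_lit 257535304⟩]⟩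
noncomputable def p073_l73 : Lf2 := ⟨nat_lit 0, nat_lit 10, [nat_lit 0, nat_lit 5, nat_lit 5, nat_lit 20], false, nat_lit 240, nat_lit 320, nat_lit 0, nat_lit 336, ⟨nat_lit 39, nat_lit 961, nat_lit 0, nat_lit 7, nat_lit 209, nat_lit 961, nat_lit 213, nat_lit 0, nat_lit 0, nat_lit 0, nat_lit 0, nat_lit 0, nat_lit 0, nat_lit 0, nat_lit 0, nat_lit 5000000, false, false⟩,
 nat_lit 1119, nat_lit 4838, nat_lit 0, nat_lit 0, nat_lit 4124, nat_lit 712, nat_lit 620, nat_lit 0, nat_lit 0, nat_lit 0, nat_lit 0, nat_lit 0, nat_lit 0, nat_lit 0, nat_lit 0, nat_lit 384400, nat_lit 0, nat_lit 0, [(nat_lit 15, [(nat_lit 1, nat_lit 961)])],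
 ⟨p073_k34, nat_lit 0, nat_lit 0, nat_lit 279, nat_lit 0, nat_lit 463810, [nat_lit 2069410200, nat_lit 2506776867, nat_lit 2546759333], [], [nat_lit 20452941038, nat_lit 21358556582, nat_lit 22575190182, nat_lit 23286559910, nat_lit 23444632190, nat_lit 24200496662, nat_lit 24987354927, nat_lit 25658788199], nat_lit 1271250, nat_lit 1271250, nat_lit 490000, nat_lit 1740000, nat_lit 1271250, nat_lit 1271250, [nat_lit 780000, nat_lit 1435000, nat_lit 1271250], [nat_lit 18, nat_lit 40, nat_lit 40, nat_lit 80, nat_lit 2, nat_lit 272, nat_lit 60, nat_lit 8]⟩, ⟨p073_k33, nat_lit 0, nat_lit 0, nat_lit 469, nat_lit 0, nat_lit 515621, [nat_lit 127998000, nat_lit 243750000, nat_lit 383838000], [], [nat_lit 3001322260, nat_lit 2810172332, nat_lit 1304823816, nat_lit 1377662505, nat_lit 1353971130, nat_lit 1415519545, nat_lit 1444821286, nat_lit 1290557829], nat_lit 1271250, nat_lit 1271250, nat_lit 490000, nat_lit 1740000,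 nat_lit 0, nat_lit 2373000, [nat_lit 780000, nat_lit 1435000, nat_lit 1271250], [nat_lit 8, nat_lit 40, nat_lit 40, nat_lit 80, nat_lit 1, nat_lit 373, nat_lit 150, nat_lit 11]⟩,
 ⟨nat_lit 4472, nat_lit 5000, ⟨.ofNat (nat_lit 371392), .ofNat (nat_lit 657088), .ofNat (nat_lit 382100), .ofNat (nat_lit 667796), .ofNat (nat_lit 382295), .ofNat (nat_lit 654189), .ofNat (nat_lit 393072), .ofNat (nat_lit 664966)⟩, ⟨.ofNat (nat_lit 442856), .ofNat (nat_lit 585713), .ofNat (nat_lit 485713), .ofNat (nat_lit 628570), .ofNat (nat_lit 438578), .ofNat (nat_lit 574534), .ofNat (nat_lit 481711), .ofNat (nat_lit 617667)⟩⟩, [⟨nat_lit 16, nat_lit 94, nat_lit 88, nat_lit 100, nat_lit 266333299⟩, ⟨nat_lit 19, nat_lit 100, nat_lit 80, nat_lit 100, nat_lit 6124215⟩]⟩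
noncomputable def p073_l74 : Lf2 := ⟨nat_lit 0, nat_lit 10, [nat_lit 0, nat_lit 5, nat_lit 5, nat_lit 20], false, nat_lit 240, nat_lit 328, nat_lit 0, nat_lit 328, ⟨nat_lit 76, nat_lit 924, nat_lit 0, nat_lit 7, nat_lit 212, nat_lit 924, nat_lit 218, nat_lit 0, nat_lit 0, nat_lit 0, nat_lit 0, nat_lit 0, nat_lit 0, nat_lit 0, nat_lit 0, nat_lit 5000000, false, false⟩,
 nat_lit 6921, nat_lit 0, nat_lit 0, nat_lit 0, nat_lit 4596, nat_lit 1016, nat_lit 603, nat_lit 0, nat_lit 0, nat_lit 289, nat_lit 0, nat_lit 0, nat_lit 0, nat_lit 10996884050832, nat_lit 0, nat_lit 369600, nat_lit 0, nat_lit 0, [(nat_lit 12, [(nat_lit 1, nat_lit 924)])],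
 ⟨p073_k29, nat_lit 0, nat_lit 0, nat_lit 261, nat_lit 0, nat_lit 426895, [nat_lit 2128293600, nat_lit 2735403200, nat_lit 3105404800], [], [nat_lit 19826641956, nat_lit 20295256956, nat_lit 21879685882, nat_lit 22300752662, nat_lit 23357124780, nat_lit 23791599715, nat_lit 25052980698, nat_lit 25395544445], nat_lit 1271250, nat_lit 1271250, nat_lit 490000, nat_lit 1740000, nat_lit 1271250, nat_lit 1271250, [nat_lit 780000, nat_lit 1100000, nat_lit 1785000], [nat_lit 36, nat_lit 40, nat_lit 40, nat_lit 80, nat_lit 7, nat_lit 272, nat_lit 60, nat_lit 8]⟩, ⟨p073_k29, nat_lit 0, nat_lit 0, nat_lit 363, nat_lit 0, nat_lit 426895, [nat_lit 249432000, nat_lit 356288000, nat_lit 605568000], [], [nat_lit 4326348114, nat_lit 4053583610, nat_lit 2258214684, nat_lit 2399536056, nat_lit 2301486656, nat_lit 2399430453, nat_lit 2523272041, nat_lit 2307757512], nat_lit 1271250, nat_lit 1271250, nat_lit 490000, nat_lit 1740000,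 nat_lit 0, nat_lit 2316500, [nat_lit 780000, nat_lit 1100000, nat_lit 1785000], [nat_lit 36, nat_lit 40, nat_lit 40, nat_lit 80, nat_lit 7, nat_lit 373, nat_lit 150, nat_lit 12]⟩,
 ⟨nat_lit 5000, nat_lit 5245, ⟨.ofNat (nat_lit 376717), .ofNat (nat_lit 669390), .ofNat (nat_lit 387409), .ofNat (nat_lit 680082), .ofNat (nat_lit 382139), .ofNat (nat_lit 667842), .ofNat (nat_lit 392852), .ofNat (nat_lit 678555)⟩, ⟨.ofNat (nat_lit 444857), .ofNat (nat_lit 605833), .ofNat (nat_lit 487628), .ofNat (nat_lit 648604), .ofNat (nat_lit 442856), .ofNat (nat_lit 599999), .ofNat (nat_lit 485713), .ofNat (nat_lit 642856)⟩⟩, [⟨nat_lit 16, nat_lit 97, nat_lit 84, nat_lit 100, nat_lit 289336585⟩]⟩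
noncomputable def p073_l75 : Lf2 := ⟨nat_lit 0, nat_lit 10, [nat_lit 0, nat_lit 5, nat_lit 5, nat_lit 20], false, nat_lit 240, nat_lit 320, nat_lit 0, nat_lit 328, ⟨nat_lit 92, nat_lit 908, nat_lit 0, nat_lit 7, nat_lit 216, nat_lit 908, nat_lit 213, nat_lit 0, nat_lit 0, nat_lit 0, nat_lit 0, nat_lit 0, nat_lit 0, nat_lit 0, nat_lit 0, nat_lit 5000000, false, false⟩,
 nat_lit 1452, nat_lit 4949, nat_lit 0, nat_lit 0, nat_lit 4431, nat_lit 964, nat_lit 390, nat_lit 0, nat_lit 0, nat_lit 411, nat_lit 0, nat_lit 0, nat_lit 0, nat_lit 0, nat_lit 0, nat_lit 363200, nat_lit 0, nat_lit 0, [(nat_lit 15, [(nat_lit 1, nat_lit 908)])],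
 ⟨p073_k18, nat_lit 0, nat_lit 0, nat_lit 284, nat_lit 0, nat_lit 507102, [nat_lit 2136285601, nat_lit 2553110401, nat_lit 2853505600], [], [nat_lit 20834790597, nat_lit 21749184242, nat_lit 22804862676, nat_lit 23525864762, nat_lit 23835865180, nat_lit 24595548422, nat_lit 25180572536, nat_lit 25840026128], nat_lit 1271250, nat_lit 1271250, nat_lit 545600, nat_lit 1744500, nat_lit 1271250, nat_lit 1271250, [nat_lit 780000, nat_lit 1100000, nat_lit 1785000], [nat_lit 36, nat_lit 40, nat_lit 40, nat_lit 80, nat_lit 7, nat_lit 272, nat_lit 60, nat_lit 8]⟩, ⟨p073_k29, nat_lit 0, nat_lit 0, nat_lit 396, nat_lit 0, nat_lit 534193, [nat_lit 301944000, nat_lit 431296000, nat_lit 733056000], [], [nat_lit 4353853150, nat_lit 4095839514, nat_lit 2428385664, nat_lit 2570343696, nat_lit 2526658494, nat_lit 2625305864, nat_lit 2834224454, nat_lit 2634843243], nat_lit 1271250, nat_lit 1271250, nat_lit 545600, nat_lit 1744500,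 nat_lit 0, nat_lit 2316500, [nat_lit 780000, nat_lit 1100000, nat_lit 1785000], [nat_lit 36, nat_lit 40, nat_lit 40, nat_lit 80, nat_lit 7, nat_lit 373, nat_lit 150, nat_lit 12]⟩,
 ⟨nat_lit 4472, nat_lit 5000, ⟨.ofNat (nat_lit 396385), .ofNat (nat_lit 667796), .ofNat (nat_lit 407093), .ofNat (nat_lit 678503), .ofNat (nat_lit 406666), .ofNat (nat_lit 664966), .ofNat (nat_lit 417444), .ofNat (nat_lit 675743)⟩, ⟨.ofNat (nat_lit 442856), .ofNat (nat_lit 585713), .ofNat (nat_lit 485713), .ofNat (nat_lit 628570), .ofNat (nat_lit 438578), .ofNat (nat_lit 574534), .ofNat (nat_lit 481711), .ofNat (nat_lit 617667)⟩⟩, [⟨nat_lit 16, nat_lit 94, nat_lit 88, nat_lit 100, nat_lit 271088032⟩]⟩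
noncomputable def p073_l76 : Lf2 := ⟨nat_lit 0, nat_lit 10, [nat_lit 0, nat_lit 5, nat_lit 5, nat_lit 20], false, nat_lit 160, nat_lit 320, nat_lit 0, nat_lit 160, ⟨nat_lit 1000, nat_lit 0, nat_lit 0, nat_lit 0, nat_lit 0, nat_lit 0, nat_lit 0, nat_lit 0, nat_lit 0, nat_lit 0, nat_lit 0, nat_lit 0, nat_lit 0, nat_lit 0, nat_lit 0, nat_lit 0, false, false⟩,
 nat_lit 10190, nat_lit 0, nat_lit 0, nat_lit 0, nat_lit 6225, nat_lit 7054, nat_lit 1206, nat_lit 0, nat_lit 0, nat_lit 649, nat_lit 0, nat_lit 0, nat_lit 0, nat_lit 0, nat_lit 0, nat_lit 0, nat_lit 0, nat_lit 0, [],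
 ⟨p073_k18, nat_lit 0, nat_lit 0, nat_lit 309, nat_lit 0, nat_lit 599874, [nat_lit 3282000000, nat_lit 4688000000, nat_lit 7968000000], [], [nat_lit 19768123975, nat_lit 20787168550, nat_lit 23377895950, nat_lit 22267765200, nat_lit 24242987700, nat_lit 25371038200, nat_lit 25689096800, nat_lit 26906178800], nat_lit 1271250, nat_lit 1271250, nat_lit 631250, nat_lit 1751250, nat_lit 1271250, nat_lit 1271250, [nat_lit 780000, nat_lit 1100000, nat_lit 1785000], [nat_lit 36, nat_lit 40, nat_lit 40, nat_lit 80, nat_lit 7, nat_lit 373, nat_lit 150, nat_lit 12]⟩, ⟨p073_k18, nat_lit 0, nat_lit 0, nat_lit 420, nat_lit 0, nat_lit 599874, [nat_lit 3282000000, nat_lit 4688000000, nat_lit 7968000000], [], [nat_lit 26605286072, nat_lit 25074238458, nat_lit 26204620818, nat_lit 27856132094, nat_lit 20347166224, nat_lit 21432171842, nat_lit 31749090286, nat_lit 28595952286], nat_lit 1271250, nat_lit 1271250, nat_lit 631250,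 nat_lit 1751250, nat_lit 0, nat_lit 1100001, [nat_lit 780000, nat_lit 1100000, nat_lit 1785000], [nat_lit 36, nat_lit 40, nat_lit 40, nat_lit 80, nat_lit 7, nat_lit 317, nat_lit 100, nat_lit 10]⟩,
 zbF0, [⟨nat_lit 0, nat_lit 91, nat_lit 91, nat_lit 100, nat_lit 122861558⟩, ⟨nat_lit 16, nat_lit 94, nat_lit 88, nat_lit 100, nat_lit 330965852⟩]⟩
noncomputable def p073_l77 : Lf2 := ⟨nat_lit 0, nat_lit 10, [nat_lit 0, nat_lit 5, nat_lit 5, nat_lit 20], false, nat_lit 160, nat_lit 320, nat_lit 160, nat_lit 320, ⟨nat_lit 0, nat_lit 1000, nat_lit 0, nat_lit 7, nat_lit 185, nat_lit 1000, nat_lit 185, nat_lit 0, nat_lit 0, nat_lit 0, nat_lit 0, nat_lit 0, nat_lit 0, nat_lit 0, nat_lit 0, nat_lit 5000000, false, false⟩,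
 nat_lit 6311, nat_lit 0, nat_lit 0, nat_lit 0, nat_lit 4369, nat_lit 0, nat_lit 786, nat_lit 0, nat_lit 0, nat_lit 0, nat_lit 0, nat_lit 0, nat_lit 0, nat_lit 18597329414842, nat_lit 0, nat_lit 400000, nat_lit 0, nat_lit 0, [(nat_lit 15, [(nat_lit 1, nat_lit 1000)])],
 ⟨p073_k18, nat_lit 0, nat_lit 0, nat_lit 309, nat_lit 0, nat_lit 599874, [nat_lit 2020200000, nat_lit 2336800001, nat_lit 2343200000], [], [nat_lit 17558229915, nat_lit 18563333043, nat_lit 17675386347, nat_lit 18655365719, nat_lit 22740842911, nat_lit 23735643280, nat_lit 23516058693, nat_lit 23611207944], nat_lit 1271250, nat_lit 1271250, nat_lit 631250, nat_lit 780000, nat_lit 1100001, nat_lit 2470000, [nat_lit 780000, nat_lit 1100000, nat_lit 1785000], [nat_lit 36, nat_lit 40, nat_lit 40, nat_lit 80, nat_lit 7, nat_lit 345, nat_lit 125, nat_lit 11]⟩, ⟨p073_k18, nat_lit 0, nat_lit 0, nat_lit 309, nat_lit 0, nat_lit 599874, [nat_lit 0, nat_lit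 0, nat_lit 0], [], [nat_lit 0, nat_lit 0, nat_lit 0, nat_lit 0, nat_lit 0, nat_lit 0, nat_lit 0, nat_lit 0], nat_lit 1271250, nat_lit 1271250, nat_lit 631250, nat_lit 780000, nat_lit 1100001, nat_lit 2470000, [nat_lit 780000, nat_lit 1100000, nat_lit 1785000], [nat_lit 36, nat_lit 40, nat_lit 40, nat_lit 80, nat_lit 7, nat_lit 345, nat_lit 125, nat_lit 11]⟩,
 ⟨nat_lit 4472, nat_lit 5000, ⟨.ofNat (nat_lit 428520), .ofNat (nat_lit 464232), .ofNat (nat_lit 449936), .ofNat (nat_lit 485648), .ofNat (nat_lit 437835), .ofNat (nat_lit 471823), .ofNat (nat_lit 459390), .ofNat (nat_lit 493376)⟩, ⟨.ofNat (nat_lit 299999), .ofNat (nat_lit 585713), .ofNat (nat_lit 342856), .ofNat (nat_lit 628570), .ofNat (nat_lit 302621), .ofNat (nat_lit 574534), .ofNat (nat_lit 345754), .ofNat (nat_lit 617667)⟩⟩, [⟨nat_lit 0, nat_lit 91, nat_lit 91, nat_lit 100, nat_lit 281976612⟩, ⟨nat_lit 16, nat_lit 94, nat_lit 88, nat_lit 100, nat_lit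 260634241⟩]⟩
noncomputable def p073_l78 : Lf2 := ⟨nat_lit 0, nat_lit 10, [nat_lit 0, nat_lit 5, nat_lit 5, nat_lit 20], false, nat_lit 160, nat_lit 320, nat_lit 160, nat_lit 320, ⟨nat_lit 363, nat_lit 637, nat_lit 0, nat_lit 7, nat_lit 233, nat_lit 637, nat_lit 185, nat_lit 0, nat_lit 0, nat_lit 0, nat_lit 0, nat_lit 0, nat_lit 0, nat_lit 0, nat_lit 0, nat_lit 5000000, false, false⟩,
 nat_lit 7328, nat_lit 0, nat_lit 0, nat_lit 0, nat_lit 5073, nat_lit 2206, nat_lit 718, nat_lit 0, nat_lit 0, nat_lit 458, nat_lit 0, nat_lit 0, nat_lit 0, nat_lit 13533385013829, nat_lit 0, nat_lit 254800, nat_lit 0, nat_lit 0, [(nat_lit 15, [(nat_lit 1, nat_lit 637)])],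
 ⟨p073_k18, nat_lit 0, nat_lit 0, nat_lit 301, nat_lit 0, nat_lit 599874, [nat_lit 2478233400, nat_lit 3190285600, nat_lit 4367676000], [], [nat_lit 19435786550, nat_lit 20186062536, nat_lit 22147931150, nat_lit 21924318776, nat_lit 23479172388, nat_lit 24145071236, nat_lit 25117925984, nat_lit 26221559024], nat_lit 1271250, nat_lit 1271250, nat_lit 780000, nat_lit 1762500, nat_lit 1271250, nat_lit 1271250, [nat_lit 780000, nat_lit 1100000, nat_lit 1785000], [nat_lit 36, nat_lit 40, nat_lit 40, nat_lit 80, nat_lit 7, nat_lit 373, nat_lit 150, nat_lit 12]⟩, ⟨p073_k18, nat_lit 0, nat_lit 0, nat_lit 301, nat_lit 0, nat_lit 599874, [nat_lit 1191366000, nat_lit 1701744000, nat_lit 2892384000], [], [nat_lit 7242056856, nat_lit 7569363520, nat_lit 8288161356, nat_lit 8149641156, nat_lit 8782157842, nat_lit 9041438132, nat_lit 9298529644, nat_lit 9735044496], nat_lit 1271250, nat_lit 1271250, nat_lit 780000, nat_lit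 1762500, nat_lit 1271250, nat_lit 1271250, [nat_lit 780000, nat_lit 1100000, nat_lit 1785000], [nat_lit 36, nat_lit 40, nat_lit 40, nat_lit 80, nat_lit 7, nat_lit 373, nat_lit 150, nat_lit 12]⟩,
 ⟨nat_lit 4472, nat_lit 5000, ⟨.ofNat (nat_lit 464232), .ofNat (nat_lit 678503), .ofNat (nat_lit 485648), .ofNat (nat_lit 699920), .ofNat (nat_lit 471823), .ofNat (nat_lit 675743), .ofNat (nat_lit 493376), .ofNat (nat_lit 697297)⟩, ⟨.ofNat (nat_lit 299999), .ofNat (nat_lit 585713), .ofNat (nat_lit 342856), .ofNat (nat_lit 628570), .ofNat (nat_lit 302621), .ofNat (nat_lit 574534), .ofNat (nat_lit 345754), .ofNat (nat_lit 617667)⟩⟩, [⟨nat_lit 0, nat_lit 83, nat_lit 83, nat_lit 100, nat_lit 67266459⟩, ⟨nat_lit 4, nat_lit 100, nat_lit 93, nat_lit 97, nat_lit 290475301⟩, ⟨nat_lit 7, nat_lit 100, nat_lit 93, nat_lit 97, nat_lit 141225358⟩]⟩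
noncomputable def p073_l79 : Lf2 := ⟨nat_lit 0, nat_lit 10, [nat_lit 0, nat_lit 5, nat_lit 5, nat_lit 20], false, nat_lit 0, nat_lit 336, nat_lit 0, nat_lit 336, ⟨nat_lit 1000, nat_lit 0, nat_lit 0, nat_lit 0, nat_lit 0, nat_lit 0, nat_lit 0, nat_lit 0, nat_lit 0, nat_lit 0, nat_lit 0, nat_lit 0, nat_lit 0, nat_lit 0, nat_lit 0, nat_lit 0, false, false⟩,
 nat_lit 10529, nat_lit 0, nat_lit 0, nat_lit 2072, nat_lit 6700, nat_lit 6700, nat_lit 896, nat_lit 0, nat_lit 0, nat_lit 1208, nat_lit 0, nat_lit 0, nat_lit 0, nat_lit 0, nat_lit 0, nat_lit 0, nat_lit 0, nat_lit 0, [],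
 ⟨p073_k27, nat_lit 0, nat_lit 0, nat_lit 405, nat_lit 0, nat_lit 450515, [nat_lit 3282000000, nat_lit 4688000000, nat_lit 9842000000], [], [nat_lit 28236545200, nat_lit 29246852800, nat_lit 37961665600, nat_lit 38785562800, nat_lit 29445679360, nat_lit 29554055880, nat_lit 35068666641, nat_lit 35748290961], nat_lit 1271250, nat_lit 1271250, nat_lit 1271250, nat_lit 1271250, nat_lit 0, nat_lit 2373000, [nat_lit 780000, nat_lit 1100000, nat_lit 2127500], [nat_lit 42, nat_lit 40, nat_lit 40, nat_lit 80, nat_lit 13, nat_lit 428, nat_lit 200, nat_lit 12]⟩, ⟨p073_k27, nat_lit 0, nat_lit 0, nat_lit 405, nat_lit 0, nat_lit 450515, [nat_lit 3282000000, nat_lit 4688000000, nat_lit 9842000000], [], [nat_lit 26681420200, nat_lit 27691727800, nat_lit 37550239200, nat_lit 38784566200, nat_lit 27890554360, nat_lit 27998930880, nat_lit 35068666641, nat_lit 35748290961], nat_lit 1271250, nat_lit 1271250, nat_lit 1271250, nat_lit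 1271250, nat_lit 0, nat_lit 2373000, [nat_lit 780000, nat_lit 1100000, nat_lit 2127500], [nat_lit 42, nat_lit 40, nat_lit 40, nat_lit 80, nat_lit 13, nat_lit 428, nat_lit 200, nat_lit 12]⟩,
 zbF0, [⟨nat_lit 16, nat_lit 100, nat_lit 94, nat_lit 97, nat_lit 148669814⟩, ⟨nat_lit 7, nat_lit 94, nat_lit 100, nat_lit 97, nat_lit 148669814⟩]⟩
noncomputable def p073_l80 : Lf2 := ⟨nat_lit 0, nat_lit 10, [nat_lit 0, nat_lit 5, nat_lit 5, nat_lit 20], false, nat_lit 0, nat_lit 320, nat_lit 0, nat_lit 336, ⟨nat_lit 1000, nat_lit 0, nat_lit 0, nat_lit 0, nat_lit 0, nat_lit 0, nat_lit 0, nat_lit 0, nat_lit 0, nat_lit 0, nat_lit 0, nat_lit 0, nat_lit 0, nat_lit 0, nat_lit 0, nat_lit 0, false, false⟩,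
 nat_lit 10112, nat_lit 0, nat_lit 0, nat_lit 0, nat_lit 6410, nat_lit 6434, nat_lit 736, nat_lit 0, nat_lit 0, nat_lit 1219, nat_lit 0, nat_lit 0, nat_lit 0, nat_lit 0, nat_lit 0, nat_lit 0, nat_lit 0, nat_lit 0, [],
 ⟨p073_k18, nat_lit 0, nat_lit 0, nat_lit 411, nat_lit 0, nat_lit 599874, [nat_lit 3282000000, nat_lit 4688000000, nat_lit 7968000000], [], [nat_lit 27668817020, nat_lit 28471900920, nat_lit 37999482260, nat_lit 39207543960, nat_lit 27635294860, nat_lit 28088894120, nat_lit 34619803960, nat_lit 35332803920], nat_lit 1271250, nat_lit 1271250, nat_lit 1271250, nat_lit 1271250, nat_lit 0, nat_lit 2260000, [nat_lit 780000, nat_lit 1100000, nat_lit 1785000], [nat_lit 36, nat_lit 40, nat_lit 40, nat_lit 80, nat_lit 7, nat_lit 317, nat_lit 100, nat_lit 10]⟩, ⟨p073_k27, nat_lit 0, nat_lit 0, nat_lit 480, nat_lit 0, nat_lit 666884, [nat_lit 3282000000, nat_lit 4688000000, nat_lit 9842000000], [], [nat_lit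 29002176875, nat_lit 30461193827, nat_lit 36854219344, nat_lit 39274690104, nat_lit 29160851883, nat_lit 29988530028, nat_lit 34753303637, nat_lit 36098423634], nat_lit 1271250, nat_lit 1271250, nat_lit 1271250, nat_lit 1271250, nat_lit 0, nat_lit 2373000, [nat_lit 780000, nat_lit 1100000, nat_lit 2127500], [nat_lit 42, nat_lit 40, nat_lit 40, nat_lit 80, nat_lit 13, nat_lit 428, nat_lit 200, nat_lit 12]⟩,
 zbF0, [⟨nat_lit 16, nat_lit 93, nat_lit 100, nat_lit 97, nat_lit 138500743⟩, ⟨nat_lit 7, nat_lit 100, nat_lit 100, nat_lit 100, nat_lit 142113968⟩]⟩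
noncomputable def b_V_700_700_20_56 : St := ⟨true, nat_lit 1, nat_lit 1, nat_lit 2, nat_lit 120, nat_lit 280, nat_lit 320, nat_lit 280, nat_lit 320, nat_lit 64, nat_lit 400, nat_lit 80, nat_lit 120, nat_lit 0, nat_lit 336, nat_lit 0, nat_lit 336, nat_lit 0, nat_lit 40, nat_lit 0, nat_lit 0, nat_lit 0, nat_lit 0⟩
theorem d_V_700_700_20_56 (h : EB TB.env) : Dead b_V_700_700_20_56 := chkB_sound0 h (T :=
(.spl (nat_lit 2) (nat_lit 240)
(.spl (nat_lit 4) (nat_lit 160)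
(.spl (nat_lit 0) (nat_lit 300)
(.ord (.spl (nat_lit 2) (nat_lit 160)
(.leaf p073_l68)
(.leaf p073_l69)))
(.trZ (nat_lit 0) (nat_lit 100) (nat_lit 94) (nat_lit 88) (nat_lit 80) (.leaf p073_l70)))
(.spl (nat_lit 1) (nat_lit 300)
(.spl (nat_lit 4) (nat_lit 240)
(.leaf p073_l71)
(.spl (nat_lit 1) (nat_lit 290)
(.spl (nat_lit 0) (nat_lit 300)
(.leaf p073_l72)
(.trZ (nat_lit 0) (nat_lit 100) (nat_lit 94) (nat_lit 88) (nat_lit 80) (.trX (nat_lit 16) (nat_lit 94) (nat_lit 88) (nat_lit 100) (nat_lit 320) (.leaf p073_l73))))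
(.ord (.trZ (nat_lit 0) (nat_lit 100) (nat_lit 100) (nat_lit 90) (nat_lit 80) (.trX (nat_lit 16) (nat_lit 97) (nat_lit 84) (nat_lit 100) (nat_lit 328) (.trX (nat_lit 19) (nat_lit 97) (nat_lit 84) (nat_lit 100) (nat_lit 328) (.spl (nat_lit 0) (nat_lit 300)
(.leaf p073_l74)
(.trZ (nat_lit 0) (nat_lit 100) (nat_lit 97) (nat_lit 94) (nat_lit 88) (.trX (nat_lit 16) (nat_lit 94) (nat_lit 88) (nat_lit 100) (nat_lit 320) (.leaf p073_l75))))))))))
(.ord (.trZ (nat_lit 0) (nat_lit 100) (nat_lit 100) (nat_lit 100) (nat_lit 100) (.trX (nat_lit 16) (nat_lit 94) (nat_lit 88) (nat_lit 100) (nat_lit 320) (.trX (nat_lit 19) (nat_lit 94) (nat_lit 88) (nat_lit 100) (nat_lit 320) (.spl (nat_lit 5) (nat_lit 160)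
(.leaf p073_l76)
(.spl (nat_lit 2) (nat_lit 120)
(.leaf p073_l77)
(.leaf p073_l78)))))))))
(.spl (nat_lit 0) (nat_lit 300)
(.ord (.leaf p073_l79))
(.trX (nat_lit 16) (nat_lit 94) (nat_lit 88) (nat_lit 100) (nat_lit 320) (.leaf p073_l80))))) (by decide +kernel)
noncomputable def p073_l81 : Lf2 := ⟨nat_lit 0, nat_lit 20, [nat_lit 5, nat_lit 5, nat_lit 5, nat_lit 20], false, nat_lit 0, nat_lit 160, nat_lit 0, nat_lit 336, ⟨nat_lit 1000, nat_lit 0, nat_lit 0, nat_lit 0, nat_lit 0, nat_lit 0, nat_lit 0, nat_lit 0, nat_lit 0, nat_lit 0, nat_lit 0, nat_lit 0, nat_lit 0, nat_lit 0, nat_lit 0, nat_lit 0, false, false⟩,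
 nat_lit 0, nat_lit 0, nat_lit 0, nat_lit 35844, nat_lit 6376, nat_lit 5384, nat_lit 1413, nat_lit 0, nat_lit 0, nat_lit 1048, nat_lit 0, nat_lit 0, nat_lit 0, nat_lit 0, nat_lit 0, nat_lit 0, nat_lit 0, nat_lit 0, [],
 ⟨p073_k35, nat_lit 0, nat_lit 0, nat_lit 322, nat_lit 0, nat_lit 0, [nat_lit 3282000000, nat_lit 6250000000, nat_lit 11872000000], [], [nat_lit 21602321051, nat_lit 23252887973, nat_lit 23651429792, nat_lit 25360372048, nat_lit 16971934799, nat_lit 18570076839, nat_lit 20185284000, nat_lit 21602789968], nat_lit 0, nat_lit 0, nat_lit 0, nat_lit 0, nat_lit 0, nat_lit 0, [], [nat_lit 23, nat_lit 40, nat_lit 40, nat_lit 80, nat_lit 12, nat_lit 401, nat_lit 175, nat_lit 10]⟩, ⟨p073_k35, nat_lit 0, nat_lit 0, nat_lit 322, nat_lit 0, nat_lit 0, [nat_lit 3282000000, nat_lit 6250000000, nat_lit 11872000000], [], [nat_lit 24253473384, nat_lit 25754722879, nat_lit 25958886952, nat_lit 27093147272, nat_lit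 27660754513, nat_lit 28503170277, nat_lit 28638685421, nat_lit 29414440285], nat_lit 0, nat_lit 0, nat_lit 0, nat_lit 0, nat_lit 0, nat_lit 0, [], [nat_lit 23, nat_lit 40, nat_lit 40, nat_lit 80, nat_lit 12, nat_lit 456, nat_lit 225, nat_lit 12]⟩,
 zbF0, [⟨nat_lit 0, nat_lit 100, nat_lit 100, nat_lit 100, nat_lit 422302432⟩, ⟨nat_lit 7, nat_lit 94, nat_lit 100, nat_lit 97, nat_lit 230851671⟩]⟩
noncomputable def p073_l82 : Lf2 := ⟨nat_lit 0, nat_lit 20, [nat_lit 5, nat_lit 5, nat_lit 5, nat_lit 20], false, nat_lit 0, nat_lit 160, nat_lit 0, nat_lit 336, ⟨nat_lit 1000, nat_lit 0, nat_lit 0, nat_lit 0, nat_lit 0, nat_lit 0, nat_lit 0, nat_lit 0, nat_lit 0, nat_lit 0, nat_lit 0, nat_lit 0, nat_lit 0, nat_lit 0, nat_lit 0, nat_lit 0, false, false⟩,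
 nat_lit 0, nat_lit 0, nat_lit 0, nat_lit 32207, nat_lit 6559, nat_lit 7715, nat_lit 1132, nat_lit 0, nat_lit 0, nat_lit 1098, nat_lit 0, nat_lit 0, nat_lit 0, nat_lit 0, nat_lit 0, nat_lit 0, nat_lit 0, nat_lit 0, [],
 ⟨p073_k36, nat_lit 0, nat_lit 0, nat_lit 200, nat_lit 0, nat_lit 0, [nat_lit 3282000000, nat_lit 6250000000, nat_lit 9842000000], [], [nat_lit 21647586386, nat_lit 23537981492, nat_lit 23979670046, nat_lit 25397797352, nat_lit 17259205034, nat_lit 18850796272, nat_lit 19403608710, nat_lit 20710763104], nat_lit 0, nat_lit 0, nat_lit 0, nat_lit 0, nat_lit 0, nat_lit 0, [], [nat_lit 8, nat_lit 40, nat_lit 40, nat_lit 80, nat_lit 1, nat_lit 317, nat_lit 100, nat_lit 9]⟩, ⟨p073_k35, nat_lit 0, nat_lit 0, nat_lit 230, nat_lit 0, nat_lit 0, [nat_lit 3282000000, nat_lit 6250000000, nat_lit 11872000000], [], [nat_lit 24903447170, nat_lit 26730728070, nat_lit 26405527270, nat_lit 27769344470, nat_lit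 26507562455, nat_lit 27468000230, nat_lit 26800387488, nat_lit 27802018481], nat_lit 0, nat_lit 0, nat_lit 0, nat_lit 0, nat_lit 0, nat_lit 0, [], [nat_lit 23, nat_lit 40, nat_lit 40, nat_lit 80, nat_lit 12, nat_lit 456, nat_lit 225, nat_lit 12]⟩,
 zbF0, [⟨nat_lit 0, nat_lit 94, nat_lit 87, nat_lit 100, nat_lit 545436463⟩, ⟨nat_lit 19, nat_lit 100, nat_lit 94, nat_lit 97, nat_lit 195769285⟩]⟩
noncomputable def p073_l83 : Lf2 := ⟨nat_lit 0, nat_lit 17, [nat_lit 172, nat_lit 5, nat_lit 5, nat_lit 20], true, nat_lit 160, nat_lit 240, nat_lit 0, nat_lit 336, ⟨nat_lit 0, nat_lit 1000, nat_lit 0, nat_lit 7, nat_lit 159, nat_lit 1000, nat_lit 157, nat_lit 0, nat_lit 0, nat_lit 0, nat_lit 0, nat_lit 0, nat_lit 48825151, nat_lit 9185929, nat_lit 8988920, nat_lit 4140366, false, false⟩,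
 nat_lit 0, nat_lit 0, nat_lit 0, nat_lit 4650, nat_lit 4575, nat_lit 0, nat_lit 0, nat_lit 0, nat_lit 0, nat_lit 0, nat_lit 0, nat_lit 0, nat_lit 0, nat_lit 0, nat_lit 0, nat_lit 250000, nat_lit 0, nat_lit 0, [(nat_lit 13, [(nat_lit 0, nat_lit 1000)]), (nat_lit 16, [(nat_lit 0, nat_lit 1000)])],
 ⟨p073_k37, nat_lit 0, nat_lit 0, nat_lit 55, nat_lit 0, nat_lit 0, [nat_lit 2378400000, nat_lit 3128000000, nat_lit 3715520000], [], [nat_lit 12040079421, nat_lit 15924053961, nat_lit 12239906400, nat_lit 15679500200, nat_lit 15862945781, nat_lit 19328791860, nat_lit 15830748800, nat_lit 18880117000], nat_lit 0, nat_lit 0, nat_lit 0, nat_lit 0, nat_lit 0, nat_lit 0, [], [nat_lit 23, nat_lit 40, nat_lit 40, nat_lit 80, nat_lit 12, nat_lit 401, nat_lit 175, nat_lit 10]⟩, C1.Rw.none,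
 ⟨nat_lit 4472, nat_lit 5478, ⟨.ofNat (nat_lit 330579), .ofNat (nat_lit 435455), .ofNat (nat_lit 341241), .ofNat (nat_lit 446111), .ofNat (nat_lit 355064), .ofNat (nat_lit 450202), .ofNat (nat_lit 365830), .ofNat (nat_lit 460963)⟩, ⟨.ofNat (nat_lit 296923), .ofNat (nat_lit 446789), .ofNat (nat_lit 339637), .ofNat (nat_lit 489503), .ofNat (nat_lit 302621), .ofNat (nat_lit 438578), .ofNat (nat_lit 345754), .ofNat (nat_lit 481711)⟩⟩, [⟨nat_lit 0, nat_lit 100, nat_lit 96, nat_lit 91, nat_lit 142678756⟩]⟩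
noncomputable def p073_l84 : Lf2 := ⟨nat_lit 1, nat_lit 12, [nat_lit 126, nat_lit 5, nat_lit 5, nat_lit 20], false, nat_lit 240, nat_lit 336, nat_lit 0, nat_lit 336, zbN0,
 nat_lit 0, nat_lit 0, nat_lit 0, nat_lit 0, nat_lit 0, nat_lit 0, nat_lit 0, nat_lit 0, nat_lit 0, nat_lit 0, nat_lit 0, nat_lit 0, nat_lit 0, nat_lit 0, nat_lit 0, nat_lit 0, nat_lit 0, nat_lit 0, [],
 C1.Rw.none, C1.Rw.none,
 zbF0, []⟩
noncomputable def p073_l85 : Lf2 := ⟨nat_lit 0, nat_lit 12, [nat_lit 126, nat_lit 5, nat_lit 5, nat_lit 20], false, nat_lit 240, nat_lit 328, nat_lit 0, nat_lit 336, ⟨nat_lit 1000, nat_lit 0, nat_lit 0, nat_lit 0, nat_lit 0, nat_lit 0, nat_lit 0, nat_lit 0, nat_lit 0, nat_lit 0, nat_lit 0, nat_lit 0, nat_lit 0, nat_lit 0, nat_lit 0, nat_lit 0, false, false⟩,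
 nat_lit 0, nat_lit 0, nat_lit 0, nat_lit 23224, nat_lit 4760, nat_lit 6343, nat_lit 0, nat_lit 0, nat_lit 0, nat_lit 1712, nat_lit 0, nat_lit 0, nat_lit 0, nat_lit 0, nat_lit 0, nat_lit 0, nat_lit 0, nat_lit 0, [],
 ⟨p073_k38, nat_lit 0, nat_lit 0, nat_lit 66, nat_lit 0, nat_lit 0, [nat_lit 3282000000, nat_lit 4688000000, nat_lit 9842000000], [], [nat_lit 17264434249, nat_lit 18055801553, nat_lit 17278994440, nat_lit 18025441040, nat_lit 23136305955, nat_lit 23756903308, nat_lit 22832107220, nat_lit 23420161560], nat_lit 0, nat_lit 0, nat_lit 0, nat_lit 0, nat_lit 0, nat_lit 0, [], [nat_lit 42, nat_lit 40, nat_lit 40, nat_lit 80, nat_lit 13, nat_lit 345, nat_lit 125, nat_lit 9]⟩, ⟨p073_k39, nat_lit 0, nat_lit 0, nat_lit 177, nat_lit 0, nat_lit 0, [nat_lit 3282000000, nat_lit 4688000000, nat_lit 9842000000], [], [nat_lit 20501496104, nat_lit 21434041747, nat_lit 19801481500, nat_lit 20681938149, nat_lit 24883402872,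 nat_lit 25386047826, nat_lit 23940607086, nat_lit 24415721473], nat_lit 0, nat_lit 0, nat_lit 0, nat_lit 0, nat_lit 0, nat_lit 0, [], [nat_lit 42, nat_lit 40, nat_lit 40, nat_lit 80, nat_lit 13, nat_lit 345, nat_lit 125, nat_lit 10]⟩,
 zbF0, [⟨nat_lit 0, nat_lit 100, nat_lit 97, nat_lit 94, nat_lit 451176142⟩, ⟨nat_lit 4, nat_lit 97, nat_lit 100, nat_lit 98, nat_lit 331562590⟩, ⟨nat_lit 11, nat_lit 100, nat_lit 100, nat_lit 98, nat_lit 249954484⟩]⟩
noncomputable def p073_l86 : Lf2 := ⟨nat_lit 1, nat_lit 17, [nat_lit 172, nat_lit 5, nat_lit 5, nat_lit 20], false, nat_lit 240, nat_lit 336, nat_lit 0, nat_lit 336, zbN0,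
 nat_lit 0, nat_lit 0, nat_lit 0, nat_lit 0, nat_lit 0, nat_lit 0, nat_lit 0, nat_lit 0, nat_lit 0, nat_lit 0, nat_lit 0, nat_lit 0, nat_lit 0, nat_lit 0, nat_lit 0, nat_lit 0, nat_lit 0, nat_lit 0, [],
 C1.Rw.none, C1.Rw.none,
 zbF0, []⟩
noncomputable def p073_l87 : Lf2 := ⟨nat_lit 0, nat_lit 17, [nat_lit 172, nat_lit 5, nat_lit 5, nat_lit 20], false, nat_lit 240, nat_lit 320, nat_lit 0, nat_lit 336, ⟨nat_lit 1000, nat_lit 0, nat_lit 0, nat_lit 0, nat_lit 0, nat_lit 0, nat_lit 0, nat_lit 0, nat_lit 0, nat_lit 0, nat_lit 0, nat_lit 0, nat_lit 0, nat_lit 0, nat_lit 0, nat_lit 0, false, false⟩,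
 nat_lit 0, nat_lit 0, nat_lit 0, nat_lit 23087, nat_lit 4870, nat_lit 8172, nat_lit 0, nat_lit 0, nat_lit 0, nat_lit 1118, nat_lit 0, nat_lit 0, nat_lit 0, nat_lit 0, nat_lit 0, nat_lit 0, nat_lit 0, nat_lit 0, [],
 ⟨p073_k40, nat_lit 0, nat_lit 0, nat_lit 79, nat_lit 0, nat_lit 0, [nat_lit 3282000000, nat_lit 6250000000, nat_lit 9842000000], [], [nat_lit 17843672200, nat_lit 19434081880, nat_lit 17924015980, nat_lit 19435473880, nat_lit 22957634760, nat_lit 24363241960, nat_lit 22795600180, nat_lit 24013958280], nat_lit 0, nat_lit 0, nat_lit 0, nat_lit 0, nat_lit 0, nat_lit 0, [], [nat_lit 8, nat_lit 40, nat_lit 40, nat_lit 80, nat_lit 1, nat_lit 345, nat_lit 125, nat_lit 9]⟩, ⟨p073_k37, nat_lit 0, nat_lit 0, nat_lit 225, nat_lit 0, nat_lit 0, [nat_lit 3282000000, nat_lit 6250000000, nat_lit 11872000000], [], [nat_lit 25034636786, nat_lit 25982108946, nat_lit 24045583234, nat_lit 24946168014, nat_lit 26275180054,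 nat_lit 26768123284, nat_lit 25094742028, nat_lit 25728451982], nat_lit 0, nat_lit 0, nat_lit 0, nat_lit 0, nat_lit 0, nat_lit 0, [], [nat_lit 23, nat_lit 40, nat_lit 40, nat_lit 80, nat_lit 12, nat_lit 428, nat_lit 200, nat_lit 11]⟩,
 zbF0, [⟨nat_lit 0, nat_lit 100, nat_lit 92, nat_lit 94, nat_lit 574498721⟩, ⟨nat_lit 4, nat_lit 100, nat_lit 93, nat_lit 97, nat_lit 368729803⟩, ⟨nat_lit 11, nat_lit 100, nat_lit 100, nat_lit 100, nat_lit 201094885⟩]⟩
noncomputable def p073_l88 : Lf2 := ⟨nat_lit 1, nat_lit 20, [nat_lit 5, nat_lit 5, nat_lit 5, nat_lit 20], false, nat_lit 160, nat_lit 336, nat_lit 0, nat_lit 336, zbN0,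
 nat_lit 0, nat_lit 0, nat_lit 0, nat_lit 0, nat_lit 0, nat_lit 0, nat_lit 0, nat_lit 0, nat_lit 0, nat_lit 0, nat_lit 0, nat_lit 0, nat_lit 0, nat_lit 0, nat_lit 0, nat_lit 0, nat_lit 0, nat_lit 0, [],
 C1.Rw.none, C1.Rw.none,
 zbF0, []⟩
noncomputable def p073_l89 : Lf2 := ⟨nat_lit 0, nat_lit 20, [nat_lit 5, nat_lit 5, nat_lit 5, nat_lit 20], false, nat_lit 160, nat_lit 328, nat_lit 0, nat_lit 328, ⟨nat_lit 1000, nat_lit 0, nat_lit 0, nat_lit 0, nat_lit 0, nat_lit 0, nat_lit 0, nat_lit 0, nat_lit 0, nat_lit 0, nat_lit 0, nat_lit 0, nat_lit 0, nat_lit 0, nat_lit 0, nat_lit 0, false, false⟩,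
 nat_lit 0, nat_lit 0, nat_lit 0, nat_lit 21557, nat_lit 4867, nat_lit 7359, nat_lit 0, nat_lit 0, nat_lit 0, nat_lit 1118, nat_lit 0, nat_lit 0, nat_lit 0, nat_lit 0, nat_lit 0, nat_lit 0, nat_lit 0, nat_lit 0, [],
 ⟨p073_k41, nat_lit 0, nat_lit 0, nat_lit 84, nat_lit 0, nat_lit 0, [nat_lit 3282000000, nat_lit 6250000000, nat_lit 11872000000], [], [nat_lit 13353045955, nat_lit 16169709904, nat_lit 13639420426, nat_lit 16312047112, nat_lit 22946510872, nat_lit 24999957550, nat_lit 22785591057, nat_lit 24599980896], nat_lit 0, nat_lit 0, nat_lit 0, nat_lit 0, nat_lit 0, nat_lit 0, [], [nat_lit 23, nat_lit 40, nat_lit 40, nat_lit 80, nat_lit 12, nat_lit 428, nat_lit 200, nat_lit 11]⟩, ⟨p073_k41, nat_lit 0, nat_lit 0, nat_lit 230, nat_lit 0, nat_lit 0, [nat_lit 3282000000, nat_lit 6250000000, nat_lit 11872000000], [], [nat_lit 24529766412, nat_lit 25417052182, nat_lit 23680474833, nat_lit 24524665868, nat_lit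 25470919168, nat_lit 25958405263, nat_lit 24481131275, nat_lit 25065829230], nat_lit 0, nat_lit 0, nat_lit 0, nat_lit 0, nat_lit 0, nat_lit 0, [], [nat_lit 23, nat_lit 40, nat_lit 40, nat_lit 80, nat_lit 12, nat_lit 428, nat_lit 200, nat_lit 11]⟩,
 zbF0, [⟨nat_lit 0, nat_lit 100, nat_lit 97, nat_lit 98, nat_lit 531851729⟩, ⟨nat_lit 16, nat_lit 97, nat_lit 100, nat_lit 98, nat_lit 293330189⟩, ⟨nat_lit 11, nat_lit 100, nat_lit 100, nat_lit 100, nat_lit 195650153⟩]⟩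
noncomputable def p073_l90 : Lf2 := ⟨nat_lit 0, nat_lit 20, [nat_lit 5, nat_lit 5, nat_lit 5, nat_lit 20], false, nat_lit 160, nat_lit 336, nat_lit 0, nat_lit 336, ⟨nat_lit 1000, nat_lit 0, nat_lit 0, nat_lit 0, nat_lit 0, nat_lit 0, nat_lit 0, nat_lit 0, nat_lit 0, nat_lit 0, nat_lit 0, nat_lit 0, nat_lit 0, nat_lit 0, nat_lit 0, nat_lit 0, false, false⟩,
 nat_lit 0, nat_lit 0, nat_lit 0, nat_lit 19005, nat_lit 4785, nat_lit 8097, nat_lit 0, nat_lit 0, nat_lit 0, nat_lit 1079, nat_lit 0, nat_lit 0, nat_lit 0, nat_lit 0, nat_lit 0, nat_lit 0, nat_lit 0, nat_lit 0, [],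
 ⟨p073_k35, nat_lit 0, nat_lit 0, nat_lit 71, nat_lit 0, nat_lit 0, [nat_lit 3282000000, nat_lit 6250000000, nat_lit 11872000000], [], [nat_lit 12859458720, nat_lit 16388164760, nat_lit 17254806640, nat_lit 20068811600, nat_lit 22838337220, nat_lit 25138365140, nat_lit 25166533116, nat_lit 27044200417], nat_lit 0, nat_lit 0, nat_lit 0, nat_lit 0, nat_lit 0, nat_lit 0, [], [nat_lit 23, nat_lit 40, nat_lit 40, nat_lit 80, nat_lit 12, nat_lit 456, nat_lit 225, nat_lit 11]⟩, ⟨p073_k35, nat_lit 0, nat_lit 0, nat_lit 212, nat_lit 0, nat_lit 0, [nat_lit 3282000000, nat_lit 6250000000, nat_lit 11872000000], [], [nat_lit 24383477209, nat_lit 26174242019, nat_lit 26739528441, nat_lit 28140965001, nat_lit 25492857343, nat_lit 26424089856, nat_lit 26713410320, nat_lit 28034126354], nat_lit 0, nat_lit 0, nat_lit 0, nat_lit 0, nat_lit 0, nat_lit 0, [], [nat_lit 23, nat_lit 40, nat_lit 40, nat_lit 80, nat_lit 12, nat_lit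 456, nat_lit 225, nat_lit 12]⟩,
 zbF0, [⟨nat_lit 0, nat_lit 94, nat_lit 87, nat_lit 100, nat_lit 105981972⟩, ⟨nat_lit 4, nat_lit 100, nat_lit 100, nat_lit 100, nat_lit 476997069⟩, ⟨nat_lit 7, nat_lit 94, nat_lit 100, nat_lit 97, nat_lit 199086587⟩]⟩
noncomputable def p073_l91 : Lf2 := ⟨nat_lit 0, nat_lit 20, [nat_lit 5, nat_lit 5, nat_lit 5, nat_lit 20], false, nat_lit 0, nat_lit 160, nat_lit 0, nat_lit 320, ⟨nat_lit 1000, nat_lit 0, nat_lit 0, nat_lit 0, nat_lit 0, nat_lit 0, nat_lit 0, nat_lit 0, nat_lit 0, nat_lit 0, nat_lit 0, nat_lit 0, nat_lit 0, nat_lit 0, nat_lit 0, nat_lit 0, false, false⟩,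
 nat_lit 0, nat_lit 0, nat_lit 0, nat_lit 13793, nat_lit 6638, nat_lit 13683, nat_lit 724, nat_lit 0, nat_lit 0, nat_lit 0, nat_lit 0, nat_lit 0, nat_lit 0, nat_lit 0, nat_lit 0, nat_lit 0, nat_lit 0, nat_lit 0, [],
 ⟨p073_k36, nat_lit 0, nat_lit 0, nat_lit 191, nat_lit 0, nat_lit 0, [nat_lit 3282000000, nat_lit 6250000000, nat_lit 9842000000], [], [nat_lit 24675982760, nat_lit 26533251540, nat_lit 27263049972, nat_lit 28690636264, nat_lit 20283951202, nat_lit 21845587652, nat_lit 22597489220, nat_lit 23800628848], nat_lit 0, nat_lit 0, nat_lit 0, nat_lit 0, nat_lit 0, nat_lit 0, [], [nat_lit 8, nat_lit 40, nat_lit 40, nat_lit 80, nat_lit 1, nat_lit 317, nat_lit 100, nat_lit 9]⟩, ⟨p073_k36, nat_lit 0, nat_lit 0, nat_lit 191, nat_lit 0, nat_lit 0, [nat_lit 3282000000, nat_lit 6250000000, nat_lit 9842000000], [], [nat_lit 33436588660, nat_lit 36507781390, nat_lit 35006174702, nat_lit 37277287024, nat_lit 30097401020,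 nat_lit 31942394960, nat_lit 29386832864, nat_lit 31338378704], nat_lit 0, nat_lit 0, nat_lit 0, nat_lit 0, nat_lit 0, nat_lit 0, [], [nat_lit 8, nat_lit 40, nat_lit 40, nat_lit 80, nat_lit 1, nat_lit 373, nat_lit 150, nat_lit 11]⟩,
 zbF0, [⟨nat_lit 0, nat_lit 91, nat_lit 91, nat_lit 100, nat_lit 530842645⟩, ⟨nat_lit 19, nat_lit 93, nat_lit 100, nat_lit 97, nat_lit 102766657⟩]⟩
noncomputable def p073_l92 : Lf2 := ⟨nat_lit 0, nat_lit 20, [nat_lit 5, nat_lit 5, nat_lit 5, nat_lit 20], false, nat_lit 160, nat_lit 320, nat_lit 0, nat_lit 320, ⟨nat_lit 1000, nat_lit 0, nat_lit 0, nat_lit 0, nat_lit 0, nat_lit 0, nat_lit 0, nat_lit 0, nat_lit 0, nat_lit 0, nat_lit 0, nat_lit 0, nat_lit 0, nat_lit 0, nat_lit 0, nat_lit 0, false, false⟩,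
 nat_lit 0, nat_lit 0, nat_lit 0, nat_lit 11268, nat_lit 4938, nat_lit 14337, nat_lit 0, nat_lit 0, nat_lit 0, nat_lit 0, nat_lit 0, nat_lit 0, nat_lit 0, nat_lit 12327119804519, nat_lit 0, nat_lit 0, nat_lit 0, nat_lit 0, [],
 ⟨p073_k42, nat_lit 0, nat_lit 0, nat_lit 49, nat_lit 0, nat_lit 0, [nat_lit 3282000000, nat_lit 9842000000], [], [nat_lit 14335250682, nat_lit 16180608312, nat_lit 18510833616, nat_lit 19941478880, nat_lit 22853414578, nat_lit 24237000560, nat_lit 25065972940, nat_lit 26141330144], nat_lit 0, nat_lit 0, nat_lit 0, nat_lit 0, nat_lit 0, nat_lit 0, [], [nat_lit 82, nat_lit 40, nat_lit 40, nat_lit 80, nat_lit 63, nat_lit 373, nat_lit 150, nat_lit 10]⟩, ⟨p073_k42, nat_lit 0, nat_lit 0, nat_lit 174, nat_lit 0, nat_lit 0, [nat_lit 3282000000, nat_lit 9842000000], [], [nat_lit 33712589740, nat_lit 36896473210, nat_lit 35187721178, nat_lit 37537139536, nat_lit 29861267780, nat_lit 32518647440,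 nat_lit 29711091296, nat_lit 31727043056], nat_lit 0, nat_lit 0, nat_lit 0, nat_lit 0, nat_lit 0, nat_lit 0, [], [nat_lit 82, nat_lit 40, nat_lit 40, nat_lit 80, nat_lit 63, nat_lit 373, nat_lit 150, nat_lit 11]⟩,
 zbF0, [⟨nat_lit 0, nat_lit 91, nat_lit 91, nat_lit 100, nat_lit 444469789⟩, ⟨nat_lit 16, nat_lit 94, nat_lit 88, nat_lit 100, nat_lit 338666972⟩, ⟨nat_lit 11, nat_lit 77, nat_lit 77, nat_lit 100, nat_lit 129777432⟩]⟩
noncomputable def p073_l93 : Lf2 := ⟨nat_lit 0, nat_lit 20, [nat_lit 5, nat_lit 5, nat_lit 5, nat_lit 20], false, nat_lit 0, nat_lit 336, nat_lit 0, nat_lit 336, ⟨nat_lit 1000, nat_lit 0, nat_lit 0, nat_lit 0, nat_lit 0, nat_lit 0, nat_lit 0, nat_lit 0, nat_lit 0, nat_lit 0, nat_lit 0, nat_lit 0, nat_lit 0, nat_lit 0, nat_lit 0, nat_lit 0, false, false⟩,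
 nat_lit 0, nat_lit 0, nat_lit 0, nat_lit 24065, nat_lit 7547, nat_lit 7547, nat_lit 800, nat_lit 0, nat_lit 0, nat_lit 702, nat_lit 0, nat_lit 0, nat_lit 0, nat_lit 0, nat_lit 0, nat_lit 0, nat_lit 0, nat_lit 0, [],
 ⟨p073_k35, nat_lit 0, nat_lit 0, nat_lit 240, nat_lit 0, nat_lit 0, [nat_lit 3282000000, nat_lit 6250000000, nat_lit 11872000000], [], [nat_lit 29997780916, nat_lit 31046165826, nat_lit 39766512952, nat_lit 41077552742, nat_lit 28794540042, nat_lit 29332311080, nat_lit 36072848835, nat_lit 36774967442], nat_lit 0, nat_lit 0, nat_lit 0, nat_lit 0, nat_lit 0, nat_lit 0, [], [nat_lit 23, nat_lit 40, nat_lit 40, nat_lit 80, nat_lit 12, nat_lit 538, nat_lit 300, nat_lit 13]⟩, ⟨p073_k35, nat_lit 0, nat_lit 0, nat_lit 240, nat_lit 0, nat_lit 0, [nat_lit 3282000000, nat_lit 6250000000, nat_lit 11872000000], [], [nat_lit 30937662166, nat_lit 31986047076, nat_lit 40326902050, nat_lit 41077552742, nat_lit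 29734421292, nat_lit 30272192330, nat_lit 36072848835, nat_lit 36774967442], nat_lit 0, nat_lit 0, nat_lit 0, nat_lit 0, nat_lit 0, nat_lit 0, [], [nat_lit 23, nat_lit 40, nat_lit 40, nat_lit 80, nat_lit 12, nat_lit 538, nat_lit 300, nat_lit 13]⟩,
 zbF0, [⟨nat_lit 16, nat_lit 100, nat_lit 94, nat_lit 97, nat_lit 129239314⟩, ⟨nat_lit 19, nat_lit 100, nat_lit 94, nat_lit 97, nat_lit 129239314⟩]⟩
noncomputable def p073_l94 : Lf2 := ⟨nat_lit 0, nat_lit 20, [nat_lit 5, nat_lit 5, nat_lit 5, nat_lit 20], false, nat_lit 0, nat_lit 320, nat_lit 0, nat_lit 336, ⟨nat_lit 1000, nat_lit 0, nat_lit 0, nat_lit 0, nat_lit 0, nat_lit 0, nat_lit 0, nat_lit 0, nat_lit 0, nat_lit 0, nat_lit 0, nat_lit 0, nat_lit 0, nat_lit 0, nat_lit 0, nat_lit 0, false, false⟩,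
 nat_lit 0, nat_lit 0, nat_lit 0, nat_lit 15128, nat_lit 9127, nat_lit 7415, nat_lit 0, nat_lit 0, nat_lit 0, nat_lit 796, nat_lit 0, nat_lit 0, nat_lit 0, nat_lit 0, nat_lit 0, nat_lit 0, nat_lit 0, nat_lit 0, [],
 ⟨p073_k36, nat_lit 0, nat_lit 0, nat_lit 219, nat_lit 0, nat_lit 0, [nat_lit 3282000000, nat_lit 6250000000, nat_lit 9842000000], [], [nat_lit 33741456438, nat_lit 35467060656, nat_lit 45878314608, nat_lit 46809232800, nat_lit 31441034926, nat_lit 32365912228, nat_lit 38093385048, nat_lit 38565794824], nat_lit 0, nat_lit 0, nat_lit 0, nat_lit 0, nat_lit 0, nat_lit 0, [], [nat_lit 8, nat_lit 40, nat_lit 40, nat_lit 80, nat_lit 1, nat_lit 428, nat_lit 200, nat_lit 12]⟩, ⟨p073_k35, nat_lit 0, nat_lit 0, nat_lit 242, nat_lit 0, nat_lit 0, [nat_lit 3282000000, nat_lit 6250000000, nat_lit 11872000000], [], [nat_lit 30143746120, nat_lit 32222688020, nat_lit 39421119640, nat_lit 42019288740, nat_lit 29075580212,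 nat_lit 30147584477, nat_lit 35916352909, nat_lit 37313578916], nat_lit 0, nat_lit 0, nat_lit 0, nat_lit 0, nat_lit 0, nat_lit 0, [], [nat_lit 23, nat_lit 40, nat_lit 40, nat_lit 80, nat_lit 12, nat_lit 538, nat_lit 300, nat_lit 13]⟩,
 zbF0, [⟨nat_lit 4, nat_lit 100, nat_lit 93, nat_lit 97, nat_lit 62849343⟩, ⟨nat_lit 7, nat_lit 100, nat_lit 100, nat_lit 100, nat_lit 119364821⟩]⟩
noncomputable def b_V_700_700_20_57 : St := ⟨true, nat_lit 0, nat_lit 0, nat_lit 1, nat_lit 120, nat_lit 280, nat_lit 320, nat_lit 280, nat_lit 320, nat_lit 64, nat_lit 400, nat_lit 80, nat_lit 120, nat_lit 0, nat_lit 336, nat_lit 0, nat_lit 336, nat_lit 40, nat_lit 80, nat_lit 0, nat_lit 0, nat_lit 0, nat_lit 0⟩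
theorem d_V_700_700_20_57 (h : EB TB.env) : Dead b_V_700_700_20_57 := chkB_sound0 h (T :=
(.spl (nat_lit 2) (nat_lit 240)
(.spl (nat_lit 1) (nat_lit 300)
(.spl (nat_lit 4) (nat_lit 160)
(.spl (nat_lit 0) (nat_lit 300)
(.leaf p073_l81)
(.trZ (nat_lit 0) (nat_lit 100) (nat_lit 94) (nat_lit 88) (nat_lit 80) (.leaf p073_l82)))
(.spl (nat_lit 2) (nat_lit 120)
(.spl (nat_lit 1) (nat_lit 290)
(.spl (nat_lit 6) (nat_lit 68)
(.spl (nat_lit 4) (nat_lit 240)
(.leaf p073_l83)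
(.spl (nat_lit 0) (nat_lit 300)
(.spl (nat_lit 6) (nat_lit 48)
(.spl (nat_lit 0) (nat_lit 290)
(.leaf p073_l84)
(.trZ (nat_lit 0) (nat_lit 100) (nat_lit 97) (nat_lit 84) (nat_lit 72) (.trX (nat_lit 16) (nat_lit 97) (nat_lit 84) (nat_lit 100) (nat_lit 328) (.leaf p073_l85))))
(.leaf p073_l86))
(.trZ (nat_lit 0) (nat_lit 100) (nat_lit 94) (nat_lit 88) (nat_lit 80) (.trX (nat_lit 16) (nat_lit 94) (nat_lit 88) (nat_lit 100) (nat_lit 320) (.leaf p073_l87)))))
(.leaf p073_l88))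
(.ord (.trZ (nat_lit 0) (nat_lit 100) (nat_lit 100) (nat_lit 90) (nat_lit 80) (.trX (nat_lit 16) (nat_lit 97) (nat_lit 84) (nat_lit 100) (nat_lit 328) (.trX (nat_lit 19) (nat_lit 97) (nat_lit 84) (nat_lit 100) (nat_lit 328) (.leaf p073_l89))))))
(.leaf p073_l90)))
(.ord (.trZ (nat_lit 0) (nat_lit 100) (nat_lit 100) (nat_lit 100) (nat_lit 100) (.trX (nat_lit 16) (nat_lit 94) (nat_lit 88) (nat_lit 100) (nat_lit 320) (.trX (nat_lit 19) (nat_lit 94) (nat_lit 88) (nat_lit 100) (nat_lit 320) (.spl (nat_lit 4) (nat_lit 160)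
(.leaf p073_l91)
(.leaf p073_l92)))))))
(.spl (nat_lit 0) (nat_lit 300)
(.ord (.leaf p073_l93))
(.trX (nat_lit 16) (nat_lit 94) (nat_lit 88) (nat_lit 100) (nat_lit 320) (.leaf p073_l94))))) (by decide +kernel)
noncomputable def p073_l95 : Lf2 := ⟨nat_lit 0, nat_lit 14, [nat_lit 119, nat_lit 5, nat_lit 5, nat_lit 20], false, nat_lit 0, nat_lit 160, nat_lit 0, nat_lit 336, ⟨nat_lit 1000, nat_lit 0, nat_lit 0, nat_lit 0, nat_lit 0, nat_lit 0, nat_lit 0, nat_lit 0, nat_lit 0, nat_lit 0, nat_lit 0, nat_lit 0, nat_lit 0, nat_lit 0, nat_lit 0, nat_lit 0, false, false⟩,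
 nat_lit 0, nat_lit 0, nat_lit 12945, nat_lit 11843, nat_lit 6677, nat_lit 8237, nat_lit 1320, nat_lit 0, nat_lit 0, nat_lit 975, nat_lit 0, nat_lit 0, nat_lit 0, nat_lit 0, nat_lit 0, nat_lit 0, nat_lit 0, nat_lit 0, [],
 ⟨p073_k43, nat_lit 0, nat_lit 0, nat_lit 198, nat_lit 0, nat_lit 0, [nat_lit 3282000000, nat_lit 6250000000, nat_lit 9842000000], [], [nat_lit 21060364050, nat_lit 22999051151, nat_lit 20359483400, nat_lit 22061558726, nat_lit 16677936251, nat_lit 18313879055, nat_lit 16684694924, nat_lit 18339205830], nat_lit 0, nat_lit 0, nat_lit 0, nat_lit 0, nat_lit 0, nat_lit 0, [], [nat_lit 8, nat_lit 40, nat_lit 40, nat_lit 80, nat_lit 1, nat_lit 317, nat_lit 100, nat_lit 9]⟩, ⟨p073_k43, nat_lit 0, nat_lit 0, nat_lit 223, nat_lit 0, nat_lit 68581, [nat_lit 3282000000, nat_lit 6250000000, nat_lit 9842000000], [], [nat_lit 31507874205, nat_lit 29382126904, nat_lit 22664997275, nat_lit 23635248578, nat_lit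 27275409742, nat_lit 27849634706, nat_lit 25021584135, nat_lit 25522420100], nat_lit 1271250, nat_lit 1271250, nat_lit 382400, nat_lit 1100001, nat_lit 0, nat_lit 2373000, [nat_lit 780000, nat_lit 1435000, nat_lit 1271250], [nat_lit 8, nat_lit 40, nat_lit 40, nat_lit 80, nat_lit 1, nat_lit 345, nat_lit 125, nat_lit 10]⟩,
 zbF0, [⟨nat_lit 0, nat_lit 100, nat_lit 97, nat_lit 94, nat_lit 711977722⟩, ⟨nat_lit 19, nat_lit 100, nat_lit 91, nat_lit 96, nat_lit 131679448⟩]⟩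
noncomputable def p073_l96 : Lf2 := ⟨nat_lit 0, nat_lit 14, [nat_lit 119, nat_lit 5, nat_lit 5, nat_lit 20], false, nat_lit 0, nat_lit 160, nat_lit 0, nat_lit 328, ⟨nat_lit 1000, nat_lit 0, nat_lit 0, nat_lit 0, nat_lit 0, nat_lit 0, nat_lit 0, nat_lit 0, nat_lit 0, nat_lit 0, nat_lit 0, nat_lit 0, nat_lit 0, nat_lit 0, nat_lit 0, nat_lit 0, false, false⟩,
 nat_lit 0, nat_lit 0, nat_lit 13439, nat_lit 5555, nat_lit 7584, nat_lit 8925, nat_lit 1529, nat_lit 0, nat_lit 0, nat_lit 785, nat_lit 0, nat_lit 0, nat_lit 0, nat_lit 0, nat_lit 0, nat_lit 0, nat_lit 0, nat_lit 0, [],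
 ⟨p073_k44, nat_lit 0, nat_lit 0, nat_lit 187, nat_lit 0, nat_lit 0, [nat_lit 3282000000, nat_lit 6250000000, nat_lit 9842000000], [], [nat_lit 19193398008, nat_lit 20232106176, nat_lit 19192165130, nat_lit 20332360170, nat_lit 14474216330, nat_lit 15545335402, nat_lit 14887648362, nat_lit 15833017610], nat_lit 0, nat_lit 0, nat_lit 0, nat_lit 0, nat_lit 0, nat_lit 0, [], [nat_lit 8, nat_lit 40, nat_lit 40, nat_lit 80, nat_lit 1, nat_lit 317, nat_lit 100, nat_lit 9]⟩, ⟨p073_k44, nat_lit 0, nat_lit 0, nat_lit 298, nat_lit 0, nat_lit 153256, [nat_lit 3282000000, nat_lit 6250000000, nat_lit 9842000000], [], [nat_lit 25140086475, nat_lit 26295779950, nat_lit 24316259575, nat_lit 25339087150, nat_lit 28828082648, nat_lit 27423001631, nat_lit 37277007118, nat_lit 35336789765], nat_lit 1271250, nat_lit 1271250, nat_lit 490000, nat_lit 1100001, nat_lit 0, nat_lit 2316500, [nat_lit 780000, nat_lit 1435000, nat_lit 1271250],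 [nat_lit 8, nat_lit 40, nat_lit 40, nat_lit 80, nat_lit 1, nat_lit 345, nat_lit 125, nat_lit 10]⟩,
 zbF0, [⟨nat_lit 0, nat_lit 100, nat_lit 100, nat_lit 100, nat_lit 17942312⟩, ⟨nat_lit 7, nat_lit 97, nat_lit 100, nat_lit 98, nat_lit 208807715⟩]⟩
noncomputable def p073_l97 : Lf2 := ⟨nat_lit 1, nat_lit 20, [nat_lit 5, nat_lit 5, nat_lit 5, nat_lit 20], false, nat_lit 0, nat_lit 160, nat_lit 0, nat_lit 336, zbN0,
 nat_lit 0, nat_lit 0, nat_lit 0, nat_lit 0, nat_lit 0, nat_lit 0, nat_lit 0, nat_lit 0, nat_lit 0, nat_lit 0, nat_lit 0, nat_lit 0, nat_lit 0, nat_lit 0, nat_lit 0, nat_lit 0, nat_lit 0, nat_lit 0, [],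
 C1.Rw.none, C1.Rw.none,
 zbF0, []⟩
noncomputable def p073_l98 : Lf2 := ⟨nat_lit 0, nat_lit 20, [nat_lit 5, nat_lit 5, nat_lit 5, nat_lit 20], false, nat_lit 0, nat_lit 160, nat_lit 0, nat_lit 160, ⟨nat_lit 1000, nat_lit 0, nat_lit 0, nat_lit 0, nat_lit 0, nat_lit 0, nat_lit 0, nat_lit 0, nat_lit 0, nat_lit 0, nat_lit 0, nat_lit 0, nat_lit 0, nat_lit 0, nat_lit 0, nat_lit 0, false, false⟩,
 nat_lit 0, nat_lit 0, nat_lit 13551, nat_lit 0, nat_lit 6559, nat_lit 8623, nat_lit 1227, nat_lit 0, nat_lit 0, nat_lit 1053, nat_lit 0, nat_lit 0, nat_lit 0, nat_lit 0, nat_lit 0, nat_lit 0, nat_lit 0, nat_lit 0, [],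
 ⟨p073_k36, nat_lit 0, nat_lit 0, nat_lit 200, nat_lit 0, nat_lit 0, [nat_lit 3282000000, nat_lit 6250000000, nat_lit 9842000000], [], [nat_lit 20888180136, nat_lit 22778575242, nat_lit 20671609992, nat_lit 22355650434, nat_lit 16499798784, nat_lit 18091390022, nat_lit 16454128384, nat_lit 17868791954], nat_lit 0, nat_lit 0, nat_lit 0, nat_lit 0, nat_lit 0, nat_lit 0, [], [nat_lit 8, nat_lit 40, nat_lit 40, nat_lit 80, nat_lit 1, nat_lit 317, nat_lit 100, nat_lit 9]⟩, ⟨p073_k35, nat_lit 0, nat_lit 0, nat_lit 493, nat_lit 0, nat_lit 373477, [nat_lit 3282000000, nat_lit 6250000000, nat_lit 11872000000], [], [nat_lit 27854131384, nat_lit 27939929279, nat_lit 25740232775, nat_lit 26764242809, nat_lit 21318271339, nat_lit 22274871251, nat_lit 26629429504, nat_lit 22673438548], nat_lit 1271250, nat_lit 1271250, nat_lit 490000, nat_lit 1100001, nat_lit 0, nat_lit 1100001, [nat_lit 780000, nat_lit 1435000, nat_lit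 1271250], [nat_lit 23, nat_lit 40, nat_lit 40, nat_lit 80, nat_lit 12, nat_lit 401, nat_lit 175, nat_lit 10]⟩,
 zbF0, [⟨nat_lit 0, nat_lit 94, nat_lit 87, nat_lit 100, nat_lit 432434129⟩]⟩
noncomputable def p073_l99 : Lf2 := ⟨nat_lit 0, nat_lit 20, [nat_lit 5, nat_lit 5, nat_lit 5, nat_lit 20], false, nat_lit 0, nat_lit 160, nat_lit 160, nat_lit 336, ⟨nat_lit 826, nat_lit 0, nat_lit 174, nat_lit 7, nat_lit 182, nat_lit 174, nat_lit 64, nat_lit 174, nat_lit 38400, nat_lit 263, nat_lit 8817, nat_lit 238, nat_lit 55490616, nat_lit 0, nat_lit 0, nat_lit 2293500, false, false⟩,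
 nat_lit 0, nat_lit 0, nat_lit 9990, nat_lit 8629, nat_lit 5955, nat_lit 6357, nat_lit 1096, nat_lit 0, nat_lit 0, nat_lit 615, nat_lit 0, nat_lit 0, nat_lit 0, nat_lit 0, nat_lit 0, nat_lit 174000, nat_lit 0, nat_lit 0, [(nat_lit 16, [(nat_lit 6, nat_lit 174)])],
 ⟨p073_k36, nat_lit 0, nat_lit 0, nat_lit 193, nat_lit 0, nat_lit 0, [nat_lit 2882565601, nat_lit 4760490401, nat_lit 6786768800], [], [nat_lit 18560702370, nat_lit 19458914020, nat_lit 18533073090, nat_lit 19458873920, nat_lit 15032805662, nat_lit 15899778156, nat_lit 15702195952, nat_lit 16424853736], nat_lit 0, nat_lit 0, nat_lit 0, nat_lit 0, nat_lit 0, nat_lit 0, [], [nat_lit 8, nat_lit 40, nat_lit 40, nat_lit 80, nat_lit 1, nat_lit 317, nat_lit 100, nat_lit 9]⟩, ⟨p073_k35, nat_lit 0, nat_lit 0, nat_lit 242, nat_lit 0, nat_lit 260980, [nat_lit 2710932000, nat_lit 5162500000, nat_lit 9806272000], [], [nat_lit 24906549860, nat_lit 21595964114,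 nat_lit 19560245585, nat_lit 20427936943, nat_lit 24871925169, nat_lit 25489047820, nat_lit 23859625105, nat_lit 24248965612], nat_lit 1271250, nat_lit 1271250, nat_lit 490000, nat_lit 1100001, nat_lit 1100001, nat_lit 2607000, [nat_lit 780000, nat_lit 1435000, nat_lit 1271250], [nat_lit 23, nat_lit 40, nat_lit 40, nat_lit 80, nat_lit 12, nat_lit 428, nat_lit 200, nat_lit 11]⟩,
 ⟨nat_lit 4743, nat_lit 5000, ⟨.ofNat (nat_lit 371422), .ofNat (nat_lit 514275), .ofNat (nat_lit 392848), .ofNat (nat_lit 535701), .ofNat (nat_lit 376847), .ofNat (nat_lit 516242), .ofNat (nat_lit 398332), .ofNat (nat_lit 537728)⟩, ⟨.ofNat (nat_lit 0), .ofNat (nat_lit 299999), .ofNat (nat_lit 0), .ofNat (nat_lit 342856), .ofNat (nat_lit 0), .ofNat (nat_lit 301370), .ofNat (nat_lit 0), .ofNat (nat_lit 344346)⟩⟩, [⟨nat_lit 0, nat_lit 100, nat_lit 95, nat_lit 95, nat_lit 536191804⟩, ⟨nat_lit 7, nat_lit 94, nat_lit 100, nat_lit 97, nat_lit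 194240353⟩]⟩
noncomputable def p073_l100 : Lf2 := ⟨nat_lit 0, nat_lit 20, [nat_lit 5, nat_lit 5, nat_lit 5, nat_lit 20], false, nat_lit 0, nat_lit 160, nat_lit 160, nat_lit 336, ⟨nat_lit 892, nat_lit 0, nat_lit 108, nat_lit 7, nat_lit 186, nat_lit 108, nat_lit 65, nat_lit 108, nat_lit 40017, nat_lit 264, nat_lit 8167, nat_lit 237, nat_lit 55043640, nat_lit 0, nat_lit 0, nat_lit 2345197, false, false⟩,
 nat_lit 0, nat_lit 0, nat_lit 10813, nat_lit 5225, nat_lit 5986, nat_lit 6881, nat_lit 1127, nat_lit 0, nat_lit 0, nat_lit 670, nat_lit 0, nat_lit 0, nat_lit 0, nat_lit 0, nat_lit 0, nat_lit 43200, nat_lit 0, nat_lit 0, [(nat_lit 16, [(nat_lit 5, nat_lit 108)])],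
 ⟨p073_k45, nat_lit 0, nat_lit 0, nat_lit 196, nat_lit 0, nat_lit 0, [nat_lit 3070363201, nat_lit 5470542400, nat_lit 8465604800], [], [nat_lit 19892362499, nat_lit 20778582204, nat_lit 19849822777, nat_lit 20752285008, nat_lit 16049719920, nat_lit 16797031686, nat_lit 16146708820, nat_lit 16871133274], nat_lit 0, nat_lit 0, nat_lit 0, nat_lit 0, nat_lit 0, nat_lit 0, [], [nat_lit 8, nat_lit 40, nat_lit 40, nat_lit 80, nat_lit 1, nat_lit 317, nat_lit 100, nat_lit 9]⟩, ⟨p073_k35, nat_lit 0, nat_lit 0, nat_lit 339, nat_lit 0, nat_lit 373477, [nat_lit 2927544000, nat_lit 5575000000, nat_lit 10589824000], [], [nat_lit 25470760021, nat_lit 22547175580, nat_lit 21038008402, nat_lit 21976123492, nat_lit 26608681422, nat_lit 27268686155, nat_lit 25750439243, nat_lit 26103765307], nat_lit 1271250, nat_lit 1271250, nat_lit 545600, nat_lit 1100001, nat_lit 1100001, nat_lit 2607000, [nat_lit 780000, nat_lit 1435000, nat_lit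 1271250], [nat_lit 23, nat_lit 40, nat_lit 40, nat_lit 80, nat_lit 12, nat_lit 428, nat_lit 200, nat_lit 11]⟩,
 ⟨nat_lit 4472, nat_lit 4744, ⟨.ofNat (nat_lit 390781), .ofNat (nat_lit 516239), .ofNat (nat_lit 412266), .ofNat (nat_lit 537724), .ofNat (nat_lit 395915), .ofNat (nat_lit 518274), .ofNat (nat_lit 417478), .ofNat (nat_lit 539838)⟩, ⟨.ofNat (nat_lit 0), .ofNat (nat_lit 301370), .ofNat (nat_lit 0), .ofNat (nat_lit 344346), .ofNat (nat_lit 0), .ofNat (nat_lit 302621), .ofNat (nat_lit 0), .ofNat (nat_lit 345754)⟩⟩, [⟨nat_lit 0, nat_lit 100, nat_lit 92, nat_lit 99, nat_lit 611088155⟩, ⟨nat_lit 7, nat_lit 94, nat_lit 100, nat_lit 97, nat_lit 243888701⟩]⟩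
noncomputable def p073_l101 : Lf2 := ⟨nat_lit 0, nat_lit 20, [nat_lit 5, nat_lit 5, nat_lit 5, nat_lit 20], false, nat_lit 0, nat_lit 160, nat_lit 0, nat_lit 336, ⟨nat_lit 1000, nat_lit 0, nat_lit 0, nat_lit 0, nat_lit 0, nat_lit 0, nat_lit 0, nat_lit 0, nat_lit 0, nat_lit 0, nat_lit 0, nat_lit 0, nat_lit 0, nat_lit 0, nat_lit 0, nat_lit 0, false, false⟩,
 nat_lit 0, nat_lit 0, nat_lit 17896, nat_lit 11044, nat_lit 7248, nat_lit 11388, nat_lit 1424, nat_lit 0, nat_lit 0, nat_lit 677, nat_lit 0, nat_lit 0, nat_lit 0, nat_lit 0, nat_lit 0, nat_lit 0, nat_lit 0, nat_lit 0, [],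
 ⟨p073_k35, nat_lit 0, nat_lit 0, nat_lit 202, nat_lit 0, nat_lit 0, [nat_lit 3282000000, nat_lit 6250000000, nat_lit 11872000000], [], [nat_lit 20791087248, nat_lit 22359493216, nat_lit 23524372416, nat_lit 25372839904, nat_lit 15833061408, nat_lit 17669873920, nat_lit 19143664640, nat_lit 20685636064], nat_lit 0, nat_lit 0, nat_lit 0, nat_lit 0, nat_lit 0, nat_lit 0, [], [nat_lit 23, nat_lit 40, nat_lit 40, nat_lit 80, nat_lit 12, nat_lit 401, nat_lit 175, nat_lit 10]⟩, ⟨p073_k35, nat_lit 0, nat_lit 0, nat_lit 331, nat_lit 0, nat_lit 155355, [nat_lit 3282000000, nat_lit 6250000000, nat_lit 11872000000], [], [nat_lit 34842965232, nat_lit 31576682971, nat_lit 31902566139, nat_lit 33628100379, nat_lit 27295486754, nat_lit 28315896839, nat_lit 38246310791, nat_lit 33307070989], nat_lit 1271250, nat_lit 1271250, nat_lit 1100001, nat_lit 1785000, nat_lit 0, nat_lit 2373000, [nat_lit 780000, nat_lit 1435000, nat_lit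 1271250], [nat_lit 23, nat_lit 40, nat_lit 40, nat_lit 80, nat_lit 12, nat_lit 456, nat_lit 225, nat_lit 12]⟩,
 zbF0, [⟨nat_lit 7, nat_lit 94, nat_lit 100, nat_lit 97, nat_lit 145171100⟩]⟩
noncomputable def p073_l102 : Lf2 := ⟨nat_lit 0, nat_lit 20, [nat_lit 5, nat_lit 5, nat_lit 5, nat_lit 20], false, nat_lit 0, nat_lit 160, nat_lit 0, nat_lit 336, ⟨nat_lit 1000, nat_lit 0, nat_lit 0, nat_lit 0, nat_lit 0, nat_lit 0, nat_lit 0, nat_lit 0, nat_lit 0, nat_lit 0, nat_lit 0, nat_lit 0, nat_lit 0, nat_lit 0, nat_lit 0, nat_lit 0, false, false⟩,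
 nat_lit 0, nat_lit 0, nat_lit 12218, nat_lit 0, nat_lit 6616, nat_lit 7775, nat_lit 1144, nat_lit 0, nat_lit 0, nat_lit 371, nat_lit 0, nat_lit 0, nat_lit 0, nat_lit 0, nat_lit 0, nat_lit 0, nat_lit 0, nat_lit 0, [],
 ⟨p073_k36, nat_lit 0, nat_lit 0, nat_lit 173, nat_lit 0, nat_lit 0, [nat_lit 3282000000, nat_lit 6250000000, nat_lit 9842000000], [], [nat_lit 21347405408, nat_lit 23040157616, nat_lit 23899567904, nat_lit 25324520048, nat_lit 17067160416, nat_lit 18488734096, nat_lit 19258931040, nat_lit 20635186696], nat_lit 0, nat_lit 0, nat_lit 0, nat_lit 0, nat_lit 0, nat_lit 0, [], [nat_lit 8, nat_lit 40, nat_lit 40, nat_lit 80, nat_lit 1, nat_lit 317, nat_lit 100, nat_lit 9]⟩, ⟨p073_k35, nat_lit 0, nat_lit 0, nat_lit 403, nat_lit 0, nat_lit 373477, [nat_lit 3282000000, nat_lit 6250000000, nat_lit 11872000000], [], [nat_lit 33157992100, nat_lit 33464065725, nat_lit 33926299825, nat_lit 34990081575, nat_lit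 32153249405, nat_lit 32809162625, nat_lit 40259254720, nat_lit 36887056840], nat_lit 1271250, nat_lit 1271250, nat_lit 1100001, nat_lit 1785000, nat_lit 0, nat_lit 2373000, [nat_lit 780000, nat_lit 1435000, nat_lit 1271250], [nat_lit 23, nat_lit 40, nat_lit 40, nat_lit 80, nat_lit 12, nat_lit 456, nat_lit 225, nat_lit 12]⟩,
 zbF0, [⟨nat_lit 7, nat_lit 94, nat_lit 100, nat_lit 97, nat_lit 185210739⟩]⟩
noncomputable def p073_l103 : Lf2 := ⟨nat_lit 0, nat_lit 17, [nat_lit 172, nat_lit 5, nat_lit 5, nat_lit 20], true, nat_lit 160, nat_lit 240, nat_lit 0, nat_lit 336, ⟨nat_lit 0, nat_lit 1000, nat_lit 0, nat_lit 7, nat_lit 159, nat_lit 1000, nat_lit 157, nat_lit 0, nat_lit 0, nat_lit 0, nat_lit 0, nat_lit 0, nat_lit 48825151, nat_lit 9185929, nat_lit 8988920, nat_lit 4140366, false, false⟩,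
 nat_lit 0, nat_lit 0, nat_lit 0, nat_lit 4650, nat_lit 4575, nat_lit 0, nat_lit 0, nat_lit 0, nat_lit 0, nat_lit 0, nat_lit 0, nat_lit 0, nat_lit 0, nat_lit 0, nat_lit 0, nat_lit 250000, nat_lit 0, nat_lit 0, [(nat_lit 13, [(nat_lit 0, nat_lit 1000)]), (nat_lit 16, [(nat_lit 0, nat_lit 1000)])],
 ⟨p073_k37, nat_lit 0, nat_lit 0, nat_lit 55, nat_lit 0, nat_lit 0, [nat_lit 2378400000, nat_lit 3128000000, nat_lit 3715520000], [], [nat_lit 12040079421, nat_lit 15924053961, nat_lit 12239906400, nat_lit 15679500200, nat_lit 15862945781, nat_lit 19328791860, nat_lit 15830748800, nat_lit 18880117000], nat_lit 0, nat_lit 0, nat_lit 0, nat_lit 0, nat_lit 0, nat_lit 0, [], [nat_lit 23, nat_lit 40, nat_lit 40, nat_lit 80, nat_lit 12, nat_lit 401, nat_lit 175, nat_lit 10]⟩, C1.Rw.none,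
 ⟨nat_lit 4472, nat_lit 5478, ⟨.ofNat (nat_lit 330579), .ofNat (nat_lit 435455), .ofNat (nat_lit 341241), .ofNat (nat_lit 446111), .ofNat (nat_lit 355064), .ofNat (nat_lit 450202), .ofNat (nat_lit 365830), .ofNat (nat_lit 460963)⟩, ⟨.ofNat (nat_lit 296923), .ofNat (nat_lit 446789), .ofNat (nat_lit 339637), .ofNat (nat_lit 489503), .ofNat (nat_lit 302621), .ofNat (nat_lit 438578), .ofNat (nat_lit 345754), .ofNat (nat_lit 481711)⟩⟩, [⟨nat_lit 0, nat_lit 100, nat_lit 96, nat_lit 91, nat_lit 142678756⟩]⟩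
noncomputable def p073_l104 : Lf2 := ⟨nat_lit 0, nat_lit 12, [nat_lit 126, nat_lit 5, nat_lit 5, nat_lit 20], false, nat_lit 240, nat_lit 320, nat_lit 0, nat_lit 320, ⟨nat_lit 1000, nat_lit 0, nat_lit 0, nat_lit 0, nat_lit 0, nat_lit 0, nat_lit 0, nat_lit 0, nat_lit 0, nat_lit 0, nat_lit 0, nat_lit 0, nat_lit 0, nat_lit 0, nat_lit 0, nat_lit 0, false, false⟩,
 nat_lit 0, nat_lit 0, nat_lit 11173, nat_lit 20831, nat_lit 4881, nat_lit 7110, nat_lit 0, nat_lit 0, nat_lit 0, nat_lit 1527, nat_lit 0, nat_lit 0, nat_lit 0, nat_lit 0, nat_lit 0, nat_lit 0, nat_lit 0, nat_lit 0, [],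
 ⟨p073_k39, nat_lit 0, nat_lit 0, nat_lit 66, nat_lit 0, nat_lit 0, [nat_lit 3282000000, nat_lit 4688000000, nat_lit 9842000000], [], [nat_lit 16490162937, nat_lit 18107446563, nat_lit 16400559104, nat_lit 17913873474, nat_lit 22002615938, nat_lit 23427278686, nat_lit 21571046704, nat_lit 22790740534], nat_lit 0, nat_lit 0, nat_lit 0, nat_lit 0, nat_lit 0, nat_lit 0, [], [nat_lit 42, nat_lit 40, nat_lit 40, nat_lit 80, nat_lit 13, nat_lit 345, nat_lit 125, nat_lit 9]⟩, ⟨p073_k39, nat_lit 0, nat_lit 0, nat_lit 222, nat_lit 0, nat_lit 62347, [nat_lit 3282000000, nat_lit 4688000000, nat_lit 9842000000], [], [nat_lit 37575321784, nat_lit 35712636874, nat_lit 27162396880, nat_lit 25338475690, nat_lit 24809545207, nat_lit 25373915632, nat_lit 23549374415, nat_lit 23917745435], nat_lit 1271250, nat_lit 1271250, nat_lit 382400, nat_lit 780000, nat_lit 0, nat_lit 2260000, [nat_lit 780000, nat_lit 1100000, nat_lit 2127500],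 [nat_lit 42, nat_lit 40, nat_lit 40, nat_lit 80, nat_lit 13, nat_lit 345, nat_lit 125, nat_lit 10]⟩,
 zbF0, [⟨nat_lit 0, nat_lit 100, nat_lit 97, nat_lit 94, nat_lit 756891442⟩, ⟨nat_lit 4, nat_lit 97, nat_lit 100, nat_lit 94, nat_lit 613373588⟩]⟩
noncomputable def p073_l105 : Lf2 := ⟨nat_lit 1, nat_lit 12, [nat_lit 126, nat_lit 5, nat_lit 5, nat_lit 20], false, nat_lit 240, nat_lit 336, nat_lit 0, nat_lit 336, zbN0,
 nat_lit 0, nat_lit 0, nat_lit 0, nat_lit 0, nat_lit 0, nat_lit 0, nat_lit 0, nat_lit 0, nat_lit 0, nat_lit 0, nat_lit 0, nat_lit 0, nat_lit 0, nat_lit 0, nat_lit 0, nat_lit 0, nat_lit 0, nat_lit 0, [],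
 C1.Rw.none, C1.Rw.none,
 zbF0, []⟩
noncomputable def p073_l106 : Lf2 := ⟨nat_lit 1, nat_lit 17, [nat_lit 172, nat_lit 5, nat_lit 5, nat_lit 20], false, nat_lit 240, nat_lit 336, nat_lit 0, nat_lit 336, zbN0,
 nat_lit 0, nat_lit 0, nat_lit 0, nat_lit 0, nat_lit 0, nat_lit 0, nat_lit 0, nat_lit 0, nat_lit 0, nat_lit 0, nat_lit 0, nat_lit 0, nat_lit 0, nat_lit 0, nat_lit 0, nat_lit 0, nat_lit 0, nat_lit 0, [],
 C1.Rw.none, C1.Rw.none,
 zbF0, []⟩
noncomputable def p073_l107 : Lf2 := ⟨nat_lit 0, nat_lit 17, [nat_lit 172, nat_lit 5, nat_lit 5, nat_lit 20], true, nat_lit 240, nat_lit 280, nat_lit 0, nat_lit 336, ⟨nat_lit 0, nat_lit 1000, nat_lit 0, nat_lit 7, nat_lit 167, nat_lit 1000, nat_lit 199, nat_lit 0, nat_lit 0, nat_lit 0, nat_lit 0, nat_lit 0, nat_lit 44913613, nat_lit 9524512, nat_lit 12561875, nat_lit 4618544, false, false⟩,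
 nat_lit 0, nat_lit 0, nat_lit 0, nat_lit 4649, nat_lit 4205, nat_lit 0, nat_lit 0, nat_lit 0, nat_lit 0, nat_lit 0, nat_lit 0, nat_lit 0, nat_lit 0, nat_lit 0, nat_lit 0, nat_lit 250000, nat_lit 0, nat_lit 0, [(nat_lit 16, [(nat_lit 0, nat_lit 1000)])],
 ⟨p073_k40, nat_lit 0, nat_lit 0, nat_lit 62, nat_lit 0, nat_lit 0, [nat_lit 2335200000, nat_lit 2745733334, nat_lit 3400666666], [], [nat_lit 17400237300, nat_lit 18870372420, nat_lit 17590376570, nat_lit 18989602420, nat_lit 19785552820, nat_lit 21239379280, nat_lit 19866482220, nat_lit 21134898720], nat_lit 0, nat_lit 0, nat_lit 0, nat_lit 0, nat_lit 0, nat_lit 0, [], [nat_lit 8, nat_lit 40, nat_lit 40, nat_lit 80, nat_lit 1, nat_lit 317, nat_lit 100, nat_lit 8]⟩, C1.Rw.none,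
 ⟨nat_lit 4472, nat_lit 5000, ⟨.ofNat (nat_lit 371392), .ofNat (nat_lit 442816), .ofNat (nat_lit 382100), .ofNat (nat_lit 453524), .ofNat (nat_lit 382295), .ofNat (nat_lit 450269), .ofNat (nat_lit 393072), .ofNat (nat_lit 461045)⟩, ⟨.ofNat (nat_lit 442856), .ofNat (nat_lit 514284), .ofNat (nat_lit 485713), .ofNat (nat_lit 557141), .ofNat (nat_lit 438578), .ofNat (nat_lit 506556), .ofNat (nat_lit 481711), .ofNat (nat_lit 549689)⟩⟩, [⟨nat_lit 0, nat_lit 100, nat_lit 92, nat_lit 94, nat_lit 119540941⟩, ⟨nat_lit 16, nat_lit 93, nat_lit 100, nat_lit 97, nat_lit 15405730⟩]⟩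
noncomputable def p073_l108 : Lf2 := ⟨nat_lit 0, nat_lit 17, [nat_lit 172, nat_lit 5, nat_lit 5, nat_lit 20], false, nat_lit 280, nat_lit 320, nat_lit 0, nat_lit 160, ⟨nat_lit 1000, nat_lit 0, nat_lit 0, nat_lit 0, nat_lit 0, nat_lit 0, nat_lit 0, nat_lit 0, nat_lit 0, nat_lit 0, nat_lit 0, nat_lit 0, nat_lit 0, nat_lit 0, nat_lit 0, nat_lit 0, false, false⟩,
 nat_lit 0, nat_lit 0, nat_lit 16763, nat_lit 8526, nat_lit 4966, nat_lit 10667, nat_lit 0, nat_lit 0, nat_lit 0, nat_lit 1715, nat_lit 0, nat_lit 0, nat_lit 0, nat_lit 0, nat_lit 0, nat_lit 0, nat_lit 0, nat_lit 0, [],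
 ⟨p073_k40, nat_lit 0, nat_lit 0, nat_lit 79, nat_lit 0, nat_lit 0, [nat_lit 3282000000, nat_lit 6250000000, nat_lit 9842000000], [], [nat_lit 20352769064, nat_lit 21801773820, nat_lit 20294344144, nat_lit 21673181744, nat_lit 23039257168, nat_lit 24459521128, nat_lit 22753188724, nat_lit 24063822712], nat_lit 0, nat_lit 0, nat_lit 0, nat_lit 0, nat_lit 0, nat_lit 0, [], [nat_lit 8, nat_lit 40, nat_lit 40, nat_lit 80, nat_lit 1, nat_lit 238, nat_lit 30, nat_lit 6]⟩, ⟨p073_k37, nat_lit 0, nat_lit 0, nat_lit 404, nat_lit 0, nat_lit 288217, [nat_lit 3282000000, nat_lit 6250000000, nat_lit 11872000000], [], [nat_lit 21072469721, nat_lit 22204646731, nat_lit 19522250749, nat_lit 20599738231, nat_lit 14407125820, nat_lit 14117002324, nat_lit 17888137016, nat_lit 15408582199], nat_lit 1271250, nat_lit 1271250, nat_lit 490000, nat_lit 780000, nat_lit 0, nat_lit 1100001, [nat_lit 780000, nat_lit 1435000, nat_lit 1271250],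 [nat_lit 23, nat_lit 40, nat_lit 40, nat_lit 80, nat_lit 12, nat_lit 373, nat_lit 150, nat_lit 10]⟩,
 zbF0, [⟨nat_lit 0, nat_lit 100, nat_lit 92, nat_lit 94, nat_lit 848028319⟩, ⟨nat_lit 4, nat_lit 100, nat_lit 93, nat_lit 97, nat_lit 758280586⟩]⟩
noncomputable def p073_l109 : Lf2 := ⟨nat_lit 0, nat_lit 17, [nat_lit 172, nat_lit 5, nat_lit 5, nat_lit 20], false, nat_lit 280, nat_lit 300, nat_lit 160, nat_lit 320, ⟨nat_lit 1000, nat_lit 0, nat_lit 0, nat_lit 0, nat_lit 0, nat_lit 0, nat_lit 0, nat_lit 0, nat_lit 0, nat_lit 0, nat_lit 0, nat_lit 0, nat_lit 0, nat_lit 0, nat_lit 0, nat_lit 0, false, false⟩,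
 nat_lit 0, nat_lit 0, nat_lit 13244, nat_lit 5764, nat_lit 5047, nat_lit 8428, nat_lit 0, nat_lit 0, nat_lit 0, nat_lit 1201, nat_lit 0, nat_lit 0, nat_lit 0, nat_lit 0, nat_lit 0, nat_lit 0, nat_lit 0, nat_lit 0, [],
 ⟨p073_k40, nat_lit 0, nat_lit 0, nat_lit 71, nat_lit 0, nat_lit 0, [nat_lit 3282000000, nat_lit 6250000000, nat_lit 9842000000], [], [nat_lit 20312366588, nat_lit 21861462352, nat_lit 20239108948, nat_lit 21629699648, nat_lit 21675307474, nat_lit 23201109514, nat_lit 21478256503, nat_lit 22845305143], nat_lit 0, nat_lit 0, nat_lit 0, nat_lit 0, nat_lit 0, nat_lit 0, [], [nat_lit 8, nat_lit 40, nat_lit 40, nat_lit 80, nat_lit 1, nat_lit 238, nat_lit 30, nat_lit 6]⟩, ⟨p073_k37, nat_lit 0, nat_lit 0, nat_lit 241, nat_lit 0, nat_lit 280417, [nat_lit 3282000000, nat_lit 6250000000, nat_lit 11872000000], [], [nat_lit 17535208399, nat_lit 18349192099, nat_lit 16731370975, nat_lit 17502570619, nat_lit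 24282363312, nat_lit 25032453664, nat_lit 23423240928, nat_lit 24133765464], nat_lit 1271250, nat_lit 1271250, nat_lit 490000, nat_lit 780000, nat_lit 1100001, nat_lit 2470000, [nat_lit 780000, nat_lit 1435000, nat_lit 1271250], [nat_lit 23, nat_lit 40, nat_lit 40, nat_lit 80, nat_lit 12, nat_lit 428, nat_lit 200, nat_lit 11]⟩,
 zbF0, [⟨nat_lit 0, nat_lit 100, nat_lit 92, nat_lit 94, nat_lit 713347699⟩, ⟨nat_lit 16, nat_lit 91, nat_lit 100, nat_lit 91, nat_lit 655275919⟩, ⟨nat_lit 19, nat_lit 100, nat_lit 94, nat_lit 92, nat_lit 414567293⟩, ⟨nat_lit 23, nat_lit 100, nat_lit 94, nat_lit 97, nat_lit 51803140⟩]⟩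
noncomputable def p073_l110 : Lf2 := ⟨nat_lit 0, nat_lit 17, [nat_lit 172, nat_lit 5, nat_lit 5, nat_lit 20], false, nat_lit 280, nat_lit 320, nat_lit 160, nat_lit 336, ⟨nat_lit 1000, nat_lit 0, nat_lit 0, nat_lit 0, nat_lit 0, nat_lit 0, nat_lit 0, nat_lit 0, nat_lit 0, nat_lit 0, nat_lit 0, nat_lit 0, nat_lit 0, nat_lit 0, nat_lit 0, nat_lit 0, false, false⟩,
 nat_lit 0, nat_lit 0, nat_lit 12701, nat_lit 5713, nat_lit 5108, nat_lit 8082, nat_lit 0, nat_lit 0, nat_lit 0, nat_lit 1128, nat_lit 0, nat_lit 0, nat_lit 0, nat_lit 0, nat_lit 0, nat_lit 0, nat_lit 0, nat_lit 0, [],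
 ⟨p073_k40, nat_lit 0, nat_lit 0, nat_lit 79, nat_lit 0, nat_lit 0, [nat_lit 3282000000, nat_lit 6250000000, nat_lit 9842000000], [], [nat_lit 20281940032, nat_lit 21906530128, nat_lit 20197512072, nat_lit 21596953872, nat_lit 23160645584, nat_lit 24601934064, nat_lit 22795547016, nat_lit 24171647856], nat_lit 0, nat_lit 0, nat_lit 0, nat_lit 0, nat_lit 0, nat_lit 0, [], [nat_lit 8, nat_lit 40, nat_lit 40, nat_lit 80, nat_lit 1, nat_lit 238, nat_lit 30, nat_lit 6]⟩, ⟨p073_k37, nat_lit 0, nat_lit 0, nat_lit 200, nat_lit 0, nat_lit 136117, [nat_lit 3282000000, nat_lit 6250000000, nat_lit 11872000000], [], [nat_lit 18397526056, nat_lit 19190914106, nat_lit 17660296400, nat_lit 18412336986, nat_lit 26187263500, nat_lit 26680015402, nat_lit 25120021759, nat_lit 25775208980], nat_lit 1271250, nat_lit 1271250, nat_lit 490000, nat_lit 780000, nat_lit 1100001, nat_lit 2607000, [nat_lit 780000, nat_lit 1435000, nat_lit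 1271250], [nat_lit 23, nat_lit 40, nat_lit 40, nat_lit 80, nat_lit 12, nat_lit 428, nat_lit 200, nat_lit 11]⟩,
 zbF0, [⟨nat_lit 0, nat_lit 100, nat_lit 89, nat_lit 100, nat_lit 493243631⟩, ⟨nat_lit 4, nat_lit 97, nat_lit 94, nat_lit 100, nat_lit 358759586⟩, ⟨nat_lit 19, nat_lit 100, nat_lit 87, nat_lit 99, nat_lit 162717293⟩, ⟨nat_lit 23, nat_lit 100, nat_lit 100, nat_lit 100, nat_lit 276423158⟩]⟩
noncomputable def p073_l111 : Lf2 := ⟨nat_lit 1, nat_lit 20, [nat_lit 5, nat_lit 5, nat_lit 5, nat_lit 20], false, nat_lit 160, nat_lit 336, nat_lit 0, nat_lit 336, zbN0,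
 nat_lit 0, nat_lit 0, nat_lit 0, nat_lit 0, nat_lit 0, nat_lit 0, nat_lit 0, nat_lit 0, nat_lit 0, nat_lit 0, nat_lit 0, nat_lit 0, nat_lit 0, nat_lit 0, nat_lit 0, nat_lit 0, nat_lit 0, nat_lit 0, [],
 C1.Rw.none, C1.Rw.none,
 zbF0, []⟩
noncomputable def p073_l112 : Lf2 := ⟨nat_lit 0, nat_lit 20, [nat_lit 5, nat_lit 5, nat_lit 5, nat_lit 20], true, nat_lit 160, nat_lit 240, nat_lit 0, nat_lit 328, ⟨nat_lit 0, nat_lit 1000, nat_lit 0, nat_lit 7, nat_lit 170, nat_lit 1000, nat_lit 157, nat_lit 0, nat_lit 0, nat_lit 0, nat_lit 0, nat_lit 0, nat_lit 47948618, nat_lit 10124058, nat_lit 8927324, nat_lit 4255997, false, false⟩,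
 nat_lit 0, nat_lit 0, nat_lit 0, nat_lit 5151, nat_lit 4451, nat_lit 0, nat_lit 0, nat_lit 0, nat_lit 0, nat_lit 0, nat_lit 0, nat_lit 0, nat_lit 0, nat_lit 0, nat_lit 0, nat_lit 250000, nat_lit 0, nat_lit 0, [(nat_lit 13, [(nat_lit 0, nat_lit 1000)]), (nat_lit 16, [(nat_lit 0, nat_lit 1000)])],
 ⟨p073_k41, nat_lit 0, nat_lit 0, nat_lit 43, nat_lit 0, nat_lit 0, [nat_lit 2378400000, nat_lit 3128000000, nat_lit 3715520000], [], [nat_lit 12911262115, nat_lit 15586216912, nat_lit 13254373578, nat_lit 15794604936, nat_lit 16499916228, nat_lit 18899232524, nat_lit 16686381619, nat_lit 18847496524], nat_lit 0, nat_lit 0, nat_lit 0, nat_lit 0, nat_lit 0, nat_lit 0, [], [nat_lit 23, nat_lit 40, nat_lit 40, nat_lit 80, nat_lit 12, nat_lit 401, nat_lit 175, nat_lit 10]⟩, C1.Rw.none,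
 ⟨nat_lit 4472, nat_lit 5245, ⟨.ofNat (nat_lit 376648), .ofNat (nat_lit 449804), .ofNat (nat_lit 387328), .ofNat (nat_lit 460483), .ofNat (nat_lit 393041), .ofNat (nat_lit 461004), .ofNat (nat_lit 403812), .ofNat (nat_lit 471774)⟩, ⟨.ofNat (nat_lit 298515), .ofNat (nat_lit 444857), .ofNat (nat_lit 341286), .ofNat (nat_lit 487628), .ofNat (nat_lit 302621), .ofNat (nat_lit 438578), .ofNat (nat_lit 345754), .ofNat (nat_lit 481711)⟩⟩, [⟨nat_lit 0, nat_lit 94, nat_lit 87, nat_lit 100, nat_lit 147633150⟩]⟩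
noncomputable def p073_l113 : Lf2 := ⟨nat_lit 0, nat_lit 20, [nat_lit 5, nat_lit 5, nat_lit 5, nat_lit 20], false, nat_lit 240, nat_lit 328, nat_lit 0, nat_lit 160, ⟨nat_lit 1000, nat_lit 0, nat_lit 0, nat_lit 0, nat_lit 0, nat_lit 0, nat_lit 0, nat_lit 0, nat_lit 0, nat_lit 0, nat_lit 0, nat_lit 0, nat_lit 0, nat_lit 0, nat_lit 0, nat_lit 0, false, false⟩,
 nat_lit 0, nat_lit 0, nat_lit 12265, nat_lit 8405, nat_lit 4867, nat_lit 8145, nat_lit 0, nat_lit 0, nat_lit 0, nat_lit 1246, nat_lit 0, nat_lit 0, nat_lit 0, nat_lit 0, nat_lit 0, nat_lit 0, nat_lit 0, nat_lit 0, [],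
 ⟨p073_k41, nat_lit 0, nat_lit 0, nat_lit 84, nat_lit 0, nat_lit 0, [nat_lit 3282000000, nat_lit 6250000000, nat_lit 11872000000], [], [nat_lit 17051009476, nat_lit 19435810108, nat_lit 17171306323, nat_lit 19437733708, nat_lit 22946510872, nat_lit 24999957550, nat_lit 22785591057, nat_lit 24599980896], nat_lit 0, nat_lit 0, nat_lit 0, nat_lit 0, nat_lit 0, nat_lit 0, [], [nat_lit 23, nat_lit 40, nat_lit 40, nat_lit 80, nat_lit 12, nat_lit 428, nat_lit 200, nat_lit 10]⟩, ⟨p073_k41, nat_lit 0, nat_lit 0, nat_lit 486, nat_lit 0, nat_lit 351149, [nat_lit 3282000000, nat_lit 6250000000, nat_lit 11872000000], [], [nat_lit 24863731955, nat_lit 24767762710, nat_lit 22792547115, nat_lit 23691259040, nat_lit 18827982675, nat_lit 19471408550, nat_lit 19123183565, nat_lit 19002733700], nat_lit 1271250, nat_lit 1271250, nat_lit 490000, nat_lit 780000, nat_lit 0, nat_lit 1100001, [nat_lit 780000, nat_lit 1435000, nat_lit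 1271250], [nat_lit 23, nat_lit 40, nat_lit 40, nat_lit 80, nat_lit 12, nat_lit 373, nat_lit 150, nat_lit 10]⟩,
 zbF0, [⟨nat_lit 0, nat_lit 100, nat_lit 97, nat_lit 98, nat_lit 763184954⟩, ⟨nat_lit 4, nat_lit 100, nat_lit 97, nat_lit 98, nat_lit 567311614⟩]⟩
noncomputable def p073_l114 : Lf2 := ⟨nat_lit 0, nat_lit 20, [nat_lit 5, nat_lit 5, nat_lit 5, nat_lit 20], false, nat_lit 240, nat_lit 312, nat_lit 160, nat_lit 312, ⟨nat_lit 1000, nat_lit 0, nat_lit 0, nat_lit 0, nat_lit 0, nat_lit 0, nat_lit 0, nat_lit 0, nat_lit 0, nat_lit 0, nat_lit 0, nat_lit 0, nat_lit 0, nat_lit 0, nat_lit 0, nat_lit 0, false, false⟩,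
 nat_lit 0, nat_lit 0, nat_lit 15131, nat_lit 2831, nat_lit 4979, nat_lit 10048, nat_lit 0, nat_lit 0, nat_lit 0, nat_lit 941, nat_lit 0, nat_lit 0, nat_lit 0, nat_lit 0, nat_lit 0, nat_lit 0, nat_lit 0, nat_lit 0, [],
 ⟨p073_k41, nat_lit 0, nat_lit 0, nat_lit 76, nat_lit 0, nat_lit 0, [nat_lit 3282000000, nat_lit 6250000000, nat_lit 11872000000], [], [nat_lit 16956103812, nat_lit 19371289596, nat_lit 17058586051, nat_lit 19353366796, nat_lit 21752505037, nat_lit 23940291719, nat_lit 21624342274, nat_lit 23565045558], nat_lit 0, nat_lit 0, nat_lit 0, nat_lit 0, nat_lit 0, nat_lit 0, [], [nat_lit 23, nat_lit 40, nat_lit 40, nat_lit 80, nat_lit 12, nat_lit 428, nat_lit 200, nat_lit 10]⟩, ⟨p073_k41, nat_lit 0, nat_lit 0, nat_lit 331, nat_lit 0, nat_lit 341877, [nat_lit 3282000000, nat_lit 6250000000, nat_lit 11872000000], [], [nat_lit 19491635809, nat_lit 20402050009, nat_lit 18326425129, nat_lit 19187329033,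 nat_lit 25918833473, nat_lit 26517611933, nat_lit 24960288511, nat_lit 25039403972], nat_lit 1271250, nat_lit 1271250, nat_lit 490000, nat_lit 780000, nat_lit 1100001, nat_lit 2401500, [nat_lit 780000, nat_lit 1435000, nat_lit 1271250], [nat_lit 23, nat_lit 40, nat_lit 40, nat_lit 80, nat_lit 12, nat_lit 428, nat_lit 200, nat_lit 11]⟩,
 zbF0, [⟨nat_lit 0, nat_lit 100, nat_lit 97, nat_lit 98, nat_lit 746793679⟩, ⟨nat_lit 4, nat_lit 100, nat_lit 94, nat_lit 92, nat_lit 646561303⟩, ⟨nat_lit 7, nat_lit 100, nat_lit 100, nat_lit 95, nat_lit 442139329⟩]⟩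
noncomputable def p073_l115 : Lf2 := ⟨nat_lit 0, nat_lit 20, [nat_lit 5, nat_lit 5, nat_lit 5, nat_lit 20], false, nat_lit 240, nat_lit 328, nat_lit 160, nat_lit 328, ⟨nat_lit 1000, nat_lit 0, nat_lit 0, nat_lit 0, nat_lit 0, nat_lit 0, nat_lit 0, nat_lit 0, nat_lit 0, nat_lit 0, nat_lit 0, nat_lit 0, nat_lit 0, nat_lit 0, nat_lit 0, nat_lit 0, false, false⟩,
 nat_lit 0, nat_lit 0, nat_lit 8643, nat_lit 11702, nat_lit 4867, nat_lit 5739, nat_lit 0, nat_lit 0, nat_lit 0, nat_lit 1105, nat_lit 0, nat_lit 0, nat_lit 0, nat_lit 0, nat_lit 0, nat_lit 0, nat_lit 0, nat_lit 0, [],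
 ⟨p073_k41, nat_lit 0, nat_lit 0, nat_lit 84, nat_lit 0, nat_lit 0, [nat_lit 3282000000, nat_lit 6250000000, nat_lit 11872000000], [], [nat_lit 17051009476, nat_lit 19435810108, nat_lit 17171306323, nat_lit 19437733708, nat_lit 22946510872, nat_lit 24999957550, nat_lit 22785591057, nat_lit 24599980896], nat_lit 0, nat_lit 0, nat_lit 0, nat_lit 0, nat_lit 0, nat_lit 0, [], [nat_lit 23, nat_lit 40, nat_lit 40, nat_lit 80, nat_lit 12, nat_lit 428, nat_lit 200, nat_lit 10]⟩, ⟨p073_k41, nat_lit 0, nat_lit 0, nat_lit 220, nat_lit 0, nat_lit 203338, [nat_lit 3282000000, nat_lit 6250000000, nat_lit 11872000000], [], [nat_lit 19562379812, nat_lit 20216300787, nat_lit 19304227122, nat_lit 19866878719, nat_lit 25769717575, nat_lit 26351561478, nat_lit 25371751714, nat_lit 25935301216], nat_lit 1271250, nat_lit 1271250, nat_lit 490000, nat_lit 780000, nat_lit 1100001, nat_lit 2538500, [nat_lit 780000, nat_lit 1435000,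 nat_lit 1271250], [nat_lit 23, nat_lit 40, nat_lit 40, nat_lit 80, nat_lit 12, nat_lit 428, nat_lit 200, nat_lit 11]⟩,
 zbF0, [⟨nat_lit 0, nat_lit 100, nat_lit 97, nat_lit 98, nat_lit 502047709⟩, ⟨nat_lit 16, nat_lit 95, nat_lit 95, nat_lit 100, nat_lit 387905211⟩, ⟨nat_lit 19, nat_lit 99, nat_lit 92, nat_lit 100, nat_lit 238805322⟩, ⟨nat_lit 11, nat_lit 100, nat_lit 100, nat_lit 100, nat_lit 170776470⟩]⟩
noncomputable def p073_l116 : Lf2 := ⟨nat_lit 0, nat_lit 20, [nat_lit 5, nat_lit 5, nat_lit 5, nat_lit 20], false, nat_lit 160, nat_lit 336, nat_lit 0, nat_lit 160, ⟨nat_lit 1000, nat_lit 0, nat_lit 0, nat_lit 0, nat_lit 0, nat_lit 0, nat_lit 0, nat_lit 0, nat_lit 0, nat_lit 0, nat_lit 0, nat_lit 0, nat_lit 0, nat_lit 0, nat_lit 0, nat_lit 0, false, false⟩,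
 nat_lit 0, nat_lit 0, nat_lit 8787, nat_lit 5585, nat_lit 4785, nat_lit 5591, nat_lit 0, nat_lit 0, nat_lit 0, nat_lit 617, nat_lit 0, nat_lit 0, nat_lit 0, nat_lit 0, nat_lit 0, nat_lit 0, nat_lit 0, nat_lit 0, [],
 ⟨p073_k35, nat_lit 0, nat_lit 0, nat_lit 71, nat_lit 0, nat_lit 0, [nat_lit 3282000000, nat_lit 6250000000, nat_lit 11872000000], [], [nat_lit 12859458720, nat_lit 16388164760, nat_lit 17254806640, nat_lit 20068811600, nat_lit 22838337220, nat_lit 25138365140, nat_lit 25166533116, nat_lit 27044200417], nat_lit 0, nat_lit 0, nat_lit 0, nat_lit 0, nat_lit 0, nat_lit 0, [], [nat_lit 23, nat_lit 40, nat_lit 40, nat_lit 80, nat_lit 12, nat_lit 456, nat_lit 225, nat_lit 11]⟩, ⟨p073_k35, nat_lit 0, nat_lit 0, nat_lit 416, nat_lit 0, nat_lit 373477, [nat_lit 3282000000, nat_lit 6250000000, nat_lit 11872000000], [], [nat_lit 38051801440, nat_lit 35095627282, nat_lit 33857622567, nat_lit 34596505565, nat_lit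 30048642007, nat_lit 30816168565, nat_lit 31394395191, nat_lit 32013869827], nat_lit 1271250, nat_lit 1271250, nat_lit 780000, nat_lit 1762500, nat_lit 0, nat_lit 1100001, [nat_lit 780000, nat_lit 1435000, nat_lit 1271250], [nat_lit 23, nat_lit 40, nat_lit 40, nat_lit 80, nat_lit 12, nat_lit 401, nat_lit 175, nat_lit 10]⟩,
 zbF0, [⟨nat_lit 4, nat_lit 100, nat_lit 100, nat_lit 100, nat_lit 476997069⟩]⟩
noncomputable def p073_l117 : Lf2 := ⟨nat_lit 0, nat_lit 20, [nat_lit 5, nat_lit 5, nat_lit 5, nat_lit 20], false, nat_lit 160, nat_lit 336, nat_lit 160, nat_lit 336, ⟨nat_lit 1000, nat_lit 0, nat_lit 0, nat_lit 0, nat_lit 0, nat_lit 0, nat_lit 0, nat_lit 0, nat_lit 0, nat_lit 0, nat_lit 0, nat_lit 0, nat_lit 0, nat_lit 0, nat_lit 0, nat_lit 0, false, false⟩,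
 nat_lit 0, nat_lit 0, nat_lit 10678, nat_lit 8403, nat_lit 4785, nat_lit 6795, nat_lit 0, nat_lit 0, nat_lit 0, nat_lit 1069, nat_lit 0, nat_lit 0, nat_lit 0, nat_lit 0, nat_lit 0, nat_lit 0, nat_lit 0, nat_lit 0, [],
 ⟨p073_k35, nat_lit 0, nat_lit 0, nat_lit 71, nat_lit 0, nat_lit 0, [nat_lit 3282000000, nat_lit 6250000000, nat_lit 11872000000], [], [nat_lit 12859458720, nat_lit 16388164760, nat_lit 17254806640, nat_lit 20068811600, nat_lit 22838337220, nat_lit 25138365140, nat_lit 25166533116, nat_lit 27044200417], nat_lit 0, nat_lit 0, nat_lit 0, nat_lit 0, nat_lit 0, nat_lit 0, [], [nat_lit 23, nat_lit 40, nat_lit 40, nat_lit 80, nat_lit 12, nat_lit 456, nat_lit 225, nat_lit 11]⟩, ⟨p073_k35, nat_lit 0, nat_lit 0, nat_lit 229, nat_lit 0, nat_lit 282250, [nat_lit 3282000000, nat_lit 6250000000, nat_lit 11872000000], [], [nat_lit 22655582360, nat_lit 20912467805, nat_lit 24177870440, nat_lit 22554925460,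 nat_lit 26006808711, nat_lit 26443834052, nat_lit 27469629344, nat_lit 27942316393], nat_lit 1271250, nat_lit 1271250, nat_lit 780000, nat_lit 1762500, nat_lit 1271250, nat_lit 1271250, [nat_lit 780000, nat_lit 1435000, nat_lit 1271250], [nat_lit 23, nat_lit 40, nat_lit 40, nat_lit 80, nat_lit 12, nat_lit 456, nat_lit 225, nat_lit 11]⟩,
 zbF0, [⟨nat_lit 4, nat_lit 100, nat_lit 100, nat_lit 100, nat_lit 476997069⟩, ⟨nat_lit 7, nat_lit 91, nat_lit 100, nat_lit 96, nat_lit 343171484⟩]⟩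
noncomputable def p073_l118 : Lf2 := ⟨nat_lit 0, nat_lit 20, [nat_lit 5, nat_lit 5, nat_lit 5, nat_lit 20], false, nat_lit 160, nat_lit 328, nat_lit 160, nat_lit 328, ⟨nat_lit 1000, nat_lit 0, nat_lit 0, nat_lit 0, nat_lit 0, nat_lit 0, nat_lit 0, nat_lit 0, nat_lit 0, nat_lit 0, nat_lit 0, nat_lit 0, nat_lit 0, nat_lit 0, nat_lit 0, nat_lit 0, false, false⟩,
 nat_lit 0, nat_lit 0, nat_lit 11247, nat_lit 4597, nat_lit 4838, nat_lit 7469, nat_lit 0, nat_lit 0, nat_lit 0, nat_lit 1037, nat_lit 0, nat_lit 0, nat_lit 0, nat_lit 0, nat_lit 0, nat_lit 0, nat_lit 0, nat_lit 0, [],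
 ⟨p073_k41, nat_lit 0, nat_lit 0, nat_lit 66, nat_lit 0, nat_lit 0, [nat_lit 3282000000, nat_lit 6250000000, nat_lit 11872000000], [], [nat_lit 13675569564, nat_lit 16338966768, nat_lit 17901914184, nat_lit 20024702880, nat_lit 22798198241, nat_lit 24576010833, nat_lit 25118342732, nat_lit 26581538807], nat_lit 0, nat_lit 0, nat_lit 0, nat_lit 0, nat_lit 0, nat_lit 0, [], [nat_lit 23, nat_lit 40, nat_lit 40, nat_lit 80, nat_lit 12, nat_lit 456, nat_lit 225, nat_lit 11]⟩, ⟨p073_k41, nat_lit 0, nat_lit 0, nat_lit 251, nat_lit 0, nat_lit 351149, [nat_lit 3282000000, nat_lit 6250000000, nat_lit 11872000000], [], [nat_lit 20351887851, nat_lit 20643856411, nat_lit 21387997394, nat_lit 21823010669, nat_lit 25280504400, nat_lit 25745112700, nat_lit 34181564492, nat_lit 32494833500], nat_lit 1271250, nat_lit 1271250, nat_lit 780000, nat_lit 1762500, nat_lit 1100001, nat_lit 2538500, [nat_lit 780000, nat_lit 1435000,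 nat_lit 1271250], [nat_lit 23, nat_lit 40, nat_lit 40, nat_lit 80, nat_lit 12, nat_lit 456, nat_lit 225, nat_lit 11]⟩,
 zbF0, [⟨nat_lit 16, nat_lit 97, nat_lit 100, nat_lit 98, nat_lit 483278648⟩, ⟨nat_lit 19, nat_lit 100, nat_lit 97, nat_lit 98, nat_lit 380807102⟩]⟩
noncomputable def b_V_700_700_20_58 : St := ⟨true, nat_lit 0, nat_lit 1, nat_lit 1, nat_lit 120, nat_lit 280, nat_lit 320, nat_lit 280, nat_lit 300, nat_lit 64, nat_lit 240, nat_lit 80, nat_lit 120, nat_lit 0, nat_lit 336, nat_lit 0, nat_lit 336, nat_lit 40, nat_lit 80, nat_lit 0, nat_lit 0, nat_lit 0, nat_lit 0⟩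
theorem d_V_700_700_20_58 (h : EB TB.env) : Dead b_V_700_700_20_58 := chkB_sound0 h (T :=
(.spl (nat_lit 4) (nat_lit 160)
(.spl (nat_lit 2) (nat_lit 160)
(.spl (nat_lit 0) (nat_lit 300)
(.spl (nat_lit 6) (nat_lit 56)
(.spl (nat_lit 1) (nat_lit 290)
(.leaf p073_l95)
(.ord (.trZ (nat_lit 0) (nat_lit 100) (nat_lit 100) (nat_lit 90) (nat_lit 80) (.trX (nat_lit 19) (nat_lit 97) (nat_lit 84) (nat_lit 100) (nat_lit 328) (.leaf p073_l96)))))
(.leaf p073_l97))
(.trZ (nat_lit 0) (nat_lit 100) (nat_lit 94) (nat_lit 88) (nat_lit 80) (.spl (nat_lit 5) (nat_lit 160)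
(.leaf p073_l98)
(.spl (nat_lit 0) (nat_lit 310)
(.leaf p073_l99)
(.trZ (nat_lit 0) (nat_lit 100) (nat_lit 91) (nat_lit 91) (nat_lit 88) (.leaf p073_l100))))))
(.spl (nat_lit 0) (nat_lit 300)
(.leaf p073_l101)
(.leaf p073_l102)))
(.spl (nat_lit 2) (nat_lit 120)
(.spl (nat_lit 1) (nat_lit 290)
(.spl (nat_lit 6) (nat_lit 68)
(.spl (nat_lit 4) (nat_lit 240)
(.leaf p073_l103)
(.spl (nat_lit 0) (nat_lit 300)
(.spl (nat_lit 6) (nat_lit 48)
(.spl (nat_lit 3) (nat_lit 100)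
(.trX (nat_lit 16) (nat_lit 100) (nat_lit 88) (nat_lit 94) (nat_lit 320) (.trX (nat_lit 19) (nat_lit 100) (nat_lit 88) (nat_lit 94) (nat_lit 320) (.leaf p073_l104)))
(.leaf p073_l105))
(.leaf p073_l106))
(.trZ (nat_lit 0) (nat_lit 100) (nat_lit 94) (nat_lit 88) (nat_lit 80) (.trX (nat_lit 16) (nat_lit 94) (nat_lit 88) (nat_lit 100) (nat_lit 320) (.spl (nat_lit 4) (nat_lit 280)
(.leaf p073_l107)
(.spl (nat_lit 5) (nat_lit 160)
(.leaf p073_l108)
(.spl (nat_lit 3) (nat_lit 100)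
(.trX (nat_lit 16) (nat_lit 100) (nat_lit 100) (nat_lit 100) (nat_lit 300) (.trX (nat_lit 19) (nat_lit 100) (nat_lit 88) (nat_lit 94) (nat_lit 320) (.leaf p073_l109)))
(.leaf p073_l110))))))))
(.leaf p073_l111))
(.ord (.trZ (nat_lit 0) (nat_lit 100) (nat_lit 100) (nat_lit 90) (nat_lit 80) (.trX (nat_lit 16) (nat_lit 97) (nat_lit 84) (nat_lit 100) (nat_lit 328) (.trX (nat_lit 19) (nat_lit 97) (nat_lit 84) (nat_lit 100) (nat_lit 328) (.spl (nat_lit 4) (nat_lit 240)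
(.leaf p073_l112)
(.spl (nat_lit 5) (nat_lit 160)
(.leaf p073_l113)
(.spl (nat_lit 3) (nat_lit 100)
(.trX (nat_lit 16) (nat_lit 100) (nat_lit 94) (nat_lit 97) (nat_lit 312) (.trX (nat_lit 19) (nat_lit 100) (nat_lit 94) (nat_lit 97) (nat_lit 312) (.leaf p073_l114)))
(.leaf p073_l115)))))))))
(.spl (nat_lit 5) (nat_lit 160)
(.leaf p073_l116)
(.spl (nat_lit 1) (nat_lit 290)
(.leaf p073_l117)
(.ord (.trX (nat_lit 16) (nat_lit 97) (nat_lit 84) (nat_lit 100) (nat_lit 328) (.trX (nat_lit 19) (nat_lit 97) (nat_lit 84) (nat_lit 100) (nat_lit 328) (.leaf p073_l118))))))))) (by decide +kernel)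
noncomputable def p073_l119 : Lf2 := ⟨nat_lit 0, nat_lit 20, [nat_lit 5, nat_lit 5, nat_lit 5, nat_lit 20], false, nat_lit 0, nat_lit 160, nat_lit 0, nat_lit 320, ⟨nat_lit 1000, nat_lit 0, nat_lit 0, nat_lit 0, nat_lit 0, nat_lit 0, nat_lit 0, nat_lit 0, nat_lit 0, nat_lit 0, nat_lit 0, nat_lit 0, nat_lit 0, nat_lit 0, nat_lit 0, nat_lit 0, false, false⟩,
 nat_lit 0, nat_lit 0, nat_lit 10740, nat_lit 3, nat_lit 6767, nat_lit 7435, nat_lit 1330, nat_lit 0, nat_lit 0, nat_lit 490, nat_lit 0, nat_lit 0, nat_lit 0, nat_lit 0, nat_lit 0, nat_lit 0, nat_lit 0, nat_lit 0, [],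
 ⟨p073_k36, nat_lit 0, nat_lit 0, nat_lit 185, nat_lit 0, nat_lit 0, [nat_lit 3282000000, nat_lit 6250000000, nat_lit 9842000000], [], [nat_lit 19886210840, nat_lit 20825959225, nat_lit 23271674694, nat_lit 24408317427, nat_lit 15349074793, nat_lit 16138779506, nat_lit 18660386956, nat_lit 19400940279], nat_lit 0, nat_lit 0, nat_lit 0, nat_lit 0, nat_lit 0, nat_lit 0, [], [nat_lit 8, nat_lit 40, nat_lit 40, nat_lit 80, nat_lit 1, nat_lit 317, nat_lit 100, nat_lit 9]⟩, ⟨p073_k36, nat_lit 0, nat_lit 0, nat_lit 351, nat_lit 0, nat_lit 318876, [nat_lit 3282000000, nat_lit 6250000000, nat_lit 9842000000], [], [nat_lit 39959714650, nat_lit 37978889385, nat_lit 29702243420, nat_lit 30292177425, nat_lit 28562908320, nat_lit 28991557135, nat_lit 34958611790, nat_lit 33317908035], nat_lit 1271250, nat_lit 1271250, nat_lit 631250, nat_lit 1751250, nat_lit 0, nat_lit 2260000, [nat_lit 780000, nat_lit 1435000, nat_lit 1271250],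 [nat_lit 8, nat_lit 40, nat_lit 40, nat_lit 80, nat_lit 1, nat_lit 373, nat_lit 150, nat_lit 11]⟩,
 zbF0, [⟨nat_lit 0, nat_lit 91, nat_lit 91, nat_lit 100, nat_lit 193786324⟩, ⟨nat_lit 7, nat_lit 100, nat_lit 97, nat_lit 98, nat_lit 9070668⟩]⟩
noncomputable def p073_l120 : Lf2 := ⟨nat_lit 0, nat_lit 20, [nat_lit 5, nat_lit 5, nat_lit 5, nat_lit 20], false, nat_lit 0, nat_lit 160, nat_lit 0, nat_lit 320, ⟨nat_lit 1000, nat_lit 0, nat_lit 0, nat_lit 0, nat_lit 0, nat_lit 0, nat_lit 0, nat_lit 0, nat_lit 0, nat_lit 0, nat_lit 0, nat_lit 0, nat_lit 0, nat_lit 0, nat_lit 0, nat_lit 0, false, false⟩,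
 nat_lit 0, nat_lit 0, nat_lit 10053, nat_lit 0, nat_lit 6339, nat_lit 6959, nat_lit 1299, nat_lit 0, nat_lit 0, nat_lit 830, nat_lit 0, nat_lit 0, nat_lit 0, nat_lit 0, nat_lit 0, nat_lit 0, nat_lit 0, nat_lit 0, [],
 ⟨p073_k45, nat_lit 0, nat_lit 0, nat_lit 187, nat_lit 0, nat_lit 0, [nat_lit 3282000000, nat_lit 6250000000, nat_lit 9842000000], [], [nat_lit 19690513503, nat_lit 20961397739, nat_lit 23823249559, nat_lit 24913026720, nat_lit 15526026671, nat_lit 16278295639, nat_lit 18820832416, nat_lit 19742736620], nat_lit 0, nat_lit 0, nat_lit 0, nat_lit 0, nat_lit 0, nat_lit 0, [], [nat_lit 8, nat_lit 40, nat_lit 40, nat_lit 80, nat_lit 1, nat_lit 317, nat_lit 100, nat_lit 9]⟩, ⟨p073_k36, nat_lit 0, nat_lit 0, nat_lit 457, nat_lit 0, nat_lit 503741, [nat_lit 3282000000, nat_lit 6250000000, nat_lit 9842000000], [], [nat_lit 37102144854, nat_lit 33405537972, nat_lit 27468139678, nat_lit 28347838672, nat_lit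 26161681957, nat_lit 26795164673, nat_lit 34215331406, nat_lit 31144004592], nat_lit 1271250, nat_lit 1271250, nat_lit 689850, nat_lit 1755750, nat_lit 0, nat_lit 2260000, [nat_lit 780000, nat_lit 1435000, nat_lit 1271250], [nat_lit 8, nat_lit 40, nat_lit 40, nat_lit 80, nat_lit 1, nat_lit 373, nat_lit 150, nat_lit 11]⟩,
 zbF0, [⟨nat_lit 0, nat_lit 90, nat_lit 88, nat_lit 100, nat_lit 132738159⟩, ⟨nat_lit 7, nat_lit 100, nat_lit 93, nat_lit 97, nat_lit 41232432⟩]⟩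
noncomputable def p073_l121 : Lf2 := ⟨nat_lit 0, nat_lit 20, [nat_lit 5, nat_lit 5, nat_lit 5, nat_lit 20], false, nat_lit 160, nat_lit 320, nat_lit 0, nat_lit 160, ⟨nat_lit 1000, nat_lit 0, nat_lit 0, nat_lit 0, nat_lit 0, nat_lit 0, nat_lit 0, nat_lit 0, nat_lit 0, nat_lit 0, nat_lit 0, nat_lit 0, nat_lit 0, nat_lit 0, nat_lit 0, nat_lit 0, false, false⟩,
 nat_lit 0, nat_lit 0, nat_lit 11015, nat_lit 0, nat_lit 4822, nat_lit 7625, nat_lit 0, nat_lit 0, nat_lit 0, nat_lit 1231, nat_lit 0, nat_lit 0, nat_lit 0, nat_lit 0, nat_lit 0, nat_lit 0, nat_lit 0, nat_lit 0, [],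
 ⟨p073_k36, nat_lit 0, nat_lit 0, nat_lit 70, nat_lit 0, nat_lit 0, [nat_lit 3282000000, nat_lit 6250000000, nat_lit 9842000000], [], [nat_lit 14459197958, nat_lit 16279077928, nat_lit 18625298704, nat_lit 20038018720, nat_lit 22892995982, nat_lit 24134999860, nat_lit 25130279860, nat_lit 26111871592], nat_lit 0, nat_lit 0, nat_lit 0, nat_lit 0, nat_lit 0, nat_lit 0, [], [nat_lit 8, nat_lit 40, nat_lit 40, nat_lit 80, nat_lit 1, nat_lit 373, nat_lit 150, nat_lit 10]⟩, ⟨p073_k36, nat_lit 0, nat_lit 0, nat_lit 460, nat_lit 0, nat_lit 503741, [nat_lit 3282000000, nat_lit 6250000000, nat_lit 9842000000], [], [nat_lit 23458111750, nat_lit 23067024000, nat_lit 24350594250, nat_lit 26811780000, nat_lit 17174459000, nat_lit 18379873625, nat_lit 29116771375, nat_lit 25751508125], nat_lit 1271250, nat_lit 1271250, nat_lit 631250, nat_lit 1751250, nat_lit 0, nat_lit 1100001, [nat_lit 780000, nat_lit 1435000, nat_lit 1271250],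 [nat_lit 8, nat_lit 40, nat_lit 40, nat_lit 80, nat_lit 1, nat_lit 317, nat_lit 100, nat_lit 9]⟩,
 zbF0, [⟨nat_lit 0, nat_lit 83, nat_lit 83, nat_lit 100, nat_lit 95559901⟩, ⟨nat_lit 16, nat_lit 93, nat_lit 100, nat_lit 97, nat_lit 521008023⟩]⟩
noncomputable def p073_l122 : Lf2 := ⟨nat_lit 0, nat_lit 20, [nat_lit 5, nat_lit 5, nat_lit 5, nat_lit 20], false, nat_lit 160, nat_lit 320, nat_lit 160, nat_lit 320, ⟨nat_lit 1000, nat_lit 0, nat_lit 0, nat_lit 0, nat_lit 0, nat_lit 0, nat_lit 0, nat_lit 0, nat_lit 0, nat_lit 0, nat_lit 0, nat_lit 0, nat_lit 0, nat_lit 0, nat_lit 0, nat_lit 0, false, false⟩,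
 nat_lit 0, nat_lit 0, nat_lit 9485, nat_lit 8072, nat_lit 4879, nat_lit 6566, nat_lit 0, nat_lit 0, nat_lit 0, nat_lit 1042, nat_lit 0, nat_lit 0, nat_lit 0, nat_lit 0, nat_lit 0, nat_lit 0, nat_lit 0, nat_lit 0, [],
 ⟨p073_k36, nat_lit 0, nat_lit 0, nat_lit 66, nat_lit 0, nat_lit 0, [nat_lit 3282000000, nat_lit 6250000000, nat_lit 9842000000], [], [nat_lit 14398292831, nat_lit 15314492414, nat_lit 18569052928, nat_lit 19279816984, nat_lit 22873546499, nat_lit 23498135135, nat_lit 25098680770, nat_lit 25591910707], nat_lit 0, nat_lit 0, nat_lit 0, nat_lit 0, nat_lit 0, nat_lit 0, [], [nat_lit 8, nat_lit 40, nat_lit 40, nat_lit 80, nat_lit 1, nat_lit 373, nat_lit 150, nat_lit 10]⟩, ⟨p073_k36, nat_lit 0, nat_lit 0, nat_lit 221, nat_lit 0, nat_lit 318876, [nat_lit 3282000000, nat_lit 6250000000, nat_lit 9842000000], [], [nat_lit 22812646088, nat_lit 21115604294, nat_lit 20117059040, nat_lit 20715241038, nat_lit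 24337577540, nat_lit 24862581635, nat_lit 31062169280, nat_lit 29594668280], nat_lit 1271250, nat_lit 1271250, nat_lit 631250, nat_lit 1751250, nat_lit 1100001, nat_lit 2470000, [nat_lit 780000, nat_lit 1435000, nat_lit 1271250], [nat_lit 8, nat_lit 40, nat_lit 40, nat_lit 80, nat_lit 1, nat_lit 373, nat_lit 150, nat_lit 10]⟩,
 zbF0, [⟨nat_lit 0, nat_lit 91, nat_lit 91, nat_lit 100, nat_lit 196052403⟩, ⟨nat_lit 16, nat_lit 97, nat_lit 100, nat_lit 98, nat_lit 487187613⟩, ⟨nat_lit 7, nat_lit 100, nat_lit 97, nat_lit 98, nat_lit 289079280⟩]⟩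
noncomputable def p073_l123 : Lf2 := ⟨nat_lit 0, nat_lit 20, [nat_lit 5, nat_lit 5, nat_lit 5, nat_lit 20], false, nat_lit 160, nat_lit 312, nat_lit 160, nat_lit 320, ⟨nat_lit 1000, nat_lit 0, nat_lit 0, nat_lit 0, nat_lit 0, nat_lit 0, nat_lit 0, nat_lit 0, nat_lit 0, nat_lit 0, nat_lit 0, nat_lit 0, nat_lit 0, nat_lit 0, nat_lit 0, nat_lit 0, false, false⟩,
 nat_lit 0, nat_lit 0, nat_lit 9914, nat_lit 879, nat_lit 4891, nat_lit 6863, nat_lit 0, nat_lit 0, nat_lit 0, nat_lit 963, nat_lit 0, nat_lit 0, nat_lit 0, nat_lit 0, nat_lit 0, nat_lit 0, nat_lit 0, nat_lit 0, [],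
 ⟨p073_k45, nat_lit 0, nat_lit 0, nat_lit 64, nat_lit 0, nat_lit 0, [nat_lit 3282000000, nat_lit 6250000000, nat_lit 9842000000], [], [nat_lit 15340331715, nat_lit 16248210801, nat_lit 19268902936, nat_lit 19980594160, nat_lit 22975126445, nat_lit 23609513713, nat_lit 25205766763, nat_lit 25710871780], nat_lit 0, nat_lit 0, nat_lit 0, nat_lit 0, nat_lit 0, nat_lit 0, [], [nat_lit 8, nat_lit 40, nat_lit 40, nat_lit 80, nat_lit 1, nat_lit 373, nat_lit 150, nat_lit 10]⟩, ⟨p073_k36, nat_lit 0, nat_lit 0, nat_lit 325, nat_lit 0, nat_lit 503741, [nat_lit 3282000000, nat_lit 6250000000, nat_lit 9842000000], [], [nat_lit 21223917191, nat_lit 20828156034, nat_lit 21252462857, nat_lit 22197982163, nat_lit 24707418359, nat_lit 25762524580, nat_lit 30930243969, nat_lit 27822622665], nat_lit 1271250, nat_lit 1271250, nat_lit 689850, nat_lit 1755750, nat_lit 1100001, nat_lit 2470000, [nat_lit 780000, nat_lit 1435000, nat_lit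 1271250], [nat_lit 8, nat_lit 40, nat_lit 40, nat_lit 80, nat_lit 1, nat_lit 373, nat_lit 150, nat_lit 10]⟩,
 zbF0, [⟨nat_lit 0, nat_lit 90, nat_lit 88, nat_lit 100, nat_lit 241410129⟩, ⟨nat_lit 16, nat_lit 91, nat_lit 91, nat_lit 100, nat_lit 459175209⟩, ⟨nat_lit 19, nat_lit 94, nat_lit 88, nat_lit 100, nat_lit 354619836⟩]⟩
noncomputable def b_V_700_700_20_59 : St := ⟨true, nat_lit 0, nat_lit 1, nat_lit 1, nat_lit 120, nat_lit 280, nat_lit 320, nat_lit 300, nat_lit 320, nat_lit 64, nat_lit 240, nat_lit 80, nat_lit 120, nat_lit 0, nat_lit 336, nat_lit 0, nat_lit 336, nat_lit 40, nat_lit 80, nat_lit 0, nat_lit 0, nat_lit 0, nat_lit 0⟩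
theorem d_V_700_700_20_59 (h : EB TB.env) : Dead b_V_700_700_20_59 := chkB_sound0 h (T :=
(.ord (.trZ (nat_lit 0) (nat_lit 100) (nat_lit 100) (nat_lit 100) (nat_lit 100) (.trX (nat_lit 16) (nat_lit 94) (nat_lit 88) (nat_lit 100) (nat_lit 320) (.trX (nat_lit 19) (nat_lit 94) (nat_lit 88) (nat_lit 100) (nat_lit 320) (.spl (nat_lit 4) (nat_lit 160)
(.spl (nat_lit 0) (nat_lit 310)
(.ord (.leaf p073_l119))
(.trZ (nat_lit 0) (nat_lit 97) (nat_lit 93) (nat_lit 100) (nat_lit 108) (.leaf p073_l120)))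
(.spl (nat_lit 5) (nat_lit 160)
(.leaf p073_l121)
(.spl (nat_lit 0) (nat_lit 310)
(.ord (.leaf p073_l122))
(.trZ (nat_lit 0) (nat_lit 97) (nat_lit 93) (nat_lit 100) (nat_lit 108) (.trX (nat_lit 16) (nat_lit 91) (nat_lit 91) (nat_lit 100) (nat_lit 312) (.leaf p073_l123))))))))))) (by decide +kernel)
noncomputable def p073_l124 : Lf2 := ⟨nat_lit 0, nat_lit 20, [nat_lit 5, nat_lit 5, nat_lit 5, nat_lit 20], false, nat_lit 0, nat_lit 160, nat_lit 0, nat_lit 336, ⟨nat_lit 1000, nat_lit 0, nat_lit 0, nat_lit 0, nat_lit 0, nat_lit 0, nat_lit 0, nat_lit 0, nat_lit 0, nat_lit 0, nat_lit 0, nat_lit 0, nat_lit 0, nat_lit 0, nat_lit 0, nat_lit 0, false, false⟩,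
 nat_lit 0, nat_lit 0, nat_lit 10767, nat_lit 11896, nat_lit 6484, nat_lit 6851, nat_lit 1028, nat_lit 0, nat_lit 0, nat_lit 855, nat_lit 0, nat_lit 0, nat_lit 0, nat_lit 0, nat_lit 0, nat_lit 0, nat_lit 0, nat_lit 0, [],
 ⟨p073_k35, nat_lit 0, nat_lit 0, nat_lit 240, nat_lit 0, nat_lit 0, [nat_lit 3282000000, nat_lit 6250000000, nat_lit 11872000000], [], [nat_lit 28677646252, nat_lit 29654246772, nat_lit 37406402976, nat_lit 38200975176, nat_lit 24601995884, nat_lit 25422821684, nat_lit 32641829952, nat_lit 33316317520], nat_lit 0, nat_lit 0, nat_lit 0, nat_lit 0, nat_lit 0, nat_lit 0, [], [nat_lit 23, nat_lit 40, nat_lit 40, nat_lit 80, nat_lit 12, nat_lit 456, nat_lit 225, nat_lit 11]⟩, ⟨p073_k35, nat_lit 0, nat_lit 0, nat_lit 336, nat_lit 0, nat_lit 155355, [nat_lit 3282000000, nat_lit 6250000000, nat_lit 11872000000], [], [nat_lit 30037656253, nat_lit 31039040283, nat_lit 38075562025, nat_lit 39193351286,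 nat_lit 29546628838, nat_lit 30079673067, nat_lit 35247688496, nat_lit 35931323013], nat_lit 1271250, nat_lit 1271250, nat_lit 1271250, nat_lit 1271250, nat_lit 0, nat_lit 2373000, [nat_lit 780000, nat_lit 1435000, nat_lit 1271250], [nat_lit 23, nat_lit 40, nat_lit 40, nat_lit 80, nat_lit 12, nat_lit 538, nat_lit 300, nat_lit 13]⟩,
 zbF0, [⟨nat_lit 7, nat_lit 94, nat_lit 100, nat_lit 97, nat_lit 145196993⟩]⟩
noncomputable def p073_l125 : Lf2 := ⟨nat_lit 0, nat_lit 20, [nat_lit 5, nat_lit 5, nat_lit 5, nat_lit 20], false, nat_lit 0, nat_lit 160, nat_lit 0, nat_lit 336, ⟨nat_lit 1000, nat_lit 0, nat_lit 0, nat_lit 0, nat_lit 0, nat_lit 0, nat_lit 0, nat_lit 0, nat_lit 0, nat_lit 0, nat_lit 0, nat_lit 0, nat_lit 0, nat_lit 0, nat_lit 0, nat_lit 0, false, false⟩,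
 nat_lit 0, nat_lit 0, nat_lit 10497, nat_lit 0, nat_lit 6137, nat_lit 6679, nat_lit 939, nat_lit 0, nat_lit 0, nat_lit 766, nat_lit 0, nat_lit 0, nat_lit 0, nat_lit 0, nat_lit 0, nat_lit 0, nat_lit 0, nat_lit 0, [],
 ⟨p073_k36, nat_lit 0, nat_lit 0, nat_lit 219, nat_lit 0, nat_lit 0, [nat_lit 3282000000, nat_lit 6250000000, nat_lit 9842000000], [], [nat_lit 26424693109, nat_lit 27496507811, nat_lit 37260420482, nat_lit 38443756572, nat_lit 22980694299, nat_lit 23781693767, nat_lit 30565770592, nat_lit 31610377928], nat_lit 0, nat_lit 0, nat_lit 0, nat_lit 0, nat_lit 0, nat_lit 0, [], [nat_lit 8, nat_lit 40, nat_lit 40, nat_lit 80, nat_lit 1, nat_lit 373, nat_lit 150, nat_lit 10]⟩, ⟨p073_k35, nat_lit 0, nat_lit 0, nat_lit 508, nat_lit 0, nat_lit 568620, [nat_lit 3282000000, nat_lit 6250000000, nat_lit 11872000000], [], [nat_lit 33363857682, nat_lit 34900585470, nat_lit 39285149438, nat_lit 40181536854, nat_lit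 32332368651, nat_lit 33132669288, nat_lit 36373390363, nat_lit 37009011835], nat_lit 1271250, nat_lit 1271250, nat_lit 1271250, nat_lit 1271250, nat_lit 0, nat_lit 2373000, [nat_lit 780000, nat_lit 1435000, nat_lit 1271250], [nat_lit 23, nat_lit 40, nat_lit 40, nat_lit 80, nat_lit 12, nat_lit 538, nat_lit 300, nat_lit 13]⟩,
 zbF0, [⟨nat_lit 19, nat_lit 100, nat_lit 100, nat_lit 100, nat_lit 135800148⟩, ⟨nat_lit 22, nat_lit 83, nat_lit 100, nat_lit 83, nat_lit 9219917⟩]⟩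
noncomputable def p073_l126 : Lf2 := ⟨nat_lit 0, nat_lit 20, [nat_lit 5, nat_lit 5, nat_lit 5, nat_lit 20], false, nat_lit 160, nat_lit 336, nat_lit 0, nat_lit 336, ⟨nat_lit 1000, nat_lit 0, nat_lit 0, nat_lit 0, nat_lit 0, nat_lit 0, nat_lit 0, nat_lit 0, nat_lit 0, nat_lit 0, nat_lit 0, nat_lit 0, nat_lit 0, nat_lit 0, nat_lit 0, nat_lit 0, false, false⟩,
 nat_lit 0, nat_lit 0, nat_lit 10876, nat_lit 0, nat_lit 6882, nat_lit 6920, nat_lit 0, nat_lit 0, nat_lit 0, nat_lit 781, nat_lit 0, nat_lit 0, nat_lit 0, nat_lit 0, nat_lit 0, nat_lit 0, nat_lit 0, nat_lit 0, [],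
 ⟨p073_k35, nat_lit 0, nat_lit 0, nat_lit 90, nat_lit 0, nat_lit 0, [nat_lit 3282000000, nat_lit 6250000000, nat_lit 11872000000], [], [nat_lit 19574929760, nat_lit 22566246792, nat_lit 30795560448, nat_lit 32550953456, nat_lit 27406342343, nat_lit 29307730426, nat_lit 35284441327, nat_lit 36653356933], nat_lit 0, nat_lit 0, nat_lit 0, nat_lit 0, nat_lit 0, nat_lit 0, [], [nat_lit 23, nat_lit 40, nat_lit 40, nat_lit 80, nat_lit 12, nat_lit 538, nat_lit 300, nat_lit 13]⟩, ⟨p073_k35, nat_lit 0, nat_lit 0, nat_lit 402, nat_lit 0, nat_lit 373477, [nat_lit 3282000000, nat_lit 6250000000, nat_lit 11872000000], [], [nat_lit 32756557235, nat_lit 33535184355, nat_lit 38862989875, nat_lit 39592185395, nat_lit 31470265459, nat_lit 31872224672, nat_lit 35702794753, nat_lit 36018191632], nat_lit 1271250, nat_lit 1271250, nat_lit 1271250, nat_lit 1271250, nat_lit 0, nat_lit 2373000, [nat_lit 780000, nat_lit 1435000, nat_lit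 1271250], [nat_lit 23, nat_lit 40, nat_lit 40, nat_lit 80, nat_lit 12, nat_lit 538, nat_lit 300, nat_lit 13]⟩,
 zbF0, [⟨nat_lit 4, nat_lit 100, nat_lit 100, nat_lit 100, nat_lit 406250224⟩, ⟨nat_lit 19, nat_lit 100, nat_lit 94, nat_lit 97, nat_lit 140342398⟩]⟩
noncomputable def p073_l127 : Lf2 := ⟨nat_lit 0, nat_lit 20, [nat_lit 5, nat_lit 5, nat_lit 5, nat_lit 20], false, nat_lit 160, nat_lit 320, nat_lit 0, nat_lit 320, ⟨nat_lit 1000, nat_lit 0, nat_lit 0, nat_lit 0, nat_lit 0, nat_lit 0, nat_lit 0, nat_lit 0, nat_lit 0, nat_lit 0, nat_lit 0, nat_lit 0, nat_lit 0, nat_lit 0, nat_lit 0, nat_lit 0, false, false⟩,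
 nat_lit 0, nat_lit 0, nat_lit 8414, nat_lit 991, nat_lit 5584, nat_lit 5824, nat_lit 0, nat_lit 0, nat_lit 0, nat_lit 1149, nat_lit 0, nat_lit 0, nat_lit 0, nat_lit 2554634894442, nat_lit 0, nat_lit 0, nat_lit 0, nat_lit 0, [],
 ⟨p073_k46, nat_lit 0, nat_lit 0, nat_lit 78, nat_lit 0, nat_lit 0, [nat_lit 3282000000, nat_lit 4688000000, nat_lit 9842000000], [], [nat_lit 20454369712, nat_lit 21732494752, nat_lit 30027239760, nat_lit 30913186496, nat_lit 26221373680, nat_lit 27206330592, nat_lit 33663167104, nat_lit 34349936608], nat_lit 0, nat_lit 0, nat_lit 0, nat_lit 0, nat_lit 0, nat_lit 0, [], [nat_lit 42, nat_lit 40, nat_lit 40, nat_lit 80, nat_lit 13, nat_lit 428, nat_lit 200, nat_lit 11]⟩, ⟨p073_k46, nat_lit 0, nat_lit 0, nat_lit 430, nat_lit 0, nat_lit 503741, [nat_lit 3282000000, nat_lit 4688000000, nat_lit 9842000000], [], [nat_lit 28718143498, nat_lit 29466619338, nat_lit 36413071264, nat_lit 37568058944,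 nat_lit 27812251877, nat_lit 28311339338, nat_lit 33941124544, nat_lit 34635515488], nat_lit 1271250, nat_lit 1271250, nat_lit 1271250, nat_lit 1271250, nat_lit 0, nat_lit 2260000, [nat_lit 780000, nat_lit 1100000, nat_lit 2127500], [nat_lit 42, nat_lit 40, nat_lit 40, nat_lit 80, nat_lit 13, nat_lit 428, nat_lit 200, nat_lit 12]⟩,
 zbF0, [⟨nat_lit 4, nat_lit 100, nat_lit 93, nat_lit 97, nat_lit 367917566⟩, ⟨nat_lit 7, nat_lit 100, nat_lit 93, nat_lit 97, nat_lit 154810011⟩]⟩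
noncomputable def b_V_700_700_20_60 : St := ⟨true, nat_lit 0, nat_lit 1, nat_lit 1, nat_lit 120, nat_lit 280, nat_lit 320, nat_lit 280, nat_lit 320, nat_lit 240, nat_lit 400, nat_lit 80, nat_lit 120, nat_lit 0, nat_lit 336, nat_lit 0, nat_lit 336, nat_lit 40, nat_lit 80, nat_lit 0, nat_lit 0, nat_lit 0, nat_lit 0⟩
theorem d_V_700_700_20_60 (h : EB TB.env) : Dead b_V_700_700_20_60 := chkB_sound0 h (T :=
(.spl (nat_lit 4) (nat_lit 160)
(.spl (nat_lit 0) (nat_lit 300)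
(.ord (.leaf p073_l124))
(.leaf p073_l125))
(.spl (nat_lit 1) (nat_lit 300)
(.leaf p073_l126)
(.ord (.trX (nat_lit 16) (nat_lit 94) (nat_lit 88) (nat_lit 100) (nat_lit 320) (.trX (nat_lit 19) (nat_lit 94) (nat_lit 88) (nat_lit 100) (nat_lit 320) (.leaf p073_l127))))))) (by decide +kernel)
noncomputable def p073_l128 : Lf2 := ⟨nat_lit 0, nat_lit 20, [nat_lit 5, nat_lit 5, nat_lit 5, nat_lit 20], true, nat_lit 0, nat_lit 336, nat_lit 0, nat_lit 336, ⟨nat_lit 0, nat_lit 1000, nat_lit 0, nat_lit 7, nat_lit 203, nat_lit 1000, nat_lit 128, nat_lit 0, nat_lit 0, nat_lit 0, nat_lit 0, nat_lit 0, nat_lit 0, nat_lit 0, nat_lit 0, nat_lit 5000000, false, false⟩,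
 nat_lit 0, nat_lit 0, nat_lit 0, nat_lit 10437, nat_lit 5264, nat_lit 0, nat_lit 403, nat_lit 0, nat_lit 0, nat_lit 0, nat_lit 0, nat_lit 0, nat_lit 0, nat_lit 0, nat_lit 0, nat_lit 250000, nat_lit 0, nat_lit 0, [(nat_lit 13, [(nat_lit 0, nat_lit 1000)])],
 ⟨p073_k35, nat_lit 0, nat_lit 0, nat_lit 322, nat_lit 0, nat_lit 0, [nat_lit 2378400000, nat_lit 3128000000, nat_lit 3715520000], [], [nat_lit 22180193389, nat_lit 23663380292, nat_lit 23940680717, nat_lit 25063123437, nat_lit 25684863466, nat_lit 26519373298, nat_lit 25677584077, nat_lit 26313847322], nat_lit 0, nat_lit 0, nat_lit 0, nat_lit 0, nat_lit 0, nat_lit 0, [], [nat_lit 23, nat_lit 40, nat_lit 40, nat_lit 80, nat_lit 12, nat_lit 456, nat_lit 225, nat_lit 12]⟩, C1.Rw.none,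
 ⟨nat_lit 5000, nat_lit 5478, ⟨.ofNat (nat_lit 330654), .ofNat (nat_lit 660309), .ofNat (nat_lit 352005), .ofNat (nat_lit 681655), .ofNat (nat_lit 342856), .ofNat (nat_lit 657090), .ofNat (nat_lit 364277), .ofNat (nat_lit 678509)⟩, ⟨.negSucc (nat_lit 2832), .ofNat (nat_lit 626629), .ofNat (nat_lit 0), .ofNat (nat_lit 669336), .ofNat (nat_lit 0), .ofNat (nat_lit 614284), .ofNat (nat_lit 0), .ofNat (nat_lit 657134)⟩⟩, [⟨nat_lit 4, nat_lit 94, nat_lit 100, nat_lit 97, nat_lit 77412611⟩]⟩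
noncomputable def p073_l129 : Lf2 := ⟨nat_lit 0, nat_lit 20, [nat_lit 5, nat_lit 5, nat_lit 5, nat_lit 20], true, nat_lit 0, nat_lit 320, nat_lit 0, nat_lit 336, ⟨nat_lit 0, nat_lit 1000, nat_lit 0, nat_lit 7, nat_lit 213, nat_lit 1000, nat_lit 121, nat_lit 0, nat_lit 0, nat_lit 0, nat_lit 0, nat_lit 0, nat_lit 0, nat_lit 0, nat_lit 0, nat_lit 5000000, false, false⟩,
 nat_lit 0, nat_lit 0, nat_lit 0, nat_lit 5320, nat_lit 7173, nat_lit 0, nat_lit 0, nat_lit 0, nat_lit 0, nat_lit 0, nat_lit 0, nat_lit 0, nat_lit 0, nat_lit 20024061540486, nat_lit 0, nat_lit 250000, nat_lit 0, nat_lit 0, [(nat_lit 16, [(nat_lit 0, nat_lit 1000)])],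
 ⟨p073_k36, nat_lit 0, nat_lit 0, nat_lit 193, nat_lit 0, nat_lit 0, [nat_lit 2335200000, nat_lit 2745733334, nat_lit 3400666666], [], [nat_lit 24579894408, nat_lit 25579717699, nat_lit 26757704428, nat_lit 27503526419, nat_lit 26427223338, nat_lit 26985844552, nat_lit 26398105140, nat_lit 26815576389], nat_lit 0, nat_lit 0, nat_lit 0, nat_lit 0, nat_lit 0, nat_lit 0, [], [nat_lit 8, nat_lit 40, nat_lit 40, nat_lit 80, nat_lit 1, nat_lit 373, nat_lit 150, nat_lit 11]⟩, C1.Rw.none,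
 ⟨nat_lit 4743, nat_lit 5000, ⟨.ofNat (nat_lit 371422), .ofNat (nat_lit 657129), .ofNat (nat_lit 403560), .ofNat (nat_lit 689267), .ofNat (nat_lit 376847), .ofNat (nat_lit 655639), .ofNat (nat_lit 409074), .ofNat (nat_lit 687866)⟩, ⟨.ofNat (nat_lit 0), .ofNat (nat_lit 585713), .ofNat (nat_lit 0), .ofNat (nat_lit 628570), .ofNat (nat_lit 0), .ofNat (nat_lit 580169), .ofNat (nat_lit 0), .ofNat (nat_lit 623145)⟩⟩, [⟨nat_lit 16, nat_lit 94, nat_lit 88, nat_lit 100, nat_lit 47928116⟩]⟩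
noncomputable def p073_l130 : Lf2 := ⟨nat_lit 0, nat_lit 20, [nat_lit 5, nat_lit 5, nat_lit 5, nat_lit 20], true, nat_lit 0, nat_lit 312, nat_lit 0, nat_lit 336, ⟨nat_lit 0, nat_lit 1000, nat_lit 0, nat_lit 7, nat_lit 218, nat_lit 1000, nat_lit 117, nat_lit 0, nat_lit 0, nat_lit 0, nat_lit 0, nat_lit 0, nat_lit 0, nat_lit 0, nat_lit 0, nat_lit 5000000, false, false⟩,
 nat_lit 0, nat_lit 0, nat_lit 0, nat_lit 5162, nat_lit 7128, nat_lit 0, nat_lit 0, nat_lit 0, nat_lit 0, nat_lit 0, nat_lit 0, nat_lit 0, nat_lit 0, nat_lit 0, nat_lit 0, nat_lit 250000, nat_lit 0, nat_lit 0, [(nat_lit 16, [(nat_lit 0, nat_lit 1000)])],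
 ⟨p073_k45, nat_lit 0, nat_lit 0, nat_lit 196, nat_lit 0, nat_lit 0, [nat_lit 2335200000, nat_lit 2745733334, nat_lit 3400666666], [], [nat_lit 25411055279, nat_lit 26396887281, nat_lit 27488340674, nat_lit 28231468650, nat_lit 26405075433, nat_lit 26970871829, nat_lit 26534912538, nat_lit 26962303841], nat_lit 0, nat_lit 0, nat_lit 0, nat_lit 0, nat_lit 0, nat_lit 0, [], [nat_lit 8, nat_lit 40, nat_lit 40, nat_lit 80, nat_lit 1, nat_lit 373, nat_lit 150, nat_lit 11]⟩, C1.Rw.none,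
 ⟨nat_lit 4472, nat_lit 4744, ⟨.ofNat (nat_lit 390781), .ofNat (nat_lit 655638), .ofNat (nat_lit 433750), .ofNat (nat_lit 698608), .ofNat (nat_lit 395915), .ofNat (nat_lit 654230), .ofNat (nat_lit 439041), .ofNat (nat_lit 697356)⟩, ⟨.ofNat (nat_lit 0), .ofNat (nat_lit 566229), .ofNat (nat_lit 0), .ofNat (nat_lit 609205), .ofNat (nat_lit 0), .ofNat (nat_lit 560938), .ofNat (nat_lit 0), .ofNat (nat_lit 604071)⟩⟩, [⟨nat_lit 16, nat_lit 91, nat_lit 91, nat_lit 100, nat_lit 39322538⟩]⟩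
noncomputable def p073_l131 : Lf2 := ⟨nat_lit 0, nat_lit 20, [nat_lit 5, nat_lit 5, nat_lit 5, nat_lit 20], false, nat_lit 0, nat_lit 336, nat_lit 0, nat_lit 336, ⟨nat_lit 1000, nat_lit 0, nat_lit 0, nat_lit 0, nat_lit 0, nat_lit 0, nat_lit 0, nat_lit 0, nat_lit 0, nat_lit 0, nat_lit 0, nat_lit 0, nat_lit 0, nat_lit 0, nat_lit 0, nat_lit 0, false, false⟩,
 nat_lit 0, nat_lit 0, nat_lit 0, nat_lit 24065, nat_lit 7547, nat_lit 7547, nat_lit 800, nat_lit 0, nat_lit 0, nat_lit 702, nat_lit 0, nat_lit 0, nat_lit 0, nat_lit 0, nat_lit 0, nat_lit 0, nat_lit 0, nat_lit 0, [],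
 ⟨p073_k35, nat_lit 0, nat_lit 0, nat_lit 240, nat_lit 0, nat_lit 0, [nat_lit 3282000000, nat_lit 6250000000, nat_lit 11872000000], [], [nat_lit 29997780916, nat_lit 31046165826, nat_lit 39766512952, nat_lit 41077552742, nat_lit 28794540042, nat_lit 29332311080, nat_lit 36072848835, nat_lit 36774967442], nat_lit 0, nat_lit 0, nat_lit 0, nat_lit 0, nat_lit 0, nat_lit 0, [], [nat_lit 23, nat_lit 40, nat_lit 40, nat_lit 80, nat_lit 12, nat_lit 538, nat_lit 300, nat_lit 13]⟩, ⟨p073_k35, nat_lit 0, nat_lit 0, nat_lit 240, nat_lit 0, nat_lit 0, [nat_lit 3282000000, nat_lit 6250000000, nat_lit 11872000000], [], [nat_lit 30937662166, nat_lit 31986047076, nat_lit 40326902050, nat_lit 41077552742, nat_lit 29734421292, nat_lit 30272192330, nat_lit 36072848835, nat_lit 36774967442], nat_lit 0, nat_lit 0, nat_lit 0, nat_lit 0, nat_lit 0, nat_lit 0, [], [nat_lit 23, nat_lit 40, nat_lit 40, nat_lit 80, nat_lit 12, nat_lit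 538, nat_lit 300, nat_lit 13]⟩,
 zbF0, [⟨nat_lit 4, nat_lit 94, nat_lit 100, nat_lit 97, nat_lit 129239314⟩, ⟨nat_lit 7, nat_lit 94, nat_lit 100, nat_lit 97, nat_lit 129239314⟩]⟩
noncomputable def p073_l132 : Lf2 := ⟨nat_lit 0, nat_lit 20, [nat_lit 5, nat_lit 5, nat_lit 5, nat_lit 20], false, nat_lit 0, nat_lit 320, nat_lit 0, nat_lit 336, ⟨nat_lit 1000, nat_lit 0, nat_lit 0, nat_lit 0, nat_lit 0, nat_lit 0, nat_lit 0, nat_lit 0, nat_lit 0, nat_lit 0, nat_lit 0, nat_lit 0, nat_lit 0, nat_lit 0, nat_lit 0, nat_lit 0, false, false⟩,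
 nat_lit 0, nat_lit 0, nat_lit 0, nat_lit 15128, nat_lit 9127, nat_lit 7415, nat_lit 0, nat_lit 0, nat_lit 0, nat_lit 796, nat_lit 0, nat_lit 0, nat_lit 0, nat_lit 8117790286410, nat_lit 0, nat_lit 0, nat_lit 0, nat_lit 0, [],
 ⟨p073_k36, nat_lit 0, nat_lit 0, nat_lit 219, nat_lit 0, nat_lit 0, [nat_lit 3282000000, nat_lit 6250000000, nat_lit 9842000000], [], [nat_lit 33741456438, nat_lit 35467060656, nat_lit 45878314608, nat_lit 46809232800, nat_lit 31441034926, nat_lit 32365912228, nat_lit 38093385048, nat_lit 38565794824], nat_lit 0, nat_lit 0, nat_lit 0, nat_lit 0, nat_lit 0, nat_lit 0, [], [nat_lit 8, nat_lit 40, nat_lit 40, nat_lit 80, nat_lit 1, nat_lit 428, nat_lit 200, nat_lit 12]⟩, ⟨p073_k35, nat_lit 0, nat_lit 0, nat_lit 242, nat_lit 0, nat_lit 0, [nat_lit 3282000000, nat_lit 6250000000, nat_lit 11872000000], [], [nat_lit 30143746120, nat_lit 32222688020, nat_lit 39421119640, nat_lit 42019288740,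 nat_lit 29075580212, nat_lit 30147584477, nat_lit 35916352909, nat_lit 37313578916], nat_lit 0, nat_lit 0, nat_lit 0, nat_lit 0, nat_lit 0, nat_lit 0, [], [nat_lit 23, nat_lit 40, nat_lit 40, nat_lit 80, nat_lit 12, nat_lit 538, nat_lit 300, nat_lit 13]⟩,
 zbF0, [⟨nat_lit 4, nat_lit 100, nat_lit 93, nat_lit 97, nat_lit 62849343⟩, ⟨nat_lit 19, nat_lit 100, nat_lit 100, nat_lit 100, nat_lit 119364821⟩]⟩
noncomputable def p073_l133 : Lf2 := ⟨nat_lit 0, nat_lit 20, [nat_lit 5, nat_lit 5, nat_lit 5, nat_lit 20], true, nat_lit 0, nat_lit 336, nat_lit 0, nat_lit 336, ⟨nat_lit 0, nat_lit 1000, nat_lit 0, nat_lit 7, nat_lit 203, nat_lit 1000, nat_lit 128, nat_lit 0, nat_lit 0, nat_lit 0, nat_lit 0, nat_lit 0, nat_lit 0, nat_lit 0, nat_lit 0, nat_lit 5000000, false, false⟩,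
 nat_lit 0, nat_lit 0, nat_lit 0, nat_lit 10437, nat_lit 5264, nat_lit 0, nat_lit 403, nat_lit 0, nat_lit 0, nat_lit 0, nat_lit 0, nat_lit 0, nat_lit 0, nat_lit 0, nat_lit 0, nat_lit 250000, nat_lit 0, nat_lit 0, [(nat_lit 13, [(nat_lit 0, nat_lit 1000)])],
 ⟨p073_k35, nat_lit 0, nat_lit 0, nat_lit 322, nat_lit 0, nat_lit 0, [nat_lit 2378400000, nat_lit 3128000000, nat_lit 3715520000], [], [nat_lit 22180193389, nat_lit 23663380292, nat_lit 23940680717, nat_lit 25063123437, nat_lit 25684863466, nat_lit 26519373298, nat_lit 25677584077, nat_lit 26313847322], nat_lit 0, nat_lit 0, nat_lit 0, nat_lit 0, nat_lit 0, nat_lit 0, [], [nat_lit 23, nat_lit 40, nat_lit 40, nat_lit 80, nat_lit 12, nat_lit 456, nat_lit 225, nat_lit 12]⟩, C1.Rw.none,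
 ⟨nat_lit 5000, nat_lit 5478, ⟨.ofNat (nat_lit 330654), .ofNat (nat_lit 660309), .ofNat (nat_lit 352005), .ofNat (nat_lit 681655), .ofNat (nat_lit 342856), .ofNat (nat_lit 657090), .ofNat (nat_lit 364277), .ofNat (nat_lit 678509)⟩, ⟨.negSucc (nat_lit 2832), .ofNat (nat_lit 626629), .ofNat (nat_lit 0), .ofNat (nat_lit 669336), .ofNat (nat_lit 0), .ofNat (nat_lit 614284), .ofNat (nat_lit 0), .ofNat (nat_lit 657134)⟩⟩, [⟨nat_lit 4, nat_lit 94, nat_lit 100, nat_lit 97, nat_lit 77412611⟩]⟩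
noncomputable def p073_l134 : Lf2 := ⟨nat_lit 0, nat_lit 20, [nat_lit 5, nat_lit 5, nat_lit 5, nat_lit 20], true, nat_lit 0, nat_lit 320, nat_lit 0, nat_lit 336, ⟨nat_lit 0, nat_lit 1000, nat_lit 0, nat_lit 7, nat_lit 213, nat_lit 1000, nat_lit 121, nat_lit 0, nat_lit 0, nat_lit 0, nat_lit 0, nat_lit 0, nat_lit 0, nat_lit 0, nat_lit 0, nat_lit 5000000, false, false⟩,
 nat_lit 0, nat_lit 0, nat_lit 0, nat_lit 5320, nat_lit 7173, nat_lit 0, nat_lit 0, nat_lit 0, nat_lit 0, nat_lit 0, nat_lit 0, nat_lit 0, nat_lit 0, nat_lit 20024061540486, nat_lit 0, nat_lit 250000, nat_lit 0, nat_lit 0, [(nat_lit 16, [(nat_lit 0, nat_lit 1000)])],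
 ⟨p073_k36, nat_lit 0, nat_lit 0, nat_lit 193, nat_lit 0, nat_lit 0, [nat_lit 2335200000, nat_lit 2745733334, nat_lit 3400666666], [], [nat_lit 24579894408, nat_lit 25579717699, nat_lit 26757704428, nat_lit 27503526419, nat_lit 26427223338, nat_lit 26985844552, nat_lit 26398105140, nat_lit 26815576389], nat_lit 0, nat_lit 0, nat_lit 0, nat_lit 0, nat_lit 0, nat_lit 0, [], [nat_lit 8, nat_lit 40, nat_lit 40, nat_lit 80, nat_lit 1, nat_lit 373, nat_lit 150, nat_lit 11]⟩, C1.Rw.none,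
 ⟨nat_lit 4743, nat_lit 5000, ⟨.ofNat (nat_lit 371422), .ofNat (nat_lit 657129), .ofNat (nat_lit 403560), .ofNat (nat_lit 689267), .ofNat (nat_lit 376847), .ofNat (nat_lit 655639), .ofNat (nat_lit 409074), .ofNat (nat_lit 687866)⟩, ⟨.ofNat (nat_lit 0), .ofNat (nat_lit 585713), .ofNat (nat_lit 0), .ofNat (nat_lit 628570), .ofNat (nat_lit 0), .ofNat (nat_lit 580169), .ofNat (nat_lit 0), .ofNat (nat_lit 623145)⟩⟩, [⟨nat_lit 16, nat_lit 94, nat_lit 88, nat_lit 100, nat_lit 47928116⟩]⟩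
noncomputable def p073_l135 : Lf2 := ⟨nat_lit 0, nat_lit 20, [nat_lit 5, nat_lit 5, nat_lit 5, nat_lit 20], true, nat_lit 0, nat_lit 312, nat_lit 0, nat_lit 336, ⟨nat_lit 0, nat_lit 1000, nat_lit 0, nat_lit 7, nat_lit 218, nat_lit 1000, nat_lit 117, nat_lit 0, nat_lit 0, nat_lit 0, nat_lit 0, nat_lit 0, nat_lit 0, nat_lit 0, nat_lit 0, nat_lit 5000000, false, false⟩,
 nat_lit 0, nat_lit 0, nat_lit 0, nat_lit 5162, nat_lit 7128, nat_lit 0, nat_lit 0, nat_lit 0, nat_lit 0, nat_lit 0, nat_lit 0, nat_lit 0, nat_lit 0, nat_lit 0, nat_lit 0, nat_lit 250000, nat_lit 0, nat_lit 0, [(nat_lit 16, [(nat_lit 0, nat_lit 1000)])],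
 ⟨p073_k45, nat_lit 0, nat_lit 0, nat_lit 196, nat_lit 0, nat_lit 0, [nat_lit 2335200000, nat_lit 2745733334, nat_lit 3400666666], [], [nat_lit 25411055279, nat_lit 26396887281, nat_lit 27488340674, nat_lit 28231468650, nat_lit 26405075433, nat_lit 26970871829, nat_lit 26534912538, nat_lit 26962303841], nat_lit 0, nat_lit 0, nat_lit 0, nat_lit 0, nat_lit 0, nat_lit 0, [], [nat_lit 8, nat_lit 40, nat_lit 40, nat_lit 80, nat_lit 1, nat_lit 373, nat_lit 150, nat_lit 11]⟩, C1.Rw.none,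
 ⟨nat_lit 4472, nat_lit 4744, ⟨.ofNat (nat_lit 390781), .ofNat (nat_lit 655638), .ofNat (nat_lit 433750), .ofNat (nat_lit 698608), .ofNat (nat_lit 395915), .ofNat (nat_lit 654230), .ofNat (nat_lit 439041), .ofNat (nat_lit 697356)⟩, ⟨.ofNat (nat_lit 0), .ofNat (nat_lit 566229), .ofNat (nat_lit 0), .ofNat (nat_lit 609205), .ofNat (nat_lit 0), .ofNat (nat_lit 560938), .ofNat (nat_lit 0), .ofNat (nat_lit 604071)⟩⟩, [⟨nat_lit 16, nat_lit 91, nat_lit 91, nat_lit 100, nat_lit 39322538⟩]⟩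
noncomputable def p073_l136 : Lf2 := ⟨nat_lit 0, nat_lit 20, [nat_lit 5, nat_lit 5, nat_lit 5, nat_lit 20], false, nat_lit 0, nat_lit 160, nat_lit 0, nat_lit 336, ⟨nat_lit 533, nat_lit 467, nat_lit 0, nat_lit 7, nat_lit 329, nat_lit 467, nat_lit 64, nat_lit 0, nat_lit 0, nat_lit 0, nat_lit 0, nat_lit 0, nat_lit 0, nat_lit 0, nat_lit 0, nat_lit 5000000, true, true⟩,
 nat_lit 0, nat_lit 0, nat_lit 5716, nat_lit 0, nat_lit 5320, nat_lit 3637, nat_lit 469, nat_lit 0, nat_lit 0, nat_lit 407, nat_lit 0, nat_lit 0, nat_lit 0, nat_lit 7040192309210, nat_lit 0, nat_lit 289400, nat_lit 0, nat_lit 0, [(nat_lit 13, [(nat_lit 1, nat_lit 296), (nat_lit 2, nat_lit 171)]), (nat_lit 16, [(nat_lit 1, nat_lit 296), (nat_lit 2, nat_lit 171)])],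
 ⟨p073_k35, nat_lit 0, nat_lit 0, nat_lit 242, nat_lit 0, nat_lit 0, [nat_lit 2760476934, nat_lit 4521507400, nat_lit 6621062400], [], [nat_lit 28008235635, nat_lit 29804226835, nat_lit 34886490035, nat_lit 36158859115, nat_lit 25299044729, nat_lit 26667239929, nat_lit 31015574835, nat_lit 32166409040], nat_lit 0, nat_lit 0, nat_lit 0, nat_lit 0, nat_lit 0, nat_lit 0, [], [nat_lit 23, nat_lit 40, nat_lit 40, nat_lit 80, nat_lit 12, nat_lit 456, nat_lit 225, nat_lit 11]⟩, ⟨p073_k35, nat_lit 0, nat_lit 0, nat_lit 508, nat_lit 0, nat_lit 568620, [nat_lit 1749306000, nat_lit 3331250000, nat_lit 6327776000], [], [nat_lit 17646943741, nat_lit 18472585817, nat_lit 20827643813, nat_lit 21519116013, nat_lit 17015651756, nat_lit 17441617862, nat_lit 19172501597, nat_lit 19509743515], nat_lit 1271250, nat_lit 1271250, nat_lit 1271250, nat_lit 1271250, nat_lit 0, nat_lit 2373000, [nat_lit 780000, nat_lit 1435000, nat_lit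 1271250], [nat_lit 23, nat_lit 40, nat_lit 40, nat_lit 80, nat_lit 12, nat_lit 538, nat_lit 300, nat_lit 13]⟩,
 ⟨nat_lit 4472, nat_lit 5478, ⟨.ofNat (nat_lit 660148), .ofNat (nat_lit 959740), .ofNat (nat_lit 702774), .ofNat (nat_lit 1002365), .ofNat (nat_lit 654031), .ofNat (nat_lit 925804), .ofNat (nat_lit 697075), .ofNat (nat_lit 968848)⟩, ⟨.negSucc (nat_lit 2834), .ofNat (nat_lit 296923), .ofNat (nat_lit 0), .ofNat (nat_lit 339637), .ofNat (nat_lit 0), .ofNat (nat_lit 302621), .ofNat (nat_lit 0), .ofNat (nat_lit 345754)⟩⟩, [⟨nat_lit 19, nat_lit 100, nat_lit 100, nat_lit 100, nat_lit 48103995⟩, ⟨nat_lit 22, nat_lit 83, nat_lit 100, nat_lit 83, nat_lit 32968084⟩]⟩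
noncomputable def p073_l137 : Lf2 := ⟨nat_lit 0, nat_lit 20, [nat_lit 5, nat_lit 5, nat_lit 5, nat_lit 20], false, nat_lit 160, nat_lit 336, nat_lit 0, nat_lit 336, ⟨nat_lit 1000, nat_lit 0, nat_lit 0, nat_lit 0, nat_lit 0, nat_lit 0, nat_lit 0, nat_lit 0, nat_lit 0, nat_lit 0, nat_lit 0, nat_lit 0, nat_lit 0, nat_lit 0, nat_lit 0, nat_lit 0, false, false⟩,
 nat_lit 0, nat_lit 0, nat_lit 10859, nat_lit 8285, nat_lit 7044, nat_lit 6910, nat_lit 0, nat_lit 0, nat_lit 0, nat_lit 855, nat_lit 0, nat_lit 0, nat_lit 0, nat_lit 0, nat_lit 0, nat_lit 0, nat_lit 0, nat_lit 0, [],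
 ⟨p073_k35, nat_lit 0, nat_lit 0, nat_lit 86, nat_lit 0, nat_lit 0, [nat_lit 3282000000, nat_lit 6250000000, nat_lit 11872000000], [], [nat_lit 19384041920, nat_lit 20900199592, nat_lit 30755070816, nat_lit 31641121984, nat_lit 27288497581, nat_lit 28249097729, nat_lit 35476504509, nat_lit 36165264644], nat_lit 0, nat_lit 0, nat_lit 0, nat_lit 0, nat_lit 0, nat_lit 0, [], [nat_lit 23, nat_lit 40, nat_lit 40, nat_lit 80, nat_lit 12, nat_lit 538, nat_lit 300, nat_lit 13]⟩, ⟨p073_k35, nat_lit 0, nat_lit 0, nat_lit 336, nat_lit 0, nat_lit 155355, [nat_lit 3282000000, nat_lit 6250000000, nat_lit 11872000000], [], [nat_lit 29989561105, nat_lit 30994929405, nat_lit 38142019625, nat_lit 39353075260, nat_lit 29438159273, nat_lit 29972094025, nat_lit 35317637433, nat_lit 36002838849], nat_lit 1271250, nat_lit 1271250, nat_lit 1271250, nat_lit 1271250, nat_lit 0, nat_lit 2373000, [nat_lit 780000, nat_lit 1435000, nat_lit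 1271250], [nat_lit 23, nat_lit 40, nat_lit 40, nat_lit 80, nat_lit 12, nat_lit 538, nat_lit 300, nat_lit 13]⟩,
 zbF0, [⟨nat_lit 4, nat_lit 94, nat_lit 100, nat_lit 97, nat_lit 367976516⟩, ⟨nat_lit 19, nat_lit 100, nat_lit 94, nat_lit 97, nat_lit 143854553⟩]⟩
noncomputable def p073_l138 : Lf2 := ⟨nat_lit 0, nat_lit 20, [nat_lit 5, nat_lit 5, nat_lit 5, nat_lit 20], false, nat_lit 160, nat_lit 320, nat_lit 0, nat_lit 336, ⟨nat_lit 819, nat_lit 181, nat_lit 0, nat_lit 7, nat_lit 322, nat_lit 181, nat_lit 185, nat_lit 0, nat_lit 0, nat_lit 0, nat_lit 0, nat_lit 0, nat_lit 0, nat_lit 0, nat_lit 0, nat_lit 5000000, true, true⟩,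
 nat_lit 0, nat_lit 0, nat_lit 8979, nat_lit 0, nat_lit 6432, nat_lit 5713, nat_lit 0, nat_lit 0, nat_lit 0, nat_lit 639, nat_lit 0, nat_lit 0, nat_lit 0, nat_lit 0, nat_lit 0, nat_lit 45250, nat_lit 0, nat_lit 0, [(nat_lit 16, [(nat_lit 0, nat_lit 181)])],
 ⟨p073_k36, nat_lit 0, nat_lit 0, nat_lit 90, nat_lit 0, nat_lit 0, [nat_lit 3110629200, nat_lit 5615727734, nat_lit 8673029600], [], [nat_lit 20909617910, nat_lit 22348334326, nat_lit 31128248486, nat_lit 31982737590, nat_lit 27046014390, nat_lit 28019103350, nat_lit 34645283392, nat_lit 35358981984], nat_lit 0, nat_lit 0, nat_lit 0, nat_lit 0, nat_lit 0, nat_lit 0, [], [nat_lit 8, nat_lit 40, nat_lit 40, nat_lit 80, nat_lit 1, nat_lit 428, nat_lit 200, nat_lit 11]⟩, ⟨p073_k35, nat_lit 0, nat_lit 0, nat_lit 402, nat_lit 0, nat_lit 373477, [nat_lit 2687958000, nat_lit 5118750000, nat_lit 9723168000], [], [nat_lit 26746214189, nat_lit 27385848315, nat_lit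 31886190845, nat_lit 32484847509, nat_lit 25644614167, nat_lit 25971887181, nat_lit 29113927026, nat_lit 29551428670], nat_lit 1271250, nat_lit 1271250, nat_lit 1271250, nat_lit 1271250, nat_lit 0, nat_lit 2373000, [nat_lit 780000, nat_lit 1435000, nat_lit 1271250], [nat_lit 23, nat_lit 40, nat_lit 40, nat_lit 80, nat_lit 12, nat_lit 538, nat_lit 300, nat_lit 13]⟩,
 ⟨nat_lit 4472, nat_lit 5000, ⟨.ofNat (nat_lit 657088), .ofNat (nat_lit 942783), .ofNat (nat_lit 678503), .ofNat (nat_lit 964199), .ofNat (nat_lit 654189), .ofNat (nat_lit 926083), .ofNat (nat_lit 675743), .ofNat (nat_lit 947637)⟩, ⟨.ofNat (nat_lit 299999), .ofNat (nat_lit 585713), .ofNat (nat_lit 342856), .ofNat (nat_lit 628570), .ofNat (nat_lit 302621), .ofNat (nat_lit 574534), .ofNat (nat_lit 345754), .ofNat (nat_lit 617667)⟩⟩, [⟨nat_lit 4, nat_lit 100, nat_lit 93, nat_lit 97, nat_lit 338867358⟩, ⟨nat_lit 7, nat_lit 94, nat_lit 100, nat_lit 97,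 nat_lit 114922398⟩]⟩
noncomputable def p073_l139 : Lf2 := ⟨nat_lit 0, nat_lit 20, [nat_lit 5, nat_lit 5, nat_lit 5, nat_lit 20], false, nat_lit 160, nat_lit 320, nat_lit 0, nat_lit 320, ⟨nat_lit 1000, nat_lit 0, nat_lit 0, nat_lit 0, nat_lit 0, nat_lit 0, nat_lit 0, nat_lit 0, nat_lit 0, nat_lit 0, nat_lit 0, nat_lit 0, nat_lit 0, nat_lit 0, nat_lit 0, nat_lit 0, false, false⟩,
 nat_lit 0, nat_lit 0, nat_lit 8488, nat_lit 0, nat_lit 7706, nat_lit 5876, nat_lit 0, nat_lit 0, nat_lit 0, nat_lit 744, nat_lit 0, nat_lit 0, nat_lit 0, nat_lit 0, nat_lit 0, nat_lit 0, nat_lit 0, nat_lit 0, [],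
 ⟨p073_k36, nat_lit 0, nat_lit 0, nat_lit 90, nat_lit 0, nat_lit 0, [nat_lit 3282000000, nat_lit 6250000000, nat_lit 9842000000], [], [nat_lit 20203919908, nat_lit 21803845736, nat_lit 32425374496, nat_lit 33588485264, nat_lit 26727790748, nat_lit 27786912928, nat_lit 36120774136, nat_lit 36874929872], nat_lit 0, nat_lit 0, nat_lit 0, nat_lit 0, nat_lit 0, nat_lit 0, [], [nat_lit 8, nat_lit 40, nat_lit 40, nat_lit 80, nat_lit 1, nat_lit 428, nat_lit 200, nat_lit 11]⟩, ⟨p073_k36, nat_lit 0, nat_lit 0, nat_lit 432, nat_lit 0, nat_lit 503741, [nat_lit 3282000000, nat_lit 6250000000, nat_lit 9842000000], [], [nat_lit 30881563968, nat_lit 31613538816, nat_lit 36607047256, nat_lit 37713542256, nat_lit 30504406808, nat_lit 30925082720, nat_lit 34292997912, nat_lit 34697390912], nat_lit 1271250, nat_lit 1271250, nat_lit 1271250, nat_lit 1271250, nat_lit 0, nat_lit 2260000, [nat_lit 780000, nat_lit 1435000, nat_lit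 1271250], [nat_lit 8, nat_lit 40, nat_lit 40, nat_lit 80, nat_lit 1, nat_lit 428, nat_lit 200, nat_lit 12]⟩,
 zbF0, [⟨nat_lit 4, nat_lit 100, nat_lit 93, nat_lit 97, nat_lit 379927364⟩, ⟨nat_lit 7, nat_lit 100, nat_lit 93, nat_lit 97, nat_lit 153376028⟩]⟩
noncomputable def b_V_700_700_20_61 : St := ⟨true, nat_lit 0, nat_lit 2, nat_lit 2, nat_lit 120, nat_lit 280, nat_lit 320, nat_lit 280, nat_lit 320, nat_lit 64, nat_lit 400, nat_lit 80, nat_lit 120, nat_lit 0, nat_lit 336, nat_lit 0, nat_lit 336, nat_lit 40, nat_lit 80, nat_lit 0, nat_lit 0, nat_lit 0, nat_lit 0⟩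
theorem d_V_700_700_20_61 (h : EB TB.env) : Dead b_V_700_700_20_61 := chkB_sound0 h (T :=
(.st (nat_lit 1)
(.spl (nat_lit 2) (nat_lit 240)
(.spl (nat_lit 0) (nat_lit 300)
(.ord (.leaf p073_l128))
(.trZ (nat_lit 0) (nat_lit 100) (nat_lit 94) (nat_lit 88) (nat_lit 80) (.trX (nat_lit 16) (nat_lit 94) (nat_lit 88) (nat_lit 100) (nat_lit 320) (.spl (nat_lit 0) (nat_lit 310)
(.ord (.leaf p073_l129))
(.trZ (nat_lit 0) (nat_lit 100) (nat_lit 91) (nat_lit 91) (nat_lit 88) (.trX (nat_lit 16) (nat_lit 91) (nat_lit 91) (nat_lit 100) (nat_lit 312) (.leaf p073_l130)))))))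
(.spl (nat_lit 0) (nat_lit 300)
(.ord (.leaf p073_l131))
(.trX (nat_lit 16) (nat_lit 94) (nat_lit 88) (nat_lit 100) (nat_lit 320) (.leaf p073_l132))))
(.spl (nat_lit 2) (nat_lit 240)
(.spl (nat_lit 0) (nat_lit 300)
(.ord (.leaf p073_l133))
(.trZ (nat_lit 0) (nat_lit 100) (nat_lit 94) (nat_lit 88) (nat_lit 80) (.trX (nat_lit 16) (nat_lit 94) (nat_lit 88) (nat_lit 100) (nat_lit 320) (.spl (nat_lit 0) (nat_lit 310)
(.ord (.leaf p073_l134))
(.trZ (nat_lit 0) (nat_lit 100) (nat_lit 91) (nat_lit 91) (nat_lit 88) (.trX (nat_lit 16) (nat_lit 91) (nat_lit 91) (nat_lit 100) (nat_lit 312) (.leaf p073_l135)))))))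
(.spl (nat_lit 4) (nat_lit 160)
(.leaf p073_l136)
(.spl (nat_lit 0) (nat_lit 300)
(.ord (.leaf p073_l137))
(.trX (nat_lit 16) (nat_lit 94) (nat_lit 88) (nat_lit 100) (nat_lit 320) (.spl (nat_lit 1) (nat_lit 300)
(.leaf p073_l138)
(.trX (nat_lit 19) (nat_lit 94) (nat_lit 88) (nat_lit 100) (nat_lit 320) (.leaf p073_l139))))))))) (by decide +kernel)

end B2
end Pool.Agent.Lib.MP_6947cd_al
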