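import Pool.Agent.Lib.MP_6947cd_al.ZB.Pre

/-!
Problem MP_6947cd_al (Chollet).  Case B, second entry in [2/5, 17/20]: certificates of the tree, part P074 (generated).
-/

set_option autoImplicit false
set_option linter.all false

namespace Pool.Agent.Lib.MP_6947cd_al
namespace B2

open Ent Fr B1 PkA

noncomputable def p074_k0 : C1.Kn := ⟨[nat_lit 60, nat_lit 100, nat_lit 140], [nat_lit 0, nat_lit 0, nat_lit 2047], [(nat_lit 0, nat_lit 0, nat_lit 0), (nat_lit 0, nat_lit 0, nat_lit 0), (nat_lit 1000, nat_lit 993, nat_lit 781)], (nat_lit 98, nat_lit 100, nat_lit 74)⟩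
noncomputable def p074_k1 : C1.Kn := ⟨[nat_lit 60, nat_lit 100, nat_lit 140], [nat_lit 0, nat_lit 302, nat_lit 2304], [(nat_lit 0, nat_lit 0, nat_lit 0), (nat_lit 1000, nat_lit 953, nat_lit 118), (nat_lit 1000, nat_lit 952, nat_lit 781)], (nat_lit 93, nat_lit 100, nat_lit 73)⟩
noncomputable def p074_k2 : C1.Kn := ⟨[nat_lit 60, nat_lit 100, nat_lit 140], [nat_lit 0, nat_lit 609, nat_lit 2558], [(nat_lit 0, nat_lit 0, nat_lit 0), (nat_lit 1000, nat_lit 905, nat_lit 238), (nat_lit 1000, nat_lit 904, nat_lit 760)], (nat_lit 94, nat_lit 100, nat_lit 87)⟩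
noncomputable def p074_k3 : C1.Kn := ⟨[nat_lit 60, nat_lit 100, nat_lit 160], [nat_lit 0, nat_lit 0, nat_lit 3069], [(nat_lit 0, nat_lit 0, nat_lit 0), (nat_lit 0, nat_lit 0, nat_lit 0), (nat_lit 1000, nat_lit 999, nat_lit 798)], (nat_lit 100, nat_lit 95, nat_lit 87)⟩
noncomputable def p074_k4 : C1.Kn := ⟨[nat_lit 60, nat_lit 100, nat_lit 140], [nat_lit 0, nat_lit 755, nat_lit 2690], [(nat_lit 0, nat_lit 0, nat_lit 0), (nat_lit 1000, nat_lit 882, nat_lit 294), (nat_lit 1000, nat_lit 882, nat_lit 755)], (nat_lit 91, nat_lit 100, nat_lit 86)⟩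
noncomputable def p074_k5 : C1.Kn := ⟨[nat_lit 60, nat_lit 100, nat_lit 140], [nat_lit 0, nat_lit 909, nat_lit 2819], [(nat_lit 0, nat_lit 0, nat_lit 0), (nat_lit 1000, nat_lit 858, nat_lit 354), (nat_lit 1000, nat_lit 858, nat_lit 746)], (nat_lit 89, nat_lit 100, nat_lit 85)⟩
noncomputable def p074_k6 : C1.Kn := ⟨[nat_lit 60, nat_lit 100, nat_lit 140], [nat_lit 0, nat_lit 1063, nat_lit 2947], [(nat_lit 0, nat_lit 0, nat_lit 0), (nat_lit 1000, nat_lit 834, nat_lit 414), (nat_lit 1000, nat_lit 834, nat_lit 736)], (nat_lit 86, nat_lit 100, nat_lit 84)⟩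
noncomputable def p074_k7 : C1.Kn := ⟨[nat_lit 60, nat_lit 100, nat_lit 140], [nat_lit 0, nat_lit 0, nat_lit 2047], [(nat_lit 0, nat_lit 0, nat_lit 0), (nat_lit 0, nat_lit 0, nat_lit 0), (nat_lit 1000, nat_lit 993, nat_lit 781)], (nat_lit 96, nat_lit 100, nat_lit 68)⟩
noncomputable def p074_k8 : C1.Kn := ⟨[nat_lit 60, nat_lit 140], [nat_lit 0, nat_lit 604], [(nat_lit 0, nat_lit 0, nat_lit 0), (nat_lit 1000, nat_lit 953, nat_lit 118)], (nat_lit 93, nat_lit 100, nat_lit 73)⟩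
noncomputable def p074_k9 : C1.Kn := ⟨[nat_lit 60, nat_lit 100, nat_lit 140], [nat_lit 0, nat_lit 455, nat_lit 2431], [(nat_lit 0, nat_lit 0, nat_lit 0), (nat_lit 1000, nat_lit 929, nat_lit 178), (nat_lit 1000, nat_lit 928, nat_lit 770)], (nat_lit 91, nat_lit 100, nat_lit 72)⟩
noncomputable def p074_k10 : C1.Kn := ⟨[nat_lit 60, nat_lit 80, nat_lit 140], [nat_lit 0, nat_lit 304, nat_lit 1867], [(nat_lit 0, nat_lit 0, nat_lit 0), (nat_lit 1000, nat_lit 905, nat_lit 238), (nat_lit 1000, nat_lit 871, nat_lit 407)], (nat_lit 94, nat_lit 100, nat_lit 87)⟩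
noncomputable def p074_k11 : C1.Kn := ⟨[nat_lit 60, nat_lit 80, nat_lit 160], [nat_lit 0, nat_lit 0, nat_lit 2127], [(nat_lit 0, nat_lit 0, nat_lit 0), (nat_lit 0, nat_lit 0, nat_lit 0), (nat_lit 1000, nat_lit 917, nat_lit 415)], (nat_lit 100, nat_lit 95, nat_lit 87)⟩
noncomputable def p074_k12 : C1.Kn := ⟨[nat_lit 60, nat_lit 100, nat_lit 140], [nat_lit 0, nat_lit 609, nat_lit 2558], [(nat_lit 0, nat_lit 0, nat_lit 0), (nat_lit 1000, nat_lit 905, nat_lit 238), (nat_lit 1000, nat_lit 904, nat_lit 760)], (nat_lit 90, nat_lit 100, nat_lit 74)⟩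
noncomputable def p074_k13 : C1.Kn := ⟨[nat_lit 60, nat_lit 100, nat_lit 140], [nat_lit 0, nat_lit 0, nat_lit 2047], [(nat_lit 0, nat_lit 0, nat_lit 0), (nat_lit 0, nat_lit 0, nat_lit 0), (nat_lit 1000, nat_lit 993, nat_lit 781)], (nat_lit 99, nat_lit 100, nat_lit 77)⟩
noncomputable def p074_k14 : C1.Kn := ⟨[nat_lit 60, nat_lit 80, nat_lit 140], [nat_lit 0, nat_lit 0, nat_lit 1595], [(nat_lit 0, nat_lit 0, nat_lit 0), (nat_lit 0, nat_lit 0, nat_lit 0), (nat_lit 1000, nat_lit 917, nat_lit 415)], (nat_lit 96, nat_lit 100, nat_lit 68)⟩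
noncomputable def p074_k15 : C1.Kn := ⟨[nat_lit 60, nat_lit 100, nat_lit 140], [nat_lit 0, nat_lit 302, nat_lit 2304], [(nat_lit 0, nat_lit 0, nat_lit 0), (nat_lit 1000, nat_lit 953, nat_lit 118), (nat_lit 1000, nat_lit 952, nat_lit 781)], (nat_lit 92, nat_lit 100, nat_lit 67)⟩
noncomputable def p074_k16 : C1.Kn := ⟨[nat_lit 60, nat_lit 140], [nat_lit 0, nat_lit 1218], [(nat_lit 0, nat_lit 0, nat_lit 0), (nat_lit 1000, nat_lit 905, nat_lit 238)], (nat_lit 90, nat_lit 100, nat_lit 74)⟩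
noncomputable def p074_k17 : C1.Kn := ⟨[nat_lit 60, nat_lit 140], [nat_lit 0, nat_lit 0], [(nat_lit 0, nat_lit 0, nat_lit 0), (nat_lit 0, nat_lit 0, nat_lit 0)], (nat_lit 99, nat_lit 100, nat_lit 77)⟩
noncomputable def p074_k18 : C1.Kn := ⟨[nat_lit 60, nat_lit 100, nat_lit 120], [nat_lit 0, nat_lit 609, nat_lit 1609], [(nat_lit 0, nat_lit 0, nat_lit 0), (nat_lit 1000, nat_lit 905, nat_lit 238), (nat_lit 1000, nat_lit 882, nat_lit 668)], (nat_lit 88, nat_lit 100, nat_lit 66)⟩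
noncomputable def p074_k19 : C1.Kn := ⟨[nat_lit 60, nat_lit 100, nat_lit 120], [nat_lit 0, nat_lit 909, nat_lit 1866], [(nat_lit 0, nat_lit 0, nat_lit 0), (nat_lit 1000, nat_lit 858, nat_lit 354), (nat_lit 1000, nat_lit 849, nat_lit 705)], (nat_lit 84, nat_lit 100, nat_lit 66)⟩
noncomputable def p074_k20 : C1.Kn := ⟨[nat_lit 50, nat_lit 70, nat_lit 130], [nat_lit 0, nat_lit 0, nat_lit 1681], [(nat_lit 0, nat_lit 0, nat_lit 0), (nat_lit 0, nat_lit 0, nat_lit 0), (nat_lit 1000, nat_lit 868, nat_lit 437)], (nat_lit 90, nat_lit 100, nat_lit 74)⟩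
noncomputable def p074_k21 : C1.Kn := ⟨[nat_lit 60, nat_lit 80, nat_lit 140], [nat_lit 0, nat_lit 0, nat_lit 1595], [(nat_lit 0, nat_lit 0, nat_lit 0), (nat_lit 0, nat_lit 0, nat_lit 0), (nat_lit 1000, nat_lit 917, nat_lit 415)], (nat_lit 99, nat_lit 100, nat_lit 77)⟩
noncomputable def p074_k22 : C1.Kn := ⟨[nat_lit 60, nat_lit 100, nat_lit 140], [nat_lit 0, nat_lit 609, nat_lit 2558], [(nat_lit 0, nat_lit 0, nat_lit 0), (nat_lit 1000, nat_lit 905, nat_lit 238), (nat_lit 1000, nat_lit 904, nat_lit 760)], (nat_lit 91, nat_lit 100, nat_lit 79)⟩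
noncomputable def p074_k23 : C1.Kn := ⟨[nat_lit 60, nat_lit 100, nat_lit 160], [nat_lit 0, nat_lit 0, nat_lit 3069], [(nat_lit 0, nat_lit 0, nat_lit 0), (nat_lit 0, nat_lit 0, nat_lit 0), (nat_lit 1000, nat_lit 999, nat_lit 798)], (nat_lit 100, nat_lit 99, nat_lit 82)⟩
noncomputable def p074_k24 : C1.Kn := ⟨[nat_lit 60, nat_lit 100, nat_lit 160], [nat_lit 0, nat_lit 302, nat_lit 3303], [(nat_lit 0, nat_lit 0, nat_lit 0), (nat_lit 1000, nat_lit 953, nat_lit 118), (nat_lit 1000, nat_lit 952, nat_lit 781)], (nat_lit 100, nat_lit 100, nat_lit 89)⟩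
noncomputable def p074_k25 : C1.Kn := ⟨[nat_lit 60, nat_lit 120, nat_lit 140], [nat_lit 0, nat_lit 913, nat_lit 2600], [(nat_lit 0, nat_lit 0, nat_lit 0), (nat_lit 1000, nat_lit 905, nat_lit 238), (nat_lit 1000, nat_lit 943, nat_lit 874)], (nat_lit 90, nat_lit 100, nat_lit 74)⟩
noncomputable def p074_k26 : C1.Kn := ⟨[nat_lit 60, nat_lit 120, nat_lit 140], [nat_lit 0, nat_lit 453, nat_lit 2313], [(nat_lit 0, nat_lit 0, nat_lit 0), (nat_lit 1000, nat_lit 953, nat_lit 118), (nat_lit 1000, nat_lit 969, nat_lit 825)], (nat_lit 94, nat_lit 100, nat_lit 75)⟩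
noncomputable def p074_k27 : C1.Kn := ⟨[nat_lit 60, nat_lit 100, nat_lit 140], [nat_lit 0, nat_lit 302, nat_lit 2304], [(nat_lit 0, nat_lit 0, nat_lit 0), (nat_lit 1000, nat_lit 953, nat_lit 118), (nat_lit 1000, nat_lit 952, nat_lit 781)], (nat_lit 94, nat_lit 100, nat_lit 75)⟩
noncomputable def p074_k28 : C1.Kn := ⟨[nat_lit 50, nat_lit 70, nat_lit 130], [nat_lit 0, nat_lit 167, nat_lit 1842], [(nat_lit 0, nat_lit 0, nat_lit 0), (nat_lit 1000, nat_lit 935, nat_lit 130), (nat_lit 1000, nat_lit 843, nat_lit 436)], (nat_lit 85, nat_lit 100, nat_lit 73)⟩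
noncomputable def p074_k29 : C1.Kn := ⟨[nat_lit 60, nat_lit 80, nat_lit 140], [nat_lit 0, nat_lit 151, nat_lit 1731], [(nat_lit 0, nat_lit 0, nat_lit 0), (nat_lit 1000, nat_lit 953, nat_lit 118), (nat_lit 1000, nat_lit 894, nat_lit 411)], (nat_lit 94, nat_lit 100, nat_lit 75)⟩
noncomputable def p074_k30 : C1.Kn := ⟨[nat_lit 60, nat_lit 120, nat_lit 140], [nat_lit 0, nat_lit 1362, nat_lit 2909], [(nat_lit 0, nat_lit 0, nat_lit 0), (nat_lit 1000, nat_lit 858, nat_lit 354), (nat_lit 1000, nat_lit 909, nat_lit 910)], (nat_lit 85, nat_lit 100, nat_lit 73)⟩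
noncomputable def p074_k31 : C1.Kn := ⟨[nat_lit 60, nat_lit 120, nat_lit 140], [nat_lit 0, nat_lit 683, nat_lit 2454], [(nat_lit 0, nat_lit 0, nat_lit 0), (nat_lit 1000, nat_lit 929, nat_lit 178), (nat_lit 1000, nat_lit 958, nat_lit 854)], (nat_lit 92, nat_lit 100, nat_lit 75)⟩
noncomputable def p074_k32 : C1.Kn := ⟨[nat_lit 60, nat_lit 120, nat_lit 140], [nat_lit 0, nat_lit 913, nat_lit 2600], [(nat_lit 0, nat_lit 0, nat_lit 0), (nat_lit 1000, nat_lit 905, nat_lit 238), (nat_lit 1000, nat_lit 943, nat_lit 874)], (nat_lit 94, nat_lit 100, nat_lit 87)⟩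
noncomputable def p074_k33 : C1.Kn := ⟨[nat_lit 60, nat_lit 120, nat_lit 160], [nat_lit 0, nat_lit 453, nat_lit 3555], [(nat_lit 0, nat_lit 0, nat_lit 0), (nat_lit 1000, nat_lit 953, nat_lit 118), (nat_lit 904, nat_lit 1000, nat_lit 997)], (nat_lit 100, nat_lit 100, nat_lit 89)⟩
noncomputable def p074_k34 : C1.Kn := ⟨[nat_lit 60, nat_lit 100, nat_lit 140], [nat_lit 0, nat_lit 609, nat_lit 2558], [(nat_lit 0, nat_lit 0, nat_lit 0), (nat_lit 1000, nat_lit 905, nat_lit 238), (nat_lit 1000, nat_lit 904, nat_lit 760)], (nat_lit 89, nat_lit 100, nat_lit 72)⟩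
noncomputable def p074_k35 : C1.Kn := ⟨[nat_lit 60, nat_lit 100, nat_lit 120], [nat_lit 0, nat_lit 909, nat_lit 1866], [(nat_lit 0, nat_lit 0, nat_lit 0), (nat_lit 1000, nat_lit 858, nat_lit 354), (nat_lit 1000, nat_lit 849, nat_lit 705)], (nat_lit 85, nat_lit 100, nat_lit 71)⟩
noncomputable def p074_k36 : C1.Kn := ⟨[nat_lit 60, nat_lit 140], [nat_lit 0, nat_lit 1815], [(nat_lit 0, nat_lit 0, nat_lit 0), (nat_lit 1000, nat_lit 858, nat_lit 354)], (nat_lit 85, nat_lit 100, nat_lit 73)⟩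
noncomputable def p074_k37 : C1.Kn := ⟨[nat_lit 60, nat_lit 120, nat_lit 140], [nat_lit 0, nat_lit 1362, nat_lit 2909], [(nat_lit 0, nat_lit 0, nat_lit 0), (nat_lit 1000, nat_lit 858, nat_lit 354), (nat_lit 1000, nat_lit 909, nat_lit 910)], (nat_lit 89, nat_lit 100, nat_lit 85)⟩
noncomputable def p074_k38 : C1.Kn := ⟨[nat_lit 60, nat_lit 100, nat_lit 160], [nat_lit 0, nat_lit 609, nat_lit 3531], [(nat_lit 0, nat_lit 0, nat_lit 0), (nat_lit 1000, nat_lit 905, nat_lit 238), (nat_lit 1000, nat_lit 904, nat_lit 760)], (nat_lit 99, nat_lit 97, nat_lit 100)⟩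
noncomputable def p074_k39 : C1.Kn := ⟨[nat_lit 60, nat_lit 100, nat_lit 160], [nat_lit 0, nat_lit 909, nat_lit 3774], [(nat_lit 0, nat_lit 0, nat_lit 0), (nat_lit 1000, nat_lit 858, nat_lit 354), (nat_lit 1000, nat_lit 858, nat_lit 746)], (nat_lit 95, nat_lit 100, nat_lit 99)⟩
noncomputable def p074_k40 : C1.Kn := ⟨[nat_lit 60, nat_lit 120, nat_lit 160], [nat_lit 0, nat_lit 1362, nat_lit 4228], [(nat_lit 0, nat_lit 0, nat_lit 0), (nat_lit 1000, nat_lit 858, nat_lit 354), (nat_lit 895, nat_lit 904, nat_lit 1000)], (nat_lit 95, nat_lit 100, nat_lit 99)⟩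
noncomputable def p074_k41 : C1.Kn := ⟨[nat_lit 60, nat_lit 120, nat_lit 160], [nat_lit 0, nat_lit 913, nat_lit 3885], [(nat_lit 0, nat_lit 0, nat_lit 0), (nat_lit 1000, nat_lit 905, nat_lit 238), (nat_lit 886, nat_lit 948, nat_lit 1000)], (nat_lit 99, nat_lit 97, nat_lit 100)⟩
noncomputable def p074_k42 : C1.Kn := ⟨[nat_lit 60, nat_lit 120, nat_lit 180], [nat_lit 0, nat_lit 0, nat_lit 4796], [(nat_lit 0, nat_lit 0, nat_lit 0), (nat_lit 0, nat_lit 0, nat_lit 0), (nat_lit 802, nat_lit 1000, nat_lit 999)], (nat_lit 100, nat_lit 86, nat_lit 96)⟩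
noncomputable def p074_k43 : C1.Kn := ⟨[nat_lit 60, nat_lit 160], [nat_lit 0, nat_lit 1523], [(nat_lit 0, nat_lit 0, nat_lit 0), (nat_lit 1000, nat_lit 905, nat_lit 238)], (nat_lit 99, nat_lit 97, nat_lit 100)⟩
noncomputable def p074_k44 : C1.Kn := ⟨[nat_lit 60, nat_lit 100, nat_lit 160], [nat_lit 0, nat_lit 909, nat_lit 3774], [(nat_lit 0, nat_lit 0, nat_lit 0), (nat_lit 1000, nat_lit 858, nat_lit 354), (nat_lit 1000, nat_lit 858, nat_lit 746)], (nat_lit 93, nat_lit 100, nat_lit 97)⟩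
noncomputable def p074_k45 : C1.Kn := ⟨[nat_lit 60, nat_lit 100, nat_lit 160], [nat_lit 0, nat_lit 609, nat_lit 3531], [(nat_lit 0, nat_lit 0, nat_lit 0), (nat_lit 1000, nat_lit 905, nat_lit 238), (nat_lit 1000, nat_lit 904, nat_lit 760)], (nat_lit 100, nat_lit 100, nat_lit 100)⟩
noncomputable def p074_k46 : C1.Kn := ⟨[nat_lit 60, nat_lit 120, nat_lit 160], [nat_lit 0, nat_lit 1362, nat_lit 4228], [(nat_lit 0, nat_lit 0, nat_lit 0), (nat_lit 1000, nat_lit 858, nat_lit 354), (nat_lit 895, nat_lit 904, nat_lit 1000)], (nat_lit 93, nat_lit 100, nat_lit 97)⟩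
noncomputable def p074_k47 : C1.Kn := ⟨[nat_lit 60, nat_lit 120, nat_lit 160], [nat_lit 0, nat_lit 913, nat_lit 3885], [(nat_lit 0, nat_lit 0, nat_lit 0), (nat_lit 1000, nat_lit 905, nat_lit 238), (nat_lit 886, nat_lit 948, nat_lit 1000)], (nat_lit 100, nat_lit 100, nat_lit 100)⟩
noncomputable def p074_l0 : Lf2 := ⟨nat_lit 0, nat_lit 14, [nat_lit 119, nat_lit 5, nat_lit 5, nat_lit 20], false, nat_lit 0, nat_lit 160, nat_lit 0, nat_lit 336, ⟨nat_lit 1000, nat_lit 0, nat_lit 0, nat_lit 0, nat_lit 0, nat_lit 0, nat_lit 0, nat_lit 0, nat_lit 0, nat_lit 0, nat_lit 0, nat_lit 0, nat_lit 0, nat_lit 0, nat_lit 0, nat_lit 0, false, false⟩,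
 nat_lit 0, nat_lit 10494, nat_lit 0, nat_lit 15408, nat_lit 6677, nat_lit 7925, nat_lit 1320, nat_lit 0, nat_lit 0, nat_lit 1037, nat_lit 0, nat_lit 0, nat_lit 0, nat_lit 0, nat_lit 0, nat_lit 0, nat_lit 0, nat_lit 0, [],
 ⟨p074_k0, nat_lit 0, nat_lit 0, nat_lit 223, nat_lit 0, nat_lit 67611, [nat_lit 3282000000, nat_lit 6250000000, nat_lit 9842000000], [], [nat_lit 21060364050, nat_lit 22999051151, nat_lit 23607571684, nat_lit 25364675746, nat_lit 16677936251, nat_lit 18313879055, nat_lit 19816485360, nat_lit 21286203586], nat_lit 1271250, nat_lit 1271250, nat_lit 382400, nat_lit 1731000, nat_lit 0, nat_lit 1100001, [nat_lit 780000, nat_lit 1435000, nat_lit 1271250], [nat_lit 8, nat_lit 40, nat_lit 40, nat_lit 80, nat_lit 1, nat_lit 317, nat_lit 100, nat_lit 9]⟩, ⟨p074_k0, nat_lit 0, nat_lit 0, nat_lit 192, nat_lit 0, nat_lit 0, [nat_lit 3282000000, nat_lit 6250000000, nat_lit 9842000000], [], [nat_lit 23487447265,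 nat_lit 24569757031, nat_lit 25192545125, nat_lit 25983387100, nat_lit 26909713257, nat_lit 27472724067, nat_lit 26647625760, nat_lit 27276971105], nat_lit 0, nat_lit 0, nat_lit 0, nat_lit 0, nat_lit 0, nat_lit 0, [], [nat_lit 8, nat_lit 40, nat_lit 40, nat_lit 80, nat_lit 1, nat_lit 373, nat_lit 150, nat_lit 11]⟩,
 zbF0, [⟨nat_lit 0, nat_lit 100, nat_lit 97, nat_lit 94, nat_lit 476984289⟩, ⟨nat_lit 19, nat_lit 100, nat_lit 91, nat_lit 96, nat_lit 217384848⟩]⟩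
noncomputable def p074_l1 : Lf2 := ⟨nat_lit 0, nat_lit 14, [nat_lit 119, nat_lit 5, nat_lit 5, nat_lit 20], false, nat_lit 0, nat_lit 160, nat_lit 0, nat_lit 328, ⟨nat_lit 1000, nat_lit 0, nat_lit 0, nat_lit 0, nat_lit 0, nat_lit 0, nat_lit 0, nat_lit 0, nat_lit 0, nat_lit 0, nat_lit 0, nat_lit 0, nat_lit 0, nat_lit 0, nat_lit 0, nat_lit 0, false, false⟩,
 nat_lit 0, nat_lit 12628, nat_lit 0, nat_lit 3890, nat_lit 8386, nat_lit 7305, nat_lit 1439, nat_lit 0, nat_lit 0, nat_lit 1041, nat_lit 0, nat_lit 0, nat_lit 0, nat_lit 7203444879260, nat_lit 0, nat_lit 0, nat_lit 0, nat_lit 0, [],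
 ⟨p074_k1, nat_lit 0, nat_lit 0, nat_lit 298, nat_lit 0, nat_lit 153256, [nat_lit 3282000000, nat_lit 6250000000, nat_lit 9842000000], [], [nat_lit 20194187382, nat_lit 21302987904, nat_lit 23993616438, nat_lit 25307538052, nat_lit 15748539692, nat_lit 16615879332, nat_lit 31210140924, nat_lit 29335869924], nat_lit 1271250, nat_lit 1271250, nat_lit 490000, nat_lit 1740000, nat_lit 0, nat_lit 1100001, [nat_lit 780000, nat_lit 1435000, nat_lit 1271250], [nat_lit 8, nat_lit 40, nat_lit 40, nat_lit 80, nat_lit 1, nat_lit 317, nat_lit 100, nat_lit 9]⟩, ⟨p074_k1, nat_lit 0, nat_lit 0, nat_lit 187, nat_lit 0, nat_lit 0, [nat_lit 3282000000, nat_lit 6250000000, nat_lit 9842000000], [], [nat_lit 22584269535, nat_lit 23595836470, nat_lit 24986755735, nat_lit 25740480170, nat_lit 25363431031, nat_lit 25911785639, nat_lit 26245450047, nat_lit 26888684600], nat_lit 0, nat_lit 0, nat_lit 0, nat_lit 0, nat_lit 0, nat_lit 0, [],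 [nat_lit 8, nat_lit 40, nat_lit 40, nat_lit 80, nat_lit 1, nat_lit 373, nat_lit 150, nat_lit 11]⟩,
 zbF0, [⟨nat_lit 0, nat_lit 100, nat_lit 100, nat_lit 100, nat_lit 66456930⟩, ⟨nat_lit 7, nat_lit 97, nat_lit 100, nat_lit 98, nat_lit 209184324⟩]⟩
noncomputable def p074_l2 : Lf2 := ⟨nat_lit 1, nat_lit 20, [nat_lit 5, nat_lit 5, nat_lit 5, nat_lit 20], false, nat_lit 0, nat_lit 160, nat_lit 0, nat_lit 336, zbN0,
 nat_lit 0, nat_lit 0, nat_lit 0, nat_lit 0, nat_lit 0, nat_lit 0, nat_lit 0, nat_lit 0, nat_lit 0, nat_lit 0, nat_lit 0, nat_lit 0, nat_lit 0, nat_lit 0, nat_lit 0, nat_lit 0, nat_lit 0, nat_lit 0, [],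
 C1.Rw.none, C1.Rw.none,
 zbF0, []⟩
noncomputable def p074_l3 : Lf2 := ⟨nat_lit 0, nat_lit 20, [nat_lit 5, nat_lit 5, nat_lit 5, nat_lit 20], false, nat_lit 0, nat_lit 160, nat_lit 0, nat_lit 336, ⟨nat_lit 1000, nat_lit 0, nat_lit 0, nat_lit 0, nat_lit 0, nat_lit 0, nat_lit 0, nat_lit 0, nat_lit 0, nat_lit 0, nat_lit 0, nat_lit 0, nat_lit 0, nat_lit 0, nat_lit 0, nat_lit 0, false, false⟩,
 nat_lit 0, nat_lit 10826, nat_lit 0, nat_lit 13045, nat_lit 7494, nat_lit 7868, nat_lit 1347, nat_lit 0, nat_lit 0, nat_lit 1090, nat_lit 0, nat_lit 0, nat_lit 0, nat_lit 3500977597535, nat_lit 0, nat_lit 0, nat_lit 0, nat_lit 0, [],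
 ⟨p074_k2, nat_lit 0, nat_lit 0, nat_lit 326, nat_lit 0, nat_lit 227790, [nat_lit 3282000000, nat_lit 6250000000, nat_lit 9842000000], [], [nat_lit 20423408626, nat_lit 20937599475, nat_lit 19914355522, nat_lit 20493253768, nat_lit 15846063978, nat_lit 16250190758, nat_lit 20122260394, nat_lit 19262751052], nat_lit 1271250, nat_lit 1271250, nat_lit 490000, nat_lit 1100001, nat_lit 0, nat_lit 1100001, [nat_lit 780000, nat_lit 1435000, nat_lit 1271250], [nat_lit 8, nat_lit 40, nat_lit 40, nat_lit 80, nat_lit 1, nat_lit 317, nat_lit 100, nat_lit 9]⟩, ⟨p074_k3, nat_lit 0, nat_lit 0, nat_lit 232, nat_lit 0, nat_lit 0, [nat_lit 3282000000, nat_lit 6250000000, nat_lit 11872000000], [], [nat_lit 25088310734, nat_lit 27400728334, nat_lit 24223059118, nat_lit 26282003978, nat_lit 26570704971, nat_lit 27783008979, nat_lit 25155916474, nat_lit 26665174826], nat_lit 0, nat_lit 0, nat_lit 0, nat_lit 0, nat_lit 0, nat_lit 0, [],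 [nat_lit 23, nat_lit 40, nat_lit 40, nat_lit 80, nat_lit 12, nat_lit 456, nat_lit 225, nat_lit 12]⟩,
 zbF0, [⟨nat_lit 0, nat_lit 95, nat_lit 95, nat_lit 100, nat_lit 432928092⟩, ⟨nat_lit 7, nat_lit 95, nat_lit 100, nat_lit 98, nat_lit 199043564⟩]⟩
noncomputable def p074_l4 : Lf2 := ⟨nat_lit 0, nat_lit 20, [nat_lit 5, nat_lit 5, nat_lit 5, nat_lit 20], false, nat_lit 0, nat_lit 160, nat_lit 0, nat_lit 336, ⟨nat_lit 1000, nat_lit 0, nat_lit 0, nat_lit 0, nat_lit 0, nat_lit 0, nat_lit 0, nat_lit 0, nat_lit 0, nat_lit 0, nat_lit 0, nat_lit 0, nat_lit 0, nat_lit 0, nat_lit 0, nat_lit 0, false, false⟩,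
 nat_lit 0, nat_lit 10040, nat_lit 0, nat_lit 10058, nat_lit 7093, nat_lit 7810, nat_lit 1289, nat_lit 0, nat_lit 0, nat_lit 1076, nat_lit 0, nat_lit 0, nat_lit 0, nat_lit 0, nat_lit 0, nat_lit 0, nat_lit 0, nat_lit 0, [],
 ⟨p074_k4, nat_lit 0, nat_lit 0, nat_lit 355, nat_lit 0, nat_lit 309779, [nat_lit 3282000000, nat_lit 6250000000, nat_lit 9842000000], [], [nat_lit 20572440524, nat_lit 21068872184, nat_lit 20201063268, nat_lit 20765552832, nat_lit 15993704370, nat_lit 16382431659, nat_lit 19268184069, nat_lit 18454666620], nat_lit 1271250, nat_lit 1271250, nat_lit 517650, nat_lit 1100001, nat_lit 0, nat_lit 1100001, [nat_lit 780000, nat_lit 1435000, nat_lit 1271250], [nat_lit 8, nat_lit 40, nat_lit 40, nat_lit 80, nat_lit 1, nat_lit 317, nat_lit 100, nat_lit 9]⟩, ⟨p074_k3, nat_lit 0, nat_lit 0, nat_lit 233, nat_lit 0, nat_lit 0, [nat_lit 3282000000, nat_lit 6250000000, nat_lit 11872000000], [], [nat_lit 25090822384,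 nat_lit 27839282689, nat_lit 24335933060, nat_lit 26795616500, nat_lit 26600488268, nat_lit 28042792187, nat_lit 25195618912, nat_lit 26999609621], nat_lit 0, nat_lit 0, nat_lit 0, nat_lit 0, nat_lit 0, nat_lit 0, [], [nat_lit 23, nat_lit 40, nat_lit 40, nat_lit 80, nat_lit 12, nat_lit 456, nat_lit 225, nat_lit 12]⟩,
 zbF0, [⟨nat_lit 0, nat_lit 100, nat_lit 96, nat_lit 99, nat_lit 467835553⟩, ⟨nat_lit 7, nat_lit 97, nat_lit 100, nat_lit 98, nat_lit 196333812⟩]⟩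
noncomputable def p074_l5 : Lf2 := ⟨nat_lit 0, nat_lit 20, [nat_lit 5, nat_lit 5, nat_lit 5, nat_lit 20], false, nat_lit 0, nat_lit 160, nat_lit 0, nat_lit 336, ⟨nat_lit 1000, nat_lit 0, nat_lit 0, nat_lit 0, nat_lit 0, nat_lit 0, nat_lit 0, nat_lit 0, nat_lit 0, nat_lit 0, nat_lit 0, nat_lit 0, nat_lit 0, nat_lit 0, nat_lit 0, nat_lit 0, false, false⟩,
 nat_lit 0, nat_lit 9627, nat_lit 0, nat_lit 8999, nat_lit 6940, nat_lit 7742, nat_lit 1214, nat_lit 0, nat_lit 0, nat_lit 1063, nat_lit 0, nat_lit 0, nat_lit 0, nat_lit 0, nat_lit 0, nat_lit 0, nat_lit 0, nat_lit 0, [],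
 ⟨p074_k5, nat_lit 0, nat_lit 0, nat_lit 424, nat_lit 0, nat_lit 387938, [nat_lit 3282000000, nat_lit 6250000000, nat_lit 9842000000], [], [nat_lit 21049902395, nat_lit 21534561228, nat_lit 20738806330, nat_lit 21284467440, nat_lit 16590868498, nat_lit 16846999597, nat_lit 18024267100, nat_lit 17228297680], nat_lit 1271250, nat_lit 1271250, nat_lit 545600, nat_lit 1100001, nat_lit 0, nat_lit 1100001, [nat_lit 780000, nat_lit 1435000, nat_lit 1271250], [nat_lit 8, nat_lit 40, nat_lit 40, nat_lit 80, nat_lit 1, nat_lit 317, nat_lit 100, nat_lit 9]⟩, ⟨p074_k3, nat_lit 0, nat_lit 0, nat_lit 233, nat_lit 0, nat_lit 0, [nat_lit 3282000000, nat_lit 6250000000, nat_lit 11872000000], [], [nat_lit 25079734387, nat_lit 28253054796, nat_lit 24435527617, nat_lit 27290043393, nat_lit 26624728028, nat_lit 28291060072, nat_lit 25333242531, nat_lit 27337084512], nat_lit 0, nat_lit 0, nat_lit 0, nat_lit 0, nat_lit 0, nat_lit 0, [],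 [nat_lit 23, nat_lit 40, nat_lit 40, nat_lit 80, nat_lit 12, nat_lit 456, nat_lit 225, nat_lit 12]⟩,
 zbF0, [⟨nat_lit 0, nat_lit 98, nat_lit 92, nat_lit 100, nat_lit 612148738⟩, ⟨nat_lit 7, nat_lit 98, nat_lit 100, nat_lit 99, nat_lit 191872954⟩]⟩
noncomputable def p074_l6 : Lf2 := ⟨nat_lit 0, nat_lit 20, [nat_lit 5, nat_lit 5, nat_lit 5, nat_lit 20], false, nat_lit 0, nat_lit 160, nat_lit 0, nat_lit 336, ⟨nat_lit 1000, nat_lit 0, nat_lit 0, nat_lit 0, nat_lit 0, nat_lit 0, nat_lit 0, nat_lit 0, nat_lit 0, nat_lit 0, nat_lit 0, nat_lit 0, nat_lit 0, nat_lit 0, nat_lit 0, nat_lit 0, false, false⟩,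
 nat_lit 0, nat_lit 9005, nat_lit 0, nat_lit 7210, nat_lit 6622, nat_lit 7704, nat_lit 1167, nat_lit 0, nat_lit 0, nat_lit 1048, nat_lit 0, nat_lit 0, nat_lit 0, nat_lit 0, nat_lit 0, nat_lit 0, nat_lit 0, nat_lit 0, [],
 ⟨p074_k6, nat_lit 0, nat_lit 0, nat_lit 447, nat_lit 0, nat_lit 462432, [nat_lit 3282000000, nat_lit 6250000000, nat_lit 9842000000], [], [nat_lit 21161937399, nat_lit 21627920011, nat_lit 21016462938, nat_lit 21570135216, nat_lit 16584735598, nat_lit 16940379561, nat_lit 19201786255, nat_lit 18452162611], nat_lit 1271250, nat_lit 1271250, nat_lit 602400, nat_lit 1100001, nat_lit 0, nat_lit 1100001, [nat_lit 780000, nat_lit 1435000, nat_lit 1271250], [nat_lit 8, nat_lit 40, nat_lit 40, nat_lit 80, nat_lit 1, nat_lit 317, nat_lit 100, nat_lit 9]⟩, ⟨p074_k3, nat_lit 0, nat_lit 0, nat_lit 232, nat_lit 0, nat_lit 0, [nat_lit 3282000000, nat_lit 6250000000, nat_lit 11872000000], [], [nat_lit 25021686607,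 nat_lit 28601464431, nat_lit 24565369704, nat_lit 27818020232, nat_lit 26559382471, nat_lit 28443499046, nat_lit 25495234108, nat_lit 27656151271], nat_lit 0, nat_lit 0, nat_lit 0, nat_lit 0, nat_lit 0, nat_lit 0, [], [nat_lit 23, nat_lit 40, nat_lit 40, nat_lit 80, nat_lit 12, nat_lit 456, nat_lit 225, nat_lit 12]⟩,
 zbF0, [⟨nat_lit 0, nat_lit 95, nat_lit 89, nat_lit 100, nat_lit 523057788⟩, ⟨nat_lit 7, nat_lit 100, nat_lit 100, nat_lit 100, nat_lit 186995213⟩]⟩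
noncomputable def p074_l7 : Lf2 := ⟨nat_lit 0, nat_lit 20, [nat_lit 5, nat_lit 5, nat_lit 5, nat_lit 20], false, nat_lit 0, nat_lit 160, nat_lit 0, nat_lit 336, ⟨nat_lit 1000, nat_lit 0, nat_lit 0, nat_lit 0, nat_lit 0, nat_lit 0, nat_lit 0, nat_lit 0, nat_lit 0, nat_lit 0, nat_lit 0, nat_lit 0, nat_lit 0, nat_lit 0, nat_lit 0, nat_lit 0, false, false⟩,
 nat_lit 0, nat_lit 10836, nat_lit 0, nat_lit 0, nat_lit 7501, nat_lit 7815, nat_lit 974, nat_lit 0, nat_lit 0, nat_lit 1002, nat_lit 0, nat_lit 0, nat_lit 0, nat_lit 2473442190196, nat_lit 0, nat_lit 0, nat_lit 0, nat_lit 0, [],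
 ⟨p074_k2, nat_lit 0, nat_lit 0, nat_lit 438, nat_lit 0, nat_lit 503741, [nat_lit 3282000000, nat_lit 6250000000, nat_lit 9842000000], [], [nat_lit 27270208836, nat_lit 24725550376, nat_lit 25504176094, nat_lit 27035092828, nat_lit 19087193032, nat_lit 20039559622, nat_lit 21942085646, nat_lit 21418939510], nat_lit 1271250, nat_lit 1271250, nat_lit 1100001, nat_lit 1785000, nat_lit 0, nat_lit 1100001, [nat_lit 780000, nat_lit 1435000, nat_lit 1271250], [nat_lit 8, nat_lit 40, nat_lit 40, nat_lit 80, nat_lit 1, nat_lit 317, nat_lit 100, nat_lit 9]⟩, ⟨p074_k3, nat_lit 0, nat_lit 0, nat_lit 211, nat_lit 0, nat_lit 0, [nat_lit 3282000000, nat_lit 6250000000, nat_lit 11872000000], [], [nat_lit 25047483690, nat_lit 28328331770, nat_lit 27365960070, nat_lit 30113290470, nat_lit 25883437743, nat_lit 27598335545, nat_lit 26727643808, nat_lit 29158102945], nat_lit 0, nat_lit 0, nat_lit 0, nat_lit 0, nat_lit 0, nat_lit 0,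 [], [nat_lit 23, nat_lit 40, nat_lit 40, nat_lit 80, nat_lit 12, nat_lit 456, nat_lit 225, nat_lit 12]⟩,
 zbF0, [⟨nat_lit 7, nat_lit 100, nat_lit 100, nat_lit 100, nat_lit 178513064⟩]⟩
noncomputable def p074_l8 : Lf2 := ⟨nat_lit 0, nat_lit 14, [nat_lit 119, nat_lit 5, nat_lit 5, nat_lit 20], false, nat_lit 160, nat_lit 336, nat_lit 0, nat_lit 160, ⟨nat_lit 1000, nat_lit 0, nat_lit 0, nat_lit 0, nat_lit 0, nat_lit 0, nat_lit 0, nat_lit 0, nat_lit 0, nat_lit 0, nat_lit 0, nat_lit 0, nat_lit 0, nat_lit 0, nat_lit 0, nat_lit 0, false, false⟩,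
 nat_lit 0, nat_lit 9213, nat_lit 0, nat_lit 14976, nat_lit 5862, nat_lit 6695, nat_lit 983, nat_lit 0, nat_lit 0, nat_lit 1324, nat_lit 0, nat_lit 0, nat_lit 0, nat_lit 23310836731713, nat_lit 0, nat_lit 0, nat_lit 0, nat_lit 0, [],
 ⟨p074_k0, nat_lit 0, nat_lit 0, nat_lit 192, nat_lit 0, nat_lit 162915, [nat_lit 3282000000, nat_lit 6250000000, nat_lit 9842000000], [], [nat_lit 19513274232, nat_lit 20867586069, nat_lit 24619615184, nat_lit 22760556655, nat_lit 27459525422, nat_lit 28439351940, nat_lit 28148327879, nat_lit 29036650145], nat_lit 1271250, nat_lit 1271250, nat_lit 382400, nat_lit 1731000, nat_lit 1271250, nat_lit 1271250, [nat_lit 780000, nat_lit 1435000, nat_lit 1271250], [nat_lit 8, nat_lit 40, nat_lit 40, nat_lit 80, nat_lit 1, nat_lit 373, nat_lit 150, nat_lit 10]⟩, ⟨p074_k0, nat_lit 0, nat_lit 0, nat_lit 198, nat_lit 0, nat_lit 0, [nat_lit 3282000000, nat_lit 6250000000, nat_lit 9842000000], [],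 [nat_lit 21043672236, nat_lit 22985617978, nat_lit 23604948940, nat_lit 25364933110, nat_lit 16640909665, nat_lit 18298604118, nat_lit 19795275600, nat_lit 21267271510], nat_lit 0, nat_lit 0, nat_lit 0, nat_lit 0, nat_lit 0, nat_lit 0, [], [nat_lit 8, nat_lit 40, nat_lit 40, nat_lit 80, nat_lit 1, nat_lit 317, nat_lit 100, nat_lit 9]⟩,
 zbF0, [⟨nat_lit 0, nat_lit 100, nat_lit 100, nat_lit 100, nat_lit 396239060⟩, ⟨nat_lit 4, nat_lit 94, nat_lit 100, nat_lit 97, nat_lit 457189222⟩]⟩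
noncomputable def p074_l9 : Lf2 := ⟨nat_lit 0, nat_lit 12, [nat_lit 126, nat_lit 5, nat_lit 5, nat_lit 20], false, nat_lit 160, nat_lit 336, nat_lit 160, nat_lit 336, ⟨nat_lit 1000, nat_lit 0, nat_lit 0, nat_lit 0, nat_lit 0, nat_lit 0, nat_lit 0, nat_lit 0, nat_lit 0, nat_lit 0, nat_lit 0, nat_lit 0, nat_lit 0, nat_lit 0, nat_lit 0, nat_lit 0, false, false⟩,
 nat_lit 0, nat_lit 12223, nat_lit 0, nat_lit 34472, nat_lit 7777, nat_lit 4704, nat_lit 1014, nat_lit 0, nat_lit 0, nat_lit 0, nat_lit 0, nat_lit 0, nat_lit 0, nat_lit 0, nat_lit 0, nat_lit 0, nat_lit 0, nat_lit 0, [],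
 ⟨p074_k7, nat_lit 0, nat_lit 0, nat_lit 159, nat_lit 0, nat_lit 63265, [nat_lit 3282000000, nat_lit 6250000000, nat_lit 9842000000], [], [nat_lit 17936324721, nat_lit 19730524799, nat_lit 17135686542, nat_lit 18698008252, nat_lit 27071503707, nat_lit 28186886258, nat_lit 28806939217, nat_lit 26418168273], nat_lit 1271250, nat_lit 1271250, nat_lit 382400, nat_lit 1100001, nat_lit 1100001, nat_lit 2607000, [nat_lit 780000, nat_lit 1435000, nat_lit 1271250], [nat_lit 8, nat_lit 40, nat_lit 40, nat_lit 80, nat_lit 1, nat_lit 345, nat_lit 125, nat_lit 10]⟩, ⟨p074_k7, nat_lit 0, nat_lit 0, nat_lit 86, nat_lit 0, nat_lit 0, [nat_lit 3282000000, nat_lit 6250000000, nat_lit 9842000000], [], [nat_lit 12800065991, nat_lit 13735266018, nat_lit 13951609152, nat_lit 14771234032, nat_lit 23325412809, nat_lit 23931147144, nat_lit 23257489159, nat_lit 23795859300], nat_lit 0, nat_lit 0, nat_lit 0, nat_lit 0, nat_lit 0, nat_lit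 0, [], [nat_lit 8, nat_lit 40, nat_lit 40, nat_lit 80, nat_lit 1, nat_lit 345, nat_lit 125, nat_lit 10]⟩,
 zbF0, [⟨nat_lit 0, nat_lit 100, nat_lit 97, nat_lit 94, nat_lit 651081712⟩, ⟨nat_lit 4, nat_lit 94, nat_lit 100, nat_lit 97, nat_lit 483144990⟩, ⟨nat_lit 7, nat_lit 91, nat_lit 100, nat_lit 96, nat_lit 504995143⟩]⟩
noncomputable def p074_l10 : Lf2 := ⟨nat_lit 0, nat_lit 12, [nat_lit 126, nat_lit 5, nat_lit 5, nat_lit 20], false, nat_lit 160, nat_lit 336, nat_lit 160, nat_lit 336, ⟨nat_lit 1000, nat_lit 0, nat_lit 0, nat_lit 0, nat_lit 0, nat_lit 0, nat_lit 0, nat_lit 0, nat_lit 0, nat_lit 0, nat_lit 0, nat_lit 0, nat_lit 0, nat_lit 0, nat_lit 0, nat_lit 0, false, false⟩,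
 nat_lit 0, nat_lit 7768, nat_lit 0, nat_lit 38632, nat_lit 4943, nat_lit 4995, nat_lit 0, nat_lit 0, nat_lit 0, nat_lit 0, nat_lit 0, nat_lit 0, nat_lit 0, nat_lit 0, nat_lit 0, nat_lit 0, nat_lit 0, nat_lit 0, [],
 ⟨p074_k7, nat_lit 0, nat_lit 0, nat_lit 94, nat_lit 0, nat_lit 63265, [nat_lit 3282000000, nat_lit 6250000000, nat_lit 9842000000], [], [nat_lit 13624510884, nat_lit 15310291554, nat_lit 17074481872, nat_lit 18505899776, nat_lit 23130415153, nat_lit 24231509631, nat_lit 25082091217, nat_lit 26117328271], nat_lit 1271250, nat_lit 1271250, nat_lit 1100001, nat_lit 1785000, nat_lit 1271250, nat_lit 1271250, [nat_lit 780000, nat_lit 1435000, nat_lit 1271250], [nat_lit 8, nat_lit 40, nat_lit 40, nat_lit 80, nat_lit 1, nat_lit 373, nat_lit 150, nat_lit 10]⟩, ⟨p074_k7, nat_lit 0, nat_lit 0, nat_lit 48, nat_lit 0, nat_lit 0, [nat_lit 3282000000, nat_lit 6250000000, nat_lit 9842000000], [], [nat_lit 13553343060,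 nat_lit 14401295335, nat_lit 17015134480, nat_lit 17734861160, nat_lit 23102767253, nat_lit 23655963902, nat_lit 25107152533, nat_lit 25628041527], nat_lit 0, nat_lit 0, nat_lit 0, nat_lit 0, nat_lit 0, nat_lit 0, [], [nat_lit 8, nat_lit 40, nat_lit 40, nat_lit 80, nat_lit 1, nat_lit 373, nat_lit 150, nat_lit 10]⟩,
 zbF0, [⟨nat_lit 4, nat_lit 94, nat_lit 100, nat_lit 97, nat_lit 496749671⟩, ⟨nat_lit 7, nat_lit 91, nat_lit 100, nat_lit 96, nat_lit 511797228⟩]⟩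
noncomputable def p074_l11 : Lf2 := ⟨nat_lit 1, nat_lit 14, [nat_lit 119, nat_lit 5, nat_lit 5, nat_lit 20], false, nat_lit 160, nat_lit 336, nat_lit 160, nat_lit 336, zbN0,
 nat_lit 0, nat_lit 0, nat_lit 0, nat_lit 0, nat_lit 0, nat_lit 0, nat_lit 0, nat_lit 0, nat_lit 0, nat_lit 0, nat_lit 0, nat_lit 0, nat_lit 0, nat_lit 0, nat_lit 0, nat_lit 0, nat_lit 0, nat_lit 0, [],
 C1.Rw.none, C1.Rw.none,
 zbF0, []⟩
noncomputable def p074_l12 : Lf2 := ⟨nat_lit 0, nat_lit 14, [nat_lit 119, nat_lit 5, nat_lit 5, nat_lit 20], false, nat_lit 160, nat_lit 328, nat_lit 160, nat_lit 328, ⟨nat_lit 1000, nat_lit 0, nat_lit 0, nat_lit 0, nat_lit 0, nat_lit 0, nat_lit 0, nat_lit 0, nat_lit 0, nat_lit 0, nat_lit 0, nat_lit 0, nat_lit 0, nat_lit 0, nat_lit 0, nat_lit 0, false, false⟩,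
 nat_lit 0, nat_lit 21272, nat_lit 0, nat_lit 26316, nat_lit 14127, nat_lit 4839, nat_lit 0, nat_lit 0, nat_lit 0, nat_lit 0, nat_lit 0, nat_lit 0, nat_lit 0, nat_lit 35307807478416, nat_lit 0, nat_lit 0, nat_lit 0, nat_lit 0, [],
 ⟨p074_k8, nat_lit 0, nat_lit 0, nat_lit 142, nat_lit 0, nat_lit 62056, [nat_lit 3282000000, nat_lit 9842000000], [], [nat_lit 20344790495, nat_lit 21012642649, nat_lit 25681262311, nat_lit 24039344673, nat_lit 31208566603, nat_lit 31608765348, nat_lit 29688317656, nat_lit 30170594737], nat_lit 1271250, nat_lit 1271250, nat_lit 490000, nat_lit 1740000, nat_lit 1271250, nat_lit 1271250, [nat_lit 780000, nat_lit 2090000], [nat_lit 82, nat_lit 40, nat_lit 40, nat_lit 80, nat_lit 63, nat_lit 373, nat_lit 150, nat_lit 10]⟩, ⟨p074_k8, nat_lit 0, nat_lit 0, nat_lit 49, nat_lit 0, nat_lit 0, [nat_lit 3282000000, nat_lit 9842000000], [], [nat_lit 13384129735, nat_lit 13851984041, nat_lit 17900850152,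 nat_lit 18254686900, nat_lit 22953050129, nat_lit 23263678878, nat_lit 25117796474, nat_lit 25357823420], nat_lit 0, nat_lit 0, nat_lit 0, nat_lit 0, nat_lit 0, nat_lit 0, [], [nat_lit 82, nat_lit 40, nat_lit 40, nat_lit 80, nat_lit 63, nat_lit 373, nat_lit 150, nat_lit 10]⟩,
 zbF0, [⟨nat_lit 0, nat_lit 100, nat_lit 100, nat_lit 95, nat_lit 299927312⟩, ⟨nat_lit 4, nat_lit 95, nat_lit 100, nat_lit 98, nat_lit 552869175⟩, ⟨nat_lit 7, nat_lit 95, nat_lit 100, nat_lit 98, nat_lit 516906352⟩]⟩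
noncomputable def p074_l13 : Lf2 := ⟨nat_lit 0, nat_lit 14, [nat_lit 119, nat_lit 5, nat_lit 5, nat_lit 20], false, nat_lit 160, nat_lit 324, nat_lit 160, nat_lit 328, ⟨nat_lit 1000, nat_lit 0, nat_lit 0, nat_lit 0, nat_lit 0, nat_lit 0, nat_lit 0, nat_lit 0, nat_lit 0, nat_lit 0, nat_lit 0, nat_lit 0, nat_lit 0, nat_lit 0, nat_lit 0, nat_lit 0, false, false⟩,
 nat_lit 0, nat_lit 10290, nat_lit 0, nat_lit 5252, nat_lit 6978, nat_lit 4824, nat_lit 1055, nat_lit 0, nat_lit 0, nat_lit 0, nat_lit 0, nat_lit 0, nat_lit 0, nat_lit 2569239548443, nat_lit 0, nat_lit 0, nat_lit 0, nat_lit 0, [],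
 ⟨p074_k9, nat_lit 0, nat_lit 0, nat_lit 170, nat_lit 0, nat_lit 148763, [nat_lit 3282000000, nat_lit 6250000000, nat_lit 9842000000], [], [nat_lit 26370050815, nat_lit 25462900348, nat_lit 19770671778, nat_lit 20079455695, nat_lit 24829380535, nat_lit 25099863586, nat_lit 31994623192, nat_lit 31205699409], nat_lit 1271250, nat_lit 1271250, nat_lit 517650, nat_lit 1742250, nat_lit 1100001, nat_lit 2504250, [nat_lit 780000, nat_lit 1435000, nat_lit 1271250], [nat_lit 8, nat_lit 40, nat_lit 40, nat_lit 80, nat_lit 1, nat_lit 373, nat_lit 150, nat_lit 10]⟩, ⟨p074_k1, nat_lit 0, nat_lit 0, nat_lit 73, nat_lit 0, nat_lit 0, [nat_lit 3282000000, nat_lit 6250000000, nat_lit 9842000000], [], [nat_lit 13430005672, nat_lit 14359241896, nat_lit 17916810632, nat_lit 18623325168, nat_lit 22941326419, nat_lit 23558791948, nat_lit 25125990338, nat_lit 25605431456], nat_lit 0, nat_lit 0, nat_lit 0, nat_lit 0, nat_lit 0, nat_lit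 0, [], [nat_lit 8, nat_lit 40, nat_lit 40, nat_lit 80, nat_lit 1, nat_lit 373, nat_lit 150, nat_lit 10]⟩,
 zbF0, [⟨nat_lit 0, nat_lit 100, nat_lit 100, nat_lit 100, nat_lit 56340183⟩, ⟨nat_lit 16, nat_lit 100, nat_lit 98, nat_lit 99, nat_lit 38645660⟩, ⟨nat_lit 7, nat_lit 97, nat_lit 100, nat_lit 98, nat_lit 355014532⟩, ⟨nat_lit 11, nat_lit 79, nat_lit 79, nat_lit 100, nat_lit 192855513⟩]⟩
noncomputable def p074_l14 : Lf2 := ⟨nat_lit 1, nat_lit 20, [nat_lit 5, nat_lit 5, nat_lit 5, nat_lit 20], false, nat_lit 160, nat_lit 336, nat_lit 0, nat_lit 336, zbN0,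
 nat_lit 0, nat_lit 0, nat_lit 0, nat_lit 0, nat_lit 0, nat_lit 0, nat_lit 0, nat_lit 0, nat_lit 0, nat_lit 0, nat_lit 0, nat_lit 0, nat_lit 0, nat_lit 0, nat_lit 0, nat_lit 0, nat_lit 0, nat_lit 0, [],
 C1.Rw.none, C1.Rw.none,
 zbF0, []⟩
noncomputable def p074_l15 : Lf2 := ⟨nat_lit 0, nat_lit 20, [nat_lit 5, nat_lit 5, nat_lit 5, nat_lit 20], false, nat_lit 160, nat_lit 320, nat_lit 0, nat_lit 160, ⟨nat_lit 1000, nat_lit 0, nat_lit 0, nat_lit 0, nat_lit 0, nat_lit 0, nat_lit 0, nat_lit 0, nat_lit 0, nat_lit 0, nat_lit 0, nat_lit 0, nat_lit 0, nat_lit 0, nat_lit 0, nat_lit 0, false, false⟩,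
 nat_lit 0, nat_lit 10910, nat_lit 0, nat_lit 6909, nat_lit 7552, nat_lit 6483, nat_lit 327, nat_lit 0, nat_lit 0, nat_lit 1405, nat_lit 0, nat_lit 0, nat_lit 0, nat_lit 0, nat_lit 0, nat_lit 0, nat_lit 0, nat_lit 0, [],
 ⟨p074_k2, nat_lit 0, nat_lit 0, nat_lit 233, nat_lit 0, nat_lit 322200, [nat_lit 3282000000, nat_lit 6250000000, nat_lit 9842000000], [], [nat_lit 26153077472, nat_lit 26409182515, nat_lit 26226623203, nat_lit 27215316627, nat_lit 30420489795, nat_lit 31307209171, nat_lit 31029908301, nat_lit 30806632678], nat_lit 1271250, nat_lit 1271250, nat_lit 490000, nat_lit 1740000, nat_lit 1100001, nat_lit 2470000, [nat_lit 780000, nat_lit 1435000, nat_lit 1271250], [nat_lit 8, nat_lit 40, nat_lit 40, nat_lit 80, nat_lit 1, nat_lit 373, nat_lit 150, nat_lit 10]⟩, ⟨p074_k3, nat_lit 0, nat_lit 0, nat_lit 230, nat_lit 0, nat_lit 0, [nat_lit 3282000000, nat_lit 6250000000, nat_lit 11872000000], [], [nat_lit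 21088362479, nat_lit 22733233459, nat_lit 23635839036, nat_lit 25361901934, nat_lit 16490521339, nat_lit 18048648516, nat_lit 20045079440, nat_lit 21490249294], nat_lit 0, nat_lit 0, nat_lit 0, nat_lit 0, nat_lit 0, nat_lit 0, [], [nat_lit 23, nat_lit 40, nat_lit 40, nat_lit 80, nat_lit 12, nat_lit 401, nat_lit 175, nat_lit 10]⟩,
 zbF0, [⟨nat_lit 0, nat_lit 94, nat_lit 87, nat_lit 100, nat_lit 491139229⟩, ⟨nat_lit 4, nat_lit 100, nat_lit 93, nat_lit 97, nat_lit 396640318⟩]⟩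
noncomputable def p074_l16 : Lf2 := ⟨nat_lit 0, nat_lit 20, [nat_lit 5, nat_lit 5, nat_lit 5, nat_lit 20], false, nat_lit 160, nat_lit 320, nat_lit 160, nat_lit 336, ⟨nat_lit 1000, nat_lit 0, nat_lit 0, nat_lit 0, nat_lit 0, nat_lit 0, nat_lit 0, nat_lit 0, nat_lit 0, nat_lit 0, nat_lit 0, nat_lit 0, nat_lit 0, nat_lit 0, nat_lit 0, nat_lit 0, false, false⟩,
 nat_lit 0, nat_lit 12155, nat_lit 0, nat_lit 3317, nat_lit 8414, nat_lit 4859, nat_lit 732, nat_lit 0, nat_lit 0, nat_lit 0, nat_lit 0, nat_lit 0, nat_lit 0, nat_lit 0, nat_lit 0, nat_lit 0, nat_lit 0, nat_lit 0, [],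
 ⟨p074_k2, nat_lit 0, nat_lit 0, nat_lit 233, nat_lit 0, nat_lit 322200, [nat_lit 3282000000, nat_lit 6250000000, nat_lit 9842000000], [], [nat_lit 19679410828, nat_lit 21178687112, nat_lit 19005707788, nat_lit 20377544800, nat_lit 26705968296, nat_lit 27919308800, nat_lit 25993200132, nat_lit 26740531000], nat_lit 1271250, nat_lit 1271250, nat_lit 490000, nat_lit 780000, nat_lit 1100001, nat_lit 2470000, [nat_lit 780000, nat_lit 1435000, nat_lit 1271250], [nat_lit 8, nat_lit 40, nat_lit 40, nat_lit 80, nat_lit 1, nat_lit 345, nat_lit 125, nat_lit 9]⟩, ⟨p074_k3, nat_lit 0, nat_lit 0, nat_lit 80, nat_lit 0, nat_lit 0, [nat_lit 3282000000, nat_lit 6250000000, nat_lit 11872000000], [], [nat_lit 12423947444, nat_lit 14299906626, nat_lit 12759365728, nat_lit 14539419476, nat_lit 22967756120, nat_lit 24298815094, nat_lit 22807042028, nat_lit 23965336292], nat_lit 0, nat_lit 0, nat_lit 0, nat_lit 0, nat_lit 0, nat_lit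 0, [], [nat_lit 23, nat_lit 40, nat_lit 40, nat_lit 80, nat_lit 12, nat_lit 428, nat_lit 200, nat_lit 11]⟩,
 zbF0, [⟨nat_lit 0, nat_lit 100, nat_lit 94, nat_lit 97, nat_lit 564540544⟩, ⟨nat_lit 4, nat_lit 100, nat_lit 93, nat_lit 97, nat_lit 297288177⟩, ⟨nat_lit 7, nat_lit 94, nat_lit 100, nat_lit 97, nat_lit 339409897⟩, ⟨nat_lit 11, nat_lit 100, nat_lit 100, nat_lit 100, nat_lit 166967264⟩]⟩
noncomputable def p074_l17 : Lf2 := ⟨nat_lit 0, nat_lit 20, [nat_lit 5, nat_lit 5, nat_lit 5, nat_lit 20], false, nat_lit 160, nat_lit 320, nat_lit 160, nat_lit 336, ⟨nat_lit 1000, nat_lit 0, nat_lit 0, nat_lit 0, nat_lit 0, nat_lit 0, nat_lit 0, nat_lit 0, nat_lit 0, nat_lit 0, nat_lit 0, nat_lit 0, nat_lit 0, nat_lit 0, nat_lit 0, nat_lit 0, false, false⟩,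
 nat_lit 0, nat_lit 9444, nat_lit 0, nat_lit 7106, nat_lit 6538, nat_lit 4890, nat_lit 1011, nat_lit 0, nat_lit 0, nat_lit 0, nat_lit 0, nat_lit 0, nat_lit 0, nat_lit 0, nat_lit 0, nat_lit 0, nat_lit 0, nat_lit 0, [],
 ⟨p074_k2, nat_lit 0, nat_lit 0, nat_lit 216, nat_lit 0, nat_lit 322200, [nat_lit 3282000000, nat_lit 6250000000, nat_lit 9842000000], [], [nat_lit 19449033500, nat_lit 19387887350, nat_lit 20388813970, nat_lit 21582542998, nat_lit 24244894158, nat_lit 25260674750, nat_lit 31312206369, nat_lit 28351747665], nat_lit 1271250, nat_lit 1271250, nat_lit 780000, nat_lit 1762500, nat_lit 1100001, nat_lit 2470000, [nat_lit 780000, nat_lit 1435000, nat_lit 1271250], [nat_lit 8, nat_lit 40, nat_lit 40, nat_lit 80, nat_lit 1, nat_lit 373, nat_lit 150, nat_lit 10]⟩, ⟨p074_k3, nat_lit 0, nat_lit 0, nat_lit 62, nat_lit 0, nat_lit 0, [nat_lit 3282000000, nat_lit 6250000000, nat_lit 11872000000], [], [nat_lit 12717434880,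 nat_lit 14504065960, nat_lit 17134970560, nat_lit 18558198480, nat_lit 22793931880, nat_lit 23955694921, nat_lit 25110416664, nat_lit 26085118284], nat_lit 0, nat_lit 0, nat_lit 0, nat_lit 0, nat_lit 0, nat_lit 0, [], [nat_lit 23, nat_lit 40, nat_lit 40, nat_lit 80, nat_lit 12, nat_lit 456, nat_lit 225, nat_lit 11]⟩,
 zbF0, [⟨nat_lit 4, nat_lit 100, nat_lit 93, nat_lit 97, nat_lit 419877692⟩, ⟨nat_lit 7, nat_lit 94, nat_lit 100, nat_lit 97, nat_lit 500946147⟩, ⟨nat_lit 11, nat_lit 75, nat_lit 75, nat_lit 100, nat_lit 14688057⟩]⟩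
noncomputable def p074_l18 : Lf2 := ⟨nat_lit 0, nat_lit 20, [nat_lit 5, nat_lit 5, nat_lit 5, nat_lit 20], false, nat_lit 160, nat_lit 320, nat_lit 0, nat_lit 160, ⟨nat_lit 1000, nat_lit 0, nat_lit 0, nat_lit 0, nat_lit 0, nat_lit 0, nat_lit 0, nat_lit 0, nat_lit 0, nat_lit 0, nat_lit 0, nat_lit 0, nat_lit 0, nat_lit 0, nat_lit 0, nat_lit 0, false, false⟩,
 nat_lit 0, nat_lit 10564, nat_lit 0, nat_lit 1338, nat_lit 7313, nat_lit 6763, nat_lit 631, nat_lit 0, nat_lit 0, nat_lit 1325, nat_lit 0, nat_lit 0, nat_lit 0, nat_lit 15408866056728, nat_lit 0, nat_lit 0, nat_lit 0, nat_lit 0, [],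
 ⟨p074_k2, nat_lit 0, nat_lit 0, nat_lit 329, nat_lit 0, nat_lit 503741, [nat_lit 3282000000, nat_lit 6250000000, nat_lit 9842000000], [], [nat_lit 22385861084, nat_lit 23485915791, nat_lit 23675941657, nat_lit 24649658863, nat_lit 27353850061, nat_lit 28452890300, nat_lit 31038897069, nat_lit 28536575682], nat_lit 1271250, nat_lit 1271250, nat_lit 631250, nat_lit 1751250, nat_lit 1100001, nat_lit 2470000, [nat_lit 780000, nat_lit 1435000, nat_lit 1271250], [nat_lit 8, nat_lit 40, nat_lit 40, nat_lit 80, nat_lit 1, nat_lit 373, nat_lit 150, nat_lit 10]⟩, ⟨p074_k2, nat_lit 0, nat_lit 0, nat_lit 191, nat_lit 0, nat_lit 0, [nat_lit 3282000000, nat_lit 6250000000, nat_lit 9842000000], [], [nat_lit 19924491510, nat_lit 21803299040, nat_lit 23266644766, nat_lit 25539054240, nat_lit 15391854827, nat_lit 17116992269, nat_lit 18674109709, nat_lit 20154710203], nat_lit 0, nat_lit 0, nat_lit 0, nat_lit 0, nat_lit 0, nat_lit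 0, [], [nat_lit 8, nat_lit 40, nat_lit 40, nat_lit 80, nat_lit 1, nat_lit 317, nat_lit 100, nat_lit 9]⟩,
 zbF0, [⟨nat_lit 0, nat_lit 91, nat_lit 91, nat_lit 100, nat_lit 328621097⟩, ⟨nat_lit 4, nat_lit 100, nat_lit 93, nat_lit 97, nat_lit 420948402⟩]⟩
noncomputable def p074_l19 : Lf2 := ⟨nat_lit 0, nat_lit 20, [nat_lit 5, nat_lit 5, nat_lit 5, nat_lit 20], false, nat_lit 160, nat_lit 320, nat_lit 160, nat_lit 320, ⟨nat_lit 1000, nat_lit 0, nat_lit 0, nat_lit 0, nat_lit 0, nat_lit 0, nat_lit 0, nat_lit 0, nat_lit 0, nat_lit 0, nat_lit 0, nat_lit 0, nat_lit 0, nat_lit 0, nat_lit 0, nat_lit 0, false, false⟩,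
 nat_lit 0, nat_lit 9485, nat_lit 0, nat_lit 8290, nat_lit 6566, nat_lit 4879, nat_lit 1042, nat_lit 0, nat_lit 0, nat_lit 0, nat_lit 0, nat_lit 0, nat_lit 0, nat_lit 1501294053684, nat_lit 0, nat_lit 0, nat_lit 0, nat_lit 0, [],
 ⟨p074_k2, nat_lit 0, nat_lit 0, nat_lit 221, nat_lit 0, nat_lit 318876, [nat_lit 3282000000, nat_lit 6250000000, nat_lit 9842000000], [], [nat_lit 22812646088, nat_lit 21115604294, nat_lit 20117059040, nat_lit 20715241038, nat_lit 24337577540, nat_lit 24862581635, nat_lit 31062169280, nat_lit 29594668280], nat_lit 1271250, nat_lit 1271250, nat_lit 631250, nat_lit 1751250, nat_lit 1100001, nat_lit 2470000, [nat_lit 780000, nat_lit 1435000, nat_lit 1271250], [nat_lit 8, nat_lit 40, nat_lit 40, nat_lit 80, nat_lit 1, nat_lit 373, nat_lit 150, nat_lit 10]⟩, ⟨p074_k2, nat_lit 0, nat_lit 0, nat_lit 66, nat_lit 0, nat_lit 0, [nat_lit 3282000000, nat_lit 6250000000, nat_lit 9842000000], [], [nat_lit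 14398292831, nat_lit 15314492414, nat_lit 18569052928, nat_lit 19279816984, nat_lit 22873546499, nat_lit 23498135135, nat_lit 25098680770, nat_lit 25591910707], nat_lit 0, nat_lit 0, nat_lit 0, nat_lit 0, nat_lit 0, nat_lit 0, [], [nat_lit 8, nat_lit 40, nat_lit 40, nat_lit 80, nat_lit 1, nat_lit 373, nat_lit 150, nat_lit 10]⟩,
 zbF0, [⟨nat_lit 0, nat_lit 91, nat_lit 91, nat_lit 100, nat_lit 198126666⟩, ⟨nat_lit 4, nat_lit 100, nat_lit 97, nat_lit 98, nat_lit 291774637⟩, ⟨nat_lit 7, nat_lit 100, nat_lit 97, nat_lit 98, nat_lit 490587251⟩]⟩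
noncomputable def p074_l20 : Lf2 := ⟨nat_lit 0, nat_lit 20, [nat_lit 5, nat_lit 5, nat_lit 5, nat_lit 20], false, nat_lit 160, nat_lit 312, nat_lit 160, nat_lit 320, ⟨nat_lit 1000, nat_lit 0, nat_lit 0, nat_lit 0, nat_lit 0, nat_lit 0, nat_lit 0, nat_lit 0, nat_lit 0, nat_lit 0, nat_lit 0, nat_lit 0, nat_lit 0, nat_lit 0, nat_lit 0, nat_lit 0, false, false⟩,
 nat_lit 0, nat_lit 8474, nat_lit 0, nat_lit 4912, nat_lit 6109, nat_lit 4849, nat_lit 997, nat_lit 0, nat_lit 0, nat_lit 0, nat_lit 0, nat_lit 0, nat_lit 0, nat_lit 0, nat_lit 0, nat_lit 0, nat_lit 0, nat_lit 0, [],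
 ⟨p074_k5, nat_lit 0, nat_lit 0, nat_lit 314, nat_lit 0, nat_lit 475587, [nat_lit 3282000000, nat_lit 6250000000, nat_lit 9842000000], [], [nat_lit 20236394105, nat_lit 20174284713, nat_lit 21288414246, nat_lit 21768151042, nat_lit 24048690880, nat_lit 24561236059, nat_lit 28343249188, nat_lit 26956453039], nat_lit 1271250, nat_lit 1271250, nat_lit 689850, nat_lit 1755750, nat_lit 1100001, nat_lit 2401500, [nat_lit 780000, nat_lit 1435000, nat_lit 1271250], [nat_lit 8, nat_lit 40, nat_lit 40, nat_lit 80, nat_lit 1, nat_lit 373, nat_lit 150, nat_lit 10]⟩, ⟨p074_k2, nat_lit 0, nat_lit 0, nat_lit 67, nat_lit 0, nat_lit 0, [nat_lit 3282000000, nat_lit 6250000000, nat_lit 9842000000], [], [nat_lit 14478538431, nat_lit 16285197312, nat_lit 18598655968, nat_lit 20015548240, nat_lit 22852220916, nat_lit 24085785225, nat_lit 25115311870, nat_lit 26099209564], nat_lit 0, nat_lit 0, nat_lit 0, nat_lit 0, nat_lit 0, nat_lit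 0, [], [nat_lit 8, nat_lit 40, nat_lit 40, nat_lit 80, nat_lit 1, nat_lit 373, nat_lit 150, nat_lit 10]⟩,
 zbF0, [⟨nat_lit 0, nat_lit 90, nat_lit 88, nat_lit 100, nat_lit 332107807⟩, ⟨nat_lit 16, nat_lit 91, nat_lit 91, nat_lit 100, nat_lit 382398803⟩, ⟨nat_lit 19, nat_lit 94, nat_lit 88, nat_lit 100, nat_lit 455482432⟩]⟩
noncomputable def p074_l21 : Lf2 := ⟨nat_lit 0, nat_lit 20, [nat_lit 5, nat_lit 5, nat_lit 5, nat_lit 20], false, nat_lit 0, nat_lit 336, nat_lit 0, nat_lit 160, ⟨nat_lit 1000, nat_lit 0, nat_lit 0, nat_lit 0, nat_lit 0, nat_lit 0, nat_lit 0, nat_lit 0, nat_lit 0, nat_lit 0, nat_lit 0, nat_lit 0, nat_lit 0, nat_lit 0, nat_lit 0, nat_lit 0, false, false⟩,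
 nat_lit 0, nat_lit 10767, nat_lit 0, nat_lit 11896, nat_lit 6851, nat_lit 6484, nat_lit 855, nat_lit 0, nat_lit 0, nat_lit 1028, nat_lit 0, nat_lit 0, nat_lit 0, nat_lit 0, nat_lit 0, nat_lit 0, nat_lit 0, nat_lit 0, [],
 ⟨p074_k3, nat_lit 0, nat_lit 0, nat_lit 336, nat_lit 0, nat_lit 155355, [nat_lit 3282000000, nat_lit 6250000000, nat_lit 11872000000], [], [nat_lit 30037656253, nat_lit 31039040283, nat_lit 38075562025, nat_lit 39193351286, nat_lit 29546628838, nat_lit 30079673067, nat_lit 35247688496, nat_lit 35931323013], nat_lit 1271250, nat_lit 1271250, nat_lit 1271250, nat_lit 1271250, nat_lit 0, nat_lit 2373000, [nat_lit 780000, nat_lit 1435000, nat_lit 1271250], [nat_lit 23, nat_lit 40, nat_lit 40, nat_lit 80, nat_lit 12, nat_lit 538, nat_lit 300, nat_lit 13]⟩, ⟨p074_k3, nat_lit 0, nat_lit 0, nat_lit 240, nat_lit 0, nat_lit 0, [nat_lit 3282000000, nat_lit 6250000000, nat_lit 11872000000], [], [nat_lit 28677646252,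 nat_lit 29654246772, nat_lit 37406402976, nat_lit 38200975176, nat_lit 24601995884, nat_lit 25422821684, nat_lit 32641829952, nat_lit 33316317520], nat_lit 0, nat_lit 0, nat_lit 0, nat_lit 0, nat_lit 0, nat_lit 0, [], [nat_lit 23, nat_lit 40, nat_lit 40, nat_lit 80, nat_lit 12, nat_lit 456, nat_lit 225, nat_lit 11]⟩,
 zbF0, [⟨nat_lit 16, nat_lit 100, nat_lit 94, nat_lit 97, nat_lit 145196993⟩]⟩
noncomputable def p074_l22 : Lf2 := ⟨nat_lit 0, nat_lit 20, [nat_lit 5, nat_lit 5, nat_lit 5, nat_lit 20], false, nat_lit 0, nat_lit 320, nat_lit 0, nat_lit 160, ⟨nat_lit 1000, nat_lit 0, nat_lit 0, nat_lit 0, nat_lit 0, nat_lit 0, nat_lit 0, nat_lit 0, nat_lit 0, nat_lit 0, nat_lit 0, nat_lit 0, nat_lit 0, nat_lit 0, nat_lit 0, nat_lit 0, false, false⟩,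
 nat_lit 0, nat_lit 8476, nat_lit 0, nat_lit 0, nat_lit 5868, nat_lit 6762, nat_lit 744, nat_lit 0, nat_lit 0, nat_lit 1015, nat_lit 0, nat_lit 0, nat_lit 0, nat_lit 7085149304514, nat_lit 0, nat_lit 0, nat_lit 0, nat_lit 0, [],
 ⟨p074_k2, nat_lit 0, nat_lit 0, nat_lit 432, nat_lit 0, nat_lit 503741, [nat_lit 3282000000, nat_lit 6250000000, nat_lit 9842000000], [], [nat_lit 30903964224, nat_lit 31635588288, nat_lit 36619963208, nat_lit 37691160208, nat_lit 30534890344, nat_lit 30955532960, nat_lit 34315430616, nat_lit 34687871616], nat_lit 1271250, nat_lit 1271250, nat_lit 1271250, nat_lit 1271250, nat_lit 0, nat_lit 2260000, [nat_lit 780000, nat_lit 1435000, nat_lit 1271250], [nat_lit 8, nat_lit 40, nat_lit 40, nat_lit 80, nat_lit 1, nat_lit 428, nat_lit 200, nat_lit 12]⟩, ⟨p074_k3, nat_lit 0, nat_lit 0, nat_lit 242, nat_lit 0, nat_lit 0, [nat_lit 3282000000, nat_lit 6250000000, nat_lit 11872000000], [], [nat_lit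 28575706561, nat_lit 30566454281, nat_lit 37712469392, nat_lit 40192354072, nat_lit 24211394337, nat_lit 25880818137, nat_lit 32234595536, nat_lit 33600891184], nat_lit 0, nat_lit 0, nat_lit 0, nat_lit 0, nat_lit 0, nat_lit 0, [], [nat_lit 23, nat_lit 40, nat_lit 40, nat_lit 80, nat_lit 12, nat_lit 456, nat_lit 225, nat_lit 11]⟩,
 zbF0, [⟨nat_lit 4, nat_lit 100, nat_lit 93, nat_lit 97, nat_lit 153605898⟩]⟩
noncomputable def p074_l23 : Lf2 := ⟨nat_lit 0, nat_lit 20, [nat_lit 5, nat_lit 5, nat_lit 5, nat_lit 20], false, nat_lit 0, nat_lit 336, nat_lit 160, nat_lit 336, ⟨nat_lit 1000, nat_lit 0, nat_lit 0, nat_lit 0, nat_lit 0, nat_lit 0, nat_lit 0, nat_lit 0, nat_lit 0, nat_lit 0, nat_lit 0, nat_lit 0, nat_lit 0, nat_lit 0, nat_lit 0, nat_lit 0, false, false⟩,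
 nat_lit 0, nat_lit 10859, nat_lit 0, nat_lit 8285, nat_lit 6910, nat_lit 7044, nat_lit 855, nat_lit 0, nat_lit 0, nat_lit 0, nat_lit 0, nat_lit 0, nat_lit 0, nat_lit 0, nat_lit 0, nat_lit 0, nat_lit 0, nat_lit 0, [],
 ⟨p074_k3, nat_lit 0, nat_lit 0, nat_lit 336, nat_lit 0, nat_lit 155355, [nat_lit 3282000000, nat_lit 6250000000, nat_lit 11872000000], [], [nat_lit 29989561105, nat_lit 30994929405, nat_lit 38142019625, nat_lit 39353075260, nat_lit 29438159273, nat_lit 29972094025, nat_lit 35317637433, nat_lit 36002838849], nat_lit 1271250, nat_lit 1271250, nat_lit 1271250, nat_lit 1271250, nat_lit 0, nat_lit 2373000, [nat_lit 780000, nat_lit 1435000, nat_lit 1271250], [nat_lit 23, nat_lit 40, nat_lit 40, nat_lit 80, nat_lit 12, nat_lit 538, nat_lit 300, nat_lit 13]⟩, ⟨p074_k3, nat_lit 0, nat_lit 0, nat_lit 86, nat_lit 0, nat_lit 0, [nat_lit 3282000000, nat_lit 6250000000, nat_lit 11872000000], [], [nat_lit 19384041920,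 nat_lit 20900199592, nat_lit 30755070816, nat_lit 31641121984, nat_lit 27288497581, nat_lit 28249097729, nat_lit 35476504509, nat_lit 36165264644], nat_lit 0, nat_lit 0, nat_lit 0, nat_lit 0, nat_lit 0, nat_lit 0, [], [nat_lit 23, nat_lit 40, nat_lit 40, nat_lit 80, nat_lit 12, nat_lit 538, nat_lit 300, nat_lit 13]⟩,
 zbF0, [⟨nat_lit 4, nat_lit 94, nat_lit 100, nat_lit 97, nat_lit 143854553⟩, ⟨nat_lit 7, nat_lit 94, nat_lit 100, nat_lit 97, nat_lit 367976516⟩]⟩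
noncomputable def p074_l24 : Lf2 := ⟨nat_lit 0, nat_lit 20, [nat_lit 5, nat_lit 5, nat_lit 5, nat_lit 20], false, nat_lit 0, nat_lit 320, nat_lit 160, nat_lit 336, ⟨nat_lit 1000, nat_lit 0, nat_lit 0, nat_lit 0, nat_lit 0, nat_lit 0, nat_lit 0, nat_lit 0, nat_lit 0, nat_lit 0, nat_lit 0, nat_lit 0, nat_lit 0, nat_lit 0, nat_lit 0, nat_lit 0, false, false⟩,
 nat_lit 0, nat_lit 8404, nat_lit 0, nat_lit 1995, nat_lit 5818, nat_lit 5578, nat_lit 1162, nat_lit 0, nat_lit 0, nat_lit 0, nat_lit 0, nat_lit 0, nat_lit 0, nat_lit 0, nat_lit 0, nat_lit 0, nat_lit 0, nat_lit 0, [],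
 ⟨p074_k10, nat_lit 0, nat_lit 0, nat_lit 430, nat_lit 0, nat_lit 503741, [nat_lit 3282000000, nat_lit 4688000000, nat_lit 9842000000], [], [nat_lit 28570438336, nat_lit 29319495716, nat_lit 36396828148, nat_lit 37551272408, nat_lit 27737838914, nat_lit 28171764410, nat_lit 33934175608, nat_lit 34628376016], nat_lit 1271250, nat_lit 1271250, nat_lit 1271250, nat_lit 1271250, nat_lit 0, nat_lit 2260000, [nat_lit 780000, nat_lit 1100000, nat_lit 2127500], [nat_lit 42, nat_lit 40, nat_lit 40, nat_lit 80, nat_lit 13, nat_lit 428, nat_lit 200, nat_lit 12]⟩, ⟨p074_k11, nat_lit 0, nat_lit 0, nat_lit 78, nat_lit 0, nat_lit 0, [nat_lit 3282000000, nat_lit 4688000000, nat_lit 11872000000], [], [nat_lit 19188442624, nat_lit 21743245984, nat_lit 29157837032, nat_lit 30905622032, nat_lit 26259047783, nat_lit 28131421895, nat_lit 33738451266, nat_lit 35038104652], nat_lit 0, nat_lit 0, nat_lit 0, nat_lit 0, nat_lit 0, nat_lit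 0, [], [nat_lit 158, nat_lit 40, nat_lit 40, nat_lit 80, nat_lit 65, nat_lit 538, nat_lit 300, nat_lit 13]⟩,
 zbF0, [⟨nat_lit 16, nat_lit 93, nat_lit 100, nat_lit 97, nat_lit 155003507⟩, ⟨nat_lit 7, nat_lit 100, nat_lit 100, nat_lit 100, nat_lit 345799614⟩]⟩
noncomputable def b_V_700_700_20_62 : St := ⟨true, nat_lit 1, nat_lit 0, nat_lit 1, nat_lit 120, nat_lit 280, nat_lit 320, nat_lit 280, nat_lit 320, nat_lit 64, nat_lit 400, nat_lit 80, nat_lit 120, nat_lit 0, nat_lit 336, nat_lit 0, nat_lit 336, nat_lit 40, nat_lit 80, nat_lit 0, nat_lit 0, nat_lit 0, nat_lit 0⟩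
theorem d_V_700_700_20_62 (h : EB TB.env) : Dead b_V_700_700_20_62 := chkB_sound0 h (T :=
(.spl (nat_lit 2) (nat_lit 240)
(.spl (nat_lit 4) (nat_lit 160)
(.spl (nat_lit 0) (nat_lit 300)
(.ord (.spl (nat_lit 6) (nat_lit 56)
(.spl (nat_lit 1) (nat_lit 290)
(.leaf p074_l0)
(.ord (.trZ (nat_lit 0) (nat_lit 100) (nat_lit 100) (nat_lit 90) (nat_lit 80) (.trX (nat_lit 19) (nat_lit 97) (nat_lit 84) (nat_lit 100) (nat_lit 328) (.leaf p074_l1)))))
(.leaf p074_l2)))
(.trZ (nat_lit 0) (nat_lit 100) (nat_lit 94) (nat_lit 88) (nat_lit 80) (.spl (nat_lit 2) (nat_lit 160)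
(.spl (nat_lit 0) (nat_lit 310)
(.ord (.spl (nat_lit 0) (nat_lit 305)
(.ord (.leaf p074_l3))
(.trZ (nat_lit 0) (nat_lit 100) (nat_lit 93) (nat_lit 90) (nat_lit 84) (.leaf p074_l4))))
(.trZ (nat_lit 0) (nat_lit 100) (nat_lit 91) (nat_lit 91) (nat_lit 88) (.spl (nat_lit 0) (nat_lit 315)
(.ord (.leaf p074_l5))
(.trZ (nat_lit 0) (nat_lit 100) (nat_lit 89) (nat_lit 93) (nat_lit 96) (.leaf p074_l6)))))
(.leaf p074_l7))))
(.spl (nat_lit 1) (nat_lit 300)
(.spl (nat_lit 0) (nat_lit 300)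
(.spl (nat_lit 6) (nat_lit 56)
(.spl (nat_lit 5) (nat_lit 160)
(.leaf p074_l8)
(.spl (nat_lit 1) (nat_lit 290)
(.spl (nat_lit 6) (nat_lit 48)
(.spl (nat_lit 2) (nat_lit 160)
(.leaf p074_l9)
(.leaf p074_l10))
(.leaf p074_l11))
(.ord (.trZ (nat_lit 0) (nat_lit 100) (nat_lit 100) (nat_lit 90) (nat_lit 80) (.trX (nat_lit 16) (nat_lit 97) (nat_lit 84) (nat_lit 100) (nat_lit 328) (.trX (nat_lit 19) (nat_lit 97) (nat_lit 84) (nat_lit 100) (nat_lit 328) (.spl (nat_lit 0) (nat_lit 295)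
(.ord (.leaf p074_l12))
(.trZ (nat_lit 0) (nat_lit 100) (nat_lit 99) (nat_lit 92) (nat_lit 84) (.trX (nat_lit 16) (nat_lit 96) (nat_lit 86) (nat_lit 100) (nat_lit 324) (.leaf p074_l13))))))))))
(.leaf p074_l14))
(.trZ (nat_lit 0) (nat_lit 100) (nat_lit 94) (nat_lit 88) (nat_lit 80) (.trX (nat_lit 16) (nat_lit 94) (nat_lit 88) (nat_lit 100) (nat_lit 320) (.spl (nat_lit 5) (nat_lit 160)
(.leaf p074_l15)
(.spl (nat_lit 2) (nat_lit 120)
(.leaf p074_l16)
(.leaf p074_l17))))))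
(.ord (.trZ (nat_lit 0) (nat_lit 100) (nat_lit 100) (nat_lit 100) (nat_lit 100) (.trX (nat_lit 16) (nat_lit 94) (nat_lit 88) (nat_lit 100) (nat_lit 320) (.trX (nat_lit 19) (nat_lit 94) (nat_lit 88) (nat_lit 100) (nat_lit 320) (.spl (nat_lit 5) (nat_lit 160)
(.leaf p074_l18)
(.spl (nat_lit 0) (nat_lit 310)
(.ord (.leaf p074_l19))
(.trZ (nat_lit 0) (nat_lit 97) (nat_lit 93) (nat_lit 100) (nat_lit 108) (.trX (nat_lit 16) (nat_lit 91) (nat_lit 91) (nat_lit 100) (nat_lit 312) (.leaf p074_l20)))))))))))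
(.spl (nat_lit 5) (nat_lit 160)
(.spl (nat_lit 0) (nat_lit 300)
(.ord (.leaf p074_l21))
(.trX (nat_lit 16) (nat_lit 94) (nat_lit 88) (nat_lit 100) (nat_lit 320) (.leaf p074_l22)))
(.spl (nat_lit 0) (nat_lit 300)
(.ord (.leaf p074_l23))
(.trX (nat_lit 16) (nat_lit 94) (nat_lit 88) (nat_lit 100) (nat_lit 320) (.leaf p074_l24)))))) (by decide +kernel)
noncomputable def p074_l25 : Lf2 := ⟨nat_lit 0, nat_lit 14, [nat_lit 119, nat_lit 5, nat_lit 5, nat_lit 20], false, nat_lit 0, nat_lit 160, nat_lit 0, nat_lit 336, ⟨nat_lit 1000, nat_lit 0, nat_lit 0, nat_lit 0, nat_lit 0, nat_lit 0, nat_lit 0, nat_lit 0, nat_lit 0, nat_lit 0, nat_lit 0, nat_lit 0, nat_lit 0, nat_lit 0, nat_lit 0, nat_lit 0, false, false⟩,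
 nat_lit 12718, nat_lit 0, nat_lit 0, nat_lit 10508, nat_lit 6677, nat_lit 8093, nat_lit 1222, nat_lit 0, nat_lit 0, nat_lit 955, nat_lit 0, nat_lit 0, nat_lit 0, nat_lit 0, nat_lit 0, nat_lit 0, nat_lit 0, nat_lit 0, [],
 ⟨p074_k0, nat_lit 0, nat_lit 0, nat_lit 287, nat_lit 0, nat_lit 93786, [nat_lit 3282000000, nat_lit 6250000000, nat_lit 9842000000], [], [nat_lit 21687257800, nat_lit 23625944901, nat_lit 20986377150, nat_lit 22688452476, nat_lit 17304830001, nat_lit 18938854679, nat_lit 16912070942, nat_lit 18341039652], nat_lit 1271250, nat_lit 1271250, nat_lit 382400, nat_lit 1100001, nat_lit 0, nat_lit 1100001, [nat_lit 780000, nat_lit 1435000, nat_lit 1271250], [nat_lit 8, nat_lit 40, nat_lit 40, nat_lit 80, nat_lit 1, nat_lit 317, nat_lit 100, nat_lit 9]⟩, ⟨p074_k0, nat_lit 0, nat_lit 0, nat_lit 287, nat_lit 0, nat_lit 93786, [nat_lit 3282000000, nat_lit 6250000000, nat_lit 9842000000], [], [nat_lit 31530708228,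 nat_lit 27353538650, nat_lit 22783833975, nat_lit 24702327909, nat_lit 27417613288, nat_lit 28555711689, nat_lit 25234850044, nat_lit 26228213521], nat_lit 1271250, nat_lit 1271250, nat_lit 382400, nat_lit 1100001, nat_lit 0, nat_lit 2373000, [nat_lit 780000, nat_lit 1435000, nat_lit 1271250], [nat_lit 8, nat_lit 40, nat_lit 40, nat_lit 80, nat_lit 1, nat_lit 345, nat_lit 125, nat_lit 10]⟩,
 zbF0, [⟨nat_lit 0, nat_lit 100, nat_lit 100, nat_lit 100, nat_lit 715028362⟩, ⟨nat_lit 19, nat_lit 100, nat_lit 94, nat_lit 97, nat_lit 132150349⟩]⟩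
noncomputable def p074_l26 : Lf2 := ⟨nat_lit 1, nat_lit 20, [nat_lit 5, nat_lit 5, nat_lit 5, nat_lit 20], false, nat_lit 0, nat_lit 160, nat_lit 0, nat_lit 336, zbN0,
 nat_lit 0, nat_lit 0, nat_lit 0, nat_lit 0, nat_lit 0, nat_lit 0, nat_lit 0, nat_lit 0, nat_lit 0, nat_lit 0, nat_lit 0, nat_lit 0, nat_lit 0, nat_lit 0, nat_lit 0, nat_lit 0, nat_lit 0, nat_lit 0, [],
 C1.Rw.none, C1.Rw.none,
 zbF0, []⟩
noncomputable def p074_l27 : Lf2 := ⟨nat_lit 0, nat_lit 20, [nat_lit 5, nat_lit 5, nat_lit 5, nat_lit 20], false, nat_lit 0, nat_lit 160, nat_lit 0, nat_lit 160, ⟨nat_lit 1000, nat_lit 0, nat_lit 0, nat_lit 0, nat_lit 0, nat_lit 0, nat_lit 0, nat_lit 0, nat_lit 0, nat_lit 0, nat_lit 0, nat_lit 0, nat_lit 0, nat_lit 0, nat_lit 0, nat_lit 0, false, false⟩,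
 nat_lit 13812, nat_lit 0, nat_lit 0, nat_lit 0, nat_lit 8969, nat_lit 8789, nat_lit 1058, nat_lit 0, nat_lit 0, nat_lit 471, nat_lit 0, nat_lit 0, nat_lit 0, nat_lit 0, nat_lit 0, nat_lit 0, nat_lit 0, nat_lit 0, [],
 ⟨p074_k2, nat_lit 0, nat_lit 0, nat_lit 354, nat_lit 0, nat_lit 292681, [nat_lit 3282000000, nat_lit 6250000000, nat_lit 9842000000], [], [nat_lit 23513662026, nat_lit 25835244856, nat_lit 22543205322, nat_lit 24595585344, nat_lit 16377090194, nat_lit 18312545052, nat_lit 17857018744, nat_lit 17378871664], nat_lit 1271250, nat_lit 1271250, nat_lit 490000, nat_lit 1100001, nat_lit 0, nat_lit 1100001, [nat_lit 780000, nat_lit 1435000, nat_lit 1271250], [nat_lit 8, nat_lit 40, nat_lit 40, nat_lit 80, nat_lit 1, nat_lit 317, nat_lit 100, nat_lit 9]⟩, ⟨p074_k3, nat_lit 0, nat_lit 0, nat_lit 438, nat_lit 0, nat_lit 326332, [nat_lit 3282000000, nat_lit 6250000000, nat_lit 11872000000], [], [nat_lit 32100286065,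 nat_lit 35648454037, nat_lit 31014262325, nat_lit 34027666037, nat_lit 26484976577, nat_lit 28415953009, nat_lit 26326852672, nat_lit 27080873033], nat_lit 1271250, nat_lit 1271250, nat_lit 490000, nat_lit 1100001, nat_lit 0, nat_lit 1100001, [nat_lit 780000, nat_lit 1435000, nat_lit 1271250], [nat_lit 23, nat_lit 40, nat_lit 40, nat_lit 80, nat_lit 12, nat_lit 401, nat_lit 175, nat_lit 10]⟩,
 zbF0, [⟨nat_lit 0, nat_lit 97, nat_lit 93, nat_lit 100, nat_lit 777265831⟩]⟩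
noncomputable def p074_l28 : Lf2 := ⟨nat_lit 0, nat_lit 20, [nat_lit 5, nat_lit 5, nat_lit 5, nat_lit 20], false, nat_lit 0, nat_lit 160, nat_lit 160, nat_lit 336, ⟨nat_lit 1000, nat_lit 0, nat_lit 0, nat_lit 0, nat_lit 0, nat_lit 0, nat_lit 0, nat_lit 0, nat_lit 0, nat_lit 0, nat_lit 0, nat_lit 0, nat_lit 0, nat_lit 0, nat_lit 0, nat_lit 0, false, false⟩,
 nat_lit 11000, nat_lit 0, nat_lit 0, nat_lit 13430, nat_lit 7615, nat_lit 7000, nat_lit 1296, nat_lit 0, nat_lit 0, nat_lit 659, nat_lit 0, nat_lit 0, nat_lit 0, nat_lit 0, nat_lit 0, nat_lit 0, nat_lit 0, nat_lit 0, [],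
 ⟨p074_k2, nat_lit 0, nat_lit 0, nat_lit 314, nat_lit 0, nat_lit 187730, [nat_lit 3282000000, nat_lit 6250000000, nat_lit 9842000000], [], [nat_lit 20895081210, nat_lit 21937035060, nat_lit 20348177370, nat_lit 21364925760, nat_lit 15817568380, nat_lit 16633836980, nat_lit 20040314740, nat_lit 18293540350], nat_lit 1271250, nat_lit 1271250, nat_lit 490000, nat_lit 1100001, nat_lit 0, nat_lit 1100001, [nat_lit 780000, nat_lit 1435000, nat_lit 1271250], [nat_lit 8, nat_lit 40, nat_lit 40, nat_lit 80, nat_lit 1, nat_lit 317, nat_lit 100, nat_lit 9]⟩, ⟨p074_k3, nat_lit 0, nat_lit 0, nat_lit 227, nat_lit 0, nat_lit 209314, [nat_lit 3282000000, nat_lit 6250000000, nat_lit 11872000000], [], [nat_lit 29828560000, nat_lit 25589708125, nat_lit 23050046125, nat_lit 24995663125, nat_lit 30781320526, nat_lit 32162253525, nat_lit 29564064800, nat_lit 30792346925], nat_lit 1271250, nat_lit 1271250, nat_lit 490000, nat_lit 1100001,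 nat_lit 1100001, nat_lit 2607000, [nat_lit 780000, nat_lit 1435000, nat_lit 1271250], [nat_lit 23, nat_lit 40, nat_lit 40, nat_lit 80, nat_lit 12, nat_lit 456, nat_lit 225, nat_lit 11]⟩,
 zbF0, [⟨nat_lit 0, nat_lit 100, nat_lit 97, nat_lit 98, nat_lit 526978978⟩, ⟨nat_lit 7, nat_lit 97, nat_lit 100, nat_lit 98, nat_lit 272459128⟩]⟩
noncomputable def p074_l29 : Lf2 := ⟨nat_lit 0, nat_lit 20, [nat_lit 5, nat_lit 5, nat_lit 5, nat_lit 20], false, nat_lit 0, nat_lit 160, nat_lit 160, nat_lit 336, ⟨nat_lit 1000, nat_lit 0, nat_lit 0, nat_lit 0, nat_lit 0, nat_lit 0, nat_lit 0, nat_lit 0, nat_lit 0, nat_lit 0, nat_lit 0, nat_lit 0, nat_lit 0, nat_lit 0, nat_lit 0, nat_lit 0, false, false⟩,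
 nat_lit 12478, nat_lit 0, nat_lit 0, nat_lit 9879, nat_lit 7223, nat_lit 7940, nat_lit 1152, nat_lit 0, nat_lit 0, nat_lit 708, nat_lit 0, nat_lit 0, nat_lit 0, nat_lit 0, nat_lit 0, nat_lit 0, nat_lit 0, nat_lit 0, [],
 ⟨p074_k5, nat_lit 0, nat_lit 0, nat_lit 345, nat_lit 0, nat_lit 277925, [nat_lit 3282000000, nat_lit 6250000000, nat_lit 9842000000], [], [nat_lit 21758515060, nat_lit 22753911878, nat_lit 21367752911, nat_lit 22342977944, nat_lit 16491323737, nat_lit 17325670328, nat_lit 17665917070, nat_lit 17021530788], nat_lit 1271250, nat_lit 1271250, nat_lit 545600, nat_lit 1100001, nat_lit 0, nat_lit 1100001, [nat_lit 780000, nat_lit 1435000, nat_lit 1271250], [nat_lit 8, nat_lit 40, nat_lit 40, nat_lit 80, nat_lit 1, nat_lit 317, nat_lit 100, nat_lit 9]⟩, ⟨p074_k3, nat_lit 0, nat_lit 0, nat_lit 326, nat_lit 0, nat_lit 326332, [nat_lit 3282000000, nat_lit 6250000000, nat_lit 11872000000], [], [nat_lit 28612951232,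 nat_lit 26553071293, nat_lit 23591277340, nat_lit 25725412300, nat_lit 30002623302, nat_lit 31928670950, nat_lit 28648108496, nat_lit 30368103373], nat_lit 1271250, nat_lit 1271250, nat_lit 545600, nat_lit 1100001, nat_lit 1100001, nat_lit 2607000, [nat_lit 780000, nat_lit 1435000, nat_lit 1271250], [nat_lit 23, nat_lit 40, nat_lit 40, nat_lit 80, nat_lit 12, nat_lit 456, nat_lit 225, nat_lit 11]⟩,
 zbF0, [⟨nat_lit 0, nat_lit 95, nat_lit 90, nat_lit 100, nat_lit 772955521⟩, ⟨nat_lit 7, nat_lit 100, nat_lit 100, nat_lit 100, nat_lit 268001116⟩]⟩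
noncomputable def p074_l30 : Lf2 := ⟨nat_lit 0, nat_lit 20, [nat_lit 5, nat_lit 5, nat_lit 5, nat_lit 20], false, nat_lit 0, nat_lit 160, nat_lit 0, nat_lit 336, ⟨nat_lit 1000, nat_lit 0, nat_lit 0, nat_lit 0, nat_lit 0, nat_lit 0, nat_lit 0, nat_lit 0, nat_lit 0, nat_lit 0, nat_lit 0, nat_lit 0, nat_lit 0, nat_lit 0, nat_lit 0, nat_lit 0, false, false⟩,
 nat_lit 13203, nat_lit 0, nat_lit 0, nat_lit 20429, nat_lit 7769, nat_lit 8401, nat_lit 1515, nat_lit 0, nat_lit 0, nat_lit 1009, nat_lit 0, nat_lit 0, nat_lit 0, nat_lit 0, nat_lit 0, nat_lit 0, nat_lit 0, nat_lit 0, [],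
 ⟨p074_k3, nat_lit 0, nat_lit 0, nat_lit 232, nat_lit 0, nat_lit 91598, [nat_lit 3282000000, nat_lit 6250000000, nat_lit 11872000000], [], [nat_lit 20110524769, nat_lit 21746656720, nat_lit 23448458548, nat_lit 25380289162, nat_lit 15138722624, nat_lit 17059152510, nat_lit 18529759920, nat_lit 20137657642], nat_lit 1271250, nat_lit 1271250, nat_lit 1100001, nat_lit 1785000, nat_lit 0, nat_lit 1100001, [nat_lit 780000, nat_lit 1435000, nat_lit 1271250], [nat_lit 23, nat_lit 40, nat_lit 40, nat_lit 80, nat_lit 12, nat_lit 401, nat_lit 175, nat_lit 10]⟩, ⟨p074_k3, nat_lit 0, nat_lit 0, nat_lit 232, nat_lit 0, nat_lit 91598, [nat_lit 3282000000, nat_lit 6250000000, nat_lit 11872000000], [], [nat_lit 33449935964, nat_lit 29074879986, nat_lit 27531659903, nat_lit 28963034383, nat_lit 25536685732, nat_lit 26425187143, nat_lit 29718895293, nat_lit 28218877976], nat_lit 1271250, nat_lit 1271250, nat_lit 1100001, nat_lit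 1785000, nat_lit 0, nat_lit 2373000, [nat_lit 780000, nat_lit 1435000, nat_lit 1271250], [nat_lit 23, nat_lit 40, nat_lit 40, nat_lit 80, nat_lit 12, nat_lit 456, nat_lit 225, nat_lit 12]⟩,
 zbF0, [⟨nat_lit 7, nat_lit 94, nat_lit 100, nat_lit 97, nat_lit 133213925⟩]⟩
noncomputable def p074_l31 : Lf2 := ⟨nat_lit 0, nat_lit 20, [nat_lit 5, nat_lit 5, nat_lit 5, nat_lit 20], false, nat_lit 0, nat_lit 160, nat_lit 0, nat_lit 336, ⟨nat_lit 1000, nat_lit 0, nat_lit 0, nat_lit 0, nat_lit 0, nat_lit 0, nat_lit 0, nat_lit 0, nat_lit 0, nat_lit 0, nat_lit 0, nat_lit 0, nat_lit 0, nat_lit 0, nat_lit 0, nat_lit 0, false, false⟩,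
 nat_lit 14851, nat_lit 0, nat_lit 0, nat_lit 0, nat_lit 7222, nat_lit 9450, nat_lit 1011, nat_lit 0, nat_lit 0, nat_lit 523, nat_lit 0, nat_lit 0, nat_lit 0, nat_lit 0, nat_lit 0, nat_lit 0, nat_lit 0, nat_lit 0, [],
 ⟨p074_k2, nat_lit 0, nat_lit 0, nat_lit 324, nat_lit 0, nat_lit 292681, [nat_lit 3282000000, nat_lit 6250000000, nat_lit 9842000000], [], [nat_lit 27214974717, nat_lit 24326865222, nat_lit 25130958618, nat_lit 26628469566, nat_lit 18492982075, nat_lit 19641017167, nat_lit 22286115662, nat_lit 21143041122], nat_lit 1271250, nat_lit 1271250, nat_lit 1100001, nat_lit 1785000, nat_lit 0, nat_lit 1100001, [nat_lit 780000, nat_lit 1435000, nat_lit 1271250], [nat_lit 8, nat_lit 40, nat_lit 40, nat_lit 80, nat_lit 1, nat_lit 317, nat_lit 100, nat_lit 9]⟩, ⟨p074_k3, nat_lit 0, nat_lit 0, nat_lit 391, nat_lit 0, nat_lit 326332, [nat_lit 3282000000, nat_lit 6250000000, nat_lit 11872000000], [], [nat_lit 33939151800,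 nat_lit 33940695725, nat_lit 32609500725, nat_lit 35678860725, nat_lit 29697185286, nat_lit 31556925086, nat_lit 39326046560, nat_lit 31639076006], nat_lit 1271250, nat_lit 1271250, nat_lit 1100001, nat_lit 1785000, nat_lit 0, nat_lit 2373000, [nat_lit 780000, nat_lit 1435000, nat_lit 1271250], [nat_lit 23, nat_lit 40, nat_lit 40, nat_lit 80, nat_lit 12, nat_lit 456, nat_lit 225, nat_lit 12]⟩,
 zbF0, [⟨nat_lit 7, nat_lit 100, nat_lit 100, nat_lit 100, nat_lit 153915970⟩]⟩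
noncomputable def b_V_700_700_20_63 : St := ⟨true, nat_lit 1, nat_lit 1, nat_lit 1, nat_lit 120, nat_lit 280, nat_lit 320, nat_lit 280, nat_lit 320, nat_lit 64, nat_lit 240, nat_lit 80, nat_lit 120, nat_lit 0, nat_lit 160, nat_lit 0, nat_lit 336, nat_lit 40, nat_lit 80, nat_lit 0, nat_lit 0, nat_lit 0, nat_lit 0⟩
theorem d_V_700_700_20_63 (h : EB TB.env) : Dead b_V_700_700_20_63 := chkB_sound0 h (T :=
(.spl (nat_lit 2) (nat_lit 160)
(.spl (nat_lit 0) (nat_lit 300)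
(.ord (.spl (nat_lit 6) (nat_lit 56)
(.leaf p074_l25)
(.leaf p074_l26)))
(.trZ (nat_lit 0) (nat_lit 100) (nat_lit 94) (nat_lit 88) (nat_lit 80) (.spl (nat_lit 5) (nat_lit 160)
(.leaf p074_l27)
(.spl (nat_lit 0) (nat_lit 310)
(.ord (.leaf p074_l28))
(.trZ (nat_lit 0) (nat_lit 100) (nat_lit 91) (nat_lit 91) (nat_lit 88) (.leaf p074_l29))))))
(.spl (nat_lit 0) (nat_lit 300)
(.ord (.leaf p074_l30))
(.leaf p074_l31)))) (by decide +kernel)
noncomputable def p074_l32 : Lf2 := ⟨nat_lit 0, nat_lit 14, [nat_lit 119, nat_lit 5, nat_lit 5, nat_lit 20], false, nat_lit 160, nat_lit 240, nat_lit 0, nat_lit 336, ⟨nat_lit 1000, nat_lit 0, nat_lit 0, nat_lit 0, nat_lit 0, nat_lit 0, nat_lit 0, nat_lit 0, nat_lit 0, nat_lit 0, nat_lit 0, nat_lit 0, nat_lit 0, nat_lit 0, nat_lit 0, nat_lit 0, false, false⟩,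
 nat_lit 12718, nat_lit 0, nat_lit 0, nat_lit 3248, nat_lit 5249, nat_lit 8093, nat_lit 0, nat_lit 0, nat_lit 0, nat_lit 975, nat_lit 0, nat_lit 0, nat_lit 0, nat_lit 0, nat_lit 0, nat_lit 0, nat_lit 0, nat_lit 0, [],
 ⟨p074_k0, nat_lit 0, nat_lit 0, nat_lit 145, nat_lit 0, nat_lit 93786, [nat_lit 3282000000, nat_lit 6250000000, nat_lit 9842000000], [], [nat_lit 12193327083, nat_lit 14189994699, nat_lit 13205715612, nat_lit 14951071422, nat_lit 16187399328, nat_lit 17872592790, nat_lit 16725245296, nat_lit 18203948768], nat_lit 1271250, nat_lit 1271250, nat_lit 382400, nat_lit 1100001, nat_lit 1100001, nat_lit 1785000, [nat_lit 780000, nat_lit 1435000, nat_lit 1271250], [nat_lit 8, nat_lit 40, nat_lit 40, nat_lit 80, nat_lit 1, nat_lit 317, nat_lit 100, nat_lit 9]⟩, ⟨p074_k0, nat_lit 0, nat_lit 0, nat_lit 287, nat_lit 0, nat_lit 93786, [nat_lit 3282000000, nat_lit 6250000000, nat_lit 9842000000], [], [nat_lit 31530708228,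 nat_lit 27353538650, nat_lit 22655896475, nat_lit 24574390409, nat_lit 27289675788, nat_lit 28551727504, nat_lit 25106912544, nat_lit 26227717096], nat_lit 1271250, nat_lit 1271250, nat_lit 382400, nat_lit 1100001, nat_lit 0, nat_lit 2373000, [nat_lit 780000, nat_lit 1435000, nat_lit 1271250], [nat_lit 8, nat_lit 40, nat_lit 40, nat_lit 80, nat_lit 1, nat_lit 345, nat_lit 125, nat_lit 10]⟩,
 zbF0, [⟨nat_lit 0, nat_lit 100, nat_lit 100, nat_lit 90, nat_lit 666446434⟩, ⟨nat_lit 19, nat_lit 100, nat_lit 94, nat_lit 97, nat_lit 130233620⟩]⟩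
noncomputable def p074_l33 : Lf2 := ⟨nat_lit 1, nat_lit 20, [nat_lit 5, nat_lit 5, nat_lit 5, nat_lit 20], false, nat_lit 160, nat_lit 240, nat_lit 0, nat_lit 336, zbN0,
 nat_lit 0, nat_lit 0, nat_lit 0, nat_lit 0, nat_lit 0, nat_lit 0, nat_lit 0, nat_lit 0, nat_lit 0, nat_lit 0, nat_lit 0, nat_lit 0, nat_lit 0, nat_lit 0, nat_lit 0, nat_lit 0, nat_lit 0, nat_lit 0, [],
 C1.Rw.none, C1.Rw.none,
 zbF0, []⟩
noncomputable def p074_l34 : Lf2 := ⟨nat_lit 0, nat_lit 15, [nat_lit 30, nat_lit 5, nat_lit 5, nat_lit 20], false, nat_lit 160, nat_lit 240, nat_lit 0, nat_lit 336, ⟨nat_lit 236, nat_lit 0, nat_lit 764, nat_lit 7, nat_lit 169, nat_lit 764, nat_lit 157, nat_lit 764, nat_lit 59604, nat_lit 274, nat_lit 92319, nat_lit 289, nat_lit 48050668, nat_lit 0, nat_lit 0, nat_lit 4242966, false, false⟩,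
 nat_lit 5028, nat_lit 1402, nat_lit 0, nat_lit 0, nat_lit 4451, nat_lit 3199, nat_lit 0, nat_lit 0, nat_lit 0, nat_lit 0, nat_lit 0, nat_lit 0, nat_lit 0, nat_lit 0, nat_lit 81, nat_lit 599600, nat_lit 0, nat_lit 0, [(nat_lit 16, [(nat_lit 5, nat_lit 274), (nat_lit 6, nat_lit 490)])],
 ⟨p074_k12, nat_lit 0, nat_lit 0, nat_lit 170, nat_lit 0, nat_lit 190101, [nat_lit 2592225600, nat_lit 1697891201, nat_lit 14222400], [], [nat_lit 15501339626, nat_lit 16792157208, nat_lit 15524096632, nat_lit 16753924100, nat_lit 17874343632, nat_lit 18982182256, nat_lit 17793493272, nat_lit 18850267424], nat_lit 1271250, nat_lit 1271250, nat_lit 490000, nat_lit 780000, nat_lit 1100001, nat_lit 1785000, [nat_lit 780000, nat_lit 1435000, nat_lit 1271250], [nat_lit 8, nat_lit 40, nat_lit 40, nat_lit 80, nat_lit 1, nat_lit 317, nat_lit 100, nat_lit 9]⟩, ⟨p074_k13, nat_lit 0, nat_lit 0, nat_lit 318, nat_lit 0, nat_lit 211662, [nat_lit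 774552000, nat_lit 1475000000, nat_lit 2322712000], [], [nat_lit 9161901268, nat_lit 8117554834, nat_lit 6939751356, nat_lit 7639035134, nat_lit 7428894815, nat_lit 7813957825, nat_lit 7442460988, nat_lit 7231466643], nat_lit 1271250, nat_lit 1271250, nat_lit 490000, nat_lit 780000, nat_lit 0, nat_lit 2373000, [nat_lit 780000, nat_lit 1435000, nat_lit 1271250], [nat_lit 8, nat_lit 40, nat_lit 40, nat_lit 80, nat_lit 1, nat_lit 345, nat_lit 125, nat_lit 10]⟩,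
 ⟨nat_lit 4472, nat_lit 5000, ⟨.ofNat (nat_lit 371392), .ofNat (nat_lit 442816), .ofNat (nat_lit 392808), .ofNat (nat_lit 464232), .ofNat (nat_lit 382295), .ofNat (nat_lit 450269), .ofNat (nat_lit 403849), .ofNat (nat_lit 471823)⟩, ⟨.ofNat (nat_lit 299999), .ofNat (nat_lit 442856), .ofNat (nat_lit 342856), .ofNat (nat_lit 485713), .ofNat (nat_lit 302621), .ofNat (nat_lit 438578), .ofNat (nat_lit 345754), .ofNat (nat_lit 481711)⟩⟩, [⟨nat_lit 0, nat_lit 100, nat_lit 94, nat_lit 97, nat_lit 301908350⟩, ⟨nat_lit 7, nat_lit 94, nat_lit 100, nat_lit 97, nat_lit 27355920⟩]⟩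
noncomputable def p074_l35 : Lf2 := ⟨nat_lit 0, nat_lit 15, [nat_lit 30, nat_lit 5, nat_lit 5, nat_lit 20], false, nat_lit 160, nat_lit 240, nat_lit 0, nat_lit 336, ⟨nat_lit 290, nat_lit 0, nat_lit 710, nat_lit 7, nat_lit 197, nat_lit 710, nat_lit 157, nat_lit 710, nat_lit 59604, nat_lit 274, nat_lit 8067, nat_lit 237, nat_lit 45771784, nat_lit 0, nat_lit 0, nat_lit 4505052, false, false⟩,
 nat_lit 6193, nat_lit 0, nat_lit 0, nat_lit 0, nat_lit 4287, nat_lit 3941, nat_lit 0, nat_lit 0, nat_lit 0, nat_lit 0, nat_lit 0, nat_lit 0, nat_lit 0, nat_lit 0, nat_lit 87, nat_lit 683600, nat_lit 0, nat_lit 0, [(nat_lit 16, [(nat_lit 5, nat_lit 44), (nat_lit 6, nat_lit 666)])],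
 ⟨p074_k12, nat_lit 0, nat_lit 0, nat_lit 152, nat_lit 0, nat_lit 190101, [nat_lit 2710908000, nat_lit 1971216801, nat_lit 23085600], [], [nat_lit 15495203384, nat_lit 16703240500, nat_lit 16018433362, nat_lit 17157662372, nat_lit 17756295064, nat_lit 18803773960, nat_lit 18140883630, nat_lit 19388602460], nat_lit 1271250, nat_lit 1271250, nat_lit 780000, nat_lit 1100001, nat_lit 1100001, nat_lit 1785000, [nat_lit 780000, nat_lit 1435000, nat_lit 1271250], [nat_lit 8, nat_lit 40, nat_lit 40, nat_lit 80, nat_lit 1, nat_lit 317, nat_lit 100, nat_lit 8]⟩, ⟨p074_k13, nat_lit 0, nat_lit 0, nat_lit 300, nat_lit 0, nat_lit 211662, [nat_lit 951780000, nat_lit 1812500000, nat_lit 2854180000], [], [nat_lit 8529149340, nat_lit 9390109826, nat_lit 8479669080, nat_lit 9279660678, nat_lit 9134581597, nat_lit 8888564539, nat_lit 11088724817, nat_lit 9379421686], nat_lit 1271250, nat_lit 1271250, nat_lit 780000, nat_lit 1100001,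 nat_lit 0, nat_lit 2373000, [nat_lit 780000, nat_lit 1435000, nat_lit 1271250], [nat_lit 8, nat_lit 40, nat_lit 40, nat_lit 80, nat_lit 1, nat_lit 345, nat_lit 125, nat_lit 10]⟩,
 ⟨nat_lit 4472, nat_lit 5000, ⟨.ofNat (nat_lit 442816), .ofNat (nat_lit 514240), .ofNat (nat_lit 464232), .ofNat (nat_lit 535656), .ofNat (nat_lit 450269), .ofNat (nat_lit 518242), .ofNat (nat_lit 471823), .ofNat (nat_lit 539796)⟩, ⟨.ofNat (nat_lit 299999), .ofNat (nat_lit 442856), .ofNat (nat_lit 342856), .ofNat (nat_lit 485713), .ofNat (nat_lit 302621), .ofNat (nat_lit 438578), .ofNat (nat_lit 345754), .ofNat (nat_lit 481711)⟩⟩, [⟨nat_lit 7, nat_lit 94, nat_lit 100, nat_lit 97, nat_lit 48962831⟩]⟩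
noncomputable def p074_l36 : Lf2 := ⟨nat_lit 0, nat_lit 20, [nat_lit 5, nat_lit 5, nat_lit 5, nat_lit 20], false, nat_lit 160, nat_lit 240, nat_lit 0, nat_lit 336, ⟨nat_lit 243, nat_lit 757, nat_lit 0, nat_lit 7, nat_lit 183, nat_lit 757, nat_lit 157, nat_lit 0, nat_lit 0, nat_lit 0, nat_lit 0, nat_lit 0, nat_lit 46916519, nat_lit 11239144, nat_lit 8844337, nat_lit 4380544, false, false⟩,
 nat_lit 6511, nat_lit 0, nat_lit 0, nat_lit 362, nat_lit 4507, nat_lit 4143, nat_lit 0, nat_lit 0, nat_lit 0, nat_lit 26, nat_lit 0, nat_lit 0, nat_lit 0, nat_lit 0, nat_lit 0, nat_lit 189250, nat_lit 0, nat_lit 0, [(nat_lit 16, [(nat_lit 0, nat_lit 757)])],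
 ⟨p074_k2, nat_lit 0, nat_lit 0, nat_lit 126, nat_lit 0, nat_lit 81360, [nat_lit 2565272400, nat_lit 3597270134, nat_lit 4952991200], [], [nat_lit 13933977298, nat_lit 15729997984, nat_lit 15105393946, nat_lit 16706289776, nat_lit 17401713820, nat_lit 18926469868, nat_lit 18219403024, nat_lit 19583446720], nat_lit 1271250, nat_lit 1271250, nat_lit 490000, nat_lit 1100001, nat_lit 1100001, nat_lit 1785000, [nat_lit 780000, nat_lit 1435000, nat_lit 1271250], [nat_lit 8, nat_lit 40, nat_lit 40, nat_lit 80, nat_lit 1, nat_lit 317, nat_lit 100, nat_lit 9]⟩, ⟨p074_k3, nat_lit 0, nat_lit 0, nat_lit 341, nat_lit 0, nat_lit 90714, [nat_lit 797526000, nat_lit 1518750000, nat_lit 2884896000], [], [nat_lit 9964269846, nat_lit 10744136940, nat_lit 9000106350, nat_lit 9683747580, nat_lit 8549531469, nat_lit 8909228804, nat_lit 8722309755, nat_lit 7752632302], nat_lit 1271250, nat_lit 1271250, nat_lit 490000, nat_lit 1100001,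 nat_lit 0, nat_lit 2373000, [nat_lit 780000, nat_lit 1435000, nat_lit 1271250], [nat_lit 23, nat_lit 40, nat_lit 40, nat_lit 80, nat_lit 12, nat_lit 428, nat_lit 200, nat_lit 11]⟩,
 ⟨nat_lit 4472, nat_lit 5000, ⟨.ofNat (nat_lit 371392), .ofNat (nat_lit 514240), .ofNat (nat_lit 392808), .ofNat (nat_lit 535656), .ofNat (nat_lit 382295), .ofNat (nat_lit 518242), .ofNat (nat_lit 403849), .ofNat (nat_lit 539796)⟩, ⟨.ofNat (nat_lit 299999), .ofNat (nat_lit 442856), .ofNat (nat_lit 342856), .ofNat (nat_lit 485713), .ofNat (nat_lit 302621), .ofNat (nat_lit 438578), .ofNat (nat_lit 345754), .ofNat (nat_lit 481711)⟩⟩, [⟨nat_lit 0, nat_lit 100, nat_lit 94, nat_lit 97, nat_lit 249550396⟩, ⟨nat_lit 7, nat_lit 94, nat_lit 100, nat_lit 97, nat_lit 19273303⟩]⟩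
noncomputable def p074_l37 : Lf2 := ⟨nat_lit 0, nat_lit 20, [nat_lit 5, nat_lit 5, nat_lit 5, nat_lit 20], false, nat_lit 160, nat_lit 240, nat_lit 0, nat_lit 336, ⟨nat_lit 1000, nat_lit 0, nat_lit 0, nat_lit 0, nat_lit 0, nat_lit 0, nat_lit 0, nat_lit 0, nat_lit 0, nat_lit 0, nat_lit 0, nat_lit 0, nat_lit 0, nat_lit 0, nat_lit 0, nat_lit 0, false, false⟩,
 nat_lit 18373, nat_lit 0, nat_lit 0, nat_lit 0, nat_lit 11691, nat_lit 11691, nat_lit 863, nat_lit 0, nat_lit 0, nat_lit 633, nat_lit 0, nat_lit 0, nat_lit 0, nat_lit 0, nat_lit 0, nat_lit 0, nat_lit 0, nat_lit 0, [],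
 ⟨p074_k3, nat_lit 0, nat_lit 0, nat_lit 187, nat_lit 0, nat_lit 214339, [nat_lit 3282000000, nat_lit 6250000000, nat_lit 11872000000], [], [nat_lit 19525442328, nat_lit 21049590045, nat_lit 19495030661, nat_lit 22405988233, nat_lit 19495030661, nat_lit 22405988233, nat_lit 22357803404, nat_lit 23794098476], nat_lit 1271250, nat_lit 1271250, nat_lit 1100001, nat_lit 1785000, nat_lit 1100001, nat_lit 1785000, [nat_lit 780000, nat_lit 1435000, nat_lit 1271250], [nat_lit 23, nat_lit 40, nat_lit 40, nat_lit 80, nat_lit 12, nat_lit 428, nat_lit 200, nat_lit 10]⟩, ⟨p074_k3, nat_lit 0, nat_lit 0, nat_lit 350, nat_lit 0, nat_lit 214339, [nat_lit 3282000000, nat_lit 6250000000, nat_lit 11872000000], [], [nat_lit 34984273524, nat_lit 32148925747, nat_lit 32444944023, nat_lit 34200317703, nat_lit 27572893804, nat_lit 28602994670, nat_lit 38077497613, nat_lit 33006839682], nat_lit 1271250, nat_lit 1271250, nat_lit 1100001,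 nat_lit 1785000, nat_lit 0, nat_lit 2373000, [nat_lit 780000, nat_lit 1435000, nat_lit 1271250], [nat_lit 23, nat_lit 40, nat_lit 40, nat_lit 80, nat_lit 12, nat_lit 456, nat_lit 225, nat_lit 12]⟩,
 zbF0, [⟨nat_lit 7, nat_lit 94, nat_lit 100, nat_lit 97, nat_lit 140843500⟩]⟩
noncomputable def b_V_700_700_20_64 : St := ⟨true, nat_lit 1, nat_lit 1, nat_lit 1, nat_lit 120, nat_lit 280, nat_lit 320, nat_lit 280, nat_lit 300, nat_lit 64, nat_lit 240, nat_lit 80, nat_lit 120, nat_lit 160, nat_lit 240, nat_lit 0, nat_lit 336, nat_lit 40, nat_lit 80, nat_lit 0, nat_lit 0, nat_lit 0, nat_lit 0⟩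
theorem d_V_700_700_20_64 (h : EB TB.env) : Dead b_V_700_700_20_64 := chkB_sound0 h (T :=
(.spl (nat_lit 2) (nat_lit 160)
(.spl (nat_lit 0) (nat_lit 300)
(.spl (nat_lit 6) (nat_lit 56)
(.leaf p074_l32)
(.leaf p074_l33))
(.trZ (nat_lit 0) (nat_lit 100) (nat_lit 94) (nat_lit 88) (nat_lit 80) (.spl (nat_lit 6) (nat_lit 60)
(.spl (nat_lit 2) (nat_lit 120)
(.leaf p074_l34)
(.leaf p074_l35))
(.leaf p074_l36))))
(.leaf p074_l37))) (by decide +kernel)
noncomputable def p074_l38 : Lf2 := ⟨nat_lit 0, nat_lit 12, [nat_lit 126, nat_lit 5, nat_lit 5, nat_lit 20], false, nat_lit 240, nat_lit 336, nat_lit 0, nat_lit 336, ⟨nat_lit 0, nat_lit 0, nat_lit 1000, nat_lit 7, nat_lit 143, nat_lit 1000, nat_lit 222, nat_lit 1000, nat_lit 67422, nat_lit 200, nat_lit 190817, nat_lit 322, nat_lit 44651674, nat_lit 0, nat_lit 0, nat_lit 4548736, false, false⟩,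
 nat_lit 15126, nat_lit 100000, nat_lit 0, nat_lit 100000, nat_lit 3632, nat_lit 0, nat_lit 0, nat_lit 0, nat_lit 0, nat_lit 0, nat_lit 0, nat_lit 0, nat_lit 0, nat_lit 8551654672582, nat_lit 95, nat_lit 400000, nat_lit 0, nat_lit 0, [(nat_lit 13, [(nat_lit 5, nat_lit 1000)])],
 ⟨p074_k14, nat_lit 0, nat_lit 0, nat_lit 149, nat_lit 0, nat_lit 36637, [nat_lit 2390400000, nat_lit 1978400000, nat_lit 124400000], [], [nat_lit 17181255322, nat_lit 18211386160, nat_lit 17024399232, nat_lit 18040651824, nat_lit 22163569593, nat_lit 23341702407, nat_lit 21891015680, nat_lit 23055575994], nat_lit 1271250, nat_lit 1271250, nat_lit 382400, nat_lit 490000, nat_lit 1271250, nat_lit 1271250, [nat_lit 780000, nat_lit 1100000, nat_lit 2127500], [nat_lit 42, nat_lit 40, nat_lit 40, nat_lit 80, nat_lit 13, nat_lit 345, nat_lit 125, nat_lit 9]⟩, ⟨p074_k14, nat_lit 0, nat_lit 0, nat_lit 220, nat_lit 0, nat_lit 36637, [nat_lit 0, nat_lit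 0, nat_lit 0], [], [nat_lit 0, nat_lit 0, nat_lit 0, nat_lit 0, nat_lit 0, nat_lit 0, nat_lit 0, nat_lit 0], nat_lit 1271250, nat_lit 1271250, nat_lit 382400, nat_lit 490000, nat_lit 0, nat_lit 2373000, [nat_lit 780000, nat_lit 1100000, nat_lit 2127500], [nat_lit 42, nat_lit 40, nat_lit 40, nat_lit 80, nat_lit 13, nat_lit 345, nat_lit 125, nat_lit 10]⟩,
 ⟨nat_lit 5000, nat_lit 5478, ⟨.ofNat (nat_lit 330654), .ofNat (nat_lit 360625), .ofNat (nat_lit 341330), .ofNat (nat_lit 371299), .ofNat (nat_lit 342856), .ofNat (nat_lit 371424), .ofNat (nat_lit 353567), .ofNat (nat_lit 382135)⟩, ⟨.ofNat (nat_lit 446789), .ofNat (nat_lit 626629), .ofNat (nat_lit 489503), .ofNat (nat_lit 669336), .ofNat (nat_lit 442856), .ofNat (nat_lit 614284), .ofNat (nat_lit 485713), .ofNat (nat_lit 657134)⟩⟩, [⟨nat_lit 0, nat_lit 100, nat_lit 99, nat_lit 87, nat_lit 10101010101⟩, ⟨nat_lit 4, nat_lit 94, nat_lit 100, nat_lit 97, nat_lit 272975923⟩]⟩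
noncomputable def p074_l39 : Lf2 := ⟨nat_lit 1, nat_lit 12, [nat_lit 126, nat_lit 5, nat_lit 5, nat_lit 20], false, nat_lit 240, nat_lit 336, nat_lit 0, nat_lit 336, zbN0,
 nat_lit 0, nat_lit 0, nat_lit 0, nat_lit 0, nat_lit 0, nat_lit 0, nat_lit 0, nat_lit 0, nat_lit 0, nat_lit 0, nat_lit 0, nat_lit 0, nat_lit 0, nat_lit 0, nat_lit 0, nat_lit 0, nat_lit 0, nat_lit 0, [],
 C1.Rw.none, C1.Rw.none,
 zbF0, []⟩
noncomputable def p074_l40 : Lf2 := ⟨nat_lit 0, nat_lit 12, [nat_lit 126, nat_lit 5, nat_lit 5, nat_lit 20], false, nat_lit 240, nat_lit 328, nat_lit 0, nat_lit 336, ⟨nat_lit 1000, nat_lit 0, nat_lit 0, nat_lit 0, nat_lit 0, nat_lit 0, nat_lit 0, nat_lit 0, nat_lit 0, nat_lit 0, nat_lit 0, nat_lit 0, nat_lit 0, nat_lit 0, nat_lit 0, nat_lit 0, false, false⟩,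
 nat_lit 12701, nat_lit 0, nat_lit 0, nat_lit 10421, nat_lit 4811, nat_lit 8082, nat_lit 0, nat_lit 0, nat_lit 0, nat_lit 1034, nat_lit 0, nat_lit 0, nat_lit 0, nat_lit 0, nat_lit 0, nat_lit 0, nat_lit 0, nat_lit 0, [],
 ⟨p074_k15, nat_lit 0, nat_lit 0, nat_lit 87, nat_lit 0, nat_lit 34705, [nat_lit 3282000000, nat_lit 6250000000, nat_lit 9842000000], [], [nat_lit 17098462308, nat_lit 17888331660, nat_lit 17227666459, nat_lit 17978416694, nat_lit 22959589387, nat_lit 23579094344, nat_lit 22809935965, nat_lit 23400965211], nat_lit 1271250, nat_lit 1271250, nat_lit 490000, nat_lit 780000, nat_lit 1271250, nat_lit 1271250, [nat_lit 780000, nat_lit 1435000, nat_lit 1271250], [nat_lit 8, nat_lit 40, nat_lit 40, nat_lit 80, nat_lit 1, nat_lit 345, nat_lit 125, nat_lit 9]⟩, ⟨p074_k7, nat_lit 0, nat_lit 0, nat_lit 212, nat_lit 0, nat_lit 36637, [nat_lit 3282000000, nat_lit 6250000000, nat_lit 9842000000], [], [nat_lit 22726198690,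 nat_lit 23806892984, nat_lit 21978604250, nat_lit 23003994376, nat_lit 26119892540, nat_lit 26680199343, nat_lit 25120021759, nat_lit 25775208980], nat_lit 1271250, nat_lit 1271250, nat_lit 490000, nat_lit 780000, nat_lit 0, nat_lit 2373000, [nat_lit 780000, nat_lit 1435000, nat_lit 1271250], [nat_lit 8, nat_lit 40, nat_lit 40, nat_lit 80, nat_lit 1, nat_lit 345, nat_lit 125, nat_lit 10]⟩,
 zbF0, [⟨nat_lit 0, nat_lit 100, nat_lit 97, nat_lit 94, nat_lit 465059424⟩, ⟨nat_lit 4, nat_lit 97, nat_lit 100, nat_lit 98, nat_lit 345584762⟩, ⟨nat_lit 11, nat_lit 100, nat_lit 100, nat_lit 100, nat_lit 230634600⟩]⟩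
noncomputable def p074_l41 : Lf2 := ⟨nat_lit 1, nat_lit 14, [nat_lit 119, nat_lit 5, nat_lit 5, nat_lit 20], false, nat_lit 240, nat_lit 336, nat_lit 0, nat_lit 336, zbN0,
 nat_lit 0, nat_lit 0, nat_lit 0, nat_lit 0, nat_lit 0, nat_lit 0, nat_lit 0, nat_lit 0, nat_lit 0, nat_lit 0, nat_lit 0, nat_lit 0, nat_lit 0, nat_lit 0, nat_lit 0, nat_lit 0, nat_lit 0, nat_lit 0, [],
 C1.Rw.none, C1.Rw.none,
 zbF0, []⟩
noncomputable def p074_l42 : Lf2 := ⟨nat_lit 0, nat_lit 14, [nat_lit 119, nat_lit 5, nat_lit 5, nat_lit 20], false, nat_lit 240, nat_lit 312, nat_lit 0, nat_lit 312, ⟨nat_lit 1000, nat_lit 0, nat_lit 0, nat_lit 0, nat_lit 0, nat_lit 0, nat_lit 0, nat_lit 0, nat_lit 0, nat_lit 0, nat_lit 0, nat_lit 0, nat_lit 0, nat_lit 0, nat_lit 0, nat_lit 0, false, false⟩,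
 nat_lit 11504, nat_lit 0, nat_lit 0, nat_lit 20853, nat_lit 4979, nat_lit 7640, nat_lit 0, nat_lit 0, nat_lit 0, nat_lit 1093, nat_lit 0, nat_lit 0, nat_lit 0, nat_lit 0, nat_lit 0, nat_lit 0, nat_lit 0, nat_lit 0, [],
 ⟨p074_k1, nat_lit 0, nat_lit 0, nat_lit 89, nat_lit 0, nat_lit 59801, [nat_lit 3282000000, nat_lit 6250000000, nat_lit 9842000000], [], [nat_lit 16956103812, nat_lit 17761165740, nat_lit 17058586051, nat_lit 17823512966, nat_lit 21752505037, nat_lit 22481086363, nat_lit 21624342274, nat_lit 22255052252], nat_lit 1271250, nat_lit 1271250, nat_lit 490000, nat_lit 780000, nat_lit 1271250, nat_lit 1271250, [nat_lit 780000, nat_lit 1435000, nat_lit 1271250], [nat_lit 8, nat_lit 40, nat_lit 40, nat_lit 80, nat_lit 1, nat_lit 345, nat_lit 125, nat_lit 9]⟩, ⟨p074_k1, nat_lit 0, nat_lit 0, nat_lit 209, nat_lit 0, nat_lit 59801, [nat_lit 3282000000, nat_lit 6250000000, nat_lit 9842000000], [], [nat_lit 22357231680,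 nat_lit 22877917120, nat_lit 21646288520, nat_lit 22140564780, nat_lit 23836982376, nat_lit 24133109645, nat_lit 23050529654, nat_lit 23395370616], nat_lit 1271250, nat_lit 1271250, nat_lit 490000, nat_lit 780000, nat_lit 0, nat_lit 2203500, [nat_lit 780000, nat_lit 1435000, nat_lit 1271250], [nat_lit 8, nat_lit 40, nat_lit 40, nat_lit 80, nat_lit 1, nat_lit 345, nat_lit 125, nat_lit 10]⟩,
 zbF0, [⟨nat_lit 0, nat_lit 100, nat_lit 99, nat_lit 93, nat_lit 699319842⟩, ⟨nat_lit 4, nat_lit 100, nat_lit 100, nat_lit 95, nat_lit 581074665⟩, ⟨nat_lit 7, nat_lit 99, nat_lit 100, nat_lit 94, nat_lit 216661720⟩]⟩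
noncomputable def p074_l43 : Lf2 := ⟨nat_lit 0, nat_lit 14, [nat_lit 119, nat_lit 5, nat_lit 5, nat_lit 20], false, nat_lit 240, nat_lit 308, nat_lit 0, nat_lit 308, ⟨nat_lit 1000, nat_lit 0, nat_lit 0, nat_lit 0, nat_lit 0, nat_lit 0, nat_lit 0, nat_lit 0, nat_lit 0, nat_lit 0, nat_lit 0, nat_lit 0, nat_lit 0, nat_lit 0, nat_lit 0, nat_lit 0, false, false⟩,
 nat_lit 10722, nat_lit 0, nat_lit 0, nat_lit 5407, nat_lit 5000, nat_lit 7271, nat_lit 0, nat_lit 0, nat_lit 0, nat_lit 1103, nat_lit 0, nat_lit 0, nat_lit 0, nat_lit 7865517881219, nat_lit 0, nat_lit 0, nat_lit 0, nat_lit 0, [],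
 ⟨p074_k9, nat_lit 0, nat_lit 0, nat_lit 88, nat_lit 0, nat_lit 82334, [nat_lit 3282000000, nat_lit 6250000000, nat_lit 9842000000], [], [nat_lit 17357591700, nat_lit 17757046000, nat_lit 17420800500, nat_lit 17804150000, nat_lit 21786500976, nat_lit 22152386740, nat_lit 21678307275, nat_lit 21998065301], nat_lit 1271250, nat_lit 1271250, nat_lit 545600, nat_lit 780000, nat_lit 1271250, nat_lit 1271250, [nat_lit 780000, nat_lit 1435000, nat_lit 1271250], [nat_lit 8, nat_lit 40, nat_lit 40, nat_lit 80, nat_lit 1, nat_lit 345, nat_lit 125, nat_lit 9]⟩, ⟨p074_k9, nat_lit 0, nat_lit 0, nat_lit 212, nat_lit 0, nat_lit 82334, [nat_lit 3282000000, nat_lit 6250000000, nat_lit 9842000000], [], [nat_lit 22057521986, nat_lit 22556718704, nat_lit 21529884805, nat_lit 22008784281, nat_lit 23346932187, nat_lit 23789882524, nat_lit 22834189194, nat_lit 23173881822], nat_lit 1271250, nat_lit 1271250, nat_lit 545600, nat_lit 780000,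 nat_lit 0, nat_lit 2175250, [nat_lit 780000, nat_lit 1435000, nat_lit 1271250], [nat_lit 8, nat_lit 40, nat_lit 40, nat_lit 80, nat_lit 1, nat_lit 345, nat_lit 125, nat_lit 10]⟩,
 zbF0, [⟨nat_lit 0, nat_lit 100, nat_lit 100, nat_lit 98, nat_lit 475426360⟩, ⟨nat_lit 4, nat_lit 100, nat_lit 98, nat_lit 94, nat_lit 382208747⟩, ⟨nat_lit 11, nat_lit 98, nat_lit 98, nat_lit 100, nat_lit 206188230⟩]⟩
noncomputable def p074_l44 : Lf2 := ⟨nat_lit 0, nat_lit 14, [nat_lit 119, nat_lit 5, nat_lit 5, nat_lit 20], false, nat_lit 240, nat_lit 328, nat_lit 0, nat_lit 328, ⟨nat_lit 1000, nat_lit 0, nat_lit 0, nat_lit 0, nat_lit 0, nat_lit 0, nat_lit 0, nat_lit 0, nat_lit 0, nat_lit 0, nat_lit 0, nat_lit 0, nat_lit 0, nat_lit 0, nat_lit 0, nat_lit 0, false, false⟩,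
 nat_lit 11216, nat_lit 0, nat_lit 0, nat_lit 14927, nat_lit 4811, nat_lit 7448, nat_lit 0, nat_lit 0, nat_lit 0, nat_lit 1019, nat_lit 0, nat_lit 0, nat_lit 0, nat_lit 0, nat_lit 0, nat_lit 0, nat_lit 0, nat_lit 0, [],
 ⟨p074_k1, nat_lit 0, nat_lit 0, nat_lit 86, nat_lit 0, nat_lit 17702, [nat_lit 3282000000, nat_lit 6250000000, nat_lit 9842000000], [], [nat_lit 17098462308, nat_lit 17888331660, nat_lit 17227666459, nat_lit 17978416694, nat_lit 22959589387, nat_lit 23579094344, nat_lit 22809935965, nat_lit 23400965211], nat_lit 1271250, nat_lit 1271250, nat_lit 490000, nat_lit 780000, nat_lit 1271250, nat_lit 1271250, [nat_lit 780000, nat_lit 1435000, nat_lit 1271250], [nat_lit 8, nat_lit 40, nat_lit 40, nat_lit 80, nat_lit 1, nat_lit 345, nat_lit 125, nat_lit 9]⟩, ⟨p074_k1, nat_lit 0, nat_lit 0, nat_lit 206, nat_lit 0, nat_lit 17702, [nat_lit 3282000000, nat_lit 6250000000, nat_lit 9842000000], [], [nat_lit 22805573376,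 nat_lit 23829862592, nat_lit 22134574664, nat_lit 23107125328, nat_lit 25487243048, nat_lit 26041534948, nat_lit 24585291667, nat_lit 25112167216], nat_lit 1271250, nat_lit 1271250, nat_lit 490000, nat_lit 780000, nat_lit 0, nat_lit 2316500, [nat_lit 780000, nat_lit 1435000, nat_lit 1271250], [nat_lit 8, nat_lit 40, nat_lit 40, nat_lit 80, nat_lit 1, nat_lit 345, nat_lit 125, nat_lit 10]⟩,
 zbF0, [⟨nat_lit 0, nat_lit 100, nat_lit 100, nat_lit 100, nat_lit 492140978⟩, ⟨nat_lit 4, nat_lit 92, nat_lit 99, nat_lit 100, nat_lit 339473391⟩, ⟨nat_lit 11, nat_lit 100, nat_lit 100, nat_lit 100, nat_lit 217988269⟩]⟩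
noncomputable def p074_l45 : Lf2 := ⟨nat_lit 0, nat_lit 14, [nat_lit 119, nat_lit 5, nat_lit 5, nat_lit 20], false, nat_lit 240, nat_lit 336, nat_lit 0, nat_lit 336, ⟨nat_lit 1000, nat_lit 0, nat_lit 0, nat_lit 0, nat_lit 0, nat_lit 0, nat_lit 0, nat_lit 0, nat_lit 0, nat_lit 0, nat_lit 0, nat_lit 0, nat_lit 0, nat_lit 0, nat_lit 0, nat_lit 0, false, false⟩,
 nat_lit 12724, nat_lit 0, nat_lit 0, nat_lit 23967, nat_lit 8097, nat_lit 8097, nat_lit 0, nat_lit 0, nat_lit 0, nat_lit 989, nat_lit 0, nat_lit 0, nat_lit 0, nat_lit 0, nat_lit 0, nat_lit 0, nat_lit 0, nat_lit 0, [],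
 ⟨p074_k0, nat_lit 0, nat_lit 0, nat_lit 93, nat_lit 0, nat_lit 93786, [nat_lit 3282000000, nat_lit 6250000000, nat_lit 9842000000], [], [nat_lit 17766713292, nat_lit 19533721894, nat_lit 18143270960, nat_lit 19792673146, nat_lit 25111550227, nat_lit 26423282067, nat_lit 24999160295, nat_lit 26230203210], nat_lit 1271250, nat_lit 1271250, nat_lit 780000, nat_lit 1100001, nat_lit 1271250, nat_lit 1271250, [nat_lit 780000, nat_lit 1435000, nat_lit 1271250], [nat_lit 8, nat_lit 40, nat_lit 40, nat_lit 80, nat_lit 1, nat_lit 345, nat_lit 125, nat_lit 9]⟩, ⟨p074_k0, nat_lit 0, nat_lit 0, nat_lit 202, nat_lit 0, nat_lit 93786, [nat_lit 3282000000, nat_lit 6250000000, nat_lit 9842000000], [], [nat_lit 22268691125, nat_lit 24321971667, nat_lit 22566593025, nat_lit 24485698311, nat_lit 25357204388, nat_lit 26423282067, nat_lit 25014986061, nat_lit 26230203210], nat_lit 1271250, nat_lit 1271250, nat_lit 780000, nat_lit 1100001,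 nat_lit 0, nat_lit 2373000, [nat_lit 780000, nat_lit 1435000, nat_lit 1271250], [nat_lit 8, nat_lit 40, nat_lit 40, nat_lit 80, nat_lit 1, nat_lit 345, nat_lit 125, nat_lit 10]⟩,
 zbF0, [⟨nat_lit 4, nat_lit 94, nat_lit 100, nat_lit 97, nat_lit 625504142⟩, ⟨nat_lit 7, nat_lit 94, nat_lit 100, nat_lit 97, nat_lit 227454836⟩]⟩
noncomputable def p074_l46 : Lf2 := ⟨nat_lit 1, nat_lit 20, [nat_lit 5, nat_lit 5, nat_lit 5, nat_lit 20], false, nat_lit 240, nat_lit 336, nat_lit 0, nat_lit 336, zbN0,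
 nat_lit 0, nat_lit 0, nat_lit 0, nat_lit 0, nat_lit 0, nat_lit 0, nat_lit 0, nat_lit 0, nat_lit 0, nat_lit 0, nat_lit 0, nat_lit 0, nat_lit 0, nat_lit 0, nat_lit 0, nat_lit 0, nat_lit 0, nat_lit 0, [],
 C1.Rw.none, C1.Rw.none,
 zbF0, []⟩
noncomputable def b_V_700_700_20_65 : St := ⟨true, nat_lit 1, nat_lit 1, nat_lit 1, nat_lit 120, nat_lit 280, nat_lit 300, nat_lit 280, nat_lit 300, nat_lit 64, nat_lit 160, nat_lit 80, nat_lit 120, nat_lit 240, nat_lit 336, nat_lit 0, nat_lit 336, nat_lit 40, nat_lit 80, nat_lit 0, nat_lit 0, nat_lit 0, nat_lit 0⟩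
theorem d_V_700_700_20_65 (h : EB TB.env) : Dead b_V_700_700_20_65 := chkB_sound0 h (T :=
(.spl (nat_lit 6) (nat_lit 56)
(.spl (nat_lit 2) (nat_lit 120)
(.spl (nat_lit 1) (nat_lit 290)
(.spl (nat_lit 6) (nat_lit 48)
(.spl (nat_lit 2) (nat_lit 80)
(.leaf p074_l38)
(.spl (nat_lit 0) (nat_lit 290)
(.leaf p074_l39)
(.trX (nat_lit 16) (nat_lit 97) (nat_lit 84) (nat_lit 100) (nat_lit 328) (.leaf p074_l40))))
(.leaf p074_l41))
(.ord (.trZ (nat_lit 0) (nat_lit 100) (nat_lit 100) (nat_lit 90) (nat_lit 80) (.trX (nat_lit 16) (nat_lit 97) (nat_lit 84) (nat_lit 100) (nat_lit 328) (.trX (nat_lit 19) (nat_lit 97) (nat_lit 84) (nat_lit 100) (nat_lit 328) (.spl (nat_lit 3) (nat_lit 100)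
(.trX (nat_lit 16) (nat_lit 100) (nat_lit 94) (nat_lit 97) (nat_lit 312) (.trX (nat_lit 19) (nat_lit 100) (nat_lit 94) (nat_lit 97) (nat_lit 312) (.spl (nat_lit 1) (nat_lit 295)
(.leaf p074_l42)
(.ord (.trZ (nat_lit 0) (nat_lit 100) (nat_lit 100) (nat_lit 95) (nat_lit 88) (.trX (nat_lit 16) (nat_lit 100) (nat_lit 97) (nat_lit 98) (nat_lit 308) (.trX (nat_lit 19) (nat_lit 100) (nat_lit 97) (nat_lit 98) (nat_lit 308) (.leaf p074_l43))))))))
(.leaf p074_l44)))))))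
(.leaf p074_l45))
(.leaf p074_l46))) (by decide +kernel)
noncomputable def p074_l47 : Lf2 := ⟨nat_lit 0, nat_lit 20, [nat_lit 5, nat_lit 5, nat_lit 5, nat_lit 20], false, nat_lit 240, nat_lit 320, nat_lit 0, nat_lit 336, ⟨nat_lit 163, nat_lit 837, nat_lit 0, nat_lit 7, nat_lit 183, nat_lit 837, nat_lit 213, nat_lit 0, nat_lit 0, nat_lit 0, nat_lit 0, nat_lit 0, nat_lit 42693796, nat_lit 10701636, nat_lit 13604568, nat_lit 4867515, false, false⟩,
 nat_lit 3828, nat_lit 0, nat_lit 0, nat_lit 1260, nat_lit 204, nat_lit 2436, nat_lit 0, nat_lit 0, nat_lit 371, nat_lit 56, nat_lit 0, nat_lit 0, nat_lit 0, nat_lit 0, nat_lit 0, nat_lit 209250, nat_lit 0, nat_lit 0, [(nat_lit 16, [(nat_lit 0, nat_lit 837)])],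
 ⟨p074_k2, nat_lit 0, nat_lit 0, nat_lit 0, nat_lit 0, nat_lit 192237, [nat_lit 2489528400, nat_lit 3316928800, nat_lit 4436319200], [], [nat_lit 16131082640, nat_lit 16883079696, nat_lit 17937721728, nat_lit 18683958320, nat_lit 18968470992, nat_lit 19683673232, nat_lit 20651479968, nat_lit 21325185232], nat_lit 1271250, nat_lit 1271250, nat_lit 490000, nat_lit 1100001, nat_lit 1271250, nat_lit 1271250, [nat_lit 780000, nat_lit 1435000, nat_lit 1271250], [nat_lit 8, nat_lit 40, nat_lit 40, nat_lit 80]⟩, ⟨p074_k3, nat_lit 0, nat_lit 0, nat_lit 381, nat_lit 0, nat_lit 214339, [nat_lit 534966000, nat_lit 1018750000, nat_lit 1935136000], [], [nat_lit 6433564660, nat_lit 6543906094, nat_lit 5540754348, nat_lit 5955755746, nat_lit 5395513564, nat_lit 5626447647, nat_lit 6083058261, nat_lit 5026508546], nat_lit 1271250, nat_lit 1271250, nat_lit 490000, nat_lit 1100001, nat_lit 0, nat_lit 2373000, [nat_lit 780000, nat_lit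 1435000, nat_lit 1271250], [nat_lit 23, nat_lit 40, nat_lit 40, nat_lit 80, nat_lit 12, nat_lit 428, nat_lit 200, nat_lit 11]⟩,
 ⟨nat_lit 4472, nat_lit 5000, ⟨.ofNat (nat_lit 371392), .ofNat (nat_lit 514240), .ofNat (nat_lit 392808), .ofNat (nat_lit 535656), .ofNat (nat_lit 382295), .ofNat (nat_lit 518242), .ofNat (nat_lit 403849), .ofNat (nat_lit 539796)⟩, ⟨.ofNat (nat_lit 442856), .ofNat (nat_lit 585713), .ofNat (nat_lit 485713), .ofNat (nat_lit 628570), .ofNat (nat_lit 438578), .ofNat (nat_lit 574534), .ofNat (nat_lit 481711), .ofNat (nat_lit 617667)⟩⟩, [⟨nat_lit 0, nat_lit 100, nat_lit 94, nat_lit 97, nat_lit 99805901⟩, ⟨nat_lit 19, nat_lit 100, nat_lit 94, nat_lit 97, nat_lit 17757826⟩]⟩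
noncomputable def p074_l48 : Lf2 := ⟨nat_lit 0, nat_lit 15, [nat_lit 30, nat_lit 5, nat_lit 5, nat_lit 20], false, nat_lit 240, nat_lit 320, nat_lit 0, nat_lit 160, ⟨nat_lit 1000, nat_lit 0, nat_lit 0, nat_lit 0, nat_lit 0, nat_lit 0, nat_lit 0, nat_lit 0, nat_lit 0, nat_lit 0, nat_lit 0, nat_lit 0, nat_lit 0, nat_lit 0, nat_lit 0, nat_lit 0, false, false⟩,
 nat_lit 14628, nat_lit 0, nat_lit 0, nat_lit 7749, nat_lit 6327, nat_lit 9308, nat_lit 1067, nat_lit 0, nat_lit 0, nat_lit 832, nat_lit 0, nat_lit 0, nat_lit 0, nat_lit 0, nat_lit 0, nat_lit 0, nat_lit 0, nat_lit 0, [],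
 ⟨p074_k12, nat_lit 0, nat_lit 0, nat_lit 0, nat_lit 0, nat_lit 145331, [nat_lit 3282000000, nat_lit 6250000000, nat_lit 9842000000], [], [nat_lit 20414302814, nat_lit 21731923262, nat_lit 20121634380, nat_lit 21295507042, nat_lit 24551348078, nat_lit 25826209605, nat_lit 24138620873, nat_lit 25277983365], nat_lit 1271250, nat_lit 1271250, nat_lit 490000, nat_lit 1100001, nat_lit 1271250, nat_lit 1271250, [nat_lit 780000, nat_lit 1435000, nat_lit 1271250], [nat_lit 8, nat_lit 40, nat_lit 40, nat_lit 80]⟩, ⟨p074_k13, nat_lit 0, nat_lit 0, nat_lit 297, nat_lit 0, nat_lit 161814, [nat_lit 3282000000, nat_lit 6250000000, nat_lit 9842000000], [], [nat_lit 24727325680, nat_lit 25639159968, nat_lit 23972275520, nat_lit 24775518396, nat_lit 18653656672, nat_lit 19405674144, nat_lit 25380844384, nat_lit 23245719496], nat_lit 1271250, nat_lit 1271250, nat_lit 490000, nat_lit 1100001, nat_lit 0, nat_lit 1100001, [nat_lit 780000,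 nat_lit 1435000, nat_lit 1271250], [nat_lit 8, nat_lit 40, nat_lit 40, nat_lit 80, nat_lit 1, nat_lit 317, nat_lit 100, nat_lit 9]⟩,
 zbF0, [⟨nat_lit 0, nat_lit 100, nat_lit 92, nat_lit 94, nat_lit 347967243⟩, ⟨nat_lit 4, nat_lit 100, nat_lit 93, nat_lit 97, nat_lit 554302275⟩]⟩
noncomputable def p074_l49 : Lf2 := ⟨nat_lit 0, nat_lit 15, [nat_lit 30, nat_lit 5, nat_lit 5, nat_lit 20], false, nat_lit 240, nat_lit 320, nat_lit 160, nat_lit 240, ⟨nat_lit 1000, nat_lit 0, nat_lit 0, nat_lit 0, nat_lit 0, nat_lit 0, nat_lit 0, nat_lit 0, nat_lit 0, nat_lit 0, nat_lit 0, nat_lit 0, nat_lit 0, nat_lit 0, nat_lit 0, nat_lit 0, false, false⟩,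
 nat_lit 33376, nat_lit 0, nat_lit 0, nat_lit 0, nat_lit 16021, nat_lit 21239, nat_lit 0, nat_lit 0, nat_lit 0, nat_lit 0, nat_lit 0, nat_lit 0, nat_lit 0, nat_lit 0, nat_lit 0, nat_lit 0, nat_lit 0, nat_lit 0, [],
 ⟨p074_k16, nat_lit 0, nat_lit 0, nat_lit 0, nat_lit 0, nat_lit 145331, [nat_lit 3282000000, nat_lit 9842000000], [], [nat_lit 23639387472, nat_lit 26041029776, nat_lit 21286651912, nat_lit 23543836704, nat_lit 32489601808, nat_lit 35546669068, nat_lit 29568176642, nat_lit 32458237972], nat_lit 1271250, nat_lit 1271250, nat_lit 490000, nat_lit 780000, nat_lit 1271250, nat_lit 1271250, [nat_lit 780000, nat_lit 2090000], [nat_lit 82, nat_lit 40, nat_lit 40, nat_lit 80]⟩, ⟨p074_k17, nat_lit 0, nat_lit 0, nat_lit 143, nat_lit 0, nat_lit 161814, [nat_lit 3282000000, nat_lit 9842000000], [], [nat_lit 13645528716, nat_lit 15488610215, nat_lit 10826966396, nat_lit 12557174122, nat_lit 17799124912, nat_lit 19291694880,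 nat_lit 14608360080, nat_lit 16007641444], nat_lit 1271250, nat_lit 1271250, nat_lit 490000, nat_lit 780000, nat_lit 1100001, nat_lit 1785000, [nat_lit 780000, nat_lit 2090000], [nat_lit 82, nat_lit 40, nat_lit 40, nat_lit 80, nat_lit 63, nat_lit 317, nat_lit 100, nat_lit 9]⟩,
 zbF0, [⟨nat_lit 0, nat_lit 100, nat_lit 89, nat_lit 100, nat_lit 1528201633⟩, ⟨nat_lit 16, nat_lit 93, nat_lit 100, nat_lit 97, nat_lit 888124676⟩]⟩
noncomputable def p074_l50 : Lf2 := ⟨nat_lit 0, nat_lit 12, [nat_lit 126, nat_lit 5, nat_lit 5, nat_lit 20], false, nat_lit 240, nat_lit 300, nat_lit 240, nat_lit 320, ⟨nat_lit 1000, nat_lit 0, nat_lit 0, nat_lit 0, nat_lit 0, nat_lit 0, nat_lit 0, nat_lit 0, nat_lit 0, nat_lit 0, nat_lit 0, nat_lit 0, nat_lit 0, nat_lit 0, nat_lit 0, nat_lit 0, false, false⟩,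
 nat_lit 15990, nat_lit 0, nat_lit 0, nat_lit 0, nat_lit 11069, nat_lit 10175, nat_lit 0, nat_lit 0, nat_lit 0, nat_lit 822, nat_lit 0, nat_lit 0, nat_lit 0, nat_lit 0, nat_lit 0, nat_lit 0, nat_lit 0, nat_lit 0, [],
 ⟨p074_k18, nat_lit 0, nat_lit 0, nat_lit 0, nat_lit 0, nat_lit 132569, [nat_lit 3282000000, nat_lit 6250000000, nat_lit 7968000000], [], [nat_lit 21606621874, nat_lit 23691317972, nat_lit 20395955202, nat_lit 22362048844, nat_lit 26347561717, nat_lit 28445440478, nat_lit 24863836653, nat_lit 26673906061], nat_lit 1271250, nat_lit 1271250, nat_lit 490000, nat_lit 780000, nat_lit 1271250, nat_lit 1271250, [nat_lit 780000, nat_lit 1435000, nat_lit 1271250], [nat_lit 18, nat_lit 40, nat_lit 40, nat_lit 80]⟩, ⟨p074_k7, nat_lit 0, nat_lit 0, nat_lit 166, nat_lit 0, nat_lit 147230, [nat_lit 3282000000, nat_lit 6250000000, nat_lit 9842000000], [], [nat_lit 19831981150, nat_lit 20705940750, nat_lit 18724434750,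 nat_lit 19549760050, nat_lit 25507910650, nat_lit 26396406150, nat_lit 24078516350, nat_lit 24900614475], nat_lit 1271250, nat_lit 1271250, nat_lit 490000, nat_lit 780000, nat_lit 1271250, nat_lit 1271250, [nat_lit 780000, nat_lit 1435000, nat_lit 1271250], [nat_lit 8, nat_lit 40, nat_lit 40, nat_lit 80, nat_lit 1, nat_lit 345, nat_lit 125, nat_lit 9]⟩,
 zbF0, [⟨nat_lit 0, nat_lit 100, nat_lit 92, nat_lit 94, nat_lit 651381889⟩, ⟨nat_lit 4, nat_lit 100, nat_lit 91, nat_lit 91, nat_lit 311758060⟩, ⟨nat_lit 19, nat_lit 100, nat_lit 94, nat_lit 92, nat_lit 244932007⟩, ⟨nat_lit 11, nat_lit 100, nat_lit 100, nat_lit 100, nat_lit 353295947⟩]⟩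
noncomputable def p074_l51 : Lf2 := ⟨nat_lit 0, nat_lit 12, [nat_lit 126, nat_lit 5, nat_lit 5, nat_lit 20], false, nat_lit 240, nat_lit 320, nat_lit 240, nat_lit 336, ⟨nat_lit 1000, nat_lit 0, nat_lit 0, nat_lit 0, nat_lit 0, nat_lit 0, nat_lit 0, nat_lit 0, nat_lit 0, nat_lit 0, nat_lit 0, nat_lit 0, nat_lit 0, nat_lit 0, nat_lit 0, nat_lit 0, false, false⟩,
 nat_lit 7553, nat_lit 0, nat_lit 0, nat_lit 4628, nat_lit 4812, nat_lit 4806, nat_lit 0, nat_lit 0, nat_lit 0, nat_lit 0, nat_lit 0, nat_lit 0, nat_lit 0, nat_lit 0, nat_lit 0, nat_lit 0, nat_lit 0, nat_lit 0, [],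
 ⟨p074_k18, nat_lit 0, nat_lit 0, nat_lit 0, nat_lit 0, nat_lit 17639, [nat_lit 3282000000, nat_lit 6250000000, nat_lit 7968000000], [], [nat_lit 17887574720, nat_lit 18677534504, nat_lit 17977494648, nat_lit 18728329268, nat_lit 22971592576, nat_lit 23606680384, nat_lit 22821223768, nat_lit 23426881348], nat_lit 1271250, nat_lit 1271250, nat_lit 490000, nat_lit 780000, nat_lit 1271250, nat_lit 1271250, [nat_lit 780000, nat_lit 1435000, nat_lit 1271250], [nat_lit 18, nat_lit 40, nat_lit 40, nat_lit 80]⟩, ⟨p074_k7, nat_lit 0, nat_lit 0, nat_lit 91, nat_lit 0, nat_lit 19787, [nat_lit 3282000000, nat_lit 6250000000, nat_lit 9842000000], [], [nat_lit 16313281976, nat_lit 17102699168, nat_lit 16482370304, nat_lit 17232698614, nat_lit 22979487733, nat_lit 23583174738, nat_lit 22829456152, nat_lit 23405638041], nat_lit 1271250, nat_lit 1271250, nat_lit 490000, nat_lit 780000, nat_lit 1271250, nat_lit 1271250, [nat_lit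 780000, nat_lit 1435000, nat_lit 1271250], [nat_lit 8, nat_lit 40, nat_lit 40, nat_lit 80, nat_lit 1, nat_lit 345, nat_lit 125, nat_lit 9]⟩,
 zbF0, [⟨nat_lit 0, nat_lit 100, nat_lit 94, nat_lit 97, nat_lit 67805106⟩, ⟨nat_lit 23, nat_lit 100, nat_lit 88, nat_lit 94, nat_lit 281450959⟩, ⟨nat_lit 11, nat_lit 100, nat_lit 100, nat_lit 100, nat_lit 304852017⟩]⟩
noncomputable def p074_l52 : Lf2 := ⟨nat_lit 0, nat_lit 12, [nat_lit 126, nat_lit 5, nat_lit 5, nat_lit 20], false, nat_lit 240, nat_lit 312, nat_lit 240, nat_lit 336, ⟨nat_lit 1000, nat_lit 0, nat_lit 0, nat_lit 0, nat_lit 0, nat_lit 0, nat_lit 0, nat_lit 0, nat_lit 0, nat_lit 0, nat_lit 0, nat_lit 0, nat_lit 0, nat_lit 0, nat_lit 0, nat_lit 0, false, false⟩,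
 nat_lit 12946, nat_lit 0, nat_lit 0, nat_lit 0, nat_lit 8206, nat_lit 8238, nat_lit 0, nat_lit 0, nat_lit 0, nat_lit 1010, nat_lit 0, nat_lit 0, nat_lit 0, nat_lit 0, nat_lit 0, nat_lit 0, nat_lit 0, nat_lit 0, [],
 ⟨p074_k19, nat_lit 0, nat_lit 0, nat_lit 0, nat_lit 0, nat_lit 62303, [nat_lit 3282000000, nat_lit 6250000000, nat_lit 7968000000], [], [nat_lit 20822304311, nat_lit 21754343783, nat_lit 20319064610, nat_lit 21210126208, nat_lit 25859130742, nat_lit 26776167647, nat_lit 25138070206, nat_lit 25856795911], nat_lit 1271250, nat_lit 1271250, nat_lit 545600, nat_lit 780000, nat_lit 1271250, nat_lit 1271250, [nat_lit 780000, nat_lit 1435000, nat_lit 1271250], [nat_lit 18, nat_lit 40, nat_lit 40, nat_lit 80]⟩, ⟨p074_k7, nat_lit 0, nat_lit 0, nat_lit 145, nat_lit 0, nat_lit 72908, [nat_lit 3282000000, nat_lit 6250000000, nat_lit 9842000000], [], [nat_lit 19757269646, nat_lit 20514764388, nat_lit 19163003610,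 nat_lit 19887845098, nat_lit 26021966970, nat_lit 26597114525, nat_lit 25159352220, nat_lit 25695770615], nat_lit 1271250, nat_lit 1271250, nat_lit 545600, nat_lit 780000, nat_lit 1271250, nat_lit 1271250, [nat_lit 780000, nat_lit 1435000, nat_lit 1271250], [nat_lit 8, nat_lit 40, nat_lit 40, nat_lit 80, nat_lit 1, nat_lit 345, nat_lit 125, nat_lit 9]⟩,
 zbF0, [⟨nat_lit 0, nat_lit 100, nat_lit 89, nat_lit 100, nat_lit 414470277⟩, ⟨nat_lit 4, nat_lit 99, nat_lit 92, nat_lit 100, nat_lit 121900788⟩, ⟨nat_lit 7, nat_lit 87, nat_lit 100, nat_lit 99, nat_lit 11708827⟩, ⟨nat_lit 23, nat_lit 100, nat_lit 84, nat_lit 95, nat_lit 567170623⟩]⟩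
noncomputable def p074_l53 : Lf2 := ⟨nat_lit 0, nat_lit 15, [nat_lit 30, nat_lit 5, nat_lit 5, nat_lit 20], false, nat_lit 240, nat_lit 300, nat_lit 240, nat_lit 320, ⟨nat_lit 1000, nat_lit 0, nat_lit 0, nat_lit 0, nat_lit 0, nat_lit 0, nat_lit 0, nat_lit 0, nat_lit 0, nat_lit 0, nat_lit 0, nat_lit 0, nat_lit 0, nat_lit 0, nat_lit 0, nat_lit 0, false, false⟩,
 nat_lit 24288, nat_lit 0, nat_lit 0, nat_lit 15315, nat_lit 12719, nat_lit 15455, nat_lit 0, nat_lit 0, nat_lit 0, nat_lit 0, nat_lit 0, nat_lit 0, nat_lit 0, nat_lit 0, nat_lit 0, nat_lit 0, nat_lit 0, nat_lit 0, [],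
 ⟨p074_k20, nat_lit 0, nat_lit 0, nat_lit 0, nat_lit 0, nat_lit 91674, [nat_lit 2637500000, nat_lit 3965500000, nat_lit 8885500000], [], [nat_lit 22837528654, nat_lit 25005162196, nat_lit 21232704998, nat_lit 23274469752, nat_lit 27531588830, nat_lit 29666893712, nat_lit 25644324191, nat_lit 27518948838], nat_lit 1271250, nat_lit 1271250, nat_lit 490000, nat_lit 780000, nat_lit 1271250, nat_lit 1271250, [nat_lit 631250, nat_lit 936250, nat_lit 1941250], [nat_lit 246, nat_lit 40, nat_lit 20, nat_lit 40]⟩, ⟨p074_k21, nat_lit 0, nat_lit 0, nat_lit 149, nat_lit 0, nat_lit 101915, [nat_lit 3282000000, nat_lit 4688000000, nat_lit 9842000000], [], [nat_lit 21610734640, nat_lit 22779909600, nat_lit 19509027600, nat_lit 20608258180, nat_lit 29033393740, nat_lit 30519125190, nat_lit 26470932560, nat_lit 27811145835], nat_lit 1271250, nat_lit 1271250, nat_lit 490000, nat_lit 780000, nat_lit 1271250, nat_lit 1271250, [nat_lit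 780000, nat_lit 1100000, nat_lit 2127500], [nat_lit 42, nat_lit 40, nat_lit 40, nat_lit 80, nat_lit 13, nat_lit 345, nat_lit 125, nat_lit 9]⟩,
 zbF0, [⟨nat_lit 0, nat_lit 100, nat_lit 92, nat_lit 94, nat_lit 1249442689⟩, ⟨nat_lit 4, nat_lit 100, nat_lit 91, nat_lit 91, nat_lit 724824887⟩, ⟨nat_lit 7, nat_lit 94, nat_lit 100, nat_lit 92, nat_lit 738190904⟩]⟩
noncomputable def p074_l54 : Lf2 := ⟨nat_lit 0, nat_lit 15, [nat_lit 30, nat_lit 5, nat_lit 5, nat_lit 20], false, nat_lit 240, nat_lit 320, nat_lit 240, nat_lit 336, ⟨nat_lit 1000, nat_lit 0, nat_lit 0, nat_lit 0, nat_lit 0, nat_lit 0, nat_lit 0, nat_lit 0, nat_lit 0, nat_lit 0, nat_lit 0, nat_lit 0, nat_lit 0, nat_lit 0, nat_lit 0, nat_lit 0, false, false⟩,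
 nat_lit 7770, nat_lit 0, nat_lit 0, nat_lit 49073, nat_lit 4891, nat_lit 4944, nat_lit 0, nat_lit 0, nat_lit 0, nat_lit 0, nat_lit 0, nat_lit 0, nat_lit 0, nat_lit 0, nat_lit 0, nat_lit 0, nat_lit 0, nat_lit 0, [],
 ⟨p074_k16, nat_lit 0, nat_lit 0, nat_lit 0, nat_lit 0, nat_lit 22850, [nat_lit 3282000000, nat_lit 9842000000], [], [nat_lit 17827776460, nat_lit 19421984284, nat_lit 17904653014, nat_lit 19419655084, nat_lit 22975143568, nat_lit 24384303028, nat_lit 22786322674, nat_lit 24007230804], nat_lit 1271250, nat_lit 1271250, nat_lit 490000, nat_lit 780000, nat_lit 1271250, nat_lit 1271250, [nat_lit 780000, nat_lit 2090000], [nat_lit 82, nat_lit 40, nat_lit 40, nat_lit 80]⟩, ⟨p074_k17, nat_lit 0, nat_lit 0, nat_lit 91, nat_lit 0, nat_lit 25499, [nat_lit 3282000000, nat_lit 9842000000], [], [nat_lit 16183865024, nat_lit 16985761832, nat_lit 16331837696, nat_lit 17093811136, nat_lit 23041692161, nat_lit 23713316106,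 nat_lit 22771094848, nat_lit 23354997560], nat_lit 1271250, nat_lit 1271250, nat_lit 490000, nat_lit 780000, nat_lit 1271250, nat_lit 1271250, [nat_lit 780000, nat_lit 2090000], [nat_lit 82, nat_lit 40, nat_lit 40, nat_lit 80, nat_lit 63, nat_lit 345, nat_lit 125, nat_lit 9]⟩,
 zbF0, [⟨nat_lit 0, nat_lit 100, nat_lit 89, nat_lit 100, nat_lit 736663790⟩, ⟨nat_lit 16, nat_lit 94, nat_lit 97, nat_lit 100, nat_lit 564608994⟩, ⟨nat_lit 7, nat_lit 87, nat_lit 100, nat_lit 99, nat_lit 579826646⟩]⟩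
noncomputable def p074_l55 : Lf2 := ⟨nat_lit 0, nat_lit 15, [nat_lit 30, nat_lit 5, nat_lit 5, nat_lit 20], false, nat_lit 240, nat_lit 300, nat_lit 160, nat_lit 320, ⟨nat_lit 1000, nat_lit 0, nat_lit 0, nat_lit 0, nat_lit 0, nat_lit 0, nat_lit 0, nat_lit 0, nat_lit 0, nat_lit 0, nat_lit 0, nat_lit 0, nat_lit 0, nat_lit 0, nat_lit 0, nat_lit 0, false, false⟩,
 nat_lit 15261, nat_lit 0, nat_lit 0, nat_lit 0, nat_lit 10565, nat_lit 9711, nat_lit 526, nat_lit 0, nat_lit 0, nat_lit 870, nat_lit 0, nat_lit 0, nat_lit 0, nat_lit 0, nat_lit 0, nat_lit 0, nat_lit 0, nat_lit 0, [],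
 ⟨p074_k12, nat_lit 0, nat_lit 0, nat_lit 0, nat_lit 0, nat_lit 138472, [nat_lit 3282000000, nat_lit 6250000000, nat_lit 9842000000], [], [nat_lit 21138628180, nat_lit 22829742060, nat_lit 20821449350, nat_lit 22394143240, nat_lit 24952356700, nat_lit 26353478485, nat_lit 24352903865, nat_lit 25952366190], nat_lit 1271250, nat_lit 1271250, nat_lit 780000, nat_lit 1100001, nat_lit 1271250, nat_lit 1271250, [nat_lit 780000, nat_lit 1435000, nat_lit 1271250], [nat_lit 8, nat_lit 40, nat_lit 40, nat_lit 80]⟩, ⟨p074_k13, nat_lit 0, nat_lit 0, nat_lit 150, nat_lit 0, nat_lit 153940, [nat_lit 3282000000, nat_lit 6250000000, nat_lit 9842000000], [], [nat_lit 15948556154, nat_lit 16912912728, nat_lit 16110644606, nat_lit 17009034871, nat_lit 24023310702, nat_lit 24644840507, nat_lit 24640699128, nat_lit 24425302024], nat_lit 1271250, nat_lit 1271250, nat_lit 780000, nat_lit 1100001, nat_lit 1100001, nat_lit 2470000, [nat_lit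 780000, nat_lit 1435000, nat_lit 1271250], [nat_lit 8, nat_lit 40, nat_lit 40, nat_lit 80, nat_lit 1, nat_lit 345, nat_lit 125, nat_lit 9]⟩,
 zbF0, [⟨nat_lit 4, nat_lit 100, nat_lit 91, nat_lit 91, nat_lit 643275006⟩, ⟨nat_lit 19, nat_lit 100, nat_lit 88, nat_lit 94, nat_lit 495867001⟩]⟩
noncomputable def p074_l56 : Lf2 := ⟨nat_lit 0, nat_lit 15, [nat_lit 30, nat_lit 5, nat_lit 5, nat_lit 20], false, nat_lit 240, nat_lit 320, nat_lit 160, nat_lit 336, ⟨nat_lit 1000, nat_lit 0, nat_lit 0, nat_lit 0, nat_lit 0, nat_lit 0, nat_lit 0, nat_lit 0, nat_lit 0, nat_lit 0, nat_lit 0, nat_lit 0, nat_lit 0, nat_lit 0, nat_lit 0, nat_lit 0, false, false⟩,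
 nat_lit 7770, nat_lit 0, nat_lit 0, nat_lit 0, nat_lit 4891, nat_lit 4944, nat_lit 0, nat_lit 0, nat_lit 0, nat_lit 0, nat_lit 0, nat_lit 0, nat_lit 0, nat_lit 0, nat_lit 0, nat_lit 0, nat_lit 0, nat_lit 0, [],
 ⟨p074_k16, nat_lit 0, nat_lit 0, nat_lit 0, nat_lit 0, nat_lit 69338, [nat_lit 3282000000, nat_lit 9842000000], [], [nat_lit 17904653014, nat_lit 19419655084, nat_lit 18557211712, nat_lit 19980594160, nat_lit 22786322674, nat_lit 24007230804, nat_lit 23149420386, nat_lit 24300111072], nat_lit 1271250, nat_lit 1271250, nat_lit 780000, nat_lit 1100001, nat_lit 1271250, nat_lit 1271250, [nat_lit 780000, nat_lit 2090000], [nat_lit 82, nat_lit 40, nat_lit 40, nat_lit 80]⟩, ⟨p074_k17, nat_lit 0, nat_lit 0, nat_lit 115, nat_lit 0, nat_lit 77202, [nat_lit 3282000000, nat_lit 9842000000], [], [nat_lit 12644394048, nat_lit 13543438232, nat_lit 13623142272, nat_lit 14466129952, nat_lit 22771094848, nat_lit 23354997560,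 nat_lit 23129883463, nat_lit 23680481652], nat_lit 1271250, nat_lit 1271250, nat_lit 780000, nat_lit 1100001, nat_lit 1271250, nat_lit 1271250, [nat_lit 780000, nat_lit 2090000], [nat_lit 82, nat_lit 40, nat_lit 40, nat_lit 80, nat_lit 63, nat_lit 345, nat_lit 125, nat_lit 9]⟩,
 zbF0, [⟨nat_lit 4, nat_lit 97, nat_lit 94, nat_lit 100, nat_lit 41914217⟩, ⟨nat_lit 11, nat_lit 85, nat_lit 85, nat_lit 100, nat_lit 578038930⟩]⟩
noncomputable def p074_l57 : Lf2 := ⟨nat_lit 0, nat_lit 17, [nat_lit 172, nat_lit 5, nat_lit 5, nat_lit 20], false, nat_lit 240, nat_lit 320, nat_lit 0, nat_lit 336, ⟨nat_lit 1000, nat_lit 0, nat_lit 0, nat_lit 0, nat_lit 0, nat_lit 0, nat_lit 0, nat_lit 0, nat_lit 0, nat_lit 0, nat_lit 0, nat_lit 0, nat_lit 0, nat_lit 0, nat_lit 0, nat_lit 0, false, false⟩,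
 nat_lit 12945, nat_lit 463, nat_lit 0, nat_lit 32284, nat_lit 9282, nat_lit 8237, nat_lit 0, nat_lit 0, nat_lit 0, nat_lit 1111, nat_lit 0, nat_lit 0, nat_lit 0, nat_lit 0, nat_lit 0, nat_lit 0, nat_lit 0, nat_lit 0, [],
 ⟨p074_k22, nat_lit 0, nat_lit 0, nat_lit 0, nat_lit 0, nat_lit 29772, [nat_lit 3282000000, nat_lit 6250000000, nat_lit 9842000000], [], [nat_lit 19148813512, nat_lit 21193683872, nat_lit 18546311476, nat_lit 20345661192, nat_lit 26728781136, nat_lit 28788072056, nat_lit 25153187544, nat_lit 26979944056], nat_lit 1271250, nat_lit 1271250, nat_lit 490000, nat_lit 1100001, nat_lit 1271250, nat_lit 1271250, [nat_lit 780000, nat_lit 1435000, nat_lit 1271250], [nat_lit 8, nat_lit 40, nat_lit 40, nat_lit 80]⟩, ⟨p074_k23, nat_lit 0, nat_lit 0, nat_lit 236, nat_lit 0, nat_lit 33168, [nat_lit 3282000000, nat_lit 6250000000, nat_lit 11872000000], [], [nat_lit 25147712381, nat_lit 26099996491, nat_lit 24157771237,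 nat_lit 25004783633, nat_lit 26336544093, nat_lit 26831297131, nat_lit 24903326823, nat_lit 25522128020], nat_lit 1271250, nat_lit 1271250, nat_lit 490000, nat_lit 1100001, nat_lit 0, nat_lit 2373000, [nat_lit 780000, nat_lit 1435000, nat_lit 1271250], [nat_lit 23, nat_lit 40, nat_lit 40, nat_lit 80, nat_lit 12, nat_lit 428, nat_lit 200, nat_lit 11]⟩,
 zbF0, [⟨nat_lit 0, nat_lit 100, nat_lit 89, nat_lit 100, nat_lit 767499797⟩, ⟨nat_lit 4, nat_lit 100, nat_lit 93, nat_lit 97, nat_lit 796748326⟩, ⟨nat_lit 7, nat_lit 91, nat_lit 100, nat_lit 96, nat_lit 205368571⟩]⟩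
noncomputable def p074_l58 : Lf2 := ⟨nat_lit 1, nat_lit 20, [nat_lit 5, nat_lit 5, nat_lit 5, nat_lit 20], false, nat_lit 240, nat_lit 320, nat_lit 0, nat_lit 336, zbN0,
 nat_lit 0, nat_lit 0, nat_lit 0, nat_lit 0, nat_lit 0, nat_lit 0, nat_lit 0, nat_lit 0, nat_lit 0, nat_lit 0, nat_lit 0, nat_lit 0, nat_lit 0, nat_lit 0, nat_lit 0, nat_lit 0, nat_lit 0, nat_lit 0, [],
 C1.Rw.none, C1.Rw.none,
 zbF0, []⟩
noncomputable def p074_l59 : Lf2 := ⟨nat_lit 0, nat_lit 20, [nat_lit 5, nat_lit 5, nat_lit 5, nat_lit 20], false, nat_lit 240, nat_lit 320, nat_lit 0, nat_lit 160, ⟨nat_lit 1000, nat_lit 0, nat_lit 0, nat_lit 0, nat_lit 0, nat_lit 0, nat_lit 0, nat_lit 0, nat_lit 0, nat_lit 0, nat_lit 0, nat_lit 0, nat_lit 0, nat_lit 0, nat_lit 0, nat_lit 0, false, false⟩,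
 nat_lit 13837, nat_lit 0, nat_lit 0, nat_lit 12924, nat_lit 9579, nat_lit 9189, nat_lit 563, nat_lit 0, nat_lit 0, nat_lit 1565, nat_lit 0, nat_lit 0, nat_lit 0, nat_lit 0, nat_lit 0, nat_lit 0, nat_lit 0, nat_lit 0, [],
 ⟨p074_k2, nat_lit 0, nat_lit 0, nat_lit 0, nat_lit 0, nat_lit 192237, [nat_lit 3282000000, nat_lit 6250000000, nat_lit 9842000000], [], [nat_lit 22446205590, nat_lit 24108986149, nat_lit 21369016260, nat_lit 22848921634, nat_lit 27490366768, nat_lit 28782072832, nat_lit 25839100992, nat_lit 27164947732], nat_lit 1271250, nat_lit 1271250, nat_lit 545600, nat_lit 1100001, nat_lit 1271250, nat_lit 1271250, [nat_lit 780000, nat_lit 1435000, nat_lit 1271250], [nat_lit 8, nat_lit 40, nat_lit 40, nat_lit 80]⟩, ⟨p074_k24, nat_lit 0, nat_lit 0, nat_lit 374, nat_lit 0, nat_lit 202797, [nat_lit 3282000000, nat_lit 6250000000, nat_lit 11872000000], [], [nat_lit 21090900266, nat_lit 22107298497, nat_lit 19917863201,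 nat_lit 21473348280, nat_lit 13881231254, nat_lit 14791271358, nat_lit 20535986418, nat_lit 18428158464], nat_lit 1271250, nat_lit 1271250, nat_lit 545600, nat_lit 1100001, nat_lit 0, nat_lit 1100001, [nat_lit 780000, nat_lit 1435000, nat_lit 1271250], [nat_lit 23, nat_lit 40, nat_lit 40, nat_lit 80, nat_lit 12, nat_lit 401, nat_lit 175, nat_lit 10]⟩,
 zbF0, [⟨nat_lit 0, nat_lit 100, nat_lit 95, nat_lit 100, nat_lit 477489798⟩, ⟨nat_lit 4, nat_lit 100, nat_lit 93, nat_lit 97, nat_lit 594089911⟩]⟩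
noncomputable def p074_l60 : Lf2 := ⟨nat_lit 0, nat_lit 20, [nat_lit 5, nat_lit 5, nat_lit 5, nat_lit 20], false, nat_lit 240, nat_lit 320, nat_lit 160, nat_lit 240, ⟨nat_lit 1000, nat_lit 0, nat_lit 0, nat_lit 0, nat_lit 0, nat_lit 0, nat_lit 0, nat_lit 0, nat_lit 0, nat_lit 0, nat_lit 0, nat_lit 0, nat_lit 0, nat_lit 0, nat_lit 0, nat_lit 0, false, false⟩,
 nat_lit 17970, nat_lit 0, nat_lit 0, nat_lit 5442, nat_lit 12440, nat_lit 11934, nat_lit 200, nat_lit 0, nat_lit 0, nat_lit 1187, nat_lit 0, nat_lit 0, nat_lit 0, nat_lit 0, nat_lit 0, nat_lit 0, nat_lit 0, nat_lit 0, [],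
 ⟨p074_k2, nat_lit 0, nat_lit 0, nat_lit 0, nat_lit 0, nat_lit 192237, [nat_lit 3282000000, nat_lit 6250000000, nat_lit 9842000000], [], [nat_lit 23670132001, nat_lit 25648222224, nat_lit 21823705600, nat_lit 23572848240, nat_lit 29548487536, nat_lit 31512018432, nat_lit 26985889120, nat_lit 28947087520], nat_lit 1271250, nat_lit 1271250, nat_lit 545600, nat_lit 1100001, nat_lit 1271250, nat_lit 1271250, [nat_lit 780000, nat_lit 1435000, nat_lit 1271250], [nat_lit 8, nat_lit 40, nat_lit 40, nat_lit 80]⟩, ⟨p074_k24, nat_lit 0, nat_lit 0, nat_lit 199, nat_lit 0, nat_lit 202797, [nat_lit 3282000000, nat_lit 6250000000, nat_lit 11872000000], [], [nat_lit 15873354710, nat_lit 16884564866, nat_lit 14246440923, nat_lit 15143485767, nat_lit 18098718752, nat_lit 18931558322, nat_lit 16448139848, nat_lit 17868200472], nat_lit 1271250, nat_lit 1271250, nat_lit 545600, nat_lit 1100001, nat_lit 1100001, nat_lit 1785000, [nat_lit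 780000, nat_lit 1435000, nat_lit 1271250], [nat_lit 23, nat_lit 40, nat_lit 40, nat_lit 80, nat_lit 12, nat_lit 401, nat_lit 175, nat_lit 10]⟩,
 zbF0, [⟨nat_lit 0, nat_lit 100, nat_lit 95, nat_lit 100, nat_lit 795753975⟩, ⟨nat_lit 4, nat_lit 100, nat_lit 93, nat_lit 97, nat_lit 676759796⟩]⟩
noncomputable def p074_l61 : Lf2 := ⟨nat_lit 0, nat_lit 15, [nat_lit 30, nat_lit 5, nat_lit 5, nat_lit 20], false, nat_lit 240, nat_lit 300, nat_lit 240, nat_lit 312, ⟨nat_lit 1000, nat_lit 0, nat_lit 0, nat_lit 0, nat_lit 0, nat_lit 0, nat_lit 0, nat_lit 0, nat_lit 0, nat_lit 0, nat_lit 0, nat_lit 0, nat_lit 0, nat_lit 0, nat_lit 0, nat_lit 0, false, false⟩,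
 nat_lit 16022, nat_lit 525, nat_lit 0, nat_lit 0, nat_lit 11455, nat_lit 10640, nat_lit 0, nat_lit 0, nat_lit 0, nat_lit 681, nat_lit 0, nat_lit 0, nat_lit 0, nat_lit 0, nat_lit 0, nat_lit 0, nat_lit 0, nat_lit 0, [],
 ⟨p074_k25, nat_lit 0, nat_lit 0, nat_lit 0, nat_lit 0, nat_lit 181129, [nat_lit 3282000000, nat_lit 7968000001, nat_lit 9842000000], [], [nat_lit 21079484823, nat_lit 23190253350, nat_lit 20054290391, nat_lit 22067328581, nat_lit 25868015521, nat_lit 28409137147, nat_lit 24617930336, nat_lit 26919312895], nat_lit 1271250, nat_lit 1271250, nat_lit 545600, nat_lit 780000, nat_lit 1271250, nat_lit 1271250, [nat_lit 780000, nat_lit 1762500, nat_lit 1271250], [nat_lit 99, nat_lit 40, nat_lit 40, nat_lit 80]⟩, ⟨p074_k26, nat_lit 0, nat_lit 0, nat_lit 185, nat_lit 0, nat_lit 190805, [nat_lit 3282000000, nat_lit 7968000000, nat_lit 9842000000], [], [nat_lit 20512264404, nat_lit 21402120875, nat_lit 19515775315,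 nat_lit 20365222955, nat_lit 25514674190, nat_lit 26665216391, nat_lit 24286253143, nat_lit 25374268417], nat_lit 1271250, nat_lit 1271250, nat_lit 545600, nat_lit 780000, nat_lit 1271250, nat_lit 1271250, [nat_lit 780000, nat_lit 1762500, nat_lit 1271250], [nat_lit 99, nat_lit 40, nat_lit 40, nat_lit 80, nat_lit 17, nat_lit 345, nat_lit 125, nat_lit 9]⟩,
 zbF0, [⟨nat_lit 0, nat_lit 100, nat_lit 95, nat_lit 100, nat_lit 774556679⟩, ⟨nat_lit 16, nat_lit 100, nat_lit 100, nat_lit 100, nat_lit 386855302⟩, ⟨nat_lit 19, nat_lit 100, nat_lit 94, nat_lit 97, nat_lit 351290854⟩, ⟨nat_lit 11, nat_lit 98, nat_lit 98, nat_lit 100, nat_lit 237333874⟩]⟩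
noncomputable def p074_l62 : Lf2 := ⟨nat_lit 0, nat_lit 15, [nat_lit 30, nat_lit 5, nat_lit 5, nat_lit 20], false, nat_lit 240, nat_lit 320, nat_lit 240, nat_lit 328, ⟨nat_lit 1000, nat_lit 0, nat_lit 0, nat_lit 0, nat_lit 0, nat_lit 0, nat_lit 0, nat_lit 0, nat_lit 0, nat_lit 0, nat_lit 0, nat_lit 0, nat_lit 0, nat_lit 0, nat_lit 0, nat_lit 0, false, false⟩,
 nat_lit 11247, nat_lit 476, nat_lit 0, nat_lit 3883, nat_lit 8115, nat_lit 7469, nat_lit 0, nat_lit 0, nat_lit 0, nat_lit 1019, nat_lit 0, nat_lit 0, nat_lit 0, nat_lit 0, nat_lit 0, nat_lit 0, nat_lit 0, nat_lit 0, [],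
 ⟨p074_k12, nat_lit 0, nat_lit 0, nat_lit 0, nat_lit 0, nat_lit 60859, [nat_lit 3282000000, nat_lit 6250000000, nat_lit 9842000000], [], [nat_lit 19965901018, nat_lit 20891255758, nat_lit 19516263730, nat_lit 20401016025, nat_lit 25726485425, nat_lit 26452270929, nat_lit 25027082000, nat_lit 25722171880], nat_lit 1271250, nat_lit 1271250, nat_lit 545600, nat_lit 780000, nat_lit 1271250, nat_lit 1271250, [nat_lit 780000, nat_lit 1435000, nat_lit 1271250], [nat_lit 8, nat_lit 40, nat_lit 40, nat_lit 80]⟩, ⟨p074_k27, nat_lit 0, nat_lit 0, nat_lit 141, nat_lit 0, nat_lit 64158, [nat_lit 3282000000, nat_lit 6250000000, nat_lit 9842000000], [], [nat_lit 20132156089, nat_lit 20847275240, nat_lit 19623554524, nat_lit 20308503368, nat_lit 25300846356, nat_lit 25868956713, nat_lit 24575577000, nat_lit 25101907243], nat_lit 1271250, nat_lit 1271250, nat_lit 545600, nat_lit 780000, nat_lit 1271250, nat_lit 1271250, [nat_lit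 780000, nat_lit 1435000, nat_lit 1271250], [nat_lit 8, nat_lit 40, nat_lit 40, nat_lit 80, nat_lit 1, nat_lit 345, nat_lit 125, nat_lit 9]⟩,
 zbF0, [⟨nat_lit 0, nat_lit 97, nat_lit 93, nat_lit 100, nat_lit 402246194⟩, ⟨nat_lit 4, nat_lit 95, nat_lit 95, nat_lit 100, nat_lit 143254078⟩, ⟨nat_lit 7, nat_lit 92, nat_lit 99, nat_lit 100, nat_lit 78598847⟩, ⟨nat_lit 11, nat_lit 98, nat_lit 98, nat_lit 100, nat_lit 449490157⟩]⟩
noncomputable def p074_l63 : Lf2 := ⟨nat_lit 0, nat_lit 15, [nat_lit 30, nat_lit 5, nat_lit 5, nat_lit 20], false, nat_lit 240, nat_lit 312, nat_lit 240, nat_lit 328, ⟨nat_lit 1000, nat_lit 0, nat_lit 0, nat_lit 0, nat_lit 0, nat_lit 0, nat_lit 0, nat_lit 0, nat_lit 0, nat_lit 0, nat_lit 0, nat_lit 0, nat_lit 0, nat_lit 0, nat_lit 0, nat_lit 0, false, false⟩,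
 nat_lit 14592, nat_lit 0, nat_lit 0, nat_lit 0, nat_lit 5644, nat_lit 9690, nat_lit 0, nat_lit 0, nat_lit 0, nat_lit 925, nat_lit 0, nat_lit 0, nat_lit 0, nat_lit 0, nat_lit 0, nat_lit 0, nat_lit 0, nat_lit 0, [],
 ⟨p074_k28, nat_lit 0, nat_lit 0, nat_lit 0, nat_lit 0, nat_lit 86261, [nat_lit 2637500000, nat_lit 3965500000, nat_lit 8885500000], [], [nat_lit 18881294296, nat_lit 19699885600, nat_lit 18919866244, nat_lit 19716070960, nat_lit 23403355910, nat_lit 24166248432, nat_lit 23322785831, nat_lit 23998465761], nat_lit 1271250, nat_lit 1271250, nat_lit 631250, nat_lit 780000, nat_lit 1271250, nat_lit 1271250, [nat_lit 631250, nat_lit 936250, nat_lit 1941250], [nat_lit 246, nat_lit 40, nat_lit 20, nat_lit 40]⟩, ⟨p074_k29, nat_lit 0, nat_lit 0, nat_lit 144, nat_lit 0, nat_lit 95703, [nat_lit 3282000000, nat_lit 4688000000, nat_lit 9842000000], [], [nat_lit 20721542145, nat_lit 21133294075, nat_lit 20190090365,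 nat_lit 20590173085, nat_lit 26579676541, nat_lit 26889266840, nat_lit 25881263418, nat_lit 26182209081], nat_lit 1271250, nat_lit 1271250, nat_lit 631250, nat_lit 780000, nat_lit 1271250, nat_lit 1271250, [nat_lit 780000, nat_lit 1100000, nat_lit 2127500], [nat_lit 42, nat_lit 40, nat_lit 40, nat_lit 80, nat_lit 13, nat_lit 345, nat_lit 125, nat_lit 9]⟩,
 zbF0, [⟨nat_lit 0, nat_lit 100, nat_lit 92, nat_lit 100, nat_lit 426210433⟩, ⟨nat_lit 4, nat_lit 99, nat_lit 92, nat_lit 100, nat_lit 171298270⟩, ⟨nat_lit 19, nat_lit 99, nat_lit 91, nat_lit 100, nat_lit 180135553⟩, ⟨nat_lit 11, nat_lit 95, nat_lit 95, nat_lit 100, nat_lit 405641696⟩]⟩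
noncomputable def p074_l64 : Lf2 := ⟨nat_lit 0, nat_lit 15, [nat_lit 30, nat_lit 5, nat_lit 5, nat_lit 20], false, nat_lit 240, nat_lit 312, nat_lit 240, nat_lit 324, ⟨nat_lit 1000, nat_lit 0, nat_lit 0, nat_lit 0, nat_lit 0, nat_lit 0, nat_lit 0, nat_lit 0, nat_lit 0, nat_lit 0, nat_lit 0, nat_lit 0, nat_lit 0, nat_lit 0, nat_lit 0, nat_lit 0, false, false⟩,
 nat_lit 14163, nat_lit 0, nat_lit 0, nat_lit 0, nat_lit 10210, nat_lit 9604, nat_lit 0, nat_lit 0, nat_lit 23, nat_lit 672, nat_lit 0, nat_lit 0, nat_lit 0, nat_lit 0, nat_lit 0, nat_lit 0, nat_lit 0, nat_lit 0, [],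
 ⟨p074_k30, nat_lit 0, nat_lit 0, nat_lit 0, nat_lit 0, nat_lit 107093, [nat_lit 3282000000, nat_lit 7968000001, nat_lit 9842000000], [], [nat_lit 21978460072, nat_lit 22931407769, nat_lit 21535104071, nat_lit 22465915961, nat_lit 27012918437, nat_lit 27931224984, nat_lit 26451902945, nat_lit 27278568029], nat_lit 1271250, nat_lit 1271250, nat_lit 660400, nat_lit 780000, nat_lit 1271250, nat_lit 1271250, [nat_lit 780000, nat_lit 1762500, nat_lit 1271250], [nat_lit 99, nat_lit 40, nat_lit 40, nat_lit 80]⟩, ⟨p074_k31, nat_lit 0, nat_lit 0, nat_lit 151, nat_lit 0, nat_lit 115695, [nat_lit 3282000000, nat_lit 7968000000, nat_lit 9842000000], [], [nat_lit 20934430464, nat_lit 21341548464, nat_lit 20506619036, nat_lit 20904471088, nat_lit 26296026719, nat_lit 26662883378, nat_lit 25745026500, nat_lit 26086136649], nat_lit 1271250, nat_lit 1271250, nat_lit 660400, nat_lit 780000, nat_lit 1271250, nat_lit 1271250, [nat_lit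 780000, nat_lit 1762500, nat_lit 1271250], [nat_lit 99, nat_lit 40, nat_lit 40, nat_lit 80, nat_lit 17, nat_lit 345, nat_lit 125, nat_lit 9]⟩,
 zbF0, [⟨nat_lit 0, nat_lit 97, nat_lit 91, nat_lit 100, nat_lit 601591790⟩, ⟨nat_lit 4, nat_lit 99, nat_lit 92, nat_lit 100, nat_lit 187124499⟩, ⟨nat_lit 7, nat_lit 93, nat_lit 98, nat_lit 100, nat_lit 158361100⟩, ⟨nat_lit 11, nat_lit 94, nat_lit 94, nat_lit 100, nat_lit 423724405⟩]⟩
noncomputable def p074_l65 : Lf2 := ⟨nat_lit 0, nat_lit 15, [nat_lit 30, nat_lit 5, nat_lit 5, nat_lit 20], false, nat_lit 240, nat_lit 320, nat_lit 240, nat_lit 328, ⟨nat_lit 1000, nat_lit 0, nat_lit 0, nat_lit 0, nat_lit 0, nat_lit 0, nat_lit 0, nat_lit 0, nat_lit 0, nat_lit 0, nat_lit 0, nat_lit 0, nat_lit 0, nat_lit 0, nat_lit 0, nat_lit 0, false, false⟩,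
 nat_lit 15136, nat_lit 0, nat_lit 0, nat_lit 0, nat_lit 10393, nat_lit 10052, nat_lit 0, nat_lit 0, nat_lit 0, nat_lit 640, nat_lit 0, nat_lit 0, nat_lit 0, nat_lit 0, nat_lit 0, nat_lit 0, nat_lit 0, nat_lit 0, [],
 ⟨p074_k25, nat_lit 0, nat_lit 0, nat_lit 0, nat_lit 0, nat_lit 167417, [nat_lit 3282000000, nat_lit 7968000001, nat_lit 9842000000], [], [nat_lit 20994311195, nat_lit 22878191069, nat_lit 20894602823, nat_lit 22647052709, nat_lit 26727884591, nat_lit 28185273149, nat_lit 26211255907, nat_lit 27671994844], nat_lit 1271250, nat_lit 1271250, nat_lit 780000, nat_lit 1100001, nat_lit 1271250, nat_lit 1271250, [nat_lit 780000, nat_lit 1762500, nat_lit 1271250], [nat_lit 99, nat_lit 40, nat_lit 40, nat_lit 80]⟩, ⟨p074_k26, nat_lit 0, nat_lit 0, nat_lit 167, nat_lit 0, nat_lit 176493, [nat_lit 3282000000, nat_lit 7968000000, nat_lit 9842000000], [], [nat_lit 20279825992, nat_lit 20689298268, nat_lit 20076727124,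 nat_lit 20457831502, nat_lit 26091472934, nat_lit 26398576435, nat_lit 25579841506, nat_lit 26035577846], nat_lit 1271250, nat_lit 1271250, nat_lit 780000, nat_lit 1100001, nat_lit 1271250, nat_lit 1271250, [nat_lit 780000, nat_lit 1762500, nat_lit 1271250], [nat_lit 99, nat_lit 40, nat_lit 40, nat_lit 80, nat_lit 17, nat_lit 345, nat_lit 125, nat_lit 9]⟩,
 zbF0, [⟨nat_lit 4, nat_lit 100, nat_lit 93, nat_lit 97, nat_lit 272175662⟩, ⟨nat_lit 19, nat_lit 97, nat_lit 84, nat_lit 100, nat_lit 247601721⟩, ⟨nat_lit 11, nat_lit 85, nat_lit 85, nat_lit 100, nat_lit 388436816⟩]⟩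
noncomputable def p074_l66 : Lf2 := ⟨nat_lit 0, nat_lit 15, [nat_lit 30, nat_lit 5, nat_lit 5, nat_lit 20], false, nat_lit 240, nat_lit 320, nat_lit 240, nat_lit 324, ⟨nat_lit 1000, nat_lit 0, nat_lit 0, nat_lit 0, nat_lit 0, nat_lit 0, nat_lit 0, nat_lit 0, nat_lit 0, nat_lit 0, nat_lit 0, nat_lit 0, nat_lit 0, nat_lit 0, nat_lit 0, nat_lit 0, false, false⟩,
 nat_lit 14180, nat_lit 0, nat_lit 0, nat_lit 0, nat_lit 9816, nat_lit 9616, nat_lit 0, nat_lit 0, nat_lit 29, nat_lit 665, nat_lit 0, nat_lit 0, nat_lit 0, nat_lit 0, nat_lit 0, nat_lit 0, nat_lit 0, nat_lit 0, [],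
 ⟨p074_k25, nat_lit 0, nat_lit 0, nat_lit 0, nat_lit 0, nat_lit 190101, [nat_lit 3282000000, nat_lit 7968000001, nat_lit 9842000000], [], [nat_lit 20809038129, nat_lit 22622744417, nat_lit 20764493265, nat_lit 22453068097, nat_lit 26351756081, nat_lit 27759865377, nat_lit 25910015073, nat_lit 27312576928], nat_lit 1271250, nat_lit 1271250, nat_lit 780000, nat_lit 1100001, nat_lit 1271250, nat_lit 1271250, [nat_lit 780000, nat_lit 1762500, nat_lit 1271250], [nat_lit 99, nat_lit 40, nat_lit 40, nat_lit 80]⟩, ⟨p074_k31, nat_lit 0, nat_lit 0, nat_lit 174, nat_lit 0, nat_lit 195143, [nat_lit 3282000000, nat_lit 7968000000, nat_lit 9842000000], [], [nat_lit 20551066694, nat_lit 20949230002, nat_lit 20367285466, nat_lit 20738132290, nat_lit 25793098815, nat_lit 26097379822, nat_lit 25337595979, nat_lit 25787331552], nat_lit 1271250, nat_lit 1271250, nat_lit 780000, nat_lit 1100001, nat_lit 1271250, nat_lit 1271250, [nat_lit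 780000, nat_lit 1762500, nat_lit 1271250], [nat_lit 99, nat_lit 40, nat_lit 40, nat_lit 80, nat_lit 17, nat_lit 345, nat_lit 125, nat_lit 9]⟩,
 zbF0, [⟨nat_lit 0, nat_lit 94, nat_lit 87, nat_lit 100, nat_lit 382833686⟩, ⟨nat_lit 4, nat_lit 100, nat_lit 93, nat_lit 97, nat_lit 269720684⟩, ⟨nat_lit 19, nat_lit 96, nat_lit 86, nat_lit 100, nat_lit 254573328⟩, ⟨nat_lit 11, nat_lit 85, nat_lit 85, nat_lit 100, nat_lit 361215664⟩]⟩
noncomputable def p074_l67 : Lf2 := ⟨nat_lit 0, nat_lit 20, [nat_lit 5, nat_lit 5, nat_lit 5, nat_lit 20], false, nat_lit 240, nat_lit 320, nat_lit 240, nat_lit 328, ⟨nat_lit 1000, nat_lit 0, nat_lit 0, nat_lit 0, nat_lit 0, nat_lit 0, nat_lit 0, nat_lit 0, nat_lit 0, nat_lit 0, nat_lit 0, nat_lit 0, nat_lit 0, nat_lit 0, nat_lit 0, nat_lit 0, false, false⟩,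
 nat_lit 14444, nat_lit 383, nat_lit 0, nat_lit 32565, nat_lit 10264, nat_lit 9592, nat_lit 0, nat_lit 0, nat_lit 0, nat_lit 835, nat_lit 0, nat_lit 0, nat_lit 0, nat_lit 0, nat_lit 0, nat_lit 0, nat_lit 0, nat_lit 0, [],
 ⟨p074_k32, nat_lit 0, nat_lit 0, nat_lit 0, nat_lit 0, nat_lit 81360, [nat_lit 3282000000, nat_lit 7968000001, nat_lit 9842000000], [], [nat_lit 21958861579, nat_lit 23915994440, nat_lit 21021119057, nat_lit 22759288385, nat_lit 27923109016, nat_lit 29436968456, nat_lit 26299512289, nat_lit 27645046433], nat_lit 1271250, nat_lit 1271250, nat_lit 545600, nat_lit 1100001, nat_lit 1271250, nat_lit 1271250, [nat_lit 780000, nat_lit 1762500, nat_lit 1271250], [nat_lit 99, nat_lit 40, nat_lit 40, nat_lit 80]⟩, ⟨p074_k33, nat_lit 0, nat_lit 0, nat_lit 182, nat_lit 0, nat_lit 85829, [nat_lit 3282000000, nat_lit 7968000000, nat_lit 11872000000], [], [nat_lit 22083332239, nat_lit 22809716199, nat_lit 20740058723,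 nat_lit 21386938339, nat_lit 27205970255, nat_lit 27750478966, nat_lit 25614720085, nat_lit 26242679668], nat_lit 1271250, nat_lit 1271250, nat_lit 545600, nat_lit 1100001, nat_lit 1271250, nat_lit 1271250, [nat_lit 780000, nat_lit 1762500, nat_lit 1271250], [nat_lit 79, nat_lit 40, nat_lit 40, nat_lit 80, nat_lit 14, nat_lit 428, nat_lit 200, nat_lit 10]⟩,
 zbF0, [⟨nat_lit 0, nat_lit 94, nat_lit 87, nat_lit 100, nat_lit 884256219⟩, ⟨nat_lit 4, nat_lit 100, nat_lit 93, nat_lit 97, nat_lit 653010701⟩, ⟨nat_lit 7, nat_lit 97, nat_lit 100, nat_lit 98, nat_lit 532442597⟩]⟩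
noncomputable def p074_l68 : Lf2 := ⟨nat_lit 0, nat_lit 20, [nat_lit 5, nat_lit 5, nat_lit 5, nat_lit 20], false, nat_lit 240, nat_lit 320, nat_lit 240, nat_lit 328, ⟨nat_lit 1000, nat_lit 0, nat_lit 0, nat_lit 0, nat_lit 0, nat_lit 0, nat_lit 0, nat_lit 0, nat_lit 0, nat_lit 0, nat_lit 0, nat_lit 0, nat_lit 0, nat_lit 0, nat_lit 0, nat_lit 0, false, false⟩,
 nat_lit 11053, nat_lit 23693, nat_lit 0, nat_lit 0, nat_lit 24054, nat_lit 7340, nat_lit 1215, nat_lit 0, nat_lit 0, nat_lit 1118, nat_lit 0, nat_lit 0, nat_lit 0, nat_lit 0, nat_lit 0, nat_lit 0, nat_lit 0, nat_lit 0, [],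
 ⟨p074_k2, nat_lit 0, nat_lit 0, nat_lit 0, nat_lit 0, nat_lit 192237, [nat_lit 3282000000, nat_lit 6250000000, nat_lit 9842000000], [], [nat_lit 8745561591, nat_lit 12003626109, nat_lit 3776479010, nat_lit 6618568734, nat_lit 18010262208, nat_lit 21267857167, nat_lit 12599154084, nat_lit 15872070368], nat_lit 1271250, nat_lit 1271250, nat_lit 545600, nat_lit 1100001, nat_lit 1271250, nat_lit 1271250, [nat_lit 780000, nat_lit 1435000, nat_lit 1271250], [nat_lit 8, nat_lit 40, nat_lit 40, nat_lit 80]⟩, ⟨p074_k24, nat_lit 0, nat_lit 0, nat_lit 217, nat_lit 0, nat_lit 202797, [nat_lit 3282000000, nat_lit 6250000000, nat_lit 11872000000], [], [nat_lit 20789910314, nat_lit 21413929615, nat_lit 20104008210, nat_lit 20664134030, nat_lit 25275773891, nat_lit 25754629643, nat_lit 24415295156, nat_lit 25013825269], nat_lit 1271250, nat_lit 1271250, nat_lit 545600, nat_lit 1100001, nat_lit 1271250, nat_lit 1271250, [nat_lit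 780000, nat_lit 1435000, nat_lit 1271250], [nat_lit 23, nat_lit 40, nat_lit 40, nat_lit 80, nat_lit 12, nat_lit 428, nat_lit 200, nat_lit 10]⟩,
 zbF0, [⟨nat_lit 0, nat_lit 94, nat_lit 87, nat_lit 100, nat_lit 1178185035⟩, ⟨nat_lit 4, nat_lit 100, nat_lit 93, nat_lit 97, nat_lit 912383123⟩, ⟨nat_lit 7, nat_lit 97, nat_lit 100, nat_lit 98, nat_lit 502634415⟩]⟩
noncomputable def p074_l69 : Lf2 := ⟨nat_lit 0, nat_lit 20, [nat_lit 5, nat_lit 5, nat_lit 5, nat_lit 20], false, nat_lit 240, nat_lit 320, nat_lit 0, nat_lit 336, ⟨nat_lit 0, nat_lit 0, nat_lit 1000, nat_lit 7, nat_lit 183, nat_lit 1000, nat_lit 213, nat_lit 1000, nat_lit 4748, nat_lit 203, nat_lit 8067, nat_lit 237, nat_lit 42693796, nat_lit 0, nat_lit 0, nat_lit 4867515, false, false⟩,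
 nat_lit 44444, nat_lit 100000, nat_lit 0, nat_lit 0, nat_lit 99999, nat_lit 0, nat_lit 11762, nat_lit 7738, nat_lit 0, nat_lit 0, nat_lit 0, nat_lit 0, nat_lit 0, nat_lit 0, nat_lit 0, nat_lit 1000000, nat_lit 0, nat_lit 0, [(nat_lit 16, [(nat_lit 6, nat_lit 1000)])],
 ⟨p074_k2, nat_lit 0, nat_lit 0, nat_lit 190, nat_lit 0, nat_lit 192237, [nat_lit 93842400000, nat_lit 152449600000, nat_lit 208947200000], [], [nat_lit 86367154196, nat_lit 96503174568, nat_lit 59552078358, nat_lit 68064378680, nat_lit 116394738046, nat_lit 126075077010, nat_lit 88226477606, nat_lit 96347103806], nat_lit 1271250, nat_lit 1271250, nat_lit 490000, nat_lit 1100001, nat_lit 1271250, nat_lit 1271250, [nat_lit 780000, nat_lit 1435000, nat_lit 1271250], [nat_lit 8, nat_lit 40, nat_lit 40, nat_lit 80, nat_lit 1, nat_lit 345, nat_lit 125, nat_lit 9]⟩, ⟨p074_k3, nat_lit 0, nat_lit 0, nat_lit 381, nat_lit 0, nat_lit 214339, [nat_lit 0, nat_lit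 0, nat_lit 0], [], [nat_lit 0, nat_lit 0, nat_lit 0, nat_lit 0, nat_lit 0, nat_lit 0, nat_lit 0, nat_lit 0], nat_lit 1271250, nat_lit 1271250, nat_lit 490000, nat_lit 1100001, nat_lit 0, nat_lit 2373000, [nat_lit 780000, nat_lit 1435000, nat_lit 1271250], [nat_lit 23, nat_lit 40, nat_lit 40, nat_lit 80, nat_lit 12, nat_lit 428, nat_lit 200, nat_lit 11]⟩,
 ⟨nat_lit 4472, nat_lit 5000, ⟨.ofNat (nat_lit 371392), .ofNat (nat_lit 514240), .ofNat (nat_lit 392808), .ofNat (nat_lit 535656), .ofNat (nat_lit 382295), .ofNat (nat_lit 518242), .ofNat (nat_lit 403849), .ofNat (nat_lit 539796)⟩, ⟨.ofNat (nat_lit 442856), .ofNat (nat_lit 585713), .ofNat (nat_lit 485713), .ofNat (nat_lit 628570), .ofNat (nat_lit 438578), .ofNat (nat_lit 574534), .ofNat (nat_lit 481711), .ofNat (nat_lit 617667)⟩⟩, [⟨nat_lit 0, nat_lit 94, nat_lit 87, nat_lit 100, nat_lit 2248966091⟩, ⟨nat_lit 4, nat_lit 100, nat_lit 93, nat_lit 97, nat_lit 6372465534⟩]⟩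
noncomputable def b_V_700_700_20_66 : St := ⟨true, nat_lit 1, nat_lit 1, nat_lit 1, nat_lit 120, nat_lit 300, nat_lit 320, nat_lit 280, nat_lit 300, nat_lit 64, nat_lit 160, nat_lit 80, nat_lit 120, nat_lit 240, nat_lit 336, nat_lit 0, nat_lit 336, nat_lit 40, nat_lit 80, nat_lit 0, nat_lit 0, nat_lit 0, nat_lit 0⟩
theorem d_V_700_700_20_66 (h : EB TB.env) : Dead b_V_700_700_20_66 := chkB_sound0 h (T :=
(.trZ (nat_lit 0) (nat_lit 100) (nat_lit 94) (nat_lit 88) (nat_lit 80) (.trX (nat_lit 16) (nat_lit 94) (nat_lit 88) (nat_lit 100) (nat_lit 320) (.spl (nat_lit 7) (nat_lit 600)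
(.spl (nat_lit 7) (nat_lit 300)
(.leaf p074_l47)
(.spl (nat_lit 1) (nat_lit 290)
(.spl (nat_lit 6) (nat_lit 68)
(.spl (nat_lit 6) (nat_lit 60)
(.spl (nat_lit 5) (nat_lit 160)
(.leaf p074_l48)
(.spl (nat_lit 2) (nat_lit 120)
(.spl (nat_lit 5) (nat_lit 240)
(.leaf p074_l49)
(.spl (nat_lit 6) (nat_lit 48)
(.spl (nat_lit 3) (nat_lit 100)
(.trX (nat_lit 16) (nat_lit 100) (nat_lit 100) (nat_lit 100) (nat_lit 300) (.trX (nat_lit 19) (nat_lit 100) (nat_lit 88) (nat_lit 94) (nat_lit 320) (.leaf p074_l50)))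
(.spl (nat_lit 0) (nat_lit 310)
(.leaf p074_l51)
(.trZ (nat_lit 0) (nat_lit 100) (nat_lit 91) (nat_lit 91) (nat_lit 88) (.trX (nat_lit 16) (nat_lit 91) (nat_lit 91) (nat_lit 100) (nat_lit 312) (.leaf p074_l52)))))
(.spl (nat_lit 3) (nat_lit 100)
(.trX (nat_lit 16) (nat_lit 100) (nat_lit 100) (nat_lit 100) (nat_lit 300) (.trX (nat_lit 19) (nat_lit 100) (nat_lit 88) (nat_lit 94) (nat_lit 320) (.leaf p074_l53)))
(.leaf p074_l54))))
(.spl (nat_lit 3) (nat_lit 100)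
(.trX (nat_lit 16) (nat_lit 100) (nat_lit 100) (nat_lit 100) (nat_lit 300) (.trX (nat_lit 19) (nat_lit 100) (nat_lit 88) (nat_lit 94) (nat_lit 320) (.leaf p074_l55)))
(.leaf p074_l56))))
(.leaf p074_l57))
(.leaf p074_l58))
(.trZ (nat_lit 0) (nat_lit 100) (nat_lit 97) (nat_lit 94) (nat_lit 88) (.trX (nat_lit 19) (nat_lit 97) (nat_lit 84) (nat_lit 100) (nat_lit 328) (.spl (nat_lit 5) (nat_lit 160)
(.leaf p074_l59)
(.spl (nat_lit 5) (nat_lit 240)
(.leaf p074_l60)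
(.spl (nat_lit 7) (nat_lit 460)
(.spl (nat_lit 6) (nat_lit 60)
(.spl (nat_lit 2) (nat_lit 120)
(.spl (nat_lit 3) (nat_lit 100)
(.trX (nat_lit 16) (nat_lit 100) (nat_lit 100) (nat_lit 100) (nat_lit 300) (.trX (nat_lit 19) (nat_lit 100) (nat_lit 94) (nat_lit 97) (nat_lit 312) (.leaf p074_l61)))
(.spl (nat_lit 0) (nat_lit 310)
(.leaf p074_l62)
(.trZ (nat_lit 0) (nat_lit 100) (nat_lit 94) (nat_lit 97) (nat_lit 100) (.trX (nat_lit 16) (nat_lit 91) (nat_lit 91) (nat_lit 100) (nat_lit 312) (.spl (nat_lit 1) (nat_lit 295)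
(.leaf p074_l63)
(.trZ (nat_lit 0) (nat_lit 100) (nat_lit 95) (nat_lit 100) (nat_lit 104) (.trX (nat_lit 19) (nat_lit 96) (nat_lit 86) (nat_lit 100) (nat_lit 324) (.leaf p074_l64))))))))
(.spl (nat_lit 1) (nat_lit 295)
(.leaf p074_l65)
(.trX (nat_lit 19) (nat_lit 96) (nat_lit 86) (nat_lit 100) (nat_lit 324) (.leaf p074_l66))))
(.leaf p074_l67))
(.leaf p074_l68))))))))
(.leaf p074_l69))))) (by decide +kernel)
noncomputable def p074_l70 : Lf2 := ⟨nat_lit 0, nat_lit 15, [nat_lit 30, nat_lit 5, nat_lit 5, nat_lit 20], false, nat_lit 240, nat_lit 336, nat_lit 0, nat_lit 336, ⟨nat_lit 1000, nat_lit 0, nat_lit 0, nat_lit 0, nat_lit 0, nat_lit 0, nat_lit 0, nat_lit 0, nat_lit 0, nat_lit 0, nat_lit 0, nat_lit 0, nat_lit 0, nat_lit 0, nat_lit 0, nat_lit 0, false, false⟩,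
 nat_lit 20933, nat_lit 0, nat_lit 0, nat_lit 6934, nat_lit 4943, nat_lit 13321, nat_lit 0, nat_lit 0, nat_lit 0, nat_lit 0, nat_lit 0, nat_lit 0, nat_lit 0, nat_lit 0, nat_lit 0, nat_lit 0, nat_lit 0, nat_lit 0, [],
 ⟨p074_k13, nat_lit 0, nat_lit 0, nat_lit 82, nat_lit 0, nat_lit 94779, [nat_lit 3282000000, nat_lit 6250000000, nat_lit 9842000000], [], [nat_lit 17074481872, nat_lit 18505899776, nat_lit 19911273320, nat_lit 21132335094, nat_lit 23130415153, nat_lit 24231509631, nat_lit 25082091217, nat_lit 26117328271], nat_lit 1271250, nat_lit 1271250, nat_lit 1100001, nat_lit 1785000, nat_lit 1271250, nat_lit 1271250, [nat_lit 780000, nat_lit 1435000, nat_lit 1271250], [nat_lit 8, nat_lit 40, nat_lit 40, nat_lit 80, nat_lit 1, nat_lit 373, nat_lit 150, nat_lit 10]⟩, ⟨p074_k13, nat_lit 0, nat_lit 0, nat_lit 196, nat_lit 0, nat_lit 94779, [nat_lit 3282000000, nat_lit 6250000000, nat_lit 9842000000], [], [nat_lit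 35744446844, nat_lit 31940790198, nat_lit 32677917060, nat_lit 34905685674, nat_lit 28245970354, nat_lit 29540976884, nat_lit 29418468566, nat_lit 31208937128], nat_lit 1271250, nat_lit 1271250, nat_lit 1100001, nat_lit 1785000, nat_lit 0, nat_lit 2373000, [nat_lit 780000, nat_lit 1435000, nat_lit 1271250], [nat_lit 8, nat_lit 40, nat_lit 40, nat_lit 80, nat_lit 1, nat_lit 373, nat_lit 150, nat_lit 11]⟩,
 zbF0, [⟨nat_lit 4, nat_lit 94, nat_lit 100, nat_lit 97, nat_lit 563003742⟩, ⟨nat_lit 7, nat_lit 94, nat_lit 100, nat_lit 97, nat_lit 131557115⟩]⟩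
noncomputable def p074_l71 : Lf2 := ⟨nat_lit 0, nat_lit 15, [nat_lit 30, nat_lit 5, nat_lit 5, nat_lit 20], false, nat_lit 240, nat_lit 320, nat_lit 0, nat_lit 336, ⟨nat_lit 1000, nat_lit 0, nat_lit 0, nat_lit 0, nat_lit 0, nat_lit 0, nat_lit 0, nat_lit 0, nat_lit 0, nat_lit 0, nat_lit 0, nat_lit 0, nat_lit 0, nat_lit 0, nat_lit 0, nat_lit 0, false, false⟩,
 nat_lit 20551, nat_lit 0, nat_lit 0, nat_lit 0, nat_lit 13824, nat_lit 13077, nat_lit 0, nat_lit 0, nat_lit 0, nat_lit 44, nat_lit 0, nat_lit 0, nat_lit 0, nat_lit 0, nat_lit 0, nat_lit 0, nat_lit 0, nat_lit 0, [],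
 ⟨p074_k12, nat_lit 0, nat_lit 0, nat_lit 158, nat_lit 0, nat_lit 190101, [nat_lit 3282000000, nat_lit 6250000000, nat_lit 9842000000], [], [nat_lit 22238706560, nat_lit 24118091904, nat_lit 23724612832, nat_lit 25255052928, nat_lit 27735690752, nat_lit 29809192192, nat_lit 29456741792, nat_lit 31422173312], nat_lit 1271250, nat_lit 1271250, nat_lit 1100001, nat_lit 1785000, nat_lit 1271250, nat_lit 1271250, [nat_lit 780000, nat_lit 1435000, nat_lit 1271250], [nat_lit 8, nat_lit 40, nat_lit 40, nat_lit 80, nat_lit 1, nat_lit 373, nat_lit 150, nat_lit 10]⟩, ⟨p074_k13, nat_lit 0, nat_lit 0, nat_lit 289, nat_lit 0, nat_lit 211662, [nat_lit 3282000000, nat_lit 6250000000, nat_lit 9842000000], [], [nat_lit 35630654028, nat_lit 31606614426, nat_lit 32357936720, nat_lit 34556490238, nat_lit 28109092104, nat_lit 29390020419, nat_lit 37305302682, nat_lit 31633504396], nat_lit 1271250, nat_lit 1271250, nat_lit 1100001, nat_lit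 1785000, nat_lit 0, nat_lit 2373000, [nat_lit 780000, nat_lit 1435000, nat_lit 1271250], [nat_lit 8, nat_lit 40, nat_lit 40, nat_lit 80, nat_lit 1, nat_lit 373, nat_lit 150, nat_lit 11]⟩,
 zbF0, [⟨nat_lit 4, nat_lit 100, nat_lit 93, nat_lit 97, nat_lit 664796851⟩, ⟨nat_lit 7, nat_lit 94, nat_lit 100, nat_lit 97, nat_lit 122850814⟩]⟩
noncomputable def p074_l72 : Lf2 := ⟨nat_lit 0, nat_lit 20, [nat_lit 5, nat_lit 5, nat_lit 5, nat_lit 20], false, nat_lit 240, nat_lit 336, nat_lit 0, nat_lit 336, ⟨nat_lit 1000, nat_lit 0, nat_lit 0, nat_lit 0, nat_lit 0, nat_lit 0, nat_lit 0, nat_lit 0, nat_lit 0, nat_lit 0, nat_lit 0, nat_lit 0, nat_lit 0, nat_lit 0, nat_lit 0, nat_lit 0, false, false⟩,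
 nat_lit 14722, nat_lit 0, nat_lit 0, nat_lit 20799, nat_lit 9368, nat_lit 9368, nat_lit 0, nat_lit 0, nat_lit 0, nat_lit 901, nat_lit 0, nat_lit 0, nat_lit 0, nat_lit 0, nat_lit 0, nat_lit 0, nat_lit 0, nat_lit 0, [],
 ⟨p074_k3, nat_lit 0, nat_lit 0, nat_lit 88, nat_lit 0, nat_lit 90714, [nat_lit 3282000000, nat_lit 6250000000, nat_lit 11872000000], [], [nat_lit 16645626240, nat_lit 20266090208, nat_lit 19399878336, nat_lit 23204902048, nat_lit 25307836532, nat_lit 28763579674, nat_lit 27371551405, nat_lit 30241565197], nat_lit 1271250, nat_lit 1271250, nat_lit 1100001, nat_lit 1785000, nat_lit 1271250, nat_lit 1271250, [nat_lit 780000, nat_lit 1435000, nat_lit 1271250], [nat_lit 23, nat_lit 40, nat_lit 40, nat_lit 80, nat_lit 12, nat_lit 456, nat_lit 225, nat_lit 11]⟩, ⟨p074_k3, nat_lit 0, nat_lit 0, nat_lit 232, nat_lit 0, nat_lit 90714, [nat_lit 3282000000, nat_lit 6250000000, nat_lit 11872000000], [], [nat_lit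 33900909952, nat_lit 29022261648, nat_lit 28951663579, nat_lit 30478268219, nat_lit 26111056418, nat_lit 27037258786, nat_lit 28743939591, nat_lit 28806558301], nat_lit 1271250, nat_lit 1271250, nat_lit 1100001, nat_lit 1785000, nat_lit 0, nat_lit 2373000, [nat_lit 780000, nat_lit 1435000, nat_lit 1271250], [nat_lit 23, nat_lit 40, nat_lit 40, nat_lit 80, nat_lit 12, nat_lit 456, nat_lit 225, nat_lit 12]⟩,
 zbF0, [⟨nat_lit 4, nat_lit 100, nat_lit 100, nat_lit 100, nat_lit 690525973⟩, ⟨nat_lit 19, nat_lit 100, nat_lit 94, nat_lit 97, nat_lit 129926670⟩]⟩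
noncomputable def b_V_700_700_20_67 : St := ⟨true, nat_lit 1, nat_lit 1, nat_lit 1, nat_lit 120, nat_lit 280, nat_lit 320, nat_lit 280, nat_lit 300, nat_lit 160, nat_lit 240, nat_lit 80, nat_lit 120, nat_lit 240, nat_lit 336, nat_lit 0, nat_lit 336, nat_lit 40, nat_lit 80, nat_lit 0, nat_lit 0, nat_lit 0, nat_lit 0⟩
theorem d_V_700_700_20_67 (h : EB TB.env) : Dead b_V_700_700_20_67 := chkB_sound0 h (T :=
(.spl (nat_lit 6) (nat_lit 60)
(.spl (nat_lit 0) (nat_lit 300)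
(.leaf p074_l70)
(.trX (nat_lit 16) (nat_lit 94) (nat_lit 88) (nat_lit 100) (nat_lit 320) (.leaf p074_l71)))
(.leaf p074_l72))) (by decide +kernel)
noncomputable def p074_l73 : Lf2 := ⟨nat_lit 0, nat_lit 20, [nat_lit 5, nat_lit 5, nat_lit 5, nat_lit 20], false, nat_lit 160, nat_lit 320, nat_lit 0, nat_lit 160, ⟨nat_lit 1000, nat_lit 0, nat_lit 0, nat_lit 0, nat_lit 0, nat_lit 0, nat_lit 0, nat_lit 0, nat_lit 0, nat_lit 0, nat_lit 0, nat_lit 0, nat_lit 0, nat_lit 0, nat_lit 0, nat_lit 0, false, false⟩,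
 nat_lit 14687, nat_lit 0, nat_lit 0, nat_lit 2629, nat_lit 10167, nat_lit 7568, nat_lit 480, nat_lit 0, nat_lit 0, nat_lit 1238, nat_lit 0, nat_lit 0, nat_lit 0, nat_lit 394884436463, nat_lit 0, nat_lit 0, nat_lit 0, nat_lit 0, [],
 ⟨p074_k2, nat_lit 0, nat_lit 0, nat_lit 215, nat_lit 0, nat_lit 292681, [nat_lit 3282000000, nat_lit 6250000000, nat_lit 9842000000], [], [nat_lit 20755279556, nat_lit 21802015318, nat_lit 21529575230, nat_lit 23064814932, nat_lit 27529887980, nat_lit 28844377040, nat_lit 28905757296, nat_lit 29248862096], nat_lit 1271250, nat_lit 1271250, nat_lit 631250, nat_lit 1751250, nat_lit 1100001, nat_lit 2470000, [nat_lit 780000, nat_lit 1435000, nat_lit 1271250], [nat_lit 8, nat_lit 40, nat_lit 40, nat_lit 80, nat_lit 1, nat_lit 373, nat_lit 150, nat_lit 10]⟩, ⟨p074_k2, nat_lit 0, nat_lit 0, nat_lit 345, nat_lit 0, nat_lit 292681, [nat_lit 3282000000, nat_lit 6250000000, nat_lit 9842000000],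 [], [nat_lit 23464033924, nat_lit 22977579856, nat_lit 24278917776, nat_lit 26727620640, nat_lit 15972347116, nat_lit 17554005108, nat_lit 28979330212, nat_lit 25596434212], nat_lit 1271250, nat_lit 1271250, nat_lit 631250, nat_lit 1751250, nat_lit 0, nat_lit 1100001, [nat_lit 780000, nat_lit 1435000, nat_lit 1271250], [nat_lit 8, nat_lit 40, nat_lit 40, nat_lit 80, nat_lit 1, nat_lit 317, nat_lit 100, nat_lit 9]⟩,
 zbF0, [⟨nat_lit 0, nat_lit 91, nat_lit 91, nat_lit 100, nat_lit 129840642⟩, ⟨nat_lit 4, nat_lit 100, nat_lit 93, nat_lit 97, nat_lit 483687817⟩]⟩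
noncomputable def p074_l74 : Lf2 := ⟨nat_lit 0, nat_lit 20, [nat_lit 5, nat_lit 5, nat_lit 5, nat_lit 20], false, nat_lit 160, nat_lit 240, nat_lit 160, nat_lit 320, ⟨nat_lit 1000, nat_lit 0, nat_lit 0, nat_lit 0, nat_lit 0, nat_lit 0, nat_lit 0, nat_lit 0, nat_lit 0, nat_lit 0, nat_lit 0, nat_lit 0, nat_lit 0, nat_lit 0, nat_lit 0, nat_lit 0, false, false⟩,
 nat_lit 16627, nat_lit 0, nat_lit 0, nat_lit 0, nat_lit 11510, nat_lit 11510, nat_lit 717, nat_lit 0, nat_lit 0, nat_lit 376, nat_lit 0, nat_lit 0, nat_lit 0, nat_lit 0, nat_lit 0, nat_lit 0, nat_lit 0, nat_lit 0, [],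
 ⟨p074_k2, nat_lit 0, nat_lit 0, nat_lit 180, nat_lit 0, nat_lit 241411, [nat_lit 3282000000, nat_lit 6250000000, nat_lit 9842000000], [], [nat_lit 16915763540, nat_lit 19148639790, nat_lit 16148939510, nat_lit 18163812810, nat_lit 19642665770, nat_lit 21485847650, nat_lit 18486375150, nat_lit 20635147800], nat_lit 1271250, nat_lit 1271250, nat_lit 631250, nat_lit 1100001, nat_lit 1100001, nat_lit 1785000, [nat_lit 780000, nat_lit 1435000, nat_lit 1271250], [nat_lit 8, nat_lit 40, nat_lit 40, nat_lit 80, nat_lit 1, nat_lit 317, nat_lit 100, nat_lit 9]⟩, ⟨p074_k2, nat_lit 0, nat_lit 0, nat_lit 195, nat_lit 0, nat_lit 241411, [nat_lit 3282000000, nat_lit 6250000000, nat_lit 9842000000], [], [nat_lit 19641632290, nat_lit 20758070415, nat_lit 18874808260, nat_lit 19882244910, nat_lit 27876334400, nat_lit 28864366475, nat_lit 26258034920, nat_lit 27312909000], nat_lit 1271250, nat_lit 1271250, nat_lit 631250, nat_lit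 1100001, nat_lit 1100001, nat_lit 2470000, [nat_lit 780000, nat_lit 1435000, nat_lit 1271250], [nat_lit 8, nat_lit 40, nat_lit 40, nat_lit 80, nat_lit 1, nat_lit 345, nat_lit 125, nat_lit 9]⟩,
 zbF0, [⟨nat_lit 0, nat_lit 94, nat_lit 92, nat_lit 100, nat_lit 840290800⟩, ⟨nat_lit 7, nat_lit 100, nat_lit 97, nat_lit 98, nat_lit 480463082⟩]⟩
noncomputable def p074_l75 : Lf2 := ⟨nat_lit 0, nat_lit 12, [nat_lit 126, nat_lit 5, nat_lit 5, nat_lit 20], false, nat_lit 240, nat_lit 320, nat_lit 160, nat_lit 320, ⟨nat_lit 1000, nat_lit 0, nat_lit 0, nat_lit 0, nat_lit 0, nat_lit 0, nat_lit 0, nat_lit 0, nat_lit 0, nat_lit 0, nat_lit 0, nat_lit 0, nat_lit 0, nat_lit 0, nat_lit 0, nat_lit 0, false, false⟩,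
 nat_lit 15307, nat_lit 0, nat_lit 0, nat_lit 0, nat_lit 10597, nat_lit 10597, nat_lit 0, nat_lit 0, nat_lit 0, nat_lit 0, nat_lit 0, nat_lit 0, nat_lit 0, nat_lit 0, nat_lit 0, nat_lit 0, nat_lit 0, nat_lit 0, [],
 ⟨p074_k18, nat_lit 0, nat_lit 0, nat_lit 168, nat_lit 0, nat_lit 228440, [nat_lit 3282000000, nat_lit 6250000000, nat_lit 7968000000], [], [nat_lit 21375772394, nat_lit 23341586704, nat_lit 20694530638, nat_lit 22469563732, nat_lit 27352295742, nat_lit 29223258640, nat_lit 26071687674, nat_lit 27799068076], nat_lit 1271250, nat_lit 1271250, nat_lit 631250, nat_lit 1100001, nat_lit 1271250, nat_lit 1271250, [nat_lit 780000, nat_lit 1435000, nat_lit 1271250], [nat_lit 18, nat_lit 40, nat_lit 40, nat_lit 80, nat_lit 2, nat_lit 249, nat_lit 40, nat_lit 7]⟩, ⟨p074_k18, nat_lit 0, nat_lit 0, nat_lit 165, nat_lit 0, nat_lit 228440, [nat_lit 3282000000, nat_lit 6250000000, nat_lit 7968000000], [], [nat_lit 18063936258,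 nat_lit 19251152600, nat_lit 17804028718, nat_lit 18875988007, nat_lit 27352295742, nat_lit 28125363733, nat_lit 26071687674, nat_lit 26802176800], nat_lit 1271250, nat_lit 1271250, nat_lit 631250, nat_lit 1100001, nat_lit 1100001, nat_lit 2470000, [nat_lit 780000, nat_lit 1435000, nat_lit 1271250], [nat_lit 18, nat_lit 40, nat_lit 40, nat_lit 80, nat_lit 2, nat_lit 345, nat_lit 125, nat_lit 11]⟩,
 zbF0, [⟨nat_lit 0, nat_lit 94, nat_lit 92, nat_lit 100, nat_lit 605015519⟩, ⟨nat_lit 16, nat_lit 94, nat_lit 88, nat_lit 100, nat_lit 333079608⟩, ⟨nat_lit 19, nat_lit 94, nat_lit 88, nat_lit 100, nat_lit 221482209⟩, ⟨nat_lit 11, nat_lit 88, nat_lit 88, nat_lit 100, nat_lit 300001279⟩]⟩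
noncomputable def p074_l76 : Lf2 := ⟨nat_lit 0, nat_lit 15, [nat_lit 30, nat_lit 5, nat_lit 5, nat_lit 20], false, nat_lit 240, nat_lit 320, nat_lit 160, nat_lit 240, ⟨nat_lit 1000, nat_lit 0, nat_lit 0, nat_lit 0, nat_lit 0, nat_lit 0, nat_lit 0, nat_lit 0, nat_lit 0, nat_lit 0, nat_lit 0, nat_lit 0, nat_lit 0, nat_lit 0, nat_lit 0, nat_lit 0, false, false⟩,
 nat_lit 22021, nat_lit 0, nat_lit 0, nat_lit 0, nat_lit 13850, nat_lit 15245, nat_lit 0, nat_lit 0, nat_lit 0, nat_lit 391, nat_lit 0, nat_lit 0, nat_lit 0, nat_lit 6089983275610, nat_lit 0, nat_lit 0, nat_lit 0, nat_lit 0, [],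
 ⟨p074_k12, nat_lit 0, nat_lit 0, nat_lit 179, nat_lit 0, nat_lit 187206, [nat_lit 3282000000, nat_lit 6250000000, nat_lit 9842000000], [], [nat_lit 23864070200, nat_lit 25959476000, nat_lit 22216468500, nat_lit 24098300600, nat_lit 30037104000, nat_lit 32089542000, nat_lit 27719742300, nat_lit 29825387800], nat_lit 1271250, nat_lit 1271250, nat_lit 631250, nat_lit 1100001, nat_lit 1271250, nat_lit 1271250, [nat_lit 780000, nat_lit 1435000, nat_lit 1271250], [nat_lit 8, nat_lit 40, nat_lit 40, nat_lit 80, nat_lit 1, nat_lit 345, nat_lit 125, nat_lit 9]⟩, ⟨p074_k12, nat_lit 0, nat_lit 0, nat_lit 155, nat_lit 0, nat_lit 187206, [nat_lit 3282000000, nat_lit 6250000000, nat_lit 9842000000], [], [nat_lit 16896689605, nat_lit 18270422543, nat_lit 15449150620, nat_lit 16682984295, nat_lit 19838253490, nat_lit 20962104370, nat_lit 17897754800, nat_lit 19564875280], nat_lit 1271250, nat_lit 1271250, nat_lit 631250, nat_lit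 1100001, nat_lit 1100001, nat_lit 1785000, [nat_lit 780000, nat_lit 1435000, nat_lit 1271250], [nat_lit 8, nat_lit 40, nat_lit 40, nat_lit 80, nat_lit 1, nat_lit 317, nat_lit 100, nat_lit 9]⟩,
 zbF0, [⟨nat_lit 0, nat_lit 94, nat_lit 92, nat_lit 100, nat_lit 922914974⟩, ⟨nat_lit 4, nat_lit 100, nat_lit 93, nat_lit 97, nat_lit 695219263⟩]⟩
noncomputable def p074_l77 : Lf2 := ⟨nat_lit 0, nat_lit 14, [nat_lit 119, nat_lit 5, nat_lit 5, nat_lit 20], false, nat_lit 240, nat_lit 300, nat_lit 240, nat_lit 300, ⟨nat_lit 1000, nat_lit 0, nat_lit 0, nat_lit 0, nat_lit 0, nat_lit 0, nat_lit 0, nat_lit 0, nat_lit 0, nat_lit 0, nat_lit 0, nat_lit 0, nat_lit 0, nat_lit 0, nat_lit 0, nat_lit 0, false, false⟩,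
 nat_lit 22328, nat_lit 0, nat_lit 0, nat_lit 4889, nat_lit 15457, nat_lit 15457, nat_lit 0, nat_lit 0, nat_lit 0, nat_lit 0, nat_lit 0, nat_lit 0, nat_lit 0, nat_lit 0, nat_lit 0, nat_lit 0, nat_lit 0, nat_lit 0, [],
 ⟨p074_k34, nat_lit 0, nat_lit 0, nat_lit 151, nat_lit 0, nat_lit 127165, [nat_lit 3282000000, nat_lit 6250000000, nat_lit 9842000000], [], [nat_lit 22826995964, nat_lit 23961306522, nat_lit 20841985330, nat_lit 21858515551, nat_lit 27799409426, nat_lit 29299184083, nat_lit 25623703522, nat_lit 27036292252], nat_lit 1271250, nat_lit 1271250, nat_lit 631250, nat_lit 1100001, nat_lit 1271250, nat_lit 1271250, [nat_lit 780000, nat_lit 1435000, nat_lit 1271250], [nat_lit 8, nat_lit 40, nat_lit 40, nat_lit 80, nat_lit 1, nat_lit 345, nat_lit 125, nat_lit 9]⟩, ⟨p074_k34, nat_lit 0, nat_lit 0, nat_lit 151, nat_lit 0, nat_lit 127165, [nat_lit 3282000000, nat_lit 6250000000, nat_lit 9842000000], [], [nat_lit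 22826995964, nat_lit 23961306522, nat_lit 20841985330, nat_lit 21858515551, nat_lit 27799409426, nat_lit 29299184083, nat_lit 25623703522, nat_lit 27036292252], nat_lit 1271250, nat_lit 1271250, nat_lit 631250, nat_lit 1100001, nat_lit 1271250, nat_lit 1271250, [nat_lit 780000, nat_lit 1435000, nat_lit 1271250], [nat_lit 8, nat_lit 40, nat_lit 40, nat_lit 80, nat_lit 1, nat_lit 345, nat_lit 125, nat_lit 9]⟩,
 zbF0, [⟨nat_lit 0, nat_lit 95, nat_lit 95, nat_lit 100, nat_lit 1009186017⟩, ⟨nat_lit 16, nat_lit 100, nat_lit 100, nat_lit 100, nat_lit 637663564⟩, ⟨nat_lit 19, nat_lit 100, nat_lit 100, nat_lit 100, nat_lit 637663564⟩]⟩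
noncomputable def p074_l78 : Lf2 := ⟨nat_lit 0, nat_lit 14, [nat_lit 119, nat_lit 5, nat_lit 5, nat_lit 20], false, nat_lit 240, nat_lit 320, nat_lit 240, nat_lit 320, ⟨nat_lit 1000, nat_lit 0, nat_lit 0, nat_lit 0, nat_lit 0, nat_lit 0, nat_lit 0, nat_lit 0, nat_lit 0, nat_lit 0, nat_lit 0, nat_lit 0, nat_lit 0, nat_lit 0, nat_lit 0, nat_lit 0, false, false⟩,
 nat_lit 7049, nat_lit 0, nat_lit 0, nat_lit 24453, nat_lit 4879, nat_lit 4879, nat_lit 0, nat_lit 0, nat_lit 0, nat_lit 0, nat_lit 0, nat_lit 0, nat_lit 0, nat_lit 0, nat_lit 0, nat_lit 0, nat_lit 0, nat_lit 0, [],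
 ⟨p074_k34, nat_lit 0, nat_lit 0, nat_lit 84, nat_lit 0, nat_lit 57965, [nat_lit 3282000000, nat_lit 6250000000, nat_lit 9842000000], [], [nat_lit 17876288653, nat_lit 18652542225, nat_lit 18569052928, nat_lit 19279816984, nat_lit 22873546499, nat_lit 23498135135, nat_lit 23156027034, nat_lit 23730707901], nat_lit 1271250, nat_lit 1271250, nat_lit 631250, nat_lit 1100001, nat_lit 1271250, nat_lit 1271250, [nat_lit 780000, nat_lit 1435000, nat_lit 1271250], [nat_lit 8, nat_lit 40, nat_lit 40, nat_lit 80, nat_lit 1, nat_lit 345, nat_lit 125, nat_lit 9]⟩, ⟨p074_k34, nat_lit 0, nat_lit 0, nat_lit 84, nat_lit 0, nat_lit 57965, [nat_lit 3282000000, nat_lit 6250000000, nat_lit 9842000000], [], [nat_lit 17876288653, nat_lit 18652542225, nat_lit 18569052928, nat_lit 19279816984, nat_lit 22873546499, nat_lit 23498135135, nat_lit 23156027034, nat_lit 23730707901], nat_lit 1271250, nat_lit 1271250, nat_lit 631250, nat_lit 1100001,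 nat_lit 1271250, nat_lit 1271250, [nat_lit 780000, nat_lit 1435000, nat_lit 1271250], [nat_lit 8, nat_lit 40, nat_lit 40, nat_lit 80, nat_lit 1, nat_lit 345, nat_lit 125, nat_lit 9]⟩,
 zbF0, [⟨nat_lit 0, nat_lit 91, nat_lit 91, nat_lit 100, nat_lit 597622017⟩, ⟨nat_lit 16, nat_lit 95, nat_lit 95, nat_lit 100, nat_lit 549690170⟩, ⟨nat_lit 7, nat_lit 95, nat_lit 95, nat_lit 100, nat_lit 549690170⟩]⟩
noncomputable def p074_l79 : Lf2 := ⟨nat_lit 0, nat_lit 14, [nat_lit 119, nat_lit 5, nat_lit 5, nat_lit 20], false, nat_lit 240, nat_lit 312, nat_lit 240, nat_lit 320, ⟨nat_lit 1000, nat_lit 0, nat_lit 0, nat_lit 0, nat_lit 0, nat_lit 0, nat_lit 0, nat_lit 0, nat_lit 0, nat_lit 0, nat_lit 0, nat_lit 0, nat_lit 0, nat_lit 0, nat_lit 0, nat_lit 0, false, false⟩,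
 nat_lit 14947, nat_lit 0, nat_lit 0, nat_lit 16255, nat_lit 10775, nat_lit 10347, nat_lit 0, nat_lit 0, nat_lit 0, nat_lit 521, nat_lit 0, nat_lit 0, nat_lit 0, nat_lit 0, nat_lit 0, nat_lit 0, nat_lit 0, nat_lit 0, [],
 ⟨p074_k35, nat_lit 0, nat_lit 0, nat_lit 144, nat_lit 0, nat_lit 174737, [nat_lit 3282000000, nat_lit 6250000000, nat_lit 7968000000], [], [nat_lit 21985755875, nat_lit 22968308441, nat_lit 21417326875, nat_lit 22314695900, nat_lit 27153855791, nat_lit 28209869071, nat_lit 26130718361, nat_lit 27169781280], nat_lit 1271250, nat_lit 1271250, nat_lit 689850, nat_lit 1100001, nat_lit 1271250, nat_lit 1271250, [nat_lit 780000, nat_lit 1435000, nat_lit 1271250], [nat_lit 18, nat_lit 40, nat_lit 40, nat_lit 80, nat_lit 2, nat_lit 249, nat_lit 40, nat_lit 7]⟩, ⟨p074_k34, nat_lit 0, nat_lit 0, nat_lit 172, nat_lit 0, nat_lit 183870, [nat_lit 3282000000, nat_lit 6250000000, nat_lit 9842000000], [], [nat_lit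 21712262711, nat_lit 22561309230, nat_lit 21047875680, nat_lit 21823965071, nat_lit 26828824059, nat_lit 27593138685, nat_lit 25703745756, nat_lit 26662326800], nat_lit 1271250, nat_lit 1271250, nat_lit 689850, nat_lit 1100001, nat_lit 1271250, nat_lit 1271250, [nat_lit 780000, nat_lit 1435000, nat_lit 1271250], [nat_lit 8, nat_lit 40, nat_lit 40, nat_lit 80, nat_lit 1, nat_lit 345, nat_lit 125, nat_lit 9]⟩,
 zbF0, [⟨nat_lit 0, nat_lit 93, nat_lit 89, nat_lit 100, nat_lit 861793945⟩, ⟨nat_lit 16, nat_lit 91, nat_lit 91, nat_lit 100, nat_lit 636581783⟩, ⟨nat_lit 19, nat_lit 94, nat_lit 88, nat_lit 100, nat_lit 581204318⟩]⟩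
noncomputable def p074_l80 : Lf2 := ⟨nat_lit 0, nat_lit 15, [nat_lit 30, nat_lit 5, nat_lit 5, nat_lit 20], false, nat_lit 240, nat_lit 320, nat_lit 240, nat_lit 320, ⟨nat_lit 1000, nat_lit 0, nat_lit 0, nat_lit 0, nat_lit 0, nat_lit 0, nat_lit 0, nat_lit 0, nat_lit 0, nat_lit 0, nat_lit 0, nat_lit 0, nat_lit 0, nat_lit 0, nat_lit 0, nat_lit 0, false, false⟩,
 nat_lit 20124, nat_lit 0, nat_lit 0, nat_lit 21272, nat_lit 13470, nat_lit 13932, nat_lit 0, nat_lit 0, nat_lit 0, nat_lit 0, nat_lit 0, nat_lit 0, nat_lit 0, nat_lit 0, nat_lit 0, nat_lit 0, nat_lit 0, nat_lit 0, [],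
 ⟨p074_k12, nat_lit 0, nat_lit 0, nat_lit 163, nat_lit 0, nat_lit 137823, [nat_lit 3282000000, nat_lit 6250000000, nat_lit 9842000000], [], [nat_lit 24109302440, nat_lit 26163748800, nat_lit 22541486300, nat_lit 24387558120, nat_lit 30174306800, nat_lit 31754716400, nat_lit 27952835060, nat_lit 29588682760], nat_lit 1271250, nat_lit 1271250, nat_lit 631250, nat_lit 1100001, nat_lit 1271250, nat_lit 1271250, [nat_lit 780000, nat_lit 1435000, nat_lit 1271250], [nat_lit 8, nat_lit 40, nat_lit 40, nat_lit 80, nat_lit 1, nat_lit 345, nat_lit 125, nat_lit 9]⟩, ⟨p074_k12, nat_lit 0, nat_lit 0, nat_lit 160, nat_lit 0, nat_lit 137823, [nat_lit 3282000000, nat_lit 6250000000, nat_lit 9842000000], [], [nat_lit 23811151664, nat_lit 24863273872, nat_lit 22146333080, nat_lit 23091107476, nat_lit 30007497080, nat_lit 30824787770, nat_lit 27669443336, nat_lit 28667775800], nat_lit 1271250, nat_lit 1271250, nat_lit 631250, nat_lit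 1100001, nat_lit 1271250, nat_lit 1271250, [nat_lit 780000, nat_lit 1435000, nat_lit 1271250], [nat_lit 8, nat_lit 40, nat_lit 40, nat_lit 80, nat_lit 1, nat_lit 345, nat_lit 125, nat_lit 9]⟩,
 zbF0, [⟨nat_lit 0, nat_lit 94, nat_lit 92, nat_lit 100, nat_lit 1045903474⟩, ⟨nat_lit 4, nat_lit 100, nat_lit 93, nat_lit 97, nat_lit 630836674⟩, ⟨nat_lit 7, nat_lit 100, nat_lit 97, nat_lit 98, nat_lit 623334528⟩]⟩
noncomputable def p074_l81 : Lf2 := ⟨nat_lit 0, nat_lit 20, [nat_lit 5, nat_lit 5, nat_lit 5, nat_lit 20], false, nat_lit 240, nat_lit 320, nat_lit 160, nat_lit 320, ⟨nat_lit 1000, nat_lit 0, nat_lit 0, nat_lit 0, nat_lit 0, nat_lit 0, nat_lit 0, nat_lit 0, nat_lit 0, nat_lit 0, nat_lit 0, nat_lit 0, nat_lit 0, nat_lit 0, nat_lit 0, nat_lit 0, false, false⟩,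
 nat_lit 20097, nat_lit 0, nat_lit 0, nat_lit 19481, nat_lit 13850, nat_lit 13913, nat_lit 0, nat_lit 0, nat_lit 0, nat_lit 0, nat_lit 0, nat_lit 0, nat_lit 0, nat_lit 564902138602, nat_lit 0, nat_lit 0, nat_lit 0, nat_lit 0, [],
 ⟨p074_k2, nat_lit 0, nat_lit 0, nat_lit 160, nat_lit 0, nat_lit 129491, [nat_lit 3282000000, nat_lit 6250000000, nat_lit 9842000000], [], [nat_lit 23864070200, nat_lit 25959476000, nat_lit 22216468500, nat_lit 24098300600, nat_lit 30037104000, nat_lit 32089542000, nat_lit 27719742300, nat_lit 29825387800], nat_lit 1271250, nat_lit 1271250, nat_lit 631250, nat_lit 1100001, nat_lit 1271250, nat_lit 1271250, [nat_lit 780000, nat_lit 1435000, nat_lit 1271250], [nat_lit 8, nat_lit 40, nat_lit 40, nat_lit 80, nat_lit 1, nat_lit 345, nat_lit 125, nat_lit 9]⟩, ⟨p074_k2, nat_lit 0, nat_lit 0, nat_lit 157, nat_lit 0, nat_lit 129491, [nat_lit 3282000000, nat_lit 6250000000, nat_lit 9842000000], [],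 [nat_lit 20958403427, nat_lit 22240378215, nat_lit 19753625438, nat_lit 20906719933, nat_lit 30014357220, nat_lit 30809706885, nat_lit 27681097974, nat_lit 28657147200], nat_lit 1271250, nat_lit 1271250, nat_lit 631250, nat_lit 1100001, nat_lit 1100001, nat_lit 2470000, [nat_lit 780000, nat_lit 1435000, nat_lit 1271250], [nat_lit 8, nat_lit 40, nat_lit 40, nat_lit 80, nat_lit 1, nat_lit 345, nat_lit 125, nat_lit 9]⟩,
 zbF0, [⟨nat_lit 0, nat_lit 94, nat_lit 92, nat_lit 100, nat_lit 995668235⟩, ⟨nat_lit 4, nat_lit 100, nat_lit 93, nat_lit 97, nat_lit 695219263⟩, ⟨nat_lit 7, nat_lit 100, nat_lit 97, nat_lit 98, nat_lit 490965947⟩]⟩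
noncomputable def p074_l82 : Lf2 := ⟨nat_lit 0, nat_lit 15, [nat_lit 30, nat_lit 5, nat_lit 5, nat_lit 20], false, nat_lit 160, nat_lit 240, nat_lit 160, nat_lit 312, ⟨nat_lit 1000, nat_lit 0, nat_lit 0, nat_lit 0, nat_lit 0, nat_lit 0, nat_lit 0, nat_lit 0, nat_lit 0, nat_lit 0, nat_lit 0, nat_lit 0, nat_lit 0, nat_lit 0, nat_lit 0, nat_lit 0, false, false⟩,
 nat_lit 15373, nat_lit 0, nat_lit 0, nat_lit 0, nat_lit 11082, nat_lit 11082, nat_lit 996, nat_lit 0, nat_lit 0, nat_lit 629, nat_lit 0, nat_lit 0, nat_lit 0, nat_lit 0, nat_lit 0, nat_lit 0, nat_lit 0, nat_lit 0, [],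
 ⟨p074_k36, nat_lit 0, nat_lit 0, nat_lit 170, nat_lit 0, nat_lit 271643, [nat_lit 3282000000, nat_lit 9842000000], [], [nat_lit 17759996312, nat_lit 18815433900, nat_lit 17591575862, nat_lit 18573069292, nat_lit 20182126036, nat_lit 21054502868, nat_lit 19745452426, nat_lit 20561283560], nat_lit 1271250, nat_lit 1271250, nat_lit 780000, nat_lit 1100001, nat_lit 1100001, nat_lit 1785000, [nat_lit 780000, nat_lit 2090000], [nat_lit 82, nat_lit 40, nat_lit 40, nat_lit 80, nat_lit 63, nat_lit 317, nat_lit 100, nat_lit 8]⟩, ⟨p074_k36, nat_lit 0, nat_lit 0, nat_lit 182, nat_lit 0, nat_lit 271643, [nat_lit 3282000000, nat_lit 9842000000], [], [nat_lit 19841574437, nat_lit 20897012025, nat_lit 19673153987, nat_lit 20654647417, nat_lit 26784735110, nat_lit 27897606758, nat_lit 26287845381, nat_lit 27347188967], nat_lit 1271250, nat_lit 1271250, nat_lit 780000, nat_lit 1100001, nat_lit 1100001, nat_lit 2401500, [nat_lit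 780000, nat_lit 2090000], [nat_lit 82, nat_lit 40, nat_lit 40, nat_lit 80, nat_lit 63, nat_lit 345, nat_lit 125, nat_lit 9]⟩,
 zbF0, [⟨nat_lit 0, nat_lit 87, nat_lit 87, nat_lit 100, nat_lit 849278924⟩, ⟨nat_lit 7, nat_lit 100, nat_lit 90, nat_lit 95, nat_lit 514887848⟩]⟩
noncomputable def p074_l83 : Lf2 := ⟨nat_lit 0, nat_lit 15, [nat_lit 30, nat_lit 5, nat_lit 5, nat_lit 20], false, nat_lit 240, nat_lit 312, nat_lit 160, nat_lit 312, ⟨nat_lit 1000, nat_lit 0, nat_lit 0, nat_lit 0, nat_lit 0, nat_lit 0, nat_lit 0, nat_lit 0, nat_lit 0, nat_lit 0, nat_lit 0, nat_lit 0, nat_lit 0, nat_lit 0, nat_lit 0, nat_lit 0, false, false⟩,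
 nat_lit 11390, nat_lit 0, nat_lit 0, nat_lit 6830, nat_lit 8211, nat_lit 8211, nat_lit 742, nat_lit 0, nat_lit 0, nat_lit 742, nat_lit 0, nat_lit 0, nat_lit 0, nat_lit 1818083361653, nat_lit 0, nat_lit 0, nat_lit 0, nat_lit 0, [],
 ⟨p074_k30, nat_lit 0, nat_lit 0, nat_lit 206, nat_lit 0, nat_lit 271643, [nat_lit 3282000000, nat_lit 7968000001, nat_lit 9842000000], [], [nat_lit 21071802678, nat_lit 21795243514, nat_lit 20969902023, nat_lit 21645486206, nat_lit 24931458583, nat_lit 25859464335, nat_lit 24818426239, nat_lit 25688109268], nat_lit 1271250, nat_lit 1271250, nat_lit 780000, nat_lit 1100001, nat_lit 1271250, nat_lit 1271250, [nat_lit 780000, nat_lit 1762500, nat_lit 1271250], [nat_lit 99, nat_lit 40, nat_lit 40, nat_lit 80, nat_lit 17, nat_lit 345, nat_lit 125, nat_lit 9]⟩, ⟨p074_k30, nat_lit 0, nat_lit 0, nat_lit 206, nat_lit 0, nat_lit 271643, [nat_lit 3282000000, nat_lit 7968000000, nat_lit 9842000000],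 [], [nat_lit 18753264376, nat_lit 19617969950, nat_lit 18862541401, nat_lit 19670009166, nat_lit 24931458583, nat_lit 25859464335, nat_lit 24818426239, nat_lit 25688109268], nat_lit 1271250, nat_lit 1271250, nat_lit 780000, nat_lit 1100001, nat_lit 1100001, nat_lit 2401500, [nat_lit 780000, nat_lit 1762500, nat_lit 1271250], [nat_lit 99, nat_lit 40, nat_lit 40, nat_lit 80, nat_lit 17, nat_lit 345, nat_lit 125, nat_lit 9]⟩,
 zbF0, [⟨nat_lit 0, nat_lit 91, nat_lit 91, nat_lit 100, nat_lit 669392812⟩, ⟨nat_lit 16, nat_lit 91, nat_lit 91, nat_lit 100, nat_lit 559811725⟩, ⟨nat_lit 19, nat_lit 91, nat_lit 91, nat_lit 100, nat_lit 459917034⟩]⟩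
noncomputable def p074_l84 : Lf2 := ⟨nat_lit 0, nat_lit 20, [nat_lit 5, nat_lit 5, nat_lit 5, nat_lit 20], false, nat_lit 160, nat_lit 312, nat_lit 160, nat_lit 312, ⟨nat_lit 1000, nat_lit 0, nat_lit 0, nat_lit 0, nat_lit 0, nat_lit 0, nat_lit 0, nat_lit 0, nat_lit 0, nat_lit 0, nat_lit 0, nat_lit 0, nat_lit 0, nat_lit 0, nat_lit 0, nat_lit 0, false, false⟩,
 nat_lit 19904, nat_lit 0, nat_lit 0, nat_lit 7217, nat_lit 14349, nat_lit 14349, nat_lit 0, nat_lit 0, nat_lit 0, nat_lit 0, nat_lit 0, nat_lit 0, nat_lit 0, nat_lit 0, nat_lit 0, nat_lit 0, nat_lit 0, nat_lit 0, [],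
 ⟨p074_k37, nat_lit 0, nat_lit 0, nat_lit 166, nat_lit 0, nat_lit 170613, [nat_lit 3282000000, nat_lit 7968000001, nat_lit 9842000000], [], [nat_lit 21031676834, nat_lit 22304154300, nat_lit 20547255809, nat_lit 21726778444, nat_lit 28845316588, nat_lit 30216872274, nat_lit 27959943026, nat_lit 29235107245], nat_lit 1271250, nat_lit 1271250, nat_lit 780000, nat_lit 1100001, nat_lit 1100001, nat_lit 2401500, [nat_lit 780000, nat_lit 1762500, nat_lit 1271250], [nat_lit 99, nat_lit 40, nat_lit 40, nat_lit 80, nat_lit 17, nat_lit 345, nat_lit 125, nat_lit 9]⟩, ⟨p074_k37, nat_lit 0, nat_lit 0, nat_lit 166, nat_lit 0, nat_lit 170613, [nat_lit 3282000000, nat_lit 7968000000, nat_lit 9842000000], [], [nat_lit 21031676834, nat_lit 22304154300, nat_lit 20547255809, nat_lit 21726778444, nat_lit 28845316588, nat_lit 30216872274, nat_lit 27959943026, nat_lit 29235107245], nat_lit 1271250, nat_lit 1271250, nat_lit 780000, nat_lit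 1100001, nat_lit 1100001, nat_lit 2401500, [nat_lit 780000, nat_lit 1762500, nat_lit 1271250], [nat_lit 99, nat_lit 40, nat_lit 40, nat_lit 80, nat_lit 17, nat_lit 345, nat_lit 125, nat_lit 9]⟩,
 zbF0, [⟨nat_lit 0, nat_lit 87, nat_lit 87, nat_lit 100, nat_lit 987732646⟩, ⟨nat_lit 16, nat_lit 90, nat_lit 100, nat_lit 95, nat_lit 545518559⟩, ⟨nat_lit 19, nat_lit 91, nat_lit 91, nat_lit 100, nat_lit 383559674⟩, ⟨nat_lit 7, nat_lit 100, nat_lit 90, nat_lit 95, nat_lit 137285456⟩]⟩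
noncomputable def p074_l85 : Lf2 := ⟨nat_lit 0, nat_lit 20, [nat_lit 5, nat_lit 5, nat_lit 5, nat_lit 20], false, nat_lit 160, nat_lit 320, nat_lit 160, nat_lit 320, ⟨nat_lit 1000, nat_lit 0, nat_lit 0, nat_lit 0, nat_lit 0, nat_lit 0, nat_lit 0, nat_lit 0, nat_lit 0, nat_lit 0, nat_lit 0, nat_lit 0, nat_lit 0, nat_lit 0, nat_lit 0, nat_lit 0, false, false⟩,
 nat_lit 14187, nat_lit 0, nat_lit 0, nat_lit 0, nat_lit 9821, nat_lit 9821, nat_lit 505, nat_lit 0, nat_lit 0, nat_lit 505, nat_lit 0, nat_lit 0, nat_lit 0, nat_lit 0, nat_lit 0, nat_lit 0, nat_lit 0, nat_lit 0, [],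
 ⟨p074_k2, nat_lit 0, nat_lit 0, nat_lit 193, nat_lit 0, nat_lit 292681, [nat_lit 3282000000, nat_lit 6250000000, nat_lit 9842000000], [], [nat_lit 19338504496, nat_lit 21148620326, nat_lit 21625668740, nat_lit 23128347766, nat_lit 26154295208, nat_lit 27317417590, nat_lit 30612460923, nat_lit 29043238448], nat_lit 1271250, nat_lit 1271250, nat_lit 1100001, nat_lit 1785000, nat_lit 1100001, nat_lit 2470000, [nat_lit 780000, nat_lit 1435000, nat_lit 1271250], [nat_lit 8, nat_lit 40, nat_lit 40, nat_lit 80, nat_lit 1, nat_lit 373, nat_lit 150, nat_lit 10]⟩, ⟨p074_k2, nat_lit 0, nat_lit 0, nat_lit 193, nat_lit 0, nat_lit 292681, [nat_lit 3282000000, nat_lit 6250000000, nat_lit 9842000000], [], [nat_lit 19338504496, nat_lit 21148620326, nat_lit 21625668740, nat_lit 23128347766, nat_lit 26154295208, nat_lit 27317417590, nat_lit 30612460923, nat_lit 29043238448], nat_lit 1271250, nat_lit 1271250, nat_lit 1100001, nat_lit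 1785000, nat_lit 1100001, nat_lit 2470000, [nat_lit 780000, nat_lit 1435000, nat_lit 1271250], [nat_lit 8, nat_lit 40, nat_lit 40, nat_lit 80, nat_lit 1, nat_lit 373, nat_lit 150, nat_lit 10]⟩,
 zbF0, [⟨nat_lit 4, nat_lit 100, nat_lit 93, nat_lit 97, nat_lit 462567444⟩, ⟨nat_lit 7, nat_lit 100, nat_lit 93, nat_lit 97, nat_lit 462567444⟩]⟩
noncomputable def b_V_700_700_20_68 : St := ⟨true, nat_lit 1, nat_lit 1, nat_lit 1, nat_lit 120, nat_lit 280, nat_lit 320, nat_lit 300, nat_lit 320, nat_lit 64, nat_lit 240, nat_lit 80, nat_lit 120, nat_lit 160, nat_lit 336, nat_lit 0, nat_lit 336, nat_lit 40, nat_lit 80, nat_lit 0, nat_lit 0, nat_lit 0, nat_lit 0⟩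
theorem d_V_700_700_20_68 (h : EB TB.env) : Dead b_V_700_700_20_68 := chkB_sound0 h (T :=
(.ord (.trZ (nat_lit 0) (nat_lit 100) (nat_lit 100) (nat_lit 100) (nat_lit 100) (.trX (nat_lit 16) (nat_lit 94) (nat_lit 88) (nat_lit 100) (nat_lit 320) (.trX (nat_lit 19) (nat_lit 94) (nat_lit 88) (nat_lit 100) (nat_lit 320) (.spl (nat_lit 5) (nat_lit 160)
(.leaf p074_l73)
(.spl (nat_lit 2) (nat_lit 160)
(.spl (nat_lit 1) (nat_lit 310)
(.spl (nat_lit 4) (nat_lit 240)
(.leaf p074_l74)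
(.spl (nat_lit 6) (nat_lit 60)
(.spl (nat_lit 6) (nat_lit 48)
(.leaf p074_l75)
(.spl (nat_lit 5) (nat_lit 240)
(.leaf p074_l76)
(.spl (nat_lit 6) (nat_lit 56)
(.spl (nat_lit 0) (nat_lit 310)
(.spl (nat_lit 3) (nat_lit 100)
(.trX (nat_lit 16) (nat_lit 100) (nat_lit 100) (nat_lit 100) (nat_lit 300) (.trX (nat_lit 19) (nat_lit 100) (nat_lit 100) (nat_lit 100) (nat_lit 300) (.leaf p074_l77)))
(.leaf p074_l78))
(.trZ (nat_lit 0) (nat_lit 97) (nat_lit 93) (nat_lit 100) (nat_lit 108) (.trX (nat_lit 16) (nat_lit 91) (nat_lit 91) (nat_lit 100) (nat_lit 312) (.leaf p074_l79))))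
(.leaf p074_l80))))
(.leaf p074_l81)))
(.ord (.trZ (nat_lit 0) (nat_lit 91) (nat_lit 91) (nat_lit 100) (nat_lit 120) (.trX (nat_lit 16) (nat_lit 91) (nat_lit 91) (nat_lit 100) (nat_lit 312) (.trX (nat_lit 19) (nat_lit 91) (nat_lit 91) (nat_lit 100) (nat_lit 312) (.spl (nat_lit 6) (nat_lit 60)
(.spl (nat_lit 4) (nat_lit 240)
(.leaf p074_l82)
(.leaf p074_l83))
(.leaf p074_l84)))))))
(.leaf p074_l85)))))))) (by decide +kernel)
noncomputable def p074_l86 : Lf2 := ⟨nat_lit 0, nat_lit 20, [nat_lit 5, nat_lit 5, nat_lit 5, nat_lit 20], false, nat_lit 0, nat_lit 336, nat_lit 0, nat_lit 336, ⟨nat_lit 1000, nat_lit 0, nat_lit 0, nat_lit 0, nat_lit 0, nat_lit 0, nat_lit 0, nat_lit 0, nat_lit 0, nat_lit 0, nat_lit 0, nat_lit 0, nat_lit 0, nat_lit 0, nat_lit 0, nat_lit 0, false, false⟩,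
 nat_lit 11860, nat_lit 0, nat_lit 0, nat_lit 9524, nat_lit 7547, nat_lit 7547, nat_lit 800, nat_lit 0, nat_lit 0, nat_lit 702, nat_lit 0, nat_lit 0, nat_lit 0, nat_lit 0, nat_lit 0, nat_lit 0, nat_lit 0, nat_lit 0, [],
 ⟨p074_k3, nat_lit 0, nat_lit 0, nat_lit 297, nat_lit 0, nat_lit 91598, [nat_lit 3282000000, nat_lit 6250000000, nat_lit 11872000000], [], [nat_lit 29997780916, nat_lit 31046165826, nat_lit 39766512952, nat_lit 41077552742, nat_lit 28794540042, nat_lit 29332311080, nat_lit 36072848835, nat_lit 36774967442], nat_lit 1271250, nat_lit 1271250, nat_lit 1271250, nat_lit 1271250, nat_lit 0, nat_lit 2373000, [nat_lit 780000, nat_lit 1435000, nat_lit 1271250], [nat_lit 23, nat_lit 40, nat_lit 40, nat_lit 80, nat_lit 12, nat_lit 538, nat_lit 300, nat_lit 13]⟩, ⟨p074_k3, nat_lit 0, nat_lit 0, nat_lit 297, nat_lit 0, nat_lit 91598, [nat_lit 3282000000, nat_lit 6250000000, nat_lit 11872000000], [], [nat_lit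 30937662166, nat_lit 31986047076, nat_lit 40326902050, nat_lit 41077552742, nat_lit 29734421292, nat_lit 30272192330, nat_lit 36072848835, nat_lit 36774967442], nat_lit 1271250, nat_lit 1271250, nat_lit 1271250, nat_lit 1271250, nat_lit 0, nat_lit 2373000, [nat_lit 780000, nat_lit 1435000, nat_lit 1271250], [nat_lit 23, nat_lit 40, nat_lit 40, nat_lit 80, nat_lit 12, nat_lit 538, nat_lit 300, nat_lit 13]⟩,
 zbF0, [⟨nat_lit 4, nat_lit 94, nat_lit 100, nat_lit 97, nat_lit 129239314⟩, ⟨nat_lit 19, nat_lit 100, nat_lit 94, nat_lit 97, nat_lit 129239314⟩]⟩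
noncomputable def p074_l87 : Lf2 := ⟨nat_lit 0, nat_lit 20, [nat_lit 5, nat_lit 5, nat_lit 5, nat_lit 20], false, nat_lit 0, nat_lit 320, nat_lit 0, nat_lit 336, ⟨nat_lit 1000, nat_lit 0, nat_lit 0, nat_lit 0, nat_lit 0, nat_lit 0, nat_lit 0, nat_lit 0, nat_lit 0, nat_lit 0, nat_lit 0, nat_lit 0, nat_lit 0, nat_lit 0, nat_lit 0, nat_lit 0, false, false⟩,
 nat_lit 11860, nat_lit 0, nat_lit 0, nat_lit 1031, nat_lit 8210, nat_lit 7547, nat_lit 183, nat_lit 0, nat_lit 0, nat_lit 826, nat_lit 0, nat_lit 0, nat_lit 0, nat_lit 0, nat_lit 0, nat_lit 0, nat_lit 0, nat_lit 0, [],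
 ⟨p074_k2, nat_lit 0, nat_lit 0, nat_lit 307, nat_lit 0, nat_lit 192237, [nat_lit 3282000000, nat_lit 6250000000, nat_lit 9842000000], [], [nat_lit 32044310095, nat_lit 33639854630, nat_lit 43422985590, nat_lit 44313467750, nat_lit 30634440730, nat_lit 31517112190, nat_lit 37008310790, nat_lit 37476903550], nat_lit 1271250, nat_lit 1271250, nat_lit 1271250, nat_lit 1271250, nat_lit 0, nat_lit 2260000, [nat_lit 780000, nat_lit 1435000, nat_lit 1271250], [nat_lit 8, nat_lit 40, nat_lit 40, nat_lit 80, nat_lit 1, nat_lit 428, nat_lit 200, nat_lit 12]⟩, ⟨p074_k3, nat_lit 0, nat_lit 0, nat_lit 354, nat_lit 0, nat_lit 214339, [nat_lit 3282000000, nat_lit 6250000000, nat_lit 11872000000], [], [nat_lit 29748424666, nat_lit 30796809576, nat_lit 39766512952, nat_lit 41077552742, nat_lit 28545183792, nat_lit 29082954830, nat_lit 36072848835, nat_lit 36774967442], nat_lit 1271250, nat_lit 1271250, nat_lit 1271250, nat_lit 1271250,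 nat_lit 0, nat_lit 2373000, [nat_lit 780000, nat_lit 1435000, nat_lit 1271250], [nat_lit 23, nat_lit 40, nat_lit 40, nat_lit 80, nat_lit 12, nat_lit 538, nat_lit 300, nat_lit 13]⟩,
 zbF0, [⟨nat_lit 16, nat_lit 93, nat_lit 100, nat_lit 97, nat_lit 87190004⟩, ⟨nat_lit 19, nat_lit 100, nat_lit 94, nat_lit 97, nat_lit 129239314⟩]⟩
noncomputable def p074_l88 : Lf2 := ⟨nat_lit 0, nat_lit 20, [nat_lit 5, nat_lit 5, nat_lit 5, nat_lit 20], false, nat_lit 0, nat_lit 320, nat_lit 0, nat_lit 320, ⟨nat_lit 1000, nat_lit 0, nat_lit 0, nat_lit 0, nat_lit 0, nat_lit 0, nat_lit 0, nat_lit 0, nat_lit 0, nat_lit 0, nat_lit 0, nat_lit 0, nat_lit 0, nat_lit 0, nat_lit 0, nat_lit 0, false, false⟩,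
 nat_lit 10572, nat_lit 0, nat_lit 0, nat_lit 0, nat_lit 7318, nat_lit 7318, nat_lit 584, nat_lit 0, nat_lit 0, nat_lit 378, nat_lit 0, nat_lit 0, nat_lit 0, nat_lit 0, nat_lit 0, nat_lit 0, nat_lit 0, nat_lit 0, [],
 ⟨p074_k2, nat_lit 0, nat_lit 0, nat_lit 338, nat_lit 0, nat_lit 292681, [nat_lit 3282000000, nat_lit 6250000000, nat_lit 9842000000], [], [nat_lit 28877052076, nat_lit 30079944304, nat_lit 40457607148, nat_lit 41747906408, nat_lit 28067317484, nat_lit 28908933752, nat_lit 35671409608, nat_lit 36413244016], nat_lit 1271250, nat_lit 1271250, nat_lit 1271250, nat_lit 1271250, nat_lit 0, nat_lit 2260000, [nat_lit 780000, nat_lit 1435000, nat_lit 1271250], [nat_lit 8, nat_lit 40, nat_lit 40, nat_lit 80, nat_lit 1, nat_lit 428, nat_lit 200, nat_lit 12]⟩, ⟨p074_k2, nat_lit 0, nat_lit 0, nat_lit 338, nat_lit 0, nat_lit 292681, [nat_lit 3282000000, nat_lit 6250000000, nat_lit 9842000000], [], [nat_lit 30915808326,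 nat_lit 32085936554, nat_lit 40898789172, nat_lit 41749937700, nat_lit 29813790566, nat_lit 30555646252, nat_lit 35817012132, nat_lit 36413244016], nat_lit 1271250, nat_lit 1271250, nat_lit 1271250, nat_lit 1271250, nat_lit 0, nat_lit 2260000, [nat_lit 780000, nat_lit 1435000, nat_lit 1271250], [nat_lit 8, nat_lit 40, nat_lit 40, nat_lit 80, nat_lit 1, nat_lit 428, nat_lit 200, nat_lit 12]⟩,
 zbF0, [⟨nat_lit 16, nat_lit 93, nat_lit 100, nat_lit 97, nat_lit 113210294⟩, ⟨nat_lit 7, nat_lit 100, nat_lit 93, nat_lit 97, nat_lit 113210294⟩]⟩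
noncomputable def b_V_700_700_20_69 : St := ⟨true, nat_lit 1, nat_lit 1, nat_lit 1, nat_lit 120, nat_lit 280, nat_lit 320, nat_lit 280, nat_lit 320, nat_lit 240, nat_lit 400, nat_lit 80, nat_lit 120, nat_lit 0, nat_lit 336, nat_lit 0, nat_lit 336, nat_lit 40, nat_lit 80, nat_lit 0, nat_lit 0, nat_lit 0, nat_lit 0⟩
theorem d_V_700_700_20_69 (h : EB TB.env) : Dead b_V_700_700_20_69 := chkB_sound0 h (T :=
(.spl (nat_lit 0) (nat_lit 300)
(.ord (.leaf p074_l86))
(.trX (nat_lit 16) (nat_lit 94) (nat_lit 88) (nat_lit 100) (nat_lit 320) (.spl (nat_lit 1) (nat_lit 300)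
(.leaf p074_l87)
(.trX (nat_lit 19) (nat_lit 94) (nat_lit 88) (nat_lit 100) (nat_lit 320) (.leaf p074_l88)))))) (by decide +kernel)
noncomputable def p074_l89 : Lf2 := ⟨nat_lit 0, nat_lit 14, [nat_lit 119, nat_lit 5, nat_lit 5, nat_lit 20], true, nat_lit 0, nat_lit 160, nat_lit 0, nat_lit 336, ⟨nat_lit 0, nat_lit 1000, nat_lit 0, nat_lit 7, nat_lit 159, nat_lit 1000, nat_lit 64, nat_lit 0, nat_lit 0, nat_lit 0, nat_lit 0, nat_lit 0, nat_lit 0, nat_lit 0, nat_lit 0, nat_lit 5000000, false, false⟩,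
 nat_lit 0, nat_lit 9044, nat_lit 0, nat_lit 0, nat_lit 5755, nat_lit 0, nat_lit 214, nat_lit 0, nat_lit 0, nat_lit 0, nat_lit 0, nat_lit 0, nat_lit 0, nat_lit 30681260766443, nat_lit 46, nat_lit 1000000, nat_lit 0, nat_lit 0, [(nat_lit 13, [(nat_lit 2, nat_lit 1000)])],
 ⟨p074_k0, nat_lit 0, nat_lit 0, nat_lit 312, nat_lit 0, nat_lit 162915, [nat_lit 2887200001, nat_lit 2891733334, nat_lit 333066666], [], [nat_lit 16882717640, nat_lit 18654489918, nat_lit 16164167728, nat_lit 17744450846, nat_lit 15938048521, nat_lit 15902030460, nat_lit 19058343909, nat_lit 16382832899], nat_lit 1271250, nat_lit 1271250, nat_lit 382400, nat_lit 780000, nat_lit 0, nat_lit 1100001, [nat_lit 780000, nat_lit 1435000, nat_lit 1271250], [nat_lit 8, nat_lit 40, nat_lit 40, nat_lit 80, nat_lit 1, nat_lit 289, nat_lit 75, nat_lit 9]⟩, C1.Rw.none,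
 ⟨nat_lit 5000, nat_lit 5478, ⟨.ofNat (nat_lit 330654), .ofNat (nat_lit 435548), .ofNat (nat_lit 352005), .ofNat (nat_lit 456895), .ofNat (nat_lit 342856), .ofNat (nat_lit 442843), .ofNat (nat_lit 364277), .ofNat (nat_lit 464262)⟩, ⟨.negSucc (nat_lit 2832), .ofNat (nat_lit 296923), .ofNat (nat_lit 0), .ofNat (nat_lit 339637), .ofNat (nat_lit 0), .ofNat (nat_lit 299999), .ofNat (nat_lit 0), .ofNat (nat_lit 342856)⟩⟩, [⟨nat_lit 0, nat_lit 100, nat_lit 100, nat_lit 100, nat_lit 71388251⟩]⟩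
noncomputable def p074_l90 : Lf2 := ⟨nat_lit 0, nat_lit 14, [nat_lit 119, nat_lit 5, nat_lit 5, nat_lit 20], true, nat_lit 160, nat_lit 336, nat_lit 0, nat_lit 336, ⟨nat_lit 0, nat_lit 1000, nat_lit 0, nat_lit 7, nat_lit 159, nat_lit 1000, nat_lit 192, nat_lit 0, nat_lit 0, nat_lit 0, nat_lit 0, nat_lit 0, nat_lit 0, nat_lit 0, nat_lit 0, nat_lit 5000000, false, false⟩,
 nat_lit 0, nat_lit 7621, nat_lit 0, nat_lit 2582, nat_lit 4849, nat_lit 0, nat_lit 117, nat_lit 0, nat_lit 0, nat_lit 0, nat_lit 0, nat_lit 0, nat_lit 0, nat_lit 10815276103395, nat_lit 0, nat_lit 740200, nat_lit 0, nat_lit 0, [(nat_lit 13, [(nat_lit 1, nat_lit 433), (nat_lit 2, nat_lit 567)])],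
 ⟨p074_k0, nat_lit 0, nat_lit 0, nat_lit 192, nat_lit 0, nat_lit 162915, [nat_lit 2219098267, nat_lit 2297522534, nat_lit 602307866], [], [nat_lit 16305302372, nat_lit 17663229802, nat_lit 16166697350, nat_lit 17316133442, nat_lit 23859884705, nat_lit 24764786220, nat_lit 23703561869, nat_lit 24012314672], nat_lit 1271250, nat_lit 1271250, nat_lit 382400, nat_lit 780000, nat_lit 1100001, nat_lit 2607000, [nat_lit 780000, nat_lit 1435000, nat_lit 1271250], [nat_lit 8, nat_lit 40, nat_lit 40, nat_lit 80, nat_lit 1, nat_lit 345, nat_lit 125, nat_lit 10]⟩, C1.Rw.none,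
 ⟨nat_lit 5000, nat_lit 5478, ⟨.ofNat (nat_lit 330654), .ofNat (nat_lit 435548), .ofNat (nat_lit 352005), .ofNat (nat_lit 456895), .ofNat (nat_lit 342856), .ofNat (nat_lit 442843), .ofNat (nat_lit 364277), .ofNat (nat_lit 464262)⟩, ⟨.ofNat (nat_lit 296923), .ofNat (nat_lit 626629), .ofNat (nat_lit 339637), .ofNat (nat_lit 669336), .ofNat (nat_lit 299999), .ofNat (nat_lit 614284), .ofNat (nat_lit 342856), .ofNat (nat_lit 657134)⟩⟩, [⟨nat_lit 0, nat_lit 100, nat_lit 100, nat_lit 100, nat_lit 57333761⟩, ⟨nat_lit 4, nat_lit 94, nat_lit 100, nat_lit 97, nat_lit 283514630⟩]⟩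
noncomputable def p074_l91 : Lf2 := ⟨nat_lit 1, nat_lit 20, [nat_lit 5, nat_lit 5, nat_lit 5, nat_lit 20], false, nat_lit 0, nat_lit 336, nat_lit 0, nat_lit 336, zbN0,
 nat_lit 0, nat_lit 0, nat_lit 0, nat_lit 0, nat_lit 0, nat_lit 0, nat_lit 0, nat_lit 0, nat_lit 0, nat_lit 0, nat_lit 0, nat_lit 0, nat_lit 0, nat_lit 0, nat_lit 0, nat_lit 0, nat_lit 0, nat_lit 0, [],
 C1.Rw.none, C1.Rw.none,
 zbF0, []⟩
noncomputable def p074_l92 : Lf2 := ⟨nat_lit 0, nat_lit 20, [nat_lit 5, nat_lit 5, nat_lit 5, nat_lit 20], true, nat_lit 0, nat_lit 160, nat_lit 0, nat_lit 336, ⟨nat_lit 0, nat_lit 1000, nat_lit 0, nat_lit 7, nat_lit 173, nat_lit 1000, nat_lit 65, nat_lit 0, nat_lit 0, nat_lit 0, nat_lit 0, nat_lit 0, nat_lit 0, nat_lit 0, nat_lit 0, nat_lit 5000000, false, false⟩,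
 nat_lit 0, nat_lit 7697, nat_lit 0, nat_lit 0, nat_lit 5328, nat_lit 0, nat_lit 555, nat_lit 0, nat_lit 0, nat_lit 0, nat_lit 0, nat_lit 0, nat_lit 0, nat_lit 2800346749089, nat_lit 0, nat_lit 400000, nat_lit 0, nat_lit 0, [(nat_lit 16, [(nat_lit 1, nat_lit 1000)])],
 ⟨p074_k2, nat_lit 0, nat_lit 0, nat_lit 470, nat_lit 0, nat_lit 503741, [nat_lit 2020200000, nat_lit 2399066667, nat_lit 2245733333], [], [nat_lit 19585048292, nat_lit 19826051072, nat_lit 17742933091, nat_lit 19335000480, nat_lit 15998434764, nat_lit 16913558124, nat_lit 16876627108, nat_lit 16822171148], nat_lit 1271250, nat_lit 1271250, nat_lit 490000, nat_lit 780000, nat_lit 0, nat_lit 1100001, [nat_lit 780000, nat_lit 1435000, nat_lit 1271250], [nat_lit 8, nat_lit 40, nat_lit 40, nat_lit 80, nat_lit 1, nat_lit 289, nat_lit 75, nat_lit 8]⟩, C1.Rw.none,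
 ⟨nat_lit 4472, nat_lit 5000, ⟨.ofNat (nat_lit 371392), .ofNat (nat_lit 442816), .ofNat (nat_lit 414225), .ofNat (nat_lit 485648), .ofNat (nat_lit 382295), .ofNat (nat_lit 450269), .ofNat (nat_lit 425403), .ofNat (nat_lit 493376)⟩, ⟨.ofNat (nat_lit 0), .ofNat (nat_lit 299999), .ofNat (nat_lit 0), .ofNat (nat_lit 342856), .ofNat (nat_lit 0), .ofNat (nat_lit 302621), .ofNat (nat_lit 0), .ofNat (nat_lit 345754)⟩⟩, [⟨nat_lit 0, nat_lit 97, nat_lit 93, nat_lit 100, nat_lit 872939154⟩]⟩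
noncomputable def p074_l93 : Lf2 := ⟨nat_lit 0, nat_lit 20, [nat_lit 5, nat_lit 5, nat_lit 5, nat_lit 20], true, nat_lit 160, nat_lit 320, nat_lit 0, nat_lit 336, ⟨nat_lit 0, nat_lit 1000, nat_lit 0, nat_lit 7, nat_lit 170, nat_lit 1000, nat_lit 185, nat_lit 0, nat_lit 0, nat_lit 0, nat_lit 0, nat_lit 0, nat_lit 0, nat_lit 0, nat_lit 0, nat_lit 5000000, false, false⟩,
 nat_lit 0, nat_lit 8091, nat_lit 0, nat_lit 0, nat_lit 5601, nat_lit 0, nat_lit 0, nat_lit 0, nat_lit 0, nat_lit 0, nat_lit 0, nat_lit 0, nat_lit 0, nat_lit 19384485324933, nat_lit 0, nat_lit 635800, nat_lit 0, nat_lit 0, [(nat_lit 16, [(nat_lit 1, nat_lit 607), (nat_lit 2, nat_lit 393)])],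
 ⟨p074_k2, nat_lit 0, nat_lit 0, nat_lit 230, nat_lit 0, nat_lit 318876, [nat_lit 2058949800, nat_lit 1864796267, nat_lit 421374933], [], [nat_lit 17661787152, nat_lit 18229255336, nat_lit 17472932792, nat_lit 18012023368, nat_lit 23842088597, nat_lit 24339845115, nat_lit 25092667555, nat_lit 23824578751], nat_lit 1271250, nat_lit 1271250, nat_lit 490000, nat_lit 780000, nat_lit 1100001, nat_lit 2470000, [nat_lit 780000, nat_lit 1435000, nat_lit 1271250], [nat_lit 8, nat_lit 40, nat_lit 40, nat_lit 80, nat_lit 1, nat_lit 345, nat_lit 125, nat_lit 9]⟩, C1.Rw.none,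
 ⟨nat_lit 4743, nat_lit 5000, ⟨.ofNat (nat_lit 371422), .ofNat (nat_lit 442849), .ofNat (nat_lit 403560), .ofNat (nat_lit 474987), .ofNat (nat_lit 376847), .ofNat (nat_lit 446544), .ofNat (nat_lit 409074), .ofNat (nat_lit 478772)⟩, ⟨.ofNat (nat_lit 299999), .ofNat (nat_lit 585713), .ofNat (nat_lit 342856), .ofNat (nat_lit 628570), .ofNat (nat_lit 301370), .ofNat (nat_lit 580169), .ofNat (nat_lit 344346), .ofNat (nat_lit 623145)⟩⟩, [⟨nat_lit 0, nat_lit 91, nat_lit 91, nat_lit 100, nat_lit 192144333⟩, ⟨nat_lit 4, nat_lit 100, nat_lit 97, nat_lit 98, nat_lit 282220014⟩]⟩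
noncomputable def p074_l94 : Lf2 := ⟨nat_lit 0, nat_lit 20, [nat_lit 5, nat_lit 5, nat_lit 5, nat_lit 20], true, nat_lit 160, nat_lit 312, nat_lit 0, nat_lit 336, ⟨nat_lit 0, nat_lit 1000, nat_lit 0, nat_lit 7, nat_lit 177, nat_lit 1000, nat_lit 182, nat_lit 0, nat_lit 0, nat_lit 0, nat_lit 0, nat_lit 0, nat_lit 0, nat_lit 0, nat_lit 0, nat_lit 5000000, false, false⟩,
 nat_lit 0, nat_lit 7507, nat_lit 0, nat_lit 0, nat_lit 5411, nat_lit 0, nat_lit 253, nat_lit 0, nat_lit 0, nat_lit 0, nat_lit 0, nat_lit 0, nat_lit 0, nat_lit 0, nat_lit 0, nat_lit 400000, nat_lit 0, nat_lit 0, [(nat_lit 16, [(nat_lit 1, nat_lit 1000)])],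
 ⟨p074_k5, nat_lit 0, nat_lit 0, nat_lit 323, nat_lit 0, nat_lit 475587, [nat_lit 2020200000, nat_lit 2399066667, nat_lit 2245733333], [], [nat_lit 17901120287, nat_lit 18568247789, nat_lit 17754112248, nat_lit 18389815158, nat_lit 23509360581, nat_lit 24254929400, nat_lit 23145349374, nat_lit 23871725295], nat_lit 1271250, nat_lit 1271250, nat_lit 545600, nat_lit 780000, nat_lit 1100001, nat_lit 2401500, [nat_lit 780000, nat_lit 1435000, nat_lit 1271250], [nat_lit 8, nat_lit 40, nat_lit 40, nat_lit 80, nat_lit 1, nat_lit 345, nat_lit 125, nat_lit 9]⟩, C1.Rw.none,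
 ⟨nat_lit 4472, nat_lit 4744, ⟨.ofNat (nat_lit 390781), .ofNat (nat_lit 446540), .ofNat (nat_lit 433750), .ofNat (nat_lit 489510), .ofNat (nat_lit 395915), .ofNat (nat_lit 450297), .ofNat (nat_lit 439041), .ofNat (nat_lit 493423)⟩, ⟨.ofNat (nat_lit 301370), .ofNat (nat_lit 566229), .ofNat (nat_lit 344346), .ofNat (nat_lit 609205), .ofNat (nat_lit 302621), .ofNat (nat_lit 560938), .ofNat (nat_lit 345754), .ofNat (nat_lit 604071)⟩⟩, [⟨nat_lit 0, nat_lit 95, nat_lit 90, nat_lit 100, nat_lit 973273070⟩, ⟨nat_lit 4, nat_lit 100, nat_lit 90, nat_lit 95, nat_lit 307682529⟩]⟩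
noncomputable def p074_l95 : Lf2 := ⟨nat_lit 0, nat_lit 20, [nat_lit 5, nat_lit 5, nat_lit 5, nat_lit 20], false, nat_lit 0, nat_lit 160, nat_lit 0, nat_lit 160, ⟨nat_lit 1000, nat_lit 0, nat_lit 0, nat_lit 0, nat_lit 0, nat_lit 0, nat_lit 0, nat_lit 0, nat_lit 0, nat_lit 0, nat_lit 0, nat_lit 0, nat_lit 0, nat_lit 0, nat_lit 0, nat_lit 0, false, false⟩,
 nat_lit 0, nat_lit 10399, nat_lit 0, nat_lit 981, nat_lit 6617, nat_lit 7402, nat_lit 908, nat_lit 0, nat_lit 0, nat_lit 1480, nat_lit 0, nat_lit 0, nat_lit 0, nat_lit 19324254268461, nat_lit 0, nat_lit 0, nat_lit 0, nat_lit 0, [],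
 ⟨p074_k3, nat_lit 0, nat_lit 0, nat_lit 540, nat_lit 0, nat_lit 568620, [nat_lit 3282000000, nat_lit 6250000000, nat_lit 11872000000], [], [nat_lit 39615261280, nat_lit 32741336528, nat_lit 32121214436, nat_lit 33652661560, nat_lit 27631887228, nat_lit 28885935064, nat_lit 29576362616, nat_lit 29995150588], nat_lit 1271250, nat_lit 1271250, nat_lit 780000, nat_lit 1762500, nat_lit 0, nat_lit 1100001, [nat_lit 780000, nat_lit 1435000, nat_lit 1271250], [nat_lit 23, nat_lit 40, nat_lit 40, nat_lit 80, nat_lit 12, nat_lit 428, nat_lit 200, nat_lit 11]⟩, ⟨p074_k3, nat_lit 0, nat_lit 0, nat_lit 222, nat_lit 0, nat_lit 0, [nat_lit 3282000000, nat_lit 6250000000, nat_lit 11872000000], [], [nat_lit 20202735544, nat_lit 23596033456, nat_lit 23501933384, nat_lit 27248150208, nat_lit 14921038280, nat_lit 18908268264, nat_lit 18962203360, nat_lit 22085119912], nat_lit 0, nat_lit 0, nat_lit 0, nat_lit 0, nat_lit 0, nat_lit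 0, [], [nat_lit 23, nat_lit 40, nat_lit 40, nat_lit 80, nat_lit 12, nat_lit 428, nat_lit 200, nat_lit 11]⟩,
 zbF0, []⟩
noncomputable def p074_l96 : Lf2 := ⟨nat_lit 0, nat_lit 20, [nat_lit 5, nat_lit 5, nat_lit 5, nat_lit 20], true, nat_lit 0, nat_lit 160, nat_lit 160, nat_lit 336, ⟨nat_lit 0, nat_lit 1000, nat_lit 0, nat_lit 7, nat_lit 224, nat_lit 1000, nat_lit 64, nat_lit 0, nat_lit 0, nat_lit 0, nat_lit 0, nat_lit 0, nat_lit 0, nat_lit 0, nat_lit 0, nat_lit 5000000, false, false⟩,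
 nat_lit 0, nat_lit 6340, nat_lit 0, nat_lit 1080, nat_lit 4034, nat_lit 0, nat_lit 0, nat_lit 0, nat_lit 0, nat_lit 0, nat_lit 0, nat_lit 0, nat_lit 0, nat_lit 24079511842324, nat_lit 0, nat_lit 425800, nat_lit 0, nat_lit 0, [(nat_lit 13, [(nat_lit 1, nat_lit 957), (nat_lit 2, nat_lit 43)])],
 ⟨p074_k3, nat_lit 0, nat_lit 0, nat_lit 344, nat_lit 0, nat_lit 155355, [nat_lit 2078596401, nat_lit 2836155801, nat_lit 2194736000], [], [nat_lit 31061934762, nat_lit 28929005670, nat_lit 27709508002, nat_lit 28446666526, nat_lit 24656950210, nat_lit 25420951258, nat_lit 26455607146, nat_lit 27088097566], nat_lit 1271250, nat_lit 1271250, nat_lit 780000, nat_lit 1762500, nat_lit 0, nat_lit 1100001, [nat_lit 780000, nat_lit 1435000, nat_lit 1271250], [nat_lit 23, nat_lit 40, nat_lit 40, nat_lit 80, nat_lit 12, nat_lit 401, nat_lit 175, nat_lit 10]⟩, C1.Rw.none,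
 ⟨nat_lit 5000, nat_lit 5478, ⟨.ofNat (nat_lit 435548), .ofNat (nat_lit 660309), .ofNat (nat_lit 456895), .ofNat (nat_lit 681655), .ofNat (nat_lit 442843), .ofNat (nat_lit 657090), .ofNat (nat_lit 464262), .ofNat (nat_lit 678509)⟩, ⟨.negSucc (nat_lit 2832), .ofNat (nat_lit 296923), .ofNat (nat_lit 0), .ofNat (nat_lit 339637), .ofNat (nat_lit 0), .ofNat (nat_lit 299999), .ofNat (nat_lit 0), .ofNat (nat_lit 342856)⟩⟩, []⟩
noncomputable def p074_l97 : Lf2 := ⟨nat_lit 0, nat_lit 20, [nat_lit 5, nat_lit 5, nat_lit 5, nat_lit 20], false, nat_lit 0, nat_lit 160, nat_lit 160, nat_lit 336, ⟨nat_lit 1000, nat_lit 0, nat_lit 0, nat_lit 0, nat_lit 0, nat_lit 0, nat_lit 0, nat_lit 0, nat_lit 0, nat_lit 0, nat_lit 0, nat_lit 0, nat_lit 0, nat_lit 0, nat_lit 0, nat_lit 0, false, false⟩,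
 nat_lit 0, nat_lit 11156, nat_lit 0, nat_lit 0, nat_lit 7723, nat_lit 4999, nat_lit 830, nat_lit 0, nat_lit 0, nat_lit 0, nat_lit 0, nat_lit 0, nat_lit 0, nat_lit 0, nat_lit 0, nat_lit 0, nat_lit 0, nat_lit 0, [],
 ⟨p074_k2, nat_lit 0, nat_lit 0, nat_lit 451, nat_lit 0, nat_lit 503741, [nat_lit 3282000000, nat_lit 6250000000, nat_lit 9842000000], [], [nat_lit 29425772678, nat_lit 25886728956, nat_lit 26716901962, nat_lit 28274399644, nat_lit 20232581284, nat_lit 21200901160, nat_lit 30694188232, nat_lit 27242007232], nat_lit 1271250, nat_lit 1271250, nat_lit 780000, nat_lit 1762500, nat_lit 0, nat_lit 1100001, [nat_lit 780000, nat_lit 1435000, nat_lit 1271250], [nat_lit 8, nat_lit 40, nat_lit 40, nat_lit 80, nat_lit 1, nat_lit 317, nat_lit 100, nat_lit 9]⟩, ⟨p074_k3, nat_lit 0, nat_lit 0, nat_lit 71, nat_lit 0, nat_lit 0, [nat_lit 3282000000, nat_lit 6250000000, nat_lit 11872000000], [], [nat_lit 12570000608, nat_lit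 16189516264, nat_lit 17010569296, nat_lit 19890712240, nat_lit 22747834908, nat_lit 25329749157, nat_lit 25109223787, nat_lit 27193499143], nat_lit 0, nat_lit 0, nat_lit 0, nat_lit 0, nat_lit 0, nat_lit 0, [], [nat_lit 23, nat_lit 40, nat_lit 40, nat_lit 80, nat_lit 12, nat_lit 456, nat_lit 225, nat_lit 11]⟩,
 zbF0, [⟨nat_lit 7, nat_lit 100, nat_lit 100, nat_lit 100, nat_lit 488085076⟩]⟩
noncomputable def p074_l98 : Lf2 := ⟨nat_lit 0, nat_lit 20, [nat_lit 5, nat_lit 5, nat_lit 5, nat_lit 20], false, nat_lit 160, nat_lit 336, nat_lit 0, nat_lit 160, ⟨nat_lit 1000, nat_lit 0, nat_lit 0, nat_lit 0, nat_lit 0, nat_lit 0, nat_lit 0, nat_lit 0, nat_lit 0, nat_lit 0, nat_lit 0, nat_lit 0, nat_lit 0, nat_lit 0, nat_lit 0, nat_lit 0, false, false⟩,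
 nat_lit 0, nat_lit 12798, nat_lit 0, nat_lit 6194, nat_lit 8143, nat_lit 7802, nat_lit 995, nat_lit 0, nat_lit 0, nat_lit 1583, nat_lit 0, nat_lit 0, nat_lit 0, nat_lit 0, nat_lit 0, nat_lit 0, nat_lit 0, nat_lit 0, [],
 ⟨p074_k3, nat_lit 0, nat_lit 0, nat_lit 324, nat_lit 0, nat_lit 363531, [nat_lit 3282000000, nat_lit 6250000000, nat_lit 11872000000], [], [nat_lit 21880223544, nat_lit 22849796117, nat_lit 22290443976, nat_lit 23650875893, nat_lit 26283700200, nat_lit 28153028492, nat_lit 26939440752, nat_lit 29386934637], nat_lit 1271250, nat_lit 1271250, nat_lit 780000, nat_lit 1762500, nat_lit 1271250, nat_lit 1271250, [nat_lit 780000, nat_lit 1435000, nat_lit 1271250], [nat_lit 23, nat_lit 40, nat_lit 40, nat_lit 80, nat_lit 12, nat_lit 456, nat_lit 225, nat_lit 11]⟩, ⟨p074_k3, nat_lit 0, nat_lit 0, nat_lit 212, nat_lit 0, nat_lit 0, [nat_lit 3282000000, nat_lit 6250000000, nat_lit 11872000000], [], [nat_lit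 19407649969, nat_lit 21157489429, nat_lit 23443650184, nat_lit 25380760996, nat_lit 14403894280, nat_lit 16467627672, nat_lit 18490875360, nat_lit 20102948836], nat_lit 0, nat_lit 0, nat_lit 0, nat_lit 0, nat_lit 0, nat_lit 0, [], [nat_lit 23, nat_lit 40, nat_lit 40, nat_lit 80, nat_lit 12, nat_lit 401, nat_lit 175, nat_lit 10]⟩,
 zbF0, [⟨nat_lit 0, nat_lit 94, nat_lit 87, nat_lit 100, nat_lit 32756161⟩, ⟨nat_lit 4, nat_lit 100, nat_lit 100, nat_lit 100, nat_lit 379034222⟩]⟩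
noncomputable def p074_l99 : Lf2 := ⟨nat_lit 0, nat_lit 20, [nat_lit 5, nat_lit 5, nat_lit 5, nat_lit 20], true, nat_lit 160, nat_lit 336, nat_lit 160, nat_lit 336, ⟨nat_lit 0, nat_lit 1000, nat_lit 0, nat_lit 7, nat_lit 224, nat_lit 1000, nat_lit 192, nat_lit 0, nat_lit 0, nat_lit 0, nat_lit 0, nat_lit 0, nat_lit 0, nat_lit 0, nat_lit 0, nat_lit 5000000, false, false⟩,
 nat_lit 0, nat_lit 8273, nat_lit 0, nat_lit 1175, nat_lit 5264, nat_lit 0, nat_lit 403, nat_lit 0, nat_lit 0, nat_lit 0, nat_lit 0, nat_lit 0, nat_lit 0, nat_lit 25717689571577, nat_lit 0, nat_lit 250000, nat_lit 0, nat_lit 0, [(nat_lit 13, [(nat_lit 0, nat_lit 1000)])],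
 ⟨p074_k3, nat_lit 0, nat_lit 0, nat_lit 189, nat_lit 0, nat_lit 155355, [nat_lit 2378400000, nat_lit 3128000000, nat_lit 3715520000], [], [nat_lit 18320562925, nat_lit 19512561869, nat_lit 22295927648, nat_lit 21602800413, nat_lit 24729257217, nat_lit 25516453210, nat_lit 25677584077, nat_lit 26313847322], nat_lit 1271250, nat_lit 1271250, nat_lit 780000, nat_lit 1762500, nat_lit 1271250, nat_lit 1271250, [nat_lit 780000, nat_lit 1435000, nat_lit 1271250], [nat_lit 23, nat_lit 40, nat_lit 40, nat_lit 80, nat_lit 12, nat_lit 456, nat_lit 225, nat_lit 11]⟩, C1.Rw.none,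
 ⟨nat_lit 5000, nat_lit 5478, ⟨.ofNat (nat_lit 435548), .ofNat (nat_lit 660309), .ofNat (nat_lit 456895), .ofNat (nat_lit 681655), .ofNat (nat_lit 442843), .ofNat (nat_lit 657090), .ofNat (nat_lit 464262), .ofNat (nat_lit 678509)⟩, ⟨.ofNat (nat_lit 296923), .ofNat (nat_lit 626629), .ofNat (nat_lit 339637), .ofNat (nat_lit 669336), .ofNat (nat_lit 299999), .ofNat (nat_lit 614284), .ofNat (nat_lit 342856), .ofNat (nat_lit 657134)⟩⟩, [⟨nat_lit 4, nat_lit 94, nat_lit 100, nat_lit 97, nat_lit 225356247⟩]⟩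
noncomputable def p074_l100 : Lf2 := ⟨nat_lit 0, nat_lit 20, [nat_lit 5, nat_lit 5, nat_lit 5, nat_lit 20], false, nat_lit 160, nat_lit 320, nat_lit 160, nat_lit 336, ⟨nat_lit 671, nat_lit 329, nat_lit 0, nat_lit 7, nat_lit 225, nat_lit 329, nat_lit 185, nat_lit 0, nat_lit 0, nat_lit 0, nat_lit 0, nat_lit 0, nat_lit 0, nat_lit 0, nat_lit 0, nat_lit 5000000, false, false⟩,
 nat_lit 0, nat_lit 8729, nat_lit 0, nat_lit 7379, nat_lit 6042, nat_lit 3281, nat_lit 771, nat_lit 0, nat_lit 0, nat_lit 0, nat_lit 0, nat_lit 0, nat_lit 0, nat_lit 0, nat_lit 0, nat_lit 131600, nat_lit 0, nat_lit 0, [(nat_lit 16, [(nat_lit 1, nat_lit 329)])],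
 ⟨p074_k2, nat_lit 0, nat_lit 0, nat_lit 216, nat_lit 0, nat_lit 322200, [nat_lit 2866867801, nat_lit 4983042934, nat_lit 7317648800], [], [nat_lit 19158541102, nat_lit 19110040950, nat_lit 20207196530, nat_lit 21354248982, nat_lit 23872849422, nat_lit 24880863944, nat_lit 30485210656, nat_lit 27749344720], nat_lit 1271250, nat_lit 1271250, nat_lit 780000, nat_lit 1762500, nat_lit 1100001, nat_lit 2470000, [nat_lit 780000, nat_lit 1435000, nat_lit 1271250], [nat_lit 8, nat_lit 40, nat_lit 40, nat_lit 80, nat_lit 1, nat_lit 373, nat_lit 150, nat_lit 10]⟩, ⟨p074_k3, nat_lit 0, nat_lit 0, nat_lit 62, nat_lit 0, nat_lit 0, [nat_lit 2202222000, nat_lit 4193750000, nat_lit 7966112000], [], [nat_lit 8533655800, nat_lit 9732444942, nat_lit 11497782092, nat_lit 12452738666, nat_lit 15294808644, nat_lit 16074330384, nat_lit 16849191126, nat_lit 17502998899], nat_lit 0, nat_lit 0, nat_lit 0, nat_lit 0, nat_lit 0, nat_lit 0,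 [], [nat_lit 23, nat_lit 40, nat_lit 40, nat_lit 80, nat_lit 12, nat_lit 456, nat_lit 225, nat_lit 11]⟩,
 ⟨nat_lit 4472, nat_lit 5000, ⟨.ofNat (nat_lit 442816), .ofNat (nat_lit 657088), .ofNat (nat_lit 464232), .ofNat (nat_lit 678503), .ofNat (nat_lit 450269), .ofNat (nat_lit 654189), .ofNat (nat_lit 471823), .ofNat (nat_lit 675743)⟩, ⟨.ofNat (nat_lit 299999), .ofNat (nat_lit 585713), .ofNat (nat_lit 342856), .ofNat (nat_lit 628570), .ofNat (nat_lit 302621), .ofNat (nat_lit 574534), .ofNat (nat_lit 345754), .ofNat (nat_lit 617667)⟩⟩, [⟨nat_lit 4, nat_lit 100, nat_lit 93, nat_lit 97, nat_lit 398815087⟩, ⟨nat_lit 7, nat_lit 94, nat_lit 100, nat_lit 97, nat_lit 340389824⟩]⟩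
noncomputable def p074_l101 : Lf2 := ⟨nat_lit 0, nat_lit 20, [nat_lit 5, nat_lit 5, nat_lit 5, nat_lit 20], false, nat_lit 160, nat_lit 320, nat_lit 0, nat_lit 160, ⟨nat_lit 1000, nat_lit 0, nat_lit 0, nat_lit 0, nat_lit 0, nat_lit 0, nat_lit 0, nat_lit 0, nat_lit 0, nat_lit 0, nat_lit 0, nat_lit 0, nat_lit 0, nat_lit 0, nat_lit 0, nat_lit 0, false, false⟩,
 nat_lit 0, nat_lit 8881, nat_lit 0, nat_lit 0, nat_lit 6148, nat_lit 6982, nat_lit 1431, nat_lit 0, nat_lit 0, nat_lit 0, nat_lit 0, nat_lit 0, nat_lit 0, nat_lit 12106280043230, nat_lit 0, nat_lit 0, nat_lit 0, nat_lit 0, [],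
 ⟨p074_k10, nat_lit 0, nat_lit 0, nat_lit 314, nat_lit 0, nat_lit 503741, [nat_lit 3282000000, nat_lit 4688000000, nat_lit 9842000000], [], [nat_lit 19878049086, nat_lit 20806700334, nat_lit 25600930391, nat_lit 22742712895, nat_lit 24161424543, nat_lit 25149365375, nat_lit 25650919584, nat_lit 26860418624], nat_lit 1271250, nat_lit 1271250, nat_lit 780000, nat_lit 1762500, nat_lit 1271250, nat_lit 1271250, [nat_lit 780000, nat_lit 1100000, nat_lit 2127500], [nat_lit 42, nat_lit 40, nat_lit 40, nat_lit 80, nat_lit 13, nat_lit 373, nat_lit 150, nat_lit 10]⟩, ⟨p074_k10, nat_lit 0, nat_lit 0, nat_lit 174, nat_lit 0, nat_lit 0, [nat_lit 3282000000, nat_lit 4688000000, nat_lit 9842000000], [], [nat_lit 30297048652, nat_lit 32164474304, nat_lit 33146017308, nat_lit 34614792096, nat_lit 25609835024, nat_lit 27175951400, nat_lit 28090737580, nat_lit 29326249672], nat_lit 0, nat_lit 0, nat_lit 0, nat_lit 0, nat_lit 0, nat_lit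 0, [], [nat_lit 42, nat_lit 40, nat_lit 40, nat_lit 80, nat_lit 13, nat_lit 317, nat_lit 100, nat_lit 9]⟩,
 zbF0, [⟨nat_lit 0, nat_lit 91, nat_lit 91, nat_lit 100, nat_lit 125324669⟩, ⟨nat_lit 16, nat_lit 93, nat_lit 100, nat_lit 97, nat_lit 397338432⟩]⟩
noncomputable def p074_l102 : Lf2 := ⟨nat_lit 0, nat_lit 20, [nat_lit 5, nat_lit 5, nat_lit 5, nat_lit 20], false, nat_lit 160, nat_lit 320, nat_lit 160, nat_lit 320, ⟨nat_lit 501, nat_lit 499, nat_lit 0, nat_lit 7, nat_lit 233, nat_lit 499, nat_lit 185, nat_lit 0, nat_lit 0, nat_lit 0, nat_lit 0, nat_lit 0, nat_lit 0, nat_lit 0, nat_lit 0, nat_lit 5000000, false, false⟩,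
 nat_lit 0, nat_lit 7811, nat_lit 0, nat_lit 0, nat_lit 5407, nat_lit 2450, nat_lit 559, nat_lit 0, nat_lit 0, nat_lit 0, nat_lit 0, nat_lit 0, nat_lit 0, nat_lit 5682612837285, nat_lit 0, nat_lit 499000, nat_lit 0, nat_lit 0, [(nat_lit 16, [(nat_lit 2, nat_lit 499)])],
 ⟨p074_k10, nat_lit 0, nat_lit 0, nat_lit 314, nat_lit 0, nat_lit 503741, [nat_lit 2633978640, nat_lit 3780618400, nat_lit 3621291880], [], [nat_lit 19383801530, nat_lit 19730992866, nat_lit 24555483689, nat_lit 22041758575, nat_lit 23474946692, nat_lit 24399962296, nat_lit 25283525856, nat_lit 26420051216], nat_lit 1271250, nat_lit 1271250, nat_lit 780000, nat_lit 1762500, nat_lit 1271250, nat_lit 1271250, [nat_lit 780000, nat_lit 1100000, nat_lit 2127500], [nat_lit 42, nat_lit 40, nat_lit 40, nat_lit 80, nat_lit 13, nat_lit 373, nat_lit 150, nat_lit 10]⟩, ⟨p074_k10, nat_lit 0, nat_lit 0, nat_lit 51, nat_lit 0, nat_lit 0, [nat_lit 1644282000, nat_lit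 2348688000, nat_lit 4930842000], [], [nat_lit 7266411598, nat_lit 8161537108, nat_lit 9297548894, nat_lit 10010603080, nat_lit 11416120398, nat_lit 12027747892, nat_lit 12571322952, nat_lit 13082580336], nat_lit 0, nat_lit 0, nat_lit 0, nat_lit 0, nat_lit 0, nat_lit 0, [], [nat_lit 42, nat_lit 40, nat_lit 40, nat_lit 80, nat_lit 13, nat_lit 373, nat_lit 150, nat_lit 10]⟩,
 ⟨nat_lit 4472, nat_lit 5000, ⟨.ofNat (nat_lit 464232), .ofNat (nat_lit 678503), .ofNat (nat_lit 485648), .ofNat (nat_lit 699920), .ofNat (nat_lit 471823), .ofNat (nat_lit 675743), .ofNat (nat_lit 493376), .ofNat (nat_lit 697297)⟩, ⟨.ofNat (nat_lit 299999), .ofNat (nat_lit 585713), .ofNat (nat_lit 342856), .ofNat (nat_lit 628570), .ofNat (nat_lit 302621), .ofNat (nat_lit 574534), .ofNat (nat_lit 345754), .ofNat (nat_lit 617667)⟩⟩, [⟨nat_lit 0, nat_lit 83, nat_lit 83, nat_lit 100, nat_lit 22646968⟩, ⟨nat_lit 16, nat_lit 93, nat_lit 100, nat_lit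 97, nat_lit 255792545⟩, ⟨nat_lit 7, nat_lit 100, nat_lit 93, nat_lit 97, nat_lit 258591676⟩]⟩
noncomputable def p074_l103 : Lf2 := ⟨nat_lit 0, nat_lit 20, [nat_lit 5, nat_lit 5, nat_lit 5, nat_lit 20], false, nat_lit 0, nat_lit 336, nat_lit 0, nat_lit 160, ⟨nat_lit 1000, nat_lit 0, nat_lit 0, nat_lit 0, nat_lit 0, nat_lit 0, nat_lit 0, nat_lit 0, nat_lit 0, nat_lit 0, nat_lit 0, nat_lit 0, nat_lit 0, nat_lit 0, nat_lit 0, nat_lit 0, false, false⟩,
 nat_lit 0, nat_lit 10767, nat_lit 0, nat_lit 11896, nat_lit 6851, nat_lit 6484, nat_lit 855, nat_lit 0, nat_lit 0, nat_lit 1028, nat_lit 0, nat_lit 0, nat_lit 0, nat_lit 0, nat_lit 0, nat_lit 0, nat_lit 0, nat_lit 0, [],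
 ⟨p074_k3, nat_lit 0, nat_lit 0, nat_lit 336, nat_lit 0, nat_lit 155355, [nat_lit 3282000000, nat_lit 6250000000, nat_lit 11872000000], [], [nat_lit 30037656253, nat_lit 31039040283, nat_lit 38075562025, nat_lit 39193351286, nat_lit 29546628838, nat_lit 30079673067, nat_lit 35247688496, nat_lit 35931323013], nat_lit 1271250, nat_lit 1271250, nat_lit 1271250, nat_lit 1271250, nat_lit 0, nat_lit 2373000, [nat_lit 780000, nat_lit 1435000, nat_lit 1271250], [nat_lit 23, nat_lit 40, nat_lit 40, nat_lit 80, nat_lit 12, nat_lit 538, nat_lit 300, nat_lit 13]⟩, ⟨p074_k3, nat_lit 0, nat_lit 0, nat_lit 240, nat_lit 0, nat_lit 0, [nat_lit 3282000000, nat_lit 6250000000, nat_lit 11872000000], [], [nat_lit 28677646252, nat_lit 29654246772, nat_lit 37406402976, nat_lit 38200975176, nat_lit 24601995884, nat_lit 25422821684, nat_lit 32641829952, nat_lit 33316317520], nat_lit 0, nat_lit 0, nat_lit 0, nat_lit 0, nat_lit 0, nat_lit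 0, [], [nat_lit 23, nat_lit 40, nat_lit 40, nat_lit 80, nat_lit 12, nat_lit 456, nat_lit 225, nat_lit 11]⟩,
 zbF0, [⟨nat_lit 4, nat_lit 94, nat_lit 100, nat_lit 97, nat_lit 145196993⟩]⟩
noncomputable def p074_l104 : Lf2 := ⟨nat_lit 0, nat_lit 20, [nat_lit 5, nat_lit 5, nat_lit 5, nat_lit 20], false, nat_lit 0, nat_lit 320, nat_lit 0, nat_lit 160, ⟨nat_lit 1000, nat_lit 0, nat_lit 0, nat_lit 0, nat_lit 0, nat_lit 0, nat_lit 0, nat_lit 0, nat_lit 0, nat_lit 0, nat_lit 0, nat_lit 0, nat_lit 0, nat_lit 0, nat_lit 0, nat_lit 0, false, false⟩,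
 nat_lit 0, nat_lit 8476, nat_lit 0, nat_lit 0, nat_lit 5868, nat_lit 6762, nat_lit 744, nat_lit 0, nat_lit 0, nat_lit 1015, nat_lit 0, nat_lit 0, nat_lit 0, nat_lit 7214514062092, nat_lit 0, nat_lit 0, nat_lit 0, nat_lit 0, [],
 ⟨p074_k2, nat_lit 0, nat_lit 0, nat_lit 432, nat_lit 0, nat_lit 503741, [nat_lit 3282000000, nat_lit 6250000000, nat_lit 9842000000], [], [nat_lit 30903964224, nat_lit 31635588288, nat_lit 36619963208, nat_lit 37691160208, nat_lit 30534890344, nat_lit 30955532960, nat_lit 34315430616, nat_lit 34687871616], nat_lit 1271250, nat_lit 1271250, nat_lit 1271250, nat_lit 1271250, nat_lit 0, nat_lit 2260000, [nat_lit 780000, nat_lit 1435000, nat_lit 1271250], [nat_lit 8, nat_lit 40, nat_lit 40, nat_lit 80, nat_lit 1, nat_lit 428, nat_lit 200, nat_lit 12]⟩, ⟨p074_k3, nat_lit 0, nat_lit 0, nat_lit 242, nat_lit 0, nat_lit 0, [nat_lit 3282000000, nat_lit 6250000000, nat_lit 11872000000], [], [nat_lit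 28575706561, nat_lit 30566454281, nat_lit 37712469392, nat_lit 40192354072, nat_lit 24211394337, nat_lit 25880818137, nat_lit 32234595536, nat_lit 33600891184], nat_lit 0, nat_lit 0, nat_lit 0, nat_lit 0, nat_lit 0, nat_lit 0, [], [nat_lit 23, nat_lit 40, nat_lit 40, nat_lit 80, nat_lit 12, nat_lit 456, nat_lit 225, nat_lit 11]⟩,
 zbF0, [⟨nat_lit 16, nat_lit 93, nat_lit 100, nat_lit 97, nat_lit 153605898⟩]⟩
noncomputable def p074_l105 : Lf2 := ⟨nat_lit 0, nat_lit 20, [nat_lit 5, nat_lit 5, nat_lit 5, nat_lit 20], false, nat_lit 0, nat_lit 336, nat_lit 160, nat_lit 336, ⟨nat_lit 1000, nat_lit 0, nat_lit 0, nat_lit 0, nat_lit 0, nat_lit 0, nat_lit 0, nat_lit 0, nat_lit 0, nat_lit 0, nat_lit 0, nat_lit 0, nat_lit 0, nat_lit 0, nat_lit 0, nat_lit 0, false, false⟩,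
 nat_lit 0, nat_lit 10859, nat_lit 0, nat_lit 8285, nat_lit 6910, nat_lit 7044, nat_lit 855, nat_lit 0, nat_lit 0, nat_lit 0, nat_lit 0, nat_lit 0, nat_lit 0, nat_lit 0, nat_lit 0, nat_lit 0, nat_lit 0, nat_lit 0, [],
 ⟨p074_k3, nat_lit 0, nat_lit 0, nat_lit 336, nat_lit 0, nat_lit 155355, [nat_lit 3282000000, nat_lit 6250000000, nat_lit 11872000000], [], [nat_lit 29989561105, nat_lit 30994929405, nat_lit 38142019625, nat_lit 39353075260, nat_lit 29438159273, nat_lit 29972094025, nat_lit 35317637433, nat_lit 36002838849], nat_lit 1271250, nat_lit 1271250, nat_lit 1271250, nat_lit 1271250, nat_lit 0, nat_lit 2373000, [nat_lit 780000, nat_lit 1435000, nat_lit 1271250], [nat_lit 23, nat_lit 40, nat_lit 40, nat_lit 80, nat_lit 12, nat_lit 538, nat_lit 300, nat_lit 13]⟩, ⟨p074_k3, nat_lit 0, nat_lit 0, nat_lit 86, nat_lit 0, nat_lit 0, [nat_lit 3282000000, nat_lit 6250000000, nat_lit 11872000000], [], [nat_lit 19384041920,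 nat_lit 20900199592, nat_lit 30755070816, nat_lit 31641121984, nat_lit 27288497581, nat_lit 28249097729, nat_lit 35476504509, nat_lit 36165264644], nat_lit 0, nat_lit 0, nat_lit 0, nat_lit 0, nat_lit 0, nat_lit 0, [], [nat_lit 23, nat_lit 40, nat_lit 40, nat_lit 80, nat_lit 12, nat_lit 538, nat_lit 300, nat_lit 13]⟩,
 zbF0, [⟨nat_lit 4, nat_lit 94, nat_lit 100, nat_lit 97, nat_lit 143854553⟩, ⟨nat_lit 19, nat_lit 100, nat_lit 94, nat_lit 97, nat_lit 367976516⟩]⟩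
noncomputable def p074_l106 : Lf2 := ⟨nat_lit 0, nat_lit 20, [nat_lit 5, nat_lit 5, nat_lit 5, nat_lit 20], false, nat_lit 0, nat_lit 320, nat_lit 160, nat_lit 336, ⟨nat_lit 1000, nat_lit 0, nat_lit 0, nat_lit 0, nat_lit 0, nat_lit 0, nat_lit 0, nat_lit 0, nat_lit 0, nat_lit 0, nat_lit 0, nat_lit 0, nat_lit 0, nat_lit 0, nat_lit 0, nat_lit 0, false, false⟩,
 nat_lit 0, nat_lit 8404, nat_lit 0, nat_lit 1995, nat_lit 5818, nat_lit 5578, nat_lit 1162, nat_lit 0, nat_lit 0, nat_lit 0, nat_lit 0, nat_lit 0, nat_lit 0, nat_lit 0, nat_lit 0, nat_lit 0, nat_lit 0, nat_lit 0, [],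
 ⟨p074_k10, nat_lit 0, nat_lit 0, nat_lit 430, nat_lit 0, nat_lit 503741, [nat_lit 3282000000, nat_lit 4688000000, nat_lit 9842000000], [], [nat_lit 28570438336, nat_lit 29319495716, nat_lit 36396828148, nat_lit 37551272408, nat_lit 27737838914, nat_lit 28171764410, nat_lit 33934175608, nat_lit 34628376016], nat_lit 1271250, nat_lit 1271250, nat_lit 1271250, nat_lit 1271250, nat_lit 0, nat_lit 2260000, [nat_lit 780000, nat_lit 1100000, nat_lit 2127500], [nat_lit 42, nat_lit 40, nat_lit 40, nat_lit 80, nat_lit 13, nat_lit 428, nat_lit 200, nat_lit 12]⟩, ⟨p074_k11, nat_lit 0, nat_lit 0, nat_lit 78, nat_lit 0, nat_lit 0, [nat_lit 3282000000, nat_lit 4688000000, nat_lit 11872000000], [], [nat_lit 19188442624, nat_lit 21743245984, nat_lit 29157837032, nat_lit 30905622032, nat_lit 26259047783, nat_lit 28131421895, nat_lit 33738451266, nat_lit 35038104652], nat_lit 0, nat_lit 0, nat_lit 0, nat_lit 0, nat_lit 0, nat_lit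 0, [], [nat_lit 158, nat_lit 40, nat_lit 40, nat_lit 80, nat_lit 65, nat_lit 538, nat_lit 300, nat_lit 13]⟩,
 zbF0, [⟨nat_lit 4, nat_lit 100, nat_lit 93, nat_lit 97, nat_lit 155003507⟩, ⟨nat_lit 7, nat_lit 100, nat_lit 100, nat_lit 100, nat_lit 345799614⟩]⟩
noncomputable def b_V_700_700_20_70 : St := ⟨true, nat_lit 1, nat_lit 0, nat_lit 2, nat_lit 120, nat_lit 280, nat_lit 320, nat_lit 280, nat_lit 320, nat_lit 64, nat_lit 400, nat_lit 80, nat_lit 120, nat_lit 0, nat_lit 336, nat_lit 0, nat_lit 336, nat_lit 40, nat_lit 80, nat_lit 0, nat_lit 0, nat_lit 0, nat_lit 0⟩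
theorem d_V_700_700_20_70 (h : EB TB.env) : Dead b_V_700_700_20_70 := chkB_sound0 h (T :=
(.spl (nat_lit 2) (nat_lit 120)
(.spl (nat_lit 0) (nat_lit 300)
(.ord (.spl (nat_lit 6) (nat_lit 56)
(.spl (nat_lit 4) (nat_lit 160)
(.leaf p074_l89)
(.leaf p074_l90))
(.leaf p074_l91)))
(.trZ (nat_lit 0) (nat_lit 100) (nat_lit 94) (nat_lit 88) (nat_lit 80) (.trX (nat_lit 16) (nat_lit 94) (nat_lit 88) (nat_lit 100) (nat_lit 320) (.spl (nat_lit 4) (nat_lit 160)
(.leaf p074_l92)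
(.spl (nat_lit 0) (nat_lit 310)
(.ord (.leaf p074_l93))
(.trZ (nat_lit 0) (nat_lit 100) (nat_lit 91) (nat_lit 91) (nat_lit 88) (.trX (nat_lit 16) (nat_lit 91) (nat_lit 91) (nat_lit 100) (nat_lit 312) (.leaf p074_l94))))))))
(.spl (nat_lit 2) (nat_lit 240)
(.spl (nat_lit 4) (nat_lit 160)
(.spl (nat_lit 5) (nat_lit 160)
(.leaf p074_l95)
(.spl (nat_lit 0) (nat_lit 300)
(.ord (.leaf p074_l96))
(.leaf p074_l97)))
(.spl (nat_lit 1) (nat_lit 300)
(.spl (nat_lit 5) (nat_lit 160)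
(.leaf p074_l98)
(.spl (nat_lit 0) (nat_lit 300)
(.leaf p074_l99)
(.trX (nat_lit 16) (nat_lit 94) (nat_lit 88) (nat_lit 100) (nat_lit 320) (.leaf p074_l100))))
(.ord (.trX (nat_lit 16) (nat_lit 94) (nat_lit 88) (nat_lit 100) (nat_lit 320) (.trX (nat_lit 19) (nat_lit 94) (nat_lit 88) (nat_lit 100) (nat_lit 320) (.spl (nat_lit 5) (nat_lit 160)
(.leaf p074_l101)
(.leaf p074_l102)))))))
(.spl (nat_lit 5) (nat_lit 160)
(.spl (nat_lit 0) (nat_lit 300)
(.ord (.leaf p074_l103))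
(.trX (nat_lit 16) (nat_lit 94) (nat_lit 88) (nat_lit 100) (nat_lit 320) (.leaf p074_l104)))
(.spl (nat_lit 0) (nat_lit 300)
(.ord (.leaf p074_l105))
(.trX (nat_lit 16) (nat_lit 94) (nat_lit 88) (nat_lit 100) (nat_lit 320) (.leaf p074_l106))))))) (by decide +kernel)
noncomputable def p074_l107 : Lf2 := ⟨nat_lit 0, nat_lit 14, [nat_lit 119, nat_lit 5, nat_lit 5, nat_lit 20], false, nat_lit 0, nat_lit 336, nat_lit 0, nat_lit 336, ⟨nat_lit 0, nat_lit 1000, nat_lit 0, nat_lit 7, nat_lit 159, nat_lit 1000, nat_lit 128, nat_lit 0, nat_lit 0, nat_lit 0, nat_lit 0, nat_lit 0, nat_lit 0, nat_lit 0, nat_lit 0, nat_lit 5000000, false, false⟩,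
 nat_lit 8370, nat_lit 0, nat_lit 0, nat_lit 660, nat_lit 5326, nat_lit 0, nat_lit 487, nat_lit 0, nat_lit 0, nat_lit 0, nat_lit 0, nat_lit 0, nat_lit 0, nat_lit 23279874373906, nat_lit 0, nat_lit 250000, nat_lit 0, nat_lit 0, [(nat_lit 13, [(nat_lit 0, nat_lit 1000)])],
 ⟨p074_k0, nat_lit 0, nat_lit 0, nat_lit 287, nat_lit 0, nat_lit 93786, [nat_lit 2378400000, nat_lit 2909733334, nat_lit 3539066666], [], [nat_lit 19418356906, nat_lit 21112464912, nat_lit 18765495541, nat_lit 20356889177, nat_lit 24382543480, nat_lit 25321734425, nat_lit 23513784601, nat_lit 24398212662], nat_lit 1271250, nat_lit 1271250, nat_lit 382400, nat_lit 780000, nat_lit 0, nat_lit 2373000, [nat_lit 780000, nat_lit 1435000, nat_lit 1271250], [nat_lit 8, nat_lit 40, nat_lit 40, nat_lit 80, nat_lit 1, nat_lit 345, nat_lit 125, nat_lit 10]⟩, ⟨p074_k0, nat_lit 0, nat_lit 0, nat_lit 287, nat_lit 0, nat_lit 93786, [nat_lit 0, nat_lit 0, nat_lit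 0], [], [nat_lit 0, nat_lit 0, nat_lit 0, nat_lit 0, nat_lit 0, nat_lit 0, nat_lit 0, nat_lit 0], nat_lit 1271250, nat_lit 1271250, nat_lit 382400, nat_lit 780000, nat_lit 0, nat_lit 2373000, [nat_lit 780000, nat_lit 1435000, nat_lit 1271250], [nat_lit 8, nat_lit 40, nat_lit 40, nat_lit 80, nat_lit 1, nat_lit 345, nat_lit 125, nat_lit 10]⟩,
 ⟨nat_lit 5000, nat_lit 5478, ⟨.ofNat (nat_lit 330654), .ofNat (nat_lit 435548), .ofNat (nat_lit 352005), .ofNat (nat_lit 456895), .ofNat (nat_lit 342856), .ofNat (nat_lit 442843), .ofNat (nat_lit 364277), .ofNat (nat_lit 464262)⟩, ⟨.negSucc (nat_lit 2832), .ofNat (nat_lit 626629), .ofNat (nat_lit 0), .ofNat (nat_lit 669336), .ofNat (nat_lit 0), .ofNat (nat_lit 614284), .ofNat (nat_lit 0), .ofNat (nat_lit 657134)⟩⟩, [⟨nat_lit 0, nat_lit 100, nat_lit 100, nat_lit 100, nat_lit 72604753⟩, ⟨nat_lit 4, nat_lit 94, nat_lit 100, nat_lit 97, nat_lit 120227341⟩]⟩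
noncomputable def p074_l108 : Lf2 := ⟨nat_lit 1, nat_lit 20, [nat_lit 5, nat_lit 5, nat_lit 5, nat_lit 20], false, nat_lit 0, nat_lit 336, nat_lit 0, nat_lit 336, zbN0,
 nat_lit 0, nat_lit 0, nat_lit 0, nat_lit 0, nat_lit 0, nat_lit 0, nat_lit 0, nat_lit 0, nat_lit 0, nat_lit 0, nat_lit 0, nat_lit 0, nat_lit 0, nat_lit 0, nat_lit 0, nat_lit 0, nat_lit 0, nat_lit 0, [],
 C1.Rw.none, C1.Rw.none,
 zbF0, []⟩
noncomputable def p074_l109 : Lf2 := ⟨nat_lit 0, nat_lit 20, [nat_lit 5, nat_lit 5, nat_lit 5, nat_lit 20], false, nat_lit 0, nat_lit 320, nat_lit 0, nat_lit 336, ⟨nat_lit 0, nat_lit 1000, nat_lit 0, nat_lit 7, nat_lit 170, nat_lit 1000, nat_lit 121, nat_lit 0, nat_lit 0, nat_lit 0, nat_lit 0, nat_lit 0, nat_lit 0, nat_lit 0, nat_lit 0, nat_lit 5000000, false, false⟩,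
 nat_lit 0, nat_lit 9289, nat_lit 0, nat_lit 0, nat_lit 6430, nat_lit 0, nat_lit 0, nat_lit 0, nat_lit 0, nat_lit 0, nat_lit 0, nat_lit 0, nat_lit 0, nat_lit 27285319439345, nat_lit 0, nat_lit 514600, nat_lit 0, nat_lit 0, [(nat_lit 16, [(nat_lit 1, nat_lit 809), (nat_lit 2, nat_lit 191)])],
 ⟨p074_k2, nat_lit 0, nat_lit 0, nat_lit 314, nat_lit 0, nat_lit 187730, [nat_lit 2039032601, nat_lit 2139408534, nat_lit 1359085866], [], [nat_lit 23928947048, nat_lit 23079095896, nat_lit 21640151846, nat_lit 22527859336, nat_lit 24571939386, nat_lit 25109266540, nat_lit 25818121289, nat_lit 24399193899], nat_lit 1271250, nat_lit 1271250, nat_lit 490000, nat_lit 780000, nat_lit 0, nat_lit 2260000, [nat_lit 780000, nat_lit 1435000, nat_lit 1271250], [nat_lit 8, nat_lit 40, nat_lit 40, nat_lit 80, nat_lit 1, nat_lit 345, nat_lit 125, nat_lit 10]⟩, ⟨p074_k3, nat_lit 0, nat_lit 0, nat_lit 382, nat_lit 0, nat_lit 209314, [nat_lit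 0, nat_lit 0, nat_lit 0], [], [nat_lit 0, nat_lit 0, nat_lit 0, nat_lit 0, nat_lit 0, nat_lit 0, nat_lit 0, nat_lit 0], nat_lit 1271250, nat_lit 1271250, nat_lit 490000, nat_lit 780000, nat_lit 0, nat_lit 2373000, [nat_lit 780000, nat_lit 1435000, nat_lit 1271250], [nat_lit 23, nat_lit 40, nat_lit 40, nat_lit 80, nat_lit 12, nat_lit 428, nat_lit 200, nat_lit 11]⟩,
 ⟨nat_lit 4743, nat_lit 5000, ⟨.ofNat (nat_lit 371422), .ofNat (nat_lit 442849), .ofNat (nat_lit 403560), .ofNat (nat_lit 474987), .ofNat (nat_lit 376847), .ofNat (nat_lit 446544), .ofNat (nat_lit 409074), .ofNat (nat_lit 478772)⟩, ⟨.ofNat (nat_lit 0), .ofNat (nat_lit 585713), .ofNat (nat_lit 0), .ofNat (nat_lit 628570), .ofNat (nat_lit 0), .ofNat (nat_lit 580169), .ofNat (nat_lit 0), .ofNat (nat_lit 623145)⟩⟩, [⟨nat_lit 0, nat_lit 91, nat_lit 91, nat_lit 100, nat_lit 166513240⟩, ⟨nat_lit 4, nat_lit 100, nat_lit 97, nat_lit 98, nat_lit 98863009⟩]⟩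
noncomputable def p074_l110 : Lf2 := ⟨nat_lit 0, nat_lit 20, [nat_lit 5, nat_lit 5, nat_lit 5, nat_lit 20], false, nat_lit 0, nat_lit 312, nat_lit 0, nat_lit 336, ⟨nat_lit 0, nat_lit 1000, nat_lit 0, nat_lit 7, nat_lit 177, nat_lit 1000, nat_lit 117, nat_lit 0, nat_lit 0, nat_lit 0, nat_lit 0, nat_lit 0, nat_lit 0, nat_lit 0, nat_lit 0, nat_lit 5000000, false, false⟩,
 nat_lit 0, nat_lit 8932, nat_lit 0, nat_lit 0, nat_lit 6439, nat_lit 0, nat_lit 204, nat_lit 0, nat_lit 0, nat_lit 0, nat_lit 0, nat_lit 0, nat_lit 0, nat_lit 0, nat_lit 0, nat_lit 309250, nat_lit 0, nat_lit 0, [(nat_lit 16, [(nat_lit 0, nat_lit 605), (nat_lit 1, nat_lit 395)])],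
 ⟨p074_k5, nat_lit 0, nat_lit 0, nat_lit 345, nat_lit 0, nat_lit 277925, [nat_lit 2210775000, nat_lit 2608800000, nat_lit 2944468000], [], [nat_lit 22762283882, nat_lit 23687592608, nat_lit 22319715731, nat_lit 23208173308, nat_lit 24348289387, nat_lit 25182239925, nat_lit 23800654949, nat_lit 24601509486], nat_lit 1271250, nat_lit 1271250, nat_lit 545600, nat_lit 780000, nat_lit 0, nat_lit 2203500, [nat_lit 780000, nat_lit 1435000, nat_lit 1271250], [nat_lit 8, nat_lit 40, nat_lit 40, nat_lit 80, nat_lit 1, nat_lit 345, nat_lit 125, nat_lit 10]⟩, ⟨p074_k3, nat_lit 0, nat_lit 0, nat_lit 418, nat_lit 0, nat_lit 326332, [nat_lit 0, nat_lit 0, nat_lit 0], [], [nat_lit 0, nat_lit 0, nat_lit 0, nat_lit 0, nat_lit 0, nat_lit 0, nat_lit 0, nat_lit 0], nat_lit 1271250, nat_lit 1271250, nat_lit 545600, nat_lit 780000, nat_lit 0, nat_lit 2373000, [nat_lit 780000, nat_lit 1435000, nat_lit 1271250], [nat_lit 23, nat_lit 40,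 nat_lit 40, nat_lit 80, nat_lit 12, nat_lit 428, nat_lit 200, nat_lit 11]⟩,
 ⟨nat_lit 4472, nat_lit 4744, ⟨.ofNat (nat_lit 390781), .ofNat (nat_lit 446540), .ofNat (nat_lit 433750), .ofNat (nat_lit 489510), .ofNat (nat_lit 395915), .ofNat (nat_lit 450297), .ofNat (nat_lit 439041), .ofNat (nat_lit 493423)⟩, ⟨.ofNat (nat_lit 0), .ofNat (nat_lit 566229), .ofNat (nat_lit 0), .ofNat (nat_lit 609205), .ofNat (nat_lit 0), .ofNat (nat_lit 560938), .ofNat (nat_lit 0), .ofNat (nat_lit 604071)⟩⟩, [⟨nat_lit 0, nat_lit 95, nat_lit 90, nat_lit 100, nat_lit 1028925365⟩, ⟨nat_lit 4, nat_lit 100, nat_lit 90, nat_lit 95, nat_lit 92100537⟩]⟩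
noncomputable def p074_l111 : Lf2 := ⟨nat_lit 0, nat_lit 20, [nat_lit 5, nat_lit 5, nat_lit 5, nat_lit 20], false, nat_lit 0, nat_lit 160, nat_lit 0, nat_lit 336, ⟨nat_lit 0, nat_lit 1000, nat_lit 0, nat_lit 7, nat_lit 229, nat_lit 898, nat_lit 64, nat_lit 0, nat_lit 0, nat_lit 0, nat_lit 0, nat_lit 0, nat_lit 0, nat_lit 0, nat_lit 0, nat_lit 5000000, false, false⟩,
 nat_lit 7031, nat_lit 0, nat_lit 0, nat_lit 743, nat_lit 4474, nat_lit 0, nat_lit 0, nat_lit 0, nat_lit 0, nat_lit 0, nat_lit 0, nat_lit 0, nat_lit 0, nat_lit 28933399736087, nat_lit 3, nat_lit 706000, nat_lit 0, nat_lit 0, [(nat_lit 13, [(nat_lit 1, nat_lit 490), (nat_lit 2, nat_lit 510)]), (nat_lit 16, [(nat_lit 1, nat_lit 490), (nat_lit 2, nat_lit 510)])],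
 ⟨p074_k3, nat_lit 0, nat_lit 0, nat_lit 403, nat_lit 0, nat_lit 326332, [nat_lit 2239814667, nat_lit 2480806001, nat_lit 26720000], [], [nat_lit 31442292828, nat_lit 26711145204, nat_lit 24712056423, nat_lit 26087107567, nat_lit 21696324583, nat_lit 23117135407, nat_lit 25402660991, nat_lit 24416166167], nat_lit 1271250, nat_lit 1271250, nat_lit 780000, nat_lit 1762500, nat_lit 0, nat_lit 1100001, [nat_lit 780000, nat_lit 1435000, nat_lit 1271250], [nat_lit 23, nat_lit 40, nat_lit 40, nat_lit 80, nat_lit 12, nat_lit 428, nat_lit 200, nat_lit 11]⟩, ⟨p074_k3, nat_lit 0, nat_lit 0, nat_lit 403, nat_lit 0, nat_lit 326332, [nat_lit 0, nat_lit 0, nat_lit 0], [], [nat_lit 0, nat_lit 0, nat_lit 0, nat_lit 0, nat_lit 0, nat_lit 0, nat_lit 0, nat_lit 0], nat_lit 1271250, nat_lit 1271250, nat_lit 780000, nat_lit 1762500, nat_lit 0, nat_lit 2373000, [nat_lit 780000, nat_lit 1435000, nat_lit 1271250], [nat_lit 23, nat_lit 40,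 nat_lit 40, nat_lit 80, nat_lit 12, nat_lit 456, nat_lit 225, nat_lit 12]⟩,
 ⟨nat_lit 4472, nat_lit 5478, ⟨.ofNat (nat_lit 435455), .ofNat (nat_lit 660148), .ofNat (nat_lit 478080), .ofNat (nat_lit 702774), .ofNat (nat_lit 450202), .ofNat (nat_lit 654031), .ofNat (nat_lit 493246), .ofNat (nat_lit 697075)⟩, ⟨.negSucc (nat_lit 2834), .ofNat (nat_lit 296923), .ofNat (nat_lit 0), .ofNat (nat_lit 339637), .ofNat (nat_lit 0), .ofNat (nat_lit 302621), .ofNat (nat_lit 0), .ofNat (nat_lit 345754)⟩⟩, []⟩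
noncomputable def p074_l112 : Lf2 := ⟨nat_lit 0, nat_lit 20, [nat_lit 5, nat_lit 5, nat_lit 5, nat_lit 20], false, nat_lit 160, nat_lit 336, nat_lit 0, nat_lit 336, ⟨nat_lit 72, nat_lit 928, nat_lit 0, nat_lit 7, nat_lit 224, nat_lit 928, nat_lit 191, nat_lit 0, nat_lit 0, nat_lit 0, nat_lit 0, nat_lit 0, nat_lit 0, nat_lit 0, nat_lit 0, nat_lit 5000000, false, false⟩,
 nat_lit 8903, nat_lit 0, nat_lit 0, nat_lit 583, nat_lit 5665, nat_lit 1122, nat_lit 240, nat_lit 0, nat_lit 0, nat_lit 0, nat_lit 0, nat_lit 0, nat_lit 0, nat_lit 0, nat_lit 0, nat_lit 371200, nat_lit 0, nat_lit 0, [(nat_lit 13, [(nat_lit 1, nat_lit 928)]), (nat_lit 16, [(nat_lit 1, nat_lit 928)])],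
 ⟨p074_k3, nat_lit 0, nat_lit 0, nat_lit 212, nat_lit 0, nat_lit 214339, [nat_lit 2154541867, nat_lit 3117443200, nat_lit 3084953600], [], [nat_lit 18988087100, nat_lit 21460903280, nat_lit 21500045347, nat_lit 23252358120, nat_lit 25533209932, nat_lit 27148377525, nat_lit 26364584020, nat_lit 27660892377], nat_lit 1271250, nat_lit 1271250, nat_lit 780000, nat_lit 1762500, nat_lit 1271250, nat_lit 1271250, [nat_lit 780000, nat_lit 1435000, nat_lit 1271250], [nat_lit 23, nat_lit 40, nat_lit 40, nat_lit 80, nat_lit 12, nat_lit 456, nat_lit 225, nat_lit 11]⟩, ⟨p074_k3, nat_lit 0, nat_lit 0, nat_lit 363, nat_lit 0, nat_lit 214339, [nat_lit 236304000, nat_lit 450000000, nat_lit 854784000], [], [nat_lit 3836053344, nat_lit 3242809308, nat_lit 2884488672, nat_lit 3038474400, nat_lit 2407495378, nat_lit 2501948986, nat_lit 2843876650, nat_lit 2351125666], nat_lit 1271250, nat_lit 1271250, nat_lit 780000, nat_lit 1762500,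 nat_lit 0, nat_lit 2373000, [nat_lit 780000, nat_lit 1435000, nat_lit 1271250], [nat_lit 23, nat_lit 40, nat_lit 40, nat_lit 80, nat_lit 12, nat_lit 456, nat_lit 225, nat_lit 12]⟩,
 ⟨nat_lit 4472, nat_lit 5478, ⟨.ofNat (nat_lit 435455), .ofNat (nat_lit 660148), .ofNat (nat_lit 456767), .ofNat (nat_lit 681461), .ofNat (nat_lit 450202), .ofNat (nat_lit 654031), .ofNat (nat_lit 471724), .ofNat (nat_lit 675553)⟩, ⟨.ofNat (nat_lit 296923), .ofNat (nat_lit 626629), .ofNat (nat_lit 339637), .ofNat (nat_lit 669343), .ofNat (nat_lit 302621), .ofNat (nat_lit 601725), .ofNat (nat_lit 345754), .ofNat (nat_lit 644858)⟩⟩, [⟨nat_lit 4, nat_lit 100, nat_lit 100, nat_lit 100, nat_lit 227057658⟩, ⟨nat_lit 7, nat_lit 94, nat_lit 100, nat_lit 97, nat_lit 3431125⟩]⟩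
noncomputable def p074_l113 : Lf2 := ⟨nat_lit 0, nat_lit 20, [nat_lit 5, nat_lit 5, nat_lit 5, nat_lit 20], false, nat_lit 160, nat_lit 320, nat_lit 0, nat_lit 320, ⟨nat_lit 203, nat_lit 797, nat_lit 0, nat_lit 7, nat_lit 231, nat_lit 797, nat_lit 185, nat_lit 0, nat_lit 0, nat_lit 0, nat_lit 0, nat_lit 0, nat_lit 0, nat_lit 0, nat_lit 0, nat_lit 5000000, false, false⟩,
 nat_lit 10973, nat_lit 0, nat_lit 0, nat_lit 0, nat_lit 7596, nat_lit 2840, nat_lit 140, nat_lit 0, nat_lit 0, nat_lit 0, nat_lit 0, nat_lit 0, nat_lit 0, nat_lit 19100865400377, nat_lit 0, nat_lit 318800, nat_lit 0, nat_lit 0, [(nat_lit 16, [(nat_lit 1, nat_lit 797)])],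
 ⟨p074_k2, nat_lit 0, nat_lit 0, nat_lit 167, nat_lit 0, nat_lit 187730, [nat_lit 2276345401, nat_lit 3180806134, nat_lit 3756107466], [], [nat_lit 17917198338, nat_lit 18741047002, nat_lit 20360559706, nat_lit 21007206294, nat_lit 24622833602, nat_lit 25200235332, nat_lit 28045287283, nat_lit 27044898608], nat_lit 1271250, nat_lit 1271250, nat_lit 780000, nat_lit 1762500, nat_lit 1100001, nat_lit 2470000, [nat_lit 780000, nat_lit 1435000, nat_lit 1271250], [nat_lit 8, nat_lit 40, nat_lit 40, nat_lit 80, nat_lit 1, nat_lit 373, nat_lit 150, nat_lit 10]⟩, ⟨p074_k2, nat_lit 0, nat_lit 0, nat_lit 295, nat_lit 0, nat_lit 187730, [nat_lit 666246000, nat_lit 1268750000, nat_lit 1997926000], [], [nat_lit 8821088116, nat_lit 8070280156, nat_lit 7123561728, nat_lit 7357812396, nat_lit 5849191692, nat_lit 6011233218, nat_lit 6472711996, nat_lit 6197593262], nat_lit 1271250, nat_lit 1271250, nat_lit 780000, nat_lit 1762500,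 nat_lit 0, nat_lit 2260000, [nat_lit 780000, nat_lit 1435000, nat_lit 1271250], [nat_lit 8, nat_lit 40, nat_lit 40, nat_lit 80, nat_lit 1, nat_lit 373, nat_lit 150, nat_lit 11]⟩,
 ⟨nat_lit 4743, nat_lit 5000, ⟨.ofNat (nat_lit 464274), .ofNat (nat_lit 678555), .ofNat (nat_lit 474987), .ofNat (nat_lit 689267), .ofNat (nat_lit 468029), .ofNat (nat_lit 677124), .ofNat (nat_lit 478772), .ofNat (nat_lit 687866)⟩, ⟨.ofNat (nat_lit 299999), .ofNat (nat_lit 585713), .ofNat (nat_lit 342856), .ofNat (nat_lit 628570), .ofNat (nat_lit 301370), .ofNat (nat_lit 580169), .ofNat (nat_lit 344346), .ofNat (nat_lit 623145)⟩⟩, [⟨nat_lit 4, nat_lit 100, nat_lit 97, nat_lit 98, nat_lit 318136301⟩, ⟨nat_lit 7, nat_lit 100, nat_lit 97, nat_lit 98, nat_lit 5691278⟩]⟩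
noncomputable def p074_l114 : Lf2 := ⟨nat_lit 0, nat_lit 20, [nat_lit 5, nat_lit 5, nat_lit 5, nat_lit 20], false, nat_lit 160, nat_lit 312, nat_lit 0, nat_lit 320, ⟨nat_lit 204, nat_lit 796, nat_lit 0, nat_lit 7, nat_lit 234, nat_lit 796, nat_lit 182, nat_lit 0, nat_lit 0, nat_lit 0, nat_lit 0, nat_lit 0, nat_lit 0, nat_lit 0, nat_lit 0, nat_lit 5000000, false, false⟩,
 nat_lit 3617, nat_lit 4649, nat_lit 0, nat_lit 0, nat_lit 5958, nat_lit 2504, nat_lit 435, nat_lit 0, nat_lit 0, nat_lit 0, nat_lit 0, nat_lit 0, nat_lit 0, nat_lit 13267241801950, nat_lit 0, nat_lit 199000, nat_lit 0, nat_lit 0, [(nat_lit 16, [(nat_lit 0, nat_lit 796)])],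
 ⟨p074_k5, nat_lit 0, nat_lit 0, nat_lit 199, nat_lit 0, nat_lit 277925, [nat_lit 2528347200, nat_lit 3460603734, nat_lit 4701113600], [], [nat_lit 18165128303, nat_lit 18880158075, nat_lit 20563184269, nat_lit 21132758043, nat_lit 23743019671, nat_lit 24260044315, nat_lit 26757784262, nat_lit 26306753843], nat_lit 1271250, nat_lit 1271250, nat_lit 780000, nat_lit 1762500, nat_lit 1100001, nat_lit 2401500, [nat_lit 780000, nat_lit 1435000, nat_lit 1271250], [nat_lit 8, nat_lit 40, nat_lit 40, nat_lit 80, nat_lit 1, nat_lit 373, nat_lit 150, nat_lit 10]⟩, ⟨p074_k2, nat_lit 0, nat_lit 0, nat_lit 336, nat_lit 0, nat_lit 292681, [nat_lit 669528000, nat_lit 1275000000, nat_lit 2007768000], [], [nat_lit 8516265856, nat_lit 7192305904, nat_lit 7061498000, nat_lit 7490401504, nat_lit 6042985200, nat_lit 6333741424, nat_lit 6788532384, nat_lit 6222271296], nat_lit 1271250, nat_lit 1271250, nat_lit 780000, nat_lit 1762500,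 nat_lit 0, nat_lit 2260000, [nat_lit 780000, nat_lit 1435000, nat_lit 1271250], [nat_lit 8, nat_lit 40, nat_lit 40, nat_lit 80, nat_lit 1, nat_lit 373, nat_lit 150, nat_lit 11]⟩,
 ⟨nat_lit 4472, nat_lit 4744, ⟨.ofNat (nat_lit 468025), .ofNat (nat_lit 677123), .ofNat (nat_lit 489510), .ofNat (nat_lit 698608), .ofNat (nat_lit 471860), .ofNat (nat_lit 675793), .ofNat (nat_lit 493423), .ofNat (nat_lit 697356)⟩, ⟨.ofNat (nat_lit 301370), .ofNat (nat_lit 566229), .ofNat (nat_lit 344346), .ofNat (nat_lit 609205), .ofNat (nat_lit 302621), .ofNat (nat_lit 560938), .ofNat (nat_lit 345754), .ofNat (nat_lit 604071)⟩⟩, [⟨nat_lit 16, nat_lit 91, nat_lit 91, nat_lit 100, nat_lit 314317755⟩, ⟨nat_lit 7, nat_lit 100, nat_lit 93, nat_lit 97, nat_lit 20002612⟩]⟩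
noncomputable def p074_l115 : Lf2 := ⟨nat_lit 0, nat_lit 20, [nat_lit 5, nat_lit 5, nat_lit 5, nat_lit 20], false, nat_lit 0, nat_lit 336, nat_lit 0, nat_lit 336, ⟨nat_lit 1000, nat_lit 0, nat_lit 0, nat_lit 0, nat_lit 0, nat_lit 0, nat_lit 0, nat_lit 0, nat_lit 0, nat_lit 0, nat_lit 0, nat_lit 0, nat_lit 0, nat_lit 0, nat_lit 0, nat_lit 0, false, false⟩,
 nat_lit 11860, nat_lit 0, nat_lit 0, nat_lit 9524, nat_lit 7547, nat_lit 7547, nat_lit 800, nat_lit 0, nat_lit 0, nat_lit 702, nat_lit 0, nat_lit 0, nat_lit 0, nat_lit 0, nat_lit 0, nat_lit 0, nat_lit 0, nat_lit 0, [],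
 ⟨p074_k3, nat_lit 0, nat_lit 0, nat_lit 297, nat_lit 0, nat_lit 91598, [nat_lit 3282000000, nat_lit 6250000000, nat_lit 11872000000], [], [nat_lit 29997780916, nat_lit 31046165826, nat_lit 39766512952, nat_lit 41077552742, nat_lit 28794540042, nat_lit 29332311080, nat_lit 36072848835, nat_lit 36774967442], nat_lit 1271250, nat_lit 1271250, nat_lit 1271250, nat_lit 1271250, nat_lit 0, nat_lit 2373000, [nat_lit 780000, nat_lit 1435000, nat_lit 1271250], [nat_lit 23, nat_lit 40, nat_lit 40, nat_lit 80, nat_lit 12, nat_lit 538, nat_lit 300, nat_lit 13]⟩, ⟨p074_k3, nat_lit 0, nat_lit 0, nat_lit 297, nat_lit 0, nat_lit 91598, [nat_lit 3282000000, nat_lit 6250000000, nat_lit 11872000000], [], [nat_lit 30937662166, nat_lit 31986047076, nat_lit 40326902050, nat_lit 41077552742, nat_lit 29734421292, nat_lit 30272192330, nat_lit 36072848835, nat_lit 36774967442], nat_lit 1271250, nat_lit 1271250, nat_lit 1271250, nat_lit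 1271250, nat_lit 0, nat_lit 2373000, [nat_lit 780000, nat_lit 1435000, nat_lit 1271250], [nat_lit 23, nat_lit 40, nat_lit 40, nat_lit 80, nat_lit 12, nat_lit 538, nat_lit 300, nat_lit 13]⟩,
 zbF0, [⟨nat_lit 4, nat_lit 94, nat_lit 100, nat_lit 97, nat_lit 129239314⟩, ⟨nat_lit 7, nat_lit 94, nat_lit 100, nat_lit 97, nat_lit 129239314⟩]⟩
noncomputable def p074_l116 : Lf2 := ⟨nat_lit 0, nat_lit 20, [nat_lit 5, nat_lit 5, nat_lit 5, nat_lit 20], false, nat_lit 0, nat_lit 320, nat_lit 0, nat_lit 336, ⟨nat_lit 1000, nat_lit 0, nat_lit 0, nat_lit 0, nat_lit 0, nat_lit 0, nat_lit 0, nat_lit 0, nat_lit 0, nat_lit 0, nat_lit 0, nat_lit 0, nat_lit 0, nat_lit 0, nat_lit 0, nat_lit 0, false, false⟩,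
 nat_lit 11860, nat_lit 0, nat_lit 0, nat_lit 1031, nat_lit 8210, nat_lit 7547, nat_lit 183, nat_lit 0, nat_lit 0, nat_lit 826, nat_lit 0, nat_lit 0, nat_lit 0, nat_lit 0, nat_lit 0, nat_lit 0, nat_lit 0, nat_lit 0, [],
 ⟨p074_k2, nat_lit 0, nat_lit 0, nat_lit 307, nat_lit 0, nat_lit 192237, [nat_lit 3282000000, nat_lit 6250000000, nat_lit 9842000000], [], [nat_lit 32044310095, nat_lit 33639854630, nat_lit 43422985590, nat_lit 44313467750, nat_lit 30634440730, nat_lit 31517112190, nat_lit 37008310790, nat_lit 37476903550], nat_lit 1271250, nat_lit 1271250, nat_lit 1271250, nat_lit 1271250, nat_lit 0, nat_lit 2260000, [nat_lit 780000, nat_lit 1435000, nat_lit 1271250], [nat_lit 8, nat_lit 40, nat_lit 40, nat_lit 80, nat_lit 1, nat_lit 428, nat_lit 200, nat_lit 12]⟩, ⟨p074_k3, nat_lit 0, nat_lit 0, nat_lit 354, nat_lit 0, nat_lit 214339, [nat_lit 3282000000, nat_lit 6250000000, nat_lit 11872000000], [], [nat_lit 29748424666,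 nat_lit 30796809576, nat_lit 39766512952, nat_lit 41077552742, nat_lit 28545183792, nat_lit 29082954830, nat_lit 36072848835, nat_lit 36774967442], nat_lit 1271250, nat_lit 1271250, nat_lit 1271250, nat_lit 1271250, nat_lit 0, nat_lit 2373000, [nat_lit 780000, nat_lit 1435000, nat_lit 1271250], [nat_lit 23, nat_lit 40, nat_lit 40, nat_lit 80, nat_lit 12, nat_lit 538, nat_lit 300, nat_lit 13]⟩,
 zbF0, [⟨nat_lit 4, nat_lit 100, nat_lit 93, nat_lit 97, nat_lit 87190004⟩, ⟨nat_lit 7, nat_lit 94, nat_lit 100, nat_lit 97, nat_lit 129239314⟩]⟩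
noncomputable def p074_l117 : Lf2 := ⟨nat_lit 0, nat_lit 20, [nat_lit 5, nat_lit 5, nat_lit 5, nat_lit 20], false, nat_lit 0, nat_lit 320, nat_lit 0, nat_lit 320, ⟨nat_lit 1000, nat_lit 0, nat_lit 0, nat_lit 0, nat_lit 0, nat_lit 0, nat_lit 0, nat_lit 0, nat_lit 0, nat_lit 0, nat_lit 0, nat_lit 0, nat_lit 0, nat_lit 0, nat_lit 0, nat_lit 0, false, false⟩,
 nat_lit 10572, nat_lit 0, nat_lit 0, nat_lit 0, nat_lit 7318, nat_lit 7318, nat_lit 396, nat_lit 0, nat_lit 0, nat_lit 566, nat_lit 0, nat_lit 0, nat_lit 0, nat_lit 0, nat_lit 0, nat_lit 0, nat_lit 0, nat_lit 0, [],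
 ⟨p074_k2, nat_lit 0, nat_lit 0, nat_lit 338, nat_lit 0, nat_lit 292681, [nat_lit 3282000000, nat_lit 6250000000, nat_lit 9842000000], [], [nat_lit 30737664576, nat_lit 31907792804, nat_lit 40754901672, nat_lit 41747906408, nat_lit 29635646816, nat_lit 30411758752, nat_lit 35673124632, nat_lit 36413244016], nat_lit 1271250, nat_lit 1271250, nat_lit 1271250, nat_lit 1271250, nat_lit 0, nat_lit 2260000, [nat_lit 780000, nat_lit 1435000, nat_lit 1271250], [nat_lit 8, nat_lit 40, nat_lit 40, nat_lit 80, nat_lit 1, nat_lit 428, nat_lit 200, nat_lit 12]⟩, ⟨p074_k2, nat_lit 0, nat_lit 0, nat_lit 338, nat_lit 0, nat_lit 292681, [nat_lit 3282000000, nat_lit 6250000000, nat_lit 9842000000], [], [nat_lit 29055195826, nat_lit 30225324054, nat_lit 40457607148, nat_lit 41747906408, nat_lit 28211204984, nat_lit 29052821252, nat_lit 35671409608, nat_lit 36413244016], nat_lit 1271250, nat_lit 1271250, nat_lit 1271250, nat_lit 1271250,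 nat_lit 0, nat_lit 2260000, [nat_lit 780000, nat_lit 1435000, nat_lit 1271250], [nat_lit 8, nat_lit 40, nat_lit 40, nat_lit 80, nat_lit 1, nat_lit 428, nat_lit 200, nat_lit 12]⟩,
 zbF0, [⟨nat_lit 4, nat_lit 100, nat_lit 93, nat_lit 97, nat_lit 113210294⟩, ⟨nat_lit 7, nat_lit 100, nat_lit 93, nat_lit 97, nat_lit 113210294⟩]⟩
noncomputable def b_V_700_700_20_71 : St := ⟨true, nat_lit 1, nat_lit 1, nat_lit 2, nat_lit 120, nat_lit 280, nat_lit 320, nat_lit 280, nat_lit 320, nat_lit 64, nat_lit 400, nat_lit 80, nat_lit 120, nat_lit 0, nat_lit 336, nat_lit 0, nat_lit 336, nat_lit 40, nat_lit 80, nat_lit 0, nat_lit 0, nat_lit 0, nat_lit 0⟩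
theorem d_V_700_700_20_71 (h : EB TB.env) : Dead b_V_700_700_20_71 := chkB_sound0 h (T :=
(.spl (nat_lit 2) (nat_lit 120)
(.spl (nat_lit 0) (nat_lit 300)
(.ord (.spl (nat_lit 6) (nat_lit 56)
(.leaf p074_l107)
(.leaf p074_l108)))
(.trZ (nat_lit 0) (nat_lit 100) (nat_lit 94) (nat_lit 88) (nat_lit 80) (.trX (nat_lit 16) (nat_lit 94) (nat_lit 88) (nat_lit 100) (nat_lit 320) (.spl (nat_lit 0) (nat_lit 310)
(.ord (.leaf p074_l109))
(.trZ (nat_lit 0) (nat_lit 100) (nat_lit 91) (nat_lit 91) (nat_lit 88) (.trX (nat_lit 16) (nat_lit 91) (nat_lit 91) (nat_lit 100) (nat_lit 312) (.leaf p074_l110)))))))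
(.spl (nat_lit 2) (nat_lit 240)
(.spl (nat_lit 4) (nat_lit 160)
(.leaf p074_l111)
(.spl (nat_lit 1) (nat_lit 300)
(.leaf p074_l112)
(.ord (.trX (nat_lit 16) (nat_lit 94) (nat_lit 88) (nat_lit 100) (nat_lit 320) (.trX (nat_lit 19) (nat_lit 94) (nat_lit 88) (nat_lit 100) (nat_lit 320) (.spl (nat_lit 0) (nat_lit 310)
(.ord (.leaf p074_l113))
(.trX (nat_lit 16) (nat_lit 91) (nat_lit 91) (nat_lit 100) (nat_lit 312) (.leaf p074_l114))))))))
(.spl (nat_lit 0) (nat_lit 300)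
(.ord (.leaf p074_l115))
(.trX (nat_lit 16) (nat_lit 94) (nat_lit 88) (nat_lit 100) (nat_lit 320) (.spl (nat_lit 1) (nat_lit 300)
(.leaf p074_l116)
(.trX (nat_lit 19) (nat_lit 94) (nat_lit 88) (nat_lit 100) (nat_lit 320) (.leaf p074_l117)))))))) (by decide +kernel)
noncomputable def p074_l118 : Lf2 := ⟨nat_lit 1, nat_lit 26, [nat_lit 108, nat_lit 5, nat_lit 5, nat_lit 20], false, nat_lit 0, nat_lit 336, nat_lit 0, nat_lit 336, zbN0,
 nat_lit 0, nat_lit 0, nat_lit 0, nat_lit 0, nat_lit 0, nat_lit 0, nat_lit 0, nat_lit 0, nat_lit 0, nat_lit 0, nat_lit 0, nat_lit 0, nat_lit 0, nat_lit 0, nat_lit 0, nat_lit 0, nat_lit 0, nat_lit 0, [],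
 C1.Rw.none, C1.Rw.none,
 zbF0, []⟩
noncomputable def p074_l119 : Lf2 := ⟨nat_lit 0, nat_lit 26, [nat_lit 108, nat_lit 5, nat_lit 5, nat_lit 20], false, nat_lit 0, nat_lit 160, nat_lit 0, nat_lit 320, ⟨nat_lit 1000, nat_lit 0, nat_lit 0, nat_lit 0, nat_lit 0, nat_lit 0, nat_lit 0, nat_lit 0, nat_lit 0, nat_lit 0, nat_lit 0, nat_lit 0, nat_lit 0, nat_lit 0, nat_lit 0, nat_lit 0, false, false⟩,
 nat_lit 0, nat_lit 0, nat_lit 0, nat_lit 38864, nat_lit 6229, nat_lit 6242, nat_lit 1196, nat_lit 0, nat_lit 0, nat_lit 980, nat_lit 0, nat_lit 0, nat_lit 0, nat_lit 0, nat_lit 0, nat_lit 0, nat_lit 0, nat_lit 0, [],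
 ⟨p074_k38, nat_lit 0, nat_lit 0, nat_lit 230, nat_lit 0, nat_lit 0, [nat_lit 3282000000, nat_lit 6250000000, nat_lit 11872000000], [], [nat_lit 22479973525, nat_lit 24049413980, nat_lit 24365967532, nat_lit 25583443452, nat_lit 18029576608, nat_lit 19362099250, nat_lit 19766977318, nat_lit 20894293624], nat_lit 0, nat_lit 0, nat_lit 0, nat_lit 0, nat_lit 0, nat_lit 0, [], [nat_lit 23, nat_lit 40, nat_lit 40, nat_lit 80, nat_lit 12, nat_lit 428, nat_lit 200, nat_lit 11]⟩, ⟨p074_k38, nat_lit 0, nat_lit 0, nat_lit 230, nat_lit 0, nat_lit 0, [nat_lit 3282000000, nat_lit 6250000000, nat_lit 11872000000], [], [nat_lit 24872988950, nat_lit 26444293540, nat_lit 26755838036, nat_lit 27974594196, nat_lit 25924969904, nat_lit 26829678608, nat_lit 26216376036, nat_lit 26918627484], nat_lit 0, nat_lit 0, nat_lit 0, nat_lit 0, nat_lit 0, nat_lit 0, [], [nat_lit 23, nat_lit 40, nat_lit 40, nat_lit 80, nat_lit 12, nat_lit 456,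 nat_lit 225, nat_lit 12]⟩,
 zbF0, [⟨nat_lit 0, nat_lit 83, nat_lit 83, nat_lit 100, nat_lit 634513854⟩, ⟨nat_lit 19, nat_lit 93, nat_lit 100, nat_lit 97, nat_lit 187324794⟩]⟩
noncomputable def p074_l120 : Lf2 := ⟨nat_lit 0, nat_lit 26, [nat_lit 108, nat_lit 5, nat_lit 5, nat_lit 20], false, nat_lit 0, nat_lit 160, nat_lit 0, nat_lit 320, ⟨nat_lit 1000, nat_lit 0, nat_lit 0, nat_lit 0, nat_lit 0, nat_lit 0, nat_lit 0, nat_lit 0, nat_lit 0, nat_lit 0, nat_lit 0, nat_lit 0, nat_lit 0, nat_lit 0, nat_lit 0, nat_lit 0, false, false⟩,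
 nat_lit 0, nat_lit 0, nat_lit 0, nat_lit 17733, nat_lit 6409, nat_lit 10877, nat_lit 725, nat_lit 0, nat_lit 0, nat_lit 0, nat_lit 0, nat_lit 0, nat_lit 0, nat_lit 0, nat_lit 0, nat_lit 0, nat_lit 0, nat_lit 0, [],
 ⟨p074_k38, nat_lit 0, nat_lit 0, nat_lit 242, nat_lit 0, nat_lit 0, [nat_lit 3282000000, nat_lit 6250000000, nat_lit 11872000000], [], [nat_lit 30189794922, nat_lit 31161330692, nat_lit 38490723929, nat_lit 39204746204, nat_lit 26037564734, nat_lit 26854644284, nat_lit 32403019819, nat_lit 33021359697], nat_lit 0, nat_lit 0, nat_lit 0, nat_lit 0, nat_lit 0, nat_lit 0, [], [nat_lit 23, nat_lit 40, nat_lit 40, nat_lit 80, nat_lit 12, nat_lit 456, nat_lit 225, nat_lit 11]⟩, ⟨p074_k38, nat_lit 0, nat_lit 0, nat_lit 242, nat_lit 0, nat_lit 0, [nat_lit 3282000000, nat_lit 6250000000, nat_lit 11872000000], [], [nat_lit 39867595616, nat_lit 41542806576, nat_lit 51665286812, nat_lit 52520140824, nat_lit 34085948616,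 nat_lit 34947848004, nat_lit 40265015670, nat_lit 40649527680], nat_lit 0, nat_lit 0, nat_lit 0, nat_lit 0, nat_lit 0, nat_lit 0, [], [nat_lit 23, nat_lit 40, nat_lit 40, nat_lit 80, nat_lit 12, nat_lit 538, nat_lit 300, nat_lit 13]⟩,
 zbF0, []⟩
noncomputable def p074_l121 : Lf2 := ⟨nat_lit 0, nat_lit 26, [nat_lit 108, nat_lit 5, nat_lit 5, nat_lit 20], false, nat_lit 160, nat_lit 320, nat_lit 0, nat_lit 320, ⟨nat_lit 1000, nat_lit 0, nat_lit 0, nat_lit 0, nat_lit 0, nat_lit 0, nat_lit 0, nat_lit 0, nat_lit 0, nat_lit 0, nat_lit 0, nat_lit 0, nat_lit 0, nat_lit 0, nat_lit 0, nat_lit 0, false, false⟩,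
 nat_lit 0, nat_lit 0, nat_lit 0, nat_lit 34396, nat_lit 8001, nat_lit 6744, nat_lit 0, nat_lit 0, nat_lit 0, nat_lit 1095, nat_lit 0, nat_lit 0, nat_lit 0, nat_lit 0, nat_lit 0, nat_lit 0, nat_lit 0, nat_lit 0, [],
 ⟨p074_k38, nat_lit 0, nat_lit 0, nat_lit 90, nat_lit 0, nat_lit 0, [nat_lit 3282000000, nat_lit 6250000000, nat_lit 11872000000], [], [nat_lit 16415990707, nat_lit 18575609338, nat_lit 32775013216, nat_lit 33960404744, nat_lit 25519130236, nat_lit 26936000682, nat_lit 36462430156, nat_lit 37225953912], nat_lit 0, nat_lit 0, nat_lit 0, nat_lit 0, nat_lit 0, nat_lit 0, [], [nat_lit 23, nat_lit 40, nat_lit 40, nat_lit 80, nat_lit 12, nat_lit 538, nat_lit 300, nat_lit 13]⟩, ⟨p074_k38, nat_lit 0, nat_lit 0, nat_lit 241, nat_lit 0, nat_lit 0, [nat_lit 3282000000, nat_lit 6250000000, nat_lit 11872000000], [], [nat_lit 23974373775, nat_lit 24796018215, nat_lit 38903682384, nat_lit 39522838424, nat_lit 24541943303,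 nat_lit 25009210067, nat_lit 35006628064, nat_lit 35368431296], nat_lit 0, nat_lit 0, nat_lit 0, nat_lit 0, nat_lit 0, nat_lit 0, [], [nat_lit 23, nat_lit 40, nat_lit 40, nat_lit 80, nat_lit 12, nat_lit 538, nat_lit 300, nat_lit 14]⟩,
 zbF0, [⟨nat_lit 4, nat_lit 100, nat_lit 93, nat_lit 97, nat_lit 538481065⟩, ⟨nat_lit 7, nat_lit 100, nat_lit 97, nat_lit 98, nat_lit 156354632⟩]⟩
noncomputable def p074_l122 : Lf2 := ⟨nat_lit 0, nat_lit 26, [nat_lit 108, nat_lit 5, nat_lit 5, nat_lit 20], false, nat_lit 160, nat_lit 312, nat_lit 0, nat_lit 312, ⟨nat_lit 1000, nat_lit 0, nat_lit 0, nat_lit 0, nat_lit 0, nat_lit 0, nat_lit 0, nat_lit 0, nat_lit 0, nat_lit 0, nat_lit 0, nat_lit 0, nat_lit 0, nat_lit 0, nat_lit 0, nat_lit 0, false, false⟩,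
 nat_lit 0, nat_lit 0, nat_lit 0, nat_lit 31416, nat_lit 8206, nat_lit 5953, nat_lit 0, nat_lit 0, nat_lit 0, nat_lit 1082, nat_lit 0, nat_lit 0, nat_lit 0, nat_lit 0, nat_lit 0, nat_lit 0, nat_lit 0, nat_lit 0, [],
 ⟨p074_k39, nat_lit 0, nat_lit 0, nat_lit 90, nat_lit 0, nat_lit 0, [nat_lit 3282000000, nat_lit 6250000000, nat_lit 11872000000], [], [nat_lit 17083408304, nat_lit 18150684792, nat_lit 33618419880, nat_lit 34218857264, nat_lit 25138070206, nat_lit 25856795911, nat_lit 36808245099, nat_lit 37204955487], nat_lit 0, nat_lit 0, nat_lit 0, nat_lit 0, nat_lit 0, nat_lit 0, [], [nat_lit 23, nat_lit 40, nat_lit 40, nat_lit 80, nat_lit 12, nat_lit 538, nat_lit 300, nat_lit 13]⟩, ⟨p074_k39, nat_lit 0, nat_lit 0, nat_lit 242, nat_lit 0, nat_lit 0, [nat_lit 3282000000, nat_lit 6250000000, nat_lit 11872000000], [], [nat_lit 23177782051, nat_lit 23924445896, nat_lit 37345633863, nat_lit 37928969468, nat_lit 23840259755,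 nat_lit 24261275998, nat_lit 34183590895, nat_lit 34541831984], nat_lit 0, nat_lit 0, nat_lit 0, nat_lit 0, nat_lit 0, nat_lit 0, [], [nat_lit 23, nat_lit 40, nat_lit 40, nat_lit 80, nat_lit 12, nat_lit 538, nat_lit 300, nat_lit 14]⟩,
 zbF0, [⟨nat_lit 4, nat_lit 100, nat_lit 90, nat_lit 95, nat_lit 508198482⟩, ⟨nat_lit 7, nat_lit 100, nat_lit 90, nat_lit 95, nat_lit 151168953⟩]⟩
noncomputable def p074_l123 : Lf2 := ⟨nat_lit 1, nat_lit 26, [nat_lit 108, nat_lit 5, nat_lit 5, nat_lit 20], false, nat_lit 0, nat_lit 336, nat_lit 0, nat_lit 336, zbN0,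
 nat_lit 0, nat_lit 0, nat_lit 0, nat_lit 0, nat_lit 0, nat_lit 0, nat_lit 0, nat_lit 0, nat_lit 0, nat_lit 0, nat_lit 0, nat_lit 0, nat_lit 0, nat_lit 0, nat_lit 0, nat_lit 0, nat_lit 0, nat_lit 0, [],
 C1.Rw.none, C1.Rw.none,
 zbF0, []⟩
noncomputable def p074_l124 : Lf2 := ⟨nat_lit 1, nat_lit 26, [nat_lit 108, nat_lit 5, nat_lit 5, nat_lit 20], false, nat_lit 0, nat_lit 160, nat_lit 0, nat_lit 320, zbN0,
 nat_lit 0, nat_lit 0, nat_lit 0, nat_lit 0, nat_lit 0, nat_lit 0, nat_lit 0, nat_lit 0, nat_lit 0, nat_lit 0, nat_lit 0, nat_lit 0, nat_lit 0, nat_lit 0, nat_lit 0, nat_lit 0, nat_lit 0, nat_lit 0, [],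
 C1.Rw.none, C1.Rw.none,
 zbF0, []⟩
noncomputable def p074_l125 : Lf2 := ⟨nat_lit 0, nat_lit 26, [nat_lit 108, nat_lit 5, nat_lit 5, nat_lit 20], false, nat_lit 0, nat_lit 160, nat_lit 0, nat_lit 320, ⟨nat_lit 1000, nat_lit 0, nat_lit 0, nat_lit 0, nat_lit 0, nat_lit 0, nat_lit 0, nat_lit 0, nat_lit 0, nat_lit 0, nat_lit 0, nat_lit 0, nat_lit 0, nat_lit 0, nat_lit 0, nat_lit 0, false, false⟩,
 nat_lit 0, nat_lit 0, nat_lit 12715, nat_lit 5144, nat_lit 6260, nat_lit 8802, nat_lit 987, nat_lit 0, nat_lit 0, nat_lit 644, nat_lit 0, nat_lit 0, nat_lit 0, nat_lit 0, nat_lit 0, nat_lit 0, nat_lit 0, nat_lit 0, [],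
 ⟨p074_k40, nat_lit 0, nat_lit 0, nat_lit 241, nat_lit 0, nat_lit 0, [nat_lit 3282000000, nat_lit 7968000001, nat_lit 11872000000], [], [nat_lit 23311577278, nat_lit 24090926548, nat_lit 25413663391, nat_lit 26183682611, nat_lit 18742473732, nat_lit 19406736908, nat_lit 21394566551, nat_lit 22042025811], nat_lit 0, nat_lit 0, nat_lit 0, nat_lit 0, nat_lit 0, nat_lit 0, [], [nat_lit 79, nat_lit 40, nat_lit 40, nat_lit 80, nat_lit 14, nat_lit 428, nat_lit 200, nat_lit 11]⟩, ⟨p074_k41, nat_lit 0, nat_lit 0, nat_lit 356, nat_lit 0, nat_lit 149386, [nat_lit 3282000000, nat_lit 7968000000, nat_lit 11872000000], [], [nat_lit 32138411922, nat_lit 31498420468, nat_lit 31020231516, nat_lit 32491096476, nat_lit 28073543348, nat_lit 29118871975, nat_lit 27720783660, nat_lit 28437658976], nat_lit 1271250, nat_lit 1271250, nat_lit 689850, nat_lit 1755750, nat_lit 0, nat_lit 2260000, [nat_lit 780000, nat_lit 1762500, nat_lit 1271250],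 [nat_lit 79, nat_lit 40, nat_lit 40, nat_lit 80, nat_lit 14, nat_lit 456, nat_lit 225, nat_lit 12]⟩,
 zbF0, [⟨nat_lit 0, nat_lit 90, nat_lit 88, nat_lit 100, nat_lit 528627435⟩, ⟨nat_lit 7, nat_lit 100, nat_lit 93, nat_lit 97, nat_lit 135321804⟩]⟩
noncomputable def p074_l126 : Lf2 := ⟨nat_lit 0, nat_lit 26, [nat_lit 108, nat_lit 5, nat_lit 5, nat_lit 20], false, nat_lit 160, nat_lit 320, nat_lit 0, nat_lit 320, ⟨nat_lit 1000, nat_lit 0, nat_lit 0, nat_lit 0, nat_lit 0, nat_lit 0, nat_lit 0, nat_lit 0, nat_lit 0, nat_lit 0, nat_lit 0, nat_lit 0, nat_lit 0, nat_lit 0, nat_lit 0, nat_lit 0, false, false⟩,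
 nat_lit 0, nat_lit 0, nat_lit 11671, nat_lit 11947, nat_lit 4822, nat_lit 8079, nat_lit 0, nat_lit 0, nat_lit 0, nat_lit 729, nat_lit 0, nat_lit 0, nat_lit 0, nat_lit 2518171025784, nat_lit 0, nat_lit 0, nat_lit 0, nat_lit 0, [],
 ⟨p074_k41, nat_lit 0, nat_lit 0, nat_lit 86, nat_lit 0, nat_lit 0, [nat_lit 3282000000, nat_lit 7968000001, nat_lit 11872000000], [], [nat_lit 14459197958, nat_lit 16279077928, nat_lit 18625298704, nat_lit 20038018720, nat_lit 22892995982, nat_lit 24134999860, nat_lit 25130279860, nat_lit 26111871592], nat_lit 0, nat_lit 0, nat_lit 0, nat_lit 0, nat_lit 0, nat_lit 0, [], [nat_lit 79, nat_lit 40, nat_lit 40, nat_lit 80, nat_lit 14, nat_lit 456, nat_lit 225, nat_lit 11]⟩, ⟨p074_k41, nat_lit 0, nat_lit 0, nat_lit 361, nat_lit 0, nat_lit 149386, [nat_lit 3282000000, nat_lit 7968000000, nat_lit 11872000000], [], [nat_lit 33645921176, nat_lit 30718136678, nat_lit 29974077018, nat_lit 31029473127,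 nat_lit 27582844054, nat_lit 28484682516, nat_lit 28225768195, nat_lit 28011666074], nat_lit 1271250, nat_lit 1271250, nat_lit 631250, nat_lit 1751250, nat_lit 0, nat_lit 2260000, [nat_lit 780000, nat_lit 1762500, nat_lit 1271250], [nat_lit 79, nat_lit 40, nat_lit 40, nat_lit 80, nat_lit 14, nat_lit 456, nat_lit 225, nat_lit 12]⟩,
 zbF0, [⟨nat_lit 0, nat_lit 83, nat_lit 83, nat_lit 100, nat_lit 548296744⟩, ⟨nat_lit 4, nat_lit 100, nat_lit 93, nat_lit 97, nat_lit 521008023⟩, ⟨nat_lit 7, nat_lit 100, nat_lit 93, nat_lit 97, nat_lit 106517080⟩]⟩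
noncomputable def p074_l127 : Lf2 := ⟨nat_lit 1, nat_lit 26, [nat_lit 108, nat_lit 5, nat_lit 5, nat_lit 20], false, nat_lit 0, nat_lit 160, nat_lit 0, nat_lit 336, zbN0,
 nat_lit 0, nat_lit 0, nat_lit 0, nat_lit 0, nat_lit 0, nat_lit 0, nat_lit 0, nat_lit 0, nat_lit 0, nat_lit 0, nat_lit 0, nat_lit 0, nat_lit 0, nat_lit 0, nat_lit 0, nat_lit 0, nat_lit 0, nat_lit 0, [],
 C1.Rw.none, C1.Rw.none,
 zbF0, []⟩
noncomputable def p074_l128 : Lf2 := ⟨nat_lit 0, nat_lit 26, [nat_lit 108, nat_lit 5, nat_lit 5, nat_lit 20], false, nat_lit 0, nat_lit 160, nat_lit 0, nat_lit 336, ⟨nat_lit 1000, nat_lit 0, nat_lit 0, nat_lit 0, nat_lit 0, nat_lit 0, nat_lit 0, nat_lit 0, nat_lit 0, nat_lit 0, nat_lit 0, nat_lit 0, nat_lit 0, nat_lit 0, nat_lit 0, nat_lit 0, false, false⟩,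
 nat_lit 0, nat_lit 0, nat_lit 12899, nat_lit 0, nat_lit 6633, nat_lit 8208, nat_lit 717, nat_lit 0, nat_lit 0, nat_lit 599, nat_lit 0, nat_lit 0, nat_lit 0, nat_lit 0, nat_lit 0, nat_lit 0, nat_lit 0, nat_lit 0, [],
 ⟨p074_k41, nat_lit 0, nat_lit 0, nat_lit 252, nat_lit 0, nat_lit 0, [nat_lit 3282000000, nat_lit 7968000001, nat_lit 11872000000], [], [nat_lit 31246321987, nat_lit 32147220947, nat_lit 38603184738, nat_lit 39831443548, nat_lit 26702969563, nat_lit 27459711123, nat_lit 33340150674, nat_lit 33903547736], nat_lit 0, nat_lit 0, nat_lit 0, nat_lit 0, nat_lit 0, nat_lit 0, [], [nat_lit 79, nat_lit 40, nat_lit 40, nat_lit 80, nat_lit 14, nat_lit 456, nat_lit 225, nat_lit 11]⟩, ⟨p074_k42, nat_lit 0, nat_lit 0, nat_lit 387, nat_lit 0, nat_lit 168713, [nat_lit 3282000000, nat_lit 7968000000, nat_lit 14058000000], [], [nat_lit 35606453708, nat_lit 37307193356, nat_lit 43167368780, nat_lit 44457916844, nat_lit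 31811027104, nat_lit 32626842758, nat_lit 36856514042, nat_lit 38295860404], nat_lit 1271250, nat_lit 1271250, nat_lit 1271250, nat_lit 1271250, nat_lit 0, nat_lit 2373000, [nat_lit 780000, nat_lit 1762500, nat_lit 1271250], [nat_lit 84, nat_lit 40, nat_lit 40, nat_lit 80, nat_lit 28, nat_lit 538, nat_lit 300, nat_lit 12]⟩,
 zbF0, [⟨nat_lit 19, nat_lit 100, nat_lit 100, nat_lit 100, nat_lit 97784335⟩]⟩
noncomputable def p074_l129 : Lf2 := ⟨nat_lit 0, nat_lit 26, [nat_lit 108, nat_lit 5, nat_lit 5, nat_lit 20], false, nat_lit 160, nat_lit 336, nat_lit 0, nat_lit 336, ⟨nat_lit 1000, nat_lit 0, nat_lit 0, nat_lit 0, nat_lit 0, nat_lit 0, nat_lit 0, nat_lit 0, nat_lit 0, nat_lit 0, nat_lit 0, nat_lit 0, nat_lit 0, nat_lit 0, nat_lit 0, nat_lit 0, false, false⟩,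
 nat_lit 0, nat_lit 0, nat_lit 12805, nat_lit 1960, nat_lit 8464, nat_lit 8148, nat_lit 0, nat_lit 0, nat_lit 0, nat_lit 599, nat_lit 0, nat_lit 0, nat_lit 0, nat_lit 0, nat_lit 0, nat_lit 0, nat_lit 0, nat_lit 0, [],
 ⟨p074_k42, nat_lit 0, nat_lit 0, nat_lit 105, nat_lit 0, nat_lit 0, [nat_lit 3282000000, nat_lit 7968000001, nat_lit 14058000000], [], [nat_lit 21247556129, nat_lit 24325367585, nat_lit 32810269825, nat_lit 34545043809, nat_lit 28842615361, nat_lit 30738012750, nat_lit 37160021293, nat_lit 38612965146], nat_lit 0, nat_lit 0, nat_lit 0, nat_lit 0, nat_lit 0, nat_lit 0, [], [nat_lit 84, nat_lit 40, nat_lit 40, nat_lit 80, nat_lit 28, nat_lit 538, nat_lit 300, nat_lit 12]⟩, ⟨p074_k42, nat_lit 0, nat_lit 0, nat_lit 387, nat_lit 0, nat_lit 168713, [nat_lit 3282000000, nat_lit 7968000000, nat_lit 14058000000], [], [nat_lit 35644441148, nat_lit 37340077436, nat_lit 43091969180, nat_lit 44380248764, nat_lit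 31921661680, nat_lit 32737547126, nat_lit 36785379530, nat_lit 38221538980], nat_lit 1271250, nat_lit 1271250, nat_lit 1271250, nat_lit 1271250, nat_lit 0, nat_lit 2373000, [nat_lit 780000, nat_lit 1762500, nat_lit 1271250], [nat_lit 84, nat_lit 40, nat_lit 40, nat_lit 80, nat_lit 28, nat_lit 538, nat_lit 300, nat_lit 12]⟩,
 zbF0, [⟨nat_lit 4, nat_lit 100, nat_lit 100, nat_lit 100, nat_lit 343991535⟩, ⟨nat_lit 19, nat_lit 100, nat_lit 100, nat_lit 100, nat_lit 97796929⟩]⟩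
noncomputable def p074_l130 : Lf2 := ⟨nat_lit 0, nat_lit 26, [nat_lit 108, nat_lit 5, nat_lit 5, nat_lit 20], true, nat_lit 0, nat_lit 160, nat_lit 0, nat_lit 336, ⟨nat_lit 0, nat_lit 1000, nat_lit 0, nat_lit 7, nat_lit 209, nat_lit 693, nat_lit 64, nat_lit 0, nat_lit 0, nat_lit 0, nat_lit 0, nat_lit 0, nat_lit 0, nat_lit 0, nat_lit 0, nat_lit 5000000, false, false⟩,
 nat_lit 0, nat_lit 0, nat_lit 0, nat_lit 17068, nat_lit 5251, nat_lit 0, nat_lit 60, nat_lit 0, nat_lit 0, nat_lit 0, nat_lit 0, nat_lit 0, nat_lit 0, nat_lit 0, nat_lit 132, nat_lit 923800, nat_lit 0, nat_lit 0, [(nat_lit 14, [(nat_lit 1, nat_lit 127), (nat_lit 2, nat_lit 873)]), (nat_lit 17, [(nat_lit 1, nat_lit 127), (nat_lit 2, nat_lit 873)])],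
 ⟨p074_k42, nat_lit 0, nat_lit 0, nat_lit 393, nat_lit 0, nat_lit 0, [nat_lit 4460893401, nat_lit 4405550600, nat_lit 281392400], [], [nat_lit 20615804044, nat_lit 23179594966, nat_lit 21647132089, nat_lit 23462594733, nat_lit 17825058553, nat_lit 19844222000, nat_lit 19573326449, nat_lit 21101440461], nat_lit 0, nat_lit 0, nat_lit 0, nat_lit 0, nat_lit 0, nat_lit 0, [], [nat_lit 84, nat_lit 40, nat_lit 40, nat_lit 80, nat_lit 28, nat_lit 428, nat_lit 200, nat_lit 10]⟩, C1.Rw.none,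
 ⟨nat_lit 4472, nat_lit 5478, ⟨.ofNat (nat_lit 330579), .ofNat (nat_lit 660148), .ofNat (nat_lit 373223), .ofNat (nat_lit 702774), .ofNat (nat_lit 355064), .ofNat (nat_lit 654031), .ofNat (nat_lit 398126), .ofNat (nat_lit 697075)⟩, ⟨.negSucc (nat_lit 2834), .ofNat (nat_lit 296923), .ofNat (nat_lit 0), .ofNat (nat_lit 339637), .ofNat (nat_lit 0), .ofNat (nat_lit 302621), .ofNat (nat_lit 0), .ofNat (nat_lit 345754)⟩⟩, []⟩
noncomputable def p074_l131 : Lf2 := ⟨nat_lit 1, nat_lit 26, [nat_lit 108, nat_lit 5, nat_lit 5, nat_lit 20], false, nat_lit 160, nat_lit 336, nat_lit 0, nat_lit 336, zbN0,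
 nat_lit 0, nat_lit 0, nat_lit 0, nat_lit 0, nat_lit 0, nat_lit 0, nat_lit 0, nat_lit 0, nat_lit 0, nat_lit 0, nat_lit 0, nat_lit 0, nat_lit 0, nat_lit 0, nat_lit 0, nat_lit 0, nat_lit 0, nat_lit 0, [],
 C1.Rw.none, C1.Rw.none,
 zbF0, []⟩
noncomputable def p074_l132 : Lf2 := ⟨nat_lit 0, nat_lit 26, [nat_lit 108, nat_lit 5, nat_lit 5, nat_lit 20], true, nat_lit 160, nat_lit 320, nat_lit 0, nat_lit 336, ⟨nat_lit 0, nat_lit 1000, nat_lit 0, nat_lit 7, nat_lit 215, nat_lit 1000, nat_lit 185, nat_lit 0, nat_lit 0, nat_lit 0, nat_lit 0, nat_lit 0, nat_lit 0, nat_lit 0, nat_lit 0, nat_lit 5000000, false, false⟩,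
 nat_lit 0, nat_lit 0, nat_lit 0, nat_lit 16643, nat_lit 3968, nat_lit 0, nat_lit 0, nat_lit 0, nat_lit 0, nat_lit 0, nat_lit 0, nat_lit 0, nat_lit 0, nat_lit 34520166184163, nat_lit 0, nat_lit 250000, nat_lit 0, nat_lit 0, [(nat_lit 17, [(nat_lit 0, nat_lit 1000)])],
 ⟨p074_k41, nat_lit 0, nat_lit 0, nat_lit 96, nat_lit 0, nat_lit 0, [nat_lit 2335200000, nat_lit 3087866667, nat_lit 3679333333], [], [nat_lit 14241064752, nat_lit 15914679616, nat_lit 18521198576, nat_lit 19801951680, nat_lit 22227902864, nat_lit 23458618944, nat_lit 24656911840, nat_lit 25565566848], nat_lit 0, nat_lit 0, nat_lit 0, nat_lit 0, nat_lit 0, nat_lit 0, [], [nat_lit 79, nat_lit 40, nat_lit 40, nat_lit 80, nat_lit 14, nat_lit 456, nat_lit 225, nat_lit 11]⟩, C1.Rw.none,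
 ⟨nat_lit 4472, nat_lit 5000, ⟨.ofNat (nat_lit 371392), .ofNat (nat_lit 657088), .ofNat (nat_lit 414225), .ofNat (nat_lit 699920), .ofNat (nat_lit 382295), .ofNat (nat_lit 654189), .ofNat (nat_lit 425403), .ofNat (nat_lit 697297)⟩, ⟨.ofNat (nat_lit 299999), .ofNat (nat_lit 585713), .ofNat (nat_lit 342856), .ofNat (nat_lit 628570), .ofNat (nat_lit 302621), .ofNat (nat_lit 574534), .ofNat (nat_lit 345754), .ofNat (nat_lit 617667)⟩⟩, [⟨nat_lit 4, nat_lit 100, nat_lit 93, nat_lit 97, nat_lit 299563134⟩]⟩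
noncomputable def p074_l133 : Lf2 := ⟨nat_lit 1, nat_lit 26, [nat_lit 108, nat_lit 5, nat_lit 5, nat_lit 20], false, nat_lit 0, nat_lit 336, nat_lit 0, nat_lit 336, zbN0,
 nat_lit 0, nat_lit 0, nat_lit 0, nat_lit 0, nat_lit 0, nat_lit 0, nat_lit 0, nat_lit 0, nat_lit 0, nat_lit 0, nat_lit 0, nat_lit 0, nat_lit 0, nat_lit 0, nat_lit 0, nat_lit 0, nat_lit 0, nat_lit 0, [],
 C1.Rw.none, C1.Rw.none,
 zbF0, []⟩
noncomputable def p074_l134 : Lf2 := ⟨nat_lit 0, nat_lit 26, [nat_lit 108, nat_lit 5, nat_lit 5, nat_lit 20], false, nat_lit 0, nat_lit 320, nat_lit 0, nat_lit 320, ⟨nat_lit 1000, nat_lit 0, nat_lit 0, nat_lit 0, nat_lit 0, nat_lit 0, nat_lit 0, nat_lit 0, nat_lit 0, nat_lit 0, nat_lit 0, nat_lit 0, nat_lit 0, nat_lit 0, nat_lit 0, nat_lit 0, false, false⟩,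
 nat_lit 0, nat_lit 0, nat_lit 0, nat_lit 22370, nat_lit 7709, nat_lit 8067, nat_lit 604, nat_lit 0, nat_lit 0, nat_lit 439, nat_lit 0, nat_lit 0, nat_lit 0, nat_lit 0, nat_lit 0, nat_lit 0, nat_lit 0, nat_lit 0, [],
 ⟨p074_k41, nat_lit 0, nat_lit 0, nat_lit 252, nat_lit 0, nat_lit 0, [nat_lit 3282000000, nat_lit 7968000001, nat_lit 11872000000], [], [nat_lit 32127796729, nat_lit 33090156809, nat_lit 41516116874, nat_lit 42841829004, nat_lit 29002453351, nat_lit 29518907473, nat_lit 36124248604, nat_lit 36878499608], nat_lit 0, nat_lit 0, nat_lit 0, nat_lit 0, nat_lit 0, nat_lit 0, [], [nat_lit 79, nat_lit 40, nat_lit 40, nat_lit 80, nat_lit 14, nat_lit 538, nat_lit 300, nat_lit 13]⟩, ⟨p074_k41, nat_lit 0, nat_lit 0, nat_lit 252, nat_lit 0, nat_lit 0, [nat_lit 3282000000, nat_lit 7968000000, nat_lit 11872000000], [], [nat_lit 34331329414, nat_lit 35314138454, nat_lit 43081134077, nat_lit 43846753729, nat_lit 30786967800,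 nat_lit 31307380686, nat_lit 36538868452, nat_lit 37304488104], nat_lit 0, nat_lit 0, nat_lit 0, nat_lit 0, nat_lit 0, nat_lit 0, [], [nat_lit 79, nat_lit 40, nat_lit 40, nat_lit 80, nat_lit 14, nat_lit 538, nat_lit 300, nat_lit 13]⟩,
 zbF0, [⟨nat_lit 4, nat_lit 100, nat_lit 93, nat_lit 97, nat_lit 102332848⟩, ⟨nat_lit 7, nat_lit 100, nat_lit 93, nat_lit 97, nat_lit 92360960⟩]⟩
noncomputable def p074_l135 : Lf2 := ⟨nat_lit 0, nat_lit 26, [nat_lit 108, nat_lit 5, nat_lit 5, nat_lit 20], true, nat_lit 0, nat_lit 160, nat_lit 0, nat_lit 336, ⟨nat_lit 0, nat_lit 1000, nat_lit 0, nat_lit 7, nat_lit 209, nat_lit 693, nat_lit 64, nat_lit 0, nat_lit 0, nat_lit 0, nat_lit 0, nat_lit 0, nat_lit 0, nat_lit 0, nat_lit 0, nat_lit 5000000, false, false⟩,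
 nat_lit 0, nat_lit 0, nat_lit 0, nat_lit 17068, nat_lit 5251, nat_lit 0, nat_lit 60, nat_lit 0, nat_lit 0, nat_lit 0, nat_lit 0, nat_lit 0, nat_lit 0, nat_lit 0, nat_lit 132, nat_lit 923800, nat_lit 0, nat_lit 0, [(nat_lit 14, [(nat_lit 1, nat_lit 127), (nat_lit 2, nat_lit 873)]), (nat_lit 17, [(nat_lit 1, nat_lit 127), (nat_lit 2, nat_lit 873)])],
 ⟨p074_k42, nat_lit 0, nat_lit 0, nat_lit 393, nat_lit 0, nat_lit 0, [nat_lit 4460893401, nat_lit 4405550600, nat_lit 281392400], [], [nat_lit 20615804044, nat_lit 23179594966, nat_lit 21647132089, nat_lit 23462594733, nat_lit 17825058553, nat_lit 19844222000, nat_lit 19573326449, nat_lit 21101440461], nat_lit 0, nat_lit 0, nat_lit 0, nat_lit 0, nat_lit 0, nat_lit 0, [], [nat_lit 84, nat_lit 40, nat_lit 40, nat_lit 80, nat_lit 28, nat_lit 428, nat_lit 200, nat_lit 10]⟩, C1.Rw.none,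
 ⟨nat_lit 4472, nat_lit 5478, ⟨.ofNat (nat_lit 330579), .ofNat (nat_lit 660148), .ofNat (nat_lit 373223), .ofNat (nat_lit 702774), .ofNat (nat_lit 355064), .ofNat (nat_lit 654031), .ofNat (nat_lit 398126), .ofNat (nat_lit 697075)⟩, ⟨.negSucc (nat_lit 2834), .ofNat (nat_lit 296923), .ofNat (nat_lit 0), .ofNat (nat_lit 339637), .ofNat (nat_lit 0), .ofNat (nat_lit 302621), .ofNat (nat_lit 0), .ofNat (nat_lit 345754)⟩⟩, []⟩
noncomputable def p074_l136 : Lf2 := ⟨nat_lit 1, nat_lit 26, [nat_lit 108, nat_lit 5, nat_lit 5, nat_lit 20], false, nat_lit 160, nat_lit 336, nat_lit 0, nat_lit 336, zbN0,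
 nat_lit 0, nat_lit 0, nat_lit 0, nat_lit 0, nat_lit 0, nat_lit 0, nat_lit 0, nat_lit 0, nat_lit 0, nat_lit 0, nat_lit 0, nat_lit 0, nat_lit 0, nat_lit 0, nat_lit 0, nat_lit 0, nat_lit 0, nat_lit 0, [],
 C1.Rw.none, C1.Rw.none,
 zbF0, []⟩
noncomputable def p074_l137 : Lf2 := ⟨nat_lit 0, nat_lit 26, [nat_lit 108, nat_lit 5, nat_lit 5, nat_lit 20], true, nat_lit 160, nat_lit 320, nat_lit 0, nat_lit 336, ⟨nat_lit 0, nat_lit 1000, nat_lit 0, nat_lit 7, nat_lit 215, nat_lit 1000, nat_lit 185, nat_lit 0, nat_lit 0, nat_lit 0, nat_lit 0, nat_lit 0, nat_lit 0, nat_lit 0, nat_lit 0, nat_lit 5000000, false, false⟩,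
 nat_lit 0, nat_lit 0, nat_lit 0, nat_lit 16643, nat_lit 3968, nat_lit 0, nat_lit 0, nat_lit 0, nat_lit 0, nat_lit 0, nat_lit 0, nat_lit 0, nat_lit 0, nat_lit 34520166184163, nat_lit 0, nat_lit 250000, nat_lit 0, nat_lit 0, [(nat_lit 17, [(nat_lit 0, nat_lit 1000)])],
 ⟨p074_k43, nat_lit 0, nat_lit 0, nat_lit 55, nat_lit 0, nat_lit 0, [nat_lit 2335200000, nat_lit 3664400000], [], [nat_lit 14241064752, nat_lit 15914679616, nat_lit 18521198576, nat_lit 19801951680, nat_lit 22227902864, nat_lit 23458618944, nat_lit 24656911840, nat_lit 25565566848], nat_lit 0, nat_lit 0, nat_lit 0, nat_lit 0, nat_lit 0, nat_lit 0, [], [nat_lit 135, nat_lit 40, nat_lit 40, nat_lit 80, nat_lit 134, nat_lit 456, nat_lit 225, nat_lit 11]⟩, C1.Rw.none,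
 ⟨nat_lit 4472, nat_lit 5000, ⟨.ofNat (nat_lit 371392), .ofNat (nat_lit 657088), .ofNat (nat_lit 414225), .ofNat (nat_lit 699920), .ofNat (nat_lit 382295), .ofNat (nat_lit 654189), .ofNat (nat_lit 425403), .ofNat (nat_lit 697297)⟩, ⟨.ofNat (nat_lit 299999), .ofNat (nat_lit 585713), .ofNat (nat_lit 342856), .ofNat (nat_lit 628570), .ofNat (nat_lit 302621), .ofNat (nat_lit 574534), .ofNat (nat_lit 345754), .ofNat (nat_lit 617667)⟩⟩, [⟨nat_lit 4, nat_lit 100, nat_lit 93, nat_lit 97, nat_lit 299563134⟩]⟩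
noncomputable def p074_l138 : Lf2 := ⟨nat_lit 1, nat_lit 26, [nat_lit 108, nat_lit 5, nat_lit 5, nat_lit 20], false, nat_lit 0, nat_lit 160, nat_lit 0, nat_lit 336, zbN0,
 nat_lit 0, nat_lit 0, nat_lit 0, nat_lit 0, nat_lit 0, nat_lit 0, nat_lit 0, nat_lit 0, nat_lit 0, nat_lit 0, nat_lit 0, nat_lit 0, nat_lit 0, nat_lit 0, nat_lit 0, nat_lit 0, nat_lit 0, nat_lit 0, [],
 C1.Rw.none, C1.Rw.none,
 zbF0, []⟩
noncomputable def p074_l139 : Lf2 := ⟨nat_lit 0, nat_lit 26, [nat_lit 108, nat_lit 5, nat_lit 5, nat_lit 20], false, nat_lit 0, nat_lit 160, nat_lit 0, nat_lit 336, ⟨nat_lit 1000, nat_lit 0, nat_lit 0, nat_lit 0, nat_lit 0, nat_lit 0, nat_lit 0, nat_lit 0, nat_lit 0, nat_lit 0, nat_lit 0, nat_lit 0, nat_lit 0, nat_lit 0, nat_lit 0, nat_lit 0, false, false⟩,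
 nat_lit 0, nat_lit 0, nat_lit 12899, nat_lit 0, nat_lit 6633, nat_lit 8208, nat_lit 717, nat_lit 0, nat_lit 0, nat_lit 599, nat_lit 0, nat_lit 0, nat_lit 0, nat_lit 0, nat_lit 0, nat_lit 0, nat_lit 0, nat_lit 0, [],
 ⟨p074_k41, nat_lit 0, nat_lit 0, nat_lit 252, nat_lit 0, nat_lit 0, [nat_lit 3282000000, nat_lit 7968000001, nat_lit 11872000000], [], [nat_lit 31246321987, nat_lit 32147220947, nat_lit 38603184738, nat_lit 39831443548, nat_lit 26702969563, nat_lit 27459711123, nat_lit 33340150674, nat_lit 33903547736], nat_lit 0, nat_lit 0, nat_lit 0, nat_lit 0, nat_lit 0, nat_lit 0, [], [nat_lit 79, nat_lit 40, nat_lit 40, nat_lit 80, nat_lit 14, nat_lit 456, nat_lit 225, nat_lit 11]⟩, ⟨p074_k42, nat_lit 0, nat_lit 0, nat_lit 387, nat_lit 0, nat_lit 168713, [nat_lit 3282000000, nat_lit 7968000000, nat_lit 14058000000], [], [nat_lit 35606453708, nat_lit 37307193356, nat_lit 43167368780, nat_lit 44457916844, nat_lit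 31811027104, nat_lit 32626842758, nat_lit 36856514042, nat_lit 38295860404], nat_lit 1271250, nat_lit 1271250, nat_lit 1271250, nat_lit 1271250, nat_lit 0, nat_lit 2373000, [nat_lit 780000, nat_lit 1762500, nat_lit 1271250], [nat_lit 84, nat_lit 40, nat_lit 40, nat_lit 80, nat_lit 28, nat_lit 538, nat_lit 300, nat_lit 12]⟩,
 zbF0, [⟨nat_lit 19, nat_lit 100, nat_lit 100, nat_lit 100, nat_lit 97784335⟩]⟩
noncomputable def p074_l140 : Lf2 := ⟨nat_lit 0, nat_lit 26, [nat_lit 108, nat_lit 5, nat_lit 5, nat_lit 20], false, nat_lit 160, nat_lit 336, nat_lit 0, nat_lit 336, ⟨nat_lit 1000, nat_lit 0, nat_lit 0, nat_lit 0, nat_lit 0, nat_lit 0, nat_lit 0, nat_lit 0, nat_lit 0, nat_lit 0, nat_lit 0, nat_lit 0, nat_lit 0, nat_lit 0, nat_lit 0, nat_lit 0, false, false⟩,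
 nat_lit 0, nat_lit 0, nat_lit 12805, nat_lit 1960, nat_lit 8464, nat_lit 8148, nat_lit 0, nat_lit 0, nat_lit 0, nat_lit 599, nat_lit 0, nat_lit 0, nat_lit 0, nat_lit 6384224650160, nat_lit 0, nat_lit 0, nat_lit 0, nat_lit 0, [],
 ⟨p074_k42, nat_lit 0, nat_lit 0, nat_lit 105, nat_lit 0, nat_lit 0, [nat_lit 3282000000, nat_lit 7968000001, nat_lit 14058000000], [], [nat_lit 21247556129, nat_lit 24325367585, nat_lit 32810269825, nat_lit 34545043809, nat_lit 28842615361, nat_lit 30738012750, nat_lit 37160021293, nat_lit 38612965146], nat_lit 0, nat_lit 0, nat_lit 0, nat_lit 0, nat_lit 0, nat_lit 0, [], [nat_lit 84, nat_lit 40, nat_lit 40, nat_lit 80, nat_lit 28, nat_lit 538, nat_lit 300, nat_lit 12]⟩, ⟨p074_k42, nat_lit 0, nat_lit 0, nat_lit 387, nat_lit 0, nat_lit 168713, [nat_lit 3282000000, nat_lit 7968000000, nat_lit 14058000000], [], [nat_lit 35644441148, nat_lit 37340077436, nat_lit 43091969180, nat_lit 44380248764,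 nat_lit 31921661680, nat_lit 32737547126, nat_lit 36785379530, nat_lit 38221538980], nat_lit 1271250, nat_lit 1271250, nat_lit 1271250, nat_lit 1271250, nat_lit 0, nat_lit 2373000, [nat_lit 780000, nat_lit 1762500, nat_lit 1271250], [nat_lit 84, nat_lit 40, nat_lit 40, nat_lit 80, nat_lit 28, nat_lit 538, nat_lit 300, nat_lit 12]⟩,
 zbF0, [⟨nat_lit 4, nat_lit 100, nat_lit 100, nat_lit 100, nat_lit 343991535⟩, ⟨nat_lit 7, nat_lit 100, nat_lit 100, nat_lit 100, nat_lit 97796929⟩]⟩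
noncomputable def b_V_700_700_20_72 : St := ⟨true, nat_lit 0, nat_lit 2, nat_lit 0, nat_lit 120, nat_lit 280, nat_lit 320, nat_lit 280, nat_lit 320, nat_lit 64, nat_lit 400, nat_lit 80, nat_lit 120, nat_lit 0, nat_lit 336, nat_lit 0, nat_lit 336, nat_lit 80, nat_lit 104, nat_lit 0, nat_lit 0, nat_lit 0, nat_lit 0⟩
theorem d_V_700_700_20_72 (h : EB TB.env) : Dead b_V_700_700_20_72 := chkB_sound0 h (T :=
(.gv
(.st (nat_lit 1)
(.spl (nat_lit 1) (nat_lit 300)
(.leaf p074_l118)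
(.ord (.trZ (nat_lit 0) (nat_lit 100) (nat_lit 100) (nat_lit 100) (nat_lit 100) (.trX (nat_lit 16) (nat_lit 94) (nat_lit 88) (nat_lit 100) (nat_lit 320) (.trX (nat_lit 19) (nat_lit 94) (nat_lit 88) (nat_lit 100) (nat_lit 320) (.spl (nat_lit 4) (nat_lit 160)
(.spl (nat_lit 2) (nat_lit 240)
(.leaf p074_l119)
(.leaf p074_l120))
(.spl (nat_lit 1) (nat_lit 310)
(.leaf p074_l121)
(.ord (.trZ (nat_lit 0) (nat_lit 91) (nat_lit 91) (nat_lit 100) (nat_lit 120) (.trX (nat_lit 16) (nat_lit 91) (nat_lit 91) (nat_lit 100) (nat_lit 312) (.trX (nat_lit 19) (nat_lit 91) (nat_lit 91) (nat_lit 100) (nat_lit 312) (.leaf p074_l122))))))))))))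
(.spl (nat_lit 2) (nat_lit 240)
(.spl (nat_lit 1) (nat_lit 300)
(.leaf p074_l123)
(.ord (.trZ (nat_lit 0) (nat_lit 100) (nat_lit 100) (nat_lit 100) (nat_lit 100) (.trX (nat_lit 16) (nat_lit 94) (nat_lit 88) (nat_lit 100) (nat_lit 320) (.trX (nat_lit 19) (nat_lit 94) (nat_lit 88) (nat_lit 100) (nat_lit 320) (.spl (nat_lit 4) (nat_lit 160)
(.spl (nat_lit 0) (nat_lit 310)
(.ord (.leaf p074_l124))
(.trZ (nat_lit 0) (nat_lit 97) (nat_lit 93) (nat_lit 100) (nat_lit 108) (.leaf p074_l125)))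
(.leaf p074_l126)))))))
(.spl (nat_lit 4) (nat_lit 160)
(.spl (nat_lit 0) (nat_lit 300)
(.ord (.leaf p074_l127))
(.leaf p074_l128))
(.leaf p074_l129))))
(.st (nat_lit 1)
(.spl (nat_lit 2) (nat_lit 240)
(.spl (nat_lit 4) (nat_lit 160)
(.leaf p074_l130)
(.spl (nat_lit 0) (nat_lit 300)
(.ord (.leaf p074_l131))
(.trZ (nat_lit 0) (nat_lit 100) (nat_lit 94) (nat_lit 88) (nat_lit 80) (.trX (nat_lit 16) (nat_lit 94) (nat_lit 88) (nat_lit 100) (nat_lit 320) (.leaf p074_l132)))))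
(.spl (nat_lit 1) (nat_lit 300)
(.leaf p074_l133)
(.ord (.trX (nat_lit 16) (nat_lit 94) (nat_lit 88) (nat_lit 100) (nat_lit 320) (.trX (nat_lit 19) (nat_lit 94) (nat_lit 88) (nat_lit 100) (nat_lit 320) (.leaf p074_l134))))))
(.spl (nat_lit 2) (nat_lit 240)
(.spl (nat_lit 4) (nat_lit 160)
(.leaf p074_l135)
(.spl (nat_lit 0) (nat_lit 300)
(.ord (.leaf p074_l136))
(.trZ (nat_lit 0) (nat_lit 100) (nat_lit 94) (nat_lit 88) (nat_lit 80) (.trX (nat_lit 16) (nat_lit 94) (nat_lit 88) (nat_lit 100) (nat_lit 320) (.leaf p074_l137)))))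
(.spl (nat_lit 4) (nat_lit 160)
(.spl (nat_lit 0) (nat_lit 300)
(.ord (.leaf p074_l138))
(.leaf p074_l139))
(.leaf p074_l140)))))) (by decide +kernel)
noncomputable def p074_l141 : Lf2 := ⟨nat_lit 1, nat_lit 26, [nat_lit 108, nat_lit 5, nat_lit 5, nat_lit 20], false, nat_lit 0, nat_lit 336, nat_lit 0, nat_lit 336, zbN0,
 nat_lit 0, nat_lit 0, nat_lit 0, nat_lit 0, nat_lit 0, nat_lit 0, nat_lit 0, nat_lit 0, nat_lit 0, nat_lit 0, nat_lit 0, nat_lit 0, nat_lit 0, nat_lit 0, nat_lit 0, nat_lit 0, nat_lit 0, nat_lit 0, [],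
 C1.Rw.none, C1.Rw.none,
 zbF0, []⟩
noncomputable def p074_l142 : Lf2 := ⟨nat_lit 0, nat_lit 26, [nat_lit 108, nat_lit 5, nat_lit 5, nat_lit 20], false, nat_lit 0, nat_lit 160, nat_lit 0, nat_lit 160, ⟨nat_lit 1000, nat_lit 0, nat_lit 0, nat_lit 0, nat_lit 0, nat_lit 0, nat_lit 0, nat_lit 0, nat_lit 0, nat_lit 0, nat_lit 0, nat_lit 0, nat_lit 0, nat_lit 0, nat_lit 0, nat_lit 0, false, false⟩,
 nat_lit 0, nat_lit 8757, nat_lit 0, nat_lit 12218, nat_lit 6062, nat_lit 6555, nat_lit 448, nat_lit 0, nat_lit 0, nat_lit 1189, nat_lit 0, nat_lit 0, nat_lit 0, nat_lit 21480062805621, nat_lit 0, nat_lit 0, nat_lit 0, nat_lit 0, [],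
 ⟨p074_k38, nat_lit 0, nat_lit 0, nat_lit 355, nat_lit 0, nat_lit 149386, [nat_lit 3282000000, nat_lit 6250000000, nat_lit 11872000000], [], [nat_lit 37941784280, nat_lit 34711720324, nat_lit 41145365672, nat_lit 41847314544, nat_lit 29111650882, nat_lit 30027216100, nat_lit 39683915756, nat_lit 37008476304], nat_lit 1271250, nat_lit 1271250, nat_lit 631250, nat_lit 3031250, nat_lit 0, nat_lit 1100001, [nat_lit 780000, nat_lit 1435000, nat_lit 1271250], [nat_lit 23, nat_lit 40, nat_lit 40, nat_lit 80, nat_lit 12, nat_lit 456, nat_lit 225, nat_lit 12]⟩, ⟨p074_k38, nat_lit 0, nat_lit 0, nat_lit 242, nat_lit 0, nat_lit 0, [nat_lit 3282000000, nat_lit 6250000000, nat_lit 11872000000], [], [nat_lit 22797712500, nat_lit 24413899725, nat_lit 38392024230, nat_lit 39613218580, nat_lit 18660793935, nat_lit 19731490170, nat_lit 31061190880, nat_lit 32137368920], nat_lit 0, nat_lit 0, nat_lit 0, nat_lit 0, nat_lit 0, nat_lit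 0, [], [nat_lit 23, nat_lit 40, nat_lit 40, nat_lit 80, nat_lit 12, nat_lit 456, nat_lit 225, nat_lit 12]⟩,
 zbF0, [⟨nat_lit 0, nat_lit 83, nat_lit 83, nat_lit 100, nat_lit 118458526⟩]⟩
noncomputable def p074_l143 : Lf2 := ⟨nat_lit 1, nat_lit 26, [nat_lit 108, nat_lit 5, nat_lit 5, nat_lit 20], false, nat_lit 160, nat_lit 320, nat_lit 0, nat_lit 160, zbN0,
 nat_lit 0, nat_lit 0, nat_lit 0, nat_lit 0, nat_lit 0, nat_lit 0, nat_lit 0, nat_lit 0, nat_lit 0, nat_lit 0, nat_lit 0, nat_lit 0, nat_lit 0, nat_lit 0, nat_lit 0, nat_lit 0, nat_lit 0, nat_lit 0, [],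
 C1.Rw.none, C1.Rw.none,
 zbF0, []⟩
noncomputable def p074_l144 : Lf2 := ⟨nat_lit 0, nat_lit 26, [nat_lit 108, nat_lit 5, nat_lit 5, nat_lit 20], false, nat_lit 160, nat_lit 312, nat_lit 0, nat_lit 160, ⟨nat_lit 1000, nat_lit 0, nat_lit 0, nat_lit 0, nat_lit 0, nat_lit 0, nat_lit 0, nat_lit 0, nat_lit 0, nat_lit 0, nat_lit 0, nat_lit 0, nat_lit 0, nat_lit 0, nat_lit 0, nat_lit 0, false, false⟩,
 nat_lit 0, nat_lit 7723, nat_lit 0, nat_lit 23555, nat_lit 5567, nat_lit 6580, nat_lit 1087, nat_lit 0, nat_lit 0, nat_lit 1184, nat_lit 0, nat_lit 0, nat_lit 0, nat_lit 26676246421449, nat_lit 0, nat_lit 0, nat_lit 0, nat_lit 0, [],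
 ⟨p074_k39, nat_lit 0, nat_lit 0, nat_lit 192, nat_lit 0, nat_lit 141002, [nat_lit 3282000000, nat_lit 6250000000, nat_lit 11872000000], [], [nat_lit 19328145514, nat_lit 19886761388, nat_lit 31940119053, nat_lit 30891753848, nat_lit 24061275908, nat_lit 24499738057, nat_lit 33733916450, nat_lit 34085566705], nat_lit 1271250, nat_lit 1271250, nat_lit 689850, nat_lit 3047750, nat_lit 1271250, nat_lit 1271250, [nat_lit 780000, nat_lit 1435000, nat_lit 1271250], [nat_lit 23, nat_lit 40, nat_lit 40, nat_lit 80, nat_lit 12, nat_lit 538, nat_lit 300, nat_lit 13]⟩, ⟨p074_k38, nat_lit 0, nat_lit 0, nat_lit 242, nat_lit 0, nat_lit 0, [nat_lit 3282000000, nat_lit 6250000000, nat_lit 11872000000], [], [nat_lit 22729345764, nat_lit 24333333584, nat_lit 38459703880, nat_lit 39683162480, nat_lit 18591734724, nat_lit 19648032104, nat_lit 31090821280, nat_lit 32168887520], nat_lit 0, nat_lit 0, nat_lit 0, nat_lit 0, nat_lit 0,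 nat_lit 0, [], [nat_lit 23, nat_lit 40, nat_lit 40, nat_lit 80, nat_lit 12, nat_lit 456, nat_lit 225, nat_lit 12]⟩,
 zbF0, [⟨nat_lit 16, nat_lit 90, nat_lit 100, nat_lit 95, nat_lit 437802807⟩]⟩
noncomputable def p074_l145 : Lf2 := ⟨nat_lit 0, nat_lit 26, [nat_lit 108, nat_lit 5, nat_lit 5, nat_lit 20], false, nat_lit 0, nat_lit 320, nat_lit 160, nat_lit 320, ⟨nat_lit 1000, nat_lit 0, nat_lit 0, nat_lit 0, nat_lit 0, nat_lit 0, nat_lit 0, nat_lit 0, nat_lit 0, nat_lit 0, nat_lit 0, nat_lit 0, nat_lit 0, nat_lit 0, nat_lit 0, nat_lit 0, false, false⟩,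
 nat_lit 0, nat_lit 11671, nat_lit 0, nat_lit 12791, nat_lit 8079, nat_lit 4822, nat_lit 729, nat_lit 0, nat_lit 0, nat_lit 0, nat_lit 0, nat_lit 0, nat_lit 0, nat_lit 0, nat_lit 0, nat_lit 0, nat_lit 0, nat_lit 0, [],
 ⟨p074_k41, nat_lit 0, nat_lit 0, nat_lit 361, nat_lit 0, nat_lit 149386, [nat_lit 3282000000, nat_lit 7968000001, nat_lit 11872000000], [], [nat_lit 33645921176, nat_lit 30718136679, nat_lit 29974077019, nat_lit 31029473127, nat_lit 27582844056, nat_lit 28484682518, nat_lit 28225768196, nat_lit 28011666076], nat_lit 1271250, nat_lit 1271250, nat_lit 631250, nat_lit 1751250, nat_lit 0, nat_lit 2260000, [nat_lit 780000, nat_lit 1762500, nat_lit 1271250], [nat_lit 79, nat_lit 40, nat_lit 40, nat_lit 80, nat_lit 14, nat_lit 456, nat_lit 225, nat_lit 12]⟩, ⟨p074_k41, nat_lit 0, nat_lit 0, nat_lit 86, nat_lit 0, nat_lit 0, [nat_lit 3282000000, nat_lit 7968000000, nat_lit 11872000000], [], [nat_lit 14459197958,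 nat_lit 16279077928, nat_lit 18625298704, nat_lit 20038018720, nat_lit 22892995982, nat_lit 24134999860, nat_lit 25130279860, nat_lit 26111871592], nat_lit 0, nat_lit 0, nat_lit 0, nat_lit 0, nat_lit 0, nat_lit 0, [], [nat_lit 79, nat_lit 40, nat_lit 40, nat_lit 80, nat_lit 14, nat_lit 456, nat_lit 225, nat_lit 11]⟩,
 zbF0, [⟨nat_lit 0, nat_lit 83, nat_lit 83, nat_lit 100, nat_lit 548296744⟩, ⟨nat_lit 16, nat_lit 93, nat_lit 100, nat_lit 97, nat_lit 112642467⟩, ⟨nat_lit 7, nat_lit 100, nat_lit 93, nat_lit 97, nat_lit 521008023⟩]⟩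
noncomputable def p074_l146 : Lf2 := ⟨nat_lit 0, nat_lit 26, [nat_lit 108, nat_lit 5, nat_lit 5, nat_lit 20], false, nat_lit 0, nat_lit 320, nat_lit 160, nat_lit 320, ⟨nat_lit 1000, nat_lit 0, nat_lit 0, nat_lit 0, nat_lit 0, nat_lit 0, nat_lit 0, nat_lit 0, nat_lit 0, nat_lit 0, nat_lit 0, nat_lit 0, nat_lit 0, nat_lit 0, nat_lit 0, nat_lit 0, false, false⟩,
 nat_lit 0, nat_lit 9303, nat_lit 0, nat_lit 9016, nat_lit 6440, nat_lit 6942, nat_lit 720, nat_lit 0, nat_lit 0, nat_lit 0, nat_lit 0, nat_lit 0, nat_lit 0, nat_lit 0, nat_lit 0, nat_lit 0, nat_lit 0, nat_lit 0, [],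
 ⟨p074_k38, nat_lit 0, nat_lit 0, nat_lit 334, nat_lit 0, nat_lit 149386, [nat_lit 3282000000, nat_lit 6250000000, nat_lit 11872000000], [], [nat_lit 30231305520, nat_lit 31204934720, nat_lit 38581798640, nat_lit 39295751280, nat_lit 29117113760, nat_lit 29669675040, nat_lit 34654548640, nat_lit 35368501280], nat_lit 1271250, nat_lit 1271250, nat_lit 1271250, nat_lit 1271250, nat_lit 0, nat_lit 2260000, [nat_lit 780000, nat_lit 1435000, nat_lit 1271250], [nat_lit 23, nat_lit 40, nat_lit 40, nat_lit 80, nat_lit 12, nat_lit 538, nat_lit 300, nat_lit 13]⟩, ⟨p074_k38, nat_lit 0, nat_lit 0, nat_lit 90, nat_lit 0, nat_lit 0, [nat_lit 3282000000, nat_lit 6250000000, nat_lit 11872000000], [], [nat_lit 21007481356, nat_lit 22510732152, nat_lit 31661355112, nat_lit 32625276848, nat_lit 27298989236, nat_lit 28306518496, nat_lit 35235942952, nat_lit 35965837104], nat_lit 0, nat_lit 0, nat_lit 0, nat_lit 0, nat_lit 0, nat_lit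 0, [], [nat_lit 23, nat_lit 40, nat_lit 40, nat_lit 80, nat_lit 12, nat_lit 538, nat_lit 300, nat_lit 13]⟩,
 zbF0, [⟨nat_lit 16, nat_lit 93, nat_lit 100, nat_lit 97, nat_lit 137673374⟩, ⟨nat_lit 7, nat_lit 100, nat_lit 93, nat_lit 97, nat_lit 364584386⟩]⟩
noncomputable def p074_l147 : Lf2 := ⟨nat_lit 1, nat_lit 26, [nat_lit 108, nat_lit 5, nat_lit 5, nat_lit 20], false, nat_lit 0, nat_lit 336, nat_lit 0, nat_lit 336, zbN0,
 nat_lit 0, nat_lit 0, nat_lit 0, nat_lit 0, nat_lit 0, nat_lit 0, nat_lit 0, nat_lit 0, nat_lit 0, nat_lit 0, nat_lit 0, nat_lit 0, nat_lit 0, nat_lit 0, nat_lit 0, nat_lit 0, nat_lit 0, nat_lit 0, [],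
 C1.Rw.none, C1.Rw.none,
 zbF0, []⟩
noncomputable def p074_l148 : Lf2 := ⟨nat_lit 1, nat_lit 26, [nat_lit 108, nat_lit 5, nat_lit 5, nat_lit 20], false, nat_lit 0, nat_lit 320, nat_lit 0, nat_lit 320, zbN0,
 nat_lit 0, nat_lit 0, nat_lit 0, nat_lit 0, nat_lit 0, nat_lit 0, nat_lit 0, nat_lit 0, nat_lit 0, nat_lit 0, nat_lit 0, nat_lit 0, nat_lit 0, nat_lit 0, nat_lit 0, nat_lit 0, nat_lit 0, nat_lit 0, [],
 C1.Rw.none, C1.Rw.none,
 zbF0, []⟩
noncomputable def p074_l149 : Lf2 := ⟨nat_lit 0, nat_lit 25, [nat_lit 44, nat_lit 5, nat_lit 5, nat_lit 20], false, nat_lit 0, nat_lit 292, nat_lit 0, nat_lit 160, ⟨nat_lit 1000, nat_lit 0, nat_lit 0, nat_lit 0, nat_lit 0, nat_lit 0, nat_lit 0, nat_lit 0, nat_lit 0, nat_lit 0, nat_lit 0, nat_lit 0, nat_lit 0, nat_lit 0, nat_lit 0, nat_lit 0, false, false⟩,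
 nat_lit 9506, nat_lit 2359, nat_lit 0, nat_lit 16450, nat_lit 8553, nat_lit 6580, nat_lit 758, nat_lit 0, nat_lit 0, nat_lit 1184, nat_lit 0, nat_lit 0, nat_lit 0, nat_lit 0, nat_lit 0, nat_lit 0, nat_lit 0, nat_lit 0, [],
 ⟨p074_k44, nat_lit 0, nat_lit 0, nat_lit 329, nat_lit 0, nat_lit 79307, [nat_lit 3282000000, nat_lit 6250000000, nat_lit 11872000000], [], [nat_lit 36352675458, nat_lit 34081007211, nat_lit 30498847044, nat_lit 31222018764, nat_lit 26188549863, nat_lit 26754910952, nat_lit 27623868605, nat_lit 26440087989], nat_lit 1271250, nat_lit 1271250, nat_lit 689850, nat_lit 1755750, nat_lit 0, nat_lit 2062250, [nat_lit 780000, nat_lit 1435000, nat_lit 1271250], [nat_lit 23, nat_lit 40, nat_lit 40, nat_lit 80, nat_lit 12, nat_lit 456, nat_lit 225, nat_lit 12]⟩, ⟨p074_k45, nat_lit 0, nat_lit 0, nat_lit 330, nat_lit 0, nat_lit 83527, [nat_lit 3282000000, nat_lit 6250000000, nat_lit 11872000000], [], [nat_lit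 22729345764, nat_lit 24333333584, nat_lit 24672408640, nat_lit 25924451040, nat_lit 18591734724, nat_lit 19648032104, nat_lit 30791368720, nat_lit 27850108720], nat_lit 1271250, nat_lit 1271250, nat_lit 689850, nat_lit 1755750, nat_lit 0, nat_lit 1100001, [nat_lit 780000, nat_lit 1435000, nat_lit 1271250], [nat_lit 23, nat_lit 40, nat_lit 40, nat_lit 80, nat_lit 12, nat_lit 428, nat_lit 200, nat_lit 11]⟩,
 zbF0, [⟨nat_lit 0, nat_lit 83, nat_lit 83, nat_lit 100, nat_lit 232337214⟩, ⟨nat_lit 4, nat_lit 100, nat_lit 88, nat_lit 90, nat_lit 36383125⟩]⟩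
noncomputable def p074_l150 : Lf2 := ⟨nat_lit 0, nat_lit 25, [nat_lit 44, nat_lit 5, nat_lit 5, nat_lit 20], false, nat_lit 0, nat_lit 292, nat_lit 160, nat_lit 300, ⟨nat_lit 1000, nat_lit 0, nat_lit 0, nat_lit 0, nat_lit 0, nat_lit 0, nat_lit 0, nat_lit 0, nat_lit 0, nat_lit 0, nat_lit 0, nat_lit 0, nat_lit 0, nat_lit 0, nat_lit 0, nat_lit 0, false, false⟩,
 nat_lit 7253, nat_lit 3684, nat_lit 0, nat_lit 16392, nat_lit 7884, nat_lit 5021, nat_lit 877, nat_lit 0, nat_lit 0, nat_lit 0, nat_lit 0, nat_lit 0, nat_lit 0, nat_lit 0, nat_lit 0, nat_lit 0, nat_lit 0, nat_lit 0, [],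
 ⟨p074_k46, nat_lit 0, nat_lit 0, nat_lit 254, nat_lit 0, nat_lit 32539, [nat_lit 3282000000, nat_lit 7968000001, nat_lit 11872000000], [], [nat_lit 27508275647, nat_lit 26896126944, nat_lit 27486509932, nat_lit 28176740092, nat_lit 23751861648, nat_lit 24295290307, nat_lit 25361787558, nat_lit 26119843864], nat_lit 1271250, nat_lit 1271250, nat_lit 689850, nat_lit 1755750, nat_lit 0, nat_lit 2062250, [nat_lit 780000, nat_lit 1762500, nat_lit 1271250], [nat_lit 79, nat_lit 40, nat_lit 40, nat_lit 80, nat_lit 14, nat_lit 456, nat_lit 225, nat_lit 12]⟩, ⟨p074_k47, nat_lit 0, nat_lit 0, nat_lit 108, nat_lit 0, nat_lit 34271, [nat_lit 3282000000, nat_lit 7968000000, nat_lit 11872000000], [], [nat_lit 14289806099, nat_lit 15211767422, nat_lit 18428931872, nat_lit 19150667416, nat_lit 21531999980, nat_lit 22197736791, nat_lit 24030793677, nat_lit 24585875311], nat_lit 1271250, nat_lit 1271250, nat_lit 689850, nat_lit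 1755750, nat_lit 1100001, nat_lit 2298750, [nat_lit 780000, nat_lit 1762500, nat_lit 1271250], [nat_lit 79, nat_lit 40, nat_lit 40, nat_lit 80, nat_lit 14, nat_lit 456, nat_lit 225, nat_lit 11]⟩,
 zbF0, [⟨nat_lit 0, nat_lit 89, nat_lit 85, nat_lit 100, nat_lit 448105055⟩, ⟨nat_lit 16, nat_lit 88, nat_lit 100, nat_lit 90, nat_lit 160788460⟩, ⟨nat_lit 7, nat_lit 100, nat_lit 94, nat_lit 92, nat_lit 478436966⟩]⟩
noncomputable def p074_l151 : Lf2 := ⟨nat_lit 0, nat_lit 25, [nat_lit 44, nat_lit 5, nat_lit 5, nat_lit 20], false, nat_lit 0, nat_lit 292, nat_lit 160, nat_lit 292, ⟨nat_lit 1000, nat_lit 0, nat_lit 0, nat_lit 0, nat_lit 0, nat_lit 0, nat_lit 0, nat_lit 0, nat_lit 0, nat_lit 0, nat_lit 0, nat_lit 0, nat_lit 0, nat_lit 0, nat_lit 0, nat_lit 0, false, false⟩,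
 nat_lit 11006, nat_lit 0, nat_lit 0, nat_lit 10806, nat_lit 7934, nat_lit 5111, nat_lit 871, nat_lit 0, nat_lit 0, nat_lit 0, nat_lit 0, nat_lit 0, nat_lit 0, nat_lit 0, nat_lit 0, nat_lit 0, nat_lit 0, nat_lit 0, [],
 ⟨p074_k46, nat_lit 0, nat_lit 0, nat_lit 323, nat_lit 0, nat_lit 79307, [nat_lit 3282000000, nat_lit 7968000001, nat_lit 11872000000], [], [nat_lit 25797356678, nat_lit 26681432588, nat_lit 27593037332, nat_lit 28285729492, nat_lit 23491882849, nat_lit 24028283556, nat_lit 25382711800, nat_lit 26143596854], nat_lit 1271250, nat_lit 1271250, nat_lit 780000, nat_lit 1762500, nat_lit 0, nat_lit 2062250, [nat_lit 780000, nat_lit 1762500, nat_lit 1271250], [nat_lit 79, nat_lit 40, nat_lit 40, nat_lit 80, nat_lit 14, nat_lit 456, nat_lit 225, nat_lit 12]⟩, ⟨p074_k46, nat_lit 0, nat_lit 0, nat_lit 101, nat_lit 0, nat_lit 79307, [nat_lit 3282000000, nat_lit 7968000000, nat_lit 11872000000], [], [nat_lit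 15168790150, nat_lit 16085550696, nat_lit 19068812056, nat_lit 19797501360, nat_lit 21620665748, nat_lit 22370821762, nat_lit 24201329069, nat_lit 24802503038], nat_lit 1271250, nat_lit 1271250, nat_lit 780000, nat_lit 1762500, nat_lit 1100001, nat_lit 2230250, [nat_lit 780000, nat_lit 1762500, nat_lit 1271250], [nat_lit 79, nat_lit 40, nat_lit 40, nat_lit 80, nat_lit 14, nat_lit 456, nat_lit 225, nat_lit 11]⟩,
 zbF0, [⟨nat_lit 0, nat_lit 87, nat_lit 87, nat_lit 100, nat_lit 394997121⟩, ⟨nat_lit 4, nat_lit 100, nat_lit 88, nat_lit 90, nat_lit 168223472⟩, ⟨nat_lit 7, nat_lit 100, nat_lit 88, nat_lit 90, nat_lit 514404099⟩]⟩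
noncomputable def p074_l152 : Lf2 := ⟨nat_lit 1, nat_lit 21, [nat_lit 281, nat_lit 5, nat_lit 5, nat_lit 20], false, nat_lit 0, nat_lit 312, nat_lit 0, nat_lit 320, zbN0,
 nat_lit 0, nat_lit 0, nat_lit 0, nat_lit 0, nat_lit 0, nat_lit 0, nat_lit 0, nat_lit 0, nat_lit 0, nat_lit 0, nat_lit 0, nat_lit 0, nat_lit 0, nat_lit 0, nat_lit 0, nat_lit 0, nat_lit 0, nat_lit 0, [],
 C1.Rw.none, C1.Rw.none,
 zbF0, []⟩
noncomputable def p074_l153 : Lf2 := ⟨nat_lit 1, nat_lit 26, [nat_lit 108, nat_lit 5, nat_lit 5, nat_lit 20], false, nat_lit 0, nat_lit 312, nat_lit 0, nat_lit 320, zbN0,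
 nat_lit 0, nat_lit 0, nat_lit 0, nat_lit 0, nat_lit 0, nat_lit 0, nat_lit 0, nat_lit 0, nat_lit 0, nat_lit 0, nat_lit 0, nat_lit 0, nat_lit 0, nat_lit 0, nat_lit 0, nat_lit 0, nat_lit 0, nat_lit 0, [],
 C1.Rw.none, C1.Rw.none,
 zbF0, []⟩
noncomputable def p074_l154 : Lf2 := ⟨nat_lit 1, nat_lit 26, [nat_lit 108, nat_lit 5, nat_lit 5, nat_lit 20], false, nat_lit 0, nat_lit 320, nat_lit 0, nat_lit 320, zbN0,
 nat_lit 0, nat_lit 0, nat_lit 0, nat_lit 0, nat_lit 0, nat_lit 0, nat_lit 0, nat_lit 0, nat_lit 0, nat_lit 0, nat_lit 0, nat_lit 0, nat_lit 0, nat_lit 0, nat_lit 0, nat_lit 0, nat_lit 0, nat_lit 0, [],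
 C1.Rw.none, C1.Rw.none,
 zbF0, []⟩
noncomputable def p074_l155 : Lf2 := ⟨nat_lit 0, nat_lit 26, [nat_lit 108, nat_lit 5, nat_lit 5, nat_lit 20], false, nat_lit 0, nat_lit 312, nat_lit 0, nat_lit 320, ⟨nat_lit 1000, nat_lit 0, nat_lit 0, nat_lit 0, nat_lit 0, nat_lit 0, nat_lit 0, nat_lit 0, nat_lit 0, nat_lit 0, nat_lit 0, nat_lit 0, nat_lit 0, nat_lit 0, nat_lit 0, nat_lit 0, false, false⟩,
 nat_lit 11653, nat_lit 0, nat_lit 0, nat_lit 5621, nat_lit 7030, nat_lit 8067, nat_lit 647, nat_lit 0, nat_lit 0, nat_lit 439, nat_lit 0, nat_lit 0, nat_lit 0, nat_lit 0, nat_lit 0, nat_lit 0, nat_lit 0, nat_lit 0, [],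
 ⟨p074_k40, nat_lit 0, nat_lit 0, nat_lit 278, nat_lit 0, nat_lit 84171, [nat_lit 3282000000, nat_lit 7968000001, nat_lit 11872000000], [], [nat_lit 30856450311, nat_lit 31318238111, nat_lit 40310045130, nat_lit 40942152680, nat_lit 28133576877, nat_lit 28451504550, nat_lit 35438252492, nat_lit 35814883032], nat_lit 1271250, nat_lit 1271250, nat_lit 1271250, nat_lit 1271250, nat_lit 0, nat_lit 2203500, [nat_lit 780000, nat_lit 1762500, nat_lit 1271250], [nat_lit 79, nat_lit 40, nat_lit 40, nat_lit 80, nat_lit 14, nat_lit 538, nat_lit 300, nat_lit 13]⟩, ⟨p074_k41, nat_lit 0, nat_lit 0, nat_lit 280, nat_lit 0, nat_lit 88703, [nat_lit 3282000000, nat_lit 7968000000, nat_lit 11872000000], [], [nat_lit 34331329414, nat_lit 35314138454, nat_lit 43081134077, nat_lit 43846753729, nat_lit 30786967800, nat_lit 31307380686, nat_lit 36538868452, nat_lit 37304488104], nat_lit 1271250, nat_lit 1271250, nat_lit 1271250, nat_lit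 1271250, nat_lit 0, nat_lit 2260000, [nat_lit 780000, nat_lit 1762500, nat_lit 1271250], [nat_lit 79, nat_lit 40, nat_lit 40, nat_lit 80, nat_lit 14, nat_lit 538, nat_lit 300, nat_lit 13]⟩,
 zbF0, [⟨nat_lit 16, nat_lit 90, nat_lit 100, nat_lit 95, nat_lit 118562699⟩, ⟨nat_lit 7, nat_lit 100, nat_lit 93, nat_lit 97, nat_lit 92360960⟩]⟩
noncomputable def p074_l156 : Lf2 := ⟨nat_lit 1, nat_lit 26, [nat_lit 108, nat_lit 5, nat_lit 5, nat_lit 20], false, nat_lit 0, nat_lit 160, nat_lit 0, nat_lit 336, zbN0,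
 nat_lit 0, nat_lit 0, nat_lit 0, nat_lit 0, nat_lit 0, nat_lit 0, nat_lit 0, nat_lit 0, nat_lit 0, nat_lit 0, nat_lit 0, nat_lit 0, nat_lit 0, nat_lit 0, nat_lit 0, nat_lit 0, nat_lit 0, nat_lit 0, [],
 C1.Rw.none, C1.Rw.none,
 zbF0, []⟩
noncomputable def p074_l157 : Lf2 := ⟨nat_lit 0, nat_lit 26, [nat_lit 108, nat_lit 5, nat_lit 5, nat_lit 20], true, nat_lit 0, nat_lit 160, nat_lit 0, nat_lit 336, ⟨nat_lit 0, nat_lit 1000, nat_lit 0, nat_lit 7, nat_lit 215, nat_lit 1000, nat_lit 65, nat_lit 0, nat_lit 0, nat_lit 0, nat_lit 0, nat_lit 0, nat_lit 0, nat_lit 0, nat_lit 0, nat_lit 5000000, false, false⟩,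
 nat_lit 0, nat_lit 6853, nat_lit 0, nat_lit 1972, nat_lit 4744, nat_lit 0, nat_lit 0, nat_lit 0, nat_lit 0, nat_lit 0, nat_lit 0, nat_lit 0, nat_lit 0, nat_lit 25148767234297, nat_lit 31, nat_lit 632800, nat_lit 0, nat_lit 0, [(nat_lit 17, [(nat_lit 1, nat_lit 612), (nat_lit 2, nat_lit 388)])],
 ⟨p074_k41, nat_lit 0, nat_lit 0, nat_lit 371, nat_lit 0, nat_lit 149386, [nat_lit 2713191201, nat_lit 2136693201, nat_lit 170071599], [], [nat_lit 28454660290, nat_lit 25946327218, nat_lit 24154571248, nat_lit 25204109871, nat_lit 20523609729, nat_lit 21308701569, nat_lit 26034938050, nat_lit 23886816898], nat_lit 1271250, nat_lit 1271250, nat_lit 490000, nat_lit 1740000, nat_lit 0, nat_lit 1100001, [nat_lit 780000, nat_lit 1762500, nat_lit 1271250], [nat_lit 79, nat_lit 40, nat_lit 40, nat_lit 80, nat_lit 14, nat_lit 428, nat_lit 200, nat_lit 11]⟩, C1.Rw.none,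
 ⟨nat_lit 4472, nat_lit 5000, ⟨.ofNat (nat_lit 371392), .ofNat (nat_lit 657088), .ofNat (nat_lit 414225), .ofNat (nat_lit 699920), .ofNat (nat_lit 382295), .ofNat (nat_lit 654189), .ofNat (nat_lit 425403), .ofNat (nat_lit 697297)⟩, ⟨.ofNat (nat_lit 0), .ofNat (nat_lit 299999), .ofNat (nat_lit 0), .ofNat (nat_lit 342856), .ofNat (nat_lit 0), .ofNat (nat_lit 302621), .ofNat (nat_lit 0), .ofNat (nat_lit 345754)⟩⟩, []⟩
noncomputable def p074_l158 : Lf2 := ⟨nat_lit 1, nat_lit 26, [nat_lit 108, nat_lit 5, nat_lit 5, nat_lit 20], false, nat_lit 0, nat_lit 160, nat_lit 0, nat_lit 336, zbN0,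
 nat_lit 0, nat_lit 0, nat_lit 0, nat_lit 0, nat_lit 0, nat_lit 0, nat_lit 0, nat_lit 0, nat_lit 0, nat_lit 0, nat_lit 0, nat_lit 0, nat_lit 0, nat_lit 0, nat_lit 0, nat_lit 0, nat_lit 0, nat_lit 0, [],
 C1.Rw.none, C1.Rw.none,
 zbF0, []⟩
noncomputable def p074_l159 : Lf2 := ⟨nat_lit 0, nat_lit 26, [nat_lit 108, nat_lit 5, nat_lit 5, nat_lit 20], false, nat_lit 0, nat_lit 160, nat_lit 0, nat_lit 336, ⟨nat_lit 1000, nat_lit 0, nat_lit 0, nat_lit 0, nat_lit 0, nat_lit 0, nat_lit 0, nat_lit 0, nat_lit 0, nat_lit 0, nat_lit 0, nat_lit 0, nat_lit 0, nat_lit 0, nat_lit 0, nat_lit 0, false, false⟩,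
 nat_lit 0, nat_lit 9582, nat_lit 0, nat_lit 4652, nat_lit 6633, nat_lit 8441, nat_lit 678, nat_lit 0, nat_lit 0, nat_lit 590, nat_lit 0, nat_lit 0, nat_lit 0, nat_lit 6766832790299, nat_lit 0, nat_lit 0, nat_lit 0, nat_lit 0, [],
 ⟨p074_k41, nat_lit 0, nat_lit 0, nat_lit 336, nat_lit 0, nat_lit 149386, [nat_lit 3282000000, nat_lit 7968000001, nat_lit 11872000000], [], [nat_lit 31831078237, nat_lit 32731977197, nat_lit 38807808942, nat_lit 39831443548, nat_lit 27287725813, nat_lit 28044467373, nat_lit 33562694424, nat_lit 34126091486], nat_lit 1271250, nat_lit 1271250, nat_lit 1271250, nat_lit 1271250, nat_lit 0, nat_lit 1100001, [nat_lit 780000, nat_lit 1762500, nat_lit 1271250], [nat_lit 79, nat_lit 40, nat_lit 40, nat_lit 80, nat_lit 14, nat_lit 456, nat_lit 225, nat_lit 11]⟩, ⟨p074_k42, nat_lit 0, nat_lit 0, nat_lit 277, nat_lit 0, nat_lit 0, [nat_lit 3282000000, nat_lit 7968000000, nat_lit 14058000000], [],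 [nat_lit 35593823316, nat_lit 37314381012, nat_lit 43595058060, nat_lit 44894415388, nat_lit 31516283667, nat_lit 32331828296, nat_lit 37132753064, nat_lit 38584475267], nat_lit 0, nat_lit 0, nat_lit 0, nat_lit 0, nat_lit 0, nat_lit 0, [], [nat_lit 84, nat_lit 40, nat_lit 40, nat_lit 80, nat_lit 28, nat_lit 538, nat_lit 300, nat_lit 12]⟩,
 zbF0, [⟨nat_lit 19, nat_lit 100, nat_lit 100, nat_lit 100, nat_lit 95556520⟩]⟩
noncomputable def p074_l160 : Lf2 := ⟨nat_lit 1, nat_lit 26, [nat_lit 108, nat_lit 5, nat_lit 5, nat_lit 20], false, nat_lit 160, nat_lit 336, nat_lit 0, nat_lit 336, zbN0,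
 nat_lit 0, nat_lit 0, nat_lit 0, nat_lit 0, nat_lit 0, nat_lit 0, nat_lit 0, nat_lit 0, nat_lit 0, nat_lit 0, nat_lit 0, nat_lit 0, nat_lit 0, nat_lit 0, nat_lit 0, nat_lit 0, nat_lit 0, nat_lit 0, [],
 C1.Rw.none, C1.Rw.none,
 zbF0, []⟩
noncomputable def p074_l161 : Lf2 := ⟨nat_lit 0, nat_lit 26, [nat_lit 108, nat_lit 5, nat_lit 5, nat_lit 20], false, nat_lit 160, nat_lit 320, nat_lit 0, nat_lit 160, ⟨nat_lit 1000, nat_lit 0, nat_lit 0, nat_lit 0, nat_lit 0, nat_lit 0, nat_lit 0, nat_lit 0, nat_lit 0, nat_lit 0, nat_lit 0, nat_lit 0, nat_lit 0, nat_lit 0, nat_lit 0, nat_lit 0, false, false⟩,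
 nat_lit 0, nat_lit 12179, nat_lit 0, nat_lit 14166, nat_lit 8431, nat_lit 6229, nat_lit 897, nat_lit 0, nat_lit 0, nat_lit 1225, nat_lit 0, nat_lit 0, nat_lit 0, nat_lit 20224210246609, nat_lit 0, nat_lit 0, nat_lit 0, nat_lit 0, [],
 ⟨p074_k38, nat_lit 0, nat_lit 0, nat_lit 195, nat_lit 0, nat_lit 149386, [nat_lit 3282000000, nat_lit 6250000000, nat_lit 11872000000], [], [nat_lit 21747111908, nat_lit 21923156875, nat_lit 21559739527, nat_lit 22764048353, nat_lit 26343399047, nat_lit 27378160619, nat_lit 29584476603, nat_lit 28217178128], nat_lit 1271250, nat_lit 1271250, nat_lit 631250, nat_lit 1751250, nat_lit 1100001, nat_lit 2470000, [nat_lit 780000, nat_lit 1435000, nat_lit 1271250], [nat_lit 23, nat_lit 40, nat_lit 40, nat_lit 80, nat_lit 12, nat_lit 456, nat_lit 225, nat_lit 11]⟩, ⟨p074_k38, nat_lit 0, nat_lit 0, nat_lit 230, nat_lit 0, nat_lit 0, [nat_lit 3282000000, nat_lit 6250000000, nat_lit 11872000000],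 [], [nat_lit 22159976650, nat_lit 23729417105, nat_lit 24045970657, nat_lit 25263446577, nat_lit 17709579733, nat_lit 19042102375, nat_lit 19446980443, nat_lit 20839102999], nat_lit 0, nat_lit 0, nat_lit 0, nat_lit 0, nat_lit 0, nat_lit 0, [], [nat_lit 23, nat_lit 40, nat_lit 40, nat_lit 80, nat_lit 12, nat_lit 428, nat_lit 200, nat_lit 11]⟩,
 zbF0, [⟨nat_lit 0, nat_lit 83, nat_lit 83, nat_lit 100, nat_lit 581684804⟩, ⟨nat_lit 4, nat_lit 100, nat_lit 93, nat_lit 97, nat_lit 437836214⟩]⟩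
noncomputable def p074_l162 : Lf2 := ⟨nat_lit 0, nat_lit 26, [nat_lit 108, nat_lit 5, nat_lit 5, nat_lit 20], false, nat_lit 160, nat_lit 320, nat_lit 160, nat_lit 320, ⟨nat_lit 1000, nat_lit 0, nat_lit 0, nat_lit 0, nat_lit 0, nat_lit 0, nat_lit 0, nat_lit 0, nat_lit 0, nat_lit 0, nat_lit 0, nat_lit 0, nat_lit 0, nat_lit 0, nat_lit 0, nat_lit 0, false, false⟩,
 nat_lit 0, nat_lit 10104, nat_lit 0, nat_lit 26292, nat_lit 6995, nat_lit 4822, nat_lit 1039, nat_lit 0, nat_lit 0, nat_lit 0, nat_lit 0, nat_lit 0, nat_lit 0, nat_lit 18508785373336, nat_lit 0, nat_lit 0, nat_lit 0, nat_lit 0, [],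
 ⟨p074_k38, nat_lit 0, nat_lit 0, nat_lit 195, nat_lit 0, nat_lit 149386, [nat_lit 3282000000, nat_lit 6250000000, nat_lit 11872000000], [], [nat_lit 22567544660, nat_lit 20837694625, nat_lit 20975309165, nat_lit 22068979935, nat_lit 25102831565, nat_lit 26052277505, nat_lit 30532121685, nat_lit 27364729725], nat_lit 1271250, nat_lit 1271250, nat_lit 631250, nat_lit 1751250, nat_lit 1100001, nat_lit 2470000, [nat_lit 780000, nat_lit 1435000, nat_lit 1271250], [nat_lit 23, nat_lit 40, nat_lit 40, nat_lit 80, nat_lit 12, nat_lit 456, nat_lit 225, nat_lit 11]⟩, ⟨p074_k38, nat_lit 0, nat_lit 0, nat_lit 70, nat_lit 0, nat_lit 0, [nat_lit 3282000000, nat_lit 6250000000, nat_lit 11872000000], [], [nat_lit 14459197958, nat_lit 16279077928, nat_lit 18625298704, nat_lit 20038018720, nat_lit 22892995982, nat_lit 24134999860, nat_lit 25130279860, nat_lit 26111871592], nat_lit 0, nat_lit 0, nat_lit 0, nat_lit 0, nat_lit 0, nat_lit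 0, [], [nat_lit 23, nat_lit 40, nat_lit 40, nat_lit 80, nat_lit 12, nat_lit 456, nat_lit 225, nat_lit 11]⟩,
 zbF0, [⟨nat_lit 0, nat_lit 83, nat_lit 83, nat_lit 100, nat_lit 455620513⟩, ⟨nat_lit 16, nat_lit 93, nat_lit 100, nat_lit 97, nat_lit 429505743⟩, ⟨nat_lit 7, nat_lit 100, nat_lit 93, nat_lit 97, nat_lit 521008023⟩]⟩
noncomputable def p074_l163 : Lf2 := ⟨nat_lit 1, nat_lit 26, [nat_lit 108, nat_lit 5, nat_lit 5, nat_lit 20], false, nat_lit 160, nat_lit 336, nat_lit 0, nat_lit 336, zbN0,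
 nat_lit 0, nat_lit 0, nat_lit 0, nat_lit 0, nat_lit 0, nat_lit 0, nat_lit 0, nat_lit 0, nat_lit 0, nat_lit 0, nat_lit 0, nat_lit 0, nat_lit 0, nat_lit 0, nat_lit 0, nat_lit 0, nat_lit 0, nat_lit 0, [],
 C1.Rw.none, C1.Rw.none,
 zbF0, []⟩
noncomputable def p074_l164 : Lf2 := ⟨nat_lit 0, nat_lit 26, [nat_lit 108, nat_lit 5, nat_lit 5, nat_lit 20], false, nat_lit 160, nat_lit 320, nat_lit 0, nat_lit 320, ⟨nat_lit 1000, nat_lit 0, nat_lit 0, nat_lit 0, nat_lit 0, nat_lit 0, nat_lit 0, nat_lit 0, nat_lit 0, nat_lit 0, nat_lit 0, nat_lit 0, nat_lit 0, nat_lit 0, nat_lit 0, nat_lit 0, false, false⟩,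
 nat_lit 0, nat_lit 10258, nat_lit 0, nat_lit 9242, nat_lit 7101, nat_lit 8067, nat_lit 694, nat_lit 0, nat_lit 0, nat_lit 439, nat_lit 0, nat_lit 0, nat_lit 0, nat_lit 0, nat_lit 0, nat_lit 0, nat_lit 0, nat_lit 0, [],
 ⟨p074_k41, nat_lit 0, nat_lit 0, nat_lit 199, nat_lit 0, nat_lit 149386, [nat_lit 3282000000, nat_lit 7968000001, nat_lit 11872000000], [], [nat_lit 23941910292, nat_lit 25043747938, nat_lit 32016333795, nat_lit 32825755123, nat_lit 28058839858, nat_lit 28790678702, nat_lit 35420089756, nat_lit 36155033112], nat_lit 1271250, nat_lit 1271250, nat_lit 1271250, nat_lit 1271250, nat_lit 1100001, nat_lit 2470000, [nat_lit 780000, nat_lit 1762500, nat_lit 1271250], [nat_lit 79, nat_lit 40, nat_lit 40, nat_lit 80, nat_lit 14, nat_lit 538, nat_lit 300, nat_lit 13]⟩, ⟨p074_k41, nat_lit 0, nat_lit 0, nat_lit 252, nat_lit 0, nat_lit 0, [nat_lit 3282000000, nat_lit 7968000000, nat_lit 11872000000], [], [nat_lit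 34331329414, nat_lit 35314138454, nat_lit 43081134077, nat_lit 43846753729, nat_lit 30786967800, nat_lit 31307380686, nat_lit 36538868452, nat_lit 37304488104], nat_lit 0, nat_lit 0, nat_lit 0, nat_lit 0, nat_lit 0, nat_lit 0, [], [nat_lit 79, nat_lit 40, nat_lit 40, nat_lit 80, nat_lit 14, nat_lit 538, nat_lit 300, nat_lit 13]⟩,
 zbF0, [⟨nat_lit 4, nat_lit 100, nat_lit 93, nat_lit 97, nat_lit 364194280⟩, ⟨nat_lit 19, nat_lit 93, nat_lit 100, nat_lit 97, nat_lit 92360960⟩]⟩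
noncomputable def p074_l165 : Lf2 := ⟨nat_lit 1, nat_lit 26, [nat_lit 108, nat_lit 5, nat_lit 5, nat_lit 20], false, nat_lit 0, nat_lit 160, nat_lit 0, nat_lit 336, zbN0,
 nat_lit 0, nat_lit 0, nat_lit 0, nat_lit 0, nat_lit 0, nat_lit 0, nat_lit 0, nat_lit 0, nat_lit 0, nat_lit 0, nat_lit 0, nat_lit 0, nat_lit 0, nat_lit 0, nat_lit 0, nat_lit 0, nat_lit 0, nat_lit 0, [],
 C1.Rw.none, C1.Rw.none,
 zbF0, []⟩
noncomputable def p074_l166 : Lf2 := ⟨nat_lit 0, nat_lit 26, [nat_lit 108, nat_lit 5, nat_lit 5, nat_lit 20], true, nat_lit 0, nat_lit 160, nat_lit 0, nat_lit 336, ⟨nat_lit 0, nat_lit 1000, nat_lit 0, nat_lit 7, nat_lit 215, nat_lit 1000, nat_lit 65, nat_lit 0, nat_lit 0, nat_lit 0, nat_lit 0, nat_lit 0, nat_lit 0, nat_lit 0, nat_lit 0, nat_lit 5000000, false, false⟩,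
 nat_lit 0, nat_lit 6853, nat_lit 0, nat_lit 1972, nat_lit 4744, nat_lit 0, nat_lit 0, nat_lit 0, nat_lit 0, nat_lit 0, nat_lit 0, nat_lit 0, nat_lit 0, nat_lit 25148767234297, nat_lit 31, nat_lit 632800, nat_lit 0, nat_lit 0, [(nat_lit 17, [(nat_lit 1, nat_lit 612), (nat_lit 2, nat_lit 388)])],
 ⟨p074_k41, nat_lit 0, nat_lit 0, nat_lit 371, nat_lit 0, nat_lit 149386, [nat_lit 2713191201, nat_lit 2136693201, nat_lit 170071599], [], [nat_lit 28454660290, nat_lit 25946327218, nat_lit 24154571248, nat_lit 25204109871, nat_lit 20523609729, nat_lit 21308701569, nat_lit 26034938050, nat_lit 23886816898], nat_lit 1271250, nat_lit 1271250, nat_lit 490000, nat_lit 1740000, nat_lit 0, nat_lit 1100001, [nat_lit 780000, nat_lit 1762500, nat_lit 1271250], [nat_lit 79, nat_lit 40, nat_lit 40, nat_lit 80, nat_lit 14, nat_lit 428, nat_lit 200, nat_lit 11]⟩, C1.Rw.none,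
 ⟨nat_lit 4472, nat_lit 5000, ⟨.ofNat (nat_lit 371392), .ofNat (nat_lit 657088), .ofNat (nat_lit 414225), .ofNat (nat_lit 699920), .ofNat (nat_lit 382295), .ofNat (nat_lit 654189), .ofNat (nat_lit 425403), .ofNat (nat_lit 697297)⟩, ⟨.ofNat (nat_lit 0), .ofNat (nat_lit 299999), .ofNat (nat_lit 0), .ofNat (nat_lit 342856), .ofNat (nat_lit 0), .ofNat (nat_lit 302621), .ofNat (nat_lit 0), .ofNat (nat_lit 345754)⟩⟩, []⟩
noncomputable def p074_l167 : Lf2 := ⟨nat_lit 1, nat_lit 26, [nat_lit 108, nat_lit 5, nat_lit 5, nat_lit 20], false, nat_lit 160, nat_lit 336, nat_lit 0, nat_lit 336, zbN0,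
 nat_lit 0, nat_lit 0, nat_lit 0, nat_lit 0, nat_lit 0, nat_lit 0, nat_lit 0, nat_lit 0, nat_lit 0, nat_lit 0, nat_lit 0, nat_lit 0, nat_lit 0, nat_lit 0, nat_lit 0, nat_lit 0, nat_lit 0, nat_lit 0, [],
 C1.Rw.none, C1.Rw.none,
 zbF0, []⟩
noncomputable def p074_l168 : Lf2 := ⟨nat_lit 1, nat_lit 26, [nat_lit 108, nat_lit 5, nat_lit 5, nat_lit 20], false, nat_lit 160, nat_lit 320, nat_lit 0, nat_lit 320, zbN0,
 nat_lit 0, nat_lit 0, nat_lit 0, nat_lit 0, nat_lit 0, nat_lit 0, nat_lit 0, nat_lit 0, nat_lit 0, nat_lit 0, nat_lit 0, nat_lit 0, nat_lit 0, nat_lit 0, nat_lit 0, nat_lit 0, nat_lit 0, nat_lit 0, [],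
 C1.Rw.none, C1.Rw.none,
 zbF0, []⟩
noncomputable def p074_l169 : Lf2 := ⟨nat_lit 0, nat_lit 26, [nat_lit 108, nat_lit 5, nat_lit 5, nat_lit 20], false, nat_lit 160, nat_lit 312, nat_lit 0, nat_lit 320, ⟨nat_lit 24, nat_lit 976, nat_lit 0, nat_lit 7, nat_lit 229, nat_lit 976, nat_lit 182, nat_lit 0, nat_lit 0, nat_lit 0, nat_lit 0, nat_lit 0, nat_lit 0, nat_lit 0, nat_lit 0, nat_lit 5000000, false, false⟩,
 nat_lit 538, nat_lit 10089, nat_lit 0, nat_lit 0, nat_lit 7661, nat_lit 372, nat_lit 115, nat_lit 0, nat_lit 0, nat_lit 0, nat_lit 0, nat_lit 0, nat_lit 0, nat_lit 18150323466515, nat_lit 0, nat_lit 244000, nat_lit 0, nat_lit 0, [(nat_lit 17, [(nat_lit 0, nat_lit 976)])],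
 ⟨p074_k39, nat_lit 0, nat_lit 0, nat_lit 169, nat_lit 0, nat_lit 84171, [nat_lit 2357923200, nat_lit 2882409600, nat_lit 3866697600], [], [nat_lit 21814025371, nat_lit 22554633765, nat_lit 23195283615, nat_lit 23767775318, nat_lit 26965194135, nat_lit 27467819836, nat_lit 26865486245, nat_lit 27260813271], nat_lit 1271250, nat_lit 1271250, nat_lit 689850, nat_lit 1755750, nat_lit 1100001, nat_lit 2401500, [nat_lit 780000, nat_lit 1435000, nat_lit 1271250], [nat_lit 23, nat_lit 40, nat_lit 40, nat_lit 80, nat_lit 12, nat_lit 456, nat_lit 225, nat_lit 11]⟩, ⟨p074_k38, nat_lit 0, nat_lit 0, nat_lit 332, nat_lit 0, nat_lit 88703, [nat_lit 78768000, nat_lit 150000000, nat_lit 284928000], [], [nat_lit 1197875674, nat_lit 1075754026, nat_lit 1011833184, nat_lit 1062964800, nat_lit 817426157, nat_lit 851897717, nat_lit 747586944, nat_lit 778036800], nat_lit 1271250, nat_lit 1271250, nat_lit 689850, nat_lit 1755750, nat_lit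 0, nat_lit 2260000, [nat_lit 780000, nat_lit 1435000, nat_lit 1271250], [nat_lit 23, nat_lit 40, nat_lit 40, nat_lit 80, nat_lit 12, nat_lit 456, nat_lit 225, nat_lit 12]⟩,
 ⟨nat_lit 4472, nat_lit 4744, ⟨.ofNat (nat_lit 447115), .ofNat (nat_lit 677123), .ofNat (nat_lit 468600), .ofNat (nat_lit 698608), .ofNat (nat_lit 451467), .ofNat (nat_lit 675793), .ofNat (nat_lit 473029), .ofNat (nat_lit 697356)⟩, ⟨.ofNat (nat_lit 301370), .ofNat (nat_lit 566229), .ofNat (nat_lit 344346), .ofNat (nat_lit 609205), .ofNat (nat_lit 302621), .ofNat (nat_lit 560938), .ofNat (nat_lit 345754), .ofNat (nat_lit 604071)⟩⟩, [⟨nat_lit 4, nat_lit 100, nat_lit 90, nat_lit 95, nat_lit 242112182⟩]⟩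
noncomputable def p074_l170 : Lf2 := ⟨nat_lit 1, nat_lit 26, [nat_lit 108, nat_lit 5, nat_lit 5, nat_lit 20], false, nat_lit 0, nat_lit 336, nat_lit 0, nat_lit 336, zbN0,
 nat_lit 0, nat_lit 0, nat_lit 0, nat_lit 0, nat_lit 0, nat_lit 0, nat_lit 0, nat_lit 0, nat_lit 0, nat_lit 0, nat_lit 0, nat_lit 0, nat_lit 0, nat_lit 0, nat_lit 0, nat_lit 0, nat_lit 0, nat_lit 0, [],
 C1.Rw.none, C1.Rw.none,
 zbF0, []⟩
noncomputable def p074_l171 : Lf2 := ⟨nat_lit 1, nat_lit 26, [nat_lit 108, nat_lit 5, nat_lit 5, nat_lit 20], false, nat_lit 0, nat_lit 320, nat_lit 0, nat_lit 320, zbN0,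
 nat_lit 0, nat_lit 0, nat_lit 0, nat_lit 0, nat_lit 0, nat_lit 0, nat_lit 0, nat_lit 0, nat_lit 0, nat_lit 0, nat_lit 0, nat_lit 0, nat_lit 0, nat_lit 0, nat_lit 0, nat_lit 0, nat_lit 0, nat_lit 0, [],
 C1.Rw.none, C1.Rw.none,
 zbF0, []⟩
noncomputable def p074_l172 : Lf2 := ⟨nat_lit 0, nat_lit 26, [nat_lit 108, nat_lit 5, nat_lit 5, nat_lit 20], false, nat_lit 0, nat_lit 312, nat_lit 0, nat_lit 320, ⟨nat_lit 1000, nat_lit 0, nat_lit 0, nat_lit 0, nat_lit 0, nat_lit 0, nat_lit 0, nat_lit 0, nat_lit 0, nat_lit 0, nat_lit 0, nat_lit 0, nat_lit 0, nat_lit 0, nat_lit 0, nat_lit 0, false, false⟩,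
 nat_lit 11653, nat_lit 0, nat_lit 0, nat_lit 5621, nat_lit 7030, nat_lit 8067, nat_lit 647, nat_lit 0, nat_lit 0, nat_lit 439, nat_lit 0, nat_lit 0, nat_lit 0, nat_lit 12798618450495, nat_lit 0, nat_lit 0, nat_lit 0, nat_lit 0, [],
 ⟨p074_k40, nat_lit 0, nat_lit 0, nat_lit 278, nat_lit 0, nat_lit 84171, [nat_lit 3282000000, nat_lit 7968000001, nat_lit 11872000000], [], [nat_lit 30856450311, nat_lit 31318238111, nat_lit 40310045130, nat_lit 40942152680, nat_lit 28133576877, nat_lit 28451504550, nat_lit 35438252492, nat_lit 35814883032], nat_lit 1271250, nat_lit 1271250, nat_lit 1271250, nat_lit 1271250, nat_lit 0, nat_lit 2203500, [nat_lit 780000, nat_lit 1762500, nat_lit 1271250], [nat_lit 79, nat_lit 40, nat_lit 40, nat_lit 80, nat_lit 14, nat_lit 538, nat_lit 300, nat_lit 13]⟩, ⟨p074_k41, nat_lit 0, nat_lit 0, nat_lit 280, nat_lit 0, nat_lit 88703, [nat_lit 3282000000, nat_lit 7968000000, nat_lit 11872000000],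 [], [nat_lit 34331329414, nat_lit 35314138454, nat_lit 43081134077, nat_lit 43846753729, nat_lit 30786967800, nat_lit 31307380686, nat_lit 36538868452, nat_lit 37304488104], nat_lit 1271250, nat_lit 1271250, nat_lit 1271250, nat_lit 1271250, nat_lit 0, nat_lit 2260000, [nat_lit 780000, nat_lit 1762500, nat_lit 1271250], [nat_lit 79, nat_lit 40, nat_lit 40, nat_lit 80, nat_lit 14, nat_lit 538, nat_lit 300, nat_lit 13]⟩,
 zbF0, [⟨nat_lit 16, nat_lit 90, nat_lit 100, nat_lit 95, nat_lit 118562699⟩, ⟨nat_lit 7, nat_lit 100, nat_lit 93, nat_lit 97, nat_lit 92360960⟩]⟩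
noncomputable def b_V_700_700_20_73 : St := ⟨true, nat_lit 1, nat_lit 2, nat_lit 0, nat_lit 120, nat_lit 280, nat_lit 320, nat_lit 280, nat_lit 320, nat_lit 64, nat_lit 400, nat_lit 80, nat_lit 120, nat_lit 0, nat_lit 336, nat_lit 0, nat_lit 336, nat_lit 80, nat_lit 104, nat_lit 0, nat_lit 0, nat_lit 0, nat_lit 0⟩
theorem d_V_700_700_20_73 (h : EB TB.env) : Dead b_V_700_700_20_73 := chkB_sound0 h (T :=
(.gv
(.st (nat_lit 1)
(.spl (nat_lit 1) (nat_lit 300)
(.leaf p074_l141)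
(.ord (.trZ (nat_lit 0) (nat_lit 100) (nat_lit 100) (nat_lit 100) (nat_lit 100) (.trX (nat_lit 16) (nat_lit 94) (nat_lit 88) (nat_lit 100) (nat_lit 320) (.trX (nat_lit 19) (nat_lit 94) (nat_lit 88) (nat_lit 100) (nat_lit 320) (.spl (nat_lit 5) (nat_lit 160)
(.spl (nat_lit 4) (nat_lit 160)
(.leaf p074_l142)
(.spl (nat_lit 0) (nat_lit 310)
(.ord (.leaf p074_l143))
(.trZ (nat_lit 0) (nat_lit 97) (nat_lit 93) (nat_lit 100) (nat_lit 108) (.trX (nat_lit 16) (nat_lit 91) (nat_lit 91) (nat_lit 100) (nat_lit 312) (.leaf p074_l144)))))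
(.spl (nat_lit 2) (nat_lit 240)
(.leaf p074_l145)
(.leaf p074_l146))))))))
(.spl (nat_lit 1) (nat_lit 300)
(.leaf p074_l147)
(.ord (.trZ (nat_lit 0) (nat_lit 100) (nat_lit 100) (nat_lit 100) (nat_lit 100) (.trX (nat_lit 16) (nat_lit 94) (nat_lit 88) (nat_lit 100) (nat_lit 320) (.trX (nat_lit 19) (nat_lit 94) (nat_lit 88) (nat_lit 100) (nat_lit 320) (.spl (nat_lit 2) (nat_lit 240)
(.spl (nat_lit 0) (nat_lit 310)
(.ord (.leaf p074_l148))
(.trZ (nat_lit 0) (nat_lit 97) (nat_lit 93) (nat_lit 100) (nat_lit 108) (.trX (nat_lit 16) (nat_lit 91) (nat_lit 91) (nat_lit 100) (nat_lit 312) (.spl (nat_lit 3) (nat_lit 100)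
(.trX (nat_lit 16) (nat_lit 93) (nat_lit 100) (nat_lit 97) (nat_lit 292) (.trX (nat_lit 19) (nat_lit 100) (nat_lit 100) (nat_lit 100) (nat_lit 300) (.spl (nat_lit 5) (nat_lit 160)
(.leaf p074_l149)
(.spl (nat_lit 1) (nat_lit 310)
(.leaf p074_l150)
(.trZ (nat_lit 0) (nat_lit 91) (nat_lit 91) (nat_lit 100) (nat_lit 120) (.trX (nat_lit 19) (nat_lit 93) (nat_lit 100) (nat_lit 97) (nat_lit 292) (.leaf p074_l151)))))))
(.spl (nat_lit 6) (nat_lit 84)
(.leaf p074_l152)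
(.leaf p074_l153))))))
(.spl (nat_lit 0) (nat_lit 310)
(.ord (.leaf p074_l154))
(.trX (nat_lit 16) (nat_lit 91) (nat_lit 91) (nat_lit 100) (nat_lit 312) (.leaf p074_l155))))))))))
(.st (nat_lit 1)
(.spl (nat_lit 4) (nat_lit 160)
(.spl (nat_lit 2) (nat_lit 240)
(.spl (nat_lit 0) (nat_lit 300)
(.ord (.leaf p074_l156))
(.trZ (nat_lit 0) (nat_lit 100) (nat_lit 94) (nat_lit 88) (nat_lit 80) (.leaf p074_l157)))
(.spl (nat_lit 0) (nat_lit 300)
(.ord (.leaf p074_l158))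
(.leaf p074_l159)))
(.spl (nat_lit 2) (nat_lit 240)
(.spl (nat_lit 1) (nat_lit 300)
(.leaf p074_l160)
(.ord (.trZ (nat_lit 0) (nat_lit 100) (nat_lit 100) (nat_lit 100) (nat_lit 100) (.trX (nat_lit 16) (nat_lit 94) (nat_lit 88) (nat_lit 100) (nat_lit 320) (.trX (nat_lit 19) (nat_lit 94) (nat_lit 88) (nat_lit 100) (nat_lit 320) (.spl (nat_lit 5) (nat_lit 160)
(.leaf p074_l161)
(.leaf p074_l162)))))))
(.spl (nat_lit 1) (nat_lit 300)
(.leaf p074_l163)
(.ord (.trX (nat_lit 16) (nat_lit 94) (nat_lit 88) (nat_lit 100) (nat_lit 320) (.trX (nat_lit 19) (nat_lit 94) (nat_lit 88) (nat_lit 100) (nat_lit 320) (.leaf p074_l164)))))))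
(.spl (nat_lit 2) (nat_lit 240)
(.spl (nat_lit 4) (nat_lit 160)
(.spl (nat_lit 0) (nat_lit 300)
(.ord (.leaf p074_l165))
(.trZ (nat_lit 0) (nat_lit 100) (nat_lit 94) (nat_lit 88) (nat_lit 80) (.leaf p074_l166)))
(.spl (nat_lit 1) (nat_lit 300)
(.leaf p074_l167)
(.ord (.trZ (nat_lit 0) (nat_lit 100) (nat_lit 100) (nat_lit 100) (nat_lit 100) (.trX (nat_lit 16) (nat_lit 94) (nat_lit 88) (nat_lit 100) (nat_lit 320) (.trX (nat_lit 19) (nat_lit 94) (nat_lit 88) (nat_lit 100) (nat_lit 320) (.spl (nat_lit 0) (nat_lit 310)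
(.ord (.leaf p074_l168))
(.trZ (nat_lit 0) (nat_lit 97) (nat_lit 93) (nat_lit 100) (nat_lit 108) (.trX (nat_lit 16) (nat_lit 91) (nat_lit 91) (nat_lit 100) (nat_lit 312) (.leaf p074_l169))))))))))
(.spl (nat_lit 1) (nat_lit 300)
(.leaf p074_l170)
(.ord (.trX (nat_lit 16) (nat_lit 94) (nat_lit 88) (nat_lit 100) (nat_lit 320) (.trX (nat_lit 19) (nat_lit 94) (nat_lit 88) (nat_lit 100) (nat_lit 320) (.spl (nat_lit 0) (nat_lit 310)
(.ord (.leaf p074_l171))
(.trX (nat_lit 16) (nat_lit 91) (nat_lit 91) (nat_lit 100) (nat_lit 312) (.leaf p074_l172))))))))))) (by decide +kernel)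

end B2
end Pool.Agent.Lib.MP_6947cd_al
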