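import Pool.Agent.Lib.MP_6947cd_al.ZB.Pre

/-!
Problem MP_6947cd_al (Chollet).  Case B, second entry in [2/5, 17/20]: certificates of the tree, part P075 (generated).
-/

set_option autoImplicit false
set_option linter.all false

namespace Pool.Agent.Lib.MP_6947cd_al
namespace B2

open Ent Fr B1 PkA

noncomputable def p075_k0 : C1.Kn := ⟨[nat_lit 40, nat_lit 100], [nat_lit 0, nat_lit 0], [(nat_lit 0, nat_lit 0, nat_lit 0), (nat_lit 0, nat_lit 0, nat_lit 0)], (nat_lit 80, nat_lit 100, nat_lit 60)⟩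
noncomputable def p075_k1 : C1.Kn := ⟨[nat_lit 120, nat_lit 180], [nat_lit 0, nat_lit 0], [(nat_lit 0, nat_lit 0, nat_lit 0), (nat_lit 0, nat_lit 0, nat_lit 0)], (nat_lit 100, nat_lit 68, nat_lit 61)⟩
noncomputable def p075_k2 : C1.Kn := ⟨[nat_lit 40, nat_lit 60, nat_lit 100], [nat_lit 0, nat_lit 0, nat_lit 1216], [(nat_lit 0, nat_lit 0, nat_lit 0), (nat_lit 0, nat_lit 0, nat_lit 0), (nat_lit 1000, nat_lit 810, nat_lit 474)], (nat_lit 80, nat_lit 100, nat_lit 60)⟩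
noncomputable def p075_k3 : C1.Kn := ⟨[nat_lit 40, nat_lit 80, nat_lit 100], [nat_lit 0, nat_lit 0, nat_lit 1280], [(nat_lit 0, nat_lit 0, nat_lit 0), (nat_lit 0, nat_lit 0, nat_lit 0), (nat_lit 1000, nat_lit 800, nat_lit 600)], (nat_lit 80, nat_lit 100, nat_lit 60)⟩
noncomputable def p075_k4 : C1.Kn := ⟨[nat_lit 40, nat_lit 100], [nat_lit 0, nat_lit 592], [(nat_lit 0, nat_lit 0, nat_lit 0), (nat_lit 1000, nat_lit 908, nat_lit 154)], (nat_lit 76, nat_lit 100, nat_lit 60)⟩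
noncomputable def p075_k5 : C1.Kn := ⟨[nat_lit 40, nat_lit 100], [nat_lit 0, nat_lit 1192], [(nat_lit 0, nat_lit 0, nat_lit 0), (nat_lit 1000, nat_lit 814, nat_lit 310)], (nat_lit 72, nat_lit 100, nat_lit 61)⟩
noncomputable def p075_k6 : C1.Kn := ⟨[nat_lit 120, nat_lit 160, nat_lit 180], [nat_lit 0, nat_lit 0, nat_lit 1613], [(nat_lit 0, nat_lit 0, nat_lit 0), (nat_lit 0, nat_lit 0, nat_lit 0), (nat_lit 620, nat_lit 1000, nat_lit 670)], (nat_lit 100, nat_lit 68, nat_lit 61)⟩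
noncomputable def p075_k7 : C1.Kn := ⟨[nat_lit 40, nat_lit 80, nat_lit 100], [nat_lit 0, nat_lit 795, nat_lit 1829], [(nat_lit 0, nat_lit 0, nat_lit 0), (nat_lit 1000, nat_lit 814, nat_lit 310), (nat_lit 1000, nat_lit 714, nat_lit 692)], (nat_lit 72, nat_lit 100, nat_lit 61)⟩
noncomputable def p075_k8 : C1.Kn := ⟨[nat_lit 40, nat_lit 80, nat_lit 100], [nat_lit 0, nat_lit 395, nat_lit 1536], [(nat_lit 0, nat_lit 0, nat_lit 0), (nat_lit 1000, nat_lit 908, nat_lit 154), (nat_lit 1000, nat_lit 760, nat_lit 642)], (nat_lit 76, nat_lit 100, nat_lit 60)⟩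
noncomputable def p075_k9 : C1.Kn := ⟨[nat_lit 40, nat_lit 80, nat_lit 100], [nat_lit 0, nat_lit 593, nat_lit 1677], [(nat_lit 0, nat_lit 0, nat_lit 0), (nat_lit 1000, nat_lit 861, nat_lit 231), (nat_lit 1000, nat_lit 738, nat_lit 662)], (nat_lit 74, nat_lit 100, nat_lit 60)⟩
noncomputable def p075_k10 : C1.Kn := ⟨[nat_lit 40, nat_lit 80], [nat_lit 0, nat_lit 1195], [(nat_lit 0, nat_lit 0, nat_lit 0), (nat_lit 1000, nat_lit 720, nat_lit 465)], (nat_lit 68, nat_lit 100, nat_lit 61)⟩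
noncomputable def p075_k11 : C1.Kn := ⟨[nat_lit 120, nat_lit 160, nat_lit 180], [nat_lit 0, nat_lit 533, nat_lit 2066], [(nat_lit 0, nat_lit 0, nat_lit 0), (nat_lit 960, nat_lit 1000, nat_lit 200), (nat_lit 615, nat_lit 1000, nat_lit 729)], (nat_lit 100, nat_lit 74, nat_lit 60)⟩
noncomputable def p075_k12 : C1.Kn := ⟨[nat_lit 40, nat_lit 80], [nat_lit 0, nat_lit 1399], [(nat_lit 0, nat_lit 0, nat_lit 0), (nat_lit 1000, nat_lit 672, nat_lit 546)], (nat_lit 65, nat_lit 100, nat_lit 62)⟩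
noncomputable def p075_k13 : C1.Kn := ⟨[nat_lit 40, nat_lit 140], [nat_lit 0, nat_lit 0], [(nat_lit 0, nat_lit 0, nat_lit 0), (nat_lit 0, nat_lit 0, nat_lit 0)], (nat_lit 83, nat_lit 100, nat_lit 83)⟩
noncomputable def p075_k14 : C1.Kn := ⟨[nat_lit 40, nat_lit 80, nat_lit 140], [nat_lit 0, nat_lit 0, nat_lit 3199], [(nat_lit 0, nat_lit 0, nat_lit 0), (nat_lit 0, nat_lit 0, nat_lit 0), (nat_lit 1000, nat_lit 833, nat_lit 833)], (nat_lit 83, nat_lit 100, nat_lit 83)⟩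
noncomputable def p075_k15 : C1.Kn := ⟨[nat_lit 120, nat_lit 160, nat_lit 200], [nat_lit 0, nat_lit 0, nat_lit 3198], [(nat_lit 0, nat_lit 0, nat_lit 0), (nat_lit 0, nat_lit 0, nat_lit 0), (nat_lit 572, nat_lit 1000, nat_lit 714)], (nat_lit 0, nat_lit 0, nat_lit 0)⟩
noncomputable def p075_k16 : C1.Kn := ⟨[nat_lit 40, nat_lit 100, nat_lit 120], [nat_lit 0, nat_lit 0, nat_lit 2151], [(nat_lit 0, nat_lit 0, nat_lit 0), (nat_lit 0, nat_lit 0, nat_lit 0), (nat_lit 1000, nat_lit 815, nat_lit 753)], (nat_lit 81, nat_lit 100, nat_lit 72)⟩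
noncomputable def p075_k17 : C1.Kn := ⟨[nat_lit 40, nat_lit 100, nat_lit 120], [nat_lit 0, nat_lit 1192, nat_lit 2817], [(nat_lit 0, nat_lit 0, nat_lit 0), (nat_lit 1000, nat_lit 814, nat_lit 310), (nat_lit 1000, nat_lit 727, nat_lit 834)], (nat_lit 72, nat_lit 100, nat_lit 81)⟩
noncomputable def p075_k18 : C1.Kn := ⟨[nat_lit 40, nat_lit 120], [nat_lit 0, nat_lit 1589], [(nat_lit 0, nat_lit 0, nat_lit 0), (nat_lit 1000, nat_lit 814, nat_lit 310)], (nat_lit 72, nat_lit 100, nat_lit 81)⟩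
noncomputable def p075_k19 : C1.Kn := ⟨[nat_lit 40, nat_lit 80, nat_lit 120], [nat_lit 0, nat_lit 0, nat_lit 2151], [(nat_lit 0, nat_lit 0, nat_lit 0), (nat_lit 0, nat_lit 0, nat_lit 0), (nat_lit 1000, nat_lit 815, nat_lit 753)], (nat_lit 81, nat_lit 100, nat_lit 72)⟩
noncomputable def p075_k20 : C1.Kn := ⟨[nat_lit 40, nat_lit 80, nat_lit 120], [nat_lit 0, nat_lit 395, nat_lit 2466], [(nat_lit 0, nat_lit 0, nat_lit 0), (nat_lit 1000, nat_lit 908, nat_lit 154), (nat_lit 1000, nat_lit 773, nat_lit 792)], (nat_lit 76, nat_lit 100, nat_lit 72)⟩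
noncomputable def p075_k21 : C1.Kn := ⟨[nat_lit 40, nat_lit 120], [nat_lit 0, nat_lit 1589], [(nat_lit 0, nat_lit 0, nat_lit 0), (nat_lit 1000, nat_lit 814, nat_lit 310)], (nat_lit 71, nat_lit 100, nat_lit 71)⟩
noncomputable def p075_k22 : C1.Kn := ⟨[nat_lit 40, nat_lit 80, nat_lit 120], [nat_lit 0, nat_lit 795, nat_lit 2800], [(nat_lit 0, nat_lit 0, nat_lit 0), (nat_lit 1000, nat_lit 814, nat_lit 310), (nat_lit 1000, nat_lit 719, nat_lit 783)], (nat_lit 72, nat_lit 100, nat_lit 81)⟩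
noncomputable def p075_k23 : C1.Kn := ⟨[nat_lit 40, nat_lit 80, nat_lit 120], [nat_lit 0, nat_lit 1195, nat_lit 3135], [(nat_lit 0, nat_lit 0, nat_lit 0), (nat_lit 1000, nat_lit 720, nat_lit 465), (nat_lit 1000, nat_lit 661, nat_lit 757)], (nat_lit 66, nat_lit 100, nat_lit 80)⟩
noncomputable def p075_k24 : C1.Kn := ⟨[nat_lit 120, nat_lit 160, nat_lit 200], [nat_lit 0, nat_lit 533, nat_lit 3597], [(nat_lit 0, nat_lit 0, nat_lit 0), (nat_lit 960, nat_lit 1000, nat_lit 200), (nat_lit 612, nat_lit 1000, nat_lit 732)], (nat_lit 0, nat_lit 0, nat_lit 0)⟩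
noncomputable def p075_k25 : C1.Kn := ⟨[nat_lit 120, nat_lit 160, nat_lit 180], [nat_lit 0, nat_lit 533, nat_lit 2066], [(nat_lit 0, nat_lit 0, nat_lit 0), (nat_lit 960, nat_lit 1000, nat_lit 200), (nat_lit 615, nat_lit 1000, nat_lit 729)], (nat_lit 100, nat_lit 63, nat_lit 72)⟩
noncomputable def p075_k26 : C1.Kn := ⟨[nat_lit 40, nat_lit 80, nat_lit 120], [nat_lit 0, nat_lit 795, nat_lit 2800], [(nat_lit 0, nat_lit 0, nat_lit 0), (nat_lit 1000, nat_lit 814, nat_lit 310), (nat_lit 1000, nat_lit 719, nat_lit 783)], (nat_lit 71, nat_lit 100, nat_lit 71)⟩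
noncomputable def p075_k27 : C1.Kn := ⟨[nat_lit 120, nat_lit 200], [nat_lit 0, nat_lit 0], [(nat_lit 0, nat_lit 0, nat_lit 0), (nat_lit 0, nat_lit 0, nat_lit 0)], (nat_lit 0, nat_lit 0, nat_lit 0)⟩
noncomputable def p075_k28 : C1.Kn := ⟨[nat_lit 40, nat_lit 80, nat_lit 140], [nat_lit 0, nat_lit 395, nat_lit 3500], [(nat_lit 0, nat_lit 0, nat_lit 0), (nat_lit 1000, nat_lit 908, nat_lit 154), (nat_lit 1000, nat_lit 776, nat_lit 808)], (nat_lit 78, nat_lit 100, nat_lit 82)⟩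
noncomputable def p075_k29 : C1.Kn := ⟨[nat_lit 120, nat_lit 160, nat_lit 200], [nat_lit 0, nat_lit 797, nat_lit 3800], [(nat_lit 0, nat_lit 0, nat_lit 0), (nat_lit 942, nat_lit 1000, nat_lit 293), (nat_lit 634, nat_lit 1000, nat_lit 743)], (nat_lit 0, nat_lit 0, nat_lit 0)⟩
noncomputable def p075_k30 : C1.Kn := ⟨[nat_lit 40, nat_lit 100, nat_lit 140], [nat_lit 0, nat_lit 0, nat_lit 3243], [(nat_lit 0, nat_lit 0, nat_lit 0), (nat_lit 0, nat_lit 0, nat_lit 0), (nat_lit 1000, nat_lit 870, nat_lit 941)], (nat_lit 83, nat_lit 100, nat_lit 83)⟩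
noncomputable def p075_k31 : C1.Kn := ⟨[nat_lit 120, nat_lit 180, nat_lit 200], [nat_lit 0, nat_lit 0, nat_lit 4246], [(nat_lit 0, nat_lit 0, nat_lit 0), (nat_lit 0, nat_lit 0, nat_lit 0), (nat_lit 279, nat_lit 1000, nat_lit 906)], (nat_lit 0, nat_lit 0, nat_lit 0)⟩
noncomputable def p075_l0 : Lf2 := ⟨nat_lit 0, nat_lit 10, [nat_lit 0, nat_lit 5, nat_lit 5, nat_lit 20], true, nat_lit 0, nat_lit 260, nat_lit 0, nat_lit 384, ⟨nat_lit 0, nat_lit 0, nat_lit 1000, nat_lit 4, nat_lit 119, nat_lit 1000, nat_lit 89, nat_lit 1000, nat_lit 72600, nat_lit 281, nat_lit 132017, nat_lit 304, nat_lit 61553016, nat_lit 0, nat_lit 0, nat_lit 1409640, false, false⟩,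
 nat_lit 0, nat_lit 0, nat_lit 0, nat_lit 1782, nat_lit 2794, nat_lit 0, nat_lit 0, nat_lit 0, nat_lit 0, nat_lit 0, nat_lit 0, nat_lit 0, nat_lit 0, nat_lit 0, nat_lit 76, nat_lit 400000, nat_lit 0, nat_lit 0, [(nat_lit 18, [(nat_lit 5, nat_lit 1000)]), (nat_lit 21, [(nat_lit 5, nat_lit 1000)])],
 ⟨p075_k0, nat_lit 0, nat_lit 0, nat_lit 214, nat_lit 0, nat_lit 0, [nat_lit 1693000001, nat_lit 251500000], [], [nat_lit 17445763644, nat_lit 21436539650, nat_lit 17390372787, nat_lit 20127273840, nat_lit 20628004510, nat_lit 23090993452, nat_lit 21507697324, nat_lit 23481289538], nat_lit 0, nat_lit 0, nat_lit 0, nat_lit 0, nat_lit 0, nat_lit 0, [], [nat_lit 69, nat_lit 40, nat_lit 40, nat_lit 80, nat_lit 64, nat_lit 345, nat_lit 125, nat_lit 14]⟩, C1.Rw.none,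
 ⟨nat_lit 3162, nat_lit 4473, ⟨.ofNat (nat_lit 143971), .ofNat (nat_lit 388887), .ofNat (nat_lit 186943), .ofNat (nat_lit 431944), .ofNat (nat_lit 175109), .ofNat (nat_lit 394735), .ofNat (nat_lit 219258), .ofNat (nat_lit 438969)⟩, ⟨.negSucc (nat_lit 12437), .ofNat (nat_lit 429433), .ofNat (nat_lit 0), .ofNat (nat_lit 472567), .ofNat (nat_lit 0), .ofNat (nat_lit 414188), .ofNat (nat_lit 0), .ofNat (nat_lit 458499)⟩⟩, [⟨nat_lit 0, nat_lit 100, nat_lit 72, nat_lit 63, nat_lit 61045841⟩]⟩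
noncomputable def p075_l1 : Lf2 := ⟨nat_lit 0, nat_lit 10, [nat_lit 0, nat_lit 5, nat_lit 5, nat_lit 20], false, nat_lit 0, nat_lit 160, nat_lit 0, nat_lit 384, ⟨nat_lit 273, nat_lit 0, nat_lit 727, nat_lit 4, nat_lit 230, nat_lit 727, nat_lit 57, nat_lit 727, nat_lit 29400, nat_lit 257, nat_lit 272572, nat_lit 200, nat_lit 50360231, nat_lit 0, nat_lit 0, nat_lit 2802601, false, true⟩,
 nat_lit 0, nat_lit 0, nat_lit 0, nat_lit 0, nat_lit 3351, nat_lit 2431, nat_lit 0, nat_lit 0, nat_lit 0, nat_lit 0, nat_lit 0, nat_lit 0, nat_lit 0, nat_lit 0, nat_lit 0, nat_lit 181750, nat_lit 0, nat_lit 0, [(nat_lit 18, [(nat_lit 4, nat_lit 727)]), (nat_lit 21, [(nat_lit 4, nat_lit 727)])],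
 ⟨p075_k0, nat_lit 0, nat_lit 0, nat_lit 163, nat_lit 0, nat_lit 0, [nat_lit 1637675200, nat_lit 1052240800], [], [nat_lit 20905123692, nat_lit 23191444320, nat_lit 27805101900, nat_lit 30185026272, nat_lit 20911797712, nat_lit 22860633136, nat_lit 26791439140, nat_lit 28141147672], nat_lit 0, nat_lit 0, nat_lit 0, nat_lit 0, nat_lit 0, nat_lit 0, [], [nat_lit 69, nat_lit 40, nat_lit 40, nat_lit 80, nat_lit 64, nat_lit 373, nat_lit 150, nat_lit 14]⟩, ⟨p075_k1, nat_lit 0, nat_lit 0, nat_lit 279, nat_lit 0, nat_lit 0, [nat_lit 2175264000, nat_lit 3837834000], [], [nat_lit 10853568908, nat_lit 11016525624, nat_lit 13180542128, nat_lit 13173672460, nat_lit 11343159496, nat_lit 11260199746, nat_lit 12353492040, nat_lit 12180372142], nat_lit 0, nat_lit 0, nat_lit 0, nat_lit 0, nat_lit 0, nat_lit 0, [], [nat_lit 121, nat_lit 40, nat_lit 40, nat_lit 80, nat_lit 28, nat_lit 483, nat_lit 250, nat_lit 11]⟩,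
 ⟨nat_lit 3162, nat_lit 4473, ⟨.ofNat (nat_lit 388887), .ofNat (nat_lit 728778), .ofNat (nat_lit 431944), .ofNat (nat_lit 771911), .ofNat (nat_lit 394735), .ofNat (nat_lit 699502), .ofNat (nat_lit 438969), .ofNat (nat_lit 743812)⟩, ⟨.negSucc (nat_lit 12437), .ofNat (nat_lit 259488), .ofNat (nat_lit 0), .ofNat (nat_lit 302621), .ofNat (nat_lit 0), .ofNat (nat_lit 261805), .ofNat (nat_lit 0), .ofNat (nat_lit 306116)⟩⟩, [⟨nat_lit 22, nat_lit 100, nat_lit 85, nat_lit 84, nat_lit 49959469⟩]⟩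
noncomputable def p075_l2 : Lf2 := ⟨nat_lit 0, nat_lit 10, [nat_lit 0, nat_lit 5, nat_lit 5, nat_lit 20], true, nat_lit 160, nat_lit 260, nat_lit 0, nat_lit 384, ⟨nat_lit 0, nat_lit 1000, nat_lit 0, nat_lit 4, nat_lit 230, nat_lit 1000, nat_lit 145, nat_lit 0, nat_lit 0, nat_lit 0, nat_lit 0, nat_lit 0, nat_lit 43781122, nat_lit 15645805, nat_lit 7573073, nat_lit 4631572, false, true⟩,
 nat_lit 0, nat_lit 0, nat_lit 0, nat_lit 2691, nat_lit 4134, nat_lit 0, nat_lit 0, nat_lit 0, nat_lit 0, nat_lit 0, nat_lit 0, nat_lit 0, nat_lit 0, nat_lit 0, nat_lit 0, nat_lit 250000, nat_lit 0, nat_lit 0, [(nat_lit 18, [(nat_lit 0, nat_lit 1000)]), (nat_lit 21, [(nat_lit 0, nat_lit 1000)])],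
 ⟨p075_k0, nat_lit 0, nat_lit 0, nat_lit 75, nat_lit 0, nat_lit 0, [nat_lit 1558400000, nat_lit 2562000000], [], [nat_lit 18969170056, nat_lit 21841188232, nat_lit 27041206240, nat_lit 28905746248, nat_lit 22307601248, nat_lit 24690297154, nat_lit 28897885370, nat_lit 30486284866], nat_lit 0, nat_lit 0, nat_lit 0, nat_lit 0, nat_lit 0, nat_lit 0, [], [nat_lit 69, nat_lit 40, nat_lit 40, nat_lit 80, nat_lit 64, nat_lit 401, nat_lit 175, nat_lit 14]⟩, C1.Rw.none,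
 ⟨nat_lit 3162, nat_lit 4473, ⟨.ofNat (nat_lit 388887), .ofNat (nat_lit 728778), .ofNat (nat_lit 431944), .ofNat (nat_lit 771911), .ofNat (nat_lit 394735), .ofNat (nat_lit 699502), .ofNat (nat_lit 438969), .ofNat (nat_lit 743812)⟩, ⟨.ofNat (nat_lit 259488), .ofNat (nat_lit 429433), .ofNat (nat_lit 302621), .ofNat (nat_lit 472567), .ofNat (nat_lit 261805), .ofNat (nat_lit 414188), .ofNat (nat_lit 306116), .ofNat (nat_lit 458499)⟩⟩, [⟨nat_lit 13, nat_lit 80, nat_lit 60, nat_lit 100, nat_lit 132563403⟩, ⟨nat_lit 16, nat_lit 83, nat_lit 100, nat_lit 83, nat_lit 117317506⟩]⟩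
noncomputable def p075_l3 : Lf2 := ⟨nat_lit 0, nat_lit 10, [nat_lit 0, nat_lit 5, nat_lit 5, nat_lit 20], true, nat_lit 0, nat_lit 160, nat_lit 0, nat_lit 384, ⟨nat_lit 0, nat_lit 0, nat_lit 1000, nat_lit 4, nat_lit 119, nat_lit 865, nat_lit 57, nat_lit 1000, nat_lit 29400, nat_lit 257, nat_lit 132017, nat_lit 304, nat_lit 61553016, nat_lit 0, nat_lit 0, nat_lit 1409640, false, false⟩,
 nat_lit 0, nat_lit 0, nat_lit 0, nat_lit 1638, nat_lit 2338, nat_lit 0, nat_lit 0, nat_lit 0, nat_lit 0, nat_lit 0, nat_lit 0, nat_lit 0, nat_lit 0, nat_lit 0, nat_lit 76, nat_lit 400000, nat_lit 0, nat_lit 0, [(nat_lit 18, [(nat_lit 5, nat_lit 1000)]), (nat_lit 21, [(nat_lit 5, nat_lit 1000)])],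
 ⟨p075_k0, nat_lit 0, nat_lit 0, nat_lit 214, nat_lit 0, nat_lit 0, [nat_lit 1693000001, nat_lit 251500000], [], [nat_lit 17003516170, nat_lit 19899464700, nat_lit 18376547571, nat_lit 20631349772, nat_lit 18261118397, nat_lit 20490804377, nat_lit 19602575283, nat_lit 21748223220], nat_lit 0, nat_lit 0, nat_lit 0, nat_lit 0, nat_lit 0, nat_lit 0, [], [nat_lit 69, nat_lit 40, nat_lit 40, nat_lit 80, nat_lit 64, nat_lit 317, nat_lit 100, nat_lit 12]⟩, C1.Rw.none,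
 ⟨nat_lit 3162, nat_lit 4473, ⟨.ofNat (nat_lit 143971), .ofNat (nat_lit 388887), .ofNat (nat_lit 186943), .ofNat (nat_lit 431944), .ofNat (nat_lit 175109), .ofNat (nat_lit 394735), .ofNat (nat_lit 219258), .ofNat (nat_lit 438969)⟩, ⟨.negSucc (nat_lit 12437), .ofNat (nat_lit 259488), .ofNat (nat_lit 0), .ofNat (nat_lit 302621), .ofNat (nat_lit 0), .ofNat (nat_lit 261805), .ofNat (nat_lit 0), .ofNat (nat_lit 306116)⟩⟩, [⟨nat_lit 0, nat_lit 100, nat_lit 72, nat_lit 63, nat_lit 37231787⟩]⟩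
noncomputable def p075_l4 : Lf2 := ⟨nat_lit 0, nat_lit 10, [nat_lit 0, nat_lit 5, nat_lit 5, nat_lit 20], true, nat_lit 0, nat_lit 160, nat_lit 0, nat_lit 384, ⟨nat_lit 0, nat_lit 244, nat_lit 756, nat_lit 4, nat_lit 191, nat_lit 902, nat_lit 57, nat_lit 756, nat_lit 29400, nat_lit 257, nat_lit 1350, nat_lit 224, nat_lit 54533725, nat_lit 12466275, nat_lit 0, nat_lit 2402322, false, true⟩,
 nat_lit 0, nat_lit 0, nat_lit 0, nat_lit 615, nat_lit 2573, nat_lit 0, nat_lit 0, nat_lit 0, nat_lit 0, nat_lit 0, nat_lit 0, nat_lit 0, nat_lit 0, nat_lit 0, nat_lit 26, nat_lit 363400, nat_lit 0, nat_lit 0, [(nat_lit 18, [(nat_lit 0, nat_lit 244), (nat_lit 5, nat_lit 756)]), (nat_lit 21, [(nat_lit 0, nat_lit 244), (nat_lit 5, nat_lit 756)])],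
 ⟨p075_k2, nat_lit 0, nat_lit 0, nat_lit 131, nat_lit 0, nat_lit 0, [nat_lit 1327315201, nat_lit 1029882667, nat_lit 128293333], [], [nat_lit 17491981446, nat_lit 20035469434, nat_lit 20015396742, nat_lit 22244085735, nat_lit 18229080929, nat_lit 20519428725, nat_lit 20632668481, nat_lit 22702892103], nat_lit 0, nat_lit 0, nat_lit 0, nat_lit 0, nat_lit 0, nat_lit 0, [], [nat_lit 85, nat_lit 40, nat_lit 40, nat_lit 80, nat_lit 16, nat_lit 317, nat_lit 100, nat_lit 12]⟩, C1.Rw.none,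
 ⟨nat_lit 3162, nat_lit 4473, ⟨.ofNat (nat_lit 388887), .ofNat (nat_lit 524844), .ofNat (nat_lit 431944), .ofNat (nat_lit 567977), .ofNat (nat_lit 394735), .ofNat (nat_lit 516642), .ofNat (nat_lit 438969), .ofNat (nat_lit 560952)⟩, ⟨.negSucc (nat_lit 12437), .ofNat (nat_lit 259488), .ofNat (nat_lit 0), .ofNat (nat_lit 302621), .ofNat (nat_lit 0), .ofNat (nat_lit 261805), .ofNat (nat_lit 0), .ofNat (nat_lit 306116)⟩⟩, []⟩
noncomputable def p075_l5 : Lf2 := ⟨nat_lit 0, nat_lit 10, [nat_lit 0, nat_lit 5, nat_lit 5, nat_lit 20], true, nat_lit 0, nat_lit 160, nat_lit 0, nat_lit 384, ⟨nat_lit 0, nat_lit 1000, nat_lit 0, nat_lit 6, nat_lit 243, nat_lit 1000, nat_lit 57, nat_lit 0, nat_lit 0, nat_lit 0, nat_lit 0, nat_lit 0, nat_lit 48957520, nat_lit 18042480, nat_lit 0, nat_lit 2912759, false, true⟩,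
 nat_lit 0, nat_lit 0, nat_lit 0, nat_lit 0, nat_lit 3627, nat_lit 0, nat_lit 0, nat_lit 0, nat_lit 0, nat_lit 0, nat_lit 0, nat_lit 0, nat_lit 0, nat_lit 0, nat_lit 0, nat_lit 400000, nat_lit 0, nat_lit 0, [(nat_lit 18, [(nat_lit 1, nat_lit 1000)]), (nat_lit 21, [(nat_lit 1, nat_lit 1000)])],
 ⟨p075_k2, nat_lit 0, nat_lit 0, nat_lit 147, nat_lit 0, nat_lit 0, [nat_lit 1356000000, nat_lit 1749066667, nat_lit 2015733333], [], [nat_lit 22537785864, nat_lit 25089924509, nat_lit 26267509981, nat_lit 28536515693, nat_lit 22190855968, nat_lit 24172998636, nat_lit 25109504488, nat_lit 26794536408], nat_lit 0, nat_lit 0, nat_lit 0, nat_lit 0, nat_lit 0, nat_lit 0, [], [nat_lit 85, nat_lit 40, nat_lit 40, nat_lit 80, nat_lit 16, nat_lit 249, nat_lit 40, nat_lit 9]⟩, C1.Rw.none,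
 ⟨nat_lit 3162, nat_lit 4473, ⟨.ofNat (nat_lit 524844), .ofNat (nat_lit 660800), .ofNat (nat_lit 567977), .ofNat (nat_lit 703933), .ofNat (nat_lit 516642), .ofNat (nat_lit 638549), .ofNat (nat_lit 560952), .ofNat (nat_lit 682859)⟩, ⟨.negSucc (nat_lit 12437), .ofNat (nat_lit 259488), .ofNat (nat_lit 0), .ofNat (nat_lit 302621), .ofNat (nat_lit 0), .ofNat (nat_lit 261805), .ofNat (nat_lit 0), .ofNat (nat_lit 306116)⟩⟩, []⟩
noncomputable def p075_l6 : Lf2 := ⟨nat_lit 0, nat_lit 10, [nat_lit 0, nat_lit 5, nat_lit 5, nat_lit 20], true, nat_lit 0, nat_lit 160, nat_lit 0, nat_lit 336, ⟨nat_lit 0, nat_lit 1000, nat_lit 0, nat_lit 8, nat_lit 282, nat_lit 1000, nat_lit 57, nat_lit 0, nat_lit 0, nat_lit 0, nat_lit 0, nat_lit 0, nat_lit 44807380, nat_lit 22192620, nat_lit 0, nat_lit 3175241, true, true⟩,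
 nat_lit 0, nat_lit 0, nat_lit 0, nat_lit 2810, nat_lit 3706, nat_lit 0, nat_lit 0, nat_lit 0, nat_lit 0, nat_lit 0, nat_lit 0, nat_lit 0, nat_lit 0, nat_lit 0, nat_lit 0, nat_lit 266800, nat_lit 0, nat_lit 0, [(nat_lit 18, [(nat_lit 0, nat_lit 888), (nat_lit 1, nat_lit 112)]), (nat_lit 21, [(nat_lit 0, nat_lit 888), (nat_lit 1, nat_lit 112)])],
 ⟨p075_k2, nat_lit 0, nat_lit 0, nat_lit 158, nat_lit 0, nat_lit 0, [nat_lit 1535731200, nat_lit 1771444267, nat_lit 2500581333], [], [nat_lit 26797611077, nat_lit 29088093413, nat_lit 29088093413, nat_lit 31140356832, nat_lit 25621930064, nat_lit 27320467824, nat_lit 27320467824, nat_lit 28937215565], nat_lit 0, nat_lit 0, nat_lit 0, nat_lit 0, nat_lit 0, nat_lit 0, [], [nat_lit 85, nat_lit 40, nat_lit 40, nat_lit 80, nat_lit 16, nat_lit 249, nat_lit 40, nat_lit 8]⟩, C1.Rw.none,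
 ⟨nat_lit 3162, nat_lit 4473, ⟨.ofNat (nat_lit 660800), .ofNat (nat_lit 728778), .ofNat (nat_lit 703933), .ofNat (nat_lit 771911), .ofNat (nat_lit 638549), .ofNat (nat_lit 699502), .ofNat (nat_lit 682859), .ofNat (nat_lit 743812)⟩, ⟨.negSucc (nat_lit 12437), .ofNat (nat_lit 259488), .ofNat (nat_lit 0), .ofNat (nat_lit 302621), .ofNat (nat_lit 0), .ofNat (nat_lit 261805), .ofNat (nat_lit 0), .ofNat (nat_lit 306116)⟩⟩, [⟨nat_lit 13, nat_lit 72, nat_lit 77, nat_lit 100, nat_lit 292696558⟩]⟩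
noncomputable def p075_l7 : Lf2 := ⟨nat_lit 0, nat_lit 10, [nat_lit 0, nat_lit 5, nat_lit 5, nat_lit 20], true, nat_lit 160, nat_lit 260, nat_lit 0, nat_lit 384, ⟨nat_lit 0, nat_lit 0, nat_lit 1000, nat_lit 4, nat_lit 119, nat_lit 1000, nat_lit 145, nat_lit 1000, nat_lit 89743, nat_lit 288, nat_lit 132017, nat_lit 304, nat_lit 52953585, nat_lit 0, nat_lit 0, nat_lit 3499828, false, false⟩,
 nat_lit 0, nat_lit 0, nat_lit 0, nat_lit 3882, nat_lit 2567, nat_lit 0, nat_lit 0, nat_lit 0, nat_lit 0, nat_lit 0, nat_lit 0, nat_lit 0, nat_lit 0, nat_lit 0, nat_lit 76, nat_lit 400000, nat_lit 0, nat_lit 0, [(nat_lit 18, [(nat_lit 5, nat_lit 1000)]), (nat_lit 21, [(nat_lit 5, nat_lit 1000)])],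
 ⟨p075_k0, nat_lit 0, nat_lit 0, nat_lit 120, nat_lit 0, nat_lit 0, [nat_lit 1693000001, nat_lit 251500000], [], [nat_lit 16337336750, nat_lit 19207427122, nat_lit 17300881125, nat_lit 19769816598, nat_lit 19930931604, nat_lit 22678271586, nat_lit 20665666691, nat_lit 22815708966], nat_lit 0, nat_lit 0, nat_lit 0, nat_lit 0, nat_lit 0, nat_lit 0, [], [nat_lit 69, nat_lit 40, nat_lit 40, nat_lit 80, nat_lit 64, nat_lit 345, nat_lit 125, nat_lit 13]⟩, C1.Rw.none,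
 ⟨nat_lit 3162, nat_lit 4473, ⟨.ofNat (nat_lit 143971), .ofNat (nat_lit 388887), .ofNat (nat_lit 186943), .ofNat (nat_lit 431944), .ofNat (nat_lit 175109), .ofNat (nat_lit 394735), .ofNat (nat_lit 219258), .ofNat (nat_lit 438969)⟩, ⟨.ofNat (nat_lit 259488), .ofNat (nat_lit 429433), .ofNat (nat_lit 302621), .ofNat (nat_lit 472567), .ofNat (nat_lit 261805), .ofNat (nat_lit 414188), .ofNat (nat_lit 306116), .ofNat (nat_lit 458499)⟩⟩, [⟨nat_lit 0, nat_lit 100, nat_lit 72, nat_lit 63, nat_lit 68011662⟩, ⟨nat_lit 16, nat_lit 83, nat_lit 100, nat_lit 83, nat_lit 230948368⟩]⟩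
noncomputable def p075_l8 : Lf2 := ⟨nat_lit 0, nat_lit 10, [nat_lit 0, nat_lit 5, nat_lit 5, nat_lit 20], true, nat_lit 160, nat_lit 260, nat_lit 0, nat_lit 384, ⟨nat_lit 0, nat_lit 1000, nat_lit 0, nat_lit 4, nat_lit 230, nat_lit 1000, nat_lit 145, nat_lit 0, nat_lit 0, nat_lit 0, nat_lit 0, nat_lit 0, nat_lit 43781122, nat_lit 15645805, nat_lit 7573073, nat_lit 4631572, false, true⟩,
 nat_lit 0, nat_lit 0, nat_lit 0, nat_lit 2691, nat_lit 3645, nat_lit 0, nat_lit 0, nat_lit 0, nat_lit 0, nat_lit 0, nat_lit 0, nat_lit 0, nat_lit 0, nat_lit 0, nat_lit 0, nat_lit 250000, nat_lit 0, nat_lit 0, [(nat_lit 18, [(nat_lit 0, nat_lit 1000)]), (nat_lit 21, [(nat_lit 0, nat_lit 1000)])],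
 ⟨p075_k3, nat_lit 0, nat_lit 0, nat_lit 73, nat_lit 0, nat_lit 0, [nat_lit 1558400000, nat_lit 2168000000, nat_lit 2562000000], [], [nat_lit 18248725820, nat_lit 20954323380, nat_lit 26238045420, nat_lit 28123369000, nat_lit 21610874915, nat_lit 23871036940, nat_lit 28280152155, nat_lit 29970634855], nat_lit 0, nat_lit 0, nat_lit 0, nat_lit 0, nat_lit 0, nat_lit 0, [], [nat_lit 6, nat_lit 40, nat_lit 40, nat_lit 80, nat_lit 3, nat_lit 401, nat_lit 175, nat_lit 14]⟩, C1.Rw.none,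
 ⟨nat_lit 3162, nat_lit 4473, ⟨.ofNat (nat_lit 388887), .ofNat (nat_lit 728778), .ofNat (nat_lit 431944), .ofNat (nat_lit 771911), .ofNat (nat_lit 394735), .ofNat (nat_lit 699502), .ofNat (nat_lit 438969), .ofNat (nat_lit 743812)⟩, ⟨.ofNat (nat_lit 259488), .ofNat (nat_lit 429433), .ofNat (nat_lit 302621), .ofNat (nat_lit 472567), .ofNat (nat_lit 261805), .ofNat (nat_lit 414188), .ofNat (nat_lit 306116), .ofNat (nat_lit 458499)⟩⟩, [⟨nat_lit 13, nat_lit 80, nat_lit 60, nat_lit 100, nat_lit 135038583⟩, ⟨nat_lit 16, nat_lit 83, nat_lit 100, nat_lit 83, nat_lit 130779874⟩]⟩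
noncomputable def p075_l9 : Lf2 := ⟨nat_lit 0, nat_lit 10, [nat_lit 0, nat_lit 5, nat_lit 5, nat_lit 20], true, nat_lit 0, nat_lit 260, nat_lit 0, nat_lit 384, ⟨nat_lit 0, nat_lit 1000, nat_lit 0, nat_lit 4, nat_lit 183, nat_lit 1000, nat_lit 89, nat_lit 0, nat_lit 0, nat_lit 0, nat_lit 0, nat_lit 0, nat_lit 0, nat_lit 0, nat_lit 0, nat_lit 5000000, false, true⟩,
 nat_lit 0, nat_lit 0, nat_lit 0, nat_lit 2452, nat_lit 4532, nat_lit 0, nat_lit 0, nat_lit 0, nat_lit 0, nat_lit 0, nat_lit 0, nat_lit 0, nat_lit 0, nat_lit 0, nat_lit 0, nat_lit 250000, nat_lit 0, nat_lit 0, [(nat_lit 18, [(nat_lit 0, nat_lit 1000)]), (nat_lit 21, [(nat_lit 0, nat_lit 1000)])],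
 ⟨p075_k0, nat_lit 0, nat_lit 0, nat_lit 214, nat_lit 0, nat_lit 0, [nat_lit 1558400000, nat_lit 2562000000], [], [nat_lit 23257476068, nat_lit 27294952509, nat_lit 30628754800, nat_lit 33363182304, nat_lit 24736855810, nat_lit 27048633769, nat_lit 28919425252, nat_lit 30905975468], nat_lit 0, nat_lit 0, nat_lit 0, nat_lit 0, nat_lit 0, nat_lit 0, [], [nat_lit 69, nat_lit 40, nat_lit 40, nat_lit 80, nat_lit 64, nat_lit 401, nat_lit 175, nat_lit 16]⟩, C1.Rw.none,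
 ⟨nat_lit 3162, nat_lit 4473, ⟨.ofNat (nat_lit 143971), .ofNat (nat_lit 728778), .ofNat (nat_lit 186943), .ofNat (nat_lit 771911), .ofNat (nat_lit 175109), .ofNat (nat_lit 699502), .ofNat (nat_lit 219258), .ofNat (nat_lit 743812)⟩, ⟨.negSucc (nat_lit 12437), .ofNat (nat_lit 429433), .ofNat (nat_lit 0), .ofNat (nat_lit 472567), .ofNat (nat_lit 0), .ofNat (nat_lit 414188), .ofNat (nat_lit 0), .ofNat (nat_lit 458499)⟩⟩, [⟨nat_lit 13, nat_lit 72, nat_lit 77, nat_lit 100, nat_lit 155952935⟩, ⟨nat_lit 16, nat_lit 83, nat_lit 100, nat_lit 83, nat_lit 24927750⟩]⟩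
noncomputable def b_V_800_400_10_0 : St := ⟨true, nat_lit 0, nat_lit 2, nat_lit 0, nat_lit 80, nat_lit 320, nat_lit 360, nat_lit 160, nat_lit 200, nat_lit 16, nat_lit 360, nat_lit 40, nat_lit 80, nat_lit 0, nat_lit 260, nat_lit 0, nat_lit 384, nat_lit 0, nat_lit 40, nat_lit 0, nat_lit 0, nat_lit 0, nat_lit 0⟩
theorem d_V_800_400_10_0 (h : EB TB.env) : Dead b_V_800_400_10_0 := chkB_sound0 h (T :=
(.gv
(.st (nat_lit 1)
(.spl (nat_lit 2) (nat_lit 160)
(.leaf p075_l0)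
(.spl (nat_lit 4) (nat_lit 160)
(.leaf p075_l1)
(.leaf p075_l2)))
(.spl (nat_lit 4) (nat_lit 160)
(.spl (nat_lit 2) (nat_lit 160)
(.leaf p075_l3)
(.spl (nat_lit 2) (nat_lit 240)
(.leaf p075_l4)
(.spl (nat_lit 2) (nat_lit 320)
(.leaf p075_l5)
(.trX (nat_lit 22) (nat_lit 82) (nat_lit 76) (nat_lit 100) (nat_lit 336) (.leaf p075_l6)))))
(.spl (nat_lit 2) (nat_lit 160)
(.leaf p075_l7)
(.leaf p075_l8))))
(.leaf p075_l9))) (by decide +kernel)
noncomputable def p075_l10 : Lf2 := ⟨nat_lit 0, nat_lit 10, [nat_lit 0, nat_lit 5, nat_lit 5, nat_lit 20], true, nat_lit 0, nat_lit 160, nat_lit 0, nat_lit 384, ⟨nat_lit 0, nat_lit 0, nat_lit 1000, nat_lit 4, nat_lit 116, nat_lit 1000, nat_lit 56, nat_lit 1000, nat_lit 29400, nat_lit 257, nat_lit 126150, nat_lit 302, nat_lit 61787414, nat_lit 0, nat_lit 0, nat_lit 1366808, false, false⟩,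
 nat_lit 0, nat_lit 3845, nat_lit 0, nat_lit 0, nat_lit 2883, nat_lit 0, nat_lit 0, nat_lit 0, nat_lit 0, nat_lit 0, nat_lit 0, nat_lit 0, nat_lit 0, nat_lit 0, nat_lit 89, nat_lit 467200, nat_lit 0, nat_lit 0, [(nat_lit 18, [(nat_lit 5, nat_lit 888), (nat_lit 6, nat_lit 112)])],
 ⟨p075_k0, nat_lit 0, nat_lit 0, nat_lit 423, nat_lit 0, nat_lit 611735, [nat_lit 1878804801, nat_lit 278155199], [], [nat_lit 17692489132, nat_lit 18695000054, nat_lit 19118776586, nat_lit 19728982443, nat_lit 18994701034, nat_lit 19597940988, nat_lit 21912477469, nat_lit 21284211226], nat_lit 1271250, nat_lit 1271250, nat_lit 88400, nat_lit 1100001, nat_lit 0, nat_lit 1100001, [nat_lit 490000, nat_lit 1427500], [nat_lit 69, nat_lit 40, nat_lit 40, nat_lit 80, nat_lit 64, nat_lit 317, nat_lit 100, nat_lit 12]⟩, C1.Rw.none,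
 ⟨nat_lit 4183, nat_lit 4473, ⟨.ofNat (nat_lit 144166), .ofNat (nat_lit 388887), .ofNat (nat_lit 187296), .ofNat (nat_lit 432020), .ofNat (nat_lit 151889), .ofNat (nat_lit 390409), .ofNat (nat_lit 195219), .ofNat (nat_lit 433742)⟩, ⟨.negSucc (nat_lit 12423), .ofNat (nat_lit 259489), .ofNat (nat_lit 0), .ofNat (nat_lit 302621), .negSucc (nat_lit 4612), .ofNat (nat_lit 260409), .ofNat (nat_lit 0), .ofNat (nat_lit 303743)⟩⟩, []⟩
noncomputable def p075_l11 : Lf2 := ⟨nat_lit 0, nat_lit 10, [nat_lit 0, nat_lit 5, nat_lit 5, nat_lit 20], true, nat_lit 0, nat_lit 160, nat_lit 0, nat_lit 384, ⟨nat_lit 0, nat_lit 0, nat_lit 1000, nat_lit 4, nat_lit 121, nat_lit 1000, nat_lit 56, nat_lit 1000, nat_lit 29400, nat_lit 257, nat_lit 138017, nat_lit 306, nat_lit 61409747, nat_lit 0, nat_lit 0, nat_lit 1435414, false, false⟩,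
 nat_lit 0, nat_lit 3822, nat_lit 0, nat_lit 0, nat_lit 2978, nat_lit 0, nat_lit 713, nat_lit 0, nat_lit 0, nat_lit 0, nat_lit 0, nat_lit 0, nat_lit 0, nat_lit 0, nat_lit 76, nat_lit 400000, nat_lit 0, nat_lit 0, [(nat_lit 18, [(nat_lit 5, nat_lit 1000)])],
 ⟨p075_k4, nat_lit 0, nat_lit 0, nat_lit 438, nat_lit 0, nat_lit 677422, [nat_lit 1693000001, nat_lit 251500000], [], [nat_lit 18542364833, nat_lit 19571543680, nat_lit 19859663373, nat_lit 20437784107, nat_lit 19683869885, nat_lit 20251884053, nat_lit 22518961578, nat_lit 21877982814], nat_lit 1271250, nat_lit 1271250, nat_lit 134400, nat_lit 1100001, nat_lit 0, nat_lit 1100001, [nat_lit 490000, nat_lit 1427500], [nat_lit 69, nat_lit 40, nat_lit 40, nat_lit 80, nat_lit 64, nat_lit 317, nat_lit 100, nat_lit 12]⟩, C1.Rw.none,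
 ⟨nat_lit 3872, nat_lit 4184, ⟨.ofNat (nat_lit 165138), .ofNat (nat_lit 390409), .ofNat (nat_lit 208462), .ofNat (nat_lit 433741), .ofNat (nat_lit 172514), .ofNat (nat_lit 391890), .ofNat (nat_lit 216092), .ofNat (nat_lit 435475)⟩, ⟨.negSucc (nat_lit 4619), .ofNat (nat_lit 260409), .ofNat (nat_lit 0), .ofNat (nat_lit 303743), .ofNat (nat_lit 0), .ofNat (nat_lit 261131), .ofNat (nat_lit 0), .ofNat (nat_lit 304717)⟩⟩, []⟩
noncomputable def p075_l12 : Lf2 := ⟨nat_lit 0, nat_lit 10, [nat_lit 0, nat_lit 5, nat_lit 5, nat_lit 20], true, nat_lit 0, nat_lit 160, nat_lit 0, nat_lit 384, ⟨nat_lit 0, nat_lit 0, nat_lit 1000, nat_lit 4, nat_lit 126, nat_lit 1000, nat_lit 57, nat_lit 1000, nat_lit 30817, nat_lit 258, nat_lit 147267, nat_lit 309, nat_lit 60957409, nat_lit 0, nat_lit 0, nat_lit 1514858, false, false⟩,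
 nat_lit 0, nat_lit 3288, nat_lit 0, nat_lit 0, nat_lit 2661, nat_lit 0, nat_lit 0, nat_lit 0, nat_lit 0, nat_lit 0, nat_lit 0, nat_lit 0, nat_lit 0, nat_lit 0, nat_lit 222, nat_lit 947200, nat_lit 0, nat_lit 0, [(nat_lit 21, [(nat_lit 5, nat_lit 88), (nat_lit 6, nat_lit 912)])],
 ⟨p075_k5, nat_lit 0, nat_lit 0, nat_lit 518, nat_lit 0, nat_lit 835492, [nat_lit 2552960000, nat_lit 452652800], [], [nat_lit 18615767773, nat_lit 20241548185, nat_lit 20220639830, nat_lit 21250461932, nat_lit 20089111938, nat_lit 21095190073, nat_lit 21499559452, nat_lit 22376698392], nat_lit 1271250, nat_lit 1271250, nat_lit 181601, nat_lit 1100001, nat_lit 0, nat_lit 1100001, [nat_lit 490000, nat_lit 1427500], [nat_lit 69, nat_lit 40, nat_lit 40, nat_lit 80, nat_lit 64, nat_lit 317, nat_lit 100, nat_lit 12]⟩, C1.Rw.none,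
 ⟨nat_lit 3162, nat_lit 3873, ⟨.ofNat (nat_lit 185344), .ofNat (nat_lit 391890), .ofNat (nat_lit 228873), .ofNat (nat_lit 435446), .ofNat (nat_lit 199607), .ofNat (nat_lit 394735), .ofNat (nat_lit 243860), .ofNat (nat_lit 439014)⟩, ⟨.ofNat (nat_lit 0), .ofNat (nat_lit 261131), .ofNat (nat_lit 0), .ofNat (nat_lit 304717), .ofNat (nat_lit 0), .ofNat (nat_lit 261806), .ofNat (nat_lit 0), .ofNat (nat_lit 306116)⟩⟩, [⟨nat_lit 0, nat_lit 100, nat_lit 60, nat_lit 80, nat_lit 4082855⟩]⟩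
noncomputable def p075_l13 : Lf2 := ⟨nat_lit 0, nat_lit 10, [nat_lit 0, nat_lit 5, nat_lit 5, nat_lit 20], true, nat_lit 160, nat_lit 260, nat_lit 0, nat_lit 384, ⟨nat_lit 0, nat_lit 0, nat_lit 1000, nat_lit 4, nat_lit 117, nat_lit 1000, nat_lit 146, nat_lit 1000, nat_lit 89743, nat_lit 288, nat_lit 129067, nat_lit 303, nat_lit 53035961, nat_lit 0, nat_lit 0, nat_lit 3482944, false, false⟩,
 nat_lit 0, nat_lit 4303, nat_lit 0, nat_lit 0, nat_lit 3226, nat_lit 0, nat_lit 0, nat_lit 0, nat_lit 0, nat_lit 0, nat_lit 0, nat_lit 0, nat_lit 0, nat_lit 0, nat_lit 76, nat_lit 400000, nat_lit 0, nat_lit 0, [(nat_lit 18, [(nat_lit 5, nat_lit 1000)])],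
 ⟨p075_k0, nat_lit 0, nat_lit 0, nat_lit 381, nat_lit 0, nat_lit 713072, [nat_lit 1693000001, nat_lit 251500000], [], [nat_lit 17408920933, nat_lit 18627354750, nat_lit 18576233134, nat_lit 19659819234, nat_lit 20826241711, nat_lit 22351339710, nat_lit 23612592744, nat_lit 22450226680], nat_lit 1271250, nat_lit 1271250, nat_lit 88400, nat_lit 1100001, nat_lit 1100001, nat_lit 1956250, [nat_lit 490000, nat_lit 1427500], [nat_lit 69, nat_lit 40, nat_lit 40, nat_lit 80, nat_lit 64, nat_lit 345, nat_lit 125, nat_lit 13]⟩, C1.Rw.none,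
 ⟨nat_lit 3872, nat_lit 4473, ⟨.ofNat (nat_lit 144159), .ofNat (nat_lit 388887), .ofNat (nat_lit 187264), .ofNat (nat_lit 432013), .ofNat (nat_lit 159606), .ofNat (nat_lit 391890), .ofNat (nat_lit 203164), .ofNat (nat_lit 435470)⟩, ⟨.ofNat (nat_lit 259489), .ofNat (nat_lit 429434), .ofNat (nat_lit 302621), .ofNat (nat_lit 472567), .ofNat (nat_lit 261131), .ofNat (nat_lit 422435), .ofNat (nat_lit 304717), .ofNat (nat_lit 466021)⟩⟩, [⟨nat_lit 0, nat_lit 100, nat_lit 71, nat_lit 70, nat_lit 37315905⟩, ⟨nat_lit 4, nat_lit 100, nat_lit 76, nat_lit 72, nat_lit 343741644⟩]⟩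
noncomputable def p075_l14 : Lf2 := ⟨nat_lit 0, nat_lit 10, [nat_lit 0, nat_lit 5, nat_lit 5, nat_lit 20], true, nat_lit 160, nat_lit 232, nat_lit 0, nat_lit 384, ⟨nat_lit 0, nat_lit 0, nat_lit 1000, nat_lit 4, nat_lit 126, nat_lit 1000, nat_lit 136, nat_lit 1000, nat_lit 173400, nat_lit 317, nat_lit 147267, nat_lit 309, nat_lit 53194548, nat_lit 0, nat_lit 0, nat_lit 3473452, false, false⟩,
 nat_lit 0, nat_lit 3617, nat_lit 0, nat_lit 0, nat_lit 2927, nat_lit 0, nat_lit 0, nat_lit 0, nat_lit 0, nat_lit 0, nat_lit 0, nat_lit 0, nat_lit 0, nat_lit 0, nat_lit 235, nat_lit 1000000, nat_lit 0, nat_lit 0, [(nat_lit 21, [(nat_lit 6, nat_lit 1000)])],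
 ⟨p075_k5, nat_lit 0, nat_lit 0, nat_lit 423, nat_lit 0, nat_lit 835492, [nat_lit 2637600000, nat_lit 481600000], [], [nat_lit 18092229298, nat_lit 19213018285, nat_lit 19425760224, nat_lit 20397815832, nat_lit 20119303378, nat_lit 21544162263, nat_lit 21200121928, nat_lit 22073028564], nat_lit 1271250, nat_lit 1271250, nat_lit 181601, nat_lit 1100001, nat_lit 1100001, nat_lit 1716500, [nat_lit 490000, nat_lit 1427500], [nat_lit 69, nat_lit 40, nat_lit 40, nat_lit 80, nat_lit 64, nat_lit 317, nat_lit 100, nat_lit 12]⟩, C1.Rw.none,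
 ⟨nat_lit 3162, nat_lit 3873, ⟨.ofNat (nat_lit 185344), .ofNat (nat_lit 391890), .ofNat (nat_lit 228873), .ofNat (nat_lit 435446), .ofNat (nat_lit 199607), .ofNat (nat_lit 394735), .ofNat (nat_lit 243860), .ofNat (nat_lit 439014)⟩, ⟨.ofNat (nat_lit 261131), .ofNat (nat_lit 377270), .ofNat (nat_lit 304717), .ofNat (nat_lit 420856), .ofNat (nat_lit 261806), .ofNat (nat_lit 371522), .ofNat (nat_lit 306116), .ofNat (nat_lit 415832)⟩⟩, [⟨nat_lit 0, nat_lit 100, nat_lit 60, nat_lit 80, nat_lit 10372449⟩, ⟨nat_lit 4, nat_lit 100, nat_lit 66, nat_lit 72, nat_lit 452504114⟩]⟩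
noncomputable def p075_l15 : Lf2 := ⟨nat_lit 0, nat_lit 10, [nat_lit 0, nat_lit 5, nat_lit 5, nat_lit 20], false, nat_lit 0, nat_lit 160, nat_lit 0, nat_lit 384, ⟨nat_lit 174, nat_lit 0, nat_lit 826, nat_lit 4, nat_lit 191, nat_lit 826, nat_lit 56, nat_lit 826, nat_lit 29400, nat_lit 257, nat_lit 1350, nat_lit 224, nat_lit 54525315, nat_lit 0, nat_lit 0, nat_lit 2403248, false, true⟩,
 nat_lit 0, nat_lit 4407, nat_lit 0, nat_lit 0, nat_lit 3305, nat_lit 2754, nat_lit 0, nat_lit 0, nat_lit 0, nat_lit 376, nat_lit 0, nat_lit 0, nat_lit 0, nat_lit 0, nat_lit 43, nat_lit 503800, nat_lit 0, nat_lit 0, [(nat_lit 18, [(nat_lit 5, nat_lit 537), (nat_lit 6, nat_lit 289)])],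
 ⟨p075_k3, nat_lit 0, nat_lit 0, nat_lit 404, nat_lit 0, nat_lit 713072, [nat_lit 1502596534, nat_lit 923111067, nat_lit 11876400], [], [nat_lit 20651306575, nat_lit 19473485213, nat_lit 20517929330, nat_lit 22059433170, nat_lit 19026954130, nat_lit 19928589377, nat_lit 21036342824, nat_lit 21913412324], nat_lit 1271250, nat_lit 1271250, nat_lit 1100001, nat_lit 1785000, nat_lit 0, nat_lit 1100001, [nat_lit 490000, nat_lit 1100000, nat_lit 1442500], [nat_lit 6, nat_lit 40, nat_lit 40, nat_lit 80, nat_lit 3, nat_lit 317, nat_lit 100, nat_lit 12]⟩, ⟨p075_k6, nat_lit 0, nat_lit 0, nat_lit 278, nat_lit 0, nat_lit 0, [nat_lit 1386432000, nat_lit 2065728000, nat_lit 2446092000], [], [nat_lit 5058955640, nat_lit 5231343504, nat_lit 5785896168, nat_lit 5974944864, nat_lit 6174309341, nat_lit 6073744901, nat_lit 6136355717, nat_lit 5993104801], nat_lit 0, nat_lit 0, nat_lit 0, nat_lit 0, nat_lit 0, nat_lit 0, [], [nat_lit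 62, nat_lit 40, nat_lit 40, nat_lit 80, nat_lit 58, nat_lit 456, nat_lit 225, nat_lit 11]⟩,
 ⟨nat_lit 3872, nat_lit 4473, ⟨.ofNat (nat_lit 388887), .ofNat (nat_lit 524844), .ofNat (nat_lit 432013), .ofNat (nat_lit 567977), .ofNat (nat_lit 391890), .ofNat (nat_lit 520934), .ofNat (nat_lit 435470), .ofNat (nat_lit 564520)⟩, ⟨.negSucc (nat_lit 12427), .ofNat (nat_lit 259489), .ofNat (nat_lit 0), .ofNat (nat_lit 302621), .ofNat (nat_lit 0), .ofNat (nat_lit 261131), .ofNat (nat_lit 0), .ofNat (nat_lit 304717)⟩⟩, [⟨nat_lit 7, nat_lit 63, nat_lit 100, nat_lit 72, nat_lit 48978509⟩]⟩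
noncomputable def p075_l16 : Lf2 := ⟨nat_lit 0, nat_lit 10, [nat_lit 0, nat_lit 5, nat_lit 5, nat_lit 20], false, nat_lit 0, nat_lit 160, nat_lit 0, nat_lit 160, ⟨nat_lit 1000, nat_lit 0, nat_lit 0, nat_lit 0, nat_lit 0, nat_lit 0, nat_lit 0, nat_lit 0, nat_lit 0, nat_lit 0, nat_lit 0, nat_lit 0, nat_lit 0, nat_lit 0, nat_lit 0, nat_lit 0, false, false⟩,
 nat_lit 0, nat_lit 8096, nat_lit 0, nat_lit 0, nat_lit 6071, nat_lit 9983, nat_lit 498, nat_lit 0, nat_lit 0, nat_lit 1193, nat_lit 0, nat_lit 0, nat_lit 0, nat_lit 0, nat_lit 0, nat_lit 0, nat_lit 0, nat_lit 0, [],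
 ⟨p075_k3, nat_lit 0, nat_lit 0, nat_lit 409, nat_lit 0, nat_lit 713072, [nat_lit 2032000001, nat_lit 4688000000, nat_lit 6250000000], [], [nat_lit 29784322828, nat_lit 30784572048, nat_lit 34503900304, nat_lit 35906546006, nat_lit 27162914336, nat_lit 28060309376, nat_lit 31303133576, nat_lit 32020045994], nat_lit 1271250, nat_lit 1271250, nat_lit 1271250, nat_lit 1271250, nat_lit 0, nat_lit 1100001, [nat_lit 490000, nat_lit 1100000, nat_lit 1442500], [nat_lit 6, nat_lit 40, nat_lit 40, nat_lit 80, nat_lit 3, nat_lit 249, nat_lit 40, nat_lit 9]⟩, ⟨p075_k6, nat_lit 0, nat_lit 0, nat_lit 317, nat_lit 0, nat_lit 0, [nat_lit 7968000000, nat_lit 11872000000, nat_lit 14058000000], [], [nat_lit 34876818595, nat_lit 35443563316, nat_lit 43615505452, nat_lit 43761568440, nat_lit 27701819028, nat_lit 28107247704, nat_lit 34171342944, nat_lit 34031258880], nat_lit 0, nat_lit 0, nat_lit 0, nat_lit 0, nat_lit 0, nat_lit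 0, [], [nat_lit 62, nat_lit 40, nat_lit 40, nat_lit 80, nat_lit 58, nat_lit 428, nat_lit 200, nat_lit 10]⟩,
 zbF0, [⟨nat_lit 9, nat_lit 100, nat_lit 88, nat_lit 32, nat_lit 88300232⟩]⟩
noncomputable def p075_l17 : Lf2 := ⟨nat_lit 0, nat_lit 10, [nat_lit 0, nat_lit 5, nat_lit 5, nat_lit 20], false, nat_lit 0, nat_lit 160, nat_lit 160, nat_lit 384, ⟨nat_lit 498, nat_lit 0, nat_lit 502, nat_lit 6, nat_lit 258, nat_lit 502, nat_lit 56, nat_lit 502, nat_lit 29400, nat_lit 257, nat_lit 272572, nat_lit 200, nat_lit 47264941, nat_lit 0, nat_lit 0, nat_lit 3030890, false, true⟩,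
 nat_lit 0, nat_lit 5414, nat_lit 0, nat_lit 0, nat_lit 4060, nat_lit 4292, nat_lit 5, nat_lit 0, nat_lit 0, nat_lit 0, nat_lit 0, nat_lit 0, nat_lit 0, nat_lit 0, nat_lit 0, nat_lit 502000, nat_lit 0, nat_lit 0, [(nat_lit 18, [(nat_lit 6, nat_lit 502)])],
 ⟨p075_k3, nat_lit 0, nat_lit 0, nat_lit 363, nat_lit 0, nat_lit 611735, [nat_lit 1543922134, nat_lit 1712277867, nat_lit 1154298400], [], [nat_lit 23619791148, nat_lit 24014701648, nat_lit 29500250000, nat_lit 30148436580, nat_lit 22924083816, nat_lit 23293166516, nat_lit 26537190963, nat_lit 26844369063], nat_lit 1271250, nat_lit 1271250, nat_lit 1271250, nat_lit 1271250, nat_lit 0, nat_lit 1100001, [nat_lit 490000, nat_lit 1100000, nat_lit 1442500], [nat_lit 6, nat_lit 40, nat_lit 40, nat_lit 80, nat_lit 3, nat_lit 249, nat_lit 40, nat_lit 9]⟩, ⟨p075_k6, nat_lit 0, nat_lit 0, nat_lit 148, nat_lit 0, nat_lit 0, [nat_lit 3968064000, nat_lit 5912256000, nat_lit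 7000884000], [], [nat_lit 7358224552, nat_lit 8102771560, nat_lit 12882548440, nat_lit 13185359592, nat_lit 14930518677, nat_lit 15030763396, nat_lit 18030419913, nat_lit 17954558743], nat_lit 0, nat_lit 0, nat_lit 0, nat_lit 0, nat_lit 0, nat_lit 0, [], [nat_lit 62, nat_lit 40, nat_lit 40, nat_lit 80, nat_lit 58, nat_lit 483, nat_lit 250, nat_lit 11]⟩,
 ⟨nat_lit 4183, nat_lit 4473, ⟨.ofNat (nat_lit 524844), .ofNat (nat_lit 728778), .ofNat (nat_lit 567977), .ofNat (nat_lit 771911), .ofNat (nat_lit 522921), .ofNat (nat_lit 721688), .ofNat (nat_lit 566254), .ofNat (nat_lit 765021)⟩, ⟨.negSucc (nat_lit 12423), .ofNat (nat_lit 259489), .ofNat (nat_lit 0), .ofNat (nat_lit 302621), .negSucc (nat_lit 4612), .ofNat (nat_lit 260409), .ofNat (nat_lit 0), .ofNat (nat_lit 303743)⟩⟩, [⟨nat_lit 19, nat_lit 100, nat_lit 63, nat_lit 72, nat_lit 272000139⟩, ⟨nat_lit 22, nat_lit 94, nat_lit 100, nat_lit 87, nat_lit 47284787⟩]⟩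
noncomputable def p075_l18 : Lf2 := ⟨nat_lit 0, nat_lit 10, [nat_lit 0, nat_lit 5, nat_lit 5, nat_lit 20], false, nat_lit 0, nat_lit 160, nat_lit 160, nat_lit 384, ⟨nat_lit 1000, nat_lit 0, nat_lit 0, nat_lit 0, nat_lit 0, nat_lit 0, nat_lit 0, nat_lit 0, nat_lit 0, nat_lit 0, nat_lit 0, nat_lit 0, nat_lit 0, nat_lit 0, nat_lit 0, nat_lit 0, false, false⟩,
 nat_lit 0, nat_lit 7187, nat_lit 0, nat_lit 0, nat_lit 5602, nat_lit 8581, nat_lit 2026, nat_lit 0, nat_lit 0, nat_lit 0, nat_lit 0, nat_lit 0, nat_lit 0, nat_lit 0, nat_lit 0, nat_lit 0, nat_lit 0, nat_lit 0, [],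
 ⟨p075_k4, nat_lit 0, nat_lit 0, nat_lit 393, nat_lit 0, nat_lit 677422, [nat_lit 2032000001, nat_lit 6250000000], [], [nat_lit 24921465074, nat_lit 26018069188, nat_lit 33272999630, nat_lit 34059168765, nat_lit 21722996651, nat_lit 22137928308, nat_lit 27776984012, nat_lit 28458121671], nat_lit 1271250, nat_lit 1271250, nat_lit 1271250, nat_lit 1271250, nat_lit 0, nat_lit 1100001, [nat_lit 490000, nat_lit 1427500], [nat_lit 69, nat_lit 40, nat_lit 40, nat_lit 80, nat_lit 64, nat_lit 249, nat_lit 40, nat_lit 9]⟩, ⟨p075_k1, nat_lit 0, nat_lit 0, nat_lit 107, nat_lit 0, nat_lit 0, [nat_lit 7968000000, nat_lit 14058000000], [], [nat_lit 14829190544, nat_lit 16322437780, nat_lit 25071905300, nat_lit 25742711150, nat_lit 29997004193, nat_lit 30201206723, nat_lit 35536410121, nat_lit 35433504605], nat_lit 0, nat_lit 0, nat_lit 0, nat_lit 0, nat_lit 0, nat_lit 0, [], [nat_lit 121, nat_lit 40, nat_lit 40, nat_lit 80,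 nat_lit 28, nat_lit 483, nat_lit 250, nat_lit 11]⟩,
 zbF0, [⟨nat_lit 19, nat_lit 100, nat_lit 63, nat_lit 72, nat_lit 623018750⟩, ⟨nat_lit 22, nat_lit 96, nat_lit 100, nat_lit 88, nat_lit 29729458⟩]⟩
noncomputable def p075_l19 : Lf2 := ⟨nat_lit 0, nat_lit 10, [nat_lit 0, nat_lit 5, nat_lit 5, nat_lit 20], false, nat_lit 0, nat_lit 160, nat_lit 0, nat_lit 368, ⟨nat_lit 276, nat_lit 0, nat_lit 724, nat_lit 4, nat_lit 191, nat_lit 724, nat_lit 54, nat_lit 724, nat_lit 28017, nat_lit 256, nat_lit 4566, nat_lit 226, nat_lit 54538059, nat_lit 0, nat_lit 0, nat_lit 2401845, false, true⟩,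
 nat_lit 0, nat_lit 4129, nat_lit 0, nat_lit 0, nat_lit 3342, nat_lit 5537, nat_lit 0, nat_lit 0, nat_lit 0, nat_lit 387, nat_lit 0, nat_lit 0, nat_lit 0, nat_lit 0, nat_lit 87, nat_lit 724000, nat_lit 0, nat_lit 0, [(nat_lit 21, [(nat_lit 6, nat_lit 724)])],
 ⟨p075_k7, nat_lit 0, nat_lit 0, nat_lit 445, nat_lit 0, nat_lit 807062, [nat_lit 1805334401, nat_lit 728192001, nat_lit 410878400], [], [nat_lit 19313904707, nat_lit 21166479120, nat_lit 22123198748, nat_lit 23758381336, nat_lit 20140465511, nat_lit 21168008279, nat_lit 22133746095, nat_lit 23040660359], nat_lit 1271250, nat_lit 1271250, nat_lit 1100001, nat_lit 1785000, nat_lit 0, nat_lit 1100001, [nat_lit 490000, nat_lit 1100000, nat_lit 1442500], [nat_lit 6, nat_lit 40, nat_lit 40, nat_lit 80, nat_lit 3, nat_lit 317, nat_lit 100, nat_lit 12]⟩, ⟨p075_k6, nat_lit 0, nat_lit 0, nat_lit 278, nat_lit 0, nat_lit 0, [nat_lit 2199168000, nat_lit 3276672000,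 nat_lit 3880008000], [], [nat_lit 9670861077, nat_lit 9930907977, nat_lit 10668047153, nat_lit 10747573973, nat_lit 8945408756, nat_lit 8707114735, nat_lit 9387446604, nat_lit 9421241963], nat_lit 0, nat_lit 0, nat_lit 0, nat_lit 0, nat_lit 0, nat_lit 0, [], [nat_lit 62, nat_lit 40, nat_lit 40, nat_lit 80, nat_lit 58, nat_lit 456, nat_lit 225, nat_lit 11]⟩,
 ⟨nat_lit 3162, nat_lit 3873, ⟨.ofNat (nat_lit 391890), .ofNat (nat_lit 520934), .ofNat (nat_lit 435446), .ofNat (nat_lit 564520), .ofNat (nat_lit 394735), .ofNat (nat_lit 516642), .ofNat (nat_lit 439014), .ofNat (nat_lit 560952)⟩, ⟨.ofNat (nat_lit 0), .ofNat (nat_lit 261131), .ofNat (nat_lit 0), .ofNat (nat_lit 282924), .ofNat (nat_lit 0), .ofNat (nat_lit 261806), .ofNat (nat_lit 0), .ofNat (nat_lit 283961)⟩⟩, [⟨nat_lit 7, nat_lit 68, nat_lit 100, nat_lit 66, nat_lit 55187846⟩]⟩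
noncomputable def p075_l20 : Lf2 := ⟨nat_lit 0, nat_lit 10, [nat_lit 0, nat_lit 5, nat_lit 5, nat_lit 20], false, nat_lit 0, nat_lit 160, nat_lit 0, nat_lit 384, ⟨nat_lit 176, nat_lit 0, nat_lit 824, nat_lit 4, nat_lit 191, nat_lit 824, nat_lit 59, nat_lit 824, nat_lit 32267, nat_lit 259, nat_lit 4566, nat_lit 226, nat_lit 54538059, nat_lit 0, nat_lit 0, nat_lit 2401845, false, true⟩,
 nat_lit 0, nat_lit 3742, nat_lit 0, nat_lit 0, nat_lit 3029, nat_lit 2777, nat_lit 0, nat_lit 0, nat_lit 0, nat_lit 201, nat_lit 0, nat_lit 0, nat_lit 0, nat_lit 0, nat_lit 139, nat_lit 817400, nat_lit 0, nat_lit 0, [(nat_lit 21, [(nat_lit 5, nat_lit 11), (nat_lit 6, nat_lit 813)])],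
 ⟨p075_k7, nat_lit 0, nat_lit 0, nat_lit 402, nat_lit 0, nat_lit 687391, [nat_lit 2096314401, nat_lit 839018801, nat_lit 432920000], [], [nat_lit 19551651857, nat_lit 20716675831, nat_lit 21851199207, nat_lit 23141674932, nat_lit 20583270855, nat_lit 21568964271, nat_lit 22560133963, nat_lit 23433090231], nat_lit 1271250, nat_lit 1271250, nat_lit 1100001, nat_lit 1785000, nat_lit 0, nat_lit 1100001, [nat_lit 490000, nat_lit 1100000, nat_lit 1442500], [nat_lit 6, nat_lit 40, nat_lit 40, nat_lit 80, nat_lit 3, nat_lit 317, nat_lit 100, nat_lit 12]⟩, ⟨p075_k6, nat_lit 0, nat_lit 0, nat_lit 278, nat_lit 0, nat_lit 0, [nat_lit 1402368000, nat_lit 2089472000, nat_lit 2474208000], [], [nat_lit 6016623407, nat_lit 6187163427, nat_lit 6599479003, nat_lit 6677158143, nat_lit 6303684391, nat_lit 6145637982, nat_lit 6209264255, nat_lit 6059388945], nat_lit 0, nat_lit 0, nat_lit 0, nat_lit 0, nat_lit 0, nat_lit 0, [], [nat_lit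 62, nat_lit 40, nat_lit 40, nat_lit 80, nat_lit 58, nat_lit 456, nat_lit 225, nat_lit 11]⟩,
 ⟨nat_lit 3162, nat_lit 3873, ⟨.ofNat (nat_lit 391890), .ofNat (nat_lit 520934), .ofNat (nat_lit 435446), .ofNat (nat_lit 564520), .ofNat (nat_lit 394735), .ofNat (nat_lit 516642), .ofNat (nat_lit 439014), .ofNat (nat_lit 560952)⟩, ⟨.ofNat (nat_lit 0), .ofNat (nat_lit 282924), .ofNat (nat_lit 0), .ofNat (nat_lit 304717), .ofNat (nat_lit 0), .ofNat (nat_lit 283961), .ofNat (nat_lit 0), .ofNat (nat_lit 306116)⟩⟩, [⟨nat_lit 19, nat_lit 100, nat_lit 57, nat_lit 76, nat_lit 35893281⟩]⟩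
noncomputable def p075_l21 : Lf2 := ⟨nat_lit 0, nat_lit 10, [nat_lit 0, nat_lit 5, nat_lit 5, nat_lit 20], false, nat_lit 0, nat_lit 160, nat_lit 0, nat_lit 160, ⟨nat_lit 1000, nat_lit 0, nat_lit 0, nat_lit 0, nat_lit 0, nat_lit 0, nat_lit 0, nat_lit 0, nat_lit 0, nat_lit 0, nat_lit 0, nat_lit 0, nat_lit 0, nat_lit 0, nat_lit 0, nat_lit 0, false, false⟩,
 nat_lit 0, nat_lit 5820, nat_lit 0, nat_lit 0, nat_lit 4711, nat_lit 9758, nat_lit 1386, nat_lit 0, nat_lit 0, nat_lit 0, nat_lit 0, nat_lit 0, nat_lit 0, nat_lit 0, nat_lit 0, nat_lit 0, nat_lit 0, nat_lit 0, [],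
 ⟨p075_k5, nat_lit 0, nat_lit 0, nat_lit 439, nat_lit 0, nat_lit 835492, [nat_lit 2032000001, nat_lit 6250000000], [], [nat_lit 24800561934, nat_lit 26455732988, nat_lit 31258040487, nat_lit 32729620876, nat_lit 24020570087, nat_lit 24855206812, nat_lit 27547077605, nat_lit 28335669324], nat_lit 1271250, nat_lit 1271250, nat_lit 1271250, nat_lit 1271250, nat_lit 0, nat_lit 1100001, [nat_lit 490000, nat_lit 1427500], [nat_lit 69, nat_lit 40, nat_lit 40, nat_lit 80, nat_lit 64, nat_lit 249, nat_lit 40, nat_lit 9]⟩, ⟨p075_k1, nat_lit 0, nat_lit 0, nat_lit 273, nat_lit 0, nat_lit 0, [nat_lit 7968000000, nat_lit 14058000000], [], [nat_lit 41027457720, nat_lit 41316569264, nat_lit 47805793570, nat_lit 47803399376, nat_lit 33424323776, nat_lit 33604377224, nat_lit 38032472948, nat_lit 38031309618], nat_lit 0, nat_lit 0, nat_lit 0, nat_lit 0, nat_lit 0, nat_lit 0, [], [nat_lit 121, nat_lit 40, nat_lit 40, nat_lit 80,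 nat_lit 28, nat_lit 428, nat_lit 200, nat_lit 10]⟩,
 zbF0, [⟨nat_lit 4, nat_lit 100, nat_lit 66, nat_lit 72, nat_lit 19198707⟩]⟩
noncomputable def p075_l22 : Lf2 := ⟨nat_lit 0, nat_lit 10, [nat_lit 0, nat_lit 5, nat_lit 5, nat_lit 20], false, nat_lit 0, nat_lit 160, nat_lit 160, nat_lit 384, ⟨nat_lit 1000, nat_lit 0, nat_lit 0, nat_lit 0, nat_lit 0, nat_lit 0, nat_lit 0, nat_lit 0, nat_lit 0, nat_lit 0, nat_lit 0, nat_lit 0, nat_lit 0, nat_lit 0, nat_lit 0, nat_lit 0, false, false⟩,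
 nat_lit 0, nat_lit 5870, nat_lit 0, nat_lit 0, nat_lit 4751, nat_lit 9941, nat_lit 1383, nat_lit 0, nat_lit 0, nat_lit 0, nat_lit 0, nat_lit 0, nat_lit 0, nat_lit 0, nat_lit 0, nat_lit 0, nat_lit 0, nat_lit 0, [],
 ⟨p075_k5, nat_lit 0, nat_lit 0, nat_lit 439, nat_lit 0, nat_lit 835492, [nat_lit 2032000001, nat_lit 6250000000], [], [nat_lit 24645065854, nat_lit 26534545308, nat_lit 31354358039, nat_lit 32832461004, nat_lit 23836036287, nat_lit 24673301372, nat_lit 27371763557, nat_lit 28376928872], nat_lit 1271250, nat_lit 1271250, nat_lit 1271250, nat_lit 1271250, nat_lit 0, nat_lit 1100001, [nat_lit 490000, nat_lit 1427500], [nat_lit 69, nat_lit 40, nat_lit 40, nat_lit 80, nat_lit 64, nat_lit 249, nat_lit 40, nat_lit 9]⟩, ⟨p075_k1, nat_lit 0, nat_lit 0, nat_lit 105, nat_lit 0, nat_lit 0, [nat_lit 7968000000, nat_lit 14058000000], [], [nat_lit 12882519184, nat_lit 14442074580, nat_lit 23269956311, nat_lit 23965716744,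 nat_lit 29414772961, nat_lit 29806177604, nat_lit 36636970769, nat_lit 36429744081], nat_lit 0, nat_lit 0, nat_lit 0, nat_lit 0, nat_lit 0, nat_lit 0, [], [nat_lit 121, nat_lit 40, nat_lit 40, nat_lit 80, nat_lit 28, nat_lit 483, nat_lit 250, nat_lit 11]⟩,
 zbF0, [⟨nat_lit 7, nat_lit 63, nat_lit 100, nat_lit 72, nat_lit 635924961⟩, ⟨nat_lit 22, nat_lit 100, nat_lit 40, nat_lit 100, nat_lit 80608178⟩]⟩
noncomputable def p075_l23 : Lf2 := ⟨nat_lit 0, nat_lit 10, [nat_lit 0, nat_lit 5, nat_lit 5, nat_lit 20], false, nat_lit 160, nat_lit 260, nat_lit 0, nat_lit 384, ⟨nat_lit 167, nat_lit 0, nat_lit 833, nat_lit 4, nat_lit 191, nat_lit 833, nat_lit 146, nat_lit 833, nat_lit 89743, nat_lit 288, nat_lit 1350, nat_lit 224, nat_lit 47019973, nat_lit 0, nat_lit 0, nat_lit 4339013, false, true⟩,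
 nat_lit 0, nat_lit 4451, nat_lit 0, nat_lit 0, nat_lit 3338, nat_lit 2633, nat_lit 0, nat_lit 0, nat_lit 0, nat_lit 310, nat_lit 0, nat_lit 0, nat_lit 0, nat_lit 0, nat_lit 33, nat_lit 444200, nat_lit 0, nat_lit 0, [(nat_lit 18, [(nat_lit 5, nat_lit 648), (nat_lit 6, nat_lit 185)])],
 ⟨p075_k3, nat_lit 0, nat_lit 0, nat_lit 309, nat_lit 0, nat_lit 713072, [nat_lit 1401257067, nat_lit 813273334, nat_lit 6732400], [], [nat_lit 18191808085, nat_lit 19156895425, nat_lit 20134191498, nat_lit 21072062226, nat_lit 20839837448, nat_lit 21809602148, nat_lit 22753130233, nat_lit 23723749071], nat_lit 1271250, nat_lit 1271250, nat_lit 1100001, nat_lit 1785000, nat_lit 1100001, nat_lit 1956250, [nat_lit 490000, nat_lit 1100000, nat_lit 1442500], [nat_lit 6, nat_lit 40, nat_lit 40, nat_lit 80, nat_lit 3, nat_lit 345, nat_lit 125, nat_lit 12]⟩, ⟨p075_k6, nat_lit 0, nat_lit 0, nat_lit 278, nat_lit 0, nat_lit 0, [nat_lit 1330656000,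 nat_lit 1982624000, nat_lit 2347686000], [], [nat_lit 5106709282, nat_lit 5268540974, nat_lit 5659619466, nat_lit 5733397718, nat_lit 5927445020, nat_lit 5831851657, nat_lit 5892292470, nat_lit 5750292109], nat_lit 0, nat_lit 0, nat_lit 0, nat_lit 0, nat_lit 0, nat_lit 0, [], [nat_lit 62, nat_lit 40, nat_lit 40, nat_lit 80, nat_lit 58, nat_lit 456, nat_lit 225, nat_lit 11]⟩,
 ⟨nat_lit 3872, nat_lit 4473, ⟨.ofNat (nat_lit 388887), .ofNat (nat_lit 524844), .ofNat (nat_lit 432013), .ofNat (nat_lit 567977), .ofNat (nat_lit 391890), .ofNat (nat_lit 520934), .ofNat (nat_lit 435470), .ofNat (nat_lit 564520)⟩, ⟨.ofNat (nat_lit 259489), .ofNat (nat_lit 429434), .ofNat (nat_lit 302621), .ofNat (nat_lit 472567), .ofNat (nat_lit 261131), .ofNat (nat_lit 422435), .ofNat (nat_lit 304717), .ofNat (nat_lit 466021)⟩⟩, [⟨nat_lit 16, nat_lit 76, nat_lit 100, nat_lit 72, nat_lit 309193952⟩, ⟨nat_lit 19, nat_lit 100, nat_lit 63,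 nat_lit 72, nat_lit 46823070⟩]⟩
noncomputable def p075_l24 : Lf2 := ⟨nat_lit 0, nat_lit 10, [nat_lit 0, nat_lit 5, nat_lit 5, nat_lit 20], false, nat_lit 160, nat_lit 260, nat_lit 0, nat_lit 160, ⟨nat_lit 1000, nat_lit 0, nat_lit 0, nat_lit 0, nat_lit 0, nat_lit 0, nat_lit 0, nat_lit 0, nat_lit 0, nat_lit 0, nat_lit 0, nat_lit 0, nat_lit 0, nat_lit 0, nat_lit 0, nat_lit 0, false, false⟩,
 nat_lit 0, nat_lit 7462, nat_lit 0, nat_lit 0, nat_lit 5596, nat_lit 9857, nat_lit 535, nat_lit 0, nat_lit 0, nat_lit 1187, nat_lit 0, nat_lit 0, nat_lit 0, nat_lit 0, nat_lit 0, nat_lit 0, nat_lit 0, nat_lit 0, [],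
 ⟨p075_k3, nat_lit 0, nat_lit 0, nat_lit 318, nat_lit 0, nat_lit 713072, [nat_lit 2032000001, nat_lit 4688000000, nat_lit 6250000000], [], [nat_lit 26222061250, nat_lit 27181809514, nat_lit 30965103904, nat_lit 31788345320, nat_lit 28319108776, nat_lit 29233173762, nat_lit 32311667464, nat_lit 32996219634], nat_lit 1271250, nat_lit 1271250, nat_lit 1271250, nat_lit 1271250, nat_lit 1100001, nat_lit 1956250, [nat_lit 490000, nat_lit 1100000, nat_lit 1442500], [nat_lit 6, nat_lit 40, nat_lit 40, nat_lit 80, nat_lit 3, nat_lit 289, nat_lit 75, nat_lit 9]⟩, ⟨p075_k6, nat_lit 0, nat_lit 0, nat_lit 317, nat_lit 0, nat_lit 0, [nat_lit 7968000000, nat_lit 11872000000, nat_lit 14058000000], [], [nat_lit 34985396292, nat_lit 35557788364, nat_lit 43499151508, nat_lit 43655138760, nat_lit 27937298412, nat_lit 28348602216, nat_lit 34363774176, nat_lit 34226733308], nat_lit 0, nat_lit 0, nat_lit 0, nat_lit 0, nat_lit 0, nat_lit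 0, [], [nat_lit 62, nat_lit 40, nat_lit 40, nat_lit 80, nat_lit 58, nat_lit 428, nat_lit 200, nat_lit 10]⟩,
 zbF0, [⟨nat_lit 4, nat_lit 100, nat_lit 76, nat_lit 72, nat_lit 498205844⟩, ⟨nat_lit 9, nat_lit 100, nat_lit 87, nat_lit 54, nat_lit 84792125⟩]⟩
noncomputable def p075_l25 : Lf2 := ⟨nat_lit 0, nat_lit 10, [nat_lit 0, nat_lit 5, nat_lit 5, nat_lit 20], false, nat_lit 160, nat_lit 260, nat_lit 160, nat_lit 384, ⟨nat_lit 628, nat_lit 0, nat_lit 372, nat_lit 6, nat_lit 258, nat_lit 372, nat_lit 146, nat_lit 372, nat_lit 89743, nat_lit 288, nat_lit 272572, nat_lit 200, nat_lit 41316797, nat_lit 0, nat_lit 0, nat_lit 4799662, false, true⟩,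
 nat_lit 0, nat_lit 5926, nat_lit 0, nat_lit 0, nat_lit 4444, nat_lit 5142, nat_lit 140, nat_lit 0, nat_lit 0, nat_lit 0, nat_lit 0, nat_lit 0, nat_lit 0, nat_lit 0, nat_lit 0, nat_lit 372000, nat_lit 0, nat_lit 0, [(nat_lit 18, [(nat_lit 6, nat_lit 372)])],
 ⟨p075_k3, nat_lit 0, nat_lit 0, nat_lit 271, nat_lit 0, nat_lit 611735, [nat_lit 1670316801, nat_lit 2482883201, nat_lit 2473902400], [], [nat_lit 23047986754, nat_lit 23456730854, nat_lit 27158798644, nat_lit 27514778288, nat_lit 25042327284, nat_lit 25432586707, nat_lit 28841511868, nat_lit 29334428790], nat_lit 1271250, nat_lit 1271250, nat_lit 1271250, nat_lit 1271250, nat_lit 1100001, nat_lit 1956250, [nat_lit 490000, nat_lit 1100000, nat_lit 1442500], [nat_lit 6, nat_lit 40, nat_lit 40, nat_lit 80, nat_lit 3, nat_lit 289, nat_lit 75, nat_lit 9]⟩, ⟨p075_k6, nat_lit 0, nat_lit 0, nat_lit 148, nat_lit 0, nat_lit 0, [nat_lit 5003904000, nat_lit 7455616000,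 nat_lit 8828424000], [], [nat_lit 9666092592, nat_lit 10591815560, nat_lit 16405942800, nat_lit 16798326152, nat_lit 18943805589, nat_lit 19091201340, nat_lit 22378963180, nat_lit 22308140215], nat_lit 0, nat_lit 0, nat_lit 0, nat_lit 0, nat_lit 0, nat_lit 0, [], [nat_lit 62, nat_lit 40, nat_lit 40, nat_lit 80, nat_lit 58, nat_lit 483, nat_lit 250, nat_lit 11]⟩,
 ⟨nat_lit 4183, nat_lit 4473, ⟨.ofNat (nat_lit 524844), .ofNat (nat_lit 728778), .ofNat (nat_lit 567977), .ofNat (nat_lit 771911), .ofNat (nat_lit 522921), .ofNat (nat_lit 721688), .ofNat (nat_lit 566254), .ofNat (nat_lit 765021)⟩, ⟨.ofNat (nat_lit 259489), .ofNat (nat_lit 429434), .ofNat (nat_lit 302621), .ofNat (nat_lit 472567), .ofNat (nat_lit 260409), .ofNat (nat_lit 426048), .ofNat (nat_lit 303743), .ofNat (nat_lit 469382)⟩⟩, [⟨nat_lit 16, nat_lit 83, nat_lit 100, nat_lit 83, nat_lit 179976882⟩, ⟨nat_lit 4, nat_lit 100, nat_lit 79, nat_lit 72, nat_lit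 171819772⟩, ⟨nat_lit 19, nat_lit 100, nat_lit 44, nat_lit 82, nat_lit 346262156⟩]⟩
noncomputable def p075_l26 : Lf2 := ⟨nat_lit 0, nat_lit 10, [nat_lit 0, nat_lit 5, nat_lit 5, nat_lit 20], false, nat_lit 160, nat_lit 244, nat_lit 160, nat_lit 384, ⟨nat_lit 1000, nat_lit 0, nat_lit 0, nat_lit 0, nat_lit 0, nat_lit 0, nat_lit 0, nat_lit 0, nat_lit 0, nat_lit 0, nat_lit 0, nat_lit 0, nat_lit 0, nat_lit 0, nat_lit 0, nat_lit 0, false, false⟩,
 nat_lit 0, nat_lit 6745, nat_lit 0, nat_lit 0, nat_lit 5257, nat_lit 8589, nat_lit 1631, nat_lit 0, nat_lit 0, nat_lit 0, nat_lit 0, nat_lit 0, nat_lit 0, nat_lit 0, nat_lit 0, nat_lit 0, nat_lit 0, nat_lit 0, [],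
 ⟨p075_k8, nat_lit 0, nat_lit 0, nat_lit 304, nat_lit 0, nat_lit 677422, [nat_lit 2032000001, nat_lit 4688000000, nat_lit 6250000000], [], [nat_lit 21965456212, nat_lit 22431595081, nat_lit 27456787442, nat_lit 28115579727, nat_lit 23426809708, nat_lit 23888259332, nat_lit 29044574655, nat_lit 29608347831], nat_lit 1271250, nat_lit 1271250, nat_lit 1271250, nat_lit 1271250, nat_lit 1100001, nat_lit 1819250, [nat_lit 490000, nat_lit 1100000, nat_lit 1442500], [nat_lit 6, nat_lit 40, nat_lit 40, nat_lit 80, nat_lit 3, nat_lit 289, nat_lit 75, nat_lit 9]⟩, ⟨p075_k6, nat_lit 0, nat_lit 0, nat_lit 146, nat_lit 0, nat_lit 0, [nat_lit 7968000000, nat_lit 11872000000, nat_lit 14058000000], [], [nat_lit 14817739536, nat_lit 16311376820, nat_lit 25066640045, nat_lit 25737183323, nat_lit 29993579304, nat_lit 30197161046, nat_lit 35546872016, nat_lit 35443053070], nat_lit 0, nat_lit 0, nat_lit 0, nat_lit 0, nat_lit 0, nat_lit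 0, [], [nat_lit 62, nat_lit 40, nat_lit 40, nat_lit 80, nat_lit 58, nat_lit 483, nat_lit 250, nat_lit 11]⟩,
 zbF0, [⟨nat_lit 16, nat_lit 78, nat_lit 100, nat_lit 82, nat_lit 458033007⟩, ⟨nat_lit 19, nat_lit 100, nat_lit 44, nat_lit 82, nat_lit 578125112⟩]⟩
noncomputable def p075_l27 : Lf2 := ⟨nat_lit 0, nat_lit 10, [nat_lit 0, nat_lit 5, nat_lit 5, nat_lit 20], true, nat_lit 160, nat_lit 232, nat_lit 0, nat_lit 384, ⟨nat_lit 0, nat_lit 0, nat_lit 1000, nat_lit 4, nat_lit 191, nat_lit 1000, nat_lit 136, nat_lit 1000, nat_lit 173400, nat_lit 317, nat_lit 4566, nat_lit 226, nat_lit 47731307, nat_lit 0, nat_lit 0, nat_lit 4225331, false, true⟩,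
 nat_lit 0, nat_lit 3619, nat_lit 0, nat_lit 0, nat_lit 2929, nat_lit 0, nat_lit 0, nat_lit 0, nat_lit 0, nat_lit 0, nat_lit 0, nat_lit 0, nat_lit 0, nat_lit 0, nat_lit 235, nat_lit 1000000, nat_lit 0, nat_lit 0, [(nat_lit 21, [(nat_lit 6, nat_lit 1000)])],
 ⟨p075_k7, nat_lit 0, nat_lit 0, nat_lit 361, nat_lit 0, nat_lit 835492, [nat_lit 2637600000, nat_lit 1056000001, nat_lit 481600000], [], [nat_lit 18798572862, nat_lit 19838247512, nat_lit 20878335136, nat_lit 21797349480, nat_lit 20670358909, nat_lit 21601439284, nat_lit 22509352893, nat_lit 23668973892], nat_lit 1271250, nat_lit 1271250, nat_lit 1100001, nat_lit 1785000, nat_lit 1100001, nat_lit 1716500, [nat_lit 490000, nat_lit 1100000, nat_lit 1442500], [nat_lit 6, nat_lit 40, nat_lit 40, nat_lit 80, nat_lit 3, nat_lit 345, nat_lit 125, nat_lit 12]⟩, C1.Rw.none,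
 ⟨nat_lit 3162, nat_lit 3873, ⟨.ofNat (nat_lit 391890), .ofNat (nat_lit 520934), .ofNat (nat_lit 435446), .ofNat (nat_lit 564520), .ofNat (nat_lit 394735), .ofNat (nat_lit 516642), .ofNat (nat_lit 439014), .ofNat (nat_lit 560952)⟩, ⟨.ofNat (nat_lit 261131), .ofNat (nat_lit 377270), .ofNat (nat_lit 304717), .ofNat (nat_lit 420856), .ofNat (nat_lit 261806), .ofNat (nat_lit 371522), .ofNat (nat_lit 306116), .ofNat (nat_lit 415832)⟩⟩, [⟨nat_lit 4, nat_lit 100, nat_lit 66, nat_lit 72, nat_lit 453691172⟩]⟩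
noncomputable def p075_l28 : Lf2 := ⟨nat_lit 0, nat_lit 10, [nat_lit 0, nat_lit 5, nat_lit 5, nat_lit 20], false, nat_lit 160, nat_lit 232, nat_lit 0, nat_lit 160, ⟨nat_lit 1000, nat_lit 0, nat_lit 0, nat_lit 0, nat_lit 0, nat_lit 0, nat_lit 0, nat_lit 0, nat_lit 0, nat_lit 0, nat_lit 0, nat_lit 0, nat_lit 0, nat_lit 0, nat_lit 0, nat_lit 0, false, false⟩,
 nat_lit 0, nat_lit 6554, nat_lit 0, nat_lit 0, nat_lit 5305, nat_lit 9589, nat_lit 644, nat_lit 0, nat_lit 0, nat_lit 1173, nat_lit 0, nat_lit 0, nat_lit 0, nat_lit 0, nat_lit 0, nat_lit 0, nat_lit 0, nat_lit 0, [],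
 ⟨p075_k7, nat_lit 0, nat_lit 0, nat_lit 359, nat_lit 0, nat_lit 835492, [nat_lit 2032000001, nat_lit 4688000000, nat_lit 6250000000], [], [nat_lit 22726241904, nat_lit 23637403544, nat_lit 27613212472, nat_lit 28971188716, nat_lit 23921045562, nat_lit 25044393722, nat_lit 28896565093, nat_lit 30086442318], nat_lit 1271250, nat_lit 1271250, nat_lit 1271250, nat_lit 1271250, nat_lit 1100001, nat_lit 1716500, [nat_lit 490000, nat_lit 1100000, nat_lit 1442500], [nat_lit 6, nat_lit 40, nat_lit 40, nat_lit 80, nat_lit 3, nat_lit 272, nat_lit 60, nat_lit 9]⟩, ⟨p075_k6, nat_lit 0, nat_lit 0, nat_lit 311, nat_lit 0, nat_lit 0, [nat_lit 7968000000, nat_lit 11872000000, nat_lit 14058000000], [], [nat_lit 35218568084, nat_lit 35800743228, nat_lit 41712680718, nat_lit 41872840047, nat_lit 28438159324, nat_lit 28861959432, nat_lit 33783419178, nat_lit 33747044856], nat_lit 0, nat_lit 0, nat_lit 0, nat_lit 0, nat_lit 0, nat_lit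 0, [], [nat_lit 62, nat_lit 40, nat_lit 40, nat_lit 80, nat_lit 58, nat_lit 428, nat_lit 200, nat_lit 10]⟩,
 zbF0, [⟨nat_lit 13, nat_lit 61, nat_lit 92, nat_lit 100, nat_lit 70616555⟩, ⟨nat_lit 4, nat_lit 100, nat_lit 66, nat_lit 72, nat_lit 631189147⟩, ⟨nat_lit 9, nat_lit 100, nat_lit 89, nat_lit 44, nat_lit 73471849⟩]⟩
noncomputable def p075_l29 : Lf2 := ⟨nat_lit 0, nat_lit 10, [nat_lit 0, nat_lit 5, nat_lit 5, nat_lit 20], false, nat_lit 160, nat_lit 232, nat_lit 160, nat_lit 384, ⟨nat_lit 1000, nat_lit 0, nat_lit 0, nat_lit 0, nat_lit 0, nat_lit 0, nat_lit 0, nat_lit 0, nat_lit 0, nat_lit 0, nat_lit 0, nat_lit 0, nat_lit 0, nat_lit 0, nat_lit 0, nat_lit 0, false, false⟩,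
 nat_lit 0, nat_lit 6002, nat_lit 0, nat_lit 0, nat_lit 4858, nat_lit 8702, nat_lit 1394, nat_lit 0, nat_lit 0, nat_lit 0, nat_lit 0, nat_lit 0, nat_lit 0, nat_lit 0, nat_lit 0, nat_lit 0, nat_lit 0, nat_lit 0, [],
 ⟨p075_k7, nat_lit 0, nat_lit 0, nat_lit 359, nat_lit 0, nat_lit 835492, [nat_lit 2032000001, nat_lit 4688000000, nat_lit 6250000000], [], [nat_lit 22288519519, nat_lit 23359907655, nat_lit 27193948644, nat_lit 28491704690, nat_lit 23837893366, nat_lit 24787322509, nat_lit 28514248818, nat_lit 29654897325], nat_lit 1271250, nat_lit 1271250, nat_lit 1271250, nat_lit 1271250, nat_lit 1100001, nat_lit 1716500, [nat_lit 490000, nat_lit 1100000, nat_lit 1442500], [nat_lit 6, nat_lit 40, nat_lit 40, nat_lit 80, nat_lit 3, nat_lit 272, nat_lit 60, nat_lit 9]⟩, ⟨p075_k6, nat_lit 0, nat_lit 0, nat_lit 144, nat_lit 0, nat_lit 0, [nat_lit 7968000000, nat_lit 11872000000, nat_lit 14058000000], [], [nat_lit 14655994048,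 nat_lit 16155140760, nat_lit 24165537229, nat_lit 24894402751, nat_lit 29945202738, nat_lit 30140015861, nat_lit 35070754834, nat_lit 34999548342], nat_lit 0, nat_lit 0, nat_lit 0, nat_lit 0, nat_lit 0, nat_lit 0, [], [nat_lit 62, nat_lit 40, nat_lit 40, nat_lit 80, nat_lit 58, nat_lit 483, nat_lit 250, nat_lit 11]⟩,
 zbF0, [⟨nat_lit 4, nat_lit 100, nat_lit 66, nat_lit 72, nat_lit 635891299⟩, ⟨nat_lit 19, nat_lit 100, nat_lit 44, nat_lit 82, nat_lit 589694922⟩]⟩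
noncomputable def b_V_800_400_10_1 : St := ⟨true, nat_lit 1, nat_lit 0, nat_lit 1, nat_lit 80, nat_lit 320, nat_lit 360, nat_lit 160, nat_lit 200, nat_lit 16, nat_lit 360, nat_lit 40, nat_lit 80, nat_lit 0, nat_lit 260, nat_lit 0, nat_lit 384, nat_lit 0, nat_lit 40, nat_lit 0, nat_lit 0, nat_lit 0, nat_lit 0⟩
theorem d_V_800_400_10_1 (h : EB TB.env) : Dead b_V_800_400_10_1 := chkB_sound0 h (T :=
(.spl (nat_lit 2) (nat_lit 160)
(.spl (nat_lit 4) (nat_lit 160)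
(.spl (nat_lit 0) (nat_lit 340)
(.spl (nat_lit 0) (nat_lit 330)
(.leaf p075_l10)
(.trZ (nat_lit 0) (nat_lit 100) (nat_lit 78) (nat_lit 49) (nat_lit 24) (.leaf p075_l11)))
(.trZ (nat_lit 0) (nat_lit 100) (nat_lit 73) (nat_lit 55) (nat_lit 32) (.leaf p075_l12)))
(.spl (nat_lit 0) (nat_lit 340)
(.leaf p075_l13)
(.trZ (nat_lit 0) (nat_lit 100) (nat_lit 73) (nat_lit 55) (nat_lit 32) (.trX (nat_lit 16) (nat_lit 72) (nat_lit 100) (nat_lit 81) (nat_lit 232) (.leaf p075_l14)))))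
(.spl (nat_lit 4) (nat_lit 160)
(.spl (nat_lit 0) (nat_lit 340)
(.spl (nat_lit 2) (nat_lit 240)
(.leaf p075_l15)
(.spl (nat_lit 5) (nat_lit 160)
(.leaf p075_l16)
(.spl (nat_lit 0) (nat_lit 330)
(.leaf p075_l17)
(.trX (nat_lit 13) (nat_lit 76) (nat_lit 65) (nat_lit 100) (nat_lit 352) (.leaf p075_l18)))))
(.trX (nat_lit 13) (nat_lit 71) (nat_lit 70) (nat_lit 100) (nat_lit 344) (.spl (nat_lit 2) (nat_lit 240)
(.spl (nat_lit 3) (nat_lit 60)
(.trX (nat_lit 19) (nat_lit 100) (nat_lit 55) (nat_lit 73) (nat_lit 368) (.leaf p075_l19))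
(.leaf p075_l20))
(.spl (nat_lit 5) (nat_lit 160)
(.leaf p075_l21)
(.leaf p075_l22)))))
(.spl (nat_lit 0) (nat_lit 340)
(.spl (nat_lit 2) (nat_lit 240)
(.leaf p075_l23)
(.spl (nat_lit 5) (nat_lit 160)
(.leaf p075_l24)
(.spl (nat_lit 0) (nat_lit 330)
(.leaf p075_l25)
(.trX (nat_lit 13) (nat_lit 76) (nat_lit 65) (nat_lit 100) (nat_lit 352) (.trX (nat_lit 16) (nat_lit 78) (nat_lit 100) (nat_lit 82) (nat_lit 244) (.leaf p075_l26))))))
(.trX (nat_lit 13) (nat_lit 71) (nat_lit 70) (nat_lit 100) (nat_lit 344) (.trX (nat_lit 16) (nat_lit 72) (nat_lit 100) (nat_lit 81) (nat_lit 232) (.spl (nat_lit 2) (nat_lit 240)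
(.leaf p075_l27)
(.spl (nat_lit 5) (nat_lit 160)
(.leaf p075_l28)
(.leaf p075_l29))))))))) (by decide +kernel)
noncomputable def p075_l30 : Lf2 := ⟨nat_lit 0, nat_lit 10, [nat_lit 0, nat_lit 5, nat_lit 5, nat_lit 20], true, nat_lit 0, nat_lit 260, nat_lit 0, nat_lit 384, ⟨nat_lit 0, nat_lit 0, nat_lit 1000, nat_lit 4, nat_lit 93, nat_lit 1000, nat_lit 89, nat_lit 1000, nat_lit 72600, nat_lit 281, nat_lit 81667, nat_lit 285, nat_lit 63551261, nat_lit 0, nat_lit 0, nat_lit 1014150, false, false⟩,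
 nat_lit 0, nat_lit 3964, nat_lit 0, nat_lit 0, nat_lit 2973, nat_lit 0, nat_lit 0, nat_lit 0, nat_lit 0, nat_lit 0, nat_lit 0, nat_lit 0, nat_lit 0, nat_lit 0, nat_lit 76, nat_lit 400000, nat_lit 0, nat_lit 0, [(nat_lit 18, [(nat_lit 5, nat_lit 1000)]), (nat_lit 21, [(nat_lit 5, nat_lit 1000)])],
 ⟨p075_k3, nat_lit 0, nat_lit 0, nat_lit 441, nat_lit 0, nat_lit 603386, [nat_lit 1585600001, nat_lit 802000001, nat_lit 14800000], [], [nat_lit 20566109042, nat_lit 22039908984, nat_lit 17182789526, nat_lit 19915308008, nat_lit 21619442318, nat_lit 23558978585, nat_lit 22811649824, nat_lit 23375007725], nat_lit 1271250, nat_lit 1271250, nat_lit 88400, nat_lit 490000, nat_lit 0, nat_lit 1836250, [nat_lit 490000, nat_lit 1100000, nat_lit 1442500], [nat_lit 6, nat_lit 40, nat_lit 40, nat_lit 80, nat_lit 3, nat_lit 317, nat_lit 100, nat_lit 12]⟩, C1.Rw.none,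
 ⟨nat_lit 3162, nat_lit 4473, ⟨.ofNat (nat_lit 143971), .ofNat (nat_lit 252852), .ofNat (nat_lit 186943), .ofNat (nat_lit 295833), .ofNat (nat_lit 175109), .ofNat (nat_lit 272750), .ofNat (nat_lit 219258), .ofNat (nat_lit 316907)⟩, ⟨.negSucc (nat_lit 12437), .ofNat (nat_lit 429433), .ofNat (nat_lit 0), .ofNat (nat_lit 472567), .ofNat (nat_lit 0), .ofNat (nat_lit 414188), .ofNat (nat_lit 0), .ofNat (nat_lit 458499)⟩⟩, [⟨nat_lit 0, nat_lit 100, nat_lit 72, nat_lit 63, nat_lit 138304719⟩, ⟨nat_lit 4, nat_lit 100, nat_lit 71, nat_lit 71, nat_lit 43434464⟩]⟩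
noncomputable def p075_l31 : Lf2 := ⟨nat_lit 0, nat_lit 10, [nat_lit 0, nat_lit 5, nat_lit 5, nat_lit 20], false, nat_lit 0, nat_lit 260, nat_lit 0, nat_lit 384, ⟨nat_lit 0, nat_lit 0, nat_lit 1000, nat_lit 4, nat_lit 140, nat_lit 1000, nat_lit 89, nat_lit 1000, nat_lit 72600, nat_lit 281, nat_lit 183750, nat_lit 320, nat_lit 59721314, nat_lit 0, nat_lit 0, nat_lit 1718279, false, false⟩,
 nat_lit 0, nat_lit 4177, nat_lit 0, nat_lit 0, nat_lit 3132, nat_lit 0, nat_lit 0, nat_lit 0, nat_lit 0, nat_lit 0, nat_lit 0, nat_lit 0, nat_lit 0, nat_lit 0, nat_lit 76, nat_lit 400000, nat_lit 0, nat_lit 0, [(nat_lit 18, [(nat_lit 5, nat_lit 1000)]), (nat_lit 21, [(nat_lit 5, nat_lit 1000)])],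
 ⟨p075_k3, nat_lit 0, nat_lit 0, nat_lit 391, nat_lit 0, nat_lit 603386, [nat_lit 1585600001, nat_lit 802000001, nat_lit 14800000], [], [nat_lit 20717310660, nat_lit 20288687072, nat_lit 17183675126, nat_lit 20768243520, nat_lit 20222262574, nat_lit 22242772924, nat_lit 23214693762, nat_lit 23053297746], nat_lit 1271250, nat_lit 1271250, nat_lit 490000, nat_lit 1100001, nat_lit 0, nat_lit 1836250, [nat_lit 490000, nat_lit 1100000, nat_lit 1442500], [nat_lit 6, nat_lit 40, nat_lit 40, nat_lit 80, nat_lit 3, nat_lit 345, nat_lit 125, nat_lit 13]⟩, ⟨p075_k6, nat_lit 0, nat_lit 0, nat_lit 1212, nat_lit 0, nat_lit 1694616, [nat_lit 0, nat_lit 0, nat_lit 0], [], [nat_lit 0, nat_lit 0, nat_lit 0, nat_lit 0, nat_lit 0, nat_lit 0, nat_lit 0, nat_lit 0], nat_lit 1100001, nat_lit 1442500, nat_lit 490000, nat_lit 1100001, nat_lit 0, nat_lit 2712000, [nat_lit 1695000, nat_lit 1271250, nat_lit 1271250], [nat_lit 62, nat_lit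 40, nat_lit 40, nat_lit 80, nat_lit 58, nat_lit 428, nat_lit 200, nat_lit 10]⟩,
 ⟨nat_lit 3162, nat_lit 4473, ⟨.ofNat (nat_lit 252852), .ofNat (nat_lit 388887), .ofNat (nat_lit 295833), .ofNat (nat_lit 431944), .ofNat (nat_lit 272750), .ofNat (nat_lit 394735), .ofNat (nat_lit 316907), .ofNat (nat_lit 438969)⟩, ⟨.negSucc (nat_lit 12437), .ofNat (nat_lit 429433), .ofNat (nat_lit 0), .ofNat (nat_lit 472567), .ofNat (nat_lit 0), .ofNat (nat_lit 414188), .ofNat (nat_lit 0), .ofNat (nat_lit 458499)⟩⟩, [⟨nat_lit 4, nat_lit 100, nat_lit 71, nat_lit 71, nat_lit 18652519⟩]⟩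
noncomputable def b_V_800_400_10_2 : St := ⟨true, nat_lit 1, nat_lit 1, nat_lit 1, nat_lit 80, nat_lit 320, nat_lit 360, nat_lit 160, nat_lit 200, nat_lit 16, nat_lit 160, nat_lit 40, nat_lit 80, nat_lit 0, nat_lit 260, nat_lit 0, nat_lit 384, nat_lit 0, nat_lit 40, nat_lit 0, nat_lit 0, nat_lit 0, nat_lit 0⟩
theorem d_V_800_400_10_2 (h : EB TB.env) : Dead b_V_800_400_10_2 := chkB_sound0 h (T :=
(.spl (nat_lit 2) (nat_lit 80)
(.leaf p075_l30)
(.leaf p075_l31))) (by decide +kernel)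
noncomputable def p075_l32 : Lf2 := ⟨nat_lit 0, nat_lit 10, [nat_lit 0, nat_lit 5, nat_lit 5, nat_lit 20], false, nat_lit 0, nat_lit 160, nat_lit 0, nat_lit 384, ⟨nat_lit 0, nat_lit 11, nat_lit 989, nat_lit 4, nat_lit 191, nat_lit 1000, nat_lit 56, nat_lit 989, nat_lit 29400, nat_lit 257, nat_lit 1350, nat_lit 224, nat_lit 54525315, nat_lit 12474685, nat_lit 0, nat_lit 2403248, false, true⟩,
 nat_lit 0, nat_lit 3665, nat_lit 0, nat_lit 0, nat_lit 2748, nat_lit 0, nat_lit 0, nat_lit 0, nat_lit 0, nat_lit 0, nat_lit 0, nat_lit 0, nat_lit 0, nat_lit 0, nat_lit 74, nat_lit 400000, nat_lit 0, nat_lit 0, [(nat_lit 18, [(nat_lit 1, nat_lit 11), (nat_lit 5, nat_lit 989)])],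
 ⟨p075_k3, nat_lit 0, nat_lit 0, nat_lit 302, nat_lit 0, nat_lit 465478, [nat_lit 1525962667, nat_lit 796187334, nat_lit 12926000], [], [nat_lit 19899497052, nat_lit 18608329295, nat_lit 19982053895, nat_lit 21101607943, nat_lit 18630004103, nat_lit 19712059143, nat_lit 21318316834, nat_lit 21884911583], nat_lit 1271250, nat_lit 1271250, nat_lit 1100001, nat_lit 1785000, nat_lit 0, nat_lit 1100001, [nat_lit 490000, nat_lit 1100000, nat_lit 1442500], [nat_lit 6, nat_lit 40, nat_lit 40, nat_lit 80, nat_lit 3, nat_lit 317, nat_lit 100, nat_lit 12]⟩, ⟨p075_k6, nat_lit 0, nat_lit 0, nat_lit 994, nat_lit 0, nat_lit 1307298, [nat_lit 0, nat_lit 0, nat_lit 0], [], [nat_lit 0, nat_lit 0, nat_lit 0, nat_lit 0, nat_lit 0, nat_lit 0, nat_lit 0, nat_lit 0], nat_lit 1100001, nat_lit 1442500, nat_lit 1271250, nat_lit 1271250, nat_lit 0, nat_lit 2712000, [nat_lit 1695000, nat_lit 1271250, nat_lit 1271250], [nat_lit 62, nat_lit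 40, nat_lit 40, nat_lit 80, nat_lit 58, nat_lit 456, nat_lit 225, nat_lit 11]⟩,
 ⟨nat_lit 3872, nat_lit 4473, ⟨.ofNat (nat_lit 388887), .ofNat (nat_lit 524844), .ofNat (nat_lit 432013), .ofNat (nat_lit 567977), .ofNat (nat_lit 391890), .ofNat (nat_lit 520934), .ofNat (nat_lit 435470), .ofNat (nat_lit 564520)⟩, ⟨.negSucc (nat_lit 12427), .ofNat (nat_lit 259489), .ofNat (nat_lit 0), .ofNat (nat_lit 302621), .ofNat (nat_lit 0), .ofNat (nat_lit 261131), .ofNat (nat_lit 0), .ofNat (nat_lit 304717)⟩⟩, []⟩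
noncomputable def p075_l33 : Lf2 := ⟨nat_lit 0, nat_lit 10, [nat_lit 0, nat_lit 5, nat_lit 5, nat_lit 20], false, nat_lit 0, nat_lit 80, nat_lit 0, nat_lit 336, ⟨nat_lit 82, nat_lit 918, nat_lit 0, nat_lit 6, nat_lit 245, nat_lit 918, nat_lit 29, nat_lit 0, nat_lit 0, nat_lit 0, nat_lit 0, nat_lit 0, nat_lit 48716712, nat_lit 18283288, nat_lit 0, nat_lit 2930534, false, true⟩,
 nat_lit 3276, nat_lit 1532, nat_lit 0, nat_lit 0, nat_lit 3605, nat_lit 1091, nat_lit 0, nat_lit 0, nat_lit 0, nat_lit 79, nat_lit 0, nat_lit 0, nat_lit 0, nat_lit 0, nat_lit 0, nat_lit 891000, nat_lit 0, nat_lit 0, [(nat_lit 18, [(nat_lit 1, nat_lit 45), (nat_lit 2, nat_lit 873)])],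
 ⟨p075_k3, nat_lit 0, nat_lit 0, nat_lit 273, nat_lit 0, nat_lit 399327, [nat_lit 1715269600, nat_lit 1385492001, nat_lit 213822400], [], [nat_lit 22689344583, nat_lit 23187496803, nat_lit 25854847881, nat_lit 26337651636, nat_lit 21798262323, nat_lit 22267568436, nat_lit 24920902281, nat_lit 25375158831], nat_lit 1271250, nat_lit 1271250, nat_lit 1271250, nat_lit 1271250, nat_lit 0, nat_lit 490000, [nat_lit 490000, nat_lit 1100000, nat_lit 1442500], [nat_lit 6, nat_lit 40, nat_lit 40, nat_lit 80, nat_lit 3, nat_lit 226, nat_lit 20, nat_lit 8]⟩, ⟨p075_k6, nat_lit 0, nat_lit 0, nat_lit 870, nat_lit 0, nat_lit 1121514, [nat_lit 653376000, nat_lit 973504000, nat_lit 1152756000], [], [nat_lit 3657662768, nat_lit 3594080260, nat_lit 3790471192, nat_lit 3705404448, nat_lit 3872710762, nat_lit 4509231421, nat_lit 2879968242, nat_lit 2824301919], nat_lit 1100001, nat_lit 1442500, nat_lit 1271250, nat_lit 1271250, nat_lit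 0, nat_lit 2373000, [nat_lit 1695000, nat_lit 1271250, nat_lit 1271250], [nat_lit 62, nat_lit 40, nat_lit 40, nat_lit 80, nat_lit 58, nat_lit 456, nat_lit 225, nat_lit 11]⟩,
 ⟨nat_lit 4183, nat_lit 4473, ⟨.ofNat (nat_lit 524844), .ofNat (nat_lit 660800), .ofNat (nat_lit 567977), .ofNat (nat_lit 703933), .ofNat (nat_lit 522921), .ofNat (nat_lit 655432), .ofNat (nat_lit 566254), .ofNat (nat_lit 698765)⟩, ⟨.negSucc (nat_lit 12423), .ofNat (nat_lit 123532), .ofNat (nat_lit 0), .ofNat (nat_lit 166665), .negSucc (nat_lit 4612), .ofNat (nat_lit 127898), .ofNat (nat_lit 0), .ofNat (nat_lit 171231)⟩⟩, [⟨nat_lit 22, nat_lit 93, nat_lit 100, nat_lit 25, nat_lit 5846136⟩, ⟨nat_lit 22, nat_lit 94, nat_lit 100, nat_lit 62, nat_lit 1847072⟩]⟩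
noncomputable def p075_l34 : Lf2 := ⟨nat_lit 0, nat_lit 10, [nat_lit 0, nat_lit 5, nat_lit 5, nat_lit 20], false, nat_lit 0, nat_lit 80, nat_lit 0, nat_lit 336, ⟨nat_lit 95, nat_lit 410, nat_lit 495, nat_lit 6, nat_lit 244, nat_lit 905, nat_lit 30, nat_lit 495, nat_lit 8067, nat_lit 237, nat_lit 126280, nat_lit 200, nat_lit 48832502, nat_lit 18167498, nat_lit 0, nat_lit 2922028, false, true⟩,
 nat_lit 3762, nat_lit 23, nat_lit 0, nat_lit 0, nat_lit 2950, nat_lit 1253, nat_lit 415, nat_lit 0, nat_lit 0, nat_lit 88, nat_lit 0, nat_lit 0, nat_lit 0, nat_lit 0, nat_lit 0, nat_lit 362000, nat_lit 0, nat_lit 0, [(nat_lit 18, [(nat_lit 1, nat_lit 410), (nat_lit 5, nat_lit 495)])],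
 ⟨p075_k8, nat_lit 0, nat_lit 0, nat_lit 279, nat_lit 0, nat_lit 412820, [nat_lit 1226030667, nat_lit 1046763334, nat_lit 652604000], [], [nat_lit 22240836069, nat_lit 22478601194, nat_lit 25061481169, nat_lit 25265631544, nat_lit 21827635919, nat_lit 22051127469, nat_lit 24495197469, nat_lit 24687951294], nat_lit 1271250, nat_lit 1271250, nat_lit 1271250, nat_lit 1271250, nat_lit 0, nat_lit 490000, [nat_lit 490000, nat_lit 1100000, nat_lit 1442500], [nat_lit 6, nat_lit 40, nat_lit 40, nat_lit 80, nat_lit 3, nat_lit 226, nat_lit 20, nat_lit 8]⟩, ⟨p075_k6, nat_lit 0, nat_lit 0, nat_lit 922, nat_lit 0, nat_lit 1213835, [nat_lit 756960000, nat_lit 1127840000, nat_lit 1335510000], [], [nat_lit 4261712216, nat_lit 4184073388, nat_lit 4410407920, nat_lit 4313286456, nat_lit 4486120757, nat_lit 5218285755, nat_lit 3357184267, nat_lit 3277494428], nat_lit 1100001, nat_lit 1442500, nat_lit 1271250, nat_lit 1271250, nat_lit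 0, nat_lit 2373000, [nat_lit 1695000, nat_lit 1271250, nat_lit 1271250], [nat_lit 62, nat_lit 40, nat_lit 40, nat_lit 80, nat_lit 58, nat_lit 456, nat_lit 225, nat_lit 11]⟩,
 ⟨nat_lit 4031, nat_lit 4184, ⟨.ofNat (nat_lit 522921), .ofNat (nat_lit 655432), .ofNat (nat_lit 566254), .ofNat (nat_lit 698765), .ofNat (nat_lit 521937), .ofNat (nat_lit 652718), .ofNat (nat_lit 565389), .ofNat (nat_lit 696171)⟩, ⟨.negSucc (nat_lit 4612), .ofNat (nat_lit 127898), .ofNat (nat_lit 0), .ofNat (nat_lit 171231), .negSucc (nat_lit 765), .ofNat (nat_lit 130015), .ofNat (nat_lit 0), .ofNat (nat_lit 173468)⟩⟩, [⟨nat_lit 22, nat_lit 93, nat_lit 100, nat_lit 25, nat_lit 11156071⟩]⟩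
noncomputable def p075_l35 : Lf2 := ⟨nat_lit 0, nat_lit 10, [nat_lit 0, nat_lit 5, nat_lit 5, nat_lit 20], false, nat_lit 0, nat_lit 80, nat_lit 0, nat_lit 336, ⟨nat_lit 75, nat_lit 853, nat_lit 72, nat_lit 6, nat_lit 243, nat_lit 925, nat_lit 31, nat_lit 72, nat_lit 8817, nat_lit 238, nat_lit 121092, nat_lit 200, nat_lit 48910544, nat_lit 18089456, nat_lit 0, nat_lit 2916252, false, true⟩,
 nat_lit 2982, nat_lit 1170, nat_lit 0, nat_lit 0, nat_lit 3298, nat_lit 994, nat_lit 468, nat_lit 0, nat_lit 0, nat_lit 70, nat_lit 0, nat_lit 0, nat_lit 0, nat_lit 0, nat_lit 0, nat_lit 370000, nat_lit 0, nat_lit 0, [(nat_lit 18, [(nat_lit 1, nat_lit 853), (nat_lit 5, nat_lit 72)])],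
 ⟨p075_k9, nat_lit 0, nat_lit 0, nat_lit 300, nat_lit 0, nat_lit 434734, [nat_lit 1411881334, nat_lit 1999358667, nat_lit 2032938000], [], [nat_lit 23262206477, nat_lit 23510814412, nat_lit 26134932871, nat_lit 26348469664, nat_lit 22637226918, nat_lit 22870563040, nat_lit 25350566721, nat_lit 25550702844], nat_lit 1271250, nat_lit 1271250, nat_lit 1271250, nat_lit 1271250, nat_lit 0, nat_lit 490000, [nat_lit 490000, nat_lit 1100000, nat_lit 1442500], [nat_lit 6, nat_lit 40, nat_lit 40, nat_lit 80, nat_lit 3, nat_lit 226, nat_lit 20, nat_lit 8]⟩, ⟨p075_k6, nat_lit 0, nat_lit 0, nat_lit 961, nat_lit 0, nat_lit 1307298, [nat_lit 597600000, nat_lit 890400000, nat_lit 1054350000], [], [nat_lit 3352106644, nat_lit 3294391304, nat_lit 3473597000, nat_lit 3398765966, nat_lit 3541917327, nat_lit 4122243472, nat_lit 2646501638, nat_lit 2585120252], nat_lit 1100001, nat_lit 1442500, nat_lit 1271250, nat_lit 1271250, nat_lit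 0, nat_lit 2373000, [nat_lit 1695000, nat_lit 1271250, nat_lit 1271250], [nat_lit 62, nat_lit 40, nat_lit 40, nat_lit 80, nat_lit 58, nat_lit 456, nat_lit 225, nat_lit 11]⟩,
 ⟨nat_lit 3872, nat_lit 4032, ⟨.ofNat (nat_lit 521937), .ofNat (nat_lit 652718), .ofNat (nat_lit 565389), .ofNat (nat_lit 696171), .ofNat (nat_lit 520934), .ofNat (nat_lit 649977), .ofNat (nat_lit 564520), .ofNat (nat_lit 693563)⟩, ⟨.negSucc (nat_lit 782), .ofNat (nat_lit 130015), .ofNat (nat_lit 0), .ofNat (nat_lit 173468), .ofNat (nat_lit 0), .ofNat (nat_lit 132088), .ofNat (nat_lit 0), .ofNat (nat_lit 175674)⟩⟩, [⟨nat_lit 22, nat_lit 94, nat_lit 100, nat_lit 62, nat_lit 3528167⟩]⟩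
noncomputable def p075_l36 : Lf2 := ⟨nat_lit 0, nat_lit 10, [nat_lit 0, nat_lit 5, nat_lit 5, nat_lit 20], false, nat_lit 0, nat_lit 80, nat_lit 0, nat_lit 260, ⟨nat_lit 126, nat_lit 874, nat_lit 0, nat_lit 8, nat_lit 285, nat_lit 874, nat_lit 29, nat_lit 0, nat_lit 0, nat_lit 0, nat_lit 0, nat_lit 0, nat_lit 44406620, nat_lit 22593380, nat_lit 0, nat_lit 3195852, true, true⟩,
 nat_lit 4688, nat_lit 0, nat_lit 0, nat_lit 0, nat_lit 3516, nat_lit 1562, nat_lit 0, nat_lit 0, nat_lit 0, nat_lit 109, nat_lit 0, nat_lit 0, nat_lit 0, nat_lit 0, nat_lit 0, nat_lit 874000, nat_lit 0, nat_lit 0, [(nat_lit 18, [(nat_lit 2, nat_lit 874)])],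
 ⟨p075_k3, nat_lit 0, nat_lit 0, nat_lit 290, nat_lit 0, nat_lit 399327, [nat_lit 1743463467, nat_lit 1504309334, nat_lit 400143200], [], [nat_lit 26668509949, nat_lit 27103291009, nat_lit 28407634189, nat_lit 28806963588, nat_lit 25792557741, nat_lit 26202079073, nat_lit 27430643069, nat_lit 27805024909], nat_lit 1271250, nat_lit 1271250, nat_lit 1271250, nat_lit 1271250, nat_lit 0, nat_lit 490000, [nat_lit 490000, nat_lit 1100000, nat_lit 1442500], [nat_lit 6, nat_lit 40, nat_lit 40, nat_lit 80, nat_lit 3, nat_lit 226, nat_lit 20, nat_lit 7]⟩, ⟨p075_k6, nat_lit 0, nat_lit 0, nat_lit 849, nat_lit 0, nat_lit 1121514, [nat_lit 1003968000, nat_lit 1495872000, nat_lit 1771308000], [], [nat_lit 6022754656, nat_lit 5906981232, nat_lit 6201003824, nat_lit 6073602264, nat_lit 4463993780, nat_lit 4327025956, nat_lit 4594288886, nat_lit 4481573084], nat_lit 1100001, nat_lit 1442500, nat_lit 1271250, nat_lit 1271250,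 nat_lit 0, nat_lit 1836250, [nat_lit 1695000, nat_lit 1271250, nat_lit 1271250], [nat_lit 62, nat_lit 40, nat_lit 40, nat_lit 80, nat_lit 58, nat_lit 456, nat_lit 225, nat_lit 10]⟩,
 ⟨nat_lit 4183, nat_lit 4473, ⟨.ofNat (nat_lit 660800), .ofNat (nat_lit 728778), .ofNat (nat_lit 703933), .ofNat (nat_lit 771911), .ofNat (nat_lit 655432), .ofNat (nat_lit 721688), .ofNat (nat_lit 698765), .ofNat (nat_lit 765021)⟩, ⟨.negSucc (nat_lit 12423), .ofNat (nat_lit 123532), .ofNat (nat_lit 0), .ofNat (nat_lit 166665), .negSucc (nat_lit 4612), .ofNat (nat_lit 127898), .ofNat (nat_lit 0), .ofNat (nat_lit 171231)⟩⟩, [⟨nat_lit 13, nat_lit 78, nat_lit 70, nat_lit 100, nat_lit 175247975⟩]⟩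
noncomputable def p075_l37 : Lf2 := ⟨nat_lit 0, nat_lit 10, [nat_lit 0, nat_lit 5, nat_lit 5, nat_lit 20], false, nat_lit 0, nat_lit 80, nat_lit 0, nat_lit 260, ⟨nat_lit 116, nat_lit 884, nat_lit 0, nat_lit 8, nat_lit 281, nat_lit 884, nat_lit 30, nat_lit 0, nat_lit 0, nat_lit 0, nat_lit 0, nat_lit 0, nat_lit 44877722, nat_lit 22122278, nat_lit 0, nat_lit 3171540, true, true⟩,
 nat_lit 4372, nat_lit 0, nat_lit 0, nat_lit 0, nat_lit 3408, nat_lit 1457, nat_lit 510, nat_lit 0, nat_lit 0, nat_lit 102, nat_lit 0, nat_lit 0, nat_lit 0, nat_lit 0, nat_lit 0, nat_lit 407000, nat_lit 0, nat_lit 0, [(nat_lit 18, [(nat_lit 1, nat_lit 795), (nat_lit 2, nat_lit 89)])],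
 ⟨p075_k8, nat_lit 0, nat_lit 0, nat_lit 299, nat_lit 0, nat_lit 412820, [nat_lit 1498694134, nat_lit 2200342667, nat_lit 2244391200], [], [nat_lit 26831659713, nat_lit 27039160289, nat_lit 28130636424, nat_lit 28323623512, nat_lit 25941383588, nat_lit 26143853196, nat_lit 27209698443, nat_lit 27398422733], nat_lit 1271250, nat_lit 1271250, nat_lit 1271250, nat_lit 1271250, nat_lit 0, nat_lit 490000, [nat_lit 490000, nat_lit 1100000, nat_lit 1442500], [nat_lit 6, nat_lit 40, nat_lit 40, nat_lit 80, nat_lit 3, nat_lit 226, nat_lit 20, nat_lit 7]⟩, ⟨p075_k6, nat_lit 0, nat_lit 0, nat_lit 896, nat_lit 0, nat_lit 1213835, [nat_lit 924288000, nat_lit 1377152000, nat_lit 1630728000], [], [nat_lit 5511871096, nat_lit 5402809392, nat_lit 5643814879, nat_lit 5525057951, nat_lit 4051904835, nat_lit 3923176216, nat_lit 4157203237, nat_lit 4054755096], nat_lit 1100001, nat_lit 1442500, nat_lit 1271250, nat_lit 1271250,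 nat_lit 0, nat_lit 1836250, [nat_lit 1695000, nat_lit 1271250, nat_lit 1271250], [nat_lit 62, nat_lit 40, nat_lit 40, nat_lit 80, nat_lit 58, nat_lit 456, nat_lit 225, nat_lit 10]⟩,
 ⟨nat_lit 4031, nat_lit 4184, ⟨.ofNat (nat_lit 655432), .ofNat (nat_lit 708436), .ofNat (nat_lit 698765), .ofNat (nat_lit 751770), .ofNat (nat_lit 652718), .ofNat (nat_lit 705031), .ofNat (nat_lit 696171), .ofNat (nat_lit 748484)⟩, ⟨.negSucc (nat_lit 4612), .ofNat (nat_lit 127898), .ofNat (nat_lit 0), .ofNat (nat_lit 171231), .negSucc (nat_lit 765), .ofNat (nat_lit 130015), .ofNat (nat_lit 0), .ofNat (nat_lit 173468)⟩⟩, [⟨nat_lit 13, nat_lit 76, nat_lit 65, nat_lit 100, nat_lit 172534549⟩]⟩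
noncomputable def p075_l38 : Lf2 := ⟨nat_lit 0, nat_lit 10, [nat_lit 0, nat_lit 5, nat_lit 5, nat_lit 20], false, nat_lit 0, nat_lit 80, nat_lit 0, nat_lit 260, ⟨nat_lit 109, nat_lit 891, nat_lit 0, nat_lit 8, nat_lit 278, nat_lit 891, nat_lit 31, nat_lit 0, nat_lit 0, nat_lit 0, nat_lit 0, nat_lit 0, nat_lit 45142283, nat_lit 21857717, nat_lit 0, nat_lit 3157398, true, true⟩,
 nat_lit 4138, nat_lit 0, nat_lit 0, nat_lit 0, nat_lit 3287, nat_lit 1379, nat_lit 508, nat_lit 0, nat_lit 0, nat_lit 97, nat_lit 0, nat_lit 0, nat_lit 0, nat_lit 0, nat_lit 0, nat_lit 356400, nat_lit 0, nat_lit 0, [(nat_lit 18, [(nat_lit 1, nat_lit 891)])],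
 ⟨p075_k9, nat_lit 0, nat_lit 0, nat_lit 307, nat_lit 0, nat_lit 434734, [nat_lit 1467224801, nat_lit 2263292000, nat_lit 2428322800], [], [nat_lit 26708505006, nat_lit 26920538653, nat_lit 27857458945, nat_lit 28079961973, nat_lit 25930672031, nat_lit 26130574805, nat_lit 27014959216, nat_lit 27203139206], nat_lit 1271250, nat_lit 1271250, nat_lit 1271250, nat_lit 1271250, nat_lit 0, nat_lit 490000, [nat_lit 490000, nat_lit 1100000, nat_lit 1442500], [nat_lit 6, nat_lit 40, nat_lit 40, nat_lit 80, nat_lit 3, nat_lit 226, nat_lit 20, nat_lit 7]⟩, ⟨p075_k6, nat_lit 0, nat_lit 0, nat_lit 938, nat_lit 0, nat_lit 1307298, [nat_lit 868512000, nat_lit 1294048000, nat_lit 1532322000], [], [nat_lit 5162054704, nat_lit 5058278760, nat_lit 5270841598, nat_lit 5158555795, nat_lit 3777155842, nat_lit 3654818902, nat_lit 3870412415, nat_lit 3774670555], nat_lit 1100001, nat_lit 1442500, nat_lit 1271250, nat_lit 1271250,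 nat_lit 0, nat_lit 1836250, [nat_lit 1695000, nat_lit 1271250, nat_lit 1271250], [nat_lit 62, nat_lit 40, nat_lit 40, nat_lit 80, nat_lit 58, nat_lit 456, nat_lit 225, nat_lit 10]⟩,
 ⟨nat_lit 3872, nat_lit 4032, ⟨.ofNat (nat_lit 652718), .ofNat (nat_lit 698492), .ofNat (nat_lit 696171), .ofNat (nat_lit 741945), .ofNat (nat_lit 649977), .ofNat (nat_lit 695142), .ofNat (nat_lit 693563), .ofNat (nat_lit 738728)⟩, ⟨.negSucc (nat_lit 782), .ofNat (nat_lit 130015), .ofNat (nat_lit 0), .ofNat (nat_lit 173468), .ofNat (nat_lit 0), .ofNat (nat_lit 132088), .ofNat (nat_lit 0), .ofNat (nat_lit 175674)⟩⟩, [⟨nat_lit 13, nat_lit 74, nat_lit 68, nat_lit 100, nat_lit 174659282⟩]⟩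
noncomputable def p075_l39 : Lf2 := ⟨nat_lit 0, nat_lit 10, [nat_lit 0, nat_lit 5, nat_lit 5, nat_lit 20], false, nat_lit 80, nat_lit 160, nat_lit 0, nat_lit 384, ⟨nat_lit 0, nat_lit 1000, nat_lit 0, nat_lit 6, nat_lit 244, nat_lit 1000, nat_lit 86, nat_lit 0, nat_lit 0, nat_lit 0, nat_lit 0, nat_lit 0, nat_lit 45804564, nat_lit 17706835, nat_lit 3488601, nat_lit 4036106, false, true⟩,
 nat_lit 0, nat_lit 4987, nat_lit 0, nat_lit 0, nat_lit 3740, nat_lit 0, nat_lit 0, nat_lit 0, nat_lit 0, nat_lit 43, nat_lit 0, nat_lit 0, nat_lit 0, nat_lit 0, nat_lit 4, nat_lit 905200, nat_lit 0, nat_lit 0, [(nat_lit 18, [(nat_lit 1, nat_lit 158), (nat_lit 2, nat_lit 842)])],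
 ⟨p075_k3, nat_lit 0, nat_lit 0, nat_lit 244, nat_lit 0, nat_lit 465478, [nat_lit 1685876801, nat_lit 1254904000, nat_lit 16632000], [], [nat_lit 20433869282, nat_lit 21483387482, nat_lit 23534686802, nat_lit 24580515120, nat_lit 21197316962, nat_lit 22147591202, nat_lit 24003404242, nat_lit 24888239324], nat_lit 1271250, nat_lit 1271250, nat_lit 1271250, nat_lit 1271250, nat_lit 490000, nat_lit 1100001, [nat_lit 490000, nat_lit 1100000, nat_lit 1442500], [nat_lit 6, nat_lit 40, nat_lit 40, nat_lit 80, nat_lit 3, nat_lit 249, nat_lit 40, nat_lit 8]⟩, ⟨p075_k6, nat_lit 0, nat_lit 0, nat_lit 961, nat_lit 0, nat_lit 1307298, [nat_lit 0, nat_lit 0, nat_lit 0], [], [nat_lit 0, nat_lit 0, nat_lit 0, nat_lit 0, nat_lit 0, nat_lit 0, nat_lit 0, nat_lit 0], nat_lit 1100001, nat_lit 1442500, nat_lit 1271250, nat_lit 1271250, nat_lit 0, nat_lit 2712000, [nat_lit 1695000, nat_lit 1271250, nat_lit 1271250], [nat_lit 62,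 nat_lit 40, nat_lit 40, nat_lit 80, nat_lit 58, nat_lit 483, nat_lit 250, nat_lit 11]⟩,
 ⟨nat_lit 3872, nat_lit 4473, ⟨.ofNat (nat_lit 524844), .ofNat (nat_lit 660800), .ofNat (nat_lit 567977), .ofNat (nat_lit 703933), .ofNat (nat_lit 520934), .ofNat (nat_lit 649977), .ofNat (nat_lit 564520), .ofNat (nat_lit 693563)⟩, ⟨.ofNat (nat_lit 123532), .ofNat (nat_lit 259489), .ofNat (nat_lit 166665), .ofNat (nat_lit 302621), .ofNat (nat_lit 132088), .ofNat (nat_lit 261131), .ofNat (nat_lit 175674), .ofNat (nat_lit 304717)⟩⟩, []⟩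
noncomputable def p075_l40 : Lf2 := ⟨nat_lit 0, nat_lit 10, [nat_lit 0, nat_lit 5, nat_lit 5, nat_lit 20], false, nat_lit 80, nat_lit 160, nat_lit 0, nat_lit 336, ⟨nat_lit 122, nat_lit 878, nat_lit 0, nat_lit 8, nat_lit 285, nat_lit 878, nat_lit 86, nat_lit 0, nat_lit 0, nat_lit 0, nat_lit 0, nat_lit 0, nat_lit 41910944, nat_lit 21791870, nat_lit 3297186, nat_lit 4244449, true, true⟩,
 nat_lit 4422, nat_lit 653, nat_lit 0, nat_lit 0, nat_lit 3806, nat_lit 1474, nat_lit 0, nat_lit 0, nat_lit 0, nat_lit 102, nat_lit 0, nat_lit 0, nat_lit 0, nat_lit 0, nat_lit 0, nat_lit 878000, nat_lit 0, nat_lit 0, [(nat_lit 18, [(nat_lit 2, nat_lit 878)])],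
 ⟨p075_k3, nat_lit 0, nat_lit 0, nat_lit 232, nat_lit 0, nat_lit 399327, [nat_lit 1742142934, nat_lit 1489738667, nat_lit 373370400], [], [nat_lit 24136706282, nat_lit 24585054992, nat_lit 26020152408, nat_lit 26625448804, nat_lit 24587211418, nat_lit 24994762760, nat_lit 26217416786, nat_lit 26591001332], nat_lit 1271250, nat_lit 1271250, nat_lit 1271250, nat_lit 1271250, nat_lit 490000, nat_lit 1100001, [nat_lit 490000, nat_lit 1100000, nat_lit 1442500], [nat_lit 6, nat_lit 40, nat_lit 40, nat_lit 80, nat_lit 3, nat_lit 249, nat_lit 40, nat_lit 8]⟩, ⟨p075_k6, nat_lit 0, nat_lit 0, nat_lit 849, nat_lit 0, nat_lit 1121514, [nat_lit 972096000, nat_lit 1448384000, nat_lit 1715076000], [], [nat_lit 5907135280, nat_lit 5791073424, nat_lit 6069071088, nat_lit 5945304240, nat_lit 4526131530, nat_lit 4412184455, nat_lit 4685650756, nat_lit 4562333562], nat_lit 1100001, nat_lit 1442500, nat_lit 1271250, nat_lit 1271250,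 nat_lit 0, nat_lit 2373000, [nat_lit 1695000, nat_lit 1271250, nat_lit 1271250], [nat_lit 62, nat_lit 40, nat_lit 40, nat_lit 80, nat_lit 58, nat_lit 456, nat_lit 225, nat_lit 10]⟩,
 ⟨nat_lit 4183, nat_lit 4473, ⟨.ofNat (nat_lit 660800), .ofNat (nat_lit 728778), .ofNat (nat_lit 703933), .ofNat (nat_lit 771911), .ofNat (nat_lit 655432), .ofNat (nat_lit 721688), .ofNat (nat_lit 698765), .ofNat (nat_lit 765021)⟩, ⟨.ofNat (nat_lit 123532), .ofNat (nat_lit 259489), .ofNat (nat_lit 166665), .ofNat (nat_lit 302621), .ofNat (nat_lit 127898), .ofNat (nat_lit 260409), .ofNat (nat_lit 171231), .ofNat (nat_lit 303743)⟩⟩, [⟨nat_lit 13, nat_lit 78, nat_lit 70, nat_lit 100, nat_lit 160297771⟩, ⟨nat_lit 22, nat_lit 77, nat_lit 100, nat_lit 99, nat_lit 3194438⟩]⟩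
noncomputable def p075_l41 : Lf2 := ⟨nat_lit 0, nat_lit 10, [nat_lit 0, nat_lit 5, nat_lit 5, nat_lit 20], false, nat_lit 80, nat_lit 160, nat_lit 0, nat_lit 336, ⟨nat_lit 78, nat_lit 922, nat_lit 0, nat_lit 8, nat_lit 280, nat_lit 922, nat_lit 87, nat_lit 0, nat_lit 0, nat_lit 0, nat_lit 0, nat_lit 0, nat_lit 42342407, nat_lit 21277814, nat_lit 3379779, nat_lit 4236743, true, true⟩,
 nat_lit 2989, nat_lit 1721, nat_lit 0, nat_lit 0, nat_lit 3671, nat_lit 996, nat_lit 513, nat_lit 0, nat_lit 0, nat_lit 67, nat_lit 0, nat_lit 0, nat_lit 0, nat_lit 0, nat_lit 0, nat_lit 448000, nat_lit 0, nat_lit 0, [(nat_lit 18, [(nat_lit 1, nat_lit 790), (nat_lit 2, nat_lit 132)])],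
 ⟨p075_k8, nat_lit 0, nat_lit 0, nat_lit 246, nat_lit 0, nat_lit 444606, [nat_lit 1487667734, nat_lit 2057314667, nat_lit 1978029600], [], [nat_lit 24675024613, nat_lit 25077249260, nat_lit 25934067429, nat_lit 26523200810, nat_lit 25047554076, nat_lit 25414031474, nat_lit 26195309808, nat_lit 26540879660], nat_lit 1271250, nat_lit 1271250, nat_lit 1271250, nat_lit 1271250, nat_lit 490000, nat_lit 1100001, [nat_lit 490000, nat_lit 1100000, nat_lit 1442500], [nat_lit 6, nat_lit 40, nat_lit 40, nat_lit 80, nat_lit 3, nat_lit 249, nat_lit 40, nat_lit 8]⟩, ⟨p075_k6, nat_lit 0, nat_lit 0, nat_lit 938, nat_lit 0, nat_lit 1307298, [nat_lit 621504000, nat_lit 926016000, nat_lit 1096524000], [], [nat_lit 3678009168, nat_lit 3602547216, nat_lit 3786094652, nat_lit 3717360476, nat_lit 2802024855, nat_lit 2729026700, nat_lit 2932550641, nat_lit 2858442902], nat_lit 1100001, nat_lit 1442500, nat_lit 1271250, nat_lit 1271250,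 nat_lit 0, nat_lit 2373000, [nat_lit 1695000, nat_lit 1271250, nat_lit 1271250], [nat_lit 62, nat_lit 40, nat_lit 40, nat_lit 80, nat_lit 58, nat_lit 456, nat_lit 225, nat_lit 10]⟩,
 ⟨nat_lit 3872, nat_lit 4184, ⟨.ofNat (nat_lit 655432), .ofNat (nat_lit 708436), .ofNat (nat_lit 698765), .ofNat (nat_lit 751770), .ofNat (nat_lit 649977), .ofNat (nat_lit 701594), .ofNat (nat_lit 693563), .ofNat (nat_lit 745180)⟩, ⟨.ofNat (nat_lit 127898), .ofNat (nat_lit 260409), .ofNat (nat_lit 171231), .ofNat (nat_lit 303743), .ofNat (nat_lit 132088), .ofNat (nat_lit 261131), .ofNat (nat_lit 175674), .ofNat (nat_lit 304717)⟩⟩, [⟨nat_lit 13, nat_lit 74, nat_lit 75, nat_lit 100, nat_lit 178026137⟩, ⟨nat_lit 10, nat_lit 74, nat_lit 74, nat_lit 100, nat_lit 2266818⟩]⟩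
noncomputable def p075_l42 : Lf2 := ⟨nat_lit 0, nat_lit 10, [nat_lit 0, nat_lit 5, nat_lit 5, nat_lit 20], false, nat_lit 0, nat_lit 80, nat_lit 0, nat_lit 384, ⟨nat_lit 0, nat_lit 554, nat_lit 446, nat_lit 4, nat_lit 191, nat_lit 752, nat_lit 32, nat_lit 446, nat_lit 9600, nat_lit 239, nat_lit 4566, nat_lit 226, nat_lit 54538059, nat_lit 12461941, nat_lit 0, nat_lit 2401845, false, true⟩,
 nat_lit 0, nat_lit 3689, nat_lit 0, nat_lit 0, nat_lit 2986, nat_lit 0, nat_lit 0, nat_lit 0, nat_lit 0, nat_lit 0, nat_lit 0, nat_lit 0, nat_lit 0, nat_lit 0, nat_lit 59, nat_lit 667600, nat_lit 0, nat_lit 0, [(nat_lit 21, [(nat_lit 1, nat_lit 554), (nat_lit 6, nat_lit 446)])],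
 ⟨p075_k7, nat_lit 0, nat_lit 0, nat_lit 341, nat_lit 0, nat_lit 551190, [nat_lit 1560670401, nat_lit 565027201, nat_lit 125161600], [], [nat_lit 19559035354, nat_lit 20798971542, nat_lit 21972043942, nat_lit 23059326102, nat_lit 19346362106, nat_lit 20503981222, nat_lit 21641216006, nat_lit 22659718070], nat_lit 1271250, nat_lit 1271250, nat_lit 1100001, nat_lit 1785000, nat_lit 0, nat_lit 490000, [nat_lit 490000, nat_lit 1100000, nat_lit 1442500], [nat_lit 6, nat_lit 40, nat_lit 40, nat_lit 80, nat_lit 3, nat_lit 317, nat_lit 100, nat_lit 12]⟩, ⟨p075_k6, nat_lit 0, nat_lit 0, nat_lit 1169, nat_lit 0, nat_lit 1694616, [nat_lit 0, nat_lit 0, nat_lit 0], [], [nat_lit 0, nat_lit 0, nat_lit 0, nat_lit 0, nat_lit 0, nat_lit 0, nat_lit 0, nat_lit 0], nat_lit 1100001, nat_lit 1442500, nat_lit 1271250, nat_lit 1271250, nat_lit 0, nat_lit 2712000, [nat_lit 1695000, nat_lit 1271250, nat_lit 1271250], [nat_lit 62, nat_lit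 40, nat_lit 40, nat_lit 80, nat_lit 58, nat_lit 456, nat_lit 225, nat_lit 11]⟩,
 ⟨nat_lit 3162, nat_lit 3873, ⟨.ofNat (nat_lit 391890), .ofNat (nat_lit 520934), .ofNat (nat_lit 435446), .ofNat (nat_lit 564520), .ofNat (nat_lit 394735), .ofNat (nat_lit 516642), .ofNat (nat_lit 439014), .ofNat (nat_lit 560952)⟩, ⟨.ofNat (nat_lit 0), .ofNat (nat_lit 132088), .ofNat (nat_lit 0), .ofNat (nat_lit 175674), .ofNat (nat_lit 0), .ofNat (nat_lit 139899), .ofNat (nat_lit 0), .ofNat (nat_lit 184209)⟩⟩, []⟩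
noncomputable def p075_l43 : Lf2 := ⟨nat_lit 0, nat_lit 10, [nat_lit 0, nat_lit 5, nat_lit 5, nat_lit 20], false, nat_lit 0, nat_lit 80, nat_lit 0, nat_lit 336, ⟨nat_lit 0, nat_lit 993, nat_lit 7, nat_lit 6, nat_lit 242, nat_lit 1000, nat_lit 31, nat_lit 7, nat_lit 8817, nat_lit 238, nat_lit 111002, nat_lit 200, nat_lit 49090068, nat_lit 17909932, nat_lit 0, nat_lit 2902835, false, true⟩,
 nat_lit 0, nat_lit 3870, nat_lit 0, nat_lit 0, nat_lit 3132, nat_lit 0, nat_lit 302, nat_lit 0, nat_lit 0, nat_lit 0, nat_lit 0, nat_lit 0, nat_lit 0, nat_lit 0, nat_lit 0, nat_lit 404200, nat_lit 0, nat_lit 0, [(nat_lit 21, [(nat_lit 1, nat_lit 993), (nat_lit 6, nat_lit 7)])],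
 ⟨p075_k7, nat_lit 0, nat_lit 0, nat_lit 321, nat_lit 0, nat_lit 482208, [nat_lit 1351016800, nat_lit 1463422401, nat_lit 1452027200], [], [nat_lit 23491627783, nat_lit 23994795971, nat_lit 26888779585, nat_lit 27347321830, nat_lit 23060819039, nat_lit 23532520015, nat_lit 26266609608, nat_lit 26663646860], nat_lit 1271250, nat_lit 1271250, nat_lit 1271250, nat_lit 1271250, nat_lit 0, nat_lit 490000, [nat_lit 490000, nat_lit 1100000, nat_lit 1442500], [nat_lit 6, nat_lit 40, nat_lit 40, nat_lit 80, nat_lit 3, nat_lit 226, nat_lit 20, nat_lit 8]⟩, ⟨p075_k6, nat_lit 0, nat_lit 0, nat_lit 1035, nat_lit 0, nat_lit 1482532, [nat_lit 0, nat_lit 0, nat_lit 0], [], [nat_lit 0, nat_lit 0, nat_lit 0, nat_lit 0, nat_lit 0, nat_lit 0, nat_lit 0, nat_lit 0], nat_lit 1100001, nat_lit 1271250, nat_lit 1271250, nat_lit 1271250, nat_lit 0, nat_lit 2373000, [nat_lit 1695000, nat_lit 1271250, nat_lit 1271250], [nat_lit 62, nat_lit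 40, nat_lit 40, nat_lit 80, nat_lit 58, nat_lit 456, nat_lit 225, nat_lit 11]⟩,
 ⟨nat_lit 3535, nat_lit 3873, ⟨.ofNat (nat_lit 520934), .ofNat (nat_lit 669333), .ofNat (nat_lit 542727), .ofNat (nat_lit 691126), .ofNat (nat_lit 518855), .ofNat (nat_lit 663206), .ofNat (nat_lit 540807), .ofNat (nat_lit 685159)⟩, ⟨.ofNat (nat_lit 0), .ofNat (nat_lit 132088), .ofNat (nat_lit 0), .ofNat (nat_lit 175674), .ofNat (nat_lit 0), .ofNat (nat_lit 136093), .ofNat (nat_lit 0), .ofNat (nat_lit 179999)⟩⟩, [⟨nat_lit 13, nat_lit 70, nat_lit 83, nat_lit 100, nat_lit 197903302⟩]⟩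
noncomputable def p075_l44 : Lf2 := ⟨nat_lit 0, nat_lit 10, [nat_lit 0, nat_lit 5, nat_lit 5, nat_lit 20], false, nat_lit 0, nat_lit 80, nat_lit 0, nat_lit 336, ⟨nat_lit 0, nat_lit 993, nat_lit 7, nat_lit 6, nat_lit 236, nat_lit 1000, nat_lit 32, nat_lit 7, nat_lit 9600, nat_lit 239, nat_lit 61410, nat_lit 200, nat_lit 49672052, nat_lit 17327948, nat_lit 0, nat_lit 2858073, false, true⟩,
 nat_lit 0, nat_lit 3722, nat_lit 0, nat_lit 0, nat_lit 3126, nat_lit 0, nat_lit 270, nat_lit 0, nat_lit 0, nat_lit 0, nat_lit 0, nat_lit 0, nat_lit 0, nat_lit 0, nat_lit 0, nat_lit 404200, nat_lit 0, nat_lit 0, [(nat_lit 21, [(nat_lit 1, nat_lit 993), (nat_lit 6, nat_lit 7)])],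
 ⟨p075_k10, nat_lit 0, nat_lit 0, nat_lit 282, nat_lit 0, nat_lit 527773, [nat_lit 1351016800, nat_lit 1462935200], [], [nat_lit 23754531460, nat_lit 24257302094, nat_lit 26799277754, nat_lit 27271144648, nat_lit 23295548502, nat_lit 23770959824, nat_lit 26183168464, nat_lit 26627128896], nat_lit 1271250, nat_lit 1271250, nat_lit 1271250, nat_lit 1271250, nat_lit 0, nat_lit 490000, [nat_lit 490000, nat_lit 1100000], [nat_lit 24, nat_lit 40, nat_lit 40, nat_lit 80, nat_lit 33, nat_lit 226, nat_lit 20, nat_lit 9]⟩, ⟨p075_k6, nat_lit 0, nat_lit 0, nat_lit 1136, nat_lit 0, nat_lit 1694616, [nat_lit 0, nat_lit 0, nat_lit 0], [], [nat_lit 0, nat_lit 0, nat_lit 0, nat_lit 0, nat_lit 0, nat_lit 0, nat_lit 0, nat_lit 0], nat_lit 1100001, nat_lit 1271250, nat_lit 1271250, nat_lit 1271250, nat_lit 0, nat_lit 2373000, [nat_lit 1695000, nat_lit 1271250, nat_lit 1271250], [nat_lit 62, nat_lit 40, nat_lit 40, nat_lit 80, nat_lit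 58, nat_lit 456, nat_lit 225, nat_lit 11]⟩,
 ⟨nat_lit 3162, nat_lit 3536, ⟨.ofNat (nat_lit 518855), .ofNat (nat_lit 644378), .ofNat (nat_lit 540807), .ofNat (nat_lit 666330), .ofNat (nat_lit 516642), .ofNat (nat_lit 638549), .ofNat (nat_lit 538797), .ofNat (nat_lit 660704)⟩, ⟨.ofNat (nat_lit 0), .ofNat (nat_lit 136093), .ofNat (nat_lit 0), .ofNat (nat_lit 179999), .ofNat (nat_lit 0), .ofNat (nat_lit 139899), .ofNat (nat_lit 0), .ofNat (nat_lit 184209)⟩⟩, [⟨nat_lit 13, nat_lit 64, nat_lit 87, nat_lit 100, nat_lit 242995412⟩]⟩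
noncomputable def p075_l45 : Lf2 := ⟨nat_lit 0, nat_lit 10, [nat_lit 0, nat_lit 5, nat_lit 5, nat_lit 20], false, nat_lit 0, nat_lit 80, nat_lit 0, nat_lit 336, ⟨nat_lit 124, nat_lit 600, nat_lit 276, nat_lit 6, nat_lit 254, nat_lit 876, nat_lit 31, nat_lit 276, nat_lit 8817, nat_lit 238, nat_lit 193302, nat_lit 200, nat_lit 47728249, nat_lit 19271751, nat_lit 0, nat_lit 3000115, true, true⟩,
 nat_lit 3260, nat_lit 493, nat_lit 0, nat_lit 0, nat_lit 3038, nat_lit 1239, nat_lit 0, nat_lit 0, nat_lit 0, nat_lit 277, nat_lit 0, nat_lit 0, nat_lit 0, nat_lit 0, nat_lit 0, nat_lit 516000, nat_lit 0, nat_lit 0, [(nat_lit 21, [(nat_lit 1, nat_lit 600), (nat_lit 6, nat_lit 276)])],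
 ⟨p075_k7, nat_lit 0, nat_lit 0, nat_lit 325, nat_lit 0, nat_lit 486902, [nat_lit 1274185601, nat_lit 730688001, nat_lit 505921600], [], [nat_lit 23600881272, nat_lit 24054854838, nat_lit 27273393083, nat_lit 27828945699, nat_lit 23074671724, nat_lit 23502989982, nat_lit 26677682737, nat_lit 27059252317], nat_lit 1271250, nat_lit 1271250, nat_lit 1271250, nat_lit 1271250, nat_lit 0, nat_lit 490000, [nat_lit 490000, nat_lit 1100000, nat_lit 1442500], [nat_lit 6, nat_lit 40, nat_lit 40, nat_lit 80, nat_lit 3, nat_lit 226, nat_lit 20, nat_lit 8]⟩, ⟨p075_k11, nat_lit 0, nat_lit 0, nat_lit 929, nat_lit 0, nat_lit 1253351, [nat_lit 988032000, nat_lit 1472128000, nat_lit 1743192000], [], [nat_lit 4832446215, nat_lit 4807717677, nat_lit 5115667121, nat_lit 5073835123, nat_lit 6218029283, nat_lit 5666961236, nat_lit 4194570671, nat_lit 4170684134], nat_lit 1271250, nat_lit 1271250, nat_lit 1271250, nat_lit 1271250, nat_lit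 0, nat_lit 2373000, [nat_lit 1695000, nat_lit 1271250, nat_lit 1271250], [nat_lit 62, nat_lit 40, nat_lit 40, nat_lit 80, nat_lit 58, nat_lit 456, nat_lit 225, nat_lit 10]⟩,
 ⟨nat_lit 3535, nat_lit 3873, ⟨.ofNat (nat_lit 542727), .ofNat (nat_lit 710483), .ofNat (nat_lit 564520), .ofNat (nat_lit 732276), .ofNat (nat_lit 540807), .ofNat (nat_lit 703987), .ofNat (nat_lit 562760), .ofNat (nat_lit 725940)⟩, ⟨.ofNat (nat_lit 0), .ofNat (nat_lit 132088), .ofNat (nat_lit 0), .ofNat (nat_lit 175674), .ofNat (nat_lit 0), .ofNat (nat_lit 136093), .ofNat (nat_lit 0), .ofNat (nat_lit 179999)⟩⟩, [⟨nat_lit 22, nat_lit 90, nat_lit 100, nat_lit 61, nat_lit 18363168⟩]⟩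
noncomputable def p075_l46 : Lf2 := ⟨nat_lit 0, nat_lit 10, [nat_lit 0, nat_lit 5, nat_lit 5, nat_lit 20], false, nat_lit 0, nat_lit 80, nat_lit 0, nat_lit 336, ⟨nat_lit 105, nat_lit 895, nat_lit 0, nat_lit 6, nat_lit 250, nat_lit 895, nat_lit 32, nat_lit 0, nat_lit 0, nat_lit 0, nat_lit 0, nat_lit 0, nat_lit 48132672, nat_lit 18867328, nat_lit 0, nat_lit 2972298, true, true⟩,
 nat_lit 2876, nat_lit 981, nat_lit 0, nat_lit 0, nat_lit 3239, nat_lit 1093, nat_lit 261, nat_lit 0, nat_lit 0, nat_lit 185, nat_lit 0, nat_lit 0, nat_lit 0, nat_lit 0, nat_lit 0, nat_lit 358000, nat_lit 0, nat_lit 0, [(nat_lit 21, [(nat_lit 1, nat_lit 895)])],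
 ⟨p075_k10, nat_lit 0, nat_lit 0, nat_lit 276, nat_lit 0, nat_lit 496188, [nat_lit 1426264001, nat_lit 1820420000], [], [nat_lit 24178667645, nat_lit 24433796596, nat_lit 27845469088, nat_lit 28160656116, nat_lit 23657666558, nat_lit 23896730684, nat_lit 26969818818, nat_lit 27174753096], nat_lit 1271250, nat_lit 1271250, nat_lit 1271250, nat_lit 1271250, nat_lit 0, nat_lit 490000, [nat_lit 490000, nat_lit 1100000], [nat_lit 24, nat_lit 40, nat_lit 40, nat_lit 80, nat_lit 33, nat_lit 226, nat_lit 20, nat_lit 9]⟩, ⟨p075_k11, nat_lit 0, nat_lit 0, nat_lit 963, nat_lit 0, nat_lit 1333925, [nat_lit 836640000, nat_lit 1246560000, nat_lit 1476090000], [], [nat_lit 4261322973, nat_lit 4237891673, nat_lit 4474955401, nat_lit 4437808290, nat_lit 5278024968, nat_lit 4791893107, nat_lit 3592342990, nat_lit 3552695062], nat_lit 1271250, nat_lit 1271250, nat_lit 1271250, nat_lit 1271250, nat_lit 0, nat_lit 2373000, [nat_lit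 1695000, nat_lit 1271250, nat_lit 1271250], [nat_lit 62, nat_lit 40, nat_lit 40, nat_lit 80, nat_lit 58, nat_lit 456, nat_lit 225, nat_lit 10]⟩,
 ⟨nat_lit 3354, nat_lit 3536, ⟨.ofNat (nat_lit 540807), .ofNat (nat_lit 691435), .ofNat (nat_lit 562760), .ofNat (nat_lit 713387), .ofNat (nat_lit 539816), .ofNat (nat_lit 688293), .ofNat (nat_lit 561864), .ofNat (nat_lit 710340)⟩, ⟨.ofNat (nat_lit 0), .ofNat (nat_lit 136093), .ofNat (nat_lit 0), .ofNat (nat_lit 179999), .ofNat (nat_lit 0), .ofNat (nat_lit 138023), .ofNat (nat_lit 0), .ofNat (nat_lit 182118)⟩⟩, [⟨nat_lit 22, nat_lit 91, nat_lit 100, nat_lit 61, nat_lit 12100705⟩]⟩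
noncomputable def p075_l47 : Lf2 := ⟨nat_lit 0, nat_lit 10, [nat_lit 0, nat_lit 5, nat_lit 5, nat_lit 20], false, nat_lit 0, nat_lit 80, nat_lit 0, nat_lit 336, ⟨nat_lit 96, nat_lit 904, nat_lit 0, nat_lit 6, nat_lit 247, nat_lit 904, nat_lit 32, nat_lit 0, nat_lit 0, nat_lit 0, nat_lit 0, nat_lit 0, nat_lit 48487151, nat_lit 18512849, nat_lit 0, nat_lit 2947176, true, true⟩,
 nat_lit 2572, nat_lit 1211, nat_lit 0, nat_lit 0, nat_lit 3236, nat_lit 978, nat_lit 220, nat_lit 0, nat_lit 0, nat_lit 197, nat_lit 0, nat_lit 0, nat_lit 0, nat_lit 0, nat_lit 0, nat_lit 361600, nat_lit 0, nat_lit 0, [(nat_lit 21, [(nat_lit 1, nat_lit 904)])],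
 ⟨p075_k12, nat_lit 0, nat_lit 0, nat_lit 280, nat_lit 0, nat_lit 515296, [nat_lit 1420172801, nat_lit 1792051200], [], [nat_lit 24396843127, nat_lit 24651872689, nat_lit 27676874694, nat_lit 27999229319, nat_lit 23861433001, nat_lit 24100407025, nat_lit 26827794903, nat_lit 27035484477], nat_lit 1271250, nat_lit 1271250, nat_lit 1271250, nat_lit 1271250, nat_lit 0, nat_lit 490000, [nat_lit 490000, nat_lit 1100000], [nat_lit 24, nat_lit 40, nat_lit 40, nat_lit 80, nat_lit 33, nat_lit 226, nat_lit 20, nat_lit 9]⟩, ⟨p075_k11, nat_lit 0, nat_lit 0, nat_lit 998, nat_lit 0, nat_lit 1415098, [nat_lit 764928000, nat_lit 1139712000, nat_lit 1349568000], [], [nat_lit 3794927997, nat_lit 3774716385, nat_lit 3966029467, nat_lit 3934635504, nat_lit 4819420942, nat_lit 4384437447, nat_lit 3206585641, nat_lit 3172900766], nat_lit 1271250, nat_lit 1271250, nat_lit 1271250, nat_lit 1271250, nat_lit 0, nat_lit 2373000, [nat_lit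 1695000, nat_lit 1271250, nat_lit 1271250], [nat_lit 62, nat_lit 40, nat_lit 40, nat_lit 80, nat_lit 58, nat_lit 456, nat_lit 225, nat_lit 10]⟩,
 ⟨nat_lit 3162, nat_lit 3355, ⟨.ofNat (nat_lit 539816), .ofNat (nat_lit 675919), .ofNat (nat_lit 561864), .ofNat (nat_lit 697967), .ofNat (nat_lit 538797), .ofNat (nat_lit 672894), .ofNat (nat_lit 560952), .ofNat (nat_lit 695049)⟩, ⟨.ofNat (nat_lit 0), .ofNat (nat_lit 138023), .ofNat (nat_lit 0), .ofNat (nat_lit 182118), .ofNat (nat_lit 0), .ofNat (nat_lit 139899), .ofNat (nat_lit 0), .ofNat (nat_lit 184209)⟩⟩, [⟨nat_lit 22, nat_lit 93, nat_lit 100, nat_lit 61, nat_lit 12067281⟩]⟩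
noncomputable def p075_l48 : Lf2 := ⟨nat_lit 0, nat_lit 10, [nat_lit 0, nat_lit 5, nat_lit 5, nat_lit 20], false, nat_lit 80, nat_lit 160, nat_lit 0, nat_lit 384, ⟨nat_lit 0, nat_lit 456, nat_lit 544, nat_lit 4, nat_lit 191, nat_lit 1000, nat_lit 88, nat_lit 544, nat_lit 72600, nat_lit 281, nat_lit 4566, nat_lit 226, nat_lit 50858250, nat_lit 12393757, nat_lit 3747993, nat_lit 3611393, false, true⟩,
 nat_lit 0, nat_lit 3962, nat_lit 0, nat_lit 0, nat_lit 3207, nat_lit 0, nat_lit 0, nat_lit 0, nat_lit 0, nat_lit 0, nat_lit 0, nat_lit 0, nat_lit 0, nat_lit 0, nat_lit 90, nat_lit 726400, nat_lit 0, nat_lit 0, [(nat_lit 21, [(nat_lit 1, nat_lit 456), (nat_lit 6, nat_lit 544)])],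
 ⟨p075_k7, nat_lit 0, nat_lit 0, nat_lit 269, nat_lit 0, nat_lit 551190, [nat_lit 1750105601, nat_lit 649740801, nat_lit 185542400], [], [nat_lit 17509506131, nat_lit 18791334637, nat_lit 19950351437, nat_lit 21357380840, nat_lit 18729984877, nat_lit 19886847737, nat_lit 20941177587, nat_lit 21957452813], nat_lit 1271250, nat_lit 1271250, nat_lit 1100001, nat_lit 1785000, nat_lit 490000, nat_lit 1100001, [nat_lit 490000, nat_lit 1100000, nat_lit 1442500], [nat_lit 6, nat_lit 40, nat_lit 40, nat_lit 80, nat_lit 3, nat_lit 317, nat_lit 100, nat_lit 11]⟩, ⟨p075_k6, nat_lit 0, nat_lit 0, nat_lit 1169, nat_lit 0, nat_lit 1694616, [nat_lit 0, nat_lit 0, nat_lit 0], [], [nat_lit 0, nat_lit 0, nat_lit 0, nat_lit 0, nat_lit 0, nat_lit 0, nat_lit 0, nat_lit 0], nat_lit 1100001, nat_lit 1442500, nat_lit 1271250, nat_lit 1271250, nat_lit 0, nat_lit 2712000, [nat_lit 1695000, nat_lit 1271250, nat_lit 1271250], [nat_lit 62,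 nat_lit 40, nat_lit 40, nat_lit 80, nat_lit 58, nat_lit 456, nat_lit 225, nat_lit 11]⟩,
 ⟨nat_lit 3162, nat_lit 3873, ⟨.ofNat (nat_lit 391890), .ofNat (nat_lit 520934), .ofNat (nat_lit 435446), .ofNat (nat_lit 564520), .ofNat (nat_lit 394735), .ofNat (nat_lit 516642), .ofNat (nat_lit 439014), .ofNat (nat_lit 560952)⟩, ⟨.ofNat (nat_lit 132088), .ofNat (nat_lit 261131), .ofNat (nat_lit 175674), .ofNat (nat_lit 304717), .ofNat (nat_lit 139899), .ofNat (nat_lit 261806), .ofNat (nat_lit 184209), .ofNat (nat_lit 306116)⟩⟩, [⟨nat_lit 4, nat_lit 100, nat_lit 66, nat_lit 72, nat_lit 53028866⟩]⟩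
noncomputable def p075_l49 : Lf2 := ⟨nat_lit 0, nat_lit 10, [nat_lit 0, nat_lit 5, nat_lit 5, nat_lit 20], false, nat_lit 80, nat_lit 160, nat_lit 0, nat_lit 384, ⟨nat_lit 0, nat_lit 1000, nat_lit 0, nat_lit 6, nat_lit 250, nat_lit 1000, nat_lit 88, nat_lit 0, nat_lit 0, nat_lit 0, nat_lit 0, nat_lit 0, nat_lit 45198410, nat_lit 18240198, nat_lit 3561392, nat_lit 4091031, false, true⟩,
 nat_lit 0, nat_lit 4166, nat_lit 0, nat_lit 0, nat_lit 3372, nat_lit 0, nat_lit 364, nat_lit 0, nat_lit 0, nat_lit 0, nat_lit 0, nat_lit 0, nat_lit 0, nat_lit 0, nat_lit 0, nat_lit 400000, nat_lit 0, nat_lit 0, [(nat_lit 21, [(nat_lit 1, nat_lit 1000)])],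
 ⟨p075_k7, nat_lit 0, nat_lit 0, nat_lit 260, nat_lit 0, nat_lit 486902, [nat_lit 1355200000, nat_lit 1492800001, nat_lit 1492000000], [], [nat_lit 21287880373, nat_lit 21806950721, nat_lit 25608674295, nat_lit 26210515338, nat_lit 22134026957, nat_lit 22604885973, nat_lit 26036335700, nat_lit 26455783629], nat_lit 1271250, nat_lit 1271250, nat_lit 1271250, nat_lit 1271250, nat_lit 490000, nat_lit 1100001, [nat_lit 490000, nat_lit 1100000, nat_lit 1442500], [nat_lit 6, nat_lit 40, nat_lit 40, nat_lit 80, nat_lit 3, nat_lit 249, nat_lit 40, nat_lit 8]⟩, ⟨p075_k6, nat_lit 0, nat_lit 0, nat_lit 1041, nat_lit 0, nat_lit 1496964, [nat_lit 0, nat_lit 0, nat_lit 0], [], [nat_lit 0, nat_lit 0, nat_lit 0, nat_lit 0, nat_lit 0, nat_lit 0, nat_lit 0, nat_lit 0], nat_lit 1100001, nat_lit 1442500, nat_lit 1271250, nat_lit 1271250, nat_lit 0, nat_lit 2712000, [nat_lit 1695000, nat_lit 1271250, nat_lit 1271250], [nat_lit 62,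 nat_lit 40, nat_lit 40, nat_lit 80, nat_lit 58, nat_lit 483, nat_lit 250, nat_lit 11]⟩,
 ⟨nat_lit 3535, nat_lit 3873, ⟨.ofNat (nat_lit 520934), .ofNat (nat_lit 688690), .ofNat (nat_lit 564520), .ofNat (nat_lit 732276), .ofNat (nat_lit 518855), .ofNat (nat_lit 682034), .ofNat (nat_lit 562760), .ofNat (nat_lit 725940)⟩, ⟨.ofNat (nat_lit 132088), .ofNat (nat_lit 261131), .ofNat (nat_lit 175674), .ofNat (nat_lit 304717), .ofNat (nat_lit 136093), .ofNat (nat_lit 261616), .ofNat (nat_lit 179999), .ofNat (nat_lit 305521)⟩⟩, [⟨nat_lit 13, nat_lit 69, nat_lit 79, nat_lit 100, nat_lit 228628106⟩]⟩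
noncomputable def p075_l50 : Lf2 := ⟨nat_lit 0, nat_lit 10, [nat_lit 0, nat_lit 5, nat_lit 5, nat_lit 20], false, nat_lit 80, nat_lit 160, nat_lit 0, nat_lit 384, ⟨nat_lit 0, nat_lit 1000, nat_lit 0, nat_lit 6, nat_lit 246, nat_lit 1000, nat_lit 89, nat_lit 0, nat_lit 0, nat_lit 0, nat_lit 0, nat_lit 0, nat_lit 45526581, nat_lit 17855736, nat_lit 3617683, nat_lit 4076283, false, true⟩,
 nat_lit 0, nat_lit 4036, nat_lit 0, nat_lit 0, nat_lit 3389, nat_lit 0, nat_lit 334, nat_lit 0, nat_lit 0, nat_lit 0, nat_lit 0, nat_lit 0, nat_lit 0, nat_lit 0, nat_lit 0, nat_lit 400000, nat_lit 0, nat_lit 0, [(nat_lit 21, [(nat_lit 1, nat_lit 1000)])],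
 ⟨p075_k10, nat_lit 0, nat_lit 0, nat_lit 231, nat_lit 0, nat_lit 496188, [nat_lit 1355200000, nat_lit 1492800000], [], [nat_lit 21623386384, nat_lit 21910778844, nat_lit 25760873975, nat_lit 26069403393, nat_lit 22522032265, nat_lit 22782130641, nat_lit 26078631529, nat_lit 26292609142], nat_lit 1271250, nat_lit 1271250, nat_lit 1271250, nat_lit 1271250, nat_lit 490000, nat_lit 1100001, [nat_lit 490000, nat_lit 1100000], [nat_lit 24, nat_lit 40, nat_lit 40, nat_lit 80, nat_lit 33, nat_lit 249, nat_lit 40, nat_lit 10]⟩, ⟨p075_k6, nat_lit 0, nat_lit 0, nat_lit 1092, nat_lit 0, nat_lit 1593200, [nat_lit 0, nat_lit 0, nat_lit 0], [], [nat_lit 0, nat_lit 0, nat_lit 0, nat_lit 0, nat_lit 0, nat_lit 0, nat_lit 0, nat_lit 0], nat_lit 1100001, nat_lit 1442500, nat_lit 1271250, nat_lit 1271250, nat_lit 0, nat_lit 2712000, [nat_lit 1695000, nat_lit 1271250, nat_lit 1271250], [nat_lit 62, nat_lit 40, nat_lit 40, nat_lit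 80, nat_lit 58, nat_lit 483, nat_lit 250, nat_lit 11]⟩,
 ⟨nat_lit 3354, nat_lit 3536, ⟨.ofNat (nat_lit 518855), .ofNat (nat_lit 669482), .ofNat (nat_lit 562760), .ofNat (nat_lit 713387), .ofNat (nat_lit 517769), .ofNat (nat_lit 666245), .ofNat (nat_lit 561864), .ofNat (nat_lit 710340)⟩, ⟨.ofNat (nat_lit 136093), .ofNat (nat_lit 261616), .ofNat (nat_lit 179999), .ofNat (nat_lit 305521), .ofNat (nat_lit 138023), .ofNat (nat_lit 261753), .ofNat (nat_lit 182118), .ofNat (nat_lit 305848)⟩⟩, [⟨nat_lit 13, nat_lit 66, nat_lit 75, nat_lit 100, nat_lit 242219945⟩]⟩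
noncomputable def p075_l51 : Lf2 := ⟨nat_lit 0, nat_lit 10, [nat_lit 0, nat_lit 5, nat_lit 5, nat_lit 20], false, nat_lit 80, nat_lit 160, nat_lit 0, nat_lit 384, ⟨nat_lit 0, nat_lit 1000, nat_lit 0, nat_lit 6, nat_lit 243, nat_lit 1000, nat_lit 89, nat_lit 0, nat_lit 0, nat_lit 0, nat_lit 0, nat_lit 0, nat_lit 45822269, nat_lit 17521514, nat_lit 3656217, nat_lit 4060363, false, true⟩,
 nat_lit 0, nat_lit 3880, nat_lit 0, nat_lit 0, nat_lit 3318, nat_lit 0, nat_lit 206, nat_lit 0, nat_lit 0, nat_lit 0, nat_lit 0, nat_lit 0, nat_lit 0, nat_lit 0, nat_lit 0, nat_lit 400000, nat_lit 0, nat_lit 0, [(nat_lit 21, [(nat_lit 1, nat_lit 1000)])],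
 ⟨p075_k12, nat_lit 0, nat_lit 0, nat_lit 240, nat_lit 0, nat_lit 516658, [nat_lit 1355200000, nat_lit 1492800000], [], [nat_lit 22232407361, nat_lit 22490153542, nat_lit 25583828547, nat_lit 25821076492, nat_lit 23018943120, nat_lit 23253159792, nat_lit 26158763835, nat_lit 26374889956], nat_lit 1271250, nat_lit 1271250, nat_lit 1271250, nat_lit 1271250, nat_lit 490000, nat_lit 1100001, [nat_lit 490000, nat_lit 1100000], [nat_lit 24, nat_lit 40, nat_lit 40, nat_lit 80, nat_lit 33, nat_lit 249, nat_lit 40, nat_lit 10]⟩, ⟨p075_k6, nat_lit 0, nat_lit 0, nat_lit 1136, nat_lit 0, nat_lit 1694616, [nat_lit 0, nat_lit 0, nat_lit 0], [], [nat_lit 0, nat_lit 0, nat_lit 0, nat_lit 0, nat_lit 0, nat_lit 0, nat_lit 0, nat_lit 0], nat_lit 1100001, nat_lit 1442500, nat_lit 1271250, nat_lit 1271250, nat_lit 0, nat_lit 2712000, [nat_lit 1695000, nat_lit 1271250, nat_lit 1271250], [nat_lit 62, nat_lit 40, nat_lit 40, nat_lit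 80, nat_lit 58, nat_lit 483, nat_lit 250, nat_lit 11]⟩,
 ⟨nat_lit 3162, nat_lit 3355, ⟨.ofNat (nat_lit 517769), .ofNat (nat_lit 653872), .ofNat (nat_lit 561864), .ofNat (nat_lit 697967), .ofNat (nat_lit 516642), .ofNat (nat_lit 650739), .ofNat (nat_lit 560952), .ofNat (nat_lit 695049)⟩, ⟨.ofNat (nat_lit 138023), .ofNat (nat_lit 261753), .ofNat (nat_lit 182118), .ofNat (nat_lit 305848), .ofNat (nat_lit 139899), .ofNat (nat_lit 261806), .ofNat (nat_lit 184209), .ofNat (nat_lit 306116)⟩⟩, [⟨nat_lit 13, nat_lit 63, nat_lit 78, nat_lit 100, nat_lit 251119337⟩, ⟨nat_lit 4, nat_lit 100, nat_lit 62, nat_lit 72, nat_lit 51815790⟩]⟩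
noncomputable def b_V_800_400_10_3 : St := ⟨true, nat_lit 1, nat_lit 1, nat_lit 1, nat_lit 80, nat_lit 320, nat_lit 360, nat_lit 160, nat_lit 200, nat_lit 160, nat_lit 360, nat_lit 40, nat_lit 80, nat_lit 0, nat_lit 160, nat_lit 0, nat_lit 384, nat_lit 0, nat_lit 40, nat_lit 0, nat_lit 0, nat_lit 0, nat_lit 0⟩
theorem d_V_800_400_10_3 (h : EB TB.env) : Dead b_V_800_400_10_3 := chkB_sound0 h (T :=
(.spl (nat_lit 0) (nat_lit 340)
(.spl (nat_lit 2) (nat_lit 240)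
(.leaf p075_l32)
(.spl (nat_lit 4) (nat_lit 80)
(.trX (nat_lit 22) (nat_lit 100) (nat_lit 76) (nat_lit 82) (nat_lit 336) (.spl (nat_lit 2) (nat_lit 320)
(.spl (nat_lit 0) (nat_lit 330)
(.leaf p075_l33)
(.spl (nat_lit 0) (nat_lit 335)
(.leaf p075_l34)
(.leaf p075_l35)))
(.trX (nat_lit 22) (nat_lit 83) (nat_lit 100) (nat_lit 83) (nat_lit 260) (.spl (nat_lit 0) (nat_lit 330)
(.leaf p075_l36)
(.trX (nat_lit 13) (nat_lit 76) (nat_lit 65) (nat_lit 100) (nat_lit 352) (.spl (nat_lit 0) (nat_lit 335)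
(.leaf p075_l37)
(.trX (nat_lit 13) (nat_lit 74) (nat_lit 68) (nat_lit 100) (nat_lit 348) (.leaf p075_l38))))))))
(.spl (nat_lit 2) (nat_lit 320)
(.leaf p075_l39)
(.trX (nat_lit 22) (nat_lit 82) (nat_lit 76) (nat_lit 100) (nat_lit 336) (.spl (nat_lit 0) (nat_lit 330)
(.leaf p075_l40)
(.trX (nat_lit 13) (nat_lit 76) (nat_lit 65) (nat_lit 100) (nat_lit 352) (.leaf p075_l41)))))))
(.trX (nat_lit 13) (nat_lit 71) (nat_lit 70) (nat_lit 100) (nat_lit 344) (.spl (nat_lit 4) (nat_lit 80)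
(.spl (nat_lit 2) (nat_lit 240)
(.leaf p075_l42)
(.trX (nat_lit 22) (nat_lit 100) (nat_lit 76) (nat_lit 82) (nat_lit 336) (.spl (nat_lit 1) (nat_lit 180)
(.trX (nat_lit 13) (nat_lit 72) (nat_lit 77) (nat_lit 100) (nat_lit 332) (.spl (nat_lit 0) (nat_lit 350)
(.leaf p075_l43)
(.trX (nat_lit 13) (nat_lit 66) (nat_lit 82) (nat_lit 100) (nat_lit 320) (.leaf p075_l44))))
(.spl (nat_lit 0) (nat_lit 350)
(.leaf p075_l45)
(.trX (nat_lit 13) (nat_lit 66) (nat_lit 75) (nat_lit 100) (nat_lit 336) (.spl (nat_lit 0) (nat_lit 355)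
(.leaf p075_l46)
(.trX (nat_lit 13) (nat_lit 63) (nat_lit 78) (nat_lit 100) (nat_lit 328) (.leaf p075_l47))))))))
(.spl (nat_lit 2) (nat_lit 240)
(.leaf p075_l48)
(.spl (nat_lit 0) (nat_lit 350)
(.leaf p075_l49)
(.trX (nat_lit 13) (nat_lit 66) (nat_lit 75) (nat_lit 100) (nat_lit 336) (.spl (nat_lit 0) (nat_lit 355)
(.leaf p075_l50)
(.trX (nat_lit 13) (nat_lit 63) (nat_lit 78) (nat_lit 100) (nat_lit 328) (.leaf p075_l51)))))))))) (by decide +kernel)
noncomputable def p075_l52 : Lf2 := ⟨nat_lit 0, nat_lit 10, [nat_lit 0, nat_lit 5, nat_lit 5, nat_lit 20], false, nat_lit 160, nat_lit 260, nat_lit 0, nat_lit 384, ⟨nat_lit 0, nat_lit 0, nat_lit 1000, nat_lit 4, nat_lit 191, nat_lit 1000, nat_lit 145, nat_lit 1000, nat_lit 89743, nat_lit 288, nat_lit 1350, nat_lit 224, nat_lit 47075290, nat_lit 0, nat_lit 0, nat_lit 4330740, false, true⟩,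
 nat_lit 0, nat_lit 4107, nat_lit 0, nat_lit 0, nat_lit 3080, nat_lit 0, nat_lit 0, nat_lit 0, nat_lit 0, nat_lit 0, nat_lit 0, nat_lit 0, nat_lit 0, nat_lit 0, nat_lit 76, nat_lit 400000, nat_lit 0, nat_lit 0, [(nat_lit 18, [(nat_lit 5, nat_lit 1000)]), (nat_lit 21, [(nat_lit 5, nat_lit 1000)])],
 ⟨p075_k3, nat_lit 0, nat_lit 0, nat_lit 263, nat_lit 0, nat_lit 603386, [nat_lit 1585600001, nat_lit 802000001, nat_lit 14800000], [], [nat_lit 17736029285, nat_lit 20008358085, nat_lit 20073332645, nat_lit 22072223525, nat_lit 20831397605, nat_lit 22758514565, nat_lit 22762998685, nat_lit 24727337800], nat_lit 1271250, nat_lit 1271250, nat_lit 1100001, nat_lit 1785000, nat_lit 1100001, nat_lit 1956250, [nat_lit 490000, nat_lit 1100000, nat_lit 1442500], [nat_lit 6, nat_lit 40, nat_lit 40, nat_lit 80, nat_lit 3, nat_lit 345, nat_lit 125, nat_lit 12]⟩, ⟨p075_k6, nat_lit 0, nat_lit 0, nat_lit 1169, nat_lit 0, nat_lit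 1694616, [nat_lit 0, nat_lit 0, nat_lit 0], [], [nat_lit 0, nat_lit 0, nat_lit 0, nat_lit 0, nat_lit 0, nat_lit 0, nat_lit 0, nat_lit 0], nat_lit 1100001, nat_lit 1442500, nat_lit 1271250, nat_lit 1271250, nat_lit 0, nat_lit 2712000, [nat_lit 1695000, nat_lit 1271250, nat_lit 1271250], [nat_lit 62, nat_lit 40, nat_lit 40, nat_lit 80, nat_lit 58, nat_lit 456, nat_lit 225, nat_lit 11]⟩,
 ⟨nat_lit 3162, nat_lit 4473, ⟨.ofNat (nat_lit 388887), .ofNat (nat_lit 524844), .ofNat (nat_lit 431944), .ofNat (nat_lit 567977), .ofNat (nat_lit 394735), .ofNat (nat_lit 516642), .ofNat (nat_lit 438969), .ofNat (nat_lit 560952)⟩, ⟨.ofNat (nat_lit 259488), .ofNat (nat_lit 429433), .ofNat (nat_lit 302621), .ofNat (nat_lit 472567), .ofNat (nat_lit 261805), .ofNat (nat_lit 414188), .ofNat (nat_lit 306116), .ofNat (nat_lit 458499)⟩⟩, [⟨nat_lit 4, nat_lit 100, nat_lit 71, nat_lit 71, nat_lit 290250196⟩]⟩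
noncomputable def p075_l53 : Lf2 := ⟨nat_lit 0, nat_lit 10, [nat_lit 0, nat_lit 5, nat_lit 5, nat_lit 20], false, nat_lit 160, nat_lit 260, nat_lit 0, nat_lit 384, ⟨nat_lit 0, nat_lit 1000, nat_lit 0, nat_lit 6, nat_lit 245, nat_lit 1000, nat_lit 146, nat_lit 0, nat_lit 0, nat_lit 0, nat_lit 0, nat_lit 0, nat_lit 42443179, nat_lit 17040342, nat_lit 7516479, nat_lit 4731595, false, true⟩,
 nat_lit 0, nat_lit 4793, nat_lit 0, nat_lit 0, nat_lit 3594, nat_lit 0, nat_lit 0, nat_lit 0, nat_lit 0, nat_lit 0, nat_lit 0, nat_lit 0, nat_lit 0, nat_lit 0, nat_lit 3, nat_lit 899800, nat_lit 0, nat_lit 0, [(nat_lit 18, [(nat_lit 1, nat_lit 167), (nat_lit 2, nat_lit 833)])],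
 ⟨p075_k3, nat_lit 0, nat_lit 0, nat_lit 178, nat_lit 0, nat_lit 399327, [nat_lit 1675143200, nat_lit 1247196001, nat_lit 18268000], [], [nat_lit 20894771946, nat_lit 21392282162, nat_lit 23832877370, nat_lit 24255959106, nat_lit 23367442964, nat_lit 23789289592, nat_lit 26112277032, nat_lit 26586778165], nat_lit 1271250, nat_lit 1271250, nat_lit 1271250, nat_lit 1271250, nat_lit 1100001, nat_lit 1956250, [nat_lit 490000, nat_lit 1100000, nat_lit 1442500], [nat_lit 6, nat_lit 40, nat_lit 40, nat_lit 80, nat_lit 3, nat_lit 289, nat_lit 75, nat_lit 9]⟩, ⟨p075_k6, nat_lit 0, nat_lit 0, nat_lit 870, nat_lit 0, nat_lit 1121514, [nat_lit 0, nat_lit 0, nat_lit 0], [], [nat_lit 0, nat_lit 0, nat_lit 0, nat_lit 0, nat_lit 0, nat_lit 0, nat_lit 0, nat_lit 0], nat_lit 1100001, nat_lit 1442500, nat_lit 1271250, nat_lit 1271250, nat_lit 0, nat_lit 2712000, [nat_lit 1695000, nat_lit 1271250, nat_lit 1271250], [nat_lit 62,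 nat_lit 40, nat_lit 40, nat_lit 80, nat_lit 58, nat_lit 483, nat_lit 250, nat_lit 11]⟩,
 ⟨nat_lit 4183, nat_lit 4473, ⟨.ofNat (nat_lit 524844), .ofNat (nat_lit 660800), .ofNat (nat_lit 567977), .ofNat (nat_lit 703933), .ofNat (nat_lit 522921), .ofNat (nat_lit 655432), .ofNat (nat_lit 566254), .ofNat (nat_lit 698765)⟩, ⟨.ofNat (nat_lit 259489), .ofNat (nat_lit 429434), .ofNat (nat_lit 302621), .ofNat (nat_lit 472567), .ofNat (nat_lit 260409), .ofNat (nat_lit 426048), .ofNat (nat_lit 303743), .ofNat (nat_lit 469382)⟩⟩, [⟨nat_lit 4, nat_lit 100, nat_lit 79, nat_lit 72, nat_lit 171683320⟩]⟩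
noncomputable def p075_l54 : Lf2 := ⟨nat_lit 0, nat_lit 10, [nat_lit 0, nat_lit 5, nat_lit 5, nat_lit 20], false, nat_lit 160, nat_lit 244, nat_lit 0, nat_lit 384, ⟨nat_lit 0, nat_lit 910, nat_lit 90, nat_lit 6, nat_lit 244, nat_lit 1000, nat_lit 140, nat_lit 90, nat_lit 183750, nat_lit 320, nat_lit 126280, nat_lit 200, nat_lit 42900587, nat_lit 16989236, nat_lit 7110177, nat_lit 4665592, false, true⟩,
 nat_lit 0, nat_lit 4509, nat_lit 0, nat_lit 0, nat_lit 3514, nat_lit 0, nat_lit 438, nat_lit 0, nat_lit 0, nat_lit 0, nat_lit 0, nat_lit 0, nat_lit 0, nat_lit 0, nat_lit 0, nat_lit 400000, nat_lit 0, nat_lit 0, [(nat_lit 18, [(nat_lit 1, nat_lit 910), (nat_lit 5, nat_lit 90)])],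
 ⟨p075_k8, nat_lit 0, nat_lit 0, nat_lit 210, nat_lit 0, nat_lit 444606, [nat_lit 1355893334, nat_lit 1752406667, nat_lit 1648860000], [], [nat_lit 21318473928, nat_lit 21811315024, nat_lit 24163928792, nat_lit 24583535008, nat_lit 23214740895, nat_lit 23645651762, nat_lit 25958771802, nat_lit 26475425782], nat_lit 1271250, nat_lit 1271250, nat_lit 1271250, nat_lit 1271250, nat_lit 1100001, nat_lit 1819250, [nat_lit 490000, nat_lit 1100000, nat_lit 1442500], [nat_lit 6, nat_lit 40, nat_lit 40, nat_lit 80, nat_lit 3, nat_lit 289, nat_lit 75, nat_lit 9]⟩, ⟨p075_k6, nat_lit 0, nat_lit 0, nat_lit 961, nat_lit 0, nat_lit 1307298, [nat_lit 0, nat_lit 0, nat_lit 0], [], [nat_lit 0, nat_lit 0, nat_lit 0, nat_lit 0, nat_lit 0, nat_lit 0, nat_lit 0, nat_lit 0], nat_lit 1100001, nat_lit 1442500, nat_lit 1271250, nat_lit 1271250, nat_lit 0, nat_lit 2712000, [nat_lit 1695000, nat_lit 1271250, nat_lit 1271250], [nat_lit 62,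 nat_lit 40, nat_lit 40, nat_lit 80, nat_lit 58, nat_lit 483, nat_lit 250, nat_lit 11]⟩,
 ⟨nat_lit 3872, nat_lit 4184, ⟨.ofNat (nat_lit 522921), .ofNat (nat_lit 655432), .ofNat (nat_lit 566254), .ofNat (nat_lit 698765), .ofNat (nat_lit 520934), .ofNat (nat_lit 649977), .ofNat (nat_lit 564520), .ofNat (nat_lit 693563)⟩, ⟨.ofNat (nat_lit 260409), .ofNat (nat_lit 399546), .ofNat (nat_lit 303743), .ofNat (nat_lit 442879), .ofNat (nat_lit 261131), .ofNat (nat_lit 396626), .ofNat (nat_lit 304717), .ofNat (nat_lit 440213)⟩⟩, [⟨nat_lit 4, nat_lit 100, nat_lit 74, nat_lit 72, nat_lit 187874579⟩]⟩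
noncomputable def p075_l55 : Lf2 := ⟨nat_lit 0, nat_lit 10, [nat_lit 0, nat_lit 5, nat_lit 5, nat_lit 20], false, nat_lit 160, nat_lit 260, nat_lit 16, nat_lit 384, ⟨nat_lit 0, nat_lit 1000, nat_lit 0, nat_lit 8, nat_lit 276, nat_lit 1000, nat_lit 146, nat_lit 0, nat_lit 0, nat_lit 0, nat_lit 0, nat_lit 0, nat_lit 39896738, nat_lit 19890078, nat_lit 7213184, nat_lit 4868842, false, true⟩,
 nat_lit 0, nat_lit 4885, nat_lit 0, nat_lit 0, nat_lit 3663, nat_lit 0, nat_lit 0, nat_lit 0, nat_lit 0, nat_lit 0, nat_lit 0, nat_lit 0, nat_lit 0, nat_lit 0, nat_lit 0, nat_lit 879400, nat_lit 0, nat_lit 0, [(nat_lit 18, [(nat_lit 1, nat_lit 201), (nat_lit 2, nat_lit 799)])],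
 ⟨p075_k3, nat_lit 0, nat_lit 0, nat_lit 220, nat_lit 0, nat_lit 453627, [nat_lit 1640816267, nat_lit 1230521334, nat_lit 40004000], [], [nat_lit 24278644670, nat_lit 25082462652, nat_lit 25435618149, nat_lit 26305742318, nat_lit 26376661918, nat_lit 27201949099, nat_lit 27550629836, nat_lit 28495805510], nat_lit 1271250, nat_lit 1271250, nat_lit 1271250, nat_lit 1271250, nat_lit 1100001, nat_lit 1956250, [nat_lit 490000, nat_lit 1100000, nat_lit 1442500], [nat_lit 6, nat_lit 40, nat_lit 40, nat_lit 80, nat_lit 3, nat_lit 289, nat_lit 75, nat_lit 9]⟩, ⟨p075_k6, nat_lit 0, nat_lit 0, nat_lit 912, nat_lit 0, nat_lit 1274015, [nat_lit 0, nat_lit 0, nat_lit 0], [], [nat_lit 0, nat_lit 0, nat_lit 0, nat_lit 0, nat_lit 0, nat_lit 0, nat_lit 0, nat_lit 0], nat_lit 1100001, nat_lit 1271250, nat_lit 1271250, nat_lit 1271250, nat_lit 88400, nat_lit 2742600, [nat_lit 1695000, nat_lit 1271250, nat_lit 1271250], [nat_lit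 62, nat_lit 40, nat_lit 40, nat_lit 80, nat_lit 58, nat_lit 483, nat_lit 250, nat_lit 11]⟩,
 ⟨nat_lit 3872, nat_lit 4473, ⟨.ofNat (nat_lit 660800), .ofNat (nat_lit 708385), .ofNat (nat_lit 682366), .ofNat (nat_lit 729951), .ofNat (nat_lit 649977), .ofNat (nat_lit 695142), .ofNat (nat_lit 671770), .ofNat (nat_lit 716935)⟩, ⟨.ofNat (nat_lit 259489), .ofNat (nat_lit 429434), .ofNat (nat_lit 302621), .ofNat (nat_lit 472567), .ofNat (nat_lit 261131), .ofNat (nat_lit 422435), .ofNat (nat_lit 304717), .ofNat (nat_lit 466021)⟩⟩, [⟨nat_lit 13, nat_lit 77, nat_lit 77, nat_lit 100, nat_lit 252854576⟩, ⟨nat_lit 4, nat_lit 100, nat_lit 76, nat_lit 72, nat_lit 183948132⟩]⟩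
noncomputable def p075_l56 : Lf2 := ⟨nat_lit 0, nat_lit 10, [nat_lit 0, nat_lit 5, nat_lit 5, nat_lit 20], false, nat_lit 160, nat_lit 260, nat_lit 16, nat_lit 372, ⟨nat_lit 220, nat_lit 780, nat_lit 0, nat_lit 8, nat_lit 288, nat_lit 780, nat_lit 146, nat_lit 0, nat_lit 0, nat_lit 0, nat_lit 0, nat_lit 0, nat_lit 38863165, nat_lit 21048156, nat_lit 7088679, nat_lit 4910489, true, true⟩,
 nat_lit 5375, nat_lit 0, nat_lit 0, nat_lit 0, nat_lit 4030, nat_lit 2043, nat_lit 0, nat_lit 0, nat_lit 0, nat_lit 540, nat_lit 0, nat_lit 0, nat_lit 0, nat_lit 0, nat_lit 0, nat_lit 665400, nat_lit 0, nat_lit 0, [(nat_lit 18, [(nat_lit 1, nat_lit 191), (nat_lit 2, nat_lit 589)])],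
 ⟨p075_k3, nat_lit 0, nat_lit 0, nat_lit 227, nat_lit 0, nat_lit 465478, [nat_lit 1716482934, nat_lit 2022694667, nat_lit 1488468000], [], [nat_lit 25002560935, nat_lit 25788395702, nat_lit 26621175122, nat_lit 27378782202, nat_lit 26845679142, nat_lit 27553153412, nat_lit 28480691410, nat_lit 29428654190], nat_lit 1271250, nat_lit 1271250, nat_lit 1271250, nat_lit 1271250, nat_lit 1100001, nat_lit 1956250, [nat_lit 490000, nat_lit 1100000, nat_lit 1442500], [nat_lit 6, nat_lit 40, nat_lit 40, nat_lit 80, nat_lit 3, nat_lit 289, nat_lit 75, nat_lit 9]⟩, ⟨p075_k11, nat_lit 0, nat_lit 0, nat_lit 817, nat_lit 0, nat_lit 1094551, [nat_lit 1752960000, nat_lit 2611840000, nat_lit 3092760000], [], [nat_lit 8713467852, nat_lit 8657622964, nat_lit 8979416696, nat_lit 8911643124, nat_lit 7621476571, nat_lit 7572078107, nat_lit 8020927257, nat_lit 7964254794], nat_lit 1271250, nat_lit 1271250, nat_lit 1271250, nat_lit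 1271250, nat_lit 88400, nat_lit 2656050, [nat_lit 1695000, nat_lit 1271250, nat_lit 1271250], [nat_lit 62, nat_lit 40, nat_lit 40, nat_lit 80, nat_lit 58, nat_lit 483, nat_lit 250, nat_lit 11]⟩,
 ⟨nat_lit 3872, nat_lit 4473, ⟨.ofNat (nat_lit 682366), .ofNat (nat_lit 750345), .ofNat (nat_lit 703933), .ofNat (nat_lit 771911), .ofNat (nat_lit 671770), .ofNat (nat_lit 736292), .ofNat (nat_lit 693563), .ofNat (nat_lit 758085)⟩, ⟨.ofNat (nat_lit 259489), .ofNat (nat_lit 429434), .ofNat (nat_lit 302621), .ofNat (nat_lit 472567), .ofNat (nat_lit 261131), .ofNat (nat_lit 422435), .ofNat (nat_lit 304717), .ofNat (nat_lit 466021)⟩⟩, [⟨nat_lit 13, nat_lit 76, nat_lit 69, nat_lit 100, nat_lit 132185994⟩, ⟨nat_lit 4, nat_lit 100, nat_lit 76, nat_lit 72, nat_lit 296764439⟩, ⟨nat_lit 22, nat_lit 72, nat_lit 66, nat_lit 100, nat_lit 40449443⟩]⟩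
noncomputable def p075_l57 : Lf2 := ⟨nat_lit 0, nat_lit 10, [nat_lit 0, nat_lit 5, nat_lit 5, nat_lit 20], false, nat_lit 160, nat_lit 232, nat_lit 0, nat_lit 384, ⟨nat_lit 0, nat_lit 1000, nat_lit 0, nat_lit 6, nat_lit 250, nat_lit 1000, nat_lit 136, nat_lit 0, nat_lit 0, nat_lit 0, nat_lit 0, nat_lit 0, nat_lit 42614666, nat_lit 17631026, nat_lit 6754308, nat_lit 4655488, false, true⟩,
 nat_lit 0, nat_lit 4039, nat_lit 0, nat_lit 0, nat_lit 3269, nat_lit 0, nat_lit 337, nat_lit 0, nat_lit 0, nat_lit 0, nat_lit 0, nat_lit 0, nat_lit 0, nat_lit 0, nat_lit 0, nat_lit 400000, nat_lit 0, nat_lit 0, [(nat_lit 21, [(nat_lit 1, nat_lit 1000)])],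
 ⟨p075_k7, nat_lit 0, nat_lit 0, nat_lit 232, nat_lit 0, nat_lit 486902, [nat_lit 1355200000, nat_lit 1492800001, nat_lit 1492000000], [], [nat_lit 21890563812, nat_lit 22340696484, nat_lit 25808981646, nat_lit 26248499291, nat_lit 23444902353, nat_lit 23922196785, nat_lit 27159503316, nat_lit 27638012048], nat_lit 1271250, nat_lit 1271250, nat_lit 1271250, nat_lit 1271250, nat_lit 1100001, nat_lit 1716500, [nat_lit 490000, nat_lit 1100000, nat_lit 1442500], [nat_lit 6, nat_lit 40, nat_lit 40, nat_lit 80, nat_lit 3, nat_lit 272, nat_lit 60, nat_lit 9]⟩, ⟨p075_k6, nat_lit 0, nat_lit 0, nat_lit 1041, nat_lit 0, nat_lit 1496964, [nat_lit 0, nat_lit 0, nat_lit 0], [], [nat_lit 0, nat_lit 0, nat_lit 0, nat_lit 0, nat_lit 0, nat_lit 0, nat_lit 0, nat_lit 0], nat_lit 1100001, nat_lit 1442500, nat_lit 1271250, nat_lit 1271250, nat_lit 0, nat_lit 2712000, [nat_lit 1695000, nat_lit 1271250, nat_lit 1271250], [nat_lit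 62, nat_lit 40, nat_lit 40, nat_lit 80, nat_lit 58, nat_lit 483, nat_lit 250, nat_lit 11]⟩,
 ⟨nat_lit 3535, nat_lit 3873, ⟨.ofNat (nat_lit 520934), .ofNat (nat_lit 688690), .ofNat (nat_lit 564520), .ofNat (nat_lit 732276), .ofNat (nat_lit 518855), .ofNat (nat_lit 682034), .ofNat (nat_lit 562760), .ofNat (nat_lit 725940)⟩, ⟨.ofNat (nat_lit 261131), .ofNat (nat_lit 377270), .ofNat (nat_lit 304717), .ofNat (nat_lit 420856), .ofNat (nat_lit 261616), .ofNat (nat_lit 374587), .ofNat (nat_lit 305521), .ofNat (nat_lit 418492)⟩⟩, [⟨nat_lit 13, nat_lit 69, nat_lit 79, nat_lit 100, nat_lit 236507240⟩, ⟨nat_lit 4, nat_lit 100, nat_lit 69, nat_lit 71, nat_lit 205676248⟩]⟩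
noncomputable def p075_l58 : Lf2 := ⟨nat_lit 0, nat_lit 10, [nat_lit 0, nat_lit 5, nat_lit 5, nat_lit 20], false, nat_lit 160, nat_lit 216, nat_lit 0, nat_lit 384, ⟨nat_lit 0, nat_lit 1000, nat_lit 0, nat_lit 6, nat_lit 246, nat_lit 1000, nat_lit 131, nat_lit 0, nat_lit 0, nat_lit 0, nat_lit 0, nat_lit 0, nat_lit 43285493, nat_lit 17310743, nat_lit 6403764, nat_lit 4575166, false, true⟩,
 nat_lit 0, nat_lit 4044, nat_lit 0, nat_lit 0, nat_lit 3396, nat_lit 0, nat_lit 287, nat_lit 0, nat_lit 0, nat_lit 0, nat_lit 0, nat_lit 0, nat_lit 0, nat_lit 0, nat_lit 0, nat_lit 400000, nat_lit 0, nat_lit 0, [(nat_lit 21, [(nat_lit 1, nat_lit 1000)])],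
 ⟨p075_k10, nat_lit 0, nat_lit 0, nat_lit 209, nat_lit 0, nat_lit 527773, [nat_lit 1355200000, nat_lit 1492800000], [], [nat_lit 22500772460, nat_lit 23021433024, nat_lit 26059599618, nat_lit 26502566205, nat_lit 23796639049, nat_lit 24273926650, nat_lit 27057498854, nat_lit 27564738829], nat_lit 1271250, nat_lit 1271250, nat_lit 1271250, nat_lit 1271250, nat_lit 1100001, nat_lit 1579500, [nat_lit 490000, nat_lit 1100000], [nat_lit 24, nat_lit 40, nat_lit 40, nat_lit 80, nat_lit 33, nat_lit 203, nat_lit 0, nat_lit 7]⟩, ⟨p075_k6, nat_lit 0, nat_lit 0, nat_lit 1136, nat_lit 0, nat_lit 1694616, [nat_lit 0, nat_lit 0, nat_lit 0], [], [nat_lit 0, nat_lit 0, nat_lit 0, nat_lit 0, nat_lit 0, nat_lit 0, nat_lit 0, nat_lit 0], nat_lit 1100001, nat_lit 1442500, nat_lit 1271250, nat_lit 1271250, nat_lit 0, nat_lit 2712000, [nat_lit 1695000, nat_lit 1271250, nat_lit 1271250], [nat_lit 62, nat_lit 40, nat_lit 40, nat_lit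 80, nat_lit 58, nat_lit 483, nat_lit 250, nat_lit 11]⟩,
 ⟨nat_lit 3162, nat_lit 3536, ⟨.ofNat (nat_lit 518855), .ofNat (nat_lit 669482), .ofNat (nat_lit 562760), .ofNat (nat_lit 713387), .ofNat (nat_lit 516642), .ofNat (nat_lit 662930), .ofNat (nat_lit 560952), .ofNat (nat_lit 707240)⟩, ⟨.ofNat (nat_lit 261616), .ofNat (nat_lit 349482), .ofNat (nat_lit 305521), .ofNat (nat_lit 393387), .ofNat (nat_lit 261806), .ofNat (nat_lit 347141), .ofNat (nat_lit 306116), .ofNat (nat_lit 391450)⟩⟩, [⟨nat_lit 13, nat_lit 66, nat_lit 75, nat_lit 100, nat_lit 246772693⟩, ⟨nat_lit 16, nat_lit 63, nat_lit 100, nat_lit 72, nat_lit 312091534⟩]⟩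
noncomputable def b_V_800_400_10_4 : St := ⟨true, nat_lit 1, nat_lit 1, nat_lit 1, nat_lit 80, nat_lit 320, nat_lit 360, nat_lit 160, nat_lit 200, nat_lit 160, nat_lit 360, nat_lit 40, nat_lit 80, nat_lit 160, nat_lit 260, nat_lit 0, nat_lit 384, nat_lit 0, nat_lit 40, nat_lit 0, nat_lit 0, nat_lit 0, nat_lit 0⟩
theorem d_V_800_400_10_4 (h : EB TB.env) : Dead b_V_800_400_10_4 := chkB_sound0 h (T :=
(.spl (nat_lit 2) (nat_lit 240)
(.leaf p075_l52)
(.spl (nat_lit 0) (nat_lit 340)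
(.spl (nat_lit 2) (nat_lit 320)
(.spl (nat_lit 0) (nat_lit 330)
(.leaf p075_l53)
(.trX (nat_lit 16) (nat_lit 78) (nat_lit 100) (nat_lit 82) (nat_lit 244) (.leaf p075_l54)))
(.trZ (nat_lit 9) (nat_lit 100) (nat_lit 82) (nat_lit 44) (nat_lit 16) (.spl (nat_lit 1) (nat_lit 180)
(.trX (nat_lit 13) (nat_lit 80) (nat_lit 68) (nat_lit 100) (nat_lit 348) (.leaf p075_l55))
(.trX (nat_lit 19) (nat_lit 100) (nat_lit 52) (nat_lit 80) (nat_lit 372) (.leaf p075_l56)))))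
(.trX (nat_lit 13) (nat_lit 71) (nat_lit 70) (nat_lit 100) (nat_lit 344) (.trX (nat_lit 16) (nat_lit 72) (nat_lit 100) (nat_lit 81) (nat_lit 232) (.spl (nat_lit 0) (nat_lit 350)
(.leaf p075_l57)
(.trX (nat_lit 13) (nat_lit 66) (nat_lit 75) (nat_lit 100) (nat_lit 336) (.trX (nat_lit 16) (nat_lit 66) (nat_lit 100) (nat_lit 80) (nat_lit 216) (.leaf p075_l58))))))))) (by decide +kernel)
noncomputable def p075_l59 : Lf2 := ⟨nat_lit 0, nat_lit 10, [nat_lit 0, nat_lit 5, nat_lit 5, nat_lit 20], true, nat_lit 0, nat_lit 160, nat_lit 0, nat_lit 384, ⟨nat_lit 0, nat_lit 1000, nat_lit 0, nat_lit 4, nat_lit 183, nat_lit 1000, nat_lit 56, nat_lit 0, nat_lit 0, nat_lit 0, nat_lit 0, nat_lit 0, nat_lit 0, nat_lit 0, nat_lit 0, nat_lit 5000000, false, true⟩,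
 nat_lit 0, nat_lit 5218, nat_lit 0, nat_lit 0, nat_lit 3913, nat_lit 0, nat_lit 580, nat_lit 0, nat_lit 0, nat_lit 0, nat_lit 0, nat_lit 0, nat_lit 0, nat_lit 0, nat_lit 23, nat_lit 1000000, nat_lit 0, nat_lit 0, [(nat_lit 18, [(nat_lit 2, nat_lit 1000)])],
 ⟨p075_k3, nat_lit 0, nat_lit 0, nat_lit 471, nat_lit 0, nat_lit 713072, [nat_lit 1885866667, nat_lit 1413333334, nat_lit 16800000], [], [nat_lit 28100169820, nat_lit 26043677018, nat_lit 29148787700, nat_lit 30423098218, nat_lit 21080589823, nat_lit 22035375890, nat_lit 31706796049, nat_lit 30062749099], nat_lit 1271250, nat_lit 1271250, nat_lit 88400, nat_lit 2569500, nat_lit 0, nat_lit 1100001, [nat_lit 490000, nat_lit 1100000, nat_lit 1442500], [nat_lit 6, nat_lit 40, nat_lit 40, nat_lit 80, nat_lit 3, nat_lit 373, nat_lit 150, nat_lit 15]⟩, C1.Rw.none,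
 ⟨nat_lit 3872, nat_lit 4473, ⟨.ofNat (nat_lit 144159), .ofNat (nat_lit 728778), .ofNat (nat_lit 187264), .ofNat (nat_lit 771911), .ofNat (nat_lit 159606), .ofNat (nat_lit 714498), .ofNat (nat_lit 203164), .ofNat (nat_lit 758085)⟩, ⟨.negSucc (nat_lit 12427), .ofNat (nat_lit 259489), .ofNat (nat_lit 0), .ofNat (nat_lit 302621), .ofNat (nat_lit 0), .ofNat (nat_lit 261131), .ofNat (nat_lit 0), .ofNat (nat_lit 304717)⟩⟩, [⟨nat_lit 13, nat_lit 80, nat_lit 60, nat_lit 100, nat_lit 161771967⟩]⟩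
noncomputable def p075_l60 : Lf2 := ⟨nat_lit 0, nat_lit 10, [nat_lit 0, nat_lit 5, nat_lit 5, nat_lit 20], true, nat_lit 0, nat_lit 160, nat_lit 0, nat_lit 384, ⟨nat_lit 0, nat_lit 1000, nat_lit 0, nat_lit 4, nat_lit 184, nat_lit 1000, nat_lit 57, nat_lit 0, nat_lit 0, nat_lit 0, nat_lit 0, nat_lit 0, nat_lit 0, nat_lit 0, nat_lit 0, nat_lit 5000000, false, true⟩,
 nat_lit 0, nat_lit 4431, nat_lit 0, nat_lit 0, nat_lit 3586, nat_lit 0, nat_lit 903, nat_lit 0, nat_lit 0, nat_lit 0, nat_lit 0, nat_lit 0, nat_lit 0, nat_lit 0, nat_lit 0, nat_lit 400000, nat_lit 0, nat_lit 0, [(nat_lit 21, [(nat_lit 1, nat_lit 1000)])],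
 ⟨p075_k5, nat_lit 0, nat_lit 0, nat_lit 518, nat_lit 0, nat_lit 835492, [nat_lit 1355200000, nat_lit 1561600000], [], [nat_lit 21306524707, nat_lit 23047162725, nat_lit 28549109337, nat_lit 29837242276, nat_lit 20747619248, nat_lit 21893187013, nat_lit 28990536232, nat_lit 27777845716], nat_lit 1271250, nat_lit 1271250, nat_lit 181601, nat_lit 2478700, nat_lit 0, nat_lit 1100001, [nat_lit 490000, nat_lit 1427500], [nat_lit 69, nat_lit 40, nat_lit 40, nat_lit 80, nat_lit 64, nat_lit 373, nat_lit 150, nat_lit 15]⟩, C1.Rw.none,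
 ⟨nat_lit 3162, nat_lit 3873, ⟨.ofNat (nat_lit 185344), .ofNat (nat_lit 688690), .ofNat (nat_lit 228873), .ofNat (nat_lit 732276), .ofNat (nat_lit 199607), .ofNat (nat_lit 675121), .ofNat (nat_lit 243860), .ofNat (nat_lit 719431)⟩, ⟨.ofNat (nat_lit 0), .ofNat (nat_lit 261131), .ofNat (nat_lit 0), .ofNat (nat_lit 304717), .ofNat (nat_lit 0), .ofNat (nat_lit 261806), .ofNat (nat_lit 0), .ofNat (nat_lit 306116)⟩⟩, [⟨nat_lit 13, nat_lit 71, nat_lit 70, nat_lit 100, nat_lit 215792945⟩]⟩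
noncomputable def p075_l61 : Lf2 := ⟨nat_lit 0, nat_lit 10, [nat_lit 0, nat_lit 5, nat_lit 5, nat_lit 20], true, nat_lit 160, nat_lit 260, nat_lit 0, nat_lit 384, ⟨nat_lit 0, nat_lit 1000, nat_lit 0, nat_lit 4, nat_lit 183, nat_lit 1000, nat_lit 145, nat_lit 0, nat_lit 0, nat_lit 0, nat_lit 0, nat_lit 0, nat_lit 0, nat_lit 0, nat_lit 0, nat_lit 5000000, false, true⟩,
 nat_lit 0, nat_lit 5356, nat_lit 0, nat_lit 0, nat_lit 4017, nat_lit 0, nat_lit 267, nat_lit 0, nat_lit 0, nat_lit 0, nat_lit 0, nat_lit 0, nat_lit 0, nat_lit 0, nat_lit 0, nat_lit 810400, nat_lit 0, nat_lit 0, [(nat_lit 18, [(nat_lit 1, nat_lit 316), (nat_lit 2, nat_lit 684)]), (nat_lit 21, [(nat_lit 1, nat_lit 316), (nat_lit 2, nat_lit 684)])],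
 ⟨p075_k3, nat_lit 0, nat_lit 0, nat_lit 475, nat_lit 0, nat_lit 924336, [nat_lit 1605886934, nat_lit 1336474667, nat_lit 316464000], [], [nat_lit 22464250284, nat_lit 23486197903, nat_lit 27104538385, nat_lit 28495648208, nat_lit 24056529832, nat_lit 25747615663, nat_lit 32596385502, nat_lit 30362908483], nat_lit 1271250, nat_lit 1271250, nat_lit 88400, nat_lit 2569500, nat_lit 1100001, nat_lit 1956250, [nat_lit 490000, nat_lit 1100000, nat_lit 1442500], [nat_lit 6, nat_lit 40, nat_lit 40, nat_lit 80, nat_lit 3, nat_lit 401, nat_lit 175, nat_lit 15]⟩, C1.Rw.none,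
 ⟨nat_lit 3162, nat_lit 4473, ⟨.ofNat (nat_lit 143971), .ofNat (nat_lit 728778), .ofNat (nat_lit 186943), .ofNat (nat_lit 771911), .ofNat (nat_lit 175109), .ofNat (nat_lit 699502), .ofNat (nat_lit 219258), .ofNat (nat_lit 743812)⟩, ⟨.ofNat (nat_lit 259488), .ofNat (nat_lit 429433), .ofNat (nat_lit 302621), .ofNat (nat_lit 472567), .ofNat (nat_lit 261805), .ofNat (nat_lit 414188), .ofNat (nat_lit 306116), .ofNat (nat_lit 458499)⟩⟩, [⟨nat_lit 13, nat_lit 80, nat_lit 60, nat_lit 100, nat_lit 163399213⟩, ⟨nat_lit 4, nat_lit 100, nat_lit 71, nat_lit 71, nat_lit 608565645⟩]⟩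
noncomputable def p075_l62 : Lf2 := ⟨nat_lit 0, nat_lit 10, [nat_lit 0, nat_lit 5, nat_lit 5, nat_lit 20], false, nat_lit 0, nat_lit 160, nat_lit 0, nat_lit 384, ⟨nat_lit 0, nat_lit 1000, nat_lit 0, nat_lit 4, nat_lit 183, nat_lit 1000, nat_lit 56, nat_lit 0, nat_lit 0, nat_lit 0, nat_lit 0, nat_lit 0, nat_lit 0, nat_lit 0, nat_lit 0, nat_lit 5000000, false, true⟩,
 nat_lit 0, nat_lit 6879, nat_lit 0, nat_lit 0, nat_lit 5159, nat_lit 0, nat_lit 0, nat_lit 0, nat_lit 0, nat_lit 0, nat_lit 0, nat_lit 0, nat_lit 0, nat_lit 0, nat_lit 0, nat_lit 500800, nat_lit 0, nat_lit 0, [(nat_lit 18, [(nat_lit 1, nat_lit 832), (nat_lit 2, nat_lit 168)])],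
 ⟨p075_k0, nat_lit 0, nat_lit 0, nat_lit 364, nat_lit 0, nat_lit 465478, [nat_lit 1667318401, nat_lit 1714249599], [], [nat_lit 26972833717, nat_lit 26554611891, nat_lit 32127849100, nat_lit 33589166774, nat_lit 20478238328, nat_lit 21404375542, nat_lit 32786801340, nat_lit 30644515624], nat_lit 1271250, nat_lit 1271250, nat_lit 88400, nat_lit 2569500, nat_lit 0, nat_lit 1100001, [nat_lit 490000, nat_lit 1427500], [nat_lit 69, nat_lit 40, nat_lit 40, nat_lit 80, nat_lit 64, nat_lit 373, nat_lit 150, nat_lit 15]⟩, ⟨p075_k1, nat_lit 0, nat_lit 0, nat_lit 1094, nat_lit 0, nat_lit 1307298, [nat_lit 0, nat_lit 0], [], [nat_lit 0, nat_lit 0, nat_lit 0, nat_lit 0, nat_lit 0, nat_lit 0, nat_lit 0, nat_lit 0], nat_lit 1100001, nat_lit 1442500, nat_lit 88400, nat_lit 2569500, nat_lit 0, nat_lit 2712000, [nat_lit 1695000, nat_lit 1271250], [nat_lit 121, nat_lit 40, nat_lit 40, nat_lit 80, nat_lit 28, nat_lit 483, nat_lit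 250, nat_lit 12]⟩,
 ⟨nat_lit 3872, nat_lit 4473, ⟨.ofNat (nat_lit 144159), .ofNat (nat_lit 728778), .ofNat (nat_lit 187264), .ofNat (nat_lit 771911), .ofNat (nat_lit 159606), .ofNat (nat_lit 714498), .ofNat (nat_lit 203164), .ofNat (nat_lit 758085)⟩, ⟨.negSucc (nat_lit 12427), .ofNat (nat_lit 259489), .ofNat (nat_lit 0), .ofNat (nat_lit 302621), .ofNat (nat_lit 0), .ofNat (nat_lit 261131), .ofNat (nat_lit 0), .ofNat (nat_lit 304717)⟩⟩, [⟨nat_lit 13, nat_lit 80, nat_lit 60, nat_lit 100, nat_lit 196131727⟩]⟩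
noncomputable def p075_l63 : Lf2 := ⟨nat_lit 0, nat_lit 10, [nat_lit 0, nat_lit 5, nat_lit 5, nat_lit 20], true, nat_lit 0, nat_lit 160, nat_lit 0, nat_lit 384, ⟨nat_lit 0, nat_lit 1000, nat_lit 0, nat_lit 4, nat_lit 184, nat_lit 1000, nat_lit 57, nat_lit 0, nat_lit 0, nat_lit 0, nat_lit 0, nat_lit 0, nat_lit 0, nat_lit 0, nat_lit 0, nat_lit 5000000, false, true⟩,
 nat_lit 0, nat_lit 4431, nat_lit 0, nat_lit 0, nat_lit 3586, nat_lit 0, nat_lit 903, nat_lit 0, nat_lit 0, nat_lit 0, nat_lit 0, nat_lit 0, nat_lit 0, nat_lit 0, nat_lit 0, nat_lit 400000, nat_lit 0, nat_lit 0, [(nat_lit 21, [(nat_lit 1, nat_lit 1000)])],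
 ⟨p075_k5, nat_lit 0, nat_lit 0, nat_lit 518, nat_lit 0, nat_lit 835492, [nat_lit 1355200000, nat_lit 1561600000], [], [nat_lit 21306524707, nat_lit 23047162725, nat_lit 28549109337, nat_lit 29837242276, nat_lit 20747619248, nat_lit 21893187013, nat_lit 28990536232, nat_lit 27777845716], nat_lit 1271250, nat_lit 1271250, nat_lit 181601, nat_lit 2478700, nat_lit 0, nat_lit 1100001, [nat_lit 490000, nat_lit 1427500], [nat_lit 69, nat_lit 40, nat_lit 40, nat_lit 80, nat_lit 64, nat_lit 373, nat_lit 150, nat_lit 15]⟩, C1.Rw.none,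
 ⟨nat_lit 3162, nat_lit 3873, ⟨.ofNat (nat_lit 185344), .ofNat (nat_lit 688690), .ofNat (nat_lit 228873), .ofNat (nat_lit 732276), .ofNat (nat_lit 199607), .ofNat (nat_lit 675121), .ofNat (nat_lit 243860), .ofNat (nat_lit 719431)⟩, ⟨.ofNat (nat_lit 0), .ofNat (nat_lit 261131), .ofNat (nat_lit 0), .ofNat (nat_lit 304717), .ofNat (nat_lit 0), .ofNat (nat_lit 261806), .ofNat (nat_lit 0), .ofNat (nat_lit 306116)⟩⟩, [⟨nat_lit 13, nat_lit 71, nat_lit 70, nat_lit 100, nat_lit 215792945⟩]⟩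
noncomputable def p075_l64 : Lf2 := ⟨nat_lit 0, nat_lit 10, [nat_lit 0, nat_lit 5, nat_lit 5, nat_lit 20], false, nat_lit 160, nat_lit 260, nat_lit 0, nat_lit 384, ⟨nat_lit 0, nat_lit 1000, nat_lit 0, nat_lit 4, nat_lit 183, nat_lit 1000, nat_lit 145, nat_lit 0, nat_lit 0, nat_lit 0, nat_lit 0, nat_lit 0, nat_lit 0, nat_lit 0, nat_lit 0, nat_lit 5000000, false, true⟩,
 nat_lit 0, nat_lit 6805, nat_lit 0, nat_lit 0, nat_lit 5103, nat_lit 0, nat_lit 0, nat_lit 0, nat_lit 0, nat_lit 0, nat_lit 0, nat_lit 0, nat_lit 0, nat_lit 0, nat_lit 0, nat_lit 400000, nat_lit 0, nat_lit 0, [(nat_lit 18, [(nat_lit 1, nat_lit 1000)]), (nat_lit 21, [(nat_lit 1, nat_lit 1000)])],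
 ⟨p075_k0, nat_lit 0, nat_lit 0, nat_lit 333, nat_lit 0, nat_lit 603386, [nat_lit 1543200001, nat_lit 2060799999], [], [nat_lit 23857843385, nat_lit 23383863947, nat_lit 27237098732, nat_lit 29766116068, nat_lit 23528538071, nat_lit 27289120274, nat_lit 32991327461, nat_lit 31508094397], nat_lit 1271250, nat_lit 1271250, nat_lit 88400, nat_lit 2569500, nat_lit 1100001, nat_lit 1956250, [nat_lit 490000, nat_lit 1427500], [nat_lit 69, nat_lit 40, nat_lit 40, nat_lit 80, nat_lit 64, nat_lit 401, nat_lit 175, nat_lit 15]⟩, ⟨p075_k1, nat_lit 0, nat_lit 0, nat_lit 1266, nat_lit 0, nat_lit 1694616, [nat_lit 0, nat_lit 0], [], [nat_lit 0, nat_lit 0, nat_lit 0, nat_lit 0, nat_lit 0, nat_lit 0, nat_lit 0, nat_lit 0], nat_lit 1100001, nat_lit 1442500, nat_lit 88400, nat_lit 2569500, nat_lit 0, nat_lit 2712000, [nat_lit 1695000, nat_lit 1271250], [nat_lit 121, nat_lit 40, nat_lit 40, nat_lit 80, nat_lit 28, nat_lit 483,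 nat_lit 250, nat_lit 12]⟩,
 ⟨nat_lit 3162, nat_lit 4473, ⟨.ofNat (nat_lit 143971), .ofNat (nat_lit 728778), .ofNat (nat_lit 186943), .ofNat (nat_lit 771911), .ofNat (nat_lit 175109), .ofNat (nat_lit 699502), .ofNat (nat_lit 219258), .ofNat (nat_lit 743812)⟩, ⟨.ofNat (nat_lit 259488), .ofNat (nat_lit 429433), .ofNat (nat_lit 302621), .ofNat (nat_lit 472567), .ofNat (nat_lit 261805), .ofNat (nat_lit 414188), .ofNat (nat_lit 306116), .ofNat (nat_lit 458499)⟩⟩, [⟨nat_lit 13, nat_lit 80, nat_lit 60, nat_lit 100, nat_lit 162098941⟩, ⟨nat_lit 16, nat_lit 83, nat_lit 100, nat_lit 83, nat_lit 401259731⟩]⟩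
noncomputable def b_V_800_400_10_5 : St := ⟨true, nat_lit 1, nat_lit 2, nat_lit 2, nat_lit 80, nat_lit 320, nat_lit 360, nat_lit 160, nat_lit 200, nat_lit 16, nat_lit 360, nat_lit 40, nat_lit 80, nat_lit 0, nat_lit 260, nat_lit 0, nat_lit 384, nat_lit 0, nat_lit 40, nat_lit 0, nat_lit 0, nat_lit 0, nat_lit 0⟩
theorem d_V_800_400_10_5 (h : EB TB.env) : Dead b_V_800_400_10_5 := chkB_sound0 h (T :=
(.st (nat_lit 1)
(.spl (nat_lit 4) (nat_lit 160)
(.spl (nat_lit 0) (nat_lit 340)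
(.leaf p075_l59)
(.trZ (nat_lit 0) (nat_lit 100) (nat_lit 73) (nat_lit 55) (nat_lit 32) (.trX (nat_lit 13) (nat_lit 71) (nat_lit 70) (nat_lit 100) (nat_lit 344) (.leaf p075_l60))))
(.leaf p075_l61))
(.spl (nat_lit 4) (nat_lit 160)
(.spl (nat_lit 0) (nat_lit 340)
(.leaf p075_l62)
(.trZ (nat_lit 0) (nat_lit 100) (nat_lit 73) (nat_lit 55) (nat_lit 32) (.trX (nat_lit 13) (nat_lit 71) (nat_lit 70) (nat_lit 100) (nat_lit 344) (.leaf p075_l63))))
(.leaf p075_l64)))) (by decide +kernel)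
noncomputable def p075_l65 : Lf2 := ⟨nat_lit 0, nat_lit 20, [nat_lit 5, nat_lit 5, nat_lit 5, nat_lit 20], true, nat_lit 0, nat_lit 260, nat_lit 0, nat_lit 384, ⟨nat_lit 0, nat_lit 0, nat_lit 1000, nat_lit 4, nat_lit 119, nat_lit 1000, nat_lit 89, nat_lit 1000, nat_lit 72600, nat_lit 281, nat_lit 132017, nat_lit 304, nat_lit 61553016, nat_lit 0, nat_lit 0, nat_lit 1409640, false, false⟩,
 nat_lit 0, nat_lit 0, nat_lit 0, nat_lit 3353, nat_lit 3268, nat_lit 0, nat_lit 0, nat_lit 0, nat_lit 0, nat_lit 0, nat_lit 0, nat_lit 0, nat_lit 0, nat_lit 0, nat_lit 81, nat_lit 250000, nat_lit 0, nat_lit 0, [(nat_lit 19, [(nat_lit 4, nat_lit 1000)]), (nat_lit 22, [(nat_lit 4, nat_lit 1000)])],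
 ⟨p075_k13, nat_lit 0, nat_lit 0, nat_lit 307, nat_lit 0, nat_lit 0, [nat_lit 2166400000, nat_lit 172800000], [], [nat_lit 20376001252, nat_lit 23034288612, nat_lit 20155700976, nat_lit 22060337536, nat_lit 22331543351, nat_lit 24137405781, nat_lit 22331787988, nat_lit 24118153548], nat_lit 0, nat_lit 0, nat_lit 0, nat_lit 0, nat_lit 0, nat_lit 0, [], [nat_lit 94, nat_lit 40, nat_lit 40, nat_lit 80, nat_lit 95, nat_lit 345, nat_lit 125, nat_lit 10]⟩, C1.Rw.none,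
 ⟨nat_lit 3162, nat_lit 4473, ⟨.ofNat (nat_lit 143971), .ofNat (nat_lit 388887), .ofNat (nat_lit 186943), .ofNat (nat_lit 431944), .ofNat (nat_lit 175109), .ofNat (nat_lit 394735), .ofNat (nat_lit 219258), .ofNat (nat_lit 438969)⟩, ⟨.negSucc (nat_lit 12437), .ofNat (nat_lit 429433), .ofNat (nat_lit 0), .ofNat (nat_lit 472567), .ofNat (nat_lit 0), .ofNat (nat_lit 414188), .ofNat (nat_lit 0), .ofNat (nat_lit 458499)⟩⟩, [⟨nat_lit 0, nat_lit 100, nat_lit 60, nat_lit 80, nat_lit 109909614⟩]⟩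
noncomputable def p075_l66 : Lf2 := ⟨nat_lit 0, nat_lit 20, [nat_lit 5, nat_lit 5, nat_lit 5, nat_lit 20], false, nat_lit 0, nat_lit 160, nat_lit 0, nat_lit 160, ⟨nat_lit 504, nat_lit 0, nat_lit 496, nat_lit 4, nat_lit 230, nat_lit 496, nat_lit 57, nat_lit 496, nat_lit 29400, nat_lit 257, nat_lit 272572, nat_lit 200, nat_lit 50360231, nat_lit 0, nat_lit 0, nat_lit 2802601, false, true⟩,
 nat_lit 0, nat_lit 0, nat_lit 0, nat_lit 4102, nat_lit 3992, nat_lit 4009, nat_lit 221, nat_lit 0, nat_lit 0, nat_lit 478, nat_lit 0, nat_lit 0, nat_lit 0, nat_lit 0, nat_lit 0, nat_lit 198400, nat_lit 0, nat_lit 0, [(nat_lit 19, [(nat_lit 5, nat_lit 496)]), (nat_lit 22, [(nat_lit 5, nat_lit 496)])],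
 ⟨p075_k14, nat_lit 0, nat_lit 0, nat_lit 205, nat_lit 0, nat_lit 0, [nat_lit 1508224000, nat_lit 2139485867, nat_lit 3301744000], [], [nat_lit 23027831244, nat_lit 25422112684, nat_lit 30094330625, nat_lit 31910003424, nat_lit 22011964940, nat_lit 23935429772, nat_lit 27658261932, nat_lit 29145737057], nat_lit 0, nat_lit 0, nat_lit 0, nat_lit 0, nat_lit 0, nat_lit 0, [], [nat_lit 27, nat_lit 40, nat_lit 40, nat_lit 80, nat_lit 13, nat_lit 373, nat_lit 150, nat_lit 10]⟩, ⟨p075_k15, nat_lit 0, nat_lit 0, nat_lit 433, nat_lit 0, nat_lit 0, [nat_lit 4015872000, nat_lit 5983488000, nat_lit 8265600000], [], [nat_lit 18824914656, nat_lit 18998031808, nat_lit 21969112260, nat_lit 22013525164, nat_lit 15775704932, nat_lit 15911947468, nat_lit 18783847712, nat_lit 18804845468], nat_lit 0, nat_lit 0, nat_lit 0, nat_lit 0, nat_lit 0, nat_lit 0, [], [nat_lit 97, nat_lit 40, nat_lit 40, nat_lit 80, nat_lit 76, nat_lit 428,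 nat_lit 200, nat_lit 9]⟩,
 ⟨nat_lit 3162, nat_lit 4473, ⟨.ofNat (nat_lit 388887), .ofNat (nat_lit 728778), .ofNat (nat_lit 431944), .ofNat (nat_lit 771911), .ofNat (nat_lit 394735), .ofNat (nat_lit 699502), .ofNat (nat_lit 438969), .ofNat (nat_lit 743812)⟩, ⟨.negSucc (nat_lit 12437), .ofNat (nat_lit 259488), .ofNat (nat_lit 0), .ofNat (nat_lit 302621), .ofNat (nat_lit 0), .ofNat (nat_lit 261805), .ofNat (nat_lit 0), .ofNat (nat_lit 306116)⟩⟩, []⟩
noncomputable def p075_l67 : Lf2 := ⟨nat_lit 0, nat_lit 20, [nat_lit 5, nat_lit 5, nat_lit 5, nat_lit 20], true, nat_lit 0, nat_lit 160, nat_lit 160, nat_lit 384, ⟨nat_lit 0, nat_lit 0, nat_lit 1000, nat_lit 4, nat_lit 191, nat_lit 491, nat_lit 57, nat_lit 1000, nat_lit 29400, nat_lit 257, nat_lit 1350, nat_lit 224, nat_lit 54533725, nat_lit 0, nat_lit 0, nat_lit 2402322, false, true⟩,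
 nat_lit 0, nat_lit 0, nat_lit 0, nat_lit 5164, nat_lit 3209, nat_lit 0, nat_lit 0, nat_lit 0, nat_lit 0, nat_lit 0, nat_lit 0, nat_lit 0, nat_lit 0, nat_lit 0, nat_lit 81, nat_lit 250000, nat_lit 0, nat_lit 0, [(nat_lit 19, [(nat_lit 4, nat_lit 1000)]), (nat_lit 22, [(nat_lit 4, nat_lit 1000)])],
 ⟨p075_k13, nat_lit 0, nat_lit 0, nat_lit 174, nat_lit 0, nat_lit 0, [nat_lit 2166400000, nat_lit 172800000], [], [nat_lit 19420202556, nat_lit 21683007520, nat_lit 21509518772, nat_lit 23496436492, nat_lit 19348197680, nat_lit 21286040344, nat_lit 21180325936, nat_lit 22892083288], nat_lit 0, nat_lit 0, nat_lit 0, nat_lit 0, nat_lit 0, nat_lit 0, [], [nat_lit 94, nat_lit 40, nat_lit 40, nat_lit 80, nat_lit 95, nat_lit 317, nat_lit 100, nat_lit 9]⟩, C1.Rw.none,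
 ⟨nat_lit 3162, nat_lit 4473, ⟨.ofNat (nat_lit 388887), .ofNat (nat_lit 524844), .ofNat (nat_lit 431944), .ofNat (nat_lit 567977), .ofNat (nat_lit 394735), .ofNat (nat_lit 516642), .ofNat (nat_lit 438969), .ofNat (nat_lit 560952)⟩, ⟨.negSucc (nat_lit 12437), .ofNat (nat_lit 259488), .ofNat (nat_lit 0), .ofNat (nat_lit 302621), .ofNat (nat_lit 0), .ofNat (nat_lit 261805), .ofNat (nat_lit 0), .ofNat (nat_lit 306116)⟩⟩, []⟩
noncomputable def p075_l68 : Lf2 := ⟨nat_lit 0, nat_lit 20, [nat_lit 5, nat_lit 5, nat_lit 5, nat_lit 20], false, nat_lit 0, nat_lit 160, nat_lit 160, nat_lit 384, ⟨nat_lit 264, nat_lit 0, nat_lit 736, nat_lit 6, nat_lit 243, nat_lit 736, nat_lit 57, nat_lit 736, nat_lit 29400, nat_lit 257, nat_lit 136616, nat_lit 200, nat_lit 48957520, nat_lit 0, nat_lit 0, nat_lit 2912759, false, true⟩,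
 nat_lit 0, nat_lit 0, nat_lit 0, nat_lit 3414, nat_lit 4031, nat_lit 3472, nat_lit 126, nat_lit 0, nat_lit 0, nat_lit 236, nat_lit 0, nat_lit 0, nat_lit 0, nat_lit 0, nat_lit 0, nat_lit 183580, nat_lit 0, nat_lit 0, [(nat_lit 19, [(nat_lit 3, nat_lit 7), (nat_lit 4, nat_lit 729)]), (nat_lit 22, [(nat_lit 3, nat_lit 7), (nat_lit 4, nat_lit 729)])],
 ⟨p075_k14, nat_lit 0, nat_lit 0, nat_lit 196, nat_lit 0, nat_lit 0, [nat_lit 1748462401, nat_lit 1089794400, nat_lit 1059718000], [], [nat_lit 23400388918, nat_lit 25838368890, nat_lit 26808558326, nat_lit 29430913900, nat_lit 21765095576, nat_lit 23634288944, nat_lit 24493746490, nat_lit 26254228962], nat_lit 0, nat_lit 0, nat_lit 0, nat_lit 0, nat_lit 0, nat_lit 0, [], [nat_lit 27, nat_lit 40, nat_lit 40, nat_lit 80, nat_lit 13, nat_lit 345, nat_lit 125, nat_lit 9]⟩, ⟨p075_k15, nat_lit 0, nat_lit 0, nat_lit 204, nat_lit 0, nat_lit 0, [nat_lit 2103552000, nat_lit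 3134208000, nat_lit 4329600000], [], [nat_lit 7574427096, nat_lit 7569305656, nat_lit 8797592280, nat_lit 8671563640, nat_lit 9963128140, nat_lit 9682655372, nat_lit 10358966866, nat_lit 10011766565], nat_lit 0, nat_lit 0, nat_lit 0, nat_lit 0, nat_lit 0, nat_lit 0, [], [nat_lit 97, nat_lit 40, nat_lit 40, nat_lit 80, nat_lit 76, nat_lit 483, nat_lit 250, nat_lit 10]⟩,
 ⟨nat_lit 3162, nat_lit 4473, ⟨.ofNat (nat_lit 524844), .ofNat (nat_lit 660800), .ofNat (nat_lit 567977), .ofNat (nat_lit 703933), .ofNat (nat_lit 516642), .ofNat (nat_lit 638549), .ofNat (nat_lit 560952), .ofNat (nat_lit 682859)⟩, ⟨.negSucc (nat_lit 12437), .ofNat (nat_lit 259488), .ofNat (nat_lit 0), .ofNat (nat_lit 302621), .ofNat (nat_lit 0), .ofNat (nat_lit 261805), .ofNat (nat_lit 0), .ofNat (nat_lit 306116)⟩⟩, [⟨nat_lit 13, nat_lit 61, nat_lit 92, nat_lit 100, nat_lit 3247586⟩, ⟨nat_lit 22, nat_lit 100, nat_lit 95, nat_lit 87, nat_lit 107043641⟩]⟩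
noncomputable def p075_l69 : Lf2 := ⟨nat_lit 0, nat_lit 20, [nat_lit 5, nat_lit 5, nat_lit 5, nat_lit 20], false, nat_lit 16, nat_lit 160, nat_lit 160, nat_lit 336, ⟨nat_lit 1000, nat_lit 0, nat_lit 0, nat_lit 0, nat_lit 0, nat_lit 0, nat_lit 0, nat_lit 0, nat_lit 0, nat_lit 0, nat_lit 0, nat_lit 0, nat_lit 0, nat_lit 0, nat_lit 0, nat_lit 0, false, false⟩,
 nat_lit 0, nat_lit 0, nat_lit 0, nat_lit 6390, nat_lit 10925, nat_lit 15624, nat_lit 103, nat_lit 0, nat_lit 0, nat_lit 1105, nat_lit 0, nat_lit 0, nat_lit 0, nat_lit 0, nat_lit 0, nat_lit 0, nat_lit 0, nat_lit 0, [],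
 ⟨p075_k14, nat_lit 0, nat_lit 0, nat_lit 195, nat_lit 0, nat_lit 0, [nat_lit 2032000001, nat_lit 4688000000, nat_lit 9842000000], [], [nat_lit 38844393216, nat_lit 43856710580, nat_lit 43856710580, nat_lit 48472411100, nat_lit 29717979375, nat_lit 32616743975, nat_lit 32616743975, nat_lit 36590408300], nat_lit 0, nat_lit 0, nat_lit 0, nat_lit 0, nat_lit 0, nat_lit 0, [], [nat_lit 27, nat_lit 40, nat_lit 40, nat_lit 80, nat_lit 13, nat_lit 249, nat_lit 40, nat_lit 6]⟩, ⟨p075_k15, nat_lit 0, nat_lit 0, nat_lit 213, nat_lit 0, nat_lit 0, [nat_lit 7968000000, nat_lit 11872000000, nat_lit 16400000000], [], [nat_lit 31100044714, nat_lit 30374604042, nat_lit 34688864522, nat_lit 33660294826, nat_lit 34179093012, nat_lit 33452872736, nat_lit 39132681773, nat_lit 38663244890], nat_lit 0, nat_lit 0, nat_lit 0, nat_lit 0, nat_lit 0, nat_lit 0, [], [nat_lit 97, nat_lit 40, nat_lit 40, nat_lit 80, nat_lit 76, nat_lit 456,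 nat_lit 225, nat_lit 9]⟩,
 zbF0, [⟨nat_lit 13, nat_lit 72, nat_lit 77, nat_lit 100, nat_lit 690031296⟩, ⟨nat_lit 22, nat_lit 82, nat_lit 76, nat_lit 100, nat_lit 385162589⟩]⟩
noncomputable def p075_l70 : Lf2 := ⟨nat_lit 0, nat_lit 20, [nat_lit 5, nat_lit 5, nat_lit 5, nat_lit 20], true, nat_lit 160, nat_lit 260, nat_lit 0, nat_lit 384, ⟨nat_lit 0, nat_lit 1000, nat_lit 0, nat_lit 4, nat_lit 230, nat_lit 1000, nat_lit 145, nat_lit 0, nat_lit 0, nat_lit 0, nat_lit 0, nat_lit 0, nat_lit 43781122, nat_lit 15645805, nat_lit 7573073, nat_lit 4631572, false, true⟩,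
 nat_lit 0, nat_lit 0, nat_lit 0, nat_lit 4919, nat_lit 3840, nat_lit 0, nat_lit 0, nat_lit 0, nat_lit 0, nat_lit 0, nat_lit 0, nat_lit 0, nat_lit 0, nat_lit 0, nat_lit 0, nat_lit 250000, nat_lit 0, nat_lit 0, [(nat_lit 19, [(nat_lit 0, nat_lit 1000)]), (nat_lit 22, [(nat_lit 0, nat_lit 1000)])],
 ⟨p075_k14, nat_lit 0, nat_lit 0, nat_lit 73, nat_lit 0, nat_lit 0, [nat_lit 1568000001, nat_lit 2368400000, nat_lit 3220880000], [], [nat_lit 18119097441, nat_lit 20896440961, nat_lit 26375888640, nat_lit 28300252000, nat_lit 21519117681, nat_lit 23922675720, nat_lit 28404665760, nat_lit 30176262160], nat_lit 0, nat_lit 0, nat_lit 0, nat_lit 0, nat_lit 0, nat_lit 0, [], [nat_lit 27, nat_lit 40, nat_lit 40, nat_lit 80, nat_lit 13, nat_lit 401, nat_lit 175, nat_lit 11]⟩, C1.Rw.none,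
 ⟨nat_lit 3162, nat_lit 4473, ⟨.ofNat (nat_lit 388887), .ofNat (nat_lit 728778), .ofNat (nat_lit 431944), .ofNat (nat_lit 771911), .ofNat (nat_lit 394735), .ofNat (nat_lit 699502), .ofNat (nat_lit 438969), .ofNat (nat_lit 743812)⟩, ⟨.ofNat (nat_lit 259488), .ofNat (nat_lit 429433), .ofNat (nat_lit 302621), .ofNat (nat_lit 472567), .ofNat (nat_lit 261805), .ofNat (nat_lit 414188), .ofNat (nat_lit 306116), .ofNat (nat_lit 458499)⟩⟩, [⟨nat_lit 13, nat_lit 72, nat_lit 77, nat_lit 100, nat_lit 170029656⟩, ⟨nat_lit 4, nat_lit 100, nat_lit 71, nat_lit 71, nat_lit 205868801⟩]⟩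
noncomputable def p075_l71 : Lf2 := ⟨nat_lit 0, nat_lit 20, [nat_lit 5, nat_lit 5, nat_lit 5, nat_lit 20], true, nat_lit 0, nat_lit 260, nat_lit 0, nat_lit 384, ⟨nat_lit 0, nat_lit 0, nat_lit 1000, nat_lit 4, nat_lit 119, nat_lit 1000, nat_lit 89, nat_lit 1000, nat_lit 72600, nat_lit 281, nat_lit 132017, nat_lit 304, nat_lit 61553016, nat_lit 0, nat_lit 0, nat_lit 1409640, false, false⟩,
 nat_lit 0, nat_lit 0, nat_lit 0, nat_lit 3353, nat_lit 3268, nat_lit 0, nat_lit 0, nat_lit 0, nat_lit 0, nat_lit 0, nat_lit 0, nat_lit 0, nat_lit 0, nat_lit 0, nat_lit 81, nat_lit 250000, nat_lit 0, nat_lit 0, [(nat_lit 19, [(nat_lit 4, nat_lit 1000)]), (nat_lit 22, [(nat_lit 4, nat_lit 1000)])],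
 ⟨p075_k13, nat_lit 0, nat_lit 0, nat_lit 307, nat_lit 0, nat_lit 0, [nat_lit 2166400000, nat_lit 172800000], [], [nat_lit 20376001252, nat_lit 23034288612, nat_lit 20155700976, nat_lit 22060337536, nat_lit 22331543351, nat_lit 24137405781, nat_lit 22331787988, nat_lit 24118153548], nat_lit 0, nat_lit 0, nat_lit 0, nat_lit 0, nat_lit 0, nat_lit 0, [], [nat_lit 94, nat_lit 40, nat_lit 40, nat_lit 80, nat_lit 95, nat_lit 345, nat_lit 125, nat_lit 10]⟩, C1.Rw.none,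
 ⟨nat_lit 3162, nat_lit 4473, ⟨.ofNat (nat_lit 143971), .ofNat (nat_lit 388887), .ofNat (nat_lit 186943), .ofNat (nat_lit 431944), .ofNat (nat_lit 175109), .ofNat (nat_lit 394735), .ofNat (nat_lit 219258), .ofNat (nat_lit 438969)⟩, ⟨.negSucc (nat_lit 12437), .ofNat (nat_lit 429433), .ofNat (nat_lit 0), .ofNat (nat_lit 472567), .ofNat (nat_lit 0), .ofNat (nat_lit 414188), .ofNat (nat_lit 0), .ofNat (nat_lit 458499)⟩⟩, [⟨nat_lit 0, nat_lit 100, nat_lit 60, nat_lit 80, nat_lit 109909614⟩]⟩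
noncomputable def p075_l72 : Lf2 := ⟨nat_lit 0, nat_lit 20, [nat_lit 5, nat_lit 5, nat_lit 5, nat_lit 20], true, nat_lit 0, nat_lit 160, nat_lit 0, nat_lit 384, ⟨nat_lit 0, nat_lit 0, nat_lit 1000, nat_lit 4, nat_lit 191, nat_lit 491, nat_lit 57, nat_lit 1000, nat_lit 29400, nat_lit 257, nat_lit 1350, nat_lit 224, nat_lit 54533725, nat_lit 0, nat_lit 0, nat_lit 2402322, false, true⟩,
 nat_lit 0, nat_lit 0, nat_lit 0, nat_lit 5164, nat_lit 3209, nat_lit 0, nat_lit 0, nat_lit 0, nat_lit 0, nat_lit 0, nat_lit 0, nat_lit 0, nat_lit 0, nat_lit 0, nat_lit 81, nat_lit 250000, nat_lit 0, nat_lit 0, [(nat_lit 19, [(nat_lit 4, nat_lit 1000)]), (nat_lit 22, [(nat_lit 4, nat_lit 1000)])],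
 ⟨p075_k13, nat_lit 0, nat_lit 0, nat_lit 174, nat_lit 0, nat_lit 0, [nat_lit 2166400000, nat_lit 172800000], [], [nat_lit 19420202556, nat_lit 21683007520, nat_lit 21509518772, nat_lit 23496436492, nat_lit 19348197680, nat_lit 21286040344, nat_lit 21180325936, nat_lit 22892083288], nat_lit 0, nat_lit 0, nat_lit 0, nat_lit 0, nat_lit 0, nat_lit 0, [], [nat_lit 94, nat_lit 40, nat_lit 40, nat_lit 80, nat_lit 95, nat_lit 317, nat_lit 100, nat_lit 9]⟩, C1.Rw.none,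
 ⟨nat_lit 3162, nat_lit 4473, ⟨.ofNat (nat_lit 388887), .ofNat (nat_lit 524844), .ofNat (nat_lit 431944), .ofNat (nat_lit 567977), .ofNat (nat_lit 394735), .ofNat (nat_lit 516642), .ofNat (nat_lit 438969), .ofNat (nat_lit 560952)⟩, ⟨.negSucc (nat_lit 12437), .ofNat (nat_lit 259488), .ofNat (nat_lit 0), .ofNat (nat_lit 302621), .ofNat (nat_lit 0), .ofNat (nat_lit 261805), .ofNat (nat_lit 0), .ofNat (nat_lit 306116)⟩⟩, []⟩
noncomputable def p075_l73 : Lf2 := ⟨nat_lit 0, nat_lit 15, [nat_lit 30, nat_lit 5, nat_lit 5, nat_lit 20], true, nat_lit 0, nat_lit 160, nat_lit 0, nat_lit 368, ⟨nat_lit 0, nat_lit 436, nat_lit 564, nat_lit 6, nat_lit 244, nat_lit 1000, nat_lit 54, nat_lit 564, nat_lit 26667, nat_lit 255, nat_lit 136616, nat_lit 200, nat_lit 48794725, nat_lit 18205275, nat_lit 0, nat_lit 2924812, false, true⟩,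
 nat_lit 0, nat_lit 0, nat_lit 0, nat_lit 3509, nat_lit 2810, nat_lit 0, nat_lit 0, nat_lit 0, nat_lit 0, nat_lit 0, nat_lit 0, nat_lit 0, nat_lit 0, nat_lit 0, nat_lit 14, nat_lit 334600, nat_lit 0, nat_lit 0, [(nat_lit 19, [(nat_lit 0, nat_lit 436), (nat_lit 5, nat_lit 564)])],
 ⟨p075_k16, nat_lit 0, nat_lit 0, nat_lit 175, nat_lit 0, nat_lit 0, [nat_lit 1396652001, nat_lit 674509201, nat_lit 4075200], [], [nat_lit 21390381481, nat_lit 22466598761, nat_lit 24588749881, nat_lit 25502470523, nat_lit 21703952563, nat_lit 22640044883, nat_lit 24543058803, nat_lit 25347331683], nat_lit 0, nat_lit 0, nat_lit 0, nat_lit 0, nat_lit 0, nat_lit 0, [], [nat_lit 102, nat_lit 40, nat_lit 40, nat_lit 80, nat_lit 2, nat_lit 249, nat_lit 40, nat_lit 7]⟩, C1.Rw.none,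
 ⟨nat_lit 3872, nat_lit 4473, ⟨.ofNat (nat_lit 524844), .ofNat (nat_lit 660800), .ofNat (nat_lit 567977), .ofNat (nat_lit 703933), .ofNat (nat_lit 520934), .ofNat (nat_lit 649977), .ofNat (nat_lit 564520), .ofNat (nat_lit 693563)⟩, ⟨.negSucc (nat_lit 12427), .ofNat (nat_lit 259489), .ofNat (nat_lit 0), .ofNat (nat_lit 281055), .ofNat (nat_lit 0), .ofNat (nat_lit 261131), .ofNat (nat_lit 0), .ofNat (nat_lit 282924)⟩⟩, []⟩
noncomputable def p075_l74 : Lf2 := ⟨nat_lit 0, nat_lit 15, [nat_lit 30, nat_lit 5, nat_lit 5, nat_lit 20], true, nat_lit 0, nat_lit 160, nat_lit 0, nat_lit 384, ⟨nat_lit 0, nat_lit 582, nat_lit 418, nat_lit 6, nat_lit 244, nat_lit 1000, nat_lit 59, nat_lit 418, nat_lit 32267, nat_lit 259, nat_lit 136616, nat_lit 200, nat_lit 48794725, nat_lit 18205275, nat_lit 0, nat_lit 2924812, false, true⟩,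
 nat_lit 0, nat_lit 0, nat_lit 0, nat_lit 6253, nat_lit 3006, nat_lit 0, nat_lit 0, nat_lit 0, nat_lit 0, nat_lit 0, nat_lit 0, nat_lit 0, nat_lit 0, nat_lit 0, nat_lit 12, nat_lit 427600, nat_lit 0, nat_lit 0, [(nat_lit 19, [(nat_lit 1, nat_lit 582), (nat_lit 5, nat_lit 372), (nat_lit 6, nat_lit 46)])],
 ⟨p075_k16, nat_lit 0, nat_lit 0, nat_lit 175, nat_lit 0, nat_lit 0, [nat_lit 1485827600, nat_lit 809960800, nat_lit 22648800], [], [nat_lit 21450251528, nat_lit 22556199656, nat_lit 24758169888, nat_lit 25708261432, nat_lit 21641279136, nat_lit 22601611168, nat_lit 24531404960, nat_lit 25353758448], nat_lit 0, nat_lit 0, nat_lit 0, nat_lit 0, nat_lit 0, nat_lit 0, [], [nat_lit 102, nat_lit 40, nat_lit 40, nat_lit 80, nat_lit 2, nat_lit 249, nat_lit 40, nat_lit 7]⟩, C1.Rw.none,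
 ⟨nat_lit 3872, nat_lit 4473, ⟨.ofNat (nat_lit 524844), .ofNat (nat_lit 660800), .ofNat (nat_lit 567977), .ofNat (nat_lit 703933), .ofNat (nat_lit 520934), .ofNat (nat_lit 649977), .ofNat (nat_lit 564520), .ofNat (nat_lit 693563)⟩, ⟨.ofNat (nat_lit 0), .ofNat (nat_lit 281055), .ofNat (nat_lit 0), .ofNat (nat_lit 302621), .ofNat (nat_lit 0), .ofNat (nat_lit 282924), .ofNat (nat_lit 0), .ofNat (nat_lit 304717)⟩⟩, []⟩
noncomputable def p075_l75 : Lf2 := ⟨nat_lit 1, nat_lit 20, [nat_lit 5, nat_lit 5, nat_lit 5, nat_lit 20], false, nat_lit 0, nat_lit 160, nat_lit 0, nat_lit 384, zbN0,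
 nat_lit 0, nat_lit 0, nat_lit 0, nat_lit 0, nat_lit 0, nat_lit 0, nat_lit 0, nat_lit 0, nat_lit 0, nat_lit 0, nat_lit 0, nat_lit 0, nat_lit 0, nat_lit 0, nat_lit 0, nat_lit 0, nat_lit 0, nat_lit 0, [],
 C1.Rw.none, C1.Rw.none,
 zbF0, []⟩
noncomputable def p075_l76 : Lf2 := ⟨nat_lit 0, nat_lit 20, [nat_lit 5, nat_lit 5, nat_lit 5, nat_lit 20], true, nat_lit 0, nat_lit 160, nat_lit 0, nat_lit 384, ⟨nat_lit 0, nat_lit 471, nat_lit 529, nat_lit 6, nat_lit 237, nat_lit 1000, nat_lit 57, nat_lit 529, nat_lit 30817, nat_lit 258, nat_lit 72290, nat_lit 200, nat_lit 49590286, nat_lit 17409714, nat_lit 0, nat_lit 2864480, false, true⟩,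
 nat_lit 0, nat_lit 0, nat_lit 0, nat_lit 4521, nat_lit 2640, nat_lit 0, nat_lit 0, nat_lit 0, nat_lit 0, nat_lit 0, nat_lit 0, nat_lit 0, nat_lit 0, nat_lit 0, nat_lit 26, nat_lit 329350, nat_lit 0, nat_lit 0, [(nat_lit 22, [(nat_lit 0, nat_lit 471), (nat_lit 5, nat_lit 529)])],
 ⟨p075_k17, nat_lit 0, nat_lit 0, nat_lit 183, nat_lit 0, nat_lit 0, [nat_lit 1462832000, nat_lit 515053401, nat_lit 7720400], [], [nat_lit 22223675040, nat_lit 23274105360, nat_lit 25211632160, nat_lit 26106438841, nat_lit 22548909321, nat_lit 23463977401, nat_lit 25217286521, nat_lit 26005877241], nat_lit 0, nat_lit 0, nat_lit 0, nat_lit 0, nat_lit 0, nat_lit 0, [], [nat_lit 102, nat_lit 40, nat_lit 40, nat_lit 80, nat_lit 2, nat_lit 249, nat_lit 40, nat_lit 7]⟩, C1.Rw.none,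
 ⟨nat_lit 3162, nat_lit 3873, ⟨.ofNat (nat_lit 520934), .ofNat (nat_lit 649977), .ofNat (nat_lit 542727), .ofNat (nat_lit 671770), .ofNat (nat_lit 516642), .ofNat (nat_lit 638549), .ofNat (nat_lit 538797), .ofNat (nat_lit 660704)⟩, ⟨.ofNat (nat_lit 0), .ofNat (nat_lit 261131), .ofNat (nat_lit 0), .ofNat (nat_lit 304717), .ofNat (nat_lit 0), .ofNat (nat_lit 261806), .ofNat (nat_lit 0), .ofNat (nat_lit 306116)⟩⟩, [⟨nat_lit 13, nat_lit 67, nat_lit 85, nat_lit 100, nat_lit 138522143⟩, ⟨nat_lit 13, nat_lit 61, nat_lit 92, nat_lit 100, nat_lit 130264290⟩]⟩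
noncomputable def p075_l77 : Lf2 := ⟨nat_lit 0, nat_lit 20, [nat_lit 5, nat_lit 5, nat_lit 5, nat_lit 20], true, nat_lit 0, nat_lit 160, nat_lit 0, nat_lit 372, ⟨nat_lit 0, nat_lit 291, nat_lit 709, nat_lit 6, nat_lit 233, nat_lit 831, nat_lit 57, nat_lit 709, nat_lit 30817, nat_lit 258, nat_lit 5706, nat_lit 203, nat_lit 49999024, nat_lit 17000976, nat_lit 0, nat_lit 2832064, true, true⟩,
 nat_lit 0, nat_lit 0, nat_lit 0, nat_lit 5164, nat_lit 3025, nat_lit 0, nat_lit 0, nat_lit 0, nat_lit 0, nat_lit 0, nat_lit 0, nat_lit 0, nat_lit 0, nat_lit 0, nat_lit 34, nat_lit 250000, nat_lit 0, nat_lit 0, [(nat_lit 22, [(nat_lit 0, nat_lit 291), (nat_lit 4, nat_lit 709)])],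
 ⟨p075_k18, nat_lit 0, nat_lit 0, nat_lit 152, nat_lit 0, nat_lit 0, [nat_lit 1785548800, nat_lit 3252000], [], [nat_lit 22575487850, nat_lit 23624336000, nat_lit 23971420800, nat_lit 24948872200, nat_lit 22471519450, nat_lit 23372936800, nat_lit 23687687300, nat_lit 24534704200], nat_lit 0, nat_lit 0, nat_lit 0, nat_lit 0, nat_lit 0, nat_lit 0, [], [nat_lit 110, nat_lit 40, nat_lit 40, nat_lit 80, nat_lit 109, nat_lit 249, nat_lit 40, nat_lit 7]⟩, C1.Rw.none,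
 ⟨nat_lit 3162, nat_lit 3873, ⟨.ofNat (nat_lit 542727), .ofNat (nat_lit 607248), .ofNat (nat_lit 564520), .ofNat (nat_lit 629042), .ofNat (nat_lit 538797), .ofNat (nat_lit 599750), .ofNat (nat_lit 560952), .ofNat (nat_lit 621905)⟩, ⟨.ofNat (nat_lit 0), .ofNat (nat_lit 261131), .ofNat (nat_lit 0), .ofNat (nat_lit 304717), .ofNat (nat_lit 0), .ofNat (nat_lit 261806), .ofNat (nat_lit 0), .ofNat (nat_lit 306116)⟩⟩, []⟩
noncomputable def p075_l78 : Lf2 := ⟨nat_lit 0, nat_lit 20, [nat_lit 5, nat_lit 5, nat_lit 5, nat_lit 20], true, nat_lit 0, nat_lit 80, nat_lit 0, nat_lit 300, ⟨nat_lit 0, nat_lit 486, nat_lit 514, nat_lit 7, nat_lit 252, nat_lit 1000, nat_lit 32, nat_lit 514, nat_lit 9600, nat_lit 239, nat_lit 51354, nat_lit 200, nat_lit 47955966, nat_lit 19044034, nat_lit 0, nat_lit 2984562, true, true⟩,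
 nat_lit 0, nat_lit 0, nat_lit 0, nat_lit 4845, nat_lit 3249, nat_lit 0, nat_lit 0, nat_lit 0, nat_lit 0, nat_lit 0, nat_lit 0, nat_lit 0, nat_lit 0, nat_lit 0, nat_lit 0, nat_lit 250000, nat_lit 0, nat_lit 0, [(nat_lit 22, [(nat_lit 0, nat_lit 486), (nat_lit 4, nat_lit 514)])],
 ⟨p075_k18, nat_lit 0, nat_lit 0, nat_lit 156, nat_lit 0, nat_lit 0, [nat_lit 1528524801, nat_lit 156792000], [], [nat_lit 24732677154, nat_lit 25731037614, nat_lit 25531811489, nat_lit 26495395086, nat_lit 23661768826, nat_lit 24605295182, nat_lit 24421244027, nat_lit 25326578900], nat_lit 0, nat_lit 0, nat_lit 0, nat_lit 0, nat_lit 0, nat_lit 0, [], [nat_lit 110, nat_lit 40, nat_lit 40, nat_lit 80, nat_lit 109, nat_lit 226, nat_lit 20, nat_lit 6]⟩, C1.Rw.none,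
 ⟨nat_lit 3162, nat_lit 3873, ⟨.ofNat (nat_lit 607248), .ofNat (nat_lit 639509), .ofNat (nat_lit 629042), .ofNat (nat_lit 661302), .ofNat (nat_lit 599750), .ofNat (nat_lit 630227), .ofNat (nat_lit 621905), .ofNat (nat_lit 652382)⟩, ⟨.ofNat (nat_lit 0), .ofNat (nat_lit 132088), .ofNat (nat_lit 0), .ofNat (nat_lit 175674), .ofNat (nat_lit 0), .ofNat (nat_lit 139899), .ofNat (nat_lit 0), .ofNat (nat_lit 184209)⟩⟩, [⟨nat_lit 3, nat_lit 100, nat_lit 75, nat_lit 35, nat_lit 99599539⟩]⟩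
noncomputable def p075_l79 : Lf2 := ⟨nat_lit 0, nat_lit 20, [nat_lit 5, nat_lit 5, nat_lit 5, nat_lit 20], true, nat_lit 0, nat_lit 80, nat_lit 0, nat_lit 280, ⟨nat_lit 0, nat_lit 616, nat_lit 384, nat_lit 7, nat_lit 265, nat_lit 1000, nat_lit 32, nat_lit 384, nat_lit 9600, nat_lit 239, nat_lit 115876, nat_lit 200, nat_lit 46604335, nat_lit 20395665, nat_lit 0, nat_lit 3072784, true, true⟩,
 nat_lit 0, nat_lit 0, nat_lit 0, nat_lit 5151, nat_lit 2665, nat_lit 0, nat_lit 0, nat_lit 0, nat_lit 0, nat_lit 0, nat_lit 0, nat_lit 0, nat_lit 0, nat_lit 0, nat_lit 22, nat_lit 400000, nat_lit 0, nat_lit 0, [(nat_lit 22, [(nat_lit 1, nat_lit 616), (nat_lit 5, nat_lit 384)])],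
 ⟨p075_k17, nat_lit 0, nat_lit 0, nat_lit 183, nat_lit 0, nat_lit 0, [nat_lit 1389036800, nat_lit 597024001, nat_lit 12476800], [], [nat_lit 24477266500, nat_lit 25414084970, nat_lit 25267140460, nat_lit 26164944500, nat_lit 23784980136, nat_lit 24684078451, nat_lit 24550929001, nat_lit 25413674081], nat_lit 0, nat_lit 0, nat_lit 0, nat_lit 0, nat_lit 0, nat_lit 0, [], [nat_lit 102, nat_lit 40, nat_lit 40, nat_lit 80, nat_lit 2, nat_lit 226, nat_lit 20, nat_lit 6]⟩, C1.Rw.none,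
 ⟨nat_lit 3162, nat_lit 3873, ⟨.ofNat (nat_lit 639509), .ofNat (nat_lit 671770), .ofNat (nat_lit 661302), .ofNat (nat_lit 693563), .ofNat (nat_lit 630227), .ofNat (nat_lit 660704), .ofNat (nat_lit 652382), .ofNat (nat_lit 682859)⟩, ⟨.ofNat (nat_lit 0), .ofNat (nat_lit 132088), .ofNat (nat_lit 0), .ofNat (nat_lit 175674), .ofNat (nat_lit 0), .ofNat (nat_lit 139899), .ofNat (nat_lit 0), .ofNat (nat_lit 184209)⟩⟩, [⟨nat_lit 3, nat_lit 100, nat_lit 75, nat_lit 35, nat_lit 50860225⟩]⟩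
noncomputable def p075_l80 : Lf2 := ⟨nat_lit 0, nat_lit 20, [nat_lit 5, nat_lit 5, nat_lit 5, nat_lit 20], true, nat_lit 80, nat_lit 160, nat_lit 0, nat_lit 364, ⟨nat_lit 0, nat_lit 482, nat_lit 518, nat_lit 7, nat_lit 258, nat_lit 1000, nat_lit 88, nat_lit 518, nat_lit 72600, nat_lit 281, nat_lit 115876, nat_lit 200, nat_lit 44356143, nat_lit 19089100, nat_lit 3554757, nat_lit 4147043, true, true⟩,
 nat_lit 0, nat_lit 0, nat_lit 0, nat_lit 2600, nat_lit 3483, nat_lit 0, nat_lit 0, nat_lit 0, nat_lit 0, nat_lit 0, nat_lit 0, nat_lit 0, nat_lit 0, nat_lit 0, nat_lit 0, nat_lit 250000, nat_lit 0, nat_lit 0, [(nat_lit 22, [(nat_lit 0, nat_lit 482), (nat_lit 4, nat_lit 518)])],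
 ⟨p075_k18, nat_lit 0, nat_lit 0, nat_lit 116, nat_lit 0, nat_lit 0, [nat_lit 1528217601, nat_lit 136904000], [], [nat_lit 22935085985, nat_lit 23963639928, nat_lit 24593551972, nat_lit 25584209644, nat_lit 23390333761, nat_lit 24323924445, nat_lit 24878614713, nat_lit 25741119452], nat_lit 0, nat_lit 0, nat_lit 0, nat_lit 0, nat_lit 0, nat_lit 0, [], [nat_lit 110, nat_lit 40, nat_lit 40, nat_lit 80, nat_lit 109, nat_lit 249, nat_lit 40, nat_lit 7]⟩, C1.Rw.none,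
 ⟨nat_lit 3162, nat_lit 3873, ⟨.ofNat (nat_lit 607248), .ofNat (nat_lit 671770), .ofNat (nat_lit 629042), .ofNat (nat_lit 693563), .ofNat (nat_lit 599750), .ofNat (nat_lit 660704), .ofNat (nat_lit 621905), .ofNat (nat_lit 682859)⟩, ⟨.ofNat (nat_lit 132088), .ofNat (nat_lit 261131), .ofNat (nat_lit 175674), .ofNat (nat_lit 304717), .ofNat (nat_lit 139899), .ofNat (nat_lit 261806), .ofNat (nat_lit 184209), .ofNat (nat_lit 306116)⟩⟩, []⟩
noncomputable def p075_l81 : Lf2 := ⟨nat_lit 0, nat_lit 15, [nat_lit 30, nat_lit 5, nat_lit 5, nat_lit 20], true, nat_lit 0, nat_lit 80, nat_lit 0, nat_lit 260, ⟨nat_lit 0, nat_lit 1000, nat_lit 0, nat_lit 8, nat_lit 285, nat_lit 620, nat_lit 27, nat_lit 0, nat_lit 0, nat_lit 0, nat_lit 0, nat_lit 0, nat_lit 44406620, nat_lit 22593380, nat_lit 0, nat_lit 3195852, true, true⟩,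
 nat_lit 0, nat_lit 0, nat_lit 0, nat_lit 4865, nat_lit 3471, nat_lit 0, nat_lit 0, nat_lit 0, nat_lit 0, nat_lit 0, nat_lit 0, nat_lit 0, nat_lit 0, nat_lit 0, nat_lit 0, nat_lit 556000, nat_lit 0, nat_lit 0, [(nat_lit 19, [(nat_lit 1, nat_lit 740), (nat_lit 2, nat_lit 260)])],
 ⟨p075_k19, nat_lit 0, nat_lit 0, nat_lit 177, nat_lit 0, nat_lit 0, [nat_lit 1476272001, nat_lit 1798920000, nat_lit 887261334], [], [nat_lit 26535693063, nat_lit 26963358971, nat_lit 28288559146, nat_lit 28696769627, nat_lit 25319377843, nat_lit 25724494334, nat_lit 26939843807, nat_lit 27309338513], nat_lit 0, nat_lit 0, nat_lit 0, nat_lit 0, nat_lit 0, nat_lit 0, [], [nat_lit 34, nat_lit 40, nat_lit 40, nat_lit 80, nat_lit 7, nat_lit 226, nat_lit 20, nat_lit 6]⟩, C1.Rw.none,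
 ⟨nat_lit 4183, nat_lit 4473, ⟨.ofNat (nat_lit 660800), .ofNat (nat_lit 728778), .ofNat (nat_lit 703933), .ofNat (nat_lit 771911), .ofNat (nat_lit 655432), .ofNat (nat_lit 721688), .ofNat (nat_lit 698765), .ofNat (nat_lit 765021)⟩, ⟨.negSucc (nat_lit 12423), .ofNat (nat_lit 123532), .ofNat (nat_lit 0), .ofNat (nat_lit 145099), .negSucc (nat_lit 4612), .ofNat (nat_lit 127898), .ofNat (nat_lit 0), .ofNat (nat_lit 149565)⟩⟩, [⟨nat_lit 13, nat_lit 78, nat_lit 70, nat_lit 100, nat_lit 223108628⟩]⟩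
noncomputable def p075_l82 : Lf2 := ⟨nat_lit 0, nat_lit 15, [nat_lit 30, nat_lit 5, nat_lit 5, nat_lit 20], true, nat_lit 0, nat_lit 80, nat_lit 0, nat_lit 260, ⟨nat_lit 0, nat_lit 1000, nat_lit 0, nat_lit 8, nat_lit 280, nat_lit 617, nat_lit 28, nat_lit 0, nat_lit 0, nat_lit 0, nat_lit 0, nat_lit 0, nat_lit 44941534, nat_lit 22058466, nat_lit 0, nat_lit 3168162, true, true⟩,
 nat_lit 0, nat_lit 0, nat_lit 0, nat_lit 4760, nat_lit 3442, nat_lit 0, nat_lit 278, nat_lit 0, nat_lit 0, nat_lit 0, nat_lit 0, nat_lit 0, nat_lit 0, nat_lit 0, nat_lit 0, nat_lit 250000, nat_lit 0, nat_lit 0, [(nat_lit 19, [(nat_lit 0, nat_lit 1000)])],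
 ⟨p075_k20, nat_lit 0, nat_lit 0, nat_lit 177, nat_lit 0, nat_lit 0, [nat_lit 1542400001, nat_lit 2190400000, nat_lit 2901600000], [], [nat_lit 26987537523, nat_lit 27413917339, nat_lit 28321142088, nat_lit 28716711058, nat_lit 25768495749, nat_lit 26172434231, nat_lit 27032771636, nat_lit 27408382862], nat_lit 0, nat_lit 0, nat_lit 0, nat_lit 0, nat_lit 0, nat_lit 0, [], [nat_lit 34, nat_lit 40, nat_lit 40, nat_lit 80, nat_lit 7, nat_lit 226, nat_lit 20, nat_lit 6]⟩, C1.Rw.none,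
 ⟨nat_lit 3872, nat_lit 4184, ⟨.ofNat (nat_lit 655432), .ofNat (nat_lit 708436), .ofNat (nat_lit 698765), .ofNat (nat_lit 751770), .ofNat (nat_lit 649977), .ofNat (nat_lit 701594), .ofNat (nat_lit 693563), .ofNat (nat_lit 745180)⟩, ⟨.negSucc (nat_lit 4619), .ofNat (nat_lit 127898), .ofNat (nat_lit 0), .ofNat (nat_lit 149565), .ofNat (nat_lit 0), .ofNat (nat_lit 132088), .ofNat (nat_lit 0), .ofNat (nat_lit 153881)⟩⟩, [⟨nat_lit 13, nat_lit 74, nat_lit 75, nat_lit 100, nat_lit 229371681⟩]⟩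
noncomputable def p075_l83 : Lf2 := ⟨nat_lit 1, nat_lit 15, [nat_lit 30, nat_lit 5, nat_lit 5, nat_lit 20], false, nat_lit 0, nat_lit 80, nat_lit 0, nat_lit 260, zbN0,
 nat_lit 0, nat_lit 0, nat_lit 0, nat_lit 0, nat_lit 0, nat_lit 0, nat_lit 0, nat_lit 0, nat_lit 0, nat_lit 0, nat_lit 0, nat_lit 0, nat_lit 0, nat_lit 0, nat_lit 0, nat_lit 0, nat_lit 0, nat_lit 0, [],
 C1.Rw.none, C1.Rw.none,
 zbF0, []⟩
noncomputable def p075_l84 : Lf2 := ⟨nat_lit 0, nat_lit 15, [nat_lit 30, nat_lit 5, nat_lit 5, nat_lit 20], true, nat_lit 0, nat_lit 80, nat_lit 0, nat_lit 260, ⟨nat_lit 0, nat_lit 1000, nat_lit 0, nat_lit 8, nat_lit 285, nat_lit 637, nat_lit 32, nat_lit 0, nat_lit 0, nat_lit 0, nat_lit 0, nat_lit 0, nat_lit 44406620, nat_lit 22593380, nat_lit 0, nat_lit 3195852, true, true⟩,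
 nat_lit 0, nat_lit 0, nat_lit 0, nat_lit 8473, nat_lit 3259, nat_lit 0, nat_lit 0, nat_lit 0, nat_lit 0, nat_lit 0, nat_lit 0, nat_lit 0, nat_lit 0, nat_lit 0, nat_lit 0, nat_lit 651400, nat_lit 0, nat_lit 0, [(nat_lit 19, [(nat_lit 1, nat_lit 581), (nat_lit 2, nat_lit 419)])],
 ⟨p075_k19, nat_lit 0, nat_lit 0, nat_lit 177, nat_lit 0, nat_lit 0, [nat_lit 1524056801, nat_lit 1678398000, nat_lit 259126534], [], [nat_lit 26120010247, nat_lit 26538274379, nat_lit 27793066775, nat_lit 28174281166, nat_lit 25047816867, nat_lit 25444321706, nat_lit 26633836223, nat_lit 27033007760], nat_lit 0, nat_lit 0, nat_lit 0, nat_lit 0, nat_lit 0, nat_lit 0, [], [nat_lit 34, nat_lit 40, nat_lit 40, nat_lit 80, nat_lit 7, nat_lit 226, nat_lit 20, nat_lit 6]⟩, C1.Rw.none,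
 ⟨nat_lit 4183, nat_lit 4473, ⟨.ofNat (nat_lit 660800), .ofNat (nat_lit 728778), .ofNat (nat_lit 703933), .ofNat (nat_lit 771911), .ofNat (nat_lit 655432), .ofNat (nat_lit 721688), .ofNat (nat_lit 698765), .ofNat (nat_lit 765021)⟩, ⟨.ofNat (nat_lit 0), .ofNat (nat_lit 145099), .ofNat (nat_lit 0), .ofNat (nat_lit 166665), .ofNat (nat_lit 0), .ofNat (nat_lit 149565), .ofNat (nat_lit 0), .ofNat (nat_lit 171231)⟩⟩, [⟨nat_lit 13, nat_lit 78, nat_lit 70, nat_lit 100, nat_lit 207356083⟩]⟩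
noncomputable def p075_l85 : Lf2 := ⟨nat_lit 0, nat_lit 15, [nat_lit 30, nat_lit 5, nat_lit 5, nat_lit 20], true, nat_lit 0, nat_lit 80, nat_lit 0, nat_lit 260, ⟨nat_lit 0, nat_lit 1000, nat_lit 0, nat_lit 8, nat_lit 280, nat_lit 574, nat_lit 33, nat_lit 0, nat_lit 0, nat_lit 0, nat_lit 0, nat_lit 0, nat_lit 44941534, nat_lit 22058466, nat_lit 0, nat_lit 3168162, true, true⟩,
 nat_lit 0, nat_lit 0, nat_lit 0, nat_lit 7592, nat_lit 3320, nat_lit 0, nat_lit 327, nat_lit 0, nat_lit 0, nat_lit 0, nat_lit 0, nat_lit 0, nat_lit 0, nat_lit 0, nat_lit 0, nat_lit 250000, nat_lit 0, nat_lit 0, [(nat_lit 19, [(nat_lit 0, nat_lit 1000)])],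
 ⟨p075_k20, nat_lit 0, nat_lit 0, nat_lit 177, nat_lit 0, nat_lit 0, [nat_lit 1542400001, nat_lit 2190400000, nat_lit 2901600000], [], [nat_lit 26708154746, nat_lit 27129124106, nat_lit 28025226554, nat_lit 28416165770, nat_lit 25572505706, nat_lit 25971488426, nat_lit 26821639051, nat_lit 27228389344], nat_lit 0, nat_lit 0, nat_lit 0, nat_lit 0, nat_lit 0, nat_lit 0, [], [nat_lit 34, nat_lit 40, nat_lit 40, nat_lit 80, nat_lit 7, nat_lit 226, nat_lit 20, nat_lit 6]⟩, C1.Rw.none,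
 ⟨nat_lit 3872, nat_lit 4184, ⟨.ofNat (nat_lit 655432), .ofNat (nat_lit 708436), .ofNat (nat_lit 698765), .ofNat (nat_lit 751770), .ofNat (nat_lit 649977), .ofNat (nat_lit 701594), .ofNat (nat_lit 693563), .ofNat (nat_lit 745180)⟩, ⟨.ofNat (nat_lit 0), .ofNat (nat_lit 149565), .ofNat (nat_lit 0), .ofNat (nat_lit 171231), .ofNat (nat_lit 0), .ofNat (nat_lit 153881), .ofNat (nat_lit 0), .ofNat (nat_lit 175674)⟩⟩, [⟨nat_lit 13, nat_lit 74, nat_lit 75, nat_lit 100, nat_lit 226045874⟩]⟩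
noncomputable def p075_l86 : Lf2 := ⟨nat_lit 1, nat_lit 20, [nat_lit 5, nat_lit 5, nat_lit 5, nat_lit 20], false, nat_lit 0, nat_lit 80, nat_lit 0, nat_lit 260, zbN0,
 nat_lit 0, nat_lit 0, nat_lit 0, nat_lit 0, nat_lit 0, nat_lit 0, nat_lit 0, nat_lit 0, nat_lit 0, nat_lit 0, nat_lit 0, nat_lit 0, nat_lit 0, nat_lit 0, nat_lit 0, nat_lit 0, nat_lit 0, nat_lit 0, [],
 C1.Rw.none, C1.Rw.none,
 zbF0, []⟩
noncomputable def p075_l87 : Lf2 := ⟨nat_lit 0, nat_lit 15, [nat_lit 30, nat_lit 5, nat_lit 5, nat_lit 20], true, nat_lit 0, nat_lit 80, nat_lit 0, nat_lit 260, ⟨nat_lit 0, nat_lit 621, nat_lit 379, nat_lit 8, nat_lit 274, nat_lit 405, nat_lit 29, nat_lit 379, nat_lit 8067, nat_lit 237, nat_lit 193302, nat_lit 200, nat_lit 45599796, nat_lit 21400204, nat_lit 0, nat_lit 3132103, true, true⟩,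
 nat_lit 0, nat_lit 0, nat_lit 0, nat_lit 3851, nat_lit 2858, nat_lit 0, nat_lit 0, nat_lit 0, nat_lit 0, nat_lit 0, nat_lit 0, nat_lit 0, nat_lit 0, nat_lit 0, nat_lit 21, nat_lit 400000, nat_lit 0, nat_lit 0, [(nat_lit 22, [(nat_lit 1, nat_lit 621), (nat_lit 5, nat_lit 379)])],
 ⟨p075_k21, nat_lit 0, nat_lit 0, nat_lit 173, nat_lit 0, nat_lit 0, [nat_lit 1695955601, nat_lit 107518800], [], [nat_lit 26132626526, nat_lit 27006862354, nat_lit 27135793131, nat_lit 27965551946, nat_lit 25259385894, nat_lit 26088950274, nat_lit 26212715553, nat_lit 27000132335], nat_lit 0, nat_lit 0, nat_lit 0, nat_lit 0, nat_lit 0, nat_lit 0, [], [nat_lit 110, nat_lit 40, nat_lit 40, nat_lit 80, nat_lit 109, nat_lit 226, nat_lit 20, nat_lit 6]⟩, C1.Rw.none,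
 ⟨nat_lit 3162, nat_lit 3873, ⟨.ofNat (nat_lit 649977), .ofNat (nat_lit 688690), .ofNat (nat_lit 693563), .ofNat (nat_lit 732276), .ofNat (nat_lit 638549), .ofNat (nat_lit 675121), .ofNat (nat_lit 682859), .ofNat (nat_lit 719431)⟩, ⟨.ofNat (nat_lit 0), .ofNat (nat_lit 132088), .ofNat (nat_lit 0), .ofNat (nat_lit 153881), .ofNat (nat_lit 0), .ofNat (nat_lit 139899), .ofNat (nat_lit 0), .ofNat (nat_lit 162054)⟩⟩, [⟨nat_lit 13, nat_lit 66, nat_lit 82, nat_lit 100, nat_lit 163575211⟩, ⟨nat_lit 13, nat_lit 71, nat_lit 70, nat_lit 100, nat_lit 141660682⟩]⟩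
noncomputable def p075_l88 : Lf2 := ⟨nat_lit 0, nat_lit 20, [nat_lit 5, nat_lit 5, nat_lit 5, nat_lit 20], true, nat_lit 0, nat_lit 80, nat_lit 0, nat_lit 260, ⟨nat_lit 0, nat_lit 793, nat_lit 207, nat_lit 8, nat_lit 275, nat_lit 647, nat_lit 33, nat_lit 207, nat_lit 10417, nat_lit 240, nat_lit 193302, nat_lit 200, nat_lit 45468727, nat_lit 21531273, nat_lit 0, nat_lit 3139459, true, true⟩,
 nat_lit 0, nat_lit 0, nat_lit 0, nat_lit 8418, nat_lit 2634, nat_lit 0, nat_lit 0, nat_lit 0, nat_lit 0, nat_lit 0, nat_lit 0, nat_lit 0, nat_lit 0, nat_lit 0, nat_lit 31, nat_lit 524200, nat_lit 0, nat_lit 0, [(nat_lit 22, [(nat_lit 1, nat_lit 793), (nat_lit 6, nat_lit 207)])],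
 ⟨p075_k22, nat_lit 0, nat_lit 0, nat_lit 177, nat_lit 0, nat_lit 0, [nat_lit 1481868801, nat_lit 1239028800, nat_lit 46217600], [], [nat_lit 25559407377, nat_lit 25949954009, nat_lit 26458258855, nat_lit 26829575268, nat_lit 24873241661, nat_lit 25244358375, nat_lit 25728542907, nat_lit 26093822518], nat_lit 0, nat_lit 0, nat_lit 0, nat_lit 0, nat_lit 0, nat_lit 0, [], [nat_lit 34, nat_lit 40, nat_lit 40, nat_lit 80, nat_lit 7, nat_lit 226, nat_lit 20, nat_lit 6]⟩, C1.Rw.none,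
 ⟨nat_lit 3535, nat_lit 3873, ⟨.ofNat (nat_lit 649977), .ofNat (nat_lit 688690), .ofNat (nat_lit 693563), .ofNat (nat_lit 732276), .ofNat (nat_lit 644378), .ofNat (nat_lit 682034), .ofNat (nat_lit 688283), .ofNat (nat_lit 725940)⟩, ⟨.ofNat (nat_lit 0), .ofNat (nat_lit 153881), .ofNat (nat_lit 0), .ofNat (nat_lit 175674), .ofNat (nat_lit 0), .ofNat (nat_lit 158046), .ofNat (nat_lit 0), .ofNat (nat_lit 179999)⟩⟩, [⟨nat_lit 13, nat_lit 69, nat_lit 79, nat_lit 100, nat_lit 253502156⟩]⟩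
noncomputable def p075_l89 : Lf2 := ⟨nat_lit 0, nat_lit 20, [nat_lit 5, nat_lit 5, nat_lit 5, nat_lit 20], true, nat_lit 0, nat_lit 80, nat_lit 0, nat_lit 260, ⟨nat_lit 0, nat_lit 1000, nat_lit 0, nat_lit 8, nat_lit 270, nat_lit 1000, nat_lit 34, nat_lit 0, nat_lit 0, nat_lit 0, nat_lit 0, nat_lit 0, nat_lit 45990416, nat_lit 21009584, nat_lit 0, nat_lit 3109659, true, true⟩,
 nat_lit 0, nat_lit 0, nat_lit 0, nat_lit 6259, nat_lit 2921, nat_lit 0, nat_lit 168, nat_lit 0, nat_lit 0, nat_lit 0, nat_lit 0, nat_lit 0, nat_lit 0, nat_lit 0, nat_lit 0, nat_lit 400000, nat_lit 0, nat_lit 0, [(nat_lit 22, [(nat_lit 1, nat_lit 1000)])],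
 ⟨p075_k23, nat_lit 0, nat_lit 0, nat_lit 178, nat_lit 0, nat_lit 0, [nat_lit 1358400001, nat_lit 1554800000, nat_lit 1406000000], [], [nat_lit 26368890853, nat_lit 26777014900, nat_lit 27073940032, nat_lit 27677355065, nat_lit 25464977932, nat_lit 25847752873, nat_lit 26039512796, nat_lit 26421954153], nat_lit 0, nat_lit 0, nat_lit 0, nat_lit 0, nat_lit 0, nat_lit 0, [], [nat_lit 34, nat_lit 40, nat_lit 40, nat_lit 80, nat_lit 7, nat_lit 226, nat_lit 20, nat_lit 6]⟩, C1.Rw.none,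
 ⟨nat_lit 3162, nat_lit 3536, ⟨.ofNat (nat_lit 644378), .ofNat (nat_lit 669482), .ofNat (nat_lit 688283), .ofNat (nat_lit 713387), .ofNat (nat_lit 638549), .ofNat (nat_lit 662930), .ofNat (nat_lit 682859), .ofNat (nat_lit 707240)⟩, ⟨.ofNat (nat_lit 0), .ofNat (nat_lit 158046), .ofNat (nat_lit 0), .ofNat (nat_lit 179999), .ofNat (nat_lit 0), .ofNat (nat_lit 162054), .ofNat (nat_lit 0), .ofNat (nat_lit 184209)⟩⟩, [⟨nat_lit 13, nat_lit 64, nat_lit 84, nat_lit 100, nat_lit 414840254⟩, ⟨nat_lit 3, nat_lit 100, nat_lit 83, nat_lit 23, nat_lit 35883819⟩]⟩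
noncomputable def p075_l90 : Lf2 := ⟨nat_lit 0, nat_lit 20, [nat_lit 5, nat_lit 5, nat_lit 5, nat_lit 20], true, nat_lit 80, nat_lit 160, nat_lit 0, nat_lit 336, ⟨nat_lit 0, nat_lit 1000, nat_lit 0, nat_lit 8, nat_lit 282, nat_lit 1000, nat_lit 87, nat_lit 0, nat_lit 0, nat_lit 0, nat_lit 0, nat_lit 0, nat_lit 42206962, nat_lit 21397533, nat_lit 3395505, nat_lit 4246641, true, true⟩,
 nat_lit 0, nat_lit 0, nat_lit 0, nat_lit 4130, nat_lit 3562, nat_lit 0, nat_lit 325, nat_lit 0, nat_lit 0, nat_lit 0, nat_lit 0, nat_lit 0, nat_lit 0, nat_lit 0, nat_lit 0, nat_lit 250000, nat_lit 0, nat_lit 0, [(nat_lit 19, [(nat_lit 0, nat_lit 1000)]), (nat_lit 22, [(nat_lit 0, nat_lit 1000)])],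
 ⟨p075_k14, nat_lit 0, nat_lit 0, nat_lit 153, nat_lit 0, nat_lit 0, [nat_lit 1568000001, nat_lit 2368400000, nat_lit 3220880000], [], [nat_lit 24741481025, nat_lit 26585461633, nat_lit 26585461633, nat_lit 28256986584, nat_lit 24946855842, nat_lit 26606272049, nat_lit 26606272049, nat_lit 28333778800], nat_lit 0, nat_lit 0, nat_lit 0, nat_lit 0, nat_lit 0, nat_lit 0, [], [nat_lit 27, nat_lit 40, nat_lit 40, nat_lit 80, nat_lit 13, nat_lit 249, nat_lit 40, nat_lit 6]⟩, C1.Rw.none,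
 ⟨nat_lit 3162, nat_lit 4473, ⟨.ofNat (nat_lit 660800), .ofNat (nat_lit 728778), .ofNat (nat_lit 703933), .ofNat (nat_lit 771911), .ofNat (nat_lit 638549), .ofNat (nat_lit 699502), .ofNat (nat_lit 682859), .ofNat (nat_lit 743812)⟩, ⟨.ofNat (nat_lit 123532), .ofNat (nat_lit 259488), .ofNat (nat_lit 166665), .ofNat (nat_lit 302621), .ofNat (nat_lit 139899), .ofNat (nat_lit 261805), .ofNat (nat_lit 184209), .ofNat (nat_lit 306116)⟩⟩, [⟨nat_lit 13, nat_lit 72, nat_lit 77, nat_lit 100, nat_lit 263939416⟩]⟩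
noncomputable def p075_l91 : Lf2 := ⟨nat_lit 0, nat_lit 20, [nat_lit 5, nat_lit 5, nat_lit 5, nat_lit 20], true, nat_lit 160, nat_lit 260, nat_lit 0, nat_lit 384, ⟨nat_lit 0, nat_lit 1000, nat_lit 0, nat_lit 4, nat_lit 230, nat_lit 1000, nat_lit 145, nat_lit 0, nat_lit 0, nat_lit 0, nat_lit 0, nat_lit 0, nat_lit 43781122, nat_lit 15645805, nat_lit 7573073, nat_lit 4631572, false, true⟩,
 nat_lit 0, nat_lit 0, nat_lit 0, nat_lit 4919, nat_lit 3840, nat_lit 0, nat_lit 0, nat_lit 0, nat_lit 0, nat_lit 0, nat_lit 0, nat_lit 0, nat_lit 0, nat_lit 0, nat_lit 0, nat_lit 250000, nat_lit 0, nat_lit 0, [(nat_lit 19, [(nat_lit 0, nat_lit 1000)]), (nat_lit 22, [(nat_lit 0, nat_lit 1000)])],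
 ⟨p075_k14, nat_lit 0, nat_lit 0, nat_lit 73, nat_lit 0, nat_lit 0, [nat_lit 1568000001, nat_lit 2368400000, nat_lit 3220880000], [], [nat_lit 18119097441, nat_lit 20896440961, nat_lit 26375888640, nat_lit 28300252000, nat_lit 21519117681, nat_lit 23922675720, nat_lit 28404665760, nat_lit 30176262160], nat_lit 0, nat_lit 0, nat_lit 0, nat_lit 0, nat_lit 0, nat_lit 0, [], [nat_lit 27, nat_lit 40, nat_lit 40, nat_lit 80, nat_lit 13, nat_lit 401, nat_lit 175, nat_lit 11]⟩, C1.Rw.none,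
 ⟨nat_lit 3162, nat_lit 4473, ⟨.ofNat (nat_lit 388887), .ofNat (nat_lit 728778), .ofNat (nat_lit 431944), .ofNat (nat_lit 771911), .ofNat (nat_lit 394735), .ofNat (nat_lit 699502), .ofNat (nat_lit 438969), .ofNat (nat_lit 743812)⟩, ⟨.ofNat (nat_lit 259488), .ofNat (nat_lit 429433), .ofNat (nat_lit 302621), .ofNat (nat_lit 472567), .ofNat (nat_lit 261805), .ofNat (nat_lit 414188), .ofNat (nat_lit 306116), .ofNat (nat_lit 458499)⟩⟩, [⟨nat_lit 13, nat_lit 72, nat_lit 77, nat_lit 100, nat_lit 170029656⟩, ⟨nat_lit 4, nat_lit 100, nat_lit 71, nat_lit 71, nat_lit 205868801⟩]⟩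
noncomputable def b_V_800_400_10_6 : St := ⟨true, nat_lit 0, nat_lit 2, nat_lit 1, nat_lit 80, nat_lit 320, nat_lit 360, nat_lit 160, nat_lit 200, nat_lit 16, nat_lit 360, nat_lit 40, nat_lit 80, nat_lit 0, nat_lit 260, nat_lit 0, nat_lit 384, nat_lit 40, nat_lit 80, nat_lit 0, nat_lit 0, nat_lit 0, nat_lit 0⟩
theorem d_V_800_400_10_6 (h : EB TB.env) : Dead b_V_800_400_10_6 := chkB_sound0 h (T :=
(.st (nat_lit 1)
(.spl (nat_lit 2) (nat_lit 160)
(.leaf p075_l65)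
(.spl (nat_lit 4) (nat_lit 160)
(.spl (nat_lit 5) (nat_lit 160)
(.leaf p075_l66)
(.spl (nat_lit 2) (nat_lit 240)
(.leaf p075_l67)
(.spl (nat_lit 2) (nat_lit 320)
(.leaf p075_l68)
(.trZ (nat_lit 22) (nat_lit 82) (nat_lit 100) (nat_lit 44) (nat_lit 16) (.trX (nat_lit 22) (nat_lit 82) (nat_lit 76) (nat_lit 100) (nat_lit 336) (.leaf p075_l69))))))
(.leaf p075_l70)))
(.spl (nat_lit 2) (nat_lit 160)
(.leaf p075_l71)
(.spl (nat_lit 4) (nat_lit 160)
(.spl (nat_lit 2) (nat_lit 240)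
(.leaf p075_l72)
(.spl (nat_lit 2) (nat_lit 320)
(.spl (nat_lit 0) (nat_lit 340)
(.spl (nat_lit 3) (nat_lit 60)
(.trX (nat_lit 19) (nat_lit 100) (nat_lit 55) (nat_lit 73) (nat_lit 368) (.leaf p075_l73))
(.spl (nat_lit 6) (nat_lit 60)
(.leaf p075_l74)
(.leaf p075_l75)))
(.spl (nat_lit 1) (nat_lit 180)
(.leaf p075_l76)
(.trX (nat_lit 19) (nat_lit 100) (nat_lit 52) (nat_lit 80) (nat_lit 372) (.spl (nat_lit 2) (nat_lit 280)
(.leaf p075_l77)
(.trX (nat_lit 22) (nat_lit 94) (nat_lit 59) (nat_lit 100) (nat_lit 364) (.spl (nat_lit 4) (nat_lit 80)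
(.trX (nat_lit 22) (nat_lit 100) (nat_lit 95) (nat_lit 87) (nat_lit 300) (.spl (nat_lit 2) (nat_lit 300)
(.leaf p075_l78)
(.trX (nat_lit 22) (nat_lit 94) (nat_lit 100) (nat_lit 87) (nat_lit 280) (.leaf p075_l79))))
(.leaf p075_l80)))))))
(.trX (nat_lit 22) (nat_lit 82) (nat_lit 76) (nat_lit 100) (nat_lit 336) (.spl (nat_lit 4) (nat_lit 80)
(.trX (nat_lit 22) (nat_lit 83) (nat_lit 100) (nat_lit 83) (nat_lit 260) (.spl (nat_lit 0) (nat_lit 340)
(.spl (nat_lit 3) (nat_lit 60)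
(.spl (nat_lit 6) (nat_lit 72)
(.spl (nat_lit 0) (nat_lit 330)
(.leaf p075_l81)
(.trX (nat_lit 13) (nat_lit 76) (nat_lit 65) (nat_lit 100) (nat_lit 352) (.leaf p075_l82)))
(.leaf p075_l83))
(.spl (nat_lit 6) (nat_lit 60)
(.spl (nat_lit 0) (nat_lit 330)
(.leaf p075_l84)
(.trX (nat_lit 13) (nat_lit 76) (nat_lit 65) (nat_lit 100) (nat_lit 352) (.leaf p075_l85)))
(.leaf p075_l86)))
(.trX (nat_lit 13) (nat_lit 71) (nat_lit 70) (nat_lit 100) (nat_lit 344) (.spl (nat_lit 3) (nat_lit 60)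
(.leaf p075_l87)
(.spl (nat_lit 0) (nat_lit 350)
(.leaf p075_l88)
(.trX (nat_lit 13) (nat_lit 66) (nat_lit 75) (nat_lit 100) (nat_lit 336) (.leaf p075_l89)))))))
(.leaf p075_l90)))))
(.leaf p075_l91))))) (by decide +kernel)
noncomputable def p075_l92 : Lf2 := ⟨nat_lit 0, nat_lit 20, [nat_lit 5, nat_lit 5, nat_lit 5, nat_lit 20], true, nat_lit 0, nat_lit 260, nat_lit 0, nat_lit 384, ⟨nat_lit 0, nat_lit 0, nat_lit 1000, nat_lit 4, nat_lit 104, nat_lit 1000, nat_lit 90, nat_lit 1000, nat_lit 74817, nat_lit 282, nat_lit 101400, nat_lit 293, nat_lit 62767364, nat_lit 0, nat_lit 0, nat_lit 1178054, false, false⟩,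
 nat_lit 0, nat_lit 4413, nat_lit 0, nat_lit 0, nat_lit 3309, nat_lit 0, nat_lit 0, nat_lit 0, nat_lit 0, nat_lit 0, nat_lit 0, nat_lit 0, nat_lit 0, nat_lit 0, nat_lit 107, nat_lit 331150, nat_lit 0, nat_lit 0, [(nat_lit 19, [(nat_lit 4, nat_lit 459), (nat_lit 5, nat_lit 541)])],
 ⟨p075_k13, nat_lit 0, nat_lit 0, nat_lit 438, nat_lit 0, nat_lit 289416, [nat_lit 2323762400, nat_lit 225199200], [], [nat_lit 20329330955, nat_lit 20990171531, nat_lit 19059944084, nat_lit 20130962884, nat_lit 22012156379, nat_lit 23078804559, nat_lit 23711049561, nat_lit 22965226386], nat_lit 1271250, nat_lit 1271250, nat_lit 88400, nat_lit 780000, nat_lit 0, nat_lit 1836250, [nat_lit 490000, nat_lit 2052500], [nat_lit 94, nat_lit 40, nat_lit 40, nat_lit 80, nat_lit 95, nat_lit 317, nat_lit 100, nat_lit 9]⟩, C1.Rw.none,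
 ⟨nat_lit 3872, nat_lit 4473, ⟨.ofNat (nat_lit 144159), .ofNat (nat_lit 320909), .ofNat (nat_lit 187264), .ofNat (nat_lit 364028), .ofNat (nat_lit 159606), .ofNat (nat_lit 327369), .ofNat (nat_lit 203164), .ofNat (nat_lit 370941)⟩, ⟨.negSucc (nat_lit 12427), .ofNat (nat_lit 429434), .ofNat (nat_lit 0), .ofNat (nat_lit 472567), .ofNat (nat_lit 0), .ofNat (nat_lit 422435), .ofNat (nat_lit 0), .ofNat (nat_lit 466021)⟩⟩, [⟨nat_lit 0, nat_lit 100, nat_lit 71, nat_lit 70, nat_lit 97317701⟩, ⟨nat_lit 4, nat_lit 100, nat_lit 76, nat_lit 72, nat_lit 38342655⟩]⟩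
noncomputable def p075_l93 : Lf2 := ⟨nat_lit 0, nat_lit 20, [nat_lit 5, nat_lit 5, nat_lit 5, nat_lit 20], true, nat_lit 0, nat_lit 232, nat_lit 0, nat_lit 384, ⟨nat_lit 0, nat_lit 0, nat_lit 1000, nat_lit 4, nat_lit 113, nat_lit 1000, nat_lit 79, nat_lit 1000, nat_lit 58017, nat_lit 274, nat_lit 120417, nat_lit 300, nat_lit 62016724, nat_lit 0, nat_lit 0, nat_lit 1324081, false, false⟩,
 nat_lit 0, nat_lit 3184, nat_lit 0, nat_lit 0, nat_lit 2577, nat_lit 0, nat_lit 0, nat_lit 0, nat_lit 0, nat_lit 0, nat_lit 0, nat_lit 0, nat_lit 0, nat_lit 0, nat_lit 150, nat_lit 400000, nat_lit 0, nat_lit 0, [(nat_lit 22, [(nat_lit 5, nat_lit 1000)])],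
 ⟨p075_k17, nat_lit 0, nat_lit 0, nat_lit 432, nat_lit 0, nat_lit 458639, [nat_lit 2176000000, nat_lit 915400001, nat_lit 20000000], [], [nat_lit 18571830826, nat_lit 19986768054, nat_lit 19259938900, nat_lit 20486449020, nat_lit 22021321826, nat_lit 23037075856, nat_lit 22602379177, nat_lit 23534824619], nat_lit 1271250, nat_lit 1271250, nat_lit 181601, nat_lit 780000, nat_lit 0, nat_lit 1638500, [nat_lit 490000, nat_lit 1427500, nat_lit 1271250], [nat_lit 102, nat_lit 40, nat_lit 40, nat_lit 80, nat_lit 2, nat_lit 317, nat_lit 100, nat_lit 11]⟩, C1.Rw.none,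
 ⟨nat_lit 3162, nat_lit 3873, ⟨.ofNat (nat_lit 185344), .ofNat (nat_lit 327361), .ofNat (nat_lit 228873), .ofNat (nat_lit 370892), .ofNat (nat_lit 199607), .ofNat (nat_lit 333774), .ofNat (nat_lit 243860), .ofNat (nat_lit 378028)⟩, ⟨.ofNat (nat_lit 0), .ofNat (nat_lit 377270), .ofNat (nat_lit 0), .ofNat (nat_lit 420856), .ofNat (nat_lit 0), .ofNat (nat_lit 371522), .ofNat (nat_lit 0), .ofNat (nat_lit 415832)⟩⟩, [⟨nat_lit 0, nat_lit 100, nat_lit 60, nat_lit 80, nat_lit 43933932⟩, ⟨nat_lit 4, nat_lit 100, nat_lit 66, nat_lit 72, nat_lit 101972798⟩]⟩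
noncomputable def p075_l94 : Lf2 := ⟨nat_lit 0, nat_lit 20, [nat_lit 5, nat_lit 5, nat_lit 5, nat_lit 20], true, nat_lit 0, nat_lit 160, nat_lit 0, nat_lit 384, ⟨nat_lit 0, nat_lit 55, nat_lit 945, nat_lit 4, nat_lit 178, nat_lit 861, nat_lit 56, nat_lit 945, nat_lit 29400, nat_lit 257, nat_lit 1350, nat_lit 224, nat_lit 55917472, nat_lit 11082528, nat_lit 0, nat_lit 2242670, false, true⟩,
 nat_lit 0, nat_lit 4261, nat_lit 0, nat_lit 0, nat_lit 3195, nat_lit 0, nat_lit 0, nat_lit 0, nat_lit 0, nat_lit 0, nat_lit 0, nat_lit 0, nat_lit 0, nat_lit 0, nat_lit 116, nat_lit 391750, nat_lit 0, nat_lit 0, [(nat_lit 19, [(nat_lit 0, nat_lit 55), (nat_lit 5, nat_lit 945)])],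
 ⟨p075_k13, nat_lit 0, nat_lit 0, nat_lit 319, nat_lit 0, nat_lit 289416, [nat_lit 2364790000, nat_lit 257254000], [], [nat_lit 18277983460, nat_lit 19400048580, nat_lit 20925105740, nat_lit 21872480680, nat_lit 18473454480, nat_lit 19432018780, nat_lit 22356908380, nat_lit 22146782360], nat_lit 1271250, nat_lit 1271250, nat_lit 780000, nat_lit 1762500, nat_lit 0, nat_lit 1100001, [nat_lit 490000, nat_lit 2052500], [nat_lit 94, nat_lit 40, nat_lit 40, nat_lit 80, nat_lit 95, nat_lit 317, nat_lit 100, nat_lit 9]⟩, C1.Rw.none,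
 ⟨nat_lit 3872, nat_lit 4473, ⟨.ofNat (nat_lit 320909), .ofNat (nat_lit 524844), .ofNat (nat_lit 364028), .ofNat (nat_lit 567977), .ofNat (nat_lit 327369), .ofNat (nat_lit 520934), .ofNat (nat_lit 370941), .ofNat (nat_lit 564520)⟩, ⟨.negSucc (nat_lit 12427), .ofNat (nat_lit 259489), .ofNat (nat_lit 0), .ofNat (nat_lit 302621), .ofNat (nat_lit 0), .ofNat (nat_lit 261131), .ofNat (nat_lit 0), .ofNat (nat_lit 304717)⟩⟩, []⟩
noncomputable def p075_l95 : Lf2 := ⟨nat_lit 0, nat_lit 20, [nat_lit 5, nat_lit 5, nat_lit 5, nat_lit 20], true, nat_lit 0, nat_lit 160, nat_lit 0, nat_lit 384, ⟨nat_lit 0, nat_lit 85, nat_lit 915, nat_lit 4, nat_lit 179, nat_lit 1000, nat_lit 57, nat_lit 915, nat_lit 30817, nat_lit 258, nat_lit 4566, nat_lit 226, nat_lit 55857287, nat_lit 11142713, nat_lit 0, nat_lit 2249925, false, true⟩,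
 nat_lit 0, nat_lit 3397, nat_lit 0, nat_lit 0, nat_lit 2749, nat_lit 0, nat_lit 0, nat_lit 0, nat_lit 0, nat_lit 0, nat_lit 0, nat_lit 0, nat_lit 0, nat_lit 0, nat_lit 132, nat_lit 400000, nat_lit 0, nat_lit 0, [(nat_lit 22, [(nat_lit 1, nat_lit 85), (nat_lit 5, nat_lit 915)])],
 ⟨p075_k17, nat_lit 0, nat_lit 0, nat_lit 381, nat_lit 0, nat_lit 458639, [nat_lit 2064708000, nat_lit 864715001, nat_lit 10858000], [], [nat_lit 18105579102, nat_lit 19456355152, nat_lit 21473028304, nat_lit 22592751828, nat_lit 19304569328, nat_lit 20445500416, nat_lit 22255534874, nat_lit 23211116856], nat_lit 1271250, nat_lit 1271250, nat_lit 780000, nat_lit 1762500, nat_lit 0, nat_lit 1100001, [nat_lit 490000, nat_lit 1427500, nat_lit 1271250], [nat_lit 102, nat_lit 40, nat_lit 40, nat_lit 80, nat_lit 2, nat_lit 317, nat_lit 100, nat_lit 10]⟩, C1.Rw.none,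
 ⟨nat_lit 3162, nat_lit 3873, ⟨.ofNat (nat_lit 327361), .ofNat (nat_lit 520934), .ofNat (nat_lit 370892), .ofNat (nat_lit 564520), .ofNat (nat_lit 333774), .ofNat (nat_lit 516642), .ofNat (nat_lit 378028), .ofNat (nat_lit 560952)⟩, ⟨.ofNat (nat_lit 0), .ofNat (nat_lit 261131), .ofNat (nat_lit 0), .ofNat (nat_lit 304717), .ofNat (nat_lit 0), .ofNat (nat_lit 261806), .ofNat (nat_lit 0), .ofNat (nat_lit 306116)⟩⟩, []⟩
noncomputable def p075_l96 : Lf2 := ⟨nat_lit 0, nat_lit 20, [nat_lit 5, nat_lit 5, nat_lit 5, nat_lit 20], true, nat_lit 160, nat_lit 260, nat_lit 0, nat_lit 384, ⟨nat_lit 0, nat_lit 25, nat_lit 975, nat_lit 4, nat_lit 178, nat_lit 1000, nat_lit 145, nat_lit 975, nat_lit 89743, nat_lit 288, nat_lit 1350, nat_lit 224, nat_lit 48165533, nat_lit 10916162, nat_lit 7918305, nat_lit 4207654, false, true⟩,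
 nat_lit 0, nat_lit 4991, nat_lit 0, nat_lit 0, nat_lit 3742, nat_lit 0, nat_lit 0, nat_lit 0, nat_lit 0, nat_lit 0, nat_lit 0, nat_lit 0, nat_lit 0, nat_lit 0, nat_lit 76, nat_lit 250000, nat_lit 0, nat_lit 0, [(nat_lit 19, [(nat_lit 0, nat_lit 25), (nat_lit 4, nat_lit 975)]), (nat_lit 22, [(nat_lit 0, nat_lit 25), (nat_lit 4, nat_lit 975)])],
 ⟨p075_k13, nat_lit 0, nat_lit 0, nat_lit 315, nat_lit 0, nat_lit 508069, [nat_lit 2129510000, nat_lit 162150000], [], [nat_lit 18572447464, nat_lit 20335147248, nat_lit 20551390480, nat_lit 22266811216, nat_lit 20802227174, nat_lit 22784254086, nat_lit 26107492612, nat_lit 25153109720], nat_lit 1271250, nat_lit 1271250, nat_lit 780000, nat_lit 1762500, nat_lit 1100001, nat_lit 1956250, [nat_lit 490000, nat_lit 2052500], [nat_lit 94, nat_lit 40, nat_lit 40, nat_lit 80, nat_lit 95, nat_lit 345, nat_lit 125, nat_lit 9]⟩, C1.Rw.none,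
 ⟨nat_lit 3162, nat_lit 4473, ⟨.ofNat (nat_lit 320902), .ofNat (nat_lit 524844), .ofNat (nat_lit 363888), .ofNat (nat_lit 567977), .ofNat (nat_lit 333775), .ofNat (nat_lit 516642), .ofNat (nat_lit 377938), .ofNat (nat_lit 560952)⟩, ⟨.ofNat (nat_lit 259488), .ofNat (nat_lit 429433), .ofNat (nat_lit 302621), .ofNat (nat_lit 472567), .ofNat (nat_lit 261805), .ofNat (nat_lit 414188), .ofNat (nat_lit 306116), .ofNat (nat_lit 458499)⟩⟩, [⟨nat_lit 4, nat_lit 100, nat_lit 71, nat_lit 71, nat_lit 585001630⟩]⟩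
noncomputable def p075_l97 : Lf2 := ⟨nat_lit 0, nat_lit 20, [nat_lit 5, nat_lit 5, nat_lit 5, nat_lit 20], false, nat_lit 0, nat_lit 160, nat_lit 0, nat_lit 384, ⟨nat_lit 250, nat_lit 0, nat_lit 750, nat_lit 6, nat_lit 240, nat_lit 750, nat_lit 56, nat_lit 750, nat_lit 29400, nat_lit 257, nat_lit 93482, nat_lit 200, nat_lit 49265640, nat_lit 0, nat_lit 0, nat_lit 2889536, false, true⟩,
 nat_lit 0, nat_lit 4401, nat_lit 0, nat_lit 1196, nat_lit 3300, nat_lit 2123, nat_lit 141, nat_lit 0, nat_lit 0, nat_lit 205, nat_lit 0, nat_lit 0, nat_lit 0, nat_lit 0, nat_lit 12, nat_lit 300000, nat_lit 0, nat_lit 0, [(nat_lit 19, [(nat_lit 5, nat_lit 750)])],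
 ⟨p075_k14, nat_lit 0, nat_lit 0, nat_lit 310, nat_lit 0, nat_lit 256349, [nat_lit 1300600000, nat_lit 1038200001, nat_lit 288500000], [], [nat_lit 21852771025, nat_lit 22968100825, nat_lit 25057453425, nat_lit 26352886400, nat_lit 21541633826, nat_lit 22286697826, nat_lit 23757977825, nat_lit 24460342825], nat_lit 1271250, nat_lit 1271250, nat_lit 1271250, nat_lit 1271250, nat_lit 0, nat_lit 1100001, [nat_lit 490000, nat_lit 1100000, nat_lit 2127500], [nat_lit 27, nat_lit 40, nat_lit 40, nat_lit 80, nat_lit 13, nat_lit 345, nat_lit 125, nat_lit 9]⟩, ⟨p075_k15, nat_lit 0, nat_lit 0, nat_lit 409, nat_lit 0, nat_lit 0, [nat_lit 1992000000, nat_lit 2968000000, nat_lit 4100000000], [], [nat_lit 9918439006, nat_lit 9931980378, nat_lit 10696138762, nat_lit 10692307232, nat_lit 9584395556, nat_lit 9532309935, nat_lit 9982833960, nat_lit 9910596209], nat_lit 0, nat_lit 0, nat_lit 0, nat_lit 0, nat_lit 0, nat_lit 0,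 [], [nat_lit 97, nat_lit 40, nat_lit 40, nat_lit 80, nat_lit 76, nat_lit 456, nat_lit 225, nat_lit 10]⟩,
 ⟨nat_lit 3872, nat_lit 4473, ⟨.ofNat (nat_lit 524844), .ofNat (nat_lit 660800), .ofNat (nat_lit 546410), .ofNat (nat_lit 682366), .ofNat (nat_lit 520934), .ofNat (nat_lit 649977), .ofNat (nat_lit 542727), .ofNat (nat_lit 671770)⟩, ⟨.negSucc (nat_lit 12427), .ofNat (nat_lit 259489), .ofNat (nat_lit 0), .ofNat (nat_lit 302621), .ofNat (nat_lit 0), .ofNat (nat_lit 261131), .ofNat (nat_lit 0), .ofNat (nat_lit 304717)⟩⟩, [⟨nat_lit 22, nat_lit 100, nat_lit 95, nat_lit 87, nat_lit 45907187⟩]⟩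
noncomputable def p075_l98 : Lf2 := ⟨nat_lit 0, nat_lit 20, [nat_lit 5, nat_lit 5, nat_lit 5, nat_lit 20], false, nat_lit 0, nat_lit 160, nat_lit 0, nat_lit 372, ⟨nat_lit 308, nat_lit 0, nat_lit 692, nat_lit 6, nat_lit 249, nat_lit 692, nat_lit 56, nat_lit 692, nat_lit 29400, nat_lit 257, nat_lit 136616, nat_lit 200, nat_lit 48324545, nat_lit 0, nat_lit 0, nat_lit 2958787, true, true⟩,
 nat_lit 0, nat_lit 4652, nat_lit 0, nat_lit 1035, nat_lit 3488, nat_lit 3334, nat_lit 187, nat_lit 0, nat_lit 0, nat_lit 286, nat_lit 0, nat_lit 0, nat_lit 0, nat_lit 0, nat_lit 0, nat_lit 267200, nat_lit 0, nat_lit 0, [(nat_lit 19, [(nat_lit 4, nat_lit 64), (nat_lit 5, nat_lit 628)])],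
 ⟨p075_k14, nat_lit 0, nat_lit 0, nat_lit 319, nat_lit 0, nat_lit 289416, [nat_lit 1306320001, nat_lit 1158172800, nat_lit 797211200], [], [nat_lit 22336341529, nat_lit 23454312967, nat_lit 25569339223, nat_lit 26768059584, nat_lit 21868457209, nat_lit 22627275289, nat_lit 24100405497, nat_lit 24759796802], nat_lit 1271250, nat_lit 1271250, nat_lit 1271250, nat_lit 1271250, nat_lit 0, nat_lit 1100001, [nat_lit 490000, nat_lit 1100000, nat_lit 2127500], [nat_lit 27, nat_lit 40, nat_lit 40, nat_lit 80, nat_lit 13, nat_lit 345, nat_lit 125, nat_lit 9]⟩, ⟨p075_k24, nat_lit 0, nat_lit 0, nat_lit 402, nat_lit 0, nat_lit 0, [nat_lit 2454144000, nat_lit 3656576000, nat_lit 5051200000], [], [nat_lit 11893055894, nat_lit 11916957466, nat_lit 13349048350, nat_lit 13305451818, nat_lit 10798379758, nat_lit 10693391632, nat_lit 11292093760, nat_lit 11206870768], nat_lit 0, nat_lit 0, nat_lit 0, nat_lit 0, nat_lit 0, nat_lit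 0, [], [nat_lit 97, nat_lit 40, nat_lit 40, nat_lit 80, nat_lit 76, nat_lit 456, nat_lit 225, nat_lit 10]⟩,
 ⟨nat_lit 3872, nat_lit 4473, ⟨.ofNat (nat_lit 546410), .ofNat (nat_lit 682366), .ofNat (nat_lit 567977), .ofNat (nat_lit 703933), .ofNat (nat_lit 542727), .ofNat (nat_lit 671770), .ofNat (nat_lit 564520), .ofNat (nat_lit 693563)⟩, ⟨.negSucc (nat_lit 12427), .ofNat (nat_lit 259489), .ofNat (nat_lit 0), .ofNat (nat_lit 302621), .ofNat (nat_lit 0), .ofNat (nat_lit 261131), .ofNat (nat_lit 0), .ofNat (nat_lit 304717)⟩⟩, [⟨nat_lit 22, nat_lit 100, nat_lit 95, nat_lit 87, nat_lit 37816151⟩]⟩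
noncomputable def p075_l99 : Lf2 := ⟨nat_lit 0, nat_lit 20, [nat_lit 5, nat_lit 5, nat_lit 5, nat_lit 20], false, nat_lit 0, nat_lit 160, nat_lit 0, nat_lit 336, ⟨nat_lit 1000, nat_lit 0, nat_lit 0, nat_lit 0, nat_lit 0, nat_lit 0, nat_lit 0, nat_lit 0, nat_lit 0, nat_lit 0, nat_lit 0, nat_lit 0, nat_lit 0, nat_lit 0, nat_lit 0, nat_lit 0, false, false⟩,
 nat_lit 0, nat_lit 8968, nat_lit 0, nat_lit 3580, nat_lit 6725, nat_lit 12686, nat_lit 605, nat_lit 0, nat_lit 0, nat_lit 1022, nat_lit 0, nat_lit 0, nat_lit 0, nat_lit 0, nat_lit 0, nat_lit 0, nat_lit 0, nat_lit 0, [],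
 ⟨p075_k14, nat_lit 0, nat_lit 0, nat_lit 325, nat_lit 0, nat_lit 289416, [nat_lit 2032000001, nat_lit 4688000000, nat_lit 9842000000], [], [nat_lit 32622662225, nat_lit 33916546800, nat_lit 35871998500, nat_lit 37568350850, nat_lit 27328477425, nat_lit 28111826025, nat_lit 29212574325, nat_lit 30201139000], nat_lit 1271250, nat_lit 1271250, nat_lit 1271250, nat_lit 1271250, nat_lit 0, nat_lit 1100001, [nat_lit 490000, nat_lit 1100000, nat_lit 2127500], [nat_lit 27, nat_lit 40, nat_lit 40, nat_lit 80, nat_lit 13, nat_lit 249, nat_lit 40, nat_lit 6]⟩, ⟨p075_k15, nat_lit 0, nat_lit 0, nat_lit 408, nat_lit 0, nat_lit 0, [nat_lit 7968000000, nat_lit 11872000000, nat_lit 16400000000], [], [nat_lit 46053377884, nat_lit 45568850964, nat_lit 49754522460, nat_lit 48977932252, nat_lit 35318188517, nat_lit 34749640129, nat_lit 37953817397, nat_lit 37163368485], nat_lit 0, nat_lit 0, nat_lit 0, nat_lit 0, nat_lit 0, nat_lit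 0, [], [nat_lit 97, nat_lit 40, nat_lit 40, nat_lit 80, nat_lit 76, nat_lit 456, nat_lit 225, nat_lit 9]⟩,
 zbF0, [⟨nat_lit 13, nat_lit 73, nat_lit 85, nat_lit 100, nat_lit 560125955⟩, ⟨nat_lit 22, nat_lit 72, nat_lit 100, nat_lit 81, nat_lit 48598609⟩]⟩
noncomputable def p075_l100 : Lf2 := ⟨nat_lit 0, nat_lit 15, [nat_lit 30, nat_lit 5, nat_lit 5, nat_lit 20], true, nat_lit 160, nat_lit 232, nat_lit 0, nat_lit 368, ⟨nat_lit 0, nat_lit 515, nat_lit 485, nat_lit 6, nat_lit 249, nat_lit 1000, nat_lit 132, nat_lit 485, nat_lit 163350, nat_lit 314, nat_lit 188652, nat_lit 200, nat_lit 42881803, nat_lit 17636544, nat_lit 6481653, nat_lit 4611450, false, true⟩,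
 nat_lit 0, nat_lit 4057, nat_lit 0, nat_lit 0, nat_lit 3042, nat_lit 0, nat_lit 0, nat_lit 0, nat_lit 0, nat_lit 0, nat_lit 0, nat_lit 0, nat_lit 0, nat_lit 0, nat_lit 17, nat_lit 400000, nat_lit 0, nat_lit 0, [(nat_lit 19, [(nat_lit 1, nat_lit 515), (nat_lit 5, nat_lit 485)])],
 ⟨p075_k19, nat_lit 0, nat_lit 0, nat_lit 165, nat_lit 0, nat_lit 253180, [nat_lit 1306506667, nat_lit 1212446000, nat_lit 43870000], [], [nat_lit 20908167907, nat_lit 21864607923, nat_lit 24900914648, nat_lit 25707121731, nat_lit 22535394043, nat_lit 23392106683, nat_lit 26242080875, nat_lit 27151087756], nat_lit 1271250, nat_lit 1271250, nat_lit 1271250, nat_lit 1271250, nat_lit 1100001, nat_lit 1716500, [nat_lit 490000, nat_lit 1100000, nat_lit 1785000], [nat_lit 34, nat_lit 40, nat_lit 40, nat_lit 80, nat_lit 7, nat_lit 272, nat_lit 60, nat_lit 8]⟩, C1.Rw.none,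
 ⟨nat_lit 3872, nat_lit 4473, ⟨.ofNat (nat_lit 524844), .ofNat (nat_lit 708385), .ofNat (nat_lit 546410), .ofNat (nat_lit 729951), .ofNat (nat_lit 520934), .ofNat (nat_lit 695142), .ofNat (nat_lit 542727), .ofNat (nat_lit 716935)⟩, ⟨.ofNat (nat_lit 259489), .ofNat (nat_lit 381849), .ofNat (nat_lit 281055), .ofNat (nat_lit 403416), .ofNat (nat_lit 261131), .ofNat (nat_lit 377270), .ofNat (nat_lit 282924), .ofNat (nat_lit 399063)⟩⟩, [⟨nat_lit 13, nat_lit 77, nat_lit 77, nat_lit 100, nat_lit 228831808⟩, ⟨nat_lit 4, nat_lit 100, nat_lit 76, nat_lit 66, nat_lit 184688476⟩]⟩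
noncomputable def p075_l101 : Lf2 := ⟨nat_lit 0, nat_lit 15, [nat_lit 30, nat_lit 5, nat_lit 5, nat_lit 20], false, nat_lit 160, nat_lit 232, nat_lit 0, nat_lit 360, ⟨nat_lit 684, nat_lit 0, nat_lit 316, nat_lit 6, nat_lit 262, nat_lit 316, nat_lit 132, nat_lit 316, nat_lit 163350, nat_lit 314, nat_lit 272572, nat_lit 200, nat_lit 41784501, nat_lit 0, nat_lit 0, nat_lit 4675214, true, true⟩,
 nat_lit 0, nat_lit 6830, nat_lit 0, nat_lit 0, nat_lit 5122, nat_lit 8159, nat_lit 99, nat_lit 0, nat_lit 0, nat_lit 582, nat_lit 0, nat_lit 0, nat_lit 0, nat_lit 0, nat_lit 0, nat_lit 316000, nat_lit 0, nat_lit 0, [(nat_lit 19, [(nat_lit 6, nat_lit 316)])],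
 ⟨p075_k19, nat_lit 0, nat_lit 0, nat_lit 177, nat_lit 0, nat_lit 285292, [nat_lit 1723415467, nat_lit 2909425600, nat_lit 3282984000], [], [nat_lit 22473408127, nat_lit 23557713843, nat_lit 27534684959, nat_lit 28521515600, nat_lit 23874311357, nat_lit 24829638710, nat_lit 28574221339, nat_lit 29687178169], nat_lit 1271250, nat_lit 1271250, nat_lit 1271250, nat_lit 1271250, nat_lit 1100001, nat_lit 1716500, [nat_lit 490000, nat_lit 1100000, nat_lit 1785000], [nat_lit 34, nat_lit 40, nat_lit 40, nat_lit 80, nat_lit 7, nat_lit 272, nat_lit 60, nat_lit 8]⟩, ⟨p075_k25, nat_lit 0, nat_lit 0, nat_lit 310, nat_lit 0, nat_lit 0, [nat_lit 5450112000, nat_lit 8120448000, nat_lit 9615672000], [], [nat_lit 24509525966, nat_lit 24707572220, nat_lit 31575147810, nat_lit 31459871180, nat_lit 22954807900, nat_lit 22777807476, nat_lit 25876378906, nat_lit 25758342712], nat_lit 0, nat_lit 0, nat_lit 0, nat_lit 0, nat_lit 0,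 nat_lit 0, [], [nat_lit 62, nat_lit 40, nat_lit 40, nat_lit 80, nat_lit 58, nat_lit 483, nat_lit 250, nat_lit 11]⟩,
 ⟨nat_lit 3872, nat_lit 4473, ⟨.ofNat (nat_lit 546410), .ofNat (nat_lit 750345), .ofNat (nat_lit 567977), .ofNat (nat_lit 771911), .ofNat (nat_lit 542727), .ofNat (nat_lit 736292), .ofNat (nat_lit 564520), .ofNat (nat_lit 758085)⟩, ⟨.ofNat (nat_lit 259489), .ofNat (nat_lit 381849), .ofNat (nat_lit 281055), .ofNat (nat_lit 403416), .ofNat (nat_lit 261131), .ofNat (nat_lit 377270), .ofNat (nat_lit 282924), .ofNat (nat_lit 399063)⟩⟩, [⟨nat_lit 4, nat_lit 100, nat_lit 76, nat_lit 66, nat_lit 432486312⟩, ⟨nat_lit 7, nat_lit 72, nat_lit 100, nat_lit 66, nat_lit 82357635⟩]⟩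
noncomputable def p075_l102 : Lf2 := ⟨nat_lit 1, nat_lit 15, [nat_lit 30, nat_lit 5, nat_lit 5, nat_lit 20], false, nat_lit 160, nat_lit 232, nat_lit 0, nat_lit 368, zbN0,
 nat_lit 0, nat_lit 0, nat_lit 0, nat_lit 0, nat_lit 0, nat_lit 0, nat_lit 0, nat_lit 0, nat_lit 0, nat_lit 0, nat_lit 0, nat_lit 0, nat_lit 0, nat_lit 0, nat_lit 0, nat_lit 0, nat_lit 0, nat_lit 0, [],
 C1.Rw.none, C1.Rw.none,
 zbF0, []⟩
noncomputable def p075_l103 : Lf2 := ⟨nat_lit 0, nat_lit 15, [nat_lit 30, nat_lit 5, nat_lit 5, nat_lit 20], true, nat_lit 160, nat_lit 260, nat_lit 0, nat_lit 384, ⟨nat_lit 0, nat_lit 1000, nat_lit 0, nat_lit 6, nat_lit 258, nat_lit 1000, nat_lit 151, nat_lit 0, nat_lit 0, nat_lit 0, nat_lit 0, nat_lit 0, nat_lit 41074548, nat_lit 18216300, nat_lit 7709152, nat_lit 4841423, false, true⟩,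
 nat_lit 0, nat_lit 4966, nat_lit 0, nat_lit 455, nat_lit 3724, nat_lit 0, nat_lit 0, nat_lit 0, nat_lit 0, nat_lit 0, nat_lit 0, nat_lit 0, nat_lit 0, nat_lit 0, nat_lit 0, nat_lit 250000, nat_lit 0, nat_lit 0, [(nat_lit 19, [(nat_lit 0, nat_lit 1000)])],
 ⟨p075_k19, nat_lit 0, nat_lit 0, nat_lit 73, nat_lit 0, nat_lit 38512, [nat_lit 1542400001, nat_lit 2190400000, nat_lit 2901600000], [], [nat_lit 20627809825, nat_lit 21222073269, nat_lit 26235101904, nat_lit 26710386828, nat_lit 23505729469, nat_lit 24004818239, nat_lit 28271808436, nat_lit 28674179284], nat_lit 1271250, nat_lit 1271250, nat_lit 1271250, nat_lit 1271250, nat_lit 1100001, nat_lit 1956250, [nat_lit 490000, nat_lit 1100000, nat_lit 1785000], [nat_lit 34, nat_lit 40, nat_lit 40, nat_lit 80, nat_lit 7, nat_lit 289, nat_lit 75, nat_lit 8]⟩, C1.Rw.none,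
 ⟨nat_lit 4183, nat_lit 4473, ⟨.ofNat (nat_lit 524844), .ofNat (nat_lit 728778), .ofNat (nat_lit 567977), .ofNat (nat_lit 771911), .ofNat (nat_lit 522921), .ofNat (nat_lit 721688), .ofNat (nat_lit 566254), .ofNat (nat_lit 765021)⟩, ⟨.ofNat (nat_lit 281055), .ofNat (nat_lit 451000), .ofNat (nat_lit 302621), .ofNat (nat_lit 472567), .ofNat (nat_lit 282076), .ofNat (nat_lit 447715), .ofNat (nat_lit 303743), .ofNat (nat_lit 469382)⟩⟩, [⟨nat_lit 13, nat_lit 78, nat_lit 70, nat_lit 100, nat_lit 201824997⟩, ⟨nat_lit 4, nat_lit 100, nat_lit 79, nat_lit 77, nat_lit 134397631⟩]⟩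
noncomputable def p075_l104 : Lf2 := ⟨nat_lit 0, nat_lit 15, [nat_lit 30, nat_lit 5, nat_lit 5, nat_lit 20], true, nat_lit 160, nat_lit 244, nat_lit 0, nat_lit 384, ⟨nat_lit 0, nat_lit 1000, nat_lit 0, nat_lit 6, nat_lit 254, nat_lit 1000, nat_lit 145, nat_lit 0, nat_lit 0, nat_lit 0, nat_lit 0, nat_lit 0, nat_lit 41762034, nat_lit 17901756, nat_lit 7336210, nat_lit 4765044, false, true⟩,
 nat_lit 0, nat_lit 4425, nat_lit 0, nat_lit 0, nat_lit 3449, nat_lit 0, nat_lit 307, nat_lit 0, nat_lit 0, nat_lit 0, nat_lit 0, nat_lit 0, nat_lit 0, nat_lit 0, nat_lit 0, nat_lit 264700, nat_lit 0, nat_lit 0, [(nat_lit 19, [(nat_lit 0, nat_lit 902), (nat_lit 1, nat_lit 98)])],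
 ⟨p075_k20, nat_lit 0, nat_lit 0, nat_lit 132, nat_lit 0, nat_lit 131918, [nat_lit 1528261867, nat_lit 2171348800, nat_lit 2804613867], [], [nat_lit 21925678540, nat_lit 22428328316, nat_lit 26131135234, nat_lit 26526969845, nat_lit 23792524623, nat_lit 24231571752, nat_lit 27595252302, nat_lit 27988236190], nat_lit 1271250, nat_lit 1271250, nat_lit 1271250, nat_lit 1271250, nat_lit 1100001, nat_lit 1819250, [nat_lit 490000, nat_lit 1100000, nat_lit 1785000], [nat_lit 34, nat_lit 40, nat_lit 40, nat_lit 80, nat_lit 7, nat_lit 289, nat_lit 75, nat_lit 8]⟩, C1.Rw.none,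
 ⟨nat_lit 3872, nat_lit 4184, ⟨.ofNat (nat_lit 522921), .ofNat (nat_lit 708436), .ofNat (nat_lit 566254), .ofNat (nat_lit 751770), .ofNat (nat_lit 520934), .ofNat (nat_lit 701594), .ofNat (nat_lit 564520), .ofNat (nat_lit 745180)⟩, ⟨.ofNat (nat_lit 282076), .ofNat (nat_lit 421213), .ofNat (nat_lit 303743), .ofNat (nat_lit 442879), .ofNat (nat_lit 282924), .ofNat (nat_lit 418419), .ofNat (nat_lit 304717), .ofNat (nat_lit 440213)⟩⟩, [⟨nat_lit 13, nat_lit 74, nat_lit 75, nat_lit 100, nat_lit 182614980⟩, ⟨nat_lit 4, nat_lit 100, nat_lit 74, nat_lit 77, nat_lit 133160133⟩]⟩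
noncomputable def p075_l105 : Lf2 := ⟨nat_lit 1, nat_lit 20, [nat_lit 5, nat_lit 5, nat_lit 5, nat_lit 20], false, nat_lit 160, nat_lit 260, nat_lit 0, nat_lit 384, zbN0,
 nat_lit 0, nat_lit 0, nat_lit 0, nat_lit 0, nat_lit 0, nat_lit 0, nat_lit 0, nat_lit 0, nat_lit 0, nat_lit 0, nat_lit 0, nat_lit 0, nat_lit 0, nat_lit 0, nat_lit 0, nat_lit 0, nat_lit 0, nat_lit 0, [],
 C1.Rw.none, C1.Rw.none,
 zbF0, []⟩
noncomputable def p075_l106 : Lf2 := ⟨nat_lit 0, nat_lit 20, [nat_lit 5, nat_lit 5, nat_lit 5, nat_lit 20], false, nat_lit 0, nat_lit 80, nat_lit 0, nat_lit 336, ⟨nat_lit 349, nat_lit 0, nat_lit 651, nat_lit 6, nat_lit 249, nat_lit 651, nat_lit 32, nat_lit 651, nat_lit 9600, nat_lit 239, nat_lit 193302, nat_lit 200, nat_lit 48295838, nat_lit 0, nat_lit 0, nat_lit 2960821, false, true⟩,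
 nat_lit 0, nat_lit 3909, nat_lit 0, nat_lit 0, nat_lit 3164, nat_lit 3057, nat_lit 0, nat_lit 0, nat_lit 0, nat_lit 299, nat_lit 0, nat_lit 0, nat_lit 0, nat_lit 0, nat_lit 0, nat_lit 289200, nat_lit 0, nat_lit 0, [(nat_lit 22, [(nat_lit 5, nat_lit 603), (nat_lit 6, nat_lit 48)])],
 ⟨p075_k22, nat_lit 0, nat_lit 0, nat_lit 363, nat_lit 0, nat_lit 458639, [nat_lit 1334022400, nat_lit 1036246400, nat_lit 202664400], [], [nat_lit 24773083056, nat_lit 25561332704, nat_lit 27815158335, nat_lit 28752278925, nat_lit 24120046080, nat_lit 24863073904, nat_lit 27002896228, nat_lit 27638773594], nat_lit 1271250, nat_lit 1271250, nat_lit 1271250, nat_lit 1271250, nat_lit 0, nat_lit 490000, [nat_lit 490000, nat_lit 1100000, nat_lit 1785000], [nat_lit 34, nat_lit 40, nat_lit 40, nat_lit 80, nat_lit 7, nat_lit 226, nat_lit 20, nat_lit 7]⟩, ⟨p075_k15, nat_lit 0, nat_lit 0, nat_lit 409, nat_lit 0, nat_lit 0, [nat_lit 2780832000,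 nat_lit 4143328000, nat_lit 5723600000], [], [nat_lit 13688388826, nat_lit 13717998582, nat_lit 15533837401, nat_lit 15468583877, nat_lit 12307416594, nat_lit 12273692869, nat_lit 13377652436, nat_lit 13225901618], nat_lit 0, nat_lit 0, nat_lit 0, nat_lit 0, nat_lit 0, nat_lit 0, [], [nat_lit 97, nat_lit 40, nat_lit 40, nat_lit 80, nat_lit 76, nat_lit 456, nat_lit 225, nat_lit 10]⟩,
 ⟨nat_lit 3162, nat_lit 3873, ⟨.ofNat (nat_lit 520934), .ofNat (nat_lit 688690), .ofNat (nat_lit 564520), .ofNat (nat_lit 732276), .ofNat (nat_lit 516642), .ofNat (nat_lit 675121), .ofNat (nat_lit 560952), .ofNat (nat_lit 719431)⟩, ⟨.ofNat (nat_lit 0), .ofNat (nat_lit 132088), .ofNat (nat_lit 0), .ofNat (nat_lit 175674), .ofNat (nat_lit 0), .ofNat (nat_lit 139899), .ofNat (nat_lit 0), .ofNat (nat_lit 184209)⟩⟩, [⟨nat_lit 13, nat_lit 61, nat_lit 92, nat_lit 100, nat_lit 12685585⟩, ⟨nat_lit 22, nat_lit 90, nat_lit 100, nat_lit 61,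 nat_lit 59441761⟩]⟩
noncomputable def p075_l107 : Lf2 := ⟨nat_lit 0, nat_lit 20, [nat_lit 5, nat_lit 5, nat_lit 5, nat_lit 20], false, nat_lit 80, nat_lit 232, nat_lit 0, nat_lit 160, ⟨nat_lit 1000, nat_lit 0, nat_lit 0, nat_lit 0, nat_lit 0, nat_lit 0, nat_lit 0, nat_lit 0, nat_lit 0, nat_lit 0, nat_lit 0, nat_lit 0, nat_lit 0, nat_lit 0, nat_lit 0, nat_lit 0, false, false⟩,
 nat_lit 0, nat_lit 7315, nat_lit 0, nat_lit 0, nat_lit 5921, nat_lit 9194, nat_lit 458, nat_lit 0, nat_lit 0, nat_lit 1177, nat_lit 0, nat_lit 0, nat_lit 0, nat_lit 0, nat_lit 0, nat_lit 0, nat_lit 0, nat_lit 0, [],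
 ⟨p075_k22, nat_lit 0, nat_lit 0, nat_lit 286, nat_lit 0, nat_lit 458639, [nat_lit 2032000001, nat_lit 4688000000, nat_lit 7968000000], [], [nat_lit 24986410322, nat_lit 26079042728, nat_lit 29510841961, nat_lit 30691695795, nat_lit 25730838253, nat_lit 26592145197, nat_lit 29512731943, nat_lit 30681144142], nat_lit 1271250, nat_lit 1271250, nat_lit 1271250, nat_lit 1271250, nat_lit 490000, nat_lit 1677500, [nat_lit 490000, nat_lit 1100000, nat_lit 1785000], [nat_lit 34, nat_lit 40, nat_lit 40, nat_lit 80, nat_lit 7, nat_lit 272, nat_lit 60, nat_lit 8]⟩, ⟨p075_k15, nat_lit 0, nat_lit 0, nat_lit 409, nat_lit 0, nat_lit 0, [nat_lit 7968000000, nat_lit 11872000000, nat_lit 16400000000], [], [nat_lit 35883012418, nat_lit 36158829688, nat_lit 41908470289, nat_lit 41974589282, nat_lit 29176368504, nat_lit 29618586672, nat_lit 34410253210, nat_lit 34408331420], nat_lit 0, nat_lit 0, nat_lit 0, nat_lit 0, nat_lit 0,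 nat_lit 0, [], [nat_lit 97, nat_lit 40, nat_lit 40, nat_lit 80, nat_lit 76, nat_lit 428, nat_lit 200, nat_lit 9]⟩,
 zbF0, [⟨nat_lit 4, nat_lit 100, nat_lit 66, nat_lit 72, nat_lit 387187543⟩, ⟨nat_lit 9, nat_lit 100, nat_lit 91, nat_lit 26, nat_lit 69261823⟩]⟩
noncomputable def p075_l108 : Lf2 := ⟨nat_lit 0, nat_lit 15, [nat_lit 30, nat_lit 5, nat_lit 5, nat_lit 20], false, nat_lit 80, nat_lit 208, nat_lit 160, nat_lit 368, ⟨nat_lit 274, nat_lit 0, nat_lit 726, nat_lit 6, nat_lit 241, nat_lit 726, nat_lit 99, nat_lit 726, nat_lit 91267, nat_lit 289, nat_lit 111002, nat_lit 200, nat_lit 45492658, nat_lit 0, nat_lit 0, nat_lit 4173527, false, true⟩,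
 nat_lit 0, nat_lit 3756, nat_lit 0, nat_lit 0, nat_lit 3040, nat_lit 3735, nat_lit 0, nat_lit 0, nat_lit 0, nat_lit 262, nat_lit 0, nat_lit 0, nat_lit 0, nat_lit 0, nat_lit 37, nat_lit 343200, nat_lit 0, nat_lit 0, [(nat_lit 22, [(nat_lit 5, nat_lit 638), (nat_lit 6, nat_lit 88)])],
 ⟨p075_k26, nat_lit 0, nat_lit 0, nat_lit 276, nat_lit 0, nat_lit 432452, [nat_lit 1542054401, nat_lit 1153750401, nat_lit 24959733], [], [nat_lit 21726437016, nat_lit 22594116856, nat_lit 24801997169, nat_lit 25646695088, nat_lit 23354955353, nat_lit 24149725305, nat_lit 26281445120, nat_lit 27102331950], nat_lit 1271250, nat_lit 1271250, nat_lit 1271250, nat_lit 1271250, nat_lit 490000, nat_lit 1490000, [nat_lit 490000, nat_lit 1100000, nat_lit 1785000], [nat_lit 34, nat_lit 40, nat_lit 40, nat_lit 80, nat_lit 7, nat_lit 272, nat_lit 60, nat_lit 8]⟩, ⟨p075_k15, nat_lit 0, nat_lit 0, nat_lit 201, nat_lit 0, nat_lit 0, [nat_lit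 2183232000, nat_lit 3252928000, nat_lit 4493600000], [], [nat_lit 7659557536, nat_lit 7652309420, nat_lit 9223152153, nat_lit 9140127740, nat_lit 9852101138, nat_lit 9710444685, nat_lit 10467904012, nat_lit 10336365269], nat_lit 0, nat_lit 0, nat_lit 0, nat_lit 0, nat_lit 0, nat_lit 0, [], [nat_lit 97, nat_lit 40, nat_lit 40, nat_lit 80, nat_lit 76, nat_lit 456, nat_lit 225, nat_lit 9]⟩,
 ⟨nat_lit 3162, nat_lit 3873, ⟨.ofNat (nat_lit 520934), .ofNat (nat_lit 669333), .ofNat (nat_lit 542727), .ofNat (nat_lit 691126), .ofNat (nat_lit 516642), .ofNat (nat_lit 656835), .ofNat (nat_lit 538797), .ofNat (nat_lit 678990)⟩, ⟨.ofNat (nat_lit 132088), .ofNat (nat_lit 338557), .ofNat (nat_lit 153881), .ofNat (nat_lit 360350), .ofNat (nat_lit 139899), .ofNat (nat_lit 334950), .ofNat (nat_lit 162054), .ofNat (nat_lit 357105)⟩⟩, [⟨nat_lit 13, nat_lit 61, nat_lit 92, nat_lit 100, nat_lit 39355695⟩, ⟨nat_lit 4, nat_lit 100,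 nat_lit 67, nat_lit 67, nat_lit 369597727⟩, ⟨nat_lit 22, nat_lit 94, nat_lit 69, nat_lit 100, nat_lit 99347833⟩]⟩
noncomputable def p075_l109 : Lf2 := ⟨nat_lit 0, nat_lit 20, [nat_lit 5, nat_lit 5, nat_lit 5, nat_lit 20], true, nat_lit 80, nat_lit 232, nat_lit 160, nat_lit 384, ⟨nat_lit 0, nat_lit 703, nat_lit 297, nat_lit 6, nat_lit 241, nat_lit 1000, nat_lit 115, nat_lit 297, nat_lit 123267, nat_lit 301, nat_lit 111002, nat_lit 200, nat_lit 44600100, nat_lit 17043585, nat_lit 5356315, nat_lit 4370960, false, true⟩,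
 nat_lit 0, nat_lit 3813, nat_lit 0, nat_lit 0, nat_lit 3086, nat_lit 0, nat_lit 0, nat_lit 0, nat_lit 0, nat_lit 0, nat_lit 0, nat_lit 0, nat_lit 0, nat_lit 0, nat_lit 14, nat_lit 428200, nat_lit 0, nat_lit 0, [(nat_lit 22, [(nat_lit 1, nat_lit 703), (nat_lit 5, nat_lit 250), (nat_lit 6, nat_lit 47)])],
 ⟨p075_k22, nat_lit 0, nat_lit 0, nat_lit 220, nat_lit 0, nat_lit 297644, [nat_lit 1346524801, nat_lit 1004184801, nat_lit 29496267], [], [nat_lit 21835201353, nat_lit 22743327117, nat_lit 24882014030, nat_lit 25712741300, nat_lit 23828543596, nat_lit 24578745744, nat_lit 26632177994, nat_lit 27400703687], nat_lit 1271250, nat_lit 1271250, nat_lit 1271250, nat_lit 1271250, nat_lit 490000, nat_lit 1677500, [nat_lit 490000, nat_lit 1100000, nat_lit 1785000], [nat_lit 34, nat_lit 40, nat_lit 40, nat_lit 80, nat_lit 7, nat_lit 272, nat_lit 60, nat_lit 8]⟩, C1.Rw.none,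
 ⟨nat_lit 3162, nat_lit 3873, ⟨.ofNat (nat_lit 520934), .ofNat (nat_lit 669333), .ofNat (nat_lit 542727), .ofNat (nat_lit 691126), .ofNat (nat_lit 516642), .ofNat (nat_lit 656835), .ofNat (nat_lit 538797), .ofNat (nat_lit 678990)⟩, ⟨.ofNat (nat_lit 153881), .ofNat (nat_lit 399063), .ofNat (nat_lit 175674), .ofNat (nat_lit 420856), .ofNat (nat_lit 162054), .ofNat (nat_lit 393677), .ofNat (nat_lit 184209), .ofNat (nat_lit 415832)⟩⟩, [⟨nat_lit 13, nat_lit 67, nat_lit 85, nat_lit 100, nat_lit 48808956⟩, ⟨nat_lit 13, nat_lit 61, nat_lit 92, nat_lit 100, nat_lit 200643147⟩, ⟨nat_lit 4, nat_lit 100, nat_lit 66, nat_lit 76, nat_lit 92645794⟩]⟩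
noncomputable def p075_l110 : Lf2 := ⟨nat_lit 0, nat_lit 20, [nat_lit 5, nat_lit 5, nat_lit 5, nat_lit 20], false, nat_lit 80, nat_lit 232, nat_lit 160, nat_lit 372, ⟨nat_lit 1000, nat_lit 0, nat_lit 0, nat_lit 0, nat_lit 0, nat_lit 0, nat_lit 0, nat_lit 0, nat_lit 0, nat_lit 0, nat_lit 0, nat_lit 0, nat_lit 0, nat_lit 0, nat_lit 0, nat_lit 0, false, false⟩,
 nat_lit 0, nat_lit 6835, nat_lit 0, nat_lit 0, nat_lit 5533, nat_lit 8828, nat_lit 618, nat_lit 0, nat_lit 0, nat_lit 0, nat_lit 0, nat_lit 0, nat_lit 0, nat_lit 0, nat_lit 0, nat_lit 0, nat_lit 0, nat_lit 0, [],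
 ⟨p075_k22, nat_lit 0, nat_lit 0, nat_lit 286, nat_lit 0, nat_lit 458639, [nat_lit 2032000001, nat_lit 4688000000, nat_lit 7968000000], [], [nat_lit 23729446106, nat_lit 24785883544, nat_lit 28561540762, nat_lit 30101196112, nat_lit 24618004397, nat_lit 25453656510, nat_lit 29091572052, nat_lit 30306559227], nat_lit 1271250, nat_lit 1271250, nat_lit 1271250, nat_lit 1271250, nat_lit 490000, nat_lit 1677500, [nat_lit 490000, nat_lit 1100000, nat_lit 1785000], [nat_lit 34, nat_lit 40, nat_lit 40, nat_lit 80, nat_lit 7, nat_lit 272, nat_lit 60, nat_lit 8]⟩, ⟨p075_k24, nat_lit 0, nat_lit 0, nat_lit 131, nat_lit 0, nat_lit 0, [nat_lit 7968000000, nat_lit 11872000000, nat_lit 16400000000], [], [nat_lit 15228285656, nat_lit 15980930640, nat_lit 24437210655, nat_lit 24799960106, nat_lit 28920629275, nat_lit 29052983290, nat_lit 34076647376, nat_lit 34075454393], nat_lit 0, nat_lit 0, nat_lit 0, nat_lit 0, nat_lit 0,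 nat_lit 0, [], [nat_lit 97, nat_lit 40, nat_lit 40, nat_lit 80, nat_lit 76, nat_lit 483, nat_lit 250, nat_lit 10]⟩,
 zbF0, [⟨nat_lit 4, nat_lit 100, nat_lit 66, nat_lit 72, nat_lit 400462770⟩, ⟨nat_lit 19, nat_lit 100, nat_lit 52, nat_lit 80, nat_lit 580662018⟩]⟩
noncomputable def b_V_800_400_10_7 : St := ⟨true, nat_lit 1, nat_lit 0, nat_lit 1, nat_lit 80, nat_lit 320, nat_lit 360, nat_lit 160, nat_lit 200, nat_lit 16, nat_lit 360, nat_lit 40, nat_lit 80, nat_lit 0, nat_lit 260, nat_lit 0, nat_lit 384, nat_lit 40, nat_lit 80, nat_lit 0, nat_lit 0, nat_lit 0, nat_lit 0⟩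
theorem d_V_800_400_10_7 (h : EB TB.env) : Dead b_V_800_400_10_7 := chkB_sound0 h (T :=
(.spl (nat_lit 2) (nat_lit 120)
(.spl (nat_lit 0) (nat_lit 340)
(.leaf p075_l92)
(.trZ (nat_lit 0) (nat_lit 100) (nat_lit 73) (nat_lit 55) (nat_lit 32) (.trX (nat_lit 16) (nat_lit 72) (nat_lit 100) (nat_lit 81) (nat_lit 232) (.leaf p075_l93))))
(.spl (nat_lit 2) (nat_lit 240)
(.spl (nat_lit 4) (nat_lit 160)
(.spl (nat_lit 0) (nat_lit 340)
(.leaf p075_l94)
(.leaf p075_l95))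
(.leaf p075_l96))
(.spl (nat_lit 0) (nat_lit 340)
(.spl (nat_lit 4) (nat_lit 160)
(.spl (nat_lit 2) (nat_lit 320)
(.spl (nat_lit 1) (nat_lit 180)
(.leaf p075_l97)
(.trX (nat_lit 19) (nat_lit 100) (nat_lit 52) (nat_lit 80) (nat_lit 372) (.leaf p075_l98)))
(.trX (nat_lit 22) (nat_lit 82) (nat_lit 76) (nat_lit 100) (nat_lit 336) (.leaf p075_l99)))
(.spl (nat_lit 3) (nat_lit 60)
(.trX (nat_lit 16) (nat_lit 81) (nat_lit 100) (nat_lit 72) (nat_lit 232) (.trX (nat_lit 19) (nat_lit 100) (nat_lit 55) (nat_lit 73) (nat_lit 368) (.spl (nat_lit 6) (nat_lit 72)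
(.spl (nat_lit 1) (nat_lit 180)
(.trX (nat_lit 13) (nat_lit 80) (nat_lit 68) (nat_lit 100) (nat_lit 348) (.leaf p075_l100))
(.trX (nat_lit 19) (nat_lit 100) (nat_lit 63) (nat_lit 72) (nat_lit 360) (.leaf p075_l101)))
(.leaf p075_l102))))
(.spl (nat_lit 6) (nat_lit 60)
(.spl (nat_lit 0) (nat_lit 330)
(.leaf p075_l103)
(.trX (nat_lit 13) (nat_lit 76) (nat_lit 65) (nat_lit 100) (nat_lit 352) (.trX (nat_lit 16) (nat_lit 78) (nat_lit 100) (nat_lit 82) (nat_lit 244) (.leaf p075_l104))))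
(.leaf p075_l105))))
(.trX (nat_lit 13) (nat_lit 71) (nat_lit 70) (nat_lit 100) (nat_lit 344) (.trX (nat_lit 16) (nat_lit 72) (nat_lit 100) (nat_lit 81) (nat_lit 232) (.spl (nat_lit 4) (nat_lit 80)
(.trX (nat_lit 22) (nat_lit 100) (nat_lit 76) (nat_lit 82) (nat_lit 336) (.leaf p075_l106))
(.spl (nat_lit 5) (nat_lit 160)
(.leaf p075_l107)
(.spl (nat_lit 1) (nat_lit 180)
(.trX (nat_lit 13) (nat_lit 72) (nat_lit 77) (nat_lit 100) (nat_lit 332) (.spl (nat_lit 3) (nat_lit 60)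
(.trX (nat_lit 16) (nat_lit 71) (nat_lit 100) (nat_lit 71) (nat_lit 208) (.trX (nat_lit 19) (nat_lit 100) (nat_lit 55) (nat_lit 73) (nat_lit 368) (.leaf p075_l108)))
(.leaf p075_l109)))
(.trX (nat_lit 19) (nat_lit 100) (nat_lit 52) (nat_lit 80) (nat_lit 372) (.leaf p075_l110))))))))))) (by decide +kernel)
noncomputable def p075_l111 : Lf2 := ⟨nat_lit 0, nat_lit 20, [nat_lit 5, nat_lit 5, nat_lit 5, nat_lit 20], false, nat_lit 0, nat_lit 160, nat_lit 0, nat_lit 384, ⟨nat_lit 0, nat_lit 0, nat_lit 1000, nat_lit 4, nat_lit 119, nat_lit 969, nat_lit 57, nat_lit 1000, nat_lit 29400, nat_lit 257, nat_lit 132017, nat_lit 304, nat_lit 61553016, nat_lit 0, nat_lit 0, nat_lit 1409640, false, false⟩,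
 nat_lit 0, nat_lit 3846, nat_lit 0, nat_lit 76, nat_lit 2884, nat_lit 0, nat_lit 0, nat_lit 0, nat_lit 0, nat_lit 0, nat_lit 0, nat_lit 0, nat_lit 0, nat_lit 0, nat_lit 122, nat_lit 379000, nat_lit 0, nat_lit 0, [(nat_lit 19, [(nat_lit 4, nat_lit 140), (nat_lit 5, nat_lit 860)]), (nat_lit 22, [(nat_lit 4, nat_lit 140), (nat_lit 5, nat_lit 860)])],
 ⟨p075_k13, nat_lit 0, nat_lit 0, nat_lit 453, nat_lit 0, nat_lit 343112, [nat_lit 2413904001, nat_lit 246832000], [], [nat_lit 19850106777, nat_lit 21743526840, nat_lit 20229789332, nat_lit 22153648756, nat_lit 20044645902, nat_lit 21949488424, nat_lit 21686161796, nat_lit 22902567189], nat_lit 1271250, nat_lit 1271250, nat_lit 88400, nat_lit 1100001, nat_lit 0, nat_lit 1100001, [nat_lit 490000, nat_lit 2052500], [nat_lit 94, nat_lit 40, nat_lit 40, nat_lit 80, nat_lit 95, nat_lit 317, nat_lit 100, nat_lit 9]⟩, ⟨p075_k27, nat_lit 0, nat_lit 0, nat_lit 1029, nat_lit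 0, nat_lit 1002941, [nat_lit 0, nat_lit 0], [], [nat_lit 0, nat_lit 0, nat_lit 0, nat_lit 0, nat_lit 0, nat_lit 0, nat_lit 0, nat_lit 0], nat_lit 1100001, nat_lit 1442500, nat_lit 88400, nat_lit 1100001, nat_lit 0, nat_lit 2712000, [nat_lit 1695000, nat_lit 1271250], [nat_lit 159, nat_lit 40, nat_lit 40, nat_lit 80, nat_lit 111, nat_lit 428, nat_lit 200, nat_lit 10]⟩,
 ⟨nat_lit 3162, nat_lit 4473, ⟨.ofNat (nat_lit 143971), .ofNat (nat_lit 388887), .ofNat (nat_lit 186943), .ofNat (nat_lit 431944), .ofNat (nat_lit 175109), .ofNat (nat_lit 394735), .ofNat (nat_lit 219258), .ofNat (nat_lit 438969)⟩, ⟨.negSucc (nat_lit 12437), .ofNat (nat_lit 259488), .ofNat (nat_lit 0), .ofNat (nat_lit 302621), .ofNat (nat_lit 0), .ofNat (nat_lit 261805), .ofNat (nat_lit 0), .ofNat (nat_lit 306116)⟩⟩, [⟨nat_lit 0, nat_lit 100, nat_lit 72, nat_lit 63, nat_lit 52702120⟩]⟩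
noncomputable def p075_l112 : Lf2 := ⟨nat_lit 0, nat_lit 20, [nat_lit 5, nat_lit 5, nat_lit 5, nat_lit 20], false, nat_lit 0, nat_lit 160, nat_lit 0, nat_lit 384, ⟨nat_lit 0, nat_lit 106, nat_lit 894, nat_lit 4, nat_lit 191, nat_lit 860, nat_lit 57, nat_lit 894, nat_lit 29400, nat_lit 257, nat_lit 1350, nat_lit 224, nat_lit 54533725, nat_lit 12466275, nat_lit 0, nat_lit 2402322, false, true⟩,
 nat_lit 0, nat_lit 4153, nat_lit 0, nat_lit 0, nat_lit 3114, nat_lit 0, nat_lit 0, nat_lit 0, nat_lit 0, nat_lit 0, nat_lit 0, nat_lit 0, nat_lit 0, nat_lit 0, nat_lit 103, nat_lit 384100, nat_lit 0, nat_lit 0, [(nat_lit 19, [(nat_lit 0, nat_lit 106), (nat_lit 5, nat_lit 894)]), (nat_lit 22, [(nat_lit 0, nat_lit 106), (nat_lit 5, nat_lit 894)])],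
 ⟨p075_k13, nat_lit 0, nat_lit 0, nat_lit 349, nat_lit 0, nat_lit 343112, [nat_lit 2271908001, nat_lit 220816800], [], [nat_lit 19424022067, nat_lit 21530396531, nat_lit 21437643851, nat_lit 23311405412, nat_lit 19618989995, nat_lit 21423366891, nat_lit 23282478379, nat_lit 23465882676], nat_lit 1271250, nat_lit 1271250, nat_lit 1100001, nat_lit 1785000, nat_lit 0, nat_lit 1100001, [nat_lit 490000, nat_lit 2052500], [nat_lit 94, nat_lit 40, nat_lit 40, nat_lit 80, nat_lit 95, nat_lit 317, nat_lit 100, nat_lit 9]⟩, ⟨p075_k27, nat_lit 0, nat_lit 0, nat_lit 901, nat_lit 0, nat_lit 1002941, [nat_lit 0, nat_lit 0], [], [nat_lit 0, nat_lit 0, nat_lit 0, nat_lit 0, nat_lit 0, nat_lit 0, nat_lit 0, nat_lit 0], nat_lit 1100001, nat_lit 1442500, nat_lit 1271250, nat_lit 1271250, nat_lit 0, nat_lit 2712000, [nat_lit 1695000, nat_lit 1271250], [nat_lit 159, nat_lit 40, nat_lit 40, nat_lit 80, nat_lit 111, nat_lit 456, nat_lit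 225, nat_lit 10]⟩,
 ⟨nat_lit 3162, nat_lit 4473, ⟨.ofNat (nat_lit 388887), .ofNat (nat_lit 524844), .ofNat (nat_lit 431944), .ofNat (nat_lit 567977), .ofNat (nat_lit 394735), .ofNat (nat_lit 516642), .ofNat (nat_lit 438969), .ofNat (nat_lit 560952)⟩, ⟨.negSucc (nat_lit 12437), .ofNat (nat_lit 259488), .ofNat (nat_lit 0), .ofNat (nat_lit 302621), .ofNat (nat_lit 0), .ofNat (nat_lit 261805), .ofNat (nat_lit 0), .ofNat (nat_lit 306116)⟩⟩, []⟩
noncomputable def p075_l113 : Lf2 := ⟨nat_lit 0, nat_lit 20, [nat_lit 5, nat_lit 5, nat_lit 5, nat_lit 20], true, nat_lit 0, nat_lit 160, nat_lit 0, nat_lit 384, ⟨nat_lit 0, nat_lit 302, nat_lit 698, nat_lit 6, nat_lit 241, nat_lit 1000, nat_lit 56, nat_lit 698, nat_lit 29400, nat_lit 257, nat_lit 93482, nat_lit 200, nat_lit 49186148, nat_lit 17813852, nat_lit 0, nat_lit 2895579, false, true⟩,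
 nat_lit 0, nat_lit 3416, nat_lit 0, nat_lit 2443, nat_lit 2562, nat_lit 0, nat_lit 72, nat_lit 0, nat_lit 0, nat_lit 0, nat_lit 0, nat_lit 0, nat_lit 0, nat_lit 0, nat_lit 69, nat_lit 400000, nat_lit 0, nat_lit 0, [(nat_lit 19, [(nat_lit 1, nat_lit 302), (nat_lit 5, nat_lit 698)])],
 ⟨p075_k14, nat_lit 0, nat_lit 0, nat_lit 262, nat_lit 0, nat_lit 148418, [nat_lit 1622538667, nat_lit 1416144001, nat_lit 151152000], [], [nat_lit 21043233932, nat_lit 21461884920, nat_lit 23737917550, nat_lit 24131281900, nat_lit 21284883188, nat_lit 21669840066, nat_lit 23820631333, nat_lit 24198878861], nat_lit 1271250, nat_lit 1271250, nat_lit 1271250, nat_lit 1271250, nat_lit 0, nat_lit 1100001, [nat_lit 490000, nat_lit 1100000, nat_lit 2127500], [nat_lit 27, nat_lit 40, nat_lit 40, nat_lit 80, nat_lit 13, nat_lit 345, nat_lit 125, nat_lit 9]⟩, C1.Rw.none,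
 ⟨nat_lit 4183, nat_lit 4473, ⟨.ofNat (nat_lit 524844), .ofNat (nat_lit 660800), .ofNat (nat_lit 546410), .ofNat (nat_lit 682366), .ofNat (nat_lit 522921), .ofNat (nat_lit 655432), .ofNat (nat_lit 544587), .ofNat (nat_lit 677099)⟩, ⟨.negSucc (nat_lit 12423), .ofNat (nat_lit 259489), .ofNat (nat_lit 0), .ofNat (nat_lit 302621), .negSucc (nat_lit 4612), .ofNat (nat_lit 260409), .ofNat (nat_lit 0), .ofNat (nat_lit 303743)⟩⟩, []⟩
noncomputable def p075_l114 : Lf2 := ⟨nat_lit 0, nat_lit 20, [nat_lit 5, nat_lit 5, nat_lit 5, nat_lit 20], false, nat_lit 0, nat_lit 160, nat_lit 0, nat_lit 384, ⟨nat_lit 90, nat_lit 23, nat_lit 887, nat_lit 6, nat_lit 239, nat_lit 910, nat_lit 56, nat_lit 887, nat_lit 29400, nat_lit 257, nat_lit 82948, nat_lit 200, nat_lit 49343788, nat_lit 17656212, nat_lit 0, nat_lit 2883560, false, true⟩,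
 nat_lit 3391, nat_lit 0, nat_lit 0, nat_lit 1727, nat_lit 2643, nat_lit 1130, nat_lit 0, nat_lit 0, nat_lit 0, nat_lit 81, nat_lit 0, nat_lit 0, nat_lit 0, nat_lit 0, nat_lit 82, nat_lit 364000, nat_lit 0, nat_lit 0, [(nat_lit 19, [(nat_lit 1, nat_lit 23), (nat_lit 5, nat_lit 887)])],
 ⟨p075_k28, nat_lit 0, nat_lit 0, nat_lit 286, nat_lit 0, nat_lit 170650, [nat_lit 1694882667, nat_lit 1395472001, nat_lit 257788000], [], [nat_lit 21740850788, nat_lit 22202901398, nat_lit 24467237021, nat_lit 24902105514, nat_lit 21898335732, nat_lit 22299173858, nat_lit 24445544769, nat_lit 24875408702], nat_lit 1271250, nat_lit 1271250, nat_lit 1271250, nat_lit 1271250, nat_lit 0, nat_lit 1100001, [nat_lit 490000, nat_lit 1100000, nat_lit 2127500], [nat_lit 27, nat_lit 40, nat_lit 40, nat_lit 80, nat_lit 13, nat_lit 345, nat_lit 125, nat_lit 9]⟩, ⟨p075_k15, nat_lit 0, nat_lit 0, nat_lit 666, nat_lit 0, nat_lit 523020, [nat_lit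 717120000, nat_lit 1068480000, nat_lit 1476000000], [], [nat_lit 4131098120, nat_lit 4100037840, nat_lit 4279153890, nat_lit 4237241290, nat_lit 4696836792, nat_lit 5037508744, nat_lit 3525484099, nat_lit 3470454906], nat_lit 1100001, nat_lit 1271250, nat_lit 1271250, nat_lit 1271250, nat_lit 0, nat_lit 2712000, [nat_lit 1695000, nat_lit 1271250, nat_lit 1271250], [nat_lit 97, nat_lit 40, nat_lit 40, nat_lit 80, nat_lit 76, nat_lit 456, nat_lit 225, nat_lit 10]⟩,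
 ⟨nat_lit 3872, nat_lit 4184, ⟨.ofNat (nat_lit 522921), .ofNat (nat_lit 655432), .ofNat (nat_lit 544587), .ofNat (nat_lit 677099), .ofNat (nat_lit 520934), .ofNat (nat_lit 649977), .ofNat (nat_lit 542727), .ofNat (nat_lit 671770)⟩, ⟨.negSucc (nat_lit 4619), .ofNat (nat_lit 260409), .ofNat (nat_lit 0), .ofNat (nat_lit 303743), .ofNat (nat_lit 0), .ofNat (nat_lit 261131), .ofNat (nat_lit 0), .ofNat (nat_lit 304717)⟩⟩, [⟨nat_lit 22, nat_lit 100, nat_lit 95, nat_lit 87, nat_lit 9327822⟩]⟩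
noncomputable def p075_l115 : Lf2 := ⟨nat_lit 0, nat_lit 20, [nat_lit 5, nat_lit 5, nat_lit 5, nat_lit 20], false, nat_lit 0, nat_lit 160, nat_lit 0, nat_lit 372, ⟨nat_lit 114, nat_lit 0, nat_lit 886, nat_lit 6, nat_lit 246, nat_lit 886, nat_lit 56, nat_lit 886, nat_lit 29400, nat_lit 257, nat_lit 115050, nat_lit 200, nat_lit 48559536, nat_lit 0, nat_lit 0, nat_lit 2941961, true, true⟩,
 nat_lit 3448, nat_lit 143, nat_lit 0, nat_lit 1759, nat_lit 2692, nat_lit 1311, nat_lit 12, nat_lit 0, nat_lit 0, nat_lit 106, nat_lit 0, nat_lit 0, nat_lit 0, nat_lit 0, nat_lit 75, nat_lit 354400, nat_lit 0, nat_lit 0, [(nat_lit 19, [(nat_lit 5, nat_lit 886)])],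
 ⟨p075_k14, nat_lit 0, nat_lit 0, nat_lit 290, nat_lit 0, nat_lit 185483, [nat_lit 1654564801, nat_lit 1349553601, nat_lit 259204000], [], [nat_lit 21329499438, nat_lit 22259605118, nat_lit 24142931132, nat_lit 25017759316, nat_lit 21500764670, nat_lit 22307133358, nat_lit 23963708996, nat_lit 24828829900], nat_lit 1271250, nat_lit 1271250, nat_lit 1271250, nat_lit 1271250, nat_lit 0, nat_lit 1100001, [nat_lit 490000, nat_lit 1100000, nat_lit 2127500], [nat_lit 27, nat_lit 40, nat_lit 40, nat_lit 80, nat_lit 13, nat_lit 345, nat_lit 125, nat_lit 9]⟩, ⟨p075_k24, nat_lit 0, nat_lit 0, nat_lit 629, nat_lit 0, nat_lit 450584, [nat_lit 908352000, nat_lit 1353408000, nat_lit 1869600000], [], [nat_lit 4878586212, nat_lit 4862333973, nat_lit 5051051454, nat_lit 5028201864, nat_lit 6174247450, nat_lit 5885993095, nat_lit 4169464203, nat_lit 4140714389], nat_lit 1271250, nat_lit 1271250, nat_lit 1271250, nat_lit 1271250,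 nat_lit 0, nat_lit 2627250, [nat_lit 1695000, nat_lit 1271250, nat_lit 1271250], [nat_lit 97, nat_lit 40, nat_lit 40, nat_lit 80, nat_lit 76, nat_lit 456, nat_lit 225, nat_lit 10]⟩,
 ⟨nat_lit 3872, nat_lit 4473, ⟨.ofNat (nat_lit 546410), .ofNat (nat_lit 682366), .ofNat (nat_lit 557193), .ofNat (nat_lit 693150), .ofNat (nat_lit 542727), .ofNat (nat_lit 671770), .ofNat (nat_lit 553623), .ofNat (nat_lit 682667)⟩, ⟨.negSucc (nat_lit 12427), .ofNat (nat_lit 259489), .ofNat (nat_lit 0), .ofNat (nat_lit 302621), .ofNat (nat_lit 0), .ofNat (nat_lit 261131), .ofNat (nat_lit 0), .ofNat (nat_lit 304717)⟩⟩, [⟨nat_lit 22, nat_lit 100, nat_lit 95, nat_lit 87, nat_lit 12261832⟩]⟩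
noncomputable def p075_l116 : Lf2 := ⟨nat_lit 0, nat_lit 20, [nat_lit 5, nat_lit 5, nat_lit 5, nat_lit 20], false, nat_lit 0, nat_lit 160, nat_lit 0, nat_lit 368, ⟨nat_lit 129, nat_lit 0, nat_lit 871, nat_lit 6, nat_lit 251, nat_lit 871, nat_lit 56, nat_lit 871, nat_lit 29400, nat_lit 257, nat_lit 136616, nat_lit 200, nat_lit 48089790, nat_lit 0, nat_lit 0, nat_lit 2975290, true, true⟩,
 nat_lit 3479, nat_lit 176, nat_lit 0, nat_lit 1784, nat_lit 2741, nat_lit 1406, nat_lit 25, nat_lit 0, nat_lit 0, nat_lit 121, nat_lit 0, nat_lit 0, nat_lit 0, nat_lit 0, nat_lit 68, nat_lit 348400, nat_lit 0, nat_lit 0, [(nat_lit 19, [(nat_lit 5, nat_lit 871)])],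
 ⟨p075_k14, nat_lit 0, nat_lit 0, nat_lit 293, nat_lit 0, nat_lit 195450, [nat_lit 1615112801, nat_lit 1314389601, nat_lit 260994000], [], [nat_lit 21372307555, nat_lit 22308417695, nat_lit 24243870861, nat_lit 25123790243, nat_lit 21496140591, nat_lit 22307201715, nat_lit 23950671015, nat_lit 24785714562], nat_lit 1271250, nat_lit 1271250, nat_lit 1271250, nat_lit 1271250, nat_lit 0, nat_lit 1100001, [nat_lit 490000, nat_lit 1100000, nat_lit 2127500], [nat_lit 27, nat_lit 40, nat_lit 40, nat_lit 80, nat_lit 13, nat_lit 345, nat_lit 125, nat_lit 9]⟩, ⟨p075_k29, nat_lit 0, nat_lit 0, nat_lit 619, nat_lit 0, nat_lit 436378, [nat_lit 1027872000, nat_lit 1531488000, nat_lit 2115600000], [], [nat_lit 5337970238, nat_lit 5321781709, nat_lit 5527031269, nat_lit 5503704909, nat_lit 6587980990, nat_lit 6278446435, nat_lit 4582597461, nat_lit 4555827098], nat_lit 1271250, nat_lit 1271250, nat_lit 1271250, nat_lit 1271250,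 nat_lit 0, nat_lit 2599000, [nat_lit 1695000, nat_lit 1271250, nat_lit 1271250], [nat_lit 97, nat_lit 40, nat_lit 40, nat_lit 80, nat_lit 76, nat_lit 456, nat_lit 225, nat_lit 10]⟩,
 ⟨nat_lit 3872, nat_lit 4473, ⟨.ofNat (nat_lit 557193), .ofNat (nat_lit 693150), .ofNat (nat_lit 567977), .ofNat (nat_lit 703933), .ofNat (nat_lit 553623), .ofNat (nat_lit 682667), .ofNat (nat_lit 564520), .ofNat (nat_lit 693563)⟩, ⟨.negSucc (nat_lit 12427), .ofNat (nat_lit 259489), .ofNat (nat_lit 0), .ofNat (nat_lit 302621), .ofNat (nat_lit 0), .ofNat (nat_lit 261131), .ofNat (nat_lit 0), .ofNat (nat_lit 304717)⟩⟩, [⟨nat_lit 22, nat_lit 100, nat_lit 95, nat_lit 87, nat_lit 14467672⟩]⟩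
noncomputable def p075_l117 : Lf2 := ⟨nat_lit 0, nat_lit 20, [nat_lit 5, nat_lit 5, nat_lit 5, nat_lit 20], false, nat_lit 0, nat_lit 80, nat_lit 0, nat_lit 336, ⟨nat_lit 97, nat_lit 441, nat_lit 462, nat_lit 6, nat_lit 238, nat_lit 678, nat_lit 31, nat_lit 462, nat_lit 8817, nat_lit 238, nat_lit 72290, nat_lit 200, nat_lit 49505051, nat_lit 17494949, nat_lit 0, nat_lit 2871117, false, true⟩,
 nat_lit 3694, nat_lit 0, nat_lit 0, nat_lit 339, nat_lit 2990, nat_lit 1231, nat_lit 0, nat_lit 0, nat_lit 0, nat_lit 90, nat_lit 0, nat_lit 0, nat_lit 0, nat_lit 0, nat_lit 12, nat_lit 361200, nat_lit 0, nat_lit 0, [(nat_lit 22, [(nat_lit 1, nat_lit 441), (nat_lit 5, nat_lit 462)])],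
 ⟨p075_k22, nat_lit 0, nat_lit 0, nat_lit 266, nat_lit 0, nat_lit 234410, [nat_lit 1343070401, nat_lit 959846000, nat_lit 40976000], [], [nat_lit 23346822862, nat_lit 23795606992, nat_lit 25917092902, nat_lit 26305139660, nat_lit 22688233282, nat_lit 23111552482, nat_lit 25130391482, nat_lit 25495647222], nat_lit 1271250, nat_lit 1271250, nat_lit 1271250, nat_lit 1271250, nat_lit 0, nat_lit 490000, [nat_lit 490000, nat_lit 1100000, nat_lit 1785000], [nat_lit 34, nat_lit 40, nat_lit 40, nat_lit 80, nat_lit 7, nat_lit 226, nat_lit 20, nat_lit 7]⟩, ⟨p075_k15, nat_lit 0, nat_lit 0, nat_lit 756, nat_lit 0, nat_lit 752275, [nat_lit 772896000, nat_lit 1151584000, nat_lit 1590800000], [], [nat_lit 4497632104, nat_lit 4444868530, nat_lit 4587138032, nat_lit 4540713340, nat_lit 4578110386, nat_lit 4940275174, nat_lit 3516857104, nat_lit 3467234589], nat_lit 1100001, nat_lit 1271250, nat_lit 1271250, nat_lit 1271250, nat_lit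 0, nat_lit 2373000, [nat_lit 1695000, nat_lit 1271250, nat_lit 1271250], [nat_lit 97, nat_lit 40, nat_lit 40, nat_lit 80, nat_lit 76, nat_lit 456, nat_lit 225, nat_lit 10]⟩,
 ⟨nat_lit 3535, nat_lit 3873, ⟨.ofNat (nat_lit 520934), .ofNat (nat_lit 649977), .ofNat (nat_lit 542727), .ofNat (nat_lit 671770), .ofNat (nat_lit 518855), .ofNat (nat_lit 644378), .ofNat (nat_lit 540807), .ofNat (nat_lit 666330)⟩, ⟨.ofNat (nat_lit 0), .ofNat (nat_lit 132088), .ofNat (nat_lit 0), .ofNat (nat_lit 175674), .ofNat (nat_lit 0), .ofNat (nat_lit 136093), .ofNat (nat_lit 0), .ofNat (nat_lit 179999)⟩⟩, [⟨nat_lit 13, nat_lit 70, nat_lit 83, nat_lit 100, nat_lit 26911549⟩, ⟨nat_lit 22, nat_lit 93, nat_lit 100, nat_lit 25, nat_lit 10540504⟩]⟩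
noncomputable def p075_l118 : Lf2 := ⟨nat_lit 0, nat_lit 20, [nat_lit 5, nat_lit 5, nat_lit 5, nat_lit 20], false, nat_lit 0, nat_lit 80, nat_lit 0, nat_lit 336, ⟨nat_lit 55, nat_lit 412, nat_lit 533, nat_lit 6, nat_lit 236, nat_lit 740, nat_lit 32, nat_lit 532, nat_lit 9600, nat_lit 239, nat_lit 61410, nat_lit 200, nat_lit 49672052, nat_lit 17327948, nat_lit 0, nat_lit 2858073, false, true⟩,
 nat_lit 1998, nat_lit 1433, nat_lit 0, nat_lit 0, nat_lit 2882, nat_lit 666, nat_lit 0, nat_lit 0, nat_lit 0, nat_lit 45, nat_lit 0, nat_lit 0, nat_lit 0, nat_lit 0, nat_lit 21, nat_lit 333300, nat_lit 0, nat_lit 0, [(nat_lit 22, [(nat_lit 0, nat_lit 298), (nat_lit 1, nat_lit 114), (nat_lit 5, nat_lit 533)])],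
 ⟨p075_k23, nat_lit 0, nat_lit 0, nat_lit 286, nat_lit 0, nat_lit 295358, [nat_lit 1422089601, nat_lit 928574400, nat_lit 20163334], [], [nat_lit 23632708785, nat_lit 24064940712, nat_lit 26255464515, nat_lit 26683769800, nat_lit 23020354175, nat_lit 23423337720, nat_lit 25662636056, nat_lit 26080663076], nat_lit 1271250, nat_lit 1271250, nat_lit 1271250, nat_lit 1271250, nat_lit 0, nat_lit 490000, [nat_lit 490000, nat_lit 1100000, nat_lit 1785000], [nat_lit 34, nat_lit 40, nat_lit 40, nat_lit 80, nat_lit 7, nat_lit 226, nat_lit 20, nat_lit 7]⟩, ⟨p075_k15, nat_lit 0, nat_lit 0, nat_lit 879, nat_lit 0, nat_lit 991268, [nat_lit 438240000, nat_lit 652960000, nat_lit 902000000], [], [nat_lit 2646875592, nat_lit 2619135128, nat_lit 2663528978, nat_lit 2639569048, nat_lit 2594212450, nat_lit 2791878812, nat_lit 2057724583, nat_lit 2031822688], nat_lit 1100001, nat_lit 1271250, nat_lit 1271250, nat_lit 1271250, nat_lit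 0, nat_lit 2373000, [nat_lit 1695000, nat_lit 1271250, nat_lit 1271250], [nat_lit 97, nat_lit 40, nat_lit 40, nat_lit 80, nat_lit 76, nat_lit 456, nat_lit 225, nat_lit 10]⟩,
 ⟨nat_lit 3162, nat_lit 3536, ⟨.ofNat (nat_lit 518855), .ofNat (nat_lit 644378), .ofNat (nat_lit 540807), .ofNat (nat_lit 666330), .ofNat (nat_lit 516642), .ofNat (nat_lit 638549), .ofNat (nat_lit 538797), .ofNat (nat_lit 660704)⟩, ⟨.ofNat (nat_lit 0), .ofNat (nat_lit 136093), .ofNat (nat_lit 0), .ofNat (nat_lit 179999), .ofNat (nat_lit 0), .ofNat (nat_lit 139899), .ofNat (nat_lit 0), .ofNat (nat_lit 184209)⟩⟩, [⟨nat_lit 13, nat_lit 64, nat_lit 87, nat_lit 100, nat_lit 159494441⟩, ⟨nat_lit 3, nat_lit 100, nat_lit 88, nat_lit 16, nat_lit 15069412⟩, ⟨nat_lit 22, nat_lit 93, nat_lit 100, nat_lit 25, nat_lit 5934614⟩]⟩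
noncomputable def p075_l119 : Lf2 := ⟨nat_lit 0, nat_lit 20, [nat_lit 5, nat_lit 5, nat_lit 5, nat_lit 20], false, nat_lit 0, nat_lit 80, nat_lit 0, nat_lit 336, ⟨nat_lit 117, nat_lit 276, nat_lit 607, nat_lit 6, nat_lit 244, nat_lit 707, nat_lit 32, nat_lit 606, nat_lit 9600, nat_lit 239, nat_lit 94084, nat_lit 200, nat_lit 48873990, nat_lit 18126010, nat_lit 0, nat_lit 2918962, true, true⟩,
 nat_lit 3574, nat_lit 0, nat_lit 0, nat_lit 0, nat_lit 2892, nat_lit 1358, nat_lit 0, nat_lit 0, nat_lit 0, nat_lit 111, nat_lit 0, nat_lit 0, nat_lit 0, nat_lit 0, nat_lit 21, nat_lit 311800, nat_lit 0, nat_lit 0, [(nat_lit 22, [(nat_lit 0, nat_lit 276), (nat_lit 5, nat_lit 607)])],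
 ⟨p075_k22, nat_lit 0, nat_lit 0, nat_lit 289, nat_lit 0, nat_lit 306894, [nat_lit 1430944000, nat_lit 938952001, nat_lit 28148667], [], [nat_lit 23241559413, nat_lit 24080772124, nat_lit 25857886275, nat_lit 26707678800, nat_lit 22645513437, nat_lit 23432880572, nat_lit 25262010993, nat_lit 26099067233], nat_lit 1271250, nat_lit 1271250, nat_lit 1271250, nat_lit 1271250, nat_lit 0, nat_lit 490000, [nat_lit 490000, nat_lit 1100000, nat_lit 1785000], [nat_lit 34, nat_lit 40, nat_lit 40, nat_lit 80, nat_lit 7, nat_lit 226, nat_lit 20, nat_lit 7]⟩, ⟨p075_k24, nat_lit 0, nat_lit 0, nat_lit 803, nat_lit 0, nat_lit 818504, [nat_lit 932256000, nat_lit 1389024000, nat_lit 1918800000], [], [nat_lit 5013658156, nat_lit 4986151940, nat_lit 5154831653, nat_lit 5144075259, nat_lit 5921989010, nat_lit 5619991266, nat_lit 4041480775, nat_lit 4015982992], nat_lit 1271250, nat_lit 1271250, nat_lit 1271250, nat_lit 1271250, nat_lit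 0, nat_lit 2373000, [nat_lit 1695000, nat_lit 1271250, nat_lit 1271250], [nat_lit 97, nat_lit 40, nat_lit 40, nat_lit 80, nat_lit 76, nat_lit 456, nat_lit 225, nat_lit 10]⟩,
 ⟨nat_lit 3162, nat_lit 3873, ⟨.ofNat (nat_lit 542727), .ofNat (nat_lit 671770), .ofNat (nat_lit 553623), .ofNat (nat_lit 682667), .ofNat (nat_lit 538797), .ofNat (nat_lit 660704), .ofNat (nat_lit 549874), .ofNat (nat_lit 671781)⟩, ⟨.ofNat (nat_lit 0), .ofNat (nat_lit 132088), .ofNat (nat_lit 0), .ofNat (nat_lit 175674), .ofNat (nat_lit 0), .ofNat (nat_lit 139899), .ofNat (nat_lit 0), .ofNat (nat_lit 184209)⟩⟩, [⟨nat_lit 13, nat_lit 60, nat_lit 86, nat_lit 100, nat_lit 1037135⟩, ⟨nat_lit 22, nat_lit 93, nat_lit 100, nat_lit 25, nat_lit 24277671⟩]⟩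
noncomputable def p075_l120 : Lf2 := ⟨nat_lit 0, nat_lit 20, [nat_lit 5, nat_lit 5, nat_lit 5, nat_lit 20], false, nat_lit 0, nat_lit 80, nat_lit 0, nat_lit 336, ⟨nat_lit 132, nat_lit 292, nat_lit 576, nat_lit 6, nat_lit 248, nat_lit 834, nat_lit 32, nat_lit 576, nat_lit 9600, nat_lit 239, nat_lit 115876, nat_lit 200, nat_lit 48397290, nat_lit 18602710, nat_lit 0, nat_lit 2953611, true, true⟩,
 nat_lit 3575, nat_lit 0, nat_lit 0, nat_lit 0, nat_lit 2894, nat_lit 1445, nat_lit 0, nat_lit 0, nat_lit 0, nat_lit 123, nat_lit 0, nat_lit 0, nat_lit 0, nat_lit 0, nat_lit 19, nat_lit 329800, nat_lit 0, nat_lit 0, [(nat_lit 22, [(nat_lit 0, nat_lit 116), (nat_lit 1, nat_lit 176), (nat_lit 5, nat_lit 576)])],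
 ⟨p075_k22, nat_lit 0, nat_lit 0, nat_lit 291, nat_lit 0, nat_lit 312518, [nat_lit 1403366401, nat_lit 960587200, nat_lit 23168000], [], [nat_lit 23375436309, nat_lit 24185691993, nat_lit 25862934559, nat_lit 26712460600, nat_lit 22778176777, nat_lit 23543575785, nat_lit 25263657148, nat_lit 26100913828], nat_lit 1271250, nat_lit 1271250, nat_lit 1271250, nat_lit 1271250, nat_lit 0, nat_lit 490000, [nat_lit 490000, nat_lit 1100000, nat_lit 1785000], [nat_lit 34, nat_lit 40, nat_lit 40, nat_lit 80, nat_lit 7, nat_lit 226, nat_lit 20, nat_lit 7]⟩, ⟨p075_k29, nat_lit 0, nat_lit 0, nat_lit 748, nat_lit 0, nat_lit 766060, [nat_lit 1051776000, nat_lit 1567104000, nat_lit 2164800000], [], [nat_lit 5506477367, nat_lit 5478408552, nat_lit 5656040550, nat_lit 5638095988, nat_lit 6334528689, nat_lit 6013183520, nat_lit 4496171662, nat_lit 4470447128], nat_lit 1271250, nat_lit 1271250, nat_lit 1271250, nat_lit 1271250,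 nat_lit 0, nat_lit 2373000, [nat_lit 1695000, nat_lit 1271250, nat_lit 1271250], [nat_lit 97, nat_lit 40, nat_lit 40, nat_lit 80, nat_lit 76, nat_lit 456, nat_lit 225, nat_lit 10]⟩,
 ⟨nat_lit 3162, nat_lit 3873, ⟨.ofNat (nat_lit 553623), .ofNat (nat_lit 682667), .ofNat (nat_lit 564520), .ofNat (nat_lit 693563), .ofNat (nat_lit 549874), .ofNat (nat_lit 671781), .ofNat (nat_lit 560952), .ofNat (nat_lit 682859)⟩, ⟨.ofNat (nat_lit 0), .ofNat (nat_lit 132088), .ofNat (nat_lit 0), .ofNat (nat_lit 175674), .ofNat (nat_lit 0), .ofNat (nat_lit 139899), .ofNat (nat_lit 0), .ofNat (nat_lit 184209)⟩⟩, [⟨nat_lit 22, nat_lit 93, nat_lit 100, nat_lit 25, nat_lit 33248553⟩]⟩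
noncomputable def p075_l121 : Lf2 := ⟨nat_lit 0, nat_lit 20, [nat_lit 5, nat_lit 5, nat_lit 5, nat_lit 20], false, nat_lit 80, nat_lit 160, nat_lit 0, nat_lit 384, ⟨nat_lit 0, nat_lit 643, nat_lit 357, nat_lit 6, nat_lit 241, nat_lit 1000, nat_lit 88, nat_lit 357, nat_lit 72600, nat_lit 281, nat_lit 115876, nat_lit 200, nat_lit 45988090, nat_lit 17393741, nat_lit 3618169, nat_lit 4042228, false, true⟩,
 nat_lit 0, nat_lit 3990, nat_lit 0, nat_lit 0, nat_lit 3229, nat_lit 0, nat_lit 0, nat_lit 0, nat_lit 0, nat_lit 0, nat_lit 0, nat_lit 0, nat_lit 0, nat_lit 0, nat_lit 10, nat_lit 383350, nat_lit 0, nat_lit 0, [(nat_lit 22, [(nat_lit 0, nat_lit 111), (nat_lit 1, nat_lit 532), (nat_lit 5, nat_lit 357)])],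
 ⟨p075_k22, nat_lit 0, nat_lit 0, nat_lit 226, nat_lit 0, nat_lit 312518, [nat_lit 1325148801, nat_lit 918027601, nat_lit 26514000], [], [nat_lit 21611523028, nat_lit 22535375074, nat_lit 24278243436, nat_lit 25241393972, nat_lit 22223515880, nat_lit 23065022374, nat_lit 24714371112, nat_lit 25506564676], nat_lit 1271250, nat_lit 1271250, nat_lit 1271250, nat_lit 1271250, nat_lit 490000, nat_lit 1100001, [nat_lit 490000, nat_lit 1100000, nat_lit 1785000], [nat_lit 34, nat_lit 40, nat_lit 40, nat_lit 80, nat_lit 7, nat_lit 249, nat_lit 40, nat_lit 7]⟩, ⟨p075_k15, nat_lit 0, nat_lit 0, nat_lit 884, nat_lit 0, nat_lit 1002941, [nat_lit 0, nat_lit 0, nat_lit 0], [], [nat_lit 0, nat_lit 0, nat_lit 0, nat_lit 0, nat_lit 0, nat_lit 0, nat_lit 0, nat_lit 0], nat_lit 1100001, nat_lit 1442500, nat_lit 1271250, nat_lit 1271250, nat_lit 0, nat_lit 2712000, [nat_lit 1695000, nat_lit 1271250, nat_lit 1271250], [nat_lit 97,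 nat_lit 40, nat_lit 40, nat_lit 80, nat_lit 76, nat_lit 483, nat_lit 250, nat_lit 10]⟩,
 ⟨nat_lit 3162, nat_lit 3873, ⟨.ofNat (nat_lit 520934), .ofNat (nat_lit 649977), .ofNat (nat_lit 564520), .ofNat (nat_lit 693563), .ofNat (nat_lit 516642), .ofNat (nat_lit 638549), .ofNat (nat_lit 560952), .ofNat (nat_lit 682859)⟩, ⟨.ofNat (nat_lit 132088), .ofNat (nat_lit 261131), .ofNat (nat_lit 175674), .ofNat (nat_lit 304717), .ofNat (nat_lit 139899), .ofNat (nat_lit 261806), .ofNat (nat_lit 184209), .ofNat (nat_lit 306116)⟩⟩, [⟨nat_lit 16, nat_lit 66, nat_lit 100, nat_lit 72, nat_lit 12421786⟩]⟩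
noncomputable def p075_l122 : Lf2 := ⟨nat_lit 0, nat_lit 15, [nat_lit 30, nat_lit 5, nat_lit 5, nat_lit 20], false, nat_lit 0, nat_lit 80, nat_lit 0, nat_lit 260, ⟨nat_lit 137, nat_lit 863, nat_lit 0, nat_lit 8, nat_lit 284, nat_lit 699, nat_lit 28, nat_lit 0, nat_lit 0, nat_lit 0, nat_lit 0, nat_lit 0, nat_lit 44536789, nat_lit 22463211, nat_lit 0, nat_lit 3189246, true, true⟩,
 nat_lit 4718, nat_lit 0, nat_lit 0, nat_lit 0, nat_lit 3538, nat_lit 1572, nat_lit 0, nat_lit 0, nat_lit 0, nat_lit 107, nat_lit 0, nat_lit 0, nat_lit 0, nat_lit 0, nat_lit 0, nat_lit 636800, nat_lit 0, nat_lit 0, [(nat_lit 19, [(nat_lit 1, nat_lit 377), (nat_lit 2, nat_lit 486)])],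
 ⟨p075_k19, nat_lit 0, nat_lit 0, nat_lit 260, nat_lit 0, nat_lit 192136, [nat_lit 1631032267, nat_lit 1996416001, nat_lit 813098000], [], [nat_lit 27092824559, nat_lit 27908500755, nat_lit 28724176951, nat_lit 29470228468, nat_lit 26000284375, nat_lit 26771266751, nat_lit 27542249127, nat_lit 28246856631], nat_lit 1271250, nat_lit 1271250, nat_lit 1271250, nat_lit 1271250, nat_lit 0, nat_lit 490000, [nat_lit 490000, nat_lit 1100000, nat_lit 1785000], [nat_lit 34, nat_lit 40, nat_lit 40, nat_lit 80, nat_lit 7, nat_lit 226, nat_lit 20, nat_lit 6]⟩, ⟨p075_k15, nat_lit 0, nat_lit 0, nat_lit 659, nat_lit 0, nat_lit 551176, [nat_lit 1091616000, nat_lit 1626464000, nat_lit 2246800000], [], [nat_lit 6767642472, nat_lit 6658261080, nat_lit 6957784990, nat_lit 6828632888, nat_lit 5238791581, nat_lit 5107395486, nat_lit 5347477515, nat_lit 5202976460], nat_lit 1100001, nat_lit 1442500, nat_lit 1271250, nat_lit 1271250,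 nat_lit 0, nat_lit 1836250, [nat_lit 1695000, nat_lit 1271250, nat_lit 1271250], [nat_lit 97, nat_lit 40, nat_lit 40, nat_lit 80, nat_lit 76, nat_lit 456, nat_lit 225, nat_lit 9]⟩,
 ⟨nat_lit 3872, nat_lit 4473, ⟨.ofNat (nat_lit 660800), .ofNat (nat_lit 728778), .ofNat (nat_lit 703933), .ofNat (nat_lit 771911), .ofNat (nat_lit 649977), .ofNat (nat_lit 714498), .ofNat (nat_lit 693563), .ofNat (nat_lit 758085)⟩, ⟨.negSucc (nat_lit 12427), .ofNat (nat_lit 123532), .ofNat (nat_lit 0), .ofNat (nat_lit 145099), .ofNat (nat_lit 0), .ofNat (nat_lit 132088), .ofNat (nat_lit 0), .ofNat (nat_lit 153881)⟩⟩, [⟨nat_lit 13, nat_lit 76, nat_lit 73, nat_lit 100, nat_lit 163454011⟩]⟩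
noncomputable def p075_l123 : Lf2 := ⟨nat_lit 0, nat_lit 20, [nat_lit 5, nat_lit 5, nat_lit 5, nat_lit 20], false, nat_lit 0, nat_lit 80, nat_lit 0, nat_lit 260, ⟨nat_lit 500, nat_lit 500, nat_lit 0, nat_lit 8, nat_lit 284, nat_lit 281, nat_lit 32, nat_lit 0, nat_lit 0, nat_lit 0, nat_lit 0, nat_lit 0, nat_lit 44536789, nat_lit 22463211, nat_lit 0, nat_lit 3189246, true, true⟩,
 nat_lit 14580, nat_lit 0, nat_lit 0, nat_lit 0, nat_lit 4042, nat_lit 4859, nat_lit 320, nat_lit 0, nat_lit 0, nat_lit 436, nat_lit 0, nat_lit 0, nat_lit 0, nat_lit 0, nat_lit 0, nat_lit 500000, nat_lit 0, nat_lit 0, [(nat_lit 19, [(nat_lit 2, nat_lit 500)])],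
 ⟨p075_k14, nat_lit 0, nat_lit 0, nat_lit 235, nat_lit 0, nat_lit 90764, [nat_lit 1865333334, nat_lit 2869466667, nat_lit 3344600000], [], [nat_lit 27702657347, nat_lit 28588446996, nat_lit 29681619566, nat_lit 30750885412, nat_lit 26007052657, nat_lit 26982408616, nat_lit 27958298220, nat_lit 28841138400], nat_lit 1271250, nat_lit 1271250, nat_lit 1271250, nat_lit 1271250, nat_lit 0, nat_lit 490000, [nat_lit 490000, nat_lit 1100000, nat_lit 2127500], [nat_lit 27, nat_lit 40, nat_lit 40, nat_lit 80, nat_lit 13, nat_lit 226, nat_lit 20, nat_lit 6]⟩, ⟨p075_k15, nat_lit 0, nat_lit 0, nat_lit 510, nat_lit 0, nat_lit 265310, [nat_lit 3984000000, nat_lit 5936000000, nat_lit 8200000000], [], [nat_lit 24116289172, nat_lit 23841646232, nat_lit 24994024156, nat_lit 24676654376, nat_lit 19672045088, nat_lit 19463019655, nat_lit 20457837620, nat_lit 20183513732], nat_lit 1100001, nat_lit 1442500, nat_lit 1271250, nat_lit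 1271250, nat_lit 0, nat_lit 1836250, [nat_lit 1695000, nat_lit 1271250, nat_lit 1271250], [nat_lit 97, nat_lit 40, nat_lit 40, nat_lit 80, nat_lit 76, nat_lit 456, nat_lit 225, nat_lit 9]⟩,
 ⟨nat_lit 3872, nat_lit 4473, ⟨.ofNat (nat_lit 660800), .ofNat (nat_lit 728778), .ofNat (nat_lit 703933), .ofNat (nat_lit 771911), .ofNat (nat_lit 649977), .ofNat (nat_lit 714498), .ofNat (nat_lit 693563), .ofNat (nat_lit 758085)⟩, ⟨.ofNat (nat_lit 0), .ofNat (nat_lit 145099), .ofNat (nat_lit 0), .ofNat (nat_lit 166665), .ofNat (nat_lit 0), .ofNat (nat_lit 153881), .ofNat (nat_lit 0), .ofNat (nat_lit 175674)⟩⟩, [⟨nat_lit 13, nat_lit 76, nat_lit 73, nat_lit 100, nat_lit 161074739⟩]⟩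
noncomputable def p075_l124 : Lf2 := ⟨nat_lit 0, nat_lit 20, [nat_lit 5, nat_lit 5, nat_lit 5, nat_lit 20], false, nat_lit 80, nat_lit 160, nat_lit 0, nat_lit 336, ⟨nat_lit 147, nat_lit 799, nat_lit 54, nat_lit 8, nat_lit 284, nat_lit 853, nat_lit 86, nat_lit 54, nat_lit 70417, nat_lit 280, nat_lit 272572, nat_lit 200, nat_lit 42005262, nat_lit 21662929, nat_lit 3331809, nat_lit 4245846, true, true⟩,
 nat_lit 5476, nat_lit 0, nat_lit 0, nat_lit 0, nat_lit 4106, nat_lit 1825, nat_lit 255, nat_lit 0, nat_lit 0, nat_lit 132, nat_lit 0, nat_lit 0, nat_lit 0, nat_lit 0, nat_lit 0, nat_lit 342100, nat_lit 0, nat_lit 0, [(nat_lit 19, [(nat_lit 1, nat_lit 784), (nat_lit 2, nat_lit 15), (nat_lit 4, nat_lit 54)])],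
 ⟨p075_k14, nat_lit 0, nat_lit 0, nat_lit 200, nat_lit 0, nat_lit 195450, [nat_lit 1502314134, nat_lit 2291470400, nat_lit 2722629200], [], [nat_lit 25168501683, nat_lit 26010478791, nat_lit 26852455899, nat_lit 27678705200, nat_lit 25186899795, nat_lit 25952732095, nat_lit 26718564395, nat_lit 27494245584], nat_lit 1271250, nat_lit 1271250, nat_lit 1271250, nat_lit 1271250, nat_lit 490000, nat_lit 1100001, [nat_lit 490000, nat_lit 1100000, nat_lit 2127500], [nat_lit 27, nat_lit 40, nat_lit 40, nat_lit 80, nat_lit 13, nat_lit 249, nat_lit 40, nat_lit 6]⟩, ⟨p075_k15, nat_lit 0, nat_lit 0, nat_lit 667, nat_lit 0, nat_lit 571315, [nat_lit 1171296000, nat_lit 1745184000, nat_lit 2410800000], [], [nat_lit 7021923632, nat_lit 6886506456, nat_lit 7438036860, nat_lit 7328998912, nat_lit 5377816215, nat_lit 5233077104, nat_lit 5649366304, nat_lit 5480064056], nat_lit 1100001, nat_lit 1442500, nat_lit 1271250, nat_lit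 1271250, nat_lit 0, nat_lit 2373000, [nat_lit 1695000, nat_lit 1271250, nat_lit 1271250], [nat_lit 97, nat_lit 40, nat_lit 40, nat_lit 80, nat_lit 76, nat_lit 456, nat_lit 225, nat_lit 9]⟩,
 ⟨nat_lit 3872, nat_lit 4473, ⟨.ofNat (nat_lit 660800), .ofNat (nat_lit 728778), .ofNat (nat_lit 703933), .ofNat (nat_lit 771911), .ofNat (nat_lit 649977), .ofNat (nat_lit 714498), .ofNat (nat_lit 693563), .ofNat (nat_lit 758085)⟩, ⟨.ofNat (nat_lit 123532), .ofNat (nat_lit 259489), .ofNat (nat_lit 166665), .ofNat (nat_lit 302621), .ofNat (nat_lit 132088), .ofNat (nat_lit 261131), .ofNat (nat_lit 175674), .ofNat (nat_lit 304717)⟩⟩, [⟨nat_lit 13, nat_lit 76, nat_lit 73, nat_lit 100, nat_lit 177599277⟩, ⟨nat_lit 22, nat_lit 77, nat_lit 100, nat_lit 99, nat_lit 545705⟩]⟩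
noncomputable def p075_l125 : Lf2 := ⟨nat_lit 0, nat_lit 20, [nat_lit 5, nat_lit 5, nat_lit 5, nat_lit 20], false, nat_lit 0, nat_lit 80, nat_lit 0, nat_lit 260, ⟨nat_lit 97, nat_lit 461, nat_lit 442, nat_lit 8, nat_lit 266, nat_lit 365, nat_lit 32, nat_lit 442, nat_lit 9600, nat_lit 239, nat_lit 111002, nat_lit 200, nat_lit 46470542, nat_lit 20529458, nat_lit 0, nat_lit 3080988, false, true⟩,
 nat_lit 3698, nat_lit 0, nat_lit 0, nat_lit 0, nat_lit 2993, nat_lit 1232, nat_lit 0, nat_lit 0, nat_lit 0, nat_lit 90, nat_lit 0, nat_lit 0, nat_lit 0, nat_lit 0, nat_lit 20, nat_lit 394800, nat_lit 0, nat_lit 0, [(nat_lit 22, [(nat_lit 1, nat_lit 461), (nat_lit 5, nat_lit 386), (nat_lit 6, nat_lit 56)])],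
 ⟨p075_k22, nat_lit 0, nat_lit 0, nat_lit 292, nat_lit 0, nat_lit 308880, [nat_lit 1402443200, nat_lit 1047687601, nat_lit 39226133], [], [nat_lit 25674917424, nat_lit 26949159700, nat_lit 26398059527, nat_lit 27630898539, nat_lit 25017971669, nat_lit 25865150129, nat_lit 25505004068, nat_lit 26330907850], nat_lit 1271250, nat_lit 1271250, nat_lit 1271250, nat_lit 1271250, nat_lit 0, nat_lit 490000, [nat_lit 490000, nat_lit 1100000, nat_lit 1785000], [nat_lit 34, nat_lit 40, nat_lit 40, nat_lit 80, nat_lit 7, nat_lit 226, nat_lit 20, nat_lit 6]⟩, ⟨p075_k15, nat_lit 0, nat_lit 0, nat_lit 857, nat_lit 0, nat_lit 991268, [nat_lit 772896000, nat_lit 1151584000, nat_lit 1590800000], [], [nat_lit 4585404232, nat_lit 4538914256, nat_lit 4668088477, nat_lit 4640256067, nat_lit 3346644361, nat_lit 3291875964, nat_lit 3369793098, nat_lit 3327669466], nat_lit 1100001, nat_lit 1271250, nat_lit 1271250, nat_lit 1271250,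 nat_lit 0, nat_lit 1836250, [nat_lit 1695000, nat_lit 1271250, nat_lit 1271250], [nat_lit 97, nat_lit 40, nat_lit 40, nat_lit 80, nat_lit 76, nat_lit 428, nat_lit 200, nat_lit 9]⟩,
 ⟨nat_lit 3162, nat_lit 3873, ⟨.ofNat (nat_lit 649977), .ofNat (nat_lit 669333), .ofNat (nat_lit 671770), .ofNat (nat_lit 691126), .ofNat (nat_lit 638549), .ofNat (nat_lit 656835), .ofNat (nat_lit 660704), .ofNat (nat_lit 678990)⟩, ⟨.ofNat (nat_lit 0), .ofNat (nat_lit 132088), .ofNat (nat_lit 0), .ofNat (nat_lit 175674), .ofNat (nat_lit 0), .ofNat (nat_lit 139899), .ofNat (nat_lit 0), .ofNat (nat_lit 184209)⟩⟩, [⟨nat_lit 13, nat_lit 67, nat_lit 85, nat_lit 100, nat_lit 457169287⟩]⟩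
noncomputable def p075_l126 : Lf2 := ⟨nat_lit 0, nat_lit 20, [nat_lit 5, nat_lit 5, nat_lit 5, nat_lit 20], false, nat_lit 0, nat_lit 80, nat_lit 0, nat_lit 260, ⟨nat_lit 142, nat_lit 428, nat_lit 430, nat_lit 8, nat_lit 278, nat_lit 469, nat_lit 32, nat_lit 430, nat_lit 9600, nat_lit 239, nat_lit 193302, nat_lit 200, nat_lit 45133680, nat_lit 21866320, nat_lit 0, nat_lit 3157864, true, true⟩,
 nat_lit 4088, nat_lit 0, nat_lit 0, nat_lit 0, nat_lit 2994, nat_lit 1554, nat_lit 0, nat_lit 0, nat_lit 0, nat_lit 121, nat_lit 0, nat_lit 0, nat_lit 0, nat_lit 0, nat_lit 8, nat_lit 384000, nat_lit 0, nat_lit 0, [(nat_lit 22, [(nat_lit 1, nat_lit 428), (nat_lit 5, nat_lit 362), (nat_lit 6, nat_lit 68)])],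
 ⟨p075_k22, nat_lit 0, nat_lit 0, nat_lit 295, nat_lit 0, nat_lit 312518, [nat_lit 1338713601, nat_lit 1006291200, nat_lit 39591734], [], [nat_lit 26233481479, nat_lit 26951550600, nat_lit 27123609568, nat_lit 28315208381, nat_lit 25458794199, nat_lit 26142096228, nat_lit 26268992803, nat_lit 27073712321], nat_lit 1271250, nat_lit 1271250, nat_lit 1271250, nat_lit 1271250, nat_lit 0, nat_lit 490000, [nat_lit 490000, nat_lit 1100000, nat_lit 1785000], [nat_lit 34, nat_lit 40, nat_lit 40, nat_lit 80, nat_lit 7, nat_lit 226, nat_lit 20, nat_lit 6]⟩, ⟨p075_k24, nat_lit 0, nat_lit 0, nat_lit 759, nat_lit 0, nat_lit 833503, [nat_lit 1131456000, nat_lit 1685824000, nat_lit 2328800000], [], [nat_lit 6503866792, nat_lit 6437163069, nat_lit 6600451554, nat_lit 6543046829, nat_lit 4992187381, nat_lit 4929319377, nat_lit 5055782574, nat_lit 4988997901], nat_lit 1271250, nat_lit 1271250, nat_lit 1271250, nat_lit 1271250,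 nat_lit 0, nat_lit 1836250, [nat_lit 1695000, nat_lit 1271250, nat_lit 1271250], [nat_lit 97, nat_lit 40, nat_lit 40, nat_lit 80, nat_lit 76, nat_lit 456, nat_lit 225, nat_lit 9]⟩,
 ⟨nat_lit 3162, nat_lit 3873, ⟨.ofNat (nat_lit 671770), .ofNat (nat_lit 710483), .ofNat (nat_lit 693563), .ofNat (nat_lit 732276), .ofNat (nat_lit 660704), .ofNat (nat_lit 697276), .ofNat (nat_lit 682859), .ofNat (nat_lit 719431)⟩, ⟨.ofNat (nat_lit 0), .ofNat (nat_lit 132088), .ofNat (nat_lit 0), .ofNat (nat_lit 175674), .ofNat (nat_lit 0), .ofNat (nat_lit 139899), .ofNat (nat_lit 0), .ofNat (nat_lit 184209)⟩⟩, [⟨nat_lit 13, nat_lit 66, nat_lit 78, nat_lit 100, nat_lit 392805367⟩]⟩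
noncomputable def p075_l127 : Lf2 := ⟨nat_lit 0, nat_lit 20, [nat_lit 5, nat_lit 5, nat_lit 5, nat_lit 20], false, nat_lit 80, nat_lit 160, nat_lit 0, nat_lit 336, ⟨nat_lit 0, nat_lit 653, nat_lit 347, nat_lit 8, nat_lit 274, nat_lit 1000, nat_lit 88, nat_lit 347, nat_lit 72600, nat_lit 281, nat_lit 193302, nat_lit 200, nat_lit 42864651, nat_lit 20645797, nat_lit 3489552, nat_lit 4227013, true, true⟩,
 nat_lit 0, nat_lit 4004, nat_lit 0, nat_lit 0, nat_lit 3241, nat_lit 0, nat_lit 0, nat_lit 0, nat_lit 0, nat_lit 0, nat_lit 0, nat_lit 0, nat_lit 0, nat_lit 0, nat_lit 9, nat_lit 385300, nat_lit 0, nat_lit 0, [(nat_lit 22, [(nat_lit 0, nat_lit 98), (nat_lit 1, nat_lit 555), (nat_lit 5, nat_lit 347)])],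
 ⟨p075_k22, nat_lit 0, nat_lit 0, nat_lit 242, nat_lit 0, nat_lit 312518, [nat_lit 1318248001, nat_lit 920231601, nat_lit 35059333], [], [nat_lit 24309131377, nat_lit 25271263473, nat_lit 25429671284, nat_lit 26612986643, nat_lit 24725789125, nat_lit 25517646004, nat_lit 25677282847, nat_lit 26757195360], nat_lit 1271250, nat_lit 1271250, nat_lit 1271250, nat_lit 1271250, nat_lit 490000, nat_lit 1100001, [nat_lit 490000, nat_lit 1100000, nat_lit 1785000], [nat_lit 34, nat_lit 40, nat_lit 40, nat_lit 80, nat_lit 7, nat_lit 249, nat_lit 40, nat_lit 7]⟩, ⟨p075_k15, nat_lit 0, nat_lit 0, nat_lit 861, nat_lit 0, nat_lit 1002941, [nat_lit 0, nat_lit 0, nat_lit 0], [], [nat_lit 0, nat_lit 0, nat_lit 0, nat_lit 0, nat_lit 0, nat_lit 0, nat_lit 0, nat_lit 0], nat_lit 1100001, nat_lit 1442500, nat_lit 1271250, nat_lit 1271250, nat_lit 0, nat_lit 2373000, [nat_lit 1695000, nat_lit 1271250, nat_lit 1271250], [nat_lit 97,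 nat_lit 40, nat_lit 40, nat_lit 80, nat_lit 76, nat_lit 456, nat_lit 225, nat_lit 9]⟩,
 ⟨nat_lit 3162, nat_lit 3873, ⟨.ofNat (nat_lit 649977), .ofNat (nat_lit 688690), .ofNat (nat_lit 693563), .ofNat (nat_lit 732276), .ofNat (nat_lit 638549), .ofNat (nat_lit 675121), .ofNat (nat_lit 682859), .ofNat (nat_lit 719431)⟩, ⟨.ofNat (nat_lit 132088), .ofNat (nat_lit 261131), .ofNat (nat_lit 175674), .ofNat (nat_lit 304717), .ofNat (nat_lit 139899), .ofNat (nat_lit 261806), .ofNat (nat_lit 184209), .ofNat (nat_lit 306116)⟩⟩, [⟨nat_lit 13, nat_lit 66, nat_lit 82, nat_lit 100, nat_lit 426758873⟩, ⟨nat_lit 4, nat_lit 100, nat_lit 66, nat_lit 72, nat_lit 6786430⟩]⟩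
noncomputable def b_V_800_400_10_8 : St := ⟨true, nat_lit 1, nat_lit 1, nat_lit 1, nat_lit 80, nat_lit 320, nat_lit 360, nat_lit 160, nat_lit 200, nat_lit 16, nat_lit 360, nat_lit 40, nat_lit 80, nat_lit 0, nat_lit 160, nat_lit 0, nat_lit 384, nat_lit 40, nat_lit 80, nat_lit 0, nat_lit 0, nat_lit 0, nat_lit 0⟩
theorem d_V_800_400_10_8 (h : EB TB.env) : Dead b_V_800_400_10_8 := chkB_sound0 h (T :=
(.spl (nat_lit 2) (nat_lit 160)
(.leaf p075_l111)
(.spl (nat_lit 2) (nat_lit 240)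
(.leaf p075_l112)
(.spl (nat_lit 2) (nat_lit 320)
(.spl (nat_lit 0) (nat_lit 340)
(.spl (nat_lit 1) (nat_lit 180)
(.spl (nat_lit 0) (nat_lit 330)
(.leaf p075_l113)
(.leaf p075_l114))
(.trX (nat_lit 19) (nat_lit 100) (nat_lit 52) (nat_lit 80) (nat_lit 372) (.spl (nat_lit 1) (nat_lit 190)
(.leaf p075_l115)
(.trX (nat_lit 19) (nat_lit 100) (nat_lit 56) (nat_lit 80) (nat_lit 368) (.leaf p075_l116)))))
(.spl (nat_lit 4) (nat_lit 80)
(.trX (nat_lit 22) (nat_lit 100) (nat_lit 76) (nat_lit 82) (nat_lit 336) (.spl (nat_lit 1) (nat_lit 180)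
(.spl (nat_lit 0) (nat_lit 350)
(.leaf p075_l117)
(.leaf p075_l118))
(.spl (nat_lit 1) (nat_lit 190)
(.leaf p075_l119)
(.leaf p075_l120))))
(.leaf p075_l121)))
(.trX (nat_lit 22) (nat_lit 82) (nat_lit 76) (nat_lit 100) (nat_lit 336) (.spl (nat_lit 0) (nat_lit 340)
(.spl (nat_lit 4) (nat_lit 80)
(.trX (nat_lit 22) (nat_lit 83) (nat_lit 100) (nat_lit 83) (nat_lit 260) (.spl (nat_lit 3) (nat_lit 60)
(.leaf p075_l122)
(.leaf p075_l123)))
(.leaf p075_l124))
(.trX (nat_lit 13) (nat_lit 71) (nat_lit 70) (nat_lit 100) (nat_lit 344) (.spl (nat_lit 4) (nat_lit 80)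
(.trX (nat_lit 22) (nat_lit 83) (nat_lit 100) (nat_lit 83) (nat_lit 260) (.spl (nat_lit 1) (nat_lit 180)
(.trX (nat_lit 13) (nat_lit 72) (nat_lit 77) (nat_lit 100) (nat_lit 332) (.leaf p075_l125))
(.leaf p075_l126)))
(.leaf p075_l127))))))))) (by decide +kernel)
noncomputable def p075_l128 : Lf2 := ⟨nat_lit 0, nat_lit 20, [nat_lit 5, nat_lit 5, nat_lit 5, nat_lit 20], true, nat_lit 160, nat_lit 260, nat_lit 0, nat_lit 384, ⟨nat_lit 0, nat_lit 0, nat_lit 1000, nat_lit 4, nat_lit 119, nat_lit 1000, nat_lit 145, nat_lit 1000, nat_lit 89743, nat_lit 288, nat_lit 132017, nat_lit 304, nat_lit 52953585, nat_lit 0, nat_lit 0, nat_lit 3499828, false, false⟩,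
 nat_lit 0, nat_lit 4924, nat_lit 0, nat_lit 0, nat_lit 3692, nat_lit 0, nat_lit 0, nat_lit 0, nat_lit 0, nat_lit 0, nat_lit 0, nat_lit 0, nat_lit 0, nat_lit 0, nat_lit 81, nat_lit 250000, nat_lit 0, nat_lit 0, [(nat_lit 19, [(nat_lit 4, nat_lit 1000)]), (nat_lit 22, [(nat_lit 4, nat_lit 1000)])],
 ⟨p075_k13, nat_lit 0, nat_lit 0, nat_lit 429, nat_lit 0, nat_lit 508069, [nat_lit 2166400000, nat_lit 172800000], [], [nat_lit 22434635028, nat_lit 21392479210, nat_lit 19436150112, nat_lit 21249096800, nat_lit 21894519452, nat_lit 24723699336, nat_lit 24321537080, nat_lit 23679808744], nat_lit 1271250, nat_lit 1271250, nat_lit 88400, nat_lit 1100001, nat_lit 1100001, nat_lit 1956250, [nat_lit 490000, nat_lit 2052500], [nat_lit 94, nat_lit 40, nat_lit 40, nat_lit 80, nat_lit 95, nat_lit 345, nat_lit 125, nat_lit 10]⟩, C1.Rw.none,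
 ⟨nat_lit 3162, nat_lit 4473, ⟨.ofNat (nat_lit 143971), .ofNat (nat_lit 388887), .ofNat (nat_lit 186943), .ofNat (nat_lit 431944), .ofNat (nat_lit 175109), .ofNat (nat_lit 394735), .ofNat (nat_lit 219258), .ofNat (nat_lit 438969)⟩, ⟨.ofNat (nat_lit 259488), .ofNat (nat_lit 429433), .ofNat (nat_lit 302621), .ofNat (nat_lit 472567), .ofNat (nat_lit 261805), .ofNat (nat_lit 414188), .ofNat (nat_lit 306116), .ofNat (nat_lit 458499)⟩⟩, [⟨nat_lit 0, nat_lit 100, nat_lit 72, nat_lit 63, nat_lit 122955001⟩, ⟨nat_lit 4, nat_lit 100, nat_lit 71, nat_lit 71, nat_lit 267872705⟩]⟩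
noncomputable def p075_l129 : Lf2 := ⟨nat_lit 0, nat_lit 20, [nat_lit 5, nat_lit 5, nat_lit 5, nat_lit 20], true, nat_lit 160, nat_lit 260, nat_lit 0, nat_lit 384, ⟨nat_lit 0, nat_lit 25, nat_lit 975, nat_lit 4, nat_lit 191, nat_lit 1000, nat_lit 145, nat_lit 975, nat_lit 89743, nat_lit 288, nat_lit 1350, nat_lit 224, nat_lit 47075290, nat_lit 12078384, nat_lit 7846326, nat_lit 4330740, false, true⟩,
 nat_lit 0, nat_lit 4991, nat_lit 0, nat_lit 0, nat_lit 3742, nat_lit 0, nat_lit 0, nat_lit 0, nat_lit 0, nat_lit 0, nat_lit 0, nat_lit 0, nat_lit 0, nat_lit 0, nat_lit 76, nat_lit 250000, nat_lit 0, nat_lit 0, [(nat_lit 19, [(nat_lit 0, nat_lit 25), (nat_lit 4, nat_lit 975)]), (nat_lit 22, [(nat_lit 0, nat_lit 25), (nat_lit 4, nat_lit 975)])],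
 ⟨p075_k13, nat_lit 0, nat_lit 0, nat_lit 307, nat_lit 0, nat_lit 508069, [nat_lit 2129510000, nat_lit 162150000], [], [nat_lit 18801982776, nat_lit 20743555064, nat_lit 20551390480, nat_lit 22266811216, nat_lit 21174215922, nat_lit 23193354952, nat_lit 26534272612, nat_lit 25153109720], nat_lit 1271250, nat_lit 1271250, nat_lit 1100001, nat_lit 1785000, nat_lit 1100001, nat_lit 1956250, [nat_lit 490000, nat_lit 2052500], [nat_lit 94, nat_lit 40, nat_lit 40, nat_lit 80, nat_lit 95, nat_lit 345, nat_lit 125, nat_lit 9]⟩, C1.Rw.none,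
 ⟨nat_lit 3162, nat_lit 4473, ⟨.ofNat (nat_lit 388887), .ofNat (nat_lit 524844), .ofNat (nat_lit 431944), .ofNat (nat_lit 567977), .ofNat (nat_lit 394735), .ofNat (nat_lit 516642), .ofNat (nat_lit 438969), .ofNat (nat_lit 560952)⟩, ⟨.ofNat (nat_lit 259488), .ofNat (nat_lit 429433), .ofNat (nat_lit 302621), .ofNat (nat_lit 472567), .ofNat (nat_lit 261805), .ofNat (nat_lit 414188), .ofNat (nat_lit 306116), .ofNat (nat_lit 458499)⟩⟩, [⟨nat_lit 4, nat_lit 100, nat_lit 71, nat_lit 71, nat_lit 585320557⟩]⟩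
noncomputable def p075_l130 : Lf2 := ⟨nat_lit 0, nat_lit 20, [nat_lit 5, nat_lit 5, nat_lit 5, nat_lit 20], true, nat_lit 160, nat_lit 260, nat_lit 0, nat_lit 384, ⟨nat_lit 0, nat_lit 775, nat_lit 225, nat_lit 6, nat_lit 245, nat_lit 1000, nat_lit 146, nat_lit 225, nat_lit 89743, nat_lit 288, nat_lit 136616, nat_lit 200, nat_lit 42443179, nat_lit 17040342, nat_lit 7516479, nat_lit 4731595, false, true⟩,
 nat_lit 0, nat_lit 4544, nat_lit 0, nat_lit 530, nat_lit 3407, nat_lit 0, nat_lit 176, nat_lit 0, nat_lit 0, nat_lit 0, nat_lit 0, nat_lit 0, nat_lit 0, nat_lit 0, nat_lit 0, nat_lit 361450, nat_lit 0, nat_lit 0, [(nat_lit 19, [(nat_lit 0, nat_lit 32), (nat_lit 1, nat_lit 743), (nat_lit 4, nat_lit 225)])],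
 ⟨p075_k14, nat_lit 0, nat_lit 0, nat_lit 157, nat_lit 0, nat_lit 183261, [nat_lit 1429809867, nat_lit 1544275601, nat_lit 988277600], [], [nat_lit 21563273071, nat_lit 22026095589, nat_lit 24266002143, nat_lit 24679688526, nat_lit 23780154612, nat_lit 24173899640, nat_lit 26102028252, nat_lit 26457953110], nat_lit 1271250, nat_lit 1271250, nat_lit 1271250, nat_lit 1271250, nat_lit 1100001, nat_lit 1956250, [nat_lit 490000, nat_lit 1100000, nat_lit 2127500], [nat_lit 27, nat_lit 40, nat_lit 40, nat_lit 80, nat_lit 13, nat_lit 373, nat_lit 150, nat_lit 10]⟩, C1.Rw.none,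
 ⟨nat_lit 4183, nat_lit 4473, ⟨.ofNat (nat_lit 524844), .ofNat (nat_lit 660800), .ofNat (nat_lit 567977), .ofNat (nat_lit 703933), .ofNat (nat_lit 522921), .ofNat (nat_lit 655432), .ofNat (nat_lit 566254), .ofNat (nat_lit 698765)⟩, ⟨.ofNat (nat_lit 259489), .ofNat (nat_lit 429434), .ofNat (nat_lit 302621), .ofNat (nat_lit 472567), .ofNat (nat_lit 260409), .ofNat (nat_lit 426048), .ofNat (nat_lit 303743), .ofNat (nat_lit 469382)⟩⟩, [⟨nat_lit 4, nat_lit 100, nat_lit 79, nat_lit 72, nat_lit 128714517⟩]⟩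
noncomputable def p075_l131 : Lf2 := ⟨nat_lit 0, nat_lit 20, [nat_lit 5, nat_lit 5, nat_lit 5, nat_lit 20], false, nat_lit 160, nat_lit 244, nat_lit 0, nat_lit 384, ⟨nat_lit 0, nat_lit 629, nat_lit 371, nat_lit 6, nat_lit 244, nat_lit 1000, nat_lit 140, nat_lit 371, nat_lit 183750, nat_lit 320, nat_lit 126280, nat_lit 200, nat_lit 42900587, nat_lit 16989236, nat_lit 7110177, nat_lit 4665592, false, true⟩,
 nat_lit 0, nat_lit 4481, nat_lit 0, nat_lit 121, nat_lit 3492, nat_lit 0, nat_lit 176, nat_lit 0, nat_lit 0, nat_lit 0, nat_lit 0, nat_lit 0, nat_lit 0, nat_lit 0, nat_lit 0, nat_lit 250000, nat_lit 0, nat_lit 0, [(nat_lit 19, [(nat_lit 0, nat_lit 629), (nat_lit 4, nat_lit 371)])],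
 ⟨p075_k28, nat_lit 0, nat_lit 0, nat_lit 161, nat_lit 0, nat_lit 186407, [nat_lit 1533496001, nat_lit 1414781600, nat_lit 1159246000], [], [nat_lit 22013246033, nat_lit 22480511841, nat_lit 24662797085, nat_lit 25060386713, nat_lit 23694131889, nat_lit 24103103162, nat_lit 26002271551, nat_lit 26459506061], nat_lit 1271250, nat_lit 1271250, nat_lit 1271250, nat_lit 1271250, nat_lit 1100001, nat_lit 1819250, [nat_lit 490000, nat_lit 1100000, nat_lit 2127500], [nat_lit 27, nat_lit 40, nat_lit 40, nat_lit 80, nat_lit 13, nat_lit 373, nat_lit 150, nat_lit 10]⟩, ⟨p075_k15, nat_lit 0, nat_lit 0, nat_lit 685, nat_lit 0, nat_lit 571315, [nat_lit 0, nat_lit 0, nat_lit 0], [], [nat_lit 0, nat_lit 0, nat_lit 0, nat_lit 0, nat_lit 0, nat_lit 0, nat_lit 0, nat_lit 0], nat_lit 1100001, nat_lit 1442500, nat_lit 1271250, nat_lit 1271250, nat_lit 0, nat_lit 2712000, [nat_lit 1695000, nat_lit 1271250, nat_lit 1271250], [nat_lit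 97, nat_lit 40, nat_lit 40, nat_lit 80, nat_lit 76, nat_lit 483, nat_lit 250, nat_lit 10]⟩,
 ⟨nat_lit 3872, nat_lit 4184, ⟨.ofNat (nat_lit 522921), .ofNat (nat_lit 655432), .ofNat (nat_lit 566254), .ofNat (nat_lit 698765), .ofNat (nat_lit 520934), .ofNat (nat_lit 649977), .ofNat (nat_lit 564520), .ofNat (nat_lit 693563)⟩, ⟨.ofNat (nat_lit 260409), .ofNat (nat_lit 399546), .ofNat (nat_lit 303743), .ofNat (nat_lit 442879), .ofNat (nat_lit 261131), .ofNat (nat_lit 396626), .ofNat (nat_lit 304717), .ofNat (nat_lit 440213)⟩⟩, [⟨nat_lit 16, nat_lit 74, nat_lit 100, nat_lit 72, nat_lit 123441027⟩]⟩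
noncomputable def p075_l132 : Lf2 := ⟨nat_lit 0, nat_lit 20, [nat_lit 5, nat_lit 5, nat_lit 5, nat_lit 20], false, nat_lit 160, nat_lit 260, nat_lit 16, nat_lit 384, ⟨nat_lit 0, nat_lit 1000, nat_lit 0, nat_lit 8, nat_lit 285, nat_lit 1000, nat_lit 146, nat_lit 0, nat_lit 0, nat_lit 0, nat_lit 0, nat_lit 0, nat_lit 39101730, nat_lit 20760463, nat_lit 7137807, nat_lit 4903601, true, true⟩,
 nat_lit 0, nat_lit 5152, nat_lit 0, nat_lit 2172, nat_lit 3864, nat_lit 0, nat_lit 328, nat_lit 0, nat_lit 0, nat_lit 0, nat_lit 0, nat_lit 0, nat_lit 0, nat_lit 0, nat_lit 0, nat_lit 250000, nat_lit 0, nat_lit 0, [(nat_lit 19, [(nat_lit 0, nat_lit 1000)])],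
 ⟨p075_k14, nat_lit 0, nat_lit 0, nat_lit 151, nat_lit 0, nat_lit 123761, [nat_lit 1542400001, nat_lit 2368400000, nat_lit 3220880000], [], [nat_lit 24727299560, nat_lit 25160526752, nat_lit 26460208328, nat_lit 26851983832, nat_lit 26591505168, nat_lit 27042460350, nat_lit 28395325896, nat_lit 28802777274], nat_lit 1271250, nat_lit 1271250, nat_lit 1271250, nat_lit 1271250, nat_lit 1100001, nat_lit 1956250, [nat_lit 490000, nat_lit 1100000, nat_lit 2127500], [nat_lit 27, nat_lit 40, nat_lit 40, nat_lit 80, nat_lit 13, nat_lit 289, nat_lit 75, nat_lit 7]⟩, ⟨p075_k15, nat_lit 0, nat_lit 0, nat_lit 534, nat_lit 0, nat_lit 361762, [nat_lit 0, nat_lit 0, nat_lit 0], [], [nat_lit 0, nat_lit 0, nat_lit 0, nat_lit 0, nat_lit 0, nat_lit 0, nat_lit 0, nat_lit 0], nat_lit 1100001, nat_lit 1442500, nat_lit 1271250, nat_lit 1271250, nat_lit 88400, nat_lit 2742600, [nat_lit 1695000, nat_lit 1271250, nat_lit 1271250], [nat_lit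 97, nat_lit 40, nat_lit 40, nat_lit 80, nat_lit 76, nat_lit 483, nat_lit 250, nat_lit 10]⟩,
 ⟨nat_lit 4183, nat_lit 4473, ⟨.ofNat (nat_lit 660800), .ofNat (nat_lit 728778), .ofNat (nat_lit 703933), .ofNat (nat_lit 771911), .ofNat (nat_lit 655432), .ofNat (nat_lit 721688), .ofNat (nat_lit 698765), .ofNat (nat_lit 765021)⟩, ⟨.ofNat (nat_lit 259489), .ofNat (nat_lit 429434), .ofNat (nat_lit 302621), .ofNat (nat_lit 472567), .ofNat (nat_lit 260409), .ofNat (nat_lit 426048), .ofNat (nat_lit 303743), .ofNat (nat_lit 469382)⟩⟩, [⟨nat_lit 13, nat_lit 78, nat_lit 70, nat_lit 100, nat_lit 232128414⟩, ⟨nat_lit 4, nat_lit 100, nat_lit 79, nat_lit 72, nat_lit 148053617⟩]⟩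
noncomputable def p075_l133 : Lf2 := ⟨nat_lit 0, nat_lit 20, [nat_lit 5, nat_lit 5, nat_lit 5, nat_lit 20], false, nat_lit 160, nat_lit 244, nat_lit 16, nat_lit 384, ⟨nat_lit 0, nat_lit 1000, nat_lit 0, nat_lit 8, nat_lit 280, nat_lit 1000, nat_lit 140, nat_lit 0, nat_lit 0, nat_lit 0, nat_lit 0, nat_lit 0, nat_lit 39807066, nat_lit 20402273, nat_lit 6790661, nat_lit 4831874, true, true⟩,
 nat_lit 0, nat_lit 5210, nat_lit 0, nat_lit 330, nat_lit 4061, nat_lit 0, nat_lit 292, nat_lit 0, nat_lit 0, nat_lit 0, nat_lit 0, nat_lit 0, nat_lit 0, nat_lit 0, nat_lit 0, nat_lit 250000, nat_lit 0, nat_lit 0, [(nat_lit 19, [(nat_lit 0, nat_lit 1000)])],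
 ⟨p075_k28, nat_lit 0, nat_lit 0, nat_lit 168, nat_lit 0, nat_lit 186407, [nat_lit 1542400001, nat_lit 2368400000, nat_lit 3220880000], [], [nat_lit 25145639898, nat_lit 25586998856, nat_lit 26523583435, nat_lit 26930537263, nat_lit 26433717846, nat_lit 26871247946, nat_lit 28033211018, nat_lit 28536238768], nat_lit 1271250, nat_lit 1271250, nat_lit 1271250, nat_lit 1271250, nat_lit 1100001, nat_lit 1819250, [nat_lit 490000, nat_lit 1100000, nat_lit 2127500], [nat_lit 27, nat_lit 40, nat_lit 40, nat_lit 80, nat_lit 13, nat_lit 289, nat_lit 75, nat_lit 7]⟩, ⟨p075_k15, nat_lit 0, nat_lit 0, nat_lit 654, nat_lit 0, nat_lit 571315, [nat_lit 0, nat_lit 0, nat_lit 0], [], [nat_lit 0, nat_lit 0, nat_lit 0, nat_lit 0, nat_lit 0, nat_lit 0, nat_lit 0, nat_lit 0], nat_lit 1100001, nat_lit 1442500, nat_lit 1271250, nat_lit 1271250, nat_lit 88400, nat_lit 2742600, [nat_lit 1695000, nat_lit 1271250, nat_lit 1271250], [nat_lit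 97, nat_lit 40, nat_lit 40, nat_lit 80, nat_lit 76, nat_lit 483, nat_lit 250, nat_lit 10]⟩,
 ⟨nat_lit 3872, nat_lit 4184, ⟨.ofNat (nat_lit 655432), .ofNat (nat_lit 708436), .ofNat (nat_lit 698765), .ofNat (nat_lit 751770), .ofNat (nat_lit 649977), .ofNat (nat_lit 701594), .ofNat (nat_lit 693563), .ofNat (nat_lit 745180)⟩, ⟨.ofNat (nat_lit 260409), .ofNat (nat_lit 399546), .ofNat (nat_lit 303743), .ofNat (nat_lit 442879), .ofNat (nat_lit 261131), .ofNat (nat_lit 396626), .ofNat (nat_lit 304717), .ofNat (nat_lit 440213)⟩⟩, [⟨nat_lit 13, nat_lit 74, nat_lit 75, nat_lit 100, nat_lit 252959923⟩, ⟨nat_lit 4, nat_lit 100, nat_lit 74, nat_lit 72, nat_lit 164101859⟩]⟩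
noncomputable def p075_l134 : Lf2 := ⟨nat_lit 0, nat_lit 20, [nat_lit 5, nat_lit 5, nat_lit 5, nat_lit 20], false, nat_lit 160, nat_lit 232, nat_lit 0, nat_lit 384, ⟨nat_lit 0, nat_lit 648, nat_lit 352, nat_lit 6, nat_lit 241, nat_lit 1000, nat_lit 136, nat_lit 352, nat_lit 173400, nat_lit 317, nat_lit 111002, nat_lit 200, nat_lit 43410361, nat_lit 16783120, nat_lit 6806519, nat_lit 4601992, false, true⟩,
 nat_lit 0, nat_lit 4112, nat_lit 0, nat_lit 0, nat_lit 3328, nat_lit 0, nat_lit 0, nat_lit 0, nat_lit 0, nat_lit 0, nat_lit 0, nat_lit 0, nat_lit 0, nat_lit 0, nat_lit 0, nat_lit 352450, nat_lit 0, nat_lit 0, [(nat_lit 22, [(nat_lit 0, nat_lit 317), (nat_lit 1, nat_lit 331), (nat_lit 5, nat_lit 352)])],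
 ⟨p075_k22, nat_lit 0, nat_lit 0, nat_lit 182, nat_lit 0, nat_lit 308880, [nat_lit 1290238401, nat_lit 855529600, nat_lit 78186667], [], [nat_lit 22418435964, nat_lit 23269177772, nat_lit 25362211287, nat_lit 26224251693, nat_lit 23744529517, nat_lit 24569438202, nat_lit 26616216294, nat_lit 27619087208], nat_lit 1271250, nat_lit 1271250, nat_lit 1271250, nat_lit 1271250, nat_lit 1100001, nat_lit 1716500, [nat_lit 490000, nat_lit 1100000, nat_lit 1785000], [nat_lit 34, nat_lit 40, nat_lit 40, nat_lit 80, nat_lit 7, nat_lit 272, nat_lit 60, nat_lit 7]⟩, ⟨p075_k15, nat_lit 0, nat_lit 0, nat_lit 879, nat_lit 0, nat_lit 991268, [nat_lit 0, nat_lit 0, nat_lit 0], [], [nat_lit 0, nat_lit 0, nat_lit 0, nat_lit 0, nat_lit 0, nat_lit 0, nat_lit 0, nat_lit 0], nat_lit 1100001, nat_lit 1271250, nat_lit 1271250, nat_lit 1271250, nat_lit 0, nat_lit 2712000, [nat_lit 1695000, nat_lit 1271250, nat_lit 1271250], [nat_lit 97,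 nat_lit 40, nat_lit 40, nat_lit 80, nat_lit 76, nat_lit 456, nat_lit 225, nat_lit 10]⟩,
 ⟨nat_lit 3162, nat_lit 3873, ⟨.ofNat (nat_lit 520934), .ofNat (nat_lit 669333), .ofNat (nat_lit 542727), .ofNat (nat_lit 691126), .ofNat (nat_lit 516642), .ofNat (nat_lit 656835), .ofNat (nat_lit 538797), .ofNat (nat_lit 678990)⟩, ⟨.ofNat (nat_lit 261131), .ofNat (nat_lit 377270), .ofNat (nat_lit 304717), .ofNat (nat_lit 420856), .ofNat (nat_lit 261806), .ofNat (nat_lit 371522), .ofNat (nat_lit 306116), .ofNat (nat_lit 415832)⟩⟩, [⟨nat_lit 13, nat_lit 67, nat_lit 85, nat_lit 100, nat_lit 229547518⟩, ⟨nat_lit 16, nat_lit 66, nat_lit 100, nat_lit 72, nat_lit 201938012⟩]⟩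
noncomputable def p075_l135 : Lf2 := ⟨nat_lit 0, nat_lit 20, [nat_lit 5, nat_lit 5, nat_lit 5, nat_lit 20], false, nat_lit 160, nat_lit 232, nat_lit 0, nat_lit 372, ⟨nat_lit 0, nat_lit 740, nat_lit 260, nat_lit 6, nat_lit 253, nat_lit 1000, nat_lit 136, nat_lit 260, nat_lit 173400, nat_lit 317, nat_lit 193302, nat_lit 200, nat_lit 42324986, nat_lit 17966348, nat_lit 6708666, nat_lit 4671354, true, true⟩,
 nat_lit 0, nat_lit 4040, nat_lit 0, nat_lit 0, nat_lit 3270, nat_lit 0, nat_lit 0, nat_lit 0, nat_lit 0, nat_lit 0, nat_lit 0, nat_lit 0, nat_lit 0, nat_lit 0, nat_lit 0, nat_lit 390400, nat_lit 0, nat_lit 0, [(nat_lit 22, [(nat_lit 0, nat_lit 64), (nat_lit 1, nat_lit 676), (nat_lit 5, nat_lit 260)])],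
 ⟨p075_k22, nat_lit 0, nat_lit 0, nat_lit 186, nat_lit 0, nat_lit 312518, [nat_lit 1272390401, nat_lit 967512001, nat_lit 204717333], [], [nat_lit 22779322875, nat_lit 23624654095, nat_lit 26019068503, nat_lit 26851257302, nat_lit 24108939406, nat_lit 24867914131, nat_lit 27157621669, nat_lit 28121802361], nat_lit 1271250, nat_lit 1271250, nat_lit 1271250, nat_lit 1271250, nat_lit 1100001, nat_lit 1716500, [nat_lit 490000, nat_lit 1100000, nat_lit 1785000], [nat_lit 34, nat_lit 40, nat_lit 40, nat_lit 80, nat_lit 7, nat_lit 272, nat_lit 60, nat_lit 7]⟩, ⟨p075_k24, nat_lit 0, nat_lit 0, nat_lit 809, nat_lit 0, nat_lit 833503, [nat_lit 0, nat_lit 0, nat_lit 0], [], [nat_lit 0, nat_lit 0, nat_lit 0, nat_lit 0, nat_lit 0, nat_lit 0, nat_lit 0, nat_lit 0], nat_lit 1271250, nat_lit 1271250, nat_lit 1271250, nat_lit 1271250, nat_lit 0, nat_lit 2627250, [nat_lit 1695000, nat_lit 1271250, nat_lit 1271250], [nat_lit 97,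 nat_lit 40, nat_lit 40, nat_lit 80, nat_lit 76, nat_lit 483, nat_lit 250, nat_lit 10]⟩,
 ⟨nat_lit 3162, nat_lit 3873, ⟨.ofNat (nat_lit 542727), .ofNat (nat_lit 710483), .ofNat (nat_lit 564520), .ofNat (nat_lit 732276), .ofNat (nat_lit 538797), .ofNat (nat_lit 697276), .ofNat (nat_lit 560952), .ofNat (nat_lit 719431)⟩, ⟨.ofNat (nat_lit 261131), .ofNat (nat_lit 377270), .ofNat (nat_lit 304717), .ofNat (nat_lit 420856), .ofNat (nat_lit 261806), .ofNat (nat_lit 371522), .ofNat (nat_lit 306116), .ofNat (nat_lit 415832)⟩⟩, [⟨nat_lit 13, nat_lit 66, nat_lit 78, nat_lit 100, nat_lit 210879826⟩, ⟨nat_lit 4, nat_lit 100, nat_lit 66, nat_lit 72, nat_lit 185517790⟩]⟩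
noncomputable def b_V_800_400_10_9 : St := ⟨true, nat_lit 1, nat_lit 1, nat_lit 1, nat_lit 80, nat_lit 320, nat_lit 360, nat_lit 160, nat_lit 200, nat_lit 16, nat_lit 360, nat_lit 40, nat_lit 80, nat_lit 160, nat_lit 260, nat_lit 0, nat_lit 384, nat_lit 40, nat_lit 80, nat_lit 0, nat_lit 0, nat_lit 0, nat_lit 0⟩
theorem d_V_800_400_10_9 (h : EB TB.env) : Dead b_V_800_400_10_9 := chkB_sound0 h (T :=
(.spl (nat_lit 2) (nat_lit 160)
(.leaf p075_l128)
(.spl (nat_lit 2) (nat_lit 240)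
(.leaf p075_l129)
(.spl (nat_lit 0) (nat_lit 340)
(.spl (nat_lit 2) (nat_lit 320)
(.spl (nat_lit 0) (nat_lit 330)
(.leaf p075_l130)
(.trX (nat_lit 16) (nat_lit 78) (nat_lit 100) (nat_lit 82) (nat_lit 244) (.leaf p075_l131)))
(.trZ (nat_lit 9) (nat_lit 100) (nat_lit 82) (nat_lit 44) (nat_lit 16) (.spl (nat_lit 0) (nat_lit 330)
(.leaf p075_l132)
(.trX (nat_lit 13) (nat_lit 76) (nat_lit 65) (nat_lit 100) (nat_lit 352) (.trX (nat_lit 16) (nat_lit 78) (nat_lit 100) (nat_lit 82) (nat_lit 244) (.leaf p075_l133))))))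
(.trX (nat_lit 13) (nat_lit 71) (nat_lit 70) (nat_lit 100) (nat_lit 344) (.trX (nat_lit 16) (nat_lit 72) (nat_lit 100) (nat_lit 81) (nat_lit 232) (.spl (nat_lit 1) (nat_lit 180)
(.trX (nat_lit 13) (nat_lit 72) (nat_lit 77) (nat_lit 100) (nat_lit 332) (.leaf p075_l134))
(.trX (nat_lit 19) (nat_lit 100) (nat_lit 52) (nat_lit 80) (nat_lit 372) (.leaf p075_l135))))))))) (by decide +kernel)
noncomputable def p075_l136 : Lf2 := ⟨nat_lit 0, nat_lit 20, [nat_lit 5, nat_lit 5, nat_lit 5, nat_lit 20], true, nat_lit 0, nat_lit 160, nat_lit 0, nat_lit 384, ⟨nat_lit 0, nat_lit 1000, nat_lit 0, nat_lit 4, nat_lit 183, nat_lit 1000, nat_lit 57, nat_lit 0, nat_lit 0, nat_lit 0, nat_lit 0, nat_lit 0, nat_lit 0, nat_lit 0, nat_lit 0, nat_lit 5000000, false, true⟩,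
 nat_lit 0, nat_lit 5612, nat_lit 0, nat_lit 0, nat_lit 4208, nat_lit 0, nat_lit 0, nat_lit 0, nat_lit 0, nat_lit 0, nat_lit 0, nat_lit 0, nat_lit 0, nat_lit 0, nat_lit 0, nat_lit 400000, nat_lit 0, nat_lit 0, [(nat_lit 19, [(nat_lit 1, nat_lit 1000)]), (nat_lit 22, [(nat_lit 1, nat_lit 1000)])],
 ⟨p075_k30, nat_lit 0, nat_lit 0, nat_lit 532, nat_lit 0, nat_lit 508069, [nat_lit 1550600000, nat_lit 2053400001, nat_lit 1832000000], [], [nat_lit 27794674064, nat_lit 29500883101, nat_lit 31024732000, nat_lit 32873475008, nat_lit 26609637034, nat_lit 27994679684, nat_lit 34551406082, nat_lit 31015423682], nat_lit 1271250, nat_lit 1271250, nat_lit 88400, nat_lit 2569500, nat_lit 0, nat_lit 1100001, [nat_lit 490000, nat_lit 1427500, nat_lit 1271250], [nat_lit 61, nat_lit 40, nat_lit 40, nat_lit 80, nat_lit 1, nat_lit 373, nat_lit 150, nat_lit 11]⟩, C1.Rw.none,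
 ⟨nat_lit 3162, nat_lit 4473, ⟨.ofNat (nat_lit 143971), .ofNat (nat_lit 728778), .ofNat (nat_lit 186943), .ofNat (nat_lit 771911), .ofNat (nat_lit 175109), .ofNat (nat_lit 699502), .ofNat (nat_lit 219258), .ofNat (nat_lit 743812)⟩, ⟨.negSucc (nat_lit 12437), .ofNat (nat_lit 259488), .ofNat (nat_lit 0), .ofNat (nat_lit 302621), .ofNat (nat_lit 0), .ofNat (nat_lit 261805), .ofNat (nat_lit 0), .ofNat (nat_lit 306116)⟩⟩, [⟨nat_lit 13, nat_lit 72, nat_lit 77, nat_lit 100, nat_lit 141850307⟩]⟩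
noncomputable def p075_l137 : Lf2 := ⟨nat_lit 0, nat_lit 20, [nat_lit 5, nat_lit 5, nat_lit 5, nat_lit 20], true, nat_lit 160, nat_lit 260, nat_lit 0, nat_lit 384, ⟨nat_lit 0, nat_lit 1000, nat_lit 0, nat_lit 4, nat_lit 183, nat_lit 1000, nat_lit 145, nat_lit 0, nat_lit 0, nat_lit 0, nat_lit 0, nat_lit 0, nat_lit 0, nat_lit 0, nat_lit 0, nat_lit 5000000, false, true⟩,
 nat_lit 0, nat_lit 7005, nat_lit 0, nat_lit 195, nat_lit 5253, nat_lit 0, nat_lit 0, nat_lit 0, nat_lit 0, nat_lit 0, nat_lit 0, nat_lit 0, nat_lit 0, nat_lit 0, nat_lit 0, nat_lit 365200, nat_lit 0, nat_lit 0, [(nat_lit 19, [(nat_lit 0, nat_lit 232), (nat_lit 1, nat_lit 768)]), (nat_lit 22, [(nat_lit 0, nat_lit 232), (nat_lit 1, nat_lit 768)])],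
 ⟨p075_k13, nat_lit 0, nat_lit 0, nat_lit 429, nat_lit 0, nat_lit 508069, [nat_lit 1938633601, nat_lit 2194587886], [], [nat_lit 31598675752, nat_lit 28842449926, nat_lit 28329631676, nat_lit 29941939468, nat_lit 28501142601, nat_lit 29719368759, nat_lit 35556660497, nat_lit 31666269247], nat_lit 1271250, nat_lit 1271250, nat_lit 88400, nat_lit 2569500, nat_lit 1100001, nat_lit 1956250, [nat_lit 490000, nat_lit 2052500], [nat_lit 94, nat_lit 40, nat_lit 40, nat_lit 80, nat_lit 95, nat_lit 401, nat_lit 175, nat_lit 11]⟩, C1.Rw.none,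
 ⟨nat_lit 3162, nat_lit 4473, ⟨.ofNat (nat_lit 143971), .ofNat (nat_lit 728778), .ofNat (nat_lit 186943), .ofNat (nat_lit 771911), .ofNat (nat_lit 175109), .ofNat (nat_lit 699502), .ofNat (nat_lit 219258), .ofNat (nat_lit 743812)⟩, ⟨.ofNat (nat_lit 259488), .ofNat (nat_lit 429433), .ofNat (nat_lit 302621), .ofNat (nat_lit 472567), .ofNat (nat_lit 261805), .ofNat (nat_lit 414188), .ofNat (nat_lit 306116), .ofNat (nat_lit 458499)⟩⟩, [⟨nat_lit 13, nat_lit 80, nat_lit 60, nat_lit 100, nat_lit 11635663⟩, ⟨nat_lit 4, nat_lit 100, nat_lit 71, nat_lit 71, nat_lit 857501665⟩]⟩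
noncomputable def p075_l138 : Lf2 := ⟨nat_lit 0, nat_lit 20, [nat_lit 5, nat_lit 5, nat_lit 5, nat_lit 20], true, nat_lit 0, nat_lit 260, nat_lit 0, nat_lit 384, ⟨nat_lit 0, nat_lit 1000, nat_lit 0, nat_lit 4, nat_lit 106, nat_lit 1000, nat_lit 89, nat_lit 0, nat_lit 0, nat_lit 0, nat_lit 0, nat_lit 0, nat_lit 0, nat_lit 0, nat_lit 0, nat_lit 5000000, false, false⟩,
 nat_lit 0, nat_lit 6439, nat_lit 0, nat_lit 0, nat_lit 4829, nat_lit 0, nat_lit 0, nat_lit 0, nat_lit 0, nat_lit 0, nat_lit 0, nat_lit 0, nat_lit 0, nat_lit 0, nat_lit 0, nat_lit 487600, nat_lit 0, nat_lit 0, [(nat_lit 19, [(nat_lit 1, nat_lit 854), (nat_lit 2, nat_lit 146)]), (nat_lit 22, [(nat_lit 1, nat_lit 854), (nat_lit 2, nat_lit 146)])],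
 ⟨p075_k13, nat_lit 0, nat_lit 0, nat_lit 548, nat_lit 0, nat_lit 508069, [nat_lit 2255760001, nat_lit 1157634666], [], [nat_lit 28110874861, nat_lit 29512090537, nat_lit 26535907233, nat_lit 27805958113, nat_lit 27137648854, nat_lit 28396795532, nat_lit 31989715608, nat_lit 27906979610], nat_lit 1271250, nat_lit 1271250, nat_lit 88400, nat_lit 780000, nat_lit 0, nat_lit 1836250, [nat_lit 490000, nat_lit 2052500], [nat_lit 94, nat_lit 40, nat_lit 40, nat_lit 80, nat_lit 95, nat_lit 317, nat_lit 100, nat_lit 9]⟩, C1.Rw.none,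
 ⟨nat_lit 3162, nat_lit 4473, ⟨.ofNat (nat_lit 143971), .ofNat (nat_lit 320902), .ofNat (nat_lit 186943), .ofNat (nat_lit 363888), .ofNat (nat_lit 175109), .ofNat (nat_lit 333775), .ofNat (nat_lit 219258), .ofNat (nat_lit 377938)⟩, ⟨.negSucc (nat_lit 12437), .ofNat (nat_lit 429433), .ofNat (nat_lit 0), .ofNat (nat_lit 472567), .ofNat (nat_lit 0), .ofNat (nat_lit 414188), .ofNat (nat_lit 0), .ofNat (nat_lit 458499)⟩⟩, [⟨nat_lit 0, nat_lit 100, nat_lit 60, nat_lit 80, nat_lit 68219240⟩, ⟨nat_lit 16, nat_lit 71, nat_lit 100, nat_lit 71, nat_lit 147596993⟩]⟩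
noncomputable def p075_l139 : Lf2 := ⟨nat_lit 0, nat_lit 20, [nat_lit 5, nat_lit 5, nat_lit 5, nat_lit 20], false, nat_lit 0, nat_lit 260, nat_lit 0, nat_lit 384, ⟨nat_lit 0, nat_lit 1000, nat_lit 0, nat_lit 4, nat_lit 217, nat_lit 1000, nat_lit 89, nat_lit 0, nat_lit 0, nat_lit 0, nat_lit 0, nat_lit 0, nat_lit 0, nat_lit 0, nat_lit 0, nat_lit 5000000, false, true⟩,
 nat_lit 0, nat_lit 5745, nat_lit 0, nat_lit 1395, nat_lit 4308, nat_lit 0, nat_lit 0, nat_lit 0, nat_lit 0, nat_lit 0, nat_lit 0, nat_lit 0, nat_lit 0, nat_lit 0, nat_lit 0, nat_lit 426400, nat_lit 0, nat_lit 0, [(nat_lit 19, [(nat_lit 1, nat_lit 956), (nat_lit 2, nat_lit 44)]), (nat_lit 22, [(nat_lit 1, nat_lit 956), (nat_lit 2, nat_lit 44)])],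
 ⟨p075_k30, nat_lit 0, nat_lit 0, nat_lit 368, nat_lit 0, nat_lit 343112, [nat_lit 1582904800, nat_lit 1962628001, nat_lit 1612668800], [], [nat_lit 30110247521, nat_lit 26664547010, nat_lit 30893750800, nat_lit 32760382176, nat_lit 25204449014, nat_lit 26560334302, nat_lit 35212178725, nat_lit 31569928429], nat_lit 1271250, nat_lit 1271250, nat_lit 780000, nat_lit 2745000, nat_lit 0, nat_lit 1836250, [nat_lit 490000, nat_lit 1427500, nat_lit 1271250], [nat_lit 61, nat_lit 40, nat_lit 40, nat_lit 80, nat_lit 1, nat_lit 401, nat_lit 175, nat_lit 11]⟩, ⟨p075_k31, nat_lit 0, nat_lit 0, nat_lit 946, nat_lit 0, nat_lit 1002941, [nat_lit 0, nat_lit 0, nat_lit 0], [], [nat_lit 0, nat_lit 0, nat_lit 0, nat_lit 0, nat_lit 0, nat_lit 0, nat_lit 0, nat_lit 0], nat_lit 1100001, nat_lit 1442500, nat_lit 1271250, nat_lit 1271250, nat_lit 0, nat_lit 2712000, [nat_lit 1695000, nat_lit 1271250, nat_lit 1271250], [nat_lit 202,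 nat_lit 40, nat_lit 40, nat_lit 80, nat_lit 204, nat_lit 483, nat_lit 250, nat_lit 10]⟩,
 ⟨nat_lit 3162, nat_lit 4473, ⟨.ofNat (nat_lit 320902), .ofNat (nat_lit 728778), .ofNat (nat_lit 363888), .ofNat (nat_lit 771911), .ofNat (nat_lit 333775), .ofNat (nat_lit 699502), .ofNat (nat_lit 377938), .ofNat (nat_lit 743812)⟩, ⟨.negSucc (nat_lit 12437), .ofNat (nat_lit 429433), .ofNat (nat_lit 0), .ofNat (nat_lit 472567), .ofNat (nat_lit 0), .ofNat (nat_lit 414188), .ofNat (nat_lit 0), .ofNat (nat_lit 458499)⟩⟩, [⟨nat_lit 13, nat_lit 80, nat_lit 60, nat_lit 100, nat_lit 182288739⟩, ⟨nat_lit 4, nat_lit 100, nat_lit 71, nat_lit 71, nat_lit 170299815⟩]⟩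
noncomputable def b_V_800_400_10_10 : St := ⟨true, nat_lit 1, nat_lit 2, nat_lit 2, nat_lit 80, nat_lit 320, nat_lit 360, nat_lit 160, nat_lit 200, nat_lit 16, nat_lit 360, nat_lit 40, nat_lit 80, nat_lit 0, nat_lit 260, nat_lit 0, nat_lit 384, nat_lit 40, nat_lit 80, nat_lit 0, nat_lit 0, nat_lit 0, nat_lit 0⟩
theorem d_V_800_400_10_10 (h : EB TB.env) : Dead b_V_800_400_10_10 := chkB_sound0 h (T :=
(.st (nat_lit 1)
(.spl (nat_lit 4) (nat_lit 160)
(.leaf p075_l136)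
(.leaf p075_l137))
(.spl (nat_lit 2) (nat_lit 120)
(.leaf p075_l138)
(.leaf p075_l139)))) (by decide +kernel)

end B2
end Pool.Agent.Lib.MP_6947cd_al
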