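import Pool.Agent.Lib.MP_6947cd_al.ZB.Pre

/-!
Problem MP_6947cd_al (Chollet).  Case B, second entry in [2/5, 17/20]: certificates of the tree, part P076 (generated).
-/

set_option autoImplicit false
set_option linter.all false

namespace Pool.Agent.Lib.MP_6947cd_al
namespace B2

open Ent Fr B1 PkA

noncomputable def p076_k0 : C1.Kn := ⟨[nat_lit 40, nat_lit 140], [nat_lit 0, nat_lit 0], [(nat_lit 0, nat_lit 0, nat_lit 0), (nat_lit 0, nat_lit 0, nat_lit 0)], (nat_lit 83, nat_lit 100, nat_lit 83)⟩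
noncomputable def p076_k1 : C1.Kn := ⟨[nat_lit 40, nat_lit 80, nat_lit 120], [nat_lit 0, nat_lit 795, nat_lit 2800], [(nat_lit 0, nat_lit 0, nat_lit 0), (nat_lit 1000, nat_lit 814, nat_lit 310), (nat_lit 1000, nat_lit 719, nat_lit 783)], (nat_lit 72, nat_lit 100, nat_lit 81)⟩
noncomputable def p076_k2 : C1.Kn := ⟨[nat_lit 120, nat_lit 160, nat_lit 200], [nat_lit 0, nat_lit 0, nat_lit 3198], [(nat_lit 0, nat_lit 0, nat_lit 0), (nat_lit 0, nat_lit 0, nat_lit 0), (nat_lit 572, nat_lit 1000, nat_lit 714)], (nat_lit 0, nat_lit 0, nat_lit 0)⟩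
noncomputable def p076_k3 : C1.Kn := ⟨[nat_lit 40, nat_lit 80, nat_lit 120], [nat_lit 0, nat_lit 1195, nat_lit 3135], [(nat_lit 0, nat_lit 0, nat_lit 0), (nat_lit 1000, nat_lit 720, nat_lit 465), (nat_lit 1000, nat_lit 661, nat_lit 757)], (nat_lit 66, nat_lit 100, nat_lit 80)⟩
noncomputable def p076_k4 : C1.Kn := ⟨[nat_lit 40, nat_lit 80, nat_lit 140], [nat_lit 0, nat_lit 0, nat_lit 3199], [(nat_lit 0, nat_lit 0, nat_lit 0), (nat_lit 0, nat_lit 0, nat_lit 0), (nat_lit 1000, nat_lit 833, nat_lit 833)], (nat_lit 83, nat_lit 100, nat_lit 83)⟩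
noncomputable def p076_k5 : C1.Kn := ⟨[nat_lit 40, nat_lit 120], [nat_lit 0, nat_lit 1589], [(nat_lit 0, nat_lit 0, nat_lit 0), (nat_lit 1000, nat_lit 814, nat_lit 310)], (nat_lit 72, nat_lit 100, nat_lit 81)⟩
noncomputable def p076_k6 : C1.Kn := ⟨[nat_lit 40, nat_lit 100, nat_lit 120], [nat_lit 0, nat_lit 1192, nat_lit 2817], [(nat_lit 0, nat_lit 0, nat_lit 0), (nat_lit 1000, nat_lit 814, nat_lit 310), (nat_lit 1000, nat_lit 727, nat_lit 834)], (nat_lit 72, nat_lit 100, nat_lit 81)⟩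
noncomputable def p076_k7 : C1.Kn := ⟨[nat_lit 40, nat_lit 80, nat_lit 120], [nat_lit 0, nat_lit 795, nat_lit 2800], [(nat_lit 0, nat_lit 0, nat_lit 0), (nat_lit 1000, nat_lit 814, nat_lit 310), (nat_lit 1000, nat_lit 719, nat_lit 783)], (nat_lit 71, nat_lit 100, nat_lit 71)⟩
noncomputable def p076_k8 : C1.Kn := ⟨[nat_lit 40, nat_lit 120], [nat_lit 0, nat_lit 1589], [(nat_lit 0, nat_lit 0, nat_lit 0), (nat_lit 1000, nat_lit 814, nat_lit 310)], (nat_lit 71, nat_lit 100, nat_lit 71)⟩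
noncomputable def p076_k9 : C1.Kn := ⟨[nat_lit 40, nat_lit 80, nat_lit 100], [nat_lit 0, nat_lit 1195, nat_lit 2166], [(nat_lit 0, nat_lit 0, nat_lit 0), (nat_lit 1000, nat_lit 720, nat_lit 465), (nat_lit 1000, nat_lit 662, nat_lit 740)], (nat_lit 66, nat_lit 100, nat_lit 72)⟩
noncomputable def p076_k10 : C1.Kn := ⟨[nat_lit 120, nat_lit 200], [nat_lit 0, nat_lit 1066], [(nat_lit 0, nat_lit 0, nat_lit 0), (nat_lit 960, nat_lit 1000, nat_lit 200)], (nat_lit 0, nat_lit 0, nat_lit 0)⟩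
noncomputable def p076_k11 : C1.Kn := ⟨[nat_lit 120, nat_lit 160, nat_lit 200], [nat_lit 0, nat_lit 533, nat_lit 3597], [(nat_lit 0, nat_lit 0, nat_lit 0), (nat_lit 960, nat_lit 1000, nat_lit 200), (nat_lit 612, nat_lit 1000, nat_lit 732)], (nat_lit 0, nat_lit 0, nat_lit 0)⟩
noncomputable def p076_k12 : C1.Kn := ⟨[nat_lit 40, nat_lit 100, nat_lit 140], [nat_lit 0, nat_lit 0, nat_lit 3243], [(nat_lit 0, nat_lit 0, nat_lit 0), (nat_lit 0, nat_lit 0, nat_lit 0), (nat_lit 1000, nat_lit 870, nat_lit 941)], (nat_lit 83, nat_lit 100, nat_lit 83)⟩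
noncomputable def p076_k13 : C1.Kn := ⟨[nat_lit 120, nat_lit 180, nat_lit 200], [nat_lit 0, nat_lit 0, nat_lit 4246], [(nat_lit 0, nat_lit 0, nat_lit 0), (nat_lit 0, nat_lit 0, nat_lit 0), (nat_lit 279, nat_lit 1000, nat_lit 906)], (nat_lit 0, nat_lit 0, nat_lit 0)⟩
noncomputable def p076_k14 : C1.Kn := ⟨[nat_lit 40, nat_lit 100], [nat_lit 0, nat_lit 0], [(nat_lit 0, nat_lit 0, nat_lit 0), (nat_lit 0, nat_lit 0, nat_lit 0)], (nat_lit 80, nat_lit 100, nat_lit 60)⟩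
noncomputable def p076_k15 : C1.Kn := ⟨[nat_lit 40, nat_lit 60, nat_lit 100], [nat_lit 0, nat_lit 0, nat_lit 1216], [(nat_lit 0, nat_lit 0, nat_lit 0), (nat_lit 0, nat_lit 0, nat_lit 0), (nat_lit 1000, nat_lit 810, nat_lit 474)], (nat_lit 80, nat_lit 100, nat_lit 60)⟩
noncomputable def p076_k16 : C1.Kn := ⟨[nat_lit 120, nat_lit 140, nat_lit 180], [nat_lit 0, nat_lit 0, nat_lit 1219], [(nat_lit 0, nat_lit 0, nat_lit 0), (nat_lit 0, nat_lit 0, nat_lit 0), (nat_lit 840, nat_lit 1000, nat_lit 400)], (nat_lit 100, nat_lit 68, nat_lit 61)⟩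
noncomputable def p076_k17 : C1.Kn := ⟨[nat_lit 40, nat_lit 60, nat_lit 100], [nat_lit 0, nat_lit 398, nat_lit 1586], [(nat_lit 0, nat_lit 0, nat_lit 0), (nat_lit 1000, nat_lit 814, nat_lit 310), (nat_lit 1000, nat_lit 752, nat_lit 464)], (nat_lit 72, nat_lit 100, nat_lit 61)⟩
noncomputable def p076_k18 : C1.Kn := ⟨[nat_lit 40, nat_lit 80, nat_lit 100], [nat_lit 0, nat_lit 0, nat_lit 1280], [(nat_lit 0, nat_lit 0, nat_lit 0), (nat_lit 0, nat_lit 0, nat_lit 0), (nat_lit 1000, nat_lit 800, nat_lit 600)], (nat_lit 80, nat_lit 100, nat_lit 60)⟩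
noncomputable def p076_k19 : C1.Kn := ⟨[nat_lit 40, nat_lit 100], [nat_lit 0, nat_lit 1192], [(nat_lit 0, nat_lit 0, nat_lit 0), (nat_lit 1000, nat_lit 814, nat_lit 310)], (nat_lit 72, nat_lit 100, nat_lit 61)⟩
noncomputable def p076_k20 : C1.Kn := ⟨[nat_lit 40, nat_lit 60, nat_lit 100], [nat_lit 0, nat_lit 0, nat_lit 1216], [(nat_lit 0, nat_lit 0, nat_lit 0), (nat_lit 0, nat_lit 0, nat_lit 0), (nat_lit 1000, nat_lit 810, nat_lit 474)], (nat_lit 80, nat_lit 100, nat_lit 54)⟩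
noncomputable def p076_k21 : C1.Kn := ⟨[nat_lit 40, nat_lit 100], [nat_lit 0, nat_lit 592], [(nat_lit 0, nat_lit 0, nat_lit 0), (nat_lit 1000, nat_lit 908, nat_lit 154)], (nat_lit 76, nat_lit 100, nat_lit 60)⟩
noncomputable def p076_k22 : C1.Kn := ⟨[nat_lit 40, nat_lit 80, nat_lit 100], [nat_lit 0, nat_lit 395, nat_lit 1536], [(nat_lit 0, nat_lit 0, nat_lit 0), (nat_lit 1000, nat_lit 908, nat_lit 154), (nat_lit 1000, nat_lit 760, nat_lit 642)], (nat_lit 76, nat_lit 100, nat_lit 60)⟩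
noncomputable def p076_k23 : C1.Kn := ⟨[nat_lit 120, nat_lit 160, nat_lit 180], [nat_lit 0, nat_lit 533, nat_lit 2066], [(nat_lit 0, nat_lit 0, nat_lit 0), (nat_lit 960, nat_lit 1000, nat_lit 200), (nat_lit 615, nat_lit 1000, nat_lit 729)], (nat_lit 100, nat_lit 74, nat_lit 60)⟩
noncomputable def p076_k24 : C1.Kn := ⟨[nat_lit 40, nat_lit 80, nat_lit 100], [nat_lit 0, nat_lit 795, nat_lit 1829], [(nat_lit 0, nat_lit 0, nat_lit 0), (nat_lit 1000, nat_lit 814, nat_lit 310), (nat_lit 1000, nat_lit 714, nat_lit 692)], (nat_lit 72, nat_lit 100, nat_lit 61)⟩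
noncomputable def p076_k25 : C1.Kn := ⟨[nat_lit 120, nat_lit 160, nat_lit 180], [nat_lit 0, nat_lit 0, nat_lit 1613], [(nat_lit 0, nat_lit 0, nat_lit 0), (nat_lit 0, nat_lit 0, nat_lit 0), (nat_lit 620, nat_lit 1000, nat_lit 670)], (nat_lit 100, nat_lit 68, nat_lit 61)⟩
noncomputable def p076_k26 : C1.Kn := ⟨[nat_lit 40, nat_lit 80], [nat_lit 0, nat_lit 1195], [(nat_lit 0, nat_lit 0, nat_lit 0), (nat_lit 1000, nat_lit 720, nat_lit 465)], (nat_lit 68, nat_lit 100, nat_lit 61)⟩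
noncomputable def p076_k27 : C1.Kn := ⟨[nat_lit 40, nat_lit 80], [nat_lit 0, nat_lit 1399], [(nat_lit 0, nat_lit 0, nat_lit 0), (nat_lit 1000, nat_lit 672, nat_lit 546)], (nat_lit 65, nat_lit 100, nat_lit 62)⟩
noncomputable def p076_k28 : C1.Kn := ⟨[nat_lit 120, nat_lit 140, nat_lit 180], [nat_lit 0, nat_lit 0, nat_lit 1219], [(nat_lit 0, nat_lit 0, nat_lit 0), (nat_lit 0, nat_lit 0, nat_lit 0), (nat_lit 840, nat_lit 1000, nat_lit 400)], (nat_lit 100, nat_lit 73, nat_lit 55)⟩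
noncomputable def p076_k29 : C1.Kn := ⟨[nat_lit 40, nat_lit 60, nat_lit 100], [nat_lit 0, nat_lit 197, nat_lit 1403], [(nat_lit 0, nat_lit 0, nat_lit 0), (nat_lit 1000, nat_lit 908, nat_lit 154), (nat_lit 1000, nat_lit 781, nat_lit 471)], (nat_lit 76, nat_lit 100, nat_lit 60)⟩
noncomputable def p076_k30 : C1.Kn := ⟨[nat_lit 40, nat_lit 60, nat_lit 100], [nat_lit 0, nat_lit 297, nat_lit 1492], [(nat_lit 0, nat_lit 0, nat_lit 0), (nat_lit 1000, nat_lit 861, nat_lit 231), (nat_lit 1000, nat_lit 767, nat_lit 466)], (nat_lit 74, nat_lit 100, nat_lit 60)⟩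
noncomputable def p076_k31 : C1.Kn := ⟨[nat_lit 40, nat_lit 60, nat_lit 100], [nat_lit 0, nat_lit 499, nat_lit 1679], [(nat_lit 0, nat_lit 0, nat_lit 0), (nat_lit 1000, nat_lit 767, nat_lit 387), (nat_lit 1000, nat_lit 738, nat_lit 461)], (nat_lit 70, nat_lit 100, nat_lit 61)⟩
noncomputable def p076_k32 : C1.Kn := ⟨[nat_lit 120, nat_lit 180], [nat_lit 0, nat_lit 0], [(nat_lit 0, nat_lit 0, nat_lit 0), (nat_lit 0, nat_lit 0, nat_lit 0)], (nat_lit 100, nat_lit 68, nat_lit 61)⟩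
noncomputable def p076_k33 : C1.Kn := ⟨[nat_lit 40, nat_lit 80, nat_lit 100], [nat_lit 0, nat_lit 593, nat_lit 1677], [(nat_lit 0, nat_lit 0, nat_lit 0), (nat_lit 1000, nat_lit 861, nat_lit 231), (nat_lit 1000, nat_lit 738, nat_lit 662)], (nat_lit 74, nat_lit 100, nat_lit 60)⟩
noncomputable def p076_l0 : Lf2 := ⟨nat_lit 0, nat_lit 20, [nat_lit 5, nat_lit 5, nat_lit 5, nat_lit 20], true, nat_lit 0, nat_lit 260, nat_lit 0, nat_lit 384, ⟨nat_lit 0, nat_lit 0, nat_lit 1000, nat_lit 4, nat_lit 119, nat_lit 1000, nat_lit 89, nat_lit 1000, nat_lit 72600, nat_lit 281, nat_lit 132017, nat_lit 304, nat_lit 61553016, nat_lit 0, nat_lit 0, nat_lit 1409640, false, false⟩,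
 nat_lit 0, nat_lit 0, nat_lit 0, nat_lit 3353, nat_lit 3268, nat_lit 0, nat_lit 0, nat_lit 0, nat_lit 0, nat_lit 0, nat_lit 0, nat_lit 0, nat_lit 0, nat_lit 0, nat_lit 81, nat_lit 250000, nat_lit 0, nat_lit 0, [(nat_lit 19, [(nat_lit 4, nat_lit 1000)]), (nat_lit 22, [(nat_lit 4, nat_lit 1000)])],
 ⟨p076_k0, nat_lit 0, nat_lit 0, nat_lit 307, nat_lit 0, nat_lit 0, [nat_lit 2166400000, nat_lit 172800000], [], [nat_lit 20376001252, nat_lit 23034288612, nat_lit 20155700976, nat_lit 22060337536, nat_lit 22331543351, nat_lit 24137405781, nat_lit 22331787988, nat_lit 24118153548], nat_lit 0, nat_lit 0, nat_lit 0, nat_lit 0, nat_lit 0, nat_lit 0, [], [nat_lit 94, nat_lit 40, nat_lit 40, nat_lit 80, nat_lit 95, nat_lit 345, nat_lit 125, nat_lit 10]⟩, C1.Rw.none,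
 ⟨nat_lit 3162, nat_lit 4473, ⟨.ofNat (nat_lit 143971), .ofNat (nat_lit 388887), .ofNat (nat_lit 186943), .ofNat (nat_lit 431944), .ofNat (nat_lit 175109), .ofNat (nat_lit 394735), .ofNat (nat_lit 219258), .ofNat (nat_lit 438969)⟩, ⟨.negSucc (nat_lit 12437), .ofNat (nat_lit 429433), .ofNat (nat_lit 0), .ofNat (nat_lit 472567), .ofNat (nat_lit 0), .ofNat (nat_lit 414188), .ofNat (nat_lit 0), .ofNat (nat_lit 458499)⟩⟩, [⟨nat_lit 0, nat_lit 100, nat_lit 60, nat_lit 80, nat_lit 109909614⟩]⟩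
noncomputable def p076_l1 : Lf2 := ⟨nat_lit 1, nat_lit 15, [nat_lit 30, nat_lit 5, nat_lit 5, nat_lit 20], false, nat_lit 0, nat_lit 160, nat_lit 0, nat_lit 368, zbN0,
 nat_lit 0, nat_lit 0, nat_lit 0, nat_lit 0, nat_lit 0, nat_lit 0, nat_lit 0, nat_lit 0, nat_lit 0, nat_lit 0, nat_lit 0, nat_lit 0, nat_lit 0, nat_lit 0, nat_lit 0, nat_lit 0, nat_lit 0, nat_lit 0, [],
 C1.Rw.none, C1.Rw.none,
 zbF0, []⟩
noncomputable def p076_l2 : Lf2 := ⟨nat_lit 1, nat_lit 20, [nat_lit 5, nat_lit 5, nat_lit 5, nat_lit 20], false, nat_lit 0, nat_lit 160, nat_lit 0, nat_lit 384, zbN0,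
 nat_lit 0, nat_lit 0, nat_lit 0, nat_lit 0, nat_lit 0, nat_lit 0, nat_lit 0, nat_lit 0, nat_lit 0, nat_lit 0, nat_lit 0, nat_lit 0, nat_lit 0, nat_lit 0, nat_lit 0, nat_lit 0, nat_lit 0, nat_lit 0, [],
 C1.Rw.none, C1.Rw.none,
 zbF0, []⟩
noncomputable def p076_l3 : Lf2 := ⟨nat_lit 1, nat_lit 20, [nat_lit 5, nat_lit 5, nat_lit 5, nat_lit 20], false, nat_lit 0, nat_lit 160, nat_lit 0, nat_lit 384, zbN0,
 nat_lit 0, nat_lit 0, nat_lit 0, nat_lit 0, nat_lit 0, nat_lit 0, nat_lit 0, nat_lit 0, nat_lit 0, nat_lit 0, nat_lit 0, nat_lit 0, nat_lit 0, nat_lit 0, nat_lit 0, nat_lit 0, nat_lit 0, nat_lit 0, [],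
 C1.Rw.none, C1.Rw.none,
 zbF0, []⟩
noncomputable def p076_l4 : Lf2 := ⟨nat_lit 0, nat_lit 20, [nat_lit 5, nat_lit 5, nat_lit 5, nat_lit 20], false, nat_lit 0, nat_lit 80, nat_lit 0, nat_lit 384, ⟨nat_lit 291, nat_lit 0, nat_lit 709, nat_lit 4, nat_lit 224, nat_lit 709, nat_lit 31, nat_lit 709, nat_lit 8817, nat_lit 238, nat_lit 193302, nat_lit 200, nat_lit 50967548, nat_lit 0, nat_lit 0, nat_lit 2751301, false, true⟩,
 nat_lit 0, nat_lit 0, nat_lit 0, nat_lit 5731, nat_lit 2822, nat_lit 3500, nat_lit 0, nat_lit 0, nat_lit 0, nat_lit 244, nat_lit 0, nat_lit 0, nat_lit 0, nat_lit 0, nat_lit 10, nat_lit 283600, nat_lit 0, nat_lit 0, [(nat_lit 22, [(nat_lit 5, nat_lit 709)])],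
 ⟨p076_k1, nat_lit 0, nat_lit 0, nat_lit 177, nat_lit 0, nat_lit 0, [nat_lit 1363296000, nat_lit 952470400, nat_lit 30856667], [], [nat_lit 21285265903, nat_lit 21812302385, nat_lit 26862478020, nat_lit 27291219963, nat_lit 20665804939, nat_lit 21162534623, nat_lit 25967287912, nat_lit 26357389062], nat_lit 0, nat_lit 0, nat_lit 0, nat_lit 0, nat_lit 0, nat_lit 0, [], [nat_lit 34, nat_lit 40, nat_lit 40, nat_lit 80, nat_lit 7, nat_lit 345, nat_lit 125, nat_lit 11]⟩, ⟨p076_k2, nat_lit 0, nat_lit 0, nat_lit 433, nat_lit 0, nat_lit 0, [nat_lit 2318688000, nat_lit 3454752000, nat_lit 4772400000], [], [nat_lit 14086508544, nat_lit 13837270632, nat_lit 14391806897, nat_lit 14148207804, nat_lit 11376828190, nat_lit 11156217549, nat_lit 11830505896, nat_lit 11475306432], nat_lit 0, nat_lit 0, nat_lit 0, nat_lit 0, nat_lit 0, nat_lit 0, [], [nat_lit 97, nat_lit 40, nat_lit 40, nat_lit 80, nat_lit 76, nat_lit 483,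 nat_lit 250, nat_lit 10]⟩,
 ⟨nat_lit 3535, nat_lit 3873, ⟨.ofNat (nat_lit 391890), .ofNat (nat_lit 688690), .ofNat (nat_lit 435472), .ofNat (nat_lit 732276), .ofNat (nat_lit 393332), .ofNat (nat_lit 682034), .ofNat (nat_lit 437232), .ofNat (nat_lit 725940)⟩, ⟨.ofNat (nat_lit 0), .ofNat (nat_lit 132088), .ofNat (nat_lit 0), .ofNat (nat_lit 175674), .ofNat (nat_lit 0), .ofNat (nat_lit 136093), .ofNat (nat_lit 0), .ofNat (nat_lit 179999)⟩⟩, [⟨nat_lit 22, nat_lit 100, nat_lit 96, nat_lit 62, nat_lit 38009685⟩]⟩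
noncomputable def p076_l5 : Lf2 := ⟨nat_lit 0, nat_lit 20, [nat_lit 5, nat_lit 5, nat_lit 5, nat_lit 20], false, nat_lit 0, nat_lit 80, nat_lit 0, nat_lit 384, ⟨nat_lit 283, nat_lit 0, nat_lit 717, nat_lit 4, nat_lit 221, nat_lit 717, nat_lit 32, nat_lit 717, nat_lit 9600, nat_lit 239, nat_lit 155524, nat_lit 200, nat_lit 51345203, nat_lit 0, nat_lit 0, nat_lit 2718266, false, true⟩,
 nat_lit 0, nat_lit 0, nat_lit 0, nat_lit 5629, nat_lit 2776, nat_lit 3426, nat_lit 0, nat_lit 0, nat_lit 0, nat_lit 241, nat_lit 0, nat_lit 0, nat_lit 0, nat_lit 0, nat_lit 13, nat_lit 286800, nat_lit 0, nat_lit 0, [(nat_lit 22, [(nat_lit 5, nat_lit 717)])],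
 ⟨p076_k3, nat_lit 0, nat_lit 0, nat_lit 178, nat_lit 0, nat_lit 0, [nat_lit 1378848001, nat_lit 956515201, nat_lit 11470000], [], [nat_lit 21733171546, nat_lit 22256779602, nat_lit 26877391380, nat_lit 27313264589, nat_lit 21114144250, nat_lit 21607731122, nat_lit 26008750767, nat_lit 26405816505], nat_lit 0, nat_lit 0, nat_lit 0, nat_lit 0, nat_lit 0, nat_lit 0, [], [nat_lit 34, nat_lit 40, nat_lit 40, nat_lit 80, nat_lit 7, nat_lit 345, nat_lit 125, nat_lit 11]⟩, ⟨p076_k2, nat_lit 0, nat_lit 0, nat_lit 433, nat_lit 0, nat_lit 0, [nat_lit 2254944000, nat_lit 3359776000, nat_lit 4641200000], [], [nat_lit 13631925084, nat_lit 13386513252, nat_lit 13847943240, nat_lit 13565326621, nat_lit 11032229792, nat_lit 10814817535, nat_lit 11386464914, nat_lit 11044847775], nat_lit 0, nat_lit 0, nat_lit 0, nat_lit 0, nat_lit 0, nat_lit 0, [], [nat_lit 97, nat_lit 40, nat_lit 40, nat_lit 80, nat_lit 76, nat_lit 483,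 nat_lit 250, nat_lit 10]⟩,
 ⟨nat_lit 3162, nat_lit 3536, ⟨.ofNat (nat_lit 393332), .ofNat (nat_lit 669482), .ofNat (nat_lit 437228), .ofNat (nat_lit 713387), .ofNat (nat_lit 394735), .ofNat (nat_lit 662930), .ofNat (nat_lit 439036), .ofNat (nat_lit 707240)⟩, ⟨.ofNat (nat_lit 0), .ofNat (nat_lit 136093), .ofNat (nat_lit 0), .ofNat (nat_lit 179999), .ofNat (nat_lit 0), .ofNat (nat_lit 139899), .ofNat (nat_lit 0), .ofNat (nat_lit 184209)⟩⟩, [⟨nat_lit 22, nat_lit 100, nat_lit 95, nat_lit 62, nat_lit 38834327⟩]⟩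
noncomputable def p076_l6 : Lf2 := ⟨nat_lit 0, nat_lit 20, [nat_lit 5, nat_lit 5, nat_lit 5, nat_lit 20], true, nat_lit 80, nat_lit 160, nat_lit 0, nat_lit 384, ⟨nat_lit 0, nat_lit 513, nat_lit 487, nat_lit 4, nat_lit 224, nat_lit 1000, nat_lit 88, nat_lit 487, nat_lit 72600, nat_lit 281, nat_lit 193302, nat_lit 200, nat_lit 47693916, nat_lit 15631482, nat_lit 3674602, nat_lit 3912313, false, true⟩,
 nat_lit 0, nat_lit 0, nat_lit 0, nat_lit 3010, nat_lit 3384, nat_lit 0, nat_lit 0, nat_lit 0, nat_lit 0, nat_lit 0, nat_lit 0, nat_lit 0, nat_lit 0, nat_lit 0, nat_lit 0, nat_lit 250000, nat_lit 0, nat_lit 0, [(nat_lit 22, [(nat_lit 0, nat_lit 513), (nat_lit 4, nat_lit 487)])],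
 ⟨p076_k1, nat_lit 0, nat_lit 0, nat_lit 126, nat_lit 0, nat_lit 0, [nat_lit 1530598400, nat_lit 810181600, nat_lit 298297867], [], [nat_lit 19601312379, nat_lit 20859757675, nat_lit 25886414012, nat_lit 26830619258, nat_lit 20415688059, nat_lit 21553533867, nat_lit 26138265221, nat_lit 26940220946], nat_lit 0, nat_lit 0, nat_lit 0, nat_lit 0, nat_lit 0, nat_lit 0, [], [nat_lit 34, nat_lit 40, nat_lit 40, nat_lit 80, nat_lit 7, nat_lit 373, nat_lit 150, nat_lit 12]⟩, C1.Rw.none,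
 ⟨nat_lit 3162, nat_lit 3873, ⟨.ofNat (nat_lit 391890), .ofNat (nat_lit 688690), .ofNat (nat_lit 435446), .ofNat (nat_lit 732276), .ofNat (nat_lit 394735), .ofNat (nat_lit 675121), .ofNat (nat_lit 439014), .ofNat (nat_lit 719431)⟩, ⟨.ofNat (nat_lit 132088), .ofNat (nat_lit 261131), .ofNat (nat_lit 175674), .ofNat (nat_lit 304717), .ofNat (nat_lit 139899), .ofNat (nat_lit 261806), .ofNat (nat_lit 184209), .ofNat (nat_lit 306116)⟩⟩, [⟨nat_lit 13, nat_lit 71, nat_lit 70, nat_lit 100, nat_lit 195638824⟩]⟩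
noncomputable def p076_l7 : Lf2 := ⟨nat_lit 0, nat_lit 20, [nat_lit 5, nat_lit 5, nat_lit 5, nat_lit 20], true, nat_lit 160, nat_lit 260, nat_lit 0, nat_lit 384, ⟨nat_lit 0, nat_lit 1000, nat_lit 0, nat_lit 4, nat_lit 230, nat_lit 1000, nat_lit 145, nat_lit 0, nat_lit 0, nat_lit 0, nat_lit 0, nat_lit 0, nat_lit 43781122, nat_lit 15645805, nat_lit 7573073, nat_lit 4631572, false, true⟩,
 nat_lit 0, nat_lit 0, nat_lit 0, nat_lit 4985, nat_lit 3851, nat_lit 0, nat_lit 0, nat_lit 0, nat_lit 0, nat_lit 0, nat_lit 0, nat_lit 0, nat_lit 0, nat_lit 0, nat_lit 0, nat_lit 250000, nat_lit 0, nat_lit 0, [(nat_lit 19, [(nat_lit 0, nat_lit 1000)]), (nat_lit 22, [(nat_lit 0, nat_lit 1000)])],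
 ⟨p076_k4, nat_lit 0, nat_lit 0, nat_lit 73, nat_lit 0, nat_lit 0, [nat_lit 1568000001, nat_lit 2368400000, nat_lit 3220880000], [], [nat_lit 18099938917, nat_lit 20881329645, nat_lit 26372359796, nat_lit 28298925400, nat_lit 21502095478, nat_lit 23916897233, nat_lit 28400384989, nat_lit 30187861649], nat_lit 0, nat_lit 0, nat_lit 0, nat_lit 0, nat_lit 0, nat_lit 0, [], [nat_lit 27, nat_lit 40, nat_lit 40, nat_lit 80, nat_lit 13, nat_lit 401, nat_lit 175, nat_lit 11]⟩, C1.Rw.none,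
 ⟨nat_lit 3162, nat_lit 4473, ⟨.ofNat (nat_lit 388887), .ofNat (nat_lit 728778), .ofNat (nat_lit 431944), .ofNat (nat_lit 771911), .ofNat (nat_lit 394735), .ofNat (nat_lit 699502), .ofNat (nat_lit 438969), .ofNat (nat_lit 743812)⟩, ⟨.ofNat (nat_lit 259488), .ofNat (nat_lit 429433), .ofNat (nat_lit 302621), .ofNat (nat_lit 472567), .ofNat (nat_lit 261805), .ofNat (nat_lit 414188), .ofNat (nat_lit 306116), .ofNat (nat_lit 458499)⟩⟩, [⟨nat_lit 13, nat_lit 72, nat_lit 77, nat_lit 100, nat_lit 170609033⟩, ⟨nat_lit 4, nat_lit 100, nat_lit 71, nat_lit 71, nat_lit 207099850⟩]⟩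
noncomputable def p076_l8 : Lf2 := ⟨nat_lit 0, nat_lit 20, [nat_lit 5, nat_lit 5, nat_lit 5, nat_lit 20], true, nat_lit 0, nat_lit 260, nat_lit 0, nat_lit 384, ⟨nat_lit 0, nat_lit 0, nat_lit 1000, nat_lit 4, nat_lit 119, nat_lit 1000, nat_lit 89, nat_lit 1000, nat_lit 72600, nat_lit 281, nat_lit 132017, nat_lit 304, nat_lit 61553016, nat_lit 0, nat_lit 0, nat_lit 1409640, false, false⟩,
 nat_lit 0, nat_lit 0, nat_lit 0, nat_lit 3353, nat_lit 3268, nat_lit 0, nat_lit 0, nat_lit 0, nat_lit 0, nat_lit 0, nat_lit 0, nat_lit 0, nat_lit 0, nat_lit 0, nat_lit 81, nat_lit 250000, nat_lit 0, nat_lit 0, [(nat_lit 19, [(nat_lit 4, nat_lit 1000)]), (nat_lit 22, [(nat_lit 4, nat_lit 1000)])],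
 ⟨p076_k0, nat_lit 0, nat_lit 0, nat_lit 307, nat_lit 0, nat_lit 0, [nat_lit 2166400000, nat_lit 172800000], [], [nat_lit 20376001252, nat_lit 23034288612, nat_lit 20155700976, nat_lit 22060337536, nat_lit 22331543351, nat_lit 24137405781, nat_lit 22331787988, nat_lit 24118153548], nat_lit 0, nat_lit 0, nat_lit 0, nat_lit 0, nat_lit 0, nat_lit 0, [], [nat_lit 94, nat_lit 40, nat_lit 40, nat_lit 80, nat_lit 95, nat_lit 345, nat_lit 125, nat_lit 10]⟩, C1.Rw.none,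
 ⟨nat_lit 3162, nat_lit 4473, ⟨.ofNat (nat_lit 143971), .ofNat (nat_lit 388887), .ofNat (nat_lit 186943), .ofNat (nat_lit 431944), .ofNat (nat_lit 175109), .ofNat (nat_lit 394735), .ofNat (nat_lit 219258), .ofNat (nat_lit 438969)⟩, ⟨.negSucc (nat_lit 12437), .ofNat (nat_lit 429433), .ofNat (nat_lit 0), .ofNat (nat_lit 472567), .ofNat (nat_lit 0), .ofNat (nat_lit 414188), .ofNat (nat_lit 0), .ofNat (nat_lit 458499)⟩⟩, [⟨nat_lit 0, nat_lit 100, nat_lit 60, nat_lit 80, nat_lit 109909614⟩]⟩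
noncomputable def p076_l9 : Lf2 := ⟨nat_lit 0, nat_lit 20, [nat_lit 5, nat_lit 5, nat_lit 5, nat_lit 20], true, nat_lit 0, nat_lit 160, nat_lit 0, nat_lit 384, ⟨nat_lit 0, nat_lit 0, nat_lit 1000, nat_lit 4, nat_lit 191, nat_lit 491, nat_lit 57, nat_lit 1000, nat_lit 29400, nat_lit 257, nat_lit 1350, nat_lit 224, nat_lit 54533725, nat_lit 0, nat_lit 0, nat_lit 2402322, false, true⟩,
 nat_lit 0, nat_lit 0, nat_lit 0, nat_lit 5470, nat_lit 3209, nat_lit 0, nat_lit 0, nat_lit 0, nat_lit 0, nat_lit 0, nat_lit 0, nat_lit 0, nat_lit 0, nat_lit 0, nat_lit 81, nat_lit 250000, nat_lit 0, nat_lit 0, [(nat_lit 19, [(nat_lit 4, nat_lit 1000)]), (nat_lit 22, [(nat_lit 4, nat_lit 1000)])],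
 ⟨p076_k0, nat_lit 0, nat_lit 0, nat_lit 174, nat_lit 0, nat_lit 0, [nat_lit 2166400000, nat_lit 172800000], [], [nat_lit 19420202556, nat_lit 21683007520, nat_lit 21509518772, nat_lit 23496436492, nat_lit 19348197680, nat_lit 21286040344, nat_lit 21180325936, nat_lit 22892083288], nat_lit 0, nat_lit 0, nat_lit 0, nat_lit 0, nat_lit 0, nat_lit 0, [], [nat_lit 94, nat_lit 40, nat_lit 40, nat_lit 80, nat_lit 95, nat_lit 317, nat_lit 100, nat_lit 9]⟩, C1.Rw.none,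
 ⟨nat_lit 3162, nat_lit 4473, ⟨.ofNat (nat_lit 388887), .ofNat (nat_lit 524844), .ofNat (nat_lit 431944), .ofNat (nat_lit 567977), .ofNat (nat_lit 394735), .ofNat (nat_lit 516642), .ofNat (nat_lit 438969), .ofNat (nat_lit 560952)⟩, ⟨.negSucc (nat_lit 12437), .ofNat (nat_lit 259488), .ofNat (nat_lit 0), .ofNat (nat_lit 302621), .ofNat (nat_lit 0), .ofNat (nat_lit 261805), .ofNat (nat_lit 0), .ofNat (nat_lit 306116)⟩⟩, []⟩
noncomputable def p076_l10 : Lf2 := ⟨nat_lit 1, nat_lit 15, [nat_lit 30, nat_lit 5, nat_lit 5, nat_lit 20], false, nat_lit 0, nat_lit 160, nat_lit 0, nat_lit 368, zbN0,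
 nat_lit 0, nat_lit 0, nat_lit 0, nat_lit 0, nat_lit 0, nat_lit 0, nat_lit 0, nat_lit 0, nat_lit 0, nat_lit 0, nat_lit 0, nat_lit 0, nat_lit 0, nat_lit 0, nat_lit 0, nat_lit 0, nat_lit 0, nat_lit 0, [],
 C1.Rw.none, C1.Rw.none,
 zbF0, []⟩
noncomputable def p076_l11 : Lf2 := ⟨nat_lit 1, nat_lit 20, [nat_lit 5, nat_lit 5, nat_lit 5, nat_lit 20], false, nat_lit 0, nat_lit 160, nat_lit 0, nat_lit 384, zbN0,
 nat_lit 0, nat_lit 0, nat_lit 0, nat_lit 0, nat_lit 0, nat_lit 0, nat_lit 0, nat_lit 0, nat_lit 0, nat_lit 0, nat_lit 0, nat_lit 0, nat_lit 0, nat_lit 0, nat_lit 0, nat_lit 0, nat_lit 0, nat_lit 0, [],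
 C1.Rw.none, C1.Rw.none,
 zbF0, []⟩
noncomputable def p076_l12 : Lf2 := ⟨nat_lit 1, nat_lit 20, [nat_lit 5, nat_lit 5, nat_lit 5, nat_lit 20], false, nat_lit 0, nat_lit 160, nat_lit 0, nat_lit 384, zbN0,
 nat_lit 0, nat_lit 0, nat_lit 0, nat_lit 0, nat_lit 0, nat_lit 0, nat_lit 0, nat_lit 0, nat_lit 0, nat_lit 0, nat_lit 0, nat_lit 0, nat_lit 0, nat_lit 0, nat_lit 0, nat_lit 0, nat_lit 0, nat_lit 0, [],
 C1.Rw.none, C1.Rw.none,
 zbF0, []⟩
noncomputable def p076_l13 : Lf2 := ⟨nat_lit 0, nat_lit 20, [nat_lit 5, nat_lit 5, nat_lit 5, nat_lit 20], true, nat_lit 0, nat_lit 160, nat_lit 0, nat_lit 384, ⟨nat_lit 0, nat_lit 375, nat_lit 625, nat_lit 6, nat_lit 237, nat_lit 1000, nat_lit 57, nat_lit 625, nat_lit 30817, nat_lit 258, nat_lit 72290, nat_lit 200, nat_lit 49590286, nat_lit 17409714, nat_lit 0, nat_lit 2864480, false, true⟩,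
 nat_lit 0, nat_lit 0, nat_lit 0, nat_lit 4695, nat_lit 2521, nat_lit 0, nat_lit 0, nat_lit 0, nat_lit 0, nat_lit 0, nat_lit 0, nat_lit 0, nat_lit 0, nat_lit 0, nat_lit 51, nat_lit 343750, nat_lit 0, nat_lit 0, [(nat_lit 22, [(nat_lit 0, nat_lit 375), (nat_lit 5, nat_lit 625)])],
 ⟨p076_k1, nat_lit 0, nat_lit 0, nat_lit 174, nat_lit 0, nat_lit 0, [nat_lit 1606000001, nat_lit 1051050000, nat_lit 28916667], [], [nat_lit 22152415319, nat_lit 23130579485, nat_lit 24981026507, nat_lit 25821900711, nat_lit 22533625543, nat_lit 23379615997, nat_lit 25028616817, nat_lit 25923039975], nat_lit 0, nat_lit 0, nat_lit 0, nat_lit 0, nat_lit 0, nat_lit 0, [], [nat_lit 34, nat_lit 40, nat_lit 40, nat_lit 80, nat_lit 7, nat_lit 249, nat_lit 40, nat_lit 7]⟩, C1.Rw.none,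
 ⟨nat_lit 3162, nat_lit 3873, ⟨.ofNat (nat_lit 520934), .ofNat (nat_lit 649977), .ofNat (nat_lit 542727), .ofNat (nat_lit 671770), .ofNat (nat_lit 516642), .ofNat (nat_lit 638549), .ofNat (nat_lit 538797), .ofNat (nat_lit 660704)⟩, ⟨.ofNat (nat_lit 0), .ofNat (nat_lit 261131), .ofNat (nat_lit 0), .ofNat (nat_lit 304717), .ofNat (nat_lit 0), .ofNat (nat_lit 261806), .ofNat (nat_lit 0), .ofNat (nat_lit 306116)⟩⟩, [⟨nat_lit 13, nat_lit 67, nat_lit 85, nat_lit 100, nat_lit 244169973⟩, ⟨nat_lit 13, nat_lit 61, nat_lit 92, nat_lit 100, nat_lit 25490489⟩]⟩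
noncomputable def p076_l14 : Lf2 := ⟨nat_lit 0, nat_lit 20, [nat_lit 5, nat_lit 5, nat_lit 5, nat_lit 20], true, nat_lit 0, nat_lit 160, nat_lit 0, nat_lit 372, ⟨nat_lit 0, nat_lit 291, nat_lit 709, nat_lit 6, nat_lit 233, nat_lit 831, nat_lit 57, nat_lit 709, nat_lit 30817, nat_lit 258, nat_lit 5706, nat_lit 203, nat_lit 49999024, nat_lit 17000976, nat_lit 0, nat_lit 2832064, true, true⟩,
 nat_lit 0, nat_lit 0, nat_lit 0, nat_lit 5470, nat_lit 3025, nat_lit 0, nat_lit 0, nat_lit 0, nat_lit 0, nat_lit 0, nat_lit 0, nat_lit 0, nat_lit 0, nat_lit 0, nat_lit 34, nat_lit 250000, nat_lit 0, nat_lit 0, [(nat_lit 22, [(nat_lit 0, nat_lit 291), (nat_lit 4, nat_lit 709)])],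
 ⟨p076_k5, nat_lit 0, nat_lit 0, nat_lit 152, nat_lit 0, nat_lit 0, [nat_lit 1785548800, nat_lit 3252000], [], [nat_lit 22575487850, nat_lit 23624336000, nat_lit 23971420800, nat_lit 24948872200, nat_lit 22471519450, nat_lit 23372936800, nat_lit 23687687300, nat_lit 24534704200], nat_lit 0, nat_lit 0, nat_lit 0, nat_lit 0, nat_lit 0, nat_lit 0, [], [nat_lit 110, nat_lit 40, nat_lit 40, nat_lit 80, nat_lit 109, nat_lit 249, nat_lit 40, nat_lit 7]⟩, C1.Rw.none,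
 ⟨nat_lit 3162, nat_lit 3873, ⟨.ofNat (nat_lit 542727), .ofNat (nat_lit 607248), .ofNat (nat_lit 564520), .ofNat (nat_lit 629042), .ofNat (nat_lit 538797), .ofNat (nat_lit 599750), .ofNat (nat_lit 560952), .ofNat (nat_lit 621905)⟩, ⟨.ofNat (nat_lit 0), .ofNat (nat_lit 261131), .ofNat (nat_lit 0), .ofNat (nat_lit 304717), .ofNat (nat_lit 0), .ofNat (nat_lit 261806), .ofNat (nat_lit 0), .ofNat (nat_lit 306116)⟩⟩, []⟩
noncomputable def p076_l15 : Lf2 := ⟨nat_lit 0, nat_lit 20, [nat_lit 5, nat_lit 5, nat_lit 5, nat_lit 20], true, nat_lit 0, nat_lit 80, nat_lit 0, nat_lit 300, ⟨nat_lit 0, nat_lit 486, nat_lit 514, nat_lit 7, nat_lit 252, nat_lit 1000, nat_lit 32, nat_lit 514, nat_lit 9600, nat_lit 239, nat_lit 51354, nat_lit 200, nat_lit 47955966, nat_lit 19044034, nat_lit 0, nat_lit 2984562, true, true⟩,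
 nat_lit 0, nat_lit 0, nat_lit 0, nat_lit 4845, nat_lit 3249, nat_lit 0, nat_lit 0, nat_lit 0, nat_lit 0, nat_lit 0, nat_lit 0, nat_lit 0, nat_lit 0, nat_lit 0, nat_lit 0, nat_lit 250000, nat_lit 0, nat_lit 0, [(nat_lit 22, [(nat_lit 0, nat_lit 486), (nat_lit 4, nat_lit 514)])],
 ⟨p076_k5, nat_lit 0, nat_lit 0, nat_lit 156, nat_lit 0, nat_lit 0, [nat_lit 1528524801, nat_lit 156792000], [], [nat_lit 24732677154, nat_lit 25731037614, nat_lit 25531811489, nat_lit 26495395086, nat_lit 23661768826, nat_lit 24605295182, nat_lit 24421244027, nat_lit 25326578900], nat_lit 0, nat_lit 0, nat_lit 0, nat_lit 0, nat_lit 0, nat_lit 0, [], [nat_lit 110, nat_lit 40, nat_lit 40, nat_lit 80, nat_lit 109, nat_lit 226, nat_lit 20, nat_lit 6]⟩, C1.Rw.none,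
 ⟨nat_lit 3162, nat_lit 3873, ⟨.ofNat (nat_lit 607248), .ofNat (nat_lit 639509), .ofNat (nat_lit 629042), .ofNat (nat_lit 661302), .ofNat (nat_lit 599750), .ofNat (nat_lit 630227), .ofNat (nat_lit 621905), .ofNat (nat_lit 652382)⟩, ⟨.ofNat (nat_lit 0), .ofNat (nat_lit 132088), .ofNat (nat_lit 0), .ofNat (nat_lit 175674), .ofNat (nat_lit 0), .ofNat (nat_lit 139899), .ofNat (nat_lit 0), .ofNat (nat_lit 184209)⟩⟩, [⟨nat_lit 3, nat_lit 100, nat_lit 75, nat_lit 35, nat_lit 99599539⟩]⟩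
noncomputable def p076_l16 : Lf2 := ⟨nat_lit 0, nat_lit 20, [nat_lit 5, nat_lit 5, nat_lit 5, nat_lit 20], true, nat_lit 0, nat_lit 80, nat_lit 0, nat_lit 280, ⟨nat_lit 0, nat_lit 616, nat_lit 384, nat_lit 7, nat_lit 265, nat_lit 1000, nat_lit 32, nat_lit 384, nat_lit 9600, nat_lit 239, nat_lit 115876, nat_lit 200, nat_lit 46604335, nat_lit 20395665, nat_lit 0, nat_lit 3072784, true, true⟩,
 nat_lit 0, nat_lit 0, nat_lit 0, nat_lit 5151, nat_lit 2665, nat_lit 0, nat_lit 0, nat_lit 0, nat_lit 0, nat_lit 0, nat_lit 0, nat_lit 0, nat_lit 0, nat_lit 0, nat_lit 22, nat_lit 400000, nat_lit 0, nat_lit 0, [(nat_lit 22, [(nat_lit 1, nat_lit 616), (nat_lit 5, nat_lit 384)])],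
 ⟨p076_k6, nat_lit 0, nat_lit 0, nat_lit 183, nat_lit 0, nat_lit 0, [nat_lit 1389036800, nat_lit 597024001, nat_lit 12476800], [], [nat_lit 24477266500, nat_lit 25414084970, nat_lit 25267140460, nat_lit 26164944500, nat_lit 23784980136, nat_lit 24684078451, nat_lit 24550929001, nat_lit 25413674081], nat_lit 0, nat_lit 0, nat_lit 0, nat_lit 0, nat_lit 0, nat_lit 0, [], [nat_lit 102, nat_lit 40, nat_lit 40, nat_lit 80, nat_lit 2, nat_lit 226, nat_lit 20, nat_lit 6]⟩, C1.Rw.none,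
 ⟨nat_lit 3162, nat_lit 3873, ⟨.ofNat (nat_lit 639509), .ofNat (nat_lit 671770), .ofNat (nat_lit 661302), .ofNat (nat_lit 693563), .ofNat (nat_lit 630227), .ofNat (nat_lit 660704), .ofNat (nat_lit 652382), .ofNat (nat_lit 682859)⟩, ⟨.ofNat (nat_lit 0), .ofNat (nat_lit 132088), .ofNat (nat_lit 0), .ofNat (nat_lit 175674), .ofNat (nat_lit 0), .ofNat (nat_lit 139899), .ofNat (nat_lit 0), .ofNat (nat_lit 184209)⟩⟩, [⟨nat_lit 3, nat_lit 100, nat_lit 75, nat_lit 35, nat_lit 50860225⟩]⟩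
noncomputable def p076_l17 : Lf2 := ⟨nat_lit 0, nat_lit 20, [nat_lit 5, nat_lit 5, nat_lit 5, nat_lit 20], true, nat_lit 80, nat_lit 160, nat_lit 0, nat_lit 364, ⟨nat_lit 0, nat_lit 478, nat_lit 522, nat_lit 7, nat_lit 258, nat_lit 1000, nat_lit 88, nat_lit 522, nat_lit 72600, nat_lit 281, nat_lit 115876, nat_lit 200, nat_lit 44356143, nat_lit 19089100, nat_lit 3554757, nat_lit 4147043, true, true⟩,
 nat_lit 0, nat_lit 0, nat_lit 0, nat_lit 2943, nat_lit 3474, nat_lit 0, nat_lit 0, nat_lit 0, nat_lit 0, nat_lit 0, nat_lit 0, nat_lit 0, nat_lit 0, nat_lit 0, nat_lit 0, nat_lit 250000, nat_lit 0, nat_lit 0, [(nat_lit 22, [(nat_lit 0, nat_lit 478), (nat_lit 4, nat_lit 522)])],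
 ⟨p076_k5, nat_lit 0, nat_lit 0, nat_lit 116, nat_lit 0, nat_lit 0, [nat_lit 1527910401, nat_lit 117016000], [], [nat_lit 22924462753, nat_lit 23950394713, nat_lit 24574907016, nat_lit 25572062632, nat_lit 23382580881, nat_lit 24315230633, nat_lit 24869728337, nat_lit 25732808456], nat_lit 0, nat_lit 0, nat_lit 0, nat_lit 0, nat_lit 0, nat_lit 0, [], [nat_lit 110, nat_lit 40, nat_lit 40, nat_lit 80, nat_lit 109, nat_lit 249, nat_lit 40, nat_lit 7]⟩, C1.Rw.none,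
 ⟨nat_lit 3162, nat_lit 3873, ⟨.ofNat (nat_lit 607248), .ofNat (nat_lit 671770), .ofNat (nat_lit 629042), .ofNat (nat_lit 693563), .ofNat (nat_lit 599750), .ofNat (nat_lit 660704), .ofNat (nat_lit 621905), .ofNat (nat_lit 682859)⟩, ⟨.ofNat (nat_lit 132088), .ofNat (nat_lit 261131), .ofNat (nat_lit 175674), .ofNat (nat_lit 304717), .ofNat (nat_lit 139899), .ofNat (nat_lit 261806), .ofNat (nat_lit 184209), .ofNat (nat_lit 306116)⟩⟩, []⟩
noncomputable def p076_l18 : Lf2 := ⟨nat_lit 1, nat_lit 15, [nat_lit 30, nat_lit 5, nat_lit 5, nat_lit 20], false, nat_lit 0, nat_lit 160, nat_lit 0, nat_lit 336, zbN0,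
 nat_lit 0, nat_lit 0, nat_lit 0, nat_lit 0, nat_lit 0, nat_lit 0, nat_lit 0, nat_lit 0, nat_lit 0, nat_lit 0, nat_lit 0, nat_lit 0, nat_lit 0, nat_lit 0, nat_lit 0, nat_lit 0, nat_lit 0, nat_lit 0, [],
 C1.Rw.none, C1.Rw.none,
 zbF0, []⟩
noncomputable def p076_l19 : Lf2 := ⟨nat_lit 1, nat_lit 20, [nat_lit 5, nat_lit 5, nat_lit 5, nat_lit 20], false, nat_lit 0, nat_lit 160, nat_lit 0, nat_lit 336, zbN0,
 nat_lit 0, nat_lit 0, nat_lit 0, nat_lit 0, nat_lit 0, nat_lit 0, nat_lit 0, nat_lit 0, nat_lit 0, nat_lit 0, nat_lit 0, nat_lit 0, nat_lit 0, nat_lit 0, nat_lit 0, nat_lit 0, nat_lit 0, nat_lit 0, [],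
 C1.Rw.none, C1.Rw.none,
 zbF0, []⟩
noncomputable def p076_l20 : Lf2 := ⟨nat_lit 1, nat_lit 20, [nat_lit 5, nat_lit 5, nat_lit 5, nat_lit 20], false, nat_lit 0, nat_lit 160, nat_lit 0, nat_lit 336, zbN0,
 nat_lit 0, nat_lit 0, nat_lit 0, nat_lit 0, nat_lit 0, nat_lit 0, nat_lit 0, nat_lit 0, nat_lit 0, nat_lit 0, nat_lit 0, nat_lit 0, nat_lit 0, nat_lit 0, nat_lit 0, nat_lit 0, nat_lit 0, nat_lit 0, [],
 C1.Rw.none, C1.Rw.none,
 zbF0, []⟩
noncomputable def p076_l21 : Lf2 := ⟨nat_lit 0, nat_lit 15, [nat_lit 30, nat_lit 5, nat_lit 5, nat_lit 20], true, nat_lit 0, nat_lit 80, nat_lit 0, nat_lit 260, ⟨nat_lit 0, nat_lit 649, nat_lit 351, nat_lit 8, nat_lit 274, nat_lit 653, nat_lit 29, nat_lit 351, nat_lit 8067, nat_lit 237, nat_lit 193302, nat_lit 200, nat_lit 45599796, nat_lit 21400204, nat_lit 0, nat_lit 3132103, true, true⟩,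
 nat_lit 0, nat_lit 0, nat_lit 0, nat_lit 5043, nat_lit 2731, nat_lit 0, nat_lit 0, nat_lit 0, nat_lit 0, nat_lit 0, nat_lit 0, nat_lit 0, nat_lit 0, nat_lit 0, nat_lit 15, nat_lit 400000, nat_lit 0, nat_lit 0, [(nat_lit 22, [(nat_lit 1, nat_lit 649), (nat_lit 5, nat_lit 351)])],
 ⟨p076_k7, nat_lit 0, nat_lit 0, nat_lit 180, nat_lit 0, nat_lit 0, [nat_lit 1344177601, nat_lit 966018801, nat_lit 32294000], [], [nat_lit 25780898586, nat_lit 26570595362, nat_lit 26698140399, nat_lit 27639034540, nat_lit 25028067292, nat_lit 25778181194, nat_lit 25891971313, nat_lit 26642666692], nat_lit 0, nat_lit 0, nat_lit 0, nat_lit 0, nat_lit 0, nat_lit 0, [], [nat_lit 34, nat_lit 40, nat_lit 40, nat_lit 80, nat_lit 7, nat_lit 226, nat_lit 20, nat_lit 6]⟩, C1.Rw.none,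
 ⟨nat_lit 3162, nat_lit 3873, ⟨.ofNat (nat_lit 649977), .ofNat (nat_lit 688690), .ofNat (nat_lit 693563), .ofNat (nat_lit 732276), .ofNat (nat_lit 638549), .ofNat (nat_lit 675121), .ofNat (nat_lit 682859), .ofNat (nat_lit 719431)⟩, ⟨.ofNat (nat_lit 0), .ofNat (nat_lit 132088), .ofNat (nat_lit 0), .ofNat (nat_lit 153881), .ofNat (nat_lit 0), .ofNat (nat_lit 139899), .ofNat (nat_lit 0), .ofNat (nat_lit 162054)⟩⟩, [⟨nat_lit 13, nat_lit 66, nat_lit 82, nat_lit 100, nat_lit 353949354⟩]⟩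
noncomputable def p076_l22 : Lf2 := ⟨nat_lit 1, nat_lit 20, [nat_lit 5, nat_lit 5, nat_lit 5, nat_lit 20], false, nat_lit 0, nat_lit 80, nat_lit 0, nat_lit 260, zbN0,
 nat_lit 0, nat_lit 0, nat_lit 0, nat_lit 0, nat_lit 0, nat_lit 0, nat_lit 0, nat_lit 0, nat_lit 0, nat_lit 0, nat_lit 0, nat_lit 0, nat_lit 0, nat_lit 0, nat_lit 0, nat_lit 0, nat_lit 0, nat_lit 0, [],
 C1.Rw.none, C1.Rw.none,
 zbF0, []⟩
noncomputable def p076_l23 : Lf2 := ⟨nat_lit 0, nat_lit 20, [nat_lit 5, nat_lit 5, nat_lit 5, nat_lit 20], true, nat_lit 0, nat_lit 80, nat_lit 0, nat_lit 260, ⟨nat_lit 0, nat_lit 1000, nat_lit 0, nat_lit 8, nat_lit 270, nat_lit 1000, nat_lit 34, nat_lit 0, nat_lit 0, nat_lit 0, nat_lit 0, nat_lit 0, nat_lit 45990416, nat_lit 21009584, nat_lit 0, nat_lit 3109659, true, true⟩,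
 nat_lit 0, nat_lit 0, nat_lit 0, nat_lit 6259, nat_lit 2921, nat_lit 0, nat_lit 168, nat_lit 0, nat_lit 0, nat_lit 0, nat_lit 0, nat_lit 0, nat_lit 0, nat_lit 0, nat_lit 0, nat_lit 400000, nat_lit 0, nat_lit 0, [(nat_lit 22, [(nat_lit 1, nat_lit 1000)])],
 ⟨p076_k3, nat_lit 0, nat_lit 0, nat_lit 178, nat_lit 0, nat_lit 0, [nat_lit 1358400001, nat_lit 1554800000, nat_lit 1406000000], [], [nat_lit 26368890853, nat_lit 26777014900, nat_lit 27073940032, nat_lit 27677355065, nat_lit 25464977932, nat_lit 25847752873, nat_lit 26039512796, nat_lit 26421954153], nat_lit 0, nat_lit 0, nat_lit 0, nat_lit 0, nat_lit 0, nat_lit 0, [], [nat_lit 34, nat_lit 40, nat_lit 40, nat_lit 80, nat_lit 7, nat_lit 226, nat_lit 20, nat_lit 6]⟩, C1.Rw.none,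
 ⟨nat_lit 3162, nat_lit 3536, ⟨.ofNat (nat_lit 644378), .ofNat (nat_lit 669482), .ofNat (nat_lit 688283), .ofNat (nat_lit 713387), .ofNat (nat_lit 638549), .ofNat (nat_lit 662930), .ofNat (nat_lit 682859), .ofNat (nat_lit 707240)⟩, ⟨.ofNat (nat_lit 0), .ofNat (nat_lit 158046), .ofNat (nat_lit 0), .ofNat (nat_lit 179999), .ofNat (nat_lit 0), .ofNat (nat_lit 162054), .ofNat (nat_lit 0), .ofNat (nat_lit 184209)⟩⟩, [⟨nat_lit 13, nat_lit 64, nat_lit 84, nat_lit 100, nat_lit 414840254⟩, ⟨nat_lit 3, nat_lit 100, nat_lit 83, nat_lit 23, nat_lit 35883819⟩]⟩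
noncomputable def p076_l24 : Lf2 := ⟨nat_lit 1, nat_lit 20, [nat_lit 5, nat_lit 5, nat_lit 5, nat_lit 20], false, nat_lit 0, nat_lit 80, nat_lit 0, nat_lit 260, zbN0,
 nat_lit 0, nat_lit 0, nat_lit 0, nat_lit 0, nat_lit 0, nat_lit 0, nat_lit 0, nat_lit 0, nat_lit 0, nat_lit 0, nat_lit 0, nat_lit 0, nat_lit 0, nat_lit 0, nat_lit 0, nat_lit 0, nat_lit 0, nat_lit 0, [],
 C1.Rw.none, C1.Rw.none,
 zbF0, []⟩
noncomputable def p076_l25 : Lf2 := ⟨nat_lit 0, nat_lit 20, [nat_lit 5, nat_lit 5, nat_lit 5, nat_lit 20], true, nat_lit 80, nat_lit 160, nat_lit 0, nat_lit 336, ⟨nat_lit 0, nat_lit 467, nat_lit 533, nat_lit 8, nat_lit 274, nat_lit 1000, nat_lit 88, nat_lit 533, nat_lit 72600, nat_lit 281, nat_lit 193302, nat_lit 200, nat_lit 42864651, nat_lit 20645797, nat_lit 3489552, nat_lit 4227013, true, true⟩,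
 nat_lit 0, nat_lit 0, nat_lit 0, nat_lit 3147, nat_lit 3301, nat_lit 0, nat_lit 0, nat_lit 0, nat_lit 0, nat_lit 0, nat_lit 0, nat_lit 0, nat_lit 0, nat_lit 0, nat_lit 4, nat_lit 267850, nat_lit 0, nat_lit 0, [(nat_lit 22, [(nat_lit 0, nat_lit 467), (nat_lit 4, nat_lit 414), (nat_lit 5, nat_lit 119)])],
 ⟨p076_k1, nat_lit 0, nat_lit 0, nat_lit 126, nat_lit 0, nat_lit 0, [nat_lit 1497756801, nat_lit 717668401, nat_lit 12601733], [], [nat_lit 24452105212, nat_lit 25372619478, nat_lit 25511657396, nat_lit 26704301027, nat_lit 24824541198, nat_lit 25664794694, nat_lit 25787982555, nat_lit 26821555632], nat_lit 0, nat_lit 0, nat_lit 0, nat_lit 0, nat_lit 0, nat_lit 0, [], [nat_lit 34, nat_lit 40, nat_lit 40, nat_lit 80, nat_lit 7, nat_lit 249, nat_lit 40, nat_lit 7]⟩, C1.Rw.none,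
 ⟨nat_lit 3162, nat_lit 3873, ⟨.ofNat (nat_lit 649977), .ofNat (nat_lit 688690), .ofNat (nat_lit 693563), .ofNat (nat_lit 732276), .ofNat (nat_lit 638549), .ofNat (nat_lit 675121), .ofNat (nat_lit 682859), .ofNat (nat_lit 719431)⟩, ⟨.ofNat (nat_lit 132088), .ofNat (nat_lit 261131), .ofNat (nat_lit 175674), .ofNat (nat_lit 304717), .ofNat (nat_lit 139899), .ofNat (nat_lit 261806), .ofNat (nat_lit 184209), .ofNat (nat_lit 306116)⟩⟩, [⟨nat_lit 13, nat_lit 71, nat_lit 70, nat_lit 100, nat_lit 317744651⟩]⟩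
noncomputable def p076_l26 : Lf2 := ⟨nat_lit 0, nat_lit 20, [nat_lit 5, nat_lit 5, nat_lit 5, nat_lit 20], true, nat_lit 160, nat_lit 260, nat_lit 0, nat_lit 384, ⟨nat_lit 0, nat_lit 1000, nat_lit 0, nat_lit 4, nat_lit 230, nat_lit 1000, nat_lit 145, nat_lit 0, nat_lit 0, nat_lit 0, nat_lit 0, nat_lit 0, nat_lit 43781122, nat_lit 15645805, nat_lit 7573073, nat_lit 4631572, false, true⟩,
 nat_lit 0, nat_lit 0, nat_lit 0, nat_lit 4985, nat_lit 3851, nat_lit 0, nat_lit 0, nat_lit 0, nat_lit 0, nat_lit 0, nat_lit 0, nat_lit 0, nat_lit 0, nat_lit 0, nat_lit 0, nat_lit 250000, nat_lit 0, nat_lit 0, [(nat_lit 19, [(nat_lit 0, nat_lit 1000)]), (nat_lit 22, [(nat_lit 0, nat_lit 1000)])],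
 ⟨p076_k4, nat_lit 0, nat_lit 0, nat_lit 73, nat_lit 0, nat_lit 0, [nat_lit 1568000001, nat_lit 2368400000, nat_lit 3220880000], [], [nat_lit 18099938917, nat_lit 20881329645, nat_lit 26372359796, nat_lit 28298925400, nat_lit 21502095478, nat_lit 23916897233, nat_lit 28400384989, nat_lit 30187861649], nat_lit 0, nat_lit 0, nat_lit 0, nat_lit 0, nat_lit 0, nat_lit 0, [], [nat_lit 27, nat_lit 40, nat_lit 40, nat_lit 80, nat_lit 13, nat_lit 401, nat_lit 175, nat_lit 11]⟩, C1.Rw.none,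
 ⟨nat_lit 3162, nat_lit 4473, ⟨.ofNat (nat_lit 388887), .ofNat (nat_lit 728778), .ofNat (nat_lit 431944), .ofNat (nat_lit 771911), .ofNat (nat_lit 394735), .ofNat (nat_lit 699502), .ofNat (nat_lit 438969), .ofNat (nat_lit 743812)⟩, ⟨.ofNat (nat_lit 259488), .ofNat (nat_lit 429433), .ofNat (nat_lit 302621), .ofNat (nat_lit 472567), .ofNat (nat_lit 261805), .ofNat (nat_lit 414188), .ofNat (nat_lit 306116), .ofNat (nat_lit 458499)⟩⟩, [⟨nat_lit 13, nat_lit 72, nat_lit 77, nat_lit 100, nat_lit 170609033⟩, ⟨nat_lit 4, nat_lit 100, nat_lit 71, nat_lit 71, nat_lit 207099850⟩]⟩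
noncomputable def p076_l27 : Lf2 := ⟨nat_lit 0, nat_lit 20, [nat_lit 5, nat_lit 5, nat_lit 5, nat_lit 20], true, nat_lit 0, nat_lit 260, nat_lit 0, nat_lit 384, ⟨nat_lit 0, nat_lit 1000, nat_lit 0, nat_lit 4, nat_lit 183, nat_lit 1000, nat_lit 89, nat_lit 0, nat_lit 0, nat_lit 0, nat_lit 0, nat_lit 0, nat_lit 0, nat_lit 0, nat_lit 0, nat_lit 5000000, false, true⟩,
 nat_lit 0, nat_lit 0, nat_lit 0, nat_lit 4648, nat_lit 4428, nat_lit 0, nat_lit 0, nat_lit 0, nat_lit 0, nat_lit 0, nat_lit 0, nat_lit 0, nat_lit 0, nat_lit 0, nat_lit 0, nat_lit 410200, nat_lit 0, nat_lit 0, [(nat_lit 19, [(nat_lit 1, nat_lit 983), (nat_lit 2, nat_lit 17)]), (nat_lit 22, [(nat_lit 1, nat_lit 983), (nat_lit 2, nat_lit 17)])],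
 ⟨p076_k0, nat_lit 0, nat_lit 0, nat_lit 307, nat_lit 0, nat_lit 0, [nat_lit 2054520001, nat_lit 1806933143], [], [nat_lit 28272814408, nat_lit 30590902920, nat_lit 31725560254, nat_lit 33083310816, nat_lit 28011898480, nat_lit 29535583521, nat_lit 30043206276, nat_lit 30927036267], nat_lit 0, nat_lit 0, nat_lit 0, nat_lit 0, nat_lit 0, nat_lit 0, [], [nat_lit 94, nat_lit 40, nat_lit 40, nat_lit 80, nat_lit 95, nat_lit 401, nat_lit 175, nat_lit 12]⟩, C1.Rw.none,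
 ⟨nat_lit 3162, nat_lit 4473, ⟨.ofNat (nat_lit 143971), .ofNat (nat_lit 728778), .ofNat (nat_lit 186943), .ofNat (nat_lit 771911), .ofNat (nat_lit 175109), .ofNat (nat_lit 699502), .ofNat (nat_lit 219258), .ofNat (nat_lit 743812)⟩, ⟨.negSucc (nat_lit 12437), .ofNat (nat_lit 429433), .ofNat (nat_lit 0), .ofNat (nat_lit 472567), .ofNat (nat_lit 0), .ofNat (nat_lit 414188), .ofNat (nat_lit 0), .ofNat (nat_lit 458499)⟩⟩, [⟨nat_lit 13, nat_lit 72, nat_lit 77, nat_lit 100, nat_lit 108468712⟩, ⟨nat_lit 4, nat_lit 100, nat_lit 71, nat_lit 71, nat_lit 45694707⟩]⟩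
noncomputable def b_V_800_400_10_11 : St := ⟨true, nat_lit 0, nat_lit 2, nat_lit 0, nat_lit 80, nat_lit 320, nat_lit 360, nat_lit 160, nat_lit 200, nat_lit 16, nat_lit 360, nat_lit 40, nat_lit 80, nat_lit 0, nat_lit 260, nat_lit 0, nat_lit 384, nat_lit 80, nat_lit 104, nat_lit 0, nat_lit 0, nat_lit 0, nat_lit 0⟩
theorem d_V_800_400_10_11 (h : EB TB.env) : Dead b_V_800_400_10_11 := chkB_sound0 h (T :=
(.gv
(.st (nat_lit 1)
(.spl (nat_lit 2) (nat_lit 160)
(.leaf p076_l0)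
(.spl (nat_lit 4) (nat_lit 160)
(.spl (nat_lit 0) (nat_lit 340)
(.spl (nat_lit 6) (nat_lit 84)
(.spl (nat_lit 3) (nat_lit 60)
(.trX (nat_lit 19) (nat_lit 100) (nat_lit 55) (nat_lit 73) (nat_lit 368) (.leaf p076_l1))
(.leaf p076_l2))
(.leaf p076_l3))
(.trX (nat_lit 13) (nat_lit 71) (nat_lit 70) (nat_lit 100) (nat_lit 344) (.spl (nat_lit 4) (nat_lit 80)
(.spl (nat_lit 0) (nat_lit 350)
(.leaf p076_l4)
(.trX (nat_lit 13) (nat_lit 66) (nat_lit 75) (nat_lit 100) (nat_lit 336) (.leaf p076_l5)))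
(.leaf p076_l6))))
(.leaf p076_l7)))
(.spl (nat_lit 2) (nat_lit 160)
(.leaf p076_l8)
(.spl (nat_lit 4) (nat_lit 160)
(.spl (nat_lit 2) (nat_lit 240)
(.leaf p076_l9)
(.spl (nat_lit 2) (nat_lit 320)
(.spl (nat_lit 0) (nat_lit 340)
(.spl (nat_lit 6) (nat_lit 84)
(.spl (nat_lit 3) (nat_lit 60)
(.trX (nat_lit 19) (nat_lit 100) (nat_lit 55) (nat_lit 73) (nat_lit 368) (.leaf p076_l10))
(.leaf p076_l11))
(.leaf p076_l12))
(.spl (nat_lit 1) (nat_lit 180)
(.leaf p076_l13)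
(.trX (nat_lit 19) (nat_lit 100) (nat_lit 52) (nat_lit 80) (nat_lit 372) (.spl (nat_lit 2) (nat_lit 280)
(.leaf p076_l14)
(.trX (nat_lit 22) (nat_lit 94) (nat_lit 59) (nat_lit 100) (nat_lit 364) (.spl (nat_lit 4) (nat_lit 80)
(.trX (nat_lit 22) (nat_lit 100) (nat_lit 95) (nat_lit 87) (nat_lit 300) (.spl (nat_lit 2) (nat_lit 300)
(.leaf p076_l15)
(.trX (nat_lit 22) (nat_lit 94) (nat_lit 100) (nat_lit 87) (nat_lit 280) (.leaf p076_l16))))
(.leaf p076_l17)))))))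
(.trX (nat_lit 22) (nat_lit 82) (nat_lit 76) (nat_lit 100) (nat_lit 336) (.spl (nat_lit 0) (nat_lit 340)
(.spl (nat_lit 6) (nat_lit 84)
(.spl (nat_lit 3) (nat_lit 60)
(.leaf p076_l18)
(.leaf p076_l19))
(.leaf p076_l20))
(.trX (nat_lit 13) (nat_lit 71) (nat_lit 70) (nat_lit 100) (nat_lit 344) (.spl (nat_lit 4) (nat_lit 80)
(.trX (nat_lit 22) (nat_lit 83) (nat_lit 100) (nat_lit 83) (nat_lit 260) (.spl (nat_lit 3) (nat_lit 60)
(.leaf p076_l21)
(.spl (nat_lit 6) (nat_lit 88)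
(.spl (nat_lit 0) (nat_lit 350)
(.leaf p076_l22)
(.trX (nat_lit 13) (nat_lit 66) (nat_lit 75) (nat_lit 100) (nat_lit 336) (.leaf p076_l23)))
(.leaf p076_l24))))
(.leaf p076_l25)))))))
(.leaf p076_l26))))
(.leaf p076_l27))) (by decide +kernel)
noncomputable def p076_l28 : Lf2 := ⟨nat_lit 1, nat_lit 15, [nat_lit 30, nat_lit 5, nat_lit 5, nat_lit 20], false, nat_lit 0, nat_lit 232, nat_lit 0, nat_lit 368, zbN0,
 nat_lit 0, nat_lit 0, nat_lit 0, nat_lit 0, nat_lit 0, nat_lit 0, nat_lit 0, nat_lit 0, nat_lit 0, nat_lit 0, nat_lit 0, nat_lit 0, nat_lit 0, nat_lit 0, nat_lit 0, nat_lit 0, nat_lit 0, nat_lit 0, [],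
 C1.Rw.none, C1.Rw.none,
 zbF0, []⟩
noncomputable def p076_l29 : Lf2 := ⟨nat_lit 1, nat_lit 20, [nat_lit 5, nat_lit 5, nat_lit 5, nat_lit 20], false, nat_lit 0, nat_lit 260, nat_lit 0, nat_lit 384, zbN0,
 nat_lit 0, nat_lit 0, nat_lit 0, nat_lit 0, nat_lit 0, nat_lit 0, nat_lit 0, nat_lit 0, nat_lit 0, nat_lit 0, nat_lit 0, nat_lit 0, nat_lit 0, nat_lit 0, nat_lit 0, nat_lit 0, nat_lit 0, nat_lit 0, [],
 C1.Rw.none, C1.Rw.none,
 zbF0, []⟩
noncomputable def p076_l30 : Lf2 := ⟨nat_lit 1, nat_lit 20, [nat_lit 5, nat_lit 5, nat_lit 5, nat_lit 20], false, nat_lit 0, nat_lit 260, nat_lit 0, nat_lit 384, zbN0,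
 nat_lit 0, nat_lit 0, nat_lit 0, nat_lit 0, nat_lit 0, nat_lit 0, nat_lit 0, nat_lit 0, nat_lit 0, nat_lit 0, nat_lit 0, nat_lit 0, nat_lit 0, nat_lit 0, nat_lit 0, nat_lit 0, nat_lit 0, nat_lit 0, [],
 C1.Rw.none, C1.Rw.none,
 zbF0, []⟩
noncomputable def p076_l31 : Lf2 := ⟨nat_lit 0, nat_lit 20, [nat_lit 5, nat_lit 5, nat_lit 5, nat_lit 20], true, nat_lit 0, nat_lit 80, nat_lit 0, nat_lit 384, ⟨nat_lit 0, nat_lit 0, nat_lit 1000, nat_lit 4, nat_lit 126, nat_lit 205, nat_lit 32, nat_lit 998, nat_lit 9600, nat_lit 239, nat_lit 147267, nat_lit 309, nat_lit 60957409, nat_lit 0, nat_lit 0, nat_lit 1514858, false, false⟩,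
 nat_lit 0, nat_lit 3381, nat_lit 0, nat_lit 0, nat_lit 2736, nat_lit 0, nat_lit 0, nat_lit 0, nat_lit 0, nat_lit 0, nat_lit 0, nat_lit 0, nat_lit 0, nat_lit 0, nat_lit 95, nat_lit 250000, nat_lit 0, nat_lit 0, [(nat_lit 22, [(nat_lit 4, nat_lit 1000)])],
 ⟨p076_k5, nat_lit 0, nat_lit 0, nat_lit 320, nat_lit 0, nat_lit 208663, [nat_lit 2251200000, nat_lit 34514286], [], [nat_lit 19220008984, nat_lit 20471011693, nat_lit 20260774896, nat_lit 21623025696, nat_lit 18710268523, nat_lit 19919171591, nat_lit 19932682720, nat_lit 21207959584], nat_lit 1271250, nat_lit 1271250, nat_lit 181601, nat_lit 1100001, nat_lit 0, nat_lit 490000, [nat_lit 490000, nat_lit 1740000], [nat_lit 110, nat_lit 40, nat_lit 40, nat_lit 80, nat_lit 109, nat_lit 272, nat_lit 60, nat_lit 9]⟩, C1.Rw.none,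
 ⟨nat_lit 3162, nat_lit 3873, ⟨.ofNat (nat_lit 185344), .ofNat (nat_lit 391890), .ofNat (nat_lit 228873), .ofNat (nat_lit 435446), .ofNat (nat_lit 199607), .ofNat (nat_lit 394735), .ofNat (nat_lit 243860), .ofNat (nat_lit 439014)⟩, ⟨.ofNat (nat_lit 0), .ofNat (nat_lit 132088), .ofNat (nat_lit 0), .ofNat (nat_lit 175674), .ofNat (nat_lit 0), .ofNat (nat_lit 139899), .ofNat (nat_lit 0), .ofNat (nat_lit 184209)⟩⟩, [⟨nat_lit 0, nat_lit 100, nat_lit 60, nat_lit 80, nat_lit 12469885⟩]⟩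
noncomputable def p076_l32 : Lf2 := ⟨nat_lit 0, nat_lit 20, [nat_lit 5, nat_lit 5, nat_lit 5, nat_lit 20], true, nat_lit 0, nat_lit 80, nat_lit 0, nat_lit 384, ⟨nat_lit 0, nat_lit 360, nat_lit 640, nat_lit 4, nat_lit 191, nat_lit 451, nat_lit 32, nat_lit 640, nat_lit 9600, nat_lit 239, nat_lit 4566, nat_lit 226, nat_lit 54538059, nat_lit 12461941, nat_lit 0, nat_lit 2401845, false, true⟩,
 nat_lit 0, nat_lit 3477, nat_lit 0, nat_lit 0, nat_lit 2814, nat_lit 0, nat_lit 0, nat_lit 0, nat_lit 0, nat_lit 0, nat_lit 0, nat_lit 0, nat_lit 0, nat_lit 0, nat_lit 55, nat_lit 346000, nat_lit 0, nat_lit 0, [(nat_lit 22, [(nat_lit 0, nat_lit 360), (nat_lit 5, nat_lit 640)])],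
 ⟨p076_k1, nat_lit 0, nat_lit 0, nat_lit 258, nat_lit 0, nat_lit 208663, [nat_lit 1629120000, nat_lit 1073392000, nat_lit 31386667], [], [nat_lit 19556121519, nat_lit 20715732235, nat_lit 21697919767, nat_lit 22720291808, nat_lit 18923501747, nat_lit 20015353667, nat_lit 21121923872, nat_lit 22166798008], nat_lit 1271250, nat_lit 1271250, nat_lit 1100001, nat_lit 1785000, nat_lit 0, nat_lit 490000, [nat_lit 490000, nat_lit 1100000, nat_lit 1785000], [nat_lit 34, nat_lit 40, nat_lit 40, nat_lit 80, nat_lit 7, nat_lit 317, nat_lit 100, nat_lit 10]⟩, C1.Rw.none,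
 ⟨nat_lit 3162, nat_lit 3873, ⟨.ofNat (nat_lit 391890), .ofNat (nat_lit 520934), .ofNat (nat_lit 435446), .ofNat (nat_lit 564520), .ofNat (nat_lit 394735), .ofNat (nat_lit 516642), .ofNat (nat_lit 439014), .ofNat (nat_lit 560952)⟩, ⟨.ofNat (nat_lit 0), .ofNat (nat_lit 132088), .ofNat (nat_lit 0), .ofNat (nat_lit 175674), .ofNat (nat_lit 0), .ofNat (nat_lit 139899), .ofNat (nat_lit 0), .ofNat (nat_lit 184209)⟩⟩, []⟩
noncomputable def p076_l33 : Lf2 := ⟨nat_lit 0, nat_lit 20, [nat_lit 5, nat_lit 5, nat_lit 5, nat_lit 20], false, nat_lit 0, nat_lit 80, nat_lit 0, nat_lit 336, ⟨nat_lit 385, nat_lit 0, nat_lit 615, nat_lit 6, nat_lit 249, nat_lit 615, nat_lit 32, nat_lit 615, nat_lit 9600, nat_lit 239, nat_lit 193302, nat_lit 200, nat_lit 48295838, nat_lit 0, nat_lit 0, nat_lit 2960821, false, true⟩,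
 nat_lit 0, nat_lit 3907, nat_lit 0, nat_lit 213, nat_lit 3162, nat_lit 4683, nat_lit 0, nat_lit 0, nat_lit 0, nat_lit 377, nat_lit 0, nat_lit 0, nat_lit 0, nat_lit 0, nat_lit 0, nat_lit 282000, nat_lit 0, nat_lit 0, [(nat_lit 22, [(nat_lit 5, nat_lit 555), (nat_lit 6, nat_lit 60)])],
 ⟨p076_k1, nat_lit 0, nat_lit 0, nat_lit 266, nat_lit 0, nat_lit 208663, [nat_lit 1369408001, nat_lit 1215320000, nat_lit 551218000], [], [nat_lit 24470165030, nat_lit 25386648818, nat_lit 27975277503, nat_lit 28747136919, nat_lit 23705100226, nat_lit 24568966146, nat_lit 27031491058, nat_lit 27737913126], nat_lit 1271250, nat_lit 1271250, nat_lit 1271250, nat_lit 1271250, nat_lit 0, nat_lit 490000, [nat_lit 490000, nat_lit 1100000, nat_lit 1785000], [nat_lit 34, nat_lit 40, nat_lit 40, nat_lit 80, nat_lit 7, nat_lit 226, nat_lit 20, nat_lit 7]⟩, ⟨p076_k2, nat_lit 0, nat_lit 0, nat_lit 409, nat_lit 0, nat_lit 0, [nat_lit 3067680000,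 nat_lit 4570720000, nat_lit 6314000000], [], [nat_lit 17157316408, nat_lit 16852626046, nat_lit 18473002555, nat_lit 18242923313, nat_lit 13116865078, nat_lit 12717525975, nat_lit 14269116014, nat_lit 14022586539], nat_lit 0, nat_lit 0, nat_lit 0, nat_lit 0, nat_lit 0, nat_lit 0, [], [nat_lit 97, nat_lit 40, nat_lit 40, nat_lit 80, nat_lit 76, nat_lit 456, nat_lit 225, nat_lit 10]⟩,
 ⟨nat_lit 3162, nat_lit 3873, ⟨.ofNat (nat_lit 520934), .ofNat (nat_lit 688690), .ofNat (nat_lit 564520), .ofNat (nat_lit 732276), .ofNat (nat_lit 516642), .ofNat (nat_lit 675121), .ofNat (nat_lit 560952), .ofNat (nat_lit 719431)⟩, ⟨.ofNat (nat_lit 0), .ofNat (nat_lit 132088), .ofNat (nat_lit 0), .ofNat (nat_lit 175674), .ofNat (nat_lit 0), .ofNat (nat_lit 139899), .ofNat (nat_lit 0), .ofNat (nat_lit 184209)⟩⟩, [⟨nat_lit 13, nat_lit 61, nat_lit 92, nat_lit 100, nat_lit 72981686⟩, ⟨nat_lit 22, nat_lit 90, nat_lit 100, nat_lit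 32, nat_lit 35779446⟩]⟩
noncomputable def p076_l34 : Lf2 := ⟨nat_lit 0, nat_lit 15, [nat_lit 30, nat_lit 5, nat_lit 5, nat_lit 20], true, nat_lit 80, nat_lit 208, nat_lit 0, nat_lit 368, ⟨nat_lit 0, nat_lit 0, nat_lit 1000, nat_lit 4, nat_lit 126, nat_lit 1000, nat_lit 99, nat_lit 1000, nat_lit 91267, nat_lit 289, nat_lit 147267, nat_lit 309, nat_lit 56083924, nat_lit 0, nat_lit 0, nat_lit 2945404, false, false⟩,
 nat_lit 0, nat_lit 3839, nat_lit 0, nat_lit 0, nat_lit 3107, nat_lit 0, nat_lit 0, nat_lit 0, nat_lit 0, nat_lit 0, nat_lit 0, nat_lit 0, nat_lit 0, nat_lit 0, nat_lit 95, nat_lit 250000, nat_lit 0, nat_lit 0, [(nat_lit 22, [(nat_lit 4, nat_lit 1000)])],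
 ⟨p076_k8, nat_lit 0, nat_lit 0, nat_lit 178, nat_lit 0, nat_lit 105689, [nat_lit 2251200000, nat_lit 34514286], [], [nat_lit 17241100398, nat_lit 18829410802, nat_lit 18095073152, nat_lit 19541652252, nat_lit 19888094624, nat_lit 21280950420, nat_lit 20785647725, nat_lit 21990001075], nat_lit 1271250, nat_lit 1271250, nat_lit 181601, nat_lit 1100001, nat_lit 490000, nat_lit 1490000, [nat_lit 490000, nat_lit 1740000], [nat_lit 110, nat_lit 40, nat_lit 40, nat_lit 80, nat_lit 109, nat_lit 317, nat_lit 100, nat_lit 10]⟩, C1.Rw.none,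
 ⟨nat_lit 3162, nat_lit 3873, ⟨.ofNat (nat_lit 185344), .ofNat (nat_lit 391890), .ofNat (nat_lit 228873), .ofNat (nat_lit 435446), .ofNat (nat_lit 199607), .ofNat (nat_lit 394735), .ofNat (nat_lit 243860), .ofNat (nat_lit 439014)⟩, ⟨.ofNat (nat_lit 132088), .ofNat (nat_lit 338557), .ofNat (nat_lit 153881), .ofNat (nat_lit 360350), .ofNat (nat_lit 139899), .ofNat (nat_lit 334950), .ofNat (nat_lit 162054), .ofNat (nat_lit 357105)⟩⟩, [⟨nat_lit 0, nat_lit 100, nat_lit 60, nat_lit 80, nat_lit 41371117⟩, ⟨nat_lit 4, nat_lit 100, nat_lit 67, nat_lit 67, nat_lit 201181322⟩]⟩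
noncomputable def p076_l35 : Lf2 := ⟨nat_lit 0, nat_lit 15, [nat_lit 30, nat_lit 5, nat_lit 5, nat_lit 20], false, nat_lit 80, nat_lit 208, nat_lit 0, nat_lit 368, ⟨nat_lit 328, nat_lit 0, nat_lit 672, nat_lit 4, nat_lit 224, nat_lit 672, nat_lit 99, nat_lit 672, nat_lit 91267, nat_lit 289, nat_lit 193302, nat_lit 200, nat_lit 47064330, nat_lit 0, nat_lit 0, nat_lit 4052929, false, true⟩,
 nat_lit 0, nat_lit 4836, nat_lit 0, nat_lit 1513, nat_lit 3914, nat_lit 2804, nat_lit 0, nat_lit 0, nat_lit 0, nat_lit 263, nat_lit 0, nat_lit 0, nat_lit 0, nat_lit 0, nat_lit 0, nat_lit 168000, nat_lit 0, nat_lit 0, [(nat_lit 22, [(nat_lit 4, nat_lit 672)])],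
 ⟨p076_k7, nat_lit 0, nat_lit 0, nat_lit 129, nat_lit 0, nat_lit 20749, [nat_lit 1668582400, nat_lit 1260531201, nat_lit 1095052800], [], [nat_lit 19891779008, nat_lit 20609388628, nat_lit 26675178640, nat_lit 27162886614, nat_lit 21752102144, nat_lit 22314902356, nat_lit 27354150797, nat_lit 27781400314], nat_lit 1271250, nat_lit 1271250, nat_lit 1100001, nat_lit 2675500, nat_lit 490000, nat_lit 1490000, [nat_lit 490000, nat_lit 1100000, nat_lit 1785000], [nat_lit 34, nat_lit 40, nat_lit 40, nat_lit 80, nat_lit 7, nat_lit 373, nat_lit 150, nat_lit 12]⟩, ⟨p076_k2, nat_lit 0, nat_lit 0, nat_lit 433, nat_lit 0, nat_lit 0, [nat_lit 2613504000, nat_lit 3894016000, nat_lit 5379200000], [], [nat_lit 12685245142, nat_lit 12784295222, nat_lit 14683862259, nat_lit 14630849651, nat_lit 12372244778, nat_lit 12256072995, nat_lit 13194436149, nat_lit 12992267379], nat_lit 0, nat_lit 0, nat_lit 0, nat_lit 0, nat_lit 0,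 nat_lit 0, [], [nat_lit 97, nat_lit 40, nat_lit 40, nat_lit 80, nat_lit 76, nat_lit 483, nat_lit 250, nat_lit 10]⟩,
 ⟨nat_lit 3535, nat_lit 3873, ⟨.ofNat (nat_lit 391890), .ofNat (nat_lit 688690), .ofNat (nat_lit 435472), .ofNat (nat_lit 732276), .ofNat (nat_lit 393332), .ofNat (nat_lit 682034), .ofNat (nat_lit 437232), .ofNat (nat_lit 725940)⟩, ⟨.ofNat (nat_lit 132088), .ofNat (nat_lit 338557), .ofNat (nat_lit 153881), .ofNat (nat_lit 360350), .ofNat (nat_lit 136093), .ofNat (nat_lit 336930), .ofNat (nat_lit 158046), .ofNat (nat_lit 358882)⟩⟩, [⟨nat_lit 13, nat_lit 69, nat_lit 79, nat_lit 100, nat_lit 24595404⟩, ⟨nat_lit 4, nat_lit 100, nat_lit 69, nat_lit 66, nat_lit 163779681⟩, ⟨nat_lit 7, nat_lit 68, nat_lit 100, nat_lit 66, nat_lit 64227886⟩]⟩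
noncomputable def p076_l36 : Lf2 := ⟨nat_lit 0, nat_lit 15, [nat_lit 30, nat_lit 5, nat_lit 5, nat_lit 20], true, nat_lit 80, nat_lit 192, nat_lit 0, nat_lit 368, ⟨nat_lit 0, nat_lit 703, nat_lit 297, nat_lit 4, nat_lit 221, nat_lit 1000, nat_lit 94, nat_lit 297, nat_lit 84017, nat_lit 286, nat_lit 155524, nat_lit 200, nat_lit 47650209, nat_lit 15291652, nat_lit 4058139, nat_lit 3967119, false, true⟩,
 nat_lit 0, nat_lit 4146, nat_lit 0, nat_lit 0, nat_lit 3482, nat_lit 0, nat_lit 0, nat_lit 0, nat_lit 0, nat_lit 0, nat_lit 0, nat_lit 0, nat_lit 0, nat_lit 0, nat_lit 0, nat_lit 250000, nat_lit 0, nat_lit 0, [(nat_lit 22, [(nat_lit 0, nat_lit 703), (nat_lit 4, nat_lit 297)])],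
 ⟨p076_k9, nat_lit 0, nat_lit 0, nat_lit 133, nat_lit 0, nat_lit 100652, [nat_lit 1545190401, nat_lit 1223429201, nat_lit 1241760400], [], [nat_lit 19706239705, nat_lit 20393775705, nat_lit 26003994770, nat_lit 26514130716, nat_lit 21389257932, nat_lit 21977671445, nat_lit 26774707491, nat_lit 27195168078], nat_lit 1271250, nat_lit 1271250, nat_lit 1100001, nat_lit 2607000, nat_lit 490000, nat_lit 1365000, [nat_lit 490000, nat_lit 1100000, nat_lit 1442500], [nat_lit 6, nat_lit 40, nat_lit 40, nat_lit 80, nat_lit 3, nat_lit 373, nat_lit 150, nat_lit 13]⟩, C1.Rw.none,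
 ⟨nat_lit 3162, nat_lit 3536, ⟨.ofNat (nat_lit 393332), .ofNat (nat_lit 669482), .ofNat (nat_lit 437228), .ofNat (nat_lit 713387), .ofNat (nat_lit 394735), .ofNat (nat_lit 662930), .ofNat (nat_lit 439036), .ofNat (nat_lit 707240)⟩, ⟨.ofNat (nat_lit 136093), .ofNat (nat_lit 311825), .ofNat (nat_lit 158046), .ofNat (nat_lit 333778), .ofNat (nat_lit 139899), .ofNat (nat_lit 310569), .ofNat (nat_lit 162054), .ofNat (nat_lit 332724)⟩⟩, [⟨nat_lit 13, nat_lit 64, nat_lit 84, nat_lit 100, nat_lit 197553744⟩, ⟨nat_lit 4, nat_lit 100, nat_lit 64, nat_lit 67, nat_lit 56496402⟩]⟩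
noncomputable def p076_l37 : Lf2 := ⟨nat_lit 1, nat_lit 15, [nat_lit 30, nat_lit 5, nat_lit 5, nat_lit 20], false, nat_lit 80, nat_lit 208, nat_lit 0, nat_lit 368, zbN0,
 nat_lit 0, nat_lit 0, nat_lit 0, nat_lit 0, nat_lit 0, nat_lit 0, nat_lit 0, nat_lit 0, nat_lit 0, nat_lit 0, nat_lit 0, nat_lit 0, nat_lit 0, nat_lit 0, nat_lit 0, nat_lit 0, nat_lit 0, nat_lit 0, [],
 C1.Rw.none, C1.Rw.none,
 zbF0, []⟩
noncomputable def p076_l38 : Lf2 := ⟨nat_lit 0, nat_lit 20, [nat_lit 5, nat_lit 5, nat_lit 5, nat_lit 20], true, nat_lit 80, nat_lit 232, nat_lit 0, nat_lit 384, ⟨nat_lit 0, nat_lit 0, nat_lit 1000, nat_lit 4, nat_lit 126, nat_lit 1000, nat_lit 115, nat_lit 1000, nat_lit 123267, nat_lit 301, nat_lit 147267, nat_lit 309, nat_lit 54853561, nat_lit 0, nat_lit 0, nat_lit 3186642, false, false⟩,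
 nat_lit 0, nat_lit 3950, nat_lit 0, nat_lit 47, nat_lit 3197, nat_lit 0, nat_lit 0, nat_lit 0, nat_lit 0, nat_lit 0, nat_lit 0, nat_lit 0, nat_lit 0, nat_lit 0, nat_lit 95, nat_lit 250000, nat_lit 0, nat_lit 0, [(nat_lit 22, [(nat_lit 4, nat_lit 1000)])],
 ⟨p076_k5, nat_lit 0, nat_lit 0, nat_lit 169, nat_lit 0, nat_lit 66322, [nat_lit 2251200000, nat_lit 34514286], [], [nat_lit 17122788342, nat_lit 18989321794, nat_lit 17931447392, nat_lit 19398483492, nat_lit 20585592619, nat_lit 21936607139, nat_lit 21337888031, nat_lit 22507532426], nat_lit 1271250, nat_lit 1271250, nat_lit 181601, nat_lit 1100001, nat_lit 490000, nat_lit 1677500, [nat_lit 490000, nat_lit 1740000], [nat_lit 110, nat_lit 40, nat_lit 40, nat_lit 80, nat_lit 109, nat_lit 317, nat_lit 100, nat_lit 10]⟩, C1.Rw.none,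
 ⟨nat_lit 3162, nat_lit 3873, ⟨.ofNat (nat_lit 185344), .ofNat (nat_lit 391890), .ofNat (nat_lit 228873), .ofNat (nat_lit 435446), .ofNat (nat_lit 199607), .ofNat (nat_lit 394735), .ofNat (nat_lit 243860), .ofNat (nat_lit 439014)⟩, ⟨.ofNat (nat_lit 153881), .ofNat (nat_lit 399063), .ofNat (nat_lit 175674), .ofNat (nat_lit 420856), .ofNat (nat_lit 162054), .ofNat (nat_lit 393677), .ofNat (nat_lit 184209), .ofNat (nat_lit 415832)⟩⟩, [⟨nat_lit 0, nat_lit 100, nat_lit 60, nat_lit 80, nat_lit 50349856⟩, ⟨nat_lit 4, nat_lit 100, nat_lit 66, nat_lit 76, nat_lit 177418697⟩]⟩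
noncomputable def p076_l39 : Lf2 := ⟨nat_lit 1, nat_lit 20, [nat_lit 5, nat_lit 5, nat_lit 5, nat_lit 20], false, nat_lit 80, nat_lit 160, nat_lit 0, nat_lit 384, zbN0,
 nat_lit 0, nat_lit 0, nat_lit 0, nat_lit 0, nat_lit 0, nat_lit 0, nat_lit 0, nat_lit 0, nat_lit 0, nat_lit 0, nat_lit 0, nat_lit 0, nat_lit 0, nat_lit 0, nat_lit 0, nat_lit 0, nat_lit 0, nat_lit 0, [],
 C1.Rw.none, C1.Rw.none,
 zbF0, []⟩
noncomputable def p076_l40 : Lf2 := ⟨nat_lit 0, nat_lit 20, [nat_lit 5, nat_lit 5, nat_lit 5, nat_lit 20], true, nat_lit 80, nat_lit 160, nat_lit 0, nat_lit 384, ⟨nat_lit 0, nat_lit 536, nat_lit 464, nat_lit 4, nat_lit 221, nat_lit 1000, nat_lit 93, nat_lit 464, nat_lit 81667, nat_lit 285, nat_lit 155524, nat_lit 200, nat_lit 47710617, nat_lit 15299666, nat_lit 3989717, nat_lit 3953009, false, true⟩,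
 nat_lit 0, nat_lit 3834, nat_lit 0, nat_lit 0, nat_lit 3220, nat_lit 0, nat_lit 0, nat_lit 0, nat_lit 0, nat_lit 0, nat_lit 0, nat_lit 0, nat_lit 0, nat_lit 0, nat_lit 2, nat_lit 300250, nat_lit 0, nat_lit 0, [(nat_lit 22, [(nat_lit 0, nat_lit 537), (nat_lit 4, nat_lit 128), (nat_lit 5, nat_lit 335)])],
 ⟨p076_k3, nat_lit 0, nat_lit 0, nat_lit 141, nat_lit 0, nat_lit 63147, [nat_lit 1375849601, nat_lit 767388400, nat_lit 29389467], [], [nat_lit 19928359368, nat_lit 20543363708, nat_lit 25667790899, nat_lit 26130433392, nat_lit 20727477248, nat_lit 21284177068, nat_lit 25924105668, nat_lit 26325945117], nat_lit 1271250, nat_lit 1271250, nat_lit 1100001, nat_lit 2607000, nat_lit 490000, nat_lit 1100001, [nat_lit 490000, nat_lit 1100000, nat_lit 1785000], [nat_lit 34, nat_lit 40, nat_lit 40, nat_lit 80, nat_lit 7, nat_lit 345, nat_lit 125, nat_lit 11]⟩, C1.Rw.none,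
 ⟨nat_lit 3162, nat_lit 3536, ⟨.ofNat (nat_lit 393332), .ofNat (nat_lit 669482), .ofNat (nat_lit 437228), .ofNat (nat_lit 713387), .ofNat (nat_lit 394735), .ofNat (nat_lit 662930), .ofNat (nat_lit 439036), .ofNat (nat_lit 707240)⟩, ⟨.ofNat (nat_lit 158046), .ofNat (nat_lit 283569), .ofNat (nat_lit 179999), .ofNat (nat_lit 305521), .ofNat (nat_lit 162054), .ofNat (nat_lit 283961), .ofNat (nat_lit 184209), .ofNat (nat_lit 306116)⟩⟩, [⟨nat_lit 13, nat_lit 64, nat_lit 84, nat_lit 100, nat_lit 206057303⟩]⟩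
noncomputable def p076_l41 : Lf2 := ⟨nat_lit 0, nat_lit 20, [nat_lit 5, nat_lit 5, nat_lit 5, nat_lit 20], true, nat_lit 160, nat_lit 232, nat_lit 0, nat_lit 384, ⟨nat_lit 0, nat_lit 1000, nat_lit 0, nat_lit 4, nat_lit 191, nat_lit 1000, nat_lit 140, nat_lit 0, nat_lit 0, nat_lit 0, nat_lit 0, nat_lit 0, nat_lit 47423406, nat_lit 12112186, nat_lit 7464408, nat_lit 4275747, false, true⟩,
 nat_lit 0, nat_lit 3986, nat_lit 0, nat_lit 832, nat_lit 3226, nat_lit 0, nat_lit 0, nat_lit 0, nat_lit 0, nat_lit 0, nat_lit 0, nat_lit 0, nat_lit 0, nat_lit 0, nat_lit 0, nat_lit 250000, nat_lit 0, nat_lit 0, [(nat_lit 22, [(nat_lit 0, nat_lit 1000)])],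
 ⟨p076_k1, nat_lit 0, nat_lit 0, nat_lit 65, nat_lit 0, nat_lit 66322, [nat_lit 1568000001, nat_lit 1970800000, nat_lit 2712400000], [], [nat_lit 18090202617, nat_lit 19596769401, nat_lit 20685559873, nat_lit 21991669033, nat_lit 20426024148, nat_lit 21752179070, nat_lit 22685320367, nat_lit 23841318822], nat_lit 1271250, nat_lit 1271250, nat_lit 1100001, nat_lit 1785000, nat_lit 1100001, nat_lit 1716500, [nat_lit 490000, nat_lit 1100000, nat_lit 1785000], [nat_lit 34, nat_lit 40, nat_lit 40, nat_lit 80, nat_lit 7, nat_lit 345, nat_lit 125, nat_lit 10]⟩, C1.Rw.none,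
 ⟨nat_lit 3162, nat_lit 3873, ⟨.ofNat (nat_lit 391890), .ofNat (nat_lit 520934), .ofNat (nat_lit 435446), .ofNat (nat_lit 564520), .ofNat (nat_lit 394735), .ofNat (nat_lit 516642), .ofNat (nat_lit 439014), .ofNat (nat_lit 560952)⟩, ⟨.ofNat (nat_lit 282924), .ofNat (nat_lit 399063), .ofNat (nat_lit 304717), .ofNat (nat_lit 420856), .ofNat (nat_lit 283961), .ofNat (nat_lit 393677), .ofNat (nat_lit 306116), .ofNat (nat_lit 415832)⟩⟩, [⟨nat_lit 4, nat_lit 100, nat_lit 66, nat_lit 76, nat_lit 258327102⟩]⟩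
noncomputable def p076_l42 : Lf2 := ⟨nat_lit 0, nat_lit 20, [nat_lit 5, nat_lit 5, nat_lit 5, nat_lit 20], true, nat_lit 160, nat_lit 232, nat_lit 0, nat_lit 384, ⟨nat_lit 0, nat_lit 597, nat_lit 403, nat_lit 6, nat_lit 249, nat_lit 1000, nat_lit 140, nat_lit 403, nat_lit 183750, nat_lit 320, nat_lit 193302, nat_lit 200, nat_lit 42452665, nat_lit 17488429, nat_lit 7058906, nat_lit 4693719, false, true⟩,
 nat_lit 0, nat_lit 4549, nat_lit 0, nat_lit 718, nat_lit 3682, nat_lit 0, nat_lit 0, nat_lit 0, nat_lit 0, nat_lit 0, nat_lit 0, nat_lit 0, nat_lit 0, nat_lit 0, nat_lit 0, nat_lit 250000, nat_lit 0, nat_lit 0, [(nat_lit 22, [(nat_lit 0, nat_lit 597), (nat_lit 4, nat_lit 403)])],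
 ⟨p076_k1, nat_lit 0, nat_lit 0, nat_lit 102, nat_lit 0, nat_lit 66322, [nat_lit 1537049601, nat_lit 1010370401, nat_lit 712899467], [], [nat_lit 22369471844, nat_lit 23418651347, nat_lit 26359162636, nat_lit 27230243359, nat_lit 23873805036, nat_lit 24844504500, nat_lit 27508423450, nat_lit 28519557478], nat_lit 1271250, nat_lit 1271250, nat_lit 1271250, nat_lit 1271250, nat_lit 1100001, nat_lit 1716500, [nat_lit 490000, nat_lit 1100000, nat_lit 1785000], [nat_lit 34, nat_lit 40, nat_lit 40, nat_lit 80, nat_lit 7, nat_lit 272, nat_lit 60, nat_lit 7]⟩, C1.Rw.none,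
 ⟨nat_lit 3162, nat_lit 3873, ⟨.ofNat (nat_lit 520934), .ofNat (nat_lit 688690), .ofNat (nat_lit 564520), .ofNat (nat_lit 732276), .ofNat (nat_lit 516642), .ofNat (nat_lit 675121), .ofNat (nat_lit 560952), .ofNat (nat_lit 719431)⟩, ⟨.ofNat (nat_lit 282924), .ofNat (nat_lit 399063), .ofNat (nat_lit 304717), .ofNat (nat_lit 420856), .ofNat (nat_lit 283961), .ofNat (nat_lit 393677), .ofNat (nat_lit 306116), .ofNat (nat_lit 415832)⟩⟩, [⟨nat_lit 13, nat_lit 66, nat_lit 82, nat_lit 100, nat_lit 280632080⟩, ⟨nat_lit 4, nat_lit 100, nat_lit 66, nat_lit 76, nat_lit 177576220⟩]⟩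
noncomputable def p076_l43 : Lf2 := ⟨nat_lit 1, nat_lit 20, [nat_lit 5, nat_lit 5, nat_lit 5, nat_lit 20], false, nat_lit 80, nat_lit 232, nat_lit 0, nat_lit 384, zbN0,
 nat_lit 0, nat_lit 0, nat_lit 0, nat_lit 0, nat_lit 0, nat_lit 0, nat_lit 0, nat_lit 0, nat_lit 0, nat_lit 0, nat_lit 0, nat_lit 0, nat_lit 0, nat_lit 0, nat_lit 0, nat_lit 0, nat_lit 0, nat_lit 0, [],
 C1.Rw.none, C1.Rw.none,
 zbF0, []⟩
noncomputable def b_V_800_400_10_12 : St := ⟨true, nat_lit 1, nat_lit 0, nat_lit 1, nat_lit 80, nat_lit 320, nat_lit 360, nat_lit 160, nat_lit 200, nat_lit 16, nat_lit 360, nat_lit 40, nat_lit 80, nat_lit 0, nat_lit 260, nat_lit 0, nat_lit 384, nat_lit 80, nat_lit 104, nat_lit 0, nat_lit 0, nat_lit 0, nat_lit 0⟩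
theorem d_V_800_400_10_12 (h : EB TB.env) : Dead b_V_800_400_10_12 := chkB_sound0 h (T :=
(.spl (nat_lit 0) (nat_lit 340)
(.spl (nat_lit 6) (nat_lit 84)
(.spl (nat_lit 3) (nat_lit 60)
(.trX (nat_lit 16) (nat_lit 81) (nat_lit 100) (nat_lit 72) (nat_lit 232) (.trX (nat_lit 19) (nat_lit 100) (nat_lit 55) (nat_lit 73) (nat_lit 368) (.leaf p076_l28)))
(.leaf p076_l29))
(.leaf p076_l30))
(.trZ (nat_lit 0) (nat_lit 100) (nat_lit 73) (nat_lit 55) (nat_lit 32) (.trX (nat_lit 13) (nat_lit 71) (nat_lit 70) (nat_lit 100) (nat_lit 344) (.trX (nat_lit 16) (nat_lit 72) (nat_lit 100) (nat_lit 81) (nat_lit 232) (.spl (nat_lit 4) (nat_lit 80)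
(.spl (nat_lit 2) (nat_lit 160)
(.leaf p076_l31)
(.spl (nat_lit 2) (nat_lit 240)
(.leaf p076_l32)
(.trX (nat_lit 22) (nat_lit 100) (nat_lit 76) (nat_lit 82) (nat_lit 336) (.leaf p076_l33))))
(.spl (nat_lit 3) (nat_lit 60)
(.trX (nat_lit 16) (nat_lit 71) (nat_lit 100) (nat_lit 71) (nat_lit 208) (.trX (nat_lit 19) (nat_lit 100) (nat_lit 55) (nat_lit 73) (nat_lit 368) (.spl (nat_lit 6) (nat_lit 92)
(.spl (nat_lit 2) (nat_lit 160)
(.leaf p076_l34)
(.spl (nat_lit 0) (nat_lit 350)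
(.leaf p076_l35)
(.trX (nat_lit 13) (nat_lit 66) (nat_lit 75) (nat_lit 100) (nat_lit 336) (.trX (nat_lit 16) (nat_lit 66) (nat_lit 100) (nat_lit 72) (nat_lit 192) (.leaf p076_l36)))))
(.leaf p076_l37))))
(.spl (nat_lit 6) (nat_lit 88)
(.spl (nat_lit 2) (nat_lit 160)
(.leaf p076_l38)
(.spl (nat_lit 4) (nat_lit 160)
(.spl (nat_lit 0) (nat_lit 350)
(.leaf p076_l39)
(.trX (nat_lit 13) (nat_lit 66) (nat_lit 75) (nat_lit 100) (nat_lit 336) (.leaf p076_l40)))
(.spl (nat_lit 2) (nat_lit 240)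
(.leaf p076_l41)
(.leaf p076_l42))))
(.leaf p076_l43))))))))) (by decide +kernel)
noncomputable def p076_l44 : Lf2 := ⟨nat_lit 1, nat_lit 15, [nat_lit 30, nat_lit 5, nat_lit 5, nat_lit 20], false, nat_lit 0, nat_lit 160, nat_lit 0, nat_lit 368, zbN0,
 nat_lit 0, nat_lit 0, nat_lit 0, nat_lit 0, nat_lit 0, nat_lit 0, nat_lit 0, nat_lit 0, nat_lit 0, nat_lit 0, nat_lit 0, nat_lit 0, nat_lit 0, nat_lit 0, nat_lit 0, nat_lit 0, nat_lit 0, nat_lit 0, [],
 C1.Rw.none, C1.Rw.none,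
 zbF0, []⟩
noncomputable def p076_l45 : Lf2 := ⟨nat_lit 1, nat_lit 20, [nat_lit 5, nat_lit 5, nat_lit 5, nat_lit 20], false, nat_lit 0, nat_lit 160, nat_lit 0, nat_lit 384, zbN0,
 nat_lit 0, nat_lit 0, nat_lit 0, nat_lit 0, nat_lit 0, nat_lit 0, nat_lit 0, nat_lit 0, nat_lit 0, nat_lit 0, nat_lit 0, nat_lit 0, nat_lit 0, nat_lit 0, nat_lit 0, nat_lit 0, nat_lit 0, nat_lit 0, [],
 C1.Rw.none, C1.Rw.none,
 zbF0, []⟩
noncomputable def p076_l46 : Lf2 := ⟨nat_lit 1, nat_lit 20, [nat_lit 5, nat_lit 5, nat_lit 5, nat_lit 20], false, nat_lit 0, nat_lit 160, nat_lit 0, nat_lit 384, zbN0,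
 nat_lit 0, nat_lit 0, nat_lit 0, nat_lit 0, nat_lit 0, nat_lit 0, nat_lit 0, nat_lit 0, nat_lit 0, nat_lit 0, nat_lit 0, nat_lit 0, nat_lit 0, nat_lit 0, nat_lit 0, nat_lit 0, nat_lit 0, nat_lit 0, [],
 C1.Rw.none, C1.Rw.none,
 zbF0, []⟩
noncomputable def p076_l47 : Lf2 := ⟨nat_lit 0, nat_lit 20, [nat_lit 5, nat_lit 5, nat_lit 5, nat_lit 20], true, nat_lit 0, nat_lit 160, nat_lit 0, nat_lit 384, ⟨nat_lit 0, nat_lit 0, nat_lit 1000, nat_lit 4, nat_lit 126, nat_lit 977, nat_lit 57, nat_lit 998, nat_lit 30817, nat_lit 258, nat_lit 147267, nat_lit 309, nat_lit 60957409, nat_lit 0, nat_lit 0, nat_lit 1514858, false, false⟩,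
 nat_lit 0, nat_lit 3381, nat_lit 0, nat_lit 0, nat_lit 2736, nat_lit 0, nat_lit 0, nat_lit 0, nat_lit 0, nat_lit 0, nat_lit 0, nat_lit 0, nat_lit 0, nat_lit 0, nat_lit 95, nat_lit 250000, nat_lit 0, nat_lit 0, [(nat_lit 22, [(nat_lit 4, nat_lit 1000)])],
 ⟨p076_k5, nat_lit 0, nat_lit 0, nat_lit 320, nat_lit 0, nat_lit 208663, [nat_lit 2251200000, nat_lit 34514286], [], [nat_lit 19220008984, nat_lit 20471011693, nat_lit 20260774896, nat_lit 21623025696, nat_lit 19878783626, nat_lit 21211971668, nat_lit 21247751552, nat_lit 22401040352], nat_lit 1271250, nat_lit 1271250, nat_lit 181601, nat_lit 1100001, nat_lit 0, nat_lit 1100001, [nat_lit 490000, nat_lit 1740000], [nat_lit 110, nat_lit 40, nat_lit 40, nat_lit 80, nat_lit 109, nat_lit 317, nat_lit 100, nat_lit 11]⟩, C1.Rw.none,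
 ⟨nat_lit 3162, nat_lit 3873, ⟨.ofNat (nat_lit 185344), .ofNat (nat_lit 391890), .ofNat (nat_lit 228873), .ofNat (nat_lit 435446), .ofNat (nat_lit 199607), .ofNat (nat_lit 394735), .ofNat (nat_lit 243860), .ofNat (nat_lit 439014)⟩, ⟨.ofNat (nat_lit 0), .ofNat (nat_lit 261131), .ofNat (nat_lit 0), .ofNat (nat_lit 304717), .ofNat (nat_lit 0), .ofNat (nat_lit 261806), .ofNat (nat_lit 0), .ofNat (nat_lit 306116)⟩⟩, [⟨nat_lit 0, nat_lit 100, nat_lit 60, nat_lit 80, nat_lit 12469885⟩]⟩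
noncomputable def p076_l48 : Lf2 := ⟨nat_lit 0, nat_lit 20, [nat_lit 5, nat_lit 5, nat_lit 5, nat_lit 20], true, nat_lit 0, nat_lit 160, nat_lit 0, nat_lit 384, ⟨nat_lit 0, nat_lit 190, nat_lit 810, nat_lit 4, nat_lit 191, nat_lit 915, nat_lit 57, nat_lit 810, nat_lit 30817, nat_lit 258, nat_lit 4566, nat_lit 226, nat_lit 54538059, nat_lit 12461941, nat_lit 0, nat_lit 2401845, false, true⟩,
 nat_lit 0, nat_lit 3930, nat_lit 0, nat_lit 0, nat_lit 3181, nat_lit 0, nat_lit 0, nat_lit 0, nat_lit 0, nat_lit 0, nat_lit 0, nat_lit 0, nat_lit 0, nat_lit 0, nat_lit 55, nat_lit 250000, nat_lit 0, nat_lit 0, [(nat_lit 22, [(nat_lit 0, nat_lit 190), (nat_lit 4, nat_lit 810)])],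
 ⟨p076_k5, nat_lit 0, nat_lit 0, nat_lit 253, nat_lit 0, nat_lit 208663, [nat_lit 1945792000, nat_lit 5622858], [], [nat_lit 20340021678, nat_lit 21490329358, nat_lit 22423361032, nat_lit 23443772832, nat_lit 20536164280, nat_lit 21516014310, nat_lit 22458122888, nat_lit 23538082488], nat_lit 1271250, nat_lit 1271250, nat_lit 1100001, nat_lit 1785000, nat_lit 0, nat_lit 1100001, [nat_lit 490000, nat_lit 1740000], [nat_lit 110, nat_lit 40, nat_lit 40, nat_lit 80, nat_lit 109, nat_lit 317, nat_lit 100, nat_lit 10]⟩, C1.Rw.none,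
 ⟨nat_lit 3162, nat_lit 3873, ⟨.ofNat (nat_lit 391890), .ofNat (nat_lit 520934), .ofNat (nat_lit 435446), .ofNat (nat_lit 564520), .ofNat (nat_lit 394735), .ofNat (nat_lit 516642), .ofNat (nat_lit 439014), .ofNat (nat_lit 560952)⟩, ⟨.ofNat (nat_lit 0), .ofNat (nat_lit 261131), .ofNat (nat_lit 0), .ofNat (nat_lit 304717), .ofNat (nat_lit 0), .ofNat (nat_lit 261806), .ofNat (nat_lit 0), .ofNat (nat_lit 306116)⟩⟩, []⟩
noncomputable def p076_l49 : Lf2 := ⟨nat_lit 0, nat_lit 20, [nat_lit 5, nat_lit 5, nat_lit 5, nat_lit 20], true, nat_lit 0, nat_lit 80, nat_lit 0, nat_lit 336, ⟨nat_lit 0, nat_lit 462, nat_lit 538, nat_lit 6, nat_lit 242, nat_lit 627, nat_lit 31, nat_lit 538, nat_lit 8817, nat_lit 238, nat_lit 111002, nat_lit 200, nat_lit 49090068, nat_lit 17909932, nat_lit 0, nat_lit 2902835, false, true⟩,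
 nat_lit 0, nat_lit 3053, nat_lit 0, nat_lit 1540, nat_lit 2471, nat_lit 0, nat_lit 0, nat_lit 0, nat_lit 0, nat_lit 0, nat_lit 0, nat_lit 0, nat_lit 0, nat_lit 0, nat_lit 54, nat_lit 400000, nat_lit 0, nat_lit 0, [(nat_lit 22, [(nat_lit 1, nat_lit 462), (nat_lit 5, nat_lit 538)])],
 ⟨p076_k1, nat_lit 0, nat_lit 0, nat_lit 197, nat_lit 0, nat_lit 89050, [nat_lit 1584668801, nat_lit 1148474400, nat_lit 44638667], [], [nat_lit 22081517096, nat_lit 22549618352, nat_lit 25359061756, nat_lit 25765892457, nat_lit 21625191042, nat_lit 22052404394, nat_lit 24736816469, nat_lit 25123882632], nat_lit 1271250, nat_lit 1271250, nat_lit 1271250, nat_lit 1271250, nat_lit 0, nat_lit 490000, [nat_lit 490000, nat_lit 1100000, nat_lit 1785000], [nat_lit 34, nat_lit 40, nat_lit 40, nat_lit 80, nat_lit 7, nat_lit 226, nat_lit 20, nat_lit 7]⟩, C1.Rw.none,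
 ⟨nat_lit 3535, nat_lit 3873, ⟨.ofNat (nat_lit 520934), .ofNat (nat_lit 669333), .ofNat (nat_lit 542727), .ofNat (nat_lit 691126), .ofNat (nat_lit 518855), .ofNat (nat_lit 663206), .ofNat (nat_lit 540807), .ofNat (nat_lit 685159)⟩, ⟨.ofNat (nat_lit 0), .ofNat (nat_lit 132088), .ofNat (nat_lit 0), .ofNat (nat_lit 175674), .ofNat (nat_lit 0), .ofNat (nat_lit 136093), .ofNat (nat_lit 0), .ofNat (nat_lit 179999)⟩⟩, [⟨nat_lit 13, nat_lit 70, nat_lit 83, nat_lit 100, nat_lit 261295736⟩]⟩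
noncomputable def p076_l50 : Lf2 := ⟨nat_lit 0, nat_lit 20, [nat_lit 5, nat_lit 5, nat_lit 5, nat_lit 20], false, nat_lit 0, nat_lit 80, nat_lit 0, nat_lit 336, ⟨nat_lit 14, nat_lit 438, nat_lit 548, nat_lit 6, nat_lit 236, nat_lit 484, nat_lit 32, nat_lit 548, nat_lit 9600, nat_lit 239, nat_lit 61410, nat_lit 200, nat_lit 49672052, nat_lit 17327948, nat_lit 0, nat_lit 2858073, false, true⟩,
 nat_lit 506, nat_lit 2741, nat_lit 0, nat_lit 624, nat_lit 2727, nat_lit 168, nat_lit 0, nat_lit 0, nat_lit 0, nat_lit 12, nat_lit 0, nat_lit 0, nat_lit 0, nat_lit 0, nat_lit 28, nat_lit 328700, nat_lit 0, nat_lit 0, [(nat_lit 22, [(nat_lit 0, nat_lit 438), (nat_lit 5, nat_lit 548)])],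
 ⟨p076_k3, nat_lit 0, nat_lit 0, nat_lit 235, nat_lit 0, nat_lit 132611, [nat_lit 1474080000, nat_lit 934935201, nat_lit 29669333], [], [nat_lit 23074248818, nat_lit 23575084725, nat_lit 25880605830, nat_lit 26315953872, nat_lit 22422110721, nat_lit 22872917525, nat_lit 25204155764, nat_lit 25661805340], nat_lit 1271250, nat_lit 1271250, nat_lit 1271250, nat_lit 1271250, nat_lit 0, nat_lit 490000, [nat_lit 490000, nat_lit 1100000, nat_lit 1785000], [nat_lit 34, nat_lit 40, nat_lit 40, nat_lit 80, nat_lit 7, nat_lit 226, nat_lit 20, nat_lit 7]⟩, ⟨p076_k2, nat_lit 0, nat_lit 0, nat_lit 639, nat_lit 0, nat_lit 455005, [nat_lit 111552000, nat_lit 166208000, nat_lit 229600000], [], [nat_lit 657866960, nat_lit 651672084, nat_lit 678827184, nat_lit 672758016, nat_lit 660267485, nat_lit 710215666, nat_lit 521355812, nat_lit 514895080], nat_lit 1100001, nat_lit 1271250, nat_lit 1271250, nat_lit 1271250, nat_lit 0,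 nat_lit 2373000, [nat_lit 1695000, nat_lit 1271250, nat_lit 1271250], [nat_lit 97, nat_lit 40, nat_lit 40, nat_lit 80, nat_lit 76, nat_lit 456, nat_lit 225, nat_lit 10]⟩,
 ⟨nat_lit 3162, nat_lit 3536, ⟨.ofNat (nat_lit 518855), .ofNat (nat_lit 644378), .ofNat (nat_lit 540807), .ofNat (nat_lit 666330), .ofNat (nat_lit 516642), .ofNat (nat_lit 638549), .ofNat (nat_lit 538797), .ofNat (nat_lit 660704)⟩, ⟨.ofNat (nat_lit 0), .ofNat (nat_lit 136093), .ofNat (nat_lit 0), .ofNat (nat_lit 179999), .ofNat (nat_lit 0), .ofNat (nat_lit 139899), .ofNat (nat_lit 0), .ofNat (nat_lit 184209)⟩⟩, [⟨nat_lit 13, nat_lit 64, nat_lit 87, nat_lit 100, nat_lit 258325251⟩, ⟨nat_lit 22, nat_lit 93, nat_lit 100, nat_lit 25, nat_lit 1476048⟩]⟩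
noncomputable def p076_l51 : Lf2 := ⟨nat_lit 0, nat_lit 20, [nat_lit 5, nat_lit 5, nat_lit 5, nat_lit 20], false, nat_lit 0, nat_lit 80, nat_lit 0, nat_lit 336, ⟨nat_lit 0, nat_lit 239, nat_lit 761, nat_lit 6, nat_lit 233, nat_lit 175, nat_lit 32, nat_lit 761, nat_lit 9600, nat_lit 239, nat_lit 5706, nat_lit 203, nat_lit 49999024, nat_lit 17000976, nat_lit 0, nat_lit 2832064, true, true⟩,
 nat_lit 0, nat_lit 3632, nat_lit 0, nat_lit 0, nat_lit 2940, nat_lit 0, nat_lit 0, nat_lit 0, nat_lit 0, nat_lit 0, nat_lit 0, nat_lit 0, nat_lit 0, nat_lit 0, nat_lit 45, nat_lit 250000, nat_lit 0, nat_lit 0, [(nat_lit 22, [(nat_lit 0, nat_lit 239), (nat_lit 4, nat_lit 761)])],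
 ⟨p076_k5, nat_lit 0, nat_lit 0, nat_lit 231, nat_lit 0, nat_lit 144631, [nat_lit 1869555201, nat_lit 8708000], [], [nat_lit 22408521402, nat_lit 23445448642, nat_lit 23795291522, nat_lit 24767957043, nat_lit 21615849162, nat_lit 22594692642, nat_lit 22939345842, nat_lit 23865808643], nat_lit 1271250, nat_lit 1271250, nat_lit 1271250, nat_lit 1271250, nat_lit 0, nat_lit 490000, [nat_lit 490000, nat_lit 1740000], [nat_lit 110, nat_lit 40, nat_lit 40, nat_lit 80, nat_lit 109, nat_lit 226, nat_lit 20, nat_lit 7]⟩, ⟨p076_k10, nat_lit 0, nat_lit 0, nat_lit 606, nat_lit 0, nat_lit 392662, [nat_lit 0, nat_lit 0], [], [nat_lit 0, nat_lit 0, nat_lit 0, nat_lit 0, nat_lit 0, nat_lit 0, nat_lit 0, nat_lit 0], nat_lit 1271250, nat_lit 1271250, nat_lit 1271250, nat_lit 1271250, nat_lit 0, nat_lit 2373000, [nat_lit 1695000, nat_lit 1271250], [nat_lit 159, nat_lit 40, nat_lit 40, nat_lit 80, nat_lit 111, nat_lit 456, nat_lit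 225, nat_lit 10]⟩,
 ⟨nat_lit 3162, nat_lit 3873, ⟨.ofNat (nat_lit 542727), .ofNat (nat_lit 607248), .ofNat (nat_lit 564520), .ofNat (nat_lit 629042), .ofNat (nat_lit 538797), .ofNat (nat_lit 599750), .ofNat (nat_lit 560952), .ofNat (nat_lit 621905)⟩, ⟨.ofNat (nat_lit 0), .ofNat (nat_lit 132088), .ofNat (nat_lit 0), .ofNat (nat_lit 175674), .ofNat (nat_lit 0), .ofNat (nat_lit 139899), .ofNat (nat_lit 0), .ofNat (nat_lit 184209)⟩⟩, [⟨nat_lit 3, nat_lit 100, nat_lit 75, nat_lit 35, nat_lit 10741927⟩]⟩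
noncomputable def p076_l52 : Lf2 := ⟨nat_lit 0, nat_lit 20, [nat_lit 5, nat_lit 5, nat_lit 5, nat_lit 20], false, nat_lit 0, nat_lit 80, nat_lit 0, nat_lit 300, ⟨nat_lit 320, nat_lit 0, nat_lit 680, nat_lit 7, nat_lit 267, nat_lit 680, nat_lit 31, nat_lit 680, nat_lit 8817, nat_lit 238, nat_lit 193302, nat_lit 200, nat_lit 46359288, nat_lit 0, nat_lit 0, nat_lit 3087739, true, true⟩,
 nat_lit 7530, nat_lit 0, nat_lit 0, nat_lit 0, nat_lit 2910, nat_lit 2863, nat_lit 0, nat_lit 0, nat_lit 0, nat_lit 244, nat_lit 0, nat_lit 0, nat_lit 0, nat_lit 0, nat_lit 0, nat_lit 284000, nat_lit 0, nat_lit 0, [(nat_lit 22, [(nat_lit 5, nat_lit 660), (nat_lit 6, nat_lit 20)])],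
 ⟨p076_k1, nat_lit 0, nat_lit 0, nat_lit 197, nat_lit 0, nat_lit 76202, [nat_lit 1309536000, nat_lit 920600000, nat_lit 17656000], [], [nat_lit 24765165200, nat_lit 25202007540, nat_lit 27106858564, nat_lit 27510293411, nat_lit 23957837880, nat_lit 24371460500, nat_lit 26185206144, nat_lit 26548630145], nat_lit 1271250, nat_lit 1271250, nat_lit 1271250, nat_lit 1271250, nat_lit 0, nat_lit 490000, [nat_lit 490000, nat_lit 1100000, nat_lit 1785000], [nat_lit 34, nat_lit 40, nat_lit 40, nat_lit 80, nat_lit 7, nat_lit 226, nat_lit 20, nat_lit 6]⟩, ⟨p076_k11, nat_lit 0, nat_lit 0, nat_lit 481, nat_lit 0, nat_lit 206883, [nat_lit 2549760000, nat_lit 3799040000, nat_lit 5248000000], [], [nat_lit 14625515868, nat_lit 14573743224, nat_lit 15350461971, nat_lit 15266459053, nat_lit 12459590508, nat_lit 12161378484, nat_lit 12647745412, nat_lit 12569631416], nat_lit 1271250, nat_lit 1271250, nat_lit 1271250, nat_lit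 1271250, nat_lit 0, nat_lit 2118750, [nat_lit 1695000, nat_lit 1271250, nat_lit 1271250], [nat_lit 97, nat_lit 40, nat_lit 40, nat_lit 80, nat_lit 76, nat_lit 456, nat_lit 225, nat_lit 9]⟩,
 ⟨nat_lit 3535, nat_lit 3873, ⟨.ofNat (nat_lit 607248), .ofNat (nat_lit 710483), .ofNat (nat_lit 629042), .ofNat (nat_lit 732276), .ofNat (nat_lit 603569), .ofNat (nat_lit 703987), .ofNat (nat_lit 625521), .ofNat (nat_lit 725940)⟩, ⟨.ofNat (nat_lit 0), .ofNat (nat_lit 132088), .ofNat (nat_lit 0), .ofNat (nat_lit 175674), .ofNat (nat_lit 0), .ofNat (nat_lit 136093), .ofNat (nat_lit 0), .ofNat (nat_lit 179999)⟩⟩, [⟨nat_lit 13, nat_lit 69, nat_lit 76, nat_lit 100, nat_lit 115658388⟩, ⟨nat_lit 22, nat_lit 86, nat_lit 100, nat_lit 35, nat_lit 42738048⟩]⟩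
noncomputable def p076_l53 : Lf2 := ⟨nat_lit 0, nat_lit 20, [nat_lit 5, nat_lit 5, nat_lit 5, nat_lit 20], false, nat_lit 0, nat_lit 80, nat_lit 0, nat_lit 300, ⟨nat_lit 150, nat_lit 336, nat_lit 514, nat_lit 7, nat_lit 262, nat_lit 673, nat_lit 32, nat_lit 514, nat_lit 9600, nat_lit 239, nat_lit 155524, nat_lit 200, nat_lit 46842721, nat_lit 20157279, nat_lit 0, nat_lit 3057933, true, true⟩,
 nat_lit 3677, nat_lit 0, nat_lit 0, nat_lit 0, nat_lit 2882, nat_lit 1398, nat_lit 0, nat_lit 0, nat_lit 0, nat_lit 140, nat_lit 0, nat_lit 0, nat_lit 0, nat_lit 0, nat_lit 0, nat_lit 319150, nat_lit 0, nat_lit 0, [(nat_lit 22, [(nat_lit 0, nat_lit 139), (nat_lit 1, nat_lit 197), (nat_lit 5, nat_lit 514)])],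
 ⟨p076_k3, nat_lit 0, nat_lit 0, nat_lit 244, nat_lit 0, nat_lit 138203, [nat_lit 1292020801, nat_lit 868947201, nat_lit 19926667], [], [nat_lit 25172355977, nat_lit 25607734645, nat_lit 27152741809, nat_lit 27579427282, nat_lit 24360855769, nat_lit 24773137693, nat_lit 26246490363, nat_lit 26615160497], nat_lit 1271250, nat_lit 1271250, nat_lit 1271250, nat_lit 1271250, nat_lit 0, nat_lit 490000, [nat_lit 490000, nat_lit 1100000, nat_lit 1785000], [nat_lit 34, nat_lit 40, nat_lit 40, nat_lit 80, nat_lit 7, nat_lit 226, nat_lit 20, nat_lit 6]⟩, ⟨p076_k11, nat_lit 0, nat_lit 0, nat_lit 556, nat_lit 0, nat_lit 392662, [nat_lit 1195200000, nat_lit 1780800000, nat_lit 2460000000], [], [nat_lit 6552732896, nat_lit 6523544216, nat_lit 6805865642, nat_lit 6768254692, nat_lit 5794861755, nat_lit 5450253164, nat_lit 5705000140, nat_lit 5666406905], nat_lit 1271250, nat_lit 1271250, nat_lit 1271250, nat_lit 1271250,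 nat_lit 0, nat_lit 2118750, [nat_lit 1695000, nat_lit 1271250, nat_lit 1271250], [nat_lit 97, nat_lit 40, nat_lit 40, nat_lit 80, nat_lit 76, nat_lit 456, nat_lit 225, nat_lit 9]⟩,
 ⟨nat_lit 3162, nat_lit 3536, ⟨.ofNat (nat_lit 603569), .ofNat (nat_lit 691435), .ofNat (nat_lit 625521), .ofNat (nat_lit 713387), .ofNat (nat_lit 599750), .ofNat (nat_lit 685085), .ofNat (nat_lit 621905), .ofNat (nat_lit 707240)⟩, ⟨.ofNat (nat_lit 0), .ofNat (nat_lit 136093), .ofNat (nat_lit 0), .ofNat (nat_lit 179999), .ofNat (nat_lit 0), .ofNat (nat_lit 139899), .ofNat (nat_lit 0), .ofNat (nat_lit 184209)⟩⟩, [⟨nat_lit 13, nat_lit 63, nat_lit 81, nat_lit 100, nat_lit 212621926⟩, ⟨nat_lit 22, nat_lit 87, nat_lit 100, nat_lit 32, nat_lit 31206710⟩]⟩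
noncomputable def p076_l54 : Lf2 := ⟨nat_lit 0, nat_lit 20, [nat_lit 5, nat_lit 5, nat_lit 5, nat_lit 20], false, nat_lit 80, nat_lit 160, nat_lit 0, nat_lit 384, ⟨nat_lit 0, nat_lit 536, nat_lit 464, nat_lit 6, nat_lit 250, nat_lit 1000, nat_lit 88, nat_lit 464, nat_lit 72600, nat_lit 281, nat_lit 193302, nat_lit 200, nat_lit 45198410, nat_lit 18240198, nat_lit 3561392, nat_lit 4091031, false, true⟩,
 nat_lit 0, nat_lit 3861, nat_lit 0, nat_lit 0, nat_lit 3125, nat_lit 0, nat_lit 0, nat_lit 0, nat_lit 0, nat_lit 0, nat_lit 0, nat_lit 0, nat_lit 0, nat_lit 0, nat_lit 9, nat_lit 319600, nat_lit 0, nat_lit 0, [(nat_lit 22, [(nat_lit 0, nat_lit 536), (nat_lit 5, nat_lit 464)])],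
 ⟨p076_k1, nat_lit 0, nat_lit 0, nat_lit 144, nat_lit 0, nat_lit 76202, [nat_lit 1365312001, nat_lit 826179201, nat_lit 24805333], [], [nat_lit 21346120584, nat_lit 21877556959, nat_lit 25400639934, nat_lit 25853805150, nat_lit 22038609834, nat_lit 22521811834, nat_lit 25711848484, nat_lit 26102583260], nat_lit 1271250, nat_lit 1271250, nat_lit 1271250, nat_lit 1271250, nat_lit 490000, nat_lit 1100001, [nat_lit 490000, nat_lit 1100000, nat_lit 1785000], [nat_lit 34, nat_lit 40, nat_lit 40, nat_lit 80, nat_lit 7, nat_lit 249, nat_lit 40, nat_lit 7]⟩, ⟨p076_k2, nat_lit 0, nat_lit 0, nat_lit 513, nat_lit 0, nat_lit 249839, [nat_lit 0, nat_lit 0, nat_lit 0], [], [nat_lit 0, nat_lit 0, nat_lit 0, nat_lit 0, nat_lit 0, nat_lit 0, nat_lit 0, nat_lit 0], nat_lit 1100001, nat_lit 1442500, nat_lit 1271250, nat_lit 1271250, nat_lit 0, nat_lit 2712000, [nat_lit 1695000, nat_lit 1271250, nat_lit 1271250], [nat_lit 97,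 nat_lit 40, nat_lit 40, nat_lit 80, nat_lit 76, nat_lit 483, nat_lit 250, nat_lit 10]⟩,
 ⟨nat_lit 3535, nat_lit 3873, ⟨.ofNat (nat_lit 520934), .ofNat (nat_lit 688690), .ofNat (nat_lit 564520), .ofNat (nat_lit 732276), .ofNat (nat_lit 518855), .ofNat (nat_lit 682034), .ofNat (nat_lit 562760), .ofNat (nat_lit 725940)⟩, ⟨.ofNat (nat_lit 132088), .ofNat (nat_lit 261131), .ofNat (nat_lit 175674), .ofNat (nat_lit 304717), .ofNat (nat_lit 136093), .ofNat (nat_lit 261616), .ofNat (nat_lit 179999), .ofNat (nat_lit 305521)⟩⟩, [⟨nat_lit 13, nat_lit 69, nat_lit 79, nat_lit 100, nat_lit 257211917⟩]⟩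
noncomputable def p076_l55 : Lf2 := ⟨nat_lit 0, nat_lit 20, [nat_lit 5, nat_lit 5, nat_lit 5, nat_lit 20], false, nat_lit 80, nat_lit 160, nat_lit 0, nat_lit 384, ⟨nat_lit 0, nat_lit 509, nat_lit 491, nat_lit 6, nat_lit 246, nat_lit 1000, nat_lit 89, nat_lit 491, nat_lit 74817, nat_lit 282, nat_lit 155524, nat_lit 200, nat_lit 45556616, nat_lit 17811222, nat_lit 3632162, nat_lit 4076305, false, true⟩,
 nat_lit 0, nat_lit 3601, nat_lit 0, nat_lit 0, nat_lit 3024, nat_lit 0, nat_lit 0, nat_lit 0, nat_lit 0, nat_lit 0, nat_lit 0, nat_lit 0, nat_lit 0, nat_lit 0, nat_lit 16, nat_lit 323650, nat_lit 0, nat_lit 0, [(nat_lit 22, [(nat_lit 0, nat_lit 509), (nat_lit 5, nat_lit 491)])],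
 ⟨p076_k3, nat_lit 0, nat_lit 0, nat_lit 162, nat_lit 0, nat_lit 138203, [nat_lit 1405328001, nat_lit 863194800, nat_lit 24451334], [], [nat_lit 21804442887, nat_lit 22328796839, nat_lit 25351117038, nat_lit 25843392647, nat_lit 22479551343, nat_lit 22956690919, nat_lit 25726208615, nat_lit 26123668157], nat_lit 1271250, nat_lit 1271250, nat_lit 1271250, nat_lit 1271250, nat_lit 490000, nat_lit 1100001, [nat_lit 490000, nat_lit 1100000, nat_lit 1785000], [nat_lit 34, nat_lit 40, nat_lit 40, nat_lit 80, nat_lit 7, nat_lit 249, nat_lit 40, nat_lit 7]⟩, ⟨p076_k2, nat_lit 0, nat_lit 0, nat_lit 647, nat_lit 0, nat_lit 474193, [nat_lit 0, nat_lit 0, nat_lit 0], [], [nat_lit 0, nat_lit 0, nat_lit 0, nat_lit 0, nat_lit 0, nat_lit 0, nat_lit 0, nat_lit 0], nat_lit 1100001, nat_lit 1442500, nat_lit 1271250, nat_lit 1271250, nat_lit 0, nat_lit 2712000, [nat_lit 1695000, nat_lit 1271250, nat_lit 1271250], [nat_lit 97,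 nat_lit 40, nat_lit 40, nat_lit 80, nat_lit 76, nat_lit 483, nat_lit 250, nat_lit 10]⟩,
 ⟨nat_lit 3162, nat_lit 3536, ⟨.ofNat (nat_lit 518855), .ofNat (nat_lit 669482), .ofNat (nat_lit 562760), .ofNat (nat_lit 713387), .ofNat (nat_lit 516642), .ofNat (nat_lit 662930), .ofNat (nat_lit 560952), .ofNat (nat_lit 707240)⟩, ⟨.ofNat (nat_lit 136093), .ofNat (nat_lit 261616), .ofNat (nat_lit 179999), .ofNat (nat_lit 305521), .ofNat (nat_lit 139899), .ofNat (nat_lit 261806), .ofNat (nat_lit 184209), .ofNat (nat_lit 306116)⟩⟩, [⟨nat_lit 13, nat_lit 64, nat_lit 84, nat_lit 100, nat_lit 279383961⟩, ⟨nat_lit 16, nat_lit 63, nat_lit 100, nat_lit 72, nat_lit 13232101⟩]⟩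
noncomputable def p076_l56 : Lf2 := ⟨nat_lit 0, nat_lit 20, [nat_lit 5, nat_lit 5, nat_lit 5, nat_lit 20], true, nat_lit 160, nat_lit 260, nat_lit 0, nat_lit 384, ⟨nat_lit 0, nat_lit 0, nat_lit 1000, nat_lit 4, nat_lit 119, nat_lit 1000, nat_lit 145, nat_lit 1000, nat_lit 89743, nat_lit 288, nat_lit 132017, nat_lit 304, nat_lit 52953585, nat_lit 0, nat_lit 0, nat_lit 3499828, false, false⟩,
 nat_lit 0, nat_lit 4927, nat_lit 0, nat_lit 3067, nat_lit 3695, nat_lit 0, nat_lit 0, nat_lit 0, nat_lit 0, nat_lit 0, nat_lit 0, nat_lit 0, nat_lit 0, nat_lit 0, nat_lit 90, nat_lit 277300, nat_lit 0, nat_lit 0, [(nat_lit 19, [(nat_lit 4, nat_lit 818), (nat_lit 5, nat_lit 182)]), (nat_lit 22, [(nat_lit 4, nat_lit 818), (nat_lit 5, nat_lit 182)])],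
 ⟨p076_k0, nat_lit 0, nat_lit 0, nat_lit 295, nat_lit 0, nat_lit 231314, [nat_lit 2221364801, nat_lit 197518400], [], [nat_lit 18474335995, nat_lit 21047169609, nat_lit 18514775263, nat_lit 20446079743, nat_lit 21463662331, nat_lit 24729153810, nat_lit 24036959353, nat_lit 23162205420], nat_lit 1271250, nat_lit 1271250, nat_lit 88400, nat_lit 1100001, nat_lit 1100001, nat_lit 1956250, [nat_lit 490000, nat_lit 2052500], [nat_lit 94, nat_lit 40, nat_lit 40, nat_lit 80, nat_lit 95, nat_lit 345, nat_lit 125, nat_lit 10]⟩, C1.Rw.none,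
 ⟨nat_lit 3162, nat_lit 4473, ⟨.ofNat (nat_lit 143971), .ofNat (nat_lit 388887), .ofNat (nat_lit 186943), .ofNat (nat_lit 431944), .ofNat (nat_lit 175109), .ofNat (nat_lit 394735), .ofNat (nat_lit 219258), .ofNat (nat_lit 438969)⟩, ⟨.ofNat (nat_lit 259488), .ofNat (nat_lit 429433), .ofNat (nat_lit 302621), .ofNat (nat_lit 472567), .ofNat (nat_lit 261805), .ofNat (nat_lit 414188), .ofNat (nat_lit 306116), .ofNat (nat_lit 458499)⟩⟩, [⟨nat_lit 0, nat_lit 100, nat_lit 72, nat_lit 63, nat_lit 101500192⟩, ⟨nat_lit 4, nat_lit 100, nat_lit 71, nat_lit 71, nat_lit 529617096⟩]⟩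
noncomputable def p076_l57 : Lf2 := ⟨nat_lit 0, nat_lit 20, [nat_lit 5, nat_lit 5, nat_lit 5, nat_lit 20], true, nat_lit 160, nat_lit 260, nat_lit 0, nat_lit 384, ⟨nat_lit 0, nat_lit 1000, nat_lit 0, nat_lit 4, nat_lit 231, nat_lit 1000, nat_lit 146, nat_lit 0, nat_lit 0, nat_lit 0, nat_lit 0, nat_lit 0, nat_lit 43640905, nat_lit 15744018, nat_lit 7615077, nat_lit 4645989, false, true⟩,
 nat_lit 0, nat_lit 5288, nat_lit 0, nat_lit 170, nat_lit 3966, nat_lit 0, nat_lit 0, nat_lit 0, nat_lit 0, nat_lit 0, nat_lit 0, nat_lit 0, nat_lit 0, nat_lit 0, nat_lit 0, nat_lit 250000, nat_lit 0, nat_lit 0, [(nat_lit 19, [(nat_lit 0, nat_lit 1000)])],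
 ⟨p076_k4, nat_lit 0, nat_lit 0, nat_lit 73, nat_lit 0, nat_lit 25770, [nat_lit 1542400001, nat_lit 2368400000, nat_lit 3220880000], [], [nat_lit 17874045257, nat_lit 19297756184, nat_lit 26335467336, nat_lit 27310261868, nat_lit 21362666446, nat_lit 22609576112, nat_lit 28424912402, nat_lit 29367020718], nat_lit 1271250, nat_lit 1271250, nat_lit 1271250, nat_lit 1271250, nat_lit 1100001, nat_lit 1956250, [nat_lit 490000, nat_lit 1100000, nat_lit 2127500], [nat_lit 27, nat_lit 40, nat_lit 40, nat_lit 80, nat_lit 13, nat_lit 401, nat_lit 175, nat_lit 11]⟩, C1.Rw.none,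
 ⟨nat_lit 3872, nat_lit 4473, ⟨.ofNat (nat_lit 388887), .ofNat (nat_lit 728778), .ofNat (nat_lit 432013), .ofNat (nat_lit 771911), .ofNat (nat_lit 391890), .ofNat (nat_lit 714498), .ofNat (nat_lit 435470), .ofNat (nat_lit 758085)⟩, ⟨.ofNat (nat_lit 259489), .ofNat (nat_lit 429434), .ofNat (nat_lit 302621), .ofNat (nat_lit 472567), .ofNat (nat_lit 261131), .ofNat (nat_lit 422435), .ofNat (nat_lit 304717), .ofNat (nat_lit 466021)⟩⟩, [⟨nat_lit 13, nat_lit 76, nat_lit 73, nat_lit 100, nat_lit 159767399⟩, ⟨nat_lit 4, nat_lit 100, nat_lit 76, nat_lit 72, nat_lit 160978096⟩]⟩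
noncomputable def p076_l58 : Lf2 := ⟨nat_lit 0, nat_lit 20, [nat_lit 5, nat_lit 5, nat_lit 5, nat_lit 20], true, nat_lit 160, nat_lit 232, nat_lit 0, nat_lit 384, ⟨nat_lit 0, nat_lit 248, nat_lit 752, nat_lit 4, nat_lit 191, nat_lit 1000, nat_lit 136, nat_lit 752, nat_lit 173400, nat_lit 317, nat_lit 4566, nat_lit 226, nat_lit 47731307, nat_lit 12144388, nat_lit 7124305, nat_lit 4225331, false, true⟩,
 nat_lit 0, nat_lit 4175, nat_lit 0, nat_lit 0, nat_lit 3379, nat_lit 0, nat_lit 0, nat_lit 0, nat_lit 0, nat_lit 0, nat_lit 0, nat_lit 0, nat_lit 0, nat_lit 0, nat_lit 43, nat_lit 250000, nat_lit 0, nat_lit 0, [(nat_lit 22, [(nat_lit 0, nat_lit 248), (nat_lit 4, nat_lit 752)])],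
 ⟨p076_k5, nat_lit 0, nat_lit 0, nat_lit 134, nat_lit 0, nat_lit 208663, [nat_lit 1854246400, nat_lit 5456000], [], [nat_lit 19077895002, nat_lit 20214995500, nat_lit 21047644972, nat_lit 22056575648, nat_lit 20850669975, nat_lit 21861586598, nat_lit 22750175568, nat_lit 23929470072], nat_lit 1271250, nat_lit 1271250, nat_lit 1100001, nat_lit 1785000, nat_lit 1100001, nat_lit 1716500, [nat_lit 490000, nat_lit 1740000], [nat_lit 110, nat_lit 40, nat_lit 40, nat_lit 80, nat_lit 109, nat_lit 345, nat_lit 125, nat_lit 10]⟩, C1.Rw.none,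
 ⟨nat_lit 3162, nat_lit 3873, ⟨.ofNat (nat_lit 391890), .ofNat (nat_lit 520934), .ofNat (nat_lit 435446), .ofNat (nat_lit 564520), .ofNat (nat_lit 394735), .ofNat (nat_lit 516642), .ofNat (nat_lit 439014), .ofNat (nat_lit 560952)⟩, ⟨.ofNat (nat_lit 261131), .ofNat (nat_lit 377270), .ofNat (nat_lit 304717), .ofNat (nat_lit 420856), .ofNat (nat_lit 261806), .ofNat (nat_lit 371522), .ofNat (nat_lit 306116), .ofNat (nat_lit 415832)⟩⟩, [⟨nat_lit 4, nat_lit 100, nat_lit 66, nat_lit 72, nat_lit 359078345⟩]⟩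
noncomputable def p076_l59 : Lf2 := ⟨nat_lit 0, nat_lit 20, [nat_lit 5, nat_lit 5, nat_lit 5, nat_lit 20], false, nat_lit 160, nat_lit 232, nat_lit 0, nat_lit 384, ⟨nat_lit 0, nat_lit 566, nat_lit 434, nat_lit 6, nat_lit 250, nat_lit 1000, nat_lit 136, nat_lit 434, nat_lit 173400, nat_lit 317, nat_lit 193302, nat_lit 200, nat_lit 42614666, nat_lit 17631026, nat_lit 6754308, nat_lit 4655488, false, true⟩,
 nat_lit 0, nat_lit 4537, nat_lit 0, nat_lit 0, nat_lit 3672, nat_lit 0, nat_lit 0, nat_lit 0, nat_lit 0, nat_lit 0, nat_lit 0, nat_lit 0, nat_lit 0, nat_lit 0, nat_lit 0, nat_lit 250000, nat_lit 0, nat_lit 0, [(nat_lit 22, [(nat_lit 0, nat_lit 566), (nat_lit 4, nat_lit 434)])],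
 ⟨p076_k1, nat_lit 0, nat_lit 0, nat_lit 99, nat_lit 0, nat_lit 76202, [nat_lit 1534668801, nat_lit 936491201, nat_lit 559891733], [], [nat_lit 22228750630, nat_lit 22744785758, nat_lit 26210217618, nat_lit 26650528058, nat_lit 23733445784, nat_lit 24213091604, nat_lit 27499870513, nat_lit 28004886870], nat_lit 1271250, nat_lit 1271250, nat_lit 1271250, nat_lit 1271250, nat_lit 1100001, nat_lit 1716500, [nat_lit 490000, nat_lit 1100000, nat_lit 1785000], [nat_lit 34, nat_lit 40, nat_lit 40, nat_lit 80, nat_lit 7, nat_lit 272, nat_lit 60, nat_lit 7]⟩, ⟨p076_k2, nat_lit 0, nat_lit 0, nat_lit 513, nat_lit 0, nat_lit 249839, [nat_lit 0, nat_lit 0, nat_lit 0], [], [nat_lit 0, nat_lit 0, nat_lit 0, nat_lit 0, nat_lit 0, nat_lit 0, nat_lit 0, nat_lit 0], nat_lit 1100001, nat_lit 1442500, nat_lit 1271250, nat_lit 1271250, nat_lit 0, nat_lit 2712000, [nat_lit 1695000, nat_lit 1271250, nat_lit 1271250], [nat_lit 97,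 nat_lit 40, nat_lit 40, nat_lit 80, nat_lit 76, nat_lit 483, nat_lit 250, nat_lit 10]⟩,
 ⟨nat_lit 3535, nat_lit 3873, ⟨.ofNat (nat_lit 520934), .ofNat (nat_lit 688690), .ofNat (nat_lit 564520), .ofNat (nat_lit 732276), .ofNat (nat_lit 518855), .ofNat (nat_lit 682034), .ofNat (nat_lit 562760), .ofNat (nat_lit 725940)⟩, ⟨.ofNat (nat_lit 261131), .ofNat (nat_lit 377270), .ofNat (nat_lit 304717), .ofNat (nat_lit 420856), .ofNat (nat_lit 261616), .ofNat (nat_lit 374587), .ofNat (nat_lit 305521), .ofNat (nat_lit 418492)⟩⟩, [⟨nat_lit 13, nat_lit 69, nat_lit 79, nat_lit 100, nat_lit 264545400⟩, ⟨nat_lit 4, nat_lit 100, nat_lit 69, nat_lit 71, nat_lit 179526047⟩]⟩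
noncomputable def p076_l60 : Lf2 := ⟨nat_lit 0, nat_lit 20, [nat_lit 5, nat_lit 5, nat_lit 5, nat_lit 20], false, nat_lit 160, nat_lit 216, nat_lit 0, nat_lit 384, ⟨nat_lit 0, nat_lit 510, nat_lit 490, nat_lit 6, nat_lit 246, nat_lit 1000, nat_lit 131, nat_lit 490, nat_lit 160067, nat_lit 313, nat_lit 155524, nat_lit 200, nat_lit 43285493, nat_lit 17310743, nat_lit 6403764, nat_lit 4575166, false, true⟩,
 nat_lit 0, nat_lit 4102, nat_lit 0, nat_lit 0, nat_lit 3445, nat_lit 0, nat_lit 0, nat_lit 0, nat_lit 0, nat_lit 0, nat_lit 0, nat_lit 0, nat_lit 0, nat_lit 0, nat_lit 0, nat_lit 250000, nat_lit 0, nat_lit 0, [(nat_lit 22, [(nat_lit 0, nat_lit 510), (nat_lit 4, nat_lit 490)])],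
 ⟨p076_k3, nat_lit 0, nat_lit 0, nat_lit 135, nat_lit 0, nat_lit 138203, [nat_lit 1530368001, nat_lit 803032001, nat_lit 283490667], [], [nat_lit 22783406608, nat_lit 23285816288, nat_lit 26137788518, nat_lit 26552689716, nat_lit 23917899958, nat_lit 24378093894, nat_lit 27094122122, nat_lit 27611126192], nat_lit 1271250, nat_lit 1271250, nat_lit 1271250, nat_lit 1271250, nat_lit 1100001, nat_lit 1579500, [nat_lit 490000, nat_lit 1100000, nat_lit 1785000], [nat_lit 34, nat_lit 40, nat_lit 40, nat_lit 80, nat_lit 7, nat_lit 272, nat_lit 60, nat_lit 7]⟩, ⟨p076_k2, nat_lit 0, nat_lit 0, nat_lit 647, nat_lit 0, nat_lit 474193, [nat_lit 0, nat_lit 0, nat_lit 0], [], [nat_lit 0, nat_lit 0, nat_lit 0, nat_lit 0, nat_lit 0, nat_lit 0, nat_lit 0, nat_lit 0], nat_lit 1100001, nat_lit 1442500, nat_lit 1271250, nat_lit 1271250, nat_lit 0, nat_lit 2712000, [nat_lit 1695000, nat_lit 1271250, nat_lit 1271250], [nat_lit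 97, nat_lit 40, nat_lit 40, nat_lit 80, nat_lit 76, nat_lit 483, nat_lit 250, nat_lit 10]⟩,
 ⟨nat_lit 3162, nat_lit 3536, ⟨.ofNat (nat_lit 518855), .ofNat (nat_lit 669482), .ofNat (nat_lit 562760), .ofNat (nat_lit 713387), .ofNat (nat_lit 516642), .ofNat (nat_lit 662930), .ofNat (nat_lit 560952), .ofNat (nat_lit 707240)⟩, ⟨.ofNat (nat_lit 261616), .ofNat (nat_lit 349482), .ofNat (nat_lit 305521), .ofNat (nat_lit 393387), .ofNat (nat_lit 261806), .ofNat (nat_lit 347141), .ofNat (nat_lit 306116), .ofNat (nat_lit 391450)⟩⟩, [⟨nat_lit 13, nat_lit 66, nat_lit 75, nat_lit 100, nat_lit 275843823⟩, ⟨nat_lit 4, nat_lit 100, nat_lit 63, nat_lit 72, nat_lit 214720454⟩]⟩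
noncomputable def b_V_800_400_10_13 : St := ⟨true, nat_lit 1, nat_lit 1, nat_lit 1, nat_lit 80, nat_lit 320, nat_lit 360, nat_lit 160, nat_lit 200, nat_lit 16, nat_lit 360, nat_lit 40, nat_lit 80, nat_lit 0, nat_lit 260, nat_lit 0, nat_lit 384, nat_lit 80, nat_lit 104, nat_lit 0, nat_lit 0, nat_lit 0, nat_lit 0⟩
theorem d_V_800_400_10_13 (h : EB TB.env) : Dead b_V_800_400_10_13 := chkB_sound0 h (T :=
(.spl (nat_lit 4) (nat_lit 160)
(.spl (nat_lit 0) (nat_lit 340)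
(.spl (nat_lit 6) (nat_lit 84)
(.spl (nat_lit 3) (nat_lit 60)
(.trX (nat_lit 19) (nat_lit 100) (nat_lit 55) (nat_lit 73) (nat_lit 368) (.leaf p076_l44))
(.leaf p076_l45))
(.leaf p076_l46))
(.trZ (nat_lit 0) (nat_lit 100) (nat_lit 73) (nat_lit 55) (nat_lit 32) (.trX (nat_lit 13) (nat_lit 71) (nat_lit 70) (nat_lit 100) (nat_lit 344) (.spl (nat_lit 2) (nat_lit 160)
(.leaf p076_l47)
(.spl (nat_lit 2) (nat_lit 240)
(.leaf p076_l48)
(.spl (nat_lit 4) (nat_lit 80)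
(.trX (nat_lit 22) (nat_lit 100) (nat_lit 76) (nat_lit 82) (nat_lit 336) (.spl (nat_lit 1) (nat_lit 180)
(.trX (nat_lit 13) (nat_lit 72) (nat_lit 77) (nat_lit 100) (nat_lit 332) (.spl (nat_lit 0) (nat_lit 350)
(.leaf p076_l49)
(.trX (nat_lit 13) (nat_lit 66) (nat_lit 82) (nat_lit 100) (nat_lit 320) (.leaf p076_l50))))
(.spl (nat_lit 2) (nat_lit 280)
(.leaf p076_l51)
(.trX (nat_lit 22) (nat_lit 100) (nat_lit 95) (nat_lit 87) (nat_lit 300) (.spl (nat_lit 0) (nat_lit 350)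
(.leaf p076_l52)
(.trX (nat_lit 13) (nat_lit 66) (nat_lit 75) (nat_lit 100) (nat_lit 336) (.leaf p076_l53)))))))
(.spl (nat_lit 0) (nat_lit 350)
(.leaf p076_l54)
(.trX (nat_lit 13) (nat_lit 66) (nat_lit 75) (nat_lit 100) (nat_lit 336) (.leaf p076_l55)))))))))
(.spl (nat_lit 2) (nat_lit 160)
(.leaf p076_l56)
(.spl (nat_lit 0) (nat_lit 340)
(.leaf p076_l57)
(.trX (nat_lit 13) (nat_lit 71) (nat_lit 70) (nat_lit 100) (nat_lit 344) (.trX (nat_lit 16) (nat_lit 72) (nat_lit 100) (nat_lit 81) (nat_lit 232) (.spl (nat_lit 2) (nat_lit 240)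
(.leaf p076_l58)
(.spl (nat_lit 0) (nat_lit 350)
(.leaf p076_l59)
(.trX (nat_lit 13) (nat_lit 66) (nat_lit 75) (nat_lit 100) (nat_lit 336) (.trX (nat_lit 16) (nat_lit 66) (nat_lit 100) (nat_lit 80) (nat_lit 216) (.leaf p076_l60))))))))))) (by decide +kernel)
noncomputable def p076_l61 : Lf2 := ⟨nat_lit 0, nat_lit 20, [nat_lit 5, nat_lit 5, nat_lit 5, nat_lit 20], true, nat_lit 0, nat_lit 260, nat_lit 0, nat_lit 384, ⟨nat_lit 0, nat_lit 1000, nat_lit 0, nat_lit 4, nat_lit 183, nat_lit 1000, nat_lit 90, nat_lit 0, nat_lit 0, nat_lit 0, nat_lit 0, nat_lit 0, nat_lit 0, nat_lit 0, nat_lit 0, nat_lit 5000000, false, true⟩,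
 nat_lit 0, nat_lit 6896, nat_lit 0, nat_lit 7327, nat_lit 5172, nat_lit 0, nat_lit 0, nat_lit 0, nat_lit 0, nat_lit 0, nat_lit 0, nat_lit 0, nat_lit 0, nat_lit 0, nat_lit 0, nat_lit 324400, nat_lit 0, nat_lit 0, [(nat_lit 19, [(nat_lit 0, nat_lit 504), (nat_lit 1, nat_lit 496)])],
 ⟨p076_k0, nat_lit 0, nat_lit 0, nat_lit 306, nat_lit 0, nat_lit 25770, [nat_lit 1833859201, nat_lit 2545996343], [], [nat_lit 35593620028, nat_lit 32833540852, nat_lit 32793412318, nat_lit 33622199592, nat_lit 28664131412, nat_lit 29551528272, nat_lit 32796300861, nat_lit 30609936129], nat_lit 1271250, nat_lit 1271250, nat_lit 88400, nat_lit 2569500, nat_lit 0, nat_lit 1836250, [nat_lit 490000, nat_lit 2052500], [nat_lit 94, nat_lit 40, nat_lit 40, nat_lit 80, nat_lit 95, nat_lit 401, nat_lit 175, nat_lit 12]⟩, C1.Rw.none,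
 ⟨nat_lit 3872, nat_lit 4473, ⟨.ofNat (nat_lit 144159), .ofNat (nat_lit 728778), .ofNat (nat_lit 187264), .ofNat (nat_lit 771911), .ofNat (nat_lit 159606), .ofNat (nat_lit 714498), .ofNat (nat_lit 203164), .ofNat (nat_lit 758085)⟩, ⟨.negSucc (nat_lit 12427), .ofNat (nat_lit 429434), .ofNat (nat_lit 0), .ofNat (nat_lit 472567), .ofNat (nat_lit 0), .ofNat (nat_lit 422435), .ofNat (nat_lit 0), .ofNat (nat_lit 466021)⟩⟩, [⟨nat_lit 13, nat_lit 76, nat_lit 73, nat_lit 100, nat_lit 66872703⟩, ⟨nat_lit 4, nat_lit 100, nat_lit 76, nat_lit 72, nat_lit 27497300⟩]⟩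
noncomputable def p076_l62 : Lf2 := ⟨nat_lit 0, nat_lit 20, [nat_lit 5, nat_lit 5, nat_lit 5, nat_lit 20], true, nat_lit 0, nat_lit 232, nat_lit 0, nat_lit 384, ⟨nat_lit 0, nat_lit 1000, nat_lit 0, nat_lit 4, nat_lit 184, nat_lit 1000, nat_lit 79, nat_lit 0, nat_lit 0, nat_lit 0, nat_lit 0, nat_lit 0, nat_lit 0, nat_lit 0, nat_lit 0, nat_lit 5000000, false, true⟩,
 nat_lit 0, nat_lit 4955, nat_lit 0, nat_lit 288, nat_lit 4011, nat_lit 0, nat_lit 0, nat_lit 0, nat_lit 0, nat_lit 0, nat_lit 0, nat_lit 0, nat_lit 0, nat_lit 0, nat_lit 0, nat_lit 536200, nat_lit 0, nat_lit 0, [(nat_lit 22, [(nat_lit 1, nat_lit 773), (nat_lit 2, nat_lit 227)])],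
 ⟨p076_k5, nat_lit 0, nat_lit 0, nat_lit 320, nat_lit 0, nat_lit 208663, [nat_lit 1904131601, nat_lit 298748667], [], [nat_lit 31336917952, nat_lit 29176477836, nat_lit 29572483327, nat_lit 30929918636, nat_lit 23197500634, nat_lit 24078672916, nat_lit 30430924427, nat_lit 28837182316], nat_lit 1271250, nat_lit 1271250, nat_lit 181601, nat_lit 2478700, nat_lit 0, nat_lit 1638500, [nat_lit 490000, nat_lit 1740000], [nat_lit 110, nat_lit 40, nat_lit 40, nat_lit 80, nat_lit 109, nat_lit 373, nat_lit 150, nat_lit 12]⟩, C1.Rw.none,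
 ⟨nat_lit 3162, nat_lit 3873, ⟨.ofNat (nat_lit 185344), .ofNat (nat_lit 688690), .ofNat (nat_lit 228873), .ofNat (nat_lit 732276), .ofNat (nat_lit 199607), .ofNat (nat_lit 675121), .ofNat (nat_lit 243860), .ofNat (nat_lit 719431)⟩, ⟨.ofNat (nat_lit 0), .ofNat (nat_lit 377270), .ofNat (nat_lit 0), .ofNat (nat_lit 420856), .ofNat (nat_lit 0), .ofNat (nat_lit 371522), .ofNat (nat_lit 0), .ofNat (nat_lit 415832)⟩⟩, [⟨nat_lit 13, nat_lit 71, nat_lit 70, nat_lit 100, nat_lit 87415582⟩, ⟨nat_lit 4, nat_lit 100, nat_lit 66, nat_lit 72, nat_lit 53489624⟩]⟩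
noncomputable def p076_l63 : Lf2 := ⟨nat_lit 0, nat_lit 20, [nat_lit 5, nat_lit 5, nat_lit 5, nat_lit 20], false, nat_lit 0, nat_lit 260, nat_lit 0, nat_lit 384, ⟨nat_lit 0, nat_lit 1000, nat_lit 0, nat_lit 4, nat_lit 183, nat_lit 1000, nat_lit 89, nat_lit 0, nat_lit 0, nat_lit 0, nat_lit 0, nat_lit 0, nat_lit 0, nat_lit 0, nat_lit 0, nat_lit 5000000, false, true⟩,
 nat_lit 0, nat_lit 7097, nat_lit 0, nat_lit 4658, nat_lit 5322, nat_lit 0, nat_lit 0, nat_lit 0, nat_lit 0, nat_lit 0, nat_lit 0, nat_lit 0, nat_lit 0, nat_lit 0, nat_lit 0, nat_lit 250000, nat_lit 0, nat_lit 0, [(nat_lit 19, [(nat_lit 0, nat_lit 1000)]), (nat_lit 22, [(nat_lit 0, nat_lit 1000)])],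
 ⟨p076_k12, nat_lit 0, nat_lit 0, nat_lit 372, nat_lit 0, nat_lit 159028, [nat_lit 1568000001, nat_lit 2605200001, nat_lit 3236666667], [], [nat_lit 37280189327, nat_lit 33940363501, nat_lit 34092036366, nat_lit 35492019694, nat_lit 29908496530, nat_lit 31704381750, nat_lit 36580195305, nat_lit 32134255047], nat_lit 1271250, nat_lit 1271250, nat_lit 88400, nat_lit 2569500, nat_lit 0, nat_lit 1836250, [nat_lit 490000, nat_lit 1427500, nat_lit 1271250], [nat_lit 61, nat_lit 40, nat_lit 40, nat_lit 80, nat_lit 1, nat_lit 401, nat_lit 175, nat_lit 12]⟩, ⟨p076_k13, nat_lit 0, nat_lit 0, nat_lit 809, nat_lit 0, nat_lit 474193, [nat_lit 0, nat_lit 0, nat_lit 0], [], [nat_lit 0, nat_lit 0, nat_lit 0, nat_lit 0, nat_lit 0, nat_lit 0, nat_lit 0, nat_lit 0], nat_lit 1100001, nat_lit 1442500, nat_lit 88400, nat_lit 2569500, nat_lit 0, nat_lit 2712000, [nat_lit 1695000, nat_lit 1271250, nat_lit 1271250], [nat_lit 202,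 nat_lit 40, nat_lit 40, nat_lit 80, nat_lit 204, nat_lit 483, nat_lit 250, nat_lit 11]⟩,
 ⟨nat_lit 3162, nat_lit 4473, ⟨.ofNat (nat_lit 143971), .ofNat (nat_lit 728778), .ofNat (nat_lit 186943), .ofNat (nat_lit 771911), .ofNat (nat_lit 175109), .ofNat (nat_lit 699502), .ofNat (nat_lit 219258), .ofNat (nat_lit 743812)⟩, ⟨.negSucc (nat_lit 12437), .ofNat (nat_lit 429433), .ofNat (nat_lit 0), .ofNat (nat_lit 472567), .ofNat (nat_lit 0), .ofNat (nat_lit 414188), .ofNat (nat_lit 0), .ofNat (nat_lit 458499)⟩⟩, [⟨nat_lit 13, nat_lit 72, nat_lit 77, nat_lit 100, nat_lit 89112662⟩, ⟨nat_lit 4, nat_lit 100, nat_lit 71, nat_lit 71, nat_lit 20103889⟩]⟩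
noncomputable def b_V_800_400_10_14 : St := ⟨true, nat_lit 1, nat_lit 2, nat_lit 2, nat_lit 80, nat_lit 320, nat_lit 360, nat_lit 160, nat_lit 200, nat_lit 16, nat_lit 360, nat_lit 40, nat_lit 80, nat_lit 0, nat_lit 260, nat_lit 0, nat_lit 384, nat_lit 80, nat_lit 104, nat_lit 0, nat_lit 0, nat_lit 0, nat_lit 0⟩
theorem d_V_800_400_10_14 (h : EB TB.env) : Dead b_V_800_400_10_14 := chkB_sound0 h (T :=
(.st (nat_lit 1)
(.spl (nat_lit 0) (nat_lit 340)
(.leaf p076_l61)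
(.trZ (nat_lit 0) (nat_lit 100) (nat_lit 73) (nat_lit 55) (nat_lit 32) (.trX (nat_lit 13) (nat_lit 71) (nat_lit 70) (nat_lit 100) (nat_lit 344) (.trX (nat_lit 16) (nat_lit 72) (nat_lit 100) (nat_lit 81) (nat_lit 232) (.leaf p076_l62)))))
(.leaf p076_l63))) (by decide +kernel)
noncomputable def p076_l64 : Lf2 := ⟨nat_lit 0, nat_lit 10, [nat_lit 0, nat_lit 5, nat_lit 5, nat_lit 20], true, nat_lit 0, nat_lit 160, nat_lit 0, nat_lit 396, ⟨nat_lit 0, nat_lit 0, nat_lit 1000, nat_lit 4, nat_lit 119, nat_lit 1000, nat_lit 65, nat_lit 1000, nat_lit 40017, nat_lit 264, nat_lit 132017, nat_lit 304, nat_lit 61553016, nat_lit 0, nat_lit 0, nat_lit 1409640, false, false⟩,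
 nat_lit 0, nat_lit 0, nat_lit 0, nat_lit 3239, nat_lit 2252, nat_lit 0, nat_lit 0, nat_lit 0, nat_lit 0, nat_lit 0, nat_lit 0, nat_lit 0, nat_lit 0, nat_lit 0, nat_lit 76, nat_lit 400000, nat_lit 0, nat_lit 0, [(nat_lit 18, [(nat_lit 5, nat_lit 1000)]), (nat_lit 21, [(nat_lit 5, nat_lit 1000)])],
 ⟨p076_k14, nat_lit 0, nat_lit 0, nat_lit 214, nat_lit 0, nat_lit 0, [nat_lit 1693000001, nat_lit 251500000], [], [nat_lit 17130616189, nat_lit 19610251015, nat_lit 18562536675, nat_lit 20768155476, nat_lit 18460206058, nat_lit 20641651336, nat_lit 19856141123, nat_lit 21958249668], nat_lit 0, nat_lit 0, nat_lit 0, nat_lit 0, nat_lit 0, nat_lit 0, [], [nat_lit 69, nat_lit 40, nat_lit 40, nat_lit 80, nat_lit 64, nat_lit 317, nat_lit 100, nat_lit 12]⟩, C1.Rw.none,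
 ⟨nat_lit 3162, nat_lit 4473, ⟨.ofNat (nat_lit 143971), .ofNat (nat_lit 388887), .ofNat (nat_lit 186943), .ofNat (nat_lit 431944), .ofNat (nat_lit 175109), .ofNat (nat_lit 394735), .ofNat (nat_lit 219258), .ofNat (nat_lit 438969)⟩, ⟨.ofNat (nat_lit 0), .ofNat (nat_lit 302621), .ofNat (nat_lit 0), .ofNat (nat_lit 345754), .ofNat (nat_lit 0), .ofNat (nat_lit 306116), .ofNat (nat_lit 0), .ofNat (nat_lit 350426)⟩⟩, [⟨nat_lit 0, nat_lit 100, nat_lit 60, nat_lit 80, nat_lit 19945590⟩, ⟨nat_lit 3, nat_lit 100, nat_lit 65, nat_lit 54, nat_lit 71330341⟩]⟩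
noncomputable def p076_l65 : Lf2 := ⟨nat_lit 0, nat_lit 10, [nat_lit 0, nat_lit 5, nat_lit 5, nat_lit 20], false, nat_lit 0, nat_lit 160, nat_lit 0, nat_lit 396, ⟨nat_lit 370, nat_lit 0, nat_lit 630, nat_lit 4, nat_lit 231, nat_lit 630, nat_lit 65, nat_lit 630, nat_lit 40017, nat_lit 264, nat_lit 272572, nat_lit 200, nat_lit 50235150, nat_lit 0, nat_lit 0, nat_lit 2812891, false, true⟩,
 nat_lit 0, nat_lit 0, nat_lit 0, nat_lit 7964, nat_lit 3732, nat_lit 3257, nat_lit 0, nat_lit 0, nat_lit 0, nat_lit 642, nat_lit 0, nat_lit 0, nat_lit 0, nat_lit 0, nat_lit 0, nat_lit 252000, nat_lit 0, nat_lit 0, [(nat_lit 18, [(nat_lit 5, nat_lit 630)])],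
 ⟨p076_k15, nat_lit 0, nat_lit 0, nat_lit 152, nat_lit 0, nat_lit 0, [nat_lit 1336984000, nat_lit 1451808001, nat_lit 1407471999], [], [nat_lit 19032171999, nat_lit 20639157159, nat_lit 28716034800, nat_lit 29963179752, nat_lit 18881706432, nat_lit 20027828128, nat_lit 26046127519, nat_lit 27065073600], nat_lit 0, nat_lit 0, nat_lit 0, nat_lit 0, nat_lit 0, nat_lit 0, [], [nat_lit 85, nat_lit 40, nat_lit 40, nat_lit 80, nat_lit 16, nat_lit 373, nat_lit 150, nat_lit 14]⟩, ⟨p076_k16, nat_lit 0, nat_lit 0, nat_lit 296, nat_lit 0, nat_lit 0, [nat_lit 2948160000, nat_lit 3641540000, nat_lit 5201460000], [], [nat_lit 12286757674, nat_lit 12509084606, nat_lit 15373856822, nat_lit 15368441650, nat_lit 13221867420, nat_lit 13135260111, nat_lit 14505143165, nat_lit 14261051321], nat_lit 0, nat_lit 0, nat_lit 0, nat_lit 0, nat_lit 0, nat_lit 0, [], [nat_lit 92, nat_lit 40, nat_lit 40, nat_lit 80, nat_lit 32, nat_lit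 483, nat_lit 250, nat_lit 11]⟩,
 ⟨nat_lit 3872, nat_lit 4473, ⟨.ofNat (nat_lit 388887), .ofNat (nat_lit 728778), .ofNat (nat_lit 432013), .ofNat (nat_lit 771911), .ofNat (nat_lit 391890), .ofNat (nat_lit 714498), .ofNat (nat_lit 435470), .ofNat (nat_lit 758085)⟩, ⟨.ofNat (nat_lit 0), .ofNat (nat_lit 302621), .ofNat (nat_lit 0), .ofNat (nat_lit 345754), .ofNat (nat_lit 0), .ofNat (nat_lit 304717), .ofNat (nat_lit 0), .ofNat (nat_lit 348304)⟩⟩, [⟨nat_lit 22, nat_lit 100, nat_lit 85, nat_lit 84, nat_lit 73146511⟩]⟩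
noncomputable def p076_l66 : Lf2 := ⟨nat_lit 0, nat_lit 10, [nat_lit 0, nat_lit 5, nat_lit 5, nat_lit 20], false, nat_lit 0, nat_lit 160, nat_lit 0, nat_lit 396, ⟨nat_lit 287, nat_lit 0, nat_lit 713, nat_lit 4, nat_lit 224, nat_lit 713, nat_lit 65, nat_lit 713, nat_lit 40017, nat_lit 264, nat_lit 193302, nat_lit 200, nat_lit 51023338, nat_lit 0, nat_lit 0, nat_lit 2746476, false, true⟩,
 nat_lit 0, nat_lit 0, nat_lit 0, nat_lit 1514, nat_lit 2884, nat_lit 2515, nat_lit 0, nat_lit 0, nat_lit 0, nat_lit 0, nat_lit 0, nat_lit 0, nat_lit 0, nat_lit 0, nat_lit 0, nat_lit 285200, nat_lit 0, nat_lit 0, [(nat_lit 21, [(nat_lit 5, nat_lit 713)])],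
 ⟨p076_k17, nat_lit 0, nat_lit 0, nat_lit 153, nat_lit 0, nat_lit 0, [nat_lit 1280212801, nat_lit 796482001, nat_lit 658083600], [], [nat_lit 20234137250, nat_lit 21493197250, nat_lit 26858736300, nat_lit 28032398029, nat_lit 20691372634, nat_lit 21763351474, nat_lit 26391397683, nat_lit 27161781644], nat_lit 0, nat_lit 0, nat_lit 0, nat_lit 0, nat_lit 0, nat_lit 0, [], [nat_lit 85, nat_lit 40, nat_lit 40, nat_lit 80, nat_lit 16, nat_lit 373, nat_lit 150, nat_lit 14]⟩, ⟨p076_k16, nat_lit 0, nat_lit 0, nat_lit 290, nat_lit 0, nat_lit 0, [nat_lit 2286816000, nat_lit 2824654000, nat_lit 4034646000], [], [nat_lit 11434297364, nat_lit 11607193744, nat_lit 13463461222, nat_lit 13439948419, nat_lit 12167339206, nat_lit 12085989196, nat_lit 12979000964, nat_lit 12804964416], nat_lit 0, nat_lit 0, nat_lit 0, nat_lit 0, nat_lit 0, nat_lit 0, [], [nat_lit 92, nat_lit 40, nat_lit 40, nat_lit 80, nat_lit 32, nat_lit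 483, nat_lit 250, nat_lit 11]⟩,
 ⟨nat_lit 3162, nat_lit 3873, ⟨.ofNat (nat_lit 391890), .ofNat (nat_lit 688690), .ofNat (nat_lit 435446), .ofNat (nat_lit 732276), .ofNat (nat_lit 394735), .ofNat (nat_lit 675121), .ofNat (nat_lit 439014), .ofNat (nat_lit 719431)⟩, ⟨.ofNat (nat_lit 0), .ofNat (nat_lit 304717), .ofNat (nat_lit 0), .ofNat (nat_lit 348304), .ofNat (nat_lit 0), .ofNat (nat_lit 306116), .ofNat (nat_lit 0), .ofNat (nat_lit 350426)⟩⟩, [⟨nat_lit 22, nat_lit 100, nat_lit 82, nat_lit 83, nat_lit 60967600⟩]⟩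
noncomputable def p076_l67 : Lf2 := ⟨nat_lit 0, nat_lit 10, [nat_lit 0, nat_lit 5, nat_lit 5, nat_lit 20], true, nat_lit 160, nat_lit 300, nat_lit 0, nat_lit 396, ⟨nat_lit 0, nat_lit 159, nat_lit 841, nat_lit 4, nat_lit 119, nat_lit 1000, nat_lit 176, nat_lit 841, nat_lit 1169, nat_lit 218, nat_lit 132017, nat_lit 304, nat_lit 50295512, nat_lit 5900770, nat_lit 10803718, nat_lit 3860240, false, false⟩,
 nat_lit 0, nat_lit 0, nat_lit 0, nat_lit 3835, nat_lit 2732, nat_lit 0, nat_lit 0, nat_lit 0, nat_lit 0, nat_lit 0, nat_lit 0, nat_lit 0, nat_lit 0, nat_lit 0, nat_lit 43, nat_lit 376150, nat_lit 0, nat_lit 0, [(nat_lit 18, [(nat_lit 0, nat_lit 159), (nat_lit 5, nat_lit 841)]), (nat_lit 21, [(nat_lit 0, nat_lit 159), (nat_lit 5, nat_lit 841)])],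
 ⟨p076_k14, nat_lit 0, nat_lit 0, nat_lit 127, nat_lit 0, nat_lit 0, [nat_lit 1504270601, nat_lit 186366700], [], [nat_lit 17411810754, nat_lit 19847015733, nat_lit 18406240718, nat_lit 20503683358, nat_lit 22291730516, nat_lit 24858465695, nat_lit 22845092687, nat_lit 24764165571], nat_lit 0, nat_lit 0, nat_lit 0, nat_lit 0, nat_lit 0, nat_lit 0, [], [nat_lit 69, nat_lit 40, nat_lit 40, nat_lit 80, nat_lit 64, nat_lit 345, nat_lit 125, nat_lit 13]⟩, C1.Rw.none,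
 ⟨nat_lit 3162, nat_lit 4473, ⟨.ofNat (nat_lit 143971), .ofNat (nat_lit 388887), .ofNat (nat_lit 186943), .ofNat (nat_lit 431944), .ofNat (nat_lit 175109), .ofNat (nat_lit 394735), .ofNat (nat_lit 219258), .ofNat (nat_lit 438969)⟩, ⟨.ofNat (nat_lit 302621), .ofNat (nat_lit 540545), .ofNat (nat_lit 345754), .ofNat (nat_lit 583678), .ofNat (nat_lit 306116), .ofNat (nat_lit 519453), .ofNat (nat_lit 350426), .ofNat (nat_lit 563762)⟩⟩, [⟨nat_lit 0, nat_lit 100, nat_lit 72, nat_lit 63, nat_lit 76552838⟩, ⟨nat_lit 16, nat_lit 87, nat_lit 95, nat_lit 100, nat_lit 189417141⟩]⟩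
noncomputable def p076_l68 : Lf2 := ⟨nat_lit 0, nat_lit 10, [nat_lit 0, nat_lit 5, nat_lit 5, nat_lit 20], true, nat_lit 160, nat_lit 300, nat_lit 0, nat_lit 396, ⟨nat_lit 0, nat_lit 1000, nat_lit 0, nat_lit 4, nat_lit 191, nat_lit 1000, nat_lit 176, nat_lit 0, nat_lit 0, nat_lit 0, nat_lit 0, nat_lit 0, nat_lit 44876251, nat_lit 11804827, nat_lit 10318922, nat_lit 4637990, false, true⟩,
 nat_lit 0, nat_lit 0, nat_lit 0, nat_lit 2797, nat_lit 3111, nat_lit 0, nat_lit 0, nat_lit 0, nat_lit 0, nat_lit 0, nat_lit 0, nat_lit 0, nat_lit 0, nat_lit 0, nat_lit 0, nat_lit 250000, nat_lit 0, nat_lit 0, [(nat_lit 18, [(nat_lit 0, nat_lit 1000)]), (nat_lit 21, [(nat_lit 0, nat_lit 1000)])],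
 ⟨p076_k14, nat_lit 0, nat_lit 0, nat_lit 39, nat_lit 0, nat_lit 0, [nat_lit 1558400000, nat_lit 2562000000], [], [nat_lit 16668205652, nat_lit 19628120900, nat_lit 19445059332, nat_lit 22014115852, nat_lit 22278119724, nat_lit 24534946084, nat_lit 24295265198, nat_lit 26277433106], nat_lit 0, nat_lit 0, nat_lit 0, nat_lit 0, nat_lit 0, nat_lit 0, [], [nat_lit 69, nat_lit 40, nat_lit 40, nat_lit 80, nat_lit 64, nat_lit 373, nat_lit 150, nat_lit 13]⟩, C1.Rw.none,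
 ⟨nat_lit 3162, nat_lit 4473, ⟨.ofNat (nat_lit 388887), .ofNat (nat_lit 524844), .ofNat (nat_lit 431944), .ofNat (nat_lit 567977), .ofNat (nat_lit 394735), .ofNat (nat_lit 516642), .ofNat (nat_lit 438969), .ofNat (nat_lit 560952)⟩, ⟨.ofNat (nat_lit 302621), .ofNat (nat_lit 540545), .ofNat (nat_lit 345754), .ofNat (nat_lit 583678), .ofNat (nat_lit 306116), .ofNat (nat_lit 519453), .ofNat (nat_lit 350426), .ofNat (nat_lit 563762)⟩⟩, [⟨nat_lit 16, nat_lit 87, nat_lit 95, nat_lit 100, nat_lit 168097745⟩]⟩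
noncomputable def p076_l69 : Lf2 := ⟨nat_lit 0, nat_lit 10, [nat_lit 0, nat_lit 5, nat_lit 5, nat_lit 20], true, nat_lit 160, nat_lit 300, nat_lit 0, nat_lit 396, ⟨nat_lit 0, nat_lit 1000, nat_lit 0, nat_lit 6, nat_lit 247, nat_lit 1000, nat_lit 176, nat_lit 0, nat_lit 0, nat_lit 0, nat_lit 0, nat_lit 0, nat_lit 40488201, nat_lit 16796849, nat_lit 9714950, nat_lit 5013020, false, true⟩,
 nat_lit 0, nat_lit 0, nat_lit 0, nat_lit 2892, nat_lit 3295, nat_lit 0, nat_lit 0, nat_lit 0, nat_lit 0, nat_lit 0, nat_lit 0, nat_lit 0, nat_lit 0, nat_lit 0, nat_lit 0, nat_lit 250000, nat_lit 0, nat_lit 0, [(nat_lit 18, [(nat_lit 0, nat_lit 1000)]), (nat_lit 21, [(nat_lit 0, nat_lit 1000)])],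
 ⟨p076_k15, nat_lit 0, nat_lit 0, nat_lit 59, nat_lit 0, nat_lit 0, [nat_lit 1558400000, nat_lit 1774266667, nat_lit 2562000000], [], [nat_lit 20274833047, nat_lit 22648874227, nat_lit 25186164517, nat_lit 27056237753, nat_lit 24799895827, nat_lit 26643132402, nat_lit 28593102163, nat_lit 30265591616], nat_lit 0, nat_lit 0, nat_lit 0, nat_lit 0, nat_lit 0, nat_lit 0, [], [nat_lit 85, nat_lit 40, nat_lit 40, nat_lit 80, nat_lit 16, nat_lit 289, nat_lit 75, nat_lit 9]⟩, C1.Rw.none,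
 ⟨nat_lit 3162, nat_lit 4473, ⟨.ofNat (nat_lit 524844), .ofNat (nat_lit 708385), .ofNat (nat_lit 546410), .ofNat (nat_lit 729951), .ofNat (nat_lit 516642), .ofNat (nat_lit 681216), .ofNat (nat_lit 538797), .ofNat (nat_lit 703371)⟩, ⟨.ofNat (nat_lit 302621), .ofNat (nat_lit 540545), .ofNat (nat_lit 345754), .ofNat (nat_lit 583678), .ofNat (nat_lit 306116), .ofNat (nat_lit 519453), .ofNat (nat_lit 350426), .ofNat (nat_lit 563762)⟩⟩, [⟨nat_lit 13, nat_lit 72, nat_lit 81, nat_lit 100, nat_lit 777218⟩, ⟨nat_lit 13, nat_lit 80, nat_lit 68, nat_lit 100, nat_lit 170631726⟩, ⟨nat_lit 16, nat_lit 87, nat_lit 95, nat_lit 100, nat_lit 116593607⟩]⟩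
noncomputable def p076_l70 : Lf2 := ⟨nat_lit 0, nat_lit 10, [nat_lit 0, nat_lit 5, nat_lit 5, nat_lit 20], true, nat_lit 160, nat_lit 300, nat_lit 0, nat_lit 392, ⟨nat_lit 0, nat_lit 1000, nat_lit 0, nat_lit 6, nat_lit 260, nat_lit 1000, nat_lit 176, nat_lit 0, nat_lit 0, nat_lit 0, nat_lit 0, nat_lit 0, nat_lit 39515504, nat_lit 17923563, nat_lit 9560933, nat_lit 5070627, true, true⟩,
 nat_lit 0, nat_lit 0, nat_lit 0, nat_lit 2895, nat_lit 3559, nat_lit 0, nat_lit 0, nat_lit 0, nat_lit 0, nat_lit 0, nat_lit 0, nat_lit 0, nat_lit 0, nat_lit 0, nat_lit 0, nat_lit 250000, nat_lit 0, nat_lit 0, [(nat_lit 18, [(nat_lit 0, nat_lit 1000)]), (nat_lit 21, [(nat_lit 0, nat_lit 1000)])],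
 ⟨p076_k18, nat_lit 0, nat_lit 0, nat_lit 73, nat_lit 0, nat_lit 0, [nat_lit 1558400000, nat_lit 2168000000, nat_lit 2562000000], [], [nat_lit 20890231784, nat_lit 23218095100, nat_lit 26266064092, nat_lit 28133740600, nat_lit 25237900979, nat_lit 27041858991, nat_lit 29473149307, nat_lit 31042398463], nat_lit 0, nat_lit 0, nat_lit 0, nat_lit 0, nat_lit 0, nat_lit 0, [], [nat_lit 6, nat_lit 40, nat_lit 40, nat_lit 80, nat_lit 3, nat_lit 289, nat_lit 75, nat_lit 9]⟩, C1.Rw.none,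
 ⟨nat_lit 3162, nat_lit 4473, ⟨.ofNat (nat_lit 546410), .ofNat (nat_lit 750345), .ofNat (nat_lit 567977), .ofNat (nat_lit 771911), .ofNat (nat_lit 538797), .ofNat (nat_lit 721657), .ofNat (nat_lit 560952), .ofNat (nat_lit 743812)⟩, ⟨.ofNat (nat_lit 302621), .ofNat (nat_lit 540545), .ofNat (nat_lit 345754), .ofNat (nat_lit 583678), .ofNat (nat_lit 306116), .ofNat (nat_lit 519453), .ofNat (nat_lit 350426), .ofNat (nat_lit 563762)⟩⟩, [⟨nat_lit 13, nat_lit 72, nat_lit 74, nat_lit 100, nat_lit 17953088⟩, ⟨nat_lit 13, nat_lit 80, nat_lit 60, nat_lit 100, nat_lit 151618286⟩, ⟨nat_lit 16, nat_lit 87, nat_lit 95, nat_lit 100, nat_lit 110381955⟩]⟩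
noncomputable def p076_l71 : Lf2 := ⟨nat_lit 0, nat_lit 10, [nat_lit 0, nat_lit 5, nat_lit 5, nat_lit 20], true, nat_lit 0, nat_lit 160, nat_lit 0, nat_lit 396, ⟨nat_lit 0, nat_lit 0, nat_lit 1000, nat_lit 4, nat_lit 119, nat_lit 1000, nat_lit 65, nat_lit 1000, nat_lit 40017, nat_lit 264, nat_lit 132017, nat_lit 304, nat_lit 61553016, nat_lit 0, nat_lit 0, nat_lit 1409640, false, false⟩,
 nat_lit 0, nat_lit 0, nat_lit 0, nat_lit 3239, nat_lit 2252, nat_lit 0, nat_lit 0, nat_lit 0, nat_lit 0, nat_lit 0, nat_lit 0, nat_lit 0, nat_lit 0, nat_lit 0, nat_lit 76, nat_lit 400000, nat_lit 0, nat_lit 0, [(nat_lit 18, [(nat_lit 5, nat_lit 1000)]), (nat_lit 21, [(nat_lit 5, nat_lit 1000)])],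
 ⟨p076_k14, nat_lit 0, nat_lit 0, nat_lit 214, nat_lit 0, nat_lit 0, [nat_lit 1693000001, nat_lit 251500000], [], [nat_lit 17130616189, nat_lit 19610251015, nat_lit 18562536675, nat_lit 20768155476, nat_lit 18460206058, nat_lit 20641651336, nat_lit 19856141123, nat_lit 21958249668], nat_lit 0, nat_lit 0, nat_lit 0, nat_lit 0, nat_lit 0, nat_lit 0, [], [nat_lit 69, nat_lit 40, nat_lit 40, nat_lit 80, nat_lit 64, nat_lit 317, nat_lit 100, nat_lit 12]⟩, C1.Rw.none,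
 ⟨nat_lit 3162, nat_lit 4473, ⟨.ofNat (nat_lit 143971), .ofNat (nat_lit 388887), .ofNat (nat_lit 186943), .ofNat (nat_lit 431944), .ofNat (nat_lit 175109), .ofNat (nat_lit 394735), .ofNat (nat_lit 219258), .ofNat (nat_lit 438969)⟩, ⟨.ofNat (nat_lit 0), .ofNat (nat_lit 302621), .ofNat (nat_lit 0), .ofNat (nat_lit 345754), .ofNat (nat_lit 0), .ofNat (nat_lit 306116), .ofNat (nat_lit 0), .ofNat (nat_lit 350426)⟩⟩, [⟨nat_lit 0, nat_lit 100, nat_lit 60, nat_lit 80, nat_lit 19945590⟩, ⟨nat_lit 3, nat_lit 100, nat_lit 65, nat_lit 54, nat_lit 71330341⟩]⟩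
noncomputable def p076_l72 : Lf2 := ⟨nat_lit 0, nat_lit 10, [nat_lit 0, nat_lit 5, nat_lit 5, nat_lit 20], true, nat_lit 0, nat_lit 160, nat_lit 0, nat_lit 396, ⟨nat_lit 0, nat_lit 142, nat_lit 858, nat_lit 4, nat_lit 191, nat_lit 1000, nat_lit 65, nat_lit 858, nat_lit 40017, nat_lit 264, nat_lit 1350, nat_lit 224, nat_lit 54533725, nat_lit 12466275, nat_lit 0, nat_lit 2402322, false, true⟩,
 nat_lit 0, nat_lit 0, nat_lit 0, nat_lit 1735, nat_lit 2609, nat_lit 0, nat_lit 0, nat_lit 0, nat_lit 0, nat_lit 0, nat_lit 0, nat_lit 0, nat_lit 0, nat_lit 0, nat_lit 47, nat_lit 378700, nat_lit 0, nat_lit 0, [(nat_lit 18, [(nat_lit 0, nat_lit 142), (nat_lit 5, nat_lit 858)]), (nat_lit 21, [(nat_lit 0, nat_lit 142), (nat_lit 5, nat_lit 858)])],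
 ⟨p076_k14, nat_lit 0, nat_lit 0, nat_lit 126, nat_lit 0, nat_lit 0, [nat_lit 1528222801, nat_lit 202764600], [], [nat_lit 17737605950, nat_lit 20149025950, nat_lit 20184117042, nat_lit 22315451559, nat_lit 18616603094, nat_lit 20676405274, nat_lit 20767266506, nat_lit 22738992903], nat_lit 0, nat_lit 0, nat_lit 0, nat_lit 0, nat_lit 0, nat_lit 0, [], [nat_lit 69, nat_lit 40, nat_lit 40, nat_lit 80, nat_lit 64, nat_lit 317, nat_lit 100, nat_lit 12]⟩, C1.Rw.none,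
 ⟨nat_lit 3162, nat_lit 4473, ⟨.ofNat (nat_lit 388887), .ofNat (nat_lit 524844), .ofNat (nat_lit 431944), .ofNat (nat_lit 567977), .ofNat (nat_lit 394735), .ofNat (nat_lit 516642), .ofNat (nat_lit 438969), .ofNat (nat_lit 560952)⟩, ⟨.ofNat (nat_lit 0), .ofNat (nat_lit 302621), .ofNat (nat_lit 0), .ofNat (nat_lit 345754), .ofNat (nat_lit 0), .ofNat (nat_lit 306116), .ofNat (nat_lit 0), .ofNat (nat_lit 350426)⟩⟩, [⟨nat_lit 3, nat_lit 100, nat_lit 65, nat_lit 54, nat_lit 82260529⟩]⟩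
noncomputable def p076_l73 : Lf2 := ⟨nat_lit 0, nat_lit 10, [nat_lit 0, nat_lit 5, nat_lit 5, nat_lit 20], true, nat_lit 0, nat_lit 80, nat_lit 0, nat_lit 336, ⟨nat_lit 0, nat_lit 1000, nat_lit 0, nat_lit 6, nat_lit 244, nat_lit 1000, nat_lit 37, nat_lit 0, nat_lit 0, nat_lit 0, nat_lit 0, nat_lit 0, nat_lit 48794725, nat_lit 18205275, nat_lit 0, nat_lit 2924812, false, true⟩,
 nat_lit 0, nat_lit 0, nat_lit 0, nat_lit 5679, nat_lit 3180, nat_lit 0, nat_lit 0, nat_lit 0, nat_lit 0, nat_lit 0, nat_lit 0, nat_lit 0, nat_lit 0, nat_lit 0, nat_lit 0, nat_lit 635200, nat_lit 0, nat_lit 0, [(nat_lit 18, [(nat_lit 1, nat_lit 608), (nat_lit 2, nat_lit 392)])],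
 ⟨p076_k18, nat_lit 0, nat_lit 0, nat_lit 147, nat_lit 0, nat_lit 0, [nat_lit 1517196801, nat_lit 1605504000, nat_lit 1018432000], [], [nat_lit 21437647922, nat_lit 22660720842, nat_lit 25059286882, nat_lit 26089001122, nat_lit 20628670802, nat_lit 21778819202, nat_lit 24061726082, nat_lit 25035359722], nat_lit 0, nat_lit 0, nat_lit 0, nat_lit 0, nat_lit 0, nat_lit 0, [], [nat_lit 6, nat_lit 40, nat_lit 40, nat_lit 80, nat_lit 3, nat_lit 226, nat_lit 20, nat_lit 8]⟩, C1.Rw.none,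
 ⟨nat_lit 3872, nat_lit 4473, ⟨.ofNat (nat_lit 524844), .ofNat (nat_lit 660800), .ofNat (nat_lit 567977), .ofNat (nat_lit 703933), .ofNat (nat_lit 520934), .ofNat (nat_lit 649977), .ofNat (nat_lit 564520), .ofNat (nat_lit 693563)⟩, ⟨.ofNat (nat_lit 0), .ofNat (nat_lit 166665), .ofNat (nat_lit 0), .ofNat (nat_lit 200000), .ofNat (nat_lit 0), .ofNat (nat_lit 175674), .ofNat (nat_lit 0), .ofNat (nat_lit 200000)⟩⟩, [⟨nat_lit 3, nat_lit 100, nat_lit 78, nat_lit 39, nat_lit 82573426⟩]⟩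
noncomputable def p076_l74 : Lf2 := ⟨nat_lit 0, nat_lit 10, [nat_lit 0, nat_lit 5, nat_lit 5, nat_lit 20], true, nat_lit 0, nat_lit 80, nat_lit 0, nat_lit 336, ⟨nat_lit 0, nat_lit 881, nat_lit 119, nat_lit 6, nat_lit 237, nat_lit 1000, nat_lit 38, nat_lit 119, nat_lit 13067, nat_lit 243, nat_lit 72290, nat_lit 200, nat_lit 49590286, nat_lit 17409714, nat_lit 0, nat_lit 2864480, false, true⟩,
 nat_lit 0, nat_lit 0, nat_lit 0, nat_lit 4384, nat_lit 2933, nat_lit 0, nat_lit 0, nat_lit 0, nat_lit 0, nat_lit 0, nat_lit 0, nat_lit 0, nat_lit 0, nat_lit 0, nat_lit 0, nat_lit 471400, nat_lit 0, nat_lit 0, [(nat_lit 21, [(nat_lit 1, nat_lit 881), (nat_lit 6, nat_lit 119)])],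
 ⟨p076_k19, nat_lit 0, nat_lit 0, nat_lit 140, nat_lit 0, nat_lit 0, [nat_lit 1284085600, nat_lit 835604800], [], [nat_lit 22682419578, nat_lit 23792326076, nat_lit 25829466676, nat_lit 26805705700, nat_lit 21941877094, nat_lit 22987797068, nat_lit 24936150280, nat_lit 25827987296], nat_lit 0, nat_lit 0, nat_lit 0, nat_lit 0, nat_lit 0, nat_lit 0, [], [nat_lit 69, nat_lit 40, nat_lit 40, nat_lit 80, nat_lit 64, nat_lit 226, nat_lit 20, nat_lit 8]⟩, C1.Rw.none,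
 ⟨nat_lit 3162, nat_lit 3873, ⟨.ofNat (nat_lit 520934), .ofNat (nat_lit 649977), .ofNat (nat_lit 542727), .ofNat (nat_lit 671770), .ofNat (nat_lit 516642), .ofNat (nat_lit 638549), .ofNat (nat_lit 538797), .ofNat (nat_lit 660704)⟩, ⟨.ofNat (nat_lit 0), .ofNat (nat_lit 175674), .ofNat (nat_lit 0), .ofNat (nat_lit 200000), .ofNat (nat_lit 0), .ofNat (nat_lit 184209), .ofNat (nat_lit 0), .ofNat (nat_lit 200000)⟩⟩, [⟨nat_lit 13, nat_lit 67, nat_lit 85, nat_lit 100, nat_lit 235058556⟩, ⟨nat_lit 3, nat_lit 100, nat_lit 65, nat_lit 54, nat_lit 111457116⟩]⟩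
noncomputable def p076_l75 : Lf2 := ⟨nat_lit 0, nat_lit 10, [nat_lit 0, nat_lit 5, nat_lit 5, nat_lit 20], true, nat_lit 0, nat_lit 80, nat_lit 0, nat_lit 336, ⟨nat_lit 0, nat_lit 1000, nat_lit 0, nat_lit 6, nat_lit 246, nat_lit 1000, nat_lit 38, nat_lit 0, nat_lit 0, nat_lit 0, nat_lit 0, nat_lit 0, nat_lit 48635532, nat_lit 18364468, nat_lit 0, nat_lit 2936453, true, true⟩,
 nat_lit 0, nat_lit 0, nat_lit 0, nat_lit 1206, nat_lit 3054, nat_lit 0, nat_lit 0, nat_lit 0, nat_lit 0, nat_lit 0, nat_lit 0, nat_lit 0, nat_lit 0, nat_lit 0, nat_lit 0, nat_lit 511600, nat_lit 0, nat_lit 0, [(nat_lit 21, [(nat_lit 1, nat_lit 814), (nat_lit 2, nat_lit 186)])],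
 ⟨p076_k19, nat_lit 0, nat_lit 0, nat_lit 140, nat_lit 0, nat_lit 0, [nat_lit 1383806801, nat_lit 1051327599], [], [nat_lit 22949246765, nat_lit 24078187289, nat_lit 26133502089, nat_lit 27095004600, nat_lit 22126309573, nat_lit 23189711385, nat_lit 25154709841, nat_lit 26059681649], nat_lit 0, nat_lit 0, nat_lit 0, nat_lit 0, nat_lit 0, nat_lit 0, [], [nat_lit 69, nat_lit 40, nat_lit 40, nat_lit 80, nat_lit 64, nat_lit 226, nat_lit 20, nat_lit 8]⟩, C1.Rw.none,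
 ⟨nat_lit 3162, nat_lit 3873, ⟨.ofNat (nat_lit 542727), .ofNat (nat_lit 671770), .ofNat (nat_lit 564520), .ofNat (nat_lit 693563), .ofNat (nat_lit 538797), .ofNat (nat_lit 660704), .ofNat (nat_lit 560952), .ofNat (nat_lit 682859)⟩, ⟨.ofNat (nat_lit 0), .ofNat (nat_lit 175674), .ofNat (nat_lit 0), .ofNat (nat_lit 200000), .ofNat (nat_lit 0), .ofNat (nat_lit 184209), .ofNat (nat_lit 0), .ofNat (nat_lit 200000)⟩⟩, [⟨nat_lit 3, nat_lit 100, nat_lit 65, nat_lit 54, nat_lit 97550189⟩]⟩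
noncomputable def p076_l76 : Lf2 := ⟨nat_lit 0, nat_lit 8, [nat_lit 50, nat_lit 5, nat_lit 5, nat_lit 20], true, nat_lit 0, nat_lit 80, nat_lit 0, nat_lit 260, ⟨nat_lit 0, nat_lit 1000, nat_lit 0, nat_lit 8, nat_lit 285, nat_lit 1000, nat_lit 37, nat_lit 0, nat_lit 0, nat_lit 0, nat_lit 0, nat_lit 0, nat_lit 44406620, nat_lit 22593380, nat_lit 0, nat_lit 3195852, true, true⟩,
 nat_lit 0, nat_lit 0, nat_lit 0, nat_lit 6147, nat_lit 3024, nat_lit 0, nat_lit 350, nat_lit 0, nat_lit 0, nat_lit 0, nat_lit 0, nat_lit 0, nat_lit 0, nat_lit 0, nat_lit 0, nat_lit 400000, nat_lit 0, nat_lit 0, [(nat_lit 18, [(nat_lit 1, nat_lit 1000)])],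
 ⟨p076_k20, nat_lit 0, nat_lit 0, nat_lit 150, nat_lit 0, nat_lit 0, [nat_lit 1356000001, nat_lit 1749066667, nat_lit 2015733333], [], [nat_lit 25351975009, nat_lit 25808692785, nat_lit 27178846113, nat_lit 27596116487, nat_lit 24473432897, nat_lit 24905934321, nat_lit 26203438593, nat_lit 26600046023], nat_lit 0, nat_lit 0, nat_lit 0, nat_lit 0, nat_lit 0, nat_lit 0, [], [nat_lit 85, nat_lit 40, nat_lit 40, nat_lit 80, nat_lit 16, nat_lit 226, nat_lit 20, nat_lit 7]⟩, C1.Rw.none,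
 ⟨nat_lit 4183, nat_lit 4473, ⟨.ofNat (nat_lit 660800), .ofNat (nat_lit 728778), .ofNat (nat_lit 703933), .ofNat (nat_lit 771911), .ofNat (nat_lit 655432), .ofNat (nat_lit 721688), .ofNat (nat_lit 698765), .ofNat (nat_lit 765021)⟩, ⟨.ofNat (nat_lit 0), .ofNat (nat_lit 166665), .ofNat (nat_lit 0), .ofNat (nat_lit 200000), .ofNat (nat_lit 0), .ofNat (nat_lit 171231), .ofNat (nat_lit 0), .ofNat (nat_lit 200000)⟩⟩, [⟨nat_lit 13, nat_lit 78, nat_lit 70, nat_lit 100, nat_lit 231414618⟩, ⟨nat_lit 3, nat_lit 100, nat_lit 83, nat_lit 32, nat_lit 66255251⟩]⟩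
noncomputable def p076_l77 : Lf2 := ⟨nat_lit 1, nat_lit 10, [nat_lit 0, nat_lit 5, nat_lit 5, nat_lit 20], false, nat_lit 0, nat_lit 80, nat_lit 0, nat_lit 260, zbN0,
 nat_lit 0, nat_lit 0, nat_lit 0, nat_lit 0, nat_lit 0, nat_lit 0, nat_lit 0, nat_lit 0, nat_lit 0, nat_lit 0, nat_lit 0, nat_lit 0, nat_lit 0, nat_lit 0, nat_lit 0, nat_lit 0, nat_lit 0, nat_lit 0, [],
 C1.Rw.none, C1.Rw.none,
 zbF0, []⟩
noncomputable def p076_l78 : Lf2 := ⟨nat_lit 0, nat_lit 10, [nat_lit 0, nat_lit 5, nat_lit 5, nat_lit 20], true, nat_lit 0, nat_lit 80, nat_lit 0, nat_lit 260, ⟨nat_lit 0, nat_lit 1000, nat_lit 0, nat_lit 8, nat_lit 272, nat_lit 1000, nat_lit 37, nat_lit 0, nat_lit 0, nat_lit 0, nat_lit 0, nat_lit 0, nat_lit 45818656, nat_lit 21181344, nat_lit 0, nat_lit 3119625, false, true⟩,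
 nat_lit 0, nat_lit 0, nat_lit 0, nat_lit 4624, nat_lit 3454, nat_lit 0, nat_lit 0, nat_lit 0, nat_lit 0, nat_lit 0, nat_lit 0, nat_lit 0, nat_lit 0, nat_lit 0, nat_lit 0, nat_lit 493600, nat_lit 0, nat_lit 0, [(nat_lit 18, [(nat_lit 1, nat_lit 844), (nat_lit 2, nat_lit 156)])],
 ⟨p076_k21, nat_lit 0, nat_lit 0, nat_lit 139, nat_lit 0, nat_lit 0, [nat_lit 1658452801, nat_lit 1739003199], [], [nat_lit 26501637741, nat_lit 27003098489, nat_lit 27529877095, nat_lit 28057085583, nat_lit 25267545137, nat_lit 25741741441, nat_lit 26194135091, nat_lit 26646528741], nat_lit 0, nat_lit 0, nat_lit 0, nat_lit 0, nat_lit 0, nat_lit 0, [], [nat_lit 69, nat_lit 40, nat_lit 40, nat_lit 80, nat_lit 64, nat_lit 226, nat_lit 20, nat_lit 7]⟩, C1.Rw.none,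
 ⟨nat_lit 3872, nat_lit 4184, ⟨.ofNat (nat_lit 655432), .ofNat (nat_lit 688560), .ofNat (nat_lit 677099), .ofNat (nat_lit 710226), .ofNat (nat_lit 649977), .ofNat (nat_lit 682237), .ofNat (nat_lit 671770), .ofNat (nat_lit 704031)⟩, ⟨.ofNat (nat_lit 0), .ofNat (nat_lit 171231), .ofNat (nat_lit 0), .ofNat (nat_lit 200000), .ofNat (nat_lit 0), .ofNat (nat_lit 175674), .ofNat (nat_lit 0), .ofNat (nat_lit 200000)⟩⟩, [⟨nat_lit 13, nat_lit 75, nat_lit 79, nat_lit 100, nat_lit 305055654⟩, ⟨nat_lit 3, nat_lit 100, nat_lit 78, nat_lit 39, nat_lit 99230612⟩]⟩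
noncomputable def p076_l79 : Lf2 := ⟨nat_lit 0, nat_lit 10, [nat_lit 0, nat_lit 5, nat_lit 5, nat_lit 20], false, nat_lit 0, nat_lit 80, nat_lit 0, nat_lit 260, ⟨nat_lit 98, nat_lit 902, nat_lit 0, nat_lit 8, nat_lit 285, nat_lit 902, nat_lit 37, nat_lit 0, nat_lit 0, nat_lit 0, nat_lit 0, nat_lit 0, nat_lit 44483759, nat_lit 22516241, nat_lit 0, nat_lit 3191947, true, true⟩,
 nat_lit 0, nat_lit 0, nat_lit 2523, nat_lit 0, nat_lit 3402, nat_lit 959, nat_lit 214, nat_lit 0, nat_lit 0, nat_lit 298, nat_lit 0, nat_lit 0, nat_lit 0, nat_lit 0, nat_lit 0, nat_lit 360800, nat_lit 0, nat_lit 0, [(nat_lit 18, [(nat_lit 1, nat_lit 902)])],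
 ⟨p076_k22, nat_lit 0, nat_lit 0, nat_lit 158, nat_lit 0, nat_lit 0, [nat_lit 1460252267, nat_lit 2233357334, nat_lit 2381141600], [], [nat_lit 26748392269, nat_lit 27202259467, nat_lit 28168152298, nat_lit 28617859209, nat_lit 25591601119, nat_lit 26021042967, nat_lit 26947133002, nat_lit 27369459827], nat_lit 0, nat_lit 0, nat_lit 0, nat_lit 0, nat_lit 0, nat_lit 0, [], [nat_lit 6, nat_lit 40, nat_lit 40, nat_lit 80, nat_lit 3, nat_lit 226, nat_lit 20, nat_lit 7]⟩, ⟨p076_k23, nat_lit 0, nat_lit 0, nat_lit 1037, nat_lit 0, nat_lit 1568495, [nat_lit 780864000, nat_lit 1163456000, nat_lit 1377684000], [], [nat_lit 3757856914, nat_lit 3720465252, nat_lit 3813755228, nat_lit 3797708689, nat_lit 2998637996, nat_lit 2957019310, nat_lit 2994690052, nat_lit 2951650663], nat_lit 1271250, nat_lit 1271250, nat_lit 1271250, nat_lit 1271250, nat_lit 0, nat_lit 1836250, [nat_lit 1695000, nat_lit 1271250, nat_lit 1271250],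 [nat_lit 62, nat_lit 40, nat_lit 40, nat_lit 80, nat_lit 58, nat_lit 456, nat_lit 225, nat_lit 10]⟩,
 ⟨nat_lit 3872, nat_lit 4184, ⟨.ofNat (nat_lit 677099), .ofNat (nat_lit 730103), .ofNat (nat_lit 698765), .ofNat (nat_lit 751770), .ofNat (nat_lit 671770), .ofNat (nat_lit 723387), .ofNat (nat_lit 693563), .ofNat (nat_lit 745180)⟩, ⟨.ofNat (nat_lit 0), .ofNat (nat_lit 171231), .ofNat (nat_lit 0), .ofNat (nat_lit 200000), .ofNat (nat_lit 0), .ofNat (nat_lit 175674), .ofNat (nat_lit 0), .ofNat (nat_lit 200000)⟩⟩, [⟨nat_lit 13, nat_lit 74, nat_lit 71, nat_lit 100, nat_lit 184294435⟩, ⟨nat_lit 3, nat_lit 100, nat_lit 85, nat_lit 25, nat_lit 57514123⟩]⟩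
noncomputable def p076_l80 : Lf2 := ⟨nat_lit 0, nat_lit 10, [nat_lit 0, nat_lit 5, nat_lit 5, nat_lit 20], true, nat_lit 0, nat_lit 80, nat_lit 0, nat_lit 260, ⟨nat_lit 0, nat_lit 1000, nat_lit 0, nat_lit 8, nat_lit 274, nat_lit 1000, nat_lit 38, nat_lit 0, nat_lit 0, nat_lit 0, nat_lit 0, nat_lit 0, nat_lit 45599796, nat_lit 21400204, nat_lit 0, nat_lit 3132103, true, true⟩,
 nat_lit 0, nat_lit 0, nat_lit 0, nat_lit 6137, nat_lit 2808, nat_lit 0, nat_lit 0, nat_lit 0, nat_lit 0, nat_lit 0, nat_lit 0, nat_lit 0, nat_lit 0, nat_lit 0, nat_lit 0, nat_lit 709600, nat_lit 0, nat_lit 0, [(nat_lit 21, [(nat_lit 1, nat_lit 484), (nat_lit 2, nat_lit 516)])],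
 ⟨p076_k19, nat_lit 0, nat_lit 0, nat_lit 154, nat_lit 0, nat_lit 0, [nat_lit 1434560801, nat_lit 146005599], [], [nat_lit 25555621377, nat_lit 26506843200, nat_lit 26675732951, nat_lit 27837001786, nat_lit 24762822463, nat_lit 25628874497, nat_lit 25759257601, nat_lit 26636847184], nat_lit 0, nat_lit 0, nat_lit 0, nat_lit 0, nat_lit 0, nat_lit 0, [], [nat_lit 69, nat_lit 40, nat_lit 40, nat_lit 80, nat_lit 64, nat_lit 226, nat_lit 20, nat_lit 7]⟩, C1.Rw.none,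
 ⟨nat_lit 3162, nat_lit 3873, ⟨.ofNat (nat_lit 649977), .ofNat (nat_lit 688690), .ofNat (nat_lit 693563), .ofNat (nat_lit 732276), .ofNat (nat_lit 638549), .ofNat (nat_lit 675121), .ofNat (nat_lit 682859), .ofNat (nat_lit 719431)⟩, ⟨.ofNat (nat_lit 0), .ofNat (nat_lit 175674), .ofNat (nat_lit 0), .ofNat (nat_lit 200000), .ofNat (nat_lit 0), .ofNat (nat_lit 184209), .ofNat (nat_lit 0), .ofNat (nat_lit 200000)⟩⟩, [⟨nat_lit 13, nat_lit 66, nat_lit 82, nat_lit 100, nat_lit 394935651⟩, ⟨nat_lit 3, nat_lit 100, nat_lit 65, nat_lit 54, nat_lit 74394944⟩]⟩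
noncomputable def p076_l81 : Lf2 := ⟨nat_lit 0, nat_lit 10, [nat_lit 0, nat_lit 5, nat_lit 5, nat_lit 20], true, nat_lit 80, nat_lit 160, nat_lit 0, nat_lit 384, ⟨nat_lit 0, nat_lit 1000, nat_lit 0, nat_lit 6, nat_lit 256, nat_lit 1000, nat_lit 103, nat_lit 0, nat_lit 0, nat_lit 0, nat_lit 0, nat_lit 0, nat_lit 43888268, nat_lit 18654181, nat_lit 4457551, nat_lit 4311296, false, true⟩,
 nat_lit 0, nat_lit 0, nat_lit 0, nat_lit 3334, nat_lit 3979, nat_lit 0, nat_lit 0, nat_lit 0, nat_lit 0, nat_lit 0, nat_lit 0, nat_lit 0, nat_lit 0, nat_lit 0, nat_lit 0, nat_lit 325750, nat_lit 0, nat_lit 0, [(nat_lit 18, [(nat_lit 0, nat_lit 899), (nat_lit 2, nat_lit 101)]), (nat_lit 21, [(nat_lit 0, nat_lit 899), (nat_lit 2, nat_lit 101)])],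
 ⟨p076_k14, nat_lit 0, nat_lit 0, nat_lit 110, nat_lit 0, nat_lit 0, [nat_lit 1631483601, nat_lit 2258474800], [], [nat_lit 20635872384, nat_lit 23342290136, nat_lit 26755696288, nat_lit 28773627000, nat_lit 21299037417, nat_lit 23701159452, nat_lit 26799160240, nat_lit 28635860388], nat_lit 0, nat_lit 0, nat_lit 0, nat_lit 0, nat_lit 0, nat_lit 0, [], [nat_lit 69, nat_lit 40, nat_lit 40, nat_lit 80, nat_lit 64, nat_lit 249, nat_lit 40, nat_lit 8]⟩, C1.Rw.none,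
 ⟨nat_lit 3162, nat_lit 4473, ⟨.ofNat (nat_lit 524844), .ofNat (nat_lit 728778), .ofNat (nat_lit 567977), .ofNat (nat_lit 771911), .ofNat (nat_lit 516642), .ofNat (nat_lit 699502), .ofNat (nat_lit 560952), .ofNat (nat_lit 743812)⟩, ⟨.ofNat (nat_lit 166665), .ofNat (nat_lit 302621), .ofNat (nat_lit 200000), .ofNat (nat_lit 345754), .ofNat (nat_lit 184209), .ofNat (nat_lit 306116), .ofNat (nat_lit 200000), .ofNat (nat_lit 350426)⟩⟩, [⟨nat_lit 13, nat_lit 72, nat_lit 77, nat_lit 100, nat_lit 288258409⟩]⟩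
noncomputable def p076_l82 : Lf2 := ⟨nat_lit 0, nat_lit 10, [nat_lit 0, nat_lit 5, nat_lit 5, nat_lit 20], true, nat_lit 160, nat_lit 300, nat_lit 0, nat_lit 396, ⟨nat_lit 0, nat_lit 159, nat_lit 841, nat_lit 4, nat_lit 119, nat_lit 1000, nat_lit 176, nat_lit 841, nat_lit 1169, nat_lit 218, nat_lit 132017, nat_lit 304, nat_lit 50295512, nat_lit 5900770, nat_lit 10803718, nat_lit 3860240, false, false⟩,
 nat_lit 0, nat_lit 0, nat_lit 0, nat_lit 3835, nat_lit 2732, nat_lit 0, nat_lit 0, nat_lit 0, nat_lit 0, nat_lit 0, nat_lit 0, nat_lit 0, nat_lit 0, nat_lit 0, nat_lit 43, nat_lit 376150, nat_lit 0, nat_lit 0, [(nat_lit 18, [(nat_lit 0, nat_lit 159), (nat_lit 5, nat_lit 841)]), (nat_lit 21, [(nat_lit 0, nat_lit 159), (nat_lit 5, nat_lit 841)])],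
 ⟨p076_k14, nat_lit 0, nat_lit 0, nat_lit 127, nat_lit 0, nat_lit 0, [nat_lit 1504270601, nat_lit 186366700], [], [nat_lit 17411810754, nat_lit 19847015733, nat_lit 18406240718, nat_lit 20503683358, nat_lit 22291730516, nat_lit 24858465695, nat_lit 22845092687, nat_lit 24764165571], nat_lit 0, nat_lit 0, nat_lit 0, nat_lit 0, nat_lit 0, nat_lit 0, [], [nat_lit 69, nat_lit 40, nat_lit 40, nat_lit 80, nat_lit 64, nat_lit 345, nat_lit 125, nat_lit 13]⟩, C1.Rw.none,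
 ⟨nat_lit 3162, nat_lit 4473, ⟨.ofNat (nat_lit 143971), .ofNat (nat_lit 388887), .ofNat (nat_lit 186943), .ofNat (nat_lit 431944), .ofNat (nat_lit 175109), .ofNat (nat_lit 394735), .ofNat (nat_lit 219258), .ofNat (nat_lit 438969)⟩, ⟨.ofNat (nat_lit 302621), .ofNat (nat_lit 540545), .ofNat (nat_lit 345754), .ofNat (nat_lit 583678), .ofNat (nat_lit 306116), .ofNat (nat_lit 519453), .ofNat (nat_lit 350426), .ofNat (nat_lit 563762)⟩⟩, [⟨nat_lit 0, nat_lit 100, nat_lit 72, nat_lit 63, nat_lit 76552838⟩, ⟨nat_lit 16, nat_lit 87, nat_lit 95, nat_lit 100, nat_lit 189417141⟩]⟩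
noncomputable def p076_l83 : Lf2 := ⟨nat_lit 0, nat_lit 10, [nat_lit 0, nat_lit 5, nat_lit 5, nat_lit 20], true, nat_lit 160, nat_lit 300, nat_lit 0, nat_lit 396, ⟨nat_lit 0, nat_lit 1000, nat_lit 0, nat_lit 4, nat_lit 191, nat_lit 1000, nat_lit 176, nat_lit 0, nat_lit 0, nat_lit 0, nat_lit 0, nat_lit 0, nat_lit 44876251, nat_lit 11804827, nat_lit 10318922, nat_lit 4637990, false, true⟩,
 nat_lit 0, nat_lit 0, nat_lit 0, nat_lit 2797, nat_lit 3111, nat_lit 0, nat_lit 0, nat_lit 0, nat_lit 0, nat_lit 0, nat_lit 0, nat_lit 0, nat_lit 0, nat_lit 0, nat_lit 0, nat_lit 250000, nat_lit 0, nat_lit 0, [(nat_lit 18, [(nat_lit 0, nat_lit 1000)]), (nat_lit 21, [(nat_lit 0, nat_lit 1000)])],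
 ⟨p076_k14, nat_lit 0, nat_lit 0, nat_lit 39, nat_lit 0, nat_lit 0, [nat_lit 1558400000, nat_lit 2562000000], [], [nat_lit 16668205652, nat_lit 19628120900, nat_lit 19445059332, nat_lit 22014115852, nat_lit 22278119724, nat_lit 24534946084, nat_lit 24295265198, nat_lit 26277433106], nat_lit 0, nat_lit 0, nat_lit 0, nat_lit 0, nat_lit 0, nat_lit 0, [], [nat_lit 69, nat_lit 40, nat_lit 40, nat_lit 80, nat_lit 64, nat_lit 373, nat_lit 150, nat_lit 13]⟩, C1.Rw.none,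
 ⟨nat_lit 3162, nat_lit 4473, ⟨.ofNat (nat_lit 388887), .ofNat (nat_lit 524844), .ofNat (nat_lit 431944), .ofNat (nat_lit 567977), .ofNat (nat_lit 394735), .ofNat (nat_lit 516642), .ofNat (nat_lit 438969), .ofNat (nat_lit 560952)⟩, ⟨.ofNat (nat_lit 302621), .ofNat (nat_lit 540545), .ofNat (nat_lit 345754), .ofNat (nat_lit 583678), .ofNat (nat_lit 306116), .ofNat (nat_lit 519453), .ofNat (nat_lit 350426), .ofNat (nat_lit 563762)⟩⟩, [⟨nat_lit 16, nat_lit 87, nat_lit 95, nat_lit 100, nat_lit 168097745⟩]⟩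
noncomputable def p076_l84 : Lf2 := ⟨nat_lit 0, nat_lit 10, [nat_lit 0, nat_lit 5, nat_lit 5, nat_lit 20], true, nat_lit 160, nat_lit 300, nat_lit 0, nat_lit 396, ⟨nat_lit 0, nat_lit 1000, nat_lit 0, nat_lit 6, nat_lit 247, nat_lit 1000, nat_lit 176, nat_lit 0, nat_lit 0, nat_lit 0, nat_lit 0, nat_lit 0, nat_lit 40488201, nat_lit 16796849, nat_lit 9714950, nat_lit 5013020, false, true⟩,
 nat_lit 0, nat_lit 0, nat_lit 0, nat_lit 3647, nat_lit 3802, nat_lit 0, nat_lit 0, nat_lit 0, nat_lit 0, nat_lit 0, nat_lit 0, nat_lit 0, nat_lit 0, nat_lit 0, nat_lit 0, nat_lit 352000, nat_lit 0, nat_lit 0, [(nat_lit 18, [(nat_lit 0, nat_lit 800), (nat_lit 1, nat_lit 80), (nat_lit 2, nat_lit 120)]), (nat_lit 21, [(nat_lit 0, nat_lit 800), (nat_lit 1, nat_lit 80), (nat_lit 2, nat_lit 120)])],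
 ⟨p076_k14, nat_lit 0, nat_lit 0, nat_lit 67, nat_lit 0, nat_lit 0, [nat_lit 1644016001, nat_lit 2153280000], [], [nat_lit 21496141009, nat_lit 23747807305, nat_lit 26163881677, nat_lit 28027606897, nat_lit 25599919333, nat_lit 27436656782, nat_lit 29285845206, nat_lit 30799116335], nat_lit 0, nat_lit 0, nat_lit 0, nat_lit 0, nat_lit 0, nat_lit 0, [], [nat_lit 69, nat_lit 40, nat_lit 40, nat_lit 80, nat_lit 64, nat_lit 289, nat_lit 75, nat_lit 9]⟩, C1.Rw.none,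
 ⟨nat_lit 3162, nat_lit 4473, ⟨.ofNat (nat_lit 524844), .ofNat (nat_lit 708385), .ofNat (nat_lit 546410), .ofNat (nat_lit 729951), .ofNat (nat_lit 516642), .ofNat (nat_lit 681216), .ofNat (nat_lit 538797), .ofNat (nat_lit 703371)⟩, ⟨.ofNat (nat_lit 302621), .ofNat (nat_lit 540545), .ofNat (nat_lit 345754), .ofNat (nat_lit 583678), .ofNat (nat_lit 306116), .ofNat (nat_lit 519453), .ofNat (nat_lit 350426), .ofNat (nat_lit 563762)⟩⟩, [⟨nat_lit 13, nat_lit 72, nat_lit 81, nat_lit 100, nat_lit 183520307⟩, ⟨nat_lit 16, nat_lit 87, nat_lit 95, nat_lit 100, nat_lit 104893038⟩]⟩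
noncomputable def p076_l85 : Lf2 := ⟨nat_lit 0, nat_lit 10, [nat_lit 0, nat_lit 5, nat_lit 5, nat_lit 20], true, nat_lit 160, nat_lit 300, nat_lit 0, nat_lit 392, ⟨nat_lit 0, nat_lit 1000, nat_lit 0, nat_lit 6, nat_lit 260, nat_lit 1000, nat_lit 176, nat_lit 0, nat_lit 0, nat_lit 0, nat_lit 0, nat_lit 0, nat_lit 39515504, nat_lit 17923563, nat_lit 9560933, nat_lit 5070627, true, true⟩,
 nat_lit 0, nat_lit 0, nat_lit 0, nat_lit 2895, nat_lit 3559, nat_lit 0, nat_lit 0, nat_lit 0, nat_lit 0, nat_lit 0, nat_lit 0, nat_lit 0, nat_lit 0, nat_lit 0, nat_lit 0, nat_lit 250000, nat_lit 0, nat_lit 0, [(nat_lit 18, [(nat_lit 0, nat_lit 1000)]), (nat_lit 21, [(nat_lit 0, nat_lit 1000)])],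
 ⟨p076_k18, nat_lit 0, nat_lit 0, nat_lit 73, nat_lit 0, nat_lit 0, [nat_lit 1558400000, nat_lit 2168000000, nat_lit 2562000000], [], [nat_lit 20890231784, nat_lit 23218095100, nat_lit 26266064092, nat_lit 28133740600, nat_lit 25237900979, nat_lit 27041858991, nat_lit 29473149307, nat_lit 31042398463], nat_lit 0, nat_lit 0, nat_lit 0, nat_lit 0, nat_lit 0, nat_lit 0, [], [nat_lit 6, nat_lit 40, nat_lit 40, nat_lit 80, nat_lit 3, nat_lit 289, nat_lit 75, nat_lit 9]⟩, C1.Rw.none,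
 ⟨nat_lit 3162, nat_lit 4473, ⟨.ofNat (nat_lit 546410), .ofNat (nat_lit 750345), .ofNat (nat_lit 567977), .ofNat (nat_lit 771911), .ofNat (nat_lit 538797), .ofNat (nat_lit 721657), .ofNat (nat_lit 560952), .ofNat (nat_lit 743812)⟩, ⟨.ofNat (nat_lit 302621), .ofNat (nat_lit 540545), .ofNat (nat_lit 345754), .ofNat (nat_lit 583678), .ofNat (nat_lit 306116), .ofNat (nat_lit 519453), .ofNat (nat_lit 350426), .ofNat (nat_lit 563762)⟩⟩, [⟨nat_lit 13, nat_lit 72, nat_lit 74, nat_lit 100, nat_lit 17953088⟩, ⟨nat_lit 13, nat_lit 80, nat_lit 60, nat_lit 100, nat_lit 151618286⟩, ⟨nat_lit 16, nat_lit 87, nat_lit 95, nat_lit 100, nat_lit 110381955⟩]⟩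
noncomputable def p076_l86 : Lf2 := ⟨nat_lit 0, nat_lit 10, [nat_lit 0, nat_lit 5, nat_lit 5, nat_lit 20], true, nat_lit 0, nat_lit 300, nat_lit 0, nat_lit 396, ⟨nat_lit 0, nat_lit 1000, nat_lit 0, nat_lit 4, nat_lit 183, nat_lit 1000, nat_lit 110, nat_lit 0, nat_lit 0, nat_lit 0, nat_lit 0, nat_lit 0, nat_lit 0, nat_lit 0, nat_lit 0, nat_lit 5000000, false, true⟩,
 nat_lit 0, nat_lit 0, nat_lit 0, nat_lit 4166, nat_lit 3843, nat_lit 0, nat_lit 0, nat_lit 0, nat_lit 0, nat_lit 0, nat_lit 0, nat_lit 0, nat_lit 0, nat_lit 0, nat_lit 0, nat_lit 439600, nat_lit 0, nat_lit 0, [(nat_lit 18, [(nat_lit 1, nat_lit 934), (nat_lit 2, nat_lit 66)]), (nat_lit 21, [(nat_lit 1, nat_lit 934), (nat_lit 2, nat_lit 66)])],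
 ⟨p076_k14, nat_lit 0, nat_lit 0, nat_lit 214, nat_lit 0, nat_lit 0, [nat_lit 1591960801, nat_lit 1924655199], [], [nat_lit 22078151231, nat_lit 25098984819, nat_lit 28982696514, nat_lit 31509033696, nat_lit 25814333080, nat_lit 27761904107, nat_lit 29733122435, nat_lit 31354360251], nat_lit 0, nat_lit 0, nat_lit 0, nat_lit 0, nat_lit 0, nat_lit 0, [], [nat_lit 69, nat_lit 40, nat_lit 40, nat_lit 80, nat_lit 64, nat_lit 401, nat_lit 175, nat_lit 16]⟩, C1.Rw.none,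
 ⟨nat_lit 3162, nat_lit 4473, ⟨.ofNat (nat_lit 143971), .ofNat (nat_lit 728778), .ofNat (nat_lit 186943), .ofNat (nat_lit 771911), .ofNat (nat_lit 175109), .ofNat (nat_lit 699502), .ofNat (nat_lit 219258), .ofNat (nat_lit 743812)⟩, ⟨.ofNat (nat_lit 0), .ofNat (nat_lit 540545), .ofNat (nat_lit 0), .ofNat (nat_lit 583678), .ofNat (nat_lit 0), .ofNat (nat_lit 519453), .ofNat (nat_lit 0), .ofNat (nat_lit 563762)⟩⟩, [⟨nat_lit 13, nat_lit 72, nat_lit 77, nat_lit 100, nat_lit 150621268⟩, ⟨nat_lit 4, nat_lit 100, nat_lit 74, nat_lit 90, nat_lit 85449702⟩]⟩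
noncomputable def b_V_800_400_20_0 : St := ⟨true, nat_lit 0, nat_lit 2, nat_lit 0, nat_lit 120, nat_lit 320, nat_lit 360, nat_lit 160, nat_lit 200, nat_lit 16, nat_lit 360, nat_lit 80, nat_lit 120, nat_lit 0, nat_lit 300, nat_lit 0, nat_lit 396, nat_lit 0, nat_lit 40, nat_lit 0, nat_lit 0, nat_lit 0, nat_lit 0⟩
theorem d_V_800_400_20_0 (h : EB TB.env) : Dead b_V_800_400_20_0 := chkB_sound0 h (T :=
(.gv
(.st (nat_lit 1)
(.spl (nat_lit 4) (nat_lit 160)
(.spl (nat_lit 2) (nat_lit 160)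
(.leaf p076_l64)
(.spl (nat_lit 0) (nat_lit 340)
(.leaf p076_l65)
(.trX (nat_lit 13) (nat_lit 71) (nat_lit 70) (nat_lit 100) (nat_lit 344) (.leaf p076_l66))))
(.spl (nat_lit 2) (nat_lit 160)
(.leaf p076_l67)
(.spl (nat_lit 2) (nat_lit 240)
(.leaf p076_l68)
(.spl (nat_lit 1) (nat_lit 180)
(.trX (nat_lit 13) (nat_lit 80) (nat_lit 68) (nat_lit 100) (nat_lit 348) (.leaf p076_l69))
(.trX (nat_lit 19) (nat_lit 100) (nat_lit 31) (nat_lit 92) (nat_lit 392) (.leaf p076_l70))))))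
(.spl (nat_lit 4) (nat_lit 160)
(.spl (nat_lit 2) (nat_lit 160)
(.leaf p076_l71)
(.spl (nat_lit 2) (nat_lit 240)
(.leaf p076_l72)
(.trX (nat_lit 22) (nat_lit 100) (nat_lit 40) (nat_lit 100) (nat_lit 384) (.spl (nat_lit 4) (nat_lit 80)
(.trX (nat_lit 22) (nat_lit 100) (nat_lit 76) (nat_lit 82) (nat_lit 336) (.spl (nat_lit 2) (nat_lit 320)
(.spl (nat_lit 0) (nat_lit 340)
(.leaf p076_l73)
(.spl (nat_lit 1) (nat_lit 180)
(.leaf p076_l74)
(.leaf p076_l75)))
(.trX (nat_lit 22) (nat_lit 83) (nat_lit 100) (nat_lit 83) (nat_lit 260) (.spl (nat_lit 0) (nat_lit 340)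
(.spl (nat_lit 0) (nat_lit 330)
(.spl (nat_lit 6) (nat_lit 32)
(.leaf p076_l76)
(.leaf p076_l77))
(.trX (nat_lit 13) (nat_lit 76) (nat_lit 65) (nat_lit 100) (nat_lit 352) (.spl (nat_lit 1) (nat_lit 180)
(.trX (nat_lit 13) (nat_lit 76) (nat_lit 73) (nat_lit 100) (nat_lit 340) (.leaf p076_l78))
(.leaf p076_l79))))
(.trX (nat_lit 13) (nat_lit 71) (nat_lit 70) (nat_lit 100) (nat_lit 344) (.leaf p076_l80))))))
(.leaf p076_l81)))))
(.spl (nat_lit 2) (nat_lit 160)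
(.leaf p076_l82)
(.spl (nat_lit 2) (nat_lit 240)
(.leaf p076_l83)
(.spl (nat_lit 1) (nat_lit 180)
(.trX (nat_lit 13) (nat_lit 80) (nat_lit 68) (nat_lit 100) (nat_lit 348) (.leaf p076_l84))
(.trX (nat_lit 19) (nat_lit 100) (nat_lit 31) (nat_lit 92) (nat_lit 392) (.leaf p076_l85)))))))
(.leaf p076_l86))) (by decide +kernel)
noncomputable def p076_l87 : Lf2 := ⟨nat_lit 0, nat_lit 10, [nat_lit 0, nat_lit 5, nat_lit 5, nat_lit 20], true, nat_lit 0, nat_lit 160, nat_lit 0, nat_lit 396, ⟨nat_lit 0, nat_lit 0, nat_lit 1000, nat_lit 4, nat_lit 117, nat_lit 1000, nat_lit 65, nat_lit 1000, nat_lit 40017, nat_lit 264, nat_lit 129067, nat_lit 303, nat_lit 61709308, nat_lit 0, nat_lit 0, nat_lit 1381173, false, false⟩,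
 nat_lit 0, nat_lit 3609, nat_lit 0, nat_lit 0, nat_lit 2706, nat_lit 0, nat_lit 0, nat_lit 0, nat_lit 0, nat_lit 0, nat_lit 0, nat_lit 0, nat_lit 0, nat_lit 0, nat_lit 76, nat_lit 400000, nat_lit 0, nat_lit 0, [(nat_lit 18, [(nat_lit 5, nat_lit 1000)])],
 ⟨p076_k14, nat_lit 0, nat_lit 0, nat_lit 363, nat_lit 0, nat_lit 463372, [nat_lit 1693000001, nat_lit 251500000], [], [nat_lit 18001893301, nat_lit 19181374155, nat_lit 19312890197, nat_lit 20383391914, nat_lit 19202646373, nat_lit 20269216686, nat_lit 22615653579, nat_lit 21591266674], nat_lit 1271250, nat_lit 1271250, nat_lit 88400, nat_lit 1100001, nat_lit 0, nat_lit 1100001, [nat_lit 490000, nat_lit 1427500], [nat_lit 69, nat_lit 40, nat_lit 40, nat_lit 80, nat_lit 64, nat_lit 317, nat_lit 100, nat_lit 12]⟩, C1.Rw.none,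
 ⟨nat_lit 3872, nat_lit 4473, ⟨.ofNat (nat_lit 144159), .ofNat (nat_lit 388887), .ofNat (nat_lit 187264), .ofNat (nat_lit 432013), .ofNat (nat_lit 159606), .ofNat (nat_lit 391890), .ofNat (nat_lit 203164), .ofNat (nat_lit 435470)⟩, ⟨.ofNat (nat_lit 0), .ofNat (nat_lit 302621), .ofNat (nat_lit 0), .ofNat (nat_lit 345754), .ofNat (nat_lit 0), .ofNat (nat_lit 304717), .ofNat (nat_lit 0), .ofNat (nat_lit 348304)⟩⟩, [⟨nat_lit 0, nat_lit 100, nat_lit 71, nat_lit 70, nat_lit 29019391⟩, ⟨nat_lit 3, nat_lit 100, nat_lit 78, nat_lit 39, nat_lit 20142893⟩]⟩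
noncomputable def p076_l88 : Lf2 := ⟨nat_lit 0, nat_lit 10, [nat_lit 0, nat_lit 5, nat_lit 5, nat_lit 20], true, nat_lit 0, nat_lit 160, nat_lit 0, nat_lit 396, ⟨nat_lit 0, nat_lit 0, nat_lit 1000, nat_lit 4, nat_lit 126, nat_lit 1000, nat_lit 65, nat_lit 1000, nat_lit 40017, nat_lit 264, nat_lit 147267, nat_lit 309, nat_lit 60957409, nat_lit 0, nat_lit 0, nat_lit 1514858, false, false⟩,
 nat_lit 0, nat_lit 3118, nat_lit 0, nat_lit 0, nat_lit 2524, nat_lit 0, nat_lit 0, nat_lit 0, nat_lit 0, nat_lit 0, nat_lit 0, nat_lit 0, nat_lit 0, nat_lit 0, nat_lit 203, nat_lit 870400, nat_lit 0, nat_lit 0, [(nat_lit 21, [(nat_lit 5, nat_lit 216), (nat_lit 6, nat_lit 784)])],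
 ⟨p076_k19, nat_lit 0, nat_lit 0, nat_lit 422, nat_lit 0, nat_lit 611115, [nat_lit 2429120000, nat_lit 408729600], [], [nat_lit 18425006768, nat_lit 19826013924, nat_lit 20092843800, nat_lit 21170903744, nat_lit 19958734207, nat_lit 21012343578, nat_lit 21455307488, nat_lit 22373480384], nat_lit 1271250, nat_lit 1271250, nat_lit 181601, nat_lit 1100001, nat_lit 0, nat_lit 1100001, [nat_lit 490000, nat_lit 1427500], [nat_lit 69, nat_lit 40, nat_lit 40, nat_lit 80, nat_lit 64, nat_lit 317, nat_lit 100, nat_lit 12]⟩, C1.Rw.none,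
 ⟨nat_lit 3162, nat_lit 3873, ⟨.ofNat (nat_lit 185344), .ofNat (nat_lit 391890), .ofNat (nat_lit 228873), .ofNat (nat_lit 435446), .ofNat (nat_lit 199607), .ofNat (nat_lit 394735), .ofNat (nat_lit 243860), .ofNat (nat_lit 439014)⟩, ⟨.ofNat (nat_lit 0), .ofNat (nat_lit 304717), .ofNat (nat_lit 0), .ofNat (nat_lit 348304), .ofNat (nat_lit 0), .ofNat (nat_lit 306116), .ofNat (nat_lit 0), .ofNat (nat_lit 350426)⟩⟩, [⟨nat_lit 3, nat_lit 100, nat_lit 65, nat_lit 54, nat_lit 49628190⟩]⟩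
noncomputable def p076_l89 : Lf2 := ⟨nat_lit 0, nat_lit 10, [nat_lit 0, nat_lit 5, nat_lit 5, nat_lit 20], true, nat_lit 0, nat_lit 160, nat_lit 0, nat_lit 396, ⟨nat_lit 0, nat_lit 146, nat_lit 854, nat_lit 4, nat_lit 191, nat_lit 970, nat_lit 65, nat_lit 854, nat_lit 40017, nat_lit 264, nat_lit 1350, nat_lit 224, nat_lit 54525315, nat_lit 12474685, nat_lit 0, nat_lit 2403248, false, true⟩,
 nat_lit 0, nat_lit 4025, nat_lit 0, nat_lit 0, nat_lit 3018, nat_lit 0, nat_lit 0, nat_lit 0, nat_lit 0, nat_lit 0, nat_lit 0, nat_lit 0, nat_lit 0, nat_lit 0, nat_lit 50, nat_lit 400000, nat_lit 0, nat_lit 0, [(nat_lit 18, [(nat_lit 1, nat_lit 146), (nat_lit 5, nat_lit 854)])],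
 ⟨p076_k14, nat_lit 0, nat_lit 0, nat_lit 301, nat_lit 0, nat_lit 463372, [nat_lit 1551897201, nat_lit 216293000], [], [nat_lit 18279563420, nat_lit 19411060380, nat_lit 20571710084, nat_lit 21568578533, nat_lit 19075439204, nat_lit 20037576920, nat_lit 23477851316, nat_lit 22145869088], nat_lit 1271250, nat_lit 1271250, nat_lit 1100001, nat_lit 1785000, nat_lit 0, nat_lit 1100001, [nat_lit 490000, nat_lit 1427500], [nat_lit 69, nat_lit 40, nat_lit 40, nat_lit 80, nat_lit 64, nat_lit 317, nat_lit 100, nat_lit 12]⟩, C1.Rw.none,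
 ⟨nat_lit 3872, nat_lit 4473, ⟨.ofNat (nat_lit 388887), .ofNat (nat_lit 524844), .ofNat (nat_lit 432013), .ofNat (nat_lit 567977), .ofNat (nat_lit 391890), .ofNat (nat_lit 520934), .ofNat (nat_lit 435470), .ofNat (nat_lit 564520)⟩, ⟨.ofNat (nat_lit 0), .ofNat (nat_lit 302621), .ofNat (nat_lit 0), .ofNat (nat_lit 345754), .ofNat (nat_lit 0), .ofNat (nat_lit 304717), .ofNat (nat_lit 0), .ofNat (nat_lit 348304)⟩⟩, [⟨nat_lit 3, nat_lit 100, nat_lit 78, nat_lit 39, nat_lit 21884700⟩]⟩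
noncomputable def p076_l90 : Lf2 := ⟨nat_lit 0, nat_lit 10, [nat_lit 0, nat_lit 5, nat_lit 5, nat_lit 20], false, nat_lit 0, nat_lit 160, nat_lit 0, nat_lit 396, ⟨nat_lit 153, nat_lit 0, nat_lit 847, nat_lit 4, nat_lit 191, nat_lit 847, nat_lit 65, nat_lit 847, nat_lit 40017, nat_lit 264, nat_lit 4566, nat_lit 226, nat_lit 54538059, nat_lit 0, nat_lit 0, nat_lit 2401845, false, true⟩,
 nat_lit 0, nat_lit 3490, nat_lit 0, nat_lit 0, nat_lit 2825, nat_lit 2296, nat_lit 0, nat_lit 0, nat_lit 0, nat_lit 166, nat_lit 0, nat_lit 0, nat_lit 0, nat_lit 0, nat_lit 148, nat_lit 826600, nat_lit 0, nat_lit 0, [(nat_lit 21, [(nat_lit 5, nat_lit 34), (nat_lit 6, nat_lit 813)])],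
 ⟨p076_k24, nat_lit 0, nat_lit 0, nat_lit 361, nat_lit 0, nat_lit 611115, [nat_lit 2144063201, nat_lit 850695201, nat_lit 432535600], [], [nat_lit 19274060056, nat_lit 20483477406, nat_lit 21666789406, nat_lit 22739732100, nat_lit 20399641556, nat_lit 21423939806, nat_lit 22472300006, nat_lit 23378820206], nat_lit 1271250, nat_lit 1271250, nat_lit 1100001, nat_lit 1785000, nat_lit 0, nat_lit 1100001, [nat_lit 490000, nat_lit 1100000, nat_lit 1442500], [nat_lit 6, nat_lit 40, nat_lit 40, nat_lit 80, nat_lit 3, nat_lit 317, nat_lit 100, nat_lit 12]⟩, ⟨p076_k25, nat_lit 0, nat_lit 0, nat_lit 278, nat_lit 0, nat_lit 0, [nat_lit 1219104000, nat_lit 1816416000, nat_lit 2150874000], [], [nat_lit 5214680426, nat_lit 5363672306, nat_lit 5713059534, nat_lit 5784811974, nat_lit 5723666155, nat_lit 5586217268, nat_lit 5625947641, nat_lit 5499969550], nat_lit 0, nat_lit 0, nat_lit 0, nat_lit 0, nat_lit 0, nat_lit 0,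 [], [nat_lit 62, nat_lit 40, nat_lit 40, nat_lit 80, nat_lit 58, nat_lit 456, nat_lit 225, nat_lit 11]⟩,
 ⟨nat_lit 3162, nat_lit 3873, ⟨.ofNat (nat_lit 391890), .ofNat (nat_lit 520934), .ofNat (nat_lit 435446), .ofNat (nat_lit 564520), .ofNat (nat_lit 394735), .ofNat (nat_lit 516642), .ofNat (nat_lit 439014), .ofNat (nat_lit 560952)⟩, ⟨.ofNat (nat_lit 0), .ofNat (nat_lit 304717), .ofNat (nat_lit 0), .ofNat (nat_lit 348304), .ofNat (nat_lit 0), .ofNat (nat_lit 306116), .ofNat (nat_lit 0), .ofNat (nat_lit 350426)⟩⟩, [⟨nat_lit 22, nat_lit 100, nat_lit 60, nat_lit 80, nat_lit 34517349⟩]⟩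
noncomputable def p076_l91 : Lf2 := ⟨nat_lit 0, nat_lit 10, [nat_lit 0, nat_lit 5, nat_lit 5, nat_lit 20], false, nat_lit 0, nat_lit 160, nat_lit 0, nat_lit 384, ⟨nat_lit 459, nat_lit 0, nat_lit 541, nat_lit 6, nat_lit 258, nat_lit 541, nat_lit 65, nat_lit 541, nat_lit 40017, nat_lit 264, nat_lit 272572, nat_lit 200, nat_lit 47264941, nat_lit 0, nat_lit 0, nat_lit 3030890, false, true⟩,
 nat_lit 0, nat_lit 5208, nat_lit 0, nat_lit 0, nat_lit 3906, nat_lit 4932, nat_lit 0, nat_lit 0, nat_lit 0, nat_lit 429, nat_lit 0, nat_lit 0, nat_lit 0, nat_lit 0, nat_lit 0, nat_lit 541000, nat_lit 0, nat_lit 0, [(nat_lit 18, [(nat_lit 6, nat_lit 541)])],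
 ⟨p076_k18, nat_lit 0, nat_lit 0, nat_lit 272, nat_lit 0, nat_lit 359729, [nat_lit 1506003734, nat_lit 1481096267, nat_lit 758417200], [], [nat_lit 22102305737, nat_lit 22573301268, nat_lit 29132051400, nat_lit 29768681358, nat_lit 21556253511, nat_lit 21994684493, nat_lit 26131736264, nat_lit 26689563532], nat_lit 1271250, nat_lit 1271250, nat_lit 1271250, nat_lit 1271250, nat_lit 0, nat_lit 1100001, [nat_lit 490000, nat_lit 1100000, nat_lit 1442500], [nat_lit 6, nat_lit 40, nat_lit 40, nat_lit 80, nat_lit 3, nat_lit 249, nat_lit 40, nat_lit 9]⟩, ⟨p076_k25, nat_lit 0, nat_lit 0, nat_lit 317, nat_lit 0, nat_lit 0, [nat_lit 3657312000, nat_lit 5449248000, nat_lit 6452622000], [], [nat_lit 16392951435, nat_lit 16645826919, nat_lit 20988400503, nat_lit 20889713055, nat_lit 16827618363, nat_lit 16681031165, nat_lit 18953938923, nat_lit 18600852334], nat_lit 0, nat_lit 0, nat_lit 0, nat_lit 0, nat_lit 0, nat_lit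 0, [], [nat_lit 62, nat_lit 40, nat_lit 40, nat_lit 80, nat_lit 58, nat_lit 483, nat_lit 250, nat_lit 11]⟩,
 ⟨nat_lit 4183, nat_lit 4473, ⟨.ofNat (nat_lit 524844), .ofNat (nat_lit 728778), .ofNat (nat_lit 567977), .ofNat (nat_lit 771911), .ofNat (nat_lit 522921), .ofNat (nat_lit 721688), .ofNat (nat_lit 566254), .ofNat (nat_lit 765021)⟩, ⟨.ofNat (nat_lit 0), .ofNat (nat_lit 302621), .ofNat (nat_lit 0), .ofNat (nat_lit 345754), .ofNat (nat_lit 0), .ofNat (nat_lit 303743), .ofNat (nat_lit 0), .ofNat (nat_lit 347076)⟩⟩, [⟨nat_lit 22, nat_lit 94, nat_lit 100, nat_lit 87, nat_lit 79884311⟩]⟩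
noncomputable def p076_l92 : Lf2 := ⟨nat_lit 0, nat_lit 10, [nat_lit 0, nat_lit 5, nat_lit 5, nat_lit 20], false, nat_lit 0, nat_lit 160, nat_lit 0, nat_lit 384, ⟨nat_lit 428, nat_lit 0, nat_lit 572, nat_lit 6, nat_lit 254, nat_lit 572, nat_lit 65, nat_lit 572, nat_lit 40017, nat_lit 264, nat_lit 232290, nat_lit 200, nat_lit 47738463, nat_lit 0, nat_lit 0, nat_lit 2999424, false, true⟩,
 nat_lit 0, nat_lit 4790, nat_lit 0, nat_lit 0, nat_lit 3733, nat_lit 4318, nat_lit 487, nat_lit 0, nat_lit 0, nat_lit 393, nat_lit 0, nat_lit 0, nat_lit 0, nat_lit 0, nat_lit 0, nat_lit 228800, nat_lit 0, nat_lit 0, [(nat_lit 18, [(nat_lit 5, nat_lit 572)])],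
 ⟨p076_k22, nat_lit 0, nat_lit 0, nat_lit 310, nat_lit 0, nat_lit 439914, [nat_lit 1400969601, nat_lit 1769656000, nat_lit 1814025600], [], [nat_lit 22311719743, nat_lit 22797045802, nat_lit 28794548929, nat_lit 29434398540, nat_lit 22043901192, nat_lit 22448292153, nat_lit 26042353898, nat_lit 26602437922], nat_lit 1271250, nat_lit 1271250, nat_lit 1271250, nat_lit 1271250, nat_lit 0, nat_lit 1100001, [nat_lit 490000, nat_lit 1100000, nat_lit 1442500], [nat_lit 6, nat_lit 40, nat_lit 40, nat_lit 80, nat_lit 3, nat_lit 249, nat_lit 40, nat_lit 9]⟩, ⟨p076_k25, nat_lit 0, nat_lit 0, nat_lit 314, nat_lit 0, nat_lit 0, [nat_lit 3410304000, nat_lit 5081216000, nat_lit 6016824000], [], [nat_lit 15492473055, nat_lit 15607444711, nat_lit 18954408508, nat_lit 18915761828, nat_lit 15768215866, nat_lit 15661230343, nat_lit 17541447074, nat_lit 17265129456], nat_lit 0, nat_lit 0, nat_lit 0, nat_lit 0, nat_lit 0, nat_lit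 0, [], [nat_lit 62, nat_lit 40, nat_lit 40, nat_lit 80, nat_lit 58, nat_lit 483, nat_lit 250, nat_lit 11]⟩,
 ⟨nat_lit 3872, nat_lit 4184, ⟨.ofNat (nat_lit 522921), .ofNat (nat_lit 708436), .ofNat (nat_lit 566254), .ofNat (nat_lit 751770), .ofNat (nat_lit 520934), .ofNat (nat_lit 701594), .ofNat (nat_lit 564520), .ofNat (nat_lit 745180)⟩, ⟨.ofNat (nat_lit 0), .ofNat (nat_lit 303743), .ofNat (nat_lit 0), .ofNat (nat_lit 347076), .ofNat (nat_lit 0), .ofNat (nat_lit 304717), .ofNat (nat_lit 0), .ofNat (nat_lit 348304)⟩⟩, [⟨nat_lit 22, nat_lit 96, nat_lit 100, nat_lit 88, nat_lit 80217244⟩]⟩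
noncomputable def p076_l93 : Lf2 := ⟨nat_lit 0, nat_lit 10, [nat_lit 0, nat_lit 5, nat_lit 5, nat_lit 20], false, nat_lit 0, nat_lit 160, nat_lit 0, nat_lit 384, ⟨nat_lit 508, nat_lit 0, nat_lit 492, nat_lit 6, nat_lit 250, nat_lit 492, nat_lit 65, nat_lit 492, nat_lit 40017, nat_lit 264, nat_lit 193302, nat_lit 200, nat_lit 48201381, nat_lit 0, nat_lit 0, nat_lit 2967483, false, true⟩,
 nat_lit 0, nat_lit 4440, nat_lit 0, nat_lit 0, nat_lit 3594, nat_lit 6488, nat_lit 153, nat_lit 0, nat_lit 0, nat_lit 503, nat_lit 0, nat_lit 0, nat_lit 0, nat_lit 0, nat_lit 0, nat_lit 492000, nat_lit 0, nat_lit 0, [(nat_lit 21, [(nat_lit 6, nat_lit 492)])],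
 ⟨p076_k24, nat_lit 0, nat_lit 0, nat_lit 333, nat_lit 0, nat_lit 513809, [nat_lit 1404995201, nat_lit 1051136001, nat_lit 1099547200], [], [nat_lit 22557494036, nat_lit 23406196494, nat_lit 28568372848, nat_lit 29213091575, nat_lit 22383017747, nat_lit 22837558094, nat_lit 26165483782, nat_lit 26572113816], nat_lit 1271250, nat_lit 1271250, nat_lit 1271250, nat_lit 1271250, nat_lit 0, nat_lit 1100001, [nat_lit 490000, nat_lit 1100000, nat_lit 1442500], [nat_lit 6, nat_lit 40, nat_lit 40, nat_lit 80, nat_lit 3, nat_lit 249, nat_lit 40, nat_lit 9]⟩, ⟨p076_k25, nat_lit 0, nat_lit 0, nat_lit 311, nat_lit 0, nat_lit 0, [nat_lit 4047744000, nat_lit 6030976000, nat_lit 7141464000], [], [nat_lit 18557839369, nat_lit 18836688905, nat_lit 23392099715, nat_lit 23247895267, nat_lit 18341451370, nat_lit 18070361255, nat_lit 20429316955, nat_lit 20166182010], nat_lit 0, nat_lit 0, nat_lit 0, nat_lit 0, nat_lit 0, nat_lit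 0, [], [nat_lit 62, nat_lit 40, nat_lit 40, nat_lit 80, nat_lit 58, nat_lit 483, nat_lit 250, nat_lit 11]⟩,
 ⟨nat_lit 3535, nat_lit 3873, ⟨.ofNat (nat_lit 520934), .ofNat (nat_lit 688690), .ofNat (nat_lit 564520), .ofNat (nat_lit 732276), .ofNat (nat_lit 518855), .ofNat (nat_lit 682034), .ofNat (nat_lit 562760), .ofNat (nat_lit 725940)⟩, ⟨.ofNat (nat_lit 0), .ofNat (nat_lit 304717), .ofNat (nat_lit 0), .ofNat (nat_lit 348304), .ofNat (nat_lit 0), .ofNat (nat_lit 305521), .ofNat (nat_lit 0), .ofNat (nat_lit 349427)⟩⟩, [⟨nat_lit 22, nat_lit 99, nat_lit 100, nat_lit 89, nat_lit 39713598⟩, ⟨nat_lit 22, nat_lit 100, nat_lit 40, nat_lit 100, nat_lit 28595549⟩]⟩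
noncomputable def p076_l94 : Lf2 := ⟨nat_lit 0, nat_lit 10, [nat_lit 0, nat_lit 5, nat_lit 5, nat_lit 20], false, nat_lit 4, nat_lit 160, nat_lit 0, nat_lit 384, ⟨nat_lit 530, nat_lit 0, nat_lit 470, nat_lit 6, nat_lit 246, nat_lit 470, nat_lit 68, nat_lit 470, nat_lit 43350, nat_lit 266, nat_lit 155524, nat_lit 200, nat_lit 46528055, nat_lit 0, nat_lit 0, nat_lit 3798702, false, true⟩,
 nat_lit 0, nat_lit 4337, nat_lit 0, nat_lit 0, nat_lit 3642, nat_lit 6905, nat_lit 128, nat_lit 0, nat_lit 0, nat_lit 528, nat_lit 0, nat_lit 0, nat_lit 0, nat_lit 0, nat_lit 0, nat_lit 470000, nat_lit 0, nat_lit 0, [(nat_lit 21, [(nat_lit 6, nat_lit 470)])],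
 ⟨p076_k26, nat_lit 0, nat_lit 0, nat_lit 287, nat_lit 0, nat_lit 535416, [nat_lit 1433032001, nat_lit 1139708000], [], [nat_lit 23367780324, nat_lit 23794048513, nat_lit 28687611671, nat_lit 29019204774, nat_lit 22833653390, nat_lit 23084821218, nat_lit 26260530239, nat_lit 26467395177], nat_lit 1271250, nat_lit 1271250, nat_lit 1271250, nat_lit 1271250, nat_lit 21650, nat_lit 1100001, [nat_lit 490000, nat_lit 1100000], [nat_lit 24, nat_lit 40, nat_lit 40, nat_lit 80, nat_lit 33, nat_lit 249, nat_lit 40, nat_lit 10]⟩, ⟨p076_k25, nat_lit 0, nat_lit 0, nat_lit 307, nat_lit 0, nat_lit 0, [nat_lit 4223040000, nat_lit 6292160000, nat_lit 7450740000], [], [nat_lit 19423642540, nat_lit 19709702400, nat_lit 24057824364, nat_lit 23932484185, nat_lit 19098753012, nat_lit 18801216945, nat_lit 21055271814, nat_lit 20800011912], nat_lit 0, nat_lit 0, nat_lit 0, nat_lit 0, nat_lit 0, nat_lit 0, [], [nat_lit 62, nat_lit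 40, nat_lit 40, nat_lit 80, nat_lit 58, nat_lit 483, nat_lit 250, nat_lit 11]⟩,
 ⟨nat_lit 3354, nat_lit 3536, ⟨.ofNat (nat_lit 518855), .ofNat (nat_lit 669482), .ofNat (nat_lit 562760), .ofNat (nat_lit 713387), .ofNat (nat_lit 517769), .ofNat (nat_lit 666245), .ofNat (nat_lit 561864), .ofNat (nat_lit 710340)⟩, ⟨.ofNat (nat_lit 10000), .ofNat (nat_lit 305521), .ofNat (nat_lit 10000), .ofNat (nat_lit 349427), .ofNat (nat_lit 10000), .ofNat (nat_lit 305848), .ofNat (nat_lit 10000), .ofNat (nat_lit 349943)⟩⟩, [⟨nat_lit 22, nat_lit 100, nat_lit 99, nat_lit 90, nat_lit 15063346⟩, ⟨nat_lit 22, nat_lit 100, nat_lit 40, nat_lit 100, nat_lit 53947341⟩]⟩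
noncomputable def p076_l95 : Lf2 := ⟨nat_lit 0, nat_lit 10, [nat_lit 0, nat_lit 5, nat_lit 5, nat_lit 20], false, nat_lit 4, nat_lit 160, nat_lit 0, nat_lit 384, ⟨nat_lit 520, nat_lit 0, nat_lit 480, nat_lit 6, nat_lit 243, nat_lit 480, nat_lit 68, nat_lit 480, nat_lit 43350, nat_lit 266, nat_lit 124684, nat_lit 200, nat_lit 46855290, nat_lit 0, nat_lit 0, nat_lit 3776871, false, true⟩,
 nat_lit 0, nat_lit 4248, nat_lit 0, nat_lit 0, nat_lit 3633, nat_lit 6919, nat_lit 91, nat_lit 0, nat_lit 0, nat_lit 564, nat_lit 0, nat_lit 0, nat_lit 0, nat_lit 0, nat_lit 0, nat_lit 480000, nat_lit 0, nat_lit 0, [(nat_lit 21, [(nat_lit 6, nat_lit 480)])],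
 ⟨p076_k27, nat_lit 0, nat_lit 0, nat_lit 302, nat_lit 0, nat_lit 568139, [nat_lit 1420288000, nat_lit 1065872000], [], [nat_lit 23777333283, nat_lit 24203047514, nat_lit 28497565980, nat_lit 28836685989, nat_lit 23040360438, nat_lit 23291257960, nat_lit 26103885907, nat_lit 26314273847], nat_lit 1271250, nat_lit 1271250, nat_lit 1271250, nat_lit 1271250, nat_lit 21650, nat_lit 1100001, [nat_lit 490000, nat_lit 1100000], [nat_lit 24, nat_lit 40, nat_lit 40, nat_lit 80, nat_lit 33, nat_lit 249, nat_lit 40, nat_lit 10]⟩, ⟨p076_k25, nat_lit 0, nat_lit 0, nat_lit 304, nat_lit 0, nat_lit 0, [nat_lit 4143360000, nat_lit 6173440000, nat_lit 7310160000], [], [nat_lit 18908567000, nat_lit 19184068212, nat_lit 23044624842, nat_lit 22946681765, nat_lit 18698478549, nat_lit 18391617597, nat_lit 20405197763, nat_lit 20173741325], nat_lit 0, nat_lit 0, nat_lit 0, nat_lit 0, nat_lit 0, nat_lit 0, [], [nat_lit 62, nat_lit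 40, nat_lit 40, nat_lit 80, nat_lit 58, nat_lit 483, nat_lit 250, nat_lit 11]⟩,
 ⟨nat_lit 3162, nat_lit 3355, ⟨.ofNat (nat_lit 517769), .ofNat (nat_lit 653872), .ofNat (nat_lit 561864), .ofNat (nat_lit 697967), .ofNat (nat_lit 516642), .ofNat (nat_lit 650739), .ofNat (nat_lit 560952), .ofNat (nat_lit 695049)⟩, ⟨.ofNat (nat_lit 10000), .ofNat (nat_lit 305848), .ofNat (nat_lit 10000), .ofNat (nat_lit 349943), .ofNat (nat_lit 10000), .ofNat (nat_lit 306116), .ofNat (nat_lit 10000), .ofNat (nat_lit 350426)⟩⟩, [⟨nat_lit 22, nat_lit 100, nat_lit 96, nat_lit 89, nat_lit 8435296⟩, ⟨nat_lit 22, nat_lit 100, nat_lit 40, nat_lit 100, nat_lit 62673261⟩]⟩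
noncomputable def b_V_800_400_20_1 : St := ⟨true, nat_lit 1, nat_lit 0, nat_lit 1, nat_lit 120, nat_lit 320, nat_lit 360, nat_lit 160, nat_lit 200, nat_lit 16, nat_lit 360, nat_lit 80, nat_lit 120, nat_lit 0, nat_lit 160, nat_lit 0, nat_lit 396, nat_lit 0, nat_lit 40, nat_lit 0, nat_lit 0, nat_lit 0, nat_lit 0⟩
theorem d_V_800_400_20_1 (h : EB TB.env) : Dead b_V_800_400_20_1 := chkB_sound0 h (T :=
(.spl (nat_lit 2) (nat_lit 160)
(.spl (nat_lit 0) (nat_lit 340)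
(.leaf p076_l87)
(.trZ (nat_lit 0) (nat_lit 100) (nat_lit 73) (nat_lit 55) (nat_lit 32) (.leaf p076_l88)))
(.spl (nat_lit 2) (nat_lit 240)
(.spl (nat_lit 0) (nat_lit 340)
(.leaf p076_l89)
(.leaf p076_l90))
(.trX (nat_lit 22) (nat_lit 100) (nat_lit 40) (nat_lit 100) (nat_lit 384) (.spl (nat_lit 0) (nat_lit 340)
(.spl (nat_lit 0) (nat_lit 330)
(.leaf p076_l91)
(.trX (nat_lit 13) (nat_lit 76) (nat_lit 65) (nat_lit 100) (nat_lit 352) (.leaf p076_l92)))
(.trX (nat_lit 13) (nat_lit 71) (nat_lit 70) (nat_lit 100) (nat_lit 344) (.spl (nat_lit 0) (nat_lit 350)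
(.leaf p076_l93)
(.trX (nat_lit 13) (nat_lit 66) (nat_lit 75) (nat_lit 100) (nat_lit 336) (.trZ (nat_lit 3) (nat_lit 100) (nat_lit 83) (nat_lit 25) (nat_lit 4) (.spl (nat_lit 0) (nat_lit 355)
(.leaf p076_l94)
(.trX (nat_lit 13) (nat_lit 63) (nat_lit 78) (nat_lit 100) (nat_lit 328) (.leaf p076_l95)))))))))))) (by decide +kernel)
noncomputable def p076_l96 : Lf2 := ⟨nat_lit 0, nat_lit 10, [nat_lit 0, nat_lit 5, nat_lit 5, nat_lit 20], true, nat_lit 160, nat_lit 300, nat_lit 0, nat_lit 384, ⟨nat_lit 0, nat_lit 0, nat_lit 1000, nat_lit 4, nat_lit 93, nat_lit 1000, nat_lit 176, nat_lit 1000, nat_lit 1169, nat_lit 218, nat_lit 81667, nat_lit 285, nat_lit 52036257, nat_lit 0, nat_lit 0, nat_lit 3509781, false, false⟩,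
 nat_lit 0, nat_lit 4369, nat_lit 0, nat_lit 0, nat_lit 3276, nat_lit 0, nat_lit 0, nat_lit 0, nat_lit 0, nat_lit 0, nat_lit 0, nat_lit 0, nat_lit 0, nat_lit 0, nat_lit 76, nat_lit 400000, nat_lit 0, nat_lit 0, [(nat_lit 18, [(nat_lit 5, nat_lit 1000)]), (nat_lit 21, [(nat_lit 5, nat_lit 1000)])],
 ⟨p076_k14, nat_lit 0, nat_lit 0, nat_lit 296, nat_lit 0, nat_lit 457180, [nat_lit 1693000001, nat_lit 251500000], [], [nat_lit 16614787924, nat_lit 20363667725, nat_lit 16335850436, nat_lit 18870314181, nat_lit 23178696718, nat_lit 25962344620, nat_lit 21817799588, nat_lit 24334183556], nat_lit 1271250, nat_lit 1271250, nat_lit 88400, nat_lit 490000, nat_lit 1100001, nat_lit 2298750, [nat_lit 490000, nat_lit 1427500], [nat_lit 69, nat_lit 40, nat_lit 40, nat_lit 80, nat_lit 64, nat_lit 317, nat_lit 100, nat_lit 12]⟩, C1.Rw.none,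
 ⟨nat_lit 3162, nat_lit 4473, ⟨.ofNat (nat_lit 143971), .ofNat (nat_lit 252852), .ofNat (nat_lit 186943), .ofNat (nat_lit 295833), .ofNat (nat_lit 175109), .ofNat (nat_lit 272750), .ofNat (nat_lit 219258), .ofNat (nat_lit 316907)⟩, ⟨.ofNat (nat_lit 302621), .ofNat (nat_lit 540545), .ofNat (nat_lit 345754), .ofNat (nat_lit 583678), .ofNat (nat_lit 306116), .ofNat (nat_lit 519453), .ofNat (nat_lit 350426), .ofNat (nat_lit 563762)⟩⟩, [⟨nat_lit 0, nat_lit 100, nat_lit 72, nat_lit 63, nat_lit 252742365⟩, ⟨nat_lit 16, nat_lit 87, nat_lit 95, nat_lit 100, nat_lit 170678021⟩, ⟨nat_lit 4, nat_lit 100, nat_lit 74, nat_lit 90, nat_lit 92236398⟩]⟩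
noncomputable def p076_l97 : Lf2 := ⟨nat_lit 0, nat_lit 10, [nat_lit 0, nat_lit 5, nat_lit 5, nat_lit 20], true, nat_lit 160, nat_lit 300, nat_lit 0, nat_lit 396, ⟨nat_lit 0, nat_lit 0, nat_lit 1000, nat_lit 4, nat_lit 138, nat_lit 1000, nat_lit 177, nat_lit 1000, nat_lit 1169, nat_lit 218, nat_lit 180267, nat_lit 319, nat_lit 48828828, nat_lit 0, nat_lit 0, nat_lit 4109080, false, false⟩,
 nat_lit 0, nat_lit 3992, nat_lit 0, nat_lit 0, nat_lit 2994, nat_lit 0, nat_lit 0, nat_lit 0, nat_lit 0, nat_lit 0, nat_lit 0, nat_lit 0, nat_lit 0, nat_lit 0, nat_lit 76, nat_lit 400000, nat_lit 0, nat_lit 0, [(nat_lit 18, [(nat_lit 5, nat_lit 1000)])],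
 ⟨p076_k14, nat_lit 0, nat_lit 0, nat_lit 229, nat_lit 0, nat_lit 463372, [nat_lit 1693000001, nat_lit 251500000], [], [nat_lit 16508510131, nat_lit 17676497384, nat_lit 17747193612, nat_lit 18946677312, nat_lit 21669214598, nat_lit 22698289477, nat_lit 23435310075, nat_lit 23519384561], nat_lit 1271250, nat_lit 1271250, nat_lit 490000, nat_lit 1100001, nat_lit 1100001, nat_lit 2298750, [nat_lit 490000, nat_lit 1427500], [nat_lit 69, nat_lit 40, nat_lit 40, nat_lit 80, nat_lit 64, nat_lit 345, nat_lit 125, nat_lit 12]⟩, C1.Rw.none,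
 ⟨nat_lit 3872, nat_lit 4473, ⟨.ofNat (nat_lit 252931), .ofNat (nat_lit 388887), .ofNat (nat_lit 296041), .ofNat (nat_lit 432013), .ofNat (nat_lit 262847), .ofNat (nat_lit 391890), .ofNat (nat_lit 306411), .ofNat (nat_lit 435470)⟩, ⟨.ofNat (nat_lit 302621), .ofNat (nat_lit 540545), .ofNat (nat_lit 345754), .ofNat (nat_lit 583678), .ofNat (nat_lit 304717), .ofNat (nat_lit 530543), .ofNat (nat_lit 348304), .ofNat (nat_lit 574129)⟩⟩, [⟨nat_lit 4, nat_lit 100, nat_lit 81, nat_lit 92, nat_lit 259294395⟩]⟩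
noncomputable def p076_l98 : Lf2 := ⟨nat_lit 0, nat_lit 10, [nat_lit 0, nat_lit 5, nat_lit 5, nat_lit 20], true, nat_lit 160, nat_lit 276, nat_lit 0, nat_lit 396, ⟨nat_lit 0, nat_lit 0, nat_lit 1000, nat_lit 4, nat_lit 141, nat_lit 1000, nat_lit 167, nat_lit 1000, nat_lit 13749, nat_lit 240, nat_lit 187267, nat_lit 321, nat_lit 49407221, nat_lit 0, nat_lit 0, nat_lit 4043986, false, false⟩,
 nat_lit 0, nat_lit 3405, nat_lit 0, nat_lit 0, nat_lit 2756, nat_lit 0, nat_lit 0, nat_lit 0, nat_lit 0, nat_lit 0, nat_lit 0, nat_lit 0, nat_lit 0, nat_lit 0, nat_lit 200, nat_lit 856000, nat_lit 0, nat_lit 0, [(nat_lit 21, [(nat_lit 5, nat_lit 240), (nat_lit 6, nat_lit 760)])],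
 ⟨p076_k19, nat_lit 0, nat_lit 0, nat_lit 304, nat_lit 0, nat_lit 611115, [nat_lit 2410400000, nat_lit 411744000], [], [nat_lit 17774252808, nat_lit 18970590656, nat_lit 19068750576, nat_lit 20152109456, nat_lit 21538818743, nat_lit 22584713150, nat_lit 22503693166, nat_lit 23400315295], nat_lit 1271250, nat_lit 1271250, nat_lit 490000, nat_lit 1100001, nat_lit 1100001, nat_lit 2093250, [nat_lit 490000, nat_lit 1427500], [nat_lit 69, nat_lit 40, nat_lit 40, nat_lit 80, nat_lit 64, nat_lit 345, nat_lit 125, nat_lit 12]⟩, C1.Rw.none,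
 ⟨nat_lit 3162, nat_lit 3873, ⟨.ofNat (nat_lit 262809), .ofNat (nat_lit 391890), .ofNat (nat_lit 306338), .ofNat (nat_lit 435446), .ofNat (nat_lit 272790), .ofNat (nat_lit 394735), .ofNat (nat_lit 317043), .ofNat (nat_lit 439014)⟩, ⟨.ofNat (nat_lit 304717), .ofNat (nat_lit 491830), .ofNat (nat_lit 348304), .ofNat (nat_lit 535416), .ofNat (nat_lit 306116), .ofNat (nat_lit 482881), .ofNat (nat_lit 350426), .ofNat (nat_lit 527190)⟩⟩, [⟨nat_lit 4, nat_lit 100, nat_lit 67, nat_lit 88, nat_lit 278666425⟩]⟩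
noncomputable def p076_l99 : Lf2 := ⟨nat_lit 0, nat_lit 10, [nat_lit 0, nat_lit 5, nat_lit 5, nat_lit 20], true, nat_lit 160, nat_lit 300, nat_lit 0, nat_lit 396, ⟨nat_lit 0, nat_lit 512, nat_lit 488, nat_lit 4, nat_lit 191, nat_lit 1000, nat_lit 177, nat_lit 488, nat_lit 1169, nat_lit 218, nat_lit 1350, nat_lit 224, nat_lit 44804125, nat_lit 11802665, nat_lit 10393210, nat_lit 4646851, false, true⟩,
 nat_lit 0, nat_lit 4154, nat_lit 0, nat_lit 0, nat_lit 3115, nat_lit 0, nat_lit 0, nat_lit 0, nat_lit 0, nat_lit 0, nat_lit 0, nat_lit 0, nat_lit 0, nat_lit 0, nat_lit 45, nat_lit 692800, nat_lit 0, nat_lit 0, [(nat_lit 18, [(nat_lit 1, nat_lit 512), (nat_lit 6, nat_lit 488)])],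
 ⟨p076_k15, nat_lit 0, nat_lit 0, nat_lit 211, nat_lit 0, nat_lit 463372, [nat_lit 1474928001, nat_lit 1579709867, nat_lit 191912533], [], [nat_lit 18306870056, nat_lit 19419151906, nat_lit 20563443516, nat_lit 21542055236, nat_lit 22780951941, nat_lit 23654017759, nat_lit 24465254316, nat_lit 25240165674], nat_lit 1271250, nat_lit 1271250, nat_lit 1100001, nat_lit 1785000, nat_lit 1100001, nat_lit 2298750, [nat_lit 490000, nat_lit 780000, nat_lit 1435000], [nat_lit 85, nat_lit 40, nat_lit 40, nat_lit 80, nat_lit 16, nat_lit 373, nat_lit 150, nat_lit 13]⟩, C1.Rw.none,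
 ⟨nat_lit 3872, nat_lit 4473, ⟨.ofNat (nat_lit 388887), .ofNat (nat_lit 524844), .ofNat (nat_lit 432013), .ofNat (nat_lit 567977), .ofNat (nat_lit 391890), .ofNat (nat_lit 520934), .ofNat (nat_lit 435470), .ofNat (nat_lit 564520)⟩, ⟨.ofNat (nat_lit 302621), .ofNat (nat_lit 540545), .ofNat (nat_lit 345754), .ofNat (nat_lit 583678), .ofNat (nat_lit 304717), .ofNat (nat_lit 530543), .ofNat (nat_lit 348304), .ofNat (nat_lit 574129)⟩⟩, [⟨nat_lit 4, nat_lit 100, nat_lit 81, nat_lit 92, nat_lit 173669611⟩]⟩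
noncomputable def p076_l100 : Lf2 := ⟨nat_lit 0, nat_lit 10, [nat_lit 0, nat_lit 5, nat_lit 5, nat_lit 20], false, nat_lit 160, nat_lit 300, nat_lit 0, nat_lit 160, ⟨nat_lit 1000, nat_lit 0, nat_lit 0, nat_lit 0, nat_lit 0, nat_lit 0, nat_lit 0, nat_lit 0, nat_lit 0, nat_lit 0, nat_lit 0, nat_lit 0, nat_lit 0, nat_lit 0, nat_lit 0, nat_lit 0, false, false⟩,
 nat_lit 0, nat_lit 8267, nat_lit 0, nat_lit 0, nat_lit 6199, nat_lit 12400, nat_lit 458, nat_lit 0, nat_lit 0, nat_lit 1295, nat_lit 0, nat_lit 0, nat_lit 0, nat_lit 0, nat_lit 0, nat_lit 0, nat_lit 0, nat_lit 0, [],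
 ⟨p076_k18, nat_lit 0, nat_lit 0, nat_lit 226, nat_lit 0, nat_lit 463372, [nat_lit 2032000001, nat_lit 4688000000, nat_lit 6250000000], [], [nat_lit 23305052624, nat_lit 24511599152, nat_lit 28545375736, nat_lit 29649996200, nat_lit 26908574215, nat_lit 27812319378, nat_lit 31872975743, nat_lit 32907650343], nat_lit 1271250, nat_lit 1271250, nat_lit 1271250, nat_lit 1271250, nat_lit 1100001, nat_lit 2298750, [nat_lit 490000, nat_lit 1100000, nat_lit 1442500], [nat_lit 6, nat_lit 40, nat_lit 40, nat_lit 80, nat_lit 3, nat_lit 289, nat_lit 75, nat_lit 9]⟩, ⟨p076_k25, nat_lit 0, nat_lit 0, nat_lit 317, nat_lit 0, nat_lit 0, [nat_lit 7968000000, nat_lit 11872000000, nat_lit 14058000000], [], [nat_lit 34780562625, nat_lit 35342773825, nat_lit 45849729025, nat_lit 45803160000, nat_lit 23186671425, nat_lit 23647533825, nat_lit 33133406400, nat_lit 33072580000], nat_lit 0, nat_lit 0, nat_lit 0, nat_lit 0, nat_lit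 0, nat_lit 0, [], [nat_lit 62, nat_lit 40, nat_lit 40, nat_lit 80, nat_lit 58, nat_lit 428, nat_lit 200, nat_lit 10]⟩,
 zbF0, [⟨nat_lit 4, nat_lit 100, nat_lit 81, nat_lit 92, nat_lit 240554000⟩, ⟨nat_lit 21, nat_lit 94, nat_lit 100, nat_lit 87, nat_lit 91938173⟩, ⟨nat_lit 9, nat_lit 100, nat_lit 88, nat_lit 63, nat_lit 147043644⟩]⟩
noncomputable def p076_l101 : Lf2 := ⟨nat_lit 0, nat_lit 8, [nat_lit 50, nat_lit 5, nat_lit 5, nat_lit 20], false, nat_lit 160, nat_lit 300, nat_lit 160, nat_lit 396, ⟨nat_lit 379, nat_lit 621, nat_lit 0, nat_lit 6, nat_lit 258, nat_lit 621, nat_lit 177, nat_lit 0, nat_lit 0, nat_lit 0, nat_lit 0, nat_lit 0, nat_lit 39565895, nat_lit 17755312, nat_lit 9678793, nat_lit 5074155, false, true⟩,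
 nat_lit 0, nat_lit 5105, nat_lit 0, nat_lit 0, nat_lit 3828, nat_lit 3010, nat_lit 545, nat_lit 0, nat_lit 0, nat_lit 0, nat_lit 0, nat_lit 0, nat_lit 0, nat_lit 0, nat_lit 0, nat_lit 288600, nat_lit 0, nat_lit 0, [(nat_lit 18, [(nat_lit 1, nat_lit 554), (nat_lit 2, nat_lit 67)])],
 ⟨p076_k20, nat_lit 0, nat_lit 0, nat_lit 178, nat_lit 0, nat_lit 355057, [nat_lit 1625014401, nat_lit 2324599067, nat_lit 3425338800], [], [nat_lit 21882359020, nat_lit 22389456408, nat_lit 26687511255, nat_lit 27123291131, nat_lit 25669987355, nat_lit 26111899000, nat_lit 29719771095, nat_lit 30062081723], nat_lit 1271250, nat_lit 1271250, nat_lit 1271250, nat_lit 1271250, nat_lit 1100001, nat_lit 2298750, [nat_lit 490000, nat_lit 780000, nat_lit 1435000], [nat_lit 85, nat_lit 40, nat_lit 40, nat_lit 80, nat_lit 16, nat_lit 289, nat_lit 75, nat_lit 9]⟩, ⟨p076_k28, nat_lit 0, nat_lit 0, nat_lit 131, nat_lit 0, nat_lit 0, [nat_lit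 3019872000, nat_lit 3730118000, nat_lit 5327982000], [], [nat_lit 5966941052, nat_lit 6521073100, nat_lit 9956359748, nat_lit 10196792588, nat_lit 11862757998, nat_lit 11931336706, nat_lit 13799657838, nat_lit 13712526851], nat_lit 0, nat_lit 0, nat_lit 0, nat_lit 0, nat_lit 0, nat_lit 0, [], [nat_lit 92, nat_lit 40, nat_lit 40, nat_lit 80, nat_lit 32, nat_lit 483, nat_lit 250, nat_lit 11]⟩,
 ⟨nat_lit 4183, nat_lit 4473, ⟨.ofNat (nat_lit 524844), .ofNat (nat_lit 728778), .ofNat (nat_lit 567977), .ofNat (nat_lit 771911), .ofNat (nat_lit 522921), .ofNat (nat_lit 721688), .ofNat (nat_lit 566254), .ofNat (nat_lit 765021)⟩, ⟨.ofNat (nat_lit 302621), .ofNat (nat_lit 540545), .ofNat (nat_lit 345754), .ofNat (nat_lit 583678), .ofNat (nat_lit 303743), .ofNat (nat_lit 535637), .ofNat (nat_lit 347076), .ofNat (nat_lit 578971)⟩⟩, [⟨nat_lit 13, nat_lit 78, nat_lit 81, nat_lit 100, nat_lit 33849556⟩, ⟨nat_lit 16, nat_lit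 87, nat_lit 95, nat_lit 100, nat_lit 205950981⟩, ⟨nat_lit 19, nat_lit 100, nat_lit 21, nat_lit 94, nat_lit 177075352⟩]⟩
noncomputable def p076_l102 : Lf2 := ⟨nat_lit 1, nat_lit 10, [nat_lit 0, nat_lit 5, nat_lit 5, nat_lit 20], false, nat_lit 160, nat_lit 300, nat_lit 160, nat_lit 396, zbN0,
 nat_lit 0, nat_lit 0, nat_lit 0, nat_lit 0, nat_lit 0, nat_lit 0, nat_lit 0, nat_lit 0, nat_lit 0, nat_lit 0, nat_lit 0, nat_lit 0, nat_lit 0, nat_lit 0, nat_lit 0, nat_lit 0, nat_lit 0, nat_lit 0, [],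
 C1.Rw.none, C1.Rw.none,
 zbF0, []⟩
noncomputable def p076_l103 : Lf2 := ⟨nat_lit 0, nat_lit 10, [nat_lit 0, nat_lit 5, nat_lit 5, nat_lit 20], false, nat_lit 160, nat_lit 288, nat_lit 160, nat_lit 396, ⟨nat_lit 349, nat_lit 651, nat_lit 0, nat_lit 6, nat_lit 255, nat_lit 651, nat_lit 172, nat_lit 0, nat_lit 0, nat_lit 0, nat_lit 0, nat_lit 0, nat_lit 40133643, nat_lit 17481955, nat_lit 9384402, nat_lit 5019611, false, true⟩,
 nat_lit 0, nat_lit 4617, nat_lit 0, nat_lit 0, nat_lit 3599, nat_lit 2809, nat_lit 516, nat_lit 0, nat_lit 0, nat_lit 0, nat_lit 0, nat_lit 0, nat_lit 0, nat_lit 0, nat_lit 0, nat_lit 260400, nat_lit 0, nat_lit 0, [(nat_lit 18, [(nat_lit 1, nat_lit 651)])],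
 ⟨p076_k29, nat_lit 0, nat_lit 0, nat_lit 200, nat_lit 0, nat_lit 390415, [nat_lit 1591924001, nat_lit 2284060401, nat_lit 3457730800], [], [nat_lit 22386184697, nat_lit 22633147237, nat_lit 26538584891, nat_lit 26733639892, nat_lit 25621736814, nat_lit 25820103796, nat_lit 29126335862, nat_lit 29299738319], nat_lit 1271250, nat_lit 1271250, nat_lit 1271250, nat_lit 1271250, nat_lit 1100001, nat_lit 2196000, [nat_lit 490000, nat_lit 780000, nat_lit 1435000], [nat_lit 85, nat_lit 40, nat_lit 40, nat_lit 80, nat_lit 16, nat_lit 289, nat_lit 75, nat_lit 9]⟩, ⟨p076_k16, nat_lit 0, nat_lit 0, nat_lit 129, nat_lit 0, nat_lit 0, [nat_lit 2780832000, nat_lit 3434858000, nat_lit 4906242000], [], [nat_lit 5441292788, nat_lit 5953378720, nat_lit 8872360080, nat_lit 9112568558, nat_lit 10910889929, nat_lit 10970861953, nat_lit 12560427435, nat_lit 12487242805], nat_lit 0, nat_lit 0, nat_lit 0, nat_lit 0, nat_lit 0,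 nat_lit 0, [], [nat_lit 92, nat_lit 40, nat_lit 40, nat_lit 80, nat_lit 32, nat_lit 483, nat_lit 250, nat_lit 11]⟩,
 ⟨nat_lit 4031, nat_lit 4184, ⟨.ofNat (nat_lit 522921), .ofNat (nat_lit 708436), .ofNat (nat_lit 566254), .ofNat (nat_lit 751770), .ofNat (nat_lit 521937), .ofNat (nat_lit 705031), .ofNat (nat_lit 565389), .ofNat (nat_lit 748484)⟩, ⟨.ofNat (nat_lit 303743), .ofNat (nat_lit 515761), .ofNat (nat_lit 347076), .ofNat (nat_lit 559094), .ofNat (nat_lit 304250), .ofNat (nat_lit 513500), .ofNat (nat_lit 347702), .ofNat (nat_lit 556953)⟩⟩, [⟨nat_lit 13, nat_lit 75, nat_lit 83, nat_lit 100, nat_lit 32172468⟩, ⟨nat_lit 16, nat_lit 83, nat_lit 98, nat_lit 100, nat_lit 201192116⟩, ⟨nat_lit 19, nat_lit 100, nat_lit 21, nat_lit 94, nat_lit 166309920⟩]⟩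
noncomputable def p076_l104 : Lf2 := ⟨nat_lit 0, nat_lit 10, [nat_lit 0, nat_lit 5, nat_lit 5, nat_lit 20], false, nat_lit 160, nat_lit 284, nat_lit 160, nat_lit 396, ⟨nat_lit 344, nat_lit 656, nat_lit 0, nat_lit 6, nat_lit 252, nat_lit 656, nat_lit 171, nat_lit 0, nat_lit 0, nat_lit 0, nat_lit 0, nat_lit 0, nat_lit 40398112, nat_lit 17316597, nat_lit 9285291, nat_lit 4995827, false, true⟩,
 nat_lit 0, nat_lit 4482, nat_lit 0, nat_lit 0, nat_lit 3560, nat_lit 2809, nat_lit 583, nat_lit 0, nat_lit 0, nat_lit 0, nat_lit 0, nat_lit 0, nat_lit 0, nat_lit 0, nat_lit 0, nat_lit 262400, nat_lit 0, nat_lit 0, [(nat_lit 18, [(nat_lit 1, nat_lit 656)])],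
 ⟨p076_k30, nat_lit 0, nat_lit 0, nat_lit 211, nat_lit 0, nat_lit 428886, [nat_lit 1588544001, nat_lit 2276395734, nat_lit 3436284800], [], [nat_lit 22670815001, nat_lit 22901893361, nat_lit 26520308955, nat_lit 26726682672, nat_lit 25661832499, nat_lit 25871258484, nat_lit 29004987948, nat_lit 29173749125], nat_lit 1271250, nat_lit 1271250, nat_lit 1271250, nat_lit 1271250, nat_lit 1100001, nat_lit 2161750, [nat_lit 490000, nat_lit 780000, nat_lit 1435000], [nat_lit 85, nat_lit 40, nat_lit 40, nat_lit 80, nat_lit 16, nat_lit 289, nat_lit 75, nat_lit 9]⟩, ⟨p076_k16, nat_lit 0, nat_lit 0, nat_lit 128, nat_lit 0, nat_lit 0, [nat_lit 2740992000, nat_lit 3385648000, nat_lit 4835952000], [], [nat_lit 5305733648, nat_lit 5812445220, nat_lit 8582529896, nat_lit 8828082571, nat_lit 10740679416, nat_lit 10796359322, nat_lit 12306058760, nat_lit 12268177109], nat_lit 0, nat_lit 0, nat_lit 0, nat_lit 0, nat_lit 0,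 nat_lit 0, [], [nat_lit 92, nat_lit 40, nat_lit 40, nat_lit 80, nat_lit 32, nat_lit 483, nat_lit 250, nat_lit 11]⟩,
 ⟨nat_lit 3872, nat_lit 4032, ⟨.ofNat (nat_lit 521937), .ofNat (nat_lit 698492), .ofNat (nat_lit 565389), .ofNat (nat_lit 741945), .ofNat (nat_lit 520934), .ofNat (nat_lit 695142), .ofNat (nat_lit 564520), .ofNat (nat_lit 738728)⟩, ⟨.ofNat (nat_lit 304250), .ofNat (nat_lit 506961), .ofNat (nat_lit 347702), .ofNat (nat_lit 550414), .ofNat (nat_lit 304717), .ofNat (nat_lit 504734), .ofNat (nat_lit 348304), .ofNat (nat_lit 548321)⟩⟩, [⟨nat_lit 13, nat_lit 73, nat_lit 85, nat_lit 100, nat_lit 38576000⟩, ⟨nat_lit 16, nat_lit 81, nat_lit 100, nat_lit 100, nat_lit 206292432⟩, ⟨nat_lit 19, nat_lit 100, nat_lit 21, nat_lit 94, nat_lit 166486178⟩]⟩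
noncomputable def p076_l105 : Lf2 := ⟨nat_lit 0, nat_lit 10, [nat_lit 0, nat_lit 5, nat_lit 5, nat_lit 20], true, nat_lit 160, nat_lit 276, nat_lit 0, nat_lit 396, ⟨nat_lit 0, nat_lit 799, nat_lit 201, nat_lit 4, nat_lit 191, nat_lit 1000, nat_lit 168, nat_lit 201, nat_lit 13749, nat_lit 240, nat_lit 4566, nat_lit 226, nat_lit 45455701, nat_lit 11882574, nat_lit 9661725, nat_lit 4563572, false, true⟩,
 nat_lit 0, nat_lit 3958, nat_lit 0, nat_lit 0, nat_lit 3204, nat_lit 0, nat_lit 0, nat_lit 0, nat_lit 0, nat_lit 0, nat_lit 0, nat_lit 0, nat_lit 0, nat_lit 0, nat_lit 98, nat_lit 1000000, nat_lit 0, nat_lit 0, [(nat_lit 21, [(nat_lit 2, nat_lit 799), (nat_lit 6, nat_lit 201)])],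
 ⟨p076_k17, nat_lit 0, nat_lit 0, nat_lit 225, nat_lit 0, nat_lit 513809, [nat_lit 1990105334, nat_lit 1482478401, nat_lit 206994400], [], [nat_lit 18880642864, nat_lit 19499184964, nat_lit 21201329928, nat_lit 21742984128, nat_lit 22592510311, nat_lit 23097751466, nat_lit 24423123958, nat_lit 24869001905], nat_lit 1271250, nat_lit 1271250, nat_lit 1100001, nat_lit 1785000, nat_lit 1100001, nat_lit 2093250, [nat_lit 490000, nat_lit 780000, nat_lit 1435000], [nat_lit 85, nat_lit 40, nat_lit 40, nat_lit 80, nat_lit 16, nat_lit 373, nat_lit 150, nat_lit 13]⟩, C1.Rw.none,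
 ⟨nat_lit 3535, nat_lit 3873, ⟨.ofNat (nat_lit 391890), .ofNat (nat_lit 520934), .ofNat (nat_lit 435472), .ofNat (nat_lit 564520), .ofNat (nat_lit 393332), .ofNat (nat_lit 518855), .ofNat (nat_lit 437232), .ofNat (nat_lit 562760)⟩, ⟨.ofNat (nat_lit 304717), .ofNat (nat_lit 491830), .ofNat (nat_lit 348304), .ofNat (nat_lit 535416), .ofNat (nat_lit 305521), .ofNat (nat_lit 487529), .ofNat (nat_lit 349427), .ofNat (nat_lit 531435)⟩⟩, [⟨nat_lit 16, nat_lit 71, nat_lit 100, nat_lit 89, nat_lit 192558777⟩]⟩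
noncomputable def p076_l106 : Lf2 := ⟨nat_lit 0, nat_lit 10, [nat_lit 0, nat_lit 5, nat_lit 5, nat_lit 20], true, nat_lit 160, nat_lit 264, nat_lit 0, nat_lit 396, ⟨nat_lit 0, nat_lit 137, nat_lit 863, nat_lit 4, nat_lit 191, nat_lit 1000, nat_lit 163, nat_lit 863, nat_lit 25644, nat_lit 253, nat_lit 6216, nat_lit 227, nat_lit 45781741, nat_lit 11917345, nat_lit 9300914, nat_lit 4519881, false, true⟩,
 nat_lit 0, nat_lit 3340, nat_lit 0, nat_lit 0, nat_lit 2805, nat_lit 0, nat_lit 0, nat_lit 0, nat_lit 0, nat_lit 0, nat_lit 0, nat_lit 0, nat_lit 0, nat_lit 0, nat_lit 148, nat_lit 917800, nat_lit 0, nat_lit 0, [(nat_lit 21, [(nat_lit 1, nat_lit 137), (nat_lit 6, nat_lit 863)])],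
 ⟨p076_k26, nat_lit 0, nat_lit 0, nat_lit 215, nat_lit 0, nat_lit 581918, [nat_lit 2023471201, nat_lit 231947199], [], [nat_lit 19603620735, nat_lit 20149293185, nat_lit 21717063430, nat_lit 22198564925, nat_lit 22541693022, nat_lit 23002994634, nat_lit 24293774760, nat_lit 24703590510], nat_lit 1271250, nat_lit 1271250, nat_lit 1100001, nat_lit 1785000, nat_lit 1100001, nat_lit 1990500, [nat_lit 490000, nat_lit 1100000], [nat_lit 24, nat_lit 40, nat_lit 40, nat_lit 80, nat_lit 33, nat_lit 203, nat_lit 0, nat_lit 7]⟩, C1.Rw.none,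
 ⟨nat_lit 3162, nat_lit 3536, ⟨.ofNat (nat_lit 393332), .ofNat (nat_lit 518855), .ofNat (nat_lit 437228), .ofNat (nat_lit 562760), .ofNat (nat_lit 394735), .ofNat (nat_lit 516642), .ofNat (nat_lit 439036), .ofNat (nat_lit 560952)⟩, ⟨.ofNat (nat_lit 305521), .ofNat (nat_lit 468701), .ofNat (nat_lit 349427), .ofNat (nat_lit 512606), .ofNat (nat_lit 306116), .ofNat (nat_lit 464594), .ofNat (nat_lit 350426), .ofNat (nat_lit 508904)⟩⟩, [⟨nat_lit 16, nat_lit 69, nat_lit 100, nat_lit 96, nat_lit 207048759⟩]⟩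
noncomputable def p076_l107 : Lf2 := ⟨nat_lit 0, nat_lit 10, [nat_lit 0, nat_lit 5, nat_lit 5, nat_lit 20], false, nat_lit 160, nat_lit 276, nat_lit 0, nat_lit 160, ⟨nat_lit 1000, nat_lit 0, nat_lit 0, nat_lit 0, nat_lit 0, nat_lit 0, nat_lit 0, nat_lit 0, nat_lit 0, nat_lit 0, nat_lit 0, nat_lit 0, nat_lit 0, nat_lit 0, nat_lit 0, nat_lit 0, false, false⟩,
 nat_lit 0, nat_lit 6358, nat_lit 0, nat_lit 0, nat_lit 5146, nat_lit 10814, nat_lit 590, nat_lit 0, nat_lit 0, nat_lit 1114, nat_lit 0, nat_lit 0, nat_lit 0, nat_lit 0, nat_lit 0, nat_lit 0, nat_lit 0, nat_lit 0, [],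
 ⟨p076_k24, nat_lit 0, nat_lit 0, nat_lit 273, nat_lit 0, nat_lit 611115, [nat_lit 2032000001, nat_lit 4688000000, nat_lit 6250000000], [], [nat_lit 23376114435, nat_lit 24337998179, nat_lit 27464078359, nat_lit 28800633996, nat_lit 25831183695, nat_lit 26772227300, nat_lit 30174537995, nat_lit 31237114956], nat_lit 1271250, nat_lit 1271250, nat_lit 1271250, nat_lit 1271250, nat_lit 1100001, nat_lit 2093250, [nat_lit 490000, nat_lit 1100000, nat_lit 1442500], [nat_lit 6, nat_lit 40, nat_lit 40, nat_lit 80, nat_lit 3, nat_lit 289, nat_lit 75, nat_lit 9]⟩, ⟨p076_k25, nat_lit 0, nat_lit 0, nat_lit 311, nat_lit 0, nat_lit 0, [nat_lit 7968000000, nat_lit 11872000000, nat_lit 14058000000], [], [nat_lit 34779601790, nat_lit 35398547382, nat_lit 43323278107, nat_lit 43222254358, nat_lit 26148776424, nat_lit 26515457232, nat_lit 32205296928, nat_lit 32290548496], nat_lit 0, nat_lit 0, nat_lit 0, nat_lit 0, nat_lit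 0, nat_lit 0, [], [nat_lit 62, nat_lit 40, nat_lit 40, nat_lit 80, nat_lit 58, nat_lit 428, nat_lit 200, nat_lit 10]⟩,
 zbF0, [⟨nat_lit 13, nat_lit 61, nat_lit 92, nat_lit 100, nat_lit 44116121⟩, ⟨nat_lit 4, nat_lit 100, nat_lit 67, nat_lit 88, nat_lit 369335800⟩, ⟨nat_lit 9, nat_lit 100, nat_lit 96, nat_lit 82, nat_lit 128343254⟩]⟩
noncomputable def p076_l108 : Lf2 := ⟨nat_lit 0, nat_lit 10, [nat_lit 0, nat_lit 5, nat_lit 5, nat_lit 20], false, nat_lit 160, nat_lit 276, nat_lit 160, nat_lit 396, ⟨nat_lit 348, nat_lit 652, nat_lit 0, nat_lit 6, nat_lit 250, nat_lit 652, nat_lit 168, nat_lit 0, nat_lit 0, nat_lit 0, nat_lit 0, nat_lit 0, nat_lit 40737205, nat_lit 17173777, nat_lit 9089018, nat_lit 4960734, false, true⟩,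
 nat_lit 0, nat_lit 4294, nat_lit 0, nat_lit 0, nat_lit 3476, nat_lit 2859, nat_lit 203, nat_lit 0, nat_lit 0, nat_lit 0, nat_lit 0, nat_lit 0, nat_lit 0, nat_lit 0, nat_lit 0, nat_lit 652000, nat_lit 0, nat_lit 0, [(nat_lit 21, [(nat_lit 2, nat_lit 652)])],
 ⟨p076_k17, nat_lit 0, nat_lit 0, nat_lit 221, nat_lit 0, nat_lit 465786, [nat_lit 1567080534, nat_lit 1551852800, nat_lit 1436414400], [], [nat_lit 22456613388, nat_lit 22695942354, nat_lit 26219844320, nat_lit 26444741069, nat_lit 25216944096, nat_lit 25445976191, nat_lit 28696098986, nat_lit 28882358161], nat_lit 1271250, nat_lit 1271250, nat_lit 1271250, nat_lit 1271250, nat_lit 1100001, nat_lit 2093250, [nat_lit 490000, nat_lit 780000, nat_lit 1435000], [nat_lit 85, nat_lit 40, nat_lit 40, nat_lit 80, nat_lit 16, nat_lit 289, nat_lit 75, nat_lit 9]⟩, ⟨p076_k16, nat_lit 0, nat_lit 0, nat_lit 127, nat_lit 0, nat_lit 0, [nat_lit 2772864000, nat_lit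 3425016000, nat_lit 4892184000], [], [nat_lit 5342612160, nat_lit 5856061020, nat_lit 8531978439, nat_lit 8790147094, nat_lit 10859585386, nat_lit 10914433806, nat_lit 12373224223, nat_lit 12339900838], nat_lit 0, nat_lit 0, nat_lit 0, nat_lit 0, nat_lit 0, nat_lit 0, [], [nat_lit 92, nat_lit 40, nat_lit 40, nat_lit 80, nat_lit 32, nat_lit 483, nat_lit 250, nat_lit 11]⟩,
 ⟨nat_lit 3708, nat_lit 3873, ⟨.ofNat (nat_lit 520934), .ofNat (nat_lit 688690), .ofNat (nat_lit 564520), .ofNat (nat_lit 732276), .ofNat (nat_lit 519908), .ofNat (nat_lit 685387), .ofNat (nat_lit 563644), .ofNat (nat_lit 729124)⟩, ⟨.ofNat (nat_lit 304717), .ofNat (nat_lit 491830), .ofNat (nat_lit 348304), .ofNat (nat_lit 535416), .ofNat (nat_lit 305143), .ofNat (nat_lit 489716), .ofNat (nat_lit 348879), .ofNat (nat_lit 533452)⟩⟩, [⟨nat_lit 13, nat_lit 70, nat_lit 87, nat_lit 100, nat_lit 59979584⟩, ⟨nat_lit 16, nat_lit 77, nat_lit 100,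 nat_lit 99, nat_lit 230218727⟩, ⟨nat_lit 19, nat_lit 100, nat_lit 21, nat_lit 94, nat_lit 169988898⟩]⟩
noncomputable def p076_l109 : Lf2 := ⟨nat_lit 0, nat_lit 10, [nat_lit 0, nat_lit 5, nat_lit 5, nat_lit 20], false, nat_lit 160, nat_lit 272, nat_lit 160, nat_lit 396, ⟨nat_lit 339, nat_lit 661, nat_lit 0, nat_lit 6, nat_lit 248, nat_lit 661, nat_lit 166, nat_lit 0, nat_lit 0, nat_lit 0, nat_lit 0, nat_lit 0, nat_lit 40998373, nat_lit 17009588, nat_lit 8992039, nat_lit 4936498, false, true⟩,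
 nat_lit 0, nat_lit 4208, nat_lit 0, nat_lit 0, nat_lit 3470, nat_lit 2799, nat_lit 172, nat_lit 0, nat_lit 0, nat_lit 0, nat_lit 0, nat_lit 0, nat_lit 0, nat_lit 0, nat_lit 0, nat_lit 661000, nat_lit 0, nat_lit 0, [(nat_lit 21, [(nat_lit 2, nat_lit 661)])],
 ⟨p076_k31, nat_lit 0, nat_lit 0, nat_lit 231, nat_lit 0, nat_lit 501297, [nat_lit 1560662934, nat_lit 1527970401, nat_lit 1369969200], [], [nat_lit 22730397817, nat_lit 22969557712, nat_lit 26252211596, nat_lit 26479115996, nat_lit 25331542033, nat_lit 25530579976, nat_lit 28611111243, nat_lit 28800393804], nat_lit 1271250, nat_lit 1271250, nat_lit 1271250, nat_lit 1271250, nat_lit 1100001, nat_lit 2059000, [nat_lit 490000, nat_lit 780000, nat_lit 1435000], [nat_lit 85, nat_lit 40, nat_lit 40, nat_lit 80, nat_lit 16, nat_lit 289, nat_lit 75, nat_lit 9]⟩, ⟨p076_k16, nat_lit 0, nat_lit 0, nat_lit 126, nat_lit 0, nat_lit 0, [nat_lit 2701152000, nat_lit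 3336438000, nat_lit 4765662000], [], [nat_lit 5184488268, nat_lit 5685337920, nat_lit 8165998746, nat_lit 8427171774, nat_lit 10573921391, nat_lit 10626162215, nat_lit 11980644703, nat_lit 11947473545], nat_lit 0, nat_lit 0, nat_lit 0, nat_lit 0, nat_lit 0, nat_lit 0, [], [nat_lit 92, nat_lit 40, nat_lit 40, nat_lit 80, nat_lit 32, nat_lit 483, nat_lit 250, nat_lit 11]⟩,
 ⟨nat_lit 3535, nat_lit 3709, ⟨.ofNat (nat_lit 519908), .ofNat (nat_lit 679023), .ofNat (nat_lit 563644), .ofNat (nat_lit 722759), .ofNat (nat_lit 518855), .ofNat (nat_lit 675758), .ofNat (nat_lit 562760), .ofNat (nat_lit 719663)⟩, ⟨.ofNat (nat_lit 305143), .ofNat (nat_lit 483351), .ofNat (nat_lit 348879), .ofNat (nat_lit 527088), .ofNat (nat_lit 305521), .ofNat (nat_lit 481253), .ofNat (nat_lit 349427), .ofNat (nat_lit 525159)⟩⟩, [⟨nat_lit 13, nat_lit 68, nat_lit 89, nat_lit 100, nat_lit 66770316⟩, ⟨nat_lit 16, nat_lit 73, nat_lit 100,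 nat_lit 98, nat_lit 242706120⟩, ⟨nat_lit 19, nat_lit 100, nat_lit 21, nat_lit 94, nat_lit 166973915⟩]⟩
noncomputable def p076_l110 : Lf2 := ⟨nat_lit 0, nat_lit 10, [nat_lit 0, nat_lit 5, nat_lit 5, nat_lit 20], false, nat_lit 160, nat_lit 264, nat_lit 160, nat_lit 396, ⟨nat_lit 279, nat_lit 721, nat_lit 0, nat_lit 6, nat_lit 237, nat_lit 721, nat_lit 163, nat_lit 0, nat_lit 0, nat_lit 0, nat_lit 0, nat_lit 0, nat_lit 42088722, nat_lit 16012878, nat_lit 8898400, nat_lit 4849570, false, true⟩,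
 nat_lit 0, nat_lit 4167, nat_lit 0, nat_lit 0, nat_lit 3499, nat_lit 2382, nat_lit 356, nat_lit 0, nat_lit 0, nat_lit 0, nat_lit 0, nat_lit 0, nat_lit 0, nat_lit 0, nat_lit 0, nat_lit 288400, nat_lit 0, nat_lit 0, [(nat_lit 21, [(nat_lit 1, nat_lit 721)])],
 ⟨p076_k26, nat_lit 0, nat_lit 0, nat_lit 197, nat_lit 0, nat_lit 512588, [nat_lit 1544027200, nat_lit 2377916000], [], [nat_lit 22827362072, nat_lit 23058533528, nat_lit 25463425031, nat_lit 25701910266, nat_lit 25140453741, nat_lit 25360000260, nat_lit 27702611342, nat_lit 27904075190], nat_lit 1271250, nat_lit 1271250, nat_lit 1271250, nat_lit 1271250, nat_lit 1100001, nat_lit 1990500, [nat_lit 490000, nat_lit 1100000], [nat_lit 24, nat_lit 40, nat_lit 40, nat_lit 80, nat_lit 33, nat_lit 203, nat_lit 0, nat_lit 7]⟩, ⟨p076_k25, nat_lit 0, nat_lit 0, nat_lit 142, nat_lit 0, nat_lit 0, [nat_lit 2223072000, nat_lit 3312288000, nat_lit 3922182000], [],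 [nat_lit 4154662380, nat_lit 4362675420, nat_lit 6092255040, nat_lit 6220084668, nat_lit 8675363984, nat_lit 8693517489, nat_lit 9552699106, nat_lit 9549537794], nat_lit 0, nat_lit 0, nat_lit 0, nat_lit 0, nat_lit 0, nat_lit 0, [], [nat_lit 62, nat_lit 40, nat_lit 40, nat_lit 80, nat_lit 58, nat_lit 456, nat_lit 225, nat_lit 10]⟩,
 ⟨nat_lit 3354, nat_lit 3536, ⟨.ofNat (nat_lit 518855), .ofNat (nat_lit 644378), .ofNat (nat_lit 540807), .ofNat (nat_lit 666330), .ofNat (nat_lit 517769), .ofNat (nat_lit 641499), .ofNat (nat_lit 539816), .ofNat (nat_lit 663546)⟩, ⟨.ofNat (nat_lit 305521), .ofNat (nat_lit 468701), .ofNat (nat_lit 349427), .ofNat (nat_lit 512606), .ofNat (nat_lit 305848), .ofNat (nat_lit 466697), .ofNat (nat_lit 349943), .ofNat (nat_lit 510793)⟩⟩, [⟨nat_lit 13, nat_lit 64, nat_lit 90, nat_lit 100, nat_lit 89912407⟩, ⟨nat_lit 16, nat_lit 69, nat_lit 100, nat_lit 96, nat_lit 247050679⟩, ⟨nat_lit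 19, nat_lit 100, nat_lit 21, nat_lit 94, nat_lit 147155821⟩]⟩
noncomputable def p076_l111 : Lf2 := ⟨nat_lit 0, nat_lit 10, [nat_lit 0, nat_lit 5, nat_lit 5, nat_lit 20], false, nat_lit 160, nat_lit 256, nat_lit 160, nat_lit 396, ⟨nat_lit 264, nat_lit 736, nat_lit 0, nat_lit 6, nat_lit 233, nat_lit 736, nat_lit 161, nat_lit 0, nat_lit 0, nat_lit 0, nat_lit 0, nat_lit 0, nat_lit 42524123, nat_lit 15758027, nat_lit 8717850, nat_lit 4805000, false, true⟩,
 nat_lit 0, nat_lit 4250, nat_lit 0, nat_lit 0, nat_lit 3635, nat_lit 2280, nat_lit 294, nat_lit 0, nat_lit 0, nat_lit 0, nat_lit 0, nat_lit 0, nat_lit 0, nat_lit 0, nat_lit 0, nat_lit 294400, nat_lit 0, nat_lit 0, [(nat_lit 21, [(nat_lit 1, nat_lit 736)])],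
 ⟨p076_k27, nat_lit 0, nat_lit 0, nat_lit 210, nat_lit 0, nat_lit 548788, [nat_lit 1533875200, nat_lit 2329856000], [], [nat_lit 23159121575, nat_lit 23401991090, nat_lit 25542678308, nat_lit 25774619669, nat_lit 25268219110, nat_lit 25497074392, nat_lit 27477727473, nat_lit 27676674719], nat_lit 1271250, nat_lit 1271250, nat_lit 1271250, nat_lit 1271250, nat_lit 1100001, nat_lit 1922000, [nat_lit 490000, nat_lit 1100000], [nat_lit 24, nat_lit 40, nat_lit 40, nat_lit 80, nat_lit 33, nat_lit 203, nat_lit 0, nat_lit 7]⟩, ⟨p076_k25, nat_lit 0, nat_lit 0, nat_lit 141, nat_lit 0, nat_lit 0, [nat_lit 2103552000, nat_lit 3134208000, nat_lit 3711312000], [], [nat_lit 3893985312, nat_lit 4091450256, nat_lit 5543669684, nat_lit 5672399079, nat_lit 8199947823, nat_lit 8216013634, nat_lit 8939390471, nat_lit 8939040391], nat_lit 0, nat_lit 0, nat_lit 0, nat_lit 0, nat_lit 0, nat_lit 0, [], [nat_lit 62, nat_lit 40, nat_lit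 40, nat_lit 80, nat_lit 58, nat_lit 456, nat_lit 225, nat_lit 10]⟩,
 ⟨nat_lit 3162, nat_lit 3355, ⟨.ofNat (nat_lit 517769), .ofNat (nat_lit 629126), .ofNat (nat_lit 539816), .ofNat (nat_lit 651173), .ofNat (nat_lit 516642), .ofNat (nat_lit 626358), .ofNat (nat_lit 538797), .ofNat (nat_lit 648513)⟩, ⟨.ofNat (nat_lit 305848), .ofNat (nat_lit 454324), .ofNat (nat_lit 349943), .ofNat (nat_lit 498420), .ofNat (nat_lit 306116), .ofNat (nat_lit 452404), .ofNat (nat_lit 350426), .ofNat (nat_lit 496714)⟩⟩, [⟨nat_lit 13, nat_lit 61, nat_lit 92, nat_lit 100, nat_lit 92476347⟩, ⟨nat_lit 16, nat_lit 66, nat_lit 100, nat_lit 95, nat_lit 247017305⟩, ⟨nat_lit 19, nat_lit 100, nat_lit 21, nat_lit 94, nat_lit 141876852⟩]⟩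
noncomputable def p076_l112 : Lf2 := ⟨nat_lit 0, nat_lit 10, [nat_lit 0, nat_lit 5, nat_lit 5, nat_lit 20], false, nat_lit 160, nat_lit 264, nat_lit 160, nat_lit 392, ⟨nat_lit 1000, nat_lit 0, nat_lit 0, nat_lit 0, nat_lit 0, nat_lit 0, nat_lit 0, nat_lit 0, nat_lit 0, nat_lit 0, nat_lit 0, nat_lit 0, nat_lit 0, nat_lit 0, nat_lit 0, nat_lit 0, false, false⟩,
 nat_lit 0, nat_lit 5324, nat_lit 0, nat_lit 0, nat_lit 4471, nat_lit 9219, nat_lit 1110, nat_lit 0, nat_lit 0, nat_lit 0, nat_lit 0, nat_lit 0, nat_lit 0, nat_lit 0, nat_lit 0, nat_lit 0, nat_lit 0, nat_lit 0, [],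
 ⟨p076_k26, nat_lit 0, nat_lit 0, nat_lit 235, nat_lit 0, nat_lit 581918, [nat_lit 2032000001, nat_lit 4688000000], [], [nat_lit 22619873840, nat_lit 23211762829, nat_lit 26964479262, nat_lit 27602214665, nat_lit 25303079055, nat_lit 25795205034, nat_lit 29261097996, nat_lit 29786322092], nat_lit 1271250, nat_lit 1271250, nat_lit 1271250, nat_lit 1271250, nat_lit 1100001, nat_lit 1990500, [nat_lit 490000, nat_lit 1100000], [nat_lit 24, nat_lit 40, nat_lit 40, nat_lit 80, nat_lit 33, nat_lit 203, nat_lit 0, nat_lit 7]⟩, ⟨p076_k23, nat_lit 0, nat_lit 0, nat_lit 137, nat_lit 0, nat_lit 0, [nat_lit 7968000000, nat_lit 11872000000, nat_lit 14058000000], [], [nat_lit 14678149438, nat_lit 15440326220, nat_lit 23321790387, nat_lit 23711909248, nat_lit 30530578054, nat_lit 30580363749, nat_lit 35820575568, nat_lit 35751033908], nat_lit 0, nat_lit 0, nat_lit 0, nat_lit 0, nat_lit 0, nat_lit 0, [], [nat_lit 62, nat_lit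 40, nat_lit 40, nat_lit 80, nat_lit 58, nat_lit 483, nat_lit 250, nat_lit 11]⟩,
 zbF0, [⟨nat_lit 16, nat_lit 69, nat_lit 100, nat_lit 96, nat_lit 476830282⟩, ⟨nat_lit 19, nat_lit 100, nat_lit 31, nat_lit 92, nat_lit 555936306⟩]⟩
noncomputable def b_V_800_400_20_2 : St := ⟨true, nat_lit 1, nat_lit 0, nat_lit 1, nat_lit 120, nat_lit 320, nat_lit 360, nat_lit 160, nat_lit 200, nat_lit 16, nat_lit 360, nat_lit 80, nat_lit 120, nat_lit 160, nat_lit 300, nat_lit 0, nat_lit 396, nat_lit 0, nat_lit 40, nat_lit 0, nat_lit 0, nat_lit 0, nat_lit 0⟩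
theorem d_V_800_400_20_2 (h : EB TB.env) : Dead b_V_800_400_20_2 := chkB_sound0 h (T :=
(.spl (nat_lit 2) (nat_lit 160)
(.spl (nat_lit 2) (nat_lit 80)
(.trX (nat_lit 23) (nat_lit 100) (nat_lit 44) (nat_lit 82) (nat_lit 384) (.leaf p076_l96))
(.spl (nat_lit 0) (nat_lit 340)
(.leaf p076_l97)
(.trX (nat_lit 16) (nat_lit 77) (nat_lit 100) (nat_lit 99) (nat_lit 276) (.leaf p076_l98))))
(.spl (nat_lit 0) (nat_lit 340)
(.spl (nat_lit 2) (nat_lit 240)
(.leaf p076_l99)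
(.spl (nat_lit 5) (nat_lit 160)
(.leaf p076_l100)
(.spl (nat_lit 0) (nat_lit 330)
(.spl (nat_lit 6) (nat_lit 32)
(.leaf p076_l101)
(.leaf p076_l102))
(.trX (nat_lit 13) (nat_lit 76) (nat_lit 65) (nat_lit 100) (nat_lit 352) (.trX (nat_lit 16) (nat_lit 83) (nat_lit 98) (nat_lit 100) (nat_lit 288) (.spl (nat_lit 0) (nat_lit 335)
(.leaf p076_l103)
(.trX (nat_lit 13) (nat_lit 74) (nat_lit 68) (nat_lit 100) (nat_lit 348) (.trX (nat_lit 16) (nat_lit 81) (nat_lit 100) (nat_lit 100) (nat_lit 284) (.leaf p076_l104)))))))))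
(.trX (nat_lit 13) (nat_lit 71) (nat_lit 70) (nat_lit 100) (nat_lit 344) (.trX (nat_lit 16) (nat_lit 77) (nat_lit 100) (nat_lit 99) (nat_lit 276) (.spl (nat_lit 2) (nat_lit 240)
(.spl (nat_lit 0) (nat_lit 350)
(.leaf p076_l105)
(.trX (nat_lit 16) (nat_lit 69) (nat_lit 100) (nat_lit 96) (nat_lit 264) (.leaf p076_l106)))
(.spl (nat_lit 5) (nat_lit 160)
(.leaf p076_l107)
(.spl (nat_lit 0) (nat_lit 350)
(.spl (nat_lit 0) (nat_lit 345)
(.leaf p076_l108)
(.trX (nat_lit 13) (nat_lit 69) (nat_lit 72) (nat_lit 100) (nat_lit 340) (.trX (nat_lit 16) (nat_lit 73) (nat_lit 100) (nat_lit 98) (nat_lit 272) (.leaf p076_l109))))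
(.trX (nat_lit 13) (nat_lit 66) (nat_lit 75) (nat_lit 100) (nat_lit 336) (.trX (nat_lit 16) (nat_lit 69) (nat_lit 100) (nat_lit 96) (nat_lit 264) (.spl (nat_lit 1) (nat_lit 180)
(.trX (nat_lit 13) (nat_lit 66) (nat_lit 82) (nat_lit 100) (nat_lit 320) (.spl (nat_lit 0) (nat_lit 355)
(.leaf p076_l110)
(.trX (nat_lit 13) (nat_lit 64) (nat_lit 84) (nat_lit 100) (nat_lit 312) (.trX (nat_lit 16) (nat_lit 66) (nat_lit 100) (nat_lit 95) (nat_lit 256) (.leaf p076_l111)))))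
(.trX (nat_lit 19) (nat_lit 100) (nat_lit 31) (nat_lit 92) (nat_lit 392) (.leaf p076_l112))))))))))))) (by decide +kernel)
noncomputable def p076_l113 : Lf2 := ⟨nat_lit 0, nat_lit 10, [nat_lit 0, nat_lit 5, nat_lit 5, nat_lit 20], false, nat_lit 0, nat_lit 160, nat_lit 0, nat_lit 396, ⟨nat_lit 0, nat_lit 0, nat_lit 1000, nat_lit 4, nat_lit 119, nat_lit 1000, nat_lit 65, nat_lit 1000, nat_lit 40017, nat_lit 264, nat_lit 132017, nat_lit 304, nat_lit 61553016, nat_lit 0, nat_lit 0, nat_lit 1409640, false, false⟩,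
 nat_lit 0, nat_lit 3427, nat_lit 0, nat_lit 0, nat_lit 2570, nat_lit 0, nat_lit 0, nat_lit 0, nat_lit 0, nat_lit 0, nat_lit 0, nat_lit 0, nat_lit 0, nat_lit 0, nat_lit 76, nat_lit 400000, nat_lit 0, nat_lit 0, [(nat_lit 18, [(nat_lit 5, nat_lit 1000)]), (nat_lit 21, [(nat_lit 5, nat_lit 1000)])],
 ⟨p076_k14, nat_lit 0, nat_lit 0, nat_lit 380, nat_lit 0, nat_lit 457180, [nat_lit 1693000001, nat_lit 251500000], [], [nat_lit 18404464588, nat_lit 20682858510, nat_lit 19764324245, nat_lit 21955570326, nat_lit 19671774565, nat_lit 21846682935, nat_lit 22985927723, nat_lit 23083010966], nat_lit 1271250, nat_lit 1271250, nat_lit 88400, nat_lit 1100001, nat_lit 0, nat_lit 1100001, [nat_lit 490000, nat_lit 1427500], [nat_lit 69, nat_lit 40, nat_lit 40, nat_lit 80, nat_lit 64, nat_lit 317, nat_lit 100, nat_lit 12]⟩, ⟨p076_k32, nat_lit 0, nat_lit 0, nat_lit 1105, nat_lit 0, nat_lit 1336372, [nat_lit 0, nat_lit 0],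 [], [nat_lit 0, nat_lit 0, nat_lit 0, nat_lit 0, nat_lit 0, nat_lit 0, nat_lit 0, nat_lit 0], nat_lit 1100001, nat_lit 1442500, nat_lit 88400, nat_lit 1100001, nat_lit 0, nat_lit 2796750, [nat_lit 1695000, nat_lit 1271250], [nat_lit 121, nat_lit 40, nat_lit 40, nat_lit 80, nat_lit 28, nat_lit 428, nat_lit 200, nat_lit 11]⟩,
 ⟨nat_lit 3162, nat_lit 4473, ⟨.ofNat (nat_lit 143971), .ofNat (nat_lit 388887), .ofNat (nat_lit 186943), .ofNat (nat_lit 431944), .ofNat (nat_lit 175109), .ofNat (nat_lit 394735), .ofNat (nat_lit 219258), .ofNat (nat_lit 438969)⟩, ⟨.ofNat (nat_lit 0), .ofNat (nat_lit 302621), .ofNat (nat_lit 0), .ofNat (nat_lit 345754), .ofNat (nat_lit 0), .ofNat (nat_lit 306116), .ofNat (nat_lit 0), .ofNat (nat_lit 350426)⟩⟩, [⟨nat_lit 0, nat_lit 100, nat_lit 60, nat_lit 80, nat_lit 13303167⟩, ⟨nat_lit 3, nat_lit 100, nat_lit 65, nat_lit 54, nat_lit 54396907⟩]⟩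
noncomputable def p076_l114 : Lf2 := ⟨nat_lit 0, nat_lit 10, [nat_lit 0, nat_lit 5, nat_lit 5, nat_lit 20], false, nat_lit 0, nat_lit 160, nat_lit 0, nat_lit 396, ⟨nat_lit 0, nat_lit 212, nat_lit 788, nat_lit 4, nat_lit 191, nat_lit 1000, nat_lit 65, nat_lit 788, nat_lit 40017, nat_lit 264, nat_lit 1350, nat_lit 224, nat_lit 54533725, nat_lit 12466275, nat_lit 0, nat_lit 2402322, false, true⟩,
 nat_lit 0, nat_lit 3761, nat_lit 0, nat_lit 0, nat_lit 2820, nat_lit 0, nat_lit 0, nat_lit 0, nat_lit 0, nat_lit 0, nat_lit 0, nat_lit 0, nat_lit 0, nat_lit 0, nat_lit 39, nat_lit 400000, nat_lit 0, nat_lit 0, [(nat_lit 18, [(nat_lit 1, nat_lit 212), (nat_lit 5, nat_lit 788)]), (nat_lit 21, [(nat_lit 1, nat_lit 212), (nat_lit 5, nat_lit 788)])],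
 ⟨p076_k18, nat_lit 0, nat_lit 0, nat_lit 309, nat_lit 0, nat_lit 457180, [nat_lit 1378753067, nat_lit 714701334, nat_lit 9592000], [], [nat_lit 20602178028, nat_lit 20711522135, nat_lit 20784433575, nat_lit 22731262375, nat_lit 19514144775, nat_lit 21325453362, nat_lit 22092846482, nat_lit 23290411415], nat_lit 1271250, nat_lit 1271250, nat_lit 1100001, nat_lit 1785000, nat_lit 0, nat_lit 1100001, [nat_lit 490000, nat_lit 1100000, nat_lit 1442500], [nat_lit 6, nat_lit 40, nat_lit 40, nat_lit 80, nat_lit 3, nat_lit 317, nat_lit 100, nat_lit 12]⟩, ⟨p076_k25, nat_lit 0, nat_lit 0, nat_lit 1006, nat_lit 0, nat_lit 1336372, [nat_lit 0, nat_lit 0, nat_lit 0], [], [nat_lit 0, nat_lit 0, nat_lit 0, nat_lit 0, nat_lit 0, nat_lit 0, nat_lit 0, nat_lit 0], nat_lit 1100001, nat_lit 1442500, nat_lit 1271250, nat_lit 1271250, nat_lit 0, nat_lit 2796750, [nat_lit 1695000, nat_lit 1271250, nat_lit 1271250], [nat_lit 62,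 nat_lit 40, nat_lit 40, nat_lit 80, nat_lit 58, nat_lit 456, nat_lit 225, nat_lit 11]⟩,
 ⟨nat_lit 3162, nat_lit 4473, ⟨.ofNat (nat_lit 388887), .ofNat (nat_lit 524844), .ofNat (nat_lit 431944), .ofNat (nat_lit 567977), .ofNat (nat_lit 394735), .ofNat (nat_lit 516642), .ofNat (nat_lit 438969), .ofNat (nat_lit 560952)⟩, ⟨.ofNat (nat_lit 0), .ofNat (nat_lit 302621), .ofNat (nat_lit 0), .ofNat (nat_lit 345754), .ofNat (nat_lit 0), .ofNat (nat_lit 306116), .ofNat (nat_lit 0), .ofNat (nat_lit 350426)⟩⟩, [⟨nat_lit 3, nat_lit 100, nat_lit 65, nat_lit 54, nat_lit 59587249⟩]⟩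
noncomputable def p076_l115 : Lf2 := ⟨nat_lit 0, nat_lit 10, [nat_lit 0, nat_lit 5, nat_lit 5, nat_lit 20], false, nat_lit 0, nat_lit 160, nat_lit 0, nat_lit 160, ⟨nat_lit 104, nat_lit 568, nat_lit 328, nat_lit 6, nat_lit 240, nat_lit 896, nat_lit 65, nat_lit 328, nat_lit 40017, nat_lit 264, nat_lit 93482, nat_lit 200, nat_lit 49265640, nat_lit 17734360, nat_lit 0, nat_lit 2889536, false, true⟩,
 nat_lit 4217, nat_lit 0, nat_lit 0, nat_lit 0, nat_lit 3162, nat_lit 1405, nat_lit 0, nat_lit 0, nat_lit 0, nat_lit 103, nat_lit 0, nat_lit 0, nat_lit 0, nat_lit 0, nat_lit 0, nat_lit 660200, nat_lit 0, nat_lit 0, [(nat_lit 18, [(nat_lit 1, nat_lit 65), (nat_lit 2, nat_lit 503), (nat_lit 5, nat_lit 328)])],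
 ⟨p076_k18, nat_lit 0, nat_lit 0, nat_lit 246, nat_lit 0, nat_lit 297999, [nat_lit 1462892000, nat_lit 1005396001, nat_lit 60816800], [], [nat_lit 22409727115, nat_lit 23354321051, nat_lit 25242987867, nat_lit 26051615723, nat_lit 22570185555, nat_lit 23380166383, nat_lit 25012908699, nat_lit 25712332611], nat_lit 1271250, nat_lit 1271250, nat_lit 1271250, nat_lit 1271250, nat_lit 0, nat_lit 1100001, [nat_lit 490000, nat_lit 1100000, nat_lit 1442500], [nat_lit 6, nat_lit 40, nat_lit 40, nat_lit 80, nat_lit 3, nat_lit 249, nat_lit 40, nat_lit 9]⟩, ⟨p076_k25, nat_lit 0, nat_lit 0, nat_lit 764, nat_lit 0, nat_lit 871074, [nat_lit 828672000, nat_lit 1234688000, nat_lit 1462032000], [], [nat_lit 4602175624, nat_lit 4560644946, nat_lit 4770509624, nat_lit 4715468870, nat_lit 3386442324, nat_lit 3342342706, nat_lit 3503349964, nat_lit 3447309270], nat_lit 1100001, nat_lit 1271250, nat_lit 1271250, nat_lit 1271250,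 nat_lit 0, nat_lit 1100001, [nat_lit 1695000, nat_lit 1271250, nat_lit 1271250], [nat_lit 62, nat_lit 40, nat_lit 40, nat_lit 80, nat_lit 58, nat_lit 401, nat_lit 175, nat_lit 9]⟩,
 ⟨nat_lit 3872, nat_lit 4473, ⟨.ofNat (nat_lit 524844), .ofNat (nat_lit 660800), .ofNat (nat_lit 546410), .ofNat (nat_lit 682366), .ofNat (nat_lit 520934), .ofNat (nat_lit 649977), .ofNat (nat_lit 542727), .ofNat (nat_lit 671770)⟩, ⟨.ofNat (nat_lit 0), .ofNat (nat_lit 302621), .ofNat (nat_lit 0), .ofNat (nat_lit 345754), .ofNat (nat_lit 0), .ofNat (nat_lit 304717), .ofNat (nat_lit 0), .ofNat (nat_lit 348304)⟩⟩, []⟩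
noncomputable def p076_l116 : Lf2 := ⟨nat_lit 0, nat_lit 10, [nat_lit 0, nat_lit 5, nat_lit 5, nat_lit 20], false, nat_lit 0, nat_lit 160, nat_lit 0, nat_lit 160, ⟨nat_lit 283, nat_lit 188, nat_lit 529, nat_lit 6, nat_lit 249, nat_lit 717, nat_lit 65, nat_lit 529, nat_lit 40017, nat_lit 264, nat_lit 136616, nat_lit 200, nat_lit 48324545, nat_lit 18675455, nat_lit 0, nat_lit 2958787, true, true⟩,
 nat_lit 7099, nat_lit 0, nat_lit 0, nat_lit 0, nat_lit 3148, nat_lit 2699, nat_lit 0, nat_lit 0, nat_lit 0, nat_lit 848, nat_lit 0, nat_lit 0, nat_lit 0, nat_lit 0, nat_lit 19, nat_lit 717000, nat_lit 0, nat_lit 0, [(nat_lit 18, [(nat_lit 2, nat_lit 188), (nat_lit 6, nat_lit 529)])],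
 ⟨p076_k18, nat_lit 0, nat_lit 0, nat_lit 250, nat_lit 0, nat_lit 312927, [nat_lit 1607605867, nat_lit 1171407734, nat_lit 1905200], [], [nat_lit 22023651517, nat_lit 22966611261, nat_lit 24853514525, nat_lit 26017214464, nat_lit 22195679277, nat_lit 23004401589, nat_lit 24667650130, nat_lit 25458900335], nat_lit 1271250, nat_lit 1271250, nat_lit 1271250, nat_lit 1271250, nat_lit 0, nat_lit 1100001, [nat_lit 490000, nat_lit 1100000, nat_lit 1442500], [nat_lit 6, nat_lit 40, nat_lit 40, nat_lit 80, nat_lit 3, nat_lit 249, nat_lit 40, nat_lit 9]⟩, ⟨p076_k23, nat_lit 0, nat_lit 0, nat_lit 692, nat_lit 0, nat_lit 760177, [nat_lit 2254944000, nat_lit 3359776000, nat_lit 3978414000], [], [nat_lit 10277208730, nat_lit 10229248988, nat_lit 10615934300, nat_lit 10546608564, nat_lit 9830885074, nat_lit 8559100080, nat_lit 8812130480, nat_lit 8753911324], nat_lit 1271250, nat_lit 1271250, nat_lit 1271250, nat_lit 1271250,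 nat_lit 0, nat_lit 1100001, [nat_lit 1695000, nat_lit 1271250, nat_lit 1271250], [nat_lit 62, nat_lit 40, nat_lit 40, nat_lit 80, nat_lit 58, nat_lit 401, nat_lit 175, nat_lit 9]⟩,
 ⟨nat_lit 3872, nat_lit 4473, ⟨.ofNat (nat_lit 546410), .ofNat (nat_lit 682366), .ofNat (nat_lit 567977), .ofNat (nat_lit 703933), .ofNat (nat_lit 542727), .ofNat (nat_lit 671770), .ofNat (nat_lit 564520), .ofNat (nat_lit 693563)⟩, ⟨.ofNat (nat_lit 0), .ofNat (nat_lit 302621), .ofNat (nat_lit 0), .ofNat (nat_lit 345754), .ofNat (nat_lit 0), .ofNat (nat_lit 304717), .ofNat (nat_lit 0), .ofNat (nat_lit 348304)⟩⟩, []⟩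
noncomputable def p076_l117 : Lf2 := ⟨nat_lit 0, nat_lit 10, [nat_lit 0, nat_lit 5, nat_lit 5, nat_lit 20], false, nat_lit 0, nat_lit 160, nat_lit 160, nat_lit 384, ⟨nat_lit 104, nat_lit 400, nat_lit 496, nat_lit 6, nat_lit 240, nat_lit 896, nat_lit 65, nat_lit 496, nat_lit 40017, nat_lit 264, nat_lit 93482, nat_lit 200, nat_lit 49265640, nat_lit 17734360, nat_lit 0, nat_lit 2889536, false, true⟩,
 nat_lit 4157, nat_lit 0, nat_lit 0, nat_lit 0, nat_lit 3117, nat_lit 1385, nat_lit 0, nat_lit 0, nat_lit 0, nat_lit 93, nat_lit 0, nat_lit 0, nat_lit 0, nat_lit 0, nat_lit 26, nat_lit 656000, nat_lit 0, nat_lit 0, [(nat_lit 18, [(nat_lit 1, nat_lit 400), (nat_lit 6, nat_lit 496)])],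
 ⟨p076_k18, nat_lit 0, nat_lit 0, nat_lit 246, nat_lit 0, nat_lit 297999, [nat_lit 1504209067, nat_lit 1075310934, nat_lit 19523200], [], [nat_lit 21317852561, nat_lit 22257193737, nat_lit 24651878812, nat_lit 25948755056, nat_lit 21515498101, nat_lit 22321433699, nat_lit 24022090614, nat_lit 24850585885], nat_lit 1271250, nat_lit 1271250, nat_lit 1271250, nat_lit 1271250, nat_lit 0, nat_lit 1100001, [nat_lit 490000, nat_lit 1100000, nat_lit 1442500], [nat_lit 6, nat_lit 40, nat_lit 40, nat_lit 80, nat_lit 3, nat_lit 249, nat_lit 40, nat_lit 9]⟩, ⟨p076_k25, nat_lit 0, nat_lit 0, nat_lit 634, nat_lit 0, nat_lit 871074, [nat_lit 828672000, nat_lit 1234688000, nat_lit 1462032000], [], [nat_lit 3441738244, nat_lit 3398782186, nat_lit 3559319964, nat_lit 3504568510, nat_lit 3796998649, nat_lit 3753696681, nat_lit 4034356365, nat_lit 3985752126], nat_lit 1100001, nat_lit 1271250, nat_lit 1271250, nat_lit 1271250,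 nat_lit 1271250, nat_lit 1271250, [nat_lit 1695000, nat_lit 1271250, nat_lit 1271250], [nat_lit 62, nat_lit 40, nat_lit 40, nat_lit 80, nat_lit 58, nat_lit 456, nat_lit 225, nat_lit 10]⟩,
 ⟨nat_lit 3872, nat_lit 4473, ⟨.ofNat (nat_lit 524844), .ofNat (nat_lit 660800), .ofNat (nat_lit 546410), .ofNat (nat_lit 682366), .ofNat (nat_lit 520934), .ofNat (nat_lit 649977), .ofNat (nat_lit 542727), .ofNat (nat_lit 671770)⟩, ⟨.ofNat (nat_lit 0), .ofNat (nat_lit 302621), .ofNat (nat_lit 0), .ofNat (nat_lit 345754), .ofNat (nat_lit 0), .ofNat (nat_lit 304717), .ofNat (nat_lit 0), .ofNat (nat_lit 348304)⟩⟩, [⟨nat_lit 10, nat_lit 100, nat_lit 91, nat_lit 86, nat_lit 45917698⟩]⟩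
noncomputable def p076_l118 : Lf2 := ⟨nat_lit 0, nat_lit 10, [nat_lit 0, nat_lit 5, nat_lit 5, nat_lit 20], false, nat_lit 0, nat_lit 160, nat_lit 160, nat_lit 384, ⟨nat_lit 194, nat_lit 182, nat_lit 624, nat_lit 6, nat_lit 249, nat_lit 806, nat_lit 65, nat_lit 624, nat_lit 40017, nat_lit 264, nat_lit 136616, nat_lit 200, nat_lit 48324545, nat_lit 18675455, nat_lit 0, nat_lit 2958787, true, true⟩,
 nat_lit 4917, nat_lit 0, nat_lit 0, nat_lit 0, nat_lit 3356, nat_lit 1869, nat_lit 0, nat_lit 0, nat_lit 0, nat_lit 561, nat_lit 0, nat_lit 0, nat_lit 0, nat_lit 0, nat_lit 0, nat_lit 425000, nat_lit 0, nat_lit 0, [(nat_lit 18, [(nat_lit 1, nat_lit 11), (nat_lit 2, nat_lit 171), (nat_lit 5, nat_lit 624)])],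
 ⟨p076_k18, nat_lit 0, nat_lit 0, nat_lit 250, nat_lit 0, nat_lit 312927, [nat_lit 1280177867, nat_lit 851521334, nat_lit 219036800], [], [nat_lit 21582108337, nat_lit 22442057137, nat_lit 25136053616, nat_lit 26476555008, nat_lit 21364669249, nat_lit 22128105199, nat_lit 23753921917, nat_lit 24466125773], nat_lit 1271250, nat_lit 1271250, nat_lit 1271250, nat_lit 1271250, nat_lit 0, nat_lit 1100001, [nat_lit 490000, nat_lit 1100000, nat_lit 1442500], [nat_lit 6, nat_lit 40, nat_lit 40, nat_lit 80, nat_lit 3, nat_lit 249, nat_lit 40, nat_lit 9]⟩, ⟨p076_k23, nat_lit 0, nat_lit 0, nat_lit 575, nat_lit 0, nat_lit 760177, [nat_lit 1545792000, nat_lit 2303168000, nat_lit 2727252000], [], [nat_lit 5593089783, nat_lit 5547864278, nat_lit 5779872827, nat_lit 5724903903, nat_lit 6217493543, nat_lit 6197911067, nat_lit 6692349792, nat_lit 6647435607], nat_lit 1271250, nat_lit 1271250, nat_lit 1271250, nat_lit 1271250,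 nat_lit 1271250, nat_lit 1271250, [nat_lit 1695000, nat_lit 1271250, nat_lit 1271250], [nat_lit 62, nat_lit 40, nat_lit 40, nat_lit 80, nat_lit 58, nat_lit 483, nat_lit 250, nat_lit 11]⟩,
 ⟨nat_lit 3872, nat_lit 4473, ⟨.ofNat (nat_lit 546410), .ofNat (nat_lit 682366), .ofNat (nat_lit 567977), .ofNat (nat_lit 703933), .ofNat (nat_lit 542727), .ofNat (nat_lit 671770), .ofNat (nat_lit 564520), .ofNat (nat_lit 693563)⟩, ⟨.ofNat (nat_lit 0), .ofNat (nat_lit 302621), .ofNat (nat_lit 0), .ofNat (nat_lit 345754), .ofNat (nat_lit 0), .ofNat (nat_lit 304717), .ofNat (nat_lit 0), .ofNat (nat_lit 348304)⟩⟩, [⟨nat_lit 10, nat_lit 100, nat_lit 91, nat_lit 86, nat_lit 86097465⟩]⟩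
noncomputable def p076_l119 : Lf2 := ⟨nat_lit 0, nat_lit 10, [nat_lit 0, nat_lit 5, nat_lit 5, nat_lit 20], false, nat_lit 0, nat_lit 160, nat_lit 0, nat_lit 336, ⟨nat_lit 135, nat_lit 865, nat_lit 0, nat_lit 8, nat_lit 285, nat_lit 865, nat_lit 65, nat_lit 0, nat_lit 0, nat_lit 0, nat_lit 0, nat_lit 0, nat_lit 44406620, nat_lit 22593380, nat_lit 0, nat_lit 3195852, true, true⟩,
 nat_lit 4938, nat_lit 0, nat_lit 0, nat_lit 0, nat_lit 3703, nat_lit 1646, nat_lit 0, nat_lit 0, nat_lit 0, nat_lit 114, nat_lit 0, nat_lit 0, nat_lit 0, nat_lit 0, nat_lit 0, nat_lit 662200, nat_lit 0, nat_lit 0, [(nat_lit 18, [(nat_lit 1, nat_lit 338), (nat_lit 2, nat_lit 527)])],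
 ⟨p076_k18, nat_lit 0, nat_lit 0, nat_lit 239, nat_lit 0, nat_lit 242934, [nat_lit 1643772801, nat_lit 1848504001, nat_lit 1272934000], [], [nat_lit 26177368083, nat_lit 26620693255, nat_lit 28646698700, nat_lit 29268094929, nat_lit 25429620043, nat_lit 25810488297, nat_lit 27019081596, nat_lit 27387251750], nat_lit 1271250, nat_lit 1271250, nat_lit 1271250, nat_lit 1271250, nat_lit 0, nat_lit 1100001, [nat_lit 490000, nat_lit 1100000, nat_lit 1442500], [nat_lit 6, nat_lit 40, nat_lit 40, nat_lit 80, nat_lit 3, nat_lit 249, nat_lit 40, nat_lit 8]⟩, ⟨p076_k25, nat_lit 0, nat_lit 0, nat_lit 664, nat_lit 0, nat_lit 710114, [nat_lit 1075680000, nat_lit 1602720000, nat_lit 1897830000], [], [nat_lit 6500754760, nat_lit 6380311752, nat_lit 6690533456, nat_lit 6551483336, nat_lit 4982868492, nat_lit 4854769700, nat_lit 5159934788, nat_lit 5042727785], nat_lit 1100001, nat_lit 1442500, nat_lit 1271250, nat_lit 1271250,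 nat_lit 0, nat_lit 2373000, [nat_lit 1695000, nat_lit 1271250, nat_lit 1271250], [nat_lit 62, nat_lit 40, nat_lit 40, nat_lit 80, nat_lit 58, nat_lit 456, nat_lit 225, nat_lit 10]⟩,
 ⟨nat_lit 4183, nat_lit 4473, ⟨.ofNat (nat_lit 660800), .ofNat (nat_lit 728778), .ofNat (nat_lit 703933), .ofNat (nat_lit 771911), .ofNat (nat_lit 655432), .ofNat (nat_lit 721688), .ofNat (nat_lit 698765), .ofNat (nat_lit 765021)⟩, ⟨.ofNat (nat_lit 0), .ofNat (nat_lit 302621), .ofNat (nat_lit 0), .ofNat (nat_lit 345754), .ofNat (nat_lit 0), .ofNat (nat_lit 303743), .ofNat (nat_lit 0), .ofNat (nat_lit 347076)⟩⟩, [⟨nat_lit 13, nat_lit 78, nat_lit 70, nat_lit 100, nat_lit 154891862⟩, ⟨nat_lit 22, nat_lit 72, nat_lit 100, nat_lit 81, nat_lit 4903172⟩]⟩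
noncomputable def p076_l120 : Lf2 := ⟨nat_lit 0, nat_lit 10, [nat_lit 0, nat_lit 5, nat_lit 5, nat_lit 20], false, nat_lit 0, nat_lit 80, nat_lit 0, nat_lit 260, ⟨nat_lit 121, nat_lit 879, nat_lit 0, nat_lit 8, nat_lit 280, nat_lit 879, nat_lit 37, nat_lit 0, nat_lit 0, nat_lit 0, nat_lit 0, nat_lit 0, nat_lit 44941534, nat_lit 22058466, nat_lit 0, nat_lit 3168162, true, true⟩,
 nat_lit 4489, nat_lit 0, nat_lit 0, nat_lit 0, nat_lit 3499, nat_lit 1496, nat_lit 0, nat_lit 0, nat_lit 0, nat_lit 101, nat_lit 0, nat_lit 0, nat_lit 0, nat_lit 0, nat_lit 0, nat_lit 746400, nat_lit 0, nat_lit 0, [(nat_lit 18, [(nat_lit 1, nat_lit 221), (nat_lit 2, nat_lit 658)])],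
 ⟨p076_k22, nat_lit 0, nat_lit 0, nat_lit 255, nat_lit 0, nat_lit 298449, [nat_lit 1674687734, nat_lit 1689710667, nat_lit 897961200], [], [nat_lit 27161750119, nat_lit 27580704675, nat_lit 28472825171, nat_lit 28862200199, nat_lit 26148328542, nat_lit 26543766585, nat_lit 27386609031, nat_lit 27754925826], nat_lit 1271250, nat_lit 1271250, nat_lit 1271250, nat_lit 1271250, nat_lit 0, nat_lit 490000, [nat_lit 490000, nat_lit 1100000, nat_lit 1442500], [nat_lit 6, nat_lit 40, nat_lit 40, nat_lit 80, nat_lit 3, nat_lit 226, nat_lit 20, nat_lit 7]⟩, ⟨p076_k25, nat_lit 0, nat_lit 0, nat_lit 764, nat_lit 0, nat_lit 914708, [nat_lit 964128000, nat_lit 1436512000, nat_lit 1701018000], [], [nat_lit 5790719176, nat_lit 5680064280, nat_lit 5927519682, nat_lit 5803361996, nat_lit 4299089113, nat_lit 4168113598, nat_lit 4376281618, nat_lit 4272437642], nat_lit 1100001, nat_lit 1442500, nat_lit 1271250, nat_lit 1271250,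 nat_lit 0, nat_lit 1836250, [nat_lit 1695000, nat_lit 1271250, nat_lit 1271250], [nat_lit 62, nat_lit 40, nat_lit 40, nat_lit 80, nat_lit 58, nat_lit 456, nat_lit 225, nat_lit 10]⟩,
 ⟨nat_lit 3872, nat_lit 4184, ⟨.ofNat (nat_lit 655432), .ofNat (nat_lit 708436), .ofNat (nat_lit 698765), .ofNat (nat_lit 751770), .ofNat (nat_lit 649977), .ofNat (nat_lit 701594), .ofNat (nat_lit 693563), .ofNat (nat_lit 745180)⟩, ⟨.ofNat (nat_lit 0), .ofNat (nat_lit 171231), .ofNat (nat_lit 0), .ofNat (nat_lit 200000), .ofNat (nat_lit 0), .ofNat (nat_lit 175674), .ofNat (nat_lit 0), .ofNat (nat_lit 200000)⟩⟩, [⟨nat_lit 13, nat_lit 74, nat_lit 75, nat_lit 100, nat_lit 181896253⟩, ⟨nat_lit 3, nat_lit 100, nat_lit 85, nat_lit 25, nat_lit 10988703⟩, ⟨nat_lit 3, nat_lit 100, nat_lit 78, nat_lit 39, nat_lit 32626269⟩]⟩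
noncomputable def p076_l121 : Lf2 := ⟨nat_lit 0, nat_lit 10, [nat_lit 0, nat_lit 5, nat_lit 5, nat_lit 20], true, nat_lit 80, nat_lit 160, nat_lit 0, nat_lit 336, ⟨nat_lit 0, nat_lit 1000, nat_lit 0, nat_lit 8, nat_lit 280, nat_lit 1000, nat_lit 103, nat_lit 0, nat_lit 0, nat_lit 0, nat_lit 0, nat_lit 0, nat_lit 41643100, nat_lit 21046670, nat_lit 4310230, nat_lit 4424591, true, true⟩,
 nat_lit 0, nat_lit 4300, nat_lit 0, nat_lit 0, nat_lit 3351, nat_lit 0, nat_lit 586, nat_lit 0, nat_lit 0, nat_lit 0, nat_lit 0, nat_lit 0, nat_lit 0, nat_lit 0, nat_lit 0, nat_lit 514000, nat_lit 0, nat_lit 0, [(nat_lit 18, [(nat_lit 1, nat_lit 810), (nat_lit 2, nat_lit 190)])],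
 ⟨p076_k22, nat_lit 0, nat_lit 0, nat_lit 245, nat_lit 0, nat_lit 439914, [nat_lit 1455842667, nat_lit 1791613334, nat_lit 1504040000], [], [nat_lit 24486265662, nat_lit 24875864069, nat_lit 25706680894, nat_lit 26069979629, nat_lit 24951610165, nat_lit 25307547403, nat_lit 26094253977, nat_lit 26457552712], nat_lit 1271250, nat_lit 1271250, nat_lit 1271250, nat_lit 1271250, nat_lit 490000, nat_lit 1100001, [nat_lit 490000, nat_lit 1100000, nat_lit 1442500], [nat_lit 6, nat_lit 40, nat_lit 40, nat_lit 80, nat_lit 3, nat_lit 249, nat_lit 40, nat_lit 8]⟩, C1.Rw.none,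
 ⟨nat_lit 3872, nat_lit 4184, ⟨.ofNat (nat_lit 655432), .ofNat (nat_lit 708436), .ofNat (nat_lit 698765), .ofNat (nat_lit 751770), .ofNat (nat_lit 649977), .ofNat (nat_lit 701594), .ofNat (nat_lit 693563), .ofNat (nat_lit 745180)⟩, ⟨.ofNat (nat_lit 171231), .ofNat (nat_lit 303743), .ofNat (nat_lit 200000), .ofNat (nat_lit 347076), .ofNat (nat_lit 175674), .ofNat (nat_lit 304717), .ofNat (nat_lit 200000), .ofNat (nat_lit 348304)⟩⟩, [⟨nat_lit 13, nat_lit 74, nat_lit 75, nat_lit 100, nat_lit 206714979⟩]⟩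
noncomputable def p076_l122 : Lf2 := ⟨nat_lit 0, nat_lit 10, [nat_lit 0, nat_lit 5, nat_lit 5, nat_lit 20], false, nat_lit 0, nat_lit 80, nat_lit 0, nat_lit 160, ⟨nat_lit 95, nat_lit 905, nat_lit 0, nat_lit 6, nat_lit 241, nat_lit 905, nat_lit 38, nat_lit 0, nat_lit 0, nat_lit 0, nat_lit 0, nat_lit 0, nat_lit 49181123, nat_lit 17818877, nat_lit 0, nat_lit 2895960, false, true⟩,
 nat_lit 3750, nat_lit 0, nat_lit 0, nat_lit 0, nat_lit 3035, nat_lit 1249, nat_lit 484, nat_lit 0, nat_lit 0, nat_lit 90, nat_lit 0, nat_lit 0, nat_lit 0, nat_lit 0, nat_lit 0, nat_lit 362000, nat_lit 0, nat_lit 0, [(nat_lit 21, [(nat_lit 1, nat_lit 905)])],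
 ⟨p076_k24, nat_lit 0, nat_lit 0, nat_lit 302, nat_lit 0, nat_lit 415286, [nat_lit 1419496000, nat_lit 1796344001, nat_lit 1944010000], [], [nat_lit 23181512172, nat_lit 24143166222, nat_lit 26774408998, nat_lit 27737924948, nat_lit 22691279682, nat_lit 23594864142, nat_lit 26088575497, nat_lit 26997233777], nat_lit 1271250, nat_lit 1271250, nat_lit 1271250, nat_lit 1271250, nat_lit 0, nat_lit 490000, [nat_lit 490000, nat_lit 1100000, nat_lit 1442500], [nat_lit 6, nat_lit 40, nat_lit 40, nat_lit 80, nat_lit 3, nat_lit 226, nat_lit 20, nat_lit 8]⟩, ⟨p076_k25, nat_lit 0, nat_lit 0, nat_lit 972, nat_lit 0, nat_lit 1332749, [nat_lit 756960000, nat_lit 1127840000, nat_lit 1335510000], [], [nat_lit 4273800088, nat_lit 4227424284, nat_lit 4458594352, nat_lit 4408198534, nat_lit 3224149268, nat_lit 3168784380, nat_lit 3328863327, nat_lit 3278086923], nat_lit 1100001, nat_lit 1271250, nat_lit 1271250, nat_lit 1271250,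 nat_lit 0, nat_lit 1100001, [nat_lit 1695000, nat_lit 1271250, nat_lit 1271250], [nat_lit 62, nat_lit 40, nat_lit 40, nat_lit 80, nat_lit 58, nat_lit 401, nat_lit 175, nat_lit 9]⟩,
 ⟨nat_lit 3162, nat_lit 3873, ⟨.ofNat (nat_lit 520934), .ofNat (nat_lit 669333), .ofNat (nat_lit 542727), .ofNat (nat_lit 691126), .ofNat (nat_lit 516642), .ofNat (nat_lit 656835), .ofNat (nat_lit 538797), .ofNat (nat_lit 678990)⟩, ⟨.ofNat (nat_lit 0), .ofNat (nat_lit 175674), .ofNat (nat_lit 0), .ofNat (nat_lit 200000), .ofNat (nat_lit 0), .ofNat (nat_lit 184209), .ofNat (nat_lit 0), .ofNat (nat_lit 200000)⟩⟩, [⟨nat_lit 13, nat_lit 67, nat_lit 85, nat_lit 100, nat_lit 186597790⟩, ⟨nat_lit 3, nat_lit 100, nat_lit 65, nat_lit 54, nat_lit 51378216⟩]⟩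
noncomputable def p076_l123 : Lf2 := ⟨nat_lit 0, nat_lit 10, [nat_lit 0, nat_lit 5, nat_lit 5, nat_lit 20], false, nat_lit 0, nat_lit 80, nat_lit 0, nat_lit 160, ⟨nat_lit 194, nat_lit 806, nat_lit 0, nat_lit 6, nat_lit 253, nat_lit 806, nat_lit 38, nat_lit 0, nat_lit 0, nat_lit 0, nat_lit 0, nat_lit 0, nat_lit 47820297, nat_lit 19179703, nat_lit 0, nat_lit 2993862, true, true⟩,
 nat_lit 4785, nat_lit 0, nat_lit 0, nat_lit 0, nat_lit 3223, nat_lit 1819, nat_lit 318, nat_lit 0, nat_lit 0, nat_lit 532, nat_lit 0, nat_lit 0, nat_lit 0, nat_lit 0, nat_lit 0, nat_lit 322400, nat_lit 0, nat_lit 0, [(nat_lit 21, [(nat_lit 1, nat_lit 806)])],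
 ⟨p076_k24, nat_lit 0, nat_lit 0, nat_lit 305, nat_lit 0, nat_lit 416415, [nat_lit 1486499201, nat_lit 2112668801, nat_lit 2415052000], [], [nat_lit 24407456182, nat_lit 25336255404, nat_lit 28108059267, nat_lit 28906885357, nat_lit 23775214624, nat_lit 24649668597, nat_lit 27302366853, nat_lit 28056906854], nat_lit 1271250, nat_lit 1271250, nat_lit 1271250, nat_lit 1271250, nat_lit 0, nat_lit 490000, [nat_lit 490000, nat_lit 1100000, nat_lit 1442500], [nat_lit 6, nat_lit 40, nat_lit 40, nat_lit 80, nat_lit 3, nat_lit 226, nat_lit 20, nat_lit 8]⟩, ⟨p076_k23, nat_lit 0, nat_lit 0, nat_lit 857, nat_lit 0, nat_lit 1110604, [nat_lit 1545792000, nat_lit 2303168000, nat_lit 2727252000], [], [nat_lit 7506458260, nat_lit 7458949580, nat_lit 7722803652, nat_lit 7669361944, nat_lit 6763426130, nat_lit 6322967068, nat_lit 6531036424, nat_lit 6474546121], nat_lit 1271250, nat_lit 1271250, nat_lit 1271250, nat_lit 1271250,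 nat_lit 0, nat_lit 1100001, [nat_lit 1695000, nat_lit 1271250, nat_lit 1271250], [nat_lit 62, nat_lit 40, nat_lit 40, nat_lit 80, nat_lit 58, nat_lit 428, nat_lit 200, nat_lit 10]⟩,
 ⟨nat_lit 3162, nat_lit 3873, ⟨.ofNat (nat_lit 542727), .ofNat (nat_lit 710483), .ofNat (nat_lit 564520), .ofNat (nat_lit 732276), .ofNat (nat_lit 538797), .ofNat (nat_lit 697276), .ofNat (nat_lit 560952), .ofNat (nat_lit 719431)⟩, ⟨.ofNat (nat_lit 0), .ofNat (nat_lit 175674), .ofNat (nat_lit 0), .ofNat (nat_lit 200000), .ofNat (nat_lit 0), .ofNat (nat_lit 184209), .ofNat (nat_lit 0), .ofNat (nat_lit 200000)⟩⟩, [⟨nat_lit 13, nat_lit 60, nat_lit 86, nat_lit 100, nat_lit 111371067⟩, ⟨nat_lit 3, nat_lit 100, nat_lit 65, nat_lit 54, nat_lit 14767805⟩]⟩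
noncomputable def p076_l124 : Lf2 := ⟨nat_lit 0, nat_lit 10, [nat_lit 0, nat_lit 5, nat_lit 5, nat_lit 20], false, nat_lit 0, nat_lit 80, nat_lit 160, nat_lit 336, ⟨nat_lit 83, nat_lit 917, nat_lit 0, nat_lit 6, nat_lit 241, nat_lit 917, nat_lit 38, nat_lit 0, nat_lit 0, nat_lit 0, nat_lit 0, nat_lit 0, nat_lit 49181123, nat_lit 17818877, nat_lit 0, nat_lit 2895960, false, true⟩,
 nat_lit 3776, nat_lit 0, nat_lit 0, nat_lit 0, nat_lit 3056, nat_lit 1258, nat_lit 500, nat_lit 0, nat_lit 0, nat_lit 80, nat_lit 0, nat_lit 0, nat_lit 0, nat_lit 0, nat_lit 0, nat_lit 366800, nat_lit 0, nat_lit 0, [(nat_lit 21, [(nat_lit 1, nat_lit 917)])],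
 ⟨p076_k24, nat_lit 0, nat_lit 0, nat_lit 302, nat_lit 0, nat_lit 415286, [nat_lit 1411374400, nat_lit 1758001601, nat_lit 1886914000], [], [nat_lit 22943134074, nat_lit 23973495189, nat_lit 26694295676, nat_lit 27787198490, nat_lit 22440922890, nat_lit 23416835765, nat_lit 25995251916, nat_lit 26906260922], nat_lit 1271250, nat_lit 1271250, nat_lit 1271250, nat_lit 1271250, nat_lit 0, nat_lit 490000, [nat_lit 490000, nat_lit 1100000, nat_lit 1442500], [nat_lit 6, nat_lit 40, nat_lit 40, nat_lit 80, nat_lit 3, nat_lit 226, nat_lit 20, nat_lit 8]⟩, ⟨p076_k25, nat_lit 0, nat_lit 0, nat_lit 854, nat_lit 0, nat_lit 1332749, [nat_lit 661344000, nat_lit 985376000, nat_lit 1166814000], [], [nat_lit 2324688540, nat_lit 2281677310, nat_lit 2584270649, nat_lit 2549475742, nat_lit 2609539613, nat_lit 2580689052, nat_lit 2936824247, nat_lit 2888495768], nat_lit 1100001, nat_lit 1271250, nat_lit 1271250, nat_lit 1271250,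 nat_lit 1271250, nat_lit 1271250, [nat_lit 1695000, nat_lit 1271250, nat_lit 1271250], [nat_lit 62, nat_lit 40, nat_lit 40, nat_lit 80, nat_lit 58, nat_lit 456, nat_lit 225, nat_lit 10]⟩,
 ⟨nat_lit 3162, nat_lit 3873, ⟨.ofNat (nat_lit 520934), .ofNat (nat_lit 669333), .ofNat (nat_lit 542727), .ofNat (nat_lit 691126), .ofNat (nat_lit 516642), .ofNat (nat_lit 656835), .ofNat (nat_lit 538797), .ofNat (nat_lit 678990)⟩, ⟨.ofNat (nat_lit 0), .ofNat (nat_lit 175674), .ofNat (nat_lit 0), .ofNat (nat_lit 200000), .ofNat (nat_lit 0), .ofNat (nat_lit 184209), .ofNat (nat_lit 0), .ofNat (nat_lit 200000)⟩⟩, [⟨nat_lit 13, nat_lit 61, nat_lit 92, nat_lit 100, nat_lit 183169942⟩, ⟨nat_lit 22, nat_lit 93, nat_lit 100, nat_lit 65, nat_lit 47359006⟩]⟩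
noncomputable def p076_l125 : Lf2 := ⟨nat_lit 0, nat_lit 10, [nat_lit 0, nat_lit 5, nat_lit 5, nat_lit 20], false, nat_lit 0, nat_lit 80, nat_lit 160, nat_lit 336, ⟨nat_lit 182, nat_lit 818, nat_lit 0, nat_lit 6, nat_lit 253, nat_lit 818, nat_lit 38, nat_lit 0, nat_lit 0, nat_lit 0, nat_lit 0, nat_lit 0, nat_lit 47820297, nat_lit 19179703, nat_lit 0, nat_lit 2993862, true, true⟩,
 nat_lit 4956, nat_lit 0, nat_lit 0, nat_lit 0, nat_lit 3386, nat_lit 1884, nat_lit 261, nat_lit 0, nat_lit 0, nat_lit 547, nat_lit 0, nat_lit 0, nat_lit 0, nat_lit 0, nat_lit 0, nat_lit 423200, nat_lit 0, nat_lit 0, [(nat_lit 21, [(nat_lit 1, nat_lit 658), (nat_lit 2, nat_lit 160)])],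
 ⟨p076_k24, nat_lit 0, nat_lit 0, nat_lit 305, nat_lit 0, nat_lit 416415, [nat_lit 1485737600, nat_lit 1812374401, nat_lit 1937988000], [], [nat_lit 23642445597, nat_lit 24589617201, nat_lit 28067521577, nat_lit 29323041636, nat_lit 22916781241, nat_lit 23806621396, nat_lit 26490752963, nat_lit 27257718388], nat_lit 1271250, nat_lit 1271250, nat_lit 1271250, nat_lit 1271250, nat_lit 0, nat_lit 490000, [nat_lit 490000, nat_lit 1100000, nat_lit 1442500], [nat_lit 6, nat_lit 40, nat_lit 40, nat_lit 80, nat_lit 3, nat_lit 226, nat_lit 20, nat_lit 8]⟩, ⟨p076_k23, nat_lit 0, nat_lit 0, nat_lit 748, nat_lit 0, nat_lit 1110604, [nat_lit 1450176000, nat_lit 2160704000, nat_lit 2558556000], [], [nat_lit 4737738667, nat_lit 4696789712, nat_lit 5267550374, nat_lit 5232928710, nat_lit 5154369701, nat_lit 5109002737, nat_lit 5898351851, nat_lit 5859447935], nat_lit 1271250, nat_lit 1271250, nat_lit 1271250, nat_lit 1271250,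 nat_lit 1271250, nat_lit 1271250, [nat_lit 1695000, nat_lit 1271250, nat_lit 1271250], [nat_lit 62, nat_lit 40, nat_lit 40, nat_lit 80, nat_lit 58, nat_lit 456, nat_lit 225, nat_lit 10]⟩,
 ⟨nat_lit 3162, nat_lit 3873, ⟨.ofNat (nat_lit 542727), .ofNat (nat_lit 710483), .ofNat (nat_lit 564520), .ofNat (nat_lit 732276), .ofNat (nat_lit 538797), .ofNat (nat_lit 697276), .ofNat (nat_lit 560952), .ofNat (nat_lit 719431)⟩, ⟨.ofNat (nat_lit 0), .ofNat (nat_lit 175674), .ofNat (nat_lit 0), .ofNat (nat_lit 200000), .ofNat (nat_lit 0), .ofNat (nat_lit 184209), .ofNat (nat_lit 0), .ofNat (nat_lit 200000)⟩⟩, [⟨nat_lit 13, nat_lit 60, nat_lit 86, nat_lit 100, nat_lit 29998239⟩, ⟨nat_lit 22, nat_lit 90, nat_lit 100, nat_lit 61, nat_lit 108325041⟩]⟩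
noncomputable def p076_l126 : Lf2 := ⟨nat_lit 0, nat_lit 10, [nat_lit 0, nat_lit 5, nat_lit 5, nat_lit 20], false, nat_lit 80, nat_lit 160, nat_lit 0, nat_lit 384, ⟨nat_lit 0, nat_lit 1000, nat_lit 0, nat_lit 6, nat_lit 249, nat_lit 1000, nat_lit 103, nat_lit 0, nat_lit 0, nat_lit 0, nat_lit 0, nat_lit 0, nat_lit 44486143, nat_lit 17978890, nat_lit 4534967, nat_lit 4280516, false, true⟩,
 nat_lit 0, nat_lit 3865, nat_lit 0, nat_lit 0, nat_lit 3128, nat_lit 0, nat_lit 317, nat_lit 0, nat_lit 0, nat_lit 0, nat_lit 0, nat_lit 0, nat_lit 0, nat_lit 0, nat_lit 0, nat_lit 400000, nat_lit 0, nat_lit 0, [(nat_lit 21, [(nat_lit 1, nat_lit 1000)])],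
 ⟨p076_k24, nat_lit 0, nat_lit 0, nat_lit 241, nat_lit 0, nat_lit 416415, [nat_lit 1355200000, nat_lit 1492800001, nat_lit 1492000000], [], [nat_lit 21600019788, nat_lit 22573264428, nat_lit 25496780644, nat_lit 26444336877, nat_lit 22412340972, nat_lit 23297635500, nat_lit 26106416352, nat_lit 26971452653], nat_lit 1271250, nat_lit 1271250, nat_lit 1271250, nat_lit 1271250, nat_lit 490000, nat_lit 1100001, [nat_lit 490000, nat_lit 1100000, nat_lit 1442500], [nat_lit 6, nat_lit 40, nat_lit 40, nat_lit 80, nat_lit 3, nat_lit 249, nat_lit 40, nat_lit 8]⟩, ⟨p076_k25, nat_lit 0, nat_lit 0, nat_lit 973, nat_lit 0, nat_lit 1336372, [nat_lit 0, nat_lit 0, nat_lit 0], [], [nat_lit 0, nat_lit 0, nat_lit 0, nat_lit 0, nat_lit 0, nat_lit 0, nat_lit 0, nat_lit 0], nat_lit 1100001, nat_lit 1442500, nat_lit 1271250, nat_lit 1271250, nat_lit 0, nat_lit 2712000, [nat_lit 1695000, nat_lit 1271250, nat_lit 1271250], [nat_lit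 62, nat_lit 40, nat_lit 40, nat_lit 80, nat_lit 58, nat_lit 483, nat_lit 250, nat_lit 11]⟩,
 ⟨nat_lit 3162, nat_lit 3873, ⟨.ofNat (nat_lit 520934), .ofNat (nat_lit 688690), .ofNat (nat_lit 564520), .ofNat (nat_lit 732276), .ofNat (nat_lit 516642), .ofNat (nat_lit 675121), .ofNat (nat_lit 560952), .ofNat (nat_lit 719431)⟩, ⟨.ofNat (nat_lit 175674), .ofNat (nat_lit 304717), .ofNat (nat_lit 200000), .ofNat (nat_lit 348304), .ofNat (nat_lit 184209), .ofNat (nat_lit 306116), .ofNat (nat_lit 200000), .ofNat (nat_lit 350426)⟩⟩, [⟨nat_lit 13, nat_lit 66, nat_lit 82, nat_lit 100, nat_lit 240303813⟩]⟩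
noncomputable def b_V_800_400_20_3 : St := ⟨true, nat_lit 1, nat_lit 1, nat_lit 1, nat_lit 120, nat_lit 320, nat_lit 360, nat_lit 160, nat_lit 200, nat_lit 16, nat_lit 360, nat_lit 80, nat_lit 120, nat_lit 0, nat_lit 160, nat_lit 0, nat_lit 396, nat_lit 0, nat_lit 40, nat_lit 0, nat_lit 0, nat_lit 0, nat_lit 0⟩
theorem d_V_800_400_20_3 (h : EB TB.env) : Dead b_V_800_400_20_3 := chkB_sound0 h (T :=
(.spl (nat_lit 2) (nat_lit 160)
(.leaf p076_l113)
(.spl (nat_lit 2) (nat_lit 240)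
(.leaf p076_l114)
(.trX (nat_lit 22) (nat_lit 100) (nat_lit 40) (nat_lit 100) (nat_lit 384) (.spl (nat_lit 0) (nat_lit 340)
(.spl (nat_lit 2) (nat_lit 320)
(.spl (nat_lit 5) (nat_lit 160)
(.spl (nat_lit 1) (nat_lit 180)
(.leaf p076_l115)
(.leaf p076_l116))
(.spl (nat_lit 1) (nat_lit 180)
(.leaf p076_l117)
(.leaf p076_l118)))
(.trX (nat_lit 22) (nat_lit 82) (nat_lit 76) (nat_lit 100) (nat_lit 336) (.spl (nat_lit 0) (nat_lit 330)
(.leaf p076_l119)
(.trX (nat_lit 13) (nat_lit 76) (nat_lit 65) (nat_lit 100) (nat_lit 352) (.spl (nat_lit 4) (nat_lit 80)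
(.trX (nat_lit 22) (nat_lit 83) (nat_lit 100) (nat_lit 83) (nat_lit 260) (.leaf p076_l120))
(.leaf p076_l121))))))
(.trX (nat_lit 13) (nat_lit 71) (nat_lit 70) (nat_lit 100) (nat_lit 344) (.spl (nat_lit 4) (nat_lit 80)
(.trX (nat_lit 22) (nat_lit 100) (nat_lit 76) (nat_lit 82) (nat_lit 336) (.spl (nat_lit 5) (nat_lit 160)
(.spl (nat_lit 1) (nat_lit 180)
(.trX (nat_lit 13) (nat_lit 72) (nat_lit 77) (nat_lit 100) (nat_lit 332) (.leaf p076_l122))
(.leaf p076_l123))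
(.spl (nat_lit 1) (nat_lit 180)
(.trX (nat_lit 13) (nat_lit 72) (nat_lit 77) (nat_lit 100) (nat_lit 332) (.leaf p076_l124))
(.leaf p076_l125))))
(.leaf p076_l126)))))))) (by decide +kernel)
noncomputable def p076_l127 : Lf2 := ⟨nat_lit 0, nat_lit 10, [nat_lit 0, nat_lit 5, nat_lit 5, nat_lit 20], false, nat_lit 160, nat_lit 300, nat_lit 0, nat_lit 396, ⟨nat_lit 0, nat_lit 0, nat_lit 1000, nat_lit 4, nat_lit 119, nat_lit 1000, nat_lit 176, nat_lit 1000, nat_lit 1169, nat_lit 218, nat_lit 132017, nat_lit 304, nat_lit 50295512, nat_lit 0, nat_lit 0, nat_lit 3860240, false, false⟩,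
 nat_lit 0, nat_lit 3701, nat_lit 0, nat_lit 0, nat_lit 2775, nat_lit 0, nat_lit 0, nat_lit 0, nat_lit 0, nat_lit 0, nat_lit 0, nat_lit 0, nat_lit 0, nat_lit 0, nat_lit 77, nat_lit 406000, nat_lit 0, nat_lit 0, [(nat_lit 18, [(nat_lit 5, nat_lit 990), (nat_lit 6, nat_lit 10)]), (nat_lit 21, [(nat_lit 5, nat_lit 990), (nat_lit 6, nat_lit 10)])],
 ⟨p076_k18, nat_lit 0, nat_lit 0, nat_lit 292, nat_lit 0, nat_lit 457180, [nat_lit 1594421334, nat_lit 809742667, nat_lit 10844000], [], [nat_lit 18799450776, nat_lit 19878027150, nat_lit 18761850570, nat_lit 20934761570, nat_lit 22516598105, nat_lit 24945720830, nat_lit 25433411878, nat_lit 24988301120], nat_lit 1271250, nat_lit 1271250, nat_lit 88400, nat_lit 1100001, nat_lit 1100001, nat_lit 2298750, [nat_lit 490000, nat_lit 1100000, nat_lit 1442500], [nat_lit 6, nat_lit 40, nat_lit 40, nat_lit 80, nat_lit 3, nat_lit 345, nat_lit 125, nat_lit 13]⟩, ⟨p076_k25, nat_lit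 0, nat_lit 0, nat_lit 1108, nat_lit 0, nat_lit 1336372, [nat_lit 0, nat_lit 0, nat_lit 0], [], [nat_lit 0, nat_lit 0, nat_lit 0, nat_lit 0, nat_lit 0, nat_lit 0, nat_lit 0, nat_lit 0], nat_lit 1100001, nat_lit 1442500, nat_lit 88400, nat_lit 1100001, nat_lit 0, nat_lit 2796750, [nat_lit 1695000, nat_lit 1271250, nat_lit 1271250], [nat_lit 62, nat_lit 40, nat_lit 40, nat_lit 80, nat_lit 58, nat_lit 428, nat_lit 200, nat_lit 11]⟩,
 ⟨nat_lit 3162, nat_lit 4473, ⟨.ofNat (nat_lit 143971), .ofNat (nat_lit 388887), .ofNat (nat_lit 186943), .ofNat (nat_lit 431944), .ofNat (nat_lit 175109), .ofNat (nat_lit 394735), .ofNat (nat_lit 219258), .ofNat (nat_lit 438969)⟩, ⟨.ofNat (nat_lit 302621), .ofNat (nat_lit 540545), .ofNat (nat_lit 345754), .ofNat (nat_lit 583678), .ofNat (nat_lit 306116), .ofNat (nat_lit 519453), .ofNat (nat_lit 350426), .ofNat (nat_lit 563762)⟩⟩, [⟨nat_lit 16, nat_lit 87, nat_lit 95, nat_lit 100,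 nat_lit 200470831⟩]⟩
noncomputable def p076_l128 : Lf2 := ⟨nat_lit 0, nat_lit 10, [nat_lit 0, nat_lit 5, nat_lit 5, nat_lit 20], false, nat_lit 160, nat_lit 300, nat_lit 0, nat_lit 396, ⟨nat_lit 0, nat_lit 1000, nat_lit 0, nat_lit 4, nat_lit 191, nat_lit 1000, nat_lit 177, nat_lit 0, nat_lit 0, nat_lit 0, nat_lit 0, nat_lit 0, nat_lit 44804125, nat_lit 11802665, nat_lit 10393210, nat_lit 4646851, false, true⟩,
 nat_lit 0, nat_lit 4857, nat_lit 0, nat_lit 0, nat_lit 3642, nat_lit 0, nat_lit 0, nat_lit 0, nat_lit 0, nat_lit 0, nat_lit 0, nat_lit 0, nat_lit 0, nat_lit 0, nat_lit 0, nat_lit 679600, nat_lit 0, nat_lit 0, [(nat_lit 18, [(nat_lit 1, nat_lit 534), (nat_lit 2, nat_lit 466)])],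
 ⟨p076_k18, nat_lit 0, nat_lit 0, nat_lit 152, nat_lit 0, nat_lit 312927, [nat_lit 1539673067, nat_lit 1537325334, nat_lit 840536000], [], [nat_lit 18160881052, nat_lit 19427768844, nat_lit 20553722212, nat_lit 21659229660, nat_lit 22996763812, nat_lit 23974289277, nat_lit 25388940008, nat_lit 25577867990], nat_lit 1271250, nat_lit 1271250, nat_lit 1100001, nat_lit 1785000, nat_lit 1100001, nat_lit 2298750, [nat_lit 490000, nat_lit 1100000, nat_lit 1442500], [nat_lit 6, nat_lit 40, nat_lit 40, nat_lit 80, nat_lit 3, nat_lit 373, nat_lit 150, nat_lit 13]⟩, ⟨p076_k25, nat_lit 0, nat_lit 0, nat_lit 814, nat_lit 0, nat_lit 914708, [nat_lit 0, nat_lit 0, nat_lit 0], [], [nat_lit 0, nat_lit 0, nat_lit 0, nat_lit 0, nat_lit 0, nat_lit 0, nat_lit 0, nat_lit 0], nat_lit 1100001, nat_lit 1442500, nat_lit 1271250, nat_lit 1271250, nat_lit 0, nat_lit 2796750, [nat_lit 1695000, nat_lit 1271250, nat_lit 1271250], [nat_lit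 62, nat_lit 40, nat_lit 40, nat_lit 80, nat_lit 58, nat_lit 456, nat_lit 225, nat_lit 11]⟩,
 ⟨nat_lit 3872, nat_lit 4473, ⟨.ofNat (nat_lit 388887), .ofNat (nat_lit 524844), .ofNat (nat_lit 432013), .ofNat (nat_lit 567977), .ofNat (nat_lit 391890), .ofNat (nat_lit 520934), .ofNat (nat_lit 435470), .ofNat (nat_lit 564520)⟩, ⟨.ofNat (nat_lit 302621), .ofNat (nat_lit 540545), .ofNat (nat_lit 345754), .ofNat (nat_lit 583678), .ofNat (nat_lit 304717), .ofNat (nat_lit 530543), .ofNat (nat_lit 348304), .ofNat (nat_lit 574129)⟩⟩, [⟨nat_lit 16, nat_lit 81, nat_lit 100, nat_lit 92, nat_lit 166119105⟩]⟩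
noncomputable def p076_l129 : Lf2 := ⟨nat_lit 0, nat_lit 10, [nat_lit 0, nat_lit 5, nat_lit 5, nat_lit 20], false, nat_lit 160, nat_lit 300, nat_lit 0, nat_lit 396, ⟨nat_lit 0, nat_lit 1000, nat_lit 0, nat_lit 6, nat_lit 245, nat_lit 1000, nat_lit 177, nat_lit 0, nat_lit 0, nat_lit 0, nat_lit 0, nat_lit 0, nat_lit 40598566, nat_lit 16557745, nat_lit 9843689, nat_lit 5011456, false, true⟩,
 nat_lit 0, nat_lit 4628, nat_lit 0, nat_lit 0, nat_lit 3471, nat_lit 0, nat_lit 0, nat_lit 0, nat_lit 0, nat_lit 0, nat_lit 0, nat_lit 0, nat_lit 0, nat_lit 0, nat_lit 0, nat_lit 633400, nat_lit 0, nat_lit 0, [(nat_lit 18, [(nat_lit 1, nat_lit 611), (nat_lit 2, nat_lit 389)])],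
 ⟨p076_k18, nat_lit 0, nat_lit 0, nat_lit 131, nat_lit 0, nat_lit 242934, [nat_lit 1516285601, nat_lit 1608268000, nat_lit 1025644000], [], [nat_lit 20967576374, nat_lit 21508647036, nat_lit 24173938774, nat_lit 24632602125, nat_lit 25097266938, nat_lit 25519912526, nat_lit 27564233499, nat_lit 27925929362], nat_lit 1271250, nat_lit 1271250, nat_lit 1271250, nat_lit 1271250, nat_lit 1100001, nat_lit 2298750, [nat_lit 490000, nat_lit 1100000, nat_lit 1442500], [nat_lit 6, nat_lit 40, nat_lit 40, nat_lit 80, nat_lit 3, nat_lit 289, nat_lit 75, nat_lit 9]⟩, ⟨p076_k25, nat_lit 0, nat_lit 0, nat_lit 679, nat_lit 0, nat_lit 710114, [nat_lit 0, nat_lit 0, nat_lit 0], [], [nat_lit 0, nat_lit 0, nat_lit 0, nat_lit 0, nat_lit 0, nat_lit 0, nat_lit 0, nat_lit 0], nat_lit 1100001, nat_lit 1442500, nat_lit 1271250, nat_lit 1271250, nat_lit 0, nat_lit 2796750, [nat_lit 1695000, nat_lit 1271250, nat_lit 1271250], [nat_lit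 62, nat_lit 40, nat_lit 40, nat_lit 80, nat_lit 58, nat_lit 483, nat_lit 250, nat_lit 11]⟩,
 ⟨nat_lit 4183, nat_lit 4473, ⟨.ofNat (nat_lit 524844), .ofNat (nat_lit 660800), .ofNat (nat_lit 567977), .ofNat (nat_lit 703933), .ofNat (nat_lit 522921), .ofNat (nat_lit 655432), .ofNat (nat_lit 566254), .ofNat (nat_lit 698765)⟩, ⟨.ofNat (nat_lit 302621), .ofNat (nat_lit 540545), .ofNat (nat_lit 345754), .ofNat (nat_lit 583678), .ofNat (nat_lit 303743), .ofNat (nat_lit 535637), .ofNat (nat_lit 347076), .ofNat (nat_lit 578971)⟩⟩, [⟨nat_lit 16, nat_lit 84, nat_lit 100, nat_lit 93, nat_lit 120101817⟩, ⟨nat_lit 16, nat_lit 87, nat_lit 95, nat_lit 100, nat_lit 8763693⟩]⟩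
noncomputable def p076_l130 : Lf2 := ⟨nat_lit 0, nat_lit 10, [nat_lit 0, nat_lit 5, nat_lit 5, nat_lit 20], false, nat_lit 160, nat_lit 288, nat_lit 0, nat_lit 396, ⟨nat_lit 0, nat_lit 1000, nat_lit 0, nat_lit 6, nat_lit 244, nat_lit 1000, nat_lit 172, nat_lit 0, nat_lit 0, nat_lit 0, nat_lit 0, nat_lit 0, nat_lit 40956014, nat_lit 16536343, nat_lit 9507643, nat_lit 4968320, false, true⟩,
 nat_lit 0, nat_lit 4390, nat_lit 0, nat_lit 0, nat_lit 3422, nat_lit 0, nat_lit 233, nat_lit 0, nat_lit 0, nat_lit 0, nat_lit 0, nat_lit 0, nat_lit 0, nat_lit 0, nat_lit 0, nat_lit 400000, nat_lit 0, nat_lit 0, [(nat_lit 18, [(nat_lit 1, nat_lit 1000)])],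
 ⟨p076_k22, nat_lit 0, nat_lit 0, nat_lit 140, nat_lit 0, nat_lit 264867, [nat_lit 1398133334, nat_lit 1966666667, nat_lit 1960800000], [], [nat_lit 21451448548, nat_lit 21720309990, nat_lit 24561617046, nat_lit 24789692337, nat_lit 25045863213, nat_lit 25261308734, nat_lit 27509580704, nat_lit 27693947488], nat_lit 1271250, nat_lit 1271250, nat_lit 1271250, nat_lit 1271250, nat_lit 1100001, nat_lit 2196000, [nat_lit 490000, nat_lit 1100000, nat_lit 1442500], [nat_lit 6, nat_lit 40, nat_lit 40, nat_lit 80, nat_lit 3, nat_lit 289, nat_lit 75, nat_lit 9]⟩, ⟨p076_k25, nat_lit 0, nat_lit 0, nat_lit 740, nat_lit 0, nat_lit 811784, [nat_lit 0, nat_lit 0, nat_lit 0], [], [nat_lit 0, nat_lit 0, nat_lit 0, nat_lit 0, nat_lit 0, nat_lit 0, nat_lit 0, nat_lit 0], nat_lit 1100001, nat_lit 1442500, nat_lit 1271250, nat_lit 1271250, nat_lit 0, nat_lit 2796750, [nat_lit 1695000, nat_lit 1271250, nat_lit 1271250], [nat_lit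 62, nat_lit 40, nat_lit 40, nat_lit 80, nat_lit 58, nat_lit 483, nat_lit 250, nat_lit 11]⟩,
 ⟨nat_lit 4031, nat_lit 4184, ⟨.ofNat (nat_lit 522921), .ofNat (nat_lit 655432), .ofNat (nat_lit 566254), .ofNat (nat_lit 698765), .ofNat (nat_lit 521937), .ofNat (nat_lit 652718), .ofNat (nat_lit 565389), .ofNat (nat_lit 696171)⟩, ⟨.ofNat (nat_lit 303743), .ofNat (nat_lit 515761), .ofNat (nat_lit 347076), .ofNat (nat_lit 559094), .ofNat (nat_lit 304250), .ofNat (nat_lit 513500), .ofNat (nat_lit 347702), .ofNat (nat_lit 556953)⟩⟩, [⟨nat_lit 16, nat_lit 83, nat_lit 98, nat_lit 100, nat_lit 121155041⟩]⟩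
noncomputable def p076_l131 : Lf2 := ⟨nat_lit 0, nat_lit 10, [nat_lit 0, nat_lit 5, nat_lit 5, nat_lit 20], false, nat_lit 160, nat_lit 284, nat_lit 0, nat_lit 396, ⟨nat_lit 0, nat_lit 1000, nat_lit 0, nat_lit 6, nat_lit 243, nat_lit 1000, nat_lit 171, nat_lit 0, nat_lit 0, nat_lit 0, nat_lit 0, nat_lit 0, nat_lit 41112242, nat_lit 16498149, nat_lit 9389609, nat_lit 4950582, false, true⟩,
 nat_lit 0, nat_lit 4221, nat_lit 0, nat_lit 0, nat_lit 3353, nat_lit 0, nat_lit 243, nat_lit 0, nat_lit 0, nat_lit 0, nat_lit 0, nat_lit 0, nat_lit 0, nat_lit 0, nat_lit 0, nat_lit 400000, nat_lit 0, nat_lit 0, [(nat_lit 18, [(nat_lit 1, nat_lit 1000)])],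
 ⟨p076_k33, nat_lit 0, nat_lit 0, nat_lit 150, nat_lit 0, nat_lit 291612, [nat_lit 1398133334, nat_lit 1966666667, nat_lit 1960800000], [], [nat_lit 21707780555, nat_lit 21974284888, nat_lit 24758337046, nat_lit 24984643142, nat_lit 25105904620, nat_lit 25321460996, nat_lit 27549378165, nat_lit 27733998572], nat_lit 1271250, nat_lit 1271250, nat_lit 1271250, nat_lit 1271250, nat_lit 1100001, nat_lit 2161750, [nat_lit 490000, nat_lit 1100000, nat_lit 1442500], [nat_lit 6, nat_lit 40, nat_lit 40, nat_lit 80, nat_lit 3, nat_lit 289, nat_lit 75, nat_lit 9]⟩, ⟨p076_k25, nat_lit 0, nat_lit 0, nat_lit 783, nat_lit 0, nat_lit 914708, [nat_lit 0, nat_lit 0, nat_lit 0], [], [nat_lit 0, nat_lit 0, nat_lit 0, nat_lit 0, nat_lit 0, nat_lit 0, nat_lit 0, nat_lit 0], nat_lit 1100001, nat_lit 1442500, nat_lit 1271250, nat_lit 1271250, nat_lit 0, nat_lit 2796750, [nat_lit 1695000, nat_lit 1271250, nat_lit 1271250], [nat_lit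 62, nat_lit 40, nat_lit 40, nat_lit 80, nat_lit 58, nat_lit 483, nat_lit 250, nat_lit 11]⟩,
 ⟨nat_lit 3872, nat_lit 4032, ⟨.ofNat (nat_lit 521937), .ofNat (nat_lit 652718), .ofNat (nat_lit 565389), .ofNat (nat_lit 696171), .ofNat (nat_lit 520934), .ofNat (nat_lit 649977), .ofNat (nat_lit 564520), .ofNat (nat_lit 693563)⟩, ⟨.ofNat (nat_lit 304250), .ofNat (nat_lit 506961), .ofNat (nat_lit 347702), .ofNat (nat_lit 550414), .ofNat (nat_lit 304717), .ofNat (nat_lit 504734), .ofNat (nat_lit 348304), .ofNat (nat_lit 548321)⟩⟩, [⟨nat_lit 16, nat_lit 81, nat_lit 100, nat_lit 100, nat_lit 124525683⟩]⟩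
noncomputable def p076_l132 : Lf2 := ⟨nat_lit 0, nat_lit 10, [nat_lit 0, nat_lit 5, nat_lit 5, nat_lit 20], false, nat_lit 160, nat_lit 240, nat_lit 16, nat_lit 384, ⟨nat_lit 0, nat_lit 1000, nat_lit 0, nat_lit 8, nat_lit 284, nat_lit 1000, nat_lit 157, nat_lit 0, nat_lit 0, nat_lit 0, nat_lit 0, nat_lit 0, nat_lit 38673045, nat_lit 20442057, nat_lit 7884898, nat_lit 4995771, true, true⟩,
 nat_lit 0, nat_lit 4563, nat_lit 0, nat_lit 0, nat_lit 3422, nat_lit 0, nat_lit 0, nat_lit 0, nat_lit 0, nat_lit 0, nat_lit 0, nat_lit 0, nat_lit 0, nat_lit 0, nat_lit 0, nat_lit 835000, nat_lit 0, nat_lit 0, [(nat_lit 18, [(nat_lit 1, nat_lit 275), (nat_lit 2, nat_lit 725)])],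
 ⟨p076_k18, nat_lit 0, nat_lit 0, nat_lit 168, nat_lit 0, nat_lit 312927, [nat_lit 1618340000, nat_lit 1298700001, nat_lit 217900000], [], [nat_lit 24389492586, nat_lit 25220711322, nat_lit 26051930058, nat_lit 26820085213, nat_lit 25862092490, nat_lit 26598506674, nat_lit 27425559248, nat_lit 28229686304], nat_lit 1271250, nat_lit 1271250, nat_lit 1271250, nat_lit 1271250, nat_lit 1100001, nat_lit 1785000, [nat_lit 490000, nat_lit 1100000, nat_lit 1442500], [nat_lit 6, nat_lit 40, nat_lit 40, nat_lit 80, nat_lit 3, nat_lit 272, nat_lit 60, nat_lit 8]⟩, ⟨p076_k25, nat_lit 0, nat_lit 0, nat_lit 751, nat_lit 0, nat_lit 914708, [nat_lit 0, nat_lit 0, nat_lit 0], [], [nat_lit 0, nat_lit 0, nat_lit 0, nat_lit 0, nat_lit 0, nat_lit 0, nat_lit 0, nat_lit 0], nat_lit 1100001, nat_lit 1442500, nat_lit 1271250, nat_lit 1271250, nat_lit 88400, nat_lit 2742600, [nat_lit 1695000, nat_lit 1271250, nat_lit 1271250], [nat_lit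 62, nat_lit 40, nat_lit 40, nat_lit 80, nat_lit 58, nat_lit 483, nat_lit 250, nat_lit 11]⟩,
 ⟨nat_lit 3872, nat_lit 4473, ⟨.ofNat (nat_lit 660800), .ofNat (nat_lit 728778), .ofNat (nat_lit 703933), .ofNat (nat_lit 771911), .ofNat (nat_lit 649977), .ofNat (nat_lit 714498), .ofNat (nat_lit 693563), .ofNat (nat_lit 758085)⟩, ⟨.ofNat (nat_lit 302621), .ofNat (nat_lit 438578), .ofNat (nat_lit 345754), .ofNat (nat_lit 481711), .ofNat (nat_lit 304717), .ofNat (nat_lit 433760), .ofNat (nat_lit 348304), .ofNat (nat_lit 477347)⟩⟩, [⟨nat_lit 13, nat_lit 76, nat_lit 73, nat_lit 100, nat_lit 240714379⟩, ⟨nat_lit 4, nat_lit 100, nat_lit 81, nat_lit 92, nat_lit 10140791⟩]⟩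
noncomputable def p076_l133 : Lf2 := ⟨nat_lit 0, nat_lit 10, [nat_lit 0, nat_lit 5, nat_lit 5, nat_lit 20], false, nat_lit 240, nat_lit 300, nat_lit 64, nat_lit 396, ⟨nat_lit 0, nat_lit 1000, nat_lit 0, nat_lit 8, nat_lit 285, nat_lit 1000, nat_lit 204, nat_lit 0, nat_lit 0, nat_lit 0, nat_lit 0, nat_lit 0, nat_lit 36122830, nat_lit 19544252, nat_lit 11332918, nat_lit 5361396, true, true⟩,
 nat_lit 0, nat_lit 4463, nat_lit 0, nat_lit 0, nat_lit 3346, nat_lit 0, nat_lit 0, nat_lit 0, nat_lit 0, nat_lit 0, nat_lit 0, nat_lit 0, nat_lit 0, nat_lit 0, nat_lit 0, nat_lit 586600, nat_lit 0, nat_lit 0, [(nat_lit 18, [(nat_lit 1, nat_lit 689), (nat_lit 2, nat_lit 311)])],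
 ⟨p076_k18, nat_lit 0, nat_lit 0, nat_lit 139, nat_lit 0, nat_lit 242934, [nat_lit 1492594401, nat_lit 1680132000, nat_lit 1213156000], [], [nat_lit 26075376810, nat_lit 26475415676, nat_lit 27675532274, nat_lit 28040866230, nat_lit 27829714224, nat_lit 28187429431, nat_lit 29260575050, nat_lit 29587885064], nat_lit 1271250, nat_lit 1271250, nat_lit 1271250, nat_lit 1271250, nat_lit 1271250, nat_lit 1271250, [nat_lit 490000, nat_lit 1100000, nat_lit 1442500], [nat_lit 6, nat_lit 40, nat_lit 40, nat_lit 80, nat_lit 3, nat_lit 203, nat_lit 0, nat_lit 5]⟩, ⟨p076_k25, nat_lit 0, nat_lit 0, nat_lit 608, nat_lit 0, nat_lit 710114, [nat_lit 0, nat_lit 0, nat_lit 0], [], [nat_lit 0, nat_lit 0, nat_lit 0, nat_lit 0, nat_lit 0, nat_lit 0, nat_lit 0, nat_lit 0], nat_lit 1100001, nat_lit 1442500, nat_lit 1271250, nat_lit 1271250, nat_lit 382400, nat_lit 2926350, [nat_lit 1695000, nat_lit 1271250, nat_lit 1271250], [nat_lit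 62, nat_lit 40, nat_lit 40, nat_lit 80, nat_lit 58, nat_lit 483, nat_lit 250, nat_lit 11]⟩,
 ⟨nat_lit 4183, nat_lit 4473, ⟨.ofNat (nat_lit 660800), .ofNat (nat_lit 728778), .ofNat (nat_lit 703933), .ofNat (nat_lit 771911), .ofNat (nat_lit 655432), .ofNat (nat_lit 721688), .ofNat (nat_lit 698765), .ofNat (nat_lit 765021)⟩, ⟨.ofNat (nat_lit 438578), .ofNat (nat_lit 540545), .ofNat (nat_lit 481711), .ofNat (nat_lit 583678), .ofNat (nat_lit 436254), .ofNat (nat_lit 535637), .ofNat (nat_lit 479587), .ofNat (nat_lit 578971)⟩⟩, [⟨nat_lit 13, nat_lit 78, nat_lit 70, nat_lit 100, nat_lit 196044555⟩, ⟨nat_lit 16, nat_lit 87, nat_lit 95, nat_lit 100, nat_lit 143386921⟩]⟩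
noncomputable def p076_l134 : Lf2 := ⟨nat_lit 0, nat_lit 10, [nat_lit 0, nat_lit 5, nat_lit 5, nat_lit 20], false, nat_lit 240, nat_lit 288, nat_lit 64, nat_lit 396, ⟨nat_lit 0, nat_lit 1000, nat_lit 0, nat_lit 8, nat_lit 280, nat_lit 1000, nat_lit 198, nat_lit 0, nat_lit 0, nat_lit 0, nat_lit 0, nat_lit 0, nat_lit 36763378, nat_lit 19228828, nat_lit 11007794, nat_lit 5311686, true, true⟩,
 nat_lit 0, nat_lit 4376, nat_lit 0, nat_lit 0, nat_lit 3411, nat_lit 0, nat_lit 0, nat_lit 0, nat_lit 0, nat_lit 0, nat_lit 0, nat_lit 0, nat_lit 0, nat_lit 0, nat_lit 0, nat_lit 657400, nat_lit 0, nat_lit 0, [(nat_lit 18, [(nat_lit 1, nat_lit 571), (nat_lit 2, nat_lit 429)])],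
 ⟨p076_k22, nat_lit 0, nat_lit 0, nat_lit 154, nat_lit 0, nat_lit 298449, [nat_lit 1528434934, nat_lit 1571414667, nat_lit 929484000], [], [nat_lit 26711174558, nat_lit 27079007804, nat_lit 27863213806, nat_lit 28206019913, nat_lit 27966120953, nat_lit 28303269886, nat_lit 29022357374, nat_lit 29336866143], nat_lit 1271250, nat_lit 1271250, nat_lit 1271250, nat_lit 1271250, nat_lit 1271250, nat_lit 1271250, [nat_lit 490000, nat_lit 1100000, nat_lit 1442500], [nat_lit 6, nat_lit 40, nat_lit 40, nat_lit 80, nat_lit 3, nat_lit 203, nat_lit 0, nat_lit 5]⟩, ⟨p076_k25, nat_lit 0, nat_lit 0, nat_lit 696, nat_lit 0, nat_lit 914708, [nat_lit 0, nat_lit 0, nat_lit 0], [], [nat_lit 0, nat_lit 0, nat_lit 0, nat_lit 0, nat_lit 0, nat_lit 0, nat_lit 0, nat_lit 0], nat_lit 1100001, nat_lit 1442500, nat_lit 1271250, nat_lit 1271250, nat_lit 382400, nat_lit 2926350, [nat_lit 1695000, nat_lit 1271250, nat_lit 1271250], [nat_lit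 62, nat_lit 40, nat_lit 40, nat_lit 80, nat_lit 58, nat_lit 483, nat_lit 250, nat_lit 11]⟩,
 ⟨nat_lit 3872, nat_lit 4184, ⟨.ofNat (nat_lit 655432), .ofNat (nat_lit 708436), .ofNat (nat_lit 698765), .ofNat (nat_lit 751770), .ofNat (nat_lit 649977), .ofNat (nat_lit 701594), .ofNat (nat_lit 693563), .ofNat (nat_lit 745180)⟩, ⟨.ofNat (nat_lit 436254), .ofNat (nat_lit 515761), .ofNat (nat_lit 479587), .ofNat (nat_lit 559094), .ofNat (nat_lit 433760), .ofNat (nat_lit 511186), .ofNat (nat_lit 477347), .ofNat (nat_lit 554773)⟩⟩, [⟨nat_lit 13, nat_lit 76, nat_lit 65, nat_lit 100, nat_lit 192908137⟩, ⟨nat_lit 16, nat_lit 83, nat_lit 98, nat_lit 100, nat_lit 143152425⟩]⟩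
noncomputable def p076_l135 : Lf2 := ⟨nat_lit 0, nat_lit 10, [nat_lit 0, nat_lit 5, nat_lit 5, nat_lit 20], false, nat_lit 160, nat_lit 276, nat_lit 0, nat_lit 396, ⟨nat_lit 0, nat_lit 1000, nat_lit 0, nat_lit 4, nat_lit 191, nat_lit 1000, nat_lit 167, nat_lit 0, nat_lit 0, nat_lit 0, nat_lit 0, nat_lit 0, nat_lit 45485786, nat_lit 11882251, nat_lit 9631963, nat_lit 4559671, false, true⟩,
 nat_lit 0, nat_lit 4160, nat_lit 0, nat_lit 0, nat_lit 3367, nat_lit 0, nat_lit 358, nat_lit 0, nat_lit 0, nat_lit 0, nat_lit 0, nat_lit 0, nat_lit 0, nat_lit 0, nat_lit 0, nat_lit 400000, nat_lit 0, nat_lit 0, [(nat_lit 21, [(nat_lit 1, nat_lit 1000)])],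
 ⟨p076_k24, nat_lit 0, nat_lit 0, nat_lit 201, nat_lit 0, nat_lit 416415, [nat_lit 1355200000, nat_lit 1492800001, nat_lit 1492000000], [], [nat_lit 19376878437, nat_lit 20519702835, nat_lit 21489963905, nat_lit 22493378216, nat_lit 22799008215, nat_lit 23830616614, nat_lit 24629335292, nat_lit 25538084490], nat_lit 1271250, nat_lit 1271250, nat_lit 1100001, nat_lit 1785000, nat_lit 1100001, nat_lit 2093250, [nat_lit 490000, nat_lit 1100000, nat_lit 1442500], [nat_lit 6, nat_lit 40, nat_lit 40, nat_lit 80, nat_lit 3, nat_lit 373, nat_lit 150, nat_lit 13]⟩, ⟨p076_k25, nat_lit 0, nat_lit 0, nat_lit 1006, nat_lit 0, nat_lit 1336372, [nat_lit 0, nat_lit 0, nat_lit 0], [], [nat_lit 0, nat_lit 0, nat_lit 0, nat_lit 0, nat_lit 0, nat_lit 0, nat_lit 0, nat_lit 0], nat_lit 1100001, nat_lit 1442500, nat_lit 1271250, nat_lit 1271250, nat_lit 0, nat_lit 2796750, [nat_lit 1695000, nat_lit 1271250, nat_lit 1271250], [nat_lit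 62, nat_lit 40, nat_lit 40, nat_lit 80, nat_lit 58, nat_lit 456, nat_lit 225, nat_lit 11]⟩,
 ⟨nat_lit 3162, nat_lit 3873, ⟨.ofNat (nat_lit 391890), .ofNat (nat_lit 520934), .ofNat (nat_lit 435446), .ofNat (nat_lit 564520), .ofNat (nat_lit 394735), .ofNat (nat_lit 516642), .ofNat (nat_lit 439014), .ofNat (nat_lit 560952)⟩, ⟨.ofNat (nat_lit 304717), .ofNat (nat_lit 491830), .ofNat (nat_lit 348304), .ofNat (nat_lit 535416), .ofNat (nat_lit 306116), .ofNat (nat_lit 482881), .ofNat (nat_lit 350426), .ofNat (nat_lit 527190)⟩⟩, [⟨nat_lit 16, nat_lit 67, nat_lit 100, nat_lit 88, nat_lit 218174539⟩]⟩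
noncomputable def p076_l136 : Lf2 := ⟨nat_lit 0, nat_lit 10, [nat_lit 0, nat_lit 5, nat_lit 5, nat_lit 20], false, nat_lit 160, nat_lit 276, nat_lit 0, nat_lit 396, ⟨nat_lit 0, nat_lit 1000, nat_lit 0, nat_lit 6, nat_lit 241, nat_lit 1000, nat_lit 167, nat_lit 0, nat_lit 0, nat_lit 0, nat_lit 0, nat_lit 0, nat_lit 41519488, nat_lit 16327609, nat_lit 9152903, nat_lit 4907365, false, true⟩,
 nat_lit 0, nat_lit 3939, nat_lit 0, nat_lit 0, nat_lit 3188, nat_lit 0, nat_lit 225, nat_lit 0, nat_lit 0, nat_lit 0, nat_lit 0, nat_lit 0, nat_lit 0, nat_lit 0, nat_lit 0, nat_lit 400000, nat_lit 0, nat_lit 0, [(nat_lit 21, [(nat_lit 1, nat_lit 1000)])],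
 ⟨p076_k24, nat_lit 0, nat_lit 0, nat_lit 210, nat_lit 0, nat_lit 415286, [nat_lit 1355200000, nat_lit 1492800001, nat_lit 1492000000], [], [nat_lit 22313304882, nat_lit 23294027322, nat_lit 25605308771, nat_lit 26422685380, nat_lit 25241663370, nat_lit 26053532294, nat_lit 28024115452, nat_lit 28768709722], nat_lit 1271250, nat_lit 1271250, nat_lit 1271250, nat_lit 1271250, nat_lit 1100001, nat_lit 2093250, [nat_lit 490000, nat_lit 1100000, nat_lit 1442500], [nat_lit 6, nat_lit 40, nat_lit 40, nat_lit 80, nat_lit 3, nat_lit 289, nat_lit 75, nat_lit 9]⟩, ⟨p076_k25, nat_lit 0, nat_lit 0, nat_lit 972, nat_lit 0, nat_lit 1332749, [nat_lit 0, nat_lit 0, nat_lit 0], [], [nat_lit 0, nat_lit 0, nat_lit 0, nat_lit 0, nat_lit 0, nat_lit 0, nat_lit 0, nat_lit 0], nat_lit 1100001, nat_lit 1271250, nat_lit 1271250, nat_lit 1271250, nat_lit 0, nat_lit 2796750, [nat_lit 1695000, nat_lit 1271250, nat_lit 1271250], [nat_lit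 62, nat_lit 40, nat_lit 40, nat_lit 80, nat_lit 58, nat_lit 483, nat_lit 250, nat_lit 11]⟩,
 ⟨nat_lit 3162, nat_lit 3873, ⟨.ofNat (nat_lit 520934), .ofNat (nat_lit 669333), .ofNat (nat_lit 542727), .ofNat (nat_lit 691126), .ofNat (nat_lit 516642), .ofNat (nat_lit 656835), .ofNat (nat_lit 538797), .ofNat (nat_lit 678990)⟩, ⟨.ofNat (nat_lit 304717), .ofNat (nat_lit 491830), .ofNat (nat_lit 348304), .ofNat (nat_lit 535416), .ofNat (nat_lit 306116), .ofNat (nat_lit 482881), .ofNat (nat_lit 350426), .ofNat (nat_lit 527190)⟩⟩, [⟨nat_lit 13, nat_lit 67, nat_lit 85, nat_lit 100, nat_lit 201257367⟩, ⟨nat_lit 16, nat_lit 67, nat_lit 100, nat_lit 88, nat_lit 174234201⟩]⟩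
noncomputable def p076_l137 : Lf2 := ⟨nat_lit 0, nat_lit 10, [nat_lit 0, nat_lit 5, nat_lit 5, nat_lit 20], false, nat_lit 160, nat_lit 240, nat_lit 0, nat_lit 392, ⟨nat_lit 0, nat_lit 1000, nat_lit 0, nat_lit 6, nat_lit 253, nat_lit 1000, nat_lit 156, nat_lit 0, nat_lit 0, nat_lit 0, nat_lit 0, nat_lit 0, nat_lit 41180893, nat_lit 17651641, nat_lit 8167466, nat_lit 4869390, true, true⟩,
 nat_lit 0, nat_lit 3965, nat_lit 0, nat_lit 0, nat_lit 3209, nat_lit 0, nat_lit 283, nat_lit 0, nat_lit 0, nat_lit 0, nat_lit 0, nat_lit 0, nat_lit 0, nat_lit 0, nat_lit 0, nat_lit 400000, nat_lit 0, nat_lit 0, [(nat_lit 21, [(nat_lit 1, nat_lit 1000)])],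
 ⟨p076_k24, nat_lit 0, nat_lit 0, nat_lit 213, nat_lit 0, nat_lit 416415, [nat_lit 1355200000, nat_lit 1492800001, nat_lit 1492000000], [], [nat_lit 22111382634, nat_lit 23094722304, nat_lit 25935549606, nat_lit 26808627879, nat_lit 23925674844, nat_lit 24794248284, nat_lit 27440301663, nat_lit 28215009406], nat_lit 1271250, nat_lit 1271250, nat_lit 1271250, nat_lit 1271250, nat_lit 1100001, nat_lit 1785000, [nat_lit 490000, nat_lit 1100000, nat_lit 1442500], [nat_lit 6, nat_lit 40, nat_lit 40, nat_lit 80, nat_lit 3, nat_lit 272, nat_lit 60, nat_lit 9]⟩, ⟨p076_k23, nat_lit 0, nat_lit 0, nat_lit 857, nat_lit 0, nat_lit 1110604, [nat_lit 0, nat_lit 0, nat_lit 0], [], [nat_lit 0, nat_lit 0, nat_lit 0, nat_lit 0, nat_lit 0, nat_lit 0, nat_lit 0, nat_lit 0], nat_lit 1271250, nat_lit 1271250, nat_lit 1271250, nat_lit 1271250, nat_lit 0, nat_lit 2768500, [nat_lit 1695000, nat_lit 1271250, nat_lit 1271250], [nat_lit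 62, nat_lit 40, nat_lit 40, nat_lit 80, nat_lit 58, nat_lit 483, nat_lit 250, nat_lit 11]⟩,
 ⟨nat_lit 3162, nat_lit 3873, ⟨.ofNat (nat_lit 542727), .ofNat (nat_lit 710483), .ofNat (nat_lit 564520), .ofNat (nat_lit 732276), .ofNat (nat_lit 538797), .ofNat (nat_lit 697276), .ofNat (nat_lit 560952), .ofNat (nat_lit 719431)⟩, ⟨.ofNat (nat_lit 304717), .ofNat (nat_lit 433760), .ofNat (nat_lit 348304), .ofNat (nat_lit 477347), .ofNat (nat_lit 306116), .ofNat (nat_lit 428022), .ofNat (nat_lit 350426), .ofNat (nat_lit 472332)⟩⟩, [⟨nat_lit 13, nat_lit 66, nat_lit 78, nat_lit 100, nat_lit 223554708⟩, ⟨nat_lit 4, nat_lit 100, nat_lit 67, nat_lit 88, nat_lit 90431849⟩]⟩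
noncomputable def p076_l138 : Lf2 := ⟨nat_lit 0, nat_lit 10, [nat_lit 0, nat_lit 5, nat_lit 5, nat_lit 20], false, nat_lit 240, nat_lit 276, nat_lit 16, nat_lit 392, ⟨nat_lit 0, nat_lit 1000, nat_lit 0, nat_lit 6, nat_lit 254, nat_lit 1000, nat_lit 193, nat_lit 0, nat_lit 0, nat_lit 0, nat_lit 0, nat_lit 0, nat_lit 38931411, nat_lit 17076046, nat_lit 10992543, nat_lit 5180222, true, true⟩,
 nat_lit 0, nat_lit 3782, nat_lit 0, nat_lit 0, nat_lit 3061, nat_lit 0, nat_lit 172, nat_lit 0, nat_lit 0, nat_lit 0, nat_lit 0, nat_lit 0, nat_lit 0, nat_lit 0, nat_lit 0, nat_lit 426400, nat_lit 0, nat_lit 0, [(nat_lit 21, [(nat_lit 1, nat_lit 956), (nat_lit 2, nat_lit 44)])],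
 ⟨p076_k24, nat_lit 0, nat_lit 0, nat_lit 168, nat_lit 0, nat_lit 350111, [nat_lit 1357224000, nat_lit 1420763201, nat_lit 1376508800], [], [nat_lit 24243094511, nat_lit 24633626958, nat_lit 27366021460, nat_lit 27734082704, nat_lit 25247408454, nat_lit 25634501828, nat_lit 28334017036, nat_lit 28711382122], nat_lit 1271250, nat_lit 1271250, nat_lit 1271250, nat_lit 1271250, nat_lit 1271250, nat_lit 1271250, [nat_lit 490000, nat_lit 1100000, nat_lit 1442500], [nat_lit 6, nat_lit 40, nat_lit 40, nat_lit 80, nat_lit 3, nat_lit 203, nat_lit 0, nat_lit 6]⟩, ⟨p076_k23, nat_lit 0, nat_lit 0, nat_lit 769, nat_lit 0, nat_lit 933767, [nat_lit 0, nat_lit 0, nat_lit 0], [], [nat_lit 0, nat_lit 0, nat_lit 0, nat_lit 0, nat_lit 0, nat_lit 0, nat_lit 0, nat_lit 0], nat_lit 1271250, nat_lit 1271250, nat_lit 1271250, nat_lit 1271250, nat_lit 88400, nat_lit 2800300, [nat_lit 1695000, nat_lit 1271250, nat_lit 1271250], [nat_lit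 62, nat_lit 40, nat_lit 40, nat_lit 80, nat_lit 58, nat_lit 483, nat_lit 250, nat_lit 11]⟩,
 ⟨nat_lit 3535, nat_lit 3873, ⟨.ofNat (nat_lit 542727), .ofNat (nat_lit 710483), .ofNat (nat_lit 564520), .ofNat (nat_lit 732276), .ofNat (nat_lit 540807), .ofNat (nat_lit 703987), .ofNat (nat_lit 562760), .ofNat (nat_lit 725940)⟩, ⟨.ofNat (nat_lit 433760), .ofNat (nat_lit 491830), .ofNat (nat_lit 477347), .ofNat (nat_lit 535416), .ofNat (nat_lit 431044), .ofNat (nat_lit 487529), .ofNat (nat_lit 474949), .ofNat (nat_lit 531435)⟩⟩, [⟨nat_lit 13, nat_lit 69, nat_lit 76, nat_lit 100, nat_lit 176118585⟩, ⟨nat_lit 16, nat_lit 77, nat_lit 100, nat_lit 99, nat_lit 174653559⟩]⟩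
noncomputable def p076_l139 : Lf2 := ⟨nat_lit 0, nat_lit 10, [nat_lit 0, nat_lit 5, nat_lit 5, nat_lit 20], false, nat_lit 240, nat_lit 264, nat_lit 16, nat_lit 392, ⟨nat_lit 0, nat_lit 1000, nat_lit 0, nat_lit 6, nat_lit 250, nat_lit 1000, nat_lit 188, nat_lit 0, nat_lit 0, nat_lit 0, nat_lit 0, nat_lit 0, nat_lit 39543972, nat_lit 16805694, nat_lit 10650334, nat_lit 5123730, true, true⟩,
 nat_lit 0, nat_lit 3806, nat_lit 0, nat_lit 0, nat_lit 3196, nat_lit 0, nat_lit 234, nat_lit 0, nat_lit 0, nat_lit 0, nat_lit 0, nat_lit 0, nat_lit 0, nat_lit 0, nat_lit 0, nat_lit 400000, nat_lit 0, nat_lit 0, [(nat_lit 21, [(nat_lit 1, nat_lit 1000)])],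
 ⟨p076_k26, nat_lit 0, nat_lit 0, nat_lit 168, nat_lit 0, nat_lit 398185, [nat_lit 1355200000, nat_lit 1492800000], [], [nat_lit 24293283232, nat_lit 24769629008, nat_lit 27550171304, nat_lit 27943970602, nat_lit 25087169659, nat_lit 25542925540, nat_lit 28198417039, nat_lit 28575930395], nat_lit 1271250, nat_lit 1271250, nat_lit 1271250, nat_lit 1271250, nat_lit 1271250, nat_lit 1271250, [nat_lit 490000, nat_lit 1100000], [nat_lit 24, nat_lit 40, nat_lit 40, nat_lit 80, nat_lit 33, nat_lit 203, nat_lit 0, nat_lit 6]⟩, ⟨p076_k23, nat_lit 0, nat_lit 0, nat_lit 844, nat_lit 0, nat_lit 1110604, [nat_lit 0, nat_lit 0, nat_lit 0], [], [nat_lit 0, nat_lit 0, nat_lit 0, nat_lit 0, nat_lit 0, nat_lit 0, nat_lit 0, nat_lit 0], nat_lit 1271250, nat_lit 1271250, nat_lit 1271250, nat_lit 1271250, nat_lit 88400, nat_lit 2800300, [nat_lit 1695000, nat_lit 1271250, nat_lit 1271250], [nat_lit 62, nat_lit 40, nat_lit 40,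 nat_lit 80, nat_lit 58, nat_lit 483, nat_lit 250, nat_lit 11]⟩,
 ⟨nat_lit 3162, nat_lit 3536, ⟨.ofNat (nat_lit 540807), .ofNat (nat_lit 691435), .ofNat (nat_lit 562760), .ofNat (nat_lit 713387), .ofNat (nat_lit 538797), .ofNat (nat_lit 685085), .ofNat (nat_lit 560952), .ofNat (nat_lit 707240)⟩, ⟨.ofNat (nat_lit 431044), .ofNat (nat_lit 468701), .ofNat (nat_lit 474949), .ofNat (nat_lit 512606), .ofNat (nat_lit 428022), .ofNat (nat_lit 464594), .ofNat (nat_lit 472332), .ofNat (nat_lit 508904)⟩⟩, [⟨nat_lit 13, nat_lit 63, nat_lit 81, nat_lit 100, nat_lit 226086883⟩, ⟨nat_lit 16, nat_lit 69, nat_lit 100, nat_lit 96, nat_lit 212647173⟩]⟩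
noncomputable def b_V_800_400_20_4 : St := ⟨true, nat_lit 1, nat_lit 1, nat_lit 1, nat_lit 120, nat_lit 320, nat_lit 360, nat_lit 160, nat_lit 200, nat_lit 16, nat_lit 360, nat_lit 80, nat_lit 120, nat_lit 160, nat_lit 300, nat_lit 0, nat_lit 396, nat_lit 0, nat_lit 40, nat_lit 0, nat_lit 0, nat_lit 0, nat_lit 0⟩
theorem d_V_800_400_20_4 (h : EB TB.env) : Dead b_V_800_400_20_4 := chkB_sound0 h (T :=
(.spl (nat_lit 2) (nat_lit 160)
(.leaf p076_l127)
(.spl (nat_lit 0) (nat_lit 340)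
(.spl (nat_lit 2) (nat_lit 240)
(.leaf p076_l128)
(.spl (nat_lit 2) (nat_lit 320)
(.spl (nat_lit 0) (nat_lit 330)
(.leaf p076_l129)
(.trX (nat_lit 16) (nat_lit 83) (nat_lit 98) (nat_lit 100) (nat_lit 288) (.spl (nat_lit 0) (nat_lit 335)
(.leaf p076_l130)
(.trX (nat_lit 16) (nat_lit 81) (nat_lit 100) (nat_lit 100) (nat_lit 284) (.leaf p076_l131)))))
(.trZ (nat_lit 9) (nat_lit 100) (nat_lit 82) (nat_lit 44) (nat_lit 16) (.spl (nat_lit 4) (nat_lit 240)
(.trX (nat_lit 22) (nat_lit 82) (nat_lit 44) (nat_lit 100) (nat_lit 384) (.leaf p076_l132))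
(.trZ (nat_lit 9) (nat_lit 100) (nat_lit 82) (nat_lit 76) (nat_lit 64) (.spl (nat_lit 0) (nat_lit 330)
(.leaf p076_l133)
(.trX (nat_lit 13) (nat_lit 76) (nat_lit 65) (nat_lit 100) (nat_lit 352) (.trX (nat_lit 16) (nat_lit 83) (nat_lit 98) (nat_lit 100) (nat_lit 288) (.leaf p076_l134)))))))))
(.trX (nat_lit 13) (nat_lit 71) (nat_lit 70) (nat_lit 100) (nat_lit 344) (.trX (nat_lit 16) (nat_lit 77) (nat_lit 100) (nat_lit 99) (nat_lit 276) (.spl (nat_lit 2) (nat_lit 240)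
(.leaf p076_l135)
(.spl (nat_lit 1) (nat_lit 180)
(.trX (nat_lit 13) (nat_lit 72) (nat_lit 77) (nat_lit 100) (nat_lit 332) (.leaf p076_l136))
(.trX (nat_lit 19) (nat_lit 100) (nat_lit 31) (nat_lit 92) (nat_lit 392) (.spl (nat_lit 4) (nat_lit 240)
(.leaf p076_l137)
(.trZ (nat_lit 9) (nat_lit 100) (nat_lit 100) (nat_lit 40) (nat_lit 16) (.spl (nat_lit 0) (nat_lit 350)
(.leaf p076_l138)
(.trX (nat_lit 13) (nat_lit 66) (nat_lit 75) (nat_lit 100) (nat_lit 336) (.trX (nat_lit 16) (nat_lit 69) (nat_lit 100) (nat_lit 96) (nat_lit 264) (.leaf p076_l139)))))))))))))) (by decide +kernel)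
noncomputable def p076_l140 : Lf2 := ⟨nat_lit 0, nat_lit 10, [nat_lit 0, nat_lit 5, nat_lit 5, nat_lit 20], true, nat_lit 0, nat_lit 160, nat_lit 0, nat_lit 396, ⟨nat_lit 0, nat_lit 1000, nat_lit 0, nat_lit 4, nat_lit 119, nat_lit 1000, nat_lit 65, nat_lit 0, nat_lit 0, nat_lit 0, nat_lit 0, nat_lit 0, nat_lit 0, nat_lit 0, nat_lit 0, nat_lit 5000000, false, false⟩,
 nat_lit 0, nat_lit 5663, nat_lit 0, nat_lit 0, nat_lit 4247, nat_lit 0, nat_lit 0, nat_lit 0, nat_lit 0, nat_lit 0, nat_lit 0, nat_lit 0, nat_lit 0, nat_lit 0, nat_lit 0, nat_lit 737800, nat_lit 0, nat_lit 0, [(nat_lit 18, [(nat_lit 1, nat_lit 437), (nat_lit 2, nat_lit 563)]), (nat_lit 21, [(nat_lit 1, nat_lit 437), (nat_lit 2, nat_lit 563)])],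
 ⟨p076_k14, nat_lit 0, nat_lit 0, nat_lit 461, nat_lit 0, nat_lit 676978, [nat_lit 1959144401, nat_lit 899443599], [], [nat_lit 22889731949, nat_lit 26334280665, nat_lit 22753864161, nat_lit 24448092639, nat_lit 22460805897, nat_lit 24139469598, nat_lit 27546378869, nat_lit 23889915725], nat_lit 1271250, nat_lit 1271250, nat_lit 88400, nat_lit 1100001, nat_lit 0, nat_lit 1100001, [nat_lit 490000, nat_lit 1427500], [nat_lit 69, nat_lit 40, nat_lit 40, nat_lit 80, nat_lit 64, nat_lit 317, nat_lit 100, nat_lit 12]⟩, C1.Rw.none,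
 ⟨nat_lit 3162, nat_lit 4473, ⟨.ofNat (nat_lit 143971), .ofNat (nat_lit 388887), .ofNat (nat_lit 186943), .ofNat (nat_lit 431944), .ofNat (nat_lit 175109), .ofNat (nat_lit 394735), .ofNat (nat_lit 219258), .ofNat (nat_lit 438969)⟩, ⟨.ofNat (nat_lit 0), .ofNat (nat_lit 302621), .ofNat (nat_lit 0), .ofNat (nat_lit 345754), .ofNat (nat_lit 0), .ofNat (nat_lit 306116), .ofNat (nat_lit 0), .ofNat (nat_lit 350426)⟩⟩, []⟩
noncomputable def p076_l141 : Lf2 := ⟨nat_lit 0, nat_lit 10, [nat_lit 0, nat_lit 5, nat_lit 5, nat_lit 20], true, nat_lit 0, nat_lit 160, nat_lit 0, nat_lit 396, ⟨nat_lit 0, nat_lit 1000, nat_lit 0, nat_lit 4, nat_lit 230, nat_lit 1000, nat_lit 65, nat_lit 0, nat_lit 0, nat_lit 0, nat_lit 0, nat_lit 0, nat_lit 0, nat_lit 0, nat_lit 0, nat_lit 5000000, false, true⟩,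
 nat_lit 0, nat_lit 5106, nat_lit 0, nat_lit 0, nat_lit 3829, nat_lit 0, nat_lit 0, nat_lit 0, nat_lit 0, nat_lit 0, nat_lit 0, nat_lit 0, nat_lit 0, nat_lit 0, nat_lit 0, nat_lit 609400, nat_lit 0, nat_lit 0, [(nat_lit 18, [(nat_lit 1, nat_lit 651), (nat_lit 2, nat_lit 349)]), (nat_lit 21, [(nat_lit 1, nat_lit 651), (nat_lit 2, nat_lit 349)])],
 ⟨p076_k14, nat_lit 0, nat_lit 0, nat_lit 399, nat_lit 0, nat_lit 676978, [nat_lit 1801041201, nat_lit 1340882799], [], [nat_lit 25001766636, nat_lit 26134210455, nat_lit 29883032715, nat_lit 31471358688, nat_lit 24298889219, nat_lit 25889275871, nat_lit 31089216370, nat_lit 30195600723], nat_lit 1271250, nat_lit 1271250, nat_lit 1100001, nat_lit 2812500, nat_lit 0, nat_lit 1100001, [nat_lit 490000, nat_lit 1427500], [nat_lit 69, nat_lit 40, nat_lit 40, nat_lit 80, nat_lit 64, nat_lit 373, nat_lit 150, nat_lit 14]⟩, C1.Rw.none,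
 ⟨nat_lit 3162, nat_lit 4473, ⟨.ofNat (nat_lit 388887), .ofNat (nat_lit 728778), .ofNat (nat_lit 431944), .ofNat (nat_lit 771911), .ofNat (nat_lit 394735), .ofNat (nat_lit 699502), .ofNat (nat_lit 438969), .ofNat (nat_lit 743812)⟩, ⟨.ofNat (nat_lit 0), .ofNat (nat_lit 302621), .ofNat (nat_lit 0), .ofNat (nat_lit 345754), .ofNat (nat_lit 0), .ofNat (nat_lit 306116), .ofNat (nat_lit 0), .ofNat (nat_lit 350426)⟩⟩, [⟨nat_lit 13, nat_lit 72, nat_lit 77, nat_lit 100, nat_lit 273418488⟩]⟩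
noncomputable def p076_l142 : Lf2 := ⟨nat_lit 0, nat_lit 10, [nat_lit 0, nat_lit 5, nat_lit 5, nat_lit 20], true, nat_lit 160, nat_lit 300, nat_lit 0, nat_lit 396, ⟨nat_lit 0, nat_lit 1000, nat_lit 0, nat_lit 4, nat_lit 119, nat_lit 1000, nat_lit 176, nat_lit 0, nat_lit 0, nat_lit 0, nat_lit 0, nat_lit 0, nat_lit 0, nat_lit 0, nat_lit 0, nat_lit 5000000, false, false⟩,
 nat_lit 0, nat_lit 5612, nat_lit 0, nat_lit 0, nat_lit 4209, nat_lit 0, nat_lit 0, nat_lit 0, nat_lit 0, nat_lit 0, nat_lit 0, nat_lit 0, nat_lit 0, nat_lit 0, nat_lit 0, nat_lit 595600, nat_lit 0, nat_lit 0, [(nat_lit 18, [(nat_lit 1, nat_lit 674), (nat_lit 2, nat_lit 326)]), (nat_lit 21, [(nat_lit 1, nat_lit 674), (nat_lit 2, nat_lit 326)])],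
 ⟨p076_k14, nat_lit 0, nat_lit 0, nat_lit 371, nat_lit 0, nat_lit 676978, [nat_lit 1784048801, nat_lit 1388327199], [], [nat_lit 23381750395, nat_lit 24188147714, nat_lit 22067113093, nat_lit 23441252141, nat_lit 25454995922, nat_lit 27855578143, nat_lit 25388694094, nat_lit 26686208983], nat_lit 1271250, nat_lit 1271250, nat_lit 88400, nat_lit 1100001, nat_lit 1100001, nat_lit 2298750, [nat_lit 490000, nat_lit 1427500], [nat_lit 69, nat_lit 40, nat_lit 40, nat_lit 80, nat_lit 64, nat_lit 345, nat_lit 125, nat_lit 13]⟩, C1.Rw.none,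
 ⟨nat_lit 3162, nat_lit 4473, ⟨.ofNat (nat_lit 143971), .ofNat (nat_lit 388887), .ofNat (nat_lit 186943), .ofNat (nat_lit 431944), .ofNat (nat_lit 175109), .ofNat (nat_lit 394735), .ofNat (nat_lit 219258), .ofNat (nat_lit 438969)⟩, ⟨.ofNat (nat_lit 302621), .ofNat (nat_lit 540545), .ofNat (nat_lit 345754), .ofNat (nat_lit 583678), .ofNat (nat_lit 306116), .ofNat (nat_lit 519453), .ofNat (nat_lit 350426), .ofNat (nat_lit 563762)⟩⟩, [⟨nat_lit 4, nat_lit 100, nat_lit 74, nat_lit 90, nat_lit 327114345⟩]⟩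
noncomputable def p076_l143 : Lf2 := ⟨nat_lit 0, nat_lit 10, [nat_lit 0, nat_lit 5, nat_lit 5, nat_lit 20], true, nat_lit 160, nat_lit 300, nat_lit 0, nat_lit 396, ⟨nat_lit 0, nat_lit 1000, nat_lit 0, nat_lit 4, nat_lit 230, nat_lit 1000, nat_lit 176, nat_lit 0, nat_lit 0, nat_lit 0, nat_lit 0, nat_lit 0, nat_lit 0, nat_lit 0, nat_lit 0, nat_lit 5000000, false, true⟩,
 nat_lit 0, nat_lit 5104, nat_lit 0, nat_lit 0, nat_lit 3827, nat_lit 0, nat_lit 0, nat_lit 0, nat_lit 0, nat_lit 0, nat_lit 0, nat_lit 0, nat_lit 0, nat_lit 0, nat_lit 0, nat_lit 517000, nat_lit 0, nat_lit 0, [(nat_lit 18, [(nat_lit 1, nat_lit 805), (nat_lit 2, nat_lit 195)]), (nat_lit 21, [(nat_lit 1, nat_lit 805), (nat_lit 2, nat_lit 195)])],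
 ⟨p076_k14, nat_lit 0, nat_lit 0, nat_lit 307, nat_lit 0, nat_lit 676978, [nat_lit 1687266001, nat_lit 1658553999], [], [nat_lit 22956435390, nat_lit 24608223762, nat_lit 27846381153, nat_lit 29195120996, nat_lit 26010443375, nat_lit 27316507711, nat_lit 30248563310, nat_lit 31341361689], nat_lit 1271250, nat_lit 1271250, nat_lit 1271250, nat_lit 1271250, nat_lit 1100001, nat_lit 2298750, [nat_lit 490000, nat_lit 1427500], [nat_lit 69, nat_lit 40, nat_lit 40, nat_lit 80, nat_lit 64, nat_lit 401, nat_lit 175, nat_lit 14]⟩, C1.Rw.none,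
 ⟨nat_lit 3162, nat_lit 4473, ⟨.ofNat (nat_lit 388887), .ofNat (nat_lit 728778), .ofNat (nat_lit 431944), .ofNat (nat_lit 771911), .ofNat (nat_lit 394735), .ofNat (nat_lit 699502), .ofNat (nat_lit 438969), .ofNat (nat_lit 743812)⟩, ⟨.ofNat (nat_lit 302621), .ofNat (nat_lit 540545), .ofNat (nat_lit 345754), .ofNat (nat_lit 583678), .ofNat (nat_lit 306116), .ofNat (nat_lit 519453), .ofNat (nat_lit 350426), .ofNat (nat_lit 563762)⟩⟩, [⟨nat_lit 13, nat_lit 72, nat_lit 77, nat_lit 100, nat_lit 263578585⟩, ⟨nat_lit 4, nat_lit 100, nat_lit 74, nat_lit 90, nat_lit 267943021⟩]⟩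
noncomputable def p076_l144 : Lf2 := ⟨nat_lit 0, nat_lit 10, [nat_lit 0, nat_lit 5, nat_lit 5, nat_lit 20], false, nat_lit 0, nat_lit 160, nat_lit 0, nat_lit 396, ⟨nat_lit 0, nat_lit 1000, nat_lit 0, nat_lit 4, nat_lit 183, nat_lit 1000, nat_lit 65, nat_lit 0, nat_lit 0, nat_lit 0, nat_lit 0, nat_lit 0, nat_lit 0, nat_lit 0, nat_lit 0, nat_lit 5000000, false, true⟩,
 nat_lit 0, nat_lit 6014, nat_lit 0, nat_lit 0, nat_lit 4510, nat_lit 0, nat_lit 0, nat_lit 0, nat_lit 0, nat_lit 0, nat_lit 0, nat_lit 0, nat_lit 0, nat_lit 0, nat_lit 0, nat_lit 440200, nat_lit 0, nat_lit 0, [(nat_lit 18, [(nat_lit 1, nat_lit 933), (nat_lit 2, nat_lit 67)]), (nat_lit 21, [(nat_lit 1, nat_lit 933), (nat_lit 2, nat_lit 67)])],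
 ⟨p076_k14, nat_lit 0, nat_lit 0, nat_lit 380, nat_lit 0, nat_lit 457180, [nat_lit 1592699601, nat_lit 1922592399], [], [nat_lit 26925037818, nat_lit 27220795385, nat_lit 30576155000, nat_lit 33303978720, nat_lit 23449928262, nat_lit 25090495550, nat_lit 33957346004, nat_lit 30212422404], nat_lit 1271250, nat_lit 1271250, nat_lit 88400, nat_lit 2569500, nat_lit 0, nat_lit 1100001, [nat_lit 490000, nat_lit 1427500], [nat_lit 69, nat_lit 40, nat_lit 40, nat_lit 80, nat_lit 64, nat_lit 373, nat_lit 150, nat_lit 15]⟩, ⟨p076_k32, nat_lit 0, nat_lit 0, nat_lit 1105, nat_lit 0, nat_lit 1336372, [nat_lit 0, nat_lit 0], [], [nat_lit 0, nat_lit 0, nat_lit 0, nat_lit 0, nat_lit 0, nat_lit 0, nat_lit 0, nat_lit 0], nat_lit 1100001, nat_lit 1442500, nat_lit 88400, nat_lit 2569500, nat_lit 0, nat_lit 2796750, [nat_lit 1695000, nat_lit 1271250], [nat_lit 121, nat_lit 40, nat_lit 40, nat_lit 80, nat_lit 28, nat_lit 483,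 nat_lit 250, nat_lit 12]⟩,
 ⟨nat_lit 3162, nat_lit 4473, ⟨.ofNat (nat_lit 143971), .ofNat (nat_lit 728778), .ofNat (nat_lit 186943), .ofNat (nat_lit 771911), .ofNat (nat_lit 175109), .ofNat (nat_lit 699502), .ofNat (nat_lit 219258), .ofNat (nat_lit 743812)⟩, ⟨.ofNat (nat_lit 0), .ofNat (nat_lit 302621), .ofNat (nat_lit 0), .ofNat (nat_lit 345754), .ofNat (nat_lit 0), .ofNat (nat_lit 306116), .ofNat (nat_lit 0), .ofNat (nat_lit 350426)⟩⟩, [⟨nat_lit 13, nat_lit 80, nat_lit 60, nat_lit 100, nat_lit 182922036⟩]⟩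
noncomputable def p076_l145 : Lf2 := ⟨nat_lit 0, nat_lit 10, [nat_lit 0, nat_lit 5, nat_lit 5, nat_lit 20], false, nat_lit 160, nat_lit 300, nat_lit 0, nat_lit 396, ⟨nat_lit 0, nat_lit 1000, nat_lit 0, nat_lit 4, nat_lit 183, nat_lit 1000, nat_lit 177, nat_lit 0, nat_lit 0, nat_lit 0, nat_lit 0, nat_lit 0, nat_lit 0, nat_lit 0, nat_lit 0, nat_lit 5000000, false, true⟩,
 nat_lit 0, nat_lit 8038, nat_lit 0, nat_lit 0, nat_lit 6028, nat_lit 0, nat_lit 0, nat_lit 0, nat_lit 0, nat_lit 0, nat_lit 0, nat_lit 0, nat_lit 0, nat_lit 0, nat_lit 23, nat_lit 1000000, nat_lit 0, nat_lit 0, [(nat_lit 18, [(nat_lit 2, nat_lit 1000)])],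
 ⟨p076_k18, nat_lit 0, nat_lit 0, nat_lit 208, nat_lit 0, nat_lit 242934, [nat_lit 1885866667, nat_lit 1413333334, nat_lit 16800000], [], [nat_lit 29383133390, nat_lit 27799113634, nat_lit 28091284432, nat_lit 28781053416, nat_lit 27674783873, nat_lit 28642756230, nat_lit 32700396639, nat_lit 32222201746], nat_lit 1271250, nat_lit 1271250, nat_lit 88400, nat_lit 2569500, nat_lit 1100001, nat_lit 2298750, [nat_lit 490000, nat_lit 1100000, nat_lit 1442500], [nat_lit 6, nat_lit 40, nat_lit 40, nat_lit 80, nat_lit 3, nat_lit 401, nat_lit 175, nat_lit 15]⟩, ⟨p076_k25, nat_lit 0, nat_lit 0, nat_lit 825, nat_lit 0, nat_lit 710114, [nat_lit 0, nat_lit 0, nat_lit 0], [], [nat_lit 0, nat_lit 0, nat_lit 0, nat_lit 0, nat_lit 0, nat_lit 0, nat_lit 0, nat_lit 0], nat_lit 1100001, nat_lit 1442500, nat_lit 88400, nat_lit 2569500, nat_lit 0, nat_lit 2796750, [nat_lit 1695000, nat_lit 1271250, nat_lit 1271250], [nat_lit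 62, nat_lit 40, nat_lit 40, nat_lit 80, nat_lit 58, nat_lit 483, nat_lit 250, nat_lit 12]⟩,
 ⟨nat_lit 4183, nat_lit 4473, ⟨.ofNat (nat_lit 144166), .ofNat (nat_lit 728778), .ofNat (nat_lit 187296), .ofNat (nat_lit 771911), .ofNat (nat_lit 151889), .ofNat (nat_lit 721688), .ofNat (nat_lit 195219), .ofNat (nat_lit 765021)⟩, ⟨.ofNat (nat_lit 302621), .ofNat (nat_lit 540545), .ofNat (nat_lit 345754), .ofNat (nat_lit 583678), .ofNat (nat_lit 303743), .ofNat (nat_lit 535637), .ofNat (nat_lit 347076), .ofNat (nat_lit 578971)⟩⟩, [⟨nat_lit 13, nat_lit 80, nat_lit 60, nat_lit 100, nat_lit 60412597⟩, ⟨nat_lit 16, nat_lit 87, nat_lit 95, nat_lit 100, nat_lit 246123948⟩]⟩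
noncomputable def p076_l146 : Lf2 := ⟨nat_lit 0, nat_lit 10, [nat_lit 0, nat_lit 5, nat_lit 5, nat_lit 20], true, nat_lit 160, nat_lit 288, nat_lit 0, nat_lit 396, ⟨nat_lit 0, nat_lit 1000, nat_lit 0, nat_lit 4, nat_lit 183, nat_lit 1000, nat_lit 172, nat_lit 0, nat_lit 0, nat_lit 0, nat_lit 0, nat_lit 0, nat_lit 0, nat_lit 0, nat_lit 0, nat_lit 5000000, false, true⟩,
 nat_lit 0, nat_lit 6014, nat_lit 0, nat_lit 0, nat_lit 4688, nat_lit 0, nat_lit 91, nat_lit 0, nat_lit 0, nat_lit 0, nat_lit 0, nat_lit 0, nat_lit 0, nat_lit 0, nat_lit 23, nat_lit 1000000, nat_lit 0, nat_lit 0, [(nat_lit 18, [(nat_lit 2, nat_lit 1000)])],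
 ⟨p076_k22, nat_lit 0, nat_lit 0, nat_lit 264, nat_lit 0, nat_lit 439914, [nat_lit 1885866667, nat_lit 1413333334, nat_lit 16800000], [], [nat_lit 25576010376, nat_lit 24347843448, nat_lit 26928695128, nat_lit 27550633738, nat_lit 25042013661, nat_lit 25903641485, nat_lit 31128732845, nat_lit 30572411229], nat_lit 1271250, nat_lit 1271250, nat_lit 134400, nat_lit 2524700, nat_lit 1100001, nat_lit 2196000, [nat_lit 490000, nat_lit 1100000, nat_lit 1442500], [nat_lit 6, nat_lit 40, nat_lit 40, nat_lit 80, nat_lit 3, nat_lit 401, nat_lit 175, nat_lit 15]⟩, C1.Rw.none,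
 ⟨nat_lit 3872, nat_lit 4184, ⟨.ofNat (nat_lit 165138), .ofNat (nat_lit 708436), .ofNat (nat_lit 208462), .ofNat (nat_lit 751770), .ofNat (nat_lit 172514), .ofNat (nat_lit 701594), .ofNat (nat_lit 216092), .ofNat (nat_lit 745180)⟩, ⟨.ofNat (nat_lit 303743), .ofNat (nat_lit 515761), .ofNat (nat_lit 347076), .ofNat (nat_lit 559094), .ofNat (nat_lit 304717), .ofNat (nat_lit 511186), .ofNat (nat_lit 348304), .ofNat (nat_lit 554773)⟩⟩, [⟨nat_lit 13, nat_lit 76, nat_lit 65, nat_lit 100, nat_lit 117459809⟩, ⟨nat_lit 16, nat_lit 83, nat_lit 98, nat_lit 100, nat_lit 254549444⟩]⟩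
noncomputable def p076_l147 : Lf2 := ⟨nat_lit 0, nat_lit 10, [nat_lit 0, nat_lit 5, nat_lit 5, nat_lit 20], true, nat_lit 160, nat_lit 276, nat_lit 0, nat_lit 396, ⟨nat_lit 0, nat_lit 1000, nat_lit 0, nat_lit 4, nat_lit 184, nat_lit 1000, nat_lit 167, nat_lit 0, nat_lit 0, nat_lit 0, nat_lit 0, nat_lit 0, nat_lit 0, nat_lit 0, nat_lit 0, nat_lit 5000000, false, true⟩,
 nat_lit 0, nat_lit 4186, nat_lit 0, nat_lit 0, nat_lit 3388, nat_lit 0, nat_lit 487, nat_lit 0, nat_lit 0, nat_lit 0, nat_lit 0, nat_lit 0, nat_lit 0, nat_lit 0, nat_lit 0, nat_lit 400000, nat_lit 0, nat_lit 0, [(nat_lit 21, [(nat_lit 1, nat_lit 1000)])],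
 ⟨p076_k24, nat_lit 0, nat_lit 0, nat_lit 335, nat_lit 0, nat_lit 611115, [nat_lit 1355200000, nat_lit 1492800001, nat_lit 1492000000], [], [nat_lit 22164918786, nat_lit 20816393703, nat_lit 26548644511, nat_lit 27340431732, nat_lit 23403271282, nat_lit 24451086552, nat_lit 29374045940, nat_lit 29476870220], nat_lit 1271250, nat_lit 1271250, nat_lit 181601, nat_lit 2478700, nat_lit 1100001, nat_lit 2093250, [nat_lit 490000, nat_lit 1100000, nat_lit 1442500], [nat_lit 6, nat_lit 40, nat_lit 40, nat_lit 80, nat_lit 3, nat_lit 401, nat_lit 175, nat_lit 15]⟩, C1.Rw.none,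
 ⟨nat_lit 3162, nat_lit 3873, ⟨.ofNat (nat_lit 185344), .ofNat (nat_lit 688690), .ofNat (nat_lit 228873), .ofNat (nat_lit 732276), .ofNat (nat_lit 199607), .ofNat (nat_lit 675121), .ofNat (nat_lit 243860), .ofNat (nat_lit 719431)⟩, ⟨.ofNat (nat_lit 304717), .ofNat (nat_lit 491830), .ofNat (nat_lit 348304), .ofNat (nat_lit 535416), .ofNat (nat_lit 306116), .ofNat (nat_lit 482881), .ofNat (nat_lit 350426), .ofNat (nat_lit 527190)⟩⟩, [⟨nat_lit 13, nat_lit 66, nat_lit 82, nat_lit 100, nat_lit 53645695⟩, ⟨nat_lit 13, nat_lit 71, nat_lit 70, nat_lit 100, nat_lit 134705621⟩, ⟨nat_lit 16, nat_lit 77, nat_lit 100, nat_lit 99, nat_lit 250179713⟩]⟩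
noncomputable def b_V_800_400_20_5 : St := ⟨true, nat_lit 1, nat_lit 2, nat_lit 2, nat_lit 120, nat_lit 320, nat_lit 360, nat_lit 160, nat_lit 200, nat_lit 16, nat_lit 360, nat_lit 80, nat_lit 120, nat_lit 0, nat_lit 300, nat_lit 0, nat_lit 396, nat_lit 0, nat_lit 40, nat_lit 0, nat_lit 0, nat_lit 0, nat_lit 0⟩
theorem d_V_800_400_20_5 (h : EB TB.env) : Dead b_V_800_400_20_5 := chkB_sound0 h (T :=
(.st (nat_lit 1)
(.spl (nat_lit 4) (nat_lit 160)
(.spl (nat_lit 2) (nat_lit 160)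
(.leaf p076_l140)
(.leaf p076_l141))
(.spl (nat_lit 2) (nat_lit 160)
(.leaf p076_l142)
(.leaf p076_l143)))
(.spl (nat_lit 4) (nat_lit 160)
(.leaf p076_l144)
(.spl (nat_lit 0) (nat_lit 340)
(.spl (nat_lit 0) (nat_lit 330)
(.leaf p076_l145)
(.trZ (nat_lit 0) (nat_lit 100) (nat_lit 78) (nat_lit 49) (nat_lit 24) (.trX (nat_lit 13) (nat_lit 76) (nat_lit 65) (nat_lit 100) (nat_lit 352) (.trX (nat_lit 16) (nat_lit 83) (nat_lit 98) (nat_lit 100) (nat_lit 288) (.leaf p076_l146)))))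
(.trZ (nat_lit 0) (nat_lit 100) (nat_lit 73) (nat_lit 55) (nat_lit 32) (.trX (nat_lit 13) (nat_lit 71) (nat_lit 70) (nat_lit 100) (nat_lit 344) (.trX (nat_lit 16) (nat_lit 77) (nat_lit 100) (nat_lit 99) (nat_lit 276) (.leaf p076_l147)))))))) (by decide +kernel)

end B2
end Pool.Agent.Lib.MP_6947cd_al
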