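import Pool.Agent.Lib.MP_6947cd_al.ZB.Pre

/-!
Problem MP_6947cd_al (Chollet).  Case B, second entry in [2/5, 17/20]: certificates of the tree, part P077 (generated).
-/

set_option autoImplicit false
set_option linter.all false

namespace Pool.Agent.Lib.MP_6947cd_al
namespace B2

open Ent Fr B1 PkA

noncomputable def p077_k0 : C1.Kn := ⟨[nat_lit 40, nat_lit 140], [nat_lit 0, nat_lit 0], [(nat_lit 0, nat_lit 0, nat_lit 0), (nat_lit 0, nat_lit 0, nat_lit 0)], (nat_lit 83, nat_lit 100, nat_lit 81)⟩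
noncomputable def p077_k1 : C1.Kn := ⟨[nat_lit 40, nat_lit 100, nat_lit 120], [nat_lit 0, nat_lit 0, nat_lit 2151], [(nat_lit 0, nat_lit 0, nat_lit 0), (nat_lit 0, nat_lit 0, nat_lit 0), (nat_lit 1000, nat_lit 815, nat_lit 753)], (nat_lit 80, nat_lit 100, nat_lit 63)⟩
noncomputable def p077_k2 : C1.Kn := ⟨[nat_lit 120, nat_lit 180], [nat_lit 0, nat_lit 0], [(nat_lit 0, nat_lit 0, nat_lit 0), (nat_lit 0, nat_lit 0, nat_lit 0)], (nat_lit 100, nat_lit 65, nat_lit 64)⟩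
noncomputable def p077_k3 : C1.Kn := ⟨[nat_lit 40, nat_lit 120], [nat_lit 0, nat_lit 1589], [(nat_lit 0, nat_lit 0, nat_lit 0), (nat_lit 1000, nat_lit 814, nat_lit 310)], (nat_lit 72, nat_lit 100, nat_lit 79)⟩
noncomputable def p077_k4 : C1.Kn := ⟨[nat_lit 40, nat_lit 80, nat_lit 120], [nat_lit 0, nat_lit 795, nat_lit 2800], [(nat_lit 0, nat_lit 0, nat_lit 0), (nat_lit 1000, nat_lit 814, nat_lit 310), (nat_lit 1000, nat_lit 719, nat_lit 783)], (nat_lit 72, nat_lit 100, nat_lit 79)⟩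
noncomputable def p077_k5 : C1.Kn := ⟨[nat_lit 120, nat_lit 160, nat_lit 200], [nat_lit 0, nat_lit 0, nat_lit 3198], [(nat_lit 0, nat_lit 0, nat_lit 0), (nat_lit 0, nat_lit 0, nat_lit 0), (nat_lit 572, nat_lit 1000, nat_lit 714)], (nat_lit 0, nat_lit 0, nat_lit 0)⟩
noncomputable def p077_k6 : C1.Kn := ⟨[nat_lit 40, nat_lit 80, nat_lit 140], [nat_lit 0, nat_lit 0, nat_lit 3199], [(nat_lit 0, nat_lit 0, nat_lit 0), (nat_lit 0, nat_lit 0, nat_lit 0), (nat_lit 1000, nat_lit 833, nat_lit 833)], (nat_lit 83, nat_lit 100, nat_lit 81)⟩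
noncomputable def p077_k7 : C1.Kn := ⟨[nat_lit 40, nat_lit 80, nat_lit 100], [nat_lit 0, nat_lit 395, nat_lit 1536], [(nat_lit 0, nat_lit 0, nat_lit 0), (nat_lit 1000, nat_lit 908, nat_lit 154), (nat_lit 1000, nat_lit 760, nat_lit 642)], (nat_lit 76, nat_lit 100, nat_lit 63)⟩
noncomputable def p077_k8 : C1.Kn := ⟨[nat_lit 120, nat_lit 160, nat_lit 180], [nat_lit 0, nat_lit 0, nat_lit 1613], [(nat_lit 0, nat_lit 0, nat_lit 0), (nat_lit 0, nat_lit 0, nat_lit 0), (nat_lit 620, nat_lit 1000, nat_lit 670)], (nat_lit 100, nat_lit 65, nat_lit 64)⟩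
noncomputable def p077_k9 : C1.Kn := ⟨[nat_lit 40, nat_lit 80, nat_lit 120], [nat_lit 0, nat_lit 0, nat_lit 2151], [(nat_lit 0, nat_lit 0, nat_lit 0), (nat_lit 0, nat_lit 0, nat_lit 0), (nat_lit 1000, nat_lit 815, nat_lit 753)], (nat_lit 80, nat_lit 100, nat_lit 63)⟩
noncomputable def p077_k10 : C1.Kn := ⟨[nat_lit 40, nat_lit 80, nat_lit 120], [nat_lit 0, nat_lit 1195, nat_lit 3135], [(nat_lit 0, nat_lit 0, nat_lit 0), (nat_lit 1000, nat_lit 720, nat_lit 465), (nat_lit 1000, nat_lit 661, nat_lit 757)], (nat_lit 66, nat_lit 100, nat_lit 79)⟩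
noncomputable def p077_k11 : C1.Kn := ⟨[nat_lit 120, nat_lit 160, nat_lit 200], [nat_lit 0, nat_lit 533, nat_lit 3597], [(nat_lit 0, nat_lit 0, nat_lit 0), (nat_lit 960, nat_lit 1000, nat_lit 200), (nat_lit 612, nat_lit 1000, nat_lit 732)], (nat_lit 0, nat_lit 0, nat_lit 0)⟩
noncomputable def p077_k12 : C1.Kn := ⟨[nat_lit 120, nat_lit 160, nat_lit 200], [nat_lit 0, nat_lit 797, nat_lit 3800], [(nat_lit 0, nat_lit 0, nat_lit 0), (nat_lit 942, nat_lit 1000, nat_lit 293), (nat_lit 634, nat_lit 1000, nat_lit 743)], (nat_lit 0, nat_lit 0, nat_lit 0)⟩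
noncomputable def p077_k13 : C1.Kn := ⟨[nat_lit 120, nat_lit 200], [nat_lit 0, nat_lit 0], [(nat_lit 0, nat_lit 0, nat_lit 0), (nat_lit 0, nat_lit 0, nat_lit 0)], (nat_lit 0, nat_lit 0, nat_lit 0)⟩
noncomputable def p077_k14 : C1.Kn := ⟨[nat_lit 40, nat_lit 100], [nat_lit 0, nat_lit 0], [(nat_lit 0, nat_lit 0, nat_lit 0), (nat_lit 0, nat_lit 0, nat_lit 0)], (nat_lit 80, nat_lit 100, nat_lit 60)⟩
noncomputable def p077_k15 : C1.Kn := ⟨[nat_lit 100, nat_lit 160], [nat_lit 0, nat_lit 0], [(nat_lit 0, nat_lit 0, nat_lit 0), (nat_lit 0, nat_lit 0, nat_lit 0)], (nat_lit 100, nat_lit 80, nat_lit 60)⟩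
noncomputable def p077_k16 : C1.Kn := ⟨[nat_lit 40, nat_lit 100], [nat_lit 0, nat_lit 1192], [(nat_lit 0, nat_lit 0, nat_lit 0), (nat_lit 1000, nat_lit 814, nat_lit 310)], (nat_lit 72, nat_lit 100, nat_lit 61)⟩
noncomputable def p077_k17 : C1.Kn := ⟨[nat_lit 40, nat_lit 80, nat_lit 100], [nat_lit 0, nat_lit 0, nat_lit 1280], [(nat_lit 0, nat_lit 0, nat_lit 0), (nat_lit 0, nat_lit 0, nat_lit 0), (nat_lit 1000, nat_lit 800, nat_lit 600)], (nat_lit 80, nat_lit 100, nat_lit 60)⟩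
noncomputable def p077_k18 : C1.Kn := ⟨[nat_lit 100, nat_lit 140, nat_lit 160], [nat_lit 0, nat_lit 0, nat_lit 1280], [(nat_lit 0, nat_lit 0, nat_lit 0), (nat_lit 0, nat_lit 0, nat_lit 0), (nat_lit 800, nat_lit 1000, nat_lit 600)], (nat_lit 100, nat_lit 80, nat_lit 60)⟩
noncomputable def p077_k19 : C1.Kn := ⟨[nat_lit 100, nat_lit 140, nat_lit 160], [nat_lit 0, nat_lit 508, nat_lit 1689], [(nat_lit 0, nat_lit 0, nat_lit 0), (nat_lit 1000, nat_lit 1000, nat_lit 198), (nat_lit 811, nat_lit 1000, nat_lit 671)], (nat_lit 100, nat_lit 86, nat_lit 60)⟩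
noncomputable def p077_k20 : C1.Kn := ⟨[nat_lit 40, nat_lit 80, nat_lit 100], [nat_lit 0, nat_lit 795, nat_lit 1829], [(nat_lit 0, nat_lit 0, nat_lit 0), (nat_lit 1000, nat_lit 814, nat_lit 310), (nat_lit 1000, nat_lit 714, nat_lit 692)], (nat_lit 72, nat_lit 100, nat_lit 61)⟩
noncomputable def p077_k21 : C1.Kn := ⟨[nat_lit 40, nat_lit 80, nat_lit 100], [nat_lit 0, nat_lit 395, nat_lit 1536], [(nat_lit 0, nat_lit 0, nat_lit 0), (nat_lit 1000, nat_lit 908, nat_lit 154), (nat_lit 1000, nat_lit 760, nat_lit 642)], (nat_lit 76, nat_lit 100, nat_lit 60)⟩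
noncomputable def p077_k22 : C1.Kn := ⟨[nat_lit 40, nat_lit 80], [nat_lit 0, nat_lit 1195], [(nat_lit 0, nat_lit 0, nat_lit 0), (nat_lit 1000, nat_lit 720, nat_lit 465)], (nat_lit 68, nat_lit 100, nat_lit 61)⟩
noncomputable def p077_k23 : C1.Kn := ⟨[nat_lit 40, nat_lit 80], [nat_lit 0, nat_lit 795], [(nat_lit 0, nat_lit 0, nat_lit 0), (nat_lit 1000, nat_lit 814, nat_lit 310)], (nat_lit 75, nat_lit 100, nat_lit 46)⟩
noncomputable def p077_k24 : C1.Kn := ⟨[nat_lit 100, nat_lit 140], [nat_lit 0, nat_lit 508], [(nat_lit 0, nat_lit 0, nat_lit 0), (nat_lit 1000, nat_lit 1000, nat_lit 198)], (nat_lit 100, nat_lit 94, nat_lit 44)⟩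
noncomputable def p077_k25 : C1.Kn := ⟨[nat_lit 40, nat_lit 80, nat_lit 100], [nat_lit 0, nat_lit 192, nat_lit 1404], [(nat_lit 0, nat_lit 0, nat_lit 0), (nat_lit 1000, nat_lit 955, nat_lit 75), (nat_lit 1000, nat_lit 781, nat_lit 625)], (nat_lit 78, nat_lit 100, nat_lit 60)⟩
noncomputable def p077_k26 : C1.Kn := ⟨[nat_lit 100, nat_lit 140, nat_lit 160], [nat_lit 0, nat_lit 256, nat_lit 1478], [(nat_lit 0, nat_lit 0, nat_lit 0), (nat_lit 1000, nat_lit 1000, nat_lit 100), (nat_lit 806, nat_lit 1000, nat_lit 633)], (nat_lit 100, nat_lit 83, nat_lit 60)⟩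
noncomputable def p077_k27 : C1.Kn := ⟨[nat_lit 40, nat_lit 140], [nat_lit 0, nat_lit 0], [(nat_lit 0, nat_lit 0, nat_lit 0), (nat_lit 0, nat_lit 0, nat_lit 0)], (nat_lit 83, nat_lit 100, nat_lit 83)⟩
noncomputable def p077_k28 : C1.Kn := ⟨[nat_lit 100, nat_lit 180], [nat_lit 0, nat_lit 0], [(nat_lit 0, nat_lit 0, nat_lit 0), (nat_lit 0, nat_lit 0, nat_lit 0)], (nat_lit 100, nat_lit 60, nat_lit 80)⟩
noncomputable def p077_k29 : C1.Kn := ⟨[nat_lit 40, nat_lit 120], [nat_lit 0, nat_lit 1589], [(nat_lit 0, nat_lit 0, nat_lit 0), (nat_lit 1000, nat_lit 814, nat_lit 310)], (nat_lit 72, nat_lit 100, nat_lit 81)⟩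
noncomputable def p077_l0 : Lf2 := ⟨nat_lit 0, nat_lit 19, [nat_lit 120, nat_lit 5, nat_lit 5, nat_lit 20], true, nat_lit 0, nat_lit 160, nat_lit 0, nat_lit 396, ⟨nat_lit 0, nat_lit 0, nat_lit 1000, nat_lit 4, nat_lit 119, nat_lit 1000, nat_lit 65, nat_lit 1000, nat_lit 40017, nat_lit 264, nat_lit 132017, nat_lit 304, nat_lit 61553016, nat_lit 0, nat_lit 0, nat_lit 1409640, false, false⟩,
 nat_lit 0, nat_lit 0, nat_lit 0, nat_lit 6967, nat_lit 2682, nat_lit 0, nat_lit 0, nat_lit 0, nat_lit 0, nat_lit 0, nat_lit 0, nat_lit 0, nat_lit 0, nat_lit 0, nat_lit 129, nat_lit 400000, nat_lit 0, nat_lit 0, [(nat_lit 19, [(nat_lit 5, nat_lit 1000)]), (nat_lit 22, [(nat_lit 5, nat_lit 1000)])],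
 ⟨p077_k0, nat_lit 0, nat_lit 0, nat_lit 307, nat_lit 0, nat_lit 0, [nat_lit 2456800001, nat_lit 268000000], [], [nat_lit 18770079517, nat_lit 21060017244, nat_lit 19494691635, nat_lit 21480202867, nat_lit 19305136423, nat_lit 21271988880, nat_lit 20062453099, nat_lit 22267317428], nat_lit 0, nat_lit 0, nat_lit 0, nat_lit 0, nat_lit 0, nat_lit 0, [], [nat_lit 94, nat_lit 40, nat_lit 40, nat_lit 80, nat_lit 95, nat_lit 317, nat_lit 100, nat_lit 9]⟩, C1.Rw.none,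
 ⟨nat_lit 3162, nat_lit 4473, ⟨.ofNat (nat_lit 143971), .ofNat (nat_lit 388887), .ofNat (nat_lit 186943), .ofNat (nat_lit 431944), .ofNat (nat_lit 175109), .ofNat (nat_lit 394735), .ofNat (nat_lit 219258), .ofNat (nat_lit 438969)⟩, ⟨.ofNat (nat_lit 0), .ofNat (nat_lit 302621), .ofNat (nat_lit 0), .ofNat (nat_lit 345754), .ofNat (nat_lit 0), .ofNat (nat_lit 306116), .ofNat (nat_lit 0), .ofNat (nat_lit 350426)⟩⟩, [⟨nat_lit 0, nat_lit 100, nat_lit 60, nat_lit 80, nat_lit 62644453⟩, ⟨nat_lit 3, nat_lit 100, nat_lit 65, nat_lit 54, nat_lit 75976966⟩]⟩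
noncomputable def p077_l1 : Lf2 := ⟨nat_lit 0, nat_lit 11, [nat_lit 191, nat_lit 5, nat_lit 5, nat_lit 20], false, nat_lit 0, nat_lit 160, nat_lit 0, nat_lit 396, ⟨nat_lit 259, nat_lit 0, nat_lit 741, nat_lit 4, nat_lit 231, nat_lit 741, nat_lit 65, nat_lit 741, nat_lit 40017, nat_lit 264, nat_lit 272572, nat_lit 200, nat_lit 50235150, nat_lit 0, nat_lit 0, nat_lit 2812891, false, true⟩,
 nat_lit 0, nat_lit 0, nat_lit 0, nat_lit 10840, nat_lit 2992, nat_lit 2261, nat_lit 0, nat_lit 0, nat_lit 0, nat_lit 0, nat_lit 0, nat_lit 0, nat_lit 0, nat_lit 0, nat_lit 18, nat_lit 352200, nat_lit 0, nat_lit 0, [(nat_lit 19, [(nat_lit 5, nat_lit 648), (nat_lit 6, nat_lit 93)])],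
 ⟨p077_k1, nat_lit 0, nat_lit 0, nat_lit 189, nat_lit 0, nat_lit 0, [nat_lit 1542664001, nat_lit 846979601, nat_lit 23041200], [], [nat_lit 20501577570, nat_lit 21518081778, nat_lit 26946768800, nat_lit 28082850112, nat_lit 20656835714, nat_lit 21530113090, nat_lit 26231328483, nat_lit 26888088179], nat_lit 0, nat_lit 0, nat_lit 0, nat_lit 0, nat_lit 0, nat_lit 0, [], [nat_lit 102, nat_lit 40, nat_lit 40, nat_lit 80, nat_lit 2, nat_lit 373, nat_lit 150, nat_lit 12]⟩, ⟨p077_k2, nat_lit 0, nat_lit 0, nat_lit 279, nat_lit 0, nat_lit 0, [nat_lit 2063712000, nat_lit 3641022000], [], [nat_lit 10323880420, nat_lit 10480244936, nat_lit 12451479152, nat_lit 12449638180, nat_lit 10991250259, nat_lit 10907081167, nat_lit 11865810823, nat_lit 11697901267], nat_lit 0, nat_lit 0, nat_lit 0, nat_lit 0, nat_lit 0, nat_lit 0, [], [nat_lit 121, nat_lit 40, nat_lit 40, nat_lit 80, nat_lit 28, nat_lit 483, nat_lit 250, nat_lit 11]⟩,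
 ⟨nat_lit 3872, nat_lit 4473, ⟨.ofNat (nat_lit 388887), .ofNat (nat_lit 728778), .ofNat (nat_lit 432013), .ofNat (nat_lit 771911), .ofNat (nat_lit 391890), .ofNat (nat_lit 714498), .ofNat (nat_lit 435470), .ofNat (nat_lit 758085)⟩, ⟨.ofNat (nat_lit 0), .ofNat (nat_lit 302621), .ofNat (nat_lit 0), .ofNat (nat_lit 345754), .ofNat (nat_lit 0), .ofNat (nat_lit 304717), .ofNat (nat_lit 0), .ofNat (nat_lit 348304)⟩⟩, [⟨nat_lit 22, nat_lit 100, nat_lit 85, nat_lit 84, nat_lit 51664253⟩]⟩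
noncomputable def p077_l2 : Lf2 := ⟨nat_lit 1, nat_lit 19, [nat_lit 120, nat_lit 5, nat_lit 5, nat_lit 20], false, nat_lit 0, nat_lit 160, nat_lit 0, nat_lit 396, zbN0,
 nat_lit 0, nat_lit 0, nat_lit 0, nat_lit 0, nat_lit 0, nat_lit 0, nat_lit 0, nat_lit 0, nat_lit 0, nat_lit 0, nat_lit 0, nat_lit 0, nat_lit 0, nat_lit 0, nat_lit 0, nat_lit 0, nat_lit 0, nat_lit 0, [],
 C1.Rw.none, C1.Rw.none,
 zbF0, []⟩
noncomputable def p077_l3 : Lf2 := ⟨nat_lit 0, nat_lit 19, [nat_lit 120, nat_lit 5, nat_lit 5, nat_lit 20], true, nat_lit 0, nat_lit 160, nat_lit 0, nat_lit 396, ⟨nat_lit 0, nat_lit 177, nat_lit 823, nat_lit 4, nat_lit 191, nat_lit 1000, nat_lit 65, nat_lit 823, nat_lit 40017, nat_lit 264, nat_lit 4566, nat_lit 226, nat_lit 54538059, nat_lit 12461941, nat_lit 0, nat_lit 2401845, false, true⟩,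
 nat_lit 0, nat_lit 0, nat_lit 0, nat_lit 5169, nat_lit 2996, nat_lit 0, nat_lit 0, nat_lit 0, nat_lit 0, nat_lit 0, nat_lit 0, nat_lit 0, nat_lit 0, nat_lit 0, nat_lit 58, nat_lit 250000, nat_lit 0, nat_lit 0, [(nat_lit 22, [(nat_lit 0, nat_lit 177), (nat_lit 4, nat_lit 823)])],
 ⟨p077_k3, nat_lit 0, nat_lit 0, nat_lit 148, nat_lit 0, nat_lit 0, [nat_lit 1968793600, nat_lit 13915429], [], [nat_lit 19876379357, nat_lit 21067547781, nat_lit 22026610029, nat_lit 23079076464, nat_lit 20057937525, nat_lit 21075172949, nat_lit 22002677920, nat_lit 23123518800], nat_lit 0, nat_lit 0, nat_lit 0, nat_lit 0, nat_lit 0, nat_lit 0, [], [nat_lit 110, nat_lit 40, nat_lit 40, nat_lit 80, nat_lit 109, nat_lit 317, nat_lit 100, nat_lit 10]⟩, C1.Rw.none,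
 ⟨nat_lit 3162, nat_lit 3873, ⟨.ofNat (nat_lit 391890), .ofNat (nat_lit 520934), .ofNat (nat_lit 435446), .ofNat (nat_lit 564520), .ofNat (nat_lit 394735), .ofNat (nat_lit 516642), .ofNat (nat_lit 439014), .ofNat (nat_lit 560952)⟩, ⟨.ofNat (nat_lit 0), .ofNat (nat_lit 304717), .ofNat (nat_lit 0), .ofNat (nat_lit 348304), .ofNat (nat_lit 0), .ofNat (nat_lit 306116), .ofNat (nat_lit 0), .ofNat (nat_lit 350426)⟩⟩, [⟨nat_lit 3, nat_lit 100, nat_lit 65, nat_lit 54, nat_lit 99508774⟩]⟩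
noncomputable def p077_l4 : Lf2 := ⟨nat_lit 0, nat_lit 19, [nat_lit 120, nat_lit 5, nat_lit 5, nat_lit 20], false, nat_lit 0, nat_lit 160, nat_lit 0, nat_lit 384, ⟨nat_lit 338, nat_lit 0, nat_lit 662, nat_lit 6, nat_lit 249, nat_lit 662, nat_lit 65, nat_lit 662, nat_lit 40017, nat_lit 264, nat_lit 193302, nat_lit 200, nat_lit 48295838, nat_lit 0, nat_lit 0, nat_lit 2960821, false, true⟩,
 nat_lit 0, nat_lit 0, nat_lit 0, nat_lit 9361, nat_lit 3255, nat_lit 2816, nat_lit 0, nat_lit 0, nat_lit 0, nat_lit 272, nat_lit 0, nat_lit 0, nat_lit 0, nat_lit 0, nat_lit 0, nat_lit 264800, nat_lit 0, nat_lit 0, [(nat_lit 22, [(nat_lit 5, nat_lit 662)])],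
 ⟨p077_k4, nat_lit 0, nat_lit 0, nat_lit 180, nat_lit 0, nat_lit 0, [nat_lit 1332928001, nat_lit 1050707200, nat_lit 327753334], [], [nat_lit 23457205875, nat_lit 24439216115, nat_lit 27752081595, nat_lit 28986240216, nat_lit 23082355945, nat_lit 23926287875, nat_lit 26307097944, nat_lit 27042846329], nat_lit 0, nat_lit 0, nat_lit 0, nat_lit 0, nat_lit 0, nat_lit 0, [], [nat_lit 34, nat_lit 40, nat_lit 40, nat_lit 80, nat_lit 7, nat_lit 249, nat_lit 40, nat_lit 7]⟩, ⟨p077_k5, nat_lit 0, nat_lit 0, nat_lit 409, nat_lit 0, nat_lit 0, [nat_lit 2693184000, nat_lit 4012736000, nat_lit 5543200000], [], [nat_lit 13478543216, nat_lit 13519930184, nat_lit 15020367321, nat_lit 14974586759, nat_lit 13008033669, nat_lit 12928425333, nat_lit 13812007523, nat_lit 13684994151], nat_lit 0, nat_lit 0, nat_lit 0, nat_lit 0, nat_lit 0, nat_lit 0, [], [nat_lit 97, nat_lit 40, nat_lit 40, nat_lit 80, nat_lit 76, nat_lit 483, nat_lit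 250, nat_lit 10]⟩,
 ⟨nat_lit 3162, nat_lit 3873, ⟨.ofNat (nat_lit 520934), .ofNat (nat_lit 688690), .ofNat (nat_lit 564520), .ofNat (nat_lit 732276), .ofNat (nat_lit 516642), .ofNat (nat_lit 675121), .ofNat (nat_lit 560952), .ofNat (nat_lit 719431)⟩, ⟨.ofNat (nat_lit 0), .ofNat (nat_lit 304717), .ofNat (nat_lit 0), .ofNat (nat_lit 348304), .ofNat (nat_lit 0), .ofNat (nat_lit 306116), .ofNat (nat_lit 0), .ofNat (nat_lit 350426)⟩⟩, [⟨nat_lit 13, nat_lit 61, nat_lit 92, nat_lit 100, nat_lit 7206963⟩, ⟨nat_lit 22, nat_lit 99, nat_lit 100, nat_lit 89, nat_lit 58171659⟩]⟩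
noncomputable def p077_l5 : Lf2 := ⟨nat_lit 0, nat_lit 19, [nat_lit 120, nat_lit 5, nat_lit 5, nat_lit 20], true, nat_lit 160, nat_lit 300, nat_lit 0, nat_lit 396, ⟨nat_lit 0, nat_lit 0, nat_lit 1000, nat_lit 4, nat_lit 119, nat_lit 1000, nat_lit 176, nat_lit 1000, nat_lit 1169, nat_lit 218, nat_lit 132017, nat_lit 304, nat_lit 50295512, nat_lit 0, nat_lit 0, nat_lit 3860240, false, false⟩,
 nat_lit 0, nat_lit 0, nat_lit 0, nat_lit 7976, nat_lit 2997, nat_lit 0, nat_lit 0, nat_lit 0, nat_lit 0, nat_lit 0, nat_lit 0, nat_lit 0, nat_lit 0, nat_lit 0, nat_lit 81, nat_lit 250000, nat_lit 0, nat_lit 0, [(nat_lit 19, [(nat_lit 4, nat_lit 1000)]), (nat_lit 22, [(nat_lit 4, nat_lit 1000)])],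
 ⟨p077_k0, nat_lit 0, nat_lit 0, nat_lit 170, nat_lit 0, nat_lit 0, [nat_lit 2166400000, nat_lit 172800000], [], [nat_lit 19392989281, nat_lit 21571475455, nat_lit 19804099440, nat_lit 21691168952, nat_lit 23604455801, nat_lit 25397851315, nat_lit 23511504394, nat_lit 25433799128], nat_lit 0, nat_lit 0, nat_lit 0, nat_lit 0, nat_lit 0, nat_lit 0, [], [nat_lit 94, nat_lit 40, nat_lit 40, nat_lit 80, nat_lit 95, nat_lit 345, nat_lit 125, nat_lit 10]⟩, C1.Rw.none,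
 ⟨nat_lit 3162, nat_lit 4473, ⟨.ofNat (nat_lit 143971), .ofNat (nat_lit 388887), .ofNat (nat_lit 186943), .ofNat (nat_lit 431944), .ofNat (nat_lit 175109), .ofNat (nat_lit 394735), .ofNat (nat_lit 219258), .ofNat (nat_lit 438969)⟩, ⟨.ofNat (nat_lit 302621), .ofNat (nat_lit 540545), .ofNat (nat_lit 345754), .ofNat (nat_lit 583678), .ofNat (nat_lit 306116), .ofNat (nat_lit 519453), .ofNat (nat_lit 350426), .ofNat (nat_lit 563762)⟩⟩, [⟨nat_lit 0, nat_lit 100, nat_lit 60, nat_lit 80, nat_lit 84899256⟩, ⟨nat_lit 4, nat_lit 100, nat_lit 74, nat_lit 90, nat_lit 253809916⟩]⟩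
noncomputable def p077_l6 : Lf2 := ⟨nat_lit 0, nat_lit 19, [nat_lit 120, nat_lit 5, nat_lit 5, nat_lit 20], true, nat_lit 160, nat_lit 300, nat_lit 0, nat_lit 396, ⟨nat_lit 0, nat_lit 1000, nat_lit 0, nat_lit 4, nat_lit 231, nat_lit 1000, nat_lit 177, nat_lit 0, nat_lit 0, nat_lit 0, nat_lit 0, nat_lit 0, nat_lit 41706011, nat_lit 15316478, nat_lit 9977511, nat_lit 4931606, false, true⟩,
 nat_lit 0, nat_lit 0, nat_lit 0, nat_lit 8714, nat_lit 3708, nat_lit 0, nat_lit 0, nat_lit 0, nat_lit 0, nat_lit 0, nat_lit 0, nat_lit 0, nat_lit 0, nat_lit 0, nat_lit 0, nat_lit 250000, nat_lit 0, nat_lit 0, [(nat_lit 19, [(nat_lit 0, nat_lit 1000)])],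
 ⟨p077_k6, nat_lit 0, nat_lit 0, nat_lit 67, nat_lit 0, nat_lit 0, [nat_lit 1542400001, nat_lit 2368400000, nat_lit 3220880000], [], [nat_lit 18323399729, nat_lit 19687788241, nat_lit 26418234768, nat_lit 27367202984, nat_lit 23429597533, nat_lit 24504865328, nat_lit 29623272684, nat_lit 30363905228], nat_lit 0, nat_lit 0, nat_lit 0, nat_lit 0, nat_lit 0, nat_lit 0, [], [nat_lit 27, nat_lit 40, nat_lit 40, nat_lit 80, nat_lit 13, nat_lit 401, nat_lit 175, nat_lit 11]⟩, C1.Rw.none,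
 ⟨nat_lit 3872, nat_lit 4473, ⟨.ofNat (nat_lit 388887), .ofNat (nat_lit 728778), .ofNat (nat_lit 432013), .ofNat (nat_lit 771911), .ofNat (nat_lit 391890), .ofNat (nat_lit 714498), .ofNat (nat_lit 435470), .ofNat (nat_lit 758085)⟩, ⟨.ofNat (nat_lit 302621), .ofNat (nat_lit 540545), .ofNat (nat_lit 345754), .ofNat (nat_lit 583678), .ofNat (nat_lit 304717), .ofNat (nat_lit 530543), .ofNat (nat_lit 348304), .ofNat (nat_lit 574129)⟩⟩, [⟨nat_lit 13, nat_lit 76, nat_lit 73, nat_lit 100, nat_lit 134875011⟩, ⟨nat_lit 16, nat_lit 81, nat_lit 100, nat_lit 92, nat_lit 112245666⟩]⟩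
noncomputable def p077_l7 : Lf2 := ⟨nat_lit 0, nat_lit 19, [nat_lit 120, nat_lit 5, nat_lit 5, nat_lit 20], true, nat_lit 160, nat_lit 276, nat_lit 0, nat_lit 396, ⟨nat_lit 0, nat_lit 1000, nat_lit 0, nat_lit 4, nat_lit 224, nat_lit 1000, nat_lit 167, nat_lit 0, nat_lit 0, nat_lit 0, nat_lit 0, nat_lit 0, nat_lit 42872733, nat_lit 14796947, nat_lit 9330320, nat_lit 4806241, false, true⟩,
 nat_lit 0, nat_lit 0, nat_lit 0, nat_lit 5229, nat_lit 3448, nat_lit 0, nat_lit 0, nat_lit 0, nat_lit 0, nat_lit 0, nat_lit 0, nat_lit 0, nat_lit 0, nat_lit 0, nat_lit 0, nat_lit 250000, nat_lit 0, nat_lit 0, [(nat_lit 22, [(nat_lit 0, nat_lit 1000)])],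
 ⟨p077_k4, nat_lit 0, nat_lit 0, nat_lit 68, nat_lit 0, nat_lit 0, [nat_lit 1568000001, nat_lit 1970800000, nat_lit 2712400000], [], [nat_lit 19720795441, nat_lit 21037353313, nat_lit 26337554546, nat_lit 27251349179, nat_lit 23470539859, nat_lit 24537231462, nat_lit 28764135754, nat_lit 29534076822], nat_lit 0, nat_lit 0, nat_lit 0, nat_lit 0, nat_lit 0, nat_lit 0, [], [nat_lit 34, nat_lit 40, nat_lit 40, nat_lit 80, nat_lit 7, nat_lit 401, nat_lit 175, nat_lit 12]⟩, C1.Rw.none,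
 ⟨nat_lit 3162, nat_lit 3873, ⟨.ofNat (nat_lit 391890), .ofNat (nat_lit 688690), .ofNat (nat_lit 435446), .ofNat (nat_lit 732276), .ofNat (nat_lit 394735), .ofNat (nat_lit 675121), .ofNat (nat_lit 439014), .ofNat (nat_lit 719431)⟩, ⟨.ofNat (nat_lit 304717), .ofNat (nat_lit 491830), .ofNat (nat_lit 348304), .ofNat (nat_lit 535416), .ofNat (nat_lit 306116), .ofNat (nat_lit 482881), .ofNat (nat_lit 350426), .ofNat (nat_lit 527190)⟩⟩, [⟨nat_lit 13, nat_lit 66, nat_lit 82, nat_lit 100, nat_lit 154454757⟩, ⟨nat_lit 4, nat_lit 100, nat_lit 67, nat_lit 88, nat_lit 167882523⟩]⟩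
noncomputable def p077_l8 : Lf2 := ⟨nat_lit 0, nat_lit 19, [nat_lit 120, nat_lit 5, nat_lit 5, nat_lit 20], true, nat_lit 0, nat_lit 160, nat_lit 0, nat_lit 396, ⟨nat_lit 0, nat_lit 0, nat_lit 1000, nat_lit 4, nat_lit 119, nat_lit 1000, nat_lit 65, nat_lit 1000, nat_lit 40017, nat_lit 264, nat_lit 132017, nat_lit 304, nat_lit 61553016, nat_lit 0, nat_lit 0, nat_lit 1409640, false, false⟩,
 nat_lit 0, nat_lit 0, nat_lit 0, nat_lit 6967, nat_lit 2682, nat_lit 0, nat_lit 0, nat_lit 0, nat_lit 0, nat_lit 0, nat_lit 0, nat_lit 0, nat_lit 0, nat_lit 0, nat_lit 129, nat_lit 400000, nat_lit 0, nat_lit 0, [(nat_lit 19, [(nat_lit 5, nat_lit 1000)]), (nat_lit 22, [(nat_lit 5, nat_lit 1000)])],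
 ⟨p077_k0, nat_lit 0, nat_lit 0, nat_lit 307, nat_lit 0, nat_lit 0, [nat_lit 2456800001, nat_lit 268000000], [], [nat_lit 18770079517, nat_lit 21060017244, nat_lit 19494691635, nat_lit 21480202867, nat_lit 19305136423, nat_lit 21271988880, nat_lit 20062453099, nat_lit 22267317428], nat_lit 0, nat_lit 0, nat_lit 0, nat_lit 0, nat_lit 0, nat_lit 0, [], [nat_lit 94, nat_lit 40, nat_lit 40, nat_lit 80, nat_lit 95, nat_lit 317, nat_lit 100, nat_lit 9]⟩, C1.Rw.none,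
 ⟨nat_lit 3162, nat_lit 4473, ⟨.ofNat (nat_lit 143971), .ofNat (nat_lit 388887), .ofNat (nat_lit 186943), .ofNat (nat_lit 431944), .ofNat (nat_lit 175109), .ofNat (nat_lit 394735), .ofNat (nat_lit 219258), .ofNat (nat_lit 438969)⟩, ⟨.ofNat (nat_lit 0), .ofNat (nat_lit 302621), .ofNat (nat_lit 0), .ofNat (nat_lit 345754), .ofNat (nat_lit 0), .ofNat (nat_lit 306116), .ofNat (nat_lit 0), .ofNat (nat_lit 350426)⟩⟩, [⟨nat_lit 0, nat_lit 100, nat_lit 60, nat_lit 80, nat_lit 62644453⟩, ⟨nat_lit 3, nat_lit 100, nat_lit 65, nat_lit 54, nat_lit 75976966⟩]⟩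
noncomputable def p077_l9 : Lf2 := ⟨nat_lit 1, nat_lit 11, [nat_lit 191, nat_lit 5, nat_lit 5, nat_lit 20], false, nat_lit 0, nat_lit 160, nat_lit 0, nat_lit 160, zbN0,
 nat_lit 0, nat_lit 0, nat_lit 0, nat_lit 0, nat_lit 0, nat_lit 0, nat_lit 0, nat_lit 0, nat_lit 0, nat_lit 0, nat_lit 0, nat_lit 0, nat_lit 0, nat_lit 0, nat_lit 0, nat_lit 0, nat_lit 0, nat_lit 0, [],
 C1.Rw.none, C1.Rw.none,
 zbF0, []⟩
noncomputable def p077_l10 : Lf2 := ⟨nat_lit 0, nat_lit 11, [nat_lit 191, nat_lit 5, nat_lit 5, nat_lit 20], false, nat_lit 0, nat_lit 160, nat_lit 0, nat_lit 160, ⟨nat_lit 262, nat_lit 0, nat_lit 738, nat_lit 4, nat_lit 228, nat_lit 738, nat_lit 65, nat_lit 738, nat_lit 40017, nat_lit 264, nat_lit 232290, nat_lit 200, nat_lit 50578040, nat_lit 0, nat_lit 0, nat_lit 2784459, false, true⟩,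
 nat_lit 0, nat_lit 0, nat_lit 6646, nat_lit 4194, nat_lit 2804, nat_lit 2215, nat_lit 0, nat_lit 0, nat_lit 0, nat_lit 0, nat_lit 0, nat_lit 0, nat_lit 0, nat_lit 0, nat_lit 0, nat_lit 295200, nat_lit 0, nat_lit 0, [(nat_lit 19, [(nat_lit 5, nat_lit 738)])],
 ⟨p077_k7, nat_lit 0, nat_lit 0, nat_lit 158, nat_lit 0, nat_lit 0, [nat_lit 1217838400, nat_lit 923314400, nat_lit 526072000], [], [nat_lit 20307873444, nat_lit 20871076600, nat_lit 26737096995, nat_lit 27135622970, nat_lit 20833618452, nat_lit 21315280904, nat_lit 26442839016, nat_lit 26787743964], nat_lit 0, nat_lit 0, nat_lit 0, nat_lit 0, nat_lit 0, nat_lit 0, [], [nat_lit 6, nat_lit 40, nat_lit 40, nat_lit 80, nat_lit 3, nat_lit 373, nat_lit 150, nat_lit 14]⟩, ⟨p077_k8, nat_lit 0, nat_lit 0, nat_lit 407, nat_lit 0, nat_lit 121430, [nat_lit 2087616000, nat_lit 3110464000, nat_lit 3683196000], [], [nat_lit 13247814520, nat_lit 13246430076, nat_lit 14130636912,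 nat_lit 14020601876, nat_lit 12930613780, nat_lit 14178387932, nat_lit 12319106744, nat_lit 12201633781], nat_lit 1100001, nat_lit 1442500, nat_lit 1271250, nat_lit 1271250, nat_lit 0, nat_lit 1100001, [nat_lit 1695000, nat_lit 1271250, nat_lit 1271250], [nat_lit 62, nat_lit 40, nat_lit 40, nat_lit 80, nat_lit 58, nat_lit 428, nat_lit 200, nat_lit 10]⟩,
 ⟨nat_lit 3872, nat_lit 4184, ⟨.ofNat (nat_lit 390409), .ofNat (nat_lit 708436), .ofNat (nat_lit 433741), .ofNat (nat_lit 751770), .ofNat (nat_lit 391890), .ofNat (nat_lit 701594), .ofNat (nat_lit 435475), .ofNat (nat_lit 745180)⟩, ⟨.ofNat (nat_lit 0), .ofNat (nat_lit 303743), .ofNat (nat_lit 0), .ofNat (nat_lit 347076), .ofNat (nat_lit 0), .ofNat (nat_lit 304717), .ofNat (nat_lit 0), .ofNat (nat_lit 348304)⟩⟩, []⟩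
noncomputable def p077_l11 : Lf2 := ⟨nat_lit 0, nat_lit 11, [nat_lit 191, nat_lit 5, nat_lit 5, nat_lit 20], false, nat_lit 0, nat_lit 160, nat_lit 160, nat_lit 396, ⟨nat_lit 210, nat_lit 0, nat_lit 790, nat_lit 4, nat_lit 231, nat_lit 790, nat_lit 65, nat_lit 790, nat_lit 40017, nat_lit 264, nat_lit 272572, nat_lit 200, nat_lit 50235150, nat_lit 0, nat_lit 0, nat_lit 2812891, false, true⟩,
 nat_lit 0, nat_lit 0, nat_lit 4874, nat_lit 5966, nat_lit 2963, nat_lit 1624, nat_lit 0, nat_lit 0, nat_lit 0, nat_lit 50, nat_lit 0, nat_lit 0, nat_lit 0, nat_lit 0, nat_lit 24, nat_lit 316000, nat_lit 0, nat_lit 0, [(nat_lit 19, [(nat_lit 5, nat_lit 790)])],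
 ⟨p077_k9, nat_lit 0, nat_lit 0, nat_lit 179, nat_lit 0, nat_lit 0, [nat_lit 1352472000, nat_lit 1225964000, nat_lit 33856000], [], [nat_lit 19595141288, nat_lit 20670231994, nat_lit 26877432700, nat_lit 28009161518, nat_lit 19890931388, nat_lit 20812296452, nat_lit 25642677924, nat_lit 26368202728], nat_lit 0, nat_lit 0, nat_lit 0, nat_lit 0, nat_lit 0, nat_lit 0, [], [nat_lit 34, nat_lit 40, nat_lit 40, nat_lit 80, nat_lit 7, nat_lit 373, nat_lit 150, nat_lit 12]⟩, ⟨p077_k8, nat_lit 0, nat_lit 0, nat_lit 248, nat_lit 0, nat_lit 121430, [nat_lit 1673280000, nat_lit 2493120000, nat_lit 2952180000], [], [nat_lit 8347998680, nat_lit 8097857656, nat_lit 8511800302, nat_lit 8495534822, nat_lit 8925609038, nat_lit 8881853751, nat_lit 9385365098, nat_lit 9273128187], nat_lit 1100001, nat_lit 1442500, nat_lit 1271250, nat_lit 1271250, nat_lit 1271250, nat_lit 1271250, [nat_lit 1695000, nat_lit 1271250, nat_lit 1271250],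 [nat_lit 62, nat_lit 40, nat_lit 40, nat_lit 80, nat_lit 58, nat_lit 483, nat_lit 250, nat_lit 11]⟩,
 ⟨nat_lit 3872, nat_lit 4473, ⟨.ofNat (nat_lit 388887), .ofNat (nat_lit 728778), .ofNat (nat_lit 432013), .ofNat (nat_lit 771911), .ofNat (nat_lit 391890), .ofNat (nat_lit 714498), .ofNat (nat_lit 435470), .ofNat (nat_lit 758085)⟩, ⟨.ofNat (nat_lit 0), .ofNat (nat_lit 302621), .ofNat (nat_lit 0), .ofNat (nat_lit 345754), .ofNat (nat_lit 0), .ofNat (nat_lit 304717), .ofNat (nat_lit 0), .ofNat (nat_lit 348304)⟩⟩, [⟨nat_lit 22, nat_lit 100, nat_lit 85, nat_lit 84, nat_lit 80242120⟩]⟩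
noncomputable def p077_l12 : Lf2 := ⟨nat_lit 1, nat_lit 19, [nat_lit 120, nat_lit 5, nat_lit 5, nat_lit 20], false, nat_lit 0, nat_lit 160, nat_lit 0, nat_lit 396, zbN0,
 nat_lit 0, nat_lit 0, nat_lit 0, nat_lit 0, nat_lit 0, nat_lit 0, nat_lit 0, nat_lit 0, nat_lit 0, nat_lit 0, nat_lit 0, nat_lit 0, nat_lit 0, nat_lit 0, nat_lit 0, nat_lit 0, nat_lit 0, nat_lit 0, [],
 C1.Rw.none, C1.Rw.none,
 zbF0, []⟩
noncomputable def p077_l13 : Lf2 := ⟨nat_lit 0, nat_lit 19, [nat_lit 120, nat_lit 5, nat_lit 5, nat_lit 20], true, nat_lit 0, nat_lit 160, nat_lit 0, nat_lit 396, ⟨nat_lit 0, nat_lit 177, nat_lit 823, nat_lit 4, nat_lit 191, nat_lit 1000, nat_lit 65, nat_lit 823, nat_lit 40017, nat_lit 264, nat_lit 4566, nat_lit 226, nat_lit 54538059, nat_lit 12461941, nat_lit 0, nat_lit 2401845, false, true⟩,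
 nat_lit 0, nat_lit 0, nat_lit 0, nat_lit 5169, nat_lit 2996, nat_lit 0, nat_lit 0, nat_lit 0, nat_lit 0, nat_lit 0, nat_lit 0, nat_lit 0, nat_lit 0, nat_lit 0, nat_lit 58, nat_lit 250000, nat_lit 0, nat_lit 0, [(nat_lit 22, [(nat_lit 0, nat_lit 177), (nat_lit 4, nat_lit 823)])],
 ⟨p077_k3, nat_lit 0, nat_lit 0, nat_lit 148, nat_lit 0, nat_lit 0, [nat_lit 1968793600, nat_lit 13915429], [], [nat_lit 19876379357, nat_lit 21067547781, nat_lit 22026610029, nat_lit 23079076464, nat_lit 20057937525, nat_lit 21075172949, nat_lit 22002677920, nat_lit 23123518800], nat_lit 0, nat_lit 0, nat_lit 0, nat_lit 0, nat_lit 0, nat_lit 0, [], [nat_lit 110, nat_lit 40, nat_lit 40, nat_lit 80, nat_lit 109, nat_lit 317, nat_lit 100, nat_lit 10]⟩, C1.Rw.none,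
 ⟨nat_lit 3162, nat_lit 3873, ⟨.ofNat (nat_lit 391890), .ofNat (nat_lit 520934), .ofNat (nat_lit 435446), .ofNat (nat_lit 564520), .ofNat (nat_lit 394735), .ofNat (nat_lit 516642), .ofNat (nat_lit 439014), .ofNat (nat_lit 560952)⟩, ⟨.ofNat (nat_lit 0), .ofNat (nat_lit 304717), .ofNat (nat_lit 0), .ofNat (nat_lit 348304), .ofNat (nat_lit 0), .ofNat (nat_lit 306116), .ofNat (nat_lit 0), .ofNat (nat_lit 350426)⟩⟩, [⟨nat_lit 3, nat_lit 100, nat_lit 65, nat_lit 54, nat_lit 99508774⟩]⟩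
noncomputable def p077_l14 : Lf2 := ⟨nat_lit 0, nat_lit 19, [nat_lit 120, nat_lit 5, nat_lit 5, nat_lit 20], true, nat_lit 0, nat_lit 80, nat_lit 0, nat_lit 336, ⟨nat_lit 0, nat_lit 645, nat_lit 355, nat_lit 6, nat_lit 241, nat_lit 1000, nat_lit 38, nat_lit 355, nat_lit 13067, nat_lit 243, nat_lit 111002, nat_lit 200, nat_lit 49181123, nat_lit 17818877, nat_lit 0, nat_lit 2895960, false, true⟩,
 nat_lit 0, nat_lit 0, nat_lit 0, nat_lit 8038, nat_lit 2485, nat_lit 0, nat_lit 0, nat_lit 0, nat_lit 0, nat_lit 0, nat_lit 0, nat_lit 0, nat_lit 0, nat_lit 0, nat_lit 48, nat_lit 488200, nat_lit 0, nat_lit 0, [(nat_lit 22, [(nat_lit 1, nat_lit 645), (nat_lit 5, nat_lit 208), (nat_lit 6, nat_lit 147)])],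
 ⟨p077_k4, nat_lit 0, nat_lit 0, nat_lit 177, nat_lit 0, nat_lit 0, [nat_lit 1574425600, nat_lit 1255195200, nat_lit 36628267], [], [nat_lit 22437450047, nat_lit 23327023327, nat_lit 25558615912, nat_lit 26373338795, nat_lit 21971782157, nat_lit 22813813547, nat_lit 24936730856, nat_lit 25738546208], nat_lit 0, nat_lit 0, nat_lit 0, nat_lit 0, nat_lit 0, nat_lit 0, [], [nat_lit 34, nat_lit 40, nat_lit 40, nat_lit 80, nat_lit 7, nat_lit 226, nat_lit 20, nat_lit 7]⟩, C1.Rw.none,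
 ⟨nat_lit 3162, nat_lit 3873, ⟨.ofNat (nat_lit 520934), .ofNat (nat_lit 669333), .ofNat (nat_lit 542727), .ofNat (nat_lit 691126), .ofNat (nat_lit 516642), .ofNat (nat_lit 656835), .ofNat (nat_lit 538797), .ofNat (nat_lit 678990)⟩, ⟨.ofNat (nat_lit 0), .ofNat (nat_lit 175674), .ofNat (nat_lit 0), .ofNat (nat_lit 200000), .ofNat (nat_lit 0), .ofNat (nat_lit 184209), .ofNat (nat_lit 0), .ofNat (nat_lit 200000)⟩⟩, [⟨nat_lit 13, nat_lit 61, nat_lit 92, nat_lit 100, nat_lit 274600622⟩, ⟨nat_lit 3, nat_lit 100, nat_lit 65, nat_lit 54, nat_lit 106047524⟩]⟩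
noncomputable def p077_l15 : Lf2 := ⟨nat_lit 0, nat_lit 19, [nat_lit 120, nat_lit 5, nat_lit 5, nat_lit 20], true, nat_lit 0, nat_lit 80, nat_lit 0, nat_lit 336, ⟨nat_lit 0, nat_lit 241, nat_lit 759, nat_lit 6, nat_lit 233, nat_lit 1000, nat_lit 38, nat_lit 759, nat_lit 13067, nat_lit 243, nat_lit 5706, nat_lit 203, nat_lit 49999024, nat_lit 17000976, nat_lit 0, nat_lit 2832064, true, true⟩,
 nat_lit 0, nat_lit 0, nat_lit 0, nat_lit 5169, nat_lit 2942, nat_lit 0, nat_lit 0, nat_lit 0, nat_lit 0, nat_lit 0, nat_lit 0, nat_lit 0, nat_lit 0, nat_lit 0, nat_lit 45, nat_lit 250000, nat_lit 0, nat_lit 0, [(nat_lit 22, [(nat_lit 0, nat_lit 241), (nat_lit 4, nat_lit 759)])],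
 ⟨p077_k3, nat_lit 0, nat_lit 0, nat_lit 152, nat_lit 0, nat_lit 0, [nat_lit 1869708800, nat_lit 18652000], [], [nat_lit 22416429900, nat_lit 23453637632, nat_lit 23803415616, nat_lit 24770760176, nat_lit 21622385268, nat_lit 22601486432, nat_lit 22946078592, nat_lit 23863602272], nat_lit 0, nat_lit 0, nat_lit 0, nat_lit 0, nat_lit 0, nat_lit 0, [], [nat_lit 110, nat_lit 40, nat_lit 40, nat_lit 80, nat_lit 109, nat_lit 226, nat_lit 20, nat_lit 7]⟩, C1.Rw.none,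
 ⟨nat_lit 3162, nat_lit 3873, ⟨.ofNat (nat_lit 542727), .ofNat (nat_lit 607248), .ofNat (nat_lit 564520), .ofNat (nat_lit 629042), .ofNat (nat_lit 538797), .ofNat (nat_lit 599750), .ofNat (nat_lit 560952), .ofNat (nat_lit 621905)⟩, ⟨.ofNat (nat_lit 0), .ofNat (nat_lit 175674), .ofNat (nat_lit 0), .ofNat (nat_lit 200000), .ofNat (nat_lit 0), .ofNat (nat_lit 184209), .ofNat (nat_lit 0), .ofNat (nat_lit 200000)⟩⟩, [⟨nat_lit 3, nat_lit 100, nat_lit 65, nat_lit 54, nat_lit 227910912⟩]⟩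
noncomputable def p077_l16 : Lf2 := ⟨nat_lit 0, nat_lit 19, [nat_lit 120, nat_lit 5, nat_lit 5, nat_lit 20], true, nat_lit 0, nat_lit 40, nat_lit 0, nat_lit 248, ⟨nat_lit 0, nat_lit 1000, nat_lit 0, nat_lit 7, nat_lit 259, nat_lit 1000, nat_lit 20, nat_lit 0, nat_lit 0, nat_lit 0, nat_lit 0, nat_lit 0, nat_lit 47179150, nat_lit 19820850, nat_lit 0, nat_lit 3036462, true, true⟩,
 nat_lit 0, nat_lit 0, nat_lit 0, nat_lit 8887, nat_lit 3444, nat_lit 0, nat_lit 94, nat_lit 0, nat_lit 0, nat_lit 0, nat_lit 0, nat_lit 0, nat_lit 0, nat_lit 0, nat_lit 0, nat_lit 451000, nat_lit 0, nat_lit 0, [(nat_lit 22, [(nat_lit 1, nat_lit 915), (nat_lit 2, nat_lit 85)])],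
 ⟨p077_k3, nat_lit 0, nat_lit 0, nat_lit 157, nat_lit 0, nat_lit 0, [nat_lit 1698118001, nat_lit 1013576667], [], [nat_lit 25254486831, nat_lit 25765614711, nat_lit 26882557351, nat_lit 27350283803, nat_lit 24651204647, nat_lit 25148141571, nat_lit 26238374663, nat_lit 26693709099], nat_lit 0, nat_lit 0, nat_lit 0, nat_lit 0, nat_lit 0, nat_lit 0, [], [nat_lit 110, nat_lit 40, nat_lit 40, nat_lit 80, nat_lit 109, nat_lit 215, nat_lit 10, nat_lit 6]⟩, C1.Rw.none,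
 ⟨nat_lit 3535, nat_lit 3873, ⟨.ofNat (nat_lit 607248), .ofNat (nat_lit 671770), .ofNat (nat_lit 629042), .ofNat (nat_lit 693563), .ofNat (nat_lit 603569), .ofNat (nat_lit 666330), .ofNat (nat_lit 625521), .ofNat (nat_lit 688283)⟩, ⟨.ofNat (nat_lit 0), .ofNat (nat_lit 100000), .ofNat (nat_lit 0), .ofNat (nat_lit 100000), .ofNat (nat_lit 0), .ofNat (nat_lit 100000), .ofNat (nat_lit 0), .ofNat (nat_lit 100000)⟩⟩, [⟨nat_lit 3, nat_lit 100, nat_lit 72, nat_lit 46, nat_lit 113990589⟩]⟩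
noncomputable def p077_l17 : Lf2 := ⟨nat_lit 0, nat_lit 19, [nat_lit 120, nat_lit 5, nat_lit 5, nat_lit 20], false, nat_lit 4, nat_lit 40, nat_lit 0, nat_lit 248, ⟨nat_lit 18, nat_lit 982, nat_lit 0, nat_lit 7, nat_lit 257, nat_lit 982, nat_lit 22, nat_lit 0, nat_lit 0, nat_lit 0, nat_lit 0, nat_lit 0, nat_lit 46997221, nat_lit 19553930, nat_lit 448849, nat_lit 3257539, true, true⟩,
 nat_lit 0, nat_lit 0, nat_lit 574, nat_lit 7716, nat_lit 2724, nat_lit 218, nat_lit 251, nat_lit 0, nat_lit 0, nat_lit 21, nat_lit 0, nat_lit 0, nat_lit 0, nat_lit 0, nat_lit 0, nat_lit 392800, nat_lit 0, nat_lit 0, [(nat_lit 22, [(nat_lit 1, nat_lit 982)])],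
 ⟨p077_k10, nat_lit 0, nat_lit 0, nat_lit 171, nat_lit 0, nat_lit 0, [nat_lit 1370524801, nat_lit 1611197601, nat_lit 1522712000], [], [nat_lit 24312434815, nat_lit 24778207328, nat_lit 25790093423, nat_lit 26219123322, nat_lit 23983709869, nat_lit 24438313673, nat_lit 25430052757, nat_lit 25849283513], nat_lit 0, nat_lit 0, nat_lit 0, nat_lit 0, nat_lit 0, nat_lit 0, [], [nat_lit 34, nat_lit 40, nat_lit 40, nat_lit 80, nat_lit 7, nat_lit 215, nat_lit 10, nat_lit 6]⟩, ⟨p077_k11, nat_lit 0, nat_lit 0, nat_lit 778, nat_lit 0, nat_lit 827958, [nat_lit 143424000, nat_lit 213696000, nat_lit 295200000], [], [nat_lit 739098973, nat_lit 732310041, nat_lit 759905711, nat_lit 756104899, nat_lit 561174043, nat_lit 524706825, nat_lit 553348913, nat_lit 547373860], nat_lit 1271250, nat_lit 1271250, nat_lit 1271250, nat_lit 1271250, nat_lit 0, nat_lit 1751500, [nat_lit 1695000, nat_lit 1271250, nat_lit 1271250], [nat_lit 97,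 nat_lit 40, nat_lit 40, nat_lit 80, nat_lit 76, nat_lit 428, nat_lit 200, nat_lit 9]⟩,
 ⟨nat_lit 3162, nat_lit 3536, ⟨.ofNat (nat_lit 603569), .ofNat (nat_lit 666330), .ofNat (nat_lit 625521), .ofNat (nat_lit 688283), .ofNat (nat_lit 599750), .ofNat (nat_lit 660704), .ofNat (nat_lit 621905), .ofNat (nat_lit 682859)⟩, ⟨.ofNat (nat_lit 10000), .ofNat (nat_lit 100000), .ofNat (nat_lit 10000), .ofNat (nat_lit 100000), .ofNat (nat_lit 10000), .ofNat (nat_lit 100000), .ofNat (nat_lit 10000), .ofNat (nat_lit 100000)⟩⟩, [⟨nat_lit 3, nat_lit 100, nat_lit 73, nat_lit 41, nat_lit 182636589⟩]⟩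
noncomputable def p077_l18 : Lf2 := ⟨nat_lit 0, nat_lit 19, [nat_lit 120, nat_lit 5, nat_lit 5, nat_lit 20], true, nat_lit 40, nat_lit 80, nat_lit 0, nat_lit 300, ⟨nat_lit 0, nat_lit 1000, nat_lit 0, nat_lit 7, nat_lit 258, nat_lit 1000, nat_lit 58, nat_lit 0, nat_lit 0, nat_lit 0, nat_lit 0, nat_lit 0, nat_lit 45692995, nat_lit 19398977, nat_lit 1908028, nat_lit 3749484, true, true⟩,
 nat_lit 0, nat_lit 0, nat_lit 0, nat_lit 9280, nat_lit 2988, nat_lit 0, nat_lit 193, nat_lit 0, nat_lit 0, nat_lit 0, nat_lit 0, nat_lit 0, nat_lit 0, nat_lit 0, nat_lit 0, nat_lit 400000, nat_lit 0, nat_lit 0, [(nat_lit 22, [(nat_lit 1, nat_lit 1000)])],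
 ⟨p077_k4, nat_lit 0, nat_lit 0, nat_lit 148, nat_lit 0, nat_lit 0, [nat_lit 1358400001, nat_lit 1554800000, nat_lit 1406000000], [], [nat_lit 23419872097, nat_lit 24412637577, nat_lit 25015559029, nat_lit 25926680643, nat_lit 22872072625, nat_lit 23846122603, nat_lit 24490336019, nat_lit 25440891643], nat_lit 0, nat_lit 0, nat_lit 0, nat_lit 0, nat_lit 0, nat_lit 0, [], [nat_lit 34, nat_lit 40, nat_lit 40, nat_lit 80, nat_lit 7, nat_lit 226, nat_lit 20, nat_lit 6]⟩, C1.Rw.none,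
 ⟨nat_lit 3162, nat_lit 3873, ⟨.ofNat (nat_lit 607248), .ofNat (nat_lit 671770), .ofNat (nat_lit 629042), .ofNat (nat_lit 693563), .ofNat (nat_lit 599750), .ofNat (nat_lit 660704), .ofNat (nat_lit 621905), .ofNat (nat_lit 682859)⟩, ⟨.ofNat (nat_lit 100000), .ofNat (nat_lit 175674), .ofNat (nat_lit 100000), .ofNat (nat_lit 200000), .ofNat (nat_lit 100000), .ofNat (nat_lit 184209), .ofNat (nat_lit 100000), .ofNat (nat_lit 200000)⟩⟩, []⟩
noncomputable def p077_l19 : Lf2 := ⟨nat_lit 0, nat_lit 19, [nat_lit 120, nat_lit 5, nat_lit 5, nat_lit 20], true, nat_lit 0, nat_lit 80, nat_lit 0, nat_lit 260, ⟨nat_lit 0, nat_lit 1000, nat_lit 0, nat_lit 8, nat_lit 274, nat_lit 1000, nat_lit 38, nat_lit 0, nat_lit 0, nat_lit 0, nat_lit 0, nat_lit 0, nat_lit 45632984, nat_lit 21367016, nat_lit 0, nat_lit 3130227, true, true⟩,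
 nat_lit 0, nat_lit 0, nat_lit 0, nat_lit 9548, nat_lit 2856, nat_lit 0, nat_lit 0, nat_lit 0, nat_lit 0, nat_lit 0, nat_lit 0, nat_lit 0, nat_lit 0, nat_lit 0, nat_lit 24, nat_lit 622000, nat_lit 0, nat_lit 0, [(nat_lit 22, [(nat_lit 1, nat_lit 630), (nat_lit 2, nat_lit 370)])],
 ⟨p077_k4, nat_lit 0, nat_lit 0, nat_lit 178, nat_lit 0, nat_lit 0, [nat_lit 1563818667, nat_lit 1361452001, nat_lit 51142667], [], [nat_lit 25825754519, nat_lit 26626538295, nat_lit 26439320625, nat_lit 27514142093, nat_lit 24987013975, nat_lit 25786312205, nat_lit 25586436058, nat_lit 26411661197], nat_lit 0, nat_lit 0, nat_lit 0, nat_lit 0, nat_lit 0, nat_lit 0, [], [nat_lit 34, nat_lit 40, nat_lit 40, nat_lit 80, nat_lit 7, nat_lit 226, nat_lit 20, nat_lit 6]⟩, C1.Rw.none,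
 ⟨nat_lit 3162, nat_lit 3873, ⟨.ofNat (nat_lit 671770), .ofNat (nat_lit 697579), .ofNat (nat_lit 682667), .ofNat (nat_lit 708475), .ofNat (nat_lit 660704), .ofNat (nat_lit 685085), .ofNat (nat_lit 671781), .ofNat (nat_lit 696162)⟩, ⟨.ofNat (nat_lit 0), .ofNat (nat_lit 175674), .ofNat (nat_lit 0), .ofNat (nat_lit 200000), .ofNat (nat_lit 0), .ofNat (nat_lit 184209), .ofNat (nat_lit 0), .ofNat (nat_lit 200000)⟩⟩, [⟨nat_lit 13, nat_lit 66, nat_lit 80, nat_lit 100, nat_lit 644625101⟩, ⟨nat_lit 3, nat_lit 100, nat_lit 76, nat_lit 37, nat_lit 54607391⟩]⟩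
noncomputable def p077_l20 : Lf2 := ⟨nat_lit 0, nat_lit 19, [nat_lit 120, nat_lit 5, nat_lit 5, nat_lit 20], false, nat_lit 0, nat_lit 80, nat_lit 0, nat_lit 260, ⟨nat_lit 152, nat_lit 848, nat_lit 0, nat_lit 8, nat_lit 281, nat_lit 848, nat_lit 38, nat_lit 0, nat_lit 0, nat_lit 0, nat_lit 0, nat_lit 0, nat_lit 44901453, nat_lit 22098547, nat_lit 0, nat_lit 3170286, true, true⟩,
 nat_lit 0, nat_lit 0, nat_lit 3847, nat_lit 1899, nat_lit 3037, nat_lit 1555, nat_lit 0, nat_lit 0, nat_lit 0, nat_lit 248, nat_lit 0, nat_lit 0, nat_lit 0, nat_lit 0, nat_lit 12, nat_lit 644600, nat_lit 0, nat_lit 0, [(nat_lit 22, [(nat_lit 1, nat_lit 339), (nat_lit 2, nat_lit 509)])],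
 ⟨p077_k4, nat_lit 0, nat_lit 0, nat_lit 180, nat_lit 0, nat_lit 0, [nat_lit 1575246934, nat_lit 1428802800, nat_lit 23334534], [], [nat_lit 26225292436, nat_lit 27055656490, nat_lit 27227150936, nat_lit 28425761519, nat_lit 25262155298, nat_lit 26091104806, nat_lit 26220253127, nat_lit 27047653282], nat_lit 0, nat_lit 0, nat_lit 0, nat_lit 0, nat_lit 0, nat_lit 0, [], [nat_lit 34, nat_lit 40, nat_lit 40, nat_lit 80, nat_lit 7, nat_lit 226, nat_lit 20, nat_lit 6]⟩, ⟨p077_k12, nat_lit 0, nat_lit 0, nat_lit 723, nat_lit 0, nat_lit 751080, [nat_lit 1211136000, nat_lit 1804544000, nat_lit 2492800000], [], [nat_lit 5910992270, nat_lit 5888524468, nat_lit 6108074751, nat_lit 6095163655, nat_lit 4555699529, nat_lit 4537518807, nat_lit 4692866325, nat_lit 4671576657], nat_lit 1271250, nat_lit 1271250, nat_lit 1271250, nat_lit 1271250, nat_lit 0, nat_lit 1836250, [nat_lit 1695000, nat_lit 1271250, nat_lit 1271250], [nat_lit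 97, nat_lit 40, nat_lit 40, nat_lit 80, nat_lit 76, nat_lit 456, nat_lit 225, nat_lit 9]⟩,
 ⟨nat_lit 3162, nat_lit 3873, ⟨.ofNat (nat_lit 682667), .ofNat (nat_lit 721380), .ofNat (nat_lit 693563), .ofNat (nat_lit 732276), .ofNat (nat_lit 671781), .ofNat (nat_lit 708353), .ofNat (nat_lit 682859), .ofNat (nat_lit 719431)⟩, ⟨.ofNat (nat_lit 0), .ofNat (nat_lit 175674), .ofNat (nat_lit 0), .ofNat (nat_lit 200000), .ofNat (nat_lit 0), .ofNat (nat_lit 184209), .ofNat (nat_lit 0), .ofNat (nat_lit 200000)⟩⟩, [⟨nat_lit 13, nat_lit 66, nat_lit 77, nat_lit 100, nat_lit 365226069⟩, ⟨nat_lit 3, nat_lit 100, nat_lit 76, nat_lit 37, nat_lit 41773961⟩]⟩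
noncomputable def p077_l21 : Lf2 := ⟨nat_lit 0, nat_lit 19, [nat_lit 120, nat_lit 5, nat_lit 5, nat_lit 20], true, nat_lit 80, nat_lit 160, nat_lit 0, nat_lit 384, ⟨nat_lit 0, nat_lit 952, nat_lit 48, nat_lit 6, nat_lit 249, nat_lit 1000, nat_lit 103, nat_lit 48, nat_lit 101400, nat_lit 293, nat_lit 193302, nat_lit 200, nat_lit 44486143, nat_lit 17978890, nat_lit 4534967, nat_lit 4280516, false, true⟩,
 nat_lit 0, nat_lit 0, nat_lit 0, nat_lit 8376, nat_lit 3101, nat_lit 0, nat_lit 114, nat_lit 0, nat_lit 0, nat_lit 0, nat_lit 0, nat_lit 0, nat_lit 0, nat_lit 0, nat_lit 0, nat_lit 428800, nat_lit 0, nat_lit 0, [(nat_lit 22, [(nat_lit 1, nat_lit 952), (nat_lit 6, nat_lit 48)])],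
 ⟨p077_k4, nat_lit 0, nat_lit 0, nat_lit 126, nat_lit 0, nat_lit 0, [nat_lit 1329523201, nat_lit 1366563201, nat_lit 918166400], [], [nat_lit 21522305251, nat_lit 22581812097, nat_lit 25533055718, nat_lit 26406367585, nat_lit 22221883669, nat_lit 23185406517, nat_lit 25887753542, nat_lit 26667324759], nat_lit 0, nat_lit 0, nat_lit 0, nat_lit 0, nat_lit 0, nat_lit 0, [], [nat_lit 34, nat_lit 40, nat_lit 40, nat_lit 80, nat_lit 7, nat_lit 249, nat_lit 40, nat_lit 7]⟩, C1.Rw.none,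
 ⟨nat_lit 3162, nat_lit 3873, ⟨.ofNat (nat_lit 520934), .ofNat (nat_lit 688690), .ofNat (nat_lit 564520), .ofNat (nat_lit 732276), .ofNat (nat_lit 516642), .ofNat (nat_lit 675121), .ofNat (nat_lit 560952), .ofNat (nat_lit 719431)⟩, ⟨.ofNat (nat_lit 175674), .ofNat (nat_lit 304717), .ofNat (nat_lit 200000), .ofNat (nat_lit 348304), .ofNat (nat_lit 184209), .ofNat (nat_lit 306116), .ofNat (nat_lit 200000), .ofNat (nat_lit 350426)⟩⟩, [⟨nat_lit 13, nat_lit 66, nat_lit 82, nat_lit 100, nat_lit 231199168⟩]⟩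
noncomputable def p077_l22 : Lf2 := ⟨nat_lit 0, nat_lit 19, [nat_lit 120, nat_lit 5, nat_lit 5, nat_lit 20], true, nat_lit 160, nat_lit 300, nat_lit 0, nat_lit 396, ⟨nat_lit 0, nat_lit 0, nat_lit 1000, nat_lit 4, nat_lit 119, nat_lit 1000, nat_lit 176, nat_lit 1000, nat_lit 1169, nat_lit 218, nat_lit 132017, nat_lit 304, nat_lit 50295512, nat_lit 0, nat_lit 0, nat_lit 3860240, false, false⟩,
 nat_lit 0, nat_lit 0, nat_lit 0, nat_lit 7976, nat_lit 2997, nat_lit 0, nat_lit 0, nat_lit 0, nat_lit 0, nat_lit 0, nat_lit 0, nat_lit 0, nat_lit 0, nat_lit 0, nat_lit 81, nat_lit 250000, nat_lit 0, nat_lit 0, [(nat_lit 19, [(nat_lit 4, nat_lit 1000)]), (nat_lit 22, [(nat_lit 4, nat_lit 1000)])],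
 ⟨p077_k0, nat_lit 0, nat_lit 0, nat_lit 170, nat_lit 0, nat_lit 0, [nat_lit 2166400000, nat_lit 172800000], [], [nat_lit 19392989281, nat_lit 21571475455, nat_lit 19804099440, nat_lit 21691168952, nat_lit 23604455801, nat_lit 25397851315, nat_lit 23511504394, nat_lit 25433799128], nat_lit 0, nat_lit 0, nat_lit 0, nat_lit 0, nat_lit 0, nat_lit 0, [], [nat_lit 94, nat_lit 40, nat_lit 40, nat_lit 80, nat_lit 95, nat_lit 345, nat_lit 125, nat_lit 10]⟩, C1.Rw.none,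
 ⟨nat_lit 3162, nat_lit 4473, ⟨.ofNat (nat_lit 143971), .ofNat (nat_lit 388887), .ofNat (nat_lit 186943), .ofNat (nat_lit 431944), .ofNat (nat_lit 175109), .ofNat (nat_lit 394735), .ofNat (nat_lit 219258), .ofNat (nat_lit 438969)⟩, ⟨.ofNat (nat_lit 302621), .ofNat (nat_lit 540545), .ofNat (nat_lit 345754), .ofNat (nat_lit 583678), .ofNat (nat_lit 306116), .ofNat (nat_lit 519453), .ofNat (nat_lit 350426), .ofNat (nat_lit 563762)⟩⟩, [⟨nat_lit 0, nat_lit 100, nat_lit 60, nat_lit 80, nat_lit 84899256⟩, ⟨nat_lit 4, nat_lit 100, nat_lit 74, nat_lit 90, nat_lit 253809916⟩]⟩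
noncomputable def p077_l23 : Lf2 := ⟨nat_lit 0, nat_lit 19, [nat_lit 120, nat_lit 5, nat_lit 5, nat_lit 20], true, nat_lit 160, nat_lit 300, nat_lit 0, nat_lit 396, ⟨nat_lit 0, nat_lit 1000, nat_lit 0, nat_lit 4, nat_lit 231, nat_lit 1000, nat_lit 177, nat_lit 0, nat_lit 0, nat_lit 0, nat_lit 0, nat_lit 0, nat_lit 41706011, nat_lit 15316478, nat_lit 9977511, nat_lit 4931606, false, true⟩,
 nat_lit 0, nat_lit 0, nat_lit 0, nat_lit 8714, nat_lit 3708, nat_lit 0, nat_lit 0, nat_lit 0, nat_lit 0, nat_lit 0, nat_lit 0, nat_lit 0, nat_lit 0, nat_lit 0, nat_lit 0, nat_lit 250000, nat_lit 0, nat_lit 0, [(nat_lit 19, [(nat_lit 0, nat_lit 1000)])],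
 ⟨p077_k6, nat_lit 0, nat_lit 0, nat_lit 67, nat_lit 0, nat_lit 0, [nat_lit 1542400001, nat_lit 2368400000, nat_lit 3220880000], [], [nat_lit 18323399729, nat_lit 19687788241, nat_lit 26418234768, nat_lit 27367202984, nat_lit 23429597533, nat_lit 24504865328, nat_lit 29623272684, nat_lit 30363905228], nat_lit 0, nat_lit 0, nat_lit 0, nat_lit 0, nat_lit 0, nat_lit 0, [], [nat_lit 27, nat_lit 40, nat_lit 40, nat_lit 80, nat_lit 13, nat_lit 401, nat_lit 175, nat_lit 11]⟩, C1.Rw.none,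
 ⟨nat_lit 3872, nat_lit 4473, ⟨.ofNat (nat_lit 388887), .ofNat (nat_lit 728778), .ofNat (nat_lit 432013), .ofNat (nat_lit 771911), .ofNat (nat_lit 391890), .ofNat (nat_lit 714498), .ofNat (nat_lit 435470), .ofNat (nat_lit 758085)⟩, ⟨.ofNat (nat_lit 302621), .ofNat (nat_lit 540545), .ofNat (nat_lit 345754), .ofNat (nat_lit 583678), .ofNat (nat_lit 304717), .ofNat (nat_lit 530543), .ofNat (nat_lit 348304), .ofNat (nat_lit 574129)⟩⟩, [⟨nat_lit 13, nat_lit 76, nat_lit 73, nat_lit 100, nat_lit 134875011⟩, ⟨nat_lit 16, nat_lit 81, nat_lit 100, nat_lit 92, nat_lit 112245666⟩]⟩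
noncomputable def p077_l24 : Lf2 := ⟨nat_lit 0, nat_lit 19, [nat_lit 120, nat_lit 5, nat_lit 5, nat_lit 20], true, nat_lit 160, nat_lit 276, nat_lit 0, nat_lit 396, ⟨nat_lit 0, nat_lit 1000, nat_lit 0, nat_lit 4, nat_lit 224, nat_lit 1000, nat_lit 167, nat_lit 0, nat_lit 0, nat_lit 0, nat_lit 0, nat_lit 0, nat_lit 42872733, nat_lit 14796947, nat_lit 9330320, nat_lit 4806241, false, true⟩,
 nat_lit 0, nat_lit 0, nat_lit 0, nat_lit 5229, nat_lit 3448, nat_lit 0, nat_lit 0, nat_lit 0, nat_lit 0, nat_lit 0, nat_lit 0, nat_lit 0, nat_lit 0, nat_lit 0, nat_lit 0, nat_lit 250000, nat_lit 0, nat_lit 0, [(nat_lit 22, [(nat_lit 0, nat_lit 1000)])],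
 ⟨p077_k4, nat_lit 0, nat_lit 0, nat_lit 68, nat_lit 0, nat_lit 0, [nat_lit 1568000001, nat_lit 1970800000, nat_lit 2712400000], [], [nat_lit 19720795441, nat_lit 21037353313, nat_lit 26337554546, nat_lit 27251349179, nat_lit 23470539859, nat_lit 24537231462, nat_lit 28764135754, nat_lit 29534076822], nat_lit 0, nat_lit 0, nat_lit 0, nat_lit 0, nat_lit 0, nat_lit 0, [], [nat_lit 34, nat_lit 40, nat_lit 40, nat_lit 80, nat_lit 7, nat_lit 401, nat_lit 175, nat_lit 12]⟩, C1.Rw.none,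
 ⟨nat_lit 3162, nat_lit 3873, ⟨.ofNat (nat_lit 391890), .ofNat (nat_lit 688690), .ofNat (nat_lit 435446), .ofNat (nat_lit 732276), .ofNat (nat_lit 394735), .ofNat (nat_lit 675121), .ofNat (nat_lit 439014), .ofNat (nat_lit 719431)⟩, ⟨.ofNat (nat_lit 304717), .ofNat (nat_lit 491830), .ofNat (nat_lit 348304), .ofNat (nat_lit 535416), .ofNat (nat_lit 306116), .ofNat (nat_lit 482881), .ofNat (nat_lit 350426), .ofNat (nat_lit 527190)⟩⟩, [⟨nat_lit 13, nat_lit 66, nat_lit 82, nat_lit 100, nat_lit 154454757⟩, ⟨nat_lit 4, nat_lit 100, nat_lit 67, nat_lit 88, nat_lit 167882523⟩]⟩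
noncomputable def p077_l25 : Lf2 := ⟨nat_lit 0, nat_lit 19, [nat_lit 120, nat_lit 5, nat_lit 5, nat_lit 20], true, nat_lit 0, nat_lit 300, nat_lit 0, nat_lit 396, ⟨nat_lit 0, nat_lit 1000, nat_lit 0, nat_lit 4, nat_lit 183, nat_lit 1000, nat_lit 110, nat_lit 0, nat_lit 0, nat_lit 0, nat_lit 0, nat_lit 0, nat_lit 0, nat_lit 0, nat_lit 0, nat_lit 5000000, false, true⟩,
 nat_lit 0, nat_lit 0, nat_lit 0, nat_lit 7242, nat_lit 4266, nat_lit 0, nat_lit 0, nat_lit 0, nat_lit 0, nat_lit 0, nat_lit 0, nat_lit 0, nat_lit 0, nat_lit 0, nat_lit 0, nat_lit 422800, nat_lit 0, nat_lit 0, [(nat_lit 19, [(nat_lit 1, nat_lit 962), (nat_lit 2, nat_lit 38)]), (nat_lit 22, [(nat_lit 1, nat_lit 962), (nat_lit 2, nat_lit 38)])],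
 ⟨p077_k0, nat_lit 0, nat_lit 0, nat_lit 307, nat_lit 0, nat_lit 0, [nat_lit 2087280001, nat_lit 1700370666], [], [nat_lit 28010508328, nat_lit 30288987192, nat_lit 31621050582, nat_lit 32915346412, nat_lit 29307396342, nat_lit 30670846190, nat_lit 31006612388, nat_lit 31819007562], nat_lit 0, nat_lit 0, nat_lit 0, nat_lit 0, nat_lit 0, nat_lit 0, [], [nat_lit 94, nat_lit 40, nat_lit 40, nat_lit 80, nat_lit 95, nat_lit 401, nat_lit 175, nat_lit 12]⟩, C1.Rw.none,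
 ⟨nat_lit 3162, nat_lit 4473, ⟨.ofNat (nat_lit 143971), .ofNat (nat_lit 728778), .ofNat (nat_lit 186943), .ofNat (nat_lit 771911), .ofNat (nat_lit 175109), .ofNat (nat_lit 699502), .ofNat (nat_lit 219258), .ofNat (nat_lit 743812)⟩, ⟨.ofNat (nat_lit 0), .ofNat (nat_lit 540545), .ofNat (nat_lit 0), .ofNat (nat_lit 583678), .ofNat (nat_lit 0), .ofNat (nat_lit 519453), .ofNat (nat_lit 0), .ofNat (nat_lit 563762)⟩⟩, [⟨nat_lit 13, nat_lit 72, nat_lit 77, nat_lit 100, nat_lit 103579736⟩, ⟨nat_lit 4, nat_lit 100, nat_lit 74, nat_lit 90, nat_lit 61845443⟩]⟩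
noncomputable def b_V_800_400_20_6 : St := ⟨true, nat_lit 0, nat_lit 2, nat_lit 0, nat_lit 120, nat_lit 320, nat_lit 360, nat_lit 160, nat_lit 200, nat_lit 16, nat_lit 360, nat_lit 80, nat_lit 120, nat_lit 0, nat_lit 300, nat_lit 0, nat_lit 396, nat_lit 40, nat_lit 76, nat_lit 0, nat_lit 0, nat_lit 0, nat_lit 0⟩
theorem d_V_800_400_20_6 (h : EB TB.env) : Dead b_V_800_400_20_6 := chkB_sound0 h (T :=
(.gv
(.st (nat_lit 1)
(.spl (nat_lit 4) (nat_lit 160)
(.spl (nat_lit 2) (nat_lit 160)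
(.leaf p077_l0)
(.spl (nat_lit 0) (nat_lit 340)
(.spl (nat_lit 6) (nat_lit 44)
(.leaf p077_l1)
(.leaf p077_l2))
(.trX (nat_lit 13) (nat_lit 71) (nat_lit 70) (nat_lit 100) (nat_lit 344) (.spl (nat_lit 2) (nat_lit 240)
(.leaf p077_l3)
(.trX (nat_lit 22) (nat_lit 100) (nat_lit 40) (nat_lit 100) (nat_lit 384) (.leaf p077_l4))))))
(.spl (nat_lit 2) (nat_lit 160)
(.leaf p077_l5)
(.spl (nat_lit 0) (nat_lit 340)
(.leaf p077_l6)
(.trX (nat_lit 13) (nat_lit 71) (nat_lit 70) (nat_lit 100) (nat_lit 344) (.trX (nat_lit 16) (nat_lit 77) (nat_lit 100) (nat_lit 99) (nat_lit 276) (.leaf p077_l7))))))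
(.spl (nat_lit 4) (nat_lit 160)
(.spl (nat_lit 2) (nat_lit 160)
(.leaf p077_l8)
(.spl (nat_lit 0) (nat_lit 340)
(.spl (nat_lit 6) (nat_lit 44)
(.spl (nat_lit 5) (nat_lit 160)
(.spl (nat_lit 0) (nat_lit 330)
(.leaf p077_l9)
(.trX (nat_lit 13) (nat_lit 76) (nat_lit 65) (nat_lit 100) (nat_lit 352) (.leaf p077_l10)))
(.leaf p077_l11))
(.leaf p077_l12))
(.trX (nat_lit 13) (nat_lit 71) (nat_lit 70) (nat_lit 100) (nat_lit 344) (.spl (nat_lit 2) (nat_lit 240)
(.leaf p077_l13)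
(.trX (nat_lit 22) (nat_lit 100) (nat_lit 40) (nat_lit 100) (nat_lit 384) (.spl (nat_lit 4) (nat_lit 80)
(.trX (nat_lit 22) (nat_lit 100) (nat_lit 76) (nat_lit 82) (nat_lit 336) (.spl (nat_lit 1) (nat_lit 180)
(.trX (nat_lit 13) (nat_lit 72) (nat_lit 77) (nat_lit 100) (nat_lit 332) (.leaf p077_l14))
(.spl (nat_lit 2) (nat_lit 280)
(.leaf p077_l15)
(.trX (nat_lit 22) (nat_lit 100) (nat_lit 95) (nat_lit 87) (nat_lit 300) (.spl (nat_lit 2) (nat_lit 320)
(.spl (nat_lit 4) (nat_lit 40)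
(.trX (nat_lit 22) (nat_lit 94) (nat_lit 100) (nat_lit 62) (nat_lit 248) (.spl (nat_lit 0) (nat_lit 350)
(.leaf p077_l16)
(.trZ (nat_lit 3) (nat_lit 100) (nat_lit 83) (nat_lit 25) (nat_lit 4) (.leaf p077_l17))))
(.leaf p077_l18))
(.trX (nat_lit 22) (nat_lit 83) (nat_lit 100) (nat_lit 83) (nat_lit 260) (.spl (nat_lit 1) (nat_lit 190)
(.trX (nat_lit 13) (nat_lit 72) (nat_lit 74) (nat_lit 100) (nat_lit 336) (.leaf p077_l19))
(.leaf p077_l20))))))))
(.leaf p077_l21)))))))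
(.spl (nat_lit 2) (nat_lit 160)
(.leaf p077_l22)
(.spl (nat_lit 0) (nat_lit 340)
(.leaf p077_l23)
(.trX (nat_lit 13) (nat_lit 71) (nat_lit 70) (nat_lit 100) (nat_lit 344) (.trX (nat_lit 16) (nat_lit 77) (nat_lit 100) (nat_lit 99) (nat_lit 276) (.leaf p077_l24)))))))
(.leaf p077_l25))) (by decide +kernel)
noncomputable def p077_l26 : Lf2 := ⟨nat_lit 0, nat_lit 19, [nat_lit 120, nat_lit 5, nat_lit 5, nat_lit 20], true, nat_lit 0, nat_lit 160, nat_lit 0, nat_lit 396, ⟨nat_lit 0, nat_lit 0, nat_lit 1000, nat_lit 4, nat_lit 119, nat_lit 1000, nat_lit 65, nat_lit 1000, nat_lit 40017, nat_lit 264, nat_lit 132017, nat_lit 304, nat_lit 61553016, nat_lit 0, nat_lit 0, nat_lit 1409640, false, false⟩,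
 nat_lit 0, nat_lit 3826, nat_lit 0, nat_lit 1228, nat_lit 2869, nat_lit 0, nat_lit 0, nat_lit 0, nat_lit 0, nat_lit 0, nat_lit 0, nat_lit 0, nat_lit 0, nat_lit 0, nat_lit 125, nat_lit 385900, nat_lit 0, nat_lit 0, [(nat_lit 19, [(nat_lit 4, nat_lit 94), (nat_lit 5, nat_lit 906)]), (nat_lit 22, [(nat_lit 4, nat_lit 94), (nat_lit 5, nat_lit 906)])],
 ⟨p077_k0, nat_lit 0, nat_lit 0, nat_lit 430, nat_lit 0, nat_lit 238638, [nat_lit 2433598400, nat_lit 273387200], [], [nat_lit 19783304651, nat_lit 21691328244, nat_lit 20193010748, nat_lit 22113330536, nat_lit 20010018702, nat_lit 21929406189, nat_lit 21657843272, nat_lit 22926398044], nat_lit 1271250, nat_lit 1271250, nat_lit 88400, nat_lit 1100001, nat_lit 0, nat_lit 1100001, [nat_lit 490000, nat_lit 2052500], [nat_lit 94, nat_lit 40, nat_lit 40, nat_lit 80, nat_lit 95, nat_lit 317, nat_lit 100, nat_lit 9]⟩, C1.Rw.none,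
 ⟨nat_lit 3162, nat_lit 4473, ⟨.ofNat (nat_lit 143971), .ofNat (nat_lit 388887), .ofNat (nat_lit 186943), .ofNat (nat_lit 431944), .ofNat (nat_lit 175109), .ofNat (nat_lit 394735), .ofNat (nat_lit 219258), .ofNat (nat_lit 438969)⟩, ⟨.ofNat (nat_lit 0), .ofNat (nat_lit 302621), .ofNat (nat_lit 0), .ofNat (nat_lit 345754), .ofNat (nat_lit 0), .ofNat (nat_lit 306116), .ofNat (nat_lit 0), .ofNat (nat_lit 350426)⟩⟩, [⟨nat_lit 0, nat_lit 100, nat_lit 60, nat_lit 80, nat_lit 62567151⟩, ⟨nat_lit 3, nat_lit 100, nat_lit 82, nat_lit 29, nat_lit 13749941⟩, ⟨nat_lit 3, nat_lit 100, nat_lit 65, nat_lit 54, nat_lit 37486109⟩]⟩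
noncomputable def p077_l27 : Lf2 := ⟨nat_lit 0, nat_lit 19, [nat_lit 120, nat_lit 5, nat_lit 5, nat_lit 20], true, nat_lit 0, nat_lit 160, nat_lit 0, nat_lit 396, ⟨nat_lit 0, nat_lit 0, nat_lit 1000, nat_lit 4, nat_lit 191, nat_lit 1000, nat_lit 65, nat_lit 1000, nat_lit 40017, nat_lit 264, nat_lit 1350, nat_lit 224, nat_lit 54533725, nat_lit 0, nat_lit 0, nat_lit 2402322, false, true⟩,
 nat_lit 0, nat_lit 4202, nat_lit 0, nat_lit 0, nat_lit 3151, nat_lit 0, nat_lit 0, nat_lit 0, nat_lit 0, nat_lit 0, nat_lit 0, nat_lit 0, nat_lit 0, nat_lit 0, nat_lit 101, nat_lit 311500, nat_lit 0, nat_lit 0, [(nat_lit 19, [(nat_lit 4, nat_lit 590), (nat_lit 5, nat_lit 410)]), (nat_lit 22, [(nat_lit 4, nat_lit 590), (nat_lit 5, nat_lit 410)])],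
 ⟨p077_k0, nat_lit 0, nat_lit 0, nat_lit 306, nat_lit 0, nat_lit 238638, [nat_lit 2288024001, nat_lit 220792000], [], [nat_lit 19506044379, nat_lit 21622770555, nat_lit 21520707935, nat_lit 23385682423, nat_lit 19669083231, nat_lit 21481543295, nat_lit 23349334687, nat_lit 23506355052], nat_lit 1271250, nat_lit 1271250, nat_lit 1100001, nat_lit 1785000, nat_lit 0, nat_lit 1100001, [nat_lit 490000, nat_lit 2052500], [nat_lit 94, nat_lit 40, nat_lit 40, nat_lit 80, nat_lit 95, nat_lit 317, nat_lit 100, nat_lit 9]⟩, C1.Rw.none,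
 ⟨nat_lit 3162, nat_lit 4473, ⟨.ofNat (nat_lit 388887), .ofNat (nat_lit 524844), .ofNat (nat_lit 431944), .ofNat (nat_lit 567977), .ofNat (nat_lit 394735), .ofNat (nat_lit 516642), .ofNat (nat_lit 438969), .ofNat (nat_lit 560952)⟩, ⟨.ofNat (nat_lit 0), .ofNat (nat_lit 302621), .ofNat (nat_lit 0), .ofNat (nat_lit 345754), .ofNat (nat_lit 0), .ofNat (nat_lit 306116), .ofNat (nat_lit 0), .ofNat (nat_lit 350426)⟩⟩, [⟨nat_lit 3, nat_lit 100, nat_lit 82, nat_lit 29, nat_lit 52977978⟩, ⟨nat_lit 3, nat_lit 100, nat_lit 65, nat_lit 54, nat_lit 21276517⟩]⟩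
noncomputable def p077_l28 : Lf2 := ⟨nat_lit 0, nat_lit 19, [nat_lit 120, nat_lit 5, nat_lit 5, nat_lit 20], false, nat_lit 0, nat_lit 160, nat_lit 0, nat_lit 384, ⟨nat_lit 423, nat_lit 0, nat_lit 577, nat_lit 6, nat_lit 258, nat_lit 577, nat_lit 65, nat_lit 577, nat_lit 40017, nat_lit 264, nat_lit 272572, nat_lit 200, nat_lit 47361101, nat_lit 0, nat_lit 0, nat_lit 3024598, false, true⟩,
 nat_lit 0, nat_lit 5111, nat_lit 0, nat_lit 9079, nat_lit 3833, nat_lit 4058, nat_lit 249, nat_lit 0, nat_lit 0, nat_lit 406, nat_lit 0, nat_lit 0, nat_lit 0, nat_lit 0, nat_lit 0, nat_lit 230800, nat_lit 0, nat_lit 0, [(nat_lit 19, [(nat_lit 5, nat_lit 577)])],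
 ⟨p077_k6, nat_lit 0, nat_lit 0, nat_lit 208, nat_lit 0, nat_lit 27601, [nat_lit 1395453600, nat_lit 1732375201, nat_lit 2233678000], [], [nat_lit 23358112394, nat_lit 24456974747, nat_lit 28957515700, nat_lit 30219819338, nat_lit 22170004606, nat_lit 23001770012, nat_lit 26274674241, nat_lit 27170901400], nat_lit 1271250, nat_lit 1271250, nat_lit 1271250, nat_lit 1271250, nat_lit 0, nat_lit 1100001, [nat_lit 490000, nat_lit 1100000, nat_lit 2127500], [nat_lit 27, nat_lit 40, nat_lit 40, nat_lit 80, nat_lit 13, nat_lit 373, nat_lit 150, nat_lit 10]⟩, ⟨p077_k5, nat_lit 0, nat_lit 0, nat_lit 409, nat_lit 0, nat_lit 0, [nat_lit 3370464000, nat_lit 5021856000, nat_lit 6937200000], [], [nat_lit 16130009112, nat_lit 16234021568, nat_lit 19401264120, nat_lit 19240903964, nat_lit 15641527694, nat_lit 15557949623, nat_lit 17522233374, nat_lit 17265551220], nat_lit 0, nat_lit 0, nat_lit 0, nat_lit 0, nat_lit 0, nat_lit 0,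 [], [nat_lit 97, nat_lit 40, nat_lit 40, nat_lit 80, nat_lit 76, nat_lit 483, nat_lit 250, nat_lit 10]⟩,
 ⟨nat_lit 3872, nat_lit 4473, ⟨.ofNat (nat_lit 524844), .ofNat (nat_lit 728778), .ofNat (nat_lit 567977), .ofNat (nat_lit 771911), .ofNat (nat_lit 520934), .ofNat (nat_lit 714498), .ofNat (nat_lit 564520), .ofNat (nat_lit 758085)⟩, ⟨.ofNat (nat_lit 0), .ofNat (nat_lit 302621), .ofNat (nat_lit 0), .ofNat (nat_lit 345754), .ofNat (nat_lit 0), .ofNat (nat_lit 304717), .ofNat (nat_lit 0), .ofNat (nat_lit 348304)⟩⟩, [⟨nat_lit 22, nat_lit 94, nat_lit 100, nat_lit 87, nat_lit 72412341⟩]⟩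
noncomputable def p077_l29 : Lf2 := ⟨nat_lit 0, nat_lit 19, [nat_lit 120, nat_lit 5, nat_lit 5, nat_lit 20], false, nat_lit 0, nat_lit 160, nat_lit 0, nat_lit 384, ⟨nat_lit 289, nat_lit 0, nat_lit 711, nat_lit 6, nat_lit 229, nat_lit 711, nat_lit 65, nat_lit 711, nat_lit 40017, nat_lit 264, nat_lit 5706, nat_lit 203, nat_lit 50477143, nat_lit 0, nat_lit 0, nat_lit 2792898, false, true⟩,
 nat_lit 0, nat_lit 3874, nat_lit 0, nat_lit 1831, nat_lit 3135, nat_lit 2742, nat_lit 0, nat_lit 0, nat_lit 0, nat_lit 253, nat_lit 0, nat_lit 0, nat_lit 0, nat_lit 0, nat_lit 12, nat_lit 288000, nat_lit 0, nat_lit 0, [(nat_lit 22, [(nat_lit 5, nat_lit 705), (nat_lit 6, nat_lit 6)])],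
 ⟨p077_k4, nat_lit 0, nat_lit 0, nat_lit 257, nat_lit 0, nat_lit 215199, [nat_lit 1375868800, nat_lit 964119200, nat_lit 24666800], [], [nat_lit 22710479980, nat_lit 23733044960, nat_lit 24072869890, nat_lit 25184924280, nat_lit 22449736370, nat_lit 23282473980, nat_lit 23566995970, nat_lit 24392117720], nat_lit 1271250, nat_lit 1271250, nat_lit 1271250, nat_lit 1271250, nat_lit 0, nat_lit 1100001, [nat_lit 490000, nat_lit 1100000, nat_lit 1785000], [nat_lit 34, nat_lit 40, nat_lit 40, nat_lit 80, nat_lit 7, nat_lit 249, nat_lit 40, nat_lit 7]⟩, ⟨p077_k5, nat_lit 0, nat_lit 0, nat_lit 409, nat_lit 0, nat_lit 0, [nat_lit 2302752000, nat_lit 3431008000, nat_lit 4739600000], [], [nat_lit 11233031526, nat_lit 11306339838, nat_lit 11817427058, nat_lit 11837762350, nat_lit 10928138114, nat_lit 10767831402, nat_lit 11096813717, nat_lit 10915569963], nat_lit 0, nat_lit 0, nat_lit 0, nat_lit 0, nat_lit 0, nat_lit 0, [],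 [nat_lit 97, nat_lit 40, nat_lit 40, nat_lit 80, nat_lit 76, nat_lit 456, nat_lit 225, nat_lit 10]⟩,
 ⟨nat_lit 3162, nat_lit 3873, ⟨.ofNat (nat_lit 520934), .ofNat (nat_lit 585455), .ofNat (nat_lit 564520), .ofNat (nat_lit 629042), .ofNat (nat_lit 516642), .ofNat (nat_lit 577595), .ofNat (nat_lit 560952), .ofNat (nat_lit 621905)⟩, ⟨.ofNat (nat_lit 0), .ofNat (nat_lit 304717), .ofNat (nat_lit 0), .ofNat (nat_lit 348304), .ofNat (nat_lit 0), .ofNat (nat_lit 306116), .ofNat (nat_lit 0), .ofNat (nat_lit 350426)⟩⟩, [⟨nat_lit 22, nat_lit 100, nat_lit 85, nat_lit 84, nat_lit 54848142⟩]⟩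
noncomputable def p077_l30 : Lf2 := ⟨nat_lit 0, nat_lit 19, [nat_lit 120, nat_lit 5, nat_lit 5, nat_lit 20], false, nat_lit 0, nat_lit 160, nat_lit 0, nat_lit 364, ⟨nat_lit 463, nat_lit 0, nat_lit 537, nat_lit 7, nat_lit 261, nat_lit 537, nat_lit 65, nat_lit 537, nat_lit 40017, nat_lit 264, nat_lit 193302, nat_lit 200, nat_lit 46941456, nat_lit 0, nat_lit 0, nat_lit 3051694, false, true⟩,
 nat_lit 0, nat_lit 4598, nat_lit 0, nat_lit 3534, nat_lit 3722, nat_lit 4193, nat_lit 0, nat_lit 0, nat_lit 0, nat_lit 414, nat_lit 0, nat_lit 0, nat_lit 0, nat_lit 0, nat_lit 1, nat_lit 418800, nat_lit 0, nat_lit 0, [(nat_lit 22, [(nat_lit 5, nat_lit 197), (nat_lit 6, nat_lit 340)])],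
 ⟨p077_k4, nat_lit 0, nat_lit 0, nat_lit 268, nat_lit 0, nat_lit 215199, [nat_lit 1398400001, nat_lit 1222971200, nat_lit 3555334], [], [nat_lit 24875051692, nat_lit 26444584016, nat_lit 28876589014, nat_lit 30186898711, nat_lit 23199357664, nat_lit 23980899280, nat_lit 26128436989, nat_lit 27273150207], nat_lit 1271250, nat_lit 1271250, nat_lit 1271250, nat_lit 1271250, nat_lit 0, nat_lit 1100001, [nat_lit 490000, nat_lit 1100000, nat_lit 1785000], [nat_lit 34, nat_lit 40, nat_lit 40, nat_lit 80, nat_lit 7, nat_lit 249, nat_lit 40, nat_lit 7]⟩, ⟨p077_k5, nat_lit 0, nat_lit 0, nat_lit 407, nat_lit 0, nat_lit 0, [nat_lit 3689184000, nat_lit 5496736000, nat_lit 7593200000], [], [nat_lit 18623905988, nat_lit 18674415052, nat_lit 20624282748, nat_lit 20521166076, nat_lit 17209259090, nat_lit 16980644337, nat_lit 18344580508, nat_lit 18163375130], nat_lit 0, nat_lit 0, nat_lit 0, nat_lit 0, nat_lit 0, nat_lit 0, [],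 [nat_lit 97, nat_lit 40, nat_lit 40, nat_lit 80, nat_lit 76, nat_lit 483, nat_lit 250, nat_lit 10]⟩,
 ⟨nat_lit 3162, nat_lit 3873, ⟨.ofNat (nat_lit 585455), .ofNat (nat_lit 688690), .ofNat (nat_lit 629042), .ofNat (nat_lit 732276), .ofNat (nat_lit 577595), .ofNat (nat_lit 675121), .ofNat (nat_lit 621905), .ofNat (nat_lit 719431)⟩, ⟨.ofNat (nat_lit 0), .ofNat (nat_lit 304717), .ofNat (nat_lit 0), .ofNat (nat_lit 348304), .ofNat (nat_lit 0), .ofNat (nat_lit 306116), .ofNat (nat_lit 0), .ofNat (nat_lit 350426)⟩⟩, [⟨nat_lit 13, nat_lit 66, nat_lit 82, nat_lit 100, nat_lit 147661452⟩, ⟨nat_lit 13, nat_lit 61, nat_lit 92, nat_lit 100, nat_lit 4013225⟩, ⟨nat_lit 22, nat_lit 88, nat_lit 100, nat_lit 85, nat_lit 77989902⟩]⟩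
noncomputable def p077_l31 : Lf2 := ⟨nat_lit 0, nat_lit 19, [nat_lit 120, nat_lit 5, nat_lit 5, nat_lit 20], true, nat_lit 160, nat_lit 300, nat_lit 0, nat_lit 396, ⟨nat_lit 0, nat_lit 0, nat_lit 1000, nat_lit 4, nat_lit 119, nat_lit 1000, nat_lit 176, nat_lit 1000, nat_lit 1169, nat_lit 218, nat_lit 132017, nat_lit 304, nat_lit 50295512, nat_lit 0, nat_lit 0, nat_lit 3860240, false, false⟩,
 nat_lit 0, nat_lit 4310, nat_lit 0, nat_lit 4156, nat_lit 3232, nat_lit 0, nat_lit 0, nat_lit 0, nat_lit 0, nat_lit 0, nat_lit 0, nat_lit 0, nat_lit 0, nat_lit 0, nat_lit 129, nat_lit 400000, nat_lit 0, nat_lit 0, [(nat_lit 19, [(nat_lit 5, nat_lit 1000)]), (nat_lit 22, [(nat_lit 5, nat_lit 1000)])],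
 ⟨p077_k0, nat_lit 0, nat_lit 0, nat_lit 296, nat_lit 0, nat_lit 238638, [nat_lit 2456800001, nat_lit 268000000], [], [nat_lit 18174724503, nat_lit 20293441200, nat_lit 18542818499, nat_lit 20924125028, nat_lit 23106811604, nat_lit 25873060295, nat_lit 26703920067, nat_lit 25295492388], nat_lit 1271250, nat_lit 1271250, nat_lit 88400, nat_lit 1100001, nat_lit 1100001, nat_lit 2298750, [nat_lit 490000, nat_lit 2052500], [nat_lit 94, nat_lit 40, nat_lit 40, nat_lit 80, nat_lit 95, nat_lit 345, nat_lit 125, nat_lit 10]⟩, C1.Rw.none,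
 ⟨nat_lit 3162, nat_lit 4473, ⟨.ofNat (nat_lit 143971), .ofNat (nat_lit 388887), .ofNat (nat_lit 186943), .ofNat (nat_lit 431944), .ofNat (nat_lit 175109), .ofNat (nat_lit 394735), .ofNat (nat_lit 219258), .ofNat (nat_lit 438969)⟩, ⟨.ofNat (nat_lit 302621), .ofNat (nat_lit 540545), .ofNat (nat_lit 345754), .ofNat (nat_lit 583678), .ofNat (nat_lit 306116), .ofNat (nat_lit 519453), .ofNat (nat_lit 350426), .ofNat (nat_lit 563762)⟩⟩, [⟨nat_lit 4, nat_lit 100, nat_lit 74, nat_lit 90, nat_lit 352396214⟩]⟩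
noncomputable def p077_l32 : Lf2 := ⟨nat_lit 0, nat_lit 11, [nat_lit 191, nat_lit 5, nat_lit 5, nat_lit 20], true, nat_lit 160, nat_lit 300, nat_lit 0, nat_lit 396, ⟨nat_lit 0, nat_lit 1000, nat_lit 0, nat_lit 4, nat_lit 231, nat_lit 1000, nat_lit 177, nat_lit 0, nat_lit 0, nat_lit 0, nat_lit 0, nat_lit 0, nat_lit 41706011, nat_lit 15316478, nat_lit 9977511, nat_lit 4931606, false, true⟩,
 nat_lit 0, nat_lit 4762, nat_lit 0, nat_lit 3965, nat_lit 3571, nat_lit 0, nat_lit 0, nat_lit 0, nat_lit 0, nat_lit 0, nat_lit 0, nat_lit 0, nat_lit 0, nat_lit 0, nat_lit 0, nat_lit 250000, nat_lit 0, nat_lit 0, [(nat_lit 19, [(nat_lit 0, nat_lit 1000)])],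
 ⟨p077_k9, nat_lit 0, nat_lit 0, nat_lit 73, nat_lit 0, nat_lit 26261, [nat_lit 1542400001, nat_lit 2190400000, nat_lit 2901600000], [], [nat_lit 18384010437, nat_lit 19723195881, nat_lit 26284184916, nat_lit 27219439158, nat_lit 23441201560, nat_lit 24468985399, nat_lit 29491500183, nat_lit 30223845186], nat_lit 1271250, nat_lit 1271250, nat_lit 1271250, nat_lit 1271250, nat_lit 1100001, nat_lit 2298750, [nat_lit 490000, nat_lit 1100000, nat_lit 1785000], [nat_lit 34, nat_lit 40, nat_lit 40, nat_lit 80, nat_lit 7, nat_lit 401, nat_lit 175, nat_lit 12]⟩, C1.Rw.none,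
 ⟨nat_lit 3872, nat_lit 4473, ⟨.ofNat (nat_lit 388887), .ofNat (nat_lit 728778), .ofNat (nat_lit 432013), .ofNat (nat_lit 771911), .ofNat (nat_lit 391890), .ofNat (nat_lit 714498), .ofNat (nat_lit 435470), .ofNat (nat_lit 758085)⟩, ⟨.ofNat (nat_lit 302621), .ofNat (nat_lit 540545), .ofNat (nat_lit 345754), .ofNat (nat_lit 583678), .ofNat (nat_lit 304717), .ofNat (nat_lit 530543), .ofNat (nat_lit 348304), .ofNat (nat_lit 574129)⟩⟩, [⟨nat_lit 13, nat_lit 76, nat_lit 73, nat_lit 100, nat_lit 131463311⟩, ⟨nat_lit 16, nat_lit 81, nat_lit 100, nat_lit 92, nat_lit 112615098⟩]⟩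
noncomputable def p077_l33 : Lf2 := ⟨nat_lit 1, nat_lit 19, [nat_lit 120, nat_lit 5, nat_lit 5, nat_lit 20], false, nat_lit 160, nat_lit 300, nat_lit 0, nat_lit 396, zbN0,
 nat_lit 0, nat_lit 0, nat_lit 0, nat_lit 0, nat_lit 0, nat_lit 0, nat_lit 0, nat_lit 0, nat_lit 0, nat_lit 0, nat_lit 0, nat_lit 0, nat_lit 0, nat_lit 0, nat_lit 0, nat_lit 0, nat_lit 0, nat_lit 0, [],
 C1.Rw.none, C1.Rw.none,
 zbF0, []⟩
noncomputable def p077_l34 : Lf2 := ⟨nat_lit 0, nat_lit 19, [nat_lit 120, nat_lit 5, nat_lit 5, nat_lit 20], true, nat_lit 160, nat_lit 276, nat_lit 0, nat_lit 396, ⟨nat_lit 0, nat_lit 317, nat_lit 683, nat_lit 4, nat_lit 191, nat_lit 1000, nat_lit 167, nat_lit 683, nat_lit 13749, nat_lit 240, nat_lit 4566, nat_lit 226, nat_lit 45485786, nat_lit 11882251, nat_lit 9631963, nat_lit 4559671, false, true⟩,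
 nat_lit 0, nat_lit 3997, nat_lit 0, nat_lit 725, nat_lit 3235, nat_lit 0, nat_lit 0, nat_lit 0, nat_lit 0, nat_lit 0, nat_lit 0, nat_lit 0, nat_lit 0, nat_lit 0, nat_lit 32, nat_lit 258850, nat_lit 0, nat_lit 0, [(nat_lit 22, [(nat_lit 0, nat_lit 317), (nat_lit 4, nat_lit 624), (nat_lit 5, nat_lit 59)])],
 ⟨p077_k4, nat_lit 0, nat_lit 0, nat_lit 146, nat_lit 0, nat_lit 215199, [nat_lit 1741148801, nat_lit 831828401, nat_lit 22217733], [], [nat_lit 19546702464, nat_lit 20662338034, nat_lit 21514518514, nat_lit 22494127794, nat_lit 22752001442, nat_lit 23666266348, nat_lit 24442067164, nat_lit 25446260839], nat_lit 1271250, nat_lit 1271250, nat_lit 1100001, nat_lit 1785000, nat_lit 1100001, nat_lit 2093250, [nat_lit 490000, nat_lit 1100000, nat_lit 1785000], [nat_lit 34, nat_lit 40, nat_lit 40, nat_lit 80, nat_lit 7, nat_lit 373, nat_lit 150, nat_lit 11]⟩, C1.Rw.none,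
 ⟨nat_lit 3162, nat_lit 3873, ⟨.ofNat (nat_lit 391890), .ofNat (nat_lit 520934), .ofNat (nat_lit 435446), .ofNat (nat_lit 564520), .ofNat (nat_lit 394735), .ofNat (nat_lit 516642), .ofNat (nat_lit 439014), .ofNat (nat_lit 560952)⟩, ⟨.ofNat (nat_lit 304717), .ofNat (nat_lit 491830), .ofNat (nat_lit 348304), .ofNat (nat_lit 535416), .ofNat (nat_lit 306116), .ofNat (nat_lit 482881), .ofNat (nat_lit 350426), .ofNat (nat_lit 527190)⟩⟩, [⟨nat_lit 4, nat_lit 100, nat_lit 67, nat_lit 88, nat_lit 237550448⟩]⟩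
noncomputable def p077_l35 : Lf2 := ⟨nat_lit 0, nat_lit 19, [nat_lit 120, nat_lit 5, nat_lit 5, nat_lit 20], true, nat_lit 160, nat_lit 240, nat_lit 0, nat_lit 396, ⟨nat_lit 0, nat_lit 909, nat_lit 91, nat_lit 6, nat_lit 241, nat_lit 1000, nat_lit 156, nat_lit 91, nat_lit 74869, nat_lit 282, nat_lit 111002, nat_lit 200, nat_lit 42209421, nat_lit 16499408, nat_lit 8291171, nat_lit 4803877, false, true⟩,
 nat_lit 0, nat_lit 3899, nat_lit 0, nat_lit 1586, nat_lit 3156, nat_lit 0, nat_lit 36, nat_lit 0, nat_lit 0, nat_lit 0, nat_lit 0, nat_lit 0, nat_lit 0, nat_lit 0, nat_lit 0, nat_lit 454600, nat_lit 0, nat_lit 0, [(nat_lit 22, [(nat_lit 1, nat_lit 909), (nat_lit 6, nat_lit 91)])],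
 ⟨p077_k4, nat_lit 0, nat_lit 0, nat_lit 151, nat_lit 0, nat_lit 200471, [nat_lit 1303654401, nat_lit 1197934400, nat_lit 481148800], [], [nat_lit 22360827009, nat_lit 23330952497, nat_lit 25568883625, nat_lit 26374540694, nat_lit 24053463001, nat_lit 24910005761, nat_lit 26881364848, nat_lit 27620257863], nat_lit 1271250, nat_lit 1271250, nat_lit 1271250, nat_lit 1271250, nat_lit 1100001, nat_lit 1785000, [nat_lit 490000, nat_lit 1100000, nat_lit 1785000], [nat_lit 34, nat_lit 40, nat_lit 40, nat_lit 80, nat_lit 7, nat_lit 272, nat_lit 60, nat_lit 7]⟩, C1.Rw.none,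
 ⟨nat_lit 3162, nat_lit 3873, ⟨.ofNat (nat_lit 520934), .ofNat (nat_lit 669333), .ofNat (nat_lit 542727), .ofNat (nat_lit 691126), .ofNat (nat_lit 516642), .ofNat (nat_lit 656835), .ofNat (nat_lit 538797), .ofNat (nat_lit 678990)⟩, ⟨.ofNat (nat_lit 304717), .ofNat (nat_lit 433760), .ofNat (nat_lit 348304), .ofNat (nat_lit 477347), .ofNat (nat_lit 306116), .ofNat (nat_lit 428022), .ofNat (nat_lit 350426), .ofNat (nat_lit 472332)⟩⟩, [⟨nat_lit 13, nat_lit 67, nat_lit 85, nat_lit 100, nat_lit 207082420⟩, ⟨nat_lit 4, nat_lit 100, nat_lit 67, nat_lit 88, nat_lit 116373167⟩]⟩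
noncomputable def p077_l36 : Lf2 := ⟨nat_lit 0, nat_lit 19, [nat_lit 120, nat_lit 5, nat_lit 5, nat_lit 20], true, nat_lit 160, nat_lit 240, nat_lit 0, nat_lit 392, ⟨nat_lit 0, nat_lit 520, nat_lit 480, nat_lit 6, nat_lit 233, nat_lit 1000, nat_lit 156, nat_lit 480, nat_lit 74869, nat_lit 282, nat_lit 5706, nat_lit 203, nat_lit 42828946, nat_lit 15808714, nat_lit 8362340, nat_lit 4759918, true, true⟩,
 nat_lit 0, nat_lit 4036, nat_lit 0, nat_lit 0, nat_lit 3267, nat_lit 0, nat_lit 0, nat_lit 0, nat_lit 0, nat_lit 0, nat_lit 0, nat_lit 0, nat_lit 0, nat_lit 0, nat_lit 8, nat_lit 308050, nat_lit 0, nat_lit 0, [(nat_lit 22, [(nat_lit 0, nat_lit 520), (nat_lit 4, nat_lit 93), (nat_lit 5, nat_lit 387)])],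
 ⟨p077_k4, nat_lit 0, nat_lit 0, nat_lit 145, nat_lit 0, nat_lit 215199, [nat_lit 1395753601, nat_lit 802386001, nat_lit 21902800], [], [nat_lit 21889872957, nat_lit 22873323773, nat_lit 23185484241, nat_lit 24096492557, nat_lit 23578044751, nat_lit 24445211321, nat_lit 24711338071, nat_lit 25518018980], nat_lit 1271250, nat_lit 1271250, nat_lit 1271250, nat_lit 1271250, nat_lit 1100001, nat_lit 1785000, [nat_lit 490000, nat_lit 1100000, nat_lit 1785000], [nat_lit 34, nat_lit 40, nat_lit 40, nat_lit 80, nat_lit 7, nat_lit 272, nat_lit 60, nat_lit 7]⟩, C1.Rw.none,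
 ⟨nat_lit 3162, nat_lit 3873, ⟨.ofNat (nat_lit 542727), .ofNat (nat_lit 607248), .ofNat (nat_lit 564520), .ofNat (nat_lit 629042), .ofNat (nat_lit 538797), .ofNat (nat_lit 599750), .ofNat (nat_lit 560952), .ofNat (nat_lit 621905)⟩, ⟨.ofNat (nat_lit 304717), .ofNat (nat_lit 433760), .ofNat (nat_lit 348304), .ofNat (nat_lit 477347), .ofNat (nat_lit 306116), .ofNat (nat_lit 428022), .ofNat (nat_lit 350426), .ofNat (nat_lit 472332)⟩⟩, [⟨nat_lit 4, nat_lit 100, nat_lit 67, nat_lit 88, nat_lit 146282797⟩]⟩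
noncomputable def p077_l37 : Lf2 := ⟨nat_lit 0, nat_lit 19, [nat_lit 120, nat_lit 5, nat_lit 5, nat_lit 20], true, nat_lit 160, nat_lit 240, nat_lit 4, nat_lit 392, ⟨nat_lit 0, nat_lit 1000, nat_lit 0, nat_lit 7, nat_lit 266, nat_lit 1000, nat_lit 156, nat_lit 0, nat_lit 0, nat_lit 0, nat_lit 0, nat_lit 0, nat_lit 40161749, nat_lit 18799852, nat_lit 8038399, nat_lit 4925369, true, true⟩,
 nat_lit 0, nat_lit 3927, nat_lit 0, nat_lit 1377, nat_lit 3178, nat_lit 0, nat_lit 124, nat_lit 0, nat_lit 0, nat_lit 0, nat_lit 0, nat_lit 0, nat_lit 0, nat_lit 0, nat_lit 0, nat_lit 400000, nat_lit 0, nat_lit 0, [(nat_lit 22, [(nat_lit 1, nat_lit 1000)])],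
 ⟨p077_k4, nat_lit 0, nat_lit 0, nat_lit 159, nat_lit 0, nat_lit 215199, [nat_lit 1358400001, nat_lit 1554800000, nat_lit 1406000000], [], [nat_lit 23826268561, nat_lit 24727972105, nat_lit 26227667073, nat_lit 27013328774, nat_lit 25358575781, nat_lit 26156561785, nat_lit 27484591772, nat_lit 28183015592], nat_lit 1271250, nat_lit 1271250, nat_lit 1271250, nat_lit 1271250, nat_lit 1100001, nat_lit 1785000, [nat_lit 490000, nat_lit 1100000, nat_lit 1785000], [nat_lit 34, nat_lit 40, nat_lit 40, nat_lit 80, nat_lit 7, nat_lit 272, nat_lit 60, nat_lit 7]⟩, C1.Rw.none,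
 ⟨nat_lit 3162, nat_lit 3873, ⟨.ofNat (nat_lit 607248), .ofNat (nat_lit 710483), .ofNat (nat_lit 629042), .ofNat (nat_lit 732276), .ofNat (nat_lit 599750), .ofNat (nat_lit 697276), .ofNat (nat_lit 621905), .ofNat (nat_lit 719431)⟩, ⟨.ofNat (nat_lit 304717), .ofNat (nat_lit 433760), .ofNat (nat_lit 348304), .ofNat (nat_lit 477347), .ofNat (nat_lit 306116), .ofNat (nat_lit 428022), .ofNat (nat_lit 350426), .ofNat (nat_lit 472332)⟩⟩, [⟨nat_lit 13, nat_lit 66, nat_lit 78, nat_lit 100, nat_lit 218532873⟩, ⟨nat_lit 4, nat_lit 100, nat_lit 67, nat_lit 88, nat_lit 111387248⟩]⟩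
noncomputable def p077_l38 : Lf2 := ⟨nat_lit 0, nat_lit 19, [nat_lit 120, nat_lit 5, nat_lit 5, nat_lit 20], true, nat_lit 240, nat_lit 276, nat_lit 16, nat_lit 396, ⟨nat_lit 0, nat_lit 1000, nat_lit 0, nat_lit 6, nat_lit 250, nat_lit 1000, nat_lit 193, nat_lit 0, nat_lit 0, nat_lit 0, nat_lit 0, nat_lit 0, nat_lit 39251660, nat_lit 16694074, nat_lit 11054266, nat_lit 5160583, false, true⟩,
 nat_lit 0, nat_lit 3955, nat_lit 0, nat_lit 4775, nat_lit 3201, nat_lit 0, nat_lit 132, nat_lit 0, nat_lit 0, nat_lit 0, nat_lit 0, nat_lit 0, nat_lit 0, nat_lit 0, nat_lit 0, nat_lit 400000, nat_lit 0, nat_lit 0, [(nat_lit 22, [(nat_lit 1, nat_lit 1000)])],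
 ⟨p077_k4, nat_lit 0, nat_lit 0, nat_lit 113, nat_lit 0, nat_lit 114694, [nat_lit 1358400001, nat_lit 1554800000, nat_lit 1406000000], [], [nat_lit 24125247051, nat_lit 24555671906, nat_lit 27384943088, nat_lit 27734856383, nat_lit 25210804305, nat_lit 25613497969, nat_lit 28404472696, nat_lit 28844826163], nat_lit 1271250, nat_lit 1271250, nat_lit 1271250, nat_lit 1271250, nat_lit 1271250, nat_lit 1271250, [nat_lit 490000, nat_lit 1100000, nat_lit 1785000], [nat_lit 34, nat_lit 40, nat_lit 40, nat_lit 80, nat_lit 7, nat_lit 203, nat_lit 0, nat_lit 5]⟩, C1.Rw.none,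
 ⟨nat_lit 3535, nat_lit 3873, ⟨.ofNat (nat_lit 520934), .ofNat (nat_lit 688690), .ofNat (nat_lit 564520), .ofNat (nat_lit 732276), .ofNat (nat_lit 518855), .ofNat (nat_lit 682034), .ofNat (nat_lit 562760), .ofNat (nat_lit 725940)⟩, ⟨.ofNat (nat_lit 433760), .ofNat (nat_lit 491830), .ofNat (nat_lit 477347), .ofNat (nat_lit 535416), .ofNat (nat_lit 431044), .ofNat (nat_lit 487529), .ofNat (nat_lit 474949), .ofNat (nat_lit 531435)⟩⟩, [⟨nat_lit 13, nat_lit 69, nat_lit 79, nat_lit 100, nat_lit 198170219⟩, ⟨nat_lit 16, nat_lit 71, nat_lit 100, nat_lit 89, nat_lit 291588854⟩]⟩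
noncomputable def p077_l39 : Lf2 := ⟨nat_lit 0, nat_lit 19, [nat_lit 120, nat_lit 5, nat_lit 5, nat_lit 20], true, nat_lit 240, nat_lit 264, nat_lit 16, nat_lit 396, ⟨nat_lit 0, nat_lit 1000, nat_lit 0, nat_lit 6, nat_lit 246, nat_lit 1000, nat_lit 188, nat_lit 0, nat_lit 0, nat_lit 0, nat_lit 0, nat_lit 0, nat_lit 39872823, nat_lit 16417767, nat_lit 10709410, nat_lit 5102664, false, true⟩,
 nat_lit 0, nat_lit 3804, nat_lit 0, nat_lit 4444, nat_lit 3195, nat_lit 0, nat_lit 116, nat_lit 0, nat_lit 0, nat_lit 0, nat_lit 0, nat_lit 0, nat_lit 0, nat_lit 0, nat_lit 0, nat_lit 400000, nat_lit 0, nat_lit 0, [(nat_lit 22, [(nat_lit 1, nat_lit 1000)])],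
 ⟨p077_k10, nat_lit 0, nat_lit 0, nat_lit 144, nat_lit 0, nat_lit 204817, [nat_lit 1358400001, nat_lit 1554800000, nat_lit 1406000000], [], [nat_lit 24582988976, nat_lit 25013126701, nat_lit 27484958520, nat_lit 27840976225, nat_lit 25287972740, nat_lit 25699646888, nat_lit 28112985989, nat_lit 28573008501], nat_lit 1271250, nat_lit 1271250, nat_lit 1271250, nat_lit 1271250, nat_lit 1271250, nat_lit 1271250, [nat_lit 490000, nat_lit 1100000, nat_lit 1785000], [nat_lit 34, nat_lit 40, nat_lit 40, nat_lit 80, nat_lit 7, nat_lit 203, nat_lit 0, nat_lit 5]⟩, C1.Rw.none,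
 ⟨nat_lit 3162, nat_lit 3536, ⟨.ofNat (nat_lit 518855), .ofNat (nat_lit 669482), .ofNat (nat_lit 562760), .ofNat (nat_lit 713387), .ofNat (nat_lit 516642), .ofNat (nat_lit 662930), .ofNat (nat_lit 560952), .ofNat (nat_lit 707240)⟩, ⟨.ofNat (nat_lit 431044), .ofNat (nat_lit 468701), .ofNat (nat_lit 474949), .ofNat (nat_lit 512606), .ofNat (nat_lit 428022), .ofNat (nat_lit 464594), .ofNat (nat_lit 472332), .ofNat (nat_lit 508904)⟩⟩, [⟨nat_lit 13, nat_lit 66, nat_lit 75, nat_lit 100, nat_lit 204909305⟩, ⟨nat_lit 4, nat_lit 100, nat_lit 64, nat_lit 88, nat_lit 420823930⟩]⟩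
noncomputable def b_V_800_400_20_7 : St := ⟨true, nat_lit 1, nat_lit 0, nat_lit 1, nat_lit 120, nat_lit 320, nat_lit 360, nat_lit 160, nat_lit 200, nat_lit 16, nat_lit 360, nat_lit 80, nat_lit 120, nat_lit 0, nat_lit 300, nat_lit 0, nat_lit 396, nat_lit 40, nat_lit 76, nat_lit 0, nat_lit 0, nat_lit 0, nat_lit 0⟩
theorem d_V_800_400_20_7 (h : EB TB.env) : Dead b_V_800_400_20_7 := chkB_sound0 h (T :=
(.spl (nat_lit 4) (nat_lit 160)
(.spl (nat_lit 2) (nat_lit 160)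
(.leaf p077_l26)
(.spl (nat_lit 2) (nat_lit 240)
(.leaf p077_l27)
(.trX (nat_lit 22) (nat_lit 100) (nat_lit 40) (nat_lit 100) (nat_lit 384) (.spl (nat_lit 0) (nat_lit 340)
(.leaf p077_l28)
(.trX (nat_lit 13) (nat_lit 71) (nat_lit 70) (nat_lit 100) (nat_lit 344) (.spl (nat_lit 2) (nat_lit 280)
(.leaf p077_l29)
(.trX (nat_lit 22) (nat_lit 94) (nat_lit 59) (nat_lit 100) (nat_lit 364) (.leaf p077_l30))))))))
(.spl (nat_lit 2) (nat_lit 160)
(.leaf p077_l31)
(.spl (nat_lit 0) (nat_lit 340)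
(.spl (nat_lit 6) (nat_lit 44)
(.leaf p077_l32)
(.leaf p077_l33))
(.trX (nat_lit 13) (nat_lit 71) (nat_lit 70) (nat_lit 100) (nat_lit 344) (.trX (nat_lit 16) (nat_lit 77) (nat_lit 100) (nat_lit 99) (nat_lit 276) (.spl (nat_lit 2) (nat_lit 240)
(.leaf p077_l34)
(.spl (nat_lit 4) (nat_lit 240)
(.spl (nat_lit 1) (nat_lit 180)
(.trX (nat_lit 13) (nat_lit 72) (nat_lit 77) (nat_lit 100) (nat_lit 332) (.leaf p077_l35))
(.trX (nat_lit 19) (nat_lit 100) (nat_lit 31) (nat_lit 92) (nat_lit 392) (.spl (nat_lit 2) (nat_lit 280)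
(.leaf p077_l36)
(.trZ (nat_lit 9) (nat_lit 100) (nat_lit 94) (nat_lit 21) (nat_lit 4) (.leaf p077_l37)))))
(.trZ (nat_lit 9) (nat_lit 100) (nat_lit 100) (nat_lit 40) (nat_lit 16) (.spl (nat_lit 0) (nat_lit 350)
(.leaf p077_l38)
(.trX (nat_lit 13) (nat_lit 66) (nat_lit 75) (nat_lit 100) (nat_lit 336) (.trX (nat_lit 16) (nat_lit 69) (nat_lit 100) (nat_lit 96) (nat_lit 264) (.leaf p077_l39))))))))))))) (by decide +kernel)
noncomputable def p077_l40 : Lf2 := ⟨nat_lit 0, nat_lit 19, [nat_lit 120, nat_lit 5, nat_lit 5, nat_lit 20], true, nat_lit 0, nat_lit 160, nat_lit 0, nat_lit 396, ⟨nat_lit 0, nat_lit 0, nat_lit 1000, nat_lit 4, nat_lit 119, nat_lit 1000, nat_lit 65, nat_lit 1000, nat_lit 40017, nat_lit 264, nat_lit 132017, nat_lit 304, nat_lit 61553016, nat_lit 0, nat_lit 0, nat_lit 1409640, false, false⟩,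
 nat_lit 0, nat_lit 3826, nat_lit 0, nat_lit 1228, nat_lit 2869, nat_lit 0, nat_lit 0, nat_lit 0, nat_lit 0, nat_lit 0, nat_lit 0, nat_lit 0, nat_lit 0, nat_lit 0, nat_lit 125, nat_lit 385900, nat_lit 0, nat_lit 0, [(nat_lit 19, [(nat_lit 4, nat_lit 94), (nat_lit 5, nat_lit 906)]), (nat_lit 22, [(nat_lit 4, nat_lit 94), (nat_lit 5, nat_lit 906)])],
 ⟨p077_k0, nat_lit 0, nat_lit 0, nat_lit 430, nat_lit 0, nat_lit 238638, [nat_lit 2433598400, nat_lit 273387200], [], [nat_lit 19783304651, nat_lit 21691328244, nat_lit 20193010748, nat_lit 22113330536, nat_lit 20010018702, nat_lit 21929406189, nat_lit 21657843272, nat_lit 22926398044], nat_lit 1271250, nat_lit 1271250, nat_lit 88400, nat_lit 1100001, nat_lit 0, nat_lit 1100001, [nat_lit 490000, nat_lit 2052500], [nat_lit 94, nat_lit 40, nat_lit 40, nat_lit 80, nat_lit 95, nat_lit 317, nat_lit 100, nat_lit 9]⟩, C1.Rw.none,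
 ⟨nat_lit 3162, nat_lit 4473, ⟨.ofNat (nat_lit 143971), .ofNat (nat_lit 388887), .ofNat (nat_lit 186943), .ofNat (nat_lit 431944), .ofNat (nat_lit 175109), .ofNat (nat_lit 394735), .ofNat (nat_lit 219258), .ofNat (nat_lit 438969)⟩, ⟨.ofNat (nat_lit 0), .ofNat (nat_lit 302621), .ofNat (nat_lit 0), .ofNat (nat_lit 345754), .ofNat (nat_lit 0), .ofNat (nat_lit 306116), .ofNat (nat_lit 0), .ofNat (nat_lit 350426)⟩⟩, [⟨nat_lit 0, nat_lit 100, nat_lit 60, nat_lit 80, nat_lit 62567151⟩, ⟨nat_lit 3, nat_lit 100, nat_lit 82, nat_lit 29, nat_lit 13749941⟩, ⟨nat_lit 3, nat_lit 100, nat_lit 65, nat_lit 54, nat_lit 37486109⟩]⟩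
noncomputable def p077_l41 : Lf2 := ⟨nat_lit 0, nat_lit 11, [nat_lit 191, nat_lit 5, nat_lit 5, nat_lit 20], false, nat_lit 0, nat_lit 160, nat_lit 0, nat_lit 160, ⟨nat_lit 502, nat_lit 0, nat_lit 498, nat_lit 4, nat_lit 231, nat_lit 498, nat_lit 65, nat_lit 498, nat_lit 40017, nat_lit 264, nat_lit 272572, nat_lit 200, nat_lit 50235150, nat_lit 0, nat_lit 0, nat_lit 2812891, false, true⟩,
 nat_lit 7903, nat_lit 0, nat_lit 0, nat_lit 3710, nat_lit 4312, nat_lit 2634, nat_lit 125, nat_lit 0, nat_lit 0, nat_lit 0, nat_lit 0, nat_lit 0, nat_lit 0, nat_lit 0, nat_lit 0, nat_lit 498000, nat_lit 0, nat_lit 0, [(nat_lit 19, [(nat_lit 6, nat_lit 498)])],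
 ⟨p077_k9, nat_lit 0, nat_lit 0, nat_lit 183, nat_lit 0, nat_lit 15844, [nat_lit 1545686400, nat_lit 1885056800, nat_lit 608841600], [], [nat_lit 19395900441, nat_lit 20802794928, nat_lit 30102756800, nat_lit 31436951632, nat_lit 18240594937, nat_lit 19403517392, nat_lit 33167379321, nat_lit 31311166809], nat_lit 1271250, nat_lit 1271250, nat_lit 1100001, nat_lit 2812500, nat_lit 0, nat_lit 1100001, [nat_lit 490000, nat_lit 1100000, nat_lit 1785000], [nat_lit 34, nat_lit 40, nat_lit 40, nat_lit 80, nat_lit 7, nat_lit 373, nat_lit 150, nat_lit 12]⟩, ⟨p077_k8, nat_lit 0, nat_lit 0, nat_lit 371, nat_lit 0, nat_lit 50597, [nat_lit 3999936000, nat_lit 5959744000, nat_lit 7057116000], [], [nat_lit 21047601672, nat_lit 21646352752, nat_lit 24499302920, nat_lit 24612955512, nat_lit 23272418544, nat_lit 25017128056, nat_lit 22704895696, nat_lit 22801660584], nat_lit 1100001, nat_lit 1442500, nat_lit 1271250, nat_lit 1271250,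 nat_lit 0, nat_lit 1100001, [nat_lit 1695000, nat_lit 1271250, nat_lit 1271250], [nat_lit 62, nat_lit 40, nat_lit 40, nat_lit 80, nat_lit 58, nat_lit 428, nat_lit 200, nat_lit 10]⟩,
 ⟨nat_lit 3872, nat_lit 4473, ⟨.ofNat (nat_lit 388887), .ofNat (nat_lit 728778), .ofNat (nat_lit 432013), .ofNat (nat_lit 771911), .ofNat (nat_lit 391890), .ofNat (nat_lit 714498), .ofNat (nat_lit 435470), .ofNat (nat_lit 758085)⟩, ⟨.ofNat (nat_lit 0), .ofNat (nat_lit 302621), .ofNat (nat_lit 0), .ofNat (nat_lit 345754), .ofNat (nat_lit 0), .ofNat (nat_lit 304717), .ofNat (nat_lit 0), .ofNat (nat_lit 348304)⟩⟩, []⟩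
noncomputable def p077_l42 : Lf2 := ⟨nat_lit 0, nat_lit 11, [nat_lit 191, nat_lit 5, nat_lit 5, nat_lit 20], false, nat_lit 0, nat_lit 160, nat_lit 160, nat_lit 396, ⟨nat_lit 229, nat_lit 0, nat_lit 771, nat_lit 4, nat_lit 231, nat_lit 771, nat_lit 65, nat_lit 771, nat_lit 40017, nat_lit 264, nat_lit 272572, nat_lit 200, nat_lit 50235150, nat_lit 0, nat_lit 0, nat_lit 2812891, false, true⟩,
 nat_lit 5539, nat_lit 0, nat_lit 0, nat_lit 5302, nat_lit 3179, nat_lit 1846, nat_lit 0, nat_lit 0, nat_lit 0, nat_lit 0, nat_lit 0, nat_lit 0, nat_lit 0, nat_lit 0, nat_lit 34, nat_lit 376200, nat_lit 0, nat_lit 0, [(nat_lit 19, [(nat_lit 5, nat_lit 658), (nat_lit 6, nat_lit 113)])],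
 ⟨p077_k1, nat_lit 0, nat_lit 0, nat_lit 193, nat_lit 0, nat_lit 15844, [nat_lit 1656910001, nat_lit 900200600, nat_lit 2525200], [], [nat_lit 23087693757, nat_lit 21432140495, nat_lit 27393867100, nat_lit 28558014494, nat_lit 19497486645, nat_lit 20392451297, nat_lit 27909954236, nat_lit 26506915302], nat_lit 1271250, nat_lit 1271250, nat_lit 1100001, nat_lit 2812500, nat_lit 0, nat_lit 1100001, [nat_lit 490000, nat_lit 1427500, nat_lit 1271250], [nat_lit 102, nat_lit 40, nat_lit 40, nat_lit 80, nat_lit 2, nat_lit 373, nat_lit 150, nat_lit 12]⟩, ⟨p077_k2, nat_lit 0, nat_lit 0, nat_lit 206, nat_lit 0, nat_lit 50597, [nat_lit 1824672000, nat_lit 3219282000], [], [nat_lit 9217683388, nat_lit 8925582692, nat_lit 9451188496, nat_lit 9425293132, nat_lit 9912635987, nat_lit 9855721373, nat_lit 10493640453, nat_lit 10369116067], nat_lit 1100001, nat_lit 1442500, nat_lit 1271250, nat_lit 1271250, nat_lit 1271250, nat_lit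 1271250, [nat_lit 1695000, nat_lit 1271250], [nat_lit 121, nat_lit 40, nat_lit 40, nat_lit 80, nat_lit 28, nat_lit 483, nat_lit 250, nat_lit 11]⟩,
 ⟨nat_lit 3872, nat_lit 4473, ⟨.ofNat (nat_lit 388887), .ofNat (nat_lit 728778), .ofNat (nat_lit 432013), .ofNat (nat_lit 771911), .ofNat (nat_lit 391890), .ofNat (nat_lit 714498), .ofNat (nat_lit 435470), .ofNat (nat_lit 758085)⟩, ⟨.ofNat (nat_lit 0), .ofNat (nat_lit 302621), .ofNat (nat_lit 0), .ofNat (nat_lit 345754), .ofNat (nat_lit 0), .ofNat (nat_lit 304717), .ofNat (nat_lit 0), .ofNat (nat_lit 348304)⟩⟩, [⟨nat_lit 22, nat_lit 100, nat_lit 85, nat_lit 84, nat_lit 90120310⟩]⟩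
noncomputable def p077_l43 : Lf2 := ⟨nat_lit 1, nat_lit 19, [nat_lit 120, nat_lit 5, nat_lit 5, nat_lit 20], false, nat_lit 0, nat_lit 160, nat_lit 0, nat_lit 396, zbN0,
 nat_lit 0, nat_lit 0, nat_lit 0, nat_lit 0, nat_lit 0, nat_lit 0, nat_lit 0, nat_lit 0, nat_lit 0, nat_lit 0, nat_lit 0, nat_lit 0, nat_lit 0, nat_lit 0, nat_lit 0, nat_lit 0, nat_lit 0, nat_lit 0, [],
 C1.Rw.none, C1.Rw.none,
 zbF0, []⟩
noncomputable def p077_l44 : Lf2 := ⟨nat_lit 0, nat_lit 19, [nat_lit 120, nat_lit 5, nat_lit 5, nat_lit 20], true, nat_lit 0, nat_lit 160, nat_lit 0, nat_lit 396, ⟨nat_lit 0, nat_lit 190, nat_lit 810, nat_lit 4, nat_lit 191, nat_lit 1000, nat_lit 65, nat_lit 810, nat_lit 40017, nat_lit 264, nat_lit 4566, nat_lit 226, nat_lit 54538059, nat_lit 12461941, nat_lit 0, nat_lit 2401845, false, true⟩,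
 nat_lit 0, nat_lit 3930, nat_lit 0, nat_lit 148, nat_lit 3181, nat_lit 0, nat_lit 0, nat_lit 0, nat_lit 0, nat_lit 0, nat_lit 0, nat_lit 0, nat_lit 0, nat_lit 0, nat_lit 55, nat_lit 250000, nat_lit 0, nat_lit 0, [(nat_lit 22, [(nat_lit 0, nat_lit 190), (nat_lit 4, nat_lit 810)])],
 ⟨p077_k3, nat_lit 0, nat_lit 0, nat_lit 254, nat_lit 0, nat_lit 215199, [nat_lit 1945792000, nat_lit 5622858], [], [nat_lit 20340021678, nat_lit 21490329358, nat_lit 22423361032, nat_lit 23443772832, nat_lit 20536164280, nat_lit 21516014310, nat_lit 22458122888, nat_lit 23538082488], nat_lit 1271250, nat_lit 1271250, nat_lit 1100001, nat_lit 1785000, nat_lit 0, nat_lit 1100001, [nat_lit 490000, nat_lit 1740000], [nat_lit 110, nat_lit 40, nat_lit 40, nat_lit 80, nat_lit 109, nat_lit 317, nat_lit 100, nat_lit 10]⟩, C1.Rw.none,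
 ⟨nat_lit 3162, nat_lit 3873, ⟨.ofNat (nat_lit 391890), .ofNat (nat_lit 520934), .ofNat (nat_lit 435446), .ofNat (nat_lit 564520), .ofNat (nat_lit 394735), .ofNat (nat_lit 516642), .ofNat (nat_lit 439014), .ofNat (nat_lit 560952)⟩, ⟨.ofNat (nat_lit 0), .ofNat (nat_lit 304717), .ofNat (nat_lit 0), .ofNat (nat_lit 348304), .ofNat (nat_lit 0), .ofNat (nat_lit 306116), .ofNat (nat_lit 0), .ofNat (nat_lit 350426)⟩⟩, [⟨nat_lit 3, nat_lit 100, nat_lit 65, nat_lit 54, nat_lit 59879081⟩]⟩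
noncomputable def p077_l45 : Lf2 := ⟨nat_lit 0, nat_lit 19, [nat_lit 120, nat_lit 5, nat_lit 5, nat_lit 20], false, nat_lit 0, nat_lit 80, nat_lit 0, nat_lit 160, ⟨nat_lit 145, nat_lit 276, nat_lit 579, nat_lit 6, nat_lit 241, nat_lit 855, nat_lit 38, nat_lit 578, nat_lit 13067, nat_lit 243, nat_lit 111002, nat_lit 200, nat_lit 49181123, nat_lit 17818877, nat_lit 0, nat_lit 2895960, false, true⟩,
 nat_lit 5382, nat_lit 0, nat_lit 0, nat_lit 0, nat_lit 2703, nat_lit 1793, nat_lit 0, nat_lit 0, nat_lit 0, nat_lit 129, nat_lit 0, nat_lit 0, nat_lit 0, nat_lit 0, nat_lit 23, nat_lit 342000, nat_lit 0, nat_lit 0, [(nat_lit 22, [(nat_lit 1, nat_lit 276), (nat_lit 5, nat_lit 579)])],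
 ⟨p077_k4, nat_lit 0, nat_lit 0, nat_lit 245, nat_lit 0, nat_lit 144417, [nat_lit 1418662400, nat_lit 1009979201, nat_lit 38306000], [], [nat_lit 22918401005, nat_lit 23834144749, nat_lit 26062703591, nat_lit 26912053800, nat_lit 22307267383, nat_lit 23173273105, nat_lit 25430052259, nat_lit 26274638438], nat_lit 1271250, nat_lit 1271250, nat_lit 1271250, nat_lit 1271250, nat_lit 0, nat_lit 490000, [nat_lit 490000, nat_lit 1100000, nat_lit 1785000], [nat_lit 34, nat_lit 40, nat_lit 40, nat_lit 80, nat_lit 7, nat_lit 226, nat_lit 20, nat_lit 7]⟩, ⟨p077_k5, nat_lit 0, nat_lit 0, nat_lit 648, nat_lit 0, nat_lit 478112, [nat_lit 1155360000, nat_lit 1721440000, nat_lit 2378000000], [], [nat_lit 6703296788, nat_lit 6654821208, nat_lit 7000297723, nat_lit 6930944090, nat_lit 5180145792, nat_lit 5128146248, nat_lit 5397332952, nat_lit 5327281631], nat_lit 1100001, nat_lit 1271250, nat_lit 1271250, nat_lit 1271250, nat_lit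 0, nat_lit 1100001, [nat_lit 1695000, nat_lit 1271250, nat_lit 1271250], [nat_lit 97, nat_lit 40, nat_lit 40, nat_lit 80, nat_lit 76, nat_lit 401, nat_lit 175, nat_lit 9]⟩,
 ⟨nat_lit 3162, nat_lit 3873, ⟨.ofNat (nat_lit 520934), .ofNat (nat_lit 669333), .ofNat (nat_lit 542727), .ofNat (nat_lit 691126), .ofNat (nat_lit 516642), .ofNat (nat_lit 656835), .ofNat (nat_lit 538797), .ofNat (nat_lit 678990)⟩, ⟨.ofNat (nat_lit 0), .ofNat (nat_lit 175674), .ofNat (nat_lit 0), .ofNat (nat_lit 200000), .ofNat (nat_lit 0), .ofNat (nat_lit 184209), .ofNat (nat_lit 0), .ofNat (nat_lit 200000)⟩⟩, [⟨nat_lit 13, nat_lit 61, nat_lit 92, nat_lit 100, nat_lit 217702987⟩, ⟨nat_lit 3, nat_lit 100, nat_lit 76, nat_lit 37, nat_lit 101098220⟩]⟩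
noncomputable def p077_l46 : Lf2 := ⟨nat_lit 0, nat_lit 19, [nat_lit 120, nat_lit 5, nat_lit 5, nat_lit 20], false, nat_lit 0, nat_lit 80, nat_lit 0, nat_lit 160, ⟨nat_lit 260, nat_lit 740, nat_lit 0, nat_lit 6, nat_lit 253, nat_lit 740, nat_lit 38, nat_lit 0, nat_lit 0, nat_lit 0, nat_lit 0, nat_lit 0, nat_lit 47820297, nat_lit 19179703, nat_lit 0, nat_lit 2993862, true, true⟩,
 nat_lit 3858, nat_lit 0, nat_lit 3952, nat_lit 0, nat_lit 3122, nat_lit 2969, nat_lit 335, nat_lit 0, nat_lit 0, nat_lit 282, nat_lit 0, nat_lit 0, nat_lit 0, nat_lit 0, nat_lit 0, nat_lit 296000, nat_lit 0, nat_lit 0, [(nat_lit 22, [(nat_lit 1, nat_lit 740)])],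
 ⟨p077_k4, nat_lit 0, nat_lit 0, nat_lit 249, nat_lit 0, nat_lit 150356, [nat_lit 1533536001, nat_lit 2369432000, nat_lit 3103832000], [], [nat_lit 24184177072, nat_lit 25150220928, nat_lit 27856494625, nat_lit 28646194198, nat_lit 23293455644, nat_lit 24205540472, nat_lit 26836047526, nat_lit 27700488126], nat_lit 1271250, nat_lit 1271250, nat_lit 1271250, nat_lit 1271250, nat_lit 0, nat_lit 490000, [nat_lit 490000, nat_lit 1100000, nat_lit 1785000], [nat_lit 34, nat_lit 40, nat_lit 40, nat_lit 80, nat_lit 7, nat_lit 226, nat_lit 20, nat_lit 7]⟩, ⟨p077_k11, nat_lit 0, nat_lit 0, nat_lit 614, nat_lit 0, nat_lit 411521, [nat_lit 2071680000, nat_lit 3086720000, nat_lit 4264000000], [], [nat_lit 10962996564, nat_lit 10890056974, nat_lit 11560493246, nat_lit 11451926387, nat_lit 8651805286, nat_lit 8401308082, nat_lit 8927129631, nat_lit 8813311886], nat_lit 1271250, nat_lit 1271250, nat_lit 1271250, nat_lit 1271250,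 nat_lit 0, nat_lit 1100001, [nat_lit 1695000, nat_lit 1271250, nat_lit 1271250], [nat_lit 97, nat_lit 40, nat_lit 40, nat_lit 80, nat_lit 76, nat_lit 428, nat_lit 200, nat_lit 9]⟩,
 ⟨nat_lit 3162, nat_lit 3873, ⟨.ofNat (nat_lit 542727), .ofNat (nat_lit 710483), .ofNat (nat_lit 564520), .ofNat (nat_lit 732276), .ofNat (nat_lit 538797), .ofNat (nat_lit 697276), .ofNat (nat_lit 560952), .ofNat (nat_lit 719431)⟩, ⟨.ofNat (nat_lit 0), .ofNat (nat_lit 175674), .ofNat (nat_lit 0), .ofNat (nat_lit 200000), .ofNat (nat_lit 0), .ofNat (nat_lit 184209), .ofNat (nat_lit 0), .ofNat (nat_lit 200000)⟩⟩, [⟨nat_lit 13, nat_lit 60, nat_lit 86, nat_lit 100, nat_lit 85862369⟩, ⟨nat_lit 3, nat_lit 100, nat_lit 76, nat_lit 37, nat_lit 23685121⟩]⟩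
noncomputable def p077_l47 : Lf2 := ⟨nat_lit 0, nat_lit 19, [nat_lit 120, nat_lit 5, nat_lit 5, nat_lit 20], false, nat_lit 0, nat_lit 80, nat_lit 160, nat_lit 336, ⟨nat_lit 165, nat_lit 586, nat_lit 249, nat_lit 6, nat_lit 249, nat_lit 835, nat_lit 38, nat_lit 249, nat_lit 13067, nat_lit 243, nat_lit 193302, nat_lit 200, nat_lit 48295838, nat_lit 18704162, nat_lit 0, nat_lit 2960821, false, true⟩,
 nat_lit 6159, nat_lit 0, nat_lit 0, nat_lit 0, nat_lit 2943, nat_lit 2052, nat_lit 0, nat_lit 0, nat_lit 0, nat_lit 143, nat_lit 0, nat_lit 0, nat_lit 0, nat_lit 0, nat_lit 3, nat_lit 483400, nat_lit 0, nat_lit 0, [(nat_lit 22, [(nat_lit 1, nat_lit 586), (nat_lit 6, nat_lit 249)])],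
 ⟨p077_k4, nat_lit 0, nat_lit 0, nat_lit 249, nat_lit 0, nat_lit 150356, [nat_lit 1343745600, nat_lit 1143299600, nat_lit 17223200], [], [nat_lit 23563706124, nat_lit 24508261388, nat_lit 27181064878, nat_lit 28184087218, nat_lit 22792426742, nat_lit 23684826224, nat_lit 26236463532, nat_lit 26977072797], nat_lit 1271250, nat_lit 1271250, nat_lit 1271250, nat_lit 1271250, nat_lit 0, nat_lit 490000, [nat_lit 490000, nat_lit 1100000, nat_lit 1785000], [nat_lit 34, nat_lit 40, nat_lit 40, nat_lit 80, nat_lit 7, nat_lit 226, nat_lit 20, nat_lit 7]⟩, ⟨p077_k5, nat_lit 0, nat_lit 0, nat_lit 495, nat_lit 0, nat_lit 497773, [nat_lit 1314720000, nat_lit 1958880000, nat_lit 2706000000], [], [nat_lit 5521730586, nat_lit 5418877290, nat_lit 6003797961, nat_lit 5842081948, nat_lit 5783619108, nat_lit 5660603885, nat_lit 6270585918, nat_lit 6091063262], nat_lit 1100001, nat_lit 1442500, nat_lit 1271250, nat_lit 1271250, nat_lit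 1271250, nat_lit 1271250, [nat_lit 1695000, nat_lit 1271250, nat_lit 1271250], [nat_lit 97, nat_lit 40, nat_lit 40, nat_lit 80, nat_lit 76, nat_lit 456, nat_lit 225, nat_lit 9]⟩,
 ⟨nat_lit 3162, nat_lit 3873, ⟨.ofNat (nat_lit 520934), .ofNat (nat_lit 688690), .ofNat (nat_lit 564520), .ofNat (nat_lit 732276), .ofNat (nat_lit 516642), .ofNat (nat_lit 675121), .ofNat (nat_lit 560952), .ofNat (nat_lit 719431)⟩, ⟨.ofNat (nat_lit 0), .ofNat (nat_lit 175674), .ofNat (nat_lit 0), .ofNat (nat_lit 200000), .ofNat (nat_lit 0), .ofNat (nat_lit 184209), .ofNat (nat_lit 0), .ofNat (nat_lit 200000)⟩⟩, [⟨nat_lit 13, nat_lit 66, nat_lit 82, nat_lit 100, nat_lit 74850088⟩, ⟨nat_lit 22, nat_lit 90, nat_lit 100, nat_lit 61, nat_lit 81475717⟩]⟩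
noncomputable def p077_l48 : Lf2 := ⟨nat_lit 0, nat_lit 19, [nat_lit 120, nat_lit 5, nat_lit 5, nat_lit 20], true, nat_lit 80, nat_lit 160, nat_lit 0, nat_lit 384, ⟨nat_lit 0, nat_lit 863, nat_lit 137, nat_lit 6, nat_lit 249, nat_lit 1000, nat_lit 103, nat_lit 137, nat_lit 101400, nat_lit 293, nat_lit 193302, nat_lit 200, nat_lit 44486143, nat_lit 17978890, nat_lit 4534967, nat_lit 4280516, false, true⟩,
 nat_lit 0, nat_lit 3918, nat_lit 0, nat_lit 1312, nat_lit 3171, nat_lit 0, nat_lit 0, nat_lit 0, nat_lit 0, nat_lit 0, nat_lit 0, nat_lit 0, nat_lit 0, nat_lit 0, nat_lit 1, nat_lit 482200, nat_lit 0, nat_lit 0, [(nat_lit 22, [(nat_lit 1, nat_lit 863), (nat_lit 6, nat_lit 137)])],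
 ⟨p077_k4, nat_lit 0, nat_lit 0, nat_lit 185, nat_lit 0, nat_lit 215199, [nat_lit 1283980801, nat_lit 1033540800, nat_lit 37641600], [], [nat_lit 22252768175, nat_lit 23170241729, nat_lit 25760390608, nat_lit 26506453195, nat_lit 22881210523, nat_lit 23717306429, nat_lit 26087407035, nat_lit 26771086930], nat_lit 1271250, nat_lit 1271250, nat_lit 1271250, nat_lit 1271250, nat_lit 490000, nat_lit 1100001, [nat_lit 490000, nat_lit 1100000, nat_lit 1785000], [nat_lit 34, nat_lit 40, nat_lit 40, nat_lit 80, nat_lit 7, nat_lit 249, nat_lit 40, nat_lit 7]⟩, C1.Rw.none,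
 ⟨nat_lit 3162, nat_lit 3873, ⟨.ofNat (nat_lit 520934), .ofNat (nat_lit 688690), .ofNat (nat_lit 564520), .ofNat (nat_lit 732276), .ofNat (nat_lit 516642), .ofNat (nat_lit 675121), .ofNat (nat_lit 560952), .ofNat (nat_lit 719431)⟩, ⟨.ofNat (nat_lit 175674), .ofNat (nat_lit 304717), .ofNat (nat_lit 200000), .ofNat (nat_lit 348304), .ofNat (nat_lit 184209), .ofNat (nat_lit 306116), .ofNat (nat_lit 200000), .ofNat (nat_lit 350426)⟩⟩, [⟨nat_lit 13, nat_lit 66, nat_lit 82, nat_lit 100, nat_lit 209060989⟩]⟩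
noncomputable def p077_l49 : Lf2 := ⟨nat_lit 0, nat_lit 19, [nat_lit 120, nat_lit 5, nat_lit 5, nat_lit 20], true, nat_lit 160, nat_lit 300, nat_lit 0, nat_lit 396, ⟨nat_lit 0, nat_lit 0, nat_lit 1000, nat_lit 4, nat_lit 119, nat_lit 1000, nat_lit 176, nat_lit 1000, nat_lit 1169, nat_lit 218, nat_lit 132017, nat_lit 304, nat_lit 50295512, nat_lit 0, nat_lit 0, nat_lit 3860240, false, false⟩,
 nat_lit 0, nat_lit 4310, nat_lit 0, nat_lit 4156, nat_lit 3232, nat_lit 0, nat_lit 0, nat_lit 0, nat_lit 0, nat_lit 0, nat_lit 0, nat_lit 0, nat_lit 0, nat_lit 0, nat_lit 129, nat_lit 400000, nat_lit 0, nat_lit 0, [(nat_lit 19, [(nat_lit 5, nat_lit 1000)]), (nat_lit 22, [(nat_lit 5, nat_lit 1000)])],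
 ⟨p077_k0, nat_lit 0, nat_lit 0, nat_lit 296, nat_lit 0, nat_lit 238638, [nat_lit 2456800001, nat_lit 268000000], [], [nat_lit 18174724503, nat_lit 20293441200, nat_lit 18542818499, nat_lit 20924125028, nat_lit 23106811604, nat_lit 25873060295, nat_lit 26703920067, nat_lit 25295492388], nat_lit 1271250, nat_lit 1271250, nat_lit 88400, nat_lit 1100001, nat_lit 1100001, nat_lit 2298750, [nat_lit 490000, nat_lit 2052500], [nat_lit 94, nat_lit 40, nat_lit 40, nat_lit 80, nat_lit 95, nat_lit 345, nat_lit 125, nat_lit 10]⟩, C1.Rw.none,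
 ⟨nat_lit 3162, nat_lit 4473, ⟨.ofNat (nat_lit 143971), .ofNat (nat_lit 388887), .ofNat (nat_lit 186943), .ofNat (nat_lit 431944), .ofNat (nat_lit 175109), .ofNat (nat_lit 394735), .ofNat (nat_lit 219258), .ofNat (nat_lit 438969)⟩, ⟨.ofNat (nat_lit 302621), .ofNat (nat_lit 540545), .ofNat (nat_lit 345754), .ofNat (nat_lit 583678), .ofNat (nat_lit 306116), .ofNat (nat_lit 519453), .ofNat (nat_lit 350426), .ofNat (nat_lit 563762)⟩⟩, [⟨nat_lit 4, nat_lit 100, nat_lit 74, nat_lit 90, nat_lit 352396214⟩]⟩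
noncomputable def p077_l50 : Lf2 := ⟨nat_lit 0, nat_lit 19, [nat_lit 120, nat_lit 5, nat_lit 5, nat_lit 20], false, nat_lit 160, nat_lit 300, nat_lit 0, nat_lit 396, ⟨nat_lit 0, nat_lit 1000, nat_lit 0, nat_lit 4, nat_lit 231, nat_lit 1000, nat_lit 177, nat_lit 0, nat_lit 0, nat_lit 0, nat_lit 0, nat_lit 0, nat_lit 41706011, nat_lit 15316478, nat_lit 9977511, nat_lit 4931606, false, true⟩,
 nat_lit 0, nat_lit 4945, nat_lit 0, nat_lit 3769, nat_lit 3708, nat_lit 0, nat_lit 0, nat_lit 0, nat_lit 0, nat_lit 0, nat_lit 0, nat_lit 0, nat_lit 0, nat_lit 0, nat_lit 0, nat_lit 250000, nat_lit 0, nat_lit 0, [(nat_lit 19, [(nat_lit 0, nat_lit 1000)])],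
 ⟨p077_k6, nat_lit 0, nat_lit 0, nat_lit 71, nat_lit 0, nat_lit 17184, [nat_lit 1542400001, nat_lit 2368400000, nat_lit 3220880000], [], [nat_lit 18323399729, nat_lit 19687788241, nat_lit 26418234768, nat_lit 27367202984, nat_lit 23429597533, nat_lit 24504865328, nat_lit 29623272684, nat_lit 30363905228], nat_lit 1271250, nat_lit 1271250, nat_lit 1271250, nat_lit 1271250, nat_lit 1100001, nat_lit 2298750, [nat_lit 490000, nat_lit 1100000, nat_lit 2127500], [nat_lit 27, nat_lit 40, nat_lit 40, nat_lit 80, nat_lit 13, nat_lit 401, nat_lit 175, nat_lit 11]⟩, ⟨p077_k5, nat_lit 0, nat_lit 0, nat_lit 457, nat_lit 0, nat_lit 56528, [nat_lit 0, nat_lit 0, nat_lit 0], [], [nat_lit 0, nat_lit 0, nat_lit 0, nat_lit 0, nat_lit 0, nat_lit 0, nat_lit 0, nat_lit 0], nat_lit 1100001, nat_lit 1442500, nat_lit 1271250, nat_lit 1271250, nat_lit 0, nat_lit 2796750, [nat_lit 1695000, nat_lit 1271250, nat_lit 1271250], [nat_lit 97,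 nat_lit 40, nat_lit 40, nat_lit 80, nat_lit 76, nat_lit 483, nat_lit 250, nat_lit 10]⟩,
 ⟨nat_lit 3872, nat_lit 4473, ⟨.ofNat (nat_lit 388887), .ofNat (nat_lit 728778), .ofNat (nat_lit 432013), .ofNat (nat_lit 771911), .ofNat (nat_lit 391890), .ofNat (nat_lit 714498), .ofNat (nat_lit 435470), .ofNat (nat_lit 758085)⟩, ⟨.ofNat (nat_lit 302621), .ofNat (nat_lit 540545), .ofNat (nat_lit 345754), .ofNat (nat_lit 583678), .ofNat (nat_lit 304717), .ofNat (nat_lit 530543), .ofNat (nat_lit 348304), .ofNat (nat_lit 574129)⟩⟩, [⟨nat_lit 13, nat_lit 76, nat_lit 73, nat_lit 100, nat_lit 134875010⟩, ⟨nat_lit 4, nat_lit 100, nat_lit 81, nat_lit 92, nat_lit 112245667⟩]⟩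
noncomputable def p077_l51 : Lf2 := ⟨nat_lit 0, nat_lit 19, [nat_lit 120, nat_lit 5, nat_lit 5, nat_lit 20], true, nat_lit 160, nat_lit 276, nat_lit 0, nat_lit 396, ⟨nat_lit 0, nat_lit 317, nat_lit 683, nat_lit 4, nat_lit 191, nat_lit 1000, nat_lit 167, nat_lit 683, nat_lit 13749, nat_lit 240, nat_lit 4566, nat_lit 226, nat_lit 45485786, nat_lit 11882251, nat_lit 9631963, nat_lit 4559671, false, true⟩,
 nat_lit 0, nat_lit 3997, nat_lit 0, nat_lit 725, nat_lit 3235, nat_lit 0, nat_lit 0, nat_lit 0, nat_lit 0, nat_lit 0, nat_lit 0, nat_lit 0, nat_lit 0, nat_lit 0, nat_lit 32, nat_lit 258850, nat_lit 0, nat_lit 0, [(nat_lit 22, [(nat_lit 0, nat_lit 317), (nat_lit 4, nat_lit 624), (nat_lit 5, nat_lit 59)])],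
 ⟨p077_k4, nat_lit 0, nat_lit 0, nat_lit 146, nat_lit 0, nat_lit 215199, [nat_lit 1741148801, nat_lit 831828401, nat_lit 22217733], [], [nat_lit 19546702464, nat_lit 20662338034, nat_lit 21514518514, nat_lit 22494127794, nat_lit 22752001442, nat_lit 23666266348, nat_lit 24442067164, nat_lit 25446260839], nat_lit 1271250, nat_lit 1271250, nat_lit 1100001, nat_lit 1785000, nat_lit 1100001, nat_lit 2093250, [nat_lit 490000, nat_lit 1100000, nat_lit 1785000], [nat_lit 34, nat_lit 40, nat_lit 40, nat_lit 80, nat_lit 7, nat_lit 373, nat_lit 150, nat_lit 11]⟩, C1.Rw.none,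
 ⟨nat_lit 3162, nat_lit 3873, ⟨.ofNat (nat_lit 391890), .ofNat (nat_lit 520934), .ofNat (nat_lit 435446), .ofNat (nat_lit 564520), .ofNat (nat_lit 394735), .ofNat (nat_lit 516642), .ofNat (nat_lit 439014), .ofNat (nat_lit 560952)⟩, ⟨.ofNat (nat_lit 304717), .ofNat (nat_lit 491830), .ofNat (nat_lit 348304), .ofNat (nat_lit 535416), .ofNat (nat_lit 306116), .ofNat (nat_lit 482881), .ofNat (nat_lit 350426), .ofNat (nat_lit 527190)⟩⟩, [⟨nat_lit 4, nat_lit 100, nat_lit 67, nat_lit 88, nat_lit 237550448⟩]⟩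
noncomputable def p077_l52 : Lf2 := ⟨nat_lit 0, nat_lit 19, [nat_lit 120, nat_lit 5, nat_lit 5, nat_lit 20], true, nat_lit 160, nat_lit 240, nat_lit 0, nat_lit 396, ⟨nat_lit 0, nat_lit 1000, nat_lit 0, nat_lit 6, nat_lit 250, nat_lit 1000, nat_lit 156, nat_lit 0, nat_lit 0, nat_lit 0, nat_lit 0, nat_lit 0, nat_lit 41456848, nat_lit 17325307, nat_lit 8217845, nat_lit 4853874, false, true⟩,
 nat_lit 0, nat_lit 3955, nat_lit 0, nat_lit 2995, nat_lit 3201, nat_lit 0, nat_lit 132, nat_lit 0, nat_lit 0, nat_lit 0, nat_lit 0, nat_lit 0, nat_lit 0, nat_lit 0, nat_lit 0, nat_lit 400000, nat_lit 0, nat_lit 0, [(nat_lit 22, [(nat_lit 1, nat_lit 1000)])],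
 ⟨p077_k4, nat_lit 0, nat_lit 0, nat_lit 127, nat_lit 0, nat_lit 114694, [nat_lit 1358400001, nat_lit 1554800000, nat_lit 1406000000], [], [nat_lit 22434420869, nat_lit 22922184693, nat_lit 26130993982, nat_lit 26524734451, nat_lit 24125247051, nat_lit 24555671906, nat_lit 27384943088, nat_lit 27734856383], nat_lit 1271250, nat_lit 1271250, nat_lit 1271250, nat_lit 1271250, nat_lit 1100001, nat_lit 1785000, [nat_lit 490000, nat_lit 1100000, nat_lit 1785000], [nat_lit 34, nat_lit 40, nat_lit 40, nat_lit 80, nat_lit 7, nat_lit 272, nat_lit 60, nat_lit 7]⟩, C1.Rw.none,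
 ⟨nat_lit 3535, nat_lit 3873, ⟨.ofNat (nat_lit 520934), .ofNat (nat_lit 688690), .ofNat (nat_lit 564520), .ofNat (nat_lit 732276), .ofNat (nat_lit 518855), .ofNat (nat_lit 682034), .ofNat (nat_lit 562760), .ofNat (nat_lit 725940)⟩, ⟨.ofNat (nat_lit 304717), .ofNat (nat_lit 433760), .ofNat (nat_lit 348304), .ofNat (nat_lit 477347), .ofNat (nat_lit 305521), .ofNat (nat_lit 431044), .ofNat (nat_lit 349427), .ofNat (nat_lit 474949)⟩⟩, [⟨nat_lit 13, nat_lit 69, nat_lit 79, nat_lit 100, nat_lit 191484549⟩, ⟨nat_lit 4, nat_lit 100, nat_lit 71, nat_lit 89, nat_lit 94776727⟩]⟩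
noncomputable def p077_l53 : Lf2 := ⟨nat_lit 0, nat_lit 19, [nat_lit 120, nat_lit 5, nat_lit 5, nat_lit 20], false, nat_lit 160, nat_lit 240, nat_lit 0, nat_lit 396, ⟨nat_lit 0, nat_lit 1000, nat_lit 0, nat_lit 6, nat_lit 246, nat_lit 1000, nat_lit 156, nat_lit 0, nat_lit 0, nat_lit 0, nat_lit 0, nat_lit 0, nat_lit 41821214, nat_lit 16946592, nat_lit 8232194, nat_lit 4828801, false, true⟩,
 nat_lit 0, nat_lit 4161, nat_lit 0, nat_lit 1936, nat_lit 3495, nat_lit 0, nat_lit 206, nat_lit 0, nat_lit 0, nat_lit 0, nat_lit 0, nat_lit 0, nat_lit 0, nat_lit 0, nat_lit 0, nat_lit 250000, nat_lit 0, nat_lit 0, [(nat_lit 22, [(nat_lit 0, nat_lit 1000)])],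
 ⟨p077_k10, nat_lit 0, nat_lit 0, nat_lit 136, nat_lit 0, nat_lit 143627, [nat_lit 1568000001, nat_lit 1970800000, nat_lit 2712400000], [], [nat_lit 23161456291, nat_lit 23666867171, nat_lit 26528632101, nat_lit 26941787359, nat_lit 24779541726, nat_lit 25224035951, nat_lit 27734593030, nat_lit 28115144018], nat_lit 1271250, nat_lit 1271250, nat_lit 1271250, nat_lit 1271250, nat_lit 1100001, nat_lit 1785000, [nat_lit 490000, nat_lit 1100000, nat_lit 1785000], [nat_lit 34, nat_lit 40, nat_lit 40, nat_lit 80, nat_lit 7, nat_lit 272, nat_lit 60, nat_lit 7]⟩, ⟨p077_k5, nat_lit 0, nat_lit 0, nat_lit 656, nat_lit 0, nat_lit 497773, [nat_lit 0, nat_lit 0, nat_lit 0], [], [nat_lit 0, nat_lit 0, nat_lit 0, nat_lit 0, nat_lit 0, nat_lit 0, nat_lit 0, nat_lit 0], nat_lit 1100001, nat_lit 1442500, nat_lit 1271250, nat_lit 1271250, nat_lit 0, nat_lit 2796750, [nat_lit 1695000, nat_lit 1271250, nat_lit 1271250], [nat_lit 97,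 nat_lit 40, nat_lit 40, nat_lit 80, nat_lit 76, nat_lit 483, nat_lit 250, nat_lit 10]⟩,
 ⟨nat_lit 3162, nat_lit 3536, ⟨.ofNat (nat_lit 518855), .ofNat (nat_lit 669482), .ofNat (nat_lit 562760), .ofNat (nat_lit 713387), .ofNat (nat_lit 516642), .ofNat (nat_lit 662930), .ofNat (nat_lit 560952), .ofNat (nat_lit 707240)⟩, ⟨.ofNat (nat_lit 305521), .ofNat (nat_lit 431044), .ofNat (nat_lit 349427), .ofNat (nat_lit 474949), .ofNat (nat_lit 306116), .ofNat (nat_lit 428022), .ofNat (nat_lit 350426), .ofNat (nat_lit 472332)⟩⟩, [⟨nat_lit 13, nat_lit 64, nat_lit 84, nat_lit 100, nat_lit 215271525⟩, ⟨nat_lit 4, nat_lit 100, nat_lit 64, nat_lit 88, nat_lit 112771038⟩]⟩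
noncomputable def p077_l54 : Lf2 := ⟨nat_lit 0, nat_lit 19, [nat_lit 120, nat_lit 5, nat_lit 5, nat_lit 20], false, nat_lit 240, nat_lit 276, nat_lit 16, nat_lit 396, ⟨nat_lit 0, nat_lit 1000, nat_lit 0, nat_lit 6, nat_lit 249, nat_lit 1000, nat_lit 192, nat_lit 0, nat_lit 0, nat_lit 0, nat_lit 0, nat_lit 0, nat_lit 39359743, nat_lit 16631000, nat_lit 11009257, nat_lit 5151232, false, true⟩,
 nat_lit 0, nat_lit 3927, nat_lit 0, nat_lit 4255, nat_lit 3178, nat_lit 0, nat_lit 124, nat_lit 0, nat_lit 0, nat_lit 0, nat_lit 0, nat_lit 0, nat_lit 0, nat_lit 0, nat_lit 0, nat_lit 400000, nat_lit 0, nat_lit 0, [(nat_lit 22, [(nat_lit 1, nat_lit 1000)])],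
 ⟨p077_k4, nat_lit 0, nat_lit 0, nat_lit 130, nat_lit 0, nat_lit 150356, [nat_lit 1358400001, nat_lit 1554800000, nat_lit 1406000000], [], [nat_lit 24229906901, nat_lit 25088555281, nat_lit 27484591772, nat_lit 28183015592, nat_lit 25313983567, nat_lit 26117444213, nat_lit 28383541332, nat_lit 29262097619], nat_lit 1271250, nat_lit 1271250, nat_lit 1271250, nat_lit 1271250, nat_lit 1271250, nat_lit 1271250, [nat_lit 490000, nat_lit 1100000, nat_lit 1785000], [nat_lit 34, nat_lit 40, nat_lit 40, nat_lit 80, nat_lit 7, nat_lit 203, nat_lit 0, nat_lit 5]⟩, ⟨p077_k5, nat_lit 0, nat_lit 0, nat_lit 642, nat_lit 0, nat_lit 497773, [nat_lit 0, nat_lit 0, nat_lit 0], [], [nat_lit 0, nat_lit 0, nat_lit 0, nat_lit 0, nat_lit 0, nat_lit 0, nat_lit 0, nat_lit 0], nat_lit 1100001, nat_lit 1442500, nat_lit 1271250, nat_lit 1271250, nat_lit 88400, nat_lit 2829150, [nat_lit 1695000, nat_lit 1271250, nat_lit 1271250], [nat_lit 97,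 nat_lit 40, nat_lit 40, nat_lit 80, nat_lit 76, nat_lit 483, nat_lit 250, nat_lit 10]⟩,
 ⟨nat_lit 3162, nat_lit 3873, ⟨.ofNat (nat_lit 520934), .ofNat (nat_lit 688690), .ofNat (nat_lit 564520), .ofNat (nat_lit 732276), .ofNat (nat_lit 516642), .ofNat (nat_lit 675121), .ofNat (nat_lit 560952), .ofNat (nat_lit 719431)⟩, ⟨.ofNat (nat_lit 433760), .ofNat (nat_lit 491830), .ofNat (nat_lit 477347), .ofNat (nat_lit 535416), .ofNat (nat_lit 428022), .ofNat (nat_lit 482881), .ofNat (nat_lit 472332), .ofNat (nat_lit 527190)⟩⟩, [⟨nat_lit 13, nat_lit 66, nat_lit 82, nat_lit 100, nat_lit 208549923⟩, ⟨nat_lit 4, nat_lit 100, nat_lit 67, nat_lit 88, nat_lit 299217553⟩]⟩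
noncomputable def b_V_800_400_20_8 : St := ⟨true, nat_lit 1, nat_lit 1, nat_lit 1, nat_lit 120, nat_lit 320, nat_lit 360, nat_lit 160, nat_lit 200, nat_lit 16, nat_lit 360, nat_lit 80, nat_lit 120, nat_lit 0, nat_lit 300, nat_lit 0, nat_lit 396, nat_lit 40, nat_lit 76, nat_lit 0, nat_lit 0, nat_lit 0, nat_lit 0⟩
theorem d_V_800_400_20_8 (h : EB TB.env) : Dead b_V_800_400_20_8 := chkB_sound0 h (T :=
(.spl (nat_lit 4) (nat_lit 160)
(.spl (nat_lit 2) (nat_lit 160)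
(.leaf p077_l40)
(.spl (nat_lit 0) (nat_lit 340)
(.spl (nat_lit 6) (nat_lit 44)
(.spl (nat_lit 5) (nat_lit 160)
(.leaf p077_l41)
(.leaf p077_l42))
(.leaf p077_l43))
(.trX (nat_lit 13) (nat_lit 71) (nat_lit 70) (nat_lit 100) (nat_lit 344) (.spl (nat_lit 2) (nat_lit 240)
(.leaf p077_l44)
(.trX (nat_lit 22) (nat_lit 100) (nat_lit 40) (nat_lit 100) (nat_lit 384) (.spl (nat_lit 4) (nat_lit 80)
(.trX (nat_lit 22) (nat_lit 100) (nat_lit 76) (nat_lit 82) (nat_lit 336) (.spl (nat_lit 5) (nat_lit 160)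
(.spl (nat_lit 1) (nat_lit 180)
(.trX (nat_lit 13) (nat_lit 72) (nat_lit 77) (nat_lit 100) (nat_lit 332) (.leaf p077_l45))
(.leaf p077_l46))
(.leaf p077_l47)))
(.leaf p077_l48)))))))
(.spl (nat_lit 2) (nat_lit 160)
(.leaf p077_l49)
(.spl (nat_lit 0) (nat_lit 340)
(.leaf p077_l50)
(.trX (nat_lit 13) (nat_lit 71) (nat_lit 70) (nat_lit 100) (nat_lit 344) (.trX (nat_lit 16) (nat_lit 77) (nat_lit 100) (nat_lit 99) (nat_lit 276) (.spl (nat_lit 2) (nat_lit 240)
(.leaf p077_l51)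
(.spl (nat_lit 4) (nat_lit 240)
(.spl (nat_lit 0) (nat_lit 350)
(.leaf p077_l52)
(.trX (nat_lit 13) (nat_lit 66) (nat_lit 75) (nat_lit 100) (nat_lit 336) (.leaf p077_l53)))
(.trZ (nat_lit 9) (nat_lit 100) (nat_lit 100) (nat_lit 40) (nat_lit 16) (.leaf p077_l54)))))))))) (by decide +kernel)
noncomputable def p077_l55 : Lf2 := ⟨nat_lit 0, nat_lit 19, [nat_lit 120, nat_lit 5, nat_lit 5, nat_lit 20], true, nat_lit 0, nat_lit 160, nat_lit 0, nat_lit 396, ⟨nat_lit 0, nat_lit 1000, nat_lit 0, nat_lit 4, nat_lit 183, nat_lit 1000, nat_lit 65, nat_lit 0, nat_lit 0, nat_lit 0, nat_lit 0, nat_lit 0, nat_lit 0, nat_lit 0, nat_lit 0, nat_lit 5000000, false, true⟩,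
 nat_lit 0, nat_lit 6352, nat_lit 0, nat_lit 2826, nat_lit 4763, nat_lit 0, nat_lit 0, nat_lit 0, nat_lit 0, nat_lit 0, nat_lit 0, nat_lit 0, nat_lit 0, nat_lit 0, nat_lit 0, nat_lit 395800, nat_lit 0, nat_lit 0, [(nat_lit 19, [(nat_lit 0, nat_lit 28), (nat_lit 1, nat_lit 972)]), (nat_lit 22, [(nat_lit 0, nat_lit 28), (nat_lit 1, nat_lit 972)])],
 ⟨p077_k0, nat_lit 0, nat_lit 0, nat_lit 430, nat_lit 0, nat_lit 238638, [nat_lit 2017214401, nat_lit 1931031543], [], [nat_lit 34275230697, nat_lit 31879151398, nat_lit 31789023314, nat_lit 33984819936, nat_lit 27561977142, nat_lit 28976595921, nat_lit 36662480627, nat_lit 32707475947], nat_lit 1271250, nat_lit 1271250, nat_lit 88400, nat_lit 2569500, nat_lit 0, nat_lit 1100001, [nat_lit 490000, nat_lit 2052500], [nat_lit 94, nat_lit 40, nat_lit 40, nat_lit 80, nat_lit 95, nat_lit 373, nat_lit 150, nat_lit 11]⟩, C1.Rw.none,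
 ⟨nat_lit 3162, nat_lit 4473, ⟨.ofNat (nat_lit 143971), .ofNat (nat_lit 728778), .ofNat (nat_lit 186943), .ofNat (nat_lit 771911), .ofNat (nat_lit 175109), .ofNat (nat_lit 699502), .ofNat (nat_lit 219258), .ofNat (nat_lit 743812)⟩, ⟨.ofNat (nat_lit 0), .ofNat (nat_lit 302621), .ofNat (nat_lit 0), .ofNat (nat_lit 345754), .ofNat (nat_lit 0), .ofNat (nat_lit 306116), .ofNat (nat_lit 0), .ofNat (nat_lit 350426)⟩⟩, [⟨nat_lit 13, nat_lit 72, nat_lit 77, nat_lit 100, nat_lit 122893802⟩]⟩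
noncomputable def p077_l56 : Lf2 := ⟨nat_lit 0, nat_lit 19, [nat_lit 120, nat_lit 5, nat_lit 5, nat_lit 20], true, nat_lit 160, nat_lit 300, nat_lit 0, nat_lit 396, ⟨nat_lit 0, nat_lit 1000, nat_lit 0, nat_lit 4, nat_lit 183, nat_lit 1000, nat_lit 176, nat_lit 0, nat_lit 0, nat_lit 0, nat_lit 0, nat_lit 0, nat_lit 0, nat_lit 0, nat_lit 0, nat_lit 5000000, false, true⟩,
 nat_lit 0, nat_lit 4499, nat_lit 0, nat_lit 6283, nat_lit 3374, nat_lit 0, nat_lit 0, nat_lit 0, nat_lit 0, nat_lit 0, nat_lit 0, nat_lit 0, nat_lit 0, nat_lit 0, nat_lit 9, nat_lit 648400, nat_lit 0, nat_lit 0, [(nat_lit 19, [(nat_lit 1, nat_lit 586), (nat_lit 2, nat_lit 414)]), (nat_lit 22, [(nat_lit 1, nat_lit 586), (nat_lit 2, nat_lit 414)])],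
 ⟨p077_k6, nat_lit 0, nat_lit 0, nat_lit 302, nat_lit 0, nat_lit 238638, [nat_lit 1594554134, nat_lit 1773120000, nat_lit 20292800], [], [nat_lit 26865952685, nat_lit 23712993723, nat_lit 30981033912, nat_lit 28295105270, nat_lit 25538634645, nat_lit 27165992518, nat_lit 29592815264, nat_lit 30840218246], nat_lit 1271250, nat_lit 1271250, nat_lit 88400, nat_lit 2569500, nat_lit 1271250, nat_lit 1271250, [nat_lit 490000, nat_lit 1100000, nat_lit 2127500], [nat_lit 27, nat_lit 40, nat_lit 40, nat_lit 80, nat_lit 13, nat_lit 401, nat_lit 175, nat_lit 11]⟩, C1.Rw.none,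
 ⟨nat_lit 3162, nat_lit 4473, ⟨.ofNat (nat_lit 143971), .ofNat (nat_lit 728778), .ofNat (nat_lit 186943), .ofNat (nat_lit 771911), .ofNat (nat_lit 175109), .ofNat (nat_lit 699502), .ofNat (nat_lit 219258), .ofNat (nat_lit 743812)⟩, ⟨.ofNat (nat_lit 302621), .ofNat (nat_lit 540545), .ofNat (nat_lit 345754), .ofNat (nat_lit 583678), .ofNat (nat_lit 306116), .ofNat (nat_lit 519453), .ofNat (nat_lit 350426), .ofNat (nat_lit 563762)⟩⟩, [⟨nat_lit 13, nat_lit 72, nat_lit 77, nat_lit 100, nat_lit 154601720⟩, ⟨nat_lit 16, nat_lit 74, nat_lit 100, nat_lit 90, nat_lit 222183335⟩]⟩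
noncomputable def p077_l57 : Lf2 := ⟨nat_lit 0, nat_lit 19, [nat_lit 120, nat_lit 5, nat_lit 5, nat_lit 20], true, nat_lit 0, nat_lit 160, nat_lit 0, nat_lit 396, ⟨nat_lit 0, nat_lit 1000, nat_lit 0, nat_lit 4, nat_lit 183, nat_lit 1000, nat_lit 65, nat_lit 0, nat_lit 0, nat_lit 0, nat_lit 0, nat_lit 0, nat_lit 0, nat_lit 0, nat_lit 0, nat_lit 5000000, false, true⟩,
 nat_lit 0, nat_lit 6352, nat_lit 0, nat_lit 2826, nat_lit 4763, nat_lit 0, nat_lit 0, nat_lit 0, nat_lit 0, nat_lit 0, nat_lit 0, nat_lit 0, nat_lit 0, nat_lit 0, nat_lit 0, nat_lit 395800, nat_lit 0, nat_lit 0, [(nat_lit 19, [(nat_lit 0, nat_lit 28), (nat_lit 1, nat_lit 972)]), (nat_lit 22, [(nat_lit 0, nat_lit 28), (nat_lit 1, nat_lit 972)])],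
 ⟨p077_k0, nat_lit 0, nat_lit 0, nat_lit 430, nat_lit 0, nat_lit 238638, [nat_lit 2017214401, nat_lit 1931031543], [], [nat_lit 34275230697, nat_lit 31879151398, nat_lit 31789023314, nat_lit 33984819936, nat_lit 27561977142, nat_lit 28976595921, nat_lit 36662480627, nat_lit 32707475947], nat_lit 1271250, nat_lit 1271250, nat_lit 88400, nat_lit 2569500, nat_lit 0, nat_lit 1100001, [nat_lit 490000, nat_lit 2052500], [nat_lit 94, nat_lit 40, nat_lit 40, nat_lit 80, nat_lit 95, nat_lit 373, nat_lit 150, nat_lit 11]⟩, C1.Rw.none,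
 ⟨nat_lit 3162, nat_lit 4473, ⟨.ofNat (nat_lit 143971), .ofNat (nat_lit 728778), .ofNat (nat_lit 186943), .ofNat (nat_lit 771911), .ofNat (nat_lit 175109), .ofNat (nat_lit 699502), .ofNat (nat_lit 219258), .ofNat (nat_lit 743812)⟩, ⟨.ofNat (nat_lit 0), .ofNat (nat_lit 302621), .ofNat (nat_lit 0), .ofNat (nat_lit 345754), .ofNat (nat_lit 0), .ofNat (nat_lit 306116), .ofNat (nat_lit 0), .ofNat (nat_lit 350426)⟩⟩, [⟨nat_lit 13, nat_lit 72, nat_lit 77, nat_lit 100, nat_lit 122893802⟩]⟩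
noncomputable def p077_l58 : Lf2 := ⟨nat_lit 0, nat_lit 19, [nat_lit 120, nat_lit 5, nat_lit 5, nat_lit 20], false, nat_lit 160, nat_lit 300, nat_lit 0, nat_lit 396, ⟨nat_lit 0, nat_lit 1000, nat_lit 0, nat_lit 4, nat_lit 183, nat_lit 1000, nat_lit 176, nat_lit 0, nat_lit 0, nat_lit 0, nat_lit 0, nat_lit 0, nat_lit 0, nat_lit 0, nat_lit 0, nat_lit 5000000, false, true⟩,
 nat_lit 0, nat_lit 6977, nat_lit 0, nat_lit 11918, nat_lit 5232, nat_lit 0, nat_lit 0, nat_lit 0, nat_lit 0, nat_lit 0, nat_lit 0, nat_lit 0, nat_lit 0, nat_lit 0, nat_lit 0, nat_lit 368650, nat_lit 0, nat_lit 0, [(nat_lit 19, [(nat_lit 0, nat_lit 209), (nat_lit 1, nat_lit 791)]), (nat_lit 22, [(nat_lit 0, nat_lit 209), (nat_lit 1, nat_lit 791)])],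
 ⟨p077_k0, nat_lit 0, nat_lit 0, nat_lit 280, nat_lit 0, nat_lit 165437, [nat_lit 1947493201, nat_lit 2164873200], [], [nat_lit 31602136711, nat_lit 28031230151, nat_lit 28305902976, nat_lit 29917324192, nat_lit 29076048338, nat_lit 30701916527, nat_lit 39675026562, nat_lit 35304245154], nat_lit 1271250, nat_lit 1271250, nat_lit 88400, nat_lit 2569500, nat_lit 1100001, nat_lit 2298750, [nat_lit 490000, nat_lit 2052500], [nat_lit 94, nat_lit 40, nat_lit 40, nat_lit 80, nat_lit 95, nat_lit 401, nat_lit 175, nat_lit 11]⟩, ⟨p077_k13, nat_lit 0, nat_lit 0, nat_lit 815, nat_lit 0, nat_lit 497773, [nat_lit 0, nat_lit 0], [], [nat_lit 0, nat_lit 0, nat_lit 0, nat_lit 0, nat_lit 0, nat_lit 0, nat_lit 0, nat_lit 0], nat_lit 1100001, nat_lit 1442500, nat_lit 88400, nat_lit 2569500, nat_lit 0, nat_lit 2796750, [nat_lit 1695000, nat_lit 1271250], [nat_lit 159, nat_lit 40, nat_lit 40, nat_lit 80, nat_lit 111, nat_lit 483, nat_lit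 250, nat_lit 11]⟩,
 ⟨nat_lit 3162, nat_lit 4473, ⟨.ofNat (nat_lit 143971), .ofNat (nat_lit 728778), .ofNat (nat_lit 186943), .ofNat (nat_lit 771911), .ofNat (nat_lit 175109), .ofNat (nat_lit 699502), .ofNat (nat_lit 219258), .ofNat (nat_lit 743812)⟩, ⟨.ofNat (nat_lit 302621), .ofNat (nat_lit 540545), .ofNat (nat_lit 345754), .ofNat (nat_lit 583678), .ofNat (nat_lit 306116), .ofNat (nat_lit 519453), .ofNat (nat_lit 350426), .ofNat (nat_lit 563762)⟩⟩, [⟨nat_lit 13, nat_lit 72, nat_lit 77, nat_lit 100, nat_lit 118098484⟩, ⟨nat_lit 4, nat_lit 100, nat_lit 74, nat_lit 90, nat_lit 442216239⟩]⟩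
noncomputable def b_V_800_400_20_9 : St := ⟨true, nat_lit 1, nat_lit 2, nat_lit 2, nat_lit 120, nat_lit 320, nat_lit 360, nat_lit 160, nat_lit 200, nat_lit 16, nat_lit 360, nat_lit 80, nat_lit 120, nat_lit 0, nat_lit 300, nat_lit 0, nat_lit 396, nat_lit 40, nat_lit 76, nat_lit 0, nat_lit 0, nat_lit 0, nat_lit 0⟩
theorem d_V_800_400_20_9 (h : EB TB.env) : Dead b_V_800_400_20_9 := chkB_sound0 h (T :=
(.st (nat_lit 1)
(.spl (nat_lit 4) (nat_lit 160)
(.leaf p077_l55)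
(.leaf p077_l56))
(.spl (nat_lit 4) (nat_lit 160)
(.leaf p077_l57)
(.leaf p077_l58)))) (by decide +kernel)
noncomputable def p077_l59 : Lf2 := ⟨nat_lit 0, nat_lit 10, [nat_lit 0, nat_lit 5, nat_lit 5, nat_lit 20], true, nat_lit 0, nat_lit 260, nat_lit 0, nat_lit 360, ⟨nat_lit 0, nat_lit 0, nat_lit 1000, nat_lit 5, nat_lit 170, nat_lit 1000, nat_lit 89, nat_lit 1000, nat_lit 72600, nat_lit 281, nat_lit 817, nat_lit 208, nat_lit 56752254, nat_lit 0, nat_lit 0, nat_lit 2138971, false, false⟩,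
 nat_lit 0, nat_lit 0, nat_lit 0, nat_lit 0, nat_lit 3001, nat_lit 0, nat_lit 0, nat_lit 0, nat_lit 0, nat_lit 0, nat_lit 0, nat_lit 0, nat_lit 0, nat_lit 0, nat_lit 76, nat_lit 400000, nat_lit 0, nat_lit 0, [(nat_lit 18, [(nat_lit 5, nat_lit 1000)]), (nat_lit 21, [(nat_lit 5, nat_lit 1000)])],
 ⟨p077_k14, nat_lit 0, nat_lit 0, nat_lit 191, nat_lit 0, nat_lit 0, [nat_lit 1693000001, nat_lit 251500000], [], [nat_lit 16723972900, nat_lit 20842056256, nat_lit 19984536480, nat_lit 23086506308, nat_lit 19662173036, nat_lit 22582953211, nat_lit 22562291403, nat_lit 24676528160], nat_lit 0, nat_lit 0, nat_lit 0, nat_lit 0, nat_lit 0, nat_lit 0, [], [nat_lit 69, nat_lit 40, nat_lit 40, nat_lit 80, nat_lit 64, nat_lit 345, nat_lit 125, nat_lit 13]⟩, C1.Rw.none,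
 ⟨nat_lit 3162, nat_lit 4473, ⟨.ofNat (nat_lit 227776), .ofNat (nat_lit 567977), .ofNat (nat_lit 270729), .ofNat (nat_lit 611007), .ofNat (nat_lit 255876), .ofNat (nat_lit 560952), .ofNat (nat_lit 300005), .ofNat (nat_lit 605159)⟩, ⟨.negSucc (nat_lit 12437), .ofNat (nat_lit 429433), .ofNat (nat_lit 0), .ofNat (nat_lit 472567), .ofNat (nat_lit 0), .ofNat (nat_lit 414188), .ofNat (nat_lit 0), .ofNat (nat_lit 458499)⟩⟩, []⟩
noncomputable def p077_l60 : Lf2 := ⟨nat_lit 0, nat_lit 10, [nat_lit 0, nat_lit 5, nat_lit 5, nat_lit 20], false, nat_lit 0, nat_lit 260, nat_lit 0, nat_lit 360, ⟨nat_lit 1000, nat_lit 0, nat_lit 0, nat_lit 0, nat_lit 0, nat_lit 0, nat_lit 0, nat_lit 0, nat_lit 0, nat_lit 0, nat_lit 0, nat_lit 0, nat_lit 0, nat_lit 0, nat_lit 0, nat_lit 0, false, false⟩,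
 nat_lit 0, nat_lit 0, nat_lit 0, nat_lit 0, nat_lit 7621, nat_lit 11971, nat_lit 0, nat_lit 0, nat_lit 0, nat_lit 0, nat_lit 0, nat_lit 0, nat_lit 0, nat_lit 0, nat_lit 0, nat_lit 0, nat_lit 0, nat_lit 0, [],
 ⟨p077_k14, nat_lit 0, nat_lit 0, nat_lit 178, nat_lit 0, nat_lit 0, [nat_lit 2032000001, nat_lit 6250000000], [], [nat_lit 28932790988, nat_lit 32189329268, nat_lit 40763073846, nat_lit 44085729085, nat_lit 26447563895, nat_lit 28650075304, nat_lit 33536990133, nat_lit 35870685492], nat_lit 0, nat_lit 0, nat_lit 0, nat_lit 0, nat_lit 0, nat_lit 0, [], [nat_lit 69, nat_lit 40, nat_lit 40, nat_lit 80, nat_lit 64, nat_lit 289, nat_lit 75, nat_lit 10]⟩, ⟨p077_k15, nat_lit 0, nat_lit 0, nat_lit 235, nat_lit 0, nat_lit 0, [nat_lit 6250000000, nat_lit 11872000000], [], [nat_lit 33666545184, nat_lit 35737116556, nat_lit 48434562195, nat_lit 49050285927, nat_lit 33863089720, nat_lit 34259495230, nat_lit 40326756399,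 nat_lit 40607625762], nat_lit 0, nat_lit 0, nat_lit 0, nat_lit 0, nat_lit 0, nat_lit 0, [], [nat_lit 107, nat_lit 40, nat_lit 40, nat_lit 80, nat_lit 12, nat_lit 483, nat_lit 250, nat_lit 12]⟩,
 zbF0, [⟨nat_lit 16, nat_lit 71, nat_lit 100, nat_lit 71, nat_lit 25536309⟩, ⟨nat_lit 19, nat_lit 100, nat_lit 60, nat_lit 80, nat_lit 97489379⟩]⟩
noncomputable def p077_l61 : Lf2 := ⟨nat_lit 0, nat_lit 10, [nat_lit 0, nat_lit 5, nat_lit 5, nat_lit 20], true, nat_lit 0, nat_lit 260, nat_lit 0, nat_lit 360, ⟨nat_lit 0, nat_lit 0, nat_lit 1000, nat_lit 5, nat_lit 170, nat_lit 1000, nat_lit 89, nat_lit 1000, nat_lit 72600, nat_lit 281, nat_lit 817, nat_lit 208, nat_lit 56752254, nat_lit 0, nat_lit 0, nat_lit 2138971, false, false⟩,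
 nat_lit 0, nat_lit 0, nat_lit 0, nat_lit 0, nat_lit 3001, nat_lit 0, nat_lit 0, nat_lit 0, nat_lit 0, nat_lit 0, nat_lit 0, nat_lit 0, nat_lit 0, nat_lit 0, nat_lit 76, nat_lit 400000, nat_lit 0, nat_lit 0, [(nat_lit 18, [(nat_lit 5, nat_lit 1000)]), (nat_lit 21, [(nat_lit 5, nat_lit 1000)])],
 ⟨p077_k14, nat_lit 0, nat_lit 0, nat_lit 191, nat_lit 0, nat_lit 0, [nat_lit 1693000001, nat_lit 251500000], [], [nat_lit 16723972900, nat_lit 20842056256, nat_lit 19984536480, nat_lit 23086506308, nat_lit 19662173036, nat_lit 22582953211, nat_lit 22562291403, nat_lit 24676528160], nat_lit 0, nat_lit 0, nat_lit 0, nat_lit 0, nat_lit 0, nat_lit 0, [], [nat_lit 69, nat_lit 40, nat_lit 40, nat_lit 80, nat_lit 64, nat_lit 345, nat_lit 125, nat_lit 13]⟩, C1.Rw.none,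
 ⟨nat_lit 3162, nat_lit 4473, ⟨.ofNat (nat_lit 227776), .ofNat (nat_lit 567977), .ofNat (nat_lit 270729), .ofNat (nat_lit 611007), .ofNat (nat_lit 255876), .ofNat (nat_lit 560952), .ofNat (nat_lit 300005), .ofNat (nat_lit 605159)⟩, ⟨.negSucc (nat_lit 12437), .ofNat (nat_lit 429433), .ofNat (nat_lit 0), .ofNat (nat_lit 472567), .ofNat (nat_lit 0), .ofNat (nat_lit 414188), .ofNat (nat_lit 0), .ofNat (nat_lit 458499)⟩⟩, []⟩
noncomputable def p077_l62 : Lf2 := ⟨nat_lit 0, nat_lit 10, [nat_lit 0, nat_lit 5, nat_lit 5, nat_lit 20], true, nat_lit 0, nat_lit 160, nat_lit 0, nat_lit 360, ⟨nat_lit 0, nat_lit 1000, nat_lit 0, nat_lit 6, nat_lit 262, nat_lit 1000, nat_lit 56, nat_lit 0, nat_lit 0, nat_lit 0, nat_lit 0, nat_lit 0, nat_lit 46920867, nat_lit 20079133, nat_lit 0, nat_lit 3053000, true, true⟩,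
 nat_lit 0, nat_lit 0, nat_lit 0, nat_lit 0, nat_lit 3667, nat_lit 0, nat_lit 0, nat_lit 0, nat_lit 0, nat_lit 0, nat_lit 0, nat_lit 0, nat_lit 0, nat_lit 0, nat_lit 0, nat_lit 250000, nat_lit 0, nat_lit 0, [(nat_lit 18, [(nat_lit 0, nat_lit 1000)])],
 ⟨p077_k14, nat_lit 0, nat_lit 0, nat_lit 134, nat_lit 0, nat_lit 0, [nat_lit 1532800000, nat_lit 2562000000], [], [nat_lit 22909124768, nat_lit 24283459732, nat_lit 26836689608, nat_lit 27976629584, nat_lit 22406799952, nat_lit 23448879176, nat_lit 25468986720, nat_lit 26352316136], nat_lit 0, nat_lit 0, nat_lit 0, nat_lit 0, nat_lit 0, nat_lit 0, [], [nat_lit 69, nat_lit 40, nat_lit 40, nat_lit 80, nat_lit 64, nat_lit 249, nat_lit 40, nat_lit 9]⟩, C1.Rw.none,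
 ⟨nat_lit 3872, nat_lit 4473, ⟨.ofNat (nat_lit 567977), .ofNat (nat_lit 703933), .ofNat (nat_lit 611083), .ofNat (nat_lit 747053), .ofNat (nat_lit 564520), .ofNat (nat_lit 693563), .ofNat (nat_lit 608080), .ofNat (nat_lit 737137)⟩, ⟨.negSucc (nat_lit 12427), .ofNat (nat_lit 259489), .ofNat (nat_lit 0), .ofNat (nat_lit 302621), .ofNat (nat_lit 0), .ofNat (nat_lit 261131), .ofNat (nat_lit 0), .ofNat (nat_lit 304717)⟩⟩, []⟩
noncomputable def p077_l63 : Lf2 := ⟨nat_lit 0, nat_lit 10, [nat_lit 0, nat_lit 5, nat_lit 5, nat_lit 20], true, nat_lit 0, nat_lit 160, nat_lit 0, nat_lit 360, ⟨nat_lit 0, nat_lit 1000, nat_lit 0, nat_lit 6, nat_lit 259, nat_lit 1000, nat_lit 57, nat_lit 0, nat_lit 0, nat_lit 0, nat_lit 0, nat_lit 0, nat_lit 47210350, nat_lit 19789650, nat_lit 0, nat_lit 3034440, true, true⟩,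
 nat_lit 0, nat_lit 0, nat_lit 0, nat_lit 0, nat_lit 3399, nat_lit 0, nat_lit 0, nat_lit 0, nat_lit 0, nat_lit 0, nat_lit 0, nat_lit 0, nat_lit 0, nat_lit 0, nat_lit 0, nat_lit 400000, nat_lit 0, nat_lit 0, [(nat_lit 21, [(nat_lit 1, nat_lit 1000)])],
 ⟨p077_k16, nat_lit 0, nat_lit 0, nat_lit 140, nat_lit 0, nat_lit 0, [nat_lit 1355200000, nat_lit 1561600000], [], [nat_lit 23187331204, nat_lit 24512651112, nat_lit 26786284048, nat_lit 27919865100, nat_lit 22673357672, nat_lit 23682292800, nat_lit 25515454792, nat_lit 26374061744], nat_lit 0, nat_lit 0, nat_lit 0, nat_lit 0, nat_lit 0, nat_lit 0, [], [nat_lit 69, nat_lit 40, nat_lit 40, nat_lit 80, nat_lit 64, nat_lit 249, nat_lit 40, nat_lit 9]⟩, C1.Rw.none,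
 ⟨nat_lit 3162, nat_lit 3873, ⟨.ofNat (nat_lit 564520), .ofNat (nat_lit 693563), .ofNat (nat_lit 608082), .ofNat (nat_lit 737150), .ofNat (nat_lit 560952), .ofNat (nat_lit 682859), .ofNat (nat_lit 605237), .ofNat (nat_lit 727168)⟩, ⟨.ofNat (nat_lit 0), .ofNat (nat_lit 261131), .ofNat (nat_lit 0), .ofNat (nat_lit 304717), .ofNat (nat_lit 0), .ofNat (nat_lit 261806), .ofNat (nat_lit 0), .ofNat (nat_lit 306116)⟩⟩, []⟩
noncomputable def p077_l64 : Lf2 := ⟨nat_lit 0, nat_lit 10, [nat_lit 0, nat_lit 5, nat_lit 5, nat_lit 20], false, nat_lit 0, nat_lit 80, nat_lit 0, nat_lit 260, ⟨nat_lit 61, nat_lit 939, nat_lit 0, nat_lit 8, nat_lit 301, nat_lit 723, nat_lit 30, nat_lit 0, nat_lit 0, nat_lit 0, nat_lit 0, nat_lit 0, nat_lit 42770983, nat_lit 24229017, nat_lit 0, nat_lit 3271742, true, true⟩,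
 nat_lit 0, nat_lit 0, nat_lit 1531, nat_lit 0, nat_lit 3218, nat_lit 655, nat_lit 0, nat_lit 0, nat_lit 0, nat_lit 51, nat_lit 0, nat_lit 0, nat_lit 0, nat_lit 0, nat_lit 0, nat_lit 619800, nat_lit 0, nat_lit 0, [(nat_lit 18, [(nat_lit 1, nat_lit 532), (nat_lit 2, nat_lit 407)])],
 ⟨p077_k17, nat_lit 0, nat_lit 0, nat_lit 166, nat_lit 0, nat_lit 0, [nat_lit 1560418667, nat_lit 1757685334, nat_lit 1244013200], [], [nat_lit 26321820281, nat_lit 27211044645, nat_lit 28668553295, nat_lit 29454178191, nat_lit 25314004081, nat_lit 26155914145, nat_lit 27535908722, nat_lit 28282769995], nat_lit 0, nat_lit 0, nat_lit 0, nat_lit 0, nat_lit 0, nat_lit 0, [], [nat_lit 6, nat_lit 40, nat_lit 40, nat_lit 80, nat_lit 3, nat_lit 226, nat_lit 20, nat_lit 7]⟩, ⟨p077_k18, nat_lit 0, nat_lit 0, nat_lit 1217, nat_lit 0, nat_lit 2121789, [nat_lit 381250000, nat_lit 600362000, nat_lit 724192000], [], [nat_lit 2573490716, nat_lit 2558053582,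 nat_lit 2638205099, nat_lit 2628609245, nat_lit 1985703832, nat_lit 1965137910, nat_lit 2038852016, nat_lit 2028171920], nat_lit 1271250, nat_lit 1271250, nat_lit 1271250, nat_lit 1271250, nat_lit 0, nat_lit 1836250, [nat_lit 1412500, nat_lit 1271250, nat_lit 1271250], [nat_lit 46, nat_lit 40, nat_lit 40, nat_lit 80, nat_lit 41, nat_lit 411, nat_lit 125, nat_lit 10]⟩,
 ⟨nat_lit 3872, nat_lit 4473, ⟨.ofNat (nat_lit 703933), .ofNat (nat_lit 792305), .ofNat (nat_lit 725499), .ofNat (nat_lit 813871), .ofNat (nat_lit 693563), .ofNat (nat_lit 777441), .ofNat (nat_lit 715356), .ofNat (nat_lit 799235)⟩, ⟨.negSucc (nat_lit 12427), .ofNat (nat_lit 123532), .ofNat (nat_lit 0), .ofNat (nat_lit 166665), .ofNat (nat_lit 0), .ofNat (nat_lit 132088), .ofNat (nat_lit 0), .ofNat (nat_lit 175674)⟩⟩, [⟨nat_lit 13, nat_lit 76, nat_lit 61, nat_lit 100, nat_lit 199099074⟩]⟩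
noncomputable def p077_l65 : Lf2 := ⟨nat_lit 0, nat_lit 10, [nat_lit 0, nat_lit 5, nat_lit 5, nat_lit 20], false, nat_lit 0, nat_lit 80, nat_lit 0, nat_lit 260, ⟨nat_lit 85, nat_lit 915, nat_lit 0, nat_lit 8, nat_lit 314, nat_lit 766, nat_lit 30, nat_lit 0, nat_lit 0, nat_lit 0, nat_lit 0, nat_lit 0, nat_lit 41484320, nat_lit 25515680, nat_lit 0, nat_lit 3322346, true, true⟩,
 nat_lit 0, nat_lit 0, nat_lit 1540, nat_lit 0, nat_lit 3363, nat_lit 736, nat_lit 0, nat_lit 0, nat_lit 0, nat_lit 144, nat_lit 0, nat_lit 0, nat_lit 0, nat_lit 0, nat_lit 0, nat_lit 489600, nat_lit 0, nat_lit 0, [(nat_lit 18, [(nat_lit 1, nat_lit 709), (nat_lit 2, nat_lit 206)])],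
 ⟨p077_k17, nat_lit 0, nat_lit 0, nat_lit 170, nat_lit 0, nat_lit 0, [nat_lit 1514581067, nat_lit 2008185334, nat_lit 1830158000], [], [nat_lit 26916741181, nat_lit 27820552255, nat_lit 29881077969, nat_lit 30653454688, nat_lit 25810774481, nat_lit 26666060505, nat_lit 28616070913, nat_lit 29350751696], nat_lit 0, nat_lit 0, nat_lit 0, nat_lit 0, nat_lit 0, nat_lit 0, [], [nat_lit 6, nat_lit 40, nat_lit 40, nat_lit 80, nat_lit 3, nat_lit 226, nat_lit 20, nat_lit 7]⟩, ⟨p077_k19, nat_lit 0, nat_lit 0, nat_lit 1126, nat_lit 0, nat_lit 1928319, [nat_lit 531250000, nat_lit 836570000, nat_lit 1009120000], [], [nat_lit 3156410794, nat_lit 3137151636, nat_lit 3350152586, nat_lit 3352223767, nat_lit 2620984340, nat_lit 2598027062, nat_lit 2725706716, nat_lit 2729791552], nat_lit 1271250, nat_lit 1271250, nat_lit 1271250, nat_lit 1271250, nat_lit 0, nat_lit 1836250, [nat_lit 1412500, nat_lit 1271250, nat_lit 1271250], [nat_lit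 46, nat_lit 40, nat_lit 40, nat_lit 80, nat_lit 41, nat_lit 392, nat_lit 125, nat_lit 10]⟩,
 ⟨nat_lit 3872, nat_lit 4473, ⟨.ofNat (nat_lit 725499), .ofNat (nat_lit 834264), .ofNat (nat_lit 747053), .ofNat (nat_lit 855824), .ofNat (nat_lit 715356), .ofNat (nat_lit 818591), .ofNat (nat_lit 737137), .ofNat (nat_lit 840378)⟩, ⟨.negSucc (nat_lit 12427), .ofNat (nat_lit 123532), .ofNat (nat_lit 0), .ofNat (nat_lit 166665), .ofNat (nat_lit 0), .ofNat (nat_lit 132088), .ofNat (nat_lit 0), .ofNat (nat_lit 175674)⟩⟩, [⟨nat_lit 13, nat_lit 77, nat_lit 53, nat_lit 100, nat_lit 202066317⟩, ⟨nat_lit 22, nat_lit 69, nat_lit 100, nat_lit 52, nat_lit 10163307⟩]⟩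
noncomputable def p077_l66 : Lf2 := ⟨nat_lit 0, nat_lit 10, [nat_lit 0, nat_lit 5, nat_lit 5, nat_lit 20], true, nat_lit 0, nat_lit 80, nat_lit 0, nat_lit 260, ⟨nat_lit 0, nat_lit 1000, nat_lit 0, nat_lit 8, nat_lit 299, nat_lit 730, nat_lit 32, nat_lit 0, nat_lit 0, nat_lit 0, nat_lit 0, nat_lit 0, nat_lit 42969487, nat_lit 24030513, nat_lit 0, nat_lit 3263228, true, true⟩,
 nat_lit 0, nat_lit 0, nat_lit 0, nat_lit 0, nat_lit 2673, nat_lit 0, nat_lit 135, nat_lit 0, nat_lit 0, nat_lit 0, nat_lit 0, nat_lit 0, nat_lit 0, nat_lit 0, nat_lit 0, nat_lit 505000, nat_lit 0, nat_lit 0, [(nat_lit 21, [(nat_lit 1, nat_lit 825), (nat_lit 2, nat_lit 175)])],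
 ⟨p077_k20, nat_lit 0, nat_lit 0, nat_lit 170, nat_lit 0, nat_lit 0, [nat_lit 1363250001, nat_lit 1206290001, nat_lit 1032660000], [], [nat_lit 25825563836, nat_lit 26659962290, nat_lit 27764045939, nat_lit 28824104069, nat_lit 25143894586, nat_lit 25935529490, nat_lit 26995174023, nat_lit 27747473103], nat_lit 0, nat_lit 0, nat_lit 0, nat_lit 0, nat_lit 0, nat_lit 0, [], [nat_lit 6, nat_lit 40, nat_lit 40, nat_lit 80, nat_lit 3, nat_lit 226, nat_lit 20, nat_lit 7]⟩, C1.Rw.none,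
 ⟨nat_lit 3162, nat_lit 3873, ⟨.ofNat (nat_lit 693563), .ofNat (nat_lit 770989), .ofNat (nat_lit 737150), .ofNat (nat_lit 814576), .ofNat (nat_lit 682859), .ofNat (nat_lit 756003), .ofNat (nat_lit 727168), .ofNat (nat_lit 800312)⟩, ⟨.ofNat (nat_lit 0), .ofNat (nat_lit 132088), .ofNat (nat_lit 0), .ofNat (nat_lit 175674), .ofNat (nat_lit 0), .ofNat (nat_lit 139899), .ofNat (nat_lit 0), .ofNat (nat_lit 184209)⟩⟩, [⟨nat_lit 13, nat_lit 73, nat_lit 55, nat_lit 100, nat_lit 212820788⟩]⟩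
noncomputable def p077_l67 : Lf2 := ⟨nat_lit 0, nat_lit 10, [nat_lit 0, nat_lit 5, nat_lit 5, nat_lit 20], true, nat_lit 80, nat_lit 160, nat_lit 0, nat_lit 336, ⟨nat_lit 0, nat_lit 1000, nat_lit 0, nat_lit 8, nat_lit 307, nat_lit 1000, nat_lit 87, nat_lit 0, nat_lit 0, nat_lit 0, nat_lit 0, nat_lit 0, nat_lit 39878297, nat_lit 23842216, nat_lit 3279487, nat_lit 4332645, true, true⟩,
 nat_lit 0, nat_lit 0, nat_lit 0, nat_lit 2213, nat_lit 3716, nat_lit 0, nat_lit 0, nat_lit 0, nat_lit 0, nat_lit 0, nat_lit 0, nat_lit 0, nat_lit 0, nat_lit 0, nat_lit 0, nat_lit 250000, nat_lit 0, nat_lit 0, [(nat_lit 18, [(nat_lit 0, nat_lit 1000)]), (nat_lit 21, [(nat_lit 0, nat_lit 1000)])],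
 ⟨p077_k14, nat_lit 0, nat_lit 0, nat_lit 117, nat_lit 0, nat_lit 0, [nat_lit 1558400000, nat_lit 2562000000], [], [nat_lit 24962091328, nat_lit 27064199552, nat_lit 28460976464, nat_lit 30293299584, nat_lit 25420822560, nat_lit 27207001760, nat_lit 28479418861, nat_lit 30154085732], nat_lit 0, nat_lit 0, nat_lit 0, nat_lit 0, nat_lit 0, nat_lit 0, [], [nat_lit 69, nat_lit 40, nat_lit 40, nat_lit 80, nat_lit 64, nat_lit 249, nat_lit 40, nat_lit 8]⟩, C1.Rw.none,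
 ⟨nat_lit 3162, nat_lit 4473, ⟨.ofNat (nat_lit 703933), .ofNat (nat_lit 812698), .ofNat (nat_lit 747055), .ofNat (nat_lit 855831), .ofNat (nat_lit 682859), .ofNat (nat_lit 780384), .ofNat (nat_lit 727157), .ofNat (nat_lit 824694)⟩, ⟨.ofNat (nat_lit 123532), .ofNat (nat_lit 259488), .ofNat (nat_lit 166665), .ofNat (nat_lit 302621), .ofNat (nat_lit 139899), .ofNat (nat_lit 261805), .ofNat (nat_lit 184209), .ofNat (nat_lit 306116)⟩⟩, [⟨nat_lit 13, nat_lit 82, nat_lit 44, nat_lit 100, nat_lit 246104310⟩]⟩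
noncomputable def p077_l68 : Lf2 := ⟨nat_lit 0, nat_lit 10, [nat_lit 0, nat_lit 5, nat_lit 5, nat_lit 20], true, nat_lit 160, nat_lit 260, nat_lit 0, nat_lit 360, ⟨nat_lit 0, nat_lit 1000, nat_lit 0, nat_lit 6, nat_lit 260, nat_lit 1000, nat_lit 145, nat_lit 0, nat_lit 0, nat_lit 0, nat_lit 0, nat_lit 0, nat_lit 41216197, nat_lit 18473236, nat_lit 7310567, nat_lit 4798833, true, true⟩,
 nat_lit 0, nat_lit 0, nat_lit 0, nat_lit 1080, nat_lit 4693, nat_lit 0, nat_lit 0, nat_lit 0, nat_lit 0, nat_lit 0, nat_lit 0, nat_lit 0, nat_lit 0, nat_lit 0, nat_lit 0, nat_lit 250000, nat_lit 0, nat_lit 0, [(nat_lit 18, [(nat_lit 0, nat_lit 1000)]), (nat_lit 21, [(nat_lit 0, nat_lit 1000)])],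
 ⟨p077_k14, nat_lit 0, nat_lit 0, nat_lit 47, nat_lit 0, nat_lit 0, [nat_lit 1558400000, nat_lit 2562000000], [], [nat_lit 20903605908, nat_lit 23553142484, nat_lit 24624514660, nat_lit 26858486692, nat_lit 23757924273, nat_lit 25954858417, nat_lit 26794465979, nat_lit 29058527071], nat_lit 0, nat_lit 0, nat_lit 0, nat_lit 0, nat_lit 0, nat_lit 0, [], [nat_lit 69, nat_lit 40, nat_lit 40, nat_lit 80, nat_lit 64, nat_lit 289, nat_lit 75, nat_lit 9]⟩, C1.Rw.none,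
 ⟨nat_lit 3162, nat_lit 4473, ⟨.ofNat (nat_lit 567977), .ofNat (nat_lit 703933), .ofNat (nat_lit 611007), .ofNat (nat_lit 747055), .ofNat (nat_lit 560952), .ofNat (nat_lit 682859), .ofNat (nat_lit 605159), .ofNat (nat_lit 727157)⟩, ⟨.ofNat (nat_lit 259488), .ofNat (nat_lit 429433), .ofNat (nat_lit 302621), .ofNat (nat_lit 472567), .ofNat (nat_lit 261805), .ofNat (nat_lit 414188), .ofNat (nat_lit 306116), .ofNat (nat_lit 458499)⟩⟩, [⟨nat_lit 16, nat_lit 83, nat_lit 100, nat_lit 83, nat_lit 145129645⟩]⟩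
noncomputable def p077_l69 : Lf2 := ⟨nat_lit 0, nat_lit 10, [nat_lit 0, nat_lit 5, nat_lit 5, nat_lit 20], true, nat_lit 160, nat_lit 260, nat_lit 16, nat_lit 360, ⟨nat_lit 0, nat_lit 1000, nat_lit 0, nat_lit 8, nat_lit 299, nat_lit 1000, nat_lit 145, nat_lit 0, nat_lit 0, nat_lit 0, nat_lit 0, nat_lit 0, nat_lit 38042240, nat_lit 22022328, nat_lit 6935432, nat_lit 4932294, true, true⟩,
 nat_lit 0, nat_lit 0, nat_lit 0, nat_lit 823, nat_lit 4374, nat_lit 0, nat_lit 0, nat_lit 0, nat_lit 0, nat_lit 0, nat_lit 0, nat_lit 0, nat_lit 0, nat_lit 0, nat_lit 0, nat_lit 250000, nat_lit 0, nat_lit 0, [(nat_lit 18, [(nat_lit 0, nat_lit 1000)]), (nat_lit 21, [(nat_lit 0, nat_lit 1000)])],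
 ⟨p077_k14, nat_lit 0, nat_lit 0, nat_lit 75, nat_lit 0, nat_lit 0, [nat_lit 1558400000, nat_lit 2562000000], [], [nat_lit 24820501880, nat_lit 26946012640, nat_lit 26946012640, nat_lit 28911614344, nat_lit 27001081322, nat_lit 28780658570, nat_lit 28780658570, nat_lit 30739364626], nat_lit 0, nat_lit 0, nat_lit 0, nat_lit 0, nat_lit 0, nat_lit 0, [], [nat_lit 69, nat_lit 40, nat_lit 40, nat_lit 80, nat_lit 64, nat_lit 289, nat_lit 75, nat_lit 9]⟩, C1.Rw.none,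
 ⟨nat_lit 3162, nat_lit 4473, ⟨.ofNat (nat_lit 703933), .ofNat (nat_lit 771911), .ofNat (nat_lit 747055), .ofNat (nat_lit 815044), .ofNat (nat_lit 682859), .ofNat (nat_lit 743812), .ofNat (nat_lit 727157), .ofNat (nat_lit 788122)⟩, ⟨.ofNat (nat_lit 259488), .ofNat (nat_lit 429433), .ofNat (nat_lit 302621), .ofNat (nat_lit 472567), .ofNat (nat_lit 261805), .ofNat (nat_lit 414188), .ofNat (nat_lit 306116), .ofNat (nat_lit 458499)⟩⟩, [⟨nat_lit 16, nat_lit 83, nat_lit 100, nat_lit 83, nat_lit 128038626⟩]⟩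
noncomputable def p077_l70 : Lf2 := ⟨nat_lit 0, nat_lit 10, [nat_lit 0, nat_lit 5, nat_lit 5, nat_lit 20], true, nat_lit 160, nat_lit 260, nat_lit 48, nat_lit 360, ⟨nat_lit 0, nat_lit 1000, nat_lit 0, nat_lit 9, nat_lit 320, nat_lit 1000, nat_lit 145, nat_lit 0, nat_lit 0, nat_lit 0, nat_lit 0, nat_lit 0, nat_lit 36410198, nat_lit 23866214, nat_lit 6723588, nat_lit 4971108, true, true⟩,
 nat_lit 0, nat_lit 0, nat_lit 0, nat_lit 2534, nat_lit 4187, nat_lit 0, nat_lit 0, nat_lit 0, nat_lit 0, nat_lit 0, nat_lit 0, nat_lit 0, nat_lit 0, nat_lit 0, nat_lit 0, nat_lit 250000, nat_lit 0, nat_lit 0, [(nat_lit 18, [(nat_lit 0, nat_lit 1000)]), (nat_lit 21, [(nat_lit 0, nat_lit 1000)])],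
 ⟨p077_k14, nat_lit 0, nat_lit 0, nat_lit 90, nat_lit 0, nat_lit 0, [nat_lit 1558400000, nat_lit 2562000000], [], [nat_lit 27020184320, nat_lit 28894243764, nat_lit 28363208466, nat_lit 30181088461, nat_lit 28871997785, nat_lit 30542173313, nat_lit 30010375942, nat_lit 31799392096], nat_lit 0, nat_lit 0, nat_lit 0, nat_lit 0, nat_lit 0, nat_lit 0, [], [nat_lit 69, nat_lit 40, nat_lit 40, nat_lit 80, nat_lit 64, nat_lit 289, nat_lit 75, nat_lit 9]⟩, C1.Rw.none,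
 ⟨nat_lit 3162, nat_lit 4473, ⟨.ofNat (nat_lit 771911), .ofNat (nat_lit 812698), .ofNat (nat_lit 815044), .ofNat (nat_lit 855831), .ofNat (nat_lit 743812), .ofNat (nat_lit 780384), .ofNat (nat_lit 788122), .ofNat (nat_lit 824694)⟩, ⟨.ofNat (nat_lit 259488), .ofNat (nat_lit 429433), .ofNat (nat_lit 302621), .ofNat (nat_lit 472567), .ofNat (nat_lit 261805), .ofNat (nat_lit 414188), .ofNat (nat_lit 306116), .ofNat (nat_lit 458499)⟩⟩, [⟨nat_lit 13, nat_lit 82, nat_lit 44, nat_lit 100, nat_lit 246276478⟩, ⟨nat_lit 16, nat_lit 83, nat_lit 100, nat_lit 83, nat_lit 118520211⟩]⟩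
noncomputable def p077_l71 : Lf2 := ⟨nat_lit 0, nat_lit 10, [nat_lit 0, nat_lit 5, nat_lit 5, nat_lit 20], true, nat_lit 0, nat_lit 260, nat_lit 0, nat_lit 360, ⟨nat_lit 0, nat_lit 1000, nat_lit 0, nat_lit 5, nat_lit 216, nat_lit 1000, nat_lit 89, nat_lit 0, nat_lit 0, nat_lit 0, nat_lit 0, nat_lit 0, nat_lit 0, nat_lit 0, nat_lit 0, nat_lit 5000000, false, true⟩,
 nat_lit 0, nat_lit 0, nat_lit 0, nat_lit 2182, nat_lit 4349, nat_lit 0, nat_lit 0, nat_lit 0, nat_lit 0, nat_lit 0, nat_lit 0, nat_lit 0, nat_lit 0, nat_lit 0, nat_lit 0, nat_lit 250000, nat_lit 0, nat_lit 0, [(nat_lit 18, [(nat_lit 0, nat_lit 1000)]), (nat_lit 21, [(nat_lit 0, nat_lit 1000)])],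
 ⟨p077_k14, nat_lit 0, nat_lit 0, nat_lit 191, nat_lit 0, nat_lit 0, [nat_lit 1558400000, nat_lit 2562000000], [], [nat_lit 22245655524, nat_lit 25432631236, nat_lit 32141309347, nat_lit 34606731996, nat_lit 24081017415, nat_lit 26319152207, nat_lit 30177672964, nat_lit 31991456607], nat_lit 0, nat_lit 0, nat_lit 0, nat_lit 0, nat_lit 0, nat_lit 0, [], [nat_lit 69, nat_lit 40, nat_lit 40, nat_lit 80, nat_lit 64, nat_lit 401, nat_lit 175, nat_lit 16]⟩, C1.Rw.none,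
 ⟨nat_lit 3162, nat_lit 4473, ⟨.ofNat (nat_lit 227776), .ofNat (nat_lit 812698), .ofNat (nat_lit 270729), .ofNat (nat_lit 855831), .ofNat (nat_lit 255876), .ofNat (nat_lit 780384), .ofNat (nat_lit 300005), .ofNat (nat_lit 824694)⟩, ⟨.negSucc (nat_lit 12437), .ofNat (nat_lit 429433), .ofNat (nat_lit 0), .ofNat (nat_lit 472567), .ofNat (nat_lit 0), .ofNat (nat_lit 414188), .ofNat (nat_lit 0), .ofNat (nat_lit 458499)⟩⟩, [⟨nat_lit 13, nat_lit 82, nat_lit 44, nat_lit 100, nat_lit 163885838⟩, ⟨nat_lit 16, nat_lit 83, nat_lit 100, nat_lit 83, nat_lit 20511447⟩]⟩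
noncomputable def b_V_800_500_10_0 : St := ⟨true, nat_lit 0, nat_lit 2, nat_lit 0, nat_lit 80, nat_lit 320, nat_lit 360, nat_lit 200, nat_lit 240, nat_lit 40, nat_lit 384, nat_lit 40, nat_lit 80, nat_lit 0, nat_lit 260, nat_lit 0, nat_lit 360, nat_lit 0, nat_lit 40, nat_lit 0, nat_lit 0, nat_lit 0, nat_lit 0⟩
theorem d_V_800_500_10_0 (h : EB TB.env) : Dead b_V_800_500_10_0 := chkB_sound0 h (T :=
(.gv
(.st (nat_lit 1)
(.spl (nat_lit 2) (nat_lit 240)
(.leaf p077_l59)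
(.leaf p077_l60))
(.spl (nat_lit 2) (nat_lit 240)
(.leaf p077_l61)
(.spl (nat_lit 4) (nat_lit 160)
(.spl (nat_lit 2) (nat_lit 320)
(.spl (nat_lit 0) (nat_lit 340)
(.leaf p077_l62)
(.leaf p077_l63))
(.trX (nat_lit 22) (nat_lit 82) (nat_lit 76) (nat_lit 100) (nat_lit 336) (.spl (nat_lit 4) (nat_lit 80)
(.trX (nat_lit 22) (nat_lit 83) (nat_lit 100) (nat_lit 83) (nat_lit 260) (.spl (nat_lit 0) (nat_lit 340)
(.spl (nat_lit 1) (nat_lit 220)
(.trX (nat_lit 13) (nat_lit 80) (nat_lit 52) (nat_lit 100) (nat_lit 372) (.leaf p077_l64))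
(.leaf p077_l65))
(.trX (nat_lit 13) (nat_lit 73) (nat_lit 55) (nat_lit 100) (nat_lit 368) (.leaf p077_l66))))
(.leaf p077_l67))))
(.spl (nat_lit 2) (nat_lit 320)
(.leaf p077_l68)
(.trZ (nat_lit 9) (nat_lit 100) (nat_lit 82) (nat_lit 44) (nat_lit 16) (.spl (nat_lit 2) (nat_lit 360)
(.leaf p077_l69)
(.trZ (nat_lit 9) (nat_lit 100) (nat_lit 61) (nat_lit 68) (nat_lit 48) (.leaf p077_l70))))))))
(.leaf p077_l71))) (by decide +kernel)
noncomputable def p077_l72 : Lf2 := ⟨nat_lit 0, nat_lit 10, [nat_lit 0, nat_lit 5, nat_lit 5, nat_lit 20], true, nat_lit 0, nat_lit 160, nat_lit 0, nat_lit 360, ⟨nat_lit 0, nat_lit 0, nat_lit 1000, nat_lit 5, nat_lit 116, nat_lit 1000, nat_lit 56, nat_lit 1000, nat_lit 29400, nat_lit 257, nat_lit 126150, nat_lit 302, nat_lit 61810354, nat_lit 0, nat_lit 0, nat_lit 1362571, false, false⟩,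
 nat_lit 0, nat_lit 4115, nat_lit 0, nat_lit 0, nat_lit 3086, nat_lit 0, nat_lit 0, nat_lit 0, nat_lit 0, nat_lit 0, nat_lit 0, nat_lit 0, nat_lit 0, nat_lit 0, nat_lit 76, nat_lit 400000, nat_lit 0, nat_lit 0, [(nat_lit 18, [(nat_lit 5, nat_lit 1000)])],
 ⟨p077_k14, nat_lit 0, nat_lit 0, nat_lit 366, nat_lit 0, nat_lit 527432, [nat_lit 1693000001, nat_lit 251500000], [], [nat_lit 16905949400, nat_lit 18995733708, nat_lit 16801830989, nat_lit 18153232960, nat_lit 17652321997, nat_lit 18821384122, nat_lit 17793944990, nat_lit 18968784706], nat_lit 1271250, nat_lit 1271250, nat_lit 230001, nat_lit 490000, nat_lit 0, nat_lit 1100001, [nat_lit 490000, nat_lit 1427500], [nat_lit 69, nat_lit 40, nat_lit 40, nat_lit 80, nat_lit 64, nat_lit 272, nat_lit 60, nat_lit 11]⟩, C1.Rw.none,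
 ⟨nat_lit 3872, nat_lit 4473, ⟨.ofNat (nat_lit 228056), .ofNat (nat_lit 296041), .ofNat (nat_lit 271153), .ofNat (nat_lit 339140), .ofNat (nat_lit 241882), .ofNat (nat_lit 306411), .ofNat (nat_lit 285433), .ofNat (nat_lit 349963)⟩, ⟨.negSucc (nat_lit 12427), .ofNat (nat_lit 259489), .ofNat (nat_lit 0), .ofNat (nat_lit 302621), .ofNat (nat_lit 0), .ofNat (nat_lit 261131), .ofNat (nat_lit 0), .ofNat (nat_lit 304717)⟩⟩, [⟨nat_lit 0, nat_lit 100, nat_lit 73, nat_lit 85, nat_lit 252277899⟩]⟩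
noncomputable def p077_l73 : Lf2 := ⟨nat_lit 0, nat_lit 10, [nat_lit 0, nat_lit 5, nat_lit 5, nat_lit 20], false, nat_lit 0, nat_lit 160, nat_lit 0, nat_lit 160, ⟨nat_lit 468, nat_lit 0, nat_lit 532, nat_lit 5, nat_lit 156, nat_lit 532, nat_lit 56, nat_lit 532, nat_lit 29400, nat_lit 257, nat_lit 70417, nat_lit 280, nat_lit 58188271, nat_lit 0, nat_lit 0, nat_lit 1946312, false, false⟩,
 nat_lit 0, nat_lit 6184, nat_lit 0, nat_lit 0, nat_lit 4638, nat_lit 4939, nat_lit 0, nat_lit 0, nat_lit 0, nat_lit 1300, nat_lit 0, nat_lit 0, nat_lit 0, nat_lit 0, nat_lit 0, nat_lit 532000, nat_lit 0, nat_lit 0, [(nat_lit 18, [(nat_lit 6, nat_lit 532)])],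
 ⟨p077_k17, nat_lit 0, nat_lit 0, nat_lit 497, nat_lit 0, nat_lit 864090, [nat_lit 1514754134, nat_lit 1534445867, nat_lit 849774400], [], [nat_lit 21915917372, nat_lit 21256239680, nat_lit 19791623885, nat_lit 21321507872, nat_lit 18644453653, nat_lit 19493748490, nat_lit 20612490813, nat_lit 19871479170], nat_lit 1271250, nat_lit 1271250, nat_lit 490000, nat_lit 1100001, nat_lit 0, nat_lit 1100001, [nat_lit 490000, nat_lit 1100000, nat_lit 1442500], [nat_lit 6, nat_lit 40, nat_lit 40, nat_lit 80, nat_lit 3, nat_lit 317, nat_lit 100, nat_lit 12]⟩, ⟨p077_k18, nat_lit 0, nat_lit 0, nat_lit 234, nat_lit 0, nat_lit 0, [nat_lit 2925000000, nat_lit 4606056000, nat_lit 5556096000], [], [nat_lit 10798962884, nat_lit 12048455540, nat_lit 10666395392, nat_lit 11757799980, nat_lit 7916024284, nat_lit 8929722784, nat_lit 7748221352, nat_lit 8610508408], nat_lit 0, nat_lit 0, nat_lit 0, nat_lit 0, nat_lit 0, nat_lit 0, [],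 [nat_lit 46, nat_lit 40, nat_lit 40, nat_lit 80, nat_lit 41, nat_lit 373, nat_lit 150, nat_lit 10]⟩,
 ⟨nat_lit 3872, nat_lit 4473, ⟨.ofNat (nat_lit 296041), .ofNat (nat_lit 432013), .ofNat (nat_lit 339140), .ofNat (nat_lit 475111), .ofNat (nat_lit 306411), .ofNat (nat_lit 435470), .ofNat (nat_lit 349963), .ofNat (nat_lit 479021)⟩, ⟨.negSucc (nat_lit 12427), .ofNat (nat_lit 259489), .ofNat (nat_lit 0), .ofNat (nat_lit 302621), .ofNat (nat_lit 0), .ofNat (nat_lit 261131), .ofNat (nat_lit 0), .ofNat (nat_lit 304717)⟩⟩, [⟨nat_lit 0, nat_lit 100, nat_lit 73, nat_lit 85, nat_lit 312641927⟩]⟩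
noncomputable def p077_l74 : Lf2 := ⟨nat_lit 0, nat_lit 10, [nat_lit 0, nat_lit 5, nat_lit 5, nat_lit 20], false, nat_lit 0, nat_lit 160, nat_lit 160, nat_lit 360, ⟨nat_lit 346, nat_lit 0, nat_lit 654, nat_lit 5, nat_lit 155, nat_lit 654, nat_lit 56, nat_lit 654, nat_lit 29400, nat_lit 257, nat_lit 74817, nat_lit 282, nat_lit 58257822, nat_lit 0, nat_lit 0, nat_lit 1936491, false, false⟩,
 nat_lit 0, nat_lit 5435, nat_lit 0, nat_lit 0, nat_lit 4076, nat_lit 2828, nat_lit 0, nat_lit 0, nat_lit 0, nat_lit 0, nat_lit 0, nat_lit 0, nat_lit 0, nat_lit 0, nat_lit 20, nat_lit 654000, nat_lit 0, nat_lit 0, [(nat_lit 18, [(nat_lit 6, nat_lit 654)])],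
 ⟨p077_k17, nat_lit 0, nat_lit 0, nat_lit 446, nat_lit 0, nat_lit 767582, [nat_lit 1556137601, nat_lit 1131262401, nat_lit 11376800], [], [nat_lit 17759720224, nat_lit 18946159792, nat_lit 18298617910, nat_lit 19361723736, nat_lit 17464990742, nat_lit 17909726967, nat_lit 20487057891, nat_lit 19587594743], nat_lit 1271250, nat_lit 1271250, nat_lit 490000, nat_lit 1100001, nat_lit 0, nat_lit 1100001, [nat_lit 490000, nat_lit 1100000, nat_lit 1442500], [nat_lit 6, nat_lit 40, nat_lit 40, nat_lit 80, nat_lit 3, nat_lit 317, nat_lit 100, nat_lit 12]⟩, ⟨p077_k18, nat_lit 0, nat_lit 0, nat_lit 121, nat_lit 0, nat_lit 0, [nat_lit 2162500000, nat_lit 3405332000, nat_lit 4107712000], [], [nat_lit 2356512456, nat_lit 3518473040, nat_lit 2822262448, nat_lit 3837638416, nat_lit 8523863644, nat_lit 9062260788, nat_lit 8243477820, nat_lit 8712051384], nat_lit 0, nat_lit 0, nat_lit 0, nat_lit 0, nat_lit 0, nat_lit 0, [], [nat_lit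 46, nat_lit 40, nat_lit 40, nat_lit 80, nat_lit 41, nat_lit 428, nat_lit 200, nat_lit 11]⟩,
 ⟨nat_lit 4183, nat_lit 4473, ⟨.ofNat (nat_lit 296062), .ofNat (nat_lit 432020), .ofNat (nat_lit 339187), .ofNat (nat_lit 475145), .ofNat (nat_lit 301229), .ofNat (nat_lit 433742), .ofNat (nat_lit 344555), .ofNat (nat_lit 477068)⟩, ⟨.negSucc (nat_lit 12423), .ofNat (nat_lit 259489), .ofNat (nat_lit 0), .ofNat (nat_lit 302621), .negSucc (nat_lit 4612), .ofNat (nat_lit 260409), .ofNat (nat_lit 0), .ofNat (nat_lit 303743)⟩⟩, [⟨nat_lit 7, nat_lit 77, nat_lit 100, nat_lit 72, nat_lit 305095791⟩]⟩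
noncomputable def p077_l75 : Lf2 := ⟨nat_lit 0, nat_lit 10, [nat_lit 0, nat_lit 5, nat_lit 5, nat_lit 20], false, nat_lit 0, nat_lit 160, nat_lit 160, nat_lit 360, ⟨nat_lit 476, nat_lit 0, nat_lit 524, nat_lit 5, nat_lit 156, nat_lit 524, nat_lit 56, nat_lit 524, nat_lit 29400, nat_lit 257, nat_lit 70417, nat_lit 280, nat_lit 58117584, nat_lit 0, nat_lit 0, nat_lit 1956245, false, false⟩,
 nat_lit 0, nat_lit 5253, nat_lit 0, nat_lit 0, nat_lit 4094, nat_lit 4052, nat_lit 1273, nat_lit 0, nat_lit 0, nat_lit 0, nat_lit 0, nat_lit 0, nat_lit 0, nat_lit 0, nat_lit 0, nat_lit 209600, nat_lit 0, nat_lit 0, [(nat_lit 18, [(nat_lit 5, nat_lit 524)])],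
 ⟨p077_k21, nat_lit 0, nat_lit 0, nat_lit 469, nat_lit 0, nat_lit 820346, [nat_lit 1453923201, nat_lit 2014552000, nat_lit 2186275200], [], [nat_lit 18979007848, nat_lit 20168587840, nat_lit 19387617384, nat_lit 20455925536, nat_lit 17811375071, nat_lit 18375419159, nat_lit 18822105647, nat_lit 19386149735], nat_lit 1271250, nat_lit 1271250, nat_lit 490000, nat_lit 1100001, nat_lit 0, nat_lit 1100001, [nat_lit 490000, nat_lit 1100000, nat_lit 1442500], [nat_lit 6, nat_lit 40, nat_lit 40, nat_lit 80, nat_lit 3, nat_lit 317, nat_lit 100, nat_lit 12]⟩, ⟨p077_k18, nat_lit 0, nat_lit 0, nat_lit 121, nat_lit 0, nat_lit 0, [nat_lit 2975000000, nat_lit 4684792000, nat_lit 5651072000], [], [nat_lit 2964685600, nat_lit 4603129824, nat_lit 3591021264, nat_lit 5020935424, nat_lit 11670002232, nat_lit 12620688792, nat_lit 11234662224, nat_lit 11982274688], nat_lit 0, nat_lit 0, nat_lit 0, nat_lit 0, nat_lit 0, nat_lit 0, [],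 [nat_lit 46, nat_lit 40, nat_lit 40, nat_lit 80, nat_lit 41, nat_lit 428, nat_lit 200, nat_lit 11]⟩,
 ⟨nat_lit 3872, nat_lit 4184, ⟨.ofNat (nat_lit 301224), .ofNat (nat_lit 433741), .ofNat (nat_lit 344547), .ofNat (nat_lit 477065), .ofNat (nat_lit 306426), .ofNat (nat_lit 435475), .ofNat (nat_lit 350002), .ofNat (nat_lit 479052)⟩, ⟨.negSucc (nat_lit 4619), .ofNat (nat_lit 260409), .ofNat (nat_lit 0), .ofNat (nat_lit 303743), .ofNat (nat_lit 0), .ofNat (nat_lit 261131), .ofNat (nat_lit 0), .ofNat (nat_lit 304717)⟩⟩, [⟨nat_lit 7, nat_lit 77, nat_lit 100, nat_lit 72, nat_lit 441967649⟩]⟩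
noncomputable def p077_l76 : Lf2 := ⟨nat_lit 0, nat_lit 10, [nat_lit 0, nat_lit 5, nat_lit 5, nat_lit 20], false, nat_lit 0, nat_lit 160, nat_lit 0, nat_lit 360, ⟨nat_lit 386, nat_lit 0, nat_lit 614, nat_lit 5, nat_lit 209, nat_lit 614, nat_lit 56, nat_lit 614, nat_lit 29400, nat_lit 257, nat_lit 5958, nat_lit 209, nat_lit 52669703, nat_lit 0, nat_lit 0, nat_lit 2595292, false, false⟩,
 nat_lit 0, nat_lit 5399, nat_lit 0, nat_lit 0, nat_lit 4049, nat_lit 5458, nat_lit 0, nat_lit 0, nat_lit 0, nat_lit 1051, nat_lit 0, nat_lit 0, nat_lit 0, nat_lit 0, nat_lit 0, nat_lit 614000, nat_lit 0, nat_lit 0, [(nat_lit 18, [(nat_lit 6, nat_lit 614)])],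
 ⟨p077_k17, nat_lit 0, nat_lit 0, nat_lit 420, nat_lit 0, nat_lit 767582, [nat_lit 1435028267, nat_lit 1048371734, nat_lit 17408800], [], [nat_lit 21589487860, nat_lit 20550801939, nat_lit 21531887520, nat_lit 22436762913, nat_lit 19232376202, nat_lit 19634186085, nat_lit 21111642118, nat_lit 21297823335], nat_lit 1271250, nat_lit 1271250, nat_lit 1100001, nat_lit 1785000, nat_lit 0, nat_lit 1100001, [nat_lit 490000, nat_lit 1100000, nat_lit 1442500], [nat_lit 6, nat_lit 40, nat_lit 40, nat_lit 80, nat_lit 3, nat_lit 317, nat_lit 100, nat_lit 12]⟩, ⟨p077_k18, nat_lit 0, nat_lit 0, nat_lit 194, nat_lit 0, nat_lit 0, [nat_lit 2412500000, nat_lit 3799012000, nat_lit 4582592000], [], [nat_lit 8007545072, nat_lit 9443550240, nat_lit 10079296840, nat_lit 11180323840, nat_lit 10614705284, nat_lit 11006206168, nat_lit 11198165808, nat_lit 11822682276], nat_lit 0, nat_lit 0, nat_lit 0, nat_lit 0, nat_lit 0, nat_lit 0, [],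 [nat_lit 46, nat_lit 40, nat_lit 40, nat_lit 80, nat_lit 41, nat_lit 456, nat_lit 225, nat_lit 12]⟩,
 ⟨nat_lit 4183, nat_lit 4473, ⟨.ofNat (nat_lit 432020), .ofNat (nat_lit 567977), .ofNat (nat_lit 475145), .ofNat (nat_lit 611104), .ofNat (nat_lit 433742), .ofNat (nat_lit 566254), .ofNat (nat_lit 477068), .ofNat (nat_lit 609582)⟩, ⟨.negSucc (nat_lit 12423), .ofNat (nat_lit 259489), .ofNat (nat_lit 0), .ofNat (nat_lit 302621), .negSucc (nat_lit 4612), .ofNat (nat_lit 260409), .ofNat (nat_lit 0), .ofNat (nat_lit 303743)⟩⟩, [⟨nat_lit 7, nat_lit 77, nat_lit 100, nat_lit 72, nat_lit 134889411⟩]⟩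
noncomputable def p077_l77 : Lf2 := ⟨nat_lit 0, nat_lit 10, [nat_lit 0, nat_lit 5, nat_lit 5, nat_lit 20], false, nat_lit 0, nat_lit 160, nat_lit 0, nat_lit 360, ⟨nat_lit 669, nat_lit 0, nat_lit 331, nat_lit 5, nat_lit 209, nat_lit 331, nat_lit 56, nat_lit 331, nat_lit 29400, nat_lit 257, nat_lit 2777, nat_lit 209, nat_lit 52664855, nat_lit 0, nat_lit 0, nat_lit 2595763, false, false⟩,
 nat_lit 0, nat_lit 6270, nat_lit 0, nat_lit 0, nat_lit 4887, nat_lit 10175, nat_lit 942, nat_lit 0, nat_lit 0, nat_lit 620, nat_lit 0, nat_lit 0, nat_lit 0, nat_lit 0, nat_lit 0, nat_lit 331000, nat_lit 0, nat_lit 0, [(nat_lit 18, [(nat_lit 6, nat_lit 331)])],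
 ⟨p077_k21, nat_lit 0, nat_lit 0, nat_lit 443, nat_lit 0, nat_lit 820346, [nat_lit 1710179734, nat_lit 2725920267, nat_lit 2890085200], [], [nat_lit 20918889958, nat_lit 21717702728, nat_lit 23777510119, nat_lit 24785842478, nat_lit 18418201281, nat_lit 18852246510, nat_lit 20350046800, nat_lit 21207943140], nat_lit 1271250, nat_lit 1271250, nat_lit 1100001, nat_lit 1785000, nat_lit 0, nat_lit 1100001, [nat_lit 490000, nat_lit 1100000, nat_lit 1442500], [nat_lit 6, nat_lit 40, nat_lit 40, nat_lit 80, nat_lit 3, nat_lit 317, nat_lit 100, nat_lit 12]⟩, ⟨p077_k18, nat_lit 0, nat_lit 0, nat_lit 194, nat_lit 0, nat_lit 0, [nat_lit 4181250000, nat_lit 6584298000, nat_lit 7942368000], [], [nat_lit 17614172024, nat_lit 19694384588, nat_lit 20420531088, nat_lit 21977608260, nat_lit 19069863922, nat_lit 19500225872, nat_lit 19807193780, nat_lit 20917535034], nat_lit 0, nat_lit 0, nat_lit 0, nat_lit 0, nat_lit 0, nat_lit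 0, [], [nat_lit 46, nat_lit 40, nat_lit 40, nat_lit 80, nat_lit 41, nat_lit 456, nat_lit 225, nat_lit 12]⟩,
 ⟨nat_lit 3872, nat_lit 4184, ⟨.ofNat (nat_lit 433741), .ofNat (nat_lit 566254), .ofNat (nat_lit 477065), .ofNat (nat_lit 609582), .ofNat (nat_lit 435475), .ofNat (nat_lit 564520), .ofNat (nat_lit 479052), .ofNat (nat_lit 608101)⟩, ⟨.negSucc (nat_lit 4619), .ofNat (nat_lit 260409), .ofNat (nat_lit 0), .ofNat (nat_lit 303743), .ofNat (nat_lit 0), .ofNat (nat_lit 261131), .ofNat (nat_lit 0), .ofNat (nat_lit 304717)⟩⟩, [⟨nat_lit 7, nat_lit 77, nat_lit 100, nat_lit 72, nat_lit 177671782⟩]⟩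
noncomputable def p077_l78 : Lf2 := ⟨nat_lit 0, nat_lit 10, [nat_lit 0, nat_lit 5, nat_lit 5, nat_lit 20], false, nat_lit 0, nat_lit 80, nat_lit 0, nat_lit 360, ⟨nat_lit 15, nat_lit 0, nat_lit 985, nat_lit 5, nat_lit 147, nat_lit 541, nat_lit 32, nat_lit 985, nat_lit 9600, nat_lit 239, nat_lit 135227, nat_lit 305, nat_lit 59062219, nat_lit 0, nat_lit 0, nat_lit 1819368, false, false⟩,
 nat_lit 0, nat_lit 3342, nat_lit 0, nat_lit 0, nat_lit 2705, nat_lit 215, nat_lit 0, nat_lit 0, nat_lit 0, nat_lit 18, nat_lit 0, nat_lit 0, nat_lit 0, nat_lit 0, nat_lit 224, nat_lit 974800, nat_lit 0, nat_lit 0, [(nat_lit 21, [(nat_lit 5, nat_lit 17), (nat_lit 6, nat_lit 968)])],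
 ⟨p077_k20, nat_lit 0, nat_lit 0, nat_lit 528, nat_lit 0, nat_lit 887752, [nat_lit 2572456000, nat_lit 1018739601, nat_lit 463261200], [], [nat_lit 18547270312, nat_lit 19718644680, nat_lit 20070233150, nat_lit 21106918460, nat_lit 18658023368, nat_lit 19750687941, nat_lit 20137833260, nat_lit 21106852940], nat_lit 1271250, nat_lit 1271250, nat_lit 330400, nat_lit 1100001, nat_lit 0, nat_lit 490000, [nat_lit 490000, nat_lit 1100000, nat_lit 1442500], [nat_lit 6, nat_lit 40, nat_lit 40, nat_lit 80, nat_lit 3, nat_lit 272, nat_lit 60, nat_lit 10]⟩, ⟨p077_k18, nat_lit 0, nat_lit 0, nat_lit 258, nat_lit 0, nat_lit 0, [nat_lit 93750000, nat_lit 147630000, nat_lit 178080000], [], [nat_lit 447983220, nat_lit 474160102, nat_lit 377924440, nat_lit 400420210, nat_lit 511844296, nat_lit 518461673, nat_lit 416181330, nat_lit 421107845], nat_lit 0, nat_lit 0, nat_lit 0, nat_lit 0, nat_lit 0, nat_lit 0, [], [nat_lit 46, nat_lit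 40, nat_lit 40, nat_lit 80, nat_lit 41, nat_lit 428, nat_lit 200, nat_lit 11]⟩,
 ⟨nat_lit 3162, nat_lit 3873, ⟨.ofNat (nat_lit 267606), .ofNat (nat_lit 435446), .ofNat (nat_lit 289370), .ofNat (nat_lit 457211), .ofNat (nat_lit 280451), .ofNat (nat_lit 439014), .ofNat (nat_lit 302577), .ofNat (nat_lit 461140)⟩, ⟨.ofNat (nat_lit 0), .ofNat (nat_lit 132088), .ofNat (nat_lit 0), .ofNat (nat_lit 175674), .ofNat (nat_lit 0), .ofNat (nat_lit 139899), .ofNat (nat_lit 0), .ofNat (nat_lit 184209)⟩⟩, [⟨nat_lit 7, nat_lit 74, nat_lit 100, nat_lit 72, nat_lit 4315316⟩]⟩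
noncomputable def p077_l79 : Lf2 := ⟨nat_lit 0, nat_lit 10, [nat_lit 0, nat_lit 5, nat_lit 5, nat_lit 20], true, nat_lit 80, nat_lit 160, nat_lit 0, nat_lit 360, ⟨nat_lit 0, nat_lit 0, nat_lit 1000, nat_lit 5, nat_lit 147, nat_lit 1000, nat_lit 88, nat_lit 1000, nat_lit 72600, nat_lit 281, nat_lit 135227, nat_lit 305, nat_lit 55031456, nat_lit 0, nat_lit 0, nat_lit 3075442, false, false⟩,
 nat_lit 0, nat_lit 3661, nat_lit 0, nat_lit 0, nat_lit 2963, nat_lit 0, nat_lit 0, nat_lit 0, nat_lit 0, nat_lit 0, nat_lit 0, nat_lit 0, nat_lit 0, nat_lit 0, nat_lit 235, nat_lit 1000000, nat_lit 0, nat_lit 0, [(nat_lit 21, [(nat_lit 6, nat_lit 1000)])],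
 ⟨p077_k20, nat_lit 0, nat_lit 0, nat_lit 461, nat_lit 0, nat_lit 887752, [nat_lit 2637600000, nat_lit 1056000001, nat_lit 481600000], [], [nat_lit 16623998764, nat_lit 18028612316, nat_lit 18083860890, nat_lit 19160789556, nat_lit 17970053584, nat_lit 19072868902, nat_lit 19274175456, nat_lit 20251044408], nat_lit 1271250, nat_lit 1271250, nat_lit 330400, nat_lit 1100001, nat_lit 490000, nat_lit 1100001, [nat_lit 490000, nat_lit 1100000, nat_lit 1442500], [nat_lit 6, nat_lit 40, nat_lit 40, nat_lit 80, nat_lit 3, nat_lit 317, nat_lit 100, nat_lit 12]⟩, C1.Rw.none,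
 ⟨nat_lit 3162, nat_lit 3873, ⟨.ofNat (nat_lit 267606), .ofNat (nat_lit 435446), .ofNat (nat_lit 289370), .ofNat (nat_lit 457211), .ofNat (nat_lit 280451), .ofNat (nat_lit 439014), .ofNat (nat_lit 302577), .ofNat (nat_lit 461140)⟩, ⟨.ofNat (nat_lit 132088), .ofNat (nat_lit 261131), .ofNat (nat_lit 175674), .ofNat (nat_lit 304717), .ofNat (nat_lit 139899), .ofNat (nat_lit 261806), .ofNat (nat_lit 184209), .ofNat (nat_lit 306116)⟩⟩, [⟨nat_lit 4, nat_lit 100, nat_lit 66, nat_lit 72, nat_lit 119570809⟩]⟩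
noncomputable def p077_l80 : Lf2 := ⟨nat_lit 0, nat_lit 10, [nat_lit 0, nat_lit 5, nat_lit 5, nat_lit 20], false, nat_lit 0, nat_lit 160, nat_lit 0, nat_lit 332, ⟨nat_lit 386, nat_lit 0, nat_lit 614, nat_lit 5, nat_lit 158, nat_lit 614, nat_lit 54, nat_lit 614, nat_lit 28017, nat_lit 256, nat_lit 66278, nat_lit 278, nat_lit 57919270, nat_lit 0, nat_lit 0, nat_lit 1983855, false, false⟩,
 nat_lit 0, nat_lit 4642, nat_lit 0, nat_lit 0, nat_lit 3757, nat_lit 5458, nat_lit 0, nat_lit 0, nat_lit 0, nat_lit 720, nat_lit 0, nat_lit 0, nat_lit 0, nat_lit 0, nat_lit 28, nat_lit 614000, nat_lit 0, nat_lit 0, [(nat_lit 21, [(nat_lit 6, nat_lit 614)])],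
 ⟨p077_k20, nat_lit 0, nat_lit 0, nat_lit 501, nat_lit 0, nat_lit 841478, [nat_lit 1473518400, nat_lit 597312001, nat_lit 382402400], [], [nat_lit 19848851528, nat_lit 20990271058, nat_lit 19919710008, nat_lit 20936589264, nat_lit 19112724184, nat_lit 19678358758, nat_lit 20148918524, nat_lit 20653543914], nat_lit 1271250, nat_lit 1271250, nat_lit 408851, nat_lit 1100001, nat_lit 0, nat_lit 1100001, [nat_lit 490000, nat_lit 1100000, nat_lit 1442500], [nat_lit 6, nat_lit 40, nat_lit 40, nat_lit 80, nat_lit 3, nat_lit 317, nat_lit 100, nat_lit 12]⟩, ⟨p077_k19, nat_lit 0, nat_lit 0, nat_lit 249, nat_lit 0, nat_lit 0, [nat_lit 2412500000, nat_lit 3799012000, nat_lit 4582592000], [], [nat_lit 9700849280, nat_lit 10364481240, nat_lit 8348499084, nat_lit 8922701912, nat_lit 9962129093, nat_lit 10568037144, nat_lit 8469661522, nat_lit 9000113789], nat_lit 0, nat_lit 0, nat_lit 0, nat_lit 0, nat_lit 0, nat_lit 0, [], [nat_lit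 46, nat_lit 40, nat_lit 40, nat_lit 80, nat_lit 41, nat_lit 428, nat_lit 200, nat_lit 11]⟩,
 ⟨nat_lit 3535, nat_lit 3873, ⟨.ofNat (nat_lit 308846), .ofNat (nat_lit 457259), .ofNat (nat_lit 330633), .ofNat (nat_lit 479046), .ofNat (nat_lit 314814), .ofNat (nat_lit 459179), .ofNat (nat_lit 336760), .ofNat (nat_lit 481125)⟩, ⟨.ofNat (nat_lit 0), .ofNat (nat_lit 261131), .ofNat (nat_lit 0), .ofNat (nat_lit 282924), .ofNat (nat_lit 0), .ofNat (nat_lit 261616), .ofNat (nat_lit 0), .ofNat (nat_lit 283569)⟩⟩, [⟨nat_lit 0, nat_lit 100, nat_lit 70, nat_lit 83, nat_lit 405901719⟩, ⟨nat_lit 7, nat_lit 85, nat_lit 100, nat_lit 67, nat_lit 110306734⟩]⟩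
noncomputable def p077_l81 : Lf2 := ⟨nat_lit 0, nat_lit 10, [nat_lit 0, nat_lit 5, nat_lit 5, nat_lit 20], true, nat_lit 0, nat_lit 160, nat_lit 0, nat_lit 348, ⟨nat_lit 0, nat_lit 0, nat_lit 1000, nat_lit 5, nat_lit 158, nat_lit 936, nat_lit 59, nat_lit 1000, nat_lit 32267, nat_lit 259, nat_lit 66278, nat_lit 278, nat_lit 57919270, nat_lit 0, nat_lit 0, nat_lit 1983855, false, false⟩,
 nat_lit 0, nat_lit 3375, nat_lit 0, nat_lit 0, nat_lit 2732, nat_lit 0, nat_lit 0, nat_lit 0, nat_lit 0, nat_lit 0, nat_lit 0, nat_lit 0, nat_lit 0, nat_lit 0, nat_lit 235, nat_lit 1000000, nat_lit 0, nat_lit 0, [(nat_lit 21, [(nat_lit 6, nat_lit 1000)])],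
 ⟨p077_k20, nat_lit 0, nat_lit 0, nat_lit 441, nat_lit 0, nat_lit 715330, [nat_lit 2637600000, nat_lit 1056000001, nat_lit 481600000], [], [nat_lit 17644767993, nat_lit 18605398741, nat_lit 19020649400, nat_lit 19577588796, nat_lit 18950589116, nat_lit 19477185560, nat_lit 20246844384, nat_lit 20719836048], nat_lit 1271250, nat_lit 1271250, nat_lit 408851, nat_lit 1100001, nat_lit 0, nat_lit 1100001, [nat_lit 490000, nat_lit 1100000, nat_lit 1442500], [nat_lit 6, nat_lit 40, nat_lit 40, nat_lit 80, nat_lit 3, nat_lit 317, nat_lit 100, nat_lit 12]⟩, C1.Rw.none,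
 ⟨nat_lit 3535, nat_lit 3873, ⟨.ofNat (nat_lit 308846), .ofNat (nat_lit 457259), .ofNat (nat_lit 330633), .ofNat (nat_lit 479046), .ofNat (nat_lit 314814), .ofNat (nat_lit 459179), .ofNat (nat_lit 336760), .ofNat (nat_lit 481125)⟩, ⟨.ofNat (nat_lit 0), .ofNat (nat_lit 282924), .ofNat (nat_lit 0), .ofNat (nat_lit 304717), .ofNat (nat_lit 0), .ofNat (nat_lit 283569), .ofNat (nat_lit 0), .ofNat (nat_lit 305521)⟩⟩, []⟩
noncomputable def p077_l82 : Lf2 := ⟨nat_lit 0, nat_lit 10, [nat_lit 0, nat_lit 5, nat_lit 5, nat_lit 20], false, nat_lit 0, nat_lit 160, nat_lit 0, nat_lit 332, ⟨nat_lit 418, nat_lit 0, nat_lit 582, nat_lit 5, nat_lit 164, nat_lit 582, nat_lit 55, nat_lit 582, nat_lit 28017, nat_lit 256, nat_lit 62739, nat_lit 276, nat_lit 57384991, nat_lit 0, nat_lit 0, nat_lit 2056398, false, false⟩,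
 nat_lit 0, nat_lit 4528, nat_lit 0, nat_lit 0, nat_lit 3803, nat_lit 6157, nat_lit 0, nat_lit 0, nat_lit 0, nat_lit 698, nat_lit 0, nat_lit 0, nat_lit 0, nat_lit 0, nat_lit 0, nat_lit 582000, nat_lit 0, nat_lit 0, [(nat_lit 21, [(nat_lit 6, nat_lit 582)])],
 ⟨p077_k22, nat_lit 0, nat_lit 0, nat_lit 430, nat_lit 0, nat_lit 885434, [nat_lit 1290299201, nat_lit 320647999], [], [nat_lit 20725583884, nat_lit 21864393688, nat_lit 21016801856, nat_lit 22040701080, nat_lit 19810399068, nat_lit 20372260812, nat_lit 20767206014, nat_lit 21274603824], nat_lit 1271250, nat_lit 1271250, nat_lit 490000, nat_lit 1100001, nat_lit 0, nat_lit 1100001, [nat_lit 490000, nat_lit 1100000], [nat_lit 24, nat_lit 40, nat_lit 40, nat_lit 80, nat_lit 33, nat_lit 317, nat_lit 100, nat_lit 15]⟩, ⟨p077_k19, nat_lit 0, nat_lit 0, nat_lit 234, nat_lit 0, nat_lit 0, [nat_lit 2612500000, nat_lit 4113956000, nat_lit 4962496000], [], [nat_lit 10485006744,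 nat_lit 11217887066, nat_lit 9498833812, nat_lit 10136118146, nat_lit 10353575515, nat_lit 11029987784, nat_lit 9231822598, nat_lit 9819923278], nat_lit 0, nat_lit 0, nat_lit 0, nat_lit 0, nat_lit 0, nat_lit 0, [], [nat_lit 46, nat_lit 40, nat_lit 40, nat_lit 80, nat_lit 41, nat_lit 428, nat_lit 200, nat_lit 11]⟩,
 ⟨nat_lit 3162, nat_lit 3536, ⟨.ofNat (nat_lit 333628), .ofNat (nat_lit 459172), .ofNat (nat_lit 355573), .ofNat (nat_lit 481116), .ofNat (nat_lit 339255), .ofNat (nat_lit 461182), .ofNat (nat_lit 361401), .ofNat (nat_lit 483329)⟩, ⟨.ofNat (nat_lit 0), .ofNat (nat_lit 261616), .ofNat (nat_lit 0), .ofNat (nat_lit 283569), .ofNat (nat_lit 0), .ofNat (nat_lit 261806), .ofNat (nat_lit 0), .ofNat (nat_lit 283961)⟩⟩, [⟨nat_lit 0, nat_lit 100, nat_lit 64, nat_lit 87, nat_lit 437058811⟩, ⟨nat_lit 7, nat_lit 85, nat_lit 100, nat_lit 67, nat_lit 111595473⟩]⟩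
noncomputable def p077_l83 : Lf2 := ⟨nat_lit 0, nat_lit 10, [nat_lit 0, nat_lit 5, nat_lit 5, nat_lit 20], false, nat_lit 0, nat_lit 160, nat_lit 0, nat_lit 348, ⟨nat_lit 300, nat_lit 0, nat_lit 700, nat_lit 5, nat_lit 164, nat_lit 700, nat_lit 59, nat_lit 700, nat_lit 32267, nat_lit 259, nat_lit 62739, nat_lit 276, nat_lit 57384991, nat_lit 0, nat_lit 0, nat_lit 2056398, false, false⟩,
 nat_lit 0, nat_lit 3988, nat_lit 0, nat_lit 0, nat_lit 3349, nat_lit 3899, nat_lit 0, nat_lit 0, nat_lit 0, nat_lit 437, nat_lit 0, nat_lit 0, nat_lit 0, nat_lit 0, nat_lit 42, nat_lit 694600, nat_lit 0, nat_lit 0, [(nat_lit 21, [(nat_lit 5, nat_lit 9), (nat_lit 6, nat_lit 691)])],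
 ⟨p077_k22, nat_lit 0, nat_lit 0, nat_lit 390, nat_lit 0, nat_lit 766200, [nat_lit 1477900001, nat_lit 150665599], [], [nat_lit 19738665972, nat_lit 20798267304, nat_lit 20225138448, nat_lit 21179753640, nat_lit 19777697336, nat_lit 20346266195, nat_lit 20853189243, nat_lit 21367428591], nat_lit 1271250, nat_lit 1271250, nat_lit 490000, nat_lit 1100001, nat_lit 0, nat_lit 1100001, [nat_lit 490000, nat_lit 1100000], [nat_lit 24, nat_lit 40, nat_lit 40, nat_lit 80, nat_lit 33, nat_lit 317, nat_lit 100, nat_lit 15]⟩, ⟨p077_k19, nat_lit 0, nat_lit 0, nat_lit 234, nat_lit 0, nat_lit 0, [nat_lit 1875000000, nat_lit 2952600000, nat_lit 3561600000], [], [nat_lit 7655524489, nat_lit 8141879051, nat_lit 7097837785, nat_lit 7522574395, nat_lit 8342725352, nat_lit 8545461685, nat_lit 7474286639, nat_lit 7725564431], nat_lit 0, nat_lit 0, nat_lit 0, nat_lit 0, nat_lit 0, nat_lit 0, [], [nat_lit 46, nat_lit 40, nat_lit 40, nat_lit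 80, nat_lit 41, nat_lit 428, nat_lit 200, nat_lit 11]⟩,
 ⟨nat_lit 3162, nat_lit 3536, ⟨.ofNat (nat_lit 333628), .ofNat (nat_lit 459172), .ofNat (nat_lit 355573), .ofNat (nat_lit 481116), .ofNat (nat_lit 339255), .ofNat (nat_lit 461182), .ofNat (nat_lit 361401), .ofNat (nat_lit 483329)⟩, ⟨.ofNat (nat_lit 0), .ofNat (nat_lit 283569), .ofNat (nat_lit 0), .ofNat (nat_lit 305521), .ofNat (nat_lit 0), .ofNat (nat_lit 283961), .ofNat (nat_lit 0), .ofNat (nat_lit 306116)⟩⟩, [⟨nat_lit 0, nat_lit 100, nat_lit 61, nat_lit 92, nat_lit 304419241⟩, ⟨nat_lit 7, nat_lit 77, nat_lit 100, nat_lit 77, nat_lit 78731794⟩]⟩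
noncomputable def p077_l84 : Lf2 := ⟨nat_lit 0, nat_lit 10, [nat_lit 0, nat_lit 5, nat_lit 5, nat_lit 20], false, nat_lit 0, nat_lit 160, nat_lit 0, nat_lit 360, ⟨nat_lit 845, nat_lit 0, nat_lit 155, nat_lit 5, nat_lit 209, nat_lit 155, nat_lit 57, nat_lit 155, nat_lit 30817, nat_lit 258, nat_lit 5723, nat_lit 210, nat_lit 52655659, nat_lit 0, nat_lit 0, nat_lit 2596656, false, false⟩,
 nat_lit 0, nat_lit 6368, nat_lit 0, nat_lit 0, nat_lit 5155, nat_lit 12922, nat_lit 627, nat_lit 0, nat_lit 0, nat_lit 1116, nat_lit 0, nat_lit 0, nat_lit 0, nat_lit 0, nat_lit 0, nat_lit 155000, nat_lit 0, nat_lit 0, [(nat_lit 21, [(nat_lit 6, nat_lit 155)])],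
 ⟨p077_k20, nat_lit 0, nat_lit 0, nat_lit 513, nat_lit 0, nat_lit 960176, [nat_lit 1834468001, nat_lit 3542240000, nat_lit 4627398000], [], [nat_lit 22144129320, nat_lit 24604579800, nat_lit 25247712070, nat_lit 27330549740, nat_lit 19803885423, nat_lit 20785226943, nat_lit 21382856483, nat_lit 23078066300], nat_lit 1271250, nat_lit 1271250, nat_lit 1100001, nat_lit 1785000, nat_lit 0, nat_lit 1100001, [nat_lit 490000, nat_lit 1100000, nat_lit 1442500], [nat_lit 6, nat_lit 40, nat_lit 40, nat_lit 80, nat_lit 3, nat_lit 317, nat_lit 100, nat_lit 12]⟩, ⟨p077_k18, nat_lit 0, nat_lit 0, nat_lit 194, nat_lit 0, nat_lit 0, [nat_lit 5281250000, nat_lit 8316490000, nat_lit 10031840000], [], [nat_lit 20919829120, nat_lit 23556114200, nat_lit 24473415728, nat_lit 26445694192, nat_lit 22728972032, nat_lit 24671985910, nat_lit 25057187142, nat_lit 26462377890], nat_lit 0, nat_lit 0, nat_lit 0, nat_lit 0, nat_lit 0, nat_lit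 0, [], [nat_lit 46, nat_lit 40, nat_lit 40, nat_lit 80, nat_lit 41, nat_lit 456, nat_lit 225, nat_lit 12]⟩,
 ⟨nat_lit 3162, nat_lit 3873, ⟨.ofNat (nat_lit 435446), .ofNat (nat_lit 564520), .ofNat (nat_lit 478975), .ofNat (nat_lit 608082), .ofNat (nat_lit 439014), .ofNat (nat_lit 560952), .ofNat (nat_lit 483267), .ofNat (nat_lit 605237)⟩, ⟨.ofNat (nat_lit 0), .ofNat (nat_lit 261131), .ofNat (nat_lit 0), .ofNat (nat_lit 304717), .ofNat (nat_lit 0), .ofNat (nat_lit 261806), .ofNat (nat_lit 0), .ofNat (nat_lit 306116)⟩⟩, [⟨nat_lit 7, nat_lit 77, nat_lit 100, nat_lit 72, nat_lit 250617224⟩]⟩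
noncomputable def b_V_800_500_10_1 : St := ⟨true, nat_lit 1, nat_lit 0, nat_lit 1, nat_lit 80, nat_lit 320, nat_lit 360, nat_lit 200, nat_lit 240, nat_lit 40, nat_lit 240, nat_lit 40, nat_lit 80, nat_lit 0, nat_lit 160, nat_lit 0, nat_lit 360, nat_lit 0, nat_lit 40, nat_lit 0, nat_lit 0, nat_lit 0, nat_lit 0⟩
theorem d_V_800_500_10_1 (h : EB TB.env) : Dead b_V_800_500_10_1 := chkB_sound0 h (T :=
(.spl (nat_lit 0) (nat_lit 340)
(.spl (nat_lit 2) (nat_lit 160)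
(.spl (nat_lit 2) (nat_lit 80)
(.leaf p077_l72)
(.spl (nat_lit 5) (nat_lit 160)
(.leaf p077_l73)
(.spl (nat_lit 0) (nat_lit 330)
(.leaf p077_l74)
(.leaf p077_l75))))
(.spl (nat_lit 0) (nat_lit 330)
(.leaf p077_l76)
(.leaf p077_l77)))
(.trZ (nat_lit 0) (nat_lit 100) (nat_lit 71) (nat_lit 70) (nat_lit 56) (.spl (nat_lit 2) (nat_lit 160)
(.spl (nat_lit 1) (nat_lit 220)
(.spl (nat_lit 4) (nat_lit 80)
(.leaf p077_l78)
(.leaf p077_l79))
(.trZ (nat_lit 0) (nat_lit 100) (nat_lit 72) (nat_lit 77) (nat_lit 68) (.trX (nat_lit 19) (nat_lit 100) (nat_lit 68) (nat_lit 80) (nat_lit 348) (.spl (nat_lit 0) (nat_lit 350)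
(.spl (nat_lit 3) (nat_lit 60)
(.trX (nat_lit 19) (nat_lit 100) (nat_lit 77) (nat_lit 72) (nat_lit 332) (.leaf p077_l80))
(.leaf p077_l81))
(.trZ (nat_lit 0) (nat_lit 100) (nat_lit 66) (nat_lit 82) (nat_lit 80) (.spl (nat_lit 3) (nat_lit 60)
(.trX (nat_lit 19) (nat_lit 100) (nat_lit 77) (nat_lit 72) (nat_lit 332) (.leaf p077_l82))
(.leaf p077_l83)))))))
(.leaf p077_l84))))) (by decide +kernel)
noncomputable def p077_l85 : Lf2 := ⟨nat_lit 0, nat_lit 10, [nat_lit 0, nat_lit 5, nat_lit 5, nat_lit 20], true, nat_lit 160, nat_lit 260, nat_lit 0, nat_lit 360, ⟨nat_lit 0, nat_lit 0, nat_lit 1000, nat_lit 5, nat_lit 116, nat_lit 1000, nat_lit 146, nat_lit 1000, nat_lit 89743, nat_lit 288, nat_lit 126150, nat_lit 302, nat_lit 53127388, nat_lit 0, nat_lit 0, nat_lit 3466090, false, false⟩,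
 nat_lit 0, nat_lit 4456, nat_lit 0, nat_lit 0, nat_lit 3341, nat_lit 0, nat_lit 0, nat_lit 0, nat_lit 0, nat_lit 0, nat_lit 0, nat_lit 0, nat_lit 0, nat_lit 0, nat_lit 76, nat_lit 400000, nat_lit 0, nat_lit 0, [(nat_lit 18, [(nat_lit 5, nat_lit 1000)])],
 ⟨p077_k14, nat_lit 0, nat_lit 0, nat_lit 278, nat_lit 0, nat_lit 527432, [nat_lit 1693000001, nat_lit 251500000], [], [nat_lit 16069616104, nat_lit 17552117304, nat_lit 16120091516, nat_lit 17378925343, nat_lit 19994365276, nat_lit 21532135114, nat_lit 19551783485, nat_lit 20973661229], nat_lit 1271250, nat_lit 1271250, nat_lit 230001, nat_lit 490000, nat_lit 1100001, nat_lit 1956250, [nat_lit 490000, nat_lit 1427500], [nat_lit 69, nat_lit 40, nat_lit 40, nat_lit 80, nat_lit 64, nat_lit 317, nat_lit 100, nat_lit 12]⟩, C1.Rw.none,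
 ⟨nat_lit 3872, nat_lit 4473, ⟨.ofNat (nat_lit 228056), .ofNat (nat_lit 296041), .ofNat (nat_lit 271153), .ofNat (nat_lit 339140), .ofNat (nat_lit 241882), .ofNat (nat_lit 306411), .ofNat (nat_lit 285433), .ofNat (nat_lit 349963)⟩, ⟨.ofNat (nat_lit 259489), .ofNat (nat_lit 429434), .ofNat (nat_lit 302621), .ofNat (nat_lit 472567), .ofNat (nat_lit 261131), .ofNat (nat_lit 422435), .ofNat (nat_lit 304717), .ofNat (nat_lit 466021)⟩⟩, [⟨nat_lit 0, nat_lit 100, nat_lit 76, nat_lit 73, nat_lit 188357034⟩, ⟨nat_lit 16, nat_lit 83, nat_lit 100, nat_lit 83, nat_lit 37748230⟩, ⟨nat_lit 4, nat_lit 100, nat_lit 76, nat_lit 72, nat_lit 248758645⟩]⟩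
noncomputable def p077_l86 : Lf2 := ⟨nat_lit 0, nat_lit 10, [nat_lit 0, nat_lit 5, nat_lit 5, nat_lit 20], true, nat_lit 160, nat_lit 232, nat_lit 0, nat_lit 344, ⟨nat_lit 0, nat_lit 0, nat_lit 1000, nat_lit 5, nat_lit 155, nat_lit 1000, nat_lit 132, nat_lit 1000, nat_lit 163350, nat_lit 314, nat_lit 74817, nat_lit 282, nat_lit 51101811, nat_lit 0, nat_lit 0, nat_lit 3798221, false, false⟩,
 nat_lit 0, nat_lit 4251, nat_lit 0, nat_lit 0, nat_lit 3188, nat_lit 0, nat_lit 0, nat_lit 0, nat_lit 0, nat_lit 0, nat_lit 0, nat_lit 0, nat_lit 0, nat_lit 0, nat_lit 76, nat_lit 400000, nat_lit 0, nat_lit 0, [(nat_lit 18, [(nat_lit 5, nat_lit 1000)])],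
 ⟨p077_k17, nat_lit 0, nat_lit 0, nat_lit 341, nat_lit 0, nat_lit 742661, [nat_lit 1536800000, nat_lit 802000001, nat_lit 14800000], [], [nat_lit 15787441809, nat_lit 16421297532, nat_lit 17130241808, nat_lit 17707124928, nat_lit 18120542236, nat_lit 18761695494, nat_lit 19244894855, nat_lit 19758773990], nat_lit 1271250, nat_lit 1271250, nat_lit 490000, nat_lit 1100001, nat_lit 1100001, nat_lit 1716500, [nat_lit 490000, nat_lit 1100000, nat_lit 1442500], [nat_lit 6, nat_lit 40, nat_lit 40, nat_lit 80, nat_lit 3, nat_lit 317, nat_lit 100, nat_lit 11]⟩, C1.Rw.none,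
 ⟨nat_lit 4183, nat_lit 4473, ⟨.ofNat (nat_lit 296062), .ofNat (nat_lit 432020), .ofNat (nat_lit 339187), .ofNat (nat_lit 475145), .ofNat (nat_lit 301229), .ofNat (nat_lit 433742), .ofNat (nat_lit 344555), .ofNat (nat_lit 477068)⟩, ⟨.ofNat (nat_lit 259489), .ofNat (nat_lit 381849), .ofNat (nat_lit 281055), .ofNat (nat_lit 403416), .ofNat (nat_lit 260409), .ofNat (nat_lit 379669), .ofNat (nat_lit 282076), .ofNat (nat_lit 401336)⟩⟩, [⟨nat_lit 4, nat_lit 100, nat_lit 78, nat_lit 66, nat_lit 247954539⟩]⟩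
noncomputable def p077_l87 : Lf2 := ⟨nat_lit 0, nat_lit 10, [nat_lit 0, nat_lit 5, nat_lit 5, nat_lit 20], true, nat_lit 160, nat_lit 220, nat_lit 0, nat_lit 344, ⟨nat_lit 0, nat_lit 0, nat_lit 1000, nat_lit 5, nat_lit 152, nat_lit 1000, nat_lit 128, nat_lit 1000, nat_lit 153600, nat_lit 311, nat_lit 160067, nat_lit 313, nat_lit 51669650, nat_lit 0, nat_lit 0, nat_lit 3709116, false, false⟩,
 nat_lit 0, nat_lit 4017, nat_lit 0, nat_lit 0, nat_lit 3131, nat_lit 0, nat_lit 772, nat_lit 0, nat_lit 0, nat_lit 0, nat_lit 0, nat_lit 0, nat_lit 0, nat_lit 0, nat_lit 76, nat_lit 400000, nat_lit 0, nat_lit 0, [(nat_lit 18, [(nat_lit 5, nat_lit 1000)])],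
 ⟨p077_k21, nat_lit 0, nat_lit 0, nat_lit 335, nat_lit 0, nat_lit 714229, [nat_lit 1536800000, nat_lit 802000001, nat_lit 14800000], [], [nat_lit 16598998509, nat_lit 17232709558, nat_lit 17893423386, nat_lit 18465661576, nat_lit 18481601160, nat_lit 19067320565, nat_lit 19598908905, nat_lit 20119294899], nat_lit 1271250, nat_lit 1271250, nat_lit 490000, nat_lit 1100001, nat_lit 1100001, nat_lit 1613750, [nat_lit 490000, nat_lit 1100000, nat_lit 1442500], [nat_lit 6, nat_lit 40, nat_lit 40, nat_lit 80, nat_lit 3, nat_lit 317, nat_lit 100, nat_lit 11]⟩, C1.Rw.none,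
 ⟨nat_lit 3872, nat_lit 4184, ⟨.ofNat (nat_lit 301224), .ofNat (nat_lit 433741), .ofNat (nat_lit 322885), .ofNat (nat_lit 455403), .ofNat (nat_lit 306426), .ofNat (nat_lit 435475), .ofNat (nat_lit 328214), .ofNat (nat_lit 457263)⟩, ⟨.ofNat (nat_lit 260409), .ofNat (nat_lit 359793), .ofNat (nat_lit 282076), .ofNat (nat_lit 381459), .ofNat (nat_lit 261131), .ofNat (nat_lit 357913), .ofNat (nat_lit 282924), .ofNat (nat_lit 379706)⟩⟩, [⟨nat_lit 4, nat_lit 100, nat_lit 74, nat_lit 66, nat_lit 262033914⟩]⟩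
noncomputable def p077_l88 : Lf2 := ⟨nat_lit 0, nat_lit 10, [nat_lit 0, nat_lit 5, nat_lit 5, nat_lit 20], false, nat_lit 160, nat_lit 220, nat_lit 0, nat_lit 332, ⟨nat_lit 189, nat_lit 0, nat_lit 811, nat_lit 5, nat_lit 161, nat_lit 811, nat_lit 128, nat_lit 811, nat_lit 153600, nat_lit 311, nat_lit 70417, nat_lit 280, nat_lit 50928034, nat_lit 0, nat_lit 0, nat_lit 3812543, false, false⟩,
 nat_lit 0, nat_lit 4571, nat_lit 0, nat_lit 0, nat_lit 3563, nat_lit 1991, nat_lit 334, nat_lit 0, nat_lit 0, nat_lit 706, nat_lit 0, nat_lit 0, nat_lit 0, nat_lit 0, nat_lit 2, nat_lit 324400, nat_lit 0, nat_lit 0, [(nat_lit 18, [(nat_lit 5, nat_lit 811)])],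
 ⟨p077_k21, nat_lit 0, nat_lit 0, nat_lit 364, nat_lit 0, nat_lit 793965, [nat_lit 1153304801, nat_lit 582278000, nat_lit 532800], [], [nat_lit 17209192414, nat_lit 17722613469, nat_lit 18208500465, nat_lit 18721921520, nat_lit 18800045521, nat_lit 19356427709, nat_lit 19799353572, nat_lit 20314222729], nat_lit 1271250, nat_lit 1271250, nat_lit 490000, nat_lit 1100001, nat_lit 1100001, nat_lit 1613750, [nat_lit 490000, nat_lit 1100000, nat_lit 1442500], [nat_lit 6, nat_lit 40, nat_lit 40, nat_lit 80, nat_lit 3, nat_lit 317, nat_lit 100, nat_lit 11]⟩, ⟨p077_k19, nat_lit 0, nat_lit 0, nat_lit 234, nat_lit 0, nat_lit 0, [nat_lit 1181250000, nat_lit 1860138000, nat_lit 2243808000], [], [nat_lit 3496233154, nat_lit 3748215036, nat_lit 3408537116, nat_lit 3628227424, nat_lit 4353831751, nat_lit 4495695204, nat_lit 4006685823, nat_lit 4203108246], nat_lit 0, nat_lit 0, nat_lit 0, nat_lit 0, nat_lit 0, nat_lit 0, [], [nat_lit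 46, nat_lit 40, nat_lit 40, nat_lit 80, nat_lit 41, nat_lit 428, nat_lit 200, nat_lit 11]⟩,
 ⟨nat_lit 3872, nat_lit 4184, ⟨.ofNat (nat_lit 322885), .ofNat (nat_lit 455403), .ofNat (nat_lit 344547), .ofNat (nat_lit 477065), .ofNat (nat_lit 328214), .ofNat (nat_lit 457263), .ofNat (nat_lit 350002), .ofNat (nat_lit 479052)⟩, ⟨.ofNat (nat_lit 260409), .ofNat (nat_lit 359793), .ofNat (nat_lit 282076), .ofNat (nat_lit 381459), .ofNat (nat_lit 261131), .ofNat (nat_lit 357913), .ofNat (nat_lit 282924), .ofNat (nat_lit 379706)⟩⟩, [⟨nat_lit 0, nat_lit 100, nat_lit 73, nat_lit 85, nat_lit 137570834⟩, ⟨nat_lit 4, nat_lit 100, nat_lit 74, nat_lit 66, nat_lit 339570011⟩, ⟨nat_lit 19, nat_lit 100, nat_lit 85, nat_lit 67, nat_lit 69934807⟩]⟩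
noncomputable def p077_l89 : Lf2 := ⟨nat_lit 0, nat_lit 10, [nat_lit 0, nat_lit 5, nat_lit 5, nat_lit 20], true, nat_lit 160, nat_lit 260, nat_lit 0, nat_lit 360, ⟨nat_lit 0, nat_lit 0, nat_lit 1000, nat_lit 5, nat_lit 155, nat_lit 1000, nat_lit 151, nat_lit 1000, nat_lit 89743, nat_lit 288, nat_lit 74817, nat_lit 282, nat_lit 49693325, nat_lit 0, nat_lit 0, nat_lit 4017570, false, false⟩,
 nat_lit 0, nat_lit 4118, nat_lit 0, nat_lit 0, nat_lit 3088, nat_lit 0, nat_lit 0, nat_lit 0, nat_lit 0, nat_lit 0, nat_lit 0, nat_lit 0, nat_lit 0, nat_lit 0, nat_lit 76, nat_lit 400000, nat_lit 0, nat_lit 0, [(nat_lit 18, [(nat_lit 5, nat_lit 1000)])],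
 ⟨p077_k17, nat_lit 0, nat_lit 0, nat_lit 274, nat_lit 0, nat_lit 600935, [nat_lit 1536800000, nat_lit 802000001, nat_lit 14800000], [], [nat_lit 16122430209, nat_lit 16733053632, nat_lit 17465230208, nat_lit 18033964328, nat_lit 19520098640, nat_lit 20051149788, nat_lit 20562103160, nat_lit 21044380174], nat_lit 1271250, nat_lit 1271250, nat_lit 490000, nat_lit 1100001, nat_lit 1100001, nat_lit 1956250, [nat_lit 490000, nat_lit 1100000, nat_lit 1442500], [nat_lit 6, nat_lit 40, nat_lit 40, nat_lit 80, nat_lit 3, nat_lit 345, nat_lit 125, nat_lit 12]⟩, C1.Rw.none,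
 ⟨nat_lit 4183, nat_lit 4473, ⟨.ofNat (nat_lit 296062), .ofNat (nat_lit 432020), .ofNat (nat_lit 339187), .ofNat (nat_lit 475145), .ofNat (nat_lit 301229), .ofNat (nat_lit 433742), .ofNat (nat_lit 344555), .ofNat (nat_lit 477068)⟩, ⟨.ofNat (nat_lit 281055), .ofNat (nat_lit 451000), .ofNat (nat_lit 302621), .ofNat (nat_lit 472567), .ofNat (nat_lit 282076), .ofNat (nat_lit 447715), .ofNat (nat_lit 303743), .ofNat (nat_lit 469382)⟩⟩, [⟨nat_lit 4, nat_lit 100, nat_lit 79, nat_lit 77, nat_lit 238549809⟩]⟩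
noncomputable def p077_l90 : Lf2 := ⟨nat_lit 0, nat_lit 10, [nat_lit 0, nat_lit 5, nat_lit 5, nat_lit 20], true, nat_lit 160, nat_lit 244, nat_lit 0, nat_lit 360, ⟨nat_lit 0, nat_lit 0, nat_lit 1000, nat_lit 5, nat_lit 156, nat_lit 1000, nat_lit 145, nat_lit 1000, nat_lit 198017, nat_lit 324, nat_lit 70417, nat_lit 280, nat_lit 50026344, nat_lit 0, nat_lit 0, nat_lit 3966898, false, false⟩,
 nat_lit 0, nat_lit 3994, nat_lit 0, nat_lit 0, nat_lit 3113, nat_lit 0, nat_lit 812, nat_lit 0, nat_lit 0, nat_lit 0, nat_lit 0, nat_lit 0, nat_lit 0, nat_lit 0, nat_lit 76, nat_lit 400000, nat_lit 0, nat_lit 0, [(nat_lit 18, [(nat_lit 5, nat_lit 1000)])],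
 ⟨p077_k21, nat_lit 0, nat_lit 0, nat_lit 314, nat_lit 0, nat_lit 660297, [nat_lit 1536800000, nat_lit 802000001, nat_lit 14800000], [], [nat_lit 16655114607, nat_lit 17287119634, nat_lit 17952254478, nat_lit 18523025848, nat_lit 19325920018, nat_lit 19970353279, nat_lit 20372944096, nat_lit 20871238021], nat_lit 1271250, nat_lit 1271250, nat_lit 490000, nat_lit 1100001, nat_lit 1100001, nat_lit 1819250, [nat_lit 490000, nat_lit 1100000, nat_lit 1442500], [nat_lit 6, nat_lit 40, nat_lit 40, nat_lit 80, nat_lit 3, nat_lit 345, nat_lit 125, nat_lit 12]⟩, C1.Rw.none,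
 ⟨nat_lit 3872, nat_lit 4184, ⟨.ofNat (nat_lit 301224), .ofNat (nat_lit 433741), .ofNat (nat_lit 344547), .ofNat (nat_lit 477065), .ofNat (nat_lit 306426), .ofNat (nat_lit 435475), .ofNat (nat_lit 350002), .ofNat (nat_lit 479052)⟩, ⟨.ofNat (nat_lit 282076), .ofNat (nat_lit 421213), .ofNat (nat_lit 303743), .ofNat (nat_lit 442879), .ofNat (nat_lit 282924), .ofNat (nat_lit 418419), .ofNat (nat_lit 304717), .ofNat (nat_lit 440213)⟩⟩, [⟨nat_lit 4, nat_lit 100, nat_lit 74, nat_lit 77, nat_lit 221580441⟩]⟩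
noncomputable def p077_l91 : Lf2 := ⟨nat_lit 0, nat_lit 5, [nat_lit 4, nat_lit 5, nat_lit 5, nat_lit 20], true, nat_lit 160, nat_lit 232, nat_lit 0, nat_lit 360, ⟨nat_lit 0, nat_lit 0, nat_lit 1000, nat_lit 5, nat_lit 147, nat_lit 1000, nat_lit 136, nat_lit 1000, nat_lit 173400, nat_lit 317, nat_lit 135227, nat_lit 305, nat_lit 51523452, nat_lit 0, nat_lit 0, nat_lit 3742019, false, false⟩,
 nat_lit 0, nat_lit 3739, nat_lit 0, nat_lit 0, nat_lit 3026, nat_lit 0, nat_lit 0, nat_lit 0, nat_lit 0, nat_lit 0, nat_lit 0, nat_lit 0, nat_lit 0, nat_lit 0, nat_lit 186, nat_lit 1000000, nat_lit 0, nat_lit 0, [(nat_lit 21, [(nat_lit 6, nat_lit 1000)])],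
 ⟨p077_k23, nat_lit 0, nat_lit 0, nat_lit 352, nat_lit 0, nat_lit 858537, [nat_lit 2245600001, nat_lit 271999999], [], [nat_lit 17721654495, nat_lit 18860335268, nat_lit 19008902119, nat_lit 19994194423, nat_lit 19723100665, nat_lit 21204738992, nat_lit 20787937296, nat_lit 21671834239], nat_lit 1271250, nat_lit 1271250, nat_lit 330400, nat_lit 1100001, nat_lit 1100001, nat_lit 1716500, [nat_lit 490000, nat_lit 1100000], [nat_lit 24, nat_lit 40, nat_lit 40, nat_lit 80, nat_lit 33, nat_lit 249, nat_lit 40, nat_lit 10]⟩, C1.Rw.none,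
 ⟨nat_lit 3162, nat_lit 3873, ⟨.ofNat (nat_lit 267606), .ofNat (nat_lit 435446), .ofNat (nat_lit 289370), .ofNat (nat_lit 457211), .ofNat (nat_lit 280451), .ofNat (nat_lit 439014), .ofNat (nat_lit 302577), .ofNat (nat_lit 461140)⟩, ⟨.ofNat (nat_lit 261131), .ofNat (nat_lit 377270), .ofNat (nat_lit 304717), .ofNat (nat_lit 420856), .ofNat (nat_lit 261806), .ofNat (nat_lit 371522), .ofNat (nat_lit 306116), .ofNat (nat_lit 415832)⟩⟩, [⟨nat_lit 4, nat_lit 100, nat_lit 66, nat_lit 72, nat_lit 478951670⟩]⟩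
noncomputable def p077_l92 : Lf2 := ⟨nat_lit 0, nat_lit 5, [nat_lit 4, nat_lit 5, nat_lit 5, nat_lit 20], false, nat_lit 160, nat_lit 232, nat_lit 0, nat_lit 348, ⟨nat_lit 194, nat_lit 0, nat_lit 806, nat_lit 5, nat_lit 159, nat_lit 806, nat_lit 136, nat_lit 806, nat_lit 173400, nat_lit 317, nat_lit 62567, nat_lit 276, nat_lit 50477119, nat_lit 0, nat_lit 0, nat_lit 3891654, false, false⟩,
 nat_lit 0, nat_lit 4249, nat_lit 0, nat_lit 0, nat_lit 3439, nat_lit 1896, nat_lit 0, nat_lit 0, nat_lit 0, nat_lit 685, nat_lit 0, nat_lit 0, nat_lit 0, nat_lit 0, nat_lit 93, nat_lit 806000, nat_lit 0, nat_lit 0, [(nat_lit 21, [(nat_lit 6, nat_lit 806)])],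
 ⟨p077_k23, nat_lit 0, nat_lit 0, nat_lit 377, nat_lit 0, nat_lit 929585, [nat_lit 1748833601, nat_lit 187783999], [], [nat_lit 17854350998, nat_lit 19122338611, nat_lit 19000523175, nat_lit 20041035231, nat_lit 19877108068, nat_lit 21498323338, nat_lit 20799054761, nat_lit 21845527863], nat_lit 1271250, nat_lit 1271250, nat_lit 408851, nat_lit 1100001, nat_lit 1100001, nat_lit 1716500, [nat_lit 490000, nat_lit 1100000], [nat_lit 24, nat_lit 40, nat_lit 40, nat_lit 80, nat_lit 33, nat_lit 249, nat_lit 40, nat_lit 10]⟩, ⟨p077_k24, nat_lit 0, nat_lit 0, nat_lit 157, nat_lit 0, nat_lit 0, [nat_lit 1212500000, nat_lit 1909348000], [], [nat_lit 3918187183, nat_lit 4169268121, nat_lit 3743935516, nat_lit 3958536612, nat_lit 5057036493, nat_lit 5186271875, nat_lit 4568061357, nat_lit 4703619251], nat_lit 0, nat_lit 0, nat_lit 0, nat_lit 0, nat_lit 0, nat_lit 0, [], [nat_lit 51, nat_lit 40, nat_lit 40, nat_lit 80, nat_lit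 1, nat_lit 428, nat_lit 200, nat_lit 13]⟩,
 ⟨nat_lit 3162, nat_lit 3873, ⟨.ofNat (nat_lit 308736), .ofNat (nat_lit 457211), .ofNat (nat_lit 330501), .ofNat (nat_lit 478975), .ofNat (nat_lit 320873), .ofNat (nat_lit 461140), .ofNat (nat_lit 343000), .ofNat (nat_lit 483267)⟩, ⟨.ofNat (nat_lit 261131), .ofNat (nat_lit 377270), .ofNat (nat_lit 304717), .ofNat (nat_lit 420856), .ofNat (nat_lit 261806), .ofNat (nat_lit 371522), .ofNat (nat_lit 306116), .ofNat (nat_lit 415832)⟩⟩, [⟨nat_lit 0, nat_lit 100, nat_lit 67, nat_lit 85, nat_lit 183582279⟩, ⟨nat_lit 4, nat_lit 100, nat_lit 66, nat_lit 72, nat_lit 431087101⟩, ⟨nat_lit 19, nat_lit 100, nat_lit 81, nat_lit 72, nat_lit 66672636⟩]⟩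
noncomputable def p077_l93 : Lf2 := ⟨nat_lit 0, nat_lit 10, [nat_lit 0, nat_lit 5, nat_lit 5, nat_lit 20], true, nat_lit 160, nat_lit 232, nat_lit 0, nat_lit 360, ⟨nat_lit 0, nat_lit 0, nat_lit 1000, nat_lit 5, nat_lit 151, nat_lit 1000, nat_lit 136, nat_lit 1000, nat_lit 173400, nat_lit 317, nat_lit 62567, nat_lit 276, nat_lit 51159835, nat_lit 0, nat_lit 0, nat_lit 3795544, false, false⟩,
 nat_lit 0, nat_lit 3999, nat_lit 0, nat_lit 0, nat_lit 3237, nat_lit 0, nat_lit 0, nat_lit 0, nat_lit 0, nat_lit 0, nat_lit 0, nat_lit 0, nat_lit 0, nat_lit 0, nat_lit 89, nat_lit 400000, nat_lit 0, nat_lit 0, [(nat_lit 21, [(nat_lit 5, nat_lit 1000)])],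
 ⟨p077_k20, nat_lit 0, nat_lit 0, nat_lit 356, nat_lit 0, nat_lit 714189, [nat_lit 1689600000, nat_lit 358800000, nat_lit 187200000], [], [nat_lit 17716828034, nat_lit 19087410767, nat_lit 18974561686, nat_lit 20059774136, nat_lit 19861196259, nat_lit 21449958905, nat_lit 20865282156, nat_lit 21834218010], nat_lit 1271250, nat_lit 1271250, nat_lit 330400, nat_lit 1100001, nat_lit 1100001, nat_lit 1716500, [nat_lit 490000, nat_lit 1100000, nat_lit 1442500], [nat_lit 6, nat_lit 40, nat_lit 40, nat_lit 80, nat_lit 3, nat_lit 317, nat_lit 100, nat_lit 11]⟩, C1.Rw.none,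
 ⟨nat_lit 3162, nat_lit 3873, ⟨.ofNat (nat_lit 267606), .ofNat (nat_lit 435446), .ofNat (nat_lit 311135), .ofNat (nat_lit 478975), .ofNat (nat_lit 280451), .ofNat (nat_lit 439014), .ofNat (nat_lit 324704), .ofNat (nat_lit 483267)⟩, ⟨.ofNat (nat_lit 261131), .ofNat (nat_lit 377270), .ofNat (nat_lit 304717), .ofNat (nat_lit 420856), .ofNat (nat_lit 261806), .ofNat (nat_lit 371522), .ofNat (nat_lit 306116), .ofNat (nat_lit 415832)⟩⟩, [⟨nat_lit 4, nat_lit 100, nat_lit 66, nat_lit 72, nat_lit 540830876⟩]⟩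
noncomputable def p077_l94 : Lf2 := ⟨nat_lit 0, nat_lit 10, [nat_lit 0, nat_lit 5, nat_lit 5, nat_lit 20], false, nat_lit 160, nat_lit 260, nat_lit 0, nat_lit 360, ⟨nat_lit 311, nat_lit 0, nat_lit 689, nat_lit 5, nat_lit 209, nat_lit 689, nat_lit 146, nat_lit 689, nat_lit 89743, nat_lit 288, nat_lit 5958, nat_lit 209, nat_lit 45531234, nat_lit 0, nat_lit 0, nat_lit 4488714, false, false⟩,
 nat_lit 0, nat_lit 4900, nat_lit 0, nat_lit 0, nat_lit 3675, nat_lit 4397, nat_lit 0, nat_lit 0, nat_lit 0, nat_lit 583, nat_lit 0, nat_lit 0, nat_lit 0, nat_lit 0, nat_lit 38, nat_lit 689000, nat_lit 0, nat_lit 0, [(nat_lit 18, [(nat_lit 6, nat_lit 689)])],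
 ⟨p077_k17, nat_lit 0, nat_lit 0, nat_lit 325, nat_lit 0, nat_lit 767582, [nat_lit 1666108267, nat_lit 1211791734, nat_lit 16098800], [], [nat_lit 18355249436, nat_lit 18810580961, nat_lit 20198147269, nat_lit 20681744052, nat_lit 20919700527, nat_lit 21391466142, nat_lit 22821774510, nat_lit 23278804744], nat_lit 1271250, nat_lit 1271250, nat_lit 1100001, nat_lit 1785000, nat_lit 1100001, nat_lit 1956250, [nat_lit 490000, nat_lit 1100000, nat_lit 1442500], [nat_lit 6, nat_lit 40, nat_lit 40, nat_lit 80, nat_lit 3, nat_lit 345, nat_lit 125, nat_lit 12]⟩, ⟨p077_k18, nat_lit 0, nat_lit 0, nat_lit 194, nat_lit 0, nat_lit 0, [nat_lit 1943750000, nat_lit 3060862000, nat_lit 3692192000], [], [nat_lit 6993582056, nat_lit 7918788132, nat_lit 8255779760, nat_lit 9007994912, nat_lit 8552527378, nat_lit 8867393168, nat_lit 9022073212, nat_lit 9525225966], nat_lit 0, nat_lit 0, nat_lit 0, nat_lit 0, nat_lit 0, nat_lit 0, [],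 [nat_lit 46, nat_lit 40, nat_lit 40, nat_lit 80, nat_lit 41, nat_lit 456, nat_lit 225, nat_lit 12]⟩,
 ⟨nat_lit 4183, nat_lit 4473, ⟨.ofNat (nat_lit 432020), .ofNat (nat_lit 567977), .ofNat (nat_lit 475145), .ofNat (nat_lit 611104), .ofNat (nat_lit 433742), .ofNat (nat_lit 566254), .ofNat (nat_lit 477068), .ofNat (nat_lit 609582)⟩, ⟨.ofNat (nat_lit 259489), .ofNat (nat_lit 429434), .ofNat (nat_lit 302621), .ofNat (nat_lit 472567), .ofNat (nat_lit 260409), .ofNat (nat_lit 426048), .ofNat (nat_lit 303743), .ofNat (nat_lit 469382)⟩⟩, [⟨nat_lit 16, nat_lit 79, nat_lit 100, nat_lit 72, nat_lit 336568128⟩, ⟨nat_lit 7, nat_lit 77, nat_lit 100, nat_lit 72, nat_lit 99144906⟩]⟩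
noncomputable def p077_l95 : Lf2 := ⟨nat_lit 0, nat_lit 10, [nat_lit 0, nat_lit 5, nat_lit 5, nat_lit 20], false, nat_lit 160, nat_lit 244, nat_lit 0, nat_lit 360, ⟨nat_lit 464, nat_lit 0, nat_lit 536, nat_lit 5, nat_lit 209, nat_lit 536, nat_lit 140, nat_lit 536, nat_lit 183750, nat_lit 320, nat_lit 2777, nat_lit 209, nat_lit 45909650, nat_lit 0, nat_lit 0, nat_lit 4427336, false, false⟩,
 nat_lit 0, nat_lit 5234, nat_lit 0, nat_lit 0, nat_lit 4080, nat_lit 6554, nat_lit 801, nat_lit 0, nat_lit 0, nat_lit 555, nat_lit 0, nat_lit 0, nat_lit 0, nat_lit 0, nat_lit 0, nat_lit 214400, nat_lit 0, nat_lit 0, [(nat_lit 18, [(nat_lit 5, nat_lit 536)])],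
 ⟨p077_k21, nat_lit 0, nat_lit 0, nat_lit 349, nat_lit 0, nat_lit 820346, [nat_lit 1440684801, nat_lit 1953328000, nat_lit 2093212800], [], [nat_lit 18622108981, nat_lit 19052736101, nat_lit 20500953150, nat_lit 20978690750, nat_lit 20638261832, nat_lit 21112459506, nat_lit 22716319362, nat_lit 23380576037], nat_lit 1271250, nat_lit 1271250, nat_lit 1100001, nat_lit 1785000, nat_lit 1100001, nat_lit 1819250, [nat_lit 490000, nat_lit 1100000, nat_lit 1442500], [nat_lit 6, nat_lit 40, nat_lit 40, nat_lit 80, nat_lit 3, nat_lit 345, nat_lit 125, nat_lit 12]⟩, ⟨p077_k18, nat_lit 0, nat_lit 0, nat_lit 194, nat_lit 0, nat_lit 0, [nat_lit 2900000000, nat_lit 4566688000, nat_lit 5508608000], [], [nat_lit 11693119344, nat_lit 13072718248, nat_lit 13575486144, nat_lit 14615520104, nat_lit 12917865788, nat_lit 13226154932, nat_lit 13457152924, nat_lit 14207596944], nat_lit 0, nat_lit 0, nat_lit 0, nat_lit 0, nat_lit 0, nat_lit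 0, [], [nat_lit 46, nat_lit 40, nat_lit 40, nat_lit 80, nat_lit 41, nat_lit 456, nat_lit 225, nat_lit 12]⟩,
 ⟨nat_lit 3872, nat_lit 4184, ⟨.ofNat (nat_lit 433741), .ofNat (nat_lit 566254), .ofNat (nat_lit 477065), .ofNat (nat_lit 609582), .ofNat (nat_lit 435475), .ofNat (nat_lit 564520), .ofNat (nat_lit 479052), .ofNat (nat_lit 608101)⟩, ⟨.ofNat (nat_lit 260409), .ofNat (nat_lit 399546), .ofNat (nat_lit 303743), .ofNat (nat_lit 442879), .ofNat (nat_lit 261131), .ofNat (nat_lit 396626), .ofNat (nat_lit 304717), .ofNat (nat_lit 440213)⟩⟩, [⟨nat_lit 4, nat_lit 100, nat_lit 74, nat_lit 72, nat_lit 398897980⟩, ⟨nat_lit 7, nat_lit 77, nat_lit 100, nat_lit 72, nat_lit 128772872⟩]⟩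
noncomputable def p077_l96 : Lf2 := ⟨nat_lit 0, nat_lit 10, [nat_lit 0, nat_lit 5, nat_lit 5, nat_lit 20], false, nat_lit 160, nat_lit 232, nat_lit 0, nat_lit 360, ⟨nat_lit 565, nat_lit 0, nat_lit 435, nat_lit 5, nat_lit 209, nat_lit 435, nat_lit 136, nat_lit 435, nat_lit 173400, nat_lit 317, nat_lit 5723, nat_lit 210, nat_lit 46200216, nat_lit 0, nat_lit 0, nat_lit 4378127, false, false⟩,
 nat_lit 0, nat_lit 5101, nat_lit 0, nat_lit 0, nat_lit 4129, nat_lit 7975, nat_lit 299, nat_lit 0, nat_lit 0, nat_lit 686, nat_lit 0, nat_lit 0, nat_lit 0, nat_lit 0, nat_lit 0, nat_lit 435000, nat_lit 0, nat_lit 0, [(nat_lit 21, [(nat_lit 6, nat_lit 435)])],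
 ⟨p077_k20, nat_lit 0, nat_lit 0, nat_lit 421, nat_lit 0, nat_lit 960176, [nat_lit 1477636001, nat_lit 1472480001, nat_lit 1696246000], [], [nat_lit 19580105649, nat_lit 20540786895, nat_lit 21439325563, nat_lit 22487233940, nat_lit 21235869533, nat_lit 22242214035, nat_lit 22994128297, nat_lit 24363630372], nat_lit 1271250, nat_lit 1271250, nat_lit 1100001, nat_lit 1785000, nat_lit 1100001, nat_lit 1716500, [nat_lit 490000, nat_lit 1100000, nat_lit 1442500], [nat_lit 6, nat_lit 40, nat_lit 40, nat_lit 80, nat_lit 3, nat_lit 345, nat_lit 125, nat_lit 12]⟩, ⟨p077_k18, nat_lit 0, nat_lit 0, nat_lit 194, nat_lit 0, nat_lit 0, [nat_lit 3531250000, nat_lit 5560730000, nat_lit 6707680000], [], [nat_lit 14197357240, nat_lit 15876550380, nat_lit 16488747280, nat_lit 17754721700, nat_lit 15691102370, nat_lit 16107856050, nat_lit 16383266900, nat_lit 17296842090], nat_lit 0, nat_lit 0, nat_lit 0, nat_lit 0, nat_lit 0, nat_lit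 0, [], [nat_lit 46, nat_lit 40, nat_lit 40, nat_lit 80, nat_lit 41, nat_lit 456, nat_lit 225, nat_lit 12]⟩,
 ⟨nat_lit 3162, nat_lit 3873, ⟨.ofNat (nat_lit 435446), .ofNat (nat_lit 564520), .ofNat (nat_lit 478975), .ofNat (nat_lit 608082), .ofNat (nat_lit 439014), .ofNat (nat_lit 560952), .ofNat (nat_lit 483267), .ofNat (nat_lit 605237)⟩, ⟨.ofNat (nat_lit 261131), .ofNat (nat_lit 377270), .ofNat (nat_lit 304717), .ofNat (nat_lit 420856), .ofNat (nat_lit 261806), .ofNat (nat_lit 371522), .ofNat (nat_lit 306116), .ofNat (nat_lit 415832)⟩⟩, [⟨nat_lit 4, nat_lit 100, nat_lit 66, nat_lit 72, nat_lit 490856855⟩, ⟨nat_lit 19, nat_lit 100, nat_lit 60, nat_lit 80, nat_lit 113382183⟩, ⟨nat_lit 7, nat_lit 77, nat_lit 100, nat_lit 72, nat_lit 31590194⟩]⟩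
noncomputable def b_V_800_500_10_2 : St := ⟨true, nat_lit 1, nat_lit 0, nat_lit 1, nat_lit 80, nat_lit 320, nat_lit 360, nat_lit 200, nat_lit 240, nat_lit 40, nat_lit 240, nat_lit 40, nat_lit 80, nat_lit 160, nat_lit 260, nat_lit 0, nat_lit 360, nat_lit 0, nat_lit 40, nat_lit 0, nat_lit 0, nat_lit 0, nat_lit 0⟩
theorem d_V_800_500_10_2 (h : EB TB.env) : Dead b_V_800_500_10_2 := chkB_sound0 h (T :=
(.spl (nat_lit 2) (nat_lit 160)
(.spl (nat_lit 0) (nat_lit 340)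
(.spl (nat_lit 2) (nat_lit 80)
(.leaf p077_l85)
(.spl (nat_lit 3) (nat_lit 60)
(.trX (nat_lit 16) (nat_lit 81) (nat_lit 100) (nat_lit 72) (nat_lit 232) (.trX (nat_lit 19) (nat_lit 100) (nat_lit 70) (nat_lit 71) (nat_lit 344) (.spl (nat_lit 0) (nat_lit 330)
(.leaf p077_l86)
(.trX (nat_lit 16) (nat_lit 76) (nat_lit 100) (nat_lit 72) (nat_lit 220) (.spl (nat_lit 1) (nat_lit 220)
(.leaf p077_l87)
(.trX (nat_lit 19) (nat_lit 100) (nat_lit 77) (nat_lit 72) (nat_lit 332) (.leaf p077_l88)))))))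
(.spl (nat_lit 0) (nat_lit 330)
(.leaf p077_l89)
(.trX (nat_lit 16) (nat_lit 78) (nat_lit 100) (nat_lit 82) (nat_lit 244) (.leaf p077_l90)))))
(.trZ (nat_lit 0) (nat_lit 100) (nat_lit 71) (nat_lit 70) (nat_lit 56) (.trX (nat_lit 16) (nat_lit 72) (nat_lit 100) (nat_lit 81) (nat_lit 232) (.spl (nat_lit 6) (nat_lit 20)
(.spl (nat_lit 1) (nat_lit 220)
(.leaf p077_l91)
(.trZ (nat_lit 0) (nat_lit 100) (nat_lit 72) (nat_lit 77) (nat_lit 68) (.trX (nat_lit 19) (nat_lit 100) (nat_lit 68) (nat_lit 80) (nat_lit 348) (.leaf p077_l92))))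
(.leaf p077_l93)))))
(.spl (nat_lit 0) (nat_lit 340)
(.spl (nat_lit 0) (nat_lit 330)
(.leaf p077_l94)
(.trX (nat_lit 16) (nat_lit 78) (nat_lit 100) (nat_lit 82) (nat_lit 244) (.leaf p077_l95)))
(.trX (nat_lit 16) (nat_lit 72) (nat_lit 100) (nat_lit 81) (nat_lit 232) (.leaf p077_l96))))) (by decide +kernel)
noncomputable def p077_l97 : Lf2 := ⟨nat_lit 0, nat_lit 10, [nat_lit 0, nat_lit 5, nat_lit 5, nat_lit 20], false, nat_lit 0, nat_lit 260, nat_lit 0, nat_lit 160, ⟨nat_lit 1000, nat_lit 0, nat_lit 0, nat_lit 0, nat_lit 0, nat_lit 0, nat_lit 0, nat_lit 0, nat_lit 0, nat_lit 0, nat_lit 0, nat_lit 0, nat_lit 0, nat_lit 0, nat_lit 0, nat_lit 0, false, false⟩,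
 nat_lit 0, nat_lit 8001, nat_lit 0, nat_lit 0, nat_lit 6000, nat_lit 7747, nat_lit 444, nat_lit 0, nat_lit 0, nat_lit 2010, nat_lit 0, nat_lit 0, nat_lit 0, nat_lit 0, nat_lit 0, nat_lit 0, nat_lit 0, nat_lit 0, [],
 ⟨p077_k17, nat_lit 0, nat_lit 0, nat_lit 463, nat_lit 0, nat_lit 864090, [nat_lit 2032000001, nat_lit 4688000000, nat_lit 6250000000], [], [nat_lit 32539996000, nat_lit 33372894000, nat_lit 37279060800, nat_lit 37944057200, nat_lit 31246185000, nat_lit 31907367000, nat_lit 34806073600, nat_lit 35266737201], nat_lit 1271250, nat_lit 1271250, nat_lit 1271250, nat_lit 1271250, nat_lit 0, nat_lit 1836250, [nat_lit 490000, nat_lit 1100000, nat_lit 1442500], [nat_lit 6, nat_lit 40, nat_lit 40, nat_lit 80, nat_lit 3, nat_lit 289, nat_lit 75, nat_lit 10]⟩, ⟨p077_k18, nat_lit 0, nat_lit 0, nat_lit 263, nat_lit 0, nat_lit 0, [nat_lit 6250000000, nat_lit 9842000000, nat_lit 11872000000], [], [nat_lit 29445722308,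 nat_lit 31030729644, nat_lit 39730499582, nat_lit 40681783512, nat_lit 25120528832, nat_lit 26412843500, nat_lit 33296204951, nat_lit 33876631372], nat_lit 0, nat_lit 0, nat_lit 0, nat_lit 0, nat_lit 0, nat_lit 0, [], [nat_lit 46, nat_lit 40, nat_lit 40, nat_lit 80, nat_lit 41, nat_lit 428, nat_lit 200, nat_lit 11]⟩,
 zbF0, [⟨nat_lit 4, nat_lit 100, nat_lit 76, nat_lit 72, nat_lit 218158112⟩]⟩
noncomputable def p077_l98 : Lf2 := ⟨nat_lit 0, nat_lit 10, [nat_lit 0, nat_lit 5, nat_lit 5, nat_lit 20], false, nat_lit 0, nat_lit 232, nat_lit 0, nat_lit 160, ⟨nat_lit 1000, nat_lit 0, nat_lit 0, nat_lit 0, nat_lit 0, nat_lit 0, nat_lit 0, nat_lit 0, nat_lit 0, nat_lit 0, nat_lit 0, nat_lit 0, nat_lit 0, nat_lit 0, nat_lit 0, nat_lit 0, false, false⟩,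
 nat_lit 0, nat_lit 6009, nat_lit 0, nat_lit 0, nat_lit 4864, nat_lit 8136, nat_lit 631, nat_lit 0, nat_lit 0, nat_lit 1088, nat_lit 0, nat_lit 0, nat_lit 0, nat_lit 0, nat_lit 0, nat_lit 0, nat_lit 0, nat_lit 0, [],
 ⟨p077_k20, nat_lit 0, nat_lit 0, nat_lit 504, nat_lit 0, nat_lit 960176, [nat_lit 2032000001, nat_lit 4688000000, nat_lit 6250000000], [], [nat_lit 27948633927, nat_lit 28793367047, nat_lit 33492555671, nat_lit 34870641824, nat_lit 28059451572, nat_lit 28733035506, nat_lit 31207758855, nat_lit 31722200375], nat_lit 1271250, nat_lit 1271250, nat_lit 1271250, nat_lit 1271250, nat_lit 0, nat_lit 1638500, [nat_lit 490000, nat_lit 1100000, nat_lit 1442500], [nat_lit 6, nat_lit 40, nat_lit 40, nat_lit 80, nat_lit 3, nat_lit 272, nat_lit 60, nat_lit 9]⟩, ⟨p077_k18, nat_lit 0, nat_lit 0, nat_lit 254, nat_lit 0, nat_lit 0, [nat_lit 6250000000, nat_lit 9842000000, nat_lit 11872000000], [], [nat_lit 29715409408,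 nat_lit 31047957472, nat_lit 38611251437, nat_lit 39458566029, nat_lit 24494010336, nat_lit 25609364000, nat_lit 31573958023, nat_lit 32226669428], nat_lit 0, nat_lit 0, nat_lit 0, nat_lit 0, nat_lit 0, nat_lit 0, [], [nat_lit 46, nat_lit 40, nat_lit 40, nat_lit 80, nat_lit 41, nat_lit 428, nat_lit 200, nat_lit 11]⟩,
 zbF0, [⟨nat_lit 4, nat_lit 100, nat_lit 66, nat_lit 72, nat_lit 197855045⟩, ⟨nat_lit 9, nat_lit 100, nat_lit 94, nat_lit 12, nat_lit 17753034⟩]⟩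
noncomputable def p077_l99 : Lf2 := ⟨nat_lit 0, nat_lit 10, [nat_lit 0, nat_lit 5, nat_lit 5, nat_lit 20], false, nat_lit 0, nat_lit 260, nat_lit 160, nat_lit 360, ⟨nat_lit 1000, nat_lit 0, nat_lit 0, nat_lit 0, nat_lit 0, nat_lit 0, nat_lit 0, nat_lit 0, nat_lit 0, nat_lit 0, nat_lit 0, nat_lit 0, nat_lit 0, nat_lit 0, nat_lit 0, nat_lit 0, false, false⟩,
 nat_lit 0, nat_lit 8130, nat_lit 0, nat_lit 0, nat_lit 6097, nat_lit 8183, nat_lit 437, nat_lit 0, nat_lit 0, nat_lit 0, nat_lit 0, nat_lit 0, nat_lit 0, nat_lit 0, nat_lit 0, nat_lit 0, nat_lit 0, nat_lit 0, [],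
 ⟨p077_k17, nat_lit 0, nat_lit 0, nat_lit 430, nat_lit 0, nat_lit 767582, [nat_lit 2032000001, nat_lit 4688000000, nat_lit 6250000000], [], [nat_lit 32237330740, nat_lit 32656673929, nat_lit 36961804996, nat_lit 37478158587, nat_lit 30833003101, nat_lit 31145024574, nat_lit 34383416839, nat_lit 34614313950], nat_lit 1271250, nat_lit 1271250, nat_lit 1271250, nat_lit 1271250, nat_lit 0, nat_lit 1836250, [nat_lit 490000, nat_lit 1100000, nat_lit 1442500], [nat_lit 6, nat_lit 40, nat_lit 40, nat_lit 80, nat_lit 3, nat_lit 289, nat_lit 75, nat_lit 10]⟩, ⟨p077_k18, nat_lit 0, nat_lit 0, nat_lit 116, nat_lit 0, nat_lit 0, [nat_lit 6250000000, nat_lit 9842000000, nat_lit 11872000000], [], [nat_lit 12795600260, nat_lit 15154720540, nat_lit 26381742308, nat_lit 27864734809, nat_lit 25688917620, nat_lit 27073873080, nat_lit 35614423029, nat_lit 36098098128], nat_lit 0, nat_lit 0, nat_lit 0, nat_lit 0, nat_lit 0, nat_lit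 0, [], [nat_lit 46, nat_lit 40, nat_lit 40, nat_lit 80, nat_lit 41, nat_lit 483, nat_lit 250, nat_lit 12]⟩,
 zbF0, [⟨nat_lit 16, nat_lit 79, nat_lit 100, nat_lit 72, nat_lit 214364693⟩, ⟨nat_lit 7, nat_lit 77, nat_lit 100, nat_lit 72, nat_lit 645929019⟩]⟩
noncomputable def p077_l100 : Lf2 := ⟨nat_lit 0, nat_lit 10, [nat_lit 0, nat_lit 5, nat_lit 5, nat_lit 20], false, nat_lit 0, nat_lit 244, nat_lit 160, nat_lit 360, ⟨nat_lit 1000, nat_lit 0, nat_lit 0, nat_lit 0, nat_lit 0, nat_lit 0, nat_lit 0, nat_lit 0, nat_lit 0, nat_lit 0, nat_lit 0, nat_lit 0, nat_lit 0, nat_lit 0, nat_lit 0, nat_lit 0, false, false⟩,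
 nat_lit 0, nat_lit 6641, nat_lit 0, nat_lit 0, nat_lit 5176, nat_lit 6757, nat_lit 1788, nat_lit 0, nat_lit 0, nat_lit 0, nat_lit 0, nat_lit 0, nat_lit 0, nat_lit 0, nat_lit 0, nat_lit 0, nat_lit 0, nat_lit 0, [],
 ⟨p077_k21, nat_lit 0, nat_lit 0, nat_lit 447, nat_lit 0, nat_lit 820346, [nat_lit 2032000001, nat_lit 4688000000, nat_lit 6250000000], [], [nat_lit 24670472035, nat_lit 25283903344, nat_lit 34294134837, nat_lit 34985127812, nat_lit 24441640861, nat_lit 24756891523, nat_lit 30493103836, nat_lit 31011274649], nat_lit 1271250, nat_lit 1271250, nat_lit 1271250, nat_lit 1271250, nat_lit 0, nat_lit 1723250, [nat_lit 490000, nat_lit 1100000, nat_lit 1442500], [nat_lit 6, nat_lit 40, nat_lit 40, nat_lit 80, nat_lit 3, nat_lit 289, nat_lit 75, nat_lit 10]⟩, ⟨p077_k18, nat_lit 0, nat_lit 0, nat_lit 113, nat_lit 0, nat_lit 0, [nat_lit 6250000000, nat_lit 9842000000, nat_lit 11872000000], [], [nat_lit 14974214540,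 nat_lit 17126336660, nat_lit 26150728972, nat_lit 27330772443, nat_lit 26638433980, nat_lit 27670295832, nat_lit 33239171560, nat_lit 33844502694], nat_lit 0, nat_lit 0, nat_lit 0, nat_lit 0, nat_lit 0, nat_lit 0, [], [nat_lit 46, nat_lit 40, nat_lit 40, nat_lit 80, nat_lit 41, nat_lit 483, nat_lit 250, nat_lit 12]⟩,
 zbF0, [⟨nat_lit 4, nat_lit 100, nat_lit 74, nat_lit 72, nat_lit 160524954⟩, ⟨nat_lit 19, nat_lit 100, nat_lit 60, nat_lit 80, nat_lit 208722195⟩, ⟨nat_lit 7, nat_lit 77, nat_lit 100, nat_lit 72, nat_lit 339561423⟩]⟩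
noncomputable def p077_l101 : Lf2 := ⟨nat_lit 0, nat_lit 10, [nat_lit 0, nat_lit 5, nat_lit 5, nat_lit 20], false, nat_lit 0, nat_lit 232, nat_lit 160, nat_lit 360, ⟨nat_lit 1000, nat_lit 0, nat_lit 0, nat_lit 0, nat_lit 0, nat_lit 0, nat_lit 0, nat_lit 0, nat_lit 0, nat_lit 0, nat_lit 0, nat_lit 0, nat_lit 0, nat_lit 0, nat_lit 0, nat_lit 0, false, false⟩,
 nat_lit 0, nat_lit 5983, nat_lit 0, nat_lit 0, nat_lit 4843, nat_lit 7482, nat_lit 1138, nat_lit 0, nat_lit 0, nat_lit 0, nat_lit 0, nat_lit 0, nat_lit 0, nat_lit 0, nat_lit 0, nat_lit 0, nat_lit 0, nat_lit 0, [],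
 ⟨p077_k20, nat_lit 0, nat_lit 0, nat_lit 504, nat_lit 0, nat_lit 960176, [nat_lit 2032000001, nat_lit 4688000000, nat_lit 6250000000], [], [nat_lit 25406242161, nat_lit 26715813644, nat_lit 33437619805, nat_lit 34812687788, nat_lit 25677869560, nat_lit 26421919593, nat_lit 29923486162, nat_lit 30981270516], nat_lit 1271250, nat_lit 1271250, nat_lit 1271250, nat_lit 1271250, nat_lit 0, nat_lit 1638500, [nat_lit 490000, nat_lit 1100000, nat_lit 1442500], [nat_lit 6, nat_lit 40, nat_lit 40, nat_lit 80, nat_lit 3, nat_lit 272, nat_lit 60, nat_lit 9]⟩, ⟨p077_k18, nat_lit 0, nat_lit 0, nat_lit 109, nat_lit 0, nat_lit 0, [nat_lit 6250000000, nat_lit 9842000000, nat_lit 11872000000], [], [nat_lit 13866574040, nat_lit 16123937160, nat_lit 24959190706, nat_lit 26221889340, nat_lit 26155685480, nat_lit 27194678432, nat_lit 33463520232, nat_lit 34083919737], nat_lit 0, nat_lit 0, nat_lit 0, nat_lit 0, nat_lit 0, nat_lit 0,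 [], [nat_lit 46, nat_lit 40, nat_lit 40, nat_lit 80, nat_lit 41, nat_lit 483, nat_lit 250, nat_lit 12]⟩,
 zbF0, [⟨nat_lit 4, nat_lit 100, nat_lit 66, nat_lit 72, nat_lit 171403137⟩, ⟨nat_lit 19, nat_lit 100, nat_lit 60, nat_lit 80, nat_lit 558611595⟩]⟩
noncomputable def b_V_800_500_10_3 : St := ⟨true, nat_lit 1, nat_lit 0, nat_lit 1, nat_lit 80, nat_lit 320, nat_lit 360, nat_lit 200, nat_lit 240, nat_lit 240, nat_lit 384, nat_lit 40, nat_lit 80, nat_lit 0, nat_lit 260, nat_lit 0, nat_lit 360, nat_lit 0, nat_lit 40, nat_lit 0, nat_lit 0, nat_lit 0, nat_lit 0⟩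
theorem d_V_800_500_10_3 (h : EB TB.env) : Dead b_V_800_500_10_3 := chkB_sound0 h (T :=
(.spl (nat_lit 5) (nat_lit 160)
(.spl (nat_lit 0) (nat_lit 340)
(.leaf p077_l97)
(.trX (nat_lit 13) (nat_lit 73) (nat_lit 55) (nat_lit 100) (nat_lit 368) (.trX (nat_lit 16) (nat_lit 72) (nat_lit 100) (nat_lit 81) (nat_lit 232) (.leaf p077_l98))))
(.spl (nat_lit 0) (nat_lit 340)
(.spl (nat_lit 0) (nat_lit 330)
(.leaf p077_l99)
(.trX (nat_lit 13) (nat_lit 78) (nat_lit 49) (nat_lit 100) (nat_lit 376) (.trX (nat_lit 16) (nat_lit 78) (nat_lit 100) (nat_lit 82) (nat_lit 244) (.leaf p077_l100))))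
(.trX (nat_lit 13) (nat_lit 73) (nat_lit 55) (nat_lit 100) (nat_lit 368) (.trX (nat_lit 16) (nat_lit 72) (nat_lit 100) (nat_lit 81) (nat_lit 232) (.leaf p077_l101)))))) (by decide +kernel)
noncomputable def p077_l102 : Lf2 := ⟨nat_lit 0, nat_lit 10, [nat_lit 0, nat_lit 5, nat_lit 5, nat_lit 20], false, nat_lit 0, nat_lit 160, nat_lit 0, nat_lit 360, ⟨nat_lit 0, nat_lit 0, nat_lit 1000, nat_lit 5, nat_lit 142, nat_lit 1000, nat_lit 56, nat_lit 1000, nat_lit 29400, nat_lit 257, nat_lit 70417, nat_lit 280, nat_lit 59463143, nat_lit 0, nat_lit 0, nat_lit 1758450, false, false⟩,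
 nat_lit 0, nat_lit 3688, nat_lit 0, nat_lit 0, nat_lit 2765, nat_lit 0, nat_lit 264, nat_lit 0, nat_lit 0, nat_lit 0, nat_lit 0, nat_lit 0, nat_lit 0, nat_lit 0, nat_lit 76, nat_lit 400000, nat_lit 0, nat_lit 0, [(nat_lit 18, [(nat_lit 5, nat_lit 1000)])],
 ⟨p077_k17, nat_lit 0, nat_lit 0, nat_lit 369, nat_lit 0, nat_lit 527432, [nat_lit 1536800000, nat_lit 802000001, nat_lit 14800000], [], [nat_lit 16601995382, nat_lit 18192406170, nat_lit 18133242741, nat_lit 19267847770, nat_lit 17856758581, nat_lit 18962549590, nat_lit 19419494420, nat_lit 20434921670], nat_lit 1271250, nat_lit 1271250, nat_lit 230001, nat_lit 1100001, nat_lit 0, nat_lit 1100001, [nat_lit 490000, nat_lit 1100000, nat_lit 1442500], [nat_lit 6, nat_lit 40, nat_lit 40, nat_lit 80, nat_lit 3, nat_lit 317, nat_lit 100, nat_lit 12]⟩, ⟨p077_k18, nat_lit 0, nat_lit 0, nat_lit 864, nat_lit 0, nat_lit 1059351, [nat_lit 0, nat_lit 0, nat_lit 0], [],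 [nat_lit 0, nat_lit 0, nat_lit 0, nat_lit 0, nat_lit 0, nat_lit 0, nat_lit 0, nat_lit 0], nat_lit 1271250, nat_lit 1271250, nat_lit 230001, nat_lit 1100001, nat_lit 0, nat_lit 2542500, [nat_lit 1412500, nat_lit 1271250, nat_lit 1271250], [nat_lit 46, nat_lit 40, nat_lit 40, nat_lit 80, nat_lit 41, nat_lit 428, nat_lit 200, nat_lit 11]⟩,
 ⟨nat_lit 3872, nat_lit 4473, ⟨.ofNat (nat_lit 228056), .ofNat (nat_lit 432013), .ofNat (nat_lit 271153), .ofNat (nat_lit 475111), .ofNat (nat_lit 241882), .ofNat (nat_lit 435470), .ofNat (nat_lit 285433), .ofNat (nat_lit 479021)⟩, ⟨.negSucc (nat_lit 12427), .ofNat (nat_lit 259489), .ofNat (nat_lit 0), .ofNat (nat_lit 302621), .ofNat (nat_lit 0), .ofNat (nat_lit 261131), .ofNat (nat_lit 0), .ofNat (nat_lit 304717)⟩⟩, []⟩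
noncomputable def p077_l103 : Lf2 := ⟨nat_lit 0, nat_lit 10, [nat_lit 0, nat_lit 5, nat_lit 5, nat_lit 20], false, nat_lit 0, nat_lit 160, nat_lit 0, nat_lit 360, ⟨nat_lit 0, nat_lit 0, nat_lit 1000, nat_lit 5, nat_lit 151, nat_lit 1000, nat_lit 57, nat_lit 1000, nat_lit 30817, nat_lit 258, nat_lit 62567, nat_lit 276, nat_lit 58640108, nat_lit 0, nat_lit 0, nat_lit 1881653, false, false⟩,
 nat_lit 0, nat_lit 3329, nat_lit 0, nat_lit 0, nat_lit 2694, nat_lit 0, nat_lit 0, nat_lit 0, nat_lit 0, nat_lit 0, nat_lit 0, nat_lit 0, nat_lit 0, nat_lit 0, nat_lit 134, nat_lit 586600, nat_lit 0, nat_lit 0, [(nat_lit 21, [(nat_lit 5, nat_lit 689), (nat_lit 6, nat_lit 311)])],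
 ⟨p077_k20, nat_lit 0, nat_lit 0, nat_lit 408, nat_lit 0, nat_lit 593084, [nat_lit 1981180001, nat_lit 569133201, nat_lit 270638400], [], [nat_lit 17801920255, nat_lit 19681691168, nat_lit 19364745298, nat_lit 20549330550, nat_lit 19173064065, nat_lit 20306673869, nat_lit 20580918538, nat_lit 21585848438], nat_lit 1271250, nat_lit 1271250, nat_lit 330400, nat_lit 1100001, nat_lit 0, nat_lit 1100001, [nat_lit 490000, nat_lit 1100000, nat_lit 1442500], [nat_lit 6, nat_lit 40, nat_lit 40, nat_lit 80, nat_lit 3, nat_lit 317, nat_lit 100, nat_lit 12]⟩, ⟨p077_k18, nat_lit 0, nat_lit 0, nat_lit 969, nat_lit 0, nat_lit 1304018, [nat_lit 0, nat_lit 0, nat_lit 0], [], [nat_lit 0, nat_lit 0, nat_lit 0, nat_lit 0, nat_lit 0, nat_lit 0, nat_lit 0, nat_lit 0], nat_lit 1271250, nat_lit 1271250, nat_lit 330400, nat_lit 1100001, nat_lit 0, nat_lit 2542500, [nat_lit 1412500, nat_lit 1271250, nat_lit 1271250], [nat_lit 46, nat_lit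 40, nat_lit 40, nat_lit 80, nat_lit 41, nat_lit 428, nat_lit 200, nat_lit 11]⟩,
 ⟨nat_lit 3162, nat_lit 3873, ⟨.ofNat (nat_lit 267606), .ofNat (nat_lit 435446), .ofNat (nat_lit 311135), .ofNat (nat_lit 478975), .ofNat (nat_lit 280451), .ofNat (nat_lit 439014), .ofNat (nat_lit 324704), .ofNat (nat_lit 483267)⟩, ⟨.ofNat (nat_lit 0), .ofNat (nat_lit 261131), .ofNat (nat_lit 0), .ofNat (nat_lit 304717), .ofNat (nat_lit 0), .ofNat (nat_lit 261806), .ofNat (nat_lit 0), .ofNat (nat_lit 306116)⟩⟩, []⟩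
noncomputable def p077_l104 : Lf2 := ⟨nat_lit 0, nat_lit 10, [nat_lit 0, nat_lit 5, nat_lit 5, nat_lit 20], false, nat_lit 0, nat_lit 160, nat_lit 0, nat_lit 160, ⟨nat_lit 148, nat_lit 0, nat_lit 852, nat_lit 5, nat_lit 209, nat_lit 852, nat_lit 56, nat_lit 852, nat_lit 29400, nat_lit 257, nat_lit 5914, nat_lit 209, nat_lit 52667635, nat_lit 0, nat_lit 0, nat_lit 2595493, false, false⟩,
 nat_lit 4129, nat_lit 0, nat_lit 0, nat_lit 0, nat_lit 3096, nat_lit 1769, nat_lit 0, nat_lit 0, nat_lit 0, nat_lit 111, nat_lit 0, nat_lit 0, nat_lit 0, nat_lit 0, nat_lit 38, nat_lit 438600, nat_lit 0, nat_lit 0, [(nat_lit 18, [(nat_lit 5, nat_lit 689), (nat_lit 6, nat_lit 163)])],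
 ⟨p077_k17, nat_lit 0, nat_lit 0, nat_lit 323, nat_lit 0, nat_lit 527432, [nat_lit 1417415734, nat_lit 814501467, nat_lit 12086800], [], [nat_lit 20652550503, nat_lit 19223116904, nat_lit 20351226808, nat_lit 21699243824, nat_lit 18855398008, nat_lit 19791583288, nat_lit 21493904467, nat_lit 21702369811], nat_lit 1271250, nat_lit 1271250, nat_lit 1100001, nat_lit 1785000, nat_lit 0, nat_lit 1100001, [nat_lit 490000, nat_lit 1100000, nat_lit 1442500], [nat_lit 6, nat_lit 40, nat_lit 40, nat_lit 80, nat_lit 3, nat_lit 317, nat_lit 100, nat_lit 12]⟩, ⟨p077_k18, nat_lit 0, nat_lit 0, nat_lit 784, nat_lit 0, nat_lit 1059351, [nat_lit 925000000, nat_lit 1456616000, nat_lit 1757056000], [], [nat_lit 5634999692, nat_lit 5545155252, nat_lit 5475677244, nat_lit 5488884160, nat_lit 4684686960, nat_lit 4239121620, nat_lit 6485657252, nat_lit 4795597108], nat_lit 1271250, nat_lit 1271250, nat_lit 1100001, nat_lit 1785000, nat_lit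 0, nat_lit 1100001, [nat_lit 1412500, nat_lit 1271250, nat_lit 1271250], [nat_lit 46, nat_lit 40, nat_lit 40, nat_lit 80, nat_lit 41, nat_lit 401, nat_lit 175, nat_lit 10]⟩,
 ⟨nat_lit 3872, nat_lit 4473, ⟨.ofNat (nat_lit 432013), .ofNat (nat_lit 567977), .ofNat (nat_lit 475111), .ofNat (nat_lit 611083), .ofNat (nat_lit 435470), .ofNat (nat_lit 564520), .ofNat (nat_lit 479021), .ofNat (nat_lit 608080)⟩, ⟨.negSucc (nat_lit 12427), .ofNat (nat_lit 259489), .ofNat (nat_lit 0), .ofNat (nat_lit 302621), .ofNat (nat_lit 0), .ofNat (nat_lit 261131), .ofNat (nat_lit 0), .ofNat (nat_lit 304717)⟩⟩, []⟩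
noncomputable def p077_l105 : Lf2 := ⟨nat_lit 0, nat_lit 10, [nat_lit 0, nat_lit 5, nat_lit 5, nat_lit 20], false, nat_lit 0, nat_lit 160, nat_lit 0, nat_lit 160, ⟨nat_lit 146, nat_lit 0, nat_lit 854, nat_lit 5, nat_lit 209, nat_lit 854, nat_lit 57, nat_lit 854, nat_lit 30817, nat_lit 258, nat_lit 5723, nat_lit 210, nat_lit 52655659, nat_lit 0, nat_lit 0, nat_lit 2596656, false, false⟩,
 nat_lit 3687, nat_lit 0, nat_lit 0, nat_lit 0, nat_lit 2984, nat_lit 1580, nat_lit 0, nat_lit 0, nat_lit 0, nat_lit 78, nat_lit 0, nat_lit 0, nat_lit 0, nat_lit 0, nat_lit 115, nat_lit 685400, nat_lit 0, nat_lit 0, [(nat_lit 21, [(nat_lit 5, nat_lit 281), (nat_lit 6, nat_lit 573)])],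
 ⟨p077_k20, nat_lit 0, nat_lit 0, nat_lit 355, nat_lit 0, nat_lit 593084, [nat_lit 1925482400, nat_lit 675734801, nat_lit 347780000], [], [nat_lit 19065952912, nat_lit 20487582240, nat_lit 21506223696, nat_lit 23053011072, nat_lit 20081579552, nat_lit 21129385952, nat_lit 22165098656, nat_lit 23090720480], nat_lit 1271250, nat_lit 1271250, nat_lit 1100001, nat_lit 1785000, nat_lit 0, nat_lit 1100001, [nat_lit 490000, nat_lit 1100000, nat_lit 1442500], [nat_lit 6, nat_lit 40, nat_lit 40, nat_lit 80, nat_lit 3, nat_lit 317, nat_lit 100, nat_lit 12]⟩, ⟨p077_k18, nat_lit 0, nat_lit 0, nat_lit 900, nat_lit 0, nat_lit 1304018, [nat_lit 912500000, nat_lit 1436932000, nat_lit 1733312000], [], [nat_lit 6343401784, nat_lit 6263822528, nat_lit 6135236664, nat_lit 6058043448, nat_lit 5228775896, nat_lit 5145737968, nat_lit 6324573216, nat_lit 4918669496], nat_lit 1271250, nat_lit 1271250, nat_lit 1100001, nat_lit 1785000,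 nat_lit 0, nat_lit 1100001, [nat_lit 1412500, nat_lit 1271250, nat_lit 1271250], [nat_lit 46, nat_lit 40, nat_lit 40, nat_lit 80, nat_lit 41, nat_lit 401, nat_lit 175, nat_lit 10]⟩,
 ⟨nat_lit 3162, nat_lit 3873, ⟨.ofNat (nat_lit 435446), .ofNat (nat_lit 564520), .ofNat (nat_lit 478975), .ofNat (nat_lit 608082), .ofNat (nat_lit 439014), .ofNat (nat_lit 560952), .ofNat (nat_lit 483267), .ofNat (nat_lit 605237)⟩, ⟨.ofNat (nat_lit 0), .ofNat (nat_lit 261131), .ofNat (nat_lit 0), .ofNat (nat_lit 304717), .ofNat (nat_lit 0), .ofNat (nat_lit 261806), .ofNat (nat_lit 0), .ofNat (nat_lit 306116)⟩⟩, []⟩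
noncomputable def p077_l106 : Lf2 := ⟨nat_lit 0, nat_lit 10, [nat_lit 0, nat_lit 5, nat_lit 5, nat_lit 20], false, nat_lit 0, nat_lit 160, nat_lit 160, nat_lit 360, ⟨nat_lit 149, nat_lit 0, nat_lit 851, nat_lit 5, nat_lit 209, nat_lit 851, nat_lit 56, nat_lit 851, nat_lit 29400, nat_lit 257, nat_lit 5914, nat_lit 209, nat_lit 52667635, nat_lit 0, nat_lit 0, nat_lit 2595493, false, false⟩,
 nat_lit 4058, nat_lit 0, nat_lit 0, nat_lit 0, nat_lit 3043, nat_lit 1739, nat_lit 0, nat_lit 0, nat_lit 0, nat_lit 146, nat_lit 0, nat_lit 0, nat_lit 0, nat_lit 0, nat_lit 74, nat_lit 623000, nat_lit 0, nat_lit 0, [(nat_lit 18, [(nat_lit 5, nat_lit 380), (nat_lit 6, nat_lit 471)])],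
 ⟨p077_k17, nat_lit 0, nat_lit 0, nat_lit 323, nat_lit 0, nat_lit 527432, [nat_lit 1746846400, nat_lit 1141277601, nat_lit 1997200], [], [nat_lit 20516673145, nat_lit 19054900827, nat_lit 20356117460, nat_lit 21607903942, nat_lit 18776513193, nat_lit 19876341128, nat_lit 21583496813, nat_lit 22073834918], nat_lit 1271250, nat_lit 1271250, nat_lit 1100001, nat_lit 1785000, nat_lit 0, nat_lit 1100001, [nat_lit 490000, nat_lit 1100000, nat_lit 1442500], [nat_lit 6, nat_lit 40, nat_lit 40, nat_lit 80, nat_lit 3, nat_lit 317, nat_lit 100, nat_lit 12]⟩, ⟨p077_k18, nat_lit 0, nat_lit 0, nat_lit 676, nat_lit 0, nat_lit 1059351, [nat_lit 931250000, nat_lit 1466458000, nat_lit 1768928000], [], [nat_lit 6561209548, nat_lit 4722258784, nat_lit 4874512900, nat_lit 4269236144, nat_lit 4629812196, nat_lit 4604434894, nat_lit 4533949784, nat_lit 4544472888], nat_lit 1271250, nat_lit 1271250, nat_lit 1100001, nat_lit 1785000, nat_lit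 1271250, nat_lit 1271250, [nat_lit 1412500, nat_lit 1271250, nat_lit 1271250], [nat_lit 46, nat_lit 40, nat_lit 40, nat_lit 80, nat_lit 41, nat_lit 456, nat_lit 225, nat_lit 11]⟩,
 ⟨nat_lit 3872, nat_lit 4473, ⟨.ofNat (nat_lit 432013), .ofNat (nat_lit 567977), .ofNat (nat_lit 475111), .ofNat (nat_lit 611083), .ofNat (nat_lit 435470), .ofNat (nat_lit 564520), .ofNat (nat_lit 479021), .ofNat (nat_lit 608080)⟩, ⟨.negSucc (nat_lit 12427), .ofNat (nat_lit 259489), .ofNat (nat_lit 0), .ofNat (nat_lit 302621), .ofNat (nat_lit 0), .ofNat (nat_lit 261131), .ofNat (nat_lit 0), .ofNat (nat_lit 304717)⟩⟩, [⟨nat_lit 7, nat_lit 77, nat_lit 100, nat_lit 72, nat_lit 44657941⟩]⟩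
noncomputable def p077_l107 : Lf2 := ⟨nat_lit 0, nat_lit 10, [nat_lit 0, nat_lit 5, nat_lit 5, nat_lit 20], false, nat_lit 0, nat_lit 160, nat_lit 160, nat_lit 360, ⟨nat_lit 132, nat_lit 0, nat_lit 868, nat_lit 5, nat_lit 209, nat_lit 868, nat_lit 57, nat_lit 868, nat_lit 30817, nat_lit 258, nat_lit 5723, nat_lit 210, nat_lit 52655659, nat_lit 0, nat_lit 0, nat_lit 2596656, false, false⟩,
 nat_lit 3680, nat_lit 0, nat_lit 0, nat_lit 0, nat_lit 2978, nat_lit 1576, nat_lit 0, nat_lit 0, nat_lit 0, nat_lit 133, nat_lit 0, nat_lit 0, nat_lit 0, nat_lit 0, nat_lit 105, nat_lit 625600, nat_lit 0, nat_lit 0, [(nat_lit 21, [(nat_lit 5, nat_lit 404), (nat_lit 6, nat_lit 464)])],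
 ⟨p077_k20, nat_lit 0, nat_lit 0, nat_lit 355, nat_lit 0, nat_lit 593084, [nat_lit 1854700801, nat_lit 613819201, nat_lit 324171200], [], [nat_lit 19139400010, nat_lit 20476204080, nat_lit 21551400934, nat_lit 23041189224, nat_lit 20159175890, nat_lit 21206095190, nat_lit 22242285158, nat_lit 23167186166], nat_lit 1271250, nat_lit 1271250, nat_lit 1100001, nat_lit 1785000, nat_lit 0, nat_lit 1100001, [nat_lit 490000, nat_lit 1100000, nat_lit 1442500], [nat_lit 6, nat_lit 40, nat_lit 40, nat_lit 80, nat_lit 3, nat_lit 317, nat_lit 100, nat_lit 12]⟩, ⟨p077_k18, nat_lit 0, nat_lit 0, nat_lit 794, nat_lit 0, nat_lit 1304018, [nat_lit 825000000, nat_lit 1299144000, nat_lit 1567104000], [], [nat_lit 5866573424, nat_lit 4199991248, nat_lit 4334818992, nat_lit 3635402576, nat_lit 4000076848, nat_lit 4018635920, nat_lit 3952464480, nat_lit 3992476504], nat_lit 1271250, nat_lit 1271250, nat_lit 1100001, nat_lit 1785000,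 nat_lit 1271250, nat_lit 1271250, [nat_lit 1412500, nat_lit 1271250, nat_lit 1271250], [nat_lit 46, nat_lit 40, nat_lit 40, nat_lit 80, nat_lit 41, nat_lit 456, nat_lit 225, nat_lit 11]⟩,
 ⟨nat_lit 3162, nat_lit 3873, ⟨.ofNat (nat_lit 435446), .ofNat (nat_lit 564520), .ofNat (nat_lit 478975), .ofNat (nat_lit 608082), .ofNat (nat_lit 439014), .ofNat (nat_lit 560952), .ofNat (nat_lit 483267), .ofNat (nat_lit 605237)⟩, ⟨.ofNat (nat_lit 0), .ofNat (nat_lit 261131), .ofNat (nat_lit 0), .ofNat (nat_lit 304717), .ofNat (nat_lit 0), .ofNat (nat_lit 261806), .ofNat (nat_lit 0), .ofNat (nat_lit 306116)⟩⟩, [⟨nat_lit 19, nat_lit 100, nat_lit 77, nat_lit 72, nat_lit 55767562⟩]⟩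
noncomputable def p077_l108 : Lf2 := ⟨nat_lit 0, nat_lit 10, [nat_lit 0, nat_lit 5, nat_lit 5, nat_lit 20], false, nat_lit 160, nat_lit 260, nat_lit 0, nat_lit 360, ⟨nat_lit 0, nat_lit 0, nat_lit 1000, nat_lit 5, nat_lit 144, nat_lit 1000, nat_lit 145, nat_lit 1000, nat_lit 89743, nat_lit 288, nat_lit 62098, nat_lit 276, nat_lit 50985194, nat_lit 0, nat_lit 0, nat_lit 3827169, false, false⟩,
 nat_lit 0, nat_lit 4055, nat_lit 0, nat_lit 0, nat_lit 3041, nat_lit 0, nat_lit 0, nat_lit 0, nat_lit 0, nat_lit 0, nat_lit 0, nat_lit 0, nat_lit 0, nat_lit 0, nat_lit 76, nat_lit 400000, nat_lit 0, nat_lit 0, [(nat_lit 18, [(nat_lit 5, nat_lit 1000)]), (nat_lit 21, [(nat_lit 5, nat_lit 1000)])],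
 ⟨p077_k17, nat_lit 0, nat_lit 0, nat_lit 342, nat_lit 0, nat_lit 649247, [nat_lit 1585600001, nat_lit 802000001, nat_lit 14800000], [], [nat_lit 17113770306, nat_lit 19542543398, nat_lit 18646334954, nat_lit 20758802654, nat_lit 20449446323, nat_lit 22640241651, nat_lit 21927120356, nat_lit 23369459501], nat_lit 1271250, nat_lit 1271250, nat_lit 230001, nat_lit 1100001, nat_lit 1100001, nat_lit 1956250, [nat_lit 490000, nat_lit 1100000, nat_lit 1442500], [nat_lit 6, nat_lit 40, nat_lit 40, nat_lit 80, nat_lit 3, nat_lit 345, nat_lit 125, nat_lit 13]⟩, ⟨p077_k18, nat_lit 0, nat_lit 0, nat_lit 979, nat_lit 0, nat_lit 1304018, [nat_lit 0, nat_lit 0, nat_lit 0], [], [nat_lit 0, nat_lit 0, nat_lit 0, nat_lit 0, nat_lit 0, nat_lit 0, nat_lit 0, nat_lit 0], nat_lit 1271250, nat_lit 1271250, nat_lit 230001, nat_lit 1100001, nat_lit 0, nat_lit 2542500, [nat_lit 1412500, nat_lit 1271250, nat_lit 1271250], [nat_lit 46, nat_lit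 40, nat_lit 40, nat_lit 80, nat_lit 41, nat_lit 428, nat_lit 200, nat_lit 11]⟩,
 ⟨nat_lit 3162, nat_lit 4473, ⟨.ofNat (nat_lit 227776), .ofNat (nat_lit 431944), .ofNat (nat_lit 270729), .ofNat (nat_lit 474896), .ofNat (nat_lit 255876), .ofNat (nat_lit 438969), .ofNat (nat_lit 300005), .ofNat (nat_lit 483097)⟩, ⟨.ofNat (nat_lit 259488), .ofNat (nat_lit 429433), .ofNat (nat_lit 302621), .ofNat (nat_lit 472567), .ofNat (nat_lit 261805), .ofNat (nat_lit 414188), .ofNat (nat_lit 306116), .ofNat (nat_lit 458499)⟩⟩, [⟨nat_lit 0, nat_lit 100, nat_lit 72, nat_lit 77, nat_lit 10826082⟩, ⟨nat_lit 0, nat_lit 100, nat_lit 61, nat_lit 92, nat_lit 793382⟩, ⟨nat_lit 4, nat_lit 100, nat_lit 71, nat_lit 71, nat_lit 307296596⟩]⟩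
noncomputable def p077_l109 : Lf2 := ⟨nat_lit 0, nat_lit 10, [nat_lit 0, nat_lit 5, nat_lit 5, nat_lit 20], false, nat_lit 160, nat_lit 260, nat_lit 0, nat_lit 360, ⟨nat_lit 63, nat_lit 184, nat_lit 753, nat_lit 5, nat_lit 209, nat_lit 937, nat_lit 146, nat_lit 753, nat_lit 89743, nat_lit 288, nat_lit 5914, nat_lit 209, nat_lit 45547317, nat_lit 13666715, nat_lit 7785968, nat_lit 4486060, false, false⟩,
 nat_lit 1852, nat_lit 2384, nat_lit 0, nat_lit 0, nat_lit 3176, nat_lit 793, nat_lit 0, nat_lit 0, nat_lit 0, nat_lit 64, nat_lit 0, nat_lit 0, nat_lit 0, nat_lit 0, nat_lit 39, nat_lit 474400, nat_lit 0, nat_lit 0, [(nat_lit 18, [(nat_lit 1, nat_lit 184), (nat_lit 5, nat_lit 587), (nat_lit 6, nat_lit 166)])],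
 ⟨p077_k17, nat_lit 0, nat_lit 0, nat_lit 228, nat_lit 0, nat_lit 527432, [nat_lit 1418393867, nat_lit 832396934, nat_lit 3452000], [], [nat_lit 17863454722, nat_lit 18872180866, nat_lit 19895285767, nat_lit 20874512647, nat_lit 20632483879, nat_lit 21643976176, nat_lit 22633007452, nat_lit 23644210392], nat_lit 1271250, nat_lit 1271250, nat_lit 1100001, nat_lit 1785000, nat_lit 1100001, nat_lit 1956250, [nat_lit 490000, nat_lit 1100000, nat_lit 1442500], [nat_lit 6, nat_lit 40, nat_lit 40, nat_lit 80, nat_lit 3, nat_lit 345, nat_lit 125, nat_lit 12]⟩, ⟨p077_k18, nat_lit 0, nat_lit 0, nat_lit 784, nat_lit 0, nat_lit 1059351, [nat_lit 393750000, nat_lit 620046000, nat_lit 747936000], [], [nat_lit 2417327408, nat_lit 2227293544, nat_lit 2188638480, nat_lit 2190567396, nat_lit 3721188166, nat_lit 2993444136, nat_lit 2275166940, nat_lit 1881658456], nat_lit 1271250, nat_lit 1271250, nat_lit 1271250, nat_lit 1271250,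 nat_lit 0, nat_lit 2542500, [nat_lit 1412500, nat_lit 1271250, nat_lit 1271250], [nat_lit 46, nat_lit 40, nat_lit 40, nat_lit 80, nat_lit 41, nat_lit 456, nat_lit 225, nat_lit 12]⟩,
 ⟨nat_lit 3872, nat_lit 4473, ⟨.ofNat (nat_lit 432013), .ofNat (nat_lit 567977), .ofNat (nat_lit 475111), .ofNat (nat_lit 611083), .ofNat (nat_lit 435470), .ofNat (nat_lit 564520), .ofNat (nat_lit 479021), .ofNat (nat_lit 608080)⟩, ⟨.ofNat (nat_lit 259489), .ofNat (nat_lit 429434), .ofNat (nat_lit 302621), .ofNat (nat_lit 472567), .ofNat (nat_lit 261131), .ofNat (nat_lit 422435), .ofNat (nat_lit 304717), .ofNat (nat_lit 466021)⟩⟩, [⟨nat_lit 16, nat_lit 76, nat_lit 100, nat_lit 72, nat_lit 278423884⟩, ⟨nat_lit 19, nat_lit 100, nat_lit 77, nat_lit 72, nat_lit 11173084⟩]⟩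
noncomputable def p077_l110 : Lf2 := ⟨nat_lit 0, nat_lit 10, [nat_lit 0, nat_lit 5, nat_lit 5, nat_lit 20], false, nat_lit 160, nat_lit 232, nat_lit 0, nat_lit 360, ⟨nat_lit 64, nat_lit 465, nat_lit 471, nat_lit 5, nat_lit 209, nat_lit 936, nat_lit 136, nat_lit 471, nat_lit 173400, nat_lit 317, nat_lit 5723, nat_lit 210, nat_lit 46200216, nat_lit 13773808, nat_lit 7025976, nat_lit 4378127, false, false⟩,
 nat_lit 1860, nat_lit 2087, nat_lit 0, nat_lit 0, nat_lit 3195, nat_lit 797, nat_lit 0, nat_lit 0, nat_lit 0, nat_lit 65, nat_lit 0, nat_lit 0, nat_lit 0, nat_lit 0, nat_lit 53, nat_lit 657000, nat_lit 0, nat_lit 0, [(nat_lit 21, [(nat_lit 1, nat_lit 465), (nat_lit 6, nat_lit 471)])],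
 ⟨p077_k20, nat_lit 0, nat_lit 0, nat_lit 259, nat_lit 0, nat_lit 593084, [nat_lit 1541045601, nat_lit 568600001, nat_lit 166913600], [], [nat_lit 18597668803, nat_lit 19783467644, nat_lit 20867804764, nat_lit 21949802764, nat_lit 20635823777, nat_lit 21733169253, nat_lit 22666909859, nat_lit 23822956078], nat_lit 1271250, nat_lit 1271250, nat_lit 1100001, nat_lit 1785000, nat_lit 1100001, nat_lit 1716500, [nat_lit 490000, nat_lit 1100000, nat_lit 1442500], [nat_lit 6, nat_lit 40, nat_lit 40, nat_lit 80, nat_lit 3, nat_lit 345, nat_lit 125, nat_lit 12]⟩, ⟨p077_k18, nat_lit 0, nat_lit 0, nat_lit 900, nat_lit 0, nat_lit 1304018, [nat_lit 400000000, nat_lit 629888000, nat_lit 759808000], [], [nat_lit 2451692876, nat_lit 2288607956, nat_lit 2250239784, nat_lit 2242790864, nat_lit 3768761658, nat_lit 3037346788, nat_lit 2315446504, nat_lit 1916165458], nat_lit 1271250, nat_lit 1271250, nat_lit 1271250, nat_lit 1271250,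 nat_lit 0, nat_lit 2542500, [nat_lit 1412500, nat_lit 1271250, nat_lit 1271250], [nat_lit 46, nat_lit 40, nat_lit 40, nat_lit 80, nat_lit 41, nat_lit 456, nat_lit 225, nat_lit 12]⟩,
 ⟨nat_lit 3162, nat_lit 3873, ⟨.ofNat (nat_lit 435446), .ofNat (nat_lit 564520), .ofNat (nat_lit 478975), .ofNat (nat_lit 608082), .ofNat (nat_lit 439014), .ofNat (nat_lit 560952), .ofNat (nat_lit 483267), .ofNat (nat_lit 605237)⟩, ⟨.ofNat (nat_lit 261131), .ofNat (nat_lit 377270), .ofNat (nat_lit 304717), .ofNat (nat_lit 420856), .ofNat (nat_lit 261806), .ofNat (nat_lit 371522), .ofNat (nat_lit 306116), .ofNat (nat_lit 415832)⟩⟩, [⟨nat_lit 4, nat_lit 100, nat_lit 66, nat_lit 72, nat_lit 313734086⟩, ⟨nat_lit 7, nat_lit 77, nat_lit 100, nat_lit 72, nat_lit 11014225⟩]⟩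
noncomputable def b_V_800_500_10_4 : St := ⟨true, nat_lit 1, nat_lit 1, nat_lit 1, nat_lit 80, nat_lit 320, nat_lit 360, nat_lit 200, nat_lit 240, nat_lit 40, nat_lit 240, nat_lit 40, nat_lit 80, nat_lit 0, nat_lit 260, nat_lit 0, nat_lit 360, nat_lit 0, nat_lit 40, nat_lit 0, nat_lit 0, nat_lit 0, nat_lit 0⟩
theorem d_V_800_500_10_4 (h : EB TB.env) : Dead b_V_800_500_10_4 := chkB_sound0 h (T :=
(.spl (nat_lit 4) (nat_lit 160)
(.spl (nat_lit 2) (nat_lit 160)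
(.spl (nat_lit 0) (nat_lit 340)
(.leaf p077_l102)
(.trZ (nat_lit 0) (nat_lit 100) (nat_lit 71) (nat_lit 70) (nat_lit 56) (.leaf p077_l103)))
(.spl (nat_lit 5) (nat_lit 160)
(.spl (nat_lit 0) (nat_lit 340)
(.leaf p077_l104)
(.leaf p077_l105))
(.spl (nat_lit 0) (nat_lit 340)
(.leaf p077_l106)
(.leaf p077_l107))))
(.spl (nat_lit 2) (nat_lit 160)
(.leaf p077_l108)
(.spl (nat_lit 0) (nat_lit 340)
(.leaf p077_l109)
(.trX (nat_lit 16) (nat_lit 72) (nat_lit 100) (nat_lit 81) (nat_lit 232) (.leaf p077_l110)))))) (by decide +kernel)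
noncomputable def p077_l111 : Lf2 := ⟨nat_lit 0, nat_lit 10, [nat_lit 0, nat_lit 5, nat_lit 5, nat_lit 20], false, nat_lit 0, nat_lit 160, nat_lit 0, nat_lit 360, ⟨nat_lit 204, nat_lit 538, nat_lit 258, nat_lit 6, nat_lit 258, nat_lit 796, nat_lit 56, nat_lit 258, nat_lit 29400, nat_lit 257, nat_lit 179748, nat_lit 200, nat_lit 47313830, nat_lit 19686170, nat_lit 0, nat_lit 3027697, true, true⟩,
 nat_lit 5132, nat_lit 0, nat_lit 0, nat_lit 0, nat_lit 3848, nat_lit 2199, nat_lit 0, nat_lit 0, nat_lit 0, nat_lit 181, nat_lit 0, nat_lit 0, nat_lit 0, nat_lit 0, nat_lit 0, nat_lit 796000, nat_lit 0, nat_lit 0, [(nat_lit 18, [(nat_lit 2, nat_lit 538), (nat_lit 6, nat_lit 258)])],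
 ⟨p077_k17, nat_lit 0, nat_lit 0, nat_lit 285, nat_lit 0, nat_lit 428230, [nat_lit 1603543467, nat_lit 1198890134, nat_lit 30152000], [], [nat_lit 21641854605, nat_lit 22173343725, nat_lit 26132764928, nat_lit 26847918496, nat_lit 21480473069, nat_lit 21931335621, nat_lit 24144177165, nat_lit 24529389965], nat_lit 1271250, nat_lit 1271250, nat_lit 1271250, nat_lit 1271250, nat_lit 0, nat_lit 1100001, [nat_lit 490000, nat_lit 1100000, nat_lit 1442500], [nat_lit 6, nat_lit 40, nat_lit 40, nat_lit 80, nat_lit 3, nat_lit 249, nat_lit 40, nat_lit 9]⟩, ⟨p077_k18, nat_lit 0, nat_lit 0, nat_lit 670, nat_lit 0, nat_lit 860103, [nat_lit 1275000000, nat_lit 2007768000, nat_lit 2421888000], [], [nat_lit 8240653080, nat_lit 8239620774, nat_lit 8495044020, nat_lit 8471132550, nat_lit 7546121160, nat_lit 6677310117, nat_lit 6887395206, nat_lit 6874316394], nat_lit 1271250, nat_lit 1271250, nat_lit 1271250, nat_lit 1271250, nat_lit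 0, nat_lit 2542500, [nat_lit 1412500, nat_lit 1271250, nat_lit 1271250], [nat_lit 46, nat_lit 40, nat_lit 40, nat_lit 80, nat_lit 41, nat_lit 456, nat_lit 225, nat_lit 12]⟩,
 ⟨nat_lit 4183, nat_lit 4473, ⟨.ofNat (nat_lit 567977), .ofNat (nat_lit 703933), .ofNat (nat_lit 589541), .ofNat (nat_lit 725499), .ofNat (nat_lit 566254), .ofNat (nat_lit 698765), .ofNat (nat_lit 587919), .ofNat (nat_lit 720431)⟩, ⟨.negSucc (nat_lit 12423), .ofNat (nat_lit 259489), .ofNat (nat_lit 0), .ofNat (nat_lit 302621), .negSucc (nat_lit 4612), .ofNat (nat_lit 260409), .ofNat (nat_lit 0), .ofNat (nat_lit 303743)⟩⟩, [⟨nat_lit 22, nat_lit 100, nat_lit 95, nat_lit 87, nat_lit 20226731⟩]⟩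
noncomputable def p077_l112 : Lf2 := ⟨nat_lit 0, nat_lit 10, [nat_lit 0, nat_lit 5, nat_lit 5, nat_lit 20], false, nat_lit 0, nat_lit 160, nat_lit 0, nat_lit 348, ⟨nat_lit 338, nat_lit 521, nat_lit 141, nat_lit 6, nat_lit 267, nat_lit 662, nat_lit 56, nat_lit 141, nat_lit 29400, nat_lit 257, nat_lit 222874, nat_lit 200, nat_lit 46385152, nat_lit 20614848, nat_lit 0, nat_lit 3086175, true, true⟩,
 nat_lit 6116, nat_lit 0, nat_lit 0, nat_lit 0, nat_lit 4586, nat_lit 2924, nat_lit 0, nat_lit 0, nat_lit 0, nat_lit 583, nat_lit 0, nat_lit 0, nat_lit 0, nat_lit 0, nat_lit 0, nat_lit 662000, nat_lit 0, nat_lit 0, [(nat_lit 18, [(nat_lit 2, nat_lit 521), (nat_lit 6, nat_lit 141)])],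
 ⟨p077_k17, nat_lit 0, nat_lit 0, nat_lit 308, nat_lit 0, nat_lit 468524, [nat_lit 1722910934, nat_lit 1954360267, nat_lit 1331580000], [], [nat_lit 22324757280, nat_lit 23295929082, nat_lit 27627831896, nat_lit 28410339772, nat_lit 20952207084, nat_lit 21392667018, nat_lit 24054768088, nat_lit 24730995612], nat_lit 1271250, nat_lit 1271250, nat_lit 1271250, nat_lit 1271250, nat_lit 0, nat_lit 1100001, [nat_lit 490000, nat_lit 1100000, nat_lit 1442500], [nat_lit 6, nat_lit 40, nat_lit 40, nat_lit 80, nat_lit 3, nat_lit 249, nat_lit 40, nat_lit 9]⟩, ⟨p077_k19, nat_lit 0, nat_lit 0, nat_lit 646, nat_lit 0, nat_lit 816601, [nat_lit 2112500000, nat_lit 3326596000, nat_lit 4012736000], [], [nat_lit 11765755008, nat_lit 11786938652, nat_lit 12366067456, nat_lit 12415027132, nat_lit 11223109765, nat_lit 10388703914, nat_lit 10711879077, nat_lit 10722839561], nat_lit 1271250, nat_lit 1271250, nat_lit 1271250, nat_lit 1271250,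 nat_lit 0, nat_lit 2457750, [nat_lit 1412500, nat_lit 1271250, nat_lit 1271250], [nat_lit 46, nat_lit 40, nat_lit 40, nat_lit 80, nat_lit 41, nat_lit 483, nat_lit 250, nat_lit 12]⟩,
 ⟨nat_lit 4183, nat_lit 4473, ⟨.ofNat (nat_lit 589541), .ofNat (nat_lit 725499), .ofNat (nat_lit 611104), .ofNat (nat_lit 747062), .ofNat (nat_lit 587919), .ofNat (nat_lit 720431), .ofNat (nat_lit 609582), .ofNat (nat_lit 742095)⟩, ⟨.negSucc (nat_lit 12423), .ofNat (nat_lit 259489), .ofNat (nat_lit 0), .ofNat (nat_lit 302621), .negSucc (nat_lit 4612), .ofNat (nat_lit 260409), .ofNat (nat_lit 0), .ofNat (nat_lit 303743)⟩⟩, [⟨nat_lit 7, nat_lit 81, nat_lit 100, nat_lit 72, nat_lit 6035940⟩, ⟨nat_lit 22, nat_lit 100, nat_lit 95, nat_lit 87, nat_lit 41754561⟩]⟩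
noncomputable def p077_l113 : Lf2 := ⟨nat_lit 0, nat_lit 10, [nat_lit 0, nat_lit 5, nat_lit 5, nat_lit 20], false, nat_lit 0, nat_lit 160, nat_lit 0, nat_lit 360, ⟨nat_lit 199, nat_lit 678, nat_lit 123, nat_lit 6, nat_lit 257, nat_lit 801, nat_lit 56, nat_lit 123, nat_lit 29400, nat_lit 257, nat_lit 169614, nat_lit 200, nat_lit 47460440, nat_lit 19539560, nat_lit 0, nat_lit 3018045, true, true⟩,
 nat_lit 5001, nat_lit 0, nat_lit 0, nat_lit 0, nat_lit 3898, nat_lit 2143, nat_lit 564, nat_lit 0, nat_lit 0, nat_lit 176, nat_lit 0, nat_lit 0, nat_lit 0, nat_lit 0, nat_lit 0, nat_lit 320400, nat_lit 0, nat_lit 0, [(nat_lit 18, [(nat_lit 1, nat_lit 678), (nat_lit 5, nat_lit 123)])],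
 ⟨p077_k21, nat_lit 0, nat_lit 0, nat_lit 311, nat_lit 0, nat_lit 468763, [nat_lit 1466544801, nat_lit 2215390000, nat_lit 2388032800], [], [nat_lit 22620834621, nat_lit 23136087493, nat_lit 26953773596, nat_lit 27673490464, nat_lit 22095895915, nat_lit 22533967321, nat_lit 24600072409, nat_lit 24974684099], nat_lit 1271250, nat_lit 1271250, nat_lit 1271250, nat_lit 1271250, nat_lit 0, nat_lit 1100001, [nat_lit 490000, nat_lit 1100000, nat_lit 1442500], [nat_lit 6, nat_lit 40, nat_lit 40, nat_lit 80, nat_lit 3, nat_lit 249, nat_lit 40, nat_lit 9]⟩, ⟨p077_k18, nat_lit 0, nat_lit 0, nat_lit 723, nat_lit 0, nat_lit 985713, [nat_lit 1243750000, nat_lit 1958558000, nat_lit 2362528000], [], [nat_lit 8045254272, nat_lit 8044319756, nat_lit 8293472244, nat_lit 8270237758, nat_lit 7362187372, nat_lit 6522894498, nat_lit 6722394182, nat_lit 6708345875], nat_lit 1271250, nat_lit 1271250, nat_lit 1271250, nat_lit 1271250,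 nat_lit 0, nat_lit 2542500, [nat_lit 1412500, nat_lit 1271250, nat_lit 1271250], [nat_lit 46, nat_lit 40, nat_lit 40, nat_lit 80, nat_lit 41, nat_lit 456, nat_lit 225, nat_lit 12]⟩,
 ⟨nat_lit 3872, nat_lit 4184, ⟨.ofNat (nat_lit 566254), .ofNat (nat_lit 698765), .ofNat (nat_lit 587919), .ofNat (nat_lit 720432), .ofNat (nat_lit 564520), .ofNat (nat_lit 693563), .ofNat (nat_lit 586312), .ofNat (nat_lit 715356)⟩, ⟨.negSucc (nat_lit 4619), .ofNat (nat_lit 260409), .ofNat (nat_lit 0), .ofNat (nat_lit 303743), .ofNat (nat_lit 0), .ofNat (nat_lit 261131), .ofNat (nat_lit 0), .ofNat (nat_lit 304717)⟩⟩, [⟨nat_lit 22, nat_lit 100, nat_lit 95, nat_lit 87, nat_lit 19712905⟩]⟩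
noncomputable def p077_l114 : Lf2 := ⟨nat_lit 0, nat_lit 10, [nat_lit 0, nat_lit 5, nat_lit 5, nat_lit 20], false, nat_lit 0, nat_lit 160, nat_lit 0, nat_lit 348, ⟨nat_lit 272, nat_lit 192, nat_lit 536, nat_lit 6, nat_lit 265, nat_lit 728, nat_lit 56, nat_lit 536, nat_lit 29400, nat_lit 257, nat_lit 212946, nat_lit 200, nat_lit 46525906, nat_lit 20474094, nat_lit 0, nat_lit 3077605, true, true⟩,
 nat_lit 4781, nat_lit 0, nat_lit 0, nat_lit 0, nat_lit 3726, nat_lit 2286, nat_lit 125, nat_lit 0, nat_lit 0, nat_lit 534, nat_lit 0, nat_lit 0, nat_lit 0, nat_lit 0, nat_lit 0, nat_lit 291200, nat_lit 0, nat_lit 0, [(nat_lit 18, [(nat_lit 1, nat_lit 192), (nat_lit 5, nat_lit 536)])],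
 ⟨p077_k21, nat_lit 0, nat_lit 0, nat_lit 322, nat_lit 0, nat_lit 503782, [nat_lit 1318982401, nat_lit 1430832000, nat_lit 1269686400], [], [nat_lit 22628025232, nat_lit 23074818428, nat_lit 26589632052, nat_lit 27293651168, nat_lit 22252970012, nat_lit 22635005549, nat_lit 24566404865, nat_lit 24913506385], nat_lit 1271250, nat_lit 1271250, nat_lit 1271250, nat_lit 1271250, nat_lit 0, nat_lit 1100001, [nat_lit 490000, nat_lit 1100000, nat_lit 1442500], [nat_lit 6, nat_lit 40, nat_lit 40, nat_lit 80, nat_lit 3, nat_lit 249, nat_lit 40, nat_lit 9]⟩, ⟨p077_k19, nat_lit 0, nat_lit 0, nat_lit 690, nat_lit 0, nat_lit 919272, [nat_lit 1700000000, nat_lit 2677024000, nat_lit 3229184000], [], [nat_lit 9434874112, nat_lit 9454179528, nat_lit 9773679644, nat_lit 9815026968, nat_lit 9098855217, nat_lit 8263834291, nat_lit 8539992705, nat_lit 8551482472], nat_lit 1271250, nat_lit 1271250, nat_lit 1271250, nat_lit 1271250,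 nat_lit 0, nat_lit 2457750, [nat_lit 1412500, nat_lit 1271250, nat_lit 1271250], [nat_lit 46, nat_lit 40, nat_lit 40, nat_lit 80, nat_lit 41, nat_lit 483, nat_lit 250, nat_lit 12]⟩,
 ⟨nat_lit 3872, nat_lit 4184, ⟨.ofNat (nat_lit 587919), .ofNat (nat_lit 720432), .ofNat (nat_lit 609582), .ofNat (nat_lit 742098), .ofNat (nat_lit 586312), .ofNat (nat_lit 715356), .ofNat (nat_lit 608101), .ofNat (nat_lit 737149)⟩, ⟨.negSucc (nat_lit 4619), .ofNat (nat_lit 260409), .ofNat (nat_lit 0), .ofNat (nat_lit 303743), .ofNat (nat_lit 0), .ofNat (nat_lit 261131), .ofNat (nat_lit 0), .ofNat (nat_lit 304717)⟩⟩, [⟨nat_lit 22, nat_lit 100, nat_lit 95, nat_lit 87, nat_lit 39231650⟩]⟩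
noncomputable def p077_l115 : Lf2 := ⟨nat_lit 0, nat_lit 10, [nat_lit 0, nat_lit 5, nat_lit 5, nat_lit 20], false, nat_lit 0, nat_lit 80, nat_lit 0, nat_lit 260, ⟨nat_lit 187, nat_lit 813, nat_lit 0, nat_lit 8, nat_lit 301, nat_lit 813, nat_lit 30, nat_lit 0, nat_lit 0, nat_lit 0, nat_lit 0, nat_lit 0, nat_lit 42770983, nat_lit 24229017, nat_lit 0, nat_lit 3271742, true, true⟩,
 nat_lit 4858, nat_lit 0, nat_lit 0, nat_lit 0, nat_lit 3643, nat_lit 2082, nat_lit 0, nat_lit 0, nat_lit 0, nat_lit 195, nat_lit 0, nat_lit 0, nat_lit 0, nat_lit 0, nat_lit 0, nat_lit 813000, nat_lit 0, nat_lit 0, [(nat_lit 18, [(nat_lit 2, nat_lit 813)])],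
 ⟨p077_k17, nat_lit 0, nat_lit 0, nat_lit 330, nat_lit 0, nat_lit 490769, [nat_lit 1763601601, nat_lit 1726512001, nat_lit 808428400], [], [nat_lit 27655060662, nat_lit 28484879784, nat_lit 29846210199, nat_lit 30582368324, nat_lit 26818186174, nat_lit 27598632960, nat_lit 28879345525, nat_lit 29574017875], nat_lit 1271250, nat_lit 1271250, nat_lit 1271250, nat_lit 1271250, nat_lit 0, nat_lit 490000, [nat_lit 490000, nat_lit 1100000, nat_lit 1442500], [nat_lit 6, nat_lit 40, nat_lit 40, nat_lit 80, nat_lit 3, nat_lit 226, nat_lit 20, nat_lit 7]⟩, ⟨p077_k18, nat_lit 0, nat_lit 0, nat_lit 709, nat_lit 0, nat_lit 985713, [nat_lit 1168750000, nat_lit 1840454000, nat_lit 2220064000], [], [nat_lit 7577937720, nat_lit 7553154620, nat_lit 7930389376, nat_lit 7921686172, nat_lit 5744494082, nat_lit 5704477387, nat_lit 6052773398, nat_lit 6049506987], nat_lit 1271250, nat_lit 1271250, nat_lit 1271250, nat_lit 1271250, nat_lit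 0, nat_lit 1836250, [nat_lit 1412500, nat_lit 1271250, nat_lit 1271250], [nat_lit 46, nat_lit 40, nat_lit 40, nat_lit 80, nat_lit 41, nat_lit 345, nat_lit 125, nat_lit 8]⟩,
 ⟨nat_lit 3872, nat_lit 4473, ⟨.ofNat (nat_lit 703933), .ofNat (nat_lit 792305), .ofNat (nat_lit 725499), .ofNat (nat_lit 813871), .ofNat (nat_lit 693563), .ofNat (nat_lit 777441), .ofNat (nat_lit 715356), .ofNat (nat_lit 799235)⟩, ⟨.negSucc (nat_lit 12427), .ofNat (nat_lit 123532), .ofNat (nat_lit 0), .ofNat (nat_lit 166665), .ofNat (nat_lit 0), .ofNat (nat_lit 132088), .ofNat (nat_lit 0), .ofNat (nat_lit 175674)⟩⟩, [⟨nat_lit 13, nat_lit 76, nat_lit 61, nat_lit 100, nat_lit 146093936⟩]⟩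
noncomputable def p077_l116 : Lf2 := ⟨nat_lit 0, nat_lit 10, [nat_lit 0, nat_lit 5, nat_lit 5, nat_lit 20], false, nat_lit 80, nat_lit 160, nat_lit 0, nat_lit 336, ⟨nat_lit 219, nat_lit 781, nat_lit 0, nat_lit 8, nat_lit 301, nat_lit 781, nat_lit 86, nat_lit 0, nat_lit 0, nat_lit 0, nat_lit 0, nat_lit 0, nat_lit 40430965, nat_lit 23313728, nat_lit 3255307, nat_lit 4305452, true, true⟩,
 nat_lit 5353, nat_lit 0, nat_lit 0, nat_lit 0, nat_lit 4014, nat_lit 2294, nat_lit 0, nat_lit 0, nat_lit 0, nat_lit 183, nat_lit 0, nat_lit 0, nat_lit 0, nat_lit 0, nat_lit 0, nat_lit 781000, nat_lit 0, nat_lit 0, [(nat_lit 18, [(nat_lit 2, nat_lit 781)])],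
 ⟨p077_k17, nat_lit 0, nat_lit 0, nat_lit 266, nat_lit 0, nat_lit 490769, [nat_lit 1774165867, nat_lit 1843077334, nat_lit 1022610800], [], [nat_lit 24970489357, nat_lit 25831789313, nat_lit 27246432725, nat_lit 28387768010, nat_lit 25369702197, nat_lit 26151946997, nat_lit 27438512070, nat_lit 28131394753], nat_lit 1271250, nat_lit 1271250, nat_lit 1271250, nat_lit 1271250, nat_lit 490000, nat_lit 1100001, [nat_lit 490000, nat_lit 1100000, nat_lit 1442500], [nat_lit 6, nat_lit 40, nat_lit 40, nat_lit 80, nat_lit 3, nat_lit 249, nat_lit 40, nat_lit 8]⟩, ⟨p077_k18, nat_lit 0, nat_lit 0, nat_lit 709, nat_lit 0, nat_lit 985713, [nat_lit 1368750000, nat_lit 2155398000, nat_lit 2599968000], [], [nat_lit 9330258600, nat_lit 9307472260, nat_lit 9651079613, nat_lit 9611107635, nat_lit 7430469916, nat_lit 7367159112, nat_lit 7757945298, nat_lit 7759312677], nat_lit 1271250, nat_lit 1271250, nat_lit 1271250, nat_lit 1271250,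 nat_lit 0, nat_lit 2373000, [nat_lit 1412500, nat_lit 1271250, nat_lit 1271250], [nat_lit 46, nat_lit 40, nat_lit 40, nat_lit 80, nat_lit 41, nat_lit 373, nat_lit 150, nat_lit 9]⟩,
 ⟨nat_lit 3872, nat_lit 4473, ⟨.ofNat (nat_lit 703933), .ofNat (nat_lit 792305), .ofNat (nat_lit 725499), .ofNat (nat_lit 813871), .ofNat (nat_lit 693563), .ofNat (nat_lit 777441), .ofNat (nat_lit 715356), .ofNat (nat_lit 799235)⟩, ⟨.ofNat (nat_lit 123532), .ofNat (nat_lit 259489), .ofNat (nat_lit 166665), .ofNat (nat_lit 302621), .ofNat (nat_lit 132088), .ofNat (nat_lit 261131), .ofNat (nat_lit 175674), .ofNat (nat_lit 304717)⟩⟩, [⟨nat_lit 13, nat_lit 76, nat_lit 61, nat_lit 100, nat_lit 111116610⟩, ⟨nat_lit 22, nat_lit 73, nat_lit 100, nat_lit 97, nat_lit 17870882⟩]⟩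
noncomputable def p077_l117 : Lf2 := ⟨nat_lit 0, nat_lit 10, [nat_lit 0, nat_lit 5, nat_lit 5, nat_lit 20], false, nat_lit 0, nat_lit 160, nat_lit 0, nat_lit 336, ⟨nat_lit 422, nat_lit 578, nat_lit 0, nat_lit 8, nat_lit 314, nat_lit 578, nat_lit 56, nat_lit 0, nat_lit 0, nat_lit 0, nat_lit 0, nat_lit 0, nat_lit 41484320, nat_lit 25515680, nat_lit 0, nat_lit 3322346, true, true⟩,
 nat_lit 6894, nat_lit 0, nat_lit 0, nat_lit 0, nat_lit 4918, nat_lit 3296, nat_lit 0, nat_lit 0, nat_lit 0, nat_lit 870, nat_lit 0, nat_lit 0, nat_lit 0, nat_lit 0, nat_lit 0, nat_lit 549200, nat_lit 0, nat_lit 0, [(nat_lit 18, [(nat_lit 1, nat_lit 48), (nat_lit 2, nat_lit 530)])],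
 ⟨p077_k17, nat_lit 0, nat_lit 0, nat_lit 345, nat_lit 0, nat_lit 527432, [nat_lit 1826603734, nat_lit 2626762667, nat_lit 2496722400], [], [nat_lit 28300409448, nat_lit 29926025824, nat_lit 33640632085, nat_lit 34947879679, nat_lit 26027646828, nat_lit 26637799972, nat_lit 28870623232, nat_lit 30017043402], nat_lit 1271250, nat_lit 1271250, nat_lit 1271250, nat_lit 1271250, nat_lit 0, nat_lit 1100001, [nat_lit 490000, nat_lit 1100000, nat_lit 1442500], [nat_lit 6, nat_lit 40, nat_lit 40, nat_lit 80, nat_lit 3, nat_lit 249, nat_lit 40, nat_lit 8]⟩, ⟨p077_k19, nat_lit 0, nat_lit 0, nat_lit 676, nat_lit 0, nat_lit 919272, [nat_lit 2637500000, nat_lit 4153324000, nat_lit 5009984000], [], [nat_lit 15955152748, nat_lit 15959727648, nat_lit 16593467284, nat_lit 16568803516, nat_lit 13869053716, nat_lit 13811200709, nat_lit 14328653353, nat_lit 14377859508], nat_lit 1271250, nat_lit 1271250, nat_lit 1271250, nat_lit 1271250,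 nat_lit 0, nat_lit 2373000, [nat_lit 1412500, nat_lit 1271250, nat_lit 1271250], [nat_lit 46, nat_lit 40, nat_lit 40, nat_lit 80, nat_lit 41, nat_lit 373, nat_lit 150, nat_lit 9]⟩,
 ⟨nat_lit 3872, nat_lit 4473, ⟨.ofNat (nat_lit 725499), .ofNat (nat_lit 834264), .ofNat (nat_lit 747053), .ofNat (nat_lit 855824), .ofNat (nat_lit 715356), .ofNat (nat_lit 818591), .ofNat (nat_lit 737137), .ofNat (nat_lit 840378)⟩, ⟨.negSucc (nat_lit 12427), .ofNat (nat_lit 259489), .ofNat (nat_lit 0), .ofNat (nat_lit 302621), .ofNat (nat_lit 0), .ofNat (nat_lit 261131), .ofNat (nat_lit 0), .ofNat (nat_lit 304717)⟩⟩, [⟨nat_lit 10, nat_lit 100, nat_lit 47, nat_lit 81, nat_lit 124356577⟩]⟩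
noncomputable def p077_l118 : Lf2 := ⟨nat_lit 0, nat_lit 10, [nat_lit 0, nat_lit 5, nat_lit 5, nat_lit 20], false, nat_lit 0, nat_lit 80, nat_lit 0, nat_lit 336, ⟨nat_lit 167, nat_lit 833, nat_lit 0, nat_lit 6, nat_lit 260, nat_lit 833, nat_lit 31, nat_lit 0, nat_lit 0, nat_lit 0, nat_lit 0, nat_lit 0, nat_lit 47136639, nat_lit 19863361, nat_lit 0, nat_lit 3039208, true, true⟩,
 nat_lit 4228, nat_lit 0, nat_lit 0, nat_lit 0, nat_lit 3422, nat_lit 1811, nat_lit 408, nat_lit 0, nat_lit 0, nat_lit 141, nat_lit 0, nat_lit 0, nat_lit 0, nat_lit 0, nat_lit 0, nat_lit 333200, nat_lit 0, nat_lit 0, [(nat_lit 21, [(nat_lit 1, nat_lit 833)])],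
 ⟨p077_k20, nat_lit 0, nat_lit 0, nat_lit 335, nat_lit 0, nat_lit 536871, [nat_lit 1468225600, nat_lit 2026398401, nat_lit 2286586000], [], [nat_lit 23477325573, nat_lit 23999708871, nat_lit 26622307296, nat_lit 27298581548, nat_lit 22889150649, nat_lit 23378271345, nat_lit 25696773169, nat_lit 26115399905], nat_lit 1271250, nat_lit 1271250, nat_lit 1271250, nat_lit 1271250, nat_lit 0, nat_lit 490000, [nat_lit 490000, nat_lit 1100000, nat_lit 1442500], [nat_lit 6, nat_lit 40, nat_lit 40, nat_lit 80, nat_lit 3, nat_lit 226, nat_lit 20, nat_lit 8]⟩, ⟨p077_k18, nat_lit 0, nat_lit 0, nat_lit 819, nat_lit 0, nat_lit 1180422, [nat_lit 1043750000, nat_lit 1643614000, nat_lit 1982624000], [], [nat_lit 6914821292, nat_lit 6854767548, nat_lit 6966883348, nat_lit 6880487232, nat_lit 5808851545, nat_lit 5306676519, nat_lit 5452685295, nat_lit 5430933404], nat_lit 1271250, nat_lit 1271250, nat_lit 1271250, nat_lit 1271250,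 nat_lit 0, nat_lit 2373000, [nat_lit 1412500, nat_lit 1271250, nat_lit 1271250], [nat_lit 46, nat_lit 40, nat_lit 40, nat_lit 80, nat_lit 41, nat_lit 456, nat_lit 225, nat_lit 12]⟩,
 ⟨nat_lit 3535, nat_lit 3873, ⟨.ofNat (nat_lit 564520), .ofNat (nat_lit 693563), .ofNat (nat_lit 608101), .ofNat (nat_lit 737150), .ofNat (nat_lit 562760), .ofNat (nat_lit 688283), .ofNat (nat_lit 606659), .ofNat (nat_lit 732188)⟩, ⟨.ofNat (nat_lit 0), .ofNat (nat_lit 132088), .ofNat (nat_lit 0), .ofNat (nat_lit 175674), .ofNat (nat_lit 0), .ofNat (nat_lit 136093), .ofNat (nat_lit 0), .ofNat (nat_lit 179999)⟩⟩, [⟨nat_lit 10, nat_lit 100, nat_lit 70, nat_lit 61, nat_lit 23600311⟩]⟩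
noncomputable def p077_l119 : Lf2 := ⟨nat_lit 0, nat_lit 10, [nat_lit 0, nat_lit 5, nat_lit 5, nat_lit 20], false, nat_lit 0, nat_lit 80, nat_lit 0, nat_lit 336, ⟨nat_lit 154, nat_lit 846, nat_lit 0, nat_lit 6, nat_lit 258, nat_lit 846, nat_lit 32, nat_lit 0, nat_lit 0, nat_lit 0, nat_lit 0, nat_lit 0, nat_lit 47282545, nat_lit 19717455, nat_lit 0, nat_lit 3029742, true, true⟩,
 nat_lit 3970, nat_lit 0, nat_lit 0, nat_lit 0, nat_lit 3334, nat_lit 1701, nat_lit 342, nat_lit 0, nat_lit 0, nat_lit 140, nat_lit 0, nat_lit 0, nat_lit 0, nat_lit 0, nat_lit 0, nat_lit 338400, nat_lit 0, nat_lit 0, [(nat_lit 21, [(nat_lit 1, nat_lit 846)])],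
 ⟨p077_k22, nat_lit 0, nat_lit 0, nat_lit 302, nat_lit 0, nat_lit 567887, [nat_lit 1459427200, nat_lit 1977416000], [], [nat_lit 23957994584, nat_lit 24427021846, nat_lit 27096213756, nat_lit 27764456600, nat_lit 23368631206, nat_lit 23821163830, nat_lit 26188136976, nat_lit 26643211264], nat_lit 1271250, nat_lit 1271250, nat_lit 1271250, nat_lit 1271250, nat_lit 0, nat_lit 490000, [nat_lit 490000, nat_lit 1100000], [nat_lit 24, nat_lit 40, nat_lit 40, nat_lit 80, nat_lit 33, nat_lit 226, nat_lit 20, nat_lit 9]⟩, ⟨p077_k18, nat_lit 0, nat_lit 0, nat_lit 871, nat_lit 0, nat_lit 1304018, [nat_lit 962500000, nat_lit 1515668000, nat_lit 1828288000], [], [nat_lit 6242879524, nat_lit 6184617124, nat_lit 6287838200, nat_lit 6243915496, nat_lit 5337360381, nat_lit 4772602812, nat_lit 4959824213, nat_lit 4948889154], nat_lit 1271250, nat_lit 1271250, nat_lit 1271250, nat_lit 1271250, nat_lit 0, nat_lit 2373000, [nat_lit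 1412500, nat_lit 1271250, nat_lit 1271250], [nat_lit 46, nat_lit 40, nat_lit 40, nat_lit 80, nat_lit 41, nat_lit 456, nat_lit 225, nat_lit 12]⟩,
 ⟨nat_lit 3162, nat_lit 3536, ⟨.ofNat (nat_lit 562760), .ofNat (nat_lit 688283), .ofNat (nat_lit 606660), .ofNat (nat_lit 732188), .ofNat (nat_lit 560952), .ofNat (nat_lit 682859), .ofNat (nat_lit 605256), .ofNat (nat_lit 727168)⟩, ⟨.ofNat (nat_lit 0), .ofNat (nat_lit 136093), .ofNat (nat_lit 0), .ofNat (nat_lit 179999), .ofNat (nat_lit 0), .ofNat (nat_lit 139899), .ofNat (nat_lit 0), .ofNat (nat_lit 184209)⟩⟩, [⟨nat_lit 10, nat_lit 100, nat_lit 70, nat_lit 61, nat_lit 23179702⟩]⟩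
noncomputable def p077_l120 : Lf2 := ⟨nat_lit 0, nat_lit 10, [nat_lit 0, nat_lit 5, nat_lit 5, nat_lit 20], false, nat_lit 0, nat_lit 80, nat_lit 0, nat_lit 260, ⟨nat_lit 163, nat_lit 837, nat_lit 0, nat_lit 8, nat_lit 292, nat_lit 837, nat_lit 32, nat_lit 0, nat_lit 0, nat_lit 0, nat_lit 0, nat_lit 0, nat_lit 43684420, nat_lit 23315580, nat_lit 0, nat_lit 3230978, true, true⟩,
 nat_lit 4255, nat_lit 0, nat_lit 0, nat_lit 0, nat_lit 3444, nat_lit 1823, nat_lit 418, nat_lit 0, nat_lit 0, nat_lit 145, nat_lit 0, nat_lit 0, nat_lit 0, nat_lit 0, nat_lit 0, nat_lit 334800, nat_lit 0, nat_lit 0, [(nat_lit 21, [(nat_lit 1, nat_lit 837)])],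
 ⟨p077_k20, nat_lit 0, nat_lit 0, nat_lit 354, nat_lit 0, nat_lit 566394, [nat_lit 1465518400, nat_lit 2013617601, nat_lit 2267554000], [], [nat_lit 27036103187, nat_lit 28027455600, nat_lit 29231375784, nat_lit 30435295968, nat_lit 26359691723, nat_lit 27148432259, nat_lit 27878797696, nat_lit 28670642000], nat_lit 1271250, nat_lit 1271250, nat_lit 1271250, nat_lit 1271250, nat_lit 0, nat_lit 490000, [nat_lit 490000, nat_lit 1100000, nat_lit 1442500], [nat_lit 6, nat_lit 40, nat_lit 40, nat_lit 80, nat_lit 3, nat_lit 226, nat_lit 20, nat_lit 7]⟩, ⟨p077_k18, nat_lit 0, nat_lit 0, nat_lit 828, nat_lit 0, nat_lit 1245335, [nat_lit 1018750000, nat_lit 1604246000, nat_lit 1935136000], [], [nat_lit 6579449460, nat_lit 6557492190, nat_lit 6790496620, nat_lit 6790099938, nat_lit 4971335833, nat_lit 4946316791, nat_lit 5153789244, nat_lit 5150117754], nat_lit 1271250, nat_lit 1271250, nat_lit 1271250, nat_lit 1271250,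 nat_lit 0, nat_lit 1836250, [nat_lit 1412500, nat_lit 1271250, nat_lit 1271250], [nat_lit 46, nat_lit 40, nat_lit 40, nat_lit 80, nat_lit 41, nat_lit 345, nat_lit 125, nat_lit 8]⟩,
 ⟨nat_lit 3162, nat_lit 3873, ⟨.ofNat (nat_lit 693563), .ofNat (nat_lit 758085), .ofNat (nat_lit 715356), .ofNat (nat_lit 779878), .ofNat (nat_lit 682859), .ofNat (nat_lit 743812), .ofNat (nat_lit 705013), .ofNat (nat_lit 765967)⟩, ⟨.ofNat (nat_lit 0), .ofNat (nat_lit 132088), .ofNat (nat_lit 0), .ofNat (nat_lit 175674), .ofNat (nat_lit 0), .ofNat (nat_lit 139899), .ofNat (nat_lit 0), .ofNat (nat_lit 184209)⟩⟩, [⟨nat_lit 13, nat_lit 66, nat_lit 72, nat_lit 100, nat_lit 362129142⟩]⟩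
noncomputable def p077_l121 : Lf2 := ⟨nat_lit 0, nat_lit 10, [nat_lit 0, nat_lit 5, nat_lit 5, nat_lit 20], false, nat_lit 0, nat_lit 80, nat_lit 0, nat_lit 260, ⟨nat_lit 260, nat_lit 740, nat_lit 0, nat_lit 8, nat_lit 304, nat_lit 740, nat_lit 32, nat_lit 0, nat_lit 0, nat_lit 0, nat_lit 0, nat_lit 0, nat_lit 42518106, nat_lit 24481894, nat_lit 0, nat_lit 3282313, true, true⟩,
 nat_lit 4594, nat_lit 0, nat_lit 0, nat_lit 0, nat_lit 3718, nat_lit 2197, nat_lit 67, nat_lit 0, nat_lit 0, nat_lit 558, nat_lit 0, nat_lit 0, nat_lit 0, nat_lit 0, nat_lit 0, nat_lit 296000, nat_lit 0, nat_lit 0, [(nat_lit 21, [(nat_lit 1, nat_lit 740)])],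
 ⟨p077_k20, nat_lit 0, nat_lit 0, nat_lit 364, nat_lit 0, nat_lit 593084, [nat_lit 1531168000, nat_lit 2323552001, nat_lit 2729080000], [], [nat_lit 28967450013, nat_lit 29756616681, nat_lit 30802019051, nat_lit 31708007289, nat_lit 28012498425, nat_lit 28755114289, nat_lit 29741043868, nat_lit 30408585534], nat_lit 1271250, nat_lit 1271250, nat_lit 1271250, nat_lit 1271250, nat_lit 0, nat_lit 490000, [nat_lit 490000, nat_lit 1100000, nat_lit 1442500], [nat_lit 6, nat_lit 40, nat_lit 40, nat_lit 80, nat_lit 3, nat_lit 226, nat_lit 20, nat_lit 7]⟩, ⟨p077_k19, nat_lit 0, nat_lit 0, nat_lit 763, nat_lit 0, nat_lit 1131586, [nat_lit 1625000000, nat_lit 2558920000, nat_lit 3086720000], [], [nat_lit 9094677646, nat_lit 9131991104, nat_lit 9597654667, nat_lit 9614003378, nat_lit 7526436343, nat_lit 7495064327, nat_lit 7863833534, nat_lit 7886553036], nat_lit 1271250, nat_lit 1271250, nat_lit 1271250, nat_lit 1271250,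 nat_lit 0, nat_lit 1836250, [nat_lit 1412500, nat_lit 1271250, nat_lit 1271250], [nat_lit 46, nat_lit 40, nat_lit 40, nat_lit 80, nat_lit 41, nat_lit 345, nat_lit 125, nat_lit 8]⟩,
 ⟨nat_lit 3162, nat_lit 3873, ⟨.ofNat (nat_lit 715356), .ofNat (nat_lit 792782), .ofNat (nat_lit 737150), .ofNat (nat_lit 814576), .ofNat (nat_lit 705013), .ofNat (nat_lit 778158), .ofNat (nat_lit 727168), .ofNat (nat_lit 800312)⟩, ⟨.ofNat (nat_lit 0), .ofNat (nat_lit 132088), .ofNat (nat_lit 0), .ofNat (nat_lit 175674), .ofNat (nat_lit 0), .ofNat (nat_lit 139899), .ofNat (nat_lit 0), .ofNat (nat_lit 184209)⟩⟩, [⟨nat_lit 13, nat_lit 67, nat_lit 65, nat_lit 100, nat_lit 102206879⟩, ⟨nat_lit 22, nat_lit 70, nat_lit 100, nat_lit 61, nat_lit 26260236⟩]⟩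
noncomputable def p077_l122 : Lf2 := ⟨nat_lit 0, nat_lit 10, [nat_lit 0, nat_lit 5, nat_lit 5, nat_lit 20], false, nat_lit 80, nat_lit 160, nat_lit 0, nat_lit 360, ⟨nat_lit 180, nat_lit 820, nat_lit 0, nat_lit 6, nat_lit 259, nat_lit 820, nat_lit 88, nat_lit 0, nat_lit 0, nat_lit 0, nat_lit 0, nat_lit 0, nat_lit 44295394, nat_lit 19152375, nat_lit 3552231, nat_lit 4150591, true, true⟩,
 nat_lit 4461, nat_lit 0, nat_lit 0, nat_lit 0, nat_lit 3611, nat_lit 1911, nat_lit 411, nat_lit 0, nat_lit 0, nat_lit 155, nat_lit 0, nat_lit 0, nat_lit 0, nat_lit 0, nat_lit 0, nat_lit 328000, nat_lit 0, nat_lit 0, [(nat_lit 21, [(nat_lit 1, nat_lit 820)])],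
 ⟨p077_k20, nat_lit 0, nat_lit 0, nat_lit 303, nat_lit 0, nat_lit 593084, [nat_lit 1477024000, nat_lit 2067936001, nat_lit 2348440000], [], [nat_lit 21855054880, nat_lit 22823817196, nat_lit 24601800458, nat_lit 25756967148, nat_lit 22541845430, nat_lit 23420795308, nat_lit 25034634524, nat_lit 25860043456], nat_lit 1271250, nat_lit 1271250, nat_lit 1271250, nat_lit 1271250, nat_lit 490000, nat_lit 1100001, [nat_lit 490000, nat_lit 1100000, nat_lit 1442500], [nat_lit 6, nat_lit 40, nat_lit 40, nat_lit 80, nat_lit 3, nat_lit 249, nat_lit 40, nat_lit 8]⟩, ⟨p077_k18, nat_lit 0, nat_lit 0, nat_lit 871, nat_lit 0, nat_lit 1304018, [nat_lit 1125000000, nat_lit 1771560000, nat_lit 2136960000], [], [nat_lit 7629913260, nat_lit 7568999052, nat_lit 7690063536, nat_lit 7601249376, nat_lit 6672553128, nat_lit 5973836010, nat_lit 6130154694, nat_lit 6106043818], nat_lit 1271250, nat_lit 1271250, nat_lit 1271250, nat_lit 1271250,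 nat_lit 0, nat_lit 2542500, [nat_lit 1412500, nat_lit 1271250, nat_lit 1271250], [nat_lit 46, nat_lit 40, nat_lit 40, nat_lit 80, nat_lit 41, nat_lit 483, nat_lit 250, nat_lit 12]⟩,
 ⟨nat_lit 3162, nat_lit 3873, ⟨.ofNat (nat_lit 564520), .ofNat (nat_lit 693563), .ofNat (nat_lit 608082), .ofNat (nat_lit 737150), .ofNat (nat_lit 560952), .ofNat (nat_lit 682859), .ofNat (nat_lit 605237), .ofNat (nat_lit 727168)⟩, ⟨.ofNat (nat_lit 132088), .ofNat (nat_lit 261131), .ofNat (nat_lit 175674), .ofNat (nat_lit 304717), .ofNat (nat_lit 139899), .ofNat (nat_lit 261806), .ofNat (nat_lit 184209), .ofNat (nat_lit 306116)⟩⟩, [⟨nat_lit 4, nat_lit 100, nat_lit 66, nat_lit 72, nat_lit 61297121⟩, ⟨nat_lit 7, nat_lit 77, nat_lit 100, nat_lit 72, nat_lit 19928182⟩]⟩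
noncomputable def p077_l123 : Lf2 := ⟨nat_lit 0, nat_lit 10, [nat_lit 0, nat_lit 5, nat_lit 5, nat_lit 20], false, nat_lit 80, nat_lit 160, nat_lit 0, nat_lit 336, ⟨nat_lit 177, nat_lit 823, nat_lit 0, nat_lit 8, nat_lit 292, nat_lit 823, nat_lit 88, nat_lit 0, nat_lit 0, nat_lit 0, nat_lit 0, nat_lit 0, nat_lit 41164011, nat_lit 22428450, nat_lit 3407539, nat_lit 4300534, true, true⟩,
 nat_lit 4445, nat_lit 0, nat_lit 0, nat_lit 0, nat_lit 3598, nat_lit 1905, nat_lit 457, nat_lit 0, nat_lit 0, nat_lit 156, nat_lit 0, nat_lit 0, nat_lit 0, nat_lit 0, nat_lit 0, nat_lit 329200, nat_lit 0, nat_lit 0, [(nat_lit 21, [(nat_lit 1, nat_lit 823)])],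
 ⟨p077_k20, nat_lit 0, nat_lit 0, nat_lit 302, nat_lit 0, nat_lit 566394, [nat_lit 1474993601, nat_lit 2058350401, nat_lit 2334166000], [], [nat_lit 25040608143, nat_lit 25931435014, nat_lit 26920159600, nat_lit 28100897736, nat_lit 25592610718, nat_lit 26445840766, nat_lit 27225314162, nat_lit 28004787558], nat_lit 1271250, nat_lit 1271250, nat_lit 1271250, nat_lit 1271250, nat_lit 490000, nat_lit 1100001, [nat_lit 490000, nat_lit 1100000, nat_lit 1442500], [nat_lit 6, nat_lit 40, nat_lit 40, nat_lit 80, nat_lit 3, nat_lit 249, nat_lit 40, nat_lit 8]⟩, ⟨p077_k18, nat_lit 0, nat_lit 0, nat_lit 828, nat_lit 0, nat_lit 1245335, [nat_lit 1106250000, nat_lit 1742034000, nat_lit 2101344000], [], [nat_lit 7447806732, nat_lit 7402781094, nat_lit 7570563624, nat_lit 7539110178, nat_lit 5824843330, nat_lit 5790751857, nat_lit 6085229211, nat_lit 6102133214], nat_lit 1271250, nat_lit 1271250, nat_lit 1271250, nat_lit 1271250,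 nat_lit 0, nat_lit 2373000, [nat_lit 1412500, nat_lit 1271250, nat_lit 1271250], [nat_lit 46, nat_lit 40, nat_lit 40, nat_lit 80, nat_lit 41, nat_lit 373, nat_lit 150, nat_lit 9]⟩,
 ⟨nat_lit 3162, nat_lit 3873, ⟨.ofNat (nat_lit 693563), .ofNat (nat_lit 758085), .ofNat (nat_lit 715356), .ofNat (nat_lit 779878), .ofNat (nat_lit 682859), .ofNat (nat_lit 743812), .ofNat (nat_lit 705013), .ofNat (nat_lit 765967)⟩, ⟨.ofNat (nat_lit 132088), .ofNat (nat_lit 261131), .ofNat (nat_lit 175674), .ofNat (nat_lit 304717), .ofNat (nat_lit 139899), .ofNat (nat_lit 261806), .ofNat (nat_lit 184209), .ofNat (nat_lit 306116)⟩⟩, [⟨nat_lit 13, nat_lit 66, nat_lit 72, nat_lit 100, nat_lit 197381005⟩, ⟨nat_lit 4, nat_lit 100, nat_lit 66, nat_lit 72, nat_lit 59786702⟩, ⟨nat_lit 22, nat_lit 77, nat_lit 100, nat_lit 99, nat_lit 12535590⟩]⟩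
noncomputable def p077_l124 : Lf2 := ⟨nat_lit 0, nat_lit 10, [nat_lit 0, nat_lit 5, nat_lit 5, nat_lit 20], false, nat_lit 80, nat_lit 160, nat_lit 0, nat_lit 336, ⟨nat_lit 260, nat_lit 740, nat_lit 0, nat_lit 8, nat_lit 304, nat_lit 740, nat_lit 88, nat_lit 0, nat_lit 0, nat_lit 0, nat_lit 0, nat_lit 0, nat_lit 40128161, nat_lit 23517948, nat_lit 3353891, nat_lit 4336388, true, true⟩,
 nat_lit 4631, nat_lit 0, nat_lit 0, nat_lit 0, nat_lit 3748, nat_lit 2214, nat_lit 231, nat_lit 0, nat_lit 0, nat_lit 402, nat_lit 0, nat_lit 0, nat_lit 0, nat_lit 0, nat_lit 0, nat_lit 296000, nat_lit 0, nat_lit 0, [(nat_lit 21, [(nat_lit 1, nat_lit 740)])],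
 ⟨p077_k20, nat_lit 0, nat_lit 0, nat_lit 313, nat_lit 0, nat_lit 593084, [nat_lit 1531168000, nat_lit 2323552001, nat_lit 2729080000], [], [nat_lit 25996419033, nat_lit 26787866481, nat_lit 27836137067, nat_lit 28862343655, nat_lit 26326347121, nat_lit 27047292417, nat_lit 28004870989, nat_lit 28652490370], nat_lit 1271250, nat_lit 1271250, nat_lit 1271250, nat_lit 1271250, nat_lit 490000, nat_lit 1100001, [nat_lit 490000, nat_lit 1100000, nat_lit 1442500], [nat_lit 6, nat_lit 40, nat_lit 40, nat_lit 80, nat_lit 3, nat_lit 249, nat_lit 40, nat_lit 8]⟩, ⟨p077_k19, nat_lit 0, nat_lit 0, nat_lit 763, nat_lit 0, nat_lit 1131586, [nat_lit 1625000000, nat_lit 2558920000, nat_lit 3086720000], [], [nat_lit 9802521284, nat_lit 9841206168, nat_lit 10309035293, nat_lit 10324743084, nat_lit 8467206829, nat_lit 8445875367, nat_lit 8761699261, nat_lit 8758898156], nat_lit 1271250, nat_lit 1271250, nat_lit 1271250, nat_lit 1271250,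 nat_lit 0, nat_lit 2373000, [nat_lit 1412500, nat_lit 1271250, nat_lit 1271250], [nat_lit 46, nat_lit 40, nat_lit 40, nat_lit 80, nat_lit 41, nat_lit 373, nat_lit 150, nat_lit 9]⟩,
 ⟨nat_lit 3162, nat_lit 3873, ⟨.ofNat (nat_lit 715356), .ofNat (nat_lit 792782), .ofNat (nat_lit 737150), .ofNat (nat_lit 814576), .ofNat (nat_lit 705013), .ofNat (nat_lit 778158), .ofNat (nat_lit 727168), .ofNat (nat_lit 800312)⟩, ⟨.ofNat (nat_lit 132088), .ofNat (nat_lit 261131), .ofNat (nat_lit 175674), .ofNat (nat_lit 304717), .ofNat (nat_lit 139899), .ofNat (nat_lit 261806), .ofNat (nat_lit 184209), .ofNat (nat_lit 306116)⟩⟩, [⟨nat_lit 13, nat_lit 67, nat_lit 65, nat_lit 100, nat_lit 57658438⟩, ⟨nat_lit 4, nat_lit 100, nat_lit 66, nat_lit 72, nat_lit 112111874⟩, ⟨nat_lit 22, nat_lit 74, nat_lit 100, nat_lit 98, nat_lit 35765994⟩]⟩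
noncomputable def p077_l125 : Lf2 := ⟨nat_lit 0, nat_lit 10, [nat_lit 0, nat_lit 5, nat_lit 5, nat_lit 20], false, nat_lit 160, nat_lit 260, nat_lit 0, nat_lit 360, ⟨nat_lit 224, nat_lit 776, nat_lit 0, nat_lit 6, nat_lit 276, nat_lit 776, nat_lit 146, nat_lit 0, nat_lit 0, nat_lit 0, nat_lit 0, nat_lit 0, nat_lit 39864425, nat_lit 19897042, nat_lit 7238533, nat_lit 4873039, true, true⟩,
 nat_lit 5205, nat_lit 0, nat_lit 0, nat_lit 0, nat_lit 3903, nat_lit 2230, nat_lit 0, nat_lit 0, nat_lit 0, nat_lit 230, nat_lit 0, nat_lit 0, nat_lit 0, nat_lit 0, nat_lit 0, nat_lit 776000, nat_lit 0, nat_lit 0, [(nat_lit 18, [(nat_lit 2, nat_lit 776)])],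
 ⟨p077_k17, nat_lit 0, nat_lit 0, nat_lit 206, nat_lit 0, nat_lit 397490, [nat_lit 1775816534, nat_lit 1861290667, nat_lit 1056076800], [], [nat_lit 21567264696, nat_lit 21825037042, nat_lit 27001179261, nat_lit 27200706266, nat_lit 24094676161, nat_lit 24320438149, nat_lit 29044087406, nat_lit 29270162856], nat_lit 1271250, nat_lit 1271250, nat_lit 1271250, nat_lit 1271250, nat_lit 1100001, nat_lit 1956250, [nat_lit 490000, nat_lit 1100000, nat_lit 1442500], [nat_lit 6, nat_lit 40, nat_lit 40, nat_lit 80, nat_lit 3, nat_lit 289, nat_lit 75, nat_lit 9]⟩, ⟨p077_k18, nat_lit 0, nat_lit 0, nat_lit 644, nat_lit 0, nat_lit 798362, [nat_lit 1400000000, nat_lit 2204608000, nat_lit 2659328000], [], [nat_lit 9625950768, nat_lit 9631180012, nat_lit 10234333784, nat_lit 10199219932, nat_lit 8375482928, nat_lit 8143346746, nat_lit 8317994414, nat_lit 8277245845], nat_lit 1271250, nat_lit 1271250, nat_lit 1271250, nat_lit 1271250,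 nat_lit 0, nat_lit 2542500, [nat_lit 1412500, nat_lit 1271250, nat_lit 1271250], [nat_lit 46, nat_lit 40, nat_lit 40, nat_lit 80, nat_lit 41, nat_lit 483, nat_lit 250, nat_lit 12]⟩,
 ⟨nat_lit 4330, nat_lit 4473, ⟨.ofNat (nat_lit 567977), .ofNat (nat_lit 792305), .ofNat (nat_lit 589543), .ofNat (nat_lit 813871), .ofNat (nat_lit 567116), .ofNat (nat_lit 788604), .ofNat (nat_lit 588729), .ofNat (nat_lit 810217)⟩, ⟨.ofNat (nat_lit 259489), .ofNat (nat_lit 429434), .ofNat (nat_lit 302621), .ofNat (nat_lit 472567), .ofNat (nat_lit 259972), .ofNat (nat_lit 427766), .ofNat (nat_lit 303199), .ofNat (nat_lit 470993)⟩⟩, [⟨nat_lit 13, nat_lit 79, nat_lit 57, nat_lit 100, nat_lit 62339119⟩, ⟨nat_lit 4, nat_lit 100, nat_lit 80, nat_lit 72, nat_lit 237657511⟩, ⟨nat_lit 7, nat_lit 74, nat_lit 100, nat_lit 72, nat_lit 23729505⟩]⟩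
noncomputable def p077_l126 : Lf2 := ⟨nat_lit 0, nat_lit 10, [nat_lit 0, nat_lit 5, nat_lit 5, nat_lit 20], false, nat_lit 160, nat_lit 252, nat_lit 0, nat_lit 360, ⟨nat_lit 216, nat_lit 784, nat_lit 0, nat_lit 6, nat_lit 274, nat_lit 784, nat_lit 143, nat_lit 0, nat_lit 0, nat_lit 0, nat_lit 0, nat_lit 0, nat_lit 40200000, nat_lit 19743406, nat_lit 7056594, nat_lit 4836847, true, true⟩,
 nat_lit 5046, nat_lit 0, nat_lit 0, nat_lit 0, nat_lit 3858, nat_lit 2162, nat_lit 196, nat_lit 0, nat_lit 0, nat_lit 172, nat_lit 0, nat_lit 0, nat_lit 0, nat_lit 0, nat_lit 0, nat_lit 674800, nat_lit 0, nat_lit 0, [(nat_lit 18, [(nat_lit 1, nat_lit 182), (nat_lit 2, nat_lit 602)])],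
 ⟨p077_k25, nat_lit 0, nat_lit 0, nat_lit 213, nat_lit 0, nat_lit 418450, [nat_lit 1717896001, nat_lit 1999832001, nat_lit 1440059200], [], [nat_lit 21920749567, nat_lit 22177208723, nat_lit 26970680415, nat_lit 27164152118, nat_lit 24107400855, nat_lit 24327416699, nat_lit 28750324688, nat_lit 28981864745], nat_lit 1271250, nat_lit 1271250, nat_lit 1271250, nat_lit 1271250, nat_lit 1100001, nat_lit 1887750, [nat_lit 490000, nat_lit 1100000, nat_lit 1442500], [nat_lit 6, nat_lit 40, nat_lit 40, nat_lit 80, nat_lit 3, nat_lit 289, nat_lit 75, nat_lit 9]⟩, ⟨p077_k18, nat_lit 0, nat_lit 0, nat_lit 670, nat_lit 0, nat_lit 860103, [nat_lit 1350000000, nat_lit 2125872000, nat_lit 2564352000], [], [nat_lit 9245748048, nat_lit 9250389204, nat_lit 9804503663, nat_lit 9771358794, nat_lit 8070710448, nat_lit 7801334182, nat_lit 7962927886, nat_lit 7927305251], nat_lit 1271250, nat_lit 1271250, nat_lit 1271250, nat_lit 1271250,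 nat_lit 0, nat_lit 2542500, [nat_lit 1412500, nat_lit 1271250, nat_lit 1271250], [nat_lit 46, nat_lit 40, nat_lit 40, nat_lit 80, nat_lit 41, nat_lit 483, nat_lit 250, nat_lit 12]⟩,
 ⟨nat_lit 4183, nat_lit 4331, ⟨.ofNat (nat_lit 567116), .ofNat (nat_lit 781892), .ofNat (nat_lit 588729), .ofNat (nat_lit 803506), .ofNat (nat_lit 566254), .ofNat (nat_lit 778272), .ofNat (nat_lit 587920), .ofNat (nat_lit 799939)⟩, ⟨.ofNat (nat_lit 259972), .ofNat (nat_lit 414342), .ofNat (nat_lit 303199), .ofNat (nat_lit 457570), .ofNat (nat_lit 260409), .ofNat (nat_lit 412797), .ofNat (nat_lit 303743), .ofNat (nat_lit 456131)⟩⟩, [⟨nat_lit 13, nat_lit 78, nat_lit 55, nat_lit 100, nat_lit 64567735⟩, ⟨nat_lit 4, nat_lit 100, nat_lit 77, nat_lit 72, nat_lit 238337793⟩, ⟨nat_lit 7, nat_lit 74, nat_lit 100, nat_lit 72, nat_lit 23089459⟩]⟩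
noncomputable def p077_l127 : Lf2 := ⟨nat_lit 0, nat_lit 10, [nat_lit 0, nat_lit 5, nat_lit 5, nat_lit 20], false, nat_lit 160, nat_lit 244, nat_lit 0, nat_lit 360, ⟨nat_lit 206, nat_lit 794, nat_lit 0, nat_lit 6, nat_lit 268, nat_lit 794, nat_lit 140, nat_lit 0, nat_lit 0, nat_lit 0, nat_lit 0, nat_lit 0, nat_lit 40866877, nat_lit 19227307, nat_lit 6905816, nat_lit 4783427, true, true⟩,
 nat_lit 4918, nat_lit 0, nat_lit 0, nat_lit 0, nat_lit 3833, nat_lit 2107, nat_lit 553, nat_lit 0, nat_lit 0, nat_lit 170, nat_lit 0, nat_lit 0, nat_lit 0, nat_lit 0, nat_lit 0, nat_lit 317600, nat_lit 0, nat_lit 0, [(nat_lit 18, [(nat_lit 1, nat_lit 794)])],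
 ⟨p077_k21, nat_lit 0, nat_lit 0, nat_lit 224, nat_lit 0, nat_lit 455279, [nat_lit 1528709867, nat_lit 2527261334, nat_lit 2844375200], [], [nat_lit 22446073268, nat_lit 22926147572, nat_lit 26799147458, nat_lit 27171544952, nat_lit 24251111302, nat_lit 24670474640, nat_lit 28257841965, nat_lit 28738255531], nat_lit 1271250, nat_lit 1271250, nat_lit 1271250, nat_lit 1271250, nat_lit 1100001, nat_lit 1819250, [nat_lit 490000, nat_lit 1100000, nat_lit 1442500], [nat_lit 6, nat_lit 40, nat_lit 40, nat_lit 80, nat_lit 3, nat_lit 289, nat_lit 75, nat_lit 9]⟩, ⟨p077_k18, nat_lit 0, nat_lit 0, nat_lit 711, nat_lit 0, nat_lit 957359, [nat_lit 1287500000, nat_lit 2027452000, nat_lit 2445632000], [], [nat_lit 8676654888, nat_lit 8678090861, nat_lit 9155904048, nat_lit 9140247442, nat_lit 7675191488, nat_lit 7266509598, nat_lit 7440401628, nat_lit 7430939653], nat_lit 1271250, nat_lit 1271250, nat_lit 1271250, nat_lit 1271250,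 nat_lit 0, nat_lit 2542500, [nat_lit 1412500, nat_lit 1271250, nat_lit 1271250], [nat_lit 46, nat_lit 40, nat_lit 40, nat_lit 80, nat_lit 41, nat_lit 483, nat_lit 250, nat_lit 12]⟩,
 ⟨nat_lit 3872, nat_lit 4184, ⟨.ofNat (nat_lit 566254), .ofNat (nat_lit 765021), .ofNat (nat_lit 577087), .ofNat (nat_lit 775854), .ofNat (nat_lit 564520), .ofNat (nat_lit 758085), .ofNat (nat_lit 575417), .ofNat (nat_lit 768981)⟩, ⟨.ofNat (nat_lit 260409), .ofNat (nat_lit 399546), .ofNat (nat_lit 303743), .ofNat (nat_lit 442879), .ofNat (nat_lit 261131), .ofNat (nat_lit 396626), .ofNat (nat_lit 304717), .ofNat (nat_lit 440213)⟩⟩, [⟨nat_lit 13, nat_lit 74, nat_lit 66, nat_lit 100, nat_lit 57371184⟩, ⟨nat_lit 4, nat_lit 100, nat_lit 74, nat_lit 72, nat_lit 239961255⟩, ⟨nat_lit 7, nat_lit 72, nat_lit 100, nat_lit 71, nat_lit 23119577⟩]⟩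
noncomputable def p077_l128 : Lf2 := ⟨nat_lit 0, nat_lit 10, [nat_lit 0, nat_lit 5, nat_lit 5, nat_lit 20], false, nat_lit 160, nat_lit 244, nat_lit 0, nat_lit 356, ⟨nat_lit 257, nat_lit 743, nat_lit 0, nat_lit 6, nat_lit 275, nat_lit 743, nat_lit 140, nat_lit 0, nat_lit 0, nat_lit 0, nat_lit 0, nat_lit 0, nat_lit 40283130, nat_lit 19873783, nat_lit 6843087, nat_lit 4811185, true, true⟩,
 nat_lit 5170, nat_lit 0, nat_lit 0, nat_lit 0, nat_lit 4030, nat_lit 2343, nat_lit 298, nat_lit 0, nat_lit 0, nat_lit 440, nat_lit 0, nat_lit 0, nat_lit 0, nat_lit 0, nat_lit 0, nat_lit 329600, nat_lit 0, nat_lit 0, [(nat_lit 18, [(nat_lit 1, nat_lit 689), (nat_lit 2, nat_lit 54)])],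
 ⟨p077_k21, nat_lit 0, nat_lit 0, nat_lit 230, nat_lit 0, nat_lit 468763, [nat_lit 1577438667, nat_lit 2616297334, nat_lit 2933308400], [], [nat_lit 22750511062, nat_lit 23241043702, nat_lit 27523602335, nat_lit 27894903447, nat_lit 24553411488, nat_lit 24980996701, nat_lit 28892627077, nat_lit 29371265513], nat_lit 1271250, nat_lit 1271250, nat_lit 1271250, nat_lit 1271250, nat_lit 1100001, nat_lit 1819250, [nat_lit 490000, nat_lit 1100000, nat_lit 1442500], [nat_lit 6, nat_lit 40, nat_lit 40, nat_lit 80, nat_lit 3, nat_lit 289, nat_lit 75, nat_lit 9]⟩, ⟨p077_k26, nat_lit 0, nat_lit 0, nat_lit 691, nat_lit 0, nat_lit 916612, [nat_lit 1606250000, nat_lit 2529394000, nat_lit 3051104000], [], [nat_lit 10316940064, nat_lit 10323654480, nat_lit 10959853843, nat_lit 10945764967, nat_lit 9106528591, nat_lit 8864073640, nat_lit 9116371869, nat_lit 9106308109], nat_lit 1271250, nat_lit 1271250, nat_lit 1271250, nat_lit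 1271250, nat_lit 0, nat_lit 2514250, [nat_lit 1412500, nat_lit 1271250, nat_lit 1271250], [nat_lit 46, nat_lit 40, nat_lit 40, nat_lit 80, nat_lit 41, nat_lit 483, nat_lit 250, nat_lit 12]⟩,
 ⟨nat_lit 3872, nat_lit 4184, ⟨.ofNat (nat_lit 577087), .ofNat (nat_lit 789105), .ofNat (nat_lit 587919), .ofNat (nat_lit 799939), .ofNat (nat_lit 575417), .ofNat (nat_lit 781886), .ofNat (nat_lit 586312), .ofNat (nat_lit 792782)⟩, ⟨.ofNat (nat_lit 260409), .ofNat (nat_lit 399546), .ofNat (nat_lit 303743), .ofNat (nat_lit 442879), .ofNat (nat_lit 261131), .ofNat (nat_lit 396626), .ofNat (nat_lit 304717), .ofNat (nat_lit 440213)⟩⟩, [⟨nat_lit 13, nat_lit 74, nat_lit 62, nat_lit 100, nat_lit 44165380⟩, ⟨nat_lit 4, nat_lit 100, nat_lit 74, nat_lit 72, nat_lit 251864369⟩, ⟨nat_lit 7, nat_lit 75, nat_lit 100, nat_lit 72, nat_lit 33522609⟩]⟩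
noncomputable def p077_l129 : Lf2 := ⟨nat_lit 0, nat_lit 10, [nat_lit 0, nat_lit 5, nat_lit 5, nat_lit 20], false, nat_lit 160, nat_lit 260, nat_lit 0, nat_lit 348, ⟨nat_lit 373, nat_lit 627, nat_lit 0, nat_lit 6, nat_lit 288, nat_lit 627, nat_lit 146, nat_lit 0, nat_lit 0, nat_lit 0, nat_lit 0, nat_lit 0, nat_lit 38872380, nat_lit 21017976, nat_lit 7109644, nat_lit 4912166, true, true⟩,
 nat_lit 6127, nat_lit 0, nat_lit 0, nat_lit 0, nat_lit 4377, nat_lit 2930, nat_lit 103, nat_lit 0, nat_lit 0, nat_lit 690, nat_lit 0, nat_lit 0, nat_lit 0, nat_lit 0, nat_lit 0, nat_lit 445800, nat_lit 0, nat_lit 0, [(nat_lit 18, [(nat_lit 1, nat_lit 302), (nat_lit 2, nat_lit 325)])],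
 ⟨p077_k17, nat_lit 0, nat_lit 0, nat_lit 233, nat_lit 0, nat_lit 468524, [nat_lit 1733278934, nat_lit 2682290667, nat_lit 2779371600], [], [nat_lit 22855525946, nat_lit 23333895746, nat_lit 28439746770, nat_lit 28805270676, nat_lit 24995893634, nat_lit 25398945942, nat_lit 30205023234, nat_lit 30659930661], nat_lit 1271250, nat_lit 1271250, nat_lit 1271250, nat_lit 1271250, nat_lit 1100001, nat_lit 1956250, [nat_lit 490000, nat_lit 1100000, nat_lit 1442500], [nat_lit 6, nat_lit 40, nat_lit 40, nat_lit 80, nat_lit 3, nat_lit 289, nat_lit 75, nat_lit 9]⟩, ⟨p077_k19, nat_lit 0, nat_lit 0, nat_lit 646, nat_lit 0, nat_lit 816601, [nat_lit 2331250000, nat_lit 3671066000, nat_lit 4428256000], [], [nat_lit 13981068670, nat_lit 14014442660, nat_lit 14974102579, nat_lit 14990065452, nat_lit 12682927389, nat_lit 12477134871, nat_lit 13019240968, nat_lit 13023622881], nat_lit 1271250, nat_lit 1271250, nat_lit 1271250, nat_lit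 1271250, nat_lit 0, nat_lit 2457750, [nat_lit 1412500, nat_lit 1271250, nat_lit 1271250], [nat_lit 46, nat_lit 40, nat_lit 40, nat_lit 80, nat_lit 41, nat_lit 483, nat_lit 250, nat_lit 12]⟩,
 ⟨nat_lit 4183, nat_lit 4473, ⟨.ofNat (nat_lit 589541), .ofNat (nat_lit 834264), .ofNat (nat_lit 611104), .ofNat (nat_lit 855828), .ofNat (nat_lit 587919), .ofNat (nat_lit 826441), .ofNat (nat_lit 609582), .ofNat (nat_lit 848105)⟩, ⟨.ofNat (nat_lit 259489), .ofNat (nat_lit 429434), .ofNat (nat_lit 302621), .ofNat (nat_lit 472567), .ofNat (nat_lit 260409), .ofNat (nat_lit 426048), .ofNat (nat_lit 303743), .ofNat (nat_lit 469382)⟩⟩, [⟨nat_lit 4, nat_lit 100, nat_lit 79, nat_lit 72, nat_lit 286354227⟩, ⟨nat_lit 19, nat_lit 100, nat_lit 81, nat_lit 72, nat_lit 60418365⟩]⟩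
noncomputable def p077_l130 : Lf2 := ⟨nat_lit 0, nat_lit 10, [nat_lit 0, nat_lit 5, nat_lit 5, nat_lit 20], false, nat_lit 160, nat_lit 244, nat_lit 0, nat_lit 348, ⟨nat_lit 353, nat_lit 647, nat_lit 0, nat_lit 6, nat_lit 284, nat_lit 647, nat_lit 140, nat_lit 0, nat_lit 0, nat_lit 0, nat_lit 0, nat_lit 0, nat_lit 39523452, nat_lit 20717648, nat_lit 6758900, nat_lit 4843376, true, true⟩,
 nat_lit 5801, nat_lit 0, nat_lit 0, nat_lit 0, nat_lit 4522, nat_lit 2774, nat_lit 222, nat_lit 0, nat_lit 0, nat_lit 694, nat_lit 0, nat_lit 0, nat_lit 0, nat_lit 0, nat_lit 0, nat_lit 258800, nat_lit 0, nat_lit 0, [(nat_lit 18, [(nat_lit 1, nat_lit 647)])],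
 ⟨p077_k21, nat_lit 0, nat_lit 0, nat_lit 244, nat_lit 0, nat_lit 503782, [nat_lit 1621888267, nat_lit 2927297334, nat_lit 3474887600], [], [nat_lit 23980784385, nat_lit 24418663903, nat_lit 28643249500, nat_lit 28985606024, nat_lit 25437849053, nat_lit 25818891979, nat_lit 29841837386, nat_lit 30330965014], nat_lit 1271250, nat_lit 1271250, nat_lit 1271250, nat_lit 1271250, nat_lit 1100001, nat_lit 1819250, [nat_lit 490000, nat_lit 1100000, nat_lit 1442500], [nat_lit 6, nat_lit 40, nat_lit 40, nat_lit 80, nat_lit 3, nat_lit 289, nat_lit 75, nat_lit 9]⟩, ⟨p077_k19, nat_lit 0, nat_lit 0, nat_lit 690, nat_lit 0, nat_lit 919272, [nat_lit 2206250000, nat_lit 3474226000, nat_lit 4190816000], [], [nat_lit 13031626758, nat_lit 13063174052, nat_lit 13896863504, nat_lit 13878207405, nat_lit 12001769830, nat_lit 11606982231, nat_lit 12086021169, nat_lit 12110787687], nat_lit 1271250, nat_lit 1271250, nat_lit 1271250, nat_lit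 1271250, nat_lit 0, nat_lit 2457750, [nat_lit 1412500, nat_lit 1271250, nat_lit 1271250], [nat_lit 46, nat_lit 40, nat_lit 40, nat_lit 80, nat_lit 41, nat_lit 483, nat_lit 250, nat_lit 12]⟩,
 ⟨nat_lit 3872, nat_lit 4184, ⟨.ofNat (nat_lit 587919), .ofNat (nat_lit 813190), .ofNat (nat_lit 609582), .ofNat (nat_lit 834857), .ofNat (nat_lit 586312), .ofNat (nat_lit 805687), .ofNat (nat_lit 608101), .ofNat (nat_lit 827480)⟩, ⟨.ofNat (nat_lit 260409), .ofNat (nat_lit 399546), .ofNat (nat_lit 303743), .ofNat (nat_lit 442879), .ofNat (nat_lit 261131), .ofNat (nat_lit 396626), .ofNat (nat_lit 304717), .ofNat (nat_lit 440213)⟩⟩, [⟨nat_lit 4, nat_lit 100, nat_lit 74, nat_lit 72, nat_lit 283221195⟩, ⟨nat_lit 7, nat_lit 81, nat_lit 100, nat_lit 72, nat_lit 59290408⟩]⟩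
noncomputable def p077_l131 : Lf2 := ⟨nat_lit 0, nat_lit 10, [nat_lit 0, nat_lit 5, nat_lit 5, nat_lit 20], false, nat_lit 160, nat_lit 232, nat_lit 0, nat_lit 360, ⟨nat_lit 182, nat_lit 818, nat_lit 0, nat_lit 6, nat_lit 268, nat_lit 818, nat_lit 136, nat_lit 0, nat_lit 0, nat_lit 0, nat_lit 0, nat_lit 0, nat_lit 41054050, nat_lit 19341397, nat_lit 6604553, nat_lit 4742517, true, true⟩,
 nat_lit 4338, nat_lit 0, nat_lit 0, nat_lit 0, nat_lit 3511, nat_lit 1859, nat_lit 412, nat_lit 0, nat_lit 0, nat_lit 148, nat_lit 0, nat_lit 0, nat_lit 0, nat_lit 0, nat_lit 0, nat_lit 327200, nat_lit 0, nat_lit 0, [(nat_lit 21, [(nat_lit 1, nat_lit 818)])],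
 ⟨p077_k20, nat_lit 0, nat_lit 0, nat_lit 242, nat_lit 0, nat_lit 506781, [nat_lit 1478377601, nat_lit 2074326401, nat_lit 2357956000], [], [nat_lit 22626956633, nat_lit 23105679991, nat_lit 26960432497, nat_lit 27370287815, nat_lit 24181972110, nat_lit 24610142590, nat_lit 28174444085, nat_lit 28639387342], nat_lit 1271250, nat_lit 1271250, nat_lit 1271250, nat_lit 1271250, nat_lit 1100001, nat_lit 1716500, [nat_lit 490000, nat_lit 1100000, nat_lit 1442500], [nat_lit 6, nat_lit 40, nat_lit 40, nat_lit 80, nat_lit 3, nat_lit 272, nat_lit 60, nat_lit 9]⟩, ⟨p077_k18, nat_lit 0, nat_lit 0, nat_lit 778, nat_lit 0, nat_lit 1114264, [nat_lit 1137500000, nat_lit 1791244000, nat_lit 2160704000], [], [nat_lit 8030693372, nat_lit 8003306428, nat_lit 8199013524, nat_lit 8150425400, nat_lit 6782218976, nat_lit 6482935277, nat_lit 6578010556, nat_lit 6571326456], nat_lit 1271250, nat_lit 1271250, nat_lit 1271250, nat_lit 1271250,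 nat_lit 0, nat_lit 2542500, [nat_lit 1412500, nat_lit 1271250, nat_lit 1271250], [nat_lit 46, nat_lit 40, nat_lit 40, nat_lit 80, nat_lit 41, nat_lit 483, nat_lit 250, nat_lit 12]⟩,
 ⟨nat_lit 3535, nat_lit 3873, ⟨.ofNat (nat_lit 564520), .ofNat (nat_lit 758085), .ofNat (nat_lit 586313), .ofNat (nat_lit 779878), .ofNat (nat_lit 562760), .ofNat (nat_lit 751044), .ofNat (nat_lit 584712), .ofNat (nat_lit 772997)⟩, ⟨.ofNat (nat_lit 261131), .ofNat (nat_lit 377270), .ofNat (nat_lit 304717), .ofNat (nat_lit 420856), .ofNat (nat_lit 261616), .ofNat (nat_lit 374587), .ofNat (nat_lit 305521), .ofNat (nat_lit 418492)⟩⟩, [⟨nat_lit 13, nat_lit 69, nat_lit 69, nat_lit 100, nat_lit 106963967⟩, ⟨nat_lit 4, nat_lit 100, nat_lit 69, nat_lit 71, nat_lit 281373299⟩, ⟨nat_lit 7, nat_lit 74, nat_lit 100, nat_lit 72, nat_lit 19077275⟩]⟩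
noncomputable def p077_l132 : Lf2 := ⟨nat_lit 0, nat_lit 10, [nat_lit 0, nat_lit 5, nat_lit 5, nat_lit 20], false, nat_lit 160, nat_lit 216, nat_lit 0, nat_lit 360, ⟨nat_lit 173, nat_lit 827, nat_lit 0, nat_lit 6, nat_lit 263, nat_lit 827, nat_lit 131, nat_lit 0, nat_lit 0, nat_lit 0, nat_lit 0, nat_lit 0, nat_lit 41808356, nat_lit 18915569, nat_lit 6276075, nat_lit 4662615, true, true⟩,
 nat_lit 4179, nat_lit 0, nat_lit 0, nat_lit 0, nat_lit 3510, nat_lit 1790, nat_lit 348, nat_lit 0, nat_lit 0, nat_lit 144, nat_lit 0, nat_lit 0, nat_lit 0, nat_lit 0, nat_lit 0, nat_lit 330800, nat_lit 0, nat_lit 0, [(nat_lit 21, [(nat_lit 1, nat_lit 827)])],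
 ⟨p077_k22, nat_lit 0, nat_lit 0, nat_lit 221, nat_lit 0, nat_lit 542331, [nat_lit 1472286401, nat_lit 2038292000], [], [nat_lit 22772548364, nat_lit 23268187445, nat_lit 26838764234, nat_lit 27260482430, nat_lit 24036670183, nat_lit 24520493382, nat_lit 27790710528, nat_lit 28258006179], nat_lit 1271250, nat_lit 1271250, nat_lit 1271250, nat_lit 1271250, nat_lit 1100001, nat_lit 1579500, [nat_lit 490000, nat_lit 1100000], [nat_lit 24, nat_lit 40, nat_lit 40, nat_lit 80, nat_lit 33, nat_lit 203, nat_lit 0, nat_lit 7]⟩, ⟨p077_k18, nat_lit 0, nat_lit 0, nat_lit 846, nat_lit 0, nat_lit 1245335, [nat_lit 1081250000, nat_lit 1702666000, nat_lit 2053856000], [], [nat_lit 7534633928, nat_lit 7507534096, nat_lit 7663520614, nat_lit 7618225305, nat_lit 6435711596, nat_lit 6032206091, nat_lit 6141487086, nat_lit 6127554639], nat_lit 1271250, nat_lit 1271250, nat_lit 1271250, nat_lit 1271250, nat_lit 0, nat_lit 2542500, [nat_lit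 1412500, nat_lit 1271250, nat_lit 1271250], [nat_lit 46, nat_lit 40, nat_lit 40, nat_lit 80, nat_lit 41, nat_lit 483, nat_lit 250, nat_lit 12]⟩,
 ⟨nat_lit 3162, nat_lit 3536, ⟨.ofNat (nat_lit 562760), .ofNat (nat_lit 732216), .ofNat (nat_lit 584713), .ofNat (nat_lit 754168), .ofNat (nat_lit 560952), .ofNat (nat_lit 725526), .ofNat (nat_lit 583107), .ofNat (nat_lit 747681)⟩, ⟨.ofNat (nat_lit 261616), .ofNat (nat_lit 349482), .ofNat (nat_lit 305521), .ofNat (nat_lit 393387), .ofNat (nat_lit 261806), .ofNat (nat_lit 347141), .ofNat (nat_lit 306116), .ofNat (nat_lit 391450)⟩⟩, [⟨nat_lit 13, nat_lit 63, nat_lit 74, nat_lit 100, nat_lit 145831272⟩, ⟨nat_lit 4, nat_lit 100, nat_lit 63, nat_lit 72, nat_lit 353457476⟩, ⟨nat_lit 7, nat_lit 74, nat_lit 100, nat_lit 72, nat_lit 18351295⟩]⟩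
noncomputable def p077_l133 : Lf2 := ⟨nat_lit 0, nat_lit 10, [nat_lit 0, nat_lit 5, nat_lit 5, nat_lit 20], false, nat_lit 160, nat_lit 232, nat_lit 0, nat_lit 348, ⟨nat_lit 270, nat_lit 730, nat_lit 0, nat_lit 6, nat_lit 278, nat_lit 730, nat_lit 136, nat_lit 0, nat_lit 0, nat_lit 0, nat_lit 0, nat_lit 0, nat_lit 40185647, nat_lit 20316670, nat_lit 6497683, nat_lit 4780816, true, true⟩,
 nat_lit 4700, nat_lit 0, nat_lit 0, nat_lit 0, nat_lit 3804, nat_lit 2247, nat_lit 213, nat_lit 0, nat_lit 0, nat_lit 429, nat_lit 0, nat_lit 0, nat_lit 0, nat_lit 0, nat_lit 0, nat_lit 292000, nat_lit 0, nat_lit 0, [(nat_lit 21, [(nat_lit 1, nat_lit 730)])],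
 ⟨p077_k20, nat_lit 0, nat_lit 0, nat_lit 272, nat_lit 0, nat_lit 593084, [nat_lit 1537936000, nat_lit 2355504000, nat_lit 2776660000], [], [nat_lit 24007207968, nat_lit 24853057024, nat_lit 28066681346, nat_lit 28717784628, nat_lit 25297592134, nat_lit 26054775141, nat_lit 28922314537, nat_lit 29844397215], nat_lit 1271250, nat_lit 1271250, nat_lit 1271250, nat_lit 1271250, nat_lit 1100001, nat_lit 1716500, [nat_lit 490000, nat_lit 1100000, nat_lit 1442500], [nat_lit 6, nat_lit 40, nat_lit 40, nat_lit 80, nat_lit 3, nat_lit 272, nat_lit 60, nat_lit 9]⟩, ⟨p077_k19, nat_lit 0, nat_lit 0, nat_lit 779, nat_lit 0, nat_lit 1131586, [nat_lit 1687500000, nat_lit 2657340000, nat_lit 3205440000], [], [nat_lit 10150240716, nat_lit 10148660268, nat_lit 10747435567, nat_lit 10765713766, nat_lit 9054208863, nat_lit 8754770973, nat_lit 9261700119, nat_lit 9256510571], nat_lit 1271250, nat_lit 1271250, nat_lit 1271250, nat_lit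 1271250, nat_lit 0, nat_lit 2457750, [nat_lit 1412500, nat_lit 1271250, nat_lit 1271250], [nat_lit 46, nat_lit 40, nat_lit 40, nat_lit 80, nat_lit 41, nat_lit 483, nat_lit 250, nat_lit 12]⟩,
 ⟨nat_lit 3162, nat_lit 3873, ⟨.ofNat (nat_lit 586313), .ofNat (nat_lit 792782), .ofNat (nat_lit 608082), .ofNat (nat_lit 814576), .ofNat (nat_lit 583107), .ofNat (nat_lit 778158), .ofNat (nat_lit 605237), .ofNat (nat_lit 800312)⟩, ⟨.ofNat (nat_lit 261131), .ofNat (nat_lit 377270), .ofNat (nat_lit 304717), .ofNat (nat_lit 420856), .ofNat (nat_lit 261806), .ofNat (nat_lit 371522), .ofNat (nat_lit 306116), .ofNat (nat_lit 415832)⟩⟩, [⟨nat_lit 13, nat_lit 67, nat_lit 65, nat_lit 100, nat_lit 42766026⟩, ⟨nat_lit 16, nat_lit 66, nat_lit 100, nat_lit 72, nat_lit 302512529⟩, ⟨nat_lit 19, nat_lit 100, nat_lit 81, nat_lit 72, nat_lit 41981777⟩]⟩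
noncomputable def b_V_800_500_10_5 : St := ⟨true, nat_lit 1, nat_lit 1, nat_lit 1, nat_lit 80, nat_lit 320, nat_lit 360, nat_lit 200, nat_lit 240, nat_lit 240, nat_lit 384, nat_lit 40, nat_lit 80, nat_lit 0, nat_lit 260, nat_lit 0, nat_lit 360, nat_lit 0, nat_lit 40, nat_lit 0, nat_lit 0, nat_lit 0, nat_lit 0⟩
theorem d_V_800_500_10_5 (h : EB TB.env) : Dead b_V_800_500_10_5 := chkB_sound0 h (T :=
(.spl (nat_lit 4) (nat_lit 160)
(.spl (nat_lit 0) (nat_lit 340)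
(.spl (nat_lit 2) (nat_lit 320)
(.spl (nat_lit 0) (nat_lit 330)
(.spl (nat_lit 1) (nat_lit 220)
(.leaf p077_l111)
(.trX (nat_lit 19) (nat_lit 100) (nat_lit 68) (nat_lit 80) (nat_lit 348) (.leaf p077_l112)))
(.spl (nat_lit 1) (nat_lit 220)
(.leaf p077_l113)
(.trX (nat_lit 19) (nat_lit 100) (nat_lit 68) (nat_lit 80) (nat_lit 348) (.leaf p077_l114))))
(.trX (nat_lit 22) (nat_lit 82) (nat_lit 76) (nat_lit 100) (nat_lit 336) (.spl (nat_lit 1) (nat_lit 220)
(.trX (nat_lit 13) (nat_lit 80) (nat_lit 52) (nat_lit 100) (nat_lit 372) (.spl (nat_lit 4) (nat_lit 80)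
(.trX (nat_lit 22) (nat_lit 83) (nat_lit 100) (nat_lit 83) (nat_lit 260) (.leaf p077_l115))
(.leaf p077_l116)))
(.leaf p077_l117))))
(.trX (nat_lit 13) (nat_lit 73) (nat_lit 55) (nat_lit 100) (nat_lit 368) (.spl (nat_lit 4) (nat_lit 80)
(.trX (nat_lit 22) (nat_lit 100) (nat_lit 76) (nat_lit 82) (nat_lit 336) (.spl (nat_lit 2) (nat_lit 320)
(.spl (nat_lit 0) (nat_lit 350)
(.leaf p077_l118)
(.leaf p077_l119))
(.trX (nat_lit 22) (nat_lit 83) (nat_lit 100) (nat_lit 83) (nat_lit 260) (.spl (nat_lit 1) (nat_lit 220)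
(.trX (nat_lit 13) (nat_lit 72) (nat_lit 63) (nat_lit 100) (nat_lit 360) (.leaf p077_l120))
(.leaf p077_l121)))))
(.spl (nat_lit 2) (nat_lit 320)
(.leaf p077_l122)
(.trX (nat_lit 22) (nat_lit 82) (nat_lit 76) (nat_lit 100) (nat_lit 336) (.spl (nat_lit 1) (nat_lit 220)
(.trX (nat_lit 13) (nat_lit 72) (nat_lit 63) (nat_lit 100) (nat_lit 360) (.leaf p077_l123))
(.leaf p077_l124)))))))
(.spl (nat_lit 0) (nat_lit 340)
(.spl (nat_lit 1) (nat_lit 220)
(.trX (nat_lit 13) (nat_lit 80) (nat_lit 52) (nat_lit 100) (nat_lit 372) (.spl (nat_lit 0) (nat_lit 330)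
(.spl (nat_lit 0) (nat_lit 325)
(.leaf p077_l125)
(.trX (nat_lit 13) (nat_lit 78) (nat_lit 55) (nat_lit 100) (nat_lit 368) (.trX (nat_lit 16) (nat_lit 81) (nat_lit 100) (nat_lit 83) (nat_lit 252) (.leaf p077_l126))))
(.trX (nat_lit 13) (nat_lit 76) (nat_lit 57) (nat_lit 100) (nat_lit 368) (.trX (nat_lit 16) (nat_lit 78) (nat_lit 100) (nat_lit 82) (nat_lit 244) (.spl (nat_lit 1) (nat_lit 210)
(.trX (nat_lit 13) (nat_lit 76) (nat_lit 61) (nat_lit 100) (nat_lit 360) (.leaf p077_l127))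
(.trX (nat_lit 19) (nat_lit 100) (nat_lit 64) (nat_lit 80) (nat_lit 356) (.leaf p077_l128)))))))
(.trX (nat_lit 19) (nat_lit 100) (nat_lit 68) (nat_lit 80) (nat_lit 348) (.spl (nat_lit 0) (nat_lit 330)
(.leaf p077_l129)
(.trX (nat_lit 13) (nat_lit 78) (nat_lit 49) (nat_lit 100) (nat_lit 376) (.trX (nat_lit 16) (nat_lit 78) (nat_lit 100) (nat_lit 82) (nat_lit 244) (.leaf p077_l130))))))
(.trX (nat_lit 13) (nat_lit 73) (nat_lit 55) (nat_lit 100) (nat_lit 368) (.trX (nat_lit 16) (nat_lit 72) (nat_lit 100) (nat_lit 81) (nat_lit 232) (.spl (nat_lit 1) (nat_lit 220)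
(.trX (nat_lit 13) (nat_lit 72) (nat_lit 63) (nat_lit 100) (nat_lit 360) (.spl (nat_lit 0) (nat_lit 350)
(.leaf p077_l131)
(.trX (nat_lit 13) (nat_lit 66) (nat_lit 68) (nat_lit 100) (nat_lit 348) (.trX (nat_lit 16) (nat_lit 66) (nat_lit 100) (nat_lit 80) (nat_lit 216) (.leaf p077_l132)))))
(.trX (nat_lit 19) (nat_lit 100) (nat_lit 68) (nat_lit 80) (nat_lit 348) (.leaf p077_l133)))))))) (by decide +kernel)
noncomputable def p077_l134 : Lf2 := ⟨nat_lit 0, nat_lit 10, [nat_lit 0, nat_lit 5, nat_lit 5, nat_lit 20], true, nat_lit 0, nat_lit 160, nat_lit 0, nat_lit 360, ⟨nat_lit 0, nat_lit 1000, nat_lit 0, nat_lit 5, nat_lit 170, nat_lit 1000, nat_lit 57, nat_lit 0, nat_lit 0, nat_lit 0, nat_lit 0, nat_lit 0, nat_lit 0, nat_lit 0, nat_lit 0, nat_lit 5000000, false, false⟩,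
 nat_lit 0, nat_lit 5920, nat_lit 0, nat_lit 0, nat_lit 4439, nat_lit 0, nat_lit 1354, nat_lit 0, nat_lit 0, nat_lit 0, nat_lit 0, nat_lit 0, nat_lit 0, nat_lit 0, nat_lit 0, nat_lit 623200, nat_lit 0, nat_lit 0, [(nat_lit 18, [(nat_lit 1, nat_lit 628), (nat_lit 2, nat_lit 372)]), (nat_lit 21, [(nat_lit 1, nat_lit 628), (nat_lit 2, nat_lit 372)])],
 ⟨p077_k17, nat_lit 0, nat_lit 0, nat_lit 614, nat_lit 0, nat_lit 1063659, [nat_lit 1511122134, nat_lit 1623930667, nat_lit 1066512000], [], [nat_lit 26829185264, nat_lit 24960856384, nat_lit 23997192707, nat_lit 25919809212, nat_lit 22259239207, nat_lit 23501504003, nat_lit 25357143223, nat_lit 24072404786], nat_lit 1271250, nat_lit 1271250, nat_lit 230001, nat_lit 1717500, nat_lit 0, nat_lit 1100001, [nat_lit 490000, nat_lit 1100000, nat_lit 1442500], [nat_lit 6, nat_lit 40, nat_lit 40, nat_lit 80, nat_lit 3, nat_lit 317, nat_lit 100, nat_lit 12]⟩, C1.Rw.none,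
 ⟨nat_lit 3162, nat_lit 4473, ⟨.ofNat (nat_lit 227776), .ofNat (nat_lit 567977), .ofNat (nat_lit 270729), .ofNat (nat_lit 611007), .ofNat (nat_lit 255876), .ofNat (nat_lit 560952), .ofNat (nat_lit 300005), .ofNat (nat_lit 605159)⟩, ⟨.negSucc (nat_lit 12437), .ofNat (nat_lit 259488), .ofNat (nat_lit 0), .ofNat (nat_lit 302621), .ofNat (nat_lit 0), .ofNat (nat_lit 261805), .ofNat (nat_lit 0), .ofNat (nat_lit 306116)⟩⟩, []⟩
noncomputable def p077_l135 : Lf2 := ⟨nat_lit 0, nat_lit 10, [nat_lit 0, nat_lit 5, nat_lit 5, nat_lit 20], true, nat_lit 160, nat_lit 260, nat_lit 0, nat_lit 360, ⟨nat_lit 0, nat_lit 1000, nat_lit 0, nat_lit 5, nat_lit 170, nat_lit 1000, nat_lit 145, nat_lit 0, nat_lit 0, nat_lit 0, nat_lit 0, nat_lit 0, nat_lit 0, nat_lit 0, nat_lit 0, nat_lit 5000000, false, false⟩,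
 nat_lit 0, nat_lit 6039, nat_lit 0, nat_lit 0, nat_lit 4529, nat_lit 0, nat_lit 0, nat_lit 0, nat_lit 0, nat_lit 0, nat_lit 0, nat_lit 0, nat_lit 0, nat_lit 0, nat_lit 0, nat_lit 679000, nat_lit 0, nat_lit 0, [(nat_lit 18, [(nat_lit 1, nat_lit 535), (nat_lit 2, nat_lit 465)]), (nat_lit 21, [(nat_lit 1, nat_lit 535), (nat_lit 2, nat_lit 465)])],
 ⟨p077_k17, nat_lit 0, nat_lit 0, nat_lit 522, nat_lit 0, nat_lit 1063659, [nat_lit 1539369334, nat_lit 1538246667, nat_lit 842940000], [], [nat_lit 20350839584, nat_lit 21828169992, nat_lit 21379799480, nat_lit 22718757771, nat_lit 22040568970, nat_lit 24771371619, nat_lit 26874703095, nat_lit 25659276640], nat_lit 1271250, nat_lit 1271250, nat_lit 230001, nat_lit 1717500, nat_lit 1100001, nat_lit 1956250, [nat_lit 490000, nat_lit 1100000, nat_lit 1442500], [nat_lit 6, nat_lit 40, nat_lit 40, nat_lit 80, nat_lit 3, nat_lit 345, nat_lit 125, nat_lit 13]⟩, C1.Rw.none,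
 ⟨nat_lit 3162, nat_lit 4473, ⟨.ofNat (nat_lit 227776), .ofNat (nat_lit 567977), .ofNat (nat_lit 270729), .ofNat (nat_lit 611007), .ofNat (nat_lit 255876), .ofNat (nat_lit 560952), .ofNat (nat_lit 300005), .ofNat (nat_lit 605159)⟩, ⟨.ofNat (nat_lit 259488), .ofNat (nat_lit 429433), .ofNat (nat_lit 302621), .ofNat (nat_lit 472567), .ofNat (nat_lit 261805), .ofNat (nat_lit 414188), .ofNat (nat_lit 306116), .ofNat (nat_lit 458499)⟩⟩, [⟨nat_lit 4, nat_lit 100, nat_lit 71, nat_lit 71, nat_lit 782086773⟩]⟩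
noncomputable def p077_l136 : Lf2 := ⟨nat_lit 0, nat_lit 10, [nat_lit 0, nat_lit 5, nat_lit 5, nat_lit 20], false, nat_lit 0, nat_lit 260, nat_lit 0, nat_lit 360, ⟨nat_lit 316, nat_lit 684, nat_lit 0, nat_lit 6, nat_lit 275, nat_lit 684, nat_lit 90, nat_lit 0, nat_lit 0, nat_lit 0, nat_lit 0, nat_lit 0, nat_lit 0, nat_lit 0, nat_lit 0, nat_lit 5000000, true, true⟩,
 nat_lit 0, nat_lit 5424, nat_lit 0, nat_lit 0, nat_lit 4067, nat_lit 3152, nat_lit 0, nat_lit 0, nat_lit 0, nat_lit 946, nat_lit 0, nat_lit 0, nat_lit 0, nat_lit 0, nat_lit 0, nat_lit 684000, nat_lit 0, nat_lit 0, [(nat_lit 18, [(nat_lit 2, nat_lit 684)])],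
 ⟨p077_k17, nat_lit 0, nat_lit 0, nat_lit 396, nat_lit 0, nat_lit 678789, [nat_lit 1806188801, nat_lit 2196416001, nat_lit 1671851200], [], [nat_lit 26545130673, nat_lit 26938914825, nat_lit 30766725170, nat_lit 31083668290, nat_lit 27612559904, nat_lit 27916304717, nat_lit 30742866030, nat_lit 30977506300], nat_lit 1271250, nat_lit 1271250, nat_lit 1271250, nat_lit 1271250, nat_lit 0, nat_lit 1836250, [nat_lit 490000, nat_lit 1100000, nat_lit 1442500], [nat_lit 6, nat_lit 40, nat_lit 40, nat_lit 80, nat_lit 3, nat_lit 289, nat_lit 75, nat_lit 10]⟩, ⟨p077_k18, nat_lit 0, nat_lit 0, nat_lit 256, nat_lit 0, nat_lit 0, [nat_lit 1975000000, nat_lit 3110072000, nat_lit 3751552000], [], [nat_lit 8479514272, nat_lit 8815884320, nat_lit 12707979090, nat_lit 12875627885, nat_lit 9718445512, nat_lit 9827192420, nat_lit 11658625896, nat_lit 11669946164], nat_lit 0, nat_lit 0, nat_lit 0, nat_lit 0, nat_lit 0, nat_lit 0, [],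 [nat_lit 46, nat_lit 40, nat_lit 40, nat_lit 80, nat_lit 41, nat_lit 483, nat_lit 250, nat_lit 12]⟩,
 ⟨nat_lit 4183, nat_lit 4473, ⟨.ofNat (nat_lit 567977), .ofNat (nat_lit 792305), .ofNat (nat_lit 589541), .ofNat (nat_lit 813871), .ofNat (nat_lit 566254), .ofNat (nat_lit 784898), .ofNat (nat_lit 587919), .ofNat (nat_lit 806564)⟩, ⟨.negSucc (nat_lit 12423), .ofNat (nat_lit 429434), .ofNat (nat_lit 0), .ofNat (nat_lit 472567), .negSucc (nat_lit 4612), .ofNat (nat_lit 426048), .ofNat (nat_lit 0), .ofNat (nat_lit 469382)⟩⟩, [⟨nat_lit 13, nat_lit 78, nat_lit 59, nat_lit 100, nat_lit 132866542⟩, ⟨nat_lit 16, nat_lit 79, nat_lit 100, nat_lit 72, nat_lit 176177438⟩, ⟨nat_lit 7, nat_lit 74, nat_lit 100, nat_lit 72, nat_lit 62464232⟩]⟩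
noncomputable def p077_l137 : Lf2 := ⟨nat_lit 0, nat_lit 10, [nat_lit 0, nat_lit 5, nat_lit 5, nat_lit 20], false, nat_lit 0, nat_lit 260, nat_lit 0, nat_lit 348, ⟨nat_lit 517, nat_lit 483, nat_lit 0, nat_lit 6, nat_lit 288, nat_lit 483, nat_lit 90, nat_lit 0, nat_lit 0, nat_lit 0, nat_lit 0, nat_lit 0, nat_lit 0, nat_lit 0, nat_lit 0, nat_lit 5000000, true, true⟩,
 nat_lit 0, nat_lit 6524, nat_lit 0, nat_lit 0, nat_lit 4892, nat_lit 3613, nat_lit 89, nat_lit 0, nat_lit 0, nat_lit 1465, nat_lit 0, nat_lit 0, nat_lit 0, nat_lit 0, nat_lit 0, nat_lit 483000, nat_lit 0, nat_lit 0, [(nat_lit 18, [(nat_lit 2, nat_lit 483)])],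
 ⟨p077_k17, nat_lit 0, nat_lit 0, nat_lit 430, nat_lit 0, nat_lit 767582, [nat_lit 1872545601, nat_lit 2928592000, nat_lit 3017184400], [], [nat_lit 28046070241, nat_lit 28405271381, nat_lit 33572121732, nat_lit 34224042591, nat_lit 27787742269, nat_lit 28063350972, nat_lit 30997617871, nat_lit 31209298388], nat_lit 1271250, nat_lit 1271250, nat_lit 1271250, nat_lit 1271250, nat_lit 0, nat_lit 1836250, [nat_lit 490000, nat_lit 1100000, nat_lit 1442500], [nat_lit 6, nat_lit 40, nat_lit 40, nat_lit 80, nat_lit 3, nat_lit 289, nat_lit 75, nat_lit 10]⟩, ⟨p077_k19, nat_lit 0, nat_lit 0, nat_lit 260, nat_lit 0, nat_lit 0, [nat_lit 3231250000, nat_lit 5088314000, nat_lit 6137824000], [], [nat_lit 13753794654, nat_lit 14150010148, nat_lit 18344526236, nat_lit 18535200213, nat_lit 15049207519, nat_lit 15200727077, nat_lit 17457950791, nat_lit 17542251221], nat_lit 0, nat_lit 0, nat_lit 0, nat_lit 0, nat_lit 0, nat_lit 0,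 [], [nat_lit 46, nat_lit 40, nat_lit 40, nat_lit 80, nat_lit 41, nat_lit 483, nat_lit 250, nat_lit 12]⟩,
 ⟨nat_lit 4183, nat_lit 4473, ⟨.ofNat (nat_lit 589541), .ofNat (nat_lit 834264), .ofNat (nat_lit 611104), .ofNat (nat_lit 855828), .ofNat (nat_lit 587919), .ofNat (nat_lit 826441), .ofNat (nat_lit 609582), .ofNat (nat_lit 848105)⟩, ⟨.negSucc (nat_lit 12423), .ofNat (nat_lit 429434), .ofNat (nat_lit 0), .ofNat (nat_lit 472567), .negSucc (nat_lit 4612), .ofNat (nat_lit 426048), .ofNat (nat_lit 0), .ofNat (nat_lit 469382)⟩⟩, [⟨nat_lit 4, nat_lit 100, nat_lit 79, nat_lit 72, nat_lit 113333296⟩, ⟨nat_lit 19, nat_lit 100, nat_lit 81, nat_lit 72, nat_lit 118301747⟩]⟩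
noncomputable def p077_l138 : Lf2 := ⟨nat_lit 0, nat_lit 10, [nat_lit 0, nat_lit 5, nat_lit 5, nat_lit 20], false, nat_lit 0, nat_lit 244, nat_lit 0, nat_lit 360, ⟨nat_lit 566, nat_lit 434, nat_lit 0, nat_lit 6, nat_lit 279, nat_lit 434, nat_lit 84, nat_lit 0, nat_lit 0, nat_lit 0, nat_lit 0, nat_lit 0, nat_lit 0, nat_lit 0, nat_lit 0, nat_lit 5000000, true, true⟩,
 nat_lit 0, nat_lit 5566, nat_lit 0, nat_lit 0, nat_lit 4338, nat_lit 5515, nat_lit 1065, nat_lit 0, nat_lit 0, nat_lit 434, nat_lit 0, nat_lit 0, nat_lit 0, nat_lit 0, nat_lit 0, nat_lit 173600, nat_lit 0, nat_lit 0, [(nat_lit 18, [(nat_lit 1, nat_lit 434)])],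
 ⟨p077_k21, nat_lit 0, nat_lit 0, nat_lit 447, nat_lit 0, nat_lit 820346, [nat_lit 1756901867, nat_lit 3506941334, nat_lit 4388487200], [], [nat_lit 26349939453, nat_lit 26751384261, nat_lit 32096629169, nat_lit 32730068806, nat_lit 26817620904, nat_lit 27116374572, nat_lit 29919556110, nat_lit 30145858001], nat_lit 1271250, nat_lit 1271250, nat_lit 1271250, nat_lit 1271250, nat_lit 0, nat_lit 1723250, [nat_lit 490000, nat_lit 1100000, nat_lit 1442500], [nat_lit 6, nat_lit 40, nat_lit 40, nat_lit 80, nat_lit 3, nat_lit 289, nat_lit 75, nat_lit 10]⟩, ⟨p077_k18, nat_lit 0, nat_lit 0, nat_lit 258, nat_lit 0, nat_lit 0, [nat_lit 3537500000, nat_lit 5570572000, nat_lit 6719552000], [], [nat_lit 17099539392, nat_lit 18171477980, nat_lit 23893120295, nat_lit 24317961660, nat_lit 18051574292, nat_lit 18326602762, nat_lit 21145799291, nat_lit 21093445667], nat_lit 0, nat_lit 0, nat_lit 0, nat_lit 0, nat_lit 0, nat_lit 0,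 [], [nat_lit 46, nat_lit 40, nat_lit 40, nat_lit 80, nat_lit 41, nat_lit 483, nat_lit 250, nat_lit 12]⟩,
 ⟨nat_lit 3872, nat_lit 4184, ⟨.ofNat (nat_lit 566254), .ofNat (nat_lit 791523), .ofNat (nat_lit 609582), .ofNat (nat_lit 834857), .ofNat (nat_lit 564520), .ofNat (nat_lit 783893), .ofNat (nat_lit 608101), .ofNat (nat_lit 827480)⟩, ⟨.negSucc (nat_lit 4619), .ofNat (nat_lit 399546), .ofNat (nat_lit 0), .ofNat (nat_lit 442879), .ofNat (nat_lit 0), .ofNat (nat_lit 396626), .ofNat (nat_lit 0), .ofNat (nat_lit 440213)⟩⟩, [⟨nat_lit 4, nat_lit 100, nat_lit 74, nat_lit 72, nat_lit 135060735⟩, ⟨nat_lit 7, nat_lit 77, nat_lit 100, nat_lit 72, nat_lit 91229862⟩]⟩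
noncomputable def p077_l139 : Lf2 := ⟨nat_lit 0, nat_lit 10, [nat_lit 0, nat_lit 5, nat_lit 5, nat_lit 20], false, nat_lit 0, nat_lit 232, nat_lit 0, nat_lit 360, ⟨nat_lit 618, nat_lit 382, nat_lit 0, nat_lit 6, nat_lit 274, nat_lit 382, nat_lit 79, nat_lit 0, nat_lit 0, nat_lit 0, nat_lit 0, nat_lit 0, nat_lit 0, nat_lit 0, nat_lit 0, nat_lit 5000000, true, true⟩,
 nat_lit 0, nat_lit 4822, nat_lit 0, nat_lit 0, nat_lit 3903, nat_lit 6117, nat_lit 755, nat_lit 0, nat_lit 0, nat_lit 490, nat_lit 0, nat_lit 0, nat_lit 0, nat_lit 0, nat_lit 0, nat_lit 152800, nat_lit 0, nat_lit 0, [(nat_lit 21, [(nat_lit 1, nat_lit 382)])],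
 ⟨p077_k20, nat_lit 0, nat_lit 0, nat_lit 504, nat_lit 0, nat_lit 960176, [nat_lit 1773462401, nat_lit 3467433600, nat_lit 4432444000], [], [nat_lit 27621722091, nat_lit 28441370173, nat_lit 31592517176, nat_lit 32227425264, nat_lit 28582233091, nat_lit 29209117615, nat_lit 31763313149, nat_lit 32352180915], nat_lit 1271250, nat_lit 1271250, nat_lit 1271250, nat_lit 1271250, nat_lit 0, nat_lit 1638500, [nat_lit 490000, nat_lit 1100000, nat_lit 1442500], [nat_lit 6, nat_lit 40, nat_lit 40, nat_lit 80, nat_lit 3, nat_lit 272, nat_lit 60, nat_lit 9]⟩, ⟨p077_k18, nat_lit 0, nat_lit 0, nat_lit 254, nat_lit 0, nat_lit 0, [nat_lit 3862500000, nat_lit 6082356000, nat_lit 7336896000], [], [nat_lit 18622627904, nat_lit 19800610532, nat_lit 25578150832, nat_lit 26084337527, nat_lit 19598550956, nat_lit 19895016086, nat_lit 22721181502, nat_lit 22709399024], nat_lit 0, nat_lit 0, nat_lit 0, nat_lit 0, nat_lit 0, nat_lit 0,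 [], [nat_lit 46, nat_lit 40, nat_lit 40, nat_lit 80, nat_lit 41, nat_lit 483, nat_lit 250, nat_lit 12]⟩,
 ⟨nat_lit 3162, nat_lit 3873, ⟨.ofNat (nat_lit 564520), .ofNat (nat_lit 770989), .ofNat (nat_lit 608082), .ofNat (nat_lit 814576), .ofNat (nat_lit 560952), .ofNat (nat_lit 756003), .ofNat (nat_lit 605237), .ofNat (nat_lit 800312)⟩, ⟨.ofNat (nat_lit 0), .ofNat (nat_lit 377270), .ofNat (nat_lit 0), .ofNat (nat_lit 420856), .ofNat (nat_lit 0), .ofNat (nat_lit 371522), .ofNat (nat_lit 0), .ofNat (nat_lit 415832)⟩⟩, [⟨nat_lit 4, nat_lit 100, nat_lit 66, nat_lit 72, nat_lit 275758449⟩, ⟨nat_lit 7, nat_lit 77, nat_lit 100, nat_lit 72, nat_lit 102347193⟩]⟩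
noncomputable def p077_l140 : Lf2 := ⟨nat_lit 0, nat_lit 10, [nat_lit 0, nat_lit 5, nat_lit 5, nat_lit 20], false, nat_lit 0, nat_lit 260, nat_lit 0, nat_lit 360, ⟨nat_lit 0, nat_lit 1000, nat_lit 0, nat_lit 5, nat_lit 170, nat_lit 1000, nat_lit 89, nat_lit 0, nat_lit 0, nat_lit 0, nat_lit 0, nat_lit 0, nat_lit 0, nat_lit 0, nat_lit 0, nat_lit 5000000, false, false⟩,
 nat_lit 0, nat_lit 5918, nat_lit 0, nat_lit 0, nat_lit 4438, nat_lit 0, nat_lit 0, nat_lit 0, nat_lit 0, nat_lit 0, nat_lit 0, nat_lit 0, nat_lit 0, nat_lit 0, nat_lit 23, nat_lit 1000000, nat_lit 0, nat_lit 0, [(nat_lit 18, [(nat_lit 2, nat_lit 1000)]), (nat_lit 21, [(nat_lit 2, nat_lit 1000)])],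
 ⟨p077_k17, nat_lit 0, nat_lit 0, nat_lit 437, nat_lit 0, nat_lit 649247, [nat_lit 1885866667, nat_lit 1413333334, nat_lit 16800000], [], [nat_lit 28220668767, nat_lit 24957992128, nat_lit 22106238240, nat_lit 25917838904, nat_lit 21066173768, nat_lit 24641040418, nat_lit 30012159883, nat_lit 26259999527], nat_lit 1271250, nat_lit 1271250, nat_lit 230001, nat_lit 1717500, nat_lit 0, nat_lit 1836250, [nat_lit 490000, nat_lit 1100000, nat_lit 1442500], [nat_lit 6, nat_lit 40, nat_lit 40, nat_lit 80, nat_lit 3, nat_lit 345, nat_lit 125, nat_lit 13]⟩, ⟨p077_k18, nat_lit 0, nat_lit 0, nat_lit 979, nat_lit 0, nat_lit 1304018, [nat_lit 0, nat_lit 0, nat_lit 0], [], [nat_lit 0, nat_lit 0, nat_lit 0, nat_lit 0, nat_lit 0, nat_lit 0, nat_lit 0, nat_lit 0], nat_lit 1271250, nat_lit 1271250, nat_lit 230001, nat_lit 1717500, nat_lit 0, nat_lit 2542500, [nat_lit 1412500, nat_lit 1271250, nat_lit 1271250], [nat_lit 46, nat_lit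 40, nat_lit 40, nat_lit 80, nat_lit 41, nat_lit 456, nat_lit 225, nat_lit 12]⟩,
 ⟨nat_lit 3162, nat_lit 4473, ⟨.ofNat (nat_lit 227776), .ofNat (nat_lit 567977), .ofNat (nat_lit 270729), .ofNat (nat_lit 611007), .ofNat (nat_lit 255876), .ofNat (nat_lit 560952), .ofNat (nat_lit 300005), .ofNat (nat_lit 605159)⟩, ⟨.negSucc (nat_lit 12437), .ofNat (nat_lit 429433), .ofNat (nat_lit 0), .ofNat (nat_lit 472567), .ofNat (nat_lit 0), .ofNat (nat_lit 414188), .ofNat (nat_lit 0), .ofNat (nat_lit 458499)⟩⟩, [⟨nat_lit 4, nat_lit 100, nat_lit 71, nat_lit 71, nat_lit 250241117⟩]⟩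
noncomputable def p077_l141 : Lf2 := ⟨nat_lit 0, nat_lit 10, [nat_lit 0, nat_lit 5, nat_lit 5, nat_lit 20], false, nat_lit 0, nat_lit 260, nat_lit 0, nat_lit 360, ⟨nat_lit 0, nat_lit 1000, nat_lit 0, nat_lit 6, nat_lit 281, nat_lit 1000, nat_lit 89, nat_lit 0, nat_lit 0, nat_lit 0, nat_lit 0, nat_lit 0, nat_lit 0, nat_lit 0, nat_lit 0, nat_lit 5000000, true, true⟩,
 nat_lit 0, nat_lit 4642, nat_lit 0, nat_lit 0, nat_lit 3481, nat_lit 0, nat_lit 0, nat_lit 0, nat_lit 0, nat_lit 0, nat_lit 0, nat_lit 0, nat_lit 0, nat_lit 0, nat_lit 0, nat_lit 722800, nat_lit 0, nat_lit 0, [(nat_lit 18, [(nat_lit 1, nat_lit 462), (nat_lit 2, nat_lit 538)]), (nat_lit 21, [(nat_lit 1, nat_lit 462), (nat_lit 2, nat_lit 538)])],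
 ⟨p077_k17, nat_lit 0, nat_lit 0, nat_lit 389, nat_lit 0, nat_lit 649247, [nat_lit 1561541867, nat_lit 1470989334, nat_lit 667448000], [], [nat_lit 25318114198, nat_lit 26894836906, nat_lit 30187203023, nat_lit 32092132524, nat_lit 27212764800, nat_lit 28524929258, nat_lit 31045269852, nat_lit 32052330789], nat_lit 1271250, nat_lit 1271250, nat_lit 1271250, nat_lit 1271250, nat_lit 0, nat_lit 1836250, [nat_lit 490000, nat_lit 1100000, nat_lit 1442500], [nat_lit 6, nat_lit 40, nat_lit 40, nat_lit 80, nat_lit 3, nat_lit 289, nat_lit 75, nat_lit 10]⟩, ⟨p077_k18, nat_lit 0, nat_lit 0, nat_lit 871, nat_lit 0, nat_lit 1304018, [nat_lit 0, nat_lit 0, nat_lit 0], [], [nat_lit 0, nat_lit 0, nat_lit 0, nat_lit 0, nat_lit 0, nat_lit 0, nat_lit 0, nat_lit 0], nat_lit 1271250, nat_lit 1271250, nat_lit 1271250, nat_lit 1271250, nat_lit 0, nat_lit 2542500, [nat_lit 1412500, nat_lit 1271250, nat_lit 1271250], [nat_lit 46, nat_lit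 40, nat_lit 40, nat_lit 80, nat_lit 41, nat_lit 483, nat_lit 250, nat_lit 12]⟩,
 ⟨nat_lit 3162, nat_lit 4473, ⟨.ofNat (nat_lit 567977), .ofNat (nat_lit 812698), .ofNat (nat_lit 611007), .ofNat (nat_lit 855831), .ofNat (nat_lit 560952), .ofNat (nat_lit 780384), .ofNat (nat_lit 605159), .ofNat (nat_lit 824694)⟩, ⟨.negSucc (nat_lit 12437), .ofNat (nat_lit 429433), .ofNat (nat_lit 0), .ofNat (nat_lit 472567), .ofNat (nat_lit 0), .ofNat (nat_lit 414188), .ofNat (nat_lit 0), .ofNat (nat_lit 458499)⟩⟩, [⟨nat_lit 13, nat_lit 72, nat_lit 63, nat_lit 100, nat_lit 308024375⟩, ⟨nat_lit 4, nat_lit 100, nat_lit 71, nat_lit 71, nat_lit 146646541⟩]⟩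
noncomputable def b_V_800_500_10_6 : St := ⟨true, nat_lit 1, nat_lit 2, nat_lit 2, nat_lit 80, nat_lit 320, nat_lit 360, nat_lit 200, nat_lit 240, nat_lit 40, nat_lit 384, nat_lit 40, nat_lit 80, nat_lit 0, nat_lit 260, nat_lit 0, nat_lit 360, nat_lit 0, nat_lit 40, nat_lit 0, nat_lit 0, nat_lit 0, nat_lit 0⟩
theorem d_V_800_500_10_6 (h : EB TB.env) : Dead b_V_800_500_10_6 := chkB_sound0 h (T :=
(.st (nat_lit 1)
(.spl (nat_lit 2) (nat_lit 240)
(.spl (nat_lit 4) (nat_lit 160)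
(.leaf p077_l134)
(.leaf p077_l135))
(.spl (nat_lit 0) (nat_lit 340)
(.spl (nat_lit 0) (nat_lit 330)
(.spl (nat_lit 1) (nat_lit 220)
(.trX (nat_lit 13) (nat_lit 80) (nat_lit 52) (nat_lit 100) (nat_lit 372) (.leaf p077_l136))
(.trX (nat_lit 19) (nat_lit 100) (nat_lit 68) (nat_lit 80) (nat_lit 348) (.leaf p077_l137)))
(.trX (nat_lit 13) (nat_lit 78) (nat_lit 49) (nat_lit 100) (nat_lit 376) (.trX (nat_lit 16) (nat_lit 78) (nat_lit 100) (nat_lit 82) (nat_lit 244) (.leaf p077_l138))))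
(.trX (nat_lit 13) (nat_lit 73) (nat_lit 55) (nat_lit 100) (nat_lit 368) (.trX (nat_lit 16) (nat_lit 72) (nat_lit 100) (nat_lit 81) (nat_lit 232) (.leaf p077_l139)))))
(.spl (nat_lit 2) (nat_lit 240)
(.leaf p077_l140)
(.leaf p077_l141)))) (by decide +kernel)
noncomputable def p077_l142 : Lf2 := ⟨nat_lit 0, nat_lit 20, [nat_lit 5, nat_lit 5, nat_lit 5, nat_lit 20], true, nat_lit 0, nat_lit 260, nat_lit 0, nat_lit 360, ⟨nat_lit 0, nat_lit 0, nat_lit 1000, nat_lit 5, nat_lit 144, nat_lit 1000, nat_lit 89, nat_lit 1000, nat_lit 72600, nat_lit 281, nat_lit 62098, nat_lit 276, nat_lit 59297469, nat_lit 0, nat_lit 0, nat_lit 1783836, false, false⟩,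
 nat_lit 0, nat_lit 0, nat_lit 0, nat_lit 3242, nat_lit 3444, nat_lit 0, nat_lit 0, nat_lit 0, nat_lit 0, nat_lit 0, nat_lit 0, nat_lit 0, nat_lit 0, nat_lit 0, nat_lit 81, nat_lit 250000, nat_lit 0, nat_lit 0, [(nat_lit 19, [(nat_lit 4, nat_lit 1000)]), (nat_lit 22, [(nat_lit 4, nat_lit 1000)])],
 ⟨p077_k27, nat_lit 0, nat_lit 0, nat_lit 292, nat_lit 0, nat_lit 0, [nat_lit 2166400000, nat_lit 172800000], [], [nat_lit 19387227584, nat_lit 22110921664, nat_lit 19447705536, nat_lit 21685194560, nat_lit 21041533992, nat_lit 23217422684, nat_lit 21318513480, nat_lit 23173715352], nat_lit 0, nat_lit 0, nat_lit 0, nat_lit 0, nat_lit 0, nat_lit 0, [], [nat_lit 94, nat_lit 40, nat_lit 40, nat_lit 80, nat_lit 95, nat_lit 345, nat_lit 125, nat_lit 10]⟩, C1.Rw.none,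
 ⟨nat_lit 3162, nat_lit 4473, ⟨.ofNat (nat_lit 227776), .ofNat (nat_lit 431944), .ofNat (nat_lit 270729), .ofNat (nat_lit 474896), .ofNat (nat_lit 255876), .ofNat (nat_lit 438969), .ofNat (nat_lit 300005), .ofNat (nat_lit 483097)⟩, ⟨.negSucc (nat_lit 12437), .ofNat (nat_lit 429433), .ofNat (nat_lit 0), .ofNat (nat_lit 472567), .ofNat (nat_lit 0), .ofNat (nat_lit 414188), .ofNat (nat_lit 0), .ofNat (nat_lit 458499)⟩⟩, [⟨nat_lit 0, nat_lit 100, nat_lit 72, nat_lit 77, nat_lit 90929895⟩]⟩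
noncomputable def p077_l143 : Lf2 := ⟨nat_lit 0, nat_lit 20, [nat_lit 5, nat_lit 5, nat_lit 5, nat_lit 20], false, nat_lit 0, nat_lit 260, nat_lit 0, nat_lit 360, ⟨nat_lit 140, nat_lit 0, nat_lit 860, nat_lit 5, nat_lit 209, nat_lit 860, nat_lit 89, nat_lit 860, nat_lit 72600, nat_lit 281, nat_lit 5755, nat_lit 209, nat_lit 52663715, nat_lit 0, nat_lit 0, nat_lit 2595874, false, false⟩,
 nat_lit 0, nat_lit 0, nat_lit 0, nat_lit 2273, nat_lit 3716, nat_lit 3003, nat_lit 0, nat_lit 0, nat_lit 0, nat_lit 0, nat_lit 0, nat_lit 0, nat_lit 0, nat_lit 0, nat_lit 44, nat_lit 283400, nat_lit 0, nat_lit 0, [(nat_lit 19, [(nat_lit 4, nat_lit 404), (nat_lit 5, nat_lit 456)]), (nat_lit 22, [(nat_lit 4, nat_lit 404), (nat_lit 5, nat_lit 456)])],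
 ⟨p077_k27, nat_lit 0, nat_lit 0, nat_lit 174, nat_lit 0, nat_lit 0, [nat_lit 1899622401, nat_lit 238555200], [], [nat_lit 20279822416, nat_lit 22983127040, nat_lit 22481674048, nat_lit 24830316240, nat_lit 21904703722, nat_lit 23646423018, nat_lit 23372765026, nat_lit 25136387560], nat_lit 0, nat_lit 0, nat_lit 0, nat_lit 0, nat_lit 0, nat_lit 0, [], [nat_lit 94, nat_lit 40, nat_lit 40, nat_lit 80, nat_lit 95, nat_lit 345, nat_lit 125, nat_lit 10]⟩, ⟨p077_k28, nat_lit 0, nat_lit 0, nat_lit 228, nat_lit 0, nat_lit 0, [nat_lit 875000000, nat_lit 1968120000], [], [nat_lit 6123958260, nat_lit 6512758700, nat_lit 6546145144, nat_lit 6812780688, nat_lit 5180056266, nat_lit 5181170176, nat_lit 4960726288, nat_lit 4901072750], nat_lit 0, nat_lit 0, nat_lit 0, nat_lit 0, nat_lit 0, nat_lit 0, [], [nat_lit 149, nat_lit 40, nat_lit 40, nat_lit 80, nat_lit 68, nat_lit 456, nat_lit 225, nat_lit 11]⟩,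
 ⟨nat_lit 3162, nat_lit 4473, ⟨.ofNat (nat_lit 431944), .ofNat (nat_lit 567977), .ofNat (nat_lit 474896), .ofNat (nat_lit 611007), .ofNat (nat_lit 438969), .ofNat (nat_lit 560952), .ofNat (nat_lit 483097), .ofNat (nat_lit 605159)⟩, ⟨.negSucc (nat_lit 12437), .ofNat (nat_lit 429433), .ofNat (nat_lit 0), .ofNat (nat_lit 472567), .ofNat (nat_lit 0), .ofNat (nat_lit 414188), .ofNat (nat_lit 0), .ofNat (nat_lit 458499)⟩⟩, [⟨nat_lit 19, nat_lit 100, nat_lit 77, nat_lit 72, nat_lit 1043594⟩]⟩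
noncomputable def p077_l144 : Lf2 := ⟨nat_lit 0, nat_lit 20, [nat_lit 5, nat_lit 5, nat_lit 5, nat_lit 20], false, nat_lit 0, nat_lit 260, nat_lit 0, nat_lit 160, ⟨nat_lit 1000, nat_lit 0, nat_lit 0, nat_lit 0, nat_lit 0, nat_lit 0, nat_lit 0, nat_lit 0, nat_lit 0, nat_lit 0, nat_lit 0, nat_lit 0, nat_lit 0, nat_lit 0, nat_lit 0, nat_lit 0, false, false⟩,
 nat_lit 0, nat_lit 0, nat_lit 0, nat_lit 5300, nat_lit 9416, nat_lit 7076, nat_lit 0, nat_lit 0, nat_lit 0, nat_lit 0, nat_lit 0, nat_lit 0, nat_lit 0, nat_lit 0, nat_lit 0, nat_lit 0, nat_lit 0, nat_lit 0, [],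
 ⟨p077_k27, nat_lit 0, nat_lit 0, nat_lit 223, nat_lit 0, nat_lit 0, [nat_lit 2032000001, nat_lit 9842000000], [], [nat_lit 40138029792, nat_lit 42656971296, nat_lit 46424102132, nat_lit 49285851265, nat_lit 33289804712, nat_lit 34953506008, nat_lit 37235067623, nat_lit 38240862898], nat_lit 0, nat_lit 0, nat_lit 0, nat_lit 0, nat_lit 0, nat_lit 0, [], [nat_lit 94, nat_lit 40, nat_lit 40, nat_lit 80, nat_lit 95, nat_lit 401, nat_lit 175, nat_lit 11]⟩, ⟨p077_k28, nat_lit 0, nat_lit 0, nat_lit 266, nat_lit 0, nat_lit 0, [nat_lit 6250000000, nat_lit 14058000000], [], [nat_lit 40363836832, nat_lit 41399779008, nat_lit 48153617940, nat_lit 48699745453, nat_lit 35676724320, nat_lit 36531526128, nat_lit 41768611866, nat_lit 42098721524], nat_lit 0, nat_lit 0, nat_lit 0, nat_lit 0, nat_lit 0, nat_lit 0, [], [nat_lit 149, nat_lit 40, nat_lit 40, nat_lit 80, nat_lit 68, nat_lit 428, nat_lit 200, nat_lit 10]⟩,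
 zbF0, []⟩
noncomputable def p077_l145 : Lf2 := ⟨nat_lit 0, nat_lit 20, [nat_lit 5, nat_lit 5, nat_lit 5, nat_lit 20], false, nat_lit 0, nat_lit 260, nat_lit 160, nat_lit 360, ⟨nat_lit 1000, nat_lit 0, nat_lit 0, nat_lit 0, nat_lit 0, nat_lit 0, nat_lit 0, nat_lit 0, nat_lit 0, nat_lit 0, nat_lit 0, nat_lit 0, nat_lit 0, nat_lit 0, nat_lit 0, nat_lit 0, false, false⟩,
 nat_lit 0, nat_lit 0, nat_lit 0, nat_lit 5470, nat_lit 11463, nat_lit 6673, nat_lit 0, nat_lit 0, nat_lit 0, nat_lit 0, nat_lit 0, nat_lit 0, nat_lit 0, nat_lit 0, nat_lit 0, nat_lit 0, nat_lit 0, nat_lit 0, [],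
 ⟨p077_k27, nat_lit 0, nat_lit 0, nat_lit 223, nat_lit 0, nat_lit 0, [nat_lit 2032000001, nat_lit 9842000000], [], [nat_lit 38578854456, nat_lit 41412509928, nat_lit 50886796097, nat_lit 55216018452, nat_lit 29253749141, nat_lit 31078254569, nat_lit 37483172879, nat_lit 40425696915], nat_lit 0, nat_lit 0, nat_lit 0, nat_lit 0, nat_lit 0, nat_lit 0, [], [nat_lit 94, nat_lit 40, nat_lit 40, nat_lit 80, nat_lit 95, nat_lit 401, nat_lit 175, nat_lit 11]⟩, ⟨p077_k28, nat_lit 0, nat_lit 0, nat_lit 87, nat_lit 0, nat_lit 0, [nat_lit 6250000000, nat_lit 14058000000], [], [nat_lit 15102548060, nat_lit 17242476740, nat_lit 26945013016, nat_lit 28064994939, nat_lit 26694366220, nat_lit 27725401848, nat_lit 33736647178, nat_lit 34300477556], nat_lit 0, nat_lit 0, nat_lit 0, nat_lit 0, nat_lit 0, nat_lit 0, [], [nat_lit 149, nat_lit 40, nat_lit 40, nat_lit 80, nat_lit 68, nat_lit 483, nat_lit 250, nat_lit 11]⟩,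
 zbF0, [⟨nat_lit 19, nat_lit 100, nat_lit 60, nat_lit 80, nat_lit 287453300⟩, ⟨nat_lit 10, nat_lit 60, nat_lit 83, nat_lit 100, nat_lit 209735818⟩]⟩
noncomputable def b_V_800_500_10_7 : St := ⟨true, nat_lit 0, nat_lit 0, nat_lit 1, nat_lit 80, nat_lit 320, nat_lit 360, nat_lit 200, nat_lit 240, nat_lit 40, nat_lit 384, nat_lit 40, nat_lit 80, nat_lit 0, nat_lit 260, nat_lit 0, nat_lit 360, nat_lit 40, nat_lit 80, nat_lit 0, nat_lit 0, nat_lit 0, nat_lit 0⟩
theorem d_V_800_500_10_7 (h : EB TB.env) : Dead b_V_800_500_10_7 := chkB_sound0 h (T :=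
(.spl (nat_lit 2) (nat_lit 240)
(.spl (nat_lit 2) (nat_lit 160)
(.leaf p077_l142)
(.leaf p077_l143))
(.spl (nat_lit 5) (nat_lit 160)
(.leaf p077_l144)
(.leaf p077_l145)))) (by decide +kernel)
noncomputable def p077_l146 : Lf2 := ⟨nat_lit 0, nat_lit 20, [nat_lit 5, nat_lit 5, nat_lit 5, nat_lit 20], true, nat_lit 0, nat_lit 160, nat_lit 0, nat_lit 360, ⟨nat_lit 0, nat_lit 0, nat_lit 1000, nat_lit 5, nat_lit 169, nat_lit 505, nat_lit 56, nat_lit 1000, nat_lit 29400, nat_lit 257, nat_lit 817, nat_lit 208, nat_lit 56860881, nat_lit 0, nat_lit 0, nat_lit 2125045, false, false⟩,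
 nat_lit 0, nat_lit 0, nat_lit 0, nat_lit 5469, nat_lit 3324, nat_lit 0, nat_lit 0, nat_lit 0, nat_lit 0, nat_lit 0, nat_lit 0, nat_lit 0, nat_lit 0, nat_lit 0, nat_lit 91, nat_lit 280150, nat_lit 0, nat_lit 0, [(nat_lit 19, [(nat_lit 4, nat_lit 799), (nat_lit 5, nat_lit 201)])],
 ⟨p077_k27, nat_lit 0, nat_lit 0, nat_lit 286, nat_lit 0, nat_lit 0, [nat_lit 2227586400, nat_lit 201791200], [], [nat_lit 18934663568, nat_lit 20100632680, nat_lit 21084482192, nat_lit 22092177656, nat_lit 18237875440, nat_lit 19261180296, nat_lit 20643968896, nat_lit 21510860432], nat_lit 0, nat_lit 0, nat_lit 0, nat_lit 0, nat_lit 0, nat_lit 0, [], [nat_lit 94, nat_lit 40, nat_lit 40, nat_lit 80, nat_lit 95, nat_lit 317, nat_lit 100, nat_lit 9]⟩, C1.Rw.none,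
 ⟨nat_lit 3872, nat_lit 4473, ⟨.ofNat (nat_lit 228056), .ofNat (nat_lit 567977), .ofNat (nat_lit 271153), .ofNat (nat_lit 611083), .ofNat (nat_lit 241882), .ofNat (nat_lit 564520), .ofNat (nat_lit 285433), .ofNat (nat_lit 608080)⟩, ⟨.negSucc (nat_lit 12427), .ofNat (nat_lit 259489), .ofNat (nat_lit 0), .ofNat (nat_lit 302621), .ofNat (nat_lit 0), .ofNat (nat_lit 261131), .ofNat (nat_lit 0), .ofNat (nat_lit 304717)⟩⟩, []⟩
noncomputable def p077_l147 : Lf2 := ⟨nat_lit 0, nat_lit 20, [nat_lit 5, nat_lit 5, nat_lit 5, nat_lit 20], true, nat_lit 0, nat_lit 160, nat_lit 0, nat_lit 360, ⟨nat_lit 0, nat_lit 177, nat_lit 823, nat_lit 5, nat_lit 176, nat_lit 643, nat_lit 57, nat_lit 823, nat_lit 30817, nat_lit 258, nat_lit 600, nat_lit 209, nat_lit 56118806, nat_lit 10881194, nat_lit 0, nat_lit 2218188, false, false⟩,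
 nat_lit 0, nat_lit 0, nat_lit 0, nat_lit 1218, nat_lit 2996, nat_lit 0, nat_lit 0, nat_lit 0, nat_lit 0, nat_lit 0, nat_lit 0, nat_lit 0, nat_lit 0, nat_lit 0, nat_lit 58, nat_lit 250000, nat_lit 0, nat_lit 0, [(nat_lit 22, [(nat_lit 0, nat_lit 177), (nat_lit 4, nat_lit 823)])],
 ⟨p077_k29, nat_lit 0, nat_lit 0, nat_lit 222, nat_lit 0, nat_lit 0, [nat_lit 1968793600, nat_lit 13915429], [], [nat_lit 19243670686, nat_lit 20484368512, nat_lit 22026610029, nat_lit 23079076464, nat_lit 19147043345, nat_lit 20293125481, nat_lit 22002677920, nat_lit 23123518800], nat_lit 0, nat_lit 0, nat_lit 0, nat_lit 0, nat_lit 0, nat_lit 0, [], [nat_lit 110, nat_lit 40, nat_lit 40, nat_lit 80, nat_lit 109, nat_lit 317, nat_lit 100, nat_lit 10]⟩, C1.Rw.none,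
 ⟨nat_lit 3162, nat_lit 3873, ⟨.ofNat (nat_lit 267606), .ofNat (nat_lit 564520), .ofNat (nat_lit 311135), .ofNat (nat_lit 608082), .ofNat (nat_lit 280451), .ofNat (nat_lit 560952), .ofNat (nat_lit 324704), .ofNat (nat_lit 605237)⟩, ⟨.ofNat (nat_lit 0), .ofNat (nat_lit 261131), .ofNat (nat_lit 0), .ofNat (nat_lit 304717), .ofNat (nat_lit 0), .ofNat (nat_lit 261806), .ofNat (nat_lit 0), .ofNat (nat_lit 306116)⟩⟩, []⟩
noncomputable def p077_l148 : Lf2 := ⟨nat_lit 0, nat_lit 20, [nat_lit 5, nat_lit 5, nat_lit 5, nat_lit 20], true, nat_lit 160, nat_lit 260, nat_lit 0, nat_lit 360, ⟨nat_lit 0, nat_lit 0, nat_lit 1000, nat_lit 5, nat_lit 170, nat_lit 1000, nat_lit 145, nat_lit 1000, nat_lit 89743, nat_lit 288, nat_lit 817, nat_lit 208, nat_lit 48867133, nat_lit 0, nat_lit 0, nat_lit 4121686, false, false⟩,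
 nat_lit 0, nat_lit 0, nat_lit 0, nat_lit 5085, nat_lit 3703, nat_lit 0, nat_lit 0, nat_lit 0, nat_lit 0, nat_lit 0, nat_lit 0, nat_lit 0, nat_lit 0, nat_lit 0, nat_lit 81, nat_lit 250000, nat_lit 0, nat_lit 0, [(nat_lit 19, [(nat_lit 4, nat_lit 1000)]), (nat_lit 22, [(nat_lit 4, nat_lit 1000)])],
 ⟨p077_k27, nat_lit 0, nat_lit 0, nat_lit 151, nat_lit 0, nat_lit 0, [nat_lit 2166400000, nat_lit 172800000], [], [nat_lit 17739262688, nat_lit 20388289928, nat_lit 19887675316, nat_lit 22241917580, nat_lit 20770437108, nat_lit 23588365333, nat_lit 22677886697, nat_lit 25128026480], nat_lit 0, nat_lit 0, nat_lit 0, nat_lit 0, nat_lit 0, nat_lit 0, [], [nat_lit 94, nat_lit 40, nat_lit 40, nat_lit 80, nat_lit 95, nat_lit 345, nat_lit 125, nat_lit 9]⟩, C1.Rw.none,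
 ⟨nat_lit 3162, nat_lit 4473, ⟨.ofNat (nat_lit 227776), .ofNat (nat_lit 567977), .ofNat (nat_lit 270729), .ofNat (nat_lit 611007), .ofNat (nat_lit 255876), .ofNat (nat_lit 560952), .ofNat (nat_lit 300005), .ofNat (nat_lit 605159)⟩, ⟨.ofNat (nat_lit 259488), .ofNat (nat_lit 429433), .ofNat (nat_lit 302621), .ofNat (nat_lit 472567), .ofNat (nat_lit 261805), .ofNat (nat_lit 414188), .ofNat (nat_lit 306116), .ofNat (nat_lit 458499)⟩⟩, [⟨nat_lit 16, nat_lit 71, nat_lit 100, nat_lit 71, nat_lit 313031897⟩]⟩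
noncomputable def b_V_800_500_10_8 : St := ⟨true, nat_lit 0, nat_lit 1, nat_lit 1, nat_lit 80, nat_lit 320, nat_lit 360, nat_lit 200, nat_lit 240, nat_lit 40, nat_lit 240, nat_lit 40, nat_lit 80, nat_lit 0, nat_lit 260, nat_lit 0, nat_lit 360, nat_lit 40, nat_lit 80, nat_lit 0, nat_lit 0, nat_lit 0, nat_lit 0⟩
theorem d_V_800_500_10_8 (h : EB TB.env) : Dead b_V_800_500_10_8 := chkB_sound0 h (T :=
(.spl (nat_lit 4) (nat_lit 160)
(.spl (nat_lit 0) (nat_lit 340)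
(.leaf p077_l146)
(.trZ (nat_lit 0) (nat_lit 100) (nat_lit 71) (nat_lit 70) (nat_lit 56) (.leaf p077_l147)))
(.leaf p077_l148))) (by decide +kernel)

end B2
end Pool.Agent.Lib.MP_6947cd_al
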