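import Pool.Agent.Lib.MP_6947cd_al.ZB.Pre

/-!
Problem MP_6947cd_al (Chollet).  Case B, second entry in [2/5, 17/20]: certificates of the tree, part P078 (generated).
-/

set_option autoImplicit false
set_option linter.all false

namespace Pool.Agent.Lib.MP_6947cd_al
namespace B2

open Ent Fr B1 PkA

noncomputable def p078_k0 : C1.Kn := ⟨[nat_lit 40, nat_lit 100, nat_lit 120], [nat_lit 0, nat_lit 0, nat_lit 2151], [(nat_lit 0, nat_lit 0, nat_lit 0), (nat_lit 0, nat_lit 0, nat_lit 0), (nat_lit 1000, nat_lit 815, nat_lit 753)], (nat_lit 81, nat_lit 100, nat_lit 72)⟩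
noncomputable def p078_k1 : C1.Kn := ⟨[nat_lit 100, nat_lit 160, nat_lit 180], [nat_lit 0, nat_lit 0, nat_lit 2560], [(nat_lit 0, nat_lit 0, nat_lit 0), (nat_lit 0, nat_lit 0, nat_lit 0), (nat_lit 600, nat_lit 1000, nat_lit 800)], (nat_lit 100, nat_lit 70, nat_lit 71)⟩
noncomputable def p078_k2 : C1.Kn := ⟨[nat_lit 40, nat_lit 80, nat_lit 120], [nat_lit 0, nat_lit 0, nat_lit 2151], [(nat_lit 0, nat_lit 0, nat_lit 0), (nat_lit 0, nat_lit 0, nat_lit 0), (nat_lit 1000, nat_lit 815, nat_lit 753)], (nat_lit 81, nat_lit 100, nat_lit 72)⟩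
noncomputable def p078_k3 : C1.Kn := ⟨[nat_lit 100, nat_lit 140, nat_lit 180], [nat_lit 0, nat_lit 508, nat_lit 2854], [(nat_lit 0, nat_lit 0, nat_lit 0), (nat_lit 1000, nat_lit 1000, nat_lit 198), (nat_lit 777, nat_lit 1000, nat_lit 712)], (nat_lit 100, nat_lit 77, nat_lit 72)⟩
noncomputable def p078_k4 : C1.Kn := ⟨[nat_lit 40, nat_lit 80, nat_lit 140], [nat_lit 0, nat_lit 0, nat_lit 3199], [(nat_lit 0, nat_lit 0, nat_lit 0), (nat_lit 0, nat_lit 0, nat_lit 0), (nat_lit 1000, nat_lit 833, nat_lit 833)], (nat_lit 83, nat_lit 100, nat_lit 83)⟩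
noncomputable def p078_k5 : C1.Kn := ⟨[nat_lit 100, nat_lit 140, nat_lit 180], [nat_lit 0, nat_lit 0, nat_lit 2434], [(nat_lit 0, nat_lit 0, nat_lit 0), (nat_lit 0, nat_lit 0, nat_lit 0), (nat_lit 726, nat_lit 1000, nat_lit 688)], (nat_lit 100, nat_lit 60, nat_lit 80)⟩
noncomputable def p078_k6 : C1.Kn := ⟨[nat_lit 100, nat_lit 140, nat_lit 180], [nat_lit 0, nat_lit 508, nat_lit 2854], [(nat_lit 0, nat_lit 0, nat_lit 0), (nat_lit 1000, nat_lit 1000, nat_lit 198), (nat_lit 777, nat_lit 1000, nat_lit 712)], (nat_lit 100, nat_lit 68, nat_lit 80)⟩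
noncomputable def p078_k7 : C1.Kn := ⟨[nat_lit 40, nat_lit 100, nat_lit 140], [nat_lit 0, nat_lit 0, nat_lit 3243], [(nat_lit 0, nat_lit 0, nat_lit 0), (nat_lit 0, nat_lit 0, nat_lit 0), (nat_lit 1000, nat_lit 870, nat_lit 941)], (nat_lit 83, nat_lit 100, nat_lit 83)⟩
noncomputable def p078_k8 : C1.Kn := ⟨[nat_lit 40, nat_lit 100, nat_lit 120], [nat_lit 0, nat_lit 1192, nat_lit 2817], [(nat_lit 0, nat_lit 0, nat_lit 0), (nat_lit 1000, nat_lit 814, nat_lit 310), (nat_lit 1000, nat_lit 727, nat_lit 834)], (nat_lit 72, nat_lit 100, nat_lit 81)⟩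
noncomputable def p078_k9 : C1.Kn := ⟨[nat_lit 100, nat_lit 160, nat_lit 180], [nat_lit 0, nat_lit 0, nat_lit 2560], [(nat_lit 0, nat_lit 0, nat_lit 0), (nat_lit 0, nat_lit 0, nat_lit 0), (nat_lit 600, nat_lit 1000, nat_lit 800)], (nat_lit 100, nat_lit 60, nat_lit 80)⟩
noncomputable def p078_k10 : C1.Kn := ⟨[nat_lit 40, nat_lit 100, nat_lit 120], [nat_lit 0, nat_lit 1192, nat_lit 2817], [(nat_lit 0, nat_lit 0, nat_lit 0), (nat_lit 1000, nat_lit 814, nat_lit 310), (nat_lit 1000, nat_lit 727, nat_lit 834)], (nat_lit 71, nat_lit 100, nat_lit 71)⟩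
noncomputable def p078_k11 : C1.Kn := ⟨[nat_lit 40, nat_lit 80, nat_lit 120], [nat_lit 0, nat_lit 1195, nat_lit 3135], [(nat_lit 0, nat_lit 0, nat_lit 0), (nat_lit 1000, nat_lit 720, nat_lit 465), (nat_lit 1000, nat_lit 661, nat_lit 757)], (nat_lit 66, nat_lit 100, nat_lit 80)⟩
noncomputable def p078_k12 : C1.Kn := ⟨[nat_lit 100, nat_lit 160, nat_lit 180], [nat_lit 0, nat_lit 761, nat_lit 3091], [(nat_lit 0, nat_lit 0, nat_lit 0), (nat_lit 1000, nat_lit 1000, nat_lit 198), (nat_lit 608, nat_lit 1000, nat_lit 857)], (nat_lit 100, nat_lit 77, nat_lit 72)⟩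
noncomputable def p078_k13 : C1.Kn := ⟨[nat_lit 40, nat_lit 80, nat_lit 120], [nat_lit 0, nat_lit 795, nat_lit 2800], [(nat_lit 0, nat_lit 0, nat_lit 0), (nat_lit 1000, nat_lit 814, nat_lit 310), (nat_lit 1000, nat_lit 719, nat_lit 783)], (nat_lit 72, nat_lit 100, nat_lit 81)⟩
noncomputable def p078_k14 : C1.Kn := ⟨[nat_lit 100, nat_lit 140, nat_lit 180], [nat_lit 0, nat_lit 766, nat_lit 3056], [(nat_lit 0, nat_lit 0, nat_lit 0), (nat_lit 1000, nat_lit 1000, nat_lit 299), (nat_lit 809, nat_lit 1000, nat_lit 722)], (nat_lit 100, nat_lit 72, nat_lit 81)⟩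
noncomputable def p078_k15 : C1.Kn := ⟨[nat_lit 100, nat_lit 140, nat_lit 180], [nat_lit 0, nat_lit 0, nat_lit 2434], [(nat_lit 0, nat_lit 0, nat_lit 0), (nat_lit 0, nat_lit 0, nat_lit 0), (nat_lit 726, nat_lit 1000, nat_lit 688)], (nat_lit 100, nat_lit 70, nat_lit 71)⟩
noncomputable def p078_k16 : C1.Kn := ⟨[nat_lit 40, nat_lit 80, nat_lit 120], [nat_lit 0, nat_lit 395, nat_lit 2466], [(nat_lit 0, nat_lit 0, nat_lit 0), (nat_lit 1000, nat_lit 908, nat_lit 154), (nat_lit 1000, nat_lit 773, nat_lit 792)], (nat_lit 76, nat_lit 100, nat_lit 72)⟩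
noncomputable def p078_k17 : C1.Kn := ⟨[nat_lit 100, nat_lit 140, nat_lit 180], [nat_lit 0, nat_lit 256, nat_lit 2643], [(nat_lit 0, nat_lit 0, nat_lit 0), (nat_lit 1000, nat_lit 1000, nat_lit 100), (nat_lit 751, nat_lit 1000, nat_lit 699)], (nat_lit 100, nat_lit 74, nat_lit 72)⟩
noncomputable def p078_k18 : C1.Kn := ⟨[nat_lit 40, nat_lit 60, nat_lit 120], [nat_lit 0, nat_lit 197, nat_lit 2006], [(nat_lit 0, nat_lit 0, nat_lit 0), (nat_lit 1000, nat_lit 908, nat_lit 154), (nat_lit 1000, nat_lit 781, nat_lit 471)], (nat_lit 76, nat_lit 100, nat_lit 72)⟩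
noncomputable def p078_k19 : C1.Kn := ⟨[nat_lit 100, nat_lit 120, nat_lit 180], [nat_lit 0, nat_lit 128, nat_lit 1711], [(nat_lit 0, nat_lit 0, nat_lit 0), (nat_lit 1000, nat_lit 1000, nat_lit 100), (nat_lit 941, nat_lit 1000, nat_lit 388)], (nat_lit 100, nat_lit 74, nat_lit 72)⟩
noncomputable def p078_k20 : C1.Kn := ⟨[nat_lit 40, nat_lit 60, nat_lit 120], [nat_lit 0, nat_lit 0, nat_lit 1823], [(nat_lit 0, nat_lit 0, nat_lit 0), (nat_lit 0, nat_lit 0, nat_lit 0), (nat_lit 1000, nat_lit 810, nat_lit 474)], (nat_lit 81, nat_lit 100, nat_lit 72)⟩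
noncomputable def p078_k21 : C1.Kn := ⟨[nat_lit 100, nat_lit 120, nat_lit 180], [nat_lit 0, nat_lit 254, nat_lit 1824], [(nat_lit 0, nat_lit 0, nat_lit 0), (nat_lit 1000, nat_lit 1000, nat_lit 198), (nat_lit 960, nat_lit 1000, nat_lit 392)], (nat_lit 100, nat_lit 77, nat_lit 72)⟩
noncomputable def p078_k22 : C1.Kn := ⟨[nat_lit 100, nat_lit 140, nat_lit 180], [nat_lit 0, nat_lit 766, nat_lit 3056], [(nat_lit 0, nat_lit 0, nat_lit 0), (nat_lit 1000, nat_lit 1000, nat_lit 299), (nat_lit 809, nat_lit 1000, nat_lit 722)], (nat_lit 100, nat_lit 81, nat_lit 72)⟩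
noncomputable def p078_k23 : C1.Kn := ⟨[nat_lit 40, nat_lit 80, nat_lit 120], [nat_lit 0, nat_lit 795, nat_lit 2800], [(nat_lit 0, nat_lit 0, nat_lit 0), (nat_lit 1000, nat_lit 814, nat_lit 310), (nat_lit 1000, nat_lit 719, nat_lit 783)], (nat_lit 71, nat_lit 100, nat_lit 71)⟩
noncomputable def p078_k24 : C1.Kn := ⟨[nat_lit 40, nat_lit 80, nat_lit 100], [nat_lit 0, nat_lit 1195, nat_lit 2166], [(nat_lit 0, nat_lit 0, nat_lit 0), (nat_lit 1000, nat_lit 720, nat_lit 465), (nat_lit 1000, nat_lit 662, nat_lit 740)], (nat_lit 66, nat_lit 100, nat_lit 72)⟩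
noncomputable def p078_k25 : C1.Kn := ⟨[nat_lit 40, nat_lit 80, nat_lit 120], [nat_lit 0, nat_lit 1399, nat_lit 3299], [(nat_lit 0, nat_lit 0, nat_lit 0), (nat_lit 1000, nat_lit 672, nat_lit 546), (nat_lit 1000, nat_lit 633, nat_lit 742)], (nat_lit 63, nat_lit 100, nat_lit 80)⟩
noncomputable def p078_k26 : C1.Kn := ⟨[nat_lit 40, nat_lit 80, nat_lit 100], [nat_lit 0, nat_lit 994, nat_lit 1992], [(nat_lit 0, nat_lit 0, nat_lit 0), (nat_lit 1000, nat_lit 767, nat_lit 387), (nat_lit 1000, nat_lit 689, nat_lit 725)], (nat_lit 69, nat_lit 100, nat_lit 71)⟩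
noncomputable def p078_k27 : C1.Kn := ⟨[nat_lit 40, nat_lit 80, nat_lit 140], [nat_lit 0, nat_lit 395, nat_lit 3500], [(nat_lit 0, nat_lit 0, nat_lit 0), (nat_lit 1000, nat_lit 908, nat_lit 154), (nat_lit 1000, nat_lit 776, nat_lit 808)], (nat_lit 78, nat_lit 100, nat_lit 82)⟩
noncomputable def p078_k28 : C1.Kn := ⟨[nat_lit 40, nat_lit 140], [nat_lit 0, nat_lit 0], [(nat_lit 0, nat_lit 0, nat_lit 0), (nat_lit 0, nat_lit 0, nat_lit 0)], (nat_lit 83, nat_lit 100, nat_lit 83)⟩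
noncomputable def p078_k29 : C1.Kn := ⟨[nat_lit 40, nat_lit 100, nat_lit 140], [nat_lit 0, nat_lit 592, nat_lit 3606], [(nat_lit 0, nat_lit 0, nat_lit 0), (nat_lit 1000, nat_lit 908, nat_lit 154), (nat_lit 1000, nat_lit 825, nat_lit 971)], (nat_lit 78, nat_lit 100, nat_lit 82)⟩
noncomputable def p078_k30 : C1.Kn := ⟨[nat_lit 40, nat_lit 100, nat_lit 120], [nat_lit 0, nat_lit 1790, nat_lit 3212], [(nat_lit 0, nat_lit 0, nat_lit 0), (nat_lit 1000, nat_lit 720, nat_lit 465), (nat_lit 1000, nat_lit 674, nat_lit 878)], (nat_lit 66, nat_lit 100, nat_lit 80)⟩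
noncomputable def p078_k31 : C1.Kn := ⟨[nat_lit 100, nat_lit 180], [nat_lit 0, nat_lit 0], [(nat_lit 0, nat_lit 0, nat_lit 0), (nat_lit 0, nat_lit 0, nat_lit 0)], (nat_lit 100, nat_lit 60, nat_lit 80)⟩
noncomputable def p078_k32 : C1.Kn := ⟨[nat_lit 40, nat_lit 120], [nat_lit 0, nat_lit 1589], [(nat_lit 0, nat_lit 0, nat_lit 0), (nat_lit 1000, nat_lit 814, nat_lit 310)], (nat_lit 72, nat_lit 100, nat_lit 81)⟩
noncomputable def p078_k33 : C1.Kn := ⟨[nat_lit 100, nat_lit 140, nat_lit 180], [nat_lit 0, nat_lit 256, nat_lit 2643], [(nat_lit 0, nat_lit 0, nat_lit 0), (nat_lit 1000, nat_lit 1000, nat_lit 100), (nat_lit 751, nat_lit 1000, nat_lit 699)], (nat_lit 100, nat_lit 64, nat_lit 80)⟩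
noncomputable def p078_k34 : C1.Kn := ⟨[nat_lit 40, nat_lit 60, nat_lit 120], [nat_lit 0, nat_lit 398, nat_lit 2180], [(nat_lit 0, nat_lit 0, nat_lit 0), (nat_lit 1000, nat_lit 814, nat_lit 310), (nat_lit 1000, nat_lit 752, nat_lit 464)], (nat_lit 72, nat_lit 100, nat_lit 81)⟩
noncomputable def p078_l0 : Lf2 := ⟨nat_lit 0, nat_lit 15, [nat_lit 30, nat_lit 5, nat_lit 5, nat_lit 20], false, nat_lit 0, nat_lit 80, nat_lit 0, nat_lit 336, ⟨nat_lit 21, nat_lit 523, nat_lit 456, nat_lit 6, nat_lit 257, nat_lit 317, nat_lit 28, nat_lit 456, nat_lit 6667, nat_lit 235, nat_lit 179748, nat_lit 200, nat_lit 47387302, nat_lit 19612698, nat_lit 0, nat_lit 3022875, true, true⟩,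
 nat_lit 0, nat_lit 0, nat_lit 594, nat_lit 2660, nat_lit 2880, nat_lit 254, nat_lit 0, nat_lit 0, nat_lit 0, nat_lit 10, nat_lit 0, nat_lit 0, nat_lit 0, nat_lit 0, nat_lit 0, nat_lit 313150, nat_lit 0, nat_lit 0, [(nat_lit 19, [(nat_lit 0, nat_lit 523), (nat_lit 5, nat_lit 456)])],
 ⟨p078_k0, nat_lit 0, nat_lit 0, nat_lit 175, nat_lit 0, nat_lit 0, [nat_lit 1344289601, nat_lit 884280801, nat_lit 393655200], [], [nat_lit 22135642241, nat_lit 23222477681, nat_lit 25356413441, nat_lit 26277876721, nat_lit 21240416321, nat_lit 22268928801, nat_lit 24314571361, nat_lit 25191350803], nat_lit 0, nat_lit 0, nat_lit 0, nat_lit 0, nat_lit 0, nat_lit 0, [], [nat_lit 102, nat_lit 40, nat_lit 40, nat_lit 80, nat_lit 2, nat_lit 226, nat_lit 20, nat_lit 7]⟩, ⟨p078_k1, nat_lit 0, nat_lit 0, nat_lit 773, nat_lit 0, nat_lit 932112, [nat_lit 131250000, nat_lit 249312000, nat_lit 295218000], [], [nat_lit 990360312, nat_lit 984175828,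 nat_lit 996304536, nat_lit 992346774, nat_lit 748605525, nat_lit 741933128, nat_lit 758959978, nat_lit 754359258], nat_lit 1271250, nat_lit 1271250, nat_lit 1271250, nat_lit 1271250, nat_lit 0, nat_lit 2373000, [nat_lit 1412500, nat_lit 1271250, nat_lit 1271250], [nat_lit 137, nat_lit 40, nat_lit 40, nat_lit 80, nat_lit 58, nat_lit 456, nat_lit 225, nat_lit 10]⟩,
 ⟨nat_lit 3872, nat_lit 4473, ⟨.ofNat (nat_lit 567977), .ofNat (nat_lit 703933), .ofNat (nat_lit 589534), .ofNat (nat_lit 725499), .ofNat (nat_lit 564520), .ofNat (nat_lit 693563), .ofNat (nat_lit 586304), .ofNat (nat_lit 715356)⟩, ⟨.negSucc (nat_lit 12427), .ofNat (nat_lit 123532), .ofNat (nat_lit 0), .ofNat (nat_lit 145099), .ofNat (nat_lit 0), .ofNat (nat_lit 132088), .ofNat (nat_lit 0), .ofNat (nat_lit 153881)⟩⟩, [⟨nat_lit 22, nat_lit 93, nat_lit 100, nat_lit 25, nat_lit 1856044⟩]⟩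
noncomputable def p078_l1 : Lf2 := ⟨nat_lit 0, nat_lit 15, [nat_lit 30, nat_lit 5, nat_lit 5, nat_lit 20], false, nat_lit 0, nat_lit 80, nat_lit 0, nat_lit 332, ⟨nat_lit 111, nat_lit 889, nat_lit 0, nat_lit 6, nat_lit 266, nat_lit 889, nat_lit 28, nat_lit 0, nat_lit 0, nat_lit 0, nat_lit 0, nat_lit 0, nat_lit 46455750, nat_lit 20544250, nat_lit 0, nat_lit 3081889, true, true⟩,
 nat_lit 0, nat_lit 0, nat_lit 2315, nat_lit 0, nat_lit 3026, nat_lit 1107, nat_lit 224, nat_lit 0, nat_lit 0, nat_lit 117, nat_lit 0, nat_lit 0, nat_lit 0, nat_lit 0, nat_lit 0, nat_lit 355600, nat_lit 0, nat_lit 0, [(nat_lit 19, [(nat_lit 1, nat_lit 889)])],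
 ⟨p078_k2, nat_lit 0, nat_lit 0, nat_lit 167, nat_lit 0, nat_lit 0, [nat_lit 1468492534, nat_lit 2294812000, nat_lit 2577691600], [], [nat_lit 22854843022, nat_lit 23963824910, nat_lit 26122340062, nat_lit 27060251118, nat_lit 21851462638, nat_lit 22900451034, nat_lit 24968893246, nat_lit 25870096552], nat_lit 0, nat_lit 0, nat_lit 0, nat_lit 0, nat_lit 0, nat_lit 0, [], [nat_lit 34, nat_lit 40, nat_lit 40, nat_lit 80, nat_lit 7, nat_lit 226, nat_lit 20, nat_lit 7]⟩, ⟨p078_k3, nat_lit 0, nat_lit 0, nat_lit 761, nat_lit 0, nat_lit 928567, [nat_lit 693750000, nat_lit 1092462000, nat_lit 1560438000], [], [nat_lit 4023459924, nat_lit 4025983800, nat_lit 4152857622, nat_lit 4154565726, nat_lit 3383870377, nat_lit 3248220238, nat_lit 3422277446, nat_lit 3427432173], nat_lit 1271250, nat_lit 1271250, nat_lit 1271250, nat_lit 1271250, nat_lit 0, nat_lit 2344750, [nat_lit 1412500, nat_lit 1271250, nat_lit 1271250], [nat_lit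 60, nat_lit 40, nat_lit 40, nat_lit 80, nat_lit 32, nat_lit 456, nat_lit 225, nat_lit 10]⟩,
 ⟨nat_lit 3872, nat_lit 4473, ⟨.ofNat (nat_lit 589534), .ofNat (nat_lit 725499), .ofNat (nat_lit 611083), .ofNat (nat_lit 747053), .ofNat (nat_lit 586304), .ofNat (nat_lit 715356), .ofNat (nat_lit 608080), .ofNat (nat_lit 737137)⟩, ⟨.negSucc (nat_lit 12427), .ofNat (nat_lit 123532), .ofNat (nat_lit 0), .ofNat (nat_lit 145099), .ofNat (nat_lit 0), .ofNat (nat_lit 132088), .ofNat (nat_lit 0), .ofNat (nat_lit 153881)⟩⟩, [⟨nat_lit 10, nat_lit 100, nat_lit 70, nat_lit 61, nat_lit 21059229⟩, ⟨nat_lit 22, nat_lit 93, nat_lit 100, nat_lit 24, nat_lit 4700503⟩]⟩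
noncomputable def p078_l2 : Lf2 := ⟨nat_lit 0, nat_lit 20, [nat_lit 5, nat_lit 5, nat_lit 5, nat_lit 20], false, nat_lit 0, nat_lit 80, nat_lit 0, nat_lit 336, ⟨nat_lit 228, nat_lit 772, nat_lit 0, nat_lit 6, nat_lit 257, nat_lit 772, nat_lit 32, nat_lit 0, nat_lit 0, nat_lit 0, nat_lit 0, nat_lit 0, nat_lit 47387302, nat_lit 19612698, nat_lit 0, nat_lit 3022875, true, true⟩,
 nat_lit 0, nat_lit 0, nat_lit 5707, nat_lit 0, nat_lit 3373, nat_lit 2445, nat_lit 406, nat_lit 0, nat_lit 0, nat_lit 217, nat_lit 0, nat_lit 0, nat_lit 0, nat_lit 0, nat_lit 0, nat_lit 308800, nat_lit 0, nat_lit 0, [(nat_lit 19, [(nat_lit 1, nat_lit 772)])],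
 ⟨p078_k4, nat_lit 0, nat_lit 0, nat_lit 191, nat_lit 0, nat_lit 0, [nat_lit 1542654934, nat_lit 2641891200, nat_lit 3658280000], [], [nat_lit 22938384094, nat_lit 24064065732, nat_lit 26163387358, nat_lit 27111251848, nat_lit 21515603368, nat_lit 22529158788, nat_lit 24821496196, nat_lit 25818328050], nat_lit 0, nat_lit 0, nat_lit 0, nat_lit 0, nat_lit 0, nat_lit 0, [], [nat_lit 27, nat_lit 40, nat_lit 40, nat_lit 80, nat_lit 13, nat_lit 317, nat_lit 100, nat_lit 9]⟩, ⟨p078_k5, nat_lit 0, nat_lit 0, nat_lit 569, nat_lit 0, nat_lit 499775, [nat_lit 1425000000, nat_lit 2243976000, nat_lit 3205224000], [], [nat_lit 8849684422, nat_lit 8863200598, nat_lit 9306916964, nat_lit 9295924718, nat_lit 7947788232, nat_lit 7320408780, nat_lit 7531312635, nat_lit 7495650710], nat_lit 1271250, nat_lit 1271250, nat_lit 1271250, nat_lit 1271250, nat_lit 0, nat_lit 2373000, [nat_lit 1412500, nat_lit 1271250, nat_lit 1271250], [nat_lit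 60, nat_lit 40, nat_lit 40, nat_lit 80, nat_lit 32, nat_lit 456, nat_lit 225, nat_lit 10]⟩,
 ⟨nat_lit 3872, nat_lit 4473, ⟨.ofNat (nat_lit 567977), .ofNat (nat_lit 703933), .ofNat (nat_lit 589534), .ofNat (nat_lit 725499), .ofNat (nat_lit 564520), .ofNat (nat_lit 693563), .ofNat (nat_lit 586304), .ofNat (nat_lit 715356)⟩, ⟨.ofNat (nat_lit 0), .ofNat (nat_lit 145099), .ofNat (nat_lit 0), .ofNat (nat_lit 166665), .ofNat (nat_lit 0), .ofNat (nat_lit 153881), .ofNat (nat_lit 0), .ofNat (nat_lit 175674)⟩⟩, [⟨nat_lit 10, nat_lit 100, nat_lit 70, nat_lit 61, nat_lit 38476057⟩]⟩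
noncomputable def p078_l3 : Lf2 := ⟨nat_lit 0, nat_lit 20, [nat_lit 5, nat_lit 5, nat_lit 5, nat_lit 20], false, nat_lit 0, nat_lit 80, nat_lit 0, nat_lit 336, ⟨nat_lit 253, nat_lit 747, nat_lit 0, nat_lit 6, nat_lit 266, nat_lit 747, nat_lit 32, nat_lit 0, nat_lit 0, nat_lit 0, nat_lit 0, nat_lit 0, nat_lit 46455750, nat_lit 20544250, nat_lit 0, nat_lit 3081889, true, true⟩,
 nat_lit 0, nat_lit 0, nat_lit 5018, nat_lit 0, nat_lit 3476, nat_lit 2399, nat_lit 419, nat_lit 0, nat_lit 0, nat_lit 244, nat_lit 0, nat_lit 0, nat_lit 0, nat_lit 0, nat_lit 0, nat_lit 298800, nat_lit 0, nat_lit 0, [(nat_lit 19, [(nat_lit 1, nat_lit 747)])],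
 ⟨p078_k4, nat_lit 0, nat_lit 0, nat_lit 191, nat_lit 0, nat_lit 0, [nat_lit 1558501601, nat_lit 2708151200, nat_lit 3858530000], [], [nat_lit 23049599503, nat_lit 24189887159, nat_lit 26303274671, nat_lit 27259562023, nat_lit 21479573184, nat_lit 22505750224, nat_lit 24744651938, nat_lit 25753864186], nat_lit 0, nat_lit 0, nat_lit 0, nat_lit 0, nat_lit 0, nat_lit 0, [], [nat_lit 27, nat_lit 40, nat_lit 40, nat_lit 80, nat_lit 13, nat_lit 317, nat_lit 100, nat_lit 9]⟩, ⟨p078_k6, nat_lit 0, nat_lit 0, nat_lit 590, nat_lit 0, nat_lit 565717, [nat_lit 1581250000, nat_lit 2490026000, nat_lit 3556674000], [], [nat_lit 9299073100, nat_lit 9323876012, nat_lit 9761242716, nat_lit 9791779252, nat_lit 7947068046, nat_lit 7936692659, nat_lit 8155015065, nat_lit 8122223800], nat_lit 1271250, nat_lit 1271250, nat_lit 1271250, nat_lit 1271250, nat_lit 0, nat_lit 2373000, [nat_lit 1412500, nat_lit 1271250, nat_lit 1271250], [nat_lit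 60, nat_lit 40, nat_lit 40, nat_lit 80, nat_lit 32, nat_lit 456, nat_lit 225, nat_lit 10]⟩,
 ⟨nat_lit 3872, nat_lit 4473, ⟨.ofNat (nat_lit 589534), .ofNat (nat_lit 725499), .ofNat (nat_lit 611083), .ofNat (nat_lit 747053), .ofNat (nat_lit 586304), .ofNat (nat_lit 715356), .ofNat (nat_lit 608080), .ofNat (nat_lit 737137)⟩, ⟨.ofNat (nat_lit 0), .ofNat (nat_lit 145099), .ofNat (nat_lit 0), .ofNat (nat_lit 166665), .ofNat (nat_lit 0), .ofNat (nat_lit 153881), .ofNat (nat_lit 0), .ofNat (nat_lit 175674)⟩⟩, [⟨nat_lit 10, nat_lit 100, nat_lit 70, nat_lit 61, nat_lit 53953945⟩]⟩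
noncomputable def p078_l4 : Lf2 := ⟨nat_lit 0, nat_lit 20, [nat_lit 5, nat_lit 5, nat_lit 5, nat_lit 20], true, nat_lit 80, nat_lit 160, nat_lit 0, nat_lit 360, ⟨nat_lit 0, nat_lit 1000, nat_lit 0, nat_lit 6, nat_lit 262, nat_lit 1000, nat_lit 86, nat_lit 0, nat_lit 0, nat_lit 0, nat_lit 0, nat_lit 0, nat_lit 44131088, nat_lit 19444162, nat_lit 3424750, nat_lit 4140333, true, true⟩,
 nat_lit 0, nat_lit 0, nat_lit 0, nat_lit 2225, nat_lit 4823, nat_lit 0, nat_lit 0, nat_lit 0, nat_lit 0, nat_lit 0, nat_lit 0, nat_lit 0, nat_lit 0, nat_lit 0, nat_lit 0, nat_lit 250000, nat_lit 0, nat_lit 0, [(nat_lit 19, [(nat_lit 0, nat_lit 1000)])],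
 ⟨p078_k7, nat_lit 0, nat_lit 0, nat_lit 89, nat_lit 0, nat_lit 0, [nat_lit 1542400001, nat_lit 2605200001, nat_lit 3236666667], [], [nat_lit 20436104209, nat_lit 21932999021, nat_lit 24623027021, nat_lit 25854736639, nat_lit 20826524189, nat_lit 22170326557, nat_lit 24587845261, nat_lit 25699483271], nat_lit 0, nat_lit 0, nat_lit 0, nat_lit 0, nat_lit 0, nat_lit 0, [], [nat_lit 61, nat_lit 40, nat_lit 40, nat_lit 80, nat_lit 1, nat_lit 345, nat_lit 125, nat_lit 9]⟩, C1.Rw.none,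
 ⟨nat_lit 3872, nat_lit 4473, ⟨.ofNat (nat_lit 567977), .ofNat (nat_lit 703933), .ofNat (nat_lit 611083), .ofNat (nat_lit 747053), .ofNat (nat_lit 564520), .ofNat (nat_lit 693563), .ofNat (nat_lit 608080), .ofNat (nat_lit 737137)⟩, ⟨.ofNat (nat_lit 123532), .ofNat (nat_lit 259489), .ofNat (nat_lit 166665), .ofNat (nat_lit 302621), .ofNat (nat_lit 132088), .ofNat (nat_lit 261131), .ofNat (nat_lit 175674), .ofNat (nat_lit 304717)⟩⟩, []⟩
noncomputable def p078_l5 : Lf2 := ⟨nat_lit 0, nat_lit 20, [nat_lit 5, nat_lit 5, nat_lit 5, nat_lit 20], false, nat_lit 0, nat_lit 80, nat_lit 0, nat_lit 336, ⟨nat_lit 43, nat_lit 341, nat_lit 616, nat_lit 6, nat_lit 246, nat_lit 879, nat_lit 32, nat_lit 616, nat_lit 9600, nat_lit 239, nat_lit 74006, nat_lit 200, nat_lit 48566721, nat_lit 18433279, nat_lit 0, nat_lit 2941441, true, true⟩,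
 nat_lit 0, nat_lit 0, nat_lit 1272, nat_lit 0, nat_lit 2696, nat_lit 545, nat_lit 0, nat_lit 0, nat_lit 0, nat_lit 22, nat_lit 0, nat_lit 0, nat_lit 0, nat_lit 0, nat_lit 40, nat_lit 331650, nat_lit 0, nat_lit 0, [(nat_lit 22, [(nat_lit 0, nat_lit 341), (nat_lit 5, nat_lit 616)])],
 ⟨p078_k8, nat_lit 0, nat_lit 0, nat_lit 173, nat_lit 0, nat_lit 0, [nat_lit 1543280001, nat_lit 579439201, nat_lit 22272400], [], [nat_lit 21847204097, nat_lit 22906128945, nat_lit 23266039457, nat_lit 24246667843, nat_lit 21216031331, nat_lit 22227710019, nat_lit 22606523411, nat_lit 23545901731], nat_lit 0, nat_lit 0, nat_lit 0, nat_lit 0, nat_lit 0, nat_lit 0, [], [nat_lit 102, nat_lit 40, nat_lit 40, nat_lit 80, nat_lit 2, nat_lit 226, nat_lit 20, nat_lit 7]⟩, ⟨p078_k9, nat_lit 0, nat_lit 0, nat_lit 1122, nat_lit 0, nat_lit 1704511, [nat_lit 268750000, nat_lit 510496000, nat_lit 604494000], [], [nat_lit 1949229508, nat_lit 1928265712,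 nat_lit 1954796272, nat_lit 1942612680, nat_lit 1456642812, nat_lit 1447010901, nat_lit 1473103048, nat_lit 1457922804], nat_lit 1271250, nat_lit 1271250, nat_lit 1271250, nat_lit 1271250, nat_lit 0, nat_lit 2373000, [nat_lit 1412500, nat_lit 1271250, nat_lit 1271250], [nat_lit 137, nat_lit 40, nat_lit 40, nat_lit 80, nat_lit 58, nat_lit 456, nat_lit 225, nat_lit 10]⟩,
 ⟨nat_lit 3162, nat_lit 3873, ⟨.ofNat (nat_lit 564520), .ofNat (nat_lit 629042), .ofNat (nat_lit 608082), .ofNat (nat_lit 672628), .ofNat (nat_lit 560952), .ofNat (nat_lit 621905), .ofNat (nat_lit 605237), .ofNat (nat_lit 666215)⟩, ⟨.ofNat (nat_lit 0), .ofNat (nat_lit 132088), .ofNat (nat_lit 0), .ofNat (nat_lit 175674), .ofNat (nat_lit 0), .ofNat (nat_lit 139899), .ofNat (nat_lit 0), .ofNat (nat_lit 184209)⟩⟩, [⟨nat_lit 3, nat_lit 100, nat_lit 75, nat_lit 35, nat_lit 50391566⟩, ⟨nat_lit 22, nat_lit 97, nat_lit 100, nat_lit 15, nat_lit 6365477⟩]⟩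
noncomputable def p078_l6 : Lf2 := ⟨nat_lit 0, nat_lit 15, [nat_lit 30, nat_lit 5, nat_lit 5, nat_lit 20], true, nat_lit 0, nat_lit 80, nat_lit 0, nat_lit 300, ⟨nat_lit 0, nat_lit 616, nat_lit 384, nat_lit 7, nat_lit 267, nat_lit 1000, nat_lit 29, nat_lit 384, nat_lit 8067, nat_lit 237, nat_lit 159462, nat_lit 200, nat_lit 46334853, nat_lit 20665147, nat_lit 0, nat_lit 3089213, true, true⟩,
 nat_lit 0, nat_lit 0, nat_lit 0, nat_lit 1290, nat_lit 2665, nat_lit 0, nat_lit 0, nat_lit 0, nat_lit 0, nat_lit 0, nat_lit 0, nat_lit 0, nat_lit 0, nat_lit 0, nat_lit 22, nat_lit 400000, nat_lit 0, nat_lit 0, [(nat_lit 22, [(nat_lit 1, nat_lit 616), (nat_lit 5, nat_lit 384)])],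
 ⟨p078_k10, nat_lit 0, nat_lit 0, nat_lit 183, nat_lit 0, nat_lit 0, [nat_lit 1389036800, nat_lit 597024001, nat_lit 12476800], [], [nat_lit 23687392540, nat_lit 24663787240, nat_lit 25267140460, nat_lit 26164944500, nat_lit 23019031271, nat_lit 23954482821, nat_lit 24550929001, nat_lit 25413674081], nat_lit 0, nat_lit 0, nat_lit 0, nat_lit 0, nat_lit 0, nat_lit 0, [], [nat_lit 102, nat_lit 40, nat_lit 40, nat_lit 80, nat_lit 2, nat_lit 226, nat_lit 20, nat_lit 6]⟩, C1.Rw.none,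
 ⟨nat_lit 3162, nat_lit 3873, ⟨.ofNat (nat_lit 629042), .ofNat (nat_lit 693563), .ofNat (nat_lit 650835), .ofNat (nat_lit 715356), .ofNat (nat_lit 621905), .ofNat (nat_lit 682859), .ofNat (nat_lit 644060), .ofNat (nat_lit 705013)⟩, ⟨.ofNat (nat_lit 0), .ofNat (nat_lit 132088), .ofNat (nat_lit 0), .ofNat (nat_lit 153881), .ofNat (nat_lit 0), .ofNat (nat_lit 139899), .ofNat (nat_lit 0), .ofNat (nat_lit 162054)⟩⟩, [⟨nat_lit 3, nat_lit 100, nat_lit 84, nat_lit 21, nat_lit 65911715⟩]⟩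
noncomputable def p078_l7 : Lf2 := ⟨nat_lit 0, nat_lit 20, [nat_lit 5, nat_lit 5, nat_lit 5, nat_lit 20], false, nat_lit 0, nat_lit 80, nat_lit 0, nat_lit 300, ⟨nat_lit 97, nat_lit 903, nat_lit 0, nat_lit 7, nat_lit 268, nat_lit 705, nat_lit 33, nat_lit 0, nat_lit 0, nat_lit 0, nat_lit 0, nat_lit 0, nat_lit 46240325, nat_lit 20759675, nat_lit 0, nat_lit 3094885, true, true⟩,
 nat_lit 0, nat_lit 0, nat_lit 2905, nat_lit 0, nat_lit 2950, nat_lit 1245, nat_lit 140, nat_lit 0, nat_lit 0, nat_lit 52, nat_lit 0, nat_lit 0, nat_lit 0, nat_lit 0, nat_lit 0, nat_lit 361200, nat_lit 0, nat_lit 0, [(nat_lit 22, [(nat_lit 1, nat_lit 903)])],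
 ⟨p078_k8, nat_lit 0, nat_lit 0, nat_lit 179, nat_lit 0, nat_lit 0, [nat_lit 1425906401, nat_lit 2009873201, nat_lit 2032400400], [], [nat_lit 25129403501, nat_lit 25636465001, nat_lit 26756133101, nat_lit 27222007303, nat_lit 24266710103, nat_lit 24752486353, nat_lit 25844938003, nat_lit 26291779203], nat_lit 0, nat_lit 0, nat_lit 0, nat_lit 0, nat_lit 0, nat_lit 0, [], [nat_lit 102, nat_lit 40, nat_lit 40, nat_lit 80, nat_lit 2, nat_lit 226, nat_lit 20, nat_lit 6]⟩, ⟨p078_k9, nat_lit 0, nat_lit 0, nat_lit 688, nat_lit 0, nat_lit 793374, [nat_lit 606250000, nat_lit 1151584000, nat_lit 1363626000], [], [nat_lit 4380524608, nat_lit 4366148144, nat_lit 4468187496, nat_lit 4451283488, nat_lit 3185578227, nat_lit 3175009593, nat_lit 3283432073, nat_lit 3265319187], nat_lit 1271250, nat_lit 1271250, nat_lit 1271250, nat_lit 1271250, nat_lit 0, nat_lit 2118750, [nat_lit 1412500, nat_lit 1271250, nat_lit 1271250], [nat_lit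 137, nat_lit 40, nat_lit 40, nat_lit 80, nat_lit 58, nat_lit 456, nat_lit 225, nat_lit 10]⟩,
 ⟨nat_lit 3535, nat_lit 3873, ⟨.ofNat (nat_lit 629042), .ofNat (nat_lit 693563), .ofNat (nat_lit 650835), .ofNat (nat_lit 715356), .ofNat (nat_lit 625521), .ofNat (nat_lit 688283), .ofNat (nat_lit 647474), .ofNat (nat_lit 710235)⟩, ⟨.ofNat (nat_lit 0), .ofNat (nat_lit 153881), .ofNat (nat_lit 0), .ofNat (nat_lit 175674), .ofNat (nat_lit 0), .ofNat (nat_lit 158046), .ofNat (nat_lit 0), .ofNat (nat_lit 179999)⟩⟩, []⟩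
noncomputable def p078_l8 : Lf2 := ⟨nat_lit 0, nat_lit 20, [nat_lit 5, nat_lit 5, nat_lit 5, nat_lit 20], false, nat_lit 0, nat_lit 80, nat_lit 0, nat_lit 300, ⟨nat_lit 102, nat_lit 898, nat_lit 0, nat_lit 7, nat_lit 266, nat_lit 742, nat_lit 34, nat_lit 0, nat_lit 0, nat_lit 0, nat_lit 0, nat_lit 0, nat_lit 46427350, nat_lit 20572650, nat_lit 0, nat_lit 3083617, true, true⟩,
 nat_lit 0, nat_lit 0, nat_lit 2608, nat_lit 0, nat_lit 2986, nat_lit 1117, nat_lit 228, nat_lit 0, nat_lit 0, nat_lit 96, nat_lit 0, nat_lit 0, nat_lit 0, nat_lit 0, nat_lit 0, nat_lit 359200, nat_lit 0, nat_lit 0, [(nat_lit 22, [(nat_lit 1, nat_lit 898)])],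
 ⟨p078_k11, nat_lit 0, nat_lit 0, nat_lit 174, nat_lit 0, nat_lit 0, [nat_lit 1427107201, nat_lit 1874386400, nat_lit 2067368000], [], [nat_lit 25136856485, nat_lit 25577671649, nat_lit 26527885233, nat_lit 26934042361, nat_lit 24254610901, nat_lit 24671872553, nat_lit 25579057247, nat_lit 25964472553], nat_lit 0, nat_lit 0, nat_lit 0, nat_lit 0, nat_lit 0, nat_lit 0, [], [nat_lit 34, nat_lit 40, nat_lit 40, nat_lit 80, nat_lit 7, nat_lit 226, nat_lit 20, nat_lit 6]⟩, ⟨p078_k5, nat_lit 0, nat_lit 0, nat_lit 824, nat_lit 0, nat_lit 1100973, [nat_lit 637500000, nat_lit 1003884000, nat_lit 1433916000], [], [nat_lit 4177644700, nat_lit 4154902622, nat_lit 4207202184, nat_lit 4180245876, nat_lit 3195636471, nat_lit 3170707696, nat_lit 3229037537, nat_lit 3213473487], nat_lit 1271250, nat_lit 1271250, nat_lit 1271250, nat_lit 1271250, nat_lit 0, nat_lit 2118750, [nat_lit 1412500, nat_lit 1271250, nat_lit 1271250], [nat_lit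 60, nat_lit 40, nat_lit 40, nat_lit 80, nat_lit 32, nat_lit 456, nat_lit 225, nat_lit 10]⟩,
 ⟨nat_lit 3162, nat_lit 3536, ⟨.ofNat (nat_lit 625521), .ofNat (nat_lit 688283), .ofNat (nat_lit 647474), .ofNat (nat_lit 710235), .ofNat (nat_lit 621905), .ofNat (nat_lit 682859), .ofNat (nat_lit 644060), .ofNat (nat_lit 705013)⟩, ⟨.ofNat (nat_lit 0), .ofNat (nat_lit 158046), .ofNat (nat_lit 0), .ofNat (nat_lit 179999), .ofNat (nat_lit 0), .ofNat (nat_lit 162054), .ofNat (nat_lit 0), .ofNat (nat_lit 184209)⟩⟩, [⟨nat_lit 22, nat_lit 89, nat_lit 100, nat_lit 28, nat_lit 9282439⟩]⟩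
noncomputable def p078_l9 : Lf2 := ⟨nat_lit 0, nat_lit 15, [nat_lit 30, nat_lit 5, nat_lit 5, nat_lit 20], false, nat_lit 0, nat_lit 80, nat_lit 0, nat_lit 300, ⟨nat_lit 52, nat_lit 948, nat_lit 0, nat_lit 7, nat_lit 276, nat_lit 827, nat_lit 29, nat_lit 0, nat_lit 0, nat_lit 0, nat_lit 0, nat_lit 0, nat_lit 45398233, nat_lit 21601767, nat_lit 0, nat_lit 3143379, true, true⟩,
 nat_lit 0, nat_lit 0, nat_lit 1288, nat_lit 0, nat_lit 2889, nat_lit 616, nat_lit 119, nat_lit 0, nat_lit 0, nat_lit 32, nat_lit 0, nat_lit 0, nat_lit 0, nat_lit 0, nat_lit 0, nat_lit 379200, nat_lit 0, nat_lit 0, [(nat_lit 22, [(nat_lit 1, nat_lit 948)])],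
 ⟨p078_k10, nat_lit 0, nat_lit 0, nat_lit 183, nat_lit 0, nat_lit 0, [nat_lit 1395702401, nat_lit 1798571201, nat_lit 1736606400], [], [nat_lit 25006751930, nat_lit 26012799750, nat_lit 26623425802, nat_lit 27549096947, nat_lit 24182256625, nat_lit 25146082255, nat_lit 25750568243, nat_lit 26637628971], nat_lit 0, nat_lit 0, nat_lit 0, nat_lit 0, nat_lit 0, nat_lit 0, [], [nat_lit 102, nat_lit 40, nat_lit 40, nat_lit 80, nat_lit 2, nat_lit 226, nat_lit 20, nat_lit 6]⟩, ⟨p078_k12, nat_lit 0, nat_lit 0, nat_lit 970, nat_lit 0, nat_lit 1419117, [nat_lit 325000000, nat_lit 617344000, nat_lit 731016000], [], [nat_lit 2210553080, nat_lit 2204940144, nat_lit 2253679896, nat_lit 2252156800, nat_lit 1648058478, nat_lit 1644350300, nat_lit 1696098154, nat_lit 1688616452], nat_lit 1271250, nat_lit 1271250, nat_lit 1271250, nat_lit 1271250, nat_lit 0, nat_lit 2118750, [nat_lit 1412500, nat_lit 1271250, nat_lit 1271250], [nat_lit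 137, nat_lit 40, nat_lit 40, nat_lit 80, nat_lit 58, nat_lit 456, nat_lit 225, nat_lit 10]⟩,
 ⟨nat_lit 3162, nat_lit 3873, ⟨.ofNat (nat_lit 650835), .ofNat (nat_lit 715356), .ofNat (nat_lit 672628), .ofNat (nat_lit 737150), .ofNat (nat_lit 644060), .ofNat (nat_lit 705013), .ofNat (nat_lit 666215), .ofNat (nat_lit 727168)⟩, ⟨.ofNat (nat_lit 0), .ofNat (nat_lit 132088), .ofNat (nat_lit 0), .ofNat (nat_lit 153881), .ofNat (nat_lit 0), .ofNat (nat_lit 139899), .ofNat (nat_lit 0), .ofNat (nat_lit 162054)⟩⟩, [⟨nat_lit 22, nat_lit 89, nat_lit 100, nat_lit 28, nat_lit 423163⟩]⟩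
noncomputable def p078_l10 : Lf2 := ⟨nat_lit 0, nat_lit 20, [nat_lit 5, nat_lit 5, nat_lit 5, nat_lit 20], false, nat_lit 0, nat_lit 80, nat_lit 0, nat_lit 300, ⟨nat_lit 141, nat_lit 717, nat_lit 142, nat_lit 7, nat_lit 274, nat_lit 859, nat_lit 34, nat_lit 142, nat_lit 10417, nat_lit 240, nat_lit 181256, nat_lit 200, nat_lit 45631629, nat_lit 21368371, nat_lit 0, nat_lit 3130304, true, true⟩,
 nat_lit 0, nat_lit 0, nat_lit 2943, nat_lit 0, nat_lit 2891, nat_lit 1407, nat_lit 0, nat_lit 0, nat_lit 0, nat_lit 148, nat_lit 0, nat_lit 0, nat_lit 0, nat_lit 0, nat_lit 21, nat_lit 584800, nat_lit 0, nat_lit 0, [(nat_lit 22, [(nat_lit 1, nat_lit 457), (nat_lit 2, nat_lit 260), (nat_lit 6, nat_lit 142)])],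
 ⟨p078_k13, nat_lit 0, nat_lit 0, nat_lit 174, nat_lit 0, nat_lit 0, [nat_lit 1545379734, nat_lit 1370010000, nat_lit 24250934], [], [nat_lit 24475280988, nat_lit 25346979256, nat_lit 25889003092, nat_lit 26705710242, nat_lit 23680794856, nat_lit 24506220580, nat_lit 25026207958, nat_lit 25842852230], nat_lit 0, nat_lit 0, nat_lit 0, nat_lit 0, nat_lit 0, nat_lit 0, [], [nat_lit 34, nat_lit 40, nat_lit 40, nat_lit 80, nat_lit 7, nat_lit 226, nat_lit 20, nat_lit 6]⟩, ⟨p078_k6, nat_lit 0, nat_lit 0, nat_lit 773, nat_lit 0, nat_lit 984565, [nat_lit 881250000, nat_lit 1387722000, nat_lit 1982178000], [], [nat_lit 5173226794, nat_lit 5171239327, nat_lit 5276603662, nat_lit 5270780635, nat_lit 4082746913, nat_lit 4078776900, nat_lit 4188888598, nat_lit 4193741666], nat_lit 1271250, nat_lit 1271250, nat_lit 1271250, nat_lit 1271250, nat_lit 0, nat_lit 2118750, [nat_lit 1412500, nat_lit 1271250, nat_lit 1271250], [nat_lit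 60, nat_lit 40, nat_lit 40, nat_lit 80, nat_lit 32, nat_lit 456, nat_lit 225, nat_lit 10]⟩,
 ⟨nat_lit 3162, nat_lit 3873, ⟨.ofNat (nat_lit 650835), .ofNat (nat_lit 715356), .ofNat (nat_lit 661732), .ofNat (nat_lit 726253), .ofNat (nat_lit 644060), .ofNat (nat_lit 705013), .ofNat (nat_lit 655138), .ofNat (nat_lit 716091)⟩, ⟨.ofNat (nat_lit 0), .ofNat (nat_lit 153881), .ofNat (nat_lit 0), .ofNat (nat_lit 175674), .ofNat (nat_lit 0), .ofNat (nat_lit 162054), .ofNat (nat_lit 0), .ofNat (nat_lit 184209)⟩⟩, [⟨nat_lit 22, nat_lit 89, nat_lit 100, nat_lit 28, nat_lit 30463598⟩]⟩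
noncomputable def p078_l11 : Lf2 := ⟨nat_lit 0, nat_lit 20, [nat_lit 5, nat_lit 5, nat_lit 5, nat_lit 20], false, nat_lit 0, nat_lit 80, nat_lit 0, nat_lit 300, ⟨nat_lit 183, nat_lit 817, nat_lit 0, nat_lit 7, nat_lit 278, nat_lit 817, nat_lit 34, nat_lit 0, nat_lit 0, nat_lit 0, nat_lit 0, nat_lit 0, nat_lit 45165360, nat_lit 21834640, nat_lit 0, nat_lit 3156148, true, true⟩,
 nat_lit 0, nat_lit 0, nat_lit 3366, nat_lit 0, nat_lit 3097, nat_lit 1695, nat_lit 0, nat_lit 0, nat_lit 0, nat_lit 191, nat_lit 0, nat_lit 0, nat_lit 0, nat_lit 0, nat_lit 7, nat_lit 641200, nat_lit 0, nat_lit 0, [(nat_lit 22, [(nat_lit 1, nat_lit 293), (nat_lit 2, nat_lit 524)])],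
 ⟨p078_k13, nat_lit 0, nat_lit 0, nat_lit 174, nat_lit 0, nat_lit 0, [nat_lit 1556672534, nat_lit 1422526000, nat_lit 26060534], [], [nat_lit 24928108508, nat_lit 25821343664, nat_lit 26367775076, nat_lit 27197813300, nat_lit 23994396864, nat_lit 24839549972, nat_lit 25363401498, nat_lit 26153456166], nat_lit 0, nat_lit 0, nat_lit 0, nat_lit 0, nat_lit 0, nat_lit 0, [], [nat_lit 34, nat_lit 40, nat_lit 40, nat_lit 80, nat_lit 7, nat_lit 226, nat_lit 20, nat_lit 6]⟩, ⟨p078_k14, nat_lit 0, nat_lit 0, nat_lit 764, nat_lit 0, nat_lit 969994, [nat_lit 1143750000, nat_lit 1801086000, nat_lit 2572614000], [], [nat_lit 6524038277, nat_lit 6523994396, nat_lit 6654189755, nat_lit 6649466336, nat_lit 5257993381, nat_lit 5255531310, nat_lit 5393781901, nat_lit 5402193637], nat_lit 1271250, nat_lit 1271250, nat_lit 1271250, nat_lit 1271250, nat_lit 0, nat_lit 2118750, [nat_lit 1412500, nat_lit 1271250, nat_lit 1271250], [nat_lit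 60, nat_lit 40, nat_lit 40, nat_lit 80, nat_lit 32, nat_lit 456, nat_lit 225, nat_lit 10]⟩,
 ⟨nat_lit 3162, nat_lit 3873, ⟨.ofNat (nat_lit 661732), .ofNat (nat_lit 726253), .ofNat (nat_lit 672628), .ofNat (nat_lit 737150), .ofNat (nat_lit 655138), .ofNat (nat_lit 716091), .ofNat (nat_lit 666215), .ofNat (nat_lit 727168)⟩, ⟨.ofNat (nat_lit 0), .ofNat (nat_lit 153881), .ofNat (nat_lit 0), .ofNat (nat_lit 175674), .ofNat (nat_lit 0), .ofNat (nat_lit 162054), .ofNat (nat_lit 0), .ofNat (nat_lit 184209)⟩⟩, [⟨nat_lit 22, nat_lit 87, nat_lit 100, nat_lit 60, nat_lit 23674616⟩]⟩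
noncomputable def p078_l12 : Lf2 := ⟨nat_lit 0, nat_lit 20, [nat_lit 5, nat_lit 5, nat_lit 5, nat_lit 20], true, nat_lit 80, nat_lit 160, nat_lit 0, nat_lit 360, ⟨nat_lit 0, nat_lit 1000, nat_lit 0, nat_lit 6, nat_lit 259, nat_lit 1000, nat_lit 88, nat_lit 0, nat_lit 0, nat_lit 0, nat_lit 0, nat_lit 0, nat_lit 44295394, nat_lit 19152375, nat_lit 3552231, nat_lit 4150591, true, true⟩,
 nat_lit 0, nat_lit 0, nat_lit 0, nat_lit 304, nat_lit 4398, nat_lit 0, nat_lit 0, nat_lit 0, nat_lit 0, nat_lit 0, nat_lit 0, nat_lit 0, nat_lit 0, nat_lit 0, nat_lit 0, nat_lit 250000, nat_lit 0, nat_lit 0, [(nat_lit 22, [(nat_lit 0, nat_lit 1000)])],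
 ⟨p078_k8, nat_lit 0, nat_lit 0, nat_lit 99, nat_lit 0, nat_lit 0, [nat_lit 1568000001, nat_lit 2330800000, nat_lit 2712400000], [], [nat_lit 21861434520, nat_lit 23285975632, nat_lit 25642426588, nat_lit 26820090656, nat_lit 22226928456, nat_lit 23508504024, nat_lit 25639925020, nat_lit 26705293280], nat_lit 0, nat_lit 0, nat_lit 0, nat_lit 0, nat_lit 0, nat_lit 0, [], [nat_lit 102, nat_lit 40, nat_lit 40, nat_lit 80, nat_lit 2, nat_lit 249, nat_lit 40, nat_lit 7]⟩, C1.Rw.none,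
 ⟨nat_lit 3162, nat_lit 3873, ⟨.ofNat (nat_lit 564520), .ofNat (nat_lit 693563), .ofNat (nat_lit 608082), .ofNat (nat_lit 737150), .ofNat (nat_lit 560952), .ofNat (nat_lit 682859), .ofNat (nat_lit 605237), .ofNat (nat_lit 727168)⟩, ⟨.ofNat (nat_lit 132088), .ofNat (nat_lit 261131), .ofNat (nat_lit 175674), .ofNat (nat_lit 304717), .ofNat (nat_lit 139899), .ofNat (nat_lit 261806), .ofNat (nat_lit 184209), .ofNat (nat_lit 306116)⟩⟩, []⟩
noncomputable def b_V_800_500_10_9 : St := ⟨true, nat_lit 0, nat_lit 1, nat_lit 1, nat_lit 80, nat_lit 320, nat_lit 360, nat_lit 200, nat_lit 240, nat_lit 240, nat_lit 320, nat_lit 40, nat_lit 80, nat_lit 0, nat_lit 160, nat_lit 0, nat_lit 360, nat_lit 40, nat_lit 80, nat_lit 0, nat_lit 0, nat_lit 0, nat_lit 0⟩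
theorem d_V_800_500_10_9 (h : EB TB.env) : Dead b_V_800_500_10_9 := chkB_sound0 h (T :=
(.spl (nat_lit 0) (nat_lit 340)
(.spl (nat_lit 4) (nat_lit 80)
(.trX (nat_lit 22) (nat_lit 100) (nat_lit 76) (nat_lit 82) (nat_lit 336) (.spl (nat_lit 3) (nat_lit 60)
(.spl (nat_lit 1) (nat_lit 220)
(.leaf p078_l0)
(.trX (nat_lit 19) (nat_lit 100) (nat_lit 77) (nat_lit 72) (nat_lit 332) (.leaf p078_l1)))
(.spl (nat_lit 1) (nat_lit 220)
(.leaf p078_l2)
(.leaf p078_l3))))
(.leaf p078_l4))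
(.spl (nat_lit 4) (nat_lit 80)
(.trX (nat_lit 22) (nat_lit 100) (nat_lit 76) (nat_lit 82) (nat_lit 336) (.spl (nat_lit 2) (nat_lit 280)
(.leaf p078_l5)
(.trX (nat_lit 22) (nat_lit 100) (nat_lit 95) (nat_lit 87) (nat_lit 300) (.spl (nat_lit 1) (nat_lit 220)
(.spl (nat_lit 3) (nat_lit 60)
(.leaf p078_l6)
(.spl (nat_lit 0) (nat_lit 350)
(.leaf p078_l7)
(.leaf p078_l8)))
(.spl (nat_lit 3) (nat_lit 60)
(.leaf p078_l9)
(.spl (nat_lit 1) (nat_lit 230)
(.leaf p078_l10)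
(.leaf p078_l11)))))))
(.leaf p078_l12)))) (by decide +kernel)
noncomputable def p078_l13 : Lf2 := ⟨nat_lit 0, nat_lit 15, [nat_lit 30, nat_lit 5, nat_lit 5, nat_lit 20], false, nat_lit 0, nat_lit 80, nat_lit 0, nat_lit 260, ⟨nat_lit 164, nat_lit 836, nat_lit 0, nat_lit 8, nat_lit 299, nat_lit 635, nat_lit 27, nat_lit 0, nat_lit 0, nat_lit 0, nat_lit 0, nat_lit 0, nat_lit 43002639, nat_lit 23997361, nat_lit 0, nat_lit 3261788, true, true⟩,
 nat_lit 0, nat_lit 0, nat_lit 3869, nat_lit 0, nat_lit 3443, nat_lit 1658, nat_lit 0, nat_lit 0, nat_lit 0, nat_lit 145, nat_lit 0, nat_lit 0, nat_lit 0, nat_lit 0, nat_lit 0, nat_lit 677600, nat_lit 0, nat_lit 0, [(nat_lit 19, [(nat_lit 1, nat_lit 264), (nat_lit 2, nat_lit 572)])],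
 ⟨p078_k2, nat_lit 0, nat_lit 0, nat_lit 180, nat_lit 0, nat_lit 0, [nat_lit 1673992534, nat_lit 2003912001, nat_lit 634693333], [], [nat_lit 26723504092, nat_lit 27149928256, nat_lit 28794534283, nat_lit 29188300454, nat_lit 25526223832, nat_lit 25930202935, nat_lit 27488732837, nat_lit 27896396476], nat_lit 0, nat_lit 0, nat_lit 0, nat_lit 0, nat_lit 0, nat_lit 0, [], [nat_lit 34, nat_lit 40, nat_lit 40, nat_lit 80, nat_lit 7, nat_lit 226, nat_lit 20, nat_lit 6]⟩, ⟨p078_k15, nat_lit 0, nat_lit 0, nat_lit 588, nat_lit 0, nat_lit 576815, [nat_lit 1025000000, nat_lit 1614088000, nat_lit 2305512000], [], [nat_lit 6915573870, nat_lit 6911651794, nat_lit 7236712230, nat_lit 7226693384, nat_lit 5546268190, nat_lit 5540867553, nat_lit 5776544372, nat_lit 5765174147], nat_lit 1271250, nat_lit 1271250, nat_lit 1271250, nat_lit 1271250, nat_lit 0, nat_lit 1836250, [nat_lit 1412500, nat_lit 1271250, nat_lit 1271250], [nat_lit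 60, nat_lit 40, nat_lit 40, nat_lit 80, nat_lit 32, nat_lit 456, nat_lit 225, nat_lit 10]⟩,
 ⟨nat_lit 4183, nat_lit 4473, ⟨.ofNat (nat_lit 703933), .ofNat (nat_lit 785507), .ofNat (nat_lit 714716), .ofNat (nat_lit 796290), .ofNat (nat_lit 698765), .ofNat (nat_lit 778272), .ofNat (nat_lit 709599), .ofNat (nat_lit 789105)⟩, ⟨.negSucc (nat_lit 12423), .ofNat (nat_lit 123532), .ofNat (nat_lit 0), .ofNat (nat_lit 145099), .negSucc (nat_lit 4612), .ofNat (nat_lit 127898), .ofNat (nat_lit 0), .ofNat (nat_lit 149565)⟩⟩, [⟨nat_lit 13, nat_lit 78, nat_lit 61, nat_lit 100, nat_lit 150382482⟩]⟩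
noncomputable def p078_l14 : Lf2 := ⟨nat_lit 0, nat_lit 15, [nat_lit 30, nat_lit 5, nat_lit 5, nat_lit 20], false, nat_lit 0, nat_lit 80, nat_lit 0, nat_lit 260, ⟨nat_lit 106, nat_lit 894, nat_lit 0, nat_lit 8, nat_lit 294, nat_lit 628, nat_lit 28, nat_lit 0, nat_lit 0, nat_lit 0, nat_lit 0, nat_lit 0, nat_lit 43529579, nat_lit 23470421, nat_lit 0, nat_lit 3238174, true, true⟩,
 nat_lit 0, nat_lit 0, nat_lit 2624, nat_lit 0, nat_lit 3422, nat_lit 1124, nat_lit 361, nat_lit 0, nat_lit 0, nat_lit 96, nat_lit 0, nat_lit 0, nat_lit 0, nat_lit 0, nat_lit 0, nat_lit 223500, nat_lit 0, nat_lit 0, [(nat_lit 19, [(nat_lit 0, nat_lit 894)])],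
 ⟨p078_k16, nat_lit 0, nat_lit 0, nat_lit 179, nat_lit 0, nat_lit 0, [nat_lit 1594297601, nat_lit 2455145600, nat_lit 3438638400], [], [nat_lit 27125164928, nat_lit 27550657784, nat_lit 28788782774, nat_lit 29176033079, nat_lit 25919794094, nat_lit 26322920156, nat_lit 27497035972, nat_lit 27898075263], nat_lit 0, nat_lit 0, nat_lit 0, nat_lit 0, nat_lit 0, nat_lit 0, [], [nat_lit 34, nat_lit 40, nat_lit 40, nat_lit 80, nat_lit 7, nat_lit 226, nat_lit 20, nat_lit 6]⟩, ⟨p078_k15, nat_lit 0, nat_lit 0, nat_lit 726, nat_lit 0, nat_lit 866611, [nat_lit 662500000, nat_lit 1043252000, nat_lit 1490148000], [], [nat_lit 4472877168, nat_lit 4467067332, nat_lit 4586646424, nat_lit 4592191286, nat_lit 3501880180, nat_lit 3489708750, nat_lit 3564994078, nat_lit 3550477282], nat_lit 1271250, nat_lit 1271250, nat_lit 1271250, nat_lit 1271250, nat_lit 0, nat_lit 1836250, [nat_lit 1412500, nat_lit 1271250, nat_lit 1271250], [nat_lit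 60, nat_lit 40, nat_lit 40, nat_lit 80, nat_lit 32, nat_lit 456, nat_lit 225, nat_lit 10]⟩,
 ⟨nat_lit 3872, nat_lit 4184, ⟨.ofNat (nat_lit 698765), .ofNat (nat_lit 765021), .ofNat (nat_lit 709599), .ofNat (nat_lit 775854), .ofNat (nat_lit 693563), .ofNat (nat_lit 758085), .ofNat (nat_lit 704460), .ofNat (nat_lit 768981)⟩, ⟨.negSucc (nat_lit 4619), .ofNat (nat_lit 127898), .ofNat (nat_lit 0), .ofNat (nat_lit 149565), .ofNat (nat_lit 0), .ofNat (nat_lit 132088), .ofNat (nat_lit 0), .ofNat (nat_lit 153881)⟩⟩, [⟨nat_lit 13, nat_lit 74, nat_lit 66, nat_lit 100, nat_lit 177790971⟩]⟩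
noncomputable def p078_l15 : Lf2 := ⟨nat_lit 0, nat_lit 15, [nat_lit 30, nat_lit 5, nat_lit 5, nat_lit 20], false, nat_lit 0, nat_lit 80, nat_lit 0, nat_lit 260, ⟨nat_lit 176, nat_lit 824, nat_lit 0, nat_lit 8, nat_lit 304, nat_lit 692, nat_lit 27, nat_lit 0, nat_lit 0, nat_lit 0, nat_lit 0, nat_lit 0, nat_lit 42421006, nat_lit 24578994, nat_lit 0, nat_lit 3286290, true, true⟩,
 nat_lit 0, nat_lit 0, nat_lit 3701, nat_lit 0, nat_lit 3439, nat_lit 1677, nat_lit 0, nat_lit 0, nat_lit 0, nat_lit 149, nat_lit 0, nat_lit 0, nat_lit 0, nat_lit 0, nat_lit 0, nat_lit 676400, nat_lit 0, nat_lit 0, [(nat_lit 19, [(nat_lit 1, nat_lit 246), (nat_lit 2, nat_lit 578)])],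
 ⟨p078_k2, nat_lit 0, nat_lit 0, nat_lit 181, nat_lit 0, nat_lit 0, [nat_lit 1683402134, nat_lit 2031668000, nat_lit 682697334], [], [nat_lit 26814054620, nat_lit 27240301392, nat_lit 29066793245, nat_lit 29458642897, nat_lit 25619493640, nat_lit 26023310259, nat_lit 27755201320, nat_lit 28158598635], nat_lit 0, nat_lit 0, nat_lit 0, nat_lit 0, nat_lit 0, nat_lit 0, [], [nat_lit 34, nat_lit 40, nat_lit 40, nat_lit 80, nat_lit 7, nat_lit 226, nat_lit 20, nat_lit 6]⟩, ⟨p078_k17, nat_lit 0, nat_lit 0, nat_lit 592, nat_lit 0, nat_lit 595518, [nat_lit 1100000000, nat_lit 1732192000, nat_lit 2474208000], [], [nat_lit 7320660971, nat_lit 7318583997, nat_lit 7630396815, nat_lit 7622989988, nat_lit 5911098009, nat_lit 5907421113, nat_lit 6170991157, nat_lit 6160694835], nat_lit 1271250, nat_lit 1271250, nat_lit 1271250, nat_lit 1271250, nat_lit 0, nat_lit 1836250, [nat_lit 1412500, nat_lit 1271250, nat_lit 1271250], [nat_lit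 60, nat_lit 40, nat_lit 40, nat_lit 80, nat_lit 32, nat_lit 456, nat_lit 225, nat_lit 10]⟩,
 ⟨nat_lit 4183, nat_lit 4473, ⟨.ofNat (nat_lit 714716), .ofNat (nat_lit 803088), .ofNat (nat_lit 725499), .ofNat (nat_lit 813871), .ofNat (nat_lit 709599), .ofNat (nat_lit 795731), .ofNat (nat_lit 720431), .ofNat (nat_lit 806564)⟩, ⟨.negSucc (nat_lit 12423), .ofNat (nat_lit 123532), .ofNat (nat_lit 0), .ofNat (nat_lit 145099), .negSucc (nat_lit 4612), .ofNat (nat_lit 127898), .ofNat (nat_lit 0), .ofNat (nat_lit 149565)⟩⟩, [⟨nat_lit 13, nat_lit 78, nat_lit 57, nat_lit 100, nat_lit 142754590⟩, ⟨nat_lit 22, nat_lit 73, nat_lit 100, nat_lit 47, nat_lit 6009456⟩]⟩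
noncomputable def p078_l16 : Lf2 := ⟨nat_lit 0, nat_lit 15, [nat_lit 30, nat_lit 5, nat_lit 5, nat_lit 20], false, nat_lit 0, nat_lit 80, nat_lit 0, nat_lit 260, ⟨nat_lit 176, nat_lit 824, nat_lit 0, nat_lit 8, nat_lit 301, nat_lit 824, nat_lit 28, nat_lit 0, nat_lit 0, nat_lit 0, nat_lit 0, nat_lit 0, nat_lit 42810266, nat_lit 24189734, nat_lit 0, nat_lit 3270072, true, true⟩,
 nat_lit 0, nat_lit 0, nat_lit 3294, nat_lit 0, nat_lit 3307, nat_lit 1492, nat_lit 343, nat_lit 0, nat_lit 0, nat_lit 300, nat_lit 0, nat_lit 0, nat_lit 0, nat_lit 0, nat_lit 0, nat_lit 329600, nat_lit 0, nat_lit 0, [(nat_lit 19, [(nat_lit 1, nat_lit 824)])],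
 ⟨p078_k18, nat_lit 0, nat_lit 0, nat_lit 174, nat_lit 0, nat_lit 0, [nat_lit 1474976001, nat_lit 2123126400, nat_lit 2993692800], [], [nat_lit 26890930705, nat_lit 27332663142, nat_lit 28987279627, nat_lit 29419453636, nat_lit 25757330814, nat_lit 26175818400, nat_lit 27744741556, nat_lit 28119221396], nat_lit 0, nat_lit 0, nat_lit 0, nat_lit 0, nat_lit 0, nat_lit 0, [], [nat_lit 161, nat_lit 40, nat_lit 40, nat_lit 80, nat_lit 43, nat_lit 226, nat_lit 20, nat_lit 6]⟩, ⟨p078_k19, nat_lit 0, nat_lit 0, nat_lit 715, nat_lit 0, nat_lit 855054, [nat_lit 1100000000, nat_lit 1402368000, nat_lit 2474208000], [], [nat_lit 6660685196, nat_lit 6664697472, nat_lit 6991633771, nat_lit 6988083671, nat_lit 5562168588, nat_lit 5557143888, nat_lit 5719933352, nat_lit 5710729561], nat_lit 1271250, nat_lit 1271250, nat_lit 1271250, nat_lit 1271250, nat_lit 0, nat_lit 1836250, [nat_lit 1412500, nat_lit 1271250, nat_lit 1271250],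 [nat_lit 233, nat_lit 40, nat_lit 40, nat_lit 80, nat_lit 28, nat_lit 456, nat_lit 225, nat_lit 10]⟩,
 ⟨nat_lit 3872, nat_lit 4184, ⟨.ofNat (nat_lit 709599), .ofNat (nat_lit 789105), .ofNat (nat_lit 720432), .ofNat (nat_lit 799939), .ofNat (nat_lit 704460), .ofNat (nat_lit 781886), .ofNat (nat_lit 715356), .ofNat (nat_lit 792782)⟩, ⟨.negSucc (nat_lit 4619), .ofNat (nat_lit 127898), .ofNat (nat_lit 0), .ofNat (nat_lit 149565), .ofNat (nat_lit 0), .ofNat (nat_lit 132088), .ofNat (nat_lit 0), .ofNat (nat_lit 153881)⟩⟩, [⟨nat_lit 13, nat_lit 74, nat_lit 62, nat_lit 100, nat_lit 147026562⟩, ⟨nat_lit 22, nat_lit 74, nat_lit 100, nat_lit 46, nat_lit 15223619⟩]⟩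
noncomputable def p078_l17 : Lf2 := ⟨nat_lit 0, nat_lit 20, [nat_lit 5, nat_lit 5, nat_lit 5, nat_lit 20], false, nat_lit 0, nat_lit 80, nat_lit 0, nat_lit 260, ⟨nat_lit 257, nat_lit 743, nat_lit 0, nat_lit 8, nat_lit 301, nat_lit 565, nat_lit 32, nat_lit 0, nat_lit 0, nat_lit 0, nat_lit 0, nat_lit 0, nat_lit 42770983, nat_lit 24229017, nat_lit 0, nat_lit 3271742, true, true⟩,
 nat_lit 0, nat_lit 0, nat_lit 6059, nat_lit 0, nat_lit 3397, nat_lit 2596, nat_lit 43, nat_lit 0, nat_lit 0, nat_lit 226, nat_lit 0, nat_lit 0, nat_lit 0, nat_lit 0, nat_lit 3, nat_lit 743000, nat_lit 0, nat_lit 0, [(nat_lit 19, [(nat_lit 2, nat_lit 743)])],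
 ⟨p078_k4, nat_lit 0, nat_lit 0, nat_lit 204, nat_lit 0, nat_lit 0, [nat_lit 1808333334, nat_lit 2033659467, nat_lit 270863600], [], [nat_lit 27147284772, nat_lit 27935223318, nat_lit 29231448617, nat_lit 29930837554, nat_lit 25930119072, nat_lit 26678023912, nat_lit 27908319886, nat_lit 28639154726], nat_lit 0, nat_lit 0, nat_lit 0, nat_lit 0, nat_lit 0, nat_lit 0, [], [nat_lit 27, nat_lit 40, nat_lit 40, nat_lit 80, nat_lit 13, nat_lit 226, nat_lit 20, nat_lit 6]⟩, ⟨p078_k5, nat_lit 0, nat_lit 0, nat_lit 558, nat_lit 0, nat_lit 499775, [nat_lit 1606250000, nat_lit 2529394000, nat_lit 3612906000], [], [nat_lit 10850557856, nat_lit 10838357488, nat_lit 11410843953, nat_lit 11377342613, nat_lit 8698317623, nat_lit 8681482659, nat_lit 9094361650, nat_lit 9057222066], nat_lit 1271250, nat_lit 1271250, nat_lit 1271250, nat_lit 1271250, nat_lit 0, nat_lit 1836250, [nat_lit 1412500, nat_lit 1271250, nat_lit 1271250],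 [nat_lit 60, nat_lit 40, nat_lit 40, nat_lit 80, nat_lit 32, nat_lit 456, nat_lit 225, nat_lit 10]⟩,
 ⟨nat_lit 3872, nat_lit 4473, ⟨.ofNat (nat_lit 703933), .ofNat (nat_lit 792305), .ofNat (nat_lit 725499), .ofNat (nat_lit 813871), .ofNat (nat_lit 693563), .ofNat (nat_lit 777441), .ofNat (nat_lit 715356), .ofNat (nat_lit 799235)⟩, ⟨.ofNat (nat_lit 0), .ofNat (nat_lit 145099), .ofNat (nat_lit 0), .ofNat (nat_lit 166665), .ofNat (nat_lit 0), .ofNat (nat_lit 153881), .ofNat (nat_lit 0), .ofNat (nat_lit 175674)⟩⟩, [⟨nat_lit 13, nat_lit 76, nat_lit 61, nat_lit 100, nat_lit 125816955⟩, ⟨nat_lit 22, nat_lit 73, nat_lit 100, nat_lit 47, nat_lit 7049332⟩]⟩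
noncomputable def p078_l18 : Lf2 := ⟨nat_lit 0, nat_lit 15, [nat_lit 30, nat_lit 5, nat_lit 5, nat_lit 20], false, nat_lit 0, nat_lit 80, nat_lit 0, nat_lit 260, ⟨nat_lit 258, nat_lit 742, nat_lit 0, nat_lit 8, nat_lit 315, nat_lit 742, nat_lit 27, nat_lit 0, nat_lit 0, nat_lit 0, nat_lit 0, nat_lit 0, nat_lit 41355418, nat_lit 25644582, nat_lit 0, nat_lit 3326982, true, true⟩,
 nat_lit 0, nat_lit 0, nat_lit 4079, nat_lit 0, nat_lit 3515, nat_lit 1950, nat_lit 392, nat_lit 0, nat_lit 0, nat_lit 433, nat_lit 0, nat_lit 0, nat_lit 0, nat_lit 0, nat_lit 0, nat_lit 296800, nat_lit 0, nat_lit 0, [(nat_lit 19, [(nat_lit 1, nat_lit 742)])],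
 ⟨p078_k20, nat_lit 0, nat_lit 0, nat_lit 176, nat_lit 0, nat_lit 0, [nat_lit 1530408001, nat_lit 2238451200, nat_lit 3469964880], [], [nat_lit 26971372421, nat_lit 27423211786, nat_lit 30044416657, nat_lit 30505438668, nat_lit 25718179621, nat_lit 26145943591, nat_lit 28527525446, nat_lit 28894050346], nat_lit 0, nat_lit 0, nat_lit 0, nat_lit 0, nat_lit 0, nat_lit 0, [], [nat_lit 161, nat_lit 40, nat_lit 40, nat_lit 80, nat_lit 43, nat_lit 226, nat_lit 20, nat_lit 6]⟩, ⟨p078_k21, nat_lit 0, nat_lit 0, nat_lit 621, nat_lit 0, nat_lit 700537, [nat_lit 1612500000, nat_lit 2055744000, nat_lit 3626964000], [], [nat_lit 9753334024, nat_lit 9754720732, nat_lit 10252217381, nat_lit 10250653346, nat_lit 8611784754, nat_lit 8614059684, nat_lit 8955763518, nat_lit 8942076669], nat_lit 1271250, nat_lit 1271250, nat_lit 1271250, nat_lit 1271250, nat_lit 0, nat_lit 1836250, [nat_lit 1412500, nat_lit 1271250, nat_lit 1271250],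 [nat_lit 233, nat_lit 40, nat_lit 40, nat_lit 80, nat_lit 28, nat_lit 456, nat_lit 225, nat_lit 10]⟩,
 ⟨nat_lit 4183, nat_lit 4473, ⟨.ofNat (nat_lit 725499), .ofNat (nat_lit 834264), .ofNat (nat_lit 747062), .ofNat (nat_lit 855828), .ofNat (nat_lit 720431), .ofNat (nat_lit 826441), .ofNat (nat_lit 742095), .ofNat (nat_lit 848105)⟩, ⟨.negSucc (nat_lit 12423), .ofNat (nat_lit 123532), .ofNat (nat_lit 0), .ofNat (nat_lit 145099), .negSucc (nat_lit 4612), .ofNat (nat_lit 127898), .ofNat (nat_lit 0), .ofNat (nat_lit 149565)⟩⟩, [⟨nat_lit 13, nat_lit 79, nat_lit 51, nat_lit 100, nat_lit 71014370⟩, ⟨nat_lit 10, nat_lit 100, nat_lit 58, nat_lit 64, nat_lit 50835922⟩]⟩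
noncomputable def p078_l19 : Lf2 := ⟨nat_lit 0, nat_lit 15, [nat_lit 30, nat_lit 5, nat_lit 5, nat_lit 20], false, nat_lit 0, nat_lit 80, nat_lit 0, nat_lit 260, ⟨nat_lit 210, nat_lit 790, nat_lit 0, nat_lit 8, nat_lit 306, nat_lit 790, nat_lit 28, nat_lit 0, nat_lit 0, nat_lit 0, nat_lit 0, nat_lit 0, nat_lit 42231475, nat_lit 24768525, nat_lit 0, nat_lit 3293923, true, true⟩,
 nat_lit 0, nat_lit 0, nat_lit 3472, nat_lit 0, nat_lit 3324, nat_lit 1660, nat_lit 361, nat_lit 0, nat_lit 0, nat_lit 354, nat_lit 0, nat_lit 0, nat_lit 0, nat_lit 0, nat_lit 0, nat_lit 316000, nat_lit 0, nat_lit 0, [(nat_lit 19, [(nat_lit 1, nat_lit 790)])],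
 ⟨p078_k18, nat_lit 0, nat_lit 0, nat_lit 175, nat_lit 0, nat_lit 0, [nat_lit 1497960001, nat_lit 2170944000, nat_lit 3189288000], [], [nat_lit 27013555254, nat_lit 27456113738, nat_lit 29298860020, nat_lit 29732659558, nat_lit 25868213242, nat_lit 26287458994, nat_lit 28034619708, nat_lit 28406028883], nat_lit 0, nat_lit 0, nat_lit 0, nat_lit 0, nat_lit 0, nat_lit 0, [], [nat_lit 161, nat_lit 40, nat_lit 40, nat_lit 80, nat_lit 43, nat_lit 226, nat_lit 20, nat_lit 6]⟩, ⟨p078_k21, nat_lit 0, nat_lit 0, nat_lit 703, nat_lit 0, nat_lit 853375, [nat_lit 1312500000, nat_lit 1673280000, nat_lit 2952180000], [], [nat_lit 7789718840, nat_lit 7797016440, nat_lit 8201306322, nat_lit 8199348099, nat_lit 6705213940, nat_lit 6701877145, nat_lit 6906394705, nat_lit 6897939832], nat_lit 1271250, nat_lit 1271250, nat_lit 1271250, nat_lit 1271250, nat_lit 0, nat_lit 1836250, [nat_lit 1412500, nat_lit 1271250, nat_lit 1271250],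 [nat_lit 233, nat_lit 40, nat_lit 40, nat_lit 80, nat_lit 28, nat_lit 456, nat_lit 225, nat_lit 10]⟩,
 ⟨nat_lit 3872, nat_lit 4184, ⟨.ofNat (nat_lit 720432), .ofNat (nat_lit 806564), .ofNat (nat_lit 731265), .ofNat (nat_lit 817398), .ofNat (nat_lit 715356), .ofNat (nat_lit 799235), .ofNat (nat_lit 726253), .ofNat (nat_lit 810131)⟩, ⟨.negSucc (nat_lit 4619), .ofNat (nat_lit 127898), .ofNat (nat_lit 0), .ofNat (nat_lit 149565), .ofNat (nat_lit 0), .ofNat (nat_lit 132088), .ofNat (nat_lit 0), .ofNat (nat_lit 153881)⟩⟩, [⟨nat_lit 13, nat_lit 74, nat_lit 58, nat_lit 100, nat_lit 104554625⟩, ⟨nat_lit 10, nat_lit 100, nat_lit 58, nat_lit 64, nat_lit 28403953⟩]⟩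
noncomputable def p078_l20 : Lf2 := ⟨nat_lit 0, nat_lit 15, [nat_lit 30, nat_lit 5, nat_lit 5, nat_lit 20], false, nat_lit 0, nat_lit 80, nat_lit 0, nat_lit 260, ⟨nat_lit 200, nat_lit 800, nat_lit 0, nat_lit 8, nat_lit 312, nat_lit 800, nat_lit 28, nat_lit 0, nat_lit 0, nat_lit 0, nat_lit 0, nat_lit 0, nat_lit 41657779, nat_lit 25342221, nat_lit 0, nat_lit 3315984, true, true⟩,
 nat_lit 0, nat_lit 0, nat_lit 3209, nat_lit 0, nat_lit 3430, nat_lit 1616, nat_lit 318, nat_lit 0, nat_lit 0, nat_lit 312, nat_lit 0, nat_lit 0, nat_lit 0, nat_lit 0, nat_lit 0, nat_lit 281150, nat_lit 0, nat_lit 0, [(nat_lit 19, [(nat_lit 0, nat_lit 259), (nat_lit 1, nat_lit 541)])],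
 ⟨p078_k16, nat_lit 0, nat_lit 0, nat_lit 185, nat_lit 0, nat_lit 0, [nat_lit 1562271734, nat_lit 2584749601, nat_lit 3370850400], [], [nat_lit 27528994865, nat_lit 27954842505, nat_lit 29908242380, nat_lit 30288421880, nat_lit 26318155655, nat_lit 26721606685, nat_lit 28573773181, nat_lit 28962822400], nat_lit 0, nat_lit 0, nat_lit 0, nat_lit 0, nat_lit 0, nat_lit 0, [], [nat_lit 34, nat_lit 40, nat_lit 40, nat_lit 80, nat_lit 7, nat_lit 226, nat_lit 20, nat_lit 6]⟩, ⟨p078_k22, nat_lit 0, nat_lit 0, nat_lit 696, nat_lit 0, nat_lit 858695, [nat_lit 1250000000, nat_lit 1968400000, nat_lit 2811600000], [], [nat_lit 7062260248, nat_lit 7060922928, nat_lit 7401177197, nat_lit 7407413962, nat_lit 5948249118, nat_lit 5943421352, nat_lit 6186711440, nat_lit 6181749573], nat_lit 1271250, nat_lit 1271250, nat_lit 1271250, nat_lit 1271250, nat_lit 0, nat_lit 1836250, [nat_lit 1412500, nat_lit 1271250, nat_lit 1271250], [nat_lit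 60, nat_lit 40, nat_lit 40, nat_lit 80, nat_lit 32, nat_lit 456, nat_lit 225, nat_lit 10]⟩,
 ⟨nat_lit 3872, nat_lit 4184, ⟨.ofNat (nat_lit 731265), .ofNat (nat_lit 824023), .ofNat (nat_lit 742098), .ofNat (nat_lit 834857), .ofNat (nat_lit 726253), .ofNat (nat_lit 816583), .ofNat (nat_lit 737149), .ofNat (nat_lit 827480)⟩, ⟨.negSucc (nat_lit 4619), .ofNat (nat_lit 127898), .ofNat (nat_lit 0), .ofNat (nat_lit 149565), .ofNat (nat_lit 0), .ofNat (nat_lit 132088), .ofNat (nat_lit 0), .ofNat (nat_lit 153881)⟩⟩, [⟨nat_lit 13, nat_lit 75, nat_lit 54, nat_lit 100, nat_lit 108340877⟩, ⟨nat_lit 10, nat_lit 100, nat_lit 58, nat_lit 64, nat_lit 10440322⟩, ⟨nat_lit 22, nat_lit 72, nat_lit 100, nat_lit 49, nat_lit 19192486⟩]⟩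
noncomputable def p078_l21 : Lf2 := ⟨nat_lit 0, nat_lit 20, [nat_lit 5, nat_lit 5, nat_lit 5, nat_lit 20], false, nat_lit 0, nat_lit 80, nat_lit 0, nat_lit 260, ⟨nat_lit 692, nat_lit 308, nat_lit 0, nat_lit 8, nat_lit 314, nat_lit 308, nat_lit 32, nat_lit 0, nat_lit 0, nat_lit 0, nat_lit 0, nat_lit 0, nat_lit 41484320, nat_lit 25515680, nat_lit 0, nat_lit 3322346, true, true⟩,
 nat_lit 0, nat_lit 0, nat_lit 11858, nat_lit 0, nat_lit 4367, nat_lit 5671, nat_lit 480, nat_lit 0, nat_lit 0, nat_lit 1483, nat_lit 0, nat_lit 0, nat_lit 0, nat_lit 0, nat_lit 0, nat_lit 308000, nat_lit 0, nat_lit 0, [(nat_lit 19, [(nat_lit 2, nat_lit 308)])],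
 ⟨p078_k4, nat_lit 0, nat_lit 0, nat_lit 208, nat_lit 0, nat_lit 0, [nat_lit 1929333334, nat_lit 3567783467, nat_lit 5839601600], [], [nat_lit 29117901247, nat_lit 30025881299, nat_lit 32430647134, nat_lit 33423808830, nat_lit 27021685657, nat_lit 27837218897, nat_lit 30180562045, nat_lit 31079293151], nat_lit 0, nat_lit 0, nat_lit 0, nat_lit 0, nat_lit 0, nat_lit 0, [], [nat_lit 27, nat_lit 40, nat_lit 40, nat_lit 80, nat_lit 13, nat_lit 226, nat_lit 20, nat_lit 6]⟩, ⟨p078_k6, nat_lit 0, nat_lit 0, nat_lit 578, nat_lit 0, nat_lit 565717, [nat_lit 4325000000, nat_lit 6810664000, nat_lit 9728136000], [], [nat_lit 24575499224, nat_lit 24665379548, nat_lit 26377243106, nat_lit 26407155424, nat_lit 20544639291, nat_lit 20509371919, nat_lit 21779122743, nat_lit 21824725926], nat_lit 1271250, nat_lit 1271250, nat_lit 1271250, nat_lit 1271250, nat_lit 0, nat_lit 1836250, [nat_lit 1412500, nat_lit 1271250, nat_lit 1271250],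 [nat_lit 60, nat_lit 40, nat_lit 40, nat_lit 80, nat_lit 32, nat_lit 456, nat_lit 225, nat_lit 10]⟩,
 ⟨nat_lit 3872, nat_lit 4473, ⟨.ofNat (nat_lit 725499), .ofNat (nat_lit 834264), .ofNat (nat_lit 747053), .ofNat (nat_lit 855824), .ofNat (nat_lit 715356), .ofNat (nat_lit 818591), .ofNat (nat_lit 737137), .ofNat (nat_lit 840378)⟩, ⟨.ofNat (nat_lit 0), .ofNat (nat_lit 145099), .ofNat (nat_lit 0), .ofNat (nat_lit 166665), .ofNat (nat_lit 0), .ofNat (nat_lit 153881), .ofNat (nat_lit 0), .ofNat (nat_lit 175674)⟩⟩, [⟨nat_lit 10, nat_lit 100, nat_lit 58, nat_lit 64, nat_lit 14615919⟩, ⟨nat_lit 22, nat_lit 67, nat_lit 100, nat_lit 61, nat_lit 60427385⟩]⟩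
noncomputable def p078_l22 : Lf2 := ⟨nat_lit 0, nat_lit 15, [nat_lit 30, nat_lit 5, nat_lit 5, nat_lit 20], true, nat_lit 80, nat_lit 160, nat_lit 0, nat_lit 336, ⟨nat_lit 0, nat_lit 1000, nat_lit 0, nat_lit 8, nat_lit 301, nat_lit 1000, nat_lit 82, nat_lit 0, nat_lit 0, nat_lit 0, nat_lit 0, nat_lit 0, nat_lit 40599166, nat_lit 23382831, nat_lit 3018003, nat_lit 4253159, true, true⟩,
 nat_lit 0, nat_lit 0, nat_lit 0, nat_lit 3392, nat_lit 3563, nat_lit 0, nat_lit 92, nat_lit 0, nat_lit 0, nat_lit 0, nat_lit 0, nat_lit 0, nat_lit 0, nat_lit 0, nat_lit 0, nat_lit 250000, nat_lit 0, nat_lit 0, [(nat_lit 19, [(nat_lit 0, nat_lit 1000)])],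
 ⟨p078_k2, nat_lit 0, nat_lit 0, nat_lit 130, nat_lit 0, nat_lit 0, [nat_lit 1542400001, nat_lit 2190400000, nat_lit 2901600000], [], [nat_lit 25730378864, nat_lit 26728786192, nat_lit 28367946226, nat_lit 29240145881, nat_lit 26075065885, nat_lit 26938557733, nat_lit 28432546867, nat_lit 29230581522], nat_lit 0, nat_lit 0, nat_lit 0, nat_lit 0, nat_lit 0, nat_lit 0, [], [nat_lit 34, nat_lit 40, nat_lit 40, nat_lit 80, nat_lit 7, nat_lit 249, nat_lit 40, nat_lit 7]⟩, C1.Rw.none,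
 ⟨nat_lit 3872, nat_lit 4473, ⟨.ofNat (nat_lit 703933), .ofNat (nat_lit 792305), .ofNat (nat_lit 725499), .ofNat (nat_lit 813871), .ofNat (nat_lit 693563), .ofNat (nat_lit 777441), .ofNat (nat_lit 715356), .ofNat (nat_lit 799235)⟩, ⟨.ofNat (nat_lit 123532), .ofNat (nat_lit 259489), .ofNat (nat_lit 145099), .ofNat (nat_lit 281055), .ofNat (nat_lit 132088), .ofNat (nat_lit 261131), .ofNat (nat_lit 153881), .ofNat (nat_lit 282924)⟩⟩, [⟨nat_lit 13, nat_lit 76, nat_lit 61, nat_lit 100, nat_lit 255013116⟩]⟩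
noncomputable def p078_l23 : Lf2 := ⟨nat_lit 0, nat_lit 15, [nat_lit 30, nat_lit 5, nat_lit 5, nat_lit 20], false, nat_lit 80, nat_lit 160, nat_lit 0, nat_lit 332, ⟨nat_lit 96, nat_lit 904, nat_lit 0, nat_lit 8, nat_lit 314, nat_lit 904, nat_lit 82, nat_lit 0, nat_lit 0, nat_lit 0, nat_lit 0, nat_lit 0, nat_lit 39441497, nat_lit 24595569, nat_lit 2962934, nat_lit 4287824, true, true⟩,
 nat_lit 0, nat_lit 0, nat_lit 1822, nat_lit 0, nat_lit 4149, nat_lit 871, nat_lit 240, nat_lit 0, nat_lit 0, nat_lit 89, nat_lit 0, nat_lit 0, nat_lit 0, nat_lit 0, nat_lit 0, nat_lit 226000, nat_lit 0, nat_lit 0, [(nat_lit 19, [(nat_lit 0, nat_lit 904)])],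
 ⟨p078_k2, nat_lit 0, nat_lit 0, nat_lit 135, nat_lit 0, nat_lit 0, [nat_lit 1589401601, nat_lit 2430169600, nat_lit 3387974400], [], [nat_lit 25074963372, nat_lit 26139387116, nat_lit 28576276598, nat_lit 29466969332, nat_lit 25164260712, nat_lit 26129986970, nat_lit 28344694409, nat_lit 29157074030], nat_lit 0, nat_lit 0, nat_lit 0, nat_lit 0, nat_lit 0, nat_lit 0, [], [nat_lit 34, nat_lit 40, nat_lit 40, nat_lit 80, nat_lit 7, nat_lit 249, nat_lit 40, nat_lit 7]⟩, ⟨p078_k3, nat_lit 0, nat_lit 0, nat_lit 743, nat_lit 0, nat_lit 928567, [nat_lit 600000000, nat_lit 944832000, nat_lit 1349568000], [], [nat_lit 3945624790, nat_lit 3941455080, nat_lit 4108807300, nat_lit 4106178374, nat_lit 3267488568, nat_lit 3247424300, nat_lit 3382352902, nat_lit 3377241825], nat_lit 1271250, nat_lit 1271250, nat_lit 1271250, nat_lit 1271250, nat_lit 0, nat_lit 2344750, [nat_lit 1412500, nat_lit 1271250, nat_lit 1271250], [nat_lit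 60, nat_lit 40, nat_lit 40, nat_lit 80, nat_lit 32, nat_lit 483, nat_lit 250, nat_lit 11]⟩,
 ⟨nat_lit 3872, nat_lit 4473, ⟨.ofNat (nat_lit 725499), .ofNat (nat_lit 834264), .ofNat (nat_lit 747053), .ofNat (nat_lit 855824), .ofNat (nat_lit 715356), .ofNat (nat_lit 818591), .ofNat (nat_lit 737137), .ofNat (nat_lit 840378)⟩, ⟨.ofNat (nat_lit 123532), .ofNat (nat_lit 259489), .ofNat (nat_lit 145099), .ofNat (nat_lit 281055), .ofNat (nat_lit 132088), .ofNat (nat_lit 261131), .ofNat (nat_lit 153881), .ofNat (nat_lit 282924)⟩⟩, [⟨nat_lit 13, nat_lit 77, nat_lit 53, nat_lit 100, nat_lit 203031916⟩, ⟨nat_lit 22, nat_lit 68, nat_lit 100, nat_lit 96, nat_lit 10999881⟩]⟩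
noncomputable def p078_l24 : Lf2 := ⟨nat_lit 0, nat_lit 20, [nat_lit 5, nat_lit 5, nat_lit 5, nat_lit 20], true, nat_lit 80, nat_lit 160, nat_lit 0, nat_lit 336, ⟨nat_lit 0, nat_lit 1000, nat_lit 0, nat_lit 8, nat_lit 301, nat_lit 1000, nat_lit 91, nat_lit 0, nat_lit 0, nat_lit 0, nat_lit 0, nat_lit 0, nat_lit 40259441, nat_lit 23242766, nat_lit 3497793, nat_lit 4357053, true, true⟩,
 nat_lit 0, nat_lit 0, nat_lit 0, nat_lit 9772, nat_lit 3368, nat_lit 0, nat_lit 227, nat_lit 0, nat_lit 0, nat_lit 0, nat_lit 0, nat_lit 0, nat_lit 0, nat_lit 0, nat_lit 0, nat_lit 400000, nat_lit 0, nat_lit 0, [(nat_lit 19, [(nat_lit 1, nat_lit 1000)])],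
 ⟨p078_k4, nat_lit 0, nat_lit 0, nat_lit 152, nat_lit 0, nat_lit 0, [nat_lit 1398133334, nat_lit 2037600000, nat_lit 1832000000], [], [nat_lit 24365914975, nat_lit 25269011231, nat_lit 26753397865, nat_lit 27546445238, nat_lit 24620636095, nat_lit 25446142703, nat_lit 26842616064, nat_lit 27728733938], nat_lit 0, nat_lit 0, nat_lit 0, nat_lit 0, nat_lit 0, nat_lit 0, [], [nat_lit 27, nat_lit 40, nat_lit 40, nat_lit 80, nat_lit 13, nat_lit 249, nat_lit 40, nat_lit 6]⟩, C1.Rw.none,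
 ⟨nat_lit 3872, nat_lit 4473, ⟨.ofNat (nat_lit 703933), .ofNat (nat_lit 792305), .ofNat (nat_lit 725499), .ofNat (nat_lit 813871), .ofNat (nat_lit 693563), .ofNat (nat_lit 777441), .ofNat (nat_lit 715356), .ofNat (nat_lit 799235)⟩, ⟨.ofNat (nat_lit 145099), .ofNat (nat_lit 281055), .ofNat (nat_lit 166665), .ofNat (nat_lit 302621), .ofNat (nat_lit 153881), .ofNat (nat_lit 282924), .ofNat (nat_lit 175674), .ofNat (nat_lit 304717)⟩⟩, [⟨nat_lit 13, nat_lit 76, nat_lit 61, nat_lit 100, nat_lit 241047873⟩]⟩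
noncomputable def p078_l25 : Lf2 := ⟨nat_lit 0, nat_lit 20, [nat_lit 5, nat_lit 5, nat_lit 5, nat_lit 20], false, nat_lit 80, nat_lit 160, nat_lit 0, nat_lit 336, ⟨nat_lit 226, nat_lit 774, nat_lit 0, nat_lit 8, nat_lit 314, nat_lit 774, nat_lit 91, nat_lit 0, nat_lit 0, nat_lit 0, nat_lit 0, nat_lit 0, nat_lit 39121502, nat_lit 24444840, nat_lit 3433658, nat_lit 4390116, true, true⟩,
 nat_lit 0, nat_lit 0, nat_lit 4247, nat_lit 0, nat_lit 4014, nat_lit 2030, nat_lit 309, nat_lit 0, nat_lit 0, nat_lit 208, nat_lit 0, nat_lit 0, nat_lit 0, nat_lit 0, nat_lit 0, nat_lit 309600, nat_lit 0, nat_lit 0, [(nat_lit 19, [(nat_lit 1, nat_lit 774)])],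
 ⟨p078_k4, nat_lit 0, nat_lit 0, nat_lit 156, nat_lit 0, nat_lit 0, [nat_lit 1541387201, nat_lit 2636590400, nat_lit 3642260000], [], [nat_lit 25244479425, nat_lit 26210490913, nat_lit 28427395491, nat_lit 29239537608, nat_lit 25256201185, nat_lit 26135038969, nat_lit 28155168678, nat_lit 28900829178], nat_lit 0, nat_lit 0, nat_lit 0, nat_lit 0, nat_lit 0, nat_lit 0, [], [nat_lit 27, nat_lit 40, nat_lit 40, nat_lit 80, nat_lit 13, nat_lit 249, nat_lit 40, nat_lit 6]⟩, ⟨p078_k6, nat_lit 0, nat_lit 0, nat_lit 578, nat_lit 0, nat_lit 565717, [nat_lit 1412500000, nat_lit 2224292000, nat_lit 3177108000], [], [nat_lit 8998831608, nat_lit 9018442408, nat_lit 9607556560, nat_lit 9656180511, nat_lit 7694805512, nat_lit 7671072066, nat_lit 8016640900, nat_lit 8003664905], nat_lit 1271250, nat_lit 1271250, nat_lit 1271250, nat_lit 1271250, nat_lit 0, nat_lit 2373000, [nat_lit 1412500, nat_lit 1271250, nat_lit 1271250], [nat_lit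 60, nat_lit 40, nat_lit 40, nat_lit 80, nat_lit 32, nat_lit 483, nat_lit 250, nat_lit 11]⟩,
 ⟨nat_lit 3872, nat_lit 4473, ⟨.ofNat (nat_lit 725499), .ofNat (nat_lit 834264), .ofNat (nat_lit 747053), .ofNat (nat_lit 855824), .ofNat (nat_lit 715356), .ofNat (nat_lit 818591), .ofNat (nat_lit 737137), .ofNat (nat_lit 840378)⟩, ⟨.ofNat (nat_lit 145099), .ofNat (nat_lit 281055), .ofNat (nat_lit 166665), .ofNat (nat_lit 302621), .ofNat (nat_lit 153881), .ofNat (nat_lit 282924), .ofNat (nat_lit 175674), .ofNat (nat_lit 304717)⟩⟩, [⟨nat_lit 13, nat_lit 77, nat_lit 53, nat_lit 100, nat_lit 114215692⟩, ⟨nat_lit 22, nat_lit 68, nat_lit 100, nat_lit 96, nat_lit 27932024⟩]⟩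
noncomputable def b_V_800_500_10_10 : St := ⟨true, nat_lit 0, nat_lit 1, nat_lit 1, nat_lit 80, nat_lit 320, nat_lit 340, nat_lit 200, nat_lit 240, nat_lit 320, nat_lit 384, nat_lit 40, nat_lit 80, nat_lit 0, nat_lit 160, nat_lit 0, nat_lit 336, nat_lit 40, nat_lit 80, nat_lit 0, nat_lit 0, nat_lit 0, nat_lit 0⟩
theorem d_V_800_500_10_10 (h : EB TB.env) : Dead b_V_800_500_10_10 := chkB_sound0 h (T :=
(.spl (nat_lit 4) (nat_lit 80)
(.trX (nat_lit 22) (nat_lit 83) (nat_lit 100) (nat_lit 83) (nat_lit 260) (.spl (nat_lit 1) (nat_lit 220)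
(.trX (nat_lit 13) (nat_lit 80) (nat_lit 52) (nat_lit 100) (nat_lit 372) (.spl (nat_lit 3) (nat_lit 60)
(.spl (nat_lit 1) (nat_lit 210)
(.trX (nat_lit 13) (nat_lit 80) (nat_lit 56) (nat_lit 100) (nat_lit 368) (.spl (nat_lit 0) (nat_lit 330)
(.leaf p078_l13)
(.trX (nat_lit 13) (nat_lit 76) (nat_lit 61) (nat_lit 100) (nat_lit 360) (.leaf p078_l14))))
(.spl (nat_lit 0) (nat_lit 330)
(.leaf p078_l15)
(.trX (nat_lit 13) (nat_lit 76) (nat_lit 57) (nat_lit 100) (nat_lit 368) (.leaf p078_l16))))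
(.leaf p078_l17)))
(.spl (nat_lit 3) (nat_lit 60)
(.spl (nat_lit 0) (nat_lit 330)
(.leaf p078_l18)
(.trX (nat_lit 13) (nat_lit 78) (nat_lit 49) (nat_lit 100) (nat_lit 376) (.spl (nat_lit 1) (nat_lit 230)
(.trX (nat_lit 13) (nat_lit 77) (nat_lit 53) (nat_lit 100) (nat_lit 372) (.leaf p078_l19))
(.leaf p078_l20))))
(.leaf p078_l21))))
(.spl (nat_lit 3) (nat_lit 60)
(.spl (nat_lit 1) (nat_lit 220)
(.trX (nat_lit 13) (nat_lit 80) (nat_lit 52) (nat_lit 100) (nat_lit 372) (.leaf p078_l22))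
(.trX (nat_lit 19) (nat_lit 100) (nat_lit 77) (nat_lit 72) (nat_lit 332) (.leaf p078_l23)))
(.spl (nat_lit 1) (nat_lit 220)
(.trX (nat_lit 13) (nat_lit 80) (nat_lit 52) (nat_lit 100) (nat_lit 372) (.leaf p078_l24))
(.leaf p078_l25))))) (by decide +kernel)
noncomputable def p078_l26 : Lf2 := ⟨nat_lit 0, nat_lit 15, [nat_lit 30, nat_lit 5, nat_lit 5, nat_lit 20], false, nat_lit 0, nat_lit 80, nat_lit 0, nat_lit 260, ⟨nat_lit 80, nat_lit 920, nat_lit 0, nat_lit 8, nat_lit 293, nat_lit 868, nat_lit 29, nat_lit 0, nat_lit 0, nat_lit 0, nat_lit 0, nat_lit 0, nat_lit 43554955, nat_lit 23445045, nat_lit 0, nat_lit 3237003, true, true⟩,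
 nat_lit 0, nat_lit 0, nat_lit 1969, nat_lit 0, nat_lit 2856, nat_lit 843, nat_lit 0, nat_lit 0, nat_lit 0, nat_lit 71, nat_lit 0, nat_lit 0, nat_lit 0, nat_lit 0, nat_lit 10, nat_lit 613400, nat_lit 0, nat_lit 0, [(nat_lit 22, [(nat_lit 1, nat_lit 511), (nat_lit 2, nat_lit 409)])],
 ⟨p078_k23, nat_lit 0, nat_lit 0, nat_lit 182, nat_lit 0, nat_lit 0, [nat_lit 1507121067, nat_lit 1327252400, nat_lit 30339867], [], [nat_lit 26386054518, nat_lit 26786446406, nat_lit 27919969782, nat_lit 28295110824, nat_lit 25547313974, nat_lit 25927448550, nat_lit 27005630758, nat_lit 27393744763], nat_lit 0, nat_lit 0, nat_lit 0, nat_lit 0, nat_lit 0, nat_lit 0, [], [nat_lit 34, nat_lit 40, nat_lit 40, nat_lit 80, nat_lit 7, nat_lit 226, nat_lit 20, nat_lit 6]⟩, ⟨p078_k15, nat_lit 0, nat_lit 0, nat_lit 872, nat_lit 0, nat_lit 1229883, [nat_lit 500000000, nat_lit 787360000, nat_lit 1124640000], [], [nat_lit 3445758208, nat_lit 3426354608,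 nat_lit 3489433980, nat_lit 3482467090, nat_lit 2694315454, nat_lit 2668269445, nat_lit 2713809536, nat_lit 2692187961], nat_lit 1271250, nat_lit 1271250, nat_lit 1271250, nat_lit 1271250, nat_lit 0, nat_lit 1836250, [nat_lit 1412500, nat_lit 1271250, nat_lit 1271250], [nat_lit 60, nat_lit 40, nat_lit 40, nat_lit 80, nat_lit 32, nat_lit 456, nat_lit 225, nat_lit 10]⟩,
 ⟨nat_lit 3535, nat_lit 3873, ⟨.ofNat (nat_lit 693563), .ofNat (nat_lit 758085), .ofNat (nat_lit 715356), .ofNat (nat_lit 779878), .ofNat (nat_lit 688283), .ofNat (nat_lit 751044), .ofNat (nat_lit 710235), .ofNat (nat_lit 772997)⟩, ⟨.ofNat (nat_lit 0), .ofNat (nat_lit 132088), .ofNat (nat_lit 0), .ofNat (nat_lit 153881), .ofNat (nat_lit 0), .ofNat (nat_lit 136093), .ofNat (nat_lit 0), .ofNat (nat_lit 158046)⟩⟩, [⟨nat_lit 13, nat_lit 69, nat_lit 69, nat_lit 100, nat_lit 180970099⟩]⟩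
noncomputable def p078_l27 : Lf2 := ⟨nat_lit 0, nat_lit 15, [nat_lit 30, nat_lit 5, nat_lit 5, nat_lit 20], true, nat_lit 0, nat_lit 80, nat_lit 0, nat_lit 260, ⟨nat_lit 0, nat_lit 1000, nat_lit 0, nat_lit 8, nat_lit 287, nat_lit 514, nat_lit 30, nat_lit 0, nat_lit 0, nat_lit 0, nat_lit 0, nat_lit 0, nat_lit 44198759, nat_lit 22801241, nat_lit 0, nat_lit 3206226, true, true⟩,
 nat_lit 0, nat_lit 0, nat_lit 0, nat_lit 3108, nat_lit 3448, nat_lit 0, nat_lit 55, nat_lit 0, nat_lit 0, nat_lit 0, nat_lit 0, nat_lit 0, nat_lit 0, nat_lit 0, nat_lit 0, nat_lit 250000, nat_lit 0, nat_lit 0, [(nat_lit 22, [(nat_lit 0, nat_lit 1000)])],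
 ⟨p078_k24, nat_lit 0, nat_lit 0, nat_lit 163, nat_lit 0, nat_lit 0, [nat_lit 1568000001, nat_lit 1970800000, nat_lit 2330800000], [], [nat_lit 28109457862, nat_lit 28565638814, nat_lit 29298745481, nat_lit 29725586750, nat_lit 26872102462, nat_lit 27303666014, nat_lit 27999767698, nat_lit 28404427013], nat_lit 0, nat_lit 0, nat_lit 0, nat_lit 0, nat_lit 0, nat_lit 0, [], [nat_lit 6, nat_lit 40, nat_lit 40, nat_lit 80, nat_lit 3, nat_lit 226, nat_lit 20, nat_lit 7]⟩, C1.Rw.none,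
 ⟨nat_lit 3162, nat_lit 3536, ⟨.ofNat (nat_lit 688283), .ofNat (nat_lit 732216), .ofNat (nat_lit 710235), .ofNat (nat_lit 754168), .ofNat (nat_lit 682859), .ofNat (nat_lit 725526), .ofNat (nat_lit 705013), .ofNat (nat_lit 747681)⟩, ⟨.ofNat (nat_lit 0), .ofNat (nat_lit 136093), .ofNat (nat_lit 0), .ofNat (nat_lit 158046), .ofNat (nat_lit 0), .ofNat (nat_lit 139899), .ofNat (nat_lit 0), .ofNat (nat_lit 162054)⟩⟩, [⟨nat_lit 13, nat_lit 63, nat_lit 74, nat_lit 100, nat_lit 79530676⟩, ⟨nat_lit 13, nat_lit 66, nat_lit 68, nat_lit 100, nat_lit 199145106⟩]⟩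
noncomputable def p078_l28 : Lf2 := ⟨nat_lit 0, nat_lit 20, [nat_lit 5, nat_lit 5, nat_lit 5, nat_lit 20], false, nat_lit 0, nat_lit 80, nat_lit 0, nat_lit 260, ⟨nat_lit 144, nat_lit 856, nat_lit 0, nat_lit 8, nat_lit 293, nat_lit 718, nat_lit 33, nat_lit 0, nat_lit 0, nat_lit 0, nat_lit 0, nat_lit 0, nat_lit 43554955, nat_lit 23445045, nat_lit 0, nat_lit 3237003, true, true⟩,
 nat_lit 0, nat_lit 0, nat_lit 3510, nat_lit 0, nat_lit 2930, nat_lit 1504, nat_lit 0, nat_lit 0, nat_lit 0, nat_lit 127, nat_lit 0, nat_lit 0, nat_lit 0, nat_lit 0, nat_lit 5, nat_lit 621400, nat_lit 0, nat_lit 0, [(nat_lit 22, [(nat_lit 1, nat_lit 391), (nat_lit 2, nat_lit 465)])],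
 ⟨p078_k13, nat_lit 0, nat_lit 0, nat_lit 182, nat_lit 0, nat_lit 0, [nat_lit 1512262400, nat_lit 1360394801, nat_lit 33078000], [], [nat_lit 26574092721, nat_lit 26977766361, nat_lit 28119951141, nat_lit 28495615312, nat_lit 25684493901, nat_lit 26067634431, nat_lit 27153748921, nat_lit 27543262632], nat_lit 0, nat_lit 0, nat_lit 0, nat_lit 0, nat_lit 0, nat_lit 0, [], [nat_lit 34, nat_lit 40, nat_lit 40, nat_lit 80, nat_lit 7, nat_lit 226, nat_lit 20, nat_lit 6]⟩, ⟨p078_k5, nat_lit 0, nat_lit 0, nat_lit 670, nat_lit 0, nat_lit 793374, [nat_lit 900000000, nat_lit 1417248000, nat_lit 2024352000], [], [nat_lit 6148805760, nat_lit 6134012480, nat_lit 6302674560, nat_lit 6279288480, nat_lit 4857605344, nat_lit 4825713080, nat_lit 4943614128, nat_lit 4905429680], nat_lit 1271250, nat_lit 1271250, nat_lit 1271250, nat_lit 1271250, nat_lit 0, nat_lit 1836250, [nat_lit 1412500, nat_lit 1271250, nat_lit 1271250], [nat_lit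 60, nat_lit 40, nat_lit 40, nat_lit 80, nat_lit 32, nat_lit 456, nat_lit 225, nat_lit 10]⟩,
 ⟨nat_lit 3535, nat_lit 3873, ⟨.ofNat (nat_lit 693563), .ofNat (nat_lit 758085), .ofNat (nat_lit 715356), .ofNat (nat_lit 779878), .ofNat (nat_lit 688283), .ofNat (nat_lit 751044), .ofNat (nat_lit 710235), .ofNat (nat_lit 772997)⟩, ⟨.ofNat (nat_lit 0), .ofNat (nat_lit 153881), .ofNat (nat_lit 0), .ofNat (nat_lit 175674), .ofNat (nat_lit 0), .ofNat (nat_lit 158046), .ofNat (nat_lit 0), .ofNat (nat_lit 179999)⟩⟩, [⟨nat_lit 13, nat_lit 69, nat_lit 69, nat_lit 100, nat_lit 168873883⟩]⟩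
noncomputable def p078_l29 : Lf2 := ⟨nat_lit 0, nat_lit 20, [nat_lit 5, nat_lit 5, nat_lit 5, nat_lit 20], false, nat_lit 0, nat_lit 80, nat_lit 0, nat_lit 260, ⟨nat_lit 122, nat_lit 878, nat_lit 0, nat_lit 8, nat_lit 288, nat_lit 878, nat_lit 34, nat_lit 0, nat_lit 0, nat_lit 0, nat_lit 0, nat_lit 0, nat_lit 44135936, nat_lit 22864064, nat_lit 0, nat_lit 3209320, true, true⟩,
 nat_lit 0, nat_lit 0, nat_lit 3057, nat_lit 0, nat_lit 2728, nat_lit 1310, nat_lit 293, nat_lit 0, nat_lit 0, nat_lit 112, nat_lit 0, nat_lit 0, nat_lit 0, nat_lit 0, nat_lit 0, nat_lit 351200, nat_lit 0, nat_lit 0, [(nat_lit 22, [(nat_lit 1, nat_lit 878)])],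
 ⟨p078_k11, nat_lit 0, nat_lit 0, nat_lit 180, nat_lit 0, nat_lit 0, [nat_lit 1440579200, nat_lit 1937050400, nat_lit 2197048000], [], [nat_lit 26229640033, nat_lit 26444803845, nat_lit 27356688272, nat_lit 27568866019, nat_lit 25426699337, nat_lit 25630966857, nat_lit 26499113517, nat_lit 26710921023], nat_lit 0, nat_lit 0, nat_lit 0, nat_lit 0, nat_lit 0, nat_lit 0, [], [nat_lit 34, nat_lit 40, nat_lit 40, nat_lit 80, nat_lit 7, nat_lit 226, nat_lit 20, nat_lit 6]⟩, ⟨p078_k5, nat_lit 0, nat_lit 0, nat_lit 756, nat_lit 0, nat_lit 945541, [nat_lit 762500000, nat_lit 1200724000, nat_lit 1715076000], [], [nat_lit 5096435688, nat_lit 5082355676, nat_lit 5188802241, nat_lit 5181264901, nat_lit 3959010786, nat_lit 3930155104, nat_lit 4009724977, nat_lit 3977050213], nat_lit 1271250, nat_lit 1271250, nat_lit 1271250, nat_lit 1271250, nat_lit 0, nat_lit 1836250, [nat_lit 1412500, nat_lit 1271250, nat_lit 1271250], [nat_lit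 60, nat_lit 40, nat_lit 40, nat_lit 80, nat_lit 32, nat_lit 456, nat_lit 225, nat_lit 10]⟩,
 ⟨nat_lit 3354, nat_lit 3536, ⟨.ofNat (nat_lit 688283), .ofNat (nat_lit 732216), .ofNat (nat_lit 710235), .ofNat (nat_lit 754168), .ofNat (nat_lit 685594), .ofNat (nat_lit 728900), .ofNat (nat_lit 707642), .ofNat (nat_lit 750947)⟩, ⟨.ofNat (nat_lit 0), .ofNat (nat_lit 158046), .ofNat (nat_lit 0), .ofNat (nat_lit 179999), .ofNat (nat_lit 0), .ofNat (nat_lit 160070), .ofNat (nat_lit 0), .ofNat (nat_lit 182118)⟩⟩, [⟨nat_lit 13, nat_lit 65, nat_lit 73, nat_lit 100, nat_lit 209457546⟩, ⟨nat_lit 3, nat_lit 100, nat_lit 85, nat_lit 21, nat_lit 13045035⟩]⟩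
noncomputable def p078_l30 : Lf2 := ⟨nat_lit 0, nat_lit 20, [nat_lit 5, nat_lit 5, nat_lit 5, nat_lit 20], false, nat_lit 0, nat_lit 80, nat_lit 0, nat_lit 260, ⟨nat_lit 109, nat_lit 891, nat_lit 0, nat_lit 8, nat_lit 285, nat_lit 756, nat_lit 34, nat_lit 0, nat_lit 0, nat_lit 0, nat_lit 0, nat_lit 0, nat_lit 44389454, nat_lit 22610546, nat_lit 0, nat_lit 3196717, true, true⟩,
 nat_lit 0, nat_lit 0, nat_lit 2744, nat_lit 0, nat_lit 2716, nat_lit 1176, nat_lit 270, nat_lit 0, nat_lit 0, nat_lit 101, nat_lit 0, nat_lit 0, nat_lit 0, nat_lit 0, nat_lit 0, nat_lit 356400, nat_lit 0, nat_lit 0, [(nat_lit 22, [(nat_lit 1, nat_lit 891)])],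
 ⟨p078_k25, nat_lit 0, nat_lit 0, nat_lit 180, nat_lit 0, nat_lit 0, [nat_lit 1431822401, nat_lit 1896318801, nat_lit 2112756000], [], [nat_lit 26439939842, nat_lit 26654790256, nat_lit 27393582066, nat_lit 27601138525, nat_lit 25634678906, nat_lit 25838658096, nat_lit 26542505027, nat_lit 26736302218], nat_lit 0, nat_lit 0, nat_lit 0, nat_lit 0, nat_lit 0, nat_lit 0, [], [nat_lit 34, nat_lit 40, nat_lit 40, nat_lit 80, nat_lit 7, nat_lit 226, nat_lit 20, nat_lit 6]⟩, ⟨p078_k5, nat_lit 0, nat_lit 0, nat_lit 816, nat_lit 0, nat_lit 1100973, [nat_lit 681250000, nat_lit 1072778000, nat_lit 1532322000], [], [nat_lit 4573860380, nat_lit 4545982174, nat_lit 4609306177, nat_lit 4590069728, nat_lit 3516772706, nat_lit 3486634799, nat_lit 3551500525, nat_lit 3522496385], nat_lit 1271250, nat_lit 1271250, nat_lit 1271250, nat_lit 1271250, nat_lit 0, nat_lit 1836250, [nat_lit 1412500, nat_lit 1271250, nat_lit 1271250], [nat_lit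 60, nat_lit 40, nat_lit 40, nat_lit 80, nat_lit 32, nat_lit 456, nat_lit 225, nat_lit 10]⟩,
 ⟨nat_lit 3162, nat_lit 3355, ⟨.ofNat (nat_lit 685594), .ofNat (nat_lit 722713), .ofNat (nat_lit 707642), .ofNat (nat_lit 744761), .ofNat (nat_lit 682859), .ofNat (nat_lit 719431), .ofNat (nat_lit 705013), .ofNat (nat_lit 741586)⟩, ⟨.ofNat (nat_lit 0), .ofNat (nat_lit 160070), .ofNat (nat_lit 0), .ofNat (nat_lit 182118), .ofNat (nat_lit 0), .ofNat (nat_lit 162054), .ofNat (nat_lit 0), .ofNat (nat_lit 184209)⟩⟩, [⟨nat_lit 13, nat_lit 62, nat_lit 76, nat_lit 100, nat_lit 220981477⟩]⟩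
noncomputable def p078_l31 : Lf2 := ⟨nat_lit 0, nat_lit 15, [nat_lit 30, nat_lit 5, nat_lit 5, nat_lit 20], false, nat_lit 0, nat_lit 80, nat_lit 0, nat_lit 260, ⟨nat_lit 107, nat_lit 893, nat_lit 0, nat_lit 8, nat_lit 305, nat_lit 893, nat_lit 29, nat_lit 0, nat_lit 0, nat_lit 0, nat_lit 0, nat_lit 0, nat_lit 42328706, nat_lit 24671294, nat_lit 0, nat_lit 3290029, true, true⟩,
 nat_lit 0, nat_lit 0, nat_lit 2083, nat_lit 0, nat_lit 2873, nat_lit 996, nat_lit 0, nat_lit 0, nat_lit 0, nat_lit 116, nat_lit 0, nat_lit 0, nat_lit 0, nat_lit 0, nat_lit 7, nat_lit 614600, nat_lit 0, nat_lit 0, [(nat_lit 22, [(nat_lit 1, nat_lit 464), (nat_lit 2, nat_lit 429)])],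
 ⟨p078_k23, nat_lit 0, nat_lit 0, nat_lit 183, nat_lit 0, nat_lit 0, [nat_lit 1502033600, nat_lit 1332640800, nat_lit 29037200], [], [nat_lit 26507691672, nat_lit 26708264574, nat_lit 28372516453, nat_lit 28560653163, nat_lit 25657267470, nat_lit 25847680037, nat_lit 27448120550, nat_lit 27640288060], nat_lit 0, nat_lit 0, nat_lit 0, nat_lit 0, nat_lit 0, nat_lit 0, [], [nat_lit 34, nat_lit 40, nat_lit 40, nat_lit 80, nat_lit 7, nat_lit 226, nat_lit 20, nat_lit 6]⟩, ⟨p078_k3, nat_lit 0, nat_lit 0, nat_lit 789, nat_lit 0, nat_lit 1046847, [nat_lit 668750000, nat_lit 1053094000, nat_lit 1504206000], [], [nat_lit 4210381968, nat_lit 4204645072, nat_lit 4341733612, nat_lit 4328995352, nat_lit 3386986900, nat_lit 3369526495, nat_lit 3470485674, nat_lit 3459721959], nat_lit 1271250, nat_lit 1271250, nat_lit 1271250, nat_lit 1271250, nat_lit 0, nat_lit 1836250, [nat_lit 1412500, nat_lit 1271250, nat_lit 1271250], [nat_lit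 60, nat_lit 40, nat_lit 40, nat_lit 80, nat_lit 32, nat_lit 456, nat_lit 225, nat_lit 10]⟩,
 ⟨nat_lit 3708, nat_lit 3873, ⟨.ofNat (nat_lit 715356), .ofNat (nat_lit 792782), .ofNat (nat_lit 737150), .ofNat (nat_lit 814576), .ofNat (nat_lit 712805), .ofNat (nat_lit 789180), .ofNat (nat_lit 734673), .ofNat (nat_lit 811048)⟩, ⟨.ofNat (nat_lit 0), .ofNat (nat_lit 132088), .ofNat (nat_lit 0), .ofNat (nat_lit 153881), .ofNat (nat_lit 0), .ofNat (nat_lit 134114), .ofNat (nat_lit 0), .ofNat (nat_lit 155983)⟩⟩, [⟨nat_lit 13, nat_lit 71, nat_lit 61, nat_lit 100, nat_lit 158355490⟩, ⟨nat_lit 22, nat_lit 74, nat_lit 100, nat_lit 46, nat_lit 4595606⟩]⟩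
noncomputable def p078_l32 : Lf2 := ⟨nat_lit 0, nat_lit 15, [nat_lit 30, nat_lit 5, nat_lit 5, nat_lit 20], false, nat_lit 0, nat_lit 80, nat_lit 0, nat_lit 260, ⟨nat_lit 91, nat_lit 909, nat_lit 0, nat_lit 8, nat_lit 303, nat_lit 909, nat_lit 29, nat_lit 0, nat_lit 0, nat_lit 0, nat_lit 0, nat_lit 0, nat_lit 42582718, nat_lit 24417282, nat_lit 0, nat_lit 3279641, true, true⟩,
 nat_lit 0, nat_lit 0, nat_lit 1783, nat_lit 0, nat_lit 2800, nat_lit 852, nat_lit 223, nat_lit 0, nat_lit 0, nat_lit 98, nat_lit 0, nat_lit 0, nat_lit 0, nat_lit 0, nat_lit 0, nat_lit 363600, nat_lit 0, nat_lit 0, [(nat_lit 22, [(nat_lit 1, nat_lit 909)])],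
 ⟨p078_k26, nat_lit 0, nat_lit 0, nat_lit 166, nat_lit 0, nat_lit 0, [nat_lit 1419697601, nat_lit 1796289201, nat_lit 1909343200], [], [nat_lit 26427825252, nat_lit 26639618852, nat_lit 28202283423, nat_lit 28394149153, nat_lit 25648173252, nat_lit 25849010852, nat_lit 27333900953, nat_lit 27520252623], nat_lit 0, nat_lit 0, nat_lit 0, nat_lit 0, nat_lit 0, nat_lit 0, [], [nat_lit 6, nat_lit 40, nat_lit 40, nat_lit 80, nat_lit 3, nat_lit 226, nat_lit 20, nat_lit 7]⟩, ⟨p078_k3, nat_lit 0, nat_lit 0, nat_lit 835, nat_lit 0, nat_lit 1168156, [nat_lit 568750000, nat_lit 895622000, nat_lit 1279278000], [], [nat_lit 3597081434, nat_lit 3580629160, nat_lit 3669995389, nat_lit 3659434411, nat_lit 2864986951, nat_lit 2847740367, nat_lit 2927575702, nat_lit 2918721339], nat_lit 1271250, nat_lit 1271250, nat_lit 1271250, nat_lit 1271250, nat_lit 0, nat_lit 1836250, [nat_lit 1412500, nat_lit 1271250, nat_lit 1271250], [nat_lit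 60, nat_lit 40, nat_lit 40, nat_lit 80, nat_lit 32, nat_lit 456, nat_lit 225, nat_lit 10]⟩,
 ⟨nat_lit 3535, nat_lit 3709, ⟨.ofNat (nat_lit 712805), .ofNat (nat_lit 782815), .ofNat (nat_lit 734673), .ofNat (nat_lit 804683), .ofNat (nat_lit 710235), .ofNat (nat_lit 779273), .ofNat (nat_lit 732188), .ofNat (nat_lit 801226)⟩, ⟨.ofNat (nat_lit 0), .ofNat (nat_lit 134114), .ofNat (nat_lit 0), .ofNat (nat_lit 155983), .ofNat (nat_lit 0), .ofNat (nat_lit 136093), .ofNat (nat_lit 0), .ofNat (nat_lit 158046)⟩⟩, [⟨nat_lit 13, nat_lit 70, nat_lit 58, nat_lit 100, nat_lit 179681297⟩, ⟨nat_lit 22, nat_lit 75, nat_lit 100, nat_lit 45, nat_lit 3917117⟩]⟩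
noncomputable def p078_l33 : Lf2 := ⟨nat_lit 0, nat_lit 15, [nat_lit 30, nat_lit 5, nat_lit 5, nat_lit 20], false, nat_lit 0, nat_lit 80, nat_lit 0, nat_lit 260, ⟨nat_lit 71, nat_lit 929, nat_lit 0, nat_lit 8, nat_lit 300, nat_lit 851, nat_lit 30, nat_lit 0, nat_lit 0, nat_lit 0, nat_lit 0, nat_lit 0, nat_lit 42897296, nat_lit 24102704, nat_lit 0, nat_lit 3266346, true, true⟩,
 nat_lit 0, nat_lit 0, nat_lit 1394, nat_lit 0, nat_lit 2894, nat_lit 666, nat_lit 228, nat_lit 0, nat_lit 0, nat_lit 71, nat_lit 0, nat_lit 0, nat_lit 0, nat_lit 0, nat_lit 0, nat_lit 281000, nat_lit 0, nat_lit 0, [(nat_lit 22, [(nat_lit 0, nat_lit 604), (nat_lit 1, nat_lit 325)])],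
 ⟨p078_k24, nat_lit 0, nat_lit 0, nat_lit 167, nat_lit 0, nat_lit 0, [nat_lit 1532824001, nat_lit 2012921201, nat_lit 2330863200], [], [nat_lit 26964249460, nat_lit 27392564766, nat_lit 28566285096, nat_lit 28957525206, nat_lit 26108835510, nat_lit 26514846366, nat_lit 27630851118, nat_lit 28002852702], nat_lit 0, nat_lit 0, nat_lit 0, nat_lit 0, nat_lit 0, nat_lit 0, [], [nat_lit 6, nat_lit 40, nat_lit 40, nat_lit 80, nat_lit 3, nat_lit 226, nat_lit 20, nat_lit 7]⟩, ⟨p078_k3, nat_lit 0, nat_lit 0, nat_lit 955, nat_lit 0, nat_lit 1419117, [nat_lit 443750000, nat_lit 698782000, nat_lit 998118000], [], [nat_lit 2845098472, nat_lit 2831367964, nat_lit 2885510950, nat_lit 2877612420, nat_lit 2271549662, nat_lit 2253182533, nat_lit 2303239805, nat_lit 2290623472], nat_lit 1271250, nat_lit 1271250, nat_lit 1271250, nat_lit 1271250, nat_lit 0, nat_lit 1836250, [nat_lit 1412500, nat_lit 1271250, nat_lit 1271250], [nat_lit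 60, nat_lit 40, nat_lit 40, nat_lit 80, nat_lit 32, nat_lit 456, nat_lit 225, nat_lit 10]⟩,
 ⟨nat_lit 3162, nat_lit 3536, ⟨.ofNat (nat_lit 710235), .ofNat (nat_lit 772997), .ofNat (nat_lit 732188), .ofNat (nat_lit 794949), .ofNat (nat_lit 705013), .ofNat (nat_lit 765967), .ofNat (nat_lit 727168), .ofNat (nat_lit 788122)⟩, ⟨.ofNat (nat_lit 0), .ofNat (nat_lit 136093), .ofNat (nat_lit 0), .ofNat (nat_lit 158046), .ofNat (nat_lit 0), .ofNat (nat_lit 139899), .ofNat (nat_lit 0), .ofNat (nat_lit 162054)⟩⟩, [⟨nat_lit 13, nat_lit 64, nat_lit 68, nat_lit 100, nat_lit 222433789⟩, ⟨nat_lit 22, nat_lit 76, nat_lit 100, nat_lit 43, nat_lit 2603066⟩]⟩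
noncomputable def p078_l34 : Lf2 := ⟨nat_lit 0, nat_lit 20, [nat_lit 5, nat_lit 5, nat_lit 5, nat_lit 20], false, nat_lit 0, nat_lit 80, nat_lit 0, nat_lit 260, ⟨nat_lit 174, nat_lit 826, nat_lit 0, nat_lit 8, nat_lit 305, nat_lit 764, nat_lit 33, nat_lit 0, nat_lit 0, nat_lit 0, nat_lit 0, nat_lit 0, nat_lit 42391168, nat_lit 24608832, nat_lit 0, nat_lit 3287503, true, true⟩,
 nat_lit 0, nat_lit 0, nat_lit 3430, nat_lit 0, nat_lit 2937, nat_lit 1640, nat_lit 0, nat_lit 0, nat_lit 0, nat_lit 198, nat_lit 0, nat_lit 0, nat_lit 0, nat_lit 0, nat_lit 1, nat_lit 620800, nat_lit 0, nat_lit 0, [(nat_lit 22, [(nat_lit 1, nat_lit 342), (nat_lit 2, nat_lit 484)])],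
 ⟨p078_k13, nat_lit 0, nat_lit 0, nat_lit 185, nat_lit 0, nat_lit 0, [nat_lit 1501159467, nat_lit 1360743200, nat_lit 32445867], [], [nat_lit 26745910302, nat_lit 27149894378, nat_lit 28623513323, nat_lit 29002102548, nat_lit 25851500564, nat_lit 26234925441, nat_lit 27638068842, nat_lit 28025023216], nat_lit 0, nat_lit 0, nat_lit 0, nat_lit 0, nat_lit 0, nat_lit 0, [], [nat_lit 34, nat_lit 40, nat_lit 40, nat_lit 80, nat_lit 7, nat_lit 226, nat_lit 20, nat_lit 6]⟩, ⟨p078_k6, nat_lit 0, nat_lit 0, nat_lit 667, nat_lit 0, nat_lit 801981, [nat_lit 1087500000, nat_lit 1712508000, nat_lit 2446092000], [], [nat_lit 6722232832, nat_lit 6712024448, nat_lit 6943398221, nat_lit 6950433720, nat_lit 5358368803, nat_lit 5328931734, nat_lit 5535211383, nat_lit 5517199386], nat_lit 1271250, nat_lit 1271250, nat_lit 1271250, nat_lit 1271250, nat_lit 0, nat_lit 1836250, [nat_lit 1412500, nat_lit 1271250, nat_lit 1271250], [nat_lit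 60, nat_lit 40, nat_lit 40, nat_lit 80, nat_lit 32, nat_lit 456, nat_lit 225, nat_lit 10]⟩,
 ⟨nat_lit 3535, nat_lit 3873, ⟨.ofNat (nat_lit 715356), .ofNat (nat_lit 792782), .ofNat (nat_lit 737150), .ofNat (nat_lit 814576), .ofNat (nat_lit 710235), .ofNat (nat_lit 785549), .ofNat (nat_lit 732188), .ofNat (nat_lit 807502)⟩, ⟨.ofNat (nat_lit 0), .ofNat (nat_lit 153881), .ofNat (nat_lit 0), .ofNat (nat_lit 175674), .ofNat (nat_lit 0), .ofNat (nat_lit 158046), .ofNat (nat_lit 0), .ofNat (nat_lit 179999)⟩⟩, [⟨nat_lit 13, nat_lit 70, nat_lit 62, nat_lit 100, nat_lit 148509680⟩, ⟨nat_lit 22, nat_lit 74, nat_lit 100, nat_lit 46, nat_lit 6536580⟩]⟩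
noncomputable def p078_l35 : Lf2 := ⟨nat_lit 0, nat_lit 20, [nat_lit 5, nat_lit 5, nat_lit 5, nat_lit 20], false, nat_lit 0, nat_lit 80, nat_lit 0, nat_lit 260, ⟨nat_lit 161, nat_lit 839, nat_lit 0, nat_lit 8, nat_lit 296, nat_lit 813, nat_lit 34, nat_lit 0, nat_lit 0, nat_lit 0, nat_lit 0, nat_lit 0, nat_lit 43252537, nat_lit 23747463, nat_lit 0, nat_lit 3250758, true, true⟩,
 nat_lit 0, nat_lit 0, nat_lit 3219, nat_lit 0, nat_lit 2725, nat_lit 1539, nat_lit 305, nat_lit 0, nat_lit 0, nat_lit 175, nat_lit 0, nat_lit 0, nat_lit 0, nat_lit 0, nat_lit 0, nat_lit 335600, nat_lit 0, nat_lit 0, [(nat_lit 22, [(nat_lit 1, nat_lit 839)])],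
 ⟨p078_k11, nat_lit 0, nat_lit 0, nat_lit 183, nat_lit 0, nat_lit 0, [nat_lit 1466849600, nat_lit 2059245200, nat_lit 2453085200], [], [nat_lit 26423231000, nat_lit 26853401925, nat_lit 27871802623, nat_lit 28281871590, nat_lit 25644201725, nat_lit 26030818925, nat_lit 27000794768, nat_lit 27396301265], nat_lit 0, nat_lit 0, nat_lit 0, nat_lit 0, nat_lit 0, nat_lit 0, [], [nat_lit 34, nat_lit 40, nat_lit 40, nat_lit 80, nat_lit 7, nat_lit 226, nat_lit 20, nat_lit 6]⟩, ⟨p078_k6, nat_lit 0, nat_lit 0, nat_lit 765, nat_lit 0, nat_lit 984565, [nat_lit 1006250000, nat_lit 1584562000, nat_lit 2263338000], [], [nat_lit 6203202566, nat_lit 6198014335, nat_lit 6346818745, nat_lit 6342434450, nat_lit 4914892324, nat_lit 4900721104, nat_lit 5034894015, nat_lit 5027262492], nat_lit 1271250, nat_lit 1271250, nat_lit 1271250, nat_lit 1271250, nat_lit 0, nat_lit 1836250, [nat_lit 1412500, nat_lit 1271250, nat_lit 1271250], [nat_lit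 60, nat_lit 40, nat_lit 40, nat_lit 80, nat_lit 32, nat_lit 456, nat_lit 225, nat_lit 10]⟩,
 ⟨nat_lit 3162, nat_lit 3536, ⟨.ofNat (nat_lit 710235), .ofNat (nat_lit 766721), .ofNat (nat_lit 721212), .ofNat (nat_lit 777697), .ofNat (nat_lit 705013), .ofNat (nat_lit 759872), .ofNat (nat_lit 716091), .ofNat (nat_lit 770949)⟩, ⟨.ofNat (nat_lit 0), .ofNat (nat_lit 158046), .ofNat (nat_lit 0), .ofNat (nat_lit 179999), .ofNat (nat_lit 0), .ofNat (nat_lit 162054), .ofNat (nat_lit 0), .ofNat (nat_lit 184209)⟩⟩, [⟨nat_lit 13, nat_lit 60, nat_lit 74, nat_lit 100, nat_lit 201445987⟩, ⟨nat_lit 22, nat_lit 77, nat_lit 100, nat_lit 42, nat_lit 8003664⟩]⟩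
noncomputable def p078_l36 : Lf2 := ⟨nat_lit 0, nat_lit 20, [nat_lit 5, nat_lit 5, nat_lit 5, nat_lit 20], false, nat_lit 0, nat_lit 80, nat_lit 0, nat_lit 260, ⟨nat_lit 227, nat_lit 773, nat_lit 0, nat_lit 8, nat_lit 302, nat_lit 773, nat_lit 34, nat_lit 0, nat_lit 0, nat_lit 0, nat_lit 0, nat_lit 0, nat_lit 42670647, nat_lit 24329353, nat_lit 0, nat_lit 3275973, true, true⟩,
 nat_lit 0, nat_lit 0, nat_lit 3793, nat_lit 0, nat_lit 2792, nat_lit 1910, nat_lit 337, nat_lit 0, nat_lit 0, nat_lit 310, nat_lit 0, nat_lit 0, nat_lit 0, nat_lit 0, nat_lit 0, nat_lit 309200, nat_lit 0, nat_lit 0, [(nat_lit 22, [(nat_lit 1, nat_lit 773)])],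
 ⟨p078_k11, nat_lit 0, nat_lit 0, nat_lit 185, nat_lit 0, nat_lit 0, [nat_lit 1511307201, nat_lit 2266036400, nat_lit 2886916400], [], [nat_lit 26583541855, nat_lit 27008629175, nat_lit 28196651807, nat_lit 28680717024, nat_lit 25768768063, nat_lit 26146302895, nat_lit 27269135479, nat_lit 27656202683], nat_lit 0, nat_lit 0, nat_lit 0, nat_lit 0, nat_lit 0, nat_lit 0, [], [nat_lit 34, nat_lit 40, nat_lit 40, nat_lit 80, nat_lit 7, nat_lit 226, nat_lit 20, nat_lit 6]⟩, ⟨p078_k14, nat_lit 0, nat_lit 0, nat_lit 756, nat_lit 0, nat_lit 969994, [nat_lit 1418750000, nat_lit 2234134000, nat_lit 3191166000], [], [nat_lit 8174835970, nat_lit 8173139024, nat_lit 8415395052, nat_lit 8424383144, nat_lit 6670312183, nat_lit 6657538222, nat_lit 6884012029, nat_lit 6880880798], nat_lit 1271250, nat_lit 1271250, nat_lit 1271250, nat_lit 1271250, nat_lit 0, nat_lit 1836250, [nat_lit 1412500, nat_lit 1271250, nat_lit 1271250], [nat_lit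 60, nat_lit 40, nat_lit 40, nat_lit 80, nat_lit 32, nat_lit 456, nat_lit 225, nat_lit 10]⟩,
 ⟨nat_lit 3162, nat_lit 3536, ⟨.ofNat (nat_lit 721212), .ofNat (nat_lit 783973), .ofNat (nat_lit 732188), .ofNat (nat_lit 794949), .ofNat (nat_lit 716091), .ofNat (nat_lit 777044), .ofNat (nat_lit 727168), .ofNat (nat_lit 788122)⟩, ⟨.ofNat (nat_lit 0), .ofNat (nat_lit 158046), .ofNat (nat_lit 0), .ofNat (nat_lit 179999), .ofNat (nat_lit 0), .ofNat (nat_lit 162054), .ofNat (nat_lit 0), .ofNat (nat_lit 184209)⟩⟩, [⟨nat_lit 13, nat_lit 64, nat_lit 66, nat_lit 100, nat_lit 131294101⟩, ⟨nat_lit 22, nat_lit 72, nat_lit 100, nat_lit 61, nat_lit 20684219⟩]⟩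
noncomputable def p078_l37 : Lf2 := ⟨nat_lit 0, nat_lit 15, [nat_lit 30, nat_lit 5, nat_lit 5, nat_lit 20], false, nat_lit 80, nat_lit 160, nat_lit 0, nat_lit 336, ⟨nat_lit 45, nat_lit 955, nat_lit 0, nat_lit 8, nat_lit 299, nat_lit 955, nat_lit 84, nat_lit 0, nat_lit 0, nat_lit 0, nat_lit 0, nat_lit 0, nat_lit 40702689, nat_lit 23165954, nat_lit 3131357, nat_lit 4270480, true, true⟩,
 nat_lit 0, nat_lit 0, nat_lit 1072, nat_lit 0, nat_lit 3847, nat_lit 459, nat_lit 184, nat_lit 0, nat_lit 0, nat_lit 30, nat_lit 0, nat_lit 0, nat_lit 0, nat_lit 0, nat_lit 0, nat_lit 238750, nat_lit 0, nat_lit 0, [(nat_lit 22, [(nat_lit 0, nat_lit 955)])],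
 ⟨p078_k23, nat_lit 0, nat_lit 0, nat_lit 134, nat_lit 0, nat_lit 0, [nat_lit 1588880001, nat_lit 2093074001, nat_lit 2948902000], [], [nat_lit 25745275748, nat_lit 26775677380, nat_lit 28124626564, nat_lit 29031712890, nat_lit 25848507710, nat_lit 26785229284, nat_lit 28015961282, nat_lit 28843877699], nat_lit 0, nat_lit 0, nat_lit 0, nat_lit 0, nat_lit 0, nat_lit 0, [], [nat_lit 34, nat_lit 40, nat_lit 40, nat_lit 80, nat_lit 7, nat_lit 249, nat_lit 40, nat_lit 7]⟩, ⟨p078_k15, nat_lit 0, nat_lit 0, nat_lit 1085, nat_lit 0, nat_lit 1680412, [nat_lit 281250000, nat_lit 442890000, nat_lit 632610000], [], [nat_lit 2052866340, nat_lit 2037565680, nat_lit 2133574145, nat_lit 2122170685, nat_lit 1617187971, nat_lit 1594964170, nat_lit 1688178021, nat_lit 1681082029], nat_lit 1271250, nat_lit 1271250, nat_lit 1271250, nat_lit 1271250, nat_lit 0, nat_lit 2373000, [nat_lit 1412500, nat_lit 1271250, nat_lit 1271250], [nat_lit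 60, nat_lit 40, nat_lit 40, nat_lit 80, nat_lit 32, nat_lit 483, nat_lit 250, nat_lit 11]⟩,
 ⟨nat_lit 3162, nat_lit 3873, ⟨.ofNat (nat_lit 693563), .ofNat (nat_lit 770989), .ofNat (nat_lit 737150), .ofNat (nat_lit 814576), .ofNat (nat_lit 682859), .ofNat (nat_lit 756003), .ofNat (nat_lit 727168), .ofNat (nat_lit 800312)⟩, ⟨.ofNat (nat_lit 132088), .ofNat (nat_lit 261131), .ofNat (nat_lit 153881), .ofNat (nat_lit 282924), .ofNat (nat_lit 139899), .ofNat (nat_lit 261806), .ofNat (nat_lit 162054), .ofNat (nat_lit 283961)⟩⟩, [⟨nat_lit 13, nat_lit 66, nat_lit 68, nat_lit 100, nat_lit 58387744⟩, ⟨nat_lit 13, nat_lit 73, nat_lit 55, nat_lit 100, nat_lit 196084523⟩, ⟨nat_lit 22, nat_lit 74, nat_lit 100, nat_lit 98, nat_lit 2758664⟩]⟩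
noncomputable def p078_l38 : Lf2 := ⟨nat_lit 0, nat_lit 20, [nat_lit 5, nat_lit 5, nat_lit 5, nat_lit 20], false, nat_lit 80, nat_lit 160, nat_lit 0, nat_lit 336, ⟨nat_lit 101, nat_lit 899, nat_lit 0, nat_lit 8, nat_lit 300, nat_lit 899, nat_lit 92, nat_lit 0, nat_lit 0, nat_lit 0, nat_lit 0, nat_lit 0, nat_lit 40256448, nat_lit 23152465, nat_lit 3591087, nat_lit 4373761, true, true⟩,
 nat_lit 0, nat_lit 0, nat_lit 2316, nat_lit 0, nat_lit 3721, nat_lit 992, nat_lit 261, nat_lit 0, nat_lit 0, nat_lit 78, nat_lit 0, nat_lit 0, nat_lit 0, nat_lit 0, nat_lit 0, nat_lit 224750, nat_lit 0, nat_lit 0, [(nat_lit 22, [(nat_lit 0, nat_lit 899)])],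
 ⟨p078_k13, nat_lit 0, nat_lit 0, nat_lit 131, nat_lit 0, nat_lit 0, [nat_lit 1614864000, nat_lit 2245237200, nat_lit 3243215600], [], [nat_lit 25383241964, nat_lit 25891345452, nat_lit 27730682675, nat_lit 28231803619, nat_lit 25533466130, nat_lit 25995776271, nat_lit 27673712572, nat_lit 28082936482], nat_lit 0, nat_lit 0, nat_lit 0, nat_lit 0, nat_lit 0, nat_lit 0, [], [nat_lit 34, nat_lit 40, nat_lit 40, nat_lit 80, nat_lit 7, nat_lit 249, nat_lit 40, nat_lit 7]⟩, ⟨p078_k5, nat_lit 0, nat_lit 0, nat_lit 758, nat_lit 0, nat_lit 949943, [nat_lit 631250000, nat_lit 994042000, nat_lit 1419858000], [], [nat_lit 4511277216, nat_lit 4495963408, nat_lit 4643651703, nat_lit 4614513881, nat_lit 3721368999, nat_lit 3669848651, nat_lit 3775424564, nat_lit 3715099776], nat_lit 1271250, nat_lit 1271250, nat_lit 1271250, nat_lit 1271250, nat_lit 0, nat_lit 2373000, [nat_lit 1412500, nat_lit 1271250, nat_lit 1271250], [nat_lit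 60, nat_lit 40, nat_lit 40, nat_lit 80, nat_lit 32, nat_lit 483, nat_lit 250, nat_lit 11]⟩,
 ⟨nat_lit 3535, nat_lit 3873, ⟨.ofNat (nat_lit 693563), .ofNat (nat_lit 770989), .ofNat (nat_lit 737150), .ofNat (nat_lit 814576), .ofNat (nat_lit 688283), .ofNat (nat_lit 763596), .ofNat (nat_lit 732188), .ofNat (nat_lit 807502)⟩, ⟨.ofNat (nat_lit 153881), .ofNat (nat_lit 282924), .ofNat (nat_lit 175674), .ofNat (nat_lit 304717), .ofNat (nat_lit 158046), .ofNat (nat_lit 283569), .ofNat (nat_lit 179999), .ofNat (nat_lit 305521)⟩⟩, [⟨nat_lit 13, nat_lit 73, nat_lit 55, nat_lit 100, nat_lit 201793298⟩, ⟨nat_lit 22, nat_lit 74, nat_lit 100, nat_lit 98, nat_lit 7812166⟩]⟩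
noncomputable def p078_l39 : Lf2 := ⟨nat_lit 0, nat_lit 20, [nat_lit 5, nat_lit 5, nat_lit 5, nat_lit 20], false, nat_lit 80, nat_lit 160, nat_lit 0, nat_lit 336, ⟨nat_lit 52, nat_lit 948, nat_lit 0, nat_lit 8, nat_lit 295, nat_lit 948, nat_lit 93, nat_lit 0, nat_lit 0, nat_lit 0, nat_lit 0, nat_lit 0, nat_lit 40668973, nat_lit 22659637, nat_lit 3671390, nat_lit 4369609, true, true⟩,
 nat_lit 0, nat_lit 0, nat_lit 1232, nat_lit 0, nat_lit 3637, nat_lit 528, nat_lit 218, nat_lit 0, nat_lit 0, nat_lit 36, nat_lit 0, nat_lit 0, nat_lit 0, nat_lit 0, nat_lit 0, nat_lit 237000, nat_lit 0, nat_lit 0, [(nat_lit 22, [(nat_lit 0, nat_lit 948)])],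
 ⟨p078_k11, nat_lit 0, nat_lit 0, nat_lit 131, nat_lit 0, nat_lit 0, [nat_lit 1592128001, nat_lit 2112094401, nat_lit 2985691200], [], [nat_lit 25788722494, nat_lit 26292094430, nat_lit 27654124652, nat_lit 28164730284, nat_lit 25925179237, nat_lit 26383455614, nat_lit 27627663935, nat_lit 28047735372], nat_lit 0, nat_lit 0, nat_lit 0, nat_lit 0, nat_lit 0, nat_lit 0, [], [nat_lit 34, nat_lit 40, nat_lit 40, nat_lit 80, nat_lit 7, nat_lit 249, nat_lit 40, nat_lit 7]⟩, ⟨p078_k5, nat_lit 0, nat_lit 0, nat_lit 885, nat_lit 0, nat_lit 1243564, [nat_lit 325000000, nat_lit 511784000, nat_lit 731016000], [], [nat_lit 2337779744, nat_lit 2335240448, nat_lit 2424987328, nat_lit 2413848416, nat_lit 1852891338, nat_lit 1827398084, nat_lit 1918806671, nat_lit 1912749663], nat_lit 1271250, nat_lit 1271250, nat_lit 1271250, nat_lit 1271250, nat_lit 0, nat_lit 2373000, [nat_lit 1412500, nat_lit 1271250, nat_lit 1271250], [nat_lit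 60, nat_lit 40, nat_lit 40, nat_lit 80, nat_lit 32, nat_lit 483, nat_lit 250, nat_lit 11]⟩,
 ⟨nat_lit 3162, nat_lit 3536, ⟨.ofNat (nat_lit 688283), .ofNat (nat_lit 751044), .ofNat (nat_lit 732188), .ofNat (nat_lit 794949), .ofNat (nat_lit 682859), .ofNat (nat_lit 743812), .ofNat (nat_lit 727168), .ofNat (nat_lit 788122)⟩, ⟨.ofNat (nat_lit 158046), .ofNat (nat_lit 283569), .ofNat (nat_lit 179999), .ofNat (nat_lit 305521), .ofNat (nat_lit 162054), .ofNat (nat_lit 283961), .ofNat (nat_lit 184209), .ofNat (nat_lit 306116)⟩⟩, [⟨nat_lit 13, nat_lit 68, nat_lit 61, nat_lit 100, nat_lit 256971561⟩, ⟨nat_lit 22, nat_lit 77, nat_lit 100, nat_lit 99, nat_lit 3132508⟩]⟩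
noncomputable def b_V_800_500_10_11 : St := ⟨true, nat_lit 0, nat_lit 1, nat_lit 1, nat_lit 80, nat_lit 340, nat_lit 360, nat_lit 200, nat_lit 240, nat_lit 320, nat_lit 384, nat_lit 40, nat_lit 80, nat_lit 0, nat_lit 160, nat_lit 0, nat_lit 336, nat_lit 40, nat_lit 80, nat_lit 0, nat_lit 0, nat_lit 0, nat_lit 0⟩
theorem d_V_800_500_10_11 (h : EB TB.env) : Dead b_V_800_500_10_11 := chkB_sound0 h (T :=
(.trX (nat_lit 13) (nat_lit 73) (nat_lit 55) (nat_lit 100) (nat_lit 368) (.spl (nat_lit 4) (nat_lit 80)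
(.trX (nat_lit 22) (nat_lit 83) (nat_lit 100) (nat_lit 83) (nat_lit 260) (.spl (nat_lit 1) (nat_lit 220)
(.trX (nat_lit 13) (nat_lit 72) (nat_lit 63) (nat_lit 100) (nat_lit 360) (.spl (nat_lit 3) (nat_lit 60)
(.spl (nat_lit 0) (nat_lit 350)
(.leaf p078_l26)
(.trX (nat_lit 13) (nat_lit 66) (nat_lit 68) (nat_lit 100) (nat_lit 348) (.leaf p078_l27)))
(.spl (nat_lit 0) (nat_lit 350)
(.leaf p078_l28)
(.trX (nat_lit 13) (nat_lit 66) (nat_lit 68) (nat_lit 100) (nat_lit 348) (.spl (nat_lit 0) (nat_lit 355)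
(.leaf p078_l29)
(.trX (nat_lit 13) (nat_lit 64) (nat_lit 71) (nat_lit 100) (nat_lit 344) (.leaf p078_l30)))))))
(.spl (nat_lit 3) (nat_lit 60)
(.spl (nat_lit 0) (nat_lit 350)
(.spl (nat_lit 0) (nat_lit 345)
(.leaf p078_l31)
(.trX (nat_lit 13) (nat_lit 70) (nat_lit 58) (nat_lit 100) (nat_lit 364) (.leaf p078_l32)))
(.trX (nat_lit 13) (nat_lit 68) (nat_lit 61) (nat_lit 100) (nat_lit 360) (.leaf p078_l33)))
(.spl (nat_lit 0) (nat_lit 350)
(.leaf p078_l34)
(.trX (nat_lit 13) (nat_lit 68) (nat_lit 61) (nat_lit 100) (nat_lit 360) (.spl (nat_lit 1) (nat_lit 230)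
(.trX (nat_lit 13) (nat_lit 67) (nat_lit 65) (nat_lit 100) (nat_lit 356) (.leaf p078_l35))
(.leaf p078_l36)))))))
(.spl (nat_lit 3) (nat_lit 60)
(.leaf p078_l37)
(.spl (nat_lit 0) (nat_lit 350)
(.leaf p078_l38)
(.trX (nat_lit 13) (nat_lit 68) (nat_lit 61) (nat_lit 100) (nat_lit 360) (.leaf p078_l39))))))) (by decide +kernel)
noncomputable def p078_l40 : Lf2 := ⟨nat_lit 0, nat_lit 20, [nat_lit 5, nat_lit 5, nat_lit 5, nat_lit 20], true, nat_lit 160, nat_lit 260, nat_lit 0, nat_lit 360, ⟨nat_lit 0, nat_lit 1000, nat_lit 0, nat_lit 6, nat_lit 260, nat_lit 1000, nat_lit 145, nat_lit 0, nat_lit 0, nat_lit 0, nat_lit 0, nat_lit 0, nat_lit 41216197, nat_lit 18473236, nat_lit 7310567, nat_lit 4798833, true, true⟩,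
 nat_lit 0, nat_lit 0, nat_lit 0, nat_lit 3017, nat_lit 4405, nat_lit 0, nat_lit 0, nat_lit 0, nat_lit 0, nat_lit 0, nat_lit 0, nat_lit 0, nat_lit 0, nat_lit 0, nat_lit 0, nat_lit 250000, nat_lit 0, nat_lit 0, [(nat_lit 19, [(nat_lit 0, nat_lit 1000)]), (nat_lit 22, [(nat_lit 0, nat_lit 1000)])],
 ⟨p078_k7, nat_lit 0, nat_lit 0, nat_lit 70, nat_lit 0, nat_lit 0, [nat_lit 1568000001, nat_lit 2605200001, nat_lit 3236666667], [], [nat_lit 21213276181, nat_lit 23778477141, nat_lit 24844656101, nat_lit 26976916801, nat_lit 24045906706, nat_lit 26179708946, nat_lit 27024202716, nat_lit 28808716776], nat_lit 0, nat_lit 0, nat_lit 0, nat_lit 0, nat_lit 0, nat_lit 0, [], [nat_lit 61, nat_lit 40, nat_lit 40, nat_lit 80, nat_lit 1, nat_lit 373, nat_lit 150, nat_lit 10]⟩, C1.Rw.none,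
 ⟨nat_lit 3162, nat_lit 4473, ⟨.ofNat (nat_lit 567977), .ofNat (nat_lit 703933), .ofNat (nat_lit 611007), .ofNat (nat_lit 747055), .ofNat (nat_lit 560952), .ofNat (nat_lit 682859), .ofNat (nat_lit 605159), .ofNat (nat_lit 727157)⟩, ⟨.ofNat (nat_lit 259488), .ofNat (nat_lit 429433), .ofNat (nat_lit 302621), .ofNat (nat_lit 472567), .ofNat (nat_lit 261805), .ofNat (nat_lit 414188), .ofNat (nat_lit 306116), .ofNat (nat_lit 458499)⟩⟩, [⟨nat_lit 4, nat_lit 100, nat_lit 71, nat_lit 71, nat_lit 207673156⟩]⟩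
noncomputable def p078_l41 : Lf2 := ⟨nat_lit 0, nat_lit 20, [nat_lit 5, nat_lit 5, nat_lit 5, nat_lit 20], true, nat_lit 160, nat_lit 260, nat_lit 16, nat_lit 360, ⟨nat_lit 0, nat_lit 1000, nat_lit 0, nat_lit 8, nat_lit 303, nat_lit 1000, nat_lit 146, nat_lit 0, nat_lit 0, nat_lit 0, nat_lit 0, nat_lit 0, nat_lit 37709008, nat_lit 22328154, nat_lit 6962838, nat_lit 4949435, true, true⟩,
 nat_lit 0, nat_lit 0, nat_lit 0, nat_lit 5317, nat_lit 3864, nat_lit 0, nat_lit 0, nat_lit 0, nat_lit 0, nat_lit 0, nat_lit 0, nat_lit 0, nat_lit 0, nat_lit 0, nat_lit 0, nat_lit 250000, nat_lit 0, nat_lit 0, [(nat_lit 19, [(nat_lit 0, nat_lit 1000)])],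
 ⟨p078_k4, nat_lit 0, nat_lit 0, nat_lit 63, nat_lit 0, nat_lit 0, [nat_lit 1542400001, nat_lit 2368400000, nat_lit 3220880000], [], [nat_lit 24224447680, nat_lit 24760383096, nat_lit 26368189344, nat_lit 26850481408, nat_lit 26591505168, nat_lit 27042460350, nat_lit 28395325896, nat_lit 28802777274], nat_lit 0, nat_lit 0, nat_lit 0, nat_lit 0, nat_lit 0, nat_lit 0, [], [nat_lit 27, nat_lit 40, nat_lit 40, nat_lit 80, nat_lit 13, nat_lit 289, nat_lit 75, nat_lit 7]⟩, C1.Rw.none,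
 ⟨nat_lit 4183, nat_lit 4473, ⟨.ofNat (nat_lit 703933), .ofNat (nat_lit 771911), .ofNat (nat_lit 747062), .ofNat (nat_lit 815041), .ofNat (nat_lit 698765), .ofNat (nat_lit 765021), .ofNat (nat_lit 742095), .ofNat (nat_lit 808351)⟩, ⟨.ofNat (nat_lit 259489), .ofNat (nat_lit 429434), .ofNat (nat_lit 302621), .ofNat (nat_lit 472567), .ofNat (nat_lit 260409), .ofNat (nat_lit 426048), .ofNat (nat_lit 303743), .ofNat (nat_lit 469382)⟩⟩, [⟨nat_lit 16, nat_lit 79, nat_lit 100, nat_lit 72, nat_lit 152574104⟩]⟩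
noncomputable def p078_l42 : Lf2 := ⟨nat_lit 0, nat_lit 20, [nat_lit 5, nat_lit 5, nat_lit 5, nat_lit 20], true, nat_lit 160, nat_lit 244, nat_lit 16, nat_lit 360, ⟨nat_lit 0, nat_lit 1000, nat_lit 0, nat_lit 8, nat_lit 300, nat_lit 1000, nat_lit 140, nat_lit 0, nat_lit 0, nat_lit 0, nat_lit 0, nat_lit 0, nat_lit 38164934, nat_lit 22233575, nat_lit 6601491, nat_lit 4890083, true, true⟩,
 nat_lit 0, nat_lit 0, nat_lit 0, nat_lit 5001, nat_lit 3862, nat_lit 0, nat_lit 0, nat_lit 0, nat_lit 0, nat_lit 0, nat_lit 0, nat_lit 0, nat_lit 0, nat_lit 0, nat_lit 0, nat_lit 250000, nat_lit 0, nat_lit 0, [(nat_lit 19, [(nat_lit 0, nat_lit 1000)])],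
 ⟨p078_k27, nat_lit 0, nat_lit 0, nat_lit 67, nat_lit 0, nat_lit 0, [nat_lit 1542400001, nat_lit 2368400000, nat_lit 3220880000], [], [nat_lit 24761387068, nat_lit 25297201696, nat_lit 26851022914, nat_lit 27333214876, nat_lit 26529708094, nat_lit 26995146175, nat_lit 28346362961, nat_lit 28766703586], nat_lit 0, nat_lit 0, nat_lit 0, nat_lit 0, nat_lit 0, nat_lit 0, [], [nat_lit 27, nat_lit 40, nat_lit 40, nat_lit 80, nat_lit 13, nat_lit 289, nat_lit 75, nat_lit 7]⟩, C1.Rw.none,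
 ⟨nat_lit 3872, nat_lit 4184, ⟨.ofNat (nat_lit 698765), .ofNat (nat_lit 765021), .ofNat (nat_lit 742098), .ofNat (nat_lit 808354), .ofNat (nat_lit 693563), .ofNat (nat_lit 758085), .ofNat (nat_lit 737149), .ofNat (nat_lit 801671)⟩, ⟨.ofNat (nat_lit 260409), .ofNat (nat_lit 399546), .ofNat (nat_lit 303743), .ofNat (nat_lit 442879), .ofNat (nat_lit 261131), .ofNat (nat_lit 396626), .ofNat (nat_lit 304717), .ofNat (nat_lit 440213)⟩⟩, [⟨nat_lit 4, nat_lit 100, nat_lit 74, nat_lit 72, nat_lit 169227949⟩]⟩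
noncomputable def p078_l43 : Lf2 := ⟨nat_lit 0, nat_lit 20, [nat_lit 5, nat_lit 5, nat_lit 5, nat_lit 20], true, nat_lit 160, nat_lit 232, nat_lit 16, nat_lit 360, ⟨nat_lit 0, nat_lit 1000, nat_lit 0, nat_lit 8, nat_lit 298, nat_lit 1000, nat_lit 136, nat_lit 0, nat_lit 0, nat_lit 0, nat_lit 0, nat_lit 0, nat_lit 38557320, nat_lit 22102594, nat_lit 6340086, nat_lit 4842969, true, true⟩,
 nat_lit 0, nat_lit 0, nat_lit 0, nat_lit 4897, nat_lit 3523, nat_lit 0, nat_lit 0, nat_lit 0, nat_lit 0, nat_lit 0, nat_lit 0, nat_lit 0, nat_lit 0, nat_lit 0, nat_lit 0, nat_lit 250000, nat_lit 0, nat_lit 0, [(nat_lit 22, [(nat_lit 0, nat_lit 1000)])],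
 ⟨p078_k13, nat_lit 0, nat_lit 0, nat_lit 70, nat_lit 0, nat_lit 0, [nat_lit 1568000001, nat_lit 1970800000, nat_lit 2712400000], [], [nat_lit 25140858133, nat_lit 25629079729, nat_lit 27010432854, nat_lit 27475657527, nat_lit 26545914320, nat_lit 26981711283, nat_lit 28235938382, nat_lit 28651690037], nat_lit 0, nat_lit 0, nat_lit 0, nat_lit 0, nat_lit 0, nat_lit 0, [], [nat_lit 34, nat_lit 40, nat_lit 40, nat_lit 80, nat_lit 7, nat_lit 272, nat_lit 60, nat_lit 7]⟩, C1.Rw.none,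
 ⟨nat_lit 3535, nat_lit 3873, ⟨.ofNat (nat_lit 693563), .ofNat (nat_lit 758085), .ofNat (nat_lit 737150), .ofNat (nat_lit 801671), .ofNat (nat_lit 688283), .ofNat (nat_lit 751044), .ofNat (nat_lit 732188), .ofNat (nat_lit 794949)⟩, ⟨.ofNat (nat_lit 261131), .ofNat (nat_lit 377270), .ofNat (nat_lit 304717), .ofNat (nat_lit 420856), .ofNat (nat_lit 261616), .ofNat (nat_lit 374587), .ofNat (nat_lit 305521), .ofNat (nat_lit 418492)⟩⟩, [⟨nat_lit 13, nat_lit 69, nat_lit 66, nat_lit 100, nat_lit 199747870⟩, ⟨nat_lit 16, nat_lit 69, nat_lit 100, nat_lit 71, nat_lit 126224358⟩, ⟨nat_lit 16, nat_lit 72, nat_lit 100, nat_lit 81, nat_lit 53317641⟩]⟩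
noncomputable def p078_l44 : Lf2 := ⟨nat_lit 0, nat_lit 20, [nat_lit 5, nat_lit 5, nat_lit 5, nat_lit 20], true, nat_lit 160, nat_lit 216, nat_lit 16, nat_lit 360, ⟨nat_lit 0, nat_lit 1000, nat_lit 0, nat_lit 8, nat_lit 295, nat_lit 1000, nat_lit 131, nat_lit 0, nat_lit 0, nat_lit 0, nat_lit 0, nat_lit 0, nat_lit 39008348, nat_lit 21986241, nat_lit 6005411, nat_lit 4782966, true, true⟩,
 nat_lit 0, nat_lit 0, nat_lit 0, nat_lit 4771, nat_lit 3536, nat_lit 0, nat_lit 0, nat_lit 0, nat_lit 0, nat_lit 0, nat_lit 0, nat_lit 0, nat_lit 0, nat_lit 0, nat_lit 0, nat_lit 250000, nat_lit 0, nat_lit 0, [(nat_lit 22, [(nat_lit 0, nat_lit 1000)])],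
 ⟨p078_k11, nat_lit 0, nat_lit 0, nat_lit 73, nat_lit 0, nat_lit 0, [nat_lit 1568000001, nat_lit 1970800000, nat_lit 2712400000], [], [nat_lit 25614329097, nat_lit 26103276769, nat_lit 27473439064, nat_lit 27939314400, nat_lit 26665670393, nat_lit 27113738664, nat_lit 28386980376, nat_lit 28871286589], nat_lit 0, nat_lit 0, nat_lit 0, nat_lit 0, nat_lit 0, nat_lit 0, [], [nat_lit 34, nat_lit 40, nat_lit 40, nat_lit 80, nat_lit 7, nat_lit 272, nat_lit 60, nat_lit 7]⟩, C1.Rw.none,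
 ⟨nat_lit 3162, nat_lit 3536, ⟨.ofNat (nat_lit 688283), .ofNat (nat_lit 751044), .ofNat (nat_lit 732188), .ofNat (nat_lit 794949), .ofNat (nat_lit 682859), .ofNat (nat_lit 743812), .ofNat (nat_lit 727168), .ofNat (nat_lit 788122)⟩, ⟨.ofNat (nat_lit 261616), .ofNat (nat_lit 349482), .ofNat (nat_lit 305521), .ofNat (nat_lit 393387), .ofNat (nat_lit 261806), .ofNat (nat_lit 347141), .ofNat (nat_lit 306116), .ofNat (nat_lit 391450)⟩⟩, [⟨nat_lit 13, nat_lit 68, nat_lit 61, nat_lit 100, nat_lit 287978021⟩, ⟨nat_lit 16, nat_lit 66, nat_lit 100, nat_lit 80, nat_lit 174703862⟩]⟩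
noncomputable def p078_l45 : Lf2 := ⟨nat_lit 0, nat_lit 20, [nat_lit 5, nat_lit 5, nat_lit 5, nat_lit 20], true, nat_lit 160, nat_lit 200, nat_lit 48, nat_lit 320, ⟨nat_lit 0, nat_lit 1000, nat_lit 0, nat_lit 9, nat_lit 320, nat_lit 1000, nat_lit 126, nat_lit 0, nat_lit 0, nat_lit 0, nat_lit 0, nat_lit 0, nat_lit 37222205, nat_lit 24295610, nat_lit 5482185, nat_lit 4784956, true, true⟩,
 nat_lit 0, nat_lit 0, nat_lit 0, nat_lit 2723, nat_lit 4115, nat_lit 0, nat_lit 0, nat_lit 0, nat_lit 0, nat_lit 0, nat_lit 0, nat_lit 0, nat_lit 0, nat_lit 0, nat_lit 0, nat_lit 250000, nat_lit 0, nat_lit 0, [(nat_lit 19, [(nat_lit 0, nat_lit 1000)]), (nat_lit 22, [(nat_lit 0, nat_lit 1000)])],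
 ⟨p078_k7, nat_lit 0, nat_lit 0, nat_lit 94, nat_lit 0, nat_lit 0, [nat_lit 1568000001, nat_lit 2605200001, nat_lit 3236666667], [], [nat_lit 27091942401, nat_lit 28953069781, nat_lit 28424173113, nat_lit 30161432870, nat_lit 27742868691, nat_lit 29489558741, nat_lit 28995597297, nat_lit 30627333546], nat_lit 0, nat_lit 0, nat_lit 0, nat_lit 0, nat_lit 0, nat_lit 0, [], [nat_lit 61, nat_lit 40, nat_lit 40, nat_lit 80, nat_lit 1, nat_lit 260, nat_lit 50, nat_lit 6]⟩, C1.Rw.none,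
 ⟨nat_lit 3162, nat_lit 4473, ⟨.ofNat (nat_lit 771911), .ofNat (nat_lit 812698), .ofNat (nat_lit 815044), .ofNat (nat_lit 855831), .ofNat (nat_lit 743812), .ofNat (nat_lit 780384), .ofNat (nat_lit 788122), .ofNat (nat_lit 824694)⟩, ⟨.ofNat (nat_lit 259488), .ofNat (nat_lit 327466), .ofNat (nat_lit 302621), .ofNat (nat_lit 370600), .ofNat (nat_lit 261805), .ofNat (nat_lit 322758), .ofNat (nat_lit 306116), .ofNat (nat_lit 367069)⟩⟩, [⟨nat_lit 13, nat_lit 72, nat_lit 63, nat_lit 100, nat_lit 216997090⟩, ⟨nat_lit 13, nat_lit 82, nat_lit 44, nat_lit 100, nat_lit 81608191⟩]⟩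
noncomputable def p078_l46 : Lf2 := ⟨nat_lit 0, nat_lit 20, [nat_lit 5, nat_lit 5, nat_lit 5, nat_lit 20], true, nat_lit 200, nat_lit 260, nat_lit 80, nat_lit 360, ⟨nat_lit 0, nat_lit 1000, nat_lit 0, nat_lit 9, nat_lit 323, nat_lit 1000, nat_lit 159, nat_lit 0, nat_lit 0, nat_lit 0, nat_lit 0, nat_lit 0, nat_lit 35581404, nat_lit 23801139, nat_lit 7617457, nat_lit 5097914, true, true⟩,
 nat_lit 0, nat_lit 0, nat_lit 0, nat_lit 5383, nat_lit 3774, nat_lit 0, nat_lit 0, nat_lit 0, nat_lit 0, nat_lit 0, nat_lit 0, nat_lit 0, nat_lit 0, nat_lit 0, nat_lit 0, nat_lit 250000, nat_lit 0, nat_lit 0, [(nat_lit 19, [(nat_lit 0, nat_lit 1000)])],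
 ⟨p078_k4, nat_lit 0, nat_lit 0, nat_lit 72, nat_lit 0, nat_lit 0, [nat_lit 1542400001, nat_lit 2368400000, nat_lit 3220880000], [], [nat_lit 27121043016, nat_lit 28018952204, nat_lit 28399889904, nat_lit 29239766621, nat_lit 28430350386, nat_lit 29238721032, nat_lit 29585676011, nat_lit 30447708978], nat_lit 0, nat_lit 0, nat_lit 0, nat_lit 0, nat_lit 0, nat_lit 0, [], [nat_lit 27, nat_lit 40, nat_lit 40, nat_lit 80, nat_lit 13, nat_lit 289, nat_lit 75, nat_lit 7]⟩, C1.Rw.none,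
 ⟨nat_lit 3872, nat_lit 4473, ⟨.ofNat (nat_lit 771911), .ofNat (nat_lit 812698), .ofNat (nat_lit 815035), .ofNat (nat_lit 855824), .ofNat (nat_lit 758085), .ofNat (nat_lit 796798), .ofNat (nat_lit 801662), .ofNat (nat_lit 840378)⟩, ⟨.ofNat (nat_lit 327467), .ofNat (nat_lit 429434), .ofNat (nat_lit 370600), .ofNat (nat_lit 472567), .ofNat (nat_lit 325652), .ofNat (nat_lit 422435), .ofNat (nat_lit 369239), .ofNat (nat_lit 466021)⟩⟩, [⟨nat_lit 13, nat_lit 76, nat_lit 57, nat_lit 100, nat_lit 194654401⟩, ⟨nat_lit 13, nat_lit 82, nat_lit 44, nat_lit 100, nat_lit 100538916⟩, ⟨nat_lit 4, nat_lit 100, nat_lit 76, nat_lit 72, nat_lit 202409261⟩]⟩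
noncomputable def p078_l47 : Lf2 := ⟨nat_lit 0, nat_lit 20, [nat_lit 5, nat_lit 5, nat_lit 5, nat_lit 20], true, nat_lit 200, nat_lit 232, nat_lit 80, nat_lit 348, ⟨nat_lit 0, nat_lit 1000, nat_lit 0, nat_lit 9, nat_lit 312, nat_lit 1000, nat_lit 149, nat_lit 0, nat_lit 0, nat_lit 0, nat_lit 0, nat_lit 0, nat_lit 36887343, nat_lit 23088172, nat_lit 7024485, nat_lit 4988597, true, true⟩,
 nat_lit 0, nat_lit 0, nat_lit 0, nat_lit 4800, nat_lit 3498, nat_lit 0, nat_lit 0, nat_lit 0, nat_lit 0, nat_lit 0, nat_lit 0, nat_lit 0, nat_lit 0, nat_lit 0, nat_lit 0, nat_lit 250000, nat_lit 0, nat_lit 0, [(nat_lit 22, [(nat_lit 0, nat_lit 1000)])],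
 ⟨p078_k13, nat_lit 0, nat_lit 0, nat_lit 71, nat_lit 0, nat_lit 0, [nat_lit 1568000001, nat_lit 1970800000, nat_lit 2712400000], [], [nat_lit 27698750169, nat_lit 28571478384, nat_lit 28092470776, nat_lit 28990468626, nat_lit 28244059272, nat_lit 29100645633, nat_lit 28619184780, nat_lit 29509572161], nat_lit 0, nat_lit 0, nat_lit 0, nat_lit 0, nat_lit 0, nat_lit 0, [], [nat_lit 34, nat_lit 40, nat_lit 40, nat_lit 80, nat_lit 7, nat_lit 272, nat_lit 60, nat_lit 7]⟩, C1.Rw.none,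
 ⟨nat_lit 3162, nat_lit 3873, ⟨.ofNat (nat_lit 758085), .ofNat (nat_lit 770989), .ofNat (nat_lit 801671), .ofNat (nat_lit 814576), .ofNat (nat_lit 743812), .ofNat (nat_lit 756003), .ofNat (nat_lit 788122), .ofNat (nat_lit 800312)⟩, ⟨.ofNat (nat_lit 325652), .ofNat (nat_lit 377270), .ofNat (nat_lit 369239), .ofNat (nat_lit 420856), .ofNat (nat_lit 322759), .ofNat (nat_lit 371522), .ofNat (nat_lit 367069), .ofNat (nat_lit 415832)⟩⟩, [⟨nat_lit 13, nat_lit 73, nat_lit 55, nat_lit 100, nat_lit 310106697⟩, ⟨nat_lit 16, nat_lit 72, nat_lit 100, nat_lit 81, nat_lit 164804064⟩]⟩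
noncomputable def b_V_800_500_10_12 : St := ⟨true, nat_lit 0, nat_lit 1, nat_lit 1, nat_lit 80, nat_lit 320, nat_lit 360, nat_lit 200, nat_lit 240, nat_lit 240, nat_lit 384, nat_lit 40, nat_lit 80, nat_lit 160, nat_lit 260, nat_lit 0, nat_lit 360, nat_lit 40, nat_lit 80, nat_lit 0, nat_lit 0, nat_lit 0, nat_lit 0⟩
theorem d_V_800_500_10_12 (h : EB TB.env) : Dead b_V_800_500_10_12 := chkB_sound0 h (T :=
(.spl (nat_lit 2) (nat_lit 320)
(.leaf p078_l40)
(.trZ (nat_lit 9) (nat_lit 100) (nat_lit 82) (nat_lit 44) (nat_lit 16) (.spl (nat_lit 2) (nat_lit 360)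
(.spl (nat_lit 0) (nat_lit 340)
(.spl (nat_lit 0) (nat_lit 330)
(.leaf p078_l41)
(.trX (nat_lit 16) (nat_lit 78) (nat_lit 100) (nat_lit 82) (nat_lit 244) (.leaf p078_l42)))
(.trX (nat_lit 16) (nat_lit 72) (nat_lit 100) (nat_lit 81) (nat_lit 232) (.spl (nat_lit 0) (nat_lit 350)
(.leaf p078_l43)
(.trX (nat_lit 16) (nat_lit 66) (nat_lit 100) (nat_lit 80) (nat_lit 216) (.leaf p078_l44)))))
(.trZ (nat_lit 9) (nat_lit 100) (nat_lit 61) (nat_lit 68) (nat_lit 48) (.spl (nat_lit 4) (nat_lit 200)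
(.trX (nat_lit 22) (nat_lit 60) (nat_lit 80) (nat_lit 100) (nat_lit 320) (.leaf p078_l45))
(.trZ (nat_lit 9) (nat_lit 100) (nat_lit 60) (nat_lit 80) (nat_lit 80) (.spl (nat_lit 0) (nat_lit 340)
(.leaf p078_l46)
(.trX (nat_lit 13) (nat_lit 73) (nat_lit 55) (nat_lit 100) (nat_lit 368) (.trX (nat_lit 16) (nat_lit 72) (nat_lit 100) (nat_lit 81) (nat_lit 232) (.trX (nat_lit 22) (nat_lit 61) (nat_lit 70) (nat_lit 100) (nat_lit 348) (.leaf p078_l47)))))))))))) (by decide +kernel)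
noncomputable def p078_l48 : Lf2 := ⟨nat_lit 0, nat_lit 20, [nat_lit 5, nat_lit 5, nat_lit 5, nat_lit 20], true, nat_lit 0, nat_lit 160, nat_lit 0, nat_lit 360, ⟨nat_lit 0, nat_lit 0, nat_lit 1000, nat_lit 5, nat_lit 142, nat_lit 817, nat_lit 56, nat_lit 1000, nat_lit 29400, nat_lit 257, nat_lit 74817, nat_lit 282, nat_lit 59545676, nat_lit 0, nat_lit 0, nat_lit 1745690, false, false⟩,
 nat_lit 0, nat_lit 4294, nat_lit 0, nat_lit 0, nat_lit 3220, nat_lit 0, nat_lit 0, nat_lit 0, nat_lit 0, nat_lit 0, nat_lit 0, nat_lit 0, nat_lit 0, nat_lit 0, nat_lit 129, nat_lit 400000, nat_lit 0, nat_lit 0, [(nat_lit 19, [(nat_lit 5, nat_lit 1000)])],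
 ⟨p078_k28, nat_lit 0, nat_lit 0, nat_lit 428, nat_lit 0, nat_lit 319385, [nat_lit 2456800001, nat_lit 268000000], [], [nat_lit 17653493762, nat_lit 18263470283, nat_lit 18472478723, nat_lit 19006486403, nat_lit 17789752003, nat_lit 18310867543, nat_lit 19792635121, nat_lit 19093507544], nat_lit 1271250, nat_lit 1271250, nat_lit 230001, nat_lit 1100001, nat_lit 0, nat_lit 1100001, [nat_lit 490000, nat_lit 2052500], [nat_lit 94, nat_lit 40, nat_lit 40, nat_lit 80, nat_lit 95, nat_lit 317, nat_lit 100, nat_lit 9]⟩, C1.Rw.none,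
 ⟨nat_lit 4183, nat_lit 4473, ⟨.ofNat (nat_lit 228083), .ofNat (nat_lit 432020), .ofNat (nat_lit 271208), .ofNat (nat_lit 475145), .ofNat (nat_lit 234973), .ofNat (nat_lit 433742), .ofNat (nat_lit 278299), .ofNat (nat_lit 477068)⟩, ⟨.negSucc (nat_lit 12423), .ofNat (nat_lit 259489), .ofNat (nat_lit 0), .ofNat (nat_lit 302621), .negSucc (nat_lit 4612), .ofNat (nat_lit 260409), .ofNat (nat_lit 0), .ofNat (nat_lit 303743)⟩⟩, [⟨nat_lit 0, nat_lit 100, nat_lit 78, nat_lit 81, nat_lit 44311504⟩]⟩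
noncomputable def p078_l49 : Lf2 := ⟨nat_lit 0, nat_lit 20, [nat_lit 5, nat_lit 5, nat_lit 5, nat_lit 20], true, nat_lit 0, nat_lit 160, nat_lit 0, nat_lit 360, ⟨nat_lit 0, nat_lit 0, nat_lit 1000, nat_lit 5, nat_lit 146, nat_lit 820, nat_lit 56, nat_lit 1000, nat_lit 29400, nat_lit 257, nat_lit 70417, nat_lit 280, nat_lit 59131486, nat_lit 0, nat_lit 0, nat_lit 1808968, false, false⟩,
 nat_lit 0, nat_lit 3901, nat_lit 0, nat_lit 0, nat_lit 3040, nat_lit 0, nat_lit 0, nat_lit 0, nat_lit 0, nat_lit 0, nat_lit 0, nat_lit 0, nat_lit 0, nat_lit 0, nat_lit 129, nat_lit 400000, nat_lit 0, nat_lit 0, [(nat_lit 19, [(nat_lit 5, nat_lit 1000)])],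
 ⟨p078_k29, nat_lit 0, nat_lit 0, nat_lit 457, nat_lit 0, nat_lit 398657, [nat_lit 2117400001, nat_lit 1311300000, nat_lit 268000000], [], [nat_lit 18837479811, nat_lit 18716744576, nat_lit 18741846044, nat_lit 19232792404, nat_lit 18211052212, nat_lit 18686360997, nat_lit 19050601084, nat_lit 19538669845], nat_lit 1271250, nat_lit 1271250, nat_lit 279600, nat_lit 1100001, nat_lit 0, nat_lit 1100001, [nat_lit 490000, nat_lit 1427500, nat_lit 1271250], [nat_lit 61, nat_lit 40, nat_lit 40, nat_lit 80, nat_lit 1, nat_lit 317, nat_lit 100, nat_lit 9]⟩, C1.Rw.none,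
 ⟨nat_lit 3872, nat_lit 4184, ⟨.ofNat (nat_lit 248217), .ofNat (nat_lit 433741), .ofNat (nat_lit 291541), .ofNat (nat_lit 477065), .ofNat (nat_lit 254806), .ofNat (nat_lit 435475), .ofNat (nat_lit 298383), .ofNat (nat_lit 479052)⟩, ⟨.negSucc (nat_lit 4619), .ofNat (nat_lit 260409), .ofNat (nat_lit 0), .ofNat (nat_lit 303743), .ofNat (nat_lit 0), .ofNat (nat_lit 261131), .ofNat (nat_lit 0), .ofNat (nat_lit 304717)⟩⟩, [⟨nat_lit 0, nat_lit 100, nat_lit 73, nat_lit 85, nat_lit 49618874⟩]⟩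
noncomputable def p078_l50 : Lf2 := ⟨nat_lit 0, nat_lit 20, [nat_lit 5, nat_lit 5, nat_lit 5, nat_lit 20], false, nat_lit 0, nat_lit 160, nat_lit 0, nat_lit 360, ⟨nat_lit 210, nat_lit 0, nat_lit 790, nat_lit 5, nat_lit 209, nat_lit 790, nat_lit 56, nat_lit 790, nat_lit 29400, nat_lit 257, nat_lit 5914, nat_lit 209, nat_lit 52667635, nat_lit 0, nat_lit 0, nat_lit 2595493, false, false⟩,
 nat_lit 0, nat_lit 4698, nat_lit 0, nat_lit 0, nat_lit 3523, nat_lit 3436, nat_lit 122, nat_lit 0, nat_lit 0, nat_lit 152, nat_lit 0, nat_lit 0, nat_lit 0, nat_lit 0, nat_lit 30, nat_lit 316000, nat_lit 0, nat_lit 0, [(nat_lit 19, [(nat_lit 5, nat_lit 790)])],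
 ⟨p078_k7, nat_lit 0, nat_lit 0, nat_lit 375, nat_lit 0, nat_lit 420160, [nat_lit 1524186001, nat_lit 910227000, nat_lit 265060000], [], [nat_lit 19889688915, nat_lit 20708389584, nat_lit 21587100794, nat_lit 22734053332, nat_lit 19551673209, nat_lit 20352664323, nat_lit 23661732936, nat_lit 22106870978], nat_lit 1271250, nat_lit 1271250, nat_lit 1100001, nat_lit 1785000, nat_lit 0, nat_lit 1100001, [nat_lit 490000, nat_lit 1427500, nat_lit 1271250], [nat_lit 61, nat_lit 40, nat_lit 40, nat_lit 80, nat_lit 1, nat_lit 317, nat_lit 100, nat_lit 9]⟩, ⟨p078_k9, nat_lit 0, nat_lit 0, nat_lit 273, nat_lit 0, nat_lit 0, [nat_lit 1312500000, nat_lit 2493120000, nat_lit 2952180000], [], [nat_lit 7436478080, nat_lit 7937831640, nat_lit 8026133688, nat_lit 8384278736, nat_lit 6768701172, nat_lit 6814255332, nat_lit 6656953540, nat_lit 6710490420], nat_lit 0, nat_lit 0, nat_lit 0, nat_lit 0, nat_lit 0, nat_lit 0, [], [nat_lit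 137, nat_lit 40, nat_lit 40, nat_lit 80, nat_lit 58, nat_lit 456, nat_lit 225, nat_lit 11]⟩,
 ⟨nat_lit 3872, nat_lit 4473, ⟨.ofNat (nat_lit 432013), .ofNat (nat_lit 567977), .ofNat (nat_lit 475111), .ofNat (nat_lit 611083), .ofNat (nat_lit 435470), .ofNat (nat_lit 564520), .ofNat (nat_lit 479021), .ofNat (nat_lit 608080)⟩, ⟨.negSucc (nat_lit 12427), .ofNat (nat_lit 259489), .ofNat (nat_lit 0), .ofNat (nat_lit 302621), .ofNat (nat_lit 0), .ofNat (nat_lit 261131), .ofNat (nat_lit 0), .ofNat (nat_lit 304717)⟩⟩, [⟨nat_lit 7, nat_lit 77, nat_lit 100, nat_lit 72, nat_lit 24626244⟩]⟩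
noncomputable def p078_l51 : Lf2 := ⟨nat_lit 0, nat_lit 20, [nat_lit 5, nat_lit 5, nat_lit 5, nat_lit 20], true, nat_lit 0, nat_lit 160, nat_lit 0, nat_lit 360, ⟨nat_lit 0, nat_lit 0, nat_lit 1000, nat_lit 5, nat_lit 150, nat_lit 1000, nat_lit 57, nat_lit 1000, nat_lit 29400, nat_lit 257, nat_lit 66278, nat_lit 278, nat_lit 58721287, nat_lit 0, nat_lit 0, nat_lit 1869818, false, false⟩,
 nat_lit 0, nat_lit 3324, nat_lit 0, nat_lit 0, nat_lit 2690, nat_lit 0, nat_lit 0, nat_lit 0, nat_lit 0, nat_lit 0, nat_lit 0, nat_lit 0, nat_lit 0, nat_lit 0, nat_lit 150, nat_lit 400000, nat_lit 0, nat_lit 0, [(nat_lit 22, [(nat_lit 5, nat_lit 1000)])],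
 ⟨p078_k8, nat_lit 0, nat_lit 0, nat_lit 416, nat_lit 0, nat_lit 471802, [nat_lit 2176000000, nat_lit 915400001, nat_lit 20000000], [], [nat_lit 17747422253, nat_lit 18709240966, nat_lit 18960455300, nat_lit 19593310330, nat_lit 18682083468, nat_lit 19288082626, nat_lit 20107086240, nat_lit 20643387340], nat_lit 1271250, nat_lit 1271250, nat_lit 330400, nat_lit 1100001, nat_lit 0, nat_lit 1100001, [nat_lit 490000, nat_lit 1427500, nat_lit 1271250], [nat_lit 102, nat_lit 40, nat_lit 40, nat_lit 80, nat_lit 2, nat_lit 317, nat_lit 100, nat_lit 10]⟩, C1.Rw.none,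
 ⟨nat_lit 3535, nat_lit 3873, ⟨.ofNat (nat_lit 267701), .ofNat (nat_lit 435472), .ofNat (nat_lit 311275), .ofNat (nat_lit 479046), .ofNat (nat_lit 274037), .ofNat (nat_lit 437232), .ofNat (nat_lit 317930), .ofNat (nat_lit 481125)⟩, ⟨.ofNat (nat_lit 0), .ofNat (nat_lit 261131), .ofNat (nat_lit 0), .ofNat (nat_lit 304717), .ofNat (nat_lit 0), .ofNat (nat_lit 261616), .ofNat (nat_lit 0), .ofNat (nat_lit 305521)⟩⟩, []⟩
noncomputable def p078_l52 : Lf2 := ⟨nat_lit 0, nat_lit 20, [nat_lit 5, nat_lit 5, nat_lit 5, nat_lit 20], true, nat_lit 0, nat_lit 160, nat_lit 0, nat_lit 360, ⟨nat_lit 0, nat_lit 0, nat_lit 1000, nat_lit 5, nat_lit 154, nat_lit 1000, nat_lit 57, nat_lit 1000, nat_lit 30817, nat_lit 258, nat_lit 62739, nat_lit 276, nat_lit 58314291, nat_lit 0, nat_lit 0, nat_lit 1928482, false, false⟩,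
 nat_lit 0, nat_lit 3346, nat_lit 0, nat_lit 0, nat_lit 2810, nat_lit 0, nat_lit 0, nat_lit 0, nat_lit 0, nat_lit 0, nat_lit 0, nat_lit 0, nat_lit 0, nat_lit 0, nat_lit 150, nat_lit 400000, nat_lit 0, nat_lit 0, [(nat_lit 22, [(nat_lit 5, nat_lit 1000)])],
 ⟨p078_k30, nat_lit 0, nat_lit 0, nat_lit 439, nat_lit 0, nat_lit 539308, [nat_lit 2176000000, nat_lit 915400001, nat_lit 20000000], [], [nat_lit 18860184717, nat_lit 19837514800, nat_lit 20018309570, nat_lit 20621596560, nat_lit 19788148675, nat_lit 20360796705, nat_lit 21062017430, nat_lit 21573057680], nat_lit 1271250, nat_lit 1271250, nat_lit 382400, nat_lit 1100001, nat_lit 0, nat_lit 1100001, [nat_lit 490000, nat_lit 1427500, nat_lit 1271250], [nat_lit 102, nat_lit 40, nat_lit 40, nat_lit 80, nat_lit 2, nat_lit 317, nat_lit 100, nat_lit 10]⟩, C1.Rw.none,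
 ⟨nat_lit 3162, nat_lit 3536, ⟨.ofNat (nat_lit 286575), .ofNat (nat_lit 437228), .ofNat (nat_lit 330464), .ofNat (nat_lit 481116), .ofNat (nat_lit 292723), .ofNat (nat_lit 439036), .ofNat (nat_lit 337016), .ofNat (nat_lit 483329)⟩, ⟨.ofNat (nat_lit 0), .ofNat (nat_lit 261616), .ofNat (nat_lit 0), .ofNat (nat_lit 305521), .ofNat (nat_lit 0), .ofNat (nat_lit 261806), .ofNat (nat_lit 0), .ofNat (nat_lit 306116)⟩⟩, []⟩
noncomputable def p078_l53 : Lf2 := ⟨nat_lit 0, nat_lit 20, [nat_lit 5, nat_lit 5, nat_lit 5, nat_lit 20], false, nat_lit 0, nat_lit 160, nat_lit 0, nat_lit 360, ⟨nat_lit 283, nat_lit 0, nat_lit 717, nat_lit 5, nat_lit 209, nat_lit 717, nat_lit 57, nat_lit 717, nat_lit 29400, nat_lit 257, nat_lit 5763, nat_lit 210, nat_lit 52658780, nat_lit 0, nat_lit 0, nat_lit 2596353, false, false⟩,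
 nat_lit 0, nat_lit 4143, nat_lit 0, nat_lit 0, nat_lit 3353, nat_lit 5353, nat_lit 144, nat_lit 0, nat_lit 0, nat_lit 221, nat_lit 0, nat_lit 0, nat_lit 0, nat_lit 0, nat_lit 13, nat_lit 286800, nat_lit 0, nat_lit 0, [(nat_lit 22, [(nat_lit 5, nat_lit 717)])],
 ⟨p078_k8, nat_lit 0, nat_lit 0, nat_lit 370, nat_lit 0, nat_lit 471802, [nat_lit 1378848001, nat_lit 534091801, nat_lit 84000], [], [nat_lit 19877680401, nat_lit 20382324003, nat_lit 22142156082, nat_lit 22961105403, nat_lit 19994515879, nat_lit 20424676100, nat_lit 22056498319, nat_lit 22240240467], nat_lit 1271250, nat_lit 1271250, nat_lit 1100001, nat_lit 1785000, nat_lit 0, nat_lit 1100001, [nat_lit 490000, nat_lit 1427500, nat_lit 1271250], [nat_lit 102, nat_lit 40, nat_lit 40, nat_lit 80, nat_lit 2, nat_lit 317, nat_lit 100, nat_lit 10]⟩, ⟨p078_k9, nat_lit 0, nat_lit 0, nat_lit 273, nat_lit 0, nat_lit 0, [nat_lit 1768750000, nat_lit 3359776000, nat_lit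 3978414000], [], [nat_lit 10253000036, nat_lit 10983983344, nat_lit 11077132700, nat_lit 11588048936, nat_lit 8847199224, nat_lit 8878912478, nat_lit 8963716268, nat_lit 9474392118], nat_lit 0, nat_lit 0, nat_lit 0, nat_lit 0, nat_lit 0, nat_lit 0, [], [nat_lit 137, nat_lit 40, nat_lit 40, nat_lit 80, nat_lit 58, nat_lit 456, nat_lit 225, nat_lit 11]⟩,
 ⟨nat_lit 3535, nat_lit 3873, ⟨.ofNat (nat_lit 435472), .ofNat (nat_lit 564520), .ofNat (nat_lit 479046), .ofNat (nat_lit 608101), .ofNat (nat_lit 437232), .ofNat (nat_lit 562760), .ofNat (nat_lit 481125), .ofNat (nat_lit 606659)⟩, ⟨.ofNat (nat_lit 0), .ofNat (nat_lit 261131), .ofNat (nat_lit 0), .ofNat (nat_lit 304717), .ofNat (nat_lit 0), .ofNat (nat_lit 261616), .ofNat (nat_lit 0), .ofNat (nat_lit 305521)⟩⟩, [⟨nat_lit 7, nat_lit 77, nat_lit 100, nat_lit 72, nat_lit 35967427⟩]⟩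
noncomputable def p078_l54 : Lf2 := ⟨nat_lit 0, nat_lit 20, [nat_lit 5, nat_lit 5, nat_lit 5, nat_lit 20], false, nat_lit 0, nat_lit 160, nat_lit 0, nat_lit 360, ⟨nat_lit 440, nat_lit 0, nat_lit 560, nat_lit 5, nat_lit 209, nat_lit 560, nat_lit 57, nat_lit 560, nat_lit 30817, nat_lit 258, nat_lit 2736, nat_lit 210, nat_lit 52651102, nat_lit 0, nat_lit 0, nat_lit 2597098, false, false⟩,
 nat_lit 0, nat_lit 4775, nat_lit 0, nat_lit 0, nat_lit 4011, nat_lit 8329, nat_lit 171, nat_lit 0, nat_lit 0, nat_lit 344, nat_lit 0, nat_lit 0, nat_lit 0, nat_lit 0, nat_lit 0, nat_lit 224000, nat_lit 0, nat_lit 0, [(nat_lit 22, [(nat_lit 5, nat_lit 560)])],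
 ⟨p078_k30, nat_lit 0, nat_lit 0, nat_lit 398, nat_lit 0, nat_lit 539308, [nat_lit 1440640001, nat_lit 1582624001, nat_lit 1501120000], [], [nat_lit 21434411940, nat_lit 22435143960, nat_lit 24176333361, nat_lit 25076517388, nat_lit 20427766318, nat_lit 20859639870, nat_lit 22068122176, nat_lit 22514547672], nat_lit 1271250, nat_lit 1271250, nat_lit 1100001, nat_lit 1785000, nat_lit 0, nat_lit 1100001, [nat_lit 490000, nat_lit 1427500, nat_lit 1271250], [nat_lit 102, nat_lit 40, nat_lit 40, nat_lit 80, nat_lit 2, nat_lit 317, nat_lit 100, nat_lit 10]⟩, ⟨p078_k9, nat_lit 0, nat_lit 0, nat_lit 273, nat_lit 0, nat_lit 0, [nat_lit 2750000000, nat_lit 5223680000, nat_lit 6185520000], [], [nat_lit 15941046620, nat_lit 17078041460, nat_lit 17222641432, nat_lit 18017245904, nat_lit 13750928358, nat_lit 13801651980, nat_lit 13940041494, nat_lit 14734271880], nat_lit 0, nat_lit 0, nat_lit 0, nat_lit 0, nat_lit 0, nat_lit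 0, [], [nat_lit 137, nat_lit 40, nat_lit 40, nat_lit 80, nat_lit 58, nat_lit 456, nat_lit 225, nat_lit 11]⟩,
 ⟨nat_lit 3162, nat_lit 3536, ⟨.ofNat (nat_lit 437228), .ofNat (nat_lit 562760), .ofNat (nat_lit 481116), .ofNat (nat_lit 606660), .ofNat (nat_lit 439036), .ofNat (nat_lit 560952), .ofNat (nat_lit 483329), .ofNat (nat_lit 605256)⟩, ⟨.ofNat (nat_lit 0), .ofNat (nat_lit 261616), .ofNat (nat_lit 0), .ofNat (nat_lit 305521), .ofNat (nat_lit 0), .ofNat (nat_lit 261806), .ofNat (nat_lit 0), .ofNat (nat_lit 306116)⟩⟩, [⟨nat_lit 7, nat_lit 77, nat_lit 100, nat_lit 72, nat_lit 55981522⟩]⟩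
noncomputable def p078_l55 : Lf2 := ⟨nat_lit 0, nat_lit 20, [nat_lit 5, nat_lit 5, nat_lit 5, nat_lit 20], true, nat_lit 160, nat_lit 260, nat_lit 0, nat_lit 360, ⟨nat_lit 0, nat_lit 0, nat_lit 1000, nat_lit 5, nat_lit 142, nat_lit 1000, nat_lit 146, nat_lit 1000, nat_lit 89743, nat_lit 288, nat_lit 70417, nat_lit 280, nat_lit 51070682, nat_lit 0, nat_lit 0, nat_lit 3813923, false, false⟩,
 nat_lit 0, nat_lit 4895, nat_lit 0, nat_lit 0, nat_lit 3671, nat_lit 0, nat_lit 0, nat_lit 0, nat_lit 0, nat_lit 0, nat_lit 0, nat_lit 0, nat_lit 0, nat_lit 0, nat_lit 129, nat_lit 400000, nat_lit 0, nat_lit 0, [(nat_lit 19, [(nat_lit 5, nat_lit 1000)])],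
 ⟨p078_k28, nat_lit 0, nat_lit 0, nat_lit 318, nat_lit 0, nat_lit 420160, [nat_lit 2456800001, nat_lit 268000000], [], [nat_lit 16757773803, nat_lit 17861031497, nat_lit 17329873791, nat_lit 18531312726, nat_lit 20316787156, nat_lit 21929660869, nat_lit 22835270793, nat_lit 21739610489], nat_lit 1271250, nat_lit 1271250, nat_lit 230001, nat_lit 1100001, nat_lit 1100001, nat_lit 1956250, [nat_lit 490000, nat_lit 2052500], [nat_lit 94, nat_lit 40, nat_lit 40, nat_lit 80, nat_lit 95, nat_lit 345, nat_lit 125, nat_lit 9]⟩, C1.Rw.none,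
 ⟨nat_lit 3872, nat_lit 4473, ⟨.ofNat (nat_lit 228056), .ofNat (nat_lit 432013), .ofNat (nat_lit 271153), .ofNat (nat_lit 475111), .ofNat (nat_lit 241882), .ofNat (nat_lit 435470), .ofNat (nat_lit 285433), .ofNat (nat_lit 479021)⟩, ⟨.ofNat (nat_lit 259489), .ofNat (nat_lit 429434), .ofNat (nat_lit 302621), .ofNat (nat_lit 472567), .ofNat (nat_lit 261131), .ofNat (nat_lit 422435), .ofNat (nat_lit 304717), .ofNat (nat_lit 466021)⟩⟩, [⟨nat_lit 0, nat_lit 100, nat_lit 73, nat_lit 85, nat_lit 25573091⟩, ⟨nat_lit 4, nat_lit 100, nat_lit 76, nat_lit 72, nat_lit 374961448⟩]⟩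
noncomputable def p078_l56 : Lf2 := ⟨nat_lit 0, nat_lit 20, [nat_lit 5, nat_lit 5, nat_lit 5, nat_lit 20], false, nat_lit 160, nat_lit 260, nat_lit 0, nat_lit 360, ⟨nat_lit 175, nat_lit 0, nat_lit 825, nat_lit 5, nat_lit 209, nat_lit 825, nat_lit 146, nat_lit 825, nat_lit 89743, nat_lit 288, nat_lit 5914, nat_lit 209, nat_lit 45547317, nat_lit 0, nat_lit 0, nat_lit 4486060, false, false⟩,
 nat_lit 0, nat_lit 4701, nat_lit 0, nat_lit 0, nat_lit 3525, nat_lit 2850, nat_lit 82, nat_lit 0, nat_lit 0, nat_lit 113, nat_lit 0, nat_lit 0, nat_lit 0, nat_lit 0, nat_lit 47, nat_lit 330000, nat_lit 0, nat_lit 0, [(nat_lit 19, [(nat_lit 5, nat_lit 825)])],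
 ⟨p078_k7, nat_lit 0, nat_lit 0, nat_lit 282, nat_lit 0, nat_lit 420160, [nat_lit 1627055001, nat_lit 987072501, nat_lit 279550000], [], [nat_lit 18552209452, nat_lit 19416259400, nat_lit 20248263150, nat_lit 21238678900, nat_lit 20962245550, nat_lit 21914674338, nat_lit 23276086303, nat_lit 23815562238], nat_lit 1271250, nat_lit 1271250, nat_lit 1100001, nat_lit 1785000, nat_lit 1100001, nat_lit 1956250, [nat_lit 490000, nat_lit 1427500, nat_lit 1271250], [nat_lit 61, nat_lit 40, nat_lit 40, nat_lit 80, nat_lit 1, nat_lit 345, nat_lit 125, nat_lit 9]⟩, ⟨p078_k9, nat_lit 0, nat_lit 0, nat_lit 273, nat_lit 0, nat_lit 0, [nat_lit 1093750000, nat_lit 2077600000, nat_lit 2460150000], [], [nat_lit 6299741600, nat_lit 6716514900, nat_lit 6790576900, nat_lit 7088509400, nat_lit 5752595750, nat_lit 5791105150, nat_lit 5615881000, nat_lit 5594929950], nat_lit 0, nat_lit 0, nat_lit 0, nat_lit 0, nat_lit 0, nat_lit 0, [],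 [nat_lit 137, nat_lit 40, nat_lit 40, nat_lit 80, nat_lit 58, nat_lit 456, nat_lit 225, nat_lit 11]⟩,
 ⟨nat_lit 3872, nat_lit 4473, ⟨.ofNat (nat_lit 432013), .ofNat (nat_lit 567977), .ofNat (nat_lit 475111), .ofNat (nat_lit 611083), .ofNat (nat_lit 435470), .ofNat (nat_lit 564520), .ofNat (nat_lit 479021), .ofNat (nat_lit 608080)⟩, ⟨.ofNat (nat_lit 259489), .ofNat (nat_lit 429434), .ofNat (nat_lit 302621), .ofNat (nat_lit 472567), .ofNat (nat_lit 261131), .ofNat (nat_lit 422435), .ofNat (nat_lit 304717), .ofNat (nat_lit 466021)⟩⟩, [⟨nat_lit 4, nat_lit 100, nat_lit 76, nat_lit 72, nat_lit 305402053⟩, ⟨nat_lit 19, nat_lit 100, nat_lit 77, nat_lit 72, nat_lit 18448394⟩]⟩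
noncomputable def p078_l57 : Lf2 := ⟨nat_lit 0, nat_lit 20, [nat_lit 5, nat_lit 5, nat_lit 5, nat_lit 20], false, nat_lit 160, nat_lit 232, nat_lit 0, nat_lit 360, ⟨nat_lit 91, nat_lit 0, nat_lit 909, nat_lit 5, nat_lit 176, nat_lit 909, nat_lit 136, nat_lit 909, nat_lit 173400, nat_lit 317, nat_lit 600, nat_lit 209, nat_lit 49057705, nat_lit 0, nat_lit 0, nat_lit 4075007, false, false⟩,
 nat_lit 0, nat_lit 3816, nat_lit 0, nat_lit 0, nat_lit 3089, nat_lit 1487, nat_lit 0, nat_lit 0, nat_lit 0, nat_lit 65, nat_lit 0, nat_lit 0, nat_lit 0, nat_lit 0, nat_lit 106, nat_lit 363600, nat_lit 0, nat_lit 0, [(nat_lit 22, [(nat_lit 5, nat_lit 909)])],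
 ⟨p078_k8, nat_lit 0, nat_lit 0, nat_lit 303, nat_lit 0, nat_lit 471802, [nat_lit 1920096000, nat_lit 793848601, nat_lit 14868000], [], [nat_lit 17364501820, nat_lit 18041965514, nat_lit 20955524072, nat_lit 21488806272, nat_lit 19725393496, nat_lit 20501674904, nat_lit 22751463031, nat_lit 23227834617], nat_lit 1271250, nat_lit 1271250, nat_lit 330400, nat_lit 1726500, nat_lit 1100001, nat_lit 1716500, [nat_lit 490000, nat_lit 1427500, nat_lit 1271250], [nat_lit 102, nat_lit 40, nat_lit 40, nat_lit 80, nat_lit 2, nat_lit 345, nat_lit 125, nat_lit 11]⟩, ⟨p078_k9, nat_lit 0, nat_lit 0, nat_lit 409, nat_lit 0, nat_lit 0, [nat_lit 568750000, nat_lit 1080352000, nat_lit 1279278000], [], [nat_lit 4421215778, nat_lit 4458887269, nat_lit 3621059708, nat_lit 3642092788, nat_lit 3688933953, nat_lit 3726072473, nat_lit 2885632382, nat_lit 2906725446], nat_lit 0, nat_lit 0, nat_lit 0, nat_lit 0, nat_lit 0, nat_lit 0, [],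 [nat_lit 137, nat_lit 40, nat_lit 40, nat_lit 80, nat_lit 58, nat_lit 456, nat_lit 225, nat_lit 11]⟩,
 ⟨nat_lit 3535, nat_lit 3873, ⟨.ofNat (nat_lit 267701), .ofNat (nat_lit 564520), .ofNat (nat_lit 311275), .ofNat (nat_lit 608101), .ofNat (nat_lit 274037), .ofNat (nat_lit 562760), .ofNat (nat_lit 317930), .ofNat (nat_lit 606659)⟩, ⟨.ofNat (nat_lit 261131), .ofNat (nat_lit 377270), .ofNat (nat_lit 304717), .ofNat (nat_lit 420856), .ofNat (nat_lit 261616), .ofNat (nat_lit 374587), .ofNat (nat_lit 305521), .ofNat (nat_lit 418492)⟩⟩, [⟨nat_lit 4, nat_lit 100, nat_lit 69, nat_lit 71, nat_lit 376359598⟩, ⟨nat_lit 7, nat_lit 77, nat_lit 100, nat_lit 72, nat_lit 10477308⟩]⟩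
noncomputable def p078_l58 : Lf2 := ⟨nat_lit 0, nat_lit 20, [nat_lit 5, nat_lit 5, nat_lit 5, nat_lit 20], false, nat_lit 160, nat_lit 216, nat_lit 0, nat_lit 360, ⟨nat_lit 97, nat_lit 0, nat_lit 903, nat_lit 5, nat_lit 179, nat_lit 903, nat_lit 131, nat_lit 903, nat_lit 160067, nat_lit 313, nat_lit 2736, nat_lit 210, nat_lit 49146817, nat_lit 0, nat_lit 0, nat_lit 4045881, false, false⟩,
 nat_lit 0, nat_lit 3839, nat_lit 0, nat_lit 0, nat_lit 3224, nat_lit 1581, nat_lit 0, nat_lit 0, nat_lit 0, nat_lit 69, nat_lit 0, nat_lit 0, nat_lit 0, nat_lit 0, nat_lit 103, nat_lit 361200, nat_lit 0, nat_lit 0, [(nat_lit 22, [(nat_lit 5, nat_lit 903)])],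
 ⟨p078_k30, nat_lit 0, nat_lit 0, nat_lit 328, nat_lit 0, nat_lit 539308, [nat_lit 1902432000, nat_lit 783856201, nat_lit 12156000], [], [nat_lit 18317971983, nat_lit 18971048186, nat_lit 21639316240, nat_lit 22148580256, nat_lit 19992314820, nat_lit 20803066692, nat_lit 22933930188, nat_lit 23423374061], nat_lit 1271250, nat_lit 1271250, nat_lit 382400, nat_lit 1731000, nat_lit 1100001, nat_lit 1579500, [nat_lit 490000, nat_lit 1427500, nat_lit 1271250], [nat_lit 102, nat_lit 40, nat_lit 40, nat_lit 80, nat_lit 2, nat_lit 345, nat_lit 125, nat_lit 11]⟩, ⟨p078_k9, nat_lit 0, nat_lit 0, nat_lit 401, nat_lit 0, nat_lit 0, [nat_lit 606250000, nat_lit 1151584000, nat_lit 1363626000], [], [nat_lit 4618598300, nat_lit 4658640406, nat_lit 3864151540, nat_lit 3886167548, nat_lit 3835489478, nat_lit 3874970807, nat_lit 3077886234, nat_lit 3099465284], nat_lit 0, nat_lit 0, nat_lit 0, nat_lit 0, nat_lit 0, nat_lit 0, [],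 [nat_lit 137, nat_lit 40, nat_lit 40, nat_lit 80, nat_lit 58, nat_lit 456, nat_lit 225, nat_lit 11]⟩,
 ⟨nat_lit 3162, nat_lit 3536, ⟨.ofNat (nat_lit 286575), .ofNat (nat_lit 562760), .ofNat (nat_lit 330464), .ofNat (nat_lit 606660), .ofNat (nat_lit 292723), .ofNat (nat_lit 560952), .ofNat (nat_lit 337016), .ofNat (nat_lit 605256)⟩, ⟨.ofNat (nat_lit 261616), .ofNat (nat_lit 349482), .ofNat (nat_lit 305521), .ofNat (nat_lit 393387), .ofNat (nat_lit 261806), .ofNat (nat_lit 347141), .ofNat (nat_lit 306116), .ofNat (nat_lit 391450)⟩⟩, [⟨nat_lit 16, nat_lit 63, nat_lit 100, nat_lit 72, nat_lit 506900239⟩, ⟨nat_lit 7, nat_lit 77, nat_lit 100, nat_lit 72, nat_lit 11144368⟩]⟩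
noncomputable def p078_l59 : Lf2 := ⟨nat_lit 0, nat_lit 20, [nat_lit 5, nat_lit 5, nat_lit 5, nat_lit 20], false, nat_lit 0, nat_lit 260, nat_lit 0, nat_lit 160, ⟨nat_lit 1000, nat_lit 0, nat_lit 0, nat_lit 0, nat_lit 0, nat_lit 0, nat_lit 0, nat_lit 0, nat_lit 0, nat_lit 0, nat_lit 0, nat_lit 0, nat_lit 0, nat_lit 0, nat_lit 0, nat_lit 0, false, false⟩,
 nat_lit 0, nat_lit 7823, nat_lit 0, nat_lit 0, nat_lit 5867, nat_lit 7778, nat_lit 504, nat_lit 0, nat_lit 0, nat_lit 837, nat_lit 0, nat_lit 0, nat_lit 0, nat_lit 0, nat_lit 0, nat_lit 0, nat_lit 0, nat_lit 0, [],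
 ⟨p078_k4, nat_lit 0, nat_lit 0, nat_lit 467, nat_lit 0, nat_lit 628462, [nat_lit 2032000001, nat_lit 4688000000, nat_lit 9842000000], [], [nat_lit 32921438692, nat_lit 34708831396, nat_lit 37769551364, nat_lit 39007059356, nat_lit 31428289674, nat_lit 32674836405, nat_lit 34736889314, nat_lit 35597100297], nat_lit 1271250, nat_lit 1271250, nat_lit 1271250, nat_lit 1271250, nat_lit 0, nat_lit 1836250, [nat_lit 490000, nat_lit 1100000, nat_lit 2127500], [nat_lit 27, nat_lit 40, nat_lit 40, nat_lit 80, nat_lit 13, nat_lit 401, nat_lit 175, nat_lit 11]⟩, ⟨p078_k5, nat_lit 0, nat_lit 0, nat_lit 294, nat_lit 0, nat_lit 0, [nat_lit 6250000000, nat_lit 9842000000, nat_lit 14058000000], [], [nat_lit 33518944846, nat_lit 34561890174, nat_lit 42647487128, nat_lit 43156404149, nat_lit 28098865710, nat_lit 28949250534, nat_lit 34918656160, nat_lit 35362232659], nat_lit 0, nat_lit 0, nat_lit 0, nat_lit 0, nat_lit 0, nat_lit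 0, [], [nat_lit 60, nat_lit 40, nat_lit 40, nat_lit 80, nat_lit 32, nat_lit 428, nat_lit 200, nat_lit 10]⟩,
 zbF0, [⟨nat_lit 4, nat_lit 100, nat_lit 71, nat_lit 71, nat_lit 247013779⟩, ⟨nat_lit 9, nat_lit 100, nat_lit 88, nat_lit 25, nat_lit 32871521⟩]⟩
noncomputable def p078_l60 : Lf2 := ⟨nat_lit 0, nat_lit 20, [nat_lit 5, nat_lit 5, nat_lit 5, nat_lit 20], false, nat_lit 0, nat_lit 260, nat_lit 160, nat_lit 360, ⟨nat_lit 1000, nat_lit 0, nat_lit 0, nat_lit 0, nat_lit 0, nat_lit 0, nat_lit 0, nat_lit 0, nat_lit 0, nat_lit 0, nat_lit 0, nat_lit 0, nat_lit 0, nat_lit 0, nat_lit 0, nat_lit 0, false, false⟩,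
 nat_lit 0, nat_lit 7653, nat_lit 0, nat_lit 0, nat_lit 5739, nat_lit 7947, nat_lit 652, nat_lit 0, nat_lit 0, nat_lit 0, nat_lit 0, nat_lit 0, nat_lit 0, nat_lit 0, nat_lit 0, nat_lit 0, nat_lit 0, nat_lit 0, [],
 ⟨p078_k4, nat_lit 0, nat_lit 0, nat_lit 467, nat_lit 0, nat_lit 628462, [nat_lit 2032000001, nat_lit 4688000000, nat_lit 9842000000], [], [nat_lit 31792432264, nat_lit 33562556232, nat_lit 36607027675, nat_lit 38633567556, nat_lit 30428006958, nat_lit 31666183385, nat_lit 34342830408, nat_lit 35430478358], nat_lit 1271250, nat_lit 1271250, nat_lit 1271250, nat_lit 1271250, nat_lit 0, nat_lit 1836250, [nat_lit 490000, nat_lit 1100000, nat_lit 2127500], [nat_lit 27, nat_lit 40, nat_lit 40, nat_lit 80, nat_lit 13, nat_lit 401, nat_lit 175, nat_lit 11]⟩, ⟨p078_k5, nat_lit 0, nat_lit 0, nat_lit 116, nat_lit 0, nat_lit 0, [nat_lit 6250000000, nat_lit 9842000000, nat_lit 14058000000], [], [nat_lit 13156156340,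 nat_lit 15481018860, nat_lit 26363307673, nat_lit 27666689273, nat_lit 25846060580, nat_lit 26933037720, nat_lit 35320858852, nat_lit 35817145509], nat_lit 0, nat_lit 0, nat_lit 0, nat_lit 0, nat_lit 0, nat_lit 0, [], [nat_lit 60, nat_lit 40, nat_lit 40, nat_lit 80, nat_lit 32, nat_lit 483, nat_lit 250, nat_lit 11]⟩,
 zbF0, [⟨nat_lit 16, nat_lit 71, nat_lit 100, nat_lit 71, nat_lit 216543348⟩, ⟨nat_lit 7, nat_lit 77, nat_lit 100, nat_lit 72, nat_lit 636377275⟩]⟩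
noncomputable def b_V_800_500_10_13 : St := ⟨true, nat_lit 1, nat_lit 0, nat_lit 1, nat_lit 80, nat_lit 320, nat_lit 360, nat_lit 200, nat_lit 240, nat_lit 40, nat_lit 384, nat_lit 40, nat_lit 80, nat_lit 0, nat_lit 260, nat_lit 0, nat_lit 360, nat_lit 40, nat_lit 80, nat_lit 0, nat_lit 0, nat_lit 0, nat_lit 0⟩
theorem d_V_800_500_10_13 (h : EB TB.env) : Dead b_V_800_500_10_13 := chkB_sound0 h (T :=
(.spl (nat_lit 2) (nat_lit 240)
(.spl (nat_lit 4) (nat_lit 160)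
(.spl (nat_lit 0) (nat_lit 340)
(.spl (nat_lit 2) (nat_lit 160)
(.spl (nat_lit 0) (nat_lit 330)
(.leaf p078_l48)
(.trZ (nat_lit 0) (nat_lit 100) (nat_lit 76) (nat_lit 65) (nat_lit 48) (.leaf p078_l49)))
(.leaf p078_l50))
(.trZ (nat_lit 0) (nat_lit 100) (nat_lit 71) (nat_lit 70) (nat_lit 56) (.spl (nat_lit 2) (nat_lit 160)
(.spl (nat_lit 0) (nat_lit 350)
(.leaf p078_l51)
(.trZ (nat_lit 0) (nat_lit 100) (nat_lit 66) (nat_lit 75) (nat_lit 64) (.leaf p078_l52)))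
(.spl (nat_lit 0) (nat_lit 350)
(.leaf p078_l53)
(.leaf p078_l54)))))
(.spl (nat_lit 0) (nat_lit 340)
(.spl (nat_lit 2) (nat_lit 160)
(.leaf p078_l55)
(.leaf p078_l56))
(.trZ (nat_lit 0) (nat_lit 100) (nat_lit 71) (nat_lit 70) (nat_lit 56) (.trX (nat_lit 16) (nat_lit 72) (nat_lit 100) (nat_lit 81) (nat_lit 232) (.spl (nat_lit 0) (nat_lit 350)
(.leaf p078_l57)
(.trZ (nat_lit 0) (nat_lit 100) (nat_lit 66) (nat_lit 75) (nat_lit 64) (.trX (nat_lit 16) (nat_lit 66) (nat_lit 100) (nat_lit 80) (nat_lit 216) (.leaf p078_l58))))))))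
(.spl (nat_lit 5) (nat_lit 160)
(.leaf p078_l59)
(.leaf p078_l60)))) (by decide +kernel)
noncomputable def p078_l61 : Lf2 := ⟨nat_lit 0, nat_lit 20, [nat_lit 5, nat_lit 5, nat_lit 5, nat_lit 20], false, nat_lit 0, nat_lit 160, nat_lit 0, nat_lit 360, ⟨nat_lit 0, nat_lit 0, nat_lit 1000, nat_lit 5, nat_lit 144, nat_lit 949, nat_lit 57, nat_lit 1000, nat_lit 29400, nat_lit 257, nat_lit 62098, nat_lit 276, nat_lit 59297469, nat_lit 0, nat_lit 0, nat_lit 1783836, false, false⟩,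
 nat_lit 0, nat_lit 4029, nat_lit 0, nat_lit 0, nat_lit 3021, nat_lit 0, nat_lit 0, nat_lit 0, nat_lit 0, nat_lit 0, nat_lit 0, nat_lit 0, nat_lit 0, nat_lit 0, nat_lit 129, nat_lit 400000, nat_lit 0, nat_lit 0, [(nat_lit 19, [(nat_lit 5, nat_lit 1000)]), (nat_lit 22, [(nat_lit 5, nat_lit 1000)])],
 ⟨p078_k28, nat_lit 0, nat_lit 0, nat_lit 451, nat_lit 0, nat_lit 398537, [nat_lit 2456800001, nat_lit 268000000], [], [nat_lit 18665832688, nat_lit 20901179772, nat_lit 19656491936, nat_lit 21728971629, nat_lit 19144510092, nat_lit 21212499417, nat_lit 21035595852, nat_lit 22422769601], nat_lit 1271250, nat_lit 1271250, nat_lit 230001, nat_lit 1100001, nat_lit 0, nat_lit 1100001, [nat_lit 490000, nat_lit 2052500], [nat_lit 94, nat_lit 40, nat_lit 40, nat_lit 80, nat_lit 95, nat_lit 317, nat_lit 100, nat_lit 9]⟩, ⟨p078_k31, nat_lit 0, nat_lit 0, nat_lit 807, nat_lit 0, nat_lit 821599, [nat_lit 0, nat_lit 0], [], [nat_lit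 0, nat_lit 0, nat_lit 0, nat_lit 0, nat_lit 0, nat_lit 0, nat_lit 0, nat_lit 0], nat_lit 1271250, nat_lit 1271250, nat_lit 230001, nat_lit 1100001, nat_lit 0, nat_lit 2542500, [nat_lit 1412500, nat_lit 1271250], [nat_lit 149, nat_lit 40, nat_lit 40, nat_lit 80, nat_lit 68, nat_lit 428, nat_lit 200, nat_lit 10]⟩,
 ⟨nat_lit 3162, nat_lit 4473, ⟨.ofNat (nat_lit 227776), .ofNat (nat_lit 431944), .ofNat (nat_lit 270729), .ofNat (nat_lit 474896), .ofNat (nat_lit 255876), .ofNat (nat_lit 438969), .ofNat (nat_lit 300005), .ofNat (nat_lit 483097)⟩, ⟨.negSucc (nat_lit 12437), .ofNat (nat_lit 259488), .ofNat (nat_lit 0), .ofNat (nat_lit 302621), .ofNat (nat_lit 0), .ofNat (nat_lit 261805), .ofNat (nat_lit 0), .ofNat (nat_lit 306116)⟩⟩, [⟨nat_lit 0, nat_lit 100, nat_lit 61, nat_lit 92, nat_lit 21624117⟩]⟩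
noncomputable def p078_l62 : Lf2 := ⟨nat_lit 0, nat_lit 20, [nat_lit 5, nat_lit 5, nat_lit 5, nat_lit 20], false, nat_lit 0, nat_lit 160, nat_lit 0, nat_lit 360, ⟨nat_lit 67, nat_lit 0, nat_lit 933, nat_lit 5, nat_lit 209, nat_lit 832, nat_lit 56, nat_lit 933, nat_lit 29400, nat_lit 257, nat_lit 5914, nat_lit 209, nat_lit 52667635, nat_lit 0, nat_lit 0, nat_lit 2595493, false, false⟩,
 nat_lit 3131, nat_lit 909, nat_lit 0, nat_lit 0, nat_lit 3030, nat_lit 1341, nat_lit 23, nat_lit 0, nat_lit 0, nat_lit 12, nat_lit 0, nat_lit 0, nat_lit 0, nat_lit 0, nat_lit 98, nat_lit 373200, nat_lit 0, nat_lit 0, [(nat_lit 19, [(nat_lit 5, nat_lit 933)])],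
 ⟨p078_k7, nat_lit 0, nat_lit 0, nat_lit 322, nat_lit 0, nat_lit 266443, [nat_lit 1932822201, nat_lit 1195052901, nat_lit 283462000], [], [nat_lit 18655921258, nat_lit 19697357898, nat_lit 20667177938, nat_lit 21586035258, nat_lit 18923376818, nat_lit 19816389778, nat_lit 21262418523, nat_lit 21472899798], nat_lit 1271250, nat_lit 1271250, nat_lit 1100001, nat_lit 1785000, nat_lit 0, nat_lit 1100001, [nat_lit 490000, nat_lit 1427500, nat_lit 1271250], [nat_lit 61, nat_lit 40, nat_lit 40, nat_lit 80, nat_lit 1, nat_lit 317, nat_lit 100, nat_lit 9]⟩, ⟨p078_k9, nat_lit 0, nat_lit 0, nat_lit 621, nat_lit 0, nat_lit 549282, [nat_lit 418750000, nat_lit 795424000, nat_lit 941886000], [], [nat_lit 3225880432, nat_lit 3230792852, nat_lit 3136492812, nat_lit 3114080188, nat_lit 4623494974, nat_lit 3392845864, nat_lit 2311997432, nat_lit 2289153148], nat_lit 1271250, nat_lit 1271250, nat_lit 1271250, nat_lit 1271250, nat_lit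 0, nat_lit 2542500, [nat_lit 1412500, nat_lit 1271250, nat_lit 1271250], [nat_lit 137, nat_lit 40, nat_lit 40, nat_lit 80, nat_lit 58, nat_lit 456, nat_lit 225, nat_lit 11]⟩,
 ⟨nat_lit 3872, nat_lit 4473, ⟨.ofNat (nat_lit 432013), .ofNat (nat_lit 567977), .ofNat (nat_lit 475111), .ofNat (nat_lit 611083), .ofNat (nat_lit 435470), .ofNat (nat_lit 564520), .ofNat (nat_lit 479021), .ofNat (nat_lit 608080)⟩, ⟨.negSucc (nat_lit 12427), .ofNat (nat_lit 259489), .ofNat (nat_lit 0), .ofNat (nat_lit 302621), .ofNat (nat_lit 0), .ofNat (nat_lit 261131), .ofNat (nat_lit 0), .ofNat (nat_lit 304717)⟩⟩, [⟨nat_lit 22, nat_lit 100, nat_lit 60, nat_lit 80, nat_lit 2053927⟩]⟩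
noncomputable def p078_l63 : Lf2 := ⟨nat_lit 0, nat_lit 20, [nat_lit 5, nat_lit 5, nat_lit 5, nat_lit 20], false, nat_lit 0, nat_lit 160, nat_lit 0, nat_lit 360, ⟨nat_lit 100, nat_lit 83, nat_lit 817, nat_lit 5, nat_lit 209, nat_lit 900, nat_lit 57, nat_lit 816, nat_lit 30817, nat_lit 258, nat_lit 5723, nat_lit 210, nat_lit 52655659, nat_lit 14344341, nat_lit 0, nat_lit 2596656, false, false⟩,
 nat_lit 2989, nat_lit 523, nat_lit 0, nat_lit 0, nat_lit 2843, nat_lit 1281, nat_lit 0, nat_lit 0, nat_lit 0, nat_lit 33, nat_lit 0, nat_lit 0, nat_lit 0, nat_lit 0, nat_lit 80, nat_lit 347550, nat_lit 0, nat_lit 0, [(nat_lit 22, [(nat_lit 0, nat_lit 83), (nat_lit 5, nat_lit 817)])],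
 ⟨p078_k8, nat_lit 0, nat_lit 0, nat_lit 316, nat_lit 0, nat_lit 363001, [nat_lit 1770736001, nat_lit 715338200, nat_lit 17069200], [], [nat_lit 19268087663, nat_lit 20364558703, nat_lit 21337489925, nat_lit 22775197644, nat_lit 19753206069, nat_lit 20697872380, nat_lit 21810927068, nat_lit 22841673868], nat_lit 1271250, nat_lit 1271250, nat_lit 1100001, nat_lit 1785000, nat_lit 0, nat_lit 1100001, [nat_lit 490000, nat_lit 1427500, nat_lit 1271250], [nat_lit 102, nat_lit 40, nat_lit 40, nat_lit 80, nat_lit 2, nat_lit 317, nat_lit 100, nat_lit 10]⟩, ⟨p078_k9, nat_lit 0, nat_lit 0, nat_lit 757, nat_lit 0, nat_lit 821599, [nat_lit 625000000, nat_lit 1187200000, nat_lit 1405800000], [], [nat_lit 4839958272, nat_lit 4805907248, nat_lit 4705343580, nat_lit 4714409608, nat_lit 5936453170, nat_lit 4760866660, nat_lit 3652068836, nat_lit 3592967530], nat_lit 1271250, nat_lit 1271250, nat_lit 1271250, nat_lit 1271250, nat_lit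 0, nat_lit 2542500, [nat_lit 1412500, nat_lit 1271250, nat_lit 1271250], [nat_lit 137, nat_lit 40, nat_lit 40, nat_lit 80, nat_lit 58, nat_lit 456, nat_lit 225, nat_lit 11]⟩,
 ⟨nat_lit 3162, nat_lit 3873, ⟨.ofNat (nat_lit 435446), .ofNat (nat_lit 564520), .ofNat (nat_lit 478975), .ofNat (nat_lit 608082), .ofNat (nat_lit 439014), .ofNat (nat_lit 560952), .ofNat (nat_lit 483267), .ofNat (nat_lit 605237)⟩, ⟨.ofNat (nat_lit 0), .ofNat (nat_lit 261131), .ofNat (nat_lit 0), .ofNat (nat_lit 304717), .ofNat (nat_lit 0), .ofNat (nat_lit 261806), .ofNat (nat_lit 0), .ofNat (nat_lit 306116)⟩⟩, [⟨nat_lit 7, nat_lit 77, nat_lit 100, nat_lit 72, nat_lit 5503189⟩]⟩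
noncomputable def p078_l64 : Lf2 := ⟨nat_lit 0, nat_lit 20, [nat_lit 5, nat_lit 5, nat_lit 5, nat_lit 20], false, nat_lit 160, nat_lit 260, nat_lit 0, nat_lit 360, ⟨nat_lit 0, nat_lit 0, nat_lit 1000, nat_lit 5, nat_lit 169, nat_lit 1000, nat_lit 146, nat_lit 1000, nat_lit 89743, nat_lit 288, nat_lit 817, nat_lit 208, nat_lit 48904036, nat_lit 0, nat_lit 0, nat_lit 4118323, false, false⟩,
 nat_lit 0, nat_lit 5583, nat_lit 0, nat_lit 0, nat_lit 4187, nat_lit 0, nat_lit 0, nat_lit 0, nat_lit 0, nat_lit 0, nat_lit 0, nat_lit 0, nat_lit 0, nat_lit 0, nat_lit 82, nat_lit 253150, nat_lit 0, nat_lit 0, [(nat_lit 19, [(nat_lit 4, nat_lit 979), (nat_lit 5, nat_lit 21)])],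
 ⟨p078_k28, nat_lit 0, nat_lit 0, nat_lit 283, nat_lit 0, nat_lit 266443, [nat_lit 2172434400, nat_lit 174575200], [], [nat_lit 17636805952, nat_lit 19044828932, nat_lit 19490390052, nat_lit 20945989140, nat_lit 20820937732, nat_lit 22551246595, nat_lit 24396892882, nat_lit 24140590667], nat_lit 1271250, nat_lit 1271250, nat_lit 230001, nat_lit 1717500, nat_lit 1100001, nat_lit 1956250, [nat_lit 490000, nat_lit 2052500], [nat_lit 94, nat_lit 40, nat_lit 40, nat_lit 80, nat_lit 95, nat_lit 345, nat_lit 125, nat_lit 9]⟩, ⟨p078_k31, nat_lit 0, nat_lit 0, nat_lit 713, nat_lit 0, nat_lit 549282, [nat_lit 0, nat_lit 0], [], [nat_lit 0, nat_lit 0, nat_lit 0, nat_lit 0, nat_lit 0, nat_lit 0, nat_lit 0, nat_lit 0], nat_lit 1271250, nat_lit 1271250, nat_lit 230001, nat_lit 1717500, nat_lit 0, nat_lit 2542500, [nat_lit 1412500, nat_lit 1271250], [nat_lit 149, nat_lit 40, nat_lit 40, nat_lit 80, nat_lit 68, nat_lit 456, nat_lit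 225, nat_lit 11]⟩,
 ⟨nat_lit 3872, nat_lit 4473, ⟨.ofNat (nat_lit 228056), .ofNat (nat_lit 567977), .ofNat (nat_lit 271153), .ofNat (nat_lit 611083), .ofNat (nat_lit 241882), .ofNat (nat_lit 564520), .ofNat (nat_lit 285433), .ofNat (nat_lit 608080)⟩, ⟨.ofNat (nat_lit 259489), .ofNat (nat_lit 429434), .ofNat (nat_lit 302621), .ofNat (nat_lit 472567), .ofNat (nat_lit 261131), .ofNat (nat_lit 422435), .ofNat (nat_lit 304717), .ofNat (nat_lit 466021)⟩⟩, [⟨nat_lit 4, nat_lit 100, nat_lit 76, nat_lit 72, nat_lit 313705910⟩]⟩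
noncomputable def p078_l65 : Lf2 := ⟨nat_lit 0, nat_lit 20, [nat_lit 5, nat_lit 5, nat_lit 5, nat_lit 20], false, nat_lit 160, nat_lit 232, nat_lit 0, nat_lit 360, ⟨nat_lit 0, nat_lit 285, nat_lit 715, nat_lit 5, nat_lit 176, nat_lit 1000, nat_lit 136, nat_lit 715, nat_lit 173400, nat_lit 317, nat_lit 600, nat_lit 209, nat_lit 49034076, nat_lit 10772052, nat_lit 7193872, nat_lit 4077087, false, false⟩,
 nat_lit 0, nat_lit 4609, nat_lit 0, nat_lit 0, nat_lit 3731, nat_lit 0, nat_lit 0, nat_lit 0, nat_lit 0, nat_lit 0, nat_lit 0, nat_lit 0, nat_lit 0, nat_lit 0, nat_lit 36, nat_lit 250000, nat_lit 0, nat_lit 0, [(nat_lit 22, [(nat_lit 0, nat_lit 285), (nat_lit 4, nat_lit 715)])],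
 ⟨p078_k32, nat_lit 0, nat_lit 0, nat_lit 257, nat_lit 0, nat_lit 363001, [nat_lit 1801088001, nat_lit 21420000], [], [nat_lit 18844772983, nat_lit 20032364353, nat_lit 21329945915, nat_lit 22259282892, nat_lit 20694568045, nat_lit 22024075667, nat_lit 24258496865, nat_lit 24133235973], nat_lit 1271250, nat_lit 1271250, nat_lit 330400, nat_lit 1726500, nat_lit 1100001, nat_lit 1716500, [nat_lit 490000, nat_lit 1740000], [nat_lit 110, nat_lit 40, nat_lit 40, nat_lit 80, nat_lit 109, nat_lit 345, nat_lit 125, nat_lit 11]⟩, ⟨p078_k31, nat_lit 0, nat_lit 0, nat_lit 798, nat_lit 0, nat_lit 821599, [nat_lit 0, nat_lit 0], [], [nat_lit 0, nat_lit 0, nat_lit 0, nat_lit 0, nat_lit 0, nat_lit 0, nat_lit 0, nat_lit 0], nat_lit 1271250, nat_lit 1271250, nat_lit 330400, nat_lit 1726500, nat_lit 0, nat_lit 2542500, [nat_lit 1412500, nat_lit 1271250], [nat_lit 149, nat_lit 40, nat_lit 40, nat_lit 80, nat_lit 68, nat_lit 456,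 nat_lit 225, nat_lit 11]⟩,
 ⟨nat_lit 3162, nat_lit 3873, ⟨.ofNat (nat_lit 267606), .ofNat (nat_lit 564520), .ofNat (nat_lit 311135), .ofNat (nat_lit 608082), .ofNat (nat_lit 280451), .ofNat (nat_lit 560952), .ofNat (nat_lit 324704), .ofNat (nat_lit 605237)⟩, ⟨.ofNat (nat_lit 261131), .ofNat (nat_lit 377270), .ofNat (nat_lit 304717), .ofNat (nat_lit 420856), .ofNat (nat_lit 261806), .ofNat (nat_lit 371522), .ofNat (nat_lit 306116), .ofNat (nat_lit 415832)⟩⟩, [⟨nat_lit 4, nat_lit 100, nat_lit 66, nat_lit 72, nat_lit 385383276⟩]⟩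
noncomputable def b_V_800_500_10_14 : St := ⟨true, nat_lit 1, nat_lit 1, nat_lit 1, nat_lit 80, nat_lit 320, nat_lit 360, nat_lit 200, nat_lit 240, nat_lit 40, nat_lit 240, nat_lit 40, nat_lit 80, nat_lit 0, nat_lit 260, nat_lit 0, nat_lit 360, nat_lit 40, nat_lit 80, nat_lit 0, nat_lit 0, nat_lit 0, nat_lit 0⟩
theorem d_V_800_500_10_14 (h : EB TB.env) : Dead b_V_800_500_10_14 := chkB_sound0 h (T :=
(.spl (nat_lit 4) (nat_lit 160)
(.spl (nat_lit 2) (nat_lit 160)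
(.leaf p078_l61)
(.spl (nat_lit 0) (nat_lit 340)
(.leaf p078_l62)
(.leaf p078_l63)))
(.spl (nat_lit 0) (nat_lit 340)
(.leaf p078_l64)
(.trZ (nat_lit 0) (nat_lit 100) (nat_lit 71) (nat_lit 70) (nat_lit 56) (.trX (nat_lit 16) (nat_lit 72) (nat_lit 100) (nat_lit 81) (nat_lit 232) (.leaf p078_l65)))))) (by decide +kernel)
noncomputable def p078_l66 : Lf2 := ⟨nat_lit 0, nat_lit 20, [nat_lit 5, nat_lit 5, nat_lit 5, nat_lit 20], false, nat_lit 0, nat_lit 160, nat_lit 0, nat_lit 360, ⟨nat_lit 296, nat_lit 0, nat_lit 704, nat_lit 6, nat_lit 258, nat_lit 704, nat_lit 56, nat_lit 704, nat_lit 29400, nat_lit 257, nat_lit 179748, nat_lit 200, nat_lit 47313830, nat_lit 0, nat_lit 0, nat_lit 3027697, true, true⟩,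
 nat_lit 6724, nat_lit 0, nat_lit 0, nat_lit 0, nat_lit 3446, nat_lit 2881, nat_lit 165, nat_lit 0, nat_lit 0, nat_lit 238, nat_lit 0, nat_lit 0, nat_lit 0, nat_lit 0, nat_lit 0, nat_lit 281600, nat_lit 0, nat_lit 0, [(nat_lit 19, [(nat_lit 5, nat_lit 704)])],
 ⟨p078_k4, nat_lit 0, nat_lit 0, nat_lit 279, nat_lit 0, nat_lit 157165, [nat_lit 1255347201, nat_lit 1081830400, nat_lit 559056000], [], [nat_lit 22277411913, nat_lit 22845428651, nat_lit 25522736041, nat_lit 25999321187, nat_lit 21489925386, nat_lit 21890176772, nat_lit 23924640465, nat_lit 24340613453], nat_lit 1271250, nat_lit 1271250, nat_lit 1271250, nat_lit 1271250, nat_lit 0, nat_lit 1100001, [nat_lit 490000, nat_lit 1100000, nat_lit 2127500], [nat_lit 27, nat_lit 40, nat_lit 40, nat_lit 80, nat_lit 13, nat_lit 345, nat_lit 125, nat_lit 9]⟩, ⟨p078_k5, nat_lit 0, nat_lit 0, nat_lit 456, nat_lit 0, nat_lit 324000, [nat_lit 1850000000, nat_lit 2913232000,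 nat_lit 4161168000], [], [nat_lit 12205664196, nat_lit 12245954802, nat_lit 12845847504, nat_lit 12843820754, nat_lit 11099515880, nat_lit 10265697150, nat_lit 10591336770, nat_lit 10546100921], nat_lit 1271250, nat_lit 1271250, nat_lit 1271250, nat_lit 1271250, nat_lit 0, nat_lit 2542500, [nat_lit 1412500, nat_lit 1271250, nat_lit 1271250], [nat_lit 60, nat_lit 40, nat_lit 40, nat_lit 80, nat_lit 32, nat_lit 456, nat_lit 225, nat_lit 10]⟩,
 ⟨nat_lit 4183, nat_lit 4473, ⟨.ofNat (nat_lit 567977), .ofNat (nat_lit 703933), .ofNat (nat_lit 589541), .ofNat (nat_lit 725499), .ofNat (nat_lit 566254), .ofNat (nat_lit 698765), .ofNat (nat_lit 587919), .ofNat (nat_lit 720431)⟩, ⟨.negSucc (nat_lit 12423), .ofNat (nat_lit 259489), .ofNat (nat_lit 0), .ofNat (nat_lit 302621), .negSucc (nat_lit 4612), .ofNat (nat_lit 260409), .ofNat (nat_lit 0), .ofNat (nat_lit 303743)⟩⟩, [⟨nat_lit 22, nat_lit 100, nat_lit 95, nat_lit 87, nat_lit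 29612769⟩]⟩
noncomputable def p078_l67 : Lf2 := ⟨nat_lit 0, nat_lit 20, [nat_lit 5, nat_lit 5, nat_lit 5, nat_lit 20], false, nat_lit 0, nat_lit 160, nat_lit 0, nat_lit 360, ⟨nat_lit 232, nat_lit 181, nat_lit 587, nat_lit 6, nat_lit 257, nat_lit 768, nat_lit 56, nat_lit 587, nat_lit 29400, nat_lit 257, nat_lit 169614, nat_lit 200, nat_lit 47460440, nat_lit 19539560, nat_lit 0, nat_lit 3018045, true, true⟩,
 nat_lit 5619, nat_lit 0, nat_lit 0, nat_lit 0, nat_lit 3394, nat_lit 2408, nat_lit 156, nat_lit 0, nat_lit 0, nat_lit 213, nat_lit 0, nat_lit 0, nat_lit 0, nat_lit 0, nat_lit 0, nat_lit 307200, nat_lit 0, nat_lit 0, [(nat_lit 19, [(nat_lit 1, nat_lit 181), (nat_lit 5, nat_lit 587)])],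
 ⟨p078_k27, nat_lit 0, nat_lit 0, nat_lit 298, nat_lit 0, nat_lit 214561, [nat_lit 1269691734, nat_lit 1201428800, nat_lit 652008000], [], [nat_lit 22857267014, nat_lit 23421596796, nat_lit 25997669918, nat_lit 26560472992, nat_lit 22326549304, nat_lit 22702519824, nat_lit 24495860842, nat_lit 24820096356], nat_lit 1271250, nat_lit 1271250, nat_lit 1271250, nat_lit 1271250, nat_lit 0, nat_lit 1100001, [nat_lit 490000, nat_lit 1100000, nat_lit 2127500], [nat_lit 27, nat_lit 40, nat_lit 40, nat_lit 80, nat_lit 13, nat_lit 345, nat_lit 125, nat_lit 9]⟩, ⟨p078_k5, nat_lit 0, nat_lit 0, nat_lit 555, nat_lit 0, nat_lit 463783, [nat_lit 1450000000, nat_lit 2283344000, nat_lit 3261456000], [], [nat_lit 9210219630, nat_lit 9226466926, nat_lit 9615691964, nat_lit 9609655296, nat_lit 8626893088, nat_lit 7876756480, nat_lit 8060443168, nat_lit 8012373456], nat_lit 1271250, nat_lit 1271250, nat_lit 1271250, nat_lit 1271250,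 nat_lit 0, nat_lit 2542500, [nat_lit 1412500, nat_lit 1271250, nat_lit 1271250], [nat_lit 60, nat_lit 40, nat_lit 40, nat_lit 80, nat_lit 32, nat_lit 456, nat_lit 225, nat_lit 10]⟩,
 ⟨nat_lit 3872, nat_lit 4184, ⟨.ofNat (nat_lit 566254), .ofNat (nat_lit 698765), .ofNat (nat_lit 587919), .ofNat (nat_lit 720432), .ofNat (nat_lit 564520), .ofNat (nat_lit 693563), .ofNat (nat_lit 586312), .ofNat (nat_lit 715356)⟩, ⟨.negSucc (nat_lit 4619), .ofNat (nat_lit 260409), .ofNat (nat_lit 0), .ofNat (nat_lit 303743), .ofNat (nat_lit 0), .ofNat (nat_lit 261131), .ofNat (nat_lit 0), .ofNat (nat_lit 304717)⟩⟩, [⟨nat_lit 22, nat_lit 100, nat_lit 95, nat_lit 87, nat_lit 26462113⟩]⟩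
noncomputable def p078_l68 : Lf2 := ⟨nat_lit 0, nat_lit 20, [nat_lit 5, nat_lit 5, nat_lit 5, nat_lit 20], false, nat_lit 0, nat_lit 160, nat_lit 0, nat_lit 348, ⟨nat_lit 326, nat_lit 0, nat_lit 674, nat_lit 6, nat_lit 266, nat_lit 674, nat_lit 56, nat_lit 674, nat_lit 29400, nat_lit 257, nat_lit 222856, nat_lit 200, nat_lit 46455750, nat_lit 0, nat_lit 0, nat_lit 3081889, true, true⟩,
 nat_lit 6693, nat_lit 0, nat_lit 0, nat_lit 0, nat_lit 3504, nat_lit 3201, nat_lit 194, nat_lit 0, nat_lit 0, nat_lit 333, nat_lit 0, nat_lit 0, nat_lit 0, nat_lit 0, nat_lit 0, nat_lit 269600, nat_lit 0, nat_lit 0, [(nat_lit 19, [(nat_lit 5, nat_lit 674)])],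
 ⟨p078_k4, nat_lit 0, nat_lit 0, nat_lit 313, nat_lit 0, nat_lit 266443, [nat_lit 1288443201, nat_lit 1235502401, nat_lit 954636000], [], [nat_lit 22430898669, nat_lit 23550385786, nat_lit 25667597034, nat_lit 26803393472, nat_lit 21948676109, nat_lit 22708664749, nat_lit 24182480013, nat_lit 24836666861], nat_lit 1271250, nat_lit 1271250, nat_lit 1271250, nat_lit 1271250, nat_lit 0, nat_lit 1100001, [nat_lit 490000, nat_lit 1100000, nat_lit 2127500], [nat_lit 27, nat_lit 40, nat_lit 40, nat_lit 80, nat_lit 13, nat_lit 345, nat_lit 125, nat_lit 9]⟩, ⟨p078_k6, nat_lit 0, nat_lit 0, nat_lit 554, nat_lit 0, nat_lit 473940, [nat_lit 2037500000, nat_lit 3208492000, nat_lit 4582908000], [], [nat_lit 11553369434, nat_lit 11583535972, nat_lit 12274465550, nat_lit 12310622940, nat_lit 10442716067, nat_lit 9904900742, nat_lit 10426218988, nat_lit 10431216629], nat_lit 1271250, nat_lit 1271250, nat_lit 1271250, nat_lit 1271250,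 nat_lit 0, nat_lit 2457750, [nat_lit 1412500, nat_lit 1271250, nat_lit 1271250], [nat_lit 60, nat_lit 40, nat_lit 40, nat_lit 80, nat_lit 32, nat_lit 483, nat_lit 250, nat_lit 11]⟩,
 ⟨nat_lit 3872, nat_lit 4473, ⟨.ofNat (nat_lit 589534), .ofNat (nat_lit 725499), .ofNat (nat_lit 611083), .ofNat (nat_lit 747053), .ofNat (nat_lit 586304), .ofNat (nat_lit 715356), .ofNat (nat_lit 608080), .ofNat (nat_lit 737137)⟩, ⟨.negSucc (nat_lit 12427), .ofNat (nat_lit 259489), .ofNat (nat_lit 0), .ofNat (nat_lit 302621), .ofNat (nat_lit 0), .ofNat (nat_lit 261131), .ofNat (nat_lit 0), .ofNat (nat_lit 304717)⟩⟩, [⟨nat_lit 7, nat_lit 81, nat_lit 100, nat_lit 72, nat_lit 10119303⟩, ⟨nat_lit 22, nat_lit 100, nat_lit 95, nat_lit 87, nat_lit 32638204⟩]⟩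
noncomputable def p078_l69 : Lf2 := ⟨nat_lit 0, nat_lit 20, [nat_lit 5, nat_lit 5, nat_lit 5, nat_lit 20], false, nat_lit 0, nat_lit 80, nat_lit 0, nat_lit 260, ⟨nat_lit 364, nat_lit 636, nat_lit 0, nat_lit 8, nat_lit 301, nat_lit 636, nat_lit 30, nat_lit 0, nat_lit 0, nat_lit 0, nat_lit 0, nat_lit 0, nat_lit 42770983, nat_lit 24229017, nat_lit 0, nat_lit 3271742, true, true⟩,
 nat_lit 8252, nat_lit 0, nat_lit 0, nat_lit 0, nat_lit 3712, nat_lit 3536, nat_lit 133, nat_lit 0, nat_lit 0, nat_lit 306, nat_lit 0, nat_lit 0, nat_lit 0, nat_lit 0, nat_lit 0, nat_lit 636000, nat_lit 0, nat_lit 0, [(nat_lit 19, [(nat_lit 2, nat_lit 636)])],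
 ⟨p078_k4, nat_lit 0, nat_lit 0, nat_lit 310, nat_lit 0, nat_lit 224970, [nat_lit 1820000001, nat_lit 2374825600, nat_lit 1577307200], [], [nat_lit 28042281643, nat_lit 28812148283, nat_lit 30080230271, nat_lit 30762216549, nat_lit 26785105355, nat_lit 27513521115, nat_lit 28713428674, nat_lit 29436459177], nat_lit 1271250, nat_lit 1271250, nat_lit 1271250, nat_lit 1271250, nat_lit 0, nat_lit 490000, [nat_lit 490000, nat_lit 1100000, nat_lit 2127500], [nat_lit 27, nat_lit 40, nat_lit 40, nat_lit 80, nat_lit 13, nat_lit 226, nat_lit 20, nat_lit 6]⟩, ⟨p078_k5, nat_lit 0, nat_lit 0, nat_lit 545, nat_lit 0, nat_lit 463783, [nat_lit 2275000000, nat_lit 3582488000, nat_lit 5117112000], [], [nat_lit 15732113084, nat_lit 15720702204, nat_lit 16408880949, nat_lit 16373397820, nat_lit 12760619092, nat_lit 12742607774, nat_lit 13314975648, nat_lit 13269136798], nat_lit 1271250, nat_lit 1271250, nat_lit 1271250, nat_lit 1271250,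 nat_lit 0, nat_lit 1836250, [nat_lit 1412500, nat_lit 1271250, nat_lit 1271250], [nat_lit 60, nat_lit 40, nat_lit 40, nat_lit 80, nat_lit 32, nat_lit 456, nat_lit 225, nat_lit 10]⟩,
 ⟨nat_lit 3872, nat_lit 4473, ⟨.ofNat (nat_lit 703933), .ofNat (nat_lit 792305), .ofNat (nat_lit 725499), .ofNat (nat_lit 813871), .ofNat (nat_lit 693563), .ofNat (nat_lit 777441), .ofNat (nat_lit 715356), .ofNat (nat_lit 799235)⟩, ⟨.negSucc (nat_lit 12427), .ofNat (nat_lit 123532), .ofNat (nat_lit 0), .ofNat (nat_lit 166665), .ofNat (nat_lit 0), .ofNat (nat_lit 132088), .ofNat (nat_lit 0), .ofNat (nat_lit 175674)⟩⟩, [⟨nat_lit 13, nat_lit 76, nat_lit 61, nat_lit 100, nat_lit 61724170⟩, ⟨nat_lit 22, nat_lit 73, nat_lit 100, nat_lit 47, nat_lit 7467536⟩]⟩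
noncomputable def p078_l70 : Lf2 := ⟨nat_lit 0, nat_lit 20, [nat_lit 5, nat_lit 5, nat_lit 5, nat_lit 20], false, nat_lit 80, nat_lit 160, nat_lit 0, nat_lit 336, ⟨nat_lit 257, nat_lit 743, nat_lit 0, nat_lit 8, nat_lit 301, nat_lit 743, nat_lit 86, nat_lit 0, nat_lit 0, nat_lit 0, nat_lit 0, nat_lit 0, nat_lit 40430965, nat_lit 23313728, nat_lit 3255307, nat_lit 4305452, true, true⟩,
 nat_lit 6263, nat_lit 0, nat_lit 0, nat_lit 0, nat_lit 4696, nat_lit 2683, nat_lit 260, nat_lit 0, nat_lit 0, nat_lit 218, nat_lit 0, nat_lit 0, nat_lit 0, nat_lit 0, nat_lit 0, nat_lit 297200, nat_lit 0, nat_lit 0, [(nat_lit 19, [(nat_lit 1, nat_lit 743)])],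
 ⟨p078_k4, nat_lit 0, nat_lit 0, nat_lit 212, nat_lit 0, nat_lit 224970, [nat_lit 1561037067, nat_lit 2718752800, nat_lit 3890570000], [], [nat_lit 25950910628, nat_lit 26896878532, nat_lit 28601374792, nat_lit 29492846353, nat_lit 25763488420, nat_lit 26566815220, nat_lit 28100731966, nat_lit 28911042203], nat_lit 1271250, nat_lit 1271250, nat_lit 1271250, nat_lit 1271250, nat_lit 490000, nat_lit 1100001, [nat_lit 490000, nat_lit 1100000, nat_lit 2127500], [nat_lit 27, nat_lit 40, nat_lit 40, nat_lit 80, nat_lit 13, nat_lit 249, nat_lit 40, nat_lit 6]⟩, ⟨p078_k5, nat_lit 0, nat_lit 0, nat_lit 545, nat_lit 0, nat_lit 463783, [nat_lit 1606250000, nat_lit 2529394000, nat_lit 3612906000], [], [nat_lit 10919777564, nat_lit 10910434966, nat_lit 11512266237, nat_lit 11530864232, nat_lit 8719930161, nat_lit 8682219968, nat_lit 9325792136, nat_lit 9300254924], nat_lit 1271250, nat_lit 1271250, nat_lit 1271250, nat_lit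 1271250, nat_lit 0, nat_lit 2373000, [nat_lit 1412500, nat_lit 1271250, nat_lit 1271250], [nat_lit 60, nat_lit 40, nat_lit 40, nat_lit 80, nat_lit 32, nat_lit 483, nat_lit 250, nat_lit 11]⟩,
 ⟨nat_lit 3872, nat_lit 4473, ⟨.ofNat (nat_lit 703933), .ofNat (nat_lit 792305), .ofNat (nat_lit 725499), .ofNat (nat_lit 813871), .ofNat (nat_lit 693563), .ofNat (nat_lit 777441), .ofNat (nat_lit 715356), .ofNat (nat_lit 799235)⟩, ⟨.ofNat (nat_lit 123532), .ofNat (nat_lit 259489), .ofNat (nat_lit 166665), .ofNat (nat_lit 302621), .ofNat (nat_lit 132088), .ofNat (nat_lit 261131), .ofNat (nat_lit 175674), .ofNat (nat_lit 304717)⟩⟩, [⟨nat_lit 13, nat_lit 76, nat_lit 61, nat_lit 100, nat_lit 161902433⟩, ⟨nat_lit 22, nat_lit 73, nat_lit 100, nat_lit 97, nat_lit 21965007⟩]⟩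
noncomputable def p078_l71 : Lf2 := ⟨nat_lit 0, nat_lit 20, [nat_lit 5, nat_lit 5, nat_lit 5, nat_lit 20], false, nat_lit 0, nat_lit 160, nat_lit 0, nat_lit 336, ⟨nat_lit 1000, nat_lit 0, nat_lit 0, nat_lit 0, nat_lit 0, nat_lit 0, nat_lit 0, nat_lit 0, nat_lit 0, nat_lit 0, nat_lit 0, nat_lit 0, nat_lit 0, nat_lit 0, nat_lit 0, nat_lit 0, false, false⟩,
 nat_lit 8574, nat_lit 0, nat_lit 9878, nat_lit 0, nat_lit 6430, nat_lit 8824, nat_lit 751, nat_lit 0, nat_lit 0, nat_lit 1063, nat_lit 0, nat_lit 0, nat_lit 0, nat_lit 0, nat_lit 0, nat_lit 0, nat_lit 0, nat_lit 0, [],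
 ⟨p078_k4, nat_lit 0, nat_lit 0, nat_lit 305, nat_lit 0, nat_lit 202537, [nat_lit 2032000001, nat_lit 4688000000, nat_lit 9842000000], [], [nat_lit 31363473480, nat_lit 32314275860, nat_lit 37624772648, nat_lit 38377428816, nat_lit 25928853475, nat_lit 26388553060, nat_lit 30572869121, nat_lit 31228503768], nat_lit 1271250, nat_lit 1271250, nat_lit 1271250, nat_lit 1271250, nat_lit 0, nat_lit 1100001, [nat_lit 490000, nat_lit 1100000, nat_lit 2127500], [nat_lit 27, nat_lit 40, nat_lit 40, nat_lit 80, nat_lit 13, nat_lit 249, nat_lit 40, nat_lit 6]⟩, ⟨p078_k6, nat_lit 0, nat_lit 0, nat_lit 467, nat_lit 0, nat_lit 360266, [nat_lit 6250000000, nat_lit 9842000000, nat_lit 14058000000], [], [nat_lit 37423566618, nat_lit 37614604314, nat_lit 41062092741, nat_lit 41269505413, nat_lit 33005929292, nat_lit 33052441535, nat_lit 35303418042, nat_lit 35242785023], nat_lit 1271250, nat_lit 1271250, nat_lit 1271250, nat_lit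 1271250, nat_lit 0, nat_lit 2373000, [nat_lit 1412500, nat_lit 1271250, nat_lit 1271250], [nat_lit 60, nat_lit 40, nat_lit 40, nat_lit 80, nat_lit 32, nat_lit 483, nat_lit 250, nat_lit 11]⟩,
 zbF0, [⟨nat_lit 22, nat_lit 65, nat_lit 100, nat_lit 80, nat_lit 15267371⟩, ⟨nat_lit 10, nat_lit 73, nat_lit 65, nat_lit 100, nat_lit 141179593⟩]⟩
noncomputable def p078_l72 : Lf2 := ⟨nat_lit 0, nat_lit 20, [nat_lit 5, nat_lit 5, nat_lit 5, nat_lit 20], false, nat_lit 0, nat_lit 160, nat_lit 0, nat_lit 336, ⟨nat_lit 465, nat_lit 535, nat_lit 0, nat_lit 8, nat_lit 310, nat_lit 535, nat_lit 56, nat_lit 0, nat_lit 0, nat_lit 0, nat_lit 0, nat_lit 0, nat_lit 41877658, nat_lit 25122342, nat_lit 0, nat_lit 3307714, true, true⟩,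
 nat_lit 8816, nat_lit 0, nat_lit 0, nat_lit 0, nat_lit 4606, nat_lit 4216, nat_lit 441, nat_lit 0, nat_lit 0, nat_lit 444, nat_lit 0, nat_lit 0, nat_lit 0, nat_lit 0, nat_lit 0, nat_lit 214000, nat_lit 0, nat_lit 0, [(nat_lit 19, [(nat_lit 1, nat_lit 535)])],
 ⟨p078_k27, nat_lit 0, nat_lit 0, nat_lit 318, nat_lit 0, nat_lit 254116, [nat_lit 1692881334, nat_lit 3270036000, nat_lit 5556650000], [], [nat_lit 28667032582, nat_lit 29237015008, nat_lit 32799411411, nat_lit 33451257128, nat_lit 26284157286, nat_lit 26628583591, nat_lit 28570685243, nat_lit 29081463485], nat_lit 1271250, nat_lit 1271250, nat_lit 1271250, nat_lit 1271250, nat_lit 0, nat_lit 1100001, [nat_lit 490000, nat_lit 1100000, nat_lit 2127500], [nat_lit 27, nat_lit 40, nat_lit 40, nat_lit 80, nat_lit 13, nat_lit 249, nat_lit 40, nat_lit 6]⟩, ⟨p078_k6, nat_lit 0, nat_lit 0, nat_lit 543, nat_lit 0, nat_lit 473940, [nat_lit 2906250000, nat_lit 4576530000,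 nat_lit 6536970000], [], [nat_lit 18339689146, nat_lit 18401427692, nat_lit 19445471732, nat_lit 19462291508, nat_lit 15629940558, nat_lit 15579178442, nat_lit 16223675326, nat_lit 16201512969], nat_lit 1271250, nat_lit 1271250, nat_lit 1271250, nat_lit 1271250, nat_lit 0, nat_lit 2373000, [nat_lit 1412500, nat_lit 1271250, nat_lit 1271250], [nat_lit 60, nat_lit 40, nat_lit 40, nat_lit 80, nat_lit 32, nat_lit 483, nat_lit 250, nat_lit 11]⟩,
 ⟨nat_lit 3872, nat_lit 4184, ⟨.ofNat (nat_lit 720432), .ofNat (nat_lit 813190), .ofNat (nat_lit 742098), .ofNat (nat_lit 834857), .ofNat (nat_lit 715356), .ofNat (nat_lit 805687), .ofNat (nat_lit 737149), .ofNat (nat_lit 827480)⟩, ⟨.negSucc (nat_lit 4619), .ofNat (nat_lit 260409), .ofNat (nat_lit 0), .ofNat (nat_lit 303743), .ofNat (nat_lit 0), .ofNat (nat_lit 261131), .ofNat (nat_lit 0), .ofNat (nat_lit 304717)⟩⟩, [⟨nat_lit 22, nat_lit 68, nat_lit 100, nat_lit 80, nat_lit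 29110404⟩, ⟨nat_lit 10, nat_lit 73, nat_lit 67, nat_lit 100, nat_lit 35433889⟩]⟩
noncomputable def p078_l73 : Lf2 := ⟨nat_lit 0, nat_lit 20, [nat_lit 5, nat_lit 5, nat_lit 5, nat_lit 20], false, nat_lit 0, nat_lit 80, nat_lit 0, nat_lit 336, ⟨nat_lit 152, nat_lit 341, nat_lit 507, nat_lit 6, nat_lit 252, nat_lit 848, nat_lit 32, nat_lit 507, nat_lit 9600, nat_lit 239, nat_lit 137670, nat_lit 200, nat_lit 47921517, nat_lit 19078483, nat_lit 0, nat_lit 2986933, true, true⟩,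
 nat_lit 3814, nat_lit 0, nat_lit 0, nat_lit 0, nat_lit 3087, nat_lit 1634, nat_lit 0, nat_lit 0, nat_lit 0, nat_lit 146, nat_lit 0, nat_lit 0, nat_lit 0, nat_lit 0, nat_lit 0, nat_lit 309350, nat_lit 0, nat_lit 0, [(nat_lit 22, [(nat_lit 0, nat_lit 199), (nat_lit 1, nat_lit 142), (nat_lit 5, nat_lit 507)])],
 ⟨p078_k13, nat_lit 0, nat_lit 0, nat_lit 293, nat_lit 0, nat_lit 321129, [nat_lit 1308620801, nat_lit 916702001, nat_lit 145230000], [], [nat_lit 24064382037, nat_lit 24892641919, nat_lit 26430680515, nat_lit 27173904300, nat_lit 23350014351, nat_lit 24131747335, nat_lit 25597857075, nat_lit 26281681011], nat_lit 1271250, nat_lit 1271250, nat_lit 1271250, nat_lit 1271250, nat_lit 0, nat_lit 490000, [nat_lit 490000, nat_lit 1100000, nat_lit 1785000], [nat_lit 34, nat_lit 40, nat_lit 40, nat_lit 80, nat_lit 7, nat_lit 226, nat_lit 20, nat_lit 7]⟩, ⟨p078_k5, nat_lit 0, nat_lit 0, nat_lit 658, nat_lit 0, nat_lit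 726828, [nat_lit 950000000, nat_lit 1495984000, nat_lit 2136816000], [], [nat_lit 5882343564, nat_lit 5886786524, nat_lit 6182989640, nat_lit 6179433346, nat_lit 5296032580, nat_lit 4927961334, nat_lit 5008232405, nat_lit 4993641788], nat_lit 1271250, nat_lit 1271250, nat_lit 1271250, nat_lit 1271250, nat_lit 0, nat_lit 2373000, [nat_lit 1412500, nat_lit 1271250, nat_lit 1271250], [nat_lit 60, nat_lit 40, nat_lit 40, nat_lit 80, nat_lit 32, nat_lit 456, nat_lit 225, nat_lit 10]⟩,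
 ⟨nat_lit 3162, nat_lit 3873, ⟨.ofNat (nat_lit 564520), .ofNat (nat_lit 693563), .ofNat (nat_lit 575417), .ofNat (nat_lit 704460), .ofNat (nat_lit 560952), .ofNat (nat_lit 682859), .ofNat (nat_lit 572029), .ofNat (nat_lit 693936)⟩, ⟨.ofNat (nat_lit 0), .ofNat (nat_lit 132088), .ofNat (nat_lit 0), .ofNat (nat_lit 175674), .ofNat (nat_lit 0), .ofNat (nat_lit 139899), .ofNat (nat_lit 0), .ofNat (nat_lit 184209)⟩⟩, [⟨nat_lit 22, nat_lit 93, nat_lit 100, nat_lit 25, nat_lit 47453040⟩]⟩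
noncomputable def p078_l74 : Lf2 := ⟨nat_lit 0, nat_lit 20, [nat_lit 5, nat_lit 5, nat_lit 5, nat_lit 20], false, nat_lit 0, nat_lit 80, nat_lit 0, nat_lit 336, ⟨nat_lit 195, nat_lit 271, nat_lit 534, nat_lit 6, nat_lit 257, nat_lit 805, nat_lit 32, nat_lit 534, nat_lit 9600, nat_lit 239, nat_lit 159462, nat_lit 200, nat_lit 47446904, nat_lit 19553096, nat_lit 0, nat_lit 3018941, true, true⟩,
 nat_lit 4331, nat_lit 0, nat_lit 0, nat_lit 0, nat_lit 3095, nat_lit 1962, nat_lit 0, nat_lit 0, nat_lit 0, nat_lit 180, nat_lit 0, nat_lit 0, nat_lit 0, nat_lit 0, nat_lit 0, nat_lit 308800, nat_lit 0, nat_lit 0, [(nat_lit 22, [(nat_lit 0, nat_lit 88), (nat_lit 1, nat_lit 183), (nat_lit 5, nat_lit 534)])],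
 ⟨p078_k13, nat_lit 0, nat_lit 0, nat_lit 296, nat_lit 0, nat_lit 332498, [nat_lit 1303995201, nat_lit 941501200, nat_lit 146824000], [], [nat_lit 24091607891, nat_lit 24920614061, nat_lit 26459082321, nat_lit 27193031500, nat_lit 23372385981, nat_lit 24154796021, nat_lit 25621257921, nat_lit 26297971681], nat_lit 1271250, nat_lit 1271250, nat_lit 1271250, nat_lit 1271250, nat_lit 0, nat_lit 490000, [nat_lit 490000, nat_lit 1100000, nat_lit 1785000], [nat_lit 34, nat_lit 40, nat_lit 40, nat_lit 80, nat_lit 7, nat_lit 226, nat_lit 20, nat_lit 7]⟩, ⟨p078_k33, nat_lit 0, nat_lit 0, nat_lit 644, nat_lit 0, nat_lit 697749, [nat_lit 1218750000, nat_lit 1919190000, nat_lit 2741310000], [], [nat_lit 7449359352, nat_lit 7457154576, nat_lit 7772159820, nat_lit 7767692304, nat_lit 6435964770, nat_lit 6234218836, nat_lit 6401939265, nat_lit 6390288125], nat_lit 1271250, nat_lit 1271250, nat_lit 1271250, nat_lit 1271250, nat_lit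 0, nat_lit 2373000, [nat_lit 1412500, nat_lit 1271250, nat_lit 1271250], [nat_lit 60, nat_lit 40, nat_lit 40, nat_lit 80, nat_lit 32, nat_lit 456, nat_lit 225, nat_lit 10]⟩,
 ⟨nat_lit 3162, nat_lit 3873, ⟨.ofNat (nat_lit 575417), .ofNat (nat_lit 704460), .ofNat (nat_lit 586313), .ofNat (nat_lit 715356), .ofNat (nat_lit 572029), .ofNat (nat_lit 693936), .ofNat (nat_lit 583107), .ofNat (nat_lit 705013)⟩, ⟨.ofNat (nat_lit 0), .ofNat (nat_lit 132088), .ofNat (nat_lit 0), .ofNat (nat_lit 175674), .ofNat (nat_lit 0), .ofNat (nat_lit 139899), .ofNat (nat_lit 0), .ofNat (nat_lit 184209)⟩⟩, [⟨nat_lit 10, nat_lit 100, nat_lit 70, nat_lit 61, nat_lit 23920499⟩, ⟨nat_lit 22, nat_lit 93, nat_lit 100, nat_lit 25, nat_lit 26758893⟩]⟩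
noncomputable def p078_l75 : Lf2 := ⟨nat_lit 0, nat_lit 20, [nat_lit 5, nat_lit 5, nat_lit 5, nat_lit 20], false, nat_lit 0, nat_lit 80, nat_lit 0, nat_lit 336, ⟨nat_lit 248, nat_lit 258, nat_lit 494, nat_lit 6, nat_lit 263, nat_lit 752, nat_lit 32, nat_lit 494, nat_lit 9600, nat_lit 239, nat_lit 203050, nat_lit 200, nat_lit 46737846, nat_lit 20262154, nat_lit 0, nat_lit 3064504, true, true⟩,
 nat_lit 4886, nat_lit 0, nat_lit 0, nat_lit 0, nat_lit 3195, nat_lit 2336, nat_lit 0, nat_lit 0, nat_lit 0, nat_lit 227, nat_lit 0, nat_lit 0, nat_lit 0, nat_lit 0, nat_lit 0, nat_lit 332600, nat_lit 0, nat_lit 0, [(nat_lit 22, [(nat_lit 1, nat_lit 258), (nat_lit 5, nat_lit 441), (nat_lit 6, nat_lit 53)])],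
 ⟨p078_k13, nat_lit 0, nat_lit 0, nat_lit 305, nat_lit 0, nat_lit 363001, [nat_lit 1324929601, nat_lit 1082699600, nat_lit 297136400], [], [nat_lit 24303489691, nat_lit 25141824461, nat_lit 26685663521, nat_lit 27432121500, nat_lit 23523589981, nat_lit 24314463221, nat_lit 25785327121, nat_lit 26468181681], nat_lit 1271250, nat_lit 1271250, nat_lit 1271250, nat_lit 1271250, nat_lit 0, nat_lit 490000, [nat_lit 490000, nat_lit 1100000, nat_lit 1785000], [nat_lit 34, nat_lit 40, nat_lit 40, nat_lit 80, nat_lit 7, nat_lit 226, nat_lit 20, nat_lit 7]⟩, ⟨p078_k6, nat_lit 0, nat_lit 0, nat_lit 645, nat_lit 0, nat_lit 708904, [nat_lit 1550000000, nat_lit 2440816000, nat_lit 3486384000], [], [nat_lit 9291526526, nat_lit 9316325886, nat_lit 9687737086, nat_lit 9687197716, nat_lit 7896946961, nat_lit 7887424635, nat_lit 8101884273, nat_lit 8074951456], nat_lit 1271250, nat_lit 1271250, nat_lit 1271250, nat_lit 1271250, nat_lit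 0, nat_lit 2373000, [nat_lit 1412500, nat_lit 1271250, nat_lit 1271250], [nat_lit 60, nat_lit 40, nat_lit 40, nat_lit 80, nat_lit 32, nat_lit 456, nat_lit 225, nat_lit 10]⟩,
 ⟨nat_lit 3162, nat_lit 3873, ⟨.ofNat (nat_lit 586313), .ofNat (nat_lit 715356), .ofNat (nat_lit 608082), .ofNat (nat_lit 737150), .ofNat (nat_lit 583107), .ofNat (nat_lit 705013), .ofNat (nat_lit 605237), .ofNat (nat_lit 727168)⟩, ⟨.ofNat (nat_lit 0), .ofNat (nat_lit 132088), .ofNat (nat_lit 0), .ofNat (nat_lit 175674), .ofNat (nat_lit 0), .ofNat (nat_lit 139899), .ofNat (nat_lit 0), .ofNat (nat_lit 184209)⟩⟩, [⟨nat_lit 10, nat_lit 100, nat_lit 70, nat_lit 61, nat_lit 53844391⟩]⟩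
noncomputable def p078_l76 : Lf2 := ⟨nat_lit 0, nat_lit 20, [nat_lit 5, nat_lit 5, nat_lit 5, nat_lit 20], false, nat_lit 80, nat_lit 160, nat_lit 0, nat_lit 360, ⟨nat_lit 172, nat_lit 282, nat_lit 546, nat_lit 6, nat_lit 255, nat_lit 828, nat_lit 88, nat_lit 546, nat_lit 72600, nat_lit 281, nat_lit 159462, nat_lit 200, nat_lit 44716546, nat_lit 18713952, nat_lit 3569502, nat_lit 4125480, true, true⟩,
 nat_lit 4044, nat_lit 0, nat_lit 0, nat_lit 0, nat_lit 3273, nat_lit 1733, nat_lit 0, nat_lit 0, nat_lit 0, nat_lit 133, nat_lit 0, nat_lit 0, nat_lit 0, nat_lit 0, nat_lit 7, nat_lit 328350, nat_lit 0, nat_lit 0, [(nat_lit 22, [(nat_lit 0, nat_lit 19), (nat_lit 1, nat_lit 263), (nat_lit 5, nat_lit 546)])],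
 ⟨p078_k13, nat_lit 0, nat_lit 0, nat_lit 243, nat_lit 0, nat_lit 332498, [nat_lit 1325451201, nat_lit 924399201, nat_lit 16996000], [], [nat_lit 21658782764, nat_lit 22587473666, nat_lit 24334648332, nat_lit 25300779364, nat_lit 22258296688, nat_lit 23103907766, nat_lit 24739930272, nat_lit 25547196212], nat_lit 1271250, nat_lit 1271250, nat_lit 1271250, nat_lit 1271250, nat_lit 490000, nat_lit 1100001, [nat_lit 490000, nat_lit 1100000, nat_lit 1785000], [nat_lit 34, nat_lit 40, nat_lit 40, nat_lit 80, nat_lit 7, nat_lit 249, nat_lit 40, nat_lit 7]⟩, ⟨p078_k5, nat_lit 0, nat_lit 0, nat_lit 668, nat_lit 0, nat_lit 752560, [nat_lit 1075000000, nat_lit 1692824000, nat_lit 2417976000], [], [nat_lit 7405481006, nat_lit 7387826252, nat_lit 7544734236, nat_lit 7529807442, nat_lit 6421142968, nat_lit 6162029735, nat_lit 6199385272, nat_lit 6149022345], nat_lit 1271250, nat_lit 1271250, nat_lit 1271250, nat_lit 1271250,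 nat_lit 0, nat_lit 2542500, [nat_lit 1412500, nat_lit 1271250, nat_lit 1271250], [nat_lit 60, nat_lit 40, nat_lit 40, nat_lit 80, nat_lit 32, nat_lit 456, nat_lit 225, nat_lit 10]⟩,
 ⟨nat_lit 3162, nat_lit 3873, ⟨.ofNat (nat_lit 564520), .ofNat (nat_lit 693563), .ofNat (nat_lit 586313), .ofNat (nat_lit 715356), .ofNat (nat_lit 560952), .ofNat (nat_lit 682859), .ofNat (nat_lit 583107), .ofNat (nat_lit 705013)⟩, ⟨.ofNat (nat_lit 132088), .ofNat (nat_lit 261131), .ofNat (nat_lit 175674), .ofNat (nat_lit 304717), .ofNat (nat_lit 139899), .ofNat (nat_lit 261806), .ofNat (nat_lit 184209), .ofNat (nat_lit 306116)⟩⟩, [⟨nat_lit 4, nat_lit 100, nat_lit 66, nat_lit 72, nat_lit 72273169⟩, ⟨nat_lit 19, nat_lit 100, nat_lit 74, nat_lit 72, nat_lit 19977280⟩]⟩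
noncomputable def p078_l77 : Lf2 := ⟨nat_lit 0, nat_lit 20, [nat_lit 5, nat_lit 5, nat_lit 5, nat_lit 20], false, nat_lit 80, nat_lit 160, nat_lit 0, nat_lit 348, ⟨nat_lit 218, nat_lit 136, nat_lit 646, nat_lit 6, nat_lit 263, nat_lit 782, nat_lit 88, nat_lit 646, nat_lit 72600, nat_lit 281, nat_lit 203050, nat_lit 200, nat_lit 43875489, nat_lit 19590044, nat_lit 3534467, nat_lit 4174432, true, true⟩,
 nat_lit 4247, nat_lit 0, nat_lit 0, nat_lit 0, nat_lit 3437, nat_lit 2031, nat_lit 0, nat_lit 0, nat_lit 0, nat_lit 199, nat_lit 0, nat_lit 0, nat_lit 0, nat_lit 0, nat_lit 0, nat_lit 262850, nat_lit 0, nat_lit 0, [(nat_lit 22, [(nat_lit 0, nat_lit 136), (nat_lit 4, nat_lit 197), (nat_lit 5, nat_lit 449)])],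
 ⟨p078_k13, nat_lit 0, nat_lit 0, nat_lit 253, nat_lit 0, nat_lit 363001, [nat_lit 1388214401, nat_lit 846696400, nat_lit 60979867], [], [nat_lit 21673850046, nat_lit 22625117021, nat_lit 24523981175, nat_lit 25522124916, nat_lit 22226851602, nat_lit 23162094685, nat_lit 24870655699, nat_lit 25698641028], nat_lit 1271250, nat_lit 1271250, nat_lit 1271250, nat_lit 1271250, nat_lit 490000, nat_lit 1100001, [nat_lit 490000, nat_lit 1100000, nat_lit 1785000], [nat_lit 34, nat_lit 40, nat_lit 40, nat_lit 80, nat_lit 7, nat_lit 249, nat_lit 40, nat_lit 7]⟩, ⟨p078_k6, nat_lit 0, nat_lit 0, nat_lit 645, nat_lit 0, nat_lit 708904, [nat_lit 1362500000, nat_lit 2145556000, nat_lit 3064644000], [], [nat_lit 8215725806, nat_lit 8238225086, nat_lit 8564186486, nat_lit 8562421716, nat_lit 7094852930, nat_lit 7083521941, nat_lit 7259275538, nat_lit 7233957130], nat_lit 1271250, nat_lit 1271250, nat_lit 1271250, nat_lit 1271250,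 nat_lit 0, nat_lit 2457750, [nat_lit 1412500, nat_lit 1271250, nat_lit 1271250], [nat_lit 60, nat_lit 40, nat_lit 40, nat_lit 80, nat_lit 32, nat_lit 483, nat_lit 250, nat_lit 11]⟩,
 ⟨nat_lit 3162, nat_lit 3873, ⟨.ofNat (nat_lit 586313), .ofNat (nat_lit 715356), .ofNat (nat_lit 608082), .ofNat (nat_lit 737150), .ofNat (nat_lit 583107), .ofNat (nat_lit 705013), .ofNat (nat_lit 605237), .ofNat (nat_lit 727168)⟩, ⟨.ofNat (nat_lit 132088), .ofNat (nat_lit 261131), .ofNat (nat_lit 175674), .ofNat (nat_lit 304717), .ofNat (nat_lit 139899), .ofNat (nat_lit 261806), .ofNat (nat_lit 184209), .ofNat (nat_lit 306116)⟩⟩, [⟨nat_lit 4, nat_lit 100, nat_lit 66, nat_lit 72, nat_lit 80693000⟩, ⟨nat_lit 19, nat_lit 100, nat_lit 81, nat_lit 72, nat_lit 31711061⟩]⟩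
noncomputable def p078_l78 : Lf2 := ⟨nat_lit 0, nat_lit 20, [nat_lit 5, nat_lit 5, nat_lit 5, nat_lit 20], false, nat_lit 0, nat_lit 80, nat_lit 0, nat_lit 260, ⟨nat_lit 276, nat_lit 724, nat_lit 0, nat_lit 8, nat_lit 293, nat_lit 724, nat_lit 31, nat_lit 0, nat_lit 0, nat_lit 0, nat_lit 0, nat_lit 0, nat_lit 43554955, nat_lit 23445045, nat_lit 0, nat_lit 3237003, true, true⟩,
 nat_lit 6659, nat_lit 0, nat_lit 0, nat_lit 0, nat_lit 3328, nat_lit 2853, nat_lit 0, nat_lit 0, nat_lit 0, nat_lit 250, nat_lit 0, nat_lit 0, nat_lit 0, nat_lit 0, nat_lit 0, nat_lit 607000, nat_lit 0, nat_lit 0, [(nat_lit 22, [(nat_lit 1, nat_lit 195), (nat_lit 2, nat_lit 529)])],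
 ⟨p078_k13, nat_lit 0, nat_lit 0, nat_lit 283, nat_lit 0, nat_lit 268094, [nat_lit 1563498667, nat_lit 1594111600, nat_lit 434979867], [], [nat_lit 27782907062, nat_lit 28147919470, nat_lit 29181465190, nat_lit 29529876512, nat_lit 26799429702, nat_lit 27144940614, nat_lit 28124828870, nat_lit 28470890171], nat_lit 1271250, nat_lit 1271250, nat_lit 1271250, nat_lit 1271250, nat_lit 0, nat_lit 490000, [nat_lit 490000, nat_lit 1100000, nat_lit 1785000], [nat_lit 34, nat_lit 40, nat_lit 40, nat_lit 80, nat_lit 7, nat_lit 226, nat_lit 20, nat_lit 6]⟩, ⟨p078_k5, nat_lit 0, nat_lit 0, nat_lit 599, nat_lit 0, nat_lit 606790, [nat_lit 1725000000, nat_lit 2716392000, nat_lit 3880008000], [], [nat_lit 11494938896, nat_lit 11486089610, nat_lit 11961409268, nat_lit 11931198822, nat_lit 9137671389, nat_lit 9116896391, nat_lit 9451341117, nat_lit 9413615054], nat_lit 1271250, nat_lit 1271250, nat_lit 1271250, nat_lit 1271250,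 nat_lit 0, nat_lit 1836250, [nat_lit 1412500, nat_lit 1271250, nat_lit 1271250], [nat_lit 60, nat_lit 40, nat_lit 40, nat_lit 80, nat_lit 32, nat_lit 456, nat_lit 225, nat_lit 10]⟩,
 ⟨nat_lit 3535, nat_lit 3873, ⟨.ofNat (nat_lit 693563), .ofNat (nat_lit 758085), .ofNat (nat_lit 715356), .ofNat (nat_lit 779878), .ofNat (nat_lit 688283), .ofNat (nat_lit 751044), .ofNat (nat_lit 710235), .ofNat (nat_lit 772997)⟩, ⟨.ofNat (nat_lit 0), .ofNat (nat_lit 132088), .ofNat (nat_lit 0), .ofNat (nat_lit 175674), .ofNat (nat_lit 0), .ofNat (nat_lit 136093), .ofNat (nat_lit 0), .ofNat (nat_lit 179999)⟩⟩, [⟨nat_lit 13, nat_lit 69, nat_lit 69, nat_lit 100, nat_lit 94223410⟩]⟩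
noncomputable def p078_l79 : Lf2 := ⟨nat_lit 0, nat_lit 20, [nat_lit 5, nat_lit 5, nat_lit 5, nat_lit 20], false, nat_lit 0, nat_lit 80, nat_lit 0, nat_lit 260, ⟨nat_lit 150, nat_lit 850, nat_lit 0, nat_lit 8, nat_lit 287, nat_lit 850, nat_lit 32, nat_lit 0, nat_lit 0, nat_lit 0, nat_lit 0, nat_lit 0, nat_lit 44198759, nat_lit 22801241, nat_lit 0, nat_lit 3206226, true, true⟩,
 nat_lit 3784, nat_lit 0, nat_lit 0, nat_lit 0, nat_lit 3178, nat_lit 1621, nat_lit 264, nat_lit 0, nat_lit 0, nat_lit 136, nat_lit 0, nat_lit 0, nat_lit 0, nat_lit 0, nat_lit 0, nat_lit 278500, nat_lit 0, nat_lit 0, [(nat_lit 22, [(nat_lit 0, nat_lit 410), (nat_lit 1, nat_lit 440)])],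
 ⟨p078_k11, nat_lit 0, nat_lit 0, nat_lit 297, nat_lit 0, nat_lit 317941, [nat_lit 1545376001, nat_lit 2195340000, nat_lit 2920996000], [], [nat_lit 27595640437, nat_lit 27957960898, nat_lit 28607835050, nat_lit 29021072432, nat_lit 26686921881, nat_lit 27051924492, nat_lit 27753435543, nat_lit 28160416392], nat_lit 1271250, nat_lit 1271250, nat_lit 1271250, nat_lit 1271250, nat_lit 0, nat_lit 490000, [nat_lit 490000, nat_lit 1100000, nat_lit 1785000], [nat_lit 34, nat_lit 40, nat_lit 40, nat_lit 80, nat_lit 7, nat_lit 226, nat_lit 20, nat_lit 6]⟩, ⟨p078_k5, nat_lit 0, nat_lit 0, nat_lit 654, nat_lit 0, nat_lit 752560, [nat_lit 937500000, nat_lit 1476300000, nat_lit 2108700000], [], [nat_lit 6233447196, nat_lit 6215688482, nat_lit 6402665631, nat_lit 6393590479, nat_lit 4822399543, nat_lit 4786390456, nat_lit 4884668113, nat_lit 4845514769], nat_lit 1271250, nat_lit 1271250, nat_lit 1271250, nat_lit 1271250, nat_lit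 0, nat_lit 1836250, [nat_lit 1412500, nat_lit 1271250, nat_lit 1271250], [nat_lit 60, nat_lit 40, nat_lit 40, nat_lit 80, nat_lit 32, nat_lit 456, nat_lit 225, nat_lit 10]⟩,
 ⟨nat_lit 3162, nat_lit 3536, ⟨.ofNat (nat_lit 688283), .ofNat (nat_lit 732216), .ofNat (nat_lit 710235), .ofNat (nat_lit 754168), .ofNat (nat_lit 682859), .ofNat (nat_lit 725526), .ofNat (nat_lit 705013), .ofNat (nat_lit 747681)⟩, ⟨.ofNat (nat_lit 0), .ofNat (nat_lit 136093), .ofNat (nat_lit 0), .ofNat (nat_lit 179999), .ofNat (nat_lit 0), .ofNat (nat_lit 139899), .ofNat (nat_lit 0), .ofNat (nat_lit 184209)⟩⟩, [⟨nat_lit 13, nat_lit 63, nat_lit 74, nat_lit 100, nat_lit 210873078⟩]⟩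
noncomputable def p078_l80 : Lf2 := ⟨nat_lit 0, nat_lit 20, [nat_lit 5, nat_lit 5, nat_lit 5, nat_lit 20], false, nat_lit 0, nat_lit 80, nat_lit 0, nat_lit 260, ⟨nat_lit 364, nat_lit 636, nat_lit 0, nat_lit 8, nat_lit 304, nat_lit 636, nat_lit 32, nat_lit 0, nat_lit 0, nat_lit 0, nat_lit 0, nat_lit 0, nat_lit 42518106, nat_lit 24481894, nat_lit 0, nat_lit 3282313, true, true⟩,
 nat_lit 6861, nat_lit 0, nat_lit 0, nat_lit 0, nat_lit 3589, nat_lit 3281, nat_lit 0, nat_lit 0, nat_lit 0, nat_lit 310, nat_lit 0, nat_lit 0, nat_lit 0, nat_lit 0, nat_lit 0, nat_lit 542400, nat_lit 0, nat_lit 0, [(nat_lit 22, [(nat_lit 1, nat_lit 156), (nat_lit 2, nat_lit 480)])],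
 ⟨p078_k13, nat_lit 0, nat_lit 0, nat_lit 313, nat_lit 0, nat_lit 363001, [nat_lit 1620998401, nat_lit 1946292800, nat_lit 1261280000], [], [nat_lit 28778436465, nat_lit 29526201973, nat_lit 30517849226, nat_lit 31352003925, nat_lit 27631802785, nat_lit 28338852097, nat_lit 29308460141, nat_lit 29965607188], nat_lit 1271250, nat_lit 1271250, nat_lit 1271250, nat_lit 1271250, nat_lit 0, nat_lit 490000, [nat_lit 490000, nat_lit 1100000, nat_lit 1785000], [nat_lit 34, nat_lit 40, nat_lit 40, nat_lit 80, nat_lit 7, nat_lit 226, nat_lit 20, nat_lit 6]⟩, ⟨p078_k6, nat_lit 0, nat_lit 0, nat_lit 632, nat_lit 0, nat_lit 708904, [nat_lit 2275000000, nat_lit 3582488000, nat_lit 5117112000], [], [nat_lit 14774800644, nat_lit 14774017144, nat_lit 15334086736, nat_lit 15314897528, nat_lit 12075018697, nat_lit 12067569096, nat_lit 12545544191, nat_lit 12514022626], nat_lit 1271250, nat_lit 1271250, nat_lit 1271250, nat_lit 1271250,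 nat_lit 0, nat_lit 1836250, [nat_lit 1412500, nat_lit 1271250, nat_lit 1271250], [nat_lit 60, nat_lit 40, nat_lit 40, nat_lit 80, nat_lit 32, nat_lit 456, nat_lit 225, nat_lit 10]⟩,
 ⟨nat_lit 3162, nat_lit 3873, ⟨.ofNat (nat_lit 715356), .ofNat (nat_lit 792782), .ofNat (nat_lit 737150), .ofNat (nat_lit 814576), .ofNat (nat_lit 705013), .ofNat (nat_lit 778158), .ofNat (nat_lit 727168), .ofNat (nat_lit 800312)⟩, ⟨.ofNat (nat_lit 0), .ofNat (nat_lit 132088), .ofNat (nat_lit 0), .ofNat (nat_lit 175674), .ofNat (nat_lit 0), .ofNat (nat_lit 139899), .ofNat (nat_lit 0), .ofNat (nat_lit 184209)⟩⟩, [⟨nat_lit 13, nat_lit 67, nat_lit 65, nat_lit 100, nat_lit 49613976⟩, ⟨nat_lit 22, nat_lit 70, nat_lit 100, nat_lit 61, nat_lit 19332091⟩]⟩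
noncomputable def p078_l81 : Lf2 := ⟨nat_lit 0, nat_lit 20, [nat_lit 5, nat_lit 5, nat_lit 5, nat_lit 20], false, nat_lit 80, nat_lit 160, nat_lit 0, nat_lit 336, ⟨nat_lit 203, nat_lit 797, nat_lit 0, nat_lit 8, nat_lit 292, nat_lit 797, nat_lit 88, nat_lit 0, nat_lit 0, nat_lit 0, nat_lit 0, nat_lit 0, nat_lit 41164011, nat_lit 22428450, nat_lit 3407539, nat_lit 4300534, true, true⟩,
 nat_lit 4836, nat_lit 0, nat_lit 0, nat_lit 0, nat_lit 3914, nat_lit 2072, nat_lit 162, nat_lit 0, nat_lit 0, nat_lit 146, nat_lit 0, nat_lit 0, nat_lit 0, nat_lit 0, nat_lit 0, nat_lit 318800, nat_lit 0, nat_lit 0, [(nat_lit 22, [(nat_lit 1, nat_lit 797)])],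
 ⟨p078_k13, nat_lit 0, nat_lit 0, nat_lit 251, nat_lit 0, nat_lit 332498, [nat_lit 1495140801, nat_lit 2190839600, nat_lit 2729159600], [], [nat_lit 25818616300, nat_lit 26746729160, nat_lit 27680456016, nat_lit 28618105048, nat_lit 26006134036, nat_lit 26733140948, nat_lit 27581430516, nat_lit 28432681024], nat_lit 1271250, nat_lit 1271250, nat_lit 1271250, nat_lit 1271250, nat_lit 490000, nat_lit 1100001, [nat_lit 490000, nat_lit 1100000, nat_lit 1785000], [nat_lit 34, nat_lit 40, nat_lit 40, nat_lit 80, nat_lit 7, nat_lit 249, nat_lit 40, nat_lit 7]⟩, ⟨p078_k5, nat_lit 0, nat_lit 0, nat_lit 654, nat_lit 0, nat_lit 752560, [nat_lit 1268750000, nat_lit 1997926000, nat_lit 2853774000], [], [nat_lit 9039645596, nat_lit 9034239384, nat_lit 9380857572, nat_lit 9358591048, nat_lit 7130519323, nat_lit 7080311540, nat_lit 7445951842, nat_lit 7433648768], nat_lit 1271250, nat_lit 1271250, nat_lit 1271250, nat_lit 1271250,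 nat_lit 0, nat_lit 2373000, [nat_lit 1412500, nat_lit 1271250, nat_lit 1271250], [nat_lit 60, nat_lit 40, nat_lit 40, nat_lit 80, nat_lit 32, nat_lit 483, nat_lit 250, nat_lit 11]⟩,
 ⟨nat_lit 3162, nat_lit 3873, ⟨.ofNat (nat_lit 693563), .ofNat (nat_lit 758085), .ofNat (nat_lit 715356), .ofNat (nat_lit 779878), .ofNat (nat_lit 682859), .ofNat (nat_lit 743812), .ofNat (nat_lit 705013), .ofNat (nat_lit 765967)⟩, ⟨.ofNat (nat_lit 132088), .ofNat (nat_lit 261131), .ofNat (nat_lit 175674), .ofNat (nat_lit 304717), .ofNat (nat_lit 139899), .ofNat (nat_lit 261806), .ofNat (nat_lit 184209), .ofNat (nat_lit 306116)⟩⟩, [⟨nat_lit 13, nat_lit 66, nat_lit 72, nat_lit 100, nat_lit 216240158⟩, ⟨nat_lit 4, nat_lit 100, nat_lit 66, nat_lit 72, nat_lit 57955651⟩, ⟨nat_lit 22, nat_lit 77, nat_lit 100, nat_lit 99, nat_lit 12295593⟩]⟩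
noncomputable def p078_l82 : Lf2 := ⟨nat_lit 0, nat_lit 20, [nat_lit 5, nat_lit 5, nat_lit 5, nat_lit 20], false, nat_lit 80, nat_lit 160, nat_lit 0, nat_lit 336, ⟨nat_lit 307, nat_lit 693, nat_lit 0, nat_lit 8, nat_lit 305, nat_lit 693, nat_lit 88, nat_lit 0, nat_lit 0, nat_lit 0, nat_lit 0, nat_lit 0, nat_lit 40032468, nat_lit 23644070, nat_lit 3323462, nat_lit 4334672, true, true⟩,
 nat_lit 5816, nat_lit 0, nat_lit 0, nat_lit 0, nat_lit 4708, nat_lit 2781, nat_lit 224, nat_lit 0, nat_lit 0, nat_lit 282, nat_lit 0, nat_lit 0, nat_lit 0, nat_lit 0, nat_lit 0, nat_lit 173250, nat_lit 0, nat_lit 0, [(nat_lit 22, [(nat_lit 0, nat_lit 693)])],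
 ⟨p078_k13, nat_lit 0, nat_lit 0, nat_lit 242, nat_lit 0, nat_lit 302229, [nat_lit 1710448001, nat_lit 2804980400, nat_lit 4325869200], [], [nat_lit 26653325072, nat_lit 27217024296, nat_lit 29250728271, nat_lit 29843909212, nat_lit 26435443640, nat_lit 26945150508, nat_lit 28788812597, nat_lit 29236775909], nat_lit 1271250, nat_lit 1271250, nat_lit 1271250, nat_lit 1271250, nat_lit 490000, nat_lit 1100001, [nat_lit 490000, nat_lit 1100000, nat_lit 1785000], [nat_lit 34, nat_lit 40, nat_lit 40, nat_lit 80, nat_lit 7, nat_lit 249, nat_lit 40, nat_lit 7]⟩, ⟨p078_k6, nat_lit 0, nat_lit 0, nat_lit 587, nat_lit 0, nat_lit 590223, [nat_lit 1918750000, nat_lit 3021494000, nat_lit 4315806000], [], [nat_lit 12187001608, nat_lit 12206827188, nat_lit 12780470469, nat_lit 12792730055, nat_lit 10380072464, nat_lit 10346679905, nat_lit 10686600934, nat_lit 10639815919], nat_lit 1271250, nat_lit 1271250, nat_lit 1271250, nat_lit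 1271250, nat_lit 0, nat_lit 2373000, [nat_lit 1412500, nat_lit 1271250, nat_lit 1271250], [nat_lit 60, nat_lit 40, nat_lit 40, nat_lit 80, nat_lit 32, nat_lit 483, nat_lit 250, nat_lit 11]⟩,
 ⟨nat_lit 3535, nat_lit 3873, ⟨.ofNat (nat_lit 715356), .ofNat (nat_lit 792782), .ofNat (nat_lit 737150), .ofNat (nat_lit 814576), .ofNat (nat_lit 710235), .ofNat (nat_lit 785549), .ofNat (nat_lit 732188), .ofNat (nat_lit 807502)⟩, ⟨.ofNat (nat_lit 132088), .ofNat (nat_lit 261131), .ofNat (nat_lit 175674), .ofNat (nat_lit 304717), .ofNat (nat_lit 136093), .ofNat (nat_lit 261616), .ofNat (nat_lit 179999), .ofNat (nat_lit 305521)⟩⟩, [⟨nat_lit 13, nat_lit 70, nat_lit 62, nat_lit 100, nat_lit 116146791⟩, ⟨nat_lit 22, nat_lit 74, nat_lit 100, nat_lit 98, nat_lit 36004404⟩]⟩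
noncomputable def p078_l83 : Lf2 := ⟨nat_lit 0, nat_lit 20, [nat_lit 5, nat_lit 5, nat_lit 5, nat_lit 20], false, nat_lit 80, nat_lit 160, nat_lit 0, nat_lit 336, ⟨nat_lit 251, nat_lit 749, nat_lit 0, nat_lit 8, nat_lit 300, nat_lit 749, nat_lit 89, nat_lit 0, nat_lit 0, nat_lit 0, nat_lit 0, nat_lit 0, nat_lit 40445853, nat_lit 23155563, nat_lit 3398584, nat_lit 4331190, true, true⟩,
 nat_lit 4778, nat_lit 0, nat_lit 0, nat_lit 0, nat_lit 4013, nat_lit 2285, nat_lit 269, nat_lit 0, nat_lit 0, nat_lit 216, nat_lit 0, nat_lit 0, nat_lit 0, nat_lit 0, nat_lit 0, nat_lit 187250, nat_lit 0, nat_lit 0, [(nat_lit 22, [(nat_lit 0, nat_lit 749)])],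
 ⟨p078_k11, nat_lit 0, nat_lit 0, nat_lit 256, nat_lit 0, nat_lit 347109, [nat_lit 1684464001, nat_lit 2652817200, nat_lit 4031555600], [], [nat_lit 26304193981, nat_lit 26828745245, nat_lit 28243116923, nat_lit 28780141516, nat_lit 26409081032, nat_lit 26775624184, nat_lit 28062179990, nat_lit 28491697033], nat_lit 1271250, nat_lit 1271250, nat_lit 1271250, nat_lit 1271250, nat_lit 490000, nat_lit 1100001, [nat_lit 490000, nat_lit 1100000, nat_lit 1785000], [nat_lit 34, nat_lit 40, nat_lit 40, nat_lit 80, nat_lit 7, nat_lit 249, nat_lit 40, nat_lit 7]⟩, ⟨p078_k6, nat_lit 0, nat_lit 0, nat_lit 632, nat_lit 0, nat_lit 708904, [nat_lit 1568750000, nat_lit 2470342000, nat_lit 3528558000], [], [nat_lit 10119006868, nat_lit 10117526712, nat_lit 10431088192, nat_lit 10416688352, nat_lit 8519764098, nat_lit 8491907574, nat_lit 8733475981, nat_lit 8730613712], nat_lit 1271250, nat_lit 1271250, nat_lit 1271250, nat_lit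 1271250, nat_lit 0, nat_lit 2373000, [nat_lit 1412500, nat_lit 1271250, nat_lit 1271250], [nat_lit 60, nat_lit 40, nat_lit 40, nat_lit 80, nat_lit 32, nat_lit 483, nat_lit 250, nat_lit 11]⟩,
 ⟨nat_lit 3162, nat_lit 3536, ⟨.ofNat (nat_lit 710235), .ofNat (nat_lit 772997), .ofNat (nat_lit 732188), .ofNat (nat_lit 794949), .ofNat (nat_lit 705013), .ofNat (nat_lit 765967), .ofNat (nat_lit 727168), .ofNat (nat_lit 788122)⟩, ⟨.ofNat (nat_lit 136093), .ofNat (nat_lit 261616), .ofNat (nat_lit 179999), .ofNat (nat_lit 305521), .ofNat (nat_lit 139899), .ofNat (nat_lit 261806), .ofNat (nat_lit 184209), .ofNat (nat_lit 306116)⟩⟩, [⟨nat_lit 13, nat_lit 64, nat_lit 68, nat_lit 100, nat_lit 145341229⟩, ⟨nat_lit 16, nat_lit 63, nat_lit 100, nat_lit 72, nat_lit 92718035⟩, ⟨nat_lit 22, nat_lit 77, nat_lit 100, nat_lit 99, nat_lit 29465977⟩]⟩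
noncomputable def b_V_800_500_10_15 : St := ⟨true, nat_lit 1, nat_lit 1, nat_lit 1, nat_lit 80, nat_lit 320, nat_lit 360, nat_lit 200, nat_lit 240, nat_lit 240, nat_lit 384, nat_lit 40, nat_lit 80, nat_lit 0, nat_lit 160, nat_lit 0, nat_lit 360, nat_lit 40, nat_lit 80, nat_lit 0, nat_lit 0, nat_lit 0, nat_lit 0⟩
theorem d_V_800_500_10_15 (h : EB TB.env) : Dead b_V_800_500_10_15 := chkB_sound0 h (T :=
(.spl (nat_lit 0) (nat_lit 340)
(.spl (nat_lit 2) (nat_lit 320)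
(.spl (nat_lit 1) (nat_lit 220)
(.spl (nat_lit 0) (nat_lit 330)
(.leaf p078_l66)
(.leaf p078_l67))
(.trX (nat_lit 19) (nat_lit 100) (nat_lit 68) (nat_lit 80) (nat_lit 348) (.leaf p078_l68)))
(.trX (nat_lit 22) (nat_lit 82) (nat_lit 76) (nat_lit 100) (nat_lit 336) (.spl (nat_lit 1) (nat_lit 220)
(.trX (nat_lit 13) (nat_lit 80) (nat_lit 52) (nat_lit 100) (nat_lit 372) (.spl (nat_lit 4) (nat_lit 80)
(.trX (nat_lit 22) (nat_lit 83) (nat_lit 100) (nat_lit 83) (nat_lit 260) (.leaf p078_l69))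
(.leaf p078_l70)))
(.spl (nat_lit 0) (nat_lit 330)
(.leaf p078_l71)
(.trX (nat_lit 13) (nat_lit 78) (nat_lit 49) (nat_lit 100) (nat_lit 376) (.leaf p078_l72))))))
(.trX (nat_lit 13) (nat_lit 73) (nat_lit 55) (nat_lit 100) (nat_lit 368) (.spl (nat_lit 2) (nat_lit 320)
(.spl (nat_lit 4) (nat_lit 80)
(.trX (nat_lit 22) (nat_lit 100) (nat_lit 76) (nat_lit 82) (nat_lit 336) (.spl (nat_lit 1) (nat_lit 220)
(.spl (nat_lit 1) (nat_lit 210)
(.leaf p078_l73)
(.leaf p078_l74))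
(.leaf p078_l75)))
(.spl (nat_lit 1) (nat_lit 220)
(.leaf p078_l76)
(.trX (nat_lit 19) (nat_lit 100) (nat_lit 68) (nat_lit 80) (nat_lit 348) (.leaf p078_l77))))
(.trX (nat_lit 22) (nat_lit 82) (nat_lit 76) (nat_lit 100) (nat_lit 336) (.spl (nat_lit 4) (nat_lit 80)
(.trX (nat_lit 22) (nat_lit 83) (nat_lit 100) (nat_lit 83) (nat_lit 260) (.spl (nat_lit 1) (nat_lit 220)
(.trX (nat_lit 13) (nat_lit 72) (nat_lit 63) (nat_lit 100) (nat_lit 360) (.spl (nat_lit 0) (nat_lit 350)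
(.leaf p078_l78)
(.trX (nat_lit 13) (nat_lit 66) (nat_lit 68) (nat_lit 100) (nat_lit 348) (.leaf p078_l79))))
(.leaf p078_l80)))
(.spl (nat_lit 1) (nat_lit 220)
(.trX (nat_lit 13) (nat_lit 72) (nat_lit 63) (nat_lit 100) (nat_lit 360) (.leaf p078_l81))
(.spl (nat_lit 0) (nat_lit 350)
(.leaf p078_l82)
(.trX (nat_lit 13) (nat_lit 68) (nat_lit 61) (nat_lit 100) (nat_lit 360) (.leaf p078_l83)))))))))) (by decide +kernel)
noncomputable def p078_l84 : Lf2 := ⟨nat_lit 0, nat_lit 20, [nat_lit 5, nat_lit 5, nat_lit 5, nat_lit 20], false, nat_lit 160, nat_lit 260, nat_lit 0, nat_lit 360, ⟨nat_lit 217, nat_lit 783, nat_lit 0, nat_lit 6, nat_lit 257, nat_lit 783, nat_lit 146, nat_lit 0, nat_lit 0, nat_lit 0, nat_lit 0, nat_lit 0, nat_lit 41426459, nat_lit 18186405, nat_lit 7387136, nat_lit 4791747, true, true⟩,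
 nat_lit 5905, nat_lit 0, nat_lit 0, nat_lit 811, nat_lit 4428, nat_lit 2530, nat_lit 390, nat_lit 0, nat_lit 0, nat_lit 200, nat_lit 0, nat_lit 0, nat_lit 0, nat_lit 0, nat_lit 0, nat_lit 195750, nat_lit 0, nat_lit 0, [(nat_lit 19, [(nat_lit 0, nat_lit 783)])],
 ⟨p078_k4, nat_lit 0, nat_lit 0, nat_lit 172, nat_lit 0, nat_lit 224970, [nat_lit 1648643200, nat_lit 2871753200, nat_lit 4632274040], [], [nat_lit 22161857478, nat_lit 23254592158, nat_lit 25208991910, nat_lit 26122007878, nat_lit 24436800250, nat_lit 25350209644, nat_lit 26938996198, nat_lit 27726979614], nat_lit 1271250, nat_lit 1271250, nat_lit 1271250, nat_lit 1271250, nat_lit 1100001, nat_lit 1956250, [nat_lit 490000, nat_lit 1100000, nat_lit 2127500], [nat_lit 27, nat_lit 40, nat_lit 40, nat_lit 80, nat_lit 13, nat_lit 373, nat_lit 150, nat_lit 10]⟩, ⟨p078_k5, nat_lit 0, nat_lit 0, nat_lit 555, nat_lit 0, nat_lit 463783, [nat_lit 1356250000, nat_lit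 2135714000, nat_lit 3050586000], [], [nat_lit 8405875832, nat_lit 8423082186, nat_lit 8889339996, nat_lit 8870402852, nat_lit 7934409244, nat_lit 6934550217, nat_lit 7400064488, nat_lit 7380676629], nat_lit 1271250, nat_lit 1271250, nat_lit 1271250, nat_lit 1271250, nat_lit 0, nat_lit 2542500, [nat_lit 1412500, nat_lit 1271250, nat_lit 1271250], [nat_lit 60, nat_lit 40, nat_lit 40, nat_lit 80, nat_lit 32, nat_lit 456, nat_lit 225, nat_lit 10]⟩,
 ⟨nat_lit 3872, nat_lit 4473, ⟨.ofNat (nat_lit 567977), .ofNat (nat_lit 703933), .ofNat (nat_lit 589534), .ofNat (nat_lit 725499), .ofNat (nat_lit 564520), .ofNat (nat_lit 693563), .ofNat (nat_lit 586304), .ofNat (nat_lit 715356)⟩, ⟨.ofNat (nat_lit 259489), .ofNat (nat_lit 429434), .ofNat (nat_lit 302621), .ofNat (nat_lit 472567), .ofNat (nat_lit 261131), .ofNat (nat_lit 422435), .ofNat (nat_lit 304717), .ofNat (nat_lit 466021)⟩⟩, [⟨nat_lit 16, nat_lit 76, nat_lit 100, nat_lit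 72, nat_lit 229030686⟩, ⟨nat_lit 7, nat_lit 74, nat_lit 100, nat_lit 72, nat_lit 30117921⟩]⟩
noncomputable def p078_l85 : Lf2 := ⟨nat_lit 0, nat_lit 20, [nat_lit 5, nat_lit 5, nat_lit 5, nat_lit 20], false, nat_lit 160, nat_lit 260, nat_lit 0, nat_lit 348, ⟨nat_lit 406, nat_lit 594, nat_lit 0, nat_lit 6, nat_lit 266, nat_lit 594, nat_lit 146, nat_lit 0, nat_lit 0, nat_lit 0, nat_lit 0, nat_lit 0, nat_lit 40703951, nat_lit 18989486, nat_lit 7306563, nat_lit 4830495, true, true⟩,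
 nat_lit 8177, nat_lit 0, nat_lit 0, nat_lit 0, nat_lit 6010, nat_lit 3910, nat_lit 380, nat_lit 0, nat_lit 0, nat_lit 414, nat_lit 0, nat_lit 0, nat_lit 0, nat_lit 0, nat_lit 0, nat_lit 148500, nat_lit 0, nat_lit 0, [(nat_lit 19, [(nat_lit 0, nat_lit 594)])],
 ⟨p078_k4, nat_lit 0, nat_lit 0, nat_lit 184, nat_lit 0, nat_lit 266443, [nat_lit 1741177600, nat_lit 3310157600, nat_lit 5861552720], [], [nat_lit 22286880180, nat_lit 23558871280, nat_lit 25668993620, nat_lit 26712613180, nat_lit 24537142170, nat_lit 25582151025, nat_lit 27646667700, nat_lit 28926511085], nat_lit 1271250, nat_lit 1271250, nat_lit 1271250, nat_lit 1271250, nat_lit 1100001, nat_lit 1956250, [nat_lit 490000, nat_lit 1100000, nat_lit 2127500], [nat_lit 27, nat_lit 40, nat_lit 40, nat_lit 80, nat_lit 13, nat_lit 373, nat_lit 150, nat_lit 10]⟩, ⟨p078_k6, nat_lit 0, nat_lit 0, nat_lit 554, nat_lit 0, nat_lit 473940, [nat_lit 2537500000, nat_lit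 3995852000, nat_lit 5707548000], [], [nat_lit 14539357156, nat_lit 14585059760, nat_lit 15439649384, nat_lit 15486903008, nat_lit 13082094203, nat_lit 12581513319, nat_lit 13030452387, nat_lit 13031957666], nat_lit 1271250, nat_lit 1271250, nat_lit 1271250, nat_lit 1271250, nat_lit 0, nat_lit 2457750, [nat_lit 1412500, nat_lit 1271250, nat_lit 1271250], [nat_lit 60, nat_lit 40, nat_lit 40, nat_lit 80, nat_lit 32, nat_lit 483, nat_lit 250, nat_lit 11]⟩,
 ⟨nat_lit 3872, nat_lit 4473, ⟨.ofNat (nat_lit 589534), .ofNat (nat_lit 725499), .ofNat (nat_lit 611083), .ofNat (nat_lit 747053), .ofNat (nat_lit 586304), .ofNat (nat_lit 715356), .ofNat (nat_lit 608080), .ofNat (nat_lit 737137)⟩, ⟨.ofNat (nat_lit 259489), .ofNat (nat_lit 429434), .ofNat (nat_lit 302621), .ofNat (nat_lit 472567), .ofNat (nat_lit 261131), .ofNat (nat_lit 422435), .ofNat (nat_lit 304717), .ofNat (nat_lit 466021)⟩⟩, [⟨nat_lit 16, nat_lit 76, nat_lit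 100, nat_lit 72, nat_lit 342816909⟩, ⟨nat_lit 7, nat_lit 81, nat_lit 100, nat_lit 72, nat_lit 59415483⟩]⟩
noncomputable def p078_l86 : Lf2 := ⟨nat_lit 0, nat_lit 15, [nat_lit 30, nat_lit 5, nat_lit 5, nat_lit 20], false, nat_lit 160, nat_lit 232, nat_lit 16, nat_lit 344, ⟨nat_lit 224, nat_lit 776, nat_lit 0, nat_lit 8, nat_lit 301, nat_lit 776, nat_lit 132, nat_lit 0, nat_lit 0, nat_lit 0, nat_lit 0, nat_lit 0, nat_lit 38471449, nat_lit 22474865, nat_lit 6053686, nat_lit 4812389, true, true⟩,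
 nat_lit 5475, nat_lit 0, nat_lit 0, nat_lit 0, nat_lit 4106, nat_lit 2346, nat_lit 328, nat_lit 0, nat_lit 0, nat_lit 201, nat_lit 0, nat_lit 0, nat_lit 0, nat_lit 0, nat_lit 0, nat_lit 250100, nat_lit 0, nat_lit 0, [(nat_lit 19, [(nat_lit 0, nat_lit 402), (nat_lit 1, nat_lit 374)])],
 ⟨p078_k2, nat_lit 0, nat_lit 0, nat_lit 163, nat_lit 0, nat_lit 220132, [nat_lit 1598114667, nat_lit 2677156800, nat_lit 3660379200], [], [nat_lit 24871246328, nat_lit 25832842780, nat_lit 27416044092, nat_lit 28261611510, nat_lit 26137250538, nat_lit 26991465477, nat_lit 28504452862, nat_lit 29419328046], nat_lit 1271250, nat_lit 1271250, nat_lit 1271250, nat_lit 1271250, nat_lit 1100001, nat_lit 1716500, [nat_lit 490000, nat_lit 1100000, nat_lit 1785000], [nat_lit 34, nat_lit 40, nat_lit 40, nat_lit 80, nat_lit 7, nat_lit 272, nat_lit 60, nat_lit 7]⟩, ⟨p078_k15, nat_lit 0, nat_lit 0, nat_lit 491, nat_lit 0, nat_lit 448268, [nat_lit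 1400000000, nat_lit 2204608000, nat_lit 3148992000], [], [nat_lit 9033902345, nat_lit 9025848033, nat_lit 9556740187, nat_lit 9609592020, nat_lit 7623112920, nat_lit 7580642404, nat_lit 8122416005, nat_lit 8096049787], nat_lit 1271250, nat_lit 1271250, nat_lit 1271250, nat_lit 1271250, nat_lit 88400, nat_lit 2454100, [nat_lit 1412500, nat_lit 1271250, nat_lit 1271250], [nat_lit 60, nat_lit 40, nat_lit 40, nat_lit 80, nat_lit 32, nat_lit 483, nat_lit 250, nat_lit 11]⟩,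
 ⟨nat_lit 3872, nat_lit 4473, ⟨.ofNat (nat_lit 703933), .ofNat (nat_lit 792305), .ofNat (nat_lit 725499), .ofNat (nat_lit 813871), .ofNat (nat_lit 693563), .ofNat (nat_lit 777441), .ofNat (nat_lit 715356), .ofNat (nat_lit 799235)⟩, ⟨.ofNat (nat_lit 259489), .ofNat (nat_lit 381849), .ofNat (nat_lit 281055), .ofNat (nat_lit 403416), .ofNat (nat_lit 261131), .ofNat (nat_lit 377270), .ofNat (nat_lit 282924), .ofNat (nat_lit 399063)⟩⟩, [⟨nat_lit 13, nat_lit 76, nat_lit 61, nat_lit 100, nat_lit 210943631⟩, ⟨nat_lit 4, nat_lit 100, nat_lit 76, nat_lit 66, nat_lit 250697366⟩, ⟨nat_lit 7, nat_lit 78, nat_lit 100, nat_lit 66, nat_lit 31177771⟩]⟩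
noncomputable def p078_l87 : Lf2 := ⟨nat_lit 0, nat_lit 20, [nat_lit 5, nat_lit 5, nat_lit 5, nat_lit 20], false, nat_lit 160, nat_lit 260, nat_lit 16, nat_lit 360, ⟨nat_lit 507, nat_lit 493, nat_lit 0, nat_lit 8, nat_lit 301, nat_lit 493, nat_lit 150, nat_lit 0, nat_lit 0, nat_lit 0, nat_lit 0, nat_lit 0, nat_lit 37641849, nat_lit 22102274, nat_lit 7255877, nat_lit 4983362, true, true⟩,
 nat_lit 11811, nat_lit 0, nat_lit 0, nat_lit 0, nat_lit 4538, nat_lit 5061, nat_lit 452, nat_lit 0, nat_lit 0, nat_lit 456, nat_lit 0, nat_lit 0, nat_lit 0, nat_lit 0, nat_lit 0, nat_lit 197200, nat_lit 0, nat_lit 0, [(nat_lit 19, [(nat_lit 1, nat_lit 493)])],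
 ⟨p078_k4, nat_lit 0, nat_lit 0, nat_lit 156, nat_lit 0, nat_lit 120317, [nat_lit 1719503734, nat_lit 3381352800, nat_lit 5893070000], [], [nat_lit 25789541020, nat_lit 26711638148, nat_lit 28235250917, nat_lit 29035760288, nat_lit 27508049868, nat_lit 28280943607, nat_lit 29771742781, nat_lit 30606178831], nat_lit 1271250, nat_lit 1271250, nat_lit 1271250, nat_lit 1271250, nat_lit 1100001, nat_lit 1956250, [nat_lit 490000, nat_lit 1100000, nat_lit 2127500], [nat_lit 27, nat_lit 40, nat_lit 40, nat_lit 80, nat_lit 13, nat_lit 289, nat_lit 75, nat_lit 7]⟩, ⟨p078_k5, nat_lit 0, nat_lit 0, nat_lit 417, nat_lit 0, nat_lit 248037, [nat_lit 3168750000, nat_lit 4989894000, nat_lit 7127406000], [], [nat_lit 20552483768, nat_lit 20544561956, nat_lit 21685684856, nat_lit 21625753133, nat_lit 17848996674, nat_lit 17826758175, nat_lit 18791295671, nat_lit 18728000115], nat_lit 1271250, nat_lit 1271250, nat_lit 1271250, nat_lit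 1271250, nat_lit 88400, nat_lit 2569500, [nat_lit 1412500, nat_lit 1271250, nat_lit 1271250], [nat_lit 60, nat_lit 40, nat_lit 40, nat_lit 80, nat_lit 32, nat_lit 483, nat_lit 250, nat_lit 11]⟩,
 ⟨nat_lit 3872, nat_lit 4473, ⟨.ofNat (nat_lit 703933), .ofNat (nat_lit 792305), .ofNat (nat_lit 725499), .ofNat (nat_lit 813871), .ofNat (nat_lit 693563), .ofNat (nat_lit 777441), .ofNat (nat_lit 715356), .ofNat (nat_lit 799235)⟩, ⟨.ofNat (nat_lit 281055), .ofNat (nat_lit 451000), .ofNat (nat_lit 302621), .ofNat (nat_lit 472567), .ofNat (nat_lit 282924), .ofNat (nat_lit 444228), .ofNat (nat_lit 304717), .ofNat (nat_lit 466021)⟩⟩, [⟨nat_lit 13, nat_lit 76, nat_lit 61, nat_lit 100, nat_lit 95209369⟩, ⟨nat_lit 16, nat_lit 77, nat_lit 100, nat_lit 77, nat_lit 308159694⟩, ⟨nat_lit 7, nat_lit 69, nat_lit 100, nat_lit 76, nat_lit 77426424⟩]⟩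
noncomputable def p078_l88 : Lf2 := ⟨nat_lit 0, nat_lit 20, [nat_lit 5, nat_lit 5, nat_lit 5, nat_lit 20], false, nat_lit 160, nat_lit 260, nat_lit 16, nat_lit 348, ⟨nat_lit 1000, nat_lit 0, nat_lit 0, nat_lit 0, nat_lit 0, nat_lit 0, nat_lit 0, nat_lit 0, nat_lit 0, nat_lit 0, nat_lit 0, nat_lit 0, nat_lit 0, nat_lit 0, nat_lit 0, nat_lit 0, false, false⟩,
 nat_lit 18221, nat_lit 0, nat_lit 0, nat_lit 0, nat_lit 5570, nat_lit 8714, nat_lit 734, nat_lit 0, nat_lit 0, nat_lit 991, nat_lit 0, nat_lit 0, nat_lit 0, nat_lit 0, nat_lit 0, nat_lit 0, nat_lit 0, nat_lit 0, [],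
 ⟨p078_k4, nat_lit 0, nat_lit 0, nat_lit 180, nat_lit 0, nat_lit 202537, [nat_lit 2032000001, nat_lit 4688000000, nat_lit 9842000000], [], [nat_lit 26352309550, nat_lit 26855957010, nat_lit 29795171601, nat_lit 30320488744, nat_lit 27962970270, nat_lit 28469918313, nat_lit 31432468595, nat_lit 31932543667], nat_lit 1271250, nat_lit 1271250, nat_lit 1271250, nat_lit 1271250, nat_lit 1100001, nat_lit 1956250, [nat_lit 490000, nat_lit 1100000, nat_lit 2127500], [nat_lit 27, nat_lit 40, nat_lit 40, nat_lit 80, nat_lit 13, nat_lit 289, nat_lit 75, nat_lit 7]⟩, ⟨p078_k6, nat_lit 0, nat_lit 0, nat_lit 455, nat_lit 0, nat_lit 360266, [nat_lit 6250000000, nat_lit 9842000000, nat_lit 14058000000], [], [nat_lit 37137867010, nat_lit 37331221945, nat_lit 40404437149, nat_lit 40453660113, nat_lit 33903643962, nat_lit 33933558382, nat_lit 36098895566, nat_lit 36025934906], nat_lit 1271250, nat_lit 1271250, nat_lit 1271250, nat_lit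 1271250, nat_lit 88400, nat_lit 2482950, [nat_lit 1412500, nat_lit 1271250, nat_lit 1271250], [nat_lit 60, nat_lit 40, nat_lit 40, nat_lit 80, nat_lit 32, nat_lit 483, nat_lit 250, nat_lit 11]⟩,
 zbF0, [⟨nat_lit 4, nat_lit 100, nat_lit 79, nat_lit 72, nat_lit 510706846⟩, ⟨nat_lit 19, nat_lit 100, nat_lit 81, nat_lit 72, nat_lit 179962942⟩]⟩
noncomputable def p078_l89 : Lf2 := ⟨nat_lit 0, nat_lit 20, [nat_lit 5, nat_lit 5, nat_lit 5, nat_lit 20], false, nat_lit 160, nat_lit 244, nat_lit 16, nat_lit 348, ⟨nat_lit 457, nat_lit 543, nat_lit 0, nat_lit 8, nat_lit 310, nat_lit 543, nat_lit 140, nat_lit 0, nat_lit 0, nat_lit 0, nat_lit 0, nat_lit 0, nat_lit 37393356, nat_lit 23098281, nat_lit 6508363, nat_lit 4910531, true, true⟩,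
 nat_lit 8558, nat_lit 0, nat_lit 0, nat_lit 0, nat_lit 4459, nat_lit 4092, nat_lit 481, nat_lit 0, nat_lit 0, nat_lit 419, nat_lit 0, nat_lit 0, nat_lit 0, nat_lit 0, nat_lit 0, nat_lit 135750, nat_lit 0, nat_lit 0, [(nat_lit 19, [(nat_lit 0, nat_lit 543)])],
 ⟨p078_k27, nat_lit 0, nat_lit 0, nat_lit 194, nat_lit 0, nat_lit 254116, [nat_lit 1766147201, nat_lit 3428457200, nat_lit 6193262840], [], [nat_lit 26303635870, nat_lit 26697768595, nat_lit 28514577999, nat_lit 28910471745, nat_lit 27377630930, nat_lit 27720494951, nat_lit 29779100710, nat_lit 30265430600], nat_lit 1271250, nat_lit 1271250, nat_lit 1271250, nat_lit 1271250, nat_lit 1100001, nat_lit 1819250, [nat_lit 490000, nat_lit 1100000, nat_lit 2127500], [nat_lit 27, nat_lit 40, nat_lit 40, nat_lit 80, nat_lit 13, nat_lit 289, nat_lit 75, nat_lit 7]⟩, ⟨p078_k6, nat_lit 0, nat_lit 0, nat_lit 495, nat_lit 0, nat_lit 473940, [nat_lit 2856250000, nat_lit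 4497794000, nat_lit 6424506000], [], [nat_lit 17777884387, nat_lit 17821488012, nat_lit 18827237955, nat_lit 18839722077, nat_lit 15739887742, nat_lit 15685773104, nat_lit 16268485650, nat_lit 16237170278], nat_lit 1271250, nat_lit 1271250, nat_lit 1271250, nat_lit 1271250, nat_lit 88400, nat_lit 2482950, [nat_lit 1412500, nat_lit 1271250, nat_lit 1271250], [nat_lit 60, nat_lit 40, nat_lit 40, nat_lit 80, nat_lit 32, nat_lit 483, nat_lit 250, nat_lit 11]⟩,
 ⟨nat_lit 3872, nat_lit 4184, ⟨.ofNat (nat_lit 720432), .ofNat (nat_lit 813190), .ofNat (nat_lit 742098), .ofNat (nat_lit 834857), .ofNat (nat_lit 715356), .ofNat (nat_lit 805687), .ofNat (nat_lit 737149), .ofNat (nat_lit 827480)⟩, ⟨.ofNat (nat_lit 260409), .ofNat (nat_lit 399546), .ofNat (nat_lit 303743), .ofNat (nat_lit 442879), .ofNat (nat_lit 261131), .ofNat (nat_lit 396626), .ofNat (nat_lit 304717), .ofNat (nat_lit 440213)⟩⟩, [⟨nat_lit 13, nat_lit 75, nat_lit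 56, nat_lit 100, nat_lit 36330747⟩, ⟨nat_lit 4, nat_lit 100, nat_lit 74, nat_lit 72, nat_lit 324077141⟩, ⟨nat_lit 19, nat_lit 100, nat_lit 81, nat_lit 72, nat_lit 70108860⟩]⟩
noncomputable def p078_l90 : Lf2 := ⟨nat_lit 0, nat_lit 20, [nat_lit 5, nat_lit 5, nat_lit 5, nat_lit 20], false, nat_lit 160, nat_lit 232, nat_lit 0, nat_lit 360, ⟨nat_lit 158, nat_lit 334, nat_lit 508, nat_lit 6, nat_lit 255, nat_lit 842, nat_lit 136, nat_lit 508, nat_lit 173400, nat_lit 317, nat_lit 159462, nat_lit 200, nat_lit 42216446, nat_lit 18085027, nat_lit 6698527, nat_lit 4677769, true, true⟩,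
 nat_lit 4147, nat_lit 0, nat_lit 0, nat_lit 0, nat_lit 3356, nat_lit 1777, nat_lit 0, nat_lit 0, nat_lit 0, nat_lit 156, nat_lit 0, nat_lit 0, nat_lit 0, nat_lit 0, nat_lit 0, nat_lit 325850, nat_lit 0, nat_lit 0, [(nat_lit 22, [(nat_lit 0, nat_lit 73), (nat_lit 1, nat_lit 261), (nat_lit 5, nat_lit 508)])],
 ⟨p078_k13, nat_lit 0, nat_lit 0, nat_lit 186, nat_lit 0, nat_lit 332498, [nat_lit 1285870401, nat_lit 880724001, nat_lit 15898667], [], [nat_lit 22309281061, nat_lit 23162634877, nat_lit 24778335109, nat_lit 25666004699, nat_lit 23633673866, nat_lit 24440096855, nat_lit 26046956922, nat_lit 27084004844], nat_lit 1271250, nat_lit 1271250, nat_lit 1271250, nat_lit 1271250, nat_lit 1100001, nat_lit 1716500, [nat_lit 490000, nat_lit 1100000, nat_lit 1785000], [nat_lit 34, nat_lit 40, nat_lit 40, nat_lit 80, nat_lit 7, nat_lit 272, nat_lit 60, nat_lit 7]⟩, ⟨p078_k5, nat_lit 0, nat_lit 0, nat_lit 668, nat_lit 0,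 nat_lit 752560, [nat_lit 987500000, nat_lit 1555036000, nat_lit 2221164000], [], [nat_lit 6151455192, nat_lit 6148109950, nat_lit 6346302444, nat_lit 6325268154, nat_lit 5808717872, nat_lit 5014262043, nat_lit 5329937934, nat_lit 5318551772], nat_lit 1271250, nat_lit 1271250, nat_lit 1271250, nat_lit 1271250, nat_lit 0, nat_lit 2542500, [nat_lit 1412500, nat_lit 1271250, nat_lit 1271250], [nat_lit 60, nat_lit 40, nat_lit 40, nat_lit 80, nat_lit 32, nat_lit 456, nat_lit 225, nat_lit 10]⟩,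
 ⟨nat_lit 3162, nat_lit 3873, ⟨.ofNat (nat_lit 564520), .ofNat (nat_lit 693563), .ofNat (nat_lit 586313), .ofNat (nat_lit 715356), .ofNat (nat_lit 560952), .ofNat (nat_lit 682859), .ofNat (nat_lit 583107), .ofNat (nat_lit 705013)⟩, ⟨.ofNat (nat_lit 261131), .ofNat (nat_lit 377270), .ofNat (nat_lit 304717), .ofNat (nat_lit 420856), .ofNat (nat_lit 261806), .ofNat (nat_lit 371522), .ofNat (nat_lit 306116), .ofNat (nat_lit 415832)⟩⟩, [⟨nat_lit 4, nat_lit 100, nat_lit 66, nat_lit 72, nat_lit 278560188⟩, ⟨nat_lit 7, nat_lit 74, nat_lit 100, nat_lit 72, nat_lit 23480357⟩]⟩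
noncomputable def p078_l91 : Lf2 := ⟨nat_lit 0, nat_lit 20, [nat_lit 5, nat_lit 5, nat_lit 5, nat_lit 20], false, nat_lit 160, nat_lit 232, nat_lit 0, nat_lit 348, ⟨nat_lit 308, nat_lit 692, nat_lit 0, nat_lit 6, nat_lit 263, nat_lit 692, nat_lit 136, nat_lit 0, nat_lit 0, nat_lit 0, nat_lit 0, nat_lit 0, nat_lit 41463034, nat_lit 18910524, nat_lit 6626442, nat_lit 4719728, true, true⟩,
 nat_lit 6028, nat_lit 0, nat_lit 0, nat_lit 0, nat_lit 4879, nat_lit 2882, nat_lit 265, nat_lit 0, nat_lit 0, nat_lit 293, nat_lit 0, nat_lit 0, nat_lit 0, nat_lit 0, nat_lit 0, nat_lit 173000, nat_lit 0, nat_lit 0, [(nat_lit 22, [(nat_lit 0, nat_lit 692)])],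
 ⟨p078_k13, nat_lit 0, nat_lit 0, nat_lit 195, nat_lit 0, nat_lit 363001, [nat_lit 1710912001, nat_lit 2807697600, nat_lit 4331124800], [], [nat_lit 22738606892, nat_lit 23988363660, nat_lit 25994556270, nat_lit 27030393188, nat_lit 24243295602, nat_lit 25342080804, nat_lit 27144268675, nat_lit 28369168899], nat_lit 1271250, nat_lit 1271250, nat_lit 1271250, nat_lit 1271250, nat_lit 1100001, nat_lit 1716500, [nat_lit 490000, nat_lit 1100000, nat_lit 1785000], [nat_lit 34, nat_lit 40, nat_lit 40, nat_lit 80, nat_lit 7, nat_lit 272, nat_lit 60, nat_lit 7]⟩, ⟨p078_k6, nat_lit 0, nat_lit 0, nat_lit 645, nat_lit 0, nat_lit 708904, [nat_lit 1925000000, nat_lit 3031336000, nat_lit 4329864000], [], [nat_lit 11441058434, nat_lit 11472455778, nat_lit 11977832704, nat_lit 12016126828, nat_lit 10008803973, nat_lit 9911840702, nat_lit 10159720342, nat_lit 10116972296], nat_lit 1271250, nat_lit 1271250, nat_lit 1271250, nat_lit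 1271250, nat_lit 0, nat_lit 2457750, [nat_lit 1412500, nat_lit 1271250, nat_lit 1271250], [nat_lit 60, nat_lit 40, nat_lit 40, nat_lit 80, nat_lit 32, nat_lit 483, nat_lit 250, nat_lit 11]⟩,
 ⟨nat_lit 3162, nat_lit 3873, ⟨.ofNat (nat_lit 586313), .ofNat (nat_lit 715356), .ofNat (nat_lit 608082), .ofNat (nat_lit 737150), .ofNat (nat_lit 583107), .ofNat (nat_lit 705013), .ofNat (nat_lit 605237), .ofNat (nat_lit 727168)⟩, ⟨.ofNat (nat_lit 261131), .ofNat (nat_lit 377270), .ofNat (nat_lit 304717), .ofNat (nat_lit 420856), .ofNat (nat_lit 261806), .ofNat (nat_lit 371522), .ofNat (nat_lit 306116), .ofNat (nat_lit 415832)⟩⟩, [⟨nat_lit 4, nat_lit 100, nat_lit 66, nat_lit 72, nat_lit 469005675⟩, ⟨nat_lit 7, nat_lit 81, nat_lit 100, nat_lit 72, nat_lit 44246867⟩]⟩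
noncomputable def p078_l92 : Lf2 := ⟨nat_lit 0, nat_lit 20, [nat_lit 5, nat_lit 5, nat_lit 5, nat_lit 20], false, nat_lit 160, nat_lit 232, nat_lit 16, nat_lit 360, ⟨nat_lit 202, nat_lit 798, nat_lit 0, nat_lit 8, nat_lit 292, nat_lit 798, nat_lit 136, nat_lit 0, nat_lit 0, nat_lit 0, nat_lit 0, nat_lit 0, nat_lit 39032842, nat_lit 21592341, nat_lit 6374817, nat_lit 4825376, true, true⟩,
 nat_lit 4862, nat_lit 0, nat_lit 0, nat_lit 0, nat_lit 3935, nat_lit 2083, nat_lit 166, nat_lit 0, nat_lit 0, nat_lit 179, nat_lit 0, nat_lit 0, nat_lit 0, nat_lit 0, nat_lit 0, nat_lit 319200, nat_lit 0, nat_lit 0, [(nat_lit 22, [(nat_lit 1, nat_lit 798)])],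
 ⟨p078_k13, nat_lit 0, nat_lit 0, nat_lit 195, nat_lit 0, nat_lit 332498, [nat_lit 1494467201, nat_lit 2187706400, nat_lit 2722586400], [], [nat_lit 25798218410, nat_lit 26679891220, nat_lit 27532792790, nat_lit 28397037860, nat_lit 26910594069, nat_lit 27751607260, nat_lit 28565272774, nat_lit 29557958966], nat_lit 1271250, nat_lit 1271250, nat_lit 1271250, nat_lit 1271250, nat_lit 1100001, nat_lit 1716500, [nat_lit 490000, nat_lit 1100000, nat_lit 1785000], [nat_lit 34, nat_lit 40, nat_lit 40, nat_lit 80, nat_lit 7, nat_lit 272, nat_lit 60, nat_lit 7]⟩, ⟨p078_k5, nat_lit 0, nat_lit 0, nat_lit 642, nat_lit 0, nat_lit 752560, [nat_lit 1262500000, nat_lit 1988084000, nat_lit 2839716000], [], [nat_lit 8199239697, nat_lit 8190976495, nat_lit 8534304047, nat_lit 8511651173, nat_lit 7061003508, nat_lit 7023432078, nat_lit 7370772130, nat_lit 7347199332], nat_lit 1271250, nat_lit 1271250, nat_lit 1271250, nat_lit 1271250,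 nat_lit 88400, nat_lit 2569500, [nat_lit 1412500, nat_lit 1271250, nat_lit 1271250], [nat_lit 60, nat_lit 40, nat_lit 40, nat_lit 80, nat_lit 32, nat_lit 483, nat_lit 250, nat_lit 11]⟩,
 ⟨nat_lit 3162, nat_lit 3873, ⟨.ofNat (nat_lit 693563), .ofNat (nat_lit 758085), .ofNat (nat_lit 715356), .ofNat (nat_lit 779878), .ofNat (nat_lit 682859), .ofNat (nat_lit 743812), .ofNat (nat_lit 705013), .ofNat (nat_lit 765967)⟩, ⟨.ofNat (nat_lit 261131), .ofNat (nat_lit 377270), .ofNat (nat_lit 304717), .ofNat (nat_lit 420856), .ofNat (nat_lit 261806), .ofNat (nat_lit 371522), .ofNat (nat_lit 306116), .ofNat (nat_lit 415832)⟩⟩, [⟨nat_lit 13, nat_lit 66, nat_lit 72, nat_lit 100, nat_lit 235979837⟩, ⟨nat_lit 16, nat_lit 66, nat_lit 100, nat_lit 72, nat_lit 263731035⟩, ⟨nat_lit 7, nat_lit 74, nat_lit 100, nat_lit 72, nat_lit 32374506⟩]⟩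
noncomputable def p078_l93 : Lf2 := ⟨nat_lit 0, nat_lit 20, [nat_lit 5, nat_lit 5, nat_lit 5, nat_lit 20], false, nat_lit 160, nat_lit 232, nat_lit 16, nat_lit 348, ⟨nat_lit 291, nat_lit 709, nat_lit 0, nat_lit 8, nat_lit 304, nat_lit 709, nat_lit 136, nat_lit 0, nat_lit 0, nat_lit 0, nat_lit 0, nat_lit 0, nat_lit 38103303, nat_lit 22625288, nat_lit 6271409, nat_lit 4854184, true, true⟩,
 nat_lit 5576, nat_lit 0, nat_lit 0, nat_lit 0, nat_lit 4513, nat_lit 2666, nat_lit 230, nat_lit 0, nat_lit 0, nat_lit 254, nat_lit 0, nat_lit 0, nat_lit 0, nat_lit 0, nat_lit 0, nat_lit 177250, nat_lit 0, nat_lit 0, [(nat_lit 22, [(nat_lit 0, nat_lit 709)])],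
 ⟨p078_k13, nat_lit 0, nat_lit 0, nat_lit 217, nat_lit 0, nat_lit 363001, [nat_lit 1703024001, nat_lit 2761505200, nat_lit 4241779600], [], [nat_lit 26398512690, nat_lit 27399198236, nat_lit 28709775375, nat_lit 29589426959, nat_lit 27516070227, nat_lit 28401706869, nat_lit 29594395537, nat_lit 30620184674], nat_lit 1271250, nat_lit 1271250, nat_lit 1271250, nat_lit 1271250, nat_lit 1100001, nat_lit 1716500, [nat_lit 490000, nat_lit 1100000, nat_lit 1785000], [nat_lit 34, nat_lit 40, nat_lit 40, nat_lit 80, nat_lit 7, nat_lit 272, nat_lit 60, nat_lit 7]⟩, ⟨p078_k6, nat_lit 0, nat_lit 0, nat_lit 619, nat_lit 0, nat_lit 708904, [nat_lit 1818750000, nat_lit 2864022000, nat_lit 4090878000], [], [nat_lit 11354371219, nat_lit 11351806492, nat_lit 11821927102, nat_lit 11832131923, nat_lit 9890085031, nat_lit 9852574638, nat_lit 10343769304, nat_lit 10328160458], nat_lit 1271250, nat_lit 1271250, nat_lit 1271250, nat_lit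 1271250, nat_lit 88400, nat_lit 2482950, [nat_lit 1412500, nat_lit 1271250, nat_lit 1271250], [nat_lit 60, nat_lit 40, nat_lit 40, nat_lit 80, nat_lit 32, nat_lit 483, nat_lit 250, nat_lit 11]⟩,
 ⟨nat_lit 3162, nat_lit 3873, ⟨.ofNat (nat_lit 715356), .ofNat (nat_lit 792782), .ofNat (nat_lit 737150), .ofNat (nat_lit 814576), .ofNat (nat_lit 705013), .ofNat (nat_lit 778158), .ofNat (nat_lit 727168), .ofNat (nat_lit 800312)⟩, ⟨.ofNat (nat_lit 261131), .ofNat (nat_lit 377270), .ofNat (nat_lit 304717), .ofNat (nat_lit 420856), .ofNat (nat_lit 261806), .ofNat (nat_lit 371522), .ofNat (nat_lit 306116), .ofNat (nat_lit 415832)⟩⟩, [⟨nat_lit 13, nat_lit 67, nat_lit 65, nat_lit 100, nat_lit 215211529⟩, ⟨nat_lit 4, nat_lit 100, nat_lit 66, nat_lit 72, nat_lit 349982461⟩, ⟨nat_lit 19, nat_lit 100, nat_lit 81, nat_lit 72, nat_lit 47876864⟩]⟩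
noncomputable def b_V_800_500_10_16 : St := ⟨true, nat_lit 1, nat_lit 1, nat_lit 1, nat_lit 80, nat_lit 320, nat_lit 360, nat_lit 200, nat_lit 240, nat_lit 240, nat_lit 384, nat_lit 40, nat_lit 80, nat_lit 160, nat_lit 260, nat_lit 0, nat_lit 360, nat_lit 40, nat_lit 80, nat_lit 0, nat_lit 0, nat_lit 0, nat_lit 0⟩
theorem d_V_800_500_10_16 (h : EB TB.env) : Dead b_V_800_500_10_16 := chkB_sound0 h (T :=
(.spl (nat_lit 0) (nat_lit 340)
(.spl (nat_lit 2) (nat_lit 320)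
(.spl (nat_lit 1) (nat_lit 220)
(.leaf p078_l84)
(.trX (nat_lit 19) (nat_lit 100) (nat_lit 68) (nat_lit 80) (nat_lit 348) (.leaf p078_l85)))
(.trZ (nat_lit 9) (nat_lit 100) (nat_lit 82) (nat_lit 44) (nat_lit 16) (.spl (nat_lit 1) (nat_lit 220)
(.trX (nat_lit 13) (nat_lit 80) (nat_lit 52) (nat_lit 100) (nat_lit 372) (.spl (nat_lit 3) (nat_lit 60)
(.trX (nat_lit 16) (nat_lit 81) (nat_lit 100) (nat_lit 72) (nat_lit 232) (.trX (nat_lit 19) (nat_lit 100) (nat_lit 70) (nat_lit 71) (nat_lit 344) (.leaf p078_l86)))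
(.leaf p078_l87)))
(.trX (nat_lit 19) (nat_lit 100) (nat_lit 68) (nat_lit 80) (nat_lit 348) (.spl (nat_lit 0) (nat_lit 330)
(.leaf p078_l88)
(.trX (nat_lit 13) (nat_lit 78) (nat_lit 49) (nat_lit 100) (nat_lit 376) (.trX (nat_lit 16) (nat_lit 78) (nat_lit 100) (nat_lit 82) (nat_lit 244) (.leaf p078_l89))))))))
(.trX (nat_lit 13) (nat_lit 73) (nat_lit 55) (nat_lit 100) (nat_lit 368) (.trX (nat_lit 16) (nat_lit 72) (nat_lit 100) (nat_lit 81) (nat_lit 232) (.spl (nat_lit 2) (nat_lit 320)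
(.spl (nat_lit 1) (nat_lit 220)
(.leaf p078_l90)
(.trX (nat_lit 19) (nat_lit 100) (nat_lit 68) (nat_lit 80) (nat_lit 348) (.leaf p078_l91)))
(.trZ (nat_lit 9) (nat_lit 100) (nat_lit 82) (nat_lit 44) (nat_lit 16) (.spl (nat_lit 1) (nat_lit 220)
(.trX (nat_lit 13) (nat_lit 72) (nat_lit 63) (nat_lit 100) (nat_lit 360) (.leaf p078_l92))
(.trX (nat_lit 19) (nat_lit 100) (nat_lit 68) (nat_lit 80) (nat_lit 348) (.leaf p078_l93))))))))) (by decide +kernel)
noncomputable def p078_l94 : Lf2 := ⟨nat_lit 0, nat_lit 20, [nat_lit 5, nat_lit 5, nat_lit 5, nat_lit 20], true, nat_lit 0, nat_lit 260, nat_lit 0, nat_lit 360, ⟨nat_lit 0, nat_lit 1000, nat_lit 0, nat_lit 5, nat_lit 170, nat_lit 1000, nat_lit 89, nat_lit 0, nat_lit 0, nat_lit 0, nat_lit 0, nat_lit 0, nat_lit 0, nat_lit 0, nat_lit 0, nat_lit 5000000, false, false⟩,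
 nat_lit 0, nat_lit 5949, nat_lit 0, nat_lit 0, nat_lit 4461, nat_lit 0, nat_lit 0, nat_lit 0, nat_lit 0, nat_lit 0, nat_lit 0, nat_lit 0, nat_lit 0, nat_lit 0, nat_lit 0, nat_lit 434800, nat_lit 0, nat_lit 0, [(nat_lit 19, [(nat_lit 1, nat_lit 942), (nat_lit 2, nat_lit 58)]), (nat_lit 22, [(nat_lit 1, nat_lit 942), (nat_lit 2, nat_lit 58)])],
 ⟨p078_k7, nat_lit 0, nat_lit 0, nat_lit 575, nat_lit 0, nat_lit 628462, [nat_lit 1593183601, nat_lit 1933746001, nat_lit 1542881600], [], [nat_lit 25967231289, nat_lit 27594831339, nat_lit 26656512953, nat_lit 27873942940, nat_lit 26118786449, nat_lit 27228610991, nat_lit 33428673457, nat_lit 29702003128], nat_lit 1271250, nat_lit 1271250, nat_lit 230001, nat_lit 1717500, nat_lit 0, nat_lit 1836250, [nat_lit 490000, nat_lit 1427500, nat_lit 1271250], [nat_lit 61, nat_lit 40, nat_lit 40, nat_lit 80, nat_lit 1, nat_lit 345, nat_lit 125, nat_lit 10]⟩, C1.Rw.none,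
 ⟨nat_lit 3162, nat_lit 4473, ⟨.ofNat (nat_lit 227776), .ofNat (nat_lit 567977), .ofNat (nat_lit 270729), .ofNat (nat_lit 611007), .ofNat (nat_lit 255876), .ofNat (nat_lit 560952), .ofNat (nat_lit 300005), .ofNat (nat_lit 605159)⟩, ⟨.negSucc (nat_lit 12437), .ofNat (nat_lit 429433), .ofNat (nat_lit 0), .ofNat (nat_lit 472567), .ofNat (nat_lit 0), .ofNat (nat_lit 414188), .ofNat (nat_lit 0), .ofNat (nat_lit 458499)⟩⟩, [⟨nat_lit 4, nat_lit 100, nat_lit 71, nat_lit 71, nat_lit 226465507⟩]⟩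
noncomputable def p078_l95 : Lf2 := ⟨nat_lit 0, nat_lit 20, [nat_lit 5, nat_lit 5, nat_lit 5, nat_lit 20], false, nat_lit 0, nat_lit 260, nat_lit 0, nat_lit 160, ⟨nat_lit 691, nat_lit 309, nat_lit 0, nat_lit 6, nat_lit 281, nat_lit 309, nat_lit 89, nat_lit 0, nat_lit 0, nat_lit 0, nat_lit 0, nat_lit 0, nat_lit 0, nat_lit 0, nat_lit 0, nat_lit 5000000, true, true⟩,
 nat_lit 0, nat_lit 6993, nat_lit 0, nat_lit 0, nat_lit 5244, nat_lit 4772, nat_lit 210, nat_lit 0, nat_lit 0, nat_lit 717, nat_lit 0, nat_lit 0, nat_lit 0, nat_lit 0, nat_lit 0, nat_lit 309000, nat_lit 0, nat_lit 0, [(nat_lit 19, [(nat_lit 2, nat_lit 309)]), (nat_lit 22, [(nat_lit 2, nat_lit 309)])],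
 ⟨p078_k4, nat_lit 0, nat_lit 0, nat_lit 467, nat_lit 0, nat_lit 628462, [nat_lit 1929000001, nat_lit 3564146401, nat_lit 5826606800], [], [nat_lit 30183278111, nat_lit 31883008925, nat_lit 35326531210, nat_lit 37199550576, nat_lit 29459541715, nat_lit 30519381499, nat_lit 32578104595, nat_lit 33460537298], nat_lit 1271250, nat_lit 1271250, nat_lit 1271250, nat_lit 1271250, nat_lit 0, nat_lit 1836250, [nat_lit 490000, nat_lit 1100000, nat_lit 2127500], [nat_lit 27, nat_lit 40, nat_lit 40, nat_lit 80, nat_lit 13, nat_lit 401, nat_lit 175, nat_lit 11]⟩, ⟨p078_k5, nat_lit 0, nat_lit 0, nat_lit 294, nat_lit 0, nat_lit 0, [nat_lit 4318750000, nat_lit 6800822000, nat_lit 9714078000], [], [nat_lit 22517825146, nat_lit 23232488850, nat_lit 27676452983, nat_lit 28060056194, nat_lit 19401730266, nat_lit 19993137726, nat_lit 23907523734, nat_lit 24328982361], nat_lit 0, nat_lit 0, nat_lit 0, nat_lit 0, nat_lit 0, nat_lit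 0, [], [nat_lit 60, nat_lit 40, nat_lit 40, nat_lit 80, nat_lit 32, nat_lit 428, nat_lit 200, nat_lit 10]⟩,
 ⟨nat_lit 3162, nat_lit 4473, ⟨.ofNat (nat_lit 567977), .ofNat (nat_lit 812698), .ofNat (nat_lit 611007), .ofNat (nat_lit 855831), .ofNat (nat_lit 560952), .ofNat (nat_lit 780384), .ofNat (nat_lit 605159), .ofNat (nat_lit 824694)⟩, ⟨.negSucc (nat_lit 12437), .ofNat (nat_lit 429433), .ofNat (nat_lit 0), .ofNat (nat_lit 472567), .ofNat (nat_lit 0), .ofNat (nat_lit 414188), .ofNat (nat_lit 0), .ofNat (nat_lit 458499)⟩⟩, [⟨nat_lit 4, nat_lit 100, nat_lit 71, nat_lit 71, nat_lit 137470669⟩]⟩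
noncomputable def p078_l96 : Lf2 := ⟨nat_lit 0, nat_lit 20, [nat_lit 5, nat_lit 5, nat_lit 5, nat_lit 20], false, nat_lit 0, nat_lit 260, nat_lit 160, nat_lit 360, ⟨nat_lit 660, nat_lit 340, nat_lit 0, nat_lit 6, nat_lit 281, nat_lit 340, nat_lit 89, nat_lit 0, nat_lit 0, nat_lit 0, nat_lit 0, nat_lit 0, nat_lit 0, nat_lit 0, nat_lit 0, nat_lit 5000000, true, true⟩,
 nat_lit 0, nat_lit 6244, nat_lit 0, nat_lit 0, nat_lit 4682, nat_lit 4402, nat_lit 332, nat_lit 0, nat_lit 0, nat_lit 0, nat_lit 0, nat_lit 0, nat_lit 0, nat_lit 0, nat_lit 0, nat_lit 340000, nat_lit 0, nat_lit 0, [(nat_lit 19, [(nat_lit 2, nat_lit 340)]), (nat_lit 22, [(nat_lit 2, nat_lit 340)])],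
 ⟨p078_k4, nat_lit 0, nat_lit 0, nat_lit 467, nat_lit 0, nat_lit 628462, [nat_lit 1918666667, nat_lit 3451397334, nat_lit 5423768000], [], [nat_lit 30392288204, nat_lit 31828804820, nat_lit 34420410470, nat_lit 35582196022, nat_lit 30198831966, nat_lit 31231956518, nat_lit 33518170231, nat_lit 34443437224], nat_lit 1271250, nat_lit 1271250, nat_lit 1271250, nat_lit 1271250, nat_lit 0, nat_lit 1836250, [nat_lit 490000, nat_lit 1100000, nat_lit 2127500], [nat_lit 27, nat_lit 40, nat_lit 40, nat_lit 80, nat_lit 13, nat_lit 401, nat_lit 175, nat_lit 11]⟩, ⟨p078_k5, nat_lit 0, nat_lit 0, nat_lit 116, nat_lit 0, nat_lit 0, [nat_lit 4125000000, nat_lit 6495720000, nat_lit 9278280000], [], [nat_lit 9971012280, nat_lit 11383048760, nat_lit 17784703973, nat_lit 18523850626, nat_lit 17619733280, nat_lit 18300195352, nat_lit 22266597857, nat_lit 22635719947], nat_lit 0, nat_lit 0, nat_lit 0, nat_lit 0, nat_lit 0, nat_lit 0,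 [], [nat_lit 60, nat_lit 40, nat_lit 40, nat_lit 80, nat_lit 32, nat_lit 483, nat_lit 250, nat_lit 11]⟩,
 ⟨nat_lit 3162, nat_lit 4473, ⟨.ofNat (nat_lit 567977), .ofNat (nat_lit 812698), .ofNat (nat_lit 611007), .ofNat (nat_lit 855831), .ofNat (nat_lit 560952), .ofNat (nat_lit 780384), .ofNat (nat_lit 605159), .ofNat (nat_lit 824694)⟩, ⟨.negSucc (nat_lit 12437), .ofNat (nat_lit 429433), .ofNat (nat_lit 0), .ofNat (nat_lit 472567), .ofNat (nat_lit 0), .ofNat (nat_lit 414188), .ofNat (nat_lit 0), .ofNat (nat_lit 458499)⟩⟩, [⟨nat_lit 13, nat_lit 60, nat_lit 80, nat_lit 100, nat_lit 12125540⟩, ⟨nat_lit 4, nat_lit 100, nat_lit 71, nat_lit 71, nat_lit 230578055⟩, ⟨nat_lit 7, nat_lit 77, nat_lit 100, nat_lit 72, nat_lit 370181310⟩]⟩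
noncomputable def p078_l97 : Lf2 := ⟨nat_lit 0, nat_lit 20, [nat_lit 5, nat_lit 5, nat_lit 5, nat_lit 20], false, nat_lit 0, nat_lit 260, nat_lit 0, nat_lit 360, ⟨nat_lit 0, nat_lit 1000, nat_lit 0, nat_lit 5, nat_lit 170, nat_lit 1000, nat_lit 89, nat_lit 0, nat_lit 0, nat_lit 0, nat_lit 0, nat_lit 0, nat_lit 0, nat_lit 0, nat_lit 0, nat_lit 5000000, false, false⟩,
 nat_lit 0, nat_lit 9403, nat_lit 0, nat_lit 0, nat_lit 7051, nat_lit 0, nat_lit 0, nat_lit 0, nat_lit 0, nat_lit 0, nat_lit 0, nat_lit 0, nat_lit 0, nat_lit 0, nat_lit 0, nat_lit 250000, nat_lit 0, nat_lit 0, [(nat_lit 19, [(nat_lit 0, nat_lit 1000)]), (nat_lit 22, [(nat_lit 0, nat_lit 1000)])],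
 ⟨p078_k28, nat_lit 0, nat_lit 0, nat_lit 451, nat_lit 0, nat_lit 398537, [nat_lit 1642800000, nat_lit 3238355556], [], [nat_lit 35625763396, nat_lit 32959032972, nat_lit 28732133024, nat_lit 31333051496, nat_lit 26737153333, nat_lit 29013412608, nat_lit 32251225697, nat_lit 27281326160], nat_lit 1271250, nat_lit 1271250, nat_lit 230001, nat_lit 1717500, nat_lit 0, nat_lit 1836250, [nat_lit 490000, nat_lit 2052500], [nat_lit 94, nat_lit 40, nat_lit 40, nat_lit 80, nat_lit 95, nat_lit 345, nat_lit 125, nat_lit 10]⟩, ⟨p078_k31, nat_lit 0, nat_lit 0, nat_lit 807, nat_lit 0, nat_lit 821599, [nat_lit 0, nat_lit 0], [], [nat_lit 0, nat_lit 0, nat_lit 0, nat_lit 0, nat_lit 0, nat_lit 0, nat_lit 0, nat_lit 0], nat_lit 1271250, nat_lit 1271250, nat_lit 230001, nat_lit 1717500, nat_lit 0, nat_lit 2542500, [nat_lit 1412500, nat_lit 1271250], [nat_lit 149, nat_lit 40, nat_lit 40, nat_lit 80, nat_lit 68, nat_lit 456, nat_lit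 225, nat_lit 11]⟩,
 ⟨nat_lit 3162, nat_lit 4473, ⟨.ofNat (nat_lit 227776), .ofNat (nat_lit 567977), .ofNat (nat_lit 270729), .ofNat (nat_lit 611007), .ofNat (nat_lit 255876), .ofNat (nat_lit 560952), .ofNat (nat_lit 300005), .ofNat (nat_lit 605159)⟩, ⟨.negSucc (nat_lit 12437), .ofNat (nat_lit 429433), .ofNat (nat_lit 0), .ofNat (nat_lit 472567), .ofNat (nat_lit 0), .ofNat (nat_lit 414188), .ofNat (nat_lit 0), .ofNat (nat_lit 458499)⟩⟩, []⟩
noncomputable def p078_l98 : Lf2 := ⟨nat_lit 0, nat_lit 20, [nat_lit 5, nat_lit 5, nat_lit 5, nat_lit 20], false, nat_lit 0, nat_lit 260, nat_lit 0, nat_lit 360, ⟨nat_lit 0, nat_lit 1000, nat_lit 0, nat_lit 6, nat_lit 281, nat_lit 1000, nat_lit 89, nat_lit 0, nat_lit 0, nat_lit 0, nat_lit 0, nat_lit 0, nat_lit 0, nat_lit 0, nat_lit 0, nat_lit 5000000, true, true⟩,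
 nat_lit 0, nat_lit 4915, nat_lit 0, nat_lit 0, nat_lit 3686, nat_lit 0, nat_lit 11, nat_lit 0, nat_lit 0, nat_lit 0, nat_lit 0, nat_lit 0, nat_lit 0, nat_lit 0, nat_lit 0, nat_lit 500200, nat_lit 0, nat_lit 0, [(nat_lit 19, [(nat_lit 1, nat_lit 833), (nat_lit 2, nat_lit 167)]), (nat_lit 22, [(nat_lit 1, nat_lit 833), (nat_lit 2, nat_lit 167)])],
 ⟨p078_k4, nat_lit 0, nat_lit 0, nat_lit 361, nat_lit 0, nat_lit 398537, [nat_lit 1448322400, nat_lit 1872826667, nat_lit 999538400], [], [nat_lit 26097773013, nat_lit 27644380533, nat_lit 30885285015, nat_lit 32686018344, nat_lit 27072906419, nat_lit 28214042543, nat_lit 30347642704, nat_lit 31207670981], nat_lit 1271250, nat_lit 1271250, nat_lit 1271250, nat_lit 1271250, nat_lit 0, nat_lit 1836250, [nat_lit 490000, nat_lit 1100000, nat_lit 2127500], [nat_lit 27, nat_lit 40, nat_lit 40, nat_lit 80, nat_lit 13, nat_lit 401, nat_lit 175, nat_lit 11]⟩, ⟨p078_k5, nat_lit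 0, nat_lit 0, nat_lit 726, nat_lit 0, nat_lit 821599, [nat_lit 0, nat_lit 0, nat_lit 0], [], [nat_lit 0, nat_lit 0, nat_lit 0, nat_lit 0, nat_lit 0, nat_lit 0, nat_lit 0, nat_lit 0], nat_lit 1271250, nat_lit 1271250, nat_lit 1271250, nat_lit 1271250, nat_lit 0, nat_lit 2542500, [nat_lit 1412500, nat_lit 1271250, nat_lit 1271250], [nat_lit 60, nat_lit 40, nat_lit 40, nat_lit 80, nat_lit 32, nat_lit 483, nat_lit 250, nat_lit 11]⟩,
 ⟨nat_lit 3162, nat_lit 4473, ⟨.ofNat (nat_lit 567977), .ofNat (nat_lit 812698), .ofNat (nat_lit 611007), .ofNat (nat_lit 855831), .ofNat (nat_lit 560952), .ofNat (nat_lit 780384), .ofNat (nat_lit 605159), .ofNat (nat_lit 824694)⟩, ⟨.negSucc (nat_lit 12437), .ofNat (nat_lit 429433), .ofNat (nat_lit 0), .ofNat (nat_lit 472567), .ofNat (nat_lit 0), .ofNat (nat_lit 414188), .ofNat (nat_lit 0), .ofNat (nat_lit 458499)⟩⟩, [⟨nat_lit 13, nat_lit 72, nat_lit 63, nat_lit 100, nat_lit 281125043⟩,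 ⟨nat_lit 4, nat_lit 100, nat_lit 71, nat_lit 71, nat_lit 91727464⟩]⟩
noncomputable def b_V_800_500_10_17 : St := ⟨true, nat_lit 1, nat_lit 2, nat_lit 2, nat_lit 80, nat_lit 320, nat_lit 360, nat_lit 200, nat_lit 240, nat_lit 40, nat_lit 384, nat_lit 40, nat_lit 80, nat_lit 0, nat_lit 260, nat_lit 0, nat_lit 360, nat_lit 40, nat_lit 80, nat_lit 0, nat_lit 0, nat_lit 0, nat_lit 0⟩
theorem d_V_800_500_10_17 (h : EB TB.env) : Dead b_V_800_500_10_17 := chkB_sound0 h (T :=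
(.st (nat_lit 1)
(.spl (nat_lit 2) (nat_lit 240)
(.leaf p078_l94)
(.spl (nat_lit 5) (nat_lit 160)
(.leaf p078_l95)
(.leaf p078_l96)))
(.spl (nat_lit 2) (nat_lit 240)
(.leaf p078_l97)
(.leaf p078_l98)))) (by decide +kernel)
noncomputable def p078_l99 : Lf2 := ⟨nat_lit 0, nat_lit 20, [nat_lit 5, nat_lit 5, nat_lit 5, nat_lit 20], false, nat_lit 0, nat_lit 160, nat_lit 0, nat_lit 360, ⟨nat_lit 41, nat_lit 0, nat_lit 959, nat_lit 5, nat_lit 170, nat_lit 618, nat_lit 57, nat_lit 959, nat_lit 29400, nat_lit 257, nat_lit 817, nat_lit 208, nat_lit 56752254, nat_lit 0, nat_lit 0, nat_lit 2138971, false, false⟩,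
 nat_lit 0, nat_lit 0, nat_lit 0, nat_lit 4229, nat_lit 2695, nat_lit 881, nat_lit 0, nat_lit 0, nat_lit 0, nat_lit 0, nat_lit 0, nat_lit 0, nat_lit 0, nat_lit 0, nat_lit 110, nat_lit 383600, nat_lit 0, nat_lit 0, [(nat_lit 19, [(nat_lit 5, nat_lit 959)]), (nat_lit 22, [(nat_lit 5, nat_lit 959)])],
 ⟨p078_k7, nat_lit 0, nat_lit 0, nat_lit 299, nat_lit 0, nat_lit 0, [nat_lit 2004210601, nat_lit 1239566700, nat_lit 276626000], [], [nat_lit 18144300341, nat_lit 20160015240, nat_lit 20622617262, nat_lit 22483592060, nat_lit 18093666301, nat_lit 20023879462, nat_lit 20790978482, nat_lit 22505359303], nat_lit 0, nat_lit 0, nat_lit 0, nat_lit 0, nat_lit 0, nat_lit 0, [], [nat_lit 61, nat_lit 40, nat_lit 40, nat_lit 80, nat_lit 1, nat_lit 317, nat_lit 100, nat_lit 9]⟩, ⟨p078_k9, nat_lit 0, nat_lit 0, nat_lit 425, nat_lit 0, nat_lit 0, [nat_lit 256250000, nat_lit 486752000, nat_lit 576378000], [], [nat_lit 2656197472, nat_lit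 2666683740, nat_lit 2014590716, nat_lit 1997311908, nat_lit 2095883264, nat_lit 2106049254, nat_lit 1452237064, nat_lit 1435559586], nat_lit 0, nat_lit 0, nat_lit 0, nat_lit 0, nat_lit 0, nat_lit 0, [], [nat_lit 137, nat_lit 40, nat_lit 40, nat_lit 80, nat_lit 58, nat_lit 456, nat_lit 225, nat_lit 11]⟩,
 ⟨nat_lit 3162, nat_lit 4473, ⟨.ofNat (nat_lit 227776), .ofNat (nat_lit 567977), .ofNat (nat_lit 270729), .ofNat (nat_lit 611007), .ofNat (nat_lit 255876), .ofNat (nat_lit 560952), .ofNat (nat_lit 300005), .ofNat (nat_lit 605159)⟩, ⟨.negSucc (nat_lit 12437), .ofNat (nat_lit 259488), .ofNat (nat_lit 0), .ofNat (nat_lit 302621), .ofNat (nat_lit 0), .ofNat (nat_lit 261805), .ofNat (nat_lit 0), .ofNat (nat_lit 306116)⟩⟩, [⟨nat_lit 10, nat_lit 63, nat_lit 100, nat_lit 61, nat_lit 312905⟩]⟩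
noncomputable def p078_l100 : Lf2 := ⟨nat_lit 0, nat_lit 20, [nat_lit 5, nat_lit 5, nat_lit 5, nat_lit 20], true, nat_lit 160, nat_lit 260, nat_lit 0, nat_lit 360, ⟨nat_lit 0, nat_lit 0, nat_lit 1000, nat_lit 5, nat_lit 170, nat_lit 1000, nat_lit 145, nat_lit 1000, nat_lit 89743, nat_lit 288, nat_lit 817, nat_lit 208, nat_lit 48867133, nat_lit 0, nat_lit 0, nat_lit 4121686, false, false⟩,
 nat_lit 0, nat_lit 0, nat_lit 0, nat_lit 6198, nat_lit 3465, nat_lit 0, nat_lit 0, nat_lit 0, nat_lit 0, nat_lit 0, nat_lit 0, nat_lit 0, nat_lit 0, nat_lit 0, nat_lit 81, nat_lit 250000, nat_lit 0, nat_lit 0, [(nat_lit 19, [(nat_lit 4, nat_lit 1000)]), (nat_lit 22, [(nat_lit 4, nat_lit 1000)])],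
 ⟨p078_k28, nat_lit 0, nat_lit 0, nat_lit 151, nat_lit 0, nat_lit 0, [nat_lit 2166400000, nat_lit 172800000], [], [nat_lit 17846281380, nat_lit 20343646840, nat_lit 20241587980, nat_lit 22105005620, nat_lit 20782661740, nat_lit 23247499115, nat_lit 22597252535, nat_lit 24974954400], nat_lit 0, nat_lit 0, nat_lit 0, nat_lit 0, nat_lit 0, nat_lit 0, [], [nat_lit 94, nat_lit 40, nat_lit 40, nat_lit 80, nat_lit 95, nat_lit 345, nat_lit 125, nat_lit 9]⟩, C1.Rw.none,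
 ⟨nat_lit 3162, nat_lit 4473, ⟨.ofNat (nat_lit 227776), .ofNat (nat_lit 567977), .ofNat (nat_lit 270729), .ofNat (nat_lit 611007), .ofNat (nat_lit 255876), .ofNat (nat_lit 560952), .ofNat (nat_lit 300005), .ofNat (nat_lit 605159)⟩, ⟨.ofNat (nat_lit 259488), .ofNat (nat_lit 429433), .ofNat (nat_lit 302621), .ofNat (nat_lit 472567), .ofNat (nat_lit 261805), .ofNat (nat_lit 414188), .ofNat (nat_lit 306116), .ofNat (nat_lit 458499)⟩⟩, [⟨nat_lit 16, nat_lit 71, nat_lit 100, nat_lit 71, nat_lit 311438689⟩]⟩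
noncomputable def p078_l101 : Lf2 := ⟨nat_lit 0, nat_lit 20, [nat_lit 5, nat_lit 5, nat_lit 5, nat_lit 20], false, nat_lit 0, nat_lit 260, nat_lit 0, nat_lit 160, ⟨nat_lit 1000, nat_lit 0, nat_lit 0, nat_lit 0, nat_lit 0, nat_lit 0, nat_lit 0, nat_lit 0, nat_lit 0, nat_lit 0, nat_lit 0, nat_lit 0, nat_lit 0, nat_lit 0, nat_lit 0, nat_lit 0, false, false⟩,
 nat_lit 0, nat_lit 0, nat_lit 0, nat_lit 7488, nat_lit 6476, nat_lit 7355, nat_lit 399, nat_lit 0, nat_lit 0, nat_lit 0, nat_lit 0, nat_lit 0, nat_lit 0, nat_lit 0, nat_lit 0, nat_lit 0, nat_lit 0, nat_lit 0, [],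
 ⟨p078_k4, nat_lit 0, nat_lit 0, nat_lit 211, nat_lit 0, nat_lit 0, [nat_lit 2032000001, nat_lit 4688000000, nat_lit 9842000000], [], [nat_lit 30424991003, nat_lit 33556402315, nat_lit 38720538715, nat_lit 40770850802, nat_lit 28302834159, nat_lit 30133737195, nat_lit 33680954437, nat_lit 35125486764], nat_lit 0, nat_lit 0, nat_lit 0, nat_lit 0, nat_lit 0, nat_lit 0, [], [nat_lit 27, nat_lit 40, nat_lit 40, nat_lit 80, nat_lit 13, nat_lit 401, nat_lit 175, nat_lit 11]⟩, ⟨p078_k5, nat_lit 0, nat_lit 0, nat_lit 294, nat_lit 0, nat_lit 0, [nat_lit 6250000000, nat_lit 9842000000, nat_lit 14058000000], [], [nat_lit 40173679360, nat_lit 41212404840, nat_lit 48495532217, nat_lit 49026870944, nat_lit 35195259600, nat_lit 36048305940, nat_lit 41386868888, nat_lit 41789749508], nat_lit 0, nat_lit 0, nat_lit 0, nat_lit 0, nat_lit 0, nat_lit 0, [], [nat_lit 60, nat_lit 40, nat_lit 40, nat_lit 80, nat_lit 32, nat_lit 428, nat_lit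 200, nat_lit 10]⟩,
 zbF0, [⟨nat_lit 4, nat_lit 100, nat_lit 71, nat_lit 71, nat_lit 119066193⟩, ⟨nat_lit 9, nat_lit 100, nat_lit 88, nat_lit 25, nat_lit 10339447⟩]⟩
noncomputable def p078_l102 : Lf2 := ⟨nat_lit 0, nat_lit 20, [nat_lit 5, nat_lit 5, nat_lit 5, nat_lit 20], false, nat_lit 0, nat_lit 260, nat_lit 160, nat_lit 360, ⟨nat_lit 1000, nat_lit 0, nat_lit 0, nat_lit 0, nat_lit 0, nat_lit 0, nat_lit 0, nat_lit 0, nat_lit 0, nat_lit 0, nat_lit 0, nat_lit 0, nat_lit 0, nat_lit 0, nat_lit 0, nat_lit 0, false, false⟩,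
 nat_lit 0, nat_lit 0, nat_lit 0, nat_lit 15280, nat_lit 6476, nat_lit 7305, nat_lit 399, nat_lit 0, nat_lit 0, nat_lit 0, nat_lit 0, nat_lit 0, nat_lit 0, nat_lit 0, nat_lit 0, nat_lit 0, nat_lit 0, nat_lit 0, [],
 ⟨p078_k4, nat_lit 0, nat_lit 0, nat_lit 211, nat_lit 0, nat_lit 0, [nat_lit 2032000001, nat_lit 4688000000, nat_lit 9842000000], [], [nat_lit 30424991003, nat_lit 33556402315, nat_lit 38720538715, nat_lit 40770850802, nat_lit 28302834159, nat_lit 30133737195, nat_lit 33680954437, nat_lit 35125486764], nat_lit 0, nat_lit 0, nat_lit 0, nat_lit 0, nat_lit 0, nat_lit 0, [], [nat_lit 27, nat_lit 40, nat_lit 40, nat_lit 80, nat_lit 13, nat_lit 401, nat_lit 175, nat_lit 11]⟩, ⟨p078_k5, nat_lit 0, nat_lit 0, nat_lit 116, nat_lit 0, nat_lit 0, [nat_lit 6250000000, nat_lit 9842000000, nat_lit 14058000000], [], [nat_lit 14136991100, nat_lit 16368660900, nat_lit 26656443333, nat_lit 27788432244, nat_lit 26273542700,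 nat_lit 27310794680, nat_lit 34522264780, nat_lit 35052859147], nat_lit 0, nat_lit 0, nat_lit 0, nat_lit 0, nat_lit 0, nat_lit 0, [], [nat_lit 60, nat_lit 40, nat_lit 40, nat_lit 80, nat_lit 32, nat_lit 483, nat_lit 250, nat_lit 11]⟩,
 zbF0, [⟨nat_lit 4, nat_lit 100, nat_lit 71, nat_lit 71, nat_lit 123578548⟩, ⟨nat_lit 19, nat_lit 100, nat_lit 60, nat_lit 80, nat_lit 538620440⟩]⟩
noncomputable def b_V_800_500_10_18 : St := ⟨true, nat_lit 0, nat_lit 0, nat_lit 1, nat_lit 80, nat_lit 320, nat_lit 360, nat_lit 200, nat_lit 240, nat_lit 40, nat_lit 384, nat_lit 40, nat_lit 80, nat_lit 0, nat_lit 260, nat_lit 0, nat_lit 360, nat_lit 80, nat_lit 112, nat_lit 0, nat_lit 0, nat_lit 0, nat_lit 0⟩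
theorem d_V_800_500_10_18 (h : EB TB.env) : Dead b_V_800_500_10_18 := chkB_sound0 h (T :=
(.spl (nat_lit 2) (nat_lit 240)
(.spl (nat_lit 4) (nat_lit 160)
(.leaf p078_l99)
(.leaf p078_l100))
(.spl (nat_lit 5) (nat_lit 160)
(.leaf p078_l101)
(.leaf p078_l102)))) (by decide +kernel)
noncomputable def p078_l103 : Lf2 := ⟨nat_lit 0, nat_lit 20, [nat_lit 5, nat_lit 5, nat_lit 5, nat_lit 20], true, nat_lit 0, nat_lit 160, nat_lit 0, nat_lit 360, ⟨nat_lit 0, nat_lit 0, nat_lit 1000, nat_lit 5, nat_lit 169, nat_lit 505, nat_lit 56, nat_lit 1000, nat_lit 29400, nat_lit 257, nat_lit 817, nat_lit 208, nat_lit 56860881, nat_lit 0, nat_lit 0, nat_lit 2125045, false, false⟩,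
 nat_lit 0, nat_lit 0, nat_lit 0, nat_lit 5598, nat_lit 3324, nat_lit 0, nat_lit 0, nat_lit 0, nat_lit 0, nat_lit 0, nat_lit 0, nat_lit 0, nat_lit 0, nat_lit 0, nat_lit 91, nat_lit 280150, nat_lit 0, nat_lit 0, [(nat_lit 19, [(nat_lit 4, nat_lit 799), (nat_lit 5, nat_lit 201)])],
 ⟨p078_k28, nat_lit 0, nat_lit 0, nat_lit 286, nat_lit 0, nat_lit 0, [nat_lit 2227586400, nat_lit 201791200], [], [nat_lit 18934663568, nat_lit 20100632680, nat_lit 21084482192, nat_lit 22092177656, nat_lit 18237875440, nat_lit 19261180296, nat_lit 20643968896, nat_lit 21510860432], nat_lit 0, nat_lit 0, nat_lit 0, nat_lit 0, nat_lit 0, nat_lit 0, [], [nat_lit 94, nat_lit 40, nat_lit 40, nat_lit 80, nat_lit 95, nat_lit 317, nat_lit 100, nat_lit 9]⟩, C1.Rw.none,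
 ⟨nat_lit 3872, nat_lit 4473, ⟨.ofNat (nat_lit 228056), .ofNat (nat_lit 567977), .ofNat (nat_lit 271153), .ofNat (nat_lit 611083), .ofNat (nat_lit 241882), .ofNat (nat_lit 564520), .ofNat (nat_lit 285433), .ofNat (nat_lit 608080)⟩, ⟨.negSucc (nat_lit 12427), .ofNat (nat_lit 259489), .ofNat (nat_lit 0), .ofNat (nat_lit 302621), .ofNat (nat_lit 0), .ofNat (nat_lit 261131), .ofNat (nat_lit 0), .ofNat (nat_lit 304717)⟩⟩, []⟩
noncomputable def p078_l104 : Lf2 := ⟨nat_lit 0, nat_lit 20, [nat_lit 5, nat_lit 5, nat_lit 5, nat_lit 20], true, nat_lit 0, nat_lit 160, nat_lit 0, nat_lit 360, ⟨nat_lit 0, nat_lit 177, nat_lit 823, nat_lit 5, nat_lit 176, nat_lit 754, nat_lit 57, nat_lit 823, nat_lit 30817, nat_lit 258, nat_lit 600, nat_lit 209, nat_lit 56118806, nat_lit 10881194, nat_lit 0, nat_lit 2218188, false, false⟩,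
 nat_lit 0, nat_lit 0, nat_lit 0, nat_lit 3085, nat_lit 2996, nat_lit 0, nat_lit 0, nat_lit 0, nat_lit 0, nat_lit 0, nat_lit 0, nat_lit 0, nat_lit 0, nat_lit 0, nat_lit 58, nat_lit 250000, nat_lit 0, nat_lit 0, [(nat_lit 22, [(nat_lit 0, nat_lit 177), (nat_lit 4, nat_lit 823)])],
 ⟨p078_k32, nat_lit 0, nat_lit 0, nat_lit 222, nat_lit 0, nat_lit 0, [nat_lit 1968793600, nat_lit 13915429], [], [nat_lit 19243670686, nat_lit 20484368512, nat_lit 22026610029, nat_lit 23079076464, nat_lit 19147043345, nat_lit 20293125481, nat_lit 22002677920, nat_lit 23123518800], nat_lit 0, nat_lit 0, nat_lit 0, nat_lit 0, nat_lit 0, nat_lit 0, [], [nat_lit 110, nat_lit 40, nat_lit 40, nat_lit 80, nat_lit 109, nat_lit 317, nat_lit 100, nat_lit 10]⟩, C1.Rw.none,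
 ⟨nat_lit 3162, nat_lit 3873, ⟨.ofNat (nat_lit 267606), .ofNat (nat_lit 564520), .ofNat (nat_lit 311135), .ofNat (nat_lit 608082), .ofNat (nat_lit 280451), .ofNat (nat_lit 560952), .ofNat (nat_lit 324704), .ofNat (nat_lit 605237)⟩, ⟨.ofNat (nat_lit 0), .ofNat (nat_lit 261131), .ofNat (nat_lit 0), .ofNat (nat_lit 304717), .ofNat (nat_lit 0), .ofNat (nat_lit 261806), .ofNat (nat_lit 0), .ofNat (nat_lit 306116)⟩⟩, [⟨nat_lit 3, nat_lit 100, nat_lit 75, nat_lit 35, nat_lit 15325720⟩]⟩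
noncomputable def p078_l105 : Lf2 := ⟨nat_lit 0, nat_lit 20, [nat_lit 5, nat_lit 5, nat_lit 5, nat_lit 20], true, nat_lit 160, nat_lit 260, nat_lit 0, nat_lit 360, ⟨nat_lit 0, nat_lit 0, nat_lit 1000, nat_lit 5, nat_lit 170, nat_lit 1000, nat_lit 145, nat_lit 1000, nat_lit 89743, nat_lit 288, nat_lit 817, nat_lit 208, nat_lit 48867133, nat_lit 0, nat_lit 0, nat_lit 4121686, false, false⟩,
 nat_lit 0, nat_lit 0, nat_lit 0, nat_lit 6198, nat_lit 3465, nat_lit 0, nat_lit 0, nat_lit 0, nat_lit 0, nat_lit 0, nat_lit 0, nat_lit 0, nat_lit 0, nat_lit 0, nat_lit 81, nat_lit 250000, nat_lit 0, nat_lit 0, [(nat_lit 19, [(nat_lit 4, nat_lit 1000)]), (nat_lit 22, [(nat_lit 4, nat_lit 1000)])],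
 ⟨p078_k28, nat_lit 0, nat_lit 0, nat_lit 151, nat_lit 0, nat_lit 0, [nat_lit 2166400000, nat_lit 172800000], [], [nat_lit 17846281380, nat_lit 20343646840, nat_lit 20241587980, nat_lit 22105005620, nat_lit 20782661740, nat_lit 23247499115, nat_lit 22597252535, nat_lit 24974954400], nat_lit 0, nat_lit 0, nat_lit 0, nat_lit 0, nat_lit 0, nat_lit 0, [], [nat_lit 94, nat_lit 40, nat_lit 40, nat_lit 80, nat_lit 95, nat_lit 345, nat_lit 125, nat_lit 9]⟩, C1.Rw.none,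
 ⟨nat_lit 3162, nat_lit 4473, ⟨.ofNat (nat_lit 227776), .ofNat (nat_lit 567977), .ofNat (nat_lit 270729), .ofNat (nat_lit 611007), .ofNat (nat_lit 255876), .ofNat (nat_lit 560952), .ofNat (nat_lit 300005), .ofNat (nat_lit 605159)⟩, ⟨.ofNat (nat_lit 259488), .ofNat (nat_lit 429433), .ofNat (nat_lit 302621), .ofNat (nat_lit 472567), .ofNat (nat_lit 261805), .ofNat (nat_lit 414188), .ofNat (nat_lit 306116), .ofNat (nat_lit 458499)⟩⟩, [⟨nat_lit 16, nat_lit 71, nat_lit 100, nat_lit 71, nat_lit 311438689⟩]⟩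
noncomputable def b_V_800_500_10_19 : St := ⟨true, nat_lit 0, nat_lit 1, nat_lit 1, nat_lit 80, nat_lit 320, nat_lit 360, nat_lit 200, nat_lit 240, nat_lit 40, nat_lit 240, nat_lit 40, nat_lit 80, nat_lit 0, nat_lit 260, nat_lit 0, nat_lit 360, nat_lit 80, nat_lit 112, nat_lit 0, nat_lit 0, nat_lit 0, nat_lit 0⟩
theorem d_V_800_500_10_19 (h : EB TB.env) : Dead b_V_800_500_10_19 := chkB_sound0 h (T :=
(.spl (nat_lit 4) (nat_lit 160)
(.spl (nat_lit 0) (nat_lit 340)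
(.leaf p078_l103)
(.trZ (nat_lit 0) (nat_lit 100) (nat_lit 71) (nat_lit 70) (nat_lit 56) (.leaf p078_l104)))
(.leaf p078_l105))) (by decide +kernel)
noncomputable def p078_l106 : Lf2 := ⟨nat_lit 0, nat_lit 15, [nat_lit 30, nat_lit 5, nat_lit 5, nat_lit 20], false, nat_lit 0, nat_lit 160, nat_lit 0, nat_lit 344, ⟨nat_lit 1000, nat_lit 0, nat_lit 0, nat_lit 0, nat_lit 0, nat_lit 0, nat_lit 0, nat_lit 0, nat_lit 0, nat_lit 0, nat_lit 0, nat_lit 0, nat_lit 0, nat_lit 0, nat_lit 0, nat_lit 0, false, false⟩,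
 nat_lit 0, nat_lit 0, nat_lit 24278, nat_lit 0, nat_lit 6503, nat_lit 10404, nat_lit 0, nat_lit 0, nat_lit 0, nat_lit 0, nat_lit 0, nat_lit 0, nat_lit 0, nat_lit 0, nat_lit 0, nat_lit 0, nat_lit 0, nat_lit 0, [],
 ⟨p078_k2, nat_lit 0, nat_lit 0, nat_lit 167, nat_lit 0, nat_lit 0, [nat_lit 2032000001, nat_lit 4688000000, nat_lit 7968000000], [], [nat_lit 30446234908, nat_lit 32180706278, nat_lit 35039390864, nat_lit 36440677920, nat_lit 26031523868, nat_lit 27492712444, nat_lit 29928394664, nat_lit 31120203790], nat_lit 0, nat_lit 0, nat_lit 0, nat_lit 0, nat_lit 0, nat_lit 0, [], [nat_lit 34, nat_lit 40, nat_lit 40, nat_lit 80, nat_lit 7, nat_lit 249, nat_lit 40, nat_lit 7]⟩, ⟨p078_k15, nat_lit 0, nat_lit 0, nat_lit 301, nat_lit 0, nat_lit 74732, [nat_lit 6250000000, nat_lit 9842000000, nat_lit 14058000000], [], [nat_lit 40792367552, nat_lit 42264699264, nat_lit 46303178720, nat_lit 47189268768, nat_lit 38259768058,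 nat_lit 38582217564, nat_lit 40656964213, nat_lit 40660651001], nat_lit 1271250, nat_lit 1271250, nat_lit 1271250, nat_lit 1271250, nat_lit 0, nat_lit 2429500, [nat_lit 1412500, nat_lit 1271250, nat_lit 1271250], [nat_lit 60, nat_lit 40, nat_lit 40, nat_lit 80, nat_lit 32, nat_lit 483, nat_lit 250, nat_lit 11]⟩,
 zbF0, [⟨nat_lit 7, nat_lit 82, nat_lit 100, nat_lit 66, nat_lit 170544576⟩]⟩
noncomputable def p078_l107 : Lf2 := ⟨nat_lit 1, nat_lit 20, [nat_lit 5, nat_lit 5, nat_lit 5, nat_lit 20], false, nat_lit 0, nat_lit 160, nat_lit 0, nat_lit 360, zbN0,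
 nat_lit 0, nat_lit 0, nat_lit 0, nat_lit 0, nat_lit 0, nat_lit 0, nat_lit 0, nat_lit 0, nat_lit 0, nat_lit 0, nat_lit 0, nat_lit 0, nat_lit 0, nat_lit 0, nat_lit 0, nat_lit 0, nat_lit 0, nat_lit 0, [],
 C1.Rw.none, C1.Rw.none,
 zbF0, []⟩
noncomputable def p078_l108 : Lf2 := ⟨nat_lit 1, nat_lit 20, [nat_lit 5, nat_lit 5, nat_lit 5, nat_lit 20], false, nat_lit 0, nat_lit 160, nat_lit 0, nat_lit 360, zbN0,
 nat_lit 0, nat_lit 0, nat_lit 0, nat_lit 0, nat_lit 0, nat_lit 0, nat_lit 0, nat_lit 0, nat_lit 0, nat_lit 0, nat_lit 0, nat_lit 0, nat_lit 0, nat_lit 0, nat_lit 0, nat_lit 0, nat_lit 0, nat_lit 0, [],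
 C1.Rw.none, C1.Rw.none,
 zbF0, []⟩
noncomputable def p078_l109 : Lf2 := ⟨nat_lit 0, nat_lit 20, [nat_lit 5, nat_lit 5, nat_lit 5, nat_lit 20], true, nat_lit 0, nat_lit 80, nat_lit 0, nat_lit 336, ⟨nat_lit 0, nat_lit 385, nat_lit 615, nat_lit 6, nat_lit 242, nat_lit 1000, nat_lit 32, nat_lit 615, nat_lit 9600, nat_lit 239, nat_lit 30420, nat_lit 200, nat_lit 49043433, nat_lit 17956567, nat_lit 0, nat_lit 2906338, true, true⟩,
 nat_lit 0, nat_lit 0, nat_lit 0, nat_lit 3834, nat_lit 2606, nat_lit 0, nat_lit 0, nat_lit 0, nat_lit 0, nat_lit 0, nat_lit 0, nat_lit 0, nat_lit 0, nat_lit 0, nat_lit 49, nat_lit 342250, nat_lit 0, nat_lit 0, [(nat_lit 22, [(nat_lit 0, nat_lit 385), (nat_lit 5, nat_lit 615)])],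
 ⟨p078_k13, nat_lit 0, nat_lit 0, nat_lit 165, nat_lit 0, nat_lit 0, [nat_lit 1595920000, nat_lit 1046822001, nat_lit 43270000], [], [nat_lit 21670562856, nat_lit 22715835784, nat_lit 23078943816, nat_lit 24052227656, nat_lit 20923123900, nat_lit 21958205001, nat_lit 22361479585, nat_lit 23394320096], nat_lit 0, nat_lit 0, nat_lit 0, nat_lit 0, nat_lit 0, nat_lit 0, [], [nat_lit 34, nat_lit 40, nat_lit 40, nat_lit 80, nat_lit 7, nat_lit 226, nat_lit 20, nat_lit 7]⟩, C1.Rw.none,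
 ⟨nat_lit 3162, nat_lit 3873, ⟨.ofNat (nat_lit 564520), .ofNat (nat_lit 629042), .ofNat (nat_lit 586313), .ofNat (nat_lit 650835), .ofNat (nat_lit 560952), .ofNat (nat_lit 621905), .ofNat (nat_lit 583107), .ofNat (nat_lit 644060)⟩, ⟨.ofNat (nat_lit 0), .ofNat (nat_lit 132088), .ofNat (nat_lit 0), .ofNat (nat_lit 175674), .ofNat (nat_lit 0), .ofNat (nat_lit 139899), .ofNat (nat_lit 0), .ofNat (nat_lit 184209)⟩⟩, [⟨nat_lit 3, nat_lit 100, nat_lit 75, nat_lit 35, nat_lit 96611835⟩]⟩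
noncomputable def p078_l110 : Lf2 := ⟨nat_lit 0, nat_lit 20, [nat_lit 5, nat_lit 5, nat_lit 5, nat_lit 20], false, nat_lit 0, nat_lit 80, nat_lit 0, nat_lit 336, ⟨nat_lit 106, nat_lit 206, nat_lit 688, nat_lit 6, nat_lit 251, nat_lit 894, nat_lit 32, nat_lit 688, nat_lit 9600, nat_lit 239, nat_lit 74006, nat_lit 200, nat_lit 48090596, nat_lit 18909404, nat_lit 0, nat_lit 2975234, true, true⟩,
 nat_lit 0, nat_lit 0, nat_lit 2132, nat_lit 0, nat_lit 2651, nat_lit 1019, nat_lit 0, nat_lit 0, nat_lit 0, nat_lit 93, nat_lit 0, nat_lit 0, nat_lit 0, nat_lit 0, nat_lit 45, nat_lit 326700, nat_lit 0, nat_lit 0, [(nat_lit 22, [(nat_lit 0, nat_lit 206), (nat_lit 5, nat_lit 688)])],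
 ⟨p078_k13, nat_lit 0, nat_lit 0, nat_lit 165, nat_lit 0, nat_lit 0, [nat_lit 1569888000, nat_lit 1068109601, nat_lit 42018667], [], [nat_lit 21752418943, nat_lit 22804517831, nat_lit 23166027103, nat_lit 24146295128, nat_lit 20971129817, nat_lit 21977151101, nat_lit 22379497065, nat_lit 23367916153], nat_lit 0, nat_lit 0, nat_lit 0, nat_lit 0, nat_lit 0, nat_lit 0, [], [nat_lit 34, nat_lit 40, nat_lit 40, nat_lit 80, nat_lit 7, nat_lit 226, nat_lit 20, nat_lit 7]⟩, ⟨p078_k6, nat_lit 0, nat_lit 0, nat_lit 670, nat_lit 0, nat_lit 772083, [nat_lit 662500000, nat_lit 1043252000, nat_lit 1490148000], [], [nat_lit 4081757690, nat_lit 4085482396, nat_lit 4128875792, nat_lit 4127386188, nat_lit 3377032171, nat_lit 3357994331, nat_lit 3369945936, nat_lit 3348590104], nat_lit 1271250, nat_lit 1271250, nat_lit 1271250, nat_lit 1271250, nat_lit 0, nat_lit 2373000, [nat_lit 1412500, nat_lit 1271250, nat_lit 1271250], [nat_lit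 60, nat_lit 40, nat_lit 40, nat_lit 80, nat_lit 32, nat_lit 456, nat_lit 225, nat_lit 10]⟩,
 ⟨nat_lit 3162, nat_lit 3873, ⟨.ofNat (nat_lit 586313), .ofNat (nat_lit 650835), .ofNat (nat_lit 608082), .ofNat (nat_lit 672628), .ofNat (nat_lit 583107), .ofNat (nat_lit 644060), .ofNat (nat_lit 605237), .ofNat (nat_lit 666215)⟩, ⟨.ofNat (nat_lit 0), .ofNat (nat_lit 132088), .ofNat (nat_lit 0), .ofNat (nat_lit 175674), .ofNat (nat_lit 0), .ofNat (nat_lit 139899), .ofNat (nat_lit 0), .ofNat (nat_lit 184209)⟩⟩, [⟨nat_lit 22, nat_lit 97, nat_lit 100, nat_lit 15, nat_lit 58232131⟩]⟩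
noncomputable def p078_l111 : Lf2 := ⟨nat_lit 0, nat_lit 15, [nat_lit 30, nat_lit 5, nat_lit 5, nat_lit 20], true, nat_lit 0, nat_lit 80, nat_lit 0, nat_lit 300, ⟨nat_lit 0, nat_lit 597, nat_lit 403, nat_lit 7, nat_lit 267, nat_lit 550, nat_lit 29, nat_lit 403, nat_lit 8067, nat_lit 237, nat_lit 159462, nat_lit 200, nat_lit 46334853, nat_lit 20665147, nat_lit 0, nat_lit 3089213, true, true⟩,
 nat_lit 0, nat_lit 0, nat_lit 0, nat_lit 4994, nat_lit 2662, nat_lit 0, nat_lit 0, nat_lit 0, nat_lit 0, nat_lit 0, nat_lit 0, nat_lit 0, nat_lit 0, nat_lit 0, nat_lit 23, nat_lit 390850, nat_lit 0, nat_lit 0, [(nat_lit 22, [(nat_lit 0, nat_lit 61), (nat_lit 1, nat_lit 536), (nat_lit 5, nat_lit 403)])],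
 ⟨p078_k10, nat_lit 0, nat_lit 0, nat_lit 183, nat_lit 0, nat_lit 0, [nat_lit 1402364801, nat_lit 595243401, nat_lit 22329200], [], [nat_lit 23679481833, nat_lit 24655479393, nat_lit 25258735209, nat_lit 26157771800, nat_lit 23013268879, nat_lit 23948340419, nat_lit 24544678923, nat_lit 25407098347], nat_lit 0, nat_lit 0, nat_lit 0, nat_lit 0, nat_lit 0, nat_lit 0, [], [nat_lit 102, nat_lit 40, nat_lit 40, nat_lit 80, nat_lit 2, nat_lit 226, nat_lit 20, nat_lit 6]⟩, C1.Rw.none,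
 ⟨nat_lit 3162, nat_lit 3873, ⟨.ofNat (nat_lit 629042), .ofNat (nat_lit 693563), .ofNat (nat_lit 650835), .ofNat (nat_lit 715356), .ofNat (nat_lit 621905), .ofNat (nat_lit 682859), .ofNat (nat_lit 644060), .ofNat (nat_lit 705013)⟩, ⟨.ofNat (nat_lit 0), .ofNat (nat_lit 132088), .ofNat (nat_lit 0), .ofNat (nat_lit 153881), .ofNat (nat_lit 0), .ofNat (nat_lit 139899), .ofNat (nat_lit 0), .ofNat (nat_lit 162054)⟩⟩, []⟩
noncomputable def p078_l112 : Lf2 := ⟨nat_lit 0, nat_lit 20, [nat_lit 5, nat_lit 5, nat_lit 5, nat_lit 20], false, nat_lit 0, nat_lit 80, nat_lit 0, nat_lit 300, ⟨nat_lit 318, nat_lit 0, nat_lit 682, nat_lit 7, nat_lit 267, nat_lit 682, nat_lit 34, nat_lit 682, nat_lit 10417, nat_lit 240, nat_lit 159462, nat_lit 200, nat_lit 46334853, nat_lit 0, nat_lit 0, nat_lit 3089213, true, true⟩,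
 nat_lit 0, nat_lit 0, nat_lit 5995, nat_lit 0, nat_lit 2932, nat_lit 2569, nat_lit 0, nat_lit 0, nat_lit 0, nat_lit 274, nat_lit 0, nat_lit 0, nat_lit 0, nat_lit 0, nat_lit 6, nat_lit 297400, nat_lit 0, nat_lit 0, [(nat_lit 22, [(nat_lit 5, nat_lit 641), (nat_lit 6, nat_lit 41)])],
 ⟨p078_k13, nat_lit 0, nat_lit 0, nat_lit 174, nat_lit 0, nat_lit 0, [nat_lit 1350820801, nat_lit 972842800, nat_lit 29108134], [], [nat_lit 24551730375, nat_lit 25427715111, nat_lit 25970616183, nat_lit 26803314800, nat_lit 23729534311, nat_lit 24558886359, nat_lit 25079642815, nat_lit 25846086359], nat_lit 0, nat_lit 0, nat_lit 0, nat_lit 0, nat_lit 0, nat_lit 0, [], [nat_lit 34, nat_lit 40, nat_lit 40, nat_lit 80, nat_lit 7, nat_lit 226, nat_lit 20, nat_lit 6]⟩, ⟨p078_k5, nat_lit 0, nat_lit 0, nat_lit 450, nat_lit 0, nat_lit 315722, [nat_lit 1987500000, nat_lit 3129756000, nat_lit 4470444000], [], [nat_lit 13307565316, nat_lit 13347742476,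 nat_lit 13698087368, nat_lit 13717880050, nat_lit 11375824355, nat_lit 11395882894, nat_lit 11671466916, nat_lit 11674975102], nat_lit 1271250, nat_lit 1271250, nat_lit 1271250, nat_lit 1271250, nat_lit 0, nat_lit 2118750, [nat_lit 1412500, nat_lit 1271250, nat_lit 1271250], [nat_lit 60, nat_lit 40, nat_lit 40, nat_lit 80, nat_lit 32, nat_lit 456, nat_lit 225, nat_lit 10]⟩,
 ⟨nat_lit 3162, nat_lit 3873, ⟨.ofNat (nat_lit 629042), .ofNat (nat_lit 693563), .ofNat (nat_lit 650835), .ofNat (nat_lit 715356), .ofNat (nat_lit 621905), .ofNat (nat_lit 682859), .ofNat (nat_lit 644060), .ofNat (nat_lit 705013)⟩, ⟨.ofNat (nat_lit 0), .ofNat (nat_lit 153881), .ofNat (nat_lit 0), .ofNat (nat_lit 175674), .ofNat (nat_lit 0), .ofNat (nat_lit 162054), .ofNat (nat_lit 0), .ofNat (nat_lit 184209)⟩⟩, [⟨nat_lit 22, nat_lit 89, nat_lit 100, nat_lit 28, nat_lit 57214098⟩, ⟨nat_lit 22, nat_lit 87, nat_lit 100, nat_lit 60, nat_lit 17520584⟩]⟩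
noncomputable def p078_l113 : Lf2 := ⟨nat_lit 0, nat_lit 15, [nat_lit 30, nat_lit 5, nat_lit 5, nat_lit 20], false, nat_lit 0, nat_lit 80, nat_lit 0, nat_lit 300, ⟨nat_lit 132, nat_lit 658, nat_lit 210, nat_lit 7, nat_lit 276, nat_lit 858, nat_lit 29, nat_lit 210, nat_lit 8067, nat_lit 237, nat_lit 203050, nat_lit 200, nat_lit 45398233, nat_lit 21601767, nat_lit 0, nat_lit 3143379, true, true⟩,
 nat_lit 0, nat_lit 0, nat_lit 2633, nat_lit 0, nat_lit 3073, nat_lit 1259, nat_lit 0, nat_lit 0, nat_lit 0, nat_lit 120, nat_lit 0, nat_lit 0, nat_lit 0, nat_lit 0, nat_lit 0, nat_lit 473200, nat_lit 0, nat_lit 0, [(nat_lit 22, [(nat_lit 1, nat_lit 658), (nat_lit 6, nat_lit 210)])],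
 ⟨p078_k23, nat_lit 0, nat_lit 0, nat_lit 174, nat_lit 0, nat_lit 0, [nat_lit 1320979201, nat_lit 1144846401, nat_lit 127616000], [], [nat_lit 24885470562, nat_lit 25776196566, nat_lit 26322114474, nat_lit 27142145282, nat_lit 23967979366, nat_lit 24810834138, nat_lit 25334235472, nat_lit 26112134138], nat_lit 0, nat_lit 0, nat_lit 0, nat_lit 0, nat_lit 0, nat_lit 0, [], [nat_lit 34, nat_lit 40, nat_lit 40, nat_lit 80, nat_lit 7, nat_lit 226, nat_lit 20, nat_lit 6]⟩, ⟨p078_k3, nat_lit 0, nat_lit 0, nat_lit 555, nat_lit 0, nat_lit 495707, [nat_lit 825000000, nat_lit 1299144000, nat_lit 1855656000], [], [nat_lit 5009548906, nat_lit 5014629468, nat_lit 5137141544, nat_lit 5133973988, nat_lit 4096205370, nat_lit 4091160507, nat_lit 4184415085, nat_lit 4172740968], nat_lit 1271250, nat_lit 1271250, nat_lit 1271250, nat_lit 1271250, nat_lit 0, nat_lit 2118750, [nat_lit 1412500, nat_lit 1271250, nat_lit 1271250], [nat_lit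 60, nat_lit 40, nat_lit 40, nat_lit 80, nat_lit 32, nat_lit 456, nat_lit 225, nat_lit 10]⟩,
 ⟨nat_lit 3162, nat_lit 3873, ⟨.ofNat (nat_lit 650835), .ofNat (nat_lit 715356), .ofNat (nat_lit 672628), .ofNat (nat_lit 737150), .ofNat (nat_lit 644060), .ofNat (nat_lit 705013), .ofNat (nat_lit 666215), .ofNat (nat_lit 727168)⟩, ⟨.ofNat (nat_lit 0), .ofNat (nat_lit 132088), .ofNat (nat_lit 0), .ofNat (nat_lit 153881), .ofNat (nat_lit 0), .ofNat (nat_lit 139899), .ofNat (nat_lit 0), .ofNat (nat_lit 162054)⟩⟩, [⟨nat_lit 22, nat_lit 89, nat_lit 100, nat_lit 28, nat_lit 31302034⟩]⟩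
noncomputable def p078_l114 : Lf2 := ⟨nat_lit 1, nat_lit 15, [nat_lit 30, nat_lit 5, nat_lit 5, nat_lit 20], false, nat_lit 0, nat_lit 80, nat_lit 0, nat_lit 300, zbN0,
 nat_lit 0, nat_lit 0, nat_lit 0, nat_lit 0, nat_lit 0, nat_lit 0, nat_lit 0, nat_lit 0, nat_lit 0, nat_lit 0, nat_lit 0, nat_lit 0, nat_lit 0, nat_lit 0, nat_lit 0, nat_lit 0, nat_lit 0, nat_lit 0, [],
 C1.Rw.none, C1.Rw.none,
 zbF0, []⟩
noncomputable def p078_l115 : Lf2 := ⟨nat_lit 0, nat_lit 20, [nat_lit 5, nat_lit 5, nat_lit 5, nat_lit 20], false, nat_lit 0, nat_lit 80, nat_lit 0, nat_lit 300, ⟨nat_lit 481, nat_lit 0, nat_lit 519, nat_lit 7, nat_lit 276, nat_lit 519, nat_lit 34, nat_lit 519, nat_lit 10417, nat_lit 240, nat_lit 203050, nat_lit 200, nat_lit 45398233, nat_lit 0, nat_lit 0, nat_lit 3143379, true, true⟩,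
 nat_lit 0, nat_lit 0, nat_lit 8279, nat_lit 0, nat_lit 3329, nat_lit 3959, nat_lit 0, nat_lit 0, nat_lit 0, nat_lit 441, nat_lit 0, nat_lit 0, nat_lit 0, nat_lit 0, nat_lit 0, nat_lit 375600, nat_lit 0, nat_lit 0, [(nat_lit 22, [(nat_lit 5, nat_lit 239), (nat_lit 6, nat_lit 280)])],
 ⟨p078_k13, nat_lit 0, nat_lit 0, nat_lit 174, nat_lit 0, nat_lit 0, [nat_lit 1422560001, nat_lit 1399494400, nat_lit 500108000], [], [nat_lit 25260276481, nat_lit 26177766773, nat_lit 26729162057, nat_lit 27752502100, nat_lit 24169767173, nat_lit 25037137529, nat_lit 25565340911, nat_lit 26364037529], nat_lit 0, nat_lit 0, nat_lit 0, nat_lit 0, nat_lit 0, nat_lit 0, [], [nat_lit 34, nat_lit 40, nat_lit 40, nat_lit 80, nat_lit 7, nat_lit 226, nat_lit 20, nat_lit 6]⟩, ⟨p078_k6, nat_lit 0, nat_lit 0, nat_lit 474, nat_lit 0, nat_lit 388081, [nat_lit 3006250000, nat_lit 4734002000, nat_lit 6761898000], [], [nat_lit 18598175792, nat_lit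 18656361992, nat_lit 19160259738, nat_lit 19187141644, nat_lit 15619930364, nat_lit 15651344930, nat_lit 16116753926, nat_lit 16176966597], nat_lit 1271250, nat_lit 1271250, nat_lit 1271250, nat_lit 1271250, nat_lit 0, nat_lit 2118750, [nat_lit 1412500, nat_lit 1271250, nat_lit 1271250], [nat_lit 60, nat_lit 40, nat_lit 40, nat_lit 80, nat_lit 32, nat_lit 456, nat_lit 225, nat_lit 10]⟩,
 ⟨nat_lit 3162, nat_lit 3873, ⟨.ofNat (nat_lit 650835), .ofNat (nat_lit 715356), .ofNat (nat_lit 672628), .ofNat (nat_lit 737150), .ofNat (nat_lit 644060), .ofNat (nat_lit 705013), .ofNat (nat_lit 666215), .ofNat (nat_lit 727168)⟩, ⟨.ofNat (nat_lit 0), .ofNat (nat_lit 153881), .ofNat (nat_lit 0), .ofNat (nat_lit 175674), .ofNat (nat_lit 0), .ofNat (nat_lit 162054), .ofNat (nat_lit 0), .ofNat (nat_lit 184209)⟩⟩, [⟨nat_lit 22, nat_lit 87, nat_lit 100, nat_lit 60, nat_lit 70132850⟩]⟩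
noncomputable def p078_l116 : Lf2 := ⟨nat_lit 0, nat_lit 20, [nat_lit 5, nat_lit 5, nat_lit 5, nat_lit 20], true, nat_lit 80, nat_lit 160, nat_lit 0, nat_lit 360, ⟨nat_lit 0, nat_lit 1000, nat_lit 0, nat_lit 6, nat_lit 259, nat_lit 1000, nat_lit 88, nat_lit 0, nat_lit 0, nat_lit 0, nat_lit 0, nat_lit 0, nat_lit 44295394, nat_lit 19152375, nat_lit 3552231, nat_lit 4150591, true, true⟩,
 nat_lit 0, nat_lit 0, nat_lit 0, nat_lit 2943, nat_lit 4398, nat_lit 0, nat_lit 0, nat_lit 0, nat_lit 0, nat_lit 0, nat_lit 0, nat_lit 0, nat_lit 0, nat_lit 0, nat_lit 0, nat_lit 250000, nat_lit 0, nat_lit 0, [(nat_lit 22, [(nat_lit 0, nat_lit 1000)])],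
 ⟨p078_k8, nat_lit 0, nat_lit 0, nat_lit 99, nat_lit 0, nat_lit 0, [nat_lit 1568000001, nat_lit 2330800000, nat_lit 2712400000], [], [nat_lit 21861434520, nat_lit 23285975632, nat_lit 25642426588, nat_lit 26820090656, nat_lit 22226928456, nat_lit 23508504024, nat_lit 25639925020, nat_lit 26705293280], nat_lit 0, nat_lit 0, nat_lit 0, nat_lit 0, nat_lit 0, nat_lit 0, [], [nat_lit 102, nat_lit 40, nat_lit 40, nat_lit 80, nat_lit 2, nat_lit 249, nat_lit 40, nat_lit 7]⟩, C1.Rw.none,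
 ⟨nat_lit 3162, nat_lit 3873, ⟨.ofNat (nat_lit 564520), .ofNat (nat_lit 693563), .ofNat (nat_lit 608082), .ofNat (nat_lit 737150), .ofNat (nat_lit 560952), .ofNat (nat_lit 682859), .ofNat (nat_lit 605237), .ofNat (nat_lit 727168)⟩, ⟨.ofNat (nat_lit 132088), .ofNat (nat_lit 261131), .ofNat (nat_lit 175674), .ofNat (nat_lit 304717), .ofNat (nat_lit 139899), .ofNat (nat_lit 261806), .ofNat (nat_lit 184209), .ofNat (nat_lit 306116)⟩⟩, []⟩
noncomputable def p078_l117 : Lf2 := ⟨nat_lit 0, nat_lit 15, [nat_lit 30, nat_lit 5, nat_lit 5, nat_lit 20], false, nat_lit 0, nat_lit 160, nat_lit 0, nat_lit 336, ⟨nat_lit 1000, nat_lit 0, nat_lit 0, nat_lit 0, nat_lit 0, nat_lit 0, nat_lit 0, nat_lit 0, nat_lit 0, nat_lit 0, nat_lit 0, nat_lit 0, nat_lit 0, nat_lit 0, nat_lit 0, nat_lit 0, false, false⟩,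
 nat_lit 0, nat_lit 0, nat_lit 23257, nat_lit 0, nat_lit 7322, nat_lit 9967, nat_lit 0, nat_lit 0, nat_lit 0, nat_lit 822, nat_lit 0, nat_lit 0, nat_lit 0, nat_lit 0, nat_lit 0, nat_lit 0, nat_lit 0, nat_lit 0, [],
 ⟨p078_k2, nat_lit 0, nat_lit 0, nat_lit 187, nat_lit 0, nat_lit 0, [nat_lit 2032000001, nat_lit 4688000000, nat_lit 7968000000], [], [nat_lit 35526112736, nat_lit 37025968080, nat_lit 40494132045, nat_lit 41696155364, nat_lit 29431169936, nat_lit 30701637460, nat_lit 33646966225, nat_lit 34675740638], nat_lit 0, nat_lit 0, nat_lit 0, nat_lit 0, nat_lit 0, nat_lit 0, [], [nat_lit 34, nat_lit 40, nat_lit 40, nat_lit 80, nat_lit 7, nat_lit 249, nat_lit 40, nat_lit 7]⟩, ⟨p078_k15, nat_lit 0, nat_lit 0, nat_lit 369, nat_lit 0, nat_lit 74732, [nat_lit 6250000000, nat_lit 9842000000, nat_lit 14058000000], [], [nat_lit 43046874272, nat_lit 43013646300, nat_lit 45897957084, nat_lit 45837084638, nat_lit 34446965600,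 nat_lit 34219720460, nat_lit 37254909591, nat_lit 37045998775], nat_lit 1271250, nat_lit 1271250, nat_lit 1271250, nat_lit 1271250, nat_lit 0, nat_lit 2373000, [nat_lit 1412500, nat_lit 1271250, nat_lit 1271250], [nat_lit 60, nat_lit 40, nat_lit 40, nat_lit 80, nat_lit 32, nat_lit 483, nat_lit 250, nat_lit 11]⟩,
 zbF0, [⟨nat_lit 10, nat_lit 100, nat_lit 47, nat_lit 81, nat_lit 52700948⟩, ⟨nat_lit 22, nat_lit 65, nat_lit 100, nat_lit 80, nat_lit 74067731⟩]⟩
noncomputable def p078_l118 : Lf2 := ⟨nat_lit 1, nat_lit 20, [nat_lit 5, nat_lit 5, nat_lit 5, nat_lit 20], false, nat_lit 0, nat_lit 160, nat_lit 0, nat_lit 336, zbN0,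
 nat_lit 0, nat_lit 0, nat_lit 0, nat_lit 0, nat_lit 0, nat_lit 0, nat_lit 0, nat_lit 0, nat_lit 0, nat_lit 0, nat_lit 0, nat_lit 0, nat_lit 0, nat_lit 0, nat_lit 0, nat_lit 0, nat_lit 0, nat_lit 0, [],
 C1.Rw.none, C1.Rw.none,
 zbF0, []⟩
noncomputable def p078_l119 : Lf2 := ⟨nat_lit 1, nat_lit 20, [nat_lit 5, nat_lit 5, nat_lit 5, nat_lit 20], false, nat_lit 0, nat_lit 160, nat_lit 0, nat_lit 336, zbN0,
 nat_lit 0, nat_lit 0, nat_lit 0, nat_lit 0, nat_lit 0, nat_lit 0, nat_lit 0, nat_lit 0, nat_lit 0, nat_lit 0, nat_lit 0, nat_lit 0, nat_lit 0, nat_lit 0, nat_lit 0, nat_lit 0, nat_lit 0, nat_lit 0, [],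
 C1.Rw.none, C1.Rw.none,
 zbF0, []⟩
noncomputable def p078_l120 : Lf2 := ⟨nat_lit 0, nat_lit 15, [nat_lit 30, nat_lit 5, nat_lit 5, nat_lit 20], false, nat_lit 0, nat_lit 80, nat_lit 0, nat_lit 260, ⟨nat_lit 1000, nat_lit 0, nat_lit 0, nat_lit 0, nat_lit 0, nat_lit 0, nat_lit 0, nat_lit 0, nat_lit 0, nat_lit 0, nat_lit 0, nat_lit 0, nat_lit 0, nat_lit 0, nat_lit 0, nat_lit 0, false, false⟩,
 nat_lit 0, nat_lit 0, nat_lit 23922, nat_lit 0, nat_lit 4237, nat_lit 10252, nat_lit 654, nat_lit 0, nat_lit 0, nat_lit 988, nat_lit 0, nat_lit 0, nat_lit 0, nat_lit 0, nat_lit 0, nat_lit 0, nat_lit 0, nat_lit 0, [],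
 ⟨p078_k23, nat_lit 0, nat_lit 0, nat_lit 0, nat_lit 0, nat_lit 0, [nat_lit 2032000001, nat_lit 4688000000, nat_lit 7968000000], [], [nat_lit 29619007160, nat_lit 30106096137, nat_lit 31469830528, nat_lit 31908153235, nat_lit 27818917781, nat_lit 28255149958, nat_lit 29481365699, nat_lit 29876357481], nat_lit 0, nat_lit 0, nat_lit 0, nat_lit 0, nat_lit 0, nat_lit 0, [], [nat_lit 34, nat_lit 40, nat_lit 40, nat_lit 80]⟩, ⟨p078_k15, nat_lit 0, nat_lit 0, nat_lit 389, nat_lit 0, nat_lit 143861, [nat_lit 6250000000, nat_lit 9842000000, nat_lit 14058000000], [], [nat_lit 40426242832, nat_lit 40397727816, nat_lit 42417189240, nat_lit 42466768600, nat_lit 31378244440, nat_lit 31509856902, nat_lit 33286714300, nat_lit 33328778888], nat_lit 1271250, nat_lit 1271250, nat_lit 1271250, nat_lit 1271250, nat_lit 0, nat_lit 1836250, [nat_lit 1412500, nat_lit 1271250, nat_lit 1271250], [nat_lit 60, nat_lit 40, nat_lit 40, nat_lit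 80, nat_lit 32, nat_lit 456, nat_lit 225, nat_lit 10]⟩,
 zbF0, [⟨nat_lit 13, nat_lit 69, nat_lit 69, nat_lit 100, nat_lit 31627645⟩]⟩
noncomputable def p078_l121 : Lf2 := ⟨nat_lit 0, nat_lit 15, [nat_lit 30, nat_lit 5, nat_lit 5, nat_lit 20], true, nat_lit 0, nat_lit 80, nat_lit 0, nat_lit 260, ⟨nat_lit 0, nat_lit 1000, nat_lit 0, nat_lit 8, nat_lit 287, nat_lit 499, nat_lit 30, nat_lit 0, nat_lit 0, nat_lit 0, nat_lit 0, nat_lit 0, nat_lit 44198759, nat_lit 22801241, nat_lit 0, nat_lit 3206226, true, true⟩,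
 nat_lit 0, nat_lit 0, nat_lit 0, nat_lit 3753, nat_lit 3448, nat_lit 0, nat_lit 55, nat_lit 0, nat_lit 0, nat_lit 0, nat_lit 0, nat_lit 0, nat_lit 0, nat_lit 0, nat_lit 0, nat_lit 250000, nat_lit 0, nat_lit 0, [(nat_lit 22, [(nat_lit 0, nat_lit 1000)])],
 ⟨p078_k24, nat_lit 0, nat_lit 0, nat_lit 0, nat_lit 0, nat_lit 0, [nat_lit 1568000001, nat_lit 1970800000, nat_lit 2330800000], [], [nat_lit 28109457862, nat_lit 28565638814, nat_lit 29298745481, nat_lit 29725586750, nat_lit 26872102462, nat_lit 27303666014, nat_lit 27999767698, nat_lit 28404427013], nat_lit 0, nat_lit 0, nat_lit 0, nat_lit 0, nat_lit 0, nat_lit 0, [], [nat_lit 6, nat_lit 40, nat_lit 40, nat_lit 80]⟩, C1.Rw.none,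
 ⟨nat_lit 3162, nat_lit 3536, ⟨.ofNat (nat_lit 688283), .ofNat (nat_lit 732216), .ofNat (nat_lit 710235), .ofNat (nat_lit 754168), .ofNat (nat_lit 682859), .ofNat (nat_lit 725526), .ofNat (nat_lit 705013), .ofNat (nat_lit 747681)⟩, ⟨.ofNat (nat_lit 0), .ofNat (nat_lit 136093), .ofNat (nat_lit 0), .ofNat (nat_lit 158046), .ofNat (nat_lit 0), .ofNat (nat_lit 139899), .ofNat (nat_lit 0), .ofNat (nat_lit 162054)⟩⟩, [⟨nat_lit 13, nat_lit 63, nat_lit 74, nat_lit 100, nat_lit 291796368⟩]⟩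
noncomputable def p078_l122 : Lf2 := ⟨nat_lit 1, nat_lit 15, [nat_lit 30, nat_lit 5, nat_lit 5, nat_lit 20], false, nat_lit 0, nat_lit 80, nat_lit 0, nat_lit 260, zbN0,
 nat_lit 0, nat_lit 0, nat_lit 0, nat_lit 0, nat_lit 0, nat_lit 0, nat_lit 0, nat_lit 0, nat_lit 0, nat_lit 0, nat_lit 0, nat_lit 0, nat_lit 0, nat_lit 0, nat_lit 0, nat_lit 0, nat_lit 0, nat_lit 0, [],
 C1.Rw.none, C1.Rw.none,
 zbF0, []⟩
noncomputable def p078_l123 : Lf2 := ⟨nat_lit 0, nat_lit 20, [nat_lit 5, nat_lit 5, nat_lit 5, nat_lit 20], false, nat_lit 0, nat_lit 80, nat_lit 0, nat_lit 260, ⟨nat_lit 1000, nat_lit 0, nat_lit 0, nat_lit 0, nat_lit 0, nat_lit 0, nat_lit 0, nat_lit 0, nat_lit 0, nat_lit 0, nat_lit 0, nat_lit 0, nat_lit 0, nat_lit 0, nat_lit 0, nat_lit 0, false, false⟩,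
 nat_lit 0, nat_lit 0, nat_lit 22367, nat_lit 0, nat_lit 4326, nat_lit 9585, nat_lit 611, nat_lit 0, nat_lit 0, nat_lit 916, nat_lit 0, nat_lit 0, nat_lit 0, nat_lit 0, nat_lit 0, nat_lit 0, nat_lit 0, nat_lit 0, [],
 ⟨p078_k13, nat_lit 0, nat_lit 0, nat_lit 0, nat_lit 0, nat_lit 0, [nat_lit 2032000001, nat_lit 4688000000, nat_lit 7968000000], [], [nat_lit 30056600055, nat_lit 31039325747, nat_lit 31922968519, nat_lit 32808821472, nat_lit 28128996816, nat_lit 29008691708, nat_lit 29804600180, nat_lit 30600508652], nat_lit 0, nat_lit 0, nat_lit 0, nat_lit 0, nat_lit 0, nat_lit 0, [], [nat_lit 34, nat_lit 40, nat_lit 40, nat_lit 80]⟩, ⟨p078_k5, nat_lit 0, nat_lit 0, nat_lit 453, nat_lit 0, nat_lit 315722, [nat_lit 6250000000, nat_lit 9842000000, nat_lit 14058000000], [], [nat_lit 41744710360, nat_lit 41744047930, nat_lit 43381266060, nat_lit 43301851430, nat_lit 32859522150, nat_lit 32858712213, nat_lit 34504306125,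 nat_lit 34568935990], nat_lit 1271250, nat_lit 1271250, nat_lit 1271250, nat_lit 1271250, nat_lit 0, nat_lit 1836250, [nat_lit 1412500, nat_lit 1271250, nat_lit 1271250], [nat_lit 60, nat_lit 40, nat_lit 40, nat_lit 80, nat_lit 32, nat_lit 456, nat_lit 225, nat_lit 10]⟩,
 zbF0, []⟩
noncomputable def p078_l124 : Lf2 := ⟨nat_lit 0, nat_lit 15, [nat_lit 30, nat_lit 5, nat_lit 5, nat_lit 20], false, nat_lit 0, nat_lit 80, nat_lit 0, nat_lit 260, ⟨nat_lit 1000, nat_lit 0, nat_lit 0, nat_lit 0, nat_lit 0, nat_lit 0, nat_lit 0, nat_lit 0, nat_lit 0, nat_lit 0, nat_lit 0, nat_lit 0, nat_lit 0, nat_lit 0, nat_lit 0, nat_lit 0, false, false⟩,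
 nat_lit 0, nat_lit 0, nat_lit 18865, nat_lit 0, nat_lit 4553, nat_lit 9022, nat_lit 559, nat_lit 0, nat_lit 0, nat_lit 930, nat_lit 0, nat_lit 0, nat_lit 0, nat_lit 0, nat_lit 0, nat_lit 0, nat_lit 0, nat_lit 0, [],
 ⟨p078_k23, nat_lit 0, nat_lit 0, nat_lit 0, nat_lit 0, nat_lit 0, [nat_lit 2032000001, nat_lit 4688000000, nat_lit 7968000000], [], [nat_lit 30524774665, nat_lit 31027038278, nat_lit 32844674534, nat_lit 33347386536, nat_lit 28271939446, nat_lit 28721007859, nat_lit 30445237548, nat_lit 30864036382], nat_lit 0, nat_lit 0, nat_lit 0, nat_lit 0, nat_lit 0, nat_lit 0, [], [nat_lit 34, nat_lit 40, nat_lit 40, nat_lit 80]⟩, ⟨p078_k3, nat_lit 0, nat_lit 0, nat_lit 428, nat_lit 0, nat_lit 257221, [nat_lit 6250000000, nat_lit 9842000000, nat_lit 14058000000], [], [nat_lit 38718785704, nat_lit 38904547492, nat_lit 41167745543, nat_lit 41364287608, nat_lit 31091340355, nat_lit 31113901754, nat_lit 33056124422,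 nat_lit 33123269763], nat_lit 1271250, nat_lit 1271250, nat_lit 1271250, nat_lit 1271250, nat_lit 0, nat_lit 1836250, [nat_lit 1412500, nat_lit 1271250, nat_lit 1271250], [nat_lit 60, nat_lit 40, nat_lit 40, nat_lit 80, nat_lit 32, nat_lit 456, nat_lit 225, nat_lit 10]⟩,
 zbF0, [⟨nat_lit 22, nat_lit 70, nat_lit 100, nat_lit 61, nat_lit 28925700⟩]⟩
noncomputable def p078_l125 : Lf2 := ⟨nat_lit 0, nat_lit 15, [nat_lit 30, nat_lit 5, nat_lit 5, nat_lit 20], false, nat_lit 0, nat_lit 80, nat_lit 0, nat_lit 260, ⟨nat_lit 723, nat_lit 277, nat_lit 0, nat_lit 8, nat_lit 300, nat_lit 277, nat_lit 30, nat_lit 0, nat_lit 0, nat_lit 0, nat_lit 0, nat_lit 0, nat_lit 42897296, nat_lit 24102704, nat_lit 0, nat_lit 3266346, true, true⟩,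
 nat_lit 0, nat_lit 0, nat_lit 13896, nat_lit 0, nat_lit 4181, nat_lit 6645, nat_lit 287, nat_lit 0, nat_lit 0, nat_lit 561, nat_lit 0, nat_lit 0, nat_lit 0, nat_lit 0, nat_lit 0, nat_lit 69250, nat_lit 0, nat_lit 0, [(nat_lit 22, [(nat_lit 0, nat_lit 277)])],
 ⟨p078_k24, nat_lit 0, nat_lit 0, nat_lit 0, nat_lit 0, nat_lit 0, [nat_lit 1903472001, nat_lit 3935335600, nat_lit 5164381600], [], [nat_lit 30025012750, nat_lit 30545884485, nat_lit 31950620814, nat_lit 32418866257, nat_lit 28183986618, nat_lit 28649359062, nat_lit 29912606910, nat_lit 30333689526], nat_lit 0, nat_lit 0, nat_lit 0, nat_lit 0, nat_lit 0, nat_lit 0, [], [nat_lit 6, nat_lit 40, nat_lit 40, nat_lit 80]⟩, ⟨p078_k3, nat_lit 0, nat_lit 0, nat_lit 551, nat_lit 0, nat_lit 495707, [nat_lit 4518750000, nat_lit 7115766000, nat_lit 10163934000], [], [nat_lit 29769798894, nat_lit 29762905266, nat_lit 30671352186, nat_lit 30618127746, nat_lit 23911441278,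 nat_lit 23819326884, nat_lit 24594698376, nat_lit 24534363114], nat_lit 1271250, nat_lit 1271250, nat_lit 1271250, nat_lit 1271250, nat_lit 0, nat_lit 1836250, [nat_lit 1412500, nat_lit 1271250, nat_lit 1271250], [nat_lit 60, nat_lit 40, nat_lit 40, nat_lit 80, nat_lit 32, nat_lit 456, nat_lit 225, nat_lit 10]⟩,
 ⟨nat_lit 3162, nat_lit 3536, ⟨.ofNat (nat_lit 710235), .ofNat (nat_lit 772997), .ofNat (nat_lit 732188), .ofNat (nat_lit 794949), .ofNat (nat_lit 705013), .ofNat (nat_lit 765967), .ofNat (nat_lit 727168), .ofNat (nat_lit 788122)⟩, ⟨.ofNat (nat_lit 0), .ofNat (nat_lit 136093), .ofNat (nat_lit 0), .ofNat (nat_lit 158046), .ofNat (nat_lit 0), .ofNat (nat_lit 139899), .ofNat (nat_lit 0), .ofNat (nat_lit 162054)⟩⟩, [⟨nat_lit 22, nat_lit 76, nat_lit 100, nat_lit 43, nat_lit 20068128⟩]⟩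
noncomputable def p078_l126 : Lf2 := ⟨nat_lit 1, nat_lit 15, [nat_lit 30, nat_lit 5, nat_lit 5, nat_lit 20], false, nat_lit 0, nat_lit 80, nat_lit 0, nat_lit 260, zbN0,
 nat_lit 0, nat_lit 0, nat_lit 0, nat_lit 0, nat_lit 0, nat_lit 0, nat_lit 0, nat_lit 0, nat_lit 0, nat_lit 0, nat_lit 0, nat_lit 0, nat_lit 0, nat_lit 0, nat_lit 0, nat_lit 0, nat_lit 0, nat_lit 0, [],
 C1.Rw.none, C1.Rw.none,
 zbF0, []⟩
noncomputable def p078_l127 : Lf2 := ⟨nat_lit 0, nat_lit 20, [nat_lit 5, nat_lit 5, nat_lit 5, nat_lit 20], false, nat_lit 0, nat_lit 80, nat_lit 0, nat_lit 260, ⟨nat_lit 1000, nat_lit 0, nat_lit 0, nat_lit 0, nat_lit 0, nat_lit 0, nat_lit 0, nat_lit 0, nat_lit 0, nat_lit 0, nat_lit 0, nat_lit 0, nat_lit 0, nat_lit 0, nat_lit 0, nat_lit 0, false, false⟩,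
 nat_lit 0, nat_lit 0, nat_lit 18824, nat_lit 0, nat_lit 4562, nat_lit 9002, nat_lit 539, nat_lit 0, nat_lit 0, nat_lit 930, nat_lit 0, nat_lit 0, nat_lit 0, nat_lit 0, nat_lit 0, nat_lit 0, nat_lit 0, nat_lit 0, [],
 ⟨p078_k13, nat_lit 0, nat_lit 0, nat_lit 0, nat_lit 0, nat_lit 0, [nat_lit 2032000001, nat_lit 4688000000, nat_lit 7968000000], [], [nat_lit 30744862535, nat_lit 31750254139, nat_lit 33066705771, nat_lit 34039343012, nat_lit 28479132656, nat_lit 29410461795, nat_lit 30660413163, nat_lit 31498636362], nat_lit 0, nat_lit 0, nat_lit 0, nat_lit 0, nat_lit 0, nat_lit 0, [], [nat_lit 34, nat_lit 40, nat_lit 40, nat_lit 80]⟩, ⟨p078_k6, nat_lit 0, nat_lit 0, nat_lit 476, nat_lit 0, nat_lit 388081, [nat_lit 6250000000, nat_lit 9842000000, nat_lit 14058000000], [], [nat_lit 39309230316, nat_lit 39332912800, nat_lit 41190223992, nat_lit 41342704056, nat_lit 31128147305, nat_lit 31153335614, nat_lit 33092861402,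 nat_lit 33160714343], nat_lit 1271250, nat_lit 1271250, nat_lit 1271250, nat_lit 1271250, nat_lit 0, nat_lit 1836250, [nat_lit 1412500, nat_lit 1271250, nat_lit 1271250], [nat_lit 60, nat_lit 40, nat_lit 40, nat_lit 80, nat_lit 32, nat_lit 456, nat_lit 225, nat_lit 10]⟩,
 zbF0, [⟨nat_lit 22, nat_lit 70, nat_lit 100, nat_lit 61, nat_lit 31479097⟩]⟩
noncomputable def p078_l128 : Lf2 := ⟨nat_lit 2, nat_lit 20, [nat_lit 5, nat_lit 5, nat_lit 5, nat_lit 20], true, nat_lit 0, nat_lit 80, nat_lit 0, nat_lit 260, zbN0,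
 nat_lit 0, nat_lit 0, nat_lit 0, nat_lit 0, nat_lit 0, nat_lit 0, nat_lit 0, nat_lit 0, nat_lit 0, nat_lit 0, nat_lit 0, nat_lit 0, nat_lit 0, nat_lit 0, nat_lit 0, nat_lit 0, nat_lit 0, nat_lit 0, [],
 ⟨p078_k34, nat_lit 0, nat_lit 0, nat_lit 178, nat_lit 0, nat_lit 0, [], [], [], nat_lit 0, nat_lit 0, nat_lit 0, nat_lit 0, nat_lit 0, nat_lit 0, [], [nat_lit 161, nat_lit 40, nat_lit 40, nat_lit 80, nat_lit 43, nat_lit 226, nat_lit 20, nat_lit 6]⟩, C1.Rw.none,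
 zbF0, []⟩
noncomputable def p078_l129 : Lf2 := ⟨nat_lit 0, nat_lit 20, [nat_lit 5, nat_lit 5, nat_lit 5, nat_lit 20], true, nat_lit 80, nat_lit 160, nat_lit 0, nat_lit 336, ⟨nat_lit 0, nat_lit 1000, nat_lit 0, nat_lit 8, nat_lit 292, nat_lit 1000, nat_lit 88, nat_lit 0, nat_lit 0, nat_lit 0, nat_lit 0, nat_lit 0, nat_lit 41164011, nat_lit 22428450, nat_lit 3407539, nat_lit 4300534, true, true⟩,
 nat_lit 0, nat_lit 0, nat_lit 0, nat_lit 3367, nat_lit 3536, nat_lit 0, nat_lit 45, nat_lit 0, nat_lit 0, nat_lit 0, nat_lit 0, nat_lit 0, nat_lit 0, nat_lit 0, nat_lit 0, nat_lit 250000, nat_lit 0, nat_lit 0, [(nat_lit 22, [(nat_lit 0, nat_lit 1000)])],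
 ⟨p078_k13, nat_lit 0, nat_lit 0, nat_lit 131, nat_lit 0, nat_lit 0, [nat_lit 1568000001, nat_lit 1970800000, nat_lit 2712400000], [], [nat_lit 26767977824, nat_lit 27763343440, nat_lit 28661990384, nat_lit 29560637328, nat_lit 27033546705, nat_lit 27894643761, nat_lit 28715582384, nat_lit 29537113776], nat_lit 0, nat_lit 0, nat_lit 0, nat_lit 0, nat_lit 0, nat_lit 0, [], [nat_lit 34, nat_lit 40, nat_lit 40, nat_lit 80, nat_lit 7, nat_lit 249, nat_lit 40, nat_lit 7]⟩, C1.Rw.none,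
 ⟨nat_lit 3162, nat_lit 3873, ⟨.ofNat (nat_lit 693563), .ofNat (nat_lit 758085), .ofNat (nat_lit 715356), .ofNat (nat_lit 779878), .ofNat (nat_lit 682859), .ofNat (nat_lit 743812), .ofNat (nat_lit 705013), .ofNat (nat_lit 765967)⟩, ⟨.ofNat (nat_lit 132088), .ofNat (nat_lit 261131), .ofNat (nat_lit 175674), .ofNat (nat_lit 304717), .ofNat (nat_lit 139899), .ofNat (nat_lit 261806), .ofNat (nat_lit 184209), .ofNat (nat_lit 306116)⟩⟩, [⟨nat_lit 13, nat_lit 72, nat_lit 63, nat_lit 100, nat_lit 283711116⟩]⟩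
noncomputable def p078_l130 : Lf2 := ⟨nat_lit 0, nat_lit 15, [nat_lit 30, nat_lit 5, nat_lit 5, nat_lit 20], false, nat_lit 80, nat_lit 160, nat_lit 0, nat_lit 332, ⟨nat_lit 107, nat_lit 893, nat_lit 0, nat_lit 8, nat_lit 304, nat_lit 893, nat_lit 84, nat_lit 0, nat_lit 0, nat_lit 0, nat_lit 0, nat_lit 0, nat_lit 40298218, nat_lit 23589927, nat_lit 3111855, nat_lit 4283859, true, true⟩,
 nat_lit 0, nat_lit 0, nat_lit 2038, nat_lit 0, nat_lit 4510, nat_lit 974, nat_lit 108, nat_lit 0, nat_lit 0, nat_lit 85, nat_lit 0, nat_lit 0, nat_lit 0, nat_lit 0, nat_lit 0, nat_lit 223250, nat_lit 0, nat_lit 0, [(nat_lit 22, [(nat_lit 0, nat_lit 893)])],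
 ⟨p078_k23, nat_lit 0, nat_lit 0, nat_lit 134, nat_lit 0, nat_lit 0, [nat_lit 1617648001, nat_lit 2261540400, nat_lit 3274749200], [], [nat_lit 26644552040, nat_lit 27749644600, nat_lit 29191810789, nat_lit 30159399328, nat_lit 26500515500, nat_lit 27500912920, nat_lit 28811130397, nat_lit 29688869672], nat_lit 0, nat_lit 0, nat_lit 0, nat_lit 0, nat_lit 0, nat_lit 0, [], [nat_lit 34, nat_lit 40, nat_lit 40, nat_lit 80, nat_lit 7, nat_lit 249, nat_lit 40, nat_lit 7]⟩, ⟨p078_k3, nat_lit 0, nat_lit 0, nat_lit 551, nat_lit 0, nat_lit 495707, [nat_lit 668750000, nat_lit 1053094000, nat_lit 1504206000], [], [nat_lit 4399456174, nat_lit 4398828678, nat_lit 4564383058, nat_lit 4564720407, nat_lit 3655665574, nat_lit 3644329236, nat_lit 3810767772, nat_lit 3808556096], nat_lit 1271250, nat_lit 1271250, nat_lit 1271250, nat_lit 1271250, nat_lit 0, nat_lit 2344750, [nat_lit 1412500, nat_lit 1271250, nat_lit 1271250], [nat_lit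 60, nat_lit 40, nat_lit 40, nat_lit 80, nat_lit 32, nat_lit 483, nat_lit 250, nat_lit 11]⟩,
 ⟨nat_lit 3162, nat_lit 3873, ⟨.ofNat (nat_lit 715356), .ofNat (nat_lit 792782), .ofNat (nat_lit 737150), .ofNat (nat_lit 814576), .ofNat (nat_lit 705013), .ofNat (nat_lit 778158), .ofNat (nat_lit 727168), .ofNat (nat_lit 800312)⟩, ⟨.ofNat (nat_lit 132088), .ofNat (nat_lit 261131), .ofNat (nat_lit 153881), .ofNat (nat_lit 282924), .ofNat (nat_lit 139899), .ofNat (nat_lit 261806), .ofNat (nat_lit 162054), .ofNat (nat_lit 283961)⟩⟩, [⟨nat_lit 13, nat_lit 67, nat_lit 65, nat_lit 100, nat_lit 250478117⟩, ⟨nat_lit 22, nat_lit 74, nat_lit 100, nat_lit 98, nat_lit 12189952⟩]⟩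
noncomputable def p078_l131 : Lf2 := ⟨nat_lit 1, nat_lit 15, [nat_lit 30, nat_lit 5, nat_lit 5, nat_lit 20], false, nat_lit 80, nat_lit 160, nat_lit 0, nat_lit 332, zbN0,
 nat_lit 0, nat_lit 0, nat_lit 0, nat_lit 0, nat_lit 0, nat_lit 0, nat_lit 0, nat_lit 0, nat_lit 0, nat_lit 0, nat_lit 0, nat_lit 0, nat_lit 0, nat_lit 0, nat_lit 0, nat_lit 0, nat_lit 0, nat_lit 0, [],
 C1.Rw.none, C1.Rw.none,
 zbF0, []⟩
noncomputable def p078_l132 : Lf2 := ⟨nat_lit 0, nat_lit 20, [nat_lit 5, nat_lit 5, nat_lit 5, nat_lit 20], false, nat_lit 80, nat_lit 160, nat_lit 0, nat_lit 336, ⟨nat_lit 1000, nat_lit 0, nat_lit 0, nat_lit 0, nat_lit 0, nat_lit 0, nat_lit 0, nat_lit 0, nat_lit 0, nat_lit 0, nat_lit 0, nat_lit 0, nat_lit 0, nat_lit 0, nat_lit 0, nat_lit 0, false, false⟩,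
 nat_lit 0, nat_lit 0, nat_lit 18875, nat_lit 0, nat_lit 8631, nat_lit 9027, nat_lit 0, nat_lit 0, nat_lit 0, nat_lit 848, nat_lit 0, nat_lit 0, nat_lit 0, nat_lit 0, nat_lit 0, nat_lit 0, nat_lit 0, nat_lit 0, [],
 ⟨p078_k13, nat_lit 0, nat_lit 0, nat_lit 131, nat_lit 0, nat_lit 0, [nat_lit 2032000001, nat_lit 4688000000, nat_lit 7968000000], [], [nat_lit 31713626804, nat_lit 32498300772, nat_lit 35328942782, nat_lit 36251498110, nat_lit 30032646830, nat_lit 30730740081, nat_lit 33233107608, nat_lit 33826818876], nat_lit 0, nat_lit 0, nat_lit 0, nat_lit 0, nat_lit 0, nat_lit 0, [], [nat_lit 34, nat_lit 40, nat_lit 40, nat_lit 80, nat_lit 7, nat_lit 249, nat_lit 40, nat_lit 7]⟩, ⟨p078_k6, nat_lit 0, nat_lit 0, nat_lit 388, nat_lit 0, nat_lit 147222, [nat_lit 6250000000, nat_lit 9842000000, nat_lit 14058000000], [], [nat_lit 39577719614, nat_lit 39763348172, nat_lit 42027363689, nat_lit 42101026638, nat_lit 33403741517,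 nat_lit 33342502212, nat_lit 35323139044, nat_lit 35298433522], nat_lit 1271250, nat_lit 1271250, nat_lit 1271250, nat_lit 1271250, nat_lit 0, nat_lit 2373000, [nat_lit 1412500, nat_lit 1271250, nat_lit 1271250], [nat_lit 60, nat_lit 40, nat_lit 40, nat_lit 80, nat_lit 32, nat_lit 483, nat_lit 250, nat_lit 11]⟩,
 zbF0, [⟨nat_lit 22, nat_lit 74, nat_lit 100, nat_lit 98, nat_lit 22454715⟩, ⟨nat_lit 10, nat_lit 73, nat_lit 69, nat_lit 100, nat_lit 104177376⟩]⟩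
noncomputable def p078_l133 : Lf2 := ⟨nat_lit 0, nat_lit 20, [nat_lit 5, nat_lit 5, nat_lit 5, nat_lit 20], false, nat_lit 80, nat_lit 160, nat_lit 0, nat_lit 336, ⟨nat_lit 115, nat_lit 885, nat_lit 0, nat_lit 8, nat_lit 300, nat_lit 885, nat_lit 93, nat_lit 0, nat_lit 0, nat_lit 0, nat_lit 0, nat_lit 0, nat_lit 40268489, nat_lit 23082857, nat_lit 3648654, nat_lit 4383339, true, true⟩,
 nat_lit 0, nat_lit 0, nat_lit 2074, nat_lit 0, nat_lit 4478, nat_lit 991, nat_lit 119, nat_lit 0, nat_lit 0, nat_lit 92, nat_lit 0, nat_lit 0, nat_lit 0, nat_lit 0, nat_lit 0, nat_lit 221250, nat_lit 0, nat_lit 0, [(nat_lit 22, [(nat_lit 0, nat_lit 885)])],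
 ⟨p078_k11, nat_lit 0, nat_lit 0, nat_lit 131, nat_lit 0, nat_lit 0, [nat_lit 1621360001, nat_lit 2283278001, nat_lit 3316794000], [], [nat_lit 27020932211, nat_lit 27571675995, nat_lit 29050778463, nat_lit 29543812619, nat_lit 26836748453, nat_lit 27335410491, nat_lit 28678800465, nat_lit 29126597123], nat_lit 0, nat_lit 0, nat_lit 0, nat_lit 0, nat_lit 0, nat_lit 0, [], [nat_lit 34, nat_lit 40, nat_lit 40, nat_lit 80, nat_lit 7, nat_lit 249, nat_lit 40, nat_lit 7]⟩, ⟨p078_k6, nat_lit 0, nat_lit 0, nat_lit 472, nat_lit 0, nat_lit 379710, [nat_lit 718750000, nat_lit 1131830000, nat_lit 1616670000], [], [nat_lit 4633725152, nat_lit 4656327596, nat_lit 4857776980, nat_lit 4870118060, nat_lit 3986631279, nat_lit 3979654108, nat_lit 4102686121, nat_lit 4089554492], nat_lit 1271250, nat_lit 1271250, nat_lit 1271250, nat_lit 1271250, nat_lit 0, nat_lit 2373000, [nat_lit 1412500, nat_lit 1271250, nat_lit 1271250], [nat_lit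 60, nat_lit 40, nat_lit 40, nat_lit 80, nat_lit 32, nat_lit 483, nat_lit 250, nat_lit 11]⟩,
 ⟨nat_lit 3162, nat_lit 3536, ⟨.ofNat (nat_lit 710235), .ofNat (nat_lit 772997), .ofNat (nat_lit 732188), .ofNat (nat_lit 794949), .ofNat (nat_lit 705013), .ofNat (nat_lit 765967), .ofNat (nat_lit 727168), .ofNat (nat_lit 788122)⟩, ⟨.ofNat (nat_lit 158046), .ofNat (nat_lit 283569), .ofNat (nat_lit 179999), .ofNat (nat_lit 305521), .ofNat (nat_lit 162054), .ofNat (nat_lit 283961), .ofNat (nat_lit 184209), .ofNat (nat_lit 306116)⟩⟩, [⟨nat_lit 13, nat_lit 64, nat_lit 68, nat_lit 100, nat_lit 245410936⟩, ⟨nat_lit 22, nat_lit 77, nat_lit 100, nat_lit 99, nat_lit 13198371⟩]⟩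
noncomputable def p078_l134 : Lf2 := ⟨nat_lit 1, nat_lit 20, [nat_lit 5, nat_lit 5, nat_lit 5, nat_lit 20], false, nat_lit 80, nat_lit 160, nat_lit 0, nat_lit 336, zbN0,
 nat_lit 0, nat_lit 0, nat_lit 0, nat_lit 0, nat_lit 0, nat_lit 0, nat_lit 0, nat_lit 0, nat_lit 0, nat_lit 0, nat_lit 0, nat_lit 0, nat_lit 0, nat_lit 0, nat_lit 0, nat_lit 0, nat_lit 0, nat_lit 0, [],
 C1.Rw.none, C1.Rw.none,
 zbF0, []⟩
noncomputable def p078_l135 : Lf2 := ⟨nat_lit 0, nat_lit 20, [nat_lit 5, nat_lit 5, nat_lit 5, nat_lit 20], true, nat_lit 160, nat_lit 260, nat_lit 0, nat_lit 360, ⟨nat_lit 0, nat_lit 1000, nat_lit 0, nat_lit 6, nat_lit 260, nat_lit 1000, nat_lit 145, nat_lit 0, nat_lit 0, nat_lit 0, nat_lit 0, nat_lit 0, nat_lit 41216197, nat_lit 18473236, nat_lit 7310567, nat_lit 4798833, true, true⟩,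
 nat_lit 0, nat_lit 0, nat_lit 0, nat_lit 3110, nat_lit 4405, nat_lit 0, nat_lit 0, nat_lit 0, nat_lit 0, nat_lit 0, nat_lit 0, nat_lit 0, nat_lit 0, nat_lit 0, nat_lit 0, nat_lit 250000, nat_lit 0, nat_lit 0, [(nat_lit 19, [(nat_lit 0, nat_lit 1000)]), (nat_lit 22, [(nat_lit 0, nat_lit 1000)])],
 ⟨p078_k7, nat_lit 0, nat_lit 0, nat_lit 70, nat_lit 0, nat_lit 0, [nat_lit 1568000001, nat_lit 2605200001, nat_lit 3236666667], [], [nat_lit 21213276181, nat_lit 23778477141, nat_lit 24844656101, nat_lit 26976916801, nat_lit 24045906706, nat_lit 26179708946, nat_lit 27024202716, nat_lit 28808716776], nat_lit 0, nat_lit 0, nat_lit 0, nat_lit 0, nat_lit 0, nat_lit 0, [], [nat_lit 61, nat_lit 40, nat_lit 40, nat_lit 80, nat_lit 1, nat_lit 373, nat_lit 150, nat_lit 10]⟩, C1.Rw.none,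
 ⟨nat_lit 3162, nat_lit 4473, ⟨.ofNat (nat_lit 567977), .ofNat (nat_lit 703933), .ofNat (nat_lit 611007), .ofNat (nat_lit 747055), .ofNat (nat_lit 560952), .ofNat (nat_lit 682859), .ofNat (nat_lit 605159), .ofNat (nat_lit 727157)⟩, ⟨.ofNat (nat_lit 259488), .ofNat (nat_lit 429433), .ofNat (nat_lit 302621), .ofNat (nat_lit 472567), .ofNat (nat_lit 261805), .ofNat (nat_lit 414188), .ofNat (nat_lit 306116), .ofNat (nat_lit 458499)⟩⟩, [⟨nat_lit 4, nat_lit 100, nat_lit 71, nat_lit 71, nat_lit 207673156⟩]⟩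
noncomputable def p078_l136 : Lf2 := ⟨nat_lit 0, nat_lit 15, [nat_lit 30, nat_lit 5, nat_lit 5, nat_lit 20], true, nat_lit 160, nat_lit 232, nat_lit 16, nat_lit 344, ⟨nat_lit 0, nat_lit 1000, nat_lit 0, nat_lit 8, nat_lit 307, nat_lit 1000, nat_lit 132, nat_lit 0, nat_lit 0, nat_lit 0, nat_lit 0, nat_lit 0, nat_lit 38025341, nat_lit 23001965, nat_lit 5972694, nat_lit 4820613, true, true⟩,
 nat_lit 0, nat_lit 0, nat_lit 0, nat_lit 5039, nat_lit 4127, nat_lit 0, nat_lit 0, nat_lit 0, nat_lit 0, nat_lit 0, nat_lit 0, nat_lit 0, nat_lit 0, nat_lit 0, nat_lit 0, nat_lit 250000, nat_lit 0, nat_lit 0, [(nat_lit 19, [(nat_lit 0, nat_lit 1000)]), (nat_lit 22, [(nat_lit 0, nat_lit 1000)])],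
 ⟨p078_k0, nat_lit 0, nat_lit 0, nat_lit 94, nat_lit 0, nat_lit 0, [nat_lit 1568000001, nat_lit 2546000001, nat_lit 2901600000], [], [nat_lit 24956253741, nat_lit 27027982721, nat_lit 28362012339, nat_lit 30101154588, nat_lit 26360955774, nat_lit 28198445757, nat_lit 29389067361, nat_lit 31075703343], nat_lit 0, nat_lit 0, nat_lit 0, nat_lit 0, nat_lit 0, nat_lit 0, [], [nat_lit 102, nat_lit 40, nat_lit 40, nat_lit 80, nat_lit 2, nat_lit 272, nat_lit 60, nat_lit 7]⟩, C1.Rw.none,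
 ⟨nat_lit 3162, nat_lit 4473, ⟨.ofNat (nat_lit 703933), .ofNat (nat_lit 812698), .ofNat (nat_lit 747055), .ofNat (nat_lit 855831), .ofNat (nat_lit 682859), .ofNat (nat_lit 780384), .ofNat (nat_lit 727157), .ofNat (nat_lit 824694)⟩, ⟨.ofNat (nat_lit 259488), .ofNat (nat_lit 381849), .ofNat (nat_lit 281055), .ofNat (nat_lit 403415), .ofNat (nat_lit 261805), .ofNat (nat_lit 371522), .ofNat (nat_lit 283961), .ofNat (nat_lit 393676)⟩⟩, [⟨nat_lit 13, nat_lit 72, nat_lit 63, nat_lit 100, nat_lit 294641870⟩, ⟨nat_lit 4, nat_lit 100, nat_lit 72, nat_lit 66, nat_lit 166983570⟩]⟩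
noncomputable def p078_l137 : Lf2 := ⟨nat_lit 1, nat_lit 20, [nat_lit 5, nat_lit 5, nat_lit 5, nat_lit 20], false, nat_lit 160, nat_lit 260, nat_lit 16, nat_lit 360, zbN0,
 nat_lit 0, nat_lit 0, nat_lit 0, nat_lit 0, nat_lit 0, nat_lit 0, nat_lit 0, nat_lit 0, nat_lit 0, nat_lit 0, nat_lit 0, nat_lit 0, nat_lit 0, nat_lit 0, nat_lit 0, nat_lit 0, nat_lit 0, nat_lit 0, [],
 C1.Rw.none, C1.Rw.none,
 zbF0, []⟩
noncomputable def p078_l138 : Lf2 := ⟨nat_lit 0, nat_lit 20, [nat_lit 5, nat_lit 5, nat_lit 5, nat_lit 20], true, nat_lit 160, nat_lit 232, nat_lit 16, nat_lit 360, ⟨nat_lit 0, nat_lit 1000, nat_lit 0, nat_lit 8, nat_lit 299, nat_lit 1000, nat_lit 140, nat_lit 0, nat_lit 0, nat_lit 0, nat_lit 0, nat_lit 0, nat_lit 38259477, nat_lit 22135489, nat_lit 6605034, nat_lit 4886410, true, true⟩,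
 nat_lit 0, nat_lit 0, nat_lit 0, nat_lit 5701, nat_lit 3483, nat_lit 0, nat_lit 0, nat_lit 0, nat_lit 0, nat_lit 0, nat_lit 0, nat_lit 0, nat_lit 0, nat_lit 0, nat_lit 0, nat_lit 250000, nat_lit 0, nat_lit 0, [(nat_lit 22, [(nat_lit 0, nat_lit 1000)])],
 ⟨p078_k13, nat_lit 0, nat_lit 0, nat_lit 76, nat_lit 0, nat_lit 0, [nat_lit 1568000001, nat_lit 1970800000, nat_lit 2712400000], [], [nat_lit 25188478773, nat_lit 26160453805, nat_lit 27437282031, nat_lit 28343390485, nat_lit 26595911680, nat_lit 27463865734, nat_lit 28623424078, nat_lit 29493159169], nat_lit 0, nat_lit 0, nat_lit 0, nat_lit 0, nat_lit 0, nat_lit 0, [], [nat_lit 34, nat_lit 40, nat_lit 40, nat_lit 80, nat_lit 7, nat_lit 272, nat_lit 60, nat_lit 7]⟩, C1.Rw.none,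
 ⟨nat_lit 3162, nat_lit 3873, ⟨.ofNat (nat_lit 693563), .ofNat (nat_lit 770989), .ofNat (nat_lit 737150), .ofNat (nat_lit 814576), .ofNat (nat_lit 682859), .ofNat (nat_lit 756003), .ofNat (nat_lit 727168), .ofNat (nat_lit 800312)⟩, ⟨.ofNat (nat_lit 282924), .ofNat (nat_lit 399063), .ofNat (nat_lit 304717), .ofNat (nat_lit 420856), .ofNat (nat_lit 283961), .ofNat (nat_lit 393677), .ofNat (nat_lit 306116), .ofNat (nat_lit 415832)⟩⟩, [⟨nat_lit 13, nat_lit 66, nat_lit 68, nat_lit 100, nat_lit 291751859⟩, ⟨nat_lit 4, nat_lit 100, nat_lit 66, nat_lit 76, nat_lit 175280402⟩]⟩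
noncomputable def p078_l139 : Lf2 := ⟨nat_lit 1, nat_lit 20, [nat_lit 5, nat_lit 5, nat_lit 5, nat_lit 20], false, nat_lit 160, nat_lit 260, nat_lit 16, nat_lit 360, zbN0,
 nat_lit 0, nat_lit 0, nat_lit 0, nat_lit 0, nat_lit 0, nat_lit 0, nat_lit 0, nat_lit 0, nat_lit 0, nat_lit 0, nat_lit 0, nat_lit 0, nat_lit 0, nat_lit 0, nat_lit 0, nat_lit 0, nat_lit 0, nat_lit 0, [],
 C1.Rw.none, C1.Rw.none,
 zbF0, []⟩
noncomputable def b_V_800_500_10_20 : St := ⟨true, nat_lit 0, nat_lit 1, nat_lit 1, nat_lit 80, nat_lit 320, nat_lit 360, nat_lit 200, nat_lit 240, nat_lit 240, nat_lit 384, nat_lit 40, nat_lit 80, nat_lit 0, nat_lit 260, nat_lit 0, nat_lit 360, nat_lit 80, nat_lit 112, nat_lit 0, nat_lit 0, nat_lit 0, nat_lit 0⟩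
theorem d_V_800_500_10_20 (h : EB TB.env) : Dead b_V_800_500_10_20 := chkB_sound0 h (T :=
(.spl (nat_lit 4) (nat_lit 160)
(.spl (nat_lit 2) (nat_lit 320)
(.spl (nat_lit 0) (nat_lit 340)
(.spl (nat_lit 6) (nat_lit 92)
(.spl (nat_lit 3) (nat_lit 60)
(.trX (nat_lit 19) (nat_lit 100) (nat_lit 70) (nat_lit 71) (nat_lit 344) (.leaf p078_l106))
(.leaf p078_l107))
(.leaf p078_l108))
(.spl (nat_lit 4) (nat_lit 80)
(.trX (nat_lit 22) (nat_lit 100) (nat_lit 76) (nat_lit 82) (nat_lit 336) (.spl (nat_lit 2) (nat_lit 280)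
(.spl (nat_lit 1) (nat_lit 220)
(.leaf p078_l109)
(.leaf p078_l110))
(.trX (nat_lit 22) (nat_lit 100) (nat_lit 95) (nat_lit 87) (nat_lit 300) (.spl (nat_lit 1) (nat_lit 220)
(.spl (nat_lit 3) (nat_lit 60)
(.leaf p078_l111)
(.leaf p078_l112))
(.spl (nat_lit 3) (nat_lit 60)
(.spl (nat_lit 6) (nat_lit 104)
(.leaf p078_l113)
(.leaf p078_l114))
(.leaf p078_l115))))))
(.leaf p078_l116)))
(.trX (nat_lit 22) (nat_lit 82) (nat_lit 76) (nat_lit 100) (nat_lit 336) (.spl (nat_lit 0) (nat_lit 340)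
(.spl (nat_lit 6) (nat_lit 92)
(.spl (nat_lit 3) (nat_lit 60)
(.leaf p078_l117)
(.leaf p078_l118))
(.leaf p078_l119))
(.trX (nat_lit 13) (nat_lit 73) (nat_lit 55) (nat_lit 100) (nat_lit 368) (.spl (nat_lit 4) (nat_lit 80)
(.trX (nat_lit 22) (nat_lit 83) (nat_lit 100) (nat_lit 83) (nat_lit 260) (.spl (nat_lit 7) (nat_lit 600)
(.spl (nat_lit 1) (nat_lit 220)
(.trX (nat_lit 13) (nat_lit 72) (nat_lit 63) (nat_lit 100) (nat_lit 360) (.spl (nat_lit 3) (nat_lit 60)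
(.spl (nat_lit 6) (nat_lit 96)
(.spl (nat_lit 0) (nat_lit 350)
(.leaf p078_l120)
(.trX (nat_lit 13) (nat_lit 66) (nat_lit 68) (nat_lit 100) (nat_lit 348) (.leaf p078_l121)))
(.leaf p078_l122))
(.leaf p078_l123)))
(.spl (nat_lit 3) (nat_lit 60)
(.spl (nat_lit 6) (nat_lit 104)
(.spl (nat_lit 0) (nat_lit 350)
(.leaf p078_l124)
(.trX (nat_lit 13) (nat_lit 68) (nat_lit 61) (nat_lit 100) (nat_lit 360) (.leaf p078_l125)))
(.leaf p078_l126))
(.leaf p078_l127)))
(.leaf p078_l128)))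
(.spl (nat_lit 1) (nat_lit 220)
(.trX (nat_lit 13) (nat_lit 72) (nat_lit 63) (nat_lit 100) (nat_lit 360) (.leaf p078_l129))
(.spl (nat_lit 3) (nat_lit 60)
(.trX (nat_lit 19) (nat_lit 100) (nat_lit 77) (nat_lit 72) (nat_lit 332) (.spl (nat_lit 6) (nat_lit 104)
(.leaf p078_l130)
(.leaf p078_l131)))
(.spl (nat_lit 6) (nat_lit 96)
(.spl (nat_lit 0) (nat_lit 350)
(.leaf p078_l132)
(.trX (nat_lit 13) (nat_lit 68) (nat_lit 61) (nat_lit 100) (nat_lit 360) (.leaf p078_l133)))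
(.leaf p078_l134)))))))))
(.spl (nat_lit 2) (nat_lit 320)
(.leaf p078_l135)
(.trZ (nat_lit 9) (nat_lit 100) (nat_lit 82) (nat_lit 44) (nat_lit 16) (.spl (nat_lit 3) (nat_lit 60)
(.trX (nat_lit 16) (nat_lit 81) (nat_lit 100) (nat_lit 72) (nat_lit 232) (.trX (nat_lit 19) (nat_lit 100) (nat_lit 70) (nat_lit 71) (nat_lit 344) (.leaf p078_l136)))
(.spl (nat_lit 6) (nat_lit 96)
(.spl (nat_lit 0) (nat_lit 340)
(.leaf p078_l137)
(.trX (nat_lit 13) (nat_lit 73) (nat_lit 55) (nat_lit 100) (nat_lit 368) (.trX (nat_lit 16) (nat_lit 72) (nat_lit 100) (nat_lit 81) (nat_lit 232) (.leaf p078_l138))))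
(.leaf p078_l139))))))) (by decide +kernel)

end B2
end Pool.Agent.Lib.MP_6947cd_al
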