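import Pool.Agent.Lib.MP_6947cd_al.ZB.Pre

/-!
Problem MP_6947cd_al (Chollet).  Case B, second entry in [2/5, 17/20]: certificates of the tree, part P080 (generated).
-/

set_option autoImplicit false
set_option linter.all false

namespace Pool.Agent.Lib.MP_6947cd_al
namespace B2

open Ent Fr B1 PkA

noncomputable def p080_k0 : C1.Kn := ⟨[nat_lit 40, nat_lit 80, nat_lit 100], [nat_lit 0, nat_lit 795, nat_lit 1829], [(nat_lit 0, nat_lit 0, nat_lit 0), (nat_lit 1000, nat_lit 814, nat_lit 310), (nat_lit 1000, nat_lit 714, nat_lit 692)], (nat_lit 72, nat_lit 100, nat_lit 61)⟩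
noncomputable def p080_k1 : C1.Kn := ⟨[nat_lit 100, nat_lit 140, nat_lit 160], [nat_lit 0, nat_lit 0, nat_lit 1280], [(nat_lit 0, nat_lit 0, nat_lit 0), (nat_lit 0, nat_lit 0, nat_lit 0), (nat_lit 800, nat_lit 1000, nat_lit 600)], (nat_lit 100, nat_lit 80, nat_lit 60)⟩
noncomputable def p080_k2 : C1.Kn := ⟨[nat_lit 40, nat_lit 60, nat_lit 80], [nat_lit 0, nat_lit 600, nat_lit 1195], [(nat_lit 0, nat_lit 0, nat_lit 0), (nat_lit 1000, nat_lit 725, nat_lit 454), (nat_lit 1000, nat_lit 720, nat_lit 465)], (nat_lit 68, nat_lit 100, nat_lit 61)⟩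
noncomputable def p080_k3 : C1.Kn := ⟨[nat_lit 100, nat_lit 120, nat_lit 160], [nat_lit 0, nat_lit 0, nat_lit 1063], [(nat_lit 0, nat_lit 0, nat_lit 0), (nat_lit 0, nat_lit 0, nat_lit 0), (nat_lit 924, nat_lit 1000, nat_lit 383)], (nat_lit 100, nat_lit 80, nat_lit 60)⟩
noncomputable def p080_k4 : C1.Kn := ⟨[nat_lit 40, nat_lit 60, nat_lit 100], [nat_lit 0, nat_lit 398, nat_lit 1586], [(nat_lit 0, nat_lit 0, nat_lit 0), (nat_lit 1000, nat_lit 814, nat_lit 310), (nat_lit 1000, nat_lit 752, nat_lit 464)], (nat_lit 72, nat_lit 100, nat_lit 61)⟩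
noncomputable def p080_k5 : C1.Kn := ⟨[nat_lit 100, nat_lit 120, nat_lit 160], [nat_lit 0, nat_lit 254, nat_lit 1301], [(nat_lit 0, nat_lit 0, nat_lit 0), (nat_lit 1000, nat_lit 1000, nat_lit 198), (nat_lit 960, nat_lit 1000, nat_lit 392)], (nat_lit 100, nat_lit 86, nat_lit 60)⟩
noncomputable def p080_k6 : C1.Kn := ⟨[nat_lit 40, nat_lit 60, nat_lit 80], [nat_lit 0, nat_lit 398, nat_lit 992], [(nat_lit 0, nat_lit 0, nat_lit 0), (nat_lit 1000, nat_lit 814, nat_lit 310), (nat_lit 1000, nat_lit 752, nat_lit 464)], (nat_lit 75, nat_lit 100, nat_lit 46)⟩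
noncomputable def p080_k7 : C1.Kn := ⟨[nat_lit 100, nat_lit 120, nat_lit 160], [nat_lit 0, nat_lit 0, nat_lit 1063], [(nat_lit 0, nat_lit 0, nat_lit 0), (nat_lit 0, nat_lit 0, nat_lit 0), (nat_lit 924, nat_lit 1000, nat_lit 383)], (nat_lit 100, nat_lit 90, nat_lit 44)⟩
noncomputable def p080_k8 : C1.Kn := ⟨[nat_lit 40, nat_lit 80], [nat_lit 0, nat_lit 795], [(nat_lit 0, nat_lit 0, nat_lit 0), (nat_lit 1000, nat_lit 814, nat_lit 310)], (nat_lit 75, nat_lit 100, nat_lit 46)⟩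
noncomputable def p080_k9 : C1.Kn := ⟨[nat_lit 100, nat_lit 140], [nat_lit 0, nat_lit 508], [(nat_lit 0, nat_lit 0, nat_lit 0), (nat_lit 1000, nat_lit 1000, nat_lit 198)], (nat_lit 100, nat_lit 94, nat_lit 44)⟩
noncomputable def p080_k10 : C1.Kn := ⟨[nat_lit 40, nat_lit 80], [nat_lit 0, nat_lit 1195], [(nat_lit 0, nat_lit 0, nat_lit 0), (nat_lit 1000, nat_lit 720, nat_lit 465)], (nat_lit 72, nat_lit 100, nat_lit 47)⟩
noncomputable def p080_k11 : C1.Kn := ⟨[nat_lit 40, nat_lit 80, nat_lit 100], [nat_lit 0, nat_lit 0, nat_lit 1280], [(nat_lit 0, nat_lit 0, nat_lit 0), (nat_lit 0, nat_lit 0, nat_lit 0), (nat_lit 1000, nat_lit 800, nat_lit 600)], (nat_lit 80, nat_lit 100, nat_lit 60)⟩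
noncomputable def p080_k12 : C1.Kn := ⟨[nat_lit 40, nat_lit 80, nat_lit 100], [nat_lit 0, nat_lit 395, nat_lit 1536], [(nat_lit 0, nat_lit 0, nat_lit 0), (nat_lit 1000, nat_lit 908, nat_lit 154), (nat_lit 1000, nat_lit 760, nat_lit 642)], (nat_lit 76, nat_lit 100, nat_lit 60)⟩
noncomputable def p080_k13 : C1.Kn := ⟨[nat_lit 40, nat_lit 80], [nat_lit 0, nat_lit 1195], [(nat_lit 0, nat_lit 0, nat_lit 0), (nat_lit 1000, nat_lit 720, nat_lit 465)], (nat_lit 68, nat_lit 100, nat_lit 61)⟩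
noncomputable def p080_k14 : C1.Kn := ⟨[nat_lit 40, nat_lit 140], [nat_lit 0, nat_lit 0], [(nat_lit 0, nat_lit 0, nat_lit 0), (nat_lit 0, nat_lit 0, nat_lit 0)], (nat_lit 83, nat_lit 100, nat_lit 83)⟩
noncomputable def p080_k15 : C1.Kn := ⟨[nat_lit 100, nat_lit 180], [nat_lit 0, nat_lit 0], [(nat_lit 0, nat_lit 0, nat_lit 0), (nat_lit 0, nat_lit 0, nat_lit 0)], (nat_lit 100, nat_lit 60, nat_lit 80)⟩
noncomputable def p080_k16 : C1.Kn := ⟨[nat_lit 40, nat_lit 120], [nat_lit 0, nat_lit 1589], [(nat_lit 0, nat_lit 0, nat_lit 0), (nat_lit 1000, nat_lit 814, nat_lit 310)], (nat_lit 72, nat_lit 100, nat_lit 81)⟩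
noncomputable def p080_k17 : C1.Kn := ⟨[nat_lit 40, nat_lit 100, nat_lit 140], [nat_lit 0, nat_lit 0, nat_lit 3243], [(nat_lit 0, nat_lit 0, nat_lit 0), (nat_lit 0, nat_lit 0, nat_lit 0), (nat_lit 1000, nat_lit 870, nat_lit 941)], (nat_lit 83, nat_lit 100, nat_lit 83)⟩
noncomputable def p080_k18 : C1.Kn := ⟨[nat_lit 100, nat_lit 160, nat_lit 180], [nat_lit 0, nat_lit 0, nat_lit 2560], [(nat_lit 0, nat_lit 0, nat_lit 0), (nat_lit 0, nat_lit 0, nat_lit 0), (nat_lit 600, nat_lit 1000, nat_lit 800)], (nat_lit 100, nat_lit 60, nat_lit 80)⟩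
noncomputable def p080_k19 : C1.Kn := ⟨[nat_lit 40, nat_lit 100, nat_lit 120], [nat_lit 0, nat_lit 0, nat_lit 2151], [(nat_lit 0, nat_lit 0, nat_lit 0), (nat_lit 0, nat_lit 0, nat_lit 0), (nat_lit 1000, nat_lit 815, nat_lit 753)], (nat_lit 81, nat_lit 100, nat_lit 72)⟩
noncomputable def p080_k20 : C1.Kn := ⟨[nat_lit 100, nat_lit 160, nat_lit 180], [nat_lit 0, nat_lit 0, nat_lit 2560], [(nat_lit 0, nat_lit 0, nat_lit 0), (nat_lit 0, nat_lit 0, nat_lit 0), (nat_lit 600, nat_lit 1000, nat_lit 800)], (nat_lit 100, nat_lit 70, nat_lit 71)⟩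
noncomputable def p080_k21 : C1.Kn := ⟨[nat_lit 40, nat_lit 80, nat_lit 120], [nat_lit 0, nat_lit 395, nat_lit 2466], [(nat_lit 0, nat_lit 0, nat_lit 0), (nat_lit 1000, nat_lit 908, nat_lit 154), (nat_lit 1000, nat_lit 773, nat_lit 792)], (nat_lit 76, nat_lit 100, nat_lit 72)⟩
noncomputable def p080_k22 : C1.Kn := ⟨[nat_lit 100, nat_lit 140, nat_lit 180], [nat_lit 0, nat_lit 0, nat_lit 2434], [(nat_lit 0, nat_lit 0, nat_lit 0), (nat_lit 0, nat_lit 0, nat_lit 0), (nat_lit 726, nat_lit 1000, nat_lit 688)], (nat_lit 100, nat_lit 70, nat_lit 71)⟩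
noncomputable def p080_k23 : C1.Kn := ⟨[nat_lit 40, nat_lit 80, nat_lit 120], [nat_lit 0, nat_lit 0, nat_lit 2151], [(nat_lit 0, nat_lit 0, nat_lit 0), (nat_lit 0, nat_lit 0, nat_lit 0), (nat_lit 1000, nat_lit 815, nat_lit 753)], (nat_lit 81, nat_lit 100, nat_lit 72)⟩
noncomputable def p080_k24 : C1.Kn := ⟨[nat_lit 40, nat_lit 80, nat_lit 120], [nat_lit 0, nat_lit 795, nat_lit 2800], [(nat_lit 0, nat_lit 0, nat_lit 0), (nat_lit 1000, nat_lit 814, nat_lit 310), (nat_lit 1000, nat_lit 719, nat_lit 783)], (nat_lit 71, nat_lit 100, nat_lit 71)⟩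
noncomputable def p080_k25 : C1.Kn := ⟨[nat_lit 100, nat_lit 140, nat_lit 180], [nat_lit 0, nat_lit 256, nat_lit 2643], [(nat_lit 0, nat_lit 0, nat_lit 0), (nat_lit 1000, nat_lit 1000, nat_lit 100), (nat_lit 751, nat_lit 1000, nat_lit 699)], (nat_lit 100, nat_lit 74, nat_lit 72)⟩
noncomputable def p080_k26 : C1.Kn := ⟨[nat_lit 40, nat_lit 80, nat_lit 120], [nat_lit 0, nat_lit 795, nat_lit 2800], [(nat_lit 0, nat_lit 0, nat_lit 0), (nat_lit 1000, nat_lit 814, nat_lit 310), (nat_lit 1000, nat_lit 719, nat_lit 783)], (nat_lit 72, nat_lit 100, nat_lit 81)⟩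
noncomputable def p080_k27 : C1.Kn := ⟨[nat_lit 100, nat_lit 140, nat_lit 180], [nat_lit 0, nat_lit 0, nat_lit 2434], [(nat_lit 0, nat_lit 0, nat_lit 0), (nat_lit 0, nat_lit 0, nat_lit 0), (nat_lit 726, nat_lit 1000, nat_lit 688)], (nat_lit 100, nat_lit 60, nat_lit 80)⟩
noncomputable def p080_k28 : C1.Kn := ⟨[nat_lit 100, nat_lit 140, nat_lit 180], [nat_lit 0, nat_lit 508, nat_lit 2854], [(nat_lit 0, nat_lit 0, nat_lit 0), (nat_lit 1000, nat_lit 1000, nat_lit 198), (nat_lit 777, nat_lit 1000, nat_lit 712)], (nat_lit 100, nat_lit 68, nat_lit 80)⟩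
noncomputable def p080_k29 : C1.Kn := ⟨[nat_lit 100, nat_lit 140, nat_lit 180], [nat_lit 0, nat_lit 766, nat_lit 3056], [(nat_lit 0, nat_lit 0, nat_lit 0), (nat_lit 1000, nat_lit 1000, nat_lit 299), (nat_lit 809, nat_lit 1000, nat_lit 722)], (nat_lit 100, nat_lit 72, nat_lit 81)⟩
noncomputable def p080_k30 : C1.Kn := ⟨[nat_lit 40, nat_lit 80, nat_lit 120], [nat_lit 0, nat_lit 1195, nat_lit 3135], [(nat_lit 0, nat_lit 0, nat_lit 0), (nat_lit 1000, nat_lit 720, nat_lit 465), (nat_lit 1000, nat_lit 661, nat_lit 757)], (nat_lit 66, nat_lit 100, nat_lit 80)⟩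
noncomputable def p080_k31 : C1.Kn := ⟨[nat_lit 40, nat_lit 80, nat_lit 140], [nat_lit 0, nat_lit 0, nat_lit 3199], [(nat_lit 0, nat_lit 0, nat_lit 0), (nat_lit 0, nat_lit 0, nat_lit 0), (nat_lit 1000, nat_lit 833, nat_lit 833)], (nat_lit 83, nat_lit 100, nat_lit 83)⟩
noncomputable def p080_k32 : C1.Kn := ⟨[nat_lit 40, nat_lit 80, nat_lit 120], [nat_lit 0, nat_lit 795, nat_lit 2800], [(nat_lit 0, nat_lit 0, nat_lit 0), (nat_lit 1000, nat_lit 814, nat_lit 310), (nat_lit 1000, nat_lit 719, nat_lit 783)], (nat_lit 72, nat_lit 100, nat_lit 77)⟩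
noncomputable def p080_k33 : C1.Kn := ⟨[nat_lit 100, nat_lit 140, nat_lit 180], [nat_lit 0, nat_lit 508, nat_lit 2854], [(nat_lit 0, nat_lit 0, nat_lit 0), (nat_lit 1000, nat_lit 1000, nat_lit 198), (nat_lit 777, nat_lit 1000, nat_lit 712)], (nat_lit 100, nat_lit 77, nat_lit 72)⟩
noncomputable def p080_k34 : C1.Kn := ⟨[nat_lit 100, nat_lit 140, nat_lit 180], [nat_lit 0, nat_lit 508, nat_lit 2854], [(nat_lit 0, nat_lit 0, nat_lit 0), (nat_lit 1000, nat_lit 1000, nat_lit 198), (nat_lit 777, nat_lit 1000, nat_lit 712)], (nat_lit 100, nat_lit 72, nat_lit 77)⟩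
noncomputable def p080_k35 : C1.Kn := ⟨[nat_lit 40, nat_lit 120], [nat_lit 0, nat_lit 0], [(nat_lit 0, nat_lit 0, nat_lit 0), (nat_lit 0, nat_lit 0, nat_lit 0)], (nat_lit 81, nat_lit 100, nat_lit 72)⟩
noncomputable def p080_k36 : C1.Kn := ⟨[nat_lit 100, nat_lit 180], [nat_lit 0, nat_lit 0], [(nat_lit 0, nat_lit 0, nat_lit 0), (nat_lit 0, nat_lit 0, nat_lit 0)], (nat_lit 100, nat_lit 70, nat_lit 71)⟩
noncomputable def p080_k37 : C1.Kn := ⟨[nat_lit 40, nat_lit 100, nat_lit 120], [nat_lit 0, nat_lit 1192, nat_lit 2817], [(nat_lit 0, nat_lit 0, nat_lit 0), (nat_lit 1000, nat_lit 814, nat_lit 310), (nat_lit 1000, nat_lit 727, nat_lit 834)], (nat_lit 72, nat_lit 100, nat_lit 81)⟩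
noncomputable def p080_k38 : C1.Kn := ⟨[nat_lit 40, nat_lit 120], [nat_lit 0, nat_lit 789], [(nat_lit 0, nat_lit 0, nat_lit 0), (nat_lit 1000, nat_lit 908, nat_lit 154)], (nat_lit 76, nat_lit 100, nat_lit 72)⟩
noncomputable def p080_k39 : C1.Kn := ⟨[nat_lit 40, nat_lit 120], [nat_lit 0, nat_lit 2385], [(nat_lit 0, nat_lit 0, nat_lit 0), (nat_lit 1000, nat_lit 720, nat_lit 465)], (nat_lit 66, nat_lit 100, nat_lit 80)⟩
noncomputable def p080_k40 : C1.Kn := ⟨[nat_lit 40, nat_lit 80, nat_lit 120], [nat_lit 0, nat_lit 1399, nat_lit 3299], [(nat_lit 0, nat_lit 0, nat_lit 0), (nat_lit 1000, nat_lit 672, nat_lit 546), (nat_lit 1000, nat_lit 633, nat_lit 742)], (nat_lit 63, nat_lit 100, nat_lit 80)⟩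
noncomputable def p080_k41 : C1.Kn := ⟨[nat_lit 40, nat_lit 80, nat_lit 100], [nat_lit 0, nat_lit 1195, nat_lit 2166], [(nat_lit 0, nat_lit 0, nat_lit 0), (nat_lit 1000, nat_lit 720, nat_lit 465), (nat_lit 1000, nat_lit 662, nat_lit 740)], (nat_lit 66, nat_lit 100, nat_lit 72)⟩
noncomputable def p080_k42 : C1.Kn := ⟨[nat_lit 40, nat_lit 140], [nat_lit 0, nat_lit 0], [(nat_lit 0, nat_lit 0, nat_lit 0), (nat_lit 0, nat_lit 0, nat_lit 0)], (nat_lit 85, nat_lit 100, nat_lit 90)⟩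
noncomputable def p080_k43 : C1.Kn := ⟨[nat_lit 40, nat_lit 100, nat_lit 140], [nat_lit 0, nat_lit 0, nat_lit 3243], [(nat_lit 0, nat_lit 0, nat_lit 0), (nat_lit 0, nat_lit 0, nat_lit 0), (nat_lit 1000, nat_lit 870, nat_lit 941)], (nat_lit 85, nat_lit 100, nat_lit 90)⟩
noncomputable def p080_k44 : C1.Kn := ⟨[nat_lit 100, nat_lit 160, nat_lit 200], [nat_lit 0, nat_lit 0, nat_lit 4782], [(nat_lit 0, nat_lit 0, nat_lit 0), (nat_lit 0, nat_lit 0, nat_lit 0), (nat_lit 475, nat_lit 1000, nat_lit 880)], (nat_lit 0, nat_lit 0, nat_lit 0)⟩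
noncomputable def p080_k45 : C1.Kn := ⟨[nat_lit 40, nat_lit 140], [nat_lit 0, nat_lit 1985], [(nat_lit 0, nat_lit 0, nat_lit 0), (nat_lit 1000, nat_lit 814, nat_lit 310)], (nat_lit 73, nat_lit 100, nat_lit 86)⟩
noncomputable def p080_k46 : C1.Kn := ⟨[nat_lit 40, nat_lit 100, nat_lit 140], [nat_lit 0, nat_lit 1192, nat_lit 4003], [(nat_lit 0, nat_lit 0, nat_lit 0), (nat_lit 1000, nat_lit 814, nat_lit 310), (nat_lit 992, nat_lit 771, nat_lit 1000)], (nat_lit 73, nat_lit 100, nat_lit 86)⟩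
noncomputable def p080_k47 : C1.Kn := ⟨[nat_lit 100, nat_lit 160, nat_lit 180], [nat_lit 0, nat_lit 761, nat_lit 3091], [(nat_lit 0, nat_lit 0, nat_lit 0), (nat_lit 1000, nat_lit 1000, nat_lit 198), (nat_lit 608, nat_lit 1000, nat_lit 857)], (nat_lit 100, nat_lit 62, nat_lit 85)⟩
noncomputable def p080_k48 : C1.Kn := ⟨[nat_lit 40, nat_lit 80, nat_lit 140], [nat_lit 0, nat_lit 0, nat_lit 3199], [(nat_lit 0, nat_lit 0, nat_lit 0), (nat_lit 0, nat_lit 0, nat_lit 0), (nat_lit 1000, nat_lit 833, nat_lit 833)], (nat_lit 85, nat_lit 100, nat_lit 90)⟩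
noncomputable def p080_k49 : C1.Kn := ⟨[nat_lit 100, nat_lit 140, nat_lit 180], [nat_lit 0, nat_lit 508, nat_lit 2854], [(nat_lit 0, nat_lit 0, nat_lit 0), (nat_lit 1000, nat_lit 1000, nat_lit 198), (nat_lit 777, nat_lit 1000, nat_lit 712)], (nat_lit 100, nat_lit 62, nat_lit 85)⟩
noncomputable def p080_k50 : C1.Kn := ⟨[nat_lit 40, nat_lit 80, nat_lit 140], [nat_lit 0, nat_lit 795, nat_lit 3803], [(nat_lit 0, nat_lit 0, nat_lit 0), (nat_lit 1000, nat_lit 814, nat_lit 310), (nat_lit 1000, nat_lit 719, nat_lit 783)], (nat_lit 73, nat_lit 100, nat_lit 86)⟩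
noncomputable def p080_k51 : C1.Kn := ⟨[nat_lit 100, nat_lit 140, nat_lit 200], [nat_lit 0, nat_lit 0, nat_lit 3647], [(nat_lit 0, nat_lit 0, nat_lit 0), (nat_lit 0, nat_lit 0, nat_lit 0), (nat_lit 726, nat_lit 1000, nat_lit 688)], (nat_lit 0, nat_lit 0, nat_lit 0)⟩
noncomputable def p080_l0 : Lf2 := ⟨nat_lit 0, nat_lit 10, [nat_lit 0, nat_lit 5, nat_lit 5, nat_lit 20], false, nat_lit 160, nat_lit 276, nat_lit 0, nat_lit 384, ⟨nat_lit 167, nat_lit 833, nat_lit 0, nat_lit 6, nat_lit 255, nat_lit 833, nat_lit 168, nat_lit 0, nat_lit 0, nat_lit 0, nat_lit 0, nat_lit 0, nat_lit 40347023, nat_lit 17633707, nat_lit 9019270, nat_lit 4983203, true, true⟩,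
 nat_lit 4025, nat_lit 0, nat_lit 0, nat_lit 0, nat_lit 3258, nat_lit 1724, nat_lit 352, nat_lit 0, nat_lit 0, nat_lit 140, nat_lit 0, nat_lit 0, nat_lit 0, nat_lit 0, nat_lit 0, nat_lit 333200, nat_lit 0, nat_lit 0, [(nat_lit 21, [(nat_lit 1, nat_lit 833)])],
 ⟨p080_k0, nat_lit 0, nat_lit 0, nat_lit 177, nat_lit 0, nat_lit 372005, [nat_lit 1468225600, nat_lit 2026398401, nat_lit 2286586000], [], [nat_lit 22417267034, nat_lit 22895166946, nat_lit 25134995882, nat_lit 25543480434, nat_lit 25211882462, nat_lit 25607225728, nat_lit 27467154683, nat_lit 27852982673], nat_lit 1271250, nat_lit 1271250, nat_lit 1271250, nat_lit 1271250, nat_lit 1100001, nat_lit 2093250, [nat_lit 490000, nat_lit 1100000, nat_lit 1442500], [nat_lit 6, nat_lit 40, nat_lit 40, nat_lit 80, nat_lit 3, nat_lit 289, nat_lit 75, nat_lit 9]⟩, ⟨p080_k1, nat_lit 0, nat_lit 0, nat_lit 663, nat_lit 0, nat_lit 841978, [nat_lit 1043750000, nat_lit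 1643614000, nat_lit 1982624000], [], [nat_lit 6984258216, nat_lit 6986038438, nat_lit 7194758832, nat_lit 7178477024, nat_lit 6565745521, nat_lit 5872430101, nat_lit 5949639124, nat_lit 5931931808], nat_lit 1271250, nat_lit 1271250, nat_lit 1271250, nat_lit 1271250, nat_lit 0, nat_lit 2712000, [nat_lit 1412500, nat_lit 1271250, nat_lit 1271250], [nat_lit 46, nat_lit 40, nat_lit 40, nat_lit 80, nat_lit 41, nat_lit 483, nat_lit 250, nat_lit 12]⟩,
 ⟨nat_lit 3535, nat_lit 3873, ⟨.ofNat (nat_lit 564520), .ofNat (nat_lit 693563), .ofNat (nat_lit 586313), .ofNat (nat_lit 715356), .ofNat (nat_lit 562760), .ofNat (nat_lit 688283), .ofNat (nat_lit 584712), .ofNat (nat_lit 710235)⟩, ⟨.ofNat (nat_lit 304717), .ofNat (nat_lit 491830), .ofNat (nat_lit 348304), .ofNat (nat_lit 535416), .ofNat (nat_lit 305521), .ofNat (nat_lit 487529), .ofNat (nat_lit 349427), .ofNat (nat_lit 531435)⟩⟩, [⟨nat_lit 16, nat_lit 77, nat_lit 100,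 nat_lit 99, nat_lit 173360210⟩, ⟨nat_lit 7, nat_lit 54, nat_lit 100, nat_lit 87, nat_lit 19974545⟩]⟩
noncomputable def p080_l1 : Lf2 := ⟨nat_lit 0, nat_lit 10, [nat_lit 0, nat_lit 5, nat_lit 5, nat_lit 20], false, nat_lit 160, nat_lit 264, nat_lit 0, nat_lit 384, ⟨nat_lit 180, nat_lit 820, nat_lit 0, nat_lit 6, nat_lit 254, nat_lit 820, nat_lit 163, nat_lit 0, nat_lit 0, nat_lit 0, nat_lit 0, nat_lit 0, nat_lit 40713165, nat_lit 17583064, nat_lit 8703771, nat_lit 4938234, true, true⟩,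
 nat_lit 3786, nat_lit 258, nat_lit 0, nat_lit 0, nat_lit 3396, nat_lit 1622, nat_lit 250, nat_lit 0, nat_lit 0, nat_lit 295, nat_lit 0, nat_lit 0, nat_lit 0, nat_lit 0, nat_lit 0, nat_lit 328000, nat_lit 0, nat_lit 0, [(nat_lit 21, [(nat_lit 1, nat_lit 820)])],
 ⟨p080_k2, nat_lit 0, nat_lit 0, nat_lit 177, nat_lit 0, nat_lit 415877, [nat_lit 1477024000, nat_lit 1737448001, nat_lit 2081907999], [], [nat_lit 22834325174, nat_lit 23327143481, nat_lit 25609446109, nat_lit 26038612969, nat_lit 25312852030, nat_lit 25737482515, nat_lit 27660857787, nat_lit 28059639352], nat_lit 1271250, nat_lit 1271250, nat_lit 1271250, nat_lit 1271250, nat_lit 1100001, nat_lit 1990500, [nat_lit 490000, nat_lit 780000, nat_lit 1100000], [nat_lit 78, nat_lit 40, nat_lit 40, nat_lit 80, nat_lit 22, nat_lit 203, nat_lit 0, nat_lit 7]⟩, ⟨p080_k3, nat_lit 0, nat_lit 0, nat_lit 716, nat_lit 0, nat_lit 984371, [nat_lit 1125000000, nat_lit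 1434240000, nat_lit 2136960000], [], [nat_lit 6513023750, nat_lit 6520204894, nat_lit 6790256875, nat_lit 6797438019, nat_lit 7158813351, nat_lit 6439231866, nat_lit 6113445989, nat_lit 6108242383], nat_lit 1271250, nat_lit 1271250, nat_lit 1271250, nat_lit 1271250, nat_lit 0, nat_lit 2712000, [nat_lit 1412500, nat_lit 1271250, nat_lit 1271250], [nat_lit 53, nat_lit 40, nat_lit 40, nat_lit 80, nat_lit 14, nat_lit 483, nat_lit 250, nat_lit 12]⟩,
 ⟨nat_lit 3162, nat_lit 3536, ⟨.ofNat (nat_lit 562760), .ofNat (nat_lit 688283), .ofNat (nat_lit 584713), .ofNat (nat_lit 710235), .ofNat (nat_lit 560952), .ofNat (nat_lit 682859), .ofNat (nat_lit 583107), .ofNat (nat_lit 705013)⟩, ⟨.ofNat (nat_lit 305521), .ofNat (nat_lit 468701), .ofNat (nat_lit 349427), .ofNat (nat_lit 512606), .ofNat (nat_lit 306116), .ofNat (nat_lit 464594), .ofNat (nat_lit 350426), .ofNat (nat_lit 508904)⟩⟩, [⟨nat_lit 16, nat_lit 69, nat_lit 100,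 nat_lit 96, nat_lit 208106082⟩, ⟨nat_lit 19, nat_lit 100, nat_lit 40, nat_lit 92, nat_lit 29411014⟩]⟩
noncomputable def p080_l2 : Lf2 := ⟨nat_lit 0, nat_lit 10, [nat_lit 0, nat_lit 5, nat_lit 5, nat_lit 20], false, nat_lit 160, nat_lit 276, nat_lit 0, nat_lit 376, ⟨nat_lit 231, nat_lit 769, nat_lit 0, nat_lit 6, nat_lit 264, nat_lit 769, nat_lit 168, nat_lit 0, nat_lit 0, nat_lit 0, nat_lit 0, nat_lit 0, nat_lit 39659422, nat_lit 18422262, nat_lit 8918316, nat_lit 5020966, true, true⟩,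
 nat_lit 4317, nat_lit 0, nat_lit 0, nat_lit 0, nat_lit 3494, nat_lit 2064, nat_lit 275, nat_lit 0, nat_lit 0, nat_lit 312, nat_lit 0, nat_lit 0, nat_lit 0, nat_lit 0, nat_lit 0, nat_lit 307600, nat_lit 0, nat_lit 0, [(nat_lit 21, [(nat_lit 1, nat_lit 769)])],
 ⟨p080_k4, nat_lit 0, nat_lit 0, nat_lit 200, nat_lit 0, nat_lit 404469, [nat_lit 1511540801, nat_lit 1871038800, nat_lit 2591098000], [], [nat_lit 22639824445, nat_lit 23127709819, nat_lit 25382360257, nat_lit 25797933817, nat_lit 25411454948, nat_lit 25813450134, nat_lit 27671492780, nat_lit 28052583623], nat_lit 1271250, nat_lit 1271250, nat_lit 1271250, nat_lit 1271250, nat_lit 1100001, nat_lit 2093250, [nat_lit 490000, nat_lit 780000, nat_lit 1435000], [nat_lit 85, nat_lit 40, nat_lit 40, nat_lit 80, nat_lit 16, nat_lit 289, nat_lit 75, nat_lit 9]⟩, ⟨p080_k5, nat_lit 0, nat_lit 0, nat_lit 617, nat_lit 0, nat_lit 789887, [nat_lit 1443750000, nat_lit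 1840608000, nat_lit 2742432000], [], [nat_lit 7658024778, nat_lit 7678142532, nat_lit 8023680180, nat_lit 8061323448, nat_lit 8127974705, nat_lit 7255254378, nat_lit 7725170360, nat_lit 7741373907], nat_lit 1271250, nat_lit 1271250, nat_lit 1271250, nat_lit 1271250, nat_lit 0, nat_lit 2655500, [nat_lit 1412500, nat_lit 1271250, nat_lit 1271250], [nat_lit 53, nat_lit 40, nat_lit 40, nat_lit 80, nat_lit 14, nat_lit 483, nat_lit 250, nat_lit 12]⟩,
 ⟨nat_lit 3535, nat_lit 3873, ⟨.ofNat (nat_lit 586313), .ofNat (nat_lit 715356), .ofNat (nat_lit 608101), .ofNat (nat_lit 737150), .ofNat (nat_lit 584712), .ofNat (nat_lit 710235), .ofNat (nat_lit 606659), .ofNat (nat_lit 732188)⟩, ⟨.ofNat (nat_lit 304717), .ofNat (nat_lit 491830), .ofNat (nat_lit 348304), .ofNat (nat_lit 535416), .ofNat (nat_lit 305521), .ofNat (nat_lit 487529), .ofNat (nat_lit 349427), .ofNat (nat_lit 531435)⟩⟩, [⟨nat_lit 16, nat_lit 77, nat_lit 100,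 nat_lit 99, nat_lit 188460908⟩, ⟨nat_lit 19, nat_lit 100, nat_lit 49, nat_lit 92, nat_lit 45351880⟩]⟩
noncomputable def p080_l3 : Lf2 := ⟨nat_lit 0, nat_lit 10, [nat_lit 0, nat_lit 5, nat_lit 5, nat_lit 20], false, nat_lit 160, nat_lit 264, nat_lit 0, nat_lit 376, ⟨nat_lit 261, nat_lit 739, nat_lit 0, nat_lit 6, nat_lit 263, nat_lit 739, nat_lit 163, nat_lit 0, nat_lit 0, nat_lit 0, nat_lit 0, nat_lit 0, nat_lit 40010407, nat_lit 18383042, nat_lit 8606551, nat_lit 4977458, true, true⟩,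
 nat_lit 4402, nat_lit 0, nat_lit 0, nat_lit 0, nat_lit 3697, nat_lit 2105, nat_lit 187, nat_lit 0, nat_lit 0, nat_lit 433, nat_lit 0, nat_lit 0, nat_lit 0, nat_lit 0, nat_lit 0, nat_lit 295600, nat_lit 0, nat_lit 0, [(nat_lit 21, [(nat_lit 1, nat_lit 739)])],
 ⟨p080_k2, nat_lit 0, nat_lit 0, nat_lit 185, nat_lit 0, nat_lit 443508, [nat_lit 1531844800, nat_lit 1890019601, nat_lit 2335486599], [], [nat_lit 22846159968, nat_lit 23344759815, nat_lit 25575235136, nat_lit 25999508995, nat_lit 25234933074, nat_lit 25654544519, nat_lit 27816233570, nat_lit 28322364026], nat_lit 1271250, nat_lit 1271250, nat_lit 1271250, nat_lit 1271250, nat_lit 1100001, nat_lit 1990500, [nat_lit 490000, nat_lit 780000, nat_lit 1100000], [nat_lit 78, nat_lit 40, nat_lit 40, nat_lit 80, nat_lit 22, nat_lit 203, nat_lit 0, nat_lit 7]⟩, ⟨p080_k5, nat_lit 0, nat_lit 0, nat_lit 680, nat_lit 0, nat_lit 905782, [nat_lit 1631250000, nat_lit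 2079648000, nat_lit 3098592000], [], [nat_lit 9066310599, nat_lit 9100225548, nat_lit 9464088474, nat_lit 9485510748, nat_lit 9373784453, nat_lit 8437512870, nat_lit 8491468522, nat_lit 8525504217], nat_lit 1271250, nat_lit 1271250, nat_lit 1271250, nat_lit 1271250, nat_lit 0, nat_lit 2655500, [nat_lit 1412500, nat_lit 1271250, nat_lit 1271250], [nat_lit 53, nat_lit 40, nat_lit 40, nat_lit 80, nat_lit 14, nat_lit 483, nat_lit 250, nat_lit 12]⟩,
 ⟨nat_lit 3162, nat_lit 3536, ⟨.ofNat (nat_lit 584713), .ofNat (nat_lit 710235), .ofNat (nat_lit 606660), .ofNat (nat_lit 732188), .ofNat (nat_lit 583107), .ofNat (nat_lit 705013), .ofNat (nat_lit 605256), .ofNat (nat_lit 727168)⟩, ⟨.ofNat (nat_lit 305521), .ofNat (nat_lit 468701), .ofNat (nat_lit 349427), .ofNat (nat_lit 512606), .ofNat (nat_lit 306116), .ofNat (nat_lit 464594), .ofNat (nat_lit 350426), .ofNat (nat_lit 508904)⟩⟩, [⟨nat_lit 16, nat_lit 69, nat_lit 100,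 nat_lit 96, nat_lit 256134451⟩, ⟨nat_lit 19, nat_lit 100, nat_lit 49, nat_lit 92, nat_lit 42404872⟩]⟩
noncomputable def p080_l4 : Lf2 := ⟨nat_lit 0, nat_lit 5, [nat_lit 4, nat_lit 5, nat_lit 5, nat_lit 20], false, nat_lit 160, nat_lit 276, nat_lit 16, nat_lit 384, ⟨nat_lit 195, nat_lit 805, nat_lit 0, nat_lit 8, nat_lit 292, nat_lit 805, nat_lit 167, nat_lit 0, nat_lit 0, nat_lit 0, nat_lit 0, nat_lit 0, nat_lit 37498587, nat_lit 20948580, nat_lit 8552833, nat_lit 5110715, true, true⟩,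
 nat_lit 4093, nat_lit 0, nat_lit 0, nat_lit 0, nat_lit 3313, nat_lit 1753, nat_lit 0, nat_lit 0, nat_lit 0, nat_lit 319, nat_lit 0, nat_lit 0, nat_lit 0, nat_lit 0, nat_lit 0, nat_lit 697000, nat_lit 0, nat_lit 0, [(nat_lit 21, [(nat_lit 1, nat_lit 180), (nat_lit 2, nat_lit 625)])],
 ⟨p080_k6, nat_lit 0, nat_lit 0, nat_lit 187, nat_lit 0, nat_lit 414582, [nat_lit 1464509334, nat_lit 1284452000, nat_lit 991617000], [], [nat_lit 25194803752, nat_lit 26045371162, nat_lit 26866800910, nat_lit 27716827584, nat_lit 27745079179, nat_lit 28518551378, nat_lit 29226674756, nat_lit 30081195929], nat_lit 1271250, nat_lit 1271250, nat_lit 1271250, nat_lit 1271250, nat_lit 1100001, nat_lit 2093250, [nat_lit 490000, nat_lit 780000, nat_lit 1100000], [nat_lit 78, nat_lit 40, nat_lit 40, nat_lit 80, nat_lit 22, nat_lit 203, nat_lit 0, nat_lit 7]⟩, ⟨p080_k7, nat_lit 0, nat_lit 0, nat_lit 670, nat_lit 0, nat_lit 925603, [nat_lit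 1218750000, nat_lit 1553760000, nat_lit 2315040000], [], [nat_lit 7196957190, nat_lit 7204454311, nat_lit 7466682100, nat_lit 7481967773, nat_lit 6640237712, nat_lit 6613003518, nat_lit 7119651373, nat_lit 7162869652], nat_lit 1271250, nat_lit 1271250, nat_lit 1271250, nat_lit 1271250, nat_lit 88400, nat_lit 2742600, [nat_lit 1412500, nat_lit 1271250, nat_lit 1271250], [nat_lit 53, nat_lit 40, nat_lit 40, nat_lit 80, nat_lit 14, nat_lit 401, nat_lit 175, nat_lit 10]⟩,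
 ⟨nat_lit 3162, nat_lit 3873, ⟨.ofNat (nat_lit 693563), .ofNat (nat_lit 758085), .ofNat (nat_lit 715356), .ofNat (nat_lit 779878), .ofNat (nat_lit 682859), .ofNat (nat_lit 743812), .ofNat (nat_lit 705013), .ofNat (nat_lit 765967)⟩, ⟨.ofNat (nat_lit 304717), .ofNat (nat_lit 491830), .ofNat (nat_lit 348304), .ofNat (nat_lit 535416), .ofNat (nat_lit 306116), .ofNat (nat_lit 482881), .ofNat (nat_lit 350426), .ofNat (nat_lit 527190)⟩⟩, [⟨nat_lit 13, nat_lit 66, nat_lit 72, nat_lit 100, nat_lit 260965753⟩, ⟨nat_lit 4, nat_lit 100, nat_lit 67, nat_lit 88, nat_lit 255508772⟩, ⟨nat_lit 19, nat_lit 100, nat_lit 54, nat_lit 87, nat_lit 36720847⟩]⟩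
noncomputable def p080_l5 : Lf2 := ⟨nat_lit 0, nat_lit 10, [nat_lit 0, nat_lit 5, nat_lit 5, nat_lit 20], false, nat_lit 160, nat_lit 276, nat_lit 16, nat_lit 384, ⟨nat_lit 200, nat_lit 800, nat_lit 0, nat_lit 8, nat_lit 293, nat_lit 800, nat_lit 168, nat_lit 0, nat_lit 0, nat_lit 0, nat_lit 0, nat_lit 0, nat_lit 37385563, nat_lit 21050900, nat_lit 8563537, nat_lit 5116868, true, true⟩,
 nat_lit 4503, nat_lit 0, nat_lit 0, nat_lit 0, nat_lit 3645, nat_lit 1929, nat_lit 117, nat_lit 0, nat_lit 0, nat_lit 195, nat_lit 0, nat_lit 0, nat_lit 0, nat_lit 0, nat_lit 0, nat_lit 320000, nat_lit 0, nat_lit 0, [(nat_lit 21, [(nat_lit 1, nat_lit 800)])],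
 ⟨p080_k4, nat_lit 0, nat_lit 0, nat_lit 136, nat_lit 0, nat_lit 211262, [nat_lit 1490560001, nat_lit 1814160000, nat_lit 2443600000], [], [nat_lit 25815912481, nat_lit 26237939781, nat_lit 27428451141, nat_lit 27869414255, nat_lit 28070598499, nat_lit 28473450286, nat_lit 29607289411, nat_lit 29995649463], nat_lit 1271250, nat_lit 1271250, nat_lit 1271250, nat_lit 1271250, nat_lit 1100001, nat_lit 2093250, [nat_lit 490000, nat_lit 780000, nat_lit 1435000], [nat_lit 85, nat_lit 40, nat_lit 40, nat_lit 80, nat_lit 16, nat_lit 289, nat_lit 75, nat_lit 9]⟩, ⟨p080_k3, nat_lit 0, nat_lit 0, nat_lit 440, nat_lit 0, nat_lit 478161, [nat_lit 1250000000, nat_lit 1593600000, nat_lit 2374400000], [], [nat_lit 7896549692, nat_lit 7933418444, nat_lit 8330512294, nat_lit 8347701642, nat_lit 7167845827, nat_lit 7172471195, nat_lit 7512996556, nat_lit 7504610073], nat_lit 1271250, nat_lit 1271250, nat_lit 1271250, nat_lit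 1271250, nat_lit 88400, nat_lit 2742600, [nat_lit 1412500, nat_lit 1271250, nat_lit 1271250], [nat_lit 53, nat_lit 40, nat_lit 40, nat_lit 80, nat_lit 14, nat_lit 401, nat_lit 175, nat_lit 10]⟩,
 ⟨nat_lit 3535, nat_lit 3873, ⟨.ofNat (nat_lit 693563), .ofNat (nat_lit 758085), .ofNat (nat_lit 715356), .ofNat (nat_lit 779878), .ofNat (nat_lit 688283), .ofNat (nat_lit 751044), .ofNat (nat_lit 710235), .ofNat (nat_lit 772997)⟩, ⟨.ofNat (nat_lit 304717), .ofNat (nat_lit 491830), .ofNat (nat_lit 348304), .ofNat (nat_lit 535416), .ofNat (nat_lit 305521), .ofNat (nat_lit 487529), .ofNat (nat_lit 349427), .ofNat (nat_lit 531435)⟩⟩, [⟨nat_lit 13, nat_lit 72, nat_lit 63, nat_lit 100, nat_lit 173661892⟩, ⟨nat_lit 16, nat_lit 77, nat_lit 100, nat_lit 99, nat_lit 176026487⟩, ⟨nat_lit 19, nat_lit 100, nat_lit 54, nat_lit 87, nat_lit 33946251⟩]⟩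
noncomputable def p080_l6 : Lf2 := ⟨nat_lit 0, nat_lit 10, [nat_lit 0, nat_lit 5, nat_lit 5, nat_lit 20], false, nat_lit 160, nat_lit 264, nat_lit 16, nat_lit 384, ⟨nat_lit 209, nat_lit 791, nat_lit 0, nat_lit 8, nat_lit 287, nat_lit 791, nat_lit 163, nat_lit 0, nat_lit 0, nat_lit 0, nat_lit 0, nat_lit 0, nat_lit 38080508, nat_lit 20595465, nat_lit 8324027, nat_lit 5063547, true, true⟩,
 nat_lit 4227, nat_lit 0, nat_lit 0, nat_lit 0, nat_lit 3550, nat_lit 1811, nat_lit 63, nat_lit 0, nat_lit 0, nat_lit 315, nat_lit 0, nat_lit 0, nat_lit 0, nat_lit 0, nat_lit 0, nat_lit 316400, nat_lit 0, nat_lit 0, [(nat_lit 21, [(nat_lit 1, nat_lit 791)])],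
 ⟨p080_k2, nat_lit 0, nat_lit 0, nat_lit 133, nat_lit 0, nat_lit 261740, [nat_lit 1496651201, nat_lit 1792072401, nat_lit 2172695399], [], [nat_lit 25924165326, nat_lit 26367235776, nat_lit 27081039367, nat_lit 27496202076, nat_lit 27951111186, nat_lit 28325822837, nat_lit 28985348023, nat_lit 29448615629], nat_lit 1271250, nat_lit 1271250, nat_lit 1271250, nat_lit 1271250, nat_lit 1100001, nat_lit 1990500, [nat_lit 490000, nat_lit 780000, nat_lit 1100000], [nat_lit 78, nat_lit 40, nat_lit 40, nat_lit 80, nat_lit 22, nat_lit 203, nat_lit 0, nat_lit 6]⟩, ⟨p080_k3, nat_lit 0, nat_lit 0, nat_lit 527, nat_lit 0, nat_lit 619532, [nat_lit 1306250000, nat_lit 1665312000, nat_lit 2481248000], [], [nat_lit 7838028806, nat_lit 7852548805, nat_lit 8048854278, nat_lit 8053698419, nat_lit 7220460525, nat_lit 7211370844, nat_lit 7430196591, nat_lit 7432119401], nat_lit 1271250, nat_lit 1271250, nat_lit 1271250, nat_lit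 1271250, nat_lit 88400, nat_lit 2742600, [nat_lit 1412500, nat_lit 1271250, nat_lit 1271250], [nat_lit 53, nat_lit 40, nat_lit 40, nat_lit 80, nat_lit 14, nat_lit 401, nat_lit 175, nat_lit 10]⟩,
 ⟨nat_lit 3162, nat_lit 3536, ⟨.ofNat (nat_lit 688283), .ofNat (nat_lit 732216), .ofNat (nat_lit 710235), .ofNat (nat_lit 754168), .ofNat (nat_lit 682859), .ofNat (nat_lit 725526), .ofNat (nat_lit 705013), .ofNat (nat_lit 747681)⟩, ⟨.ofNat (nat_lit 305521), .ofNat (nat_lit 468701), .ofNat (nat_lit 349427), .ofNat (nat_lit 512606), .ofNat (nat_lit 306116), .ofNat (nat_lit 464594), .ofNat (nat_lit 350426), .ofNat (nat_lit 508904)⟩⟩, [⟨nat_lit 13, nat_lit 63, nat_lit 74, nat_lit 100, nat_lit 225604422⟩, ⟨nat_lit 16, nat_lit 69, nat_lit 100, nat_lit 96, nat_lit 215822283⟩, ⟨nat_lit 7, nat_lit 54, nat_lit 100, nat_lit 87, nat_lit 39164968⟩]⟩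
noncomputable def p080_l7 : Lf2 := ⟨nat_lit 0, nat_lit 5, [nat_lit 4, nat_lit 5, nat_lit 5, nat_lit 20], false, nat_lit 160, nat_lit 276, nat_lit 16, nat_lit 376, ⟨nat_lit 277, nat_lit 723, nat_lit 0, nat_lit 8, nat_lit 305, nat_lit 723, nat_lit 168, nat_lit 0, nat_lit 0, nat_lit 0, nat_lit 0, nat_lit 0, nat_lit 36532538, nat_lit 22044770, nat_lit 8422692, nat_lit 5141719, true, true⟩,
 nat_lit 4367, nat_lit 0, nat_lit 0, nat_lit 0, nat_lit 3535, nat_lit 2088, nat_lit 0, nat_lit 0, nat_lit 0, nat_lit 572, nat_lit 0, nat_lit 0, nat_lit 0, nat_lit 0, nat_lit 0, nat_lit 453000, nat_lit 0, nat_lit 0, [(nat_lit 21, [(nat_lit 1, nat_lit 450), (nat_lit 2, nat_lit 273)])],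
 ⟨p080_k8, nat_lit 0, nat_lit 0, nat_lit 177, nat_lit 0, nat_lit 385558, [nat_lit 1555231601, nat_lit 1880771200], [], [nat_lit 25797739253, nat_lit 26233409228, nat_lit 27819472672, nat_lit 28208912217, nat_lit 28216050091, nat_lit 28577035322, nat_lit 29896984737, nat_lit 30270764974], nat_lit 1271250, nat_lit 1271250, nat_lit 1271250, nat_lit 1271250, nat_lit 1100001, nat_lit 2093250, [nat_lit 490000, nat_lit 1100000], [nat_lit 24, nat_lit 40, nat_lit 40, nat_lit 80, nat_lit 33, nat_lit 203, nat_lit 0, nat_lit 7]⟩, ⟨p080_k9, nat_lit 0, nat_lit 0, nat_lit 506, nat_lit 0, nat_lit 744719, [nat_lit 1731250000, nat_lit 2726234000], [], [nat_lit 10369356957, nat_lit 10393117377, nat_lit 10729059334, nat_lit 10736840906, nat_lit 9643595895, nat_lit 9612388897, nat_lit 9798434453, nat_lit 9761730225], nat_lit 1271250, nat_lit 1271250, nat_lit 1271250, nat_lit 1271250, nat_lit 88400, nat_lit 2684900, [nat_lit 1412500,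 nat_lit 1271250], [nat_lit 51, nat_lit 40, nat_lit 40, nat_lit 80, nat_lit 1, nat_lit 401, nat_lit 175, nat_lit 11]⟩,
 ⟨nat_lit 3535, nat_lit 3873, ⟨.ofNat (nat_lit 715356), .ofNat (nat_lit 792782), .ofNat (nat_lit 737150), .ofNat (nat_lit 814576), .ofNat (nat_lit 710235), .ofNat (nat_lit 785549), .ofNat (nat_lit 732188), .ofNat (nat_lit 807502)⟩, ⟨.ofNat (nat_lit 304717), .ofNat (nat_lit 491830), .ofNat (nat_lit 348304), .ofNat (nat_lit 535416), .ofNat (nat_lit 305521), .ofNat (nat_lit 487529), .ofNat (nat_lit 349427), .ofNat (nat_lit 531435)⟩⟩, [⟨nat_lit 13, nat_lit 70, nat_lit 62, nat_lit 100, nat_lit 76237198⟩, ⟨nat_lit 16, nat_lit 77, nat_lit 100, nat_lit 99, nat_lit 195310259⟩, ⟨nat_lit 19, nat_lit 100, nat_lit 63, nat_lit 88, nat_lit 48495160⟩]⟩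
noncomputable def p080_l8 : Lf2 := ⟨nat_lit 0, nat_lit 5, [nat_lit 4, nat_lit 5, nat_lit 5, nat_lit 20], false, nat_lit 160, nat_lit 264, nat_lit 16, nat_lit 376, ⟨nat_lit 254, nat_lit 746, nat_lit 0, nat_lit 8, nat_lit 300, nat_lit 746, nat_lit 163, nat_lit 0, nat_lit 0, nat_lit 0, nat_lit 0, nat_lit 0, nat_lit 37115938, nat_lit 21709252, nat_lit 8174810, nat_lit 5095043, true, true⟩,
 nat_lit 4146, nat_lit 0, nat_lit 0, nat_lit 0, nat_lit 3482, nat_lit 1982, nat_lit 205, nat_lit 0, nat_lit 0, nat_lit 470, nat_lit 0, nat_lit 0, nat_lit 0, nat_lit 0, nat_lit 0, nat_lit 298400, nat_lit 0, nat_lit 0, [(nat_lit 21, [(nat_lit 1, nat_lit 746)])],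
 ⟨p080_k10, nat_lit 0, nat_lit 0, nat_lit 185, nat_lit 0, nat_lit 423044, [nat_lit 1527107200, nat_lit 2297816000], [], [nat_lit 25931362595, nat_lit 26364552965, nat_lit 27549702041, nat_lit 27944751733, nat_lit 27965256108, nat_lit 28332587485, nat_lit 29469345960, nat_lit 29914658094], nat_lit 1271250, nat_lit 1271250, nat_lit 1271250, nat_lit 1271250, nat_lit 1100001, nat_lit 1990500, [nat_lit 490000, nat_lit 1100000], [nat_lit 24, nat_lit 40, nat_lit 40, nat_lit 80, nat_lit 33, nat_lit 203, nat_lit 0, nat_lit 6]⟩, ⟨p080_k9, nat_lit 0, nat_lit 0, nat_lit 571, nat_lit 0, nat_lit 853986, [nat_lit 1587500000, nat_lit 2499868000], [], [nat_lit 9402158408, nat_lit 9421576204, nat_lit 9671961653, nat_lit 9678889634, nat_lit 8663674438, nat_lit 8631394591, nat_lit 8897616967, nat_lit 8891249480], nat_lit 1271250, nat_lit 1271250, nat_lit 1271250, nat_lit 1271250, nat_lit 88400, nat_lit 2684900, [nat_lit 1412500,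 nat_lit 1271250], [nat_lit 51, nat_lit 40, nat_lit 40, nat_lit 80, nat_lit 1, nat_lit 401, nat_lit 175, nat_lit 11]⟩,
 ⟨nat_lit 3162, nat_lit 3536, ⟨.ofNat (nat_lit 710235), .ofNat (nat_lit 772997), .ofNat (nat_lit 732188), .ofNat (nat_lit 794949), .ofNat (nat_lit 705013), .ofNat (nat_lit 765967), .ofNat (nat_lit 727168), .ofNat (nat_lit 788122)⟩, ⟨.ofNat (nat_lit 305521), .ofNat (nat_lit 468701), .ofNat (nat_lit 349427), .ofNat (nat_lit 512606), .ofNat (nat_lit 306116), .ofNat (nat_lit 464594), .ofNat (nat_lit 350426), .ofNat (nat_lit 508904)⟩⟩, [⟨nat_lit 13, nat_lit 64, nat_lit 68, nat_lit 100, nat_lit 180514220⟩, ⟨nat_lit 16, nat_lit 69, nat_lit 100, nat_lit 96, nat_lit 234103076⟩, ⟨nat_lit 7, nat_lit 63, nat_lit 100, nat_lit 88, nat_lit 46007588⟩]⟩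
noncomputable def p080_l9 : Lf2 := ⟨nat_lit 0, nat_lit 10, [nat_lit 0, nat_lit 5, nat_lit 5, nat_lit 20], false, nat_lit 160, nat_lit 276, nat_lit 16, nat_lit 376, ⟨nat_lit 444, nat_lit 556, nat_lit 0, nat_lit 8, nat_lit 305, nat_lit 556, nat_lit 168, nat_lit 0, nat_lit 0, nat_lit 0, nat_lit 0, nat_lit 0, nat_lit 36532538, nat_lit 22044770, nat_lit 8422692, nat_lit 5141719, true, true⟩,
 nat_lit 7032, nat_lit 0, nat_lit 0, nat_lit 0, nat_lit 3696, nat_lit 3362, nat_lit 321, nat_lit 0, nat_lit 0, nat_lit 668, nat_lit 0, nat_lit 0, nat_lit 0, nat_lit 0, nat_lit 0, nat_lit 222400, nat_lit 0, nat_lit 0, [(nat_lit 21, [(nat_lit 1, nat_lit 556)])],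
 ⟨p080_k4, nat_lit 0, nat_lit 0, nat_lit 147, nat_lit 0, nat_lit 244392, [nat_lit 1655699200, nat_lit 2261851200, nat_lit 3604552000], [], [nat_lit 26216582304, nat_lit 26640789344, nat_lit 28185311402, nat_lit 28563741797, nat_lit 28467936765, nat_lit 28818436451, nat_lit 30100069820, nat_lit 30443444321], nat_lit 1271250, nat_lit 1271250, nat_lit 1271250, nat_lit 1271250, nat_lit 1100001, nat_lit 2093250, [nat_lit 490000, nat_lit 780000, nat_lit 1435000], [nat_lit 85, nat_lit 40, nat_lit 40, nat_lit 80, nat_lit 16, nat_lit 289, nat_lit 75, nat_lit 9]⟩, ⟨p080_k5, nat_lit 0, nat_lit 0, nat_lit 438, nat_lit 0, nat_lit 477272, [nat_lit 2775000000, nat_lit 3537792000, nat_lit 5271168000], [], [nat_lit 16197736837, nat_lit 16253407060, nat_lit 16882270410, nat_lit 16908047559, nat_lit 15321176025, nat_lit 15303537685, nat_lit 15717066798, nat_lit 15679395737], nat_lit 1271250, nat_lit 1271250, nat_lit 1271250,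 nat_lit 1271250, nat_lit 88400, nat_lit 2684900, [nat_lit 1412500, nat_lit 1271250, nat_lit 1271250], [nat_lit 53, nat_lit 40, nat_lit 40, nat_lit 80, nat_lit 14, nat_lit 401, nat_lit 175, nat_lit 10]⟩,
 ⟨nat_lit 3535, nat_lit 3873, ⟨.ofNat (nat_lit 715356), .ofNat (nat_lit 792782), .ofNat (nat_lit 737150), .ofNat (nat_lit 814576), .ofNat (nat_lit 710235), .ofNat (nat_lit 785549), .ofNat (nat_lit 732188), .ofNat (nat_lit 807502)⟩, ⟨.ofNat (nat_lit 304717), .ofNat (nat_lit 491830), .ofNat (nat_lit 348304), .ofNat (nat_lit 535416), .ofNat (nat_lit 305521), .ofNat (nat_lit 487529), .ofNat (nat_lit 349427), .ofNat (nat_lit 531435)⟩⟩, [⟨nat_lit 13, nat_lit 70, nat_lit 62, nat_lit 100, nat_lit 8774085⟩, ⟨nat_lit 16, nat_lit 77, nat_lit 100, nat_lit 99, nat_lit 233053291⟩, ⟨nat_lit 19, nat_lit 100, nat_lit 63, nat_lit 88, nat_lit 83002421⟩]⟩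
noncomputable def p080_l10 : Lf2 := ⟨nat_lit 0, nat_lit 10, [nat_lit 0, nat_lit 5, nat_lit 5, nat_lit 20], false, nat_lit 160, nat_lit 264, nat_lit 16, nat_lit 376, ⟨nat_lit 281, nat_lit 719, nat_lit 0, nat_lit 8, nat_lit 300, nat_lit 719, nat_lit 163, nat_lit 0, nat_lit 0, nat_lit 0, nat_lit 0, nat_lit 0, nat_lit 37115938, nat_lit 21709252, nat_lit 8174810, nat_lit 5095043, true, true⟩,
 nat_lit 4481, nat_lit 0, nat_lit 0, nat_lit 0, nat_lit 3763, nat_lit 2142, nat_lit 9, nat_lit 0, nat_lit 0, nat_lit 432, nat_lit 0, nat_lit 0, nat_lit 0, nat_lit 0, nat_lit 0, nat_lit 287600, nat_lit 0, nat_lit 0, [(nat_lit 21, [(nat_lit 1, nat_lit 719)])],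
 ⟨p080_k2, nat_lit 0, nat_lit 0, nat_lit 147, nat_lit 0, nat_lit 290130, [nat_lit 1545380800, nat_lit 1927691601, nat_lit 2398098599], [], [nat_lit 26207621972, nat_lit 26660835269, nat_lit 27895679324, nat_lit 28307294009, nat_lit 28221605334, nat_lit 28603604353, nat_lit 29754247813, nat_lit 30212207533], nat_lit 1271250, nat_lit 1271250, nat_lit 1271250, nat_lit 1271250, nat_lit 1100001, nat_lit 1990500, [nat_lit 490000, nat_lit 780000, nat_lit 1100000], [nat_lit 78, nat_lit 40, nat_lit 40, nat_lit 80, nat_lit 22, nat_lit 203, nat_lit 0, nat_lit 6]⟩, ⟨p080_k5, nat_lit 0, nat_lit 0, nat_lit 513, nat_lit 0, nat_lit 592535, [nat_lit 1756250000, nat_lit 2239008000, nat_lit 3336032000], [], [nat_lit 10154423882, nat_lit 10189193904, nat_lit 10507253155, nat_lit 10526256054, nat_lit 9615865482, nat_lit 9604015042, nat_lit 9816815679, nat_lit 9794418613], nat_lit 1271250, nat_lit 1271250, nat_lit 1271250, nat_lit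 1271250, nat_lit 88400, nat_lit 2684900, [nat_lit 1412500, nat_lit 1271250, nat_lit 1271250], [nat_lit 53, nat_lit 40, nat_lit 40, nat_lit 80, nat_lit 14, nat_lit 401, nat_lit 175, nat_lit 10]⟩,
 ⟨nat_lit 3162, nat_lit 3536, ⟨.ofNat (nat_lit 710235), .ofNat (nat_lit 772997), .ofNat (nat_lit 732188), .ofNat (nat_lit 794949), .ofNat (nat_lit 705013), .ofNat (nat_lit 765967), .ofNat (nat_lit 727168), .ofNat (nat_lit 788122)⟩, ⟨.ofNat (nat_lit 305521), .ofNat (nat_lit 468701), .ofNat (nat_lit 349427), .ofNat (nat_lit 512606), .ofNat (nat_lit 306116), .ofNat (nat_lit 464594), .ofNat (nat_lit 350426), .ofNat (nat_lit 508904)⟩⟩, [⟨nat_lit 13, nat_lit 64, nat_lit 68, nat_lit 100, nat_lit 149801586⟩, ⟨nat_lit 16, nat_lit 69, nat_lit 100, nat_lit 96, nat_lit 237100889⟩, ⟨nat_lit 19, nat_lit 100, nat_lit 63, nat_lit 88, nat_lit 53145179⟩]⟩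
noncomputable def b_V_800_500_20_11 : St := ⟨true, nat_lit 1, nat_lit 1, nat_lit 1, nat_lit 120, nat_lit 340, nat_lit 360, nat_lit 200, nat_lit 240, nat_lit 240, nat_lit 384, nat_lit 80, nat_lit 120, nat_lit 160, nat_lit 300, nat_lit 0, nat_lit 384, nat_lit 0, nat_lit 40, nat_lit 0, nat_lit 0, nat_lit 0, nat_lit 0⟩
theorem d_V_800_500_20_11 (h : EB TB.env) : Dead b_V_800_500_20_11 := chkB_sound0 h (T :=
(.trX (nat_lit 13) (nat_lit 73) (nat_lit 55) (nat_lit 100) (nat_lit 368) (.trX (nat_lit 16) (nat_lit 77) (nat_lit 100) (nat_lit 99) (nat_lit 276) (.spl (nat_lit 2) (nat_lit 320)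
(.spl (nat_lit 1) (nat_lit 220)
(.spl (nat_lit 0) (nat_lit 350)
(.leaf p080_l0)
(.trX (nat_lit 16) (nat_lit 69) (nat_lit 100) (nat_lit 96) (nat_lit 264) (.leaf p080_l1)))
(.trX (nat_lit 19) (nat_lit 100) (nat_lit 49) (nat_lit 92) (nat_lit 376) (.spl (nat_lit 0) (nat_lit 350)
(.leaf p080_l2)
(.trX (nat_lit 16) (nat_lit 69) (nat_lit 100) (nat_lit 96) (nat_lit 264) (.leaf p080_l3)))))
(.trZ (nat_lit 9) (nat_lit 100) (nat_lit 82) (nat_lit 44) (nat_lit 16) (.spl (nat_lit 1) (nat_lit 220)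
(.trX (nat_lit 13) (nat_lit 72) (nat_lit 63) (nat_lit 100) (nat_lit 360) (.spl (nat_lit 6) (nat_lit 20)
(.leaf p080_l4)
(.spl (nat_lit 0) (nat_lit 350)
(.leaf p080_l5)
(.trX (nat_lit 13) (nat_lit 66) (nat_lit 68) (nat_lit 100) (nat_lit 348) (.trX (nat_lit 16) (nat_lit 69) (nat_lit 100) (nat_lit 96) (nat_lit 264) (.leaf p080_l6))))))
(.trX (nat_lit 19) (nat_lit 100) (nat_lit 49) (nat_lit 92) (nat_lit 376) (.spl (nat_lit 6) (nat_lit 20)
(.spl (nat_lit 0) (nat_lit 350)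
(.leaf p080_l7)
(.trX (nat_lit 13) (nat_lit 68) (nat_lit 61) (nat_lit 100) (nat_lit 360) (.trX (nat_lit 16) (nat_lit 69) (nat_lit 100) (nat_lit 96) (nat_lit 264) (.leaf p080_l8))))
(.spl (nat_lit 0) (nat_lit 350)
(.leaf p080_l9)
(.trX (nat_lit 13) (nat_lit 68) (nat_lit 61) (nat_lit 100) (nat_lit 360) (.trX (nat_lit 16) (nat_lit 69) (nat_lit 100) (nat_lit 96) (nat_lit 264) (.leaf p080_l10)))))))))))) (by decide +kernel)
noncomputable def p080_l11 : Lf2 := ⟨nat_lit 0, nat_lit 10, [nat_lit 0, nat_lit 5, nat_lit 5, nat_lit 20], true, nat_lit 0, nat_lit 300, nat_lit 0, nat_lit 384, ⟨nat_lit 0, nat_lit 1000, nat_lit 0, nat_lit 5, nat_lit 168, nat_lit 1000, nat_lit 112, nat_lit 0, nat_lit 0, nat_lit 0, nat_lit 0, nat_lit 0, nat_lit 0, nat_lit 0, nat_lit 0, nat_lit 5000000, false, false⟩,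
 nat_lit 0, nat_lit 6035, nat_lit 0, nat_lit 0, nat_lit 4526, nat_lit 0, nat_lit 479, nat_lit 0, nat_lit 0, nat_lit 0, nat_lit 0, nat_lit 0, nat_lit 0, nat_lit 0, nat_lit 23, nat_lit 1000000, nat_lit 0, nat_lit 0, [(nat_lit 18, [(nat_lit 2, nat_lit 1000)])],
 ⟨p080_k11, nat_lit 0, nat_lit 0, nat_lit 355, nat_lit 0, nat_lit 501309, [nat_lit 1885866667, nat_lit 1413333334, nat_lit 16800000], [], [nat_lit 28261708799, nat_lit 27083188185, nat_lit 22236168480, nat_lit 23199932862, nat_lit 23769088536, nat_lit 24582230770, nat_lit 27708107188, nat_lit 26750153352], nat_lit 1271250, nat_lit 1271250, nat_lit 230001, nat_lit 1717500, nat_lit 0, nat_lit 2118750, [nat_lit 490000, nat_lit 1100000, nat_lit 1442500], [nat_lit 6, nat_lit 40, nat_lit 40, nat_lit 80, nat_lit 3, nat_lit 373, nat_lit 150, nat_lit 15]⟩, C1.Rw.none,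
 ⟨nat_lit 4183, nat_lit 4473, ⟨.ofNat (nat_lit 228083), .ofNat (nat_lit 567977), .ofNat (nat_lit 271208), .ofNat (nat_lit 611104), .ofNat (nat_lit 234973), .ofNat (nat_lit 566254), .ofNat (nat_lit 278299), .ofNat (nat_lit 609582)⟩, ⟨.ofNat (nat_lit 0), .ofNat (nat_lit 540545), .ofNat (nat_lit 0), .ofNat (nat_lit 583678), .ofNat (nat_lit 0), .ofNat (nat_lit 535637), .ofNat (nat_lit 0), .ofNat (nat_lit 578971)⟩⟩, [⟨nat_lit 4, nat_lit 100, nat_lit 84, nat_lit 93, nat_lit 84573624⟩]⟩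
noncomputable def p080_l12 : Lf2 := ⟨nat_lit 0, nat_lit 10, [nat_lit 0, nat_lit 5, nat_lit 5, nat_lit 20], true, nat_lit 0, nat_lit 288, nat_lit 0, nat_lit 384, ⟨nat_lit 0, nat_lit 1000, nat_lit 0, nat_lit 5, nat_lit 172, nat_lit 1000, nat_lit 107, nat_lit 0, nat_lit 0, nat_lit 0, nat_lit 0, nat_lit 0, nat_lit 0, nat_lit 0, nat_lit 0, nat_lit 5000000, false, false⟩,
 nat_lit 0, nat_lit 6375, nat_lit 0, nat_lit 0, nat_lit 4969, nat_lit 0, nat_lit 1431, nat_lit 0, nat_lit 0, nat_lit 0, nat_lit 0, nat_lit 0, nat_lit 0, nat_lit 0, nat_lit 0, nat_lit 400000, nat_lit 0, nat_lit 0, [(nat_lit 18, [(nat_lit 1, nat_lit 1000)])],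
 ⟨p080_k12, nat_lit 0, nat_lit 0, nat_lit 379, nat_lit 0, nat_lit 568947, [nat_lit 1398133334, nat_lit 1966666667, nat_lit 1960800000], [], [nat_lit 24386915535, nat_lit 23350076034, nat_lit 23908704953, nat_lit 24927160786, nat_lit 24148607944, nat_lit 25028510529, nat_lit 26882523918, nat_lit 25855415614], nat_lit 1271250, nat_lit 1271250, nat_lit 279600, nat_lit 1722000, nat_lit 0, nat_lit 2034000, [nat_lit 490000, nat_lit 1100000, nat_lit 1442500], [nat_lit 6, nat_lit 40, nat_lit 40, nat_lit 80, nat_lit 3, nat_lit 373, nat_lit 150, nat_lit 15]⟩, C1.Rw.none,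
 ⟨nat_lit 3872, nat_lit 4184, ⟨.ofNat (nat_lit 248217), .ofNat (nat_lit 566254), .ofNat (nat_lit 291541), .ofNat (nat_lit 609582), .ofNat (nat_lit 254806), .ofNat (nat_lit 564520), .ofNat (nat_lit 298383), .ofNat (nat_lit 608101)⟩, ⟨.ofNat (nat_lit 0), .ofNat (nat_lit 515761), .ofNat (nat_lit 0), .ofNat (nat_lit 559094), .ofNat (nat_lit 0), .ofNat (nat_lit 511186), .ofNat (nat_lit 0), .ofNat (nat_lit 554773)⟩⟩, [⟨nat_lit 4, nat_lit 100, nat_lit 77, nat_lit 91, nat_lit 114819577⟩]⟩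
noncomputable def p080_l13 : Lf2 := ⟨nat_lit 0, nat_lit 10, [nat_lit 0, nat_lit 5, nat_lit 5, nat_lit 20], true, nat_lit 0, nat_lit 276, nat_lit 0, nat_lit 384, ⟨nat_lit 0, nat_lit 1000, nat_lit 0, nat_lit 5, nat_lit 176, nat_lit 1000, nat_lit 102, nat_lit 0, nat_lit 0, nat_lit 0, nat_lit 0, nat_lit 0, nat_lit 0, nat_lit 0, nat_lit 0, nat_lit 5000000, false, false⟩,
 nat_lit 0, nat_lit 4760, nat_lit 0, nat_lit 0, nat_lit 3853, nat_lit 0, nat_lit 972, nat_lit 0, nat_lit 0, nat_lit 0, nat_lit 0, nat_lit 0, nat_lit 0, nat_lit 0, nat_lit 0, nat_lit 400000, nat_lit 0, nat_lit 0, [(nat_lit 21, [(nat_lit 1, nat_lit 1000)])],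
 ⟨p080_k0, nat_lit 0, nat_lit 0, nat_lit 455, nat_lit 0, nat_lit 724048, [nat_lit 1355200000, nat_lit 1492800001, nat_lit 1492000000], [], [nat_lit 21340594316, nat_lit 22762164816, nat_lit 23003853082, nat_lit 24765208724, nat_lit 22746838412, nat_lit 24316033367, nat_lit 27003277171, nat_lit 25874296666], nat_lit 1271250, nat_lit 1271250, nat_lit 330400, nat_lit 1726500, nat_lit 0, nat_lit 1949250, [nat_lit 490000, nat_lit 1100000, nat_lit 1442500], [nat_lit 6, nat_lit 40, nat_lit 40, nat_lit 80, nat_lit 3, nat_lit 373, nat_lit 150, nat_lit 14]⟩, C1.Rw.none,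
 ⟨nat_lit 3162, nat_lit 3873, ⟨.ofNat (nat_lit 267606), .ofNat (nat_lit 564520), .ofNat (nat_lit 311135), .ofNat (nat_lit 608082), .ofNat (nat_lit 280451), .ofNat (nat_lit 560952), .ofNat (nat_lit 324704), .ofNat (nat_lit 605237)⟩, ⟨.ofNat (nat_lit 0), .ofNat (nat_lit 491830), .ofNat (nat_lit 0), .ofNat (nat_lit 535416), .ofNat (nat_lit 0), .ofNat (nat_lit 482881), .ofNat (nat_lit 0), .ofNat (nat_lit 527190)⟩⟩, [⟨nat_lit 4, nat_lit 100, nat_lit 67, nat_lit 88, nat_lit 143065436⟩]⟩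
noncomputable def p080_l14 : Lf2 := ⟨nat_lit 0, nat_lit 10, [nat_lit 0, nat_lit 5, nat_lit 5, nat_lit 20], false, nat_lit 0, nat_lit 300, nat_lit 0, nat_lit 160, ⟨nat_lit 1000, nat_lit 0, nat_lit 0, nat_lit 0, nat_lit 0, nat_lit 0, nat_lit 0, nat_lit 0, nat_lit 0, nat_lit 0, nat_lit 0, nat_lit 0, nat_lit 0, nat_lit 0, nat_lit 0, nat_lit 0, false, false⟩,
 nat_lit 0, nat_lit 7672, nat_lit 0, nat_lit 0, nat_lit 5754, nat_lit 10322, nat_lit 937, nat_lit 0, nat_lit 0, nat_lit 1380, nat_lit 0, nat_lit 0, nat_lit 0, nat_lit 0, nat_lit 0, nat_lit 0, nat_lit 0, nat_lit 0, [],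
 ⟨p080_k11, nat_lit 0, nat_lit 0, nat_lit 367, nat_lit 0, nat_lit 599634, [nat_lit 2032000001, nat_lit 4688000000, nat_lit 6250000000], [], [nat_lit 30332644368, nat_lit 31449438548, nat_lit 36486631002, nat_lit 37261841726, nat_lit 31143185574, nat_lit 31854506468, nat_lit 34981880704, nat_lit 35477667814], nat_lit 1271250, nat_lit 1271250, nat_lit 1271250, nat_lit 1271250, nat_lit 0, nat_lit 2118750, [nat_lit 490000, nat_lit 1100000, nat_lit 1442500], [nat_lit 6, nat_lit 40, nat_lit 40, nat_lit 80, nat_lit 3, nat_lit 289, nat_lit 75, nat_lit 10]⟩, ⟨p080_k1, nat_lit 0, nat_lit 0, nat_lit 263, nat_lit 0, nat_lit 0, [nat_lit 6250000000, nat_lit 9842000000, nat_lit 11872000000], [], [nat_lit 27859117888, nat_lit 29798870792, nat_lit 41991537042, nat_lit 42927774732, nat_lit 19695148032, nat_lit 21094181000, nat_lit 31843219789, nat_lit 32624447393], nat_lit 0, nat_lit 0, nat_lit 0, nat_lit 0, nat_lit 0, nat_lit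 0, [], [nat_lit 46, nat_lit 40, nat_lit 40, nat_lit 80, nat_lit 41, nat_lit 428, nat_lit 200, nat_lit 11]⟩,
 zbF0, [⟨nat_lit 4, nat_lit 100, nat_lit 81, nat_lit 92, nat_lit 53216248⟩, ⟨nat_lit 21, nat_lit 88, nat_lit 100, nat_lit 85, nat_lit 148697714⟩]⟩
noncomputable def p080_l15 : Lf2 := ⟨nat_lit 0, nat_lit 10, [nat_lit 0, nat_lit 5, nat_lit 5, nat_lit 20], false, nat_lit 0, nat_lit 300, nat_lit 160, nat_lit 384, ⟨nat_lit 613, nat_lit 387, nat_lit 0, nat_lit 6, nat_lit 284, nat_lit 387, nat_lit 112, nat_lit 0, nat_lit 0, nat_lit 0, nat_lit 0, nat_lit 0, nat_lit 0, nat_lit 0, nat_lit 0, nat_lit 5000000, true, true⟩,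
 nat_lit 0, nat_lit 6557, nat_lit 0, nat_lit 0, nat_lit 4917, nat_lit 3918, nat_lit 165, nat_lit 0, nat_lit 0, nat_lit 0, nat_lit 0, nat_lit 0, nat_lit 0, nat_lit 0, nat_lit 0, nat_lit 387000, nat_lit 0, nat_lit 0, [(nat_lit 18, [(nat_lit 2, nat_lit 387)])],
 ⟨p080_k11, nat_lit 0, nat_lit 0, nat_lit 335, nat_lit 0, nat_lit 501309, [nat_lit 1904238400, nat_lit 3278288000, nat_lit 3659731600], [], [nat_lit 27609663952, nat_lit 28063469475, nat_lit 33637997072, nat_lit 34291555371, nat_lit 28745801610, nat_lit 29043013664, nat_lit 32232094388, nat_lit 32473536766], nat_lit 1271250, nat_lit 1271250, nat_lit 1271250, nat_lit 1271250, nat_lit 0, nat_lit 2118750, [nat_lit 490000, nat_lit 1100000, nat_lit 1442500], [nat_lit 6, nat_lit 40, nat_lit 40, nat_lit 80, nat_lit 3, nat_lit 289, nat_lit 75, nat_lit 10]⟩, ⟨p080_k1, nat_lit 0, nat_lit 0, nat_lit 123, nat_lit 0, nat_lit 0, [nat_lit 3831250000, nat_lit 6033146000,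 nat_lit 7277536000], [], [nat_lit 9521478872, nat_lit 10808207940, nat_lit 16596078438, nat_lit 17279349202, nat_lit 17594980412, nat_lit 18138945378, nat_lit 21472312060, nat_lit 21692595750], nat_lit 0, nat_lit 0, nat_lit 0, nat_lit 0, nat_lit 0, nat_lit 0, [], [nat_lit 46, nat_lit 40, nat_lit 40, nat_lit 80, nat_lit 41, nat_lit 538, nat_lit 300, nat_lit 13]⟩,
 ⟨nat_lit 4183, nat_lit 4473, ⟨.ofNat (nat_lit 567977), .ofNat (nat_lit 812698), .ofNat (nat_lit 611104), .ofNat (nat_lit 855828), .ofNat (nat_lit 566254), .ofNat (nat_lit 804774), .ofNat (nat_lit 609582), .ofNat (nat_lit 848105)⟩, ⟨.ofNat (nat_lit 0), .ofNat (nat_lit 540545), .ofNat (nat_lit 0), .ofNat (nat_lit 583678), .ofNat (nat_lit 0), .ofNat (nat_lit 535637), .ofNat (nat_lit 0), .ofNat (nat_lit 578971)⟩⟩, [⟨nat_lit 16, nat_lit 87, nat_lit 95, nat_lit 100, nat_lit 117128129⟩, ⟨nat_lit 7, nat_lit 59, nat_lit 100, nat_lit 87, nat_lit 282441723⟩]⟩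
noncomputable def p080_l16 : Lf2 := ⟨nat_lit 0, nat_lit 10, [nat_lit 0, nat_lit 5, nat_lit 5, nat_lit 20], false, nat_lit 0, nat_lit 288, nat_lit 160, nat_lit 384, ⟨nat_lit 712, nat_lit 288, nat_lit 0, nat_lit 6, nat_lit 279, nat_lit 288, nat_lit 107, nat_lit 0, nat_lit 0, nat_lit 0, nat_lit 0, nat_lit 0, nat_lit 0, nat_lit 0, nat_lit 0, nat_lit 5000000, true, true⟩,
 nat_lit 0, nat_lit 5833, nat_lit 0, nat_lit 0, nat_lit 4546, nat_lit 4597, nat_lit 927, nat_lit 0, nat_lit 0, nat_lit 0, nat_lit 0, nat_lit 0, nat_lit 0, nat_lit 0, nat_lit 0, nat_lit 280800, nat_lit 0, nat_lit 0, [(nat_lit 18, [(nat_lit 1, nat_lit 12), (nat_lit 2, nat_lit 276)])],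
 ⟨p080_k12, nat_lit 0, nat_lit 0, nat_lit 355, nat_lit 0, nat_lit 568947, [nat_lit 1933276801, nat_lit 3649968000, nat_lit 4351206400], [], [nat_lit 25893345779, nat_lit 26360542841, nat_lit 32642072103, nat_lit 33289797056, nat_lit 27227477243, nat_lit 27544098744, nat_lit 31251001788, nat_lit 31695551804], nat_lit 1271250, nat_lit 1271250, nat_lit 1271250, nat_lit 1271250, nat_lit 0, nat_lit 2034000, [nat_lit 490000, nat_lit 1100000, nat_lit 1442500], [nat_lit 6, nat_lit 40, nat_lit 40, nat_lit 80, nat_lit 3, nat_lit 289, nat_lit 75, nat_lit 10]⟩, ⟨p080_k1, nat_lit 0, nat_lit 0, nat_lit 120, nat_lit 0, nat_lit 0, [nat_lit 4450000000, nat_lit 7007504000, nat_lit 8452864000], [], [nat_lit 10988561228, nat_lit 12489810260, nat_lit 18732456306, nat_lit 19567044814, nat_lit 20413577356, nat_lit 21045015939, nat_lit 24624323478, nat_lit 24898766304], nat_lit 0, nat_lit 0, nat_lit 0, nat_lit 0, nat_lit 0, nat_lit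 0, [], [nat_lit 46, nat_lit 40, nat_lit 40, nat_lit 80, nat_lit 41, nat_lit 483, nat_lit 250, nat_lit 12]⟩,
 ⟨nat_lit 3872, nat_lit 4184, ⟨.ofNat (nat_lit 566254), .ofNat (nat_lit 791523), .ofNat (nat_lit 609582), .ofNat (nat_lit 834857), .ofNat (nat_lit 564520), .ofNat (nat_lit 783893), .ofNat (nat_lit 608101), .ofNat (nat_lit 827480)⟩, ⟨.ofNat (nat_lit 0), .ofNat (nat_lit 515761), .ofNat (nat_lit 0), .ofNat (nat_lit 559094), .ofNat (nat_lit 0), .ofNat (nat_lit 511186), .ofNat (nat_lit 0), .ofNat (nat_lit 554773)⟩⟩, [⟨nat_lit 16, nat_lit 83, nat_lit 98, nat_lit 100, nat_lit 138035345⟩, ⟨nat_lit 19, nat_lit 100, nat_lit 40, nat_lit 92, nat_lit 315206040⟩]⟩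
noncomputable def p080_l17 : Lf2 := ⟨nat_lit 0, nat_lit 10, [nat_lit 0, nat_lit 5, nat_lit 5, nat_lit 20], false, nat_lit 0, nat_lit 276, nat_lit 0, nat_lit 384, ⟨nat_lit 598, nat_lit 402, nat_lit 0, nat_lit 6, nat_lit 275, nat_lit 402, nat_lit 102, nat_lit 0, nat_lit 0, nat_lit 0, nat_lit 0, nat_lit 0, nat_lit 0, nat_lit 0, nat_lit 0, nat_lit 5000000, true, true⟩,
 nat_lit 0, nat_lit 4979, nat_lit 0, nat_lit 0, nat_lit 4030, nat_lit 5662, nat_lit 657, nat_lit 0, nat_lit 0, nat_lit 477, nat_lit 0, nat_lit 0, nat_lit 0, nat_lit 0, nat_lit 0, nat_lit 160800, nat_lit 0, nat_lit 0, [(nat_lit 21, [(nat_lit 1, nat_lit 402)])],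
 ⟨p080_k0, nat_lit 0, nat_lit 0, nat_lit 374, nat_lit 0, nat_lit 631406, [nat_lit 1759926400, nat_lit 3403529600, nat_lit 4337284000], [], [nat_lit 24649325145, nat_lit 25174967185, nat_lit 31310817009, nat_lit 31939927845, nat_lit 27017934129, nat_lit 27384747734, nat_lit 30520813739, nat_lit 30804557141], nat_lit 1271250, nat_lit 1271250, nat_lit 1271250, nat_lit 1271250, nat_lit 0, nat_lit 1949250, [nat_lit 490000, nat_lit 1100000, nat_lit 1442500], [nat_lit 6, nat_lit 40, nat_lit 40, nat_lit 80, nat_lit 3, nat_lit 289, nat_lit 75, nat_lit 10]⟩, ⟨p080_k1, nat_lit 0, nat_lit 0, nat_lit 254, nat_lit 0, nat_lit 0, [nat_lit 3737500000, nat_lit 5885516000, nat_lit 7099456000], [], [nat_lit 17963720544, nat_lit 19083189352, nat_lit 24506007404, nat_lit 24999932471, nat_lit 20114909940, nat_lit 20325087209, nat_lit 22810246528, nat_lit 22811347494], nat_lit 0, nat_lit 0, nat_lit 0, nat_lit 0, nat_lit 0, nat_lit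 0, [], [nat_lit 46, nat_lit 40, nat_lit 40, nat_lit 80, nat_lit 41, nat_lit 483, nat_lit 250, nat_lit 12]⟩,
 ⟨nat_lit 3535, nat_lit 3873, ⟨.ofNat (nat_lit 564520), .ofNat (nat_lit 770989), .ofNat (nat_lit 608101), .ofNat (nat_lit 814576), .ofNat (nat_lit 562760), .ofNat (nat_lit 763596), .ofNat (nat_lit 606659), .ofNat (nat_lit 807502)⟩, ⟨.ofNat (nat_lit 0), .ofNat (nat_lit 491830), .ofNat (nat_lit 0), .ofNat (nat_lit 535416), .ofNat (nat_lit 0), .ofNat (nat_lit 487529), .ofNat (nat_lit 0), .ofNat (nat_lit 531435)⟩⟩, [⟨nat_lit 16, nat_lit 77, nat_lit 100, nat_lit 99, nat_lit 138371420⟩, ⟨nat_lit 7, nat_lit 59, nat_lit 100, nat_lit 87, nat_lit 105513198⟩]⟩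
noncomputable def p080_l18 : Lf2 := ⟨nat_lit 0, nat_lit 10, [nat_lit 0, nat_lit 5, nat_lit 5, nat_lit 20], false, nat_lit 4, nat_lit 264, nat_lit 0, nat_lit 384, ⟨nat_lit 617, nat_lit 383, nat_lit 0, nat_lit 6, nat_lit 271, nat_lit 383, nat_lit 100, nat_lit 0, nat_lit 0, nat_lit 0, nat_lit 0, nat_lit 0, nat_lit 0, nat_lit 0, nat_lit 0, nat_lit 5000000, true, true⟩,
 nat_lit 0, nat_lit 4840, nat_lit 0, nat_lit 0, nat_lit 4065, nat_lit 5927, nat_lit 538, nat_lit 0, nat_lit 0, nat_lit 659, nat_lit 0, nat_lit 0, nat_lit 0, nat_lit 0, nat_lit 0, nat_lit 153200, nat_lit 0, nat_lit 0, [(nat_lit 21, [(nat_lit 1, nat_lit 383)])],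
 ⟨p080_k13, nat_lit 0, nat_lit 0, nat_lit 348, nat_lit 0, nat_lit 689084, [nat_lit 1772785601, nat_lit 3460868000], [], [nat_lit 25068764942, nat_lit 25544176409, nat_lit 31297063781, nat_lit 31944391675, nat_lit 26670916470, nat_lit 27049204713, nat_lit 30210253848, nat_lit 30534661322], nat_lit 1271250, nat_lit 1271250, nat_lit 1271250, nat_lit 1271250, nat_lit 21650, nat_lit 1867650, [nat_lit 490000, nat_lit 1100000], [nat_lit 24, nat_lit 40, nat_lit 40, nat_lit 80, nat_lit 33, nat_lit 289, nat_lit 75, nat_lit 12]⟩, ⟨p080_k1, nat_lit 0, nat_lit 0, nat_lit 249, nat_lit 0, nat_lit 0, [nat_lit 3856250000, nat_lit 6072514000, nat_lit 7325024000], [], [nat_lit 17881930192, nat_lit 19043718852, nat_lit 24168490336, nat_lit 24719976988, nat_lit 20318808897, nat_lit 20647020765, nat_lit 23233422830, nat_lit 23249453488], nat_lit 0, nat_lit 0, nat_lit 0, nat_lit 0, nat_lit 0, nat_lit 0, [], [nat_lit 46, nat_lit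 40, nat_lit 40, nat_lit 80, nat_lit 41, nat_lit 483, nat_lit 250, nat_lit 12]⟩,
 ⟨nat_lit 3162, nat_lit 3536, ⟨.ofNat (nat_lit 562760), .ofNat (nat_lit 751044), .ofNat (nat_lit 606660), .ofNat (nat_lit 794949), .ofNat (nat_lit 560952), .ofNat (nat_lit 743812), .ofNat (nat_lit 605256), .ofNat (nat_lit 788122)⟩, ⟨.ofNat (nat_lit 10000), .ofNat (nat_lit 468701), .ofNat (nat_lit 10000), .ofNat (nat_lit 512606), .ofNat (nat_lit 10000), .ofNat (nat_lit 464594), .ofNat (nat_lit 10000), .ofNat (nat_lit 508904)⟩⟩, [⟨nat_lit 13, nat_lit 64, nat_lit 71, nat_lit 100, nat_lit 30059689⟩, ⟨nat_lit 16, nat_lit 69, nat_lit 100, nat_lit 96, nat_lit 150563002⟩, ⟨nat_lit 7, nat_lit 59, nat_lit 100, nat_lit 87, nat_lit 120635599⟩]⟩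
noncomputable def p080_l19 : Lf2 := ⟨nat_lit 0, nat_lit 10, [nat_lit 0, nat_lit 5, nat_lit 5, nat_lit 20], false, nat_lit 0, nat_lit 300, nat_lit 0, nat_lit 384, ⟨nat_lit 0, nat_lit 1000, nat_lit 0, nat_lit 5, nat_lit 170, nat_lit 1000, nat_lit 110, nat_lit 0, nat_lit 0, nat_lit 0, nat_lit 0, nat_lit 0, nat_lit 0, nat_lit 0, nat_lit 0, nat_lit 5000000, false, false⟩,
 nat_lit 0, nat_lit 6906, nat_lit 0, nat_lit 0, nat_lit 5179, nat_lit 0, nat_lit 366, nat_lit 0, nat_lit 0, nat_lit 0, nat_lit 0, nat_lit 0, nat_lit 0, nat_lit 0, nat_lit 0, nat_lit 400000, nat_lit 0, nat_lit 0, [(nat_lit 18, [(nat_lit 1, nat_lit 1000)]), (nat_lit 21, [(nat_lit 1, nat_lit 1000)])],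
 ⟨p080_k11, nat_lit 0, nat_lit 0, nat_lit 373, nat_lit 0, nat_lit 509219, [nat_lit 1398133334, nat_lit 1966666667, nat_lit 1960800000], [], [nat_lit 28576377825, nat_lit 27080405824, nat_lit 23200309920, nat_lit 27377837132, nat_lit 24586406844, nat_lit 28095414755, nat_lit 29869159457, nat_lit 27871400592], nat_lit 1271250, nat_lit 1271250, nat_lit 230001, nat_lit 1717500, nat_lit 0, nat_lit 2118750, [nat_lit 490000, nat_lit 1100000, nat_lit 1442500], [nat_lit 6, nat_lit 40, nat_lit 40, nat_lit 80, nat_lit 3, nat_lit 373, nat_lit 150, nat_lit 15]⟩, ⟨p080_k1, nat_lit 0, nat_lit 0, nat_lit 860, nat_lit 0, nat_lit 1049774, [nat_lit 0, nat_lit 0, nat_lit 0], [], [nat_lit 0, nat_lit 0, nat_lit 0, nat_lit 0, nat_lit 0, nat_lit 0, nat_lit 0, nat_lit 0], nat_lit 1271250, nat_lit 1271250, nat_lit 230001, nat_lit 1717500, nat_lit 0, nat_lit 2712000, [nat_lit 1412500, nat_lit 1271250, nat_lit 1271250], [nat_lit 46,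 nat_lit 40, nat_lit 40, nat_lit 80, nat_lit 41, nat_lit 456, nat_lit 225, nat_lit 12]⟩,
 ⟨nat_lit 3162, nat_lit 4473, ⟨.ofNat (nat_lit 227776), .ofNat (nat_lit 567977), .ofNat (nat_lit 270729), .ofNat (nat_lit 611007), .ofNat (nat_lit 255876), .ofNat (nat_lit 560952), .ofNat (nat_lit 300005), .ofNat (nat_lit 605159)⟩, ⟨.ofNat (nat_lit 0), .ofNat (nat_lit 540545), .ofNat (nat_lit 0), .ofNat (nat_lit 583678), .ofNat (nat_lit 0), .ofNat (nat_lit 519453), .ofNat (nat_lit 0), .ofNat (nat_lit 563762)⟩⟩, [⟨nat_lit 4, nat_lit 100, nat_lit 74, nat_lit 90, nat_lit 113791907⟩]⟩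
noncomputable def p080_l20 : Lf2 := ⟨nat_lit 0, nat_lit 10, [nat_lit 0, nat_lit 5, nat_lit 5, nat_lit 20], false, nat_lit 0, nat_lit 300, nat_lit 0, nat_lit 384, ⟨nat_lit 0, nat_lit 1000, nat_lit 0, nat_lit 6, nat_lit 260, nat_lit 1000, nat_lit 110, nat_lit 0, nat_lit 0, nat_lit 0, nat_lit 0, nat_lit 0, nat_lit 0, nat_lit 0, nat_lit 0, nat_lit 5000000, true, true⟩,
 nat_lit 0, nat_lit 4911, nat_lit 0, nat_lit 0, nat_lit 3682, nat_lit 0, nat_lit 0, nat_lit 0, nat_lit 0, nat_lit 0, nat_lit 0, nat_lit 0, nat_lit 0, nat_lit 0, nat_lit 0, nat_lit 605200, nat_lit 0, nat_lit 0, [(nat_lit 18, [(nat_lit 1, nat_lit 658), (nat_lit 2, nat_lit 342)]), (nat_lit 21, [(nat_lit 1, nat_lit 658), (nat_lit 2, nat_lit 342)])],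
 ⟨p080_k11, nat_lit 0, nat_lit 0, nat_lit 329, nat_lit 0, nat_lit 509219, [nat_lit 1502010134, nat_lit 1651570667, nat_lit 1138632000], [], [nat_lit 24102941519, nat_lit 25779779695, nat_lit 26569321831, nat_lit 28596489800, nat_lit 26542056977, nat_lit 27820046691, nat_lit 28396465433, nat_lit 29500474245], nat_lit 1271250, nat_lit 1271250, nat_lit 1271250, nat_lit 1271250, nat_lit 0, nat_lit 2118750, [nat_lit 490000, nat_lit 1100000, nat_lit 1442500], [nat_lit 6, nat_lit 40, nat_lit 40, nat_lit 80, nat_lit 3, nat_lit 289, nat_lit 75, nat_lit 10]⟩, ⟨p080_k1, nat_lit 0, nat_lit 0, nat_lit 750, nat_lit 0, nat_lit 1049774, [nat_lit 0, nat_lit 0, nat_lit 0], [], [nat_lit 0, nat_lit 0, nat_lit 0, nat_lit 0, nat_lit 0, nat_lit 0, nat_lit 0, nat_lit 0], nat_lit 1271250, nat_lit 1271250, nat_lit 1271250, nat_lit 1271250, nat_lit 0, nat_lit 2712000, [nat_lit 1412500, nat_lit 1271250, nat_lit 1271250], [nat_lit 46,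 nat_lit 40, nat_lit 40, nat_lit 80, nat_lit 41, nat_lit 483, nat_lit 250, nat_lit 12]⟩,
 ⟨nat_lit 3162, nat_lit 4473, ⟨.ofNat (nat_lit 567977), .ofNat (nat_lit 703933), .ofNat (nat_lit 611007), .ofNat (nat_lit 747055), .ofNat (nat_lit 560952), .ofNat (nat_lit 682859), .ofNat (nat_lit 605159), .ofNat (nat_lit 727157)⟩, ⟨.ofNat (nat_lit 0), .ofNat (nat_lit 540545), .ofNat (nat_lit 0), .ofNat (nat_lit 583678), .ofNat (nat_lit 0), .ofNat (nat_lit 519453), .ofNat (nat_lit 0), .ofNat (nat_lit 563762)⟩⟩, [⟨nat_lit 16, nat_lit 74, nat_lit 100, nat_lit 90, nat_lit 111811080⟩]⟩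
noncomputable def p080_l21 : Lf2 := ⟨nat_lit 0, nat_lit 10, [nat_lit 0, nat_lit 5, nat_lit 5, nat_lit 20], false, nat_lit 0, nat_lit 300, nat_lit 0, nat_lit 384, ⟨nat_lit 0, nat_lit 1000, nat_lit 0, nat_lit 8, nat_lit 307, nat_lit 1000, nat_lit 110, nat_lit 0, nat_lit 0, nat_lit 0, nat_lit 0, nat_lit 0, nat_lit 0, nat_lit 0, nat_lit 0, nat_lit 5000000, true, true⟩,
 nat_lit 0, nat_lit 4685, nat_lit 0, nat_lit 0, nat_lit 3513, nat_lit 0, nat_lit 0, nat_lit 0, nat_lit 0, nat_lit 0, nat_lit 0, nat_lit 0, nat_lit 0, nat_lit 0, nat_lit 0, nat_lit 656800, nat_lit 0, nat_lit 0, [(nat_lit 18, [(nat_lit 1, nat_lit 572), (nat_lit 2, nat_lit 428)]), (nat_lit 21, [(nat_lit 1, nat_lit 572), (nat_lit 2, nat_lit 428)])],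
 ⟨p080_k11, nat_lit 0, nat_lit 0, nat_lit 342, nat_lit 0, nat_lit 509219, [nat_lit 1528131201, nat_lit 1572336001, nat_lit 931888000], [], [nat_lit 27239233409, nat_lit 28684326185, nat_lit 29938437977, nat_lit 32184836653, nat_lit 29231791100, nat_lit 30359549440, nat_lit 31092786754, nat_lit 32077738085], nat_lit 1271250, nat_lit 1271250, nat_lit 1271250, nat_lit 1271250, nat_lit 0, nat_lit 2118750, [nat_lit 490000, nat_lit 1100000, nat_lit 1442500], [nat_lit 6, nat_lit 40, nat_lit 40, nat_lit 80, nat_lit 3, nat_lit 289, nat_lit 75, nat_lit 10]⟩, ⟨p080_k1, nat_lit 0, nat_lit 0, nat_lit 735, nat_lit 0, nat_lit 1049774, [nat_lit 0, nat_lit 0, nat_lit 0], [], [nat_lit 0, nat_lit 0, nat_lit 0, nat_lit 0, nat_lit 0, nat_lit 0, nat_lit 0, nat_lit 0], nat_lit 1271250, nat_lit 1271250, nat_lit 1271250, nat_lit 1271250, nat_lit 0, nat_lit 2712000, [nat_lit 1412500, nat_lit 1271250, nat_lit 1271250], [nat_lit 46,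 nat_lit 40, nat_lit 40, nat_lit 80, nat_lit 41, nat_lit 401, nat_lit 175, nat_lit 10]⟩,
 ⟨nat_lit 3162, nat_lit 4473, ⟨.ofNat (nat_lit 703933), .ofNat (nat_lit 812698), .ofNat (nat_lit 747055), .ofNat (nat_lit 855831), .ofNat (nat_lit 682859), .ofNat (nat_lit 780384), .ofNat (nat_lit 727157), .ofNat (nat_lit 824694)⟩, ⟨.ofNat (nat_lit 0), .ofNat (nat_lit 540545), .ofNat (nat_lit 0), .ofNat (nat_lit 583678), .ofNat (nat_lit 0), .ofNat (nat_lit 519453), .ofNat (nat_lit 0), .ofNat (nat_lit 563762)⟩⟩, [⟨nat_lit 13, nat_lit 72, nat_lit 63, nat_lit 100, nat_lit 348452931⟩, ⟨nat_lit 4, nat_lit 100, nat_lit 74, nat_lit 90, nat_lit 86504253⟩]⟩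
noncomputable def b_V_800_500_20_12 : St := ⟨true, nat_lit 1, nat_lit 2, nat_lit 2, nat_lit 120, nat_lit 320, nat_lit 360, nat_lit 200, nat_lit 240, nat_lit 40, nat_lit 384, nat_lit 80, nat_lit 120, nat_lit 0, nat_lit 300, nat_lit 0, nat_lit 384, nat_lit 0, nat_lit 40, nat_lit 0, nat_lit 0, nat_lit 0, nat_lit 0⟩
theorem d_V_800_500_20_12 (h : EB TB.env) : Dead b_V_800_500_20_12 := chkB_sound0 h (T :=
(.st (nat_lit 1)
(.spl (nat_lit 2) (nat_lit 240)
(.spl (nat_lit 0) (nat_lit 340)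
(.spl (nat_lit 0) (nat_lit 330)
(.leaf p080_l11)
(.trZ (nat_lit 0) (nat_lit 100) (nat_lit 76) (nat_lit 65) (nat_lit 48) (.trX (nat_lit 16) (nat_lit 83) (nat_lit 98) (nat_lit 100) (nat_lit 288) (.leaf p080_l12))))
(.trZ (nat_lit 0) (nat_lit 100) (nat_lit 71) (nat_lit 70) (nat_lit 56) (.trX (nat_lit 16) (nat_lit 77) (nat_lit 100) (nat_lit 99) (nat_lit 276) (.leaf p080_l13))))
(.spl (nat_lit 0) (nat_lit 340)
(.spl (nat_lit 5) (nat_lit 160)
(.leaf p080_l14)
(.spl (nat_lit 0) (nat_lit 330)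
(.leaf p080_l15)
(.trX (nat_lit 13) (nat_lit 78) (nat_lit 49) (nat_lit 100) (nat_lit 376) (.trX (nat_lit 16) (nat_lit 83) (nat_lit 98) (nat_lit 100) (nat_lit 288) (.leaf p080_l16)))))
(.trX (nat_lit 13) (nat_lit 73) (nat_lit 55) (nat_lit 100) (nat_lit 368) (.trX (nat_lit 16) (nat_lit 77) (nat_lit 100) (nat_lit 99) (nat_lit 276) (.spl (nat_lit 0) (nat_lit 350)
(.leaf p080_l17)
(.trX (nat_lit 13) (nat_lit 68) (nat_lit 61) (nat_lit 100) (nat_lit 360) (.trZ (nat_lit 3) (nat_lit 100) (nat_lit 83) (nat_lit 25) (nat_lit 4) (.trX (nat_lit 16) (nat_lit 69) (nat_lit 100) (nat_lit 96) (nat_lit 264) (.leaf p080_l18)))))))))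
(.spl (nat_lit 2) (nat_lit 240)
(.leaf p080_l19)
(.spl (nat_lit 2) (nat_lit 320)
(.leaf p080_l20)
(.leaf p080_l21))))) (by decide +kernel)
noncomputable def p080_l22 : Lf2 := ⟨nat_lit 0, nat_lit 20, [nat_lit 5, nat_lit 5, nat_lit 5, nat_lit 20], false, nat_lit 0, nat_lit 160, nat_lit 0, nat_lit 384, ⟨nat_lit 34, nat_lit 0, nat_lit 966, nat_lit 5, nat_lit 169, nat_lit 464, nat_lit 65, nat_lit 966, nat_lit 40017, nat_lit 264, nat_lit 817, nat_lit 208, nat_lit 56860881, nat_lit 0, nat_lit 0, nat_lit 2125045, false, false⟩,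
 nat_lit 0, nat_lit 0, nat_lit 0, nat_lit 10221, nat_lit 3087, nat_lit 642, nat_lit 0, nat_lit 0, nat_lit 0, nat_lit 0, nat_lit 0, nat_lit 0, nat_lit 0, nat_lit 0, nat_lit 113, nat_lit 386400, nat_lit 0, nat_lit 0, [(nat_lit 19, [(nat_lit 5, nat_lit 966)])],
 ⟨p080_k14, nat_lit 0, nat_lit 0, nat_lit 286, nat_lit 0, nat_lit 0, [nat_lit 2349444800, nat_lit 268324000], [], [nat_lit 17969734284, nat_lit 19244778990, nat_lit 20707835596, nat_lit 21686344576, nat_lit 17870265280, nat_lit 18957921698, nat_lit 20516507180, nat_lit 21651842540], nat_lit 0, nat_lit 0, nat_lit 0, nat_lit 0, nat_lit 0, nat_lit 0, [], [nat_lit 94, nat_lit 40, nat_lit 40, nat_lit 80, nat_lit 95, nat_lit 317, nat_lit 100, nat_lit 9]⟩, ⟨p080_k15, nat_lit 0, nat_lit 0, nat_lit 401, nat_lit 0, nat_lit 0, [nat_lit 212500000, nat_lit 477972000], [], [nat_lit 2155122560, nat_lit 2166627000, nat_lit 1703272824, nat_lit 1694171656, nat_lit 1805662047,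 nat_lit 1805896576, nat_lit 1317106799, nat_lit 1299687448], nat_lit 0, nat_lit 0, nat_lit 0, nat_lit 0, nat_lit 0, nat_lit 0, [], [nat_lit 149, nat_lit 40, nat_lit 40, nat_lit 80, nat_lit 68, nat_lit 456, nat_lit 225, nat_lit 11]⟩,
 ⟨nat_lit 3872, nat_lit 4473, ⟨.ofNat (nat_lit 228056), .ofNat (nat_lit 567977), .ofNat (nat_lit 271153), .ofNat (nat_lit 611083), .ofNat (nat_lit 241882), .ofNat (nat_lit 564520), .ofNat (nat_lit 285433), .ofNat (nat_lit 608080)⟩, ⟨.ofNat (nat_lit 0), .ofNat (nat_lit 302621), .ofNat (nat_lit 0), .ofNat (nat_lit 345754), .ofNat (nat_lit 0), .ofNat (nat_lit 304717), .ofNat (nat_lit 0), .ofNat (nat_lit 348304)⟩⟩, [⟨nat_lit 10, nat_lit 41, nat_lit 100, nat_lit 80, nat_lit 2125751⟩]⟩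
noncomputable def p080_l23 : Lf2 := ⟨nat_lit 0, nat_lit 20, [nat_lit 5, nat_lit 5, nat_lit 5, nat_lit 20], false, nat_lit 0, nat_lit 160, nat_lit 0, nat_lit 384, ⟨nat_lit 62, nat_lit 53, nat_lit 885, nat_lit 5, nat_lit 176, nat_lit 938, nat_lit 65, nat_lit 885, nat_lit 40017, nat_lit 264, nat_lit 600, nat_lit 209, nat_lit 56118806, nat_lit 10881194, nat_lit 0, nat_lit 2218188, false, false⟩,
 nat_lit 0, nat_lit 0, nat_lit 0, nat_lit 5273, nat_lit 2966, nat_lit 1164, nat_lit 0, nat_lit 0, nat_lit 0, nat_lit 0, nat_lit 0, nat_lit 0, nat_lit 0, nat_lit 0, nat_lit 57, nat_lit 234500, nat_lit 0, nat_lit 0, [(nat_lit 22, [(nat_lit 0, nat_lit 53), (nat_lit 4, nat_lit 885)])],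
 ⟨p080_k16, nat_lit 0, nat_lit 0, nat_lit 222, nat_lit 0, nat_lit 0, [nat_lit 1984800001, nat_lit 6027200], [], [nat_lit 19329896333, nat_lit 20404632352, nat_lit 22125875102, nat_lit 23173893147, nat_lit 19263532282, nat_lit 20404677438, nat_lit 22131660523, nat_lit 23247723003], nat_lit 0, nat_lit 0, nat_lit 0, nat_lit 0, nat_lit 0, nat_lit 0, [], [nat_lit 110, nat_lit 40, nat_lit 40, nat_lit 80, nat_lit 109, nat_lit 317, nat_lit 100, nat_lit 10]⟩, ⟨p080_k15, nat_lit 0, nat_lit 0, nat_lit 391, nat_lit 0, nat_lit 0, [nat_lit 387500000, nat_lit 871596000], [], [nat_lit 3781024636, nat_lit 3801910592, nat_lit 3108438672, nat_lit 3092238152, nat_lit 3139003210, nat_lit 3139776476, nat_lit 2403525319, nat_lit 2372236535], nat_lit 0, nat_lit 0, nat_lit 0, nat_lit 0, nat_lit 0, nat_lit 0, [], [nat_lit 149, nat_lit 40, nat_lit 40, nat_lit 80, nat_lit 68, nat_lit 456, nat_lit 225, nat_lit 11]⟩,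
 ⟨nat_lit 3162, nat_lit 3873, ⟨.ofNat (nat_lit 267606), .ofNat (nat_lit 564520), .ofNat (nat_lit 311135), .ofNat (nat_lit 608082), .ofNat (nat_lit 280451), .ofNat (nat_lit 560952), .ofNat (nat_lit 324704), .ofNat (nat_lit 605237)⟩, ⟨.ofNat (nat_lit 0), .ofNat (nat_lit 304717), .ofNat (nat_lit 0), .ofNat (nat_lit 348304), .ofNat (nat_lit 0), .ofNat (nat_lit 306116), .ofNat (nat_lit 0), .ofNat (nat_lit 350426)⟩⟩, [⟨nat_lit 3, nat_lit 100, nat_lit 65, nat_lit 54, nat_lit 92078724⟩, ⟨nat_lit 10, nat_lit 41, nat_lit 100, nat_lit 81, nat_lit 3804633⟩]⟩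
noncomputable def p080_l24 : Lf2 := ⟨nat_lit 0, nat_lit 20, [nat_lit 5, nat_lit 5, nat_lit 5, nat_lit 20], true, nat_lit 160, nat_lit 300, nat_lit 0, nat_lit 384, ⟨nat_lit 0, nat_lit 0, nat_lit 1000, nat_lit 5, nat_lit 144, nat_lit 1000, nat_lit 176, nat_lit 1000, nat_lit 1169, nat_lit 218, nat_lit 62098, nat_lit 276, nat_lit 48474325, nat_lit 0, nat_lit 0, nat_lit 4167904, false, false⟩,
 nat_lit 0, nat_lit 0, nat_lit 0, nat_lit 7597, nat_lit 3065, nat_lit 0, nat_lit 0, nat_lit 0, nat_lit 0, nat_lit 0, nat_lit 0, nat_lit 0, nat_lit 0, nat_lit 0, nat_lit 81, nat_lit 250000, nat_lit 0, nat_lit 0, [(nat_lit 19, [(nat_lit 4, nat_lit 1000)]), (nat_lit 22, [(nat_lit 4, nat_lit 1000)])],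
 ⟨p080_k14, nat_lit 0, nat_lit 0, nat_lit 156, nat_lit 0, nat_lit 0, [nat_lit 2166400000, nat_lit 172800000], [], [nat_lit 18221588580, nat_lit 20520017480, nat_lit 18934058380, nat_lit 20950757100, nat_lit 22586318625, nat_lit 24619269425, nat_lit 22813660360, nat_lit 24800491380], nat_lit 0, nat_lit 0, nat_lit 0, nat_lit 0, nat_lit 0, nat_lit 0, [], [nat_lit 94, nat_lit 40, nat_lit 40, nat_lit 80, nat_lit 95, nat_lit 345, nat_lit 125, nat_lit 9]⟩, C1.Rw.none,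
 ⟨nat_lit 3162, nat_lit 4473, ⟨.ofNat (nat_lit 227776), .ofNat (nat_lit 431944), .ofNat (nat_lit 270729), .ofNat (nat_lit 474896), .ofNat (nat_lit 255876), .ofNat (nat_lit 438969), .ofNat (nat_lit 300005), .ofNat (nat_lit 483097)⟩, ⟨.ofNat (nat_lit 302621), .ofNat (nat_lit 540545), .ofNat (nat_lit 345754), .ofNat (nat_lit 583678), .ofNat (nat_lit 306116), .ofNat (nat_lit 519453), .ofNat (nat_lit 350426), .ofNat (nat_lit 563762)⟩⟩, [⟨nat_lit 0, nat_lit 100, nat_lit 72, nat_lit 77, nat_lit 55802462⟩, ⟨nat_lit 4, nat_lit 100, nat_lit 74, nat_lit 90, nat_lit 255276719⟩]⟩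
noncomputable def p080_l25 : Lf2 := ⟨nat_lit 0, nat_lit 20, [nat_lit 5, nat_lit 5, nat_lit 5, nat_lit 20], true, nat_lit 160, nat_lit 300, nat_lit 0, nat_lit 384, ⟨nat_lit 0, nat_lit 1000, nat_lit 0, nat_lit 5, nat_lit 209, nat_lit 1000, nat_lit 176, nat_lit 0, nat_lit 0, nat_lit 0, nat_lit 0, nat_lit 0, nat_lit 43513051, nat_lit 13338413, nat_lit 10148536, nat_lit 4775791, false, false⟩,
 nat_lit 0, nat_lit 0, nat_lit 0, nat_lit 5256, nat_lit 3210, nat_lit 0, nat_lit 0, nat_lit 0, nat_lit 0, nat_lit 0, nat_lit 0, nat_lit 0, nat_lit 0, nat_lit 0, nat_lit 0, nat_lit 250000, nat_lit 0, nat_lit 0, [(nat_lit 19, [(nat_lit 0, nat_lit 1000)]), (nat_lit 22, [(nat_lit 0, nat_lit 1000)])],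
 ⟨p080_k14, nat_lit 0, nat_lit 0, nat_lit 39, nat_lit 0, nat_lit 0, [nat_lit 1642800000, nat_lit 3238355556], [], [nat_lit 16671537720, nat_lit 19677267000, nat_lit 19464714520, nat_lit 22070927720, nat_lit 22329204640, nat_lit 24616202240, nat_lit 24346917780, nat_lit 26353323660], nat_lit 0, nat_lit 0, nat_lit 0, nat_lit 0, nat_lit 0, nat_lit 0, [], [nat_lit 94, nat_lit 40, nat_lit 40, nat_lit 80, nat_lit 95, nat_lit 373, nat_lit 150, nat_lit 10]⟩, C1.Rw.none,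
 ⟨nat_lit 3162, nat_lit 4473, ⟨.ofNat (nat_lit 431944), .ofNat (nat_lit 567977), .ofNat (nat_lit 474896), .ofNat (nat_lit 611007), .ofNat (nat_lit 438969), .ofNat (nat_lit 560952), .ofNat (nat_lit 483097), .ofNat (nat_lit 605159)⟩, ⟨.ofNat (nat_lit 302621), .ofNat (nat_lit 540545), .ofNat (nat_lit 345754), .ofNat (nat_lit 583678), .ofNat (nat_lit 306116), .ofNat (nat_lit 519453), .ofNat (nat_lit 350426), .ofNat (nat_lit 563762)⟩⟩, [⟨nat_lit 4, nat_lit 100, nat_lit 74, nat_lit 90, nat_lit 228015169⟩]⟩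
noncomputable def p080_l26 : Lf2 := ⟨nat_lit 0, nat_lit 20, [nat_lit 5, nat_lit 5, nat_lit 5, nat_lit 20], false, nat_lit 0, nat_lit 300, nat_lit 0, nat_lit 160, ⟨nat_lit 1000, nat_lit 0, nat_lit 0, nat_lit 0, nat_lit 0, nat_lit 0, nat_lit 0, nat_lit 0, nat_lit 0, nat_lit 0, nat_lit 0, nat_lit 0, nat_lit 0, nat_lit 0, nat_lit 0, nat_lit 0, false, false⟩,
 nat_lit 0, nat_lit 0, nat_lit 0, nat_lit 5665, nat_lit 9461, nat_lit 8196, nat_lit 0, nat_lit 0, nat_lit 0, nat_lit 0, nat_lit 0, nat_lit 0, nat_lit 0, nat_lit 0, nat_lit 0, nat_lit 0, nat_lit 0, nat_lit 0, [],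
 ⟨p080_k14, nat_lit 0, nat_lit 0, nat_lit 223, nat_lit 0, nat_lit 0, [nat_lit 2032000001, nat_lit 9842000000], [], [nat_lit 40103753832, nat_lit 42629613816, nat_lit 46402956776, nat_lit 49416216445, nat_lit 34126712397, nat_lit 35607215345, nat_lit 37525975204, nat_lit 39280195281], nat_lit 0, nat_lit 0, nat_lit 0, nat_lit 0, nat_lit 0, nat_lit 0, [], [nat_lit 94, nat_lit 40, nat_lit 40, nat_lit 80, nat_lit 95, nat_lit 401, nat_lit 175, nat_lit 11]⟩, ⟨p080_k15, nat_lit 0, nat_lit 0, nat_lit 266, nat_lit 0, nat_lit 0, [nat_lit 6250000000, nat_lit 14058000000], [], [nat_lit 39600480672, nat_lit 40985790336, nat_lit 49526177044, nat_lit 50012937389, nat_lit 33743962720, nat_lit 34591717488, nat_lit 41247527268, nat_lit 41668300362], nat_lit 0, nat_lit 0, nat_lit 0, nat_lit 0, nat_lit 0, nat_lit 0, [], [nat_lit 149, nat_lit 40, nat_lit 40, nat_lit 80, nat_lit 68, nat_lit 428, nat_lit 200, nat_lit 10]⟩,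
 zbF0, [⟨nat_lit 9, nat_lit 100, nat_lit 86, nat_lit 35, nat_lit 42480166⟩]⟩
noncomputable def p080_l27 : Lf2 := ⟨nat_lit 0, nat_lit 20, [nat_lit 5, nat_lit 5, nat_lit 5, nat_lit 20], false, nat_lit 0, nat_lit 300, nat_lit 160, nat_lit 384, ⟨nat_lit 1000, nat_lit 0, nat_lit 0, nat_lit 0, nat_lit 0, nat_lit 0, nat_lit 0, nat_lit 0, nat_lit 0, nat_lit 0, nat_lit 0, nat_lit 0, nat_lit 0, nat_lit 0, nat_lit 0, nat_lit 0, false, false⟩,
 nat_lit 0, nat_lit 0, nat_lit 0, nat_lit 11545, nat_lit 7531, nat_lit 6461, nat_lit 475, nat_lit 0, nat_lit 0, nat_lit 0, nat_lit 0, nat_lit 0, nat_lit 0, nat_lit 0, nat_lit 0, nat_lit 0, nat_lit 0, nat_lit 0, [],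
 ⟨p080_k17, nat_lit 0, nat_lit 0, nat_lit 221, nat_lit 0, nat_lit 0, [nat_lit 2032000001, nat_lit 6250000000, nat_lit 9842000000], [], [nat_lit 30839495543, nat_lit 33520900707, nat_lit 40525922622, nat_lit 43824998725, nat_lit 28407405317, nat_lit 30055617120, nat_lit 34863101202, nat_lit 36941489603], nat_lit 0, nat_lit 0, nat_lit 0, nat_lit 0, nat_lit 0, nat_lit 0, [], [nat_lit 61, nat_lit 40, nat_lit 40, nat_lit 80, nat_lit 1, nat_lit 401, nat_lit 175, nat_lit 11]⟩, ⟨p080_k18, nat_lit 0, nat_lit 0, nat_lit 141, nat_lit 0, nat_lit 0, [nat_lit 6250000000, nat_lit 11872000000, nat_lit 14058000000], [], [nat_lit 15426437420, nat_lit 17535592180, nat_lit 27041811707, nat_lit 28157765969, nat_lit 28668496160, nat_lit 29555311075, nat_lit 35021624840, nat_lit 35478225458], nat_lit 0, nat_lit 0, nat_lit 0, nat_lit 0, nat_lit 0, nat_lit 0, [], [nat_lit 137, nat_lit 40, nat_lit 40, nat_lit 80, nat_lit 58, nat_lit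 538, nat_lit 300, nat_lit 12]⟩,
 zbF0, [⟨nat_lit 4, nat_lit 100, nat_lit 74, nat_lit 90, nat_lit 98918643⟩, ⟨nat_lit 19, nat_lit 100, nat_lit 40, nat_lit 92, nat_lit 454588880⟩]⟩
noncomputable def b_V_800_500_20_13 : St := ⟨true, nat_lit 0, nat_lit 0, nat_lit 1, nat_lit 120, nat_lit 320, nat_lit 360, nat_lit 200, nat_lit 240, nat_lit 40, nat_lit 384, nat_lit 80, nat_lit 120, nat_lit 0, nat_lit 300, nat_lit 0, nat_lit 384, nat_lit 40, nat_lit 80, nat_lit 0, nat_lit 0, nat_lit 0, nat_lit 0⟩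
theorem d_V_800_500_20_13 (h : EB TB.env) : Dead b_V_800_500_20_13 := chkB_sound0 h (T :=
(.spl (nat_lit 2) (nat_lit 240)
(.spl (nat_lit 4) (nat_lit 160)
(.spl (nat_lit 0) (nat_lit 340)
(.leaf p080_l22)
(.trZ (nat_lit 0) (nat_lit 100) (nat_lit 71) (nat_lit 70) (nat_lit 56) (.leaf p080_l23)))
(.spl (nat_lit 2) (nat_lit 160)
(.leaf p080_l24)
(.leaf p080_l25)))
(.spl (nat_lit 5) (nat_lit 160)
(.leaf p080_l26)
(.leaf p080_l27)))) (by decide +kernel)
noncomputable def p080_l28 : Lf2 := ⟨nat_lit 0, nat_lit 20, [nat_lit 5, nat_lit 5, nat_lit 5, nat_lit 20], true, nat_lit 0, nat_lit 80, nat_lit 0, nat_lit 384, ⟨nat_lit 0, nat_lit 36, nat_lit 964, nat_lit 5, nat_lit 169, nat_lit 1000, nat_lit 37, nat_lit 964, nat_lit 13067, nat_lit 243, nat_lit 817, nat_lit 208, nat_lit 56860881, nat_lit 10139119, nat_lit 0, nat_lit 2125045, false, false⟩,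
 nat_lit 0, nat_lit 0, nat_lit 0, nat_lit 8166, nat_lit 3003, nat_lit 0, nat_lit 0, nat_lit 0, nat_lit 0, nat_lit 0, nat_lit 0, nat_lit 0, nat_lit 0, nat_lit 0, nat_lit 120, nat_lit 394600, nat_lit 0, nat_lit 0, [(nat_lit 19, [(nat_lit 0, nat_lit 36), (nat_lit 5, nat_lit 964)])],
 ⟨p080_k14, nat_lit 0, nat_lit 0, nat_lit 286, nat_lit 0, nat_lit 0, [nat_lit 2392648000, nat_lit 247220800], [], [nat_lit 17668880164, nat_lit 18924390586, nat_lit 20564770524, nat_lit 21539467108, nat_lit 16777657460, nat_lit 17962089684, nat_lit 19717397196, nat_lit 20742978472], nat_lit 0, nat_lit 0, nat_lit 0, nat_lit 0, nat_lit 0, nat_lit 0, [], [nat_lit 94, nat_lit 40, nat_lit 40, nat_lit 80, nat_lit 95, nat_lit 317, nat_lit 100, nat_lit 9]⟩, C1.Rw.none,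
 ⟨nat_lit 3872, nat_lit 4473, ⟨.ofNat (nat_lit 228056), .ofNat (nat_lit 567977), .ofNat (nat_lit 271153), .ofNat (nat_lit 611083), .ofNat (nat_lit 241882), .ofNat (nat_lit 564520), .ofNat (nat_lit 285433), .ofNat (nat_lit 608080)⟩, ⟨.ofNat (nat_lit 0), .ofNat (nat_lit 166665), .ofNat (nat_lit 0), .ofNat (nat_lit 200000), .ofNat (nat_lit 0), .ofNat (nat_lit 175674), .ofNat (nat_lit 0), .ofNat (nat_lit 200000)⟩⟩, [⟨nat_lit 3, nat_lit 100, nat_lit 78, nat_lit 39, nat_lit 174263602⟩]⟩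
noncomputable def p080_l29 : Lf2 := ⟨nat_lit 0, nat_lit 20, [nat_lit 5, nat_lit 5, nat_lit 5, nat_lit 20], true, nat_lit 0, nat_lit 80, nat_lit 0, nat_lit 384, ⟨nat_lit 0, nat_lit 181, nat_lit 819, nat_lit 5, nat_lit 176, nat_lit 1000, nat_lit 38, nat_lit 819, nat_lit 13067, nat_lit 243, nat_lit 600, nat_lit 209, nat_lit 56118806, nat_lit 10881194, nat_lit 0, nat_lit 2218188, false, false⟩,
 nat_lit 0, nat_lit 0, nat_lit 0, nat_lit 5256, nat_lit 3004, nat_lit 0, nat_lit 0, nat_lit 0, nat_lit 0, nat_lit 0, nat_lit 0, nat_lit 0, nat_lit 0, nat_lit 0, nat_lit 57, nat_lit 250000, nat_lit 0, nat_lit 0, [(nat_lit 22, [(nat_lit 0, nat_lit 181), (nat_lit 4, nat_lit 819)])],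
 ⟨p080_k16, nat_lit 0, nat_lit 0, nat_lit 222, nat_lit 0, nat_lit 0, [nat_lit 1961100801, nat_lit 9517715], [], [nat_lit 19275183604, nat_lit 20505631488, nat_lit 22037455917, nat_lit 23092417232, nat_lit 18399365635, nat_lit 19407737579, nat_lit 21200867133, nat_lit 22197889891], nat_lit 0, nat_lit 0, nat_lit 0, nat_lit 0, nat_lit 0, nat_lit 0, [], [nat_lit 110, nat_lit 40, nat_lit 40, nat_lit 80, nat_lit 109, nat_lit 317, nat_lit 100, nat_lit 10]⟩, C1.Rw.none,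
 ⟨nat_lit 3162, nat_lit 3873, ⟨.ofNat (nat_lit 267606), .ofNat (nat_lit 564520), .ofNat (nat_lit 311135), .ofNat (nat_lit 608082), .ofNat (nat_lit 280451), .ofNat (nat_lit 560952), .ofNat (nat_lit 324704), .ofNat (nat_lit 605237)⟩, ⟨.ofNat (nat_lit 0), .ofNat (nat_lit 175674), .ofNat (nat_lit 0), .ofNat (nat_lit 200000), .ofNat (nat_lit 0), .ofNat (nat_lit 184209), .ofNat (nat_lit 0), .ofNat (nat_lit 200000)⟩⟩, [⟨nat_lit 3, nat_lit 100, nat_lit 65, nat_lit 54, nat_lit 235821633⟩]⟩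
noncomputable def p080_l30 : Lf2 := ⟨nat_lit 0, nat_lit 20, [nat_lit 5, nat_lit 5, nat_lit 5, nat_lit 20], true, nat_lit 80, nat_lit 160, nat_lit 0, nat_lit 384, ⟨nat_lit 0, nat_lit 0, nat_lit 1000, nat_lit 5, nat_lit 170, nat_lit 1000, nat_lit 103, nat_lit 1000, nat_lit 98817, nat_lit 292, nat_lit 817, nat_lit 208, nat_lit 51925390, nat_lit 0, nat_lit 0, nat_lit 3579476, false, false⟩,
 nat_lit 0, nat_lit 0, nat_lit 0, nat_lit 5472, nat_lit 3453, nat_lit 0, nat_lit 0, nat_lit 0, nat_lit 0, nat_lit 0, nat_lit 0, nat_lit 0, nat_lit 0, nat_lit 0, nat_lit 87, nat_lit 267700, nat_lit 0, nat_lit 0, [(nat_lit 19, [(nat_lit 4, nat_lit 882), (nat_lit 5, nat_lit 118)]), (nat_lit 22, [(nat_lit 4, nat_lit 882), (nat_lit 5, nat_lit 118)])],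
 ⟨p080_k14, nat_lit 0, nat_lit 0, nat_lit 167, nat_lit 0, nat_lit 0, [nat_lit 2203355200, nat_lit 193441600], [], [nat_lit 16915670704, nat_lit 19748094692, nat_lit 19543309124, nat_lit 21590026364, nat_lit 17699137396, nat_lit 20194037528, nat_lit 20101029116, nat_lit 22097952580], nat_lit 0, nat_lit 0, nat_lit 0, nat_lit 0, nat_lit 0, nat_lit 0, [], [nat_lit 94, nat_lit 40, nat_lit 40, nat_lit 80, nat_lit 95, nat_lit 317, nat_lit 100, nat_lit 9]⟩, C1.Rw.none,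
 ⟨nat_lit 3162, nat_lit 4473, ⟨.ofNat (nat_lit 227776), .ofNat (nat_lit 567977), .ofNat (nat_lit 270729), .ofNat (nat_lit 611007), .ofNat (nat_lit 255876), .ofNat (nat_lit 560952), .ofNat (nat_lit 300005), .ofNat (nat_lit 605159)⟩, ⟨.ofNat (nat_lit 166665), .ofNat (nat_lit 302621), .ofNat (nat_lit 200000), .ofNat (nat_lit 345754), .ofNat (nat_lit 184209), .ofNat (nat_lit 306116), .ofNat (nat_lit 200000), .ofNat (nat_lit 350426)⟩⟩, []⟩
noncomputable def p080_l31 : Lf2 := ⟨nat_lit 0, nat_lit 15, [nat_lit 30, nat_lit 5, nat_lit 5, nat_lit 20], false, nat_lit 0, nat_lit 80, nat_lit 0, nat_lit 336, ⟨nat_lit 1000, nat_lit 0, nat_lit 0, nat_lit 0, nat_lit 0, nat_lit 0, nat_lit 0, nat_lit 0, nat_lit 0, nat_lit 0, nat_lit 0, nat_lit 0, nat_lit 0, nat_lit 0, nat_lit 0, nat_lit 0, false, false⟩,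
 nat_lit 0, nat_lit 0, nat_lit 29391, nat_lit 0, nat_lit 6454, nat_lit 12596, nat_lit 340, nat_lit 0, nat_lit 0, nat_lit 483, nat_lit 0, nat_lit 0, nat_lit 0, nat_lit 0, nat_lit 0, nat_lit 0, nat_lit 0, nat_lit 0, [],
 ⟨p080_k19, nat_lit 0, nat_lit 0, nat_lit 195, nat_lit 0, nat_lit 0, [nat_lit 2032000001, nat_lit 6250000000, nat_lit 7968000000], [], [nat_lit 30735333708, nat_lit 31412018214, nat_lit 37990575668, nat_lit 38444431654, nat_lit 27302647044, nat_lit 27938575610, nat_lit 34159089947, nat_lit 34599491823], nat_lit 0, nat_lit 0, nat_lit 0, nat_lit 0, nat_lit 0, nat_lit 0, [], [nat_lit 102, nat_lit 40, nat_lit 40, nat_lit 80, nat_lit 2, nat_lit 226, nat_lit 20, nat_lit 7]⟩, ⟨p080_k20, nat_lit 0, nat_lit 0, nat_lit 380, nat_lit 0, nat_lit 98579, [nat_lit 6250000000, nat_lit 11872000000, nat_lit 14058000000], [], [nat_lit 43544991792, nat_lit 43919783472, nat_lit 51054373524, nat_lit 51307905709, nat_lit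 34017482503, nat_lit 33799565479, nat_lit 39035902662, nat_lit 39222895561], nat_lit 1271250, nat_lit 1271250, nat_lit 1271250, nat_lit 1271250, nat_lit 0, nat_lit 2373000, [nat_lit 1412500, nat_lit 1271250, nat_lit 1271250], [nat_lit 137, nat_lit 40, nat_lit 40, nat_lit 80, nat_lit 58, nat_lit 483, nat_lit 250, nat_lit 11]⟩,
 zbF0, [⟨nat_lit 22, nat_lit 84, nat_lit 100, nat_lit 43, nat_lit 107289174⟩]⟩
noncomputable def p080_l32 : Lf2 := ⟨nat_lit 0, nat_lit 15, [nat_lit 30, nat_lit 5, nat_lit 5, nat_lit 20], false, nat_lit 0, nat_lit 80, nat_lit 0, nat_lit 336, ⟨nat_lit 701, nat_lit 299, nat_lit 0, nat_lit 6, nat_lit 279, nat_lit 299, nat_lit 37, nat_lit 0, nat_lit 0, nat_lit 0, nat_lit 0, nat_lit 0, nat_lit 45039300, nat_lit 21960700, nat_lit 0, nat_lit 3162945, true, true⟩,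
 nat_lit 0, nat_lit 0, nat_lit 15966, nat_lit 0, nat_lit 4734, nat_lit 6842, nat_lit 695, nat_lit 0, nat_lit 0, nat_lit 634, nat_lit 0, nat_lit 0, nat_lit 0, nat_lit 0, nat_lit 0, nat_lit 74750, nat_lit 0, nat_lit 0, [(nat_lit 19, [(nat_lit 0, nat_lit 299)])],
 ⟨p080_k21, nat_lit 0, nat_lit 0, nat_lit 185, nat_lit 0, nat_lit 0, [nat_lit 1885609601, nat_lit 3941217600, nat_lit 6453146400], [], [nat_lit 24398700793, nat_lit 25014140257, nat_lit 33135068602, nat_lit 33795705281, nat_lit 22177369721, nat_lit 22757150337, nat_lit 29210972460, nat_lit 29847697234], nat_lit 0, nat_lit 0, nat_lit 0, nat_lit 0, nat_lit 0, nat_lit 0, [], [nat_lit 34, nat_lit 40, nat_lit 40, nat_lit 80, nat_lit 7, nat_lit 226, nat_lit 20, nat_lit 7]⟩, ⟨p080_k22, nat_lit 0, nat_lit 0, nat_lit 472, nat_lit 0, nat_lit 360701, [nat_lit 4381250000, nat_lit 6899242000, nat_lit 9854658000], [], [nat_lit 26568325964, nat_lit 27055711340, nat_lit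 31005751238, nat_lit 31042115286, nat_lit 24856829910, nat_lit 23077550087, nat_lit 25764941688, nat_lit 25637902745], nat_lit 1271250, nat_lit 1271250, nat_lit 1271250, nat_lit 1271250, nat_lit 0, nat_lit 2373000, [nat_lit 1412500, nat_lit 1271250, nat_lit 1271250], [nat_lit 60, nat_lit 40, nat_lit 40, nat_lit 80, nat_lit 32, nat_lit 483, nat_lit 250, nat_lit 11]⟩,
 ⟨nat_lit 3872, nat_lit 4184, ⟨.ofNat (nat_lit 566254), .ofNat (nat_lit 791523), .ofNat (nat_lit 609582), .ofNat (nat_lit 834857), .ofNat (nat_lit 564520), .ofNat (nat_lit 783893), .ofNat (nat_lit 608101), .ofNat (nat_lit 827480)⟩, ⟨.ofNat (nat_lit 0), .ofNat (nat_lit 171231), .ofNat (nat_lit 0), .ofNat (nat_lit 200000), .ofNat (nat_lit 0), .ofNat (nat_lit 175674), .ofNat (nat_lit 0), .ofNat (nat_lit 200000)⟩⟩, [⟨nat_lit 22, nat_lit 84, nat_lit 100, nat_lit 60, nat_lit 103710035⟩]⟩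
noncomputable def p080_l33 : Lf2 := ⟨nat_lit 0, nat_lit 15, [nat_lit 30, nat_lit 5, nat_lit 5, nat_lit 20], false, nat_lit 80, nat_lit 160, nat_lit 0, nat_lit 384, ⟨nat_lit 1000, nat_lit 0, nat_lit 0, nat_lit 0, nat_lit 0, nat_lit 0, nat_lit 0, nat_lit 0, nat_lit 0, nat_lit 0, nat_lit 0, nat_lit 0, nat_lit 0, nat_lit 0, nat_lit 0, nat_lit 0, false, false⟩,
 nat_lit 0, nat_lit 0, nat_lit 23335, nat_lit 21992, nat_lit 8825, nat_lit 10000, nat_lit 0, nat_lit 0, nat_lit 0, nat_lit 657, nat_lit 0, nat_lit 0, nat_lit 0, nat_lit 0, nat_lit 0, nat_lit 0, nat_lit 0, nat_lit 0, [],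
 ⟨p080_k23, nat_lit 0, nat_lit 0, nat_lit 132, nat_lit 0, nat_lit 0, [nat_lit 2032000001, nat_lit 4688000000, nat_lit 7968000000], [], [nat_lit 24972220100, nat_lit 25966530400, nat_lit 35693643661, nat_lit 36570391016, nat_lit 24011281700, nat_lit 24893028900, nat_lit 33269217601, nat_lit 34055412320], nat_lit 0, nat_lit 0, nat_lit 0, nat_lit 0, nat_lit 0, nat_lit 0, [], [nat_lit 34, nat_lit 40, nat_lit 40, nat_lit 80, nat_lit 7, nat_lit 249, nat_lit 40, nat_lit 7]⟩, ⟨p080_k22, nat_lit 0, nat_lit 0, nat_lit 378, nat_lit 0, nat_lit 98579, [nat_lit 6250000000, nat_lit 9842000000, nat_lit 14058000000], [], [nat_lit 39636053750, nat_lit 40326101750, nat_lit 46739671351, nat_lit 47130808150, nat_lit 39428044000, nat_lit 36168056150, nat_lit 40493540631, nat_lit 40094841751], nat_lit 1271250, nat_lit 1271250, nat_lit 1271250, nat_lit 1271250, nat_lit 0, nat_lit 2712000, [nat_lit 1412500, nat_lit 1271250, nat_lit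 1271250], [nat_lit 60, nat_lit 40, nat_lit 40, nat_lit 80, nat_lit 32, nat_lit 538, nat_lit 300, nat_lit 12]⟩,
 zbF0, [⟨nat_lit 19, nat_lit 100, nat_lit 59, nat_lit 87, nat_lit 125830071⟩]⟩
noncomputable def p080_l34 : Lf2 := ⟨nat_lit 0, nat_lit 15, [nat_lit 30, nat_lit 5, nat_lit 5, nat_lit 20], false, nat_lit 80, nat_lit 160, nat_lit 0, nat_lit 384, ⟨nat_lit 219, nat_lit 781, nat_lit 0, nat_lit 6, nat_lit 279, nat_lit 781, nat_lit 103, nat_lit 0, nat_lit 0, nat_lit 0, nat_lit 0, nat_lit 0, nat_lit 41727324, nat_lit 20957230, nat_lit 4315446, nat_lit 4420878, true, true⟩,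
 nat_lit 0, nat_lit 0, nat_lit 4528, nat_lit 0, nat_lit 3775, nat_lit 1940, nat_lit 387, nat_lit 0, nat_lit 0, nat_lit 155, nat_lit 0, nat_lit 0, nat_lit 0, nat_lit 0, nat_lit 0, nat_lit 195250, nat_lit 0, nat_lit 0, [(nat_lit 19, [(nat_lit 0, nat_lit 781)])],
 ⟨p080_k21, nat_lit 0, nat_lit 0, nat_lit 132, nat_lit 0, nat_lit 0, [nat_lit 1649622401, nat_lit 2737374400, nat_lit 4011141600], [], [nat_lit 21584054676, nat_lit 22161071001, nat_lit 27783981391, nat_lit 28278955061, nat_lit 22139344351, nat_lit 22661561951, nat_lit 27706565515, nat_lit 28108910280], nat_lit 0, nat_lit 0, nat_lit 0, nat_lit 0, nat_lit 0, nat_lit 0, [], [nat_lit 34, nat_lit 40, nat_lit 40, nat_lit 80, nat_lit 7, nat_lit 249, nat_lit 40, nat_lit 7]⟩, ⟨p080_k22, nat_lit 0, nat_lit 0, nat_lit 472, nat_lit 0, nat_lit 360701, [nat_lit 1368750000, nat_lit 2155398000, nat_lit 3078702000], [], [nat_lit 8748569090, nat_lit 8905138602, nat_lit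 10075770951, nat_lit 10102506356, nat_lit 8721490836, nat_lit 8278666216, nat_lit 8788674822, nat_lit 8696274266], nat_lit 1271250, nat_lit 1271250, nat_lit 1271250, nat_lit 1271250, nat_lit 0, nat_lit 2712000, [nat_lit 1412500, nat_lit 1271250, nat_lit 1271250], [nat_lit 60, nat_lit 40, nat_lit 40, nat_lit 80, nat_lit 32, nat_lit 483, nat_lit 250, nat_lit 11]⟩,
 ⟨nat_lit 3872, nat_lit 4184, ⟨.ofNat (nat_lit 566254), .ofNat (nat_lit 791523), .ofNat (nat_lit 609582), .ofNat (nat_lit 834857), .ofNat (nat_lit 564520), .ofNat (nat_lit 783893), .ofNat (nat_lit 608101), .ofNat (nat_lit 827480)⟩, ⟨.ofNat (nat_lit 171231), .ofNat (nat_lit 303743), .ofNat (nat_lit 200000), .ofNat (nat_lit 347076), .ofNat (nat_lit 175674), .ofNat (nat_lit 304717), .ofNat (nat_lit 200000), .ofNat (nat_lit 348304)⟩⟩, [⟨nat_lit 13, nat_lit 74, nat_lit 60, nat_lit 100, nat_lit 14950474⟩, ⟨nat_lit 10, nat_lit 100, nat_lit 36, nat_lit 92,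 nat_lit 77448835⟩]⟩
noncomputable def p080_l35 : Lf2 := ⟨nat_lit 1, nat_lit 20, [nat_lit 5, nat_lit 5, nat_lit 5, nat_lit 20], false, nat_lit 0, nat_lit 160, nat_lit 0, nat_lit 384, zbN0,
 nat_lit 0, nat_lit 0, nat_lit 0, nat_lit 0, nat_lit 0, nat_lit 0, nat_lit 0, nat_lit 0, nat_lit 0, nat_lit 0, nat_lit 0, nat_lit 0, nat_lit 0, nat_lit 0, nat_lit 0, nat_lit 0, nat_lit 0, nat_lit 0, [],
 C1.Rw.none, C1.Rw.none,
 zbF0, []⟩
noncomputable def p080_l36 : Lf2 := ⟨nat_lit 0, nat_lit 15, [nat_lit 30, nat_lit 5, nat_lit 5, nat_lit 20], false, nat_lit 0, nat_lit 80, nat_lit 0, nat_lit 336, ⟨nat_lit 132, nat_lit 868, nat_lit 0, nat_lit 6, nat_lit 252, nat_lit 868, nat_lit 38, nat_lit 0, nat_lit 0, nat_lit 0, nat_lit 0, nat_lit 0, nat_lit 47921517, nat_lit 19078483, nat_lit 0, nat_lit 2986933, true, true⟩,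
 nat_lit 0, nat_lit 0, nat_lit 3297, nat_lit 0, nat_lit 3014, nat_lit 1412, nat_lit 0, nat_lit 0, nat_lit 0, nat_lit 122, nat_lit 0, nat_lit 0, nat_lit 0, nat_lit 0, nat_lit 14, nat_lit 641800, nat_lit 0, nat_lit 0, [(nat_lit 22, [(nat_lit 1, nat_lit 377), (nat_lit 2, nat_lit 491)])],
 ⟨p080_k24, nat_lit 0, nat_lit 0, nat_lit 174, nat_lit 0, nat_lit 0, [nat_lit 1577122134, nat_lit 1426226001, nat_lit 35588133], [], [nat_lit 23466236020, nat_lit 24419314692, nat_lit 26169744764, nat_lit 26999368600, nat_lit 22647580184, nat_lit 23547787820, nat_lit 25222414928, nat_lit 26048659320], nat_lit 0, nat_lit 0, nat_lit 0, nat_lit 0, nat_lit 0, nat_lit 0, [], [nat_lit 34, nat_lit 40, nat_lit 40, nat_lit 80, nat_lit 7, nat_lit 226, nat_lit 20, nat_lit 7]⟩, ⟨p080_k22, nat_lit 0, nat_lit 0, nat_lit 659, nat_lit 0, nat_lit 728795, [nat_lit 825000000, nat_lit 1299144000, nat_lit 1855656000], [], [nat_lit 5157563596, nat_lit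 5161531212, nat_lit 5384583964, nat_lit 5379935800, nat_lit 4603548778, nat_lit 4285484764, nat_lit 4371379156, nat_lit 4368023922], nat_lit 1271250, nat_lit 1271250, nat_lit 1271250, nat_lit 1271250, nat_lit 0, nat_lit 2373000, [nat_lit 1412500, nat_lit 1271250, nat_lit 1271250], [nat_lit 60, nat_lit 40, nat_lit 40, nat_lit 80, nat_lit 32, nat_lit 456, nat_lit 225, nat_lit 10]⟩,
 ⟨nat_lit 3162, nat_lit 3873, ⟨.ofNat (nat_lit 564520), .ofNat (nat_lit 693563), .ofNat (nat_lit 575417), .ofNat (nat_lit 704460), .ofNat (nat_lit 560952), .ofNat (nat_lit 682859), .ofNat (nat_lit 572029), .ofNat (nat_lit 693936)⟩, ⟨.ofNat (nat_lit 0), .ofNat (nat_lit 175674), .ofNat (nat_lit 0), .ofNat (nat_lit 200000), .ofNat (nat_lit 0), .ofNat (nat_lit 184209), .ofNat (nat_lit 0), .ofNat (nat_lit 200000)⟩⟩, [⟨nat_lit 10, nat_lit 100, nat_lit 70, nat_lit 61, nat_lit 6545269⟩, ⟨nat_lit 22, nat_lit 93, nat_lit 100, nat_lit 25, nat_lit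 30565036⟩]⟩
noncomputable def p080_l37 : Lf2 := ⟨nat_lit 0, nat_lit 15, [nat_lit 30, nat_lit 5, nat_lit 5, nat_lit 20], false, nat_lit 0, nat_lit 80, nat_lit 0, nat_lit 336, ⟨nat_lit 145, nat_lit 855, nat_lit 0, nat_lit 6, nat_lit 257, nat_lit 855, nat_lit 38, nat_lit 0, nat_lit 0, nat_lit 0, nat_lit 0, nat_lit 0, nat_lit 47446904, nat_lit 19553096, nat_lit 0, nat_lit 3018941, true, true⟩,
 nat_lit 0, nat_lit 0, nat_lit 3225, nat_lit 0, nat_lit 3029, nat_lit 1461, nat_lit 0, nat_lit 0, nat_lit 0, nat_lit 134, nat_lit 0, nat_lit 0, nat_lit 0, nat_lit 0, nat_lit 13, nat_lit 643800, nat_lit 0, nat_lit 0, [(nat_lit 22, [(nat_lit 1, nat_lit 352), (nat_lit 2, nat_lit 503)])],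
 ⟨p080_k24, nat_lit 0, nat_lit 0, nat_lit 174, nat_lit 0, nat_lit 0, [nat_lit 1578314134, nat_lit 1432232800, nat_lit 33257734], [], [nat_lit 23497103440, nat_lit 24451982832, nat_lit 26203765124, nat_lit 27035232100, nat_lit 22668438494, nat_lit 23570295740, nat_lit 25246126178, nat_lit 26075234758], nat_lit 0, nat_lit 0, nat_lit 0, nat_lit 0, nat_lit 0, nat_lit 0, [], [nat_lit 34, nat_lit 40, nat_lit 40, nat_lit 80, nat_lit 7, nat_lit 226, nat_lit 20, nat_lit 7]⟩, ⟨p080_k25, nat_lit 0, nat_lit 0, nat_lit 651, nat_lit 0, nat_lit 717257, [nat_lit 906250000, nat_lit 1427090000, nat_lit 2038410000], [], [nat_lit 5533925306, nat_lit 5539689338, nat_lit 5773950720, nat_lit 5770585442, nat_lit 4783955155, nat_lit 4628811847, nat_lit 4753431585, nat_lit 4749604387], nat_lit 1271250, nat_lit 1271250, nat_lit 1271250, nat_lit 1271250, nat_lit 0, nat_lit 2373000, [nat_lit 1412500, nat_lit 1271250, nat_lit 1271250],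 [nat_lit 60, nat_lit 40, nat_lit 40, nat_lit 80, nat_lit 32, nat_lit 456, nat_lit 225, nat_lit 10]⟩,
 ⟨nat_lit 3162, nat_lit 3873, ⟨.ofNat (nat_lit 575417), .ofNat (nat_lit 704460), .ofNat (nat_lit 586313), .ofNat (nat_lit 715356), .ofNat (nat_lit 572029), .ofNat (nat_lit 693936), .ofNat (nat_lit 583107), .ofNat (nat_lit 705013)⟩, ⟨.ofNat (nat_lit 0), .ofNat (nat_lit 175674), .ofNat (nat_lit 0), .ofNat (nat_lit 200000), .ofNat (nat_lit 0), .ofNat (nat_lit 184209), .ofNat (nat_lit 0), .ofNat (nat_lit 200000)⟩⟩, [⟨nat_lit 10, nat_lit 100, nat_lit 70, nat_lit 61, nat_lit 16647202⟩, ⟨nat_lit 22, nat_lit 93, nat_lit 100, nat_lit 25, nat_lit 22068535⟩]⟩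
noncomputable def p080_l38 : Lf2 := ⟨nat_lit 0, nat_lit 20, [nat_lit 5, nat_lit 5, nat_lit 5, nat_lit 20], false, nat_lit 0, nat_lit 80, nat_lit 0, nat_lit 336, ⟨nat_lit 312, nat_lit 128, nat_lit 560, nat_lit 6, nat_lit 255, nat_lit 688, nat_lit 38, nat_lit 560, nat_lit 13067, nat_lit 243, nat_lit 159462, nat_lit 200, nat_lit 47684056, nat_lit 19315944, nat_lit 0, nat_lit 3003101, true, true⟩,
 nat_lit 0, nat_lit 0, nat_lit 5708, nat_lit 0, nat_lit 2748, nat_lit 2446, nat_lit 0, nat_lit 0, nat_lit 0, nat_lit 289, nat_lit 0, nat_lit 0, nat_lit 0, nat_lit 0, nat_lit 30, nat_lit 430600, nat_lit 0, nat_lit 0, [(nat_lit 22, [(nat_lit 1, nat_lit 128), (nat_lit 5, nat_lit 301), (nat_lit 6, nat_lit 259)])],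
 ⟨p080_k26, nat_lit 0, nat_lit 0, nat_lit 174, nat_lit 0, nat_lit 0, [nat_lit 1537646400, nat_lit 1285942800, nat_lit 29999867], [], [nat_lit 22903039531, nat_lit 23824185435, nat_lit 25550636139, nat_lit 26363389200, nat_lit 22261878579, nat_lit 23132833131, nat_lit 24786121187, nat_lit 25560858688], nat_lit 0, nat_lit 0, nat_lit 0, nat_lit 0, nat_lit 0, nat_lit 0, [], [nat_lit 34, nat_lit 40, nat_lit 40, nat_lit 80, nat_lit 7, nat_lit 226, nat_lit 20, nat_lit 7]⟩, ⟨p080_k27, nat_lit 0, nat_lit 0, nat_lit 471, nat_lit 0, nat_lit 361483, [nat_lit 1950000000, nat_lit 3070704000, nat_lit 4386096000], [], [nat_lit 12502935732, nat_lit 12562834280, nat_lit 13157735612, nat_lit 13180267000, nat_lit 11498748271, nat_lit 11530863152, nat_lit 11929150087, nat_lit 11933763907], nat_lit 1271250, nat_lit 1271250, nat_lit 1271250, nat_lit 1271250, nat_lit 0, nat_lit 2373000, [nat_lit 1412500, nat_lit 1271250, nat_lit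 1271250], [nat_lit 60, nat_lit 40, nat_lit 40, nat_lit 80, nat_lit 32, nat_lit 456, nat_lit 225, nat_lit 10]⟩,
 ⟨nat_lit 3162, nat_lit 3873, ⟨.ofNat (nat_lit 564520), .ofNat (nat_lit 693563), .ofNat (nat_lit 586313), .ofNat (nat_lit 715356), .ofNat (nat_lit 560952), .ofNat (nat_lit 682859), .ofNat (nat_lit 583107), .ofNat (nat_lit 705013)⟩, ⟨.ofNat (nat_lit 0), .ofNat (nat_lit 175674), .ofNat (nat_lit 0), .ofNat (nat_lit 200000), .ofNat (nat_lit 0), .ofNat (nat_lit 184209), .ofNat (nat_lit 0), .ofNat (nat_lit 200000)⟩⟩, [⟨nat_lit 10, nat_lit 100, nat_lit 70, nat_lit 61, nat_lit 39694703⟩, ⟨nat_lit 22, nat_lit 94, nat_lit 100, nat_lit 62, nat_lit 40435103⟩]⟩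
noncomputable def p080_l39 : Lf2 := ⟨nat_lit 0, nat_lit 20, [nat_lit 5, nat_lit 5, nat_lit 5, nat_lit 20], false, nat_lit 0, nat_lit 80, nat_lit 0, nat_lit 160, ⟨nat_lit 327, nat_lit 673, nat_lit 0, nat_lit 6, nat_lit 263, nat_lit 673, nat_lit 38, nat_lit 0, nat_lit 0, nat_lit 0, nat_lit 0, nat_lit 0, nat_lit 46737846, nat_lit 20262154, nat_lit 0, nat_lit 3064504, true, true⟩,
 nat_lit 0, nat_lit 0, nat_lit 5731, nat_lit 0, nat_lit 3247, nat_lit 2740, nat_lit 0, nat_lit 0, nat_lit 0, nat_lit 768, nat_lit 0, nat_lit 0, nat_lit 0, nat_lit 0, nat_lit 0, nat_lit 670000, nat_lit 0, nat_lit 0, [(nat_lit 22, [(nat_lit 1, nat_lit 5), (nat_lit 2, nat_lit 668)])],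
 ⟨p080_k26, nat_lit 0, nat_lit 0, nat_lit 174, nat_lit 0, nat_lit 0, [nat_lit 1602893334, nat_lit 1537009200, nat_lit 40287734], [], [nat_lit 23937741464, nat_lit 24918791320, nat_lit 26690225876, nat_lit 27556448300, nat_lit 22963610786, nat_lit 23889442364, nat_lit 25582761198, nat_lit 26442341766], nat_lit 0, nat_lit 0, nat_lit 0, nat_lit 0, nat_lit 0, nat_lit 0, [], [nat_lit 34, nat_lit 40, nat_lit 40, nat_lit 80, nat_lit 7, nat_lit 226, nat_lit 20, nat_lit 7]⟩, ⟨p080_k28, nat_lit 0, nat_lit 0, nat_lit 673, nat_lit 0, nat_lit 780410, [nat_lit 2043750000, nat_lit 3218334000, nat_lit 4596966000], [], [nat_lit 10886958874, nat_lit 10886427716, nat_lit 11214098576, nat_lit 11215859876, nat_lit 9103082222, nat_lit 9088148916, nat_lit 9336864648, nat_lit 9318845940], nat_lit 1271250, nat_lit 1271250, nat_lit 1271250, nat_lit 1271250, nat_lit 0, nat_lit 1100001, [nat_lit 1412500, nat_lit 1271250, nat_lit 1271250],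 [nat_lit 60, nat_lit 40, nat_lit 40, nat_lit 80, nat_lit 32, nat_lit 428, nat_lit 200, nat_lit 10]⟩,
 ⟨nat_lit 3162, nat_lit 3873, ⟨.ofNat (nat_lit 586313), .ofNat (nat_lit 715356), .ofNat (nat_lit 608082), .ofNat (nat_lit 737150), .ofNat (nat_lit 583107), .ofNat (nat_lit 705013), .ofNat (nat_lit 605237), .ofNat (nat_lit 727168)⟩, ⟨.ofNat (nat_lit 0), .ofNat (nat_lit 175674), .ofNat (nat_lit 0), .ofNat (nat_lit 200000), .ofNat (nat_lit 0), .ofNat (nat_lit 184209), .ofNat (nat_lit 0), .ofNat (nat_lit 200000)⟩⟩, [⟨nat_lit 3, nat_lit 100, nat_lit 76, nat_lit 37, nat_lit 26966604⟩]⟩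
noncomputable def p080_l40 : Lf2 := ⟨nat_lit 0, nat_lit 20, [nat_lit 5, nat_lit 5, nat_lit 5, nat_lit 20], false, nat_lit 0, nat_lit 80, nat_lit 160, nat_lit 336, ⟨nat_lit 196, nat_lit 746, nat_lit 58, nat_lit 6, nat_lit 263, nat_lit 804, nat_lit 38, nat_lit 58, nat_lit 13067, nat_lit 243, nat_lit 203050, nat_lit 200, nat_lit 46737846, nat_lit 20262154, nat_lit 0, nat_lit 3064504, true, true⟩,
 nat_lit 0, nat_lit 0, nat_lit 4084, nat_lit 0, nat_lit 3250, nat_lit 1953, nat_lit 0, nat_lit 0, nat_lit 0, nat_lit 205, nat_lit 0, nat_lit 0, nat_lit 0, nat_lit 0, nat_lit 9, nat_lit 616800, nat_lit 0, nat_lit 0, [(nat_lit 22, [(nat_lit 1, nat_lit 312), (nat_lit 2, nat_lit 434), (nat_lit 6, nat_lit 58)])],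
 ⟨p080_k26, nat_lit 0, nat_lit 0, nat_lit 174, nat_lit 0, nat_lit 0, [nat_lit 1543272534, nat_lit 1408240801, nat_lit 38554933], [], [nat_lit 23311219268, nat_lit 24292629268, nat_lit 26242468000, nat_lit 27563621000, nat_lit 22335086768, nat_lit 23261248268, nat_lit 24954807768, nat_lit 25759858136], nat_lit 0, nat_lit 0, nat_lit 0, nat_lit 0, nat_lit 0, nat_lit 0, [], [nat_lit 34, nat_lit 40, nat_lit 40, nat_lit 80, nat_lit 7, nat_lit 226, nat_lit 20, nat_lit 7]⟩, ⟨p080_k28, nat_lit 0, nat_lit 0, nat_lit 568, nat_lit 0, nat_lit 780410, [nat_lit 1225000000, nat_lit 1929032000, nat_lit 2755368000], [], [nat_lit 5405028074, nat_lit 5438957732, nat_lit 5771843362, nat_lit 5780169596, nat_lit 5783932175, nat_lit 5771966649, nat_lit 6097081487, nat_lit 6104424182], nat_lit 1271250, nat_lit 1271250, nat_lit 1271250, nat_lit 1271250, nat_lit 1100001, nat_lit 2607000, [nat_lit 1412500, nat_lit 1271250, nat_lit 1271250],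 [nat_lit 60, nat_lit 40, nat_lit 40, nat_lit 80, nat_lit 32, nat_lit 456, nat_lit 225, nat_lit 10]⟩,
 ⟨nat_lit 3162, nat_lit 3873, ⟨.ofNat (nat_lit 586313), .ofNat (nat_lit 715356), .ofNat (nat_lit 608082), .ofNat (nat_lit 737150), .ofNat (nat_lit 583107), .ofNat (nat_lit 705013), .ofNat (nat_lit 605237), .ofNat (nat_lit 727168)⟩, ⟨.ofNat (nat_lit 0), .ofNat (nat_lit 175674), .ofNat (nat_lit 0), .ofNat (nat_lit 200000), .ofNat (nat_lit 0), .ofNat (nat_lit 184209), .ofNat (nat_lit 0), .ofNat (nat_lit 200000)⟩⟩, [⟨nat_lit 22, nat_lit 94, nat_lit 100, nat_lit 63, nat_lit 91355290⟩]⟩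
noncomputable def p080_l41 : Lf2 := ⟨nat_lit 0, nat_lit 15, [nat_lit 30, nat_lit 5, nat_lit 5, nat_lit 20], false, nat_lit 0, nat_lit 80, nat_lit 0, nat_lit 260, ⟨nat_lit 135, nat_lit 865, nat_lit 0, nat_lit 8, nat_lit 288, nat_lit 865, nat_lit 38, nat_lit 0, nat_lit 0, nat_lit 0, nat_lit 0, nat_lit 0, nat_lit 44175653, nat_lit 22824347, nat_lit 0, nat_lit 3207366, true, true⟩,
 nat_lit 0, nat_lit 0, nat_lit 3266, nat_lit 0, nat_lit 2854, nat_lit 1399, nat_lit 0, nat_lit 0, nat_lit 0, nat_lit 116, nat_lit 0, nat_lit 0, nat_lit 0, nat_lit 0, nat_lit 21, nat_lit 661000, nat_lit 0, nat_lit 0, [(nat_lit 22, [(nat_lit 1, nat_lit 340), (nat_lit 2, nat_lit 525)])],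
 ⟨p080_k24, nat_lit 0, nat_lit 0, nat_lit 182, nat_lit 0, nat_lit 0, [nat_lit 1636376001, nat_lit 1494572001, nat_lit 45610000], [], [nat_lit 26184033339, nat_lit 27085746555, nat_lit 27563403308, nat_lit 28401745346, nat_lit 25394614279, nat_lit 26248660227, nat_lit 26703063566, nat_lit 27499085284], nat_lit 0, nat_lit 0, nat_lit 0, nat_lit 0, nat_lit 0, nat_lit 0, [], [nat_lit 34, nat_lit 40, nat_lit 40, nat_lit 80, nat_lit 7, nat_lit 226, nat_lit 20, nat_lit 6]⟩, ⟨p080_k22, nat_lit 0, nat_lit 0, nat_lit 645, nat_lit 0, nat_lit 728795, [nat_lit 843750000, nat_lit 1328670000, nat_lit 1897830000], [], [nat_lit 5655916752, nat_lit 5651975910, nat_lit 5803480202, nat_lit 5796885423, nat_lit 4458523136, nat_lit 4453369587, nat_lit 4581349658, nat_lit 4572872528], nat_lit 1271250, nat_lit 1271250, nat_lit 1271250, nat_lit 1271250, nat_lit 0, nat_lit 1836250, [nat_lit 1412500, nat_lit 1271250, nat_lit 1271250],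 [nat_lit 60, nat_lit 40, nat_lit 40, nat_lit 80, nat_lit 32, nat_lit 456, nat_lit 225, nat_lit 10]⟩,
 ⟨nat_lit 3162, nat_lit 3873, ⟨.ofNat (nat_lit 693563), .ofNat (nat_lit 745180), .ofNat (nat_lit 704460), .ofNat (nat_lit 756077), .ofNat (nat_lit 682859), .ofNat (nat_lit 731621), .ofNat (nat_lit 693936), .ofNat (nat_lit 742699)⟩, ⟨.ofNat (nat_lit 0), .ofNat (nat_lit 175674), .ofNat (nat_lit 0), .ofNat (nat_lit 200000), .ofNat (nat_lit 0), .ofNat (nat_lit 184209), .ofNat (nat_lit 0), .ofNat (nat_lit 200000)⟩⟩, [⟨nat_lit 13, nat_lit 66, nat_lit 73, nat_lit 100, nat_lit 223246268⟩, ⟨nat_lit 3, nat_lit 100, nat_lit 76, nat_lit 37, nat_lit 33853165⟩]⟩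
noncomputable def p080_l42 : Lf2 := ⟨nat_lit 0, nat_lit 15, [nat_lit 30, nat_lit 5, nat_lit 5, nat_lit 20], false, nat_lit 0, nat_lit 80, nat_lit 0, nat_lit 260, ⟨nat_lit 149, nat_lit 851, nat_lit 0, nat_lit 8, nat_lit 294, nat_lit 851, nat_lit 38, nat_lit 0, nat_lit 0, nat_lit 0, nat_lit 0, nat_lit 0, nat_lit 43456143, nat_lit 23543857, nat_lit 0, nat_lit 3241546, true, true⟩,
 nat_lit 0, nat_lit 0, nat_lit 3209, nat_lit 0, nat_lit 2839, nat_lit 1454, nat_lit 0, nat_lit 0, nat_lit 0, nat_lit 131, nat_lit 0, nat_lit 0, nat_lit 0, nat_lit 0, nat_lit 19, nat_lit 661400, nat_lit 0, nat_lit 0, [(nat_lit 22, [(nat_lit 1, nat_lit 316), (nat_lit 2, nat_lit 535)])],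
 ⟨p080_k24, nat_lit 0, nat_lit 0, nat_lit 185, nat_lit 0, nat_lit 0, [nat_lit 1630169067, nat_lit 1490832800, nat_lit 36200667], [], [nat_lit 26268205743, nat_lit 27168243399, nat_lit 27989350853, nat_lit 28810458307, nat_lit 25489097533, nat_lit 26341605051, nat_lit 27121841361, nat_lit 27902077671], nat_lit 0, nat_lit 0, nat_lit 0, nat_lit 0, nat_lit 0, nat_lit 0, [], [nat_lit 34, nat_lit 40, nat_lit 40, nat_lit 80, nat_lit 7, nat_lit 226, nat_lit 20, nat_lit 6]⟩, ⟨p080_k25, nat_lit 0, nat_lit 0, nat_lit 638, nat_lit 0, nat_lit 717257, [nat_lit 931250000, nat_lit 1466458000, nat_lit 2094642000], [], [nat_lit 6086504779, nat_lit 6084032375, nat_lit 6286319708, nat_lit 6290413643, nat_lit 4884647278, nat_lit 4880824806, nat_lit 5046979345, nat_lit 5038798253], nat_lit 1271250, nat_lit 1271250, nat_lit 1271250, nat_lit 1271250, nat_lit 0, nat_lit 1836250, [nat_lit 1412500, nat_lit 1271250, nat_lit 1271250],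 [nat_lit 60, nat_lit 40, nat_lit 40, nat_lit 80, nat_lit 32, nat_lit 456, nat_lit 225, nat_lit 10]⟩,
 ⟨nat_lit 3162, nat_lit 3873, ⟨.ofNat (nat_lit 704460), .ofNat (nat_lit 768981), .ofNat (nat_lit 715356), .ofNat (nat_lit 779878), .ofNat (nat_lit 693936), .ofNat (nat_lit 754889), .ofNat (nat_lit 705013), .ofNat (nat_lit 765967)⟩, ⟨.ofNat (nat_lit 0), .ofNat (nat_lit 175674), .ofNat (nat_lit 0), .ofNat (nat_lit 200000), .ofNat (nat_lit 0), .ofNat (nat_lit 184209), .ofNat (nat_lit 0), .ofNat (nat_lit 200000)⟩⟩, [⟨nat_lit 13, nat_lit 66, nat_lit 70, nat_lit 100, nat_lit 215079639⟩, ⟨nat_lit 3, nat_lit 100, nat_lit 76, nat_lit 37, nat_lit 23654641⟩, ⟨nat_lit 22, nat_lit 76, nat_lit 100, nat_lit 43, nat_lit 7246796⟩]⟩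
noncomputable def p080_l43 : Lf2 := ⟨nat_lit 0, nat_lit 20, [nat_lit 5, nat_lit 5, nat_lit 5, nat_lit 20], false, nat_lit 0, nat_lit 80, nat_lit 0, nat_lit 260, ⟨nat_lit 1000, nat_lit 0, nat_lit 0, nat_lit 0, nat_lit 0, nat_lit 0, nat_lit 0, nat_lit 0, nat_lit 0, nat_lit 0, nat_lit 0, nat_lit 0, nat_lit 0, nat_lit 0, nat_lit 0, nat_lit 0, false, false⟩,
 nat_lit 0, nat_lit 0, nat_lit 22453, nat_lit 0, nat_lit 4202, nat_lit 9622, nat_lit 738, nat_lit 0, nat_lit 0, nat_lit 923, nat_lit 0, nat_lit 0, nat_lit 0, nat_lit 0, nat_lit 0, nat_lit 0, nat_lit 0, nat_lit 0, [],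
 ⟨p080_k26, nat_lit 0, nat_lit 0, nat_lit 185, nat_lit 0, nat_lit 0, [nat_lit 2032000001, nat_lit 4688000000, nat_lit 7968000000], [], [nat_lit 28707074979, nat_lit 29839757800, nat_lit 31157443172, nat_lit 32475128544, nat_lit 26943263631, nat_lit 27812884515, nat_lit 28707525593, nat_lit 29604012173], nat_lit 0, nat_lit 0, nat_lit 0, nat_lit 0, nat_lit 0, nat_lit 0, [], [nat_lit 34, nat_lit 40, nat_lit 40, nat_lit 80, nat_lit 7, nat_lit 226, nat_lit 20, nat_lit 6]⟩, ⟨p080_k27, nat_lit 0, nat_lit 0, nat_lit 470, nat_lit 0, nat_lit 361483, [nat_lit 6250000000, nat_lit 9842000000, nat_lit 14058000000], [], [nat_lit 41625843252, nat_lit 41623635776, nat_lit 43265034092, nat_lit 43217395850, nat_lit 32739648430, nat_lit 32737375605, nat_lit 34436763550, nat_lit 34500141668], nat_lit 1271250, nat_lit 1271250, nat_lit 1271250, nat_lit 1271250, nat_lit 0, nat_lit 1836250, [nat_lit 1412500, nat_lit 1271250, nat_lit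 1271250], [nat_lit 60, nat_lit 40, nat_lit 40, nat_lit 80, nat_lit 32, nat_lit 456, nat_lit 225, nat_lit 10]⟩,
 zbF0, [⟨nat_lit 13, nat_lit 66, nat_lit 72, nat_lit 100, nat_lit 174522112⟩]⟩
noncomputable def p080_l44 : Lf2 := ⟨nat_lit 0, nat_lit 20, [nat_lit 5, nat_lit 5, nat_lit 5, nat_lit 20], false, nat_lit 0, nat_lit 80, nat_lit 0, nat_lit 260, ⟨nat_lit 235, nat_lit 765, nat_lit 0, nat_lit 8, nat_lit 300, nat_lit 765, nat_lit 38, nat_lit 0, nat_lit 0, nat_lit 0, nat_lit 0, nat_lit 0, nat_lit 42872426, nat_lit 24127574, nat_lit 0, nat_lit 3267415, true, true⟩,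
 nat_lit 0, nat_lit 0, nat_lit 4756, nat_lit 0, nat_lit 2942, nat_lit 2274, nat_lit 0, nat_lit 0, nat_lit 0, nat_lit 296, nat_lit 0, nat_lit 0, nat_lit 0, nat_lit 0, nat_lit 7, nat_lit 658800, nat_lit 0, nat_lit 0, [(nat_lit 22, [(nat_lit 1, nat_lit 177), (nat_lit 2, nat_lit 588)])],
 ⟨p080_k26, nat_lit 0, nat_lit 0, nat_lit 186, nat_lit 0, nat_lit 0, [nat_lit 1594020800, nat_lit 1485586801, nat_lit 29242400], [], [nat_lit 26666129089, nat_lit 27490485498, nat_lit 28506387677, nat_lit 29329036013, nat_lit 25768282981, nat_lit 26592104354, nat_lit 27556754957, nat_lit 28338424558], nat_lit 0, nat_lit 0, nat_lit 0, nat_lit 0, nat_lit 0, nat_lit 0, [], [nat_lit 34, nat_lit 40, nat_lit 40, nat_lit 80, nat_lit 7, nat_lit 226, nat_lit 20, nat_lit 6]⟩, ⟨p080_k28, nat_lit 0, nat_lit 0, nat_lit 633, nat_lit 0, nat_lit 713347, [nat_lit 1468750000, nat_lit 2312870000, nat_lit 3303630000], [], [nat_lit 8647121194, nat_lit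 8660639591, nat_lit 9086136709, nat_lit 9089080119, nat_lit 6845075875, nat_lit 6839445207, nat_lit 7191800702, nat_lit 7197999816], nat_lit 1271250, nat_lit 1271250, nat_lit 1271250, nat_lit 1271250, nat_lit 0, nat_lit 1836250, [nat_lit 1412500, nat_lit 1271250, nat_lit 1271250], [nat_lit 60, nat_lit 40, nat_lit 40, nat_lit 80, nat_lit 32, nat_lit 456, nat_lit 225, nat_lit 10]⟩,
 ⟨nat_lit 3162, nat_lit 3873, ⟨.ofNat (nat_lit 715356), .ofNat (nat_lit 786330), .ofNat (nat_lit 726253), .ofNat (nat_lit 797227), .ofNat (nat_lit 705013), .ofNat (nat_lit 772062), .ofNat (nat_lit 716091), .ofNat (nat_lit 783140)⟩, ⟨.ofNat (nat_lit 0), .ofNat (nat_lit 175674), .ofNat (nat_lit 0), .ofNat (nat_lit 200000), .ofNat (nat_lit 0), .ofNat (nat_lit 184209), .ofNat (nat_lit 0), .ofNat (nat_lit 200000)⟩⟩, [⟨nat_lit 13, nat_lit 60, nat_lit 74, nat_lit 100, nat_lit 215721171⟩, ⟨nat_lit 3, nat_lit 100, nat_lit 76, nat_lit 37, nat_lit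 8844160⟩, ⟨nat_lit 22, nat_lit 75, nat_lit 100, nat_lit 45, nat_lit 15010293⟩]⟩
noncomputable def p080_l45 : Lf2 := ⟨nat_lit 0, nat_lit 20, [nat_lit 5, nat_lit 5, nat_lit 5, nat_lit 20], false, nat_lit 0, nat_lit 80, nat_lit 0, nat_lit 260, ⟨nat_lit 318, nat_lit 682, nat_lit 0, nat_lit 8, nat_lit 306, nat_lit 682, nat_lit 38, nat_lit 0, nat_lit 0, nat_lit 0, nat_lit 0, nat_lit 0, nat_lit 42293528, nat_lit 24706472, nat_lit 0, nat_lit 3291443, true, true⟩,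
 nat_lit 0, nat_lit 0, nat_lit 5178, nat_lit 0, nat_lit 3057, nat_lit 2607, nat_lit 0, nat_lit 0, nat_lit 0, nat_lit 500, nat_lit 0, nat_lit 0, nat_lit 0, nat_lit 0, nat_lit 0, nat_lit 664600, nat_lit 0, nat_lit 0, [(nat_lit 22, [(nat_lit 1, nat_lit 29), (nat_lit 2, nat_lit 653)])],
 ⟨p080_k26, nat_lit 0, nat_lit 0, nat_lit 187, nat_lit 0, nat_lit 0, [nat_lit 1596286934, nat_lit 1532216400, nat_lit 60209734], [], [nat_lit 26937490516, nat_lit 27756102188, nat_lit 28959176401, nat_lit 29883835013, nat_lit 25960607898, nat_lit 26763465126, nat_lit 27918550757, nat_lit 28702282081], nat_lit 0, nat_lit 0, nat_lit 0, nat_lit 0, nat_lit 0, nat_lit 0, [], [nat_lit 34, nat_lit 40, nat_lit 40, nat_lit 80, nat_lit 7, nat_lit 226, nat_lit 20, nat_lit 6]⟩, ⟨p080_k29, nat_lit 0, nat_lit 0, nat_lit 633, nat_lit 0, nat_lit 720868, [nat_lit 1987500000, nat_lit 3129756000, nat_lit 4470444000], [], [nat_lit 10965766135, nat_lit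 10987750008, nat_lit 11558596546, nat_lit 11571825386, nat_lit 9248178719, nat_lit 9249118520, nat_lit 9575938190, nat_lit 9569188412], nat_lit 1271250, nat_lit 1271250, nat_lit 1271250, nat_lit 1271250, nat_lit 0, nat_lit 1836250, [nat_lit 1412500, nat_lit 1271250, nat_lit 1271250], [nat_lit 60, nat_lit 40, nat_lit 40, nat_lit 80, nat_lit 32, nat_lit 456, nat_lit 225, nat_lit 10]⟩,
 ⟨nat_lit 3162, nat_lit 3873, ⟨.ofNat (nat_lit 726253), .ofNat (nat_lit 803679), .ofNat (nat_lit 737150), .ofNat (nat_lit 814576), .ofNat (nat_lit 716091), .ofNat (nat_lit 789235), .ofNat (nat_lit 727168), .ofNat (nat_lit 800312)⟩, ⟨.ofNat (nat_lit 0), .ofNat (nat_lit 175674), .ofNat (nat_lit 0), .ofNat (nat_lit 200000), .ofNat (nat_lit 0), .ofNat (nat_lit 184209), .ofNat (nat_lit 0), .ofNat (nat_lit 200000)⟩⟩, [⟨nat_lit 13, nat_lit 61, nat_lit 71, nat_lit 100, nat_lit 95647810⟩, ⟨nat_lit 22, nat_lit 70, nat_lit 100, nat_lit 61,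 nat_lit 37099434⟩]⟩
noncomputable def p080_l46 : Lf2 := ⟨nat_lit 0, nat_lit 20, [nat_lit 5, nat_lit 5, nat_lit 5, nat_lit 20], true, nat_lit 80, nat_lit 160, nat_lit 0, nat_lit 384, ⟨nat_lit 0, nat_lit 1000, nat_lit 0, nat_lit 6, nat_lit 260, nat_lit 1000, nat_lit 103, nat_lit 0, nat_lit 0, nat_lit 0, nat_lit 0, nat_lit 0, nat_lit 43502485, nat_lit 19035300, nat_lit 4462215, nat_lit 4337253, true, true⟩,
 nat_lit 0, nat_lit 0, nat_lit 0, nat_lit 5369, nat_lit 3725, nat_lit 0, nat_lit 0, nat_lit 0, nat_lit 0, nat_lit 0, nat_lit 0, nat_lit 0, nat_lit 0, nat_lit 0, nat_lit 0, nat_lit 250000, nat_lit 0, nat_lit 0, [(nat_lit 22, [(nat_lit 0, nat_lit 1000)])],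
 ⟨p080_k26, nat_lit 0, nat_lit 0, nat_lit 79, nat_lit 0, nat_lit 0, [nat_lit 1568000001, nat_lit 1970800000, nat_lit 2712400000], [], [nat_lit 20895986551, nat_lit 21555537950, nat_lit 24655943800, nat_lit 25237301550, nat_lit 21620856551, nat_lit 22215194526, nat_lit 24960099800, nat_lit 25487640450], nat_lit 0, nat_lit 0, nat_lit 0, nat_lit 0, nat_lit 0, nat_lit 0, [], [nat_lit 34, nat_lit 40, nat_lit 40, nat_lit 80, nat_lit 7, nat_lit 249, nat_lit 40, nat_lit 7]⟩, C1.Rw.none,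
 ⟨nat_lit 3535, nat_lit 3873, ⟨.ofNat (nat_lit 564520), .ofNat (nat_lit 693563), .ofNat (nat_lit 608101), .ofNat (nat_lit 737150), .ofNat (nat_lit 562760), .ofNat (nat_lit 688283), .ofNat (nat_lit 606659), .ofNat (nat_lit 732188)⟩, ⟨.ofNat (nat_lit 175674), .ofNat (nat_lit 304717), .ofNat (nat_lit 200000), .ofNat (nat_lit 348304), .ofNat (nat_lit 179999), .ofNat (nat_lit 305521), .ofNat (nat_lit 200000), .ofNat (nat_lit 349427)⟩⟩, []⟩
noncomputable def p080_l47 : Lf2 := ⟨nat_lit 0, nat_lit 20, [nat_lit 5, nat_lit 5, nat_lit 5, nat_lit 20], true, nat_lit 80, nat_lit 160, nat_lit 0, nat_lit 384, ⟨nat_lit 0, nat_lit 1000, nat_lit 0, nat_lit 6, nat_lit 258, nat_lit 1000, nat_lit 104, nat_lit 0, nat_lit 0, nat_lit 0, nat_lit 0, nat_lit 0, nat_lit 43597711, nat_lit 18894823, nat_lit 4507466, nat_lit 4337270, true, true⟩,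
 nat_lit 0, nat_lit 0, nat_lit 0, nat_lit 7954, nat_lit 3438, nat_lit 0, nat_lit 269, nat_lit 0, nat_lit 0, nat_lit 0, nat_lit 0, nat_lit 0, nat_lit 0, nat_lit 0, nat_lit 0, nat_lit 250000, nat_lit 0, nat_lit 0, [(nat_lit 22, [(nat_lit 0, nat_lit 1000)])],
 ⟨p080_k30, nat_lit 0, nat_lit 0, nat_lit 107, nat_lit 0, nat_lit 0, [nat_lit 1568000001, nat_lit 1970800000, nat_lit 2712400000], [], [nat_lit 22075796200, nat_lit 22629181074, nat_lit 25057431444, nat_lit 25524844498, nat_lit 22624435522, nat_lit 23126425034, nat_lit 25341280282, nat_lit 25767482706], nat_lit 0, nat_lit 0, nat_lit 0, nat_lit 0, nat_lit 0, nat_lit 0, [], [nat_lit 34, nat_lit 40, nat_lit 40, nat_lit 80, nat_lit 7, nat_lit 249, nat_lit 40, nat_lit 7]⟩, C1.Rw.none,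
 ⟨nat_lit 3162, nat_lit 3536, ⟨.ofNat (nat_lit 562760), .ofNat (nat_lit 688283), .ofNat (nat_lit 606660), .ofNat (nat_lit 732188), .ofNat (nat_lit 560952), .ofNat (nat_lit 682859), .ofNat (nat_lit 605256), .ofNat (nat_lit 727168)⟩, ⟨.ofNat (nat_lit 179999), .ofNat (nat_lit 305521), .ofNat (nat_lit 200000), .ofNat (nat_lit 349427), .ofNat (nat_lit 184209), .ofNat (nat_lit 306116), .ofNat (nat_lit 200000), .ofNat (nat_lit 350426)⟩⟩, []⟩
noncomputable def p080_l48 : Lf2 := ⟨nat_lit 0, nat_lit 20, [nat_lit 5, nat_lit 5, nat_lit 5, nat_lit 20], true, nat_lit 80, nat_lit 160, nat_lit 0, nat_lit 336, ⟨nat_lit 0, nat_lit 1000, nat_lit 0, nat_lit 8, nat_lit 292, nat_lit 1000, nat_lit 103, nat_lit 0, nat_lit 0, nat_lit 0, nat_lit 0, nat_lit 0, nat_lit 40519292, nat_lit 22183175, nat_lit 4297533, nat_lit 4478809, true, true⟩,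
 nat_lit 0, nat_lit 0, nat_lit 0, nat_lit 8253, nat_lit 3317, nat_lit 0, nat_lit 143, nat_lit 0, nat_lit 0, nat_lit 0, nat_lit 0, nat_lit 0, nat_lit 0, nat_lit 0, nat_lit 0, nat_lit 368200, nat_lit 0, nat_lit 0, [(nat_lit 22, [(nat_lit 0, nat_lit 212), (nat_lit 1, nat_lit 788)])],
 ⟨p080_k26, nat_lit 0, nat_lit 0, nat_lit 131, nat_lit 0, nat_lit 0, [nat_lit 1402835201, nat_lit 1642992000, nat_lit 1680752000], [], [nat_lit 24909077228, nat_lit 25879771180, nat_lit 26758094048, nat_lit 27640976044, nat_lit 25254415289, nat_lit 26096087921, nat_lit 26900107298, nat_lit 27704420472], nat_lit 0, nat_lit 0, nat_lit 0, nat_lit 0, nat_lit 0, nat_lit 0, [], [nat_lit 34, nat_lit 40, nat_lit 40, nat_lit 80, nat_lit 7, nat_lit 249, nat_lit 40, nat_lit 7]⟩, C1.Rw.none,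
 ⟨nat_lit 3162, nat_lit 3873, ⟨.ofNat (nat_lit 693563), .ofNat (nat_lit 758085), .ofNat (nat_lit 715356), .ofNat (nat_lit 779878), .ofNat (nat_lit 682859), .ofNat (nat_lit 743812), .ofNat (nat_lit 705013), .ofNat (nat_lit 765967)⟩, ⟨.ofNat (nat_lit 175674), .ofNat (nat_lit 304717), .ofNat (nat_lit 200000), .ofNat (nat_lit 348304), .ofNat (nat_lit 184209), .ofNat (nat_lit 306116), .ofNat (nat_lit 200000), .ofNat (nat_lit 350426)⟩⟩, [⟨nat_lit 13, nat_lit 66, nat_lit 72, nat_lit 100, nat_lit 302165914⟩]⟩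
noncomputable def p080_l49 : Lf2 := ⟨nat_lit 0, nat_lit 20, [nat_lit 5, nat_lit 5, nat_lit 5, nat_lit 20], false, nat_lit 80, nat_lit 160, nat_lit 0, nat_lit 336, ⟨nat_lit 168, nat_lit 832, nat_lit 0, nat_lit 8, nat_lit 304, nat_lit 832, nat_lit 103, nat_lit 0, nat_lit 0, nat_lit 0, nat_lit 0, nat_lit 0, nat_lit 39516011, nat_lit 23254872, nat_lit 4229117, nat_lit 4512170, true, true⟩,
 nat_lit 0, nat_lit 0, nat_lit 3269, nat_lit 0, nat_lit 3432, nat_lit 1563, nat_lit 210, nat_lit 0, nat_lit 0, nat_lit 160, nat_lit 0, nat_lit 0, nat_lit 0, nat_lit 0, nat_lit 0, nat_lit 332800, nat_lit 0, nat_lit 0, [(nat_lit 22, [(nat_lit 1, nat_lit 832)])],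
 ⟨p080_k26, nat_lit 0, nat_lit 0, nat_lit 134, nat_lit 0, nat_lit 0, [nat_lit 1471564801, nat_lit 2081177601, nat_lit 2499097600], [], [nat_lit 25125289488, nat_lit 26108938880, nat_lit 27399539562, nat_lit 28324457050, nat_lit 25410738849, nat_lit 26280161504, nat_lit 27461140148, nat_lit 28260449018], nat_lit 0, nat_lit 0, nat_lit 0, nat_lit 0, nat_lit 0, nat_lit 0, [], [nat_lit 34, nat_lit 40, nat_lit 40, nat_lit 80, nat_lit 7, nat_lit 249, nat_lit 40, nat_lit 7]⟩, ⟨p080_k28, nat_lit 0, nat_lit 0, nat_lit 659, nat_lit 0, nat_lit 780410, [nat_lit 1050000000, nat_lit 1653456000, nat_lit 2361744000], [], [nat_lit 6753826510, nat_lit 6744854200, nat_lit 6960037716, nat_lit 6966715236, nat_lit 5524815280, nat_lit 5500862014, nat_lit 5762868248, nat_lit 5756573213], nat_lit 1271250, nat_lit 1271250, nat_lit 1271250, nat_lit 1271250, nat_lit 0, nat_lit 2373000, [nat_lit 1412500, nat_lit 1271250, nat_lit 1271250],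 [nat_lit 60, nat_lit 40, nat_lit 40, nat_lit 80, nat_lit 32, nat_lit 483, nat_lit 250, nat_lit 11]⟩,
 ⟨nat_lit 3162, nat_lit 3873, ⟨.ofNat (nat_lit 715356), .ofNat (nat_lit 792782), .ofNat (nat_lit 737150), .ofNat (nat_lit 814576), .ofNat (nat_lit 705013), .ofNat (nat_lit 778158), .ofNat (nat_lit 727168), .ofNat (nat_lit 800312)⟩, ⟨.ofNat (nat_lit 175674), .ofNat (nat_lit 304717), .ofNat (nat_lit 200000), .ofNat (nat_lit 348304), .ofNat (nat_lit 184209), .ofNat (nat_lit 306116), .ofNat (nat_lit 200000), .ofNat (nat_lit 350426)⟩⟩, [⟨nat_lit 13, nat_lit 67, nat_lit 65, nat_lit 100, nat_lit 192571110⟩, ⟨nat_lit 22, nat_lit 74, nat_lit 100, nat_lit 98, nat_lit 18300650⟩]⟩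
noncomputable def b_V_800_500_20_14 : St := ⟨true, nat_lit 0, nat_lit 1, nat_lit 1, nat_lit 120, nat_lit 320, nat_lit 360, nat_lit 200, nat_lit 240, nat_lit 40, nat_lit 384, nat_lit 80, nat_lit 120, nat_lit 0, nat_lit 160, nat_lit 0, nat_lit 384, nat_lit 40, nat_lit 80, nat_lit 0, nat_lit 0, nat_lit 0, nat_lit 0⟩
theorem d_V_800_500_20_14 (h : EB TB.env) : Dead b_V_800_500_20_14 := chkB_sound0 h (T :=
(.spl (nat_lit 2) (nat_lit 240)
(.spl (nat_lit 4) (nat_lit 80)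
(.spl (nat_lit 0) (nat_lit 340)
(.leaf p080_l28)
(.trZ (nat_lit 0) (nat_lit 100) (nat_lit 71) (nat_lit 70) (nat_lit 56) (.leaf p080_l29)))
(.leaf p080_l30))
(.spl (nat_lit 0) (nat_lit 340)
(.spl (nat_lit 6) (nat_lit 60)
(.spl (nat_lit 4) (nat_lit 80)
(.trX (nat_lit 22) (nat_lit 100) (nat_lit 76) (nat_lit 82) (nat_lit 336) (.spl (nat_lit 0) (nat_lit 330)
(.leaf p080_l31)
(.trX (nat_lit 13) (nat_lit 78) (nat_lit 49) (nat_lit 100) (nat_lit 376) (.leaf p080_l32))))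
(.spl (nat_lit 0) (nat_lit 330)
(.leaf p080_l33)
(.trX (nat_lit 13) (nat_lit 78) (nat_lit 49) (nat_lit 100) (nat_lit 376) (.leaf p080_l34))))
(.leaf p080_l35))
(.trX (nat_lit 13) (nat_lit 73) (nat_lit 55) (nat_lit 100) (nat_lit 368) (.spl (nat_lit 4) (nat_lit 80)
(.trX (nat_lit 22) (nat_lit 100) (nat_lit 76) (nat_lit 82) (nat_lit 336) (.spl (nat_lit 2) (nat_lit 320)
(.spl (nat_lit 1) (nat_lit 220)
(.spl (nat_lit 6) (nat_lit 60)
(.spl (nat_lit 1) (nat_lit 210)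
(.leaf p080_l36)
(.leaf p080_l37))
(.leaf p080_l38))
(.spl (nat_lit 5) (nat_lit 160)
(.leaf p080_l39)
(.leaf p080_l40)))
(.trX (nat_lit 22) (nat_lit 83) (nat_lit 100) (nat_lit 83) (nat_lit 260) (.spl (nat_lit 1) (nat_lit 220)
(.trX (nat_lit 13) (nat_lit 72) (nat_lit 63) (nat_lit 100) (nat_lit 360) (.spl (nat_lit 6) (nat_lit 60)
(.spl (nat_lit 1) (nat_lit 210)
(.trX (nat_lit 13) (nat_lit 72) (nat_lit 66) (nat_lit 100) (nat_lit 352) (.leaf p080_l41))
(.leaf p080_l42))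
(.leaf p080_l43)))
(.spl (nat_lit 1) (nat_lit 230)
(.trX (nat_lit 13) (nat_lit 72) (nat_lit 59) (nat_lit 100) (nat_lit 364) (.leaf p080_l44))
(.leaf p080_l45))))))
(.spl (nat_lit 2) (nat_lit 320)
(.spl (nat_lit 0) (nat_lit 350)
(.leaf p080_l46)
(.leaf p080_l47))
(.trX (nat_lit 22) (nat_lit 82) (nat_lit 76) (nat_lit 100) (nat_lit 336) (.spl (nat_lit 1) (nat_lit 220)
(.trX (nat_lit 13) (nat_lit 72) (nat_lit 63) (nat_lit 100) (nat_lit 360) (.leaf p080_l48))
(.leaf p080_l49))))))))) (by decide +kernel)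
noncomputable def p080_l50 : Lf2 := ⟨nat_lit 0, nat_lit 20, [nat_lit 5, nat_lit 5, nat_lit 5, nat_lit 20], true, nat_lit 160, nat_lit 300, nat_lit 0, nat_lit 384, ⟨nat_lit 0, nat_lit 0, nat_lit 1000, nat_lit 5, nat_lit 144, nat_lit 1000, nat_lit 176, nat_lit 1000, nat_lit 1169, nat_lit 218, nat_lit 62098, nat_lit 276, nat_lit 48474325, nat_lit 0, nat_lit 0, nat_lit 4167904, false, false⟩,
 nat_lit 0, nat_lit 0, nat_lit 0, nat_lit 7597, nat_lit 3065, nat_lit 0, nat_lit 0, nat_lit 0, nat_lit 0, nat_lit 0, nat_lit 0, nat_lit 0, nat_lit 0, nat_lit 0, nat_lit 81, nat_lit 250000, nat_lit 0, nat_lit 0, [(nat_lit 19, [(nat_lit 4, nat_lit 1000)]), (nat_lit 22, [(nat_lit 4, nat_lit 1000)])],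
 ⟨p080_k14, nat_lit 0, nat_lit 0, nat_lit 156, nat_lit 0, nat_lit 0, [nat_lit 2166400000, nat_lit 172800000], [], [nat_lit 18221588580, nat_lit 20520017480, nat_lit 18934058380, nat_lit 20950757100, nat_lit 22586318625, nat_lit 24619269425, nat_lit 22813660360, nat_lit 24800491380], nat_lit 0, nat_lit 0, nat_lit 0, nat_lit 0, nat_lit 0, nat_lit 0, [], [nat_lit 94, nat_lit 40, nat_lit 40, nat_lit 80, nat_lit 95, nat_lit 345, nat_lit 125, nat_lit 9]⟩, C1.Rw.none,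
 ⟨nat_lit 3162, nat_lit 4473, ⟨.ofNat (nat_lit 227776), .ofNat (nat_lit 431944), .ofNat (nat_lit 270729), .ofNat (nat_lit 474896), .ofNat (nat_lit 255876), .ofNat (nat_lit 438969), .ofNat (nat_lit 300005), .ofNat (nat_lit 483097)⟩, ⟨.ofNat (nat_lit 302621), .ofNat (nat_lit 540545), .ofNat (nat_lit 345754), .ofNat (nat_lit 583678), .ofNat (nat_lit 306116), .ofNat (nat_lit 519453), .ofNat (nat_lit 350426), .ofNat (nat_lit 563762)⟩⟩, [⟨nat_lit 0, nat_lit 100, nat_lit 72, nat_lit 77, nat_lit 55802462⟩, ⟨nat_lit 4, nat_lit 100, nat_lit 74, nat_lit 90, nat_lit 255276719⟩]⟩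
noncomputable def p080_l51 : Lf2 := ⟨nat_lit 0, nat_lit 20, [nat_lit 5, nat_lit 5, nat_lit 5, nat_lit 20], true, nat_lit 160, nat_lit 300, nat_lit 0, nat_lit 384, ⟨nat_lit 0, nat_lit 1000, nat_lit 0, nat_lit 5, nat_lit 209, nat_lit 1000, nat_lit 176, nat_lit 0, nat_lit 0, nat_lit 0, nat_lit 0, nat_lit 0, nat_lit 43513051, nat_lit 13338413, nat_lit 10148536, nat_lit 4775791, false, false⟩,
 nat_lit 0, nat_lit 0, nat_lit 0, nat_lit 5256, nat_lit 3210, nat_lit 0, nat_lit 0, nat_lit 0, nat_lit 0, nat_lit 0, nat_lit 0, nat_lit 0, nat_lit 0, nat_lit 0, nat_lit 0, nat_lit 250000, nat_lit 0, nat_lit 0, [(nat_lit 19, [(nat_lit 0, nat_lit 1000)]), (nat_lit 22, [(nat_lit 0, nat_lit 1000)])],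
 ⟨p080_k14, nat_lit 0, nat_lit 0, nat_lit 39, nat_lit 0, nat_lit 0, [nat_lit 1642800000, nat_lit 3238355556], [], [nat_lit 16671537720, nat_lit 19677267000, nat_lit 19464714520, nat_lit 22070927720, nat_lit 22329204640, nat_lit 24616202240, nat_lit 24346917780, nat_lit 26353323660], nat_lit 0, nat_lit 0, nat_lit 0, nat_lit 0, nat_lit 0, nat_lit 0, [], [nat_lit 94, nat_lit 40, nat_lit 40, nat_lit 80, nat_lit 95, nat_lit 373, nat_lit 150, nat_lit 10]⟩, C1.Rw.none,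
 ⟨nat_lit 3162, nat_lit 4473, ⟨.ofNat (nat_lit 431944), .ofNat (nat_lit 567977), .ofNat (nat_lit 474896), .ofNat (nat_lit 611007), .ofNat (nat_lit 438969), .ofNat (nat_lit 560952), .ofNat (nat_lit 483097), .ofNat (nat_lit 605159)⟩, ⟨.ofNat (nat_lit 302621), .ofNat (nat_lit 540545), .ofNat (nat_lit 345754), .ofNat (nat_lit 583678), .ofNat (nat_lit 306116), .ofNat (nat_lit 519453), .ofNat (nat_lit 350426), .ofNat (nat_lit 563762)⟩⟩, [⟨nat_lit 4, nat_lit 100, nat_lit 74, nat_lit 90, nat_lit 228015169⟩]⟩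
noncomputable def p080_l52 : Lf2 := ⟨nat_lit 0, nat_lit 20, [nat_lit 5, nat_lit 5, nat_lit 5, nat_lit 20], true, nat_lit 160, nat_lit 300, nat_lit 0, nat_lit 384, ⟨nat_lit 0, nat_lit 1000, nat_lit 0, nat_lit 6, nat_lit 262, nat_lit 1000, nat_lit 177, nat_lit 0, nat_lit 0, nat_lit 0, nat_lit 0, nat_lit 0, nat_lit 39343415, nat_lit 18047277, nat_lit 9609308, nat_lit 5084444, true, true⟩,
 nat_lit 0, nat_lit 0, nat_lit 0, nat_lit 9549, nat_lit 3032, nat_lit 0, nat_lit 0, nat_lit 0, nat_lit 0, nat_lit 0, nat_lit 0, nat_lit 0, nat_lit 0, nat_lit 0, nat_lit 0, nat_lit 250000, nat_lit 0, nat_lit 0, [(nat_lit 19, [(nat_lit 0, nat_lit 1000)])],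
 ⟨p080_k31, nat_lit 0, nat_lit 0, nat_lit 54, nat_lit 0, nat_lit 0, [nat_lit 1542400001, nat_lit 2368400000, nat_lit 3220880000], [], [nat_lit 19480724385, nat_lit 20750427505, nat_lit 23224697857, nat_lit 24289963697, nat_lit 24305396977, nat_lit 25286810225, nat_lit 27175120009, nat_lit 28010038521], nat_lit 0, nat_lit 0, nat_lit 0, nat_lit 0, nat_lit 0, nat_lit 0, [], [nat_lit 27, nat_lit 40, nat_lit 40, nat_lit 80, nat_lit 13, nat_lit 401, nat_lit 175, nat_lit 10]⟩, C1.Rw.none,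
 ⟨nat_lit 3872, nat_lit 4473, ⟨.ofNat (nat_lit 567977), .ofNat (nat_lit 703933), .ofNat (nat_lit 611083), .ofNat (nat_lit 747053), .ofNat (nat_lit 564520), .ofNat (nat_lit 693563), .ofNat (nat_lit 608080), .ofNat (nat_lit 737137)⟩, ⟨.ofNat (nat_lit 302621), .ofNat (nat_lit 540545), .ofNat (nat_lit 345754), .ofNat (nat_lit 583678), .ofNat (nat_lit 304717), .ofNat (nat_lit 530543), .ofNat (nat_lit 348304), .ofNat (nat_lit 574129)⟩⟩, [⟨nat_lit 4, nat_lit 100, nat_lit 81, nat_lit 92, nat_lit 152761002⟩]⟩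
noncomputable def p080_l53 : Lf2 := ⟨nat_lit 0, nat_lit 20, [nat_lit 5, nat_lit 5, nat_lit 5, nat_lit 20], true, nat_lit 160, nat_lit 276, nat_lit 0, nat_lit 384, ⟨nat_lit 0, nat_lit 1000, nat_lit 0, nat_lit 6, nat_lit 259, nat_lit 1000, nat_lit 167, nat_lit 0, nat_lit 0, nat_lit 0, nat_lit 0, nat_lit 0, nat_lit 40077412, nat_lit 17973006, nat_lit 8949582, nat_lit 4996528, true, true⟩,
 nat_lit 0, nat_lit 0, nat_lit 0, nat_lit 5256, nat_lit 3548, nat_lit 0, nat_lit 0, nat_lit 0, nat_lit 0, nat_lit 0, nat_lit 0, nat_lit 0, nat_lit 0, nat_lit 0, nat_lit 0, nat_lit 250000, nat_lit 0, nat_lit 0, [(nat_lit 22, [(nat_lit 0, nat_lit 1000)])],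
 ⟨p080_k26, nat_lit 0, nat_lit 0, nat_lit 60, nat_lit 0, nat_lit 0, [nat_lit 1568000001, nat_lit 1970800000, nat_lit 2712400000], [], [nat_lit 21882845225, nat_lit 23045137201, nat_lit 25111095233, nat_lit 26090331025, nat_lit 25121953899, nat_lit 26069377900, nat_lit 27737980642, nat_lit 28584284865], nat_lit 0, nat_lit 0, nat_lit 0, nat_lit 0, nat_lit 0, nat_lit 0, [], [nat_lit 34, nat_lit 40, nat_lit 40, nat_lit 80, nat_lit 7, nat_lit 289, nat_lit 75, nat_lit 8]⟩, C1.Rw.none,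
 ⟨nat_lit 3162, nat_lit 3873, ⟨.ofNat (nat_lit 564520), .ofNat (nat_lit 693563), .ofNat (nat_lit 608082), .ofNat (nat_lit 737150), .ofNat (nat_lit 560952), .ofNat (nat_lit 682859), .ofNat (nat_lit 605237), .ofNat (nat_lit 727168)⟩, ⟨.ofNat (nat_lit 304717), .ofNat (nat_lit 491830), .ofNat (nat_lit 348304), .ofNat (nat_lit 535416), .ofNat (nat_lit 306116), .ofNat (nat_lit 482881), .ofNat (nat_lit 350426), .ofNat (nat_lit 527190)⟩⟩, [⟨nat_lit 4, nat_lit 100, nat_lit 67, nat_lit 88, nat_lit 190090320⟩]⟩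
noncomputable def p080_l54 : Lf2 := ⟨nat_lit 0, nat_lit 15, [nat_lit 30, nat_lit 5, nat_lit 5, nat_lit 20], true, nat_lit 160, nat_lit 240, nat_lit 16, nat_lit 384, ⟨nat_lit 0, nat_lit 1000, nat_lit 0, nat_lit 8, nat_lit 301, nat_lit 1000, nat_lit 157, nat_lit 0, nat_lit 0, nat_lit 0, nat_lit 0, nat_lit 0, nat_lit 37312588, nat_lit 21996451, nat_lit 7690961, nat_lit 5041103, true, true⟩,
 nat_lit 0, nat_lit 0, nat_lit 0, nat_lit 4970, nat_lit 3734, nat_lit 0, nat_lit 0, nat_lit 0, nat_lit 0, nat_lit 0, nat_lit 0, nat_lit 0, nat_lit 0, nat_lit 0, nat_lit 0, nat_lit 250000, nat_lit 0, nat_lit 0, [(nat_lit 19, [(nat_lit 0, nat_lit 1000)])],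
 ⟨p080_k23, nat_lit 0, nat_lit 0, nat_lit 67, nat_lit 0, nat_lit 0, [nat_lit 1542400001, nat_lit 2190400000, nat_lit 2901600000], [], [nat_lit 24119557080, nat_lit 25175725472, nat_lit 26231893864, nat_lit 27183464732, nat_lit 25831887792, nat_lit 26757756620, nat_lit 27683625448, nat_lit 28520723996], nat_lit 0, nat_lit 0, nat_lit 0, nat_lit 0, nat_lit 0, nat_lit 0, [], [nat_lit 34, nat_lit 40, nat_lit 40, nat_lit 80, nat_lit 7, nat_lit 272, nat_lit 60, nat_lit 7]⟩, C1.Rw.none,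
 ⟨nat_lit 3872, nat_lit 4473, ⟨.ofNat (nat_lit 703933), .ofNat (nat_lit 771911), .ofNat (nat_lit 747053), .ofNat (nat_lit 815035), .ofNat (nat_lit 693563), .ofNat (nat_lit 758085), .ofNat (nat_lit 737137), .ofNat (nat_lit 801662)⟩, ⟨.ofNat (nat_lit 302621), .ofNat (nat_lit 438578), .ofNat (nat_lit 345754), .ofNat (nat_lit 481711), .ofNat (nat_lit 304717), .ofNat (nat_lit 433760), .ofNat (nat_lit 348304), .ofNat (nat_lit 477347)⟩⟩, []⟩
noncomputable def p080_l55 : Lf2 := ⟨nat_lit 0, nat_lit 15, [nat_lit 30, nat_lit 5, nat_lit 5, nat_lit 20], true, nat_lit 160, nat_lit 240, nat_lit 48, nat_lit 352, ⟨nat_lit 0, nat_lit 1000, nat_lit 0, nat_lit 9, nat_lit 323, nat_lit 1000, nat_lit 157, nat_lit 0, nat_lit 0, nat_lit 0, nat_lit 0, nat_lit 0, nat_lit 35690670, nat_lit 23861830, nat_lit 7447500, nat_lit 5076284, true, true⟩,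
 nat_lit 0, nat_lit 0, nat_lit 0, nat_lit 5037, nat_lit 3604, nat_lit 0, nat_lit 0, nat_lit 0, nat_lit 0, nat_lit 0, nat_lit 0, nat_lit 0, nat_lit 0, nat_lit 0, nat_lit 0, nat_lit 250000, nat_lit 0, nat_lit 0, [(nat_lit 19, [(nat_lit 0, nat_lit 1000)])],
 ⟨p080_k23, nat_lit 0, nat_lit 0, nat_lit 76, nat_lit 0, nat_lit 0, [nat_lit 1542400001, nat_lit 2190400000, nat_lit 2901600000], [], [nat_lit 26273598384, nat_lit 27212155992, nat_lit 27604660800, nat_lit 28482683434, nat_lit 27737579088, nat_lit 28564456776, nat_lit 28913410369, nat_lit 29688621644], nat_lit 0, nat_lit 0, nat_lit 0, nat_lit 0, nat_lit 0, nat_lit 0, [], [nat_lit 34, nat_lit 40, nat_lit 40, nat_lit 80, nat_lit 7, nat_lit 272, nat_lit 60, nat_lit 7]⟩, C1.Rw.none,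
 ⟨nat_lit 3872, nat_lit 4473, ⟨.ofNat (nat_lit 771911), .ofNat (nat_lit 812698), .ofNat (nat_lit 815035), .ofNat (nat_lit 855824), .ofNat (nat_lit 758085), .ofNat (nat_lit 796798), .ofNat (nat_lit 801662), .ofNat (nat_lit 840378)⟩, ⟨.ofNat (nat_lit 302621), .ofNat (nat_lit 438578), .ofNat (nat_lit 345754), .ofNat (nat_lit 481711), .ofNat (nat_lit 304717), .ofNat (nat_lit 433760), .ofNat (nat_lit 348304), .ofNat (nat_lit 477347)⟩⟩, [⟨nat_lit 13, nat_lit 76, nat_lit 57, nat_lit 100, nat_lit 279089197⟩]⟩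
noncomputable def p080_l56 : Lf2 := ⟨nat_lit 1, nat_lit 20, [nat_lit 5, nat_lit 5, nat_lit 5, nat_lit 20], false, nat_lit 160, nat_lit 240, nat_lit 16, nat_lit 384, zbN0,
 nat_lit 0, nat_lit 0, nat_lit 0, nat_lit 0, nat_lit 0, nat_lit 0, nat_lit 0, nat_lit 0, nat_lit 0, nat_lit 0, nat_lit 0, nat_lit 0, nat_lit 0, nat_lit 0, nat_lit 0, nat_lit 0, nat_lit 0, nat_lit 0, [],
 C1.Rw.none, C1.Rw.none,
 zbF0, []⟩
noncomputable def p080_l57 : Lf2 := ⟨nat_lit 0, nat_lit 20, [nat_lit 5, nat_lit 5, nat_lit 5, nat_lit 20], true, nat_lit 160, nat_lit 200, nat_lit 16, nat_lit 360, ⟨nat_lit 0, nat_lit 1000, nat_lit 0, nat_lit 8, nat_lit 299, nat_lit 1000, nat_lit 144, nat_lit 0, nat_lit 0, nat_lit 0, nat_lit 0, nat_lit 0, nat_lit 38112549, nat_lit 22070638, nat_lit 6816813, nat_lit 4916348, true, true⟩,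
 nat_lit 0, nat_lit 0, nat_lit 0, nat_lit 4735, nat_lit 3464, nat_lit 0, nat_lit 0, nat_lit 0, nat_lit 0, nat_lit 0, nat_lit 0, nat_lit 0, nat_lit 0, nat_lit 0, nat_lit 0, nat_lit 250000, nat_lit 0, nat_lit 0, [(nat_lit 22, [(nat_lit 0, nat_lit 1000)])],
 ⟨p080_k26, nat_lit 0, nat_lit 0, nat_lit 76, nat_lit 0, nat_lit 0, [nat_lit 1568000001, nat_lit 1970800000, nat_lit 2712400000], [], [nat_lit 25211098577, nat_lit 26180951233, nat_lit 27455121275, nat_lit 28344795239, nat_lit 25993632937, nat_lit 26905914737, nat_lit 28107056206, nat_lit 28952414090], nat_lit 0, nat_lit 0, nat_lit 0, nat_lit 0, nat_lit 0, nat_lit 0, [], [nat_lit 34, nat_lit 40, nat_lit 40, nat_lit 80, nat_lit 7, nat_lit 260, nat_lit 50, nat_lit 7]⟩, C1.Rw.none,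
 ⟨nat_lit 3162, nat_lit 3873, ⟨.ofNat (nat_lit 693563), .ofNat (nat_lit 770989), .ofNat (nat_lit 737150), .ofNat (nat_lit 814576), .ofNat (nat_lit 682859), .ofNat (nat_lit 756003), .ofNat (nat_lit 727168), .ofNat (nat_lit 800312)⟩, ⟨.ofNat (nat_lit 304717), .ofNat (nat_lit 369239), .ofNat (nat_lit 348304), .ofNat (nat_lit 412825), .ofNat (nat_lit 306116), .ofNat (nat_lit 367069), .ofNat (nat_lit 350426), .ofNat (nat_lit 411379)⟩⟩, [⟨nat_lit 13, nat_lit 66, nat_lit 68, nat_lit 100, nat_lit 306889661⟩]⟩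
noncomputable def p080_l58 : Lf2 := ⟨nat_lit 0, nat_lit 20, [nat_lit 5, nat_lit 5, nat_lit 5, nat_lit 20], true, nat_lit 200, nat_lit 240, nat_lit 40, nat_lit 384, ⟨nat_lit 0, nat_lit 1000, nat_lit 0, nat_lit 8, nat_lit 290, nat_lit 1000, nat_lit 169, nat_lit 0, nat_lit 0, nat_lit 0, nat_lit 0, nat_lit 0, nat_lit 37578695, nat_lit 20755321, nat_lit 8665984, nat_lit 5116221, true, true⟩,
 nat_lit 0, nat_lit 0, nat_lit 0, nat_lit 5256, nat_lit 3561, nat_lit 0, nat_lit 0, nat_lit 0, nat_lit 0, nat_lit 0, nat_lit 0, nat_lit 0, nat_lit 0, nat_lit 0, nat_lit 0, nat_lit 250000, nat_lit 0, nat_lit 0, [(nat_lit 22, [(nat_lit 0, nat_lit 1000)])],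
 ⟨p080_k26, nat_lit 0, nat_lit 0, nat_lit 63, nat_lit 0, nat_lit 0, [nat_lit 1568000001, nat_lit 1970800000, nat_lit 2712400000], [], [nat_lit 25874950915, nat_lit 26801809124, nat_lit 26755115258, nat_lit 27680684206, nat_lit 26654283305, nat_lit 27535825292, nat_lit 27492946982, nat_lit 28359322234], nat_lit 0, nat_lit 0, nat_lit 0, nat_lit 0, nat_lit 0, nat_lit 0, [], [nat_lit 34, nat_lit 40, nat_lit 40, nat_lit 80, nat_lit 7, nat_lit 272, nat_lit 60, nat_lit 7]⟩, C1.Rw.none,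
 ⟨nat_lit 3162, nat_lit 3873, ⟨.ofNat (nat_lit 693563), .ofNat (nat_lit 725824), .ofNat (nat_lit 737150), .ofNat (nat_lit 769411), .ofNat (nat_lit 682859), .ofNat (nat_lit 713335), .ofNat (nat_lit 727168), .ofNat (nat_lit 757645)⟩, ⟨.ofNat (nat_lit 369239), .ofNat (nat_lit 433760), .ofNat (nat_lit 412825), .ofNat (nat_lit 477347), .ofNat (nat_lit 367069), .ofNat (nat_lit 428022), .ofNat (nat_lit 411379), .ofNat (nat_lit 472332)⟩⟩, [⟨nat_lit 4, nat_lit 100, nat_lit 67, nat_lit 88, nat_lit 47650864⟩]⟩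
noncomputable def p080_l59 : Lf2 := ⟨nat_lit 0, nat_lit 15, [nat_lit 30, nat_lit 5, nat_lit 5, nat_lit 20], true, nat_lit 200, nat_lit 240, nat_lit 56, nat_lit 368, ⟨nat_lit 0, nat_lit 1000, nat_lit 0, nat_lit 8, nat_lit 303, nat_lit 1000, nat_lit 164, nat_lit 0, nat_lit 0, nat_lit 0, nat_lit 0, nat_lit 0, nat_lit 36840152, nat_lit 21959740, nat_lit 8200108, nat_lit 5109002, true, true⟩,
 nat_lit 0, nat_lit 0, nat_lit 0, nat_lit 4276, nat_lit 3485, nat_lit 0, nat_lit 0, nat_lit 0, nat_lit 0, nat_lit 0, nat_lit 0, nat_lit 0, nat_lit 0, nat_lit 0, nat_lit 0, nat_lit 250000, nat_lit 0, nat_lit 0, [(nat_lit 22, [(nat_lit 0, nat_lit 1000)])],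
 ⟨p080_k24, nat_lit 0, nat_lit 0, nat_lit 69, nat_lit 0, nat_lit 0, [nat_lit 1568000001, nat_lit 1970800000, nat_lit 2712400000], [], [nat_lit 26840108326, nat_lit 27712277761, nat_lit 27712277761, nat_lit 28573937880, nat_lit 27567496086, nat_lit 28385212131, nat_lit 28385212131, nat_lit 29222316200], nat_lit 0, nat_lit 0, nat_lit 0, nat_lit 0, nat_lit 0, nat_lit 0, [], [nat_lit 34, nat_lit 40, nat_lit 40, nat_lit 80, nat_lit 7, nat_lit 272, nat_lit 60, nat_lit 7]⟩, C1.Rw.none,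
 ⟨nat_lit 3162, nat_lit 3873, ⟨.ofNat (nat_lit 725824), .ofNat (nat_lit 758085), .ofNat (nat_lit 769411), .ofNat (nat_lit 801671), .ofNat (nat_lit 713335), .ofNat (nat_lit 743812), .ofNat (nat_lit 757645), .ofNat (nat_lit 788122)⟩, ⟨.ofNat (nat_lit 369239), .ofNat (nat_lit 433760), .ofNat (nat_lit 391032), .ofNat (nat_lit 455554), .ofNat (nat_lit 367069), .ofNat (nat_lit 428022), .ofNat (nat_lit 389224), .ofNat (nat_lit 450177)⟩⟩, [⟨nat_lit 13, nat_lit 66, nat_lit 68, nat_lit 100, nat_lit 196148054⟩, ⟨nat_lit 4, nat_lit 100, nat_lit 67, nat_lit 84, nat_lit 150066966⟩]⟩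
noncomputable def p080_l60 : Lf2 := ⟨nat_lit 0, nat_lit 20, [nat_lit 5, nat_lit 5, nat_lit 5, nat_lit 20], true, nat_lit 200, nat_lit 240, nat_lit 56, nat_lit 368, ⟨nat_lit 0, nat_lit 1000, nat_lit 0, nat_lit 8, nat_lit 304, nat_lit 1000, nat_lit 165, nat_lit 0, nat_lit 0, nat_lit 0, nat_lit 0, nat_lit 0, nat_lit 36721310, nat_lit 22066405, nat_lit 8212285, nat_lit 5115010, true, true⟩,
 nat_lit 0, nat_lit 0, nat_lit 0, nat_lit 7006, nat_lit 3515, nat_lit 0, nat_lit 0, nat_lit 0, nat_lit 0, nat_lit 0, nat_lit 0, nat_lit 0, nat_lit 0, nat_lit 0, nat_lit 0, nat_lit 250000, nat_lit 0, nat_lit 0, [(nat_lit 22, [(nat_lit 0, nat_lit 1000)])],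
 ⟨p080_k26, nat_lit 0, nat_lit 0, nat_lit 66, nat_lit 0, nat_lit 0, [nat_lit 1568000001, nat_lit 1970800000, nat_lit 2712400000], [], [nat_lit 26806146676, nat_lit 27243603459, nat_lit 27693497690, nat_lit 28130879905, nat_lit 27532220916, nat_lit 27943617920, nat_lit 28374796910, nat_lit 28784737075], nat_lit 0, nat_lit 0, nat_lit 0, nat_lit 0, nat_lit 0, nat_lit 0, [], [nat_lit 34, nat_lit 40, nat_lit 40, nat_lit 80, nat_lit 7, nat_lit 272, nat_lit 60, nat_lit 7]⟩, C1.Rw.none,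
 ⟨nat_lit 3535, nat_lit 3873, ⟨.ofNat (nat_lit 725824), .ofNat (nat_lit 758085), .ofNat (nat_lit 769411), .ofNat (nat_lit 801671), .ofNat (nat_lit 719663), .ofNat (nat_lit 751044), .ofNat (nat_lit 763569), .ofNat (nat_lit 794949)⟩, ⟨.ofNat (nat_lit 369239), .ofNat (nat_lit 433760), .ofNat (nat_lit 391032), .ofNat (nat_lit 455554), .ofNat (nat_lit 368283), .ofNat (nat_lit 431044), .ofNat (nat_lit 390235), .ofNat (nat_lit 452997)⟩⟩, [⟨nat_lit 13, nat_lit 69, nat_lit 66, nat_lit 100, nat_lit 283020289⟩, ⟨nat_lit 4, nat_lit 100, nat_lit 70, nat_lit 85, nat_lit 137970284⟩]⟩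
noncomputable def p080_l61 : Lf2 := ⟨nat_lit 0, nat_lit 20, [nat_lit 5, nat_lit 5, nat_lit 5, nat_lit 20], true, nat_lit 200, nat_lit 240, nat_lit 56, nat_lit 368, ⟨nat_lit 0, nat_lit 1000, nat_lit 0, nat_lit 8, nat_lit 302, nat_lit 1000, nat_lit 164, nat_lit 0, nat_lit 0, nat_lit 0, nat_lit 0, nat_lit 0, nat_lit 36954813, nat_lit 21854057, nat_lit 8191130, nat_lit 5103387, true, true⟩,
 nat_lit 0, nat_lit 0, nat_lit 0, nat_lit 5364, nat_lit 3469, nat_lit 0, nat_lit 0, nat_lit 0, nat_lit 0, nat_lit 0, nat_lit 0, nat_lit 0, nat_lit 0, nat_lit 0, nat_lit 0, nat_lit 250000, nat_lit 0, nat_lit 0, [(nat_lit 22, [(nat_lit 0, nat_lit 1000)])],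
 ⟨p080_k30, nat_lit 0, nat_lit 0, nat_lit 69, nat_lit 0, nat_lit 0, [nat_lit 1568000001, nat_lit 1970800000, nat_lit 2712400000], [], [nat_lit 27293574156, nat_lit 27728927105, nat_lit 28143241604, nat_lit 28576964952, nat_lit 27994521957, nat_lit 28402734403, nat_lit 28798403445, nat_lit 29206535304], nat_lit 0, nat_lit 0, nat_lit 0, nat_lit 0, nat_lit 0, nat_lit 0, [], [nat_lit 34, nat_lit 40, nat_lit 40, nat_lit 80, nat_lit 7, nat_lit 272, nat_lit 60, nat_lit 7]⟩, C1.Rw.none,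
 ⟨nat_lit 3162, nat_lit 3536, ⟨.ofNat (nat_lit 719663), .ofNat (nat_lit 751044), .ofNat (nat_lit 763569), .ofNat (nat_lit 794949), .ofNat (nat_lit 713335), .ofNat (nat_lit 743812), .ofNat (nat_lit 757645), .ofNat (nat_lit 788122)⟩, ⟨.ofNat (nat_lit 368283), .ofNat (nat_lit 431044), .ofNat (nat_lit 390235), .ofNat (nat_lit 452997), .ofNat (nat_lit 367069), .ofNat (nat_lit 428022), .ofNat (nat_lit 389224), .ofNat (nat_lit 450177)⟩⟩, [⟨nat_lit 13, nat_lit 64, nat_lit 71, nat_lit 100, nat_lit 44411515⟩, ⟨nat_lit 13, nat_lit 68, nat_lit 61, nat_lit 100, nat_lit 241611856⟩, ⟨nat_lit 16, nat_lit 67, nat_lit 100, nat_lit 88, nat_lit 153074348⟩]⟩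
noncomputable def p080_l62 : Lf2 := ⟨nat_lit 0, nat_lit 18, [nat_lit 100, nat_lit 5, nat_lit 5, nat_lit 20], true, nat_lit 200, nat_lit 220, nat_lit 56, nat_lit 360, ⟨nat_lit 0, nat_lit 1000, nat_lit 0, nat_lit 8, nat_lit 303, nat_lit 1000, nat_lit 167, nat_lit 0, nat_lit 0, nat_lit 0, nat_lit 0, nat_lit 0, nat_lit 36720288, nat_lit 21903127, nat_lit 8376585, nat_lit 5129903, true, true⟩,
 nat_lit 0, nat_lit 0, nat_lit 0, nat_lit 4875, nat_lit 3492, nat_lit 0, nat_lit 0, nat_lit 0, nat_lit 0, nat_lit 0, nat_lit 0, nat_lit 0, nat_lit 0, nat_lit 0, nat_lit 0, nat_lit 250000, nat_lit 0, nat_lit 0, [(nat_lit 22, [(nat_lit 0, nat_lit 1000)])],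
 ⟨p080_k32, nat_lit 0, nat_lit 0, nat_lit 69, nat_lit 0, nat_lit 0, [nat_lit 1568000001, nat_lit 1970800000, nat_lit 2712400000], [], [nat_lit 26832183941, nat_lit 27704993673, nat_lit 27704993673, nat_lit 28572613536, nat_lit 27195724577, nat_lit 28041269905, nat_lit 28041269905, nat_lit 28891601068], nat_lit 0, nat_lit 0, nat_lit 0, nat_lit 0, nat_lit 0, nat_lit 0, [], [nat_lit 34, nat_lit 40, nat_lit 40, nat_lit 80, nat_lit 7, nat_lit 272, nat_lit 60, nat_lit 7]⟩, C1.Rw.none,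
 ⟨nat_lit 3162, nat_lit 3873, ⟨.ofNat (nat_lit 725824), .ofNat (nat_lit 758085), .ofNat (nat_lit 769411), .ofNat (nat_lit 801671), .ofNat (nat_lit 713335), .ofNat (nat_lit 743812), .ofNat (nat_lit 757645), .ofNat (nat_lit 788122)⟩, ⟨.ofNat (nat_lit 391032), .ofNat (nat_lit 423293), .ofNat (nat_lit 412825), .ofNat (nat_lit 445086), .ofNat (nat_lit 389224), .ofNat (nat_lit 419701), .ofNat (nat_lit 411379), .ofNat (nat_lit 441856)⟩⟩, [⟨nat_lit 13, nat_lit 66, nat_lit 68, nat_lit 100, nat_lit 312505188⟩]⟩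
noncomputable def p080_l63 : Lf2 := ⟨nat_lit 0, nat_lit 18, [nat_lit 100, nat_lit 5, nat_lit 5, nat_lit 20], true, nat_lit 220, nat_lit 240, nat_lit 68, nat_lit 240, ⟨nat_lit 0, nat_lit 1000, nat_lit 0, nat_lit 8, nat_lit 303, nat_lit 1000, nat_lit 179, nat_lit 0, nat_lit 0, nat_lit 0, nat_lit 0, nat_lit 0, nat_lit 36117259, nat_lit 21615515, nat_lit 9267226, nat_lit 5229405, true, true⟩,
 nat_lit 0, nat_lit 0, nat_lit 0, nat_lit 4869, nat_lit 3485, nat_lit 0, nat_lit 0, nat_lit 0, nat_lit 0, nat_lit 0, nat_lit 0, nat_lit 0, nat_lit 0, nat_lit 0, nat_lit 0, nat_lit 250000, nat_lit 0, nat_lit 0, [(nat_lit 22, [(nat_lit 0, nat_lit 1000)])],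
 ⟨p080_k32, nat_lit 0, nat_lit 0, nat_lit 67, nat_lit 0, nat_lit 0, [nat_lit 1568000001, nat_lit 1970800000, nat_lit 2712400000], [], [nat_lit 27203802206, nat_lit 28048744946, nat_lit 28048744946, nat_lit 28888174320, nat_lit 27567496086, nat_lit 28385212131, nat_lit 28385212131, nat_lit 29222316200], nat_lit 0, nat_lit 0, nat_lit 0, nat_lit 0, nat_lit 0, nat_lit 0, [], [nat_lit 34, nat_lit 40, nat_lit 40, nat_lit 80, nat_lit 7, nat_lit 272, nat_lit 60, nat_lit 7]⟩, C1.Rw.none,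
 ⟨nat_lit 3162, nat_lit 3873, ⟨.ofNat (nat_lit 725824), .ofNat (nat_lit 758085), .ofNat (nat_lit 769411), .ofNat (nat_lit 801671), .ofNat (nat_lit 713335), .ofNat (nat_lit 743812), .ofNat (nat_lit 757645), .ofNat (nat_lit 788122)⟩, ⟨.ofNat (nat_lit 423293), .ofNat (nat_lit 455554), .ofNat (nat_lit 445086), .ofNat (nat_lit 477347), .ofNat (nat_lit 419701), .ofNat (nat_lit 450177), .ofNat (nat_lit 441856), .ofNat (nat_lit 472332)⟩⟩, [⟨nat_lit 13, nat_lit 66, nat_lit 68, nat_lit 100, nat_lit 310349366⟩]⟩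
noncomputable def p080_l64 : Lf2 := ⟨nat_lit 0, nat_lit 18, [nat_lit 100, nat_lit 5, nat_lit 5, nat_lit 20], true, nat_lit 220, nat_lit 240, nat_lit 240, nat_lit 368, ⟨nat_lit 0, nat_lit 1000, nat_lit 0, nat_lit 8, nat_lit 303, nat_lit 1000, nat_lit 179, nat_lit 0, nat_lit 0, nat_lit 0, nat_lit 0, nat_lit 0, nat_lit 36117259, nat_lit 21615515, nat_lit 9267226, nat_lit 5229405, true, true⟩,
 nat_lit 0, nat_lit 0, nat_lit 0, nat_lit 4869, nat_lit 3485, nat_lit 0, nat_lit 0, nat_lit 0, nat_lit 0, nat_lit 0, nat_lit 0, nat_lit 0, nat_lit 0, nat_lit 0, nat_lit 0, nat_lit 250000, nat_lit 0, nat_lit 0, [(nat_lit 22, [(nat_lit 0, nat_lit 1000)])],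
 ⟨p080_k32, nat_lit 0, nat_lit 0, nat_lit 67, nat_lit 0, nat_lit 0, [nat_lit 1568000001, nat_lit 1970800000, nat_lit 2712400000], [], [nat_lit 27203802206, nat_lit 28048744946, nat_lit 28048744946, nat_lit 28888174320, nat_lit 27567496086, nat_lit 28385212131, nat_lit 28385212131, nat_lit 29222316200], nat_lit 0, nat_lit 0, nat_lit 0, nat_lit 0, nat_lit 0, nat_lit 0, [], [nat_lit 34, nat_lit 40, nat_lit 40, nat_lit 80, nat_lit 7, nat_lit 272, nat_lit 60, nat_lit 7]⟩, C1.Rw.none,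
 ⟨nat_lit 3162, nat_lit 3873, ⟨.ofNat (nat_lit 725824), .ofNat (nat_lit 758085), .ofNat (nat_lit 769411), .ofNat (nat_lit 801671), .ofNat (nat_lit 713335), .ofNat (nat_lit 743812), .ofNat (nat_lit 757645), .ofNat (nat_lit 788122)⟩, ⟨.ofNat (nat_lit 423293), .ofNat (nat_lit 455554), .ofNat (nat_lit 445086), .ofNat (nat_lit 477347), .ofNat (nat_lit 419701), .ofNat (nat_lit 450177), .ofNat (nat_lit 441856), .ofNat (nat_lit 472332)⟩⟩, [⟨nat_lit 13, nat_lit 66, nat_lit 68, nat_lit 100, nat_lit 310349366⟩]⟩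
noncomputable def p080_l65 : Lf2 := ⟨nat_lit 1, nat_lit 20, [nat_lit 5, nat_lit 5, nat_lit 5, nat_lit 20], false, nat_lit 200, nat_lit 240, nat_lit 56, nat_lit 368, zbN0,
 nat_lit 0, nat_lit 0, nat_lit 0, nat_lit 0, nat_lit 0, nat_lit 0, nat_lit 0, nat_lit 0, nat_lit 0, nat_lit 0, nat_lit 0, nat_lit 0, nat_lit 0, nat_lit 0, nat_lit 0, nat_lit 0, nat_lit 0, nat_lit 0, [],
 C1.Rw.none, C1.Rw.none,
 zbF0, []⟩
noncomputable def p080_l66 : Lf2 := ⟨nat_lit 0, nat_lit 20, [nat_lit 5, nat_lit 5, nat_lit 5, nat_lit 20], true, nat_lit 200, nat_lit 240, nat_lit 80, nat_lit 352, ⟨nat_lit 0, nat_lit 1000, nat_lit 0, nat_lit 9, nat_lit 312, nat_lit 1000, nat_lit 169, nat_lit 0, nat_lit 0, nat_lit 0, nat_lit 0, nat_lit 0, nat_lit 35975677, nat_lit 22626890, nat_lit 8397433, nat_lit 5161101, true, true⟩,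
 nat_lit 0, nat_lit 0, nat_lit 0, nat_lit 5297, nat_lit 3485, nat_lit 0, nat_lit 0, nat_lit 0, nat_lit 0, nat_lit 0, nat_lit 0, nat_lit 0, nat_lit 0, nat_lit 0, nat_lit 0, nat_lit 250000, nat_lit 0, nat_lit 0, [(nat_lit 22, [(nat_lit 0, nat_lit 1000)])],
 ⟨p080_k26, nat_lit 0, nat_lit 0, nat_lit 71, nat_lit 0, nat_lit 0, [nat_lit 1568000001, nat_lit 1970800000, nat_lit 2712400000], [], [nat_lit 27712277761, nat_lit 28573937880, nat_lit 28095493767, nat_lit 28975462892, nat_lit 28385212131, nat_lit 29222316200, nat_lit 28754700107, nat_lit 29625318737], nat_lit 0, nat_lit 0, nat_lit 0, nat_lit 0, nat_lit 0, nat_lit 0, [], [nat_lit 34, nat_lit 40, nat_lit 40, nat_lit 80, nat_lit 7, nat_lit 272, nat_lit 60, nat_lit 7]⟩, C1.Rw.none,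
 ⟨nat_lit 3162, nat_lit 3873, ⟨.ofNat (nat_lit 758085), .ofNat (nat_lit 770989), .ofNat (nat_lit 801671), .ofNat (nat_lit 814576), .ofNat (nat_lit 743812), .ofNat (nat_lit 756003), .ofNat (nat_lit 788122), .ofNat (nat_lit 800312)⟩, ⟨.ofNat (nat_lit 369239), .ofNat (nat_lit 433760), .ofNat (nat_lit 412825), .ofNat (nat_lit 477347), .ofNat (nat_lit 367069), .ofNat (nat_lit 428022), .ofNat (nat_lit 411379), .ofNat (nat_lit 472332)⟩⟩, [⟨nat_lit 13, nat_lit 66, nat_lit 68, nat_lit 100, nat_lit 377311391⟩, ⟨nat_lit 4, nat_lit 100, nat_lit 67, nat_lit 88, nat_lit 46415540⟩]⟩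
noncomputable def p080_l67 : Lf2 := ⟨nat_lit 0, nat_lit 15, [nat_lit 30, nat_lit 5, nat_lit 5, nat_lit 20], true, nat_lit 240, nat_lit 300, nat_lit 64, nat_lit 384, ⟨nat_lit 0, nat_lit 1000, nat_lit 0, nat_lit 8, nat_lit 301, nat_lit 1000, nat_lit 203, nat_lit 0, nat_lit 0, nat_lit 0, nat_lit 0, nat_lit 0, nat_lit 35082007, nat_lit 20895210, nat_lit 11022783, nat_lit 5392757, true, true⟩,
 nat_lit 0, nat_lit 0, nat_lit 0, nat_lit 10706, nat_lit 3668, nat_lit 0, nat_lit 0, nat_lit 0, nat_lit 0, nat_lit 0, nat_lit 0, nat_lit 0, nat_lit 0, nat_lit 0, nat_lit 0, nat_lit 250000, nat_lit 0, nat_lit 0, [(nat_lit 19, [(nat_lit 0, nat_lit 1000)])],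
 ⟨p080_k23, nat_lit 0, nat_lit 0, nat_lit 67, nat_lit 0, nat_lit 0, [nat_lit 1542400001, nat_lit 2190400000, nat_lit 2901600000], [], [nat_lit 25871957184, nat_lit 26791487240, nat_lit 28303227977, nat_lit 29108970724, nat_lit 27830313480, nat_lit 28644541622, nat_lit 30086567401, nat_lit 30898927008], nat_lit 0, nat_lit 0, nat_lit 0, nat_lit 0, nat_lit 0, nat_lit 0, [], [nat_lit 34, nat_lit 40, nat_lit 40, nat_lit 80, nat_lit 7, nat_lit 203, nat_lit 0, nat_lit 5]⟩, C1.Rw.none,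
 ⟨nat_lit 3872, nat_lit 4473, ⟨.ofNat (nat_lit 703933), .ofNat (nat_lit 792305), .ofNat (nat_lit 725499), .ofNat (nat_lit 813871), .ofNat (nat_lit 693563), .ofNat (nat_lit 777441), .ofNat (nat_lit 715356), .ofNat (nat_lit 799235)⟩, ⟨.ofNat (nat_lit 438578), .ofNat (nat_lit 540545), .ofNat (nat_lit 481711), .ofNat (nat_lit 583678), .ofNat (nat_lit 433760), .ofNat (nat_lit 530543), .ofNat (nat_lit 477347), .ofNat (nat_lit 574129)⟩⟩, [⟨nat_lit 13, nat_lit 76, nat_lit 61, nat_lit 100, nat_lit 265771822⟩, ⟨nat_lit 4, nat_lit 100, nat_lit 81, nat_lit 92, nat_lit 213496598⟩]⟩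
noncomputable def p080_l68 : Lf2 := ⟨nat_lit 0, nat_lit 15, [nat_lit 30, nat_lit 5, nat_lit 5, nat_lit 20], false, nat_lit 240, nat_lit 300, nat_lit 64, nat_lit 376, ⟨nat_lit 627, nat_lit 373, nat_lit 0, nat_lit 8, nat_lit 314, nat_lit 373, nat_lit 203, nat_lit 0, nat_lit 0, nat_lit 0, nat_lit 0, nat_lit 0, nat_lit 34228586, nat_lit 21955579, nat_lit 10815835, nat_lit 5413508, true, true⟩,
 nat_lit 0, nat_lit 0, nat_lit 11193, nat_lit 0, nat_lit 4810, nat_lit 5353, nat_lit 0, nat_lit 0, nat_lit 0, nat_lit 532, nat_lit 0, nat_lit 0, nat_lit 0, nat_lit 0, nat_lit 0, nat_lit 93250, nat_lit 0, nat_lit 0, [(nat_lit 19, [(nat_lit 0, nat_lit 373)])],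
 ⟨p080_k23, nat_lit 0, nat_lit 0, nat_lit 70, nat_lit 0, nat_lit 0, [nat_lit 1849379200, nat_lit 3756395200, nat_lit 6078232800], [], [nat_lit 26744630480, nat_lit 27773840500, nat_lit 30140751121, nat_lit 30998652337, nat_lit 28838567300, nat_lit 29738995315, nat_lit 31924438617, nat_lit 32784358371], nat_lit 0, nat_lit 0, nat_lit 0, nat_lit 0, nat_lit 0, nat_lit 0, [], [nat_lit 34, nat_lit 40, nat_lit 40, nat_lit 80, nat_lit 7, nat_lit 203, nat_lit 0, nat_lit 5]⟩, ⟨p080_k33, nat_lit 0, nat_lit 0, nat_lit 393, nat_lit 0, nat_lit 304427, [nat_lit 3918750000, nat_lit 6170934000, nat_lit 8814366000], [], [nat_lit 22280717491, nat_lit 22403669064, nat_lit 24240699450, nat_lit 24278136882, nat_lit 22416901245, nat_lit 22410206243, nat_lit 23652022010, nat_lit 23594739396], nat_lit 1271250, nat_lit 1271250, nat_lit 1271250, nat_lit 1271250, nat_lit 382400, nat_lit 2773100, [nat_lit 1412500, nat_lit 1271250, nat_lit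 1271250], [nat_lit 60, nat_lit 40, nat_lit 40, nat_lit 80, nat_lit 32, nat_lit 483, nat_lit 250, nat_lit 11]⟩,
 ⟨nat_lit 3872, nat_lit 4473, ⟨.ofNat (nat_lit 725499), .ofNat (nat_lit 834264), .ofNat (nat_lit 747053), .ofNat (nat_lit 855824), .ofNat (nat_lit 715356), .ofNat (nat_lit 818591), .ofNat (nat_lit 737137), .ofNat (nat_lit 840378)⟩, ⟨.ofNat (nat_lit 438578), .ofNat (nat_lit 540545), .ofNat (nat_lit 481711), .ofNat (nat_lit 583678), .ofNat (nat_lit 433760), .ofNat (nat_lit 530543), .ofNat (nat_lit 477347), .ofNat (nat_lit 574129)⟩⟩, [⟨nat_lit 13, nat_lit 77, nat_lit 53, nat_lit 100, nat_lit 85499380⟩, ⟨nat_lit 4, nat_lit 100, nat_lit 81, nat_lit 92, nat_lit 547040507⟩, ⟨nat_lit 7, nat_lit 63, nat_lit 100, nat_lit 88, nat_lit 140463342⟩]⟩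
noncomputable def p080_l69 : Lf2 := ⟨nat_lit 1, nat_lit 20, [nat_lit 5, nat_lit 5, nat_lit 5, nat_lit 20], false, nat_lit 240, nat_lit 300, nat_lit 64, nat_lit 384, zbN0,
 nat_lit 0, nat_lit 0, nat_lit 0, nat_lit 0, nat_lit 0, nat_lit 0, nat_lit 0, nat_lit 0, nat_lit 0, nat_lit 0, nat_lit 0, nat_lit 0, nat_lit 0, nat_lit 0, nat_lit 0, nat_lit 0, nat_lit 0, nat_lit 0, [],
 C1.Rw.none, C1.Rw.none,
 zbF0, []⟩
noncomputable def p080_l70 : Lf2 := ⟨nat_lit 0, nat_lit 18, [nat_lit 100, nat_lit 5, nat_lit 5, nat_lit 20], true, nat_lit 240, nat_lit 276, nat_lit 64, nat_lit 384, ⟨nat_lit 0, nat_lit 1000, nat_lit 0, nat_lit 8, nat_lit 293, nat_lit 1000, nat_lit 193, nat_lit 0, nat_lit 0, nat_lit 0, nat_lit 0, nat_lit 0, nat_lit 36102964, nat_lit 20482242, nat_lit 10414794, nat_lit 5310666, true, true⟩,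
 nat_lit 0, nat_lit 0, nat_lit 0, nat_lit 9730, nat_lit 3477, nat_lit 0, nat_lit 0, nat_lit 0, nat_lit 0, nat_lit 0, nat_lit 0, nat_lit 0, nat_lit 0, nat_lit 0, nat_lit 0, nat_lit 250000, nat_lit 0, nat_lit 0, [(nat_lit 22, [(nat_lit 0, nat_lit 1000)])],
 ⟨p080_k32, nat_lit 0, nat_lit 0, nat_lit 64, nat_lit 0, nat_lit 0, [nat_lit 1568000001, nat_lit 1970800000, nat_lit 2712400000], [], [nat_lit 26759832329, nat_lit 27187764325, nat_lit 28393973267, nat_lit 28796026685, nat_lit 27815272440, nat_lit 28215018033, nat_lit 29388450359, nat_lit 29822733884], nat_lit 0, nat_lit 0, nat_lit 0, nat_lit 0, nat_lit 0, nat_lit 0, [], [nat_lit 34, nat_lit 40, nat_lit 40, nat_lit 80, nat_lit 7, nat_lit 203, nat_lit 0, nat_lit 5]⟩, C1.Rw.none,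
 ⟨nat_lit 3535, nat_lit 3873, ⟨.ofNat (nat_lit 693563), .ofNat (nat_lit 758085), .ofNat (nat_lit 715356), .ofNat (nat_lit 779878), .ofNat (nat_lit 688283), .ofNat (nat_lit 751044), .ofNat (nat_lit 710235), .ofNat (nat_lit 772997)⟩, ⟨.ofNat (nat_lit 433760), .ofNat (nat_lit 491830), .ofNat (nat_lit 477347), .ofNat (nat_lit 535416), .ofNat (nat_lit 431044), .ofNat (nat_lit 487529), .ofNat (nat_lit 474949), .ofNat (nat_lit 531435)⟩⟩, [⟨nat_lit 13, nat_lit 69, nat_lit 69, nat_lit 100, nat_lit 272145574⟩, ⟨nat_lit 16, nat_lit 77, nat_lit 100, nat_lit 99, nat_lit 199904915⟩]⟩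
noncomputable def p080_l71 : Lf2 := ⟨nat_lit 0, nat_lit 18, [nat_lit 100, nat_lit 5, nat_lit 5, nat_lit 20], false, nat_lit 240, nat_lit 276, nat_lit 64, nat_lit 376, ⟨nat_lit 121, nat_lit 879, nat_lit 0, nat_lit 8, nat_lit 305, nat_lit 879, nat_lit 193, nat_lit 0, nat_lit 0, nat_lit 0, nat_lit 0, nat_lit 0, nat_lit 35310180, nat_lit 21446765, nat_lit 10243055, nat_lit 5333858, true, true⟩,
 nat_lit 0, nat_lit 0, nat_lit 2210, nat_lit 4148, nat_lit 3698, nat_lit 1056, nat_lit 0, nat_lit 0, nat_lit 0, nat_lit 107, nat_lit 0, nat_lit 0, nat_lit 0, nat_lit 0, nat_lit 0, nat_lit 219750, nat_lit 0, nat_lit 0, [(nat_lit 22, [(nat_lit 0, nat_lit 879)])],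
 ⟨p080_k32, nat_lit 0, nat_lit 0, nat_lit 66, nat_lit 0, nat_lit 0, [nat_lit 1624144001, nat_lit 2299581200, nat_lit 3348327600], [], [nat_lit 26885336340, nat_lit 27346541998, nat_lit 29020616401, nat_lit 29428976114, nat_lit 27998935877, nat_lit 28428365916, nat_lit 30011712614, nat_lit 30445589406], nat_lit 0, nat_lit 0, nat_lit 0, nat_lit 0, nat_lit 0, nat_lit 0, [], [nat_lit 34, nat_lit 40, nat_lit 40, nat_lit 80, nat_lit 7, nat_lit 203, nat_lit 0, nat_lit 5]⟩, ⟨p080_k34, nat_lit 0, nat_lit 0, nat_lit 479, nat_lit 0, nat_lit 537116, [nat_lit 756250000, nat_lit 1190882000, nat_lit 1701018000], [], [nat_lit 4228643722, nat_lit 4251775169, nat_lit 4507283804, nat_lit 4517892070, nat_lit 4270435437, nat_lit 4268122601, nat_lit 4443238228, nat_lit 4433944189], nat_lit 1271250, nat_lit 1271250, nat_lit 1271250, nat_lit 1271250, nat_lit 382400, nat_lit 2773100, [nat_lit 1412500, nat_lit 1271250, nat_lit 1271250],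 [nat_lit 60, nat_lit 40, nat_lit 40, nat_lit 80, nat_lit 32, nat_lit 483, nat_lit 250, nat_lit 11]⟩,
 ⟨nat_lit 3535, nat_lit 3873, ⟨.ofNat (nat_lit 715356), .ofNat (nat_lit 792782), .ofNat (nat_lit 737150), .ofNat (nat_lit 814576), .ofNat (nat_lit 710235), .ofNat (nat_lit 785549), .ofNat (nat_lit 732188), .ofNat (nat_lit 807502)⟩, ⟨.ofNat (nat_lit 433760), .ofNat (nat_lit 491830), .ofNat (nat_lit 477347), .ofNat (nat_lit 535416), .ofNat (nat_lit 431044), .ofNat (nat_lit 487529), .ofNat (nat_lit 474949), .ofNat (nat_lit 531435)⟩⟩, [⟨nat_lit 13, nat_lit 70, nat_lit 62, nat_lit 100, nat_lit 228941474⟩, ⟨nat_lit 16, nat_lit 71, nat_lit 100, nat_lit 89, nat_lit 283977940⟩, ⟨nat_lit 7, nat_lit 63, nat_lit 100, nat_lit 88, nat_lit 27928048⟩]⟩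
noncomputable def p080_l72 : Lf2 := ⟨nat_lit 1, nat_lit 20, [nat_lit 5, nat_lit 5, nat_lit 5, nat_lit 20], false, nat_lit 240, nat_lit 276, nat_lit 64, nat_lit 384, zbN0,
 nat_lit 0, nat_lit 0, nat_lit 0, nat_lit 0, nat_lit 0, nat_lit 0, nat_lit 0, nat_lit 0, nat_lit 0, nat_lit 0, nat_lit 0, nat_lit 0, nat_lit 0, nat_lit 0, nat_lit 0, nat_lit 0, nat_lit 0, nat_lit 0, [],
 C1.Rw.none, C1.Rw.none,
 zbF0, []⟩
noncomputable def p080_l73 : Lf2 := ⟨nat_lit 0, nat_lit 20, [nat_lit 5, nat_lit 5, nat_lit 5, nat_lit 20], true, nat_lit 240, nat_lit 264, nat_lit 64, nat_lit 384, ⟨nat_lit 0, nat_lit 1000, nat_lit 0, nat_lit 8, nat_lit 295, nat_lit 1000, nat_lit 188, nat_lit 0, nat_lit 0, nat_lit 0, nat_lit 0, nat_lit 0, nat_lit 36222889, nat_lit 20767047, nat_lit 10010064, nat_lit 5278913, true, true⟩,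
 nat_lit 0, nat_lit 0, nat_lit 0, nat_lit 5369, nat_lit 3454, nat_lit 0, nat_lit 0, nat_lit 0, nat_lit 0, nat_lit 0, nat_lit 0, nat_lit 0, nat_lit 0, nat_lit 0, nat_lit 0, nat_lit 250000, nat_lit 0, nat_lit 0, [(nat_lit 22, [(nat_lit 0, nat_lit 1000)])],
 ⟨p080_k30, nat_lit 0, nat_lit 0, nat_lit 66, nat_lit 0, nat_lit 0, [nat_lit 1568000001, nat_lit 1970800000, nat_lit 2712400000], [], [nat_lit 27215644649, nat_lit 27642556641, nat_lit 28807463979, nat_lit 29210402064, nat_lit 27899744859, nat_lit 28307953380, nat_lit 29441427972, nat_lit 29885009040], nat_lit 0, nat_lit 0, nat_lit 0, nat_lit 0, nat_lit 0, nat_lit 0, [], [nat_lit 34, nat_lit 40, nat_lit 40, nat_lit 80, nat_lit 7, nat_lit 203, nat_lit 0, nat_lit 4]⟩, C1.Rw.none,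
 ⟨nat_lit 3162, nat_lit 3536, ⟨.ofNat (nat_lit 688283), .ofNat (nat_lit 751044), .ofNat (nat_lit 732188), .ofNat (nat_lit 794949), .ofNat (nat_lit 682859), .ofNat (nat_lit 743812), .ofNat (nat_lit 727168), .ofNat (nat_lit 788122)⟩, ⟨.ofNat (nat_lit 431044), .ofNat (nat_lit 468701), .ofNat (nat_lit 474949), .ofNat (nat_lit 512606), .ofNat (nat_lit 428022), .ofNat (nat_lit 464594), .ofNat (nat_lit 472332), .ofNat (nat_lit 508904)⟩⟩, [⟨nat_lit 13, nat_lit 68, nat_lit 61, nat_lit 100, nat_lit 265912393⟩, ⟨nat_lit 16, nat_lit 69, nat_lit 100, nat_lit 96, nat_lit 215125653⟩]⟩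
noncomputable def b_V_800_500_20_15 : St := ⟨true, nat_lit 0, nat_lit 1, nat_lit 1, nat_lit 120, nat_lit 320, nat_lit 360, nat_lit 200, nat_lit 240, nat_lit 40, nat_lit 384, nat_lit 80, nat_lit 120, nat_lit 160, nat_lit 300, nat_lit 0, nat_lit 384, nat_lit 40, nat_lit 80, nat_lit 0, nat_lit 0, nat_lit 0, nat_lit 0⟩
theorem d_V_800_500_20_15 (h : EB TB.env) : Dead b_V_800_500_20_15 := chkB_sound0 h (T :=
(.spl (nat_lit 2) (nat_lit 240)
(.spl (nat_lit 2) (nat_lit 160)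
(.leaf p080_l50)
(.leaf p080_l51))
(.spl (nat_lit 2) (nat_lit 320)
(.spl (nat_lit 0) (nat_lit 340)
(.leaf p080_l52)
(.trX (nat_lit 16) (nat_lit 77) (nat_lit 100) (nat_lit 99) (nat_lit 276) (.leaf p080_l53)))
(.trZ (nat_lit 9) (nat_lit 100) (nat_lit 82) (nat_lit 44) (nat_lit 16) (.spl (nat_lit 4) (nat_lit 240)
(.spl (nat_lit 0) (nat_lit 340)
(.spl (nat_lit 6) (nat_lit 60)
(.spl (nat_lit 2) (nat_lit 360)
(.leaf p080_l54)
(.trZ (nat_lit 9) (nat_lit 100) (nat_lit 61) (nat_lit 68) (nat_lit 48) (.trX (nat_lit 22) (nat_lit 61) (nat_lit 68) (nat_lit 100) (nat_lit 352) (.leaf p080_l55))))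
(.leaf p080_l56))
(.trX (nat_lit 13) (nat_lit 73) (nat_lit 55) (nat_lit 100) (nat_lit 368) (.spl (nat_lit 4) (nat_lit 200)
(.trX (nat_lit 22) (nat_lit 80) (nat_lit 60) (nat_lit 100) (nat_lit 360) (.leaf p080_l57))
(.trZ (nat_lit 9) (nat_lit 100) (nat_lit 80) (nat_lit 60) (nat_lit 40) (.spl (nat_lit 2) (nat_lit 340)
(.leaf p080_l58)
(.trZ (nat_lit 9) (nat_lit 100) (nat_lit 71) (nat_lit 70) (nat_lit 56) (.trX (nat_lit 22) (nat_lit 73) (nat_lit 55) (nat_lit 100) (nat_lit 368) (.spl (nat_lit 2) (nat_lit 360)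
(.spl (nat_lit 3) (nat_lit 100)
(.spl (nat_lit 6) (nat_lit 60)
(.leaf p080_l59)
(.spl (nat_lit 0) (nat_lit 350)
(.leaf p080_l60)
(.leaf p080_l61)))
(.spl (nat_lit 6) (nat_lit 72)
(.spl (nat_lit 4) (nat_lit 220)
(.trX (nat_lit 22) (nat_lit 72) (nat_lit 63) (nat_lit 100) (nat_lit 360) (.leaf p080_l62))
(.trZ (nat_lit 9) (nat_lit 100) (nat_lit 72) (nat_lit 77) (nat_lit 68) (.spl (nat_lit 5) (nat_lit 240)
(.leaf p080_l63)
(.leaf p080_l64))))
(.leaf p080_l65)))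
(.trZ (nat_lit 9) (nat_lit 100) (nat_lit 60) (nat_lit 80) (nat_lit 80) (.trX (nat_lit 22) (nat_lit 61) (nat_lit 68) (nat_lit 100) (nat_lit 352) (.leaf p080_l66)))))))))))
(.trZ (nat_lit 9) (nat_lit 100) (nat_lit 82) (nat_lit 76) (nat_lit 64) (.spl (nat_lit 0) (nat_lit 340)
(.spl (nat_lit 6) (nat_lit 60)
(.spl (nat_lit 1) (nat_lit 220)
(.trX (nat_lit 13) (nat_lit 80) (nat_lit 52) (nat_lit 100) (nat_lit 372) (.leaf p080_l67))
(.trX (nat_lit 19) (nat_lit 100) (nat_lit 49) (nat_lit 92) (nat_lit 376) (.leaf p080_l68)))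
(.leaf p080_l69))
(.trX (nat_lit 13) (nat_lit 73) (nat_lit 55) (nat_lit 100) (nat_lit 368) (.trX (nat_lit 16) (nat_lit 77) (nat_lit 100) (nat_lit 99) (nat_lit 276) (.spl (nat_lit 0) (nat_lit 350)
(.spl (nat_lit 6) (nat_lit 72)
(.spl (nat_lit 1) (nat_lit 220)
(.trX (nat_lit 13) (nat_lit 72) (nat_lit 63) (nat_lit 100) (nat_lit 360) (.leaf p080_l70))
(.trX (nat_lit 19) (nat_lit 100) (nat_lit 49) (nat_lit 92) (nat_lit 376) (.leaf p080_l71)))
(.leaf p080_l72))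
(.trX (nat_lit 13) (nat_lit 68) (nat_lit 61) (nat_lit 100) (nat_lit 360) (.trX (nat_lit 16) (nat_lit 69) (nat_lit 100) (nat_lit 96) (nat_lit 264) (.leaf p080_l73))))))))))))) (by decide +kernel)
noncomputable def p080_l74 : Lf2 := ⟨nat_lit 0, nat_lit 20, [nat_lit 5, nat_lit 5, nat_lit 5, nat_lit 20], true, nat_lit 0, nat_lit 300, nat_lit 0, nat_lit 384, ⟨nat_lit 0, nat_lit 1000, nat_lit 0, nat_lit 5, nat_lit 217, nat_lit 1000, nat_lit 111, nat_lit 0, nat_lit 0, nat_lit 0, nat_lit 0, nat_lit 0, nat_lit 0, nat_lit 0, nat_lit 0, nat_lit 5000000, false, true⟩,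
 nat_lit 0, nat_lit 0, nat_lit 0, nat_lit 9962, nat_lit 3456, nat_lit 0, nat_lit 77, nat_lit 0, nat_lit 0, nat_lit 0, nat_lit 0, nat_lit 0, nat_lit 0, nat_lit 0, nat_lit 0, nat_lit 460000, nat_lit 0, nat_lit 0, [(nat_lit 19, [(nat_lit 1, nat_lit 900), (nat_lit 2, nat_lit 100)])],
 ⟨p080_k31, nat_lit 0, nat_lit 0, nat_lit 288, nat_lit 0, nat_lit 0, [nat_lit 1428186667, nat_lit 1938933334, nat_lit 1333520000], [], [nat_lit 22376060135, nat_lit 23657956375, nat_lit 30322747665, nat_lit 31127826645, nat_lit 25869788674, nat_lit 26680340158, nat_lit 30758011487, nat_lit 31236173288], nat_lit 0, nat_lit 0, nat_lit 0, nat_lit 0, nat_lit 0, nat_lit 0, [], [nat_lit 27, nat_lit 40, nat_lit 40, nat_lit 80, nat_lit 13, nat_lit 401, nat_lit 175, nat_lit 12]⟩, C1.Rw.none,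
 ⟨nat_lit 3872, nat_lit 4473, ⟨.ofNat (nat_lit 228056), .ofNat (nat_lit 812698), .ofNat (nat_lit 271153), .ofNat (nat_lit 855824), .ofNat (nat_lit 241882), .ofNat (nat_lit 796798), .ofNat (nat_lit 285433), .ofNat (nat_lit 840378)⟩, ⟨.ofNat (nat_lit 0), .ofNat (nat_lit 540545), .ofNat (nat_lit 0), .ofNat (nat_lit 583678), .ofNat (nat_lit 0), .ofNat (nat_lit 530543), .ofNat (nat_lit 0), .ofNat (nat_lit 574129)⟩⟩, [⟨nat_lit 13, nat_lit 76, nat_lit 57, nat_lit 100, nat_lit 152134471⟩, ⟨nat_lit 4, nat_lit 100, nat_lit 81, nat_lit 92, nat_lit 78692459⟩]⟩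
noncomputable def p080_l75 : Lf2 := ⟨nat_lit 0, nat_lit 20, [nat_lit 5, nat_lit 5, nat_lit 5, nat_lit 20], true, nat_lit 0, nat_lit 276, nat_lit 0, nat_lit 384, ⟨nat_lit 0, nat_lit 1000, nat_lit 0, nat_lit 5, nat_lit 216, nat_lit 1000, nat_lit 102, nat_lit 0, nat_lit 0, nat_lit 0, nat_lit 0, nat_lit 0, nat_lit 0, nat_lit 0, nat_lit 0, nat_lit 5000000, false, true⟩,
 nat_lit 0, nat_lit 0, nat_lit 0, nat_lit 7094, nat_lit 3682, nat_lit 0, nat_lit 0, nat_lit 0, nat_lit 0, nat_lit 0, nat_lit 0, nat_lit 0, nat_lit 0, nat_lit 0, nat_lit 0, nat_lit 400000, nat_lit 0, nat_lit 0, [(nat_lit 22, [(nat_lit 1, nat_lit 1000)])],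
 ⟨p080_k16, nat_lit 0, nat_lit 0, nat_lit 222, nat_lit 0, nat_lit 0, [nat_lit 1574800000, nat_lit 1441466667], [], [nat_lit 24313692030, nat_lit 25548223834, nat_lit 30692617318, nat_lit 31608657513, nat_lit 26205762439, nat_lit 27022821071, nat_lit 30363282061, nat_lit 30862455903], nat_lit 0, nat_lit 0, nat_lit 0, nat_lit 0, nat_lit 0, nat_lit 0, [], [nat_lit 110, nat_lit 40, nat_lit 40, nat_lit 80, nat_lit 109, nat_lit 401, nat_lit 175, nat_lit 13]⟩, C1.Rw.none,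
 ⟨nat_lit 3162, nat_lit 3873, ⟨.ofNat (nat_lit 267606), .ofNat (nat_lit 770989), .ofNat (nat_lit 311135), .ofNat (nat_lit 814576), .ofNat (nat_lit 280451), .ofNat (nat_lit 756003), .ofNat (nat_lit 324704), .ofNat (nat_lit 800312)⟩, ⟨.ofNat (nat_lit 0), .ofNat (nat_lit 491830), .ofNat (nat_lit 0), .ofNat (nat_lit 535416), .ofNat (nat_lit 0), .ofNat (nat_lit 482881), .ofNat (nat_lit 0), .ofNat (nat_lit 527190)⟩⟩, [⟨nat_lit 13, nat_lit 66, nat_lit 68, nat_lit 100, nat_lit 170051272⟩, ⟨nat_lit 4, nat_lit 100, nat_lit 67, nat_lit 88, nat_lit 69723285⟩]⟩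
noncomputable def p080_l76 : Lf2 := ⟨nat_lit 0, nat_lit 20, [nat_lit 5, nat_lit 5, nat_lit 5, nat_lit 20], true, nat_lit 0, nat_lit 300, nat_lit 0, nat_lit 384, ⟨nat_lit 0, nat_lit 1000, nat_lit 0, nat_lit 5, nat_lit 217, nat_lit 1000, nat_lit 111, nat_lit 0, nat_lit 0, nat_lit 0, nat_lit 0, nat_lit 0, nat_lit 0, nat_lit 0, nat_lit 0, nat_lit 5000000, false, true⟩,
 nat_lit 0, nat_lit 0, nat_lit 0, nat_lit 9962, nat_lit 3456, nat_lit 0, nat_lit 77, nat_lit 0, nat_lit 0, nat_lit 0, nat_lit 0, nat_lit 0, nat_lit 0, nat_lit 0, nat_lit 0, nat_lit 460000, nat_lit 0, nat_lit 0, [(nat_lit 19, [(nat_lit 1, nat_lit 900), (nat_lit 2, nat_lit 100)])],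
 ⟨p080_k31, nat_lit 0, nat_lit 0, nat_lit 288, nat_lit 0, nat_lit 0, [nat_lit 1428186667, nat_lit 1938933334, nat_lit 1333520000], [], [nat_lit 22376060135, nat_lit 23657956375, nat_lit 30322747665, nat_lit 31127826645, nat_lit 25869788674, nat_lit 26680340158, nat_lit 30758011487, nat_lit 31236173288], nat_lit 0, nat_lit 0, nat_lit 0, nat_lit 0, nat_lit 0, nat_lit 0, [], [nat_lit 27, nat_lit 40, nat_lit 40, nat_lit 80, nat_lit 13, nat_lit 401, nat_lit 175, nat_lit 12]⟩, C1.Rw.none,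
 ⟨nat_lit 3872, nat_lit 4473, ⟨.ofNat (nat_lit 228056), .ofNat (nat_lit 812698), .ofNat (nat_lit 271153), .ofNat (nat_lit 855824), .ofNat (nat_lit 241882), .ofNat (nat_lit 796798), .ofNat (nat_lit 285433), .ofNat (nat_lit 840378)⟩, ⟨.ofNat (nat_lit 0), .ofNat (nat_lit 540545), .ofNat (nat_lit 0), .ofNat (nat_lit 583678), .ofNat (nat_lit 0), .ofNat (nat_lit 530543), .ofNat (nat_lit 0), .ofNat (nat_lit 574129)⟩⟩, [⟨nat_lit 13, nat_lit 76, nat_lit 57, nat_lit 100, nat_lit 152134471⟩, ⟨nat_lit 4, nat_lit 100, nat_lit 81, nat_lit 92, nat_lit 78692459⟩]⟩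
noncomputable def p080_l77 : Lf2 := ⟨nat_lit 0, nat_lit 20, [nat_lit 5, nat_lit 5, nat_lit 5, nat_lit 20], true, nat_lit 0, nat_lit 276, nat_lit 0, nat_lit 384, ⟨nat_lit 0, nat_lit 1000, nat_lit 0, nat_lit 5, nat_lit 216, nat_lit 1000, nat_lit 102, nat_lit 0, nat_lit 0, nat_lit 0, nat_lit 0, nat_lit 0, nat_lit 0, nat_lit 0, nat_lit 0, nat_lit 5000000, false, true⟩,
 nat_lit 0, nat_lit 0, nat_lit 0, nat_lit 7094, nat_lit 3682, nat_lit 0, nat_lit 0, nat_lit 0, nat_lit 0, nat_lit 0, nat_lit 0, nat_lit 0, nat_lit 0, nat_lit 0, nat_lit 0, nat_lit 400000, nat_lit 0, nat_lit 0, [(nat_lit 22, [(nat_lit 1, nat_lit 1000)])],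
 ⟨p080_k16, nat_lit 0, nat_lit 0, nat_lit 222, nat_lit 0, nat_lit 0, [nat_lit 1574800000, nat_lit 1441466667], [], [nat_lit 24313692030, nat_lit 25548223834, nat_lit 30692617318, nat_lit 31608657513, nat_lit 26205762439, nat_lit 27022821071, nat_lit 30363282061, nat_lit 30862455903], nat_lit 0, nat_lit 0, nat_lit 0, nat_lit 0, nat_lit 0, nat_lit 0, [], [nat_lit 110, nat_lit 40, nat_lit 40, nat_lit 80, nat_lit 109, nat_lit 401, nat_lit 175, nat_lit 13]⟩, C1.Rw.none,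
 ⟨nat_lit 3162, nat_lit 3873, ⟨.ofNat (nat_lit 267606), .ofNat (nat_lit 770989), .ofNat (nat_lit 311135), .ofNat (nat_lit 814576), .ofNat (nat_lit 280451), .ofNat (nat_lit 756003), .ofNat (nat_lit 324704), .ofNat (nat_lit 800312)⟩, ⟨.ofNat (nat_lit 0), .ofNat (nat_lit 491830), .ofNat (nat_lit 0), .ofNat (nat_lit 535416), .ofNat (nat_lit 0), .ofNat (nat_lit 482881), .ofNat (nat_lit 0), .ofNat (nat_lit 527190)⟩⟩, [⟨nat_lit 13, nat_lit 66, nat_lit 68, nat_lit 100, nat_lit 170051272⟩, ⟨nat_lit 4, nat_lit 100, nat_lit 67, nat_lit 88, nat_lit 69723285⟩]⟩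
noncomputable def b_V_800_500_20_16 : St := ⟨true, nat_lit 0, nat_lit 2, nat_lit 2, nat_lit 120, nat_lit 320, nat_lit 360, nat_lit 200, nat_lit 240, nat_lit 40, nat_lit 384, nat_lit 80, nat_lit 120, nat_lit 0, nat_lit 300, nat_lit 0, nat_lit 384, nat_lit 40, nat_lit 80, nat_lit 0, nat_lit 0, nat_lit 0, nat_lit 0⟩
theorem d_V_800_500_20_16 (h : EB TB.env) : Dead b_V_800_500_20_16 := chkB_sound0 h (T :=
(.st (nat_lit 1)
(.spl (nat_lit 0) (nat_lit 340)
(.leaf p080_l74)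
(.trZ (nat_lit 0) (nat_lit 100) (nat_lit 71) (nat_lit 70) (nat_lit 56) (.trX (nat_lit 13) (nat_lit 73) (nat_lit 55) (nat_lit 100) (nat_lit 368) (.trX (nat_lit 16) (nat_lit 77) (nat_lit 100) (nat_lit 99) (nat_lit 276) (.leaf p080_l75)))))
(.spl (nat_lit 0) (nat_lit 340)
(.leaf p080_l76)
(.trZ (nat_lit 0) (nat_lit 100) (nat_lit 71) (nat_lit 70) (nat_lit 56) (.trX (nat_lit 13) (nat_lit 73) (nat_lit 55) (nat_lit 100) (nat_lit 368) (.trX (nat_lit 16) (nat_lit 77) (nat_lit 100) (nat_lit 99) (nat_lit 276) (.leaf p080_l77))))))) (by decide +kernel)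
noncomputable def p080_l78 : Lf2 := ⟨nat_lit 0, nat_lit 15, [nat_lit 30, nat_lit 5, nat_lit 5, nat_lit 20], false, nat_lit 0, nat_lit 160, nat_lit 0, nat_lit 384, ⟨nat_lit 38, nat_lit 0, nat_lit 962, nat_lit 5, nat_lit 169, nat_lit 830, nat_lit 65, nat_lit 962, nat_lit 40017, nat_lit 264, nat_lit 817, nat_lit 208, nat_lit 56860881, nat_lit 0, nat_lit 0, nat_lit 2125045, false, false⟩,
 nat_lit 0, nat_lit 4270, nat_lit 0, nat_lit 2010, nat_lit 3202, nat_lit 722, nat_lit 0, nat_lit 0, nat_lit 0, nat_lit 0, nat_lit 0, nat_lit 0, nat_lit 0, nat_lit 0, nat_lit 61, nat_lit 240500, nat_lit 0, nat_lit 0, [(nat_lit 19, [(nat_lit 4, nat_lit 962)])],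
 ⟨p080_k35, nat_lit 0, nat_lit 0, nat_lit 263, nat_lit 0, nat_lit 137047, [nat_lit 2025916800, nat_lit 104905600], [], [nat_lit 18086787784, nat_lit 19286032756, nat_lit 20796876808, nat_lit 21881923588, nat_lit 17903210848, nat_lit 18911927044, nat_lit 23779053184, nat_lit 22383487100], nat_lit 1271250, nat_lit 1271250, nat_lit 230001, nat_lit 1717500, nat_lit 0, nat_lit 1100001, [nat_lit 490000, nat_lit 1740000], [nat_lit 110, nat_lit 40, nat_lit 40, nat_lit 80, nat_lit 109, nat_lit 317, nat_lit 100, nat_lit 11]⟩, ⟨p080_k36, nat_lit 0, nat_lit 0, nat_lit 401, nat_lit 0, nat_lit 0, [nat_lit 237500000, nat_lit 534204000], [], [nat_lit 2411067472, nat_lit 2423783640, nat_lit 1902010808, nat_lit 1891575096, nat_lit 2021213769, nat_lit 2021261405, nat_lit 1470898984, nat_lit 1453792114], nat_lit 0, nat_lit 0, nat_lit 0, nat_lit 0, nat_lit 0, nat_lit 0, [], [nat_lit 149, nat_lit 40, nat_lit 40, nat_lit 80, nat_lit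 68, nat_lit 456, nat_lit 225, nat_lit 11]⟩,
 ⟨nat_lit 3872, nat_lit 4473, ⟨.ofNat (nat_lit 228056), .ofNat (nat_lit 567977), .ofNat (nat_lit 271153), .ofNat (nat_lit 611083), .ofNat (nat_lit 241882), .ofNat (nat_lit 564520), .ofNat (nat_lit 285433), .ofNat (nat_lit 608080)⟩, ⟨.ofNat (nat_lit 0), .ofNat (nat_lit 302621), .ofNat (nat_lit 0), .ofNat (nat_lit 345754), .ofNat (nat_lit 0), .ofNat (nat_lit 304717), .ofNat (nat_lit 0), .ofNat (nat_lit 348304)⟩⟩, [⟨nat_lit 10, nat_lit 41, nat_lit 100, nat_lit 80, nat_lit 2389111⟩]⟩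
noncomputable def p080_l79 : Lf2 := ⟨nat_lit 1, nat_lit 20, [nat_lit 5, nat_lit 5, nat_lit 5, nat_lit 20], false, nat_lit 0, nat_lit 160, nat_lit 0, nat_lit 384, zbN0,
 nat_lit 0, nat_lit 0, nat_lit 0, nat_lit 0, nat_lit 0, nat_lit 0, nat_lit 0, nat_lit 0, nat_lit 0, nat_lit 0, nat_lit 0, nat_lit 0, nat_lit 0, nat_lit 0, nat_lit 0, nat_lit 0, nat_lit 0, nat_lit 0, [],
 C1.Rw.none, C1.Rw.none,
 zbF0, []⟩
noncomputable def p080_l80 : Lf2 := ⟨nat_lit 0, nat_lit 20, [nat_lit 5, nat_lit 5, nat_lit 5, nat_lit 20], true, nat_lit 0, nat_lit 160, nat_lit 0, nat_lit 384, ⟨nat_lit 0, nat_lit 69, nat_lit 931, nat_lit 5, nat_lit 151, nat_lit 670, nat_lit 65, nat_lit 931, nat_lit 40017, nat_lit 264, nat_lit 62567, nat_lit 276, nat_lit 58640108, nat_lit 8359892, nat_lit 0, nat_lit 1881653, false, false⟩,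
 nat_lit 0, nat_lit 3871, nat_lit 0, nat_lit 0, nat_lit 3133, nat_lit 0, nat_lit 0, nat_lit 0, nat_lit 0, nat_lit 0, nat_lit 0, nat_lit 0, nat_lit 0, nat_lit 0, nat_lit 80, nat_lit 250000, nat_lit 0, nat_lit 0, [(nat_lit 22, [(nat_lit 0, nat_lit 69), (nat_lit 4, nat_lit 931)])],
 ⟨p080_k16, nat_lit 0, nat_lit 0, nat_lit 359, nat_lit 0, nat_lit 308442, [nat_lit 2136499201, nat_lit 12653715], [], [nat_lit 19632158421, nat_lit 20848496976, nat_lit 20634745503, nat_lit 21836670957, nat_lit 20092567915, nat_lit 21300253454, nat_lit 21297783773, nat_lit 22442586113], nat_lit 1271250, nat_lit 1271250, nat_lit 330400, nat_lit 1100001, nat_lit 0, nat_lit 1100001, [nat_lit 490000, nat_lit 1740000], [nat_lit 110, nat_lit 40, nat_lit 40, nat_lit 80, nat_lit 109, nat_lit 317, nat_lit 100, nat_lit 10]⟩, C1.Rw.none,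
 ⟨nat_lit 3162, nat_lit 3873, ⟨.ofNat (nat_lit 267606), .ofNat (nat_lit 435446), .ofNat (nat_lit 311135), .ofNat (nat_lit 478975), .ofNat (nat_lit 280451), .ofNat (nat_lit 439014), .ofNat (nat_lit 324704), .ofNat (nat_lit 483267)⟩, ⟨.ofNat (nat_lit 0), .ofNat (nat_lit 304717), .ofNat (nat_lit 0), .ofNat (nat_lit 348304), .ofNat (nat_lit 0), .ofNat (nat_lit 306116), .ofNat (nat_lit 0), .ofNat (nat_lit 350426)⟩⟩, []⟩
noncomputable def p080_l81 : Lf2 := ⟨nat_lit 0, nat_lit 20, [nat_lit 5, nat_lit 5, nat_lit 5, nat_lit 20], false, nat_lit 0, nat_lit 160, nat_lit 0, nat_lit 384, ⟨nat_lit 197, nat_lit 0, nat_lit 803, nat_lit 5, nat_lit 209, nat_lit 803, nat_lit 65, nat_lit 803, nat_lit 40017, nat_lit 264, nat_lit 5723, nat_lit 210, nat_lit 52655659, nat_lit 0, nat_lit 0, nat_lit 2596656, false, false⟩,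
 nat_lit 0, nat_lit 3677, nat_lit 0, nat_lit 959, nat_lit 2976, nat_lit 2906, nat_lit 0, nat_lit 0, nat_lit 0, nat_lit 116, nat_lit 0, nat_lit 0, nat_lit 0, nat_lit 0, nat_lit 55, nat_lit 321200, nat_lit 0, nat_lit 0, [(nat_lit 22, [(nat_lit 5, nat_lit 803)])],
 ⟨p080_k37, nat_lit 0, nat_lit 0, nat_lit 296, nat_lit 0, nat_lit 308442, [nat_lit 1624032001, nat_lit 657316201, nat_lit 14956000], [], [nat_lit 19937265531, nat_lit 20893887403, nat_lit 21848211107, nat_lit 23037248608, nat_lit 20144733715, nat_lit 21099034595, nat_lit 21958865155, nat_lit 22804101315], nat_lit 1271250, nat_lit 1271250, nat_lit 1100001, nat_lit 1785000, nat_lit 0, nat_lit 1100001, [nat_lit 490000, nat_lit 1427500, nat_lit 1271250], [nat_lit 102, nat_lit 40, nat_lit 40, nat_lit 80, nat_lit 2, nat_lit 317, nat_lit 100, nat_lit 10]⟩, ⟨p080_k18, nat_lit 0, nat_lit 0, nat_lit 273, nat_lit 0, nat_lit 0, [nat_lit 1231250000, nat_lit 2338784000,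 nat_lit 2769426000], [], [nat_lit 7030435664, nat_lit 7476448236, nat_lit 7570634252, nat_lit 7894193288, nat_lit 7101296328, nat_lit 7113362737, nat_lit 6914920676, nat_lit 6872984723], nat_lit 0, nat_lit 0, nat_lit 0, nat_lit 0, nat_lit 0, nat_lit 0, [], [nat_lit 137, nat_lit 40, nat_lit 40, nat_lit 80, nat_lit 58, nat_lit 456, nat_lit 225, nat_lit 11]⟩,
 ⟨nat_lit 3162, nat_lit 3873, ⟨.ofNat (nat_lit 435446), .ofNat (nat_lit 564520), .ofNat (nat_lit 478975), .ofNat (nat_lit 608082), .ofNat (nat_lit 439014), .ofNat (nat_lit 560952), .ofNat (nat_lit 483267), .ofNat (nat_lit 605237)⟩, ⟨.ofNat (nat_lit 0), .ofNat (nat_lit 304717), .ofNat (nat_lit 0), .ofNat (nat_lit 348304), .ofNat (nat_lit 0), .ofNat (nat_lit 306116), .ofNat (nat_lit 0), .ofNat (nat_lit 350426)⟩⟩, [⟨nat_lit 22, nat_lit 100, nat_lit 60, nat_lit 80, nat_lit 32720512⟩]⟩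
noncomputable def p080_l82 : Lf2 := ⟨nat_lit 0, nat_lit 15, [nat_lit 30, nat_lit 5, nat_lit 5, nat_lit 20], true, nat_lit 160, nat_lit 240, nat_lit 0, nat_lit 384, ⟨nat_lit 0, nat_lit 207, nat_lit 793, nat_lit 5, nat_lit 169, nat_lit 1000, nat_lit 157, nat_lit 793, nat_lit 67907, nat_lit 278, nat_lit 817, nat_lit 208, nat_lit 48084056, nat_lit 10015168, nat_lit 8900776, nat_lit 4238338, false, false⟩,
 nat_lit 0, nat_lit 4574, nat_lit 0, nat_lit 0, nat_lit 3430, nat_lit 0, nat_lit 0, nat_lit 0, nat_lit 0, nat_lit 0, nat_lit 0, nat_lit 0, nat_lit 0, nat_lit 0, nat_lit 36, nat_lit 250000, nat_lit 0, nat_lit 0, [(nat_lit 19, [(nat_lit 0, nat_lit 207), (nat_lit 4, nat_lit 793)])],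
 ⟨p080_k35, nat_lit 0, nat_lit 0, nat_lit 143, nat_lit 0, nat_lit 137047, [nat_lit 1811368001, nat_lit 100116800], [], [nat_lit 17397787201, nat_lit 18712295781, nat_lit 20245605401, nat_lit 21248624041, nat_lit 19790950361, nat_lit 20936837761, nat_lit 22047473001, nat_lit 22933477502], nat_lit 1271250, nat_lit 1271250, nat_lit 230001, nat_lit 1717500, nat_lit 1100001, nat_lit 1785000, [nat_lit 490000, nat_lit 1740000], [nat_lit 110, nat_lit 40, nat_lit 40, nat_lit 80, nat_lit 109, nat_lit 345, nat_lit 125, nat_lit 11]⟩, C1.Rw.none,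
 ⟨nat_lit 3872, nat_lit 4473, ⟨.ofNat (nat_lit 228056), .ofNat (nat_lit 567977), .ofNat (nat_lit 271153), .ofNat (nat_lit 611083), .ofNat (nat_lit 241882), .ofNat (nat_lit 564520), .ofNat (nat_lit 285433), .ofNat (nat_lit 608080)⟩, ⟨.ofNat (nat_lit 302621), .ofNat (nat_lit 438578), .ofNat (nat_lit 345754), .ofNat (nat_lit 481711), .ofNat (nat_lit 304717), .ofNat (nat_lit 433760), .ofNat (nat_lit 348304), .ofNat (nat_lit 477347)⟩⟩, [⟨nat_lit 4, nat_lit 100, nat_lit 81, nat_lit 92, nat_lit 128780192⟩]⟩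
noncomputable def p080_l83 : Lf2 := ⟨nat_lit 0, nat_lit 15, [nat_lit 30, nat_lit 5, nat_lit 5, nat_lit 20], true, nat_lit 240, nat_lit 300, nat_lit 0, nat_lit 384, ⟨nat_lit 0, nat_lit 276, nat_lit 724, nat_lit 5, nat_lit 168, nat_lit 1000, nat_lit 204, nat_lit 724, nat_lit 1169, nat_lit 218, nat_lit 817, nat_lit 208, nat_lit 44410306, nat_lit 9606570, nat_lit 12983124, nat_lit 4672376, false, false⟩,
 nat_lit 0, nat_lit 4923, nat_lit 0, nat_lit 10773, nat_lit 3692, nat_lit 0, nat_lit 0, nat_lit 0, nat_lit 0, nat_lit 0, nat_lit 0, nat_lit 0, nat_lit 0, nat_lit 0, nat_lit 22, nat_lit 250000, nat_lit 0, nat_lit 0, [(nat_lit 19, [(nat_lit 0, nat_lit 276), (nat_lit 4, nat_lit 724)])],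
 ⟨p080_k35, nat_lit 0, nat_lit 0, nat_lit 131, nat_lit 0, nat_lit 38002, [nat_lit 1701024001, nat_lit 81222400], [], [nat_lit 19917693664, nat_lit 20544437448, nat_lit 21946337681, nat_lit 22403698452, nat_lit 22725224112, nat_lit 23456486519, nat_lit 24491951500, nat_lit 25050176679], nat_lit 1271250, nat_lit 1271250, nat_lit 230001, nat_lit 1717500, nat_lit 1271250, nat_lit 1271250, [nat_lit 490000, nat_lit 1740000], [nat_lit 110, nat_lit 40, nat_lit 40, nat_lit 80, nat_lit 109, nat_lit 272, nat_lit 60, nat_lit 8]⟩, C1.Rw.none,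
 ⟨nat_lit 4183, nat_lit 4473, ⟨.ofNat (nat_lit 228083), .ofNat (nat_lit 567977), .ofNat (nat_lit 271208), .ofNat (nat_lit 611104), .ofNat (nat_lit 234973), .ofNat (nat_lit 566254), .ofNat (nat_lit 278299), .ofNat (nat_lit 609582)⟩, ⟨.ofNat (nat_lit 438578), .ofNat (nat_lit 540545), .ofNat (nat_lit 481711), .ofNat (nat_lit 583678), .ofNat (nat_lit 436254), .ofNat (nat_lit 535637), .ofNat (nat_lit 479587), .ofNat (nat_lit 578971)⟩⟩, [⟨nat_lit 4, nat_lit 100, nat_lit 84, nat_lit 93, nat_lit 327110771⟩]⟩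
noncomputable def p080_l84 : Lf2 := ⟨nat_lit 0, nat_lit 15, [nat_lit 30, nat_lit 5, nat_lit 5, nat_lit 20], true, nat_lit 240, nat_lit 288, nat_lit 0, nat_lit 384, ⟨nat_lit 0, nat_lit 342, nat_lit 658, nat_lit 5, nat_lit 172, nat_lit 1000, nat_lit 198, nat_lit 658, nat_lit 3485, nat_lit 228, nat_lit 2777, nat_lit 209, nat_lit 44573833, nat_lit 9958394, nat_lit 12467773, nat_lit 4664334, false, false⟩,
 nat_lit 0, nat_lit 4895, nat_lit 0, nat_lit 5154, nat_lit 3815, nat_lit 0, nat_lit 0, nat_lit 0, nat_lit 0, nat_lit 0, nat_lit 0, nat_lit 0, nat_lit 0, nat_lit 0, nat_lit 9, nat_lit 250000, nat_lit 0, nat_lit 0, [(nat_lit 19, [(nat_lit 0, nat_lit 342), (nat_lit 4, nat_lit 658)])],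
 ⟨p080_k38, nat_lit 0, nat_lit 0, nat_lit 147, nat_lit 0, nat_lit 129999, [nat_lit 1598608001, nat_lit 72540800], [], [nat_lit 20727080504, nat_lit 21359184581, nat_lit 22652240552, nat_lit 23093353190, nat_lit 22829998799, nat_lit 23530927062, nat_lit 24585664003, nat_lit 25168376636], nat_lit 1271250, nat_lit 1271250, nat_lit 279600, nat_lit 1722000, nat_lit 1271250, nat_lit 1271250, [nat_lit 490000, nat_lit 1740000], [nat_lit 110, nat_lit 40, nat_lit 40, nat_lit 80, nat_lit 109, nat_lit 272, nat_lit 60, nat_lit 8]⟩, C1.Rw.none,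
 ⟨nat_lit 3872, nat_lit 4184, ⟨.ofNat (nat_lit 248217), .ofNat (nat_lit 566254), .ofNat (nat_lit 291541), .ofNat (nat_lit 609582), .ofNat (nat_lit 254806), .ofNat (nat_lit 564520), .ofNat (nat_lit 298383), .ofNat (nat_lit 608101)⟩, ⟨.ofNat (nat_lit 436254), .ofNat (nat_lit 515761), .ofNat (nat_lit 479587), .ofNat (nat_lit 559094), .ofNat (nat_lit 433760), .ofNat (nat_lit 511186), .ofNat (nat_lit 477347), .ofNat (nat_lit 554773)⟩⟩, [⟨nat_lit 4, nat_lit 100, nat_lit 77, nat_lit 91, nat_lit 339896837⟩]⟩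
noncomputable def p080_l85 : Lf2 := ⟨nat_lit 1, nat_lit 20, [nat_lit 5, nat_lit 5, nat_lit 5, nat_lit 20], false, nat_lit 160, nat_lit 300, nat_lit 0, nat_lit 384, zbN0,
 nat_lit 0, nat_lit 0, nat_lit 0, nat_lit 0, nat_lit 0, nat_lit 0, nat_lit 0, nat_lit 0, nat_lit 0, nat_lit 0, nat_lit 0, nat_lit 0, nat_lit 0, nat_lit 0, nat_lit 0, nat_lit 0, nat_lit 0, nat_lit 0, [],
 C1.Rw.none, C1.Rw.none,
 zbF0, []⟩
noncomputable def p080_l86 : Lf2 := ⟨nat_lit 0, nat_lit 20, [nat_lit 5, nat_lit 5, nat_lit 5, nat_lit 20], true, nat_lit 160, nat_lit 240, nat_lit 0, nat_lit 384, ⟨nat_lit 0, nat_lit 384, nat_lit 616, nat_lit 5, nat_lit 176, nat_lit 1000, nat_lit 156, nat_lit 616, nat_lit 74869, nat_lit 282, nat_lit 600, nat_lit 209, nat_lit 47541736, nat_lit 10648818, nat_lit 8809446, nat_lit 4305067, false, false⟩,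
 nat_lit 0, nat_lit 3832, nat_lit 0, nat_lit 0, nat_lit 3101, nat_lit 0, nat_lit 0, nat_lit 0, nat_lit 0, nat_lit 0, nat_lit 0, nat_lit 0, nat_lit 0, nat_lit 0, nat_lit 49, nat_lit 342400, nat_lit 0, nat_lit 0, [(nat_lit 22, [(nat_lit 0, nat_lit 384), (nat_lit 5, nat_lit 616)])],
 ⟨p080_k37, nat_lit 0, nat_lit 0, nat_lit 246, nat_lit 0, nat_lit 308442, [nat_lit 1595328001, nat_lit 590913601, nat_lit 12281600], [], [nat_lit 18757169986, nat_lit 19750562573, nat_lit 21337922996, nat_lit 22247698370, nat_lit 20689281633, nat_lit 21710572619, nat_lit 22978949857, nat_lit 23978536899], nat_lit 1271250, nat_lit 1271250, nat_lit 330400, nat_lit 1726500, nat_lit 1100001, nat_lit 1785000, [nat_lit 490000, nat_lit 1427500, nat_lit 1271250], [nat_lit 102, nat_lit 40, nat_lit 40, nat_lit 80, nat_lit 2, nat_lit 345, nat_lit 125, nat_lit 11]⟩, C1.Rw.none,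
 ⟨nat_lit 3162, nat_lit 3873, ⟨.ofNat (nat_lit 267606), .ofNat (nat_lit 564520), .ofNat (nat_lit 311135), .ofNat (nat_lit 608082), .ofNat (nat_lit 280451), .ofNat (nat_lit 560952), .ofNat (nat_lit 324704), .ofNat (nat_lit 605237)⟩, ⟨.ofNat (nat_lit 304717), .ofNat (nat_lit 433760), .ofNat (nat_lit 348304), .ofNat (nat_lit 477347), .ofNat (nat_lit 306116), .ofNat (nat_lit 428022), .ofNat (nat_lit 350426), .ofNat (nat_lit 472332)⟩⟩, [⟨nat_lit 16, nat_lit 67, nat_lit 100, nat_lit 88, nat_lit 179840226⟩]⟩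
noncomputable def p080_l87 : Lf2 := ⟨nat_lit 0, nat_lit 20, [nat_lit 5, nat_lit 5, nat_lit 5, nat_lit 20], true, nat_lit 240, nat_lit 276, nat_lit 0, nat_lit 384, ⟨nat_lit 0, nat_lit 378, nat_lit 622, nat_lit 5, nat_lit 176, nat_lit 1000, nat_lit 193, nat_lit 622, nat_lit 13749, nat_lit 240, nat_lit 600, nat_lit 209, nat_lit 44724487, nat_lit 10303688, nat_lit 11971825, nat_lit 4654386, false, false⟩,
 nat_lit 0, nat_lit 4558, nat_lit 0, nat_lit 927, nat_lit 3689, nat_lit 0, nat_lit 0, nat_lit 0, nat_lit 0, nat_lit 0, nat_lit 0, nat_lit 0, nat_lit 0, nat_lit 0, nat_lit 16, nat_lit 250000, nat_lit 0, nat_lit 0, [(nat_lit 22, [(nat_lit 0, nat_lit 378), (nat_lit 4, nat_lit 622)])],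
 ⟨p080_k16, nat_lit 0, nat_lit 0, nat_lit 167, nat_lit 0, nat_lit 212393, [nat_lit 1648230400, nat_lit 3816000], [], [nat_lit 21409762638, nat_lit 21847654001, nat_lit 23111212356, nat_lit 23679073669, nat_lit 22558476727, nat_lit 23325734604, nat_lit 24580242365, nat_lit 25170335669], nat_lit 1271250, nat_lit 1271250, nat_lit 330400, nat_lit 1726500, nat_lit 1271250, nat_lit 1271250, [nat_lit 490000, nat_lit 1740000], [nat_lit 110, nat_lit 40, nat_lit 40, nat_lit 80, nat_lit 109, nat_lit 272, nat_lit 60, nat_lit 8]⟩, C1.Rw.none,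
 ⟨nat_lit 3535, nat_lit 3873, ⟨.ofNat (nat_lit 267701), .ofNat (nat_lit 564520), .ofNat (nat_lit 311275), .ofNat (nat_lit 608101), .ofNat (nat_lit 274037), .ofNat (nat_lit 562760), .ofNat (nat_lit 317930), .ofNat (nat_lit 606659)⟩, ⟨.ofNat (nat_lit 433760), .ofNat (nat_lit 491830), .ofNat (nat_lit 477347), .ofNat (nat_lit 535416), .ofNat (nat_lit 431044), .ofNat (nat_lit 487529), .ofNat (nat_lit 474949), .ofNat (nat_lit 531435)⟩⟩, [⟨nat_lit 16, nat_lit 77, nat_lit 100, nat_lit 99, nat_lit 169753272⟩, ⟨nat_lit 4, nat_lit 100, nat_lit 71, nat_lit 89, nat_lit 151088293⟩]⟩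
noncomputable def p080_l88 : Lf2 := ⟨nat_lit 0, nat_lit 20, [nat_lit 5, nat_lit 5, nat_lit 5, nat_lit 20], true, nat_lit 240, nat_lit 264, nat_lit 0, nat_lit 384, ⟨nat_lit 0, nat_lit 464, nat_lit 536, nat_lit 5, nat_lit 179, nat_lit 1000, nat_lit 188, nat_lit 536, nat_lit 25644, nat_lit 253, nat_lit 2736, nat_lit 210, nat_lit 44864048, nat_lit 10642980, nat_lit 11492972, nat_lit 4642588, false, false⟩,
 nat_lit 0, nat_lit 4436, nat_lit 0, nat_lit 0, nat_lit 3726, nat_lit 0, nat_lit 0, nat_lit 0, nat_lit 0, nat_lit 0, nat_lit 0, nat_lit 0, nat_lit 0, nat_lit 0, nat_lit 0, nat_lit 250000, nat_lit 0, nat_lit 0, [(nat_lit 22, [(nat_lit 0, nat_lit 464), (nat_lit 4, nat_lit 536)])],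
 ⟨p080_k39, nat_lit 0, nat_lit 0, nat_lit 224, nat_lit 0, nat_lit 293408, [nat_lit 1526835201, nat_lit 47408000], [], [nat_lit 22565048531, nat_lit 23001521889, nat_lit 23901753910, nat_lit 24338694816, nat_lit 23265410092, nat_lit 23682534797, nat_lit 24694742357, nat_lit 25303644029], nat_lit 1271250, nat_lit 1271250, nat_lit 382400, nat_lit 1731000, nat_lit 1271250, nat_lit 1271250, [nat_lit 490000, nat_lit 1740000], [nat_lit 110, nat_lit 40, nat_lit 40, nat_lit 80, nat_lit 109, nat_lit 272, nat_lit 60, nat_lit 8]⟩, C1.Rw.none,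
 ⟨nat_lit 3162, nat_lit 3536, ⟨.ofNat (nat_lit 286575), .ofNat (nat_lit 562760), .ofNat (nat_lit 330464), .ofNat (nat_lit 606660), .ofNat (nat_lit 292723), .ofNat (nat_lit 560952), .ofNat (nat_lit 337016), .ofNat (nat_lit 605256)⟩, ⟨.ofNat (nat_lit 431044), .ofNat (nat_lit 468701), .ofNat (nat_lit 474949), .ofNat (nat_lit 512606), .ofNat (nat_lit 428022), .ofNat (nat_lit 464594), .ofNat (nat_lit 472332), .ofNat (nat_lit 508904)⟩⟩, [⟨nat_lit 16, nat_lit 69, nat_lit 100, nat_lit 96, nat_lit 330923605⟩]⟩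
noncomputable def p080_l89 : Lf2 := ⟨nat_lit 0, nat_lit 20, [nat_lit 5, nat_lit 5, nat_lit 5, nat_lit 20], false, nat_lit 0, nat_lit 300, nat_lit 0, nat_lit 160, ⟨nat_lit 1000, nat_lit 0, nat_lit 0, nat_lit 0, nat_lit 0, nat_lit 0, nat_lit 0, nat_lit 0, nat_lit 0, nat_lit 0, nat_lit 0, nat_lit 0, nat_lit 0, nat_lit 0, nat_lit 0, nat_lit 0, false, false⟩,
 nat_lit 0, nat_lit 8714, nat_lit 0, nat_lit 3026, nat_lit 6535, nat_lit 7955, nat_lit 407, nat_lit 0, nat_lit 0, nat_lit 1166, nat_lit 0, nat_lit 0, nat_lit 0, nat_lit 0, nat_lit 0, nat_lit 0, nat_lit 0, nat_lit 0, [],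
 ⟨p080_k31, nat_lit 0, nat_lit 0, nat_lit 346, nat_lit 0, nat_lit 342422, [nat_lit 2032000001, nat_lit 4688000000, nat_lit 9842000000], [], [nat_lit 30950149895, nat_lit 33516602775, nat_lit 38701288876, nat_lit 40939582740, nat_lit 29870102520, nat_lit 31271479150, nat_lit 34433758407, nat_lit 35739140226], nat_lit 1271250, nat_lit 1271250, nat_lit 1271250, nat_lit 1271250, nat_lit 0, nat_lit 2118750, [nat_lit 490000, nat_lit 1100000, nat_lit 2127500], [nat_lit 27, nat_lit 40, nat_lit 40, nat_lit 80, nat_lit 13, nat_lit 401, nat_lit 175, nat_lit 11]⟩, ⟨p080_k27, nat_lit 0, nat_lit 0, nat_lit 294, nat_lit 0, nat_lit 0, [nat_lit 6250000000, nat_lit 9842000000, nat_lit 14058000000], [], [nat_lit 30895851060, nat_lit 31977311780, nat_lit 40361944237, nat_lit 40863207269, nat_lit 25290964100, nat_lit 26140235240, nat_lit 32974155056, nat_lit 33547286169], nat_lit 0, nat_lit 0, nat_lit 0, nat_lit 0, nat_lit 0,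 nat_lit 0, [], [nat_lit 60, nat_lit 40, nat_lit 40, nat_lit 80, nat_lit 32, nat_lit 428, nat_lit 200, nat_lit 10]⟩,
 zbF0, [⟨nat_lit 4, nat_lit 100, nat_lit 74, nat_lit 90, nat_lit 109116489⟩, ⟨nat_lit 21, nat_lit 88, nat_lit 100, nat_lit 85, nat_lit 25349304⟩, ⟨nat_lit 9, nat_lit 100, nat_lit 86, nat_lit 35, nat_lit 7416087⟩]⟩
noncomputable def p080_l90 : Lf2 := ⟨nat_lit 0, nat_lit 20, [nat_lit 5, nat_lit 5, nat_lit 5, nat_lit 20], false, nat_lit 0, nat_lit 300, nat_lit 160, nat_lit 384, ⟨nat_lit 1000, nat_lit 0, nat_lit 0, nat_lit 0, nat_lit 0, nat_lit 0, nat_lit 0, nat_lit 0, nat_lit 0, nat_lit 0, nat_lit 0, nat_lit 0, nat_lit 0, nat_lit 0, nat_lit 0, nat_lit 0, false, false⟩,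
 nat_lit 0, nat_lit 8714, nat_lit 0, nat_lit 2605, nat_lit 6535, nat_lit 6498, nat_lit 642, nat_lit 0, nat_lit 0, nat_lit 0, nat_lit 0, nat_lit 0, nat_lit 0, nat_lit 0, nat_lit 0, nat_lit 0, nat_lit 0, nat_lit 0, [],
 ⟨p080_k31, nat_lit 0, nat_lit 0, nat_lit 346, nat_lit 0, nat_lit 342422, [nat_lit 2032000001, nat_lit 4688000000, nat_lit 9842000000], [], [nat_lit 28600884270, nat_lit 31167337150, nat_lit 37901449076, nat_lit 40939582740, nat_lit 27520836895, nat_lit 28922213525, nat_lit 33787427577, nat_lit 35734572062], nat_lit 1271250, nat_lit 1271250, nat_lit 1271250, nat_lit 1271250, nat_lit 0, nat_lit 2118750, [nat_lit 490000, nat_lit 1100000, nat_lit 2127500], [nat_lit 27, nat_lit 40, nat_lit 40, nat_lit 80, nat_lit 13, nat_lit 401, nat_lit 175, nat_lit 11]⟩, ⟨p080_k27, nat_lit 0, nat_lit 0, nat_lit 123, nat_lit 0, nat_lit 0, [nat_lit 6250000000, nat_lit 9842000000, nat_lit 14058000000], [], [nat_lit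 15369909560, nat_lit 17484435240, nat_lit 27024917596, nat_lit 28141574799, nat_lit 28650086706, nat_lit 29536599820, nat_lit 35072241053, nat_lit 35526486648], nat_lit 0, nat_lit 0, nat_lit 0, nat_lit 0, nat_lit 0, nat_lit 0, [], [nat_lit 60, nat_lit 40, nat_lit 40, nat_lit 80, nat_lit 32, nat_lit 538, nat_lit 300, nat_lit 12]⟩,
 zbF0, [⟨nat_lit 16, nat_lit 74, nat_lit 100, nat_lit 90, nat_lit 140938593⟩, ⟨nat_lit 7, nat_lit 59, nat_lit 100, nat_lit 87, nat_lit 482476258⟩]⟩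
noncomputable def b_V_800_500_20_17 : St := ⟨true, nat_lit 1, nat_lit 0, nat_lit 1, nat_lit 120, nat_lit 320, nat_lit 360, nat_lit 200, nat_lit 240, nat_lit 40, nat_lit 384, nat_lit 80, nat_lit 120, nat_lit 0, nat_lit 300, nat_lit 0, nat_lit 384, nat_lit 40, nat_lit 80, nat_lit 0, nat_lit 0, nat_lit 0, nat_lit 0⟩
theorem d_V_800_500_20_17 (h : EB TB.env) : Dead b_V_800_500_20_17 := chkB_sound0 h (T :=
(.spl (nat_lit 2) (nat_lit 240)
(.spl (nat_lit 4) (nat_lit 160)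
(.spl (nat_lit 0) (nat_lit 340)
(.spl (nat_lit 6) (nat_lit 60)
(.leaf p080_l78)
(.leaf p080_l79))
(.trZ (nat_lit 0) (nat_lit 100) (nat_lit 71) (nat_lit 70) (nat_lit 56) (.spl (nat_lit 2) (nat_lit 160)
(.leaf p080_l80)
(.leaf p080_l81))))
(.spl (nat_lit 0) (nat_lit 340)
(.spl (nat_lit 6) (nat_lit 60)
(.spl (nat_lit 4) (nat_lit 240)
(.leaf p080_l82)
(.spl (nat_lit 0) (nat_lit 330)
(.leaf p080_l83)
(.trZ (nat_lit 0) (nat_lit 100) (nat_lit 76) (nat_lit 65) (nat_lit 48) (.trX (nat_lit 16) (nat_lit 83) (nat_lit 98) (nat_lit 100) (nat_lit 288) (.leaf p080_l84)))))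
(.leaf p080_l85))
(.trZ (nat_lit 0) (nat_lit 100) (nat_lit 71) (nat_lit 70) (nat_lit 56) (.trX (nat_lit 16) (nat_lit 77) (nat_lit 100) (nat_lit 99) (nat_lit 276) (.spl (nat_lit 4) (nat_lit 240)
(.leaf p080_l86)
(.spl (nat_lit 0) (nat_lit 350)
(.leaf p080_l87)
(.trZ (nat_lit 0) (nat_lit 100) (nat_lit 66) (nat_lit 75) (nat_lit 64) (.trX (nat_lit 16) (nat_lit 69) (nat_lit 100) (nat_lit 96) (nat_lit 264) (.leaf p080_l88)))))))))
(.spl (nat_lit 5) (nat_lit 160)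
(.leaf p080_l89)
(.leaf p080_l90)))) (by decide +kernel)
noncomputable def p080_l91 : Lf2 := ⟨nat_lit 0, nat_lit 15, [nat_lit 30, nat_lit 5, nat_lit 5, nat_lit 20], true, nat_lit 0, nat_lit 160, nat_lit 0, nat_lit 384, ⟨nat_lit 0, nat_lit 194, nat_lit 806, nat_lit 5, nat_lit 169, nat_lit 686, nat_lit 65, nat_lit 806, nat_lit 40017, nat_lit 264, nat_lit 817, nat_lit 208, nat_lit 56860881, nat_lit 10139119, nat_lit 0, nat_lit 2125045, false, false⟩,
 nat_lit 0, nat_lit 3765, nat_lit 0, nat_lit 2978, nat_lit 2823, nat_lit 0, nat_lit 0, nat_lit 0, nat_lit 0, nat_lit 0, nat_lit 0, nat_lit 0, nat_lit 0, nat_lit 0, nat_lit 72, nat_lit 370900, nat_lit 0, nat_lit 0, [(nat_lit 19, [(nat_lit 0, nat_lit 194), (nat_lit 5, nat_lit 806)])],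
 ⟨p080_k19, nat_lit 0, nat_lit 0, nat_lit 280, nat_lit 0, nat_lit 137047, [nat_lit 1750058001, nat_lit 911351801, nat_lit 8640800], [], [nat_lit 17293561738, nat_lit 18425410590, nat_lit 20296352659, nat_lit 21234010535, nat_lit 17633098518, nat_lit 18643283309, nat_lit 21168106735, nat_lit 21467561347], nat_lit 1271250, nat_lit 1271250, nat_lit 230001, nat_lit 1717500, nat_lit 0, nat_lit 1100001, [nat_lit 490000, nat_lit 1427500, nat_lit 1271250], [nat_lit 102, nat_lit 40, nat_lit 40, nat_lit 80, nat_lit 2, nat_lit 317, nat_lit 100, nat_lit 11]⟩, C1.Rw.none,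
 ⟨nat_lit 3872, nat_lit 4473, ⟨.ofNat (nat_lit 228056), .ofNat (nat_lit 567977), .ofNat (nat_lit 271153), .ofNat (nat_lit 611083), .ofNat (nat_lit 241882), .ofNat (nat_lit 564520), .ofNat (nat_lit 285433), .ofNat (nat_lit 608080)⟩, ⟨.ofNat (nat_lit 0), .ofNat (nat_lit 302621), .ofNat (nat_lit 0), .ofNat (nat_lit 345754), .ofNat (nat_lit 0), .ofNat (nat_lit 304717), .ofNat (nat_lit 0), .ofNat (nat_lit 348304)⟩⟩, []⟩
noncomputable def p080_l92 : Lf2 := ⟨nat_lit 0, nat_lit 15, [nat_lit 30, nat_lit 5, nat_lit 5, nat_lit 20], true, nat_lit 160, nat_lit 300, nat_lit 0, nat_lit 384, ⟨nat_lit 0, nat_lit 249, nat_lit 751, nat_lit 5, nat_lit 168, nat_lit 1000, nat_lit 177, nat_lit 751, nat_lit 1169, nat_lit 218, nat_lit 817, nat_lit 208, nat_lit 46544472, nat_lit 9831130, nat_lit 10624398, nat_lit 4439732, false, false⟩,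
 nat_lit 0, nat_lit 4508, nat_lit 0, nat_lit 6731, nat_lit 3381, nat_lit 0, nat_lit 0, nat_lit 0, nat_lit 0, nat_lit 0, nat_lit 0, nat_lit 0, nat_lit 0, nat_lit 0, nat_lit 28, nat_lit 250000, nat_lit 0, nat_lit 0, [(nat_lit 19, [(nat_lit 0, nat_lit 249), (nat_lit 4, nat_lit 751)])],
 ⟨p080_k35, nat_lit 0, nat_lit 0, nat_lit 132, nat_lit 0, nat_lit 38002, [nat_lit 1748376000, nat_lit 101137600], [], [nat_lit 17646711680, nat_lit 18299492123, nat_lit 20517386420, nat_lit 21015954564, nat_lit 22531521618, nat_lit 23036694599, nat_lit 24333613625, nat_lit 24871474291], nat_lit 1271250, nat_lit 1271250, nat_lit 230001, nat_lit 1717500, nat_lit 1100001, nat_lit 2298750, [nat_lit 490000, nat_lit 1740000], [nat_lit 110, nat_lit 40, nat_lit 40, nat_lit 80, nat_lit 109, nat_lit 373, nat_lit 150, nat_lit 12]⟩, C1.Rw.none,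
 ⟨nat_lit 4183, nat_lit 4473, ⟨.ofNat (nat_lit 228083), .ofNat (nat_lit 567977), .ofNat (nat_lit 271208), .ofNat (nat_lit 611104), .ofNat (nat_lit 234973), .ofNat (nat_lit 566254), .ofNat (nat_lit 278299), .ofNat (nat_lit 609582)⟩, ⟨.ofNat (nat_lit 302621), .ofNat (nat_lit 540545), .ofNat (nat_lit 345754), .ofNat (nat_lit 583678), .ofNat (nat_lit 303743), .ofNat (nat_lit 535637), .ofNat (nat_lit 347076), .ofNat (nat_lit 578971)⟩⟩, [⟨nat_lit 4, nat_lit 100, nat_lit 84, nat_lit 93, nat_lit 182562283⟩]⟩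
noncomputable def p080_l93 : Lf2 := ⟨nat_lit 0, nat_lit 15, [nat_lit 30, nat_lit 5, nat_lit 5, nat_lit 20], false, nat_lit 160, nat_lit 288, nat_lit 0, nat_lit 384, ⟨nat_lit 0, nat_lit 312, nat_lit 688, nat_lit 5, nat_lit 172, nat_lit 1000, nat_lit 172, nat_lit 688, nat_lit 3485, nat_lit 228, nat_lit 2777, nat_lit 209, nat_lit 46625381, nat_lit 10179759, nat_lit 10194860, nat_lit 4431031, false, false⟩,
 nat_lit 0, nat_lit 4387, nat_lit 0, nat_lit 4288, nat_lit 3419, nat_lit 0, nat_lit 0, nat_lit 0, nat_lit 0, nat_lit 0, nat_lit 0, nat_lit 0, nat_lit 0, nat_lit 0, nat_lit 15, nat_lit 250000, nat_lit 0, nat_lit 0, [(nat_lit 19, [(nat_lit 0, nat_lit 312), (nat_lit 4, nat_lit 688)])],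
 ⟨p080_k38, nat_lit 0, nat_lit 0, nat_lit 138, nat_lit 0, nat_lit 84248, [nat_lit 1645888000, nat_lit 78668800], [], [nat_lit 18509565542, nat_lit 19161016916, nat_lit 21248981036, nat_lit 21749830092, nat_lit 22743747115, nat_lit 23258382824, nat_lit 24495862754, nat_lit 24932616294], nat_lit 1271250, nat_lit 1271250, nat_lit 279600, nat_lit 1722000, nat_lit 1100001, nat_lit 2196000, [nat_lit 490000, nat_lit 1740000], [nat_lit 110, nat_lit 40, nat_lit 40, nat_lit 80, nat_lit 109, nat_lit 373, nat_lit 150, nat_lit 12]⟩, ⟨p080_k36, nat_lit 0, nat_lit 0, nat_lit 453, nat_lit 0, nat_lit 184243, [nat_lit 0, nat_lit 0], [], [nat_lit 0, nat_lit 0, nat_lit 0, nat_lit 0, nat_lit 0, nat_lit 0, nat_lit 0, nat_lit 0], nat_lit 1271250, nat_lit 1271250, nat_lit 279600, nat_lit 1722000, nat_lit 0, nat_lit 2712000, [nat_lit 1412500, nat_lit 1271250], [nat_lit 149, nat_lit 40, nat_lit 40, nat_lit 80, nat_lit 68, nat_lit 456,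 nat_lit 225, nat_lit 11]⟩,
 ⟨nat_lit 3872, nat_lit 4184, ⟨.ofNat (nat_lit 248217), .ofNat (nat_lit 566254), .ofNat (nat_lit 291541), .ofNat (nat_lit 609582), .ofNat (nat_lit 254806), .ofNat (nat_lit 564520), .ofNat (nat_lit 298383), .ofNat (nat_lit 608101)⟩, ⟨.ofNat (nat_lit 303743), .ofNat (nat_lit 515761), .ofNat (nat_lit 347076), .ofNat (nat_lit 559094), .ofNat (nat_lit 304717), .ofNat (nat_lit 511186), .ofNat (nat_lit 348304), .ofNat (nat_lit 554773)⟩⟩, [⟨nat_lit 4, nat_lit 100, nat_lit 77, nat_lit 91, nat_lit 183346861⟩]⟩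
noncomputable def p080_l94 : Lf2 := ⟨nat_lit 1, nat_lit 20, [nat_lit 5, nat_lit 5, nat_lit 5, nat_lit 20], false, nat_lit 0, nat_lit 300, nat_lit 0, nat_lit 384, zbN0,
 nat_lit 0, nat_lit 0, nat_lit 0, nat_lit 0, nat_lit 0, nat_lit 0, nat_lit 0, nat_lit 0, nat_lit 0, nat_lit 0, nat_lit 0, nat_lit 0, nat_lit 0, nat_lit 0, nat_lit 0, nat_lit 0, nat_lit 0, nat_lit 0, [],
 C1.Rw.none, C1.Rw.none,
 zbF0, []⟩
noncomputable def p080_l95 : Lf2 := ⟨nat_lit 0, nat_lit 20, [nat_lit 5, nat_lit 5, nat_lit 5, nat_lit 20], true, nat_lit 0, nat_lit 160, nat_lit 0, nat_lit 384, ⟨nat_lit 0, nat_lit 69, nat_lit 931, nat_lit 5, nat_lit 151, nat_lit 670, nat_lit 65, nat_lit 931, nat_lit 40017, nat_lit 264, nat_lit 62567, nat_lit 276, nat_lit 58640108, nat_lit 8359892, nat_lit 0, nat_lit 1881653, false, false⟩,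
 nat_lit 0, nat_lit 3871, nat_lit 0, nat_lit 0, nat_lit 3133, nat_lit 0, nat_lit 0, nat_lit 0, nat_lit 0, nat_lit 0, nat_lit 0, nat_lit 0, nat_lit 0, nat_lit 0, nat_lit 80, nat_lit 250000, nat_lit 0, nat_lit 0, [(nat_lit 22, [(nat_lit 0, nat_lit 69), (nat_lit 4, nat_lit 931)])],
 ⟨p080_k16, nat_lit 0, nat_lit 0, nat_lit 359, nat_lit 0, nat_lit 308442, [nat_lit 2136499201, nat_lit 12653715], [], [nat_lit 19632158421, nat_lit 20848496976, nat_lit 20634745503, nat_lit 21836670957, nat_lit 20092567915, nat_lit 21300253454, nat_lit 21297783773, nat_lit 22442586113], nat_lit 1271250, nat_lit 1271250, nat_lit 330400, nat_lit 1100001, nat_lit 0, nat_lit 1100001, [nat_lit 490000, nat_lit 1740000], [nat_lit 110, nat_lit 40, nat_lit 40, nat_lit 80, nat_lit 109, nat_lit 317, nat_lit 100, nat_lit 10]⟩, C1.Rw.none,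
 ⟨nat_lit 3162, nat_lit 3873, ⟨.ofNat (nat_lit 267606), .ofNat (nat_lit 435446), .ofNat (nat_lit 311135), .ofNat (nat_lit 478975), .ofNat (nat_lit 280451), .ofNat (nat_lit 439014), .ofNat (nat_lit 324704), .ofNat (nat_lit 483267)⟩, ⟨.ofNat (nat_lit 0), .ofNat (nat_lit 304717), .ofNat (nat_lit 0), .ofNat (nat_lit 348304), .ofNat (nat_lit 0), .ofNat (nat_lit 306116), .ofNat (nat_lit 0), .ofNat (nat_lit 350426)⟩⟩, []⟩
noncomputable def p080_l96 : Lf2 := ⟨nat_lit 0, nat_lit 20, [nat_lit 5, nat_lit 5, nat_lit 5, nat_lit 20], false, nat_lit 0, nat_lit 160, nat_lit 0, nat_lit 384, ⟨nat_lit 74, nat_lit 236, nat_lit 690, nat_lit 5, nat_lit 209, nat_lit 926, nat_lit 65, nat_lit 690, nat_lit 40017, nat_lit 264, nat_lit 5723, nat_lit 210, nat_lit 52655659, nat_lit 14344341, nat_lit 0, nat_lit 2596656, false, false⟩,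
 nat_lit 2365, nat_lit 1188, nat_lit 0, nat_lit 2223, nat_lit 2876, nat_lit 1013, nat_lit 0, nat_lit 0, nat_lit 0, nat_lit 42, nat_lit 0, nat_lit 0, nat_lit 0, nat_lit 0, nat_lit 52, nat_lit 335000, nat_lit 0, nat_lit 0, [(nat_lit 22, [(nat_lit 0, nat_lit 236), (nat_lit 5, nat_lit 690)])],
 ⟨p080_k37, nat_lit 0, nat_lit 0, nat_lit 259, nat_lit 0, nat_lit 203849, [nat_lit 1609856001, nat_lit 614194800, nat_lit 7558400], [], [nat_lit 19743252329, nat_lit 20745217299, nat_lit 21802556171, nat_lit 22840240899, nat_lit 20191413923, nat_lit 21197250483, nat_lit 22147467339, nat_lit 23037154803], nat_lit 1271250, nat_lit 1271250, nat_lit 1100001, nat_lit 1785000, nat_lit 0, nat_lit 1100001, [nat_lit 490000, nat_lit 1427500, nat_lit 1271250], [nat_lit 102, nat_lit 40, nat_lit 40, nat_lit 80, nat_lit 2, nat_lit 317, nat_lit 100, nat_lit 10]⟩, ⟨p080_k18, nat_lit 0, nat_lit 0, nat_lit 587, nat_lit 0, nat_lit 472305,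 [nat_lit 462500000, nat_lit 878528000, nat_lit 1040292000], [], [nat_lit 3250413168, nat_lit 3251651552, nat_lit 3191039836, nat_lit 3179574384, nat_lit 4655626641, nat_lit 3733337144, nat_lit 2822945130, nat_lit 2619852617], nat_lit 1271250, nat_lit 1271250, nat_lit 1271250, nat_lit 1271250, nat_lit 0, nat_lit 2712000, [nat_lit 1412500, nat_lit 1271250, nat_lit 1271250], [nat_lit 137, nat_lit 40, nat_lit 40, nat_lit 80, nat_lit 58, nat_lit 456, nat_lit 225, nat_lit 11]⟩,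
 ⟨nat_lit 3162, nat_lit 3873, ⟨.ofNat (nat_lit 435446), .ofNat (nat_lit 564520), .ofNat (nat_lit 478975), .ofNat (nat_lit 608082), .ofNat (nat_lit 439014), .ofNat (nat_lit 560952), .ofNat (nat_lit 483267), .ofNat (nat_lit 605237)⟩, ⟨.ofNat (nat_lit 0), .ofNat (nat_lit 304717), .ofNat (nat_lit 0), .ofNat (nat_lit 348304), .ofNat (nat_lit 0), .ofNat (nat_lit 306116), .ofNat (nat_lit 0), .ofNat (nat_lit 350426)⟩⟩, [⟨nat_lit 3, nat_lit 100, nat_lit 65, nat_lit 54, nat_lit 3546287⟩, ⟨nat_lit 22, nat_lit 100, nat_lit 60, nat_lit 80, nat_lit 9548302⟩]⟩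
noncomputable def p080_l97 : Lf2 := ⟨nat_lit 0, nat_lit 20, [nat_lit 5, nat_lit 5, nat_lit 5, nat_lit 20], false, nat_lit 160, nat_lit 276, nat_lit 0, nat_lit 384, ⟨nat_lit 0, nat_lit 454, nat_lit 546, nat_lit 5, nat_lit 176, nat_lit 1000, nat_lit 168, nat_lit 546, nat_lit 13749, nat_lit 240, nat_lit 600, nat_lit 209, nat_lit 46694155, nat_lit 10521460, nat_lit 9784385, nat_lit 4421092, false, false⟩,
 nat_lit 0, nat_lit 4501, nat_lit 0, nat_lit 820, nat_lit 3643, nat_lit 0, nat_lit 0, nat_lit 0, nat_lit 0, nat_lit 0, nat_lit 0, nat_lit 0, nat_lit 0, nat_lit 0, nat_lit 1, nat_lit 250000, nat_lit 0, nat_lit 0, [(nat_lit 22, [(nat_lit 0, nat_lit 454), (nat_lit 4, nat_lit 546)])],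
 ⟨p080_k16, nat_lit 0, nat_lit 0, nat_lit 148, nat_lit 0, nat_lit 140370, [nat_lit 1534067200, nat_lit 21688000], [], [nat_lit 19436038332, nat_lit 20062316501, nat_lit 21988176542, nat_lit 22472867183, nat_lit 22936857833, nat_lit 23504672675, nat_lit 24661513918, nat_lit 25141702107], nat_lit 1271250, nat_lit 1271250, nat_lit 330400, nat_lit 1726500, nat_lit 1100001, nat_lit 2093250, [nat_lit 490000, nat_lit 1740000], [nat_lit 110, nat_lit 40, nat_lit 40, nat_lit 80, nat_lit 109, nat_lit 373, nat_lit 150, nat_lit 12]⟩, ⟨p080_k15, nat_lit 0, nat_lit 0, nat_lit 576, nat_lit 0, nat_lit 325229, [nat_lit 0, nat_lit 0], [], [nat_lit 0, nat_lit 0, nat_lit 0, nat_lit 0, nat_lit 0, nat_lit 0, nat_lit 0, nat_lit 0], nat_lit 1271250, nat_lit 1271250, nat_lit 330400, nat_lit 1726500, nat_lit 0, nat_lit 2712000, [nat_lit 1412500, nat_lit 1271250], [nat_lit 149, nat_lit 40, nat_lit 40, nat_lit 80, nat_lit 68, nat_lit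 456, nat_lit 225, nat_lit 11]⟩,
 ⟨nat_lit 3535, nat_lit 3873, ⟨.ofNat (nat_lit 267701), .ofNat (nat_lit 564520), .ofNat (nat_lit 311275), .ofNat (nat_lit 608101), .ofNat (nat_lit 274037), .ofNat (nat_lit 562760), .ofNat (nat_lit 317930), .ofNat (nat_lit 606659)⟩, ⟨.ofNat (nat_lit 304717), .ofNat (nat_lit 491830), .ofNat (nat_lit 348304), .ofNat (nat_lit 535416), .ofNat (nat_lit 305521), .ofNat (nat_lit 487529), .ofNat (nat_lit 349427), .ofNat (nat_lit 531435)⟩⟩, [⟨nat_lit 16, nat_lit 77, nat_lit 100, nat_lit 99, nat_lit 110430478⟩, ⟨nat_lit 4, nat_lit 100, nat_lit 71, nat_lit 89, nat_lit 57552307⟩]⟩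
noncomputable def p080_l98 : Lf2 := ⟨nat_lit 0, nat_lit 20, [nat_lit 5, nat_lit 5, nat_lit 5, nat_lit 20], false, nat_lit 160, nat_lit 264, nat_lit 0, nat_lit 384, ⟨nat_lit 0, nat_lit 509, nat_lit 491, nat_lit 5, nat_lit 179, nat_lit 1000, nat_lit 163, nat_lit 491, nat_lit 25644, nat_lit 253, nat_lit 2736, nat_lit 210, nat_lit 46752059, nat_lit 10856723, nat_lit 9391218, nat_lit 4409999, false, false⟩,
 nat_lit 0, nat_lit 4408, nat_lit 0, nat_lit 0, nat_lit 3702, nat_lit 0, nat_lit 0, nat_lit 0, nat_lit 0, nat_lit 0, nat_lit 0, nat_lit 0, nat_lit 0, nat_lit 0, nat_lit 0, nat_lit 250000, nat_lit 0, nat_lit 0, [(nat_lit 22, [(nat_lit 0, nat_lit 509), (nat_lit 4, nat_lit 491)])],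
 ⟨p080_k39, nat_lit 0, nat_lit 0, nat_lit 157, nat_lit 0, nat_lit 194706, [nat_lit 1530291201, nat_lit 271148000], [], [nat_lit 20196109008, nat_lit 20822413012, nat_lit 22632113064, nat_lit 23120047938, nat_lit 23184140431, nat_lit 23768395375, nat_lit 24874035757, nat_lit 25287901258], nat_lit 1271250, nat_lit 1271250, nat_lit 382400, nat_lit 1731000, nat_lit 1100001, nat_lit 1990500, [nat_lit 490000, nat_lit 1740000], [nat_lit 110, nat_lit 40, nat_lit 40, nat_lit 80, nat_lit 109, nat_lit 373, nat_lit 150, nat_lit 12]⟩, ⟨p080_k15, nat_lit 0, nat_lit 0, nat_lit 618, nat_lit 0, nat_lit 472305, [nat_lit 0, nat_lit 0], [], [nat_lit 0, nat_lit 0, nat_lit 0, nat_lit 0, nat_lit 0, nat_lit 0, nat_lit 0, nat_lit 0], nat_lit 1271250, nat_lit 1271250, nat_lit 382400, nat_lit 1731000, nat_lit 0, nat_lit 2712000, [nat_lit 1412500, nat_lit 1271250], [nat_lit 149, nat_lit 40, nat_lit 40, nat_lit 80, nat_lit 68, nat_lit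 456, nat_lit 225, nat_lit 11]⟩,
 ⟨nat_lit 3162, nat_lit 3536, ⟨.ofNat (nat_lit 286575), .ofNat (nat_lit 562760), .ofNat (nat_lit 330464), .ofNat (nat_lit 606660), .ofNat (nat_lit 292723), .ofNat (nat_lit 560952), .ofNat (nat_lit 337016), .ofNat (nat_lit 605256)⟩, ⟨.ofNat (nat_lit 305521), .ofNat (nat_lit 468701), .ofNat (nat_lit 349427), .ofNat (nat_lit 512606), .ofNat (nat_lit 306116), .ofNat (nat_lit 464594), .ofNat (nat_lit 350426), .ofNat (nat_lit 508904)⟩⟩, [⟨nat_lit 16, nat_lit 69, nat_lit 100, nat_lit 96, nat_lit 168928491⟩]⟩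
noncomputable def b_V_800_500_20_18 : St := ⟨true, nat_lit 1, nat_lit 1, nat_lit 1, nat_lit 120, nat_lit 320, nat_lit 360, nat_lit 200, nat_lit 240, nat_lit 40, nat_lit 240, nat_lit 80, nat_lit 120, nat_lit 0, nat_lit 300, nat_lit 0, nat_lit 384, nat_lit 40, nat_lit 80, nat_lit 0, nat_lit 0, nat_lit 0, nat_lit 0⟩
theorem d_V_800_500_20_18 (h : EB TB.env) : Dead b_V_800_500_20_18 := chkB_sound0 h (T :=
(.spl (nat_lit 0) (nat_lit 340)
(.spl (nat_lit 6) (nat_lit 60)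
(.spl (nat_lit 4) (nat_lit 160)
(.leaf p080_l91)
(.spl (nat_lit 0) (nat_lit 330)
(.leaf p080_l92)
(.trZ (nat_lit 0) (nat_lit 100) (nat_lit 76) (nat_lit 65) (nat_lit 48) (.trX (nat_lit 16) (nat_lit 83) (nat_lit 98) (nat_lit 100) (nat_lit 288) (.leaf p080_l93)))))
(.leaf p080_l94))
(.trZ (nat_lit 0) (nat_lit 100) (nat_lit 71) (nat_lit 70) (nat_lit 56) (.trX (nat_lit 16) (nat_lit 77) (nat_lit 100) (nat_lit 99) (nat_lit 276) (.spl (nat_lit 4) (nat_lit 160)
(.spl (nat_lit 2) (nat_lit 160)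
(.leaf p080_l95)
(.leaf p080_l96))
(.spl (nat_lit 0) (nat_lit 350)
(.leaf p080_l97)
(.trZ (nat_lit 0) (nat_lit 100) (nat_lit 66) (nat_lit 75) (nat_lit 64) (.trX (nat_lit 16) (nat_lit 69) (nat_lit 100) (nat_lit 96) (nat_lit 264) (.leaf p080_l98))))))))) (by decide +kernel)
noncomputable def p080_l99 : Lf2 := ⟨nat_lit 0, nat_lit 15, [nat_lit 30, nat_lit 5, nat_lit 5, nat_lit 20], false, nat_lit 0, nat_lit 160, nat_lit 0, nat_lit 384, ⟨nat_lit 729, nat_lit 0, nat_lit 271, nat_lit 6, nat_lit 283, nat_lit 271, nat_lit 65, nat_lit 271, nat_lit 40017, nat_lit 264, nat_lit 440398, nat_lit 200, nat_lit 44664015, nat_lit 0, nat_lit 0, nat_lit 3182707, true, true⟩,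
 nat_lit 16360, nat_lit 0, nat_lit 0, nat_lit 0, nat_lit 5724, nat_lit 7011, nat_lit 383, nat_lit 0, nat_lit 0, nat_lit 538, nat_lit 0, nat_lit 0, nat_lit 0, nat_lit 0, nat_lit 0, nat_lit 271000, nat_lit 0, nat_lit 0, [(nat_lit 19, [(nat_lit 6, nat_lit 271)])],
 ⟨p080_k23, nat_lit 0, nat_lit 0, nat_lit 233, nat_lit 0, nat_lit 88392, [nat_lit 1767359467, nat_lit 3162703601, nat_lit 3950154000], [], [nat_lit 24004991520, nat_lit 26228323256, nat_lit 35764453047, nat_lit 37177282772, nat_lit 20359775460, nat_lit 21546191250, nat_lit 29778037377, nat_lit 31012333469], nat_lit 1271250, nat_lit 1271250, nat_lit 1271250, nat_lit 1271250, nat_lit 0, nat_lit 1100001, [nat_lit 490000, nat_lit 1100000, nat_lit 1785000], [nat_lit 34, nat_lit 40, nat_lit 40, nat_lit 80, nat_lit 7, nat_lit 249, nat_lit 40, nat_lit 7]⟩, ⟨p080_k22, nat_lit 0, nat_lit 0, nat_lit 409, nat_lit 0, nat_lit 184243, [nat_lit 4556250000, nat_lit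 7174818000, nat_lit 10248282000], [], [nat_lit 28616117452, nat_lit 29125243528, nat_lit 33559260641, nat_lit 33582107407, nat_lit 28839856184, nat_lit 26411128080, nat_lit 29111113939, nat_lit 28864860619], nat_lit 1271250, nat_lit 1271250, nat_lit 1271250, nat_lit 1271250, nat_lit 0, nat_lit 2712000, [nat_lit 1412500, nat_lit 1271250, nat_lit 1271250], [nat_lit 60, nat_lit 40, nat_lit 40, nat_lit 80, nat_lit 32, nat_lit 538, nat_lit 300, nat_lit 12]⟩,
 ⟨nat_lit 3872, nat_lit 4473, ⟨.ofNat (nat_lit 567977), .ofNat (nat_lit 812698), .ofNat (nat_lit 611083), .ofNat (nat_lit 855824), .ofNat (nat_lit 564520), .ofNat (nat_lit 796798), .ofNat (nat_lit 608080), .ofNat (nat_lit 840378)⟩, ⟨.ofNat (nat_lit 0), .ofNat (nat_lit 302621), .ofNat (nat_lit 0), .ofNat (nat_lit 345754), .ofNat (nat_lit 0), .ofNat (nat_lit 304717), .ofNat (nat_lit 0), .ofNat (nat_lit 348304)⟩⟩, [⟨nat_lit 22, nat_lit 88, nat_lit 100, nat_lit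 85, nat_lit 113834788⟩]⟩
noncomputable def p080_l100 : Lf2 := ⟨nat_lit 1, nat_lit 20, [nat_lit 5, nat_lit 5, nat_lit 5, nat_lit 20], false, nat_lit 0, nat_lit 160, nat_lit 0, nat_lit 384, zbN0,
 nat_lit 0, nat_lit 0, nat_lit 0, nat_lit 0, nat_lit 0, nat_lit 0, nat_lit 0, nat_lit 0, nat_lit 0, nat_lit 0, nat_lit 0, nat_lit 0, nat_lit 0, nat_lit 0, nat_lit 0, nat_lit 0, nat_lit 0, nat_lit 0, [],
 C1.Rw.none, C1.Rw.none,
 zbF0, []⟩
noncomputable def p080_l101 : Lf2 := ⟨nat_lit 0, nat_lit 20, [nat_lit 5, nat_lit 5, nat_lit 5, nat_lit 20], false, nat_lit 0, nat_lit 80, nat_lit 0, nat_lit 336, ⟨nat_lit 513, nat_lit 487, nat_lit 0, nat_lit 6, nat_lit 267, nat_lit 487, nat_lit 38, nat_lit 0, nat_lit 0, nat_lit 0, nat_lit 0, nat_lit 0, nat_lit 46334848, nat_lit 20665152, nat_lit 0, nat_lit 3089213, true, true⟩,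
 nat_lit 9990, nat_lit 0, nat_lit 0, nat_lit 0, nat_lit 4006, nat_lit 4281, nat_lit 525, nat_lit 0, nat_lit 0, nat_lit 463, nat_lit 0, nat_lit 0, nat_lit 0, nat_lit 0, nat_lit 0, nat_lit 194800, nat_lit 0, nat_lit 0, [(nat_lit 22, [(nat_lit 1, nat_lit 487)])],
 ⟨p080_k26, nat_lit 0, nat_lit 0, nat_lit 258, nat_lit 0, nat_lit 171393, [nat_lit 1703956801, nat_lit 3162131600, nat_lit 4766851600], [], [nat_lit 23602559891, nat_lit 25066665848, nat_lit 30659409916, nat_lit 31947678432, nat_lit 22315023639, nat_lit 23267584404, nat_lit 27529385200, nat_lit 28768684392], nat_lit 1271250, nat_lit 1271250, nat_lit 1271250, nat_lit 1271250, nat_lit 0, nat_lit 490000, [nat_lit 490000, nat_lit 1100000, nat_lit 1785000], [nat_lit 34, nat_lit 40, nat_lit 40, nat_lit 80, nat_lit 7, nat_lit 226, nat_lit 20, nat_lit 7]⟩, ⟨p080_k27, nat_lit 0, nat_lit 0, nat_lit 486, nat_lit 0, nat_lit 397108, [nat_lit 3206250000, nat_lit 5048946000,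 nat_lit 7211754000], [], [nat_lit 20647542128, nat_lit 20738380868, nat_lit 22527204596, nat_lit 22517429210, nat_lit 18643016513, nat_lit 18292344641, nat_lit 19805818042, nat_lit 19806621435], nat_lit 1271250, nat_lit 1271250, nat_lit 1271250, nat_lit 1271250, nat_lit 0, nat_lit 2373000, [nat_lit 1412500, nat_lit 1271250, nat_lit 1271250], [nat_lit 60, nat_lit 40, nat_lit 40, nat_lit 80, nat_lit 32, nat_lit 483, nat_lit 250, nat_lit 11]⟩,
 ⟨nat_lit 3162, nat_lit 3873, ⟨.ofNat (nat_lit 564520), .ofNat (nat_lit 758085), .ofNat (nat_lit 586313), .ofNat (nat_lit 779878), .ofNat (nat_lit 560952), .ofNat (nat_lit 743812), .ofNat (nat_lit 583107), .ofNat (nat_lit 765967)⟩, ⟨.ofNat (nat_lit 0), .ofNat (nat_lit 175674), .ofNat (nat_lit 0), .ofNat (nat_lit 200000), .ofNat (nat_lit 0), .ofNat (nat_lit 184209), .ofNat (nat_lit 0), .ofNat (nat_lit 200000)⟩⟩, [⟨nat_lit 22, nat_lit 87, nat_lit 100, nat_lit 60, nat_lit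 109036471⟩]⟩
noncomputable def p080_l102 : Lf2 := ⟨nat_lit 0, nat_lit 20, [nat_lit 5, nat_lit 5, nat_lit 5, nat_lit 20], false, nat_lit 0, nat_lit 80, nat_lit 0, nat_lit 336, ⟨nat_lit 692, nat_lit 308, nat_lit 0, nat_lit 6, nat_lit 278, nat_lit 308, nat_lit 38, nat_lit 0, nat_lit 0, nat_lit 0, nat_lit 0, nat_lit 0, nat_lit 45132596, nat_lit 21867404, nat_lit 0, nat_lit 3157922, true, true⟩,
 nat_lit 5656, nat_lit 0, nat_lit 7126, nat_lit 0, nat_lit 4578, nat_lit 6113, nat_lit 621, nat_lit 0, nat_lit 0, nat_lit 711, nat_lit 0, nat_lit 0, nat_lit 0, nat_lit 0, nat_lit 0, nat_lit 123200, nat_lit 0, nat_lit 0, [(nat_lit 22, [(nat_lit 1, nat_lit 308)])],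
 ⟨p080_k26, nat_lit 0, nat_lit 0, nat_lit 269, nat_lit 0, nat_lit 203849, [nat_lit 1824531201, nat_lit 3722974401, nat_lit 5943454400], [], [nat_lit 24253313732, nat_lit 26193682024, nat_lit 32744381501, nat_lit 34081363049, nat_lit 21640374584, nat_lit 22649569030, nat_lit 28988003206, nat_lit 30275147079], nat_lit 1271250, nat_lit 1271250, nat_lit 1271250, nat_lit 1271250, nat_lit 0, nat_lit 490000, [nat_lit 490000, nat_lit 1100000, nat_lit 1785000], [nat_lit 34, nat_lit 40, nat_lit 40, nat_lit 80, nat_lit 7, nat_lit 226, nat_lit 20, nat_lit 7]⟩, ⟨p080_k28, nat_lit 0, nat_lit 0, nat_lit 485, nat_lit 0, nat_lit 405688, [nat_lit 4325000000, nat_lit 6810664000, nat_lit 9728136000], [], [nat_lit 24157234360, nat_lit 24404785654, nat_lit 27828876487, nat_lit 27884813651, nat_lit 22183282568, nat_lit 21761295139, nat_lit 24056402399, nat_lit 24033096167], nat_lit 1271250, nat_lit 1271250, nat_lit 1271250, nat_lit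 1271250, nat_lit 0, nat_lit 2373000, [nat_lit 1412500, nat_lit 1271250, nat_lit 1271250], [nat_lit 60, nat_lit 40, nat_lit 40, nat_lit 80, nat_lit 32, nat_lit 483, nat_lit 250, nat_lit 11]⟩,
 ⟨nat_lit 3162, nat_lit 3873, ⟨.ofNat (nat_lit 586313), .ofNat (nat_lit 792782), .ofNat (nat_lit 608082), .ofNat (nat_lit 814576), .ofNat (nat_lit 583107), .ofNat (nat_lit 778158), .ofNat (nat_lit 605237), .ofNat (nat_lit 800312)⟩, ⟨.ofNat (nat_lit 0), .ofNat (nat_lit 175674), .ofNat (nat_lit 0), .ofNat (nat_lit 200000), .ofNat (nat_lit 0), .ofNat (nat_lit 184209), .ofNat (nat_lit 0), .ofNat (nat_lit 200000)⟩⟩, [⟨nat_lit 22, nat_lit 86, nat_lit 100, nat_lit 60, nat_lit 151776277⟩]⟩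
noncomputable def p080_l103 : Lf2 := ⟨nat_lit 0, nat_lit 20, [nat_lit 5, nat_lit 5, nat_lit 5, nat_lit 20], false, nat_lit 80, nat_lit 160, nat_lit 0, nat_lit 384, ⟨nat_lit 217, nat_lit 783, nat_lit 0, nat_lit 6, nat_lit 267, nat_lit 783, nat_lit 103, nat_lit 0, nat_lit 0, nat_lit 0, nat_lit 0, nat_lit 0, nat_lit 42798148, nat_lit 19761060, nat_lit 4440792, nat_lit 4378187, true, true⟩,
 nat_lit 4951, nat_lit 0, nat_lit 0, nat_lit 1426, nat_lit 4007, nat_lit 2121, nat_lit 165, nat_lit 0, nat_lit 0, nat_lit 190, nat_lit 0, nat_lit 0, nat_lit 0, nat_lit 0, nat_lit 0, nat_lit 313200, nat_lit 0, nat_lit 0, [(nat_lit 22, [(nat_lit 1, nat_lit 783)])],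
 ⟨p080_k26, nat_lit 0, nat_lit 0, nat_lit 178, nat_lit 0, nat_lit 171393, [nat_lit 1504571201, nat_lit 2234704400, nat_lit 2821184400], [], [nat_lit 22868364084, nat_lit 23917338137, nat_lit 27752493808, nat_lit 28770321124, nat_lit 23259706800, nat_lit 24173789802, nat_lit 27615919558, nat_lit 28481433092], nat_lit 1271250, nat_lit 1271250, nat_lit 1271250, nat_lit 1271250, nat_lit 490000, nat_lit 1100001, [nat_lit 490000, nat_lit 1100000, nat_lit 1785000], [nat_lit 34, nat_lit 40, nat_lit 40, nat_lit 80, nat_lit 7, nat_lit 249, nat_lit 40, nat_lit 7]⟩, ⟨p080_k27, nat_lit 0, nat_lit 0, nat_lit 486, nat_lit 0, nat_lit 397108, [nat_lit 1356250000, nat_lit 2135714000, nat_lit 3050586000], [], [nat_lit 8708684612, nat_lit 8737958920, nat_lit 9536366376, nat_lit 9517134926, nat_lit 8572888392, nat_lit 7631931345, nat_lit 8203086674, nat_lit 8176318397], nat_lit 1271250, nat_lit 1271250, nat_lit 1271250, nat_lit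 1271250, nat_lit 0, nat_lit 2712000, [nat_lit 1412500, nat_lit 1271250, nat_lit 1271250], [nat_lit 60, nat_lit 40, nat_lit 40, nat_lit 80, nat_lit 32, nat_lit 483, nat_lit 250, nat_lit 11]⟩,
 ⟨nat_lit 3162, nat_lit 3873, ⟨.ofNat (nat_lit 564520), .ofNat (nat_lit 758085), .ofNat (nat_lit 586313), .ofNat (nat_lit 779878), .ofNat (nat_lit 560952), .ofNat (nat_lit 743812), .ofNat (nat_lit 583107), .ofNat (nat_lit 765967)⟩, ⟨.ofNat (nat_lit 175674), .ofNat (nat_lit 304717), .ofNat (nat_lit 200000), .ofNat (nat_lit 348304), .ofNat (nat_lit 184209), .ofNat (nat_lit 306116), .ofNat (nat_lit 200000), .ofNat (nat_lit 350426)⟩⟩, [⟨nat_lit 13, nat_lit 60, nat_lit 80, nat_lit 100, nat_lit 57208954⟩, ⟨nat_lit 22, nat_lit 94, nat_lit 88, nat_lit 100, nat_lit 27715568⟩]⟩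
noncomputable def p080_l104 : Lf2 := ⟨nat_lit 0, nat_lit 20, [nat_lit 5, nat_lit 5, nat_lit 5, nat_lit 20], false, nat_lit 80, nat_lit 160, nat_lit 0, nat_lit 376, ⟨nat_lit 351, nat_lit 649, nat_lit 0, nat_lit 6, nat_lit 278, nat_lit 649, nat_lit 103, nat_lit 0, nat_lit 0, nat_lit 0, nat_lit 0, nat_lit 0, nat_lit 41764394, nat_lit 20857623, nat_lit 4377983, nat_lit 4428179, true, true⟩,
 nat_lit 6205, nat_lit 0, nat_lit 0, nat_lit 0, nat_lit 4277, nat_lit 2967, nat_lit 0, nat_lit 0, nat_lit 0, nat_lit 284, nat_lit 0, nat_lit 0, nat_lit 0, nat_lit 0, nat_lit 0, nat_lit 468400, nat_lit 0, nat_lit 0, [(nat_lit 22, [(nat_lit 1, nat_lit 301), (nat_lit 2, nat_lit 348)])],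
 ⟨p080_k26, nat_lit 0, nat_lit 0, nat_lit 189, nat_lit 0, nat_lit 203849, [nat_lit 1607454401, nat_lit 2111534001, nat_lit 1869703600], [], [nat_lit 23228054837, nat_lit 24332754133, nat_lit 28704937848, nat_lit 29762793066, nat_lit 23504874039, nat_lit 24502839345, nat_lit 28419852510, nat_lit 29299289314], nat_lit 1271250, nat_lit 1271250, nat_lit 1271250, nat_lit 1271250, nat_lit 490000, nat_lit 1100001, [nat_lit 490000, nat_lit 1100000, nat_lit 1785000], [nat_lit 34, nat_lit 40, nat_lit 40, nat_lit 80, nat_lit 7, nat_lit 249, nat_lit 40, nat_lit 7]⟩, ⟨p080_k28, nat_lit 0, nat_lit 0, nat_lit 485, nat_lit 0, nat_lit 405688, [nat_lit 2193750000, nat_lit 3454542000, nat_lit 4934358000], [], [nat_lit 13141506502, nat_lit 13268527540, nat_lit 14971327707, nat_lit 15004662309, nat_lit 12492064866, nat_lit 12327206443, nat_lit 13143999102, nat_lit 13117266400], nat_lit 1271250, nat_lit 1271250, nat_lit 1271250,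 nat_lit 1271250, nat_lit 0, nat_lit 2655500, [nat_lit 1412500, nat_lit 1271250, nat_lit 1271250], [nat_lit 60, nat_lit 40, nat_lit 40, nat_lit 80, nat_lit 32, nat_lit 483, nat_lit 250, nat_lit 11]⟩,
 ⟨nat_lit 3162, nat_lit 3873, ⟨.ofNat (nat_lit 586313), .ofNat (nat_lit 792782), .ofNat (nat_lit 608082), .ofNat (nat_lit 814576), .ofNat (nat_lit 583107), .ofNat (nat_lit 778158), .ofNat (nat_lit 605237), .ofNat (nat_lit 800312)⟩, ⟨.ofNat (nat_lit 175674), .ofNat (nat_lit 304717), .ofNat (nat_lit 200000), .ofNat (nat_lit 348304), .ofNat (nat_lit 184209), .ofNat (nat_lit 306116), .ofNat (nat_lit 200000), .ofNat (nat_lit 350426)⟩⟩, [⟨nat_lit 22, nat_lit 93, nat_lit 89, nat_lit 100, nat_lit 48087246⟩]⟩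
noncomputable def p080_l105 : Lf2 := ⟨nat_lit 0, nat_lit 15, [nat_lit 30, nat_lit 5, nat_lit 5, nat_lit 20], false, nat_lit 160, nat_lit 300, nat_lit 0, nat_lit 384, ⟨nat_lit 293, nat_lit 707, nat_lit 0, nat_lit 6, nat_lit 262, nat_lit 707, nat_lit 177, nat_lit 0, nat_lit 0, nat_lit 0, nat_lit 0, nat_lit 0, nat_lit 39343415, nat_lit 18047277, nat_lit 9609308, nat_lit 5084444, true, true⟩,
 nat_lit 7042, nat_lit 0, nat_lit 0, nat_lit 3590, nat_lit 4322, nat_lit 3018, nat_lit 0, nat_lit 0, nat_lit 0, nat_lit 272, nat_lit 0, nat_lit 0, nat_lit 0, nat_lit 0, nat_lit 0, nat_lit 176750, nat_lit 0, nat_lit 0, [(nat_lit 19, [(nat_lit 0, nat_lit 707)])],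
 ⟨p080_k23, nat_lit 0, nat_lit 0, nat_lit 77, nat_lit 0, nat_lit 88392, [nat_lit 1685852800, nat_lit 2922196800, nat_lit 4386055200], [], [nat_lit 20655264896, nat_lit 22013969280, nat_lit 24520674440, nat_lit 25647866176, nat_lit 25375848710, nat_lit 26406914809, nat_lit 28242703220, nat_lit 29106296263], nat_lit 1271250, nat_lit 1271250, nat_lit 1271250, nat_lit 1271250, nat_lit 1100001, nat_lit 2298750, [nat_lit 490000, nat_lit 1100000, nat_lit 1785000], [nat_lit 34, nat_lit 40, nat_lit 40, nat_lit 80, nat_lit 7, nat_lit 289, nat_lit 75, nat_lit 8]⟩, ⟨p080_k22, nat_lit 0, nat_lit 0, nat_lit 399, nat_lit 0, nat_lit 184243, [nat_lit 1831250000, nat_lit 2883706000, nat_lit 4118994000], [], [nat_lit 10954877616, nat_lit 11155143632, nat_lit 11900940196, nat_lit 11989835872, nat_lit 11521881174, nat_lit 10033013148, nat_lit 10478403308, nat_lit 10428465359], nat_lit 1271250, nat_lit 1271250, nat_lit 1271250,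 nat_lit 1271250, nat_lit 0, nat_lit 2712000, [nat_lit 1412500, nat_lit 1271250, nat_lit 1271250], [nat_lit 60, nat_lit 40, nat_lit 40, nat_lit 80, nat_lit 32, nat_lit 483, nat_lit 250, nat_lit 11]⟩,
 ⟨nat_lit 3872, nat_lit 4473, ⟨.ofNat (nat_lit 567977), .ofNat (nat_lit 703933), .ofNat (nat_lit 611083), .ofNat (nat_lit 747053), .ofNat (nat_lit 564520), .ofNat (nat_lit 693563), .ofNat (nat_lit 608080), .ofNat (nat_lit 737137)⟩, ⟨.ofNat (nat_lit 302621), .ofNat (nat_lit 540545), .ofNat (nat_lit 345754), .ofNat (nat_lit 583678), .ofNat (nat_lit 304717), .ofNat (nat_lit 530543), .ofNat (nat_lit 348304), .ofNat (nat_lit 574129)⟩⟩, [⟨nat_lit 4, nat_lit 100, nat_lit 81, nat_lit 92, nat_lit 234003250⟩, ⟨nat_lit 19, nat_lit 100, nat_lit 59, nat_lit 87, nat_lit 44300674⟩]⟩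
noncomputable def p080_l106 : Lf2 := ⟨nat_lit 0, nat_lit 15, [nat_lit 30, nat_lit 5, nat_lit 5, nat_lit 20], false, nat_lit 160, nat_lit 300, nat_lit 16, nat_lit 384, ⟨nat_lit 1000, nat_lit 0, nat_lit 0, nat_lit 0, nat_lit 0, nat_lit 0, nat_lit 0, nat_lit 0, nat_lit 0, nat_lit 0, nat_lit 0, nat_lit 0, nat_lit 0, nat_lit 0, nat_lit 0, nat_lit 0, false, false⟩,
 nat_lit 7600, nat_lit 0, nat_lit 14591, nat_lit 3036, nat_lit 5700, nat_lit 9510, nat_lit 605, nat_lit 0, nat_lit 0, nat_lit 859, nat_lit 0, nat_lit 0, nat_lit 0, nat_lit 0, nat_lit 0, nat_lit 0, nat_lit 0, nat_lit 0, [],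
 ⟨p080_k23, nat_lit 0, nat_lit 0, nat_lit 93, nat_lit 0, nat_lit 46395, [nat_lit 2032000001, nat_lit 4688000000, nat_lit 7968000000], [], [nat_lit 26349171225, nat_lit 27463858625, nat_lit 29307124225, nat_lit 30262036905, nat_lit 29468016525, nat_lit 30303782375, nat_lit 32143612410, nat_lit 33101042085], nat_lit 1271250, nat_lit 1271250, nat_lit 1271250, nat_lit 1271250, nat_lit 1100001, nat_lit 2298750, [nat_lit 490000, nat_lit 1100000, nat_lit 1785000], [nat_lit 34, nat_lit 40, nat_lit 40, nat_lit 80, nat_lit 7, nat_lit 289, nat_lit 75, nat_lit 8]⟩, ⟨p080_k22, nat_lit 0, nat_lit 0, nat_lit 312, nat_lit 0, nat_lit 96706, [nat_lit 6250000000, nat_lit 9842000000, nat_lit 14058000000], [], [nat_lit 37594765235, nat_lit 38042672151, nat_lit 42020352831, nat_lit 42277331608, nat_lit 36490289603, nat_lit 36437466327, nat_lit 38495979861, nat_lit 38347551247], nat_lit 1271250, nat_lit 1271250, nat_lit 1271250,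 nat_lit 1271250, nat_lit 88400, nat_lit 2742600, [nat_lit 1412500, nat_lit 1271250, nat_lit 1271250], [nat_lit 60, nat_lit 40, nat_lit 40, nat_lit 80, nat_lit 32, nat_lit 483, nat_lit 250, nat_lit 11]⟩,
 zbF0, [⟨nat_lit 13, nat_lit 71, nat_lit 70, nat_lit 100, nat_lit 15640232⟩, ⟨nat_lit 4, nat_lit 100, nat_lit 81, nat_lit 92, nat_lit 430824546⟩, ⟨nat_lit 7, nat_lit 54, nat_lit 100, nat_lit 87, nat_lit 174247625⟩]⟩
noncomputable def p080_l107 : Lf2 := ⟨nat_lit 0, nat_lit 15, [nat_lit 30, nat_lit 5, nat_lit 5, nat_lit 20], false, nat_lit 160, nat_lit 300, nat_lit 16, nat_lit 376, ⟨nat_lit 1000, nat_lit 0, nat_lit 0, nat_lit 0, nat_lit 0, nat_lit 0, nat_lit 0, nat_lit 0, nat_lit 0, nat_lit 0, nat_lit 0, nat_lit 0, nat_lit 0, nat_lit 0, nat_lit 0, nat_lit 0, false, false⟩,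
 nat_lit 18204, nat_lit 0, nat_lit 0, nat_lit 1142, nat_lit 5502, nat_lit 8706, nat_lit 610, nat_lit 0, nat_lit 0, nat_lit 818, nat_lit 0, nat_lit 0, nat_lit 0, nat_lit 0, nat_lit 0, nat_lit 0, nat_lit 0, nat_lit 0, [],
 ⟨p080_k23, nat_lit 0, nat_lit 0, nat_lit 130, nat_lit 0, nat_lit 88392, [nat_lit 2032000001, nat_lit 4688000000, nat_lit 7968000000], [], [nat_lit 26435770026, nat_lit 27531441110, nat_lit 30057693035, nat_lit 30962345632, nat_lit 29558183484, nat_lit 30384867433, nat_lit 32671794188, nat_lit 33577306709], nat_lit 1271250, nat_lit 1271250, nat_lit 1271250, nat_lit 1271250, nat_lit 1100001, nat_lit 2298750, [nat_lit 490000, nat_lit 1100000, nat_lit 1785000], [nat_lit 34, nat_lit 40, nat_lit 40, nat_lit 80, nat_lit 7, nat_lit 289, nat_lit 75, nat_lit 8]⟩, ⟨p080_k33, nat_lit 0, nat_lit 0, nat_lit 381, nat_lit 0, nat_lit 158594, [nat_lit 6250000000, nat_lit 9842000000, nat_lit 14058000000], [],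 [nat_lit 38960773517, nat_lit 39154340238, nat_lit 42225827559, nat_lit 42275373510, nat_lit 35543014447, nat_lit 35544323480, nat_lit 37958062695, nat_lit 37846528456], nat_lit 1271250, nat_lit 1271250, nat_lit 1271250, nat_lit 1271250, nat_lit 88400, nat_lit 2684900, [nat_lit 1412500, nat_lit 1271250, nat_lit 1271250], [nat_lit 60, nat_lit 40, nat_lit 40, nat_lit 80, nat_lit 32, nat_lit 483, nat_lit 250, nat_lit 11]⟩,
 zbF0, [⟨nat_lit 4, nat_lit 100, nat_lit 81, nat_lit 92, nat_lit 419971751⟩, ⟨nat_lit 19, nat_lit 100, nat_lit 63, nat_lit 88, nat_lit 160844352⟩]⟩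
noncomputable def p080_l108 : Lf2 := ⟨nat_lit 1, nat_lit 20, [nat_lit 5, nat_lit 5, nat_lit 5, nat_lit 20], false, nat_lit 160, nat_lit 300, nat_lit 0, nat_lit 384, zbN0,
 nat_lit 0, nat_lit 0, nat_lit 0, nat_lit 0, nat_lit 0, nat_lit 0, nat_lit 0, nat_lit 0, nat_lit 0, nat_lit 0, nat_lit 0, nat_lit 0, nat_lit 0, nat_lit 0, nat_lit 0, nat_lit 0, nat_lit 0, nat_lit 0, [],
 C1.Rw.none, C1.Rw.none,
 zbF0, []⟩
noncomputable def p080_l109 : Lf2 := ⟨nat_lit 0, nat_lit 20, [nat_lit 5, nat_lit 5, nat_lit 5, nat_lit 20], false, nat_lit 160, nat_lit 240, nat_lit 0, nat_lit 384, ⟨nat_lit 0, nat_lit 573, nat_lit 427, nat_lit 6, nat_lit 246, nat_lit 1000, nat_lit 156, nat_lit 427, nat_lit 74869, nat_lit 282, nat_lit 74006, nat_lit 200, nat_lit 41744768, nat_lit 17019106, nat_lit 8236126, nat_lit 4834614, true, true⟩,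
 nat_lit 0, nat_lit 4479, nat_lit 0, nat_lit 0, nat_lit 3625, nat_lit 0, nat_lit 0, nat_lit 0, nat_lit 0, nat_lit 0, nat_lit 0, nat_lit 0, nat_lit 0, nat_lit 0, nat_lit 0, nat_lit 284650, nat_lit 0, nat_lit 0, [(nat_lit 22, [(nat_lit 0, nat_lit 342), (nat_lit 1, nat_lit 231), (nat_lit 4, nat_lit 427)])],
 ⟨p080_k16, nat_lit 0, nat_lit 0, nat_lit 136, nat_lit 0, nat_lit 203849, [nat_lit 1536777201, nat_lit 284990400], [], [nat_lit 22024894101, nat_lit 23051322101, nat_lit 23350667601, nat_lit 24328095400, nat_lit 23698667851, nat_lit 24613590900, nat_lit 24864790150, nat_lit 25761795500], nat_lit 1271250, nat_lit 1271250, nat_lit 1271250, nat_lit 1271250, nat_lit 1100001, nat_lit 1785000, [nat_lit 490000, nat_lit 1740000], [nat_lit 110, nat_lit 40, nat_lit 40, nat_lit 80, nat_lit 109, nat_lit 272, nat_lit 60, nat_lit 7]⟩, ⟨p080_k15, nat_lit 0, nat_lit 0, nat_lit 555, nat_lit 0, nat_lit 472305, [nat_lit 0, nat_lit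 0], [], [nat_lit 0, nat_lit 0, nat_lit 0, nat_lit 0, nat_lit 0, nat_lit 0, nat_lit 0, nat_lit 0], nat_lit 1271250, nat_lit 1271250, nat_lit 1271250, nat_lit 1271250, nat_lit 0, nat_lit 2712000, [nat_lit 1412500, nat_lit 1271250], [nat_lit 149, nat_lit 40, nat_lit 40, nat_lit 80, nat_lit 68, nat_lit 483, nat_lit 250, nat_lit 11]⟩,
 ⟨nat_lit 3162, nat_lit 3873, ⟨.ofNat (nat_lit 564520), .ofNat (nat_lit 629042), .ofNat (nat_lit 608082), .ofNat (nat_lit 672628), .ofNat (nat_lit 560952), .ofNat (nat_lit 621905), .ofNat (nat_lit 605237), .ofNat (nat_lit 666215)⟩, ⟨.ofNat (nat_lit 304717), .ofNat (nat_lit 433760), .ofNat (nat_lit 348304), .ofNat (nat_lit 477347), .ofNat (nat_lit 306116), .ofNat (nat_lit 428022), .ofNat (nat_lit 350426), .ofNat (nat_lit 472332)⟩⟩, [⟨nat_lit 4, nat_lit 100, nat_lit 67, nat_lit 88, nat_lit 145714281⟩]⟩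
noncomputable def p080_l110 : Lf2 := ⟨nat_lit 0, nat_lit 20, [nat_lit 5, nat_lit 5, nat_lit 5, nat_lit 20], false, nat_lit 240, nat_lit 276, nat_lit 16, nat_lit 384, ⟨nat_lit 0, nat_lit 1000, nat_lit 0, nat_lit 6, nat_lit 246, nat_lit 1000, nat_lit 192, nat_lit 0, nat_lit 0, nat_lit 0, nat_lit 0, nat_lit 0, nat_lit 39543578, nat_lit 16412470, nat_lit 11043952, nat_lit 5139386, true, true⟩,
 nat_lit 0, nat_lit 5467, nat_lit 0, nat_lit 0, nat_lit 4425, nat_lit 0, nat_lit 0, nat_lit 0, nat_lit 0, nat_lit 0, nat_lit 0, nat_lit 0, nat_lit 0, nat_lit 0, nat_lit 0, nat_lit 386950, nat_lit 0, nat_lit 0, [(nat_lit 22, [(nat_lit 0, nat_lit 87), (nat_lit 1, nat_lit 913)])],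
 ⟨p080_k16, nat_lit 0, nat_lit 0, nat_lit 133, nat_lit 0, nat_lit 203849, [nat_lit 1574208400, nat_lit 1540959867], [], [nat_lit 24293422567, nat_lit 25328264367, nat_lit 25542498817, nat_lit 26494034167, nat_lit 25514425860, nat_lit 26473398537, nat_lit 26653564590, nat_lit 27691604300], nat_lit 1271250, nat_lit 1271250, nat_lit 1271250, nat_lit 1271250, nat_lit 1271250, nat_lit 1271250, [nat_lit 490000, nat_lit 1740000], [nat_lit 110, nat_lit 40, nat_lit 40, nat_lit 80, nat_lit 109, nat_lit 203, nat_lit 0, nat_lit 5]⟩, ⟨p080_k15, nat_lit 0, nat_lit 0, nat_lit 544, nat_lit 0, nat_lit 472305, [nat_lit 0, nat_lit 0], [], [nat_lit 0, nat_lit 0, nat_lit 0, nat_lit 0, nat_lit 0, nat_lit 0, nat_lit 0, nat_lit 0], nat_lit 1271250, nat_lit 1271250, nat_lit 1271250, nat_lit 1271250, nat_lit 88400, nat_lit 2742600, [nat_lit 1412500, nat_lit 1271250], [nat_lit 149, nat_lit 40, nat_lit 40, nat_lit 80, nat_lit 68, nat_lit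 483, nat_lit 250, nat_lit 11]⟩,
 ⟨nat_lit 3162, nat_lit 3873, ⟨.ofNat (nat_lit 564520), .ofNat (nat_lit 629042), .ofNat (nat_lit 608082), .ofNat (nat_lit 672628), .ofNat (nat_lit 560952), .ofNat (nat_lit 621905), .ofNat (nat_lit 605237), .ofNat (nat_lit 666215)⟩, ⟨.ofNat (nat_lit 433760), .ofNat (nat_lit 491830), .ofNat (nat_lit 477347), .ofNat (nat_lit 535416), .ofNat (nat_lit 428022), .ofNat (nat_lit 482881), .ofNat (nat_lit 472332), .ofNat (nat_lit 527190)⟩⟩, [⟨nat_lit 4, nat_lit 100, nat_lit 67, nat_lit 88, nat_lit 296956735⟩]⟩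
noncomputable def p080_l111 : Lf2 := ⟨nat_lit 0, nat_lit 20, [nat_lit 5, nat_lit 5, nat_lit 5, nat_lit 20], false, nat_lit 160, nat_lit 240, nat_lit 4, nat_lit 384, ⟨nat_lit 0, nat_lit 1000, nat_lit 0, nat_lit 7, nat_lit 267, nat_lit 1000, nat_lit 156, nat_lit 0, nat_lit 0, nat_lit 0, nat_lit 0, nat_lit 0, nat_lit 40059895, nat_lit 18914947, nat_lit 8025158, nat_lit 4930484, true, true⟩,
 nat_lit 0, nat_lit 5180, nat_lit 0, nat_lit 0, nat_lit 4193, nat_lit 0, nat_lit 0, nat_lit 0, nat_lit 0, nat_lit 0, nat_lit 0, nat_lit 0, nat_lit 0, nat_lit 0, nat_lit 0, nat_lit 394750, nat_lit 0, nat_lit 0, [(nat_lit 22, [(nat_lit 0, nat_lit 35), (nat_lit 1, nat_lit 965)])],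
 ⟨p080_k16, nat_lit 0, nat_lit 0, nat_lit 135, nat_lit 0, nat_lit 171393, [nat_lit 1574562000, nat_lit 1481492667], [], [nat_lit 24154847125, nat_lit 25220953955, nat_lit 25814268157, nat_lit 26784220263, nat_lit 25650727249, nat_lit 26581451735, nat_lit 27091873313, nat_lit 27945133456], nat_lit 1271250, nat_lit 1271250, nat_lit 1271250, nat_lit 1271250, nat_lit 1100001, nat_lit 1785000, [nat_lit 490000, nat_lit 1740000], [nat_lit 110, nat_lit 40, nat_lit 40, nat_lit 80, nat_lit 109, nat_lit 272, nat_lit 60, nat_lit 7]⟩, ⟨p080_k15, nat_lit 0, nat_lit 0, nat_lit 454, nat_lit 0, nat_lit 397108, [nat_lit 0, nat_lit 0], [], [nat_lit 0, nat_lit 0, nat_lit 0, nat_lit 0, nat_lit 0, nat_lit 0, nat_lit 0, nat_lit 0], nat_lit 1271250, nat_lit 1271250, nat_lit 1271250, nat_lit 1271250, nat_lit 21650, nat_lit 2719650, [nat_lit 1412500, nat_lit 1271250], [nat_lit 149, nat_lit 40, nat_lit 40, nat_lit 80, nat_lit 68, nat_lit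 483, nat_lit 250, nat_lit 11]⟩,
 ⟨nat_lit 3162, nat_lit 3873, ⟨.ofNat (nat_lit 629042), .ofNat (nat_lit 693563), .ofNat (nat_lit 650835), .ofNat (nat_lit 715356), .ofNat (nat_lit 621905), .ofNat (nat_lit 682859), .ofNat (nat_lit 644060), .ofNat (nat_lit 705013)⟩, ⟨.ofNat (nat_lit 304717), .ofNat (nat_lit 433760), .ofNat (nat_lit 348304), .ofNat (nat_lit 477347), .ofNat (nat_lit 306116), .ofNat (nat_lit 428022), .ofNat (nat_lit 350426), .ofNat (nat_lit 472332)⟩⟩, [⟨nat_lit 4, nat_lit 100, nat_lit 67, nat_lit 88, nat_lit 110282239⟩]⟩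
noncomputable def p080_l112 : Lf2 := ⟨nat_lit 0, nat_lit 20, [nat_lit 5, nat_lit 5, nat_lit 5, nat_lit 20], false, nat_lit 240, nat_lit 276, nat_lit 36, nat_lit 384, ⟨nat_lit 0, nat_lit 1000, nat_lit 0, nat_lit 7, nat_lit 267, nat_lit 1000, nat_lit 192, nat_lit 0, nat_lit 0, nat_lit 0, nat_lit 0, nat_lit 0, nat_lit 38029526, nat_lit 18219954, nat_lit 10750520, nat_lit 5226998, true, true⟩,
 nat_lit 0, nat_lit 4623, nat_lit 0, nat_lit 2747, nat_lit 3742, nat_lit 0, nat_lit 0, nat_lit 0, nat_lit 0, nat_lit 0, nat_lit 0, nat_lit 0, nat_lit 0, nat_lit 0, nat_lit 0, nat_lit 469000, nat_lit 0, nat_lit 0, [(nat_lit 22, [(nat_lit 1, nat_lit 885), (nat_lit 2, nat_lit 115)])],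
 ⟨p080_k16, nat_lit 0, nat_lit 0, nat_lit 129, nat_lit 0, nat_lit 171393, [nat_lit 1741642001, nat_lit 862556667], [], [nat_lit 25462760088, nat_lit 26307342644, nat_lit 26794526352, nat_lit 27569549460, nat_lit 26492073577, nat_lit 27280075511, nat_lit 27767252829, nat_lit 28758592923], nat_lit 1271250, nat_lit 1271250, nat_lit 1271250, nat_lit 1271250, nat_lit 1271250, nat_lit 1271250, [nat_lit 490000, nat_lit 1740000], [nat_lit 110, nat_lit 40, nat_lit 40, nat_lit 80, nat_lit 109, nat_lit 203, nat_lit 0, nat_lit 5]⟩, ⟨p080_k15, nat_lit 0, nat_lit 0, nat_lit 432, nat_lit 0, nat_lit 397108, [nat_lit 0, nat_lit 0], [], [nat_lit 0, nat_lit 0, nat_lit 0, nat_lit 0, nat_lit 0, nat_lit 0, nat_lit 0, nat_lit 0], nat_lit 1271250, nat_lit 1271250, nat_lit 1271250, nat_lit 1271250, nat_lit 205650, nat_lit 2780850, [nat_lit 1412500, nat_lit 1271250], [nat_lit 149, nat_lit 40, nat_lit 40, nat_lit 80, nat_lit 68, nat_lit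 483, nat_lit 250, nat_lit 11]⟩,
 ⟨nat_lit 3162, nat_lit 3873, ⟨.ofNat (nat_lit 629042), .ofNat (nat_lit 693563), .ofNat (nat_lit 650835), .ofNat (nat_lit 715356), .ofNat (nat_lit 621905), .ofNat (nat_lit 682859), .ofNat (nat_lit 644060), .ofNat (nat_lit 705013)⟩, ⟨.ofNat (nat_lit 433760), .ofNat (nat_lit 491830), .ofNat (nat_lit 477347), .ofNat (nat_lit 535416), .ofNat (nat_lit 428022), .ofNat (nat_lit 482881), .ofNat (nat_lit 472332), .ofNat (nat_lit 527190)⟩⟩, [⟨nat_lit 4, nat_lit 100, nat_lit 67, nat_lit 88, nat_lit 301965491⟩]⟩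
noncomputable def p080_l113 : Lf2 := ⟨nat_lit 0, nat_lit 20, [nat_lit 5, nat_lit 5, nat_lit 5, nat_lit 20], false, nat_lit 160, nat_lit 240, nat_lit 4, nat_lit 376, ⟨nat_lit 373, nat_lit 627, nat_lit 0, nat_lit 7, nat_lit 274, nat_lit 627, nat_lit 156, nat_lit 0, nat_lit 0, nat_lit 0, nat_lit 0, nat_lit 0, nat_lit 39529359, nat_lit 19515420, nat_lit 7955221, nat_lit 4955745, true, true⟩,
 nat_lit 7407, nat_lit 0, nat_lit 0, nat_lit 0, nat_lit 5995, nat_lit 3542, nat_lit 79, nat_lit 0, nat_lit 0, nat_lit 364, nat_lit 0, nat_lit 0, nat_lit 0, nat_lit 0, nat_lit 0, nat_lit 156750, nat_lit 0, nat_lit 0, [(nat_lit 22, [(nat_lit 0, nat_lit 627)])],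
 ⟨p080_k26, nat_lit 0, nat_lit 0, nat_lit 144, nat_lit 0, nat_lit 186332, [nat_lit 1741072001, nat_lit 2984315600, nat_lit 4672738800], [], [nat_lit 25487338270, nat_lit 26757629720, nat_lit 27393316150, nat_lit 28536335940, nat_lit 26848190930, nat_lit 27940558420, nat_lit 28468902690, nat_lit 29453069140], nat_lit 1271250, nat_lit 1271250, nat_lit 1271250, nat_lit 1271250, nat_lit 1100001, nat_lit 1785000, [nat_lit 490000, nat_lit 1100000, nat_lit 1785000], [nat_lit 34, nat_lit 40, nat_lit 40, nat_lit 80, nat_lit 7, nat_lit 272, nat_lit 60, nat_lit 7]⟩, ⟨p080_k28, nat_lit 0, nat_lit 0, nat_lit 463, nat_lit 0, nat_lit 370827, [nat_lit 2331250000, nat_lit 3671066000, nat_lit 5243634000], [], [nat_lit 13430633157, nat_lit 13480009007, nat_lit 14057765363, nat_lit 14090032190, nat_lit 12224933734, nat_lit 12231505978, nat_lit 12637840390, nat_lit 12631437775], nat_lit 1271250, nat_lit 1271250, nat_lit 1271250,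 nat_lit 1271250, nat_lit 21650, nat_lit 2662850, [nat_lit 1412500, nat_lit 1271250, nat_lit 1271250], [nat_lit 60, nat_lit 40, nat_lit 40, nat_lit 80, nat_lit 32, nat_lit 483, nat_lit 250, nat_lit 11]⟩,
 ⟨nat_lit 3162, nat_lit 3873, ⟨.ofNat (nat_lit 650835), .ofNat (nat_lit 715356), .ofNat (nat_lit 661732), .ofNat (nat_lit 726253), .ofNat (nat_lit 644060), .ofNat (nat_lit 705013), .ofNat (nat_lit 655138), .ofNat (nat_lit 716091)⟩, ⟨.ofNat (nat_lit 304717), .ofNat (nat_lit 433760), .ofNat (nat_lit 348304), .ofNat (nat_lit 477347), .ofNat (nat_lit 306116), .ofNat (nat_lit 428022), .ofNat (nat_lit 350426), .ofNat (nat_lit 472332)⟩⟩, [⟨nat_lit 4, nat_lit 100, nat_lit 67, nat_lit 88, nat_lit 219980584⟩, ⟨nat_lit 19, nat_lit 100, nat_lit 61, nat_lit 87, nat_lit 63245361⟩]⟩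
noncomputable def p080_l114 : Lf2 := ⟨nat_lit 0, nat_lit 20, [nat_lit 5, nat_lit 5, nat_lit 5, nat_lit 20], false, nat_lit 160, nat_lit 240, nat_lit 4, nat_lit 372, ⟨nat_lit 456, nat_lit 544, nat_lit 0, nat_lit 7, nat_lit 278, nat_lit 544, nat_lit 156, nat_lit 0, nat_lit 0, nat_lit 0, nat_lit 0, nat_lit 0, nat_lit 39177531, nat_lit 19914510, nat_lit 7907959, nat_lit 4971226, true, true⟩,
 nat_lit 7893, nat_lit 0, nat_lit 0, nat_lit 0, nat_lit 6389, nat_lit 3975, nat_lit 67, nat_lit 0, nat_lit 0, nat_lit 450, nat_lit 0, nat_lit 0, nat_lit 0, nat_lit 0, nat_lit 0, nat_lit 136000, nat_lit 0, nat_lit 0, [(nat_lit 22, [(nat_lit 0, nat_lit 544)])],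
 ⟨p080_k26, nat_lit 0, nat_lit 0, nat_lit 149, nat_lit 0, nat_lit 203849, [nat_lit 1779584001, nat_lit 3209843200, nat_lit 5108953600], [], [nat_lit 25773282834, nat_lit 27088218424, nat_lit 27733169370, nat_lit 28914029708, nat_lit 27104612286, nat_lit 28232322364, nat_lit 28764585358, nat_lit 29778775888], nat_lit 1271250, nat_lit 1271250, nat_lit 1271250, nat_lit 1271250, nat_lit 1100001, nat_lit 1785000, [nat_lit 490000, nat_lit 1100000, nat_lit 1785000], [nat_lit 34, nat_lit 40, nat_lit 40, nat_lit 80, nat_lit 7, nat_lit 272, nat_lit 60, nat_lit 7]⟩, ⟨p080_k29, nat_lit 0, nat_lit 0, nat_lit 464, nat_lit 0, nat_lit 378023, [nat_lit 2850000000, nat_lit 4487952000, nat_lit 6410448000], [], [nat_lit 16005985319, nat_lit 16069621020, nat_lit 16727116403, nat_lit 16771287457, nat_lit 14757937714, nat_lit 14768036750, nat_lit 15155215107, nat_lit 15159697941], nat_lit 1271250, nat_lit 1271250, nat_lit 1271250,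 nat_lit 1271250, nat_lit 21650, nat_lit 2634450, [nat_lit 1412500, nat_lit 1271250, nat_lit 1271250], [nat_lit 60, nat_lit 40, nat_lit 40, nat_lit 80, nat_lit 32, nat_lit 483, nat_lit 250, nat_lit 11]⟩,
 ⟨nat_lit 3162, nat_lit 3873, ⟨.ofNat (nat_lit 661732), .ofNat (nat_lit 726253), .ofNat (nat_lit 672628), .ofNat (nat_lit 737150), .ofNat (nat_lit 655138), .ofNat (nat_lit 716091), .ofNat (nat_lit 666215), .ofNat (nat_lit 727168)⟩, ⟨.ofNat (nat_lit 304717), .ofNat (nat_lit 433760), .ofNat (nat_lit 348304), .ofNat (nat_lit 477347), .ofNat (nat_lit 306116), .ofNat (nat_lit 428022), .ofNat (nat_lit 350426), .ofNat (nat_lit 472332)⟩⟩, [⟨nat_lit 16, nat_lit 67, nat_lit 100, nat_lit 88, nat_lit 244983703⟩, ⟨nat_lit 19, nat_lit 100, nat_lit 65, nat_lit 88, nat_lit 78263328⟩]⟩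
noncomputable def p080_l115 : Lf2 := ⟨nat_lit 0, nat_lit 20, [nat_lit 5, nat_lit 5, nat_lit 5, nat_lit 20], false, nat_lit 240, nat_lit 276, nat_lit 36, nat_lit 376, ⟨nat_lit 417, nat_lit 583, nat_lit 0, nat_lit 7, nat_lit 276, nat_lit 583, nat_lit 192, nat_lit 0, nat_lit 0, nat_lit 0, nat_lit 0, nat_lit 0, nat_lit 37393788, nat_lit 18983936, nat_lit 10622276, nat_lit 5257173, true, true⟩,
 nat_lit 8222, nat_lit 0, nat_lit 0, nat_lit 0, nat_lit 6134, nat_lit 3932, nat_lit 84, nat_lit 0, nat_lit 0, nat_lit 402, nat_lit 0, nat_lit 0, nat_lit 0, nat_lit 0, nat_lit 0, nat_lit 145750, nat_lit 0, nat_lit 0, [(nat_lit 22, [(nat_lit 0, nat_lit 583)])],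
 ⟨p080_k26, nat_lit 0, nat_lit 0, nat_lit 141, nat_lit 0, nat_lit 203849, [nat_lit 1761488000, nat_lit 3103872400, nat_lit 4903985200], [], [nat_lit 26935214516, nat_lit 28040050584, nat_lit 28569777348, nat_lit 29565852928, nat_lit 28136125324, nat_lit 29151839412, nat_lit 29670072803, nat_lit 30913284995], nat_lit 1271250, nat_lit 1271250, nat_lit 1271250, nat_lit 1271250, nat_lit 1271250, nat_lit 1271250, [nat_lit 490000, nat_lit 1100000, nat_lit 1785000], [nat_lit 34, nat_lit 40, nat_lit 40, nat_lit 80, nat_lit 7, nat_lit 203, nat_lit 0, nat_lit 5]⟩, ⟨p080_k28, nat_lit 0, nat_lit 0, nat_lit 449, nat_lit 0, nat_lit 405688, [nat_lit 2606250000, nat_lit 4104114000, nat_lit 5862186000], [], [nat_lit 14093736575, nat_lit 14203337068, nat_lit 14777422168, nat_lit 14849899697, nat_lit 13720576444, nat_lit 13736357122, nat_lit 14181599415, nat_lit 14168538869], nat_lit 1271250, nat_lit 1271250, nat_lit 1271250,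 nat_lit 1271250, nat_lit 205650, nat_lit 2721650, [nat_lit 1412500, nat_lit 1271250, nat_lit 1271250], [nat_lit 60, nat_lit 40, nat_lit 40, nat_lit 80, nat_lit 32, nat_lit 483, nat_lit 250, nat_lit 11]⟩,
 ⟨nat_lit 3162, nat_lit 3873, ⟨.ofNat (nat_lit 650835), .ofNat (nat_lit 715356), .ofNat (nat_lit 672628), .ofNat (nat_lit 737150), .ofNat (nat_lit 644060), .ofNat (nat_lit 705013), .ofNat (nat_lit 666215), .ofNat (nat_lit 727168)⟩, ⟨.ofNat (nat_lit 433760), .ofNat (nat_lit 491830), .ofNat (nat_lit 477347), .ofNat (nat_lit 535416), .ofNat (nat_lit 428022), .ofNat (nat_lit 482881), .ofNat (nat_lit 472332), .ofNat (nat_lit 527190)⟩⟩, [⟨nat_lit 4, nat_lit 100, nat_lit 67, nat_lit 88, nat_lit 496179161⟩, ⟨nat_lit 7, nat_lit 63, nat_lit 100, nat_lit 88, nat_lit 87157189⟩]⟩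
noncomputable def p080_l116 : Lf2 := ⟨nat_lit 0, nat_lit 20, [nat_lit 5, nat_lit 5, nat_lit 5, nat_lit 20], false, nat_lit 160, nat_lit 240, nat_lit 16, nat_lit 384, ⟨nat_lit 184, nat_lit 816, nat_lit 0, nat_lit 8, nat_lit 293, nat_lit 816, nat_lit 156, nat_lit 0, nat_lit 0, nat_lit 0, nat_lit 0, nat_lit 0, nat_lit 37951439, nat_lit 21295054, nat_lit 7753507, nat_lit 5018850, true, true⟩,
 nat_lit 4226, nat_lit 0, nat_lit 0, nat_lit 5698, nat_lit 3420, nat_lit 1810, nat_lit 215, nat_lit 0, nat_lit 0, nat_lit 157, nat_lit 0, nat_lit 0, nat_lit 0, nat_lit 0, nat_lit 0, nat_lit 326400, nat_lit 0, nat_lit 0, [(nat_lit 22, [(nat_lit 1, nat_lit 816)])],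
 ⟨p080_k26, nat_lit 0, nat_lit 0, nat_lit 129, nat_lit 0, nat_lit 104136, [nat_lit 1482342401, nat_lit 2131308801, nat_lit 2604268800], [], [nat_lit 25498016081, nat_lit 25923420241, nat_lit 27158974280, nat_lit 27565179900, nat_lit 26834864041, nat_lit 27211238581, nat_lit 28325287800, nat_lit 28691322960], nat_lit 1271250, nat_lit 1271250, nat_lit 1271250, nat_lit 1271250, nat_lit 1100001, nat_lit 1785000, [nat_lit 490000, nat_lit 1100000, nat_lit 1785000], [nat_lit 34, nat_lit 40, nat_lit 40, nat_lit 80, nat_lit 7, nat_lit 272, nat_lit 60, nat_lit 7]⟩, ⟨p080_k27, nat_lit 0, nat_lit 0, nat_lit 412, nat_lit 0, nat_lit 241277, [nat_lit 1150000000, nat_lit 1810928000, nat_lit 2586672000], [], [nat_lit 7601089280, nat_lit 7599321400, nat_lit 7902318075, nat_lit 7885900680, nat_lit 6713087120, nat_lit 6697673971, nat_lit 6981537045, nat_lit 6955246495], nat_lit 1271250, nat_lit 1271250, nat_lit 1271250, nat_lit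 1271250, nat_lit 88400, nat_lit 2742600, [nat_lit 1412500, nat_lit 1271250, nat_lit 1271250], [nat_lit 60, nat_lit 40, nat_lit 40, nat_lit 80, nat_lit 32, nat_lit 483, nat_lit 250, nat_lit 11]⟩,
 ⟨nat_lit 3535, nat_lit 3873, ⟨.ofNat (nat_lit 693563), .ofNat (nat_lit 758085), .ofNat (nat_lit 715356), .ofNat (nat_lit 779878), .ofNat (nat_lit 688283), .ofNat (nat_lit 751044), .ofNat (nat_lit 710235), .ofNat (nat_lit 772997)⟩, ⟨.ofNat (nat_lit 304717), .ofNat (nat_lit 433760), .ofNat (nat_lit 348304), .ofNat (nat_lit 477347), .ofNat (nat_lit 305521), .ofNat (nat_lit 431044), .ofNat (nat_lit 349427), .ofNat (nat_lit 474949)⟩⟩, [⟨nat_lit 13, nat_lit 69, nat_lit 69, nat_lit 100, nat_lit 175483179⟩, ⟨nat_lit 16, nat_lit 71, nat_lit 100, nat_lit 89, nat_lit 157713325⟩, ⟨nat_lit 19, nat_lit 100, nat_lit 54, nat_lit 87, nat_lit 28830490⟩]⟩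
noncomputable def p080_l117 : Lf2 := ⟨nat_lit 0, nat_lit 20, [nat_lit 5, nat_lit 5, nat_lit 5, nat_lit 20], false, nat_lit 160, nat_lit 240, nat_lit 16, nat_lit 384, ⟨nat_lit 0, nat_lit 1000, nat_lit 0, nat_lit 8, nat_lit 288, nat_lit 1000, nat_lit 156, nat_lit 0, nat_lit 0, nat_lit 0, nat_lit 0, nat_lit 0, nat_lit 38402968, nat_lit 20799569, nat_lit 7797463, nat_lit 5001413, true, true⟩,
 nat_lit 0, nat_lit 4141, nat_lit 0, nat_lit 2364, nat_lit 3478, nat_lit 0, nat_lit 202, nat_lit 0, nat_lit 0, nat_lit 0, nat_lit 0, nat_lit 0, nat_lit 0, nat_lit 0, nat_lit 0, nat_lit 250000, nat_lit 0, nat_lit 0, [(nat_lit 22, [(nat_lit 0, nat_lit 1000)])],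
 ⟨p080_k30, nat_lit 0, nat_lit 0, nat_lit 135, nat_lit 0, nat_lit 131417, [nat_lit 1568000001, nat_lit 1970800000, nat_lit 2712400000], [], [nat_lit 25949183387, nat_lit 26163171559, nat_lit 27066033955, nat_lit 27266441594, nat_lit 27230208593, nat_lit 27419398886, nat_lit 28224289164, nat_lit 28413844317], nat_lit 1271250, nat_lit 1271250, nat_lit 1271250, nat_lit 1271250, nat_lit 1100001, nat_lit 1785000, [nat_lit 490000, nat_lit 1100000, nat_lit 1785000], [nat_lit 34, nat_lit 40, nat_lit 40, nat_lit 80, nat_lit 7, nat_lit 272, nat_lit 60, nat_lit 7]⟩, ⟨p080_k27, nat_lit 0, nat_lit 0, nat_lit 440, nat_lit 0, nat_lit 318782, [nat_lit 0, nat_lit 0, nat_lit 0], [], [nat_lit 0, nat_lit 0, nat_lit 0, nat_lit 0, nat_lit 0, nat_lit 0, nat_lit 0, nat_lit 0], nat_lit 1271250, nat_lit 1271250, nat_lit 1271250, nat_lit 1271250, nat_lit 88400, nat_lit 2742600, [nat_lit 1412500, nat_lit 1271250, nat_lit 1271250], [nat_lit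 60, nat_lit 40, nat_lit 40, nat_lit 80, nat_lit 32, nat_lit 483, nat_lit 250, nat_lit 11]⟩,
 ⟨nat_lit 3354, nat_lit 3536, ⟨.ofNat (nat_lit 688283), .ofNat (nat_lit 732216), .ofNat (nat_lit 710235), .ofNat (nat_lit 754168), .ofNat (nat_lit 685594), .ofNat (nat_lit 728900), .ofNat (nat_lit 707642), .ofNat (nat_lit 750947)⟩, ⟨.ofNat (nat_lit 305521), .ofNat (nat_lit 431044), .ofNat (nat_lit 349427), .ofNat (nat_lit 474949), .ofNat (nat_lit 305848), .ofNat (nat_lit 429578), .ofNat (nat_lit 349943), .ofNat (nat_lit 473673)⟩⟩, [⟨nat_lit 13, nat_lit 65, nat_lit 73, nat_lit 100, nat_lit 249680483⟩, ⟨nat_lit 4, nat_lit 100, nat_lit 66, nat_lit 88, nat_lit 110404983⟩]⟩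
noncomputable def p080_l118 : Lf2 := ⟨nat_lit 0, nat_lit 20, [nat_lit 5, nat_lit 5, nat_lit 5, nat_lit 20], false, nat_lit 160, nat_lit 240, nat_lit 16, nat_lit 384, ⟨nat_lit 0, nat_lit 1000, nat_lit 0, nat_lit 8, nat_lit 285, nat_lit 1000, nat_lit 156, nat_lit 0, nat_lit 0, nat_lit 0, nat_lit 0, nat_lit 0, nat_lit 38604714, nat_lit 20585527, nat_lit 7809759, nat_lit 4992502, true, true⟩,
 nat_lit 0, nat_lit 4098, nat_lit 0, nat_lit 1913, nat_lit 3505, nat_lit 0, nat_lit 187, nat_lit 0, nat_lit 0, nat_lit 0, nat_lit 0, nat_lit 0, nat_lit 0, nat_lit 0, nat_lit 0, nat_lit 250000, nat_lit 0, nat_lit 0, [(nat_lit 22, [(nat_lit 0, nat_lit 1000)])],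
 ⟨p080_k40, nat_lit 0, nat_lit 0, nat_lit 143, nat_lit 0, nat_lit 160067, [nat_lit 1568000001, nat_lit 1970800000, nat_lit 2712400000], [], [nat_lit 26182156806, nat_lit 26396743676, nat_lit 27142475030, nat_lit 27355726668, nat_lit 27435090039, nat_lit 27624747256, nat_lit 28301869900, nat_lit 28494043544], nat_lit 1271250, nat_lit 1271250, nat_lit 1271250, nat_lit 1271250, nat_lit 1100001, nat_lit 1785000, [nat_lit 490000, nat_lit 1100000, nat_lit 1785000], [nat_lit 34, nat_lit 40, nat_lit 40, nat_lit 80, nat_lit 7, nat_lit 272, nat_lit 60, nat_lit 7]⟩, ⟨p080_k27, nat_lit 0, nat_lit 0, nat_lit 469, nat_lit 0, nat_lit 397108, [nat_lit 0, nat_lit 0, nat_lit 0], [], [nat_lit 0, nat_lit 0, nat_lit 0, nat_lit 0, nat_lit 0, nat_lit 0, nat_lit 0, nat_lit 0], nat_lit 1271250, nat_lit 1271250, nat_lit 1271250, nat_lit 1271250, nat_lit 88400, nat_lit 2742600, [nat_lit 1412500, nat_lit 1271250, nat_lit 1271250], [nat_lit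 60, nat_lit 40, nat_lit 40, nat_lit 80, nat_lit 32, nat_lit 483, nat_lit 250, nat_lit 11]⟩,
 ⟨nat_lit 3162, nat_lit 3355, ⟨.ofNat (nat_lit 685594), .ofNat (nat_lit 722713), .ofNat (nat_lit 707642), .ofNat (nat_lit 744761), .ofNat (nat_lit 682859), .ofNat (nat_lit 719431), .ofNat (nat_lit 705013), .ofNat (nat_lit 741586)⟩, ⟨.ofNat (nat_lit 305848), .ofNat (nat_lit 429578), .ofNat (nat_lit 349943), .ofNat (nat_lit 473673), .ofNat (nat_lit 306116), .ofNat (nat_lit 428022), .ofNat (nat_lit 350426), .ofNat (nat_lit 472332)⟩⟩, [⟨nat_lit 13, nat_lit 62, nat_lit 76, nat_lit 100, nat_lit 274342312⟩, ⟨nat_lit 16, nat_lit 62, nat_lit 100, nat_lit 87, nat_lit 122985807⟩]⟩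
noncomputable def p080_l119 : Lf2 := ⟨nat_lit 0, nat_lit 20, [nat_lit 5, nat_lit 5, nat_lit 5, nat_lit 20], false, nat_lit 240, nat_lit 276, nat_lit 64, nat_lit 384, ⟨nat_lit 184, nat_lit 816, nat_lit 0, nat_lit 8, nat_lit 293, nat_lit 816, nat_lit 193, nat_lit 0, nat_lit 0, nat_lit 0, nat_lit 0, nat_lit 0, nat_lit 36102964, nat_lit 20482242, nat_lit 10414794, nat_lit 5310666, true, true⟩,
 nat_lit 4226, nat_lit 0, nat_lit 0, nat_lit 7485, nat_lit 3420, nat_lit 1810, nat_lit 215, nat_lit 0, nat_lit 0, nat_lit 157, nat_lit 0, nat_lit 0, nat_lit 0, nat_lit 0, nat_lit 0, nat_lit 326400, nat_lit 0, nat_lit 0, [(nat_lit 22, [(nat_lit 1, nat_lit 816)])],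
 ⟨p080_k26, nat_lit 0, nat_lit 0, nat_lit 113, nat_lit 0, nat_lit 104136, [nat_lit 1482342401, nat_lit 2131308801, nat_lit 2604268800], [], [nat_lit 26834864041, nat_lit 27211238581, nat_lit 28325287800, nat_lit 28691322960, nat_lit 27777772726, nat_lit 28147265639, nat_lit 29332223472, nat_lit 29764066098], nat_lit 1271250, nat_lit 1271250, nat_lit 1271250, nat_lit 1271250, nat_lit 1271250, nat_lit 1271250, [nat_lit 490000, nat_lit 1100000, nat_lit 1785000], [nat_lit 34, nat_lit 40, nat_lit 40, nat_lit 80, nat_lit 7, nat_lit 203, nat_lit 0, nat_lit 5]⟩, ⟨p080_k27, nat_lit 0, nat_lit 0, nat_lit 369, nat_lit 0, nat_lit 241277, [nat_lit 1150000000, nat_lit 1810928000, nat_lit 2586672000], [], [nat_lit 6880971641, nat_lit 6880073485, nat_lit 7172602798, nat_lit 7157540229, nat_lit 6713087120, nat_lit 6697673971, nat_lit 6981537045, nat_lit 6955246495], nat_lit 1271250, nat_lit 1271250, nat_lit 1271250, nat_lit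 1271250, nat_lit 382400, nat_lit 2834400, [nat_lit 1412500, nat_lit 1271250, nat_lit 1271250], [nat_lit 60, nat_lit 40, nat_lit 40, nat_lit 80, nat_lit 32, nat_lit 483, nat_lit 250, nat_lit 11]⟩,
 ⟨nat_lit 3535, nat_lit 3873, ⟨.ofNat (nat_lit 693563), .ofNat (nat_lit 758085), .ofNat (nat_lit 715356), .ofNat (nat_lit 779878), .ofNat (nat_lit 688283), .ofNat (nat_lit 751044), .ofNat (nat_lit 710235), .ofNat (nat_lit 772997)⟩, ⟨.ofNat (nat_lit 433760), .ofNat (nat_lit 491830), .ofNat (nat_lit 477347), .ofNat (nat_lit 535416), .ofNat (nat_lit 431044), .ofNat (nat_lit 487529), .ofNat (nat_lit 474949), .ofNat (nat_lit 531435)⟩⟩, [⟨nat_lit 13, nat_lit 69, nat_lit 69, nat_lit 100, nat_lit 181559805⟩, ⟨nat_lit 4, nat_lit 100, nat_lit 71, nat_lit 89, nat_lit 344627920⟩, ⟨nat_lit 19, nat_lit 100, nat_lit 54, nat_lit 87, nat_lit 42224958⟩]⟩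
noncomputable def p080_l120 : Lf2 := ⟨nat_lit 0, nat_lit 20, [nat_lit 5, nat_lit 5, nat_lit 5, nat_lit 20], false, nat_lit 240, nat_lit 264, nat_lit 64, nat_lit 384, ⟨nat_lit 0, nat_lit 1000, nat_lit 0, nat_lit 8, nat_lit 287, nat_lit 1000, nat_lit 188, nat_lit 0, nat_lit 0, nat_lit 0, nat_lit 0, nat_lit 0, nat_lit 36806768, nat_lit 20065156, nat_lit 10128076, nat_lit 5259003, true, true⟩,
 nat_lit 0, nat_lit 4106, nat_lit 0, nat_lit 3434, nat_lit 3448, nat_lit 0, nat_lit 200, nat_lit 0, nat_lit 0, nat_lit 0, nat_lit 0, nat_lit 0, nat_lit 0, nat_lit 0, nat_lit 0, nat_lit 250000, nat_lit 0, nat_lit 0, [(nat_lit 22, [(nat_lit 0, nat_lit 1000)])],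
 ⟨p080_k30, nat_lit 0, nat_lit 0, nat_lit 134, nat_lit 0, nat_lit 163706, [nat_lit 1568000001, nat_lit 1970800000, nat_lit 2712400000], [], [nat_lit 27289681673, nat_lit 27667024649, nat_lit 28276601050, nat_lit 28630730374, nat_lit 27890705223, nat_lit 28251901597, nat_lit 28887751368, nat_lit 29346117485], nat_lit 1271250, nat_lit 1271250, nat_lit 1271250, nat_lit 1271250, nat_lit 1271250, nat_lit 1271250, [nat_lit 490000, nat_lit 1100000, nat_lit 1785000], [nat_lit 34, nat_lit 40, nat_lit 40, nat_lit 80, nat_lit 7, nat_lit 203, nat_lit 0, nat_lit 4]⟩, ⟨p080_k27, nat_lit 0, nat_lit 0, nat_lit 428, nat_lit 0, nat_lit 397108, [nat_lit 0, nat_lit 0, nat_lit 0], [], [nat_lit 0, nat_lit 0, nat_lit 0, nat_lit 0, nat_lit 0, nat_lit 0, nat_lit 0, nat_lit 0], nat_lit 1271250, nat_lit 1271250, nat_lit 1271250, nat_lit 1271250, nat_lit 382400, nat_lit 2834400, [nat_lit 1412500, nat_lit 1271250, nat_lit 1271250], [nat_lit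 60, nat_lit 40, nat_lit 40, nat_lit 80, nat_lit 32, nat_lit 483, nat_lit 250, nat_lit 11]⟩,
 ⟨nat_lit 3162, nat_lit 3536, ⟨.ofNat (nat_lit 688283), .ofNat (nat_lit 732216), .ofNat (nat_lit 710235), .ofNat (nat_lit 754168), .ofNat (nat_lit 682859), .ofNat (nat_lit 725526), .ofNat (nat_lit 705013), .ofNat (nat_lit 747681)⟩, ⟨.ofNat (nat_lit 431044), .ofNat (nat_lit 468701), .ofNat (nat_lit 474949), .ofNat (nat_lit 512606), .ofNat (nat_lit 428022), .ofNat (nat_lit 464594), .ofNat (nat_lit 472332), .ofNat (nat_lit 508904)⟩⟩, [⟨nat_lit 13, nat_lit 63, nat_lit 74, nat_lit 100, nat_lit 263368922⟩, ⟨nat_lit 16, nat_lit 69, nat_lit 100, nat_lit 96, nat_lit 40079897⟩, ⟨nat_lit 4, nat_lit 100, nat_lit 64, nat_lit 88, nat_lit 245985182⟩]⟩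
noncomputable def p080_l121 : Lf2 := ⟨nat_lit 0, nat_lit 18, [nat_lit 100, nat_lit 5, nat_lit 5, nat_lit 20], false, nat_lit 160, nat_lit 276, nat_lit 16, nat_lit 376, ⟨nat_lit 846, nat_lit 154, nat_lit 0, nat_lit 8, nat_lit 305, nat_lit 154, nat_lit 168, nat_lit 0, nat_lit 0, nat_lit 0, nat_lit 0, nat_lit 0, nat_lit 36532538, nat_lit 22044770, nat_lit 8422692, nat_lit 5141719, true, true⟩,
 nat_lit 15595, nat_lit 0, nat_lit 0, nat_lit 0, nat_lit 4121, nat_lit 7458, nat_lit 604, nat_lit 0, nat_lit 0, nat_lit 732, nat_lit 0, nat_lit 0, nat_lit 0, nat_lit 0, nat_lit 0, nat_lit 61600, nat_lit 0, nat_lit 0, [(nat_lit 22, [(nat_lit 1, nat_lit 154)])],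
 ⟨p080_k32, nat_lit 0, nat_lit 0, nat_lit 142, nat_lit 0, nat_lit 141291, [nat_lit 1928265600, nat_lit 4205487201, nat_lit 6955727200], [], [nat_lit 26040299730, nat_lit 26521818271, nat_lit 28266918012, nat_lit 28691171442, nat_lit 28312031537, nat_lit 28705967158, nat_lit 30448112535, nat_lit 30899274897], nat_lit 1271250, nat_lit 1271250, nat_lit 1271250, nat_lit 1271250, nat_lit 1100001, nat_lit 2093250, [nat_lit 490000, nat_lit 1100000, nat_lit 1785000], [nat_lit 34, nat_lit 40, nat_lit 40, nat_lit 80, nat_lit 7, nat_lit 289, nat_lit 75, nat_lit 8]⟩, ⟨p080_k34, nat_lit 0, nat_lit 0, nat_lit 423, nat_lit 0, nat_lit 280211, [nat_lit 5287500000, nat_lit 8326332000, nat_lit 11893068000], [], [nat_lit 32479136173, nat_lit 32640438917, nat_lit 34504519109, nat_lit 34574108928, nat_lit 29772662663, nat_lit 29753170210, nat_lit 31164294559, nat_lit 31089589720], nat_lit 1271250, nat_lit 1271250, nat_lit 1271250,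 nat_lit 1271250, nat_lit 88400, nat_lit 2684900, [nat_lit 1412500, nat_lit 1271250, nat_lit 1271250], [nat_lit 60, nat_lit 40, nat_lit 40, nat_lit 80, nat_lit 32, nat_lit 483, nat_lit 250, nat_lit 11]⟩,
 ⟨nat_lit 3535, nat_lit 3873, ⟨.ofNat (nat_lit 715356), .ofNat (nat_lit 792782), .ofNat (nat_lit 737150), .ofNat (nat_lit 814576), .ofNat (nat_lit 710235), .ofNat (nat_lit 785549), .ofNat (nat_lit 732188), .ofNat (nat_lit 807502)⟩, ⟨.ofNat (nat_lit 304717), .ofNat (nat_lit 491830), .ofNat (nat_lit 348304), .ofNat (nat_lit 535416), .ofNat (nat_lit 305521), .ofNat (nat_lit 487529), .ofNat (nat_lit 349427), .ofNat (nat_lit 531435)⟩⟩, [⟨nat_lit 4, nat_lit 100, nat_lit 71, nat_lit 89, nat_lit 435309587⟩, ⟨nat_lit 7, nat_lit 63, nat_lit 100, nat_lit 88, nat_lit 140198948⟩]⟩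
noncomputable def p080_l122 : Lf2 := ⟨nat_lit 1, nat_lit 20, [nat_lit 5, nat_lit 5, nat_lit 5, nat_lit 20], false, nat_lit 160, nat_lit 276, nat_lit 16, nat_lit 376, zbN0,
 nat_lit 0, nat_lit 0, nat_lit 0, nat_lit 0, nat_lit 0, nat_lit 0, nat_lit 0, nat_lit 0, nat_lit 0, nat_lit 0, nat_lit 0, nat_lit 0, nat_lit 0, nat_lit 0, nat_lit 0, nat_lit 0, nat_lit 0, nat_lit 0, [],
 C1.Rw.none, C1.Rw.none,
 zbF0, []⟩
noncomputable def p080_l123 : Lf2 := ⟨nat_lit 0, nat_lit 15, [nat_lit 30, nat_lit 5, nat_lit 5, nat_lit 20], false, nat_lit 160, nat_lit 264, nat_lit 16, nat_lit 376, ⟨nat_lit 341, nat_lit 659, nat_lit 0, nat_lit 8, nat_lit 300, nat_lit 659, nat_lit 163, nat_lit 0, nat_lit 0, nat_lit 0, nat_lit 0, nat_lit 0, nat_lit 37115938, nat_lit 21709252, nat_lit 8174810, nat_lit 5095043, true, true⟩,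
 nat_lit 6294, nat_lit 0, nat_lit 0, nat_lit 0, nat_lit 3662, nat_lit 3010, nat_lit 257, nat_lit 0, nat_lit 0, nat_lit 306, nat_lit 0, nat_lit 0, nat_lit 0, nat_lit 0, nat_lit 0, nat_lit 164750, nat_lit 0, nat_lit 0, [(nat_lit 22, [(nat_lit 0, nat_lit 659)])],
 ⟨p080_k41, nat_lit 0, nat_lit 0, nat_lit 139, nat_lit 0, nat_lit 191666, [nat_lit 1726224001, nat_lit 2897365201, nat_lit 3667247200], [], [nat_lit 26214622985, nat_lit 26681567923, nat_lit 27951054013, nat_lit 28374216043, nat_lit 28248503602, nat_lit 28641547575, nat_lit 29727880915, nat_lit 30105259158], nat_lit 1271250, nat_lit 1271250, nat_lit 1271250, nat_lit 1271250, nat_lit 1100001, nat_lit 1990500, [nat_lit 490000, nat_lit 1100000, nat_lit 1442500], [nat_lit 6, nat_lit 40, nat_lit 40, nat_lit 80, nat_lit 3, nat_lit 289, nat_lit 75, nat_lit 9]⟩, ⟨p080_k33, nat_lit 0, nat_lit 0, nat_lit 465, nat_lit 0, nat_lit 395573, [nat_lit 2131250000, nat_lit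 3356122000, nat_lit 4793778000], [], [nat_lit 12973842610, nat_lit 13038756736, nat_lit 13638592203, nat_lit 13672837847, nat_lit 11958723728, nat_lit 11950694395, nat_lit 12352249760, nat_lit 12325040996], nat_lit 1271250, nat_lit 1271250, nat_lit 1271250, nat_lit 1271250, nat_lit 88400, nat_lit 2684900, [nat_lit 1412500, nat_lit 1271250, nat_lit 1271250], [nat_lit 60, nat_lit 40, nat_lit 40, nat_lit 80, nat_lit 32, nat_lit 483, nat_lit 250, nat_lit 11]⟩,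
 ⟨nat_lit 3162, nat_lit 3536, ⟨.ofNat (nat_lit 710235), .ofNat (nat_lit 772997), .ofNat (nat_lit 732188), .ofNat (nat_lit 794949), .ofNat (nat_lit 705013), .ofNat (nat_lit 765967), .ofNat (nat_lit 727168), .ofNat (nat_lit 788122)⟩, ⟨.ofNat (nat_lit 305521), .ofNat (nat_lit 468701), .ofNat (nat_lit 349427), .ofNat (nat_lit 512606), .ofNat (nat_lit 306116), .ofNat (nat_lit 464594), .ofNat (nat_lit 350426), .ofNat (nat_lit 508904)⟩⟩, [⟨nat_lit 13, nat_lit 64, nat_lit 68, nat_lit 100, nat_lit 119402284⟩, ⟨nat_lit 16, nat_lit 69, nat_lit 100, nat_lit 96, nat_lit 243314244⟩, ⟨nat_lit 19, nat_lit 100, nat_lit 63, nat_lit 88, nat_lit 57360464⟩]⟩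
noncomputable def p080_l124 : Lf2 := ⟨nat_lit 0, nat_lit 20, [nat_lit 5, nat_lit 5, nat_lit 5, nat_lit 20], false, nat_lit 160, nat_lit 240, nat_lit 16, nat_lit 364, ⟨nat_lit 866, nat_lit 134, nat_lit 0, nat_lit 8, nat_lit 300, nat_lit 134, nat_lit 151, nat_lit 0, nat_lit 0, nat_lit 0, nat_lit 0, nat_lit 0, nat_lit 37681030, nat_lit 21966041, nat_lit 7352929, nat_lit 4991667, true, true⟩,
 nat_lit 16457, nat_lit 0, nat_lit 0, nat_lit 0, nat_lit 4070, nat_lit 7870, nat_lit 581, nat_lit 0, nat_lit 0, nat_lit 784, nat_lit 0, nat_lit 0, nat_lit 0, nat_lit 0, nat_lit 0, nat_lit 33500, nat_lit 0, nat_lit 0, [(nat_lit 22, [(nat_lit 0, nat_lit 134)])],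
 ⟨p080_k30, nat_lit 0, nat_lit 0, nat_lit 131, nat_lit 0, nat_lit 102091, [nat_lit 1969824001, nat_lit 4323895200, nat_lit 7263749600], [], [nat_lit 26471726066, nat_lit 26925956426, nat_lit 28220814575, nat_lit 28652572345, nat_lit 27683414456, nat_lit 28098376465, nat_lit 29330362660, nat_lit 29826340400], nat_lit 1271250, nat_lit 1271250, nat_lit 1271250, nat_lit 1271250, nat_lit 1100001, nat_lit 1785000, [nat_lit 490000, nat_lit 1100000, nat_lit 1785000], [nat_lit 34, nat_lit 40, nat_lit 40, nat_lit 80, nat_lit 7, nat_lit 272, nat_lit 60, nat_lit 7]⟩, ⟨p080_k28, nat_lit 0, nat_lit 0, nat_lit 396, nat_lit 0, nat_lit 210701, [nat_lit 5412500000, nat_lit 8523172000, nat_lit 12174228000], [], [nat_lit 32725562358, nat_lit 32884438992, nat_lit 34437978539, nat_lit 34517035039, nat_lit 29530703963, nat_lit 29518894416, nat_lit 30802813687, nat_lit 30746873551], nat_lit 1271250, nat_lit 1271250, nat_lit 1271250,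 nat_lit 1271250, nat_lit 88400, nat_lit 2598350, [nat_lit 1412500, nat_lit 1271250, nat_lit 1271250], [nat_lit 60, nat_lit 40, nat_lit 40, nat_lit 80, nat_lit 32, nat_lit 483, nat_lit 250, nat_lit 11]⟩,
 ⟨nat_lit 3162, nat_lit 3536, ⟨.ofNat (nat_lit 710235), .ofNat (nat_lit 772997), .ofNat (nat_lit 732188), .ofNat (nat_lit 794949), .ofNat (nat_lit 705013), .ofNat (nat_lit 765967), .ofNat (nat_lit 727168), .ofNat (nat_lit 788122)⟩, ⟨.ofNat (nat_lit 305521), .ofNat (nat_lit 431044), .ofNat (nat_lit 327474), .ofNat (nat_lit 452997), .ofNat (nat_lit 306116), .ofNat (nat_lit 428022), .ofNat (nat_lit 328271), .ofNat (nat_lit 450177)⟩⟩, [⟨nat_lit 16, nat_lit 64, nat_lit 100, nat_lit 84, nat_lit 467058079⟩, ⟨nat_lit 7, nat_lit 68, nat_lit 100, nat_lit 84, nat_lit 141780801⟩]⟩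
noncomputable def p080_l125 : Lf2 := ⟨nat_lit 0, nat_lit 20, [nat_lit 5, nat_lit 5, nat_lit 5, nat_lit 20], false, nat_lit 160, nat_lit 264, nat_lit 16, nat_lit 376, ⟨nat_lit 1000, nat_lit 0, nat_lit 0, nat_lit 0, nat_lit 0, nat_lit 0, nat_lit 0, nat_lit 0, nat_lit 0, nat_lit 0, nat_lit 0, nat_lit 0, nat_lit 0, nat_lit 0, nat_lit 0, nat_lit 0, false, false⟩,
 nat_lit 18336, nat_lit 0, nat_lit 0, nat_lit 6276, nat_lit 4153, nat_lit 8769, nat_lit 631, nat_lit 0, nat_lit 0, nat_lit 942, nat_lit 0, nat_lit 0, nat_lit 0, nat_lit 0, nat_lit 0, nat_lit 0, nat_lit 0, nat_lit 0, [],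
 ⟨p080_k30, nat_lit 0, nat_lit 0, nat_lit 97, nat_lit 0, nat_lit 43867, [nat_lit 2032000001, nat_lit 4688000000, nat_lit 7968000000], [], [nat_lit 26647697112, nat_lit 27105608356, nat_lit 28410562340, nat_lit 28845582923, nat_lit 28482641993, nat_lit 28885722359, nat_lit 30149663197, nat_lit 30625176505], nat_lit 1271250, nat_lit 1271250, nat_lit 1271250, nat_lit 1271250, nat_lit 1100001, nat_lit 1990500, [nat_lit 490000, nat_lit 1100000, nat_lit 1785000], [nat_lit 34, nat_lit 40, nat_lit 40, nat_lit 80, nat_lit 7, nat_lit 289, nat_lit 75, nat_lit 8]⟩, ⟨p080_k28, nat_lit 0, nat_lit 0, nat_lit 302, nat_lit 0, nat_lit 91402, [nat_lit 6250000000, nat_lit 9842000000, nat_lit 14058000000], [], [nat_lit 35680412770, nat_lit 36131675231, nat_lit 38700022254, nat_lit 39015067367, nat_lit 34416881844, nat_lit 34415348670, nat_lit 36015377540, nat_lit 36078983575], nat_lit 1271250, nat_lit 1271250, nat_lit 1271250,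 nat_lit 1271250, nat_lit 88400, nat_lit 2684900, [nat_lit 1412500, nat_lit 1271250, nat_lit 1271250], [nat_lit 60, nat_lit 40, nat_lit 40, nat_lit 80, nat_lit 32, nat_lit 483, nat_lit 250, nat_lit 11]⟩,
 zbF0, [⟨nat_lit 4, nat_lit 100, nat_lit 65, nat_lit 91, nat_lit 501161072⟩, ⟨nat_lit 19, nat_lit 100, nat_lit 59, nat_lit 90, nat_lit 180306596⟩]⟩
noncomputable def b_V_800_500_20_19 : St := ⟨true, nat_lit 1, nat_lit 1, nat_lit 1, nat_lit 120, nat_lit 320, nat_lit 360, nat_lit 200, nat_lit 240, nat_lit 240, nat_lit 384, nat_lit 80, nat_lit 120, nat_lit 0, nat_lit 300, nat_lit 0, nat_lit 384, nat_lit 40, nat_lit 80, nat_lit 0, nat_lit 0, nat_lit 0, nat_lit 0⟩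
theorem d_V_800_500_20_19 (h : EB TB.env) : Dead b_V_800_500_20_19 := chkB_sound0 h (T :=
(.spl (nat_lit 4) (nat_lit 160)
(.spl (nat_lit 0) (nat_lit 340)
(.spl (nat_lit 6) (nat_lit 60)
(.leaf p080_l99)
(.leaf p080_l100))
(.trX (nat_lit 13) (nat_lit 73) (nat_lit 55) (nat_lit 100) (nat_lit 368) (.spl (nat_lit 4) (nat_lit 80)
(.trX (nat_lit 22) (nat_lit 100) (nat_lit 76) (nat_lit 82) (nat_lit 336) (.spl (nat_lit 1) (nat_lit 220)
(.trX (nat_lit 13) (nat_lit 72) (nat_lit 63) (nat_lit 100) (nat_lit 360) (.leaf p080_l101))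
(.leaf p080_l102)))
(.spl (nat_lit 1) (nat_lit 220)
(.trX (nat_lit 13) (nat_lit 72) (nat_lit 63) (nat_lit 100) (nat_lit 360) (.leaf p080_l103))
(.trX (nat_lit 19) (nat_lit 100) (nat_lit 49) (nat_lit 92) (nat_lit 376) (.leaf p080_l104))))))
(.spl (nat_lit 0) (nat_lit 340)
(.spl (nat_lit 6) (nat_lit 60)
(.spl (nat_lit 2) (nat_lit 320)
(.leaf p080_l105)
(.trZ (nat_lit 9) (nat_lit 100) (nat_lit 82) (nat_lit 44) (nat_lit 16) (.spl (nat_lit 1) (nat_lit 220)
(.trX (nat_lit 13) (nat_lit 80) (nat_lit 52) (nat_lit 100) (nat_lit 372) (.leaf p080_l106))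
(.trX (nat_lit 19) (nat_lit 100) (nat_lit 49) (nat_lit 92) (nat_lit 376) (.leaf p080_l107)))))
(.leaf p080_l108))
(.trX (nat_lit 13) (nat_lit 73) (nat_lit 55) (nat_lit 100) (nat_lit 368) (.trX (nat_lit 16) (nat_lit 77) (nat_lit 100) (nat_lit 99) (nat_lit 276) (.spl (nat_lit 2) (nat_lit 320)
(.spl (nat_lit 2) (nat_lit 280)
(.spl (nat_lit 4) (nat_lit 240)
(.leaf p080_l109)
(.trZ (nat_lit 9) (nat_lit 100) (nat_lit 100) (nat_lit 40) (nat_lit 16) (.leaf p080_l110)))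
(.trZ (nat_lit 9) (nat_lit 100) (nat_lit 94) (nat_lit 21) (nat_lit 4) (.spl (nat_lit 1) (nat_lit 220)
(.spl (nat_lit 4) (nat_lit 240)
(.leaf p080_l111)
(.trZ (nat_lit 9) (nat_lit 100) (nat_lit 94) (nat_lit 59) (nat_lit 36) (.leaf p080_l112)))
(.trX (nat_lit 19) (nat_lit 100) (nat_lit 49) (nat_lit 92) (nat_lit 376) (.spl (nat_lit 4) (nat_lit 240)
(.spl (nat_lit 1) (nat_lit 230)
(.leaf p080_l113)
(.trX (nat_lit 19) (nat_lit 100) (nat_lit 54) (nat_lit 93) (nat_lit 372) (.leaf p080_l114)))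
(.trZ (nat_lit 9) (nat_lit 100) (nat_lit 94) (nat_lit 59) (nat_lit 36) (.leaf p080_l115)))))))
(.trZ (nat_lit 9) (nat_lit 100) (nat_lit 82) (nat_lit 44) (nat_lit 16) (.spl (nat_lit 1) (nat_lit 220)
(.trX (nat_lit 13) (nat_lit 72) (nat_lit 63) (nat_lit 100) (nat_lit 360) (.spl (nat_lit 4) (nat_lit 240)
(.spl (nat_lit 0) (nat_lit 350)
(.leaf p080_l116)
(.trX (nat_lit 13) (nat_lit 66) (nat_lit 68) (nat_lit 100) (nat_lit 348) (.spl (nat_lit 0) (nat_lit 355)
(.leaf p080_l117)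
(.trX (nat_lit 13) (nat_lit 64) (nat_lit 71) (nat_lit 100) (nat_lit 344) (.leaf p080_l118)))))
(.trZ (nat_lit 9) (nat_lit 100) (nat_lit 82) (nat_lit 76) (nat_lit 64) (.spl (nat_lit 0) (nat_lit 350)
(.leaf p080_l119)
(.trX (nat_lit 13) (nat_lit 66) (nat_lit 68) (nat_lit 100) (nat_lit 348) (.trX (nat_lit 16) (nat_lit 69) (nat_lit 100) (nat_lit 96) (nat_lit 264) (.leaf p080_l120)))))))
(.trX (nat_lit 19) (nat_lit 100) (nat_lit 49) (nat_lit 92) (nat_lit 376) (.spl (nat_lit 0) (nat_lit 350)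
(.spl (nat_lit 6) (nat_lit 72)
(.leaf p080_l121)
(.leaf p080_l122))
(.trX (nat_lit 13) (nat_lit 68) (nat_lit 61) (nat_lit 100) (nat_lit 360) (.trX (nat_lit 16) (nat_lit 69) (nat_lit 100) (nat_lit 96) (nat_lit 264) (.spl (nat_lit 6) (nat_lit 60)
(.leaf p080_l123)
(.spl (nat_lit 3) (nat_lit 100)
(.trX (nat_lit 16) (nat_lit 67) (nat_lit 100) (nat_lit 88) (nat_lit 240) (.trX (nat_lit 19) (nat_lit 100) (nat_lit 59) (nat_lit 87) (nat_lit 364) (.leaf p080_l124)))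
(.leaf p080_l125))))))))))))))) (by decide +kernel)
noncomputable def p080_l126 : Lf2 := ⟨nat_lit 0, nat_lit 20, [nat_lit 5, nat_lit 5, nat_lit 5, nat_lit 20], true, nat_lit 0, nat_lit 300, nat_lit 0, nat_lit 384, ⟨nat_lit 0, nat_lit 1000, nat_lit 0, nat_lit 5, nat_lit 170, nat_lit 1000, nat_lit 110, nat_lit 0, nat_lit 0, nat_lit 0, nat_lit 0, nat_lit 0, nat_lit 0, nat_lit 0, nat_lit 0, nat_lit 5000000, false, false⟩,
 nat_lit 0, nat_lit 8345, nat_lit 0, nat_lit 128, nat_lit 6258, nat_lit 0, nat_lit 0, nat_lit 0, nat_lit 0, nat_lit 0, nat_lit 0, nat_lit 0, nat_lit 0, nat_lit 0, nat_lit 0, nat_lit 400000, nat_lit 0, nat_lit 0, [(nat_lit 19, [(nat_lit 1, nat_lit 1000)]), (nat_lit 22, [(nat_lit 1, nat_lit 1000)])],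
 ⟨p080_k17, nat_lit 0, nat_lit 0, nat_lit 448, nat_lit 0, nat_lit 342422, [nat_lit 1550600000, nat_lit 2053400001, nat_lit 1832000000], [], [nat_lit 34690802721, nat_lit 30170938048, nat_lit 26317126624, nat_lit 29503799464, nat_lit 26560301160, nat_lit 29869663010, nat_lit 33934248992, nat_lit 28706353340], nat_lit 1271250, nat_lit 1271250, nat_lit 230001, nat_lit 1717500, nat_lit 0, nat_lit 2118750, [nat_lit 490000, nat_lit 1427500, nat_lit 1271250], [nat_lit 61, nat_lit 40, nat_lit 40, nat_lit 80, nat_lit 1, nat_lit 373, nat_lit 150, nat_lit 11]⟩, C1.Rw.none,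
 ⟨nat_lit 3162, nat_lit 4473, ⟨.ofNat (nat_lit 227776), .ofNat (nat_lit 567977), .ofNat (nat_lit 270729), .ofNat (nat_lit 611007), .ofNat (nat_lit 255876), .ofNat (nat_lit 560952), .ofNat (nat_lit 300005), .ofNat (nat_lit 605159)⟩, ⟨.ofNat (nat_lit 0), .ofNat (nat_lit 540545), .ofNat (nat_lit 0), .ofNat (nat_lit 583678), .ofNat (nat_lit 0), .ofNat (nat_lit 519453), .ofNat (nat_lit 0), .ofNat (nat_lit 563762)⟩⟩, [⟨nat_lit 4, nat_lit 100, nat_lit 74, nat_lit 90, nat_lit 83583722⟩]⟩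
noncomputable def p080_l127 : Lf2 := ⟨nat_lit 0, nat_lit 20, [nat_lit 5, nat_lit 5, nat_lit 5, nat_lit 20], true, nat_lit 0, nat_lit 300, nat_lit 0, nat_lit 384, ⟨nat_lit 0, nat_lit 1000, nat_lit 0, nat_lit 6, nat_lit 283, nat_lit 1000, nat_lit 111, nat_lit 0, nat_lit 0, nat_lit 0, nat_lit 0, nat_lit 0, nat_lit 0, nat_lit 0, nat_lit 0, nat_lit 5000000, true, true⟩,
 nat_lit 0, nat_lit 4721, nat_lit 0, nat_lit 3136, nat_lit 3540, nat_lit 0, nat_lit 114, nat_lit 0, nat_lit 0, nat_lit 0, nat_lit 0, nat_lit 0, nat_lit 0, nat_lit 0, nat_lit 0, nat_lit 400000, nat_lit 0, nat_lit 0, [(nat_lit 19, [(nat_lit 1, nat_lit 1000)])],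
 ⟨p080_k31, nat_lit 0, nat_lit 0, nat_lit 287, nat_lit 0, nat_lit 131336, [nat_lit 1398133334, nat_lit 2037600000, nat_lit 1832000000], [], [nat_lit 25051943078, nat_lit 25939519638, nat_lit 30537799451, nat_lit 31348999779, nat_lit 27360345278, nat_lit 27967384028, nat_lit 30841497218, nat_lit 31331649011], nat_lit 1271250, nat_lit 1271250, nat_lit 1271250, nat_lit 1271250, nat_lit 0, nat_lit 2118750, [nat_lit 490000, nat_lit 1100000, nat_lit 2127500], [nat_lit 27, nat_lit 40, nat_lit 40, nat_lit 80, nat_lit 13, nat_lit 401, nat_lit 175, nat_lit 11]⟩, C1.Rw.none,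
 ⟨nat_lit 3872, nat_lit 4473, ⟨.ofNat (nat_lit 567977), .ofNat (nat_lit 812698), .ofNat (nat_lit 611083), .ofNat (nat_lit 855824), .ofNat (nat_lit 564520), .ofNat (nat_lit 796798), .ofNat (nat_lit 608080), .ofNat (nat_lit 840378)⟩, ⟨.ofNat (nat_lit 0), .ofNat (nat_lit 540545), .ofNat (nat_lit 0), .ofNat (nat_lit 583678), .ofNat (nat_lit 0), .ofNat (nat_lit 530543), .ofNat (nat_lit 0), .ofNat (nat_lit 574129)⟩⟩, [⟨nat_lit 13, nat_lit 76, nat_lit 57, nat_lit 100, nat_lit 283552460⟩, ⟨nat_lit 4, nat_lit 100, nat_lit 81, nat_lit 92, nat_lit 78384504⟩]⟩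
noncomputable def p080_l128 : Lf2 := ⟨nat_lit 0, nat_lit 20, [nat_lit 5, nat_lit 5, nat_lit 5, nat_lit 20], true, nat_lit 0, nat_lit 276, nat_lit 0, nat_lit 384, ⟨nat_lit 0, nat_lit 1000, nat_lit 0, nat_lit 6, nat_lit 274, nat_lit 1000, nat_lit 102, nat_lit 0, nat_lit 0, nat_lit 0, nat_lit 0, nat_lit 0, nat_lit 0, nat_lit 0, nat_lit 0, nat_lit 5000000, true, true⟩,
 nat_lit 0, nat_lit 4577, nat_lit 0, nat_lit 0, nat_lit 3705, nat_lit 0, nat_lit 0, nat_lit 0, nat_lit 0, nat_lit 0, nat_lit 0, nat_lit 0, nat_lit 0, nat_lit 0, nat_lit 0, nat_lit 411400, nat_lit 0, nat_lit 0, [(nat_lit 22, [(nat_lit 1, nat_lit 981), (nat_lit 2, nat_lit 19)])],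
 ⟨p080_k16, nat_lit 0, nat_lit 0, nat_lit 291, nat_lit 0, nat_lit 308442, [nat_lit 1602365200, nat_lit 1345820667], [], [nat_lit 26312478554, nat_lit 27171203694, nat_lit 30490869693, nat_lit 31672130980, nat_lit 27451442531, nat_lit 28064020138, nat_lit 30349597561, nat_lit 30888509338], nat_lit 1271250, nat_lit 1271250, nat_lit 1271250, nat_lit 1271250, nat_lit 0, nat_lit 1949250, [nat_lit 490000, nat_lit 1740000], [nat_lit 110, nat_lit 40, nat_lit 40, nat_lit 80, nat_lit 109, nat_lit 289, nat_lit 75, nat_lit 9]⟩, C1.Rw.none,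
 ⟨nat_lit 3162, nat_lit 3873, ⟨.ofNat (nat_lit 564520), .ofNat (nat_lit 770989), .ofNat (nat_lit 608082), .ofNat (nat_lit 814576), .ofNat (nat_lit 560952), .ofNat (nat_lit 756003), .ofNat (nat_lit 605237), .ofNat (nat_lit 800312)⟩, ⟨.ofNat (nat_lit 0), .ofNat (nat_lit 491830), .ofNat (nat_lit 0), .ofNat (nat_lit 535416), .ofNat (nat_lit 0), .ofNat (nat_lit 482881), .ofNat (nat_lit 0), .ofNat (nat_lit 527190)⟩⟩, [⟨nat_lit 13, nat_lit 66, nat_lit 68, nat_lit 100, nat_lit 317361339⟩, ⟨nat_lit 4, nat_lit 100, nat_lit 67, nat_lit 88, nat_lit 85144043⟩]⟩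
noncomputable def p080_l129 : Lf2 := ⟨nat_lit 0, nat_lit 20, [nat_lit 5, nat_lit 5, nat_lit 5, nat_lit 20], false, nat_lit 0, nat_lit 300, nat_lit 0, nat_lit 384, ⟨nat_lit 0, nat_lit 1000, nat_lit 0, nat_lit 5, nat_lit 170, nat_lit 1000, nat_lit 110, nat_lit 0, nat_lit 0, nat_lit 0, nat_lit 0, nat_lit 0, nat_lit 0, nat_lit 0, nat_lit 0, nat_lit 5000000, false, false⟩,
 nat_lit 0, nat_lit 8119, nat_lit 0, nat_lit 0, nat_lit 6088, nat_lit 0, nat_lit 0, nat_lit 0, nat_lit 0, nat_lit 0, nat_lit 0, nat_lit 0, nat_lit 0, nat_lit 0, nat_lit 0, nat_lit 296350, nat_lit 0, nat_lit 0, [(nat_lit 19, [(nat_lit 0, nat_lit 691), (nat_lit 1, nat_lit 309)]), (nat_lit 22, [(nat_lit 0, nat_lit 691), (nat_lit 1, nat_lit 309)])],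
 ⟨p080_k14, nat_lit 0, nat_lit 0, nat_lit 389, nat_lit 0, nat_lit 224345, [nat_lit 1761826800, nat_lit 2798130300], [], [nat_lit 33837107020, nat_lit 32088762196, nat_lit 28899662996, nat_lit 30592469528, nat_lit 28256060040, nat_lit 30068452396, nat_lit 31290557084, nat_lit 28572283224], nat_lit 1271250, nat_lit 1271250, nat_lit 230001, nat_lit 1717500, nat_lit 0, nat_lit 2118750, [nat_lit 490000, nat_lit 2052500], [nat_lit 94, nat_lit 40, nat_lit 40, nat_lit 80, nat_lit 95, nat_lit 373, nat_lit 150, nat_lit 11]⟩, ⟨p080_k15, nat_lit 0, nat_lit 0, nat_lit 631, nat_lit 0, nat_lit 472305, [nat_lit 0, nat_lit 0], [], [nat_lit 0, nat_lit 0, nat_lit 0, nat_lit 0, nat_lit 0, nat_lit 0, nat_lit 0, nat_lit 0], nat_lit 1271250, nat_lit 1271250, nat_lit 230001, nat_lit 1717500, nat_lit 0, nat_lit 2712000, [nat_lit 1412500, nat_lit 1271250], [nat_lit 149, nat_lit 40, nat_lit 40, nat_lit 80, nat_lit 68, nat_lit 456, nat_lit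 225, nat_lit 11]⟩,
 ⟨nat_lit 3162, nat_lit 4473, ⟨.ofNat (nat_lit 227776), .ofNat (nat_lit 567977), .ofNat (nat_lit 270729), .ofNat (nat_lit 611007), .ofNat (nat_lit 255876), .ofNat (nat_lit 560952), .ofNat (nat_lit 300005), .ofNat (nat_lit 605159)⟩, ⟨.ofNat (nat_lit 0), .ofNat (nat_lit 540545), .ofNat (nat_lit 0), .ofNat (nat_lit 583678), .ofNat (nat_lit 0), .ofNat (nat_lit 519453), .ofNat (nat_lit 0), .ofNat (nat_lit 563762)⟩⟩, [⟨nat_lit 4, nat_lit 100, nat_lit 74, nat_lit 90, nat_lit 49601004⟩]⟩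
noncomputable def p080_l130 : Lf2 := ⟨nat_lit 0, nat_lit 20, [nat_lit 5, nat_lit 5, nat_lit 5, nat_lit 20], true, nat_lit 0, nat_lit 300, nat_lit 0, nat_lit 384, ⟨nat_lit 0, nat_lit 1000, nat_lit 0, nat_lit 6, nat_lit 283, nat_lit 1000, nat_lit 111, nat_lit 0, nat_lit 0, nat_lit 0, nat_lit 0, nat_lit 0, nat_lit 0, nat_lit 0, nat_lit 0, nat_lit 5000000, true, true⟩,
 nat_lit 0, nat_lit 4721, nat_lit 0, nat_lit 3136, nat_lit 3540, nat_lit 0, nat_lit 114, nat_lit 0, nat_lit 0, nat_lit 0, nat_lit 0, nat_lit 0, nat_lit 0, nat_lit 0, nat_lit 0, nat_lit 400000, nat_lit 0, nat_lit 0, [(nat_lit 19, [(nat_lit 1, nat_lit 1000)])],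
 ⟨p080_k31, nat_lit 0, nat_lit 0, nat_lit 287, nat_lit 0, nat_lit 131336, [nat_lit 1398133334, nat_lit 2037600000, nat_lit 1832000000], [], [nat_lit 25051943078, nat_lit 25939519638, nat_lit 30537799451, nat_lit 31348999779, nat_lit 27360345278, nat_lit 27967384028, nat_lit 30841497218, nat_lit 31331649011], nat_lit 1271250, nat_lit 1271250, nat_lit 1271250, nat_lit 1271250, nat_lit 0, nat_lit 2118750, [nat_lit 490000, nat_lit 1100000, nat_lit 2127500], [nat_lit 27, nat_lit 40, nat_lit 40, nat_lit 80, nat_lit 13, nat_lit 401, nat_lit 175, nat_lit 11]⟩, C1.Rw.none,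
 ⟨nat_lit 3872, nat_lit 4473, ⟨.ofNat (nat_lit 567977), .ofNat (nat_lit 812698), .ofNat (nat_lit 611083), .ofNat (nat_lit 855824), .ofNat (nat_lit 564520), .ofNat (nat_lit 796798), .ofNat (nat_lit 608080), .ofNat (nat_lit 840378)⟩, ⟨.ofNat (nat_lit 0), .ofNat (nat_lit 540545), .ofNat (nat_lit 0), .ofNat (nat_lit 583678), .ofNat (nat_lit 0), .ofNat (nat_lit 530543), .ofNat (nat_lit 0), .ofNat (nat_lit 574129)⟩⟩, [⟨nat_lit 13, nat_lit 76, nat_lit 57, nat_lit 100, nat_lit 283552460⟩, ⟨nat_lit 4, nat_lit 100, nat_lit 81, nat_lit 92, nat_lit 78384504⟩]⟩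
noncomputable def p080_l131 : Lf2 := ⟨nat_lit 0, nat_lit 20, [nat_lit 5, nat_lit 5, nat_lit 5, nat_lit 20], true, nat_lit 0, nat_lit 276, nat_lit 0, nat_lit 384, ⟨nat_lit 0, nat_lit 1000, nat_lit 0, nat_lit 6, nat_lit 274, nat_lit 1000, nat_lit 102, nat_lit 0, nat_lit 0, nat_lit 0, nat_lit 0, nat_lit 0, nat_lit 0, nat_lit 0, nat_lit 0, nat_lit 5000000, true, true⟩,
 nat_lit 0, nat_lit 4577, nat_lit 0, nat_lit 0, nat_lit 3705, nat_lit 0, nat_lit 0, nat_lit 0, nat_lit 0, nat_lit 0, nat_lit 0, nat_lit 0, nat_lit 0, nat_lit 0, nat_lit 0, nat_lit 411400, nat_lit 0, nat_lit 0, [(nat_lit 22, [(nat_lit 1, nat_lit 981), (nat_lit 2, nat_lit 19)])],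
 ⟨p080_k16, nat_lit 0, nat_lit 0, nat_lit 291, nat_lit 0, nat_lit 308442, [nat_lit 1602365200, nat_lit 1345820667], [], [nat_lit 26312478554, nat_lit 27171203694, nat_lit 30490869693, nat_lit 31672130980, nat_lit 27451442531, nat_lit 28064020138, nat_lit 30349597561, nat_lit 30888509338], nat_lit 1271250, nat_lit 1271250, nat_lit 1271250, nat_lit 1271250, nat_lit 0, nat_lit 1949250, [nat_lit 490000, nat_lit 1740000], [nat_lit 110, nat_lit 40, nat_lit 40, nat_lit 80, nat_lit 109, nat_lit 289, nat_lit 75, nat_lit 9]⟩, C1.Rw.none,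
 ⟨nat_lit 3162, nat_lit 3873, ⟨.ofNat (nat_lit 564520), .ofNat (nat_lit 770989), .ofNat (nat_lit 608082), .ofNat (nat_lit 814576), .ofNat (nat_lit 560952), .ofNat (nat_lit 756003), .ofNat (nat_lit 605237), .ofNat (nat_lit 800312)⟩, ⟨.ofNat (nat_lit 0), .ofNat (nat_lit 491830), .ofNat (nat_lit 0), .ofNat (nat_lit 535416), .ofNat (nat_lit 0), .ofNat (nat_lit 482881), .ofNat (nat_lit 0), .ofNat (nat_lit 527190)⟩⟩, [⟨nat_lit 13, nat_lit 66, nat_lit 68, nat_lit 100, nat_lit 317361339⟩, ⟨nat_lit 4, nat_lit 100, nat_lit 67, nat_lit 88, nat_lit 85144043⟩]⟩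
noncomputable def b_V_800_500_20_20 : St := ⟨true, nat_lit 1, nat_lit 2, nat_lit 2, nat_lit 120, nat_lit 320, nat_lit 360, nat_lit 200, nat_lit 240, nat_lit 40, nat_lit 384, nat_lit 80, nat_lit 120, nat_lit 0, nat_lit 300, nat_lit 0, nat_lit 384, nat_lit 40, nat_lit 80, nat_lit 0, nat_lit 0, nat_lit 0, nat_lit 0⟩
theorem d_V_800_500_20_20 (h : EB TB.env) : Dead b_V_800_500_20_20 := chkB_sound0 h (T :=
(.st (nat_lit 1)
(.spl (nat_lit 2) (nat_lit 240)
(.leaf p080_l126)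
(.spl (nat_lit 0) (nat_lit 340)
(.leaf p080_l127)
(.trX (nat_lit 13) (nat_lit 73) (nat_lit 55) (nat_lit 100) (nat_lit 368) (.trX (nat_lit 16) (nat_lit 77) (nat_lit 100) (nat_lit 99) (nat_lit 276) (.leaf p080_l128)))))
(.spl (nat_lit 2) (nat_lit 240)
(.leaf p080_l129)
(.spl (nat_lit 0) (nat_lit 340)
(.leaf p080_l130)
(.trX (nat_lit 13) (nat_lit 73) (nat_lit 55) (nat_lit 100) (nat_lit 368) (.trX (nat_lit 16) (nat_lit 77) (nat_lit 100) (nat_lit 99) (nat_lit 276) (.leaf p080_l131))))))) (by decide +kernel)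
noncomputable def p080_l132 : Lf2 := ⟨nat_lit 0, nat_lit 23, [nat_lit 114, nat_lit 5, nat_lit 5, nat_lit 20], true, nat_lit 0, nat_lit 160, nat_lit 0, nat_lit 384, ⟨nat_lit 0, nat_lit 0, nat_lit 1000, nat_lit 5, nat_lit 144, nat_lit 1000, nat_lit 65, nat_lit 1000, nat_lit 40017, nat_lit 264, nat_lit 62098, nat_lit 276, nat_lit 59297469, nat_lit 0, nat_lit 0, nat_lit 1783836, false, false⟩,
 nat_lit 0, nat_lit 0, nat_lit 0, nat_lit 9244, nat_lit 2850, nat_lit 0, nat_lit 0, nat_lit 0, nat_lit 0, nat_lit 0, nat_lit 0, nat_lit 0, nat_lit 0, nat_lit 0, nat_lit 113, nat_lit 361300, nat_lit 0, nat_lit 0, [(nat_lit 20, [(nat_lit 4, nat_lit 258), (nat_lit 5, nat_lit 742)]), (nat_lit 23, [(nat_lit 4, nat_lit 258), (nat_lit 5, nat_lit 742)])],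
 ⟨p080_k42, nat_lit 0, nat_lit 0, nat_lit 292, nat_lit 0, nat_lit 0, [nat_lit 2349479201, nat_lit 211631200], [], [nat_lit 18044529801, nat_lit 20410843202, nat_lit 18854783002, nat_lit 21008381602, nat_lit 18203117602, nat_lit 20308461402, nat_lit 19117209602, nat_lit 20969073202], nat_lit 0, nat_lit 0, nat_lit 0, nat_lit 0, nat_lit 0, nat_lit 0, [], [nat_lit 94, nat_lit 40, nat_lit 40, nat_lit 80, nat_lit 95, nat_lit 317, nat_lit 100, nat_lit 9]⟩, C1.Rw.none,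
 ⟨nat_lit 3162, nat_lit 4473, ⟨.ofNat (nat_lit 227776), .ofNat (nat_lit 431944), .ofNat (nat_lit 270729), .ofNat (nat_lit 474896), .ofNat (nat_lit 255876), .ofNat (nat_lit 438969), .ofNat (nat_lit 300005), .ofNat (nat_lit 483097)⟩, ⟨.ofNat (nat_lit 0), .ofNat (nat_lit 302621), .ofNat (nat_lit 0), .ofNat (nat_lit 345754), .ofNat (nat_lit 0), .ofNat (nat_lit 306116), .ofNat (nat_lit 0), .ofNat (nat_lit 350426)⟩⟩, [⟨nat_lit 0, nat_lit 100, nat_lit 61, nat_lit 92, nat_lit 37356063⟩, ⟨nat_lit 3, nat_lit 100, nat_lit 82, nat_lit 29, nat_lit 75949359⟩]⟩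
noncomputable def p080_l133 : Lf2 := ⟨nat_lit 0, nat_lit 23, [nat_lit 114, nat_lit 5, nat_lit 5, nat_lit 20], false, nat_lit 0, nat_lit 160, nat_lit 0, nat_lit 384, ⟨nat_lit 175, nat_lit 0, nat_lit 825, nat_lit 5, nat_lit 209, nat_lit 825, nat_lit 65, nat_lit 825, nat_lit 40017, nat_lit 264, nat_lit 5755, nat_lit 209, nat_lit 52663715, nat_lit 0, nat_lit 0, nat_lit 2595874, false, false⟩,
 nat_lit 0, nat_lit 0, nat_lit 0, nat_lit 10410, nat_lit 2794, nat_lit 1650, nat_lit 106, nat_lit 0, nat_lit 0, nat_lit 103, nat_lit 0, nat_lit 0, nat_lit 0, nat_lit 0, nat_lit 44, nat_lit 330000, nat_lit 0, nat_lit 0, [(nat_lit 20, [(nat_lit 5, nat_lit 825)]), (nat_lit 23, [(nat_lit 5, nat_lit 825)])],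
 ⟨p080_k43, nat_lit 0, nat_lit 0, nat_lit 198, nat_lit 0, nat_lit 0, [nat_lit 1604210001, nat_lit 926495000, nat_lit 195880000], [], [nat_lit 18964569403, nat_lit 21222633443, nat_lit 21099171115, nat_lit 23088004370, nat_lit 19164038674, nat_lit 21280454554, nat_lit 21327664666, nat_lit 23195891802], nat_lit 0, nat_lit 0, nat_lit 0, nat_lit 0, nat_lit 0, nat_lit 0, [], [nat_lit 61, nat_lit 40, nat_lit 40, nat_lit 80, nat_lit 1, nat_lit 317, nat_lit 100, nat_lit 9]⟩, ⟨p080_k44, nat_lit 0, nat_lit 0, nat_lit 418, nat_lit 0, nat_lit 0, [nat_lit 1093750000, nat_lit 2077600000, nat_lit 2870000000], [], [nat_lit 6550135950, nat_lit 6783318450, nat_lit 6828473850, nat_lit 7003260450, nat_lit 6588072351, nat_lit 6608914890, nat_lit 6513281891, nat_lit 6509347461], nat_lit 0, nat_lit 0, nat_lit 0, nat_lit 0, nat_lit 0, nat_lit 0, [], [nat_lit 104, nat_lit 40, nat_lit 40, nat_lit 80, nat_lit 76, nat_lit 456, nat_lit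 225, nat_lit 10]⟩,
 ⟨nat_lit 3162, nat_lit 4473, ⟨.ofNat (nat_lit 431944), .ofNat (nat_lit 567977), .ofNat (nat_lit 474896), .ofNat (nat_lit 611007), .ofNat (nat_lit 438969), .ofNat (nat_lit 560952), .ofNat (nat_lit 483097), .ofNat (nat_lit 605159)⟩, ⟨.ofNat (nat_lit 0), .ofNat (nat_lit 302621), .ofNat (nat_lit 0), .ofNat (nat_lit 345754), .ofNat (nat_lit 0), .ofNat (nat_lit 306116), .ofNat (nat_lit 0), .ofNat (nat_lit 350426)⟩⟩, [⟨nat_lit 22, nat_lit 100, nat_lit 60, nat_lit 80, nat_lit 35725101⟩]⟩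
noncomputable def p080_l134 : Lf2 := ⟨nat_lit 1, nat_lit 23, [nat_lit 114, nat_lit 5, nat_lit 5, nat_lit 20], false, nat_lit 160, nat_lit 300, nat_lit 0, nat_lit 384, zbN0,
 nat_lit 0, nat_lit 0, nat_lit 0, nat_lit 0, nat_lit 0, nat_lit 0, nat_lit 0, nat_lit 0, nat_lit 0, nat_lit 0, nat_lit 0, nat_lit 0, nat_lit 0, nat_lit 0, nat_lit 0, nat_lit 0, nat_lit 0, nat_lit 0, [],
 C1.Rw.none, C1.Rw.none,
 zbF0, []⟩
noncomputable def p080_l135 : Lf2 := ⟨nat_lit 0, nat_lit 23, [nat_lit 114, nat_lit 5, nat_lit 5, nat_lit 20], true, nat_lit 160, nat_lit 276, nat_lit 0, nat_lit 384, ⟨nat_lit 0, nat_lit 0, nat_lit 1000, nat_lit 5, nat_lit 176, nat_lit 1000, nat_lit 167, nat_lit 999, nat_lit 13749, nat_lit 240, nat_lit 600, nat_lit 209, nat_lit 46683746, nat_lit 0, nat_lit 0, nat_lit 4422119, false, false⟩,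
 nat_lit 0, nat_lit 0, nat_lit 0, nat_lit 12370, nat_lit 3535, nat_lit 0, nat_lit 0, nat_lit 0, nat_lit 0, nat_lit 0, nat_lit 0, nat_lit 0, nat_lit 0, nat_lit 0, nat_lit 95, nat_lit 250000, nat_lit 0, nat_lit 0, [(nat_lit 23, [(nat_lit 4, nat_lit 1000)])],
 ⟨p080_k45, nat_lit 0, nat_lit 0, nat_lit 146, nat_lit 0, nat_lit 0, [nat_lit 2259200001, nat_lit 707600000], [], [nat_lit 19031929689, nat_lit 20309566048, nat_lit 21200123201, nat_lit 22145173100, nat_lit 22413592042, nat_lit 23883551649, nat_lit 24495446531, nat_lit 25653504433], nat_lit 0, nat_lit 0, nat_lit 0, nat_lit 0, nat_lit 0, nat_lit 0, [], [nat_lit 94, nat_lit 40, nat_lit 40, nat_lit 80, nat_lit 95, nat_lit 373, nat_lit 150, nat_lit 10]⟩, C1.Rw.none,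
 ⟨nat_lit 3162, nat_lit 3873, ⟨.ofNat (nat_lit 267606), .ofNat (nat_lit 564520), .ofNat (nat_lit 311135), .ofNat (nat_lit 608082), .ofNat (nat_lit 280451), .ofNat (nat_lit 560952), .ofNat (nat_lit 324704), .ofNat (nat_lit 605237)⟩, ⟨.ofNat (nat_lit 304717), .ofNat (nat_lit 491830), .ofNat (nat_lit 348304), .ofNat (nat_lit 535416), .ofNat (nat_lit 306116), .ofNat (nat_lit 482881), .ofNat (nat_lit 350426), .ofNat (nat_lit 527190)⟩⟩, [⟨nat_lit 16, nat_lit 67, nat_lit 100, nat_lit 88, nat_lit 299609122⟩]⟩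
noncomputable def p080_l136 : Lf2 := ⟨nat_lit 1, nat_lit 23, [nat_lit 114, nat_lit 5, nat_lit 5, nat_lit 20], false, nat_lit 0, nat_lit 160, nat_lit 0, nat_lit 384, zbN0,
 nat_lit 0, nat_lit 0, nat_lit 0, nat_lit 0, nat_lit 0, nat_lit 0, nat_lit 0, nat_lit 0, nat_lit 0, nat_lit 0, nat_lit 0, nat_lit 0, nat_lit 0, nat_lit 0, nat_lit 0, nat_lit 0, nat_lit 0, nat_lit 0, [],
 C1.Rw.none, C1.Rw.none,
 zbF0, []⟩
noncomputable def p080_l137 : Lf2 := ⟨nat_lit 1, nat_lit 23, [nat_lit 114, nat_lit 5, nat_lit 5, nat_lit 20], false, nat_lit 0, nat_lit 160, nat_lit 0, nat_lit 376, zbN0,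
 nat_lit 0, nat_lit 0, nat_lit 0, nat_lit 0, nat_lit 0, nat_lit 0, nat_lit 0, nat_lit 0, nat_lit 0, nat_lit 0, nat_lit 0, nat_lit 0, nat_lit 0, nat_lit 0, nat_lit 0, nat_lit 0, nat_lit 0, nat_lit 0, [],
 C1.Rw.none, C1.Rw.none,
 zbF0, []⟩
noncomputable def p080_l138 : Lf2 := ⟨nat_lit 0, nat_lit 23, [nat_lit 114, nat_lit 5, nat_lit 5, nat_lit 20], false, nat_lit 0, nat_lit 160, nat_lit 0, nat_lit 376, ⟨nat_lit 1000, nat_lit 0, nat_lit 0, nat_lit 0, nat_lit 0, nat_lit 0, nat_lit 0, nat_lit 0, nat_lit 0, nat_lit 0, nat_lit 0, nat_lit 0, nat_lit 0, nat_lit 0, nat_lit 0, nat_lit 0, false, false⟩,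
 nat_lit 0, nat_lit 0, nat_lit 0, nat_lit 21990, nat_lit 6288, nat_lit 10878, nat_lit 639, nat_lit 0, nat_lit 0, nat_lit 502, nat_lit 0, nat_lit 0, nat_lit 0, nat_lit 0, nat_lit 0, nat_lit 0, nat_lit 0, nat_lit 0, [],
 ⟨p080_k46, nat_lit 0, nat_lit 0, nat_lit 217, nat_lit 0, nat_lit 0, [nat_lit 2032000001, nat_lit 6250000000, nat_lit 9842000000], [], [nat_lit 27884601967, nat_lit 29562908704, nat_lit 37217730557, nat_lit 38800477408, nat_lit 23444645271, nat_lit 24468607079, nat_lit 30398430116, nat_lit 31771606279], nat_lit 0, nat_lit 0, nat_lit 0, nat_lit 0, nat_lit 0, nat_lit 0, [], [nat_lit 61, nat_lit 40, nat_lit 40, nat_lit 80, nat_lit 1, nat_lit 373, nat_lit 150, nat_lit 10]⟩, ⟨p080_k47, nat_lit 0, nat_lit 0, nat_lit 302, nat_lit 0, nat_lit 0, [nat_lit 6250000000, nat_lit 11872000000, nat_lit 14058000000], [], [nat_lit 36944802206, nat_lit 37690241398, nat_lit 46572194766, nat_lit 46812672483, nat_lit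 35470207756, nat_lit 35522301348, nat_lit 39191844121, nat_lit 39181683154], nat_lit 0, nat_lit 0, nat_lit 0, nat_lit 0, nat_lit 0, nat_lit 0, [], [nat_lit 137, nat_lit 40, nat_lit 40, nat_lit 80, nat_lit 58, nat_lit 483, nat_lit 250, nat_lit 11]⟩,
 zbF0, [⟨nat_lit 7, nat_lit 63, nat_lit 100, nat_lit 88, nat_lit 80225883⟩, ⟨nat_lit 22, nat_lit 92, nat_lit 100, nat_lit 86, nat_lit 34279754⟩]⟩
noncomputable def p080_l139 : Lf2 := ⟨nat_lit 1, nat_lit 23, [nat_lit 114, nat_lit 5, nat_lit 5, nat_lit 20], false, nat_lit 160, nat_lit 300, nat_lit 0, nat_lit 384, zbN0,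
 nat_lit 0, nat_lit 0, nat_lit 0, nat_lit 0, nat_lit 0, nat_lit 0, nat_lit 0, nat_lit 0, nat_lit 0, nat_lit 0, nat_lit 0, nat_lit 0, nat_lit 0, nat_lit 0, nat_lit 0, nat_lit 0, nat_lit 0, nat_lit 0, [],
 C1.Rw.none, C1.Rw.none,
 zbF0, []⟩
noncomputable def p080_l140 : Lf2 := ⟨nat_lit 0, nat_lit 23, [nat_lit 114, nat_lit 5, nat_lit 5, nat_lit 20], false, nat_lit 160, nat_lit 276, nat_lit 0, nat_lit 384, ⟨nat_lit 763, nat_lit 237, nat_lit 0, nat_lit 6, nat_lit 274, nat_lit 237, nat_lit 167, nat_lit 0, nat_lit 0, nat_lit 0, nat_lit 0, nat_lit 0, nat_lit 38899391, nat_lit 19327237, nat_lit 8773372, nat_lit 5055720, true, true⟩,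
 nat_lit 0, nat_lit 0, nat_lit 0, nat_lit 23890, nat_lit 6230, nat_lit 8682, nat_lit 0, nat_lit 0, nat_lit 0, nat_lit 421, nat_lit 0, nat_lit 0, nat_lit 0, nat_lit 0, nat_lit 0, nat_lit 59250, nat_lit 0, nat_lit 0, [(nat_lit 23, [(nat_lit 0, nat_lit 237)])],
 ⟨p080_k46, nat_lit 0, nat_lit 0, nat_lit 88, nat_lit 0, nat_lit 0, [nat_lit 1923928001, nat_lit 5321149600, nat_lit 8251824800], [], [nat_lit 23790465160, nat_lit 25340274840, nat_lit 30610604781, nat_lit 31702448553, nat_lit 27136529690, nat_lit 28355357694, nat_lit 32623922070, nat_lit 33698612115], nat_lit 0, nat_lit 0, nat_lit 0, nat_lit 0, nat_lit 0, nat_lit 0, [], [nat_lit 61, nat_lit 40, nat_lit 40, nat_lit 80, nat_lit 1, nat_lit 401, nat_lit 175, nat_lit 10]⟩, ⟨p080_k44, nat_lit 0, nat_lit 0, nat_lit 341, nat_lit 0, nat_lit 0, [nat_lit 4768750000, nat_lit 9058336000, nat_lit 12513200000], [], [nat_lit 31592075670, nat_lit 32352383454, nat_lit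 38098176068, nat_lit 38186028948, nat_lit 28656182725, nat_lit 28490476911, nat_lit 31136816322, nat_lit 30892821821], nat_lit 0, nat_lit 0, nat_lit 0, nat_lit 0, nat_lit 0, nat_lit 0, [], [nat_lit 104, nat_lit 40, nat_lit 40, nat_lit 80, nat_lit 76, nat_lit 483, nat_lit 250, nat_lit 10]⟩,
 ⟨nat_lit 3162, nat_lit 3873, ⟨.ofNat (nat_lit 564520), .ofNat (nat_lit 770989), .ofNat (nat_lit 608082), .ofNat (nat_lit 814576), .ofNat (nat_lit 560952), .ofNat (nat_lit 756003), .ofNat (nat_lit 605237), .ofNat (nat_lit 800312)⟩, ⟨.ofNat (nat_lit 304717), .ofNat (nat_lit 491830), .ofNat (nat_lit 348304), .ofNat (nat_lit 535416), .ofNat (nat_lit 306116), .ofNat (nat_lit 482881), .ofNat (nat_lit 350426), .ofNat (nat_lit 527190)⟩⟩, [⟨nat_lit 16, nat_lit 67, nat_lit 100, nat_lit 88, nat_lit 495204769⟩, ⟨nat_lit 7, nat_lit 59, nat_lit 100, nat_lit 87, nat_lit 67142481⟩]⟩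
noncomputable def p080_l141 : Lf2 := ⟨nat_lit 1, nat_lit 23, [nat_lit 114, nat_lit 5, nat_lit 5, nat_lit 20], false, nat_lit 0, nat_lit 80, nat_lit 0, nat_lit 384, zbN0,
 nat_lit 0, nat_lit 0, nat_lit 0, nat_lit 0, nat_lit 0, nat_lit 0, nat_lit 0, nat_lit 0, nat_lit 0, nat_lit 0, nat_lit 0, nat_lit 0, nat_lit 0, nat_lit 0, nat_lit 0, nat_lit 0, nat_lit 0, nat_lit 0, [],
 C1.Rw.none, C1.Rw.none,
 zbF0, []⟩
noncomputable def p080_l142 : Lf2 := ⟨nat_lit 0, nat_lit 23, [nat_lit 114, nat_lit 5, nat_lit 5, nat_lit 20], true, nat_lit 0, nat_lit 80, nat_lit 0, nat_lit 384, ⟨nat_lit 0, nat_lit 82, nat_lit 918, nat_lit 5, nat_lit 176, nat_lit 1000, nat_lit 38, nat_lit 918, nat_lit 13067, nat_lit 243, nat_lit 600, nat_lit 209, nat_lit 56118806, nat_lit 10881194, nat_lit 0, nat_lit 2218188, false, false⟩,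
 nat_lit 0, nat_lit 0, nat_lit 0, nat_lit 8198, nat_lit 2476, nat_lit 0, nat_lit 0, nat_lit 0, nat_lit 0, nat_lit 0, nat_lit 0, nat_lit 0, nat_lit 0, nat_lit 0, nat_lit 128, nat_lit 387700, nat_lit 0, nat_lit 0, [(nat_lit 23, [(nat_lit 0, nat_lit 82), (nat_lit 5, nat_lit 918)])],
 ⟨p080_k45, nat_lit 0, nat_lit 0, nat_lit 286, nat_lit 0, nat_lit 0, [nat_lit 2055075201, nat_lit 332995200], [], [nat_lit 18225559691, nat_lit 19367814114, nat_lit 21152106850, nat_lit 22055743890, nat_lit 17683696505, nat_lit 18762866290, nat_lit 20618952978, nat_lit 21557320675], nat_lit 0, nat_lit 0, nat_lit 0, nat_lit 0, nat_lit 0, nat_lit 0, [], [nat_lit 94, nat_lit 40, nat_lit 40, nat_lit 80, nat_lit 95, nat_lit 317, nat_lit 100, nat_lit 9]⟩, C1.Rw.none,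
 ⟨nat_lit 3162, nat_lit 3873, ⟨.ofNat (nat_lit 267606), .ofNat (nat_lit 564520), .ofNat (nat_lit 311135), .ofNat (nat_lit 608082), .ofNat (nat_lit 280451), .ofNat (nat_lit 560952), .ofNat (nat_lit 324704), .ofNat (nat_lit 605237)⟩, ⟨.ofNat (nat_lit 0), .ofNat (nat_lit 175674), .ofNat (nat_lit 0), .ofNat (nat_lit 200000), .ofNat (nat_lit 0), .ofNat (nat_lit 184209), .ofNat (nat_lit 0), .ofNat (nat_lit 200000)⟩⟩, [⟨nat_lit 3, nat_lit 100, nat_lit 76, nat_lit 37, nat_lit 161632505⟩]⟩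
noncomputable def p080_l143 : Lf2 := ⟨nat_lit 0, nat_lit 23, [nat_lit 114, nat_lit 5, nat_lit 5, nat_lit 20], true, nat_lit 80, nat_lit 160, nat_lit 0, nat_lit 384, ⟨nat_lit 0, nat_lit 0, nat_lit 1000, nat_lit 5, nat_lit 170, nat_lit 1000, nat_lit 103, nat_lit 1000, nat_lit 98817, nat_lit 292, nat_lit 817, nat_lit 208, nat_lit 51925390, nat_lit 0, nat_lit 0, nat_lit 3579476, false, false⟩,
 nat_lit 0, nat_lit 0, nat_lit 0, nat_lit 8102, nat_lit 3737, nat_lit 0, nat_lit 0, nat_lit 0, nat_lit 0, nat_lit 0, nat_lit 0, nat_lit 0, nat_lit 0, nat_lit 0, nat_lit 78, nat_lit 250000, nat_lit 0, nat_lit 0, [(nat_lit 20, [(nat_lit 4, nat_lit 1000)]), (nat_lit 23, [(nat_lit 4, nat_lit 1000)])],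
 ⟨p080_k42, nat_lit 0, nat_lit 0, nat_lit 167, nat_lit 0, nat_lit 0, [nat_lit 2123200001, nat_lit 356800000], [], [nat_lit 17374528816, nat_lit 20320154068, nat_lit 19719595472, nat_lit 21956207592, nat_lit 18001907552, nat_lit 20662667512, nat_lit 20127156652, nat_lit 22261496820], nat_lit 0, nat_lit 0, nat_lit 0, nat_lit 0, nat_lit 0, nat_lit 0, [], [nat_lit 94, nat_lit 40, nat_lit 40, nat_lit 80, nat_lit 95, nat_lit 317, nat_lit 100, nat_lit 9]⟩, C1.Rw.none,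
 ⟨nat_lit 3162, nat_lit 4473, ⟨.ofNat (nat_lit 227776), .ofNat (nat_lit 567977), .ofNat (nat_lit 270729), .ofNat (nat_lit 611007), .ofNat (nat_lit 255876), .ofNat (nat_lit 560952), .ofNat (nat_lit 300005), .ofNat (nat_lit 605159)⟩, ⟨.ofNat (nat_lit 166665), .ofNat (nat_lit 302621), .ofNat (nat_lit 200000), .ofNat (nat_lit 345754), .ofNat (nat_lit 184209), .ofNat (nat_lit 306116), .ofNat (nat_lit 200000), .ofNat (nat_lit 350426)⟩⟩, []⟩
noncomputable def p080_l144 : Lf2 := ⟨nat_lit 1, nat_lit 23, [nat_lit 114, nat_lit 5, nat_lit 5, nat_lit 20], false, nat_lit 160, nat_lit 300, nat_lit 0, nat_lit 384, zbN0,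
 nat_lit 0, nat_lit 0, nat_lit 0, nat_lit 0, nat_lit 0, nat_lit 0, nat_lit 0, nat_lit 0, nat_lit 0, nat_lit 0, nat_lit 0, nat_lit 0, nat_lit 0, nat_lit 0, nat_lit 0, nat_lit 0, nat_lit 0, nat_lit 0, [],
 C1.Rw.none, C1.Rw.none,
 zbF0, []⟩
noncomputable def p080_l145 : Lf2 := ⟨nat_lit 0, nat_lit 23, [nat_lit 114, nat_lit 5, nat_lit 5, nat_lit 20], true, nat_lit 160, nat_lit 276, nat_lit 0, nat_lit 384, ⟨nat_lit 0, nat_lit 0, nat_lit 1000, nat_lit 5, nat_lit 176, nat_lit 1000, nat_lit 167, nat_lit 999, nat_lit 13749, nat_lit 240, nat_lit 600, nat_lit 209, nat_lit 46683746, nat_lit 0, nat_lit 0, nat_lit 4422119, false, false⟩,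
 nat_lit 0, nat_lit 0, nat_lit 0, nat_lit 12370, nat_lit 3535, nat_lit 0, nat_lit 0, nat_lit 0, nat_lit 0, nat_lit 0, nat_lit 0, nat_lit 0, nat_lit 0, nat_lit 0, nat_lit 95, nat_lit 250000, nat_lit 0, nat_lit 0, [(nat_lit 23, [(nat_lit 4, nat_lit 1000)])],
 ⟨p080_k45, nat_lit 0, nat_lit 0, nat_lit 146, nat_lit 0, nat_lit 0, [nat_lit 2259200001, nat_lit 707600000], [], [nat_lit 19031929689, nat_lit 20309566048, nat_lit 21200123201, nat_lit 22145173100, nat_lit 22413592042, nat_lit 23883551649, nat_lit 24495446531, nat_lit 25653504433], nat_lit 0, nat_lit 0, nat_lit 0, nat_lit 0, nat_lit 0, nat_lit 0, [], [nat_lit 94, nat_lit 40, nat_lit 40, nat_lit 80, nat_lit 95, nat_lit 373, nat_lit 150, nat_lit 10]⟩, C1.Rw.none,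
 ⟨nat_lit 3162, nat_lit 3873, ⟨.ofNat (nat_lit 267606), .ofNat (nat_lit 564520), .ofNat (nat_lit 311135), .ofNat (nat_lit 608082), .ofNat (nat_lit 280451), .ofNat (nat_lit 560952), .ofNat (nat_lit 324704), .ofNat (nat_lit 605237)⟩, ⟨.ofNat (nat_lit 304717), .ofNat (nat_lit 491830), .ofNat (nat_lit 348304), .ofNat (nat_lit 535416), .ofNat (nat_lit 306116), .ofNat (nat_lit 482881), .ofNat (nat_lit 350426), .ofNat (nat_lit 527190)⟩⟩, [⟨nat_lit 16, nat_lit 67, nat_lit 100, nat_lit 88, nat_lit 299609122⟩]⟩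
noncomputable def p080_l146 : Lf2 := ⟨nat_lit 1, nat_lit 23, [nat_lit 114, nat_lit 5, nat_lit 5, nat_lit 20], false, nat_lit 0, nat_lit 160, nat_lit 0, nat_lit 384, zbN0,
 nat_lit 0, nat_lit 0, nat_lit 0, nat_lit 0, nat_lit 0, nat_lit 0, nat_lit 0, nat_lit 0, nat_lit 0, nat_lit 0, nat_lit 0, nat_lit 0, nat_lit 0, nat_lit 0, nat_lit 0, nat_lit 0, nat_lit 0, nat_lit 0, [],
 C1.Rw.none, C1.Rw.none,
 zbF0, []⟩
noncomputable def p080_l147 : Lf2 := ⟨nat_lit 0, nat_lit 23, [nat_lit 114, nat_lit 5, nat_lit 5, nat_lit 20], false, nat_lit 0, nat_lit 80, nat_lit 0, nat_lit 336, ⟨nat_lit 1000, nat_lit 0, nat_lit 0, nat_lit 0, nat_lit 0, nat_lit 0, nat_lit 0, nat_lit 0, nat_lit 0, nat_lit 0, nat_lit 0, nat_lit 0, nat_lit 0, nat_lit 0, nat_lit 0, nat_lit 0, false, false⟩,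
 nat_lit 0, nat_lit 0, nat_lit 18026, nat_lit 0, nat_lit 6661, nat_lit 8620, nat_lit 737, nat_lit 0, nat_lit 0, nat_lit 724, nat_lit 0, nat_lit 0, nat_lit 0, nat_lit 0, nat_lit 0, nat_lit 0, nat_lit 0, nat_lit 0, [],
 ⟨p080_k48, nat_lit 0, nat_lit 0, nat_lit 196, nat_lit 0, nat_lit 0, [nat_lit 2032000001, nat_lit 4688000000, nat_lit 9842000000], [], [nat_lit 27119552933, nat_lit 30303432465, nat_lit 31831441596, nat_lit 35718980900, nat_lit 23228149617, nat_lit 25759838073, nat_lit 26706831825, nat_lit 29873454548], nat_lit 0, nat_lit 0, nat_lit 0, nat_lit 0, nat_lit 0, nat_lit 0, [], [nat_lit 27, nat_lit 40, nat_lit 40, nat_lit 80, nat_lit 13, nat_lit 317, nat_lit 100, nat_lit 9]⟩, ⟨p080_k49, nat_lit 0, nat_lit 0, nat_lit 369, nat_lit 0, nat_lit 115308, [nat_lit 6250000000, nat_lit 9842000000, nat_lit 14058000000], [], [nat_lit 34072939240, nat_lit 34774202920, nat_lit 38790781320, nat_lit 39242468040, nat_lit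 32289135488, nat_lit 32516200744, nat_lit 34546725008, nat_lit 34634125800], nat_lit 1271250, nat_lit 1271250, nat_lit 1271250, nat_lit 1271250, nat_lit 0, nat_lit 2373000, [nat_lit 1412500, nat_lit 1271250, nat_lit 1271250], [nat_lit 60, nat_lit 40, nat_lit 40, nat_lit 80, nat_lit 32, nat_lit 456, nat_lit 225, nat_lit 10]⟩,
 zbF0, [⟨nat_lit 22, nat_lit 94, nat_lit 100, nat_lit 62, nat_lit 55366874⟩, ⟨nat_lit 22, nat_lit 100, nat_lit 76, nat_lit 82, nat_lit 138198615⟩]⟩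
noncomputable def p080_l148 : Lf2 := ⟨nat_lit 1, nat_lit 23, [nat_lit 114, nat_lit 5, nat_lit 5, nat_lit 20], false, nat_lit 80, nat_lit 160, nat_lit 0, nat_lit 376, zbN0,
 nat_lit 0, nat_lit 0, nat_lit 0, nat_lit 0, nat_lit 0, nat_lit 0, nat_lit 0, nat_lit 0, nat_lit 0, nat_lit 0, nat_lit 0, nat_lit 0, nat_lit 0, nat_lit 0, nat_lit 0, nat_lit 0, nat_lit 0, nat_lit 0, [],
 C1.Rw.none, C1.Rw.none,
 zbF0, []⟩
noncomputable def p080_l149 : Lf2 := ⟨nat_lit 0, nat_lit 23, [nat_lit 114, nat_lit 5, nat_lit 5, nat_lit 20], false, nat_lit 80, nat_lit 160, nat_lit 0, nat_lit 376, ⟨nat_lit 466, nat_lit 534, nat_lit 0, nat_lit 6, nat_lit 263, nat_lit 534, nat_lit 103, nat_lit 0, nat_lit 0, nat_lit 0, nat_lit 0, nat_lit 0, nat_lit 43144794, nat_lit 19394202, nat_lit 4461004, nat_lit 4359773, true, true⟩,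
 nat_lit 0, nat_lit 0, nat_lit 7032, nat_lit 3543, nat_lit 5951, nat_lit 3363, nat_lit 0, nat_lit 0, nat_lit 0, nat_lit 272, nat_lit 0, nat_lit 0, nat_lit 0, nat_lit 0, nat_lit 0, nat_lit 456600, nat_lit 0, nat_lit 0, [(nat_lit 23, [(nat_lit 1, nat_lit 129), (nat_lit 2, nat_lit 405)])],
 ⟨p080_k50, nat_lit 0, nat_lit 0, nat_lit 142, nat_lit 0, nat_lit 0, [nat_lit 1687486001, nat_lit 2600801601, nat_lit 2225820800], [], [nat_lit 24220160036, nat_lit 25631555416, nat_lit 27736052292, nat_lit 28915190268, nat_lit 23760177606, nat_lit 25025483416, nat_lit 26903241096, nat_lit 28020179244], nat_lit 0, nat_lit 0, nat_lit 0, nat_lit 0, nat_lit 0, nat_lit 0, [], [nat_lit 27, nat_lit 40, nat_lit 40, nat_lit 80, nat_lit 13, nat_lit 345, nat_lit 125, nat_lit 9]⟩, ⟨p080_k49, nat_lit 0, nat_lit 0, nat_lit 369, nat_lit 0, nat_lit 115308, [nat_lit 2912500000, nat_lit 4586372000, nat_lit 6551028000], [], [nat_lit 16580649668,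 nat_lit 16822351328, nat_lit 18157899048, nat_lit 18324115688, nat_lit 17067569605, nat_lit 16997846383, nat_lit 17759468311, nat_lit 17791387534], nat_lit 1271250, nat_lit 1271250, nat_lit 1271250, nat_lit 1271250, nat_lit 0, nat_lit 2655500, [nat_lit 1412500, nat_lit 1271250, nat_lit 1271250], [nat_lit 60, nat_lit 40, nat_lit 40, nat_lit 80, nat_lit 32, nat_lit 483, nat_lit 250, nat_lit 11]⟩,
 ⟨nat_lit 3162, nat_lit 3873, ⟨.ofNat (nat_lit 586313), .ofNat (nat_lit 715356), .ofNat (nat_lit 608082), .ofNat (nat_lit 737150), .ofNat (nat_lit 583107), .ofNat (nat_lit 705013), .ofNat (nat_lit 605237), .ofNat (nat_lit 727168)⟩, ⟨.ofNat (nat_lit 175674), .ofNat (nat_lit 304717), .ofNat (nat_lit 200000), .ofNat (nat_lit 348304), .ofNat (nat_lit 184209), .ofNat (nat_lit 306116), .ofNat (nat_lit 200000), .ofNat (nat_lit 350426)⟩⟩, [⟨nat_lit 19, nat_lit 100, nat_lit 63, nat_lit 88, nat_lit 97537658⟩]⟩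
noncomputable def p080_l150 : Lf2 := ⟨nat_lit 1, nat_lit 23, [nat_lit 114, nat_lit 5, nat_lit 5, nat_lit 20], false, nat_lit 0, nat_lit 160, nat_lit 0, nat_lit 336, zbN0,
 nat_lit 0, nat_lit 0, nat_lit 0, nat_lit 0, nat_lit 0, nat_lit 0, nat_lit 0, nat_lit 0, nat_lit 0, nat_lit 0, nat_lit 0, nat_lit 0, nat_lit 0, nat_lit 0, nat_lit 0, nat_lit 0, nat_lit 0, nat_lit 0, [],
 C1.Rw.none, C1.Rw.none,
 zbF0, []⟩
noncomputable def p080_l151 : Lf2 := ⟨nat_lit 0, nat_lit 23, [nat_lit 114, nat_lit 5, nat_lit 5, nat_lit 20], false, nat_lit 0, nat_lit 160, nat_lit 0, nat_lit 336, ⟨nat_lit 1000, nat_lit 0, nat_lit 0, nat_lit 0, nat_lit 0, nat_lit 0, nat_lit 0, nat_lit 0, nat_lit 0, nat_lit 0, nat_lit 0, nat_lit 0, nat_lit 0, nat_lit 0, nat_lit 0, nat_lit 0, false, false⟩,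
 nat_lit 0, nat_lit 0, nat_lit 24037, nat_lit 0, nat_lit 4672, nat_lit 10301, nat_lit 755, nat_lit 0, nat_lit 0, nat_lit 997, nat_lit 0, nat_lit 0, nat_lit 0, nat_lit 0, nat_lit 0, nat_lit 0, nat_lit 0, nat_lit 0, [],
 ⟨p080_k50, nat_lit 0, nat_lit 0, nat_lit 207, nat_lit 0, nat_lit 0, [nat_lit 2032000001, nat_lit 4688000000, nat_lit 9842000000], [], [nat_lit 29391418731, nat_lit 30963480800, nat_lit 32990284900, nat_lit 34340776353, nat_lit 26276151190, nat_lit 27077952790, nat_lit 28604427069, nat_lit 29784901050], nat_lit 0, nat_lit 0, nat_lit 0, nat_lit 0, nat_lit 0, nat_lit 0, [], [nat_lit 27, nat_lit 40, nat_lit 40, nat_lit 80, nat_lit 13, nat_lit 249, nat_lit 40, nat_lit 6]⟩, ⟨p080_k51, nat_lit 0, nat_lit 0, nat_lit 441, nat_lit 0, nat_lit 136821, [nat_lit 6250000000, nat_lit 9842000000, nat_lit 16400000000], [], [nat_lit 41671009349, nat_lit 42185727561, nat_lit 45335441689, nat_lit 45524667989, nat_lit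 33727750044, nat_lit 33571222666, nat_lit 35657383526, nat_lit 35308724675], nat_lit 1271250, nat_lit 1271250, nat_lit 1271250, nat_lit 1271250, nat_lit 0, nat_lit 2373000, [nat_lit 1412500, nat_lit 1271250, nat_lit 1271250], [nat_lit 118, nat_lit 40, nat_lit 40, nat_lit 80, nat_lit 73, nat_lit 483, nat_lit 250, nat_lit 10]⟩,
 zbF0, [⟨nat_lit 10, nat_lit 73, nat_lit 69, nat_lit 100, nat_lit 54119342⟩]⟩
noncomputable def p080_l152 : Lf2 := ⟨nat_lit 1, nat_lit 23, [nat_lit 114, nat_lit 5, nat_lit 5, nat_lit 20], false, nat_lit 160, nat_lit 300, nat_lit 0, nat_lit 384, zbN0,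
 nat_lit 0, nat_lit 0, nat_lit 0, nat_lit 0, nat_lit 0, nat_lit 0, nat_lit 0, nat_lit 0, nat_lit 0, nat_lit 0, nat_lit 0, nat_lit 0, nat_lit 0, nat_lit 0, nat_lit 0, nat_lit 0, nat_lit 0, nat_lit 0, [],
 C1.Rw.none, C1.Rw.none,
 zbF0, []⟩
noncomputable def p080_l153 : Lf2 := ⟨nat_lit 0, nat_lit 23, [nat_lit 114, nat_lit 5, nat_lit 5, nat_lit 20], false, nat_lit 160, nat_lit 300, nat_lit 0, nat_lit 376, ⟨nat_lit 532, nat_lit 468, nat_lit 0, nat_lit 6, nat_lit 265, nat_lit 468, nat_lit 176, nat_lit 0, nat_lit 0, nat_lit 0, nat_lit 0, nat_lit 0, nat_lit 39164339, nat_lit 18331936, nat_lit 9503725, nat_lit 5089300, true, true⟩,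
 nat_lit 0, nat_lit 0, nat_lit 8041, nat_lit 10448, nat_lit 6067, nat_lit 3845, nat_lit 0, nat_lit 0, nat_lit 0, nat_lit 266, nat_lit 0, nat_lit 0, nat_lit 0, nat_lit 0, nat_lit 0, nat_lit 117000, nat_lit 0, nat_lit 0, [(nat_lit 20, [(nat_lit 0, nat_lit 468)]), (nat_lit 23, [(nat_lit 0, nat_lit 468)])],
 ⟨p080_k43, nat_lit 0, nat_lit 0, nat_lit 70, nat_lit 0, nat_lit 0, [nat_lit 1818592001, nat_lit 4516340800, nat_lit 6760500800], [], [nat_lit 21586661452, nat_lit 24638549196, nat_lit 25734697340, nat_lit 28228841920, nat_lit 26293454493, nat_lit 28556212197, nat_lit 29426174978, nat_lit 31748281019], nat_lit 0, nat_lit 0, nat_lit 0, nat_lit 0, nat_lit 0, nat_lit 0, [], [nat_lit 61, nat_lit 40, nat_lit 40, nat_lit 80, nat_lit 1, nat_lit 401, nat_lit 175, nat_lit 10]⟩, ⟨p080_k47, nat_lit 0, nat_lit 0, nat_lit 370, nat_lit 0, nat_lit 115308, [nat_lit 3325000000, nat_lit 6315904000, nat_lit 7478856000], [], [nat_lit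 19125217366, nat_lit 19401179858, nat_lit 20926893454, nat_lit 21124220874, nat_lit 19526858708, nat_lit 19607489005, nat_lit 20473019675, nat_lit 20512660186], nat_lit 1271250, nat_lit 1271250, nat_lit 1271250, nat_lit 1271250, nat_lit 0, nat_lit 2655500, [nat_lit 1412500, nat_lit 1271250, nat_lit 1271250], [nat_lit 137, nat_lit 40, nat_lit 40, nat_lit 80, nat_lit 58, nat_lit 483, nat_lit 250, nat_lit 11]⟩,
 ⟨nat_lit 3162, nat_lit 4473, ⟨.ofNat (nat_lit 589518), .ofNat (nat_lit 725499), .ofNat (nat_lit 611007), .ofNat (nat_lit 747055), .ofNat (nat_lit 583082), .ofNat (nat_lit 705013), .ofNat (nat_lit 605159), .ofNat (nat_lit 727157)⟩, ⟨.ofNat (nat_lit 302621), .ofNat (nat_lit 540545), .ofNat (nat_lit 345754), .ofNat (nat_lit 583678), .ofNat (nat_lit 306116), .ofNat (nat_lit 519453), .ofNat (nat_lit 350426), .ofNat (nat_lit 563762)⟩⟩, [⟨nat_lit 16, nat_lit 74, nat_lit 100, nat_lit 90, nat_lit 360423440⟩, ⟨nat_lit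 7, nat_lit 63, nat_lit 100, nat_lit 88, nat_lit 111099985⟩]⟩
noncomputable def p080_l154 : Lf2 := ⟨nat_lit 1, nat_lit 23, [nat_lit 114, nat_lit 5, nat_lit 5, nat_lit 20], false, nat_lit 160, nat_lit 300, nat_lit 16, nat_lit 384, zbN0,
 nat_lit 0, nat_lit 0, nat_lit 0, nat_lit 0, nat_lit 0, nat_lit 0, nat_lit 0, nat_lit 0, nat_lit 0, nat_lit 0, nat_lit 0, nat_lit 0, nat_lit 0, nat_lit 0, nat_lit 0, nat_lit 0, nat_lit 0, nat_lit 0, [],
 C1.Rw.none, C1.Rw.none,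
 zbF0, []⟩
noncomputable def p080_l155 : Lf2 := ⟨nat_lit 0, nat_lit 23, [nat_lit 114, nat_lit 5, nat_lit 5, nat_lit 20], false, nat_lit 160, nat_lit 300, nat_lit 16, nat_lit 376, ⟨nat_lit 1000, nat_lit 0, nat_lit 0, nat_lit 0, nat_lit 0, nat_lit 0, nat_lit 0, nat_lit 0, nat_lit 0, nat_lit 0, nat_lit 0, nat_lit 0, nat_lit 0, nat_lit 0, nat_lit 0, nat_lit 0, false, false⟩,
 nat_lit 0, nat_lit 0, nat_lit 22180, nat_lit 86, nat_lit 6710, nat_lit 10607, nat_lit 0, nat_lit 0, nat_lit 0, nat_lit 453, nat_lit 0, nat_lit 0, nat_lit 0, nat_lit 0, nat_lit 0, nat_lit 0, nat_lit 0, nat_lit 0, [],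
 ⟨p080_k43, nat_lit 0, nat_lit 0, nat_lit 94, nat_lit 0, nat_lit 0, [nat_lit 2032000001, nat_lit 6250000000, nat_lit 9842000000], [], [nat_lit 27073310200, nat_lit 29707461600, nat_lit 31428705648, nat_lit 33573054473, nat_lit 30599574430, nat_lit 32543051310, nat_lit 33976426457, nat_lit 35946630867], nat_lit 0, nat_lit 0, nat_lit 0, nat_lit 0, nat_lit 0, nat_lit 0, [], [nat_lit 61, nat_lit 40, nat_lit 40, nat_lit 80, nat_lit 1, nat_lit 289, nat_lit 75, nat_lit 7]⟩, ⟨p080_k47, nat_lit 0, nat_lit 0, nat_lit 366, nat_lit 0, nat_lit 115308, [nat_lit 6250000000, nat_lit 11872000000, nat_lit 14058000000], [], [nat_lit 44358251910, nat_lit 44411771554, nat_lit 47558760579, nat_lit 47458015975, nat_lit 37872690693, nat_lit 37768645236, nat_lit 40468867127, nat_lit 40251996570], nat_lit 1271250, nat_lit 1271250, nat_lit 1271250, nat_lit 1271250, nat_lit 88400, nat_lit 2684900, [nat_lit 1412500, nat_lit 1271250, nat_lit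 1271250], [nat_lit 137, nat_lit 40, nat_lit 40, nat_lit 80, nat_lit 58, nat_lit 483, nat_lit 250, nat_lit 11]⟩,
 zbF0, [⟨nat_lit 13, nat_lit 60, nat_lit 74, nat_lit 100, nat_lit 126078304⟩, ⟨nat_lit 4, nat_lit 100, nat_lit 74, nat_lit 90, nat_lit 481823251⟩, ⟨nat_lit 7, nat_lit 63, nat_lit 100, nat_lit 88, nat_lit 116989415⟩]⟩
noncomputable def p080_l156 : Lf2 := ⟨nat_lit 1, nat_lit 23, [nat_lit 114, nat_lit 5, nat_lit 5, nat_lit 20], false, nat_lit 0, nat_lit 300, nat_lit 0, nat_lit 384, zbN0,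
 nat_lit 0, nat_lit 0, nat_lit 0, nat_lit 0, nat_lit 0, nat_lit 0, nat_lit 0, nat_lit 0, nat_lit 0, nat_lit 0, nat_lit 0, nat_lit 0, nat_lit 0, nat_lit 0, nat_lit 0, nat_lit 0, nat_lit 0, nat_lit 0, [],
 C1.Rw.none, C1.Rw.none,
 zbF0, []⟩
noncomputable def p080_l157 : Lf2 := ⟨nat_lit 0, nat_lit 23, [nat_lit 114, nat_lit 5, nat_lit 5, nat_lit 20], true, nat_lit 0, nat_lit 276, nat_lit 0, nat_lit 384, ⟨nat_lit 0, nat_lit 1000, nat_lit 0, nat_lit 5, nat_lit 216, nat_lit 1000, nat_lit 102, nat_lit 0, nat_lit 0, nat_lit 0, nat_lit 0, nat_lit 0, nat_lit 0, nat_lit 0, nat_lit 0, nat_lit 5000000, false, true⟩,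
 nat_lit 0, nat_lit 0, nat_lit 0, nat_lit 8853, nat_lit 3816, nat_lit 0, nat_lit 0, nat_lit 0, nat_lit 0, nat_lit 0, nat_lit 0, nat_lit 0, nat_lit 0, nat_lit 0, nat_lit 0, nat_lit 427000, nat_lit 0, nat_lit 0, [(nat_lit 23, [(nat_lit 1, nat_lit 955), (nat_lit 2, nat_lit 45)])],
 ⟨p080_k45, nat_lit 0, nat_lit 0, nat_lit 286, nat_lit 0, nat_lit 0, [nat_lit 1822328001, nat_lit 1003536571], [], [nat_lit 26416224166, nat_lit 27475980266, nat_lit 31389017978, nat_lit 32020186216, nat_lit 27308165760, nat_lit 28020009701, nat_lit 30499099541, nat_lit 31013693249], nat_lit 0, nat_lit 0, nat_lit 0, nat_lit 0, nat_lit 0, nat_lit 0, [], [nat_lit 94, nat_lit 40, nat_lit 40, nat_lit 80, nat_lit 95, nat_lit 401, nat_lit 175, nat_lit 12]⟩, C1.Rw.none,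
 ⟨nat_lit 3162, nat_lit 3873, ⟨.ofNat (nat_lit 267606), .ofNat (nat_lit 770989), .ofNat (nat_lit 311135), .ofNat (nat_lit 814576), .ofNat (nat_lit 280451), .ofNat (nat_lit 756003), .ofNat (nat_lit 324704), .ofNat (nat_lit 800312)⟩, ⟨.ofNat (nat_lit 0), .ofNat (nat_lit 491830), .ofNat (nat_lit 0), .ofNat (nat_lit 535416), .ofNat (nat_lit 0), .ofNat (nat_lit 482881), .ofNat (nat_lit 0), .ofNat (nat_lit 527190)⟩⟩, [⟨nat_lit 13, nat_lit 66, nat_lit 68, nat_lit 100, nat_lit 149561798⟩, ⟨nat_lit 4, nat_lit 100, nat_lit 67, nat_lit 88, nat_lit 61757626⟩]⟩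
noncomputable def p080_l158 : Lf2 := ⟨nat_lit 1, nat_lit 23, [nat_lit 114, nat_lit 5, nat_lit 5, nat_lit 20], false, nat_lit 0, nat_lit 300, nat_lit 0, nat_lit 384, zbN0,
 nat_lit 0, nat_lit 0, nat_lit 0, nat_lit 0, nat_lit 0, nat_lit 0, nat_lit 0, nat_lit 0, nat_lit 0, nat_lit 0, nat_lit 0, nat_lit 0, nat_lit 0, nat_lit 0, nat_lit 0, nat_lit 0, nat_lit 0, nat_lit 0, [],
 C1.Rw.none, C1.Rw.none,
 zbF0, []⟩
noncomputable def p080_l159 : Lf2 := ⟨nat_lit 0, nat_lit 23, [nat_lit 114, nat_lit 5, nat_lit 5, nat_lit 20], true, nat_lit 0, nat_lit 276, nat_lit 0, nat_lit 384, ⟨nat_lit 0, nat_lit 1000, nat_lit 0, nat_lit 5, nat_lit 216, nat_lit 1000, nat_lit 102, nat_lit 0, nat_lit 0, nat_lit 0, nat_lit 0, nat_lit 0, nat_lit 0, nat_lit 0, nat_lit 0, nat_lit 5000000, false, true⟩,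
 nat_lit 0, nat_lit 0, nat_lit 0, nat_lit 8853, nat_lit 3816, nat_lit 0, nat_lit 0, nat_lit 0, nat_lit 0, nat_lit 0, nat_lit 0, nat_lit 0, nat_lit 0, nat_lit 0, nat_lit 0, nat_lit 427000, nat_lit 0, nat_lit 0, [(nat_lit 23, [(nat_lit 1, nat_lit 955), (nat_lit 2, nat_lit 45)])],
 ⟨p080_k45, nat_lit 0, nat_lit 0, nat_lit 286, nat_lit 0, nat_lit 0, [nat_lit 1822328001, nat_lit 1003536571], [], [nat_lit 26416224166, nat_lit 27475980266, nat_lit 31389017978, nat_lit 32020186216, nat_lit 27308165760, nat_lit 28020009701, nat_lit 30499099541, nat_lit 31013693249], nat_lit 0, nat_lit 0, nat_lit 0, nat_lit 0, nat_lit 0, nat_lit 0, [], [nat_lit 94, nat_lit 40, nat_lit 40, nat_lit 80, nat_lit 95, nat_lit 401, nat_lit 175, nat_lit 12]⟩, C1.Rw.none,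
 ⟨nat_lit 3162, nat_lit 3873, ⟨.ofNat (nat_lit 267606), .ofNat (nat_lit 770989), .ofNat (nat_lit 311135), .ofNat (nat_lit 814576), .ofNat (nat_lit 280451), .ofNat (nat_lit 756003), .ofNat (nat_lit 324704), .ofNat (nat_lit 800312)⟩, ⟨.ofNat (nat_lit 0), .ofNat (nat_lit 491830), .ofNat (nat_lit 0), .ofNat (nat_lit 535416), .ofNat (nat_lit 0), .ofNat (nat_lit 482881), .ofNat (nat_lit 0), .ofNat (nat_lit 527190)⟩⟩, [⟨nat_lit 13, nat_lit 66, nat_lit 68, nat_lit 100, nat_lit 149561798⟩, ⟨nat_lit 4, nat_lit 100, nat_lit 67, nat_lit 88, nat_lit 61757626⟩]⟩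
noncomputable def b_V_800_500_20_21 : St := ⟨true, nat_lit 0, nat_lit 2, nat_lit 0, nat_lit 120, nat_lit 320, nat_lit 360, nat_lit 200, nat_lit 240, nat_lit 40, nat_lit 384, nat_lit 80, nat_lit 120, nat_lit 0, nat_lit 300, nat_lit 0, nat_lit 384, nat_lit 80, nat_lit 92, nat_lit 0, nat_lit 0, nat_lit 0, nat_lit 0⟩
theorem d_V_800_500_20_21 (h : EB TB.env) : Dead b_V_800_500_20_21 := chkB_sound0 h (T :=
(.gv
(.st (nat_lit 1)
(.spl (nat_lit 2) (nat_lit 240)
(.spl (nat_lit 4) (nat_lit 160)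
(.spl (nat_lit 2) (nat_lit 160)
(.leaf p080_l132)
(.leaf p080_l133))
(.spl (nat_lit 0) (nat_lit 340)
(.leaf p080_l134)
(.trZ (nat_lit 0) (nat_lit 100) (nat_lit 71) (nat_lit 70) (nat_lit 56) (.trX (nat_lit 16) (nat_lit 77) (nat_lit 100) (nat_lit 99) (nat_lit 276) (.leaf p080_l135)))))
(.spl (nat_lit 4) (nat_lit 160)
(.spl (nat_lit 1) (nat_lit 220)
(.trX (nat_lit 13) (nat_lit 80) (nat_lit 52) (nat_lit 100) (nat_lit 372) (.leaf p080_l136))
(.trX (nat_lit 19) (nat_lit 100) (nat_lit 49) (nat_lit 92) (nat_lit 376) (.spl (nat_lit 0) (nat_lit 340)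
(.leaf p080_l137)
(.trX (nat_lit 13) (nat_lit 73) (nat_lit 55) (nat_lit 100) (nat_lit 368) (.leaf p080_l138)))))
(.spl (nat_lit 0) (nat_lit 340)
(.leaf p080_l139)
(.trX (nat_lit 13) (nat_lit 73) (nat_lit 55) (nat_lit 100) (nat_lit 368) (.trX (nat_lit 16) (nat_lit 77) (nat_lit 100) (nat_lit 99) (nat_lit 276) (.leaf p080_l140))))))
(.spl (nat_lit 2) (nat_lit 240)
(.spl (nat_lit 4) (nat_lit 160)
(.spl (nat_lit 4) (nat_lit 80)
(.spl (nat_lit 0) (nat_lit 340)
(.leaf p080_l141)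
(.trZ (nat_lit 0) (nat_lit 100) (nat_lit 71) (nat_lit 70) (nat_lit 56) (.leaf p080_l142)))
(.leaf p080_l143))
(.spl (nat_lit 0) (nat_lit 340)
(.leaf p080_l144)
(.trZ (nat_lit 0) (nat_lit 100) (nat_lit 71) (nat_lit 70) (nat_lit 56) (.trX (nat_lit 16) (nat_lit 77) (nat_lit 100) (nat_lit 99) (nat_lit 276) (.leaf p080_l145)))))
(.spl (nat_lit 4) (nat_lit 160)
(.spl (nat_lit 2) (nat_lit 320)
(.spl (nat_lit 1) (nat_lit 220)
(.leaf p080_l146)
(.trX (nat_lit 19) (nat_lit 100) (nat_lit 49) (nat_lit 92) (nat_lit 376) (.spl (nat_lit 4) (nat_lit 80)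
(.trX (nat_lit 22) (nat_lit 100) (nat_lit 76) (nat_lit 82) (nat_lit 336) (.leaf p080_l147))
(.spl (nat_lit 0) (nat_lit 340)
(.leaf p080_l148)
(.leaf p080_l149)))))
(.trX (nat_lit 22) (nat_lit 82) (nat_lit 76) (nat_lit 100) (nat_lit 336) (.spl (nat_lit 0) (nat_lit 340)
(.leaf p080_l150)
(.trX (nat_lit 13) (nat_lit 73) (nat_lit 55) (nat_lit 100) (nat_lit 368) (.leaf p080_l151)))))
(.spl (nat_lit 2) (nat_lit 320)
(.spl (nat_lit 1) (nat_lit 220)
(.leaf p080_l152)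
(.trX (nat_lit 19) (nat_lit 100) (nat_lit 49) (nat_lit 92) (nat_lit 376) (.leaf p080_l153)))
(.trZ (nat_lit 9) (nat_lit 100) (nat_lit 82) (nat_lit 44) (nat_lit 16) (.spl (nat_lit 1) (nat_lit 220)
(.trX (nat_lit 13) (nat_lit 80) (nat_lit 52) (nat_lit 100) (nat_lit 372) (.leaf p080_l154))
(.trX (nat_lit 19) (nat_lit 100) (nat_lit 49) (nat_lit 92) (nat_lit 376) (.leaf p080_l155))))))))
(.st (nat_lit 1)
(.spl (nat_lit 0) (nat_lit 340)
(.leaf p080_l156)
(.trZ (nat_lit 0) (nat_lit 100) (nat_lit 71) (nat_lit 70) (nat_lit 56) (.trX (nat_lit 13) (nat_lit 73) (nat_lit 55) (nat_lit 100) (nat_lit 368) (.trX (nat_lit 16) (nat_lit 77) (nat_lit 100) (nat_lit 99) (nat_lit 276) (.leaf p080_l157)))))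
(.spl (nat_lit 0) (nat_lit 340)
(.leaf p080_l158)
(.trZ (nat_lit 0) (nat_lit 100) (nat_lit 71) (nat_lit 70) (nat_lit 56) (.trX (nat_lit 13) (nat_lit 73) (nat_lit 55) (nat_lit 100) (nat_lit 368) (.trX (nat_lit 16) (nat_lit 77) (nat_lit 100) (nat_lit 99) (nat_lit 276) (.leaf p080_l159)))))))) (by decide +kernel)

end B2
end Pool.Agent.Lib.MP_6947cd_al
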