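import Pool.Agent.Lib.MP_6947cd_al.ZB.Pre

/-!
Problem MP_6947cd_al (Chollet).  Case B, second entry in [2/5, 17/20]: certificates of the tree, part P081 (generated).
-/

set_option autoImplicit false
set_option linter.all false

namespace Pool.Agent.Lib.MP_6947cd_al
namespace B2

open Ent Fr B1 PkA

noncomputable def p081_k0 : C1.Kn := ⟨[nat_lit 40, nat_lit 100, nat_lit 120], [nat_lit 0, nat_lit 1790, nat_lit 3212], [(nat_lit 0, nat_lit 0, nat_lit 0), (nat_lit 1000, nat_lit 720, nat_lit 465), (nat_lit 1000, nat_lit 674, nat_lit 878)], (nat_lit 67, nat_lit 100, nat_lit 85)⟩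
noncomputable def p081_k1 : C1.Kn := ⟨[nat_lit 100, nat_lit 160, nat_lit 200], [nat_lit 0, nat_lit 0, nat_lit 4782], [(nat_lit 0, nat_lit 0, nat_lit 0), (nat_lit 0, nat_lit 0, nat_lit 0), (nat_lit 475, nat_lit 1000, nat_lit 880)], (nat_lit 0, nat_lit 0, nat_lit 0)⟩
noncomputable def p081_k2 : C1.Kn := ⟨[nat_lit 40, nat_lit 100, nat_lit 140], [nat_lit 0, nat_lit 1192, nat_lit 4003], [(nat_lit 0, nat_lit 0, nat_lit 0), (nat_lit 1000, nat_lit 814, nat_lit 310), (nat_lit 992, nat_lit 771, nat_lit 1000)], (nat_lit 73, nat_lit 100, nat_lit 86)⟩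
noncomputable def p081_k3 : C1.Kn := ⟨[nat_lit 40, nat_lit 100, nat_lit 140], [nat_lit 0, nat_lit 0, nat_lit 3243], [(nat_lit 0, nat_lit 0, nat_lit 0), (nat_lit 0, nat_lit 0, nat_lit 0), (nat_lit 1000, nat_lit 870, nat_lit 941)], (nat_lit 85, nat_lit 100, nat_lit 90)⟩
noncomputable def p081_k4 : C1.Kn := ⟨[nat_lit 100, nat_lit 160, nat_lit 180], [nat_lit 0, nat_lit 761, nat_lit 3091], [(nat_lit 0, nat_lit 0, nat_lit 0), (nat_lit 1000, nat_lit 1000, nat_lit 198), (nat_lit 608, nat_lit 1000, nat_lit 857)], (nat_lit 100, nat_lit 62, nat_lit 85)⟩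
noncomputable def p081_k5 : C1.Kn := ⟨[nat_lit 40, nat_lit 100, nat_lit 120], [nat_lit 0, nat_lit 2098, nat_lit 3429], [(nat_lit 0, nat_lit 0, nat_lit 0), (nat_lit 1000, nat_lit 672, nat_lit 546), (nat_lit 1000, nat_lit 644, nat_lit 899)], (nat_lit 64, nat_lit 100, nat_lit 85)⟩
noncomputable def p081_k6 : C1.Kn := ⟨[nat_lit 40, nat_lit 140], [nat_lit 0, nat_lit 0], [(nat_lit 0, nat_lit 0, nat_lit 0), (nat_lit 0, nat_lit 0, nat_lit 0)], (nat_lit 85, nat_lit 100, nat_lit 90)⟩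
noncomputable def p081_k7 : C1.Kn := ⟨[nat_lit 40, nat_lit 100], [nat_lit 0, nat_lit 0], [(nat_lit 0, nat_lit 0, nat_lit 0), (nat_lit 0, nat_lit 0, nat_lit 0)], (nat_lit 80, nat_lit 100, nat_lit 60)⟩
noncomputable def p081_k8 : C1.Kn := ⟨[nat_lit 80, nat_lit 140, nat_lit 160], [nat_lit 0, nat_lit 0, nat_lit 2151], [(nat_lit 0, nat_lit 0, nat_lit 0), (nat_lit 0, nat_lit 0, nat_lit 0), (nat_lit 823, nat_lit 1000, nat_lit 757)], (nat_lit 100, nat_lit 92, nat_lit 61)⟩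
noncomputable def p081_k9 : C1.Kn := ⟨[nat_lit 80, nat_lit 160], [nat_lit 0, nat_lit 0], [(nat_lit 0, nat_lit 0, nat_lit 0), (nat_lit 0, nat_lit 0, nat_lit 0)], (nat_lit 100, nat_lit 92, nat_lit 61)⟩
noncomputable def p081_k10 : C1.Kn := ⟨[nat_lit 40, nat_lit 80, nat_lit 100], [nat_lit 0, nat_lit 0, nat_lit 1280], [(nat_lit 0, nat_lit 0, nat_lit 0), (nat_lit 0, nat_lit 0, nat_lit 0), (nat_lit 1000, nat_lit 800, nat_lit 600)], (nat_lit 80, nat_lit 100, nat_lit 60)⟩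
noncomputable def p081_k11 : C1.Kn := ⟨[nat_lit 40, nat_lit 100], [nat_lit 0, nat_lit 1192], [(nat_lit 0, nat_lit 0, nat_lit 0), (nat_lit 1000, nat_lit 814, nat_lit 310)], (nat_lit 72, nat_lit 100, nat_lit 61)⟩
noncomputable def p081_k12 : C1.Kn := ⟨[nat_lit 80, nat_lit 140], [nat_lit 0, nat_lit 792], [(nat_lit 0, nat_lit 0, nat_lit 0), (nat_lit 1000, nat_lit 959, nat_lit 206)], (nat_lit 100, nat_lit 99, nat_lit 63)⟩
noncomputable def p081_k13 : C1.Kn := ⟨[nat_lit 80, nat_lit 120, nat_lit 160], [nat_lit 0, nat_lit 0, nat_lit 2132], [(nat_lit 0, nat_lit 0, nat_lit 0), (nat_lit 0, nat_lit 0, nat_lit 0), (nat_lit 858, nat_lit 1000, nat_lit 713)], (nat_lit 100, nat_lit 92, nat_lit 61)⟩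
noncomputable def p081_k14 : C1.Kn := ⟨[nat_lit 80, nat_lit 120, nat_lit 140], [nat_lit 0, nat_lit 264, nat_lit 1360], [(nat_lit 0, nat_lit 0, nat_lit 0), (nat_lit 1000, nat_lit 979, nat_lit 103), (nat_lit 951, nat_lit 1000, nat_lit 628)], (nat_lit 100, nat_lit 95, nat_lit 62)⟩
noncomputable def p081_k15 : C1.Kn := ⟨[nat_lit 80, nat_lit 120, nat_lit 140], [nat_lit 0, nat_lit 395, nat_lit 1464], [(nat_lit 0, nat_lit 0, nat_lit 0), (nat_lit 1000, nat_lit 969, nat_lit 154), (nat_lit 957, nat_lit 1000, nat_lit 654)], (nat_lit 100, nat_lit 97, nat_lit 62)⟩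
noncomputable def p081_k16 : C1.Kn := ⟨[nat_lit 40, nat_lit 80, nat_lit 100], [nat_lit 0, nat_lit 795, nat_lit 1829], [(nat_lit 0, nat_lit 0, nat_lit 0), (nat_lit 1000, nat_lit 814, nat_lit 310), (nat_lit 1000, nat_lit 714, nat_lit 692)], (nat_lit 72, nat_lit 100, nat_lit 61)⟩
noncomputable def p081_k17 : C1.Kn := ⟨[nat_lit 40, nat_lit 80, nat_lit 100], [nat_lit 0, nat_lit 994, nat_lit 1992], [(nat_lit 0, nat_lit 0, nat_lit 0), (nat_lit 1000, nat_lit 767, nat_lit 387), (nat_lit 1000, nat_lit 689, nat_lit 725)], (nat_lit 70, nat_lit 100, nat_lit 61)⟩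
noncomputable def p081_k18 : C1.Kn := ⟨[nat_lit 40, nat_lit 80], [nat_lit 0, nat_lit 1195], [(nat_lit 0, nat_lit 0, nat_lit 0), (nat_lit 1000, nat_lit 720, nat_lit 465)], (nat_lit 68, nat_lit 100, nat_lit 61)⟩
noncomputable def p081_k19 : C1.Kn := ⟨[nat_lit 80, nat_lit 120, nat_lit 140], [nat_lit 0, nat_lit 528, nat_lit 1572], [(nat_lit 0, nat_lit 0, nat_lit 0), (nat_lit 1000, nat_lit 959, nat_lit 206), (nat_lit 966, nat_lit 1000, nat_lit 679)], (nat_lit 100, nat_lit 99, nat_lit 63)⟩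
noncomputable def p081_k20 : C1.Kn := ⟨[nat_lit 40, nat_lit 80, nat_lit 100], [nat_lit 0, nat_lit 395, nat_lit 1536], [(nat_lit 0, nat_lit 0, nat_lit 0), (nat_lit 1000, nat_lit 908, nat_lit 154), (nat_lit 1000, nat_lit 760, nat_lit 642)], (nat_lit 76, nat_lit 100, nat_lit 60)⟩
noncomputable def p081_k21 : C1.Kn := ⟨[nat_lit 80, nat_lit 120, nat_lit 140], [nat_lit 0, nat_lit 796, nat_lit 1801], [(nat_lit 0, nat_lit 0, nat_lit 0), (nat_lit 1000, nat_lit 938, nat_lit 310), (nat_lit 982, nat_lit 1000, nat_lit 736)], (nat_lit 98, nat_lit 100, nat_lit 63)⟩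
noncomputable def p081_k22 : C1.Kn := ⟨[nat_lit 40, nat_lit 80, nat_lit 100], [nat_lit 0, nat_lit 192, nat_lit 1404], [(nat_lit 0, nat_lit 0, nat_lit 0), (nat_lit 1000, nat_lit 955, nat_lit 75), (nat_lit 1000, nat_lit 781, nat_lit 625)], (nat_lit 78, nat_lit 100, nat_lit 60)⟩
noncomputable def p081_k23 : C1.Kn := ⟨[nat_lit 40, nat_lit 80, nat_lit 100], [nat_lit 0, nat_lit 0, nat_lit 1280], [(nat_lit 0, nat_lit 0, nat_lit 0), (nat_lit 0, nat_lit 0, nat_lit 0), (nat_lit 1000, nat_lit 800, nat_lit 600)], (nat_lit 82, nat_lit 100, nat_lit 44)⟩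
noncomputable def p081_k24 : C1.Kn := ⟨[nat_lit 80, nat_lit 120], [nat_lit 0, nat_lit 528], [(nat_lit 0, nat_lit 0, nat_lit 0), (nat_lit 1000, nat_lit 959, nat_lit 206)], (nat_lit 96, nat_lit 100, nat_lit 44)⟩
noncomputable def p081_k25 : C1.Kn := ⟨[nat_lit 40, nat_lit 80, nat_lit 100], [nat_lit 0, nat_lit 112, nat_lit 1353], [(nat_lit 0, nat_lit 0, nat_lit 0), (nat_lit 1000, nat_lit 974, nat_lit 44), (nat_lit 1000, nat_lit 789, nat_lit 608)], (nat_lit 79, nat_lit 100, nat_lit 60)⟩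
noncomputable def p081_l0 : Lf2 := ⟨nat_lit 1, nat_lit 23, [nat_lit 114, nat_lit 5, nat_lit 5, nat_lit 20], false, nat_lit 0, nat_lit 160, nat_lit 0, nat_lit 384, zbN0,
 nat_lit 0, nat_lit 0, nat_lit 0, nat_lit 0, nat_lit 0, nat_lit 0, nat_lit 0, nat_lit 0, nat_lit 0, nat_lit 0, nat_lit 0, nat_lit 0, nat_lit 0, nat_lit 0, nat_lit 0, nat_lit 0, nat_lit 0, nat_lit 0, [],
 C1.Rw.none, C1.Rw.none,
 zbF0, []⟩
noncomputable def p081_l1 : Lf2 := ⟨nat_lit 1, nat_lit 23, [nat_lit 114, nat_lit 5, nat_lit 5, nat_lit 20], false, nat_lit 0, nat_lit 160, nat_lit 0, nat_lit 384, zbN0,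
 nat_lit 0, nat_lit 0, nat_lit 0, nat_lit 0, nat_lit 0, nat_lit 0, nat_lit 0, nat_lit 0, nat_lit 0, nat_lit 0, nat_lit 0, nat_lit 0, nat_lit 0, nat_lit 0, nat_lit 0, nat_lit 0, nat_lit 0, nat_lit 0, [],
 C1.Rw.none, C1.Rw.none,
 zbF0, []⟩
noncomputable def p081_l2 : Lf2 := ⟨nat_lit 0, nat_lit 23, [nat_lit 114, nat_lit 5, nat_lit 5, nat_lit 20], false, nat_lit 4, nat_lit 160, nat_lit 0, nat_lit 384, ⟨nat_lit 102, nat_lit 0, nat_lit 898, nat_lit 5, nat_lit 179, nat_lit 898, nat_lit 68, nat_lit 898, nat_lit 43350, nat_lit 266, nat_lit 2736, nat_lit 210, nat_lit 53242751, nat_lit 0, nat_lit 0, nat_lit 3177501, false, false⟩,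
 nat_lit 0, nat_lit 2879, nat_lit 0, nat_lit 6495, nat_lit 2418, nat_lit 1414, nat_lit 0, nat_lit 0, nat_lit 0, nat_lit 67, nat_lit 0, nat_lit 0, nat_lit 0, nat_lit 0, nat_lit 101, nat_lit 359200, nat_lit 0, nat_lit 0, [(nat_lit 23, [(nat_lit 5, nat_lit 898)])],
 ⟨p081_k0, nat_lit 0, nat_lit 0, nat_lit 217, nat_lit 0, nat_lit 43387, [nat_lit 1897459201, nat_lit 782655601, nat_lit 21536800], [], [nat_lit 18150495838, nat_lit 18757503575, nat_lit 21651221953, nat_lit 22249605485, nat_lit 18843121333, nat_lit 19384141912, nat_lit 22368558083, nat_lit 22882946603], nat_lit 1271250, nat_lit 1271250, nat_lit 382400, nat_lit 1731000, nat_lit 21650, nat_lit 1100001, [nat_lit 490000, nat_lit 1427500, nat_lit 1271250], [nat_lit 102, nat_lit 40, nat_lit 40, nat_lit 80, nat_lit 2, nat_lit 317, nat_lit 100, nat_lit 10]⟩, ⟨p081_k1, nat_lit 0, nat_lit 0, nat_lit 482, nat_lit 0, nat_lit 0, [nat_lit 637500000, nat_lit 1210944000,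 nat_lit 1672800000], [], [nat_lit 5069820998, nat_lit 5112958679, nat_lit 4408899014, nat_lit 4406970582, nat_lit 4471548995, nat_lit 4458858769, nat_lit 3643176736, nat_lit 3598419024], nat_lit 0, nat_lit 0, nat_lit 0, nat_lit 0, nat_lit 0, nat_lit 0, [], [nat_lit 104, nat_lit 40, nat_lit 40, nat_lit 80, nat_lit 76, nat_lit 456, nat_lit 225, nat_lit 10]⟩,
 ⟨nat_lit 3162, nat_lit 3536, ⟨.ofNat (nat_lit 286575), .ofNat (nat_lit 562760), .ofNat (nat_lit 330464), .ofNat (nat_lit 606660), .ofNat (nat_lit 292723), .ofNat (nat_lit 560952), .ofNat (nat_lit 337016), .ofNat (nat_lit 605256)⟩, ⟨.ofNat (nat_lit 10000), .ofNat (nat_lit 305521), .ofNat (nat_lit 10000), .ofNat (nat_lit 349427), .ofNat (nat_lit 10000), .ofNat (nat_lit 306116), .ofNat (nat_lit 10000), .ofNat (nat_lit 350426)⟩⟩, [⟨nat_lit 3, nat_lit 100, nat_lit 73, nat_lit 41, nat_lit 19179666⟩, ⟨nat_lit 10, nat_lit 40, nat_lit 100, nat_lit 82, nat_lit 12162428⟩]⟩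
noncomputable def p081_l3 : Lf2 := ⟨nat_lit 1, nat_lit 23, [nat_lit 114, nat_lit 5, nat_lit 5, nat_lit 20], false, nat_lit 160, nat_lit 300, nat_lit 0, nat_lit 384, zbN0,
 nat_lit 0, nat_lit 0, nat_lit 0, nat_lit 0, nat_lit 0, nat_lit 0, nat_lit 0, nat_lit 0, nat_lit 0, nat_lit 0, nat_lit 0, nat_lit 0, nat_lit 0, nat_lit 0, nat_lit 0, nat_lit 0, nat_lit 0, nat_lit 0, [],
 C1.Rw.none, C1.Rw.none,
 zbF0, []⟩
noncomputable def p081_l4 : Lf2 := ⟨nat_lit 0, nat_lit 23, [nat_lit 114, nat_lit 5, nat_lit 5, nat_lit 20], true, nat_lit 160, nat_lit 276, nat_lit 0, nat_lit 384, ⟨nat_lit 0, nat_lit 0, nat_lit 1000, nat_lit 5, nat_lit 176, nat_lit 1000, nat_lit 167, nat_lit 999, nat_lit 13749, nat_lit 240, nat_lit 600, nat_lit 209, nat_lit 46683746, nat_lit 0, nat_lit 0, nat_lit 4422119, false, false⟩,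
 nat_lit 0, nat_lit 4367, nat_lit 0, nat_lit 7477, nat_lit 3535, nat_lit 0, nat_lit 0, nat_lit 0, nat_lit 0, nat_lit 0, nat_lit 0, nat_lit 0, nat_lit 0, nat_lit 0, nat_lit 95, nat_lit 250000, nat_lit 0, nat_lit 0, [(nat_lit 23, [(nat_lit 4, nat_lit 1000)])],
 ⟨p081_k2, nat_lit 0, nat_lit 0, nat_lit 165, nat_lit 0, nat_lit 45616, [nat_lit 2259200001, nat_lit 562000001, nat_lit 707600000], [], [nat_lit 19031929689, nat_lit 20309566048, nat_lit 21200123201, nat_lit 22145173100, nat_lit 22413592042, nat_lit 23883551649, nat_lit 24495446531, nat_lit 25653504433], nat_lit 1271250, nat_lit 1271250, nat_lit 330400, nat_lit 1726500, nat_lit 1100001, nat_lit 2093250, [nat_lit 490000, nat_lit 1427500, nat_lit 1271250], [nat_lit 61, nat_lit 40, nat_lit 40, nat_lit 80, nat_lit 1, nat_lit 373, nat_lit 150, nat_lit 10]⟩, C1.Rw.none,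
 ⟨nat_lit 3162, nat_lit 3873, ⟨.ofNat (nat_lit 267606), .ofNat (nat_lit 564520), .ofNat (nat_lit 311135), .ofNat (nat_lit 608082), .ofNat (nat_lit 280451), .ofNat (nat_lit 560952), .ofNat (nat_lit 324704), .ofNat (nat_lit 605237)⟩, ⟨.ofNat (nat_lit 304717), .ofNat (nat_lit 491830), .ofNat (nat_lit 348304), .ofNat (nat_lit 535416), .ofNat (nat_lit 306116), .ofNat (nat_lit 482881), .ofNat (nat_lit 350426), .ofNat (nat_lit 527190)⟩⟩, [⟨nat_lit 4, nat_lit 100, nat_lit 67, nat_lit 88, nat_lit 299609122⟩]⟩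
noncomputable def p081_l5 : Lf2 := ⟨nat_lit 1, nat_lit 23, [nat_lit 114, nat_lit 5, nat_lit 5, nat_lit 20], false, nat_lit 0, nat_lit 160, nat_lit 0, nat_lit 384, zbN0,
 nat_lit 0, nat_lit 0, nat_lit 0, nat_lit 0, nat_lit 0, nat_lit 0, nat_lit 0, nat_lit 0, nat_lit 0, nat_lit 0, nat_lit 0, nat_lit 0, nat_lit 0, nat_lit 0, nat_lit 0, nat_lit 0, nat_lit 0, nat_lit 0, [],
 C1.Rw.none, C1.Rw.none,
 zbF0, []⟩
noncomputable def p081_l6 : Lf2 := ⟨nat_lit 0, nat_lit 23, [nat_lit 114, nat_lit 5, nat_lit 5, nat_lit 20], false, nat_lit 0, nat_lit 160, nat_lit 0, nat_lit 376, ⟨nat_lit 634, nat_lit 0, nat_lit 366, nat_lit 6, nat_lit 265, nat_lit 366, nat_lit 65, nat_lit 366, nat_lit 40017, nat_lit 264, nat_lit 222860, nat_lit 200, nat_lit 46598041, nat_lit 0, nat_lit 0, nat_lit 3073172, true, true⟩,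
 nat_lit 0, nat_lit 7086, nat_lit 0, nat_lit 3283, nat_lit 5314, nat_lit 9792, nat_lit 45, nat_lit 0, nat_lit 0, nat_lit 122, nat_lit 0, nat_lit 0, nat_lit 0, nat_lit 0, nat_lit 0, nat_lit 366000, nat_lit 0, nat_lit 0, [(nat_lit 20, [(nat_lit 6, nat_lit 366)]), (nat_lit 23, [(nat_lit 6, nat_lit 366)])],
 ⟨p081_k3, nat_lit 0, nat_lit 0, nat_lit 220, nat_lit 0, nat_lit 50656, [nat_lit 1953310001, nat_lit 2744086000, nat_lit 2797378400], [], [nat_lit 26453977517, nat_lit 29253234685, nat_lit 30216696069, nat_lit 32511214525, nat_lit 23593198989, nat_lit 25486907237, nat_lit 26330009085, nat_lit 28302330253], nat_lit 1271250, nat_lit 1271250, nat_lit 1271250, nat_lit 1271250, nat_lit 0, nat_lit 1100001, [nat_lit 490000, nat_lit 1427500, nat_lit 1271250], [nat_lit 61, nat_lit 40, nat_lit 40, nat_lit 80, nat_lit 1, nat_lit 345, nat_lit 125, nat_lit 9]⟩, ⟨p081_k4, nat_lit 0, nat_lit 0, nat_lit 284, nat_lit 0, nat_lit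 0, [nat_lit 3962500000, nat_lit 7526848000, nat_lit 8912772000], [], [nat_lit 26939218110, nat_lit 27468471146, nat_lit 31142663742, nat_lit 31408073522, nat_lit 23444667929, nat_lit 23380573135, nat_lit 24985984900, nat_lit 25182686095], nat_lit 0, nat_lit 0, nat_lit 0, nat_lit 0, nat_lit 0, nat_lit 0, [], [nat_lit 137, nat_lit 40, nat_lit 40, nat_lit 80, nat_lit 58, nat_lit 483, nat_lit 250, nat_lit 11]⟩,
 ⟨nat_lit 3162, nat_lit 4473, ⟨.ofNat (nat_lit 589518), .ofNat (nat_lit 725499), .ofNat (nat_lit 611007), .ofNat (nat_lit 747055), .ofNat (nat_lit 583082), .ofNat (nat_lit 705013), .ofNat (nat_lit 605159), .ofNat (nat_lit 727157)⟩, ⟨.ofNat (nat_lit 0), .ofNat (nat_lit 302621), .ofNat (nat_lit 0), .ofNat (nat_lit 345754), .ofNat (nat_lit 0), .ofNat (nat_lit 306116), .ofNat (nat_lit 0), .ofNat (nat_lit 350426)⟩⟩, [⟨nat_lit 22, nat_lit 100, nat_lit 95, nat_lit 87, nat_lit 49947054⟩]⟩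
noncomputable def p081_l7 : Lf2 := ⟨nat_lit 0, nat_lit 23, [nat_lit 114, nat_lit 5, nat_lit 5, nat_lit 20], false, nat_lit 0, nat_lit 160, nat_lit 0, nat_lit 336, ⟨nat_lit 1000, nat_lit 0, nat_lit 0, nat_lit 0, nat_lit 0, nat_lit 0, nat_lit 0, nat_lit 0, nat_lit 0, nat_lit 0, nat_lit 0, nat_lit 0, nat_lit 0, nat_lit 0, nat_lit 0, nat_lit 0, false, false⟩,
 nat_lit 0, nat_lit 10248, nat_lit 0, nat_lit 7006, nat_lit 7686, nat_lit 9544, nat_lit 188, nat_lit 0, nat_lit 0, nat_lit 590, nat_lit 0, nat_lit 0, nat_lit 0, nat_lit 0, nat_lit 0, nat_lit 0, nat_lit 0, nat_lit 0, [],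
 ⟨p081_k3, nat_lit 0, nat_lit 0, nat_lit 235, nat_lit 0, nat_lit 50656, [nat_lit 2032000001, nat_lit 6250000000, nat_lit 9842000000], [], [nat_lit 37414852956, nat_lit 40202282500, nat_lit 42049409741, nat_lit 44276074971, nat_lit 31142647852, nat_lit 32986225764, nat_lit 34560001488, nat_lit 36465623619], nat_lit 1271250, nat_lit 1271250, nat_lit 1271250, nat_lit 1271250, nat_lit 0, nat_lit 1100001, [nat_lit 490000, nat_lit 1427500, nat_lit 1271250], [nat_lit 61, nat_lit 40, nat_lit 40, nat_lit 80, nat_lit 1, nat_lit 249, nat_lit 40, nat_lit 6]⟩, ⟨p081_k1, nat_lit 0, nat_lit 0, nat_lit 345, nat_lit 0, nat_lit 0, [nat_lit 6250000000, nat_lit 11872000000, nat_lit 16400000000], [], [nat_lit 43344420556, nat_lit 43890469484, nat_lit 48133731507, nat_lit 48270223244, nat_lit 36458861030, nat_lit 36602950874, nat_lit 39798351390, nat_lit 39787257251], nat_lit 0, nat_lit 0, nat_lit 0, nat_lit 0, nat_lit 0, nat_lit 0,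 [], [nat_lit 104, nat_lit 40, nat_lit 40, nat_lit 80, nat_lit 76, nat_lit 483, nat_lit 250, nat_lit 10]⟩,
 zbF0, [⟨nat_lit 13, nat_lit 60, nat_lit 80, nat_lit 100, nat_lit 82462715⟩, ⟨nat_lit 22, nat_lit 65, nat_lit 100, nat_lit 80, nat_lit 121557073⟩]⟩
noncomputable def p081_l8 : Lf2 := ⟨nat_lit 1, nat_lit 23, [nat_lit 114, nat_lit 5, nat_lit 5, nat_lit 20], false, nat_lit 160, nat_lit 300, nat_lit 0, nat_lit 384, zbN0,
 nat_lit 0, nat_lit 0, nat_lit 0, nat_lit 0, nat_lit 0, nat_lit 0, nat_lit 0, nat_lit 0, nat_lit 0, nat_lit 0, nat_lit 0, nat_lit 0, nat_lit 0, nat_lit 0, nat_lit 0, nat_lit 0, nat_lit 0, nat_lit 0, [],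
 C1.Rw.none, C1.Rw.none,
 zbF0, []⟩
noncomputable def p081_l9 : Lf2 := ⟨nat_lit 1, nat_lit 23, [nat_lit 114, nat_lit 5, nat_lit 5, nat_lit 20], false, nat_lit 160, nat_lit 276, nat_lit 0, nat_lit 384, zbN0,
 nat_lit 0, nat_lit 0, nat_lit 0, nat_lit 0, nat_lit 0, nat_lit 0, nat_lit 0, nat_lit 0, nat_lit 0, nat_lit 0, nat_lit 0, nat_lit 0, nat_lit 0, nat_lit 0, nat_lit 0, nat_lit 0, nat_lit 0, nat_lit 0, [],
 C1.Rw.none, C1.Rw.none,
 zbF0, []⟩
noncomputable def p081_l10 : Lf2 := ⟨nat_lit 1, nat_lit 23, [nat_lit 114, nat_lit 5, nat_lit 5, nat_lit 20], false, nat_lit 160, nat_lit 264, nat_lit 0, nat_lit 384, zbN0,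
 nat_lit 0, nat_lit 0, nat_lit 0, nat_lit 0, nat_lit 0, nat_lit 0, nat_lit 0, nat_lit 0, nat_lit 0, nat_lit 0, nat_lit 0, nat_lit 0, nat_lit 0, nat_lit 0, nat_lit 0, nat_lit 0, nat_lit 0, nat_lit 0, [],
 C1.Rw.none, C1.Rw.none,
 zbF0, []⟩
noncomputable def p081_l11 : Lf2 := ⟨nat_lit 0, nat_lit 23, [nat_lit 114, nat_lit 5, nat_lit 5, nat_lit 20], false, nat_lit 160, nat_lit 256, nat_lit 0, nat_lit 384, ⟨nat_lit 707, nat_lit 293, nat_lit 0, nat_lit 6, nat_lit 269, nat_lit 293, nat_lit 161, nat_lit 0, nat_lit 0, nat_lit 0, nat_lit 0, nat_lit 0, nat_lit 39653757, nat_lit 19001651, nat_lit 8344592, nat_lit 4979836, true, true⟩,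
 nat_lit 0, nat_lit 7248, nat_lit 0, nat_lit 13340, nat_lit 6200, nat_lit 8252, nat_lit 0, nat_lit 0, nat_lit 0, nat_lit 440, nat_lit 0, nat_lit 0, nat_lit 0, nat_lit 0, nat_lit 0, nat_lit 73250, nat_lit 0, nat_lit 0, [(nat_lit 23, [(nat_lit 0, nat_lit 293)])],
 ⟨p081_k5, nat_lit 0, nat_lit 0, nat_lit 96, nat_lit 0, nat_lit 42336, [nat_lit 1898392000, nat_lit 5101674400, nat_lit 6428695200], [], [nat_lit 24753417700, nat_lit 25139772000, nat_lit 30490433091, nat_lit 30773478961, nat_lit 27072666021, nat_lit 27391570560, nat_lit 32012183138, nat_lit 32305498017], nat_lit 1271250, nat_lit 1271250, nat_lit 1271250, nat_lit 1271250, nat_lit 1100001, nat_lit 1922000, [nat_lit 490000, nat_lit 1427500, nat_lit 1271250], [nat_lit 102, nat_lit 40, nat_lit 40, nat_lit 80, nat_lit 2, nat_lit 289, nat_lit 75, nat_lit 8]⟩, ⟨p081_k1, nat_lit 0, nat_lit 0, nat_lit 338, nat_lit 0, nat_lit 0, [nat_lit 4418750000, nat_lit 8393504000,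 nat_lit 11594800000], [], [nat_lit 28722711452, nat_lit 29426971492, nat_lit 34091370908, nat_lit 34223912267, nat_lit 25784828934, nat_lit 25612797317, nat_lit 28351469792, nat_lit 28147694793], nat_lit 0, nat_lit 0, nat_lit 0, nat_lit 0, nat_lit 0, nat_lit 0, [], [nat_lit 104, nat_lit 40, nat_lit 40, nat_lit 80, nat_lit 76, nat_lit 483, nat_lit 250, nat_lit 10]⟩,
 ⟨nat_lit 3162, nat_lit 3355, ⟨.ofNat (nat_lit 561864), .ofNat (nat_lit 741273), .ofNat (nat_lit 605958), .ofNat (nat_lit 785368), .ofNat (nat_lit 560952), .ofNat (nat_lit 737717), .ofNat (nat_lit 605261), .ofNat (nat_lit 782026)⟩, ⟨.ofNat (nat_lit 305848), .ofNat (nat_lit 454324), .ofNat (nat_lit 349943), .ofNat (nat_lit 498420), .ofNat (nat_lit 306116), .ofNat (nat_lit 452404), .ofNat (nat_lit 350426), .ofNat (nat_lit 496714)⟩⟩, [⟨nat_lit 4, nat_lit 100, nat_lit 62, nat_lit 87, nat_lit 418594531⟩, ⟨nat_lit 7, nat_lit 59, nat_lit 100, nat_lit 87, nat_lit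 72393237⟩]⟩
noncomputable def p081_l12 : Lf2 := ⟨nat_lit 0, nat_lit 23, [nat_lit 114, nat_lit 5, nat_lit 5, nat_lit 20], true, nat_lit 0, nat_lit 160, nat_lit 0, nat_lit 384, ⟨nat_lit 0, nat_lit 0, nat_lit 1000, nat_lit 5, nat_lit 144, nat_lit 1000, nat_lit 65, nat_lit 1000, nat_lit 40017, nat_lit 264, nat_lit 62098, nat_lit 276, nat_lit 59297469, nat_lit 0, nat_lit 0, nat_lit 1783836, false, false⟩,
 nat_lit 0, nat_lit 3620, nat_lit 0, nat_lit 5339, nat_lit 2714, nat_lit 0, nat_lit 0, nat_lit 0, nat_lit 0, nat_lit 0, nat_lit 0, nat_lit 0, nat_lit 0, nat_lit 0, nat_lit 126, nat_lit 400000, nat_lit 0, nat_lit 0, [(nat_lit 20, [(nat_lit 5, nat_lit 1000)]), (nat_lit 23, [(nat_lit 5, nat_lit 1000)])],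
 ⟨p081_k6, nat_lit 0, nat_lit 0, nat_lit 302, nat_lit 0, nat_lit 50656, [nat_lit 2434800001, nat_lit 184400000], [], [nat_lit 17618320634, nat_lit 20022137506, nat_lit 18591965978, nat_lit 20704193922, nat_lit 17998024962, nat_lit 20063217754, nat_lit 20626592745, nat_lit 21159458875], nat_lit 1271250, nat_lit 1271250, nat_lit 230001, nat_lit 1100001, nat_lit 0, nat_lit 1100001, [nat_lit 490000, nat_lit 2052500], [nat_lit 94, nat_lit 40, nat_lit 40, nat_lit 80, nat_lit 95, nat_lit 317, nat_lit 100, nat_lit 9]⟩, C1.Rw.none,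
 ⟨nat_lit 3162, nat_lit 4473, ⟨.ofNat (nat_lit 227776), .ofNat (nat_lit 431944), .ofNat (nat_lit 270729), .ofNat (nat_lit 474896), .ofNat (nat_lit 255876), .ofNat (nat_lit 438969), .ofNat (nat_lit 300005), .ofNat (nat_lit 483097)⟩, ⟨.ofNat (nat_lit 0), .ofNat (nat_lit 302621), .ofNat (nat_lit 0), .ofNat (nat_lit 345754), .ofNat (nat_lit 0), .ofNat (nat_lit 306116), .ofNat (nat_lit 0), .ofNat (nat_lit 350426)⟩⟩, [⟨nat_lit 0, nat_lit 100, nat_lit 61, nat_lit 92, nat_lit 31593779⟩, ⟨nat_lit 3, nat_lit 100, nat_lit 82, nat_lit 29, nat_lit 57108419⟩]⟩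
noncomputable def p081_l13 : Lf2 := ⟨nat_lit 1, nat_lit 23, [nat_lit 114, nat_lit 5, nat_lit 5, nat_lit 20], false, nat_lit 0, nat_lit 160, nat_lit 0, nat_lit 384, zbN0,
 nat_lit 0, nat_lit 0, nat_lit 0, nat_lit 0, nat_lit 0, nat_lit 0, nat_lit 0, nat_lit 0, nat_lit 0, nat_lit 0, nat_lit 0, nat_lit 0, nat_lit 0, nat_lit 0, nat_lit 0, nat_lit 0, nat_lit 0, nat_lit 0, [],
 C1.Rw.none, C1.Rw.none,
 zbF0, []⟩
noncomputable def p081_l14 : Lf2 := ⟨nat_lit 0, nat_lit 23, [nat_lit 114, nat_lit 5, nat_lit 5, nat_lit 20], false, nat_lit 0, nat_lit 160, nat_lit 0, nat_lit 384, ⟨nat_lit 73, nat_lit 0, nat_lit 927, nat_lit 5, nat_lit 209, nat_lit 927, nat_lit 65, nat_lit 927, nat_lit 40017, nat_lit 264, nat_lit 5723, nat_lit 210, nat_lit 52655659, nat_lit 0, nat_lit 0, nat_lit 2596656, false, false⟩,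
 nat_lit 2370, nat_lit 727, nat_lit 0, nat_lit 6249, nat_lit 2507, nat_lit 1015, nat_lit 9, nat_lit 0, nat_lit 0, nat_lit 48, nat_lit 0, nat_lit 0, nat_lit 0, nat_lit 0, nat_lit 115, nat_lit 370800, nat_lit 0, nat_lit 0, [(nat_lit 23, [(nat_lit 5, nat_lit 927)])],
 ⟨p081_k2, nat_lit 0, nat_lit 0, nat_lit 207, nat_lit 0, nat_lit 30406, [nat_lit 1979020801, nat_lit 820859400, nat_lit 396213600], [], [nat_lit 19161785792, nat_lit 20243655102, nat_lit 21160397278, nat_lit 22115875938, nat_lit 19399400798, nat_lit 20431216039, nat_lit 21593862943, nat_lit 22636815903], nat_lit 1271250, nat_lit 1271250, nat_lit 1100001, nat_lit 1785000, nat_lit 0, nat_lit 1100001, [nat_lit 490000, nat_lit 1427500, nat_lit 1271250], [nat_lit 61, nat_lit 40, nat_lit 40, nat_lit 80, nat_lit 1, nat_lit 317, nat_lit 100, nat_lit 9]⟩, ⟨p081_k1, nat_lit 0, nat_lit 0, nat_lit 448, nat_lit 0, nat_lit 70883, [nat_lit 456250000, nat_lit 866656000,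 nat_lit 1197200000], [], [nat_lit 3191277968, nat_lit 3210698492, nat_lit 3153734244, nat_lit 3153202496, nat_lit 4615652960, nat_lit 3691542556, nat_lit 2779353124, nat_lit 2574009732], nat_lit 1271250, nat_lit 1271250, nat_lit 1271250, nat_lit 1271250, nat_lit 0, nat_lit 2712000, [nat_lit 1412500, nat_lit 1271250, nat_lit 1271250], [nat_lit 104, nat_lit 40, nat_lit 40, nat_lit 80, nat_lit 76, nat_lit 456, nat_lit 225, nat_lit 10]⟩,
 ⟨nat_lit 3162, nat_lit 3873, ⟨.ofNat (nat_lit 435446), .ofNat (nat_lit 564520), .ofNat (nat_lit 478975), .ofNat (nat_lit 608082), .ofNat (nat_lit 439014), .ofNat (nat_lit 560952), .ofNat (nat_lit 483267), .ofNat (nat_lit 605237)⟩, ⟨.ofNat (nat_lit 0), .ofNat (nat_lit 304717), .ofNat (nat_lit 0), .ofNat (nat_lit 348304), .ofNat (nat_lit 0), .ofNat (nat_lit 306116), .ofNat (nat_lit 0), .ofNat (nat_lit 350426)⟩⟩, [⟨nat_lit 3, nat_lit 100, nat_lit 76, nat_lit 37, nat_lit 31760023⟩, ⟨nat_lit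 22, nat_lit 100, nat_lit 60, nat_lit 80, nat_lit 8953217⟩]⟩
noncomputable def p081_l15 : Lf2 := ⟨nat_lit 1, nat_lit 23, [nat_lit 114, nat_lit 5, nat_lit 5, nat_lit 20], false, nat_lit 160, nat_lit 300, nat_lit 0, nat_lit 384, zbN0,
 nat_lit 0, nat_lit 0, nat_lit 0, nat_lit 0, nat_lit 0, nat_lit 0, nat_lit 0, nat_lit 0, nat_lit 0, nat_lit 0, nat_lit 0, nat_lit 0, nat_lit 0, nat_lit 0, nat_lit 0, nat_lit 0, nat_lit 0, nat_lit 0, [],
 C1.Rw.none, C1.Rw.none,
 zbF0, []⟩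
noncomputable def p081_l16 : Lf2 := ⟨nat_lit 0, nat_lit 23, [nat_lit 114, nat_lit 5, nat_lit 5, nat_lit 20], true, nat_lit 160, nat_lit 276, nat_lit 0, nat_lit 384, ⟨nat_lit 0, nat_lit 0, nat_lit 1000, nat_lit 5, nat_lit 176, nat_lit 1000, nat_lit 167, nat_lit 999, nat_lit 13749, nat_lit 240, nat_lit 600, nat_lit 209, nat_lit 46683746, nat_lit 0, nat_lit 0, nat_lit 4422119, false, false⟩,
 nat_lit 0, nat_lit 4367, nat_lit 0, nat_lit 7477, nat_lit 3535, nat_lit 0, nat_lit 0, nat_lit 0, nat_lit 0, nat_lit 0, nat_lit 0, nat_lit 0, nat_lit 0, nat_lit 0, nat_lit 95, nat_lit 250000, nat_lit 0, nat_lit 0, [(nat_lit 23, [(nat_lit 4, nat_lit 1000)])],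
 ⟨p081_k2, nat_lit 0, nat_lit 0, nat_lit 165, nat_lit 0, nat_lit 45616, [nat_lit 2259200001, nat_lit 562000001, nat_lit 707600000], [], [nat_lit 19031929689, nat_lit 20309566048, nat_lit 21200123201, nat_lit 22145173100, nat_lit 22413592042, nat_lit 23883551649, nat_lit 24495446531, nat_lit 25653504433], nat_lit 1271250, nat_lit 1271250, nat_lit 330400, nat_lit 1726500, nat_lit 1100001, nat_lit 2093250, [nat_lit 490000, nat_lit 1427500, nat_lit 1271250], [nat_lit 61, nat_lit 40, nat_lit 40, nat_lit 80, nat_lit 1, nat_lit 373, nat_lit 150, nat_lit 10]⟩, C1.Rw.none,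
 ⟨nat_lit 3162, nat_lit 3873, ⟨.ofNat (nat_lit 267606), .ofNat (nat_lit 564520), .ofNat (nat_lit 311135), .ofNat (nat_lit 608082), .ofNat (nat_lit 280451), .ofNat (nat_lit 560952), .ofNat (nat_lit 324704), .ofNat (nat_lit 605237)⟩, ⟨.ofNat (nat_lit 304717), .ofNat (nat_lit 491830), .ofNat (nat_lit 348304), .ofNat (nat_lit 535416), .ofNat (nat_lit 306116), .ofNat (nat_lit 482881), .ofNat (nat_lit 350426), .ofNat (nat_lit 527190)⟩⟩, [⟨nat_lit 4, nat_lit 100, nat_lit 67, nat_lit 88, nat_lit 299609122⟩]⟩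
noncomputable def p081_l17 : Lf2 := ⟨nat_lit 1, nat_lit 23, [nat_lit 114, nat_lit 5, nat_lit 5, nat_lit 20], false, nat_lit 0, nat_lit 160, nat_lit 0, nat_lit 384, zbN0,
 nat_lit 0, nat_lit 0, nat_lit 0, nat_lit 0, nat_lit 0, nat_lit 0, nat_lit 0, nat_lit 0, nat_lit 0, nat_lit 0, nat_lit 0, nat_lit 0, nat_lit 0, nat_lit 0, nat_lit 0, nat_lit 0, nat_lit 0, nat_lit 0, [],
 C1.Rw.none, C1.Rw.none,
 zbF0, []⟩
noncomputable def p081_l18 : Lf2 := ⟨nat_lit 1, nat_lit 23, [nat_lit 114, nat_lit 5, nat_lit 5, nat_lit 20], false, nat_lit 0, nat_lit 160, nat_lit 0, nat_lit 376, zbN0,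
 nat_lit 0, nat_lit 0, nat_lit 0, nat_lit 0, nat_lit 0, nat_lit 0, nat_lit 0, nat_lit 0, nat_lit 0, nat_lit 0, nat_lit 0, nat_lit 0, nat_lit 0, nat_lit 0, nat_lit 0, nat_lit 0, nat_lit 0, nat_lit 0, [],
 C1.Rw.none, C1.Rw.none,
 zbF0, []⟩
noncomputable def p081_l19 : Lf2 := ⟨nat_lit 1, nat_lit 23, [nat_lit 114, nat_lit 5, nat_lit 5, nat_lit 20], false, nat_lit 0, nat_lit 160, nat_lit 0, nat_lit 376, zbN0,
 nat_lit 0, nat_lit 0, nat_lit 0, nat_lit 0, nat_lit 0, nat_lit 0, nat_lit 0, nat_lit 0, nat_lit 0, nat_lit 0, nat_lit 0, nat_lit 0, nat_lit 0, nat_lit 0, nat_lit 0, nat_lit 0, nat_lit 0, nat_lit 0, [],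
 C1.Rw.none, C1.Rw.none,
 zbF0, []⟩
noncomputable def p081_l20 : Lf2 := ⟨nat_lit 0, nat_lit 23, [nat_lit 114, nat_lit 5, nat_lit 5, nat_lit 20], false, nat_lit 4, nat_lit 160, nat_lit 0, nat_lit 376, ⟨nat_lit 1000, nat_lit 0, nat_lit 0, nat_lit 0, nat_lit 0, nat_lit 0, nat_lit 0, nat_lit 0, nat_lit 0, nat_lit 0, nat_lit 0, nat_lit 0, nat_lit 0, nat_lit 0, nat_lit 0, nat_lit 0, false, false⟩,
 nat_lit 6926, nat_lit 0, nat_lit 14522, nat_lit 0, nat_lit 5817, nat_lit 10257, nat_lit 581, nat_lit 0, nat_lit 0, nat_lit 592, nat_lit 0, nat_lit 0, nat_lit 0, nat_lit 0, nat_lit 0, nat_lit 0, nat_lit 0, nat_lit 0, [],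
 ⟨p081_k0, nat_lit 0, nat_lit 0, nat_lit 200, nat_lit 0, nat_lit 29033, [nat_lit 2032000001, nat_lit 6250000000, nat_lit 7968000000], [], [nat_lit 27273421300, nat_lit 28393703657, nat_lit 35788273470, nat_lit 36566789635, nat_lit 23001120581, nat_lit 23541417940, nat_lit 29926386026, nat_lit 30603035452], nat_lit 1271250, nat_lit 1271250, nat_lit 1271250, nat_lit 1271250, nat_lit 21650, nat_lit 1100001, [nat_lit 490000, nat_lit 1427500, nat_lit 1271250], [nat_lit 102, nat_lit 40, nat_lit 40, nat_lit 80, nat_lit 2, nat_lit 249, nat_lit 40, nat_lit 7]⟩, ⟨p081_k4, nat_lit 0, nat_lit 0, nat_lit 326, nat_lit 0, nat_lit 60814, [nat_lit 6250000000, nat_lit 11872000000, nat_lit 14058000000], [], [nat_lit 35727914564, nat_lit 36461204512, nat_lit 44268297320, nat_lit 44554191640, nat_lit 34802320504, nat_lit 34875245045, nat_lit 38747210011, nat_lit 38678546611], nat_lit 1271250, nat_lit 1271250, nat_lit 1271250, nat_lit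 1271250, nat_lit 0, nat_lit 2655500, [nat_lit 1412500, nat_lit 1271250, nat_lit 1271250], [nat_lit 137, nat_lit 40, nat_lit 40, nat_lit 80, nat_lit 58, nat_lit 483, nat_lit 250, nat_lit 11]⟩,
 zbF0, [⟨nat_lit 19, nat_lit 100, nat_lit 63, nat_lit 88, nat_lit 108535033⟩, ⟨nat_lit 22, nat_lit 95, nat_lit 100, nat_lit 88, nat_lit 30503693⟩]⟩
noncomputable def p081_l21 : Lf2 := ⟨nat_lit 1, nat_lit 23, [nat_lit 114, nat_lit 5, nat_lit 5, nat_lit 20], false, nat_lit 160, nat_lit 300, nat_lit 0, nat_lit 384, zbN0,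
 nat_lit 0, nat_lit 0, nat_lit 0, nat_lit 0, nat_lit 0, nat_lit 0, nat_lit 0, nat_lit 0, nat_lit 0, nat_lit 0, nat_lit 0, nat_lit 0, nat_lit 0, nat_lit 0, nat_lit 0, nat_lit 0, nat_lit 0, nat_lit 0, [],
 C1.Rw.none, C1.Rw.none,
 zbF0, []⟩
noncomputable def p081_l22 : Lf2 := ⟨nat_lit 1, nat_lit 23, [nat_lit 114, nat_lit 5, nat_lit 5, nat_lit 20], false, nat_lit 160, nat_lit 276, nat_lit 0, nat_lit 384, zbN0,
 nat_lit 0, nat_lit 0, nat_lit 0, nat_lit 0, nat_lit 0, nat_lit 0, nat_lit 0, nat_lit 0, nat_lit 0, nat_lit 0, nat_lit 0, nat_lit 0, nat_lit 0, nat_lit 0, nat_lit 0, nat_lit 0, nat_lit 0, nat_lit 0, [],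
 C1.Rw.none, C1.Rw.none,
 zbF0, []⟩
noncomputable def p081_l23 : Lf2 := ⟨nat_lit 0, nat_lit 23, [nat_lit 114, nat_lit 5, nat_lit 5, nat_lit 20], false, nat_lit 160, nat_lit 276, nat_lit 0, nat_lit 376, ⟨nat_lit 1000, nat_lit 0, nat_lit 0, nat_lit 0, nat_lit 0, nat_lit 0, nat_lit 0, nat_lit 0, nat_lit 0, nat_lit 0, nat_lit 0, nat_lit 0, nat_lit 0, nat_lit 0, nat_lit 0, nat_lit 0, false, false⟩,
 nat_lit 22632, nat_lit 0, nat_lit 0, nat_lit 3794, nat_lit 7544, nat_lit 10824, nat_lit 0, nat_lit 0, nat_lit 0, nat_lit 491, nat_lit 0, nat_lit 0, nat_lit 0, nat_lit 0, nat_lit 0, nat_lit 0, nat_lit 0, nat_lit 0, [],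
 ⟨p081_k2, nat_lit 0, nat_lit 0, nat_lit 97, nat_lit 0, nat_lit 30406, [nat_lit 2032000001, nat_lit 6250000000, nat_lit 9842000000], [], [nat_lit 23695935568, nat_lit 25438135872, nat_lit 31792779018, nat_lit 33315728660, nat_lit 27143810133, nat_lit 28498380644, nat_lit 33979547356, nat_lit 35161628598], nat_lit 1271250, nat_lit 1271250, nat_lit 1271250, nat_lit 1271250, nat_lit 1100001, nat_lit 2093250, [nat_lit 490000, nat_lit 1427500, nat_lit 1271250], [nat_lit 61, nat_lit 40, nat_lit 40, nat_lit 80, nat_lit 1, nat_lit 401, nat_lit 175, nat_lit 10]⟩, ⟨p081_k4, nat_lit 0, nat_lit 0, nat_lit 328, nat_lit 0, nat_lit 60814, [nat_lit 6250000000, nat_lit 11872000000, nat_lit 14058000000], [], [nat_lit 37020834123, nat_lit 37765216859, nat_lit 46619038603, nat_lit 46860650018, nat_lit 35593978837, nat_lit 35647883816, nat_lit 39311537301, nat_lit 39117971737], nat_lit 1271250, nat_lit 1271250, nat_lit 1271250, nat_lit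 1271250, nat_lit 0, nat_lit 2655500, [nat_lit 1412500, nat_lit 1271250, nat_lit 1271250], [nat_lit 137, nat_lit 40, nat_lit 40, nat_lit 80, nat_lit 58, nat_lit 483, nat_lit 250, nat_lit 11]⟩,
 zbF0, [⟨nat_lit 16, nat_lit 67, nat_lit 100, nat_lit 88, nat_lit 586299441⟩, ⟨nat_lit 7, nat_lit 63, nat_lit 100, nat_lit 88, nat_lit 109281162⟩]⟩
noncomputable def p081_l24 : Lf2 := ⟨nat_lit 0, nat_lit 23, [nat_lit 114, nat_lit 5, nat_lit 5, nat_lit 20], true, nat_lit 0, nat_lit 300, nat_lit 0, nat_lit 384, ⟨nat_lit 0, nat_lit 1000, nat_lit 0, nat_lit 5, nat_lit 170, nat_lit 1000, nat_lit 110, nat_lit 0, nat_lit 0, nat_lit 0, nat_lit 0, nat_lit 0, nat_lit 0, nat_lit 0, nat_lit 0, nat_lit 5000000, false, false⟩,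
 nat_lit 0, nat_lit 5686, nat_lit 0, nat_lit 10057, nat_lit 4264, nat_lit 0, nat_lit 0, nat_lit 0, nat_lit 0, nat_lit 0, nat_lit 0, nat_lit 0, nat_lit 0, nat_lit 0, nat_lit 0, nat_lit 538000, nat_lit 0, nat_lit 0, [(nat_lit 20, [(nat_lit 1, nat_lit 770), (nat_lit 2, nat_lit 230)]), (nat_lit 23, [(nat_lit 1, nat_lit 770), (nat_lit 2, nat_lit 230)])],
 ⟨p081_k3, nat_lit 0, nat_lit 0, nat_lit 315, nat_lit 0, nat_lit 50656, [nat_lit 1721194001, nat_lit 1581310001, nat_lit 387504667], [], [nat_lit 25151208098, nat_lit 25712289115, nat_lit 24193305260, nat_lit 26584420827, nat_lit 24942287947, nat_lit 27092218955, nat_lit 30816638507, nat_lit 27168202411], nat_lit 1271250, nat_lit 1271250, nat_lit 230001, nat_lit 1717500, nat_lit 0, nat_lit 2118750, [nat_lit 490000, nat_lit 1427500, nat_lit 1271250], [nat_lit 61, nat_lit 40, nat_lit 40, nat_lit 80, nat_lit 1, nat_lit 373, nat_lit 150, nat_lit 11]⟩, C1.Rw.none,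
 ⟨nat_lit 3162, nat_lit 4473, ⟨.ofNat (nat_lit 227776), .ofNat (nat_lit 567977), .ofNat (nat_lit 270729), .ofNat (nat_lit 611007), .ofNat (nat_lit 255876), .ofNat (nat_lit 560952), .ofNat (nat_lit 300005), .ofNat (nat_lit 605159)⟩, ⟨.ofNat (nat_lit 0), .ofNat (nat_lit 540545), .ofNat (nat_lit 0), .ofNat (nat_lit 583678), .ofNat (nat_lit 0), .ofNat (nat_lit 519453), .ofNat (nat_lit 0), .ofNat (nat_lit 563762)⟩⟩, [⟨nat_lit 4, nat_lit 100, nat_lit 74, nat_lit 90, nat_lit 118252058⟩]⟩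
noncomputable def p081_l25 : Lf2 := ⟨nat_lit 0, nat_lit 23, [nat_lit 114, nat_lit 5, nat_lit 5, nat_lit 20], true, nat_lit 0, nat_lit 300, nat_lit 0, nat_lit 384, ⟨nat_lit 0, nat_lit 1000, nat_lit 0, nat_lit 6, nat_lit 281, nat_lit 1000, nat_lit 110, nat_lit 0, nat_lit 0, nat_lit 0, nat_lit 0, nat_lit 0, nat_lit 0, nat_lit 0, nat_lit 0, nat_lit 5000000, true, true⟩,
 nat_lit 0, nat_lit 4751, nat_lit 0, nat_lit 7259, nat_lit 3563, nat_lit 0, nat_lit 0, nat_lit 0, nat_lit 0, nat_lit 0, nat_lit 0, nat_lit 0, nat_lit 0, nat_lit 0, nat_lit 0, nat_lit 476800, nat_lit 0, nat_lit 0, [(nat_lit 20, [(nat_lit 1, nat_lit 872), (nat_lit 2, nat_lit 128)]), (nat_lit 23, [(nat_lit 1, nat_lit 872), (nat_lit 2, nat_lit 128)])],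
 ⟨p081_k3, nat_lit 0, nat_lit 0, nat_lit 235, nat_lit 0, nat_lit 50656, [nat_lit 1646958400, nat_lit 1791736001, nat_lit 995023467], [], [nat_lit 25801880180, nat_lit 27576793628, nat_lit 30889823789, nat_lit 32489892011, nat_lit 27766525625, nat_lit 28980456979, nat_lit 31227279358, nat_lit 32135101660], nat_lit 1271250, nat_lit 1271250, nat_lit 1271250, nat_lit 1271250, nat_lit 0, nat_lit 2118750, [nat_lit 490000, nat_lit 1427500, nat_lit 1271250], [nat_lit 61, nat_lit 40, nat_lit 40, nat_lit 80, nat_lit 1, nat_lit 401, nat_lit 175, nat_lit 11]⟩, C1.Rw.none,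
 ⟨nat_lit 3162, nat_lit 4473, ⟨.ofNat (nat_lit 567977), .ofNat (nat_lit 812698), .ofNat (nat_lit 611007), .ofNat (nat_lit 855831), .ofNat (nat_lit 560952), .ofNat (nat_lit 780384), .ofNat (nat_lit 605159), .ofNat (nat_lit 824694)⟩, ⟨.ofNat (nat_lit 0), .ofNat (nat_lit 540545), .ofNat (nat_lit 0), .ofNat (nat_lit 583678), .ofNat (nat_lit 0), .ofNat (nat_lit 519453), .ofNat (nat_lit 0), .ofNat (nat_lit 563762)⟩⟩, [⟨nat_lit 13, nat_lit 72, nat_lit 63, nat_lit 100, nat_lit 304702184⟩, ⟨nat_lit 16, nat_lit 74, nat_lit 100, nat_lit 90, nat_lit 94729245⟩]⟩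
noncomputable def p081_l26 : Lf2 := ⟨nat_lit 0, nat_lit 23, [nat_lit 114, nat_lit 5, nat_lit 5, nat_lit 20], true, nat_lit 0, nat_lit 300, nat_lit 0, nat_lit 384, ⟨nat_lit 0, nat_lit 1000, nat_lit 0, nat_lit 5, nat_lit 170, nat_lit 1000, nat_lit 110, nat_lit 0, nat_lit 0, nat_lit 0, nat_lit 0, nat_lit 0, nat_lit 0, nat_lit 0, nat_lit 0, nat_lit 5000000, false, false⟩,
 nat_lit 0, nat_lit 5686, nat_lit 0, nat_lit 10057, nat_lit 4264, nat_lit 0, nat_lit 0, nat_lit 0, nat_lit 0, nat_lit 0, nat_lit 0, nat_lit 0, nat_lit 0, nat_lit 0, nat_lit 0, nat_lit 538000, nat_lit 0, nat_lit 0, [(nat_lit 20, [(nat_lit 1, nat_lit 770), (nat_lit 2, nat_lit 230)]), (nat_lit 23, [(nat_lit 1, nat_lit 770), (nat_lit 2, nat_lit 230)])],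
 ⟨p081_k3, nat_lit 0, nat_lit 0, nat_lit 315, nat_lit 0, nat_lit 50656, [nat_lit 1721194001, nat_lit 1581310001, nat_lit 387504667], [], [nat_lit 25151208098, nat_lit 25712289115, nat_lit 24193305260, nat_lit 26584420827, nat_lit 24942287947, nat_lit 27092218955, nat_lit 30816638507, nat_lit 27168202411], nat_lit 1271250, nat_lit 1271250, nat_lit 230001, nat_lit 1717500, nat_lit 0, nat_lit 2118750, [nat_lit 490000, nat_lit 1427500, nat_lit 1271250], [nat_lit 61, nat_lit 40, nat_lit 40, nat_lit 80, nat_lit 1, nat_lit 373, nat_lit 150, nat_lit 11]⟩, C1.Rw.none,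
 ⟨nat_lit 3162, nat_lit 4473, ⟨.ofNat (nat_lit 227776), .ofNat (nat_lit 567977), .ofNat (nat_lit 270729), .ofNat (nat_lit 611007), .ofNat (nat_lit 255876), .ofNat (nat_lit 560952), .ofNat (nat_lit 300005), .ofNat (nat_lit 605159)⟩, ⟨.ofNat (nat_lit 0), .ofNat (nat_lit 540545), .ofNat (nat_lit 0), .ofNat (nat_lit 583678), .ofNat (nat_lit 0), .ofNat (nat_lit 519453), .ofNat (nat_lit 0), .ofNat (nat_lit 563762)⟩⟩, [⟨nat_lit 4, nat_lit 100, nat_lit 74, nat_lit 90, nat_lit 118252058⟩]⟩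
noncomputable def p081_l27 : Lf2 := ⟨nat_lit 0, nat_lit 23, [nat_lit 114, nat_lit 5, nat_lit 5, nat_lit 20], true, nat_lit 0, nat_lit 300, nat_lit 0, nat_lit 384, ⟨nat_lit 0, nat_lit 1000, nat_lit 0, nat_lit 6, nat_lit 281, nat_lit 1000, nat_lit 110, nat_lit 0, nat_lit 0, nat_lit 0, nat_lit 0, nat_lit 0, nat_lit 0, nat_lit 0, nat_lit 0, nat_lit 5000000, true, true⟩,
 nat_lit 0, nat_lit 4751, nat_lit 0, nat_lit 7259, nat_lit 3563, nat_lit 0, nat_lit 0, nat_lit 0, nat_lit 0, nat_lit 0, nat_lit 0, nat_lit 0, nat_lit 0, nat_lit 0, nat_lit 0, nat_lit 476800, nat_lit 0, nat_lit 0, [(nat_lit 20, [(nat_lit 1, nat_lit 872), (nat_lit 2, nat_lit 128)]), (nat_lit 23, [(nat_lit 1, nat_lit 872), (nat_lit 2, nat_lit 128)])],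
 ⟨p081_k3, nat_lit 0, nat_lit 0, nat_lit 235, nat_lit 0, nat_lit 50656, [nat_lit 1646958400, nat_lit 1791736001, nat_lit 995023467], [], [nat_lit 25801880180, nat_lit 27576793628, nat_lit 30889823789, nat_lit 32489892011, nat_lit 27766525625, nat_lit 28980456979, nat_lit 31227279358, nat_lit 32135101660], nat_lit 1271250, nat_lit 1271250, nat_lit 1271250, nat_lit 1271250, nat_lit 0, nat_lit 2118750, [nat_lit 490000, nat_lit 1427500, nat_lit 1271250], [nat_lit 61, nat_lit 40, nat_lit 40, nat_lit 80, nat_lit 1, nat_lit 401, nat_lit 175, nat_lit 11]⟩, C1.Rw.none,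
 ⟨nat_lit 3162, nat_lit 4473, ⟨.ofNat (nat_lit 567977), .ofNat (nat_lit 812698), .ofNat (nat_lit 611007), .ofNat (nat_lit 855831), .ofNat (nat_lit 560952), .ofNat (nat_lit 780384), .ofNat (nat_lit 605159), .ofNat (nat_lit 824694)⟩, ⟨.ofNat (nat_lit 0), .ofNat (nat_lit 540545), .ofNat (nat_lit 0), .ofNat (nat_lit 583678), .ofNat (nat_lit 0), .ofNat (nat_lit 519453), .ofNat (nat_lit 0), .ofNat (nat_lit 563762)⟩⟩, [⟨nat_lit 13, nat_lit 72, nat_lit 63, nat_lit 100, nat_lit 304702184⟩, ⟨nat_lit 16, nat_lit 74, nat_lit 100, nat_lit 90, nat_lit 94729245⟩]⟩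
noncomputable def b_V_800_500_20_22 : St := ⟨true, nat_lit 1, nat_lit 2, nat_lit 0, nat_lit 120, nat_lit 320, nat_lit 360, nat_lit 200, nat_lit 240, nat_lit 40, nat_lit 384, nat_lit 80, nat_lit 120, nat_lit 0, nat_lit 300, nat_lit 0, nat_lit 384, nat_lit 80, nat_lit 92, nat_lit 0, nat_lit 0, nat_lit 0, nat_lit 0⟩
theorem d_V_800_500_20_22 (h : EB TB.env) : Dead b_V_800_500_20_22 := chkB_sound0 h (T :=
(.gv
(.st (nat_lit 1)
(.spl (nat_lit 2) (nat_lit 240)
(.spl (nat_lit 4) (nat_lit 160)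
(.spl (nat_lit 0) (nat_lit 340)
(.leaf p081_l0)
(.trZ (nat_lit 0) (nat_lit 100) (nat_lit 71) (nat_lit 70) (nat_lit 56) (.spl (nat_lit 0) (nat_lit 350)
(.leaf p081_l1)
(.trZ (nat_lit 0) (nat_lit 100) (nat_lit 66) (nat_lit 75) (nat_lit 64) (.trZ (nat_lit 3) (nat_lit 100) (nat_lit 83) (nat_lit 25) (nat_lit 4) (.leaf p081_l2))))))
(.spl (nat_lit 0) (nat_lit 340)
(.leaf p081_l3)
(.trZ (nat_lit 0) (nat_lit 100) (nat_lit 71) (nat_lit 70) (nat_lit 56) (.trX (nat_lit 16) (nat_lit 77) (nat_lit 100) (nat_lit 99) (nat_lit 276) (.leaf p081_l4)))))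
(.spl (nat_lit 4) (nat_lit 160)
(.spl (nat_lit 2) (nat_lit 320)
(.spl (nat_lit 1) (nat_lit 220)
(.leaf p081_l5)
(.trX (nat_lit 19) (nat_lit 100) (nat_lit 49) (nat_lit 92) (nat_lit 376) (.leaf p081_l6)))
(.trX (nat_lit 22) (nat_lit 82) (nat_lit 76) (nat_lit 100) (nat_lit 336) (.leaf p081_l7)))
(.spl (nat_lit 0) (nat_lit 340)
(.leaf p081_l8)
(.trX (nat_lit 13) (nat_lit 73) (nat_lit 55) (nat_lit 100) (nat_lit 368) (.trX (nat_lit 16) (nat_lit 77) (nat_lit 100) (nat_lit 99) (nat_lit 276) (.spl (nat_lit 0) (nat_lit 350)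
(.leaf p081_l9)
(.trX (nat_lit 13) (nat_lit 68) (nat_lit 61) (nat_lit 100) (nat_lit 360) (.trX (nat_lit 16) (nat_lit 69) (nat_lit 100) (nat_lit 96) (nat_lit 264) (.spl (nat_lit 0) (nat_lit 355)
(.leaf p081_l10)
(.trX (nat_lit 13) (nat_lit 64) (nat_lit 65) (nat_lit 100) (nat_lit 356) (.trX (nat_lit 16) (nat_lit 66) (nat_lit 100) (nat_lit 95) (nat_lit 256) (.leaf p081_l11))))))))))))
(.spl (nat_lit 2) (nat_lit 240)
(.spl (nat_lit 4) (nat_lit 160)
(.spl (nat_lit 2) (nat_lit 160)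
(.leaf p081_l12)
(.spl (nat_lit 0) (nat_lit 340)
(.leaf p081_l13)
(.leaf p081_l14)))
(.spl (nat_lit 0) (nat_lit 340)
(.leaf p081_l15)
(.trZ (nat_lit 0) (nat_lit 100) (nat_lit 71) (nat_lit 70) (nat_lit 56) (.trX (nat_lit 16) (nat_lit 77) (nat_lit 100) (nat_lit 99) (nat_lit 276) (.leaf p081_l16)))))
(.spl (nat_lit 4) (nat_lit 160)
(.spl (nat_lit 1) (nat_lit 220)
(.trX (nat_lit 13) (nat_lit 80) (nat_lit 52) (nat_lit 100) (nat_lit 372) (.leaf p081_l17))
(.trX (nat_lit 19) (nat_lit 100) (nat_lit 49) (nat_lit 92) (nat_lit 376) (.spl (nat_lit 0) (nat_lit 340)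
(.leaf p081_l18)
(.trX (nat_lit 13) (nat_lit 73) (nat_lit 55) (nat_lit 100) (nat_lit 368) (.spl (nat_lit 0) (nat_lit 350)
(.leaf p081_l19)
(.trX (nat_lit 13) (nat_lit 68) (nat_lit 61) (nat_lit 100) (nat_lit 360) (.trZ (nat_lit 3) (nat_lit 100) (nat_lit 83) (nat_lit 25) (nat_lit 4) (.leaf p081_l20))))))))
(.spl (nat_lit 0) (nat_lit 340)
(.leaf p081_l21)
(.trX (nat_lit 13) (nat_lit 73) (nat_lit 55) (nat_lit 100) (nat_lit 368) (.trX (nat_lit 16) (nat_lit 77) (nat_lit 100) (nat_lit 99) (nat_lit 276) (.spl (nat_lit 1) (nat_lit 220)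
(.trX (nat_lit 13) (nat_lit 72) (nat_lit 63) (nat_lit 100) (nat_lit 360) (.leaf p081_l22))
(.trX (nat_lit 19) (nat_lit 100) (nat_lit 49) (nat_lit 92) (nat_lit 376) (.leaf p081_l23)))))))))
(.st (nat_lit 1)
(.spl (nat_lit 2) (nat_lit 240)
(.leaf p081_l24)
(.leaf p081_l25))
(.spl (nat_lit 2) (nat_lit 240)
(.leaf p081_l26)
(.leaf p081_l27))))) (by decide +kernel)
noncomputable def p081_l28 : Lf2 := ⟨nat_lit 0, nat_lit 10, [nat_lit 0, nat_lit 5, nat_lit 5, nat_lit 20], false, nat_lit 0, nat_lit 260, nat_lit 0, nat_lit 336, ⟨nat_lit 117, nat_lit 0, nat_lit 883, nat_lit 6, nat_lit 195, nat_lit 883, nat_lit 89, nat_lit 883, nat_lit 72600, nat_lit 281, nat_lit 36668, nat_lit 200, nat_lit 54119310, nat_lit 0, nat_lit 0, nat_lit 2447337, false, false⟩,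
 nat_lit 0, nat_lit 0, nat_lit 0, nat_lit 0, nat_lit 3676, nat_lit 1478, nat_lit 0, nat_lit 0, nat_lit 0, nat_lit 86, nat_lit 0, nat_lit 0, nat_lit 0, nat_lit 0, nat_lit 4, nat_lit 220750, nat_lit 0, nat_lit 0, [(nat_lit 18, [(nat_lit 4, nat_lit 883)]), (nat_lit 21, [(nat_lit 4, nat_lit 883)])],
 ⟨p081_k7, nat_lit 0, nat_lit 0, nat_lit 155, nat_lit 0, nat_lit 0, [nat_lit 1585060801, nat_lit 16903200], [], [nat_lit 17527362535, nat_lit 22049867680, nat_lit 20981160480, nat_lit 24416464208, nat_lit 19948789897, nat_lit 23105816294, nat_lit 22671418803, nat_lit 25110661160], nat_lit 0, nat_lit 0, nat_lit 0, nat_lit 0, nat_lit 0, nat_lit 0, [], [nat_lit 69, nat_lit 40, nat_lit 40, nat_lit 80, nat_lit 64, nat_lit 345, nat_lit 125, nat_lit 13]⟩, ⟨p081_k8, nat_lit 0, nat_lit 0, nat_lit 274, nat_lit 0, nat_lit 0, [nat_lit 548496000, nat_lit 1151514000, nat_lit 1389024000], [], [nat_lit 3657587956, nat_lit 4161722911, nat_lit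 3622791038, nat_lit 3972035350, nat_lit 3651977880, nat_lit 3872101143, nat_lit 3235541500, nat_lit 3408377932], nat_lit 0, nat_lit 0, nat_lit 0, nat_lit 0, nat_lit 0, nat_lit 0, [], [nat_lit 125, nat_lit 40, nat_lit 40, nat_lit 80, nat_lit 41, nat_lit 456, nat_lit 225, nat_lit 12]⟩,
 ⟨nat_lit 3162, nat_lit 4473, ⟨.ofNat (nat_lit 311562), .ofNat (nat_lit 611007), .ofNat (nat_lit 354514), .ofNat (nat_lit 653959), .ofNat (nat_lit 336623), .ofNat (nat_lit 605159), .ofNat (nat_lit 380752), .ofNat (nat_lit 649288)⟩, ⟨.negSucc (nat_lit 12437), .ofNat (nat_lit 429433), .ofNat (nat_lit 0), .ofNat (nat_lit 472567), .ofNat (nat_lit 0), .ofNat (nat_lit 414188), .ofNat (nat_lit 0), .ofNat (nat_lit 458499)⟩⟩, [⟨nat_lit 0, nat_lit 100, nat_lit 75, nat_lit 92, nat_lit 46115551⟩, ⟨nat_lit 16, nat_lit 83, nat_lit 100, nat_lit 83, nat_lit 15161476⟩, ⟨nat_lit 19, nat_lit 100, nat_lit 92, nat_lit 75, nat_lit 18203304⟩]⟩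
noncomputable def p081_l29 : Lf2 := ⟨nat_lit 0, nat_lit 10, [nat_lit 0, nat_lit 5, nat_lit 5, nat_lit 20], false, nat_lit 0, nat_lit 260, nat_lit 0, nat_lit 336, ⟨nat_lit 1000, nat_lit 0, nat_lit 0, nat_lit 0, nat_lit 0, nat_lit 0, nat_lit 0, nat_lit 0, nat_lit 0, nat_lit 0, nat_lit 0, nat_lit 0, nat_lit 0, nat_lit 0, nat_lit 0, nat_lit 0, false, false⟩,
 nat_lit 0, nat_lit 0, nat_lit 0, nat_lit 0, nat_lit 7249, nat_lit 11799, nat_lit 0, nat_lit 0, nat_lit 0, nat_lit 0, nat_lit 0, nat_lit 0, nat_lit 0, nat_lit 0, nat_lit 0, nat_lit 0, nat_lit 0, nat_lit 0, [],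
 ⟨p081_k7, nat_lit 0, nat_lit 0, nat_lit 185, nat_lit 0, nat_lit 0, [nat_lit 2032000001, nat_lit 6250000000], [], [nat_lit 29284841372, nat_lit 32437925568, nat_lit 41111858130, nat_lit 44174652931, nat_lit 27168501755, nat_lit 29314309576, nat_lit 34089253424, nat_lit 36258948075], nat_lit 0, nat_lit 0, nat_lit 0, nat_lit 0, nat_lit 0, nat_lit 0, [], [nat_lit 69, nat_lit 40, nat_lit 40, nat_lit 80, nat_lit 64, nat_lit 289, nat_lit 75, nat_lit 10]⟩, ⟨p081_k9, nat_lit 0, nat_lit 0, nat_lit 228, nat_lit 0, nat_lit 0, [nat_lit 4688000000, nat_lit 11872000000], [], [nat_lit 35693491164, nat_lit 38558721072, nat_lit 50233212559, nat_lit 51441214291, nat_lit 32533889881, nat_lit 33694882332, nat_lit 39654094203, nat_lit 40726464514], nat_lit 0, nat_lit 0, nat_lit 0, nat_lit 0, nat_lit 0, nat_lit 0, [], [nat_lit 116, nat_lit 40, nat_lit 40, nat_lit 80, nat_lit 65, nat_lit 538, nat_lit 300, nat_lit 13]⟩,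
 zbF0, [⟨nat_lit 4, nat_lit 100, nat_lit 71, nat_lit 71, nat_lit 36982177⟩, ⟨nat_lit 19, nat_lit 100, nat_lit 76, nat_lit 82, nat_lit 38967124⟩]⟩
noncomputable def b_V_800_600_10_0 : St := ⟨true, nat_lit 0, nat_lit 0, nat_lit 1, nat_lit 80, nat_lit 320, nat_lit 360, nat_lit 240, nat_lit 280, nat_lit 64, nat_lit 396, nat_lit 40, nat_lit 80, nat_lit 0, nat_lit 260, nat_lit 0, nat_lit 336, nat_lit 0, nat_lit 40, nat_lit 0, nat_lit 0, nat_lit 0, nat_lit 0⟩
theorem d_V_800_600_10_0 (h : EB TB.env) : Dead b_V_800_600_10_0 := chkB_sound0 h (T :=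
(.spl (nat_lit 2) (nat_lit 240)
(.leaf p081_l28)
(.leaf p081_l29))) (by decide +kernel)
noncomputable def p081_l30 : Lf2 := ⟨nat_lit 0, nat_lit 10, [nat_lit 0, nat_lit 5, nat_lit 5, nat_lit 20], true, nat_lit 0, nat_lit 160, nat_lit 0, nat_lit 336, ⟨nat_lit 0, nat_lit 614, nat_lit 386, nat_lit 6, nat_lit 195, nat_lit 945, nat_lit 57, nat_lit 386, nat_lit 29400, nat_lit 257, nat_lit 36668, nat_lit 200, nat_lit 54119310, nat_lit 12880690, nat_lit 0, nat_lit 2447337, false, false⟩,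
 nat_lit 0, nat_lit 0, nat_lit 0, nat_lit 0, nat_lit 3602, nat_lit 0, nat_lit 0, nat_lit 0, nat_lit 0, nat_lit 0, nat_lit 0, nat_lit 0, nat_lit 0, nat_lit 0, nat_lit 0, nat_lit 307900, nat_lit 0, nat_lit 0, [(nat_lit 18, [(nat_lit 0, nat_lit 614), (nat_lit 5, nat_lit 386)]), (nat_lit 21, [(nat_lit 0, nat_lit 614), (nat_lit 5, nat_lit 386)])],
 ⟨p081_k10, nat_lit 0, nat_lit 0, nat_lit 166, nat_lit 0, nat_lit 0, [nat_lit 1334211200, nat_lit 1171348000, nat_lit 992060800], [], [nat_lit 18251737876, nat_lit 21860821360, nat_lit 21523884208, nat_lit 24270661416, nat_lit 18252015154, nat_lit 20652921213, nat_lit 21130588872, nat_lit 23005643784], nat_lit 0, nat_lit 0, nat_lit 0, nat_lit 0, nat_lit 0, nat_lit 0, [], [nat_lit 6, nat_lit 40, nat_lit 40, nat_lit 80, nat_lit 3, nat_lit 317, nat_lit 100, nat_lit 12]⟩, C1.Rw.none,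
 ⟨nat_lit 3162, nat_lit 4473, ⟨.ofNat (nat_lit 311562), .ofNat (nat_lit 611007), .ofNat (nat_lit 354514), .ofNat (nat_lit 653959), .ofNat (nat_lit 336623), .ofNat (nat_lit 605159), .ofNat (nat_lit 380752), .ofNat (nat_lit 649288)⟩, ⟨.negSucc (nat_lit 12437), .ofNat (nat_lit 259488), .ofNat (nat_lit 0), .ofNat (nat_lit 302621), .ofNat (nat_lit 0), .ofNat (nat_lit 261805), .ofNat (nat_lit 0), .ofNat (nat_lit 306116)⟩⟩, []⟩
noncomputable def p081_l31 : Lf2 := ⟨nat_lit 0, nat_lit 10, [nat_lit 0, nat_lit 5, nat_lit 5, nat_lit 20], true, nat_lit 160, nat_lit 260, nat_lit 0, nat_lit 336, ⟨nat_lit 0, nat_lit 498, nat_lit 502, nat_lit 6, nat_lit 195, nat_lit 1000, nat_lit 145, nat_lit 502, nat_lit 89743, nat_lit 288, nat_lit 36668, nat_lit 200, nat_lit 46744516, nat_lit 12432940, nat_lit 7822544, nat_lit 4365657, false, false⟩,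
 nat_lit 0, nat_lit 0, nat_lit 0, nat_lit 0, nat_lit 4153, nat_lit 0, nat_lit 0, nat_lit 0, nat_lit 0, nat_lit 0, nat_lit 0, nat_lit 0, nat_lit 0, nat_lit 0, nat_lit 0, nat_lit 248800, nat_lit 0, nat_lit 0, [(nat_lit 18, [(nat_lit 0, nat_lit 498), (nat_lit 3, nat_lit 16), (nat_lit 4, nat_lit 486)]), (nat_lit 21, [(nat_lit 0, nat_lit 498), (nat_lit 3, nat_lit 16), (nat_lit 4, nat_lit 486)])],
 ⟨p081_k7, nat_lit 0, nat_lit 0, nat_lit 84, nat_lit 0, nat_lit 0, [nat_lit 1719804800, nat_lit 829288000], [], [nat_lit 16555752013, nat_lit 19895763255, nat_lit 19673317112, nat_lit 22501054580, nat_lit 20304364926, nat_lit 23677447656, nat_lit 22830346247, nat_lit 25417448480], nat_lit 0, nat_lit 0, nat_lit 0, nat_lit 0, nat_lit 0, nat_lit 0, [], [nat_lit 69, nat_lit 40, nat_lit 40, nat_lit 80, nat_lit 64, nat_lit 345, nat_lit 125, nat_lit 13]⟩, C1.Rw.none,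
 ⟨nat_lit 3162, nat_lit 4473, ⟨.ofNat (nat_lit 311562), .ofNat (nat_lit 611007), .ofNat (nat_lit 354514), .ofNat (nat_lit 653959), .ofNat (nat_lit 336623), .ofNat (nat_lit 605159), .ofNat (nat_lit 380752), .ofNat (nat_lit 649288)⟩, ⟨.ofNat (nat_lit 259488), .ofNat (nat_lit 429433), .ofNat (nat_lit 302621), .ofNat (nat_lit 472567), .ofNat (nat_lit 261805), .ofNat (nat_lit 414188), .ofNat (nat_lit 306116), .ofNat (nat_lit 458499)⟩⟩, [⟨nat_lit 16, nat_lit 83, nat_lit 100, nat_lit 83, nat_lit 211720871⟩]⟩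
noncomputable def b_V_800_600_10_1 : St := ⟨true, nat_lit 0, nat_lit 1, nat_lit 1, nat_lit 80, nat_lit 320, nat_lit 360, nat_lit 240, nat_lit 280, nat_lit 64, nat_lit 240, nat_lit 40, nat_lit 80, nat_lit 0, nat_lit 260, nat_lit 0, nat_lit 336, nat_lit 0, nat_lit 40, nat_lit 0, nat_lit 0, nat_lit 0, nat_lit 0⟩
theorem d_V_800_600_10_1 (h : EB TB.env) : Dead b_V_800_600_10_1 := chkB_sound0 h (T :=
(.spl (nat_lit 4) (nat_lit 160)
(.leaf p081_l30)
(.leaf p081_l31))) (by decide +kernel)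
noncomputable def p081_l32 : Lf2 := ⟨nat_lit 0, nat_lit 10, [nat_lit 0, nat_lit 5, nat_lit 5, nat_lit 20], false, nat_lit 0, nat_lit 160, nat_lit 0, nat_lit 336, ⟨nat_lit 5, nat_lit 995, nat_lit 0, nat_lit 6, nat_lit 266, nat_lit 995, nat_lit 56, nat_lit 0, nat_lit 0, nat_lit 0, nat_lit 0, nat_lit 0, nat_lit 46482877, nat_lit 20517123, nat_lit 0, nat_lit 3080236, true, false⟩,
 nat_lit 0, nat_lit 0, nat_lit 112, nat_lit 0, nat_lit 3883, nat_lit 59, nat_lit 0, nat_lit 0, nat_lit 0, nat_lit 0, nat_lit 0, nat_lit 0, nat_lit 0, nat_lit 0, nat_lit 0, nat_lit 248750, nat_lit 0, nat_lit 0, [(nat_lit 18, [(nat_lit 0, nat_lit 995)])],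
 ⟨p081_k7, nat_lit 0, nat_lit 0, nat_lit 125, nat_lit 0, nat_lit 0, [nat_lit 1535296000, nat_lit 2580440000], [], [nat_lit 22965214432, nat_lit 24379054068, nat_lit 24844810424, nat_lit 26137371012, nat_lit 21935992848, nat_lit 23004785224, nat_lit 23402946380, nat_lit 24407377482], nat_lit 0, nat_lit 0, nat_lit 0, nat_lit 0, nat_lit 0, nat_lit 0, [], [nat_lit 69, nat_lit 40, nat_lit 40, nat_lit 80, nat_lit 64, nat_lit 249, nat_lit 40, nat_lit 9]⟩, ⟨p081_k9, nat_lit 0, nat_lit 0, nat_lit 1158, nat_lit 0, nat_lit 1978324, [nat_lit 23440000, nat_lit 59360000], [], [nat_lit 237669872, nat_lit 236673172, nat_lit 236673172, nat_lit 235547800, nat_lit 224493848, nat_lit 178636409, nat_lit 178636409, nat_lit 178753776], nat_lit 1271250, nat_lit 1271250, nat_lit 1271250, nat_lit 1271250, nat_lit 0, nat_lit 2373000, [nat_lit 1100000, nat_lit 2470000], [nat_lit 116, nat_lit 40, nat_lit 40, nat_lit 80, nat_lit 65, nat_lit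 456, nat_lit 225, nat_lit 11]⟩,
 ⟨nat_lit 3872, nat_lit 4473, ⟨.ofNat (nat_lit 611083), .ofNat (nat_lit 679069), .ofNat (nat_lit 654181), .ofNat (nat_lit 722167), .ofNat (nat_lit 608080), .ofNat (nat_lit 672609), .ofNat (nat_lit 651631), .ofNat (nat_lit 716161)⟩, ⟨.negSucc (nat_lit 12427), .ofNat (nat_lit 259489), .ofNat (nat_lit 0), .ofNat (nat_lit 302621), .ofNat (nat_lit 0), .ofNat (nat_lit 261131), .ofNat (nat_lit 0), .ofNat (nat_lit 304717)⟩⟩, []⟩
noncomputable def p081_l33 : Lf2 := ⟨nat_lit 0, nat_lit 10, [nat_lit 0, nat_lit 5, nat_lit 5, nat_lit 20], true, nat_lit 0, nat_lit 160, nat_lit 0, nat_lit 336, ⟨nat_lit 0, nat_lit 1000, nat_lit 0, nat_lit 6, nat_lit 264, nat_lit 1000, nat_lit 57, nat_lit 0, nat_lit 0, nat_lit 0, nat_lit 0, nat_lit 0, nat_lit 46670902, nat_lit 20329098, nat_lit 0, nat_lit 3068667, true, false⟩,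
 nat_lit 0, nat_lit 0, nat_lit 0, nat_lit 0, nat_lit 3608, nat_lit 0, nat_lit 0, nat_lit 0, nat_lit 0, nat_lit 0, nat_lit 0, nat_lit 0, nat_lit 0, nat_lit 0, nat_lit 0, nat_lit 418600, nat_lit 0, nat_lit 0, [(nat_lit 21, [(nat_lit 1, nat_lit 969), (nat_lit 2, nat_lit 31)])],
 ⟨p081_k11, nat_lit 0, nat_lit 0, nat_lit 132, nat_lit 0, nat_lit 0, [nat_lit 1359967800, nat_lit 1476554600], [], [nat_lit 23176939768, nat_lit 24540484104, nat_lit 24894455512, nat_lit 26199948224, nat_lit 22145473224, nat_lit 23180255800, nat_lit 23504345176, nat_lit 24559842440], nat_lit 0, nat_lit 0, nat_lit 0, nat_lit 0, nat_lit 0, nat_lit 0, [], [nat_lit 69, nat_lit 40, nat_lit 40, nat_lit 80, nat_lit 64, nat_lit 249, nat_lit 40, nat_lit 9]⟩, C1.Rw.none,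
 ⟨nat_lit 3162, nat_lit 3873, ⟨.ofNat (nat_lit 608082), .ofNat (nat_lit 672628), .ofNat (nat_lit 651611), .ofNat (nat_lit 716165), .ofNat (nat_lit 605237), .ofNat (nat_lit 666215), .ofNat (nat_lit 649490), .ofNat (nat_lit 710475)⟩, ⟨.ofNat (nat_lit 0), .ofNat (nat_lit 261131), .ofNat (nat_lit 0), .ofNat (nat_lit 304717), .ofNat (nat_lit 0), .ofNat (nat_lit 261806), .ofNat (nat_lit 0), .ofNat (nat_lit 306116)⟩⟩, []⟩
noncomputable def p081_l34 : Lf2 := ⟨nat_lit 0, nat_lit 10, [nat_lit 0, nat_lit 5, nat_lit 5, nat_lit 20], true, nat_lit 0, nat_lit 80, nat_lit 0, nat_lit 300, ⟨nat_lit 0, nat_lit 1000, nat_lit 0, nat_lit 7, nat_lit 286, nat_lit 552, nat_lit 31, nat_lit 0, nat_lit 0, nat_lit 0, nat_lit 0, nat_lit 0, nat_lit 44303457, nat_lit 22696543, nat_lit 0, nat_lit 3201028, true, true⟩,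
 nat_lit 0, nat_lit 0, nat_lit 0, nat_lit 0, nat_lit 3343, nat_lit 0, nat_lit 0, nat_lit 0, nat_lit 0, nat_lit 0, nat_lit 0, nat_lit 0, nat_lit 0, nat_lit 0, nat_lit 0, nat_lit 250000, nat_lit 0, nat_lit 0, [(nat_lit 18, [(nat_lit 0, nat_lit 1000)]), (nat_lit 21, [(nat_lit 0, nat_lit 1000)])],
 ⟨p081_k7, nat_lit 0, nat_lit 0, nat_lit 140, nat_lit 0, nat_lit 0, [nat_lit 1558400000, nat_lit 2562000000], [], [nat_lit 24914320052, nat_lit 27079862620, nat_lit 26738103264, nat_lit 28842893240, nat_lit 23881541304, nat_lit 25924208924, nat_lit 25608646544, nat_lit 27481333216], nat_lit 0, nat_lit 0, nat_lit 0, nat_lit 0, nat_lit 0, nat_lit 0, [], [nat_lit 69, nat_lit 40, nat_lit 40, nat_lit 80, nat_lit 64, nat_lit 226, nat_lit 20, nat_lit 8]⟩, C1.Rw.none,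
 ⟨nat_lit 3162, nat_lit 4473, ⟨.ofNat (nat_lit 679036), .ofNat (nat_lit 747055), .ofNat (nat_lit 700535), .ofNat (nat_lit 768554), .ofNat (nat_lit 666163), .ofNat (nat_lit 727157), .ofNat (nat_lit 688251), .ofNat (nat_lit 749245)⟩, ⟨.negSucc (nat_lit 12437), .ofNat (nat_lit 123532), .ofNat (nat_lit 0), .ofNat (nat_lit 166665), .ofNat (nat_lit 0), .ofNat (nat_lit 139899), .ofNat (nat_lit 0), .ofNat (nat_lit 184209)⟩⟩, []⟩
noncomputable def p081_l35 : Lf2 := ⟨nat_lit 0, nat_lit 10, [nat_lit 0, nat_lit 5, nat_lit 5, nat_lit 20], false, nat_lit 0, nat_lit 80, nat_lit 0, nat_lit 300, ⟨nat_lit 83, nat_lit 917, nat_lit 0, nat_lit 7, nat_lit 295, nat_lit 917, nat_lit 31, nat_lit 0, nat_lit 0, nat_lit 0, nat_lit 0, nat_lit 0, nat_lit 43394832, nat_lit 23605168, nat_lit 0, nat_lit 3244341, true, true⟩,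
 nat_lit 0, nat_lit 0, nat_lit 1114, nat_lit 0, nat_lit 3314, nat_lit 648, nat_lit 0, nat_lit 0, nat_lit 0, nat_lit 148, nat_lit 0, nat_lit 0, nat_lit 0, nat_lit 0, nat_lit 0, nat_lit 229250, nat_lit 0, nat_lit 0, [(nat_lit 18, [(nat_lit 0, nat_lit 917)]), (nat_lit 21, [(nat_lit 0, nat_lit 917)])],
 ⟨p081_k7, nat_lit 0, nat_lit 0, nat_lit 140, nat_lit 0, nat_lit 0, [nat_lit 1597708801, nat_lit 2868104000], [], [nat_lit 25334805498, nat_lit 27492356362, nat_lit 27152879074, nat_lit 29125703346, nat_lit 24321770994, nat_lit 26357091754, nat_lit 26043636514, nat_lit 27910027170], nat_lit 0, nat_lit 0, nat_lit 0, nat_lit 0, nat_lit 0, nat_lit 0, [], [nat_lit 69, nat_lit 40, nat_lit 40, nat_lit 80, nat_lit 64, nat_lit 226, nat_lit 20, nat_lit 8]⟩, ⟨p081_k12, nat_lit 0, nat_lit 0, nat_lit 1123, nat_lit 0, nat_lit 2071242, [nat_lit 389104000, nat_lit 816886000], [], [nat_lit 2766633898, nat_lit 2767133264, nat_lit 2780664816,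 nat_lit 2800011884, nat_lit 2400436401, nat_lit 2396843756, nat_lit 2405087384, nat_lit 2420392559], nat_lit 1271250, nat_lit 1271250, nat_lit 1271250, nat_lit 1271250, nat_lit 0, nat_lit 2118750, [nat_lit 1100000, nat_lit 2127500], [nat_lit 70, nat_lit 40, nat_lit 40, nat_lit 80, nat_lit 13, nat_lit 394, nat_lit 150, nat_lit 11]⟩,
 ⟨nat_lit 3162, nat_lit 4473, ⟨.ofNat (nat_lit 700535), .ofNat (nat_lit 768554), .ofNat (nat_lit 722015), .ofNat (nat_lit 790054), .ofNat (nat_lit 688251), .ofNat (nat_lit 749245), .ofNat (nat_lit 710319), .ofNat (nat_lit 771333)⟩, ⟨.negSucc (nat_lit 12437), .ofNat (nat_lit 123532), .ofNat (nat_lit 0), .ofNat (nat_lit 166665), .ofNat (nat_lit 0), .ofNat (nat_lit 139899), .ofNat (nat_lit 0), .ofNat (nat_lit 184209)⟩⟩, [⟨nat_lit 3, nat_lit 100, nat_lit 75, nat_lit 35, nat_lit 28515131⟩, ⟨nat_lit 22, nat_lit 89, nat_lit 100, nat_lit 28, nat_lit 35003299⟩]⟩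
noncomputable def p081_l36 : Lf2 := ⟨nat_lit 0, nat_lit 10, [nat_lit 0, nat_lit 5, nat_lit 5, nat_lit 20], true, nat_lit 80, nat_lit 160, nat_lit 0, nat_lit 336, ⟨nat_lit 0, nat_lit 1000, nat_lit 0, nat_lit 7, nat_lit 291, nat_lit 1000, nat_lit 87, nat_lit 0, nat_lit 0, nat_lit 0, nat_lit 0, nat_lit 0, nat_lit 41353272, nat_lit 22292165, nat_lit 3354563, nat_lit 4282099, true, true⟩,
 nat_lit 0, nat_lit 0, nat_lit 0, nat_lit 0, nat_lit 4684, nat_lit 0, nat_lit 0, nat_lit 0, nat_lit 0, nat_lit 0, nat_lit 0, nat_lit 0, nat_lit 0, nat_lit 0, nat_lit 0, nat_lit 250000, nat_lit 0, nat_lit 0, [(nat_lit 18, [(nat_lit 0, nat_lit 1000)]), (nat_lit 21, [(nat_lit 0, nat_lit 1000)])],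
 ⟨p081_k7, nat_lit 0, nat_lit 0, nat_lit 98, nat_lit 0, nat_lit 0, [nat_lit 1558400000, nat_lit 2562000000], [], [nat_lit 22413183536, nat_lit 25102473472, nat_lit 24617810160, nat_lit 27205160912, nat_lit 22645074352, nat_lit 25066916320, nat_lit 24630044080, nat_lit 26850175696], nat_lit 0, nat_lit 0, nat_lit 0, nat_lit 0, nat_lit 0, nat_lit 0, [], [nat_lit 69, nat_lit 40, nat_lit 40, nat_lit 80, nat_lit 64, nat_lit 249, nat_lit 40, nat_lit 8]⟩, C1.Rw.none,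
 ⟨nat_lit 3162, nat_lit 4473, ⟨.ofNat (nat_lit 679036), .ofNat (nat_lit 747055), .ofNat (nat_lit 722015), .ofNat (nat_lit 790054), .ofNat (nat_lit 666163), .ofNat (nat_lit 727157), .ofNat (nat_lit 710319), .ofNat (nat_lit 771333)⟩, ⟨.ofNat (nat_lit 123532), .ofNat (nat_lit 259488), .ofNat (nat_lit 166665), .ofNat (nat_lit 302621), .ofNat (nat_lit 139899), .ofNat (nat_lit 261805), .ofNat (nat_lit 184209), .ofNat (nat_lit 306116)⟩⟩, []⟩
noncomputable def p081_l37 : Lf2 := ⟨nat_lit 0, nat_lit 10, [nat_lit 0, nat_lit 5, nat_lit 5, nat_lit 20], false, nat_lit 0, nat_lit 80, nat_lit 0, nat_lit 260, ⟨nat_lit 87, nat_lit 913, nat_lit 0, nat_lit 8, nat_lit 312, nat_lit 595, nat_lit 30, nat_lit 0, nat_lit 0, nat_lit 0, nat_lit 0, nat_lit 0, nat_lit 41630518, nat_lit 25369482, nat_lit 0, nat_lit 3316993, true, true⟩,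
 nat_lit 0, nat_lit 0, nat_lit 1607, nat_lit 0, nat_lit 3465, nat_lit 850, nat_lit 0, nat_lit 0, nat_lit 0, nat_lit 95, nat_lit 0, nat_lit 0, nat_lit 0, nat_lit 0, nat_lit 0, nat_lit 522400, nat_lit 0, nat_lit 0, [(nat_lit 18, [(nat_lit 1, nat_lit 651), (nat_lit 2, nat_lit 262)])],
 ⟨p081_k10, nat_lit 0, nat_lit 0, nat_lit 161, nat_lit 0, nat_lit 0, [nat_lit 1532857867, nat_lit 1962033334, nat_lit 1704112400], [], [nat_lit 26625024501, nat_lit 27539096571, nat_lit 28453168641, nat_lit 29284736490, nat_lit 25450014001, nat_lit 26314709321, nat_lit 27179404641, nat_lit 27966959121], nat_lit 0, nat_lit 0, nat_lit 0, nat_lit 0, nat_lit 0, nat_lit 0, [], [nat_lit 6, nat_lit 40, nat_lit 40, nat_lit 80, nat_lit 3, nat_lit 226, nat_lit 20, nat_lit 7]⟩, ⟨p081_k13, nat_lit 0, nat_lit 0, nat_lit 1020, nat_lit 0, nat_lit 1725486, [nat_lit 407856000, nat_lit 693216000, nat_lit 1032864000], [], [nat_lit 3237496928, nat_lit 3233130538,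 nat_lit 3265348436, nat_lit 3269029900, nat_lit 2560460563, nat_lit 2552270365, nat_lit 2566081165, nat_lit 2568171685], nat_lit 1271250, nat_lit 1271250, nat_lit 1271250, nat_lit 1271250, nat_lit 0, nat_lit 1836250, [nat_lit 1100000, nat_lit 1785000, nat_lit 1271250], [nat_lit 21, nat_lit 40, nat_lit 40, nat_lit 80, nat_lit 14, nat_lit 373, nat_lit 150, nat_lit 9]⟩,
 ⟨nat_lit 3872, nat_lit 4473, ⟨.ofNat (nat_lit 747053), .ofNat (nat_lit 815035), .ofNat (nat_lit 757829), .ofNat (nat_lit 825812), .ofNat (nat_lit 737137), .ofNat (nat_lit 801662), .ofNat (nat_lit 748027), .ofNat (nat_lit 812552)⟩, ⟨.negSucc (nat_lit 12427), .ofNat (nat_lit 123532), .ofNat (nat_lit 0), .ofNat (nat_lit 166665), .ofNat (nat_lit 0), .ofNat (nat_lit 132088), .ofNat (nat_lit 0), .ofNat (nat_lit 175674)⟩⟩, [⟨nat_lit 22, nat_lit 76, nat_lit 100, nat_lit 43, nat_lit 4265969⟩]⟩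
noncomputable def p081_l38 : Lf2 := ⟨nat_lit 0, nat_lit 10, [nat_lit 0, nat_lit 5, nat_lit 5, nat_lit 20], false, nat_lit 0, nat_lit 80, nat_lit 0, nat_lit 200, ⟨nat_lit 92, nat_lit 908, nat_lit 0, nat_lit 9, nat_lit 335, nat_lit 672, nat_lit 30, nat_lit 0, nat_lit 0, nat_lit 0, nat_lit 0, nat_lit 0, nat_lit 39400352, nat_lit 27599648, nat_lit 0, nat_lit 3387774, true, true⟩,
 nat_lit 0, nat_lit 0, nat_lit 1607, nat_lit 0, nat_lit 3248, nat_lit 850, nat_lit 0, nat_lit 0, nat_lit 0, nat_lit 50, nat_lit 0, nat_lit 0, nat_lit 0, nat_lit 0, nat_lit 0, nat_lit 566000, nat_lit 0, nat_lit 0, [(nat_lit 18, [(nat_lit 1, nat_lit 570), (nat_lit 2, nat_lit 338)])],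
 ⟨p081_k10, nat_lit 0, nat_lit 0, nat_lit 172, nat_lit 0, nat_lit 0, [nat_lit 1559110934, nat_lit 1905618667, nat_lit 1542854400], [], [nat_lit 28511243489, nat_lit 29323151729, nat_lit 29842103000, nat_lit 30598137430, nat_lit 27387990689, nat_lit 28158994145, nat_lit 28648000097, nat_lit 29367676305], nat_lit 0, nat_lit 0, nat_lit 0, nat_lit 0, nat_lit 0, nat_lit 0, [], [nat_lit 6, nat_lit 40, nat_lit 40, nat_lit 80, nat_lit 3, nat_lit 226, nat_lit 20, nat_lit 7]⟩, ⟨p081_k13, nat_lit 0, nat_lit 0, nat_lit 1012, nat_lit 0, nat_lit 1725486, [nat_lit 431296000, nat_lit 733056000, nat_lit 1092224000], [], [nat_lit 3769171472, nat_lit 3762280522, nat_lit 3963050052, nat_lit 3991368603, nat_lit 3154925004, nat_lit 3147453480, nat_lit 3175095908, nat_lit 3166701924], nat_lit 1271250, nat_lit 1271250, nat_lit 1271250, nat_lit 1271250, nat_lit 0, nat_lit 1412500, [nat_lit 1100000, nat_lit 1785000, nat_lit 1271250], [nat_lit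 21, nat_lit 40, nat_lit 40, nat_lit 80, nat_lit 14, nat_lit 358, nat_lit 125, nat_lit 9]⟩,
 ⟨nat_lit 3872, nat_lit 4473, ⟨.ofNat (nat_lit 815035), .ofNat (nat_lit 862623), .ofNat (nat_lit 825812), .ofNat (nat_lit 873399), .ofNat (nat_lit 801662), .ofNat (nat_lit 846831), .ofNat (nat_lit 812552), .ofNat (nat_lit 857720)⟩, ⟨.negSucc (nat_lit 12427), .ofNat (nat_lit 123532), .ofNat (nat_lit 0), .ofNat (nat_lit 166665), .ofNat (nat_lit 0), .ofNat (nat_lit 132088), .ofNat (nat_lit 0), .ofNat (nat_lit 175674)⟩⟩, [⟨nat_lit 13, nat_lit 73, nat_lit 55, nat_lit 100, nat_lit 263451612⟩]⟩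
noncomputable def p081_l39 : Lf2 := ⟨nat_lit 0, nat_lit 10, [nat_lit 0, nat_lit 5, nat_lit 5, nat_lit 20], false, nat_lit 0, nat_lit 80, nat_lit 0, nat_lit 260, ⟨nat_lit 104, nat_lit 896, nat_lit 0, nat_lit 8, nat_lit 325, nat_lit 803, nat_lit 30, nat_lit 0, nat_lit 0, nat_lit 0, nat_lit 0, nat_lit 0, nat_lit 40379294, nat_lit 26620706, nat_lit 0, nat_lit 3359557, true, true⟩,
 nat_lit 0, nat_lit 0, nat_lit 1637, nat_lit 0, nat_lit 3300, nat_lit 909, nat_lit 0, nat_lit 0, nat_lit 0, nat_lit 69, nat_lit 0, nat_lit 0, nat_lit 0, nat_lit 0, nat_lit 0, nat_lit 541400, nat_lit 0, nat_lit 0, [(nat_lit 18, [(nat_lit 1, nat_lit 591), (nat_lit 2, nat_lit 305)])],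
 ⟨p081_k10, nat_lit 0, nat_lit 0, nat_lit 172, nat_lit 0, nat_lit 0, [nat_lit 1556694134, nat_lit 1968678667, nat_lit 1673656800], [], [nat_lit 26847955601, nat_lit 27745429001, nat_lit 29982190841, nat_lit 30741915182, nat_lit 25784633601, nat_lit 26634108001, nat_lit 28751355201, nat_lit 29474417701], nat_lit 0, nat_lit 0, nat_lit 0, nat_lit 0, nat_lit 0, nat_lit 0, [], [nat_lit 6, nat_lit 40, nat_lit 40, nat_lit 80, nat_lit 3, nat_lit 226, nat_lit 20, nat_lit 7]⟩, ⟨p081_k14, nat_lit 0, nat_lit 0, nat_lit 918, nat_lit 0, nat_lit 1641947, [nat_lit 487552000, nat_lit 828672000, nat_lit 1023568000], [], [nat_lit 3943575494, nat_lit 3947615015, nat_lit 4125868924, nat_lit 4128796510, nat_lit 3292984959, nat_lit 3293432890, nat_lit 3404706737, nat_lit 3403359091], nat_lit 1271250, nat_lit 1271250, nat_lit 1271250, nat_lit 1271250, nat_lit 0, nat_lit 1836250, [nat_lit 1100000, nat_lit 1785000, nat_lit 1271250], [nat_lit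 29, nat_lit 40, nat_lit 40, nat_lit 80, nat_lit 17, nat_lit 373, nat_lit 150, nat_lit 10]⟩,
 ⟨nat_lit 3872, nat_lit 4473, ⟨.ofNat (nat_lit 757829), .ofNat (nat_lit 873399), .ofNat (nat_lit 763217), .ofNat (nat_lit 878788), .ofNat (nat_lit 748027), .ofNat (nat_lit 857720), .ofNat (nat_lit 753471), .ofNat (nat_lit 863166)⟩, ⟨.negSucc (nat_lit 12427), .ofNat (nat_lit 123532), .ofNat (nat_lit 0), .ofNat (nat_lit 166665), .ofNat (nat_lit 0), .ofNat (nat_lit 132088), .ofNat (nat_lit 0), .ofNat (nat_lit 175674)⟩⟩, [⟨nat_lit 13, nat_lit 74, nat_lit 52, nat_lit 100, nat_lit 180772202⟩, ⟨nat_lit 22, nat_lit 68, nat_lit 100, nat_lit 53, nat_lit 10684446⟩]⟩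
noncomputable def p081_l40 : Lf2 := ⟨nat_lit 0, nat_lit 10, [nat_lit 0, nat_lit 5, nat_lit 5, nat_lit 20], false, nat_lit 0, nat_lit 80, nat_lit 0, nat_lit 260, ⟨nat_lit 146, nat_lit 854, nat_lit 0, nat_lit 8, nat_lit 328, nat_lit 854, nat_lit 30, nat_lit 0, nat_lit 0, nat_lit 0, nat_lit 0, nat_lit 0, nat_lit 40035439, nat_lit 26964561, nat_lit 0, nat_lit 3369974, true, true⟩,
 nat_lit 0, nat_lit 0, nat_lit 1921, nat_lit 0, nat_lit 3406, nat_lit 1092, nat_lit 0, nat_lit 0, nat_lit 0, nat_lit 230, nat_lit 0, nat_lit 0, nat_lit 0, nat_lit 0, nat_lit 0, nat_lit 492200, nat_lit 0, nat_lit 0, [(nat_lit 18, [(nat_lit 1, nat_lit 603), (nat_lit 2, nat_lit 251)])],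
 ⟨p081_k10, nat_lit 0, nat_lit 0, nat_lit 173, nat_lit 0, nat_lit 0, [nat_lit 1566914934, nat_lit 2132726667, nat_lit 1983619200], [], [nat_lit 27188987161, nat_lit 28097123949, nat_lit 30555512725, nat_lit 31314502132, nat_lit 26053913761, nat_lit 26913166449, nat_lit 29239388481, nat_lit 29961769650], nat_lit 0, nat_lit 0, nat_lit 0, nat_lit 0, nat_lit 0, nat_lit 0, [], [nat_lit 6, nat_lit 40, nat_lit 40, nat_lit 80, nat_lit 3, nat_lit 226, nat_lit 20, nat_lit 7]⟩, ⟨p081_k15, nat_lit 0, nat_lit 0, nat_lit 908, nat_lit 0, nat_lit 1621685, [nat_lit 684448000, nat_lit 1163328000, nat_lit 1436932000], [], [nat_lit 5375968121, nat_lit 5377002732, nat_lit 5504172665, nat_lit 5503292628, nat_lit 4702793684, nat_lit 4700897784, nat_lit 4772679230, nat_lit 4769324269], nat_lit 1271250, nat_lit 1271250, nat_lit 1271250, nat_lit 1271250, nat_lit 0, nat_lit 1836250, [nat_lit 1100000, nat_lit 1785000, nat_lit 1271250], [nat_lit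 29, nat_lit 40, nat_lit 40, nat_lit 80, nat_lit 17, nat_lit 373, nat_lit 150, nat_lit 10]⟩,
 ⟨nat_lit 3872, nat_lit 4473, ⟨.ofNat (nat_lit 763217), .ofNat (nat_lit 885586), .ofNat (nat_lit 768604), .ofNat (nat_lit 890974), .ofNat (nat_lit 753471), .ofNat (nat_lit 869618), .ofNat (nat_lit 758915), .ofNat (nat_lit 875063)⟩, ⟨.negSucc (nat_lit 12427), .ofNat (nat_lit 123532), .ofNat (nat_lit 0), .ofNat (nat_lit 166665), .ofNat (nat_lit 0), .ofNat (nat_lit 132088), .ofNat (nat_lit 0), .ofNat (nat_lit 175674)⟩⟩, [⟨nat_lit 13, nat_lit 74, nat_lit 50, nat_lit 100, nat_lit 140220644⟩, ⟨nat_lit 22, nat_lit 67, nat_lit 100, nat_lit 55, nat_lit 29196530⟩]⟩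
noncomputable def p081_l41 : Lf2 := ⟨nat_lit 0, nat_lit 10, [nat_lit 0, nat_lit 5, nat_lit 5, nat_lit 20], false, nat_lit 0, nat_lit 80, nat_lit 0, nat_lit 260, ⟨nat_lit 88, nat_lit 912, nat_lit 0, nat_lit 8, nat_lit 318, nat_lit 912, nat_lit 31, nat_lit 0, nat_lit 0, nat_lit 0, nat_lit 0, nat_lit 0, nat_lit 41057712, nat_lit 25942288, nat_lit 0, nat_lit 3337391, true, true⟩,
 nat_lit 0, nat_lit 0, nat_lit 1566, nat_lit 0, nat_lit 2773, nat_lit 828, nat_lit 188, nat_lit 0, nat_lit 0, nat_lit 85, nat_lit 0, nat_lit 0, nat_lit 0, nat_lit 0, nat_lit 0, nat_lit 421800, nat_lit 0, nat_lit 0, [(nat_lit 21, [(nat_lit 1, nat_lit 817), (nat_lit 2, nat_lit 95)])],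
 ⟨p081_k16, nat_lit 0, nat_lit 0, nat_lit 170, nat_lit 0, nat_lit 0, [nat_lit 1419128401, nat_lit 1618443601, nat_lit 1661348000], [], [nat_lit 26362649636, nat_lit 26573764200, nat_lit 28839366177, nat_lit 29026493321, nat_lit 25612455386, nat_lit 25812670312, nat_lit 27964563121, nat_lit 28148053651], nat_lit 0, nat_lit 0, nat_lit 0, nat_lit 0, nat_lit 0, nat_lit 0, [], [nat_lit 6, nat_lit 40, nat_lit 40, nat_lit 80, nat_lit 3, nat_lit 226, nat_lit 20, nat_lit 7]⟩, ⟨p081_k13, nat_lit 0, nat_lit 0, nat_lit 1100, nat_lit 0, nat_lit 1905183, [nat_lit 412544000, nat_lit 701184000, nat_lit 1044736000], [], [nat_lit 3540471568, nat_lit 3526339928, nat_lit 3561551400, nat_lit 3550221204, nat_lit 2881696856, nat_lit 2861730242, nat_lit 2876473906, nat_lit 2853766976], nat_lit 1271250, nat_lit 1271250, nat_lit 1271250, nat_lit 1271250, nat_lit 0, nat_lit 1836250, [nat_lit 1100000, nat_lit 1785000, nat_lit 1271250], [nat_lit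 21, nat_lit 40, nat_lit 40, nat_lit 80, nat_lit 14, nat_lit 388, nat_lit 150, nat_lit 9]⟩,
 ⟨nat_lit 3708, nat_lit 3873, ⟨.ofNat (nat_lit 737150), .ofNat (nat_lit 833932), .ofNat (nat_lit 758943), .ofNat (nat_lit 855725), .ofNat (nat_lit 734673), .ofNat (nat_lit 830142), .ofNat (nat_lit 756541), .ofNat (nat_lit 852010)⟩, ⟨.ofNat (nat_lit 0), .ofNat (nat_lit 132088), .ofNat (nat_lit 0), .ofNat (nat_lit 175674), .ofNat (nat_lit 0), .ofNat (nat_lit 134114), .ofNat (nat_lit 0), .ofNat (nat_lit 177851)⟩⟩, [⟨nat_lit 13, nat_lit 72, nat_lit 53, nat_lit 100, nat_lit 160026795⟩, ⟨nat_lit 10, nat_lit 100, nat_lit 58, nat_lit 64, nat_lit 4803864⟩]⟩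
noncomputable def p081_l42 : Lf2 := ⟨nat_lit 0, nat_lit 10, [nat_lit 0, nat_lit 5, nat_lit 5, nat_lit 20], false, nat_lit 0, nat_lit 80, nat_lit 0, nat_lit 260, ⟨nat_lit 83, nat_lit 917, nat_lit 0, nat_lit 8, nat_lit 315, nat_lit 917, nat_lit 31, nat_lit 0, nat_lit 0, nat_lit 0, nat_lit 0, nat_lit 0, nat_lit 41308696, nat_lit 25691304, nat_lit 0, nat_lit 3328643, true, true⟩,
 nat_lit 0, nat_lit 0, nat_lit 1487, nat_lit 0, nat_lit 2645, nat_lit 787, nat_lit 268, nat_lit 0, nat_lit 0, nat_lit 82, nat_lit 0, nat_lit 0, nat_lit 0, nat_lit 0, nat_lit 0, nat_lit 366800, nat_lit 0, nat_lit 0, [(nat_lit 21, [(nat_lit 1, nat_lit 917)])],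
 ⟨p081_k17, nat_lit 0, nat_lit 0, nat_lit 170, nat_lit 0, nat_lit 0, [nat_lit 1411374400, nat_lit 1758001601, nat_lit 1886914000], [], [nat_lit 26129350552, nat_lit 26348942322, nat_lit 28497514001, nat_lit 28692331528, nat_lit 25472156855, nat_lit 25680309477, nat_lit 27721091609, nat_lit 27905172670], nat_lit 0, nat_lit 0, nat_lit 0, nat_lit 0, nat_lit 0, nat_lit 0, [], [nat_lit 6, nat_lit 40, nat_lit 40, nat_lit 80, nat_lit 3, nat_lit 226, nat_lit 20, nat_lit 7]⟩, ⟨p081_k13, nat_lit 0, nat_lit 0, nat_lit 1152, nat_lit 0, nat_lit 2010009, [nat_lit 389104000, nat_lit 661344000, nat_lit 985376000], [], [nat_lit 3294086452, nat_lit 3280479498, nat_lit 3311440396, nat_lit 3309656720, nat_lit 2666047119, nat_lit 2646908247, nat_lit 2660199590, nat_lit 2638639170], nat_lit 1271250, nat_lit 1271250, nat_lit 1271250, nat_lit 1271250, nat_lit 0, nat_lit 1836250, [nat_lit 1100000, nat_lit 1785000, nat_lit 1271250], [nat_lit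 21, nat_lit 40, nat_lit 40, nat_lit 80, nat_lit 14, nat_lit 400, nat_lit 150, nat_lit 10]⟩,
 ⟨nat_lit 3535, nat_lit 3709, ⟨.ofNat (nat_lit 734673), .ofNat (nat_lit 823777), .ofNat (nat_lit 756541), .ofNat (nat_lit 845645), .ofNat (nat_lit 732188), .ofNat (nat_lit 820054), .ofNat (nat_lit 754141), .ofNat (nat_lit 842007)⟩, ⟨.ofNat (nat_lit 0), .ofNat (nat_lit 134114), .ofNat (nat_lit 0), .ofNat (nat_lit 177851), .ofNat (nat_lit 0), .ofNat (nat_lit 136093), .ofNat (nat_lit 0), .ofNat (nat_lit 179999)⟩⟩, [⟨nat_lit 13, nat_lit 70, nat_lit 56, nat_lit 100, nat_lit 179930957⟩, ⟨nat_lit 10, nat_lit 100, nat_lit 58, nat_lit 64, nat_lit 4316736⟩]⟩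
noncomputable def p081_l43 : Lf2 := ⟨nat_lit 0, nat_lit 10, [nat_lit 0, nat_lit 5, nat_lit 5, nat_lit 20], false, nat_lit 0, nat_lit 80, nat_lit 0, nat_lit 260, ⟨nat_lit 61, nat_lit 939, nat_lit 0, nat_lit 8, nat_lit 312, nat_lit 939, nat_lit 32, nat_lit 0, nat_lit 0, nat_lit 0, nat_lit 0, nat_lit 0, nat_lit 41619453, nat_lit 25380547, nat_lit 0, nat_lit 3317402, true, true⟩,
 nat_lit 0, nat_lit 0, nat_lit 1095, nat_lit 0, nat_lit 2618, nat_lit 579, nat_lit 205, nat_lit 0, nat_lit 0, nat_lit 62, nat_lit 0, nat_lit 0, nat_lit 0, nat_lit 0, nat_lit 0, nat_lit 375600, nat_lit 0, nat_lit 0, [(nat_lit 21, [(nat_lit 1, nat_lit 939)])],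
 ⟨p081_k18, nat_lit 0, nat_lit 0, nat_lit 156, nat_lit 0, nat_lit 0, [nat_lit 1396484800, nat_lit 1682949200], [], [nat_lit 26348440098, nat_lit 26786115634, nat_lit 28508720607, nat_lit 28902244284, nat_lit 25698490200, nat_lit 26113410858, nat_lit 27751068502, nat_lit 28121569497], nat_lit 0, nat_lit 0, nat_lit 0, nat_lit 0, nat_lit 0, nat_lit 0, [], [nat_lit 24, nat_lit 40, nat_lit 40, nat_lit 80, nat_lit 33, nat_lit 226, nat_lit 20, nat_lit 9]⟩, ⟨p081_k13, nat_lit 0, nat_lit 0, nat_lit 1240, nat_lit 0, nat_lit 2226848, [nat_lit 285968000, nat_lit 486048000, nat_lit 724192000], [], [nat_lit 2451518996, nat_lit 2437945468, nat_lit 2448644886, nat_lit 2433377531, nat_lit 1986011510, nat_lit 1969270521, nat_lit 1970675247, nat_lit 1952610379], nat_lit 1271250, nat_lit 1271250, nat_lit 1271250, nat_lit 1271250, nat_lit 0, nat_lit 1836250, [nat_lit 1100000, nat_lit 1785000, nat_lit 1271250], [nat_lit 21, nat_lit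 40, nat_lit 40, nat_lit 80, nat_lit 14, nat_lit 422, nat_lit 150, nat_lit 10]⟩,
 ⟨nat_lit 3162, nat_lit 3536, ⟨.ofNat (nat_lit 732188), .ofNat (nat_lit 813778), .ofNat (nat_lit 754141), .ofNat (nat_lit 835730), .ofNat (nat_lit 727168), .ofNat (nat_lit 806408), .ofNat (nat_lit 749323), .ofNat (nat_lit 828563)⟩, ⟨.ofNat (nat_lit 0), .ofNat (nat_lit 136093), .ofNat (nat_lit 0), .ofNat (nat_lit 179999), .ofNat (nat_lit 0), .ofNat (nat_lit 139899), .ofNat (nat_lit 0), .ofNat (nat_lit 184209)⟩⟩, [⟨nat_lit 13, nat_lit 65, nat_lit 61, nat_lit 100, nat_lit 227721090⟩, ⟨nat_lit 3, nat_lit 100, nat_lit 75, nat_lit 35, nat_lit 25642468⟩, ⟨nat_lit 22, nat_lit 73, nat_lit 100, nat_lit 47, nat_lit 3195661⟩]⟩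
noncomputable def p081_l44 : Lf2 := ⟨nat_lit 0, nat_lit 10, [nat_lit 0, nat_lit 5, nat_lit 5, nat_lit 20], false, nat_lit 0, nat_lit 80, nat_lit 0, nat_lit 260, ⟨nat_lit 202, nat_lit 798, nat_lit 0, nat_lit 8, nat_lit 333, nat_lit 798, nat_lit 29, nat_lit 0, nat_lit 0, nat_lit 0, nat_lit 0, nat_lit 0, nat_lit 39592867, nat_lit 27407133, nat_lit 0, nat_lit 3382575, true, true⟩,
 nat_lit 0, nat_lit 0, nat_lit 2492, nat_lit 0, nat_lit 3359, nat_lit 1450, nat_lit 0, nat_lit 0, nat_lit 0, nat_lit 289, nat_lit 0, nat_lit 0, nat_lit 0, nat_lit 0, nat_lit 0, nat_lit 649800, nat_lit 0, nat_lit 0, [(nat_lit 18, [(nat_lit 1, nat_lit 247), (nat_lit 2, nat_lit 551)])],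
 ⟨p081_k10, nat_lit 0, nat_lit 0, nat_lit 171, nat_lit 0, nat_lit 0, [nat_lit 1693531467, nat_lit 2008721334, nat_lit 1502614400], [], [nat_lit 26774087741, nat_lit 27225792082, nat_lit 30122450286, nat_lit 30638941716, nat_lit 25670828641, nat_lit 26098287157, nat_lit 28839612721, nat_lit 29199647786], nat_lit 0, nat_lit 0, nat_lit 0, nat_lit 0, nat_lit 0, nat_lit 0, [], [nat_lit 6, nat_lit 40, nat_lit 40, nat_lit 80, nat_lit 3, nat_lit 226, nat_lit 20, nat_lit 7]⟩, ⟨p081_k19, nat_lit 0, nat_lit 0, nat_lit 846, nat_lit 0, nat_lit 1473750, [nat_lit 946976000, nat_lit 1609536000, nat_lit 1988084000], [], [nat_lit 7240969564, nat_lit 7254006330, nat_lit 7507870546, nat_lit 7531286600, nat_lit 6433761139, nat_lit 6436959753, nat_lit 6623241629, nat_lit 6624194772], nat_lit 1271250, nat_lit 1271250, nat_lit 1271250, nat_lit 1271250, nat_lit 0, nat_lit 1836250, [nat_lit 1100000, nat_lit 1785000, nat_lit 1271250], [nat_lit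 29, nat_lit 40, nat_lit 40, nat_lit 80, nat_lit 17, nat_lit 373, nat_lit 150, nat_lit 10]⟩,
 ⟨nat_lit 4183, nat_lit 4473, ⟨.ofNat (nat_lit 768624), .ofNat (nat_lit 890987), .ofNat (nat_lit 779405), .ofNat (nat_lit 901768), .ofNat (nat_lit 763757), .ofNat (nat_lit 883019), .ofNat (nat_lit 774589), .ofNat (nat_lit 893851)⟩, ⟨.negSucc (nat_lit 12423), .ofNat (nat_lit 123532), .ofNat (nat_lit 0), .ofNat (nat_lit 166665), .negSucc (nat_lit 4612), .ofNat (nat_lit 127898), .ofNat (nat_lit 0), .ofNat (nat_lit 171231)⟩⟩, [⟨nat_lit 13, nat_lit 83, nat_lit 36, nat_lit 100, nat_lit 78758149⟩, ⟨nat_lit 10, nat_lit 100, nat_lit 58, nat_lit 64, nat_lit 47027144⟩]⟩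
noncomputable def p081_l45 : Lf2 := ⟨nat_lit 0, nat_lit 10, [nat_lit 0, nat_lit 5, nat_lit 5, nat_lit 20], false, nat_lit 0, nat_lit 80, nat_lit 0, nat_lit 260, ⟨nat_lit 163, nat_lit 837, nat_lit 0, nat_lit 8, nat_lit 329, nat_lit 837, nat_lit 30, nat_lit 0, nat_lit 0, nat_lit 0, nat_lit 0, nat_lit 0, nat_lit 39969415, nat_lit 27030585, nat_lit 0, nat_lit 3371911, true, true⟩,
 nat_lit 0, nat_lit 0, nat_lit 2054, nat_lit 0, nat_lit 3328, nat_lit 1195, nat_lit 211, nat_lit 0, nat_lit 0, nat_lit 225, nat_lit 0, nat_lit 0, nat_lit 0, nat_lit 0, nat_lit 0, nat_lit 334800, nat_lit 0, nat_lit 0, [(nat_lit 18, [(nat_lit 1, nat_lit 837)])],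
 ⟨p081_k20, nat_lit 0, nat_lit 0, nat_lit 172, nat_lit 0, nat_lit 0, [nat_lit 1501453601, nat_lit 2410244000, nat_lit 2659939600], [], [nat_lit 27359628828, nat_lit 27809773900, nat_lit 30434746746, nat_lit 30818809733, nat_lit 26253237228, nat_lit 26679265900, nat_lit 29165719276, nat_lit 29532718491], nat_lit 0, nat_lit 0, nat_lit 0, nat_lit 0, nat_lit 0, nat_lit 0, [], [nat_lit 6, nat_lit 40, nat_lit 40, nat_lit 80, nat_lit 3, nat_lit 226, nat_lit 20, nat_lit 7]⟩, ⟨p081_k19, nat_lit 0, nat_lit 0, nat_lit 915, nat_lit 0, nat_lit 1641249, [nat_lit 764144000, nat_lit 1298784000, nat_lit 1604246000], [], [nat_lit 5866644052, nat_lit 5872684320, nat_lit 6028062786, nat_lit 6055479171, nat_lit 5176683179, nat_lit 5175453171, nat_lit 5271215684, nat_lit 5266649581], nat_lit 1271250, nat_lit 1271250, nat_lit 1271250, nat_lit 1271250, nat_lit 0, nat_lit 1836250, [nat_lit 1100000, nat_lit 1785000, nat_lit 1271250], [nat_lit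 29, nat_lit 40, nat_lit 40, nat_lit 80, nat_lit 17, nat_lit 373, nat_lit 150, nat_lit 10]⟩,
 ⟨nat_lit 3872, nat_lit 4184, ⟨.ofNat (nat_lit 763761), .ofNat (nat_lit 876399), .ofNat (nat_lit 774592), .ofNat (nat_lit 887231), .ofNat (nat_lit 758939), .ofNat (nat_lit 868629), .ofNat (nat_lit 769833), .ofNat (nat_lit 879524)⟩, ⟨.negSucc (nat_lit 4619), .ofNat (nat_lit 127898), .ofNat (nat_lit 0), .ofNat (nat_lit 171231), .ofNat (nat_lit 0), .ofNat (nat_lit 132088), .ofNat (nat_lit 0), .ofNat (nat_lit 175674)⟩⟩, [⟨nat_lit 13, nat_lit 78, nat_lit 42, nat_lit 100, nat_lit 106677767⟩, ⟨nat_lit 10, nat_lit 100, nat_lit 58, nat_lit 64, nat_lit 35746942⟩]⟩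
noncomputable def p081_l46 : Lf2 := ⟨nat_lit 0, nat_lit 10, [nat_lit 0, nat_lit 5, nat_lit 5, nat_lit 20], false, nat_lit 0, nat_lit 80, nat_lit 0, nat_lit 260, ⟨nat_lit 234, nat_lit 766, nat_lit 0, nat_lit 8, nat_lit 338, nat_lit 766, nat_lit 29, nat_lit 0, nat_lit 0, nat_lit 0, nat_lit 0, nat_lit 0, nat_lit 39044504, nat_lit 27955496, nat_lit 0, nat_lit 3396937, true, true⟩,
 nat_lit 0, nat_lit 0, nat_lit 2682, nat_lit 0, nat_lit 3364, nat_lit 1633, nat_lit 0, nat_lit 0, nat_lit 0, nat_lit 264, nat_lit 0, nat_lit 0, nat_lit 0, nat_lit 0, nat_lit 0, nat_lit 729400, nat_lit 0, nat_lit 0, [(nat_lit 18, [(nat_lit 1, nat_lit 61), (nat_lit 2, nat_lit 705)])],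
 ⟨p081_k10, nat_lit 0, nat_lit 0, nat_lit 172, nat_lit 0, nat_lit 0, [nat_lit 1760590134, nat_lit 1953918667, nat_lit 1269652800], [], [nat_lit 26546627441, nat_lit 26998583277, nat_lit 30400639626, nat_lit 30930422090, nat_lit 25439983841, nat_lit 25867672977, nat_lit 28962014617, nat_lit 29338177569], nat_lit 0, nat_lit 0, nat_lit 0, nat_lit 0, nat_lit 0, nat_lit 0, [], [nat_lit 6, nat_lit 40, nat_lit 40, nat_lit 80, nat_lit 3, nat_lit 226, nat_lit 20, nat_lit 7]⟩, ⟨p081_k21, nat_lit 0, nat_lit 0, nat_lit 834, nat_lit 0, nat_lit 1458387, [nat_lit 1096992000, nat_lit 1864512000, nat_lit 2303028000], [], [nat_lit 8500733587, nat_lit 8521562096, nat_lit 8860271857, nat_lit 8872626393, nat_lit 7716780622, nat_lit 7724756311, nat_lit 7948688243, nat_lit 7950351326], nat_lit 1271250, nat_lit 1271250, nat_lit 1271250, nat_lit 1271250, nat_lit 0, nat_lit 1836250, [nat_lit 1100000, nat_lit 1785000, nat_lit 1271250], [nat_lit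 29, nat_lit 40, nat_lit 40, nat_lit 80, nat_lit 17, nat_lit 373, nat_lit 150, nat_lit 10]⟩,
 ⟨nat_lit 4183, nat_lit 4473, ⟨.ofNat (nat_lit 779405), .ofNat (nat_lit 908566), .ofNat (nat_lit 790187), .ofNat (nat_lit 919347), .ofNat (nat_lit 774589), .ofNat (nat_lit 900477), .ofNat (nat_lit 785420), .ofNat (nat_lit 911307)⟩, ⟨.negSucc (nat_lit 12423), .ofNat (nat_lit 123532), .ofNat (nat_lit 0), .ofNat (nat_lit 166665), .negSucc (nat_lit 4612), .ofNat (nat_lit 127898), .ofNat (nat_lit 0), .ofNat (nat_lit 171231)⟩⟩, [⟨nat_lit 13, nat_lit 84, nat_lit 31, nat_lit 100, nat_lit 72858993⟩, ⟨nat_lit 10, nat_lit 100, nat_lit 58, nat_lit 64, nat_lit 59698763⟩]⟩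
noncomputable def p081_l47 : Lf2 := ⟨nat_lit 0, nat_lit 10, [nat_lit 0, nat_lit 5, nat_lit 5, nat_lit 20], false, nat_lit 0, nat_lit 80, nat_lit 0, nat_lit 260, ⟨nat_lit 173, nat_lit 827, nat_lit 0, nat_lit 8, nat_lit 335, nat_lit 827, nat_lit 30, nat_lit 0, nat_lit 0, nat_lit 0, nat_lit 0, nat_lit 0, nat_lit 39418133, nat_lit 27581867, nat_lit 0, nat_lit 3387301, true, true⟩,
 nat_lit 0, nat_lit 0, nat_lit 2007, nat_lit 0, nat_lit 3336, nat_lit 1222, nat_lit 211, nat_lit 0, nat_lit 0, nat_lit 188, nat_lit 0, nat_lit 0, nat_lit 0, nat_lit 0, nat_lit 0, nat_lit 330800, nat_lit 0, nat_lit 0, [(nat_lit 18, [(nat_lit 1, nat_lit 827)])],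
 ⟨p081_k20, nat_lit 0, nat_lit 0, nat_lit 173, nat_lit 0, nat_lit 0, [nat_lit 1507792267, nat_lit 2437457334, nat_lit 2702831600], [], [nat_lit 27425667700, nat_lit 27876215164, nat_lit 30691666457, nat_lit 31110421911, nat_lit 26313827500, nat_lit 26740225164, nat_lit 29407013261, nat_lit 29765980365], nat_lit 0, nat_lit 0, nat_lit 0, nat_lit 0, nat_lit 0, nat_lit 0, [], [nat_lit 6, nat_lit 40, nat_lit 40, nat_lit 80, nat_lit 3, nat_lit 226, nat_lit 20, nat_lit 7]⟩, ⟨p081_k21, nat_lit 0, nat_lit 0, nat_lit 900, nat_lit 0, nat_lit 1611232, [nat_lit 811024000, nat_lit 1378464000, nat_lit 1702666000], [], [nat_lit 6286820077, nat_lit 6297775048, nat_lit 6499683142, nat_lit 6505277913, nat_lit 5640283713, nat_lit 5642757574, nat_lit 5772661540, nat_lit 5771108293], nat_lit 1271250, nat_lit 1271250, nat_lit 1271250, nat_lit 1271250, nat_lit 0, nat_lit 1836250, [nat_lit 1100000, nat_lit 1785000, nat_lit 1271250], [nat_lit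 29, nat_lit 40, nat_lit 40, nat_lit 80, nat_lit 17, nat_lit 373, nat_lit 150, nat_lit 10]⟩,
 ⟨nat_lit 3872, nat_lit 4184, ⟨.ofNat (nat_lit 774592), .ofNat (nat_lit 893857), .ofNat (nat_lit 785423), .ofNat (nat_lit 904688), .ofNat (nat_lit 769833), .ofNat (nat_lit 885976), .ofNat (nat_lit 780727), .ofNat (nat_lit 896871)⟩, ⟨.negSucc (nat_lit 4619), .ofNat (nat_lit 127898), .ofNat (nat_lit 0), .ofNat (nat_lit 171231), .ofNat (nat_lit 0), .ofNat (nat_lit 132088), .ofNat (nat_lit 0), .ofNat (nat_lit 175674)⟩⟩, [⟨nat_lit 13, nat_lit 80, nat_lit 38, nat_lit 100, nat_lit 97975347⟩, ⟨nat_lit 10, nat_lit 100, nat_lit 58, nat_lit 64, nat_lit 41485461⟩]⟩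
noncomputable def p081_l48 : Lf2 := ⟨nat_lit 0, nat_lit 10, [nat_lit 0, nat_lit 5, nat_lit 5, nat_lit 20], false, nat_lit 0, nat_lit 80, nat_lit 0, nat_lit 260, ⟨nat_lit 122, nat_lit 878, nat_lit 0, nat_lit 8, nat_lit 325, nat_lit 878, nat_lit 31, nat_lit 0, nat_lit 0, nat_lit 0, nat_lit 0, nat_lit 0, nat_lit 40340965, nat_lit 26659035, nat_lit 0, nat_lit 3360746, true, true⟩,
 nat_lit 0, nat_lit 0, nat_lit 1596, nat_lit 0, nat_lit 2866, nat_lit 928, nat_lit 223, nat_lit 0, nat_lit 0, nat_lit 124, nat_lit 0, nat_lit 0, nat_lit 0, nat_lit 0, nat_lit 0, nat_lit 351200, nat_lit 0, nat_lit 0, [(nat_lit 21, [(nat_lit 1, nat_lit 878)])],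
 ⟨p081_k16, nat_lit 0, nat_lit 0, nat_lit 173, nat_lit 0, nat_lit 0, [nat_lit 1437769600, nat_lit 1882614400, nat_lit 2072476000], [], [nat_lit 26653307828, nat_lit 27080214762, nat_lit 29331029565, nat_lit 29791252343, nat_lit 25839385328, nat_lit 26244104712, nat_lit 28381472308, nat_lit 28732817763], nat_lit 0, nat_lit 0, nat_lit 0, nat_lit 0, nat_lit 0, nat_lit 0, [], [nat_lit 6, nat_lit 40, nat_lit 40, nat_lit 80, nat_lit 3, nat_lit 226, nat_lit 20, nat_lit 7]⟩, ⟨p081_k19, nat_lit 0, nat_lit 0, nat_lit 997, nat_lit 0, nat_lit 1816846, [nat_lit 571936000, nat_lit 972096000, nat_lit 1200724000], [], [nat_lit 4458686320, nat_lit 4459922448, nat_lit 4546973505, nat_lit 4569814546, nat_lit 3899456562, nat_lit 3895850337, nat_lit 3944197810, nat_lit 3938493526], nat_lit 1271250, nat_lit 1271250, nat_lit 1271250, nat_lit 1271250, nat_lit 0, nat_lit 1836250, [nat_lit 1100000, nat_lit 1785000, nat_lit 1271250], [nat_lit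 29, nat_lit 40, nat_lit 40, nat_lit 80, nat_lit 17, nat_lit 373, nat_lit 150, nat_lit 10]⟩,
 ⟨nat_lit 3535, nat_lit 3873, ⟨.ofNat (nat_lit 758942), .ofNat (nat_lit 862178), .ofNat (nat_lit 769837), .ofNat (nat_lit 873074), .ofNat (nat_lit 754140), .ofNat (nat_lit 854559), .ofNat (nat_lit 765114), .ofNat (nat_lit 865535)⟩, ⟨.ofNat (nat_lit 0), .ofNat (nat_lit 132088), .ofNat (nat_lit 0), .ofNat (nat_lit 175674), .ofNat (nat_lit 0), .ofNat (nat_lit 136093), .ofNat (nat_lit 0), .ofNat (nat_lit 179999)⟩⟩, [⟨nat_lit 13, nat_lit 73, nat_lit 49, nat_lit 100, nat_lit 133670154⟩, ⟨nat_lit 10, nat_lit 100, nat_lit 58, nat_lit 64, nat_lit 21742034⟩]⟩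
noncomputable def p081_l49 : Lf2 := ⟨nat_lit 0, nat_lit 10, [nat_lit 0, nat_lit 5, nat_lit 5, nat_lit 20], false, nat_lit 0, nat_lit 80, nat_lit 0, nat_lit 260, ⟨nat_lit 134, nat_lit 866, nat_lit 0, nat_lit 8, nat_lit 331, nat_lit 866, nat_lit 31, nat_lit 0, nat_lit 0, nat_lit 0, nat_lit 0, nat_lit 0, nat_lit 39786357, nat_lit 27213643, nat_lit 0, nat_lit 3377177, true, true⟩,
 nat_lit 0, nat_lit 0, nat_lit 1614, nat_lit 0, nat_lit 2966, nat_lit 982, nat_lit 182, nat_lit 0, nat_lit 0, nat_lit 103, nat_lit 0, nat_lit 0, nat_lit 0, nat_lit 0, nat_lit 0, nat_lit 346400, nat_lit 0, nat_lit 0, [(nat_lit 21, [(nat_lit 1, nat_lit 866)])],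
 ⟨p081_k16, nat_lit 0, nat_lit 0, nat_lit 174, nat_lit 0, nat_lit 0, [nat_lit 1445891201, nat_lit 1920956801, nat_lit 2129572000], [], [nat_lit 26968033630, nat_lit 27399970464, nat_lit 29853079842, nat_lit 30322991144, nat_lit 26085586130, nat_lit 26494917914, nat_lit 28823469720, nat_lit 29174125763], nat_lit 0, nat_lit 0, nat_lit 0, nat_lit 0, nat_lit 0, nat_lit 0, [], [nat_lit 6, nat_lit 40, nat_lit 40, nat_lit 80, nat_lit 3, nat_lit 226, nat_lit 20, nat_lit 7]⟩, ⟨p081_k21, nat_lit 0, nat_lit 0, nat_lit 971, nat_lit 0, nat_lit 1771495, [nat_lit 628192000, nat_lit 1067712000, nat_lit 1318828000], [], [nat_lit 4973136134, nat_lit 4977768288, nat_lit 5095716135, nat_lit 5096893784, nat_lit 4423087699, nat_lit 4421891380, nat_lit 4493425996, nat_lit 4489608005], nat_lit 1271250, nat_lit 1271250, nat_lit 1271250, nat_lit 1271250, nat_lit 0, nat_lit 1836250, [nat_lit 1100000, nat_lit 1785000, nat_lit 1271250], [nat_lit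 29, nat_lit 40, nat_lit 40, nat_lit 80, nat_lit 17, nat_lit 373, nat_lit 150, nat_lit 10]⟩,
 ⟨nat_lit 3535, nat_lit 3873, ⟨.ofNat (nat_lit 769837), .ofNat (nat_lit 879526), .ofNat (nat_lit 780730), .ofNat (nat_lit 890423), .ofNat (nat_lit 765114), .ofNat (nat_lit 871811), .ofNat (nat_lit 776087), .ofNat (nat_lit 882788)⟩, ⟨.ofNat (nat_lit 0), .ofNat (nat_lit 132088), .ofNat (nat_lit 0), .ofNat (nat_lit 175674), .ofNat (nat_lit 0), .ofNat (nat_lit 136093), .ofNat (nat_lit 0), .ofNat (nat_lit 179999)⟩⟩, [⟨nat_lit 13, nat_lit 74, nat_lit 45, nat_lit 100, nat_lit 123838376⟩, ⟨nat_lit 10, nat_lit 100, nat_lit 58, nat_lit 64, nat_lit 29883202⟩]⟩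
noncomputable def p081_l50 : Lf2 := ⟨nat_lit 0, nat_lit 10, [nat_lit 0, nat_lit 5, nat_lit 5, nat_lit 20], false, nat_lit 0, nat_lit 80, nat_lit 0, nat_lit 260, ⟨nat_lit 113, nat_lit 887, nat_lit 0, nat_lit 8, nat_lit 321, nat_lit 887, nat_lit 32, nat_lit 0, nat_lit 0, nat_lit 0, nat_lit 0, nat_lit 0, nat_lit 40708824, nat_lit 26291176, nat_lit 0, nat_lit 3349059, true, true⟩,
 nat_lit 0, nat_lit 0, nat_lit 1498, nat_lit 0, nat_lit 2921, nat_lit 871, nat_lit 90, nat_lit 0, nat_lit 0, nat_lit 113, nat_lit 0, nat_lit 0, nat_lit 0, nat_lit 0, nat_lit 0, nat_lit 354800, nat_lit 0, nat_lit 0, [(nat_lit 21, [(nat_lit 1, nat_lit 887)])],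
 ⟨p081_k18, nat_lit 0, nat_lit 0, nat_lit 160, nat_lit 0, nat_lit 0, [nat_lit 1431678401, nat_lit 1846052000], [], [nat_lit 27224942357, nat_lit 27679541049, nat_lit 29826388429, nat_lit 30229486122, nat_lit 26365328276, nat_lit 26795787077, nat_lit 28900664968, nat_lit 29288695279], nat_lit 0, nat_lit 0, nat_lit 0, nat_lit 0, nat_lit 0, nat_lit 0, [], [nat_lit 24, nat_lit 40, nat_lit 40, nat_lit 80, nat_lit 33, nat_lit 226, nat_lit 20, nat_lit 9]⟩, ⟨p081_k19, nat_lit 0, nat_lit 0, nat_lit 1075, nat_lit 0, nat_lit 2000425, [nat_lit 529744000, nat_lit 900384000, nat_lit 1112146000], [], [nat_lit 4128860878, nat_lit 4127570953, nat_lit 4183464598, nat_lit 4198231645, nat_lit 3592347402, nat_lit 3587124282, nat_lit 3615057682, nat_lit 3608231338], nat_lit 1271250, nat_lit 1271250, nat_lit 1271250, nat_lit 1271250, nat_lit 0, nat_lit 1836250, [nat_lit 1100000, nat_lit 1785000, nat_lit 1271250], [nat_lit 29, nat_lit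 40, nat_lit 40, nat_lit 80, nat_lit 17, nat_lit 383, nat_lit 150, nat_lit 10]⟩,
 ⟨nat_lit 3162, nat_lit 3536, ⟨.ofNat (nat_lit 754141), .ofNat (nat_lit 848283), .ofNat (nat_lit 765117), .ofNat (nat_lit 859259), .ofNat (nat_lit 749323), .ofNat (nat_lit 840753), .ofNat (nat_lit 760401), .ofNat (nat_lit 851831)⟩, ⟨.ofNat (nat_lit 0), .ofNat (nat_lit 136093), .ofNat (nat_lit 0), .ofNat (nat_lit 179999), .ofNat (nat_lit 0), .ofNat (nat_lit 139899), .ofNat (nat_lit 0), .ofNat (nat_lit 184209)⟩⟩, [⟨nat_lit 13, nat_lit 67, nat_lit 56, nat_lit 100, nat_lit 182854176⟩, ⟨nat_lit 10, nat_lit 100, nat_lit 58, nat_lit 64, nat_lit 19783801⟩]⟩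
noncomputable def p081_l51 : Lf2 := ⟨nat_lit 0, nat_lit 10, [nat_lit 0, nat_lit 5, nat_lit 5, nat_lit 20], false, nat_lit 0, nat_lit 80, nat_lit 0, nat_lit 260, ⟨nat_lit 120, nat_lit 880, nat_lit 0, nat_lit 8, nat_lit 327, nat_lit 880, nat_lit 32, nat_lit 0, nat_lit 0, nat_lit 0, nat_lit 0, nat_lit 0, nat_lit 40150339, nat_lit 26849661, nat_lit 0, nat_lit 3366554, true, true⟩,
 nat_lit 0, nat_lit 0, nat_lit 1477, nat_lit 0, nat_lit 2922, nat_lit 899, nat_lit 88, nat_lit 0, nat_lit 0, nat_lit 93, nat_lit 0, nat_lit 0, nat_lit 0, nat_lit 0, nat_lit 0, nat_lit 352000, nat_lit 0, nat_lit 0, [(nat_lit 21, [(nat_lit 1, nat_lit 880)])],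
 ⟨p081_k18, nat_lit 0, nat_lit 0, nat_lit 161, nat_lit 0, nat_lit 0, [nat_lit 1436416000, nat_lit 1868480000], [], [nat_lit 27288338792, nat_lit 27742993336, nat_lit 30070870321, nat_lit 30472707288, nat_lit 26428032750, nat_lit 26858542832, nat_lit 29119872250, nat_lit 29504156896], nat_lit 0, nat_lit 0, nat_lit 0, nat_lit 0, nat_lit 0, nat_lit 0, [], [nat_lit 24, nat_lit 40, nat_lit 40, nat_lit 80, nat_lit 33, nat_lit 226, nat_lit 20, nat_lit 9]⟩, ⟨p081_k21, nat_lit 0, nat_lit 0, nat_lit 1046, nat_lit 0, nat_lit 1939066, [nat_lit 562560000, nat_lit 956160000, nat_lit 1181040000], [], [nat_lit 4413656001, nat_lit 4414844968, nat_lit 4491889232, nat_lit 4510397164, nat_lit 3890833386, nat_lit 3887429827, nat_lit 3930310459, nat_lit 3924955337], nat_lit 1271250, nat_lit 1271250, nat_lit 1271250, nat_lit 1271250, nat_lit 0, nat_lit 1836250, [nat_lit 1100000, nat_lit 1785000, nat_lit 1271250], [nat_lit 29, nat_lit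 40, nat_lit 40, nat_lit 80, nat_lit 17, nat_lit 377, nat_lit 150, nat_lit 10]⟩,
 ⟨nat_lit 3162, nat_lit 3536, ⟨.ofNat (nat_lit 765117), .ofNat (nat_lit 865535), .ofNat (nat_lit 776092), .ofNat (nat_lit 876512), .ofNat (nat_lit 760401), .ofNat (nat_lit 857926), .ofNat (nat_lit 771477), .ofNat (nat_lit 869004)⟩, ⟨.ofNat (nat_lit 0), .ofNat (nat_lit 136093), .ofNat (nat_lit 0), .ofNat (nat_lit 179999), .ofNat (nat_lit 0), .ofNat (nat_lit 139899), .ofNat (nat_lit 0), .ofNat (nat_lit 184209)⟩⟩, [⟨nat_lit 13, nat_lit 68, nat_lit 52, nat_lit 100, nat_lit 169375703⟩, ⟨nat_lit 10, nat_lit 100, nat_lit 58, nat_lit 64, nat_lit 26080024⟩]⟩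
noncomputable def p081_l52 : Lf2 := ⟨nat_lit 0, nat_lit 10, [nat_lit 0, nat_lit 5, nat_lit 5, nat_lit 20], false, nat_lit 80, nat_lit 160, nat_lit 0, nat_lit 336, ⟨nat_lit 43, nat_lit 957, nat_lit 0, nat_lit 8, nat_lit 322, nat_lit 957, nat_lit 87, nat_lit 0, nat_lit 0, nat_lit 0, nat_lit 0, nat_lit 0, nat_lit 38472725, nat_lit 25324119, nat_lit 3203156, nat_lit 4368473, true, true⟩,
 nat_lit 0, nat_lit 0, nat_lit 742, nat_lit 0, nat_lit 3737, nat_lit 392, nat_lit 0, nat_lit 0, nat_lit 0, nat_lit 25, nat_lit 0, nat_lit 0, nat_lit 0, nat_lit 0, nat_lit 0, nat_lit 386400, nat_lit 0, nat_lit 0, [(nat_lit 18, [(nat_lit 1, nat_lit 951), (nat_lit 2, nat_lit 6)]), (nat_lit 21, [(nat_lit 1, nat_lit 951), (nat_lit 2, nat_lit 6)])],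
 ⟨p081_k10, nat_lit 0, nat_lit 0, nat_lit 126, nat_lit 0, nat_lit 0, [nat_lit 1427212001, nat_lit 2078156001, nat_lit 2130811600], [], [nat_lit 24445398980, nat_lit 26632613664, nat_lit 28499824976, nat_lit 30389268563, nat_lit 24780673540, nat_lit 26767483920, nat_lit 28468237501, nat_lit 30107774464], nat_lit 0, nat_lit 0, nat_lit 0, nat_lit 0, nat_lit 0, nat_lit 0, [], [nat_lit 6, nat_lit 40, nat_lit 40, nat_lit 80, nat_lit 3, nat_lit 249, nat_lit 40, nat_lit 8]⟩, ⟨p081_k13, nat_lit 0, nat_lit 0, nat_lit 1240, nat_lit 0, nat_lit 2226848, [nat_lit 201584000, nat_lit 342624000, nat_lit 510496000], [], [nat_lit 1866043588, nat_lit 1857283354, nat_lit 1867127490, nat_lit 1877889525, nat_lit 1524619266, nat_lit 1512563684, nat_lit 1569661183, nat_lit 1579748814], nat_lit 1271250, nat_lit 1271250, nat_lit 1271250, nat_lit 1271250, nat_lit 0, nat_lit 2373000, [nat_lit 1100000, nat_lit 1785000, nat_lit 1271250], [nat_lit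 21, nat_lit 40, nat_lit 40, nat_lit 80, nat_lit 14, nat_lit 434, nat_lit 150, nat_lit 11]⟩,
 ⟨nat_lit 3162, nat_lit 4473, ⟨.ofNat (nat_lit 747055), .ofNat (nat_lit 869427), .ofNat (nat_lit 768554), .ofNat (nat_lit 890989), .ofNat (nat_lit 727157), .ofNat (nat_lit 836884), .ofNat (nat_lit 749245), .ofNat (nat_lit 859035)⟩, ⟨.ofNat (nat_lit 123532), .ofNat (nat_lit 259488), .ofNat (nat_lit 166665), .ofNat (nat_lit 302621), .ofNat (nat_lit 139899), .ofNat (nat_lit 261805), .ofNat (nat_lit 184209), .ofNat (nat_lit 306116)⟩⟩, [⟨nat_lit 13, nat_lit 74, nat_lit 52, nat_lit 100, nat_lit 243368670⟩, ⟨nat_lit 22, nat_lit 65, nat_lit 100, nat_lit 95, nat_lit 6078827⟩]⟩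
noncomputable def p081_l53 : Lf2 := ⟨nat_lit 0, nat_lit 10, [nat_lit 0, nat_lit 5, nat_lit 5, nat_lit 20], false, nat_lit 80, nat_lit 160, nat_lit 0, nat_lit 320, ⟨nat_lit 56, nat_lit 944, nat_lit 0, nat_lit 8, nat_lit 332, nat_lit 944, nat_lit 87, nat_lit 0, nat_lit 0, nat_lit 0, nat_lit 0, nat_lit 0, nat_lit 37594433, nat_lit 26252334, nat_lit 3153233, nat_lit 4384872, true, true⟩,
 nat_lit 0, nat_lit 0, nat_lit 732, nat_lit 0, nat_lit 4093, nat_lit 426, nat_lit 0, nat_lit 0, nat_lit 0, nat_lit 35, nat_lit 0, nat_lit 0, nat_lit 0, nat_lit 0, nat_lit 0, nat_lit 236000, nat_lit 0, nat_lit 0, [(nat_lit 18, [(nat_lit 0, nat_lit 944)]), (nat_lit 21, [(nat_lit 0, nat_lit 944)])],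
 ⟨p081_k10, nat_lit 0, nat_lit 0, nat_lit 128, nat_lit 0, nat_lit 0, [nat_lit 1584921601, nat_lit 2309120001, nat_lit 2768528000], [], [nat_lit 24985834820, nat_lit 27263591696, nat_lit 29456550110, nat_lit 31334389451, nat_lit 25199670660, nat_lit 27263996480, nat_lit 29257395558, nat_lit 30929520379], nat_lit 0, nat_lit 0, nat_lit 0, nat_lit 0, nat_lit 0, nat_lit 0, [], [nat_lit 6, nat_lit 40, nat_lit 40, nat_lit 80, nat_lit 3, nat_lit 249, nat_lit 40, nat_lit 8]⟩, ⟨p081_k19, nat_lit 0, nat_lit 0, nat_lit 1107, nat_lit 0, nat_lit 2071242, [nat_lit 262528000, nat_lit 446208000, nat_lit 551152000], [], [nat_lit 2199292124, nat_lit 2198231336, nat_lit 2256942935, nat_lit 2273267474, nat_lit 1929212356, nat_lit 1922967088, nat_lit 1964321156, nat_lit 1969144692], nat_lit 1271250, nat_lit 1271250, nat_lit 1271250, nat_lit 1271250, nat_lit 0, nat_lit 2260000, [nat_lit 1100000, nat_lit 1785000, nat_lit 1271250], [nat_lit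 29, nat_lit 40, nat_lit 40, nat_lit 80, nat_lit 17, nat_lit 402, nat_lit 150, nat_lit 11]⟩,
 ⟨nat_lit 3162, nat_lit 4473, ⟨.ofNat (nat_lit 768554), .ofNat (nat_lit 897791), .ofNat (nat_lit 790054), .ofNat (nat_lit 919290), .ofNat (nat_lit 749245), .ofNat (nat_lit 865135), .ofNat (nat_lit 771333), .ofNat (nat_lit 887222)⟩, ⟨.ofNat (nat_lit 123532), .ofNat (nat_lit 259488), .ofNat (nat_lit 166665), .ofNat (nat_lit 302621), .ofNat (nat_lit 139899), .ofNat (nat_lit 261805), .ofNat (nat_lit 184209), .ofNat (nat_lit 306116)⟩⟩, [⟨nat_lit 13, nat_lit 76, nat_lit 43, nat_lit 100, nat_lit 249154344⟩, ⟨nat_lit 22, nat_lit 63, nat_lit 100, nat_lit 95, nat_lit 9230809⟩]⟩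
noncomputable def b_V_800_600_10_2 : St := ⟨true, nat_lit 0, nat_lit 1, nat_lit 1, nat_lit 80, nat_lit 320, nat_lit 360, nat_lit 240, nat_lit 280, nat_lit 240, nat_lit 396, nat_lit 40, nat_lit 80, nat_lit 0, nat_lit 160, nat_lit 0, nat_lit 336, nat_lit 0, nat_lit 40, nat_lit 0, nat_lit 0, nat_lit 0, nat_lit 0⟩
theorem d_V_800_600_10_2 (h : EB TB.env) : Dead b_V_800_600_10_2 := chkB_sound0 h (T :=
(.spl (nat_lit 2) (nat_lit 320)
(.spl (nat_lit 2) (nat_lit 280)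
(.spl (nat_lit 0) (nat_lit 340)
(.leaf p081_l32)
(.leaf p081_l33))
(.spl (nat_lit 4) (nat_lit 80)
(.trX (nat_lit 22) (nat_lit 100) (nat_lit 95) (nat_lit 87) (nat_lit 300) (.spl (nat_lit 1) (nat_lit 260)
(.leaf p081_l34)
(.leaf p081_l35)))
(.leaf p081_l36)))
(.spl (nat_lit 4) (nat_lit 80)
(.trX (nat_lit 22) (nat_lit 83) (nat_lit 100) (nat_lit 83) (nat_lit 260) (.spl (nat_lit 1) (nat_lit 260)
(.trX (nat_lit 13) (nat_lit 84) (nat_lit 35) (nat_lit 100) (nat_lit 392) (.spl (nat_lit 0) (nat_lit 340)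
(.spl (nat_lit 1) (nat_lit 250)
(.trX (nat_lit 13) (nat_lit 83) (nat_lit 39) (nat_lit 100) (nat_lit 388) (.spl (nat_lit 2) (nat_lit 360)
(.leaf p081_l37)
(.trX (nat_lit 22) (nat_lit 60) (nat_lit 100) (nat_lit 80) (nat_lit 200) (.leaf p081_l38))))
(.spl (nat_lit 1) (nat_lit 255)
(.trX (nat_lit 13) (nat_lit 83) (nat_lit 37) (nat_lit 100) (nat_lit 388) (.leaf p081_l39))
(.leaf p081_l40)))
(.trX (nat_lit 13) (nat_lit 75) (nat_lit 48) (nat_lit 100) (nat_lit 380) (.spl (nat_lit 0) (nat_lit 350)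
(.spl (nat_lit 0) (nat_lit 345)
(.leaf p081_l41)
(.trX (nat_lit 13) (nat_lit 72) (nat_lit 51) (nat_lit 100) (nat_lit 376) (.leaf p081_l42)))
(.trX (nat_lit 13) (nat_lit 69) (nat_lit 54) (nat_lit 100) (nat_lit 372) (.leaf p081_l43))))))
(.spl (nat_lit 0) (nat_lit 340)
(.spl (nat_lit 1) (nat_lit 270)
(.trX (nat_lit 13) (nat_lit 85) (nat_lit 30) (nat_lit 100) (nat_lit 392) (.spl (nat_lit 0) (nat_lit 330)
(.leaf p081_l44)
(.trX (nat_lit 13) (nat_lit 81) (nat_lit 37) (nat_lit 100) (nat_lit 388) (.leaf p081_l45))))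
(.spl (nat_lit 0) (nat_lit 330)
(.leaf p081_l46)
(.trX (nat_lit 13) (nat_lit 83) (nat_lit 32) (nat_lit 100) (nat_lit 392) (.leaf p081_l47))))
(.trX (nat_lit 13) (nat_lit 78) (nat_lit 39) (nat_lit 100) (nat_lit 388) (.spl (nat_lit 0) (nat_lit 350)
(.spl (nat_lit 1) (nat_lit 270)
(.trX (nat_lit 13) (nat_lit 76) (nat_lit 43) (nat_lit 100) (nat_lit 384) (.leaf p081_l48))
(.leaf p081_l49))
(.trX (nat_lit 13) (nat_lit 72) (nat_lit 46) (nat_lit 100) (nat_lit 384) (.spl (nat_lit 1) (nat_lit 270)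
(.trX (nat_lit 13) (nat_lit 71) (nat_lit 50) (nat_lit 100) (nat_lit 380) (.leaf p081_l50))
(.leaf p081_l51))))))))
(.spl (nat_lit 1) (nat_lit 260)
(.trX (nat_lit 13) (nat_lit 84) (nat_lit 35) (nat_lit 100) (nat_lit 392) (.leaf p081_l52))
(.trX (nat_lit 19) (nat_lit 100) (nat_lit 85) (nat_lit 84) (nat_lit 320) (.leaf p081_l53)))))) (by decide +kernel)
noncomputable def p081_l54 : Lf2 := ⟨nat_lit 0, nat_lit 10, [nat_lit 0, nat_lit 5, nat_lit 5, nat_lit 20], true, nat_lit 160, nat_lit 260, nat_lit 0, nat_lit 336, ⟨nat_lit 0, nat_lit 1000, nat_lit 0, nat_lit 6, nat_lit 278, nat_lit 1000, nat_lit 145, nat_lit 0, nat_lit 0, nat_lit 0, nat_lit 0, nat_lit 0, nat_lit 39768940, nat_lit 20085151, nat_lit 7145909, nat_lit 4869417, true, true⟩,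
 nat_lit 0, nat_lit 0, nat_lit 0, nat_lit 0, nat_lit 3974, nat_lit 0, nat_lit 0, nat_lit 0, nat_lit 0, nat_lit 0, nat_lit 0, nat_lit 0, nat_lit 0, nat_lit 0, nat_lit 0, nat_lit 250000, nat_lit 0, nat_lit 0, [(nat_lit 18, [(nat_lit 0, nat_lit 1000)]), (nat_lit 21, [(nat_lit 0, nat_lit 1000)])],
 ⟨p081_k10, nat_lit 0, nat_lit 0, nat_lit 60, nat_lit 0, nat_lit 0, [nat_lit 1558400000, nat_lit 2168000000, nat_lit 2562000000], [], [nat_lit 20220125632, nat_lit 22825010688, nat_lit 23962185880, nat_lit 26194530456, nat_lit 23239844086, nat_lit 25412203052, nat_lit 26328675988, nat_lit 28431884778], nat_lit 0, nat_lit 0, nat_lit 0, nat_lit 0, nat_lit 0, nat_lit 0, [], [nat_lit 6, nat_lit 40, nat_lit 40, nat_lit 80, nat_lit 3, nat_lit 289, nat_lit 75, nat_lit 9]⟩, C1.Rw.none,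
 ⟨nat_lit 3162, nat_lit 4473, ⟨.ofNat (nat_lit 611007), .ofNat (nat_lit 747055), .ofNat (nat_lit 653959), .ofNat (nat_lit 790054), .ofNat (nat_lit 605159), .ofNat (nat_lit 727157), .ofNat (nat_lit 649288), .ofNat (nat_lit 771333)⟩, ⟨.ofNat (nat_lit 259488), .ofNat (nat_lit 429433), .ofNat (nat_lit 302621), .ofNat (nat_lit 472567), .ofNat (nat_lit 261805), .ofNat (nat_lit 414188), .ofNat (nat_lit 306116), .ofNat (nat_lit 458499)⟩⟩, [⟨nat_lit 16, nat_lit 83, nat_lit 100, nat_lit 83, nat_lit 162575363⟩]⟩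
noncomputable def p081_l55 : Lf2 := ⟨nat_lit 0, nat_lit 10, [nat_lit 0, nat_lit 5, nat_lit 5, nat_lit 20], false, nat_lit 160, nat_lit 260, nat_lit 16, nat_lit 336, ⟨nat_lit 52, nat_lit 948, nat_lit 0, nat_lit 8, nat_lit 319, nat_lit 948, nat_lit 146, nat_lit 0, nat_lit 0, nat_lit 0, nat_lit 0, nat_lit 0, nat_lit 36448601, nat_lit 23773658, nat_lit 6777741, nat_lit 4976160, true, true⟩,
 nat_lit 0, nat_lit 0, nat_lit 890, nat_lit 0, nat_lit 3764, nat_lit 471, nat_lit 0, nat_lit 0, nat_lit 0, nat_lit 36, nat_lit 0, nat_lit 0, nat_lit 0, nat_lit 0, nat_lit 0, nat_lit 237000, nat_lit 0, nat_lit 0, [(nat_lit 18, [(nat_lit 0, nat_lit 948)])],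
 ⟨p081_k10, nat_lit 0, nat_lit 0, nat_lit 67, nat_lit 0, nat_lit 0, [nat_lit 1558758401, nat_lit 2299040001, nat_lit 2753776000], [], [nat_lit 24211325681, nat_lit 25271117713, nat_lit 26330909745, nat_lit 27285483673, nat_lit 26578898969, nat_lit 27471890483, nat_lit 28364881997, nat_lit 29172526853], nat_lit 0, nat_lit 0, nat_lit 0, nat_lit 0, nat_lit 0, nat_lit 0, [], [nat_lit 6, nat_lit 40, nat_lit 40, nat_lit 80, nat_lit 3, nat_lit 289, nat_lit 75, nat_lit 9]⟩, ⟨p081_k13, nat_lit 0, nat_lit 0, nat_lit 1128, nat_lit 0, nat_lit 1978324, [nat_lit 243776000, nat_lit 414336000, nat_lit 617344000], [], [nat_lit 2192103136, nat_lit 2176909168, nat_lit 2198430409, nat_lit 2180595659, nat_lit 1832811112, nat_lit 1807710820, nat_lit 1825474410, nat_lit 1801812434], nat_lit 1271250, nat_lit 1271250, nat_lit 1271250, nat_lit 1271250, nat_lit 88400, nat_lit 2396400, [nat_lit 1100000, nat_lit 1785000, nat_lit 1271250],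 [nat_lit 21, nat_lit 40, nat_lit 40, nat_lit 80, nat_lit 14, nat_lit 404, nat_lit 175, nat_lit 10]⟩,
 ⟨nat_lit 3872, nat_lit 4473, ⟨.ofNat (nat_lit 747053), .ofNat (nat_lit 815035), .ofNat (nat_lit 790153), .ofNat (nat_lit 858139), .ofNat (nat_lit 737137), .ofNat (nat_lit 801662), .ofNat (nat_lit 780691), .ofNat (nat_lit 845220)⟩, ⟨.ofNat (nat_lit 259489), .ofNat (nat_lit 429434), .ofNat (nat_lit 302621), .ofNat (nat_lit 472567), .ofNat (nat_lit 261131), .ofNat (nat_lit 422435), .ofNat (nat_lit 304717), .ofNat (nat_lit 466021)⟩⟩, [⟨nat_lit 16, nat_lit 83, nat_lit 100, nat_lit 83, nat_lit 161051410⟩, ⟨nat_lit 7, nat_lit 92, nat_lit 100, nat_lit 75, nat_lit 5447915⟩]⟩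
noncomputable def p081_l56 : Lf2 := ⟨nat_lit 0, nat_lit 10, [nat_lit 0, nat_lit 5, nat_lit 5, nat_lit 20], true, nat_lit 160, nat_lit 232, nat_lit 16, nat_lit 336, ⟨nat_lit 0, nat_lit 1000, nat_lit 0, nat_lit 8, nat_lit 314, nat_lit 1000, nat_lit 136, nat_lit 0, nat_lit 0, nat_lit 0, nat_lit 0, nat_lit 0, nat_lit 37238358, nat_lit 23589764, nat_lit 6171878, nat_lit 4875387, true, true⟩,
 nat_lit 0, nat_lit 0, nat_lit 0, nat_lit 0, nat_lit 3708, nat_lit 0, nat_lit 0, nat_lit 0, nat_lit 0, nat_lit 0, nat_lit 0, nat_lit 0, nat_lit 0, nat_lit 0, nat_lit 0, nat_lit 250000, nat_lit 0, nat_lit 0, [(nat_lit 21, [(nat_lit 0, nat_lit 1000)])],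
 ⟨p081_k16, nat_lit 0, nat_lit 0, nat_lit 73, nat_lit 0, nat_lit 0, [nat_lit 1558400000, nat_lit 2146000001, nat_lit 2146000000], [], [nat_lit 25142806865, nat_lit 26195834769, nat_lit 27144802985, nat_lit 28130958448, nat_lit 26568260684, nat_lit 27504598037, nat_lit 28351043797, nat_lit 29320407189], nat_lit 0, nat_lit 0, nat_lit 0, nat_lit 0, nat_lit 0, nat_lit 0, [], [nat_lit 6, nat_lit 40, nat_lit 40, nat_lit 80, nat_lit 3, nat_lit 272, nat_lit 60, nat_lit 8]⟩, C1.Rw.none,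
 ⟨nat_lit 3162, nat_lit 3873, ⟨.ofNat (nat_lit 737150), .ofNat (nat_lit 801671), .ofNat (nat_lit 780717), .ofNat (nat_lit 845258), .ofNat (nat_lit 727168), .ofNat (nat_lit 788122), .ofNat (nat_lit 771459), .ofNat (nat_lit 832432)⟩, ⟨.ofNat (nat_lit 261131), .ofNat (nat_lit 377270), .ofNat (nat_lit 304717), .ofNat (nat_lit 420856), .ofNat (nat_lit 261806), .ofNat (nat_lit 371522), .ofNat (nat_lit 306116), .ofNat (nat_lit 415832)⟩⟩, [⟨nat_lit 16, nat_lit 72, nat_lit 100, nat_lit 81, nat_lit 157836118⟩]⟩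
noncomputable def p081_l57 : Lf2 := ⟨nat_lit 0, nat_lit 10, [nat_lit 0, nat_lit 5, nat_lit 5, nat_lit 20], false, nat_lit 160, nat_lit 260, nat_lit 48, nat_lit 336, ⟨nat_lit 50, nat_lit 950, nat_lit 0, nat_lit 9, nat_lit 332, nat_lit 950, nat_lit 145, nat_lit 0, nat_lit 0, nat_lit 0, nat_lit 0, nat_lit 0, nat_lit 35466792, nat_lit 24937401, nat_lit 6595807, nat_lit 4984639, true, true⟩,
 nat_lit 0, nat_lit 0, nat_lit 864, nat_lit 0, nat_lit 4265, nat_lit 457, nat_lit 0, nat_lit 0, nat_lit 0, nat_lit 31, nat_lit 0, nat_lit 0, nat_lit 0, nat_lit 0, nat_lit 0, nat_lit 237500, nat_lit 0, nat_lit 0, [(nat_lit 18, [(nat_lit 0, nat_lit 950)]), (nat_lit 21, [(nat_lit 0, nat_lit 950)])],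
 ⟨p081_k10, nat_lit 0, nat_lit 0, nat_lit 88, nat_lit 0, nat_lit 0, [nat_lit 1582080001, nat_lit 2294000001, nat_lit 2746400000], [], [nat_lit 27173646400, nat_lit 29061715580, nat_lit 28754149604, nat_lit 30536254582, nat_lit 29018299075, nat_lit 30624424235, nat_lit 30356782071, nat_lit 32103108162], nat_lit 0, nat_lit 0, nat_lit 0, nat_lit 0, nat_lit 0, nat_lit 0, [], [nat_lit 6, nat_lit 40, nat_lit 40, nat_lit 80, nat_lit 3, nat_lit 289, nat_lit 75, nat_lit 9]⟩, ⟨p081_k13, nat_lit 0, nat_lit 0, nat_lit 1173, nat_lit 0, nat_lit 2159461, [nat_lit 234400000, nat_lit 398400000, nat_lit 593600000], [], [nat_lit 2053939938, nat_lit 2048230353, nat_lit 2056217959, nat_lit 2050144243, nat_lit 1748176468, nat_lit 1740773269, nat_lit 1801258427, nat_lit 1807103432], nat_lit 1271250, nat_lit 1271250, nat_lit 1271250, nat_lit 1271250, nat_lit 279600, nat_lit 2443200, [nat_lit 1100000, nat_lit 1785000, nat_lit 1271250],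 [nat_lit 21, nat_lit 40, nat_lit 40, nat_lit 80, nat_lit 14, nat_lit 415, nat_lit 150, nat_lit 10]⟩,
 ⟨nat_lit 3162, nat_lit 4473, ⟨.ofNat (nat_lit 815044), .ofNat (nat_lit 862629), .ofNat (nat_lit 825824), .ofNat (nat_lit 873412), .ofNat (nat_lit 788122), .ofNat (nat_lit 830789), .ofNat (nat_lit 799196), .ofNat (nat_lit 841867)⟩, ⟨.ofNat (nat_lit 259488), .ofNat (nat_lit 429433), .ofNat (nat_lit 302621), .ofNat (nat_lit 472567), .ofNat (nat_lit 261805), .ofNat (nat_lit 414188), .ofNat (nat_lit 306116), .ofNat (nat_lit 458499)⟩⟩, [⟨nat_lit 13, nat_lit 83, nat_lit 39, nat_lit 100, nat_lit 229783186⟩, ⟨nat_lit 16, nat_lit 83, nat_lit 100, nat_lit 83, nat_lit 132910608⟩, ⟨nat_lit 19, nat_lit 100, nat_lit 76, nat_lit 82, nat_lit 5739269⟩]⟩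
noncomputable def p081_l58 : Lf2 := ⟨nat_lit 0, nat_lit 10, [nat_lit 0, nat_lit 5, nat_lit 5, nat_lit 20], false, nat_lit 160, nat_lit 260, nat_lit 48, nat_lit 328, ⟨nat_lit 64, nat_lit 936, nat_lit 0, nat_lit 9, nat_lit 340, nat_lit 936, nat_lit 146, nat_lit 0, nat_lit 0, nat_lit 0, nat_lit 0, nat_lit 0, nat_lit 34787545, nat_lit 25663618, nat_lit 6548837, nat_lit 4996412, true, true⟩,
 nat_lit 0, nat_lit 0, nat_lit 965, nat_lit 0, nat_lit 3682, nat_lit 535, nat_lit 0, nat_lit 0, nat_lit 0, nat_lit 37, nat_lit 0, nat_lit 0, nat_lit 0, nat_lit 0, nat_lit 0, nat_lit 234000, nat_lit 0, nat_lit 0, [(nat_lit 18, [(nat_lit 0, nat_lit 936)])],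
 ⟨p081_k10, nat_lit 0, nat_lit 0, nat_lit 79, nat_lit 0, nat_lit 0, [nat_lit 1564748800, nat_lit 2329280001, nat_lit 2798032000], [], [nat_lit 26387455673, nat_lit 27333821237, nat_lit 28179324377, nat_lit 29043697068, nat_lit 28427033199, nat_lit 29228726577, nat_lit 29952022995, nat_lit 30763392296], nat_lit 0, nat_lit 0, nat_lit 0, nat_lit 0, nat_lit 0, nat_lit 0, [], [nat_lit 6, nat_lit 40, nat_lit 40, nat_lit 80, nat_lit 3, nat_lit 289, nat_lit 75, nat_lit 9]⟩, ⟨p081_k14, nat_lit 0, nat_lit 0, nat_lit 895, nat_lit 0, nat_lit 1678640, [nat_lit 300032000, nat_lit 509952000, nat_lit 629888000], [], [nat_lit 2472105454, nat_lit 2474199131, nat_lit 2522382146, nat_lit 2524302369, nat_lit 2230725832, nat_lit 2228826482, nat_lit 2260864185, nat_lit 2263862690], nat_lit 1271250, nat_lit 1271250, nat_lit 1271250, nat_lit 1271250, nat_lit 279600, nat_lit 2383100, [nat_lit 1100000, nat_lit 1785000, nat_lit 1271250],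 [nat_lit 29, nat_lit 40, nat_lit 40, nat_lit 80, nat_lit 17, nat_lit 373, nat_lit 150, nat_lit 10]⟩,
 ⟨nat_lit 3872, nat_lit 4473, ⟨.ofNat (nat_lit 825812), .ofNat (nat_lit 880198), .ofNat (nat_lit 836589), .ofNat (nat_lit 890974), .ofNat (nat_lit 812552), .ofNat (nat_lit 864173), .ofNat (nat_lit 823443), .ofNat (nat_lit 875063)⟩, ⟨.ofNat (nat_lit 259489), .ofNat (nat_lit 429434), .ofNat (nat_lit 302621), .ofNat (nat_lit 472567), .ofNat (nat_lit 261131), .ofNat (nat_lit 422435), .ofNat (nat_lit 304717), .ofNat (nat_lit 466021)⟩⟩, [⟨nat_lit 13, nat_lit 84, nat_lit 35, nat_lit 100, nat_lit 206217655⟩, ⟨nat_lit 16, nat_lit 83, nat_lit 100, nat_lit 83, nat_lit 149953811⟩, ⟨nat_lit 19, nat_lit 100, nat_lit 81, nat_lit 83, nat_lit 9668702⟩]⟩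
noncomputable def p081_l59 : Lf2 := ⟨nat_lit 0, nat_lit 10, [nat_lit 0, nat_lit 5, nat_lit 5, nat_lit 20], true, nat_lit 160, nat_lit 232, nat_lit 48, nat_lit 328, ⟨nat_lit 0, nat_lit 1000, nat_lit 0, nat_lit 9, nat_lit 331, nat_lit 1000, nat_lit 136, nat_lit 0, nat_lit 0, nat_lit 0, nat_lit 0, nat_lit 0, nat_lit 35918338, nat_lit 25067519, nat_lit 6014143, nat_lit 4897520, true, true⟩,
 nat_lit 0, nat_lit 0, nat_lit 0, nat_lit 0, nat_lit 3598, nat_lit 0, nat_lit 0, nat_lit 0, nat_lit 0, nat_lit 0, nat_lit 0, nat_lit 0, nat_lit 0, nat_lit 0, nat_lit 0, nat_lit 250000, nat_lit 0, nat_lit 0, [(nat_lit 21, [(nat_lit 0, nat_lit 1000)])],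
 ⟨p081_k16, nat_lit 0, nat_lit 0, nat_lit 80, nat_lit 0, nat_lit 0, [nat_lit 1558400000, nat_lit 2146000001, nat_lit 2146000000], [], [nat_lit 27169080205, nat_lit 28107037201, nat_lit 28227091571, nat_lit 29158290284, nat_lit 28386775713, nat_lit 29224336773, nat_lit 29335143414, nat_lit 30239539294], nat_lit 0, nat_lit 0, nat_lit 0, nat_lit 0, nat_lit 0, nat_lit 0, [], [nat_lit 6, nat_lit 40, nat_lit 40, nat_lit 80, nat_lit 3, nat_lit 272, nat_lit 60, nat_lit 8]⟩, C1.Rw.none,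
 ⟨nat_lit 3162, nat_lit 3873, ⟨.ofNat (nat_lit 812568), .ofNat (nat_lit 844829), .ofNat (nat_lit 823465), .ofNat (nat_lit 855725), .ofNat (nat_lit 799199), .ofNat (nat_lit 829676), .ofNat (nat_lit 810277), .ofNat (nat_lit 840753)⟩, ⟨.ofNat (nat_lit 261131), .ofNat (nat_lit 377270), .ofNat (nat_lit 304717), .ofNat (nat_lit 420856), .ofNat (nat_lit 261806), .ofNat (nat_lit 371522), .ofNat (nat_lit 306116), .ofNat (nat_lit 415832)⟩⟩, [⟨nat_lit 13, nat_lit 75, nat_lit 48, nat_lit 100, nat_lit 276975042⟩, ⟨nat_lit 16, nat_lit 72, nat_lit 100, nat_lit 81, nat_lit 149762726⟩]⟩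
noncomputable def p081_l60 : Lf2 := ⟨nat_lit 0, nat_lit 10, [nat_lit 0, nat_lit 5, nat_lit 5, nat_lit 20], false, nat_lit 160, nat_lit 260, nat_lit 48, nat_lit 320, ⟨nat_lit 103, nat_lit 897, nat_lit 0, nat_lit 9, nat_lit 345, nat_lit 897, nat_lit 146, nat_lit 0, nat_lit 0, nat_lit 0, nat_lit 0, nat_lit 0, nat_lit 34462670, nat_lit 26034595, nat_lit 6502735, nat_lit 4998050, true, true⟩,
 nat_lit 0, nat_lit 0, nat_lit 1252, nat_lit 0, nat_lit 3698, nat_lit 728, nat_lit 0, nat_lit 0, nat_lit 0, nat_lit 159, nat_lit 0, nat_lit 0, nat_lit 0, nat_lit 0, nat_lit 0, nat_lit 224250, nat_lit 0, nat_lit 0, [(nat_lit 18, [(nat_lit 0, nat_lit 897)])],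
 ⟨p081_k10, nat_lit 0, nat_lit 0, nat_lit 79, nat_lit 0, nat_lit 0, [nat_lit 1584217600, nat_lit 2427560001, nat_lit 2941864000], [], [nat_lit 26480602809, nat_lit 27428570005, nat_lit 28275983065, nat_lit 29141694911, nat_lit 28519086623, nat_lit 29321941265, nat_lit 30046762396, nat_lit 30782408670], nat_lit 0, nat_lit 0, nat_lit 0, nat_lit 0, nat_lit 0, nat_lit 0, [], [nat_lit 6, nat_lit 40, nat_lit 40, nat_lit 80, nat_lit 3, nat_lit 289, nat_lit 75, nat_lit 9]⟩, ⟨p081_k19, nat_lit 0, nat_lit 0, nat_lit 877, nat_lit 0, nat_lit 1641249, [nat_lit 482864000, nat_lit 820704000, nat_lit 1013726000], [], [nat_lit 3724081598, nat_lit 3726322601, nat_lit 3775590090, nat_lit 3776585212, nat_lit 3443290160, nat_lit 3440454394, nat_lit 3471423424, nat_lit 3478843891], nat_lit 1271250, nat_lit 1271250, nat_lit 1271250, nat_lit 1271250, nat_lit 279600, nat_lit 2323000, [nat_lit 1100000, nat_lit 1785000, nat_lit 1271250],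 [nat_lit 29, nat_lit 40, nat_lit 40, nat_lit 80, nat_lit 17, nat_lit 373, nat_lit 150, nat_lit 10]⟩,
 ⟨nat_lit 3872, nat_lit 4473, ⟨.ofNat (nat_lit 836589), .ofNat (nat_lit 890974), .ofNat (nat_lit 847364), .ofNat (nat_lit 901751), .ofNat (nat_lit 823443), .ofNat (nat_lit 875063), .ofNat (nat_lit 834332), .ofNat (nat_lit 885953)⟩, ⟨.ofNat (nat_lit 259489), .ofNat (nat_lit 429434), .ofNat (nat_lit 302621), .ofNat (nat_lit 472567), .ofNat (nat_lit 261131), .ofNat (nat_lit 422435), .ofNat (nat_lit 304717), .ofNat (nat_lit 466021)⟩⟩, [⟨nat_lit 13, nat_lit 80, nat_lit 39, nat_lit 100, nat_lit 184619964⟩, ⟨nat_lit 13, nat_lit 85, nat_lit 30, nat_lit 100, nat_lit 11475546⟩, ⟨nat_lit 16, nat_lit 83, nat_lit 100, nat_lit 83, nat_lit 162451390⟩, ⟨nat_lit 19, nat_lit 100, nat_lit 85, nat_lit 84, nat_lit 17489145⟩]⟩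
noncomputable def p081_l61 : Lf2 := ⟨nat_lit 0, nat_lit 10, [nat_lit 0, nat_lit 5, nat_lit 5, nat_lit 20], false, nat_lit 160, nat_lit 260, nat_lit 48, nat_lit 308, ⟨nat_lit 130, nat_lit 870, nat_lit 0, nat_lit 9, nat_lit 352, nat_lit 870, nat_lit 146, nat_lit 0, nat_lit 0, nat_lit 0, nat_lit 0, nat_lit 0, nat_lit 33924796, nat_lit 26631803, nat_lit 6443401, nat_lit 5001459, true, true⟩,
 nat_lit 0, nat_lit 0, nat_lit 1468, nat_lit 0, nat_lit 3666, nat_lit 893, nat_lit 0, nat_lit 0, nat_lit 0, nat_lit 148, nat_lit 0, nat_lit 0, nat_lit 0, nat_lit 0, nat_lit 0, nat_lit 305250, nat_lit 0, nat_lit 0, [(nat_lit 18, [(nat_lit 0, nat_lit 753), (nat_lit 2, nat_lit 117)])],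
 ⟨p081_k10, nat_lit 0, nat_lit 0, nat_lit 78, nat_lit 0, nat_lit 0, [nat_lit 1617476800, nat_lit 2364248000, nat_lit 2689831600], [], [nat_lit 26427556536, nat_lit 26899938502, nat_lit 28439458332, nat_lit 28865866950, nat_lit 28468227774, nat_lit 28868493831, nat_lit 30180819569, nat_lit 30543519880], nat_lit 0, nat_lit 0, nat_lit 0, nat_lit 0, nat_lit 0, nat_lit 0, [], [nat_lit 6, nat_lit 40, nat_lit 40, nat_lit 80, nat_lit 3, nat_lit 289, nat_lit 75, nat_lit 9]⟩, ⟨p081_k21, nat_lit 0, nat_lit 0, nat_lit 790, nat_lit 0, nat_lit 1458387, [nat_lit 609440000, nat_lit 1035840000, nat_lit 1279460000], [], [nat_lit 4605624849, nat_lit 4614575077, nat_lit 4707841171, nat_lit 4714540786, nat_lit 4334795260, nat_lit 4336700566, nat_lit 4407836421, nat_lit 4409637497], nat_lit 1271250, nat_lit 1271250, nat_lit 1271250, nat_lit 1271250, nat_lit 279600, nat_lit 2232850, [nat_lit 1100000, nat_lit 1785000, nat_lit 1271250],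 [nat_lit 29, nat_lit 40, nat_lit 40, nat_lit 80, nat_lit 17, nat_lit 373, nat_lit 150, nat_lit 10]⟩,
 ⟨nat_lit 4183, nat_lit 4473, ⟨.ofNat (nat_lit 847384), .ofNat (nat_lit 908566), .ofNat (nat_lit 858166), .ofNat (nat_lit 919347), .ofNat (nat_lit 840845), .ofNat (nat_lit 900477), .ofNat (nat_lit 851677), .ofNat (nat_lit 911307)⟩, ⟨.ofNat (nat_lit 259489), .ofNat (nat_lit 429434), .ofNat (nat_lit 302621), .ofNat (nat_lit 472567), .ofNat (nat_lit 260409), .ofNat (nat_lit 426048), .ofNat (nat_lit 303743), .ofNat (nat_lit 469382)⟩⟩, [⟨nat_lit 13, nat_lit 84, nat_lit 31, nat_lit 100, nat_lit 182381639⟩, ⟨nat_lit 16, nat_lit 83, nat_lit 100, nat_lit 83, nat_lit 171075285⟩, ⟨nat_lit 19, nat_lit 100, nat_lit 90, nat_lit 85, nat_lit 22709889⟩]⟩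
noncomputable def p081_l62 : Lf2 := ⟨nat_lit 0, nat_lit 10, [nat_lit 0, nat_lit 5, nat_lit 5, nat_lit 20], false, nat_lit 160, nat_lit 244, nat_lit 48, nat_lit 308, ⟨nat_lit 98, nat_lit 902, nat_lit 0, nat_lit 9, nat_lit 348, nat_lit 902, nat_lit 140, nat_lit 0, nat_lit 0, nat_lit 0, nat_lit 0, nat_lit 0, nat_lit 34450272, nat_lit 26419409, nat_lit 6130319, nat_lit 4949241, true, true⟩,
 nat_lit 0, nat_lit 0, nat_lit 1135, nat_lit 0, nat_lit 3743, nat_lit 691, nat_lit 0, nat_lit 0, nat_lit 0, nat_lit 104, nat_lit 0, nat_lit 0, nat_lit 0, nat_lit 0, nat_lit 0, nat_lit 225500, nat_lit 0, nat_lit 0, [(nat_lit 18, [(nat_lit 0, nat_lit 902)])],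
 ⟨p081_k20, nat_lit 0, nat_lit 0, nat_lit 79, nat_lit 0, nat_lit 0, [nat_lit 1581721600, nat_lit 2414960000, nat_lit 2923424000], [], [nat_lit 26929802521, nat_lit 27406038414, nat_lit 28693562234, nat_lit 29128301344, nat_lit 28437089561, nat_lit 28852824089, nat_lit 29983147258, nat_lit 30387562873], nat_lit 0, nat_lit 0, nat_lit 0, nat_lit 0, nat_lit 0, nat_lit 0, [], [nat_lit 6, nat_lit 40, nat_lit 40, nat_lit 80, nat_lit 3, nat_lit 289, nat_lit 75, nat_lit 9]⟩, ⟨p081_k21, nat_lit 0, nat_lit 0, nat_lit 862, nat_lit 0, nat_lit 1611232, [nat_lit 459424000, nat_lit 780864000, nat_lit 964516000], [], [nat_lit 3502948015, nat_lit 3507028107, nat_lit 3559228068, nat_lit 3561994150, nat_lit 3261510465, nat_lit 3260500266, nat_lit 3294780080, nat_lit 3293476262], nat_lit 1271250, nat_lit 1271250, nat_lit 1271250, nat_lit 1271250, nat_lit 279600, nat_lit 2232850, [nat_lit 1100000, nat_lit 1785000, nat_lit 1271250],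 [nat_lit 29, nat_lit 40, nat_lit 40, nat_lit 80, nat_lit 17, nat_lit 373, nat_lit 150, nat_lit 10]⟩,
 ⟨nat_lit 3872, nat_lit 4184, ⟨.ofNat (nat_lit 840851), .ofNat (nat_lit 893857), .ofNat (nat_lit 851681), .ofNat (nat_lit 904688), .ofNat (nat_lit 834357), .ofNat (nat_lit 885976), .ofNat (nat_lit 845251), .ofNat (nat_lit 896871)⟩, ⟨.ofNat (nat_lit 260409), .ofNat (nat_lit 399546), .ofNat (nat_lit 303743), .ofNat (nat_lit 442879), .ofNat (nat_lit 261131), .ofNat (nat_lit 396626), .ofNat (nat_lit 304717), .ofNat (nat_lit 440213)⟩⟩, [⟨nat_lit 13, nat_lit 83, nat_lit 32, nat_lit 100, nat_lit 204002460⟩, ⟨nat_lit 16, nat_lit 78, nat_lit 100, nat_lit 82, nat_lit 161965353⟩, ⟨nat_lit 19, nat_lit 100, nat_lit 90, nat_lit 85, nat_lit 16299898⟩]⟩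
noncomputable def p081_l63 : Lf2 := ⟨nat_lit 0, nat_lit 10, [nat_lit 0, nat_lit 5, nat_lit 5, nat_lit 20], false, nat_lit 160, nat_lit 232, nat_lit 48, nat_lit 320, ⟨nat_lit 96, nat_lit 904, nat_lit 0, nat_lit 9, nat_lit 340, nat_lit 904, nat_lit 136, nat_lit 0, nat_lit 0, nat_lit 0, nat_lit 0, nat_lit 0, nat_lit 35210603, nat_lit 25862600, nat_lit 5926797, nat_lit 4904370, true, true⟩,
 nat_lit 0, nat_lit 0, nat_lit 1272, nat_lit 0, nat_lit 3467, nat_lit 740, nat_lit 138, nat_lit 0, nat_lit 0, nat_lit 62, nat_lit 0, nat_lit 0, nat_lit 0, nat_lit 0, nat_lit 0, nat_lit 226000, nat_lit 0, nat_lit 0, [(nat_lit 21, [(nat_lit 0, nat_lit 904)])],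
 ⟨p081_k16, nat_lit 0, nat_lit 0, nat_lit 88, nat_lit 0, nat_lit 0, [nat_lit 1603865600, nat_lit 2390032001, nat_lit 2539984000], [], [nat_lit 27437072612, nat_lit 28267186322, nat_lit 28744891801, nat_lit 29553347183, nat_lit 28565725063, nat_lit 29310201053, nat_lit 29750387004, nat_lit 30494270313], nat_lit 0, nat_lit 0, nat_lit 0, nat_lit 0, nat_lit 0, nat_lit 0, [], [nat_lit 6, nat_lit 40, nat_lit 40, nat_lit 80, nat_lit 3, nat_lit 272, nat_lit 60, nat_lit 8]⟩, ⟨p081_k19, nat_lit 0, nat_lit 0, nat_lit 1066, nat_lit 0, nat_lit 2071242, [nat_lit 450048000, nat_lit 764928000, nat_lit 944832000], [], [nat_lit 3556598408, nat_lit 3551439991, nat_lit 3581643336, nat_lit 3585775265, nat_lit 3222708464, nat_lit 3234607064, nat_lit 3301169934, nat_lit 3312963258], nat_lit 1271250, nat_lit 1271250, nat_lit 1271250, nat_lit 1271250, nat_lit 279600, nat_lit 2323000, [nat_lit 1100000, nat_lit 1785000, nat_lit 1271250],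 [nat_lit 29, nat_lit 40, nat_lit 40, nat_lit 80, nat_lit 17, nat_lit 390, nat_lit 150, nat_lit 10]⟩,
 ⟨nat_lit 3162, nat_lit 3873, ⟨.ofNat (nat_lit 823465), .ofNat (nat_lit 868630), .ofNat (nat_lit 845258), .ofNat (nat_lit 890423), .ofNat (nat_lit 810277), .ofNat (nat_lit 852944), .ofNat (nat_lit 832432), .ofNat (nat_lit 875099)⟩, ⟨.ofNat (nat_lit 261131), .ofNat (nat_lit 377270), .ofNat (nat_lit 304717), .ofNat (nat_lit 420856), .ofNat (nat_lit 261806), .ofNat (nat_lit 371522), .ofNat (nat_lit 306116), .ofNat (nat_lit 415832)⟩⟩, [⟨nat_lit 13, nat_lit 78, nat_lit 39, nat_lit 100, nat_lit 205260951⟩, ⟨nat_lit 16, nat_lit 72, nat_lit 100, nat_lit 81, nat_lit 171088964⟩, ⟨nat_lit 19, nat_lit 100, nat_lit 85, nat_lit 84, nat_lit 15696759⟩]⟩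
noncomputable def b_V_800_600_10_3 : St := ⟨true, nat_lit 0, nat_lit 1, nat_lit 1, nat_lit 80, nat_lit 320, nat_lit 360, nat_lit 240, nat_lit 280, nat_lit 240, nat_lit 396, nat_lit 40, nat_lit 80, nat_lit 160, nat_lit 260, nat_lit 0, nat_lit 336, nat_lit 0, nat_lit 40, nat_lit 0, nat_lit 0, nat_lit 0, nat_lit 0⟩
theorem d_V_800_600_10_3 (h : EB TB.env) : Dead b_V_800_600_10_3 := chkB_sound0 h (T :=
(.spl (nat_lit 2) (nat_lit 320)
(.leaf p081_l54)
(.trZ (nat_lit 9) (nat_lit 100) (nat_lit 82) (nat_lit 44) (nat_lit 16) (.spl (nat_lit 2) (nat_lit 360)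
(.spl (nat_lit 0) (nat_lit 340)
(.leaf p081_l55)
(.trX (nat_lit 16) (nat_lit 72) (nat_lit 100) (nat_lit 81) (nat_lit 232) (.leaf p081_l56)))
(.trZ (nat_lit 9) (nat_lit 100) (nat_lit 61) (nat_lit 68) (nat_lit 48) (.spl (nat_lit 1) (nat_lit 260)
(.trX (nat_lit 13) (nat_lit 84) (nat_lit 35) (nat_lit 100) (nat_lit 392) (.spl (nat_lit 1) (nat_lit 250)
(.trX (nat_lit 13) (nat_lit 83) (nat_lit 39) (nat_lit 100) (nat_lit 388) (.leaf p081_l57))
(.trX (nat_lit 19) (nat_lit 100) (nat_lit 81) (nat_lit 83) (nat_lit 328) (.spl (nat_lit 0) (nat_lit 340)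
(.leaf p081_l58)
(.trX (nat_lit 13) (nat_lit 75) (nat_lit 48) (nat_lit 100) (nat_lit 380) (.trX (nat_lit 16) (nat_lit 72) (nat_lit 100) (nat_lit 81) (nat_lit 232) (.leaf p081_l59)))))))
(.trX (nat_lit 19) (nat_lit 100) (nat_lit 85) (nat_lit 84) (nat_lit 320) (.spl (nat_lit 0) (nat_lit 340)
(.spl (nat_lit 1) (nat_lit 270)
(.trX (nat_lit 13) (nat_lit 85) (nat_lit 30) (nat_lit 100) (nat_lit 392) (.leaf p081_l60))
(.trX (nat_lit 19) (nat_lit 100) (nat_lit 90) (nat_lit 85) (nat_lit 308) (.spl (nat_lit 0) (nat_lit 330)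
(.leaf p081_l61)
(.trX (nat_lit 13) (nat_lit 83) (nat_lit 32) (nat_lit 100) (nat_lit 392) (.trX (nat_lit 16) (nat_lit 78) (nat_lit 100) (nat_lit 82) (nat_lit 244) (.leaf p081_l62))))))
(.trX (nat_lit 13) (nat_lit 78) (nat_lit 39) (nat_lit 100) (nat_lit 388) (.trX (nat_lit 16) (nat_lit 72) (nat_lit 100) (nat_lit 81) (nat_lit 232) (.leaf p081_l63))))))))))) (by decide +kernel)
noncomputable def p081_l64 : Lf2 := ⟨nat_lit 0, nat_lit 10, [nat_lit 0, nat_lit 5, nat_lit 5, nat_lit 20], false, nat_lit 0, nat_lit 260, nat_lit 0, nat_lit 336, ⟨nat_lit 361, nat_lit 639, nat_lit 0, nat_lit 6, nat_lit 245, nat_lit 639, nat_lit 89, nat_lit 0, nat_lit 0, nat_lit 0, nat_lit 0, nat_lit 0, nat_lit 0, nat_lit 0, nat_lit 0, nat_lit 5000000, false, false⟩,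
 nat_lit 0, nat_lit 0, nat_lit 0, nat_lit 0, nat_lit 5248, nat_lit 4072, nat_lit 0, nat_lit 0, nat_lit 0, nat_lit 0, nat_lit 0, nat_lit 0, nat_lit 0, nat_lit 0, nat_lit 0, nat_lit 159750, nat_lit 0, nat_lit 0, [(nat_lit 18, [(nat_lit 0, nat_lit 639)]), (nat_lit 21, [(nat_lit 0, nat_lit 639)])],
 ⟨p081_k7, nat_lit 0, nat_lit 0, nat_lit 185, nat_lit 0, nat_lit 0, [nat_lit 1729369600, nat_lit 3893368000], [], [nat_lit 24014265940, nat_lit 27479619111, nat_lit 35594960260, nat_lit 38171712960, nat_lit 25103768087, nat_lit 27502795418, nat_lit 31878646072, nat_lit 33755445749], nat_lit 0, nat_lit 0, nat_lit 0, nat_lit 0, nat_lit 0, nat_lit 0, [], [nat_lit 69, nat_lit 40, nat_lit 40, nat_lit 80, nat_lit 64, nat_lit 401, nat_lit 175, nat_lit 16]⟩, ⟨p081_k9, nat_lit 0, nat_lit 0, nat_lit 228, nat_lit 0, nat_lit 0, [nat_lit 1692368000, nat_lit 4285792000], [], [nat_lit 12765913368, nat_lit 14206383155, nat_lit 17931095529,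 nat_lit 18363699963, nat_lit 13062578825, nat_lit 13709075827, nat_lit 14380505726, nat_lit 14484293832], nat_lit 0, nat_lit 0, nat_lit 0, nat_lit 0, nat_lit 0, nat_lit 0, [], [nat_lit 116, nat_lit 40, nat_lit 40, nat_lit 80, nat_lit 65, nat_lit 538, nat_lit 300, nat_lit 14]⟩,
 ⟨nat_lit 3162, nat_lit 4473, ⟨.ofNat (nat_lit 311562), .ofNat (nat_lit 876224), .ofNat (nat_lit 354514), .ofNat (nat_lit 919290), .ofNat (nat_lit 336623), .ofNat (nat_lit 842980), .ofNat (nat_lit 380752), .ofNat (nat_lit 887222)⟩, ⟨.negSucc (nat_lit 12437), .ofNat (nat_lit 429433), .ofNat (nat_lit 0), .ofNat (nat_lit 472567), .ofNat (nat_lit 0), .ofNat (nat_lit 414188), .ofNat (nat_lit 0), .ofNat (nat_lit 458499)⟩⟩, [⟨nat_lit 16, nat_lit 83, nat_lit 100, nat_lit 83, nat_lit 42542108⟩, ⟨nat_lit 7, nat_lit 92, nat_lit 100, nat_lit 75, nat_lit 14200217⟩]⟩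
noncomputable def p081_l65 : Lf2 := ⟨nat_lit 0, nat_lit 10, [nat_lit 0, nat_lit 5, nat_lit 5, nat_lit 20], true, nat_lit 0, nat_lit 260, nat_lit 0, nat_lit 336, ⟨nat_lit 0, nat_lit 1000, nat_lit 0, nat_lit 6, nat_lit 195, nat_lit 1000, nat_lit 89, nat_lit 0, nat_lit 0, nat_lit 0, nat_lit 0, nat_lit 0, nat_lit 0, nat_lit 0, nat_lit 0, nat_lit 5000000, false, false⟩,
 nat_lit 0, nat_lit 0, nat_lit 0, nat_lit 0, nat_lit 5454, nat_lit 0, nat_lit 0, nat_lit 0, nat_lit 0, nat_lit 0, nat_lit 0, nat_lit 0, nat_lit 0, nat_lit 0, nat_lit 0, nat_lit 250000, nat_lit 0, nat_lit 0, [(nat_lit 18, [(nat_lit 0, nat_lit 1000)]), (nat_lit 21, [(nat_lit 0, nat_lit 1000)])],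
 ⟨p081_k7, nat_lit 0, nat_lit 0, nat_lit 155, nat_lit 0, nat_lit 0, [nat_lit 1558400000, nat_lit 2562000000], [], [nat_lit 21221921002, nat_lit 26592088720, nat_lit 23607579112, nat_lit 27919671832, nat_lit 22134835088, nat_lit 25236551225, nat_lit 23271220730, nat_lit 26254199640], nat_lit 0, nat_lit 0, nat_lit 0, nat_lit 0, nat_lit 0, nat_lit 0, [], [nat_lit 69, nat_lit 40, nat_lit 40, nat_lit 80, nat_lit 64, nat_lit 345, nat_lit 125, nat_lit 13]⟩, C1.Rw.none,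
 ⟨nat_lit 3162, nat_lit 4473, ⟨.ofNat (nat_lit 311562), .ofNat (nat_lit 611007), .ofNat (nat_lit 354514), .ofNat (nat_lit 653959), .ofNat (nat_lit 336623), .ofNat (nat_lit 605159), .ofNat (nat_lit 380752), .ofNat (nat_lit 649288)⟩, ⟨.negSucc (nat_lit 12437), .ofNat (nat_lit 429433), .ofNat (nat_lit 0), .ofNat (nat_lit 472567), .ofNat (nat_lit 0), .ofNat (nat_lit 414188), .ofNat (nat_lit 0), .ofNat (nat_lit 458499)⟩⟩, [⟨nat_lit 16, nat_lit 83, nat_lit 100, nat_lit 83, nat_lit 5270975⟩, ⟨nat_lit 4, nat_lit 100, nat_lit 71, nat_lit 71, nat_lit 57093708⟩]⟩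
noncomputable def p081_l66 : Lf2 := ⟨nat_lit 0, nat_lit 10, [nat_lit 0, nat_lit 5, nat_lit 5, nat_lit 20], true, nat_lit 0, nat_lit 260, nat_lit 0, nat_lit 336, ⟨nat_lit 0, nat_lit 1000, nat_lit 0, nat_lit 6, nat_lit 302, nat_lit 1000, nat_lit 89, nat_lit 0, nat_lit 0, nat_lit 0, nat_lit 0, nat_lit 0, nat_lit 0, nat_lit 0, nat_lit 0, nat_lit 5000000, true, true⟩,
 nat_lit 0, nat_lit 0, nat_lit 0, nat_lit 0, nat_lit 4098, nat_lit 0, nat_lit 0, nat_lit 0, nat_lit 0, nat_lit 0, nat_lit 0, nat_lit 0, nat_lit 0, nat_lit 0, nat_lit 0, nat_lit 250000, nat_lit 0, nat_lit 0, [(nat_lit 18, [(nat_lit 0, nat_lit 1000)]), (nat_lit 21, [(nat_lit 0, nat_lit 1000)])],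
 ⟨p081_k10, nat_lit 0, nat_lit 0, nat_lit 179, nat_lit 0, nat_lit 0, [nat_lit 1558400000, nat_lit 2168000000, nat_lit 2562000000], [], [nat_lit 23622126088, nat_lit 26097427624, nat_lit 32424329300, nat_lit 34721747460, nat_lit 24975733522, nat_lit 26696746736, nat_lit 30607815943, nat_lit 32316651309], nat_lit 0, nat_lit 0, nat_lit 0, nat_lit 0, nat_lit 0, nat_lit 0, [], [nat_lit 6, nat_lit 40, nat_lit 40, nat_lit 80, nat_lit 3, nat_lit 289, nat_lit 75, nat_lit 10]⟩, C1.Rw.none,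
 ⟨nat_lit 3162, nat_lit 4473, ⟨.ofNat (nat_lit 611007), .ofNat (nat_lit 876224), .ofNat (nat_lit 653959), .ofNat (nat_lit 919290), .ofNat (nat_lit 605159), .ofNat (nat_lit 842980), .ofNat (nat_lit 649288), .ofNat (nat_lit 887222)⟩, ⟨.negSucc (nat_lit 12437), .ofNat (nat_lit 429433), .ofNat (nat_lit 0), .ofNat (nat_lit 472567), .ofNat (nat_lit 0), .ofNat (nat_lit 414188), .ofNat (nat_lit 0), .ofNat (nat_lit 458499)⟩⟩, [⟨nat_lit 13, nat_lit 87, nat_lit 25, nat_lit 100, nat_lit 276449043⟩, ⟨nat_lit 16, nat_lit 83, nat_lit 100, nat_lit 83, nat_lit 38087404⟩]⟩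
noncomputable def b_V_800_600_10_4 : St := ⟨true, nat_lit 0, nat_lit 2, nat_lit 2, nat_lit 80, nat_lit 320, nat_lit 360, nat_lit 240, nat_lit 280, nat_lit 64, nat_lit 396, nat_lit 40, nat_lit 80, nat_lit 0, nat_lit 260, nat_lit 0, nat_lit 336, nat_lit 0, nat_lit 40, nat_lit 0, nat_lit 0, nat_lit 0, nat_lit 0⟩
theorem d_V_800_600_10_4 (h : EB TB.env) : Dead b_V_800_600_10_4 := chkB_sound0 h (T :=
(.st (nat_lit 1)
(.leaf p081_l64)
(.spl (nat_lit 2) (nat_lit 240)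
(.leaf p081_l65)
(.leaf p081_l66)))) (by decide +kernel)
noncomputable def p081_l67 : Lf2 := ⟨nat_lit 0, nat_lit 10, [nat_lit 0, nat_lit 5, nat_lit 5, nat_lit 20], false, nat_lit 0, nat_lit 160, nat_lit 0, nat_lit 160, ⟨nat_lit 1000, nat_lit 0, nat_lit 0, nat_lit 0, nat_lit 0, nat_lit 0, nat_lit 0, nat_lit 0, nat_lit 0, nat_lit 0, nat_lit 0, nat_lit 0, nat_lit 0, nat_lit 0, nat_lit 0, nat_lit 0, false, false⟩,
 nat_lit 0, nat_lit 10450, nat_lit 0, nat_lit 0, nat_lit 7837, nat_lit 13928, nat_lit 472, nat_lit 0, nat_lit 0, nat_lit 2658, nat_lit 0, nat_lit 0, nat_lit 0, nat_lit 0, nat_lit 0, nat_lit 0, nat_lit 0, nat_lit 0, [],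
 ⟨p081_k10, nat_lit 0, nat_lit 0, nat_lit 610, nat_lit 0, nat_lit 1099400, [nat_lit 2032000001, nat_lit 4688000000, nat_lit 6250000000], [], [nat_lit 26386333574, nat_lit 28945508107, nat_lit 25483958760, nat_lit 26451919134, nat_lit 22950189588, nat_lit 23877652892, nat_lit 22075886240, nat_lit 22995019718], nat_lit 1271250, nat_lit 1271250, nat_lit 382400, nat_lit 780000, nat_lit 0, nat_lit 1100001, [nat_lit 490000, nat_lit 1100000, nat_lit 1442500], [nat_lit 6, nat_lit 40, nat_lit 40, nat_lit 80, nat_lit 3, nat_lit 289, nat_lit 75, nat_lit 11]⟩, ⟨p081_k13, nat_lit 0, nat_lit 0, nat_lit 249, nat_lit 0, nat_lit 0, [nat_lit 4688000000, nat_lit 7968000000, nat_lit 11872000000], [], [nat_lit 19298588295, nat_lit 25693337588, nat_lit 16495681536, nat_lit 22444442816, nat_lit 8789178516, nat_lit 14064821300, nat_lit 6637737792, nat_lit 11505937312], nat_lit 0, nat_lit 0, nat_lit 0, nat_lit 0, nat_lit 0, nat_lit 0,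 [], [nat_lit 21, nat_lit 40, nat_lit 40, nat_lit 80, nat_lit 14, nat_lit 373, nat_lit 150, nat_lit 10]⟩,
 zbF0, [⟨nat_lit 0, nat_lit 99, nat_lit 77, nat_lit 100, nat_lit 1266319189⟩]⟩
noncomputable def p081_l68 : Lf2 := ⟨nat_lit 0, nat_lit 10, [nat_lit 0, nat_lit 5, nat_lit 5, nat_lit 20], false, nat_lit 0, nat_lit 160, nat_lit 160, nat_lit 312, ⟨nat_lit 439, nat_lit 0, nat_lit 561, nat_lit 6, nat_lit 153, nat_lit 561, nat_lit 54, nat_lit 561, nat_lit 26667, nat_lit 255, nat_lit 191072, nat_lit 322, nat_lit 58404915, nat_lit 0, nat_lit 0, nat_lit 1915564, false, false⟩,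
 nat_lit 0, nat_lit 6155, nat_lit 0, nat_lit 0, nat_lit 4615, nat_lit 3364, nat_lit 0, nat_lit 0, nat_lit 0, nat_lit 0, nat_lit 0, nat_lit 0, nat_lit 0, nat_lit 0, nat_lit 0, nat_lit 561000, nat_lit 0, nat_lit 0, [(nat_lit 18, [(nat_lit 6, nat_lit 561)])],
 ⟨p081_k10, nat_lit 0, nat_lit 0, nat_lit 549, nat_lit 0, nat_lit 979074, [nat_lit 1486558400, nat_lit 1362541601, nat_lit 555401200], [], [nat_lit 19331380034, nat_lit 20558178142, nat_lit 19288573206, nat_lit 19692575586, nat_lit 18637853471, nat_lit 19001148610, nat_lit 18597299764, nat_lit 18986440534], nat_lit 1271250, nat_lit 1271250, nat_lit 382400, nat_lit 780000, nat_lit 0, nat_lit 1100001, [nat_lit 490000, nat_lit 1100000, nat_lit 1442500], [nat_lit 6, nat_lit 40, nat_lit 40, nat_lit 80, nat_lit 3, nat_lit 289, nat_lit 75, nat_lit 11]⟩, ⟨p081_k13, nat_lit 0, nat_lit 0, nat_lit 84, nat_lit 0, nat_lit 0, [nat_lit 2058032000, nat_lit 3497952000, nat_lit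 5211808000], [], [nat_lit 3350932934, nat_lit 5220512786, nat_lit 3227109260, nat_lit 4964240072, nat_lit 8933686179, nat_lit 10357411366, nat_lit 8280295915, nat_lit 9618564710], nat_lit 0, nat_lit 0, nat_lit 0, nat_lit 0, nat_lit 0, nat_lit 0, [], [nat_lit 21, nat_lit 40, nat_lit 40, nat_lit 80, nat_lit 14, nat_lit 428, nat_lit 200, nat_lit 11]⟩,
 ⟨nat_lit 4183, nat_lit 4473, ⟨.ofNat (nat_lit 311996), .ofNat (nat_lit 407167), .ofNat (nat_lit 355120), .ofNat (nat_lit 450291), .ofNat (nat_lit 318053), .ofNat (nat_lit 410812), .ofNat (nat_lit 361378), .ofNat (nat_lit 454137)⟩, ⟨.negSucc (nat_lit 12423), .ofNat (nat_lit 259489), .ofNat (nat_lit 0), .ofNat (nat_lit 281055), .negSucc (nat_lit 4612), .ofNat (nat_lit 260409), .ofNat (nat_lit 0), .ofNat (nat_lit 282076)⟩⟩, [⟨nat_lit 0, nat_lit 100, nat_lit 82, nat_lit 87, nat_lit 454288763⟩, ⟨nat_lit 7, nat_lit 96, nat_lit 100, nat_lit 69, nat_lit 363490170⟩]⟩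
noncomputable def p081_l69 : Lf2 := ⟨nat_lit 0, nat_lit 10, [nat_lit 0, nat_lit 5, nat_lit 5, nat_lit 20], false, nat_lit 0, nat_lit 160, nat_lit 160, nat_lit 312, ⟨nat_lit 1000, nat_lit 0, nat_lit 0, nat_lit 0, nat_lit 0, nat_lit 0, nat_lit 0, nat_lit 0, nat_lit 0, nat_lit 0, nat_lit 0, nat_lit 0, nat_lit 0, nat_lit 0, nat_lit 0, nat_lit 0, false, false⟩,
 nat_lit 0, nat_lit 7248, nat_lit 0, nat_lit 0, nat_lit 5650, nat_lit 7012, nat_lit 2164, nat_lit 0, nat_lit 0, nat_lit 0, nat_lit 0, nat_lit 0, nat_lit 0, nat_lit 0, nat_lit 0, nat_lit 0, nat_lit 0, nat_lit 0, [],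
 ⟨p081_k20, nat_lit 0, nat_lit 0, nat_lit 558, nat_lit 0, nat_lit 1011619, [nat_lit 2032000001, nat_lit 4688000000, nat_lit 6250000000], [], [nat_lit 22027063855, nat_lit 23492867171, nat_lit 21171733550, nat_lit 22563250100, nat_lit 18291472488, nat_lit 18807187367, nat_lit 18309539707, nat_lit 18797581407], nat_lit 1271250, nat_lit 1271250, nat_lit 462650, nat_lit 780000, nat_lit 0, nat_lit 1100001, [nat_lit 490000, nat_lit 1100000, nat_lit 1442500], [nat_lit 6, nat_lit 40, nat_lit 40, nat_lit 80, nat_lit 3, nat_lit 289, nat_lit 75, nat_lit 11]⟩, ⟨p081_k13, nat_lit 0, nat_lit 0, nat_lit 73, nat_lit 0, nat_lit 0, [nat_lit 4688000000, nat_lit 7968000000, nat_lit 11872000000], [], [nat_lit 8324106151, nat_lit 12296536336, nat_lit 8458454864, nat_lit 12198852656, nat_lit 19461203541, nat_lit 22515206617, nat_lit 18961650645, nat_lit 21635898704], nat_lit 0, nat_lit 0, nat_lit 0, nat_lit 0, nat_lit 0, nat_lit 0, [],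 [nat_lit 21, nat_lit 40, nat_lit 40, nat_lit 80, nat_lit 14, nat_lit 428, nat_lit 200, nat_lit 11]⟩,
 zbF0, [⟨nat_lit 0, nat_lit 100, nat_lit 78, nat_lit 81, nat_lit 830840119⟩, ⟨nat_lit 19, nat_lit 100, nat_lit 85, nat_lit 73, nat_lit 448283928⟩, ⟨nat_lit 7, nat_lit 96, nat_lit 100, nat_lit 69, nat_lit 349010866⟩]⟩
noncomputable def p081_l70 : Lf2 := ⟨nat_lit 0, nat_lit 10, [nat_lit 0, nat_lit 5, nat_lit 5, nat_lit 20], false, nat_lit 0, nat_lit 160, nat_lit 160, nat_lit 336, ⟨nat_lit 403, nat_lit 0, nat_lit 597, nat_lit 6, nat_lit 153, nat_lit 597, nat_lit 58, nat_lit 597, nat_lit 32267, nat_lit 259, nat_lit 216600, nat_lit 329, nat_lit 58453006, nat_lit 0, nat_lit 0, nat_lit 1908675, false, false⟩,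
 nat_lit 0, nat_lit 5803, nat_lit 0, nat_lit 0, nat_lit 4352, nat_lit 4769, nat_lit 0, nat_lit 0, nat_lit 0, nat_lit 745, nat_lit 0, nat_lit 0, nat_lit 0, nat_lit 0, nat_lit 0, nat_lit 597000, nat_lit 0, nat_lit 0, [(nat_lit 18, [(nat_lit 6, nat_lit 597)])],
 ⟨p081_k10, nat_lit 0, nat_lit 0, nat_lit 460, nat_lit 0, nat_lit 786781, [nat_lit 1451556800, nat_lit 1149143201, nat_lit 189972400], [], [nat_lit 18775673869, nat_lit 19400818556, nat_lit 18539849573, nat_lit 18773350289, nat_lit 18056802220, nat_lit 18266854557, nat_lit 18164345569, nat_lit 18267981477], nat_lit 1271250, nat_lit 1271250, nat_lit 382400, nat_lit 780000, nat_lit 0, nat_lit 1100001, [nat_lit 490000, nat_lit 1100000, nat_lit 1442500], [nat_lit 6, nat_lit 40, nat_lit 40, nat_lit 80, nat_lit 3, nat_lit 289, nat_lit 75, nat_lit 11]⟩, ⟨p081_k13, nat_lit 0, nat_lit 0, nat_lit 165, nat_lit 0, nat_lit 0, [nat_lit 1889264000, nat_lit 3211104000, nat_lit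 4784416000], [], [nat_lit 5186674964, nat_lit 6580175952, nat_lit 4221840180, nat_lit 5600128300, nat_lit 10800131301, nat_lit 12334734832, nat_lit 9553718560, nat_lit 10935590185], nat_lit 0, nat_lit 0, nat_lit 0, nat_lit 0, nat_lit 0, nat_lit 0, [], [nat_lit 21, nat_lit 40, nat_lit 40, nat_lit 80, nat_lit 14, nat_lit 428, nat_lit 200, nat_lit 11]⟩,
 ⟨nat_lit 4330, nat_lit 4473, ⟨.ofNat (nat_lit 312004), .ofNat (nat_lit 407174), .ofNat (nat_lit 355136), .ofNat (nat_lit 450305), .ofNat (nat_lit 315024), .ofNat (nat_lit 408989), .ofNat (nat_lit 358250), .ofNat (nat_lit 452215)⟩, ⟨.ofNat (nat_lit 0), .ofNat (nat_lit 281055), .ofNat (nat_lit 0), .ofNat (nat_lit 302621), .ofNat (nat_lit 0), .ofNat (nat_lit 281586), .ofNat (nat_lit 0), .ofNat (nat_lit 303199)⟩⟩, [⟨nat_lit 0, nat_lit 100, nat_lit 83, nat_lit 86, nat_lit 311876319⟩, ⟨nat_lit 0, nat_lit 100, nat_lit 85, nat_lit 97, nat_lit 178421135⟩, ⟨nat_lit 7, nat_lit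 89, nat_lit 100, nat_lit 80, nat_lit 304550364⟩]⟩
noncomputable def p081_l71 : Lf2 := ⟨nat_lit 0, nat_lit 10, [nat_lit 0, nat_lit 5, nat_lit 5, nat_lit 20], false, nat_lit 0, nat_lit 160, nat_lit 160, nat_lit 336, ⟨nat_lit 596, nat_lit 0, nat_lit 404, nat_lit 6, nat_lit 157, nat_lit 404, nat_lit 59, nat_lit 404, nat_lit 32267, nat_lit 259, nat_lit 191113, nat_lit 322, nat_lit 58094350, nat_lit 0, nat_lit 0, nat_lit 1959499, false, false⟩,
 nat_lit 0, nat_lit 6191, nat_lit 0, nat_lit 0, nat_lit 4734, nat_lit 3928, nat_lit 1483, nat_lit 0, nat_lit 0, nat_lit 0, nat_lit 0, nat_lit 0, nat_lit 0, nat_lit 0, nat_lit 0, nat_lit 404000, nat_lit 0, nat_lit 0, [(nat_lit 18, [(nat_lit 6, nat_lit 404)])],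
 ⟨p081_k22, nat_lit 0, nat_lit 0, nat_lit 465, nat_lit 0, nat_lit 808099, [nat_lit 1639204267, nat_lit 2293195734, nat_lit 2149076800], [], [nat_lit 19818177181, nat_lit 20472964468, nat_lit 19133995429, nat_lit 19754290418, nat_lit 17949153458, nat_lit 18196658257, nat_lit 18042603538, nat_lit 18276426678], nat_lit 1271250, nat_lit 1271250, nat_lit 435600, nat_lit 780000, nat_lit 0, nat_lit 1100001, [nat_lit 490000, nat_lit 1100000, nat_lit 1442500], [nat_lit 6, nat_lit 40, nat_lit 40, nat_lit 80, nat_lit 3, nat_lit 289, nat_lit 75, nat_lit 11]⟩, ⟨p081_k13, nat_lit 0, nat_lit 0, nat_lit 95, nat_lit 0, nat_lit 0, [nat_lit 2794048000, nat_lit 4748928000, nat_lit 7075712000], [], [nat_lit 5404247760, nat_lit 7690779444, nat_lit 5468556144, nat_lit 7614245824, nat_lit 13210042547, nat_lit 14809195646, nat_lit 12807875188, nat_lit 14166487130], nat_lit 0, nat_lit 0, nat_lit 0, nat_lit 0, nat_lit 0, nat_lit 0, [], [nat_lit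 21, nat_lit 40, nat_lit 40, nat_lit 80, nat_lit 14, nat_lit 428, nat_lit 200, nat_lit 11]⟩,
 ⟨nat_lit 4183, nat_lit 4331, ⟨.ofNat (nat_lit 328447), .ofNat (nat_lit 408988), .ofNat (nat_lit 371673), .ofNat (nat_lit 452214), .ofNat (nat_lit 331312), .ofNat (nat_lit 410819), .ofNat (nat_lit 374643), .ofNat (nat_lit 454150)⟩, ⟨.ofNat (nat_lit 0), .ofNat (nat_lit 281586), .ofNat (nat_lit 0), .ofNat (nat_lit 303199), .ofNat (nat_lit 0), .ofNat (nat_lit 282076), .ofNat (nat_lit 0), .ofNat (nat_lit 303743)⟩⟩, [⟨nat_lit 0, nat_lit 100, nat_lit 80, nat_lit 78, nat_lit 472105867⟩, ⟨nat_lit 7, nat_lit 89, nat_lit 100, nat_lit 80, nat_lit 447511233⟩]⟩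
noncomputable def p081_l72 : Lf2 := ⟨nat_lit 0, nat_lit 10, [nat_lit 0, nat_lit 5, nat_lit 5, nat_lit 20], false, nat_lit 0, nat_lit 160, nat_lit 160, nat_lit 336, ⟨nat_lit 1000, nat_lit 0, nat_lit 0, nat_lit 0, nat_lit 0, nat_lit 0, nat_lit 0, nat_lit 0, nat_lit 0, nat_lit 0, nat_lit 0, nat_lit 0, nat_lit 0, nat_lit 0, nat_lit 0, nat_lit 0, false, false⟩,
 nat_lit 0, nat_lit 7143, nat_lit 0, nat_lit 0, nat_lit 5568, nat_lit 6622, nat_lit 2148, nat_lit 0, nat_lit 0, nat_lit 0, nat_lit 0, nat_lit 0, nat_lit 0, nat_lit 0, nat_lit 0, nat_lit 0, nat_lit 0, nat_lit 0, [],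
 ⟨p081_k20, nat_lit 0, nat_lit 0, nat_lit 504, nat_lit 0, nat_lit 870609, [nat_lit 2032000001, nat_lit 4688000000, nat_lit 6250000000], [], [nat_lit 21873348566, nat_lit 23324793263, nat_lit 21044844536, nat_lit 22422850192, nat_lit 18162812989, nat_lit 18641583459, nat_lit 18081796963, nat_lit 18535139411], nat_lit 1271250, nat_lit 1271250, nat_lit 462650, nat_lit 780000, nat_lit 0, nat_lit 1100001, [nat_lit 490000, nat_lit 1100000, nat_lit 1442500], [nat_lit 6, nat_lit 40, nat_lit 40, nat_lit 80, nat_lit 3, nat_lit 289, nat_lit 75, nat_lit 11]⟩, ⟨p081_k13, nat_lit 0, nat_lit 0, nat_lit 92, nat_lit 0, nat_lit 0, [nat_lit 4688000000, nat_lit 7968000000, nat_lit 11872000000], [], [nat_lit 8935712263, nat_lit 12767957416, nat_lit 9122011784, nat_lit 12732611336, nat_lit 22013918996, nat_lit 24695468924, nat_lit 21468210722, nat_lit 23789430450], nat_lit 0, nat_lit 0, nat_lit 0, nat_lit 0, nat_lit 0, nat_lit 0, [],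 [nat_lit 21, nat_lit 40, nat_lit 40, nat_lit 80, nat_lit 14, nat_lit 428, nat_lit 200, nat_lit 11]⟩,
 zbF0, [⟨nat_lit 0, nat_lit 100, nat_lit 78, nat_lit 81, nat_lit 851679709⟩, ⟨nat_lit 19, nat_lit 100, nat_lit 76, nat_lit 82, nat_lit 706296339⟩]⟩
noncomputable def p081_l73 : Lf2 := ⟨nat_lit 0, nat_lit 10, [nat_lit 0, nat_lit 5, nat_lit 5, nat_lit 20], false, nat_lit 0, nat_lit 160, nat_lit 0, nat_lit 160, ⟨nat_lit 1000, nat_lit 0, nat_lit 0, nat_lit 0, nat_lit 0, nat_lit 0, nat_lit 0, nat_lit 0, nat_lit 0, nat_lit 0, nat_lit 0, nat_lit 0, nat_lit 0, nat_lit 0, nat_lit 0, nat_lit 0, false, false⟩,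
 nat_lit 0, nat_lit 10726, nat_lit 0, nat_lit 0, nat_lit 8044, nat_lit 15377, nat_lit 490, nat_lit 0, nat_lit 0, nat_lit 2667, nat_lit 0, nat_lit 0, nat_lit 0, nat_lit 0, nat_lit 0, nat_lit 0, nat_lit 0, nat_lit 0, [],
 ⟨p081_k10, nat_lit 0, nat_lit 0, nat_lit 573, nat_lit 0, nat_lit 1099400, [nat_lit 2032000001, nat_lit 4688000000, nat_lit 6250000000], [], [nat_lit 24444369120, nat_lit 26662242536, nat_lit 27430425120, nat_lit 30226597336, nat_lit 21046614960, nat_lit 21978238616, nat_lit 22442091698, nat_lit 22512950288], nat_lit 1271250, nat_lit 1271250, nat_lit 780000, nat_lit 1762500, nat_lit 0, nat_lit 1100001, [nat_lit 490000, nat_lit 1100000, nat_lit 1442500], [nat_lit 6, nat_lit 40, nat_lit 40, nat_lit 80, nat_lit 3, nat_lit 317, nat_lit 100, nat_lit 12]⟩, ⟨p081_k13, nat_lit 0, nat_lit 0, nat_lit 212, nat_lit 0, nat_lit 0, [nat_lit 4688000000, nat_lit 7968000000, nat_lit 11872000000], [], [nat_lit 15847706124,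 nat_lit 22266320144, nat_lit 22831521008, nat_lit 29939736468, nat_lit 4612563228, nat_lit 9852199408, nat_lit 9855026960, nat_lit 14396068372], nat_lit 0, nat_lit 0, nat_lit 0, nat_lit 0, nat_lit 0, nat_lit 0, [], [nat_lit 21, nat_lit 40, nat_lit 40, nat_lit 80, nat_lit 14, nat_lit 401, nat_lit 175, nat_lit 10]⟩,
 zbF0, [⟨nat_lit 0, nat_lit 99, nat_lit 77, nat_lit 100, nat_lit 42875420⟩]⟩
noncomputable def p081_l74 : Lf2 := ⟨nat_lit 0, nat_lit 10, [nat_lit 0, nat_lit 5, nat_lit 5, nat_lit 20], false, nat_lit 0, nat_lit 160, nat_lit 160, nat_lit 336, ⟨nat_lit 1000, nat_lit 0, nat_lit 0, nat_lit 0, nat_lit 0, nat_lit 0, nat_lit 0, nat_lit 0, nat_lit 0, nat_lit 0, nat_lit 0, nat_lit 0, nat_lit 0, nat_lit 0, nat_lit 0, nat_lit 0, false, false⟩,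
 nat_lit 0, nat_lit 10879, nat_lit 0, nat_lit 0, nat_lit 8159, nat_lit 8531, nat_lit 506, nat_lit 0, nat_lit 0, nat_lit 0, nat_lit 0, nat_lit 0, nat_lit 0, nat_lit 0, nat_lit 0, nat_lit 0, nat_lit 0, nat_lit 0, [],
 ⟨p081_k10, nat_lit 0, nat_lit 0, nat_lit 518, nat_lit 0, nat_lit 966091, [nat_lit 2032000001, nat_lit 4688000000, nat_lit 6250000000], [], [nat_lit 24221020472, nat_lit 24151769417, nat_lit 27600220320, nat_lit 28306362152, nat_lit 19199929796, nat_lit 19467272692, nat_lit 22102101358, nat_lit 21201865855], nat_lit 1271250, nat_lit 1271250, nat_lit 780000, nat_lit 1762500, nat_lit 0, nat_lit 1100001, [nat_lit 490000, nat_lit 1100000, nat_lit 1442500], [nat_lit 6, nat_lit 40, nat_lit 40, nat_lit 80, nat_lit 3, nat_lit 317, nat_lit 100, nat_lit 12]⟩, ⟨p081_k13, nat_lit 0, nat_lit 0, nat_lit 66, nat_lit 0, nat_lit 0, [nat_lit 4688000000, nat_lit 7968000000, nat_lit 11872000000], [], [nat_lit 5873985732,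 nat_lit 10119931028, nat_lit 11744676164, nat_lit 15652747516, nat_lit 22090028996, nat_lit 25015040521, nat_lit 24708183454, nat_lit 26938141422], nat_lit 0, nat_lit 0, nat_lit 0, nat_lit 0, nat_lit 0, nat_lit 0, [], [nat_lit 21, nat_lit 40, nat_lit 40, nat_lit 80, nat_lit 14, nat_lit 456, nat_lit 225, nat_lit 11]⟩,
 zbF0, [⟨nat_lit 7, nat_lit 92, nat_lit 100, nat_lit 75, nat_lit 868750042⟩]⟩
noncomputable def p081_l75 : Lf2 := ⟨nat_lit 0, nat_lit 10, [nat_lit 0, nat_lit 5, nat_lit 5, nat_lit 20], false, nat_lit 0, nat_lit 160, nat_lit 160, nat_lit 336, ⟨nat_lit 1000, nat_lit 0, nat_lit 0, nat_lit 0, nat_lit 0, nat_lit 0, nat_lit 0, nat_lit 0, nat_lit 0, nat_lit 0, nat_lit 0, nat_lit 0, nat_lit 0, nat_lit 0, nat_lit 0, nat_lit 0, false, false⟩,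
 nat_lit 0, nat_lit 8599, nat_lit 0, nat_lit 0, nat_lit 6575, nat_lit 7262, nat_lit 2829, nat_lit 0, nat_lit 0, nat_lit 0, nat_lit 0, nat_lit 0, nat_lit 0, nat_lit 0, nat_lit 0, nat_lit 0, nat_lit 0, nat_lit 0, [],
 ⟨p081_k22, nat_lit 0, nat_lit 0, nat_lit 526, nat_lit 0, nat_lit 983483, [nat_lit 2032000001, nat_lit 4688000000, nat_lit 6250000000], [], [nat_lit 21831140513, nat_lit 22603103525, nat_lit 25869839888, nat_lit 26478203775, nat_lit 17664327388, nat_lit 17919383975, nat_lit 20389303118, nat_lit 20811546000], nat_lit 1271250, nat_lit 1271250, nat_lit 780000, nat_lit 1762500, nat_lit 0, nat_lit 1100001, [nat_lit 490000, nat_lit 1100000, nat_lit 1442500], [nat_lit 6, nat_lit 40, nat_lit 40, nat_lit 80, nat_lit 3, nat_lit 317, nat_lit 100, nat_lit 12]⟩, ⟨p081_k13, nat_lit 0, nat_lit 0, nat_lit 66, nat_lit 0, nat_lit 0, [nat_lit 4688000000, nat_lit 7968000000, nat_lit 11872000000], [], [nat_lit 8033097864,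 nat_lit 11856699656, nat_lit 13437175488, nat_lit 16380042440, nat_lit 21522638792, nat_lit 24200321202, nat_lit 24212149628, nat_lit 26281035964], nat_lit 0, nat_lit 0, nat_lit 0, nat_lit 0, nat_lit 0, nat_lit 0, [], [nat_lit 21, nat_lit 40, nat_lit 40, nat_lit 80, nat_lit 14, nat_lit 456, nat_lit 225, nat_lit 11]⟩,
 zbF0, [⟨nat_lit 19, nat_lit 100, nat_lit 92, nat_lit 75, nat_lit 772163313⟩]⟩
noncomputable def p081_l76 : Lf2 := ⟨nat_lit 0, nat_lit 10, [nat_lit 0, nat_lit 5, nat_lit 5, nat_lit 20], false, nat_lit 0, nat_lit 160, nat_lit 160, nat_lit 336, ⟨nat_lit 1000, nat_lit 0, nat_lit 0, nat_lit 0, nat_lit 0, nat_lit 0, nat_lit 0, nat_lit 0, nat_lit 0, nat_lit 0, nat_lit 0, nat_lit 0, nat_lit 0, nat_lit 0, nat_lit 0, nat_lit 0, false, false⟩,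
 nat_lit 0, nat_lit 7381, nat_lit 0, nat_lit 0, nat_lit 5753, nat_lit 6826, nat_lit 2232, nat_lit 0, nat_lit 0, nat_lit 0, nat_lit 0, nat_lit 0, nat_lit 0, nat_lit 0, nat_lit 0, nat_lit 0, nat_lit 0, nat_lit 0, [],
 ⟨p081_k20, nat_lit 0, nat_lit 0, nat_lit 552, nat_lit 0, nat_lit 1043136, [nat_lit 2032000001, nat_lit 4688000000, nat_lit 6250000000], [], [nat_lit 21331118531, nat_lit 22739606082, nat_lit 25163055561, nat_lit 26278301682, nat_lit 17577957861, nat_lit 18070380975, nat_lit 21402177668, nat_lit 21532017660], nat_lit 1271250, nat_lit 1271250, nat_lit 780000, nat_lit 1762500, nat_lit 0, nat_lit 1100001, [nat_lit 490000, nat_lit 1100000, nat_lit 1442500], [nat_lit 6, nat_lit 40, nat_lit 40, nat_lit 80, nat_lit 3, nat_lit 317, nat_lit 100, nat_lit 12]⟩, ⟨p081_k13, nat_lit 0, nat_lit 0, nat_lit 66, nat_lit 0, nat_lit 0, [nat_lit 4688000000, nat_lit 7968000000, nat_lit 11872000000], [], [nat_lit 8774920472,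 nat_lit 12453414488, nat_lit 14061255424, nat_lit 16902972120, nat_lit 21328428453, nat_lit 23920401877, nat_lit 24041723506, nat_lit 26055269234], nat_lit 0, nat_lit 0, nat_lit 0, nat_lit 0, nat_lit 0, nat_lit 0, [], [nat_lit 21, nat_lit 40, nat_lit 40, nat_lit 80, nat_lit 14, nat_lit 456, nat_lit 225, nat_lit 11]⟩,
 zbF0, [⟨nat_lit 19, nat_lit 100, nat_lit 76, nat_lit 82, nat_lit 216980460⟩, ⟨nat_lit 7, nat_lit 92, nat_lit 100, nat_lit 75, nat_lit 524779015⟩]⟩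
noncomputable def p081_l77 : Lf2 := ⟨nat_lit 0, nat_lit 10, [nat_lit 0, nat_lit 5, nat_lit 5, nat_lit 20], false, nat_lit 0, nat_lit 160, nat_lit 0, nat_lit 160, ⟨nat_lit 1000, nat_lit 0, nat_lit 0, nat_lit 0, nat_lit 0, nat_lit 0, nat_lit 0, nat_lit 0, nat_lit 0, nat_lit 0, nat_lit 0, nat_lit 0, nat_lit 0, nat_lit 0, nat_lit 0, nat_lit 0, false, false⟩,
 nat_lit 0, nat_lit 7096, nat_lit 0, nat_lit 0, nat_lit 5744, nat_lit 7754, nat_lit 652, nat_lit 0, nat_lit 0, nat_lit 1601, nat_lit 0, nat_lit 0, nat_lit 0, nat_lit 0, nat_lit 0, nat_lit 0, nat_lit 0, nat_lit 0, [],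
 ⟨p081_k16, nat_lit 0, nat_lit 0, nat_lit 625, nat_lit 0, nat_lit 1159134, [nat_lit 2032000001, nat_lit 4688000000, nat_lit 6250000000], [], [nat_lit 23318864740, nat_lit 26245590106, nat_lit 26262791136, nat_lit 28491061152, nat_lit 21173120588, nat_lit 22064166580, nat_lit 23072006203, nat_lit 23417247840], nat_lit 1271250, nat_lit 1271250, nat_lit 545600, nat_lit 1744500, nat_lit 0, nat_lit 1100001, [nat_lit 490000, nat_lit 1100000, nat_lit 1442500], [nat_lit 6, nat_lit 40, nat_lit 40, nat_lit 80, nat_lit 3, nat_lit 317, nat_lit 100, nat_lit 12]⟩, ⟨p081_k13, nat_lit 0, nat_lit 0, nat_lit 230, nat_lit 0, nat_lit 0, [nat_lit 4688000000, nat_lit 7968000000, nat_lit 11872000000], [], [nat_lit 21523695481, nat_lit 24615847920, nat_lit 24238689240, nat_lit 27263959392, nat_lit 16840118797, nat_lit 19671588916, nat_lit 20192778952, nat_lit 22265822576], nat_lit 0, nat_lit 0, nat_lit 0, nat_lit 0, nat_lit 0, nat_lit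 0, [], [nat_lit 21, nat_lit 40, nat_lit 40, nat_lit 80, nat_lit 14, nat_lit 401, nat_lit 175, nat_lit 10]⟩,
 zbF0, [⟨nat_lit 0, nat_lit 94, nat_lit 62, nat_lit 100, nat_lit 608600302⟩]⟩
noncomputable def p081_l78 : Lf2 := ⟨nat_lit 0, nat_lit 10, [nat_lit 0, nat_lit 5, nat_lit 5, nat_lit 20], false, nat_lit 0, nat_lit 160, nat_lit 160, nat_lit 336, ⟨nat_lit 1000, nat_lit 0, nat_lit 0, nat_lit 0, nat_lit 0, nat_lit 0, nat_lit 0, nat_lit 0, nat_lit 0, nat_lit 0, nat_lit 0, nat_lit 0, nat_lit 0, nat_lit 0, nat_lit 0, nat_lit 0, false, false⟩,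
 nat_lit 0, nat_lit 6719, nat_lit 0, nat_lit 0, nat_lit 5439, nat_lit 6691, nat_lit 1272, nat_lit 0, nat_lit 0, nat_lit 0, nat_lit 0, nat_lit 0, nat_lit 0, nat_lit 0, nat_lit 0, nat_lit 0, nat_lit 0, nat_lit 0, [],
 ⟨p081_k16, nat_lit 0, nat_lit 0, nat_lit 625, nat_lit 0, nat_lit 1159134, [nat_lit 2032000001, nat_lit 4688000000, nat_lit 6250000000], [], [nat_lit 22726577066, nat_lit 25548060474, nat_lit 25737155966, nat_lit 27890117212, nat_lit 19831986460, nat_lit 20861746431, nat_lit 21991193652, nat_lit 23241610540], nat_lit 1271250, nat_lit 1271250, nat_lit 545600, nat_lit 1744500, nat_lit 0, nat_lit 1100001, [nat_lit 490000, nat_lit 1100000, nat_lit 1442500], [nat_lit 6, nat_lit 40, nat_lit 40, nat_lit 80, nat_lit 3, nat_lit 317, nat_lit 100, nat_lit 12]⟩, ⟨p081_k13, nat_lit 0, nat_lit 0, nat_lit 84, nat_lit 0, nat_lit 0, [nat_lit 4688000000, nat_lit 7968000000, nat_lit 11872000000], [], [nat_lit 8794814891,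 nat_lit 12594617643, nat_lit 14254491184, nat_lit 17064888420, nat_lit 21761954756, nat_lit 24425850754, nat_lit 23988953950, nat_lit 25985364398], nat_lit 0, nat_lit 0, nat_lit 0, nat_lit 0, nat_lit 0, nat_lit 0, [], [nat_lit 21, nat_lit 40, nat_lit 40, nat_lit 80, nat_lit 14, nat_lit 456, nat_lit 225, nat_lit 11]⟩,
 zbF0, [⟨nat_lit 0, nat_lit 100, nat_lit 69, nat_lit 96, nat_lit 541581378⟩, ⟨nat_lit 19, nat_lit 100, nat_lit 76, nat_lit 82, nat_lit 145306814⟩, ⟨nat_lit 7, nat_lit 92, nat_lit 100, nat_lit 75, nat_lit 514442122⟩]⟩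
noncomputable def b_V_800_600_10_5 : St := ⟨true, nat_lit 1, nat_lit 0, nat_lit 1, nat_lit 80, nat_lit 320, nat_lit 360, nat_lit 240, nat_lit 280, nat_lit 64, nat_lit 240, nat_lit 40, nat_lit 80, nat_lit 0, nat_lit 160, nat_lit 0, nat_lit 336, nat_lit 0, nat_lit 40, nat_lit 0, nat_lit 0, nat_lit 0, nat_lit 0⟩
theorem d_V_800_600_10_5 (h : EB TB.env) : Dead b_V_800_600_10_5 := chkB_sound0 h (T :=
(.spl (nat_lit 0) (nat_lit 340)
(.spl (nat_lit 2) (nat_lit 120)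
(.spl (nat_lit 5) (nat_lit 160)
(.leaf p081_l67)
(.spl (nat_lit 3) (nat_lit 60)
(.trX (nat_lit 19) (nat_lit 100) (nat_lit 85) (nat_lit 73) (nat_lit 312) (.spl (nat_lit 0) (nat_lit 330)
(.leaf p081_l68)
(.trZ (nat_lit 0) (nat_lit 100) (nat_lit 78) (nat_lit 81) (nat_lit 76) (.leaf p081_l69))))
(.spl (nat_lit 0) (nat_lit 330)
(.spl (nat_lit 0) (nat_lit 325)
(.leaf p081_l70)
(.trZ (nat_lit 0) (nat_lit 100) (nat_lit 80) (nat_lit 78) (nat_lit 72) (.leaf p081_l71)))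
(.trZ (nat_lit 0) (nat_lit 100) (nat_lit 78) (nat_lit 81) (nat_lit 76) (.leaf p081_l72)))))
(.spl (nat_lit 5) (nat_lit 160)
(.leaf p081_l73)
(.spl (nat_lit 0) (nat_lit 330)
(.spl (nat_lit 0) (nat_lit 325)
(.leaf p081_l74)
(.leaf p081_l75))
(.leaf p081_l76))))
(.trZ (nat_lit 0) (nat_lit 100) (nat_lit 73) (nat_lit 85) (nat_lit 88) (.spl (nat_lit 5) (nat_lit 160)
(.leaf p081_l77)
(.leaf p081_l78))))) (by decide +kernel)
noncomputable def p081_l79 : Lf2 := ⟨nat_lit 0, nat_lit 10, [nat_lit 0, nat_lit 5, nat_lit 5, nat_lit 20], false, nat_lit 160, nat_lit 260, nat_lit 0, nat_lit 160, ⟨nat_lit 813, nat_lit 0, nat_lit 187, nat_lit 6, nat_lit 190, nat_lit 187, nat_lit 146, nat_lit 187, nat_lit 89743, nat_lit 288, nat_lit 6667, nat_lit 202, nat_lit 47144271, nat_lit 0, nat_lit 0, nat_lit 4325612, false, false⟩,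
 nat_lit 0, nat_lit 7708, nat_lit 0, nat_lit 0, nat_lit 5780, nat_lit 10357, nat_lit 324, nat_lit 0, nat_lit 0, nat_lit 1948, nat_lit 0, nat_lit 0, nat_lit 0, nat_lit 0, nat_lit 0, nat_lit 187000, nat_lit 0, nat_lit 0, [(nat_lit 18, [(nat_lit 6, nat_lit 187)])],
 ⟨p081_k10, nat_lit 0, nat_lit 0, nat_lit 456, nat_lit 0, nat_lit 971209, [nat_lit 1850186134, nat_lit 3579513867, nat_lit 4351800400], [], [nat_lit 24513179714, nat_lit 25100166371, nat_lit 25246261869, nat_lit 26025709415, nat_lit 26168073015, nat_lit 27020936679, nat_lit 26685587575, nat_lit 27339108875], nat_lit 1271250, nat_lit 1271250, nat_lit 382400, nat_lit 1731000, nat_lit 1100001, nat_lit 1956250, [nat_lit 490000, nat_lit 1100000, nat_lit 1442500], [nat_lit 6, nat_lit 40, nat_lit 40, nat_lit 80, nat_lit 3, nat_lit 345, nat_lit 125, nat_lit 13]⟩, ⟨p081_k13, nat_lit 0, nat_lit 0, nat_lit 240, nat_lit 0, nat_lit 0, [nat_lit 3811344000, nat_lit 6477984000,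 nat_lit 9651936000], [], [nat_lit 16507796711, nat_lit 18269564661, nat_lit 18684942036, nat_lit 20370247010, nat_lit 8260806489, nat_lit 10269022003, nat_lit 10726045824, nat_lit 12103344462], nat_lit 0, nat_lit 0, nat_lit 0, nat_lit 0, nat_lit 0, nat_lit 0, [], [nat_lit 21, nat_lit 40, nat_lit 40, nat_lit 80, nat_lit 14, nat_lit 401, nat_lit 175, nat_lit 11]⟩,
 ⟨nat_lit 3872, nat_lit 4473, ⟨.ofNat (nat_lit 311945), .ofNat (nat_lit 611083), .ofNat (nat_lit 333494), .ofNat (nat_lit 632632), .ofNat (nat_lit 324151), .ofNat (nat_lit 608080), .ofNat (nat_lit 345927), .ofNat (nat_lit 629856)⟩, ⟨.ofNat (nat_lit 259489), .ofNat (nat_lit 429434), .ofNat (nat_lit 302621), .ofNat (nat_lit 472567), .ofNat (nat_lit 261131), .ofNat (nat_lit 422435), .ofNat (nat_lit 304717), .ofNat (nat_lit 466021)⟩⟩, [⟨nat_lit 0, nat_lit 100, nat_lit 75, nat_lit 92, nat_lit 471848273⟩, ⟨nat_lit 4, nat_lit 100, nat_lit 76, nat_lit 72, nat_lit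 487984135⟩]⟩
noncomputable def p081_l80 : Lf2 := ⟨nat_lit 0, nat_lit 10, [nat_lit 0, nat_lit 5, nat_lit 5, nat_lit 20], false, nat_lit 160, nat_lit 232, nat_lit 0, nat_lit 160, ⟨nat_lit 1000, nat_lit 0, nat_lit 0, nat_lit 0, nat_lit 0, nat_lit 0, nat_lit 0, nat_lit 0, nat_lit 0, nat_lit 0, nat_lit 0, nat_lit 0, nat_lit 0, nat_lit 0, nat_lit 0, nat_lit 0, false, false⟩,
 nat_lit 0, nat_lit 7136, nat_lit 0, nat_lit 0, nat_lit 5776, nat_lit 8501, nat_lit 693, nat_lit 0, nat_lit 0, nat_lit 1908, nat_lit 0, nat_lit 0, nat_lit 0, nat_lit 0, nat_lit 0, nat_lit 0, nat_lit 0, nat_lit 0, [],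
 ⟨p081_k16, nat_lit 0, nat_lit 0, nat_lit 480, nat_lit 0, nat_lit 1050768, [nat_lit 2032000001, nat_lit 4688000000, nat_lit 6250000000], [], [nat_lit 19393870483, nat_lit 20817253876, nat_lit 21540624720, nat_lit 23435675360, nat_lit 21240553054, nat_lit 23379935862, nat_lit 23673030591, nat_lit 25317046391], nat_lit 1271250, nat_lit 1271250, nat_lit 545600, nat_lit 1744500, nat_lit 1100001, nat_lit 1716500, [nat_lit 490000, nat_lit 1100000, nat_lit 1442500], [nat_lit 6, nat_lit 40, nat_lit 40, nat_lit 80, nat_lit 3, nat_lit 345, nat_lit 125, nat_lit 12]⟩, ⟨p081_k13, nat_lit 0, nat_lit 0, nat_lit 221, nat_lit 0, nat_lit 0, [nat_lit 4688000000, nat_lit 7968000000, nat_lit 11872000000], [], [nat_lit 19801605996, nat_lit 21433217300, nat_lit 24050490060, nat_lit 25647083454, nat_lit 15250576900, nat_lit 16744720665, nat_lit 18573273988, nat_lit 19881957516], nat_lit 0, nat_lit 0, nat_lit 0, nat_lit 0, nat_lit 0, nat_lit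 0, [], [nat_lit 21, nat_lit 40, nat_lit 40, nat_lit 80, nat_lit 14, nat_lit 401, nat_lit 175, nat_lit 10]⟩,
 zbF0, [⟨nat_lit 0, nat_lit 100, nat_lit 68, nat_lit 92, nat_lit 422129256⟩, ⟨nat_lit 4, nat_lit 100, nat_lit 66, nat_lit 72, nat_lit 801806000⟩]⟩
noncomputable def p081_l81 : Lf2 := ⟨nat_lit 0, nat_lit 10, [nat_lit 0, nat_lit 5, nat_lit 5, nat_lit 20], false, nat_lit 160, nat_lit 260, nat_lit 0, nat_lit 160, ⟨nat_lit 1000, nat_lit 0, nat_lit 0, nat_lit 0, nat_lit 0, nat_lit 0, nat_lit 0, nat_lit 0, nat_lit 0, nat_lit 0, nat_lit 0, nat_lit 0, nat_lit 0, nat_lit 0, nat_lit 0, nat_lit 0, false, false⟩,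
 nat_lit 0, nat_lit 10375, nat_lit 0, nat_lit 0, nat_lit 7781, nat_lit 8120, nat_lit 466, nat_lit 0, nat_lit 0, nat_lit 3092, nat_lit 0, nat_lit 0, nat_lit 0, nat_lit 0, nat_lit 0, nat_lit 0, nat_lit 0, nat_lit 0, [],
 ⟨p081_k10, nat_lit 0, nat_lit 0, nat_lit 594, nat_lit 0, nat_lit 1285528, [nat_lit 2032000001, nat_lit 4688000000, nat_lit 6250000000], [], [nat_lit 22860941740, nat_lit 24721747876, nat_lit 23123341240, nat_lit 24592758984, nat_lit 24357665986, nat_lit 27089387967, nat_lit 24983243368, nat_lit 27750832960], nat_lit 1271250, nat_lit 1271250, nat_lit 490000, nat_lit 1740000, nat_lit 1100001, nat_lit 1956250, [nat_lit 490000, nat_lit 1100000, nat_lit 1442500], [nat_lit 6, nat_lit 40, nat_lit 40, nat_lit 80, nat_lit 3, nat_lit 345, nat_lit 125, nat_lit 12]⟩, ⟨p081_k19, nat_lit 0, nat_lit 0, nat_lit 182, nat_lit 0, nat_lit 0, [nat_lit 4688000000, nat_lit 7968000000, nat_lit 9842000000], [], [nat_lit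 16477594800, nat_lit 18621482880, nat_lit 20598450480, nat_lit 22403458080, nat_lit 12462453680, nat_lit 13933570080, nat_lit 15357643920, nat_lit 16521214240], nat_lit 0, nat_lit 0, nat_lit 0, nat_lit 0, nat_lit 0, nat_lit 0, [], [nat_lit 29, nat_lit 40, nat_lit 40, nat_lit 80, nat_lit 17, nat_lit 401, nat_lit 175, nat_lit 12]⟩,
 zbF0, [⟨nat_lit 0, nat_lit 94, nat_lit 62, nat_lit 100, nat_lit 664948933⟩, ⟨nat_lit 4, nat_lit 100, nat_lit 71, nat_lit 71, nat_lit 856750001⟩]⟩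
noncomputable def p081_l82 : Lf2 := ⟨nat_lit 0, nat_lit 10, [nat_lit 0, nat_lit 5, nat_lit 5, nat_lit 20], true, nat_lit 160, nat_lit 260, nat_lit 160, nat_lit 336, ⟨nat_lit 0, nat_lit 0, nat_lit 1000, nat_lit 6, nat_lit 141, nat_lit 1000, nat_lit 146, nat_lit 1000, nat_lit 89743, nat_lit 288, nat_lit 187267, nat_lit 321, nat_lit 51168325, nat_lit 0, nat_lit 0, nat_lit 3798796, false, false⟩,
 nat_lit 0, nat_lit 4187, nat_lit 0, nat_lit 0, nat_lit 3140, nat_lit 0, nat_lit 0, nat_lit 0, nat_lit 0, nat_lit 0, nat_lit 0, nat_lit 0, nat_lit 0, nat_lit 0, nat_lit 76, nat_lit 400000, nat_lit 0, nat_lit 0, [(nat_lit 18, [(nat_lit 5, nat_lit 1000)])],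
 ⟨p081_k10, nat_lit 0, nat_lit 0, nat_lit 312, nat_lit 0, nat_lit 630144, [nat_lit 1536800000, nat_lit 802000001, nat_lit 14800000], [], [nat_lit 15897703153, nat_lit 17163582313, nat_lit 15948236241, nat_lit 17205504520, nat_lit 19538015296, nat_lit 21000747650, nat_lit 19366089200, nat_lit 20807908890], nat_lit 1271250, nat_lit 1271250, nat_lit 382400, nat_lit 490000, nat_lit 1100001, nat_lit 1956250, [nat_lit 490000, nat_lit 1100000, nat_lit 1442500], [nat_lit 6, nat_lit 40, nat_lit 40, nat_lit 80, nat_lit 3, nat_lit 317, nat_lit 100, nat_lit 11]⟩, C1.Rw.none,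
 ⟨nat_lit 3872, nat_lit 4473, ⟨.ofNat (nat_lit 311945), .ofNat (nat_lit 339140), .ofNat (nat_lit 355043), .ofNat (nat_lit 382237), .ofNat (nat_lit 324151), .ofNat (nat_lit 349963), .ofNat (nat_lit 367703), .ofNat (nat_lit 393514)⟩, ⟨.ofNat (nat_lit 259489), .ofNat (nat_lit 429434), .ofNat (nat_lit 302621), .ofNat (nat_lit 472567), .ofNat (nat_lit 261131), .ofNat (nat_lit 422435), .ofNat (nat_lit 304717), .ofNat (nat_lit 466021)⟩⟩, [⟨nat_lit 0, nat_lit 100, nat_lit 80, nat_lit 89, nat_lit 607976550⟩, ⟨nat_lit 16, nat_lit 76, nat_lit 100, nat_lit 72, nat_lit 55610120⟩, ⟨nat_lit 16, nat_lit 83, nat_lit 100, nat_lit 83, nat_lit 190152443⟩]⟩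
noncomputable def p081_l83 : Lf2 := ⟨nat_lit 0, nat_lit 10, [nat_lit 0, nat_lit 5, nat_lit 5, nat_lit 20], true, nat_lit 160, nat_lit 260, nat_lit 160, nat_lit 336, ⟨nat_lit 0, nat_lit 0, nat_lit 1000, nat_lit 6, nat_lit 149, nat_lit 1000, nat_lit 146, nat_lit 1000, nat_lit 89743, nat_lit 288, nat_lit 209067, nat_lit 327, nat_lit 50557957, nat_lit 0, nat_lit 0, nat_lit 3891272, false, false⟩,
 nat_lit 0, nat_lit 4185, nat_lit 0, nat_lit 0, nat_lit 3138, nat_lit 0, nat_lit 0, nat_lit 0, nat_lit 0, nat_lit 0, nat_lit 0, nat_lit 0, nat_lit 0, nat_lit 0, nat_lit 76, nat_lit 400000, nat_lit 0, nat_lit 0, [(nat_lit 18, [(nat_lit 5, nat_lit 1000)])],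
 ⟨p081_k10, nat_lit 0, nat_lit 0, nat_lit 269, nat_lit 0, nat_lit 574174, [nat_lit 1536800000, nat_lit 802000001, nat_lit 14800000], [], [nat_lit 15954936009, nat_lit 17211550084, nat_lit 16208051980, nat_lit 17447301410, nat_lit 19372012640, nat_lit 20806259613, nat_lit 19563170352, nat_lit 20864555229], nat_lit 1271250, nat_lit 1271250, nat_lit 490000, nat_lit 631250, nat_lit 1100001, nat_lit 1956250, [nat_lit 490000, nat_lit 1100000, nat_lit 1442500], [nat_lit 6, nat_lit 40, nat_lit 40, nat_lit 80, nat_lit 3, nat_lit 317, nat_lit 100, nat_lit 11]⟩, C1.Rw.none,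
 ⟨nat_lit 3872, nat_lit 4473, ⟨.ofNat (nat_lit 339140), .ofNat (nat_lit 373132), .ofNat (nat_lit 360688), .ofNat (nat_lit 394681), .ofNat (nat_lit 349963), .ofNat (nat_lit 382227), .ofNat (nat_lit 371739), .ofNat (nat_lit 404003)⟩, ⟨.ofNat (nat_lit 259489), .ofNat (nat_lit 429434), .ofNat (nat_lit 302621), .ofNat (nat_lit 472567), .ofNat (nat_lit 261131), .ofNat (nat_lit 422435), .ofNat (nat_lit 304717), .ofNat (nat_lit 466021)⟩⟩, [⟨nat_lit 0, nat_lit 100, nat_lit 78, nat_lit 85, nat_lit 84527267⟩, ⟨nat_lit 16, nat_lit 76, nat_lit 100, nat_lit 72, nat_lit 146981668⟩, ⟨nat_lit 16, nat_lit 83, nat_lit 100, nat_lit 83, nat_lit 113018537⟩]⟩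
noncomputable def p081_l84 : Lf2 := ⟨nat_lit 0, nat_lit 10, [nat_lit 0, nat_lit 5, nat_lit 5, nat_lit 20], false, nat_lit 160, nat_lit 260, nat_lit 160, nat_lit 336, ⟨nat_lit 409, nat_lit 0, nat_lit 591, nat_lit 6, nat_lit 161, nat_lit 591, nat_lit 146, nat_lit 591, nat_lit 89743, nat_lit 288, nat_lit 244017, nat_lit 336, nat_lit 49521803, nat_lit 0, nat_lit 0, nat_lit 4037704, false, false⟩,
 nat_lit 0, nat_lit 5664, nat_lit 0, nat_lit 0, nat_lit 4247, nat_lit 2687, nat_lit 0, nat_lit 0, nat_lit 0, nat_lit 0, nat_lit 0, nat_lit 0, nat_lit 0, nat_lit 0, nat_lit 0, nat_lit 591000, nat_lit 0, nat_lit 0, [(nat_lit 18, [(nat_lit 6, nat_lit 591)])],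
 ⟨p081_k10, nat_lit 0, nat_lit 0, nat_lit 396, nat_lit 0, nat_lit 878009, [nat_lit 1457390401, nat_lit 1184709601, nat_lit 250877200], [], [nat_lit 18004335624, nat_lit 18493646314, nat_lit 18112985198, nat_lit 18590678138, nat_lit 20424314816, nat_lit 20838316988, nat_lit 20470243005, nat_lit 20916487262], nat_lit 1271250, nat_lit 1271250, nat_lit 631250, nat_lit 780000, nat_lit 1100001, nat_lit 1956250, [nat_lit 490000, nat_lit 1100000, nat_lit 1442500], [nat_lit 6, nat_lit 40, nat_lit 40, nat_lit 80, nat_lit 3, nat_lit 317, nat_lit 100, nat_lit 11]⟩, ⟨p081_k13, nat_lit 0, nat_lit 0, nat_lit 70, nat_lit 0, nat_lit 0, [nat_lit 1917392000, nat_lit 3258912000, nat_lit 4855648000], [], [nat_lit 3711007592, nat_lit 4466753925, nat_lit 3767309976, nat_lit 4502116786, nat_lit 8877668286, nat_lit 9332567272, nat_lit 8795160249, nat_lit 9238406756], nat_lit 0, nat_lit 0, nat_lit 0, nat_lit 0, nat_lit 0, nat_lit 0, [],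 [nat_lit 21, nat_lit 40, nat_lit 40, nat_lit 80, nat_lit 14, nat_lit 428, nat_lit 200, nat_lit 11]⟩,
 ⟨nat_lit 4183, nat_lit 4473, ⟨.ofNat (nat_lit 373177), .ofNat (nat_lit 407167), .ofNat (nat_lit 394739), .ofNat (nat_lit 428729), .ofNat (nat_lit 377684), .ofNat (nat_lit 410812), .ofNat (nat_lit 399346), .ofNat (nat_lit 432475)⟩, ⟨.ofNat (nat_lit 259489), .ofNat (nat_lit 429434), .ofNat (nat_lit 302621), .ofNat (nat_lit 472567), .ofNat (nat_lit 260409), .ofNat (nat_lit 426048), .ofNat (nat_lit 303743), .ofNat (nat_lit 469382)⟩⟩, [⟨nat_lit 16, nat_lit 83, nat_lit 100, nat_lit 83, nat_lit 291314931⟩, ⟨nat_lit 19, nat_lit 100, nat_lit 88, nat_lit 74, nat_lit 290103748⟩, ⟨nat_lit 19, nat_lit 100, nat_lit 76, nat_lit 82, nat_lit 20555684⟩]⟩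
noncomputable def p081_l85 : Lf2 := ⟨nat_lit 0, nat_lit 10, [nat_lit 0, nat_lit 5, nat_lit 5, nat_lit 20], false, nat_lit 160, nat_lit 244, nat_lit 160, nat_lit 336, ⟨nat_lit 1000, nat_lit 0, nat_lit 0, nat_lit 0, nat_lit 0, nat_lit 0, nat_lit 0, nat_lit 0, nat_lit 0, nat_lit 0, nat_lit 0, nat_lit 0, nat_lit 0, nat_lit 0, nat_lit 0, nat_lit 0, false, false⟩,
 nat_lit 0, nat_lit 6864, nat_lit 0, nat_lit 0, nat_lit 5350, nat_lit 6741, nat_lit 1977, nat_lit 0, nat_lit 0, nat_lit 0, nat_lit 0, nat_lit 0, nat_lit 0, nat_lit 0, nat_lit 0, nat_lit 0, nat_lit 0, nat_lit 0, [],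
 ⟨p081_k20, nat_lit 0, nat_lit 0, nat_lit 420, nat_lit 0, nat_lit 921765, [nat_lit 2032000001, nat_lit 4688000000, nat_lit 6250000000], [], [nat_lit 19387072952, nat_lit 19877778002, nat_lit 19384078802, nat_lit 19862542902, nat_lit 21010586754, nat_lit 21434920515, nat_lit 20956230250, nat_lit 21370137998], nat_lit 1271250, nat_lit 1271250, nat_lit 631250, nat_lit 780000, nat_lit 1100001, nat_lit 1819250, [nat_lit 490000, nat_lit 1100000, nat_lit 1442500], [nat_lit 6, nat_lit 40, nat_lit 40, nat_lit 80, nat_lit 3, nat_lit 317, nat_lit 100, nat_lit 11]⟩, ⟨p081_k13, nat_lit 0, nat_lit 0, nat_lit 70, nat_lit 0, nat_lit 0, [nat_lit 4688000000, nat_lit 7968000000, nat_lit 11872000000], [], [nat_lit 8791111076, nat_lit 10668473309, nat_lit 8919541852, nat_lit 10744644180, nat_lit 21604512527, nat_lit 22922818859, nat_lit 21386671065, nat_lit 22577760903], nat_lit 0, nat_lit 0, nat_lit 0, nat_lit 0, nat_lit 0, nat_lit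 0, [], [nat_lit 21, nat_lit 40, nat_lit 40, nat_lit 80, nat_lit 14, nat_lit 428, nat_lit 200, nat_lit 11]⟩,
 zbF0, [⟨nat_lit 16, nat_lit 78, nat_lit 100, nat_lit 82, nat_lit 466948818⟩, ⟨nat_lit 19, nat_lit 100, nat_lit 76, nat_lit 82, nat_lit 722480776⟩]⟩
noncomputable def p081_l86 : Lf2 := ⟨nat_lit 0, nat_lit 10, [nat_lit 0, nat_lit 5, nat_lit 5, nat_lit 20], false, nat_lit 160, nat_lit 232, nat_lit 160, nat_lit 296, ⟨nat_lit 497, nat_lit 0, nat_lit 503, nat_lit 6, nat_lit 163, nat_lit 503, nat_lit 132, nat_lit 503, nat_lit 163350, nat_lit 314, nat_lit 191072, nat_lit 322, nat_lit 50406615, nat_lit 0, nat_lit 0, nat_lit 3893332, false, false⟩,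
 nat_lit 0, nat_lit 6605, nat_lit 0, nat_lit 0, nat_lit 4953, nat_lit 4241, nat_lit 11, nat_lit 0, nat_lit 0, nat_lit 0, nat_lit 0, nat_lit 0, nat_lit 0, nat_lit 0, nat_lit 0, nat_lit 503000, nat_lit 0, nat_lit 0, [(nat_lit 18, [(nat_lit 6, nat_lit 503)])],
 ⟨p081_k10, nat_lit 0, nat_lit 0, nat_lit 447, nat_lit 0, nat_lit 979074, [nat_lit 1542949867, nat_lit 1706350134, nat_lit 1144147600], [], [nat_lit 18082121141, nat_lit 18518705192, nat_lit 18099372777, nat_lit 18515344413, nat_lit 19358099425, nat_lit 19773173752, nat_lit 19298265067, nat_lit 19667841773], nat_lit 1271250, nat_lit 1271250, nat_lit 490000, nat_lit 780000, nat_lit 1100001, nat_lit 1716500, [nat_lit 490000, nat_lit 1100000, nat_lit 1442500], [nat_lit 6, nat_lit 40, nat_lit 40, nat_lit 80, nat_lit 3, nat_lit 317, nat_lit 100, nat_lit 11]⟩, ⟨p081_k19, nat_lit 0, nat_lit 0, nat_lit 58, nat_lit 0, nat_lit 0, [nat_lit 2329936000, nat_lit 3960096000,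 nat_lit 4891474000], [], [nat_lit 4004106372, nat_lit 5230758412, nat_lit 3972810538, nat_lit 5029102028, nat_lit 9846327218, nat_lit 10751233300, nat_lit 9423978102, nat_lit 10283353494], nat_lit 0, nat_lit 0, nat_lit 0, nat_lit 0, nat_lit 0, nat_lit 0, [], [nat_lit 29, nat_lit 40, nat_lit 40, nat_lit 80, nat_lit 17, nat_lit 401, nat_lit 175, nat_lit 11]⟩,
 ⟨nat_lit 4183, nat_lit 4473, ⟨.ofNat (nat_lit 360749), .ofNat (nat_lit 428729), .ofNat (nat_lit 382312), .ofNat (nat_lit 450291), .ofNat (nat_lit 366218), .ofNat (nat_lit 432475), .ofNat (nat_lit 387880), .ofNat (nat_lit 454137)⟩, ⟨.ofNat (nat_lit 259489), .ofNat (nat_lit 381849), .ofNat (nat_lit 281055), .ofNat (nat_lit 403416), .ofNat (nat_lit 260409), .ofNat (nat_lit 379669), .ofNat (nat_lit 282076), .ofNat (nat_lit 401336)⟩⟩, [⟨nat_lit 0, nat_lit 100, nat_lit 83, nat_lit 92, nat_lit 465749663⟩, ⟨nat_lit 4, nat_lit 100, nat_lit 78, nat_lit 66, nat_lit 348224579⟩,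 ⟨nat_lit 7, nat_lit 100, nat_lit 100, nat_lit 71, nat_lit 425284172⟩]⟩
noncomputable def p081_l87 : Lf2 := ⟨nat_lit 0, nat_lit 5, [nat_lit 4, nat_lit 5, nat_lit 5, nat_lit 20], false, nat_lit 160, nat_lit 260, nat_lit 160, nat_lit 320, ⟨nat_lit 414, nat_lit 0, nat_lit 586, nat_lit 6, nat_lit 163, nat_lit 586, nat_lit 151, nat_lit 586, nat_lit 89743, nat_lit 288, nat_lit 191072, nat_lit 322, nat_lit 49027781, nat_lit 0, nat_lit 0, nat_lit 4108896, false, false⟩,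
 nat_lit 0, nat_lit 5662, nat_lit 0, nat_lit 0, nat_lit 4246, nat_lit 2782, nat_lit 0, nat_lit 0, nat_lit 0, nat_lit 0, nat_lit 0, nat_lit 0, nat_lit 0, nat_lit 0, nat_lit 0, nat_lit 586000, nat_lit 0, nat_lit 0, [(nat_lit 18, [(nat_lit 6, nat_lit 586)])],
 ⟨p081_k23, nat_lit 0, nat_lit 0, nat_lit 364, nat_lit 0, nat_lit 804477, [nat_lit 1462251734, nat_lit 1214348267, nat_lit 301631200], [], [nat_lit 17920284586, nat_lit 18404613204, nat_lit 18088375066, nat_lit 18550390152, nat_lit 20276037770, nat_lit 20877875746, nat_lit 20325807704, nat_lit 20777056863], nat_lit 1271250, nat_lit 1271250, nat_lit 490000, nat_lit 780000, nat_lit 1100001, nat_lit 1956250, [nat_lit 490000, nat_lit 1100000, nat_lit 1442500], [nat_lit 6, nat_lit 40, nat_lit 40, nat_lit 80, nat_lit 3, nat_lit 317, nat_lit 100, nat_lit 11]⟩, ⟨p081_k24, nat_lit 0, nat_lit 0, nat_lit 49, nat_lit 0, nat_lit 0, [nat_lit 1940832000, nat_lit 3298752000],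 [], [nat_lit 4397627384, nat_lit 5194922000, nat_lit 4461750956, nat_lit 5215883256, nat_lit 8877170028, nat_lit 9463444992, nat_lit 8706405056, nat_lit 9189198120], nat_lit 0, nat_lit 0, nat_lit 0, nat_lit 0, nat_lit 0, nat_lit 0, [], [nat_lit 39, nat_lit 40, nat_lit 40, nat_lit 80, nat_lit 7, nat_lit 345, nat_lit 125, nat_lit 11]⟩,
 ⟨nat_lit 4183, nat_lit 4473, ⟨.ofNat (nat_lit 360749), .ofNat (nat_lit 428729), .ofNat (nat_lit 382312), .ofNat (nat_lit 450291), .ofNat (nat_lit 366218), .ofNat (nat_lit 432475), .ofNat (nat_lit 387880), .ofNat (nat_lit 454137)⟩, ⟨.ofNat (nat_lit 281055), .ofNat (nat_lit 451000), .ofNat (nat_lit 302621), .ofNat (nat_lit 472567), .ofNat (nat_lit 282076), .ofNat (nat_lit 447715), .ofNat (nat_lit 303743), .ofNat (nat_lit 469382)⟩⟩, [⟨nat_lit 0, nat_lit 100, nat_lit 83, nat_lit 92, nat_lit 383738484⟩, ⟨nat_lit 16, nat_lit 83, nat_lit 100, nat_lit 83, nat_lit 279017570⟩, ⟨nat_lit 7, nat_lit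 93, nat_lit 100, nat_lit 81, nat_lit 268074857⟩]⟩
noncomputable def p081_l88 : Lf2 := ⟨nat_lit 0, nat_lit 10, [nat_lit 0, nat_lit 5, nat_lit 5, nat_lit 20], false, nat_lit 160, nat_lit 260, nat_lit 160, nat_lit 320, ⟨nat_lit 1000, nat_lit 0, nat_lit 0, nat_lit 0, nat_lit 0, nat_lit 0, nat_lit 0, nat_lit 0, nat_lit 0, nat_lit 0, nat_lit 0, nat_lit 0, nat_lit 0, nat_lit 0, nat_lit 0, nat_lit 0, false, false⟩,
 nat_lit 0, nat_lit 9808, nat_lit 0, nat_lit 0, nat_lit 7356, nat_lit 6741, nat_lit 539, nat_lit 0, nat_lit 0, nat_lit 0, nat_lit 0, nat_lit 0, nat_lit 0, nat_lit 0, nat_lit 0, nat_lit 0, nat_lit 0, nat_lit 0, [],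
 ⟨p081_k10, nat_lit 0, nat_lit 0, nat_lit 256, nat_lit 0, nat_lit 549456, [nat_lit 2032000001, nat_lit 4688000000, nat_lit 6250000000], [], [nat_lit 19719597472, nat_lit 20444126608, nat_lit 19362584080, nat_lit 20049044372, nat_lit 22467838076, nat_lit 23104339604, nat_lit 21986303892, nat_lit 22635047593], nat_lit 1271250, nat_lit 1271250, nat_lit 490000, nat_lit 780000, nat_lit 1100001, nat_lit 1956250, [nat_lit 490000, nat_lit 1100000, nat_lit 1442500], [nat_lit 6, nat_lit 40, nat_lit 40, nat_lit 80, nat_lit 3, nat_lit 317, nat_lit 100, nat_lit 11]⟩, ⟨p081_k19, nat_lit 0, nat_lit 0, nat_lit 75, nat_lit 0, nat_lit 0, [nat_lit 4688000000, nat_lit 7968000000, nat_lit 9842000000], [], [nat_lit 10592302438, nat_lit 12521924576, nat_lit 10744644180, nat_lit 12569746508, nat_lit 21430542010, nat_lit 22873541908, nat_lit 21014137430, nat_lit 22206343152], nat_lit 0, nat_lit 0, nat_lit 0, nat_lit 0, nat_lit 0, nat_lit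 0, [], [nat_lit 29, nat_lit 40, nat_lit 40, nat_lit 80, nat_lit 17, nat_lit 428, nat_lit 200, nat_lit 12]⟩,
 zbF0, [⟨nat_lit 0, nat_lit 100, nat_lit 83, nat_lit 92, nat_lit 832049112⟩, ⟨nat_lit 16, nat_lit 83, nat_lit 100, nat_lit 83, nat_lit 492301900⟩, ⟨nat_lit 19, nat_lit 100, nat_lit 85, nat_lit 84, nat_lit 649326669⟩]⟩
noncomputable def p081_l89 : Lf2 := ⟨nat_lit 0, nat_lit 10, [nat_lit 0, nat_lit 5, nat_lit 5, nat_lit 20], false, nat_lit 160, nat_lit 244, nat_lit 160, nat_lit 320, ⟨nat_lit 1000, nat_lit 0, nat_lit 0, nat_lit 0, nat_lit 0, nat_lit 0, nat_lit 0, nat_lit 0, nat_lit 0, nat_lit 0, nat_lit 0, nat_lit 0, nat_lit 0, nat_lit 0, nat_lit 0, nat_lit 0, false, false⟩,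
 nat_lit 0, nat_lit 6983, nat_lit 0, nat_lit 0, nat_lit 5443, nat_lit 6789, nat_lit 2082, nat_lit 0, nat_lit 0, nat_lit 0, nat_lit 0, nat_lit 0, nat_lit 0, nat_lit 0, nat_lit 0, nat_lit 0, nat_lit 0, nat_lit 0, [],
 ⟨p081_k20, nat_lit 0, nat_lit 0, nat_lit 470, nat_lit 0, nat_lit 1043136, [nat_lit 2032000001, nat_lit 4688000000, nat_lit 6250000000], [], [nat_lit 19044229588, nat_lit 19508920675, nat_lit 19028238213, nat_lit 19476857411, nat_lit 20566439662, nat_lit 21561859125, nat_lit 20481456434, nat_lit 21301901751], nat_lit 1271250, nat_lit 1271250, nat_lit 573850, nat_lit 780000, nat_lit 1100001, nat_lit 1819250, [nat_lit 490000, nat_lit 1100000, nat_lit 1442500], [nat_lit 6, nat_lit 40, nat_lit 40, nat_lit 80, nat_lit 3, nat_lit 317, nat_lit 100, nat_lit 11]⟩, ⟨p081_k19, nat_lit 0, nat_lit 0, nat_lit 68, nat_lit 0, nat_lit 0, [nat_lit 4688000000, nat_lit 7968000000, nat_lit 9842000000], [], [nat_lit 10568360638,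 nat_lit 12475031393, nat_lit 10670963220, nat_lit 12504053132, nat_lit 21276004445, nat_lit 22704069315, nat_lit 20978292470, nat_lit 22229473008], nat_lit 0, nat_lit 0, nat_lit 0, nat_lit 0, nat_lit 0, nat_lit 0, [], [nat_lit 29, nat_lit 40, nat_lit 40, nat_lit 80, nat_lit 17, nat_lit 428, nat_lit 200, nat_lit 12]⟩,
 zbF0, [⟨nat_lit 0, nat_lit 100, nat_lit 80, nat_lit 89, nat_lit 803943668⟩, ⟨nat_lit 16, nat_lit 78, nat_lit 100, nat_lit 82, nat_lit 457277305⟩, ⟨nat_lit 19, nat_lit 100, nat_lit 85, nat_lit 84, nat_lit 650737602⟩]⟩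
noncomputable def p081_l90 : Lf2 := ⟨nat_lit 0, nat_lit 10, [nat_lit 0, nat_lit 5, nat_lit 5, nat_lit 20], false, nat_lit 160, nat_lit 232, nat_lit 160, nat_lit 336, ⟨nat_lit 1000, nat_lit 0, nat_lit 0, nat_lit 0, nat_lit 0, nat_lit 0, nat_lit 0, nat_lit 0, nat_lit 0, nat_lit 0, nat_lit 0, nat_lit 0, nat_lit 0, nat_lit 0, nat_lit 0, nat_lit 0, false, false⟩,
 nat_lit 0, nat_lit 6621, nat_lit 0, nat_lit 0, nat_lit 5359, nat_lit 6691, nat_lit 1934, nat_lit 0, nat_lit 0, nat_lit 0, nat_lit 0, nat_lit 0, nat_lit 0, nat_lit 0, nat_lit 0, nat_lit 0, nat_lit 0, nat_lit 0, [],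
 ⟨p081_k16, nat_lit 0, nat_lit 0, nat_lit 534, nat_lit 0, nat_lit 1159134, [nat_lit 2032000001, nat_lit 4688000000, nat_lit 6250000000], [], [nat_lit 19129079102, nat_lit 20485407277, nat_lit 19284976053, nat_lit 20465788617, nat_lit 20973050103, nat_lit 23011794451, nat_lit 21041865164, nat_lit 22666681227], nat_lit 1271250, nat_lit 1271250, nat_lit 545600, nat_lit 780000, nat_lit 1100001, nat_lit 1716500, [nat_lit 490000, nat_lit 1100000, nat_lit 1442500], [nat_lit 6, nat_lit 40, nat_lit 40, nat_lit 80, nat_lit 3, nat_lit 317, nat_lit 100, nat_lit 11]⟩, ⟨p081_k13, nat_lit 0, nat_lit 0, nat_lit 84, nat_lit 0, nat_lit 0, [nat_lit 4688000000, nat_lit 7968000000, nat_lit 11872000000], [], [nat_lit 8794814891, nat_lit 12594617643, nat_lit 9004613252, nat_lit 12638177108, nat_lit 21761954756, nat_lit 24425850754, nat_lit 21420931425, nat_lit 23833729609], nat_lit 0, nat_lit 0, nat_lit 0, nat_lit 0, nat_lit 0, nat_lit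 0, [], [nat_lit 21, nat_lit 40, nat_lit 40, nat_lit 80, nat_lit 14, nat_lit 428, nat_lit 200, nat_lit 11]⟩,
 zbF0, [⟨nat_lit 0, nat_lit 100, nat_lit 73, nat_lit 85, nat_lit 751279370⟩, ⟨nat_lit 16, nat_lit 72, nat_lit 100, nat_lit 81, nat_lit 567738380⟩, ⟨nat_lit 19, nat_lit 100, nat_lit 76, nat_lit 82, nat_lit 723232008⟩]⟩
noncomputable def p081_l91 : Lf2 := ⟨nat_lit 0, nat_lit 10, [nat_lit 0, nat_lit 5, nat_lit 5, nat_lit 20], false, nat_lit 160, nat_lit 260, nat_lit 160, nat_lit 336, ⟨nat_lit 1000, nat_lit 0, nat_lit 0, nat_lit 0, nat_lit 0, nat_lit 0, nat_lit 0, nat_lit 0, nat_lit 0, nat_lit 0, nat_lit 0, nat_lit 0, nat_lit 0, nat_lit 0, nat_lit 0, nat_lit 0, false, false⟩,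
 nat_lit 0, nat_lit 10439, nat_lit 0, nat_lit 0, nat_lit 7828, nat_lit 6497, nat_lit 562, nat_lit 0, nat_lit 0, nat_lit 0, nat_lit 0, nat_lit 0, nat_lit 0, nat_lit 0, nat_lit 0, nat_lit 0, nat_lit 0, nat_lit 0, [],
 ⟨p081_k10, nat_lit 0, nat_lit 0, nat_lit 417, nat_lit 0, nat_lit 948820, [nat_lit 2032000001, nat_lit 4688000000, nat_lit 6250000000], [], [nat_lit 19044885568, nat_lit 19249012863, nat_lit 20797078192, nat_lit 20960831899, nat_lit 21553649472, nat_lit 21720355198, nat_lit 24075432572, nat_lit 24353354741], nat_lit 1271250, nat_lit 1271250, nat_lit 780000, nat_lit 1762500, nat_lit 1100001, nat_lit 1956250, [nat_lit 490000, nat_lit 1100000, nat_lit 1442500], [nat_lit 6, nat_lit 40, nat_lit 40, nat_lit 80, nat_lit 3, nat_lit 345, nat_lit 125, nat_lit 12]⟩, ⟨p081_k13, nat_lit 0, nat_lit 0, nat_lit 66, nat_lit 0, nat_lit 0, [nat_lit 4688000000, nat_lit 7968000000, nat_lit 11872000000], [], [nat_lit 9334690284,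 nat_lit 12903687836, nat_lit 14532178128, nat_lit 17297568140, nat_lit 21553861622, nat_lit 23710168272, nat_lit 23969855083, nat_lit 25884908560], nat_lit 0, nat_lit 0, nat_lit 0, nat_lit 0, nat_lit 0, nat_lit 0, [], [nat_lit 21, nat_lit 40, nat_lit 40, nat_lit 80, nat_lit 14, nat_lit 456, nat_lit 225, nat_lit 11]⟩,
 zbF0, [⟨nat_lit 16, nat_lit 83, nat_lit 100, nat_lit 83, nat_lit 484023193⟩, ⟨nat_lit 7, nat_lit 92, nat_lit 100, nat_lit 75, nat_lit 713896451⟩]⟩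
noncomputable def p081_l92 : Lf2 := ⟨nat_lit 0, nat_lit 10, [nat_lit 0, nat_lit 5, nat_lit 5, nat_lit 20], false, nat_lit 160, nat_lit 256, nat_lit 160, nat_lit 336, ⟨nat_lit 1000, nat_lit 0, nat_lit 0, nat_lit 0, nat_lit 0, nat_lit 0, nat_lit 0, nat_lit 0, nat_lit 0, nat_lit 0, nat_lit 0, nat_lit 0, nat_lit 0, nat_lit 0, nat_lit 0, nat_lit 0, false, false⟩,
 nat_lit 0, nat_lit 9064, nat_lit 0, nat_lit 0, nat_lit 6877, nat_lit 6497, nat_lit 2653, nat_lit 0, nat_lit 0, nat_lit 0, nat_lit 0, nat_lit 0, nat_lit 0, nat_lit 0, nat_lit 0, nat_lit 0, nat_lit 0, nat_lit 0, [],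
 ⟨p081_k25, nat_lit 0, nat_lit 0, nat_lit 418, nat_lit 0, nat_lit 950822, [nat_lit 2032000001, nat_lit 4688000000, nat_lit 6250000000], [], [nat_lit 18839195408, nat_lit 18965419376, nat_lit 20648085201, nat_lit 20750075049, nat_lit 21135363345, nat_lit 21240082041, nat_lit 23776038274, nat_lit 23948592634], nat_lit 1271250, nat_lit 1271250, nat_lit 780000, nat_lit 1762500, nat_lit 1100001, nat_lit 1922000, [nat_lit 490000, nat_lit 1100000, nat_lit 1442500], [nat_lit 6, nat_lit 40, nat_lit 40, nat_lit 80, nat_lit 3, nat_lit 345, nat_lit 125, nat_lit 12]⟩, ⟨p081_k13, nat_lit 0, nat_lit 0, nat_lit 66, nat_lit 0, nat_lit 0, [nat_lit 4688000000, nat_lit 7968000000, nat_lit 11872000000], [], [nat_lit 9334690284, nat_lit 12903687836, nat_lit 14532178128, nat_lit 17297568140, nat_lit 21553861622, nat_lit 23710168272, nat_lit 23969855083, nat_lit 25884908560], nat_lit 0, nat_lit 0, nat_lit 0, nat_lit 0, nat_lit 0, nat_lit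 0, [], [nat_lit 21, nat_lit 40, nat_lit 40, nat_lit 80, nat_lit 14, nat_lit 456, nat_lit 225, nat_lit 11]⟩,
 zbF0, [⟨nat_lit 16, nat_lit 82, nat_lit 100, nat_lit 83, nat_lit 481006438⟩, ⟨nat_lit 7, nat_lit 92, nat_lit 100, nat_lit 75, nat_lit 713896451⟩]⟩
noncomputable def p081_l93 : Lf2 := ⟨nat_lit 0, nat_lit 10, [nat_lit 0, nat_lit 5, nat_lit 5, nat_lit 20], false, nat_lit 160, nat_lit 252, nat_lit 160, nat_lit 336, ⟨nat_lit 1000, nat_lit 0, nat_lit 0, nat_lit 0, nat_lit 0, nat_lit 0, nat_lit 0, nat_lit 0, nat_lit 0, nat_lit 0, nat_lit 0, nat_lit 0, nat_lit 0, nat_lit 0, nat_lit 0, nat_lit 0, false, false⟩,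
 nat_lit 0, nat_lit 8161, nat_lit 0, nat_lit 0, nat_lit 6240, nat_lit 6826, nat_lit 2521, nat_lit 0, nat_lit 0, nat_lit 0, nat_lit 0, nat_lit 0, nat_lit 0, nat_lit 0, nat_lit 0, nat_lit 0, nat_lit 0, nat_lit 0, [],
 ⟨p081_k22, nat_lit 0, nat_lit 0, nat_lit 433, nat_lit 0, nat_lit 983483, [nat_lit 2032000001, nat_lit 4688000000, nat_lit 6250000000], [], [nat_lit 18849411302, nat_lit 19134890400, nat_lit 20687431880, nat_lit 20930384400, nat_lit 20957708469, nat_lit 21209175705, nat_lit 23497901845, nat_lit 23908740378], nat_lit 1271250, nat_lit 1271250, nat_lit 780000, nat_lit 1762500, nat_lit 1100001, nat_lit 1887750, [nat_lit 490000, nat_lit 1100000, nat_lit 1442500], [nat_lit 6, nat_lit 40, nat_lit 40, nat_lit 80, nat_lit 3, nat_lit 345, nat_lit 125, nat_lit 12]⟩, ⟨p081_k13, nat_lit 0, nat_lit 0, nat_lit 66, nat_lit 0, nat_lit 0, [nat_lit 4688000000, nat_lit 7968000000, nat_lit 11872000000], [], [nat_lit 8774920472,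 nat_lit 12453414488, nat_lit 14061255424, nat_lit 16902972120, nat_lit 21328428453, nat_lit 23920401877, nat_lit 24041723506, nat_lit 26055269234], nat_lit 0, nat_lit 0, nat_lit 0, nat_lit 0, nat_lit 0, nat_lit 0, [], [nat_lit 21, nat_lit 40, nat_lit 40, nat_lit 80, nat_lit 14, nat_lit 456, nat_lit 225, nat_lit 11]⟩,
 zbF0, [⟨nat_lit 16, nat_lit 81, nat_lit 100, nat_lit 83, nat_lit 476957326⟩, ⟨nat_lit 19, nat_lit 100, nat_lit 76, nat_lit 82, nat_lit 376089856⟩, ⟨nat_lit 7, nat_lit 92, nat_lit 100, nat_lit 75, nat_lit 327746590⟩]⟩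
noncomputable def p081_l94 : Lf2 := ⟨nat_lit 0, nat_lit 10, [nat_lit 0, nat_lit 5, nat_lit 5, nat_lit 20], false, nat_lit 160, nat_lit 244, nat_lit 160, nat_lit 336, ⟨nat_lit 1000, nat_lit 0, nat_lit 0, nat_lit 0, nat_lit 0, nat_lit 0, nat_lit 0, nat_lit 0, nat_lit 0, nat_lit 0, nat_lit 0, nat_lit 0, nat_lit 0, nat_lit 0, nat_lit 0, nat_lit 0, false, false⟩,
 nat_lit 0, nat_lit 6870, nat_lit 0, nat_lit 0, nat_lit 5355, nat_lit 6826, nat_lit 2052, nat_lit 0, nat_lit 0, nat_lit 0, nat_lit 0, nat_lit 0, nat_lit 0, nat_lit 0, nat_lit 0, nat_lit 0, nat_lit 0, nat_lit 0, [],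
 ⟨p081_k20, nat_lit 0, nat_lit 0, nat_lit 459, nat_lit 0, nat_lit 1043136, [nat_lit 2032000001, nat_lit 4688000000, nat_lit 6250000000], [], [nat_lit 19149079264, nat_lit 19644620864, nat_lit 20944261684, nat_lit 21383078100, nat_lit 20829934083, nat_lit 21258768092, nat_lit 23163847741, nat_lit 23930530329], nat_lit 1271250, nat_lit 1271250, nat_lit 780000, nat_lit 1762500, nat_lit 1100001, nat_lit 1819250, [nat_lit 490000, nat_lit 1100000, nat_lit 1442500], [nat_lit 6, nat_lit 40, nat_lit 40, nat_lit 80, nat_lit 3, nat_lit 345, nat_lit 125, nat_lit 12]⟩, ⟨p081_k13, nat_lit 0, nat_lit 0, nat_lit 66, nat_lit 0, nat_lit 0, [nat_lit 4688000000, nat_lit 7968000000, nat_lit 11872000000], [], [nat_lit 8774920472, nat_lit 12453414488, nat_lit 14061255424, nat_lit 16902972120, nat_lit 21328428453, nat_lit 23920401877, nat_lit 24041723506, nat_lit 26055269234], nat_lit 0, nat_lit 0, nat_lit 0, nat_lit 0, nat_lit 0, nat_lit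 0, [], [nat_lit 21, nat_lit 40, nat_lit 40, nat_lit 80, nat_lit 14, nat_lit 456, nat_lit 225, nat_lit 11]⟩,
 zbF0, [⟨nat_lit 16, nat_lit 78, nat_lit 100, nat_lit 82, nat_lit 472255986⟩, ⟨nat_lit 19, nat_lit 100, nat_lit 76, nat_lit 82, nat_lit 693427275⟩]⟩
noncomputable def p081_l95 : Lf2 := ⟨nat_lit 0, nat_lit 10, [nat_lit 0, nat_lit 5, nat_lit 5, nat_lit 20], false, nat_lit 160, nat_lit 232, nat_lit 160, nat_lit 336, ⟨nat_lit 1000, nat_lit 0, nat_lit 0, nat_lit 0, nat_lit 0, nat_lit 0, nat_lit 0, nat_lit 0, nat_lit 0, nat_lit 0, nat_lit 0, nat_lit 0, nat_lit 0, nat_lit 0, nat_lit 0, nat_lit 0, false, false⟩,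
 nat_lit 0, nat_lit 6493, nat_lit 0, nat_lit 0, nat_lit 5255, nat_lit 6826, nat_lit 1914, nat_lit 0, nat_lit 0, nat_lit 0, nat_lit 0, nat_lit 0, nat_lit 0, nat_lit 0, nat_lit 0, nat_lit 0, nat_lit 0, nat_lit 0, [],
 ⟨p081_k16, nat_lit 0, nat_lit 0, nat_lit 521, nat_lit 0, nat_lit 1159134, [nat_lit 2032000001, nat_lit 4688000000, nat_lit 6250000000], [], [nat_lit 19813117589, nat_lit 20981658569, nat_lit 22143967739, nat_lit 23135652300, nat_lit 21566312496, nat_lit 22599639419, nat_lit 23482523142, nat_lit 25015449702], nat_lit 1271250, nat_lit 1271250, nat_lit 780000, nat_lit 1762500, nat_lit 1100001, nat_lit 1716500, [nat_lit 490000, nat_lit 1100000, nat_lit 1442500], [nat_lit 6, nat_lit 40, nat_lit 40, nat_lit 80, nat_lit 3, nat_lit 345, nat_lit 125, nat_lit 12]⟩, ⟨p081_k13, nat_lit 0, nat_lit 0, nat_lit 66, nat_lit 0, nat_lit 0, [nat_lit 4688000000, nat_lit 7968000000, nat_lit 11872000000], [], [nat_lit 8774920472,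 nat_lit 12453414488, nat_lit 14061255424, nat_lit 16902972120, nat_lit 21328428453, nat_lit 23920401877, nat_lit 24041723506, nat_lit 26055269234], nat_lit 0, nat_lit 0, nat_lit 0, nat_lit 0, nat_lit 0, nat_lit 0, [], [nat_lit 21, nat_lit 40, nat_lit 40, nat_lit 80, nat_lit 14, nat_lit 456, nat_lit 225, nat_lit 11]⟩,
 zbF0, [⟨nat_lit 16, nat_lit 66, nat_lit 100, nat_lit 72, nat_lit 663743130⟩, ⟨nat_lit 19, nat_lit 100, nat_lit 76, nat_lit 82, nat_lit 713478559⟩]⟩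
noncomputable def b_V_800_600_10_6 : St := ⟨true, nat_lit 1, nat_lit 0, nat_lit 1, nat_lit 80, nat_lit 320, nat_lit 360, nat_lit 240, nat_lit 280, nat_lit 64, nat_lit 240, nat_lit 40, nat_lit 80, nat_lit 160, nat_lit 260, nat_lit 0, nat_lit 336, nat_lit 0, nat_lit 40, nat_lit 0, nat_lit 0, nat_lit 0, nat_lit 0⟩
theorem d_V_800_600_10_6 (h : EB TB.env) : Dead b_V_800_600_10_6 := chkB_sound0 h (T :=
(.spl (nat_lit 5) (nat_lit 160)
(.spl (nat_lit 1) (nat_lit 260)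
(.spl (nat_lit 0) (nat_lit 340)
(.leaf p081_l79)
(.trZ (nat_lit 0) (nat_lit 100) (nat_lit 73) (nat_lit 85) (nat_lit 88) (.trX (nat_lit 16) (nat_lit 72) (nat_lit 100) (nat_lit 81) (nat_lit 232) (.leaf p081_l80))))
(.trZ (nat_lit 0) (nat_lit 100) (nat_lit 84) (nat_lit 85) (nat_lit 80) (.leaf p081_l81)))
(.spl (nat_lit 2) (nat_lit 120)
(.spl (nat_lit 0) (nat_lit 340)
(.spl (nat_lit 2) (nat_lit 80)
(.leaf p081_l82)
(.spl (nat_lit 1) (nat_lit 260)
(.spl (nat_lit 2) (nat_lit 100)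
(.leaf p081_l83)
(.spl (nat_lit 0) (nat_lit 330)
(.leaf p081_l84)
(.trX (nat_lit 16) (nat_lit 78) (nat_lit 100) (nat_lit 82) (nat_lit 244) (.leaf p081_l85))))
(.trX (nat_lit 19) (nat_lit 100) (nat_lit 85) (nat_lit 84) (nat_lit 320) (.spl (nat_lit 0) (nat_lit 330)
(.spl (nat_lit 3) (nat_lit 60)
(.trX (nat_lit 16) (nat_lit 81) (nat_lit 100) (nat_lit 72) (nat_lit 232) (.trX (nat_lit 19) (nat_lit 100) (nat_lit 92) (nat_lit 75) (nat_lit 296) (.leaf p081_l86)))
(.spl (nat_lit 6) (nat_lit 20)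
(.leaf p081_l87)
(.leaf p081_l88)))
(.trZ (nat_lit 0) (nat_lit 100) (nat_lit 80) (nat_lit 89) (nat_lit 92) (.trX (nat_lit 16) (nat_lit 78) (nat_lit 100) (nat_lit 82) (nat_lit 244) (.leaf p081_l89)))))))
(.trZ (nat_lit 0) (nat_lit 100) (nat_lit 73) (nat_lit 85) (nat_lit 88) (.trX (nat_lit 16) (nat_lit 72) (nat_lit 100) (nat_lit 81) (nat_lit 232) (.leaf p081_l90))))
(.spl (nat_lit 0) (nat_lit 340)
(.spl (nat_lit 0) (nat_lit 330)
(.spl (nat_lit 0) (nat_lit 325)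
(.spl (nat_lit 0) (nat_lit 323)
(.leaf p081_l91)
(.trX (nat_lit 16) (nat_lit 82) (nat_lit 100) (nat_lit 83) (nat_lit 256) (.leaf p081_l92)))
(.trX (nat_lit 16) (nat_lit 81) (nat_lit 100) (nat_lit 83) (nat_lit 252) (.leaf p081_l93)))
(.trX (nat_lit 16) (nat_lit 78) (nat_lit 100) (nat_lit 82) (nat_lit 244) (.leaf p081_l94)))
(.trX (nat_lit 16) (nat_lit 72) (nat_lit 100) (nat_lit 81) (nat_lit 232) (.leaf p081_l95)))))) (by decide +kernel)
noncomputable def p081_l96 : Lf2 := ⟨nat_lit 0, nat_lit 10, [nat_lit 0, nat_lit 5, nat_lit 5, nat_lit 20], false, nat_lit 0, nat_lit 260, nat_lit 0, nat_lit 160, ⟨nat_lit 1000, nat_lit 0, nat_lit 0, nat_lit 0, nat_lit 0, nat_lit 0, nat_lit 0, nat_lit 0, nat_lit 0, nat_lit 0, nat_lit 0, nat_lit 0, nat_lit 0, nat_lit 0, nat_lit 0, nat_lit 0, false, false⟩,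
 nat_lit 0, nat_lit 8152, nat_lit 0, nat_lit 0, nat_lit 6114, nat_lit 6859, nat_lit 400, nat_lit 0, nat_lit 0, nat_lit 1220, nat_lit 0, nat_lit 0, nat_lit 0, nat_lit 0, nat_lit 0, nat_lit 0, nat_lit 0, nat_lit 0, [],
 ⟨p081_k10, nat_lit 0, nat_lit 0, nat_lit 554, nat_lit 0, nat_lit 1099400, [nat_lit 2032000001, nat_lit 4688000000, nat_lit 6250000000], [], [nat_lit 34600078984, nat_lit 35301280288, nat_lit 38837018906, nat_lit 39377808566, nat_lit 32950335046, nat_lit 33397463508, nat_lit 36055237055, nat_lit 36424081221], nat_lit 1271250, nat_lit 1271250, nat_lit 1271250, nat_lit 1271250, nat_lit 0, nat_lit 1836250, [nat_lit 490000, nat_lit 1100000, nat_lit 1442500], [nat_lit 6, nat_lit 40, nat_lit 40, nat_lit 80, nat_lit 3, nat_lit 289, nat_lit 75, nat_lit 10]⟩, ⟨p081_k13, nat_lit 0, nat_lit 0, nat_lit 249, nat_lit 0, nat_lit 0, [nat_lit 4688000000, nat_lit 7968000000, nat_lit 11872000000], [], [nat_lit 26312279324,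 nat_lit 28467670752, nat_lit 37582434575, nat_lit 39083887710, nat_lit 22133149692, nat_lit 24090598696, nat_lit 31662272000, nat_lit 32956705564], nat_lit 0, nat_lit 0, nat_lit 0, nat_lit 0, nat_lit 0, nat_lit 0, [], [nat_lit 21, nat_lit 40, nat_lit 40, nat_lit 80, nat_lit 14, nat_lit 456, nat_lit 225, nat_lit 11]⟩,
 zbF0, [⟨nat_lit 4, nat_lit 100, nat_lit 76, nat_lit 72, nat_lit 208456676⟩]⟩
noncomputable def p081_l97 : Lf2 := ⟨nat_lit 0, nat_lit 10, [nat_lit 0, nat_lit 5, nat_lit 5, nat_lit 20], false, nat_lit 0, nat_lit 232, nat_lit 0, nat_lit 160, ⟨nat_lit 1000, nat_lit 0, nat_lit 0, nat_lit 0, nat_lit 0, nat_lit 0, nat_lit 0, nat_lit 0, nat_lit 0, nat_lit 0, nat_lit 0, nat_lit 0, nat_lit 0, nat_lit 0, nat_lit 0, nat_lit 0, false, false⟩,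
 nat_lit 0, nat_lit 5657, nat_lit 0, nat_lit 0, nat_lit 4579, nat_lit 6800, nat_lit 614, nat_lit 0, nat_lit 0, nat_lit 1107, nat_lit 0, nat_lit 0, nat_lit 0, nat_lit 0, nat_lit 0, nat_lit 0, nat_lit 0, nat_lit 0, [],
 ⟨p081_k16, nat_lit 0, nat_lit 0, nat_lit 574, nat_lit 0, nat_lit 1159134, [nat_lit 2032000001, nat_lit 4688000000, nat_lit 6250000000], [], [nat_lit 30516621566, nat_lit 31284930084, nat_lit 34978806249, nat_lit 35573757833, nat_lit 30762826042, nat_lit 31378899635, nat_lit 34230309438, nat_lit 34683530030], nat_lit 1271250, nat_lit 1271250, nat_lit 1271250, nat_lit 1271250, nat_lit 0, nat_lit 1638500, [nat_lit 490000, nat_lit 1100000, nat_lit 1442500], [nat_lit 6, nat_lit 40, nat_lit 40, nat_lit 80, nat_lit 3, nat_lit 272, nat_lit 60, nat_lit 9]⟩, ⟨p081_k13, nat_lit 0, nat_lit 0, nat_lit 246, nat_lit 0, nat_lit 0, [nat_lit 4688000000, nat_lit 7968000000, nat_lit 11872000000], [], [nat_lit 27050177300,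 nat_lit 29197090900, nat_lit 36814027141, nat_lit 38330115761, nat_lit 22995089300, nat_lit 24510550100, nat_lit 31036089921, nat_lit 32383261200], nat_lit 0, nat_lit 0, nat_lit 0, nat_lit 0, nat_lit 0, nat_lit 0, [], [nat_lit 21, nat_lit 40, nat_lit 40, nat_lit 80, nat_lit 14, nat_lit 456, nat_lit 225, nat_lit 11]⟩,
 zbF0, [⟨nat_lit 4, nat_lit 100, nat_lit 66, nat_lit 72, nat_lit 304837409⟩]⟩
noncomputable def p081_l98 : Lf2 := ⟨nat_lit 0, nat_lit 10, [nat_lit 0, nat_lit 5, nat_lit 5, nat_lit 20], false, nat_lit 0, nat_lit 260, nat_lit 160, nat_lit 336, ⟨nat_lit 1000, nat_lit 0, nat_lit 0, nat_lit 0, nat_lit 0, nat_lit 0, nat_lit 0, nat_lit 0, nat_lit 0, nat_lit 0, nat_lit 0, nat_lit 0, nat_lit 0, nat_lit 0, nat_lit 0, nat_lit 0, false, false⟩,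
 nat_lit 0, nat_lit 8234, nat_lit 0, nat_lit 0, nat_lit 6175, nat_lit 5823, nat_lit 414, nat_lit 0, nat_lit 0, nat_lit 0, nat_lit 0, nat_lit 0, nat_lit 0, nat_lit 0, nat_lit 0, nat_lit 0, nat_lit 0, nat_lit 0, [],
 ⟨p081_k10, nat_lit 0, nat_lit 0, nat_lit 523, nat_lit 0, nat_lit 1009863, [nat_lit 2032000001, nat_lit 4688000000, nat_lit 6250000000], [], [nat_lit 34212600300, nat_lit 34564507450, nat_lit 38584368520, nat_lit 38855417618, nat_lit 32492659450, nat_lit 32752836275, nat_lit 35736737035, nat_lit 35921186680], nat_lit 1271250, nat_lit 1271250, nat_lit 1271250, nat_lit 1271250, nat_lit 0, nat_lit 1836250, [nat_lit 490000, nat_lit 1100000, nat_lit 1442500], [nat_lit 6, nat_lit 40, nat_lit 40, nat_lit 80, nat_lit 3, nat_lit 289, nat_lit 75, nat_lit 10]⟩, ⟨p081_k13, nat_lit 0, nat_lit 0, nat_lit 94, nat_lit 0, nat_lit 0, [nat_lit 4688000000, nat_lit 7968000000, nat_lit 11872000000], [], [nat_lit 15496925552,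 nat_lit 18105950260, nat_lit 27315410208, nat_lit 28805247856, nat_lit 24481799062, nat_lit 26095628080, nat_lit 32754499808, nat_lit 33777387175], nat_lit 0, nat_lit 0, nat_lit 0, nat_lit 0, nat_lit 0, nat_lit 0, [], [nat_lit 21, nat_lit 40, nat_lit 40, nat_lit 80, nat_lit 14, nat_lit 538, nat_lit 300, nat_lit 13]⟩,
 zbF0, [⟨nat_lit 16, nat_lit 79, nat_lit 100, nat_lit 72, nat_lit 201186528⟩, ⟨nat_lit 7, nat_lit 92, nat_lit 100, nat_lit 75, nat_lit 592488707⟩]⟩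
noncomputable def p081_l99 : Lf2 := ⟨nat_lit 0, nat_lit 10, [nat_lit 0, nat_lit 5, nat_lit 5, nat_lit 20], false, nat_lit 0, nat_lit 244, nat_lit 160, nat_lit 336, ⟨nat_lit 1000, nat_lit 0, nat_lit 0, nat_lit 0, nat_lit 0, nat_lit 0, nat_lit 0, nat_lit 0, nat_lit 0, nat_lit 0, nat_lit 0, nat_lit 0, nat_lit 0, nat_lit 0, nat_lit 0, nat_lit 0, false, false⟩,
 nat_lit 0, nat_lit 6431, nat_lit 0, nat_lit 0, nat_lit 5012, nat_lit 5867, nat_lit 1897, nat_lit 0, nat_lit 0, nat_lit 0, nat_lit 0, nat_lit 0, nat_lit 0, nat_lit 0, nat_lit 0, nat_lit 0, nat_lit 0, nat_lit 0, [],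
 ⟨p081_k20, nat_lit 0, nat_lit 0, nat_lit 534, nat_lit 0, nat_lit 1043136, [nat_lit 2032000001, nat_lit 4688000000, nat_lit 6250000000], [], [nat_lit 25760142781, nat_lit 26170757585, nat_lit 35232133808, nat_lit 35871965397, nat_lit 25975580735, nat_lit 26319423483, nat_lit 31351299302, nat_lit 31835299239], nat_lit 1271250, nat_lit 1271250, nat_lit 1271250, nat_lit 1271250, nat_lit 0, nat_lit 1723250, [nat_lit 490000, nat_lit 1100000, nat_lit 1442500], [nat_lit 6, nat_lit 40, nat_lit 40, nat_lit 80, nat_lit 3, nat_lit 289, nat_lit 75, nat_lit 10]⟩, ⟨p081_k13, nat_lit 0, nat_lit 0, nat_lit 92, nat_lit 0, nat_lit 0, [nat_lit 4688000000, nat_lit 7968000000, nat_lit 11872000000], [], [nat_lit 15433945008, nat_lit 18053177540, nat_lit 26960951341, nat_lit 28483201277, nat_lit 24448378387, nat_lit 26066401520, nat_lit 32529682623, nat_lit 33576020968], nat_lit 0, nat_lit 0, nat_lit 0, nat_lit 0, nat_lit 0, nat_lit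 0, [], [nat_lit 21, nat_lit 40, nat_lit 40, nat_lit 80, nat_lit 14, nat_lit 538, nat_lit 300, nat_lit 13]⟩,
 zbF0, [⟨nat_lit 16, nat_lit 74, nat_lit 100, nat_lit 72, nat_lit 158084479⟩, ⟨nat_lit 19, nat_lit 100, nat_lit 76, nat_lit 82, nat_lit 166699031⟩, ⟨nat_lit 7, nat_lit 92, nat_lit 100, nat_lit 75, nat_lit 316750322⟩]⟩
noncomputable def p081_l100 : Lf2 := ⟨nat_lit 0, nat_lit 10, [nat_lit 0, nat_lit 5, nat_lit 5, nat_lit 20], false, nat_lit 0, nat_lit 232, nat_lit 160, nat_lit 336, ⟨nat_lit 1000, nat_lit 0, nat_lit 0, nat_lit 0, nat_lit 0, nat_lit 0, nat_lit 0, nat_lit 0, nat_lit 0, nat_lit 0, nat_lit 0, nat_lit 0, nat_lit 0, nat_lit 0, nat_lit 0, nat_lit 0, false, false⟩,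
 nat_lit 0, nat_lit 5988, nat_lit 0, nat_lit 0, nat_lit 4847, nat_lit 6546, nat_lit 1737, nat_lit 0, nat_lit 0, nat_lit 0, nat_lit 0, nat_lit 0, nat_lit 0, nat_lit 0, nat_lit 0, nat_lit 0, nat_lit 0, nat_lit 0, [],
 ⟨p081_k16, nat_lit 0, nat_lit 0, nat_lit 574, nat_lit 0, nat_lit 1159134, [nat_lit 2032000001, nat_lit 4688000000, nat_lit 6250000000], [], [nat_lit 26810823417, nat_lit 27766277911, nat_lit 35077345373, nat_lit 36355868322, nat_lit 27542448007, nat_lit 28257231730, nat_lit 31559330898, nat_lit 32168885575], nat_lit 1271250, nat_lit 1271250, nat_lit 1271250, nat_lit 1271250, nat_lit 0, nat_lit 1638500, [nat_lit 490000, nat_lit 1100000, nat_lit 1442500], [nat_lit 6, nat_lit 40, nat_lit 40, nat_lit 80, nat_lit 3, nat_lit 272, nat_lit 60, nat_lit 9]⟩, ⟨p081_k13, nat_lit 0, nat_lit 0, nat_lit 90, nat_lit 0, nat_lit 0, [nat_lit 4688000000, nat_lit 7968000000, nat_lit 11872000000], [], [nat_lit 14462040704,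 nat_lit 17238798520, nat_lit 26926323052, nat_lit 28787822266, nat_lit 23932636604, nat_lit 25910281426, nat_lit 33002676312, nat_lit 34082165584], nat_lit 0, nat_lit 0, nat_lit 0, nat_lit 0, nat_lit 0, nat_lit 0, [], [nat_lit 21, nat_lit 40, nat_lit 40, nat_lit 80, nat_lit 14, nat_lit 538, nat_lit 300, nat_lit 13]⟩,
 zbF0, [⟨nat_lit 4, nat_lit 100, nat_lit 66, nat_lit 72, nat_lit 155329006⟩, ⟨nat_lit 19, nat_lit 100, nat_lit 92, nat_lit 75, nat_lit 107702442⟩, ⟨nat_lit 19, nat_lit 100, nat_lit 76, nat_lit 82, nat_lit 386954690⟩]⟩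
noncomputable def b_V_800_600_10_7 : St := ⟨true, nat_lit 1, nat_lit 0, nat_lit 1, nat_lit 80, nat_lit 320, nat_lit 360, nat_lit 240, nat_lit 280, nat_lit 240, nat_lit 396, nat_lit 40, nat_lit 80, nat_lit 0, nat_lit 260, nat_lit 0, nat_lit 336, nat_lit 0, nat_lit 40, nat_lit 0, nat_lit 0, nat_lit 0, nat_lit 0⟩
theorem d_V_800_600_10_7 (h : EB TB.env) : Dead b_V_800_600_10_7 := chkB_sound0 h (T :=
(.spl (nat_lit 5) (nat_lit 160)
(.spl (nat_lit 0) (nat_lit 340)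
(.leaf p081_l96)
(.trX (nat_lit 13) (nat_lit 78) (nat_lit 39) (nat_lit 100) (nat_lit 388) (.trX (nat_lit 16) (nat_lit 72) (nat_lit 100) (nat_lit 81) (nat_lit 232) (.leaf p081_l97))))
(.spl (nat_lit 0) (nat_lit 340)
(.spl (nat_lit 0) (nat_lit 330)
(.leaf p081_l98)
(.trX (nat_lit 13) (nat_lit 83) (nat_lit 32) (nat_lit 100) (nat_lit 392) (.trX (nat_lit 16) (nat_lit 78) (nat_lit 100) (nat_lit 82) (nat_lit 244) (.leaf p081_l99))))
(.trX (nat_lit 13) (nat_lit 78) (nat_lit 39) (nat_lit 100) (nat_lit 388) (.trX (nat_lit 16) (nat_lit 72) (nat_lit 100) (nat_lit 81) (nat_lit 232) (.leaf p081_l100)))))) (by decide +kernel)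
noncomputable def p081_l101 : Lf2 := ⟨nat_lit 0, nat_lit 10, [nat_lit 0, nat_lit 5, nat_lit 5, nat_lit 20], false, nat_lit 0, nat_lit 160, nat_lit 0, nat_lit 160, ⟨nat_lit 120, nat_lit 0, nat_lit 880, nat_lit 6, nat_lit 154, nat_lit 880, nat_lit 56, nat_lit 880, nat_lit 29400, nat_lit 257, nat_lit 153600, nat_lit 311, nat_lit 58308227, nat_lit 0, nat_lit 0, nat_lit 1929344, false, false⟩,
 nat_lit 2777, nat_lit 1450, nat_lit 0, nat_lit 0, nat_lit 3170, nat_lit 1470, nat_lit 0, nat_lit 0, nat_lit 0, nat_lit 174, nat_lit 0, nat_lit 0, nat_lit 0, nat_lit 0, nat_lit 83, nat_lit 621400, nat_lit 0, nat_lit 0, [(nat_lit 18, [(nat_lit 5, nat_lit 431), (nat_lit 6, nat_lit 449)])],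
 ⟨p081_k10, nat_lit 0, nat_lit 0, nat_lit 408, nat_lit 0, nat_lit 630144, [nat_lit 1783973067, nat_lit 1155485734, nat_lit 9799600], [], [nat_lit 17308078186, nat_lit 18675087624, nat_lit 17150470269, nat_lit 18365881309, nat_lit 17652435621, nat_lit 18827587511, nat_lit 19477546016, nat_lit 19346105902], nat_lit 1271250, nat_lit 1271250, nat_lit 382400, nat_lit 780000, nat_lit 0, nat_lit 1100001, [nat_lit 490000, nat_lit 1100000, nat_lit 1442500], [nat_lit 6, nat_lit 40, nat_lit 40, nat_lit 80, nat_lit 3, nat_lit 289, nat_lit 75, nat_lit 11]⟩, ⟨p081_k13, nat_lit 0, nat_lit 0, nat_lit 789, nat_lit 0, nat_lit 965327, [nat_lit 562560000, nat_lit 956160000, nat_lit 1424640000], [], [nat_lit 6790205328, nat_lit 5226072408, nat_lit 4604276520, nat_lit 3248682120, nat_lit 3506184432, nat_lit 2528790216, nat_lit 4051842480, nat_lit 2685030600], nat_lit 1271250, nat_lit 1271250, nat_lit 382400, nat_lit 780000, nat_lit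 0, nat_lit 1100001, [nat_lit 1100000, nat_lit 1785000, nat_lit 1271250], [nat_lit 21, nat_lit 40, nat_lit 40, nat_lit 80, nat_lit 14, nat_lit 373, nat_lit 150, nat_lit 10]⟩,
 ⟨nat_lit 3872, nat_lit 4473, ⟨.ofNat (nat_lit 311945), .ofNat (nat_lit 407125), .ofNat (nat_lit 355043), .ofNat (nat_lit 450223), .ofNat (nat_lit 324151), .ofNat (nat_lit 414492), .ofNat (nat_lit 367703), .ofNat (nat_lit 458043)⟩, ⟨.negSucc (nat_lit 12427), .ofNat (nat_lit 259489), .ofNat (nat_lit 0), .ofNat (nat_lit 302621), .ofNat (nat_lit 0), .ofNat (nat_lit 261131), .ofNat (nat_lit 0), .ofNat (nat_lit 304717)⟩⟩, [⟨nat_lit 0, nat_lit 100, nat_lit 80, nat_lit 89, nat_lit 201961460⟩]⟩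
noncomputable def p081_l102 : Lf2 := ⟨nat_lit 0, nat_lit 10, [nat_lit 0, nat_lit 5, nat_lit 5, nat_lit 20], false, nat_lit 0, nat_lit 160, nat_lit 0, nat_lit 160, ⟨nat_lit 214, nat_lit 0, nat_lit 786, nat_lit 6, nat_lit 166, nat_lit 786, nat_lit 57, nat_lit 786, nat_lit 30817, nat_lit 258, nat_lit 109688, nat_lit 296, nat_lit 57148649, nat_lit 0, nat_lit 0, nat_lit 2087655, false, false⟩,
 nat_lit 4057, nat_lit 49, nat_lit 0, nat_lit 0, nat_lit 3323, nat_lit 2147, nat_lit 0, nat_lit 0, nat_lit 0, nat_lit 0, nat_lit 0, nat_lit 0, nat_lit 0, nat_lit 0, nat_lit 117, nat_lit 775200, nat_lit 0, nat_lit 0, [(nat_lit 21, [(nat_lit 5, nat_lit 18), (nat_lit 6, nat_lit 768)])],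
 ⟨p081_k16, nat_lit 0, nat_lit 0, nat_lit 420, nat_lit 0, nat_lit 673088, [nat_lit 1970281601, nat_lit 779386401, nat_lit 409098400], [], [nat_lit 18617459957, nat_lit 20708805716, nat_lit 18578974662, nat_lit 20595182144, nat_lit 18649343207, nat_lit 19772015957, nat_lit 19001904445, nat_lit 20082939451], nat_lit 1271250, nat_lit 1271250, nat_lit 545600, nat_lit 780000, nat_lit 0, nat_lit 1100001, [nat_lit 490000, nat_lit 1100000, nat_lit 1442500], [nat_lit 6, nat_lit 40, nat_lit 40, nat_lit 80, nat_lit 3, nat_lit 289, nat_lit 75, nat_lit 11]⟩, ⟨p081_k13, nat_lit 0, nat_lit 0, nat_lit 846, nat_lit 0, nat_lit 1128756, [nat_lit 1003232000, nat_lit 1705152000, nat_lit 2540608000], [], [nat_lit 9805990854, nat_lit 8947575258, nat_lit 8616243884, nat_lit 8721289328, nat_lit 7408211805, nat_lit 7484417424, nat_lit 7621021480, nat_lit 7263991360], nat_lit 1271250, nat_lit 1271250, nat_lit 545600, nat_lit 780000, nat_lit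 0, nat_lit 1100001, [nat_lit 1100000, nat_lit 1785000, nat_lit 1271250], [nat_lit 21, nat_lit 40, nat_lit 40, nat_lit 80, nat_lit 14, nat_lit 373, nat_lit 150, nat_lit 10]⟩,
 ⟨nat_lit 3162, nat_lit 3873, ⟨.ofNat (nat_lit 362778), .ofNat (nat_lit 414421), .ofNat (nat_lit 406307), .ofNat (nat_lit 457950), .ofNat (nat_lit 373492), .ofNat (nat_lit 422280), .ofNat (nat_lit 417744), .ofNat (nat_lit 466533)⟩, ⟨.ofNat (nat_lit 0), .ofNat (nat_lit 261131), .ofNat (nat_lit 0), .ofNat (nat_lit 304717), .ofNat (nat_lit 0), .ofNat (nat_lit 261806), .ofNat (nat_lit 0), .ofNat (nat_lit 306116)⟩⟩, [⟨nat_lit 0, nat_lit 100, nat_lit 69, nat_lit 96, nat_lit 449154946⟩]⟩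
noncomputable def p081_l103 : Lf2 := ⟨nat_lit 0, nat_lit 10, [nat_lit 0, nat_lit 5, nat_lit 5, nat_lit 20], false, nat_lit 0, nat_lit 160, nat_lit 0, nat_lit 160, ⟨nat_lit 261, nat_lit 0, nat_lit 739, nat_lit 6, nat_lit 186, nat_lit 739, nat_lit 56, nat_lit 739, nat_lit 29400, nat_lit 257, nat_lit 19503, nat_lit 247, nat_lit 55063233, nat_lit 0, nat_lit 0, nat_lit 2342963, false, false⟩,
 nat_lit 4097, nat_lit 839, nat_lit 0, nat_lit 0, nat_lit 3702, nat_lit 2169, nat_lit 0, nat_lit 0, nat_lit 0, nat_lit 214, nat_lit 0, nat_lit 0, nat_lit 0, nat_lit 0, nat_lit 61, nat_lit 728800, nat_lit 0, nat_lit 0, [(nat_lit 18, [(nat_lit 5, nat_lit 17), (nat_lit 6, nat_lit 722)])],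
 ⟨p081_k10, nat_lit 0, nat_lit 0, nat_lit 368, nat_lit 0, nat_lit 630144, [nat_lit 1799269067, nat_lit 1297442534, nat_lit 9284000], [], [nat_lit 18327219519, nat_lit 19227896188, nat_lit 17815225456, nat_lit 19832197088, nat_lit 17507211261, nat_lit 18607409429, nat_lit 18190874053, nat_lit 19249416358], nat_lit 1271250, nat_lit 1271250, nat_lit 780000, nat_lit 1100001, nat_lit 0, nat_lit 1100001, [nat_lit 490000, nat_lit 1100000, nat_lit 1442500], [nat_lit 6, nat_lit 40, nat_lit 40, nat_lit 80, nat_lit 3, nat_lit 317, nat_lit 100, nat_lit 12]⟩, ⟨p081_k13, nat_lit 0, nat_lit 0, nat_lit 739, nat_lit 0, nat_lit 965327, [nat_lit 1223568000, nat_lit 2079648000, nat_lit 3098592000], [], [nat_lit 13301585136, nat_lit 10972894064, nat_lit 10972348092, nat_lit 10851550308, nat_lit 9574556076, nat_lit 9692951904, nat_lit 9446341500, nat_lit 9561440412], nat_lit 1271250, nat_lit 1271250, nat_lit 780000, nat_lit 1100001,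 nat_lit 0, nat_lit 1100001, [nat_lit 1100000, nat_lit 1785000, nat_lit 1271250], [nat_lit 21, nat_lit 40, nat_lit 40, nat_lit 80, nat_lit 14, nat_lit 373, nat_lit 150, nat_lit 10]⟩,
 ⟨nat_lit 3872, nat_lit 4473, ⟨.ofNat (nat_lit 407125), .ofNat (nat_lit 475111), .ofNat (nat_lit 450223), .ofNat (nat_lit 518209), .ofNat (nat_lit 414492), .ofNat (nat_lit 479021), .ofNat (nat_lit 458043), .ofNat (nat_lit 522572)⟩, ⟨.negSucc (nat_lit 12427), .ofNat (nat_lit 259489), .ofNat (nat_lit 0), .ofNat (nat_lit 302621), .ofNat (nat_lit 0), .ofNat (nat_lit 261131), .ofNat (nat_lit 0), .ofNat (nat_lit 304717)⟩⟩, []⟩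
noncomputable def p081_l104 : Lf2 := ⟨nat_lit 0, nat_lit 10, [nat_lit 0, nat_lit 5, nat_lit 5, nat_lit 20], false, nat_lit 0, nat_lit 160, nat_lit 0, nat_lit 160, ⟨nat_lit 190, nat_lit 0, nat_lit 810, nat_lit 6, nat_lit 189, nat_lit 810, nat_lit 57, nat_lit 810, nat_lit 30817, nat_lit 258, nat_lit 15897, nat_lit 244, nat_lit 54806484, nat_lit 0, nat_lit 0, nat_lit 2372007, false, false⟩,
 nat_lit 2993, nat_lit 962, nat_lit 0, nat_lit 0, nat_lit 3201, nat_lit 1584, nat_lit 0, nat_lit 0, nat_lit 0, nat_lit 152, nat_lit 0, nat_lit 0, nat_lit 0, nat_lit 0, nat_lit 78, nat_lit 585600, nat_lit 0, nat_lit 0, [(nat_lit 21, [(nat_lit 5, nat_lit 374), (nat_lit 6, nat_lit 436)])],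
 ⟨p081_k16, nat_lit 0, nat_lit 0, nat_lit 407, nat_lit 0, nat_lit 673088, [nat_lit 1706016001, nat_lit 561391201, nat_lit 312570400], [], [nat_lit 18370086994, nat_lit 20346091328, nat_lit 19035033944, nat_lit 20899092360, nat_lit 19004647756, nat_lit 20144154738, nat_lit 19734773284, nat_lit 20814663134], nat_lit 1271250, nat_lit 1271250, nat_lit 780000, nat_lit 1100001, nat_lit 0, nat_lit 1100001, [nat_lit 490000, nat_lit 1100000, nat_lit 1442500], [nat_lit 6, nat_lit 40, nat_lit 40, nat_lit 80, nat_lit 3, nat_lit 317, nat_lit 100, nat_lit 12]⟩, ⟨p081_k13, nat_lit 0, nat_lit 0, nat_lit 830, nat_lit 0, nat_lit 1128756, [nat_lit 890720000, nat_lit 1513920000, nat_lit 2255680000], [], [nat_lit 9696224424, nat_lit 7995204840, nat_lit 7995204840, nat_lit 7879193144, nat_lit 6941923560, nat_lit 7032110480, nat_lit 6847924056, nat_lit 6935691328], nat_lit 1271250, nat_lit 1271250, nat_lit 780000, nat_lit 1100001, nat_lit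 0, nat_lit 1100001, [nat_lit 1100000, nat_lit 1785000, nat_lit 1271250], [nat_lit 21, nat_lit 40, nat_lit 40, nat_lit 80, nat_lit 14, nat_lit 373, nat_lit 150, nat_lit 10]⟩,
 ⟨nat_lit 3162, nat_lit 3873, ⟨.ofNat (nat_lit 414421), .ofNat (nat_lit 478975), .ofNat (nat_lit 457950), .ofNat (nat_lit 522504), .ofNat (nat_lit 422280), .ofNat (nat_lit 483267), .ofNat (nat_lit 466533), .ofNat (nat_lit 527519)⟩, ⟨.ofNat (nat_lit 0), .ofNat (nat_lit 261131), .ofNat (nat_lit 0), .ofNat (nat_lit 304717), .ofNat (nat_lit 0), .ofNat (nat_lit 261806), .ofNat (nat_lit 0), .ofNat (nat_lit 306116)⟩⟩, [⟨nat_lit 0, nat_lit 100, nat_lit 69, nat_lit 96, nat_lit 83178331⟩]⟩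
noncomputable def p081_l105 : Lf2 := ⟨nat_lit 0, nat_lit 10, [nat_lit 0, nat_lit 5, nat_lit 5, nat_lit 20], false, nat_lit 0, nat_lit 160, nat_lit 160, nat_lit 336, ⟨nat_lit 183, nat_lit 0, nat_lit 817, nat_lit 6, nat_lit 163, nat_lit 817, nat_lit 56, nat_lit 817, nat_lit 29400, nat_lit 257, nat_lit 35831, nat_lit 261, nat_lit 57422946, nat_lit 0, nat_lit 0, nat_lit 2051331, false, false⟩,
 nat_lit 3846, nat_lit 593, nat_lit 0, nat_lit 0, nat_lit 3329, nat_lit 2036, nat_lit 0, nat_lit 0, nat_lit 0, nat_lit 248, nat_lit 0, nat_lit 0, nat_lit 0, nat_lit 0, nat_lit 60, nat_lit 602800, nat_lit 0, nat_lit 0, [(nat_lit 18, [(nat_lit 5, nat_lit 357), (nat_lit 6, nat_lit 460)])],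
 ⟨p081_k10, nat_lit 0, nat_lit 0, nat_lit 372, nat_lit 0, nat_lit 574174, [nat_lit 1670914934, nat_lit 1099828667, nat_lit 12025600], [], [nat_lit 16886587338, nat_lit 19024990529, nat_lit 18108311501, nat_lit 19285057921, nat_lit 17717393940, nat_lit 18833947155, nat_lit 20253302021, nat_lit 19912733666], nat_lit 1271250, nat_lit 1271250, nat_lit 382400, nat_lit 1100001, nat_lit 0, nat_lit 1100001, [nat_lit 490000, nat_lit 1100000, nat_lit 1442500], [nat_lit 6, nat_lit 40, nat_lit 40, nat_lit 80, nat_lit 3, nat_lit 317, nat_lit 100, nat_lit 12]⟩, ⟨p081_k13, nat_lit 0, nat_lit 0, nat_lit 629, nat_lit 0, nat_lit 879585, [nat_lit 857904000, nat_lit 1458144000, nat_lit 2172576000], [], [nat_lit 5052962491, nat_lit 4476145995, nat_lit 5925472800, nat_lit 4939319912, nat_lit 5012156956, nat_lit 5133041685, nat_lit 4421835807, nat_lit 4543687895], nat_lit 1271250, nat_lit 1271250, nat_lit 382400, nat_lit 1100001, nat_lit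 1271250, nat_lit 1271250, [nat_lit 1100000, nat_lit 1785000, nat_lit 1271250], [nat_lit 21, nat_lit 40, nat_lit 40, nat_lit 80, nat_lit 14, nat_lit 428, nat_lit 200, nat_lit 11]⟩,
 ⟨nat_lit 3872, nat_lit 4473, ⟨.ofNat (nat_lit 311945), .ofNat (nat_lit 475111), .ofNat (nat_lit 333494), .ofNat (nat_lit 496660), .ofNat (nat_lit 324151), .ofNat (nat_lit 479021), .ofNat (nat_lit 345927), .ofNat (nat_lit 500797)⟩, ⟨.negSucc (nat_lit 12427), .ofNat (nat_lit 259489), .ofNat (nat_lit 0), .ofNat (nat_lit 302621), .ofNat (nat_lit 0), .ofNat (nat_lit 261131), .ofNat (nat_lit 0), .ofNat (nat_lit 304717)⟩⟩, [⟨nat_lit 0, nat_lit 100, nat_lit 78, nat_lit 85, nat_lit 51714608⟩, ⟨nat_lit 19, nat_lit 100, nat_lit 88, nat_lit 74, nat_lit 81713448⟩]⟩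
noncomputable def p081_l106 : Lf2 := ⟨nat_lit 0, nat_lit 10, [nat_lit 0, nat_lit 5, nat_lit 5, nat_lit 20], false, nat_lit 0, nat_lit 160, nat_lit 160, nat_lit 336, ⟨nat_lit 196, nat_lit 0, nat_lit 804, nat_lit 6, nat_lit 174, nat_lit 804, nat_lit 57, nat_lit 804, nat_lit 30817, nat_lit 258, nat_lit 32662, nat_lit 258, nat_lit 56314461, nat_lit 0, nat_lit 0, nat_lit 2194078, false, false⟩,
 nat_lit 3905, nat_lit 0, nat_lit 0, nat_lit 0, nat_lit 3161, nat_lit 2067, nat_lit 0, nat_lit 0, nat_lit 0, nat_lit 214, nat_lit 0, nat_lit 0, nat_lit 0, nat_lit 0, nat_lit 63, nat_lit 530400, nat_lit 0, nat_lit 0, [(nat_lit 21, [(nat_lit 5, nat_lit 456), (nat_lit 6, nat_lit 348)])],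
 ⟨p081_k16, nat_lit 0, nat_lit 0, nat_lit 404, nat_lit 0, nat_lit 629001, [nat_lit 1611702401, nat_lit 500124801, nat_lit 290680000], [], [nat_lit 18302867815, nat_lit 20338314567, nat_lit 19296382569, nat_lit 20823237960, nat_lit 18988069139, nat_lit 20108586390, nat_lit 20037464564, nat_lit 21111440414], nat_lit 1271250, nat_lit 1271250, nat_lit 545600, nat_lit 1100001, nat_lit 0, nat_lit 1100001, [nat_lit 490000, nat_lit 1100000, nat_lit 1442500], [nat_lit 6, nat_lit 40, nat_lit 40, nat_lit 80, nat_lit 3, nat_lit 317, nat_lit 100, nat_lit 12]⟩, ⟨p081_k13, nat_lit 0, nat_lit 0, nat_lit 694, nat_lit 0, nat_lit 1054823, [nat_lit 918848000, nat_lit 1561728000, nat_lit 2326912000], [], [nat_lit 8194347054, nat_lit 7104736272, nat_lit 6392026120, nat_lit 5390858134, nat_lit 5508179475, nat_lit 5553408747, nat_lit 5112234844, nat_lit 5146038458], nat_lit 1271250, nat_lit 1271250, nat_lit 545600, nat_lit 1100001, nat_lit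 1271250, nat_lit 1271250, [nat_lit 1100000, nat_lit 1785000, nat_lit 1271250], [nat_lit 21, nat_lit 40, nat_lit 40, nat_lit 80, nat_lit 14, nat_lit 428, nat_lit 200, nat_lit 11]⟩,
 ⟨nat_lit 3162, nat_lit 3873, ⟨.ofNat (nat_lit 362778), .ofNat (nat_lit 478975), .ofNat (nat_lit 384542), .ofNat (nat_lit 500739), .ofNat (nat_lit 373492), .ofNat (nat_lit 483267), .ofNat (nat_lit 395618), .ofNat (nat_lit 505392)⟩, ⟨.ofNat (nat_lit 0), .ofNat (nat_lit 261131), .ofNat (nat_lit 0), .ofNat (nat_lit 304717), .ofNat (nat_lit 0), .ofNat (nat_lit 261806), .ofNat (nat_lit 0), .ofNat (nat_lit 306116)⟩⟩, [⟨nat_lit 0, nat_lit 100, nat_lit 63, nat_lit 99, nat_lit 233343087⟩]⟩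
noncomputable def p081_l107 : Lf2 := ⟨nat_lit 0, nat_lit 10, [nat_lit 0, nat_lit 5, nat_lit 5, nat_lit 20], false, nat_lit 0, nat_lit 160, nat_lit 160, nat_lit 320, ⟨nat_lit 312, nat_lit 0, nat_lit 688, nat_lit 6, nat_lit 179, nat_lit 688, nat_lit 57, nat_lit 688, nat_lit 29400, nat_lit 257, nat_lit 15182, nat_lit 244, nat_lit 55837712, nat_lit 0, nat_lit 0, nat_lit 2252278, false, false⟩,
 nat_lit 5109, nat_lit 0, nat_lit 0, nat_lit 0, nat_lit 3831, nat_lit 2973, nat_lit 0, nat_lit 0, nat_lit 0, nat_lit 391, nat_lit 0, nat_lit 0, nat_lit 0, nat_lit 0, nat_lit 12, nat_lit 560800, nat_lit 0, nat_lit 0, [(nat_lit 18, [(nat_lit 5, nat_lit 212), (nat_lit 6, nat_lit 476)]), (nat_lit 21, [(nat_lit 5, nat_lit 212), (nat_lit 6, nat_lit 476)])],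
 ⟨p081_k10, nat_lit 0, nat_lit 0, nat_lit 446, nat_lit 0, nat_lit 736827, [nat_lit 1441668267, nat_lit 976774934, nat_lit 14116800], [], [nat_lit 20711669583, nat_lit 21930145976, nat_lit 19182857529, nat_lit 22093799160, nat_lit 18539387071, nat_lit 20514413499, nat_lit 20773463663, nat_lit 21204646071], nat_lit 1271250, nat_lit 1271250, nat_lit 490000, nat_lit 1100001, nat_lit 0, nat_lit 1100001, [nat_lit 490000, nat_lit 1100000, nat_lit 1442500], [nat_lit 6, nat_lit 40, nat_lit 40, nat_lit 80, nat_lit 3, nat_lit 317, nat_lit 100, nat_lit 12]⟩, ⟨p081_k19, nat_lit 0, nat_lit 0, nat_lit 601, nat_lit 0, nat_lit 1002597, [nat_lit 1462656000, nat_lit 2486016000, nat_lit 3070704000], [], [nat_lit 6171416994, nat_lit 6441932784, nat_lit 8217305754, nat_lit 6777309420, nat_lit 7523963538, nat_lit 7776775200, nat_lit 7039854744, nat_lit 7315087020], nat_lit 1271250, nat_lit 1271250, nat_lit 490000, nat_lit 1100001, nat_lit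 1271250, nat_lit 1271250, [nat_lit 1100000, nat_lit 1785000, nat_lit 1271250], [nat_lit 29, nat_lit 40, nat_lit 40, nat_lit 80, nat_lit 17, nat_lit 428, nat_lit 200, nat_lit 12]⟩,
 ⟨nat_lit 3162, nat_lit 4473, ⟨.ofNat (nat_lit 360260), .ofNat (nat_lit 496372), .ofNat (nat_lit 381736), .ofNat (nat_lit 517847), .ofNat (nat_lit 383100), .ofNat (nat_lit 505162), .ofNat (nat_lit 405164), .ofNat (nat_lit 527226)⟩, ⟨.negSucc (nat_lit 12437), .ofNat (nat_lit 259488), .ofNat (nat_lit 0), .ofNat (nat_lit 302621), .ofNat (nat_lit 0), .ofNat (nat_lit 261805), .ofNat (nat_lit 0), .ofNat (nat_lit 306116)⟩⟩, [⟨nat_lit 0, nat_lit 100, nat_lit 76, nat_lit 97, nat_lit 142313400⟩, ⟨nat_lit 7, nat_lit 97, nat_lit 100, nat_lit 76, nat_lit 133225609⟩]⟩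
noncomputable def p081_l108 : Lf2 := ⟨nat_lit 0, nat_lit 10, [nat_lit 0, nat_lit 5, nat_lit 5, nat_lit 20], false, nat_lit 160, nat_lit 260, nat_lit 0, nat_lit 336, ⟨nat_lit 0, nat_lit 0, nat_lit 1000, nat_lit 6, nat_lit 153, nat_lit 1000, nat_lit 146, nat_lit 1000, nat_lit 89743, nat_lit 288, nat_lit 191072, nat_lit 322, nat_lit 50157756, nat_lit 0, nat_lit 0, nat_lit 3949450, false, false⟩,
 nat_lit 0, nat_lit 4265, nat_lit 0, nat_lit 0, nat_lit 3198, nat_lit 0, nat_lit 0, nat_lit 0, nat_lit 0, nat_lit 0, nat_lit 0, nat_lit 0, nat_lit 0, nat_lit 0, nat_lit 76, nat_lit 400000, nat_lit 0, nat_lit 0, [(nat_lit 18, [(nat_lit 5, nat_lit 1000)])],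
 ⟨p081_k10, nat_lit 0, nat_lit 0, nat_lit 275, nat_lit 0, nat_lit 578824, [nat_lit 1536800000, nat_lit 802000001, nat_lit 14800000], [], [nat_lit 15708055728, nat_lit 16342585203, nat_lit 16274208480, nat_lit 16884390768, nat_lit 19581798128, nat_lit 20319595232, nat_lit 19568593744, nat_lit 20262551219], nat_lit 1271250, nat_lit 1271250, nat_lit 382400, nat_lit 780000, nat_lit 1100001, nat_lit 1956250, [nat_lit 490000, nat_lit 1100000, nat_lit 1442500], [nat_lit 6, nat_lit 40, nat_lit 40, nat_lit 80, nat_lit 3, nat_lit 317, nat_lit 100, nat_lit 11]⟩, ⟨p081_k13, nat_lit 0, nat_lit 0, nat_lit 739, nat_lit 0, nat_lit 886709, [nat_lit 0, nat_lit 0, nat_lit 0], [], [nat_lit 0, nat_lit 0, nat_lit 0, nat_lit 0, nat_lit 0, nat_lit 0, nat_lit 0, nat_lit 0], nat_lit 1271250, nat_lit 1271250, nat_lit 382400, nat_lit 780000, nat_lit 0, nat_lit 2373000, [nat_lit 1100000, nat_lit 1785000, nat_lit 1271250], [nat_lit 21, nat_lit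 40, nat_lit 40, nat_lit 80, nat_lit 14, nat_lit 428, nat_lit 200, nat_lit 11]⟩,
 ⟨nat_lit 4183, nat_lit 4473, ⟨.ofNat (nat_lit 311996), .ofNat (nat_lit 407167), .ofNat (nat_lit 355120), .ofNat (nat_lit 450291), .ofNat (nat_lit 318053), .ofNat (nat_lit 410812), .ofNat (nat_lit 361378), .ofNat (nat_lit 454137)⟩, ⟨.ofNat (nat_lit 259489), .ofNat (nat_lit 429434), .ofNat (nat_lit 302621), .ofNat (nat_lit 472567), .ofNat (nat_lit 260409), .ofNat (nat_lit 426048), .ofNat (nat_lit 303743), .ofNat (nat_lit 469382)⟩⟩, [⟨nat_lit 0, nat_lit 100, nat_lit 83, nat_lit 98, nat_lit 111564411⟩, ⟨nat_lit 16, nat_lit 83, nat_lit 100, nat_lit 83, nat_lit 80556240⟩, ⟨nat_lit 4, nat_lit 100, nat_lit 79, nat_lit 72, nat_lit 175379668⟩]⟩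
noncomputable def p081_l109 : Lf2 := ⟨nat_lit 0, nat_lit 10, [nat_lit 0, nat_lit 5, nat_lit 5, nat_lit 20], false, nat_lit 160, nat_lit 244, nat_lit 0, nat_lit 336, ⟨nat_lit 0, nat_lit 0, nat_lit 1000, nat_lit 6, nat_lit 159, nat_lit 1000, nat_lit 140, nat_lit 1000, nat_lit 183750, nat_lit 320, nat_lit 153600, nat_lit 311, nat_lit 50116201, nat_lit 0, nat_lit 0, nat_lit 3948905, false, false⟩,
 nat_lit 0, nat_lit 4081, nat_lit 0, nat_lit 0, nat_lit 3181, nat_lit 0, nat_lit 0, nat_lit 0, nat_lit 0, nat_lit 0, nat_lit 0, nat_lit 0, nat_lit 0, nat_lit 0, nat_lit 76, nat_lit 400000, nat_lit 0, nat_lit 0, [(nat_lit 18, [(nat_lit 5, nat_lit 1000)])],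
 ⟨p081_k20, nat_lit 0, nat_lit 0, nat_lit 278, nat_lit 0, nat_lit 601889, [nat_lit 1536800000, nat_lit 802000001, nat_lit 14800000], [], [nat_lit 16430887949, nat_lit 17071952268, nat_lit 16939297096, nat_lit 17547975632, nat_lit 19312516926, nat_lit 20067649226, nat_lit 19505763312, nat_lit 20158470704], nat_lit 1271250, nat_lit 1271250, nat_lit 462650, nat_lit 780000, nat_lit 1100001, nat_lit 1819250, [nat_lit 490000, nat_lit 1100000, nat_lit 1442500], [nat_lit 6, nat_lit 40, nat_lit 40, nat_lit 80, nat_lit 3, nat_lit 317, nat_lit 100, nat_lit 11]⟩, ⟨p081_k13, nat_lit 0, nat_lit 0, nat_lit 764, nat_lit 0, nat_lit 965327, [nat_lit 0, nat_lit 0, nat_lit 0], [], [nat_lit 0, nat_lit 0, nat_lit 0, nat_lit 0, nat_lit 0, nat_lit 0, nat_lit 0, nat_lit 0], nat_lit 1271250, nat_lit 1271250, nat_lit 462650, nat_lit 780000, nat_lit 0, nat_lit 2373000, [nat_lit 1100000, nat_lit 1785000, nat_lit 1271250], [nat_lit 21, nat_lit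 40, nat_lit 40, nat_lit 80, nat_lit 14, nat_lit 428, nat_lit 200, nat_lit 11]⟩,
 ⟨nat_lit 3872, nat_lit 4184, ⟨.ofNat (nat_lit 337921), .ofNat (nat_lit 410806), .ofNat (nat_lit 381245), .ofNat (nat_lit 454130), .ofNat (nat_lit 343550), .ofNat (nat_lit 414527), .ofNat (nat_lit 387127), .ofNat (nat_lit 458104)⟩, ⟨.ofNat (nat_lit 260409), .ofNat (nat_lit 399546), .ofNat (nat_lit 303743), .ofNat (nat_lit 442879), .ofNat (nat_lit 261131), .ofNat (nat_lit 396626), .ofNat (nat_lit 304717), .ofNat (nat_lit 440213)⟩⟩, [⟨nat_lit 0, nat_lit 99, nat_lit 77, nat_lit 100, nat_lit 85471069⟩, ⟨nat_lit 4, nat_lit 100, nat_lit 74, nat_lit 72, nat_lit 255800229⟩]⟩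
noncomputable def p081_l110 : Lf2 := ⟨nat_lit 0, nat_lit 10, [nat_lit 0, nat_lit 5, nat_lit 5, nat_lit 20], false, nat_lit 160, nat_lit 260, nat_lit 0, nat_lit 336, ⟨nat_lit 221, nat_lit 0, nat_lit 779, nat_lit 6, nat_lit 186, nat_lit 779, nat_lit 146, nat_lit 779, nat_lit 89743, nat_lit 288, nat_lit 19328, nat_lit 248, nat_lit 47479695, nat_lit 0, nat_lit 0, nat_lit 4289453, false, false⟩,
 nat_lit 3996, nat_lit 601, nat_lit 0, nat_lit 0, nat_lit 3447, nat_lit 2115, nat_lit 0, nat_lit 0, nat_lit 0, nat_lit 161, nat_lit 0, nat_lit 0, nat_lit 0, nat_lit 0, nat_lit 58, nat_lit 651200, nat_lit 0, nat_lit 0, [(nat_lit 18, [(nat_lit 5, nat_lit 213), (nat_lit 6, nat_lit 566)])],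
 ⟨p081_k10, nat_lit 0, nat_lit 0, nat_lit 251, nat_lit 0, nat_lit 578824, [nat_lit 1710715467, nat_lit 1174176934, nat_lit 12789600], [], [nat_lit 16693112950, nat_lit 17244209288, nat_lit 17366040442, nat_lit 17891704702, nat_lit 19818539763, nat_lit 20386268765, nat_lit 20465104528, nat_lit 21003140193], nat_lit 1271250, nat_lit 1271250, nat_lit 780000, nat_lit 1100001, nat_lit 1100001, nat_lit 1956250, [nat_lit 490000, nat_lit 1100000, nat_lit 1442500], [nat_lit 6, nat_lit 40, nat_lit 40, nat_lit 80, nat_lit 3, nat_lit 345, nat_lit 125, nat_lit 12]⟩, ⟨p081_k13, nat_lit 0, nat_lit 0, nat_lit 708, nat_lit 0, nat_lit 886709, [nat_lit 1036048000, nat_lit 1760928000, nat_lit 2623712000], [], [nat_lit 11986267992, nat_lit 9715020252, nat_lit 9715020252, nat_lit 7910172036, nat_lit 8056463124, nat_lit 6896665936, nat_lit 9140871480, nat_lit 7259501148], nat_lit 1271250, nat_lit 1271250, nat_lit 780000, nat_lit 1100001,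 nat_lit 0, nat_lit 2373000, [nat_lit 1100000, nat_lit 1785000, nat_lit 1271250], [nat_lit 21, nat_lit 40, nat_lit 40, nat_lit 80, nat_lit 14, nat_lit 428, nat_lit 200, nat_lit 11]⟩,
 ⟨nat_lit 4183, nat_lit 4473, ⟨.ofNat (nat_lit 407167), .ofNat (nat_lit 475145), .ofNat (nat_lit 450291), .ofNat (nat_lit 518271), .ofNat (nat_lit 410812), .ofNat (nat_lit 477068), .ofNat (nat_lit 454137), .ofNat (nat_lit 520394)⟩, ⟨.ofNat (nat_lit 259489), .ofNat (nat_lit 429434), .ofNat (nat_lit 302621), .ofNat (nat_lit 472567), .ofNat (nat_lit 260409), .ofNat (nat_lit 426048), .ofNat (nat_lit 303743), .ofNat (nat_lit 469382)⟩⟩, [⟨nat_lit 16, nat_lit 83, nat_lit 100, nat_lit 83, nat_lit 286864747⟩]⟩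
noncomputable def p081_l111 : Lf2 := ⟨nat_lit 0, nat_lit 10, [nat_lit 0, nat_lit 5, nat_lit 5, nat_lit 20], false, nat_lit 160, nat_lit 244, nat_lit 0, nat_lit 336, ⟨nat_lit 183, nat_lit 0, nat_lit 817, nat_lit 6, nat_lit 187, nat_lit 817, nat_lit 140, nat_lit 817, nat_lit 183750, nat_lit 320, nat_lit 19642, nat_lit 247, nat_lit 47790949, nat_lit 0, nat_lit 0, nat_lit 4236034, false, false⟩,
 nat_lit 3352, nat_lit 865, nat_lit 0, nat_lit 0, nat_lit 3287, nat_lit 1774, nat_lit 299, nat_lit 0, nat_lit 0, nat_lit 117, nat_lit 0, nat_lit 0, nat_lit 0, nat_lit 0, nat_lit 5, nat_lit 326800, nat_lit 0, nat_lit 0, [(nat_lit 18, [(nat_lit 5, nat_lit 817)])],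
 ⟨p081_k20, nat_lit 0, nat_lit 0, nat_lit 261, nat_lit 0, nat_lit 601889, [nat_lit 1170685601, nat_lit 599666000, nat_lit 14001600], [], [nat_lit 17304245358, nat_lit 17843877056, nat_lit 17958455481, nat_lit 18475468724, nat_lit 19639069373, nat_lit 20212586762, nat_lit 20302394122, nat_lit 20845971087], nat_lit 1271250, nat_lit 1271250, nat_lit 780000, nat_lit 1100001, nat_lit 1100001, nat_lit 1819250, [nat_lit 490000, nat_lit 1100000, nat_lit 1442500], [nat_lit 6, nat_lit 40, nat_lit 40, nat_lit 80, nat_lit 3, nat_lit 345, nat_lit 125, nat_lit 12]⟩, ⟨p081_k13, nat_lit 0, nat_lit 0, nat_lit 739, nat_lit 0, nat_lit 965327, [nat_lit 857904000, nat_lit 1458144000, nat_lit 2172576000], [], [nat_lit 9984158380, nat_lit 8079102356, nat_lit 8079102356, nat_lit 6773585136, nat_lit 6655590144, nat_lit 5742721637, nat_lit 7562128623, nat_lit 5984090340], nat_lit 1271250, nat_lit 1271250, nat_lit 780000, nat_lit 1100001,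 nat_lit 0, nat_lit 2373000, [nat_lit 1100000, nat_lit 1785000, nat_lit 1271250], [nat_lit 21, nat_lit 40, nat_lit 40, nat_lit 80, nat_lit 14, nat_lit 428, nat_lit 200, nat_lit 11]⟩,
 ⟨nat_lit 3872, nat_lit 4184, ⟨.ofNat (nat_lit 410806), .ofNat (nat_lit 477065), .ofNat (nat_lit 454130), .ofNat (nat_lit 520388), .ofNat (nat_lit 414527), .ofNat (nat_lit 479052), .ofNat (nat_lit 458104), .ofNat (nat_lit 522628)⟩, ⟨.ofNat (nat_lit 260409), .ofNat (nat_lit 399546), .ofNat (nat_lit 303743), .ofNat (nat_lit 442879), .ofNat (nat_lit 261131), .ofNat (nat_lit 396626), .ofNat (nat_lit 304717), .ofNat (nat_lit 440213)⟩⟩, [⟨nat_lit 0, nat_lit 99, nat_lit 77, nat_lit 100, nat_lit 31741494⟩, ⟨nat_lit 16, nat_lit 78, nat_lit 100, nat_lit 82, nat_lit 152942788⟩, ⟨nat_lit 4, nat_lit 100, nat_lit 74, nat_lit 72, nat_lit 122760901⟩]⟩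
noncomputable def p081_l112 : Lf2 := ⟨nat_lit 0, nat_lit 10, [nat_lit 0, nat_lit 5, nat_lit 5, nat_lit 20], false, nat_lit 160, nat_lit 232, nat_lit 0, nat_lit 336, ⟨nat_lit 20, nat_lit 0, nat_lit 980, nat_lit 6, nat_lit 179, nat_lit 980, nat_lit 136, nat_lit 980, nat_lit 173400, nat_lit 317, nat_lit 15897, nat_lit 244, nat_lit 48819458, nat_lit 0, nat_lit 0, nat_lit 4102717, false, false⟩,
 nat_lit 366, nat_lit 3401, nat_lit 0, nat_lit 0, nat_lit 3049, nat_lit 193, nat_lit 0, nat_lit 0, nat_lit 0, nat_lit 6, nat_lit 0, nat_lit 0, nat_lit 0, nat_lit 0, nat_lit 139, nat_lit 630200, nat_lit 0, nat_lit 0, [(nat_lit 21, [(nat_lit 5, nat_lit 583), (nat_lit 6, nat_lit 397)])],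
 ⟨p081_k16, nat_lit 0, nat_lit 0, nat_lit 325, nat_lit 0, nat_lit 673088, [nat_lit 2023348001, nat_lit 623260401, nat_lit 301692800], [], [nat_lit 17489728337, nat_lit 18730031948, nat_lit 18639727709, nat_lit 19770839729, nat_lit 19650396722, nat_lit 20972449943, nat_lit 20617923182, nat_lit 21626838028], nat_lit 1271250, nat_lit 1271250, nat_lit 545600, nat_lit 1100001, nat_lit 1100001, nat_lit 1716500, [nat_lit 490000, nat_lit 1100000, nat_lit 1442500], [nat_lit 6, nat_lit 40, nat_lit 40, nat_lit 80, nat_lit 3, nat_lit 317, nat_lit 100, nat_lit 11]⟩, ⟨p081_k13, nat_lit 0, nat_lit 0, nat_lit 846, nat_lit 0, nat_lit 1128756, [nat_lit 93760000, nat_lit 159360000, nat_lit 237440000], [], [nat_lit 1257296478, nat_lit 1047427815, nat_lit 881621360, nat_lit 789078680, nat_lit 699181443, nat_lit 699210336, nat_lit 826734221, nat_lit 656761372], nat_lit 1271250, nat_lit 1271250, nat_lit 545600, nat_lit 1100001, nat_lit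 0, nat_lit 2373000, [nat_lit 1100000, nat_lit 1785000, nat_lit 1271250], [nat_lit 21, nat_lit 40, nat_lit 40, nat_lit 80, nat_lit 14, nat_lit 428, nat_lit 200, nat_lit 11]⟩,
 ⟨nat_lit 3162, nat_lit 3873, ⟨.ofNat (nat_lit 362778), .ofNat (nat_lit 478975), .ofNat (nat_lit 406307), .ofNat (nat_lit 522504), .ofNat (nat_lit 373492), .ofNat (nat_lit 483267), .ofNat (nat_lit 417744), .ofNat (nat_lit 527519)⟩, ⟨.ofNat (nat_lit 261131), .ofNat (nat_lit 377270), .ofNat (nat_lit 304717), .ofNat (nat_lit 420856), .ofNat (nat_lit 261806), .ofNat (nat_lit 371522), .ofNat (nat_lit 306116), .ofNat (nat_lit 415832)⟩⟩, [⟨nat_lit 0, nat_lit 100, nat_lit 69, nat_lit 96, nat_lit 19370387⟩, ⟨nat_lit 4, nat_lit 100, nat_lit 66, nat_lit 72, nat_lit 274213705⟩]⟩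
noncomputable def p081_l113 : Lf2 := ⟨nat_lit 0, nat_lit 10, [nat_lit 0, nat_lit 5, nat_lit 5, nat_lit 20], false, nat_lit 0, nat_lit 160, nat_lit 0, nat_lit 160, ⟨nat_lit 301, nat_lit 0, nat_lit 699, nat_lit 6, nat_lit 226, nat_lit 274, nat_lit 56, nat_lit 699, nat_lit 29400, nat_lit 257, nat_lit 37112, nat_lit 200, nat_lit 50788003, nat_lit 0, nat_lit 0, nat_lit 2766700, false, false⟩,
 nat_lit 5339, nat_lit 0, nat_lit 0, nat_lit 0, nat_lit 4004, nat_lit 2826, nat_lit 0, nat_lit 0, nat_lit 0, nat_lit 282, nat_lit 0, nat_lit 0, nat_lit 0, nat_lit 0, nat_lit 43, nat_lit 699000, nat_lit 0, nat_lit 0, [(nat_lit 18, [(nat_lit 6, nat_lit 699)])],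
 ⟨p081_k10, nat_lit 0, nat_lit 0, nat_lit 359, nat_lit 0, nat_lit 630144, [nat_lit 1696385600, nat_lit 1232514401, nat_lit 14590800], [], [nat_lit 20946228833, nat_lit 20312722576, nat_lit 21465445920, nat_lit 23264085576, nat_lit 17405757969, nat_lit 18486044193, nat_lit 20064008338, nat_lit 20877506880], nat_lit 1271250, nat_lit 1271250, nat_lit 1100001, nat_lit 1785000, nat_lit 0, nat_lit 1100001, [nat_lit 490000, nat_lit 1100000, nat_lit 1442500], [nat_lit 6, nat_lit 40, nat_lit 40, nat_lit 80, nat_lit 3, nat_lit 317, nat_lit 100, nat_lit 12]⟩, ⟨p081_k13, nat_lit 0, nat_lit 0, nat_lit 722, nat_lit 0, nat_lit 965327, [nat_lit 1411088000, nat_lit 2398368000, nat_lit 3573472000], [], [nat_lit 13148551452, nat_lit 10518343144, nat_lit 10382011976, nat_lit 10657804372, nat_lit 8473254120, nat_lit 8746541536, nat_lit 10944659776, nat_lit 8800829300], nat_lit 1271250, nat_lit 1271250, nat_lit 1100001, nat_lit 1785000,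 nat_lit 0, nat_lit 1100001, [nat_lit 1100000, nat_lit 1785000, nat_lit 1271250], [nat_lit 21, nat_lit 40, nat_lit 40, nat_lit 80, nat_lit 14, nat_lit 401, nat_lit 175, nat_lit 10]⟩,
 ⟨nat_lit 3872, nat_lit 4473, ⟨.ofNat (nat_lit 475111), .ofNat (nat_lit 611083), .ofNat (nat_lit 518209), .ofNat (nat_lit 654181), .ofNat (nat_lit 479021), .ofNat (nat_lit 608080), .ofNat (nat_lit 522572), .ofNat (nat_lit 651631)⟩, ⟨.negSucc (nat_lit 12427), .ofNat (nat_lit 259489), .ofNat (nat_lit 0), .ofNat (nat_lit 302621), .ofNat (nat_lit 0), .ofNat (nat_lit 261131), .ofNat (nat_lit 0), .ofNat (nat_lit 304717)⟩⟩, []⟩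
noncomputable def p081_l114 : Lf2 := ⟨nat_lit 0, nat_lit 10, [nat_lit 0, nat_lit 5, nat_lit 5, nat_lit 20], false, nat_lit 0, nat_lit 160, nat_lit 160, nat_lit 336, ⟨nat_lit 222, nat_lit 0, nat_lit 778, nat_lit 6, nat_lit 226, nat_lit 778, nat_lit 56, nat_lit 778, nat_lit 29400, nat_lit 257, nat_lit 37112, nat_lit 200, nat_lit 50788003, nat_lit 0, nat_lit 0, nat_lit 2766700, false, false⟩,
 nat_lit 4356, nat_lit 0, nat_lit 0, nat_lit 0, nat_lit 3266, nat_lit 2305, nat_lit 0, nat_lit 0, nat_lit 0, nat_lit 240, nat_lit 0, nat_lit 0, nat_lit 0, nat_lit 0, nat_lit 44, nat_lit 581200, nat_lit 0, nat_lit 0, [(nat_lit 18, [(nat_lit 5, nat_lit 328), (nat_lit 6, nat_lit 450)])],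
 ⟨p081_k10, nat_lit 0, nat_lit 0, nat_lit 359, nat_lit 0, nat_lit 630144, [nat_lit 1584630400, nat_lit 1051064001, nat_lit 18434400], [], [nat_lit 20933759729, nat_lit 19901645537, nat_lit 21093672729, nat_lit 22117766517, nat_lit 19575633273, nat_lit 20562521169, nat_lit 21626636744, nat_lit 22499810144], nat_lit 1271250, nat_lit 1271250, nat_lit 1100001, nat_lit 1785000, nat_lit 0, nat_lit 1100001, [nat_lit 490000, nat_lit 1100000, nat_lit 1442500], [nat_lit 6, nat_lit 40, nat_lit 40, nat_lit 80, nat_lit 3, nat_lit 317, nat_lit 100, nat_lit 12]⟩, ⟨p081_k13, nat_lit 0, nat_lit 0, nat_lit 593, nat_lit 0, nat_lit 965327, [nat_lit 1040736000, nat_lit 1768896000, nat_lit 2635584000], [], [nat_lit 8993189864, nat_lit 6555707684, nat_lit 6580543684, nat_lit 5596532008, nat_lit 5935685205, nat_lit 6013600057, nat_lit 5826916152, nat_lit 6193149888], nat_lit 1271250, nat_lit 1271250, nat_lit 1100001, nat_lit 1785000,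 nat_lit 1271250, nat_lit 1271250, [nat_lit 1100000, nat_lit 1785000, nat_lit 1271250], [nat_lit 21, nat_lit 40, nat_lit 40, nat_lit 80, nat_lit 14, nat_lit 456, nat_lit 225, nat_lit 11]⟩,
 ⟨nat_lit 3872, nat_lit 4473, ⟨.ofNat (nat_lit 475111), .ofNat (nat_lit 611083), .ofNat (nat_lit 518209), .ofNat (nat_lit 654181), .ofNat (nat_lit 479021), .ofNat (nat_lit 608080), .ofNat (nat_lit 522572), .ofNat (nat_lit 651631)⟩, ⟨.negSucc (nat_lit 12427), .ofNat (nat_lit 259489), .ofNat (nat_lit 0), .ofNat (nat_lit 302621), .ofNat (nat_lit 0), .ofNat (nat_lit 261131), .ofNat (nat_lit 0), .ofNat (nat_lit 304717)⟩⟩, [⟨nat_lit 7, nat_lit 92, nat_lit 100, nat_lit 75, nat_lit 45820530⟩]⟩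
noncomputable def p081_l115 : Lf2 := ⟨nat_lit 0, nat_lit 10, [nat_lit 0, nat_lit 5, nat_lit 5, nat_lit 20], false, nat_lit 0, nat_lit 160, nat_lit 0, nat_lit 160, ⟨nat_lit 226, nat_lit 229, nat_lit 545, nat_lit 6, nat_lit 226, nat_lit 774, nat_lit 57, nat_lit 544, nat_lit 30817, nat_lit 258, nat_lit 31972, nat_lit 200, nat_lit 50751041, nat_lit 16248959, nat_lit 0, nat_lit 2769845, false, false⟩,
 nat_lit 4213, nat_lit 0, nat_lit 0, nat_lit 0, nat_lit 3410, nat_lit 2230, nat_lit 0, nat_lit 0, nat_lit 0, nat_lit 173, nat_lit 0, nat_lit 0, nat_lit 0, nat_lit 0, nat_lit 41, nat_lit 636600, nat_lit 0, nat_lit 0, [(nat_lit 21, [(nat_lit 1, nat_lit 229), (nat_lit 6, nat_lit 545)])],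
 ⟨p081_k16, nat_lit 0, nat_lit 0, nat_lit 387, nat_lit 0, nat_lit 673088, [nat_lit 1510464800, nat_lit 583659201, nat_lit 275140000], [], [nat_lit 19367583040, nat_lit 21295431600, nat_lit 22240389540, nat_lit 23892362280, nat_lit 19719143180, nat_lit 20671963280, nat_lit 21673790240, nat_lit 22650590000], nat_lit 1271250, nat_lit 1271250, nat_lit 1100001, nat_lit 1785000, nat_lit 0, nat_lit 1100001, [nat_lit 490000, nat_lit 1100000, nat_lit 1442500], [nat_lit 6, nat_lit 40, nat_lit 40, nat_lit 80, nat_lit 3, nat_lit 317, nat_lit 100, nat_lit 12]⟩, ⟨p081_k13, nat_lit 0, nat_lit 0, nat_lit 812, nat_lit 0, nat_lit 1128756, [nat_lit 1059488000, nat_lit 1800768000, nat_lit 2683072000], [], [nat_lit 10037141912, nat_lit 8015978852, nat_lit 7826865516, nat_lit 7925343768, nat_lit 6446625860, nat_lit 6549871144, nat_lit 8188325416, nat_lit 6456084664], nat_lit 1271250, nat_lit 1271250, nat_lit 1100001, nat_lit 1785000,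 nat_lit 0, nat_lit 1100001, [nat_lit 1100000, nat_lit 1785000, nat_lit 1271250], [nat_lit 21, nat_lit 40, nat_lit 40, nat_lit 80, nat_lit 14, nat_lit 401, nat_lit 175, nat_lit 10]⟩,
 ⟨nat_lit 3162, nat_lit 3873, ⟨.ofNat (nat_lit 478975), .ofNat (nat_lit 608082), .ofNat (nat_lit 522504), .ofNat (nat_lit 651611), .ofNat (nat_lit 483267), .ofNat (nat_lit 605237), .ofNat (nat_lit 527519), .ofNat (nat_lit 649490)⟩, ⟨.ofNat (nat_lit 0), .ofNat (nat_lit 261131), .ofNat (nat_lit 0), .ofNat (nat_lit 304717), .ofNat (nat_lit 0), .ofNat (nat_lit 261806), .ofNat (nat_lit 0), .ofNat (nat_lit 306116)⟩⟩, []⟩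
noncomputable def p081_l116 : Lf2 := ⟨nat_lit 0, nat_lit 10, [nat_lit 0, nat_lit 5, nat_lit 5, nat_lit 20], false, nat_lit 0, nat_lit 160, nat_lit 160, nat_lit 336, ⟨nat_lit 238, nat_lit 201, nat_lit 561, nat_lit 6, nat_lit 226, nat_lit 762, nat_lit 57, nat_lit 561, nat_lit 30817, nat_lit 258, nat_lit 31972, nat_lit 200, nat_lit 50751041, nat_lit 16248959, nat_lit 0, nat_lit 2769845, false, false⟩,
 nat_lit 4229, nat_lit 0, nat_lit 0, nat_lit 0, nat_lit 3423, nat_lit 2238, nat_lit 0, nat_lit 0, nat_lit 0, nat_lit 169, nat_lit 0, nat_lit 0, nat_lit 0, nat_lit 0, nat_lit 43, nat_lit 641400, nat_lit 0, nat_lit 0, [(nat_lit 21, [(nat_lit 1, nat_lit 201), (nat_lit 6, nat_lit 561)])],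
 ⟨p081_k16, nat_lit 0, nat_lit 0, nat_lit 387, nat_lit 0, nat_lit 673088, [nat_lit 1525024801, nat_lit 586852801, nat_lit 280869600], [], [nat_lit 19388267912, nat_lit 21320084280, nat_lit 22262793662, nat_lit 23917976284, nat_lit 19626985759, nat_lit 20616959150, nat_lit 21617752038, nat_lit 22596113566], nat_lit 1271250, nat_lit 1271250, nat_lit 1100001, nat_lit 1785000, nat_lit 0, nat_lit 1100001, [nat_lit 490000, nat_lit 1100000, nat_lit 1442500], [nat_lit 6, nat_lit 40, nat_lit 40, nat_lit 80, nat_lit 3, nat_lit 317, nat_lit 100, nat_lit 12]⟩, ⟨p081_k13, nat_lit 0, nat_lit 0, nat_lit 691, nat_lit 0, nat_lit 1128756, [nat_lit 1115744000, nat_lit 1896384000, nat_lit 2825536000], [], [nat_lit 9286100776, nat_lit 7138679348, nat_lit 7090261280, nat_lit 7082155716, nat_lit 7349269995, nat_lit 7392973070, nat_lit 7200603225, nat_lit 7256082156], nat_lit 1271250, nat_lit 1271250, nat_lit 1100001, nat_lit 1785000,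 nat_lit 1271250, nat_lit 1271250, [nat_lit 1100000, nat_lit 1785000, nat_lit 1271250], [nat_lit 21, nat_lit 40, nat_lit 40, nat_lit 80, nat_lit 14, nat_lit 456, nat_lit 225, nat_lit 11]⟩,
 ⟨nat_lit 3162, nat_lit 3873, ⟨.ofNat (nat_lit 478975), .ofNat (nat_lit 608082), .ofNat (nat_lit 522504), .ofNat (nat_lit 651611), .ofNat (nat_lit 483267), .ofNat (nat_lit 605237), .ofNat (nat_lit 527519), .ofNat (nat_lit 649490)⟩, ⟨.ofNat (nat_lit 0), .ofNat (nat_lit 261131), .ofNat (nat_lit 0), .ofNat (nat_lit 304717), .ofNat (nat_lit 0), .ofNat (nat_lit 261806), .ofNat (nat_lit 0), .ofNat (nat_lit 306116)⟩⟩, [⟨nat_lit 7, nat_lit 92, nat_lit 100, nat_lit 75, nat_lit 61530140⟩]⟩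
noncomputable def p081_l117 : Lf2 := ⟨nat_lit 0, nat_lit 10, [nat_lit 0, nat_lit 5, nat_lit 5, nat_lit 20], false, nat_lit 160, nat_lit 260, nat_lit 0, nat_lit 160, ⟨nat_lit 290, nat_lit 73, nat_lit 637, nat_lit 6, nat_lit 226, nat_lit 710, nat_lit 146, nat_lit 637, nat_lit 89743, nat_lit 288, nat_lit 37112, nat_lit 200, nat_lit 44072575, nat_lit 15271485, nat_lit 7655940, nat_lit 4612658, false, false⟩,
 nat_lit 4992, nat_lit 0, nat_lit 0, nat_lit 0, nat_lit 3744, nat_lit 2642, nat_lit 0, nat_lit 0, nat_lit 0, nat_lit 270, nat_lit 0, nat_lit 0, nat_lit 0, nat_lit 0, nat_lit 20, nat_lit 630200, nat_lit 0, nat_lit 0, [(nat_lit 18, [(nat_lit 1, nat_lit 73), (nat_lit 5, nat_lit 60), (nat_lit 6, nat_lit 577)])],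
 ⟨p081_k10, nat_lit 0, nat_lit 0, nat_lit 263, nat_lit 0, nat_lit 630144, [nat_lit 1518537867, nat_lit 1082920534, nat_lit 14564800], [], [nat_lit 17957216365, nat_lit 19058736466, nat_lit 20101414850, nat_lit 21085226914, nat_lit 20831532450, nat_lit 21778988842, nat_lit 22691777456, nat_lit 23923086748], nat_lit 1271250, nat_lit 1271250, nat_lit 1100001, nat_lit 1785000, nat_lit 1100001, nat_lit 1956250, [nat_lit 490000, nat_lit 1100000, nat_lit 1442500], [nat_lit 6, nat_lit 40, nat_lit 40, nat_lit 80, nat_lit 3, nat_lit 345, nat_lit 125, nat_lit 12]⟩, ⟨p081_k13, nat_lit 0, nat_lit 0, nat_lit 722, nat_lit 0, nat_lit 965327, [nat_lit 1359520000, nat_lit 2310720000, nat_lit 3442880000], [], [nat_lit 12545028760, nat_lit 10384292840, nat_lit 10257404160, nat_lit 10522450336, nat_lit 8480505648, nat_lit 8743054112, nat_lit 10566527960, nat_lit 8806349352], nat_lit 1271250, nat_lit 1271250, nat_lit 1100001, nat_lit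 1785000, nat_lit 0, nat_lit 1100001, [nat_lit 1100000, nat_lit 1785000, nat_lit 1271250], [nat_lit 21, nat_lit 40, nat_lit 40, nat_lit 80, nat_lit 14, nat_lit 401, nat_lit 175, nat_lit 10]⟩,
 ⟨nat_lit 3872, nat_lit 4473, ⟨.ofNat (nat_lit 475111), .ofNat (nat_lit 611083), .ofNat (nat_lit 518209), .ofNat (nat_lit 654181), .ofNat (nat_lit 479021), .ofNat (nat_lit 608080), .ofNat (nat_lit 522572), .ofNat (nat_lit 651631)⟩, ⟨.ofNat (nat_lit 259489), .ofNat (nat_lit 429434), .ofNat (nat_lit 302621), .ofNat (nat_lit 472567), .ofNat (nat_lit 261131), .ofNat (nat_lit 422435), .ofNat (nat_lit 304717), .ofNat (nat_lit 466021)⟩⟩, [⟨nat_lit 16, nat_lit 83, nat_lit 100, nat_lit 83, nat_lit 141718425⟩, ⟨nat_lit 4, nat_lit 100, nat_lit 76, nat_lit 72, nat_lit 182833424⟩]⟩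
noncomputable def p081_l118 : Lf2 := ⟨nat_lit 0, nat_lit 10, [nat_lit 0, nat_lit 5, nat_lit 5, nat_lit 20], false, nat_lit 160, nat_lit 260, nat_lit 160, nat_lit 336, ⟨nat_lit 253, nat_lit 148, nat_lit 599, nat_lit 6, nat_lit 226, nat_lit 747, nat_lit 146, nat_lit 598, nat_lit 89743, nat_lit 288, nat_lit 37112, nat_lit 200, nat_lit 44072575, nat_lit 15271485, nat_lit 7655940, nat_lit 4612658, false, false⟩,
 nat_lit 4985, nat_lit 0, nat_lit 0, nat_lit 0, nat_lit 3738, nat_lit 2639, nat_lit 0, nat_lit 0, nat_lit 0, nat_lit 277, nat_lit 0, nat_lit 0, nat_lit 0, nat_lit 0, nat_lit 19, nat_lit 635400, nat_lit 0, nat_lit 0, [(nat_lit 18, [(nat_lit 1, nat_lit 148), (nat_lit 5, nat_lit 38), (nat_lit 6, nat_lit 561)])],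
 ⟨p081_k10, nat_lit 0, nat_lit 0, nat_lit 263, nat_lit 0, nat_lit 630144, [nat_lit 1502824534, nat_lit 1069908267, nat_lit 5902000], [], [nat_lit 17978577127, nat_lit 19051087831, nat_lit 20094173099, nat_lit 21077306227, nat_lit 20823929049, nat_lit 21771365742, nat_lit 22689744662, nat_lit 23920140871], nat_lit 1271250, nat_lit 1271250, nat_lit 1100001, nat_lit 1785000, nat_lit 1100001, nat_lit 1956250, [nat_lit 490000, nat_lit 1100000, nat_lit 1442500], [nat_lit 6, nat_lit 40, nat_lit 40, nat_lit 80, nat_lit 3, nat_lit 345, nat_lit 125, nat_lit 12]⟩, ⟨p081_k13, nat_lit 0, nat_lit 0, nat_lit 593, nat_lit 0, nat_lit 965327, [nat_lit 1186064000, nat_lit 2015904000, nat_lit 3003616000], [], [nat_lit 10267480796, nat_lit 7476801632, nat_lit 7498448432, nat_lit 6328868836, nat_lit 6715844925, nat_lit 6818489239, nat_lit 6604368359, nat_lit 7064240512], nat_lit 1271250, nat_lit 1271250, nat_lit 1100001, nat_lit 1785000,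 nat_lit 1271250, nat_lit 1271250, [nat_lit 1100000, nat_lit 1785000, nat_lit 1271250], [nat_lit 21, nat_lit 40, nat_lit 40, nat_lit 80, nat_lit 14, nat_lit 456, nat_lit 225, nat_lit 11]⟩,
 ⟨nat_lit 3872, nat_lit 4473, ⟨.ofNat (nat_lit 475111), .ofNat (nat_lit 611083), .ofNat (nat_lit 518209), .ofNat (nat_lit 654181), .ofNat (nat_lit 479021), .ofNat (nat_lit 608080), .ofNat (nat_lit 522572), .ofNat (nat_lit 651631)⟩, ⟨.ofNat (nat_lit 259489), .ofNat (nat_lit 429434), .ofNat (nat_lit 302621), .ofNat (nat_lit 472567), .ofNat (nat_lit 261131), .ofNat (nat_lit 422435), .ofNat (nat_lit 304717), .ofNat (nat_lit 466021)⟩⟩, [⟨nat_lit 16, nat_lit 83, nat_lit 100, nat_lit 83, nat_lit 212442165⟩, ⟨nat_lit 4, nat_lit 100, nat_lit 76, nat_lit 72, nat_lit 79302966⟩, ⟨nat_lit 7, nat_lit 92, nat_lit 100, nat_lit 75, nat_lit 28789591⟩]⟩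
noncomputable def p081_l119 : Lf2 := ⟨nat_lit 0, nat_lit 10, [nat_lit 0, nat_lit 5, nat_lit 5, nat_lit 20], false, nat_lit 160, nat_lit 232, nat_lit 0, nat_lit 336, ⟨nat_lit 65, nat_lit 458, nat_lit 477, nat_lit 6, nat_lit 222, nat_lit 935, nat_lit 136, nat_lit 476, nat_lit 173400, nat_lit 317, nat_lit 7340, nat_lit 203, nat_lit 45049720, nat_lit 15008881, nat_lit 6941399, nat_lit 4478662, false, false⟩,
 nat_lit 1357, nat_lit 2775, nat_lit 0, nat_lit 0, nat_lit 3344, nat_lit 718, nat_lit 0, nat_lit 0, nat_lit 0, nat_lit 66, nat_lit 0, nat_lit 0, nat_lit 0, nat_lit 0, nat_lit 55, nat_lit 660200, nat_lit 0, nat_lit 0, [(nat_lit 21, [(nat_lit 1, nat_lit 458), (nat_lit 6, nat_lit 477)])],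
 ⟨p081_k16, nat_lit 0, nat_lit 0, nat_lit 272, nat_lit 0, nat_lit 629001, [nat_lit 1554136801, nat_lit 578614401, nat_lit 177409200], [], [nat_lit 18713535029, nat_lit 19892726149, nat_lit 20936171349, nat_lit 22035183840, nat_lit 20713907717, nat_lit 21791489469, nat_lit 22670547058, nat_lit 23909209258], nat_lit 1271250, nat_lit 1271250, nat_lit 1100001, nat_lit 1785000, nat_lit 1100001, nat_lit 1716500, [nat_lit 490000, nat_lit 1100000, nat_lit 1442500], [nat_lit 6, nat_lit 40, nat_lit 40, nat_lit 80, nat_lit 3, nat_lit 345, nat_lit 125, nat_lit 12]⟩, ⟨p081_k13, nat_lit 0, nat_lit 0, nat_lit 757, nat_lit 0, nat_lit 1054823, [nat_lit 304720000, nat_lit 517920000, nat_lit 771680000], [], [nat_lit 3003557900, nat_lit 2623924016, nat_lit 1926924704, nat_lit 1957544436, nat_lit 3106229324, nat_lit 2778521488, nat_lit 1803873249, nat_lit 1752784903], nat_lit 1271250, nat_lit 1271250, nat_lit 1271250, nat_lit 1271250,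 nat_lit 0, nat_lit 2373000, [nat_lit 1100000, nat_lit 1785000, nat_lit 1271250], [nat_lit 21, nat_lit 40, nat_lit 40, nat_lit 80, nat_lit 14, nat_lit 456, nat_lit 225, nat_lit 12]⟩,
 ⟨nat_lit 3162, nat_lit 3873, ⟨.ofNat (nat_lit 478975), .ofNat (nat_lit 608082), .ofNat (nat_lit 500739), .ofNat (nat_lit 629847), .ofNat (nat_lit 483267), .ofNat (nat_lit 605237), .ofNat (nat_lit 505392), .ofNat (nat_lit 627364)⟩, ⟨.ofNat (nat_lit 261131), .ofNat (nat_lit 377270), .ofNat (nat_lit 304717), .ofNat (nat_lit 420856), .ofNat (nat_lit 261806), .ofNat (nat_lit 371522), .ofNat (nat_lit 306116), .ofNat (nat_lit 415832)⟩⟩, [⟨nat_lit 4, nat_lit 100, nat_lit 66, nat_lit 72, nat_lit 314787045⟩, ⟨nat_lit 7, nat_lit 88, nat_lit 100, nat_lit 74, nat_lit 12501189⟩]⟩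
noncomputable def p081_l120 : Lf2 := ⟨nat_lit 0, nat_lit 10, [nat_lit 0, nat_lit 5, nat_lit 5, nat_lit 20], false, nat_lit 160, nat_lit 232, nat_lit 0, nat_lit 320, ⟨nat_lit 158, nat_lit 316, nat_lit 526, nat_lit 6, nat_lit 231, nat_lit 842, nat_lit 136, nat_lit 526, nat_lit 173400, nat_lit 317, nat_lit 31972, nat_lit 200, nat_lit 44283974, nat_lit 15835615, nat_lit 6880411, nat_lit 4539113, false, false⟩,
 nat_lit 4179, nat_lit 0, nat_lit 0, nat_lit 0, nat_lit 3382, nat_lit 2432, nat_lit 0, nat_lit 0, nat_lit 0, nat_lit 96, nat_lit 0, nat_lit 0, nat_lit 0, nat_lit 0, nat_lit 50, nat_lit 652400, nat_lit 0, nat_lit 0, [(nat_lit 21, [(nat_lit 1, nat_lit 316), (nat_lit 6, nat_lit 526)])],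
 ⟨p081_k16, nat_lit 0, nat_lit 0, nat_lit 302, nat_lit 0, nat_lit 673088, [nat_lit 1547796800, nat_lit 590124801, nat_lit 240093600], [], [nat_lit 18817954484, nat_lit 19946117032, nat_lit 20986543132, nat_lit 22057066520, nat_lit 20763962086, nat_lit 21818019811, nat_lit 22708130741, nat_lit 23931206713], nat_lit 1271250, nat_lit 1271250, nat_lit 1100001, nat_lit 1785000, nat_lit 1100001, nat_lit 1716500, [nat_lit 490000, nat_lit 1100000, nat_lit 1442500], [nat_lit 6, nat_lit 40, nat_lit 40, nat_lit 80, nat_lit 3, nat_lit 345, nat_lit 125, nat_lit 12]⟩, ⟨p081_k19, nat_lit 0, nat_lit 0, nat_lit 664, nat_lit 0, nat_lit 1002597, [nat_lit 740704000, nat_lit 1258944000, nat_lit 1555036000], [], [nat_lit 7061497960, nat_lit 5775607144, nat_lit 4421302168, nat_lit 4743175632, nat_lit 6356184072, nat_lit 5240450568, nat_lit 4174943776, nat_lit 4442088080], nat_lit 1271250, nat_lit 1271250, nat_lit 1271250, nat_lit 1271250,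 nat_lit 0, nat_lit 2260000, [nat_lit 1100000, nat_lit 1785000, nat_lit 1271250], [nat_lit 29, nat_lit 40, nat_lit 40, nat_lit 80, nat_lit 17, nat_lit 456, nat_lit 225, nat_lit 13]⟩,
 ⟨nat_lit 3162, nat_lit 3873, ⟨.ofNat (nat_lit 500739), .ofNat (nat_lit 629847), .ofNat (nat_lit 522504), .ofNat (nat_lit 651611), .ofNat (nat_lit 505392), .ofNat (nat_lit 627364), .ofNat (nat_lit 527519), .ofNat (nat_lit 649490)⟩, ⟨.ofNat (nat_lit 261131), .ofNat (nat_lit 377270), .ofNat (nat_lit 304717), .ofNat (nat_lit 420856), .ofNat (nat_lit 261806), .ofNat (nat_lit 371522), .ofNat (nat_lit 306116), .ofNat (nat_lit 415832)⟩⟩, [⟨nat_lit 16, nat_lit 72, nat_lit 100, nat_lit 81, nat_lit 283503315⟩, ⟨nat_lit 19, nat_lit 100, nat_lit 85, nat_lit 84, nat_lit 21598901⟩]⟩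
noncomputable def b_V_800_600_10_8 : St := ⟨true, nat_lit 1, nat_lit 1, nat_lit 1, nat_lit 80, nat_lit 320, nat_lit 360, nat_lit 240, nat_lit 280, nat_lit 64, nat_lit 240, nat_lit 40, nat_lit 80, nat_lit 0, nat_lit 260, nat_lit 0, nat_lit 336, nat_lit 0, nat_lit 40, nat_lit 0, nat_lit 0, nat_lit 0, nat_lit 0⟩
theorem d_V_800_600_10_8 (h : EB TB.env) : Dead b_V_800_600_10_8 := chkB_sound0 h (T :=
(.spl (nat_lit 2) (nat_lit 160)
(.spl (nat_lit 4) (nat_lit 160)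
(.spl (nat_lit 5) (nat_lit 160)
(.spl (nat_lit 2) (nat_lit 120)
(.spl (nat_lit 0) (nat_lit 340)
(.leaf p081_l101)
(.trZ (nat_lit 0) (nat_lit 100) (nat_lit 73) (nat_lit 85) (nat_lit 88) (.leaf p081_l102)))
(.spl (nat_lit 0) (nat_lit 340)
(.leaf p081_l103)
(.leaf p081_l104)))
(.spl (nat_lit 1) (nat_lit 260)
(.spl (nat_lit 0) (nat_lit 340)
(.leaf p081_l105)
(.trZ (nat_lit 0) (nat_lit 100) (nat_lit 73) (nat_lit 85) (nat_lit 88) (.leaf p081_l106)))
(.trZ (nat_lit 0) (nat_lit 100) (nat_lit 84) (nat_lit 85) (nat_lit 80) (.trX (nat_lit 19) (nat_lit 100) (nat_lit 85) (nat_lit 84) (nat_lit 320) (.leaf p081_l107)))))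
(.spl (nat_lit 0) (nat_lit 340)
(.spl (nat_lit 2) (nat_lit 120)
(.spl (nat_lit 0) (nat_lit 330)
(.leaf p081_l108)
(.trZ (nat_lit 0) (nat_lit 100) (nat_lit 78) (nat_lit 81) (nat_lit 76) (.trX (nat_lit 16) (nat_lit 78) (nat_lit 100) (nat_lit 82) (nat_lit 244) (.leaf p081_l109))))
(.spl (nat_lit 0) (nat_lit 330)
(.leaf p081_l110)
(.trX (nat_lit 16) (nat_lit 78) (nat_lit 100) (nat_lit 82) (nat_lit 244) (.leaf p081_l111))))
(.trZ (nat_lit 0) (nat_lit 100) (nat_lit 73) (nat_lit 85) (nat_lit 88) (.trX (nat_lit 16) (nat_lit 72) (nat_lit 100) (nat_lit 81) (nat_lit 232) (.leaf p081_l112)))))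
(.spl (nat_lit 4) (nat_lit 160)
(.spl (nat_lit 0) (nat_lit 340)
(.spl (nat_lit 5) (nat_lit 160)
(.leaf p081_l113)
(.leaf p081_l114))
(.spl (nat_lit 5) (nat_lit 160)
(.leaf p081_l115)
(.leaf p081_l116)))
(.spl (nat_lit 0) (nat_lit 340)
(.spl (nat_lit 5) (nat_lit 160)
(.leaf p081_l117)
(.leaf p081_l118))
(.trX (nat_lit 16) (nat_lit 72) (nat_lit 100) (nat_lit 81) (nat_lit 232) (.spl (nat_lit 1) (nat_lit 260)
(.leaf p081_l119)
(.trX (nat_lit 19) (nat_lit 100) (nat_lit 85) (nat_lit 84) (nat_lit 320) (.leaf p081_l120)))))))) (by decide +kernel)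
noncomputable def p081_l121 : Lf2 := ⟨nat_lit 0, nat_lit 10, [nat_lit 0, nat_lit 5, nat_lit 5, nat_lit 20], false, nat_lit 0, nat_lit 160, nat_lit 0, nat_lit 336, ⟨nat_lit 294, nat_lit 457, nat_lit 249, nat_lit 6, nat_lit 275, nat_lit 706, nat_lit 56, nat_lit 249, nat_lit 29400, nat_lit 257, nat_lit 265958, nat_lit 200, nat_lit 45531285, nat_lit 21468715, nat_lit 0, nat_lit 3135959, true, true⟩,
 nat_lit 5309, nat_lit 0, nat_lit 0, nat_lit 0, nat_lit 3981, nat_lit 2810, nat_lit 0, nat_lit 0, nat_lit 0, nat_lit 260, nat_lit 0, nat_lit 0, nat_lit 0, nat_lit 0, nat_lit 0, nat_lit 706000, nat_lit 0, nat_lit 0, [(nat_lit 18, [(nat_lit 2, nat_lit 457), (nat_lit 6, nat_lit 249)])],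
 ⟨p081_k10, nat_lit 0, nat_lit 0, nat_lit 345, nat_lit 0, nat_lit 574174, [nat_lit 1639034667, nat_lit 1547295734, nat_lit 663658400], [], [nat_lit 23184760779, nat_lit 24068364793, nat_lit 26402201116, nat_lit 27856785008, nat_lit 22674856471, nat_lit 23427305330, nat_lit 25097001708, nat_lit 25829989432], nat_lit 1271250, nat_lit 1271250, nat_lit 1271250, nat_lit 1271250, nat_lit 0, nat_lit 1100001, [nat_lit 490000, nat_lit 1100000, nat_lit 1442500], [nat_lit 6, nat_lit 40, nat_lit 40, nat_lit 80, nat_lit 3, nat_lit 249, nat_lit 40, nat_lit 9]⟩, ⟨p081_k13, nat_lit 0, nat_lit 0, nat_lit 665, nat_lit 0, nat_lit 879585, [nat_lit 1378272000, nat_lit 2342592000, nat_lit 3490368000], [], [nat_lit 10030627648, nat_lit 10121359528, nat_lit 10615101648, nat_lit 10705833528, nat_lit 8721009424, nat_lit 8737171714, nat_lit 9026768436, nat_lit 9181446280], nat_lit 1271250, nat_lit 1271250, nat_lit 1271250, nat_lit 1271250,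 nat_lit 0, nat_lit 2373000, [nat_lit 1100000, nat_lit 1785000, nat_lit 1271250], [nat_lit 21, nat_lit 40, nat_lit 40, nat_lit 80, nat_lit 14, nat_lit 483, nat_lit 250, nat_lit 12]⟩,
 ⟨nat_lit 3872, nat_lit 4473, ⟨.ofNat (nat_lit 611083), .ofNat (nat_lit 747053), .ofNat (nat_lit 632632), .ofNat (nat_lit 768604), .ofNat (nat_lit 608080), .ofNat (nat_lit 737137), .ofNat (nat_lit 629856), .ofNat (nat_lit 758915)⟩, ⟨.negSucc (nat_lit 12427), .ofNat (nat_lit 259489), .ofNat (nat_lit 0), .ofNat (nat_lit 302621), .ofNat (nat_lit 0), .ofNat (nat_lit 261131), .ofNat (nat_lit 0), .ofNat (nat_lit 304717)⟩⟩, [⟨nat_lit 19, nat_lit 100, nat_lit 88, nat_lit 74, nat_lit 44745437⟩]⟩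
noncomputable def p081_l122 : Lf2 := ⟨nat_lit 0, nat_lit 10, [nat_lit 0, nat_lit 5, nat_lit 5, nat_lit 20], false, nat_lit 0, nat_lit 160, nat_lit 0, nat_lit 336, ⟨nat_lit 377, nat_lit 623, nat_lit 0, nat_lit 8, nat_lit 326, nat_lit 623, nat_lit 56, nat_lit 0, nat_lit 0, nat_lit 0, nat_lit 0, nat_lit 0, nat_lit 40227818, nat_lit 26772182, nat_lit 0, nat_lit 3364214, true, true⟩,
 nat_lit 6095, nat_lit 0, nat_lit 0, nat_lit 0, nat_lit 4571, nat_lit 3226, nat_lit 7, nat_lit 0, nat_lit 0, nat_lit 278, nat_lit 0, nat_lit 0, nat_lit 0, nat_lit 0, nat_lit 0, nat_lit 623000, nat_lit 0, nat_lit 0, [(nat_lit 18, [(nat_lit 2, nat_lit 623)])],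
 ⟨p081_k10, nat_lit 0, nat_lit 0, nat_lit 343, nat_lit 0, nat_lit 519075, [nat_lit 1826326934, nat_lit 2418618667, nat_lit 2080136400], [], [nat_lit 27741601716, nat_lit 28378583242, nat_lit 33394376521, nat_lit 34006726843, nat_lit 26193892655, nat_lit 26511226809, nat_lit 29058007565, nat_lit 29597340839], nat_lit 1271250, nat_lit 1271250, nat_lit 1271250, nat_lit 1271250, nat_lit 0, nat_lit 1100001, [nat_lit 490000, nat_lit 1100000, nat_lit 1442500], [nat_lit 6, nat_lit 40, nat_lit 40, nat_lit 80, nat_lit 3, nat_lit 249, nat_lit 40, nat_lit 8]⟩, ⟨p081_k13, nat_lit 0, nat_lit 0, nat_lit 594, nat_lit 0, nat_lit 795178, [nat_lit 1767376000, nat_lit 3003936000, nat_lit 4475744000], [], [nat_lit 14985757144, nat_lit 15062155986, nat_lit 15826166521, nat_lit 15896402722, nat_lit 13040861491, nat_lit 13061424826, nat_lit 13577613589, nat_lit 13611213907], nat_lit 1271250, nat_lit 1271250, nat_lit 1271250, nat_lit 1271250,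 nat_lit 0, nat_lit 2373000, [nat_lit 1100000, nat_lit 1785000, nat_lit 1271250], [nat_lit 21, nat_lit 40, nat_lit 40, nat_lit 80, nat_lit 14, nat_lit 373, nat_lit 150, nat_lit 9]⟩,
 ⟨nat_lit 4183, nat_lit 4473, ⟨.ofNat (nat_lit 747062), .ofNat (nat_lit 869424), .ofNat (nat_lit 768624), .ofNat (nat_lit 890987), .ofNat (nat_lit 742095), .ofNat (nat_lit 861356), .ofNat (nat_lit 763757), .ofNat (nat_lit 883019)⟩, ⟨.negSucc (nat_lit 12423), .ofNat (nat_lit 259489), .ofNat (nat_lit 0), .ofNat (nat_lit 302621), .negSucc (nat_lit 4612), .ofNat (nat_lit 260409), .ofNat (nat_lit 0), .ofNat (nat_lit 303743)⟩⟩, [⟨nat_lit 22, nat_lit 63, nat_lit 100, nat_lit 80, nat_lit 74565136⟩]⟩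
noncomputable def p081_l123 : Lf2 := ⟨nat_lit 0, nat_lit 10, [nat_lit 0, nat_lit 5, nat_lit 5, nat_lit 20], false, nat_lit 0, nat_lit 160, nat_lit 0, nat_lit 336, ⟨nat_lit 333, nat_lit 667, nat_lit 0, nat_lit 8, nat_lit 321, nat_lit 667, nat_lit 56, nat_lit 0, nat_lit 0, nat_lit 0, nat_lit 0, nat_lit 0, nat_lit 40742218, nat_lit 26257782, nat_lit 0, nat_lit 3347967, true, true⟩,
 nat_lit 5424, nat_lit 0, nat_lit 0, nat_lit 0, nat_lit 4228, nat_lit 2871, nat_lit 145, nat_lit 0, nat_lit 0, nat_lit 242, nat_lit 0, nat_lit 0, nat_lit 0, nat_lit 0, nat_lit 0, nat_lit 667000, nat_lit 0, nat_lit 0, [(nat_lit 18, [(nat_lit 2, nat_lit 667)])],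
 ⟨p081_k20, nat_lit 0, nat_lit 0, nat_lit 351, nat_lit 0, nat_lit 548429, [nat_lit 1811801067, nat_lit 2258341334, nat_lit 1785635600], [], [nat_lit 27670482191, nat_lit 28402251904, nat_lit 32430903154, nat_lit 33039333607, nat_lit 26509399519, nat_lit 26838181863, nat_lit 28649854450, nat_lit 29164996074], nat_lit 1271250, nat_lit 1271250, nat_lit 1271250, nat_lit 1271250, nat_lit 0, nat_lit 1100001, [nat_lit 490000, nat_lit 1100000, nat_lit 1442500], [nat_lit 6, nat_lit 40, nat_lit 40, nat_lit 80, nat_lit 3, nat_lit 249, nat_lit 40, nat_lit 8]⟩, ⟨p081_k13, nat_lit 0, nat_lit 0, nat_lit 653, nat_lit 0, nat_lit 879585, [nat_lit 1561104000, nat_lit 2653344000, nat_lit 3953376000], [], [nat_lit 13193395144, nat_lit 13260441202, nat_lit 13846356866, nat_lit 13880087314, nat_lit 11426843225, nat_lit 11444296720, nat_lit 11841634049, nat_lit 11834735427], nat_lit 1271250, nat_lit 1271250, nat_lit 1271250, nat_lit 1271250,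 nat_lit 0, nat_lit 2373000, [nat_lit 1100000, nat_lit 1785000, nat_lit 1271250], [nat_lit 21, nat_lit 40, nat_lit 40, nat_lit 80, nat_lit 14, nat_lit 373, nat_lit 150, nat_lit 9]⟩,
 ⟨nat_lit 3872, nat_lit 4184, ⟨.ofNat (nat_lit 742098), .ofNat (nat_lit 848108), .ofNat (nat_lit 763761), .ofNat (nat_lit 869774), .ofNat (nat_lit 737149), .ofNat (nat_lit 840384), .ofNat (nat_lit 758939), .ofNat (nat_lit 862177)⟩, ⟨.negSucc (nat_lit 4619), .ofNat (nat_lit 260409), .ofNat (nat_lit 0), .ofNat (nat_lit 303743), .ofNat (nat_lit 0), .ofNat (nat_lit 261131), .ofNat (nat_lit 0), .ofNat (nat_lit 304717)⟩⟩, [⟨nat_lit 7, nat_lit 88, nat_lit 100, nat_lit 74, nat_lit 8121521⟩, ⟨nat_lit 22, nat_lit 65, nat_lit 100, nat_lit 80, nat_lit 51207306⟩]⟩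
noncomputable def p081_l124 : Lf2 := ⟨nat_lit 0, nat_lit 10, [nat_lit 0, nat_lit 5, nat_lit 5, nat_lit 20], false, nat_lit 0, nat_lit 160, nat_lit 0, nat_lit 320, ⟨nat_lit 1000, nat_lit 0, nat_lit 0, nat_lit 0, nat_lit 0, nat_lit 0, nat_lit 0, nat_lit 0, nat_lit 0, nat_lit 0, nat_lit 0, nat_lit 0, nat_lit 0, nat_lit 0, nat_lit 0, nat_lit 0, false, false⟩,
 nat_lit 11403, nat_lit 0, nat_lit 0, nat_lit 0, nat_lit 7739, nat_lit 6637, nat_lit 454, nat_lit 0, nat_lit 0, nat_lit 1773, nat_lit 0, nat_lit 0, nat_lit 0, nat_lit 0, nat_lit 0, nat_lit 0, nat_lit 0, nat_lit 0, [],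
 ⟨p081_k10, nat_lit 0, nat_lit 0, nat_lit 379, nat_lit 0, nat_lit 630144, [nat_lit 2032000001, nat_lit 4688000000, nat_lit 6250000000], [], [nat_lit 26980098720, nat_lit 29700962166, nat_lit 42462822626, nat_lit 44053730428, nat_lit 21341904380, nat_lit 22278575466, nat_lit 33234210547, nat_lit 34619033856], nat_lit 1271250, nat_lit 1271250, nat_lit 1271250, nat_lit 1271250, nat_lit 0, nat_lit 1100001, [nat_lit 490000, nat_lit 1100000, nat_lit 1442500], [nat_lit 6, nat_lit 40, nat_lit 40, nat_lit 80, nat_lit 3, nat_lit 249, nat_lit 40, nat_lit 9]⟩, ⟨p081_k19, nat_lit 0, nat_lit 0, nat_lit 583, nat_lit 0, nat_lit 857434, [nat_lit 4688000000, nat_lit 7968000000, nat_lit 9842000000], [], [nat_lit 32495356218, nat_lit 32926753856, nat_lit 36695856859, nat_lit 36922448852, nat_lit 31225359098, nat_lit 31423975692, nat_lit 33516527226, nat_lit 33880122470], nat_lit 1271250, nat_lit 1271250, nat_lit 1271250, nat_lit 1271250,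 nat_lit 0, nat_lit 2260000, [nat_lit 1100000, nat_lit 1785000, nat_lit 1271250], [nat_lit 29, nat_lit 40, nat_lit 40, nat_lit 80, nat_lit 17, nat_lit 483, nat_lit 250, nat_lit 14]⟩,
 zbF0, [⟨nat_lit 7, nat_lit 97, nat_lit 100, nat_lit 76, nat_lit 72894198⟩, ⟨nat_lit 22, nat_lit 84, nat_lit 100, nat_lit 84, nat_lit 117113260⟩]⟩
noncomputable def p081_l125 : Lf2 := ⟨nat_lit 0, nat_lit 10, [nat_lit 0, nat_lit 5, nat_lit 5, nat_lit 20], false, nat_lit 0, nat_lit 160, nat_lit 0, nat_lit 336, ⟨nat_lit 276, nat_lit 724, nat_lit 0, nat_lit 6, nat_lit 277, nat_lit 724, nat_lit 57, nat_lit 0, nat_lit 0, nat_lit 0, nat_lit 0, nat_lit 0, nat_lit 45234820, nat_lit 21765180, nat_lit 0, nat_lit 3152368, true, true⟩,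
 nat_lit 4907, nat_lit 0, nat_lit 0, nat_lit 0, nat_lit 3972, nat_lit 2597, nat_lit 209, nat_lit 0, nat_lit 0, nat_lit 225, nat_lit 0, nat_lit 0, nat_lit 0, nat_lit 0, nat_lit 0, nat_lit 518200, nat_lit 0, nat_lit 0, [(nat_lit 21, [(nat_lit 1, nat_lit 343), (nat_lit 2, nat_lit 381)])],
 ⟨p081_k16, nat_lit 0, nat_lit 0, nat_lit 354, nat_lit 0, nat_lit 599535, [nat_lit 1559522800, nat_lit 1750902001, nat_lit 1805159200], [], [nat_lit 23208936968, nat_lit 23656621570, nat_lit 27836909696, nat_lit 28200144972, nat_lit 22528843761, nat_lit 22730467333, nat_lit 24932493072, nat_lit 25247540696], nat_lit 1271250, nat_lit 1271250, nat_lit 1271250, nat_lit 1271250, nat_lit 0, nat_lit 1100001, [nat_lit 490000, nat_lit 1100000, nat_lit 1442500], [nat_lit 6, nat_lit 40, nat_lit 40, nat_lit 80, nat_lit 3, nat_lit 249, nat_lit 40, nat_lit 9]⟩, ⟨p081_k13, nat_lit 0, nat_lit 0, nat_lit 713, nat_lit 0, nat_lit 1005409, [nat_lit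 1293888000, nat_lit 2199168000, nat_lit 3276672000], [], [nat_lit 9670996632, nat_lit 9842102868, nat_lit 10094630908, nat_lit 10263661368, nat_lit 8343252617, nat_lit 8407505528, nat_lit 8623908382, nat_lit 8829724872], nat_lit 1271250, nat_lit 1271250, nat_lit 1271250, nat_lit 1271250, nat_lit 0, nat_lit 2373000, [nat_lit 1100000, nat_lit 1785000, nat_lit 1271250], [nat_lit 21, nat_lit 40, nat_lit 40, nat_lit 80, nat_lit 14, nat_lit 483, nat_lit 250, nat_lit 12]⟩,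
 ⟨nat_lit 3708, nat_lit 3873, ⟨.ofNat (nat_lit 608105), .ofNat (nat_lit 737150), .ofNat (nat_lit 651690), .ofNat (nat_lit 780735), .ofNat (nat_lit 607380), .ofNat (nat_lit 734673), .ofNat (nat_lit 651114), .ofNat (nat_lit 778408)⟩, ⟨.ofNat (nat_lit 0), .ofNat (nat_lit 261131), .ofNat (nat_lit 0), .ofNat (nat_lit 304717), .ofNat (nat_lit 0), .ofNat (nat_lit 261406), .ofNat (nat_lit 0), .ofNat (nat_lit 305143)⟩⟩, [⟨nat_lit 7, nat_lit 92, nat_lit 100, nat_lit 75, nat_lit 41254873⟩]⟩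
noncomputable def p081_l126 : Lf2 := ⟨nat_lit 0, nat_lit 10, [nat_lit 0, nat_lit 5, nat_lit 5, nat_lit 20], false, nat_lit 0, nat_lit 160, nat_lit 0, nat_lit 336, ⟨nat_lit 265, nat_lit 735, nat_lit 0, nat_lit 6, nat_lit 277, nat_lit 735, nat_lit 57, nat_lit 0, nat_lit 0, nat_lit 0, nat_lit 0, nat_lit 0, nat_lit 45299289, nat_lit 21700711, nat_lit 0, nat_lit 3148838, true, true⟩,
 nat_lit 4712, nat_lit 0, nat_lit 0, nat_lit 0, nat_lit 3885, nat_lit 2494, nat_lit 403, nat_lit 0, nat_lit 0, nat_lit 216, nat_lit 0, nat_lit 0, nat_lit 0, nat_lit 0, nat_lit 0, nat_lit 294000, nat_lit 0, nat_lit 0, [(nat_lit 21, [(nat_lit 1, nat_lit 735)])],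
 ⟨p081_k17, nat_lit 0, nat_lit 0, nat_lit 359, nat_lit 0, nat_lit 610294, [nat_lit 1534552001, nat_lit 2339528000, nat_lit 2752870000], [], [nat_lit 23501315913, nat_lit 23943630135, nat_lit 28004046885, nat_lit 28363312090, nat_lit 22694793067, nat_lit 22906809139, nat_lit 25191009636, nat_lit 25488785350], nat_lit 1271250, nat_lit 1271250, nat_lit 1271250, nat_lit 1271250, nat_lit 0, nat_lit 1100001, [nat_lit 490000, nat_lit 1100000, nat_lit 1442500], [nat_lit 6, nat_lit 40, nat_lit 40, nat_lit 80, nat_lit 3, nat_lit 249, nat_lit 40, nat_lit 9]⟩, ⟨p081_k13, nat_lit 0, nat_lit 0, nat_lit 729, nat_lit 0, nat_lit 1046061, [nat_lit 1242320000, nat_lit 2111520000, nat_lit 3146080000], [], [nat_lit 9670221472, nat_lit 9802198224, nat_lit 10003755988, nat_lit 10077919936, nat_lit 8221645397, nat_lit 8218371505, nat_lit 8280140426, nat_lit 8477747127], nat_lit 1271250, nat_lit 1271250, nat_lit 1271250, nat_lit 1271250,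 nat_lit 0, nat_lit 2373000, [nat_lit 1100000, nat_lit 1785000, nat_lit 1271250], [nat_lit 21, nat_lit 40, nat_lit 40, nat_lit 80, nat_lit 14, nat_lit 483, nat_lit 250, nat_lit 12]⟩,
 ⟨nat_lit 3535, nat_lit 3709, ⟨.ofNat (nat_lit 607380), .ofNat (nat_lit 734673), .ofNat (nat_lit 651114), .ofNat (nat_lit 778408), .ofNat (nat_lit 606664), .ofNat (nat_lit 732188), .ofNat (nat_lit 650567), .ofNat (nat_lit 776092)⟩, ⟨.ofNat (nat_lit 0), .ofNat (nat_lit 261406), .ofNat (nat_lit 0), .ofNat (nat_lit 305143), .ofNat (nat_lit 0), .ofNat (nat_lit 261616), .ofNat (nat_lit 0), .ofNat (nat_lit 305521)⟩⟩, [⟨nat_lit 7, nat_lit 92, nat_lit 100, nat_lit 75, nat_lit 35377093⟩]⟩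
noncomputable def p081_l127 : Lf2 := ⟨nat_lit 0, nat_lit 10, [nat_lit 0, nat_lit 5, nat_lit 5, nat_lit 20], false, nat_lit 0, nat_lit 160, nat_lit 0, nat_lit 336, ⟨nat_lit 251, nat_lit 749, nat_lit 0, nat_lit 6, nat_lit 272, nat_lit 749, nat_lit 57, nat_lit 0, nat_lit 0, nat_lit 0, nat_lit 0, nat_lit 0, nat_lit 45864411, nat_lit 21135589, nat_lit 0, nat_lit 3116985, true, true⟩,
 nat_lit 4474, nat_lit 0, nat_lit 0, nat_lit 0, nat_lit 3758, nat_lit 2368, nat_lit 344, nat_lit 0, nat_lit 0, nat_lit 221, nat_lit 0, nat_lit 0, nat_lit 0, nat_lit 0, nat_lit 0, nat_lit 299600, nat_lit 0, nat_lit 0, [(nat_lit 21, [(nat_lit 1, nat_lit 749)])],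
 ⟨p081_k18, nat_lit 0, nat_lit 0, nat_lit 319, nat_lit 0, nat_lit 602278, [nat_lit 1525076800, nat_lit 2288204000], [], [nat_lit 23709080058, nat_lit 24578029464, nat_lit 28071258572, nat_lit 28778198200, nat_lit 23214496058, nat_lit 23633032024, nat_lit 25781330056, nat_lit 26215207160], nat_lit 1271250, nat_lit 1271250, nat_lit 1271250, nat_lit 1271250, nat_lit 0, nat_lit 1100001, [nat_lit 490000, nat_lit 1100000], [nat_lit 24, nat_lit 40, nat_lit 40, nat_lit 80, nat_lit 33, nat_lit 249, nat_lit 40, nat_lit 10]⟩, ⟨p081_k13, nat_lit 0, nat_lit 0, nat_lit 732, nat_lit 0, nat_lit 1054823, [nat_lit 1176688000, nat_lit 1999968000, nat_lit 2979872000], [], [nat_lit 9135226256, nat_lit 9197651716, nat_lit 9450983012, nat_lit 9485973470, nat_lit 7756691554, nat_lit 7754941225, nat_lit 7804223656, nat_lit 7823715493], nat_lit 1271250, nat_lit 1271250, nat_lit 1271250, nat_lit 1271250, nat_lit 0, nat_lit 2373000, [nat_lit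 1100000, nat_lit 1785000, nat_lit 1271250], [nat_lit 21, nat_lit 40, nat_lit 40, nat_lit 80, nat_lit 14, nat_lit 483, nat_lit 250, nat_lit 12]⟩,
 ⟨nat_lit 3162, nat_lit 3536, ⟨.ofNat (nat_lit 606660), .ofNat (nat_lit 732188), .ofNat (nat_lit 628604), .ofNat (nat_lit 754141), .ofNat (nat_lit 605256), .ofNat (nat_lit 727168), .ofNat (nat_lit 627403), .ofNat (nat_lit 749323)⟩, ⟨.ofNat (nat_lit 0), .ofNat (nat_lit 261616), .ofNat (nat_lit 0), .ofNat (nat_lit 305521), .ofNat (nat_lit 0), .ofNat (nat_lit 261806), .ofNat (nat_lit 0), .ofNat (nat_lit 306116)⟩⟩, [⟨nat_lit 7, nat_lit 88, nat_lit 100, nat_lit 74, nat_lit 30962837⟩]⟩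
noncomputable def p081_l128 : Lf2 := ⟨nat_lit 0, nat_lit 10, [nat_lit 0, nat_lit 5, nat_lit 5, nat_lit 20], false, nat_lit 0, nat_lit 160, nat_lit 0, nat_lit 320, ⟨nat_lit 1000, nat_lit 0, nat_lit 0, nat_lit 0, nat_lit 0, nat_lit 0, nat_lit 0, nat_lit 0, nat_lit 0, nat_lit 0, nat_lit 0, nat_lit 0, nat_lit 0, nat_lit 0, nat_lit 0, nat_lit 0, false, false⟩,
 nat_lit 12631, nat_lit 0, nat_lit 0, nat_lit 0, nat_lit 5205, nat_lit 7352, nat_lit 553, nat_lit 0, nat_lit 0, nat_lit 1976, nat_lit 0, nat_lit 0, nat_lit 0, nat_lit 0, nat_lit 0, nat_lit 0, nat_lit 0, nat_lit 0, [],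
 ⟨p081_k18, nat_lit 0, nat_lit 0, nat_lit 331, nat_lit 0, nat_lit 644492, [nat_lit 2032000001, nat_lit 4688000000], [], [nat_lit 26381473455, nat_lit 27429065140, nat_lit 31398828970, nat_lit 32237830500, nat_lit 22626179209, nat_lit 23107336994, nat_lit 26608554550, nat_lit 27331290020], nat_lit 1271250, nat_lit 1271250, nat_lit 1271250, nat_lit 1271250, nat_lit 0, nat_lit 1100001, [nat_lit 490000, nat_lit 1100000], [nat_lit 24, nat_lit 40, nat_lit 40, nat_lit 80, nat_lit 33, nat_lit 249, nat_lit 40, nat_lit 10]⟩, ⟨p081_k19, nat_lit 0, nat_lit 0, nat_lit 643, nat_lit 0, nat_lit 1002597, [nat_lit 4688000000, nat_lit 7968000000, nat_lit 9842000000], [], [nat_lit 29102100176, nat_lit 29450098656, nat_lit 30603490000, nat_lit 30854286496, nat_lit 26552284208, nat_lit 26736182240, nat_lit 28414187184, nat_lit 29252432992], nat_lit 1271250, nat_lit 1271250, nat_lit 1271250, nat_lit 1271250, nat_lit 0, nat_lit 2260000,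 [nat_lit 1100000, nat_lit 1785000, nat_lit 1271250], [nat_lit 29, nat_lit 40, nat_lit 40, nat_lit 80, nat_lit 17, nat_lit 483, nat_lit 250, nat_lit 14]⟩,
 zbF0, [⟨nat_lit 7, nat_lit 97, nat_lit 100, nat_lit 76, nat_lit 188246897⟩]⟩
noncomputable def p081_l129 : Lf2 := ⟨nat_lit 0, nat_lit 10, [nat_lit 0, nat_lit 5, nat_lit 5, nat_lit 20], false, nat_lit 0, nat_lit 160, nat_lit 0, nat_lit 312, ⟨nat_lit 278, nat_lit 722, nat_lit 0, nat_lit 8, nat_lit 316, nat_lit 722, nat_lit 54, nat_lit 0, nat_lit 0, nat_lit 0, nat_lit 0, nat_lit 0, nat_lit 41245631, nat_lit 25754369, nat_lit 0, nat_lit 3330869, true, true⟩,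
 nat_lit 4674, nat_lit 0, nat_lit 0, nat_lit 0, nat_lit 3783, nat_lit 2474, nat_lit 316, nat_lit 0, nat_lit 0, nat_lit 233, nat_lit 0, nat_lit 0, nat_lit 0, nat_lit 0, nat_lit 0, nat_lit 288800, nat_lit 0, nat_lit 0, [(nat_lit 21, [(nat_lit 1, nat_lit 722)])],
 ⟨p081_k16, nat_lit 0, nat_lit 0, nat_lit 368, nat_lit 0, nat_lit 596557, [nat_lit 1543350400, nat_lit 2381065600, nat_lit 2814724000], [], [nat_lit 27419528144, nat_lit 28837970700, nat_lit 31522511415, nat_lit 32697118006, nat_lit 26564861746, nat_lit 27307935528, nat_lit 28753425101, nat_lit 29403306458], nat_lit 1271250, nat_lit 1271250, nat_lit 1271250, nat_lit 1271250, nat_lit 0, nat_lit 1100001, [nat_lit 490000, nat_lit 1100000, nat_lit 1442500], [nat_lit 6, nat_lit 40, nat_lit 40, nat_lit 80, nat_lit 3, nat_lit 249, nat_lit 40, nat_lit 8]⟩, ⟨p081_k13, nat_lit 0, nat_lit 0, nat_lit 694, nat_lit 0, nat_lit 989710, [nat_lit 1303264000, nat_lit 2215104000,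 nat_lit 3300416000], [], [nat_lit 10606658256, nat_lit 10694134072, nat_lit 11246905856, nat_lit 11305273660, nat_lit 9091091243, nat_lit 9110996758, nat_lit 9442560867, nat_lit 9450168999], nat_lit 1271250, nat_lit 1271250, nat_lit 1271250, nat_lit 1271250, nat_lit 0, nat_lit 2203500, [nat_lit 1100000, nat_lit 1785000, nat_lit 1271250], [nat_lit 21, nat_lit 40, nat_lit 40, nat_lit 80, nat_lit 14, nat_lit 373, nat_lit 150, nat_lit 9]⟩,
 ⟨nat_lit 3162, nat_lit 3873, ⟨.ofNat (nat_lit 737150), .ofNat (nat_lit 833932), .ofNat (nat_lit 758943), .ofNat (nat_lit 855725), .ofNat (nat_lit 727168), .ofNat (nat_lit 818598), .ofNat (nat_lit 749323), .ofNat (nat_lit 840753)⟩, ⟨.ofNat (nat_lit 0), .ofNat (nat_lit 261131), .ofNat (nat_lit 0), .ofNat (nat_lit 282924), .ofNat (nat_lit 0), .ofNat (nat_lit 261806), .ofNat (nat_lit 0), .ofNat (nat_lit 283961)⟩⟩, [⟨nat_lit 13, nat_lit 68, nat_lit 58, nat_lit 100, nat_lit 57086599⟩,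 ⟨nat_lit 22, nat_lit 66, nat_lit 100, nat_lit 80, nat_lit 8695002⟩, ⟨nat_lit 10, nat_lit 84, nat_lit 67, nat_lit 100, nat_lit 24866918⟩]⟩
noncomputable def p081_l130 : Lf2 := ⟨nat_lit 0, nat_lit 10, [nat_lit 0, nat_lit 5, nat_lit 5, nat_lit 20], false, nat_lit 0, nat_lit 160, nat_lit 0, nat_lit 336, ⟨nat_lit 277, nat_lit 723, nat_lit 0, nat_lit 8, nat_lit 316, nat_lit 723, nat_lit 59, nat_lit 0, nat_lit 0, nat_lit 0, nat_lit 0, nat_lit 0, nat_lit 41245631, nat_lit 25754369, nat_lit 0, nat_lit 3330869, true, true⟩,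
 nat_lit 4543, nat_lit 0, nat_lit 0, nat_lit 0, nat_lit 3677, nat_lit 2405, nat_lit 205, nat_lit 0, nat_lit 0, nat_lit 205, nat_lit 0, nat_lit 0, nat_lit 0, nat_lit 0, nat_lit 0, nat_lit 435000, nat_lit 0, nat_lit 0, [(nat_lit 21, [(nat_lit 1, nat_lit 480), (nat_lit 2, nat_lit 243)])],
 ⟨p081_k16, nat_lit 0, nat_lit 0, nat_lit 348, nat_lit 0, nat_lit 532523, [nat_lit 1553851600, nat_lit 1980030800, nat_lit 2172139600], [], [nat_lit 27185441136, nat_lit 28584535300, nat_lit 31233289885, nat_lit 32393673714, nat_lit 26574065844, nat_lit 27248868840, nat_lit 28638753915, nat_lit 29263583728], nat_lit 1271250, nat_lit 1271250, nat_lit 1271250, nat_lit 1271250, nat_lit 0, nat_lit 1100001, [nat_lit 490000, nat_lit 1100000, nat_lit 1442500], [nat_lit 6, nat_lit 40, nat_lit 40, nat_lit 80, nat_lit 3, nat_lit 249, nat_lit 40, nat_lit 8]⟩, ⟨p081_k13, nat_lit 0, nat_lit 0, nat_lit 658, nat_lit 0, nat_lit 893031, [nat_lit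 1298576000, nat_lit 2207136000, nat_lit 3288544000], [], [nat_lit 10897659260, nat_lit 10953089382, nat_lit 11404324222, nat_lit 11443762863, nat_lit 9433302169, nat_lit 9447265731, nat_lit 9753663629, nat_lit 9763822183], nat_lit 1271250, nat_lit 1271250, nat_lit 1271250, nat_lit 1271250, nat_lit 0, nat_lit 2373000, [nat_lit 1100000, nat_lit 1785000, nat_lit 1271250], [nat_lit 21, nat_lit 40, nat_lit 40, nat_lit 80, nat_lit 14, nat_lit 373, nat_lit 150, nat_lit 9]⟩,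
 ⟨nat_lit 3162, nat_lit 3873, ⟨.ofNat (nat_lit 737150), .ofNat (nat_lit 833932), .ofNat (nat_lit 758943), .ofNat (nat_lit 855725), .ofNat (nat_lit 727168), .ofNat (nat_lit 818598), .ofNat (nat_lit 749323), .ofNat (nat_lit 840753)⟩, ⟨.ofNat (nat_lit 0), .ofNat (nat_lit 282924), .ofNat (nat_lit 0), .ofNat (nat_lit 304717), .ofNat (nat_lit 0), .ofNat (nat_lit 283961), .ofNat (nat_lit 0), .ofNat (nat_lit 306116)⟩⟩, [⟨nat_lit 13, nat_lit 68, nat_lit 58, nat_lit 100, nat_lit 39010960⟩, ⟨nat_lit 22, nat_lit 66, nat_lit 100, nat_lit 80, nat_lit 4930969⟩, ⟨nat_lit 10, nat_lit 73, nat_lit 66, nat_lit 100, nat_lit 37459699⟩]⟩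
noncomputable def p081_l131 : Lf2 := ⟨nat_lit 0, nat_lit 10, [nat_lit 0, nat_lit 5, nat_lit 5, nat_lit 20], false, nat_lit 0, nat_lit 160, nat_lit 0, nat_lit 320, ⟨nat_lit 1000, nat_lit 0, nat_lit 0, nat_lit 0, nat_lit 0, nat_lit 0, nat_lit 0, nat_lit 0, nat_lit 0, nat_lit 0, nat_lit 0, nat_lit 0, nat_lit 0, nat_lit 0, nat_lit 0, nat_lit 0, false, false⟩,
 nat_lit 11566, nat_lit 0, nat_lit 0, nat_lit 0, nat_lit 5223, nat_lit 6732, nat_lit 546, nat_lit 0, nat_lit 0, nat_lit 1739, nat_lit 0, nat_lit 0, nat_lit 0, nat_lit 0, nat_lit 0, nat_lit 0, nat_lit 0, nat_lit 0, [],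
 ⟨p081_k16, nat_lit 0, nat_lit 0, nat_lit 403, nat_lit 0, nat_lit 673088, [nat_lit 2032000001, nat_lit 4688000000, nat_lit 6250000000], [], [nat_lit 30599578064, nat_lit 32280866700, nat_lit 36131466110, nat_lit 37458046899, nat_lit 26641487419, nat_lit 27353999245, nat_lit 30688061288, nat_lit 31851108433], nat_lit 1271250, nat_lit 1271250, nat_lit 1271250, nat_lit 1271250, nat_lit 0, nat_lit 1100001, [nat_lit 490000, nat_lit 1100000, nat_lit 1442500], [nat_lit 6, nat_lit 40, nat_lit 40, nat_lit 80, nat_lit 3, nat_lit 249, nat_lit 40, nat_lit 8]⟩, ⟨p081_k19, nat_lit 0, nat_lit 0, nat_lit 634, nat_lit 0, nat_lit 1002597, [nat_lit 4688000000, nat_lit 7968000000, nat_lit 9842000000], [], [nat_lit 34727995000, nat_lit 34988340736, nat_lit 36556106480, nat_lit 36734510405, nat_lit 31872932952, nat_lit 31959390992, nat_lit 32929467411, nat_lit 33415459160], nat_lit 1271250, nat_lit 1271250, nat_lit 1271250, nat_lit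 1271250, nat_lit 0, nat_lit 2260000, [nat_lit 1100000, nat_lit 1785000, nat_lit 1271250], [nat_lit 29, nat_lit 40, nat_lit 40, nat_lit 80, nat_lit 17, nat_lit 373, nat_lit 150, nat_lit 10]⟩,
 zbF0, [⟨nat_lit 19, nat_lit 100, nat_lit 97, nat_lit 76, nat_lit 145645194⟩, ⟨nat_lit 22, nat_lit 64, nat_lit 100, nat_lit 80, nat_lit 44927404⟩]⟩
noncomputable def p081_l132 : Lf2 := ⟨nat_lit 0, nat_lit 10, [nat_lit 0, nat_lit 5, nat_lit 5, nat_lit 20], false, nat_lit 160, nat_lit 260, nat_lit 0, nat_lit 336, ⟨nat_lit 354, nat_lit 646, nat_lit 0, nat_lit 6, nat_lit 279, nat_lit 646, nat_lit 146, nat_lit 0, nat_lit 0, nat_lit 0, nat_lit 0, nat_lit 0, nat_lit 39631076, nat_lit 20187222, nat_lit 7181702, nat_lit 4880339, true, true⟩,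
 nat_lit 6335, nat_lit 0, nat_lit 0, nat_lit 0, nat_lit 4751, nat_lit 3353, nat_lit 45, nat_lit 0, nat_lit 0, nat_lit 305, nat_lit 0, nat_lit 0, nat_lit 0, nat_lit 0, nat_lit 0, nat_lit 646000, nat_lit 0, nat_lit 0, [(nat_lit 18, [(nat_lit 2, nat_lit 646)])],
 ⟨p081_k10, nat_lit 0, nat_lit 0, nat_lit 270, nat_lit 0, nat_lit 630144, [nat_lit 1818733867, nat_lit 2334837334, nat_lit 1926192800], [], [nat_lit 21666203191, nat_lit 22561655359, nat_lit 24322658577, nat_lit 25534797176, nat_lit 23719160639, nat_lit 24519855986, nat_lit 26831377070, nat_lit 27970226934], nat_lit 1271250, nat_lit 1271250, nat_lit 1271250, nat_lit 1271250, nat_lit 1100001, nat_lit 1956250, [nat_lit 490000, nat_lit 1100000, nat_lit 1442500], [nat_lit 6, nat_lit 40, nat_lit 40, nat_lit 80, nat_lit 3, nat_lit 289, nat_lit 75, nat_lit 9]⟩, ⟨p081_k13, nat_lit 0, nat_lit 0, nat_lit 698, nat_lit 0, nat_lit 965327, [nat_lit 1659552000, nat_lit 2820672000,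 nat_lit 4202688000], [], [nat_lit 12226143328, nat_lit 12445200292, nat_lit 12876189828, nat_lit 13095246792, nat_lit 10608411920, nat_lit 10689714881, nat_lit 10939536523, nat_lit 11334692226], nat_lit 1271250, nat_lit 1271250, nat_lit 1271250, nat_lit 1271250, nat_lit 0, nat_lit 2373000, [nat_lit 1100000, nat_lit 1785000, nat_lit 1271250], [nat_lit 21, nat_lit 40, nat_lit 40, nat_lit 80, nat_lit 14, nat_lit 483, nat_lit 250, nat_lit 12]⟩,
 ⟨nat_lit 3872, nat_lit 4473, ⟨.ofNat (nat_lit 611083), .ofNat (nat_lit 747053), .ofNat (nat_lit 654181), .ofNat (nat_lit 790153), .ofNat (nat_lit 608080), .ofNat (nat_lit 737137), .ofNat (nat_lit 651631), .ofNat (nat_lit 780691)⟩, ⟨.ofNat (nat_lit 259489), .ofNat (nat_lit 429434), .ofNat (nat_lit 302621), .ofNat (nat_lit 472567), .ofNat (nat_lit 261131), .ofNat (nat_lit 422435), .ofNat (nat_lit 304717), .ofNat (nat_lit 466021)⟩⟩, [⟨nat_lit 4, nat_lit 100, nat_lit 76, nat_lit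 72, nat_lit 348215743⟩, ⟨nat_lit 7, nat_lit 92, nat_lit 100, nat_lit 75, nat_lit 54585067⟩]⟩
noncomputable def p081_l133 : Lf2 := ⟨nat_lit 0, nat_lit 10, [nat_lit 0, nat_lit 5, nat_lit 5, nat_lit 20], false, nat_lit 160, nat_lit 232, nat_lit 0, nat_lit 336, ⟨nat_lit 268, nat_lit 732, nat_lit 0, nat_lit 6, nat_lit 277, nat_lit 732, nat_lit 136, nat_lit 0, nat_lit 0, nat_lit 0, nat_lit 0, nat_lit 0, nat_lit 40344321, nat_lit 20141569, nat_lit 6514110, nat_lit 4773905, true, true⟩,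
 nat_lit 4776, nat_lit 0, nat_lit 0, nat_lit 0, nat_lit 3866, nat_lit 2528, nat_lit 274, nat_lit 0, nat_lit 0, nat_lit 219, nat_lit 0, nat_lit 0, nat_lit 0, nat_lit 0, nat_lit 0, nat_lit 388200, nat_lit 0, nat_lit 0, [(nat_lit 21, [(nat_lit 1, nat_lit 573), (nat_lit 2, nat_lit 159)])],
 ⟨p081_k16, nat_lit 0, nat_lit 0, nat_lit 301, nat_lit 0, nat_lit 673088, [nat_lit 1543896401, nat_lit 2088798801, nat_lit 2349800800], [], [nat_lit 22608285476, nat_lit 23461045841, nat_lit 25093004337, nat_lit 26094798504, nat_lit 23946801140, nat_lit 24754088117, nat_lit 26414408658, nat_lit 27514361816], nat_lit 1271250, nat_lit 1271250, nat_lit 1271250, nat_lit 1271250, nat_lit 1100001, nat_lit 1716500, [nat_lit 490000, nat_lit 1100000, nat_lit 1442500], [nat_lit 6, nat_lit 40, nat_lit 40, nat_lit 80, nat_lit 3, nat_lit 272, nat_lit 60, nat_lit 9]⟩, ⟨p081_k13, nat_lit 0, nat_lit 0, nat_lit 761, nat_lit 0, nat_lit 1128756, [nat_lit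 1256384000, nat_lit 2135424000, nat_lit 3181696000], [], [nat_lit 9755548480, nat_lit 9888865632, nat_lit 10092701584, nat_lit 10167439840, nat_lit 8284077754, nat_lit 8280366548, nat_lit 8366990990, nat_lit 8573079229], nat_lit 1271250, nat_lit 1271250, nat_lit 1271250, nat_lit 1271250, nat_lit 0, nat_lit 2373000, [nat_lit 1100000, nat_lit 1785000, nat_lit 1271250], [nat_lit 21, nat_lit 40, nat_lit 40, nat_lit 80, nat_lit 14, nat_lit 483, nat_lit 250, nat_lit 12]⟩,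
 ⟨nat_lit 3162, nat_lit 3873, ⟨.ofNat (nat_lit 608082), .ofNat (nat_lit 737150), .ofNat (nat_lit 651611), .ofNat (nat_lit 780717), .ofNat (nat_lit 605237), .ofNat (nat_lit 727168), .ofNat (nat_lit 649490), .ofNat (nat_lit 771459)⟩, ⟨.ofNat (nat_lit 261131), .ofNat (nat_lit 377270), .ofNat (nat_lit 304717), .ofNat (nat_lit 420856), .ofNat (nat_lit 261806), .ofNat (nat_lit 371522), .ofNat (nat_lit 306116), .ofNat (nat_lit 415832)⟩⟩, [⟨nat_lit 4, nat_lit 100, nat_lit 66, nat_lit 72, nat_lit 344242607⟩, ⟨nat_lit 7, nat_lit 92, nat_lit 100, nat_lit 75, nat_lit 35858720⟩]⟩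
noncomputable def p081_l134 : Lf2 := ⟨nat_lit 0, nat_lit 10, [nat_lit 0, nat_lit 5, nat_lit 5, nat_lit 20], false, nat_lit 160, nat_lit 260, nat_lit 16, nat_lit 336, ⟨nat_lit 343, nat_lit 657, nat_lit 0, nat_lit 8, nat_lit 325, nat_lit 657, nat_lit 146, nat_lit 0, nat_lit 0, nat_lit 0, nat_lit 0, nat_lit 0, nat_lit 35962607, nat_lit 24325418, nat_lit 6711975, nat_lit 4984155, true, true⟩,
 nat_lit 5535, nat_lit 0, nat_lit 0, nat_lit 0, nat_lit 4151, nat_lit 2930, nat_lit 5, nat_lit 0, nat_lit 0, nat_lit 247, nat_lit 0, nat_lit 0, nat_lit 0, nat_lit 0, nat_lit 0, nat_lit 657000, nat_lit 0, nat_lit 0, [(nat_lit 18, [(nat_lit 2, nat_lit 657)])],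
 ⟨p081_k10, nat_lit 0, nat_lit 0, nat_lit 269, nat_lit 0, nat_lit 574174, [nat_lit 1815102401, nat_lit 2294768001, nat_lit 1852567600], [], [nat_lit 26142457811, nat_lit 26864369588, nat_lit 28948710893, nat_lit 29591849442, nat_lit 27780318437, nat_lit 28430081919, nat_lit 30435143584, nat_lit 31304677296], nat_lit 1271250, nat_lit 1271250, nat_lit 1271250, nat_lit 1271250, nat_lit 1100001, nat_lit 1956250, [nat_lit 490000, nat_lit 1100000, nat_lit 1442500], [nat_lit 6, nat_lit 40, nat_lit 40, nat_lit 80, nat_lit 3, nat_lit 289, nat_lit 75, nat_lit 9]⟩, ⟨p081_k13, nat_lit 0, nat_lit 0, nat_lit 641, nat_lit 0, nat_lit 879585, [nat_lit 1607984000, nat_lit 2733024000, nat_lit 4072096000], [], [nat_lit 13400940466, nat_lit 13469224996, nat_lit 14153939678, nat_lit 14184339333, nat_lit 11886411496, nat_lit 11905287342, nat_lit 12374704344, nat_lit 12377936930], nat_lit 1271250, nat_lit 1271250, nat_lit 1271250, nat_lit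 1271250, nat_lit 88400, nat_lit 2396400, [nat_lit 1100000, nat_lit 1785000, nat_lit 1271250], [nat_lit 21, nat_lit 40, nat_lit 40, nat_lit 80, nat_lit 14, nat_lit 373, nat_lit 150, nat_lit 9]⟩,
 ⟨nat_lit 3872, nat_lit 4473, ⟨.ofNat (nat_lit 747053), .ofNat (nat_lit 869421), .ofNat (nat_lit 768604), .ofNat (nat_lit 890974), .ofNat (nat_lit 737137), .ofNat (nat_lit 853283), .ofNat (nat_lit 758915), .ofNat (nat_lit 875063)⟩, ⟨.ofNat (nat_lit 259489), .ofNat (nat_lit 429434), .ofNat (nat_lit 302621), .ofNat (nat_lit 472567), .ofNat (nat_lit 261131), .ofNat (nat_lit 422435), .ofNat (nat_lit 304717), .ofNat (nat_lit 466021)⟩⟩, [⟨nat_lit 13, nat_lit 78, nat_lit 45, nat_lit 100, nat_lit 70693570⟩, ⟨nat_lit 4, nat_lit 100, nat_lit 76, nat_lit 72, nat_lit 286040487⟩, ⟨nat_lit 19, nat_lit 100, nat_lit 88, nat_lit 74, nat_lit 51315457⟩]⟩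
noncomputable def p081_l135 : Lf2 := ⟨nat_lit 0, nat_lit 10, [nat_lit 0, nat_lit 5, nat_lit 5, nat_lit 20], false, nat_lit 160, nat_lit 260, nat_lit 16, nat_lit 320, ⟨nat_lit 1000, nat_lit 0, nat_lit 0, nat_lit 0, nat_lit 0, nat_lit 0, nat_lit 0, nat_lit 0, nat_lit 0, nat_lit 0, nat_lit 0, nat_lit 0, nat_lit 0, nat_lit 0, nat_lit 0, nat_lit 0, false, false⟩,
 nat_lit 11342, nat_lit 0, nat_lit 0, nat_lit 0, nat_lit 6386, nat_lit 6601, nat_lit 450, nat_lit 0, nat_lit 0, nat_lit 1728, nat_lit 0, nat_lit 0, nat_lit 0, nat_lit 0, nat_lit 0, nat_lit 0, nat_lit 0, nat_lit 0, [],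
 ⟨p081_k10, nat_lit 0, nat_lit 0, nat_lit 296, nat_lit 0, nat_lit 630144, [nat_lit 2032000001, nat_lit 4688000000, nat_lit 6250000000], [], [nat_lit 27317844192, nat_lit 28165852060, nat_lit 31574060605, nat_lit 32821740045, nat_lit 28700562544, nat_lit 29503598684, nat_lit 33135723257, nat_lit 34157474969], nat_lit 1271250, nat_lit 1271250, nat_lit 1271250, nat_lit 1271250, nat_lit 1100001, nat_lit 1956250, [nat_lit 490000, nat_lit 1100000, nat_lit 1442500], [nat_lit 6, nat_lit 40, nat_lit 40, nat_lit 80, nat_lit 3, nat_lit 289, nat_lit 75, nat_lit 9]⟩, ⟨p081_k19, nat_lit 0, nat_lit 0, nat_lit 567, nat_lit 0, nat_lit 857434, [nat_lit 4688000000, nat_lit 7968000000, nat_lit 9842000000], [], [nat_lit 33720676981, nat_lit 34050214405, nat_lit 36145992454, nat_lit 36369748801, nat_lit 32099965378, nat_lit 32283398840, nat_lit 33736862567, nat_lit 33845659482], nat_lit 1271250, nat_lit 1271250, nat_lit 1271250, nat_lit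 1271250, nat_lit 88400, nat_lit 2281000, [nat_lit 1100000, nat_lit 1785000, nat_lit 1271250], [nat_lit 29, nat_lit 40, nat_lit 40, nat_lit 80, nat_lit 17, nat_lit 373, nat_lit 150, nat_lit 10]⟩,
 zbF0, [⟨nat_lit 4, nat_lit 100, nat_lit 76, nat_lit 72, nat_lit 505581649⟩, ⟨nat_lit 7, nat_lit 97, nat_lit 100, nat_lit 76, nat_lit 194556980⟩]⟩
noncomputable def p081_l136 : Lf2 := ⟨nat_lit 0, nat_lit 10, [nat_lit 0, nat_lit 5, nat_lit 5, nat_lit 20], false, nat_lit 160, nat_lit 232, nat_lit 16, nat_lit 336, ⟨nat_lit 280, nat_lit 720, nat_lit 0, nat_lit 8, nat_lit 324, nat_lit 720, nat_lit 136, nat_lit 0, nat_lit 0, nat_lit 0, nat_lit 0, nat_lit 0, nat_lit 36425721, nat_lit 24481706, nat_lit 6092573, nat_lit 4892664, true, true⟩,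
 nat_lit 4531, nat_lit 0, nat_lit 0, nat_lit 0, nat_lit 3667, nat_lit 2398, nat_lit 341, nat_lit 0, nat_lit 0, nat_lit 187, nat_lit 0, nat_lit 0, nat_lit 0, nat_lit 0, nat_lit 0, nat_lit 288000, nat_lit 0, nat_lit 0, [(nat_lit 21, [(nat_lit 1, nat_lit 720)])],
 ⟨p081_k16, nat_lit 0, nat_lit 0, nat_lit 291, nat_lit 0, nat_lit 623776, [nat_lit 1544704000, nat_lit 2387456001, nat_lit 2824240000], [], [nat_lit 26266851752, nat_lit 26657993169, nat_lit 28889040827, nat_lit 29223853894, nat_lit 27453639278, nat_lit 27804971775, nat_lit 29847619479, nat_lit 30292293828], nat_lit 1271250, nat_lit 1271250, nat_lit 1271250, nat_lit 1271250, nat_lit 1100001, nat_lit 1716500, [nat_lit 490000, nat_lit 1100000, nat_lit 1442500], [nat_lit 6, nat_lit 40, nat_lit 40, nat_lit 80, nat_lit 3, nat_lit 272, nat_lit 60, nat_lit 8]⟩, ⟨p081_k13, nat_lit 0, nat_lit 0, nat_lit 704, nat_lit 0, nat_lit 1046061, [nat_lit 1312640000, nat_lit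 2231040000, nat_lit 3324160000], [], [nat_lit 11440593029, nat_lit 11479892739, nat_lit 11849145382, nat_lit 11885106015, nat_lit 10029036506, nat_lit 10006380378, nat_lit 10262749059, nat_lit 10206726822], nat_lit 1271250, nat_lit 1271250, nat_lit 1271250, nat_lit 1271250, nat_lit 88400, nat_lit 2396400, [nat_lit 1100000, nat_lit 1785000, nat_lit 1271250], [nat_lit 21, nat_lit 40, nat_lit 40, nat_lit 80, nat_lit 14, nat_lit 401, nat_lit 175, nat_lit 10]⟩,
 ⟨nat_lit 3535, nat_lit 3873, ⟨.ofNat (nat_lit 737150), .ofNat (nat_lit 846836), .ofNat (nat_lit 780730), .ofNat (nat_lit 890423), .ofNat (nat_lit 732188), .ofNat (nat_lit 838882), .ofNat (nat_lit 776087), .ofNat (nat_lit 882788)⟩, ⟨.ofNat (nat_lit 261131), .ofNat (nat_lit 377270), .ofNat (nat_lit 304717), .ofNat (nat_lit 420856), .ofNat (nat_lit 261616), .ofNat (nat_lit 374587), .ofNat (nat_lit 305521), .ofNat (nat_lit 418492)⟩⟩, [⟨nat_lit 13, nat_lit 72, nat_lit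 51, nat_lit 100, nat_lit 92277016⟩, ⟨nat_lit 16, nat_lit 72, nat_lit 100, nat_lit 81, nat_lit 30395773⟩, ⟨nat_lit 4, nat_lit 100, nat_lit 69, nat_lit 71, nat_lit 253419584⟩, ⟨nat_lit 19, nat_lit 100, nat_lit 92, nat_lit 75, nat_lit 37014224⟩]⟩
noncomputable def p081_l137 : Lf2 := ⟨nat_lit 0, nat_lit 10, [nat_lit 0, nat_lit 5, nat_lit 5, nat_lit 20], false, nat_lit 160, nat_lit 216, nat_lit 16, nat_lit 336, ⟨nat_lit 262, nat_lit 738, nat_lit 0, nat_lit 8, nat_lit 320, nat_lit 738, nat_lit 131, nat_lit 0, nat_lit 0, nat_lit 0, nat_lit 0, nat_lit 0, nat_lit 36948933, nat_lit 24266068, nat_lit 5784999, nat_lit 4835345, true, true⟩,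
 nat_lit 4274, nat_lit 0, nat_lit 0, nat_lit 0, nat_lit 3589, nat_lit 2262, nat_lit 295, nat_lit 0, nat_lit 0, nat_lit 178, nat_lit 0, nat_lit 0, nat_lit 0, nat_lit 0, nat_lit 0, nat_lit 295200, nat_lit 0, nat_lit 0, [(nat_lit 21, [(nat_lit 1, nat_lit 738)])],
 ⟨p081_k18, nat_lit 0, nat_lit 0, nat_lit 263, nat_lit 0, nat_lit 644492, [nat_lit 1532521600, nat_lit 2323448000], [], [nat_lit 26562124356, nat_lit 26950282195, nat_lit 29012028012, nat_lit 29379441044, nat_lit 27458913390, nat_lit 27816567321, nat_lit 29804858017, nat_lit 30200518895], nat_lit 1271250, nat_lit 1271250, nat_lit 1271250, nat_lit 1271250, nat_lit 1100001, nat_lit 1579500, [nat_lit 490000, nat_lit 1100000], [nat_lit 24, nat_lit 40, nat_lit 40, nat_lit 80, nat_lit 33, nat_lit 203, nat_lit 0, nat_lit 6]⟩, ⟨p081_k13, nat_lit 0, nat_lit 0, nat_lit 735, nat_lit 0, nat_lit 1128756, [nat_lit 1228256000, nat_lit 2087616000, nat_lit 3110464000], [],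 [nat_lit 10605194842, nat_lit 10640829922, nat_lit 10979611095, nat_lit 11014970168, nat_lit 9285688418, nat_lit 9263012943, nat_lit 9488377822, nat_lit 9458006297], nat_lit 1271250, nat_lit 1271250, nat_lit 1271250, nat_lit 1271250, nat_lit 88400, nat_lit 2396400, [nat_lit 1100000, nat_lit 1785000, nat_lit 1271250], [nat_lit 21, nat_lit 40, nat_lit 40, nat_lit 80, nat_lit 14, nat_lit 401, nat_lit 175, nat_lit 10]⟩,
 ⟨nat_lit 3162, nat_lit 3536, ⟨.ofNat (nat_lit 732188), .ofNat (nat_lit 832606), .ofNat (nat_lit 776092), .ofNat (nat_lit 876512), .ofNat (nat_lit 727168), .ofNat (nat_lit 824694), .ofNat (nat_lit 771477), .ofNat (nat_lit 869004)⟩, ⟨.ofNat (nat_lit 261616), .ofNat (nat_lit 349482), .ofNat (nat_lit 305521), .ofNat (nat_lit 393387), .ofNat (nat_lit 261806), .ofNat (nat_lit 347141), .ofNat (nat_lit 306116), .ofNat (nat_lit 391450)⟩⟩, [⟨nat_lit 13, nat_lit 66, nat_lit 58, nat_lit 100, nat_lit 123377488⟩,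 ⟨nat_lit 16, nat_lit 66, nat_lit 100, nat_lit 80, nat_lit 135256181⟩, ⟨nat_lit 4, nat_lit 100, nat_lit 63, nat_lit 72, nat_lit 150461735⟩, ⟨nat_lit 7, nat_lit 92, nat_lit 100, nat_lit 75, nat_lit 34775897⟩]⟩
noncomputable def b_V_800_600_10_9 : St := ⟨true, nat_lit 1, nat_lit 1, nat_lit 1, nat_lit 80, nat_lit 320, nat_lit 360, nat_lit 240, nat_lit 280, nat_lit 240, nat_lit 396, nat_lit 40, nat_lit 80, nat_lit 0, nat_lit 260, nat_lit 0, nat_lit 336, nat_lit 0, nat_lit 40, nat_lit 0, nat_lit 0, nat_lit 0, nat_lit 0⟩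
theorem d_V_800_600_10_9 (h : EB TB.env) : Dead b_V_800_600_10_9 := chkB_sound0 h (T :=
(.spl (nat_lit 4) (nat_lit 160)
(.spl (nat_lit 0) (nat_lit 340)
(.spl (nat_lit 1) (nat_lit 260)
(.trX (nat_lit 13) (nat_lit 84) (nat_lit 35) (nat_lit 100) (nat_lit 392) (.spl (nat_lit 2) (nat_lit 320)
(.leaf p081_l121)
(.spl (nat_lit 0) (nat_lit 330)
(.leaf p081_l122)
(.trX (nat_lit 13) (nat_lit 80) (nat_lit 41) (nat_lit 100) (nat_lit 384) (.leaf p081_l123)))))
(.trX (nat_lit 19) (nat_lit 100) (nat_lit 85) (nat_lit 84) (nat_lit 320) (.leaf p081_l124)))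
(.trX (nat_lit 13) (nat_lit 78) (nat_lit 39) (nat_lit 100) (nat_lit 388) (.spl (nat_lit 2) (nat_lit 320)
(.spl (nat_lit 0) (nat_lit 350)
(.spl (nat_lit 0) (nat_lit 345)
(.leaf p081_l125)
(.leaf p081_l126))
(.spl (nat_lit 1) (nat_lit 260)
(.leaf p081_l127)
(.trX (nat_lit 19) (nat_lit 100) (nat_lit 85) (nat_lit 84) (nat_lit 320) (.leaf p081_l128))))
(.spl (nat_lit 1) (nat_lit 260)
(.trX (nat_lit 13) (nat_lit 75) (nat_lit 48) (nat_lit 100) (nat_lit 380) (.spl (nat_lit 3) (nat_lit 60)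
(.trX (nat_lit 19) (nat_lit 100) (nat_lit 85) (nat_lit 73) (nat_lit 312) (.leaf p081_l129))
(.leaf p081_l130)))
(.trX (nat_lit 19) (nat_lit 100) (nat_lit 85) (nat_lit 84) (nat_lit 320) (.leaf p081_l131))))))
(.spl (nat_lit 2) (nat_lit 320)
(.spl (nat_lit 0) (nat_lit 340)
(.leaf p081_l132)
(.trX (nat_lit 16) (nat_lit 72) (nat_lit 100) (nat_lit 81) (nat_lit 232) (.leaf p081_l133)))
(.trZ (nat_lit 9) (nat_lit 100) (nat_lit 82) (nat_lit 44) (nat_lit 16) (.spl (nat_lit 0) (nat_lit 340)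
(.spl (nat_lit 1) (nat_lit 260)
(.trX (nat_lit 13) (nat_lit 84) (nat_lit 35) (nat_lit 100) (nat_lit 392) (.leaf p081_l134))
(.trX (nat_lit 19) (nat_lit 100) (nat_lit 85) (nat_lit 84) (nat_lit 320) (.leaf p081_l135)))
(.trX (nat_lit 13) (nat_lit 78) (nat_lit 39) (nat_lit 100) (nat_lit 388) (.trX (nat_lit 16) (nat_lit 72) (nat_lit 100) (nat_lit 81) (nat_lit 232) (.spl (nat_lit 0) (nat_lit 350)
(.leaf p081_l136)
(.trX (nat_lit 13) (nat_lit 72) (nat_lit 46) (nat_lit 100) (nat_lit 384) (.trX (nat_lit 16) (nat_lit 66) (nat_lit 100) (nat_lit 80) (nat_lit 216) (.leaf p081_l137))))))))))) (by decide +kernel)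
noncomputable def p081_l138 : Lf2 := ⟨nat_lit 0, nat_lit 10, [nat_lit 0, nat_lit 5, nat_lit 5, nat_lit 20], true, nat_lit 0, nat_lit 160, nat_lit 0, nat_lit 336, ⟨nat_lit 0, nat_lit 1000, nat_lit 0, nat_lit 6, nat_lit 189, nat_lit 1000, nat_lit 56, nat_lit 0, nat_lit 0, nat_lit 0, nat_lit 0, nat_lit 0, nat_lit 0, nat_lit 0, nat_lit 0, nat_lit 5000000, false, false⟩,
 nat_lit 0, nat_lit 5092, nat_lit 0, nat_lit 0, nat_lit 3819, nat_lit 0, nat_lit 0, nat_lit 0, nat_lit 0, nat_lit 0, nat_lit 0, nat_lit 0, nat_lit 0, nat_lit 0, nat_lit 19, nat_lit 982000, nat_lit 0, nat_lit 0, [(nat_lit 18, [(nat_lit 1, nat_lit 30), (nat_lit 2, nat_lit 970)])],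
 ⟨p081_k10, nat_lit 0, nat_lit 0, nat_lit 511, nat_lit 0, nat_lit 878009, [nat_lit 1844754667, nat_lit 1376973334, nat_lit 8920000], [], [nat_lit 25545672033, nat_lit 24560091246, nat_lit 24348517771, nat_lit 24827850245, nat_lit 21747450720, nat_lit 22264176847, nat_lit 25629546717, nat_lit 24947709292], nat_lit 1271250, nat_lit 1271250, nat_lit 382400, nat_lit 1731000, nat_lit 0, nat_lit 1100001, [nat_lit 490000, nat_lit 1100000, nat_lit 1442500], [nat_lit 6, nat_lit 40, nat_lit 40, nat_lit 80, nat_lit 3, nat_lit 317, nat_lit 100, nat_lit 12]⟩, C1.Rw.none,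
 ⟨nat_lit 4183, nat_lit 4473, ⟨.ofNat (nat_lit 311996), .ofNat (nat_lit 611104), .ofNat (nat_lit 333558), .ofNat (nat_lit 632666), .ofNat (nat_lit 318053), .ofNat (nat_lit 609582), .ofNat (nat_lit 339715), .ofNat (nat_lit 631244)⟩, ⟨.negSucc (nat_lit 12423), .ofNat (nat_lit 259489), .ofNat (nat_lit 0), .ofNat (nat_lit 302621), .negSucc (nat_lit 4612), .ofNat (nat_lit 260409), .ofNat (nat_lit 0), .ofNat (nat_lit 303743)⟩⟩, []⟩
noncomputable def p081_l139 : Lf2 := ⟨nat_lit 0, nat_lit 10, [nat_lit 0, nat_lit 5, nat_lit 5, nat_lit 20], false, nat_lit 0, nat_lit 160, nat_lit 0, nat_lit 320, ⟨nat_lit 208, nat_lit 792, nat_lit 0, nat_lit 6, nat_lit 203, nat_lit 792, nat_lit 56, nat_lit 0, nat_lit 0, nat_lit 0, nat_lit 0, nat_lit 0, nat_lit 0, nat_lit 0, nat_lit 0, nat_lit 5000000, false, false⟩,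
 nat_lit 0, nat_lit 6012, nat_lit 0, nat_lit 0, nat_lit 4508, nat_lit 1450, nat_lit 0, nat_lit 0, nat_lit 0, nat_lit 1270, nat_lit 0, nat_lit 0, nat_lit 0, nat_lit 0, nat_lit 0, nat_lit 792000, nat_lit 0, nat_lit 0, [(nat_lit 18, [(nat_lit 2, nat_lit 792)])],
 ⟨p081_k10, nat_lit 0, nat_lit 0, nat_lit 553, nat_lit 0, nat_lit 1009863, [nat_lit 1770534401, nat_lit 1803008001, nat_lit 948985600], [], [nat_lit 24521657668, nat_lit 23365224936, nat_lit 24384446888, nat_lit 24765461736, nat_lit 22022090791, nat_lit 22376574735, nat_lit 25578638341, nat_lit 24596250473], nat_lit 1271250, nat_lit 1271250, nat_lit 490000, nat_lit 1740000, nat_lit 0, nat_lit 1100001, [nat_lit 490000, nat_lit 1100000, nat_lit 1442500], [nat_lit 6, nat_lit 40, nat_lit 40, nat_lit 80, nat_lit 3, nat_lit 317, nat_lit 100, nat_lit 12]⟩, ⟨p081_k19, nat_lit 0, nat_lit 0, nat_lit 182, nat_lit 0, nat_lit 0, [nat_lit 975104000, nat_lit 1657344000,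 nat_lit 2047136000], [], [nat_lit 3110569676, nat_lit 3520491456, nat_lit 4155669772, nat_lit 4454710520, nat_lit 4581677588, nat_lit 4799376056, nat_lit 4926007652, nat_lit 5151844384], nat_lit 0, nat_lit 0, nat_lit 0, nat_lit 0, nat_lit 0, nat_lit 0, [], [nat_lit 29, nat_lit 40, nat_lit 40, nat_lit 80, nat_lit 17, nat_lit 456, nat_lit 225, nat_lit 13]⟩,
 ⟨nat_lit 4183, nat_lit 4473, ⟨.ofNat (nat_lit 360749), .ofNat (nat_lit 632666), .ofNat (nat_lit 382312), .ofNat (nat_lit 654228), .ofNat (nat_lit 366218), .ofNat (nat_lit 631244), .ofNat (nat_lit 387880), .ofNat (nat_lit 652907)⟩, ⟨.negSucc (nat_lit 12423), .ofNat (nat_lit 259489), .ofNat (nat_lit 0), .ofNat (nat_lit 302621), .negSucc (nat_lit 4612), .ofNat (nat_lit 260409), .ofNat (nat_lit 0), .ofNat (nat_lit 303743)⟩⟩, [⟨nat_lit 7, nat_lit 97, nat_lit 100, nat_lit 76, nat_lit 65098263⟩]⟩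
noncomputable def p081_l140 : Lf2 := ⟨nat_lit 0, nat_lit 10, [nat_lit 0, nat_lit 5, nat_lit 5, nat_lit 20], true, nat_lit 0, nat_lit 160, nat_lit 0, nat_lit 336, ⟨nat_lit 0, nat_lit 1000, nat_lit 0, nat_lit 6, nat_lit 199, nat_lit 1000, nat_lit 56, nat_lit 0, nat_lit 0, nat_lit 0, nat_lit 0, nat_lit 0, nat_lit 0, nat_lit 0, nat_lit 0, nat_lit 5000000, false, false⟩,
 nat_lit 0, nat_lit 5407, nat_lit 0, nat_lit 0, nat_lit 4214, nat_lit 0, nat_lit 1372, nat_lit 0, nat_lit 0, nat_lit 0, nat_lit 0, nat_lit 0, nat_lit 0, nat_lit 0, nat_lit 0, nat_lit 400000, nat_lit 0, nat_lit 0, [(nat_lit 18, [(nat_lit 1, nat_lit 1000)])],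
 ⟨p081_k20, nat_lit 0, nat_lit 0, nat_lit 570, nat_lit 0, nat_lit 1043136, [nat_lit 1398133334, nat_lit 1966666667, nat_lit 1960800000], [], [nat_lit 21399928970, nat_lit 20549524106, nat_lit 22700752518, nat_lit 23625998316, nat_lit 18528916373, nat_lit 19080062970, nat_lit 21324338184, nat_lit 21759879050], nat_lit 1271250, nat_lit 1271250, nat_lit 462650, nat_lit 1737750, nat_lit 0, nat_lit 1100001, [nat_lit 490000, nat_lit 1100000, nat_lit 1442500], [nat_lit 6, nat_lit 40, nat_lit 40, nat_lit 80, nat_lit 3, nat_lit 317, nat_lit 100, nat_lit 12]⟩, C1.Rw.none,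
 ⟨nat_lit 3872, nat_lit 4184, ⟨.ofNat (nat_lit 337921), .ofNat (nat_lit 609582), .ofNat (nat_lit 381245), .ofNat (nat_lit 652906), .ofNat (nat_lit 343550), .ofNat (nat_lit 608101), .ofNat (nat_lit 387127), .ofNat (nat_lit 651678)⟩, ⟨.negSucc (nat_lit 4619), .ofNat (nat_lit 260409), .ofNat (nat_lit 0), .ofNat (nat_lit 303743), .ofNat (nat_lit 0), .ofNat (nat_lit 261131), .ofNat (nat_lit 0), .ofNat (nat_lit 304717)⟩⟩, []⟩
noncomputable def p081_l141 : Lf2 := ⟨nat_lit 0, nat_lit 10, [nat_lit 0, nat_lit 5, nat_lit 5, nat_lit 20], false, nat_lit 160, nat_lit 232, nat_lit 0, nat_lit 312, ⟨nat_lit 141, nat_lit 859, nat_lit 0, nat_lit 6, nat_lit 194, nat_lit 859, nat_lit 132, nat_lit 0, nat_lit 0, nat_lit 0, nat_lit 0, nat_lit 0, nat_lit 0, nat_lit 0, nat_lit 0, nat_lit 5000000, false, false⟩,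
 nat_lit 0, nat_lit 6328, nat_lit 0, nat_lit 0, nat_lit 4746, nat_lit 1499, nat_lit 982, nat_lit 0, nat_lit 0, nat_lit 292, nat_lit 0, nat_lit 0, nat_lit 0, nat_lit 0, nat_lit 0, nat_lit 859000, nat_lit 0, nat_lit 0, [(nat_lit 18, [(nat_lit 2, nat_lit 859)])],
 ⟨p081_k10, nat_lit 0, nat_lit 0, nat_lit 456, nat_lit 0, nat_lit 979074, [nat_lit 1748415467, nat_lit 1558949334, nat_lit 500541200], [], [nat_lit 18620017749, nat_lit 19090431452, nat_lit 20595339230, nat_lit 20984054806, nat_lit 20173196064, nat_lit 20616914813, nat_lit 21776118479, nat_lit 22512288754], nat_lit 1271250, nat_lit 1271250, nat_lit 382400, nat_lit 1731000, nat_lit 1100001, nat_lit 1716500, [nat_lit 490000, nat_lit 1100000, nat_lit 1442500], [nat_lit 6, nat_lit 40, nat_lit 40, nat_lit 80, nat_lit 3, nat_lit 345, nat_lit 125, nat_lit 13]⟩, ⟨p081_k13, nat_lit 0, nat_lit 0, nat_lit 249, nat_lit 0, nat_lit 0, [nat_lit 661008000, nat_lit 1123488000,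 nat_lit 1673952000], [], [nat_lit 2983917493, nat_lit 3530198951, nat_lit 3315446652, nat_lit 3833203088, nat_lit 3412260478, nat_lit 3793677699, nat_lit 3335921139, nat_lit 3598635145], nat_lit 0, nat_lit 0, nat_lit 0, nat_lit 0, nat_lit 0, nat_lit 0, [], [nat_lit 21, nat_lit 40, nat_lit 40, nat_lit 80, nat_lit 14, nat_lit 456, nat_lit 225, nat_lit 12]⟩,
 ⟨nat_lit 4183, nat_lit 4473, ⟨.ofNat (nat_lit 311996), .ofNat (nat_lit 611104), .ofNat (nat_lit 355120), .ofNat (nat_lit 654228), .ofNat (nat_lit 318053), .ofNat (nat_lit 609582), .ofNat (nat_lit 361378), .ofNat (nat_lit 652907)⟩, ⟨.ofNat (nat_lit 259489), .ofNat (nat_lit 381849), .ofNat (nat_lit 281055), .ofNat (nat_lit 403416), .ofNat (nat_lit 260409), .ofNat (nat_lit 379669), .ofNat (nat_lit 282076), .ofNat (nat_lit 401336)⟩⟩, [⟨nat_lit 4, nat_lit 100, nat_lit 78, nat_lit 66, nat_lit 410411217⟩, ⟨nat_lit 19, nat_lit 100, nat_lit 96, nat_lit 69, nat_lit 32099755⟩]⟩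
noncomputable def p081_l142 : Lf2 := ⟨nat_lit 0, nat_lit 10, [nat_lit 0, nat_lit 5, nat_lit 5, nat_lit 20], true, nat_lit 160, nat_lit 220, nat_lit 0, nat_lit 312, ⟨nat_lit 0, nat_lit 1000, nat_lit 0, nat_lit 6, nat_lit 199, nat_lit 1000, nat_lit 128, nat_lit 0, nat_lit 0, nat_lit 0, nat_lit 0, nat_lit 0, nat_lit 0, nat_lit 0, nat_lit 0, nat_lit 5000000, false, false⟩,
 nat_lit 0, nat_lit 5314, nat_lit 0, nat_lit 0, nat_lit 4142, nat_lit 0, nat_lit 1380, nat_lit 0, nat_lit 0, nat_lit 0, nat_lit 0, nat_lit 0, nat_lit 0, nat_lit 0, nat_lit 0, nat_lit 400000, nat_lit 0, nat_lit 0, [(nat_lit 18, [(nat_lit 1, nat_lit 1000)])],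
 ⟨p081_k20, nat_lit 0, nat_lit 0, nat_lit 465, nat_lit 0, nat_lit 1011619, [nat_lit 1398133334, nat_lit 1966666667, nat_lit 1960800000], [], [nat_lit 17990019442, nat_lit 18578266575, nat_lit 20981232986, nat_lit 21444781444, nat_lit 19658021456, nat_lit 20191300188, nat_lit 22235465882, nat_lit 22657645678], nat_lit 1271250, nat_lit 1271250, nat_lit 462650, nat_lit 1737750, nat_lit 1100001, nat_lit 1613750, [nat_lit 490000, nat_lit 1100000, nat_lit 1442500], [nat_lit 6, nat_lit 40, nat_lit 40, nat_lit 80, nat_lit 3, nat_lit 345, nat_lit 125, nat_lit 12]⟩, C1.Rw.none,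
 ⟨nat_lit 3872, nat_lit 4184, ⟨.ofNat (nat_lit 337921), .ofNat (nat_lit 609582), .ofNat (nat_lit 381245), .ofNat (nat_lit 652906), .ofNat (nat_lit 343550), .ofNat (nat_lit 608101), .ofNat (nat_lit 387127), .ofNat (nat_lit 651678)⟩, ⟨.ofNat (nat_lit 260409), .ofNat (nat_lit 359793), .ofNat (nat_lit 282076), .ofNat (nat_lit 381459), .ofNat (nat_lit 261131), .ofNat (nat_lit 357913), .ofNat (nat_lit 282924), .ofNat (nat_lit 379706)⟩⟩, [⟨nat_lit 4, nat_lit 100, nat_lit 74, nat_lit 66, nat_lit 392249762⟩]⟩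
noncomputable def p081_l143 : Lf2 := ⟨nat_lit 0, nat_lit 10, [nat_lit 0, nat_lit 5, nat_lit 5, nat_lit 20], true, nat_lit 160, nat_lit 260, nat_lit 0, nat_lit 336, ⟨nat_lit 0, nat_lit 1000, nat_lit 0, nat_lit 6, nat_lit 194, nat_lit 1000, nat_lit 151, nat_lit 0, nat_lit 0, nat_lit 0, nat_lit 0, nat_lit 0, nat_lit 0, nat_lit 0, nat_lit 0, nat_lit 5000000, false, false⟩,
 nat_lit 0, nat_lit 5470, nat_lit 0, nat_lit 0, nat_lit 4102, nat_lit 0, nat_lit 0, nat_lit 0, nat_lit 0, nat_lit 0, nat_lit 0, nat_lit 0, nat_lit 0, nat_lit 0, nat_lit 17, nat_lit 973000, nat_lit 0, nat_lit 0, [(nat_lit 18, [(nat_lit 1, nat_lit 45), (nat_lit 2, nat_lit 955)])],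
 ⟨p081_k10, nat_lit 0, nat_lit 0, nat_lit 388, nat_lit 0, nat_lit 829775, [nat_lit 1824198667, nat_lit 1358793334, nat_lit 4980000], [], [nat_lit 22124551502, nat_lit 21065936056, nat_lit 21341301576, nat_lit 21774724830, nat_lit 21470914679, nat_lit 21939305097, nat_lit 24409353849, nat_lit 24209803116], nat_lit 1271250, nat_lit 1271250, nat_lit 382400, nat_lit 1731000, nat_lit 1100001, nat_lit 1956250, [nat_lit 490000, nat_lit 1100000, nat_lit 1442500], [nat_lit 6, nat_lit 40, nat_lit 40, nat_lit 80, nat_lit 3, nat_lit 345, nat_lit 125, nat_lit 13]⟩, C1.Rw.none,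
 ⟨nat_lit 4183, nat_lit 4473, ⟨.ofNat (nat_lit 311996), .ofNat (nat_lit 611104), .ofNat (nat_lit 355120), .ofNat (nat_lit 654228), .ofNat (nat_lit 318053), .ofNat (nat_lit 609582), .ofNat (nat_lit 361378), .ofNat (nat_lit 652907)⟩, ⟨.ofNat (nat_lit 281055), .ofNat (nat_lit 451000), .ofNat (nat_lit 302621), .ofNat (nat_lit 472567), .ofNat (nat_lit 282076), .ofNat (nat_lit 447715), .ofNat (nat_lit 303743), .ofNat (nat_lit 469382)⟩⟩, [⟨nat_lit 4, nat_lit 100, nat_lit 79, nat_lit 77, nat_lit 347920213⟩]⟩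
noncomputable def p081_l144 : Lf2 := ⟨nat_lit 0, nat_lit 10, [nat_lit 0, nat_lit 5, nat_lit 5, nat_lit 20], true, nat_lit 160, nat_lit 244, nat_lit 0, nat_lit 336, ⟨nat_lit 0, nat_lit 1000, nat_lit 0, nat_lit 6, nat_lit 199, nat_lit 1000, nat_lit 145, nat_lit 0, nat_lit 0, nat_lit 0, nat_lit 0, nat_lit 0, nat_lit 0, nat_lit 0, nat_lit 0, nat_lit 5000000, false, false⟩,
 nat_lit 0, nat_lit 5108, nat_lit 0, nat_lit 0, nat_lit 3981, nat_lit 0, nat_lit 1311, nat_lit 0, nat_lit 0, nat_lit 0, nat_lit 0, nat_lit 0, nat_lit 0, nat_lit 0, nat_lit 0, nat_lit 400000, nat_lit 0, nat_lit 0, [(nat_lit 18, [(nat_lit 1, nat_lit 1000)])],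
 ⟨p081_k20, nat_lit 0, nat_lit 0, nat_lit 410, nat_lit 0, nat_lit 870609, [nat_lit 1398133334, nat_lit 1966666667, nat_lit 1960800000], [], [nat_lit 18848571853, nat_lit 18440539466, nat_lit 21010105496, nat_lit 21498225822, nat_lit 20330660584, nat_lit 20868916132, nat_lit 22913752587, nat_lit 23340379613], nat_lit 1271250, nat_lit 1271250, nat_lit 462650, nat_lit 1737750, nat_lit 1100001, nat_lit 1819250, [nat_lit 490000, nat_lit 1100000, nat_lit 1442500], [nat_lit 6, nat_lit 40, nat_lit 40, nat_lit 80, nat_lit 3, nat_lit 345, nat_lit 125, nat_lit 12]⟩, C1.Rw.none,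
 ⟨nat_lit 3872, nat_lit 4184, ⟨.ofNat (nat_lit 337921), .ofNat (nat_lit 609582), .ofNat (nat_lit 381245), .ofNat (nat_lit 652906), .ofNat (nat_lit 343550), .ofNat (nat_lit 608101), .ofNat (nat_lit 387127), .ofNat (nat_lit 651678)⟩, ⟨.ofNat (nat_lit 282076), .ofNat (nat_lit 421213), .ofNat (nat_lit 303743), .ofNat (nat_lit 442879), .ofNat (nat_lit 282924), .ofNat (nat_lit 418419), .ofNat (nat_lit 304717), .ofNat (nat_lit 440213)⟩⟩, [⟨nat_lit 4, nat_lit 100, nat_lit 74, nat_lit 77, nat_lit 352155365⟩]⟩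
noncomputable def p081_l145 : Lf2 := ⟨nat_lit 0, nat_lit 10, [nat_lit 0, nat_lit 5, nat_lit 5, nat_lit 20], false, nat_lit 0, nat_lit 232, nat_lit 0, nat_lit 336, ⟨nat_lit 205, nat_lit 795, nat_lit 0, nat_lit 6, nat_lit 203, nat_lit 795, nat_lit 80, nat_lit 0, nat_lit 0, nat_lit 0, nat_lit 0, nat_lit 0, nat_lit 0, nat_lit 0, nat_lit 0, nat_lit 5000000, false, false⟩,
 nat_lit 0, nat_lit 4933, nat_lit 0, nat_lit 0, nat_lit 3993, nat_lit 2215, nat_lit 978, nat_lit 0, nat_lit 0, nat_lit 338, nat_lit 0, nat_lit 0, nat_lit 0, nat_lit 0, nat_lit 0, nat_lit 318000, nat_lit 0, nat_lit 0, [(nat_lit 21, [(nat_lit 1, nat_lit 795)])],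
 ⟨p081_k16, nat_lit 0, nat_lit 0, nat_lit 579, nat_lit 0, nat_lit 1074213, [nat_lit 1493944001, nat_lit 2147816000, nat_lit 2467390000], [], [nat_lit 20459933410, nat_lit 21093021199, nat_lit 23643171739, nat_lit 24147466254, nat_lit 22888100566, nat_lit 23360353819, nat_lit 25801196098, nat_lit 25499804457], nat_lit 1271250, nat_lit 1271250, nat_lit 545600, nat_lit 1744500, nat_lit 0, nat_lit 1638500, [nat_lit 490000, nat_lit 1100000, nat_lit 1442500], [nat_lit 6, nat_lit 40, nat_lit 40, nat_lit 80, nat_lit 3, nat_lit 345, nat_lit 125, nat_lit 13]⟩, ⟨p081_k13, nat_lit 0, nat_lit 0, nat_lit 230, nat_lit 0, nat_lit 0, [nat_lit 961040000, nat_lit 1633440000, nat_lit 2433760000], [], [nat_lit 4617781488, nat_lit 5394902212, nat_lit 5013550940, nat_lit 5572130000, nat_lit 5221910661, nat_lit 5709741729, nat_lit 5247386977, nat_lit 5763695213], nat_lit 0, nat_lit 0, nat_lit 0, nat_lit 0, nat_lit 0, nat_lit 0, [], [nat_lit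 21, nat_lit 40, nat_lit 40, nat_lit 80, nat_lit 14, nat_lit 456, nat_lit 225, nat_lit 12]⟩,
 ⟨nat_lit 3535, nat_lit 3873, ⟨.ofNat (nat_lit 362897), .ofNat (nat_lit 608101), .ofNat (nat_lit 406471), .ofNat (nat_lit 651675), .ofNat (nat_lit 368144), .ofNat (nat_lit 606659), .ofNat (nat_lit 412037), .ofNat (nat_lit 650552)⟩, ⟨.ofNat (nat_lit 0), .ofNat (nat_lit 377270), .ofNat (nat_lit 0), .ofNat (nat_lit 420856), .ofNat (nat_lit 0), .ofNat (nat_lit 374587), .ofNat (nat_lit 0), .ofNat (nat_lit 418492)⟩⟩, [⟨nat_lit 4, nat_lit 100, nat_lit 69, nat_lit 71, nat_lit 240777981⟩, ⟨nat_lit 19, nat_lit 100, nat_lit 92, nat_lit 75, nat_lit 55564668⟩]⟩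
noncomputable def p081_l146 : Lf2 := ⟨nat_lit 0, nat_lit 10, [nat_lit 0, nat_lit 5, nat_lit 5, nat_lit 20], false, nat_lit 0, nat_lit 216, nat_lit 0, nat_lit 336, ⟨nat_lit 555, nat_lit 445, nat_lit 0, nat_lit 6, nat_lit 208, nat_lit 445, nat_lit 74, nat_lit 0, nat_lit 0, nat_lit 0, nat_lit 0, nat_lit 0, nat_lit 0, nat_lit 0, nat_lit 0, nat_lit 5000000, false, false⟩,
 nat_lit 0, nat_lit 5245, nat_lit 0, nat_lit 0, nat_lit 4405, nat_lit 6026, nat_lit 555, nat_lit 0, nat_lit 0, nat_lit 917, nat_lit 0, nat_lit 0, nat_lit 0, nat_lit 0, nat_lit 0, nat_lit 178000, nat_lit 0, nat_lit 0, [(nat_lit 21, [(nat_lit 1, nat_lit 445)])],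
 ⟨p081_k18, nat_lit 0, nat_lit 0, nat_lit 512, nat_lit 0, nat_lit 1103161, [nat_lit 1730824001, nat_lit 3262220000], [], [nat_lit 23008439787, nat_lit 23555964734, nat_lit 25411397709, nat_lit 25857423450, nat_lit 24182248747, nat_lit 24606808243, nat_lit 26091152098, nat_lit 26470674616], nat_lit 1271250, nat_lit 1271250, nat_lit 631250, nat_lit 1751250, nat_lit 0, nat_lit 1525500, [nat_lit 490000, nat_lit 1100000], [nat_lit 24, nat_lit 40, nat_lit 40, nat_lit 80, nat_lit 33, nat_lit 345, nat_lit 125, nat_lit 16]⟩, ⟨p081_k13, nat_lit 0, nat_lit 0, nat_lit 224, nat_lit 0, nat_lit 0, [nat_lit 2601840000, nat_lit 4422240000, nat_lit 6588960000], [], [nat_lit 12269354282, nat_lit 14347008100, nat_lit 13567864236, nat_lit 15084727328, nat_lit 13891688624, nat_lit 15192207841, nat_lit 14217790438, nat_lit 15619318602], nat_lit 0, nat_lit 0, nat_lit 0, nat_lit 0, nat_lit 0, nat_lit 0, [], [nat_lit 21, nat_lit 40, nat_lit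 40, nat_lit 80, nat_lit 14, nat_lit 456, nat_lit 225, nat_lit 12]⟩,
 ⟨nat_lit 3162, nat_lit 3536, ⟨.ofNat (nat_lit 386958), .ofNat (nat_lit 606660), .ofNat (nat_lit 430847), .ofNat (nat_lit 650549), .ofNat (nat_lit 391883), .ofNat (nat_lit 605256), .ofNat (nat_lit 436176), .ofNat (nat_lit 649550)⟩, ⟨.ofNat (nat_lit 0), .ofNat (nat_lit 349482), .ofNat (nat_lit 0), .ofNat (nat_lit 393387), .ofNat (nat_lit 0), .ofNat (nat_lit 347141), .ofNat (nat_lit 0), .ofNat (nat_lit 391450)⟩⟩, [⟨nat_lit 0, nat_lit 94, nat_lit 62, nat_lit 100, nat_lit 297301768⟩, ⟨nat_lit 16, nat_lit 63, nat_lit 100, nat_lit 72, nat_lit 293766490⟩, ⟨nat_lit 7, nat_lit 92, nat_lit 100, nat_lit 75, nat_lit 150753146⟩]⟩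
noncomputable def p081_l147 : Lf2 := ⟨nat_lit 0, nat_lit 10, [nat_lit 0, nat_lit 5, nat_lit 5, nat_lit 20], false, nat_lit 0, nat_lit 260, nat_lit 0, nat_lit 160, ⟨nat_lit 1000, nat_lit 0, nat_lit 0, nat_lit 0, nat_lit 0, nat_lit 0, nat_lit 0, nat_lit 0, nat_lit 0, nat_lit 0, nat_lit 0, nat_lit 0, nat_lit 0, nat_lit 0, nat_lit 0, nat_lit 0, false, false⟩,
 nat_lit 0, nat_lit 8152, nat_lit 0, nat_lit 0, nat_lit 6114, nat_lit 6859, nat_lit 1327, nat_lit 0, nat_lit 0, nat_lit 1369, nat_lit 0, nat_lit 0, nat_lit 0, nat_lit 0, nat_lit 0, nat_lit 0, nat_lit 0, nat_lit 0, [],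
 ⟨p081_k10, nat_lit 0, nat_lit 0, nat_lit 554, nat_lit 0, nat_lit 1099400, [nat_lit 2032000001, nat_lit 4688000000, nat_lit 6250000000], [], [nat_lit 34155122466, nat_lit 34849660602, nat_lit 38837018906, nat_lit 39377808566, nat_lit 32916922976, nat_lit 33395692488, nat_lit 36055237055, nat_lit 36424081221], nat_lit 1271250, nat_lit 1271250, nat_lit 1271250, nat_lit 1271250, nat_lit 0, nat_lit 1836250, [nat_lit 490000, nat_lit 1100000, nat_lit 1442500], [nat_lit 6, nat_lit 40, nat_lit 40, nat_lit 80, nat_lit 3, nat_lit 289, nat_lit 75, nat_lit 10]⟩, ⟨p081_k13, nat_lit 0, nat_lit 0, nat_lit 249, nat_lit 0, nat_lit 0, [nat_lit 4688000000, nat_lit 7968000000, nat_lit 11872000000], [], [nat_lit 25322726320, nat_lit 27687330168, nat_lit 37582434575, nat_lit 39083887710, nat_lit 22133149692, nat_lit 24090598696, nat_lit 31662272000, nat_lit 32956705564], nat_lit 0, nat_lit 0, nat_lit 0, nat_lit 0, nat_lit 0, nat_lit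 0, [], [nat_lit 21, nat_lit 40, nat_lit 40, nat_lit 80, nat_lit 14, nat_lit 456, nat_lit 225, nat_lit 11]⟩,
 zbF0, [⟨nat_lit 4, nat_lit 100, nat_lit 76, nat_lit 72, nat_lit 208456676⟩]⟩
noncomputable def p081_l148 : Lf2 := ⟨nat_lit 0, nat_lit 10, [nat_lit 0, nat_lit 5, nat_lit 5, nat_lit 20], false, nat_lit 0, nat_lit 232, nat_lit 0, nat_lit 160, ⟨nat_lit 1000, nat_lit 0, nat_lit 0, nat_lit 0, nat_lit 0, nat_lit 0, nat_lit 0, nat_lit 0, nat_lit 0, nat_lit 0, nat_lit 0, nat_lit 0, nat_lit 0, nat_lit 0, nat_lit 0, nat_lit 0, false, false⟩,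
 nat_lit 0, nat_lit 5657, nat_lit 0, nat_lit 0, nat_lit 4579, nat_lit 6800, nat_lit 614, nat_lit 0, nat_lit 0, nat_lit 1107, nat_lit 0, nat_lit 0, nat_lit 0, nat_lit 0, nat_lit 0, nat_lit 0, nat_lit 0, nat_lit 0, [],
 ⟨p081_k16, nat_lit 0, nat_lit 0, nat_lit 574, nat_lit 0, nat_lit 1159134, [nat_lit 2032000001, nat_lit 4688000000, nat_lit 6250000000], [], [nat_lit 30516621566, nat_lit 31284930084, nat_lit 34978806249, nat_lit 35573757833, nat_lit 30762826042, nat_lit 31378899635, nat_lit 34230309438, nat_lit 34683530030], nat_lit 1271250, nat_lit 1271250, nat_lit 1271250, nat_lit 1271250, nat_lit 0, nat_lit 1638500, [nat_lit 490000, nat_lit 1100000, nat_lit 1442500], [nat_lit 6, nat_lit 40, nat_lit 40, nat_lit 80, nat_lit 3, nat_lit 272, nat_lit 60, nat_lit 9]⟩, ⟨p081_k13, nat_lit 0, nat_lit 0, nat_lit 246, nat_lit 0, nat_lit 0, [nat_lit 4688000000, nat_lit 7968000000, nat_lit 11872000000], [], [nat_lit 27050177300,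 nat_lit 29197090900, nat_lit 36814027141, nat_lit 38330115761, nat_lit 22995089300, nat_lit 24510550100, nat_lit 31036089921, nat_lit 32383261200], nat_lit 0, nat_lit 0, nat_lit 0, nat_lit 0, nat_lit 0, nat_lit 0, [], [nat_lit 21, nat_lit 40, nat_lit 40, nat_lit 80, nat_lit 14, nat_lit 456, nat_lit 225, nat_lit 11]⟩,
 zbF0, [⟨nat_lit 16, nat_lit 66, nat_lit 100, nat_lit 72, nat_lit 304837409⟩]⟩
noncomputable def p081_l149 : Lf2 := ⟨nat_lit 0, nat_lit 10, [nat_lit 0, nat_lit 5, nat_lit 5, nat_lit 20], false, nat_lit 0, nat_lit 260, nat_lit 160, nat_lit 336, ⟨nat_lit 1000, nat_lit 0, nat_lit 0, nat_lit 0, nat_lit 0, nat_lit 0, nat_lit 0, nat_lit 0, nat_lit 0, nat_lit 0, nat_lit 0, nat_lit 0, nat_lit 0, nat_lit 0, nat_lit 0, nat_lit 0, false, false⟩,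
 nat_lit 0, nat_lit 8234, nat_lit 0, nat_lit 0, nat_lit 6175, nat_lit 5823, nat_lit 460, nat_lit 0, nat_lit 0, nat_lit 0, nat_lit 0, nat_lit 0, nat_lit 0, nat_lit 0, nat_lit 0, nat_lit 0, nat_lit 0, nat_lit 0, [],
 ⟨p081_k10, nat_lit 0, nat_lit 0, nat_lit 523, nat_lit 0, nat_lit 1009863, [nat_lit 2032000001, nat_lit 4688000000, nat_lit 6250000000], [], [nat_lit 33844600300, nat_lit 34198176475, nat_lit 38584368520, nat_lit 38855417618, nat_lit 32474598225, nat_lit 32752836275, nat_lit 35736737035, nat_lit 35921186680], nat_lit 1271250, nat_lit 1271250, nat_lit 1271250, nat_lit 1271250, nat_lit 0, nat_lit 1836250, [nat_lit 490000, nat_lit 1100000, nat_lit 1442500], [nat_lit 6, nat_lit 40, nat_lit 40, nat_lit 80, nat_lit 3, nat_lit 289, nat_lit 75, nat_lit 10]⟩, ⟨p081_k13, nat_lit 0, nat_lit 0, nat_lit 94, nat_lit 0, nat_lit 0, [nat_lit 4688000000, nat_lit 7968000000, nat_lit 11872000000], [], [nat_lit 15496925552,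 nat_lit 18105950260, nat_lit 27315410208, nat_lit 28805247856, nat_lit 24481799062, nat_lit 26095628080, nat_lit 32754499808, nat_lit 33777387175], nat_lit 0, nat_lit 0, nat_lit 0, nat_lit 0, nat_lit 0, nat_lit 0, [], [nat_lit 21, nat_lit 40, nat_lit 40, nat_lit 80, nat_lit 14, nat_lit 538, nat_lit 300, nat_lit 13]⟩,
 zbF0, [⟨nat_lit 16, nat_lit 79, nat_lit 100, nat_lit 72, nat_lit 201186528⟩, ⟨nat_lit 7, nat_lit 92, nat_lit 100, nat_lit 75, nat_lit 592488707⟩]⟩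
noncomputable def p081_l150 : Lf2 := ⟨nat_lit 0, nat_lit 10, [nat_lit 0, nat_lit 5, nat_lit 5, nat_lit 20], false, nat_lit 0, nat_lit 244, nat_lit 160, nat_lit 336, ⟨nat_lit 1000, nat_lit 0, nat_lit 0, nat_lit 0, nat_lit 0, nat_lit 0, nat_lit 0, nat_lit 0, nat_lit 0, nat_lit 0, nat_lit 0, nat_lit 0, nat_lit 0, nat_lit 0, nat_lit 0, nat_lit 0, false, false⟩,
 nat_lit 0, nat_lit 6431, nat_lit 0, nat_lit 0, nat_lit 5012, nat_lit 5867, nat_lit 1897, nat_lit 0, nat_lit 0, nat_lit 0, nat_lit 0, nat_lit 0, nat_lit 0, nat_lit 0, nat_lit 0, nat_lit 0, nat_lit 0, nat_lit 0, [],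
 ⟨p081_k20, nat_lit 0, nat_lit 0, nat_lit 534, nat_lit 0, nat_lit 1043136, [nat_lit 2032000001, nat_lit 4688000000, nat_lit 6250000000], [], [nat_lit 25760142781, nat_lit 26170757585, nat_lit 35232133808, nat_lit 35871965397, nat_lit 25975580735, nat_lit 26319423483, nat_lit 31351299302, nat_lit 31835299239], nat_lit 1271250, nat_lit 1271250, nat_lit 1271250, nat_lit 1271250, nat_lit 0, nat_lit 1723250, [nat_lit 490000, nat_lit 1100000, nat_lit 1442500], [nat_lit 6, nat_lit 40, nat_lit 40, nat_lit 80, nat_lit 3, nat_lit 289, nat_lit 75, nat_lit 10]⟩, ⟨p081_k13, nat_lit 0, nat_lit 0, nat_lit 92, nat_lit 0, nat_lit 0, [nat_lit 4688000000, nat_lit 7968000000, nat_lit 11872000000], [], [nat_lit 15433945008, nat_lit 18053177540, nat_lit 26960951341, nat_lit 28483201277, nat_lit 24448378387, nat_lit 26066401520, nat_lit 32529682623, nat_lit 33576020968], nat_lit 0, nat_lit 0, nat_lit 0, nat_lit 0, nat_lit 0, nat_lit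 0, [], [nat_lit 21, nat_lit 40, nat_lit 40, nat_lit 80, nat_lit 14, nat_lit 538, nat_lit 300, nat_lit 13]⟩,
 zbF0, [⟨nat_lit 4, nat_lit 100, nat_lit 74, nat_lit 72, nat_lit 158084479⟩, ⟨nat_lit 19, nat_lit 100, nat_lit 76, nat_lit 82, nat_lit 166699031⟩, ⟨nat_lit 7, nat_lit 92, nat_lit 100, nat_lit 75, nat_lit 316750322⟩]⟩
noncomputable def p081_l151 : Lf2 := ⟨nat_lit 0, nat_lit 10, [nat_lit 0, nat_lit 5, nat_lit 5, nat_lit 20], false, nat_lit 0, nat_lit 232, nat_lit 160, nat_lit 336, ⟨nat_lit 1000, nat_lit 0, nat_lit 0, nat_lit 0, nat_lit 0, nat_lit 0, nat_lit 0, nat_lit 0, nat_lit 0, nat_lit 0, nat_lit 0, nat_lit 0, nat_lit 0, nat_lit 0, nat_lit 0, nat_lit 0, false, false⟩,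
 nat_lit 0, nat_lit 5988, nat_lit 0, nat_lit 0, nat_lit 4847, nat_lit 6546, nat_lit 1737, nat_lit 0, nat_lit 0, nat_lit 0, nat_lit 0, nat_lit 0, nat_lit 0, nat_lit 0, nat_lit 0, nat_lit 0, nat_lit 0, nat_lit 0, [],
 ⟨p081_k16, nat_lit 0, nat_lit 0, nat_lit 574, nat_lit 0, nat_lit 1159134, [nat_lit 2032000001, nat_lit 4688000000, nat_lit 6250000000], [], [nat_lit 26810823417, nat_lit 27766277911, nat_lit 35077345373, nat_lit 36355868322, nat_lit 27542448007, nat_lit 28257231730, nat_lit 31559330898, nat_lit 32168885575], nat_lit 1271250, nat_lit 1271250, nat_lit 1271250, nat_lit 1271250, nat_lit 0, nat_lit 1638500, [nat_lit 490000, nat_lit 1100000, nat_lit 1442500], [nat_lit 6, nat_lit 40, nat_lit 40, nat_lit 80, nat_lit 3, nat_lit 272, nat_lit 60, nat_lit 9]⟩, ⟨p081_k13, nat_lit 0, nat_lit 0, nat_lit 90, nat_lit 0, nat_lit 0, [nat_lit 4688000000, nat_lit 7968000000, nat_lit 11872000000], [], [nat_lit 14462040704,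 nat_lit 17238798520, nat_lit 26926323052, nat_lit 28787822266, nat_lit 23932636604, nat_lit 25910281426, nat_lit 33002676312, nat_lit 34082165584], nat_lit 0, nat_lit 0, nat_lit 0, nat_lit 0, nat_lit 0, nat_lit 0, [], [nat_lit 21, nat_lit 40, nat_lit 40, nat_lit 80, nat_lit 14, nat_lit 538, nat_lit 300, nat_lit 13]⟩,
 zbF0, [⟨nat_lit 16, nat_lit 66, nat_lit 100, nat_lit 72, nat_lit 155329006⟩, ⟨nat_lit 19, nat_lit 100, nat_lit 92, nat_lit 75, nat_lit 107702442⟩, ⟨nat_lit 19, nat_lit 100, nat_lit 76, nat_lit 82, nat_lit 386954690⟩]⟩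
noncomputable def p081_l152 : Lf2 := ⟨nat_lit 0, nat_lit 10, [nat_lit 0, nat_lit 5, nat_lit 5, nat_lit 20], false, nat_lit 0, nat_lit 260, nat_lit 0, nat_lit 336, ⟨nat_lit 0, nat_lit 1000, nat_lit 0, nat_lit 6, nat_lit 194, nat_lit 1000, nat_lit 90, nat_lit 0, nat_lit 0, nat_lit 0, nat_lit 0, nat_lit 0, nat_lit 0, nat_lit 0, nat_lit 0, nat_lit 5000000, false, false⟩,
 nat_lit 0, nat_lit 6970, nat_lit 0, nat_lit 0, nat_lit 5227, nat_lit 0, nat_lit 360, nat_lit 0, nat_lit 0, nat_lit 0, nat_lit 0, nat_lit 0, nat_lit 0, nat_lit 0, nat_lit 23, nat_lit 1000000, nat_lit 0, nat_lit 0, [(nat_lit 18, [(nat_lit 2, nat_lit 1000)])],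
 ⟨p081_k10, nat_lit 0, nat_lit 0, nat_lit 369, nat_lit 0, nat_lit 578824, [nat_lit 1885866667, nat_lit 1413333334, nat_lit 16800000], [], [nat_lit 25322102036, nat_lit 23973154465, nat_lit 23271180960, nat_lit 24321488699, nat_lit 21113442343, nat_lit 22076211011, nat_lit 24873851802, nat_lit 23922712860], nat_lit 1271250, nat_lit 1271250, nat_lit 382400, nat_lit 1731000, nat_lit 0, nat_lit 1836250, [nat_lit 490000, nat_lit 1100000, nat_lit 1442500], [nat_lit 6, nat_lit 40, nat_lit 40, nat_lit 80, nat_lit 3, nat_lit 345, nat_lit 125, nat_lit 13]⟩, ⟨p081_k13, nat_lit 0, nat_lit 0, nat_lit 739, nat_lit 0, nat_lit 886709, [nat_lit 0, nat_lit 0, nat_lit 0], [], [nat_lit 0, nat_lit 0, nat_lit 0, nat_lit 0, nat_lit 0, nat_lit 0, nat_lit 0, nat_lit 0], nat_lit 1271250, nat_lit 1271250, nat_lit 382400, nat_lit 1731000, nat_lit 0, nat_lit 2373000, [nat_lit 1100000, nat_lit 1785000, nat_lit 1271250], [nat_lit 21, nat_lit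 40, nat_lit 40, nat_lit 80, nat_lit 14, nat_lit 456, nat_lit 225, nat_lit 12]⟩,
 ⟨nat_lit 4183, nat_lit 4473, ⟨.ofNat (nat_lit 311996), .ofNat (nat_lit 611104), .ofNat (nat_lit 355120), .ofNat (nat_lit 654228), .ofNat (nat_lit 318053), .ofNat (nat_lit 609582), .ofNat (nat_lit 361378), .ofNat (nat_lit 652907)⟩, ⟨.negSucc (nat_lit 12423), .ofNat (nat_lit 429434), .ofNat (nat_lit 0), .ofNat (nat_lit 472567), .negSucc (nat_lit 4612), .ofNat (nat_lit 426048), .ofNat (nat_lit 0), .ofNat (nat_lit 469382)⟩⟩, [⟨nat_lit 4, nat_lit 100, nat_lit 79, nat_lit 72, nat_lit 136561539⟩]⟩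
noncomputable def p081_l153 : Lf2 := ⟨nat_lit 0, nat_lit 10, [nat_lit 0, nat_lit 5, nat_lit 5, nat_lit 20], false, nat_lit 0, nat_lit 244, nat_lit 0, nat_lit 336, ⟨nat_lit 0, nat_lit 1000, nat_lit 0, nat_lit 6, nat_lit 199, nat_lit 1000, nat_lit 84, nat_lit 0, nat_lit 0, nat_lit 0, nat_lit 0, nat_lit 0, nat_lit 0, nat_lit 0, nat_lit 0, nat_lit 5000000, false, false⟩,
 nat_lit 0, nat_lit 5897, nat_lit 0, nat_lit 0, nat_lit 4596, nat_lit 0, nat_lit 727, nat_lit 0, nat_lit 0, nat_lit 0, nat_lit 0, nat_lit 0, nat_lit 0, nat_lit 0, nat_lit 0, nat_lit 400000, nat_lit 0, nat_lit 0, [(nat_lit 18, [(nat_lit 1, nat_lit 1000)])],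
 ⟨p081_k20, nat_lit 0, nat_lit 0, nat_lit 375, nat_lit 0, nat_lit 601889, [nat_lit 1398133334, nat_lit 1966666667, nat_lit 1960800000], [], [nat_lit 21918023410, nat_lit 21332502553, nat_lit 23311928452, nat_lit 24284334824, nat_lit 20236685915, nat_lit 21155085839, nat_lit 26362650893, nat_lit 25386587802], nat_lit 1271250, nat_lit 1271250, nat_lit 462650, nat_lit 1737750, nat_lit 0, nat_lit 1723250, [nat_lit 490000, nat_lit 1100000, nat_lit 1442500], [nat_lit 6, nat_lit 40, nat_lit 40, nat_lit 80, nat_lit 3, nat_lit 345, nat_lit 125, nat_lit 13]⟩, ⟨p081_k13, nat_lit 0, nat_lit 0, nat_lit 764, nat_lit 0, nat_lit 965327, [nat_lit 0, nat_lit 0, nat_lit 0], [], [nat_lit 0, nat_lit 0, nat_lit 0, nat_lit 0, nat_lit 0, nat_lit 0, nat_lit 0, nat_lit 0], nat_lit 1271250, nat_lit 1271250, nat_lit 462650, nat_lit 1737750, nat_lit 0, nat_lit 2373000, [nat_lit 1100000, nat_lit 1785000, nat_lit 1271250], [nat_lit 21, nat_lit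 40, nat_lit 40, nat_lit 80, nat_lit 14, nat_lit 456, nat_lit 225, nat_lit 12]⟩,
 ⟨nat_lit 3872, nat_lit 4184, ⟨.ofNat (nat_lit 337921), .ofNat (nat_lit 609582), .ofNat (nat_lit 381245), .ofNat (nat_lit 652906), .ofNat (nat_lit 343550), .ofNat (nat_lit 608101), .ofNat (nat_lit 387127), .ofNat (nat_lit 651678)⟩, ⟨.negSucc (nat_lit 4619), .ofNat (nat_lit 399546), .ofNat (nat_lit 0), .ofNat (nat_lit 442879), .ofNat (nat_lit 0), .ofNat (nat_lit 396626), .ofNat (nat_lit 0), .ofNat (nat_lit 440213)⟩⟩, [⟨nat_lit 4, nat_lit 100, nat_lit 74, nat_lit 72, nat_lit 214480675⟩]⟩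
noncomputable def p081_l154 : Lf2 := ⟨nat_lit 0, nat_lit 10, [nat_lit 0, nat_lit 5, nat_lit 5, nat_lit 20], false, nat_lit 0, nat_lit 232, nat_lit 0, nat_lit 336, ⟨nat_lit 0, nat_lit 1000, nat_lit 0, nat_lit 6, nat_lit 204, nat_lit 1000, nat_lit 79, nat_lit 0, nat_lit 0, nat_lit 0, nat_lit 0, nat_lit 0, nat_lit 0, nat_lit 0, nat_lit 0, nat_lit 5000000, false, false⟩,
 nat_lit 0, nat_lit 4994, nat_lit 0, nat_lit 0, nat_lit 4042, nat_lit 0, nat_lit 533, nat_lit 0, nat_lit 0, nat_lit 0, nat_lit 0, nat_lit 0, nat_lit 0, nat_lit 0, nat_lit 0, nat_lit 400000, nat_lit 0, nat_lit 0, [(nat_lit 21, [(nat_lit 1, nat_lit 1000)])],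
 ⟨p081_k16, nat_lit 0, nat_lit 0, nat_lit 420, nat_lit 0, nat_lit 673088, [nat_lit 1355200000, nat_lit 1492800001, nat_lit 1492000000], [], [nat_lit 20013705326, nat_lit 22353146061, nat_lit 23329574548, nat_lit 25137596936, nat_lit 20117610423, nat_lit 21849103232, nat_lit 25407268671, nat_lit 24313267777], nat_lit 1271250, nat_lit 1271250, nat_lit 545600, nat_lit 1744500, nat_lit 0, nat_lit 1638500, [nat_lit 490000, nat_lit 1100000, nat_lit 1442500], [nat_lit 6, nat_lit 40, nat_lit 40, nat_lit 80, nat_lit 3, nat_lit 345, nat_lit 125, nat_lit 13]⟩, ⟨p081_k13, nat_lit 0, nat_lit 0, nat_lit 846, nat_lit 0, nat_lit 1128756, [nat_lit 0, nat_lit 0, nat_lit 0], [], [nat_lit 0, nat_lit 0, nat_lit 0, nat_lit 0, nat_lit 0, nat_lit 0, nat_lit 0, nat_lit 0], nat_lit 1271250, nat_lit 1271250, nat_lit 545600, nat_lit 1744500, nat_lit 0, nat_lit 2373000, [nat_lit 1100000, nat_lit 1785000, nat_lit 1271250], [nat_lit 21, nat_lit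 40, nat_lit 40, nat_lit 80, nat_lit 14, nat_lit 456, nat_lit 225, nat_lit 12]⟩,
 ⟨nat_lit 3162, nat_lit 3873, ⟨.ofNat (nat_lit 362778), .ofNat (nat_lit 608082), .ofNat (nat_lit 406307), .ofNat (nat_lit 651611), .ofNat (nat_lit 373492), .ofNat (nat_lit 605237), .ofNat (nat_lit 417744), .ofNat (nat_lit 649490)⟩, ⟨.ofNat (nat_lit 0), .ofNat (nat_lit 377270), .ofNat (nat_lit 0), .ofNat (nat_lit 420856), .ofNat (nat_lit 0), .ofNat (nat_lit 371522), .ofNat (nat_lit 0), .ofNat (nat_lit 415832)⟩⟩, [⟨nat_lit 4, nat_lit 100, nat_lit 66, nat_lit 72, nat_lit 168517583⟩]⟩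
noncomputable def p081_l155 : Lf2 := ⟨nat_lit 0, nat_lit 10, [nat_lit 0, nat_lit 5, nat_lit 5, nat_lit 20], false, nat_lit 0, nat_lit 260, nat_lit 0, nat_lit 336, ⟨nat_lit 357, nat_lit 643, nat_lit 0, nat_lit 6, nat_lit 305, nat_lit 643, nat_lit 90, nat_lit 0, nat_lit 0, nat_lit 0, nat_lit 0, nat_lit 0, nat_lit 0, nat_lit 0, nat_lit 0, nat_lit 5000000, true, true⟩,
 nat_lit 5650, nat_lit 0, nat_lit 0, nat_lit 0, nat_lit 4237, nat_lit 2991, nat_lit 1, nat_lit 0, nat_lit 0, nat_lit 252, nat_lit 0, nat_lit 0, nat_lit 0, nat_lit 0, nat_lit 0, nat_lit 643000, nat_lit 0, nat_lit 0, [(nat_lit 18, [(nat_lit 2, nat_lit 643)])],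
 ⟨p081_k10, nat_lit 0, nat_lit 0, nat_lit 362, nat_lit 0, nat_lit 578824, [nat_lit 1819724267, nat_lit 2345765334, nat_lit 1946272400], [], [nat_lit 26172044831, nat_lit 26573331756, nat_lit 32807562085, nat_lit 33390357387, nat_lit 26780927001, nat_lit 27093134427, nat_lit 30960970103, nat_lit 31203769178], nat_lit 1271250, nat_lit 1271250, nat_lit 1271250, nat_lit 1271250, nat_lit 0, nat_lit 1836250, [nat_lit 490000, nat_lit 1100000, nat_lit 1442500], [nat_lit 6, nat_lit 40, nat_lit 40, nat_lit 80, nat_lit 3, nat_lit 289, nat_lit 75, nat_lit 10]⟩, ⟨p081_k13, nat_lit 0, nat_lit 0, nat_lit 668, nat_lit 0, nat_lit 886709, [nat_lit 1673616000, nat_lit 2844576000, nat_lit 4238304000], [], [nat_lit 13914037464, nat_lit 14142123552, nat_lit 15302340938, nat_lit 15366562425, nat_lit 12338810192, nat_lit 12440413500, nat_lit 13161593306, nat_lit 13143985217], nat_lit 1271250, nat_lit 1271250, nat_lit 1271250, nat_lit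 1271250, nat_lit 0, nat_lit 2373000, [nat_lit 1100000, nat_lit 1785000, nat_lit 1271250], [nat_lit 21, nat_lit 40, nat_lit 40, nat_lit 80, nat_lit 14, nat_lit 538, nat_lit 300, nat_lit 13]⟩,
 ⟨nat_lit 4183, nat_lit 4473, ⟨.ofNat (nat_lit 611104), .ofNat (nat_lit 876222), .ofNat (nat_lit 654228), .ofNat (nat_lit 919347), .ofNat (nat_lit 609582), .ofNat (nat_lit 867982), .ofNat (nat_lit 652907), .ofNat (nat_lit 911307)⟩, ⟨.negSucc (nat_lit 12423), .ofNat (nat_lit 429434), .ofNat (nat_lit 0), .ofNat (nat_lit 472567), .negSucc (nat_lit 4612), .ofNat (nat_lit 426048), .ofNat (nat_lit 0), .ofNat (nat_lit 469382)⟩⟩, [⟨nat_lit 13, nat_lit 82, nat_lit 38, nat_lit 100, nat_lit 51070996⟩, ⟨nat_lit 4, nat_lit 100, nat_lit 79, nat_lit 72, nat_lit 112632609⟩, ⟨nat_lit 7, nat_lit 92, nat_lit 100, nat_lit 75, nat_lit 45893953⟩]⟩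
noncomputable def p081_l156 : Lf2 := ⟨nat_lit 0, nat_lit 10, [nat_lit 0, nat_lit 5, nat_lit 5, nat_lit 20], false, nat_lit 0, nat_lit 244, nat_lit 0, nat_lit 336, ⟨nat_lit 329, nat_lit 671, nat_lit 0, nat_lit 6, nat_lit 302, nat_lit 671, nat_lit 84, nat_lit 0, nat_lit 0, nat_lit 0, nat_lit 0, nat_lit 0, nat_lit 0, nat_lit 0, nat_lit 0, nat_lit 5000000, true, true⟩,
 nat_lit 5233, nat_lit 0, nat_lit 0, nat_lit 0, nat_lit 4079, nat_lit 2770, nat_lit 406, nat_lit 0, nat_lit 0, nat_lit 225, nat_lit 0, nat_lit 0, nat_lit 0, nat_lit 0, nat_lit 0, nat_lit 383000, nat_lit 0, nat_lit 0, [(nat_lit 18, [(nat_lit 1, nat_lit 480), (nat_lit 2, nat_lit 191)])],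
 ⟨p081_k20, nat_lit 0, nat_lit 0, nat_lit 369, nat_lit 0, nat_lit 601889, [nat_lit 1664688534, nat_lit 2686010667, nat_lit 2912782800], [], [nat_lit 25879643599, nat_lit 26325850412, nat_lit 32639606148, nat_lit 33221297096, nat_lit 26574975428, nat_lit 26907830162, nat_lit 30537518287, nat_lit 30779756555], nat_lit 1271250, nat_lit 1271250, nat_lit 1271250, nat_lit 1271250, nat_lit 0, nat_lit 1723250, [nat_lit 490000, nat_lit 1100000, nat_lit 1442500], [nat_lit 6, nat_lit 40, nat_lit 40, nat_lit 80, nat_lit 3, nat_lit 289, nat_lit 75, nat_lit 10]⟩, ⟨p081_k13, nat_lit 0, nat_lit 0, nat_lit 698, nat_lit 0, nat_lit 965327, [nat_lit 1542352000, nat_lit 2621472000, nat_lit 3905888000], [], [nat_lit 12828694568, nat_lit 13038641908, nat_lit 14064966170, nat_lit 14127391318, nat_lit 11359454914, nat_lit 11406915455, nat_lit 12042049567, nat_lit 12027711744], nat_lit 1271250, nat_lit 1271250, nat_lit 1271250, nat_lit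 1271250, nat_lit 0, nat_lit 2373000, [nat_lit 1100000, nat_lit 1785000, nat_lit 1271250], [nat_lit 21, nat_lit 40, nat_lit 40, nat_lit 80, nat_lit 14, nat_lit 538, nat_lit 300, nat_lit 13]⟩,
 ⟨nat_lit 3872, nat_lit 4184, ⟨.ofNat (nat_lit 609582), .ofNat (nat_lit 861359), .ofNat (nat_lit 652906), .ofNat (nat_lit 904688), .ofNat (nat_lit 608101), .ofNat (nat_lit 853289), .ofNat (nat_lit 651678), .ofNat (nat_lit 896871)⟩, ⟨.negSucc (nat_lit 4619), .ofNat (nat_lit 399546), .ofNat (nat_lit 0), .ofNat (nat_lit 442879), .ofNat (nat_lit 0), .ofNat (nat_lit 396626), .ofNat (nat_lit 0), .ofNat (nat_lit 440213)⟩⟩, [⟨nat_lit 13, nat_lit 77, nat_lit 44, nat_lit 100, nat_lit 69048847⟩, ⟨nat_lit 4, nat_lit 100, nat_lit 74, nat_lit 72, nat_lit 97472941⟩, ⟨nat_lit 7, nat_lit 92, nat_lit 100, nat_lit 75, nat_lit 41238443⟩]⟩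
noncomputable def p081_l157 : Lf2 := ⟨nat_lit 0, nat_lit 10, [nat_lit 0, nat_lit 5, nat_lit 5, nat_lit 20], false, nat_lit 0, nat_lit 232, nat_lit 0, nat_lit 336, ⟨nat_lit 277, nat_lit 723, nat_lit 0, nat_lit 6, nat_lit 298, nat_lit 723, nat_lit 79, nat_lit 0, nat_lit 0, nat_lit 0, nat_lit 0, nat_lit 0, nat_lit 0, nat_lit 0, nat_lit 0, nat_lit 5000000, true, true⟩,
 nat_lit 4496, nat_lit 0, nat_lit 0, nat_lit 0, nat_lit 3639, nat_lit 2379, nat_lit 380, nat_lit 0, nat_lit 0, nat_lit 185, nat_lit 0, nat_lit 0, nat_lit 0, nat_lit 0, nat_lit 0, nat_lit 289200, nat_lit 0, nat_lit 0, [(nat_lit 21, [(nat_lit 1, nat_lit 723)])],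
 ⟨p081_k16, nat_lit 0, nat_lit 0, nat_lit 403, nat_lit 0, nat_lit 673088, [nat_lit 1542673600, nat_lit 2377870400, nat_lit 2809966000], [], [nat_lit 25094263546, nat_lit 26004628856, nat_lit 31690702152, nat_lit 32814826514, nat_lit 26342113383, nat_lit 27038887334, nat_lit 30354190363, nat_lit 30925106987], nat_lit 1271250, nat_lit 1271250, nat_lit 1271250, nat_lit 1271250, nat_lit 0, nat_lit 1638500, [nat_lit 490000, nat_lit 1100000, nat_lit 1442500], [nat_lit 6, nat_lit 40, nat_lit 40, nat_lit 80, nat_lit 3, nat_lit 272, nat_lit 60, nat_lit 9]⟩, ⟨p081_k13, nat_lit 0, nat_lit 0, nat_lit 761, nat_lit 0, nat_lit 1128756, [nat_lit 1298576000, nat_lit 2207136000, nat_lit 3288544000], [], [nat_lit 11266375980, nat_lit 11354385168, nat_lit 11913848525, nat_lit 11950558046, nat_lit 9805282397, nat_lit 9817682465, nat_lit 10116196237, nat_lit 10072905178], nat_lit 1271250, nat_lit 1271250, nat_lit 1271250, nat_lit 1271250,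 nat_lit 0, nat_lit 2373000, [nat_lit 1100000, nat_lit 1785000, nat_lit 1271250], [nat_lit 21, nat_lit 40, nat_lit 40, nat_lit 80, nat_lit 14, nat_lit 538, nat_lit 300, nat_lit 13]⟩,
 ⟨nat_lit 3162, nat_lit 3873, ⟨.ofNat (nat_lit 608082), .ofNat (nat_lit 846836), .ofNat (nat_lit 651611), .ofNat (nat_lit 890423), .ofNat (nat_lit 605237), .ofNat (nat_lit 830789), .ofNat (nat_lit 649490), .ofNat (nat_lit 875099)⟩, ⟨.ofNat (nat_lit 0), .ofNat (nat_lit 377270), .ofNat (nat_lit 0), .ofNat (nat_lit 420856), .ofNat (nat_lit 0), .ofNat (nat_lit 371522), .ofNat (nat_lit 0), .ofNat (nat_lit 415832)⟩⟩, [⟨nat_lit 13, nat_lit 69, nat_lit 54, nat_lit 100, nat_lit 115005284⟩, ⟨nat_lit 4, nat_lit 100, nat_lit 66, nat_lit 72, nat_lit 117280421⟩, ⟨nat_lit 19, nat_lit 100, nat_lit 92, nat_lit 75, nat_lit 32533993⟩]⟩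
noncomputable def b_V_800_600_10_10 : St := ⟨true, nat_lit 1, nat_lit 2, nat_lit 2, nat_lit 80, nat_lit 320, nat_lit 360, nat_lit 240, nat_lit 280, nat_lit 64, nat_lit 396, nat_lit 40, nat_lit 80, nat_lit 0, nat_lit 260, nat_lit 0, nat_lit 336, nat_lit 0, nat_lit 40, nat_lit 0, nat_lit 0, nat_lit 0, nat_lit 0⟩
theorem d_V_800_600_10_10 (h : EB TB.env) : Dead b_V_800_600_10_10 := chkB_sound0 h (T :=
(.st (nat_lit 1)
(.spl (nat_lit 2) (nat_lit 240)
(.spl (nat_lit 0) (nat_lit 340)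
(.spl (nat_lit 4) (nat_lit 160)
(.spl (nat_lit 0) (nat_lit 330)
(.spl (nat_lit 1) (nat_lit 260)
(.leaf p081_l138)
(.trZ (nat_lit 0) (nat_lit 100) (nat_lit 84) (nat_lit 85) (nat_lit 80) (.trX (nat_lit 19) (nat_lit 100) (nat_lit 85) (nat_lit 84) (nat_lit 320) (.leaf p081_l139))))
(.trZ (nat_lit 0) (nat_lit 100) (nat_lit 78) (nat_lit 81) (nat_lit 76) (.leaf p081_l140)))
(.spl (nat_lit 3) (nat_lit 60)
(.trX (nat_lit 16) (nat_lit 81) (nat_lit 100) (nat_lit 72) (nat_lit 232) (.trX (nat_lit 19) (nat_lit 100) (nat_lit 85) (nat_lit 73) (nat_lit 312) (.spl (nat_lit 0) (nat_lit 330)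
(.leaf p081_l141)
(.trZ (nat_lit 0) (nat_lit 100) (nat_lit 78) (nat_lit 81) (nat_lit 76) (.trX (nat_lit 16) (nat_lit 76) (nat_lit 100) (nat_lit 72) (nat_lit 220) (.leaf p081_l142))))))
(.spl (nat_lit 0) (nat_lit 330)
(.leaf p081_l143)
(.trZ (nat_lit 0) (nat_lit 100) (nat_lit 78) (nat_lit 81) (nat_lit 76) (.trX (nat_lit 16) (nat_lit 78) (nat_lit 100) (nat_lit 82) (nat_lit 244) (.leaf p081_l144))))))
(.trZ (nat_lit 0) (nat_lit 100) (nat_lit 73) (nat_lit 85) (nat_lit 88) (.trX (nat_lit 16) (nat_lit 72) (nat_lit 100) (nat_lit 81) (nat_lit 232) (.spl (nat_lit 0) (nat_lit 350)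
(.leaf p081_l145)
(.trZ (nat_lit 0) (nat_lit 100) (nat_lit 68) (nat_lit 89) (nat_lit 100) (.trX (nat_lit 16) (nat_lit 66) (nat_lit 100) (nat_lit 80) (nat_lit 216) (.leaf p081_l146)))))))
(.spl (nat_lit 5) (nat_lit 160)
(.spl (nat_lit 0) (nat_lit 340)
(.leaf p081_l147)
(.trX (nat_lit 13) (nat_lit 78) (nat_lit 39) (nat_lit 100) (nat_lit 388) (.trX (nat_lit 16) (nat_lit 72) (nat_lit 100) (nat_lit 81) (nat_lit 232) (.leaf p081_l148))))
(.spl (nat_lit 0) (nat_lit 340)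
(.spl (nat_lit 0) (nat_lit 330)
(.leaf p081_l149)
(.trX (nat_lit 13) (nat_lit 83) (nat_lit 32) (nat_lit 100) (nat_lit 392) (.trX (nat_lit 16) (nat_lit 78) (nat_lit 100) (nat_lit 82) (nat_lit 244) (.leaf p081_l150))))
(.trX (nat_lit 13) (nat_lit 78) (nat_lit 39) (nat_lit 100) (nat_lit 388) (.trX (nat_lit 16) (nat_lit 72) (nat_lit 100) (nat_lit 81) (nat_lit 232) (.leaf p081_l151))))))
(.spl (nat_lit 2) (nat_lit 240)
(.spl (nat_lit 0) (nat_lit 340)
(.spl (nat_lit 0) (nat_lit 330)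
(.leaf p081_l152)
(.trZ (nat_lit 0) (nat_lit 100) (nat_lit 78) (nat_lit 81) (nat_lit 76) (.trX (nat_lit 16) (nat_lit 78) (nat_lit 100) (nat_lit 82) (nat_lit 244) (.leaf p081_l153))))
(.trZ (nat_lit 0) (nat_lit 100) (nat_lit 73) (nat_lit 85) (nat_lit 88) (.trX (nat_lit 16) (nat_lit 72) (nat_lit 100) (nat_lit 81) (nat_lit 232) (.leaf p081_l154))))
(.spl (nat_lit 0) (nat_lit 340)
(.spl (nat_lit 0) (nat_lit 330)
(.leaf p081_l155)
(.trX (nat_lit 13) (nat_lit 83) (nat_lit 32) (nat_lit 100) (nat_lit 392) (.trX (nat_lit 16) (nat_lit 78) (nat_lit 100) (nat_lit 82) (nat_lit 244) (.leaf p081_l156))))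
(.trX (nat_lit 13) (nat_lit 78) (nat_lit 39) (nat_lit 100) (nat_lit 388) (.trX (nat_lit 16) (nat_lit 72) (nat_lit 100) (nat_lit 81) (nat_lit 232) (.leaf p081_l157))))))) (by decide +kernel)

end B2
end Pool.Agent.Lib.MP_6947cd_al
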