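import Pool.Agent.Lib.MP_6947cd_al.ZB.Pre

/-!
Problem MP_6947cd_al (Chollet).  Case B, second entry in [2/5, 17/20]: certificates of the tree, part P082 (generated).
-/

set_option autoImplicit false
set_option linter.all false

namespace Pool.Agent.Lib.MP_6947cd_al
namespace B2

open Ent Fr B1 PkA

noncomputable def p082_k0 : C1.Kn := ⟨[nat_lit 40, nat_lit 80, nat_lit 140], [nat_lit 0, nat_lit 0, nat_lit 3199], [(nat_lit 0, nat_lit 0, nat_lit 0), (nat_lit 0, nat_lit 0, nat_lit 0), (nat_lit 1000, nat_lit 833, nat_lit 833)], (nat_lit 83, nat_lit 100, nat_lit 83)⟩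
noncomputable def p082_k1 : C1.Kn := ⟨[nat_lit 40, nat_lit 140], [nat_lit 0, nat_lit 0], [(nat_lit 0, nat_lit 0, nat_lit 0), (nat_lit 0, nat_lit 0, nat_lit 0)], (nat_lit 83, nat_lit 100, nat_lit 83)⟩
noncomputable def p082_k2 : C1.Kn := ⟨[nat_lit 40, nat_lit 100, nat_lit 140], [nat_lit 0, nat_lit 0, nat_lit 3243], [(nat_lit 0, nat_lit 0, nat_lit 0), (nat_lit 0, nat_lit 0, nat_lit 0), (nat_lit 1000, nat_lit 870, nat_lit 941)], (nat_lit 83, nat_lit 100, nat_lit 83)⟩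
noncomputable def p082_k3 : C1.Kn := ⟨[nat_lit 80, nat_lit 140, nat_lit 180], [nat_lit 0, nat_lit 0, nat_lit 3656], [(nat_lit 0, nat_lit 0, nat_lit 0), (nat_lit 0, nat_lit 0, nat_lit 0), (nat_lit 637, nat_lit 1000, nat_lit 908)], (nat_lit 100, nat_lit 76, nat_lit 82)⟩
noncomputable def p082_k4 : C1.Kn := ⟨[nat_lit 40, nat_lit 120], [nat_lit 0, nat_lit 1589], [(nat_lit 0, nat_lit 0, nat_lit 0), (nat_lit 1000, nat_lit 814, nat_lit 310)], (nat_lit 72, nat_lit 100, nat_lit 81)⟩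
noncomputable def p082_k5 : C1.Kn := ⟨[nat_lit 80, nat_lit 180], [nat_lit 0, nat_lit 0], [(nat_lit 0, nat_lit 0, nat_lit 0), (nat_lit 0, nat_lit 0, nat_lit 0)], (nat_lit 100, nat_lit 76, nat_lit 82)⟩
noncomputable def p082_k6 : C1.Kn := ⟨[nat_lit 80, nat_lit 120, nat_lit 180], [nat_lit 0, nat_lit 0, nat_lit 3196], [(nat_lit 0, nat_lit 0, nat_lit 0), (nat_lit 0, nat_lit 0, nat_lit 0), (nat_lit 858, nat_lit 1000, nat_lit 713)], (nat_lit 100, nat_lit 76, nat_lit 82)⟩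
noncomputable def p082_k7 : C1.Kn := ⟨[nat_lit 40, nat_lit 80, nat_lit 120], [nat_lit 0, nat_lit 795, nat_lit 2800], [(nat_lit 0, nat_lit 0, nat_lit 0), (nat_lit 1000, nat_lit 814, nat_lit 310), (nat_lit 1000, nat_lit 719, nat_lit 783)], (nat_lit 72, nat_lit 100, nat_lit 81)⟩
noncomputable def p082_k8 : C1.Kn := ⟨[nat_lit 40, nat_lit 80, nat_lit 120], [nat_lit 0, nat_lit 0, nat_lit 2151], [(nat_lit 0, nat_lit 0, nat_lit 0), (nat_lit 0, nat_lit 0, nat_lit 0), (nat_lit 1000, nat_lit 815, nat_lit 753)], (nat_lit 81, nat_lit 100, nat_lit 72)⟩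
noncomputable def p082_k9 : C1.Kn := ⟨[nat_lit 80, nat_lit 120, nat_lit 160], [nat_lit 0, nat_lit 528, nat_lit 2577], [(nat_lit 0, nat_lit 0, nat_lit 0), (nat_lit 1000, nat_lit 959, nat_lit 206), (nat_lit 929, nat_lit 1000, nat_lit 742)], (nat_lit 100, nat_lit 92, nat_lit 75)⟩
noncomputable def p082_k10 : C1.Kn := ⟨[nat_lit 80, nat_lit 120, nat_lit 160], [nat_lit 0, nat_lit 528, nat_lit 2577], [(nat_lit 0, nat_lit 0, nat_lit 0), (nat_lit 1000, nat_lit 959, nat_lit 206), (nat_lit 929, nat_lit 1000, nat_lit 742)], (nat_lit 100, nat_lit 85, nat_lit 84)⟩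
noncomputable def p082_k11 : C1.Kn := ⟨[nat_lit 80, nat_lit 120, nat_lit 160], [nat_lit 0, nat_lit 796, nat_lit 2802], [(nat_lit 0, nat_lit 0, nat_lit 0), (nat_lit 1000, nat_lit 938, nat_lit 310), (nat_lit 969, nat_lit 1000, nat_lit 759)], (nat_lit 100, nat_lit 90, nat_lit 85)⟩
noncomputable def p082_k12 : C1.Kn := ⟨[nat_lit 80, nat_lit 120, nat_lit 160], [nat_lit 0, nat_lit 0, nat_lit 2132], [(nat_lit 0, nat_lit 0, nat_lit 0), (nat_lit 0, nat_lit 0, nat_lit 0), (nat_lit 858, nat_lit 1000, nat_lit 713)], (nat_lit 100, nat_lit 85, nat_lit 73)⟩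
noncomputable def p082_k13 : C1.Kn := ⟨[nat_lit 40, nat_lit 80, nat_lit 120], [nat_lit 0, nat_lit 395, nat_lit 2466], [(nat_lit 0, nat_lit 0, nat_lit 0), (nat_lit 1000, nat_lit 908, nat_lit 154), (nat_lit 1000, nat_lit 773, nat_lit 792)], (nat_lit 76, nat_lit 100, nat_lit 72)⟩
noncomputable def p082_k14 : C1.Kn := ⟨[nat_lit 80, nat_lit 120, nat_lit 180], [nat_lit 0, nat_lit 264, nat_lit 3394], [(nat_lit 0, nat_lit 0, nat_lit 0), (nat_lit 1000, nat_lit 979, nat_lit 103), (nat_lit 893, nat_lit 1000, nat_lit 726)], (nat_lit 100, nat_lit 81, nat_lit 83)⟩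
noncomputable def p082_k15 : C1.Kn := ⟨[nat_lit 40, nat_lit 80, nat_lit 120], [nat_lit 0, nat_lit 795, nat_lit 2800], [(nat_lit 0, nat_lit 0, nat_lit 0), (nat_lit 1000, nat_lit 814, nat_lit 310), (nat_lit 1000, nat_lit 719, nat_lit 783)], (nat_lit 71, nat_lit 100, nat_lit 71)⟩
noncomputable def p082_k16 : C1.Kn := ⟨[nat_lit 40, nat_lit 80, nat_lit 100], [nat_lit 0, nat_lit 1195, nat_lit 2166], [(nat_lit 0, nat_lit 0, nat_lit 0), (nat_lit 1000, nat_lit 720, nat_lit 465), (nat_lit 1000, nat_lit 662, nat_lit 740)], (nat_lit 66, nat_lit 100, nat_lit 72)⟩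
noncomputable def p082_k17 : C1.Kn := ⟨[nat_lit 40, nat_lit 80, nat_lit 120], [nat_lit 0, nat_lit 1195, nat_lit 3135], [(nat_lit 0, nat_lit 0, nat_lit 0), (nat_lit 1000, nat_lit 720, nat_lit 465), (nat_lit 1000, nat_lit 661, nat_lit 757)], (nat_lit 66, nat_lit 100, nat_lit 80)⟩
noncomputable def p082_k18 : C1.Kn := ⟨[nat_lit 40, nat_lit 100, nat_lit 120], [nat_lit 0, nat_lit 1192, nat_lit 2817], [(nat_lit 0, nat_lit 0, nat_lit 0), (nat_lit 1000, nat_lit 814, nat_lit 310), (nat_lit 1000, nat_lit 727, nat_lit 834)], (nat_lit 72, nat_lit 100, nat_lit 81)⟩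
noncomputable def p082_k19 : C1.Kn := ⟨[nat_lit 80, nat_lit 120, nat_lit 160], [nat_lit 0, nat_lit 264, nat_lit 2353], [(nat_lit 0, nat_lit 0, nat_lit 0), (nat_lit 1000, nat_lit 979, nat_lit 103), (nat_lit 893, nat_lit 1000, nat_lit 726)], (nat_lit 100, nat_lit 88, nat_lit 74)⟩
noncomputable def p082_k20 : C1.Kn := ⟨[nat_lit 40, nat_lit 80, nat_lit 140], [nat_lit 0, nat_lit 395, nat_lit 3500], [(nat_lit 0, nat_lit 0, nat_lit 0), (nat_lit 1000, nat_lit 908, nat_lit 154), (nat_lit 1000, nat_lit 776, nat_lit 808)], (nat_lit 78, nat_lit 100, nat_lit 82)⟩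
noncomputable def p082_k21 : C1.Kn := ⟨[nat_lit 40, nat_lit 80, nat_lit 100], [nat_lit 0, nat_lit 994, nat_lit 1992], [(nat_lit 0, nat_lit 0, nat_lit 0), (nat_lit 1000, nat_lit 767, nat_lit 387), (nat_lit 1000, nat_lit 689, nat_lit 725)], (nat_lit 69, nat_lit 100, nat_lit 71)⟩
noncomputable def p082_k22 : C1.Kn := ⟨[nat_lit 40, nat_lit 60, nat_lit 100], [nat_lit 0, nat_lit 600, nat_lit 1790], [(nat_lit 0, nat_lit 0, nat_lit 0), (nat_lit 1000, nat_lit 725, nat_lit 454), (nat_lit 1000, nat_lit 720, nat_lit 465)], (nat_lit 66, nat_lit 100, nat_lit 72)⟩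
noncomputable def p082_k23 : C1.Kn := ⟨[nat_lit 80, nat_lit 100, nat_lit 160], [nat_lit 0, nat_lit 0, nat_lit 1533], [(nat_lit 0, nat_lit 0, nat_lit 0), (nat_lit 0, nat_lit 0, nat_lit 0), (nat_lit 1000, nat_lit 1000, nat_lit 399)], (nat_lit 100, nat_lit 85, nat_lit 73)⟩
noncomputable def p082_k24 : C1.Kn := ⟨[nat_lit 40, nat_lit 60, nat_lit 100], [nat_lit 0, nat_lit 499, nat_lit 1679], [(nat_lit 0, nat_lit 0, nat_lit 0), (nat_lit 1000, nat_lit 767, nat_lit 387), (nat_lit 1000, nat_lit 738, nat_lit 461)], (nat_lit 69, nat_lit 100, nat_lit 71)⟩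
noncomputable def p082_k25 : C1.Kn := ⟨[nat_lit 80, nat_lit 100, nat_lit 160], [nat_lit 0, nat_lit 132, nat_lit 1656], [(nat_lit 0, nat_lit 0, nat_lit 0), (nat_lit 1000, nat_lit 979, nat_lit 103), (nat_lit 1000, nat_lit 979, nat_lit 397)], (nat_lit 100, nat_lit 88, nat_lit 74)⟩
noncomputable def p082_k26 : C1.Kn := ⟨[nat_lit 80, nat_lit 120, nat_lit 160], [nat_lit 0, nat_lit 395, nat_lit 2466], [(nat_lit 0, nat_lit 0, nat_lit 0), (nat_lit 1000, nat_lit 969, nat_lit 154), (nat_lit 910, nat_lit 1000, nat_lit 734)], (nat_lit 100, nat_lit 90, nat_lit 74)⟩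
noncomputable def p082_k27 : C1.Kn := ⟨[nat_lit 80, nat_lit 120, nat_lit 180], [nat_lit 0, nat_lit 130, nat_lit 3294], [(nat_lit 0, nat_lit 0, nat_lit 0), (nat_lit 1000, nat_lit 990, nat_lit 51), (nat_lit 875, nat_lit 1000, nat_lit 719)], (nat_lit 100, nat_lit 78, nat_lit 82)⟩
noncomputable def p082_k28 : C1.Kn := ⟨[nat_lit 80, nat_lit 120, nat_lit 180], [nat_lit 0, nat_lit 395, nat_lit 3498], [(nat_lit 0, nat_lit 0, nat_lit 0), (nat_lit 1000, nat_lit 969, nat_lit 154), (nat_lit 910, nat_lit 1000, nat_lit 734)], (nat_lit 100, nat_lit 83, nat_lit 83)⟩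
noncomputable def p082_k29 : C1.Kn := ⟨[nat_lit 80, nat_lit 100, nat_lit 160], [nat_lit 0, nat_lit 265, nat_lit 1771], [(nat_lit 0, nat_lit 0, nat_lit 0), (nat_lit 1000, nat_lit 959, nat_lit 206), (nat_lit 1000, nat_lit 958, nat_lit 392)], (nat_lit 100, nat_lit 92, nat_lit 75)⟩
noncomputable def p082_k30 : C1.Kn := ⟨[nat_lit 80, nat_lit 120, nat_lit 160], [nat_lit 0, nat_lit 796, nat_lit 2802], [(nat_lit 0, nat_lit 0, nat_lit 0), (nat_lit 1000, nat_lit 938, nat_lit 310), (nat_lit 969, nat_lit 1000, nat_lit 759)], (nat_lit 100, nat_lit 97, nat_lit 76)⟩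
noncomputable def p082_k31 : C1.Kn := ⟨[nat_lit 40, nat_lit 60, nat_lit 120], [nat_lit 0, nat_lit 398, nat_lit 2180], [(nat_lit 0, nat_lit 0, nat_lit 0), (nat_lit 1000, nat_lit 814, nat_lit 310), (nat_lit 1000, nat_lit 752, nat_lit 464)], (nat_lit 72, nat_lit 100, nat_lit 81)⟩
noncomputable def p082_k32 : C1.Kn := ⟨[nat_lit 80, nat_lit 100, nat_lit 160], [nat_lit 0, nat_lit 265, nat_lit 1771], [(nat_lit 0, nat_lit 0, nat_lit 0), (nat_lit 1000, nat_lit 959, nat_lit 206), (nat_lit 1000, nat_lit 958, nat_lit 392)], (nat_lit 100, nat_lit 85, nat_lit 84)⟩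
noncomputable def p082_k33 : C1.Kn := ⟨[nat_lit 80, nat_lit 100, nat_lit 160], [nat_lit 0, nat_lit 399, nat_lit 1893], [(nat_lit 0, nat_lit 0, nat_lit 0), (nat_lit 1000, nat_lit 938, nat_lit 310), (nat_lit 1000, nat_lit 938, nat_lit 389)], (nat_lit 100, nat_lit 90, nat_lit 85)⟩
noncomputable def p082_k34 : C1.Kn := ⟨[nat_lit 40, nat_lit 80, nat_lit 120], [nat_lit 0, nat_lit 1399, nat_lit 3299], [(nat_lit 0, nat_lit 0, nat_lit 0), (nat_lit 1000, nat_lit 672, nat_lit 546), (nat_lit 1000, nat_lit 633, nat_lit 742)], (nat_lit 63, nat_lit 100, nat_lit 80)⟩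
noncomputable def p082_k35 : C1.Kn := ⟨[nat_lit 80, nat_lit 120, nat_lit 160], [nat_lit 0, nat_lit 664, nat_lit 2688], [(nat_lit 0, nat_lit 0, nat_lit 0), (nat_lit 1000, nat_lit 948, nat_lit 259), (nat_lit 949, nat_lit 1000, nat_lit 749)], (nat_lit 100, nat_lit 87, nat_lit 85)⟩
noncomputable def p082_k36 : C1.Kn := ⟨[nat_lit 80, nat_lit 140, nat_lit 160], [nat_lit 0, nat_lit 1192, nat_lit 2947], [(nat_lit 0, nat_lit 0, nat_lit 0), (nat_lit 1000, nat_lit 938, nat_lit 310), (nat_lit 863, nat_lit 1000, nat_lit 890)], (nat_lit 100, nat_lit 90, nat_lit 85)⟩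
noncomputable def p082_k37 : C1.Kn := ⟨[nat_lit 80, nat_lit 140, nat_lit 160], [nat_lit 0, nat_lit 1393, nat_lit 3093], [(nat_lit 0, nat_lit 0, nat_lit 0), (nat_lit 1000, nat_lit 927, nat_lit 362), (nat_lit 870, nat_lit 1000, nat_lit 917)], (nat_lit 100, nat_lit 92, nat_lit 86)⟩
noncomputable def p082_l0 : Lf2 := ⟨nat_lit 0, nat_lit 20, [nat_lit 5, nat_lit 5, nat_lit 5, nat_lit 20], true, nat_lit 0, nat_lit 160, nat_lit 0, nat_lit 336, ⟨nat_lit 0, nat_lit 0, nat_lit 1000, nat_lit 6, nat_lit 169, nat_lit 646, nat_lit 57, nat_lit 1000, nat_lit 29400, nat_lit 257, nat_lit 15182, nat_lit 244, nat_lit 56818410, nat_lit 0, nat_lit 0, nat_lit 2130502, false, false⟩,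
 nat_lit 0, nat_lit 0, nat_lit 0, nat_lit 2997, nat_lit 2592, nat_lit 0, nat_lit 0, nat_lit 0, nat_lit 0, nat_lit 0, nat_lit 0, nat_lit 0, nat_lit 0, nat_lit 0, nat_lit 129, nat_lit 400000, nat_lit 0, nat_lit 0, [(nat_lit 19, [(nat_lit 5, nat_lit 1000)]), (nat_lit 22, [(nat_lit 5, nat_lit 1000)])],
 ⟨p082_k0, nat_lit 0, nat_lit 0, nat_lit 283, nat_lit 0, nat_lit 0, [nat_lit 2008000001, nat_lit 1613866667, nat_lit 268000000], [], [nat_lit 16785731586, nat_lit 19280594560, nat_lit 17838673730, nat_lit 19913789762, nat_lit 17324582230, nat_lit 19312451055, nat_lit 18341443842, nat_lit 20131517474], nat_lit 0, nat_lit 0, nat_lit 0, nat_lit 0, nat_lit 0, nat_lit 0, [], [nat_lit 27, nat_lit 40, nat_lit 40, nat_lit 80, nat_lit 13, nat_lit 317, nat_lit 100, nat_lit 9]⟩, C1.Rw.none,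
 ⟨nat_lit 3162, nat_lit 4473, ⟨.ofNat (nat_lit 311562), .ofNat (nat_lit 474896), .ofNat (nat_lit 354514), .ofNat (nat_lit 517847), .ofNat (nat_lit 336623), .ofNat (nat_lit 483097), .ofNat (nat_lit 380752), .ofNat (nat_lit 527226)⟩, ⟨.negSucc (nat_lit 12437), .ofNat (nat_lit 259488), .ofNat (nat_lit 0), .ofNat (nat_lit 302621), .ofNat (nat_lit 0), .ofNat (nat_lit 261805), .ofNat (nat_lit 0), .ofNat (nat_lit 306116)⟩⟩, [⟨nat_lit 0, nat_lit 100, nat_lit 75, nat_lit 92, nat_lit 10561841⟩]⟩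
noncomputable def p082_l1 : Lf2 := ⟨nat_lit 0, nat_lit 20, [nat_lit 5, nat_lit 5, nat_lit 5, nat_lit 20], true, nat_lit 160, nat_lit 260, nat_lit 0, nat_lit 336, ⟨nat_lit 0, nat_lit 0, nat_lit 1000, nat_lit 6, nat_lit 169, nat_lit 1000, nat_lit 145, nat_lit 1000, nat_lit 89743, nat_lit 288, nat_lit 15182, nat_lit 244, nat_lit 48921216, nat_lit 0, nat_lit 0, nat_lit 4114830, false, false⟩,
 nat_lit 0, nat_lit 0, nat_lit 0, nat_lit 4905, nat_lit 4047, nat_lit 0, nat_lit 0, nat_lit 0, nat_lit 0, nat_lit 0, nat_lit 0, nat_lit 0, nat_lit 0, nat_lit 0, nat_lit 81, nat_lit 249160, nat_lit 0, nat_lit 0, [(nat_lit 19, [(nat_lit 3, nat_lit 14), (nat_lit 4, nat_lit 986)]), (nat_lit 22, [(nat_lit 3, nat_lit 14), (nat_lit 4, nat_lit 986)])],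
 ⟨p082_k1, nat_lit 0, nat_lit 0, nat_lit 141, nat_lit 0, nat_lit 0, [nat_lit 2355344000, nat_lit 179794400], [], [nat_lit 17365102991, nat_lit 20074121907, nat_lit 17668635444, nat_lit 20075530272, nat_lit 20389139267, nat_lit 23550418465, nat_lit 20440142614, nat_lit 23395495532], nat_lit 0, nat_lit 0, nat_lit 0, nat_lit 0, nat_lit 0, nat_lit 0, [], [nat_lit 94, nat_lit 40, nat_lit 40, nat_lit 80, nat_lit 95, nat_lit 345, nat_lit 125, nat_lit 9]⟩, C1.Rw.none,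
 ⟨nat_lit 3162, nat_lit 4473, ⟨.ofNat (nat_lit 311562), .ofNat (nat_lit 474896), .ofNat (nat_lit 354514), .ofNat (nat_lit 517847), .ofNat (nat_lit 336623), .ofNat (nat_lit 483097), .ofNat (nat_lit 380752), .ofNat (nat_lit 527226)⟩, ⟨.ofNat (nat_lit 259488), .ofNat (nat_lit 429433), .ofNat (nat_lit 302621), .ofNat (nat_lit 472567), .ofNat (nat_lit 261805), .ofNat (nat_lit 414188), .ofNat (nat_lit 306116), .ofNat (nat_lit 458499)⟩⟩, [⟨nat_lit 0, nat_lit 100, nat_lit 75, nat_lit 92, nat_lit 65251833⟩, ⟨nat_lit 16, nat_lit 83, nat_lit 100, nat_lit 83, nat_lit 203679919⟩]⟩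
noncomputable def p082_l2 : Lf2 := ⟨nat_lit 0, nat_lit 20, [nat_lit 5, nat_lit 5, nat_lit 5, nat_lit 20], false, nat_lit 0, nat_lit 260, nat_lit 0, nat_lit 336, ⟨nat_lit 753, nat_lit 0, nat_lit 247, nat_lit 6, nat_lit 226, nat_lit 247, nat_lit 90, nat_lit 247, nat_lit 74817, nat_lit 282, nat_lit 37112, nat_lit 200, nat_lit 50788003, nat_lit 0, nat_lit 0, nat_lit 2766700, false, false⟩,
 nat_lit 0, nat_lit 0, nat_lit 0, nat_lit 6295, nat_lit 10017, nat_lit 10633, nat_lit 211, nat_lit 0, nat_lit 0, nat_lit 667, nat_lit 0, nat_lit 0, nat_lit 0, nat_lit 0, nat_lit 0, nat_lit 46930, nat_lit 0, nat_lit 0, [(nat_lit 19, [(nat_lit 3, nat_lit 247)])],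
 ⟨p082_k2, nat_lit 0, nat_lit 0, nat_lit 186, nat_lit 0, nat_lit 0, [nat_lit 5238652801, nat_lit 4540463600, nat_lit 7016912800], [], [nat_lit 28476114567, nat_lit 30937889661, nat_lit 30857242251, nat_lit 33626853698, nat_lit 23110198119, nat_lit 24748321685, nat_lit 24817063583, nat_lit 27003001152], nat_lit 0, nat_lit 0, nat_lit 0, nat_lit 0, nat_lit 0, nat_lit 0, [], [nat_lit 61, nat_lit 40, nat_lit 40, nat_lit 80, nat_lit 1, nat_lit 345, nat_lit 125, nat_lit 10]⟩, ⟨p082_k3, nat_lit 0, nat_lit 0, nat_lit 264, nat_lit 0, nat_lit 0, [nat_lit 3530064000, nat_lit 7411026000, nat_lit 10585674000], [], [nat_lit 24230777904, nat_lit 26670366252, nat_lit 25825946336, nat_lit 27745555184, nat_lit 19982117345, nat_lit 20918879862, nat_lit 20250561001, nat_lit 22463979230], nat_lit 0, nat_lit 0, nat_lit 0, nat_lit 0, nat_lit 0, nat_lit 0, [], [nat_lit 56, nat_lit 40, nat_lit 40, nat_lit 80, nat_lit 32, nat_lit 456, nat_lit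 225, nat_lit 11]⟩,
 ⟨nat_lit 3872, nat_lit 4473, ⟨.ofNat (nat_lit 475111), .ofNat (nat_lit 611083), .ofNat (nat_lit 518209), .ofNat (nat_lit 654181), .ofNat (nat_lit 479021), .ofNat (nat_lit 608080), .ofNat (nat_lit 522572), .ofNat (nat_lit 651631)⟩, ⟨.negSucc (nat_lit 12427), .ofNat (nat_lit 429434), .ofNat (nat_lit 0), .ofNat (nat_lit 472567), .ofNat (nat_lit 0), .ofNat (nat_lit 422435), .ofNat (nat_lit 0), .ofNat (nat_lit 466021)⟩⟩, [⟨nat_lit 7, nat_lit 92, nat_lit 100, nat_lit 75, nat_lit 75914236⟩]⟩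
noncomputable def p082_l3 : Lf2 := ⟨nat_lit 0, nat_lit 20, [nat_lit 5, nat_lit 5, nat_lit 5, nat_lit 20], false, nat_lit 0, nat_lit 232, nat_lit 0, nat_lit 336, ⟨nat_lit 558, nat_lit 0, nat_lit 442, nat_lit 6, nat_lit 226, nat_lit 442, nat_lit 79, nat_lit 442, nat_lit 58017, nat_lit 274, nat_lit 31972, nat_lit 200, nat_lit 50751041, nat_lit 0, nat_lit 0, nat_lit 2769845, false, false⟩,
 nat_lit 0, nat_lit 0, nat_lit 0, nat_lit 0, nat_lit 6822, nat_lit 10602, nat_lit 0, nat_lit 0, nat_lit 0, nat_lit 0, nat_lit 0, nat_lit 0, nat_lit 0, nat_lit 0, nat_lit 0, nat_lit 81770, nat_lit 0, nat_lit 0, [(nat_lit 22, [(nat_lit 3, nat_lit 442)])],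
 ⟨p082_k4, nat_lit 0, nat_lit 0, nat_lit 148, nat_lit 0, nat_lit 0, [nat_lit 3417404800, nat_lit 3699164000], [], [nat_lit 25631222840, nat_lit 27765811920, nat_lit 28120609868, nat_lit 30615053176, nat_lit 22779380939, nat_lit 24308117219, nat_lit 24421443229, nat_lit 25922555289], nat_lit 0, nat_lit 0, nat_lit 0, nat_lit 0, nat_lit 0, nat_lit 0, [], [nat_lit 110, nat_lit 40, nat_lit 40, nat_lit 80, nat_lit 109, nat_lit 345, nat_lit 125, nat_lit 11]⟩, ⟨p082_k5, nat_lit 0, nat_lit 0, nat_lit 228, nat_lit 0, nat_lit 0, [nat_lit 2615904000, nat_lit 7844364000], [], [nat_lit 25170737184, nat_lit 27374366232, nat_lit 26361951120, nat_lit 28061400384, nat_lit 19513080101, nat_lit 20264705208, nat_lit 18887330866, nat_lit 19362009860], nat_lit 0, nat_lit 0, nat_lit 0, nat_lit 0, nat_lit 0, nat_lit 0, [], [nat_lit 145, nat_lit 40, nat_lit 40, nat_lit 80, nat_lit 144, nat_lit 456, nat_lit 225, nat_lit 11]⟩,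
 ⟨nat_lit 3162, nat_lit 3873, ⟨.ofNat (nat_lit 478975), .ofNat (nat_lit 608082), .ofNat (nat_lit 522504), .ofNat (nat_lit 651611), .ofNat (nat_lit 483267), .ofNat (nat_lit 605237), .ofNat (nat_lit 527519), .ofNat (nat_lit 649490)⟩, ⟨.ofNat (nat_lit 0), .ofNat (nat_lit 377270), .ofNat (nat_lit 0), .ofNat (nat_lit 420856), .ofNat (nat_lit 0), .ofNat (nat_lit 371522), .ofNat (nat_lit 0), .ofNat (nat_lit 415832)⟩⟩, []⟩
noncomputable def p082_l4 : Lf2 := ⟨nat_lit 0, nat_lit 20, [nat_lit 5, nat_lit 5, nat_lit 5, nat_lit 20], false, nat_lit 0, nat_lit 260, nat_lit 0, nat_lit 336, ⟨nat_lit 1000, nat_lit 0, nat_lit 0, nat_lit 0, nat_lit 0, nat_lit 0, nat_lit 0, nat_lit 0, nat_lit 0, nat_lit 0, nat_lit 0, nat_lit 0, nat_lit 0, nat_lit 0, nat_lit 0, nat_lit 0, false, false⟩,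
 nat_lit 0, nat_lit 0, nat_lit 0, nat_lit 1265, nat_lit 7867, nat_lit 9859, nat_lit 200, nat_lit 0, nat_lit 0, nat_lit 759, nat_lit 0, nat_lit 0, nat_lit 0, nat_lit 0, nat_lit 0, nat_lit 0, nat_lit 0, nat_lit 0, [],
 ⟨p082_k2, nat_lit 0, nat_lit 0, nat_lit 224, nat_lit 0, nat_lit 0, [nat_lit 2032000001, nat_lit 6250000000, nat_lit 9842000000], [], [nat_lit 33352550876, nat_lit 36465467980, nat_lit 43050842770, nat_lit 46028634390, nat_lit 29384674854, nat_lit 31246763885, nat_lit 35673521287, nat_lit 37150331177], nat_lit 0, nat_lit 0, nat_lit 0, nat_lit 0, nat_lit 0, nat_lit 0, [], [nat_lit 61, nat_lit 40, nat_lit 40, nat_lit 80, nat_lit 1, nat_lit 401, nat_lit 175, nat_lit 11]⟩, ⟨p082_k3, nat_lit 0, nat_lit 0, nat_lit 291, nat_lit 0, nat_lit 0, [nat_lit 4688000000, nat_lit 9842000000, nat_lit 14058000000], [], [nat_lit 33277451544, nat_lit 35393200460, nat_lit 44341815033, nat_lit 45303660946, nat_lit 29691764660,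 nat_lit 31056642181, nat_lit 37413332422, nat_lit 38470572606], nat_lit 0, nat_lit 0, nat_lit 0, nat_lit 0, nat_lit 0, nat_lit 0, [], [nat_lit 56, nat_lit 40, nat_lit 40, nat_lit 80, nat_lit 32, nat_lit 538, nat_lit 300, nat_lit 12]⟩,
 zbF0, [⟨nat_lit 19, nat_lit 100, nat_lit 76, nat_lit 82, nat_lit 105211992⟩]⟩
noncomputable def b_V_800_600_10_11 : St := ⟨true, nat_lit 0, nat_lit 0, nat_lit 1, nat_lit 80, nat_lit 320, nat_lit 360, nat_lit 240, nat_lit 280, nat_lit 64, nat_lit 396, nat_lit 40, nat_lit 80, nat_lit 0, nat_lit 260, nat_lit 0, nat_lit 336, nat_lit 40, nat_lit 80, nat_lit 0, nat_lit 0, nat_lit 0, nat_lit 0⟩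
theorem d_V_800_600_10_11 (h : EB TB.env) : Dead b_V_800_600_10_11 := chkB_sound0 h (T :=
(.spl (nat_lit 2) (nat_lit 240)
(.spl (nat_lit 2) (nat_lit 160)
(.spl (nat_lit 4) (nat_lit 160)
(.leaf p082_l0)
(.leaf p082_l1))
(.spl (nat_lit 0) (nat_lit 340)
(.leaf p082_l2)
(.trX (nat_lit 16) (nat_lit 72) (nat_lit 100) (nat_lit 81) (nat_lit 232) (.leaf p082_l3))))
(.leaf p082_l4))) (by decide +kernel)
noncomputable def p082_l5 : Lf2 := ⟨nat_lit 0, nat_lit 20, [nat_lit 5, nat_lit 5, nat_lit 5, nat_lit 20], true, nat_lit 0, nat_lit 160, nat_lit 0, nat_lit 336, ⟨nat_lit 0, nat_lit 0, nat_lit 1000, nat_lit 6, nat_lit 169, nat_lit 646, nat_lit 57, nat_lit 1000, nat_lit 29400, nat_lit 257, nat_lit 15182, nat_lit 244, nat_lit 56818410, nat_lit 0, nat_lit 0, nat_lit 2130502, false, false⟩,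
 nat_lit 0, nat_lit 0, nat_lit 0, nat_lit 2997, nat_lit 2592, nat_lit 0, nat_lit 0, nat_lit 0, nat_lit 0, nat_lit 0, nat_lit 0, nat_lit 0, nat_lit 0, nat_lit 0, nat_lit 129, nat_lit 400000, nat_lit 0, nat_lit 0, [(nat_lit 19, [(nat_lit 5, nat_lit 1000)]), (nat_lit 22, [(nat_lit 5, nat_lit 1000)])],
 ⟨p082_k0, nat_lit 0, nat_lit 0, nat_lit 283, nat_lit 0, nat_lit 0, [nat_lit 2008000001, nat_lit 1613866667, nat_lit 268000000], [], [nat_lit 16785731586, nat_lit 19280594560, nat_lit 17838673730, nat_lit 19913789762, nat_lit 17324582230, nat_lit 19312451055, nat_lit 18341443842, nat_lit 20131517474], nat_lit 0, nat_lit 0, nat_lit 0, nat_lit 0, nat_lit 0, nat_lit 0, [], [nat_lit 27, nat_lit 40, nat_lit 40, nat_lit 80, nat_lit 13, nat_lit 317, nat_lit 100, nat_lit 9]⟩, C1.Rw.none,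
 ⟨nat_lit 3162, nat_lit 4473, ⟨.ofNat (nat_lit 311562), .ofNat (nat_lit 474896), .ofNat (nat_lit 354514), .ofNat (nat_lit 517847), .ofNat (nat_lit 336623), .ofNat (nat_lit 483097), .ofNat (nat_lit 380752), .ofNat (nat_lit 527226)⟩, ⟨.negSucc (nat_lit 12437), .ofNat (nat_lit 259488), .ofNat (nat_lit 0), .ofNat (nat_lit 302621), .ofNat (nat_lit 0), .ofNat (nat_lit 261805), .ofNat (nat_lit 0), .ofNat (nat_lit 306116)⟩⟩, [⟨nat_lit 0, nat_lit 100, nat_lit 75, nat_lit 92, nat_lit 10561841⟩]⟩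
noncomputable def p082_l6 : Lf2 := ⟨nat_lit 0, nat_lit 20, [nat_lit 5, nat_lit 5, nat_lit 5, nat_lit 20], false, nat_lit 0, nat_lit 160, nat_lit 0, nat_lit 336, ⟨nat_lit 129, nat_lit 0, nat_lit 871, nat_lit 6, nat_lit 222, nat_lit 871, nat_lit 56, nat_lit 871, nat_lit 29400, nat_lit 257, nat_lit 6667, nat_lit 202, nat_lit 51258991, nat_lit 0, nat_lit 0, nat_lit 2725885, false, false⟩,
 nat_lit 0, nat_lit 0, nat_lit 2411, nat_lit 0, nat_lit 2639, nat_lit 1276, nat_lit 152, nat_lit 0, nat_lit 0, nat_lit 13, nat_lit 0, nat_lit 0, nat_lit 0, nat_lit 0, nat_lit 68, nat_lit 348400, nat_lit 0, nat_lit 0, [(nat_lit 19, [(nat_lit 5, nat_lit 871)])],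
 ⟨p082_k0, nat_lit 0, nat_lit 0, nat_lit 178, nat_lit 0, nat_lit 0, [nat_lit 1615112801, nat_lit 1314389601, nat_lit 260994000], [], [nat_lit 17803967713, nat_lit 18907528583, nat_lit 19933384985, nat_lit 20911652766, nat_lit 18053391229, nat_lit 19006128845, nat_lit 19960220266, nat_lit 20987014884], nat_lit 0, nat_lit 0, nat_lit 0, nat_lit 0, nat_lit 0, nat_lit 0, [], [nat_lit 27, nat_lit 40, nat_lit 40, nat_lit 80, nat_lit 13, nat_lit 317, nat_lit 100, nat_lit 9]⟩, ⟨p082_k6, nat_lit 0, nat_lit 0, nat_lit 790, nat_lit 0, nat_lit 958327, [nat_lit 604752000, nat_lit 1027872000, nat_lit 1813482000], [], [nat_lit 5733925388, nat_lit 5494987902, nat_lit 5394073328, nat_lit 5420692126, nat_lit 6085783356, nat_lit 5503394499, nat_lit 4816743293, nat_lit 4873091192], nat_lit 1271250, nat_lit 1271250, nat_lit 1271250, nat_lit 1271250, nat_lit 0, nat_lit 2373000, [nat_lit 1100000, nat_lit 1785000, nat_lit 1271250], [nat_lit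 37, nat_lit 40, nat_lit 40, nat_lit 80, nat_lit 28, nat_lit 456, nat_lit 225, nat_lit 11]⟩,
 ⟨nat_lit 3872, nat_lit 4473, ⟨.ofNat (nat_lit 475111), .ofNat (nat_lit 611083), .ofNat (nat_lit 496660), .ofNat (nat_lit 632632), .ofNat (nat_lit 479021), .ofNat (nat_lit 608080), .ofNat (nat_lit 500797), .ofNat (nat_lit 629856)⟩, ⟨.negSucc (nat_lit 12427), .ofNat (nat_lit 259489), .ofNat (nat_lit 0), .ofNat (nat_lit 302621), .ofNat (nat_lit 0), .ofNat (nat_lit 261131), .ofNat (nat_lit 0), .ofNat (nat_lit 304717)⟩⟩, [⟨nat_lit 7, nat_lit 88, nat_lit 100, nat_lit 74, nat_lit 21072695⟩, ⟨nat_lit 10, nat_lit 73, nat_lit 100, nat_lit 68, nat_lit 1181882⟩]⟩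
noncomputable def p082_l7 : Lf2 := ⟨nat_lit 0, nat_lit 20, [nat_lit 5, nat_lit 5, nat_lit 5, nat_lit 20], true, nat_lit 0, nat_lit 160, nat_lit 0, nat_lit 336, ⟨nat_lit 0, nat_lit 334, nat_lit 666, nat_lit 6, nat_lit 222, nat_lit 903, nat_lit 57, nat_lit 666, nat_lit 30817, nat_lit 258, nat_lit 7340, nat_lit 203, nat_lit 51228223, nat_lit 15771777, nat_lit 0, nat_lit 2728593, false, false⟩,
 nat_lit 0, nat_lit 0, nat_lit 0, nat_lit 1359, nat_lit 2632, nat_lit 0, nat_lit 0, nat_lit 0, nat_lit 0, nat_lit 0, nat_lit 0, nat_lit 0, nat_lit 0, nat_lit 0, nat_lit 62, nat_lit 349900, nat_lit 0, nat_lit 0, [(nat_lit 22, [(nat_lit 0, nat_lit 334), (nat_lit 5, nat_lit 666)])],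
 ⟨p082_k7, nat_lit 0, nat_lit 0, nat_lit 160, nat_lit 0, nat_lit 0, [nat_lit 1669728001, nat_lit 1113184800, nat_lit 37268000], [], [nat_lit 19117554705, nat_lit 20312193825, nat_lit 21311471633, nat_lit 22362489091, nat_lit 19513122898, nat_lit 20609748930, nat_lit 21700637043, nat_lit 22763500003], nat_lit 0, nat_lit 0, nat_lit 0, nat_lit 0, nat_lit 0, nat_lit 0, [], [nat_lit 34, nat_lit 40, nat_lit 40, nat_lit 80, nat_lit 7, nat_lit 317, nat_lit 100, nat_lit 10]⟩, C1.Rw.none,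
 ⟨nat_lit 3162, nat_lit 3873, ⟨.ofNat (nat_lit 478975), .ofNat (nat_lit 608082), .ofNat (nat_lit 500739), .ofNat (nat_lit 629847), .ofNat (nat_lit 483267), .ofNat (nat_lit 605237), .ofNat (nat_lit 505392), .ofNat (nat_lit 627364)⟩, ⟨.ofNat (nat_lit 0), .ofNat (nat_lit 261131), .ofNat (nat_lit 0), .ofNat (nat_lit 304717), .ofNat (nat_lit 0), .ofNat (nat_lit 261806), .ofNat (nat_lit 0), .ofNat (nat_lit 306116)⟩⟩, []⟩
noncomputable def p082_l8 : Lf2 := ⟨nat_lit 0, nat_lit 15, [nat_lit 30, nat_lit 5, nat_lit 5, nat_lit 20], false, nat_lit 0, nat_lit 160, nat_lit 0, nat_lit 296, ⟨nat_lit 96, nat_lit 10, nat_lit 894, nat_lit 6, nat_lit 230, nat_lit 904, nat_lit 54, nat_lit 894, nat_lit 26667, nat_lit 255, nat_lit 37112, nat_lit 200, nat_lit 50316713, nat_lit 16683287, nat_lit 0, nat_lit 2806192, false, false⟩,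
 nat_lit 0, nat_lit 0, nat_lit 1478, nat_lit 0, nat_lit 2647, nat_lit 860, nat_lit 0, nat_lit 0, nat_lit 0, nat_lit 108, nat_lit 0, nat_lit 0, nat_lit 0, nat_lit 0, nat_lit 73, nat_lit 360100, nat_lit 0, nat_lit 0, [(nat_lit 19, [(nat_lit 0, nat_lit 10), (nat_lit 5, nat_lit 894)])],
 ⟨p082_k8, nat_lit 0, nat_lit 0, nat_lit 149, nat_lit 0, nat_lit 0, [nat_lit 1624843201, nat_lit 1478674401, nat_lit 49914933], [], [nat_lit 17528867898, nat_lit 18726321918, nat_lit 19869454770, nat_lit 20925439918, nat_lit 17988442206, nat_lit 19016429320, nat_lit 20067327474, nat_lit 21029188788], nat_lit 0, nat_lit 0, nat_lit 0, nat_lit 0, nat_lit 0, nat_lit 0, [], [nat_lit 34, nat_lit 40, nat_lit 40, nat_lit 80, nat_lit 7, nat_lit 317, nat_lit 100, nat_lit 10]⟩, ⟨p082_k9, nat_lit 0, nat_lit 0, nat_lit 725, nat_lit 0, nat_lit 981504, [nat_lit 450048000, nat_lit 764928000, nat_lit 1139712000], [], [nat_lit 3675884872, nat_lit 3221170192,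 nat_lit 2818774680, nat_lit 2843259408, nat_lit 3621895388, nat_lit 3224143496, nat_lit 2318781159, nat_lit 2353032754], nat_lit 1271250, nat_lit 1271250, nat_lit 1271250, nat_lit 1271250, nat_lit 0, nat_lit 2090500, [nat_lit 1100000, nat_lit 1785000, nat_lit 1271250], [nat_lit 21, nat_lit 40, nat_lit 40, nat_lit 80, nat_lit 14, nat_lit 456, nat_lit 225, nat_lit 12]⟩,
 ⟨nat_lit 3872, nat_lit 4473, ⟨.ofNat (nat_lit 496660), .ofNat (nat_lit 632632), .ofNat (nat_lit 518209), .ofNat (nat_lit 654181), .ofNat (nat_lit 500797), .ofNat (nat_lit 629856), .ofNat (nat_lit 522572), .ofNat (nat_lit 651631)⟩, ⟨.negSucc (nat_lit 12427), .ofNat (nat_lit 259489), .ofNat (nat_lit 0), .ofNat (nat_lit 281055), .ofNat (nat_lit 0), .ofNat (nat_lit 261131), .ofNat (nat_lit 0), .ofNat (nat_lit 282924)⟩⟩, [⟨nat_lit 7, nat_lit 100, nat_lit 100, nat_lit 71, nat_lit 9741619⟩, ⟨nat_lit 10, nat_lit 88, nat_lit 100, nat_lit 48, nat_lit 4273503⟩]⟩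
noncomputable def p082_l9 : Lf2 := ⟨nat_lit 0, nat_lit 20, [nat_lit 5, nat_lit 5, nat_lit 5, nat_lit 20], false, nat_lit 0, nat_lit 160, nat_lit 0, nat_lit 320, ⟨nat_lit 160, nat_lit 0, nat_lit 840, nat_lit 6, nat_lit 230, nat_lit 738, nat_lit 59, nat_lit 840, nat_lit 32267, nat_lit 259, nat_lit 37112, nat_lit 200, nat_lit 50316713, nat_lit 0, nat_lit 0, nat_lit 2806192, false, false⟩,
 nat_lit 0, nat_lit 0, nat_lit 2617, nat_lit 0, nat_lit 2707, nat_lit 1523, nat_lit 184, nat_lit 0, nat_lit 0, nat_lit 0, nat_lit 0, nat_lit 0, nat_lit 0, nat_lit 0, nat_lit 54, nat_lit 336000, nat_lit 0, nat_lit 0, [(nat_lit 19, [(nat_lit 5, nat_lit 840)])],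
 ⟨p082_k0, nat_lit 0, nat_lit 0, nat_lit 178, nat_lit 0, nat_lit 0, [nat_lit 1537312001, nat_lit 1249184001, nat_lit 277760000], [], [nat_lit 17895155057, nat_lit 19009890367, nat_lit 20026846793, nat_lit 21031788738, nat_lit 18075262365, nat_lit 19036876973, nat_lit 20042426634, nat_lit 21079357468], nat_lit 0, nat_lit 0, nat_lit 0, nat_lit 0, nat_lit 0, nat_lit 0, [], [nat_lit 27, nat_lit 40, nat_lit 40, nat_lit 80, nat_lit 13, nat_lit 317, nat_lit 100, nat_lit 9]⟩, ⟨p082_k10, nat_lit 0, nat_lit 0, nat_lit 589, nat_lit 0, nat_lit 714698, [nat_lit 750080000, nat_lit 1274880000, nat_lit 1899520000], [], [nat_lit 6460964676, nat_lit 6527810860, nat_lit 6470440302, nat_lit 6519875624, nat_lit 6612583684, nat_lit 5913873928, nat_lit 5452974540, nat_lit 5461373172], nat_lit 1271250, nat_lit 1271250, nat_lit 1271250, nat_lit 1271250, nat_lit 0, nat_lit 2260000, [nat_lit 1100000, nat_lit 1785000, nat_lit 1271250], [nat_lit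 21, nat_lit 40, nat_lit 40, nat_lit 80, nat_lit 14, nat_lit 456, nat_lit 225, nat_lit 12]⟩,
 ⟨nat_lit 3872, nat_lit 4473, ⟨.ofNat (nat_lit 496660), .ofNat (nat_lit 632632), .ofNat (nat_lit 518209), .ofNat (nat_lit 654181), .ofNat (nat_lit 500797), .ofNat (nat_lit 629856), .ofNat (nat_lit 522572), .ofNat (nat_lit 651631)⟩, ⟨.ofNat (nat_lit 0), .ofNat (nat_lit 281055), .ofNat (nat_lit 0), .ofNat (nat_lit 302621), .ofNat (nat_lit 0), .ofNat (nat_lit 282924), .ofNat (nat_lit 0), .ofNat (nat_lit 304717)⟩⟩, [⟨nat_lit 7, nat_lit 93, nat_lit 100, nat_lit 81, nat_lit 16209348⟩]⟩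
noncomputable def p082_l10 : Lf2 := ⟨nat_lit 0, nat_lit 20, [nat_lit 5, nat_lit 5, nat_lit 5, nat_lit 20], false, nat_lit 0, nat_lit 160, nat_lit 0, nat_lit 320, ⟨nat_lit 106, nat_lit 151, nat_lit 743, nat_lit 6, nat_lit 229, nat_lit 894, nat_lit 57, nat_lit 743, nat_lit 30817, nat_lit 258, nat_lit 10208, nat_lit 200, nat_lit 50512330, nat_lit 16487670, nat_lit 0, nat_lit 2789962, false, false⟩,
 nat_lit 0, nat_lit 0, nat_lit 1624, nat_lit 0, nat_lit 2903, nat_lit 945, nat_lit 0, nat_lit 0, nat_lit 0, nat_lit 55, nat_lit 0, nat_lit 0, nat_lit 0, nat_lit 0, nat_lit 43, nat_lit 292050, nat_lit 0, nat_lit 0, [(nat_lit 22, [(nat_lit 0, nat_lit 151), (nat_lit 4, nat_lit 286), (nat_lit 5, nat_lit 457)])],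
 ⟨p082_k7, nat_lit 0, nat_lit 0, nat_lit 160, nat_lit 0, nat_lit 0, [nat_lit 1668675201, nat_lit 996047601, nat_lit 22760933], [], [nat_lit 19583619950, nat_lit 20829114930, nat_lit 21790329162, nat_lit 22893416124, nat_lit 19614185848, nat_lit 20680332834, nat_lit 21638909263, nat_lit 22744937103], nat_lit 0, nat_lit 0, nat_lit 0, nat_lit 0, nat_lit 0, nat_lit 0, [], [nat_lit 34, nat_lit 40, nat_lit 40, nat_lit 80, nat_lit 7, nat_lit 317, nat_lit 100, nat_lit 10]⟩, ⟨p082_k10, nat_lit 0, nat_lit 0, nat_lit 858, nat_lit 0, nat_lit 1258167, [nat_lit 496928000, nat_lit 844608000, nat_lit 1258432000], [], [nat_lit 4054228662, nat_lit 3892832025, nat_lit 3847162001, nat_lit 3855183401, nat_lit 4291144532, nat_lit 4074374762, nat_lit 3175703355, nat_lit 3186242956], nat_lit 1271250, nat_lit 1271250, nat_lit 1271250, nat_lit 1271250, nat_lit 0, nat_lit 2260000, [nat_lit 1100000, nat_lit 1785000, nat_lit 1271250], [nat_lit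 21, nat_lit 40, nat_lit 40, nat_lit 80, nat_lit 14, nat_lit 456, nat_lit 225, nat_lit 12]⟩,
 ⟨nat_lit 3162, nat_lit 3873, ⟨.ofNat (nat_lit 500739), .ofNat (nat_lit 629847), .ofNat (nat_lit 511622), .ofNat (nat_lit 640729), .ofNat (nat_lit 505392), .ofNat (nat_lit 627364), .ofNat (nat_lit 516456), .ofNat (nat_lit 638427)⟩, ⟨.ofNat (nat_lit 0), .ofNat (nat_lit 261131), .ofNat (nat_lit 0), .ofNat (nat_lit 304717), .ofNat (nat_lit 0), .ofNat (nat_lit 261806), .ofNat (nat_lit 0), .ofNat (nat_lit 306116)⟩⟩, [⟨nat_lit 7, nat_lit 95, nat_lit 100, nat_lit 76, nat_lit 11964861⟩]⟩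
noncomputable def p082_l11 : Lf2 := ⟨nat_lit 0, nat_lit 20, [nat_lit 5, nat_lit 5, nat_lit 5, nat_lit 20], false, nat_lit 0, nat_lit 160, nat_lit 0, nat_lit 308, ⟨nat_lit 117, nat_lit 148, nat_lit 735, nat_lit 6, nat_lit 233, nat_lit 883, nat_lit 57, nat_lit 735, nat_lit 30817, nat_lit 258, nat_lit 31972, nat_lit 200, nat_lit 50034831, nat_lit 16965169, nat_lit 0, nat_lit 2829178, false, false⟩,
 nat_lit 0, nat_lit 0, nat_lit 1550, nat_lit 0, nat_lit 2817, nat_lit 943, nat_lit 0, nat_lit 0, nat_lit 0, nat_lit 88, nat_lit 0, nat_lit 0, nat_lit 0, nat_lit 0, nat_lit 48, nat_lit 312850, nat_lit 0, nat_lit 0, [(nat_lit 22, [(nat_lit 0, nat_lit 148), (nat_lit 4, nat_lit 121), (nat_lit 5, nat_lit 614)])],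
 ⟨p082_k7, nat_lit 0, nat_lit 0, nat_lit 160, nat_lit 0, nat_lit 0, [nat_lit 1633507200, nat_lit 1063144401, nat_lit 35277600], [], [nat_lit 19441072824, nat_lit 20670429044, nat_lit 21643722492, nat_lit 22723969636, nat_lit 19558828446, nat_lit 20612156100, nat_lit 21604051793, nat_lit 22669030100], nat_lit 0, nat_lit 0, nat_lit 0, nat_lit 0, nat_lit 0, nat_lit 0, [], [nat_lit 34, nat_lit 40, nat_lit 40, nat_lit 80, nat_lit 7, nat_lit 317, nat_lit 100, nat_lit 10]⟩, ⟨p082_k11, nat_lit 0, nat_lit 0, nat_lit 852, nat_lit 0, nat_lit 1247442, [nat_lit 548496000, nat_lit 932256000, nat_lit 1389024000], [], [nat_lit 4126074623, nat_lit 3876774656, nat_lit 3855437982, nat_lit 3874296768, nat_lit 4305909500, nat_lit 4088719107, nat_lit 3288024125, nat_lit 3296061574], nat_lit 1271250, nat_lit 1271250, nat_lit 1271250, nat_lit 1271250, nat_lit 0, nat_lit 2175250, [nat_lit 1100000, nat_lit 1785000, nat_lit 1271250], [nat_lit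 21, nat_lit 40, nat_lit 40, nat_lit 80, nat_lit 14, nat_lit 456, nat_lit 225, nat_lit 12]⟩,
 ⟨nat_lit 3162, nat_lit 3873, ⟨.ofNat (nat_lit 511622), .ofNat (nat_lit 640729), .ofNat (nat_lit 522504), .ofNat (nat_lit 651611), .ofNat (nat_lit 516456), .ofNat (nat_lit 638427), .ofNat (nat_lit 527519), .ofNat (nat_lit 649490)⟩, ⟨.ofNat (nat_lit 0), .ofNat (nat_lit 261131), .ofNat (nat_lit 0), .ofNat (nat_lit 304717), .ofNat (nat_lit 0), .ofNat (nat_lit 261806), .ofNat (nat_lit 0), .ofNat (nat_lit 306116)⟩⟩, [⟨nat_lit 7, nat_lit 99, nat_lit 100, nat_lit 77, nat_lit 15443053⟩]⟩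
noncomputable def p082_l12 : Lf2 := ⟨nat_lit 0, nat_lit 20, [nat_lit 5, nat_lit 5, nat_lit 5, nat_lit 20], true, nat_lit 160, nat_lit 260, nat_lit 0, nat_lit 336, ⟨nat_lit 0, nat_lit 0, nat_lit 1000, nat_lit 6, nat_lit 169, nat_lit 1000, nat_lit 145, nat_lit 1000, nat_lit 89743, nat_lit 288, nat_lit 15182, nat_lit 244, nat_lit 48921216, nat_lit 0, nat_lit 0, nat_lit 4114830, false, false⟩,
 nat_lit 0, nat_lit 0, nat_lit 0, nat_lit 4905, nat_lit 4047, nat_lit 0, nat_lit 0, nat_lit 0, nat_lit 0, nat_lit 0, nat_lit 0, nat_lit 0, nat_lit 0, nat_lit 0, nat_lit 81, nat_lit 249160, nat_lit 0, nat_lit 0, [(nat_lit 19, [(nat_lit 3, nat_lit 14), (nat_lit 4, nat_lit 986)]), (nat_lit 22, [(nat_lit 3, nat_lit 14), (nat_lit 4, nat_lit 986)])],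
 ⟨p082_k1, nat_lit 0, nat_lit 0, nat_lit 141, nat_lit 0, nat_lit 0, [nat_lit 2355344000, nat_lit 179794400], [], [nat_lit 17365102991, nat_lit 20074121907, nat_lit 17668635444, nat_lit 20075530272, nat_lit 20389139267, nat_lit 23550418465, nat_lit 20440142614, nat_lit 23395495532], nat_lit 0, nat_lit 0, nat_lit 0, nat_lit 0, nat_lit 0, nat_lit 0, [], [nat_lit 94, nat_lit 40, nat_lit 40, nat_lit 80, nat_lit 95, nat_lit 345, nat_lit 125, nat_lit 9]⟩, C1.Rw.none,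
 ⟨nat_lit 3162, nat_lit 4473, ⟨.ofNat (nat_lit 311562), .ofNat (nat_lit 474896), .ofNat (nat_lit 354514), .ofNat (nat_lit 517847), .ofNat (nat_lit 336623), .ofNat (nat_lit 483097), .ofNat (nat_lit 380752), .ofNat (nat_lit 527226)⟩, ⟨.ofNat (nat_lit 259488), .ofNat (nat_lit 429433), .ofNat (nat_lit 302621), .ofNat (nat_lit 472567), .ofNat (nat_lit 261805), .ofNat (nat_lit 414188), .ofNat (nat_lit 306116), .ofNat (nat_lit 458499)⟩⟩, [⟨nat_lit 0, nat_lit 100, nat_lit 75, nat_lit 92, nat_lit 65251833⟩, ⟨nat_lit 16, nat_lit 83, nat_lit 100, nat_lit 83, nat_lit 203679919⟩]⟩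
noncomputable def p082_l13 : Lf2 := ⟨nat_lit 0, nat_lit 20, [nat_lit 5, nat_lit 5, nat_lit 5, nat_lit 20], true, nat_lit 160, nat_lit 260, nat_lit 0, nat_lit 336, ⟨nat_lit 0, nat_lit 1000, nat_lit 0, nat_lit 6, nat_lit 226, nat_lit 1000, nat_lit 145, nat_lit 0, nat_lit 0, nat_lit 0, nat_lit 0, nat_lit 0, nat_lit 44104778, nat_lit 15291924, nat_lit 7603298, nat_lit 4606458, false, false⟩,
 nat_lit 0, nat_lit 0, nat_lit 0, nat_lit 3953, nat_lit 3418, nat_lit 0, nat_lit 0, nat_lit 0, nat_lit 0, nat_lit 0, nat_lit 0, nat_lit 0, nat_lit 0, nat_lit 0, nat_lit 0, nat_lit 250000, nat_lit 0, nat_lit 0, [(nat_lit 19, [(nat_lit 0, nat_lit 1000)]), (nat_lit 22, [(nat_lit 0, nat_lit 1000)])],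
 ⟨p082_k1, nat_lit 0, nat_lit 0, nat_lit 31, nat_lit 0, nat_lit 0, [nat_lit 1642800000, nat_lit 3238355556], [], [nat_lit 16501213176, nat_lit 19635648016, nat_lit 19328685016, nat_lit 22077797480, nat_lit 20305526448, nat_lit 22978622008, nat_lit 22581638764, nat_lit 24944725880], nat_lit 0, nat_lit 0, nat_lit 0, nat_lit 0, nat_lit 0, nat_lit 0, [], [nat_lit 94, nat_lit 40, nat_lit 40, nat_lit 80, nat_lit 95, nat_lit 345, nat_lit 125, nat_lit 9]⟩, C1.Rw.none,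
 ⟨nat_lit 3162, nat_lit 4473, ⟨.ofNat (nat_lit 474896), .ofNat (nat_lit 611007), .ofNat (nat_lit 517847), .ofNat (nat_lit 653959), .ofNat (nat_lit 483097), .ofNat (nat_lit 605159), .ofNat (nat_lit 527226), .ofNat (nat_lit 649288)⟩, ⟨.ofNat (nat_lit 259488), .ofNat (nat_lit 429433), .ofNat (nat_lit 302621), .ofNat (nat_lit 472567), .ofNat (nat_lit 261805), .ofNat (nat_lit 414188), .ofNat (nat_lit 306116), .ofNat (nat_lit 458499)⟩⟩, [⟨nat_lit 16, nat_lit 83, nat_lit 100, nat_lit 83, nat_lit 218085637⟩]⟩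
noncomputable def b_V_800_600_10_12 : St := ⟨true, nat_lit 0, nat_lit 1, nat_lit 1, nat_lit 80, nat_lit 320, nat_lit 360, nat_lit 240, nat_lit 280, nat_lit 64, nat_lit 240, nat_lit 40, nat_lit 80, nat_lit 0, nat_lit 260, nat_lit 0, nat_lit 336, nat_lit 40, nat_lit 80, nat_lit 0, nat_lit 0, nat_lit 0, nat_lit 0⟩
theorem d_V_800_600_10_12 (h : EB TB.env) : Dead b_V_800_600_10_12 := chkB_sound0 h (T :=
(.spl (nat_lit 4) (nat_lit 160)
(.spl (nat_lit 2) (nat_lit 160)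
(.leaf p082_l5)
(.spl (nat_lit 1) (nat_lit 260)
(.spl (nat_lit 0) (nat_lit 340)
(.leaf p082_l6)
(.leaf p082_l7))
(.trX (nat_lit 19) (nat_lit 100) (nat_lit 85) (nat_lit 84) (nat_lit 320) (.spl (nat_lit 0) (nat_lit 340)
(.spl (nat_lit 3) (nat_lit 60)
(.trX (nat_lit 19) (nat_lit 100) (nat_lit 92) (nat_lit 75) (nat_lit 296) (.leaf p082_l8))
(.leaf p082_l9))
(.spl (nat_lit 1) (nat_lit 270)
(.leaf p082_l10)
(.trX (nat_lit 19) (nat_lit 100) (nat_lit 90) (nat_lit 85) (nat_lit 308) (.leaf p082_l11)))))))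
(.spl (nat_lit 2) (nat_lit 160)
(.leaf p082_l12)
(.leaf p082_l13)))) (by decide +kernel)
noncomputable def p082_l14 : Lf2 := ⟨nat_lit 0, nat_lit 15, [nat_lit 30, nat_lit 5, nat_lit 5, nat_lit 20], false, nat_lit 0, nat_lit 80, nat_lit 0, nat_lit 312, ⟨nat_lit 154, nat_lit 846, nat_lit 0, nat_lit 6, nat_lit 275, nat_lit 846, nat_lit 27, nat_lit 0, nat_lit 0, nat_lit 0, nat_lit 0, nat_lit 0, nat_lit 45463456, nat_lit 21536544, nat_lit 0, nat_lit 3139753, true, true⟩,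
 nat_lit 0, nat_lit 0, nat_lit 2768, nat_lit 0, nat_lit 3116, nat_lit 1465, nat_lit 255, nat_lit 0, nat_lit 0, nat_lit 133, nat_lit 0, nat_lit 0, nat_lit 0, nat_lit 0, nat_lit 0, nat_lit 338400, nat_lit 0, nat_lit 0, [(nat_lit 19, [(nat_lit 1, nat_lit 846)])],
 ⟨p082_k8, nat_lit 0, nat_lit 0, nat_lit 164, nat_lit 0, nat_lit 0, [nat_lit 1495748801, nat_lit 2410568000, nat_lit 2834642400], [], [nat_lit 22879298884, nat_lit 23440615788, nat_lit 26179101683, nat_lit 26675929099, nat_lit 21809247940, nat_lit 22340053208, nat_lit 24953355268, nat_lit 25415476662], nat_lit 0, nat_lit 0, nat_lit 0, nat_lit 0, nat_lit 0, nat_lit 0, [], [nat_lit 34, nat_lit 40, nat_lit 40, nat_lit 80, nat_lit 7, nat_lit 226, nat_lit 20, nat_lit 7]⟩, ⟨p082_k12, nat_lit 0, nat_lit 0, nat_lit 589, nat_lit 0, nat_lit 762801, [nat_lit 721952000, nat_lit 1227072000, nat_lit 1828288000], [], [nat_lit 5296864368, nat_lit 5344454018, nat_lit 5581760868,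 nat_lit 5629350518, nat_lit 4501097149, nat_lit 4523981505, nat_lit 4631996532, nat_lit 4645001285], nat_lit 1271250, nat_lit 1271250, nat_lit 1271250, nat_lit 1271250, nat_lit 0, nat_lit 2203500, [nat_lit 1100000, nat_lit 1785000, nat_lit 1271250], [nat_lit 21, nat_lit 40, nat_lit 40, nat_lit 80, nat_lit 14, nat_lit 456, nat_lit 225, nat_lit 11]⟩,
 ⟨nat_lit 4183, nat_lit 4473, ⟨.ofNat (nat_lit 611104), .ofNat (nat_lit 747062), .ofNat (nat_lit 632666), .ofNat (nat_lit 768624), .ofNat (nat_lit 609582), .ofNat (nat_lit 742095), .ofNat (nat_lit 631244), .ofNat (nat_lit 763757)⟩, ⟨.negSucc (nat_lit 12423), .ofNat (nat_lit 123532), .ofNat (nat_lit 0), .ofNat (nat_lit 145099), .negSucc (nat_lit 4612), .ofNat (nat_lit 127898), .ofNat (nat_lit 0), .ofNat (nat_lit 149565)⟩⟩, [⟨nat_lit 22, nat_lit 94, nat_lit 100, nat_lit 62, nat_lit 21413769⟩]⟩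
noncomputable def p082_l15 : Lf2 := ⟨nat_lit 0, nat_lit 15, [nat_lit 30, nat_lit 5, nat_lit 5, nat_lit 20], false, nat_lit 0, nat_lit 80, nat_lit 0, nat_lit 312, ⟨nat_lit 110, nat_lit 890, nat_lit 0, nat_lit 6, nat_lit 274, nat_lit 890, nat_lit 28, nat_lit 0, nat_lit 0, nat_lit 0, nat_lit 0, nat_lit 0, nat_lit 45598218, nat_lit 21401782, nat_lit 0, nat_lit 3132192, true, true⟩,
 nat_lit 0, nat_lit 0, nat_lit 1966, nat_lit 0, nat_lit 3176, nat_lit 1040, nat_lit 367, nat_lit 0, nat_lit 0, nat_lit 94, nat_lit 0, nat_lit 0, nat_lit 0, nat_lit 0, nat_lit 0, nat_lit 222500, nat_lit 0, nat_lit 0, [(nat_lit 19, [(nat_lit 0, nat_lit 890)])],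
 ⟨p082_k13, nat_lit 0, nat_lit 0, nat_lit 167, nat_lit 0, nat_lit 0, [nat_lit 1596256001, nat_lit 2465136000, nat_lit 3458904000], [], [nat_lit 23021570883, nat_lit 23587438427, nat_lit 26248611107, nat_lit 26726015835, nat_lit 21876218003, nat_lit 22411230651, nat_lit 25119825537, nat_lit 25606401961], nat_lit 0, nat_lit 0, nat_lit 0, nat_lit 0, nat_lit 0, nat_lit 0, [], [nat_lit 34, nat_lit 40, nat_lit 40, nat_lit 80, nat_lit 7, nat_lit 226, nat_lit 20, nat_lit 7]⟩, ⟨p082_k12, nat_lit 0, nat_lit 0, nat_lit 692, nat_lit 0, nat_lit 948787, [nat_lit 515680000, nat_lit 876480000, nat_lit 1305920000], [], [nat_lit 3810125920, nat_lit 3844177580, nat_lit 4006960920, nat_lit 4041012580, nat_lit 3242148981, nat_lit 3258636610, nat_lit 3336053948, nat_lit 3342075062], nat_lit 1271250, nat_lit 1271250, nat_lit 1271250, nat_lit 1271250, nat_lit 0, nat_lit 2203500, [nat_lit 1100000, nat_lit 1785000, nat_lit 1271250], [nat_lit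 21, nat_lit 40, nat_lit 40, nat_lit 80, nat_lit 14, nat_lit 456, nat_lit 225, nat_lit 11]⟩,
 ⟨nat_lit 3872, nat_lit 4184, ⟨.ofNat (nat_lit 609582), .ofNat (nat_lit 742098), .ofNat (nat_lit 631244), .ofNat (nat_lit 763761), .ofNat (nat_lit 608101), .ofNat (nat_lit 737149), .ofNat (nat_lit 629889), .ofNat (nat_lit 758939)⟩, ⟨.negSucc (nat_lit 4619), .ofNat (nat_lit 127898), .ofNat (nat_lit 0), .ofNat (nat_lit 149565), .ofNat (nat_lit 0), .ofNat (nat_lit 132088), .ofNat (nat_lit 0), .ofNat (nat_lit 153881)⟩⟩, [⟨nat_lit 22, nat_lit 94, nat_lit 100, nat_lit 62, nat_lit 15207549⟩]⟩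
noncomputable def p082_l16 : Lf2 := ⟨nat_lit 0, nat_lit 20, [nat_lit 5, nat_lit 5, nat_lit 5, nat_lit 20], false, nat_lit 0, nat_lit 80, nat_lit 0, nat_lit 336, ⟨nat_lit 252, nat_lit 748, nat_lit 0, nat_lit 6, nat_lit 275, nat_lit 748, nat_lit 32, nat_lit 0, nat_lit 0, nat_lit 0, nat_lit 0, nat_lit 0, nat_lit 45531285, nat_lit 21468715, nat_lit 0, nat_lit 3135959, true, true⟩,
 nat_lit 0, nat_lit 0, nat_lit 4231, nat_lit 0, nat_lit 3520, nat_lit 2239, nat_lit 420, nat_lit 0, nat_lit 0, nat_lit 222, nat_lit 0, nat_lit 0, nat_lit 0, nat_lit 0, nat_lit 0, nat_lit 299200, nat_lit 0, nat_lit 0, [(nat_lit 19, [(nat_lit 1, nat_lit 748)])],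
 ⟨p082_k0, nat_lit 0, nat_lit 0, nat_lit 191, nat_lit 0, nat_lit 0, [nat_lit 1557867734, nat_lit 2705500800, nat_lit 3850520000], [], [nat_lit 23049075060, nat_lit 24195602180, nat_lit 26314998420, nat_lit 27288518320, nat_lit 21408744394, nat_lit 22440313194, nat_lit 24666062988, nat_lit 25680563948], nat_lit 0, nat_lit 0, nat_lit 0, nat_lit 0, nat_lit 0, nat_lit 0, [], [nat_lit 27, nat_lit 40, nat_lit 40, nat_lit 80, nat_lit 13, nat_lit 317, nat_lit 100, nat_lit 9]⟩, ⟨p082_k6, nat_lit 0, nat_lit 0, nat_lit 607, nat_lit 0, nat_lit 639959, [nat_lit 1181376000, nat_lit 2007936000, nat_lit 3542616000], [], [nat_lit 8951372932, nat_lit 9059593820, nat_lit 9466634420, nat_lit 9539033770, nat_lit 7776400411, nat_lit 7848117959, nat_lit 8133250318, nat_lit 8178174274], nat_lit 1271250, nat_lit 1271250, nat_lit 1271250, nat_lit 1271250, nat_lit 0, nat_lit 2373000, [nat_lit 1100000, nat_lit 1785000, nat_lit 1271250], [nat_lit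 37, nat_lit 40, nat_lit 40, nat_lit 80, nat_lit 28, nat_lit 483, nat_lit 250, nat_lit 11]⟩,
 ⟨nat_lit 3872, nat_lit 4473, ⟨.ofNat (nat_lit 611083), .ofNat (nat_lit 747053), .ofNat (nat_lit 632632), .ofNat (nat_lit 768604), .ofNat (nat_lit 608080), .ofNat (nat_lit 737137), .ofNat (nat_lit 629856), .ofNat (nat_lit 758915)⟩, ⟨.ofNat (nat_lit 0), .ofNat (nat_lit 145099), .ofNat (nat_lit 0), .ofNat (nat_lit 166665), .ofNat (nat_lit 0), .ofNat (nat_lit 153881), .ofNat (nat_lit 0), .ofNat (nat_lit 175674)⟩⟩, [⟨nat_lit 22, nat_lit 94, nat_lit 100, nat_lit 62, nat_lit 47178419⟩]⟩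
noncomputable def p082_l17 : Lf2 := ⟨nat_lit 0, nat_lit 15, [nat_lit 30, nat_lit 5, nat_lit 5, nat_lit 20], false, nat_lit 0, nat_lit 80, nat_lit 0, nat_lit 296, ⟨nat_lit 305, nat_lit 695, nat_lit 0, nat_lit 6, nat_lit 284, nat_lit 695, nat_lit 27, nat_lit 0, nat_lit 0, nat_lit 0, nat_lit 0, nat_lit 0, nat_lit 44549994, nat_lit 22450006, nat_lit 0, nat_lit 3188571, true, true⟩,
 nat_lit 0, nat_lit 0, nat_lit 4239, nat_lit 0, nat_lit 3861, nat_lit 2467, nat_lit 322, nat_lit 0, nat_lit 0, nat_lit 404, nat_lit 0, nat_lit 0, nat_lit 0, nat_lit 0, nat_lit 0, nat_lit 408800, nat_lit 0, nat_lit 0, [(nat_lit 19, [(nat_lit 1, nat_lit 477), (nat_lit 2, nat_lit 218)])],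
 ⟨p082_k8, nat_lit 0, nat_lit 0, nat_lit 164, nat_lit 0, nat_lit 0, [nat_lit 1656978934, nat_lit 2651816000, nat_lit 2875741734], [], [nat_lit 22519426580, nat_lit 23171616675, nat_lit 26254975788, nat_lit 26876731162, nat_lit 20584072762, nat_lit 21182317248, nat_lit 24231901764, nat_lit 24759646003], nat_lit 0, nat_lit 0, nat_lit 0, nat_lit 0, nat_lit 0, nat_lit 0, [], [nat_lit 34, nat_lit 40, nat_lit 40, nat_lit 80, nat_lit 7, nat_lit 226, nat_lit 20, nat_lit 7]⟩, ⟨p082_k9, nat_lit 0, nat_lit 0, nat_lit 642, nat_lit 0, nat_lit 827906, [nat_lit 1429840000, nat_lit 2430240000, nat_lit 3620960000], [], [nat_lit 9243369748, nat_lit 9381459096, nat_lit 9837533788, nat_lit 9935776976, nat_lit 8060018753, nat_lit 8120788540, nat_lit 8381567107, nat_lit 8658585034], nat_lit 1271250, nat_lit 1271250, nat_lit 1271250, nat_lit 1271250, nat_lit 0, nat_lit 2090500, [nat_lit 1100000, nat_lit 1785000, nat_lit 1271250], [nat_lit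 21, nat_lit 40, nat_lit 40, nat_lit 80, nat_lit 14, nat_lit 456, nat_lit 225, nat_lit 11]⟩,
 ⟨nat_lit 4183, nat_lit 4473, ⟨.ofNat (nat_lit 632666), .ofNat (nat_lit 768624), .ofNat (nat_lit 654228), .ofNat (nat_lit 790187), .ofNat (nat_lit 631244), .ofNat (nat_lit 763757), .ofNat (nat_lit 652907), .ofNat (nat_lit 785420)⟩, ⟨.negSucc (nat_lit 12423), .ofNat (nat_lit 123532), .ofNat (nat_lit 0), .ofNat (nat_lit 145099), .negSucc (nat_lit 4612), .ofNat (nat_lit 127898), .ofNat (nat_lit 0), .ofNat (nat_lit 149565)⟩⟩, [⟨nat_lit 22, nat_lit 94, nat_lit 100, nat_lit 62, nat_lit 57334799⟩]⟩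
noncomputable def p082_l18 : Lf2 := ⟨nat_lit 0, nat_lit 15, [nat_lit 30, nat_lit 5, nat_lit 5, nat_lit 20], false, nat_lit 0, nat_lit 80, nat_lit 0, nat_lit 296, ⟨nat_lit 241, nat_lit 759, nat_lit 0, nat_lit 6, nat_lit 283, nat_lit 759, nat_lit 28, nat_lit 0, nat_lit 0, nat_lit 0, nat_lit 0, nat_lit 0, nat_lit 44678708, nat_lit 22321292, nat_lit 0, nat_lit 3181946, true, true⟩,
 nat_lit 0, nat_lit 0, nat_lit 3405, nat_lit 0, nat_lit 3569, nat_lit 1982, nat_lit 461, nat_lit 0, nat_lit 0, nat_lit 259, nat_lit 0, nat_lit 0, nat_lit 0, nat_lit 0, nat_lit 0, nat_lit 189750, nat_lit 0, nat_lit 0, [(nat_lit 19, [(nat_lit 0, nat_lit 759)])],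
 ⟨p082_k13, nat_lit 0, nat_lit 0, nat_lit 167, nat_lit 0, nat_lit 0, [nat_lit 1660393601, nat_lit 2792321600, nat_lit 4122602400], [], [nat_lit 22932510789, nat_lit 23560933544, nat_lit 26421858166, nat_lit 26946937392, nat_lit 21391767614, nat_lit 21954338601, nat_lit 24815927842, nat_lit 25326123173], nat_lit 0, nat_lit 0, nat_lit 0, nat_lit 0, nat_lit 0, nat_lit 0, [], [nat_lit 34, nat_lit 40, nat_lit 40, nat_lit 80, nat_lit 7, nat_lit 226, nat_lit 20, nat_lit 7]⟩, ⟨p082_k9, nat_lit 0, nat_lit 0, nat_lit 700, nat_lit 0, nat_lit 981504, [nat_lit 1129808000, nat_lit 1920288000, nat_lit 2861152000], [], [nat_lit 7598298638, nat_lit 7707546900, nat_lit 8068887770, nat_lit 8146215928, nat_lit 6628151021, nat_lit 6675512517, nat_lit 6850715752, nat_lit 6876938268], nat_lit 1271250, nat_lit 1271250, nat_lit 1271250, nat_lit 1271250, nat_lit 0, nat_lit 2090500, [nat_lit 1100000, nat_lit 1785000, nat_lit 1271250], [nat_lit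 21, nat_lit 40, nat_lit 40, nat_lit 80, nat_lit 14, nat_lit 456, nat_lit 225, nat_lit 11]⟩,
 ⟨nat_lit 3872, nat_lit 4184, ⟨.ofNat (nat_lit 631244), .ofNat (nat_lit 763761), .ofNat (nat_lit 652906), .ofNat (nat_lit 785423), .ofNat (nat_lit 629889), .ofNat (nat_lit 758939), .ofNat (nat_lit 651678), .ofNat (nat_lit 780727)⟩, ⟨.negSucc (nat_lit 4619), .ofNat (nat_lit 127898), .ofNat (nat_lit 0), .ofNat (nat_lit 149565), .ofNat (nat_lit 0), .ofNat (nat_lit 132088), .ofNat (nat_lit 0), .ofNat (nat_lit 153881)⟩⟩, [⟨nat_lit 22, nat_lit 94, nat_lit 100, nat_lit 62, nat_lit 37460857⟩]⟩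
noncomputable def p082_l19 : Lf2 := ⟨nat_lit 0, nat_lit 20, [nat_lit 5, nat_lit 5, nat_lit 5, nat_lit 20], false, nat_lit 0, nat_lit 80, nat_lit 0, nat_lit 320, ⟨nat_lit 382, nat_lit 618, nat_lit 0, nat_lit 6, nat_lit 283, nat_lit 618, nat_lit 32, nat_lit 0, nat_lit 0, nat_lit 0, nat_lit 0, nat_lit 0, nat_lit 44615048, nat_lit 22384952, nat_lit 0, nat_lit 3185233, true, true⟩,
 nat_lit 0, nat_lit 0, nat_lit 5331, nat_lit 0, nat_lit 4074, nat_lit 3102, nat_lit 569, nat_lit 0, nat_lit 0, nat_lit 414, nat_lit 0, nat_lit 0, nat_lit 0, nat_lit 0, nat_lit 0, nat_lit 247200, nat_lit 0, nat_lit 0, [(nat_lit 19, [(nat_lit 1, nat_lit 618)])],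
 ⟨p082_k0, nat_lit 0, nat_lit 0, nat_lit 191, nat_lit 0, nat_lit 0, [nat_lit 1640270401, nat_lit 3050052801, nat_lit 4891820000], [], [nat_lit 22820960397, nat_lit 24046048041, nat_lit 26785891993, nat_lit 28062163232, nat_lit 20603682669, nat_lit 21772166529, nat_lit 24491969593, nat_lit 25703761473], nat_lit 0, nat_lit 0, nat_lit 0, nat_lit 0, nat_lit 0, nat_lit 0, [], [nat_lit 27, nat_lit 40, nat_lit 40, nat_lit 80, nat_lit 13, nat_lit 317, nat_lit 100, nat_lit 9]⟩, ⟨p082_k10, nat_lit 0, nat_lit 0, nat_lit 568, nat_lit 0, nat_lit 714698, [nat_lit 1790816000, nat_lit 3043776000, nat_lit 4535104000], [], [nat_lit 11400762944, nat_lit 11671026952, nat_lit 12534632012, nat_lit 12735225048, nat_lit 10529593232, nat_lit 10652526880, nat_lit 11077489340, nat_lit 11372770504], nat_lit 1271250, nat_lit 1271250, nat_lit 1271250, nat_lit 1271250, nat_lit 0, nat_lit 2260000, [nat_lit 1100000, nat_lit 1785000, nat_lit 1271250],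 [nat_lit 21, nat_lit 40, nat_lit 40, nat_lit 80, nat_lit 14, nat_lit 483, nat_lit 250, nat_lit 12]⟩,
 ⟨nat_lit 3872, nat_lit 4473, ⟨.ofNat (nat_lit 632632), .ofNat (nat_lit 768604), .ofNat (nat_lit 654181), .ofNat (nat_lit 790153), .ofNat (nat_lit 629856), .ofNat (nat_lit 758915), .ofNat (nat_lit 651631), .ofNat (nat_lit 780691)⟩, ⟨.ofNat (nat_lit 0), .ofNat (nat_lit 145099), .ofNat (nat_lit 0), .ofNat (nat_lit 166665), .ofNat (nat_lit 0), .ofNat (nat_lit 153881), .ofNat (nat_lit 0), .ofNat (nat_lit 175674)⟩⟩, [⟨nat_lit 7, nat_lit 93, nat_lit 100, nat_lit 81, nat_lit 4455935⟩, ⟨nat_lit 22, nat_lit 94, nat_lit 100, nat_lit 62, nat_lit 78693606⟩]⟩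
noncomputable def p082_l20 : Lf2 := ⟨nat_lit 0, nat_lit 20, [nat_lit 5, nat_lit 5, nat_lit 5, nat_lit 20], true, nat_lit 80, nat_lit 160, nat_lit 0, nat_lit 336, ⟨nat_lit 0, nat_lit 1000, nat_lit 0, nat_lit 6, nat_lit 279, nat_lit 1000, nat_lit 86, nat_lit 0, nat_lit 0, nat_lit 0, nat_lit 0, nat_lit 0, nat_lit 42482435, nat_lit 21163817, nat_lit 3353748, nat_lit 4224705, true, true⟩,
 nat_lit 0, nat_lit 0, nat_lit 0, nat_lit 385, nat_lit 4222, nat_lit 0, nat_lit 0, nat_lit 0, nat_lit 0, nat_lit 0, nat_lit 0, nat_lit 0, nat_lit 0, nat_lit 0, nat_lit 0, nat_lit 250000, nat_lit 0, nat_lit 0, [(nat_lit 19, [(nat_lit 0, nat_lit 1000)])],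
 ⟨p082_k0, nat_lit 0, nat_lit 0, nat_lit 75, nat_lit 0, nat_lit 0, [nat_lit 1542400001, nat_lit 2368400000, nat_lit 3220880000], [], [nat_lit 19528478664, nat_lit 21021497184, nat_lit 23776174376, nat_lit 25147485936, nat_lit 20193151296, nat_lit 21535688480, nat_lit 24023115640, nat_lit 25138228576], nat_lit 0, nat_lit 0, nat_lit 0, nat_lit 0, nat_lit 0, nat_lit 0, [], [nat_lit 27, nat_lit 40, nat_lit 40, nat_lit 80, nat_lit 13, nat_lit 345, nat_lit 125, nat_lit 9]⟩, C1.Rw.none,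
 ⟨nat_lit 3872, nat_lit 4473, ⟨.ofNat (nat_lit 611083), .ofNat (nat_lit 747053), .ofNat (nat_lit 654181), .ofNat (nat_lit 790153), .ofNat (nat_lit 608080), .ofNat (nat_lit 737137), .ofNat (nat_lit 651631), .ofNat (nat_lit 780691)⟩, ⟨.ofNat (nat_lit 123532), .ofNat (nat_lit 259489), .ofNat (nat_lit 166665), .ofNat (nat_lit 302621), .ofNat (nat_lit 132088), .ofNat (nat_lit 261131), .ofNat (nat_lit 175674), .ofNat (nat_lit 304717)⟩⟩, []⟩
noncomputable def p082_l21 : Lf2 := ⟨nat_lit 0, nat_lit 20, [nat_lit 5, nat_lit 5, nat_lit 5, nat_lit 20], false, nat_lit 0, nat_lit 80, nat_lit 0, nat_lit 336, ⟨nat_lit 83, nat_lit 349, nat_lit 568, nat_lit 6, nat_lit 257, nat_lit 917, nat_lit 32, nat_lit 568, nat_lit 9600, nat_lit 239, nat_lit 95782, nat_lit 200, nat_lit 47379000, nat_lit 19621000, nat_lit 0, nat_lit 3023421, true, true⟩,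
 nat_lit 0, nat_lit 0, nat_lit 1500, nat_lit 0, nat_lit 2720, nat_lit 794, nat_lit 0, nat_lit 0, nat_lit 0, nat_lit 58, nat_lit 0, nat_lit 0, nat_lit 0, nat_lit 0, nat_lit 37, nat_lit 366800, nat_lit 0, nat_lit 0, [(nat_lit 22, [(nat_lit 1, nat_lit 349), (nat_lit 5, nat_lit 568)])],
 ⟨p082_k7, nat_lit 0, nat_lit 0, nat_lit 165, nat_lit 0, nat_lit 0, [nat_lit 1493105601, nat_lit 1065694001, nat_lit 26630667], [], [nat_lit 21887328988, nat_lit 22949894348, nat_lit 23308952188, nat_lit 24294364160, nat_lit 21054136268, nat_lit 22060209388, nat_lit 22417190828, nat_lit 23356138643], nat_lit 0, nat_lit 0, nat_lit 0, nat_lit 0, nat_lit 0, nat_lit 0, [], [nat_lit 34, nat_lit 40, nat_lit 40, nat_lit 80, nat_lit 7, nat_lit 226, nat_lit 20, nat_lit 7]⟩, ⟨p082_k6, nat_lit 0, nat_lit 0, nat_lit 921, nat_lit 0, nat_lit 1297517, [nat_lit 389104000, nat_lit 661344000, nat_lit 1166814000], [], [nat_lit 3121896144, nat_lit 3120320090,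 nat_lit 3115591928, nat_lit 3112686580, nat_lit 2616736156, nat_lit 2634880570, nat_lit 2689313811, nat_lit 2704132851], nat_lit 1271250, nat_lit 1271250, nat_lit 1271250, nat_lit 1271250, nat_lit 0, nat_lit 2373000, [nat_lit 1100000, nat_lit 1785000, nat_lit 1271250], [nat_lit 37, nat_lit 40, nat_lit 40, nat_lit 80, nat_lit 28, nat_lit 456, nat_lit 225, nat_lit 10]⟩,
 ⟨nat_lit 3162, nat_lit 3873, ⟨.ofNat (nat_lit 608082), .ofNat (nat_lit 672628), .ofNat (nat_lit 618965), .ofNat (nat_lit 683516), .ofNat (nat_lit 605237), .ofNat (nat_lit 666215), .ofNat (nat_lit 616300), .ofNat (nat_lit 677283)⟩, ⟨.ofNat (nat_lit 0), .ofNat (nat_lit 132088), .ofNat (nat_lit 0), .ofNat (nat_lit 175674), .ofNat (nat_lit 0), .ofNat (nat_lit 139899), .ofNat (nat_lit 0), .ofNat (nat_lit 184209)⟩⟩, [⟨nat_lit 22, nat_lit 97, nat_lit 100, nat_lit 15, nat_lit 58018954⟩, ⟨nat_lit 22, nat_lit 100, nat_lit 99, nat_lit 63, nat_lit 2126294⟩]⟩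
noncomputable def p082_l22 : Lf2 := ⟨nat_lit 0, nat_lit 20, [nat_lit 5, nat_lit 5, nat_lit 5, nat_lit 20], false, nat_lit 0, nat_lit 80, nat_lit 0, nat_lit 328, ⟨nat_lit 90, nat_lit 332, nat_lit 578, nat_lit 6, nat_lit 262, nat_lit 910, nat_lit 32, nat_lit 578, nat_lit 9600, nat_lit 239, nat_lit 117552, nat_lit 200, nat_lit 46906471, nat_lit 20093529, nat_lit 0, nat_lit 3053911, true, true⟩,
 nat_lit 0, nat_lit 0, nat_lit 1524, nat_lit 0, nat_lit 2721, nat_lit 846, nat_lit 0, nat_lit 0, nat_lit 0, nat_lit 100, nat_lit 0, nat_lit 0, nat_lit 0, nat_lit 0, nat_lit 38, nat_lit 364000, nat_lit 0, nat_lit 0, [(nat_lit 22, [(nat_lit 1, nat_lit 332), (nat_lit 5, nat_lit 578)])],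
 ⟨p082_k7, nat_lit 0, nat_lit 0, nat_lit 165, nat_lit 0, nat_lit 0, [nat_lit 1501996800, nat_lit 1080014400, nat_lit 46625334], [], [nat_lit 21883795730, nat_lit 22946512778, nat_lit 23305535090, nat_lit 24296510088, nat_lit 21049850784, nat_lit 22056064150, nat_lit 22413013142, nat_lit 23354621192], nat_lit 0, nat_lit 0, nat_lit 0, nat_lit 0, nat_lit 0, nat_lit 0, [], [nat_lit 34, nat_lit 40, nat_lit 40, nat_lit 80, nat_lit 7, nat_lit 226, nat_lit 20, nat_lit 7]⟩, ⟨p082_k14, nat_lit 0, nat_lit 0, nat_lit 910, nat_lit 0, nat_lit 1274359, [nat_lit 421920000, nat_lit 717120000, nat_lit 1265220000], [], [nat_lit 2944209546, nat_lit 2948441724, nat_lit 2959344684, nat_lit 2961783288, nat_lit 2391397312, nat_lit 2412094902, nat_lit 2470550685, nat_lit 2487611288], nat_lit 1271250, nat_lit 1271250, nat_lit 1271250, nat_lit 1271250, nat_lit 0, nat_lit 2316500, [nat_lit 1100000, nat_lit 1785000, nat_lit 1271250], [nat_lit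 37, nat_lit 40, nat_lit 40, nat_lit 80, nat_lit 28, nat_lit 456, nat_lit 225, nat_lit 10]⟩,
 ⟨nat_lit 3162, nat_lit 3873, ⟨.ofNat (nat_lit 618965), .ofNat (nat_lit 683516), .ofNat (nat_lit 629847), .ofNat (nat_lit 694401), .ofNat (nat_lit 616300), .ofNat (nat_lit 677283), .ofNat (nat_lit 627364), .ofNat (nat_lit 688349)⟩, ⟨.ofNat (nat_lit 0), .ofNat (nat_lit 132088), .ofNat (nat_lit 0), .ofNat (nat_lit 175674), .ofNat (nat_lit 0), .ofNat (nat_lit 139899), .ofNat (nat_lit 0), .ofNat (nat_lit 184209)⟩⟩, [⟨nat_lit 22, nat_lit 97, nat_lit 100, nat_lit 13, nat_lit 56181261⟩, ⟨nat_lit 22, nat_lit 100, nat_lit 99, nat_lit 63, nat_lit 4139416⟩]⟩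
noncomputable def p082_l23 : Lf2 := ⟨nat_lit 0, nat_lit 15, [nat_lit 30, nat_lit 5, nat_lit 5, nat_lit 20], false, nat_lit 0, nat_lit 80, nat_lit 0, nat_lit 300, ⟨nat_lit 95, nat_lit 905, nat_lit 0, nat_lit 7, nat_lit 286, nat_lit 905, nat_lit 29, nat_lit 0, nat_lit 0, nat_lit 0, nat_lit 0, nat_lit 0, nat_lit 44385965, nat_lit 22614035, nat_lit 0, nat_lit 3196893, true, true⟩,
 nat_lit 0, nat_lit 0, nat_lit 1721, nat_lit 0, nat_lit 2946, nat_lit 910, nat_lit 243, nat_lit 0, nat_lit 0, nat_lit 77, nat_lit 0, nat_lit 0, nat_lit 0, nat_lit 0, nat_lit 0, nat_lit 362000, nat_lit 0, nat_lit 0, [(nat_lit 22, [(nat_lit 1, nat_lit 905)])],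
 ⟨p082_k15, nat_lit 0, nat_lit 0, nat_lit 171, nat_lit 0, nat_lit 0, [nat_lit 1422392000, nat_lit 1852454000, nat_lit 2021980000], [], [nat_lit 24222868056, nat_lit 24729664796, nat_lit 25848938264, nat_lit 26313387552, nat_lit 23185906219, nat_lit 23700749243, nat_lit 24857983639, nat_lit 25330737293], nat_lit 0, nat_lit 0, nat_lit 0, nat_lit 0, nat_lit 0, nat_lit 0, [], [nat_lit 34, nat_lit 40, nat_lit 40, nat_lit 80, nat_lit 7, nat_lit 226, nat_lit 20, nat_lit 6]⟩, ⟨p082_k12, nat_lit 0, nat_lit 0, nat_lit 758, nat_lit 0, nat_lit 1144507, [nat_lit 445360000, nat_lit 756960000, nat_lit 1127840000], [], [nat_lit 3446881920, nat_lit 3465202660, nat_lit 3519128540, nat_lit 3535291300, nat_lit 2826919420, nat_lit 2826037060, nat_lit 2853329875, nat_lit 2857314693], nat_lit 1271250, nat_lit 1271250, nat_lit 1271250, nat_lit 1271250, nat_lit 0, nat_lit 2118750, [nat_lit 1100000, nat_lit 1785000, nat_lit 1271250], [nat_lit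 21, nat_lit 40, nat_lit 40, nat_lit 80, nat_lit 14, nat_lit 456, nat_lit 225, nat_lit 11]⟩,
 ⟨nat_lit 3535, nat_lit 3873, ⟨.ofNat (nat_lit 672628), .ofNat (nat_lit 737150), .ofNat (nat_lit 694416), .ofNat (nat_lit 758942), .ofNat (nat_lit 669426), .ofNat (nat_lit 732188), .ofNat (nat_lit 691374), .ofNat (nat_lit 754140)⟩, ⟨.ofNat (nat_lit 0), .ofNat (nat_lit 132088), .ofNat (nat_lit 0), .ofNat (nat_lit 153881), .ofNat (nat_lit 0), .ofNat (nat_lit 136093), .ofNat (nat_lit 0), .ofNat (nat_lit 158046)⟩⟩, [⟨nat_lit 22, nat_lit 87, nat_lit 100, nat_lit 60, nat_lit 11183692⟩]⟩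
noncomputable def p082_l24 : Lf2 := ⟨nat_lit 0, nat_lit 15, [nat_lit 30, nat_lit 5, nat_lit 5, nat_lit 20], false, nat_lit 0, nat_lit 80, nat_lit 0, nat_lit 300, ⟨nat_lit 72, nat_lit 928, nat_lit 0, nat_lit 7, nat_lit 284, nat_lit 785, nat_lit 30, nat_lit 0, nat_lit 0, nat_lit 0, nat_lit 0, nat_lit 0, nat_lit 44554347, nat_lit 22445653, nat_lit 0, nat_lit 3188348, true, true⟩,
 nat_lit 0, nat_lit 0, nat_lit 1291, nat_lit 0, nat_lit 3333, nat_lit 683, nat_lit 192, nat_lit 0, nat_lit 0, nat_lit 54, nat_lit 0, nat_lit 0, nat_lit 0, nat_lit 0, nat_lit 0, nat_lit 232000, nat_lit 0, nat_lit 0, [(nat_lit 22, [(nat_lit 0, nat_lit 928)])],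
 ⟨p082_k16, nat_lit 0, nat_lit 0, nat_lit 155, nat_lit 0, nat_lit 0, [nat_lit 1601408001, nat_lit 2166438401, nat_lit 2612982400], [], [nat_lit 25785768387, nat_lit 26276910062, nat_lit 27319763483, nat_lit 27770160050, nat_lit 24704952126, nat_lit 25168562774, nat_lit 26161691958, nat_lit 26587951250], nat_lit 0, nat_lit 0, nat_lit 0, nat_lit 0, nat_lit 0, nat_lit 0, [], [nat_lit 6, nat_lit 40, nat_lit 40, nat_lit 80, nat_lit 3, nat_lit 226, nat_lit 20, nat_lit 7]⟩, ⟨p082_k12, nat_lit 0, nat_lit 0, nat_lit 862, nat_lit 0, nat_lit 1349552, [nat_lit 337536000, nat_lit 573696000, nat_lit 854784000], [], [nat_lit 2728757864, nat_lit 2732477214, nat_lit 2758429804, nat_lit 2759094512, nat_lit 2224293204, nat_lit 2217037495, nat_lit 2227756825, nat_lit 2218377437], nat_lit 1271250, nat_lit 1271250, nat_lit 1271250, nat_lit 1271250, nat_lit 0, nat_lit 2118750, [nat_lit 1100000, nat_lit 1785000, nat_lit 1271250], [nat_lit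 21, nat_lit 40, nat_lit 40, nat_lit 80, nat_lit 14, nat_lit 456, nat_lit 225, nat_lit 11]⟩,
 ⟨nat_lit 3162, nat_lit 3536, ⟨.ofNat (nat_lit 669427), .ofNat (nat_lit 732188), .ofNat (nat_lit 691376), .ofNat (nat_lit 754141), .ofNat (nat_lit 666215), .ofNat (nat_lit 727168), .ofNat (nat_lit 688367), .ofNat (nat_lit 749323)⟩, ⟨.ofNat (nat_lit 0), .ofNat (nat_lit 136093), .ofNat (nat_lit 0), .ofNat (nat_lit 158046), .ofNat (nat_lit 0), .ofNat (nat_lit 139899), .ofNat (nat_lit 0), .ofNat (nat_lit 162054)⟩⟩, [⟨nat_lit 22, nat_lit 89, nat_lit 100, nat_lit 28, nat_lit 15723808⟩]⟩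
noncomputable def p082_l25 : Lf2 := ⟨nat_lit 0, nat_lit 20, [nat_lit 5, nat_lit 5, nat_lit 5, nat_lit 20], false, nat_lit 0, nat_lit 80, nat_lit 0, nat_lit 300, ⟨nat_lit 198, nat_lit 802, nat_lit 0, nat_lit 7, nat_lit 283, nat_lit 802, nat_lit 33, nat_lit 0, nat_lit 0, nat_lit 0, nat_lit 0, nat_lit 0, nat_lit 44615779, nat_lit 22384221, nat_lit 0, nat_lit 3185195, true, true⟩,
 nat_lit 0, nat_lit 0, nat_lit 3399, nat_lit 0, nat_lit 3096, nat_lit 1799, nat_lit 308, nat_lit 0, nat_lit 0, nat_lit 157, nat_lit 0, nat_lit 0, nat_lit 0, nat_lit 0, nat_lit 0, nat_lit 320800, nat_lit 0, nat_lit 0, [(nat_lit 22, [(nat_lit 1, nat_lit 802)])],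
 ⟨p082_k7, nat_lit 0, nat_lit 0, nat_lit 171, nat_lit 0, nat_lit 0, [nat_lit 1491772801, nat_lit 2175173600, nat_lit 2696293600], [], [nat_lit 24352367857, nat_lit 24869093097, nat_lit 26039193040, nat_lit 26548900864, nat_lit 23221882646, nat_lit 23747217270, nat_lit 24921450566, nat_lit 25403219070], nat_lit 0, nat_lit 0, nat_lit 0, nat_lit 0, nat_lit 0, nat_lit 0, [], [nat_lit 34, nat_lit 40, nat_lit 40, nat_lit 80, nat_lit 7, nat_lit 226, nat_lit 20, nat_lit 6]⟩, ⟨p082_k6, nat_lit 0, nat_lit 0, nat_lit 640, nat_lit 0, nat_lit 756328, [nat_lit 928224000, nat_lit 1577664000, nat_lit 2783484000], [], [nat_lit 7462736204, nat_lit 7480919985, nat_lit 7612020332, nat_lit 7630360081, nat_lit 6174592290, nat_lit 6187265491, nat_lit 6292248498, nat_lit 6302083351], nat_lit 1271250, nat_lit 1271250, nat_lit 1271250, nat_lit 1271250, nat_lit 0, nat_lit 2118750, [nat_lit 1100000, nat_lit 1785000, nat_lit 1271250], [nat_lit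 37, nat_lit 40, nat_lit 40, nat_lit 80, nat_lit 28, nat_lit 456, nat_lit 225, nat_lit 10]⟩,
 ⟨nat_lit 3535, nat_lit 3873, ⟨.ofNat (nat_lit 672628), .ofNat (nat_lit 737150), .ofNat (nat_lit 683522), .ofNat (nat_lit 748046), .ofNat (nat_lit 669426), .ofNat (nat_lit 732188), .ofNat (nat_lit 680400), .ofNat (nat_lit 743164)⟩, ⟨.ofNat (nat_lit 0), .ofNat (nat_lit 153881), .ofNat (nat_lit 0), .ofNat (nat_lit 175674), .ofNat (nat_lit 0), .ofNat (nat_lit 158046), .ofNat (nat_lit 0), .ofNat (nat_lit 179999)⟩⟩, [⟨nat_lit 22, nat_lit 87, nat_lit 100, nat_lit 60, nat_lit 26197955⟩]⟩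
noncomputable def p082_l26 : Lf2 := ⟨nat_lit 0, nat_lit 20, [nat_lit 5, nat_lit 5, nat_lit 5, nat_lit 20], false, nat_lit 0, nat_lit 80, nat_lit 0, nat_lit 300, ⟨nat_lit 188, nat_lit 812, nat_lit 0, nat_lit 7, nat_lit 282, nat_lit 812, nat_lit 34, nat_lit 0, nat_lit 0, nat_lit 0, nat_lit 0, nat_lit 0, nat_lit 44786509, nat_lit 22213491, nat_lit 0, nat_lit 3176334, true, true⟩,
 nat_lit 0, nat_lit 0, nat_lit 3226, nat_lit 0, nat_lit 3014, nat_lit 1707, nat_lit 293, nat_lit 0, nat_lit 0, nat_lit 149, nat_lit 0, nat_lit 0, nat_lit 0, nat_lit 0, nat_lit 0, nat_lit 324800, nat_lit 0, nat_lit 0, [(nat_lit 22, [(nat_lit 1, nat_lit 812)])],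
 ⟨p082_k17, nat_lit 0, nat_lit 0, nat_lit 174, nat_lit 0, nat_lit 0, [nat_lit 1485036801, nat_lit 2143841601, nat_lit 2630561600], [], [nat_lit 25110657868, nat_lit 25552936704, nat_lit 26506540981, nat_lit 26999368600, nat_lit 24209365452, nat_lit 24627967800, nat_lit 25536815106, nat_lit 25923367800], nat_lit 0, nat_lit 0, nat_lit 0, nat_lit 0, nat_lit 0, nat_lit 0, [], [nat_lit 34, nat_lit 40, nat_lit 40, nat_lit 80, nat_lit 7, nat_lit 226, nat_lit 20, nat_lit 6]⟩, ⟨p082_k6, nat_lit 0, nat_lit 0, nat_lit 755, nat_lit 0, nat_lit 963174, [nat_lit 881344000, nat_lit 1497984000, nat_lit 2642904000], [], [nat_lit 7090047868, nat_lit 7107325317, nat_lit 7231796804, nat_lit 7244727633, nat_lit 5867594586, nat_lit 5879641841, nat_lit 5979326744, nat_lit 5986817896], nat_lit 1271250, nat_lit 1271250, nat_lit 1271250, nat_lit 1271250, nat_lit 0, nat_lit 2118750, [nat_lit 1100000, nat_lit 1785000, nat_lit 1271250], [nat_lit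 37, nat_lit 40, nat_lit 40, nat_lit 80, nat_lit 28, nat_lit 456, nat_lit 225, nat_lit 10]⟩,
 ⟨nat_lit 3162, nat_lit 3536, ⟨.ofNat (nat_lit 669427), .ofNat (nat_lit 732188), .ofNat (nat_lit 680403), .ofNat (nat_lit 743164), .ofNat (nat_lit 666215), .ofNat (nat_lit 727168), .ofNat (nat_lit 677292), .ofNat (nat_lit 738246)⟩, ⟨.ofNat (nat_lit 0), .ofNat (nat_lit 158046), .ofNat (nat_lit 0), .ofNat (nat_lit 179999), .ofNat (nat_lit 0), .ofNat (nat_lit 162054), .ofNat (nat_lit 0), .ofNat (nat_lit 184209)⟩⟩, [⟨nat_lit 22, nat_lit 87, nat_lit 100, nat_lit 60, nat_lit 24862536⟩]⟩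
noncomputable def p082_l27 : Lf2 := ⟨nat_lit 0, nat_lit 20, [nat_lit 5, nat_lit 5, nat_lit 5, nat_lit 20], false, nat_lit 0, nat_lit 80, nat_lit 0, nat_lit 300, ⟨nat_lit 242, nat_lit 758, nat_lit 0, nat_lit 7, nat_lit 288, nat_lit 758, nat_lit 33, nat_lit 0, nat_lit 0, nat_lit 0, nat_lit 0, nat_lit 0, nat_lit 44156765, nat_lit 22843235, nat_lit 0, nat_lit 3208296, true, true⟩,
 nat_lit 0, nat_lit 0, nat_lit 3928, nat_lit 0, nat_lit 3198, nat_lit 2182, nat_lit 323, nat_lit 0, nat_lit 0, nat_lit 286, nat_lit 0, nat_lit 0, nat_lit 0, nat_lit 0, nat_lit 0, nat_lit 303200, nat_lit 0, nat_lit 0, [(nat_lit 22, [(nat_lit 1, nat_lit 758)])],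
 ⟨p082_k7, nat_lit 0, nat_lit 0, nat_lit 171, nat_lit 0, nat_lit 0, [nat_lit 1521411201, nat_lit 2313034400, nat_lit 2985514400], [], [nat_lit 24529432932, nat_lit 25079865726, nat_lit 26270057120, nat_lit 26783463532, nat_lit 23253752305, nat_lit 23749807765, nat_lit 24920482209, nat_lit 25408380811], nat_lit 0, nat_lit 0, nat_lit 0, nat_lit 0, nat_lit 0, nat_lit 0, [], [nat_lit 34, nat_lit 40, nat_lit 40, nat_lit 80, nat_lit 7, nat_lit 226, nat_lit 20, nat_lit 6]⟩, ⟨p082_k14, nat_lit 0, nat_lit 0, nat_lit 645, nat_lit 0, nat_lit 774646, [nat_lit 1134496000, nat_lit 1928256000, nat_lit 3402036000], [], [nat_lit 7955274384, nat_lit 8002071024, nat_lit 8239051988, nat_lit 8283719368, nat_lit 6689917306, nat_lit 6705614239, nat_lit 6828155623, nat_lit 6841985233], nat_lit 1271250, nat_lit 1271250, nat_lit 1271250, nat_lit 1271250, nat_lit 0, nat_lit 2118750, [nat_lit 1100000, nat_lit 1785000, nat_lit 1271250], [nat_lit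 37, nat_lit 40, nat_lit 40, nat_lit 80, nat_lit 28, nat_lit 456, nat_lit 225, nat_lit 10]⟩,
 ⟨nat_lit 3535, nat_lit 3873, ⟨.ofNat (nat_lit 683522), .ofNat (nat_lit 748046), .ofNat (nat_lit 694416), .ofNat (nat_lit 758942), .ofNat (nat_lit 680400), .ofNat (nat_lit 743164), .ofNat (nat_lit 691374), .ofNat (nat_lit 754140)⟩, ⟨.ofNat (nat_lit 0), .ofNat (nat_lit 153881), .ofNat (nat_lit 0), .ofNat (nat_lit 175674), .ofNat (nat_lit 0), .ofNat (nat_lit 158046), .ofNat (nat_lit 0), .ofNat (nat_lit 179999)⟩⟩, [⟨nat_lit 22, nat_lit 87, nat_lit 100, nat_lit 60, nat_lit 37962615⟩]⟩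
noncomputable def p082_l28 : Lf2 := ⟨nat_lit 0, nat_lit 20, [nat_lit 5, nat_lit 5, nat_lit 5, nat_lit 20], false, nat_lit 0, nat_lit 80, nat_lit 0, nat_lit 300, ⟨nat_lit 224, nat_lit 776, nat_lit 0, nat_lit 7, nat_lit 286, nat_lit 776, nat_lit 34, nat_lit 0, nat_lit 0, nat_lit 0, nat_lit 0, nat_lit 0, nat_lit 44322771, nat_lit 22677229, nat_lit 0, nat_lit 3200063, true, true⟩,
 nat_lit 0, nat_lit 0, nat_lit 3425, nat_lit 0, nat_lit 3092, nat_lit 1902, nat_lit 310, nat_lit 0, nat_lit 0, nat_lit 180, nat_lit 0, nat_lit 0, nat_lit 0, nat_lit 0, nat_lit 0, nat_lit 310400, nat_lit 0, nat_lit 0, [(nat_lit 22, [(nat_lit 1, nat_lit 776)])],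
 ⟨p082_k17, nat_lit 0, nat_lit 0, nat_lit 174, nat_lit 0, nat_lit 0, [nat_lit 1509286401, nat_lit 2256636801, nat_lit 2867196800], [], [nat_lit 25150550550, nat_lit 25596906758, nat_lit 26558166364, nat_lit 27185858800, nat_lit 24196199102, nat_lit 24618536246, nat_lit 25532015114, nat_lit 25921872880], nat_lit 0, nat_lit 0, nat_lit 0, nat_lit 0, nat_lit 0, nat_lit 0, [], [nat_lit 34, nat_lit 40, nat_lit 40, nat_lit 80, nat_lit 7, nat_lit 226, nat_lit 20, nat_lit 6]⟩, ⟨p082_k14, nat_lit 0, nat_lit 0, nat_lit 753, nat_lit 0, nat_lit 962259, [nat_lit 1050112000, nat_lit 1784832000, nat_lit 3148992000], [], [nat_lit 8293849090, nat_lit 8315826108, nat_lit 8457278596, nat_lit 8473283216, nat_lit 6973547343, nat_lit 6989532186, nat_lit 7103638241, nat_lit 7114485578], nat_lit 1271250, nat_lit 1271250, nat_lit 1271250, nat_lit 1271250, nat_lit 0, nat_lit 2118750, [nat_lit 1100000, nat_lit 1785000, nat_lit 1271250], [nat_lit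 37, nat_lit 40, nat_lit 40, nat_lit 80, nat_lit 28, nat_lit 456, nat_lit 225, nat_lit 10]⟩,
 ⟨nat_lit 3162, nat_lit 3536, ⟨.ofNat (nat_lit 680403), .ofNat (nat_lit 743164), .ofNat (nat_lit 691376), .ofNat (nat_lit 754141), .ofNat (nat_lit 677292), .ofNat (nat_lit 738246), .ofNat (nat_lit 688367), .ofNat (nat_lit 749323)⟩, ⟨.ofNat (nat_lit 0), .ofNat (nat_lit 158046), .ofNat (nat_lit 0), .ofNat (nat_lit 179999), .ofNat (nat_lit 0), .ofNat (nat_lit 162054), .ofNat (nat_lit 0), .ofNat (nat_lit 184209)⟩⟩, [⟨nat_lit 22, nat_lit 87, nat_lit 100, nat_lit 60, nat_lit 33909541⟩]⟩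
noncomputable def p082_l29 : Lf2 := ⟨nat_lit 0, nat_lit 15, [nat_lit 30, nat_lit 5, nat_lit 5, nat_lit 20], false, nat_lit 0, nat_lit 80, nat_lit 0, nat_lit 296, ⟨nat_lit 120, nat_lit 680, nat_lit 200, nat_lit 6, nat_lit 268, nat_lit 880, nat_lit 29, nat_lit 200, nat_lit 8067, nat_lit 237, nat_lit 161080, nat_lit 200, nat_lit 46200810, nat_lit 20799190, nat_lit 0, nat_lit 3097243, true, false⟩,
 nat_lit 0, nat_lit 0, nat_lit 1776, nat_lit 0, nat_lit 2872, nat_lit 1033, nat_lit 90, nat_lit 0, nat_lit 0, nat_lit 122, nat_lit 0, nat_lit 0, nat_lit 0, nat_lit 0, nat_lit 0, nat_lit 472000, nat_lit 0, nat_lit 0, [(nat_lit 22, [(nat_lit 1, nat_lit 680), (nat_lit 6, nat_lit 200)])],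
 ⟨p082_k15, nat_lit 0, nat_lit 0, nat_lit 165, nat_lit 0, nat_lit 0, [nat_lit 1318912001, nat_lit 1146464000, nat_lit 151440000], [], [nat_lit 22170737873, nat_lit 23256359809, nat_lit 23610017393, nat_lit 24620545216, nat_lit 21284440092, nat_lit 22385530252, nat_lit 22783315660, nat_lit 23802649996], nat_lit 0, nat_lit 0, nat_lit 0, nat_lit 0, nat_lit 0, nat_lit 0, [], [nat_lit 34, nat_lit 40, nat_lit 40, nat_lit 80, nat_lit 7, nat_lit 226, nat_lit 20, nat_lit 7]⟩, ⟨p082_k9, nat_lit 0, nat_lit 0, nat_lit 852, nat_lit 0, nat_lit 1312148, [nat_lit 562560000, nat_lit 956160000, nat_lit 1424640000], [], [nat_lit 3807166986, nat_lit 3838332588, nat_lit 3863574130, nat_lit 3888815672, nat_lit 3177833858, nat_lit 3185176840, nat_lit 3191359353, nat_lit 3209030468], nat_lit 1271250, nat_lit 1271250, nat_lit 1271250, nat_lit 1271250, nat_lit 0, nat_lit 2090500, [nat_lit 1100000, nat_lit 1785000, nat_lit 1271250], [nat_lit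 21, nat_lit 40, nat_lit 40, nat_lit 80, nat_lit 14, nat_lit 456, nat_lit 225, nat_lit 11]⟩,
 ⟨nat_lit 3162, nat_lit 3873, ⟨.ofNat (nat_lit 629847), .ofNat (nat_lit 694401), .ofNat (nat_lit 651611), .ofNat (nat_lit 716165), .ofNat (nat_lit 627364), .ofNat (nat_lit 688349), .ofNat (nat_lit 649490), .ofNat (nat_lit 710475)⟩, ⟨.ofNat (nat_lit 0), .ofNat (nat_lit 132088), .ofNat (nat_lit 0), .ofNat (nat_lit 153881), .ofNat (nat_lit 0), .ofNat (nat_lit 139899), .ofNat (nat_lit 0), .ofNat (nat_lit 162054)⟩⟩, [⟨nat_lit 22, nat_lit 100, nat_lit 99, nat_lit 63, nat_lit 15976513⟩]⟩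
noncomputable def p082_l30 : Lf2 := ⟨nat_lit 0, nat_lit 20, [nat_lit 5, nat_lit 5, nat_lit 5, nat_lit 20], false, nat_lit 0, nat_lit 80, nat_lit 0, nat_lit 320, ⟨nat_lit 278, nat_lit 722, nat_lit 0, nat_lit 6, nat_lit 269, nat_lit 722, nat_lit 33, nat_lit 0, nat_lit 0, nat_lit 0, nat_lit 0, nat_lit 0, nat_lit 46156293, nat_lit 20843707, nat_lit 0, nat_lit 3099889, true, false⟩,
 nat_lit 0, nat_lit 0, nat_lit 4102, nat_lit 0, nat_lit 3433, nat_lit 2387, nat_lit 369, nat_lit 0, nat_lit 0, nat_lit 286, nat_lit 0, nat_lit 0, nat_lit 0, nat_lit 0, nat_lit 0, nat_lit 288800, nat_lit 0, nat_lit 0, [(nat_lit 22, [(nat_lit 1, nat_lit 722)])],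
 ⟨p082_k7, nat_lit 0, nat_lit 0, nat_lit 161, nat_lit 0, nat_lit 0, [nat_lit 1545660801, nat_lit 2425829600, nat_lit 3222149600], [], [nat_lit 22927678058, nat_lit 23545031093, nat_lit 24490264622, nat_lit 25070718231, nat_lit 21422287851, nat_lit 21975322110, nat_lit 22862202385, nat_lit 23384507691], nat_lit 0, nat_lit 0, nat_lit 0, nat_lit 0, nat_lit 0, nat_lit 0, [], [nat_lit 34, nat_lit 40, nat_lit 40, nat_lit 80, nat_lit 7, nat_lit 226, nat_lit 20, nat_lit 7]⟩, ⟨p082_k10, nat_lit 0, nat_lit 0, nat_lit 659, nat_lit 0, nat_lit 873491, [nat_lit 1303264000, nat_lit 2215104000, nat_lit 3300416000], [], [nat_lit 8531614118, nat_lit 8658051268, nat_lit 8765849042, nat_lit 8873646816, nat_lit 7402702364, nat_lit 7446879356, nat_lit 7501092302, nat_lit 7647244064], nat_lit 1271250, nat_lit 1271250, nat_lit 1271250, nat_lit 1271250, nat_lit 0, nat_lit 2260000, [nat_lit 1100000, nat_lit 1785000, nat_lit 1271250], [nat_lit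 21, nat_lit 40, nat_lit 40, nat_lit 80, nat_lit 14, nat_lit 456, nat_lit 225, nat_lit 11]⟩,
 ⟨nat_lit 3535, nat_lit 3873, ⟨.ofNat (nat_lit 629888), .ofNat (nat_lit 694416), .ofNat (nat_lit 651675), .ofNat (nat_lit 716203), .ofNat (nat_lit 628606), .ofNat (nat_lit 691374), .ofNat (nat_lit 650552), .ofNat (nat_lit 713320)⟩, ⟨.ofNat (nat_lit 0), .ofNat (nat_lit 153881), .ofNat (nat_lit 0), .ofNat (nat_lit 175674), .ofNat (nat_lit 0), .ofNat (nat_lit 158046), .ofNat (nat_lit 0), .ofNat (nat_lit 179999)⟩⟩, [⟨nat_lit 19, nat_lit 100, nat_lit 93, nat_lit 81, nat_lit 1488098⟩, ⟨nat_lit 22, nat_lit 100, nat_lit 99, nat_lit 63, nat_lit 49286064⟩]⟩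
noncomputable def p082_l31 : Lf2 := ⟨nat_lit 0, nat_lit 20, [nat_lit 5, nat_lit 5, nat_lit 5, nat_lit 20], false, nat_lit 0, nat_lit 80, nat_lit 0, nat_lit 320, ⟨nat_lit 248, nat_lit 656, nat_lit 96, nat_lit 6, nat_lit 268, nat_lit 752, nat_lit 34, nat_lit 96, nat_lit 11267, nat_lit 241, nat_lit 155390, nat_lit 200, nat_lit 46243677, nat_lit 20756323, nat_lit 0, nat_lit 3094685, true, false⟩,
 nat_lit 0, nat_lit 0, nat_lit 3600, nat_lit 0, nat_lit 3126, nat_lit 2095, nat_lit 287, nat_lit 0, nat_lit 0, nat_lit 249, nat_lit 0, nat_lit 0, nat_lit 0, nat_lit 0, nat_lit 0, nat_lit 300800, nat_lit 0, nat_lit 0, [(nat_lit 22, [(nat_lit 1, nat_lit 656), (nat_lit 5, nat_lit 96)])],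
 ⟨p082_k17, nat_lit 0, nat_lit 0, nat_lit 165, nat_lit 0, nat_lit 0, [nat_lit 1488742401, nat_lit 2105158400, nat_lit 2547372800], [], [nat_lit 23167915796, nat_lit 23729991140, nat_lit 24612348337, nat_lit 25165610928, nat_lit 21998750474, nat_lit 22530256972, nat_lit 23365708544, nat_lit 23857352564], nat_lit 0, nat_lit 0, nat_lit 0, nat_lit 0, nat_lit 0, nat_lit 0, [], [nat_lit 34, nat_lit 40, nat_lit 40, nat_lit 80, nat_lit 7, nat_lit 226, nat_lit 20, nat_lit 7]⟩, ⟨p082_k10, nat_lit 0, nat_lit 0, nat_lit 723, nat_lit 0, nat_lit 1039992, [nat_lit 1162624000, nat_lit 1976064000, nat_lit 2944256000], [], [nat_lit 8061481270, nat_lit 8126421444, nat_lit 8179305934, nat_lit 8232190424, nat_lit 6850517248, nat_lit 6861338068, nat_lit 6864346680, nat_lit 6890516356], nat_lit 1271250, nat_lit 1271250, nat_lit 1271250, nat_lit 1271250, nat_lit 0, nat_lit 2260000, [nat_lit 1100000, nat_lit 1785000, nat_lit 1271250], [nat_lit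 21, nat_lit 40, nat_lit 40, nat_lit 80, nat_lit 14, nat_lit 456, nat_lit 225, nat_lit 11]⟩,
 ⟨nat_lit 3162, nat_lit 3536, ⟨.ofNat (nat_lit 628604), .ofNat (nat_lit 691376), .ofNat (nat_lit 650549), .ofNat (nat_lit 713320), .ofNat (nat_lit 627403), .ofNat (nat_lit 688367), .ofNat (nat_lit 649550), .ofNat (nat_lit 710513)⟩, ⟨.ofNat (nat_lit 0), .ofNat (nat_lit 158046), .ofNat (nat_lit 0), .ofNat (nat_lit 179999), .ofNat (nat_lit 0), .ofNat (nat_lit 162054), .ofNat (nat_lit 0), .ofNat (nat_lit 184209)⟩⟩, [⟨nat_lit 22, nat_lit 100, nat_lit 99, nat_lit 63, nat_lit 39746806⟩]⟩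
noncomputable def p082_l32 : Lf2 := ⟨nat_lit 0, nat_lit 15, [nat_lit 30, nat_lit 5, nat_lit 5, nat_lit 20], false, nat_lit 0, nat_lit 80, nat_lit 0, nat_lit 296, ⟨nat_lit 137, nat_lit 863, nat_lit 0, nat_lit 7, nat_lit 294, nat_lit 863, nat_lit 29, nat_lit 0, nat_lit 0, nat_lit 0, nat_lit 0, nat_lit 0, nat_lit 43473095, nat_lit 23526905, nat_lit 0, nat_lit 3240770, true, true⟩,
 nat_lit 0, nat_lit 0, nat_lit 1964, nat_lit 0, nat_lit 3061, nat_lit 1143, nat_lit 268, nat_lit 0, nat_lit 0, nat_lit 137, nat_lit 0, nat_lit 0, nat_lit 0, nat_lit 0, nat_lit 0, nat_lit 345200, nat_lit 0, nat_lit 0, [(nat_lit 22, [(nat_lit 1, nat_lit 863)])],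
 ⟨p082_k15, nat_lit 0, nat_lit 0, nat_lit 171, nat_lit 0, nat_lit 0, [nat_lit 1450683201, nat_lit 1984048401, nat_lit 2295328400], [], [nat_lit 24270916797, nat_lit 24787354657, nat_lit 25963215440, nat_lit 26468413674, nat_lit 23119794929, nat_lit 23632444591, nat_lit 24802711477, nat_lit 25282376516], nat_lit 0, nat_lit 0, nat_lit 0, nat_lit 0, nat_lit 0, nat_lit 0, [], [nat_lit 34, nat_lit 40, nat_lit 40, nat_lit 80, nat_lit 7, nat_lit 226, nat_lit 20, nat_lit 6]⟩, ⟨p082_k9, nat_lit 0, nat_lit 0, nat_lit 753, nat_lit 0, nat_lit 1142953, [nat_lit 642256000, nat_lit 1091616000, nat_lit 1626464000], [], [nat_lit 4583567766, nat_lit 4613040288, nat_lit 4680925466, nat_lit 4703462804, nat_lit 3854776968, nat_lit 3859807398, nat_lit 3896090544, nat_lit 3909916839], nat_lit 1271250, nat_lit 1271250, nat_lit 1271250, nat_lit 1271250, nat_lit 0, nat_lit 2090500, [nat_lit 1100000, nat_lit 1785000, nat_lit 1271250], [nat_lit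 21, nat_lit 40, nat_lit 40, nat_lit 80, nat_lit 14, nat_lit 456, nat_lit 225, nat_lit 11]⟩,
 ⟨nat_lit 3535, nat_lit 3873, ⟨.ofNat (nat_lit 694416), .ofNat (nat_lit 758942), .ofNat (nat_lit 716203), .ofNat (nat_lit 780730), .ofNat (nat_lit 691374), .ofNat (nat_lit 754140), .ofNat (nat_lit 713320), .ofNat (nat_lit 776087)⟩, ⟨.ofNat (nat_lit 0), .ofNat (nat_lit 132088), .ofNat (nat_lit 0), .ofNat (nat_lit 153881), .ofNat (nat_lit 0), .ofNat (nat_lit 136093), .ofNat (nat_lit 0), .ofNat (nat_lit 158046)⟩⟩, [⟨nat_lit 22, nat_lit 87, nat_lit 100, nat_lit 60, nat_lit 21409943⟩]⟩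
noncomputable def p082_l33 : Lf2 := ⟨nat_lit 0, nat_lit 15, [nat_lit 30, nat_lit 5, nat_lit 5, nat_lit 20], false, nat_lit 0, nat_lit 80, nat_lit 0, nat_lit 296, ⟨nat_lit 96, nat_lit 904, nat_lit 0, nat_lit 7, nat_lit 293, nat_lit 904, nat_lit 30, nat_lit 0, nat_lit 0, nat_lit 0, nat_lit 0, nat_lit 0, nat_lit 43632021, nat_lit 23367979, nat_lit 0, nat_lit 3233426, true, true⟩,
 nat_lit 0, nat_lit 0, nat_lit 1368, nat_lit 0, nat_lit 3441, nat_lit 796, nat_lit 172, nat_lit 0, nat_lit 0, nat_lit 96, nat_lit 0, nat_lit 0, nat_lit 0, nat_lit 0, nat_lit 0, nat_lit 226000, nat_lit 0, nat_lit 0, [(nat_lit 22, [(nat_lit 0, nat_lit 904)])],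
 ⟨p082_k16, nat_lit 0, nat_lit 0, nat_lit 155, nat_lit 0, nat_lit 0, [nat_lit 1612544001, nat_lit 2231651200, nat_lit 2707043200], [], [nat_lit 26021654946, nat_lit 26519165921, nat_lit 27570630938, nat_lit 28026459797, nat_lit 24867699249, nat_lit 25337147945, nat_lit 26338101513, nat_lit 26769342197], nat_lit 0, nat_lit 0, nat_lit 0, nat_lit 0, nat_lit 0, nat_lit 0, [], [nat_lit 6, nat_lit 40, nat_lit 40, nat_lit 80, nat_lit 3, nat_lit 226, nat_lit 20, nat_lit 7]⟩, ⟨p082_k9, nat_lit 0, nat_lit 0, nat_lit 842, nat_lit 0, nat_lit 1312148, [nat_lit 450048000, nat_lit 764928000, nat_lit 1139712000], [], [nat_lit 3232727608, nat_lit 3253468832, nat_lit 3300976704, nat_lit 3316882800, nat_lit 2727733937, nat_lit 2731427098, nat_lit 2756897644, nat_lit 2758652135], nat_lit 1271250, nat_lit 1271250, nat_lit 1271250, nat_lit 1271250, nat_lit 0, nat_lit 2090500, [nat_lit 1100000, nat_lit 1785000, nat_lit 1271250], [nat_lit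 21, nat_lit 40, nat_lit 40, nat_lit 80, nat_lit 14, nat_lit 456, nat_lit 225, nat_lit 11]⟩,
 ⟨nat_lit 3162, nat_lit 3536, ⟨.ofNat (nat_lit 691376), .ofNat (nat_lit 754141), .ofNat (nat_lit 713320), .ofNat (nat_lit 776092), .ofNat (nat_lit 688367), .ofNat (nat_lit 749323), .ofNat (nat_lit 710513), .ofNat (nat_lit 771477)⟩, ⟨.ofNat (nat_lit 0), .ofNat (nat_lit 136093), .ofNat (nat_lit 0), .ofNat (nat_lit 158046), .ofNat (nat_lit 0), .ofNat (nat_lit 139899), .ofNat (nat_lit 0), .ofNat (nat_lit 162054)⟩⟩, [⟨nat_lit 22, nat_lit 90, nat_lit 100, nat_lit 27, nat_lit 32050729⟩]⟩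
noncomputable def p082_l34 : Lf2 := ⟨nat_lit 0, nat_lit 20, [nat_lit 5, nat_lit 5, nat_lit 5, nat_lit 20], false, nat_lit 0, nat_lit 80, nat_lit 0, nat_lit 300, ⟨nat_lit 276, nat_lit 724, nat_lit 0, nat_lit 7, nat_lit 291, nat_lit 724, nat_lit 34, nat_lit 0, nat_lit 0, nat_lit 0, nat_lit 0, nat_lit 0, nat_lit 43781234, nat_lit 23218766, nat_lit 0, nat_lit 3226419, true, true⟩,
 nat_lit 0, nat_lit 0, nat_lit 3964, nat_lit 0, nat_lit 3311, nat_lit 2307, nat_lit 0, nat_lit 0, nat_lit 0, nat_lit 276, nat_lit 0, nat_lit 0, nat_lit 0, nat_lit 0, nat_lit 0, nat_lit 653800, nat_lit 0, nat_lit 0, [(nat_lit 22, [(nat_lit 1, nat_lit 117), (nat_lit 2, nat_lit 607)])],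
 ⟨p082_k7, nat_lit 0, nat_lit 0, nat_lit 174, nat_lit 0, nat_lit 0, [nat_lit 1566327467, nat_lit 1472400401, nat_lit 27934267], [], [nat_lit 25029660855, nat_lit 25945269283, nat_lit 26496279439, nat_lit 27709465900, nat_lit 23951316883, nat_lit 24816963487, nat_lit 25344829225, nat_lit 26162936285], nat_lit 0, nat_lit 0, nat_lit 0, nat_lit 0, nat_lit 0, nat_lit 0, [], [nat_lit 34, nat_lit 40, nat_lit 40, nat_lit 80, nat_lit 7, nat_lit 226, nat_lit 20, nat_lit 6]⟩, ⟨p082_k10, nat_lit 0, nat_lit 0, nat_lit 687, nat_lit 0, nat_lit 966038, [nat_lit 1293888000, nat_lit 2199168000, nat_lit 3276672000], [], [nat_lit 8953144686, nat_lit 9006729759, nat_lit 9260892390, nat_lit 9305000919, nat_lit 7678555563, nat_lit 7698702956, nat_lit 7833259275, nat_lit 7847157161], nat_lit 1271250, nat_lit 1271250, nat_lit 1271250, nat_lit 1271250, nat_lit 0, nat_lit 2118750, [nat_lit 1100000, nat_lit 1785000, nat_lit 1271250], [nat_lit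 21, nat_lit 40, nat_lit 40, nat_lit 80, nat_lit 14, nat_lit 456, nat_lit 225, nat_lit 11]⟩,
 ⟨nat_lit 3162, nat_lit 3873, ⟨.ofNat (nat_lit 694401), .ofNat (nat_lit 758943), .ofNat (nat_lit 705283), .ofNat (nat_lit 769831), .ofNat (nat_lit 688349), .ofNat (nat_lit 749323), .ofNat (nat_lit 699412), .ofNat (nat_lit 760392)⟩, ⟨.ofNat (nat_lit 0), .ofNat (nat_lit 153881), .ofNat (nat_lit 0), .ofNat (nat_lit 175674), .ofNat (nat_lit 0), .ofNat (nat_lit 162054), .ofNat (nat_lit 0), .ofNat (nat_lit 184209)⟩⟩, [⟨nat_lit 22, nat_lit 87, nat_lit 100, nat_lit 60, nat_lit 48896907⟩]⟩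
noncomputable def p082_l35 : Lf2 := ⟨nat_lit 0, nat_lit 20, [nat_lit 5, nat_lit 5, nat_lit 5, nat_lit 20], false, nat_lit 0, nat_lit 80, nat_lit 0, nat_lit 300, ⟨nat_lit 411, nat_lit 589, nat_lit 0, nat_lit 7, nat_lit 296, nat_lit 589, nat_lit 34, nat_lit 0, nat_lit 0, nat_lit 0, nat_lit 0, nat_lit 0, nat_lit 43325276, nat_lit 23674724, nat_lit 0, nat_lit 3247490, true, true⟩,
 nat_lit 0, nat_lit 0, nat_lit 4980, nat_lit 0, nat_lit 3687, nat_lit 3032, nat_lit 109, nat_lit 0, nat_lit 0, nat_lit 476, nat_lit 0, nat_lit 0, nat_lit 0, nat_lit 0, nat_lit 0, nat_lit 589000, nat_lit 0, nat_lit 0, [(nat_lit 22, [(nat_lit 2, nat_lit 589)])],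
 ⟨p082_k7, nat_lit 0, nat_lit 0, nat_lit 174, nat_lit 0, nat_lit 0, [nat_lit 1656610667, nat_lit 1923469600, nat_lit 997207867], [], [nat_lit 24807470682, nat_lit 26369476536, nat_lit 27207524816, nat_lit 28608444300, nat_lit 23463463175, nat_lit 24392946109, nat_lit 25006754695, nat_lit 25946234789], nat_lit 0, nat_lit 0, nat_lit 0, nat_lit 0, nat_lit 0, nat_lit 0, [], [nat_lit 34, nat_lit 40, nat_lit 40, nat_lit 80, nat_lit 7, nat_lit 226, nat_lit 20, nat_lit 6]⟩, ⟨p082_k11, nat_lit 0, nat_lit 0, nat_lit 687, nat_lit 0, nat_lit 973124, [nat_lit 1926768000, nat_lit 3274848000, nat_lit 4879392000], [], [nat_lit 12925952324, nat_lit 12973221136, nat_lit 13203774134, nat_lit 13242013036, nat_lit 11317974161, nat_lit 11331652857, nat_lit 11478478354, nat_lit 11583832117], nat_lit 1271250, nat_lit 1271250, nat_lit 1271250, nat_lit 1271250, nat_lit 0, nat_lit 2118750, [nat_lit 1100000, nat_lit 1785000, nat_lit 1271250],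 [nat_lit 21, nat_lit 40, nat_lit 40, nat_lit 80, nat_lit 14, nat_lit 456, nat_lit 225, nat_lit 11]⟩,
 ⟨nat_lit 3162, nat_lit 3873, ⟨.ofNat (nat_lit 705283), .ofNat (nat_lit 769831), .ofNat (nat_lit 716165), .ofNat (nat_lit 780717), .ofNat (nat_lit 699412), .ofNat (nat_lit 760392), .ofNat (nat_lit 710475), .ofNat (nat_lit 771459)⟩, ⟨.ofNat (nat_lit 0), .ofNat (nat_lit 153881), .ofNat (nat_lit 0), .ofNat (nat_lit 175674), .ofNat (nat_lit 0), .ofNat (nat_lit 162054), .ofNat (nat_lit 0), .ofNat (nat_lit 184209)⟩⟩, [⟨nat_lit 22, nat_lit 87, nat_lit 100, nat_lit 60, nat_lit 89674365⟩]⟩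
noncomputable def p082_l36 : Lf2 := ⟨nat_lit 0, nat_lit 20, [nat_lit 5, nat_lit 5, nat_lit 5, nat_lit 20], true, nat_lit 80, nat_lit 160, nat_lit 0, nat_lit 336, ⟨nat_lit 0, nat_lit 1000, nat_lit 0, nat_lit 6, nat_lit 277, nat_lit 1000, nat_lit 88, nat_lit 0, nat_lit 0, nat_lit 0, nat_lit 0, nat_lit 0, nat_lit 42626863, nat_lit 20894578, nat_lit 3478559, nat_lit 4238408, true, true⟩,
 nat_lit 0, nat_lit 0, nat_lit 0, nat_lit 0, nat_lit 4475, nat_lit 0, nat_lit 0, nat_lit 0, nat_lit 0, nat_lit 0, nat_lit 0, nat_lit 0, nat_lit 0, nat_lit 0, nat_lit 0, nat_lit 250000, nat_lit 0, nat_lit 0, [(nat_lit 22, [(nat_lit 0, nat_lit 1000)])],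
 ⟨p082_k18, nat_lit 0, nat_lit 0, nat_lit 99, nat_lit 0, nat_lit 0, [nat_lit 1568000001, nat_lit 2330800000, nat_lit 2712400000], [], [nat_lit 21824685500, nat_lit 23262335400, nat_lit 25631177350, nat_lit 26923080300, nat_lit 22166958700, nat_lit 23459808300, nat_lit 25601000750, nat_lit 26674752000], nat_lit 0, nat_lit 0, nat_lit 0, nat_lit 0, nat_lit 0, nat_lit 0, [], [nat_lit 102, nat_lit 40, nat_lit 40, nat_lit 80, nat_lit 2, nat_lit 249, nat_lit 40, nat_lit 7]⟩, C1.Rw.none,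
 ⟨nat_lit 3162, nat_lit 3873, ⟨.ofNat (nat_lit 608082), .ofNat (nat_lit 737150), .ofNat (nat_lit 651611), .ofNat (nat_lit 780717), .ofNat (nat_lit 605237), .ofNat (nat_lit 727168), .ofNat (nat_lit 649490), .ofNat (nat_lit 771459)⟩, ⟨.ofNat (nat_lit 132088), .ofNat (nat_lit 261131), .ofNat (nat_lit 175674), .ofNat (nat_lit 304717), .ofNat (nat_lit 139899), .ofNat (nat_lit 261806), .ofNat (nat_lit 184209), .ofNat (nat_lit 306116)⟩⟩, []⟩
noncomputable def b_V_800_600_10_13 : St := ⟨true, nat_lit 0, nat_lit 1, nat_lit 1, nat_lit 80, nat_lit 320, nat_lit 360, nat_lit 240, nat_lit 280, nat_lit 240, nat_lit 320, nat_lit 40, nat_lit 80, nat_lit 0, nat_lit 160, nat_lit 0, nat_lit 336, nat_lit 40, nat_lit 80, nat_lit 0, nat_lit 0, nat_lit 0, nat_lit 0⟩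
theorem d_V_800_600_10_13 (h : EB TB.env) : Dead b_V_800_600_10_13 := chkB_sound0 h (T :=
(.spl (nat_lit 0) (nat_lit 340)
(.spl (nat_lit 4) (nat_lit 80)
(.spl (nat_lit 1) (nat_lit 260)
(.spl (nat_lit 3) (nat_lit 60)
(.trX (nat_lit 19) (nat_lit 100) (nat_lit 85) (nat_lit 73) (nat_lit 312) (.spl (nat_lit 0) (nat_lit 330)
(.leaf p082_l14)
(.leaf p082_l15)))
(.leaf p082_l16))
(.trX (nat_lit 19) (nat_lit 100) (nat_lit 85) (nat_lit 84) (nat_lit 320) (.spl (nat_lit 3) (nat_lit 60)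
(.trX (nat_lit 19) (nat_lit 100) (nat_lit 92) (nat_lit 75) (nat_lit 296) (.spl (nat_lit 0) (nat_lit 330)
(.leaf p082_l17)
(.leaf p082_l18)))
(.leaf p082_l19))))
(.leaf p082_l20))
(.spl (nat_lit 4) (nat_lit 80)
(.spl (nat_lit 1) (nat_lit 260)
(.spl (nat_lit 2) (nat_lit 280)
(.spl (nat_lit 1) (nat_lit 250)
(.leaf p082_l21)
(.trX (nat_lit 19) (nat_lit 100) (nat_lit 81) (nat_lit 83) (nat_lit 328) (.leaf p082_l22)))
(.trX (nat_lit 22) (nat_lit 100) (nat_lit 95) (nat_lit 87) (nat_lit 300) (.spl (nat_lit 3) (nat_lit 60)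
(.spl (nat_lit 0) (nat_lit 350)
(.leaf p082_l23)
(.leaf p082_l24))
(.spl (nat_lit 1) (nat_lit 250)
(.spl (nat_lit 0) (nat_lit 350)
(.leaf p082_l25)
(.leaf p082_l26))
(.spl (nat_lit 0) (nat_lit 350)
(.leaf p082_l27)
(.leaf p082_l28))))))
(.trX (nat_lit 19) (nat_lit 100) (nat_lit 85) (nat_lit 84) (nat_lit 320) (.spl (nat_lit 2) (nat_lit 280)
(.spl (nat_lit 3) (nat_lit 60)
(.trX (nat_lit 19) (nat_lit 100) (nat_lit 92) (nat_lit 75) (nat_lit 296) (.leaf p082_l29))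
(.spl (nat_lit 0) (nat_lit 350)
(.leaf p082_l30)
(.leaf p082_l31)))
(.trX (nat_lit 22) (nat_lit 100) (nat_lit 95) (nat_lit 87) (nat_lit 300) (.spl (nat_lit 3) (nat_lit 60)
(.trX (nat_lit 19) (nat_lit 100) (nat_lit 92) (nat_lit 75) (nat_lit 296) (.spl (nat_lit 0) (nat_lit 350)
(.leaf p082_l32)
(.leaf p082_l33)))
(.spl (nat_lit 1) (nat_lit 270)
(.leaf p082_l34)
(.leaf p082_l35)))))))
(.leaf p082_l36)))) (by decide +kernel)
noncomputable def p082_l37 : Lf2 := ⟨nat_lit 0, nat_lit 15, [nat_lit 30, nat_lit 5, nat_lit 5, nat_lit 20], false, nat_lit 0, nat_lit 80, nat_lit 0, nat_lit 260, ⟨nat_lit 596, nat_lit 404, nat_lit 0, nat_lit 8, nat_lit 323, nat_lit 404, nat_lit 27, nat_lit 0, nat_lit 0, nat_lit 0, nat_lit 0, nat_lit 0, nat_lit 40574097, nat_lit 26425903, nat_lit 0, nat_lit 3353412, true, true⟩,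
 nat_lit 0, nat_lit 0, nat_lit 8460, nat_lit 0, nat_lit 4434, nat_lit 4478, nat_lit 180, nat_lit 0, nat_lit 0, nat_lit 473, nat_lit 0, nat_lit 0, nat_lit 0, nat_lit 0, nat_lit 0, nat_lit 404000, nat_lit 0, nat_lit 0, [(nat_lit 19, [(nat_lit 2, nat_lit 404)])],
 ⟨p082_k8, nat_lit 0, nat_lit 0, nat_lit 187, nat_lit 0, nat_lit 0, [nat_lit 1897333334, nat_lit 3294200001, nat_lit 3889054400], [], [nat_lit 29189826293, nat_lit 29686375407, nat_lit 32693758653, nat_lit 33306626661, nat_lit 27077449667, nat_lit 27521684181, nat_lit 30355064497, nat_lit 30746575212], nat_lit 0, nat_lit 0, nat_lit 0, nat_lit 0, nat_lit 0, nat_lit 0, [], [nat_lit 34, nat_lit 40, nat_lit 40, nat_lit 80, nat_lit 7, nat_lit 226, nat_lit 20, nat_lit 6]⟩, ⟨p082_k12, nat_lit 0, nat_lit 0, nat_lit 552, nat_lit 0, nat_lit 678431, [nat_lit 2794048000, nat_lit 4748928000, nat_lit 7075712000], [], [nat_lit 23986961768, nat_lit 24064608414, nat_lit 25428562583,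 nat_lit 25503005341, nat_lit 20838480214, nat_lit 20887459626, nat_lit 22189812068, nat_lit 22247681286], nat_lit 1271250, nat_lit 1271250, nat_lit 1271250, nat_lit 1271250, nat_lit 0, nat_lit 1836250, [nat_lit 1100000, nat_lit 1785000, nat_lit 1271250], [nat_lit 21, nat_lit 40, nat_lit 40, nat_lit 80, nat_lit 14, nat_lit 373, nat_lit 150, nat_lit 9]⟩,
 ⟨nat_lit 4183, nat_lit 4473, ⟨.ofNat (nat_lit 747062), .ofNat (nat_lit 862626), .ofNat (nat_lit 757843), .ofNat (nat_lit 873407), .ofNat (nat_lit 742095), .ofNat (nat_lit 854731), .ofNat (nat_lit 752926), .ofNat (nat_lit 865562)⟩, ⟨.negSucc (nat_lit 12423), .ofNat (nat_lit 123532), .ofNat (nat_lit 0), .ofNat (nat_lit 145099), .negSucc (nat_lit 4612), .ofNat (nat_lit 127898), .ofNat (nat_lit 0), .ofNat (nat_lit 149565)⟩⟩, [⟨nat_lit 22, nat_lit 66, nat_lit 100, nat_lit 62, nat_lit 95824708⟩]⟩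
noncomputable def p082_l38 : Lf2 := ⟨nat_lit 0, nat_lit 15, [nat_lit 30, nat_lit 5, nat_lit 5, nat_lit 20], false, nat_lit 0, nat_lit 80, nat_lit 0, nat_lit 260, ⟨nat_lit 163, nat_lit 837, nat_lit 0, nat_lit 8, nat_lit 311, nat_lit 780, nat_lit 28, nat_lit 0, nat_lit 0, nat_lit 0, nat_lit 0, nat_lit 0, nat_lit 41747273, nat_lit 25252727, nat_lit 0, nat_lit 3312645, true, true⟩,
 nat_lit 0, nat_lit 0, nat_lit 2725, nat_lit 0, nat_lit 3463, nat_lit 1442, nat_lit 323, nat_lit 0, nat_lit 0, nat_lit 125, nat_lit 0, nat_lit 0, nat_lit 0, nat_lit 0, nat_lit 0, nat_lit 282900, nat_lit 0, nat_lit 0, [(nat_lit 19, [(nat_lit 0, nat_lit 346), (nat_lit 1, nat_lit 491)])],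
 ⟨p082_k13, nat_lit 0, nat_lit 0, nat_lit 179, nat_lit 0, nat_lit 0, [nat_lit 1551369867, nat_lit 2502058400, nat_lit 3233673600], [], [nat_lit 27210592700, nat_lit 27637903824, nat_lit 28881155659, nat_lit 29280316379, nat_lit 25977196439, nat_lit 26381987962, nat_lit 27560799426, nat_lit 27973493415], nat_lit 0, nat_lit 0, nat_lit 0, nat_lit 0, nat_lit 0, nat_lit 0, [], [nat_lit 34, nat_lit 40, nat_lit 40, nat_lit 80, nat_lit 7, nat_lit 226, nat_lit 20, nat_lit 6]⟩, ⟨p082_k12, nat_lit 0, nat_lit 0, nat_lit 649, nat_lit 0, nat_lit 869140, [nat_lit 764144000, nat_lit 1298784000, nat_lit 1935136000], [], [nat_lit 6300117628, nat_lit 6316154907, nat_lit 6488301144, nat_lit 6502851656, nat_lit 5277070641, nat_lit 5287729022, nat_lit 5427849064, nat_lit 5434164277], nat_lit 1271250, nat_lit 1271250, nat_lit 1271250, nat_lit 1271250, nat_lit 0, nat_lit 1836250, [nat_lit 1100000, nat_lit 1785000, nat_lit 1271250], [nat_lit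 21, nat_lit 40, nat_lit 40, nat_lit 80, nat_lit 14, nat_lit 373, nat_lit 150, nat_lit 9]⟩,
 ⟨nat_lit 3872, nat_lit 4184, ⟨.ofNat (nat_lit 742098), .ofNat (nat_lit 808354), .ofNat (nat_lit 752930), .ofNat (nat_lit 819187), .ofNat (nat_lit 737149), .ofNat (nat_lit 801671), .ofNat (nat_lit 748044), .ofNat (nat_lit 812568)⟩, ⟨.negSucc (nat_lit 4619), .ofNat (nat_lit 127898), .ofNat (nat_lit 0), .ofNat (nat_lit 149565), .ofNat (nat_lit 0), .ofNat (nat_lit 132088), .ofNat (nat_lit 0), .ofNat (nat_lit 153881)⟩⟩, [⟨nat_lit 22, nat_lit 76, nat_lit 100, nat_lit 43, nat_lit 22582939⟩]⟩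
noncomputable def p082_l39 : Lf2 := ⟨nat_lit 0, nat_lit 15, [nat_lit 30, nat_lit 5, nat_lit 5, nat_lit 20], false, nat_lit 0, nat_lit 80, nat_lit 0, nat_lit 200, ⟨nat_lit 167, nat_lit 833, nat_lit 0, nat_lit 9, nat_lit 331, nat_lit 603, nat_lit 28, nat_lit 0, nat_lit 0, nat_lit 0, nat_lit 0, nat_lit 0, nat_lit 39796016, nat_lit 27203984, nat_lit 0, nat_lit 3376903, true, true⟩,
 nat_lit 0, nat_lit 0, nat_lit 2713, nat_lit 0, nat_lit 3349, nat_lit 1436, nat_lit 268, nat_lit 0, nat_lit 0, nat_lit 124, nat_lit 0, nat_lit 0, nat_lit 0, nat_lit 0, nat_lit 0, nat_lit 333200, nat_lit 0, nat_lit 0, [(nat_lit 19, [(nat_lit 1, nat_lit 833)])],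
 ⟨p082_k13, nat_lit 0, nat_lit 0, nat_lit 186, nat_lit 0, nat_lit 0, [nat_lit 1503989067, nat_lit 2445564000, nat_lit 2912325200], [], [nat_lit 29076656408, nat_lit 29461142209, nat_lit 29961427225, nat_lit 30342266797, nat_lit 27835848349, nat_lit 28201282163, nat_lit 28674834750, nat_lit 29063933185], nat_lit 0, nat_lit 0, nat_lit 0, nat_lit 0, nat_lit 0, nat_lit 0, [], [nat_lit 34, nat_lit 40, nat_lit 40, nat_lit 80, nat_lit 7, nat_lit 226, nat_lit 20, nat_lit 6]⟩, ⟨p082_k12, nat_lit 0, nat_lit 0, nat_lit 646, nat_lit 0, nat_lit 869140, [nat_lit 782896000, nat_lit 1330656000, nat_lit 1982624000], [], [nat_lit 6802100588, nat_lit 6813796453, nat_lit 6915353292, nat_lit 6924398441, nat_lit 5740356928, nat_lit 5751917760, nat_lit 5846358500, nat_lit 5855456318], nat_lit 1271250, nat_lit 1271250, nat_lit 1271250, nat_lit 1271250, nat_lit 0, nat_lit 1412500, [nat_lit 1100000, nat_lit 1785000, nat_lit 1271250], [nat_lit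 21, nat_lit 40, nat_lit 40, nat_lit 80, nat_lit 14, nat_lit 345, nat_lit 125, nat_lit 8]⟩,
 ⟨nat_lit 3872, nat_lit 4184, ⟨.ofNat (nat_lit 808354), .ofNat (nat_lit 841482), .ofNat (nat_lit 819187), .ofNat (nat_lit 852316), .ofNat (nat_lit 801671), .ofNat (nat_lit 833932), .ofNat (nat_lit 812568), .ofNat (nat_lit 844829)⟩, ⟨.negSucc (nat_lit 4619), .ofNat (nat_lit 127898), .ofNat (nat_lit 0), .ofNat (nat_lit 149565), .ofNat (nat_lit 0), .ofNat (nat_lit 132088), .ofNat (nat_lit 0), .ofNat (nat_lit 153881)⟩⟩, [⟨nat_lit 13, nat_lit 76, nat_lit 50, nat_lit 100, nat_lit 183749820⟩]⟩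
noncomputable def p082_l40 : Lf2 := ⟨nat_lit 0, nat_lit 15, [nat_lit 30, nat_lit 5, nat_lit 5, nat_lit 20], false, nat_lit 0, nat_lit 80, nat_lit 0, nat_lit 260, ⟨nat_lit 696, nat_lit 304, nat_lit 0, nat_lit 8, nat_lit 328, nat_lit 304, nat_lit 27, nat_lit 0, nat_lit 0, nat_lit 0, nat_lit 0, nat_lit 0, nat_lit 40015309, nat_lit 26984691, nat_lit 0, nat_lit 3370567, true, true⟩,
 nat_lit 0, nat_lit 0, nat_lit 10452, nat_lit 0, nat_lit 4483, nat_lit 5806, nat_lit 417, nat_lit 0, nat_lit 0, nat_lit 672, nat_lit 0, nat_lit 0, nat_lit 0, nat_lit 0, nat_lit 0, nat_lit 304000, nat_lit 0, nat_lit 0, [(nat_lit 19, [(nat_lit 2, nat_lit 304)])],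
 ⟨p082_k8, nat_lit 0, nat_lit 0, nat_lit 188, nat_lit 0, nat_lit 0, [nat_lit 1930666667, nat_lit 3639200000, nat_lit 4898694400], [], [nat_lit 28921633429, nat_lit 29420535572, nat_lit 33155334659, nat_lit 33762201190, nat_lit 26773111076, nat_lit 27248492346, nat_lit 30680862345, nat_lit 31124045868], nat_lit 0, nat_lit 0, nat_lit 0, nat_lit 0, nat_lit 0, nat_lit 0, [], [nat_lit 34, nat_lit 40, nat_lit 40, nat_lit 80, nat_lit 7, nat_lit 226, nat_lit 20, nat_lit 6]⟩, ⟨p082_k19, nat_lit 0, nat_lit 0, nat_lit 562, nat_lit 0, nat_lit 710233, [nat_lit 3262848000, nat_lit 5545728000, nat_lit 8262912000], [], [nat_lit 25654609074, nat_lit 25765892796, nat_lit 27511374537, nat_lit 27577860916, nat_lit 21851528249, nat_lit 21901438482, nat_lit 23069821366, nat_lit 23087521217], nat_lit 1271250, nat_lit 1271250, nat_lit 1271250, nat_lit 1271250, nat_lit 0, nat_lit 1836250, [nat_lit 1100000, nat_lit 1785000, nat_lit 1271250],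 [nat_lit 21, nat_lit 40, nat_lit 40, nat_lit 80, nat_lit 14, nat_lit 373, nat_lit 150, nat_lit 9]⟩,
 ⟨nat_lit 4183, nat_lit 4473, ⟨.ofNat (nat_lit 757843), .ofNat (nat_lit 880206), .ofNat (nat_lit 768624), .ofNat (nat_lit 890987), .ofNat (nat_lit 752926), .ofNat (nat_lit 872188), .ofNat (nat_lit 763757), .ofNat (nat_lit 883019)⟩, ⟨.negSucc (nat_lit 12423), .ofNat (nat_lit 123532), .ofNat (nat_lit 0), .ofNat (nat_lit 145099), .negSucc (nat_lit 4612), .ofNat (nat_lit 127898), .ofNat (nat_lit 0), .ofNat (nat_lit 149565)⟩⟩, [⟨nat_lit 22, nat_lit 65, nat_lit 100, nat_lit 62, nat_lit 80786238⟩]⟩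
noncomputable def p082_l41 : Lf2 := ⟨nat_lit 0, nat_lit 15, [nat_lit 30, nat_lit 5, nat_lit 5, nat_lit 20], false, nat_lit 0, nat_lit 80, nat_lit 0, nat_lit 260, ⟨nat_lit 186, nat_lit 814, nat_lit 0, nat_lit 8, nat_lit 315, nat_lit 814, nat_lit 28, nat_lit 0, nat_lit 0, nat_lit 0, nat_lit 0, nat_lit 0, nat_lit 41309274, nat_lit 25690726, nat_lit 0, nat_lit 3328623, true, true⟩,
 nat_lit 0, nat_lit 0, nat_lit 2846, nat_lit 0, nat_lit 3502, nat_lit 1581, nat_lit 346, nat_lit 0, nat_lit 0, nat_lit 144, nat_lit 0, nat_lit 0, nat_lit 0, nat_lit 0, nat_lit 0, nat_lit 257500, nat_lit 0, nat_lit 0, [(nat_lit 19, [(nat_lit 0, nat_lit 454), (nat_lit 1, nat_lit 360)])],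
 ⟨p082_k13, nat_lit 0, nat_lit 0, nat_lit 179, nat_lit 0, nat_lit 0, [nat_lit 1581529601, nat_lit 2584969600, nat_lit 3481934400], [], [nat_lit 27315555583, nat_lit 27744596279, nat_lit 28992724869, nat_lit 29382772067, nat_lit 26055500989, nat_lit 26461876731, nat_lit 27645154787, nat_lit 28046782193], nat_lit 0, nat_lit 0, nat_lit 0, nat_lit 0, nat_lit 0, nat_lit 0, [], [nat_lit 34, nat_lit 40, nat_lit 40, nat_lit 80, nat_lit 7, nat_lit 226, nat_lit 20, nat_lit 6]⟩, ⟨p082_k19, nat_lit 0, nat_lit 0, nat_lit 652, nat_lit 0, nat_lit 883271, [nat_lit 871968000, nat_lit 1482048000, nat_lit 2208192000], [], [nat_lit 6944074902, nat_lit 6963028860, nat_lit 7150758288, nat_lit 7164909960, nat_lit 5832296499, nat_lit 5845266372, nat_lit 5998441883, nat_lit 6006617187], nat_lit 1271250, nat_lit 1271250, nat_lit 1271250, nat_lit 1271250, nat_lit 0, nat_lit 1836250, [nat_lit 1100000, nat_lit 1785000, nat_lit 1271250], [nat_lit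 21, nat_lit 40, nat_lit 40, nat_lit 80, nat_lit 14, nat_lit 373, nat_lit 150, nat_lit 9]⟩,
 ⟨nat_lit 3872, nat_lit 4184, ⟨.ofNat (nat_lit 752930), .ofNat (nat_lit 819187), .ofNat (nat_lit 763761), .ofNat (nat_lit 830019), .ofNat (nat_lit 748044), .ofNat (nat_lit 812568), .ofNat (nat_lit 758939), .ofNat (nat_lit 823463)⟩, ⟨.negSucc (nat_lit 4619), .ofNat (nat_lit 127898), .ofNat (nat_lit 0), .ofNat (nat_lit 149565), .ofNat (nat_lit 0), .ofNat (nat_lit 132088), .ofNat (nat_lit 0), .ofNat (nat_lit 153881)⟩⟩, [⟨nat_lit 22, nat_lit 76, nat_lit 100, nat_lit 43, nat_lit 28783663⟩]⟩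
noncomputable def p082_l42 : Lf2 := ⟨nat_lit 0, nat_lit 15, [nat_lit 30, nat_lit 5, nat_lit 5, nat_lit 20], false, nat_lit 0, nat_lit 80, nat_lit 0, nat_lit 200, ⟨nat_lit 192, nat_lit 808, nat_lit 0, nat_lit 9, nat_lit 336, nat_lit 613, nat_lit 28, nat_lit 0, nat_lit 0, nat_lit 0, nat_lit 0, nat_lit 0, nat_lit 39246538, nat_lit 27753462, nat_lit 0, nat_lit 3391806, true, true⟩,
 nat_lit 0, nat_lit 0, nat_lit 2847, nat_lit 0, nat_lit 3364, nat_lit 1581, nat_lit 279, nat_lit 0, nat_lit 0, nat_lit 144, nat_lit 0, nat_lit 0, nat_lit 0, nat_lit 0, nat_lit 0, nat_lit 323200, nat_lit 0, nat_lit 0, [(nat_lit 19, [(nat_lit 1, nat_lit 808)])],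
 ⟨p082_k13, nat_lit 0, nat_lit 0, nat_lit 187, nat_lit 0, nat_lit 0, [nat_lit 1519835734, nat_lit 2512864000, nat_lit 3061824000], [], [nat_lit 29193982635, nat_lit 29579013671, nat_lit 30257501468, nat_lit 30649502004, nat_lit 27942707711, nat_lit 28308640815, nat_lit 28960023072, nat_lit 29348300633], nat_lit 0, nat_lit 0, nat_lit 0, nat_lit 0, nat_lit 0, nat_lit 0, [], [nat_lit 34, nat_lit 40, nat_lit 40, nat_lit 80, nat_lit 7, nat_lit 226, nat_lit 20, nat_lit 6]⟩, ⟨p082_k19, nat_lit 0, nat_lit 0, nat_lit 649, nat_lit 0, nat_lit 883271, [nat_lit 900096000, nat_lit 1529856000, nat_lit 2279424000], [], [nat_lit 7584839538, nat_lit 7599204708, nat_lit 7735057342, nat_lit 7759729942, nat_lit 6425059857, nat_lit 6439229826, nat_lit 6565793227, nat_lit 6576685338], nat_lit 1271250, nat_lit 1271250, nat_lit 1271250, nat_lit 1271250, nat_lit 0, nat_lit 1412500, [nat_lit 1100000, nat_lit 1785000, nat_lit 1271250], [nat_lit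 21, nat_lit 40, nat_lit 40, nat_lit 80, nat_lit 14, nat_lit 345, nat_lit 125, nat_lit 8]⟩,
 ⟨nat_lit 3872, nat_lit 4184, ⟨.ofNat (nat_lit 819187), .ofNat (nat_lit 858941), .ofNat (nat_lit 830019), .ofNat (nat_lit 869774), .ofNat (nat_lit 812568), .ofNat (nat_lit 851281), .ofNat (nat_lit 823463), .ofNat (nat_lit 862177)⟩, ⟨.negSucc (nat_lit 4619), .ofNat (nat_lit 127898), .ofNat (nat_lit 0), .ofNat (nat_lit 149565), .ofNat (nat_lit 0), .ofNat (nat_lit 132088), .ofNat (nat_lit 0), .ofNat (nat_lit 153881)⟩⟩, [⟨nat_lit 13, nat_lit 77, nat_lit 46, nat_lit 100, nat_lit 169795055⟩, ⟨nat_lit 22, nat_lit 59, nat_lit 100, nat_lit 57, nat_lit 2525072⟩]⟩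
noncomputable def p082_l43 : Lf2 := ⟨nat_lit 0, nat_lit 20, [nat_lit 5, nat_lit 5, nat_lit 5, nat_lit 20], false, nat_lit 0, nat_lit 80, nat_lit 0, nat_lit 260, ⟨nat_lit 809, nat_lit 191, nat_lit 0, nat_lit 8, nat_lit 325, nat_lit 191, nat_lit 32, nat_lit 0, nat_lit 0, nat_lit 0, nat_lit 0, nat_lit 0, nat_lit 40355425, nat_lit 26644575, nat_lit 0, nat_lit 3360298, true, true⟩,
 nat_lit 0, nat_lit 0, nat_lit 12231, nat_lit 0, nat_lit 4663, nat_lit 6475, nat_lit 599, nat_lit 0, nat_lit 0, nat_lit 682, nat_lit 0, nat_lit 0, nat_lit 0, nat_lit 0, nat_lit 0, nat_lit 191000, nat_lit 0, nat_lit 0, [(nat_lit 19, [(nat_lit 2, nat_lit 191)])],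
 ⟨p082_k0, nat_lit 0, nat_lit 0, nat_lit 210, nat_lit 0, nat_lit 0, [nat_lit 1968333334, nat_lit 3993320267, nat_lit 7359993200], [], [nat_lit 29711561362, nat_lit 30643977990, nat_lit 33737278218, nat_lit 34880450674, nat_lit 27348627426, nat_lit 28233057960, nat_lit 31231546287, nat_lit 32131910493], nat_lit 0, nat_lit 0, nat_lit 0, nat_lit 0, nat_lit 0, nat_lit 0, [], [nat_lit 27, nat_lit 40, nat_lit 40, nat_lit 80, nat_lit 13, nat_lit 226, nat_lit 20, nat_lit 6]⟩, ⟨p082_k6, nat_lit 0, nat_lit 0, nat_lit 595, nat_lit 0, nat_lit 639959, [nat_lit 3792592000, nat_lit 6446112000, nat_lit 11372922000], [], [nat_lit 32010024396, nat_lit 32249989266, nat_lit 34214940661, nat_lit 34350074888, nat_lit 27121546954, nat_lit 27230487998, nat_lit 29055964325, nat_lit 29198227920], nat_lit 1271250, nat_lit 1271250, nat_lit 1271250, nat_lit 1271250, nat_lit 0, nat_lit 1836250, [nat_lit 1100000, nat_lit 1785000, nat_lit 1271250],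 [nat_lit 37, nat_lit 40, nat_lit 40, nat_lit 80, nat_lit 28, nat_lit 483, nat_lit 250, nat_lit 11]⟩,
 ⟨nat_lit 3872, nat_lit 4473, ⟨.ofNat (nat_lit 747053), .ofNat (nat_lit 869421), .ofNat (nat_lit 768604), .ofNat (nat_lit 890974), .ofNat (nat_lit 737137), .ofNat (nat_lit 853283), .ofNat (nat_lit 758915), .ofNat (nat_lit 875063)⟩, ⟨.ofNat (nat_lit 0), .ofNat (nat_lit 145099), .ofNat (nat_lit 0), .ofNat (nat_lit 166665), .ofNat (nat_lit 0), .ofNat (nat_lit 153881), .ofNat (nat_lit 0), .ofNat (nat_lit 175674)⟩⟩, [⟨nat_lit 22, nat_lit 65, nat_lit 100, nat_lit 62, nat_lit 97173864⟩]⟩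
noncomputable def p082_l44 : Lf2 := ⟨nat_lit 0, nat_lit 20, [nat_lit 5, nat_lit 5, nat_lit 5, nat_lit 20], false, nat_lit 0, nat_lit 80, nat_lit 0, nat_lit 160, ⟨nat_lit 1000, nat_lit 0, nat_lit 0, nat_lit 0, nat_lit 0, nat_lit 0, nat_lit 0, nat_lit 0, nat_lit 0, nat_lit 0, nat_lit 0, nat_lit 0, nat_lit 0, nat_lit 0, nat_lit 0, nat_lit 0, false, false⟩,
 nat_lit 0, nat_lit 0, nat_lit 11361, nat_lit 0, nat_lit 5102, nat_lit 6613, nat_lit 789, nat_lit 0, nat_lit 0, nat_lit 1843, nat_lit 0, nat_lit 0, nat_lit 0, nat_lit 0, nat_lit 0, nat_lit 0, nat_lit 0, nat_lit 0, [],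
 ⟨p082_k0, nat_lit 0, nat_lit 0, nat_lit 209, nat_lit 0, nat_lit 0, [nat_lit 2032000001, nat_lit 4688000000, nat_lit 9842000000], [], [nat_lit 30747628705, nat_lit 31231958061, nat_lit 35345092804, nat_lit 35830123681, nat_lit 28058310561, nat_lit 28521821464, nat_lit 32484840926, nat_lit 32946055510], nat_lit 0, nat_lit 0, nat_lit 0, nat_lit 0, nat_lit 0, nat_lit 0, [], [nat_lit 27, nat_lit 40, nat_lit 40, nat_lit 80, nat_lit 13, nat_lit 226, nat_lit 20, nat_lit 6]⟩, ⟨p082_k10, nat_lit 0, nat_lit 0, nat_lit 615, nat_lit 0, nat_lit 836509, [nat_lit 4688000000, nat_lit 7968000000, nat_lit 11872000000], [], [nat_lit 34192757540, nat_lit 34457942240, nat_lit 36312198091, nat_lit 36855180434, nat_lit 30478115276, nat_lit 30681326488, nat_lit 32647478668, nat_lit 32871508930], nat_lit 1271250, nat_lit 1271250, nat_lit 1271250, nat_lit 1271250, nat_lit 0, nat_lit 1100001, [nat_lit 1100000, nat_lit 1785000, nat_lit 1271250],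 [nat_lit 21, nat_lit 40, nat_lit 40, nat_lit 80, nat_lit 14, nat_lit 345, nat_lit 125, nat_lit 8]⟩,
 zbF0, [⟨nat_lit 22, nat_lit 77, nat_lit 100, nat_lit 33, nat_lit 20386182⟩, ⟨nat_lit 22, nat_lit 64, nat_lit 100, nat_lit 62, nat_lit 42203730⟩]⟩
noncomputable def p082_l45 : Lf2 := ⟨nat_lit 0, nat_lit 20, [nat_lit 5, nat_lit 5, nat_lit 5, nat_lit 20], false, nat_lit 0, nat_lit 80, nat_lit 0, nat_lit 160, ⟨nat_lit 874, nat_lit 126, nat_lit 0, nat_lit 8, nat_lit 332, nat_lit 126, nat_lit 30, nat_lit 0, nat_lit 0, nat_lit 0, nat_lit 0, nat_lit 0, nat_lit 39629306, nat_lit 27370694, nat_lit 0, nat_lit 3381572, true, true⟩,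
 nat_lit 0, nat_lit 0, nat_lit 10113, nat_lit 0, nat_lit 4215, nat_lit 5886, nat_lit 731, nat_lit 0, nat_lit 0, nat_lit 1696, nat_lit 0, nat_lit 0, nat_lit 0, nat_lit 0, nat_lit 0, nat_lit 50400, nat_lit 0, nat_lit 0, [(nat_lit 19, [(nat_lit 1, nat_lit 126)])],
 ⟨p082_k20, nat_lit 0, nat_lit 0, nat_lit 210, nat_lit 0, nat_lit 0, [nat_lit 1952132801, nat_lit 4354049600, nat_lit 8832740000], [], [nat_lit 29329398845, nat_lit 29777114615, nat_lit 33153969020, nat_lit 33608460668, nat_lit 27428029796, nat_lit 27908839961, nat_lit 31015727987, nat_lit 31426373325], nat_lit 0, nat_lit 0, nat_lit 0, nat_lit 0, nat_lit 0, nat_lit 0, [], [nat_lit 27, nat_lit 40, nat_lit 40, nat_lit 80, nat_lit 13, nat_lit 226, nat_lit 20, nat_lit 6]⟩, ⟨p082_k10, nat_lit 0, nat_lit 0, nat_lit 692, nat_lit 0, nat_lit 994134, [nat_lit 4097312000, nat_lit 6964032000, nat_lit 10376128000], [], [nat_lit 29672690044, nat_lit 29823188184, nat_lit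 31169467463, nat_lit 32070891645, nat_lit 26445347324, nat_lit 26572201640, nat_lit 27838641250, nat_lit 27988815967], nat_lit 1271250, nat_lit 1271250, nat_lit 1271250, nat_lit 1271250, nat_lit 0, nat_lit 1100001, [nat_lit 1100000, nat_lit 1785000, nat_lit 1271250], [nat_lit 21, nat_lit 40, nat_lit 40, nat_lit 80, nat_lit 14, nat_lit 345, nat_lit 125, nat_lit 8]⟩,
 ⟨nat_lit 3872, nat_lit 4184, ⟨.ofNat (nat_lit 763761), .ofNat (nat_lit 883025), .ofNat (nat_lit 785423), .ofNat (nat_lit 904688), .ofNat (nat_lit 758939), .ofNat (nat_lit 875081), .ofNat (nat_lit 780727), .ofNat (nat_lit 896871)⟩, ⟨.negSucc (nat_lit 4619), .ofNat (nat_lit 127898), .ofNat (nat_lit 0), .ofNat (nat_lit 171231), .ofNat (nat_lit 0), .ofNat (nat_lit 132088), .ofNat (nat_lit 0), .ofNat (nat_lit 175674)⟩⟩, []⟩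
noncomputable def p082_l46 : Lf2 := ⟨nat_lit 0, nat_lit 20, [nat_lit 5, nat_lit 5, nat_lit 5, nat_lit 20], false, nat_lit 16, nat_lit 80, nat_lit 160, nat_lit 260, ⟨nat_lit 1000, nat_lit 0, nat_lit 0, nat_lit 0, nat_lit 0, nat_lit 0, nat_lit 0, nat_lit 0, nat_lit 0, nat_lit 0, nat_lit 0, nat_lit 0, nat_lit 0, nat_lit 0, nat_lit 0, nat_lit 0, false, false⟩,
 nat_lit 0, nat_lit 0, nat_lit 12087, nat_lit 0, nat_lit 6443, nat_lit 7035, nat_lit 787, nat_lit 0, nat_lit 0, nat_lit 1873, nat_lit 0, nat_lit 0, nat_lit 0, nat_lit 0, nat_lit 0, nat_lit 0, nat_lit 0, nat_lit 0, [],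
 ⟨p082_k0, nat_lit 0, nat_lit 0, nat_lit 196, nat_lit 0, nat_lit 0, [nat_lit 2032000001, nat_lit 4688000000, nat_lit 9842000000], [], [nat_lit 30300010728, nat_lit 31243522332, nat_lit 36512678365, nat_lit 37260835323, nat_lit 26344482499, nat_lit 26854531786, nat_lit 31927280523, nat_lit 32654034767], nat_lit 0, nat_lit 0, nat_lit 0, nat_lit 0, nat_lit 0, nat_lit 0, [], [nat_lit 27, nat_lit 40, nat_lit 40, nat_lit 80, nat_lit 13, nat_lit 226, nat_lit 20, nat_lit 6]⟩, ⟨p082_k10, nat_lit 0, nat_lit 0, nat_lit 509, nat_lit 0, nat_lit 836509, [nat_lit 4688000000, nat_lit 7968000000, nat_lit 11872000000], [], [nat_lit 27163195670, nat_lit 27494272840, nat_lit 29252624246, nat_lit 29488782405, nat_lit 27695566255, nat_lit 27933106995, nat_lit 30267521977, nat_lit 31024726278], nat_lit 1271250, nat_lit 1271250, nat_lit 1271250, nat_lit 1271250, nat_lit 1100001, nat_lit 1956250, [nat_lit 1100000, nat_lit 1785000, nat_lit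 1271250], [nat_lit 21, nat_lit 40, nat_lit 40, nat_lit 80, nat_lit 14, nat_lit 373, nat_lit 150, nat_lit 9]⟩,
 zbF0, [⟨nat_lit 22, nat_lit 83, nat_lit 100, nat_lit 83, nat_lit 336494136⟩]⟩
noncomputable def p082_l47 : Lf2 := ⟨nat_lit 0, nat_lit 20, [nat_lit 5, nat_lit 5, nat_lit 5, nat_lit 20], false, nat_lit 16, nat_lit 80, nat_lit 160, nat_lit 260, ⟨nat_lit 435, nat_lit 565, nat_lit 0, nat_lit 8, nat_lit 330, nat_lit 565, nat_lit 37, nat_lit 0, nat_lit 0, nat_lit 0, nat_lit 0, nat_lit 0, nat_lit 39303451, nat_lit 26811254, nat_lit 885295, nat_lit 3768822, true, true⟩,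
 nat_lit 0, nat_lit 0, nat_lit 5514, nat_lit 0, nat_lit 4140, nat_lit 3209, nat_lit 491, nat_lit 0, nat_lit 0, nat_lit 600, nat_lit 0, nat_lit 0, nat_lit 0, nat_lit 0, nat_lit 0, nat_lit 226000, nat_lit 0, nat_lit 0, [(nat_lit 19, [(nat_lit 1, nat_lit 565)])],
 ⟨p082_k20, nat_lit 0, nat_lit 0, nat_lit 198, nat_lit 0, nat_lit 0, [nat_lit 1673865334, nat_lit 3190524000, nat_lit 5316350000], [], [nat_lit 27209560148, nat_lit 27649712936, nat_lit 31528119749, nat_lit 32126600223, nat_lit 25612413155, nat_lit 26036864244, nat_lit 28867566069, nat_lit 29449301785], nat_lit 0, nat_lit 0, nat_lit 0, nat_lit 0, nat_lit 0, nat_lit 0, [], [nat_lit 27, nat_lit 40, nat_lit 40, nat_lit 80, nat_lit 13, nat_lit 226, nat_lit 20, nat_lit 6]⟩, ⟨p082_k10, nat_lit 0, nat_lit 0, nat_lit 569, nat_lit 0, nat_lit 994134, [nat_lit 2039280000, nat_lit 3466080000, nat_lit 5164320000], [], [nat_lit 12948064348, nat_lit 13029009140, nat_lit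 13608341797, nat_lit 13680555019, nat_lit 12940268694, nat_lit 12989403059, nat_lit 13537965847, nat_lit 13631361695], nat_lit 1271250, nat_lit 1271250, nat_lit 1271250, nat_lit 1271250, nat_lit 1100001, nat_lit 1956250, [nat_lit 1100000, nat_lit 1785000, nat_lit 1271250], [nat_lit 21, nat_lit 40, nat_lit 40, nat_lit 80, nat_lit 14, nat_lit 373, nat_lit 150, nat_lit 9]⟩,
 ⟨nat_lit 3872, nat_lit 4184, ⟨.ofNat (nat_lit 763761), .ofNat (nat_lit 869774), .ofNat (nat_lit 785423), .ofNat (nat_lit 891437), .ofNat (nat_lit 758939), .ofNat (nat_lit 862177), .ofNat (nat_lit 780727), .ofNat (nat_lit 883966)⟩, ⟨.ofNat (nat_lit 21889), .ofNat (nat_lit 127898), .ofNat (nat_lit 40000), .ofNat (nat_lit 171231), .ofNat (nat_lit 28853), .ofNat (nat_lit 132088), .ofNat (nat_lit 40000), .ofNat (nat_lit 175674)⟩⟩, [⟨nat_lit 22, nat_lit 66, nat_lit 100, nat_lit 66, nat_lit 204898845⟩]⟩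
noncomputable def b_V_800_600_10_14 : St := ⟨true, nat_lit 0, nat_lit 1, nat_lit 1, nat_lit 80, nat_lit 320, nat_lit 340, nat_lit 240, nat_lit 280, nat_lit 320, nat_lit 396, nat_lit 40, nat_lit 80, nat_lit 0, nat_lit 80, nat_lit 0, nat_lit 260, nat_lit 40, nat_lit 80, nat_lit 0, nat_lit 0, nat_lit 0, nat_lit 0⟩
theorem d_V_800_600_10_14 (h : EB TB.env) : Dead b_V_800_600_10_14 := chkB_sound0 h (T :=
(.spl (nat_lit 1) (nat_lit 260)
(.trX (nat_lit 13) (nat_lit 84) (nat_lit 35) (nat_lit 100) (nat_lit 392) (.spl (nat_lit 3) (nat_lit 60)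
(.spl (nat_lit 1) (nat_lit 250)
(.trX (nat_lit 13) (nat_lit 83) (nat_lit 39) (nat_lit 100) (nat_lit 388) (.spl (nat_lit 0) (nat_lit 330)
(.leaf p082_l37)
(.trX (nat_lit 13) (nat_lit 78) (nat_lit 45) (nat_lit 100) (nat_lit 380) (.spl (nat_lit 2) (nat_lit 360)
(.leaf p082_l38)
(.trX (nat_lit 22) (nat_lit 60) (nat_lit 100) (nat_lit 80) (nat_lit 200) (.leaf p082_l39))))))
(.spl (nat_lit 0) (nat_lit 330)
(.leaf p082_l40)
(.trX (nat_lit 13) (nat_lit 80) (nat_lit 41) (nat_lit 100) (nat_lit 384) (.spl (nat_lit 2) (nat_lit 360)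
(.leaf p082_l41)
(.trX (nat_lit 22) (nat_lit 60) (nat_lit 100) (nat_lit 80) (nat_lit 200) (.leaf p082_l42))))))
(.leaf p082_l43)))
(.spl (nat_lit 5) (nat_lit 160)
(.spl (nat_lit 0) (nat_lit 330)
(.leaf p082_l44)
(.trX (nat_lit 13) (nat_lit 83) (nat_lit 32) (nat_lit 100) (nat_lit 392) (.leaf p082_l45)))
(.trX (nat_lit 10) (nat_lit 100) (nat_lit 44) (nat_lit 82) (nat_lit 384) (.trZ (nat_lit 22) (nat_lit 82) (nat_lit 100) (nat_lit 44) (nat_lit 16) (.spl (nat_lit 0) (nat_lit 330)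
(.leaf p082_l46)
(.leaf p082_l47))))))) (by decide +kernel)
noncomputable def p082_l48 : Lf2 := ⟨nat_lit 0, nat_lit 15, [nat_lit 30, nat_lit 5, nat_lit 5, nat_lit 20], false, nat_lit 0, nat_lit 80, nat_lit 0, nat_lit 260, ⟨nat_lit 166, nat_lit 834, nat_lit 0, nat_lit 8, nat_lit 314, nat_lit 834, nat_lit 29, nat_lit 0, nat_lit 0, nat_lit 0, nat_lit 0, nat_lit 0, nat_lit 41405209, nat_lit 25594791, nat_lit 0, nat_lit 3325201, true, true⟩,
 nat_lit 0, nat_lit 0, nat_lit 2681, nat_lit 0, nat_lit 2954, nat_lit 1419, nat_lit 0, nat_lit 0, nat_lit 0, nat_lit 116, nat_lit 0, nat_lit 0, nat_lit 0, nat_lit 0, nat_lit 0, nat_lit 612000, nat_lit 0, nat_lit 0, [(nat_lit 22, [(nat_lit 1, nat_lit 370), (nat_lit 2, nat_lit 464)])],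
 ⟨p082_k15, nat_lit 0, nat_lit 0, nat_lit 186, nat_lit 0, nat_lit 0, [nat_lit 1487045334, nat_lit 1350885600, nat_lit 60944534], [], [nat_lit 26777076124, nat_lit 26979445120, nat_lit 29005723145, nat_lit 29274916819, nat_lit 25870982728, nat_lit 26063040445, nat_lit 27973275141, nat_lit 28158166588], nat_lit 0, nat_lit 0, nat_lit 0, nat_lit 0, nat_lit 0, nat_lit 0, [], [nat_lit 34, nat_lit 40, nat_lit 40, nat_lit 80, nat_lit 7, nat_lit 226, nat_lit 20, nat_lit 6]⟩, ⟨p082_k12, nat_lit 0, nat_lit 0, nat_lit 686, nat_lit 0, nat_lit 968187, [nat_lit 778208000, nat_lit 1322688000, nat_lit 1970752000], [], [nat_lit 6698529744, nat_lit 6707269591, nat_lit 6925458919, nat_lit 6937567953, nat_lit 5588718842, nat_lit 5595315921, nat_lit 5810129814, nat_lit 5815535861], nat_lit 1271250, nat_lit 1271250, nat_lit 1271250, nat_lit 1271250, nat_lit 0, nat_lit 1836250, [nat_lit 1100000, nat_lit 1785000, nat_lit 1271250], [nat_lit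 21, nat_lit 40, nat_lit 40, nat_lit 80, nat_lit 14, nat_lit 373, nat_lit 150, nat_lit 9]⟩,
 ⟨nat_lit 3708, nat_lit 3873, ⟨.ofNat (nat_lit 737150), .ofNat (nat_lit 827480), .ofNat (nat_lit 748046), .ofNat (nat_lit 838377), .ofNat (nat_lit 734673), .ofNat (nat_lit 823777), .ofNat (nat_lit 745607), .ofNat (nat_lit 834711)⟩, ⟨.ofNat (nat_lit 0), .ofNat (nat_lit 132088), .ofNat (nat_lit 0), .ofNat (nat_lit 153881), .ofNat (nat_lit 0), .ofNat (nat_lit 134114), .ofNat (nat_lit 0), .ofNat (nat_lit 155983)⟩⟩, [⟨nat_lit 13, nat_lit 72, nat_lit 55, nat_lit 100, nat_lit 121460789⟩, ⟨nat_lit 10, nat_lit 100, nat_lit 58, nat_lit 64, nat_lit 18444258⟩]⟩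
noncomputable def p082_l49 : Lf2 := ⟨nat_lit 0, nat_lit 15, [nat_lit 30, nat_lit 5, nat_lit 5, nat_lit 20], false, nat_lit 0, nat_lit 80, nat_lit 0, nat_lit 260, ⟨nat_lit 97, nat_lit 903, nat_lit 0, nat_lit 8, nat_lit 312, nat_lit 903, nat_lit 29, nat_lit 0, nat_lit 0, nat_lit 0, nat_lit 0, nat_lit 0, nat_lit 41656688, nat_lit 25343312, nat_lit 0, nat_lit 3316024, true, true⟩,
 nat_lit 0, nat_lit 0, nat_lit 1682, nat_lit 0, nat_lit 2826, nat_lit 890, nat_lit 203, nat_lit 0, nat_lit 0, nat_lit 76, nat_lit 0, nat_lit 0, nat_lit 0, nat_lit 0, nat_lit 0, nat_lit 361200, nat_lit 0, nat_lit 0, [(nat_lit 22, [(nat_lit 1, nat_lit 903)])],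
 ⟨p082_k21, nat_lit 0, nat_lit 0, nat_lit 168, nat_lit 0, nat_lit 0, [nat_lit 1423739201, nat_lit 1815376401, nat_lit 1937994400], [], [nat_lit 26634375247, nat_lit 26846822734, nat_lit 28756623229, nat_lit 28947311021, nat_lit 25836852472, nat_lit 26038289684, nat_lit 27852711915, nat_lit 28032420919], nat_lit 0, nat_lit 0, nat_lit 0, nat_lit 0, nat_lit 0, nat_lit 0, [], [nat_lit 6, nat_lit 40, nat_lit 40, nat_lit 80, nat_lit 3, nat_lit 226, nat_lit 20, nat_lit 7]⟩, ⟨p082_k12, nat_lit 0, nat_lit 0, nat_lit 724, nat_lit 0, nat_lit 1069485, [nat_lit 454736000, nat_lit 772896000, nat_lit 1151584000], [], [nat_lit 3758270212, nat_lit 3765320287, nat_lit 3888849611, nat_lit 3903034261, nat_lit 3110629183, nat_lit 3110733733, nat_lit 3188501572, nat_lit 3185957121], nat_lit 1271250, nat_lit 1271250, nat_lit 1271250, nat_lit 1271250, nat_lit 0, nat_lit 1836250, [nat_lit 1100000, nat_lit 1785000, nat_lit 1271250], [nat_lit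 21, nat_lit 40, nat_lit 40, nat_lit 80, nat_lit 14, nat_lit 373, nat_lit 150, nat_lit 9]⟩,
 ⟨nat_lit 3535, nat_lit 3709, ⟨.ofNat (nat_lit 734673), .ofNat (nat_lit 817413), .ofNat (nat_lit 745607), .ofNat (nat_lit 828347), .ofNat (nat_lit 732188), .ofNat (nat_lit 813778), .ofNat (nat_lit 743164), .ofNat (nat_lit 824754)⟩, ⟨.ofNat (nat_lit 0), .ofNat (nat_lit 134114), .ofNat (nat_lit 0), .ofNat (nat_lit 155983), .ofNat (nat_lit 0), .ofNat (nat_lit 136093), .ofNat (nat_lit 0), .ofNat (nat_lit 158046)⟩⟩, [⟨nat_lit 13, nat_lit 69, nat_lit 58, nat_lit 100, nat_lit 170980146⟩, ⟨nat_lit 10, nat_lit 100, nat_lit 58, nat_lit 64, nat_lit 8260114⟩]⟩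
noncomputable def p082_l50 : Lf2 := ⟨nat_lit 0, nat_lit 15, [nat_lit 30, nat_lit 5, nat_lit 5, nat_lit 20], false, nat_lit 0, nat_lit 80, nat_lit 0, nat_lit 260, ⟨nat_lit 90, nat_lit 910, nat_lit 0, nat_lit 8, nat_lit 309, nat_lit 910, nat_lit 30, nat_lit 0, nat_lit 0, nat_lit 0, nat_lit 0, nat_lit 0, nat_lit 41967944, nat_lit 25032056, nat_lit 0, nat_lit 3304251, true, true⟩,
 nat_lit 0, nat_lit 0, nat_lit 1299, nat_lit 0, nat_lit 3087, nat_lit 687, nat_lit 2, nat_lit 0, nat_lit 0, nat_lit 111, nat_lit 0, nat_lit 0, nat_lit 0, nat_lit 0, nat_lit 0, nat_lit 364000, nat_lit 0, nat_lit 0, [(nat_lit 22, [(nat_lit 1, nat_lit 910)])],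
 ⟨p082_k22, nat_lit 0, nat_lit 0, nat_lit 160, nat_lit 0, nat_lit 0, [nat_lit 1419024000, nat_lit 1616578667, nat_lit 1929597333], [], [nat_lit 27814410093, nat_lit 28274589656, nat_lit 29897197767, nat_lit 30307716137, nat_lit 26819307484, nat_lit 27254988896, nat_lit 28795747771, nat_lit 29185923954], nat_lit 0, nat_lit 0, nat_lit 0, nat_lit 0, nat_lit 0, nat_lit 0, [], [nat_lit 85, nat_lit 40, nat_lit 40, nat_lit 80, nat_lit 16, nat_lit 226, nat_lit 20, nat_lit 7]⟩, ⟨p082_k23, nat_lit 0, nat_lit 0, nat_lit 825, nat_lit 0, nat_lit 1279579, [nat_lit 421920000, nat_lit 562500000, nat_lit 1068480000], [], [nat_lit 3491947110, nat_lit 3494050452, nat_lit 3557747347, nat_lit 3557912179, nat_lit 3047674329, nat_lit 3050564870, nat_lit 3111879878, nat_lit 3112954163], nat_lit 1271250, nat_lit 1271250, nat_lit 1271250, nat_lit 1271250, nat_lit 0, nat_lit 1836250, [nat_lit 1100000, nat_lit 1442500, nat_lit 1271250], [nat_lit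 48, nat_lit 40, nat_lit 40, nat_lit 80, nat_lit 12, nat_lit 373, nat_lit 150, nat_lit 9]⟩,
 ⟨nat_lit 3162, nat_lit 3536, ⟨.ofNat (nat_lit 732188), .ofNat (nat_lit 807502), .ofNat (nat_lit 743164), .ofNat (nat_lit 818478), .ofNat (nat_lit 727168), .ofNat (nat_lit 800312), .ofNat (nat_lit 738246), .ofNat (nat_lit 811390)⟩, ⟨.ofNat (nat_lit 0), .ofNat (nat_lit 136093), .ofNat (nat_lit 0), .ofNat (nat_lit 158046), .ofNat (nat_lit 0), .ofNat (nat_lit 139899), .ofNat (nat_lit 0), .ofNat (nat_lit 162054)⟩⟩, [⟨nat_lit 13, nat_lit 65, nat_lit 63, nat_lit 100, nat_lit 223212894⟩, ⟨nat_lit 22, nat_lit 74, nat_lit 100, nat_lit 46, nat_lit 19616581⟩]⟩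
noncomputable def p082_l51 : Lf2 := ⟨nat_lit 0, nat_lit 15, [nat_lit 30, nat_lit 5, nat_lit 5, nat_lit 20], false, nat_lit 0, nat_lit 80, nat_lit 0, nat_lit 260, ⟨nat_lit 190, nat_lit 810, nat_lit 0, nat_lit 8, nat_lit 320, nat_lit 810, nat_lit 29, nat_lit 0, nat_lit 0, nat_lit 0, nat_lit 0, nat_lit 0, nat_lit 40839825, nat_lit 26160175, nat_lit 0, nat_lit 3344744, true, true⟩,
 nat_lit 0, nat_lit 0, nat_lit 2833, nat_lit 0, nat_lit 2987, nat_lit 1573, nat_lit 0, nat_lit 0, nat_lit 0, nat_lit 143, nat_lit 0, nat_lit 0, nat_lit 0, nat_lit 0, nat_lit 0, nat_lit 612000, nat_lit 0, nat_lit 0, [(nat_lit 22, [(nat_lit 1, nat_lit 330), (nat_lit 2, nat_lit 480)])],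
 ⟨p082_k15, nat_lit 0, nat_lit 0, nat_lit 187, nat_lit 0, nat_lit 0, [nat_lit 1503792001, nat_lit 1401116000, nat_lit 133064000], [], [nat_lit 26874706969, nat_lit 27077807707, nat_lit 29350621435, nat_lit 29617571860, nat_lit 25945933531, nat_lit 26138661495, nat_lit 28213382909, nat_lit 28397867154], nat_lit 0, nat_lit 0, nat_lit 0, nat_lit 0, nat_lit 0, nat_lit 0, [], [nat_lit 34, nat_lit 40, nat_lit 40, nat_lit 80, nat_lit 7, nat_lit 226, nat_lit 20, nat_lit 6]⟩, ⟨p082_k19, nat_lit 0, nat_lit 0, nat_lit 686, nat_lit 0, nat_lit 973270, [nat_lit 890720000, nat_lit 1513920000, nat_lit 2255680000], [], [nat_lit 7265008967, nat_lit 7284796417, nat_lit 7598837223, nat_lit 7619528546, nat_lit 6149506112, nat_lit 6163280978, nat_lit 6420458747, nat_lit 6426974982], nat_lit 1271250, nat_lit 1271250, nat_lit 1271250, nat_lit 1271250, nat_lit 0, nat_lit 1836250, [nat_lit 1100000, nat_lit 1785000, nat_lit 1271250], [nat_lit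 21, nat_lit 40, nat_lit 40, nat_lit 80, nat_lit 14, nat_lit 373, nat_lit 150, nat_lit 9]⟩,
 ⟨nat_lit 3708, nat_lit 3873, ⟨.ofNat (nat_lit 748046), .ofNat (nat_lit 844829), .ofNat (nat_lit 758943), .ofNat (nat_lit 855725), .ofNat (nat_lit 745607), .ofNat (nat_lit 841076), .ofNat (nat_lit 756541), .ofNat (nat_lit 852010)⟩, ⟨.ofNat (nat_lit 0), .ofNat (nat_lit 132088), .ofNat (nat_lit 0), .ofNat (nat_lit 153881), .ofNat (nat_lit 0), .ofNat (nat_lit 134114), .ofNat (nat_lit 0), .ofNat (nat_lit 155983)⟩⟩, [⟨nat_lit 13, nat_lit 73, nat_lit 51, nat_lit 100, nat_lit 104741930⟩, ⟨nat_lit 10, nat_lit 100, nat_lit 58, nat_lit 64, nat_lit 26434174⟩]⟩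
noncomputable def p082_l52 : Lf2 := ⟨nat_lit 0, nat_lit 15, [nat_lit 30, nat_lit 5, nat_lit 5, nat_lit 20], false, nat_lit 0, nat_lit 80, nat_lit 0, nat_lit 260, ⟨nat_lit 216, nat_lit 784, nat_lit 0, nat_lit 8, nat_lit 318, nat_lit 784, nat_lit 29, nat_lit 0, nat_lit 0, nat_lit 0, nat_lit 0, nat_lit 0, nat_lit 41089070, nat_lit 25910930, nat_lit 0, nat_lit 3336314, true, true⟩,
 nat_lit 0, nat_lit 0, nat_lit 2814, nat_lit 0, nat_lit 3276, nat_lit 1563, nat_lit 125, nat_lit 0, nat_lit 0, nat_lit 316, nat_lit 0, nat_lit 0, nat_lit 0, nat_lit 0, nat_lit 0, nat_lit 313600, nat_lit 0, nat_lit 0, [(nat_lit 22, [(nat_lit 1, nat_lit 784)])],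
 ⟨p082_k24, nat_lit 0, nat_lit 0, nat_lit 160, nat_lit 0, nat_lit 0, [nat_lit 1503897601, nat_lit 1847175467, nat_lit 2512113778], [], [nat_lit 27439728498, nat_lit 27675010960, nat_lit 30174284133, nat_lit 30432727646, nat_lit 26325563340, nat_lit 26548174028, nat_lit 28726126303, nat_lit 28921082311], nat_lit 0, nat_lit 0, nat_lit 0, nat_lit 0, nat_lit 0, nat_lit 0, [], [nat_lit 85, nat_lit 40, nat_lit 40, nat_lit 80, nat_lit 16, nat_lit 226, nat_lit 20, nat_lit 7]⟩, ⟨p082_k25, nat_lit 0, nat_lit 0, nat_lit 714, nat_lit 0, nat_lit 1065322, [nat_lit 1012608000, nat_lit 1350000000, nat_lit 2564352000], [], [nat_lit 7566332859, nat_lit 7585718454, nat_lit 7903894137, nat_lit 7932268874, nat_lit 6782631465, nat_lit 6798934679, nat_lit 7027566850, nat_lit 7037833512], nat_lit 1271250, nat_lit 1271250, nat_lit 1271250, nat_lit 1271250, nat_lit 0, nat_lit 1836250, [nat_lit 1100000, nat_lit 1442500, nat_lit 1271250],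 [nat_lit 48, nat_lit 40, nat_lit 40, nat_lit 80, nat_lit 12, nat_lit 373, nat_lit 150, nat_lit 9]⟩,
 ⟨nat_lit 3535, nat_lit 3709, ⟨.ofNat (nat_lit 745607), .ofNat (nat_lit 834711), .ofNat (nat_lit 756541), .ofNat (nat_lit 845645), .ofNat (nat_lit 743164), .ofNat (nat_lit 831030), .ofNat (nat_lit 754141), .ofNat (nat_lit 842007)⟩, ⟨.ofNat (nat_lit 0), .ofNat (nat_lit 134114), .ofNat (nat_lit 0), .ofNat (nat_lit 155983), .ofNat (nat_lit 0), .ofNat (nat_lit 136093), .ofNat (nat_lit 0), .ofNat (nat_lit 158046)⟩⟩, [⟨nat_lit 13, nat_lit 70, nat_lit 54, nat_lit 100, nat_lit 110789657⟩, ⟨nat_lit 10, nat_lit 100, nat_lit 58, nat_lit 64, nat_lit 53403159⟩]⟩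
noncomputable def p082_l53 : Lf2 := ⟨nat_lit 0, nat_lit 15, [nat_lit 30, nat_lit 5, nat_lit 5, nat_lit 20], false, nat_lit 0, nat_lit 40, nat_lit 0, nat_lit 200, ⟨nat_lit 109, nat_lit 891, nat_lit 0, nat_lit 8, nat_lit 313, nat_lit 782, nat_lit 17, nat_lit 0, nat_lit 0, nat_lit 0, nat_lit 0, nat_lit 0, nat_lit 41508246, nat_lit 25491754, nat_lit 0, nat_lit 3321477, true, true⟩,
 nat_lit 0, nat_lit 0, nat_lit 1669, nat_lit 0, nat_lit 2694, nat_lit 927, nat_lit 221, nat_lit 0, nat_lit 0, nat_lit 74, nat_lit 0, nat_lit 0, nat_lit 0, nat_lit 0, nat_lit 0, nat_lit 356400, nat_lit 0, nat_lit 0, [(nat_lit 22, [(nat_lit 1, nat_lit 891)])],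
 ⟨p082_k16, nat_lit 0, nat_lit 0, nat_lit 171, nat_lit 0, nat_lit 0, [nat_lit 1431822401, nat_lit 1853550800, nat_lit 1995296800], [], [nat_lit 26681841534, nat_lit 27100097040, nat_lit 28749176248, nat_lit 29121575175, nat_lit 26323077059, nat_lit 26730597840, nat_lit 28339465098, nat_lit 28703014298], nat_lit 0, nat_lit 0, nat_lit 0, nat_lit 0, nat_lit 0, nat_lit 0, [], [nat_lit 6, nat_lit 40, nat_lit 40, nat_lit 80, nat_lit 3, nat_lit 215, nat_lit 10, nat_lit 7]⟩, ⟨p082_k19, nat_lit 0, nat_lit 0, nat_lit 803, nat_lit 0, nat_lit 1222535, [nat_lit 510992000, nat_lit 868512000, nat_lit 1294048000], [], [nat_lit 4267744230, nat_lit 4269788332, nat_lit 4377540096, nat_lit 4377939205, nat_lit 3603197136, nat_lit 3605098091, nat_lit 3704994729, nat_lit 3705364182], nat_lit 1271250, nat_lit 1271250, nat_lit 1271250, nat_lit 1271250, nat_lit 0, nat_lit 1412500, [nat_lit 1100000, nat_lit 1785000, nat_lit 1271250], [nat_lit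 21, nat_lit 40, nat_lit 40, nat_lit 80, nat_lit 14, nat_lit 345, nat_lit 125, nat_lit 8]⟩,
 ⟨nat_lit 3162, nat_lit 3536, ⟨.ofNat (nat_lit 743164), .ofNat (nat_lit 824754), .ofNat (nat_lit 748652), .ofNat (nat_lit 830242), .ofNat (nat_lit 738246), .ofNat (nat_lit 817485), .ofNat (nat_lit 743785), .ofNat (nat_lit 823024)⟩, ⟨.ofNat (nat_lit 0), .ofNat (nat_lit 73332), .ofNat (nat_lit 0), .ofNat (nat_lit 95284), .ofNat (nat_lit 0), .ofNat (nat_lit 78946), .ofNat (nat_lit 0), .ofNat (nat_lit 100000)⟩⟩, [⟨nat_lit 13, nat_lit 62, nat_lit 65, nat_lit 100, nat_lit 211925028⟩, ⟨nat_lit 22, nat_lit 79, nat_lit 100, nat_lit 34, nat_lit 524917⟩]⟩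
noncomputable def p082_l54 : Lf2 := ⟨nat_lit 0, nat_lit 15, [nat_lit 30, nat_lit 5, nat_lit 5, nat_lit 20], false, nat_lit 0, nat_lit 40, nat_lit 0, nat_lit 200, ⟨nat_lit 124, nat_lit 876, nat_lit 0, nat_lit 8, nat_lit 316, nat_lit 790, nat_lit 17, nat_lit 0, nat_lit 0, nat_lit 0, nat_lit 0, nat_lit 0, nat_lit 41286436, nat_lit 25713564, nat_lit 0, nat_lit 3329431, true, true⟩,
 nat_lit 0, nat_lit 0, nat_lit 1825, nat_lit 0, nat_lit 2703, nat_lit 1037, nat_lit 230, nat_lit 0, nat_lit 0, nat_lit 132, nat_lit 0, nat_lit 0, nat_lit 0, nat_lit 0, nat_lit 0, nat_lit 350400, nat_lit 0, nat_lit 0, [(nat_lit 22, [(nat_lit 1, nat_lit 876)])],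
 ⟨p082_k16, nat_lit 0, nat_lit 0, nat_lit 171, nat_lit 0, nat_lit 0, [nat_lit 1441926400, nat_lit 1901268801, nat_lit 2066924800], [], [nat_lit 26705963022, nat_lit 27124671219, nat_lit 28775427491, nat_lit 29148177032, nat_lit 26344096135, nat_lit 26752050819, nat_lit 28362527115, nat_lit 28726412481], nat_lit 0, nat_lit 0, nat_lit 0, nat_lit 0, nat_lit 0, nat_lit 0, [], [nat_lit 6, nat_lit 40, nat_lit 40, nat_lit 80, nat_lit 3, nat_lit 215, nat_lit 10, nat_lit 7]⟩, ⟨p082_k26, nat_lit 0, nat_lit 0, nat_lit 794, nat_lit 0, nat_lit 1213042, [nat_lit 581312000, nat_lit 988032000, nat_lit 1472128000], [], [nat_lit 4429551877, nat_lit 4434637420, nat_lit 4586484416, nat_lit 4589433500, nat_lit 3725728206, nat_lit 3728024986, nat_lit 3839812771, nat_lit 3840391105], nat_lit 1271250, nat_lit 1271250, nat_lit 1271250, nat_lit 1271250, nat_lit 0, nat_lit 1412500, [nat_lit 1100000, nat_lit 1785000, nat_lit 1271250], [nat_lit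 21, nat_lit 40, nat_lit 40, nat_lit 80, nat_lit 14, nat_lit 345, nat_lit 125, nat_lit 8]⟩,
 ⟨nat_lit 3162, nat_lit 3536, ⟨.ofNat (nat_lit 748652), .ofNat (nat_lit 830242), .ofNat (nat_lit 754141), .ofNat (nat_lit 835730), .ofNat (nat_lit 743785), .ofNat (nat_lit 823024), .ofNat (nat_lit 749323), .ofNat (nat_lit 828563)⟩, ⟨.ofNat (nat_lit 0), .ofNat (nat_lit 73332), .ofNat (nat_lit 0), .ofNat (nat_lit 95284), .ofNat (nat_lit 0), .ofNat (nat_lit 78946), .ofNat (nat_lit 0), .ofNat (nat_lit 100000)⟩⟩, [⟨nat_lit 13, nat_lit 62, nat_lit 63, nat_lit 100, nat_lit 202840086⟩, ⟨nat_lit 22, nat_lit 79, nat_lit 100, nat_lit 34, nat_lit 1990174⟩]⟩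
noncomputable def p082_l55 : Lf2 := ⟨nat_lit 0, nat_lit 15, [nat_lit 30, nat_lit 5, nat_lit 5, nat_lit 20], false, nat_lit 40, nat_lit 80, nat_lit 0, nat_lit 260, ⟨nat_lit 66, nat_lit 934, nat_lit 0, nat_lit 8, nat_lit 315, nat_lit 934, nat_lit 47, nat_lit 0, nat_lit 0, nat_lit 0, nat_lit 0, nat_lit 0, nat_lit 40492134, nat_lit 25200433, nat_lit 1307433, nat_lit 3858754, true, true⟩,
 nat_lit 0, nat_lit 0, nat_lit 1020, nat_lit 0, nat_lit 3048, nat_lit 566, nat_lit 0, nat_lit 0, nat_lit 0, nat_lit 40, nat_lit 0, nat_lit 0, nat_lit 0, nat_lit 0, nat_lit 0, nat_lit 310600, nat_lit 0, nat_lit 0, [(nat_lit 22, [(nat_lit 0, nat_lit 420), (nat_lit 1, nat_lit 514)])],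
 ⟨p082_k16, nat_lit 0, nat_lit 0, nat_lit 146, nat_lit 0, nat_lit 0, [nat_lit 1490889601, nat_lit 1911639201, nat_lit 2149483200], [], [nat_lit 27045093853, nat_lit 27535352433, nat_lit 29453098026, nat_lit 29884246851, nat_lit 26437966433, nat_lit 26915488609, nat_lit 28786373262, nat_lit 29207345125], nat_lit 0, nat_lit 0, nat_lit 0, nat_lit 0, nat_lit 0, nat_lit 0, [], [nat_lit 6, nat_lit 40, nat_lit 40, nat_lit 80, nat_lit 3, nat_lit 226, nat_lit 20, nat_lit 7]⟩, ⟨p082_k19, nat_lit 0, nat_lit 0, nat_lit 815, nat_lit 0, nat_lit 1256004, [nat_lit 309408000, nat_lit 525888000, nat_lit 783552000], [], [nat_lit 2615164328, nat_lit 2617566496, nat_lit 2681669087, nat_lit 2691608300, nat_lit 2177216096, nat_lit 2175871761, nat_lit 2215376437, nat_lit 2214428238], nat_lit 1271250, nat_lit 1271250, nat_lit 1271250, nat_lit 1271250, nat_lit 0, nat_lit 1836250, [nat_lit 1100000, nat_lit 1785000, nat_lit 1271250], [nat_lit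 21, nat_lit 40, nat_lit 40, nat_lit 80, nat_lit 14, nat_lit 373, nat_lit 150, nat_lit 9]⟩,
 ⟨nat_lit 3162, nat_lit 3536, ⟨.ofNat (nat_lit 743164), .ofNat (nat_lit 824754), .ofNat (nat_lit 754141), .ofNat (nat_lit 835730), .ofNat (nat_lit 738246), .ofNat (nat_lit 817485), .ofNat (nat_lit 749323), .ofNat (nat_lit 828563)⟩, ⟨.ofNat (nat_lit 73332), .ofNat (nat_lit 136093), .ofNat (nat_lit 95284), .ofNat (nat_lit 158046), .ofNat (nat_lit 78946), .ofNat (nat_lit 139899), .ofNat (nat_lit 100000), .ofNat (nat_lit 162054)⟩⟩, [⟨nat_lit 13, nat_lit 66, nat_lit 59, nat_lit 100, nat_lit 257730903⟩, ⟨nat_lit 22, nat_lit 68, nat_lit 100, nat_lit 71, nat_lit 4752534⟩]⟩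
noncomputable def p082_l56 : Lf2 := ⟨nat_lit 0, nat_lit 20, [nat_lit 5, nat_lit 5, nat_lit 5, nat_lit 20], false, nat_lit 0, nat_lit 80, nat_lit 0, nat_lit 260, ⟨nat_lit 213, nat_lit 787, nat_lit 0, nat_lit 8, nat_lit 314, nat_lit 787, nat_lit 33, nat_lit 0, nat_lit 0, nat_lit 0, nat_lit 0, nat_lit 0, nat_lit 41467265, nat_lit 25532735, nat_lit 0, nat_lit 3322964, true, true⟩,
 nat_lit 0, nat_lit 0, nat_lit 3397, nat_lit 0, nat_lit 2957, nat_lit 1798, nat_lit 0, nat_lit 0, nat_lit 0, nat_lit 161, nat_lit 0, nat_lit 0, nat_lit 0, nat_lit 0, nat_lit 0, nat_lit 619600, nat_lit 0, nat_lit 0, [(nat_lit 22, [(nat_lit 1, nat_lit 279), (nat_lit 2, nat_lit 508)])],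
 ⟨p082_k7, nat_lit 0, nat_lit 0, nat_lit 187, nat_lit 0, nat_lit 0, [nat_lit 1520300267, nat_lit 1429488400, nat_lit 136077067], [], [nat_lit 26960296782, nat_lit 27365167818, nat_lit 29173273165, nat_lit 29552389535, nat_lit 26052141564, nat_lit 26436378861, nat_lit 28155088811, nat_lit 28534074290], nat_lit 0, nat_lit 0, nat_lit 0, nat_lit 0, nat_lit 0, nat_lit 0, [], [nat_lit 34, nat_lit 40, nat_lit 40, nat_lit 80, nat_lit 7, nat_lit 226, nat_lit 20, nat_lit 6]⟩, ⟨p082_k6, nat_lit 0, nat_lit 0, nat_lit 635, nat_lit 0, nat_lit 756328, [nat_lit 998544000, nat_lit 1697184000, nat_lit 2994354000], [], [nat_lit 8690400088, nat_lit 8705757879, nat_lit 9002490202, nat_lit 9026417573, nat_lit 7269415829, nat_lit 7276155749, nat_lit 7550767328, nat_lit 7558069717], nat_lit 1271250, nat_lit 1271250, nat_lit 1271250, nat_lit 1271250, nat_lit 0, nat_lit 1836250, [nat_lit 1100000, nat_lit 1785000, nat_lit 1271250], [nat_lit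 37, nat_lit 40, nat_lit 40, nat_lit 80, nat_lit 28, nat_lit 456, nat_lit 225, nat_lit 10]⟩,
 ⟨nat_lit 3535, nat_lit 3873, ⟨.ofNat (nat_lit 737150), .ofNat (nat_lit 827480), .ofNat (nat_lit 748046), .ofNat (nat_lit 838377), .ofNat (nat_lit 732188), .ofNat (nat_lit 820054), .ofNat (nat_lit 743164), .ofNat (nat_lit 831030)⟩, ⟨.ofNat (nat_lit 0), .ofNat (nat_lit 153881), .ofNat (nat_lit 0), .ofNat (nat_lit 175674), .ofNat (nat_lit 0), .ofNat (nat_lit 158046), .ofNat (nat_lit 0), .ofNat (nat_lit 179999)⟩⟩, [⟨nat_lit 13, nat_lit 71, nat_lit 57, nat_lit 100, nat_lit 106673617⟩, ⟨nat_lit 10, nat_lit 100, nat_lit 58, nat_lit 64, nat_lit 22899897⟩]⟩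
noncomputable def p082_l57 : Lf2 := ⟨nat_lit 0, nat_lit 20, [nat_lit 5, nat_lit 5, nat_lit 5, nat_lit 20], false, nat_lit 0, nat_lit 80, nat_lit 0, nat_lit 260, ⟨nat_lit 518, nat_lit 482, nat_lit 0, nat_lit 8, nat_lit 320, nat_lit 482, nat_lit 33, nat_lit 0, nat_lit 0, nat_lit 0, nat_lit 0, nat_lit 0, nat_lit 40901333, nat_lit 26098667, nat_lit 0, nat_lit 3342691, true, true⟩,
 nat_lit 0, nat_lit 0, nat_lit 7887, nat_lit 0, nat_lit 3402, nat_lit 4381, nat_lit 213, nat_lit 0, nat_lit 0, nat_lit 604, nat_lit 0, nat_lit 0, nat_lit 0, nat_lit 0, nat_lit 0, nat_lit 482000, nat_lit 0, nat_lit 0, [(nat_lit 22, [(nat_lit 2, nat_lit 482)])],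
 ⟨p082_k7, nat_lit 0, nat_lit 0, nat_lit 188, nat_lit 0, nat_lit 0, [nat_lit 1724805334, nat_lit 2425684800, nat_lit 2261891200], [], [nat_lit 27334731987, nat_lit 27759337883, nat_lit 30482951010, nat_lit 31044693587, nat_lit 26120739839, nat_lit 26552957934, nat_lit 28764457148, nat_lit 29158230250], nat_lit 0, nat_lit 0, nat_lit 0, nat_lit 0, nat_lit 0, nat_lit 0, [], [nat_lit 34, nat_lit 40, nat_lit 40, nat_lit 80, nat_lit 7, nat_lit 226, nat_lit 20, nat_lit 6]⟩, ⟨p082_k14, nat_lit 0, nat_lit 0, nat_lit 639, nat_lit 0, nat_lit 774646, [nat_lit 2428384000, nat_lit 4127424000, nat_lit 7282044000], [], [nat_lit 18564344933, nat_lit 18646893190, nat_lit 19704071144, nat_lit 19759686547, nat_lit 15666215294, nat_lit 15702611254, nat_lit 16407915234, nat_lit 16424170540], nat_lit 1271250, nat_lit 1271250, nat_lit 1271250, nat_lit 1271250, nat_lit 0, nat_lit 1836250, [nat_lit 1100000, nat_lit 1785000, nat_lit 1271250],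 [nat_lit 37, nat_lit 40, nat_lit 40, nat_lit 80, nat_lit 28, nat_lit 456, nat_lit 225, nat_lit 10]⟩,
 ⟨nat_lit 3535, nat_lit 3873, ⟨.ofNat (nat_lit 748046), .ofNat (nat_lit 844829), .ofNat (nat_lit 758942), .ofNat (nat_lit 855725), .ofNat (nat_lit 743164), .ofNat (nat_lit 837306), .ofNat (nat_lit 754140), .ofNat (nat_lit 848283)⟩, ⟨.ofNat (nat_lit 0), .ofNat (nat_lit 153881), .ofNat (nat_lit 0), .ofNat (nat_lit 175674), .ofNat (nat_lit 0), .ofNat (nat_lit 158046), .ofNat (nat_lit 0), .ofNat (nat_lit 179999)⟩⟩, [⟨nat_lit 10, nat_lit 100, nat_lit 58, nat_lit 64, nat_lit 65718610⟩]⟩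
noncomputable def p082_l58 : Lf2 := ⟨nat_lit 0, nat_lit 20, [nat_lit 5, nat_lit 5, nat_lit 5, nat_lit 20], false, nat_lit 0, nat_lit 80, nat_lit 0, nat_lit 260, ⟨nat_lit 204, nat_lit 796, nat_lit 0, nat_lit 8, nat_lit 307, nat_lit 796, nat_lit 34, nat_lit 0, nat_lit 0, nat_lit 0, nat_lit 0, nat_lit 0, nat_lit 42205906, nat_lit 24794094, nat_lit 0, nat_lit 3294940, true, true⟩,
 nat_lit 0, nat_lit 0, nat_lit 3317, nat_lit 0, nat_lit 2739, nat_lit 1755, nat_lit 322, nat_lit 0, nat_lit 0, nat_lit 148, nat_lit 0, nat_lit 0, nat_lit 0, nat_lit 0, nat_lit 0, nat_lit 318400, nat_lit 0, nat_lit 0, [(nat_lit 22, [(nat_lit 1, nat_lit 796)])],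
 ⟨p082_k17, nat_lit 0, nat_lit 0, nat_lit 186, nat_lit 0, nat_lit 0, [nat_lit 1495814400, nat_lit 2193972801, nat_lit 2735732800], [], [nat_lit 26612016569, nat_lit 27016144666, nat_lit 28369114855, nat_lit 28772167767, nat_lit 25833865830, nat_lit 26209247749, nat_lit 27471714833, nat_lit 27854253511], nat_lit 0, nat_lit 0, nat_lit 0, nat_lit 0, nat_lit 0, nat_lit 0, [], [nat_lit 34, nat_lit 40, nat_lit 40, nat_lit 80, nat_lit 7, nat_lit 226, nat_lit 20, nat_lit 6]⟩, ⟨p082_k6, nat_lit 0, nat_lit 0, nat_lit 736, nat_lit 0, nat_lit 930368, [nat_lit 956352000, nat_lit 1625472000, nat_lit 2867832000], [], [nat_lit 8283535408, nat_lit 8290673449, nat_lit 8510284698, nat_lit 8523352544, nat_lit 6882024856, nat_lit 6882450825, nat_lit 7025302183, nat_lit 7029354269], nat_lit 1271250, nat_lit 1271250, nat_lit 1271250, nat_lit 1271250, nat_lit 0, nat_lit 1836250, [nat_lit 1100000, nat_lit 1785000, nat_lit 1271250], [nat_lit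 37, nat_lit 40, nat_lit 40, nat_lit 80, nat_lit 28, nat_lit 456, nat_lit 225, nat_lit 10]⟩,
 ⟨nat_lit 3162, nat_lit 3536, ⟨.ofNat (nat_lit 732188), .ofNat (nat_lit 801226), .ofNat (nat_lit 737676), .ofNat (nat_lit 806714), .ofNat (nat_lit 727168), .ofNat (nat_lit 794217), .ofNat (nat_lit 732707), .ofNat (nat_lit 799756)⟩, ⟨.ofNat (nat_lit 0), .ofNat (nat_lit 158046), .ofNat (nat_lit 0), .ofNat (nat_lit 179999), .ofNat (nat_lit 0), .ofNat (nat_lit 162054), .ofNat (nat_lit 0), .ofNat (nat_lit 184209)⟩⟩, [⟨nat_lit 13, nat_lit 61, nat_lit 68, nat_lit 100, nat_lit 135727034⟩, ⟨nat_lit 22, nat_lit 71, nat_lit 100, nat_lit 61, nat_lit 14427512⟩]⟩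
noncomputable def p082_l59 : Lf2 := ⟨nat_lit 0, nat_lit 20, [nat_lit 5, nat_lit 5, nat_lit 5, nat_lit 20], false, nat_lit 0, nat_lit 80, nat_lit 0, nat_lit 260, ⟨nat_lit 225, nat_lit 775, nat_lit 0, nat_lit 8, nat_lit 310, nat_lit 775, nat_lit 34, nat_lit 0, nat_lit 0, nat_lit 0, nat_lit 0, nat_lit 0, nat_lit 41856105, nat_lit 25143895, nat_lit 0, nat_lit 3308534, true, true⟩,
 nat_lit 0, nat_lit 0, nat_lit 3446, nat_lit 0, nat_lit 2769, nat_lit 1869, nat_lit 330, nat_lit 0, nat_lit 0, nat_lit 172, nat_lit 0, nat_lit 0, nat_lit 0, nat_lit 0, nat_lit 0, nat_lit 310000, nat_lit 0, nat_lit 0, [(nat_lit 22, [(nat_lit 1, nat_lit 775)])],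
 ⟨p082_k17, nat_lit 0, nat_lit 0, nat_lit 187, nat_lit 0, nat_lit 0, [nat_lit 1509960001, nat_lit 2259770000, nat_lit 2873770000], [], [nat_lit 26685380929, nat_lit 27081914541, nat_lit 28609847669, nat_lit 29089036804, nat_lit 25886500160, nat_lit 26263100709, nat_lit 27682127304, nat_lit 28060718064], nat_lit 0, nat_lit 0, nat_lit 0, nat_lit 0, nat_lit 0, nat_lit 0, [], [nat_lit 34, nat_lit 40, nat_lit 40, nat_lit 80, nat_lit 7, nat_lit 226, nat_lit 20, nat_lit 6]⟩, ⟨p082_k27, nat_lit 0, nat_lit 0, nat_lit 734, nat_lit 0, nat_lit 928710, [nat_lit 1054800000, nat_lit 1792800000, nat_lit 3163050000], [], [nat_lit 9000055097, nat_lit 9008365437, nat_lit 9271406240, nat_lit 9290734492, nat_lit 7529070459, nat_lit 7535167205, nat_lit 7779111881, nat_lit 7783797818], nat_lit 1271250, nat_lit 1271250, nat_lit 1271250, nat_lit 1271250, nat_lit 0, nat_lit 1836250, [nat_lit 1100000, nat_lit 1785000, nat_lit 1271250], [nat_lit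 37, nat_lit 40, nat_lit 40, nat_lit 80, nat_lit 28, nat_lit 456, nat_lit 225, nat_lit 10]⟩,
 ⟨nat_lit 3162, nat_lit 3536, ⟨.ofNat (nat_lit 737676), .ofNat (nat_lit 812990), .ofNat (nat_lit 743164), .ofNat (nat_lit 818478), .ofNat (nat_lit 732707), .ofNat (nat_lit 805851), .ofNat (nat_lit 738246), .ofNat (nat_lit 811390)⟩, ⟨.ofNat (nat_lit 0), .ofNat (nat_lit 158046), .ofNat (nat_lit 0), .ofNat (nat_lit 179999), .ofNat (nat_lit 0), .ofNat (nat_lit 162054), .ofNat (nat_lit 0), .ofNat (nat_lit 184209)⟩⟩, [⟨nat_lit 13, nat_lit 62, nat_lit 66, nat_lit 100, nat_lit 124976810⟩, ⟨nat_lit 10, nat_lit 100, nat_lit 58, nat_lit 64, nat_lit 26277042⟩]⟩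
noncomputable def p082_l60 : Lf2 := ⟨nat_lit 0, nat_lit 20, [nat_lit 5, nat_lit 5, nat_lit 5, nat_lit 20], false, nat_lit 0, nat_lit 80, nat_lit 0, nat_lit 260, ⟨nat_lit 254, nat_lit 746, nat_lit 0, nat_lit 8, nat_lit 313, nat_lit 746, nat_lit 34, nat_lit 0, nat_lit 0, nat_lit 0, nat_lit 0, nat_lit 0, nat_lit 41508246, nat_lit 25491754, nat_lit 0, nat_lit 3321477, true, true⟩,
 nat_lit 0, nat_lit 0, nat_lit 3630, nat_lit 0, nat_lit 2824, nat_lit 2016, nat_lit 342, nat_lit 0, nat_lit 0, nat_lit 210, nat_lit 0, nat_lit 0, nat_lit 0, nat_lit 0, nat_lit 0, nat_lit 298400, nat_lit 0, nat_lit 0, [(nat_lit 22, [(nat_lit 1, nat_lit 746)])],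
 ⟨p082_k17, nat_lit 0, nat_lit 0, nat_lit 188, nat_lit 0, nat_lit 0, [nat_lit 1529494401, nat_lit 2350632800, nat_lit 3064392800], [], [nat_lit 26757355589, nat_lit 27156328341, nat_lit 28941863485, nat_lit 29477816112, nat_lit 25920469765, nat_lit 26299304469, nat_lit 27884280424, nat_lit 28259828149], nat_lit 0, nat_lit 0, nat_lit 0, nat_lit 0, nat_lit 0, nat_lit 0, [], [nat_lit 34, nat_lit 40, nat_lit 40, nat_lit 80, nat_lit 7, nat_lit 226, nat_lit 20, nat_lit 6]⟩, ⟨p082_k14, nat_lit 0, nat_lit 0, nat_lit 733, nat_lit 0, nat_lit 928429, [nat_lit 1190752000, nat_lit 2023872000, nat_lit 3570732000], [], [nat_lit 9948190918, nat_lit 9958188591, nat_lit 10276816859, nat_lit 10282429546, nat_lit 8527411232, nat_lit 8537162579, nat_lit 8832964778, nat_lit 8838666122], nat_lit 1271250, nat_lit 1271250, nat_lit 1271250, nat_lit 1271250, nat_lit 0, nat_lit 1836250, [nat_lit 1100000, nat_lit 1785000, nat_lit 1271250],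 [nat_lit 37, nat_lit 40, nat_lit 40, nat_lit 80, nat_lit 28, nat_lit 456, nat_lit 225, nat_lit 10]⟩,
 ⟨nat_lit 3162, nat_lit 3536, ⟨.ofNat (nat_lit 743164), .ofNat (nat_lit 824754), .ofNat (nat_lit 748652), .ofNat (nat_lit 830242), .ofNat (nat_lit 738246), .ofNat (nat_lit 817485), .ofNat (nat_lit 743785), .ofNat (nat_lit 823024)⟩, ⟨.ofNat (nat_lit 0), .ofNat (nat_lit 158046), .ofNat (nat_lit 0), .ofNat (nat_lit 179999), .ofNat (nat_lit 0), .ofNat (nat_lit 162054), .ofNat (nat_lit 0), .ofNat (nat_lit 184209)⟩⟩, [⟨nat_lit 13, nat_lit 62, nat_lit 65, nat_lit 100, nat_lit 99297717⟩, ⟨nat_lit 10, nat_lit 100, nat_lit 58, nat_lit 64, nat_lit 42010808⟩]⟩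
noncomputable def p082_l61 : Lf2 := ⟨nat_lit 0, nat_lit 20, [nat_lit 5, nat_lit 5, nat_lit 5, nat_lit 20], false, nat_lit 0, nat_lit 80, nat_lit 0, nat_lit 260, ⟨nat_lit 289, nat_lit 711, nat_lit 0, nat_lit 8, nat_lit 316, nat_lit 711, nat_lit 34, nat_lit 0, nat_lit 0, nat_lit 0, nat_lit 0, nat_lit 0, nat_lit 41286436, nat_lit 25713564, nat_lit 0, nat_lit 3329431, true, true⟩,
 nat_lit 0, nat_lit 0, nat_lit 4171, nat_lit 0, nat_lit 2861, nat_lit 2372, nat_lit 361, nat_lit 0, nat_lit 0, nat_lit 348, nat_lit 0, nat_lit 0, nat_lit 0, nat_lit 0, nat_lit 0, nat_lit 284400, nat_lit 0, nat_lit 0, [(nat_lit 22, [(nat_lit 1, nat_lit 711)])],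
 ⟨p082_k17, nat_lit 0, nat_lit 0, nat_lit 188, nat_lit 0, nat_lit 0, [nat_lit 1553070400, nat_lit 2460294800, nat_lit 3294454800], [], [nat_lit 26818710882, nat_lit 27219324510, nat_lit 29042642890, nat_lit 29581195518, nat_lit 25956258021, nat_lit 26336595702, nat_lit 27925599546, nat_lit 28301803071], nat_lit 0, nat_lit 0, nat_lit 0, nat_lit 0, nat_lit 0, nat_lit 0, [], [nat_lit 34, nat_lit 40, nat_lit 40, nat_lit 80, nat_lit 7, nat_lit 226, nat_lit 20, nat_lit 6]⟩, ⟨p082_k28, nat_lit 0, nat_lit 0, nat_lit 732, nat_lit 0, nat_lit 929223, [nat_lit 1354832000, nat_lit 2302752000, nat_lit 4062762000], [], [nat_lit 9999216602, nat_lit 10022409926, nat_lit 10529173000, nat_lit 10545770702, nat_lit 8451363974, nat_lit 8461969234, nat_lit 8796267633, nat_lit 8802136547], nat_lit 1271250, nat_lit 1271250, nat_lit 1271250, nat_lit 1271250, nat_lit 0, nat_lit 1836250, [nat_lit 1100000, nat_lit 1785000, nat_lit 1271250],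 [nat_lit 37, nat_lit 40, nat_lit 40, nat_lit 80, nat_lit 28, nat_lit 456, nat_lit 225, nat_lit 10]⟩,
 ⟨nat_lit 3162, nat_lit 3536, ⟨.ofNat (nat_lit 748652), .ofNat (nat_lit 830242), .ofNat (nat_lit 754141), .ofNat (nat_lit 835730), .ofNat (nat_lit 743785), .ofNat (nat_lit 823024), .ofNat (nat_lit 749323), .ofNat (nat_lit 828563)⟩, ⟨.ofNat (nat_lit 0), .ofNat (nat_lit 158046), .ofNat (nat_lit 0), .ofNat (nat_lit 179999), .ofNat (nat_lit 0), .ofNat (nat_lit 162054), .ofNat (nat_lit 0), .ofNat (nat_lit 184209)⟩⟩, [⟨nat_lit 13, nat_lit 62, nat_lit 63, nat_lit 100, nat_lit 83575258⟩, ⟨nat_lit 10, nat_lit 100, nat_lit 58, nat_lit 64, nat_lit 42471195⟩]⟩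
noncomputable def p082_l62 : Lf2 := ⟨nat_lit 0, nat_lit 15, [nat_lit 30, nat_lit 5, nat_lit 5, nat_lit 20], false, nat_lit 0, nat_lit 80, nat_lit 0, nat_lit 260, ⟨nat_lit 335, nat_lit 665, nat_lit 0, nat_lit 8, nat_lit 320, nat_lit 665, nat_lit 29, nat_lit 0, nat_lit 0, nat_lit 0, nat_lit 0, nat_lit 0, nat_lit 40825810, nat_lit 26174190, nat_lit 0, nat_lit 3345210, true, true⟩,
 nat_lit 0, nat_lit 0, nat_lit 4240, nat_lit 0, nat_lit 3340, nat_lit 2468, nat_lit 0, nat_lit 0, nat_lit 0, nat_lit 537, nat_lit 0, nat_lit 0, nat_lit 0, nat_lit 0, nat_lit 0, nat_lit 644000, nat_lit 0, nat_lit 0, [(nat_lit 22, [(nat_lit 1, nat_lit 35), (nat_lit 2, nat_lit 630)])],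
 ⟨p082_k15, nat_lit 0, nat_lit 0, nat_lit 181, nat_lit 0, nat_lit 0, [nat_lit 1606904000, nat_lit 1621370000, nat_lit 290464000], [], [nat_lit 26911915760, nat_lit 27122843920, nat_lit 28967113240, nat_lit 29264191050, nat_lit 25740534600, nat_lit 25940432170, nat_lit 27272933640, nat_lit 27478675290], nat_lit 0, nat_lit 0, nat_lit 0, nat_lit 0, nat_lit 0, nat_lit 0, [], [nat_lit 34, nat_lit 40, nat_lit 40, nat_lit 80, nat_lit 7, nat_lit 226, nat_lit 20, nat_lit 6]⟩, ⟨p082_k9, nat_lit 0, nat_lit 0, nat_lit 717, nat_lit 0, nat_lit 1061197, [nat_lit 1570480000, nat_lit 2669280000, nat_lit 3977120000], [], [nat_lit 11218035342, nat_lit 11261457664, nat_lit 11466735080, nat_lit 11513453500, nat_lit 9636171926, nat_lit 9643921286, nat_lit 9783197566, nat_lit 9791531410], nat_lit 1271250, nat_lit 1271250, nat_lit 1271250, nat_lit 1271250, nat_lit 0, nat_lit 1836250, [nat_lit 1100000, nat_lit 1785000, nat_lit 1271250],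 [nat_lit 21, nat_lit 40, nat_lit 40, nat_lit 80, nat_lit 14, nat_lit 373, nat_lit 150, nat_lit 9]⟩,
 ⟨nat_lit 3708, nat_lit 3873, ⟨.ofNat (nat_lit 758943), .ofNat (nat_lit 823465), .ofNat (nat_lit 780735), .ofNat (nat_lit 845257), .ofNat (nat_lit 756541), .ofNat (nat_lit 820187), .ofNat (nat_lit 778408), .ofNat (nat_lit 842055)⟩, ⟨.ofNat (nat_lit 0), .ofNat (nat_lit 132088), .ofNat (nat_lit 0), .ofNat (nat_lit 153881), .ofNat (nat_lit 0), .ofNat (nat_lit 134114), .ofNat (nat_lit 0), .ofNat (nat_lit 155983)⟩⟩, [⟨nat_lit 10, nat_lit 100, nat_lit 58, nat_lit 64, nat_lit 16644689⟩, ⟨nat_lit 22, nat_lit 72, nat_lit 100, nat_lit 61, nat_lit 40501725⟩]⟩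
noncomputable def p082_l63 : Lf2 := ⟨nat_lit 0, nat_lit 15, [nat_lit 30, nat_lit 5, nat_lit 5, nat_lit 20], false, nat_lit 0, nat_lit 80, nat_lit 0, nat_lit 260, ⟨nat_lit 184, nat_lit 816, nat_lit 0, nat_lit 8, nat_lit 319, nat_lit 816, nat_lit 29, nat_lit 0, nat_lit 0, nat_lit 0, nat_lit 0, nat_lit 0, nat_lit 40937515, nat_lit 26062485, nat_lit 0, nat_lit 3341475, true, true⟩,
 nat_lit 0, nat_lit 0, nat_lit 2351, nat_lit 0, nat_lit 3371, nat_lit 1368, nat_lit 94, nat_lit 0, nat_lit 0, nat_lit 284, nat_lit 0, nat_lit 0, nat_lit 0, nat_lit 0, nat_lit 0, nat_lit 326400, nat_lit 0, nat_lit 0, [(nat_lit 22, [(nat_lit 1, nat_lit 816)])],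
 ⟨p082_k21, nat_lit 0, nat_lit 0, nat_lit 164, nat_lit 0, nat_lit 0, [nat_lit 1482342401, nat_lit 2092140801, nat_lit 2353436800], [], [nat_lit 27734561585, nat_lit 27960715549, nat_lit 29440690016, nat_lit 29646223323, nat_lit 26562439872, nat_lit 26776445874, nat_lit 28179939018, nat_lit 28375035246], nat_lit 0, nat_lit 0, nat_lit 0, nat_lit 0, nat_lit 0, nat_lit 0, [], [nat_lit 6, nat_lit 40, nat_lit 40, nat_lit 80, nat_lit 3, nat_lit 226, nat_lit 20, nat_lit 7]⟩, ⟨p082_k9, nat_lit 0, nat_lit 0, nat_lit 747, nat_lit 0, nat_lit 1142953, [nat_lit 862592000, nat_lit 1466112000, nat_lit 2184448000], [], [nat_lit 6187993552, nat_lit 6211495104, nat_lit 6335965056, nat_lit 6361274464, nat_lit 5305321088, nat_lit 5309104416, nat_lit 5387506428, nat_lit 5392800184], nat_lit 1271250, nat_lit 1271250, nat_lit 1271250, nat_lit 1271250, nat_lit 0, nat_lit 1836250, [nat_lit 1100000, nat_lit 1785000, nat_lit 1271250], [nat_lit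 21, nat_lit 40, nat_lit 40, nat_lit 80, nat_lit 14, nat_lit 373, nat_lit 150, nat_lit 9]⟩,
 ⟨nat_lit 3535, nat_lit 3709, ⟨.ofNat (nat_lit 756541), .ofNat (nat_lit 820187), .ofNat (nat_lit 778408), .ofNat (nat_lit 842055), .ofNat (nat_lit 754141), .ofNat (nat_lit 816902), .ofNat (nat_lit 776092), .ofNat (nat_lit 838855)⟩, ⟨.ofNat (nat_lit 0), .ofNat (nat_lit 134114), .ofNat (nat_lit 0), .ofNat (nat_lit 155983), .ofNat (nat_lit 0), .ofNat (nat_lit 136093), .ofNat (nat_lit 0), .ofNat (nat_lit 158046)⟩⟩, [⟨nat_lit 10, nat_lit 100, nat_lit 58, nat_lit 64, nat_lit 34495186⟩]⟩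
noncomputable def p082_l64 : Lf2 := ⟨nat_lit 0, nat_lit 15, [nat_lit 30, nat_lit 5, nat_lit 5, nat_lit 20], false, nat_lit 0, nat_lit 80, nat_lit 0, nat_lit 260, ⟨nat_lit 115, nat_lit 885, nat_lit 0, nat_lit 8, nat_lit 315, nat_lit 885, nat_lit 30, nat_lit 0, nat_lit 0, nat_lit 0, nat_lit 0, nat_lit 0, nat_lit 41326941, nat_lit 25673059, nat_lit 0, nat_lit 3327996, true, true⟩,
 nat_lit 0, nat_lit 0, nat_lit 1393, nat_lit 0, nat_lit 3173, nat_lit 810, nat_lit 0, nat_lit 0, nat_lit 0, nat_lit 169, nat_lit 0, nat_lit 0, nat_lit 0, nat_lit 0, nat_lit 0, nat_lit 335700, nat_lit 0, nat_lit 0, [(nat_lit 22, [(nat_lit 0, nat_lit 122), (nat_lit 1, nat_lit 763)])],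
 ⟨p082_k22, nat_lit 0, nat_lit 0, nat_lit 158, nat_lit 0, nat_lit 0, [nat_lit 1461435201, nat_lit 1681136267, nat_lit 2143783733], [], [nat_lit 28058795748, nat_lit 28523700925, nat_lit 29791682464, nat_lit 30214342977, nat_lit 27003750537, nat_lit 27443772885, nat_lit 28647743808, nat_lit 29049067449], nat_lit 0, nat_lit 0, nat_lit 0, nat_lit 0, nat_lit 0, nat_lit 0, [], [nat_lit 85, nat_lit 40, nat_lit 40, nat_lit 80, nat_lit 16, nat_lit 226, nat_lit 20, nat_lit 7]⟩, ⟨p082_k29, nat_lit 0, nat_lit 0, nat_lit 806, nat_lit 0, nat_lit 1239328, [nat_lit 539120000, nat_lit 718750000, nat_lit 1365280000], [], [nat_lit 3936795190, nat_lit 3948416610, nat_lit 4035929780, nat_lit 4045100755, nat_lit 3517513840, nat_lit 3522295593, nat_lit 3580520183, nat_lit 3583496852], nat_lit 1271250, nat_lit 1271250, nat_lit 1271250, nat_lit 1271250, nat_lit 0, nat_lit 1836250, [nat_lit 1100000, nat_lit 1442500, nat_lit 1271250], [nat_lit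 48, nat_lit 40, nat_lit 40, nat_lit 80, nat_lit 12, nat_lit 373, nat_lit 150, nat_lit 9]⟩,
 ⟨nat_lit 3162, nat_lit 3536, ⟨.ofNat (nat_lit 754141), .ofNat (nat_lit 816902), .ofNat (nat_lit 765117), .ofNat (nat_lit 827878), .ofNat (nat_lit 749323), .ofNat (nat_lit 810277), .ofNat (nat_lit 760401), .ofNat (nat_lit 821354)⟩, ⟨.ofNat (nat_lit 0), .ofNat (nat_lit 136093), .ofNat (nat_lit 0), .ofNat (nat_lit 158046), .ofNat (nat_lit 0), .ofNat (nat_lit 139899), .ofNat (nat_lit 0), .ofNat (nat_lit 162054)⟩⟩, [⟨nat_lit 10, nat_lit 100, nat_lit 58, nat_lit 64, nat_lit 12462105⟩, ⟨nat_lit 22, nat_lit 76, nat_lit 100, nat_lit 43, nat_lit 18709782⟩]⟩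
noncomputable def p082_l65 : Lf2 := ⟨nat_lit 0, nat_lit 15, [nat_lit 30, nat_lit 5, nat_lit 5, nat_lit 20], false, nat_lit 0, nat_lit 80, nat_lit 0, nat_lit 260, ⟨nat_lit 276, nat_lit 724, nat_lit 0, nat_lit 8, nat_lit 320, nat_lit 724, nat_lit 30, nat_lit 0, nat_lit 0, nat_lit 0, nat_lit 0, nat_lit 0, nat_lit 40885523, nat_lit 26114477, nat_lit 0, nat_lit 3343220, true, true⟩,
 nat_lit 0, nat_lit 0, nat_lit 3323, nat_lit 0, nat_lit 3032, nat_lit 2023, nat_lit 333, nat_lit 0, nat_lit 0, nat_lit 304, nat_lit 0, nat_lit 0, nat_lit 0, nat_lit 0, nat_lit 0, nat_lit 268150, nat_lit 0, nat_lit 0, [(nat_lit 22, [(nat_lit 0, nat_lit 143), (nat_lit 1, nat_lit 581)])],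
 ⟨p082_k16, nat_lit 0, nat_lit 0, nat_lit 167, nat_lit 0, nat_lit 0, [nat_lit 1574286400, nat_lit 2451163200, nat_lit 2915163200], [], [nat_lit 26759819799, nat_lit 27195076367, nat_lit 28755531928, nat_lit 29326574304, nat_lit 25809265199, nat_lit 26221641167, nat_lit 27353434223, nat_lit 27730698575], nat_lit 0, nat_lit 0, nat_lit 0, nat_lit 0, nat_lit 0, nat_lit 0, [], [nat_lit 6, nat_lit 40, nat_lit 40, nat_lit 80, nat_lit 3, nat_lit 226, nat_lit 20, nat_lit 7]⟩, ⟨p082_k30, nat_lit 0, nat_lit 0, nat_lit 798, nat_lit 0, nat_lit 1228089, [nat_lit 1293888000, nat_lit 2199168000, nat_lit 3276672000], [], [nat_lit 9222043524, nat_lit 9239828004, nat_lit 9410709182, nat_lit 9435465784, nat_lit 7995543292, nat_lit 7998860563, nat_lit 8118876445, nat_lit 8123378397], nat_lit 1271250, nat_lit 1271250, nat_lit 1271250, nat_lit 1271250, nat_lit 0, nat_lit 1836250, [nat_lit 1100000, nat_lit 1785000, nat_lit 1271250], [nat_lit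 21, nat_lit 40, nat_lit 40, nat_lit 80, nat_lit 14, nat_lit 373, nat_lit 150, nat_lit 9]⟩,
 ⟨nat_lit 3162, nat_lit 3536, ⟨.ofNat (nat_lit 765117), .ofNat (nat_lit 827878), .ofNat (nat_lit 776092), .ofNat (nat_lit 838855), .ofNat (nat_lit 760401), .ofNat (nat_lit 821354), .ofNat (nat_lit 771477), .ofNat (nat_lit 832432)⟩, ⟨.ofNat (nat_lit 0), .ofNat (nat_lit 136093), .ofNat (nat_lit 0), .ofNat (nat_lit 158046), .ofNat (nat_lit 0), .ofNat (nat_lit 139899), .ofNat (nat_lit 0), .ofNat (nat_lit 162054)⟩⟩, [⟨nat_lit 10, nat_lit 100, nat_lit 58, nat_lit 64, nat_lit 59841903⟩]⟩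
noncomputable def p082_l66 : Lf2 := ⟨nat_lit 0, nat_lit 15, [nat_lit 30, nat_lit 5, nat_lit 5, nat_lit 20], false, nat_lit 0, nat_lit 80, nat_lit 0, nat_lit 200, ⟨nat_lit 360, nat_lit 640, nat_lit 0, nat_lit 9, nat_lit 338, nat_lit 640, nat_lit 29, nat_lit 0, nat_lit 0, nat_lit 0, nat_lit 0, nat_lit 0, nat_lit 39099146, nat_lit 27900854, nat_lit 0, nat_lit 3395568, true, true⟩,
 nat_lit 0, nat_lit 0, nat_lit 4354, nat_lit 0, nat_lit 3198, nat_lit 2534, nat_lit 0, nat_lit 0, nat_lit 0, nat_lit 597, nat_lit 0, nat_lit 0, nat_lit 0, nat_lit 0, nat_lit 0, nat_lit 628000, nat_lit 0, nat_lit 0, [(nat_lit 22, [(nat_lit 1, nat_lit 20), (nat_lit 2, nat_lit 620)])],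
 ⟨p082_k15, nat_lit 0, nat_lit 0, nat_lit 190, nat_lit 0, nat_lit 0, [nat_lit 1623381334, nat_lit 1715304000, nat_lit 504749334], [], [nat_lit 29004152552, nat_lit 29383149654, nat_lit 30190344543, nat_lit 30731312468, nat_lit 27850121460, nat_lit 28210529088, nat_lit 28820146068, nat_lit 29186470012], nat_lit 0, nat_lit 0, nat_lit 0, nat_lit 0, nat_lit 0, nat_lit 0, [], [nat_lit 34, nat_lit 40, nat_lit 40, nat_lit 80, nat_lit 7, nat_lit 226, nat_lit 20, nat_lit 6]⟩, ⟨p082_k9, nat_lit 0, nat_lit 0, nat_lit 714, nat_lit 0, nat_lit 1065837, [nat_lit 1687680000, nat_lit 2868480000, nat_lit 4273920000], [], [nat_lit 12759950624, nat_lit 12777923376, nat_lit 12948528577, nat_lit 12962168517, nat_lit 11161782380, nat_lit 11168471716, nat_lit 11304723731, nat_lit 11307888800], nat_lit 1271250, nat_lit 1271250, nat_lit 1271250, nat_lit 1271250, nat_lit 0, nat_lit 1412500, [nat_lit 1100000, nat_lit 1785000, nat_lit 1271250],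 [nat_lit 21, nat_lit 40, nat_lit 40, nat_lit 80, nat_lit 14, nat_lit 345, nat_lit 125, nat_lit 8]⟩,
 ⟨nat_lit 3535, nat_lit 3873, ⟨.ofNat (nat_lit 823465), .ofNat (nat_lit 862178), .ofNat (nat_lit 834361), .ofNat (nat_lit 873074), .ofNat (nat_lit 816902), .ofNat (nat_lit 854559), .ofNat (nat_lit 827878), .ofNat (nat_lit 865535)⟩, ⟨.ofNat (nat_lit 0), .ofNat (nat_lit 132088), .ofNat (nat_lit 0), .ofNat (nat_lit 153881), .ofNat (nat_lit 0), .ofNat (nat_lit 136093), .ofNat (nat_lit 0), .ofNat (nat_lit 158046)⟩⟩, [⟨nat_lit 13, nat_lit 73, nat_lit 49, nat_lit 100, nat_lit 43375126⟩, ⟨nat_lit 22, nat_lit 55, nat_lit 100, nat_lit 65, nat_lit 41406608⟩]⟩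
noncomputable def p082_l67 : Lf2 := ⟨nat_lit 0, nat_lit 15, [nat_lit 30, nat_lit 5, nat_lit 5, nat_lit 20], false, nat_lit 0, nat_lit 80, nat_lit 0, nat_lit 200, ⟨nat_lit 134, nat_lit 866, nat_lit 0, nat_lit 9, nat_lit 334, nat_lit 866, nat_lit 30, nat_lit 0, nat_lit 0, nat_lit 0, nat_lit 0, nat_lit 0, nat_lit 39493021, nat_lit 27506979, nat_lit 0, nat_lit 3385293, true, true⟩,
 nat_lit 0, nat_lit 0, nat_lit 1757, nat_lit 0, nat_lit 2896, nat_lit 1022, nat_lit 159, nat_lit 0, nat_lit 0, nat_lit 165, nat_lit 0, nat_lit 0, nat_lit 0, nat_lit 0, nat_lit 0, nat_lit 346400, nat_lit 0, nat_lit 0, [(nat_lit 22, [(nat_lit 1, nat_lit 866)])],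
 ⟨p082_k16, nat_lit 0, nat_lit 0, nat_lit 174, nat_lit 0, nat_lit 0, [nat_lit 1448662400, nat_lit 1933080801, nat_lit 2114676800], [], [nat_lit 28908762222, nat_lit 29300085462, nat_lit 29763346002, nat_lit 30157919072, nat_lit 27971920470, nat_lit 28351614792, nat_lit 28827756016, nat_lit 29214746552], nat_lit 0, nat_lit 0, nat_lit 0, nat_lit 0, nat_lit 0, nat_lit 0, [], [nat_lit 6, nat_lit 40, nat_lit 40, nat_lit 80, nat_lit 3, nat_lit 226, nat_lit 20, nat_lit 7]⟩, ⟨p082_k9, nat_lit 0, nat_lit 0, nat_lit 801, nat_lit 0, nat_lit 1239328, [nat_lit 628192000, nat_lit 1067712000, nat_lit 1590848000], [], [nat_lit 4850662976, nat_lit 4859515980, nat_lit 4922640996, nat_lit 4933062294, nat_lit 4159327102, nat_lit 4157797133, nat_lit 4208281927, nat_lit 4210763144], nat_lit 1271250, nat_lit 1271250, nat_lit 1271250, nat_lit 1271250, nat_lit 0, nat_lit 1412500, [nat_lit 1100000, nat_lit 1785000, nat_lit 1271250], [nat_lit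 21, nat_lit 40, nat_lit 40, nat_lit 80, nat_lit 14, nat_lit 345, nat_lit 125, nat_lit 8]⟩,
 ⟨nat_lit 3162, nat_lit 3536, ⟨.ofNat (nat_lit 816902), .ofNat (nat_lit 848283), .ofNat (nat_lit 827878), .ofNat (nat_lit 859259), .ofNat (nat_lit 810277), .ofNat (nat_lit 840753), .ofNat (nat_lit 821354), .ofNat (nat_lit 851831)⟩, ⟨.ofNat (nat_lit 0), .ofNat (nat_lit 136093), .ofNat (nat_lit 0), .ofNat (nat_lit 158046), .ofNat (nat_lit 0), .ofNat (nat_lit 139899), .ofNat (nat_lit 0), .ofNat (nat_lit 162054)⟩⟩, [⟨nat_lit 13, nat_lit 67, nat_lit 56, nat_lit 100, nat_lit 225792775⟩, ⟨nat_lit 22, nat_lit 61, nat_lit 100, nat_lit 55, nat_lit 10081200⟩]⟩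
noncomputable def p082_l68 : Lf2 := ⟨nat_lit 0, nat_lit 15, [nat_lit 30, nat_lit 5, nat_lit 5, nat_lit 20], false, nat_lit 0, nat_lit 80, nat_lit 0, nat_lit 200, ⟨nat_lit 575, nat_lit 425, nat_lit 0, nat_lit 9, nat_lit 344, nat_lit 425, nat_lit 29, nat_lit 0, nat_lit 0, nat_lit 0, nat_lit 0, nat_lit 0, nat_lit 38557947, nat_lit 28442053, nat_lit 0, nat_lit 3408526, true, true⟩,
 nat_lit 0, nat_lit 0, nat_lit 6514, nat_lit 0, nat_lit 3530, nat_lit 3967, nat_lit 244, nat_lit 0, nat_lit 0, nat_lit 635, nat_lit 0, nat_lit 0, nat_lit 0, nat_lit 0, nat_lit 0, nat_lit 425000, nat_lit 0, nat_lit 0, [(nat_lit 22, [(nat_lit 2, nat_lit 425)])],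
 ⟨p082_k15, nat_lit 0, nat_lit 0, nat_lit 191, nat_lit 0, nat_lit 0, [nat_lit 1761133334, nat_lit 2693220000, nat_lit 2936680000], [], [nat_lit 29449900580, nat_lit 30058314370, nat_lit 31385119278, nat_lit 31940215629, nat_lit 28060261954, nat_lit 28456963564, nat_lit 29356212827, nat_lit 29746533329], nat_lit 0, nat_lit 0, nat_lit 0, nat_lit 0, nat_lit 0, nat_lit 0, [], [nat_lit 34, nat_lit 40, nat_lit 40, nat_lit 80, nat_lit 7, nat_lit 226, nat_lit 20, nat_lit 6]⟩, ⟨p082_k30, nat_lit 0, nat_lit 0, nat_lit 714, nat_lit 0, nat_lit 1069872, [nat_lit 2695600000, nat_lit 4581600000, nat_lit 6826400000], [], [nat_lit 20625677724, nat_lit 20669818740, nat_lit 21024236168, nat_lit 21061470364, nat_lit 18230328015, nat_lit 18254104662, nat_lit 18599283376, nat_lit 18640713601], nat_lit 1271250, nat_lit 1271250, nat_lit 1271250, nat_lit 1271250, nat_lit 0, nat_lit 1412500, [nat_lit 1100000, nat_lit 1785000, nat_lit 1271250],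 [nat_lit 21, nat_lit 40, nat_lit 40, nat_lit 80, nat_lit 14, nat_lit 345, nat_lit 125, nat_lit 8]⟩,
 ⟨nat_lit 3535, nat_lit 3873, ⟨.ofNat (nat_lit 834361), .ofNat (nat_lit 879526), .ofNat (nat_lit 845257), .ofNat (nat_lit 890423), .ofNat (nat_lit 827878), .ofNat (nat_lit 871811), .ofNat (nat_lit 838854), .ofNat (nat_lit 882788)⟩, ⟨.ofNat (nat_lit 0), .ofNat (nat_lit 132088), .ofNat (nat_lit 0), .ofNat (nat_lit 153881), .ofNat (nat_lit 0), .ofNat (nat_lit 136093), .ofNat (nat_lit 0), .ofNat (nat_lit 158046)⟩⟩, [⟨nat_lit 22, nat_lit 54, nat_lit 100, nat_lit 65, nat_lit 83886077⟩]⟩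
noncomputable def p082_l69 : Lf2 := ⟨nat_lit 0, nat_lit 15, [nat_lit 30, nat_lit 5, nat_lit 5, nat_lit 20], false, nat_lit 0, nat_lit 80, nat_lit 0, nat_lit 200, ⟨nat_lit 269, nat_lit 731, nat_lit 0, nat_lit 9, nat_lit 339, nat_lit 731, nat_lit 30, nat_lit 0, nat_lit 0, nat_lit 0, nat_lit 0, nat_lit 0, nat_lit 38947383, nat_lit 28052617, nat_lit 0, nat_lit 3399337, true, true⟩,
 nat_lit 0, nat_lit 0, nat_lit 3073, nat_lit 0, nat_lit 3073, nat_lit 1871, nat_lit 220, nat_lit 0, nat_lit 0, nat_lit 310, nat_lit 0, nat_lit 0, nat_lit 0, nat_lit 0, nat_lit 0, nat_lit 292400, nat_lit 0, nat_lit 0, [(nat_lit 22, [(nat_lit 1, nat_lit 731)])],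
 ⟨p082_k16, nat_lit 0, nat_lit 0, nat_lit 175, nat_lit 0, nat_lit 0, [nat_lit 1539598401, nat_lit 2362542801, nat_lit 2759328800], [], [nat_lit 29251687925, nat_lit 29650368170, nat_lit 30377374168, nat_lit 30910154893, nat_lit 28190258174, nat_lit 28569086102, nat_lit 29184388637, nat_lit 29542055499], nat_lit 0, nat_lit 0, nat_lit 0, nat_lit 0, nat_lit 0, nat_lit 0, [], [nat_lit 6, nat_lit 40, nat_lit 40, nat_lit 80, nat_lit 3, nat_lit 226, nat_lit 20, nat_lit 7]⟩, ⟨p082_k30, nat_lit 0, nat_lit 0, nat_lit 786, nat_lit 0, nat_lit 1228089, [nat_lit 1261072000, nat_lit 2143392000, nat_lit 3193568000], [], [nat_lit 9620126013, nat_lit 9633870384, nat_lit 9752551386, nat_lit 9763231539, nat_lit 8511663855, nat_lit 8517826060, nat_lit 8624911316, nat_lit 8632775044], nat_lit 1271250, nat_lit 1271250, nat_lit 1271250, nat_lit 1271250, nat_lit 0, nat_lit 1412500, [nat_lit 1100000, nat_lit 1785000, nat_lit 1271250], [nat_lit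 21, nat_lit 40, nat_lit 40, nat_lit 80, nat_lit 14, nat_lit 345, nat_lit 125, nat_lit 8]⟩,
 ⟨nat_lit 3162, nat_lit 3536, ⟨.ofNat (nat_lit 827878), .ofNat (nat_lit 865535), .ofNat (nat_lit 838855), .ofNat (nat_lit 876512), .ofNat (nat_lit 821354), .ofNat (nat_lit 857926), .ofNat (nat_lit 832432), .ofNat (nat_lit 869004)⟩, ⟨.ofNat (nat_lit 0), .ofNat (nat_lit 136093), .ofNat (nat_lit 0), .ofNat (nat_lit 158046), .ofNat (nat_lit 0), .ofNat (nat_lit 139899), .ofNat (nat_lit 0), .ofNat (nat_lit 162054)⟩⟩, [⟨nat_lit 13, nat_lit 68, nat_lit 52, nat_lit 100, nat_lit 110783225⟩, ⟨nat_lit 22, nat_lit 55, nat_lit 100, nat_lit 65, nat_lit 38400186⟩]⟩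
noncomputable def p082_l70 : Lf2 := ⟨nat_lit 0, nat_lit 20, [nat_lit 5, nat_lit 5, nat_lit 5, nat_lit 20], false, nat_lit 0, nat_lit 80, nat_lit 0, nat_lit 260, ⟨nat_lit 442, nat_lit 558, nat_lit 0, nat_lit 8, nat_lit 324, nat_lit 558, nat_lit 34, nat_lit 0, nat_lit 0, nat_lit 0, nat_lit 0, nat_lit 0, nat_lit 40463836, nat_lit 26536164, nat_lit 0, nat_lit 3356912, true, true⟩,
 nat_lit 0, nat_lit 0, nat_lit 5294, nat_lit 0, nat_lit 3296, nat_lit 3081, nat_lit 120, nat_lit 0, nat_lit 0, nat_lit 603, nat_lit 0, nat_lit 0, nat_lit 0, nat_lit 0, nat_lit 0, nat_lit 558000, nat_lit 0, nat_lit 0, [(nat_lit 22, [(nat_lit 2, nat_lit 558)])],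
 ⟨p082_k31, nat_lit 0, nat_lit 0, nat_lit 186, nat_lit 0, nat_lit 0, [nat_lit 1634108800, nat_lit 2176936801, nat_lit 1433175600], [], [nat_lit 27391991649, nat_lit 28274387521, nat_lit 30461413405, nat_lit 31556186784, nat_lit 26242788673, nat_lit 27078782689, nat_lit 28868828584, nat_lit 29621985528], nat_lit 0, nat_lit 0, nat_lit 0, nat_lit 0, nat_lit 0, nat_lit 0, [], [nat_lit 161, nat_lit 40, nat_lit 40, nat_lit 80, nat_lit 43, nat_lit 226, nat_lit 20, nat_lit 6]⟩, ⟨p082_k32, nat_lit 0, nat_lit 0, nat_lit 678, nat_lit 0, nat_lit 966038, [nat_lit 2072096000, nat_lit 2762500000, nat_lit 5247424000], [], [nat_lit 15243841190, nat_lit 15337167540, nat_lit 16461622748, nat_lit 16529733442, nat_lit 13428808555, nat_lit 13463647720, nat_lit 13994390376, nat_lit 14026645792], nat_lit 1271250, nat_lit 1271250, nat_lit 1271250, nat_lit 1271250, nat_lit 0, nat_lit 1836250, [nat_lit 1100000, nat_lit 1442500, nat_lit 1271250],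 [nat_lit 48, nat_lit 40, nat_lit 40, nat_lit 80, nat_lit 12, nat_lit 373, nat_lit 150, nat_lit 9]⟩,
 ⟨nat_lit 3162, nat_lit 3873, ⟨.ofNat (nat_lit 758943), .ofNat (nat_lit 862178), .ofNat (nat_lit 769831), .ofNat (nat_lit 873074), .ofNat (nat_lit 749323), .ofNat (nat_lit 846849), .ofNat (nat_lit 760392), .ofNat (nat_lit 857926)⟩, ⟨.ofNat (nat_lit 0), .ofNat (nat_lit 153881), .ofNat (nat_lit 0), .ofNat (nat_lit 175674), .ofNat (nat_lit 0), .ofNat (nat_lit 162054), .ofNat (nat_lit 0), .ofNat (nat_lit 184209)⟩⟩, [⟨nat_lit 22, nat_lit 67, nat_lit 100, nat_lit 61, nat_lit 67228012⟩]⟩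
noncomputable def p082_l71 : Lf2 := ⟨nat_lit 0, nat_lit 20, [nat_lit 5, nat_lit 5, nat_lit 5, nat_lit 20], false, nat_lit 0, nat_lit 80, nat_lit 0, nat_lit 260, ⟨nat_lit 686, nat_lit 314, nat_lit 0, nat_lit 8, nat_lit 330, nat_lit 314, nat_lit 34, nat_lit 0, nat_lit 0, nat_lit 0, nat_lit 0, nat_lit 0, nat_lit 39907880, nat_lit 27092120, nat_lit 0, nat_lit 3373699, true, true⟩,
 nat_lit 0, nat_lit 0, nat_lit 7557, nat_lit 0, nat_lit 3703, nat_lit 4602, nat_lit 570, nat_lit 0, nat_lit 0, nat_lit 972, nat_lit 0, nat_lit 0, nat_lit 0, nat_lit 0, nat_lit 0, nat_lit 314000, nat_lit 0, nat_lit 0, [(nat_lit 22, [(nat_lit 2, nat_lit 314)])],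
 ⟨p082_k31, nat_lit 0, nat_lit 0, nat_lit 190, nat_lit 0, nat_lit 0, [nat_lit 1808097067, nat_lit 2660154401, nat_lit 4250742400], [], [nat_lit 27242858704, nat_lit 28646698700, nat_lit 31870126958, nat_lit 33002431379, nat_lit 25353963864, nat_lit 26328685862, nat_lit 28974350045, nat_lit 30068224085], nat_lit 0, nat_lit 0, nat_lit 0, nat_lit 0, nat_lit 0, nat_lit 0, [], [nat_lit 161, nat_lit 40, nat_lit 40, nat_lit 80, nat_lit 43, nat_lit 226, nat_lit 20, nat_lit 6]⟩, ⟨p082_k33, nat_lit 0, nat_lit 0, nat_lit 678, nat_lit 0, nat_lit 973124, [nat_lit 3215968000, nat_lit 4287500000, nat_lit 8144192000], [], [nat_lit 22951844136, nat_lit 23018286748, nat_lit 25099988190, nat_lit 25300192868, nat_lit 20699381897, nat_lit 20759518148, nat_lit 21968571553, nat_lit 22042222726], nat_lit 1271250, nat_lit 1271250, nat_lit 1271250, nat_lit 1271250, nat_lit 0, nat_lit 1836250, [nat_lit 1100000, nat_lit 1442500, nat_lit 1271250],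 [nat_lit 48, nat_lit 40, nat_lit 40, nat_lit 80, nat_lit 12, nat_lit 373, nat_lit 150, nat_lit 9]⟩,
 ⟨nat_lit 3162, nat_lit 3873, ⟨.ofNat (nat_lit 769831), .ofNat (nat_lit 879526), .ofNat (nat_lit 780717), .ofNat (nat_lit 890423), .ofNat (nat_lit 760392), .ofNat (nat_lit 864021), .ofNat (nat_lit 771459), .ofNat (nat_lit 875099)⟩, ⟨.ofNat (nat_lit 0), .ofNat (nat_lit 153881), .ofNat (nat_lit 0), .ofNat (nat_lit 175674), .ofNat (nat_lit 0), .ofNat (nat_lit 162054), .ofNat (nat_lit 0), .ofNat (nat_lit 184209)⟩⟩, [⟨nat_lit 22, nat_lit 66, nat_lit 100, nat_lit 62, nat_lit 133295631⟩]⟩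
noncomputable def b_V_800_600_10_15 : St := ⟨true, nat_lit 0, nat_lit 1, nat_lit 1, nat_lit 80, nat_lit 340, nat_lit 360, nat_lit 240, nat_lit 280, nat_lit 320, nat_lit 396, nat_lit 40, nat_lit 80, nat_lit 0, nat_lit 80, nat_lit 0, nat_lit 260, nat_lit 40, nat_lit 80, nat_lit 0, nat_lit 0, nat_lit 0, nat_lit 0⟩
theorem d_V_800_600_10_15 (h : EB TB.env) : Dead b_V_800_600_10_15 := chkB_sound0 h (T :=
(.trX (nat_lit 13) (nat_lit 78) (nat_lit 39) (nat_lit 100) (nat_lit 388) (.spl (nat_lit 1) (nat_lit 260)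
(.trX (nat_lit 13) (nat_lit 75) (nat_lit 48) (nat_lit 100) (nat_lit 380) (.spl (nat_lit 3) (nat_lit 60)
(.spl (nat_lit 1) (nat_lit 250)
(.trX (nat_lit 13) (nat_lit 74) (nat_lit 52) (nat_lit 100) (nat_lit 376) (.spl (nat_lit 0) (nat_lit 350)
(.spl (nat_lit 0) (nat_lit 345)
(.leaf p082_l48)
(.trX (nat_lit 13) (nat_lit 71) (nat_lit 55) (nat_lit 100) (nat_lit 372) (.leaf p082_l49)))
(.trX (nat_lit 13) (nat_lit 68) (nat_lit 58) (nat_lit 100) (nat_lit 368) (.leaf p082_l50))))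
(.spl (nat_lit 0) (nat_lit 350)
(.spl (nat_lit 0) (nat_lit 345)
(.leaf p082_l51)
(.trX (nat_lit 13) (nat_lit 72) (nat_lit 51) (nat_lit 100) (nat_lit 376) (.leaf p082_l52)))
(.trX (nat_lit 13) (nat_lit 69) (nat_lit 54) (nat_lit 100) (nat_lit 372) (.spl (nat_lit 4) (nat_lit 40)
(.trX (nat_lit 22) (nat_lit 80) (nat_lit 100) (nat_lit 60) (nat_lit 200) (.spl (nat_lit 1) (nat_lit 255)
(.leaf p082_l53)
(.leaf p082_l54)))
(.leaf p082_l55)))))
(.spl (nat_lit 0) (nat_lit 350)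
(.spl (nat_lit 1) (nat_lit 250)
(.trX (nat_lit 13) (nat_lit 74) (nat_lit 52) (nat_lit 100) (nat_lit 376) (.leaf p082_l56))
(.leaf p082_l57))
(.trX (nat_lit 13) (nat_lit 69) (nat_lit 54) (nat_lit 100) (nat_lit 372) (.spl (nat_lit 1) (nat_lit 250)
(.trX (nat_lit 13) (nat_lit 68) (nat_lit 58) (nat_lit 100) (nat_lit 368) (.spl (nat_lit 1) (nat_lit 245)
(.trX (nat_lit 13) (nat_lit 68) (nat_lit 60) (nat_lit 100) (nat_lit 364) (.leaf p082_l58))
(.leaf p082_l59)))
(.spl (nat_lit 1) (nat_lit 255)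
(.leaf p082_l60)
(.leaf p082_l61)))))))
(.spl (nat_lit 3) (nat_lit 60)
(.spl (nat_lit 2) (nat_lit 360)
(.spl (nat_lit 0) (nat_lit 350)
(.spl (nat_lit 0) (nat_lit 345)
(.leaf p082_l62)
(.leaf p082_l63))
(.spl (nat_lit 1) (nat_lit 270)
(.leaf p082_l64)
(.leaf p082_l65)))
(.trX (nat_lit 22) (nat_lit 60) (nat_lit 100) (nat_lit 80) (nat_lit 200) (.spl (nat_lit 1) (nat_lit 270)
(.trX (nat_lit 13) (nat_lit 76) (nat_lit 43) (nat_lit 100) (nat_lit 384) (.spl (nat_lit 0) (nat_lit 350)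
(.leaf p082_l66)
(.trX (nat_lit 13) (nat_lit 71) (nat_lit 50) (nat_lit 100) (nat_lit 380) (.leaf p082_l67))))
(.spl (nat_lit 0) (nat_lit 350)
(.leaf p082_l68)
(.trX (nat_lit 13) (nat_lit 72) (nat_lit 46) (nat_lit 100) (nat_lit 384) (.leaf p082_l69))))))
(.spl (nat_lit 1) (nat_lit 270)
(.trX (nat_lit 13) (nat_lit 76) (nat_lit 43) (nat_lit 100) (nat_lit 384) (.leaf p082_l70))
(.leaf p082_l71)))))) (by decide +kernel)
noncomputable def p082_l72 : Lf2 := ⟨nat_lit 0, nat_lit 15, [nat_lit 30, nat_lit 5, nat_lit 5, nat_lit 20], false, nat_lit 80, nat_lit 160, nat_lit 0, nat_lit 312, ⟨nat_lit 88, nat_lit 912, nat_lit 0, nat_lit 8, nat_lit 314, nat_lit 912, nat_lit 82, nat_lit 0, nat_lit 0, nat_lit 0, nat_lit 0, nat_lit 0, nat_lit 39376548, nat_lit 24663692, nat_lit 2959760, nat_lit 4289532, true, true⟩,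
 nat_lit 0, nat_lit 0, nat_lit 1472, nat_lit 0, nat_lit 4302, nat_lit 779, nat_lit 264, nat_lit 0, nat_lit 0, nat_lit 58, nat_lit 0, nat_lit 0, nat_lit 0, nat_lit 0, nat_lit 0, nat_lit 228000, nat_lit 0, nat_lit 0, [(nat_lit 19, [(nat_lit 0, nat_lit 912)])],
 ⟨p082_k8, nat_lit 0, nat_lit 0, nat_lit 125, nat_lit 0, nat_lit 0, [nat_lit 1585484801, nat_lit 2410188800, nat_lit 3347443200], [], [nat_lit 24834739056, nat_lit 25916399168, nat_lit 26998059280, nat_lit 27971372400, nat_lit 24869516376, nat_lit 25849937060, nat_lit 26830357744, nat_lit 27712113588], nat_lit 0, nat_lit 0, nat_lit 0, nat_lit 0, nat_lit 0, nat_lit 0, [], [nat_lit 34, nat_lit 40, nat_lit 40, nat_lit 80, nat_lit 7, nat_lit 249, nat_lit 40, nat_lit 7]⟩, ⟨p082_k12, nat_lit 0, nat_lit 0, nat_lit 679, nat_lit 0, nat_lit 948787, [nat_lit 412544000, nat_lit 701184000, nat_lit 1044736000], [], [nat_lit 3512757616, nat_lit 3521232374, nat_lit 3622731596,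 nat_lit 3650741214, nat_lit 2898456471, nat_lit 2901868362, nat_lit 2965509730, nat_lit 2973619557], nat_lit 1271250, nat_lit 1271250, nat_lit 1271250, nat_lit 1271250, nat_lit 0, nat_lit 2203500, [nat_lit 1100000, nat_lit 1785000, nat_lit 1271250], [nat_lit 21, nat_lit 40, nat_lit 40, nat_lit 80, nat_lit 14, nat_lit 373, nat_lit 150, nat_lit 9]⟩,
 ⟨nat_lit 3872, nat_lit 4473, ⟨.ofNat (nat_lit 747053), .ofNat (nat_lit 815035), .ofNat (nat_lit 768604), .ofNat (nat_lit 836589), .ofNat (nat_lit 737137), .ofNat (nat_lit 801662), .ofNat (nat_lit 758915), .ofNat (nat_lit 823443)⟩, ⟨.ofNat (nat_lit 123532), .ofNat (nat_lit 259489), .ofNat (nat_lit 145099), .ofNat (nat_lit 281055), .ofNat (nat_lit 132088), .ofNat (nat_lit 261131), .ofNat (nat_lit 153881), .ofNat (nat_lit 282924)⟩⟩, [⟨nat_lit 22, nat_lit 77, nat_lit 100, nat_lit 99, nat_lit 6988562⟩]⟩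
noncomputable def p082_l73 : Lf2 := ⟨nat_lit 0, nat_lit 15, [nat_lit 30, nat_lit 5, nat_lit 5, nat_lit 20], false, nat_lit 80, nat_lit 160, nat_lit 0, nat_lit 296, ⟨nat_lit 122, nat_lit 878, nat_lit 0, nat_lit 8, nat_lit 323, nat_lit 878, nat_lit 82, nat_lit 0, nat_lit 0, nat_lit 0, nat_lit 0, nat_lit 0, nat_lit 38597341, nat_lit 25481665, nat_lit 2920994, nat_lit 4308086, true, true⟩,
 nat_lit 0, nat_lit 0, nat_lit 1677, nat_lit 0, nat_lit 4350, nat_lit 976, nat_lit 279, nat_lit 0, nat_lit 0, nat_lit 108, nat_lit 0, nat_lit 0, nat_lit 0, nat_lit 0, nat_lit 0, nat_lit 219500, nat_lit 0, nat_lit 0, [(nat_lit 19, [(nat_lit 0, nat_lit 878)])],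
 ⟨p082_k8, nat_lit 0, nat_lit 0, nat_lit 125, nat_lit 0, nat_lit 0, [nat_lit 1602131201, nat_lit 2495107200, nat_lit 3519700800], [], [nat_lit 24894131475, nat_lit 25981199075, nat_lit 27068266675, nat_lit 28043046000, nat_lit 24911804475, nat_lit 25896835175, nat_lit 26881865875, nat_lit 27767395575], nat_lit 0, nat_lit 0, nat_lit 0, nat_lit 0, nat_lit 0, nat_lit 0, [], [nat_lit 34, nat_lit 40, nat_lit 40, nat_lit 80, nat_lit 7, nat_lit 249, nat_lit 40, nat_lit 7]⟩, ⟨p082_k9, nat_lit 0, nat_lit 0, nat_lit 687, nat_lit 0, nat_lit 981504, [nat_lit 571936000, nat_lit 972096000, nat_lit 1448384000], [], [nat_lit 4322454028, nat_lit 4361850512, nat_lit 4485117360, nat_lit 4548888108, nat_lit 3737829565, nat_lit 3751889553, nat_lit 3831926432, nat_lit 3840383375], nat_lit 1271250, nat_lit 1271250, nat_lit 1271250, nat_lit 1271250, nat_lit 0, nat_lit 2090500, [nat_lit 1100000, nat_lit 1785000, nat_lit 1271250], [nat_lit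 21, nat_lit 40, nat_lit 40, nat_lit 80, nat_lit 14, nat_lit 373, nat_lit 150, nat_lit 9]⟩,
 ⟨nat_lit 3872, nat_lit 4473, ⟨.ofNat (nat_lit 768604), .ofNat (nat_lit 836589), .ofNat (nat_lit 790153), .ofNat (nat_lit 858139), .ofNat (nat_lit 758915), .ofNat (nat_lit 823443), .ofNat (nat_lit 780691), .ofNat (nat_lit 845220)⟩, ⟨.ofNat (nat_lit 123532), .ofNat (nat_lit 259489), .ofNat (nat_lit 145099), .ofNat (nat_lit 281055), .ofNat (nat_lit 132088), .ofNat (nat_lit 261131), .ofNat (nat_lit 153881), .ofNat (nat_lit 282924)⟩⟩, [⟨nat_lit 7, nat_lit 100, nat_lit 100, nat_lit 71, nat_lit 13853758⟩]⟩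
noncomputable def p082_l74 : Lf2 := ⟨nat_lit 0, nat_lit 20, [nat_lit 5, nat_lit 5, nat_lit 5, nat_lit 20], false, nat_lit 80, nat_lit 160, nat_lit 0, nat_lit 336, ⟨nat_lit 230, nat_lit 770, nat_lit 0, nat_lit 8, nat_lit 314, nat_lit 770, nat_lit 91, nat_lit 0, nat_lit 0, nat_lit 0, nat_lit 0, nat_lit 0, nat_lit 39057655, nat_lit 24512380, nat_lit 3429965, nat_lit 4391736, true, true⟩,
 nat_lit 0, nat_lit 0, nat_lit 3648, nat_lit 0, nat_lit 4185, nat_lit 1931, nat_lit 333, nat_lit 0, nat_lit 0, nat_lit 183, nat_lit 0, nat_lit 0, nat_lit 0, nat_lit 0, nat_lit 0, nat_lit 308000, nat_lit 0, nat_lit 0, [(nat_lit 19, [(nat_lit 1, nat_lit 770)])],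
 ⟨p082_k0, nat_lit 0, nat_lit 0, nat_lit 147, nat_lit 0, nat_lit 0, [nat_lit 1543922667, nat_lit 2647192001, nat_lit 3674300000], [], [nat_lit 25006960125, nat_lit 25989625645, nat_lit 26972291165, nat_lit 27855590595, nat_lit 24954358525, nat_lit 25847313385, nat_lit 26740268245, nat_lit 27545253065], nat_lit 0, nat_lit 0, nat_lit 0, nat_lit 0, nat_lit 0, nat_lit 0, [], [nat_lit 27, nat_lit 40, nat_lit 40, nat_lit 80, nat_lit 13, nat_lit 249, nat_lit 40, nat_lit 6]⟩, ⟨p082_k6, nat_lit 0, nat_lit 0, nat_lit 595, nat_lit 0, nat_lit 639959, [nat_lit 1078240000, nat_lit 1832640000, nat_lit 3233340000], [], [nat_lit 9043322248, nat_lit 9110307828, nat_lit 9374367964, nat_lit 9425904738, nat_lit 7771786323, nat_lit 7813501627, nat_lit 8019522084, nat_lit 8049219193], nat_lit 1271250, nat_lit 1271250, nat_lit 1271250, nat_lit 1271250, nat_lit 0, nat_lit 2373000, [nat_lit 1100000, nat_lit 1785000, nat_lit 1271250], [nat_lit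 37, nat_lit 40, nat_lit 40, nat_lit 80, nat_lit 28, nat_lit 483, nat_lit 250, nat_lit 11]⟩,
 ⟨nat_lit 3872, nat_lit 4473, ⟨.ofNat (nat_lit 747053), .ofNat (nat_lit 815035), .ofNat (nat_lit 768604), .ofNat (nat_lit 836589), .ofNat (nat_lit 737137), .ofNat (nat_lit 801662), .ofNat (nat_lit 758915), .ofNat (nat_lit 823443)⟩, ⟨.ofNat (nat_lit 145099), .ofNat (nat_lit 281055), .ofNat (nat_lit 166665), .ofNat (nat_lit 302621), .ofNat (nat_lit 153881), .ofNat (nat_lit 282924), .ofNat (nat_lit 175674), .ofNat (nat_lit 304717)⟩⟩, [⟨nat_lit 22, nat_lit 77, nat_lit 100, nat_lit 99, nat_lit 30297138⟩]⟩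
noncomputable def p082_l75 : Lf2 := ⟨nat_lit 0, nat_lit 20, [nat_lit 5, nat_lit 5, nat_lit 5, nat_lit 20], false, nat_lit 80, nat_lit 160, nat_lit 0, nat_lit 320, ⟨nat_lit 490, nat_lit 510, nat_lit 0, nat_lit 8, nat_lit 323, nat_lit 510, nat_lit 91, nat_lit 0, nat_lit 0, nat_lit 0, nat_lit 0, nat_lit 0, nat_lit 38291602, nat_lit 25323492, nat_lit 3384906, nat_lit 4409245, true, true⟩,
 nat_lit 0, nat_lit 0, nat_lit 5956, nat_lit 0, nat_lit 4729, nat_lit 3466, nat_lit 468, nat_lit 0, nat_lit 0, nat_lit 706, nat_lit 0, nat_lit 0, nat_lit 0, nat_lit 0, nat_lit 0, nat_lit 204000, nat_lit 0, nat_lit 0, [(nat_lit 19, [(nat_lit 1, nat_lit 510)])],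
 ⟨p082_k0, nat_lit 0, nat_lit 0, nat_lit 147, nat_lit 0, nat_lit 0, [nat_lit 1708728001, nat_lit 3336296000, nat_lit 5756900000], [], [nat_lit 25645706800, nat_lit 26681353568, nat_lit 27717000336, nat_lit 28643535798, nat_lit 25388474160, nat_lit 26326339484, nat_lit 27264204808, nat_lit 28109762242], nat_lit 0, nat_lit 0, nat_lit 0, nat_lit 0, nat_lit 0, nat_lit 0, [], [nat_lit 27, nat_lit 40, nat_lit 40, nat_lit 80, nat_lit 13, nat_lit 249, nat_lit 40, nat_lit 6]⟩, ⟨p082_k10, nat_lit 0, nat_lit 0, nat_lit 560, nat_lit 0, nat_lit 714698, [nat_lit 2297120000, nat_lit 3904320000, nat_lit 5817280000], [], [nat_lit 16582084252, nat_lit 16744158664, nat_lit 17191919628, nat_lit 17325020352, nat_lit 15111141196, nat_lit 15170660592, nat_lit 15460731772, nat_lit 15548987280], nat_lit 1271250, nat_lit 1271250, nat_lit 1271250, nat_lit 1271250, nat_lit 0, nat_lit 2260000, [nat_lit 1100000, nat_lit 1785000, nat_lit 1271250],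 [nat_lit 21, nat_lit 40, nat_lit 40, nat_lit 80, nat_lit 14, nat_lit 373, nat_lit 150, nat_lit 9]⟩,
 ⟨nat_lit 3872, nat_lit 4473, ⟨.ofNat (nat_lit 768604), .ofNat (nat_lit 836589), .ofNat (nat_lit 790153), .ofNat (nat_lit 858139), .ofNat (nat_lit 758915), .ofNat (nat_lit 823443), .ofNat (nat_lit 780691), .ofNat (nat_lit 845220)⟩, ⟨.ofNat (nat_lit 145099), .ofNat (nat_lit 281055), .ofNat (nat_lit 166665), .ofNat (nat_lit 302621), .ofNat (nat_lit 153881), .ofNat (nat_lit 282924), .ofNat (nat_lit 175674), .ofNat (nat_lit 304717)⟩⟩, [⟨nat_lit 7, nat_lit 93, nat_lit 100, nat_lit 81, nat_lit 77971278⟩]⟩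
noncomputable def p082_l76 : Lf2 := ⟨nat_lit 0, nat_lit 20, [nat_lit 5, nat_lit 5, nat_lit 5, nat_lit 20], false, nat_lit 80, nat_lit 160, nat_lit 0, nat_lit 336, ⟨nat_lit 36, nat_lit 964, nat_lit 0, nat_lit 8, nat_lit 304, nat_lit 964, nat_lit 88, nat_lit 0, nat_lit 0, nat_lit 0, nat_lit 0, nat_lit 0, nat_lit 40127574, nat_lit 23518566, nat_lit 3353860, nat_lit 4336407, true, true⟩,
 nat_lit 0, nat_lit 0, nat_lit 625, nat_lit 0, nat_lit 4426, nat_lit 330, nat_lit 131, nat_lit 0, nat_lit 0, nat_lit 33, nat_lit 0, nat_lit 0, nat_lit 0, nat_lit 0, nat_lit 0, nat_lit 241000, nat_lit 0, nat_lit 0, [(nat_lit 22, [(nat_lit 0, nat_lit 964)])],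
 ⟨p082_k7, nat_lit 0, nat_lit 0, nat_lit 125, nat_lit 0, nat_lit 0, [nat_lit 1584704000, nat_lit 2068619200, nat_lit 2901601600], [], [nat_lit 26081756184, nat_lit 27177385640, nat_lit 27120192164, nat_lit 28158628144, nat_lit 25969047780, nat_lit 26961377672, nat_lit 26910965212, nat_lit 27852882644], nat_lit 0, nat_lit 0, nat_lit 0, nat_lit 0, nat_lit 0, nat_lit 0, [], [nat_lit 34, nat_lit 40, nat_lit 40, nat_lit 80, nat_lit 7, nat_lit 249, nat_lit 40, nat_lit 7]⟩, ⟨p082_k6, nat_lit 0, nat_lit 0, nat_lit 927, nat_lit 0, nat_lit 1369644, [nat_lit 168768000, nat_lit 286848000, nat_lit 506088000], [], [nat_lit 1440330456, nat_lit 1441043736, nat_lit 1451499624, nat_lit 1451438850, nat_lit 1191755727, nat_lit 1186659360, nat_lit 1194902705, nat_lit 1189294469], nat_lit 1271250, nat_lit 1271250, nat_lit 1271250, nat_lit 1271250, nat_lit 0, nat_lit 2373000, [nat_lit 1100000, nat_lit 1785000, nat_lit 1271250], [nat_lit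 37, nat_lit 40, nat_lit 40, nat_lit 80, nat_lit 28, nat_lit 483, nat_lit 250, nat_lit 11]⟩,
 ⟨nat_lit 3162, nat_lit 3873, ⟨.ofNat (nat_lit 737150), .ofNat (nat_lit 769411), .ofNat (nat_lit 758943), .ofNat (nat_lit 791204), .ofNat (nat_lit 727168), .ofNat (nat_lit 757645), .ofNat (nat_lit 749323), .ofNat (nat_lit 779800)⟩, ⟨.ofNat (nat_lit 132088), .ofNat (nat_lit 261131), .ofNat (nat_lit 175674), .ofNat (nat_lit 304717), .ofNat (nat_lit 139899), .ofNat (nat_lit 261806), .ofNat (nat_lit 184209), .ofNat (nat_lit 306116)⟩⟩, [⟨nat_lit 22, nat_lit 83, nat_lit 98, nat_lit 100, nat_lit 3437620⟩]⟩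
noncomputable def p082_l77 : Lf2 := ⟨nat_lit 0, nat_lit 15, [nat_lit 30, nat_lit 5, nat_lit 5, nat_lit 20], false, nat_lit 80, nat_lit 160, nat_lit 0, nat_lit 312, ⟨nat_lit 77, nat_lit 923, nat_lit 0, nat_lit 8, nat_lit 317, nat_lit 923, nat_lit 83, nat_lit 0, nat_lit 0, nat_lit 0, nat_lit 0, nat_lit 0, nat_lit 39059648, nat_lit 24913634, nat_lit 3026718, nat_lit 4314092, true, true⟩,
 nat_lit 0, nat_lit 0, nat_lit 1293, nat_lit 0, nat_lit 4043, nat_lit 684, nat_lit 201, nat_lit 0, nat_lit 0, nat_lit 49, nat_lit 0, nat_lit 0, nat_lit 0, nat_lit 0, nat_lit 0, nat_lit 230750, nat_lit 0, nat_lit 0, [(nat_lit 22, [(nat_lit 0, nat_lit 923)])],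
 ⟨p082_k15, nat_lit 0, nat_lit 0, nat_lit 128, nat_lit 0, nat_lit 0, [nat_lit 1603728001, nat_lit 2180024400, nat_lit 3117081200], [], [nat_lit 26736724602, nat_lit 27236269797, nat_lit 27735814992, nat_lit 28208664278, nat_lit 26676236466, nat_lit 27130471104, nat_lit 27584705742, nat_lit 28015402115], nat_lit 0, nat_lit 0, nat_lit 0, nat_lit 0, nat_lit 0, nat_lit 0, [], [nat_lit 34, nat_lit 40, nat_lit 40, nat_lit 80, nat_lit 7, nat_lit 249, nat_lit 40, nat_lit 7]⟩, ⟨p082_k12, nat_lit 0, nat_lit 0, nat_lit 750, nat_lit 0, nat_lit 1144507, [nat_lit 360976000, nat_lit 613536000, nat_lit 914144000], [], [nat_lit 3150414952, nat_lit 3149706316, nat_lit 3192027904, nat_lit 3216506656, nat_lit 2623683932, nat_lit 2619811868, nat_lit 2641736387, nat_lit 2636434904], nat_lit 1271250, nat_lit 1271250, nat_lit 1271250, nat_lit 1271250, nat_lit 0, nat_lit 2203500, [nat_lit 1100000, nat_lit 1785000, nat_lit 1271250], [nat_lit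 21, nat_lit 40, nat_lit 40, nat_lit 80, nat_lit 14, nat_lit 373, nat_lit 150, nat_lit 9]⟩,
 ⟨nat_lit 3535, nat_lit 3873, ⟨.ofNat (nat_lit 769411), .ofNat (nat_lit 801671), .ofNat (nat_lit 791204), .ofNat (nat_lit 823465), .ofNat (nat_lit 763569), .ofNat (nat_lit 794949), .ofNat (nat_lit 785521), .ofNat (nat_lit 816902)⟩, ⟨.ofNat (nat_lit 132088), .ofNat (nat_lit 261131), .ofNat (nat_lit 153881), .ofNat (nat_lit 282924), .ofNat (nat_lit 136093), .ofNat (nat_lit 261616), .ofNat (nat_lit 158046), .ofNat (nat_lit 283569)⟩⟩, [⟨nat_lit 7, nat_lit 92, nat_lit 100, nat_lit 68, nat_lit 6498500⟩]⟩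
noncomputable def p082_l78 : Lf2 := ⟨nat_lit 0, nat_lit 15, [nat_lit 30, nat_lit 5, nat_lit 5, nat_lit 20], true, nat_lit 80, nat_lit 160, nat_lit 0, nat_lit 312, ⟨nat_lit 0, nat_lit 1000, nat_lit 0, nat_lit 8, nat_lit 315, nat_lit 1000, nat_lit 84, nat_lit 0, nat_lit 0, nat_lit 0, nat_lit 0, nat_lit 0, nat_lit 39252239, nat_lit 24662256, nat_lit 3085505, nat_lit 4318962, true, true⟩,
 nat_lit 0, nat_lit 0, nat_lit 0, nat_lit 0, nat_lit 4033, nat_lit 0, nat_lit 0, nat_lit 0, nat_lit 0, nat_lit 0, nat_lit 0, nat_lit 0, nat_lit 0, nat_lit 0, nat_lit 0, nat_lit 250000, nat_lit 0, nat_lit 0, [(nat_lit 22, [(nat_lit 0, nat_lit 1000)])],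
 ⟨p082_k16, nat_lit 0, nat_lit 0, nat_lit 114, nat_lit 0, nat_lit 0, [nat_lit 1568000001, nat_lit 1970800000, nat_lit 2330800000], [], [nat_lit 27305178516, nat_lit 27841654388, nat_lit 28348981894, nat_lit 28856309400, nat_lit 27286058901, nat_lit 27773266478, nat_lit 28234866277, nat_lit 28696466076], nat_lit 0, nat_lit 0, nat_lit 0, nat_lit 0, nat_lit 0, nat_lit 0, [], [nat_lit 6, nat_lit 40, nat_lit 40, nat_lit 80, nat_lit 3, nat_lit 249, nat_lit 40, nat_lit 8]⟩, C1.Rw.none,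
 ⟨nat_lit 3162, nat_lit 3536, ⟨.ofNat (nat_lit 763569), .ofNat (nat_lit 794949), .ofNat (nat_lit 785521), .ofNat (nat_lit 816902), .ofNat (nat_lit 757645), .ofNat (nat_lit 788122), .ofNat (nat_lit 779800), .ofNat (nat_lit 810277)⟩, ⟨.ofNat (nat_lit 136093), .ofNat (nat_lit 261616), .ofNat (nat_lit 158046), .ofNat (nat_lit 283569), .ofNat (nat_lit 139899), .ofNat (nat_lit 261806), .ofNat (nat_lit 162054), .ofNat (nat_lit 283961)⟩⟩, []⟩
noncomputable def p082_l79 : Lf2 := ⟨nat_lit 0, nat_lit 20, [nat_lit 5, nat_lit 5, nat_lit 5, nat_lit 20], false, nat_lit 80, nat_lit 160, nat_lit 0, nat_lit 312, ⟨nat_lit 193, nat_lit 807, nat_lit 0, nat_lit 8, nat_lit 315, nat_lit 807, nat_lit 92, nat_lit 0, nat_lit 0, nat_lit 0, nat_lit 0, nat_lit 0, nat_lit 38933716, nat_lit 24552086, nat_lit 3514198, nat_lit 4411712, true, true⟩,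
 nat_lit 0, nat_lit 0, nat_lit 3365, nat_lit 0, nat_lit 3355, nat_lit 1781, nat_lit 267, nat_lit 0, nat_lit 0, nat_lit 186, nat_lit 0, nat_lit 0, nat_lit 0, nat_lit 0, nat_lit 0, nat_lit 322800, nat_lit 0, nat_lit 0, [(nat_lit 22, [(nat_lit 1, nat_lit 807)])],
 ⟨p082_k7, nat_lit 0, nat_lit 0, nat_lit 128, nat_lit 0, nat_lit 0, [nat_lit 1488404801, nat_lit 2159507600, nat_lit 2663427600], [], [nat_lit 25729916570, nat_lit 26194122645, nat_lit 26658328720, nat_lit 27130241930, nat_lit 25997137556, nat_lit 26400750274, nat_lit 26804362991, nat_lit 27193620190], nat_lit 0, nat_lit 0, nat_lit 0, nat_lit 0, nat_lit 0, nat_lit 0, [], [nat_lit 34, nat_lit 40, nat_lit 40, nat_lit 80, nat_lit 7, nat_lit 249, nat_lit 40, nat_lit 7]⟩, ⟨p082_k6, nat_lit 0, nat_lit 0, nat_lit 634, nat_lit 0, nat_lit 756328, [nat_lit 904784000, nat_lit 1537824000, nat_lit 2713194000], [], [nat_lit 7350100050, nat_lit 7414065277, nat_lit 7639866032,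 nat_lit 7696454865, nat_lit 6115487813, nat_lit 6119017310, nat_lit 6190763829, nat_lit 6191876596], nat_lit 1271250, nat_lit 1271250, nat_lit 1271250, nat_lit 1271250, nat_lit 0, nat_lit 2203500, [nat_lit 1100000, nat_lit 1785000, nat_lit 1271250], [nat_lit 37, nat_lit 40, nat_lit 40, nat_lit 80, nat_lit 28, nat_lit 483, nat_lit 250, nat_lit 11]⟩,
 ⟨nat_lit 3535, nat_lit 3873, ⟨.ofNat (nat_lit 769411), .ofNat (nat_lit 801671), .ofNat (nat_lit 780307), .ofNat (nat_lit 812568), .ofNat (nat_lit 763569), .ofNat (nat_lit 794949), .ofNat (nat_lit 774545), .ofNat (nat_lit 805926)⟩, ⟨.ofNat (nat_lit 153881), .ofNat (nat_lit 282924), .ofNat (nat_lit 175674), .ofNat (nat_lit 304717), .ofNat (nat_lit 158046), .ofNat (nat_lit 283569), .ofNat (nat_lit 179999), .ofNat (nat_lit 305521)⟩⟩, [⟨nat_lit 10, nat_lit 84, nat_lit 67, nat_lit 100, nat_lit 16840174⟩]⟩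
noncomputable def p082_l80 : Lf2 := ⟨nat_lit 0, nat_lit 20, [nat_lit 5, nat_lit 5, nat_lit 5, nat_lit 20], false, nat_lit 80, nat_lit 160, nat_lit 0, nat_lit 312, ⟨nat_lit 74, nat_lit 926, nat_lit 0, nat_lit 8, nat_lit 313, nat_lit 926, nat_lit 93, nat_lit 0, nat_lit 0, nat_lit 0, nat_lit 0, nat_lit 0, nat_lit 39120428, nat_lit 24298435, nat_lit 3581137, nat_lit 4417143, true, true⟩,
 nat_lit 0, nat_lit 0, nat_lit 1193, nat_lit 0, nat_lit 3891, nat_lit 631, nat_lit 192, nat_lit 0, nat_lit 0, nat_lit 52, nat_lit 0, nat_lit 0, nat_lit 0, nat_lit 0, nat_lit 0, nat_lit 231500, nat_lit 0, nat_lit 0, [(nat_lit 22, [(nat_lit 0, nat_lit 926)])],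
 ⟨p082_k17, nat_lit 0, nat_lit 0, nat_lit 131, nat_lit 0, nat_lit 0, [nat_lit 1602336000, nat_lit 2171872800, nat_lit 3101314400], [], [nat_lit 27095824189, nat_lit 27587561904, nat_lit 28053358086, nat_lit 28580460212, nat_lit 27050225248, nat_lit 27497822654, nat_lit 27922543755, nat_lit 28347264856], nat_lit 0, nat_lit 0, nat_lit 0, nat_lit 0, nat_lit 0, nat_lit 0, [], [nat_lit 34, nat_lit 40, nat_lit 40, nat_lit 80, nat_lit 7, nat_lit 249, nat_lit 40, nat_lit 7]⟩, ⟨p082_k6, nat_lit 0, nat_lit 0, nat_lit 745, nat_lit 0, nat_lit 963174, [nat_lit 346912000, nat_lit 589632000, nat_lit 1040292000], [], [nat_lit 3075581754, nat_lit 3079799524, nat_lit 3112206636, nat_lit 3115389859, nat_lit 2571241140, nat_lit 2569329764, nat_lit 2595249923, nat_lit 2596581522], nat_lit 1271250, nat_lit 1271250, nat_lit 1271250, nat_lit 1271250, nat_lit 0, nat_lit 2203500, [nat_lit 1100000, nat_lit 1785000, nat_lit 1271250], [nat_lit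 37, nat_lit 40, nat_lit 40, nat_lit 80, nat_lit 28, nat_lit 483, nat_lit 250, nat_lit 11]⟩,
 ⟨nat_lit 3162, nat_lit 3536, ⟨.ofNat (nat_lit 763569), .ofNat (nat_lit 794949), .ofNat (nat_lit 774545), .ofNat (nat_lit 805926), .ofNat (nat_lit 757645), .ofNat (nat_lit 788122), .ofNat (nat_lit 768723), .ofNat (nat_lit 799199)⟩, ⟨.ofNat (nat_lit 158046), .ofNat (nat_lit 283569), .ofNat (nat_lit 179999), .ofNat (nat_lit 305521), .ofNat (nat_lit 162054), .ofNat (nat_lit 283961), .ofNat (nat_lit 184209), .ofNat (nat_lit 306116)⟩⟩, [⟨nat_lit 13, nat_lit 65, nat_lit 63, nat_lit 100, nat_lit 249516473⟩, ⟨nat_lit 10, nat_lit 84, nat_lit 67, nat_lit 100, nat_lit 7793097⟩]⟩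
noncomputable def p082_l81 : Lf2 := ⟨nat_lit 0, nat_lit 20, [nat_lit 5, nat_lit 5, nat_lit 5, nat_lit 20], false, nat_lit 80, nat_lit 160, nat_lit 0, nat_lit 312, ⟨nat_lit 238, nat_lit 762, nat_lit 0, nat_lit 8, nat_lit 318, nat_lit 762, nat_lit 92, nat_lit 0, nat_lit 0, nat_lit 0, nat_lit 0, nat_lit 0, nat_lit 38643681, nat_lit 24859563, nat_lit 3496756, nat_lit 4418596, true, true⟩,
 nat_lit 0, nat_lit 0, nat_lit 3662, nat_lit 0, nat_lit 3394, nat_lit 2034, nat_lit 294, nat_lit 0, nat_lit 0, nat_lit 231, nat_lit 0, nat_lit 0, nat_lit 0, nat_lit 0, nat_lit 0, nat_lit 304800, nat_lit 0, nat_lit 0, [(nat_lit 22, [(nat_lit 1, nat_lit 762)])],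
 ⟨p082_k7, nat_lit 0, nat_lit 0, nat_lit 128, nat_lit 0, nat_lit 0, [nat_lit 1518716800, nat_lit 2300501600, nat_lit 2959221600], [], [nat_lit 25788080516, nat_lit 26254289826, nat_lit 26720499136, nat_lit 27191275604, nat_lit 26041135834, nat_lit 26446322143, nat_lit 26851508452, nat_lit 27237629958], nat_lit 0, nat_lit 0, nat_lit 0, nat_lit 0, nat_lit 0, nat_lit 0, [], [nat_lit 34, nat_lit 40, nat_lit 40, nat_lit 80, nat_lit 7, nat_lit 249, nat_lit 40, nat_lit 7]⟩, ⟨p082_k14, nat_lit 0, nat_lit 0, nat_lit 625, nat_lit 0, nat_lit 738315, [nat_lit 1115744000, nat_lit 1896384000, nat_lit 3345804000], [], [nat_lit 8830602264, nat_lit 8869347657, nat_lit 9163387732, nat_lit 9197874537, nat_lit 7479526549, nat_lit 7483026509, nat_lit 7569275389, nat_lit 7571376901], nat_lit 1271250, nat_lit 1271250, nat_lit 1271250, nat_lit 1271250, nat_lit 0, nat_lit 2203500, [nat_lit 1100000, nat_lit 1785000, nat_lit 1271250], [nat_lit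 37, nat_lit 40, nat_lit 40, nat_lit 80, nat_lit 28, nat_lit 483, nat_lit 250, nat_lit 11]⟩,
 ⟨nat_lit 3535, nat_lit 3873, ⟨.ofNat (nat_lit 780307), .ofNat (nat_lit 812568), .ofNat (nat_lit 785755), .ofNat (nat_lit 818016), .ofNat (nat_lit 774545), .ofNat (nat_lit 805926), .ofNat (nat_lit 780033), .ofNat (nat_lit 811414)⟩, ⟨.ofNat (nat_lit 153881), .ofNat (nat_lit 282924), .ofNat (nat_lit 175674), .ofNat (nat_lit 304717), .ofNat (nat_lit 158046), .ofNat (nat_lit 283569), .ofNat (nat_lit 179999), .ofNat (nat_lit 305521)⟩⟩, [⟨nat_lit 10, nat_lit 84, nat_lit 67, nat_lit 100, nat_lit 25784938⟩]⟩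
noncomputable def p082_l82 : Lf2 := ⟨nat_lit 0, nat_lit 20, [nat_lit 5, nat_lit 5, nat_lit 5, nat_lit 20], false, nat_lit 80, nat_lit 160, nat_lit 0, nat_lit 312, ⟨nat_lit 201, nat_lit 799, nat_lit 0, nat_lit 8, nat_lit 316, nat_lit 799, nat_lit 93, nat_lit 0, nat_lit 0, nat_lit 0, nat_lit 0, nat_lit 0, nat_lit 38827397, nat_lit 24609238, nat_lit 3563365, nat_lit 4424465, true, true⟩,
 nat_lit 0, nat_lit 0, nat_lit 3100, nat_lit 0, nat_lit 3556, nat_lit 1722, nat_lit 309, nat_lit 0, nat_lit 0, nat_lit 196, nat_lit 0, nat_lit 0, nat_lit 0, nat_lit 0, nat_lit 0, nat_lit 199750, nat_lit 0, nat_lit 0, [(nat_lit 22, [(nat_lit 0, nat_lit 799)])],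
 ⟨p082_k17, nat_lit 0, nat_lit 0, nat_lit 131, nat_lit 0, nat_lit 0, [nat_lit 1661264000, nat_lit 2516957200, nat_lit 3768775600], [], [nat_lit 26611698049, nat_lit 27086228489, nat_lit 27536480001, nat_lit 28032154992, nat_lit 26759739507, nat_lit 27171462273, nat_lit 27563472317, nat_lit 27955482361], nat_lit 0, nat_lit 0, nat_lit 0, nat_lit 0, nat_lit 0, nat_lit 0, [], [nat_lit 34, nat_lit 40, nat_lit 40, nat_lit 80, nat_lit 7, nat_lit 249, nat_lit 40, nat_lit 7]⟩, ⟨p082_k14, nat_lit 0, nat_lit 0, nat_lit 730, nat_lit 0, nat_lit 928429, [nat_lit 942288000, nat_lit 1601568000, nat_lit 2825658000], [], [nat_lit 7452074359, nat_lit 7484814324, nat_lit 7733525050, nat_lit 7762660963, nat_lit 6295672823, nat_lit 6298594325, nat_lit 6371471665, nat_lit 6374647934], nat_lit 1271250, nat_lit 1271250, nat_lit 1271250, nat_lit 1271250, nat_lit 0, nat_lit 2203500, [nat_lit 1100000, nat_lit 1785000, nat_lit 1271250], [nat_lit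 37, nat_lit 40, nat_lit 40, nat_lit 80, nat_lit 28, nat_lit 483, nat_lit 250, nat_lit 11]⟩,
 ⟨nat_lit 3162, nat_lit 3536, ⟨.ofNat (nat_lit 774545), .ofNat (nat_lit 805926), .ofNat (nat_lit 780033), .ofNat (nat_lit 811414), .ofNat (nat_lit 768723), .ofNat (nat_lit 799199), .ofNat (nat_lit 774261), .ofNat (nat_lit 804738)⟩, ⟨.ofNat (nat_lit 158046), .ofNat (nat_lit 283569), .ofNat (nat_lit 179999), .ofNat (nat_lit 305521), .ofNat (nat_lit 162054), .ofNat (nat_lit 283961), .ofNat (nat_lit 184209), .ofNat (nat_lit 306116)⟩⟩, [⟨nat_lit 13, nat_lit 62, nat_lit 65, nat_lit 100, nat_lit 152478386⟩, ⟨nat_lit 10, nat_lit 84, nat_lit 67, nat_lit 100, nat_lit 21829111⟩]⟩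
noncomputable def p082_l83 : Lf2 := ⟨nat_lit 0, nat_lit 20, [nat_lit 5, nat_lit 5, nat_lit 5, nat_lit 20], false, nat_lit 80, nat_lit 160, nat_lit 0, nat_lit 312, ⟨nat_lit 265, nat_lit 735, nat_lit 0, nat_lit 8, nat_lit 321, nat_lit 735, nat_lit 92, nat_lit 0, nat_lit 0, nat_lit 0, nat_lit 0, nat_lit 0, nat_lit 38451180, nat_lit 25063753, nat_lit 3485067, nat_lit 4422883, true, true⟩,
 nat_lit 0, nat_lit 0, nat_lit 3828, nat_lit 0, nat_lit 3419, nat_lit 2177, nat_lit 311, nat_lit 0, nat_lit 0, nat_lit 258, nat_lit 0, nat_lit 0, nat_lit 0, nat_lit 0, nat_lit 0, nat_lit 294000, nat_lit 0, nat_lit 0, [(nat_lit 22, [(nat_lit 1, nat_lit 735)])],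
 ⟨p082_k7, nat_lit 0, nat_lit 0, nat_lit 128, nat_lit 0, nat_lit 0, [nat_lit 1536904000, nat_lit 2385098000, nat_lit 3136698000], [], [nat_lit 25815922266, nat_lit 26283415701, nat_lit 26750909136, nat_lit 27230399754, nat_lit 26058653459, nat_lit 26464848481, nat_lit 26871043502, nat_lit 27264658782], nat_lit 0, nat_lit 0, nat_lit 0, nat_lit 0, nat_lit 0, nat_lit 0, [], [nat_lit 34, nat_lit 40, nat_lit 40, nat_lit 80, nat_lit 7, nat_lit 249, nat_lit 40, nat_lit 7]⟩, ⟨p082_k28, nat_lit 0, nat_lit 0, nat_lit 628, nat_lit 0, nat_lit 748100, [nat_lit 1242320000, nat_lit 2111520000, nat_lit 3725370000], [], [nat_lit 9700199999, nat_lit 9742965404, nat_lit 10057800160, nat_lit 10095980446, nat_lit 8284002186, nat_lit 8288615065, nat_lit 8382371897, nat_lit 8385477250], nat_lit 1271250, nat_lit 1271250, nat_lit 1271250, nat_lit 1271250, nat_lit 0, nat_lit 2203500, [nat_lit 1100000, nat_lit 1785000, nat_lit 1271250], [nat_lit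 37, nat_lit 40, nat_lit 40, nat_lit 80, nat_lit 28, nat_lit 483, nat_lit 250, nat_lit 11]⟩,
 ⟨nat_lit 3535, nat_lit 3873, ⟨.ofNat (nat_lit 785755), .ofNat (nat_lit 818016), .ofNat (nat_lit 791204), .ofNat (nat_lit 823465), .ofNat (nat_lit 780033), .ofNat (nat_lit 811414), .ofNat (nat_lit 785521), .ofNat (nat_lit 816902)⟩, ⟨.ofNat (nat_lit 153881), .ofNat (nat_lit 282924), .ofNat (nat_lit 175674), .ofNat (nat_lit 304717), .ofNat (nat_lit 158046), .ofNat (nat_lit 283569), .ofNat (nat_lit 179999), .ofNat (nat_lit 305521)⟩⟩, [⟨nat_lit 10, nat_lit 84, nat_lit 67, nat_lit 100, nat_lit 31461280⟩]⟩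
noncomputable def p082_l84 : Lf2 := ⟨nat_lit 0, nat_lit 20, [nat_lit 5, nat_lit 5, nat_lit 5, nat_lit 20], false, nat_lit 80, nat_lit 160, nat_lit 0, nat_lit 312, ⟨nat_lit 224, nat_lit 776, nat_lit 0, nat_lit 8, nat_lit 318, nat_lit 776, nat_lit 93, nat_lit 0, nat_lit 0, nat_lit 0, nat_lit 0, nat_lit 0, nat_lit 38632901, nat_lit 24815646, nat_lit 3551453, nat_lit 4429035, true, true⟩,
 nat_lit 0, nat_lit 0, nat_lit 3236, nat_lit 0, nat_lit 3570, nat_lit 1840, nat_lit 319, nat_lit 0, nat_lit 0, nat_lit 218, nat_lit 0, nat_lit 0, nat_lit 0, nat_lit 0, nat_lit 0, nat_lit 194000, nat_lit 0, nat_lit 0, [(nat_lit 22, [(nat_lit 0, nat_lit 776)])],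
 ⟨p082_k17, nat_lit 0, nat_lit 0, nat_lit 131, nat_lit 0, nat_lit 0, [nat_lit 1671936001, nat_lit 2579452800, nat_lit 3889654400], [], [nat_lit 26634831805, nat_lit 27110081355, nat_lit 27560982495, nat_lit 28055069240, nat_lit 26777424691, nat_lit 27189712336, nat_lit 27582231266, nat_lit 27974750196], nat_lit 0, nat_lit 0, nat_lit 0, nat_lit 0, nat_lit 0, nat_lit 0, [], [nat_lit 34, nat_lit 40, nat_lit 40, nat_lit 80, nat_lit 7, nat_lit 249, nat_lit 40, nat_lit 7]⟩, ⟨p082_k28, nat_lit 0, nat_lit 0, nat_lit 729, nat_lit 0, nat_lit 929223, [nat_lit 1050112000, nat_lit 1784832000, nat_lit 3148992000], [], [nat_lit 8200150380, nat_lit 8236298476, nat_lit 8502406804, nat_lit 8534679500, nat_lit 7003514820, nat_lit 7007415487, nat_lit 7086665060, nat_lit 7089291541], nat_lit 1271250, nat_lit 1271250, nat_lit 1271250, nat_lit 1271250, nat_lit 0, nat_lit 2203500, [nat_lit 1100000, nat_lit 1785000, nat_lit 1271250], [nat_lit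 37, nat_lit 40, nat_lit 40, nat_lit 80, nat_lit 28, nat_lit 483, nat_lit 250, nat_lit 11]⟩,
 ⟨nat_lit 3162, nat_lit 3536, ⟨.ofNat (nat_lit 780033), .ofNat (nat_lit 811414), .ofNat (nat_lit 785521), .ofNat (nat_lit 816902), .ofNat (nat_lit 774261), .ofNat (nat_lit 804738), .ofNat (nat_lit 779800), .ofNat (nat_lit 810277)⟩, ⟨.ofNat (nat_lit 158046), .ofNat (nat_lit 283569), .ofNat (nat_lit 179999), .ofNat (nat_lit 305521), .ofNat (nat_lit 162054), .ofNat (nat_lit 283961), .ofNat (nat_lit 184209), .ofNat (nat_lit 306116)⟩⟩, [⟨nat_lit 10, nat_lit 84, nat_lit 67, nat_lit 100, nat_lit 26598020⟩]⟩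
noncomputable def p082_l85 : Lf2 := ⟨nat_lit 0, nat_lit 15, [nat_lit 30, nat_lit 5, nat_lit 5, nat_lit 20], false, nat_lit 80, nat_lit 160, nat_lit 0, nat_lit 320, ⟨nat_lit 64, nat_lit 936, nat_lit 0, nat_lit 8, nat_lit 319, nat_lit 936, nat_lit 88, nat_lit 0, nat_lit 0, nat_lit 0, nat_lit 0, nat_lit 0, nat_lit 38773412, nat_lit 24946786, nat_lit 3279802, nat_lit 4373349, true, true⟩,
 nat_lit 0, nat_lit 0, nat_lit 861, nat_lit 0, nat_lit 3216, nat_lit 501, nat_lit 179, nat_lit 0, nat_lit 0, nat_lit 54, nat_lit 0, nat_lit 0, nat_lit 0, nat_lit 0, nat_lit 0, nat_lit 374400, nat_lit 0, nat_lit 0, [(nat_lit 22, [(nat_lit 1, nat_lit 936)])],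
 ⟨p082_k15, nat_lit 0, nat_lit 0, nat_lit 131, nat_lit 0, nat_lit 0, [nat_lit 1401510401, nat_lit 1755324801, nat_lit 1820976000], [], [nat_lit 24803394449, nat_lit 25715029105, nat_lit 26576516304, nat_lit 27475666112, nat_lit 25205224625, nat_lit 26037938961, nat_lit 26797241729, nat_lit 27556544497], nat_lit 0, nat_lit 0, nat_lit 0, nat_lit 0, nat_lit 0, nat_lit 0, [], [nat_lit 34, nat_lit 40, nat_lit 40, nat_lit 80, nat_lit 7, nat_lit 249, nat_lit 40, nat_lit 7]⟩, ⟨p082_k9, nat_lit 0, nat_lit 0, nat_lit 834, nat_lit 0, nat_lit 1312148, [nat_lit 300032000, nat_lit 509952000, nat_lit 759808000], [], [nat_lit 2319348962, nat_lit 2340117016, nat_lit 2404036760, nat_lit 2420505544, nat_lit 2041637204, nat_lit 2047788444, nat_lit 2087191132, nat_lit 2090585240], nat_lit 1271250, nat_lit 1271250, nat_lit 1271250, nat_lit 1271250, nat_lit 0, nat_lit 2260000, [nat_lit 1100000, nat_lit 1785000, nat_lit 1271250], [nat_lit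 21, nat_lit 40, nat_lit 40, nat_lit 80, nat_lit 14, nat_lit 373, nat_lit 150, nat_lit 9]⟩,
 ⟨nat_lit 3162, nat_lit 3873, ⟨.ofNat (nat_lit 758943), .ofNat (nat_lit 823465), .ofNat (nat_lit 780717), .ofNat (nat_lit 845258), .ofNat (nat_lit 749323), .ofNat (nat_lit 810277), .ofNat (nat_lit 771459), .ofNat (nat_lit 832432)⟩, ⟨.ofNat (nat_lit 132088), .ofNat (nat_lit 261131), .ofNat (nat_lit 175674), .ofNat (nat_lit 304717), .ofNat (nat_lit 139899), .ofNat (nat_lit 261806), .ofNat (nat_lit 184209), .ofNat (nat_lit 306116)⟩⟩, [⟨nat_lit 22, nat_lit 77, nat_lit 100, nat_lit 99, nat_lit 8662560⟩]⟩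
noncomputable def p082_l86 : Lf2 := ⟨nat_lit 0, nat_lit 15, [nat_lit 30, nat_lit 5, nat_lit 5, nat_lit 20], false, nat_lit 80, nat_lit 160, nat_lit 0, nat_lit 296, ⟨nat_lit 108, nat_lit 892, nat_lit 0, nat_lit 8, nat_lit 320, nat_lit 892, nat_lit 83, nat_lit 0, nat_lit 0, nat_lit 0, nat_lit 0, nat_lit 0, nat_lit 38845796, nat_lit 25138443, nat_lit 3015761, nat_lit 4319172, true, true⟩,
 nat_lit 0, nat_lit 0, nat_lit 1480, nat_lit 0, nat_lit 4109, nat_lit 861, nat_lit 215, nat_lit 0, nat_lit 0, nat_lit 96, nat_lit 0, nat_lit 0, nat_lit 0, nat_lit 0, nat_lit 0, nat_lit 223000, nat_lit 0, nat_lit 0, [(nat_lit 22, [(nat_lit 0, nat_lit 892)])],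
 ⟨p082_k15, nat_lit 0, nat_lit 0, nat_lit 128, nat_lit 0, nat_lit 0, [nat_lit 1618112001, nat_lit 2264257600, nat_lit 3280004800], [], [nat_lit 25768942156, nat_lit 26298900908, nat_lit 27780683296, nat_lit 28310226294, nat_lit 25774460170, nat_lit 26255402459, nat_lit 27602926546, nat_lit 28036217445], nat_lit 0, nat_lit 0, nat_lit 0, nat_lit 0, nat_lit 0, nat_lit 0, [], [nat_lit 34, nat_lit 40, nat_lit 40, nat_lit 80, nat_lit 7, nat_lit 249, nat_lit 40, nat_lit 7]⟩, ⟨p082_k9, nat_lit 0, nat_lit 0, nat_lit 631, nat_lit 0, nat_lit 849486, [nat_lit 506304000, nat_lit 860544000, nat_lit 1282176000], [], [nat_lit 3833193690, nat_lit 3868096824, nat_lit 3977015160, nat_lit 4021065612, nat_lit 3319173897, nat_lit 3331706650, nat_lit 3402463612, nat_lit 3410050301], nat_lit 1271250, nat_lit 1271250, nat_lit 1271250, nat_lit 1271250, nat_lit 0, nat_lit 2090500, [nat_lit 1100000, nat_lit 1785000, nat_lit 1271250], [nat_lit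 21, nat_lit 40, nat_lit 40, nat_lit 80, nat_lit 14, nat_lit 373, nat_lit 150, nat_lit 9]⟩,
 ⟨nat_lit 3535, nat_lit 3873, ⟨.ofNat (nat_lit 758942), .ofNat (nat_lit 823465), .ofNat (nat_lit 780730), .ofNat (nat_lit 845257), .ofNat (nat_lit 754140), .ofNat (nat_lit 816902), .ofNat (nat_lit 776087), .ofNat (nat_lit 838854)⟩, ⟨.ofNat (nat_lit 132088), .ofNat (nat_lit 261131), .ofNat (nat_lit 153881), .ofNat (nat_lit 282924), .ofNat (nat_lit 136093), .ofNat (nat_lit 261616), .ofNat (nat_lit 158046), .ofNat (nat_lit 283569)⟩⟩, [⟨nat_lit 7, nat_lit 100, nat_lit 100, nat_lit 71, nat_lit 12222275⟩]⟩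
noncomputable def p082_l87 : Lf2 := ⟨nat_lit 0, nat_lit 15, [nat_lit 30, nat_lit 5, nat_lit 5, nat_lit 20], true, nat_lit 80, nat_lit 160, nat_lit 0, nat_lit 296, ⟨nat_lit 0, nat_lit 1000, nat_lit 0, nat_lit 8, nat_lit 317, nat_lit 1000, nat_lit 84, nat_lit 0, nat_lit 0, nat_lit 0, nat_lit 0, nat_lit 0, nat_lit 39015324, nat_lit 24911416, nat_lit 3073260, nat_lit 4324864, true, true⟩,
 nat_lit 0, nat_lit 0, nat_lit 0, nat_lit 0, nat_lit 3994, nat_lit 0, nat_lit 0, nat_lit 0, nat_lit 0, nat_lit 0, nat_lit 0, nat_lit 0, nat_lit 0, nat_lit 0, nat_lit 0, nat_lit 250000, nat_lit 0, nat_lit 0, [(nat_lit 22, [(nat_lit 0, nat_lit 1000)])],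
 ⟨p082_k16, nat_lit 0, nat_lit 0, nat_lit 114, nat_lit 0, nat_lit 0, [nat_lit 1568000001, nat_lit 1970800000, nat_lit 2330800000], [], [nat_lit 26264593066, nat_lit 26827737568, nat_lit 28343556292, nat_lit 28848829200, nat_lit 26354843450, nat_lit 26865535840, nat_lit 28245081586, nat_lit 28704930168], nat_lit 0, nat_lit 0, nat_lit 0, nat_lit 0, nat_lit 0, nat_lit 0, [], [nat_lit 6, nat_lit 40, nat_lit 40, nat_lit 80, nat_lit 3, nat_lit 249, nat_lit 40, nat_lit 8]⟩, C1.Rw.none,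
 ⟨nat_lit 3162, nat_lit 3536, ⟨.ofNat (nat_lit 754141), .ofNat (nat_lit 816902), .ofNat (nat_lit 776092), .ofNat (nat_lit 838855), .ofNat (nat_lit 749323), .ofNat (nat_lit 810277), .ofNat (nat_lit 771477), .ofNat (nat_lit 832432)⟩, ⟨.ofNat (nat_lit 136093), .ofNat (nat_lit 261616), .ofNat (nat_lit 158046), .ofNat (nat_lit 283569), .ofNat (nat_lit 139899), .ofNat (nat_lit 261806), .ofNat (nat_lit 162054), .ofNat (nat_lit 283961)⟩⟩, []⟩
noncomputable def p082_l88 : Lf2 := ⟨nat_lit 0, nat_lit 20, [nat_lit 5, nat_lit 5, nat_lit 5, nat_lit 20], false, nat_lit 80, nat_lit 160, nat_lit 0, nat_lit 320, ⟨nat_lit 1000, nat_lit 0, nat_lit 0, nat_lit 0, nat_lit 0, nat_lit 0, nat_lit 0, nat_lit 0, nat_lit 0, nat_lit 0, nat_lit 0, nat_lit 0, nat_lit 0, nat_lit 0, nat_lit 0, nat_lit 0, false, false⟩,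
 nat_lit 0, nat_lit 0, nat_lit 13544, nat_lit 0, nat_lit 4318, nat_lit 7883, nat_lit 722, nat_lit 0, nat_lit 0, nat_lit 761, nat_lit 0, nat_lit 0, nat_lit 0, nat_lit 0, nat_lit 0, nat_lit 0, nat_lit 0, nat_lit 0, [],
 ⟨p082_k7, nat_lit 0, nat_lit 0, nat_lit 128, nat_lit 0, nat_lit 0, [nat_lit 2032000001, nat_lit 4688000000, nat_lit 7968000000], [], [nat_lit 25991821112, nat_lit 26533552416, nat_lit 28046503392, nat_lit 28637304188, nat_lit 25919391740, nat_lit 26410370418, nat_lit 27784362892, nat_lit 28263471232], nat_lit 0, nat_lit 0, nat_lit 0, nat_lit 0, nat_lit 0, nat_lit 0, [], [nat_lit 34, nat_lit 40, nat_lit 40, nat_lit 80, nat_lit 7, nat_lit 249, nat_lit 40, nat_lit 7]⟩, ⟨p082_k10, nat_lit 0, nat_lit 0, nat_lit 499, nat_lit 0, nat_lit 543577, [nat_lit 4688000000, nat_lit 7968000000, nat_lit 11872000000], [], [nat_lit 36157366867, nat_lit 36345420489, nat_lit 37681816919, nat_lit 37830954539, nat_lit 31385976585,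 nat_lit 31449356972, nat_lit 32761740625, nat_lit 32926939290], nat_lit 1271250, nat_lit 1271250, nat_lit 1271250, nat_lit 1271250, nat_lit 0, nat_lit 2260000, [nat_lit 1100000, nat_lit 1785000, nat_lit 1271250], [nat_lit 21, nat_lit 40, nat_lit 40, nat_lit 80, nat_lit 14, nat_lit 373, nat_lit 150, nat_lit 9]⟩,
 zbF0, [⟨nat_lit 19, nat_lit 100, nat_lit 91, nat_lit 80, nat_lit 136099498⟩]⟩
noncomputable def p082_l89 : Lf2 := ⟨nat_lit 0, nat_lit 20, [nat_lit 5, nat_lit 5, nat_lit 5, nat_lit 20], false, nat_lit 80, nat_lit 160, nat_lit 0, nat_lit 320, ⟨nat_lit 252, nat_lit 748, nat_lit 0, nat_lit 8, nat_lit 316, nat_lit 748, nat_lit 93, nat_lit 0, nat_lit 0, nat_lit 0, nat_lit 0, nat_lit 0, nat_lit 38845038, nat_lit 24603619, nat_lit 3551343, nat_lit 4421651, true, true⟩,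
 nat_lit 0, nat_lit 0, nat_lit 3382, nat_lit 0, nat_lit 3600, nat_lit 1968, nat_lit 337, nat_lit 0, nat_lit 0, nat_lit 210, nat_lit 0, nat_lit 0, nat_lit 0, nat_lit 0, nat_lit 0, nat_lit 187000, nat_lit 0, nat_lit 0, [(nat_lit 22, [(nat_lit 0, nat_lit 748)])],
 ⟨p082_k17, nat_lit 0, nat_lit 0, nat_lit 130, nat_lit 0, nat_lit 0, [nat_lit 1684928000, nat_lit 2655534400, nat_lit 4036811200], [], [nat_lit 25693507925, nat_lit 25931445325, nat_lit 27535207925, nat_lit 27808914900, nat_lit 25920057525, nat_lit 26136750925, nat_lit 27534272525, nat_lit 27734965200], nat_lit 0, nat_lit 0, nat_lit 0, nat_lit 0, nat_lit 0, nat_lit 0, [], [nat_lit 34, nat_lit 40, nat_lit 40, nat_lit 80, nat_lit 7, nat_lit 249, nat_lit 40, nat_lit 7]⟩, ⟨p082_k10, nat_lit 0, nat_lit 0, nat_lit 528, nat_lit 0, nat_lit 624410, [nat_lit 1181376000, nat_lit 2007936000, nat_lit 2991744000], [], [nat_lit 8940473046, nat_lit 8987913774, nat_lit 9323219022,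 nat_lit 9370190766, nat_lit 7865841144, nat_lit 7893285060, nat_lit 8132809752, nat_lit 8160350502], nat_lit 1271250, nat_lit 1271250, nat_lit 1271250, nat_lit 1271250, nat_lit 0, nat_lit 2260000, [nat_lit 1100000, nat_lit 1785000, nat_lit 1271250], [nat_lit 21, nat_lit 40, nat_lit 40, nat_lit 80, nat_lit 14, nat_lit 373, nat_lit 150, nat_lit 9]⟩,
 ⟨nat_lit 3354, nat_lit 3536, ⟨.ofNat (nat_lit 754141), .ofNat (nat_lit 816902), .ofNat (nat_lit 765117), .ofNat (nat_lit 827878), .ofNat (nat_lit 751737), .ofNat (nat_lit 813602), .ofNat (nat_lit 762760), .ofNat (nat_lit 824626)⟩, ⟨.ofNat (nat_lit 158046), .ofNat (nat_lit 283569), .ofNat (nat_lit 179999), .ofNat (nat_lit 305521), .ofNat (nat_lit 160070), .ofNat (nat_lit 283800), .ofNat (nat_lit 182118), .ofNat (nat_lit 305848)⟩⟩, [⟨nat_lit 19, nat_lit 100, nat_lit 91, nat_lit 80, nat_lit 34949023⟩]⟩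
noncomputable def p082_l90 : Lf2 := ⟨nat_lit 0, nat_lit 20, [nat_lit 5, nat_lit 5, nat_lit 5, nat_lit 20], false, nat_lit 80, nat_lit 160, nat_lit 0, nat_lit 320, ⟨nat_lit 235, nat_lit 765, nat_lit 0, nat_lit 8, nat_lit 315, nat_lit 765, nat_lit 93, nat_lit 0, nat_lit 0, nat_lit 0, nat_lit 0, nat_lit 0, nat_lit 38927979, nat_lit 24488822, nat_lit 3583199, nat_lit 4424500, true, true⟩,
 nat_lit 0, nat_lit 0, nat_lit 3100, nat_lit 0, nat_lit 3577, nat_lit 1804, nat_lit 308, nat_lit 0, nat_lit 0, nat_lit 171, nat_lit 0, nat_lit 0, nat_lit 0, nat_lit 0, nat_lit 0, nat_lit 191250, nat_lit 0, nat_lit 0, [(nat_lit 22, [(nat_lit 0, nat_lit 765)])],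
 ⟨p082_k34, nat_lit 0, nat_lit 0, nat_lit 131, nat_lit 0, nat_lit 0, [nat_lit 1677040001, nat_lit 2609342000, nat_lit 3947466000], [], [nat_lit 25979616069, nat_lit 26216952789, nat_lit 27795118919, nat_lit 28066526364, nat_lit 26193147423, nat_lit 26409330821, nat_lit 27784037627, nat_lit 27980424313], nat_lit 0, nat_lit 0, nat_lit 0, nat_lit 0, nat_lit 0, nat_lit 0, [], [nat_lit 34, nat_lit 40, nat_lit 40, nat_lit 80, nat_lit 7, nat_lit 249, nat_lit 40, nat_lit 7]⟩, ⟨p082_k10, nat_lit 0, nat_lit 0, nat_lit 558, nat_lit 0, nat_lit 707260, [nat_lit 1101680000, nat_lit 1872480000, nat_lit 2789920000], [], [nat_lit 8679614341, nat_lit 8723941107, nat_lit 9034152187, nat_lit 9069532272, nat_lit 7619854285, nat_lit 7635256531, nat_lit 7815823209, nat_lit 7825955305], nat_lit 1271250, nat_lit 1271250, nat_lit 1271250, nat_lit 1271250, nat_lit 0, nat_lit 2260000, [nat_lit 1100000, nat_lit 1785000, nat_lit 1271250], [nat_lit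 21, nat_lit 40, nat_lit 40, nat_lit 80, nat_lit 14, nat_lit 373, nat_lit 150, nat_lit 9]⟩,
 ⟨nat_lit 3162, nat_lit 3355, ⟨.ofNat (nat_lit 751737), .ofNat (nat_lit 813602), .ofNat (nat_lit 762760), .ofNat (nat_lit 824626), .ofNat (nat_lit 749323), .ofNat (nat_lit 810277), .ofNat (nat_lit 760401), .ofNat (nat_lit 821354)⟩, ⟨.ofNat (nat_lit 160070), .ofNat (nat_lit 283800), .ofNat (nat_lit 182118), .ofNat (nat_lit 305848), .ofNat (nat_lit 162054), .ofNat (nat_lit 283961), .ofNat (nat_lit 184209), .ofNat (nat_lit 306116)⟩⟩, [⟨nat_lit 7, nat_lit 91, nat_lit 100, nat_lit 80, nat_lit 30230310⟩]⟩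
noncomputable def p082_l91 : Lf2 := ⟨nat_lit 0, nat_lit 20, [nat_lit 5, nat_lit 5, nat_lit 5, nat_lit 20], false, nat_lit 80, nat_lit 160, nat_lit 0, nat_lit 308, ⟨nat_lit 378, nat_lit 622, nat_lit 0, nat_lit 8, nat_lit 321, nat_lit 622, nat_lit 93, nat_lit 0, nat_lit 0, nat_lit 0, nat_lit 0, nat_lit 0, nat_lit 38418975, nat_lit 25071448, nat_lit 3509577, nat_lit 4428495, true, true⟩,
 nat_lit 0, nat_lit 0, nat_lit 4416, nat_lit 0, nat_lit 3493, nat_lit 2689, nat_lit 370, nat_lit 0, nat_lit 0, nat_lit 381, nat_lit 0, nat_lit 0, nat_lit 0, nat_lit 0, nat_lit 0, nat_lit 248800, nat_lit 0, nat_lit 0, [(nat_lit 22, [(nat_lit 1, nat_lit 622)])],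
 ⟨p082_k7, nat_lit 0, nat_lit 0, nat_lit 131, nat_lit 0, nat_lit 0, [nat_lit 1613020801, nat_lit 2739149600, nat_lit 3879469600], [], [nat_lit 25149878455, nat_lit 26090450193, nat_lit 26982414192, nat_lit 27929040876, nat_lit 25455918153, nat_lit 26313201281, nat_lit 27092641395, nat_lit 27878944908], nat_lit 0, nat_lit 0, nat_lit 0, nat_lit 0, nat_lit 0, nat_lit 0, [], [nat_lit 34, nat_lit 40, nat_lit 40, nat_lit 80, nat_lit 7, nat_lit 249, nat_lit 40, nat_lit 7]⟩, ⟨p082_k11, nat_lit 0, nat_lit 0, nat_lit 564, nat_lit 0, nat_lit 729499, [nat_lit 1772064000, nat_lit 3011904000, nat_lit 4487616000], [], [nat_lit 13013547820, nat_lit 13062143976, nat_lit 13404459860, nat_lit 13443182384, nat_lit 11573262245, nat_lit 11588862621, nat_lit 11792249544, nat_lit 11801246093], nat_lit 1271250, nat_lit 1271250, nat_lit 1271250, nat_lit 1271250, nat_lit 0, nat_lit 2175250, [nat_lit 1100000, nat_lit 1785000, nat_lit 1271250],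 [nat_lit 21, nat_lit 40, nat_lit 40, nat_lit 80, nat_lit 14, nat_lit 373, nat_lit 150, nat_lit 9]⟩,
 ⟨nat_lit 3162, nat_lit 3873, ⟨.ofNat (nat_lit 769831), .ofNat (nat_lit 834361), .ofNat (nat_lit 780717), .ofNat (nat_lit 845258), .ofNat (nat_lit 760392), .ofNat (nat_lit 821354), .ofNat (nat_lit 771459), .ofNat (nat_lit 832432)⟩, ⟨.ofNat (nat_lit 153881), .ofNat (nat_lit 282924), .ofNat (nat_lit 175674), .ofNat (nat_lit 304717), .ofNat (nat_lit 162054), .ofNat (nat_lit 283961), .ofNat (nat_lit 184209), .ofNat (nat_lit 306116)⟩⟩, [⟨nat_lit 7, nat_lit 96, nat_lit 100, nat_lit 82, nat_lit 51625814⟩]⟩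
noncomputable def b_V_800_600_10_16 : St := ⟨true, nat_lit 0, nat_lit 1, nat_lit 1, nat_lit 80, nat_lit 320, nat_lit 360, nat_lit 240, nat_lit 280, nat_lit 320, nat_lit 360, nat_lit 40, nat_lit 80, nat_lit 80, nat_lit 160, nat_lit 0, nat_lit 336, nat_lit 40, nat_lit 80, nat_lit 0, nat_lit 0, nat_lit 0, nat_lit 0⟩
theorem d_V_800_600_10_16 (h : EB TB.env) : Dead b_V_800_600_10_16 := chkB_sound0 h (T :=
(.spl (nat_lit 0) (nat_lit 340)
(.spl (nat_lit 3) (nat_lit 60)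
(.trX (nat_lit 19) (nat_lit 100) (nat_lit 85) (nat_lit 73) (nat_lit 312) (.spl (nat_lit 1) (nat_lit 260)
(.leaf p082_l72)
(.trX (nat_lit 19) (nat_lit 100) (nat_lit 92) (nat_lit 75) (nat_lit 296) (.leaf p082_l73))))
(.spl (nat_lit 1) (nat_lit 260)
(.leaf p082_l74)
(.trX (nat_lit 19) (nat_lit 100) (nat_lit 85) (nat_lit 84) (nat_lit 320) (.leaf p082_l75))))
(.spl (nat_lit 1) (nat_lit 260)
(.spl (nat_lit 2) (nat_lit 340)
(.leaf p082_l76)
(.trX (nat_lit 22) (nat_lit 73) (nat_lit 85) (nat_lit 100) (nat_lit 312) (.spl (nat_lit 3) (nat_lit 60)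
(.spl (nat_lit 0) (nat_lit 350)
(.leaf p082_l77)
(.leaf p082_l78))
(.spl (nat_lit 1) (nat_lit 250)
(.spl (nat_lit 0) (nat_lit 350)
(.leaf p082_l79)
(.leaf p082_l80))
(.spl (nat_lit 1) (nat_lit 255)
(.spl (nat_lit 0) (nat_lit 350)
(.leaf p082_l81)
(.leaf p082_l82))
(.spl (nat_lit 0) (nat_lit 350)
(.leaf p082_l83)
(.leaf p082_l84)))))))
(.trX (nat_lit 19) (nat_lit 100) (nat_lit 85) (nat_lit 84) (nat_lit 320) (.spl (nat_lit 6) (nat_lit 60)
(.leaf p082_l85)
(.spl (nat_lit 3) (nat_lit 60)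
(.trX (nat_lit 19) (nat_lit 100) (nat_lit 92) (nat_lit 75) (nat_lit 296) (.spl (nat_lit 0) (nat_lit 350)
(.leaf p082_l86)
(.leaf p082_l87)))
(.spl (nat_lit 1) (nat_lit 270)
(.spl (nat_lit 0) (nat_lit 350)
(.leaf p082_l88)
(.spl (nat_lit 0) (nat_lit 355)
(.leaf p082_l89)
(.leaf p082_l90)))
(.trX (nat_lit 19) (nat_lit 100) (nat_lit 90) (nat_lit 85) (nat_lit 308) (.leaf p082_l91))))))))) (by decide +kernel)
noncomputable def p082_l92 : Lf2 := ⟨nat_lit 0, nat_lit 15, [nat_lit 30, nat_lit 5, nat_lit 5, nat_lit 20], false, nat_lit 80, nat_lit 160, nat_lit 8, nat_lit 288, ⟨nat_lit 155, nat_lit 845, nat_lit 0, nat_lit 9, nat_lit 340, nat_lit 845, nat_lit 81, nat_lit 0, nat_lit 0, nat_lit 0, nat_lit 0, nat_lit 0, nat_lit 37148400, nat_lit 27032396, nat_lit 2819204, nat_lit 4327539, true, true⟩,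
 nat_lit 0, nat_lit 0, nat_lit 2537, nat_lit 0, nat_lit 3965, nat_lit 1342, nat_lit 337, nat_lit 0, nat_lit 0, nat_lit 100, nat_lit 0, nat_lit 0, nat_lit 0, nat_lit 0, nat_lit 0, nat_lit 211250, nat_lit 0, nat_lit 0, [(nat_lit 19, [(nat_lit 0, nat_lit 845)])],
 ⟨p082_k8, nat_lit 0, nat_lit 0, nat_lit 135, nat_lit 0, nat_lit 0, [nat_lit 1618288000, nat_lit 2577528000, nat_lit 3686892000], [], [nat_lit 26855391225, nat_lit 27324621155, nat_lit 28647264313, nat_lit 29155968374, nat_lit 26818974105, nat_lit 27246604220, nat_lit 28451353705, nat_lit 28842924920], nat_lit 0, nat_lit 0, nat_lit 0, nat_lit 0, nat_lit 0, nat_lit 0, [], [nat_lit 34, nat_lit 40, nat_lit 40, nat_lit 80, nat_lit 7, nat_lit 249, nat_lit 40, nat_lit 7]⟩, ⟨p082_k12, nat_lit 0, nat_lit 0, nat_lit 577, nat_lit 0, nat_lit 762801, [nat_lit 726640000, nat_lit 1235040000, nat_lit 1840160000], [], [nat_lit 6381319432, nat_lit 6388738403, nat_lit 6606474616,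 nat_lit 6643826646, nat_lit 5327188652, nat_lit 5327985741, nat_lit 5447515372, nat_lit 5449727489], nat_lit 1271250, nat_lit 1271250, nat_lit 1271250, nat_lit 1271250, nat_lit 43600, nat_lit 2042100, [nat_lit 1100000, nat_lit 1785000, nat_lit 1271250], [nat_lit 21, nat_lit 40, nat_lit 40, nat_lit 80, nat_lit 14, nat_lit 373, nat_lit 150, nat_lit 9]⟩,
 ⟨nat_lit 4183, nat_lit 4473, ⟨.ofNat (nat_lit 815041), .ofNat (nat_lit 869424), .ofNat (nat_lit 836603), .ofNat (nat_lit 890987), .ofNat (nat_lit 808351), .ofNat (nat_lit 861356), .ofNat (nat_lit 830014), .ofNat (nat_lit 883019)⟩, ⟨.ofNat (nat_lit 123532), .ofNat (nat_lit 259489), .ofNat (nat_lit 145099), .ofNat (nat_lit 281055), .ofNat (nat_lit 127898), .ofNat (nat_lit 260409), .ofNat (nat_lit 149565), .ofNat (nat_lit 282076)⟩⟩, [⟨nat_lit 13, nat_lit 81, nat_lit 42, nat_lit 100, nat_lit 187026835⟩, ⟨nat_lit 22, nat_lit 48, nat_lit 100, nat_lit 92, nat_lit 14611561⟩]⟩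
noncomputable def p082_l93 : Lf2 := ⟨nat_lit 0, nat_lit 15, [nat_lit 30, nat_lit 5, nat_lit 5, nat_lit 20], false, nat_lit 80, nat_lit 160, nat_lit 8, nat_lit 288, ⟨nat_lit 101, nat_lit 899, nat_lit 0, nat_lit 9, nat_lit 334, nat_lit 899, nat_lit 82, nat_lit 0, nat_lit 0, nat_lit 0, nat_lit 0, nat_lit 0, nat_lit 37597489, nat_lit 26504386, nat_lit 2898125, nat_lit 4332695, true, true⟩,
 nat_lit 0, nat_lit 0, nat_lit 1669, nat_lit 0, nat_lit 3545, nat_lit 883, nat_lit 338, nat_lit 0, nat_lit 0, nat_lit 66, nat_lit 0, nat_lit 0, nat_lit 0, nat_lit 0, nat_lit 0, nat_lit 224750, nat_lit 0, nat_lit 0, [(nat_lit 19, [(nat_lit 0, nat_lit 899)])],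
 ⟨p082_k13, nat_lit 0, nat_lit 0, nat_lit 135, nat_lit 0, nat_lit 0, [nat_lit 1591849601, nat_lit 2442657600, nat_lit 3413306400], [], [nat_lit 26702799290, nat_lit 27152540380, nat_lit 27952664243, nat_lit 28433568003, nat_lit 26791379135, nat_lit 27202498630, nat_lit 27933765713, nat_lit 28321757979], nat_lit 0, nat_lit 0, nat_lit 0, nat_lit 0, nat_lit 0, nat_lit 0, [], [nat_lit 34, nat_lit 40, nat_lit 40, nat_lit 80, nat_lit 7, nat_lit 249, nat_lit 40, nat_lit 7]⟩, ⟨p082_k12, nat_lit 0, nat_lit 0, nat_lit 670, nat_lit 0, nat_lit 948787, [nat_lit 473488000, nat_lit 804768000, nat_lit 1199072000], [], [nat_lit 4119494592, nat_lit 4146712915, nat_lit 4245916053, nat_lit 4272080495, nat_lit 3429962051, nat_lit 3435268180, nat_lit 3492720636, nat_lit 3495065843], nat_lit 1271250, nat_lit 1271250, nat_lit 1271250, nat_lit 1271250, nat_lit 43600, nat_lit 2042100, [nat_lit 1100000, nat_lit 1785000, nat_lit 1271250],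 [nat_lit 21, nat_lit 40, nat_lit 40, nat_lit 80, nat_lit 14, nat_lit 373, nat_lit 150, nat_lit 9]⟩,
 ⟨nat_lit 3872, nat_lit 4184, ⟨.ofNat (nat_lit 808354), .ofNat (nat_lit 848108), .ofNat (nat_lit 830019), .ofNat (nat_lit 869774), .ofNat (nat_lit 801671), .ofNat (nat_lit 840384), .ofNat (nat_lit 823463), .ofNat (nat_lit 862177)⟩, ⟨.ofNat (nat_lit 127898), .ofNat (nat_lit 260409), .ofNat (nat_lit 149565), .ofNat (nat_lit 282076), .ofNat (nat_lit 132088), .ofNat (nat_lit 261131), .ofNat (nat_lit 153881), .ofNat (nat_lit 282924)⟩⟩, [⟨nat_lit 13, nat_lit 76, nat_lit 48, nat_lit 100, nat_lit 214107627⟩, ⟨nat_lit 10, nat_lit 90, nat_lit 51, nat_lit 100, nat_lit 8358099⟩]⟩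
noncomputable def p082_l94 : Lf2 := ⟨nat_lit 0, nat_lit 15, [nat_lit 30, nat_lit 5, nat_lit 5, nat_lit 20], false, nat_lit 80, nat_lit 160, nat_lit 8, nat_lit 288, ⟨nat_lit 221, nat_lit 779, nat_lit 0, nat_lit 9, nat_lit 345, nat_lit 779, nat_lit 82, nat_lit 0, nat_lit 0, nat_lit 0, nat_lit 0, nat_lit 0, nat_lit 36698315, nat_lit 27480199, nat_lit 2821486, nat_lit 4338502, true, true⟩,
 nat_lit 0, nat_lit 0, nat_lit 2932, nat_lit 0, nat_lit 4042, nat_lit 1706, nat_lit 353, nat_lit 0, nat_lit 0, nat_lit 204, nat_lit 0, nat_lit 0, nat_lit 0, nat_lit 0, nat_lit 0, nat_lit 194750, nat_lit 0, nat_lit 0, [(nat_lit 19, [(nat_lit 0, nat_lit 779)])],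
 ⟨p082_k8, nat_lit 0, nat_lit 0, nat_lit 138, nat_lit 0, nat_lit 0, [nat_lit 1650601600, nat_lit 2742369600, nat_lit 4021274400], [], [nat_lit 27080263205, nat_lit 28025868973, nat_lit 28888072460, nat_lit 29848292474, nat_lit 27013849349, nat_lit 27875163473, nat_lit 28660008870, nat_lit 29450454468], nat_lit 0, nat_lit 0, nat_lit 0, nat_lit 0, nat_lit 0, nat_lit 0, [], [nat_lit 34, nat_lit 40, nat_lit 40, nat_lit 80, nat_lit 7, nat_lit 249, nat_lit 40, nat_lit 7]⟩, ⟨p082_k9, nat_lit 0, nat_lit 0, nat_lit 648, nat_lit 0, nat_lit 900218, [nat_lit 1036048000, nat_lit 1760928000, nat_lit 2623712000], [], [nat_lit 8177278629, nat_lit 8205680559, nat_lit 8442806394, nat_lit 8473341931, nat_lit 7137702676, nat_lit 7147200436, nat_lit 7307088134, nat_lit 7326869493], nat_lit 1271250, nat_lit 1271250, nat_lit 1271250, nat_lit 1271250, nat_lit 43600, nat_lit 2042100, [nat_lit 1100000, nat_lit 1785000, nat_lit 1271250],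 [nat_lit 21, nat_lit 40, nat_lit 40, nat_lit 80, nat_lit 14, nat_lit 373, nat_lit 150, nat_lit 9]⟩,
 ⟨nat_lit 3872, nat_lit 4473, ⟨.ofNat (nat_lit 836589), .ofNat (nat_lit 890974), .ofNat (nat_lit 847364), .ofNat (nat_lit 901751), .ofNat (nat_lit 823443), .ofNat (nat_lit 875063), .ofNat (nat_lit 834332), .ofNat (nat_lit 885953)⟩, ⟨.ofNat (nat_lit 123532), .ofNat (nat_lit 259489), .ofNat (nat_lit 145099), .ofNat (nat_lit 281055), .ofNat (nat_lit 132088), .ofNat (nat_lit 261131), .ofNat (nat_lit 153881), .ofNat (nat_lit 282924)⟩⟩, [⟨nat_lit 13, nat_lit 75, nat_lit 48, nat_lit 100, nat_lit 146207138⟩, ⟨nat_lit 22, nat_lit 48, nat_lit 100, nat_lit 92, nat_lit 43471491⟩]⟩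
noncomputable def p082_l95 : Lf2 := ⟨nat_lit 0, nat_lit 15, [nat_lit 30, nat_lit 5, nat_lit 5, nat_lit 20], false, nat_lit 80, nat_lit 160, nat_lit 8, nat_lit 288, ⟨nat_lit 373, nat_lit 627, nat_lit 0, nat_lit 9, nat_lit 350, nat_lit 627, nat_lit 82, nat_lit 0, nat_lit 0, nat_lit 0, nat_lit 0, nat_lit 0, nat_lit 36215361, nat_lit 27989542, nat_lit 2795097, nat_lit 4342934, true, true⟩,
 nat_lit 0, nat_lit 0, nat_lit 4138, nat_lit 0, nat_lit 3864, nat_lit 2519, nat_lit 50, nat_lit 0, nat_lit 0, nat_lit 428, nat_lit 0, nat_lit 0, nat_lit 0, nat_lit 0, nat_lit 0, nat_lit 612600, nat_lit 0, nat_lit 0, [(nat_lit 19, [(nat_lit 1, nat_lit 24), (nat_lit 2, nat_lit 603)])],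
 ⟨p082_k8, nat_lit 0, nat_lit 0, nat_lit 139, nat_lit 0, nat_lit 0, [nat_lit 1815787201, nat_lit 2543042000, nat_lit 1761127200], [], [nat_lit 26861376010, nat_lit 27790462666, nat_lit 28853717041, nat_lit 29808531418, nat_lit 26865762891, nat_lit 27712317746, nat_lit 28686033151, nat_lit 29473274854], nat_lit 0, nat_lit 0, nat_lit 0, nat_lit 0, nat_lit 0, nat_lit 0, [], [nat_lit 34, nat_lit 40, nat_lit 40, nat_lit 80, nat_lit 7, nat_lit 249, nat_lit 40, nat_lit 7]⟩, ⟨p082_k30, nat_lit 0, nat_lit 0, nat_lit 652, nat_lit 0, nat_lit 918869, [nat_lit 1748624000, nat_lit 2972064000, nat_lit 4428256000], [], [nat_lit 13251243955, nat_lit 13290442958, nat_lit 13631250576, nat_lit 13662287205, nat_lit 12001914846, nat_lit 12016081464, nat_lit 12247313113, nat_lit 12255710710], nat_lit 1271250, nat_lit 1271250, nat_lit 1271250, nat_lit 1271250, nat_lit 43600, nat_lit 2042100, [nat_lit 1100000, nat_lit 1785000, nat_lit 1271250],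 [nat_lit 21, nat_lit 40, nat_lit 40, nat_lit 80, nat_lit 14, nat_lit 373, nat_lit 150, nat_lit 9]⟩,
 ⟨nat_lit 3872, nat_lit 4473, ⟨.ofNat (nat_lit 847364), .ofNat (nat_lit 908549), .ofNat (nat_lit 858139), .ofNat (nat_lit 919326), .ofNat (nat_lit 834332), .ofNat (nat_lit 892405), .ofNat (nat_lit 845220), .ofNat (nat_lit 903295)⟩, ⟨.ofNat (nat_lit 123532), .ofNat (nat_lit 259489), .ofNat (nat_lit 145099), .ofNat (nat_lit 281055), .ofNat (nat_lit 132088), .ofNat (nat_lit 261131), .ofNat (nat_lit 153881), .ofNat (nat_lit 282924)⟩⟩, [⟨nat_lit 13, nat_lit 76, nat_lit 43, nat_lit 100, nat_lit 10468539⟩, ⟨nat_lit 22, nat_lit 46, nat_lit 100, nat_lit 92, nat_lit 98359573⟩]⟩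
noncomputable def p082_l96 : Lf2 := ⟨nat_lit 0, nat_lit 20, [nat_lit 5, nat_lit 5, nat_lit 5, nat_lit 20], false, nat_lit 80, nat_lit 160, nat_lit 8, nat_lit 288, ⟨nat_lit 223, nat_lit 777, nat_lit 0, nat_lit 9, nat_lit 338, nat_lit 777, nat_lit 91, nat_lit 0, nat_lit 0, nat_lit 0, nat_lit 0, nat_lit 0, nat_lit 36976203, nat_lit 26719400, nat_lit 3304397, nat_lit 4431092, true, true⟩,
 nat_lit 0, nat_lit 0, nat_lit 3507, nat_lit 0, nat_lit 3955, nat_lit 1856, nat_lit 300, nat_lit 0, nat_lit 0, nat_lit 174, nat_lit 0, nat_lit 0, nat_lit 0, nat_lit 0, nat_lit 0, nat_lit 310800, nat_lit 0, nat_lit 0, [(nat_lit 19, [(nat_lit 1, nat_lit 777)])],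
 ⟨p082_k0, nat_lit 0, nat_lit 0, nat_lit 158, nat_lit 0, nat_lit 0, [nat_lit 1539485601, nat_lit 2628639200, nat_lit 3618230000], [], [nat_lit 27241176720, nat_lit 28106196210, nat_lit 28898279937, nat_lit 29693569865, nat_lit 27102495160, nat_lit 27892122420, nat_lit 28614948969, nat_lit 29338241966], nat_lit 0, nat_lit 0, nat_lit 0, nat_lit 0, nat_lit 0, nat_lit 0, [], [nat_lit 27, nat_lit 40, nat_lit 40, nat_lit 80, nat_lit 13, nat_lit 249, nat_lit 40, nat_lit 6]⟩, ⟨p082_k6, nat_lit 0, nat_lit 0, nat_lit 587, nat_lit 0, nat_lit 639959, [nat_lit 1045424000, nat_lit 1776864000, nat_lit 3134934000], [], [nat_lit 9048347266, nat_lit 9096819766, nat_lit 9447174140, nat_lit 9550447584, nat_lit 7650208423, nat_lit 7660249663, nat_lit 7876287767, nat_lit 7910298637], nat_lit 1271250, nat_lit 1271250, nat_lit 1271250, nat_lit 1271250, nat_lit 43600, nat_lit 2042100, [nat_lit 1100000, nat_lit 1785000, nat_lit 1271250],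 [nat_lit 37, nat_lit 40, nat_lit 40, nat_lit 80, nat_lit 28, nat_lit 373, nat_lit 150, nat_lit 8]⟩,
 ⟨nat_lit 3872, nat_lit 4473, ⟨.ofNat (nat_lit 815035), .ofNat (nat_lit 869421), .ofNat (nat_lit 836589), .ofNat (nat_lit 890974), .ofNat (nat_lit 801662), .ofNat (nat_lit 853283), .ofNat (nat_lit 823443), .ofNat (nat_lit 875063)⟩, ⟨.ofNat (nat_lit 145099), .ofNat (nat_lit 281055), .ofNat (nat_lit 166665), .ofNat (nat_lit 302621), .ofNat (nat_lit 153881), .ofNat (nat_lit 282924), .ofNat (nat_lit 175674), .ofNat (nat_lit 304717)⟩⟩, [⟨nat_lit 13, nat_lit 78, nat_lit 45, nat_lit 100, nat_lit 159726090⟩, ⟨nat_lit 10, nat_lit 90, nat_lit 48, nat_lit 100, nat_lit 22500049⟩]⟩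
noncomputable def p082_l97 : Lf2 := ⟨nat_lit 0, nat_lit 20, [nat_lit 5, nat_lit 5, nat_lit 5, nat_lit 20], false, nat_lit 80, nat_lit 160, nat_lit 8, nat_lit 288, ⟨nat_lit 745, nat_lit 255, nat_lit 0, nat_lit 9, nat_lit 348, nat_lit 255, nat_lit 91, nat_lit 0, nat_lit 0, nat_lit 0, nat_lit 0, nat_lit 0, nat_lit 36130350, nat_lit 27619024, nat_lit 3250626, nat_lit 4439724, true, true⟩,
 nat_lit 0, nat_lit 0, nat_lit 8666, nat_lit 0, nat_lit 4785, nat_lit 5044, nat_lit 501, nat_lit 0, nat_lit 0, nat_lit 1320, nat_lit 0, nat_lit 0, nat_lit 0, nat_lit 0, nat_lit 0, nat_lit 255000, nat_lit 0, nat_lit 0, [(nat_lit 19, [(nat_lit 2, nat_lit 255)])],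
 ⟨p082_k0, nat_lit 0, nat_lit 0, nat_lit 160, nat_lit 0, nat_lit 0, [nat_lit 1947000000, nat_lit 3760548000, nat_lit 6528326000], [], [nat_lit 28159732565, nat_lit 29090718795, nat_lit 30287795393, nat_lit 31479293019, nat_lit 27684210445, nat_lit 28529258465, nat_lit 29753066470, nat_lit 30697246251], nat_lit 0, nat_lit 0, nat_lit 0, nat_lit 0, nat_lit 0, nat_lit 0, [], [nat_lit 27, nat_lit 40, nat_lit 40, nat_lit 80, nat_lit 13, nat_lit 249, nat_lit 40, nat_lit 6]⟩, ⟨p082_k10, nat_lit 0, nat_lit 0, nat_lit 556, nat_lit 0, nat_lit 714698, [nat_lit 3492560000, nat_lit 5936160000, nat_lit 8844640000], [], [nat_lit 25914267953, nat_lit 26071190125, nat_lit 26717385314, nat_lit 27306291236, nat_lit 23219817748, nat_lit 23275453148, nat_lit 23985198945, nat_lit 24457167804], nat_lit 1271250, nat_lit 1271250, nat_lit 1271250, nat_lit 1271250, nat_lit 43600, nat_lit 2042100, [nat_lit 1100000, nat_lit 1785000, nat_lit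 1271250], [nat_lit 21, nat_lit 40, nat_lit 40, nat_lit 80, nat_lit 14, nat_lit 373, nat_lit 150, nat_lit 9]⟩,
 ⟨nat_lit 3872, nat_lit 4473, ⟨.ofNat (nat_lit 836589), .ofNat (nat_lit 897773), .ofNat (nat_lit 858139), .ofNat (nat_lit 919326), .ofNat (nat_lit 823443), .ofNat (nat_lit 881516), .ofNat (nat_lit 845220), .ofNat (nat_lit 903295)⟩, ⟨.ofNat (nat_lit 145099), .ofNat (nat_lit 281055), .ofNat (nat_lit 166665), .ofNat (nat_lit 302621), .ofNat (nat_lit 153881), .ofNat (nat_lit 282924), .ofNat (nat_lit 175674), .ofNat (nat_lit 304717)⟩⟩, [⟨nat_lit 10, nat_lit 90, nat_lit 46, nat_lit 100, nat_lit 180021702⟩]⟩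
noncomputable def p082_l98 : Lf2 := ⟨nat_lit 0, nat_lit 15, [nat_lit 30, nat_lit 5, nat_lit 5, nat_lit 20], false, nat_lit 80, nat_lit 160, nat_lit 8, nat_lit 288, ⟨nat_lit 64, nat_lit 936, nat_lit 0, nat_lit 9, nat_lit 329, nat_lit 936, nat_lit 84, nat_lit 0, nat_lit 0, nat_lit 0, nat_lit 0, nat_lit 0, nat_lit 38040116, nat_lit 25963528, nat_lit 2996356, nat_lit 4340532, true, true⟩,
 nat_lit 0, nat_lit 0, nat_lit 1108, nat_lit 0, nat_lit 4100, nat_lit 586, nat_lit 130, nat_lit 0, nat_lit 0, nat_lit 41, nat_lit 0, nat_lit 0, nat_lit 0, nat_lit 0, nat_lit 0, nat_lit 234000, nat_lit 0, nat_lit 0, [(nat_lit 22, [(nat_lit 0, nat_lit 936)])],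
 ⟨p082_k15, nat_lit 0, nat_lit 0, nat_lit 138, nat_lit 0, nat_lit 0, [nat_lit 1597696001, nat_lit 2144700801, nat_lit 3048758400], [], [nat_lit 28292580800, nat_lit 29243569200, nat_lit 29376411500, nat_lit 30273847400, nat_lit 28118457800, nat_lit 28984332000, nat_lit 29106431200, nat_lit 29924941800], nat_lit 0, nat_lit 0, nat_lit 0, nat_lit 0, nat_lit 0, nat_lit 0, [], [nat_lit 34, nat_lit 40, nat_lit 40, nat_lit 80, nat_lit 7, nat_lit 249, nat_lit 40, nat_lit 7]⟩, ⟨p082_k12, nat_lit 0, nat_lit 0, nat_lit 843, nat_lit 0, nat_lit 1349552, [nat_lit 300032000, nat_lit 509952000, nat_lit 759808000], [], [nat_lit 2603033215, nat_lit 2623078941, nat_lit 2674147361, nat_lit 2690901612, nat_lit 2135365577, nat_lit 2126503832, nat_lit 2172840730, nat_lit 2193669642], nat_lit 1271250, nat_lit 1271250, nat_lit 1271250, nat_lit 1271250, nat_lit 43600, nat_lit 2042100, [nat_lit 1100000, nat_lit 1785000, nat_lit 1271250],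 [nat_lit 21, nat_lit 40, nat_lit 40, nat_lit 80, nat_lit 14, nat_lit 373, nat_lit 150, nat_lit 9]⟩,
 ⟨nat_lit 3162, nat_lit 3873, ⟨.ofNat (nat_lit 801671), .ofNat (nat_lit 833932), .ofNat (nat_lit 823465), .ofNat (nat_lit 855725), .ofNat (nat_lit 788122), .ofNat (nat_lit 818598), .ofNat (nat_lit 810277), .ofNat (nat_lit 840753)⟩, ⟨.ofNat (nat_lit 132088), .ofNat (nat_lit 261131), .ofNat (nat_lit 153881), .ofNat (nat_lit 282924), .ofNat (nat_lit 139899), .ofNat (nat_lit 261806), .ofNat (nat_lit 162054), .ofNat (nat_lit 283961)⟩⟩, [⟨nat_lit 13, nat_lit 68, nat_lit 58, nat_lit 100, nat_lit 322699251⟩, ⟨nat_lit 22, nat_lit 53, nat_lit 100, nat_lit 93, nat_lit 5133285⟩]⟩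
noncomputable def p082_l99 : Lf2 := ⟨nat_lit 0, nat_lit 20, [nat_lit 5, nat_lit 5, nat_lit 5, nat_lit 20], false, nat_lit 80, nat_lit 160, nat_lit 8, nat_lit 288, ⟨nat_lit 138, nat_lit 862, nat_lit 0, nat_lit 9, nat_lit 325, nat_lit 862, nat_lit 93, nat_lit 0, nat_lit 0, nat_lit 0, nat_lit 0, nat_lit 0, nat_lit 38035643, nat_lit 25478532, nat_lit 3485825, nat_lit 4436306, true, true⟩,
 nat_lit 0, nat_lit 0, nat_lit 2253, nat_lit 0, nat_lit 4417, nat_lit 1192, nat_lit 168, nat_lit 0, nat_lit 0, nat_lit 97, nat_lit 0, nat_lit 0, nat_lit 0, nat_lit 0, nat_lit 0, nat_lit 215500, nat_lit 0, nat_lit 0, [(nat_lit 22, [(nat_lit 0, nat_lit 862)])],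
 ⟨p082_k7, nat_lit 0, nat_lit 0, nat_lit 137, nat_lit 0, nat_lit 0, [nat_lit 1632032001, nat_lit 2345773600, nat_lit 3437672800], [], [nat_lit 28370343248, nat_lit 29441381244, nat_lit 29329145337, nat_lit 30560813272, nat_lit 28068231498, nat_lit 28962017052, nat_lit 28884772609, nat_lit 29980792680], nat_lit 0, nat_lit 0, nat_lit 0, nat_lit 0, nat_lit 0, nat_lit 0, [], [nat_lit 34, nat_lit 40, nat_lit 40, nat_lit 80, nat_lit 7, nat_lit 249, nat_lit 40, nat_lit 7]⟩, ⟨p082_k6, nat_lit 0, nat_lit 0, nat_lit 737, nat_lit 0, nat_lit 963174, [nat_lit 646944000, nat_lit 1099584000, nat_lit 1940004000], [], [nat_lit 5695938409, nat_lit 5701550872, nat_lit 5825307126, nat_lit 5861255616, nat_lit 4755013926, nat_lit 4751798664, nat_lit 4841777540, nat_lit 4859258417], nat_lit 1271250, nat_lit 1271250, nat_lit 1271250, nat_lit 1271250, nat_lit 43600, nat_lit 2042100, [nat_lit 1100000, nat_lit 1785000, nat_lit 1271250], [nat_lit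 37, nat_lit 40, nat_lit 40, nat_lit 80, nat_lit 28, nat_lit 373, nat_lit 150, nat_lit 8]⟩,
 ⟨nat_lit 3162, nat_lit 3873, ⟨.ofNat (nat_lit 801671), .ofNat (nat_lit 827480), .ofNat (nat_lit 812568), .ofNat (nat_lit 838377), .ofNat (nat_lit 788122), .ofNat (nat_lit 812503), .ofNat (nat_lit 799199), .ofNat (nat_lit 823581)⟩, ⟨.ofNat (nat_lit 153881), .ofNat (nat_lit 282924), .ofNat (nat_lit 175674), .ofNat (nat_lit 304717), .ofNat (nat_lit 162054), .ofNat (nat_lit 283961), .ofNat (nat_lit 184209), .ofNat (nat_lit 306116)⟩⟩, [⟨nat_lit 13, nat_lit 68, nat_lit 60, nat_lit 100, nat_lit 552697555⟩, ⟨nat_lit 22, nat_lit 61, nat_lit 92, nat_lit 100, nat_lit 12770976⟩]⟩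
noncomputable def p082_l100 : Lf2 := ⟨nat_lit 0, nat_lit 20, [nat_lit 5, nat_lit 5, nat_lit 5, nat_lit 20], false, nat_lit 80, nat_lit 160, nat_lit 8, nat_lit 288, ⟨nat_lit 160, nat_lit 840, nat_lit 0, nat_lit 9, nat_lit 331, nat_lit 840, nat_lit 93, nat_lit 0, nat_lit 0, nat_lit 0, nat_lit 0, nat_lit 0, nat_lit 37545958, nat_lit 25999062, nat_lit 3454980, nat_lit 4444994, true, true⟩,
 nat_lit 0, nat_lit 0, nat_lit 2474, nat_lit 0, nat_lit 4289, nat_lit 1374, nat_lit 168, nat_lit 0, nat_lit 0, nat_lit 151, nat_lit 0, nat_lit 0, nat_lit 0, nat_lit 0, nat_lit 0, nat_lit 210000, nat_lit 0, nat_lit 0, [(nat_lit 22, [(nat_lit 0, nat_lit 840)])],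
 ⟨p082_k7, nat_lit 0, nat_lit 0, nat_lit 138, nat_lit 0, nat_lit 0, [nat_lit 1642240001, nat_lit 2405552000, nat_lit 3553296000], [], [nat_lit 28477346416, nat_lit 29445874772, nat_lit 29583760159, nat_lit 30610228526, nat_lit 28226914666, nat_lit 29107648424, nat_lit 29234386062, nat_lit 30067133562], nat_lit 0, nat_lit 0, nat_lit 0, nat_lit 0, nat_lit 0, nat_lit 0, [], [nat_lit 34, nat_lit 40, nat_lit 40, nat_lit 80, nat_lit 7, nat_lit 249, nat_lit 40, nat_lit 7]⟩, ⟨p082_k14, nat_lit 0, nat_lit 0, nat_lit 734, nat_lit 0, nat_lit 962259, [nat_lit 750080000, nat_lit 1274880000, nat_lit 2249280000], [], [nat_lit 6109529213, nat_lit 6155838649, nat_lit 6358862107, nat_lit 6399362868, nat_lit 5045249865, nat_lit 5051735499, nat_lit 5191253161, nat_lit 5210836567], nat_lit 1271250, nat_lit 1271250, nat_lit 1271250, nat_lit 1271250, nat_lit 43600, nat_lit 2042100, [nat_lit 1100000, nat_lit 1785000, nat_lit 1271250],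 [nat_lit 37, nat_lit 40, nat_lit 40, nat_lit 80, nat_lit 28, nat_lit 373, nat_lit 150, nat_lit 8]⟩,
 ⟨nat_lit 3162, nat_lit 3873, ⟨.ofNat (nat_lit 812568), .ofNat (nat_lit 844829), .ofNat (nat_lit 823465), .ofNat (nat_lit 855725), .ofNat (nat_lit 799199), .ofNat (nat_lit 829676), .ofNat (nat_lit 810277), .ofNat (nat_lit 840753)⟩, ⟨.ofNat (nat_lit 153881), .ofNat (nat_lit 282924), .ofNat (nat_lit 175674), .ofNat (nat_lit 304717), .ofNat (nat_lit 162054), .ofNat (nat_lit 283961), .ofNat (nat_lit 184209), .ofNat (nat_lit 306116)⟩⟩, [⟨nat_lit 13, nat_lit 62, nat_lit 65, nat_lit 100, nat_lit 301916205⟩, ⟨nat_lit 22, nat_lit 61, nat_lit 92, nat_lit 100, nat_lit 12337945⟩]⟩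
noncomputable def p082_l101 : Lf2 := ⟨nat_lit 0, nat_lit 15, [nat_lit 30, nat_lit 5, nat_lit 5, nat_lit 20], false, nat_lit 80, nat_lit 160, nat_lit 8, nat_lit 288, ⟨nat_lit 68, nat_lit 932, nat_lit 0, nat_lit 9, nat_lit 341, nat_lit 932, nat_lit 88, nat_lit 0, nat_lit 0, nat_lit 0, nat_lit 0, nat_lit 0, nat_lit 36804401, nat_lit 27054781, nat_lit 3140818, nat_lit 4402628, true, true⟩,
 nat_lit 0, nat_lit 0, nat_lit 912, nat_lit 0, nat_lit 3168, nat_lit 530, nat_lit 164, nat_lit 0, nat_lit 0, nat_lit 56, nat_lit 0, nat_lit 0, nat_lit 0, nat_lit 0, nat_lit 0, nat_lit 372800, nat_lit 0, nat_lit 0, [(nat_lit 22, [(nat_lit 1, nat_lit 932)])],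
 ⟨p082_k15, nat_lit 0, nat_lit 0, nat_lit 139, nat_lit 0, nat_lit 0, [nat_lit 1404204801, nat_lit 1767857601, nat_lit 1846912000], [], [nat_lit 26738060145, nat_lit 27162717328, nat_lit 28091926135, nat_lit 28556001812, nat_lit 27009688945, nat_lit 27387595577, nat_lit 28197778954, nat_lit 28558500217], nat_lit 0, nat_lit 0, nat_lit 0, nat_lit 0, nat_lit 0, nat_lit 0, [], [nat_lit 34, nat_lit 40, nat_lit 40, nat_lit 80, nat_lit 7, nat_lit 249, nat_lit 40, nat_lit 7]⟩, ⟨p082_k9, nat_lit 0, nat_lit 0, nat_lit 737, nat_lit 0, nat_lit 1142953, [nat_lit 318784000, nat_lit 541824000, nat_lit 807296000], [], [nat_lit 2544918834, nat_lit 2562313652, nat_lit 2624906979, nat_lit 2665442192, nat_lit 2219173295, nat_lit 2224852250, nat_lit 2264866905, nat_lit 2268306940], nat_lit 1271250, nat_lit 1271250, nat_lit 1271250, nat_lit 1271250, nat_lit 43600, nat_lit 2042100, [nat_lit 1100000, nat_lit 1785000, nat_lit 1271250], [nat_lit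 21, nat_lit 40, nat_lit 40, nat_lit 80, nat_lit 14, nat_lit 373, nat_lit 150, nat_lit 9]⟩,
 ⟨nat_lit 3535, nat_lit 3873, ⟨.ofNat (nat_lit 823465), .ofNat (nat_lit 868630), .ofNat (nat_lit 845257), .ofNat (nat_lit 890423), .ofNat (nat_lit 816902), .ofNat (nat_lit 860835), .ofNat (nat_lit 838854), .ofNat (nat_lit 882788)⟩, ⟨.ofNat (nat_lit 132088), .ofNat (nat_lit 261131), .ofNat (nat_lit 175674), .ofNat (nat_lit 304717), .ofNat (nat_lit 136093), .ofNat (nat_lit 261616), .ofNat (nat_lit 179999), .ofNat (nat_lit 305521)⟩⟩, [⟨nat_lit 13, nat_lit 74, nat_lit 47, nat_lit 100, nat_lit 205313037⟩, ⟨nat_lit 10, nat_lit 90, nat_lit 49, nat_lit 100, nat_lit 10178312⟩]⟩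
noncomputable def p082_l102 : Lf2 := ⟨nat_lit 0, nat_lit 15, [nat_lit 30, nat_lit 5, nat_lit 5, nat_lit 20], false, nat_lit 80, nat_lit 160, nat_lit 8, nat_lit 288, ⟨nat_lit 64, nat_lit 936, nat_lit 0, nat_lit 9, nat_lit 337, nat_lit 936, nat_lit 89, nat_lit 0, nat_lit 0, nat_lit 0, nat_lit 0, nat_lit 0, nat_lit 37124428, nat_lit 26665173, nat_lit 3210399, nat_lit 4408748, true, true⟩,
 nat_lit 0, nat_lit 0, nat_lit 865, nat_lit 0, nat_lit 3522, nat_lit 503, nat_lit 133, nat_lit 0, nat_lit 0, nat_lit 54, nat_lit 0, nat_lit 0, nat_lit 0, nat_lit 0, nat_lit 0, nat_lit 234000, nat_lit 0, nat_lit 0, [(nat_lit 22, [(nat_lit 0, nat_lit 936)])],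
 ⟨p082_k16, nat_lit 0, nat_lit 0, nat_lit 123, nat_lit 0, nat_lit 0, [nat_lit 1597696001, nat_lit 2144700801, nat_lit 2581628800], [], [nat_lit 27628477646, nat_lit 28108884650, nat_lit 28937124970, nat_lit 29479945597, nat_lit 27719739473, nat_lit 28157952434, nat_lit 28879844692, nat_lit 29290903001], nat_lit 0, nat_lit 0, nat_lit 0, nat_lit 0, nat_lit 0, nat_lit 0, [], [nat_lit 6, nat_lit 40, nat_lit 40, nat_lit 80, nat_lit 3, nat_lit 249, nat_lit 40, nat_lit 8]⟩, ⟨p082_k9, nat_lit 0, nat_lit 0, nat_lit 823, nat_lit 0, nat_lit 1312148, [nat_lit 300032000, nat_lit 509952000, nat_lit 759808000], [], [nat_lit 2373642819, nat_lit 2389945892, nat_lit 2443212484, nat_lit 2482395390, nat_lit 2062224947, nat_lit 2067433436, nat_lit 2099150361, nat_lit 2108786571], nat_lit 1271250, nat_lit 1271250, nat_lit 1271250, nat_lit 1271250, nat_lit 43600, nat_lit 2042100, [nat_lit 1100000, nat_lit 1785000, nat_lit 1271250], [nat_lit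 21, nat_lit 40, nat_lit 40, nat_lit 80, nat_lit 14, nat_lit 373, nat_lit 150, nat_lit 9]⟩,
 ⟨nat_lit 3162, nat_lit 3536, ⟨.ofNat (nat_lit 816902), .ofNat (nat_lit 854559), .ofNat (nat_lit 838855), .ofNat (nat_lit 876512), .ofNat (nat_lit 810277), .ofNat (nat_lit 846849), .ofNat (nat_lit 832432), .ofNat (nat_lit 869004)⟩, ⟨.ofNat (nat_lit 136093), .ofNat (nat_lit 261616), .ofNat (nat_lit 179999), .ofNat (nat_lit 305521), .ofNat (nat_lit 139899), .ofNat (nat_lit 261806), .ofNat (nat_lit 184209), .ofNat (nat_lit 306116)⟩⟩, [⟨nat_lit 13, nat_lit 67, nat_lit 54, nat_lit 100, nat_lit 219834403⟩, ⟨nat_lit 13, nat_lit 72, nat_lit 46, nat_lit 100, nat_lit 58591798⟩, ⟨nat_lit 10, nat_lit 90, nat_lit 51, nat_lit 100, nat_lit 9365806⟩]⟩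
noncomputable def p082_l103 : Lf2 := ⟨nat_lit 0, nat_lit 15, [nat_lit 30, nat_lit 5, nat_lit 5, nat_lit 20], false, nat_lit 80, nat_lit 160, nat_lit 8, nat_lit 288, ⟨nat_lit 117, nat_lit 883, nat_lit 0, nat_lit 9, nat_lit 336, nat_lit 883, nat_lit 84, nat_lit 0, nat_lit 0, nat_lit 0, nat_lit 0, nat_lit 0, nat_lit 37353668, nat_lit 26687194, nat_lit 2959138, nat_lit 4351807, true, true⟩,
 nat_lit 0, nat_lit 0, nat_lit 1603, nat_lit 0, nat_lit 3263, nat_lit 933, nat_lit 170, nat_lit 0, nat_lit 0, nat_lit 79, nat_lit 0, nat_lit 0, nat_lit 0, nat_lit 0, nat_lit 0, nat_lit 353200, nat_lit 0, nat_lit 0, [(nat_lit 22, [(nat_lit 1, nat_lit 883)])],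
 ⟨p082_k15, nat_lit 0, nat_lit 0, nat_lit 140, nat_lit 0, nat_lit 0, [nat_lit 1437211201, nat_lit 1921384400, nat_lit 2164628000], [], [nat_lit 27002083472, nat_lit 27875394924, nat_lit 28182667570, nat_lit 29005184508, nat_lit 27203872855, nat_lit 27966592429, nat_lit 28247849381, nat_lit 28999804865], nat_lit 0, nat_lit 0, nat_lit 0, nat_lit 0, nat_lit 0, nat_lit 0, [], [nat_lit 34, nat_lit 40, nat_lit 40, nat_lit 80, nat_lit 7, nat_lit 249, nat_lit 40, nat_lit 7]⟩, ⟨p082_k9, nat_lit 0, nat_lit 0, nat_lit 662, nat_lit 0, nat_lit 939850, [nat_lit 548496000, nat_lit 932256000, nat_lit 1389024000], [], [nat_lit 4514179578, nat_lit 4523245286, nat_lit 4637778010, nat_lit 4673689650, nat_lit 3846063290, nat_lit 3847135433, nat_lit 3961379871, nat_lit 3980637523], nat_lit 1271250, nat_lit 1271250, nat_lit 1271250, nat_lit 1271250, nat_lit 43600, nat_lit 2042100, [nat_lit 1100000, nat_lit 1785000, nat_lit 1271250], [nat_lit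 21, nat_lit 40, nat_lit 40, nat_lit 80, nat_lit 14, nat_lit 373, nat_lit 150, nat_lit 9]⟩,
 ⟨nat_lit 3162, nat_lit 3873, ⟨.ofNat (nat_lit 823465), .ofNat (nat_lit 862178), .ofNat (nat_lit 834361), .ofNat (nat_lit 873074), .ofNat (nat_lit 810277), .ofNat (nat_lit 846849), .ofNat (nat_lit 821354), .ofNat (nat_lit 857926)⟩, ⟨.ofNat (nat_lit 132088), .ofNat (nat_lit 261131), .ofNat (nat_lit 153881), .ofNat (nat_lit 282924), .ofNat (nat_lit 139899), .ofNat (nat_lit 261806), .ofNat (nat_lit 162054), .ofNat (nat_lit 283961)⟩⟩, [⟨nat_lit 13, nat_lit 63, nat_lit 61, nat_lit 100, nat_lit 287269831⟩, ⟨nat_lit 4, nat_lit 100, nat_lit 67, nat_lit 67, nat_lit 55252844⟩, ⟨nat_lit 19, nat_lit 100, nat_lit 98, nat_lit 70, nat_lit 12166047⟩]⟩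
noncomputable def p082_l104 : Lf2 := ⟨nat_lit 0, nat_lit 15, [nat_lit 30, nat_lit 5, nat_lit 5, nat_lit 20], false, nat_lit 80, nat_lit 160, nat_lit 8, nat_lit 288, ⟨nat_lit 188, nat_lit 812, nat_lit 0, nat_lit 9, nat_lit 344, nat_lit 812, nat_lit 83, nat_lit 0, nat_lit 0, nat_lit 0, nat_lit 0, nat_lit 0, nat_lit 36756729, nat_lit 27339440, nat_lit 2903831, nat_lit 4354714, true, true⟩,
 nat_lit 0, nat_lit 0, nat_lit 2083, nat_lit 0, nat_lit 3284, nat_lit 1268, nat_lit 234, nat_lit 0, nat_lit 0, nat_lit 215, nat_lit 0, nat_lit 0, nat_lit 0, nat_lit 0, nat_lit 0, nat_lit 324800, nat_lit 0, nat_lit 0, [(nat_lit 22, [(nat_lit 1, nat_lit 812)])],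
 ⟨p082_k15, nat_lit 0, nat_lit 0, nat_lit 139, nat_lit 0, nat_lit 0, [nat_lit 1485036801, nat_lit 2143841601, nat_lit 2630561600], [], [nat_lit 26909431296, nat_lit 27347061464, nat_lit 28290292328, nat_lit 28765297306, nat_lit 27134634073, nat_lit 27516757189, nat_lit 28338260078, nat_lit 28713233677], nat_lit 0, nat_lit 0, nat_lit 0, nat_lit 0, nat_lit 0, nat_lit 0, [], [nat_lit 34, nat_lit 40, nat_lit 40, nat_lit 80, nat_lit 7, nat_lit 249, nat_lit 40, nat_lit 7]⟩, ⟨p082_k30, nat_lit 0, nat_lit 0, nat_lit 582, nat_lit 0, nat_lit 795170, [nat_lit 881344000, nat_lit 1497984000, nat_lit 2231936000], [], [nat_lit 6638251699, nat_lit 6658104965, nat_lit 6792338848, nat_lit 6808840872, nat_lit 5951042424, nat_lit 5958149924, nat_lit 6050743269, nat_lit 6055489946], nat_lit 1271250, nat_lit 1271250, nat_lit 1271250, nat_lit 1271250, nat_lit 43600, nat_lit 2042100, [nat_lit 1100000, nat_lit 1785000, nat_lit 1271250],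 [nat_lit 21, nat_lit 40, nat_lit 40, nat_lit 80, nat_lit 14, nat_lit 373, nat_lit 150, nat_lit 9]⟩,
 ⟨nat_lit 3535, nat_lit 3873, ⟨.ofNat (nat_lit 834361), .ofNat (nat_lit 879526), .ofNat (nat_lit 845257), .ofNat (nat_lit 890423), .ofNat (nat_lit 827878), .ofNat (nat_lit 871811), .ofNat (nat_lit 838854), .ofNat (nat_lit 882788)⟩, ⟨.ofNat (nat_lit 132088), .ofNat (nat_lit 261131), .ofNat (nat_lit 153881), .ofNat (nat_lit 282924), .ofNat (nat_lit 136093), .ofNat (nat_lit 261616), .ofNat (nat_lit 158046), .ofNat (nat_lit 283569)⟩⟩, [⟨nat_lit 13, nat_lit 74, nat_lit 45, nat_lit 100, nat_lit 173848711⟩, ⟨nat_lit 4, nat_lit 100, nat_lit 69, nat_lit 66, nat_lit 65237848⟩, ⟨nat_lit 19, nat_lit 98, nat_lit 100, nat_lit 70, nat_lit 29590675⟩]⟩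
noncomputable def p082_l105 : Lf2 := ⟨nat_lit 0, nat_lit 15, [nat_lit 30, nat_lit 5, nat_lit 5, nat_lit 20], false, nat_lit 80, nat_lit 160, nat_lit 8, nat_lit 288, ⟨nat_lit 83, nat_lit 917, nat_lit 0, nat_lit 9, nat_lit 339, nat_lit 917, nat_lit 84, nat_lit 0, nat_lit 0, nat_lit 0, nat_lit 0, nat_lit 0, nat_lit 37078808, nat_lit 26952418, nat_lit 2968774, nat_lit 4360720, true, true⟩,
 nat_lit 0, nat_lit 0, nat_lit 974, nat_lit 0, nat_lit 4085, nat_lit 593, nat_lit 0, nat_lit 0, nat_lit 0, nat_lit 77, nat_lit 0, nat_lit 0, nat_lit 0, nat_lit 0, nat_lit 0, nat_lit 229250, nat_lit 0, nat_lit 0, [(nat_lit 22, [(nat_lit 0, nat_lit 917)])],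
 ⟨p082_k16, nat_lit 0, nat_lit 0, nat_lit 123, nat_lit 0, nat_lit 0, [nat_lit 1606512001, nat_lit 2196327600, nat_lit 2656093600], [], [nat_lit 28681509630, nat_lit 29191576600, nat_lit 30037288816, nat_lit 30512419241, nat_lit 28546539465, nat_lit 29010474220, nat_lit 29781883792, nat_lit 30215022173], nat_lit 0, nat_lit 0, nat_lit 0, nat_lit 0, nat_lit 0, nat_lit 0, [], [nat_lit 6, nat_lit 40, nat_lit 40, nat_lit 80, nat_lit 3, nat_lit 249, nat_lit 40, nat_lit 8]⟩, ⟨p082_k30, nat_lit 0, nat_lit 0, nat_lit 663, nat_lit 0, nat_lit 946980, [nat_lit 389104000, nat_lit 661344000, nat_lit 985376000], [], [nat_lit 2973485217, nat_lit 2981882663, nat_lit 3041479641, nat_lit 3053200576, nat_lit 2632352373, nat_lit 2634889652, nat_lit 2674561178, nat_lit 2677815691], nat_lit 1271250, nat_lit 1271250, nat_lit 1271250, nat_lit 1271250, nat_lit 43600, nat_lit 2042100, [nat_lit 1100000, nat_lit 1785000, nat_lit 1271250], [nat_lit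 21, nat_lit 40, nat_lit 40, nat_lit 80, nat_lit 14, nat_lit 373, nat_lit 150, nat_lit 9]⟩,
 ⟨nat_lit 3162, nat_lit 3536, ⟨.ofNat (nat_lit 827878), .ofNat (nat_lit 865535), .ofNat (nat_lit 838855), .ofNat (nat_lit 876512), .ofNat (nat_lit 821354), .ofNat (nat_lit 857926), .ofNat (nat_lit 832432), .ofNat (nat_lit 869004)⟩, ⟨.ofNat (nat_lit 136093), .ofNat (nat_lit 261616), .ofNat (nat_lit 158046), .ofNat (nat_lit 283569), .ofNat (nat_lit 139899), .ofNat (nat_lit 261806), .ofNat (nat_lit 162054), .ofNat (nat_lit 283961)⟩⟩, [⟨nat_lit 13, nat_lit 68, nat_lit 52, nat_lit 100, nat_lit 304684465⟩, ⟨nat_lit 16, nat_lit 64, nat_lit 100, nat_lit 67, nat_lit 1816118⟩, ⟨nat_lit 19, nat_lit 98, nat_lit 100, nat_lit 70, nat_lit 12057559⟩]⟩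
noncomputable def p082_l106 : Lf2 := ⟨nat_lit 0, nat_lit 20, [nat_lit 5, nat_lit 5, nat_lit 5, nat_lit 20], false, nat_lit 80, nat_lit 160, nat_lit 8, nat_lit 288, ⟨nat_lit 258, nat_lit 742, nat_lit 0, nat_lit 9, nat_lit 336, nat_lit 742, nat_lit 93, nat_lit 0, nat_lit 0, nat_lit 0, nat_lit 0, nat_lit 0, nat_lit 37061114, nat_lit 26514991, nat_lit 3423895, nat_lit 4452177, true, true⟩,
 nat_lit 0, nat_lit 0, nat_lit 3404, nat_lit 0, nat_lit 3388, nat_lit 1981, nat_lit 263, nat_lit 0, nat_lit 0, nat_lit 194, nat_lit 0, nat_lit 0, nat_lit 0, nat_lit 0, nat_lit 0, nat_lit 296800, nat_lit 0, nat_lit 0, [(nat_lit 22, [(nat_lit 1, nat_lit 742)])],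
 ⟨p082_k7, nat_lit 0, nat_lit 0, nat_lit 140, nat_lit 0, nat_lit 0, [nat_lit 1532188801, nat_lit 2363165600, nat_lit 3090685600], [], [nat_lit 27122809072, nat_lit 28007721024, nat_lit 28321316220, nat_lit 29234316308, nat_lit 27274265305, nat_lit 28046072129, nat_lit 28333580831, nat_lit 29107329620], nat_lit 0, nat_lit 0, nat_lit 0, nat_lit 0, nat_lit 0, nat_lit 0, [], [nat_lit 34, nat_lit 40, nat_lit 40, nat_lit 80, nat_lit 7, nat_lit 249, nat_lit 40, nat_lit 7]⟩, ⟨p082_k10, nat_lit 0, nat_lit 0, nat_lit 553, nat_lit 0, nat_lit 707260, [nat_lit 1209504000, nat_lit 2055744000, nat_lit 3062976000], [], [nat_lit 9739229399, nat_lit 9777835033, nat_lit 10004659273, nat_lit 10075254832, nat_lit 8425197152, nat_lit 8440083754, nat_lit 8622345427, nat_lit 8652416424], nat_lit 1271250, nat_lit 1271250, nat_lit 1271250, nat_lit 1271250, nat_lit 43600, nat_lit 2042100, [nat_lit 1100000, nat_lit 1785000, nat_lit 1271250],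 [nat_lit 21, nat_lit 40, nat_lit 40, nat_lit 80, nat_lit 14, nat_lit 373, nat_lit 150, nat_lit 9]⟩,
 ⟨nat_lit 3162, nat_lit 3873, ⟨.ofNat (nat_lit 823465), .ofNat (nat_lit 862178), .ofNat (nat_lit 834361), .ofNat (nat_lit 873074), .ofNat (nat_lit 810277), .ofNat (nat_lit 846849), .ofNat (nat_lit 821354), .ofNat (nat_lit 857926)⟩, ⟨.ofNat (nat_lit 153881), .ofNat (nat_lit 282924), .ofNat (nat_lit 175674), .ofNat (nat_lit 304717), .ofNat (nat_lit 162054), .ofNat (nat_lit 283961), .ofNat (nat_lit 184209), .ofNat (nat_lit 306116)⟩⟩, [⟨nat_lit 13, nat_lit 63, nat_lit 61, nat_lit 100, nat_lit 167617422⟩, ⟨nat_lit 10, nat_lit 90, nat_lit 51, nat_lit 100, nat_lit 41296068⟩]⟩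
noncomputable def p082_l107 : Lf2 := ⟨nat_lit 0, nat_lit 20, [nat_lit 5, nat_lit 5, nat_lit 5, nat_lit 20], false, nat_lit 80, nat_lit 160, nat_lit 8, nat_lit 288, ⟨nat_lit 441, nat_lit 559, nat_lit 0, nat_lit 9, nat_lit 342, nat_lit 559, nat_lit 93, nat_lit 0, nat_lit 0, nat_lit 0, nat_lit 0, nat_lit 0, nat_lit 36581226, nat_lit 27026169, nat_lit 3392605, nat_lit 4457906, true, true⟩,
 nat_lit 0, nat_lit 0, nat_lit 4864, nat_lit 0, nat_lit 3549, nat_lit 2962, nat_lit 366, nat_lit 0, nat_lit 0, nat_lit 521, nat_lit 0, nat_lit 0, nat_lit 0, nat_lit 0, nat_lit 0, nat_lit 223600, nat_lit 0, nat_lit 0, [(nat_lit 22, [(nat_lit 1, nat_lit 559)])],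
 ⟨p082_k7, nat_lit 0, nat_lit 0, nat_lit 141, nat_lit 0, nat_lit 0, [nat_lit 1655457601, nat_lit 2936541200, nat_lit 4293581200], [], [nat_lit 27435297056, nat_lit 28335150452, nat_lit 28860487765, nat_lit 29780894766, nat_lit 27522861843, nat_lit 28306373045, nat_lit 28787222357, nat_lit 29553545442], nat_lit 0, nat_lit 0, nat_lit 0, nat_lit 0, nat_lit 0, nat_lit 0, [], [nat_lit 34, nat_lit 40, nat_lit 40, nat_lit 80, nat_lit 7, nat_lit 249, nat_lit 40, nat_lit 7]⟩, ⟨p082_k11, nat_lit 0, nat_lit 0, nat_lit 559, nat_lit 0, nat_lit 729499, [nat_lit 2067408000, nat_lit 3513888000, nat_lit 5235552000], [], [nat_lit 15456481057, nat_lit 15503189113, nat_lit 15817468755, nat_lit 15856341909, nat_lit 13858566645, nat_lit 13875463483, nat_lit 14121327478, nat_lit 14179993210], nat_lit 1271250, nat_lit 1271250, nat_lit 1271250, nat_lit 1271250, nat_lit 43600, nat_lit 2042100, [nat_lit 1100000, nat_lit 1785000, nat_lit 1271250],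 [nat_lit 21, nat_lit 40, nat_lit 40, nat_lit 80, nat_lit 14, nat_lit 373, nat_lit 150, nat_lit 9]⟩,
 ⟨nat_lit 3162, nat_lit 3873, ⟨.ofNat (nat_lit 834361), .ofNat (nat_lit 879526), .ofNat (nat_lit 845258), .ofNat (nat_lit 890423), .ofNat (nat_lit 821354), .ofNat (nat_lit 864021), .ofNat (nat_lit 832432), .ofNat (nat_lit 875099)⟩, ⟨.ofNat (nat_lit 153881), .ofNat (nat_lit 282924), .ofNat (nat_lit 175674), .ofNat (nat_lit 304717), .ofNat (nat_lit 162054), .ofNat (nat_lit 283961), .ofNat (nat_lit 184209), .ofNat (nat_lit 306116)⟩⟩, [⟨nat_lit 10, nat_lit 90, nat_lit 49, nat_lit 100, nat_lit 100617300⟩]⟩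
noncomputable def b_V_800_600_10_17 : St := ⟨true, nat_lit 0, nat_lit 1, nat_lit 1, nat_lit 80, nat_lit 320, nat_lit 360, nat_lit 240, nat_lit 280, nat_lit 360, nat_lit 396, nat_lit 40, nat_lit 80, nat_lit 80, nat_lit 160, nat_lit 0, nat_lit 336, nat_lit 40, nat_lit 80, nat_lit 0, nat_lit 0, nat_lit 0, nat_lit 0⟩
theorem d_V_800_600_10_17 (h : EB TB.env) : Dead b_V_800_600_10_17 := chkB_sound0 h (T :=
(.trZ (nat_lit 9) (nat_lit 100) (nat_lit 75) (nat_lit 35) (nat_lit 8) (.trX (nat_lit 22) (nat_lit 61) (nat_lit 92) (nat_lit 100) (nat_lit 288) (.spl (nat_lit 0) (nat_lit 340)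
(.spl (nat_lit 3) (nat_lit 60)
(.spl (nat_lit 1) (nat_lit 260)
(.trX (nat_lit 13) (nat_lit 84) (nat_lit 35) (nat_lit 100) (nat_lit 392) (.spl (nat_lit 0) (nat_lit 330)
(.leaf p082_l92)
(.trX (nat_lit 13) (nat_lit 80) (nat_lit 41) (nat_lit 100) (nat_lit 384) (.leaf p082_l93))))
(.spl (nat_lit 1) (nat_lit 270)
(.trX (nat_lit 13) (nat_lit 85) (nat_lit 30) (nat_lit 100) (nat_lit 392) (.leaf p082_l94))
(.leaf p082_l95)))
(.spl (nat_lit 1) (nat_lit 260)
(.trX (nat_lit 13) (nat_lit 84) (nat_lit 35) (nat_lit 100) (nat_lit 392) (.leaf p082_l96))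
(.leaf p082_l97)))
(.trX (nat_lit 13) (nat_lit 78) (nat_lit 39) (nat_lit 100) (nat_lit 388) (.spl (nat_lit 1) (nat_lit 260)
(.trX (nat_lit 13) (nat_lit 75) (nat_lit 48) (nat_lit 100) (nat_lit 380) (.spl (nat_lit 3) (nat_lit 60)
(.leaf p082_l98)
(.spl (nat_lit 1) (nat_lit 250)
(.trX (nat_lit 13) (nat_lit 74) (nat_lit 52) (nat_lit 100) (nat_lit 376) (.leaf p082_l99))
(.leaf p082_l100))))
(.spl (nat_lit 6) (nat_lit 60)
(.spl (nat_lit 0) (nat_lit 350)
(.leaf p082_l101)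
(.trX (nat_lit 13) (nat_lit 72) (nat_lit 46) (nat_lit 100) (nat_lit 384) (.leaf p082_l102)))
(.spl (nat_lit 3) (nat_lit 60)
(.spl (nat_lit 1) (nat_lit 270)
(.trX (nat_lit 13) (nat_lit 76) (nat_lit 43) (nat_lit 100) (nat_lit 384) (.leaf p082_l103))
(.spl (nat_lit 0) (nat_lit 350)
(.leaf p082_l104)
(.trX (nat_lit 13) (nat_lit 72) (nat_lit 46) (nat_lit 100) (nat_lit 384) (.leaf p082_l105))))
(.spl (nat_lit 1) (nat_lit 270)
(.trX (nat_lit 13) (nat_lit 76) (nat_lit 43) (nat_lit 100) (nat_lit 384) (.leaf p082_l106))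
(.leaf p082_l107)))))))))) (by decide +kernel)
noncomputable def p082_l108 : Lf2 := ⟨nat_lit 0, nat_lit 20, [nat_lit 5, nat_lit 5, nat_lit 5, nat_lit 20], false, nat_lit 160, nat_lit 260, nat_lit 0, nat_lit 336, ⟨nat_lit 128, nat_lit 872, nat_lit 0, nat_lit 6, nat_lit 279, nat_lit 872, nat_lit 146, nat_lit 0, nat_lit 0, nat_lit 0, nat_lit 0, nat_lit 0, nat_lit 39631076, nat_lit 20187222, nat_lit 7181702, nat_lit 4880339, true, true⟩,
 nat_lit 0, nat_lit 0, nat_lit 2236, nat_lit 0, nat_lit 3202, nat_lit 1183, nat_lit 0, nat_lit 0, nat_lit 0, nat_lit 121, nat_lit 0, nat_lit 0, nat_lit 0, nat_lit 0, nat_lit 0, nat_lit 218000, nat_lit 0, nat_lit 0, [(nat_lit 19, [(nat_lit 0, nat_lit 872)])],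
 ⟨p082_k0, nat_lit 0, nat_lit 0, nat_lit 51, nat_lit 0, nat_lit 0, [nat_lit 1605068801, nat_lit 2665308800, nat_lit 4053407360], [], [nat_lit 19432215225, nat_lit 20733820545, nat_lit 23248149017, nat_lit 24337320257, nat_lit 22649920797, nat_lit 23741114657, nat_lit 25835475001, nat_lit 26793670817], nat_lit 0, nat_lit 0, nat_lit 0, nat_lit 0, nat_lit 0, nat_lit 0, [], [nat_lit 27, nat_lit 40, nat_lit 40, nat_lit 80, nat_lit 13, nat_lit 373, nat_lit 150, nat_lit 10]⟩, ⟨p082_k6, nat_lit 0, nat_lit 0, nat_lit 830, nat_lit 0, nat_lit 1144375, [nat_lit 600064000, nat_lit 1019904000, nat_lit 1799424000], [], [nat_lit 4761562040, nat_lit 4825886292, nat_lit 4923256004, nat_lit 4960074620, nat_lit 4086261010, nat_lit 4086182432, nat_lit 4113385271, nat_lit 4095975402], nat_lit 1271250, nat_lit 1271250, nat_lit 1271250, nat_lit 1271250, nat_lit 0, nat_lit 2373000, [nat_lit 1100000, nat_lit 1785000, nat_lit 1271250], [nat_lit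 37, nat_lit 40, nat_lit 40, nat_lit 80, nat_lit 28, nat_lit 483, nat_lit 250, nat_lit 11]⟩,
 ⟨nat_lit 3872, nat_lit 4473, ⟨.ofNat (nat_lit 611083), .ofNat (nat_lit 747053), .ofNat (nat_lit 654181), .ofNat (nat_lit 790153), .ofNat (nat_lit 608080), .ofNat (nat_lit 737137), .ofNat (nat_lit 651631), .ofNat (nat_lit 780691)⟩, ⟨.ofNat (nat_lit 259489), .ofNat (nat_lit 429434), .ofNat (nat_lit 302621), .ofNat (nat_lit 472567), .ofNat (nat_lit 261131), .ofNat (nat_lit 422435), .ofNat (nat_lit 304717), .ofNat (nat_lit 466021)⟩⟩, [⟨nat_lit 4, nat_lit 100, nat_lit 76, nat_lit 72, nat_lit 259863933⟩, ⟨nat_lit 19, nat_lit 100, nat_lit 92, nat_lit 75, nat_lit 15069850⟩]⟩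
noncomputable def p082_l109 : Lf2 := ⟨nat_lit 0, nat_lit 20, [nat_lit 5, nat_lit 5, nat_lit 5, nat_lit 20], false, nat_lit 160, nat_lit 232, nat_lit 0, nat_lit 336, ⟨nat_lit 94, nat_lit 906, nat_lit 0, nat_lit 6, nat_lit 277, nat_lit 906, nat_lit 136, nat_lit 0, nat_lit 0, nat_lit 0, nat_lit 0, nat_lit 0, nat_lit 40344321, nat_lit 20141569, nat_lit 6514110, nat_lit 4773905, true, true⟩,
 nat_lit 0, nat_lit 0, nat_lit 1650, nat_lit 0, nat_lit 3870, nat_lit 873, nat_lit 0, nat_lit 0, nat_lit 0, nat_lit 88, nat_lit 0, nat_lit 0, nat_lit 0, nat_lit 0, nat_lit 0, nat_lit 226500, nat_lit 0, nat_lit 0, [(nat_lit 22, [(nat_lit 0, nat_lit 906)])],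
 ⟨p082_k7, nat_lit 0, nat_lit 0, nat_lit 60, nat_lit 0, nat_lit 0, [nat_lit 1611616001, nat_lit 2226216800, nat_lit 3206426400], [], [nat_lit 21705265861, nat_lit 22944950240, nat_lit 25151485760, nat_lit 26224081320, nat_lit 23494995764, nat_lit 24630112364, nat_lit 26566809687, nat_lit 27519106729], nat_lit 0, nat_lit 0, nat_lit 0, nat_lit 0, nat_lit 0, nat_lit 0, [], [nat_lit 34, nat_lit 40, nat_lit 40, nat_lit 80, nat_lit 7, nat_lit 272, nat_lit 60, nat_lit 7]⟩, ⟨p082_k6, nat_lit 0, nat_lit 0, nat_lit 1010, nat_lit 0, nat_lit 1535450, [nat_lit 440672000, nat_lit 748992000, nat_lit 1321452000], [], [nat_lit 3777288864, nat_lit 3773774932, nat_lit 3788660092, nat_lit 3773470996, nat_lit 3125679359, nat_lit 3094528941, nat_lit 3078961741, nat_lit 3040030586], nat_lit 1271250, nat_lit 1271250, nat_lit 1271250, nat_lit 1271250, nat_lit 0, nat_lit 2373000, [nat_lit 1100000, nat_lit 1785000, nat_lit 1271250], [nat_lit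 37, nat_lit 40, nat_lit 40, nat_lit 80, nat_lit 28, nat_lit 483, nat_lit 250, nat_lit 11]⟩,
 ⟨nat_lit 3162, nat_lit 3873, ⟨.ofNat (nat_lit 608082), .ofNat (nat_lit 737150), .ofNat (nat_lit 651611), .ofNat (nat_lit 780717), .ofNat (nat_lit 605237), .ofNat (nat_lit 727168), .ofNat (nat_lit 649490), .ofNat (nat_lit 771459)⟩, ⟨.ofNat (nat_lit 261131), .ofNat (nat_lit 377270), .ofNat (nat_lit 304717), .ofNat (nat_lit 420856), .ofNat (nat_lit 261806), .ofNat (nat_lit 371522), .ofNat (nat_lit 306116), .ofNat (nat_lit 415832)⟩⟩, [⟨nat_lit 4, nat_lit 100, nat_lit 66, nat_lit 72, nat_lit 256651693⟩, ⟨nat_lit 7, nat_lit 92, nat_lit 100, nat_lit 75, nat_lit 9009073⟩]⟩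
noncomputable def p082_l110 : Lf2 := ⟨nat_lit 0, nat_lit 20, [nat_lit 5, nat_lit 5, nat_lit 5, nat_lit 20], false, nat_lit 160, nat_lit 260, nat_lit 16, nat_lit 336, ⟨nat_lit 140, nat_lit 860, nat_lit 0, nat_lit 8, nat_lit 314, nat_lit 860, nat_lit 146, nat_lit 0, nat_lit 0, nat_lit 0, nat_lit 0, nat_lit 0, nat_lit 36787223, nat_lit 23389821, nat_lit 6822956, nat_lit 4969566, true, true⟩,
 nat_lit 0, nat_lit 0, nat_lit 2364, nat_lit 0, nat_lit 4169, nat_lit 1251, nat_lit 0, nat_lit 0, nat_lit 0, nat_lit 126, nat_lit 0, nat_lit 0, nat_lit 0, nat_lit 0, nat_lit 0, nat_lit 215000, nat_lit 0, nat_lit 0, [(nat_lit 19, [(nat_lit 0, nat_lit 860)])],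
 ⟨p082_k0, nat_lit 0, nat_lit 0, nat_lit 67, nat_lit 0, nat_lit 0, [nat_lit 1610944001, nat_lit 2693144000, nat_lit 4131456800], [], [nat_lit 24377665780, nat_lit 25486376952, nat_lit 26595088124, nat_lit 27590203362, nat_lit 26743150078, nat_lit 27672262935, nat_lit 28601836443, nat_lit 29562514387], nat_lit 0, nat_lit 0, nat_lit 0, nat_lit 0, nat_lit 0, nat_lit 0, [], [nat_lit 27, nat_lit 40, nat_lit 40, nat_lit 80, nat_lit 13, nat_lit 289, nat_lit 75, nat_lit 7]⟩, ⟨p082_k6, nat_lit 0, nat_lit 0, nat_lit 735, nat_lit 0, nat_lit 958327, [nat_lit 656320000, nat_lit 1115520000, nat_lit 1968120000], [], [nat_lit 5204658395, nat_lit 5247894912, nat_lit 5406583316, nat_lit 5481283966, nat_lit 4615979866, nat_lit 4621866423, nat_lit 4715134487, nat_lit 4735331656], nat_lit 1271250, nat_lit 1271250, nat_lit 1271250, nat_lit 1271250, nat_lit 88400, nat_lit 2396400, [nat_lit 1100000, nat_lit 1785000, nat_lit 1271250], [nat_lit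 37, nat_lit 40, nat_lit 40, nat_lit 80, nat_lit 28, nat_lit 483, nat_lit 250, nat_lit 11]⟩,
 ⟨nat_lit 3872, nat_lit 4473, ⟨.ofNat (nat_lit 747053), .ofNat (nat_lit 815035), .ofNat (nat_lit 768604), .ofNat (nat_lit 836589), .ofNat (nat_lit 737137), .ofNat (nat_lit 801662), .ofNat (nat_lit 758915), .ofNat (nat_lit 823443)⟩, ⟨.ofNat (nat_lit 259489), .ofNat (nat_lit 429434), .ofNat (nat_lit 302621), .ofNat (nat_lit 472567), .ofNat (nat_lit 261131), .ofNat (nat_lit 422435), .ofNat (nat_lit 304717), .ofNat (nat_lit 466021)⟩⟩, [⟨nat_lit 4, nat_lit 100, nat_lit 76, nat_lit 72, nat_lit 228747740⟩, ⟨nat_lit 19, nat_lit 100, nat_lit 88, nat_lit 74, nat_lit 20723732⟩]⟩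
noncomputable def p082_l111 : Lf2 := ⟨nat_lit 0, nat_lit 20, [nat_lit 5, nat_lit 5, nat_lit 5, nat_lit 20], false, nat_lit 160, nat_lit 232, nat_lit 16, nat_lit 336, ⟨nat_lit 97, nat_lit 903, nat_lit 0, nat_lit 8, nat_lit 310, nat_lit 903, nat_lit 136, nat_lit 0, nat_lit 0, nat_lit 0, nat_lit 0, nat_lit 0, nat_lit 37592758, nat_lit 23194206, nat_lit 6213036, nat_lit 4867347, true, true⟩,
 nat_lit 0, nat_lit 0, nat_lit 1652, nat_lit 0, nat_lit 3680, nat_lit 874, nat_lit 0, nat_lit 0, nat_lit 0, nat_lit 85, nat_lit 0, nat_lit 0, nat_lit 0, nat_lit 0, nat_lit 0, nat_lit 225750, nat_lit 0, nat_lit 0, [(nat_lit 22, [(nat_lit 0, nat_lit 903)])],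
 ⟨p082_k7, nat_lit 0, nat_lit 0, nat_lit 73, nat_lit 0, nat_lit 0, [nat_lit 1613008001, nat_lit 2234368401, nat_lit 3222193200], [], [nat_lit 25262523522, nat_lit 26293185681, nat_lit 27239351041, nat_lit 28185516401, nat_lit 26670744506, nat_lit 27604323394, nat_lit 28448507593, nat_lit 29292691794], nat_lit 0, nat_lit 0, nat_lit 0, nat_lit 0, nat_lit 0, nat_lit 0, [], [nat_lit 34, nat_lit 40, nat_lit 40, nat_lit 80, nat_lit 7, nat_lit 272, nat_lit 60, nat_lit 7]⟩, ⟨p082_k6, nat_lit 0, nat_lit 0, nat_lit 916, nat_lit 0, nat_lit 1369644, [nat_lit 454736000, nat_lit 772896000, nat_lit 1363626000], [], [nat_lit 3886795804, nat_lit 3888920451, nat_lit 3945971072, nat_lit 3944033910, nat_lit 3310641698, nat_lit 3297611844, nat_lit 3328321268, nat_lit 3312570972], nat_lit 1271250, nat_lit 1271250, nat_lit 1271250, nat_lit 1271250, nat_lit 88400, nat_lit 2396400, [nat_lit 1100000, nat_lit 1785000, nat_lit 1271250], [nat_lit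 37, nat_lit 40, nat_lit 40, nat_lit 80, nat_lit 28, nat_lit 483, nat_lit 250, nat_lit 11]⟩,
 ⟨nat_lit 3162, nat_lit 3873, ⟨.ofNat (nat_lit 737150), .ofNat (nat_lit 801671), .ofNat (nat_lit 758943), .ofNat (nat_lit 823465), .ofNat (nat_lit 727168), .ofNat (nat_lit 788122), .ofNat (nat_lit 749323), .ofNat (nat_lit 810277)⟩, ⟨.ofNat (nat_lit 261131), .ofNat (nat_lit 377270), .ofNat (nat_lit 304717), .ofNat (nat_lit 420856), .ofNat (nat_lit 261806), .ofNat (nat_lit 371522), .ofNat (nat_lit 306116), .ofNat (nat_lit 415832)⟩⟩, [⟨nat_lit 4, nat_lit 100, nat_lit 66, nat_lit 72, nat_lit 236138999⟩, ⟨nat_lit 19, nat_lit 100, nat_lit 88, nat_lit 74, nat_lit 11888699⟩]⟩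
noncomputable def p082_l112 : Lf2 := ⟨nat_lit 0, nat_lit 20, [nat_lit 5, nat_lit 5, nat_lit 5, nat_lit 20], false, nat_lit 160, nat_lit 260, nat_lit 16, nat_lit 320, ⟨nat_lit 139, nat_lit 861, nat_lit 0, nat_lit 8, nat_lit 321, nat_lit 861, nat_lit 145, nat_lit 0, nat_lit 0, nat_lit 0, nat_lit 0, nat_lit 0, nat_lit 36317126, nat_lit 23971723, nat_lit 6711151, nat_lit 4972730, true, true⟩,
 nat_lit 0, nat_lit 0, nat_lit 1902, nat_lit 0, nat_lit 3976, nat_lit 1107, nat_lit 0, nat_lit 0, nat_lit 0, nat_lit 116, nat_lit 0, nat_lit 0, nat_lit 0, nat_lit 0, nat_lit 0, nat_lit 215250, nat_lit 0, nat_lit 0, [(nat_lit 19, [(nat_lit 0, nat_lit 861)]), (nat_lit 22, [(nat_lit 0, nat_lit 861)])],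
 ⟨p082_k0, nat_lit 0, nat_lit 0, nat_lit 73, nat_lit 0, nat_lit 0, [nat_lit 1632496001, nat_lit 2690824401, nat_lit 4124952680], [], [nat_lit 24483885521, nat_lit 26654683697, nat_lit 26654683697, nat_lit 28606274801, nat_lit 26850365313, nat_lit 28674164265, nat_lit 28674164265, nat_lit 30320227473], nat_lit 0, nat_lit 0, nat_lit 0, nat_lit 0, nat_lit 0, nat_lit 0, [], [nat_lit 27, nat_lit 40, nat_lit 40, nat_lit 80, nat_lit 13, nat_lit 289, nat_lit 75, nat_lit 7]⟩, ⟨p082_k10, nat_lit 0, nat_lit 0, nat_lit 832, nat_lit 0, nat_lit 1333160, [nat_lit 651632000, nat_lit 1107552000, nat_lit 1650208000], [], [nat_lit 5064657170, nat_lit 5088195913, nat_lit 5189342514, nat_lit 5205940539, nat_lit 4443930242, nat_lit 4443596148, nat_lit 4505265284, nat_lit 4519054496], nat_lit 1271250, nat_lit 1271250, nat_lit 1271250, nat_lit 1271250, nat_lit 88400, nat_lit 2281000, [nat_lit 1100000, nat_lit 1785000, nat_lit 1271250],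 [nat_lit 21, nat_lit 40, nat_lit 40, nat_lit 80, nat_lit 14, nat_lit 373, nat_lit 150, nat_lit 9]⟩,
 ⟨nat_lit 3162, nat_lit 4473, ⟨.ofNat (nat_lit 768554), .ofNat (nat_lit 836574), .ofNat (nat_lit 790054), .ofNat (nat_lit 858073), .ofNat (nat_lit 749245), .ofNat (nat_lit 810240), .ofNat (nat_lit 771333), .ofNat (nat_lit 832328)⟩, ⟨.ofNat (nat_lit 259488), .ofNat (nat_lit 429433), .ofNat (nat_lit 302621), .ofNat (nat_lit 472567), .ofNat (nat_lit 261805), .ofNat (nat_lit 414188), .ofNat (nat_lit 306116), .ofNat (nat_lit 458499)⟩⟩, [⟨nat_lit 4, nat_lit 100, nat_lit 71, nat_lit 71, nat_lit 262460278⟩, ⟨nat_lit 7, nat_lit 97, nat_lit 100, nat_lit 76, nat_lit 19466036⟩]⟩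
noncomputable def p082_l113 : Lf2 := ⟨nat_lit 0, nat_lit 20, [nat_lit 5, nat_lit 5, nat_lit 5, nat_lit 20], false, nat_lit 160, nat_lit 260, nat_lit 48, nat_lit 336, ⟨nat_lit 190, nat_lit 810, nat_lit 0, nat_lit 9, nat_lit 340, nat_lit 810, nat_lit 146, nat_lit 0, nat_lit 0, nat_lit 0, nat_lit 0, nat_lit 0, nat_lit 34829983, nat_lit 25596903, nat_lit 6573114, nat_lit 4998447, true, true⟩,
 nat_lit 0, nat_lit 0, nat_lit 2990, nat_lit 0, nat_lit 4028, nat_lit 1582, nat_lit 0, nat_lit 0, nat_lit 0, nat_lit 156, nat_lit 0, nat_lit 0, nat_lit 0, nat_lit 0, nat_lit 0, nat_lit 202500, nat_lit 0, nat_lit 0, [(nat_lit 19, [(nat_lit 0, nat_lit 810)])],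
 ⟨p082_k0, nat_lit 0, nat_lit 0, nat_lit 77, nat_lit 0, nat_lit 0, [nat_lit 1635424001, nat_lit 2809124001, nat_lit 4456662800], [], [nat_lit 26756301489, nat_lit 27246801917, nat_lit 28624107505, nat_lit 29070773466, nat_lit 28772227493, nat_lit 29185630349, nat_lit 30355301554, nat_lit 30732909752], nat_lit 0, nat_lit 0, nat_lit 0, nat_lit 0, nat_lit 0, nat_lit 0, [], [nat_lit 27, nat_lit 40, nat_lit 40, nat_lit 80, nat_lit 13, nat_lit 289, nat_lit 75, nat_lit 7]⟩, ⟨p082_k6, nat_lit 0, nat_lit 0, nat_lit 602, nat_lit 0, nat_lit 767267, [nat_lit 890720000, nat_lit 1513920000, nat_lit 2671020000], [], [nat_lit 7188232391, nat_lit 7228187562, nat_lit 7432680117, nat_lit 7461601083, nat_lit 6665227151, nat_lit 6688964304, nat_lit 6859606434, nat_lit 6874261630], nat_lit 1271250, nat_lit 1271250, nat_lit 1271250, nat_lit 1271250, nat_lit 279600, nat_lit 2443200, [nat_lit 1100000, nat_lit 1785000, nat_lit 1271250],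 [nat_lit 37, nat_lit 40, nat_lit 40, nat_lit 80, nat_lit 28, nat_lit 373, nat_lit 150, nat_lit 8]⟩,
 ⟨nat_lit 4183, nat_lit 4473, ⟨.ofNat (nat_lit 815041), .ofNat (nat_lit 869424), .ofNat (nat_lit 836603), .ofNat (nat_lit 890987), .ofNat (nat_lit 808351), .ofNat (nat_lit 861356), .ofNat (nat_lit 830014), .ofNat (nat_lit 883019)⟩, ⟨.ofNat (nat_lit 259489), .ofNat (nat_lit 429434), .ofNat (nat_lit 302621), .ofNat (nat_lit 472567), .ofNat (nat_lit 260409), .ofNat (nat_lit 426048), .ofNat (nat_lit 303743), .ofNat (nat_lit 469382)⟩⟩, [⟨nat_lit 13, nat_lit 81, nat_lit 42, nat_lit 100, nat_lit 197651385⟩, ⟨nat_lit 4, nat_lit 100, nat_lit 79, nat_lit 72, nat_lit 208937449⟩, ⟨nat_lit 19, nat_lit 100, nat_lit 88, nat_lit 74, nat_lit 37735025⟩]⟩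
noncomputable def p082_l114 : Lf2 := ⟨nat_lit 0, nat_lit 20, [nat_lit 5, nat_lit 5, nat_lit 5, nat_lit 20], false, nat_lit 160, nat_lit 244, nat_lit 48, nat_lit 336, ⟨nat_lit 143, nat_lit 857, nat_lit 0, nat_lit 9, nat_lit 334, nat_lit 857, nat_lit 140, nat_lit 0, nat_lit 0, nat_lit 0, nat_lit 0, nat_lit 0, nat_lit 35477280, nat_lit 25256546, nat_lit 6266174, nat_lit 4942710, true, true⟩,
 nat_lit 0, nat_lit 0, nat_lit 2324, nat_lit 0, nat_lit 4029, nat_lit 1230, nat_lit 0, nat_lit 0, nat_lit 0, nat_lit 120, nat_lit 0, nat_lit 0, nat_lit 0, nat_lit 0, nat_lit 0, nat_lit 214250, nat_lit 0, nat_lit 0, [(nat_lit 19, [(nat_lit 0, nat_lit 857)])],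
 ⟨p082_k20, nat_lit 0, nat_lit 0, nat_lit 76, nat_lit 0, nat_lit 0, [nat_lit 1612412800, nat_lit 2700102800, nat_lit 4150969160], [], [nat_lit 27137509963, nat_lit 27628060442, nat_lit 28505647077, nat_lit 28963315554, nat_lit 28616084061, nat_lit 29042888706, nat_lit 29812061472, nat_lit 30265988837], nat_lit 0, nat_lit 0, nat_lit 0, nat_lit 0, nat_lit 0, nat_lit 0, [], [nat_lit 27, nat_lit 40, nat_lit 40, nat_lit 80, nat_lit 13, nat_lit 289, nat_lit 75, nat_lit 7]⟩, ⟨p082_k6, nat_lit 0, nat_lit 0, nat_lit 685, nat_lit 0, nat_lit 958327, [nat_lit 670384000, nat_lit 1139424000, nat_lit 2010294000], [], [nat_lit 5432275476, nat_lit 5465402885, nat_lit 5568836070, nat_lit 5595854465, nat_lit 5020824829, nat_lit 5021975121, nat_lit 5097496545, nat_lit 5094649675], nat_lit 1271250, nat_lit 1271250, nat_lit 1271250, nat_lit 1271250, nat_lit 279600, nat_lit 2443200, [nat_lit 1100000, nat_lit 1785000, nat_lit 1271250],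 [nat_lit 37, nat_lit 40, nat_lit 40, nat_lit 80, nat_lit 28, nat_lit 373, nat_lit 150, nat_lit 8]⟩,
 ⟨nat_lit 3872, nat_lit 4184, ⟨.ofNat (nat_lit 808354), .ofNat (nat_lit 848108), .ofNat (nat_lit 830019), .ofNat (nat_lit 869774), .ofNat (nat_lit 801671), .ofNat (nat_lit 840384), .ofNat (nat_lit 823463), .ofNat (nat_lit 862177)⟩, ⟨.ofNat (nat_lit 260409), .ofNat (nat_lit 399546), .ofNat (nat_lit 303743), .ofNat (nat_lit 442879), .ofNat (nat_lit 261131), .ofNat (nat_lit 396626), .ofNat (nat_lit 304717), .ofNat (nat_lit 440213)⟩⟩, [⟨nat_lit 13, nat_lit 80, nat_lit 41, nat_lit 100, nat_lit 216327274⟩, ⟨nat_lit 4, nat_lit 100, nat_lit 74, nat_lit 72, nat_lit 200081803⟩, ⟨nat_lit 7, nat_lit 88, nat_lit 100, nat_lit 74, nat_lit 26955134⟩]⟩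
noncomputable def p082_l115 : Lf2 := ⟨nat_lit 0, nat_lit 20, [nat_lit 5, nat_lit 5, nat_lit 5, nat_lit 20], true, nat_lit 160, nat_lit 232, nat_lit 48, nat_lit 336, ⟨nat_lit 0, nat_lit 1000, nat_lit 0, nat_lit 9, nat_lit 325, nat_lit 1000, nat_lit 136, nat_lit 0, nat_lit 0, nat_lit 0, nat_lit 0, nat_lit 0, nat_lit 36363021, nat_lit 24568933, nat_lit 6068046, nat_lit 4891431, true, true⟩,
 nat_lit 0, nat_lit 0, nat_lit 0, nat_lit 4767, nat_lit 3488, nat_lit 0, nat_lit 0, nat_lit 0, nat_lit 0, nat_lit 0, nat_lit 0, nat_lit 0, nat_lit 0, nat_lit 0, nat_lit 0, nat_lit 250000, nat_lit 0, nat_lit 0, [(nat_lit 22, [(nat_lit 0, nat_lit 1000)])],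
 ⟨p082_k7, nat_lit 0, nat_lit 0, nat_lit 79, nat_lit 0, nat_lit 0, [nat_lit 1568000001, nat_lit 1970800000, nat_lit 2712400000], [], [nat_lit 27036385313, nat_lit 27945103200, nat_lit 27853397821, nat_lit 28785506349, nat_lit 28247372566, nat_lit 29090180797, nat_lit 29001654142, nat_lit 29907079535], nat_lit 0, nat_lit 0, nat_lit 0, nat_lit 0, nat_lit 0, nat_lit 0, [], [nat_lit 34, nat_lit 40, nat_lit 40, nat_lit 80, nat_lit 7, nat_lit 272, nat_lit 60, nat_lit 7]⟩, C1.Rw.none,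
 ⟨nat_lit 3162, nat_lit 3873, ⟨.ofNat (nat_lit 801671), .ofNat (nat_lit 827480), .ofNat (nat_lit 812568), .ofNat (nat_lit 838377), .ofNat (nat_lit 788122), .ofNat (nat_lit 812503), .ofNat (nat_lit 799199), .ofNat (nat_lit 823581)⟩, ⟨.ofNat (nat_lit 261131), .ofNat (nat_lit 377270), .ofNat (nat_lit 304717), .ofNat (nat_lit 420856), .ofNat (nat_lit 261806), .ofNat (nat_lit 371522), .ofNat (nat_lit 306116), .ofNat (nat_lit 415832)⟩⟩, [⟨nat_lit 13, nat_lit 68, nat_lit 60, nat_lit 100, nat_lit 138752843⟩, ⟨nat_lit 13, nat_lit 74, nat_lit 52, nat_lit 100, nat_lit 168259866⟩, ⟨nat_lit 16, nat_lit 72, nat_lit 100, nat_lit 81, nat_lit 157563475⟩]⟩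
noncomputable def p082_l116 : Lf2 := ⟨nat_lit 0, nat_lit 20, [nat_lit 5, nat_lit 5, nat_lit 5, nat_lit 20], false, nat_lit 160, nat_lit 232, nat_lit 48, nat_lit 328, ⟨nat_lit 132, nat_lit 868, nat_lit 0, nat_lit 9, nat_lit 331, nat_lit 868, nat_lit 136, nat_lit 0, nat_lit 0, nat_lit 0, nat_lit 0, nat_lit 0, nat_lit 35918338, nat_lit 25067519, nat_lit 6014143, nat_lit 4897520, true, true⟩,
 nat_lit 0, nat_lit 0, nat_lit 1972, nat_lit 0, nat_lit 3703, nat_lit 1095, nat_lit 0, nat_lit 0, nat_lit 0, nat_lit 114, nat_lit 0, nat_lit 0, nat_lit 0, nat_lit 0, nat_lit 0, nat_lit 217000, nat_lit 0, nat_lit 0, [(nat_lit 22, [(nat_lit 0, nat_lit 868)])],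
 ⟨p082_k7, nat_lit 0, nat_lit 0, nat_lit 80, nat_lit 0, nat_lit 0, [nat_lit 1629248000, nat_lit 2329470400, nat_lit 3406139200], [], [nat_lit 27329376894, nat_lit 28277844600, nat_lit 28400714545, nat_lit 29297721392, nat_lit 28536138374, nat_lit 29382180284, nat_lit 29495587702, nat_lit 30361945501], nat_lit 0, nat_lit 0, nat_lit 0, nat_lit 0, nat_lit 0, nat_lit 0, [], [nat_lit 34, nat_lit 40, nat_lit 40, nat_lit 80, nat_lit 7, nat_lit 272, nat_lit 60, nat_lit 7]⟩, ⟨p082_k14, nat_lit 0, nat_lit 0, nat_lit 818, nat_lit 0, nat_lit 1274359, [nat_lit 618816000, nat_lit 1051776000, nat_lit 1855656000], [], [nat_lit 4971174602, nat_lit 4978002146, nat_lit 5042352220, nat_lit 5047474513, nat_lit 4491622083, nat_lit 4487887176, nat_lit 4530517723, nat_lit 4542044390], nat_lit 1271250, nat_lit 1271250, nat_lit 1271250, nat_lit 1271250, nat_lit 279600, nat_lit 2383100, [nat_lit 1100000, nat_lit 1785000, nat_lit 1271250],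 [nat_lit 37, nat_lit 40, nat_lit 40, nat_lit 80, nat_lit 28, nat_lit 373, nat_lit 150, nat_lit 8]⟩,
 ⟨nat_lit 3162, nat_lit 3873, ⟨.ofNat (nat_lit 812568), .ofNat (nat_lit 844829), .ofNat (nat_lit 823465), .ofNat (nat_lit 855725), .ofNat (nat_lit 799199), .ofNat (nat_lit 829676), .ofNat (nat_lit 810277), .ofNat (nat_lit 840753)⟩, ⟨.ofNat (nat_lit 261131), .ofNat (nat_lit 377270), .ofNat (nat_lit 304717), .ofNat (nat_lit 420856), .ofNat (nat_lit 261806), .ofNat (nat_lit 371522), .ofNat (nat_lit 306116), .ofNat (nat_lit 415832)⟩⟩, [⟨nat_lit 13, nat_lit 69, nat_lit 56, nat_lit 100, nat_lit 216185169⟩, ⟨nat_lit 16, nat_lit 66, nat_lit 100, nat_lit 72, nat_lit 266742525⟩, ⟨nat_lit 22, nat_lit 53, nat_lit 86, nat_lit 100, nat_lit 32859085⟩]⟩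
noncomputable def p082_l117 : Lf2 := ⟨nat_lit 0, nat_lit 20, [nat_lit 5, nat_lit 5, nat_lit 5, nat_lit 20], false, nat_lit 160, nat_lit 260, nat_lit 48, nat_lit 320, ⟨nat_lit 199, nat_lit 801, nat_lit 0, nat_lit 9, nat_lit 345, nat_lit 801, nat_lit 146, nat_lit 0, nat_lit 0, nat_lit 0, nat_lit 0, nat_lit 0, nat_lit 34462670, nat_lit 26034595, nat_lit 6502735, nat_lit 4998050, true, true⟩,
 nat_lit 0, nat_lit 0, nat_lit 2618, nat_lit 0, nat_lit 4003, nat_lit 1523, nat_lit 0, nat_lit 0, nat_lit 0, nat_lit 154, nat_lit 0, nat_lit 0, nat_lit 0, nat_lit 0, nat_lit 0, nat_lit 200250, nat_lit 0, nat_lit 0, [(nat_lit 19, [(nat_lit 0, nat_lit 801)])],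
 ⟨p082_k0, nat_lit 0, nat_lit 0, nat_lit 79, nat_lit 0, nat_lit 0, [nat_lit 1639830401, nat_lit 2830000400, nat_lit 4515199880], [], [nat_lit 26785197988, nat_lit 27763696294, nat_lit 28647517204, nat_lit 29538756696, nat_lit 28802832917, nat_lit 29627824154, nat_lit 30381710138, nat_lit 31135443949], nat_lit 0, nat_lit 0, nat_lit 0, nat_lit 0, nat_lit 0, nat_lit 0, [], [nat_lit 27, nat_lit 40, nat_lit 40, nat_lit 80, nat_lit 13, nat_lit 289, nat_lit 75, nat_lit 7]⟩, ⟨p082_k10, nat_lit 0, nat_lit 0, nat_lit 597, nat_lit 0, nat_lit 910364, [nat_lit 932912000, nat_lit 1585632000, nat_lit 2362528000], [], [nat_lit 7251280223, nat_lit 7266808970, nat_lit 7465912578, nat_lit 7485431437, nat_lit 6731839660, nat_lit 6737736448, nat_lit 6871476395, nat_lit 6873896664], nat_lit 1271250, nat_lit 1271250, nat_lit 1271250, nat_lit 1271250, nat_lit 279600, nat_lit 2323000, [nat_lit 1100000, nat_lit 1785000, nat_lit 1271250],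 [nat_lit 21, nat_lit 40, nat_lit 40, nat_lit 80, nat_lit 14, nat_lit 373, nat_lit 150, nat_lit 9]⟩,
 ⟨nat_lit 3872, nat_lit 4473, ⟨.ofNat (nat_lit 836589), .ofNat (nat_lit 890974), .ofNat (nat_lit 847364), .ofNat (nat_lit 901751), .ofNat (nat_lit 823443), .ofNat (nat_lit 875063), .ofNat (nat_lit 834332), .ofNat (nat_lit 885953)⟩, ⟨.ofNat (nat_lit 259489), .ofNat (nat_lit 429434), .ofNat (nat_lit 302621), .ofNat (nat_lit 472567), .ofNat (nat_lit 261131), .ofNat (nat_lit 422435), .ofNat (nat_lit 304717), .ofNat (nat_lit 466021)⟩⟩, [⟨nat_lit 13, nat_lit 80, nat_lit 39, nat_lit 100, nat_lit 184371760⟩, ⟨nat_lit 4, nat_lit 100, nat_lit 76, nat_lit 72, nat_lit 223822093⟩, ⟨nat_lit 19, nat_lit 100, nat_lit 95, nat_lit 76, nat_lit 36657231⟩]⟩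
noncomputable def p082_l118 : Lf2 := ⟨nat_lit 0, nat_lit 20, [nat_lit 5, nat_lit 5, nat_lit 5, nat_lit 20], false, nat_lit 160, nat_lit 260, nat_lit 48, nat_lit 308, ⟨nat_lit 1000, nat_lit 0, nat_lit 0, nat_lit 0, nat_lit 0, nat_lit 0, nat_lit 0, nat_lit 0, nat_lit 0, nat_lit 0, nat_lit 0, nat_lit 0, nat_lit 0, nat_lit 0, nat_lit 0, nat_lit 0, false, false⟩,
 nat_lit 0, nat_lit 0, nat_lit 10631, nat_lit 0, nat_lit 5480, nat_lit 6474, nat_lit 0, nat_lit 0, nat_lit 0, nat_lit 1243, nat_lit 0, nat_lit 0, nat_lit 0, nat_lit 0, nat_lit 0, nat_lit 0, nat_lit 0, nat_lit 0, [],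
 ⟨p082_k0, nat_lit 0, nat_lit 0, nat_lit 78, nat_lit 0, nat_lit 0, [nat_lit 2032000001, nat_lit 4688000000, nat_lit 9842000000], [], [nat_lit 28169370080, nat_lit 28732544560, nat_lit 30629159360, nat_lit 31129621445, nat_lit 30086041720, nat_lit 30552136930, nat_lit 32141221564, nat_lit 32612438460], nat_lit 0, nat_lit 0, nat_lit 0, nat_lit 0, nat_lit 0, nat_lit 0, [], [nat_lit 27, nat_lit 40, nat_lit 40, nat_lit 80, nat_lit 13, nat_lit 289, nat_lit 75, nat_lit 7]⟩, ⟨p082_k11, nat_lit 0, nat_lit 0, nat_lit 550, nat_lit 0, nat_lit 783023, [nat_lit 4688000000, nat_lit 7968000000, nat_lit 11872000000], [], [nat_lit 33760513581, nat_lit 33894445118, nat_lit 34919758098, nat_lit 35029465636, nat_lit 32337821974, nat_lit 32407728073, nat_lit 33201047338, nat_lit 33261912753], nat_lit 1271250, nat_lit 1271250, nat_lit 1271250, nat_lit 1271250, nat_lit 279600, nat_lit 2232850, [nat_lit 1100000, nat_lit 1785000, nat_lit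 1271250], [nat_lit 21, nat_lit 40, nat_lit 40, nat_lit 80, nat_lit 14, nat_lit 373, nat_lit 150, nat_lit 9]⟩,
 zbF0, [⟨nat_lit 4, nat_lit 100, nat_lit 79, nat_lit 72, nat_lit 499380081⟩, ⟨nat_lit 7, nat_lit 99, nat_lit 100, nat_lit 77, nat_lit 208176943⟩]⟩
noncomputable def p082_l119 : Lf2 := ⟨nat_lit 0, nat_lit 20, [nat_lit 5, nat_lit 5, nat_lit 5, nat_lit 20], false, nat_lit 160, nat_lit 244, nat_lit 48, nat_lit 308, ⟨nat_lit 243, nat_lit 757, nat_lit 0, nat_lit 9, nat_lit 348, nat_lit 757, nat_lit 140, nat_lit 0, nat_lit 0, nat_lit 0, nat_lit 0, nat_lit 0, nat_lit 34450272, nat_lit 26419409, nat_lit 6130319, nat_lit 4949241, true, true⟩,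
 nat_lit 0, nat_lit 0, nat_lit 2677, nat_lit 0, nat_lit 4120, nat_lit 1630, nat_lit 0, nat_lit 0, nat_lit 0, nat_lit 268, nat_lit 0, nat_lit 0, nat_lit 0, nat_lit 0, nat_lit 0, nat_lit 189250, nat_lit 0, nat_lit 0, [(nat_lit 19, [(nat_lit 0, nat_lit 757)])],
 ⟨p082_k20, nat_lit 0, nat_lit 0, nat_lit 79, nat_lit 0, nat_lit 0, [nat_lit 1661372801, nat_lit 2932062801, nat_lit 4801381160], [], [nat_lit 27344831441, nat_lit 27839936561, nat_lit 29188239794, nat_lit 29638755825, nat_lit 28814269603, nat_lit 29244596557, nat_lit 30424363058, nat_lit 30817662644], nat_lit 0, nat_lit 0, nat_lit 0, nat_lit 0, nat_lit 0, nat_lit 0, [], [nat_lit 27, nat_lit 40, nat_lit 40, nat_lit 80, nat_lit 13, nat_lit 289, nat_lit 75, nat_lit 7]⟩, ⟨p082_k11, nat_lit 0, nat_lit 0, nat_lit 605, nat_lit 0, nat_lit 930447, [nat_lit 1139184000, nat_lit 1936224000, nat_lit 2884896000], [], [nat_lit 8368152507, nat_lit 8392820540, nat_lit 8587982052,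 nat_lit 8607888864, nat_lit 7869016227, nat_lit 7881017193, nat_lit 8045816494, nat_lit 8071631799], nat_lit 1271250, nat_lit 1271250, nat_lit 1271250, nat_lit 1271250, nat_lit 279600, nat_lit 2232850, [nat_lit 1100000, nat_lit 1785000, nat_lit 1271250], [nat_lit 21, nat_lit 40, nat_lit 40, nat_lit 80, nat_lit 14, nat_lit 373, nat_lit 150, nat_lit 9]⟩,
 ⟨nat_lit 3872, nat_lit 4184, ⟨.ofNat (nat_lit 840851), .ofNat (nat_lit 893857), .ofNat (nat_lit 851681), .ofNat (nat_lit 904688), .ofNat (nat_lit 834357), .ofNat (nat_lit 885976), .ofNat (nat_lit 845251), .ofNat (nat_lit 896871)⟩, ⟨.ofNat (nat_lit 260409), .ofNat (nat_lit 399546), .ofNat (nat_lit 303743), .ofNat (nat_lit 442879), .ofNat (nat_lit 261131), .ofNat (nat_lit 396626), .ofNat (nat_lit 304717), .ofNat (nat_lit 440213)⟩⟩, [⟨nat_lit 13, nat_lit 80, nat_lit 38, nat_lit 100, nat_lit 187725801⟩, ⟨nat_lit 4, nat_lit 100, nat_lit 74, nat_lit 72, nat_lit 227851849⟩,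 ⟨nat_lit 7, nat_lit 99, nat_lit 100, nat_lit 77, nat_lit 47617599⟩]⟩
noncomputable def p082_l120 : Lf2 := ⟨nat_lit 0, nat_lit 20, [nat_lit 5, nat_lit 5, nat_lit 5, nat_lit 20], false, nat_lit 160, nat_lit 232, nat_lit 48, nat_lit 320, ⟨nat_lit 161, nat_lit 839, nat_lit 0, nat_lit 9, nat_lit 337, nat_lit 839, nat_lit 136, nat_lit 0, nat_lit 0, nat_lit 0, nat_lit 0, nat_lit 0, nat_lit 35442592, nat_lit 25585128, nat_lit 5972280, nat_lit 4904759, true, true⟩,
 nat_lit 0, nat_lit 0, nat_lit 2147, nat_lit 0, nat_lit 3779, nat_lit 1249, nat_lit 0, nat_lit 0, nat_lit 0, nat_lit 130, nat_lit 0, nat_lit 0, nat_lit 0, nat_lit 0, nat_lit 0, nat_lit 209750, nat_lit 0, nat_lit 0, [(nat_lit 22, [(nat_lit 0, nat_lit 839)])],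
 ⟨p082_k7, nat_lit 0, nat_lit 0, nat_lit 79, nat_lit 0, nat_lit 0, [nat_lit 1642704000, nat_lit 2408269200, nat_lit 3558551600], [], [nat_lit 27391402342, nat_lit 27869440071, nat_lit 28688582354, nat_lit 29135276031, nat_lit 28590249668, nat_lit 29016339883, nat_lit 29751599113, nat_lit 30206655372], nat_lit 0, nat_lit 0, nat_lit 0, nat_lit 0, nat_lit 0, nat_lit 0, [], [nat_lit 34, nat_lit 40, nat_lit 40, nat_lit 80, nat_lit 7, nat_lit 272, nat_lit 60, nat_lit 7]⟩, ⟨p082_k10, nat_lit 0, nat_lit 0, nat_lit 672, nat_lit 0, nat_lit 1042715, [nat_lit 754768000, nat_lit 1282848000, nat_lit 1911392000], [], [nat_lit 5760463960, nat_lit 5770368161, nat_lit 5901109761, nat_lit 5909436244, nat_lit 5338056068, nat_lit 5340291566, nat_lit 5422955263, nat_lit 5430112364], nat_lit 1271250, nat_lit 1271250, nat_lit 1271250, nat_lit 1271250, nat_lit 279600, nat_lit 2323000, [nat_lit 1100000, nat_lit 1785000, nat_lit 1271250],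 [nat_lit 21, nat_lit 40, nat_lit 40, nat_lit 80, nat_lit 14, nat_lit 373, nat_lit 150, nat_lit 9]⟩,
 ⟨nat_lit 3535, nat_lit 3873, ⟨.ofNat (nat_lit 823465), .ofNat (nat_lit 862178), .ofNat (nat_lit 828913), .ofNat (nat_lit 867626), .ofNat (nat_lit 816902), .ofNat (nat_lit 854559), .ofNat (nat_lit 822390), .ofNat (nat_lit 860047)⟩, ⟨.ofNat (nat_lit 261131), .ofNat (nat_lit 377270), .ofNat (nat_lit 304717), .ofNat (nat_lit 420856), .ofNat (nat_lit 261616), .ofNat (nat_lit 374587), .ofNat (nat_lit 305521), .ofNat (nat_lit 418492)⟩⟩, [⟨nat_lit 13, nat_lit 73, nat_lit 50, nat_lit 100, nat_lit 228374949⟩, ⟨nat_lit 4, nat_lit 100, nat_lit 69, nat_lit 71, nat_lit 227339360⟩, ⟨nat_lit 7, nat_lit 93, nat_lit 100, nat_lit 75, nat_lit 30481953⟩]⟩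
noncomputable def p082_l121 : Lf2 := ⟨nat_lit 0, nat_lit 20, [nat_lit 5, nat_lit 5, nat_lit 5, nat_lit 20], false, nat_lit 160, nat_lit 216, nat_lit 48, nat_lit 320, ⟨nat_lit 137, nat_lit 863, nat_lit 0, nat_lit 9, nat_lit 331, nat_lit 863, nat_lit 131, nat_lit 0, nat_lit 0, nat_lit 0, nat_lit 0, nat_lit 0, nat_lit 36069510, nat_lit 25244610, nat_lit 5685880, nat_lit 4848707, true, true⟩,
 nat_lit 0, nat_lit 0, nat_lit 1862, nat_lit 0, nat_lit 3701, nat_lit 1083, nat_lit 0, nat_lit 0, nat_lit 0, nat_lit 110, nat_lit 0, nat_lit 0, nat_lit 0, nat_lit 0, nat_lit 0, nat_lit 215750, nat_lit 0, nat_lit 0, [(nat_lit 22, [(nat_lit 0, nat_lit 863)])],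
 ⟨p082_k17, nat_lit 0, nat_lit 0, nat_lit 79, nat_lit 0, nat_lit 0, [nat_lit 1631568001, nat_lit 2343056401, nat_lit 3432417200], [], [nat_lit 27817538050, nat_lit 28291671801, nat_lit 28653828963, nat_lit 29107386573, nat_lit 28716475080, nat_lit 29150791613, nat_lit 29485285085, nat_lit 29907919220], nat_lit 0, nat_lit 0, nat_lit 0, nat_lit 0, nat_lit 0, nat_lit 0, [], [nat_lit 34, nat_lit 40, nat_lit 40, nat_lit 80, nat_lit 7, nat_lit 272, nat_lit 60, nat_lit 7]⟩, ⟨p082_k10, nat_lit 0, nat_lit 0, nat_lit 740, nat_lit 0, nat_lit 1222850, [nat_lit 642256000, nat_lit 1091616000, nat_lit 1626464000], [], [nat_lit 4990975001, nat_lit 4994902525, nat_lit 5047933335, nat_lit 5051180445, nat_lit 4520509960, nat_lit 4519365969, nat_lit 4553008394, nat_lit 4558943277], nat_lit 1271250, nat_lit 1271250, nat_lit 1271250, nat_lit 1271250, nat_lit 279600, nat_lit 2323000, [nat_lit 1100000, nat_lit 1785000, nat_lit 1271250],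 [nat_lit 21, nat_lit 40, nat_lit 40, nat_lit 80, nat_lit 14, nat_lit 373, nat_lit 150, nat_lit 9]⟩,
 ⟨nat_lit 3162, nat_lit 3536, ⟨.ofNat (nat_lit 816902), .ofNat (nat_lit 842007), .ofNat (nat_lit 822390), .ofNat (nat_lit 847495), .ofNat (nat_lit 810277), .ofNat (nat_lit 834658), .ofNat (nat_lit 815815), .ofNat (nat_lit 840197)⟩, ⟨.ofNat (nat_lit 261616), .ofNat (nat_lit 349482), .ofNat (nat_lit 305521), .ofNat (nat_lit 393387), .ofNat (nat_lit 261806), .ofNat (nat_lit 347141), .ofNat (nat_lit 306116), .ofNat (nat_lit 391450)⟩⟩, [⟨nat_lit 13, nat_lit 67, nat_lit 57, nat_lit 100, nat_lit 227849011⟩, ⟨nat_lit 4, nat_lit 100, nat_lit 63, nat_lit 72, nat_lit 287053487⟩, ⟨nat_lit 22, nat_lit 54, nat_lit 87, nat_lit 100, nat_lit 33661399⟩]⟩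
noncomputable def p082_l122 : Lf2 := ⟨nat_lit 0, nat_lit 20, [nat_lit 5, nat_lit 5, nat_lit 5, nat_lit 20], false, nat_lit 160, nat_lit 232, nat_lit 48, nat_lit 316, ⟨nat_lit 184, nat_lit 816, nat_lit 0, nat_lit 9, nat_lit 339, nat_lit 816, nat_lit 136, nat_lit 0, nat_lit 0, nat_lit 0, nat_lit 0, nat_lit 0, nat_lit 35273342, nat_lit 25775458, nat_lit 5951200, nat_lit 4906163, true, true⟩,
 nat_lit 0, nat_lit 0, nat_lit 2241, nat_lit 0, nat_lit 3827, nat_lit 1334, nat_lit 0, nat_lit 0, nat_lit 0, nat_lit 178, nat_lit 0, nat_lit 0, nat_lit 0, nat_lit 0, nat_lit 0, nat_lit 204000, nat_lit 0, nat_lit 0, [(nat_lit 22, [(nat_lit 0, nat_lit 816)])],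
 ⟨p082_k7, nat_lit 0, nat_lit 0, nat_lit 79, nat_lit 0, nat_lit 0, [nat_lit 1653376001, nat_lit 2470764800, nat_lit 3679430400], [], [nat_lit 27443304246, nat_lit 27923744423, nat_lit 28747794677, nat_lit 29196595516, nat_lit 28637153159, nat_lit 29065181854, nat_lit 29804466897, nat_lit 30261640416], nat_lit 0, nat_lit 0, nat_lit 0, nat_lit 0, nat_lit 0, nat_lit 0, [], [nat_lit 34, nat_lit 40, nat_lit 40, nat_lit 80, nat_lit 7, nat_lit 272, nat_lit 60, nat_lit 7]⟩, ⟨p082_k35, nat_lit 0, nat_lit 0, nat_lit 672, nat_lit 0, nat_lit 1044697, [nat_lit 862592000, nat_lit 1466112000, nat_lit 2184448000], [], [nat_lit 6493409726, nat_lit 6499565479, nat_lit 6600550246, nat_lit 6605485242, nat_lit 6005671192, nat_lit 6007771396, nat_lit 6100193593, nat_lit 6107562411], nat_lit 1271250, nat_lit 1271250, nat_lit 1271250, nat_lit 1271250, nat_lit 279600, nat_lit 2292950, [nat_lit 1100000, nat_lit 1785000, nat_lit 1271250],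 [nat_lit 21, nat_lit 40, nat_lit 40, nat_lit 80, nat_lit 14, nat_lit 373, nat_lit 150, nat_lit 9]⟩,
 ⟨nat_lit 3535, nat_lit 3873, ⟨.ofNat (nat_lit 828913), .ofNat (nat_lit 867626), .ofNat (nat_lit 834361), .ofNat (nat_lit 873074), .ofNat (nat_lit 822390), .ofNat (nat_lit 860047), .ofNat (nat_lit 827878), .ofNat (nat_lit 865535)⟩, ⟨.ofNat (nat_lit 261131), .ofNat (nat_lit 377270), .ofNat (nat_lit 304717), .ofNat (nat_lit 420856), .ofNat (nat_lit 261616), .ofNat (nat_lit 374587), .ofNat (nat_lit 305521), .ofNat (nat_lit 418492)⟩⟩, [⟨nat_lit 13, nat_lit 73, nat_lit 48, nat_lit 100, nat_lit 220984800⟩, ⟨nat_lit 4, nat_lit 100, nat_lit 69, nat_lit 71, nat_lit 236294460⟩, ⟨nat_lit 7, nat_lit 96, nat_lit 100, nat_lit 76, nat_lit 35181826⟩]⟩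
noncomputable def p082_l123 : Lf2 := ⟨nat_lit 0, nat_lit 20, [nat_lit 5, nat_lit 5, nat_lit 5, nat_lit 20], false, nat_lit 160, nat_lit 216, nat_lit 48, nat_lit 316, ⟨nat_lit 154, nat_lit 846, nat_lit 0, nat_lit 9, nat_lit 335, nat_lit 846, nat_lit 131, nat_lit 0, nat_lit 0, nat_lit 0, nat_lit 0, nat_lit 0, nat_lit 35797540, nat_lit 25547808, nat_lit 5654652, nat_lit 4851766, true, true⟩,
 nat_lit 0, nat_lit 0, nat_lit 1936, nat_lit 0, nat_lit 3748, nat_lit 1152, nat_lit 0, nat_lit 0, nat_lit 0, nat_lit 128, nat_lit 0, nat_lit 0, nat_lit 0, nat_lit 0, nat_lit 0, nat_lit 211500, nat_lit 0, nat_lit 0, [(nat_lit 22, [(nat_lit 0, nat_lit 846)])],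
 ⟨p082_k17, nat_lit 0, nat_lit 0, nat_lit 80, nat_lit 0, nat_lit 0, [nat_lit 1639456001, nat_lit 2389248800, nat_lit 3521762400], [], [nat_lit 27855709852, nat_lit 28332196000, nat_lit 28906797646, nat_lit 29357322672, nat_lit 28750486874, nat_lit 29186802458, nat_lit 29716467838, nat_lit 30179110566], nat_lit 0, nat_lit 0, nat_lit 0, nat_lit 0, nat_lit 0, nat_lit 0, [], [nat_lit 34, nat_lit 40, nat_lit 40, nat_lit 80, nat_lit 7, nat_lit 272, nat_lit 60, nat_lit 7]⟩, ⟨p082_k35, nat_lit 0, nat_lit 0, nat_lit 737, nat_lit 0, nat_lit 1216652, [nat_lit 721952000, nat_lit 1227072000, nat_lit 1828288000], [], [nat_lit 5424163910, nat_lit 5433819774, nat_lit 5533421437, nat_lit 5541856839, nat_lit 5046018448, nat_lit 5048673495, nat_lit 5113249741, nat_lit 5115073085], nat_lit 1271250, nat_lit 1271250, nat_lit 1271250, nat_lit 1271250, nat_lit 279600, nat_lit 2292950, [nat_lit 1100000, nat_lit 1785000, nat_lit 1271250],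 [nat_lit 21, nat_lit 40, nat_lit 40, nat_lit 80, nat_lit 14, nat_lit 373, nat_lit 150, nat_lit 9]⟩,
 ⟨nat_lit 3162, nat_lit 3536, ⟨.ofNat (nat_lit 822390), .ofNat (nat_lit 853771), .ofNat (nat_lit 827878), .ofNat (nat_lit 859259), .ofNat (nat_lit 815815), .ofNat (nat_lit 846292), .ofNat (nat_lit 821354), .ofNat (nat_lit 851831)⟩, ⟨.ofNat (nat_lit 261616), .ofNat (nat_lit 349482), .ofNat (nat_lit 305521), .ofNat (nat_lit 393387), .ofNat (nat_lit 261806), .ofNat (nat_lit 347141), .ofNat (nat_lit 306116), .ofNat (nat_lit 391450)⟩⟩, [⟨nat_lit 13, nat_lit 67, nat_lit 55, nat_lit 100, nat_lit 228348150⟩, ⟨nat_lit 16, nat_lit 63, nat_lit 100, nat_lit 72, nat_lit 219074842⟩, ⟨nat_lit 16, nat_lit 66, nat_lit 100, nat_lit 80, nat_lit 78823953⟩, ⟨nat_lit 22, nat_lit 53, nat_lit 88, nat_lit 100, nat_lit 41805230⟩]⟩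
noncomputable def p082_l124 : Lf2 := ⟨nat_lit 0, nat_lit 20, [nat_lit 5, nat_lit 5, nat_lit 5, nat_lit 20], false, nat_lit 160, nat_lit 232, nat_lit 48, nat_lit 308, ⟨nat_lit 184, nat_lit 816, nat_lit 0, nat_lit 9, nat_lit 341, nat_lit 816, nat_lit 136, nat_lit 0, nat_lit 0, nat_lit 0, nat_lit 0, nat_lit 0, nat_lit 35125917, nat_lit 25957863, nat_lit 5916220, nat_lit 4904957, true, true⟩,
 nat_lit 0, nat_lit 0, nat_lit 2128, nat_lit 0, nat_lit 4448, nat_lit 1296, nat_lit 0, nat_lit 0, nat_lit 0, nat_lit 213, nat_lit 0, nat_lit 0, nat_lit 0, nat_lit 0, nat_lit 0, nat_lit 204000, nat_lit 0, nat_lit 0, [(nat_lit 22, [(nat_lit 0, nat_lit 816)])],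
 ⟨p082_k18, nat_lit 0, nat_lit 0, nat_lit 96, nat_lit 0, nat_lit 0, [nat_lit 1653376001, nat_lit 3051932800, nat_lit 3679430400], [], [nat_lit 28367063168, nat_lit 29327532256, nat_lit 29902899008, nat_lit 30787421863, nat_lit 29396341328, nat_lit 30247840202, nat_lit 30765328422, nat_lit 31684703336], nat_lit 0, nat_lit 0, nat_lit 0, nat_lit 0, nat_lit 0, nat_lit 0, [], [nat_lit 102, nat_lit 40, nat_lit 40, nat_lit 80, nat_lit 2, nat_lit 272, nat_lit 60, nat_lit 7]⟩, ⟨p082_k36, nat_lit 0, nat_lit 0, nat_lit 741, nat_lit 0, nat_lit 1211727, [nat_lit 862592000, nat_lit 1810928000, nat_lit 2184448000], [], [nat_lit 6402095282, nat_lit 6407728174, nat_lit 6582662451, nat_lit 6592499877, nat_lit 5918334855, nat_lit 5922421035, nat_lit 6091110264, nat_lit 6107987550], nat_lit 1271250, nat_lit 1271250, nat_lit 1271250, nat_lit 1271250, nat_lit 279600, nat_lit 2232850, [nat_lit 1100000, nat_lit 2127500, nat_lit 1271250],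 [nat_lit 125, nat_lit 40, nat_lit 40, nat_lit 80, nat_lit 41, nat_lit 373, nat_lit 150, nat_lit 9]⟩,
 ⟨nat_lit 3162, nat_lit 3873, ⟨.ofNat (nat_lit 834361), .ofNat (nat_lit 879526), .ofNat (nat_lit 839810), .ofNat (nat_lit 884975), .ofNat (nat_lit 821354), .ofNat (nat_lit 864021), .ofNat (nat_lit 826893), .ofNat (nat_lit 869560)⟩, ⟨.ofNat (nat_lit 261131), .ofNat (nat_lit 377270), .ofNat (nat_lit 304717), .ofNat (nat_lit 420856), .ofNat (nat_lit 261806), .ofNat (nat_lit 371522), .ofNat (nat_lit 306116), .ofNat (nat_lit 415832)⟩⟩, [⟨nat_lit 13, nat_lit 71, nat_lit 49, nat_lit 100, nat_lit 272201871⟩, ⟨nat_lit 4, nat_lit 100, nat_lit 66, nat_lit 72, nat_lit 239177633⟩, ⟨nat_lit 7, nat_lit 98, nat_lit 100, nat_lit 77, nat_lit 34239473⟩]⟩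
noncomputable def p082_l125 : Lf2 := ⟨nat_lit 0, nat_lit 20, [nat_lit 5, nat_lit 5, nat_lit 5, nat_lit 20], false, nat_lit 160, nat_lit 232, nat_lit 48, nat_lit 304, ⟨nat_lit 186, nat_lit 814, nat_lit 0, nat_lit 9, nat_lit 343, nat_lit 814, nat_lit 136, nat_lit 0, nat_lit 0, nat_lit 0, nat_lit 0, nat_lit 0, nat_lit 34957004, nat_lit 26147951, nat_lit 5895045, nat_lit 4905981, true, true⟩,
 nat_lit 0, nat_lit 0, nat_lit 2095, nat_lit 0, nat_lit 4451, nat_lit 1304, nat_lit 0, nat_lit 0, nat_lit 0, nat_lit 181, nat_lit 0, nat_lit 0, nat_lit 0, nat_lit 0, nat_lit 0, nat_lit 203500, nat_lit 0, nat_lit 0, [(nat_lit 22, [(nat_lit 0, nat_lit 814)])],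
 ⟨p082_k18, nat_lit 0, nat_lit 0, nat_lit 96, nat_lit 0, nat_lit 0, [nat_lit 1654304001, nat_lit 3059771200, nat_lit 3689941600], [], [nat_lit 28373981066, nat_lit 29334719572, nat_lit 29910301796, nat_lit 30794327619, nat_lit 29402904311, nat_lit 30254618760, nat_lit 30772292927, nat_lit 31688343804], nat_lit 0, nat_lit 0, nat_lit 0, nat_lit 0, nat_lit 0, nat_lit 0, [], [nat_lit 102, nat_lit 40, nat_lit 40, nat_lit 80, nat_lit 2, nat_lit 272, nat_lit 60, nat_lit 7]⟩, ⟨p082_k37, nat_lit 0, nat_lit 0, nat_lit 738, nat_lit 0, nat_lit 1207819, [nat_lit 871968000, nat_lit 1830612000, nat_lit 2208192000], [], [nat_lit 6511013842, nat_lit 6516918837, nat_lit 6625854770, nat_lit 6630445479, nat_lit 6047550810, nat_lit 6047994930, nat_lit 6187473428, nat_lit 6196419016], nat_lit 1271250, nat_lit 1271250, nat_lit 1271250, nat_lit 1271250, nat_lit 279600, nat_lit 2202800, [nat_lit 1100000, nat_lit 2127500, nat_lit 1271250],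 [nat_lit 125, nat_lit 40, nat_lit 40, nat_lit 80, nat_lit 41, nat_lit 373, nat_lit 150, nat_lit 9]⟩,
 ⟨nat_lit 3162, nat_lit 3873, ⟨.ofNat (nat_lit 839810), .ofNat (nat_lit 884975), .ofNat (nat_lit 845258), .ofNat (nat_lit 890423), .ofNat (nat_lit 826893), .ofNat (nat_lit 869560), .ofNat (nat_lit 832432), .ofNat (nat_lit 875099)⟩, ⟨.ofNat (nat_lit 261131), .ofNat (nat_lit 377270), .ofNat (nat_lit 304717), .ofNat (nat_lit 420856), .ofNat (nat_lit 261806), .ofNat (nat_lit 371522), .ofNat (nat_lit 306116), .ofNat (nat_lit 415832)⟩⟩, [⟨nat_lit 13, nat_lit 72, nat_lit 47, nat_lit 100, nat_lit 281376312⟩, ⟨nat_lit 4, nat_lit 100, nat_lit 66, nat_lit 72, nat_lit 250198531⟩, ⟨nat_lit 7, nat_lit 100, nat_lit 100, nat_lit 77, nat_lit 34644475⟩]⟩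
noncomputable def b_V_800_600_10_18 : St := ⟨true, nat_lit 0, nat_lit 1, nat_lit 1, nat_lit 80, nat_lit 320, nat_lit 360, nat_lit 240, nat_lit 280, nat_lit 240, nat_lit 396, nat_lit 40, nat_lit 80, nat_lit 160, nat_lit 260, nat_lit 0, nat_lit 336, nat_lit 40, nat_lit 80, nat_lit 0, nat_lit 0, nat_lit 0, nat_lit 0⟩
theorem d_V_800_600_10_18 (h : EB TB.env) : Dead b_V_800_600_10_18 := chkB_sound0 h (T :=
(.spl (nat_lit 2) (nat_lit 320)
(.spl (nat_lit 0) (nat_lit 340)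
(.leaf p082_l108)
(.trX (nat_lit 16) (nat_lit 72) (nat_lit 100) (nat_lit 81) (nat_lit 232) (.leaf p082_l109)))
(.trZ (nat_lit 9) (nat_lit 100) (nat_lit 82) (nat_lit 44) (nat_lit 16) (.spl (nat_lit 2) (nat_lit 360)
(.spl (nat_lit 1) (nat_lit 260)
(.spl (nat_lit 0) (nat_lit 340)
(.leaf p082_l110)
(.trX (nat_lit 16) (nat_lit 72) (nat_lit 100) (nat_lit 81) (nat_lit 232) (.leaf p082_l111)))
(.trX (nat_lit 19) (nat_lit 100) (nat_lit 85) (nat_lit 84) (nat_lit 320) (.leaf p082_l112)))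
(.trZ (nat_lit 9) (nat_lit 100) (nat_lit 61) (nat_lit 68) (nat_lit 48) (.spl (nat_lit 1) (nat_lit 260)
(.trX (nat_lit 13) (nat_lit 84) (nat_lit 35) (nat_lit 100) (nat_lit 392) (.spl (nat_lit 0) (nat_lit 340)
(.spl (nat_lit 0) (nat_lit 330)
(.leaf p082_l113)
(.trX (nat_lit 13) (nat_lit 80) (nat_lit 41) (nat_lit 100) (nat_lit 384) (.trX (nat_lit 16) (nat_lit 78) (nat_lit 100) (nat_lit 82) (nat_lit 244) (.leaf p082_l114))))
(.trX (nat_lit 13) (nat_lit 75) (nat_lit 48) (nat_lit 100) (nat_lit 380) (.trX (nat_lit 16) (nat_lit 72) (nat_lit 100) (nat_lit 81) (nat_lit 232) (.spl (nat_lit 1) (nat_lit 250)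
(.trX (nat_lit 13) (nat_lit 74) (nat_lit 52) (nat_lit 100) (nat_lit 376) (.leaf p082_l115))
(.trX (nat_lit 19) (nat_lit 100) (nat_lit 81) (nat_lit 83) (nat_lit 328) (.leaf p082_l116)))))))
(.trX (nat_lit 19) (nat_lit 100) (nat_lit 85) (nat_lit 84) (nat_lit 320) (.spl (nat_lit 0) (nat_lit 340)
(.spl (nat_lit 1) (nat_lit 270)
(.trX (nat_lit 13) (nat_lit 85) (nat_lit 30) (nat_lit 100) (nat_lit 392) (.leaf p082_l117))
(.trX (nat_lit 19) (nat_lit 100) (nat_lit 90) (nat_lit 85) (nat_lit 308) (.spl (nat_lit 0) (nat_lit 330)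
(.leaf p082_l118)
(.trX (nat_lit 13) (nat_lit 83) (nat_lit 32) (nat_lit 100) (nat_lit 392) (.trX (nat_lit 16) (nat_lit 78) (nat_lit 100) (nat_lit 82) (nat_lit 244) (.leaf p082_l119))))))
(.trX (nat_lit 13) (nat_lit 78) (nat_lit 39) (nat_lit 100) (nat_lit 388) (.trX (nat_lit 16) (nat_lit 72) (nat_lit 100) (nat_lit 81) (nat_lit 232) (.spl (nat_lit 1) (nat_lit 270)
(.trX (nat_lit 13) (nat_lit 76) (nat_lit 43) (nat_lit 100) (nat_lit 384) (.spl (nat_lit 1) (nat_lit 265)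
(.spl (nat_lit 0) (nat_lit 350)
(.leaf p082_l120)
(.trX (nat_lit 13) (nat_lit 70) (nat_lit 52) (nat_lit 100) (nat_lit 376) (.trX (nat_lit 16) (nat_lit 66) (nat_lit 100) (nat_lit 80) (nat_lit 216) (.leaf p082_l121))))
(.trX (nat_lit 19) (nat_lit 100) (nat_lit 87) (nat_lit 85) (nat_lit 316) (.spl (nat_lit 0) (nat_lit 350)
(.leaf p082_l122)
(.trX (nat_lit 13) (nat_lit 71) (nat_lit 50) (nat_lit 100) (nat_lit 380) (.trX (nat_lit 16) (nat_lit 66) (nat_lit 100) (nat_lit 80) (nat_lit 216) (.leaf p082_l123)))))))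
(.trX (nat_lit 19) (nat_lit 100) (nat_lit 90) (nat_lit 85) (nat_lit 308) (.spl (nat_lit 1) (nat_lit 275)
(.leaf p082_l124)
(.trX (nat_lit 19) (nat_lit 100) (nat_lit 92) (nat_lit 86) (nat_lit 304) (.leaf p082_l125))))))))))))))) (by decide +kernel)
noncomputable def p082_l126 : Lf2 := ⟨nat_lit 0, nat_lit 20, [nat_lit 5, nat_lit 5, nat_lit 5, nat_lit 20], true, nat_lit 0, nat_lit 260, nat_lit 0, nat_lit 336, ⟨nat_lit 0, nat_lit 1000, nat_lit 0, nat_lit 6, nat_lit 195, nat_lit 1000, nat_lit 89, nat_lit 0, nat_lit 0, nat_lit 0, nat_lit 0, nat_lit 0, nat_lit 0, nat_lit 0, nat_lit 0, nat_lit 5000000, false, false⟩,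
 nat_lit 0, nat_lit 0, nat_lit 0, nat_lit 149, nat_lit 6724, nat_lit 0, nat_lit 0, nat_lit 0, nat_lit 0, nat_lit 0, nat_lit 0, nat_lit 0, nat_lit 0, nat_lit 0, nat_lit 0, nat_lit 326800, nat_lit 0, nat_lit 0, [(nat_lit 19, [(nat_lit 0, nat_lit 488), (nat_lit 1, nat_lit 512)]), (nat_lit 22, [(nat_lit 0, nat_lit 488), (nat_lit 1, nat_lit 512)])],
 ⟨p082_k1, nat_lit 0, nat_lit 0, nat_lit 282, nat_lit 0, nat_lit 0, [nat_lit 1840022401, nat_lit 2525325257], [], [nat_lit 27706431663, nat_lit 30495018822, nat_lit 27555144402, nat_lit 30421962992, nat_lit 24894546713, nat_lit 27283550252, nat_lit 24445088437, nat_lit 27071012840], nat_lit 0, nat_lit 0, nat_lit 0, nat_lit 0, nat_lit 0, nat_lit 0, [], [nat_lit 94, nat_lit 40, nat_lit 40, nat_lit 80, nat_lit 95, nat_lit 345, nat_lit 125, nat_lit 10]⟩, C1.Rw.none,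
 ⟨nat_lit 3162, nat_lit 4473, ⟨.ofNat (nat_lit 311562), .ofNat (nat_lit 611007), .ofNat (nat_lit 354514), .ofNat (nat_lit 653959), .ofNat (nat_lit 336623), .ofNat (nat_lit 605159), .ofNat (nat_lit 380752), .ofNat (nat_lit 649288)⟩, ⟨.negSucc (nat_lit 12437), .ofNat (nat_lit 429433), .ofNat (nat_lit 0), .ofNat (nat_lit 472567), .ofNat (nat_lit 0), .ofNat (nat_lit 414188), .ofNat (nat_lit 0), .ofNat (nat_lit 458499)⟩⟩, []⟩
noncomputable def p082_l127 : Lf2 := ⟨nat_lit 0, nat_lit 20, [nat_lit 5, nat_lit 5, nat_lit 5, nat_lit 20], false, nat_lit 0, nat_lit 260, nat_lit 0, nat_lit 336, ⟨nat_lit 743, nat_lit 257, nat_lit 0, nat_lit 6, nat_lit 302, nat_lit 257, nat_lit 89, nat_lit 0, nat_lit 0, nat_lit 0, nat_lit 0, nat_lit 0, nat_lit 0, nat_lit 0, nat_lit 0, nat_lit 5000000, true, true⟩,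
 nat_lit 0, nat_lit 0, nat_lit 0, nat_lit 1948, nat_lit 6972, nat_lit 7244, nat_lit 149, nat_lit 0, nat_lit 0, nat_lit 433, nat_lit 0, nat_lit 0, nat_lit 0, nat_lit 0, nat_lit 0, nat_lit 102800, nat_lit 0, nat_lit 0, [(nat_lit 19, [(nat_lit 1, nat_lit 257)]), (nat_lit 22, [(nat_lit 1, nat_lit 257)])],
 ⟨p082_k2, nat_lit 0, nat_lit 0, nat_lit 224, nat_lit 0, nat_lit 0, [nat_lit 1908280201, nat_lit 5171473800, nat_lit 7783430000], [], [nat_lit 31461886741, nat_lit 34314309805, nat_lit 40522737445, nat_lit 43343661240, nat_lit 28490562789, nat_lit 30252149585, nat_lit 34494799496, nat_lit 35912386284], nat_lit 0, nat_lit 0, nat_lit 0, nat_lit 0, nat_lit 0, nat_lit 0, [], [nat_lit 61, nat_lit 40, nat_lit 40, nat_lit 80, nat_lit 1, nat_lit 401, nat_lit 175, nat_lit 11]⟩, ⟨p082_k3, nat_lit 0, nat_lit 0, nat_lit 291, nat_lit 0, nat_lit 0, [nat_lit 3483184000, nat_lit 7312606000, nat_lit 10445094000], [], [nat_lit 26174047952,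 nat_lit 27737785644, nat_lit 34340988512, nat_lit 35002004331, nat_lit 23595770060, nat_lit 24245128171, nat_lit 27708942377, nat_lit 28489170554], nat_lit 0, nat_lit 0, nat_lit 0, nat_lit 0, nat_lit 0, nat_lit 0, [], [nat_lit 56, nat_lit 40, nat_lit 40, nat_lit 80, nat_lit 32, nat_lit 538, nat_lit 300, nat_lit 12]⟩,
 ⟨nat_lit 3162, nat_lit 4473, ⟨.ofNat (nat_lit 611007), .ofNat (nat_lit 876224), .ofNat (nat_lit 653959), .ofNat (nat_lit 919290), .ofNat (nat_lit 605159), .ofNat (nat_lit 842980), .ofNat (nat_lit 649288), .ofNat (nat_lit 887222)⟩, ⟨.negSucc (nat_lit 12437), .ofNat (nat_lit 429433), .ofNat (nat_lit 0), .ofNat (nat_lit 472567), .ofNat (nat_lit 0), .ofNat (nat_lit 414188), .ofNat (nat_lit 0), .ofNat (nat_lit 458499)⟩⟩, [⟨nat_lit 13, nat_lit 61, nat_lit 68, nat_lit 100, nat_lit 26803129⟩, ⟨nat_lit 4, nat_lit 100, nat_lit 71, nat_lit 71, nat_lit 1131641⟩, ⟨nat_lit 19, nat_lit 100, nat_lit 76, nat_lit 82,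 nat_lit 51205791⟩]⟩
noncomputable def p082_l128 : Lf2 := ⟨nat_lit 0, nat_lit 20, [nat_lit 5, nat_lit 5, nat_lit 5, nat_lit 20], true, nat_lit 0, nat_lit 260, nat_lit 0, nat_lit 336, ⟨nat_lit 0, nat_lit 1000, nat_lit 0, nat_lit 6, nat_lit 195, nat_lit 1000, nat_lit 89, nat_lit 0, nat_lit 0, nat_lit 0, nat_lit 0, nat_lit 0, nat_lit 0, nat_lit 0, nat_lit 0, nat_lit 5000000, false, false⟩,
 nat_lit 0, nat_lit 0, nat_lit 0, nat_lit 149, nat_lit 6724, nat_lit 0, nat_lit 0, nat_lit 0, nat_lit 0, nat_lit 0, nat_lit 0, nat_lit 0, nat_lit 0, nat_lit 0, nat_lit 0, nat_lit 326800, nat_lit 0, nat_lit 0, [(nat_lit 19, [(nat_lit 0, nat_lit 488), (nat_lit 1, nat_lit 512)]), (nat_lit 22, [(nat_lit 0, nat_lit 488), (nat_lit 1, nat_lit 512)])],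
 ⟨p082_k1, nat_lit 0, nat_lit 0, nat_lit 282, nat_lit 0, nat_lit 0, [nat_lit 1840022401, nat_lit 2525325257], [], [nat_lit 27706431663, nat_lit 30495018822, nat_lit 27555144402, nat_lit 30421962992, nat_lit 24894546713, nat_lit 27283550252, nat_lit 24445088437, nat_lit 27071012840], nat_lit 0, nat_lit 0, nat_lit 0, nat_lit 0, nat_lit 0, nat_lit 0, [], [nat_lit 94, nat_lit 40, nat_lit 40, nat_lit 80, nat_lit 95, nat_lit 345, nat_lit 125, nat_lit 10]⟩, C1.Rw.none,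
 ⟨nat_lit 3162, nat_lit 4473, ⟨.ofNat (nat_lit 311562), .ofNat (nat_lit 611007), .ofNat (nat_lit 354514), .ofNat (nat_lit 653959), .ofNat (nat_lit 336623), .ofNat (nat_lit 605159), .ofNat (nat_lit 380752), .ofNat (nat_lit 649288)⟩, ⟨.negSucc (nat_lit 12437), .ofNat (nat_lit 429433), .ofNat (nat_lit 0), .ofNat (nat_lit 472567), .ofNat (nat_lit 0), .ofNat (nat_lit 414188), .ofNat (nat_lit 0), .ofNat (nat_lit 458499)⟩⟩, []⟩
noncomputable def p082_l129 : Lf2 := ⟨nat_lit 0, nat_lit 20, [nat_lit 5, nat_lit 5, nat_lit 5, nat_lit 20], true, nat_lit 0, nat_lit 260, nat_lit 0, nat_lit 336, ⟨nat_lit 0, nat_lit 1000, nat_lit 0, nat_lit 6, nat_lit 278, nat_lit 1000, nat_lit 89, nat_lit 0, nat_lit 0, nat_lit 0, nat_lit 0, nat_lit 0, nat_lit 0, nat_lit 0, nat_lit 0, nat_lit 5000000, true, true⟩,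
 nat_lit 0, nat_lit 0, nat_lit 0, nat_lit 1832, nat_lit 5626, nat_lit 0, nat_lit 42, nat_lit 0, nat_lit 0, nat_lit 0, nat_lit 0, nat_lit 0, nat_lit 0, nat_lit 0, nat_lit 0, nat_lit 250000, nat_lit 0, nat_lit 0, [(nat_lit 19, [(nat_lit 0, nat_lit 1000)]), (nat_lit 22, [(nat_lit 0, nat_lit 1000)])],
 ⟨p082_k0, nat_lit 0, nat_lit 0, nat_lit 196, nat_lit 0, nat_lit 0, [nat_lit 1568000001, nat_lit 2368400000, nat_lit 3220880000], [], [nat_lit 27035026578, nat_lit 29925367690, nat_lit 30887192946, nat_lit 33246546250, nat_lit 25573706320, nat_lit 27599837566, nat_lit 28223065786, nat_lit 29895747792], nat_lit 0, nat_lit 0, nat_lit 0, nat_lit 0, nat_lit 0, nat_lit 0, [], [nat_lit 27, nat_lit 40, nat_lit 40, nat_lit 80, nat_lit 13, nat_lit 373, nat_lit 150, nat_lit 10]⟩, C1.Rw.none,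
 ⟨nat_lit 3162, nat_lit 4473, ⟨.ofNat (nat_lit 611007), .ofNat (nat_lit 747055), .ofNat (nat_lit 653959), .ofNat (nat_lit 790054), .ofNat (nat_lit 605159), .ofNat (nat_lit 727157), .ofNat (nat_lit 649288), .ofNat (nat_lit 771333)⟩, ⟨.negSucc (nat_lit 12437), .ofNat (nat_lit 429433), .ofNat (nat_lit 0), .ofNat (nat_lit 472567), .ofNat (nat_lit 0), .ofNat (nat_lit 414188), .ofNat (nat_lit 0), .ofNat (nat_lit 458499)⟩⟩, []⟩
noncomputable def p082_l130 : Lf2 := ⟨nat_lit 0, nat_lit 20, [nat_lit 5, nat_lit 5, nat_lit 5, nat_lit 20], true, nat_lit 0, nat_lit 160, nat_lit 0, nat_lit 336, ⟨nat_lit 0, nat_lit 1000, nat_lit 0, nat_lit 8, nat_lit 328, nat_lit 1000, nat_lit 57, nat_lit 0, nat_lit 0, nat_lit 0, nat_lit 0, nat_lit 0, nat_lit 0, nat_lit 0, nat_lit 0, nat_lit 5000000, true, true⟩,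
 nat_lit 0, nat_lit 0, nat_lit 0, nat_lit 4153, nat_lit 3349, nat_lit 0, nat_lit 115, nat_lit 0, nat_lit 0, nat_lit 0, nat_lit 0, nat_lit 0, nat_lit 0, nat_lit 0, nat_lit 0, nat_lit 400000, nat_lit 0, nat_lit 0, [(nat_lit 19, [(nat_lit 1, nat_lit 1000)]), (nat_lit 22, [(nat_lit 1, nat_lit 1000)])],
 ⟨p082_k0, nat_lit 0, nat_lit 0, nat_lit 214, nat_lit 0, nat_lit 0, [nat_lit 1398133334, nat_lit 2037600000, nat_lit 1832000000], [], [nat_lit 27800447441, nat_lit 29436201923, nat_lit 31030611169, nat_lit 32478792494, nat_lit 26933002497, nat_lit 28296211809, nat_lit 29618024040, nat_lit 30764987881], nat_lit 0, nat_lit 0, nat_lit 0, nat_lit 0, nat_lit 0, nat_lit 0, [], [nat_lit 27, nat_lit 40, nat_lit 40, nat_lit 80, nat_lit 13, nat_lit 249, nat_lit 40, nat_lit 6]⟩, C1.Rw.none,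
 ⟨nat_lit 3162, nat_lit 4473, ⟨.ofNat (nat_lit 747055), .ofNat (nat_lit 876224), .ofNat (nat_lit 790054), .ofNat (nat_lit 919290), .ofNat (nat_lit 727157), .ofNat (nat_lit 842980), .ofNat (nat_lit 771333), .ofNat (nat_lit 887222)⟩, ⟨.negSucc (nat_lit 12437), .ofNat (nat_lit 259488), .ofNat (nat_lit 0), .ofNat (nat_lit 302621), .ofNat (nat_lit 0), .ofNat (nat_lit 261805), .ofNat (nat_lit 0), .ofNat (nat_lit 306116)⟩⟩, [⟨nat_lit 13, nat_lit 75, nat_lit 48, nat_lit 100, nat_lit 82284457⟩, ⟨nat_lit 13, nat_lit 87, nat_lit 25, nat_lit 100, nat_lit 247214255⟩]⟩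
noncomputable def p082_l131 : Lf2 := ⟨nat_lit 0, nat_lit 20, [nat_lit 5, nat_lit 5, nat_lit 5, nat_lit 20], true, nat_lit 160, nat_lit 260, nat_lit 16, nat_lit 336, ⟨nat_lit 0, nat_lit 1000, nat_lit 0, nat_lit 8, nat_lit 328, nat_lit 1000, nat_lit 145, nat_lit 0, nat_lit 0, nat_lit 0, nat_lit 0, nat_lit 0, nat_lit 0, nat_lit 0, nat_lit 0, nat_lit 5000000, true, true⟩,
 nat_lit 0, nat_lit 0, nat_lit 0, nat_lit 7537, nat_lit 3560, nat_lit 0, nat_lit 249, nat_lit 0, nat_lit 0, nat_lit 0, nat_lit 0, nat_lit 0, nat_lit 0, nat_lit 0, nat_lit 0, nat_lit 250000, nat_lit 0, nat_lit 0, [(nat_lit 19, [(nat_lit 0, nat_lit 1000)]), (nat_lit 22, [(nat_lit 0, nat_lit 1000)])],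
 ⟨p082_k0, nat_lit 0, nat_lit 0, nat_lit 108, nat_lit 0, nat_lit 0, [nat_lit 1568000001, nat_lit 2368400000, nat_lit 3220880000], [], [nat_lit 25709204206, nat_lit 27366803245, nat_lit 28998503533, nat_lit 30384553741, nat_lit 27504802285, nat_lit 28936524645, nat_lit 30336892210, nat_lit 31644784432], nat_lit 0, nat_lit 0, nat_lit 0, nat_lit 0, nat_lit 0, nat_lit 0, [], [nat_lit 27, nat_lit 40, nat_lit 40, nat_lit 80, nat_lit 13, nat_lit 289, nat_lit 75, nat_lit 7]⟩, C1.Rw.none,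
 ⟨nat_lit 3162, nat_lit 4473, ⟨.ofNat (nat_lit 747055), .ofNat (nat_lit 876224), .ofNat (nat_lit 790054), .ofNat (nat_lit 919290), .ofNat (nat_lit 727157), .ofNat (nat_lit 842980), .ofNat (nat_lit 771333), .ofNat (nat_lit 887222)⟩, ⟨.ofNat (nat_lit 259488), .ofNat (nat_lit 429433), .ofNat (nat_lit 302621), .ofNat (nat_lit 472567), .ofNat (nat_lit 261805), .ofNat (nat_lit 414188), .ofNat (nat_lit 306116), .ofNat (nat_lit 458499)⟩⟩, [⟨nat_lit 13, nat_lit 87, nat_lit 25, nat_lit 100, nat_lit 329286424⟩, ⟨nat_lit 16, nat_lit 83, nat_lit 100, nat_lit 83, nat_lit 225948971⟩]⟩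
noncomputable def b_V_800_600_10_19 : St := ⟨true, nat_lit 0, nat_lit 2, nat_lit 2, nat_lit 80, nat_lit 320, nat_lit 360, nat_lit 240, nat_lit 280, nat_lit 64, nat_lit 396, nat_lit 40, nat_lit 80, nat_lit 0, nat_lit 260, nat_lit 0, nat_lit 336, nat_lit 40, nat_lit 80, nat_lit 0, nat_lit 0, nat_lit 0, nat_lit 0⟩
theorem d_V_800_600_10_19 (h : EB TB.env) : Dead b_V_800_600_10_19 := chkB_sound0 h (T :=
(.st (nat_lit 1)
(.spl (nat_lit 2) (nat_lit 240)
(.leaf p082_l126)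
(.leaf p082_l127))
(.spl (nat_lit 2) (nat_lit 240)
(.leaf p082_l128)
(.spl (nat_lit 2) (nat_lit 320)
(.leaf p082_l129)
(.spl (nat_lit 4) (nat_lit 160)
(.leaf p082_l130)
(.trZ (nat_lit 9) (nat_lit 100) (nat_lit 82) (nat_lit 44) (nat_lit 16) (.leaf p082_l131))))))) (by decide +kernel)

end B2
end Pool.Agent.Lib.MP_6947cd_al
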