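import Pool.Agent.Lib.MP_6947cd_al.ZB.Pre

/-!
Problem MP_6947cd_al (Chollet).  Case B, second entry in [2/5, 17/20]: certificates of the tree, part P083 (generated).
-/

set_option autoImplicit false
set_option linter.all false

namespace Pool.Agent.Lib.MP_6947cd_al
namespace B2

open Ent Fr B1 PkA

noncomputable def p083_k0 : C1.Kn := ⟨[nat_lit 40, nat_lit 100, nat_lit 120], [nat_lit 0, nat_lit 0, nat_lit 2151], [(nat_lit 0, nat_lit 0, nat_lit 0), (nat_lit 0, nat_lit 0, nat_lit 0), (nat_lit 1000, nat_lit 815, nat_lit 753)], (nat_lit 81, nat_lit 100, nat_lit 72)⟩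
noncomputable def p083_k1 : C1.Kn := ⟨[nat_lit 80, nat_lit 140, nat_lit 160], [nat_lit 0, nat_lit 395, nat_lit 2402], [(nat_lit 0, nat_lit 0, nat_lit 0), (nat_lit 1000, nat_lit 979, nat_lit 103), (nat_lit 833, nat_lit 1000, nat_lit 799)], (nat_lit 100, nat_lit 88, nat_lit 74)⟩
noncomputable def p083_k2 : C1.Kn := ⟨[nat_lit 40, nat_lit 100, nat_lit 140], [nat_lit 0, nat_lit 0, nat_lit 3243], [(nat_lit 0, nat_lit 0, nat_lit 0), (nat_lit 0, nat_lit 0, nat_lit 0), (nat_lit 1000, nat_lit 870, nat_lit 941)], (nat_lit 83, nat_lit 100, nat_lit 83)⟩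
noncomputable def p083_k3 : C1.Kn := ⟨[nat_lit 40, nat_lit 80, nat_lit 120], [nat_lit 0, nat_lit 795, nat_lit 2800], [(nat_lit 0, nat_lit 0, nat_lit 0), (nat_lit 1000, nat_lit 814, nat_lit 310), (nat_lit 1000, nat_lit 719, nat_lit 783)], (nat_lit 72, nat_lit 100, nat_lit 81)⟩
noncomputable def p083_k4 : C1.Kn := ⟨[nat_lit 80, nat_lit 120, nat_lit 180], [nat_lit 0, nat_lit 0, nat_lit 3196], [(nat_lit 0, nat_lit 0, nat_lit 0), (nat_lit 0, nat_lit 0, nat_lit 0), (nat_lit 858, nat_lit 1000, nat_lit 713)], (nat_lit 100, nat_lit 76, nat_lit 82)⟩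
noncomputable def p083_k5 : C1.Kn := ⟨[nat_lit 40, nat_lit 80, nat_lit 120], [nat_lit 0, nat_lit 1195, nat_lit 3135], [(nat_lit 0, nat_lit 0, nat_lit 0), (nat_lit 1000, nat_lit 720, nat_lit 465), (nat_lit 1000, nat_lit 661, nat_lit 757)], (nat_lit 66, nat_lit 100, nat_lit 80)⟩
noncomputable def p083_k6 : C1.Kn := ⟨[nat_lit 40, nat_lit 80, nat_lit 140], [nat_lit 0, nat_lit 0, nat_lit 3199], [(nat_lit 0, nat_lit 0, nat_lit 0), (nat_lit 0, nat_lit 0, nat_lit 0), (nat_lit 1000, nat_lit 833, nat_lit 833)], (nat_lit 83, nat_lit 100, nat_lit 83)⟩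
noncomputable def p083_k7 : C1.Kn := ⟨[nat_lit 80, nat_lit 120, nat_lit 160], [nat_lit 0, nat_lit 528, nat_lit 2577], [(nat_lit 0, nat_lit 0, nat_lit 0), (nat_lit 1000, nat_lit 959, nat_lit 206), (nat_lit 929, nat_lit 1000, nat_lit 742)], (nat_lit 100, nat_lit 85, nat_lit 84)⟩
noncomputable def p083_k8 : C1.Kn := ⟨[nat_lit 40, nat_lit 80, nat_lit 120], [nat_lit 0, nat_lit 0, nat_lit 2151], [(nat_lit 0, nat_lit 0, nat_lit 0), (nat_lit 0, nat_lit 0, nat_lit 0), (nat_lit 1000, nat_lit 815, nat_lit 753)], (nat_lit 81, nat_lit 100, nat_lit 72)⟩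
noncomputable def p083_k9 : C1.Kn := ⟨[nat_lit 80, nat_lit 120, nat_lit 160], [nat_lit 0, nat_lit 528, nat_lit 2577], [(nat_lit 0, nat_lit 0, nat_lit 0), (nat_lit 1000, nat_lit 959, nat_lit 206), (nat_lit 929, nat_lit 1000, nat_lit 742)], (nat_lit 100, nat_lit 92, nat_lit 75)⟩
noncomputable def p083_k10 : C1.Kn := ⟨[nat_lit 40, nat_lit 80, nat_lit 140], [nat_lit 0, nat_lit 395, nat_lit 3500], [(nat_lit 0, nat_lit 0, nat_lit 0), (nat_lit 1000, nat_lit 908, nat_lit 154), (nat_lit 1000, nat_lit 776, nat_lit 808)], (nat_lit 78, nat_lit 100, nat_lit 82)⟩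
noncomputable def p083_k11 : C1.Kn := ⟨[nat_lit 80, nat_lit 140, nat_lit 180], [nat_lit 0, nat_lit 0, nat_lit 3656], [(nat_lit 0, nat_lit 0, nat_lit 0), (nat_lit 0, nat_lit 0, nat_lit 0), (nat_lit 637, nat_lit 1000, nat_lit 908)], (nat_lit 100, nat_lit 76, nat_lit 82)⟩
noncomputable def p083_k12 : C1.Kn := ⟨[nat_lit 40, nat_lit 100, nat_lit 140], [nat_lit 0, nat_lit 592, nat_lit 3606], [(nat_lit 0, nat_lit 0, nat_lit 0), (nat_lit 1000, nat_lit 908, nat_lit 154), (nat_lit 1000, nat_lit 825, nat_lit 971)], (nat_lit 78, nat_lit 100, nat_lit 82)⟩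
noncomputable def p083_k13 : C1.Kn := ⟨[nat_lit 40, nat_lit 100, nat_lit 120], [nat_lit 0, nat_lit 1192, nat_lit 2817], [(nat_lit 0, nat_lit 0, nat_lit 0), (nat_lit 1000, nat_lit 814, nat_lit 310), (nat_lit 1000, nat_lit 727, nat_lit 834)], (nat_lit 72, nat_lit 100, nat_lit 81)⟩
noncomputable def p083_k14 : C1.Kn := ⟨[nat_lit 40, nat_lit 100, nat_lit 120], [nat_lit 0, nat_lit 1790, nat_lit 3212], [(nat_lit 0, nat_lit 0, nat_lit 0), (nat_lit 1000, nat_lit 720, nat_lit 465), (nat_lit 1000, nat_lit 674, nat_lit 878)], (nat_lit 66, nat_lit 100, nat_lit 80)⟩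
noncomputable def p083_k15 : C1.Kn := ⟨[nat_lit 40, nat_lit 80, nat_lit 120], [nat_lit 0, nat_lit 795, nat_lit 2800], [(nat_lit 0, nat_lit 0, nat_lit 0), (nat_lit 1000, nat_lit 814, nat_lit 310), (nat_lit 1000, nat_lit 719, nat_lit 783)], (nat_lit 71, nat_lit 100, nat_lit 71)⟩
noncomputable def p083_k16 : C1.Kn := ⟨[nat_lit 80, nat_lit 120, nat_lit 160], [nat_lit 0, nat_lit 0, nat_lit 2132], [(nat_lit 0, nat_lit 0, nat_lit 0), (nat_lit 0, nat_lit 0, nat_lit 0), (nat_lit 858, nat_lit 1000, nat_lit 713)], (nat_lit 100, nat_lit 85, nat_lit 73)⟩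
noncomputable def p083_k17 : C1.Kn := ⟨[nat_lit 80, nat_lit 120, nat_lit 180], [nat_lit 0, nat_lit 264, nat_lit 3394], [(nat_lit 0, nat_lit 0, nat_lit 0), (nat_lit 1000, nat_lit 979, nat_lit 103), (nat_lit 893, nat_lit 1000, nat_lit 726)], (nat_lit 100, nat_lit 81, nat_lit 83)⟩
noncomputable def p083_k18 : C1.Kn := ⟨[nat_lit 80, nat_lit 120, nat_lit 160], [nat_lit 0, nat_lit 796, nat_lit 2802], [(nat_lit 0, nat_lit 0, nat_lit 0), (nat_lit 1000, nat_lit 938, nat_lit 310), (nat_lit 969, nat_lit 1000, nat_lit 759)], (nat_lit 100, nat_lit 90, nat_lit 85)⟩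
noncomputable def p083_k19 : C1.Kn := ⟨[nat_lit 40, nat_lit 80, nat_lit 100], [nat_lit 0, nat_lit 1195, nat_lit 2166], [(nat_lit 0, nat_lit 0, nat_lit 0), (nat_lit 1000, nat_lit 720, nat_lit 465), (nat_lit 1000, nat_lit 662, nat_lit 740)], (nat_lit 66, nat_lit 100, nat_lit 72)⟩
noncomputable def p083_k20 : C1.Kn := ⟨[nat_lit 80, nat_lit 140, nat_lit 160], [nat_lit 0, nat_lit 792, nat_lit 2667], [(nat_lit 0, nat_lit 0, nat_lit 0), (nat_lit 1000, nat_lit 959, nat_lit 206), (nat_lit 846, nat_lit 1000, nat_lit 844)], (nat_lit 100, nat_lit 85, nat_lit 84)⟩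
noncomputable def p083_k21 : C1.Kn := ⟨[nat_lit 80, nat_lit 140, nat_lit 160], [nat_lit 0, nat_lit 0, nat_lit 2151], [(nat_lit 0, nat_lit 0, nat_lit 0), (nat_lit 0, nat_lit 0, nat_lit 0), (nat_lit 823, nat_lit 1000, nat_lit 757)], (nat_lit 100, nat_lit 85, nat_lit 73)⟩
noncomputable def p083_k22 : C1.Kn := ⟨[nat_lit 80, nat_lit 140, nat_lit 160], [nat_lit 0, nat_lit 1192, nat_lit 2947], [(nat_lit 0, nat_lit 0, nat_lit 0), (nat_lit 1000, nat_lit 938, nat_lit 310), (nat_lit 863, nat_lit 1000, nat_lit 890)], (nat_lit 100, nat_lit 90, nat_lit 85)⟩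
noncomputable def p083_k23 : C1.Kn := ⟨[nat_lit 40, nat_lit 100, nat_lit 120], [nat_lit 0, nat_lit 592, nat_lit 2466], [(nat_lit 0, nat_lit 0, nat_lit 0), (nat_lit 1000, nat_lit 908, nat_lit 154), (nat_lit 1000, nat_lit 773, nat_lit 792)], (nat_lit 76, nat_lit 100, nat_lit 72)⟩
noncomputable def p083_l0 : Lf2 := ⟨nat_lit 0, nat_lit 15, [nat_lit 30, nat_lit 5, nat_lit 5, nat_lit 20], true, nat_lit 0, nat_lit 160, nat_lit 0, nat_lit 312, ⟨nat_lit 0, nat_lit 0, nat_lit 1000, nat_lit 6, nat_lit 161, nat_lit 1000, nat_lit 54, nat_lit 1000, nat_lit 26667, nat_lit 255, nat_lit 51505, nat_lit 270, nat_lit 57640010, nat_lit 0, nat_lit 0, nat_lit 2022103, false, false⟩,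
 nat_lit 0, nat_lit 3978, nat_lit 0, nat_lit 0, nat_lit 2983, nat_lit 0, nat_lit 0, nat_lit 0, nat_lit 0, nat_lit 0, nat_lit 0, nat_lit 0, nat_lit 0, nat_lit 0, nat_lit 118, nat_lit 400000, nat_lit 0, nat_lit 0, [(nat_lit 19, [(nat_lit 5, nat_lit 1000)])],
 ⟨p083_k0, nat_lit 0, nat_lit 0, nat_lit 403, nat_lit 0, nat_lit 461731, [nat_lit 2029400001, nat_lit 1091300000, nat_lit 400000], [], [nat_lit 18435171851, nat_lit 18263566598, nat_lit 17625310700, nat_lit 18790416915, nat_lit 17260212078, nat_lit 18407950242, nat_lit 18599968033, nat_lit 19720323373], nat_lit 1271250, nat_lit 1271250, nat_lit 382400, nat_lit 1100001, nat_lit 0, nat_lit 1100001, [nat_lit 490000, nat_lit 1427500, nat_lit 1271250], [nat_lit 102, nat_lit 40, nat_lit 40, nat_lit 80, nat_lit 2, nat_lit 317, nat_lit 100, nat_lit 10]⟩, C1.Rw.none,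
 ⟨nat_lit 3872, nat_lit 4473, ⟨.ofNat (nat_lit 311945), .ofNat (nat_lit 475111), .ofNat (nat_lit 322720), .ofNat (nat_lit 485886), .ofNat (nat_lit 324151), .ofNat (nat_lit 479021), .ofNat (nat_lit 335039), .ofNat (nat_lit 489909)⟩, ⟨.negSucc (nat_lit 12427), .ofNat (nat_lit 259489), .ofNat (nat_lit 0), .ofNat (nat_lit 281055), .ofNat (nat_lit 0), .ofNat (nat_lit 261131), .ofNat (nat_lit 0), .ofNat (nat_lit 282924)⟩⟩, [⟨nat_lit 0, nat_lit 100, nat_lit 78, nat_lit 83, nat_lit 28299332⟩]⟩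
noncomputable def p083_l1 : Lf2 := ⟨nat_lit 0, nat_lit 15, [nat_lit 30, nat_lit 5, nat_lit 5, nat_lit 20], false, nat_lit 0, nat_lit 160, nat_lit 0, nat_lit 304, ⟨nat_lit 157, nat_lit 0, nat_lit 843, nat_lit 6, nat_lit 168, nat_lit 843, nat_lit 54, nat_lit 843, nat_lit 26667, nat_lit 255, nat_lit 35831, nat_lit 261, nat_lit 56935942, nat_lit 0, nat_lit 0, nat_lit 2115362, false, false⟩,
 nat_lit 0, nat_lit 4613, nat_lit 0, nat_lit 0, nat_lit 3459, nat_lit 2518, nat_lit 0, nat_lit 0, nat_lit 0, nat_lit 155, nat_lit 0, nat_lit 0, nat_lit 0, nat_lit 0, nat_lit 56, nat_lit 366000, nat_lit 0, nat_lit 0, [(nat_lit 19, [(nat_lit 5, nat_lit 795), (nat_lit 6, nat_lit 48)])],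
 ⟨p083_k0, nat_lit 0, nat_lit 0, nat_lit 417, nat_lit 0, nat_lit 511846, [nat_lit 1717161801, nat_lit 932812700, nat_lit 14670000], [], [nat_lit 18791252780, nat_lit 19105034453, nat_lit 18872465942, nat_lit 19747048382, nat_lit 18184358098, nat_lit 19014955195, nat_lit 19417419394, nat_lit 19744684825], nat_lit 1271250, nat_lit 1271250, nat_lit 435600, nat_lit 1100001, nat_lit 0, nat_lit 1100001, [nat_lit 490000, nat_lit 1427500, nat_lit 1271250], [nat_lit 102, nat_lit 40, nat_lit 40, nat_lit 80, nat_lit 2, nat_lit 317, nat_lit 100, nat_lit 10]⟩, ⟨p083_k1, nat_lit 0, nat_lit 0, nat_lit 255, nat_lit 0, nat_lit 0, [nat_lit 736016000, nat_lit 1545194000, nat_lit 1863904000], [], [nat_lit 4891020569, nat_lit 5090328114, nat_lit 4235624637, nat_lit 4408403520, nat_lit 3896526485, nat_lit 3995809601, nat_lit 3194219343, nat_lit 3318403802], nat_lit 0, nat_lit 0, nat_lit 0, nat_lit 0, nat_lit 0, nat_lit 0, [], [nat_lit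 125, nat_lit 40, nat_lit 40, nat_lit 80, nat_lit 41, nat_lit 428, nat_lit 200, nat_lit 11]⟩,
 ⟨nat_lit 3872, nat_lit 4473, ⟨.ofNat (nat_lit 336317), .ofNat (nat_lit 485886), .ofNat (nat_lit 347091), .ofNat (nat_lit 496660), .ofNat (nat_lit 347945), .ofNat (nat_lit 489909), .ofNat (nat_lit 358832), .ofNat (nat_lit 500797)⟩, ⟨.negSucc (nat_lit 12427), .ofNat (nat_lit 259489), .ofNat (nat_lit 0), .ofNat (nat_lit 281055), .ofNat (nat_lit 0), .ofNat (nat_lit 261131), .ofNat (nat_lit 0), .ofNat (nat_lit 282924)⟩⟩, [⟨nat_lit 0, nat_lit 100, nat_lit 75, nat_lit 92, nat_lit 175993818⟩, ⟨nat_lit 7, nat_lit 94, nat_lit 100, nat_lit 69, nat_lit 15342256⟩]⟩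
noncomputable def p083_l2 : Lf2 := ⟨nat_lit 0, nat_lit 20, [nat_lit 5, nat_lit 5, nat_lit 5, nat_lit 20], true, nat_lit 0, nat_lit 160, nat_lit 0, nat_lit 336, ⟨nat_lit 0, nat_lit 0, nat_lit 1000, nat_lit 6, nat_lit 163, nat_lit 883, nat_lit 59, nat_lit 1000, nat_lit 32267, nat_lit 259, nat_lit 35831, nat_lit 261, nat_lit 57422946, nat_lit 0, nat_lit 0, nat_lit 2051331, false, false⟩,
 nat_lit 0, nat_lit 3613, nat_lit 0, nat_lit 0, nat_lit 2709, nat_lit 0, nat_lit 80, nat_lit 0, nat_lit 0, nat_lit 0, nat_lit 0, nat_lit 0, nat_lit 0, nat_lit 0, nat_lit 129, nat_lit 400000, nat_lit 0, nat_lit 0, [(nat_lit 19, [(nat_lit 5, nat_lit 1000)])],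
 ⟨p083_k2, nat_lit 0, nat_lit 0, nat_lit 429, nat_lit 0, nat_lit 345660, [nat_lit 2117400001, nat_lit 1311300000, nat_lit 268000000], [], [nat_lit 16549150100, nat_lit 17660589265, nat_lit 17614440987, nat_lit 18726919947, nat_lit 17236440679, nat_lit 18334101868, nat_lit 19066304394, nat_lit 19695324442], nat_lit 1271250, nat_lit 1271250, nat_lit 382400, nat_lit 1100001, nat_lit 0, nat_lit 1100001, [nat_lit 490000, nat_lit 1427500, nat_lit 1271250], [nat_lit 61, nat_lit 40, nat_lit 40, nat_lit 80, nat_lit 1, nat_lit 317, nat_lit 100, nat_lit 9]⟩, C1.Rw.none,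
 ⟨nat_lit 3872, nat_lit 4473, ⟨.ofNat (nat_lit 311945), .ofNat (nat_lit 475111), .ofNat (nat_lit 333494), .ofNat (nat_lit 496660), .ofNat (nat_lit 324151), .ofNat (nat_lit 479021), .ofNat (nat_lit 345927), .ofNat (nat_lit 500797)⟩, ⟨.ofNat (nat_lit 0), .ofNat (nat_lit 281055), .ofNat (nat_lit 0), .ofNat (nat_lit 302621), .ofNat (nat_lit 0), .ofNat (nat_lit 282924), .ofNat (nat_lit 0), .ofNat (nat_lit 304717)⟩⟩, []⟩
noncomputable def p083_l3 : Lf2 := ⟨nat_lit 0, nat_lit 20, [nat_lit 5, nat_lit 5, nat_lit 5, nat_lit 20], false, nat_lit 0, nat_lit 160, nat_lit 0, nat_lit 336, ⟨nat_lit 288, nat_lit 0, nat_lit 712, nat_lit 6, nat_lit 173, nat_lit 712, nat_lit 57, nat_lit 712, nat_lit 29400, nat_lit 257, nat_lit 32267, nat_lit 259, nat_lit 56391267, nat_lit 0, nat_lit 0, nat_lit 2184527, false, false⟩,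
 nat_lit 0, nat_lit 4464, nat_lit 0, nat_lit 0, nat_lit 3613, nat_lit 3250, nat_lit 0, nat_lit 0, nat_lit 0, nat_lit 419, nat_lit 0, nat_lit 0, nat_lit 0, nat_lit 0, nat_lit 32, nat_lit 343000, nat_lit 0, nat_lit 0, [(nat_lit 22, [(nat_lit 5, nat_lit 615), (nat_lit 6, nat_lit 97)])],
 ⟨p083_k3, nat_lit 0, nat_lit 0, nat_lit 419, nat_lit 0, nat_lit 556389, [nat_lit 1514865601, nat_lit 1136628401, nat_lit 17871600], [], [nat_lit 19733333697, nat_lit 20276324670, nat_lit 19981058460, nat_lit 20710510120, nat_lit 19061665453, nat_lit 19497905290, nat_lit 19661038278, nat_lit 20135947444], nat_lit 1271250, nat_lit 1271250, nat_lit 545600, nat_lit 1100001, nat_lit 0, nat_lit 1100001, [nat_lit 490000, nat_lit 1100000, nat_lit 1785000], [nat_lit 34, nat_lit 40, nat_lit 40, nat_lit 80, nat_lit 7, nat_lit 317, nat_lit 100, nat_lit 10]⟩, ⟨p083_k4, nat_lit 0, nat_lit 0, nat_lit 371, nat_lit 0, nat_lit 0, [nat_lit 1350144000,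 nat_lit 2294784000, nat_lit 4048704000], [], [nat_lit 8095337158, nat_lit 8551922731, nat_lit 7527024804, nat_lit 7934186088, nat_lit 7416762858, nat_lit 7620216083, nat_lit 6800627221, nat_lit 7111299237], nat_lit 0, nat_lit 0, nat_lit 0, nat_lit 0, nat_lit 0, nat_lit 0, [], [nat_lit 37, nat_lit 40, nat_lit 40, nat_lit 80, nat_lit 28, nat_lit 428, nat_lit 200, nat_lit 10]⟩,
 ⟨nat_lit 3535, nat_lit 3873, ⟨.ofNat (nat_lit 362897), .ofNat (nat_lit 479046), .ofNat (nat_lit 384684), .ofNat (nat_lit 500833), .ofNat (nat_lit 368144), .ofNat (nat_lit 481125), .ofNat (nat_lit 390090), .ofNat (nat_lit 503072)⟩, ⟨.ofNat (nat_lit 0), .ofNat (nat_lit 261131), .ofNat (nat_lit 0), .ofNat (nat_lit 304717), .ofNat (nat_lit 0), .ofNat (nat_lit 261616), .ofNat (nat_lit 0), .ofNat (nat_lit 305521)⟩⟩, [⟨nat_lit 0, nat_lit 100, nat_lit 69, nat_lit 96, nat_lit 266780319⟩, ⟨nat_lit 7, nat_lit 88, nat_lit 100, nat_lit 74, nat_lit 54986174⟩]⟩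
noncomputable def p083_l4 : Lf2 := ⟨nat_lit 0, nat_lit 20, [nat_lit 5, nat_lit 5, nat_lit 5, nat_lit 20], false, nat_lit 0, nat_lit 160, nat_lit 0, nat_lit 336, ⟨nat_lit 221, nat_lit 0, nat_lit 779, nat_lit 6, nat_lit 179, nat_lit 779, nat_lit 57, nat_lit 779, nat_lit 30817, nat_lit 258, nat_lit 32879, nat_lit 258, nat_lit 55848691, nat_lit 0, nat_lit 0, nat_lit 2250959, false, false⟩,
 nat_lit 0, nat_lit 3976, nat_lit 0, nat_lit 0, nat_lit 3339, nat_lit 2486, nat_lit 0, nat_lit 0, nat_lit 0, nat_lit 299, nat_lit 0, nat_lit 0, nat_lit 0, nat_lit 0, nat_lit 66, nat_lit 373400, nat_lit 0, nat_lit 0, [(nat_lit 22, [(nat_lit 5, nat_lit 676), (nat_lit 6, nat_lit 103)])],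
 ⟨p083_k5, nat_lit 0, nat_lit 0, nat_lit 437, nat_lit 0, nat_lit 616827, [nat_lit 1714798401, nat_lit 1303141201, nat_lit 37165067], [], [nat_lit 19667018736, nat_lit 20701317068, nat_lit 20285045087, nat_lit 21160790040, nat_lit 19847354943, nat_lit 20320871306, nat_lit 20498511773, nat_lit 20951184398], nat_lit 1271250, nat_lit 1271250, nat_lit 631250, nat_lit 1100001, nat_lit 0, nat_lit 1100001, [nat_lit 490000, nat_lit 1100000, nat_lit 1785000], [nat_lit 34, nat_lit 40, nat_lit 40, nat_lit 80, nat_lit 7, nat_lit 317, nat_lit 100, nat_lit 10]⟩, ⟨p083_k4, nat_lit 0, nat_lit 0, nat_lit 365, nat_lit 0, nat_lit 0, [nat_lit 1036048000, nat_lit 1760928000, nat_lit 3106818000], [], [nat_lit 6307789774, nat_lit 6652247394, nat_lit 5996344728, nat_lit 6308208496, nat_lit 5785332333, nat_lit 5934367971, nat_lit 5334371094, nat_lit 5465140897], nat_lit 0, nat_lit 0, nat_lit 0, nat_lit 0, nat_lit 0, nat_lit 0, [], [nat_lit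 37, nat_lit 40, nat_lit 40, nat_lit 80, nat_lit 28, nat_lit 428, nat_lit 200, nat_lit 10]⟩,
 ⟨nat_lit 3162, nat_lit 3536, ⟨.ofNat (nat_lit 386958), .ofNat (nat_lit 481116), .ofNat (nat_lit 408903), .ofNat (nat_lit 503061), .ofNat (nat_lit 391883), .ofNat (nat_lit 483329), .ofNat (nat_lit 414030), .ofNat (nat_lit 505476)⟩, ⟨.ofNat (nat_lit 0), .ofNat (nat_lit 261616), .ofNat (nat_lit 0), .ofNat (nat_lit 305521), .ofNat (nat_lit 0), .ofNat (nat_lit 261806), .ofNat (nat_lit 0), .ofNat (nat_lit 306116)⟩⟩, [⟨nat_lit 0, nat_lit 100, nat_lit 63, nat_lit 99, nat_lit 218178933⟩, ⟨nat_lit 7, nat_lit 88, nat_lit 100, nat_lit 74, nat_lit 39416285⟩]⟩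
noncomputable def p083_l5 : Lf2 := ⟨nat_lit 0, nat_lit 20, [nat_lit 5, nat_lit 5, nat_lit 5, nat_lit 20], false, nat_lit 0, nat_lit 160, nat_lit 0, nat_lit 160, ⟨nat_lit 1000, nat_lit 0, nat_lit 0, nat_lit 0, nat_lit 0, nat_lit 0, nat_lit 0, nat_lit 0, nat_lit 0, nat_lit 0, nat_lit 0, nat_lit 0, nat_lit 0, nat_lit 0, nat_lit 0, nat_lit 0, false, false⟩,
 nat_lit 0, nat_lit 9737, nat_lit 0, nat_lit 0, nat_lit 7302, nat_lit 7110, nat_lit 748, nat_lit 0, nat_lit 0, nat_lit 1327, nat_lit 0, nat_lit 0, nat_lit 0, nat_lit 0, nat_lit 0, nat_lit 0, nat_lit 0, nat_lit 0, [],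
 ⟨p083_k6, nat_lit 0, nat_lit 0, nat_lit 617, nat_lit 0, nat_lit 830289, [nat_lit 2032000001, nat_lit 4688000000, nat_lit 9842000000], [], [nat_lit 27207960017, nat_lit 30083823468, nat_lit 26302695828, nat_lit 28927275980, nat_lit 23412469484, nat_lit 25397909776, nat_lit 27653340076, nat_lit 24942826072], nat_lit 1271250, nat_lit 1271250, nat_lit 490000, nat_lit 1100001, nat_lit 0, nat_lit 1100001, [nat_lit 490000, nat_lit 1100000, nat_lit 2127500], [nat_lit 27, nat_lit 40, nat_lit 40, nat_lit 80, nat_lit 13, nat_lit 317, nat_lit 100, nat_lit 9]⟩, ⟨p083_k7, nat_lit 0, nat_lit 0, nat_lit 235, nat_lit 0, nat_lit 0, [nat_lit 4688000000, nat_lit 7968000000, nat_lit 11872000000], [], [nat_lit 22833438285, nat_lit 24319849805, nat_lit 22386017205, nat_lit 23710735485, nat_lit 18308381665, nat_lit 19364802845, nat_lit 18093106745, nat_lit 19023646925], nat_lit 0, nat_lit 0, nat_lit 0, nat_lit 0, nat_lit 0, nat_lit 0,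 [], [nat_lit 21, nat_lit 40, nat_lit 40, nat_lit 80, nat_lit 14, nat_lit 373, nat_lit 150, nat_lit 10]⟩,
 zbF0, [⟨nat_lit 0, nat_lit 100, nat_lit 76, nat_lit 97, nat_lit 737314455⟩]⟩
noncomputable def p083_l6 : Lf2 := ⟨nat_lit 0, nat_lit 20, [nat_lit 5, nat_lit 5, nat_lit 5, nat_lit 20], false, nat_lit 0, nat_lit 160, nat_lit 160, nat_lit 320, ⟨nat_lit 1000, nat_lit 0, nat_lit 0, nat_lit 0, nat_lit 0, nat_lit 0, nat_lit 0, nat_lit 0, nat_lit 0, nat_lit 0, nat_lit 0, nat_lit 0, nat_lit 0, nat_lit 0, nat_lit 0, nat_lit 0, false, false⟩,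
 nat_lit 0, nat_lit 9737, nat_lit 0, nat_lit 0, nat_lit 7302, nat_lit 7305, nat_lit 748, nat_lit 0, nat_lit 0, nat_lit 0, nat_lit 0, nat_lit 0, nat_lit 0, nat_lit 0, nat_lit 0, nat_lit 0, nat_lit 0, nat_lit 0, [],
 ⟨p083_k6, nat_lit 0, nat_lit 0, nat_lit 617, nat_lit 0, nat_lit 830289, [nat_lit 2032000001, nat_lit 4688000000, nat_lit 9842000000], [], [nat_lit 27207960017, nat_lit 30083823468, nat_lit 26302695828, nat_lit 28927275980, nat_lit 23412469484, nat_lit 25397909776, nat_lit 27653340076, nat_lit 24942826072], nat_lit 1271250, nat_lit 1271250, nat_lit 490000, nat_lit 1100001, nat_lit 0, nat_lit 1100001, [nat_lit 490000, nat_lit 1100000, nat_lit 2127500], [nat_lit 27, nat_lit 40, nat_lit 40, nat_lit 80, nat_lit 13, nat_lit 317, nat_lit 100, nat_lit 9]⟩, ⟨p083_k7, nat_lit 0, nat_lit 0, nat_lit 75, nat_lit 0, nat_lit 0, [nat_lit 4688000000, nat_lit 7968000000, nat_lit 11872000000], [], [nat_lit 9794308990,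 nat_lit 11824784480, nat_lit 10857299960, nat_lit 12643614280, nat_lit 21763132580, nat_lit 23272170340, nat_lit 21253306040, nat_lit 22597163180], nat_lit 0, nat_lit 0, nat_lit 0, nat_lit 0, nat_lit 0, nat_lit 0, [], [nat_lit 21, nat_lit 40, nat_lit 40, nat_lit 80, nat_lit 14, nat_lit 428, nat_lit 200, nat_lit 11]⟩,
 zbF0, [⟨nat_lit 0, nat_lit 100, nat_lit 76, nat_lit 97, nat_lit 791324863⟩, ⟨nat_lit 7, nat_lit 97, nat_lit 100, nat_lit 76, nat_lit 722935917⟩]⟩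
noncomputable def p083_l7 : Lf2 := ⟨nat_lit 0, nat_lit 20, [nat_lit 5, nat_lit 5, nat_lit 5, nat_lit 20], false, nat_lit 0, nat_lit 160, nat_lit 0, nat_lit 160, ⟨nat_lit 1000, nat_lit 0, nat_lit 0, nat_lit 0, nat_lit 0, nat_lit 0, nat_lit 0, nat_lit 0, nat_lit 0, nat_lit 0, nat_lit 0, nat_lit 0, nat_lit 0, nat_lit 0, nat_lit 0, nat_lit 0, false, false⟩,
 nat_lit 0, nat_lit 9774, nat_lit 0, nat_lit 0, nat_lit 7330, nat_lit 6597, nat_lit 692, nat_lit 0, nat_lit 0, nat_lit 1316, nat_lit 0, nat_lit 0, nat_lit 0, nat_lit 0, nat_lit 0, nat_lit 0, nat_lit 0, nat_lit 0, [],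
 ⟨p083_k6, nat_lit 0, nat_lit 0, nat_lit 586, nat_lit 0, nat_lit 830289, [nat_lit 2032000001, nat_lit 4688000000, nat_lit 9842000000], [], [nat_lit 26763416620, nat_lit 29507295700, nat_lit 27835224740, nat_lit 31615969640, nat_lit 23231492820, nat_lit 24825663880, nat_lit 28004894221, nat_lit 25731502400], nat_lit 1271250, nat_lit 1271250, nat_lit 1100001, nat_lit 1785000, nat_lit 0, nat_lit 1100001, [nat_lit 490000, nat_lit 1100000, nat_lit 2127500], [nat_lit 27, nat_lit 40, nat_lit 40, nat_lit 80, nat_lit 13, nat_lit 317, nat_lit 100, nat_lit 9]⟩, ⟨p083_k4, nat_lit 0, nat_lit 0, nat_lit 249, nat_lit 0, nat_lit 0, [nat_lit 4688000000, nat_lit 7968000000, nat_lit 14058000000], [], [nat_lit 24822906420, nat_lit 26968914280, nat_lit 26916073952, nat_lit 28699999180, nat_lit 20736564600, nat_lit 22286061088, nat_lit 22701168836, nat_lit 24624778968], nat_lit 0, nat_lit 0, nat_lit 0, nat_lit 0, nat_lit 0, nat_lit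 0, [], [nat_lit 37, nat_lit 40, nat_lit 40, nat_lit 80, nat_lit 28, nat_lit 401, nat_lit 175, nat_lit 9]⟩,
 zbF0, []⟩
noncomputable def p083_l8 : Lf2 := ⟨nat_lit 0, nat_lit 20, [nat_lit 5, nat_lit 5, nat_lit 5, nat_lit 20], false, nat_lit 0, nat_lit 160, nat_lit 160, nat_lit 336, ⟨nat_lit 1000, nat_lit 0, nat_lit 0, nat_lit 0, nat_lit 0, nat_lit 0, nat_lit 0, nat_lit 0, nat_lit 0, nat_lit 0, nat_lit 0, nat_lit 0, nat_lit 0, nat_lit 0, nat_lit 0, nat_lit 0, false, false⟩,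
 nat_lit 0, nat_lit 9774, nat_lit 0, nat_lit 0, nat_lit 7330, nat_lit 8464, nat_lit 692, nat_lit 0, nat_lit 0, nat_lit 0, nat_lit 0, nat_lit 0, nat_lit 0, nat_lit 0, nat_lit 0, nat_lit 0, nat_lit 0, nat_lit 0, [],
 ⟨p083_k6, nat_lit 0, nat_lit 0, nat_lit 586, nat_lit 0, nat_lit 830289, [nat_lit 2032000001, nat_lit 4688000000, nat_lit 9842000000], [], [nat_lit 26763416620, nat_lit 29507295700, nat_lit 27835224740, nat_lit 31615969640, nat_lit 23231492820, nat_lit 24825663880, nat_lit 28004894221, nat_lit 25731502400], nat_lit 1271250, nat_lit 1271250, nat_lit 1100001, nat_lit 1785000, nat_lit 0, nat_lit 1100001, [nat_lit 490000, nat_lit 1100000, nat_lit 2127500], [nat_lit 27, nat_lit 40, nat_lit 40, nat_lit 80, nat_lit 13, nat_lit 317, nat_lit 100, nat_lit 9]⟩, ⟨p083_k4, nat_lit 0, nat_lit 0, nat_lit 53, nat_lit 0, nat_lit 0, [nat_lit 4688000000, nat_lit 7968000000, nat_lit 14058000000], [], [nat_lit 7104218272,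 nat_lit 11027847744, nat_lit 11776779616, nat_lit 15665046304, nat_lit 22123278112, nat_lit 24840433818, nat_lit 24681994119, nat_lit 26903447911], nat_lit 0, nat_lit 0, nat_lit 0, nat_lit 0, nat_lit 0, nat_lit 0, [], [nat_lit 37, nat_lit 40, nat_lit 40, nat_lit 80, nat_lit 28, nat_lit 456, nat_lit 225, nat_lit 10]⟩,
 zbF0, [⟨nat_lit 19, nat_lit 100, nat_lit 92, nat_lit 75, nat_lit 827741950⟩]⟩
noncomputable def p083_l9 : Lf2 := ⟨nat_lit 0, nat_lit 15, [nat_lit 30, nat_lit 5, nat_lit 5, nat_lit 20], true, nat_lit 160, nat_lit 232, nat_lit 0, nat_lit 312, ⟨nat_lit 0, nat_lit 0, nat_lit 1000, nat_lit 6, nat_lit 150, nat_lit 1000, nat_lit 132, nat_lit 1000, nat_lit 163350, nat_lit 314, nat_lit 212817, nat_lit 328, nat_lit 51521106, nat_lit 0, nat_lit 0, nat_lit 3737843, false, false⟩,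
 nat_lit 0, nat_lit 3956, nat_lit 0, nat_lit 0, nat_lit 2967, nat_lit 0, nat_lit 0, nat_lit 0, nat_lit 0, nat_lit 0, nat_lit 0, nat_lit 0, nat_lit 0, nat_lit 0, nat_lit 118, nat_lit 400000, nat_lit 0, nat_lit 0, [(nat_lit 19, [(nat_lit 5, nat_lit 1000)])],
 ⟨p083_k8, nat_lit 0, nat_lit 0, nat_lit 298, nat_lit 0, nat_lit 511846, [nat_lit 1872800000, nat_lit 1707600000, nat_lit 48400000], [], [nat_lit 16248422762, nat_lit 17304730748, nat_lit 16688343828, nat_lit 17721748664, nat_lit 18264288463, nat_lit 19535956988, nat_lit 18688367895, nat_lit 19783293216], nat_lit 1271250, nat_lit 1271250, nat_lit 382400, nat_lit 780000, nat_lit 1100001, nat_lit 1716500, [nat_lit 490000, nat_lit 1100000, nat_lit 1785000], [nat_lit 34, nat_lit 40, nat_lit 40, nat_lit 80, nat_lit 7, nat_lit 317, nat_lit 100, nat_lit 10]⟩, C1.Rw.none,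
 ⟨nat_lit 3872, nat_lit 4473, ⟨.ofNat (nat_lit 311945), .ofNat (nat_lit 407125), .ofNat (nat_lit 333494), .ofNat (nat_lit 428674), .ofNat (nat_lit 324151), .ofNat (nat_lit 414492), .ofNat (nat_lit 345927), .ofNat (nat_lit 436268)⟩, ⟨.ofNat (nat_lit 259489), .ofNat (nat_lit 381849), .ofNat (nat_lit 281055), .ofNat (nat_lit 403416), .ofNat (nat_lit 261131), .ofNat (nat_lit 377270), .ofNat (nat_lit 282924), .ofNat (nat_lit 399063)⟩⟩, [⟨nat_lit 0, nat_lit 100, nat_lit 75, nat_lit 92, nat_lit 57538068⟩, ⟨nat_lit 4, nat_lit 100, nat_lit 76, nat_lit 66, nat_lit 290782388⟩]⟩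
noncomputable def p083_l10 : Lf2 := ⟨nat_lit 0, nat_lit 15, [nat_lit 30, nat_lit 5, nat_lit 5, nat_lit 20], false, nat_lit 160, nat_lit 232, nat_lit 0, nat_lit 296, ⟨nat_lit 485, nat_lit 0, nat_lit 515, nat_lit 6, nat_lit 164, nat_lit 515, nat_lit 132, nat_lit 515, nat_lit 163350, nat_lit 314, nat_lit 153600, nat_lit 311, nat_lit 50338791, nat_lit 0, nat_lit 0, nat_lit 3901911, false, false⟩,
 nat_lit 0, nat_lit 6266, nat_lit 0, nat_lit 0, nat_lit 4699, nat_lit 4974, nat_lit 53, nat_lit 0, nat_lit 0, nat_lit 680, nat_lit 0, nat_lit 0, nat_lit 0, nat_lit 0, nat_lit 0, nat_lit 515000, nat_lit 0, nat_lit 0, [(nat_lit 19, [(nat_lit 6, nat_lit 515)])],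
 ⟨p083_k8, nat_lit 0, nat_lit 0, nat_lit 363, nat_lit 0, nat_lit 627748, [nat_lit 1529085334, nat_lit 1789374000, nat_lit 360288000], [], [nat_lit 17698721354, nat_lit 18775679221, nat_lit 17694268895, nat_lit 18755028199, nat_lit 19300827491, nat_lit 20579770156, nat_lit 19281126361, nat_lit 20396345508], nat_lit 1271250, nat_lit 1271250, nat_lit 490000, nat_lit 780000, nat_lit 1100001, nat_lit 1716500, [nat_lit 490000, nat_lit 1100000, nat_lit 1785000], [nat_lit 34, nat_lit 40, nat_lit 40, nat_lit 80, nat_lit 7, nat_lit 317, nat_lit 100, nat_lit 10]⟩, ⟨p083_k9, nat_lit 0, nat_lit 0, nat_lit 235, nat_lit 0, nat_lit 0, [nat_lit 2273680000, nat_lit 3864480000, nat_lit 5757920000], [], [nat_lit 11682330444, nat_lit 12580264252, nat_lit 11021128974, nat_lit 11873277668, nat_lit 10523504359, nat_lit 11019394362, nat_lit 9818858126, nat_lit 10287846332], nat_lit 0, nat_lit 0, nat_lit 0, nat_lit 0, nat_lit 0, nat_lit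 0, [], [nat_lit 21, nat_lit 40, nat_lit 40, nat_lit 80, nat_lit 14, nat_lit 401, nat_lit 175, nat_lit 10]⟩,
 ⟨nat_lit 3872, nat_lit 4473, ⟨.ofNat (nat_lit 360688), .ofNat (nat_lit 428674), .ofNat (nat_lit 382237), .ofNat (nat_lit 450223), .ofNat (nat_lit 371739), .ofNat (nat_lit 436268), .ofNat (nat_lit 393514), .ofNat (nat_lit 458043)⟩, ⟨.ofNat (nat_lit 259489), .ofNat (nat_lit 381849), .ofNat (nat_lit 281055), .ofNat (nat_lit 403416), .ofNat (nat_lit 261131), .ofNat (nat_lit 377270), .ofNat (nat_lit 282924), .ofNat (nat_lit 399063)⟩⟩, [⟨nat_lit 0, nat_lit 100, nat_lit 81, nat_lit 93, nat_lit 522781592⟩, ⟨nat_lit 4, nat_lit 100, nat_lit 76, nat_lit 66, nat_lit 390124697⟩, ⟨nat_lit 7, nat_lit 100, nat_lit 100, nat_lit 71, nat_lit 84878211⟩]⟩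
noncomputable def p083_l11 : Lf2 := ⟨nat_lit 0, nat_lit 20, [nat_lit 5, nat_lit 5, nat_lit 5, nat_lit 20], true, nat_lit 160, nat_lit 200, nat_lit 0, nat_lit 336, ⟨nat_lit 0, nat_lit 0, nat_lit 1000, nat_lit 6, nat_lit 154, nat_lit 1000, nat_lit 130, nat_lit 1000, nat_lit 160067, nat_lit 313, nat_lit 153600, nat_lit 311, nat_lit 51304644, nat_lit 0, nat_lit 0, nat_lit 3765477, false, false⟩,
 nat_lit 0, nat_lit 4105, nat_lit 0, nat_lit 0, nat_lit 3078, nat_lit 0, nat_lit 19, nat_lit 0, nat_lit 0, nat_lit 0, nat_lit 0, nat_lit 0, nat_lit 0, nat_lit 0, nat_lit 129, nat_lit 400000, nat_lit 0, nat_lit 0, [(nat_lit 19, [(nat_lit 5, nat_lit 1000)])],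
 ⟨p083_k6, nat_lit 0, nat_lit 0, nat_lit 330, nat_lit 0, nat_lit 457515, [nat_lit 1960800001, nat_lit 1629600001, nat_lit 268000000], [], [nat_lit 16420559044, nat_lit 17445063677, nat_lit 16719608370, nat_lit 17664233290, nat_lit 17397751156, nat_lit 18489268762, nat_lit 17646064914, nat_lit 18536626342], nat_lit 1271250, nat_lit 1271250, nat_lit 382400, nat_lit 780000, nat_lit 1100001, nat_lit 1442500, [nat_lit 490000, nat_lit 1100000, nat_lit 2127500], [nat_lit 27, nat_lit 40, nat_lit 40, nat_lit 80, nat_lit 13, nat_lit 317, nat_lit 100, nat_lit 9]⟩, C1.Rw.none,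
 ⟨nat_lit 3872, nat_lit 4473, ⟨.ofNat (nat_lit 311945), .ofNat (nat_lit 407125), .ofNat (nat_lit 355043), .ofNat (nat_lit 450223), .ofNat (nat_lit 324151), .ofNat (nat_lit 414492), .ofNat (nat_lit 367703), .ofNat (nat_lit 458043)⟩, ⟨.ofNat (nat_lit 281055), .ofNat (nat_lit 349033), .ofNat (nat_lit 302621), .ofNat (nat_lit 370600), .ofNat (nat_lit 282924), .ofNat (nat_lit 347446), .ofNat (nat_lit 304717), .ofNat (nat_lit 369239)⟩⟩, [⟨nat_lit 0, nat_lit 99, nat_lit 77, nat_lit 100, nat_lit 374259072⟩]⟩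
noncomputable def p083_l12 : Lf2 := ⟨nat_lit 0, nat_lit 20, [nat_lit 5, nat_lit 5, nat_lit 5, nat_lit 20], true, nat_lit 200, nat_lit 260, nat_lit 0, nat_lit 336, ⟨nat_lit 0, nat_lit 0, nat_lit 1000, nat_lit 6, nat_lit 153, nat_lit 1000, nat_lit 164, nat_lit 1000, nat_lit 89743, nat_lit 288, nat_lit 191072, nat_lit 322, nat_lit 48734773, nat_lit 0, nat_lit 0, nat_lit 4150637, false, false⟩,
 nat_lit 0, nat_lit 3828, nat_lit 0, nat_lit 0, nat_lit 2871, nat_lit 0, nat_lit 29, nat_lit 0, nat_lit 0, nat_lit 0, nat_lit 0, nat_lit 0, nat_lit 0, nat_lit 0, nat_lit 129, nat_lit 400000, nat_lit 0, nat_lit 0, [(nat_lit 19, [(nat_lit 5, nat_lit 1000)])],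
 ⟨p083_k6, nat_lit 0, nat_lit 0, nat_lit 294, nat_lit 0, nat_lit 366110, [nat_lit 1960800001, nat_lit 1629600001, nat_lit 268000000], [], [nat_lit 17452873805, nat_lit 17939664658, nat_lit 17722214803, nat_lit 18182318297, nat_lit 19334953545, nat_lit 20036493526, nat_lit 19543778519, nat_lit 20102023937], nat_lit 1271250, nat_lit 1271250, nat_lit 382400, nat_lit 780000, nat_lit 1271250, nat_lit 1271250, [nat_lit 490000, nat_lit 1100000, nat_lit 2127500], [nat_lit 27, nat_lit 40, nat_lit 40, nat_lit 80, nat_lit 13, nat_lit 317, nat_lit 100, nat_lit 8]⟩, C1.Rw.none,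
 ⟨nat_lit 4183, nat_lit 4473, ⟨.ofNat (nat_lit 311996), .ofNat (nat_lit 407167), .ofNat (nat_lit 355120), .ofNat (nat_lit 450291), .ofNat (nat_lit 318053), .ofNat (nat_lit 410812), .ofNat (nat_lit 361378), .ofNat (nat_lit 454137)⟩, ⟨.ofNat (nat_lit 349033), .ofNat (nat_lit 451000), .ofNat (nat_lit 370600), .ofNat (nat_lit 472567), .ofNat (nat_lit 348332), .ofNat (nat_lit 447715), .ofNat (nat_lit 369998), .ofNat (nat_lit 469382)⟩⟩, [⟨nat_lit 0, nat_lit 100, nat_lit 83, nat_lit 98, nat_lit 95744169⟩, ⟨nat_lit 4, nat_lit 100, nat_lit 79, nat_lit 77, nat_lit 262370031⟩]⟩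
noncomputable def p083_l13 : Lf2 := ⟨nat_lit 0, nat_lit 20, [nat_lit 5, nat_lit 5, nat_lit 5, nat_lit 20], true, nat_lit 200, nat_lit 244, nat_lit 0, nat_lit 336, ⟨nat_lit 0, nat_lit 0, nat_lit 1000, nat_lit 6, nat_lit 159, nat_lit 1000, nat_lit 158, nat_lit 1000, nat_lit 232067, nat_lit 333, nat_lit 153600, nat_lit 311, nat_lit 48753021, nat_lit 0, nat_lit 0, nat_lit 4150394, false, false⟩,
 nat_lit 0, nat_lit 3950, nat_lit 0, nat_lit 0, nat_lit 3079, nat_lit 0, nat_lit 32, nat_lit 0, nat_lit 0, nat_lit 0, nat_lit 0, nat_lit 0, nat_lit 0, nat_lit 0, nat_lit 129, nat_lit 400000, nat_lit 0, nat_lit 0, [(nat_lit 19, [(nat_lit 5, nat_lit 1000)])],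
 ⟨p083_k10, nat_lit 0, nat_lit 0, nat_lit 312, nat_lit 0, nat_lit 433877, [nat_lit 1960800001, nat_lit 1629600001, nat_lit 268000000], [], [nat_lit 17685114385, nat_lit 18364434803, nat_lit 17931045393, nat_lit 18532696017, nat_lit 19245898384, nat_lit 19989261569, nat_lit 19398918884, nat_lit 20106910153], nat_lit 1271250, nat_lit 1271250, nat_lit 462650, nat_lit 780000, nat_lit 1271250, nat_lit 1271250, [nat_lit 490000, nat_lit 1100000, nat_lit 2127500], [nat_lit 27, nat_lit 40, nat_lit 40, nat_lit 80, nat_lit 13, nat_lit 317, nat_lit 100, nat_lit 8]⟩, C1.Rw.none,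
 ⟨nat_lit 3872, nat_lit 4184, ⟨.ofNat (nat_lit 337921), .ofNat (nat_lit 410806), .ofNat (nat_lit 381245), .ofNat (nat_lit 454130), .ofNat (nat_lit 343550), .ofNat (nat_lit 414527), .ofNat (nat_lit 387127), .ofNat (nat_lit 458104)⟩, ⟨.ofNat (nat_lit 348332), .ofNat (nat_lit 421213), .ofNat (nat_lit 369998), .ofNat (nat_lit 442879), .ofNat (nat_lit 347446), .ofNat (nat_lit 418419), .ofNat (nat_lit 369239), .ofNat (nat_lit 440213)⟩⟩, [⟨nat_lit 0, nat_lit 99, nat_lit 77, nat_lit 100, nat_lit 207490313⟩, ⟨nat_lit 4, nat_lit 100, nat_lit 74, nat_lit 77, nat_lit 295080178⟩]⟩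
noncomputable def p083_l14 : Lf2 := ⟨nat_lit 0, nat_lit 20, [nat_lit 5, nat_lit 5, nat_lit 5, nat_lit 20], false, nat_lit 160, nat_lit 232, nat_lit 0, nat_lit 336, ⟨nat_lit 285, nat_lit 0, nat_lit 715, nat_lit 6, nat_lit 166, nat_lit 715, nat_lit 136, nat_lit 715, nat_lit 173400, nat_lit 317, nat_lit 109688, nat_lit 296, nat_lit 49893996, nat_lit 0, nat_lit 0, nat_lit 3969397, false, false⟩,
 nat_lit 0, nat_lit 4783, nat_lit 0, nat_lit 0, nat_lit 3871, nat_lit 3114, nat_lit 0, nat_lit 0, nat_lit 0, nat_lit 384, nat_lit 0, nat_lit 0, nat_lit 0, nat_lit 0, nat_lit 49, nat_lit 386200, nat_lit 0, nat_lit 0, [(nat_lit 22, [(nat_lit 5, nat_lit 548), (nat_lit 6, nat_lit 167)])],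
 ⟨p083_k3, nat_lit 0, nat_lit 0, nat_lit 407, nat_lit 0, nat_lit 747897, [nat_lit 1632353601, nat_lit 1282917200, nat_lit 25930934], [], [nat_lit 17685012212, nat_lit 19301264020, nat_lit 17782323585, nat_lit 19292252256, nat_lit 20006870406, nat_lit 21698138768, nat_lit 20007655647, nat_lit 21635453182], nat_lit 1271250, nat_lit 1271250, nat_lit 545600, nat_lit 780000, nat_lit 1100001, nat_lit 1716500, [nat_lit 490000, nat_lit 1100000, nat_lit 1785000], [nat_lit 34, nat_lit 40, nat_lit 40, nat_lit 80, nat_lit 7, nat_lit 317, nat_lit 100, nat_lit 10]⟩, ⟨p083_k4, nat_lit 0, nat_lit 0, nat_lit 372, nat_lit 0, nat_lit 0, [nat_lit 1336080000, nat_lit 2270880000, nat_lit 4006530000], [], [nat_lit 8225816389, nat_lit 9112012973, nat_lit 7823272980, nat_lit 8674339920, nat_lit 7644683859, nat_lit 8033509729, nat_lit 7212079033, nat_lit 7580974248], nat_lit 0, nat_lit 0, nat_lit 0, nat_lit 0, nat_lit 0, nat_lit 0, [],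 [nat_lit 37, nat_lit 40, nat_lit 40, nat_lit 80, nat_lit 28, nat_lit 428, nat_lit 200, nat_lit 10]⟩,
 ⟨nat_lit 3162, nat_lit 3873, ⟨.ofNat (nat_lit 362778), .ofNat (nat_lit 414421), .ofNat (nat_lit 406307), .ofNat (nat_lit 457950), .ofNat (nat_lit 373492), .ofNat (nat_lit 422280), .ofNat (nat_lit 417744), .ofNat (nat_lit 466533)⟩, ⟨.ofNat (nat_lit 261131), .ofNat (nat_lit 377270), .ofNat (nat_lit 304717), .ofNat (nat_lit 420856), .ofNat (nat_lit 261806), .ofNat (nat_lit 371522), .ofNat (nat_lit 306116), .ofNat (nat_lit 415832)⟩⟩, [⟨nat_lit 0, nat_lit 100, nat_lit 69, nat_lit 96, nat_lit 429885746⟩, ⟨nat_lit 4, nat_lit 100, nat_lit 66, nat_lit 72, nat_lit 431188716⟩, ⟨nat_lit 19, nat_lit 100, nat_lit 92, nat_lit 75, nat_lit 50125688⟩]⟩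
noncomputable def p083_l15 : Lf2 := ⟨nat_lit 0, nat_lit 20, [nat_lit 5, nat_lit 5, nat_lit 5, nat_lit 20], false, nat_lit 160, nat_lit 260, nat_lit 0, nat_lit 160, ⟨nat_lit 1000, nat_lit 0, nat_lit 0, nat_lit 0, nat_lit 0, nat_lit 0, nat_lit 0, nat_lit 0, nat_lit 0, nat_lit 0, nat_lit 0, nat_lit 0, nat_lit 0, nat_lit 0, nat_lit 0, nat_lit 0, false, false⟩,
 nat_lit 0, nat_lit 10038, nat_lit 0, nat_lit 0, nat_lit 7528, nat_lit 6843, nat_lit 769, nat_lit 0, nat_lit 0, nat_lit 1439, nat_lit 0, nat_lit 0, nat_lit 0, nat_lit 0, nat_lit 0, nat_lit 0, nat_lit 0, nat_lit 0, [],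
 ⟨p083_k6, nat_lit 0, nat_lit 0, nat_lit 479, nat_lit 0, nat_lit 830289, [nat_lit 2032000001, nat_lit 4688000000, nat_lit 9842000000], [], [nat_lit 20671590485, nat_lit 22752058368, nat_lit 21873488992, nat_lit 24444582080, nat_lit 22589632272, nat_lit 25804849824, nat_lit 23973792872, nat_lit 27588113480], nat_lit 1271250, nat_lit 1271250, nat_lit 780000, nat_lit 1762500, nat_lit 1100001, nat_lit 1956250, [nat_lit 490000, nat_lit 1100000, nat_lit 2127500], [nat_lit 27, nat_lit 40, nat_lit 40, nat_lit 80, nat_lit 13, nat_lit 345, nat_lit 125, nat_lit 9]⟩, ⟨p083_k4, nat_lit 0, nat_lit 0, nat_lit 263, nat_lit 0, nat_lit 0, [nat_lit 4688000000, nat_lit 7968000000, nat_lit 14058000000], [], [nat_lit 23668259220, nat_lit 25994105180, nat_lit 25830098588, nat_lit 27704793336, nat_lit 19016621868, nat_lit 21302707744, nat_lit 22167837884, nat_lit 24123220392], nat_lit 0, nat_lit 0, nat_lit 0, nat_lit 0, nat_lit 0, nat_lit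 0, [], [nat_lit 37, nat_lit 40, nat_lit 40, nat_lit 80, nat_lit 28, nat_lit 401, nat_lit 175, nat_lit 9]⟩,
 zbF0, [⟨nat_lit 0, nat_lit 94, nat_lit 62, nat_lit 100, nat_lit 515626930⟩, ⟨nat_lit 4, nat_lit 100, nat_lit 71, nat_lit 71, nat_lit 728137760⟩]⟩
noncomputable def p083_l16 : Lf2 := ⟨nat_lit 0, nat_lit 20, [nat_lit 5, nat_lit 5, nat_lit 5, nat_lit 20], false, nat_lit 160, nat_lit 260, nat_lit 160, nat_lit 336, ⟨nat_lit 1000, nat_lit 0, nat_lit 0, nat_lit 0, nat_lit 0, nat_lit 0, nat_lit 0, nat_lit 0, nat_lit 0, nat_lit 0, nat_lit 0, nat_lit 0, nat_lit 0, nat_lit 0, nat_lit 0, nat_lit 0, false, false⟩,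
 nat_lit 0, nat_lit 9989, nat_lit 0, nat_lit 0, nat_lit 7491, nat_lit 6826, nat_lit 769, nat_lit 0, nat_lit 0, nat_lit 0, nat_lit 0, nat_lit 0, nat_lit 0, nat_lit 0, nat_lit 0, nat_lit 0, nat_lit 0, nat_lit 0, [],
 ⟨p083_k6, nat_lit 0, nat_lit 0, nat_lit 479, nat_lit 0, nat_lit 830289, [nat_lit 2032000001, nat_lit 4688000000, nat_lit 9842000000], [], [nat_lit 20798570045, nat_lit 22873486596, nat_lit 22006246324, nat_lit 24423275260, nat_lit 22717403484, nat_lit 25775330003, nat_lit 23961257309, nat_lit 27564316560], nat_lit 1271250, nat_lit 1271250, nat_lit 780000, nat_lit 1762500, nat_lit 1100001, nat_lit 1956250, [nat_lit 490000, nat_lit 1100000, nat_lit 2127500], [nat_lit 27, nat_lit 40, nat_lit 40, nat_lit 80, nat_lit 13, nat_lit 345, nat_lit 125, nat_lit 9]⟩, ⟨p083_k4, nat_lit 0, nat_lit 0, nat_lit 66, nat_lit 0, nat_lit 0, [nat_lit 4688000000, nat_lit 7968000000, nat_lit 14058000000], [], [nat_lit 8774920472,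 nat_lit 12453414488, nat_lit 14061255424, nat_lit 16902972120, nat_lit 21328428453, nat_lit 23920401877, nat_lit 24041723506, nat_lit 26055269234], nat_lit 0, nat_lit 0, nat_lit 0, nat_lit 0, nat_lit 0, nat_lit 0, [], [nat_lit 37, nat_lit 40, nat_lit 40, nat_lit 80, nat_lit 28, nat_lit 456, nat_lit 225, nat_lit 10]⟩,
 zbF0, [⟨nat_lit 0, nat_lit 94, nat_lit 62, nat_lit 100, nat_lit 171708773⟩, ⟨nat_lit 4, nat_lit 100, nat_lit 71, nat_lit 71, nat_lit 704342164⟩, ⟨nat_lit 19, nat_lit 100, nat_lit 76, nat_lit 82, nat_lit 675858079⟩]⟩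
noncomputable def p083_l17 : Lf2 := ⟨nat_lit 0, nat_lit 20, [nat_lit 5, nat_lit 5, nat_lit 5, nat_lit 20], false, nat_lit 0, nat_lit 260, nat_lit 0, nat_lit 160, ⟨nat_lit 1000, nat_lit 0, nat_lit 0, nat_lit 0, nat_lit 0, nat_lit 0, nat_lit 0, nat_lit 0, nat_lit 0, nat_lit 0, nat_lit 0, nat_lit 0, nat_lit 0, nat_lit 0, nat_lit 0, nat_lit 0, false, false⟩,
 nat_lit 0, nat_lit 8181, nat_lit 0, nat_lit 0, nat_lit 6135, nat_lit 6392, nat_lit 480, nat_lit 0, nat_lit 0, nat_lit 1100, nat_lit 0, nat_lit 0, nat_lit 0, nat_lit 0, nat_lit 0, nat_lit 0, nat_lit 0, nat_lit 0, [],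
 ⟨p083_k6, nat_lit 0, nat_lit 0, nat_lit 568, nat_lit 0, nat_lit 830289, [nat_lit 2032000001, nat_lit 4688000000, nat_lit 9842000000], [], [nat_lit 34163579440, nat_lit 35692227220, nat_lit 38699046871, nat_lit 40832686351, nat_lit 32255132220, nat_lit 33310842055, nat_lit 35302914599, nat_lit 35992268535], nat_lit 1271250, nat_lit 1271250, nat_lit 1271250, nat_lit 1271250, nat_lit 0, nat_lit 1836250, [nat_lit 490000, nat_lit 1100000, nat_lit 2127500], [nat_lit 27, nat_lit 40, nat_lit 40, nat_lit 80, nat_lit 13, nat_lit 401, nat_lit 175, nat_lit 11]⟩, ⟨p083_k4, nat_lit 0, nat_lit 0, nat_lit 278, nat_lit 0, nat_lit 0, [nat_lit 4688000000, nat_lit 7968000000, nat_lit 14058000000], [], [nat_lit 28954634672, nat_lit 30717706480, nat_lit 37719464647, nat_lit 38631890365, nat_lit 24760875024, nat_lit 26031774096, nat_lit 32022707604, nat_lit 33100785722], nat_lit 0, nat_lit 0, nat_lit 0, nat_lit 0, nat_lit 0, nat_lit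 0, [], [nat_lit 37, nat_lit 40, nat_lit 40, nat_lit 80, nat_lit 28, nat_lit 456, nat_lit 225, nat_lit 10]⟩,
 zbF0, [⟨nat_lit 4, nat_lit 100, nat_lit 71, nat_lit 71, nat_lit 248097436⟩]⟩
noncomputable def p083_l18 : Lf2 := ⟨nat_lit 0, nat_lit 20, [nat_lit 5, nat_lit 5, nat_lit 5, nat_lit 20], false, nat_lit 0, nat_lit 260, nat_lit 160, nat_lit 336, ⟨nat_lit 1000, nat_lit 0, nat_lit 0, nat_lit 0, nat_lit 0, nat_lit 0, nat_lit 0, nat_lit 0, nat_lit 0, nat_lit 0, nat_lit 0, nat_lit 0, nat_lit 0, nat_lit 0, nat_lit 0, nat_lit 0, false, false⟩,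
 nat_lit 0, nat_lit 7710, nat_lit 0, nat_lit 0, nat_lit 5782, nat_lit 5888, nat_lit 620, nat_lit 0, nat_lit 0, nat_lit 0, nat_lit 0, nat_lit 0, nat_lit 0, nat_lit 0, nat_lit 0, nat_lit 0, nat_lit 0, nat_lit 0, [],
 ⟨p083_k6, nat_lit 0, nat_lit 0, nat_lit 568, nat_lit 0, nat_lit 830289, [nat_lit 2032000001, nat_lit 4688000000, nat_lit 9842000000], [], [nat_lit 34044085308, nat_lit 35537705604, nat_lit 38510880824, nat_lit 39774960218, nat_lit 32485733604, nat_lit 33526963026, nat_lit 36124764519, nat_lit 37007537827], nat_lit 1271250, nat_lit 1271250, nat_lit 1271250, nat_lit 1271250, nat_lit 0, nat_lit 1836250, [nat_lit 490000, nat_lit 1100000, nat_lit 2127500], [nat_lit 27, nat_lit 40, nat_lit 40, nat_lit 80, nat_lit 13, nat_lit 401, nat_lit 175, nat_lit 11]⟩, ⟨p083_k4, nat_lit 0, nat_lit 0, nat_lit 94, nat_lit 0, nat_lit 0, [nat_lit 4688000000, nat_lit 7968000000, nat_lit 14058000000], [], [nat_lit 15403886112,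 nat_lit 18027990560, nat_lit 27297635386, nat_lit 28874676362, nat_lit 24432427610, nat_lit 26052452480, nat_lit 32829530561, nat_lit 33852971182], nat_lit 0, nat_lit 0, nat_lit 0, nat_lit 0, nat_lit 0, nat_lit 0, [], [nat_lit 37, nat_lit 40, nat_lit 40, nat_lit 80, nat_lit 28, nat_lit 538, nat_lit 300, nat_lit 12]⟩,
 zbF0, [⟨nat_lit 4, nat_lit 100, nat_lit 71, nat_lit 71, nat_lit 262254980⟩, ⟨nat_lit 19, nat_lit 100, nat_lit 92, nat_lit 75, nat_lit 531607221⟩]⟩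
noncomputable def b_V_800_600_10_20 : St := ⟨true, nat_lit 1, nat_lit 0, nat_lit 1, nat_lit 80, nat_lit 320, nat_lit 360, nat_lit 240, nat_lit 280, nat_lit 64, nat_lit 396, nat_lit 40, nat_lit 80, nat_lit 0, nat_lit 260, nat_lit 0, nat_lit 336, nat_lit 40, nat_lit 80, nat_lit 0, nat_lit 0, nat_lit 0, nat_lit 0⟩
theorem d_V_800_600_10_20 (h : EB TB.env) : Dead b_V_800_600_10_20 := chkB_sound0 h (T :=
(.spl (nat_lit 2) (nat_lit 240)
(.spl (nat_lit 4) (nat_lit 160)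
(.spl (nat_lit 2) (nat_lit 160)
(.spl (nat_lit 1) (nat_lit 260)
(.spl (nat_lit 0) (nat_lit 340)
(.spl (nat_lit 3) (nat_lit 60)
(.trX (nat_lit 19) (nat_lit 100) (nat_lit 85) (nat_lit 73) (nat_lit 312) (.spl (nat_lit 1) (nat_lit 250)
(.leaf p083_l0)
(.trZ (nat_lit 0) (nat_lit 100) (nat_lit 83) (nat_lit 81) (nat_lit 72) (.trX (nat_lit 19) (nat_lit 100) (nat_lit 88) (nat_lit 74) (nat_lit 304) (.leaf p083_l1)))))
(.leaf p083_l2))
(.trZ (nat_lit 0) (nat_lit 100) (nat_lit 73) (nat_lit 85) (nat_lit 88) (.spl (nat_lit 0) (nat_lit 350)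
(.leaf p083_l3)
(.trZ (nat_lit 0) (nat_lit 100) (nat_lit 68) (nat_lit 89) (nat_lit 100) (.leaf p083_l4)))))
(.trZ (nat_lit 0) (nat_lit 100) (nat_lit 84) (nat_lit 85) (nat_lit 80) (.trX (nat_lit 19) (nat_lit 100) (nat_lit 85) (nat_lit 84) (nat_lit 320) (.spl (nat_lit 5) (nat_lit 160)
(.leaf p083_l5)
(.leaf p083_l6)))))
(.spl (nat_lit 5) (nat_lit 160)
(.leaf p083_l7)
(.leaf p083_l8)))
(.spl (nat_lit 2) (nat_lit 120)
(.spl (nat_lit 0) (nat_lit 340)
(.spl (nat_lit 3) (nat_lit 60)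
(.trX (nat_lit 16) (nat_lit 81) (nat_lit 100) (nat_lit 72) (nat_lit 232) (.trX (nat_lit 19) (nat_lit 100) (nat_lit 85) (nat_lit 73) (nat_lit 312) (.spl (nat_lit 1) (nat_lit 260)
(.leaf p083_l9)
(.trZ (nat_lit 0) (nat_lit 100) (nat_lit 84) (nat_lit 85) (nat_lit 80) (.trX (nat_lit 19) (nat_lit 100) (nat_lit 92) (nat_lit 75) (nat_lit 296) (.leaf p083_l10))))))
(.spl (nat_lit 4) (nat_lit 200)
(.leaf p083_l11)
(.spl (nat_lit 0) (nat_lit 330)
(.leaf p083_l12)
(.trZ (nat_lit 0) (nat_lit 100) (nat_lit 78) (nat_lit 81) (nat_lit 76) (.trX (nat_lit 16) (nat_lit 78) (nat_lit 100) (nat_lit 82) (nat_lit 244) (.leaf p083_l13))))))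
(.trZ (nat_lit 0) (nat_lit 100) (nat_lit 73) (nat_lit 85) (nat_lit 88) (.trX (nat_lit 16) (nat_lit 72) (nat_lit 100) (nat_lit 81) (nat_lit 232) (.leaf p083_l14))))
(.spl (nat_lit 5) (nat_lit 160)
(.leaf p083_l15)
(.leaf p083_l16))))
(.spl (nat_lit 5) (nat_lit 160)
(.leaf p083_l17)
(.leaf p083_l18)))) (by decide +kernel)
noncomputable def p083_l19 : Lf2 := ⟨nat_lit 0, nat_lit 20, [nat_lit 5, nat_lit 5, nat_lit 5, nat_lit 20], false, nat_lit 0, nat_lit 160, nat_lit 0, nat_lit 336, ⟨nat_lit 0, nat_lit 0, nat_lit 1000, nat_lit 6, nat_lit 154, nat_lit 1000, nat_lit 56, nat_lit 1000, nat_lit 29400, nat_lit 257, nat_lit 153600, nat_lit 311, nat_lit 58308227, nat_lit 0, nat_lit 0, nat_lit 1929344, false, false⟩,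
 nat_lit 0, nat_lit 4321, nat_lit 0, nat_lit 0, nat_lit 3240, nat_lit 0, nat_lit 0, nat_lit 0, nat_lit 0, nat_lit 0, nat_lit 0, nat_lit 0, nat_lit 0, nat_lit 0, nat_lit 129, nat_lit 400000, nat_lit 0, nat_lit 0, [(nat_lit 19, [(nat_lit 5, nat_lit 1000)])],
 ⟨p083_k2, nat_lit 0, nat_lit 0, nat_lit 441, nat_lit 0, nat_lit 380375, [nat_lit 2117400001, nat_lit 1311300000, nat_lit 268000000], [], [nat_lit 17252592640, nat_lit 18829132928, nat_lit 17175309280, nat_lit 18513649840, nat_lit 17139412196, nat_lit 18100291940, nat_lit 18595288163, nat_lit 18327499044], nat_lit 1271250, nat_lit 1271250, nat_lit 382400, nat_lit 780000, nat_lit 0, nat_lit 1100001, [nat_lit 490000, nat_lit 1427500, nat_lit 1271250], [nat_lit 61, nat_lit 40, nat_lit 40, nat_lit 80, nat_lit 1, nat_lit 289, nat_lit 75, nat_lit 8]⟩, ⟨p083_k11, nat_lit 0, nat_lit 0, nat_lit 672, nat_lit 0, nat_lit 591694, [nat_lit 0, nat_lit 0, nat_lit 0], [], [nat_lit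 0, nat_lit 0, nat_lit 0, nat_lit 0, nat_lit 0, nat_lit 0, nat_lit 0, nat_lit 0], nat_lit 1271250, nat_lit 1271250, nat_lit 382400, nat_lit 780000, nat_lit 0, nat_lit 2373000, [nat_lit 1100000, nat_lit 2127500, nat_lit 1271250], [nat_lit 56, nat_lit 40, nat_lit 40, nat_lit 80, nat_lit 32, nat_lit 428, nat_lit 200, nat_lit 10]⟩,
 ⟨nat_lit 3872, nat_lit 4473, ⟨.ofNat (nat_lit 311945), .ofNat (nat_lit 407125), .ofNat (nat_lit 355043), .ofNat (nat_lit 450223), .ofNat (nat_lit 324151), .ofNat (nat_lit 414492), .ofNat (nat_lit 367703), .ofNat (nat_lit 458043)⟩, ⟨.negSucc (nat_lit 12427), .ofNat (nat_lit 259489), .ofNat (nat_lit 0), .ofNat (nat_lit 302621), .ofNat (nat_lit 0), .ofNat (nat_lit 261131), .ofNat (nat_lit 0), .ofNat (nat_lit 304717)⟩⟩, [⟨nat_lit 0, nat_lit 100, nat_lit 80, nat_lit 89, nat_lit 130591549⟩]⟩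
noncomputable def p083_l20 : Lf2 := ⟨nat_lit 0, nat_lit 20, [nat_lit 5, nat_lit 5, nat_lit 5, nat_lit 20], false, nat_lit 0, nat_lit 160, nat_lit 0, nat_lit 336, ⟨nat_lit 27, nat_lit 0, nat_lit 973, nat_lit 6, nat_lit 186, nat_lit 946, nat_lit 56, nat_lit 973, nat_lit 29400, nat_lit 257, nat_lit 19328, nat_lit 248, nat_lit 55123840, nat_lit 0, nat_lit 0, nat_lit 2336034, false, false⟩,
 nat_lit 568, nat_lit 3542, nat_lit 0, nat_lit 0, nat_lit 3082, nat_lit 300, nat_lit 73, nat_lit 0, nat_lit 0, nat_lit 3, nat_lit 0, nat_lit 0, nat_lit 0, nat_lit 0, nat_lit 116, nat_lit 389200, nat_lit 0, nat_lit 0, [(nat_lit 19, [(nat_lit 5, nat_lit 973)])],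
 ⟨p083_k2, nat_lit 0, nat_lit 0, nat_lit 351, nat_lit 0, nat_lit 324587, [nat_lit 2038958201, nat_lit 1254304900, nat_lit 260022000], [], [nat_lit 16769058324, nat_lit 17369471833, nat_lit 17409369260, nat_lit 17933724668, nat_lit 17061524476, nat_lit 17534075216, nat_lit 18439525418, nat_lit 18212222878], nat_lit 1271250, nat_lit 1271250, nat_lit 780000, nat_lit 1100001, nat_lit 0, nat_lit 1100001, [nat_lit 490000, nat_lit 1427500, nat_lit 1271250], [nat_lit 61, nat_lit 40, nat_lit 40, nat_lit 80, nat_lit 1, nat_lit 317, nat_lit 100, nat_lit 9]⟩, ⟨p083_k11, nat_lit 0, nat_lit 0, nat_lit 604, nat_lit 0, nat_lit 504913, [nat_lit 126576000, nat_lit 265734000, nat_lit 379566000], [], [nat_lit 1572467124, nat_lit 1252026120, nat_lit 1250304324, nat_lit 1222233732, nat_lit 1147241724, nat_lit 1046492252, nat_lit 1291952472, nat_lit 1021643112], nat_lit 1271250, nat_lit 1271250, nat_lit 780000, nat_lit 1100001, nat_lit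 0, nat_lit 2373000, [nat_lit 1100000, nat_lit 2127500, nat_lit 1271250], [nat_lit 56, nat_lit 40, nat_lit 40, nat_lit 80, nat_lit 32, nat_lit 428, nat_lit 200, nat_lit 10]⟩,
 ⟨nat_lit 4183, nat_lit 4473, ⟨.ofNat (nat_lit 407167), .ofNat (nat_lit 475145), .ofNat (nat_lit 450291), .ofNat (nat_lit 518271), .ofNat (nat_lit 410812), .ofNat (nat_lit 477068), .ofNat (nat_lit 454137), .ofNat (nat_lit 520394)⟩, ⟨.negSucc (nat_lit 12423), .ofNat (nat_lit 259489), .ofNat (nat_lit 0), .ofNat (nat_lit 302621), .negSucc (nat_lit 4612), .ofNat (nat_lit 260409), .ofNat (nat_lit 0), .ofNat (nat_lit 303743)⟩⟩, [⟨nat_lit 7, nat_lit 92, nat_lit 100, nat_lit 75, nat_lit 2773281⟩]⟩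
noncomputable def p083_l21 : Lf2 := ⟨nat_lit 0, nat_lit 20, [nat_lit 5, nat_lit 5, nat_lit 5, nat_lit 20], false, nat_lit 0, nat_lit 160, nat_lit 0, nat_lit 336, ⟨nat_lit 41, nat_lit 0, nat_lit 959, nat_lit 6, nat_lit 187, nat_lit 830, nat_lit 56, nat_lit 959, nat_lit 29400, nat_lit 257, nat_lit 19642, nat_lit 247, nat_lit 55000501, nat_lit 0, nat_lit 0, nat_lit 2350106, false, false⟩,
 nat_lit 871, nat_lit 3023, nat_lit 0, nat_lit 0, nat_lit 3035, nat_lit 461, nat_lit 65, nat_lit 0, nat_lit 0, nat_lit 4, nat_lit 0, nat_lit 0, nat_lit 0, nat_lit 0, nat_lit 110, nat_lit 383600, nat_lit 0, nat_lit 0, [(nat_lit 19, [(nat_lit 5, nat_lit 959)])],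
 ⟨p083_k12, nat_lit 0, nat_lit 0, nat_lit 368, nat_lit 0, nat_lit 362776, [nat_lit 2004210601, nat_lit 1239566700, nat_lit 276626000], [], [nat_lit 17635151313, nat_lit 18184022593, nat_lit 18251440253, nat_lit 18772508293, nat_lit 17888840243, nat_lit 18358591193, nat_lit 18440292593, nat_lit 18996049774], nat_lit 1271250, nat_lit 1271250, nat_lit 780000, nat_lit 1100001, nat_lit 0, nat_lit 1100001, [nat_lit 490000, nat_lit 1427500, nat_lit 1271250], [nat_lit 61, nat_lit 40, nat_lit 40, nat_lit 80, nat_lit 1, nat_lit 317, nat_lit 100, nat_lit 9]⟩, ⟨p083_k11, nat_lit 0, nat_lit 0, nat_lit 638, nat_lit 0, nat_lit 591694, [nat_lit 192208000, nat_lit 403522000, nat_lit 576378000], [], [nat_lit 2401963568, nat_lit 1906906732, nat_lit 1906906732, nat_lit 1852925172, nat_lit 1741751780, nat_lit 1594630278, nat_lit 1963496761, nat_lit 1548121378], nat_lit 1271250, nat_lit 1271250, nat_lit 780000, nat_lit 1100001, nat_lit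 0, nat_lit 2373000, [nat_lit 1100000, nat_lit 2127500, nat_lit 1271250], [nat_lit 56, nat_lit 40, nat_lit 40, nat_lit 80, nat_lit 32, nat_lit 428, nat_lit 200, nat_lit 10]⟩,
 ⟨nat_lit 3872, nat_lit 4184, ⟨.ofNat (nat_lit 410806), .ofNat (nat_lit 477065), .ofNat (nat_lit 454130), .ofNat (nat_lit 520388), .ofNat (nat_lit 414527), .ofNat (nat_lit 479052), .ofNat (nat_lit 458104), .ofNat (nat_lit 522628)⟩, ⟨.negSucc (nat_lit 4619), .ofNat (nat_lit 260409), .ofNat (nat_lit 0), .ofNat (nat_lit 303743), .ofNat (nat_lit 0), .ofNat (nat_lit 261131), .ofNat (nat_lit 0), .ofNat (nat_lit 304717)⟩⟩, [⟨nat_lit 7, nat_lit 92, nat_lit 100, nat_lit 75, nat_lit 4252307⟩]⟩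
noncomputable def p083_l22 : Lf2 := ⟨nat_lit 0, nat_lit 20, [nat_lit 5, nat_lit 5, nat_lit 5, nat_lit 20], false, nat_lit 0, nat_lit 160, nat_lit 0, nat_lit 336, ⟨nat_lit 96, nat_lit 0, nat_lit 904, nat_lit 6, nat_lit 178, nat_lit 904, nat_lit 57, nat_lit 904, nat_lit 29400, nat_lit 257, nat_lit 15045, nat_lit 245, nat_lit 55939096, nat_lit 0, nat_lit 0, nat_lit 2240056, false, false⟩,
 nat_lit 1917, nat_lit 1858, nat_lit 0, nat_lit 0, nat_lit 3055, nat_lit 1014, nat_lit 0, nat_lit 0, nat_lit 0, nat_lit 11, nat_lit 0, nat_lit 0, nat_lit 0, nat_lit 0, nat_lit 103, nat_lit 361600, nat_lit 0, nat_lit 0, [(nat_lit 22, [(nat_lit 5, nat_lit 904)])],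
 ⟨p083_k13, nat_lit 0, nat_lit 0, nat_lit 369, nat_lit 0, nat_lit 398614, [nat_lit 1901376001, nat_lit 775521601, nat_lit 608000], [], [nat_lit 18097023575, nat_lit 19096459003, nat_lit 18802726920, nat_lit 19712475360, nat_lit 18301589389, nat_lit 18922302281, nat_lit 19450746285, nat_lit 20016791235], nat_lit 1271250, nat_lit 1271250, nat_lit 545600, nat_lit 1100001, nat_lit 0, nat_lit 1100001, [nat_lit 490000, nat_lit 1427500, nat_lit 1271250], [nat_lit 102, nat_lit 40, nat_lit 40, nat_lit 80, nat_lit 2, nat_lit 317, nat_lit 100, nat_lit 10]⟩, ⟨p083_k11, nat_lit 0, nat_lit 0, nat_lit 725, nat_lit 0, nat_lit 680767, [nat_lit 450048000, nat_lit 944832000, nat_lit 1349568000], [], [nat_lit 6339025157, nat_lit 5236399124, nat_lit 4489286056, nat_lit 4513801408, nat_lit 3906891024, nat_lit 3918546313, nat_lit 4577715212, nat_lit 3664069575], nat_lit 1271250, nat_lit 1271250, nat_lit 545600, nat_lit 1100001, nat_lit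 0, nat_lit 2373000, [nat_lit 1100000, nat_lit 2127500, nat_lit 1271250], [nat_lit 56, nat_lit 40, nat_lit 40, nat_lit 80, nat_lit 32, nat_lit 428, nat_lit 200, nat_lit 10]⟩,
 ⟨nat_lit 3535, nat_lit 3873, ⟨.ofNat (nat_lit 362897), .ofNat (nat_lit 479046), .ofNat (nat_lit 406471), .ofNat (nat_lit 522620), .ofNat (nat_lit 368144), .ofNat (nat_lit 481125), .ofNat (nat_lit 412037), .ofNat (nat_lit 525018)⟩, ⟨.ofNat (nat_lit 0), .ofNat (nat_lit 261131), .ofNat (nat_lit 0), .ofNat (nat_lit 304717), .ofNat (nat_lit 0), .ofNat (nat_lit 261616), .ofNat (nat_lit 0), .ofNat (nat_lit 305521)⟩⟩, [⟨nat_lit 0, nat_lit 96, nat_lit 69, nat_lit 100, nat_lit 110029562⟩]⟩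
noncomputable def p083_l23 : Lf2 := ⟨nat_lit 0, nat_lit 20, [nat_lit 5, nat_lit 5, nat_lit 5, nat_lit 20], false, nat_lit 0, nat_lit 160, nat_lit 0, nat_lit 336, ⟨nat_lit 124, nat_lit 0, nat_lit 876, nat_lit 6, nat_lit 183, nat_lit 876, nat_lit 57, nat_lit 876, nat_lit 30817, nat_lit 258, nat_lit 16148, nat_lit 244, nat_lit 55388280, nat_lit 0, nat_lit 0, nat_lit 2305472, false, false⟩,
 nat_lit 2539, nat_lit 1084, nat_lit 0, nat_lit 0, nat_lit 3043, nat_lit 1344, nat_lit 0, nat_lit 0, nat_lit 0, nat_lit 11, nat_lit 0, nat_lit 0, nat_lit 0, nat_lit 0, nat_lit 90, nat_lit 350400, nat_lit 0, nat_lit 0, [(nat_lit 22, [(nat_lit 5, nat_lit 876)])],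
 ⟨p083_k14, nat_lit 0, nat_lit 0, nat_lit 381, nat_lit 0, nat_lit 432226, [nat_lit 1826944001, nat_lit 748890401, nat_lit 11952000], [], [nat_lit 19067501964, nat_lit 20051593516, nat_lit 19691550336, nat_lit 20599467480, nat_lit 19241737693, nat_lit 19852658745, nat_lit 20201896203, nat_lit 20766963273], nat_lit 1271250, nat_lit 1271250, nat_lit 631250, nat_lit 1100001, nat_lit 0, nat_lit 1100001, [nat_lit 490000, nat_lit 1427500, nat_lit 1271250], [nat_lit 102, nat_lit 40, nat_lit 40, nat_lit 80, nat_lit 2, nat_lit 317, nat_lit 100, nat_lit 10]⟩, ⟨p083_k11, nat_lit 0, nat_lit 0, nat_lit 753, nat_lit 0, nat_lit 771967, [nat_lit 581312000, nat_lit 1220408000, nat_lit 1743192000], [], [nat_lit 7866962640, nat_lit 6412311120, nat_lit 5734049800, nat_lit 5764123112, nat_lit 5019140061, nat_lit 4979761529, nat_lit 5923218004, nat_lit 4712232071], nat_lit 1271250, nat_lit 1271250, nat_lit 631250, nat_lit 1100001, nat_lit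 0, nat_lit 2373000, [nat_lit 1100000, nat_lit 2127500, nat_lit 1271250], [nat_lit 56, nat_lit 40, nat_lit 40, nat_lit 80, nat_lit 32, nat_lit 428, nat_lit 200, nat_lit 10]⟩,
 ⟨nat_lit 3162, nat_lit 3536, ⟨.ofNat (nat_lit 386958), .ofNat (nat_lit 481116), .ofNat (nat_lit 430847), .ofNat (nat_lit 525005), .ofNat (nat_lit 391883), .ofNat (nat_lit 483329), .ofNat (nat_lit 436176), .ofNat (nat_lit 527622)⟩, ⟨.ofNat (nat_lit 0), .ofNat (nat_lit 261616), .ofNat (nat_lit 0), .ofNat (nat_lit 305521), .ofNat (nat_lit 0), .ofNat (nat_lit 261806), .ofNat (nat_lit 0), .ofNat (nat_lit 306116)⟩⟩, [⟨nat_lit 0, nat_lit 94, nat_lit 62, nat_lit 100, nat_lit 184033100⟩, ⟨nat_lit 7, nat_lit 92, nat_lit 100, nat_lit 75, nat_lit 10525039⟩]⟩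
noncomputable def p083_l24 : Lf2 := ⟨nat_lit 0, nat_lit 20, [nat_lit 5, nat_lit 5, nat_lit 5, nat_lit 20], false, nat_lit 0, nat_lit 160, nat_lit 0, nat_lit 160, ⟨nat_lit 413, nat_lit 0, nat_lit 587, nat_lit 6, nat_lit 226, nat_lit 587, nat_lit 56, nat_lit 587, nat_lit 29400, nat_lit 257, nat_lit 37112, nat_lit 200, nat_lit 50788003, nat_lit 0, nat_lit 0, nat_lit 2766700, false, false⟩,
 nat_lit 7355, nat_lit 0, nat_lit 0, nat_lit 0, nat_lit 4299, nat_lit 3893, nat_lit 367, nat_lit 0, nat_lit 0, nat_lit 273, nat_lit 0, nat_lit 0, nat_lit 0, nat_lit 0, nat_lit 0, nat_lit 234800, nat_lit 0, nat_lit 0, [(nat_lit 19, [(nat_lit 5, nat_lit 587)])],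
 ⟨p083_k6, nat_lit 0, nat_lit 0, nat_lit 350, nat_lit 0, nat_lit 380375, [nat_lit 1384421600, nat_lit 1681151200, nat_lit 2101818000], [], [nat_lit 21977255992, nat_lit 21375653217, nat_lit 22139725947, nat_lit 23772486806, nat_lit 18877534216, nat_lit 19919643710, nat_lit 24496444791, nat_lit 22599098337], nat_lit 1271250, nat_lit 1271250, nat_lit 1100001, nat_lit 1785000, nat_lit 0, nat_lit 1100001, [nat_lit 490000, nat_lit 1100000, nat_lit 2127500], [nat_lit 27, nat_lit 40, nat_lit 40, nat_lit 80, nat_lit 13, nat_lit 317, nat_lit 100, nat_lit 9]⟩, ⟨p083_k4, nat_lit 0, nat_lit 0, nat_lit 612, nat_lit 0, nat_lit 591694, [nat_lit 1936144000, nat_lit 3290784000, nat_lit 5805954000], [], [nat_lit 18064602076, nat_lit 15429332812, nat_lit 15158405960, nat_lit 15513083488, nat_lit 12152376872, nat_lit 12514646788, nat_lit 15012907388, nat_lit 12511982964], nat_lit 1271250, nat_lit 1271250, nat_lit 1100001, nat_lit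 1785000, nat_lit 0, nat_lit 1100001, [nat_lit 1100000, nat_lit 1785000, nat_lit 1271250], [nat_lit 37, nat_lit 40, nat_lit 40, nat_lit 80, nat_lit 28, nat_lit 401, nat_lit 175, nat_lit 9]⟩,
 ⟨nat_lit 3872, nat_lit 4473, ⟨.ofNat (nat_lit 475111), .ofNat (nat_lit 611083), .ofNat (nat_lit 518209), .ofNat (nat_lit 654181), .ofNat (nat_lit 479021), .ofNat (nat_lit 608080), .ofNat (nat_lit 522572), .ofNat (nat_lit 651631)⟩, ⟨.negSucc (nat_lit 12427), .ofNat (nat_lit 259489), .ofNat (nat_lit 0), .ofNat (nat_lit 302621), .ofNat (nat_lit 0), .ofNat (nat_lit 261131), .ofNat (nat_lit 0), .ofNat (nat_lit 304717)⟩⟩, []⟩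
noncomputable def p083_l25 : Lf2 := ⟨nat_lit 0, nat_lit 20, [nat_lit 5, nat_lit 5, nat_lit 5, nat_lit 20], false, nat_lit 0, nat_lit 160, nat_lit 0, nat_lit 160, ⟨nat_lit 258, nat_lit 0, nat_lit 742, nat_lit 6, nat_lit 226, nat_lit 742, nat_lit 57, nat_lit 741, nat_lit 30817, nat_lit 258, nat_lit 31972, nat_lit 200, nat_lit 50751041, nat_lit 0, nat_lit 0, nat_lit 2769845, false, false⟩,
 nat_lit 4702, nat_lit 0, nat_lit 0, nat_lit 0, nat_lit 3461, nat_lit 2489, nat_lit 0, nat_lit 0, nat_lit 0, nat_lit 224, nat_lit 0, nat_lit 0, nat_lit 0, nat_lit 0, nat_lit 26, nat_lit 296800, nat_lit 0, nat_lit 0, [(nat_lit 22, [(nat_lit 5, nat_lit 742)])],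
 ⟨p083_k3, nat_lit 0, nat_lit 0, nat_lit 365, nat_lit 0, nat_lit 452014, [nat_lit 1456448001, nat_lit 1027155200, nat_lit 37886667], [], [nat_lit 20332504652, nat_lit 21516446127, nat_lit 22359825053, nat_lit 23992847988, nat_lit 20321158848, nat_lit 21188357515, nat_lit 21964781873, nat_lit 22805352559], nat_lit 1271250, nat_lit 1271250, nat_lit 1100001, nat_lit 1785000, nat_lit 0, nat_lit 1100001, [nat_lit 490000, nat_lit 1100000, nat_lit 1785000], [nat_lit 34, nat_lit 40, nat_lit 40, nat_lit 80, nat_lit 7, nat_lit 317, nat_lit 100, nat_lit 10]⟩, ⟨p083_k4, nat_lit 0, nat_lit 0, nat_lit 722, nat_lit 0, nat_lit 771967, [nat_lit 1209504000, nat_lit 2055744000, nat_lit 3626964000], [], [nat_lit 11371848856, nat_lit 9173005412, nat_lit 8967067416, nat_lit 9094317764, nat_lit 7259324892, nat_lit 7379678316, nat_lit 9363088068, nat_lit 7273200056], nat_lit 1271250, nat_lit 1271250, nat_lit 1100001, nat_lit 1785000,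 nat_lit 0, nat_lit 1100001, [nat_lit 1100000, nat_lit 1785000, nat_lit 1271250], [nat_lit 37, nat_lit 40, nat_lit 40, nat_lit 80, nat_lit 28, nat_lit 401, nat_lit 175, nat_lit 9]⟩,
 ⟨nat_lit 3162, nat_lit 3873, ⟨.ofNat (nat_lit 478975), .ofNat (nat_lit 608082), .ofNat (nat_lit 522504), .ofNat (nat_lit 651611), .ofNat (nat_lit 483267), .ofNat (nat_lit 605237), .ofNat (nat_lit 527519), .ofNat (nat_lit 649490)⟩, ⟨.ofNat (nat_lit 0), .ofNat (nat_lit 261131), .ofNat (nat_lit 0), .ofNat (nat_lit 304717), .ofNat (nat_lit 0), .ofNat (nat_lit 261806), .ofNat (nat_lit 0), .ofNat (nat_lit 306116)⟩⟩, []⟩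
noncomputable def p083_l26 : Lf2 := ⟨nat_lit 0, nat_lit 20, [nat_lit 5, nat_lit 5, nat_lit 5, nat_lit 20], false, nat_lit 0, nat_lit 160, nat_lit 160, nat_lit 336, ⟨nat_lit 240, nat_lit 0, nat_lit 760, nat_lit 6, nat_lit 226, nat_lit 760, nat_lit 56, nat_lit 760, nat_lit 29400, nat_lit 257, nat_lit 37206, nat_lit 200, nat_lit 50794469, nat_lit 0, nat_lit 0, nat_lit 2766148, false, false⟩,
 nat_lit 4936, nat_lit 0, nat_lit 0, nat_lit 0, nat_lit 3702, nat_lit 2613, nat_lit 114, nat_lit 0, nat_lit 0, nat_lit 108, nat_lit 0, nat_lit 0, nat_lit 0, nat_lit 0, nat_lit 16, nat_lit 304000, nat_lit 0, nat_lit 0, [(nat_lit 19, [(nat_lit 5, nat_lit 760)])],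
 ⟨p083_k2, nat_lit 0, nat_lit 0, nat_lit 339, nat_lit 0, nat_lit 324587, [nat_lit 1440584001, nat_lit 855788000, nat_lit 268640000], [], [nat_lit 20063078506, nat_lit 20608017084, nat_lit 22134877506, nat_lit 22721045412, nat_lit 19458620020, nat_lit 19872139518, nat_lit 22599034969, nat_lit 21771637969], nat_lit 1271250, nat_lit 1271250, nat_lit 1100001, nat_lit 1785000, nat_lit 0, nat_lit 1100001, [nat_lit 490000, nat_lit 1427500, nat_lit 1271250], [nat_lit 61, nat_lit 40, nat_lit 40, nat_lit 80, nat_lit 1, nat_lit 317, nat_lit 100, nat_lit 9]⟩, ⟨p083_k11, nat_lit 0, nat_lit 0, nat_lit 428, nat_lit 0, nat_lit 504913, [nat_lit 1125120000, nat_lit 2362080000, nat_lit 3373920000], [], [nat_lit 9906916800, nat_lit 7449204408, nat_lit 8858444976, nat_lit 7478058444, nat_lit 7986226829, nat_lit 8114266661, nat_lit 7851012082, nat_lit 8060076857], nat_lit 1271250, nat_lit 1271250, nat_lit 1100001, nat_lit 1785000, nat_lit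 1271250, nat_lit 1271250, [nat_lit 1100000, nat_lit 2127500, nat_lit 1271250], [nat_lit 56, nat_lit 40, nat_lit 40, nat_lit 80, nat_lit 32, nat_lit 456, nat_lit 225, nat_lit 10]⟩,
 ⟨nat_lit 4183, nat_lit 4473, ⟨.ofNat (nat_lit 475145), .ofNat (nat_lit 611104), .ofNat (nat_lit 518271), .ofNat (nat_lit 654228), .ofNat (nat_lit 477068), .ofNat (nat_lit 609582), .ofNat (nat_lit 520394), .ofNat (nat_lit 652907)⟩, ⟨.negSucc (nat_lit 12423), .ofNat (nat_lit 259489), .ofNat (nat_lit 0), .ofNat (nat_lit 302621), .negSucc (nat_lit 4612), .ofNat (nat_lit 260409), .ofNat (nat_lit 0), .ofNat (nat_lit 303743)⟩⟩, [⟨nat_lit 7, nat_lit 92, nat_lit 100, nat_lit 75, nat_lit 68547439⟩]⟩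
noncomputable def p083_l27 : Lf2 := ⟨nat_lit 0, nat_lit 20, [nat_lit 5, nat_lit 5, nat_lit 5, nat_lit 20], false, nat_lit 0, nat_lit 160, nat_lit 160, nat_lit 336, ⟨nat_lit 220, nat_lit 0, nat_lit 780, nat_lit 6, nat_lit 226, nat_lit 780, nat_lit 56, nat_lit 780, nat_lit 29400, nat_lit 257, nat_lit 34562, nat_lit 200, nat_lit 50779781, nat_lit 0, nat_lit 0, nat_lit 2767400, false, false⟩,
 nat_lit 4523, nat_lit 34, nat_lit 0, nat_lit 0, nat_lit 3552, nat_lit 2394, nat_lit 192, nat_lit 0, nat_lit 0, nat_lit 40, nat_lit 0, nat_lit 0, nat_lit 0, nat_lit 0, nat_lit 6, nat_lit 252000, nat_lit 0, nat_lit 0, [(nat_lit 19, [(nat_lit 4, nat_lit 400), (nat_lit 5, nat_lit 380)])],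
 ⟨p083_k12, nat_lit 0, nat_lit 0, nat_lit 355, nat_lit 0, nat_lit 362776, [nat_lit 1514852001, nat_lit 650174000, nat_lit 224440000], [], [nat_lit 19949845634, nat_lit 20428370016, nat_lit 21878329512, nat_lit 22485111488, nat_lit 19630738361, nat_lit 20034522994, nat_lit 21556690369, nat_lit 21692402194], nat_lit 1271250, nat_lit 1271250, nat_lit 1100001, nat_lit 1785000, nat_lit 0, nat_lit 1100001, [nat_lit 490000, nat_lit 1427500, nat_lit 1271250], [nat_lit 61, nat_lit 40, nat_lit 40, nat_lit 80, nat_lit 1, nat_lit 317, nat_lit 100, nat_lit 9]⟩, ⟨p083_k11, nat_lit 0, nat_lit 0, nat_lit 467, nat_lit 0, nat_lit 591694, [nat_lit 1031360000, nat_lit 2165240000, nat_lit 3092760000], [], [nat_lit 9079435600, nat_lit 7504491904, nat_lit 8119877488, nat_lit 7531113272, nat_lit 7996837735, nat_lit 8112558631, nat_lit 7871453261, nat_lit 8063099119], nat_lit 1271250, nat_lit 1271250, nat_lit 1100001, nat_lit 1785000,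 nat_lit 1271250, nat_lit 1271250, [nat_lit 1100000, nat_lit 2127500, nat_lit 1271250], [nat_lit 56, nat_lit 40, nat_lit 40, nat_lit 80, nat_lit 32, nat_lit 456, nat_lit 225, nat_lit 10]⟩,
 ⟨nat_lit 3872, nat_lit 4184, ⟨.ofNat (nat_lit 477065), .ofNat (nat_lit 609582), .ofNat (nat_lit 520388), .ofNat (nat_lit 652906), .ofNat (nat_lit 479052), .ofNat (nat_lit 608101), .ofNat (nat_lit 522628), .ofNat (nat_lit 651678)⟩, ⟨.negSucc (nat_lit 4619), .ofNat (nat_lit 260409), .ofNat (nat_lit 0), .ofNat (nat_lit 303743), .ofNat (nat_lit 0), .ofNat (nat_lit 261131), .ofNat (nat_lit 0), .ofNat (nat_lit 304717)⟩⟩, [⟨nat_lit 7, nat_lit 92, nat_lit 100, nat_lit 75, nat_lit 87158523⟩]⟩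
noncomputable def p083_l28 : Lf2 := ⟨nat_lit 0, nat_lit 20, [nat_lit 5, nat_lit 5, nat_lit 5, nat_lit 20], false, nat_lit 0, nat_lit 160, nat_lit 160, nat_lit 336, ⟨nat_lit 255, nat_lit 0, nat_lit 745, nat_lit 6, nat_lit 226, nat_lit 745, nat_lit 57, nat_lit 745, nat_lit 30817, nat_lit 258, nat_lit 31972, nat_lit 200, nat_lit 50751041, nat_lit 0, nat_lit 0, nat_lit 2769845, false, false⟩,
 nat_lit 4267, nat_lit 0, nat_lit 0, nat_lit 0, nat_lit 3453, nat_lit 2258, nat_lit 0, nat_lit 0, nat_lit 0, nat_lit 182, nat_lit 0, nat_lit 0, nat_lit 0, nat_lit 0, nat_lit 27, nat_lit 298000, nat_lit 0, nat_lit 0, [(nat_lit 22, [(nat_lit 5, nat_lit 745)])],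
 ⟨p083_k3, nat_lit 0, nat_lit 0, nat_lit 365, nat_lit 0, nat_lit 452014, [nat_lit 1461280000, nat_lit 1026672000, nat_lit 27616667], [], [nat_lit 20294277353, nat_lit 21477569247, nat_lit 22322223645, nat_lit 23977085524, nat_lit 20289366461, nat_lit 21167103479, nat_lit 21944500013, nat_lit 22784344891], nat_lit 1271250, nat_lit 1271250, nat_lit 1100001, nat_lit 1785000, nat_lit 0, nat_lit 1100001, [nat_lit 490000, nat_lit 1100000, nat_lit 1785000], [nat_lit 34, nat_lit 40, nat_lit 40, nat_lit 80, nat_lit 7, nat_lit 317, nat_lit 100, nat_lit 10]⟩, ⟨p083_k4, nat_lit 0, nat_lit 0, nat_lit 581, nat_lit 0, nat_lit 771967, [nat_lit 1195440000, nat_lit 2031840000, nat_lit 3584790000], [], [nat_lit 9736273780, nat_lit 7990926960, nat_lit 7842967992, nat_lit 8012439404, nat_lit 8389928385, nat_lit 8483485307, nat_lit 8267260398, nat_lit 8323303804], nat_lit 1271250, nat_lit 1271250, nat_lit 1100001, nat_lit 1785000, nat_lit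 1271250, nat_lit 1271250, [nat_lit 1100000, nat_lit 1785000, nat_lit 1271250], [nat_lit 37, nat_lit 40, nat_lit 40, nat_lit 80, nat_lit 28, nat_lit 456, nat_lit 225, nat_lit 10]⟩,
 ⟨nat_lit 3162, nat_lit 3873, ⟨.ofNat (nat_lit 478975), .ofNat (nat_lit 608082), .ofNat (nat_lit 522504), .ofNat (nat_lit 651611), .ofNat (nat_lit 483267), .ofNat (nat_lit 605237), .ofNat (nat_lit 527519), .ofNat (nat_lit 649490)⟩, ⟨.ofNat (nat_lit 0), .ofNat (nat_lit 261131), .ofNat (nat_lit 0), .ofNat (nat_lit 304717), .ofNat (nat_lit 0), .ofNat (nat_lit 261806), .ofNat (nat_lit 0), .ofNat (nat_lit 306116)⟩⟩, [⟨nat_lit 7, nat_lit 92, nat_lit 100, nat_lit 75, nat_lit 89296448⟩]⟩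
noncomputable def p083_l29 : Lf2 := ⟨nat_lit 0, nat_lit 20, [nat_lit 5, nat_lit 5, nat_lit 5, nat_lit 20], false, nat_lit 160, nat_lit 260, nat_lit 0, nat_lit 336, ⟨nat_lit 0, nat_lit 0, nat_lit 1000, nat_lit 6, nat_lit 154, nat_lit 1000, nat_lit 146, nat_lit 1000, nat_lit 89743, nat_lit 288, nat_lit 153600, nat_lit 311, nat_lit 50097940, nat_lit 0, nat_lit 0, nat_lit 3957777, false, false⟩,
 nat_lit 0, nat_lit 4486, nat_lit 0, nat_lit 0, nat_lit 3364, nat_lit 0, nat_lit 0, nat_lit 0, nat_lit 0, nat_lit 0, nat_lit 0, nat_lit 0, nat_lit 0, nat_lit 0, nat_lit 121, nat_lit 374500, nat_lit 0, nat_lit 0, [(nat_lit 19, [(nat_lit 4, nat_lit 170), (nat_lit 5, nat_lit 830)])],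
 ⟨p083_k2, nat_lit 0, nat_lit 0, nat_lit 309, nat_lit 0, nat_lit 380375, [nat_lit 2127010001, nat_lit 1212823000, nat_lit 256296000], [], [nat_lit 16556745645, nat_lit 17796774741, nat_lit 16703408738, nat_lit 17763968336, nat_lit 19707107610, nat_lit 21219513331, nat_lit 19676812744, nat_lit 21056922632], nat_lit 1271250, nat_lit 1271250, nat_lit 382400, nat_lit 780000, nat_lit 1100001, nat_lit 1956250, [nat_lit 490000, nat_lit 1427500, nat_lit 1271250], [nat_lit 61, nat_lit 40, nat_lit 40, nat_lit 80, nat_lit 1, nat_lit 317, nat_lit 100, nat_lit 9]⟩, ⟨p083_k11, nat_lit 0, nat_lit 0, nat_lit 672, nat_lit 0, nat_lit 591694, [nat_lit 0, nat_lit 0, nat_lit 0], [], [nat_lit 0, nat_lit 0, nat_lit 0, nat_lit 0, nat_lit 0, nat_lit 0, nat_lit 0, nat_lit 0], nat_lit 1271250, nat_lit 1271250, nat_lit 382400, nat_lit 780000, nat_lit 0, nat_lit 2373000, [nat_lit 1100000, nat_lit 2127500, nat_lit 1271250], [nat_lit 56, nat_lit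 40, nat_lit 40, nat_lit 80, nat_lit 32, nat_lit 428, nat_lit 200, nat_lit 10]⟩,
 ⟨nat_lit 3872, nat_lit 4473, ⟨.ofNat (nat_lit 311945), .ofNat (nat_lit 407125), .ofNat (nat_lit 355043), .ofNat (nat_lit 450223), .ofNat (nat_lit 324151), .ofNat (nat_lit 414492), .ofNat (nat_lit 367703), .ofNat (nat_lit 458043)⟩, ⟨.ofNat (nat_lit 259489), .ofNat (nat_lit 429434), .ofNat (nat_lit 302621), .ofNat (nat_lit 472567), .ofNat (nat_lit 261131), .ofNat (nat_lit 422435), .ofNat (nat_lit 304717), .ofNat (nat_lit 466021)⟩⟩, [⟨nat_lit 0, nat_lit 99, nat_lit 77, nat_lit 100, nat_lit 118963290⟩, ⟨nat_lit 4, nat_lit 100, nat_lit 76, nat_lit 72, nat_lit 254366454⟩]⟩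
noncomputable def p083_l30 : Lf2 := ⟨nat_lit 0, nat_lit 20, [nat_lit 5, nat_lit 5, nat_lit 5, nat_lit 20], false, nat_lit 160, nat_lit 260, nat_lit 0, nat_lit 336, ⟨nat_lit 7, nat_lit 0, nat_lit 993, nat_lit 6, nat_lit 186, nat_lit 993, nat_lit 146, nat_lit 993, nat_lit 89743, nat_lit 288, nat_lit 19503, nat_lit 247, nat_lit 47450169, nat_lit 0, nat_lit 0, nat_lit 4291953, false, false⟩,
 nat_lit 243, nat_lit 3881, nat_lit 0, nat_lit 0, nat_lit 3093, nat_lit 128, nat_lit 0, nat_lit 0, nat_lit 0, nat_lit 2, nat_lit 0, nat_lit 0, nat_lit 0, nat_lit 0, nat_lit 126, nat_lit 397200, nat_lit 0, nat_lit 0, [(nat_lit 19, [(nat_lit 5, nat_lit 993)])],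
 ⟨p083_k2, nat_lit 0, nat_lit 0, nat_lit 235, nat_lit 0, nat_lit 380375, [nat_lit 2100026201, nat_lit 1303930901, nat_lit 276302000], [], [nat_lit 17008242634, nat_lit 18013339554, nat_lit 17588407762, nat_lit 18543438326, nat_lit 19612544231, nat_lit 20896155134, nat_lit 20294315180, nat_lit 21465662187], nat_lit 1271250, nat_lit 1271250, nat_lit 780000, nat_lit 1100001, nat_lit 1100001, nat_lit 1956250, [nat_lit 490000, nat_lit 1427500, nat_lit 1271250], [nat_lit 61, nat_lit 40, nat_lit 40, nat_lit 80, nat_lit 1, nat_lit 345, nat_lit 125, nat_lit 9]⟩, ⟨p083_k11, nat_lit 0, nat_lit 0, nat_lit 638, nat_lit 0, nat_lit 591694, [nat_lit 32816000, nat_lit 68894000, nat_lit 98406000], [], [nat_lit 538139732, nat_lit 400683604, nat_lit 400683604, nat_lit 316949828, nat_lit 294148908, nat_lit 249648244, nat_lit 350106543, nat_lit 234774549], nat_lit 1271250, nat_lit 1271250, nat_lit 780000, nat_lit 1100001, nat_lit 0,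 nat_lit 2373000, [nat_lit 1100000, nat_lit 2127500, nat_lit 1271250], [nat_lit 56, nat_lit 40, nat_lit 40, nat_lit 80, nat_lit 32, nat_lit 428, nat_lit 200, nat_lit 10]⟩,
 ⟨nat_lit 3872, nat_lit 4473, ⟨.ofNat (nat_lit 407125), .ofNat (nat_lit 475111), .ofNat (nat_lit 450223), .ofNat (nat_lit 518209), .ofNat (nat_lit 414492), .ofNat (nat_lit 479021), .ofNat (nat_lit 458043), .ofNat (nat_lit 522572)⟩, ⟨.ofNat (nat_lit 259489), .ofNat (nat_lit 429434), .ofNat (nat_lit 302621), .ofNat (nat_lit 472567), .ofNat (nat_lit 261131), .ofNat (nat_lit 422435), .ofNat (nat_lit 304717), .ofNat (nat_lit 466021)⟩⟩, [⟨nat_lit 4, nat_lit 100, nat_lit 76, nat_lit 72, nat_lit 232908470⟩]⟩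
noncomputable def p083_l31 : Lf2 := ⟨nat_lit 0, nat_lit 20, [nat_lit 5, nat_lit 5, nat_lit 5, nat_lit 20], false, nat_lit 160, nat_lit 232, nat_lit 0, nat_lit 336, ⟨nat_lit 0, nat_lit 216, nat_lit 784, nat_lit 6, nat_lit 179, nat_lit 1000, nat_lit 136, nat_lit 784, nat_lit 173400, nat_lit 317, nat_lit 15897, nat_lit 244, nat_lit 48819458, nat_lit 10997178, nat_lit 7183364, nat_lit 4102717, false, false⟩,
 nat_lit 0, nat_lit 4034, nat_lit 0, nat_lit 0, nat_lit 3265, nat_lit 0, nat_lit 0, nat_lit 0, nat_lit 0, nat_lit 0, nat_lit 0, nat_lit 0, nat_lit 0, nat_lit 0, nat_lit 93, nat_lit 367600, nat_lit 0, nat_lit 0, [(nat_lit 22, [(nat_lit 0, nat_lit 216), (nat_lit 5, nat_lit 784)])],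
 ⟨p083_k13, nat_lit 0, nat_lit 0, nat_lit 281, nat_lit 0, nat_lit 452014, [nat_lit 1847872001, nat_lit 729126400, nat_lit 11158400], [], [nat_lit 17373771717, nat_lit 18819012129, nat_lit 18311815234, nat_lit 19559821484, nat_lit 19614423327, nat_lit 21163141897, nat_lit 20405784475, nat_lit 21746552278], nat_lit 1271250, nat_lit 1271250, nat_lit 545600, nat_lit 1100001, nat_lit 1100001, nat_lit 1716500, [nat_lit 490000, nat_lit 1427500, nat_lit 1271250], [nat_lit 102, nat_lit 40, nat_lit 40, nat_lit 80, nat_lit 2, nat_lit 317, nat_lit 100, nat_lit 10]⟩, ⟨p083_k11, nat_lit 0, nat_lit 0, nat_lit 760, nat_lit 0, nat_lit 771967, [nat_lit 0, nat_lit 0, nat_lit 0], [], [nat_lit 0, nat_lit 0, nat_lit 0, nat_lit 0, nat_lit 0, nat_lit 0, nat_lit 0, nat_lit 0], nat_lit 1271250, nat_lit 1271250, nat_lit 545600, nat_lit 1100001, nat_lit 0, nat_lit 2373000, [nat_lit 1100000, nat_lit 2127500, nat_lit 1271250], [nat_lit 56,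 nat_lit 40, nat_lit 40, nat_lit 80, nat_lit 32, nat_lit 428, nat_lit 200, nat_lit 10]⟩,
 ⟨nat_lit 3162, nat_lit 3873, ⟨.ofNat (nat_lit 362778), .ofNat (nat_lit 478975), .ofNat (nat_lit 406307), .ofNat (nat_lit 522504), .ofNat (nat_lit 373492), .ofNat (nat_lit 483267), .ofNat (nat_lit 417744), .ofNat (nat_lit 527519)⟩, ⟨.ofNat (nat_lit 261131), .ofNat (nat_lit 377270), .ofNat (nat_lit 304717), .ofNat (nat_lit 420856), .ofNat (nat_lit 261806), .ofNat (nat_lit 371522), .ofNat (nat_lit 306116), .ofNat (nat_lit 415832)⟩⟩, [⟨nat_lit 0, nat_lit 94, nat_lit 62, nat_lit 100, nat_lit 2362470⟩, ⟨nat_lit 4, nat_lit 100, nat_lit 66, nat_lit 72, nat_lit 326246557⟩]⟩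
noncomputable def p083_l32 : Lf2 := ⟨nat_lit 0, nat_lit 20, [nat_lit 5, nat_lit 5, nat_lit 5, nat_lit 20], false, nat_lit 160, nat_lit 260, nat_lit 0, nat_lit 160, ⟨nat_lit 294, nat_lit 0, nat_lit 706, nat_lit 6, nat_lit 226, nat_lit 706, nat_lit 145, nat_lit 706, nat_lit 89743, nat_lit 288, nat_lit 36668, nat_lit 200, nat_lit 44104778, nat_lit 0, nat_lit 0, nat_lit 4606458, false, false⟩,
 nat_lit 5611, nat_lit 0, nat_lit 0, nat_lit 0, nat_lit 4207, nat_lit 2970, nat_lit 262, nat_lit 0, nat_lit 0, nat_lit 126, nat_lit 0, nat_lit 0, nat_lit 0, nat_lit 0, nat_lit 0, nat_lit 217750, nat_lit 0, nat_lit 0, [(nat_lit 19, [(nat_lit 4, nat_lit 431), (nat_lit 5, nat_lit 275)]), (nat_lit 22, [(nat_lit 4, nat_lit 431), (nat_lit 5, nat_lit 275)])],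
 ⟨p083_k6, nat_lit 0, nat_lit 0, nat_lit 312, nat_lit 0, nat_lit 496265, [nat_lit 1520238400, nat_lit 1167423334, nat_lit 1070916800], [], [nat_lit 18083832980, nat_lit 20538507582, nat_lit 20048326322, nat_lit 22532151020, nat_lit 20798411074, nat_lit 23501536492, nat_lit 23712025894, nat_lit 25452179120], nat_lit 1271250, nat_lit 1271250, nat_lit 1100001, nat_lit 1785000, nat_lit 1100001, nat_lit 1956250, [nat_lit 490000, nat_lit 1100000, nat_lit 2127500], [nat_lit 27, nat_lit 40, nat_lit 40, nat_lit 80, nat_lit 13, nat_lit 345, nat_lit 125, nat_lit 9]⟩, ⟨p083_k4, nat_lit 0, nat_lit 0, nat_lit 722, nat_lit 0, nat_lit 771967, [nat_lit 1378272000, nat_lit 2342592000, nat_lit 4133052000], [], [nat_lit 13162352328, nat_lit 11357166600, nat_lit 11115976104, nat_lit 11745274872, nat_lit 9053108208, nat_lit 9186266664, nat_lit 10633394904, nat_lit 9014574600], nat_lit 1271250, nat_lit 1271250, nat_lit 1100001, nat_lit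 1785000, nat_lit 0, nat_lit 1100001, [nat_lit 1100000, nat_lit 1785000, nat_lit 1271250], [nat_lit 37, nat_lit 40, nat_lit 40, nat_lit 80, nat_lit 28, nat_lit 401, nat_lit 175, nat_lit 9]⟩,
 ⟨nat_lit 3162, nat_lit 4473, ⟨.ofNat (nat_lit 474896), .ofNat (nat_lit 611007), .ofNat (nat_lit 517847), .ofNat (nat_lit 653959), .ofNat (nat_lit 483097), .ofNat (nat_lit 605159), .ofNat (nat_lit 527226), .ofNat (nat_lit 649288)⟩, ⟨.ofNat (nat_lit 259488), .ofNat (nat_lit 429433), .ofNat (nat_lit 302621), .ofNat (nat_lit 472567), .ofNat (nat_lit 261805), .ofNat (nat_lit 414188), .ofNat (nat_lit 306116), .ofNat (nat_lit 458499)⟩⟩, [⟨nat_lit 4, nat_lit 100, nat_lit 71, nat_lit 71, nat_lit 434661425⟩]⟩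
noncomputable def p083_l33 : Lf2 := ⟨nat_lit 0, nat_lit 20, [nat_lit 5, nat_lit 5, nat_lit 5, nat_lit 20], false, nat_lit 160, nat_lit 260, nat_lit 160, nat_lit 336, ⟨nat_lit 234, nat_lit 0, nat_lit 766, nat_lit 6, nat_lit 222, nat_lit 766, nat_lit 145, nat_lit 766, nat_lit 89743, nat_lit 288, nat_lit 6366, nat_lit 202, nat_lit 44475696, nat_lit 0, nat_lit 0, nat_lit 4576528, false, false⟩,
 nat_lit 4445, nat_lit 1330, nat_lit 0, nat_lit 0, nat_lit 4331, nat_lit 2353, nat_lit 182, nat_lit 0, nat_lit 0, nat_lit 257, nat_lit 0, nat_lit 0, nat_lit 0, nat_lit 0, nat_lit 0, nat_lit 221500, nat_lit 0, nat_lit 0, [(nat_lit 19, [(nat_lit 4, nat_lit 566), (nat_lit 5, nat_lit 200)]), (nat_lit 22, [(nat_lit 4, nat_lit 566), (nat_lit 5, nat_lit 200)])],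
 ⟨p083_k6, nat_lit 0, nat_lit 0, nat_lit 295, nat_lit 0, nat_lit 442675, [nat_lit 1530102401, nat_lit 892633334, nat_lit 448344800], [], [nat_lit 18165881186, nat_lit 20656038606, nat_lit 20131115026, nat_lit 22603557660, nat_lit 20887763842, nat_lit 23583718236, nat_lit 23755822103, nat_lit 25531930960], nat_lit 1271250, nat_lit 1271250, nat_lit 1100001, nat_lit 1785000, nat_lit 1100001, nat_lit 1956250, [nat_lit 490000, nat_lit 1100000, nat_lit 2127500], [nat_lit 27, nat_lit 40, nat_lit 40, nat_lit 80, nat_lit 13, nat_lit 345, nat_lit 125, nat_lit 9]⟩, ⟨p083_k4, nat_lit 0, nat_lit 0, nat_lit 549, nat_lit 0, nat_lit 688606, [nat_lit 1096992000, nat_lit 1864512000, nat_lit 3289572000], [], [nat_lit 9362590328, nat_lit 8118469814, nat_lit 6942562900, nat_lit 5770135878, nat_lit 6385212112, nat_lit 6475367331, nat_lit 6387122328, nat_lit 6489286462], nat_lit 1271250, nat_lit 1271250, nat_lit 1100001, nat_lit 1785000,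 nat_lit 1271250, nat_lit 1271250, [nat_lit 1100000, nat_lit 1785000, nat_lit 1271250], [nat_lit 37, nat_lit 40, nat_lit 40, nat_lit 80, nat_lit 28, nat_lit 456, nat_lit 225, nat_lit 10]⟩,
 ⟨nat_lit 3162, nat_lit 4473, ⟨.ofNat (nat_lit 474896), .ofNat (nat_lit 611007), .ofNat (nat_lit 496372), .ofNat (nat_lit 632483), .ofNat (nat_lit 483097), .ofNat (nat_lit 605159), .ofNat (nat_lit 505162), .ofNat (nat_lit 627223)⟩, ⟨.ofNat (nat_lit 259488), .ofNat (nat_lit 429433), .ofNat (nat_lit 302621), .ofNat (nat_lit 472567), .ofNat (nat_lit 261805), .ofNat (nat_lit 414188), .ofNat (nat_lit 306116), .ofNat (nat_lit 458499)⟩⟩, [⟨nat_lit 4, nat_lit 100, nat_lit 71, nat_lit 71, nat_lit 408506420⟩]⟩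
noncomputable def p083_l34 : Lf2 := ⟨nat_lit 0, nat_lit 20, [nat_lit 5, nat_lit 5, nat_lit 5, nat_lit 20], false, nat_lit 160, nat_lit 260, nat_lit 160, nat_lit 320, ⟨nat_lit 372, nat_lit 0, nat_lit 628, nat_lit 6, nat_lit 230, nat_lit 628, nat_lit 145, nat_lit 628, nat_lit 89743, nat_lit 288, nat_lit 36668, nat_lit 200, nat_lit 43734250, nat_lit 0, nat_lit 0, nat_lit 4635132, false, false⟩,
 nat_lit 6017, nat_lit 0, nat_lit 0, nat_lit 0, nat_lit 4512, nat_lit 3502, nat_lit 289, nat_lit 0, nat_lit 0, nat_lit 179, nat_lit 0, nat_lit 0, nat_lit 0, nat_lit 0, nat_lit 0, nat_lit 157000, nat_lit 0, nat_lit 0, [(nat_lit 19, [(nat_lit 4, nat_lit 628)]), (nat_lit 22, [(nat_lit 4, nat_lit 628)])],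
 ⟨p083_k6, nat_lit 0, nat_lit 0, nat_lit 312, nat_lit 0, nat_lit 496265, [nat_lit 1709459201, nat_lit 1617080001, nat_lit 2345438400], [], [nat_lit 18998038264, nat_lit 21396401237, nat_lit 20820765077, nat_lit 23025270517, nat_lit 21586995309, nat_lit 23703677072, nat_lit 24553514230, nat_lit 25648342920], nat_lit 1271250, nat_lit 1271250, nat_lit 1100001, nat_lit 1785000, nat_lit 1100001, nat_lit 1956250, [nat_lit 490000, nat_lit 1100000, nat_lit 2127500], [nat_lit 27, nat_lit 40, nat_lit 40, nat_lit 80, nat_lit 13, nat_lit 345, nat_lit 125, nat_lit 9]⟩, ⟨p083_k7, nat_lit 0, nat_lit 0, nat_lit 435, nat_lit 0, nat_lit 682618, [nat_lit 1743936000, nat_lit 2964096000, nat_lit 4416384000], [], [nat_lit 12668787668, nat_lit 10817147192, nat_lit 9728277873, nat_lit 9983229985, nat_lit 10813280733, nat_lit 11060630681, nat_lit 11056120205, nat_lit 11282282313], nat_lit 1271250, nat_lit 1271250, nat_lit 1100001, nat_lit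 1785000, nat_lit 1271250, nat_lit 1271250, [nat_lit 1100000, nat_lit 1785000, nat_lit 1271250], [nat_lit 21, nat_lit 40, nat_lit 40, nat_lit 80, nat_lit 14, nat_lit 456, nat_lit 225, nat_lit 11]⟩,
 ⟨nat_lit 3162, nat_lit 4473, ⟨.ofNat (nat_lit 496372), .ofNat (nat_lit 632483), .ofNat (nat_lit 517847), .ofNat (nat_lit 653959), .ofNat (nat_lit 505162), .ofNat (nat_lit 627223), .ofNat (nat_lit 527226), .ofNat (nat_lit 649288)⟩, ⟨.ofNat (nat_lit 259488), .ofNat (nat_lit 429433), .ofNat (nat_lit 302621), .ofNat (nat_lit 472567), .ofNat (nat_lit 261805), .ofNat (nat_lit 414188), .ofNat (nat_lit 306116), .ofNat (nat_lit 458499)⟩⟩, [⟨nat_lit 4, nat_lit 100, nat_lit 71, nat_lit 71, nat_lit 400322024⟩, ⟨nat_lit 19, nat_lit 100, nat_lit 85, nat_lit 84, nat_lit 67624586⟩]⟩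
noncomputable def b_V_800_600_10_21 : St := ⟨true, nat_lit 1, nat_lit 1, nat_lit 1, nat_lit 80, nat_lit 320, nat_lit 360, nat_lit 240, nat_lit 280, nat_lit 64, nat_lit 240, nat_lit 40, nat_lit 80, nat_lit 0, nat_lit 260, nat_lit 0, nat_lit 336, nat_lit 40, nat_lit 80, nat_lit 0, nat_lit 0, nat_lit 0, nat_lit 0⟩
theorem d_V_800_600_10_21 (h : EB TB.env) : Dead b_V_800_600_10_21 := chkB_sound0 h (T :=
(.spl (nat_lit 4) (nat_lit 160)
(.spl (nat_lit 2) (nat_lit 160)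
(.spl (nat_lit 0) (nat_lit 340)
(.spl (nat_lit 2) (nat_lit 120)
(.leaf p083_l19)
(.spl (nat_lit 0) (nat_lit 330)
(.leaf p083_l20)
(.leaf p083_l21)))
(.trZ (nat_lit 0) (nat_lit 100) (nat_lit 73) (nat_lit 85) (nat_lit 88) (.spl (nat_lit 0) (nat_lit 350)
(.leaf p083_l22)
(.trZ (nat_lit 0) (nat_lit 100) (nat_lit 68) (nat_lit 89) (nat_lit 100) (.leaf p083_l23)))))
(.spl (nat_lit 5) (nat_lit 160)
(.spl (nat_lit 0) (nat_lit 340)
(.leaf p083_l24)
(.leaf p083_l25))
(.spl (nat_lit 0) (nat_lit 340)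
(.spl (nat_lit 0) (nat_lit 330)
(.leaf p083_l26)
(.leaf p083_l27))
(.leaf p083_l28))))
(.spl (nat_lit 2) (nat_lit 160)
(.spl (nat_lit 0) (nat_lit 340)
(.spl (nat_lit 2) (nat_lit 120)
(.leaf p083_l29)
(.leaf p083_l30))
(.trZ (nat_lit 0) (nat_lit 100) (nat_lit 73) (nat_lit 85) (nat_lit 88) (.trX (nat_lit 16) (nat_lit 72) (nat_lit 100) (nat_lit 81) (nat_lit 232) (.leaf p083_l31))))
(.spl (nat_lit 5) (nat_lit 160)
(.leaf p083_l32)
(.spl (nat_lit 1) (nat_lit 260)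
(.leaf p083_l33)
(.trX (nat_lit 19) (nat_lit 100) (nat_lit 85) (nat_lit 84) (nat_lit 320) (.leaf p083_l34))))))) (by decide +kernel)
noncomputable def p083_l35 : Lf2 := ⟨nat_lit 0, nat_lit 20, [nat_lit 5, nat_lit 5, nat_lit 5, nat_lit 20], false, nat_lit 0, nat_lit 160, nat_lit 0, nat_lit 160, ⟨nat_lit 1000, nat_lit 0, nat_lit 0, nat_lit 0, nat_lit 0, nat_lit 0, nat_lit 0, nat_lit 0, nat_lit 0, nat_lit 0, nat_lit 0, nat_lit 0, nat_lit 0, nat_lit 0, nat_lit 0, nat_lit 0, false, false⟩,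
 nat_lit 13365, nat_lit 0, nat_lit 0, nat_lit 0, nat_lit 6092, nat_lit 7075, nat_lit 770, nat_lit 0, nat_lit 0, nat_lit 895, nat_lit 0, nat_lit 0, nat_lit 0, nat_lit 0, nat_lit 0, nat_lit 0, nat_lit 0, nat_lit 0, [],
 ⟨p083_k6, nat_lit 0, nat_lit 0, nat_lit 356, nat_lit 0, nat_lit 380375, [nat_lit 2032000001, nat_lit 4688000000, nat_lit 9842000000], [], [nat_lit 28115241274, nat_lit 29196102610, nat_lit 37921927677, nat_lit 39312807659, nat_lit 24958102042, nat_lit 25866975994, nat_lit 31641264052, nat_lit 32431197266], nat_lit 1271250, nat_lit 1271250, nat_lit 1271250, nat_lit 1271250, nat_lit 0, nat_lit 1100001, [nat_lit 490000, nat_lit 1100000, nat_lit 2127500], [nat_lit 27, nat_lit 40, nat_lit 40, nat_lit 80, nat_lit 13, nat_lit 373, nat_lit 150, nat_lit 10]⟩, ⟨p083_k4, nat_lit 0, nat_lit 0, nat_lit 589, nat_lit 0, nat_lit 591694, [nat_lit 4688000000, nat_lit 7968000000, nat_lit 14058000000], [], [nat_lit 38774484200,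 nat_lit 39633756600, nat_lit 43513260871, nat_lit 44204651060, nat_lit 34403304800, nat_lit 34946527400, nat_lit 38579832491, nat_lit 39060663331], nat_lit 1271250, nat_lit 1271250, nat_lit 1271250, nat_lit 1271250, nat_lit 0, nat_lit 1100001, [nat_lit 1100000, nat_lit 1785000, nat_lit 1271250], [nat_lit 37, nat_lit 40, nat_lit 40, nat_lit 80, nat_lit 28, nat_lit 456, nat_lit 225, nat_lit 10]⟩,
 zbF0, []⟩
noncomputable def p083_l36 : Lf2 := ⟨nat_lit 0, nat_lit 20, [nat_lit 5, nat_lit 5, nat_lit 5, nat_lit 20], false, nat_lit 0, nat_lit 160, nat_lit 160, nat_lit 336, ⟨nat_lit 1000, nat_lit 0, nat_lit 0, nat_lit 0, nat_lit 0, nat_lit 0, nat_lit 0, nat_lit 0, nat_lit 0, nat_lit 0, nat_lit 0, nat_lit 0, nat_lit 0, nat_lit 0, nat_lit 0, nat_lit 0, false, false⟩,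
 nat_lit 8162, nat_lit 0, nat_lit 5319, nat_lit 0, nat_lit 6121, nat_lit 7137, nat_lit 766, nat_lit 0, nat_lit 0, nat_lit 918, nat_lit 0, nat_lit 0, nat_lit 0, nat_lit 0, nat_lit 0, nat_lit 0, nat_lit 0, nat_lit 0, [],
 ⟨p083_k6, nat_lit 0, nat_lit 0, nat_lit 356, nat_lit 0, nat_lit 380375, [nat_lit 2032000001, nat_lit 4688000000, nat_lit 9842000000], [], [nat_lit 28103254162, nat_lit 29186683680, nat_lit 38001882719, nat_lit 39396284745, nat_lit 24918672346, nat_lit 25829502522, nat_lit 31575605546, nat_lit 32469720193], nat_lit 1271250, nat_lit 1271250, nat_lit 1271250, nat_lit 1271250, nat_lit 0, nat_lit 1100001, [nat_lit 490000, nat_lit 1100000, nat_lit 2127500], [nat_lit 27, nat_lit 40, nat_lit 40, nat_lit 80, nat_lit 13, nat_lit 373, nat_lit 150, nat_lit 10]⟩, ⟨p083_k4, nat_lit 0, nat_lit 0, nat_lit 436, nat_lit 0, nat_lit 591694, [nat_lit 4688000000, nat_lit 7968000000, nat_lit 14058000000], [], [nat_lit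 30323756696, nat_lit 31016379964, nat_lit 35352605609, nat_lit 35858498406, nat_lit 33030324501, nat_lit 33597866377, nat_lit 37611717987, nat_lit 38049094869], nat_lit 1271250, nat_lit 1271250, nat_lit 1271250, nat_lit 1271250, nat_lit 1100001, nat_lit 2607000, [nat_lit 1100000, nat_lit 1785000, nat_lit 1271250], [nat_lit 37, nat_lit 40, nat_lit 40, nat_lit 80, nat_lit 28, nat_lit 538, nat_lit 300, nat_lit 12]⟩,
 zbF0, [⟨nat_lit 19, nat_lit 100, nat_lit 92, nat_lit 75, nat_lit 387509787⟩]⟩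
noncomputable def p083_l37 : Lf2 := ⟨nat_lit 0, nat_lit 15, [nat_lit 30, nat_lit 5, nat_lit 5, nat_lit 20], false, nat_lit 0, nat_lit 160, nat_lit 0, nat_lit 312, ⟨nat_lit 294, nat_lit 448, nat_lit 258, nat_lit 6, nat_lit 272, nat_lit 706, nat_lit 54, nat_lit 258, nat_lit 28017, nat_lit 256, nat_lit 246636, nat_lit 200, nat_lit 45798515, nat_lit 21201485, nat_lit 0, nat_lit 3120783, true, true⟩,
 nat_lit 5139, nat_lit 0, nat_lit 0, nat_lit 0, nat_lit 3690, nat_lit 2720, nat_lit 0, nat_lit 0, nat_lit 0, nat_lit 238, nat_lit 0, nat_lit 0, nat_lit 0, nat_lit 0, nat_lit 0, nat_lit 437200, nat_lit 0, nat_lit 0, [(nat_lit 22, [(nat_lit 1, nat_lit 448), (nat_lit 6, nat_lit 258)])],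
 ⟨p083_k15, nat_lit 0, nat_lit 0, nat_lit 313, nat_lit 0, nat_lit 389472, [nat_lit 1401225600, nat_lit 1464188000, nat_lit 690190400], [], [nat_lit 24339095580, nat_lit 25223606920, nat_lit 27214149920, nat_lit 28615617000, nat_lit 23669455580, nat_lit 24427215040, nat_lit 25842042480, nat_lit 26515228760], nat_lit 1271250, nat_lit 1271250, nat_lit 1271250, nat_lit 1271250, nat_lit 0, nat_lit 1100001, [nat_lit 490000, nat_lit 1100000, nat_lit 1785000], [nat_lit 34, nat_lit 40, nat_lit 40, nat_lit 80, nat_lit 7, nat_lit 249, nat_lit 40, nat_lit 7]⟩, ⟨p083_k16, nat_lit 0, nat_lit 0, nat_lit 550, nat_lit 0, nat_lit 659441, [nat_lit 1378272000, nat_lit 2342592000, nat_lit 3490368000], [], [nat_lit 10261240624, nat_lit 10369590088, nat_lit 10880745536, nat_lit 11002820136, nat_lit 8520904849, nat_lit 8585485132, nat_lit 8958803849, nat_lit 9020725970], nat_lit 1271250, nat_lit 1271250, nat_lit 1271250, nat_lit 1271250,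 nat_lit 0, nat_lit 2203500, [nat_lit 1100000, nat_lit 1785000, nat_lit 1271250], [nat_lit 21, nat_lit 40, nat_lit 40, nat_lit 80, nat_lit 14, nat_lit 456, nat_lit 225, nat_lit 11]⟩,
 ⟨nat_lit 3162, nat_lit 3873, ⟨.ofNat (nat_lit 608082), .ofNat (nat_lit 737150), .ofNat (nat_lit 629847), .ofNat (nat_lit 758943), .ofNat (nat_lit 605237), .ofNat (nat_lit 727168), .ofNat (nat_lit 627364), .ofNat (nat_lit 749323)⟩, ⟨.ofNat (nat_lit 0), .ofNat (nat_lit 261131), .ofNat (nat_lit 0), .ofNat (nat_lit 282924), .ofNat (nat_lit 0), .ofNat (nat_lit 261806), .ofNat (nat_lit 0), .ofNat (nat_lit 283961)⟩⟩, [⟨nat_lit 7, nat_lit 92, nat_lit 100, nat_lit 68, nat_lit 32562250⟩]⟩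
noncomputable def p083_l38 : Lf2 := ⟨nat_lit 0, nat_lit 20, [nat_lit 5, nat_lit 5, nat_lit 5, nat_lit 20], false, nat_lit 0, nat_lit 160, nat_lit 0, nat_lit 336, ⟨nat_lit 536, nat_lit 308, nat_lit 156, nat_lit 6, nat_lit 272, nat_lit 464, nat_lit 59, nat_lit 156, nat_lit 32267, nat_lit 259, nat_lit 246636, nat_lit 200, nat_lit 45798515, nat_lit 21201485, nat_lit 0, nat_lit 3120783, true, true⟩,
 nat_lit 8991, nat_lit 0, nat_lit 0, nat_lit 0, nat_lit 4419, nat_lit 4759, nat_lit 143, nat_lit 0, nat_lit 0, nat_lit 472, nat_lit 0, nat_lit 0, nat_lit 0, nat_lit 0, nat_lit 0, nat_lit 464000, nat_lit 0, nat_lit 0, [(nat_lit 22, [(nat_lit 2, nat_lit 308), (nat_lit 6, nat_lit 156)])],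
 ⟨p083_k3, nat_lit 0, nat_lit 0, nat_lit 288, nat_lit 0, nat_lit 304456, [nat_lit 1636770134, nat_lit 2141822401, nat_lit 1698788800], [], [nat_lit 23979294086, nat_lit 25880403052, nat_lit 28824050192, nat_lit 30358583100, nat_lit 21898456944, nat_lit 22736498858, nat_lit 25278102744, nat_lit 26605463036], nat_lit 1271250, nat_lit 1271250, nat_lit 1271250, nat_lit 1271250, nat_lit 0, nat_lit 1100001, [nat_lit 490000, nat_lit 1100000, nat_lit 1785000], [nat_lit 34, nat_lit 40, nat_lit 40, nat_lit 80, nat_lit 7, nat_lit 249, nat_lit 40, nat_lit 7]⟩, ⟨p083_k4, nat_lit 0, nat_lit 0, nat_lit 564, nat_lit 0, nat_lit 519961, [nat_lit 2512768000, nat_lit 4270848000, nat_lit 7535088000], [], [nat_lit 19047550508, nat_lit 19277734964, nat_lit 20143391676, nat_lit 20295944676, nat_lit 16550492785, nat_lit 16703074867, nat_lit 17309570590, nat_lit 17400905698], nat_lit 1271250, nat_lit 1271250, nat_lit 1271250, nat_lit 1271250,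 nat_lit 0, nat_lit 2373000, [nat_lit 1100000, nat_lit 1785000, nat_lit 1271250], [nat_lit 37, nat_lit 40, nat_lit 40, nat_lit 80, nat_lit 28, nat_lit 483, nat_lit 250, nat_lit 11]⟩,
 ⟨nat_lit 3162, nat_lit 3873, ⟨.ofNat (nat_lit 608082), .ofNat (nat_lit 737150), .ofNat (nat_lit 629847), .ofNat (nat_lit 758943), .ofNat (nat_lit 605237), .ofNat (nat_lit 727168), .ofNat (nat_lit 627364), .ofNat (nat_lit 749323)⟩, ⟨.ofNat (nat_lit 0), .ofNat (nat_lit 282924), .ofNat (nat_lit 0), .ofNat (nat_lit 304717), .ofNat (nat_lit 0), .ofNat (nat_lit 283961), .ofNat (nat_lit 0), .ofNat (nat_lit 306116)⟩⟩, [⟨nat_lit 7, nat_lit 85, nat_lit 100, nat_lit 78, nat_lit 39643828⟩, ⟨nat_lit 22, nat_lit 100, nat_lit 95, nat_lit 87, nat_lit 31625683⟩]⟩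
noncomputable def p083_l39 : Lf2 := ⟨nat_lit 0, nat_lit 20, [nat_lit 5, nat_lit 5, nat_lit 5, nat_lit 20], false, nat_lit 0, nat_lit 160, nat_lit 0, nat_lit 160, ⟨nat_lit 1000, nat_lit 0, nat_lit 0, nat_lit 0, nat_lit 0, nat_lit 0, nat_lit 0, nat_lit 0, nat_lit 0, nat_lit 0, nat_lit 0, nat_lit 0, nat_lit 0, nat_lit 0, nat_lit 0, nat_lit 0, false, false⟩,
 nat_lit 13817, nat_lit 0, nat_lit 0, nat_lit 0, nat_lit 4861, nat_lit 7314, nat_lit 665, nat_lit 0, nat_lit 0, nat_lit 901, nat_lit 0, nat_lit 0, nat_lit 0, nat_lit 0, nat_lit 0, nat_lit 0, nat_lit 0, nat_lit 0, [],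
 ⟨p083_k3, nat_lit 0, nat_lit 0, nat_lit 338, nat_lit 0, nat_lit 403203, [nat_lit 2032000001, nat_lit 4688000000, nat_lit 7968000000], [], [nat_lit 29800148848, nat_lit 31415360900, nat_lit 34463839805, nat_lit 35783089202, nat_lit 27537645454, nat_lit 28204754605, nat_lit 29686972824, nat_lit 30819461138], nat_lit 1271250, nat_lit 1271250, nat_lit 1271250, nat_lit 1271250, nat_lit 0, nat_lit 1100001, [nat_lit 490000, nat_lit 1100000, nat_lit 1785000], [nat_lit 34, nat_lit 40, nat_lit 40, nat_lit 80, nat_lit 7, nat_lit 249, nat_lit 40, nat_lit 7]⟩, ⟨p083_k4, nat_lit 0, nat_lit 0, nat_lit 612, nat_lit 0, nat_lit 688606, [nat_lit 4688000000, nat_lit 7968000000, nat_lit 14058000000], [], [nat_lit 40258181932, nat_lit 40564263852, nat_lit 42417044544, nat_lit 42623145760, nat_lit 35626197728, nat_lit 35877579500, nat_lit 37334027332, nat_lit 37508253264], nat_lit 1271250, nat_lit 1271250, nat_lit 1271250, nat_lit 1271250,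 nat_lit 0, nat_lit 1100001, [nat_lit 1100000, nat_lit 1785000, nat_lit 1271250], [nat_lit 37, nat_lit 40, nat_lit 40, nat_lit 80, nat_lit 28, nat_lit 428, nat_lit 200, nat_lit 9]⟩,
 zbF0, []⟩
noncomputable def p083_l40 : Lf2 := ⟨nat_lit 0, nat_lit 20, [nat_lit 5, nat_lit 5, nat_lit 5, nat_lit 20], false, nat_lit 16, nat_lit 160, nat_lit 160, nat_lit 336, ⟨nat_lit 405, nat_lit 595, nat_lit 0, nat_lit 8, nat_lit 316, nat_lit 595, nat_lit 64, nat_lit 0, nat_lit 0, nat_lit 0, nat_lit 0, nat_lit 0, nat_lit 39834050, nat_lit 25109395, nat_lit 2056555, nat_lit 4076114, true, true⟩,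
 nat_lit 6539, nat_lit 0, nat_lit 0, nat_lit 0, nat_lit 4543, nat_lit 3461, nat_lit 0, nat_lit 0, nat_lit 0, nat_lit 343, nat_lit 0, nat_lit 0, nat_lit 0, nat_lit 0, nat_lit 0, nat_lit 421600, nat_lit 0, nat_lit 0, [(nat_lit 22, [(nat_lit 1, nat_lit 289), (nat_lit 2, nat_lit 306)])],
 ⟨p083_k3, nat_lit 0, nat_lit 0, nat_lit 317, nat_lit 0, nat_lit 403203, [nat_lit 1642305601, nat_lit 2346263601, nat_lit 2445794800], [], [nat_lit 28965430619, nat_lit 30119510369, nat_lit 32844192854, nat_lit 34111707734, nat_lit 26872473442, nat_lit 27608794602, nat_lit 29537641394, nat_lit 30401209094], nat_lit 1271250, nat_lit 1271250, nat_lit 1271250, nat_lit 1271250, nat_lit 88400, nat_lit 1100001, [nat_lit 490000, nat_lit 1100000, nat_lit 1785000], [nat_lit 34, nat_lit 40, nat_lit 40, nat_lit 80, nat_lit 7, nat_lit 249, nat_lit 40, nat_lit 7]⟩, ⟨p083_k4, nat_lit 0, nat_lit 0, nat_lit 468, nat_lit 0, nat_lit 688606, [nat_lit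 1898640000, nat_lit 3227040000, nat_lit 5693490000], [], [nat_lit 12933299972, nat_lit 13020779904, nat_lit 13702477786, nat_lit 13750983200, nat_lit 13496887335, nat_lit 13568962811, nat_lit 14226169941, nat_lit 14292289900], nat_lit 1271250, nat_lit 1271250, nat_lit 1271250, nat_lit 1271250, nat_lit 1100001, nat_lit 2607000, [nat_lit 1100000, nat_lit 1785000, nat_lit 1271250], [nat_lit 37, nat_lit 40, nat_lit 40, nat_lit 80, nat_lit 28, nat_lit 483, nat_lit 250, nat_lit 10]⟩,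
 ⟨nat_lit 3162, nat_lit 3873, ⟨.ofNat (nat_lit 737150), .ofNat (nat_lit 833932), .ofNat (nat_lit 758943), .ofNat (nat_lit 855725), .ofNat (nat_lit 727168), .ofNat (nat_lit 818598), .ofNat (nat_lit 749323), .ofNat (nat_lit 840753)⟩, ⟨.ofNat (nat_lit 28853), .ofNat (nat_lit 261131), .ofNat (nat_lit 40000), .ofNat (nat_lit 304717), .ofNat (nat_lit 40000), .ofNat (nat_lit 261806), .ofNat (nat_lit 40000), .ofNat (nat_lit 306116)⟩⟩, [⟨nat_lit 13, nat_lit 68, nat_lit 58, nat_lit 100, nat_lit 11585737⟩, ⟨nat_lit 7, nat_lit 88, nat_lit 100, nat_lit 74, nat_lit 51338252⟩, ⟨nat_lit 22, nat_lit 68, nat_lit 100, nat_lit 91, nat_lit 113267024⟩]⟩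
noncomputable def p083_l41 : Lf2 := ⟨nat_lit 0, nat_lit 20, [nat_lit 5, nat_lit 5, nat_lit 5, nat_lit 20], false, nat_lit 0, nat_lit 160, nat_lit 0, nat_lit 320, ⟨nat_lit 1000, nat_lit 0, nat_lit 0, nat_lit 0, nat_lit 0, nat_lit 0, nat_lit 0, nat_lit 0, nat_lit 0, nat_lit 0, nat_lit 0, nat_lit 0, nat_lit 0, nat_lit 0, nat_lit 0, nat_lit 0, false, false⟩,
 nat_lit 12813, nat_lit 0, nat_lit 0, nat_lit 0, nat_lit 5348, nat_lit 7458, nat_lit 710, nat_lit 0, nat_lit 0, nat_lit 869, nat_lit 0, nat_lit 0, nat_lit 0, nat_lit 0, nat_lit 0, nat_lit 0, nat_lit 0, nat_lit 0, [],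
 ⟨p083_k3, nat_lit 0, nat_lit 0, nat_lit 367, nat_lit 0, nat_lit 452014, [nat_lit 2032000001, nat_lit 4688000000, nat_lit 7968000000], [], [nat_lit 25580327112, nat_lit 27710819184, nat_lit 36481905185, nat_lit 37824462649, nat_lit 22951819134, nat_lit 23773153940, nat_lit 30846314588, nat_lit 32022670783], nat_lit 1271250, nat_lit 1271250, nat_lit 1271250, nat_lit 1271250, nat_lit 0, nat_lit 1100001, [nat_lit 490000, nat_lit 1100000, nat_lit 1785000], [nat_lit 34, nat_lit 40, nat_lit 40, nat_lit 80, nat_lit 7, nat_lit 249, nat_lit 40, nat_lit 7]⟩, ⟨p083_k7, nat_lit 0, nat_lit 0, nat_lit 556, nat_lit 0, nat_lit 682618, [nat_lit 4688000000, nat_lit 7968000000, nat_lit 11872000000], [], [nat_lit 33534180375, nat_lit 34052809279, nat_lit 38471214838, nat_lit 39054156315, nat_lit 30887630216, nat_lit 31071917760, nat_lit 34050788764, nat_lit 34181288129], nat_lit 1271250, nat_lit 1271250, nat_lit 1271250, nat_lit 1271250,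 nat_lit 0, nat_lit 2260000, [nat_lit 1100000, nat_lit 1785000, nat_lit 1271250], [nat_lit 21, nat_lit 40, nat_lit 40, nat_lit 80, nat_lit 14, nat_lit 483, nat_lit 250, nat_lit 12]⟩,
 zbF0, [⟨nat_lit 7, nat_lit 97, nat_lit 100, nat_lit 76, nat_lit 143169488⟩, ⟨nat_lit 22, nat_lit 87, nat_lit 100, nat_lit 84, nat_lit 718363⟩]⟩
noncomputable def p083_l42 : Lf2 := ⟨nat_lit 0, nat_lit 20, [nat_lit 5, nat_lit 5, nat_lit 5, nat_lit 20], false, nat_lit 160, nat_lit 260, nat_lit 0, nat_lit 336, ⟨nat_lit 1000, nat_lit 0, nat_lit 0, nat_lit 0, nat_lit 0, nat_lit 0, nat_lit 0, nat_lit 0, nat_lit 0, nat_lit 0, nat_lit 0, nat_lit 0, nat_lit 0, nat_lit 0, nat_lit 0, nat_lit 0, false, false⟩,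
 nat_lit 15845, nat_lit 0, nat_lit 0, nat_lit 0, nat_lit 7064, nat_lit 8388, nat_lit 736, nat_lit 0, nat_lit 0, nat_lit 842, nat_lit 0, nat_lit 0, nat_lit 0, nat_lit 0, nat_lit 0, nat_lit 0, nat_lit 0, nat_lit 0, [],
 ⟨p083_k6, nat_lit 0, nat_lit 0, nat_lit 198, nat_lit 0, nat_lit 258704, [nat_lit 2032000001, nat_lit 4688000000, nat_lit 9842000000], [], [nat_lit 22025089408, nat_lit 22608559264, nat_lit 32032864577, nat_lit 32701731140, nat_lit 24139949480, nat_lit 24706292666, nat_lit 33578193098, nat_lit 34122419425], nat_lit 1271250, nat_lit 1271250, nat_lit 1271250, nat_lit 1271250, nat_lit 1100001, nat_lit 1956250, [nat_lit 490000, nat_lit 1100000, nat_lit 2127500], [nat_lit 27, nat_lit 40, nat_lit 40, nat_lit 80, nat_lit 13, nat_lit 401, nat_lit 175, nat_lit 10]⟩, ⟨p083_k4, nat_lit 0, nat_lit 0, nat_lit 467, nat_lit 0, nat_lit 402429, [nat_lit 4688000000, nat_lit 7968000000, nat_lit 14058000000], [], [nat_lit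 36842046488, nat_lit 37271546136, nat_lit 42460345756, nat_lit 42923749879, nat_lit 32571481634, nat_lit 32694658509, nat_lit 35916641037, nat_lit 35991724561], nat_lit 1271250, nat_lit 1271250, nat_lit 1271250, nat_lit 1271250, nat_lit 0, nat_lit 2373000, [nat_lit 1100000, nat_lit 1785000, nat_lit 1271250], [nat_lit 37, nat_lit 40, nat_lit 40, nat_lit 80, nat_lit 28, nat_lit 483, nat_lit 250, nat_lit 11]⟩,
 zbF0, [⟨nat_lit 4, nat_lit 100, nat_lit 79, nat_lit 72, nat_lit 553104407⟩, ⟨nat_lit 7, nat_lit 88, nat_lit 100, nat_lit 74, nat_lit 114974530⟩]⟩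
noncomputable def p083_l43 : Lf2 := ⟨nat_lit 0, nat_lit 20, [nat_lit 5, nat_lit 5, nat_lit 5, nat_lit 20], false, nat_lit 160, nat_lit 244, nat_lit 0, nat_lit 336, ⟨nat_lit 652, nat_lit 348, nat_lit 0, nat_lit 6, nat_lit 295, nat_lit 348, nat_lit 140, nat_lit 0, nat_lit 0, nat_lit 0, nat_lit 0, nat_lit 0, nat_lit 38593940, nat_lit 21753938, nat_lit 6652122, nat_lit 4876820, true, true⟩,
 nat_lit 10419, nat_lit 0, nat_lit 0, nat_lit 0, nat_lit 4994, nat_lit 5515, nat_lit 633, nat_lit 0, nat_lit 0, nat_lit 550, nat_lit 0, nat_lit 0, nat_lit 0, nat_lit 0, nat_lit 0, nat_lit 87000, nat_lit 0, nat_lit 0, [(nat_lit 19, [(nat_lit 0, nat_lit 348)])],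
 ⟨p083_k10, nat_lit 0, nat_lit 0, nat_lit 209, nat_lit 0, nat_lit 303798, [nat_lit 1861619200, nat_lit 3880779200, nat_lit 7488406400], [], [nat_lit 22718902419, nat_lit 23210714745, nat_lit 29533538975, nat_lit 30110892093, nat_lit 24120446238, nat_lit 24595726428, nat_lit 30821675767, nat_lit 31318358489], nat_lit 1271250, nat_lit 1271250, nat_lit 1271250, nat_lit 1271250, nat_lit 1100001, nat_lit 1819250, [nat_lit 490000, nat_lit 1100000, nat_lit 2127500], [nat_lit 27, nat_lit 40, nat_lit 40, nat_lit 80, nat_lit 13, nat_lit 401, nat_lit 175, nat_lit 10]⟩, ⟨p083_k4, nat_lit 0, nat_lit 0, nat_lit 556, nat_lit 0, nat_lit 495499, [nat_lit 3056576000, nat_lit 5195136000, nat_lit 9165816000], [], [nat_lit 23924575508, nat_lit 24204604492, nat_lit 27316050325, nat_lit 27636931453, nat_lit 21085302529, nat_lit 21164503269, nat_lit 23110782032, nat_lit 23166101597], nat_lit 1271250, nat_lit 1271250, nat_lit 1271250,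 nat_lit 1271250, nat_lit 0, nat_lit 2373000, [nat_lit 1100000, nat_lit 1785000, nat_lit 1271250], [nat_lit 37, nat_lit 40, nat_lit 40, nat_lit 80, nat_lit 28, nat_lit 483, nat_lit 250, nat_lit 11]⟩,
 ⟨nat_lit 3872, nat_lit 4184, ⟨.ofNat (nat_lit 609582), .ofNat (nat_lit 848108), .ofNat (nat_lit 631244), .ofNat (nat_lit 869774), .ofNat (nat_lit 608101), .ofNat (nat_lit 840384), .ofNat (nat_lit 629889), .ofNat (nat_lit 862177)⟩, ⟨.ofNat (nat_lit 260409), .ofNat (nat_lit 399546), .ofNat (nat_lit 303743), .ofNat (nat_lit 442879), .ofNat (nat_lit 261131), .ofNat (nat_lit 396626), .ofNat (nat_lit 304717), .ofNat (nat_lit 440213)⟩⟩, [⟨nat_lit 4, nat_lit 100, nat_lit 74, nat_lit 72, nat_lit 397035886⟩, ⟨nat_lit 7, nat_lit 88, nat_lit 100, nat_lit 74, nat_lit 76913177⟩]⟩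
noncomputable def p083_l44 : Lf2 := ⟨nat_lit 0, nat_lit 20, [nat_lit 5, nat_lit 5, nat_lit 5, nat_lit 20], false, nat_lit 160, nat_lit 232, nat_lit 0, nat_lit 336, ⟨nat_lit 383, nat_lit 617, nat_lit 0, nat_lit 6, nat_lit 272, nat_lit 617, nat_lit 136, nat_lit 0, nat_lit 0, nat_lit 0, nat_lit 0, nat_lit 0, nat_lit 40715524, nat_lit 19732411, nat_lit 6552065, nat_lit 4756990, true, true⟩,
 nat_lit 6423, nat_lit 0, nat_lit 0, nat_lit 0, nat_lit 5199, nat_lit 3400, nat_lit 261, nat_lit 0, nat_lit 0, nat_lit 337, nat_lit 0, nat_lit 0, nat_lit 0, nat_lit 0, nat_lit 0, nat_lit 154250, nat_lit 0, nat_lit 0, [(nat_lit 22, [(nat_lit 0, nat_lit 617)])],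
 ⟨p083_k3, nat_lit 0, nat_lit 0, nat_lit 225, nat_lit 0, nat_lit 403203, [nat_lit 1745712001, nat_lit 3011487600, nat_lit 4725294800], [], [nat_lit 22931024252, nat_lit 24222442460, nat_lit 26260183870, nat_lit 27326754228, nat_lit 24424001730, nat_lit 25556875125, nat_lit 27374826627, nat_lit 28639196803], nat_lit 1271250, nat_lit 1271250, nat_lit 1271250, nat_lit 1271250, nat_lit 1100001, nat_lit 1716500, [nat_lit 490000, nat_lit 1100000, nat_lit 1785000], [nat_lit 34, nat_lit 40, nat_lit 40, nat_lit 80, nat_lit 7, nat_lit 272, nat_lit 60, nat_lit 7]⟩, ⟨p083_k4, nat_lit 0, nat_lit 0, nat_lit 624, nat_lit 0, nat_lit 688606, [nat_lit 1795504000, nat_lit 3051744000, nat_lit 5384214000], [], [nat_lit 13614191972, nat_lit 13778670848, nat_lit 14397209052, nat_lit 14506223742, nat_lit 11827897441, nat_lit 11936931990, nat_lit 12370308828, nat_lit 12435585116], nat_lit 1271250, nat_lit 1271250, nat_lit 1271250, nat_lit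 1271250, nat_lit 0, nat_lit 2373000, [nat_lit 1100000, nat_lit 1785000, nat_lit 1271250], [nat_lit 37, nat_lit 40, nat_lit 40, nat_lit 80, nat_lit 28, nat_lit 483, nat_lit 250, nat_lit 11]⟩,
 ⟨nat_lit 3162, nat_lit 3873, ⟨.ofNat (nat_lit 608082), .ofNat (nat_lit 737150), .ofNat (nat_lit 629847), .ofNat (nat_lit 758943), .ofNat (nat_lit 605237), .ofNat (nat_lit 727168), .ofNat (nat_lit 627364), .ofNat (nat_lit 749323)⟩, ⟨.ofNat (nat_lit 261131), .ofNat (nat_lit 377270), .ofNat (nat_lit 304717), .ofNat (nat_lit 420856), .ofNat (nat_lit 261806), .ofNat (nat_lit 371522), .ofNat (nat_lit 306116), .ofNat (nat_lit 415832)⟩⟩, [⟨nat_lit 4, nat_lit 100, nat_lit 66, nat_lit 72, nat_lit 467587562⟩, ⟨nat_lit 7, nat_lit 88, nat_lit 100, nat_lit 74, nat_lit 56411585⟩]⟩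
noncomputable def p083_l45 : Lf2 := ⟨nat_lit 0, nat_lit 20, [nat_lit 5, nat_lit 5, nat_lit 5, nat_lit 20], false, nat_lit 160, nat_lit 232, nat_lit 16, nat_lit 336, ⟨nat_lit 438, nat_lit 562, nat_lit 0, nat_lit 8, nat_lit 316, nat_lit 562, nat_lit 136, nat_lit 0, nat_lit 0, nat_lit 0, nat_lit 0, nat_lit 0, nat_lit 37087327, nat_lit 23758490, nat_lit 6154183, nat_lit 4878542, true, true⟩,
 nat_lit 6809, nat_lit 0, nat_lit 0, nat_lit 0, nat_lit 4386, nat_lit 3604, nat_lit 234, nat_lit 0, nat_lit 0, nat_lit 341, nat_lit 0, nat_lit 0, nat_lit 0, nat_lit 0, nat_lit 0, nat_lit 224800, nat_lit 0, nat_lit 0, [(nat_lit 22, [(nat_lit 1, nat_lit 562)])],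
 ⟨p083_k3, nat_lit 0, nat_lit 0, nat_lit 247, nat_lit 0, nat_lit 403203, [nat_lit 1653436801, nat_lit 2927141600, nat_lit 4273861600], [], [nat_lit 26602559666, nat_lit 27451419898, nat_lit 29354827188, nat_lit 30194713588, nat_lit 27590872061, nat_lit 28466703896, nat_lit 30182053598, nat_lit 31158168733], nat_lit 1271250, nat_lit 1271250, nat_lit 1271250, nat_lit 1271250, nat_lit 1100001, nat_lit 1716500, [nat_lit 490000, nat_lit 1100000, nat_lit 1785000], [nat_lit 34, nat_lit 40, nat_lit 40, nat_lit 80, nat_lit 7, nat_lit 272, nat_lit 60, nat_lit 7]⟩, ⟨p083_k4, nat_lit 0, nat_lit 0, nat_lit 600, nat_lit 0, nat_lit 688606, [nat_lit 2053344000, nat_lit 3489984000, nat_lit 6157404000], [], [nat_lit 17036850830, nat_lit 17163783819, nat_lit 18013978174, nat_lit 18093284379, nat_lit 15088456619, nat_lit 15108331988, nat_lit 15775671470, nat_lit 15818656020], nat_lit 1271250, nat_lit 1271250, nat_lit 1271250, nat_lit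 1271250, nat_lit 88400, nat_lit 2396400, [nat_lit 1100000, nat_lit 1785000, nat_lit 1271250], [nat_lit 37, nat_lit 40, nat_lit 40, nat_lit 80, nat_lit 28, nat_lit 483, nat_lit 250, nat_lit 11]⟩,
 ⟨nat_lit 3162, nat_lit 3873, ⟨.ofNat (nat_lit 737150), .ofNat (nat_lit 833932), .ofNat (nat_lit 758943), .ofNat (nat_lit 855725), .ofNat (nat_lit 727168), .ofNat (nat_lit 818598), .ofNat (nat_lit 749323), .ofNat (nat_lit 840753)⟩, ⟨.ofNat (nat_lit 261131), .ofNat (nat_lit 377270), .ofNat (nat_lit 304717), .ofNat (nat_lit 420856), .ofNat (nat_lit 261806), .ofNat (nat_lit 371522), .ofNat (nat_lit 306116), .ofNat (nat_lit 415832)⟩⟩, [⟨nat_lit 13, nat_lit 68, nat_lit 58, nat_lit 100, nat_lit 143492979⟩, ⟨nat_lit 4, nat_lit 100, nat_lit 66, nat_lit 72, nat_lit 473194808⟩, ⟨nat_lit 19, nat_lit 100, nat_lit 88, nat_lit 74, nat_lit 66214669⟩]⟩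
noncomputable def p083_l46 : Lf2 := ⟨nat_lit 0, nat_lit 20, [nat_lit 5, nat_lit 5, nat_lit 5, nat_lit 20], false, nat_lit 160, nat_lit 260, nat_lit 0, nat_lit 320, ⟨nat_lit 1000, nat_lit 0, nat_lit 0, nat_lit 0, nat_lit 0, nat_lit 0, nat_lit 0, nat_lit 0, nat_lit 0, nat_lit 0, nat_lit 0, nat_lit 0, nat_lit 0, nat_lit 0, nat_lit 0, nat_lit 0, false, false⟩,
 nat_lit 12786, nat_lit 0, nat_lit 0, nat_lit 0, nat_lit 7013, nat_lit 7442, nat_lit 685, nat_lit 0, nat_lit 0, nat_lit 807, nat_lit 0, nat_lit 0, nat_lit 0, nat_lit 0, nat_lit 0, nat_lit 0, nat_lit 0, nat_lit 0, [],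
 ⟨p083_k6, nat_lit 0, nat_lit 0, nat_lit 311, nat_lit 0, nat_lit 496265, [nat_lit 2032000001, nat_lit 4688000000, nat_lit 9842000000], [], [nat_lit 23285655813, nat_lit 25227657669, nat_lit 32343398382, nat_lit 34965866215, nat_lit 24725434462, nat_lit 27256886080, nat_lit 33828496623, nat_lit 35963682433], nat_lit 1271250, nat_lit 1271250, nat_lit 1271250, nat_lit 1271250, nat_lit 1100001, nat_lit 1956250, [nat_lit 490000, nat_lit 1100000, nat_lit 2127500], [nat_lit 27, nat_lit 40, nat_lit 40, nat_lit 80, nat_lit 13, nat_lit 401, nat_lit 175, nat_lit 10]⟩, ⟨p083_k7, nat_lit 0, nat_lit 0, nat_lit 556, nat_lit 0, nat_lit 682618, [nat_lit 4688000000, nat_lit 7968000000, nat_lit 11872000000], [], [nat_lit 34282712129, nat_lit 34788386421, nat_lit 39576943109, nat_lit 40140449145, nat_lit 31273540584, nat_lit 31458932573, nat_lit 34652993643, nat_lit 34772710624], nat_lit 1271250, nat_lit 1271250, nat_lit 1271250,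 nat_lit 1271250, nat_lit 0, nat_lit 2260000, [nat_lit 1100000, nat_lit 1785000, nat_lit 1271250], [nat_lit 21, nat_lit 40, nat_lit 40, nat_lit 80, nat_lit 14, nat_lit 483, nat_lit 250, nat_lit 12]⟩,
 zbF0, [⟨nat_lit 16, nat_lit 71, nat_lit 100, nat_lit 71, nat_lit 907899219⟩, ⟨nat_lit 7, nat_lit 97, nat_lit 100, nat_lit 76, nat_lit 133671214⟩]⟩
noncomputable def b_V_800_600_10_22 : St := ⟨true, nat_lit 1, nat_lit 1, nat_lit 1, nat_lit 80, nat_lit 320, nat_lit 360, nat_lit 240, nat_lit 280, nat_lit 240, nat_lit 396, nat_lit 40, nat_lit 80, nat_lit 0, nat_lit 260, nat_lit 0, nat_lit 336, nat_lit 40, nat_lit 80, nat_lit 0, nat_lit 0, nat_lit 0, nat_lit 0⟩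
theorem d_V_800_600_10_22 (h : EB TB.env) : Dead b_V_800_600_10_22 := chkB_sound0 h (T :=
(.spl (nat_lit 4) (nat_lit 160)
(.spl (nat_lit 0) (nat_lit 340)
(.spl (nat_lit 5) (nat_lit 160)
(.leaf p083_l35)
(.leaf p083_l36))
(.trX (nat_lit 13) (nat_lit 78) (nat_lit 39) (nat_lit 100) (nat_lit 388) (.spl (nat_lit 1) (nat_lit 260)
(.trX (nat_lit 13) (nat_lit 75) (nat_lit 48) (nat_lit 100) (nat_lit 380) (.spl (nat_lit 2) (nat_lit 320)
(.spl (nat_lit 3) (nat_lit 60)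
(.trX (nat_lit 19) (nat_lit 100) (nat_lit 85) (nat_lit 73) (nat_lit 312) (.leaf p083_l37))
(.leaf p083_l38))
(.spl (nat_lit 5) (nat_lit 160)
(.leaf p083_l39)
(.trZ (nat_lit 22) (nat_lit 82) (nat_lit 100) (nat_lit 44) (nat_lit 16) (.leaf p083_l40)))))
(.trX (nat_lit 19) (nat_lit 100) (nat_lit 85) (nat_lit 84) (nat_lit 320) (.leaf p083_l41)))))
(.spl (nat_lit 1) (nat_lit 260)
(.trX (nat_lit 13) (nat_lit 84) (nat_lit 35) (nat_lit 100) (nat_lit 392) (.spl (nat_lit 0) (nat_lit 340)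
(.spl (nat_lit 0) (nat_lit 330)
(.leaf p083_l42)
(.trX (nat_lit 13) (nat_lit 80) (nat_lit 41) (nat_lit 100) (nat_lit 384) (.trX (nat_lit 16) (nat_lit 78) (nat_lit 100) (nat_lit 82) (nat_lit 244) (.leaf p083_l43))))
(.trX (nat_lit 13) (nat_lit 75) (nat_lit 48) (nat_lit 100) (nat_lit 380) (.trX (nat_lit 16) (nat_lit 72) (nat_lit 100) (nat_lit 81) (nat_lit 232) (.spl (nat_lit 2) (nat_lit 320)
(.leaf p083_l44)
(.trZ (nat_lit 9) (nat_lit 100) (nat_lit 82) (nat_lit 44) (nat_lit 16) (.leaf p083_l45)))))))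
(.trX (nat_lit 19) (nat_lit 100) (nat_lit 85) (nat_lit 84) (nat_lit 320) (.leaf p083_l46))))) (by decide +kernel)
noncomputable def p083_l47 : Lf2 := ⟨nat_lit 0, nat_lit 20, [nat_lit 5, nat_lit 5, nat_lit 5, nat_lit 20], true, nat_lit 0, nat_lit 160, nat_lit 0, nat_lit 336, ⟨nat_lit 0, nat_lit 1000, nat_lit 0, nat_lit 6, nat_lit 194, nat_lit 1000, nat_lit 56, nat_lit 0, nat_lit 0, nat_lit 0, nat_lit 0, nat_lit 0, nat_lit 0, nat_lit 0, nat_lit 0, nat_lit 5000000, false, false⟩,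
 nat_lit 0, nat_lit 5957, nat_lit 0, nat_lit 0, nat_lit 4467, nat_lit 0, nat_lit 168, nat_lit 0, nat_lit 0, nat_lit 0, nat_lit 0, nat_lit 0, nat_lit 0, nat_lit 0, nat_lit 122, nat_lit 1000000, nat_lit 0, nat_lit 0, [(nat_lit 19, [(nat_lit 2, nat_lit 1000)])],
 ⟨p083_k6, nat_lit 0, nat_lit 0, nat_lit 561, nat_lit 0, nat_lit 636396, [nat_lit 2674666667, nat_lit 3002933334, nat_lit 263200000], [], [nat_lit 25438614932, nat_lit 23132990750, nat_lit 22149056160, nat_lit 24062016998, nat_lit 17364533655, nat_lit 18407172785, nat_lit 24054523304, nat_lit 22131587012], nat_lit 1271250, nat_lit 1271250, nat_lit 382400, nat_lit 1731000, nat_lit 0, nat_lit 1100001, [nat_lit 490000, nat_lit 1100000, nat_lit 2127500], [nat_lit 27, nat_lit 40, nat_lit 40, nat_lit 80, nat_lit 13, nat_lit 317, nat_lit 100, nat_lit 9]⟩, C1.Rw.none,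
 ⟨nat_lit 3872, nat_lit 4473, ⟨.ofNat (nat_lit 311945), .ofNat (nat_lit 611083), .ofNat (nat_lit 355043), .ofNat (nat_lit 654181), .ofNat (nat_lit 324151), .ofNat (nat_lit 608080), .ofNat (nat_lit 367703), .ofNat (nat_lit 651631)⟩, ⟨.negSucc (nat_lit 12427), .ofNat (nat_lit 259489), .ofNat (nat_lit 0), .ofNat (nat_lit 302621), .ofNat (nat_lit 0), .ofNat (nat_lit 261131), .ofNat (nat_lit 0), .ofNat (nat_lit 304717)⟩⟩, []⟩
noncomputable def p083_l48 : Lf2 := ⟨nat_lit 0, nat_lit 20, [nat_lit 5, nat_lit 5, nat_lit 5, nat_lit 20], true, nat_lit 0, nat_lit 160, nat_lit 0, nat_lit 336, ⟨nat_lit 0, nat_lit 1000, nat_lit 0, nat_lit 6, nat_lit 204, nat_lit 1000, nat_lit 57, nat_lit 0, nat_lit 0, nat_lit 0, nat_lit 0, nat_lit 0, nat_lit 0, nat_lit 0, nat_lit 0, nat_lit 5000000, false, false⟩,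
 nat_lit 0, nat_lit 4838, nat_lit 0, nat_lit 0, nat_lit 3916, nat_lit 0, nat_lit 181, nat_lit 0, nat_lit 0, nat_lit 0, nat_lit 0, nat_lit 0, nat_lit 0, nat_lit 0, nat_lit 0, nat_lit 400000, nat_lit 0, nat_lit 0, [(nat_lit 22, [(nat_lit 1, nat_lit 1000)])],
 ⟨p083_k3, nat_lit 0, nat_lit 0, nat_lit 516, nat_lit 0, nat_lit 747897, [nat_lit 1358400001, nat_lit 1554800000, nat_lit 1406000000], [], [nat_lit 20812044713, nat_lit 22064986279, nat_lit 23112426904, nat_lit 24889338128, nat_lit 20418824994, nat_lit 21288875602, nat_lit 24168711927, nat_lit 23038159247], nat_lit 1271250, nat_lit 1271250, nat_lit 545600, nat_lit 1744500, nat_lit 0, nat_lit 1100001, [nat_lit 490000, nat_lit 1100000, nat_lit 1785000], [nat_lit 34, nat_lit 40, nat_lit 40, nat_lit 80, nat_lit 7, nat_lit 317, nat_lit 100, nat_lit 10]⟩, C1.Rw.none,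
 ⟨nat_lit 3162, nat_lit 3873, ⟨.ofNat (nat_lit 362778), .ofNat (nat_lit 608082), .ofNat (nat_lit 406307), .ofNat (nat_lit 651611), .ofNat (nat_lit 373492), .ofNat (nat_lit 605237), .ofNat (nat_lit 417744), .ofNat (nat_lit 649490)⟩, ⟨.ofNat (nat_lit 0), .ofNat (nat_lit 261131), .ofNat (nat_lit 0), .ofNat (nat_lit 304717), .ofNat (nat_lit 0), .ofNat (nat_lit 261806), .ofNat (nat_lit 0), .ofNat (nat_lit 306116)⟩⟩, []⟩
noncomputable def p083_l49 : Lf2 := ⟨nat_lit 0, nat_lit 20, [nat_lit 5, nat_lit 5, nat_lit 5, nat_lit 20], true, nat_lit 160, nat_lit 260, nat_lit 0, nat_lit 336, ⟨nat_lit 0, nat_lit 1000, nat_lit 0, nat_lit 6, nat_lit 195, nat_lit 1000, nat_lit 145, nat_lit 0, nat_lit 0, nat_lit 0, nat_lit 0, nat_lit 0, nat_lit 0, nat_lit 0, nat_lit 0, nat_lit 5000000, false, false⟩,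
 nat_lit 0, nat_lit 5826, nat_lit 0, nat_lit 0, nat_lit 4369, nat_lit 0, nat_lit 0, nat_lit 0, nat_lit 0, nat_lit 0, nat_lit 0, nat_lit 0, nat_lit 0, nat_lit 0, nat_lit 40, nat_lit 743200, nat_lit 0, nat_lit 0, [(nat_lit 19, [(nat_lit 1, nat_lit 428), (nat_lit 2, nat_lit 572)]), (nat_lit 22, [(nat_lit 1, nat_lit 428), (nat_lit 2, nat_lit 572)])],
 ⟨p083_k6, nat_lit 0, nat_lit 0, nat_lit 511, nat_lit 0, nat_lit 830289, [nat_lit 1890038401, nat_lit 2113226667, nat_lit 100694400], [], [nat_lit 22350486486, nat_lit 21140108193, nat_lit 21169387066, nat_lit 22627908658, nat_lit 21499998631, nat_lit 23936299594, nat_lit 27224106536, nat_lit 25556371040], nat_lit 1271250, nat_lit 1271250, nat_lit 382400, nat_lit 1731000, nat_lit 1100001, nat_lit 1956250, [nat_lit 490000, nat_lit 1100000, nat_lit 2127500], [nat_lit 27, nat_lit 40, nat_lit 40, nat_lit 80, nat_lit 13, nat_lit 345, nat_lit 125, nat_lit 9]⟩, C1.Rw.none,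
 ⟨nat_lit 3162, nat_lit 4473, ⟨.ofNat (nat_lit 311562), .ofNat (nat_lit 611007), .ofNat (nat_lit 354514), .ofNat (nat_lit 653959), .ofNat (nat_lit 336623), .ofNat (nat_lit 605159), .ofNat (nat_lit 380752), .ofNat (nat_lit 649288)⟩, ⟨.ofNat (nat_lit 259488), .ofNat (nat_lit 429433), .ofNat (nat_lit 302621), .ofNat (nat_lit 472567), .ofNat (nat_lit 261805), .ofNat (nat_lit 414188), .ofNat (nat_lit 306116), .ofNat (nat_lit 458499)⟩⟩, [⟨nat_lit 4, nat_lit 100, nat_lit 71, nat_lit 71, nat_lit 760094617⟩]⟩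
noncomputable def p083_l50 : Lf2 := ⟨nat_lit 0, nat_lit 20, [nat_lit 5, nat_lit 5, nat_lit 5, nat_lit 20], false, nat_lit 0, nat_lit 260, nat_lit 0, nat_lit 160, ⟨nat_lit 1000, nat_lit 0, nat_lit 0, nat_lit 0, nat_lit 0, nat_lit 0, nat_lit 0, nat_lit 0, nat_lit 0, nat_lit 0, nat_lit 0, nat_lit 0, nat_lit 0, nat_lit 0, nat_lit 0, nat_lit 0, false, false⟩,
 nat_lit 0, nat_lit 8181, nat_lit 0, nat_lit 0, nat_lit 6135, nat_lit 6392, nat_lit 480, nat_lit 0, nat_lit 0, nat_lit 1100, nat_lit 0, nat_lit 0, nat_lit 0, nat_lit 0, nat_lit 0, nat_lit 0, nat_lit 0, nat_lit 0, [],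
 ⟨p083_k6, nat_lit 0, nat_lit 0, nat_lit 568, nat_lit 0, nat_lit 830289, [nat_lit 2032000001, nat_lit 4688000000, nat_lit 9842000000], [], [nat_lit 34163579440, nat_lit 35692227220, nat_lit 38699046871, nat_lit 40832686351, nat_lit 32255132220, nat_lit 33310842055, nat_lit 35302914599, nat_lit 35992268535], nat_lit 1271250, nat_lit 1271250, nat_lit 1271250, nat_lit 1271250, nat_lit 0, nat_lit 1836250, [nat_lit 490000, nat_lit 1100000, nat_lit 2127500], [nat_lit 27, nat_lit 40, nat_lit 40, nat_lit 80, nat_lit 13, nat_lit 401, nat_lit 175, nat_lit 11]⟩, ⟨p083_k4, nat_lit 0, nat_lit 0, nat_lit 278, nat_lit 0, nat_lit 0, [nat_lit 4688000000, nat_lit 7968000000, nat_lit 14058000000], [], [nat_lit 28954634672, nat_lit 30717706480, nat_lit 37719464647, nat_lit 38631890365, nat_lit 24760875024, nat_lit 26031774096, nat_lit 32022707604, nat_lit 33100785722], nat_lit 0, nat_lit 0, nat_lit 0, nat_lit 0, nat_lit 0, nat_lit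 0, [], [nat_lit 37, nat_lit 40, nat_lit 40, nat_lit 80, nat_lit 28, nat_lit 456, nat_lit 225, nat_lit 10]⟩,
 zbF0, [⟨nat_lit 4, nat_lit 100, nat_lit 71, nat_lit 71, nat_lit 248097436⟩]⟩
noncomputable def p083_l51 : Lf2 := ⟨nat_lit 0, nat_lit 20, [nat_lit 5, nat_lit 5, nat_lit 5, nat_lit 20], false, nat_lit 0, nat_lit 260, nat_lit 160, nat_lit 336, ⟨nat_lit 1000, nat_lit 0, nat_lit 0, nat_lit 0, nat_lit 0, nat_lit 0, nat_lit 0, nat_lit 0, nat_lit 0, nat_lit 0, nat_lit 0, nat_lit 0, nat_lit 0, nat_lit 0, nat_lit 0, nat_lit 0, false, false⟩,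
 nat_lit 0, nat_lit 7710, nat_lit 0, nat_lit 0, nat_lit 5782, nat_lit 5888, nat_lit 620, nat_lit 0, nat_lit 0, nat_lit 0, nat_lit 0, nat_lit 0, nat_lit 0, nat_lit 0, nat_lit 0, nat_lit 0, nat_lit 0, nat_lit 0, [],
 ⟨p083_k6, nat_lit 0, nat_lit 0, nat_lit 568, nat_lit 0, nat_lit 830289, [nat_lit 2032000001, nat_lit 4688000000, nat_lit 9842000000], [], [nat_lit 34044085308, nat_lit 35537705604, nat_lit 38510880824, nat_lit 39774960218, nat_lit 32485733604, nat_lit 33526963026, nat_lit 36124764519, nat_lit 37007537827], nat_lit 1271250, nat_lit 1271250, nat_lit 1271250, nat_lit 1271250, nat_lit 0, nat_lit 1836250, [nat_lit 490000, nat_lit 1100000, nat_lit 2127500], [nat_lit 27, nat_lit 40, nat_lit 40, nat_lit 80, nat_lit 13, nat_lit 401, nat_lit 175, nat_lit 11]⟩, ⟨p083_k4, nat_lit 0, nat_lit 0, nat_lit 94, nat_lit 0, nat_lit 0, [nat_lit 4688000000, nat_lit 7968000000, nat_lit 14058000000], [], [nat_lit 15403886112,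 nat_lit 18027990560, nat_lit 27297635386, nat_lit 28874676362, nat_lit 24432427610, nat_lit 26052452480, nat_lit 32829530561, nat_lit 33852971182], nat_lit 0, nat_lit 0, nat_lit 0, nat_lit 0, nat_lit 0, nat_lit 0, [], [nat_lit 37, nat_lit 40, nat_lit 40, nat_lit 80, nat_lit 28, nat_lit 538, nat_lit 300, nat_lit 12]⟩,
 zbF0, [⟨nat_lit 16, nat_lit 71, nat_lit 100, nat_lit 71, nat_lit 262254980⟩, ⟨nat_lit 7, nat_lit 92, nat_lit 100, nat_lit 75, nat_lit 531607221⟩]⟩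
noncomputable def p083_l52 : Lf2 := ⟨nat_lit 0, nat_lit 20, [nat_lit 5, nat_lit 5, nat_lit 5, nat_lit 20], false, nat_lit 0, nat_lit 260, nat_lit 0, nat_lit 336, ⟨nat_lit 0, nat_lit 1000, nat_lit 0, nat_lit 6, nat_lit 195, nat_lit 1000, nat_lit 89, nat_lit 0, nat_lit 0, nat_lit 0, nat_lit 0, nat_lit 0, nat_lit 0, nat_lit 0, nat_lit 0, nat_lit 5000000, false, false⟩,
 nat_lit 0, nat_lit 6404, nat_lit 0, nat_lit 0, nat_lit 4803, nat_lit 0, nat_lit 0, nat_lit 0, nat_lit 0, nat_lit 0, nat_lit 0, nat_lit 0, nat_lit 0, nat_lit 0, nat_lit 0, nat_lit 481000, nat_lit 0, nat_lit 0, [(nat_lit 19, [(nat_lit 1, nat_lit 865), (nat_lit 2, nat_lit 135)]), (nat_lit 22, [(nat_lit 1, nat_lit 865), (nat_lit 2, nat_lit 135)])],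
 ⟨p083_k2, nat_lit 0, nat_lit 0, nat_lit 485, nat_lit 0, nat_lit 496265, [nat_lit 1649717000, nat_lit 1774895001, nat_lit 1159052000], [], [nat_lit 29345910185, nat_lit 26575734290, nat_lit 25066066384, nat_lit 27722994820, nat_lit 23530009324, nat_lit 25898373202, nat_lit 28296197889, nat_lit 26460265498], nat_lit 1271250, nat_lit 1271250, nat_lit 382400, nat_lit 1731000, nat_lit 0, nat_lit 1836250, [nat_lit 490000, nat_lit 1427500, nat_lit 1271250], [nat_lit 61, nat_lit 40, nat_lit 40, nat_lit 80, nat_lit 1, nat_lit 345, nat_lit 125, nat_lit 10]⟩, ⟨p083_k11, nat_lit 0, nat_lit 0, nat_lit 775, nat_lit 0, nat_lit 771967, [nat_lit 0, nat_lit 0, nat_lit 0], [], [nat_lit 0, nat_lit 0, nat_lit 0, nat_lit 0, nat_lit 0, nat_lit 0, nat_lit 0, nat_lit 0], nat_lit 1271250, nat_lit 1271250, nat_lit 382400, nat_lit 1731000, nat_lit 0, nat_lit 2373000, [nat_lit 1100000, nat_lit 2127500, nat_lit 1271250], [nat_lit 56, nat_lit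 40, nat_lit 40, nat_lit 80, nat_lit 32, nat_lit 456, nat_lit 225, nat_lit 11]⟩,
 ⟨nat_lit 3162, nat_lit 4473, ⟨.ofNat (nat_lit 311562), .ofNat (nat_lit 611007), .ofNat (nat_lit 354514), .ofNat (nat_lit 653959), .ofNat (nat_lit 336623), .ofNat (nat_lit 605159), .ofNat (nat_lit 380752), .ofNat (nat_lit 649288)⟩, ⟨.negSucc (nat_lit 12437), .ofNat (nat_lit 429433), .ofNat (nat_lit 0), .ofNat (nat_lit 472567), .ofNat (nat_lit 0), .ofNat (nat_lit 414188), .ofNat (nat_lit 0), .ofNat (nat_lit 458499)⟩⟩, [⟨nat_lit 4, nat_lit 100, nat_lit 71, nat_lit 71, nat_lit 131175139⟩]⟩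
noncomputable def p083_l53 : Lf2 := ⟨nat_lit 0, nat_lit 20, [nat_lit 5, nat_lit 5, nat_lit 5, nat_lit 20], false, nat_lit 0, nat_lit 160, nat_lit 0, nat_lit 336, ⟨nat_lit 413, nat_lit 587, nat_lit 0, nat_lit 6, nat_lit 304, nat_lit 587, nat_lit 56, nat_lit 0, nat_lit 0, nat_lit 0, nat_lit 0, nat_lit 0, nat_lit 0, nat_lit 0, nat_lit 0, nat_lit 5000000, true, true⟩,
 nat_lit 6439, nat_lit 0, nat_lit 0, nat_lit 0, nat_lit 4828, nat_lit 3408, nat_lit 234, nat_lit 0, nat_lit 0, nat_lit 334, nat_lit 0, nat_lit 0, nat_lit 0, nat_lit 0, nat_lit 0, nat_lit 234800, nat_lit 0, nat_lit 0, [(nat_lit 19, [(nat_lit 1, nat_lit 587)])],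
 ⟨p083_k6, nat_lit 0, nat_lit 0, nat_lit 356, nat_lit 0, nat_lit 380375, [nat_lit 1659920267, nat_lit 3132215200, nat_lit 5140130000], [], [nat_lit 27925502866, nat_lit 28894426890, nat_lit 34687266730, nat_lit 35674358126, nat_lit 25964481778, nat_lit 26788091346, nat_lit 30998423494, nat_lit 31565863028], nat_lit 1271250, nat_lit 1271250, nat_lit 1271250, nat_lit 1271250, nat_lit 0, nat_lit 1100001, [nat_lit 490000, nat_lit 1100000, nat_lit 2127500], [nat_lit 27, nat_lit 40, nat_lit 40, nat_lit 80, nat_lit 13, nat_lit 373, nat_lit 150, nat_lit 10]⟩, ⟨p083_k4, nat_lit 0, nat_lit 0, nat_lit 589, nat_lit 0, nat_lit 591694, [nat_lit 1936144000, nat_lit 3290784000, nat_lit 5805954000], [], [nat_lit 15458506600, nat_lit 15813285008, nat_lit 17733988393, nat_lit 18105275753, nat_lit 13761811158, nat_lit 13866756620, nat_lit 15056321282, nat_lit 15117178290], nat_lit 1271250, nat_lit 1271250, nat_lit 1271250, nat_lit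 1271250, nat_lit 0, nat_lit 2373000, [nat_lit 1100000, nat_lit 1785000, nat_lit 1271250], [nat_lit 37, nat_lit 40, nat_lit 40, nat_lit 80, nat_lit 28, nat_lit 538, nat_lit 300, nat_lit 12]⟩,
 ⟨nat_lit 3872, nat_lit 4473, ⟨.ofNat (nat_lit 611083), .ofNat (nat_lit 876219), .ofNat (nat_lit 654181), .ofNat (nat_lit 919326), .ofNat (nat_lit 608080), .ofNat (nat_lit 859735), .ofNat (nat_lit 651631), .ofNat (nat_lit 903295)⟩, ⟨.negSucc (nat_lit 12427), .ofNat (nat_lit 259489), .ofNat (nat_lit 0), .ofNat (nat_lit 302621), .ofNat (nat_lit 0), .ofNat (nat_lit 261131), .ofNat (nat_lit 0), .ofNat (nat_lit 304717)⟩⟩, [⟨nat_lit 7, nat_lit 92, nat_lit 100, nat_lit 75, nat_lit 8779537⟩, ⟨nat_lit 10, nat_lit 100, nat_lit 47, nat_lit 81, nat_lit 71331772⟩]⟩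
noncomputable def p083_l54 : Lf2 := ⟨nat_lit 0, nat_lit 20, [nat_lit 5, nat_lit 5, nat_lit 5, nat_lit 20], false, nat_lit 0, nat_lit 160, nat_lit 0, nat_lit 336, ⟨nat_lit 316, nat_lit 684, nat_lit 0, nat_lit 6, nat_lit 298, nat_lit 684, nat_lit 57, nat_lit 0, nat_lit 0, nat_lit 0, nat_lit 0, nat_lit 0, nat_lit 0, nat_lit 0, nat_lit 0, nat_lit 5000000, true, true⟩,
 nat_lit 4958, nat_lit 0, nat_lit 0, nat_lit 0, nat_lit 4013, nat_lit 2624, nat_lit 193, nat_lit 0, nat_lit 0, nat_lit 233, nat_lit 0, nat_lit 0, nat_lit 0, nat_lit 0, nat_lit 0, nat_lit 273600, nat_lit 0, nat_lit 0, [(nat_lit 22, [(nat_lit 1, nat_lit 684)])],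
 ⟨p083_k3, nat_lit 0, nat_lit 0, nat_lit 367, nat_lit 0, nat_lit 452014, [nat_lit 1571257601, nat_lit 2544891200, nat_lit 3471931200], [], [nat_lit 26318678904, nat_lit 27178781120, nat_lit 32739215864, nat_lit 33911142439, nat_lit 25501906544, nat_lit 26235532356, nat_lit 29647113649, nat_lit 30190384885], nat_lit 1271250, nat_lit 1271250, nat_lit 1271250, nat_lit 1271250, nat_lit 0, nat_lit 1100001, [nat_lit 490000, nat_lit 1100000, nat_lit 1785000], [nat_lit 34, nat_lit 40, nat_lit 40, nat_lit 80, nat_lit 7, nat_lit 249, nat_lit 40, nat_lit 7]⟩, ⟨p083_k4, nat_lit 0, nat_lit 0, nat_lit 653, nat_lit 0, nat_lit 771967, [nat_lit 1481408000, nat_lit 2517888000, nat_lit 4442328000], [], [nat_lit 12688178004, nat_lit 12845915476, nat_lit 13658941854, nat_lit 13918076664, nat_lit 11094894760, nat_lit 11111590413, nat_lit 11694102643, nat_lit 11686178849], nat_lit 1271250, nat_lit 1271250, nat_lit 1271250, nat_lit 1271250,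 nat_lit 0, nat_lit 2373000, [nat_lit 1100000, nat_lit 1785000, nat_lit 1271250], [nat_lit 37, nat_lit 40, nat_lit 40, nat_lit 80, nat_lit 28, nat_lit 538, nat_lit 300, nat_lit 12]⟩,
 ⟨nat_lit 3162, nat_lit 3873, ⟨.ofNat (nat_lit 608082), .ofNat (nat_lit 846836), .ofNat (nat_lit 651611), .ofNat (nat_lit 890423), .ofNat (nat_lit 605237), .ofNat (nat_lit 830789), .ofNat (nat_lit 649490), .ofNat (nat_lit 875099)⟩, ⟨.ofNat (nat_lit 0), .ofNat (nat_lit 261131), .ofNat (nat_lit 0), .ofNat (nat_lit 304717), .ofNat (nat_lit 0), .ofNat (nat_lit 261806), .ofNat (nat_lit 0), .ofNat (nat_lit 306116)⟩⟩, [⟨nat_lit 13, nat_lit 69, nat_lit 54, nat_lit 100, nat_lit 30752427⟩, ⟨nat_lit 7, nat_lit 92, nat_lit 100, nat_lit 75, nat_lit 2675474⟩, ⟨nat_lit 10, nat_lit 100, nat_lit 47, nat_lit 81, nat_lit 64569596⟩]⟩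
noncomputable def p083_l55 : Lf2 := ⟨nat_lit 0, nat_lit 20, [nat_lit 5, nat_lit 5, nat_lit 5, nat_lit 20], false, nat_lit 160, nat_lit 260, nat_lit 0, nat_lit 336, ⟨nat_lit 398, nat_lit 602, nat_lit 0, nat_lit 6, nat_lit 302, nat_lit 602, nat_lit 145, nat_lit 0, nat_lit 0, nat_lit 0, nat_lit 0, nat_lit 0, nat_lit 0, nat_lit 0, nat_lit 0, nat_lit 5000000, true, true⟩,
 nat_lit 6307, nat_lit 0, nat_lit 0, nat_lit 0, nat_lit 4730, nat_lit 3338, nat_lit 240, nat_lit 0, nat_lit 0, nat_lit 313, nat_lit 0, nat_lit 0, nat_lit 0, nat_lit 0, nat_lit 0, nat_lit 240800, nat_lit 0, nat_lit 0, [(nat_lit 19, [(nat_lit 1, nat_lit 602)]), (nat_lit 22, [(nat_lit 1, nat_lit 602)])],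
 ⟨p083_k6, nat_lit 0, nat_lit 0, nat_lit 311, nat_lit 0, nat_lit 496265, [nat_lit 1650412267, nat_lit 3092459200, nat_lit 5019980000], [], [nat_lit 25973213880, nat_lit 27607211640, nat_lit 30977983112, nat_lit 32153681428, nat_lit 27609392170, nat_lit 28983664750, nat_lit 31787064453, nat_lit 33107362689], nat_lit 1271250, nat_lit 1271250, nat_lit 1271250, nat_lit 1271250, nat_lit 1100001, nat_lit 1956250, [nat_lit 490000, nat_lit 1100000, nat_lit 2127500], [nat_lit 27, nat_lit 40, nat_lit 40, nat_lit 80, nat_lit 13, nat_lit 401, nat_lit 175, nat_lit 10]⟩, ⟨p083_k4, nat_lit 0, nat_lit 0, nat_lit 653, nat_lit 0, nat_lit 771967, [nat_lit 1865824000, nat_lit 3171264000, nat_lit 5595084000], [], [nat_lit 15684830324, nat_lit 15882422836, nat_lit 17245295535, nat_lit 17602762441, nat_lit 13741183337, nat_lit 13854279772, nat_lit 14658236968, nat_lit 14638317816], nat_lit 1271250, nat_lit 1271250, nat_lit 1271250, nat_lit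 1271250, nat_lit 0, nat_lit 2373000, [nat_lit 1100000, nat_lit 1785000, nat_lit 1271250], [nat_lit 37, nat_lit 40, nat_lit 40, nat_lit 80, nat_lit 28, nat_lit 538, nat_lit 300, nat_lit 12]⟩,
 ⟨nat_lit 3162, nat_lit 4473, ⟨.ofNat (nat_lit 611007), .ofNat (nat_lit 876224), .ofNat (nat_lit 653959), .ofNat (nat_lit 919290), .ofNat (nat_lit 605159), .ofNat (nat_lit 842980), .ofNat (nat_lit 649288), .ofNat (nat_lit 887222)⟩, ⟨.ofNat (nat_lit 259488), .ofNat (nat_lit 429433), .ofNat (nat_lit 302621), .ofNat (nat_lit 472567), .ofNat (nat_lit 261805), .ofNat (nat_lit 414188), .ofNat (nat_lit 306116), .ofNat (nat_lit 458499)⟩⟩, [⟨nat_lit 13, nat_lit 75, nat_lit 48, nat_lit 100, nat_lit 41280003⟩, ⟨nat_lit 4, nat_lit 100, nat_lit 71, nat_lit 71, nat_lit 381702297⟩, ⟨nat_lit 19, nat_lit 100, nat_lit 92, nat_lit 75, nat_lit 41590242⟩]⟩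
noncomputable def b_V_800_600_10_23 : St := ⟨true, nat_lit 1, nat_lit 2, nat_lit 2, nat_lit 80, nat_lit 320, nat_lit 360, nat_lit 240, nat_lit 280, nat_lit 64, nat_lit 396, nat_lit 40, nat_lit 80, nat_lit 0, nat_lit 260, nat_lit 0, nat_lit 336, nat_lit 40, nat_lit 80, nat_lit 0, nat_lit 0, nat_lit 0, nat_lit 0⟩
theorem d_V_800_600_10_23 (h : EB TB.env) : Dead b_V_800_600_10_23 := chkB_sound0 h (T :=
(.st (nat_lit 1)
(.spl (nat_lit 2) (nat_lit 240)
(.spl (nat_lit 4) (nat_lit 160)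
(.spl (nat_lit 0) (nat_lit 340)
(.leaf p083_l47)
(.trZ (nat_lit 0) (nat_lit 100) (nat_lit 73) (nat_lit 85) (nat_lit 88) (.leaf p083_l48)))
(.leaf p083_l49))
(.spl (nat_lit 5) (nat_lit 160)
(.leaf p083_l50)
(.leaf p083_l51)))
(.spl (nat_lit 2) (nat_lit 240)
(.leaf p083_l52)
(.spl (nat_lit 4) (nat_lit 160)
(.spl (nat_lit 0) (nat_lit 340)
(.leaf p083_l53)
(.trX (nat_lit 13) (nat_lit 78) (nat_lit 39) (nat_lit 100) (nat_lit 388) (.leaf p083_l54)))
(.leaf p083_l55))))) (by decide +kernel)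
noncomputable def p083_l56 : Lf2 := ⟨nat_lit 0, nat_lit 20, [nat_lit 5, nat_lit 5, nat_lit 5, nat_lit 20], true, nat_lit 0, nat_lit 160, nat_lit 0, nat_lit 336, ⟨nat_lit 0, nat_lit 0, nat_lit 1000, nat_lit 6, nat_lit 168, nat_lit 649, nat_lit 56, nat_lit 1000, nat_lit 29400, nat_lit 257, nat_lit 19503, nat_lit 247, nat_lit 56985151, nat_lit 0, nat_lit 0, nat_lit 2108988, false, false⟩,
 nat_lit 0, nat_lit 0, nat_lit 0, nat_lit 4542, nat_lit 2856, nat_lit 0, nat_lit 27, nat_lit 0, nat_lit 0, nat_lit 0, nat_lit 0, nat_lit 0, nat_lit 0, nat_lit 0, nat_lit 129, nat_lit 400000, nat_lit 0, nat_lit 0, [(nat_lit 19, [(nat_lit 5, nat_lit 1000)])],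
 ⟨p083_k2, nat_lit 0, nat_lit 0, nat_lit 224, nat_lit 0, nat_lit 0, [nat_lit 2117400001, nat_lit 1311300000, nat_lit 268000000], [], [nat_lit 16650154531, nat_lit 17988217293, nat_lit 17462051781, nat_lit 18539763669, nat_lit 16795251487, nat_lit 17826932197, nat_lit 17718888997, nat_lit 18645539285], nat_lit 0, nat_lit 0, nat_lit 0, nat_lit 0, nat_lit 0, nat_lit 0, [], [nat_lit 61, nat_lit 40, nat_lit 40, nat_lit 80, nat_lit 1, nat_lit 317, nat_lit 100, nat_lit 9]⟩, C1.Rw.none,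
 ⟨nat_lit 3872, nat_lit 4473, ⟨.ofNat (nat_lit 311945), .ofNat (nat_lit 475111), .ofNat (nat_lit 355043), .ofNat (nat_lit 518209), .ofNat (nat_lit 324151), .ofNat (nat_lit 479021), .ofNat (nat_lit 367703), .ofNat (nat_lit 522572)⟩, ⟨.negSucc (nat_lit 12427), .ofNat (nat_lit 259489), .ofNat (nat_lit 0), .ofNat (nat_lit 302621), .ofNat (nat_lit 0), .ofNat (nat_lit 261131), .ofNat (nat_lit 0), .ofNat (nat_lit 304717)⟩⟩, [⟨nat_lit 0, nat_lit 99, nat_lit 77, nat_lit 100, nat_lit 31179586⟩]⟩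
noncomputable def p083_l57 : Lf2 := ⟨nat_lit 0, nat_lit 20, [nat_lit 5, nat_lit 5, nat_lit 5, nat_lit 20], true, nat_lit 0, nat_lit 160, nat_lit 0, nat_lit 336, ⟨nat_lit 0, nat_lit 159, nat_lit 841, nat_lit 6, nat_lit 179, nat_lit 724, nat_lit 57, nat_lit 841, nat_lit 30817, nat_lit 258, nat_lit 15897, nat_lit 244, nat_lit 55859975, nat_lit 11140025, nat_lit 0, nat_lit 2249601, false, false⟩,
 nat_lit 0, nat_lit 0, nat_lit 0, nat_lit 3053, nat_lit 3010, nat_lit 0, nat_lit 0, nat_lit 0, nat_lit 0, nat_lit 0, nat_lit 0, nat_lit 0, nat_lit 0, nat_lit 0, nat_lit 62, nat_lit 250000, nat_lit 0, nat_lit 0, [(nat_lit 22, [(nat_lit 0, nat_lit 159), (nat_lit 4, nat_lit 841)])],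
 ⟨p083_k3, nat_lit 0, nat_lit 0, nat_lit 179, nat_lit 0, nat_lit 0, [nat_lit 1999411201, nat_lit 958528800, nat_lit 39048267], [], [nat_lit 18401492628, nat_lit 19992980224, nat_lit 19272746188, nat_lit 20539205763, nat_lit 18399910779, nat_lit 19811092627, nat_lit 19568831463, nat_lit 20852925083], nat_lit 0, nat_lit 0, nat_lit 0, nat_lit 0, nat_lit 0, nat_lit 0, [], [nat_lit 34, nat_lit 40, nat_lit 40, nat_lit 80, nat_lit 7, nat_lit 317, nat_lit 100, nat_lit 10]⟩, C1.Rw.none,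
 ⟨nat_lit 3162, nat_lit 3873, ⟨.ofNat (nat_lit 362778), .ofNat (nat_lit 478975), .ofNat (nat_lit 406307), .ofNat (nat_lit 522504), .ofNat (nat_lit 373492), .ofNat (nat_lit 483267), .ofNat (nat_lit 417744), .ofNat (nat_lit 527519)⟩, ⟨.ofNat (nat_lit 0), .ofNat (nat_lit 261131), .ofNat (nat_lit 0), .ofNat (nat_lit 304717), .ofNat (nat_lit 0), .ofNat (nat_lit 261806), .ofNat (nat_lit 0), .ofNat (nat_lit 306116)⟩⟩, [⟨nat_lit 0, nat_lit 94, nat_lit 62, nat_lit 100, nat_lit 11542144⟩, ⟨nat_lit 3, nat_lit 100, nat_lit 75, nat_lit 35, nat_lit 2251997⟩]⟩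
noncomputable def p083_l58 : Lf2 := ⟨nat_lit 0, nat_lit 20, [nat_lit 5, nat_lit 5, nat_lit 5, nat_lit 20], true, nat_lit 160, nat_lit 260, nat_lit 0, nat_lit 336, ⟨nat_lit 0, nat_lit 0, nat_lit 1000, nat_lit 6, nat_lit 169, nat_lit 1000, nat_lit 145, nat_lit 1000, nat_lit 89743, nat_lit 288, nat_lit 15182, nat_lit 244, nat_lit 48921216, nat_lit 0, nat_lit 0, nat_lit 4114830, false, false⟩,
 nat_lit 0, nat_lit 0, nat_lit 0, nat_lit 5682, nat_lit 3790, nat_lit 0, nat_lit 0, nat_lit 0, nat_lit 0, nat_lit 0, nat_lit 0, nat_lit 0, nat_lit 0, nat_lit 0, nat_lit 81, nat_lit 250000, nat_lit 0, nat_lit 0, [(nat_lit 19, [(nat_lit 4, nat_lit 1000)]), (nat_lit 22, [(nat_lit 4, nat_lit 1000)])],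
 ⟨p083_k2, nat_lit 0, nat_lit 0, nat_lit 141, nat_lit 0, nat_lit 0, [nat_lit 2166400000, nat_lit 713200000, nat_lit 172800000], [], [nat_lit 17446587729, nat_lit 20069453048, nat_lit 17855151080, nat_lit 20192159040, nat_lit 20444453335, nat_lit 23242432594, nat_lit 20546823280, nat_lit 23225167240], nat_lit 0, nat_lit 0, nat_lit 0, nat_lit 0, nat_lit 0, nat_lit 0, [], [nat_lit 61, nat_lit 40, nat_lit 40, nat_lit 80, nat_lit 1, nat_lit 345, nat_lit 125, nat_lit 9]⟩, C1.Rw.none,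
 ⟨nat_lit 3162, nat_lit 4473, ⟨.ofNat (nat_lit 311562), .ofNat (nat_lit 474896), .ofNat (nat_lit 354514), .ofNat (nat_lit 517847), .ofNat (nat_lit 336623), .ofNat (nat_lit 483097), .ofNat (nat_lit 380752), .ofNat (nat_lit 527226)⟩, ⟨.ofNat (nat_lit 259488), .ofNat (nat_lit 429433), .ofNat (nat_lit 302621), .ofNat (nat_lit 472567), .ofNat (nat_lit 261805), .ofNat (nat_lit 414188), .ofNat (nat_lit 306116), .ofNat (nat_lit 458499)⟩⟩, [⟨nat_lit 0, nat_lit 100, nat_lit 75, nat_lit 92, nat_lit 55669757⟩, ⟨nat_lit 16, nat_lit 83, nat_lit 100, nat_lit 83, nat_lit 203946050⟩]⟩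
noncomputable def p083_l59 : Lf2 := ⟨nat_lit 0, nat_lit 20, [nat_lit 5, nat_lit 5, nat_lit 5, nat_lit 20], false, nat_lit 0, nat_lit 160, nat_lit 0, nat_lit 336, ⟨nat_lit 845, nat_lit 0, nat_lit 155, nat_lit 6, nat_lit 226, nat_lit 155, nat_lit 57, nat_lit 155, nat_lit 29400, nat_lit 257, nat_lit 36668, nat_lit 200, nat_lit 50773914, nat_lit 0, nat_lit 0, nat_lit 2767900, false, false⟩,
 nat_lit 0, nat_lit 0, nat_lit 0, nat_lit 5757, nat_lit 5526, nat_lit 16041, nat_lit 0, nat_lit 0, nat_lit 0, nat_lit 388, nat_lit 0, nat_lit 0, nat_lit 0, nat_lit 0, nat_lit 0, nat_lit 34310, nat_lit 0, nat_lit 0, [(nat_lit 19, [(nat_lit 3, nat_lit 74), (nat_lit 4, nat_lit 81)]), (nat_lit 22, [(nat_lit 3, nat_lit 74), (nat_lit 4, nat_lit 81)])],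
 ⟨p083_k2, nat_lit 0, nat_lit 0, nat_lit 198, nat_lit 0, nat_lit 0, [nat_lit 2951096001, nat_lit 5158130400, nat_lit 8028704400], [], [nat_lit 29969637176, nat_lit 33310720640, nat_lit 32222986928, nat_lit 35084966840, nat_lit 26828326553, nat_lit 29487562841, nat_lit 28733423673, nat_lit 31055565216], nat_lit 0, nat_lit 0, nat_lit 0, nat_lit 0, nat_lit 0, nat_lit 0, [], [nat_lit 61, nat_lit 40, nat_lit 40, nat_lit 80, nat_lit 1, nat_lit 317, nat_lit 100, nat_lit 9]⟩, ⟨p083_k11, nat_lit 0, nat_lit 0, nat_lit 264, nat_lit 0, nat_lit 0, [nat_lit 3961360000, nat_lit 8316490000, nat_lit 11879010000], [], [nat_lit 33676014520, nat_lit 37011016020, nat_lit 35479866776, nat_lit 38051981400, nat_lit 25121318604, nat_lit 26259236830, nat_lit 24330835858, nat_lit 27336217150], nat_lit 0, nat_lit 0, nat_lit 0, nat_lit 0, nat_lit 0, nat_lit 0, [], [nat_lit 56, nat_lit 40, nat_lit 40, nat_lit 80, nat_lit 32, nat_lit 456, nat_lit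 225, nat_lit 11]⟩,
 ⟨nat_lit 3162, nat_lit 4473, ⟨.ofNat (nat_lit 474896), .ofNat (nat_lit 611007), .ofNat (nat_lit 517847), .ofNat (nat_lit 653959), .ofNat (nat_lit 483097), .ofNat (nat_lit 605159), .ofNat (nat_lit 527226), .ofNat (nat_lit 649288)⟩, ⟨.negSucc (nat_lit 12437), .ofNat (nat_lit 259488), .ofNat (nat_lit 0), .ofNat (nat_lit 302621), .ofNat (nat_lit 0), .ofNat (nat_lit 261805), .ofNat (nat_lit 0), .ofNat (nat_lit 306116)⟩⟩, []⟩
noncomputable def p083_l60 : Lf2 := ⟨nat_lit 0, nat_lit 20, [nat_lit 5, nat_lit 5, nat_lit 5, nat_lit 20], true, nat_lit 160, nat_lit 260, nat_lit 0, nat_lit 336, ⟨nat_lit 0, nat_lit 1000, nat_lit 0, nat_lit 6, nat_lit 226, nat_lit 1000, nat_lit 145, nat_lit 0, nat_lit 0, nat_lit 0, nat_lit 0, nat_lit 0, nat_lit 44104778, nat_lit 15291924, nat_lit 7603298, nat_lit 4606458, false, false⟩,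
 nat_lit 0, nat_lit 0, nat_lit 0, nat_lit 4006, nat_lit 3328, nat_lit 0, nat_lit 0, nat_lit 0, nat_lit 0, nat_lit 0, nat_lit 0, nat_lit 0, nat_lit 0, nat_lit 0, nat_lit 0, nat_lit 250000, nat_lit 0, nat_lit 0, [(nat_lit 19, [(nat_lit 0, nat_lit 1000)]), (nat_lit 22, [(nat_lit 0, nat_lit 1000)])],
 ⟨p083_k2, nat_lit 0, nat_lit 0, nat_lit 54, nat_lit 0, nat_lit 0, [nat_lit 1568000001, nat_lit 2605200001, nat_lit 3236666667], [], [nat_lit 16500111297, nat_lit 19590151936, nat_lit 19312743937, nat_lit 22025970080, nat_lit 20280061209, nat_lit 22918973968, nat_lit 22551010945, nat_lit 24886841480], nat_lit 0, nat_lit 0, nat_lit 0, nat_lit 0, nat_lit 0, nat_lit 0, [], [nat_lit 61, nat_lit 40, nat_lit 40, nat_lit 80, nat_lit 1, nat_lit 345, nat_lit 125, nat_lit 9]⟩, C1.Rw.none,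
 ⟨nat_lit 3162, nat_lit 4473, ⟨.ofNat (nat_lit 474896), .ofNat (nat_lit 611007), .ofNat (nat_lit 517847), .ofNat (nat_lit 653959), .ofNat (nat_lit 483097), .ofNat (nat_lit 605159), .ofNat (nat_lit 527226), .ofNat (nat_lit 649288)⟩, ⟨.ofNat (nat_lit 259488), .ofNat (nat_lit 429433), .ofNat (nat_lit 302621), .ofNat (nat_lit 472567), .ofNat (nat_lit 261805), .ofNat (nat_lit 414188), .ofNat (nat_lit 306116), .ofNat (nat_lit 458499)⟩⟩, [⟨nat_lit 16, nat_lit 83, nat_lit 100, nat_lit 83, nat_lit 217017741⟩]⟩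
noncomputable def p083_l61 : Lf2 := ⟨nat_lit 0, nat_lit 20, [nat_lit 5, nat_lit 5, nat_lit 5, nat_lit 20], false, nat_lit 0, nat_lit 260, nat_lit 0, nat_lit 336, ⟨nat_lit 1000, nat_lit 0, nat_lit 0, nat_lit 0, nat_lit 0, nat_lit 0, nat_lit 0, nat_lit 0, nat_lit 0, nat_lit 0, nat_lit 0, nat_lit 0, nat_lit 0, nat_lit 0, nat_lit 0, nat_lit 0, false, false⟩,
 nat_lit 0, nat_lit 0, nat_lit 0, nat_lit 5988, nat_lit 7867, nat_lit 13119, nat_lit 118, nat_lit 0, nat_lit 0, nat_lit 258, nat_lit 0, nat_lit 0, nat_lit 0, nat_lit 0, nat_lit 0, nat_lit 0, nat_lit 0, nat_lit 0, [],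
 ⟨p083_k2, nat_lit 0, nat_lit 0, nat_lit 224, nat_lit 0, nat_lit 0, [nat_lit 2032000001, nat_lit 6250000000, nat_lit 9842000000], [], [nat_lit 34183569626, nat_lit 37296486730, nat_lit 43881861520, nat_lit 46028634390, nat_lit 30215693604, nat_lit 32077782635, nat_lit 36504540037, nat_lit 37981349927], nat_lit 0, nat_lit 0, nat_lit 0, nat_lit 0, nat_lit 0, nat_lit 0, [], [nat_lit 61, nat_lit 40, nat_lit 40, nat_lit 80, nat_lit 1, nat_lit 401, nat_lit 175, nat_lit 11]⟩, ⟨p083_k11, nat_lit 0, nat_lit 0, nat_lit 291, nat_lit 0, nat_lit 0, [nat_lit 4688000000, nat_lit 9842000000, nat_lit 14058000000], [], [nat_lit 40889620704, nat_lit 43336989860, nat_lit 54116222225, nat_lit 54984863551, nat_lit 33804349893, nat_lit 34669835099, nat_lit 41176413275, nat_lit 42261401275], nat_lit 0, nat_lit 0, nat_lit 0, nat_lit 0, nat_lit 0, nat_lit 0, [], [nat_lit 56, nat_lit 40, nat_lit 40, nat_lit 80, nat_lit 32, nat_lit 538, nat_lit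 300, nat_lit 12]⟩,
 zbF0, [⟨nat_lit 4, nat_lit 100, nat_lit 71, nat_lit 71, nat_lit 37211483⟩]⟩
noncomputable def b_V_800_600_10_24 : St := ⟨true, nat_lit 0, nat_lit 0, nat_lit 1, nat_lit 80, nat_lit 320, nat_lit 360, nat_lit 240, nat_lit 280, nat_lit 64, nat_lit 396, nat_lit 40, nat_lit 80, nat_lit 0, nat_lit 260, nat_lit 0, nat_lit 336, nat_lit 80, nat_lit 120, nat_lit 0, nat_lit 0, nat_lit 0, nat_lit 0⟩
theorem d_V_800_600_10_24 (h : EB TB.env) : Dead b_V_800_600_10_24 := chkB_sound0 h (T :=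
(.spl (nat_lit 2) (nat_lit 240)
(.spl (nat_lit 2) (nat_lit 160)
(.spl (nat_lit 4) (nat_lit 160)
(.spl (nat_lit 0) (nat_lit 340)
(.leaf p083_l56)
(.trZ (nat_lit 0) (nat_lit 100) (nat_lit 73) (nat_lit 85) (nat_lit 88) (.leaf p083_l57)))
(.leaf p083_l58))
(.spl (nat_lit 4) (nat_lit 160)
(.leaf p083_l59)
(.leaf p083_l60)))
(.leaf p083_l61))) (by decide +kernel)
noncomputable def p083_l62 : Lf2 := ⟨nat_lit 0, nat_lit 20, [nat_lit 5, nat_lit 5, nat_lit 5, nat_lit 20], true, nat_lit 0, nat_lit 160, nat_lit 0, nat_lit 336, ⟨nat_lit 0, nat_lit 0, nat_lit 1000, nat_lit 6, nat_lit 168, nat_lit 649, nat_lit 56, nat_lit 1000, nat_lit 29400, nat_lit 257, nat_lit 19503, nat_lit 247, nat_lit 56985151, nat_lit 0, nat_lit 0, nat_lit 2108988, false, false⟩,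
 nat_lit 0, nat_lit 0, nat_lit 0, nat_lit 4542, nat_lit 2856, nat_lit 0, nat_lit 27, nat_lit 0, nat_lit 0, nat_lit 0, nat_lit 0, nat_lit 0, nat_lit 0, nat_lit 0, nat_lit 129, nat_lit 400000, nat_lit 0, nat_lit 0, [(nat_lit 19, [(nat_lit 5, nat_lit 1000)])],
 ⟨p083_k2, nat_lit 0, nat_lit 0, nat_lit 224, nat_lit 0, nat_lit 0, [nat_lit 2117400001, nat_lit 1311300000, nat_lit 268000000], [], [nat_lit 16650154531, nat_lit 17988217293, nat_lit 17462051781, nat_lit 18539763669, nat_lit 16795251487, nat_lit 17826932197, nat_lit 17718888997, nat_lit 18645539285], nat_lit 0, nat_lit 0, nat_lit 0, nat_lit 0, nat_lit 0, nat_lit 0, [], [nat_lit 61, nat_lit 40, nat_lit 40, nat_lit 80, nat_lit 1, nat_lit 317, nat_lit 100, nat_lit 9]⟩, C1.Rw.none,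
 ⟨nat_lit 3872, nat_lit 4473, ⟨.ofNat (nat_lit 311945), .ofNat (nat_lit 475111), .ofNat (nat_lit 355043), .ofNat (nat_lit 518209), .ofNat (nat_lit 324151), .ofNat (nat_lit 479021), .ofNat (nat_lit 367703), .ofNat (nat_lit 522572)⟩, ⟨.negSucc (nat_lit 12427), .ofNat (nat_lit 259489), .ofNat (nat_lit 0), .ofNat (nat_lit 302621), .ofNat (nat_lit 0), .ofNat (nat_lit 261131), .ofNat (nat_lit 0), .ofNat (nat_lit 304717)⟩⟩, [⟨nat_lit 0, nat_lit 99, nat_lit 77, nat_lit 100, nat_lit 31179586⟩]⟩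
noncomputable def p083_l63 : Lf2 := ⟨nat_lit 0, nat_lit 20, [nat_lit 5, nat_lit 5, nat_lit 5, nat_lit 20], true, nat_lit 0, nat_lit 160, nat_lit 0, nat_lit 336, ⟨nat_lit 0, nat_lit 156, nat_lit 844, nat_lit 6, nat_lit 179, nat_lit 721, nat_lit 57, nat_lit 844, nat_lit 30817, nat_lit 258, nat_lit 15897, nat_lit 244, nat_lit 55859975, nat_lit 11140025, nat_lit 0, nat_lit 2249601, false, false⟩,
 nat_lit 0, nat_lit 0, nat_lit 0, nat_lit 3053, nat_lit 3010, nat_lit 0, nat_lit 0, nat_lit 0, nat_lit 0, nat_lit 0, nat_lit 0, nat_lit 0, nat_lit 0, nat_lit 0, nat_lit 62, nat_lit 250000, nat_lit 0, nat_lit 0, [(nat_lit 22, [(nat_lit 0, nat_lit 156), (nat_lit 4, nat_lit 844)])],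
 ⟨p083_k13, nat_lit 0, nat_lit 0, nat_lit 192, nat_lit 0, nat_lit 0, [nat_lit 1999180800, nat_lit 476020800, nat_lit 36030400], [], [nat_lit 18398244360, nat_lit 19992980224, nat_lit 19269497920, nat_lit 20538514560, nat_lit 18459906577, nat_lit 19810401424, nat_lit 19568140260, nat_lit 20852233880], nat_lit 0, nat_lit 0, nat_lit 0, nat_lit 0, nat_lit 0, nat_lit 0, [], [nat_lit 102, nat_lit 40, nat_lit 40, nat_lit 80, nat_lit 2, nat_lit 317, nat_lit 100, nat_lit 10]⟩, C1.Rw.none,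
 ⟨nat_lit 3162, nat_lit 3873, ⟨.ofNat (nat_lit 362778), .ofNat (nat_lit 478975), .ofNat (nat_lit 406307), .ofNat (nat_lit 522504), .ofNat (nat_lit 373492), .ofNat (nat_lit 483267), .ofNat (nat_lit 417744), .ofNat (nat_lit 527519)⟩, ⟨.ofNat (nat_lit 0), .ofNat (nat_lit 261131), .ofNat (nat_lit 0), .ofNat (nat_lit 304717), .ofNat (nat_lit 0), .ofNat (nat_lit 261806), .ofNat (nat_lit 0), .ofNat (nat_lit 306116)⟩⟩, [⟨nat_lit 0, nat_lit 94, nat_lit 62, nat_lit 100, nat_lit 11404471⟩, ⟨nat_lit 3, nat_lit 100, nat_lit 75, nat_lit 35, nat_lit 2247432⟩]⟩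
noncomputable def p083_l64 : Lf2 := ⟨nat_lit 0, nat_lit 20, [nat_lit 5, nat_lit 5, nat_lit 5, nat_lit 20], true, nat_lit 0, nat_lit 160, nat_lit 0, nat_lit 336, ⟨nat_lit 0, nat_lit 0, nat_lit 1000, nat_lit 6, nat_lit 219, nat_lit 755, nat_lit 56, nat_lit 1000, nat_lit 29400, nat_lit 257, nat_lit 3559, nat_lit 205, nat_lit 51494294, nat_lit 0, nat_lit 0, nat_lit 2704982, false, false⟩,
 nat_lit 0, nat_lit 0, nat_lit 0, nat_lit 5550, nat_lit 2470, nat_lit 0, nat_lit 1, nat_lit 0, nat_lit 0, nat_lit 0, nat_lit 0, nat_lit 0, nat_lit 0, nat_lit 0, nat_lit 129, nat_lit 400000, nat_lit 0, nat_lit 0, [(nat_lit 19, [(nat_lit 5, nat_lit 1000)])],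
 ⟨p083_k6, nat_lit 0, nat_lit 0, nat_lit 178, nat_lit 0, nat_lit 0, [nat_lit 1960800001, nat_lit 1629600001, nat_lit 268000000], [], [nat_lit 17549414886, nat_lit 18625203986, nat_lit 19673179446, nat_lit 20623760046, nat_lit 17971109566, nat_lit 18901785246, nat_lit 19872783966, nat_lit 20742977462], nat_lit 0, nat_lit 0, nat_lit 0, nat_lit 0, nat_lit 0, nat_lit 0, [], [nat_lit 27, nat_lit 40, nat_lit 40, nat_lit 80, nat_lit 13, nat_lit 317, nat_lit 100, nat_lit 9]⟩, C1.Rw.none,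
 ⟨nat_lit 3872, nat_lit 4473, ⟨.ofNat (nat_lit 475111), .ofNat (nat_lit 611083), .ofNat (nat_lit 485886), .ofNat (nat_lit 621858), .ofNat (nat_lit 479021), .ofNat (nat_lit 608080), .ofNat (nat_lit 489909), .ofNat (nat_lit 618968)⟩, ⟨.negSucc (nat_lit 12427), .ofNat (nat_lit 259489), .ofNat (nat_lit 0), .ofNat (nat_lit 302621), .ofNat (nat_lit 0), .ofNat (nat_lit 261131), .ofNat (nat_lit 0), .ofNat (nat_lit 304717)⟩⟩, []⟩
noncomputable def p083_l65 : Lf2 := ⟨nat_lit 0, nat_lit 20, [nat_lit 5, nat_lit 5, nat_lit 5, nat_lit 20], false, nat_lit 0, nat_lit 160, nat_lit 0, nat_lit 328, ⟨nat_lit 77, nat_lit 0, nat_lit 923, nat_lit 6, nat_lit 224, nat_lit 923, nat_lit 56, nat_lit 923, nat_lit 29400, nat_lit 257, nat_lit 6667, nat_lit 202, nat_lit 51023539, nat_lit 0, nat_lit 0, nat_lit 2746459, false, false⟩,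
 nat_lit 0, nat_lit 0, nat_lit 1164, nat_lit 3458, nat_lit 2571, nat_lit 646, nat_lit 91, nat_lit 0, nat_lit 0, nat_lit 78, nat_lit 0, nat_lit 0, nat_lit 0, nat_lit 0, nat_lit 93, nat_lit 369200, nat_lit 0, nat_lit 0, [(nat_lit 19, [(nat_lit 5, nat_lit 923)])],
 ⟨p083_k6, nat_lit 0, nat_lit 0, nat_lit 178, nat_lit 0, nat_lit 0, [nat_lit 1757746401, nat_lit 1448024801, nat_lit 275322000], [], [nat_lit 17702616544, nat_lit 18795002974, nat_lit 19829759352, nat_lit 20794461974, nat_lit 18021356268, nat_lit 18965216892, nat_lit 19923143788, nat_lit 20789884380], nat_lit 0, nat_lit 0, nat_lit 0, nat_lit 0, nat_lit 0, nat_lit 0, [], [nat_lit 27, nat_lit 40, nat_lit 40, nat_lit 80, nat_lit 13, nat_lit 317, nat_lit 100, nat_lit 9]⟩, ⟨p083_k17, nat_lit 0, nat_lit 0, nat_lit 471, nat_lit 0, nat_lit 370436, [nat_lit 360976000, nat_lit 613536000, nat_lit 1082466000], [], [nat_lit 3075571190, nat_lit 2904788816, nat_lit 2455192405,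 nat_lit 2480953034, nat_lit 3313578708, nat_lit 3165775588, nat_lit 2169721584, nat_lit 2188026136], nat_lit 1271250, nat_lit 1271250, nat_lit 1271250, nat_lit 1271250, nat_lit 0, nat_lit 2316500, [nat_lit 1100000, nat_lit 1785000, nat_lit 1271250], [nat_lit 37, nat_lit 40, nat_lit 40, nat_lit 80, nat_lit 28, nat_lit 456, nat_lit 225, nat_lit 10]⟩,
 ⟨nat_lit 3872, nat_lit 4473, ⟨.ofNat (nat_lit 485886), .ofNat (nat_lit 621858), .ofNat (nat_lit 496660), .ofNat (nat_lit 632632), .ofNat (nat_lit 489909), .ofNat (nat_lit 618968), .ofNat (nat_lit 500797), .ofNat (nat_lit 629856)⟩, ⟨.negSucc (nat_lit 12427), .ofNat (nat_lit 259489), .ofNat (nat_lit 0), .ofNat (nat_lit 302621), .ofNat (nat_lit 0), .ofNat (nat_lit 261131), .ofNat (nat_lit 0), .ofNat (nat_lit 304717)⟩⟩, [⟨nat_lit 7, nat_lit 90, nat_lit 100, nat_lit 74, nat_lit 5825034⟩, ⟨nat_lit 10, nat_lit 77, nat_lit 100, nat_lit 64, nat_lit 8807820⟩]⟩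
noncomputable def p083_l66 : Lf2 := ⟨nat_lit 1, nat_lit 20, [nat_lit 5, nat_lit 5, nat_lit 5, nat_lit 20], false, nat_lit 0, nat_lit 160, nat_lit 0, nat_lit 336, zbN0,
 nat_lit 0, nat_lit 0, nat_lit 0, nat_lit 0, nat_lit 0, nat_lit 0, nat_lit 0, nat_lit 0, nat_lit 0, nat_lit 0, nat_lit 0, nat_lit 0, nat_lit 0, nat_lit 0, nat_lit 0, nat_lit 0, nat_lit 0, nat_lit 0, [],
 C1.Rw.none, C1.Rw.none,
 zbF0, []⟩
noncomputable def p083_l67 : Lf2 := ⟨nat_lit 0, nat_lit 15, [nat_lit 30, nat_lit 5, nat_lit 5, nat_lit 20], false, nat_lit 0, nat_lit 160, nat_lit 0, nat_lit 296, ⟨nat_lit 262, nat_lit 0, nat_lit 738, nat_lit 6, nat_lit 230, nat_lit 738, nat_lit 54, nat_lit 738, nat_lit 26667, nat_lit 255, nat_lit 37112, nat_lit 200, nat_lit 50316713, nat_lit 0, nat_lit 0, nat_lit 2806192, false, false⟩,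
 nat_lit 0, nat_lit 0, nat_lit 3048, nat_lit 0, nat_lit 3520, nat_lit 1774, nat_lit 0, nat_lit 0, nat_lit 0, nat_lit 134, nat_lit 0, nat_lit 0, nat_lit 0, nat_lit 0, nat_lit 0, nat_lit 184500, nat_lit 0, nat_lit 0, [(nat_lit 19, [(nat_lit 4, nat_lit 738)])],
 ⟨p083_k8, nat_lit 0, nat_lit 0, nat_lit 149, nat_lit 0, nat_lit 0, [nat_lit 1652963200, nat_lit 1237997600, nat_lit 742224000], [], [nat_lit 20014365440, nat_lit 21438608400, nat_lit 22463862720, nat_lit 23712731520, nat_lit 19622558720, nat_lit 20780676960, nat_lit 21738497600, nat_lit 22752320560], nat_lit 0, nat_lit 0, nat_lit 0, nat_lit 0, nat_lit 0, nat_lit 0, [], [nat_lit 34, nat_lit 40, nat_lit 40, nat_lit 80, nat_lit 7, nat_lit 317, nat_lit 100, nat_lit 10]⟩, ⟨p083_k9, nat_lit 0, nat_lit 0, nat_lit 392, nat_lit 0, nat_lit 318842, [nat_lit 1228256000, nat_lit 2087616000, nat_lit 3110464000], [], [nat_lit 9955831848, nat_lit 10137977556, nat_lit 10227938396,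 nat_lit 10377304396, nat_lit 10228275357, nat_lit 9410833993, nat_lit 9382528610, nat_lit 9462833687], nat_lit 1271250, nat_lit 1271250, nat_lit 1271250, nat_lit 1271250, nat_lit 0, nat_lit 2090500, [nat_lit 1100000, nat_lit 1785000, nat_lit 1271250], [nat_lit 21, nat_lit 40, nat_lit 40, nat_lit 80, nat_lit 14, nat_lit 456, nat_lit 225, nat_lit 12]⟩,
 ⟨nat_lit 3872, nat_lit 4473, ⟨.ofNat (nat_lit 496660), .ofNat (nat_lit 632632), .ofNat (nat_lit 518209), .ofNat (nat_lit 654181), .ofNat (nat_lit 500797), .ofNat (nat_lit 629856), .ofNat (nat_lit 522572), .ofNat (nat_lit 651631)⟩, ⟨.negSucc (nat_lit 12427), .ofNat (nat_lit 259489), .ofNat (nat_lit 0), .ofNat (nat_lit 281055), .ofNat (nat_lit 0), .ofNat (nat_lit 261131), .ofNat (nat_lit 0), .ofNat (nat_lit 282924)⟩⟩, [⟨nat_lit 7, nat_lit 100, nat_lit 100, nat_lit 71, nat_lit 44476227⟩]⟩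
noncomputable def p083_l68 : Lf2 := ⟨nat_lit 0, nat_lit 20, [nat_lit 5, nat_lit 5, nat_lit 5, nat_lit 20], false, nat_lit 0, nat_lit 160, nat_lit 0, nat_lit 320, ⟨nat_lit 233, nat_lit 0, nat_lit 767, nat_lit 6, nat_lit 230, nat_lit 767, nat_lit 59, nat_lit 767, nat_lit 32267, nat_lit 259, nat_lit 37112, nat_lit 200, nat_lit 50316713, nat_lit 0, nat_lit 0, nat_lit 2806192, false, false⟩,
 nat_lit 0, nat_lit 0, nat_lit 2915, nat_lit 1307, nat_lit 2812, nat_lit 1696, nat_lit 244, nat_lit 0, nat_lit 0, nat_lit 0, nat_lit 0, nat_lit 0, nat_lit 0, nat_lit 0, nat_lit 20, nat_lit 306800, nat_lit 0, nat_lit 0, [(nat_lit 19, [(nat_lit 5, nat_lit 767)])],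
 ⟨p083_k6, nat_lit 0, nat_lit 0, nat_lit 178, nat_lit 0, nat_lit 0, [nat_lit 1345845601, nat_lit 1079119201, nat_lit 288338000], [], [nat_lit 18289230997, nat_lit 19421287596, nat_lit 20424434773, nat_lit 21451163308, nat_lit 18362305925, nat_lit 19337627653, nat_lit 20325826914, nat_lit 21378409258], nat_lit 0, nat_lit 0, nat_lit 0, nat_lit 0, nat_lit 0, nat_lit 0, [], [nat_lit 27, nat_lit 40, nat_lit 40, nat_lit 80, nat_lit 13, nat_lit 317, nat_lit 100, nat_lit 9]⟩, ⟨p083_k7, nat_lit 0, nat_lit 0, nat_lit 358, nat_lit 0, nat_lit 232329, [nat_lit 1092304000, nat_lit 1856544000, nat_lit 2766176000], [], [nat_lit 8905126228, nat_lit 9109879424, nat_lit 9273936916, nat_lit 9453060032, nat_lit 9638202524, nat_lit 8860125212, nat_lit 8852999060, nat_lit 8941410616], nat_lit 1271250, nat_lit 1271250, nat_lit 1271250, nat_lit 1271250, nat_lit 0, nat_lit 2260000, [nat_lit 1100000, nat_lit 1785000, nat_lit 1271250], [nat_lit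 21, nat_lit 40, nat_lit 40, nat_lit 80, nat_lit 14, nat_lit 456, nat_lit 225, nat_lit 12]⟩,
 ⟨nat_lit 3872, nat_lit 4473, ⟨.ofNat (nat_lit 496660), .ofNat (nat_lit 632632), .ofNat (nat_lit 518209), .ofNat (nat_lit 654181), .ofNat (nat_lit 500797), .ofNat (nat_lit 629856), .ofNat (nat_lit 522572), .ofNat (nat_lit 651631)⟩, ⟨.ofNat (nat_lit 0), .ofNat (nat_lit 281055), .ofNat (nat_lit 0), .ofNat (nat_lit 302621), .ofNat (nat_lit 0), .ofNat (nat_lit 282924), .ofNat (nat_lit 0), .ofNat (nat_lit 304717)⟩⟩, [⟨nat_lit 7, nat_lit 93, nat_lit 100, nat_lit 81, nat_lit 43631662⟩]⟩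
noncomputable def p083_l69 : Lf2 := ⟨nat_lit 1, nat_lit 20, [nat_lit 5, nat_lit 5, nat_lit 5, nat_lit 20], false, nat_lit 0, nat_lit 160, nat_lit 0, nat_lit 320, zbN0,
 nat_lit 0, nat_lit 0, nat_lit 0, nat_lit 0, nat_lit 0, nat_lit 0, nat_lit 0, nat_lit 0, nat_lit 0, nat_lit 0, nat_lit 0, nat_lit 0, nat_lit 0, nat_lit 0, nat_lit 0, nat_lit 0, nat_lit 0, nat_lit 0, [],
 C1.Rw.none, C1.Rw.none,
 zbF0, []⟩
noncomputable def p083_l70 : Lf2 := ⟨nat_lit 1, nat_lit 20, [nat_lit 5, nat_lit 5, nat_lit 5, nat_lit 20], false, nat_lit 0, nat_lit 160, nat_lit 0, nat_lit 336, zbN0,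
 nat_lit 0, nat_lit 0, nat_lit 0, nat_lit 0, nat_lit 0, nat_lit 0, nat_lit 0, nat_lit 0, nat_lit 0, nat_lit 0, nat_lit 0, nat_lit 0, nat_lit 0, nat_lit 0, nat_lit 0, nat_lit 0, nat_lit 0, nat_lit 0, [],
 C1.Rw.none, C1.Rw.none,
 zbF0, []⟩
noncomputable def p083_l71 : Lf2 := ⟨nat_lit 0, nat_lit 20, [nat_lit 5, nat_lit 5, nat_lit 5, nat_lit 20], false, nat_lit 0, nat_lit 160, nat_lit 0, nat_lit 336, ⟨nat_lit 88, nat_lit 108, nat_lit 804, nat_lit 6, nat_lit 222, nat_lit 912, nat_lit 57, nat_lit 804, nat_lit 30817, nat_lit 258, nat_lit 7340, nat_lit 203, nat_lit 51228223, nat_lit 15771777, nat_lit 0, nat_lit 2728593, false, false⟩,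
 nat_lit 0, nat_lit 0, nat_lit 1537, nat_lit 669, nat_lit 3090, nat_lit 813, nat_lit 0, nat_lit 0, nat_lit 0, nat_lit 70, nat_lit 0, nat_lit 0, nat_lit 0, nat_lit 0, nat_lit 35, nat_lit 228000, nat_lit 0, nat_lit 0, [(nat_lit 22, [(nat_lit 0, nat_lit 108), (nat_lit 4, nat_lit 804)])],
 ⟨p083_k3, nat_lit 0, nat_lit 0, nat_lit 160, nat_lit 0, nat_lit 0, [nat_lit 1827084800, nat_lit 853820801, nat_lit 30214400], [], [nat_lit 19918279680, nat_lit 21198867080, nat_lit 22133816040, nat_lit 23261863720, nat_lit 19759258620, nat_lit 20853280200, nat_lit 21951066200, nat_lit 23086879400], nat_lit 0, nat_lit 0, nat_lit 0, nat_lit 0, nat_lit 0, nat_lit 0, [], [nat_lit 34, nat_lit 40, nat_lit 40, nat_lit 80, nat_lit 7, nat_lit 317, nat_lit 100, nat_lit 10]⟩, ⟨p083_k4, nat_lit 0, nat_lit 0, nat_lit 735, nat_lit 0, nat_lit 807400, [nat_lit 412544000, nat_lit 701184000, nat_lit 1237104000], [], [nat_lit 3823970976, nat_lit 3394106982,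 nat_lit 3349403784, nat_lit 3382167890, nat_lit 4121116360, nat_lit 3750048852, nat_lit 2727963059, nat_lit 2742163575], nat_lit 1271250, nat_lit 1271250, nat_lit 1271250, nat_lit 1271250, nat_lit 0, nat_lit 2373000, [nat_lit 1100000, nat_lit 1785000, nat_lit 1271250], [nat_lit 37, nat_lit 40, nat_lit 40, nat_lit 80, nat_lit 28, nat_lit 456, nat_lit 225, nat_lit 11]⟩,
 ⟨nat_lit 3162, nat_lit 3873, ⟨.ofNat (nat_lit 478975), .ofNat (nat_lit 608082), .ofNat (nat_lit 500739), .ofNat (nat_lit 629847), .ofNat (nat_lit 483267), .ofNat (nat_lit 605237), .ofNat (nat_lit 505392), .ofNat (nat_lit 627364)⟩, ⟨.ofNat (nat_lit 0), .ofNat (nat_lit 261131), .ofNat (nat_lit 0), .ofNat (nat_lit 304717), .ofNat (nat_lit 0), .ofNat (nat_lit 261806), .ofNat (nat_lit 0), .ofNat (nat_lit 306116)⟩⟩, [⟨nat_lit 10, nat_lit 73, nat_lit 100, nat_lit 68, nat_lit 10470930⟩]⟩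
noncomputable def p083_l72 : Lf2 := ⟨nat_lit 0, nat_lit 20, [nat_lit 5, nat_lit 5, nat_lit 5, nat_lit 20], false, nat_lit 0, nat_lit 160, nat_lit 0, nat_lit 320, ⟨nat_lit 104, nat_lit 56, nat_lit 840, nat_lit 6, nat_lit 229, nat_lit 896, nat_lit 57, nat_lit 840, nat_lit 30817, nat_lit 258, nat_lit 10208, nat_lit 200, nat_lit 50512330, nat_lit 16487670, nat_lit 0, nat_lit 2789962, false, false⟩,
 nat_lit 0, nat_lit 0, nat_lit 1784, nat_lit 0, nat_lit 3048, nat_lit 1038, nat_lit 0, nat_lit 0, nat_lit 0, nat_lit 63, nat_lit 0, nat_lit 0, nat_lit 0, nat_lit 0, nat_lit 39, nat_lit 224000, nat_lit 0, nat_lit 0, [(nat_lit 22, [(nat_lit 0, nat_lit 56), (nat_lit 4, nat_lit 840)])],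
 ⟨p083_k3, nat_lit 0, nat_lit 0, nat_lit 160, nat_lit 0, nat_lit 0, [nat_lit 1863744000, nat_lit 875500801, nat_lit 31536000], [], [nat_lit 19847846256, nat_lit 21120551936, nat_lit 22061400048, nat_lit 23180412032, nat_lit 19731406224, nat_lit 20929065504, nat_lit 22044792560, nat_lit 23173916000], nat_lit 0, nat_lit 0, nat_lit 0, nat_lit 0, nat_lit 0, nat_lit 0, [], [nat_lit 34, nat_lit 40, nat_lit 40, nat_lit 80, nat_lit 7, nat_lit 317, nat_lit 100, nat_lit 10]⟩, ⟨p083_k7, nat_lit 0, nat_lit 0, nat_lit 643, nat_lit 0, nat_lit 770357, [nat_lit 487552000, nat_lit 828672000, nat_lit 1234688000], [], [nat_lit 4088021124, nat_lit 3813606102, nat_lit 3673638222, nat_lit 3705674512, nat_lit 4193435032, nat_lit 3955332364, nat_lit 2973177326, nat_lit 2984396184], nat_lit 1271250, nat_lit 1271250, nat_lit 1271250, nat_lit 1271250, nat_lit 0, nat_lit 2260000, [nat_lit 1100000, nat_lit 1785000, nat_lit 1271250], [nat_lit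 21, nat_lit 40, nat_lit 40, nat_lit 80, nat_lit 14, nat_lit 456, nat_lit 225, nat_lit 12]⟩,
 ⟨nat_lit 3162, nat_lit 3873, ⟨.ofNat (nat_lit 500739), .ofNat (nat_lit 629847), .ofNat (nat_lit 511622), .ofNat (nat_lit 640729), .ofNat (nat_lit 505392), .ofNat (nat_lit 627364), .ofNat (nat_lit 516456), .ofNat (nat_lit 638427)⟩, ⟨.ofNat (nat_lit 0), .ofNat (nat_lit 261131), .ofNat (nat_lit 0), .ofNat (nat_lit 304717), .ofNat (nat_lit 0), .ofNat (nat_lit 261806), .ofNat (nat_lit 0), .ofNat (nat_lit 306116)⟩⟩, [⟨nat_lit 7, nat_lit 95, nat_lit 100, nat_lit 76, nat_lit 6494147⟩, ⟨nat_lit 10, nat_lit 80, nat_lit 100, nat_lit 60, nat_lit 5020348⟩]⟩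
noncomputable def p083_l73 : Lf2 := ⟨nat_lit 0, nat_lit 20, [nat_lit 5, nat_lit 5, nat_lit 5, nat_lit 20], false, nat_lit 0, nat_lit 160, nat_lit 0, nat_lit 308, ⟨nat_lit 110, nat_lit 0, nat_lit 890, nat_lit 6, nat_lit 220, nat_lit 858, nat_lit 57, nat_lit 890, nat_lit 30817, nat_lit 258, nat_lit 17, nat_lit 216, nat_lit 51400005, nat_lit 0, nat_lit 0, nat_lit 2713399, false, false⟩,
 nat_lit 0, nat_lit 0, nat_lit 1631, nat_lit 0, nat_lit 3102, nat_lit 993, nat_lit 0, nat_lit 0, nat_lit 0, nat_lit 38, nat_lit 0, nat_lit 0, nat_lit 0, nat_lit 0, nat_lit 48, nat_lit 222500, nat_lit 0, nat_lit 0, [(nat_lit 22, [(nat_lit 4, nat_lit 890)])],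
 ⟨p083_k3, nat_lit 0, nat_lit 0, nat_lit 160, nat_lit 0, nat_lit 0, [nat_lit 1934688000, nat_lit 916644001, nat_lit 31877333], [], [nat_lit 19605949877, nat_lit 20888789197, nat_lit 20579728813, nat_lit 21791262752, nat_lit 19434762809, nat_lit 20530573133, nat_lit 20306728889, nat_lit 21338080237], nat_lit 0, nat_lit 0, nat_lit 0, nat_lit 0, nat_lit 0, nat_lit 0, [], [nat_lit 34, nat_lit 40, nat_lit 40, nat_lit 80, nat_lit 7, nat_lit 317, nat_lit 100, nat_lit 10]⟩, ⟨p083_k18, nat_lit 0, nat_lit 0, nat_lit 650, nat_lit 0, nat_lit 791597, [nat_lit 515680000, nat_lit 876480000, nat_lit 1305920000], [], [nat_lit 4359391967, nat_lit 4386126292, nat_lit 4343831509, nat_lit 4367539676, nat_lit 3769134600, nat_lit 3788519228, nat_lit 3976600315, nat_lit 3750880442], nat_lit 1271250, nat_lit 1271250, nat_lit 1100001, nat_lit 1442500, nat_lit 0, nat_lit 2175250, [nat_lit 1100000, nat_lit 1785000, nat_lit 1271250], [nat_lit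 21, nat_lit 40, nat_lit 40, nat_lit 80, nat_lit 14, nat_lit 428, nat_lit 200, nat_lit 11]⟩,
 ⟨nat_lit 3162, nat_lit 3873, ⟨.ofNat (nat_lit 511622), .ofNat (nat_lit 576176), .ofNat (nat_lit 522504), .ofNat (nat_lit 587058), .ofNat (nat_lit 516456), .ofNat (nat_lit 577441), .ofNat (nat_lit 527519), .ofNat (nat_lit 588504)⟩, ⟨.ofNat (nat_lit 0), .ofNat (nat_lit 261131), .ofNat (nat_lit 0), .ofNat (nat_lit 304717), .ofNat (nat_lit 0), .ofNat (nat_lit 261806), .ofNat (nat_lit 0), .ofNat (nat_lit 306116)⟩⟩, [⟨nat_lit 10, nat_lit 85, nat_lit 100, nat_lit 46, nat_lit 21879651⟩]⟩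
noncomputable def p083_l74 : Lf2 := ⟨nat_lit 0, nat_lit 20, [nat_lit 5, nat_lit 5, nat_lit 5, nat_lit 20], false, nat_lit 0, nat_lit 160, nat_lit 0, nat_lit 308, ⟨nat_lit 162, nat_lit 69, nat_lit 769, nat_lit 6, nat_lit 245, nat_lit 838, nat_lit 57, nat_lit 769, nat_lit 30817, nat_lit 258, nat_lit 31972, nat_lit 200, nat_lit 48670548, nat_lit 18329452, nat_lit 0, nat_lit 2933905, true, false⟩,
 nat_lit 0, nat_lit 0, nat_lit 2122, nat_lit 0, nat_lit 2903, nat_lit 1292, nat_lit 0, nat_lit 0, nat_lit 0, nat_lit 166, nat_lit 0, nat_lit 0, nat_lit 0, nat_lit 0, nat_lit 42, nat_lit 292900, nat_lit 0, nat_lit 0, [(nat_lit 22, [(nat_lit 0, nat_lit 69), (nat_lit 4, nat_lit 213), (nat_lit 5, nat_lit 556)])],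
 ⟨p083_k3, nat_lit 0, nat_lit 0, nat_lit 159, nat_lit 0, nat_lit 0, [nat_lit 1633657601, nat_lit 1031241600, nat_lit 32299467], [], [nat_lit 20566095288, nat_lit 21736121620, nat_lit 21796850096, nat_lit 22893416124, nat_lit 20497042902, nat_lit 21501534424, nat_lit 21584064072, nat_lit 22663884303], nat_lit 0, nat_lit 0, nat_lit 0, nat_lit 0, nat_lit 0, nat_lit 0, [], [nat_lit 34, nat_lit 40, nat_lit 40, nat_lit 80, nat_lit 7, nat_lit 317, nat_lit 100, nat_lit 10]⟩, ⟨p083_k18, nat_lit 0, nat_lit 0, nat_lit 621, nat_lit 0, nat_lit 791597, [nat_lit 759456000, nat_lit 1290816000, nat_lit 1923264000], [], [nat_lit 4685465442, nat_lit 4726907176, nat_lit 4768596306, nat_lit 4805231304, nat_lit 4677768589, nat_lit 4384082712, nat_lit 4167528812, nat_lit 4182695532], nat_lit 1271250, nat_lit 1271250, nat_lit 1271250, nat_lit 1271250, nat_lit 0, nat_lit 2175250, [nat_lit 1100000, nat_lit 1785000, nat_lit 1271250], [nat_lit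 21, nat_lit 40, nat_lit 40, nat_lit 80, nat_lit 14, nat_lit 456, nat_lit 225, nat_lit 11]⟩,
 ⟨nat_lit 3162, nat_lit 3873, ⟨.ofNat (nat_lit 576176), .ofNat (nat_lit 640729), .ofNat (nat_lit 587058), .ofNat (nat_lit 651611), .ofNat (nat_lit 577441), .ofNat (nat_lit 638427), .ofNat (nat_lit 588504), .ofNat (nat_lit 649490)⟩, ⟨.ofNat (nat_lit 0), .ofNat (nat_lit 261131), .ofNat (nat_lit 0), .ofNat (nat_lit 304717), .ofNat (nat_lit 0), .ofNat (nat_lit 261806), .ofNat (nat_lit 0), .ofNat (nat_lit 306116)⟩⟩, [⟨nat_lit 7, nat_lit 99, nat_lit 100, nat_lit 77, nat_lit 25113647⟩]⟩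
noncomputable def p083_l75 : Lf2 := ⟨nat_lit 0, nat_lit 20, [nat_lit 5, nat_lit 5, nat_lit 5, nat_lit 20], true, nat_lit 160, nat_lit 260, nat_lit 0, nat_lit 336, ⟨nat_lit 0, nat_lit 0, nat_lit 1000, nat_lit 6, nat_lit 169, nat_lit 1000, nat_lit 145, nat_lit 1000, nat_lit 89743, nat_lit 288, nat_lit 15182, nat_lit 244, nat_lit 48921216, nat_lit 0, nat_lit 0, nat_lit 4114830, false, false⟩,
 nat_lit 0, nat_lit 0, nat_lit 0, nat_lit 5682, nat_lit 3790, nat_lit 0, nat_lit 0, nat_lit 0, nat_lit 0, nat_lit 0, nat_lit 0, nat_lit 0, nat_lit 0, nat_lit 0, nat_lit 81, nat_lit 250000, nat_lit 0, nat_lit 0, [(nat_lit 19, [(nat_lit 4, nat_lit 1000)]), (nat_lit 22, [(nat_lit 4, nat_lit 1000)])],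
 ⟨p083_k2, nat_lit 0, nat_lit 0, nat_lit 141, nat_lit 0, nat_lit 0, [nat_lit 2166400000, nat_lit 713200000, nat_lit 172800000], [], [nat_lit 17446587729, nat_lit 20069453048, nat_lit 17855151080, nat_lit 20192159040, nat_lit 20444453335, nat_lit 23242432594, nat_lit 20546823280, nat_lit 23225167240], nat_lit 0, nat_lit 0, nat_lit 0, nat_lit 0, nat_lit 0, nat_lit 0, [], [nat_lit 61, nat_lit 40, nat_lit 40, nat_lit 80, nat_lit 1, nat_lit 345, nat_lit 125, nat_lit 9]⟩, C1.Rw.none,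
 ⟨nat_lit 3162, nat_lit 4473, ⟨.ofNat (nat_lit 311562), .ofNat (nat_lit 474896), .ofNat (nat_lit 354514), .ofNat (nat_lit 517847), .ofNat (nat_lit 336623), .ofNat (nat_lit 483097), .ofNat (nat_lit 380752), .ofNat (nat_lit 527226)⟩, ⟨.ofNat (nat_lit 259488), .ofNat (nat_lit 429433), .ofNat (nat_lit 302621), .ofNat (nat_lit 472567), .ofNat (nat_lit 261805), .ofNat (nat_lit 414188), .ofNat (nat_lit 306116), .ofNat (nat_lit 458499)⟩⟩, [⟨nat_lit 0, nat_lit 100, nat_lit 75, nat_lit 92, nat_lit 55669757⟩, ⟨nat_lit 16, nat_lit 83, nat_lit 100, nat_lit 83, nat_lit 203946050⟩]⟩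
noncomputable def p083_l76 : Lf2 := ⟨nat_lit 0, nat_lit 20, [nat_lit 5, nat_lit 5, nat_lit 5, nat_lit 20], true, nat_lit 160, nat_lit 260, nat_lit 0, nat_lit 336, ⟨nat_lit 0, nat_lit 1000, nat_lit 0, nat_lit 6, nat_lit 226, nat_lit 1000, nat_lit 145, nat_lit 0, nat_lit 0, nat_lit 0, nat_lit 0, nat_lit 0, nat_lit 44104778, nat_lit 15291924, nat_lit 7603298, nat_lit 4606458, false, false⟩,
 nat_lit 0, nat_lit 0, nat_lit 0, nat_lit 4006, nat_lit 3328, nat_lit 0, nat_lit 0, nat_lit 0, nat_lit 0, nat_lit 0, nat_lit 0, nat_lit 0, nat_lit 0, nat_lit 0, nat_lit 0, nat_lit 250000, nat_lit 0, nat_lit 0, [(nat_lit 19, [(nat_lit 0, nat_lit 1000)]), (nat_lit 22, [(nat_lit 0, nat_lit 1000)])],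
 ⟨p083_k6, nat_lit 0, nat_lit 0, nat_lit 45, nat_lit 0, nat_lit 0, [nat_lit 1568000001, nat_lit 2368400000, nat_lit 3220880000], [], [nat_lit 16500111297, nat_lit 19590151936, nat_lit 19312743937, nat_lit 22025970080, nat_lit 20280061209, nat_lit 22918973968, nat_lit 22551010945, nat_lit 24886841480], nat_lit 0, nat_lit 0, nat_lit 0, nat_lit 0, nat_lit 0, nat_lit 0, [], [nat_lit 27, nat_lit 40, nat_lit 40, nat_lit 80, nat_lit 13, nat_lit 345, nat_lit 125, nat_lit 9]⟩, C1.Rw.none,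
 ⟨nat_lit 3162, nat_lit 4473, ⟨.ofNat (nat_lit 474896), .ofNat (nat_lit 611007), .ofNat (nat_lit 517847), .ofNat (nat_lit 653959), .ofNat (nat_lit 483097), .ofNat (nat_lit 605159), .ofNat (nat_lit 527226), .ofNat (nat_lit 649288)⟩, ⟨.ofNat (nat_lit 259488), .ofNat (nat_lit 429433), .ofNat (nat_lit 302621), .ofNat (nat_lit 472567), .ofNat (nat_lit 261805), .ofNat (nat_lit 414188), .ofNat (nat_lit 306116), .ofNat (nat_lit 458499)⟩⟩, [⟨nat_lit 16, nat_lit 83, nat_lit 100, nat_lit 83, nat_lit 217017741⟩]⟩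
noncomputable def b_V_800_600_10_25 : St := ⟨true, nat_lit 0, nat_lit 1, nat_lit 1, nat_lit 80, nat_lit 320, nat_lit 360, nat_lit 240, nat_lit 280, nat_lit 64, nat_lit 240, nat_lit 40, nat_lit 80, nat_lit 0, nat_lit 260, nat_lit 0, nat_lit 336, nat_lit 80, nat_lit 120, nat_lit 0, nat_lit 0, nat_lit 0, nat_lit 0⟩
theorem d_V_800_600_10_25 (h : EB TB.env) : Dead b_V_800_600_10_25 := chkB_sound0 h (T :=
(.spl (nat_lit 4) (nat_lit 160)
(.spl (nat_lit 2) (nat_lit 160)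
(.spl (nat_lit 0) (nat_lit 340)
(.leaf p083_l62)
(.trZ (nat_lit 0) (nat_lit 100) (nat_lit 73) (nat_lit 85) (nat_lit 88) (.leaf p083_l63)))
(.spl (nat_lit 0) (nat_lit 340)
(.spl (nat_lit 6) (nat_lit 108)
(.spl (nat_lit 1) (nat_lit 260)
(.spl (nat_lit 6) (nat_lit 100)
(.spl (nat_lit 1) (nat_lit 250)
(.leaf p083_l64)
(.trX (nat_lit 19) (nat_lit 100) (nat_lit 81) (nat_lit 83) (nat_lit 328) (.leaf p083_l65)))
(.leaf p083_l66))
(.trX (nat_lit 19) (nat_lit 100) (nat_lit 85) (nat_lit 84) (nat_lit 320) (.spl (nat_lit 3) (nat_lit 60)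
(.trX (nat_lit 19) (nat_lit 100) (nat_lit 92) (nat_lit 75) (nat_lit 296) (.leaf p083_l67))
(.spl (nat_lit 6) (nat_lit 96)
(.leaf p083_l68)
(.leaf p083_l69)))))
(.leaf p083_l70))
(.spl (nat_lit 1) (nat_lit 260)
(.leaf p083_l71)
(.trX (nat_lit 19) (nat_lit 100) (nat_lit 85) (nat_lit 84) (nat_lit 320) (.spl (nat_lit 1) (nat_lit 270)
(.leaf p083_l72)
(.trX (nat_lit 19) (nat_lit 100) (nat_lit 90) (nat_lit 85) (nat_lit 308) (.spl (nat_lit 2) (nat_lit 200)
(.leaf p083_l73)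
(.leaf p083_l74))))))))
(.spl (nat_lit 2) (nat_lit 160)
(.leaf p083_l75)
(.leaf p083_l76)))) (by decide +kernel)
noncomputable def p083_l77 : Lf2 := ⟨nat_lit 0, nat_lit 15, [nat_lit 30, nat_lit 5, nat_lit 5, nat_lit 20], false, nat_lit 0, nat_lit 160, nat_lit 0, nat_lit 312, ⟨nat_lit 1000, nat_lit 0, nat_lit 0, nat_lit 0, nat_lit 0, nat_lit 0, nat_lit 0, nat_lit 0, nat_lit 0, nat_lit 0, nat_lit 0, nat_lit 0, nat_lit 0, nat_lit 0, nat_lit 0, nat_lit 0, false, false⟩,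
 nat_lit 0, nat_lit 0, nat_lit 18012, nat_lit 0, nat_lit 6503, nat_lit 9535, nat_lit 0, nat_lit 0, nat_lit 0, nat_lit 923, nat_lit 0, nat_lit 0, nat_lit 0, nat_lit 0, nat_lit 0, nat_lit 0, nat_lit 0, nat_lit 0, [],
 ⟨p083_k8, nat_lit 0, nat_lit 0, nat_lit 167, nat_lit 0, nat_lit 0, [nat_lit 2032000001, nat_lit 4688000000, nat_lit 7968000000], [], [nat_lit 30446234908, nat_lit 32180706278, nat_lit 35039390864, nat_lit 36440677920, nat_lit 26031523868, nat_lit 27492712444, nat_lit 29928394664, nat_lit 31120203790], nat_lit 0, nat_lit 0, nat_lit 0, nat_lit 0, nat_lit 0, nat_lit 0, [], [nat_lit 34, nat_lit 40, nat_lit 40, nat_lit 80, nat_lit 7, nat_lit 249, nat_lit 40, nat_lit 7]⟩, ⟨p083_k16, nat_lit 0, nat_lit 0, nat_lit 400, nat_lit 0, nat_lit 367107, [nat_lit 4688000000, nat_lit 7968000000, nat_lit 11872000000], [], [nat_lit 32476332920, nat_lit 33695725740, nat_lit 35327076820, nat_lit 36449989860, nat_lit 27676412860,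 nat_lit 27639190345, nat_lit 29319489930, nat_lit 30233446672], nat_lit 1271250, nat_lit 1271250, nat_lit 1271250, nat_lit 1271250, nat_lit 0, nat_lit 2203500, [nat_lit 1100000, nat_lit 1785000, nat_lit 1271250], [nat_lit 21, nat_lit 40, nat_lit 40, nat_lit 80, nat_lit 14, nat_lit 483, nat_lit 250, nat_lit 12]⟩,
 zbF0, [⟨nat_lit 7, nat_lit 96, nat_lit 100, nat_lit 69, nat_lit 125319542⟩]⟩
noncomputable def p083_l78 : Lf2 := ⟨nat_lit 0, nat_lit 20, [nat_lit 5, nat_lit 5, nat_lit 5, nat_lit 20], false, nat_lit 0, nat_lit 160, nat_lit 0, nat_lit 336, ⟨nat_lit 1000, nat_lit 0, nat_lit 0, nat_lit 0, nat_lit 0, nat_lit 0, nat_lit 0, nat_lit 0, nat_lit 0, nat_lit 0, nat_lit 0, nat_lit 0, nat_lit 0, nat_lit 0, nat_lit 0, nat_lit 0, false, false⟩,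
 nat_lit 0, nat_lit 0, nat_lit 16533, nat_lit 0, nat_lit 6260, nat_lit 8752, nat_lit 811, nat_lit 0, nat_lit 0, nat_lit 951, nat_lit 0, nat_lit 0, nat_lit 0, nat_lit 0, nat_lit 0, nat_lit 0, nat_lit 0, nat_lit 0, [],
 ⟨p083_k6, nat_lit 0, nat_lit 0, nat_lit 191, nat_lit 0, nat_lit 0, [nat_lit 2032000001, nat_lit 4688000000, nat_lit 9842000000], [], [nat_lit 26220455655, nat_lit 27755531215, nat_lit 31019081360, nat_lit 32889655680, nat_lit 21768373335, nat_lit 23068691935, nat_lit 25203422775, nat_lit 26701519760], nat_lit 0, nat_lit 0, nat_lit 0, nat_lit 0, nat_lit 0, nat_lit 0, [], [nat_lit 27, nat_lit 40, nat_lit 40, nat_lit 80, nat_lit 13, nat_lit 345, nat_lit 125, nat_lit 9]⟩, ⟨p083_k4, nat_lit 0, nat_lit 0, nat_lit 419, nat_lit 0, nat_lit 272013, [nat_lit 4688000000, nat_lit 7968000000, nat_lit 14058000000], [], [nat_lit 35162390136, nat_lit 35914127960, nat_lit 37030087800, nat_lit 37767243500, nat_lit 30698182484,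 nat_lit 30288253261, nat_lit 31594969729, nat_lit 32268835930], nat_lit 1271250, nat_lit 1271250, nat_lit 1271250, nat_lit 1271250, nat_lit 0, nat_lit 2373000, [nat_lit 1100000, nat_lit 1785000, nat_lit 1271250], [nat_lit 37, nat_lit 40, nat_lit 40, nat_lit 80, nat_lit 28, nat_lit 483, nat_lit 250, nat_lit 11]⟩,
 zbF0, [⟨nat_lit 7, nat_lit 89, nat_lit 100, nat_lit 80, nat_lit 132054073⟩]⟩
noncomputable def p083_l79 : Lf2 := ⟨nat_lit 1, nat_lit 20, [nat_lit 5, nat_lit 5, nat_lit 5, nat_lit 20], false, nat_lit 0, nat_lit 160, nat_lit 0, nat_lit 336, zbN0,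
 nat_lit 0, nat_lit 0, nat_lit 0, nat_lit 0, nat_lit 0, nat_lit 0, nat_lit 0, nat_lit 0, nat_lit 0, nat_lit 0, nat_lit 0, nat_lit 0, nat_lit 0, nat_lit 0, nat_lit 0, nat_lit 0, nat_lit 0, nat_lit 0, [],
 C1.Rw.none, C1.Rw.none,
 zbF0, []⟩
noncomputable def p083_l80 : Lf2 := ⟨nat_lit 0, nat_lit 15, [nat_lit 30, nat_lit 5, nat_lit 5, nat_lit 20], false, nat_lit 0, nat_lit 80, nat_lit 0, nat_lit 312, ⟨nat_lit 1000, nat_lit 0, nat_lit 0, nat_lit 0, nat_lit 0, nat_lit 0, nat_lit 0, nat_lit 0, nat_lit 0, nat_lit 0, nat_lit 0, nat_lit 0, nat_lit 0, nat_lit 0, nat_lit 0, nat_lit 0, false, false⟩,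
 nat_lit 0, nat_lit 0, nat_lit 18394, nat_lit 0, nat_lit 4264, nat_lit 9737, nat_lit 802, nat_lit 0, nat_lit 0, nat_lit 846, nat_lit 0, nat_lit 0, nat_lit 0, nat_lit 0, nat_lit 0, nat_lit 0, nat_lit 0, nat_lit 0, [],
 ⟨p083_k15, nat_lit 0, nat_lit 0, nat_lit 171, nat_lit 0, nat_lit 0, [nat_lit 2032000001, nat_lit 4688000000, nat_lit 7968000000], [], [nat_lit 24230828464, nat_lit 24915820744, nat_lit 28481753152, nat_lit 29234873376, nat_lit 21892335601, nat_lit 22503642073, nat_lit 25445670628, nat_lit 25997634764], nat_lit 0, nat_lit 0, nat_lit 0, nat_lit 0, nat_lit 0, nat_lit 0, [], [nat_lit 34, nat_lit 40, nat_lit 40, nat_lit 80, nat_lit 7, nat_lit 226, nat_lit 20, nat_lit 7]⟩, ⟨p083_k16, nat_lit 0, nat_lit 0, nat_lit 401, nat_lit 0, nat_lit 370735, [nat_lit 4688000000, nat_lit 7968000000, nat_lit 11872000000], [], [nat_lit 33361303744, nat_lit 33973894006, nat_lit 36231750724, nat_lit 36645466024, nat_lit 27388642852,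 nat_lit 27376780401, nat_lit 29709181026, nat_lit 30142783823], nat_lit 1271250, nat_lit 1271250, nat_lit 1271250, nat_lit 1271250, nat_lit 0, nat_lit 2203500, [nat_lit 1100000, nat_lit 1785000, nat_lit 1271250], [nat_lit 21, nat_lit 40, nat_lit 40, nat_lit 80, nat_lit 14, nat_lit 456, nat_lit 225, nat_lit 11]⟩,
 zbF0, [⟨nat_lit 7, nat_lit 92, nat_lit 100, nat_lit 68, nat_lit 92729527⟩, ⟨nat_lit 22, nat_lit 94, nat_lit 100, nat_lit 62, nat_lit 25318655⟩]⟩
noncomputable def p083_l81 : Lf2 := ⟨nat_lit 0, nat_lit 15, [nat_lit 30, nat_lit 5, nat_lit 5, nat_lit 20], false, nat_lit 0, nat_lit 80, nat_lit 0, nat_lit 312, ⟨nat_lit 258, nat_lit 742, nat_lit 0, nat_lit 6, nat_lit 272, nat_lit 742, nat_lit 30, nat_lit 0, nat_lit 0, nat_lit 0, nat_lit 0, nat_lit 0, nat_lit 45864411, nat_lit 21135589, nat_lit 0, nat_lit 3116985, true, true⟩,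
 nat_lit 0, nat_lit 0, nat_lit 4334, nat_lit 0, nat_lit 3768, nat_lit 2294, nat_lit 175, nat_lit 0, nat_lit 0, nat_lit 190, nat_lit 0, nat_lit 0, nat_lit 0, nat_lit 0, nat_lit 0, nat_lit 185500, nat_lit 0, nat_lit 0, [(nat_lit 22, [(nat_lit 0, nat_lit 742)])],
 ⟨p083_k19, nat_lit 0, nat_lit 0, nat_lit 155, nat_lit 0, nat_lit 0, [nat_lit 1687712001, nat_lit 2671837600, nat_lit 3341953600], [], [nat_lit 25299828646, nat_lit 25860450662, nat_lit 28301730725, nat_lit 28802107200, nat_lit 23993408878, nat_lit 24520693926, nat_lit 26839000902, nat_lit 27285324134], nat_lit 0, nat_lit 0, nat_lit 0, nat_lit 0, nat_lit 0, nat_lit 0, [], [nat_lit 6, nat_lit 40, nat_lit 40, nat_lit 80, nat_lit 3, nat_lit 226, nat_lit 20, nat_lit 8]⟩, ⟨p083_k16, nat_lit 0, nat_lit 0, nat_lit 514, nat_lit 0, nat_lit 567313, [nat_lit 1209504000, nat_lit 2055744000, nat_lit 3062976000], [], [nat_lit 9435019192, nat_lit 9530615512, nat_lit 9899449264,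 nat_lit 9962928360, nat_lit 7917944168, nat_lit 7946375515, nat_lit 8176587168, nat_lit 8205018515], nat_lit 1271250, nat_lit 1271250, nat_lit 1271250, nat_lit 1271250, nat_lit 0, nat_lit 2203500, [nat_lit 1100000, nat_lit 1785000, nat_lit 1271250], [nat_lit 21, nat_lit 40, nat_lit 40, nat_lit 80, nat_lit 14, nat_lit 456, nat_lit 225, nat_lit 11]⟩,
 ⟨nat_lit 3162, nat_lit 3536, ⟨.ofNat (nat_lit 606660), .ofNat (nat_lit 732188), .ofNat (nat_lit 628604), .ofNat (nat_lit 754141), .ofNat (nat_lit 605256), .ofNat (nat_lit 727168), .ofNat (nat_lit 627403), .ofNat (nat_lit 749323)⟩, ⟨.ofNat (nat_lit 0), .ofNat (nat_lit 136093), .ofNat (nat_lit 0), .ofNat (nat_lit 158046), .ofNat (nat_lit 0), .ofNat (nat_lit 139899), .ofNat (nat_lit 0), .ofNat (nat_lit 162054)⟩⟩, [⟨nat_lit 22, nat_lit 94, nat_lit 100, nat_lit 62, nat_lit 33035043⟩]⟩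
noncomputable def p083_l82 : Lf2 := ⟨nat_lit 1, nat_lit 15, [nat_lit 30, nat_lit 5, nat_lit 5, nat_lit 20], false, nat_lit 0, nat_lit 80, nat_lit 0, nat_lit 312, zbN0,
 nat_lit 0, nat_lit 0, nat_lit 0, nat_lit 0, nat_lit 0, nat_lit 0, nat_lit 0, nat_lit 0, nat_lit 0, nat_lit 0, nat_lit 0, nat_lit 0, nat_lit 0, nat_lit 0, nat_lit 0, nat_lit 0, nat_lit 0, nat_lit 0, [],
 C1.Rw.none, C1.Rw.none,
 zbF0, []⟩
noncomputable def p083_l83 : Lf2 := ⟨nat_lit 0, nat_lit 20, [nat_lit 5, nat_lit 5, nat_lit 5, nat_lit 20], false, nat_lit 0, nat_lit 80, nat_lit 0, nat_lit 160, ⟨nat_lit 1000, nat_lit 0, nat_lit 0, nat_lit 0, nat_lit 0, nat_lit 0, nat_lit 0, nat_lit 0, nat_lit 0, nat_lit 0, nat_lit 0, nat_lit 0, nat_lit 0, nat_lit 0, nat_lit 0, nat_lit 0, false, false⟩,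
 nat_lit 0, nat_lit 0, nat_lit 17261, nat_lit 0, nat_lit 4521, nat_lit 9138, nat_lit 780, nat_lit 0, nat_lit 0, nat_lit 1073, nat_lit 0, nat_lit 0, nat_lit 0, nat_lit 0, nat_lit 0, nat_lit 0, nat_lit 0, nat_lit 0, [],
 ⟨p083_k3, nat_lit 0, nat_lit 0, nat_lit 174, nat_lit 0, nat_lit 0, [nat_lit 2032000001, nat_lit 4688000000, nat_lit 7968000000], [], [nat_lit 24884286608, nat_lit 26087434640, nat_lit 29049303728, nat_lit 30602454900, nat_lit 22989884375, nat_lit 24055822829, nat_lit 26010999975, nat_lit 27036016777], nat_lit 0, nat_lit 0, nat_lit 0, nat_lit 0, nat_lit 0, nat_lit 0, [], [nat_lit 34, nat_lit 40, nat_lit 40, nat_lit 80, nat_lit 7, nat_lit 226, nat_lit 20, nat_lit 7]⟩, ⟨p083_k4, nat_lit 0, nat_lit 0, nat_lit 544, nat_lit 0, nat_lit 462756, [nat_lit 4688000000, nat_lit 7968000000, nat_lit 14058000000], [], [nat_lit 33128740988, nat_lit 33558162636, nat_lit 35617773256, nat_lit 36152846000, nat_lit 26567713560,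 nat_lit 27152249816, nat_lit 29221457352, nat_lit 29639151576], nat_lit 1271250, nat_lit 1271250, nat_lit 1271250, nat_lit 1271250, nat_lit 0, nat_lit 1100001, [nat_lit 1100000, nat_lit 1785000, nat_lit 1271250], [nat_lit 37, nat_lit 40, nat_lit 40, nat_lit 80, nat_lit 28, nat_lit 428, nat_lit 200, nat_lit 10]⟩,
 zbF0, []⟩
noncomputable def p083_l84 : Lf2 := ⟨nat_lit 0, nat_lit 20, [nat_lit 5, nat_lit 5, nat_lit 5, nat_lit 20], false, nat_lit 0, nat_lit 80, nat_lit 160, nat_lit 336, ⟨nat_lit 327, nat_lit 0, nat_lit 673, nat_lit 6, nat_lit 272, nat_lit 673, nat_lit 34, nat_lit 673, nat_lit 10417, nat_lit 240, nat_lit 246636, nat_lit 200, nat_lit 45798515, nat_lit 0, nat_lit 0, nat_lit 3120783, true, true⟩,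
 nat_lit 0, nat_lit 0, nat_lit 4419, nat_lit 0, nat_lit 3883, nat_lit 2339, nat_lit 0, nat_lit 0, nat_lit 0, nat_lit 313, nat_lit 0, nat_lit 0, nat_lit 0, nat_lit 0, nat_lit 0, nat_lit 175300, nat_lit 0, nat_lit 0, [(nat_lit 22, [(nat_lit 4, nat_lit 626), (nat_lit 5, nat_lit 47)])],
 ⟨p083_k3, nat_lit 0, nat_lit 0, nat_lit 174, nat_lit 0, nat_lit 0, [nat_lit 1643827201, nat_lit 1236912800, nat_lit 1022766400], [], [nat_lit 24144436558, nat_lit 25452398128, nat_lit 27640364944, nat_lit 29077060700, nat_lit 22329699103, nat_lit 23327127170, nat_lit 25424167972, nat_lit 26458625220], nat_lit 0, nat_lit 0, nat_lit 0, nat_lit 0, nat_lit 0, nat_lit 0, [], [nat_lit 34, nat_lit 40, nat_lit 40, nat_lit 80, nat_lit 7, nat_lit 226, nat_lit 20, nat_lit 7]⟩, ⟨p083_k4, nat_lit 0, nat_lit 0, nat_lit 386, nat_lit 0, nat_lit 462756, [nat_lit 1532976000, nat_lit 2605536000, nat_lit 4596966000], [], [nat_lit 9757846892, nat_lit 9862378288,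 nat_lit 10370350592, nat_lit 10499177896, nat_lit 10663519877, nat_lit 10757685506, nat_lit 11318136903, nat_lit 11432941518], nat_lit 1271250, nat_lit 1271250, nat_lit 1271250, nat_lit 1271250, nat_lit 1100001, nat_lit 2607000, [nat_lit 1100000, nat_lit 1785000, nat_lit 1271250], [nat_lit 37, nat_lit 40, nat_lit 40, nat_lit 80, nat_lit 28, nat_lit 483, nat_lit 250, nat_lit 10]⟩,
 ⟨nat_lit 3162, nat_lit 3873, ⟨.ofNat (nat_lit 608082), .ofNat (nat_lit 737150), .ofNat (nat_lit 629847), .ofNat (nat_lit 758943), .ofNat (nat_lit 605237), .ofNat (nat_lit 727168), .ofNat (nat_lit 627364), .ofNat (nat_lit 749323)⟩, ⟨.ofNat (nat_lit 0), .ofNat (nat_lit 153881), .ofNat (nat_lit 0), .ofNat (nat_lit 175674), .ofNat (nat_lit 0), .ofNat (nat_lit 162054), .ofNat (nat_lit 0), .ofNat (nat_lit 184209)⟩⟩, [⟨nat_lit 22, nat_lit 94, nat_lit 100, nat_lit 63, nat_lit 169105156⟩]⟩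
noncomputable def p083_l85 : Lf2 := ⟨nat_lit 1, nat_lit 20, [nat_lit 5, nat_lit 5, nat_lit 5, nat_lit 20], false, nat_lit 0, nat_lit 80, nat_lit 0, nat_lit 336, zbN0,
 nat_lit 0, nat_lit 0, nat_lit 0, nat_lit 0, nat_lit 0, nat_lit 0, nat_lit 0, nat_lit 0, nat_lit 0, nat_lit 0, nat_lit 0, nat_lit 0, nat_lit 0, nat_lit 0, nat_lit 0, nat_lit 0, nat_lit 0, nat_lit 0, [],
 C1.Rw.none, C1.Rw.none,
 zbF0, []⟩
noncomputable def p083_l86 : Lf2 := ⟨nat_lit 0, nat_lit 15, [nat_lit 30, nat_lit 5, nat_lit 5, nat_lit 20], false, nat_lit 0, nat_lit 80, nat_lit 0, nat_lit 296, ⟨nat_lit 1000, nat_lit 0, nat_lit 0, nat_lit 0, nat_lit 0, nat_lit 0, nat_lit 0, nat_lit 0, nat_lit 0, nat_lit 0, nat_lit 0, nat_lit 0, nat_lit 0, nat_lit 0, nat_lit 0, nat_lit 0, false, false⟩,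
 nat_lit 0, nat_lit 0, nat_lit 14846, nat_lit 0, nat_lit 4026, nat_lit 8641, nat_lit 775, nat_lit 0, nat_lit 0, nat_lit 864, nat_lit 0, nat_lit 0, nat_lit 0, nat_lit 0, nat_lit 0, nat_lit 0, nat_lit 0, nat_lit 0, [],
 ⟨p083_k15, nat_lit 0, nat_lit 0, nat_lit 171, nat_lit 0, nat_lit 0, [nat_lit 2032000001, nat_lit 4688000000, nat_lit 7968000000], [], [nat_lit 24367969076, nat_lit 25033589346, nat_lit 27956161568, nat_lit 28687560484, nat_lit 22407366901, nat_lit 23001984099, nat_lit 25888042861, nat_lit 26425703435], nat_lit 0, nat_lit 0, nat_lit 0, nat_lit 0, nat_lit 0, nat_lit 0, [], [nat_lit 34, nat_lit 40, nat_lit 40, nat_lit 80, nat_lit 7, nat_lit 226, nat_lit 20, nat_lit 7]⟩, ⟨p083_k9, nat_lit 0, nat_lit 0, nat_lit 439, nat_lit 0, nat_lit 479900, [nat_lit 4688000000, nat_lit 7968000000, nat_lit 11872000000], [], [nat_lit 32080666358, nat_lit 32677555324, nat_lit 34664433432, nat_lit 35081546332, nat_lit 26519172136,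 nat_lit 26798802443, nat_lit 28975203310, nat_lit 29446249030], nat_lit 1271250, nat_lit 1271250, nat_lit 1271250, nat_lit 1271250, nat_lit 0, nat_lit 2090500, [nat_lit 1100000, nat_lit 1785000, nat_lit 1271250], [nat_lit 21, nat_lit 40, nat_lit 40, nat_lit 80, nat_lit 14, nat_lit 456, nat_lit 225, nat_lit 11]⟩,
 zbF0, [⟨nat_lit 7, nat_lit 100, nat_lit 100, nat_lit 71, nat_lit 113140081⟩]⟩
noncomputable def p083_l87 : Lf2 := ⟨nat_lit 0, nat_lit 15, [nat_lit 30, nat_lit 5, nat_lit 5, nat_lit 20], false, nat_lit 0, nat_lit 80, nat_lit 0, nat_lit 296, ⟨nat_lit 300, nat_lit 700, nat_lit 0, nat_lit 6, nat_lit 280, nat_lit 700, nat_lit 30, nat_lit 0, nat_lit 0, nat_lit 0, nat_lit 0, nat_lit 0, nat_lit 44928747, nat_lit 22071253, nat_lit 0, nat_lit 3168840, true, true⟩,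
 nat_lit 0, nat_lit 0, nat_lit 3972, nat_lit 0, nat_lit 4233, nat_lit 2311, nat_lit 92, nat_lit 0, nat_lit 0, nat_lit 255, nat_lit 0, nat_lit 0, nat_lit 0, nat_lit 0, nat_lit 0, nat_lit 175000, nat_lit 0, nat_lit 0, [(nat_lit 22, [(nat_lit 0, nat_lit 700)])],
 ⟨p083_k19, nat_lit 0, nat_lit 0, nat_lit 155, nat_lit 0, nat_lit 0, [nat_lit 1707200001, nat_lit 2785960000, nat_lit 3506560000], [], [nat_lit 25979576040, nat_lit 26608284504, nat_lit 29308055828, nat_lit 29916493440, nat_lit 24185659313, nat_lit 24741698101, nat_lit 27201728481, nat_lit 27697394148], nat_lit 0, nat_lit 0, nat_lit 0, nat_lit 0, nat_lit 0, nat_lit 0, [], [nat_lit 6, nat_lit 40, nat_lit 40, nat_lit 80, nat_lit 3, nat_lit 226, nat_lit 20, nat_lit 8]⟩, ⟨p083_k9, nat_lit 0, nat_lit 0, nat_lit 541, nat_lit 0, nat_lit 643380, [nat_lit 1406400000, nat_lit 2390400000, nat_lit 3561600000], [], [nat_lit 10186585914, nat_lit 10299716262, nat_lit 10686684156,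 nat_lit 10763817174, nat_lit 8847907143, nat_lit 8941507422, nat_lit 9309504018, nat_lit 9385004368], nat_lit 1271250, nat_lit 1271250, nat_lit 1271250, nat_lit 1271250, nat_lit 0, nat_lit 2090500, [nat_lit 1100000, nat_lit 1785000, nat_lit 1271250], [nat_lit 21, nat_lit 40, nat_lit 40, nat_lit 80, nat_lit 14, nat_lit 456, nat_lit 225, nat_lit 11]⟩,
 ⟨nat_lit 3162, nat_lit 3536, ⟨.ofNat (nat_lit 628604), .ofNat (nat_lit 754141), .ofNat (nat_lit 650549), .ofNat (nat_lit 776092), .ofNat (nat_lit 627403), .ofNat (nat_lit 749323), .ofNat (nat_lit 649550), .ofNat (nat_lit 771477)⟩, ⟨.ofNat (nat_lit 0), .ofNat (nat_lit 136093), .ofNat (nat_lit 0), .ofNat (nat_lit 158046), .ofNat (nat_lit 0), .ofNat (nat_lit 139899), .ofNat (nat_lit 0), .ofNat (nat_lit 162054)⟩⟩, [⟨nat_lit 22, nat_lit 94, nat_lit 100, nat_lit 62, nat_lit 52665945⟩]⟩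
noncomputable def p083_l88 : Lf2 := ⟨nat_lit 0, nat_lit 20, [nat_lit 5, nat_lit 5, nat_lit 5, nat_lit 20], false, nat_lit 0, nat_lit 80, nat_lit 0, nat_lit 320, ⟨nat_lit 509, nat_lit 0, nat_lit 491, nat_lit 6, nat_lit 279, nat_lit 491, nat_lit 34, nat_lit 491, nat_lit 10417, nat_lit 240, nat_lit 268412, nat_lit 200, nat_lit 45099329, nat_lit 0, nat_lit 0, nat_lit 3159718, true, true⟩,
 nat_lit 0, nat_lit 0, nat_lit 7440, nat_lit 0, nat_lit 3904, nat_lit 4330, nat_lit 0, nat_lit 0, nat_lit 0, nat_lit 430, nat_lit 0, nat_lit 0, nat_lit 0, nat_lit 0, nat_lit 0, nat_lit 304400, nat_lit 0, nat_lit 0, [(nat_lit 22, [(nat_lit 5, nat_lit 311), (nat_lit 6, nat_lit 180)])],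
 ⟨p083_k3, nat_lit 0, nat_lit 0, nat_lit 174, nat_lit 0, nat_lit 0, [nat_lit 1474048000, nat_lit 1709377600, nat_lit 1350052000], [], [nat_lit 24507017392, nat_lit 25791847264, nat_lit 27965380560, nat_lit 29127269600, nat_lit 22914856176, nat_lit 23913259264, nat_lit 25748553136, nat_lit 26785376160], nat_lit 0, nat_lit 0, nat_lit 0, nat_lit 0, nat_lit 0, nat_lit 0, [], [nat_lit 34, nat_lit 40, nat_lit 40, nat_lit 80, nat_lit 7, nat_lit 226, nat_lit 20, nat_lit 7]⟩, ⟨p083_k7, nat_lit 0, nat_lit 0, nat_lit 437, nat_lit 0, nat_lit 474018, [nat_lit 2386192000, nat_lit 4055712000, nat_lit 6042848000], [], [nat_lit 16540355608, nat_lit 16684626509, nat_lit 17842875416, nat_lit 17949136466, nat_lit 14041998218, nat_lit 14104622259, nat_lit 15262871166, nat_lit 15369132216], nat_lit 1271250, nat_lit 1271250, nat_lit 1271250, nat_lit 1271250, nat_lit 0, nat_lit 2260000, [nat_lit 1100000, nat_lit 1785000, nat_lit 1271250],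 [nat_lit 21, nat_lit 40, nat_lit 40, nat_lit 80, nat_lit 14, nat_lit 483, nat_lit 250, nat_lit 12]⟩,
 ⟨nat_lit 3162, nat_lit 3873, ⟨.ofNat (nat_lit 629847), .ofNat (nat_lit 758943), .ofNat (nat_lit 640729), .ofNat (nat_lit 769831), .ofNat (nat_lit 627364), .ofNat (nat_lit 749323), .ofNat (nat_lit 638427), .ofNat (nat_lit 760392)⟩, ⟨.ofNat (nat_lit 0), .ofNat (nat_lit 153881), .ofNat (nat_lit 0), .ofNat (nat_lit 175674), .ofNat (nat_lit 0), .ofNat (nat_lit 162054), .ofNat (nat_lit 0), .ofNat (nat_lit 184209)⟩⟩, [⟨nat_lit 22, nat_lit 94, nat_lit 100, nat_lit 62, nat_lit 92924117⟩]⟩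
noncomputable def p083_l89 : Lf2 := ⟨nat_lit 0, nat_lit 20, [nat_lit 5, nat_lit 5, nat_lit 5, nat_lit 20], false, nat_lit 0, nat_lit 80, nat_lit 0, nat_lit 308, ⟨nat_lit 1000, nat_lit 0, nat_lit 0, nat_lit 0, nat_lit 0, nat_lit 0, nat_lit 0, nat_lit 0, nat_lit 0, nat_lit 0, nat_lit 0, nat_lit 0, nat_lit 0, nat_lit 0, nat_lit 0, nat_lit 0, false, false⟩,
 nat_lit 0, nat_lit 0, nat_lit 12981, nat_lit 0, nat_lit 4753, nat_lit 7905, nat_lit 727, nat_lit 0, nat_lit 0, nat_lit 847, nat_lit 0, nat_lit 0, nat_lit 0, nat_lit 0, nat_lit 0, nat_lit 0, nat_lit 0, nat_lit 0, [],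
 ⟨p083_k3, nat_lit 0, nat_lit 0, nat_lit 174, nat_lit 0, nat_lit 0, [nat_lit 2032000001, nat_lit 4688000000, nat_lit 7968000000], [], [nat_lit 25308062819, nat_lit 26541415395, nat_lit 29561645104, nat_lit 31157143700, nat_lit 23090216858, nat_lit 24199104323, nat_lit 26106301767, nat_lit 27298288004], nat_lit 0, nat_lit 0, nat_lit 0, nat_lit 0, nat_lit 0, nat_lit 0, [], [nat_lit 34, nat_lit 40, nat_lit 40, nat_lit 80, nat_lit 7, nat_lit 226, nat_lit 20, nat_lit 7]⟩, ⟨p083_k18, nat_lit 0, nat_lit 0, nat_lit 491, nat_lit 0, nat_lit 512641, [nat_lit 4688000000, nat_lit 7968000000, nat_lit 11872000000], [], [nat_lit 31141649320, nat_lit 31403151390, nat_lit 33651171570, nat_lit 34081549130, nat_lit 27213047633, nat_lit 27331841725, nat_lit 29579619875, nat_lit 29801838415], nat_lit 1271250, nat_lit 1271250, nat_lit 1271250, nat_lit 1271250, nat_lit 0, nat_lit 2175250, [nat_lit 1100000, nat_lit 1785000, nat_lit 1271250],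 [nat_lit 21, nat_lit 40, nat_lit 40, nat_lit 80, nat_lit 14, nat_lit 483, nat_lit 250, nat_lit 12]⟩,
 zbF0, [⟨nat_lit 19, nat_lit 100, nat_lit 96, nat_lit 82, nat_lit 124699349⟩, ⟨nat_lit 22, nat_lit 94, nat_lit 100, nat_lit 62, nat_lit 20669468⟩]⟩
noncomputable def p083_l90 : Lf2 := ⟨nat_lit 1, nat_lit 20, [nat_lit 5, nat_lit 5, nat_lit 5, nat_lit 20], false, nat_lit 0, nat_lit 80, nat_lit 0, nat_lit 320, zbN0,
 nat_lit 0, nat_lit 0, nat_lit 0, nat_lit 0, nat_lit 0, nat_lit 0, nat_lit 0, nat_lit 0, nat_lit 0, nat_lit 0, nat_lit 0, nat_lit 0, nat_lit 0, nat_lit 0, nat_lit 0, nat_lit 0, nat_lit 0, nat_lit 0, [],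
 C1.Rw.none, C1.Rw.none,
 zbF0, []⟩
noncomputable def p083_l91 : Lf2 := ⟨nat_lit 0, nat_lit 20, [nat_lit 5, nat_lit 5, nat_lit 5, nat_lit 20], true, nat_lit 80, nat_lit 160, nat_lit 0, nat_lit 336, ⟨nat_lit 0, nat_lit 1000, nat_lit 0, nat_lit 6, nat_lit 272, nat_lit 1000, nat_lit 88, nat_lit 0, nat_lit 0, nat_lit 0, nat_lit 0, nat_lit 0, nat_lit 43041117, nat_lit 20461277, nat_lit 3497606, nat_lit 4218318, true, true⟩,
 nat_lit 0, nat_lit 0, nat_lit 0, nat_lit 2937, nat_lit 4398, nat_lit 0, nat_lit 0, nat_lit 0, nat_lit 0, nat_lit 0, nat_lit 0, nat_lit 0, nat_lit 0, nat_lit 0, nat_lit 0, nat_lit 250000, nat_lit 0, nat_lit 0, [(nat_lit 22, [(nat_lit 0, nat_lit 1000)])],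
 ⟨p083_k13, nat_lit 0, nat_lit 0, nat_lit 99, nat_lit 0, nat_lit 0, [nat_lit 1568000001, nat_lit 2330800000, nat_lit 2712400000], [], [nat_lit 21861434520, nat_lit 23285975632, nat_lit 25642426588, nat_lit 26820090656, nat_lit 22226928456, nat_lit 23508504024, nat_lit 25639925020, nat_lit 26705293280], nat_lit 0, nat_lit 0, nat_lit 0, nat_lit 0, nat_lit 0, nat_lit 0, [], [nat_lit 102, nat_lit 40, nat_lit 40, nat_lit 80, nat_lit 2, nat_lit 249, nat_lit 40, nat_lit 7]⟩, C1.Rw.none,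
 ⟨nat_lit 3162, nat_lit 3873, ⟨.ofNat (nat_lit 608082), .ofNat (nat_lit 737150), .ofNat (nat_lit 629847), .ofNat (nat_lit 758943), .ofNat (nat_lit 605237), .ofNat (nat_lit 727168), .ofNat (nat_lit 627364), .ofNat (nat_lit 749323)⟩, ⟨.ofNat (nat_lit 132088), .ofNat (nat_lit 261131), .ofNat (nat_lit 175674), .ofNat (nat_lit 304717), .ofNat (nat_lit 139899), .ofNat (nat_lit 261806), .ofNat (nat_lit 184209), .ofNat (nat_lit 306116)⟩⟩, []⟩
noncomputable def p083_l92 : Lf2 := ⟨nat_lit 0, nat_lit 20, [nat_lit 5, nat_lit 5, nat_lit 5, nat_lit 20], false, nat_lit 80, nat_lit 160, nat_lit 0, nat_lit 320, ⟨nat_lit 73, nat_lit 927, nat_lit 0, nat_lit 6, nat_lit 281, nat_lit 927, nat_lit 88, nat_lit 0, nat_lit 0, nat_lit 0, nat_lit 0, nat_lit 0, nat_lit 42214392, nat_lit 21326490, nat_lit 3459118, nat_lit 4257308, true, true⟩,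
 nat_lit 0, nat_lit 0, nat_lit 1202, nat_lit 0, nat_lit 4608, nat_lit 699, nat_lit 0, nat_lit 0, nat_lit 0, nat_lit 33, nat_lit 0, nat_lit 0, nat_lit 0, nat_lit 0, nat_lit 0, nat_lit 231750, nat_lit 0, nat_lit 0, [(nat_lit 22, [(nat_lit 0, nat_lit 927)])],
 ⟨p083_k13, nat_lit 0, nat_lit 0, nat_lit 99, nat_lit 0, nat_lit 0, [nat_lit 1601872001, nat_lit 2616901600, nat_lit 3096058800], [], [nat_lit 22047311520, nat_lit 23507603872, nat_lit 25897848448, nat_lit 27102586144, nat_lit 22349476176, nat_lit 23661799104, nat_lit 25819869520, nat_lit 26908100480], nat_lit 0, nat_lit 0, nat_lit 0, nat_lit 0, nat_lit 0, nat_lit 0, [], [nat_lit 102, nat_lit 40, nat_lit 40, nat_lit 80, nat_lit 2, nat_lit 249, nat_lit 40, nat_lit 7]⟩, ⟨p083_k20, nat_lit 0, nat_lit 0, nat_lit 649, nat_lit 0, nat_lit 846383, [nat_lit 342224000, nat_lit 718466000, nat_lit 866656000], [], [nat_lit 2925991351, nat_lit 2936048073, nat_lit 2987728386,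 nat_lit 2994239324, nat_lit 2383169686, nat_lit 2381053648, nat_lit 2387704510, nat_lit 2393853618], nat_lit 1271250, nat_lit 1271250, nat_lit 1271250, nat_lit 1271250, nat_lit 0, nat_lit 2260000, [nat_lit 1100000, nat_lit 2127500, nat_lit 1271250], [nat_lit 125, nat_lit 40, nat_lit 40, nat_lit 80, nat_lit 41, nat_lit 483, nat_lit 250, nat_lit 12]⟩,
 ⟨nat_lit 3162, nat_lit 3873, ⟨.ofNat (nat_lit 629847), .ofNat (nat_lit 758943), .ofNat (nat_lit 651611), .ofNat (nat_lit 780717), .ofNat (nat_lit 627364), .ofNat (nat_lit 749323), .ofNat (nat_lit 649490), .ofNat (nat_lit 771459)⟩, ⟨.ofNat (nat_lit 132088), .ofNat (nat_lit 261131), .ofNat (nat_lit 175674), .ofNat (nat_lit 304717), .ofNat (nat_lit 139899), .ofNat (nat_lit 261806), .ofNat (nat_lit 184209), .ofNat (nat_lit 306116)⟩⟩, [⟨nat_lit 7, nat_lit 97, nat_lit 100, nat_lit 76, nat_lit 5427653⟩]⟩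
noncomputable def b_V_800_600_10_26 : St := ⟨true, nat_lit 0, nat_lit 1, nat_lit 1, nat_lit 80, nat_lit 320, nat_lit 360, nat_lit 240, nat_lit 280, nat_lit 240, nat_lit 320, nat_lit 40, nat_lit 80, nat_lit 0, nat_lit 160, nat_lit 0, nat_lit 336, nat_lit 80, nat_lit 120, nat_lit 0, nat_lit 0, nat_lit 0, nat_lit 0⟩
theorem d_V_800_600_10_26 (h : EB TB.env) : Dead b_V_800_600_10_26 := chkB_sound0 h (T :=
(.spl (nat_lit 0) (nat_lit 340)
(.spl (nat_lit 6) (nat_lit 108)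
(.spl (nat_lit 3) (nat_lit 60)
(.trX (nat_lit 19) (nat_lit 100) (nat_lit 85) (nat_lit 73) (nat_lit 312) (.leaf p083_l77))
(.leaf p083_l78))
(.leaf p083_l79))
(.spl (nat_lit 4) (nat_lit 80)
(.spl (nat_lit 1) (nat_lit 260)
(.spl (nat_lit 3) (nat_lit 60)
(.trX (nat_lit 19) (nat_lit 100) (nat_lit 85) (nat_lit 73) (nat_lit 312) (.spl (nat_lit 6) (nat_lit 112)
(.spl (nat_lit 0) (nat_lit 350)
(.leaf p083_l80)
(.leaf p083_l81))
(.leaf p083_l82)))
(.spl (nat_lit 6) (nat_lit 104)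
(.spl (nat_lit 5) (nat_lit 160)
(.leaf p083_l83)
(.leaf p083_l84))
(.leaf p083_l85)))
(.trX (nat_lit 19) (nat_lit 100) (nat_lit 85) (nat_lit 84) (nat_lit 320) (.spl (nat_lit 3) (nat_lit 60)
(.trX (nat_lit 19) (nat_lit 100) (nat_lit 92) (nat_lit 75) (nat_lit 296) (.spl (nat_lit 0) (nat_lit 350)
(.leaf p083_l86)
(.leaf p083_l87)))
(.spl (nat_lit 6) (nat_lit 112)
(.spl (nat_lit 1) (nat_lit 270)
(.leaf p083_l88)
(.trX (nat_lit 19) (nat_lit 100) (nat_lit 90) (nat_lit 85) (nat_lit 308) (.leaf p083_l89)))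
(.leaf p083_l90)))))
(.spl (nat_lit 1) (nat_lit 260)
(.leaf p083_l91)
(.trX (nat_lit 19) (nat_lit 100) (nat_lit 85) (nat_lit 84) (nat_lit 320) (.leaf p083_l92)))))) (by decide +kernel)
noncomputable def p083_l93 : Lf2 := ⟨nat_lit 0, nat_lit 15, [nat_lit 30, nat_lit 5, nat_lit 5, nat_lit 20], false, nat_lit 0, nat_lit 160, nat_lit 0, nat_lit 312, ⟨nat_lit 1000, nat_lit 0, nat_lit 0, nat_lit 0, nat_lit 0, nat_lit 0, nat_lit 0, nat_lit 0, nat_lit 0, nat_lit 0, nat_lit 0, nat_lit 0, nat_lit 0, nat_lit 0, nat_lit 0, nat_lit 0, false, false⟩,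
 nat_lit 0, nat_lit 0, nat_lit 15395, nat_lit 0, nat_lit 6663, nat_lit 8150, nat_lit 0, nat_lit 0, nat_lit 0, nat_lit 753, nat_lit 0, nat_lit 0, nat_lit 0, nat_lit 0, nat_lit 0, nat_lit 0, nat_lit 0, nat_lit 0, [],
 ⟨p083_k8, nat_lit 0, nat_lit 0, nat_lit 191, nat_lit 0, nat_lit 0, [nat_lit 2032000001, nat_lit 4688000000, nat_lit 7968000000], [], [nat_lit 35134476944, nat_lit 36555020320, nat_lit 40764245621, nat_lit 41858336066, nat_lit 30020249672, nat_lit 31039001428, nat_lit 34625223826, nat_lit 35567279740], nat_lit 0, nat_lit 0, nat_lit 0, nat_lit 0, nat_lit 0, nat_lit 0, [], [nat_lit 34, nat_lit 40, nat_lit 40, nat_lit 80, nat_lit 7, nat_lit 249, nat_lit 40, nat_lit 7]⟩, ⟨p083_k16, nat_lit 0, nat_lit 0, nat_lit 413, nat_lit 0, nat_lit 367107, [nat_lit 4688000000, nat_lit 7968000000, nat_lit 11872000000], [], [nat_lit 38424362800, nat_lit 39261632800, nat_lit 42155976940, nat_lit 42641226301, nat_lit 32749033021,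 nat_lit 33057776420, nat_lit 35266347075, nat_lit 35628898034], nat_lit 1271250, nat_lit 1271250, nat_lit 1271250, nat_lit 1271250, nat_lit 0, nat_lit 2203500, [nat_lit 1100000, nat_lit 1785000, nat_lit 1271250], [nat_lit 21, nat_lit 40, nat_lit 40, nat_lit 80, nat_lit 14, nat_lit 373, nat_lit 150, nat_lit 9]⟩,
 zbF0, [⟨nat_lit 7, nat_lit 96, nat_lit 100, nat_lit 69, nat_lit 47667165⟩, ⟨nat_lit 22, nat_lit 61, nat_lit 100, nat_lit 80, nat_lit 78383359⟩]⟩
noncomputable def p083_l94 : Lf2 := ⟨nat_lit 0, nat_lit 20, [nat_lit 5, nat_lit 5, nat_lit 5, nat_lit 20], false, nat_lit 0, nat_lit 160, nat_lit 0, nat_lit 336, ⟨nat_lit 1000, nat_lit 0, nat_lit 0, nat_lit 0, nat_lit 0, nat_lit 0, nat_lit 0, nat_lit 0, nat_lit 0, nat_lit 0, nat_lit 0, nat_lit 0, nat_lit 0, nat_lit 0, nat_lit 0, nat_lit 0, false, false⟩,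
 nat_lit 0, nat_lit 0, nat_lit 15250, nat_lit 0, nat_lit 6478, nat_lit 8073, nat_lit 410, nat_lit 0, nat_lit 0, nat_lit 862, nat_lit 0, nat_lit 0, nat_lit 0, nat_lit 0, nat_lit 0, nat_lit 0, nat_lit 0, nat_lit 0, [],
 ⟨p083_k6, nat_lit 0, nat_lit 0, nat_lit 211, nat_lit 0, nat_lit 0, [nat_lit 2032000001, nat_lit 4688000000, nat_lit 9842000000], [], [nat_lit 34405155938, nat_lit 35673357094, nat_lit 39448168231, nat_lit 40428041283, nat_lit 29258982410, nat_lit 30175555310, nat_lit 33404311341, nat_lit 34250672676], nat_lit 0, nat_lit 0, nat_lit 0, nat_lit 0, nat_lit 0, nat_lit 0, [], [nat_lit 27, nat_lit 40, nat_lit 40, nat_lit 80, nat_lit 13, nat_lit 249, nat_lit 40, nat_lit 6]⟩, ⟨p083_k4, nat_lit 0, nat_lit 0, nat_lit 425, nat_lit 0, nat_lit 272013, [nat_lit 4688000000, nat_lit 7968000000, nat_lit 14058000000], [], [nat_lit 39091752700, nat_lit 39585020016, nat_lit 42185097182, nat_lit 43085213437, nat_lit 33244215086,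 nat_lit 33561947431, nat_lit 36003378030, nat_lit 36395877756], nat_lit 1271250, nat_lit 1271250, nat_lit 1271250, nat_lit 1271250, nat_lit 0, nat_lit 2373000, [nat_lit 1100000, nat_lit 1785000, nat_lit 1271250], [nat_lit 37, nat_lit 40, nat_lit 40, nat_lit 80, nat_lit 28, nat_lit 538, nat_lit 300, nat_lit 12]⟩,
 zbF0, [⟨nat_lit 19, nat_lit 100, nat_lit 89, nat_lit 80, nat_lit 70285620⟩, ⟨nat_lit 22, nat_lit 61, nat_lit 100, nat_lit 80, nat_lit 68840630⟩]⟩
noncomputable def p083_l95 : Lf2 := ⟨nat_lit 1, nat_lit 20, [nat_lit 5, nat_lit 5, nat_lit 5, nat_lit 20], false, nat_lit 0, nat_lit 160, nat_lit 0, nat_lit 336, zbN0,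
 nat_lit 0, nat_lit 0, nat_lit 0, nat_lit 0, nat_lit 0, nat_lit 0, nat_lit 0, nat_lit 0, nat_lit 0, nat_lit 0, nat_lit 0, nat_lit 0, nat_lit 0, nat_lit 0, nat_lit 0, nat_lit 0, nat_lit 0, nat_lit 0, [],
 C1.Rw.none, C1.Rw.none,
 zbF0, []⟩
noncomputable def p083_l96 : Lf2 := ⟨nat_lit 0, nat_lit 15, [nat_lit 30, nat_lit 5, nat_lit 5, nat_lit 20], false, nat_lit 0, nat_lit 80, nat_lit 0, nat_lit 260, ⟨nat_lit 1000, nat_lit 0, nat_lit 0, nat_lit 0, nat_lit 0, nat_lit 0, nat_lit 0, nat_lit 0, nat_lit 0, nat_lit 0, nat_lit 0, nat_lit 0, nat_lit 0, nat_lit 0, nat_lit 0, nat_lit 0, false, false⟩,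
 nat_lit 0, nat_lit 0, nat_lit 16289, nat_lit 0, nat_lit 4728, nat_lit 8623, nat_lit 500, nat_lit 0, nat_lit 0, nat_lit 816, nat_lit 0, nat_lit 0, nat_lit 0, nat_lit 0, nat_lit 0, nat_lit 0, nat_lit 0, nat_lit 0, [],
 ⟨p083_k15, nat_lit 0, nat_lit 0, nat_lit 188, nat_lit 0, nat_lit 0, [nat_lit 2032000001, nat_lit 4688000000, nat_lit 7968000000], [], [nat_lit 31098165540, nat_lit 31608832828, nat_lit 34259092992, nat_lit 34755163192, nat_lit 28687918292, nat_lit 29171329636, nat_lit 31521836244, nat_lit 31932120548], nat_lit 0, nat_lit 0, nat_lit 0, nat_lit 0, nat_lit 0, nat_lit 0, [], [nat_lit 34, nat_lit 40, nat_lit 40, nat_lit 80, nat_lit 7, nat_lit 226, nat_lit 20, nat_lit 6]⟩, ⟨p083_k16, nat_lit 0, nat_lit 0, nat_lit 411, nat_lit 0, nat_lit 370735, [nat_lit 4688000000, nat_lit 7968000000, nat_lit 11872000000], [], [nat_lit 37300733996, nat_lit 37717902696, nat_lit 40272471146, nat_lit 40544433278, nat_lit 30169863473,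 nat_lit 30382628607, nat_lit 32530201691, nat_lit 32747464556], nat_lit 1271250, nat_lit 1271250, nat_lit 1271250, nat_lit 1271250, nat_lit 0, nat_lit 1836250, [nat_lit 1100000, nat_lit 1785000, nat_lit 1271250], [nat_lit 21, nat_lit 40, nat_lit 40, nat_lit 80, nat_lit 14, nat_lit 373, nat_lit 150, nat_lit 9]⟩,
 zbF0, [⟨nat_lit 22, nat_lit 68, nat_lit 100, nat_lit 61, nat_lit 50566544⟩]⟩
noncomputable def p083_l97 : Lf2 := ⟨nat_lit 0, nat_lit 15, [nat_lit 30, nat_lit 5, nat_lit 5, nat_lit 20], false, nat_lit 0, nat_lit 80, nat_lit 0, nat_lit 260, ⟨nat_lit 1000, nat_lit 0, nat_lit 0, nat_lit 0, nat_lit 0, nat_lit 0, nat_lit 0, nat_lit 0, nat_lit 0, nat_lit 0, nat_lit 0, nat_lit 0, nat_lit 0, nat_lit 0, nat_lit 0, nat_lit 0, false, false⟩,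
 nat_lit 0, nat_lit 0, nat_lit 16982, nat_lit 0, nat_lit 4819, nat_lit 8990, nat_lit 262, nat_lit 0, nat_lit 0, nat_lit 781, nat_lit 0, nat_lit 0, nat_lit 0, nat_lit 0, nat_lit 0, nat_lit 0, nat_lit 0, nat_lit 0, [],
 ⟨p083_k19, nat_lit 0, nat_lit 0, nat_lit 171, nat_lit 0, nat_lit 0, [nat_lit 2032000001, nat_lit 4688000000, nat_lit 6250000000], [], [nat_lit 31838087825, nat_lit 32393689090, nat_lit 34550799930, nat_lit 35056186123, nat_lit 29358452033, nat_lit 29883592914, nat_lit 31928645684, nat_lit 32383828449], nat_lit 0, nat_lit 0, nat_lit 0, nat_lit 0, nat_lit 0, nat_lit 0, [], [nat_lit 6, nat_lit 40, nat_lit 40, nat_lit 80, nat_lit 3, nat_lit 226, nat_lit 20, nat_lit 7]⟩, ⟨p083_k16, nat_lit 0, nat_lit 0, nat_lit 512, nat_lit 0, nat_lit 567313, [nat_lit 4688000000, nat_lit 7968000000, nat_lit 11872000000], [], [nat_lit 37587458920, nat_lit 37962665480, nat_lit 40138259829, nat_lit 40424252484, nat_lit 30403527340,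 nat_lit 30571986395, nat_lit 32162162254, nat_lit 32351136848], nat_lit 1271250, nat_lit 1271250, nat_lit 1271250, nat_lit 1271250, nat_lit 0, nat_lit 1836250, [nat_lit 1100000, nat_lit 1785000, nat_lit 1271250], [nat_lit 21, nat_lit 40, nat_lit 40, nat_lit 80, nat_lit 14, nat_lit 373, nat_lit 150, nat_lit 9]⟩,
 zbF0, [⟨nat_lit 22, nat_lit 69, nat_lit 100, nat_lit 61, nat_lit 43361928⟩]⟩
noncomputable def p083_l98 : Lf2 := ⟨nat_lit 1, nat_lit 15, [nat_lit 30, nat_lit 5, nat_lit 5, nat_lit 20], false, nat_lit 0, nat_lit 80, nat_lit 0, nat_lit 260, zbN0,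
 nat_lit 0, nat_lit 0, nat_lit 0, nat_lit 0, nat_lit 0, nat_lit 0, nat_lit 0, nat_lit 0, nat_lit 0, nat_lit 0, nat_lit 0, nat_lit 0, nat_lit 0, nat_lit 0, nat_lit 0, nat_lit 0, nat_lit 0, nat_lit 0, [],
 C1.Rw.none, C1.Rw.none,
 zbF0, []⟩
noncomputable def p083_l99 : Lf2 := ⟨nat_lit 0, nat_lit 20, [nat_lit 5, nat_lit 5, nat_lit 5, nat_lit 20], false, nat_lit 0, nat_lit 80, nat_lit 0, nat_lit 260, ⟨nat_lit 1000, nat_lit 0, nat_lit 0, nat_lit 0, nat_lit 0, nat_lit 0, nat_lit 0, nat_lit 0, nat_lit 0, nat_lit 0, nat_lit 0, nat_lit 0, nat_lit 0, nat_lit 0, nat_lit 0, nat_lit 0, false, false⟩,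
 nat_lit 0, nat_lit 0, nat_lit 16315, nat_lit 0, nat_lit 4515, nat_lit 8637, nat_lit 524, nat_lit 0, nat_lit 0, nat_lit 843, nat_lit 0, nat_lit 0, nat_lit 0, nat_lit 0, nat_lit 0, nat_lit 0, nat_lit 0, nat_lit 0, [],
 ⟨p083_k3, nat_lit 0, nat_lit 0, nat_lit 191, nat_lit 0, nat_lit 0, [nat_lit 2032000001, nat_lit 4688000000, nat_lit 7968000000], [], [nat_lit 30937398450, nat_lit 31938276080, nat_lit 33867564870, nat_lit 34796461460, nat_lit 28739007351, nat_lit 29634056981, nat_lit 31465099845, nat_lit 32271885010], nat_lit 0, nat_lit 0, nat_lit 0, nat_lit 0, nat_lit 0, nat_lit 0, [], [nat_lit 34, nat_lit 40, nat_lit 40, nat_lit 80, nat_lit 7, nat_lit 226, nat_lit 20, nat_lit 6]⟩, ⟨p083_k4, nat_lit 0, nat_lit 0, nat_lit 520, nat_lit 0, nat_lit 472655, [nat_lit 4688000000, nat_lit 7968000000, nat_lit 14058000000], [], [nat_lit 39235469300, nat_lit 39470341302, nat_lit 41788852968, nat_lit 42295915142, nat_lit 31562006499,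 nat_lit 31678713094, nat_lit 33548289877, nat_lit 33730263415], nat_lit 1271250, nat_lit 1271250, nat_lit 1271250, nat_lit 1271250, nat_lit 0, nat_lit 1836250, [nat_lit 1100000, nat_lit 1785000, nat_lit 1271250], [nat_lit 37, nat_lit 40, nat_lit 40, nat_lit 80, nat_lit 28, nat_lit 456, nat_lit 225, nat_lit 10]⟩,
 zbF0, [⟨nat_lit 22, nat_lit 68, nat_lit 100, nat_lit 61, nat_lit 25056730⟩]⟩
noncomputable def p083_l100 : Lf2 := ⟨nat_lit 0, nat_lit 15, [nat_lit 30, nat_lit 5, nat_lit 5, nat_lit 20], false, nat_lit 0, nat_lit 80, nat_lit 0, nat_lit 260, ⟨nat_lit 1000, nat_lit 0, nat_lit 0, nat_lit 0, nat_lit 0, nat_lit 0, nat_lit 0, nat_lit 0, nat_lit 0, nat_lit 0, nat_lit 0, nat_lit 0, nat_lit 0, nat_lit 0, nat_lit 0, nat_lit 0, false, false⟩,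
 nat_lit 0, nat_lit 0, nat_lit 12536, nat_lit 0, nat_lit 4596, nat_lit 7297, nat_lit 739, nat_lit 0, nat_lit 0, nat_lit 805, nat_lit 0, nat_lit 0, nat_lit 0, nat_lit 0, nat_lit 0, nat_lit 0, nat_lit 0, nat_lit 0, [],
 ⟨p083_k15, nat_lit 0, nat_lit 0, nat_lit 193, nat_lit 0, nat_lit 0, [nat_lit 2032000001, nat_lit 4688000000, nat_lit 7968000000], [], [nat_lit 29214931328, nat_lit 30781772400, nat_lit 34373663710, nat_lit 35620105496, nat_lit 26168765419, nat_lit 27125029798, nat_lit 30530642048, nat_lit 31734360981], nat_lit 0, nat_lit 0, nat_lit 0, nat_lit 0, nat_lit 0, nat_lit 0, [], [nat_lit 34, nat_lit 40, nat_lit 40, nat_lit 80, nat_lit 7, nat_lit 226, nat_lit 20, nat_lit 6]⟩, ⟨p083_k9, nat_lit 0, nat_lit 0, nat_lit 536, nat_lit 0, nat_lit 643380, [nat_lit 4688000000, nat_lit 7968000000, nat_lit 11872000000], [], [nat_lit 37206735412, nat_lit 37471225298, nat_lit 39449356785, nat_lit 39704301448, nat_lit 31973805894,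 nat_lit 32180536060, nat_lit 34094112110, nat_lit 34293424833], nat_lit 1271250, nat_lit 1271250, nat_lit 1271250, nat_lit 1271250, nat_lit 0, nat_lit 1836250, [nat_lit 1100000, nat_lit 1785000, nat_lit 1271250], [nat_lit 21, nat_lit 40, nat_lit 40, nat_lit 80, nat_lit 14, nat_lit 373, nat_lit 150, nat_lit 9]⟩,
 zbF0, [⟨nat_lit 22, nat_lit 66, nat_lit 100, nat_lit 62, nat_lit 163402081⟩]⟩
noncomputable def p083_l101 : Lf2 := ⟨nat_lit 0, nat_lit 20, [nat_lit 5, nat_lit 5, nat_lit 5, nat_lit 20], false, nat_lit 0, nat_lit 80, nat_lit 0, nat_lit 260, ⟨nat_lit 1000, nat_lit 0, nat_lit 0, nat_lit 0, nat_lit 0, nat_lit 0, nat_lit 0, nat_lit 0, nat_lit 0, nat_lit 0, nat_lit 0, nat_lit 0, nat_lit 0, nat_lit 0, nat_lit 0, nat_lit 0, false, false⟩,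
 nat_lit 0, nat_lit 0, nat_lit 13344, nat_lit 0, nat_lit 4515, nat_lit 7767, nat_lit 635, nat_lit 0, nat_lit 0, nat_lit 802, nat_lit 0, nat_lit 0, nat_lit 0, nat_lit 0, nat_lit 0, nat_lit 0, nat_lit 0, nat_lit 0, [],
 ⟨p083_k3, nat_lit 0, nat_lit 0, nat_lit 193, nat_lit 0, nat_lit 0, [nat_lit 2032000001, nat_lit 4688000000, nat_lit 7968000000], [], [nat_lit 29690382825, nat_lit 30691260455, nat_lit 34146579189, nat_lit 35382668090, nat_lit 27491991726, nat_lit 28387041356, nat_lit 30609082811, nat_lit 31583233222], nat_lit 0, nat_lit 0, nat_lit 0, nat_lit 0, nat_lit 0, nat_lit 0, [], [nat_lit 34, nat_lit 40, nat_lit 40, nat_lit 80, nat_lit 7, nat_lit 226, nat_lit 20, nat_lit 6]⟩, ⟨p083_k7, nat_lit 0, nat_lit 0, nat_lit 505, nat_lit 0, nat_lit 553768, [nat_lit 4688000000, nat_lit 7968000000, nat_lit 11872000000], [], [nat_lit 36351515782, nat_lit 36610606384, nat_lit 39322211994, nat_lit 39919256460, nat_lit 30526054204,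 nat_lit 30722159785, nat_lit 32689898959, nat_lit 32878091153], nat_lit 1271250, nat_lit 1271250, nat_lit 1271250, nat_lit 1271250, nat_lit 0, nat_lit 1836250, [nat_lit 1100000, nat_lit 1785000, nat_lit 1271250], [nat_lit 21, nat_lit 40, nat_lit 40, nat_lit 80, nat_lit 14, nat_lit 373, nat_lit 150, nat_lit 9]⟩,
 zbF0, [⟨nat_lit 22, nat_lit 66, nat_lit 100, nat_lit 62, nat_lit 86640215⟩]⟩
noncomputable def p083_l102 : Lf2 := ⟨nat_lit 0, nat_lit 15, [nat_lit 30, nat_lit 5, nat_lit 5, nat_lit 20], false, nat_lit 80, nat_lit 160, nat_lit 0, nat_lit 312, ⟨nat_lit 1000, nat_lit 0, nat_lit 0, nat_lit 0, nat_lit 0, nat_lit 0, nat_lit 0, nat_lit 0, nat_lit 0, nat_lit 0, nat_lit 0, nat_lit 0, nat_lit 0, nat_lit 0, nat_lit 0, nat_lit 0, false, false⟩,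
 nat_lit 0, nat_lit 0, nat_lit 15732, nat_lit 0, nat_lit 8414, nat_lit 8328, nat_lit 0, nat_lit 0, nat_lit 0, nat_lit 768, nat_lit 0, nat_lit 0, nat_lit 0, nat_lit 0, nat_lit 0, nat_lit 0, nat_lit 0, nat_lit 0, [],
 ⟨p083_k15, nat_lit 0, nat_lit 0, nat_lit 136, nat_lit 0, nat_lit 0, [nat_lit 2032000001, nat_lit 4688000000, nat_lit 7968000000], [], [nat_lit 31743597976, nat_lit 32516048768, nat_lit 36306496682, nat_lit 37171551479, nat_lit 30143549020, nat_lit 30831221714, nat_lit 34156966812, nat_lit 34717074064], nat_lit 0, nat_lit 0, nat_lit 0, nat_lit 0, nat_lit 0, nat_lit 0, [], [nat_lit 34, nat_lit 40, nat_lit 40, nat_lit 80, nat_lit 7, nat_lit 249, nat_lit 40, nat_lit 7]⟩, ⟨p083_k16, nat_lit 0, nat_lit 0, nat_lit 411, nat_lit 0, nat_lit 370735, [nat_lit 4688000000, nat_lit 7968000000, nat_lit 11872000000], [], [nat_lit 38117554656, nat_lit 38535637856, nat_lit 41039127056, nat_lit 41316197408, nat_lit 32201752359,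 nat_lit 32352240247, nat_lit 34219917452, nat_lit 34372593734], nat_lit 1271250, nat_lit 1271250, nat_lit 1271250, nat_lit 1271250, nat_lit 0, nat_lit 2203500, [nat_lit 1100000, nat_lit 1785000, nat_lit 1271250], [nat_lit 21, nat_lit 40, nat_lit 40, nat_lit 80, nat_lit 14, nat_lit 373, nat_lit 150, nat_lit 9]⟩,
 zbF0, [⟨nat_lit 13, nat_lit 71, nat_lit 55, nat_lit 100, nat_lit 106193725⟩, ⟨nat_lit 4, nat_lit 100, nat_lit 69, nat_lit 66, nat_lit 27533494⟩, ⟨nat_lit 19, nat_lit 100, nat_lit 92, nat_lit 68, nat_lit 106223322⟩]⟩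
noncomputable def p083_l103 : Lf2 := ⟨nat_lit 0, nat_lit 15, [nat_lit 30, nat_lit 5, nat_lit 5, nat_lit 20], false, nat_lit 80, nat_lit 160, nat_lit 0, nat_lit 312, ⟨nat_lit 106, nat_lit 894, nat_lit 0, nat_lit 8, nat_lit 312, nat_lit 894, nat_lit 84, nat_lit 0, nat_lit 0, nat_lit 0, nat_lit 0, nat_lit 0, nat_lit 39475560, nat_lit 24427505, nat_lit 3096935, nat_lit 4313091, true, true⟩,
 nat_lit 0, nat_lit 0, nat_lit 1711, nat_lit 0, nat_lit 4246, nat_lit 905, nat_lit 0, nat_lit 0, nat_lit 0, nat_lit 72, nat_lit 0, nat_lit 0, nat_lit 0, nat_lit 0, nat_lit 0, nat_lit 223500, nat_lit 0, nat_lit 0, [(nat_lit 22, [(nat_lit 0, nat_lit 894)])],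
 ⟨p083_k19, nat_lit 0, nat_lit 0, nat_lit 118, nat_lit 0, nat_lit 0, [nat_lit 1617184001, nat_lit 2258823201, nat_lit 2746235200], [], [nat_lit 26659235494, nat_lit 27238402912, nat_lit 29484295651, nat_lit 29984854752, nat_lit 26656607750, nat_lit 27181017760, nat_lit 29222877213, nat_lit 29678185570], nat_lit 0, nat_lit 0, nat_lit 0, nat_lit 0, nat_lit 0, nat_lit 0, [], [nat_lit 6, nat_lit 40, nat_lit 40, nat_lit 80, nat_lit 3, nat_lit 249, nat_lit 40, nat_lit 8]⟩, ⟨p083_k16, nat_lit 0, nat_lit 0, nat_lit 512, nat_lit 0, nat_lit 567313, [nat_lit 496928000, nat_lit 844608000, nat_lit 1258432000], [], [nat_lit 4219789224, nat_lit 4245436522, nat_lit 4420303047, nat_lit 4451355854, nat_lit 3527725215, nat_lit 3530985114, nat_lit 3651363525, nat_lit 3656171669], nat_lit 1271250, nat_lit 1271250, nat_lit 1271250, nat_lit 1271250, nat_lit 0, nat_lit 2203500, [nat_lit 1100000, nat_lit 1785000, nat_lit 1271250], [nat_lit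 21, nat_lit 40, nat_lit 40, nat_lit 80, nat_lit 14, nat_lit 373, nat_lit 150, nat_lit 9]⟩,
 ⟨nat_lit 3162, nat_lit 3536, ⟨.ofNat (nat_lit 732188), .ofNat (nat_lit 813778), .ofNat (nat_lit 754141), .ofNat (nat_lit 835730), .ofNat (nat_lit 727168), .ofNat (nat_lit 806408), .ofNat (nat_lit 749323), .ofNat (nat_lit 828563)⟩, ⟨.ofNat (nat_lit 136093), .ofNat (nat_lit 261616), .ofNat (nat_lit 158046), .ofNat (nat_lit 283569), .ofNat (nat_lit 139899), .ofNat (nat_lit 261806), .ofNat (nat_lit 162054), .ofNat (nat_lit 283961)⟩⟩, [⟨nat_lit 13, nat_lit 65, nat_lit 61, nat_lit 100, nat_lit 288814840⟩, ⟨nat_lit 16, nat_lit 64, nat_lit 100, nat_lit 67, nat_lit 2749513⟩, ⟨nat_lit 19, nat_lit 100, nat_lit 92, nat_lit 68, nat_lit 9789028⟩]⟩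
noncomputable def p083_l104 : Lf2 := ⟨nat_lit 1, nat_lit 15, [nat_lit 30, nat_lit 5, nat_lit 5, nat_lit 20], false, nat_lit 80, nat_lit 160, nat_lit 0, nat_lit 312, zbN0,
 nat_lit 0, nat_lit 0, nat_lit 0, nat_lit 0, nat_lit 0, nat_lit 0, nat_lit 0, nat_lit 0, nat_lit 0, nat_lit 0, nat_lit 0, nat_lit 0, nat_lit 0, nat_lit 0, nat_lit 0, nat_lit 0, nat_lit 0, nat_lit 0, [],
 C1.Rw.none, C1.Rw.none,
 zbF0, []⟩
noncomputable def p083_l105 : Lf2 := ⟨nat_lit 0, nat_lit 20, [nat_lit 5, nat_lit 5, nat_lit 5, nat_lit 20], false, nat_lit 80, nat_lit 160, nat_lit 0, nat_lit 160, ⟨nat_lit 1000, nat_lit 0, nat_lit 0, nat_lit 0, nat_lit 0, nat_lit 0, nat_lit 0, nat_lit 0, nat_lit 0, nat_lit 0, nat_lit 0, nat_lit 0, nat_lit 0, nat_lit 0, nat_lit 0, nat_lit 0, false, false⟩,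
 nat_lit 0, nat_lit 0, nat_lit 15393, nat_lit 0, nat_lit 8117, nat_lit 8149, nat_lit 0, nat_lit 0, nat_lit 0, nat_lit 884, nat_lit 0, nat_lit 0, nat_lit 0, nat_lit 0, nat_lit 0, nat_lit 0, nat_lit 0, nat_lit 0, [],
 ⟨p083_k3, nat_lit 0, nat_lit 0, nat_lit 138, nat_lit 0, nat_lit 0, [nat_lit 2032000001, nat_lit 4688000000, nat_lit 7968000000], [], [nat_lit 31784618428, nat_lit 33296061180, nat_lit 36183653227, nat_lit 37501907078, nat_lit 30295336810, nat_lit 31642157724, nat_lit 34226239686, nat_lit 35325683198], nat_lit 0, nat_lit 0, nat_lit 0, nat_lit 0, nat_lit 0, nat_lit 0, [], [nat_lit 34, nat_lit 40, nat_lit 40, nat_lit 80, nat_lit 7, nat_lit 249, nat_lit 40, nat_lit 7]⟩, ⟨p083_k4, nat_lit 0, nat_lit 0, nat_lit 504, nat_lit 0, nat_lit 462756, [nat_lit 4688000000, nat_lit 7968000000, nat_lit 14058000000], [], [nat_lit 38890557412, nat_lit 39185183132, nat_lit 41140149454, nat_lit 41325495910, nat_lit 32705406028,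 nat_lit 32929092706, nat_lit 34767110038, nat_lit 35064478926], nat_lit 1271250, nat_lit 1271250, nat_lit 1271250, nat_lit 1271250, nat_lit 0, nat_lit 1100001, [nat_lit 1100000, nat_lit 1785000, nat_lit 1271250], [nat_lit 37, nat_lit 40, nat_lit 40, nat_lit 80, nat_lit 28, nat_lit 428, nat_lit 200, nat_lit 9]⟩,
 zbF0, [⟨nat_lit 13, nat_lit 68, nat_lit 58, nat_lit 100, nat_lit 42448431⟩, ⟨nat_lit 9, nat_lit 100, nat_lit 68, nat_lit 61, nat_lit 72082395⟩]⟩
noncomputable def p083_l106 : Lf2 := ⟨nat_lit 0, nat_lit 20, [nat_lit 5, nat_lit 5, nat_lit 5, nat_lit 20], false, nat_lit 80, nat_lit 160, nat_lit 160, nat_lit 336, ⟨nat_lit 1000, nat_lit 0, nat_lit 0, nat_lit 0, nat_lit 0, nat_lit 0, nat_lit 0, nat_lit 0, nat_lit 0, nat_lit 0, nat_lit 0, nat_lit 0, nat_lit 0, nat_lit 0, nat_lit 0, nat_lit 0, false, false⟩,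
 nat_lit 0, nat_lit 0, nat_lit 11473, nat_lit 0, nat_lit 8485, nat_lit 6073, nat_lit 0, nat_lit 0, nat_lit 0, nat_lit 917, nat_lit 0, nat_lit 0, nat_lit 0, nat_lit 0, nat_lit 0, nat_lit 0, nat_lit 0, nat_lit 0, [],
 ⟨p083_k3, nat_lit 0, nat_lit 0, nat_lit 134, nat_lit 0, nat_lit 0, [nat_lit 2032000001, nat_lit 4688000000, nat_lit 7968000000], [], [nat_lit 31733791740, nat_lit 32510241820, nat_lit 35983622045, nat_lit 36867543720, nat_lit 30107263050, nat_lit 30798345235, nat_lit 33852337122, nat_lit 34423472274], nat_lit 0, nat_lit 0, nat_lit 0, nat_lit 0, nat_lit 0, nat_lit 0, [], [nat_lit 34, nat_lit 40, nat_lit 40, nat_lit 80, nat_lit 7, nat_lit 249, nat_lit 40, nat_lit 7]⟩, ⟨p083_k4, nat_lit 0, nat_lit 0, nat_lit 234, nat_lit 0, nat_lit 195933, [nat_lit 4688000000, nat_lit 7968000000, nat_lit 14058000000], [], [nat_lit 29890282564, nat_lit 30133150638, nat_lit 32400118377, nat_lit 32590203360, nat_lit 33103670140,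 nat_lit 33267051253, nat_lit 35108673822, nat_lit 35230967363], nat_lit 1271250, nat_lit 1271250, nat_lit 1271250, nat_lit 1271250, nat_lit 1100001, nat_lit 2607000, [nat_lit 1100000, nat_lit 1785000, nat_lit 1271250], [nat_lit 37, nat_lit 40, nat_lit 40, nat_lit 80, nat_lit 28, nat_lit 483, nat_lit 250, nat_lit 10]⟩,
 zbF0, [⟨nat_lit 19, nat_lit 100, nat_lit 83, nat_lit 78, nat_lit 319086976⟩, ⟨nat_lit 22, nat_lit 71, nat_lit 100, nat_lit 97, nat_lit 79112475⟩]⟩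
noncomputable def p083_l107 : Lf2 := ⟨nat_lit 0, nat_lit 20, [nat_lit 5, nat_lit 5, nat_lit 5, nat_lit 20], false, nat_lit 80, nat_lit 160, nat_lit 160, nat_lit 336, ⟨nat_lit 398, nat_lit 602, nat_lit 0, nat_lit 8, nat_lit 309, nat_lit 602, nat_lit 93, nat_lit 0, nat_lit 0, nat_lit 0, nat_lit 0, nat_lit 0, nat_lit 39451006, nat_lit 23948068, nat_lit 3600926, nat_lit 4408248, true, true⟩,
 nat_lit 0, nat_lit 0, nat_lit 6086, nat_lit 0, nat_lit 6288, nat_lit 3221, nat_lit 0, nat_lit 0, nat_lit 0, nat_lit 337, nat_lit 0, nat_lit 0, nat_lit 0, nat_lit 0, nat_lit 0, nat_lit 150500, nat_lit 0, nat_lit 0, [(nat_lit 22, [(nat_lit 0, nat_lit 602)])],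
 ⟨p083_k5, nat_lit 0, nat_lit 0, nat_lit 134, nat_lit 0, nat_lit 0, [nat_lit 1752672000, nat_lit 3052245600, nat_lit 4804128800], [], [nat_lit 29526058856, nat_lit 30178756320, nat_lit 32432901527, nat_lit 33185862567, nat_lit 28651792688, nat_lit 29237372736, nat_lit 31266426220, nat_lit 31772102074], nat_lit 0, nat_lit 0, nat_lit 0, nat_lit 0, nat_lit 0, nat_lit 0, [], [nat_lit 34, nat_lit 40, nat_lit 40, nat_lit 80, nat_lit 7, nat_lit 249, nat_lit 40, nat_lit 7]⟩, ⟨p083_k4, nat_lit 0, nat_lit 0, nat_lit 362, nat_lit 0, nat_lit 392153, [nat_lit 1865824000, nat_lit 3171264000, nat_lit 5595084000], [], [nat_lit 12771231640, nat_lit 12809440092, nat_lit 13348513169, nat_lit 13371667161, nat_lit 13277220706, nat_lit 13308717185, nat_lit 13830430751, nat_lit 13873061902], nat_lit 1271250, nat_lit 1271250, nat_lit 1271250, nat_lit 1271250, nat_lit 1100001, nat_lit 2607000, [nat_lit 1100000, nat_lit 1785000, nat_lit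 1271250], [nat_lit 37, nat_lit 40, nat_lit 40, nat_lit 80, nat_lit 28, nat_lit 483, nat_lit 250, nat_lit 10]⟩,
 ⟨nat_lit 3162, nat_lit 3536, ⟨.ofNat (nat_lit 732188), .ofNat (nat_lit 807502), .ofNat (nat_lit 743164), .ofNat (nat_lit 818478), .ofNat (nat_lit 727168), .ofNat (nat_lit 800312), .ofNat (nat_lit 738246), .ofNat (nat_lit 811390)⟩, ⟨.ofNat (nat_lit 158046), .ofNat (nat_lit 283569), .ofNat (nat_lit 179999), .ofNat (nat_lit 305521), .ofNat (nat_lit 162054), .ofNat (nat_lit 283961), .ofNat (nat_lit 184209), .ofNat (nat_lit 306116)⟩⟩, [⟨nat_lit 22, nat_lit 74, nat_lit 100, nat_lit 98, nat_lit 144836119⟩]⟩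
noncomputable def p083_l108 : Lf2 := ⟨nat_lit 0, nat_lit 20, [nat_lit 5, nat_lit 5, nat_lit 5, nat_lit 20], false, nat_lit 80, nat_lit 160, nat_lit 160, nat_lit 328, ⟨nat_lit 1000, nat_lit 0, nat_lit 0, nat_lit 0, nat_lit 0, nat_lit 0, nat_lit 0, nat_lit 0, nat_lit 0, nat_lit 0, nat_lit 0, nat_lit 0, nat_lit 0, nat_lit 0, nat_lit 0, nat_lit 0, false, false⟩,
 nat_lit 0, nat_lit 0, nat_lit 13408, nat_lit 0, nat_lit 8268, nat_lit 7448, nat_lit 0, nat_lit 0, nat_lit 0, nat_lit 840, nat_lit 0, nat_lit 0, nat_lit 0, nat_lit 0, nat_lit 0, nat_lit 0, nat_lit 0, nat_lit 0, [],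
 ⟨p083_k3, nat_lit 0, nat_lit 0, nat_lit 138, nat_lit 0, nat_lit 0, [nat_lit 2032000001, nat_lit 4688000000, nat_lit 7968000000], [], [nat_lit 31763762912, nat_lit 33292216720, nat_lit 36211864708, nat_lit 37773757512, nat_lit 30218165240, nat_lit 31579488496, nat_lit 34191020144, nat_lit 35301023992], nat_lit 0, nat_lit 0, nat_lit 0, nat_lit 0, nat_lit 0, nat_lit 0, [], [nat_lit 34, nat_lit 40, nat_lit 40, nat_lit 80, nat_lit 7, nat_lit 249, nat_lit 40, nat_lit 7]⟩, ⟨p083_k17, nat_lit 0, nat_lit 0, nat_lit 376, nat_lit 0, nat_lit 430432, [nat_lit 4688000000, nat_lit 7968000000, nat_lit 14058000000], [], [nat_lit 31374904256, nat_lit 31571227184, nat_lit 33861710476, nat_lit 33999972104, nat_lit 33256771309, nat_lit 33350558141, nat_lit 34930177485, nat_lit 34986114580], nat_lit 1271250, nat_lit 1271250, nat_lit 1271250, nat_lit 1271250, nat_lit 1100001, nat_lit 2538500, [nat_lit 1100000, nat_lit 1785000, nat_lit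 1271250], [nat_lit 37, nat_lit 40, nat_lit 40, nat_lit 80, nat_lit 28, nat_lit 483, nat_lit 250, nat_lit 10]⟩,
 zbF0, [⟨nat_lit 7, nat_lit 87, nat_lit 100, nat_lit 79, nat_lit 294307287⟩, ⟨nat_lit 22, nat_lit 69, nat_lit 100, nat_lit 96, nat_lit 34956969⟩]⟩
noncomputable def p083_l109 : Lf2 := ⟨nat_lit 1, nat_lit 20, [nat_lit 5, nat_lit 5, nat_lit 5, nat_lit 20], false, nat_lit 80, nat_lit 160, nat_lit 0, nat_lit 336, zbN0,
 nat_lit 0, nat_lit 0, nat_lit 0, nat_lit 0, nat_lit 0, nat_lit 0, nat_lit 0, nat_lit 0, nat_lit 0, nat_lit 0, nat_lit 0, nat_lit 0, nat_lit 0, nat_lit 0, nat_lit 0, nat_lit 0, nat_lit 0, nat_lit 0, [],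
 C1.Rw.none, C1.Rw.none,
 zbF0, []⟩
noncomputable def p083_l110 : Lf2 := ⟨nat_lit 0, nat_lit 15, [nat_lit 30, nat_lit 5, nat_lit 5, nat_lit 20], false, nat_lit 80, nat_lit 160, nat_lit 0, nat_lit 296, ⟨nat_lit 1000, nat_lit 0, nat_lit 0, nat_lit 0, nat_lit 0, nat_lit 0, nat_lit 0, nat_lit 0, nat_lit 0, nat_lit 0, nat_lit 0, nat_lit 0, nat_lit 0, nat_lit 0, nat_lit 0, nat_lit 0, false, false⟩,
 nat_lit 0, nat_lit 0, nat_lit 13065, nat_lit 0, nat_lit 8274, nat_lit 7604, nat_lit 0, nat_lit 0, nat_lit 0, nat_lit 775, nat_lit 0, nat_lit 0, nat_lit 0, nat_lit 0, nat_lit 0, nat_lit 0, nat_lit 0, nat_lit 0, [],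
 ⟨p083_k15, nat_lit 0, nat_lit 0, nat_lit 139, nat_lit 0, nat_lit 0, [nat_lit 2032000001, nat_lit 4688000000, nat_lit 7968000000], [], [nat_lit 31762934216, nat_lit 32527499088, nat_lit 36940543487, nat_lit 37768612092, nat_lit 30215098820, nat_lit 30896048574, nat_lit 34757052667, nat_lit 35295540606], nat_lit 0, nat_lit 0, nat_lit 0, nat_lit 0, nat_lit 0, nat_lit 0, [], [nat_lit 34, nat_lit 40, nat_lit 40, nat_lit 80, nat_lit 7, nat_lit 249, nat_lit 40, nat_lit 7]⟩, ⟨p083_k9, nat_lit 0, nat_lit 0, nat_lit 452, nat_lit 0, nat_lit 467064, [nat_lit 4688000000, nat_lit 7968000000, nat_lit 11872000000], [], [nat_lit 37146006034, nat_lit 37404920186, nat_lit 39779724012, nat_lit 40051621186, nat_lit 31810435070, nat_lit 31970289465, nat_lit 33767084329, nat_lit 33919525729], nat_lit 1271250, nat_lit 1271250, nat_lit 1271250, nat_lit 1271250, nat_lit 0, nat_lit 2090500, [nat_lit 1100000, nat_lit 1785000, nat_lit 1271250],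 [nat_lit 21, nat_lit 40, nat_lit 40, nat_lit 80, nat_lit 14, nat_lit 373, nat_lit 150, nat_lit 9]⟩,
 zbF0, [⟨nat_lit 13, nat_lit 74, nat_lit 47, nat_lit 100, nat_lit 81601968⟩, ⟨nat_lit 4, nat_lit 100, nat_lit 69, nat_lit 66, nat_lit 24944057⟩, ⟨nat_lit 7, nat_lit 100, nat_lit 100, nat_lit 71, nat_lit 107211042⟩]⟩
noncomputable def p083_l111 : Lf2 := ⟨nat_lit 0, nat_lit 15, [nat_lit 30, nat_lit 5, nat_lit 5, nat_lit 20], false, nat_lit 80, nat_lit 160, nat_lit 0, nat_lit 296, ⟨nat_lit 1000, nat_lit 0, nat_lit 0, nat_lit 0, nat_lit 0, nat_lit 0, nat_lit 0, nat_lit 0, nat_lit 0, nat_lit 0, nat_lit 0, nat_lit 0, nat_lit 0, nat_lit 0, nat_lit 0, nat_lit 0, false, false⟩,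
 nat_lit 0, nat_lit 0, nat_lit 12999, nat_lit 0, nat_lit 6490, nat_lit 7566, nat_lit 0, nat_lit 0, nat_lit 0, nat_lit 720, nat_lit 0, nat_lit 0, nat_lit 0, nat_lit 0, nat_lit 0, nat_lit 0, nat_lit 0, nat_lit 0, [],
 ⟨p083_k19, nat_lit 0, nat_lit 0, nat_lit 123, nat_lit 0, nat_lit 0, [nat_lit 2032000001, nat_lit 4688000000, nat_lit 6250000000], [], [nat_lit 29977845610, nat_lit 30699693280, nat_lit 34334943911, nat_lit 34921197361, nat_lit 29148160250, nat_lit 29794722400, nat_lit 33065363854, nat_lit 33592822969], nat_lit 0, nat_lit 0, nat_lit 0, nat_lit 0, nat_lit 0, nat_lit 0, [], [nat_lit 6, nat_lit 40, nat_lit 40, nat_lit 80, nat_lit 3, nat_lit 249, nat_lit 40, nat_lit 8]⟩, ⟨p083_k9, nat_lit 0, nat_lit 0, nat_lit 530, nat_lit 0, nat_lit 626398, [nat_lit 4688000000, nat_lit 7968000000, nat_lit 11872000000], [], [nat_lit 38196052036, nat_lit 38455656344, nat_lit 40488168992, nat_lit 40769615832, nat_lit 32637269262,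 nat_lit 32718741672, nat_lit 34102696643, nat_lit 34183094452], nat_lit 1271250, nat_lit 1271250, nat_lit 1271250, nat_lit 1271250, nat_lit 0, nat_lit 2090500, [nat_lit 1100000, nat_lit 1785000, nat_lit 1271250], [nat_lit 21, nat_lit 40, nat_lit 40, nat_lit 80, nat_lit 14, nat_lit 373, nat_lit 150, nat_lit 9]⟩,
 zbF0, [⟨nat_lit 13, nat_lit 67, nat_lit 54, nat_lit 100, nat_lit 12106218⟩, ⟨nat_lit 4, nat_lit 100, nat_lit 64, nat_lit 67, nat_lit 193477657⟩, ⟨nat_lit 19, nat_lit 100, nat_lit 100, nat_lit 71, nat_lit 96364314⟩]⟩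
noncomputable def p083_l112 : Lf2 := ⟨nat_lit 0, nat_lit 20, [nat_lit 5, nat_lit 5, nat_lit 5, nat_lit 20], false, nat_lit 80, nat_lit 160, nat_lit 0, nat_lit 320, ⟨nat_lit 1000, nat_lit 0, nat_lit 0, nat_lit 0, nat_lit 0, nat_lit 0, nat_lit 0, nat_lit 0, nat_lit 0, nat_lit 0, nat_lit 0, nat_lit 0, nat_lit 0, nat_lit 0, nat_lit 0, nat_lit 0, false, false⟩,
 nat_lit 0, nat_lit 0, nat_lit 12986, nat_lit 0, nat_lit 8202, nat_lit 7559, nat_lit 0, nat_lit 0, nat_lit 0, nat_lit 764, nat_lit 0, nat_lit 0, nat_lit 0, nat_lit 0, nat_lit 0, nat_lit 0, nat_lit 0, nat_lit 0, [],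
 ⟨p083_k3, nat_lit 0, nat_lit 0, nat_lit 140, nat_lit 0, nat_lit 0, [nat_lit 2032000001, nat_lit 4688000000, nat_lit 7968000000], [], [nat_lit 31772878568, nat_lit 33293897080, nat_lit 36514327137, nat_lit 38058640189, nat_lit 30251895860, nat_lit 31606880344, nat_lit 34488644542, nat_lit 35577433900], nat_lit 0, nat_lit 0, nat_lit 0, nat_lit 0, nat_lit 0, nat_lit 0, [], [nat_lit 34, nat_lit 40, nat_lit 40, nat_lit 80, nat_lit 7, nat_lit 249, nat_lit 40, nat_lit 7]⟩, ⟨p083_k7, nat_lit 0, nat_lit 0, nat_lit 449, nat_lit 0, nat_lit 466628, [nat_lit 4688000000, nat_lit 7968000000, nat_lit 11872000000], [], [nat_lit 37428307714, nat_lit 37558173435, nat_lit 39782543659, nat_lit 39923331064, nat_lit 32388597330, nat_lit 32455878161, nat_lit 34136842537, nat_lit 34203918564], nat_lit 1271250, nat_lit 1271250, nat_lit 1271250, nat_lit 1271250, nat_lit 0, nat_lit 2260000, [nat_lit 1100000, nat_lit 1785000, nat_lit 1271250],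 [nat_lit 21, nat_lit 40, nat_lit 40, nat_lit 80, nat_lit 14, nat_lit 373, nat_lit 150, nat_lit 9]⟩,
 zbF0, [⟨nat_lit 19, nat_lit 100, nat_lit 91, nat_lit 80, nat_lit 86729066⟩, ⟨nat_lit 22, nat_lit 68, nat_lit 100, nat_lit 96, nat_lit 41027932⟩]⟩
noncomputable def p083_l113 : Lf2 := ⟨nat_lit 0, nat_lit 20, [nat_lit 5, nat_lit 5, nat_lit 5, nat_lit 20], false, nat_lit 80, nat_lit 160, nat_lit 0, nat_lit 308, ⟨nat_lit 1000, nat_lit 0, nat_lit 0, nat_lit 0, nat_lit 0, nat_lit 0, nat_lit 0, nat_lit 0, nat_lit 0, nat_lit 0, nat_lit 0, nat_lit 0, nat_lit 0, nat_lit 0, nat_lit 0, nat_lit 0, false, false⟩,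
 nat_lit 0, nat_lit 0, nat_lit 11598, nat_lit 0, nat_lit 8137, nat_lit 7063, nat_lit 0, nat_lit 0, nat_lit 0, nat_lit 840, nat_lit 0, nat_lit 0, nat_lit 0, nat_lit 0, nat_lit 0, nat_lit 0, nat_lit 0, nat_lit 0, [],
 ⟨p083_k3, nat_lit 0, nat_lit 0, nat_lit 141, nat_lit 0, nat_lit 0, [nat_lit 2032000001, nat_lit 4688000000, nat_lit 7968000000], [], [nat_lit 31781856108, nat_lit 33295551980, nat_lit 36813869735, nat_lit 38341069548, nat_lit 30285115410, nat_lit 31633857164, nat_lit 34783353434, nat_lit 35851224073], nat_lit 0, nat_lit 0, nat_lit 0, nat_lit 0, nat_lit 0, nat_lit 0, [], [nat_lit 34, nat_lit 40, nat_lit 40, nat_lit 80, nat_lit 7, nat_lit 249, nat_lit 40, nat_lit 7]⟩, ⟨p083_k18, nat_lit 0, nat_lit 0, nat_lit 486, nat_lit 0, nat_lit 504718, [nat_lit 4688000000, nat_lit 7968000000, nat_lit 11872000000], [], [nat_lit 35036895054, nat_lit 35227216796, nat_lit 37986847105, nat_lit 38280927590, nat_lit 31368598009,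 nat_lit 31462012074, nat_lit 33217769339, nat_lit 33295283792], nat_lit 1271250, nat_lit 1271250, nat_lit 1271250, nat_lit 1271250, nat_lit 0, nat_lit 2175250, [nat_lit 1100000, nat_lit 1785000, nat_lit 1271250], [nat_lit 21, nat_lit 40, nat_lit 40, nat_lit 80, nat_lit 14, nat_lit 373, nat_lit 150, nat_lit 9]⟩,
 zbF0, [⟨nat_lit 19, nat_lit 100, nat_lit 96, nat_lit 82, nat_lit 85002601⟩, ⟨nat_lit 10, nat_lit 85, nat_lit 64, nat_lit 100, nat_lit 49858461⟩]⟩
noncomputable def p083_l114 : Lf2 := ⟨nat_lit 0, nat_lit 20, [nat_lit 5, nat_lit 5, nat_lit 5, nat_lit 20], false, nat_lit 80, nat_lit 160, nat_lit 0, nat_lit 320, ⟨nat_lit 1000, nat_lit 0, nat_lit 0, nat_lit 0, nat_lit 0, nat_lit 0, nat_lit 0, nat_lit 0, nat_lit 0, nat_lit 0, nat_lit 0, nat_lit 0, nat_lit 0, nat_lit 0, nat_lit 0, nat_lit 0, false, false⟩,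
 nat_lit 0, nat_lit 0, nat_lit 12780, nat_lit 0, nat_lit 7922, nat_lit 7438, nat_lit 0, nat_lit 0, nat_lit 0, nat_lit 707, nat_lit 0, nat_lit 0, nat_lit 0, nat_lit 0, nat_lit 0, nat_lit 0, nat_lit 0, nat_lit 0, [],
 ⟨p083_k3, nat_lit 0, nat_lit 0, nat_lit 141, nat_lit 0, nat_lit 0, [nat_lit 2032000001, nat_lit 4688000000, nat_lit 7968000000], [], [nat_lit 31811551048, nat_lit 33301025880, nat_lit 36763425188, nat_lit 37941351334, nat_lit 30394995460, nat_lit 31723088184, nat_lit 34824628360, nat_lit 35878209755], nat_lit 0, nat_lit 0, nat_lit 0, nat_lit 0, nat_lit 0, nat_lit 0, [], [nat_lit 34, nat_lit 40, nat_lit 40, nat_lit 80, nat_lit 7, nat_lit 249, nat_lit 40, nat_lit 7]⟩, ⟨p083_k7, nat_lit 0, nat_lit 0, nat_lit 435, nat_lit 0, nat_lit 443649, [nat_lit 4688000000, nat_lit 7968000000, nat_lit 11872000000], [], [nat_lit 38674301398, nat_lit 38936230442, nat_lit 40945220066, nat_lit 41220312143, nat_lit 33495144094,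 nat_lit 33561021769, nat_lit 34961521695, nat_lit 35045179809], nat_lit 1271250, nat_lit 1271250, nat_lit 1271250, nat_lit 1271250, nat_lit 0, nat_lit 2260000, [nat_lit 1100000, nat_lit 1785000, nat_lit 1271250], [nat_lit 21, nat_lit 40, nat_lit 40, nat_lit 80, nat_lit 14, nat_lit 373, nat_lit 150, nat_lit 9]⟩,
 zbF0, [⟨nat_lit 13, nat_lit 71, nat_lit 50, nat_lit 100, nat_lit 16809480⟩, ⟨nat_lit 4, nat_lit 100, nat_lit 66, nat_lit 72, nat_lit 77921892⟩, ⟨nat_lit 7, nat_lit 97, nat_lit 100, nat_lit 76, nat_lit 116993926⟩]⟩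
noncomputable def b_V_800_600_10_27 : St := ⟨true, nat_lit 0, nat_lit 1, nat_lit 1, nat_lit 80, nat_lit 320, nat_lit 360, nat_lit 240, nat_lit 280, nat_lit 320, nat_lit 396, nat_lit 40, nat_lit 80, nat_lit 0, nat_lit 160, nat_lit 0, nat_lit 336, nat_lit 80, nat_lit 120, nat_lit 0, nat_lit 0, nat_lit 0, nat_lit 0⟩
theorem d_V_800_600_10_27 (h : EB TB.env) : Dead b_V_800_600_10_27 := chkB_sound0 h (T :=
(.spl (nat_lit 0) (nat_lit 340)
(.spl (nat_lit 6) (nat_lit 108)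
(.spl (nat_lit 3) (nat_lit 60)
(.trX (nat_lit 19) (nat_lit 100) (nat_lit 85) (nat_lit 73) (nat_lit 312) (.leaf p083_l93))
(.leaf p083_l94))
(.leaf p083_l95))
(.trX (nat_lit 13) (nat_lit 78) (nat_lit 39) (nat_lit 100) (nat_lit 388) (.spl (nat_lit 4) (nat_lit 80)
(.trX (nat_lit 22) (nat_lit 83) (nat_lit 100) (nat_lit 83) (nat_lit 260) (.spl (nat_lit 1) (nat_lit 260)
(.trX (nat_lit 13) (nat_lit 75) (nat_lit 48) (nat_lit 100) (nat_lit 380) (.spl (nat_lit 3) (nat_lit 60)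
(.spl (nat_lit 6) (nat_lit 112)
(.spl (nat_lit 0) (nat_lit 350)
(.leaf p083_l96)
(.trX (nat_lit 13) (nat_lit 69) (nat_lit 54) (nat_lit 100) (nat_lit 372) (.leaf p083_l97)))
(.leaf p083_l98))
(.leaf p083_l99)))
(.spl (nat_lit 3) (nat_lit 60)
(.leaf p083_l100)
(.leaf p083_l101))))
(.spl (nat_lit 1) (nat_lit 260)
(.trX (nat_lit 13) (nat_lit 75) (nat_lit 48) (nat_lit 100) (nat_lit 380) (.spl (nat_lit 3) (nat_lit 60)
(.trX (nat_lit 19) (nat_lit 100) (nat_lit 85) (nat_lit 73) (nat_lit 312) (.spl (nat_lit 6) (nat_lit 112)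
(.spl (nat_lit 0) (nat_lit 350)
(.leaf p083_l102)
(.trX (nat_lit 13) (nat_lit 69) (nat_lit 54) (nat_lit 100) (nat_lit 372) (.leaf p083_l103)))
(.leaf p083_l104)))
(.spl (nat_lit 6) (nat_lit 104)
(.spl (nat_lit 5) (nat_lit 160)
(.leaf p083_l105)
(.spl (nat_lit 1) (nat_lit 250)
(.trX (nat_lit 13) (nat_lit 74) (nat_lit 52) (nat_lit 100) (nat_lit 376) (.spl (nat_lit 0) (nat_lit 350)
(.leaf p083_l106)
(.trX (nat_lit 13) (nat_lit 68) (nat_lit 58) (nat_lit 100) (nat_lit 368) (.leaf p083_l107))))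
(.trX (nat_lit 19) (nat_lit 100) (nat_lit 81) (nat_lit 83) (nat_lit 328) (.leaf p083_l108))))
(.leaf p083_l109))))
(.trX (nat_lit 19) (nat_lit 100) (nat_lit 85) (nat_lit 84) (nat_lit 320) (.spl (nat_lit 6) (nat_lit 100)
(.spl (nat_lit 3) (nat_lit 60)
(.trX (nat_lit 19) (nat_lit 100) (nat_lit 92) (nat_lit 75) (nat_lit 296) (.spl (nat_lit 0) (nat_lit 350)
(.leaf p083_l110)
(.trX (nat_lit 13) (nat_lit 72) (nat_lit 46) (nat_lit 100) (nat_lit 384) (.leaf p083_l111))))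
(.spl (nat_lit 1) (nat_lit 270)
(.trX (nat_lit 13) (nat_lit 76) (nat_lit 43) (nat_lit 100) (nat_lit 384) (.leaf p083_l112))
(.trX (nat_lit 19) (nat_lit 100) (nat_lit 90) (nat_lit 85) (nat_lit 308) (.leaf p083_l113))))
(.leaf p083_l114)))))))) (by decide +kernel)
noncomputable def p083_l115 : Lf2 := ⟨nat_lit 0, nat_lit 20, [nat_lit 5, nat_lit 5, nat_lit 5, nat_lit 20], false, nat_lit 160, nat_lit 260, nat_lit 0, nat_lit 336, ⟨nat_lit 206, nat_lit 794, nat_lit 0, nat_lit 6, nat_lit 279, nat_lit 794, nat_lit 146, nat_lit 0, nat_lit 0, nat_lit 0, nat_lit 0, nat_lit 0, nat_lit 39631076, nat_lit 20187222, nat_lit 7181702, nat_lit 4880339, true, true⟩,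
 nat_lit 0, nat_lit 0, nat_lit 3274, nat_lit 0, nat_lit 3204, nat_lit 1733, nat_lit 0, nat_lit 0, nat_lit 0, nat_lit 158, nat_lit 0, nat_lit 0, nat_lit 0, nat_lit 0, nat_lit 0, nat_lit 198500, nat_lit 0, nat_lit 0, [(nat_lit 19, [(nat_lit 0, nat_lit 794)])],
 ⟨p083_k6, nat_lit 0, nat_lit 0, nat_lit 51, nat_lit 0, nat_lit 0, [nat_lit 1643257601, nat_lit 2846237600, nat_lit 4560728720], [], [nat_lit 19469096049, nat_lit 20771076689, nat_lit 23285876433, nat_lit 24375328913, nat_lit 22687127993, nat_lit 23778605713, nat_lit 25873263001, nat_lit 26795336805], nat_lit 0, nat_lit 0, nat_lit 0, nat_lit 0, nat_lit 0, nat_lit 0, [], [nat_lit 27, nat_lit 40, nat_lit 40, nat_lit 80, nat_lit 13, nat_lit 373, nat_lit 150, nat_lit 10]⟩, ⟨p083_k4, nat_lit 0, nat_lit 0, nat_lit 592, nat_lit 0, nat_lit 597963, [nat_lit 965728000, nat_lit 1641408000, nat_lit 2895948000], [], [nat_lit 8125444352, nat_lit 8214796808, nat_lit 8414600644,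 nat_lit 8513295736, nat_lit 6848496178, nat_lit 6898956356, nat_lit 7000420073, nat_lit 7025728789], nat_lit 1271250, nat_lit 1271250, nat_lit 1271250, nat_lit 1271250, nat_lit 0, nat_lit 2373000, [nat_lit 1100000, nat_lit 1785000, nat_lit 1271250], [nat_lit 37, nat_lit 40, nat_lit 40, nat_lit 80, nat_lit 28, nat_lit 483, nat_lit 250, nat_lit 11]⟩,
 ⟨nat_lit 3872, nat_lit 4473, ⟨.ofNat (nat_lit 611083), .ofNat (nat_lit 747053), .ofNat (nat_lit 654181), .ofNat (nat_lit 790153), .ofNat (nat_lit 608080), .ofNat (nat_lit 737137), .ofNat (nat_lit 651631), .ofNat (nat_lit 780691)⟩, ⟨.ofNat (nat_lit 259489), .ofNat (nat_lit 429434), .ofNat (nat_lit 302621), .ofNat (nat_lit 472567), .ofNat (nat_lit 261131), .ofNat (nat_lit 422435), .ofNat (nat_lit 304717), .ofNat (nat_lit 466021)⟩⟩, [⟨nat_lit 4, nat_lit 100, nat_lit 76, nat_lit 72, nat_lit 287942908⟩, ⟨nat_lit 7, nat_lit 92, nat_lit 100, nat_lit 75, nat_lit 22395934⟩]⟩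
noncomputable def p083_l116 : Lf2 := ⟨nat_lit 0, nat_lit 20, [nat_lit 5, nat_lit 5, nat_lit 5, nat_lit 20], true, nat_lit 160, nat_lit 232, nat_lit 0, nat_lit 336, ⟨nat_lit 0, nat_lit 1000, nat_lit 0, nat_lit 6, nat_lit 277, nat_lit 1000, nat_lit 136, nat_lit 0, nat_lit 0, nat_lit 0, nat_lit 0, nat_lit 0, nat_lit 40280213, nat_lit 20194067, nat_lit 6525720, nat_lit 4778656, true, true⟩,
 nat_lit 0, nat_lit 0, nat_lit 0, nat_lit 3109, nat_lit 3144, nat_lit 0, nat_lit 0, nat_lit 0, nat_lit 0, nat_lit 0, nat_lit 0, nat_lit 0, nat_lit 0, nat_lit 0, nat_lit 0, nat_lit 250000, nat_lit 0, nat_lit 0, [(nat_lit 22, [(nat_lit 0, nat_lit 1000)])],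
 ⟨p083_k3, nat_lit 0, nat_lit 0, nat_lit 56, nat_lit 0, nat_lit 0, [nat_lit 1568000001, nat_lit 1970800000, nat_lit 2712400000], [], [nat_lit 20723798769, nat_lit 21369159289, nat_lit 24305475633, nat_lit 24860187640, nat_lit 22720075608, nat_lit 23291708142, nat_lit 25894869931, nat_lit 26399661818], nat_lit 0, nat_lit 0, nat_lit 0, nat_lit 0, nat_lit 0, nat_lit 0, [], [nat_lit 34, nat_lit 40, nat_lit 40, nat_lit 80, nat_lit 7, nat_lit 272, nat_lit 60, nat_lit 7]⟩, C1.Rw.none,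
 ⟨nat_lit 3535, nat_lit 3873, ⟨.ofNat (nat_lit 608101), .ofNat (nat_lit 737150), .ofNat (nat_lit 651675), .ofNat (nat_lit 780730), .ofNat (nat_lit 606659), .ofNat (nat_lit 732188), .ofNat (nat_lit 650552), .ofNat (nat_lit 776087)⟩, ⟨.ofNat (nat_lit 261131), .ofNat (nat_lit 377270), .ofNat (nat_lit 304717), .ofNat (nat_lit 420856), .ofNat (nat_lit 261616), .ofNat (nat_lit 374587), .ofNat (nat_lit 305521), .ofNat (nat_lit 418492)⟩⟩, [⟨nat_lit 16, nat_lit 72, nat_lit 100, nat_lit 81, nat_lit 195336690⟩]⟩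
noncomputable def p083_l117 : Lf2 := ⟨nat_lit 0, nat_lit 20, [nat_lit 5, nat_lit 5, nat_lit 5, nat_lit 20], false, nat_lit 160, nat_lit 216, nat_lit 0, nat_lit 336, ⟨nat_lit 118, nat_lit 882, nat_lit 0, nat_lit 6, nat_lit 276, nat_lit 882, nat_lit 131, nat_lit 0, nat_lit 0, nat_lit 0, nat_lit 0, nat_lit 0, nat_lit 40655616, nat_lit 20175422, nat_lit 6168962, nat_lit 4719202, true, true⟩,
 nat_lit 0, nat_lit 0, nat_lit 1903, nat_lit 0, nat_lit 4007, nat_lit 1007, nat_lit 0, nat_lit 0, nat_lit 0, nat_lit 83, nat_lit 0, nat_lit 0, nat_lit 0, nat_lit 0, nat_lit 0, nat_lit 220500, nat_lit 0, nat_lit 0, [(nat_lit 22, [(nat_lit 0, nat_lit 882)])],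
 ⟨p083_k5, nat_lit 0, nat_lit 0, nat_lit 60, nat_lit 0, nat_lit 0, [nat_lit 1622752000, nat_lit 2291429600, nat_lit 3332560800], [], [nat_lit 22274966332, nat_lit 22928855184, nat_lit 25700772214, nat_lit 26245343972, nat_lit 23644139016, nat_lit 24237985942, nat_lit 26746947445, nat_lit 27320378694], nat_lit 0, nat_lit 0, nat_lit 0, nat_lit 0, nat_lit 0, nat_lit 0, [], [nat_lit 34, nat_lit 40, nat_lit 40, nat_lit 80, nat_lit 7, nat_lit 272, nat_lit 60, nat_lit 7]⟩, ⟨p083_k4, nat_lit 0, nat_lit 0, nat_lit 770, nat_lit 0, nat_lit 975763, [nat_lit 553184000, nat_lit 940224000, nat_lit 1658844000], [], [nat_lit 4849075652, nat_lit 4869328096, nat_lit 4963940132, nat_lit 5019877344, nat_lit 4066812294, nat_lit 4069304812, nat_lit 4098918021, nat_lit 4106483194], nat_lit 1271250, nat_lit 1271250, nat_lit 1271250, nat_lit 1271250, nat_lit 0, nat_lit 2373000, [nat_lit 1100000, nat_lit 1785000, nat_lit 1271250], [nat_lit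 37, nat_lit 40, nat_lit 40, nat_lit 80, nat_lit 28, nat_lit 483, nat_lit 250, nat_lit 11]⟩,
 ⟨nat_lit 3162, nat_lit 3536, ⟨.ofNat (nat_lit 606660), .ofNat (nat_lit 732188), .ofNat (nat_lit 650549), .ofNat (nat_lit 776092), .ofNat (nat_lit 605256), .ofNat (nat_lit 727168), .ofNat (nat_lit 649550), .ofNat (nat_lit 771477)⟩, ⟨.ofNat (nat_lit 261616), .ofNat (nat_lit 349482), .ofNat (nat_lit 305521), .ofNat (nat_lit 393387), .ofNat (nat_lit 261806), .ofNat (nat_lit 347141), .ofNat (nat_lit 306116), .ofNat (nat_lit 391450)⟩⟩, [⟨nat_lit 4, nat_lit 100, nat_lit 63, nat_lit 72, nat_lit 274050342⟩, ⟨nat_lit 7, nat_lit 92, nat_lit 100, nat_lit 75, nat_lit 11364969⟩]⟩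
noncomputable def p083_l118 : Lf2 := ⟨nat_lit 0, nat_lit 15, [nat_lit 30, nat_lit 5, nat_lit 5, nat_lit 20], false, nat_lit 160, nat_lit 232, nat_lit 16, nat_lit 312, ⟨nat_lit 1000, nat_lit 0, nat_lit 0, nat_lit 0, nat_lit 0, nat_lit 0, nat_lit 0, nat_lit 0, nat_lit 0, nat_lit 0, nat_lit 0, nat_lit 0, nat_lit 0, nat_lit 0, nat_lit 0, nat_lit 0, false, false⟩,
 nat_lit 0, nat_lit 0, nat_lit 18392, nat_lit 0, nat_lit 6803, nat_lit 9736, nat_lit 0, nat_lit 0, nat_lit 0, nat_lit 412, nat_lit 0, nat_lit 0, nat_lit 0, nat_lit 0, nat_lit 0, nat_lit 0, nat_lit 0, nat_lit 0, [],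
 ⟨p083_k0, nat_lit 0, nat_lit 0, nat_lit 92, nat_lit 0, nat_lit 0, [nat_lit 2032000001, nat_lit 6250000000, nat_lit 7968000000], [], [nat_lit 27016172860, nat_lit 28343373470, nat_lit 31984154836, nat_lit 33032792859, nat_lit 28262565944, nat_lit 29417523596, nat_lit 32604395668, nat_lit 33684361713], nat_lit 0, nat_lit 0, nat_lit 0, nat_lit 0, nat_lit 0, nat_lit 0, [], [nat_lit 102, nat_lit 40, nat_lit 40, nat_lit 80, nat_lit 2, nat_lit 272, nat_lit 60, nat_lit 7]⟩, ⟨p083_k21, nat_lit 0, nat_lit 0, nat_lit 339, nat_lit 0, nat_lit 183372, [nat_lit 4688000000, nat_lit 9842000000, nat_lit 11872000000], [], [nat_lit 40722039218, nat_lit 41131786786, nat_lit 44533049173, nat_lit 44751554922, nat_lit 34148509541, nat_lit 34261539701, nat_lit 36668186702, nat_lit 36766398409], nat_lit 1271250, nat_lit 1271250, nat_lit 1271250, nat_lit 1271250, nat_lit 88400, nat_lit 2223300, [nat_lit 1100000, nat_lit 2127500, nat_lit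 1271250], [nat_lit 125, nat_lit 40, nat_lit 40, nat_lit 80, nat_lit 41, nat_lit 373, nat_lit 150, nat_lit 9]⟩,
 zbF0, [⟨nat_lit 13, nat_lit 78, nat_lit 45, nat_lit 100, nat_lit 66051855⟩, ⟨nat_lit 4, nat_lit 100, nat_lit 76, nat_lit 66, nat_lit 495106797⟩, ⟨nat_lit 7, nat_lit 92, nat_lit 100, nat_lit 68, nat_lit 77134297⟩]⟩
noncomputable def p083_l119 : Lf2 := ⟨nat_lit 0, nat_lit 15, [nat_lit 30, nat_lit 5, nat_lit 5, nat_lit 20], true, nat_lit 160, nat_lit 208, nat_lit 16, nat_lit 312, ⟨nat_lit 0, nat_lit 1000, nat_lit 0, nat_lit 8, nat_lit 316, nat_lit 1000, nat_lit 124, nat_lit 0, nat_lit 0, nat_lit 0, nat_lit 0, nat_lit 0, nat_lit 37590053, nat_lit 24014318, nat_lit 5395629, nat_lit 4760274, true, true⟩,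
 nat_lit 0, nat_lit 0, nat_lit 0, nat_lit 3863, nat_lit 3440, nat_lit 0, nat_lit 0, nat_lit 0, nat_lit 0, nat_lit 0, nat_lit 0, nat_lit 0, nat_lit 0, nat_lit 0, nat_lit 0, nat_lit 250000, nat_lit 0, nat_lit 0, [(nat_lit 22, [(nat_lit 0, nat_lit 1000)])],
 ⟨p083_k15, nat_lit 0, nat_lit 0, nat_lit 80, nat_lit 0, nat_lit 0, [nat_lit 1568000001, nat_lit 1970800000, nat_lit 2712400000], [], [nat_lit 25239670961, nat_lit 26206842721, nat_lit 28068565801, nat_lit 28950479520, nat_lit 26179662881, nat_lit 27078080929, nat_lit 28818631352, nat_lit 29687057905], nat_lit 0, nat_lit 0, nat_lit 0, nat_lit 0, nat_lit 0, nat_lit 0, [], [nat_lit 34, nat_lit 40, nat_lit 40, nat_lit 80, nat_lit 7, nat_lit 272, nat_lit 60, nat_lit 7]⟩, C1.Rw.none,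
 ⟨nat_lit 3162, nat_lit 3873, ⟨.ofNat (nat_lit 737150), .ofNat (nat_lit 833932), .ofNat (nat_lit 758943), .ofNat (nat_lit 855725), .ofNat (nat_lit 727168), .ofNat (nat_lit 818598), .ofNat (nat_lit 749323), .ofNat (nat_lit 840753)⟩, ⟨.ofNat (nat_lit 261131), .ofNat (nat_lit 338557), .ofNat (nat_lit 282924), .ofNat (nat_lit 360350), .ofNat (nat_lit 261806), .ofNat (nat_lit 334950), .ofNat (nat_lit 283961), .ofNat (nat_lit 357105)⟩⟩, [⟨nat_lit 13, nat_lit 75, nat_lit 48, nat_lit 100, nat_lit 247941813⟩, ⟨nat_lit 16, nat_lit 71, nat_lit 100, nat_lit 71, nat_lit 170314517⟩]⟩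
noncomputable def p083_l120 : Lf2 := ⟨nat_lit 1, nat_lit 15, [nat_lit 30, nat_lit 5, nat_lit 5, nat_lit 20], false, nat_lit 160, nat_lit 232, nat_lit 16, nat_lit 312, zbN0,
 nat_lit 0, nat_lit 0, nat_lit 0, nat_lit 0, nat_lit 0, nat_lit 0, nat_lit 0, nat_lit 0, nat_lit 0, nat_lit 0, nat_lit 0, nat_lit 0, nat_lit 0, nat_lit 0, nat_lit 0, nat_lit 0, nat_lit 0, nat_lit 0, [],
 C1.Rw.none, C1.Rw.none,
 zbF0, []⟩
noncomputable def p083_l121 : Lf2 := ⟨nat_lit 0, nat_lit 20, [nat_lit 5, nat_lit 5, nat_lit 5, nat_lit 20], false, nat_lit 160, nat_lit 260, nat_lit 16, nat_lit 336, ⟨nat_lit 1000, nat_lit 0, nat_lit 0, nat_lit 0, nat_lit 0, nat_lit 0, nat_lit 0, nat_lit 0, nat_lit 0, nat_lit 0, nat_lit 0, nat_lit 0, nat_lit 0, nat_lit 0, nat_lit 0, nat_lit 0, false, false⟩,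
 nat_lit 0, nat_lit 0, nat_lit 15560, nat_lit 426, nat_lit 5415, nat_lit 8237, nat_lit 0, nat_lit 0, nat_lit 0, nat_lit 864, nat_lit 0, nat_lit 0, nat_lit 0, nat_lit 0, nat_lit 0, nat_lit 0, nat_lit 0, nat_lit 0, [],
 ⟨p083_k6, nat_lit 0, nat_lit 0, nat_lit 79, nat_lit 0, nat_lit 0, [nat_lit 2032000001, nat_lit 4688000000, nat_lit 9842000000], [], [nat_lit 25671796300, nat_lit 26931009320, nat_lit 30362436021, nat_lit 31371855958, nat_lit 28030853730, nat_lit 29071095458, nat_lit 31927251930, nat_lit 32764722141], nat_lit 0, nat_lit 0, nat_lit 0, nat_lit 0, nat_lit 0, nat_lit 0, [], [nat_lit 27, nat_lit 40, nat_lit 40, nat_lit 80, nat_lit 13, nat_lit 289, nat_lit 75, nat_lit 7]⟩, ⟨p083_k4, nat_lit 0, nat_lit 0, nat_lit 292, nat_lit 0, nat_lit 89376, [nat_lit 4688000000, nat_lit 7968000000, nat_lit 14058000000], [], [nat_lit 36620162790, nat_lit 37095012343, nat_lit 40804762864, nat_lit 41267596208, nat_lit 32921648147,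 nat_lit 33075958929, nat_lit 35596827191, nat_lit 35744142635], nat_lit 1271250, nat_lit 1271250, nat_lit 1271250, nat_lit 1271250, nat_lit 88400, nat_lit 2396400, [nat_lit 1100000, nat_lit 1785000, nat_lit 1271250], [nat_lit 37, nat_lit 40, nat_lit 40, nat_lit 80, nat_lit 28, nat_lit 483, nat_lit 250, nat_lit 11]⟩,
 zbF0, [⟨nat_lit 13, nat_lit 78, nat_lit 45, nat_lit 100, nat_lit 29871374⟩, ⟨nat_lit 4, nat_lit 100, nat_lit 77, nat_lit 77, nat_lit 471431211⟩, ⟨nat_lit 19, nat_lit 100, nat_lit 85, nat_lit 78, nat_lit 137149777⟩]⟩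
noncomputable def p083_l122 : Lf2 := ⟨nat_lit 0, nat_lit 20, [nat_lit 5, nat_lit 5, nat_lit 5, nat_lit 20], false, nat_lit 160, nat_lit 232, nat_lit 16, nat_lit 336, ⟨nat_lit 189, nat_lit 811, nat_lit 0, nat_lit 8, nat_lit 316, nat_lit 811, nat_lit 140, nat_lit 0, nat_lit 0, nat_lit 0, nat_lit 0, nat_lit 0, nat_lit 36898642, nat_lit 23661555, nat_lit 6439803, nat_lit 4920454, true, true⟩,
 nat_lit 0, nat_lit 0, nat_lit 2944, nat_lit 0, nat_lit 3821, nat_lit 1558, nat_lit 0, nat_lit 0, nat_lit 0, nat_lit 147, nat_lit 0, nat_lit 0, nat_lit 0, nat_lit 0, nat_lit 0, nat_lit 202750, nat_lit 0, nat_lit 0, [(nat_lit 22, [(nat_lit 0, nat_lit 811)])],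
 ⟨p083_k3, nat_lit 0, nat_lit 0, nat_lit 80, nat_lit 0, nat_lit 0, [nat_lit 1655696001, nat_lit 2484350800, nat_lit 3705708400], [], [nat_lit 25431257768, nat_lit 26497934716, nat_lit 28544528315, nat_lit 29452137344, nat_lit 26849645674, nat_lit 27797115403, nat_lit 29624591138, nat_lit 30499506762], nat_lit 0, nat_lit 0, nat_lit 0, nat_lit 0, nat_lit 0, nat_lit 0, [], [nat_lit 34, nat_lit 40, nat_lit 40, nat_lit 80, nat_lit 7, nat_lit 272, nat_lit 60, nat_lit 7]⟩, ⟨p083_k4, nat_lit 0, nat_lit 0, nat_lit 474, nat_lit 0, nat_lit 462756, [nat_lit 886032000, nat_lit 1505952000, nat_lit 2656962000], [], [nat_lit 7514756681, nat_lit 7538329226, nat_lit 7910295512, nat_lit 7934846128, nat_lit 6503223219, nat_lit 6511577556, nat_lit 6798647494, nat_lit 6821239611], nat_lit 1271250, nat_lit 1271250, nat_lit 1271250, nat_lit 1271250, nat_lit 88400, nat_lit 2396400, [nat_lit 1100000, nat_lit 1785000, nat_lit 1271250], [nat_lit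 37, nat_lit 40, nat_lit 40, nat_lit 80, nat_lit 28, nat_lit 483, nat_lit 250, nat_lit 11]⟩,
 ⟨nat_lit 3162, nat_lit 3873, ⟨.ofNat (nat_lit 737150), .ofNat (nat_lit 833932), .ofNat (nat_lit 758943), .ofNat (nat_lit 855725), .ofNat (nat_lit 727168), .ofNat (nat_lit 818598), .ofNat (nat_lit 749323), .ofNat (nat_lit 840753)⟩, ⟨.ofNat (nat_lit 282924), .ofNat (nat_lit 399063), .ofNat (nat_lit 304717), .ofNat (nat_lit 420856), .ofNat (nat_lit 283961), .ofNat (nat_lit 393677), .ofNat (nat_lit 306116), .ofNat (nat_lit 415832)⟩⟩, [⟨nat_lit 13, nat_lit 68, nat_lit 58, nat_lit 100, nat_lit 234052591⟩, ⟨nat_lit 4, nat_lit 100, nat_lit 66, nat_lit 76, nat_lit 235706898⟩, ⟨nat_lit 19, nat_lit 100, nat_lit 85, nat_lit 78, nat_lit 24574182⟩]⟩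
noncomputable def p083_l123 : Lf2 := ⟨nat_lit 1, nat_lit 20, [nat_lit 5, nat_lit 5, nat_lit 5, nat_lit 20], false, nat_lit 160, nat_lit 260, nat_lit 16, nat_lit 336, zbN0,
 nat_lit 0, nat_lit 0, nat_lit 0, nat_lit 0, nat_lit 0, nat_lit 0, nat_lit 0, nat_lit 0, nat_lit 0, nat_lit 0, nat_lit 0, nat_lit 0, nat_lit 0, nat_lit 0, nat_lit 0, nat_lit 0, nat_lit 0, nat_lit 0, [],
 C1.Rw.none, C1.Rw.none,
 zbF0, []⟩
noncomputable def p083_l124 : Lf2 := ⟨nat_lit 0, nat_lit 15, [nat_lit 30, nat_lit 5, nat_lit 5, nat_lit 20], false, nat_lit 160, nat_lit 232, nat_lit 16, nat_lit 296, ⟨nat_lit 1000, nat_lit 0, nat_lit 0, nat_lit 0, nat_lit 0, nat_lit 0, nat_lit 0, nat_lit 0, nat_lit 0, nat_lit 0, nat_lit 0, nat_lit 0, nat_lit 0, nat_lit 0, nat_lit 0, nat_lit 0, false, false⟩,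
 nat_lit 0, nat_lit 0, nat_lit 12973, nat_lit 0, nat_lit 8009, nat_lit 7551, nat_lit 0, nat_lit 0, nat_lit 0, nat_lit 776, nat_lit 0, nat_lit 0, nat_lit 0, nat_lit 0, nat_lit 0, nat_lit 0, nat_lit 0, nat_lit 0, [],
 ⟨p083_k8, nat_lit 0, nat_lit 0, nat_lit 101, nat_lit 0, nat_lit 0, [nat_lit 2032000001, nat_lit 4688000000, nat_lit 7968000000], [], [nat_lit 29014083992, nat_lit 31686980748, nat_lit 34337586318, nat_lit 36391259688, nat_lit 29959814267, nat_lit 32270892325, nat_lit 34587509172, nat_lit 36630111848], nat_lit 0, nat_lit 0, nat_lit 0, nat_lit 0, nat_lit 0, nat_lit 0, [], [nat_lit 34, nat_lit 40, nat_lit 40, nat_lit 80, nat_lit 7, nat_lit 272, nat_lit 60, nat_lit 7]⟩, ⟨p083_k9, nat_lit 0, nat_lit 0, nat_lit 525, nat_lit 0, nat_lit 643380, [nat_lit 4688000000, nat_lit 7968000000, nat_lit 11872000000], [], [nat_lit 36414766596, nat_lit 36671471247, nat_lit 39213858009, nat_lit 39467697253, nat_lit 31967669317,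 nat_lit 32129276216, nat_lit 34186763075, nat_lit 34328695530], nat_lit 1271250, nat_lit 1271250, nat_lit 1271250, nat_lit 1271250, nat_lit 88400, nat_lit 2107900, [nat_lit 1100000, nat_lit 1785000, nat_lit 1271250], [nat_lit 21, nat_lit 40, nat_lit 40, nat_lit 80, nat_lit 14, nat_lit 373, nat_lit 150, nat_lit 9]⟩,
 zbF0, [⟨nat_lit 13, nat_lit 76, nat_lit 43, nat_lit 100, nat_lit 70023838⟩, ⟨nat_lit 4, nat_lit 100, nat_lit 72, nat_lit 66, nat_lit 2314838095⟩, ⟨nat_lit 19, nat_lit 100, nat_lit 100, nat_lit 71, nat_lit 129214884⟩]⟩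
noncomputable def p083_l125 : Lf2 := ⟨nat_lit 0, nat_lit 20, [nat_lit 5, nat_lit 5, nat_lit 5, nat_lit 20], false, nat_lit 160, nat_lit 260, nat_lit 16, nat_lit 160, ⟨nat_lit 1000, nat_lit 0, nat_lit 0, nat_lit 0, nat_lit 0, nat_lit 0, nat_lit 0, nat_lit 0, nat_lit 0, nat_lit 0, nat_lit 0, nat_lit 0, nat_lit 0, nat_lit 0, nat_lit 0, nat_lit 0, false, false⟩,
 nat_lit 0, nat_lit 0, nat_lit 12666, nat_lit 0, nat_lit 5373, nat_lit 7372, nat_lit 669, nat_lit 0, nat_lit 0, nat_lit 835, nat_lit 0, nat_lit 0, nat_lit 0, nat_lit 0, nat_lit 0, nat_lit 0, nat_lit 0, nat_lit 0, [],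
 ⟨p083_k6, nat_lit 0, nat_lit 0, nat_lit 108, nat_lit 0, nat_lit 0, [nat_lit 2032000001, nat_lit 4688000000, nat_lit 9842000000], [], [nat_lit 27110350045, nat_lit 29092412821, nat_lit 31044533302, nat_lit 32621442410, nat_lit 28741598053, nat_lit 30384772416, nat_lit 32162654007, nat_lit 33911836449], nat_lit 0, nat_lit 0, nat_lit 0, nat_lit 0, nat_lit 0, nat_lit 0, [], [nat_lit 27, nat_lit 40, nat_lit 40, nat_lit 80, nat_lit 13, nat_lit 289, nat_lit 75, nat_lit 7]⟩, ⟨p083_k7, nat_lit 0, nat_lit 0, nat_lit 492, nat_lit 0, nat_lit 548072, [nat_lit 4688000000, nat_lit 7968000000, nat_lit 11872000000], [], [nat_lit 35737098745, nat_lit 35997080671, nat_lit 38505913757, nat_lit 38755685321, nat_lit 31105524825, nat_lit 31406152689, nat_lit 33817936645, nat_lit 34094876117], nat_lit 1271250, nat_lit 1271250, nat_lit 1271250, nat_lit 1271250, nat_lit 88400, nat_lit 1100001, [nat_lit 1100000, nat_lit 1785000, nat_lit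 1271250], [nat_lit 21, nat_lit 40, nat_lit 40, nat_lit 80, nat_lit 14, nat_lit 345, nat_lit 125, nat_lit 8]⟩,
 zbF0, [⟨nat_lit 4, nat_lit 100, nat_lit 72, nat_lit 76, nat_lit 487940562⟩, ⟨nat_lit 9, nat_lit 100, nat_lit 61, nat_lit 82, nat_lit 14973834⟩]⟩
noncomputable def p083_l126 : Lf2 := ⟨nat_lit 0, nat_lit 20, [nat_lit 5, nat_lit 5, nat_lit 5, nat_lit 20], false, nat_lit 160, nat_lit 260, nat_lit 160, nat_lit 320, ⟨nat_lit 1000, nat_lit 0, nat_lit 0, nat_lit 0, nat_lit 0, nat_lit 0, nat_lit 0, nat_lit 0, nat_lit 0, nat_lit 0, nat_lit 0, nat_lit 0, nat_lit 0, nat_lit 0, nat_lit 0, nat_lit 0, false, false⟩,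
 nat_lit 0, nat_lit 0, nat_lit 11313, nat_lit 0, nat_lit 6622, nat_lit 6584, nat_lit 0, nat_lit 0, nat_lit 0, nat_lit 487, nat_lit 0, nat_lit 0, nat_lit 0, nat_lit 0, nat_lit 0, nat_lit 0, nat_lit 0, nat_lit 0, [],
 ⟨p083_k2, nat_lit 0, nat_lit 0, nat_lit 97, nat_lit 0, nat_lit 0, [nat_lit 2032000001, nat_lit 6250000000, nat_lit 9842000000], [], [nat_lit 27127375640, nat_lit 29742365920, nat_lit 32019768685, nat_lit 34090022300, nat_lit 29233058466, nat_lit 31370634210, nat_lit 33258632660, nat_lit 35211757441], nat_lit 0, nat_lit 0, nat_lit 0, nat_lit 0, nat_lit 0, nat_lit 0, [], [nat_lit 61, nat_lit 40, nat_lit 40, nat_lit 80, nat_lit 1, nat_lit 289, nat_lit 75, nat_lit 7]⟩, ⟨p083_k20, nat_lit 0, nat_lit 0, nat_lit 351, nat_lit 0, nat_lit 474018, [nat_lit 4688000000, nat_lit 9842000000, nat_lit 11872000000], [], [nat_lit 36693628158, nat_lit 36836353294, nat_lit 39188647752, nat_lit 39305886016, nat_lit 38132977152,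 nat_lit 38246125256, nat_lit 40366239306, nat_lit 40456346609], nat_lit 1271250, nat_lit 1271250, nat_lit 1271250, nat_lit 1271250, nat_lit 1100001, nat_lit 2470000, [nat_lit 1100000, nat_lit 2127500, nat_lit 1271250], [nat_lit 125, nat_lit 40, nat_lit 40, nat_lit 80, nat_lit 41, nat_lit 373, nat_lit 150, nat_lit 9]⟩,
 zbF0, [⟨nat_lit 13, nat_lit 63, nat_lit 61, nat_lit 100, nat_lit 78794802⟩, ⟨nat_lit 4, nat_lit 100, nat_lit 72, nat_lit 76, nat_lit 532319608⟩, ⟨nat_lit 7, nat_lit 91, nat_lit 100, nat_lit 80, nat_lit 325577333⟩]⟩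
noncomputable def p083_l127 : Lf2 := ⟨nat_lit 0, nat_lit 20, [nat_lit 5, nat_lit 5, nat_lit 5, nat_lit 20], false, nat_lit 160, nat_lit 260, nat_lit 160, nat_lit 308, ⟨nat_lit 1000, nat_lit 0, nat_lit 0, nat_lit 0, nat_lit 0, nat_lit 0, nat_lit 0, nat_lit 0, nat_lit 0, nat_lit 0, nat_lit 0, nat_lit 0, nat_lit 0, nat_lit 0, nat_lit 0, nat_lit 0, false, false⟩,
 nat_lit 0, nat_lit 0, nat_lit 10836, nat_lit 0, nat_lit 6579, nat_lit 6599, nat_lit 0, nat_lit 0, nat_lit 0, nat_lit 537, nat_lit 0, nat_lit 0, nat_lit 0, nat_lit 0, nat_lit 0, nat_lit 0, nat_lit 0, nat_lit 0, [],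
 ⟨p083_k2, nat_lit 0, nat_lit 0, nat_lit 99, nat_lit 0, nat_lit 0, [nat_lit 2032000001, nat_lit 6250000000, nat_lit 9842000000], [], [nat_lit 27153793980, nat_lit 29759421440, nat_lit 32311830433, nat_lit 34345682176, nat_lit 29260909437, nat_lit 31391637345, nat_lit 33508281789, nat_lit 35420693923], nat_lit 0, nat_lit 0, nat_lit 0, nat_lit 0, nat_lit 0, nat_lit 0, [], [nat_lit 61, nat_lit 40, nat_lit 40, nat_lit 80, nat_lit 1, nat_lit 289, nat_lit 75, nat_lit 7]⟩, ⟨p083_k22, nat_lit 0, nat_lit 0, nat_lit 366, nat_lit 0, nat_lit 512641, [nat_lit 4688000000, nat_lit 9842000000, nat_lit 11872000000], [], [nat_lit 35013250412, nat_lit 35182235573, nat_lit 37753365755, nat_lit 37893805058, nat_lit 36408838299, nat_lit 36528646659, nat_lit 38799092348, nat_lit 38892563322], nat_lit 1271250, nat_lit 1271250, nat_lit 1271250, nat_lit 1271250, nat_lit 1100001, nat_lit 2367250, [nat_lit 1100000, nat_lit 2127500, nat_lit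 1271250], [nat_lit 125, nat_lit 40, nat_lit 40, nat_lit 80, nat_lit 41, nat_lit 373, nat_lit 150, nat_lit 8]⟩,
 zbF0, [⟨nat_lit 13, nat_lit 64, nat_lit 58, nat_lit 100, nat_lit 87916508⟩, ⟨nat_lit 4, nat_lit 100, nat_lit 72, nat_lit 76, nat_lit 532684169⟩, ⟨nat_lit 7, nat_lit 96, nat_lit 100, nat_lit 82, nat_lit 311360792⟩]⟩
noncomputable def p083_l128 : Lf2 := ⟨nat_lit 1, nat_lit 20, [nat_lit 5, nat_lit 5, nat_lit 5, nat_lit 20], false, nat_lit 160, nat_lit 260, nat_lit 16, nat_lit 320, zbN0,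
 nat_lit 0, nat_lit 0, nat_lit 0, nat_lit 0, nat_lit 0, nat_lit 0, nat_lit 0, nat_lit 0, nat_lit 0, nat_lit 0, nat_lit 0, nat_lit 0, nat_lit 0, nat_lit 0, nat_lit 0, nat_lit 0, nat_lit 0, nat_lit 0, [],
 C1.Rw.none, C1.Rw.none,
 zbF0, []⟩
noncomputable def b_V_800_600_10_28 : St := ⟨true, nat_lit 0, nat_lit 1, nat_lit 1, nat_lit 80, nat_lit 320, nat_lit 360, nat_lit 240, nat_lit 280, nat_lit 240, nat_lit 396, nat_lit 40, nat_lit 80, nat_lit 160, nat_lit 260, nat_lit 0, nat_lit 336, nat_lit 80, nat_lit 120, nat_lit 0, nat_lit 0, nat_lit 0, nat_lit 0⟩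
theorem d_V_800_600_10_28 (h : EB TB.env) : Dead b_V_800_600_10_28 := chkB_sound0 h (T :=
(.spl (nat_lit 2) (nat_lit 320)
(.spl (nat_lit 0) (nat_lit 340)
(.leaf p083_l115)
(.trX (nat_lit 16) (nat_lit 72) (nat_lit 100) (nat_lit 81) (nat_lit 232) (.spl (nat_lit 0) (nat_lit 350)
(.leaf p083_l116)
(.trX (nat_lit 16) (nat_lit 66) (nat_lit 100) (nat_lit 80) (nat_lit 216) (.leaf p083_l117)))))
(.trZ (nat_lit 9) (nat_lit 100) (nat_lit 82) (nat_lit 44) (nat_lit 16) (.spl (nat_lit 1) (nat_lit 260)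
(.trX (nat_lit 13) (nat_lit 84) (nat_lit 35) (nat_lit 100) (nat_lit 392) (.spl (nat_lit 3) (nat_lit 60)
(.trX (nat_lit 16) (nat_lit 81) (nat_lit 100) (nat_lit 72) (nat_lit 232) (.trX (nat_lit 19) (nat_lit 100) (nat_lit 85) (nat_lit 73) (nat_lit 312) (.spl (nat_lit 6) (nat_lit 112)
(.spl (nat_lit 0) (nat_lit 340)
(.leaf p083_l118)
(.trX (nat_lit 13) (nat_lit 75) (nat_lit 48) (nat_lit 100) (nat_lit 380) (.trX (nat_lit 16) (nat_lit 71) (nat_lit 100) (nat_lit 71) (nat_lit 208) (.leaf p083_l119))))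
(.leaf p083_l120))))
(.spl (nat_lit 6) (nat_lit 104)
(.spl (nat_lit 0) (nat_lit 340)
(.leaf p083_l121)
(.trX (nat_lit 13) (nat_lit 75) (nat_lit 48) (nat_lit 100) (nat_lit 380) (.trX (nat_lit 16) (nat_lit 72) (nat_lit 100) (nat_lit 81) (nat_lit 232) (.leaf p083_l122))))
(.leaf p083_l123))))
(.trX (nat_lit 19) (nat_lit 100) (nat_lit 85) (nat_lit 84) (nat_lit 320) (.spl (nat_lit 3) (nat_lit 60)
(.trX (nat_lit 16) (nat_lit 81) (nat_lit 100) (nat_lit 72) (nat_lit 232) (.trX (nat_lit 19) (nat_lit 100) (nat_lit 92) (nat_lit 75) (nat_lit 296) (.leaf p083_l124)))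
(.spl (nat_lit 6) (nat_lit 112)
(.spl (nat_lit 5) (nat_lit 160)
(.leaf p083_l125)
(.spl (nat_lit 1) (nat_lit 270)
(.trX (nat_lit 13) (nat_lit 85) (nat_lit 30) (nat_lit 100) (nat_lit 392) (.leaf p083_l126))
(.trX (nat_lit 19) (nat_lit 100) (nat_lit 90) (nat_lit 85) (nat_lit 308) (.leaf p083_l127))))
(.leaf p083_l128)))))))) (by decide +kernel)
noncomputable def p083_l129 : Lf2 := ⟨nat_lit 0, nat_lit 20, [nat_lit 5, nat_lit 5, nat_lit 5, nat_lit 20], true, nat_lit 0, nat_lit 260, nat_lit 0, nat_lit 336, ⟨nat_lit 0, nat_lit 1000, nat_lit 0, nat_lit 6, nat_lit 195, nat_lit 1000, nat_lit 89, nat_lit 0, nat_lit 0, nat_lit 0, nat_lit 0, nat_lit 0, nat_lit 0, nat_lit 0, nat_lit 0, nat_lit 5000000, false, false⟩,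
 nat_lit 0, nat_lit 0, nat_lit 0, nat_lit 3587, nat_lit 6420, nat_lit 0, nat_lit 67, nat_lit 0, nat_lit 0, nat_lit 0, nat_lit 0, nat_lit 0, nat_lit 0, nat_lit 0, nat_lit 0, nat_lit 250000, nat_lit 0, nat_lit 0, [(nat_lit 19, [(nat_lit 0, nat_lit 1000)]), (nat_lit 22, [(nat_lit 0, nat_lit 1000)])],
 ⟨p083_k2, nat_lit 0, nat_lit 0, nat_lit 283, nat_lit 0, nat_lit 0, [nat_lit 1568000001, nat_lit 2605200001, nat_lit 3236666667], [], [nat_lit 27831825788, nat_lit 30549002860, nat_lit 27851374124, nat_lit 30222686342, nat_lit 25370562156, nat_lit 27312896995, nat_lit 24713575442, nat_lit 26875492200], nat_lit 0, nat_lit 0, nat_lit 0, nat_lit 0, nat_lit 0, nat_lit 0, [], [nat_lit 61, nat_lit 40, nat_lit 40, nat_lit 80, nat_lit 1, nat_lit 345, nat_lit 125, nat_lit 10]⟩, C1.Rw.none,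
 ⟨nat_lit 3162, nat_lit 4473, ⟨.ofNat (nat_lit 311562), .ofNat (nat_lit 611007), .ofNat (nat_lit 354514), .ofNat (nat_lit 653959), .ofNat (nat_lit 336623), .ofNat (nat_lit 605159), .ofNat (nat_lit 380752), .ofNat (nat_lit 649288)⟩, ⟨.negSucc (nat_lit 12437), .ofNat (nat_lit 429433), .ofNat (nat_lit 0), .ofNat (nat_lit 472567), .ofNat (nat_lit 0), .ofNat (nat_lit 414188), .ofNat (nat_lit 0), .ofNat (nat_lit 458499)⟩⟩, []⟩
noncomputable def p083_l130 : Lf2 := ⟨nat_lit 0, nat_lit 20, [nat_lit 5, nat_lit 5, nat_lit 5, nat_lit 20], false, nat_lit 0, nat_lit 260, nat_lit 0, nat_lit 336, ⟨nat_lit 827, nat_lit 173, nat_lit 0, nat_lit 6, nat_lit 302, nat_lit 173, nat_lit 89, nat_lit 0, nat_lit 0, nat_lit 0, nat_lit 0, nat_lit 0, nat_lit 0, nat_lit 0, nat_lit 0, nat_lit 5000000, true, true⟩,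
 nat_lit 0, nat_lit 0, nat_lit 0, nat_lit 5361, nat_lit 7345, nat_lit 9885, nat_lit 91, nat_lit 0, nat_lit 0, nat_lit 207, nat_lit 0, nat_lit 0, nat_lit 0, nat_lit 0, nat_lit 0, nat_lit 43250, nat_lit 0, nat_lit 0, [(nat_lit 19, [(nat_lit 0, nat_lit 173)]), (nat_lit 22, [(nat_lit 0, nat_lit 173)])],
 ⟨p083_k2, nat_lit 0, nat_lit 0, nat_lit 224, nat_lit 0, nat_lit 0, [nat_lit 1951728000, nat_lit 5619449601, nat_lit 8671966400], [], [nat_lit 33082133536, nat_lit 36044630575, nat_lit 42410154625, nat_lit 44486192827, nat_lit 29695486766, nat_lit 31499228545, nat_lit 35819847896, nat_lit 37261427849], nat_lit 0, nat_lit 0, nat_lit 0, nat_lit 0, nat_lit 0, nat_lit 0, [], [nat_lit 61, nat_lit 40, nat_lit 40, nat_lit 80, nat_lit 1, nat_lit 401, nat_lit 175, nat_lit 11]⟩, ⟨p083_k11, nat_lit 0, nat_lit 0, nat_lit 291, nat_lit 0, nat_lit 0, [nat_lit 3876976000, nat_lit 8139334000, nat_lit 11625966000], [], [nat_lit 33329844432,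 nat_lit 35255714776, nat_lit 43628584238, nat_lit 44352966236, nat_lit 28505106673, nat_lit 29223290944, nat_lit 33436911929, nat_lit 33828729637], nat_lit 0, nat_lit 0, nat_lit 0, nat_lit 0, nat_lit 0, nat_lit 0, [], [nat_lit 56, nat_lit 40, nat_lit 40, nat_lit 80, nat_lit 32, nat_lit 538, nat_lit 300, nat_lit 12]⟩,
 ⟨nat_lit 3162, nat_lit 4473, ⟨.ofNat (nat_lit 611007), .ofNat (nat_lit 876224), .ofNat (nat_lit 653959), .ofNat (nat_lit 919290), .ofNat (nat_lit 605159), .ofNat (nat_lit 842980), .ofNat (nat_lit 649288), .ofNat (nat_lit 887222)⟩, ⟨.negSucc (nat_lit 12437), .ofNat (nat_lit 429433), .ofNat (nat_lit 0), .ofNat (nat_lit 472567), .ofNat (nat_lit 0), .ofNat (nat_lit 414188), .ofNat (nat_lit 0), .ofNat (nat_lit 458499)⟩⟩, [⟨nat_lit 16, nat_lit 71, nat_lit 100, nat_lit 71, nat_lit 26847914⟩]⟩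
noncomputable def p083_l131 : Lf2 := ⟨nat_lit 0, nat_lit 20, [nat_lit 5, nat_lit 5, nat_lit 5, nat_lit 20], true, nat_lit 0, nat_lit 260, nat_lit 0, nat_lit 336, ⟨nat_lit 0, nat_lit 1000, nat_lit 0, nat_lit 6, nat_lit 195, nat_lit 1000, nat_lit 89, nat_lit 0, nat_lit 0, nat_lit 0, nat_lit 0, nat_lit 0, nat_lit 0, nat_lit 0, nat_lit 0, nat_lit 5000000, false, false⟩,
 nat_lit 0, nat_lit 0, nat_lit 0, nat_lit 3587, nat_lit 6420, nat_lit 0, nat_lit 67, nat_lit 0, nat_lit 0, nat_lit 0, nat_lit 0, nat_lit 0, nat_lit 0, nat_lit 0, nat_lit 0, nat_lit 250000, nat_lit 0, nat_lit 0, [(nat_lit 19, [(nat_lit 0, nat_lit 1000)]), (nat_lit 22, [(nat_lit 0, nat_lit 1000)])],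
 ⟨p083_k2, nat_lit 0, nat_lit 0, nat_lit 283, nat_lit 0, nat_lit 0, [nat_lit 1568000001, nat_lit 2605200001, nat_lit 3236666667], [], [nat_lit 27831825788, nat_lit 30549002860, nat_lit 27851374124, nat_lit 30222686342, nat_lit 25370562156, nat_lit 27312896995, nat_lit 24713575442, nat_lit 26875492200], nat_lit 0, nat_lit 0, nat_lit 0, nat_lit 0, nat_lit 0, nat_lit 0, [], [nat_lit 61, nat_lit 40, nat_lit 40, nat_lit 80, nat_lit 1, nat_lit 345, nat_lit 125, nat_lit 10]⟩, C1.Rw.none,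
 ⟨nat_lit 3162, nat_lit 4473, ⟨.ofNat (nat_lit 311562), .ofNat (nat_lit 611007), .ofNat (nat_lit 354514), .ofNat (nat_lit 653959), .ofNat (nat_lit 336623), .ofNat (nat_lit 605159), .ofNat (nat_lit 380752), .ofNat (nat_lit 649288)⟩, ⟨.negSucc (nat_lit 12437), .ofNat (nat_lit 429433), .ofNat (nat_lit 0), .ofNat (nat_lit 472567), .ofNat (nat_lit 0), .ofNat (nat_lit 414188), .ofNat (nat_lit 0), .ofNat (nat_lit 458499)⟩⟩, []⟩
noncomputable def p083_l132 : Lf2 := ⟨nat_lit 0, nat_lit 20, [nat_lit 5, nat_lit 5, nat_lit 5, nat_lit 20], true, nat_lit 0, nat_lit 160, nat_lit 0, nat_lit 336, ⟨nat_lit 0, nat_lit 1000, nat_lit 0, nat_lit 6, nat_lit 302, nat_lit 1000, nat_lit 57, nat_lit 0, nat_lit 0, nat_lit 0, nat_lit 0, nat_lit 0, nat_lit 0, nat_lit 0, nat_lit 0, nat_lit 5000000, true, true⟩,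
 nat_lit 0, nat_lit 0, nat_lit 0, nat_lit 5044, nat_lit 3443, nat_lit 0, nat_lit 99, nat_lit 0, nat_lit 0, nat_lit 0, nat_lit 0, nat_lit 0, nat_lit 0, nat_lit 0, nat_lit 0, nat_lit 400000, nat_lit 0, nat_lit 0, [(nat_lit 19, [(nat_lit 1, nat_lit 1000)]), (nat_lit 22, [(nat_lit 1, nat_lit 1000)])],
 ⟨p083_k6, nat_lit 0, nat_lit 0, nat_lit 214, nat_lit 0, nat_lit 0, [nat_lit 1398133334, nat_lit 2037600000, nat_lit 1832000000], [], [nat_lit 25129145305, nat_lit 27020308663, nat_lit 31202292505, nat_lit 32756767110, nat_lit 24528547989, nat_lit 26129068841, nat_lit 29583754022, nat_lit 30751656015], nat_lit 0, nat_lit 0, nat_lit 0, nat_lit 0, nat_lit 0, nat_lit 0, [], [nat_lit 27, nat_lit 40, nat_lit 40, nat_lit 80, nat_lit 13, nat_lit 373, nat_lit 150, nat_lit 10]⟩, C1.Rw.none,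
 ⟨nat_lit 3162, nat_lit 4473, ⟨.ofNat (nat_lit 611007), .ofNat (nat_lit 876224), .ofNat (nat_lit 653959), .ofNat (nat_lit 919290), .ofNat (nat_lit 605159), .ofNat (nat_lit 842980), .ofNat (nat_lit 649288), .ofNat (nat_lit 887222)⟩, ⟨.negSucc (nat_lit 12437), .ofNat (nat_lit 259488), .ofNat (nat_lit 0), .ofNat (nat_lit 302621), .ofNat (nat_lit 0), .ofNat (nat_lit 261805), .ofNat (nat_lit 0), .ofNat (nat_lit 306116)⟩⟩, [⟨nat_lit 13, nat_lit 75, nat_lit 48, nat_lit 100, nat_lit 296026146⟩]⟩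
noncomputable def p083_l133 : Lf2 := ⟨nat_lit 0, nat_lit 20, [nat_lit 5, nat_lit 5, nat_lit 5, nat_lit 20], true, nat_lit 160, nat_lit 260, nat_lit 0, nat_lit 336, ⟨nat_lit 0, nat_lit 1000, nat_lit 0, nat_lit 6, nat_lit 278, nat_lit 1000, nat_lit 145, nat_lit 0, nat_lit 0, nat_lit 0, nat_lit 0, nat_lit 0, nat_lit 0, nat_lit 0, nat_lit 0, nat_lit 5000000, true, true⟩,
 nat_lit 0, nat_lit 0, nat_lit 0, nat_lit 6340, nat_lit 3988, nat_lit 0, nat_lit 0, nat_lit 0, nat_lit 0, nat_lit 0, nat_lit 0, nat_lit 0, nat_lit 0, nat_lit 0, nat_lit 0, nat_lit 250000, nat_lit 0, nat_lit 0, [(nat_lit 19, [(nat_lit 0, nat_lit 1000)]), (nat_lit 22, [(nat_lit 0, nat_lit 1000)])],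
 ⟨p083_k6, nat_lit 0, nat_lit 0, nat_lit 60, nat_lit 0, nat_lit 0, [nat_lit 1568000001, nat_lit 2368400000, nat_lit 3220880000], [], [nat_lit 20407689984, nat_lit 23017101856, nat_lit 24154712560, nat_lit 26328409648, nat_lit 23428983732, nat_lit 25604749024, nat_lit 26521130456, nat_lit 28444086436], nat_lit 0, nat_lit 0, nat_lit 0, nat_lit 0, nat_lit 0, nat_lit 0, [], [nat_lit 27, nat_lit 40, nat_lit 40, nat_lit 80, nat_lit 13, nat_lit 373, nat_lit 150, nat_lit 10]⟩, C1.Rw.none,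
 ⟨nat_lit 3162, nat_lit 4473, ⟨.ofNat (nat_lit 611007), .ofNat (nat_lit 747055), .ofNat (nat_lit 653959), .ofNat (nat_lit 790054), .ofNat (nat_lit 605159), .ofNat (nat_lit 727157), .ofNat (nat_lit 649288), .ofNat (nat_lit 771333)⟩, ⟨.ofNat (nat_lit 259488), .ofNat (nat_lit 429433), .ofNat (nat_lit 302621), .ofNat (nat_lit 472567), .ofNat (nat_lit 261805), .ofNat (nat_lit 414188), .ofNat (nat_lit 306116), .ofNat (nat_lit 458499)⟩⟩, [⟨nat_lit 16, nat_lit 83, nat_lit 100, nat_lit 83, nat_lit 300575993⟩]⟩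
noncomputable def p083_l134 : Lf2 := ⟨nat_lit 0, nat_lit 20, [nat_lit 5, nat_lit 5, nat_lit 5, nat_lit 20], true, nat_lit 160, nat_lit 260, nat_lit 16, nat_lit 336, ⟨nat_lit 0, nat_lit 1000, nat_lit 0, nat_lit 8, nat_lit 328, nat_lit 1000, nat_lit 145, nat_lit 0, nat_lit 0, nat_lit 0, nat_lit 0, nat_lit 0, nat_lit 0, nat_lit 0, nat_lit 0, nat_lit 5000000, true, true⟩,
 nat_lit 0, nat_lit 0, nat_lit 0, nat_lit 7287, nat_lit 5068, nat_lit 0, nat_lit 0, nat_lit 0, nat_lit 0, nat_lit 0, nat_lit 0, nat_lit 0, nat_lit 0, nat_lit 0, nat_lit 0, nat_lit 250000, nat_lit 0, nat_lit 0, [(nat_lit 19, [(nat_lit 0, nat_lit 1000)]), (nat_lit 22, [(nat_lit 0, nat_lit 1000)])],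
 ⟨p083_k6, nat_lit 0, nat_lit 0, nat_lit 108, nat_lit 0, nat_lit 0, [nat_lit 1568000001, nat_lit 2368400000, nat_lit 3220880000], [], [nat_lit 27344724720, nat_lit 29276428336, nat_lit 31174644703, nat_lit 32719180885, nat_lit 29007846448, nat_lit 30615448356, nat_lit 32214497786, nat_lit 33530243141], nat_lit 0, nat_lit 0, nat_lit 0, nat_lit 0, nat_lit 0, nat_lit 0, [], [nat_lit 27, nat_lit 40, nat_lit 40, nat_lit 80, nat_lit 13, nat_lit 289, nat_lit 75, nat_lit 7]⟩, C1.Rw.none,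
 ⟨nat_lit 3162, nat_lit 4473, ⟨.ofNat (nat_lit 747055), .ofNat (nat_lit 876224), .ofNat (nat_lit 790054), .ofNat (nat_lit 919290), .ofNat (nat_lit 727157), .ofNat (nat_lit 842980), .ofNat (nat_lit 771333), .ofNat (nat_lit 887222)⟩, ⟨.ofNat (nat_lit 259488), .ofNat (nat_lit 429433), .ofNat (nat_lit 302621), .ofNat (nat_lit 472567), .ofNat (nat_lit 261805), .ofNat (nat_lit 414188), .ofNat (nat_lit 306116), .ofNat (nat_lit 458499)⟩⟩, [⟨nat_lit 13, nat_lit 87, nat_lit 25, nat_lit 100, nat_lit 357136723⟩, ⟨nat_lit 16, nat_lit 83, nat_lit 100, nat_lit 83, nat_lit 204292335⟩]⟩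
noncomputable def b_V_800_600_10_29 : St := ⟨true, nat_lit 0, nat_lit 2, nat_lit 2, nat_lit 80, nat_lit 320, nat_lit 360, nat_lit 240, nat_lit 280, nat_lit 64, nat_lit 396, nat_lit 40, nat_lit 80, nat_lit 0, nat_lit 260, nat_lit 0, nat_lit 336, nat_lit 80, nat_lit 120, nat_lit 0, nat_lit 0, nat_lit 0, nat_lit 0⟩
theorem d_V_800_600_10_29 (h : EB TB.env) : Dead b_V_800_600_10_29 := chkB_sound0 h (T :=
(.st (nat_lit 1)
(.spl (nat_lit 2) (nat_lit 240)
(.leaf p083_l129)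
(.leaf p083_l130))
(.spl (nat_lit 2) (nat_lit 240)
(.leaf p083_l131)
(.spl (nat_lit 4) (nat_lit 160)
(.leaf p083_l132)
(.spl (nat_lit 2) (nat_lit 320)
(.leaf p083_l133)
(.trZ (nat_lit 9) (nat_lit 100) (nat_lit 82) (nat_lit 44) (nat_lit 16) (.leaf p083_l134))))))) (by decide +kernel)
noncomputable def p083_l135 : Lf2 := ⟨nat_lit 0, nat_lit 15, [nat_lit 30, nat_lit 5, nat_lit 5, nat_lit 20], false, nat_lit 0, nat_lit 160, nat_lit 0, nat_lit 312, ⟨nat_lit 345, nat_lit 0, nat_lit 655, nat_lit 6, nat_lit 194, nat_lit 655, nat_lit 54, nat_lit 655, nat_lit 26667, nat_lit 255, nat_lit 37206, nat_lit 200, nat_lit 54271112, nat_lit 0, nat_lit 0, nat_lit 2430993, false, false⟩,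
 nat_lit 0, nat_lit 5337, nat_lit 0, nat_lit 0, nat_lit 4002, nat_lit 5704, nat_lit 0, nat_lit 0, nat_lit 0, nat_lit 0, nat_lit 0, nat_lit 0, nat_lit 0, nat_lit 0, nat_lit 27, nat_lit 490600, nat_lit 0, nat_lit 0, [(nat_lit 19, [(nat_lit 5, nat_lit 274), (nat_lit 6, nat_lit 381)])],
 ⟨p083_k0, nat_lit 0, nat_lit 0, nat_lit 247, nat_lit 0, nat_lit 111211, [nat_lit 1906945201, nat_lit 1080048600, nat_lit 8203600], [], [nat_lit 18687856140, nat_lit 19325545514, nat_lit 21462492960, nat_lit 22361565874, nat_lit 17718372822, nat_lit 18268515144, nat_lit 21267710569, nat_lit 20583207513], nat_lit 1271250, nat_lit 1271250, nat_lit 382400, nat_lit 1731000, nat_lit 0, nat_lit 1100001, [nat_lit 490000, nat_lit 1427500, nat_lit 1271250], [nat_lit 102, nat_lit 40, nat_lit 40, nat_lit 80, nat_lit 2, nat_lit 317, nat_lit 100, nat_lit 10]⟩, ⟨p083_k21, nat_lit 0, nat_lit 0, nat_lit 274, nat_lit 0, nat_lit 0, [nat_lit 1617360000,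 nat_lit 3395490000, nat_lit 4095840000], [], [nat_lit 13325167448, nat_lit 15128717452, nat_lit 12728529544, nat_lit 13951732472, nat_lit 11446283364, nat_lit 12299642360, nat_lit 9488499369, nat_lit 10005376980], nat_lit 0, nat_lit 0, nat_lit 0, nat_lit 0, nat_lit 0, nat_lit 0, [], [nat_lit 125, nat_lit 40, nat_lit 40, nat_lit 80, nat_lit 41, nat_lit 456, nat_lit 225, nat_lit 12]⟩,
 ⟨nat_lit 4183, nat_lit 4473, ⟨.ofNat (nat_lit 311996), .ofNat (nat_lit 611104), .ofNat (nat_lit 355120), .ofNat (nat_lit 654228), .ofNat (nat_lit 318053), .ofNat (nat_lit 609582), .ofNat (nat_lit 361378), .ofNat (nat_lit 652907)⟩, ⟨.negSucc (nat_lit 12423), .ofNat (nat_lit 259489), .ofNat (nat_lit 0), .ofNat (nat_lit 281055), .negSucc (nat_lit 4612), .ofNat (nat_lit 260409), .ofNat (nat_lit 0), .ofNat (nat_lit 282076)⟩⟩, [⟨nat_lit 0, nat_lit 100, nat_lit 83, nat_lit 98, nat_lit 221548718⟩]⟩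
noncomputable def p083_l136 : Lf2 := ⟨nat_lit 0, nat_lit 15, [nat_lit 30, nat_lit 5, nat_lit 5, nat_lit 20], false, nat_lit 0, nat_lit 160, nat_lit 0, nat_lit 312, ⟨nat_lit 765, nat_lit 0, nat_lit 235, nat_lit 6, nat_lit 199, nat_lit 235, nat_lit 54, nat_lit 235, nat_lit 28017, nat_lit 256, nat_lit 34562, nat_lit 200, nat_lit 53749384, nat_lit 0, nat_lit 0, nat_lit 2486478, false, false⟩,
 nat_lit 0, nat_lit 7576, nat_lit 0, nat_lit 0, nat_lit 5905, nat_lit 15545, nat_lit 287, nat_lit 0, nat_lit 0, nat_lit 0, nat_lit 0, nat_lit 0, nat_lit 0, nat_lit 0, nat_lit 0, nat_lit 235000, nat_lit 0, nat_lit 0, [(nat_lit 19, [(nat_lit 6, nat_lit 235)])],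
 ⟨p083_k23, nat_lit 0, nat_lit 0, nat_lit 275, nat_lit 0, nat_lit 191429, [nat_lit 1981616001, nat_lit 3998794000, nat_lit 4483890000], [], [nat_lit 24102268871, nat_lit 24878142540, nat_lit 25691750245, nat_lit 26540257570, nat_lit 20847517519, nat_lit 21500222823, nat_lit 22561171360, nat_lit 23149175440], nat_lit 1271250, nat_lit 1271250, nat_lit 462650, nat_lit 1737750, nat_lit 0, nat_lit 1100001, [nat_lit 490000, nat_lit 1427500, nat_lit 1271250], [nat_lit 102, nat_lit 40, nat_lit 40, nat_lit 80, nat_lit 2, nat_lit 317, nat_lit 100, nat_lit 10]⟩, ⟨p083_k21, nat_lit 0, nat_lit 0, nat_lit 261, nat_lit 0, nat_lit 0, [nat_lit 3586320000, nat_lit 7529130000, nat_lit 9082080000], [], [nat_lit 29813691781, nat_lit 34448641064, nat_lit 28958914220, nat_lit 32087509480, nat_lit 23582258232, nat_lit 25693149912, nat_lit 18962855532, nat_lit 22154925693], nat_lit 0, nat_lit 0, nat_lit 0, nat_lit 0, nat_lit 0, nat_lit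 0, [], [nat_lit 125, nat_lit 40, nat_lit 40, nat_lit 80, nat_lit 41, nat_lit 456, nat_lit 225, nat_lit 12]⟩,
 ⟨nat_lit 3872, nat_lit 4184, ⟨.ofNat (nat_lit 337921), .ofNat (nat_lit 609582), .ofNat (nat_lit 381245), .ofNat (nat_lit 652906), .ofNat (nat_lit 343550), .ofNat (nat_lit 608101), .ofNat (nat_lit 387127), .ofNat (nat_lit 651678)⟩, ⟨.negSucc (nat_lit 4619), .ofNat (nat_lit 260409), .ofNat (nat_lit 0), .ofNat (nat_lit 282076), .ofNat (nat_lit 0), .ofNat (nat_lit 261131), .ofNat (nat_lit 0), .ofNat (nat_lit 282924)⟩⟩, [⟨nat_lit 0, nat_lit 99, nat_lit 77, nat_lit 100, nat_lit 555227153⟩]⟩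
noncomputable def p083_l137 : Lf2 := ⟨nat_lit 1, nat_lit 15, [nat_lit 30, nat_lit 5, nat_lit 5, nat_lit 20], false, nat_lit 0, nat_lit 160, nat_lit 0, nat_lit 312, zbN0,
 nat_lit 0, nat_lit 0, nat_lit 0, nat_lit 0, nat_lit 0, nat_lit 0, nat_lit 0, nat_lit 0, nat_lit 0, nat_lit 0, nat_lit 0, nat_lit 0, nat_lit 0, nat_lit 0, nat_lit 0, nat_lit 0, nat_lit 0, nat_lit 0, [],
 C1.Rw.none, C1.Rw.none,
 zbF0, []⟩
noncomputable def p083_l138 : Lf2 := ⟨nat_lit 0, nat_lit 20, [nat_lit 5, nat_lit 5, nat_lit 5, nat_lit 20], true, nat_lit 0, nat_lit 160, nat_lit 0, nat_lit 336, ⟨nat_lit 0, nat_lit 0, nat_lit 1000, nat_lit 6, nat_lit 163, nat_lit 706, nat_lit 59, nat_lit 1000, nat_lit 32267, nat_lit 259, nat_lit 35831, nat_lit 261, nat_lit 57422946, nat_lit 0, nat_lit 0, nat_lit 2051331, false, false⟩,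
 nat_lit 0, nat_lit 3594, nat_lit 0, nat_lit 2318, nat_lit 2695, nat_lit 0, nat_lit 45, nat_lit 0, nat_lit 0, nat_lit 0, nat_lit 0, nat_lit 0, nat_lit 0, nat_lit 0, nat_lit 129, nat_lit 400000, nat_lit 0, nat_lit 0, [(nat_lit 19, [(nat_lit 5, nat_lit 1000)])],
 ⟨p083_k2, nat_lit 0, nat_lit 0, nat_lit 290, nat_lit 0, nat_lit 47788, [nat_lit 2117400001, nat_lit 1311300000, nat_lit 268000000], [], [nat_lit 16462083367, nat_lit 17636018397, nat_lit 17475878507, nat_lit 18529102617, nat_lit 16902207439, nat_lit 17910868628, nat_lit 17882697527, nat_lit 18947322273], nat_lit 1271250, nat_lit 1271250, nat_lit 382400, nat_lit 1100001, nat_lit 0, nat_lit 1100001, [nat_lit 490000, nat_lit 1427500, nat_lit 1271250], [nat_lit 61, nat_lit 40, nat_lit 40, nat_lit 80, nat_lit 1, nat_lit 317, nat_lit 100, nat_lit 9]⟩, C1.Rw.none,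
 ⟨nat_lit 3872, nat_lit 4473, ⟨.ofNat (nat_lit 311945), .ofNat (nat_lit 475111), .ofNat (nat_lit 333494), .ofNat (nat_lit 496660), .ofNat (nat_lit 324151), .ofNat (nat_lit 479021), .ofNat (nat_lit 345927), .ofNat (nat_lit 500797)⟩, ⟨.ofNat (nat_lit 0), .ofNat (nat_lit 281055), .ofNat (nat_lit 0), .ofNat (nat_lit 302621), .ofNat (nat_lit 0), .ofNat (nat_lit 282924), .ofNat (nat_lit 0), .ofNat (nat_lit 304717)⟩⟩, [⟨nat_lit 0, nat_lit 100, nat_lit 75, nat_lit 92, nat_lit 11810987⟩]⟩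
noncomputable def p083_l139 : Lf2 := ⟨nat_lit 0, nat_lit 20, [nat_lit 5, nat_lit 5, nat_lit 5, nat_lit 20], false, nat_lit 0, nat_lit 160, nat_lit 0, nat_lit 320, ⟨nat_lit 518, nat_lit 0, nat_lit 482, nat_lit 6, nat_lit 177, nat_lit 482, nat_lit 59, nat_lit 482, nat_lit 32267, nat_lit 259, nat_lit 19503, nat_lit 247, nat_lit 55995877, nat_lit 0, nat_lit 0, nat_lit 2233175, false, false⟩,
 nat_lit 0, nat_lit 6103, nat_lit 0, nat_lit 1509, nat_lit 4576, nat_lit 11268, nat_lit 546, nat_lit 0, nat_lit 0, nat_lit 0, nat_lit 0, nat_lit 0, nat_lit 0, nat_lit 0, nat_lit 0, nat_lit 155600, nat_lit 0, nat_lit 0, [(nat_lit 19, [(nat_lit 4, nat_lit 248), (nat_lit 5, nat_lit 234)])],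
 ⟨p083_k6, nat_lit 0, nat_lit 0, nat_lit 308, nat_lit 0, nat_lit 148827, [nat_lit 1646478400, nat_lit 2276638400, nat_lit 3796050400], [], [nat_lit 19681102538, nat_lit 21351630186, nat_lit 19964220906, nat_lit 21431426058, nat_lit 17876661802, nat_lit 19082263146, nat_lit 18368798496, nat_lit 19646405616], nat_lit 1271250, nat_lit 1271250, nat_lit 490000, nat_lit 1100001, nat_lit 0, nat_lit 1100001, [nat_lit 490000, nat_lit 1100000, nat_lit 2127500], [nat_lit 27, nat_lit 40, nat_lit 40, nat_lit 80, nat_lit 13, nat_lit 317, nat_lit 100, nat_lit 9]⟩, ⟨p083_k7, nat_lit 0, nat_lit 0, nat_lit 235, nat_lit 0, nat_lit 0, [nat_lit 2428384000, nat_lit 4127424000, nat_lit 6149696000], [], [nat_lit 21844222488, nat_lit 23494288696, nat_lit 19185039588, nat_lit 20615698200, nat_lit 16639915500, nat_lit 17347355440, nat_lit 13313159920, nat_lit 14466002200], nat_lit 0, nat_lit 0, nat_lit 0, nat_lit 0, nat_lit 0, nat_lit 0,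 [], [nat_lit 21, nat_lit 40, nat_lit 40, nat_lit 80, nat_lit 14, nat_lit 428, nat_lit 200, nat_lit 11]⟩,
 ⟨nat_lit 3872, nat_lit 4473, ⟨.ofNat (nat_lit 360688), .ofNat (nat_lit 496660), .ofNat (nat_lit 382237), .ofNat (nat_lit 518209), .ofNat (nat_lit 371739), .ofNat (nat_lit 500797), .ofNat (nat_lit 393514), .ofNat (nat_lit 522572)⟩, ⟨.ofNat (nat_lit 0), .ofNat (nat_lit 281055), .ofNat (nat_lit 0), .ofNat (nat_lit 302621), .ofNat (nat_lit 0), .ofNat (nat_lit 282924), .ofNat (nat_lit 0), .ofNat (nat_lit 304717)⟩⟩, [⟨nat_lit 0, nat_lit 100, nat_lit 81, nat_lit 93, nat_lit 593053843⟩]⟩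
noncomputable def p083_l140 : Lf2 := ⟨nat_lit 0, nat_lit 20, [nat_lit 5, nat_lit 5, nat_lit 5, nat_lit 20], false, nat_lit 0, nat_lit 160, nat_lit 0, nat_lit 336, ⟨nat_lit 671, nat_lit 0, nat_lit 329, nat_lit 6, nat_lit 226, nat_lit 329, nat_lit 59, nat_lit 329, nat_lit 32267, nat_lit 259, nat_lit 37112, nat_lit 200, nat_lit 50788003, nat_lit 0, nat_lit 0, nat_lit 2766700, false, false⟩,
 nat_lit 0, nat_lit 7612, nat_lit 0, nat_lit 0, nat_lit 5709, nat_lit 9480, nat_lit 383, nat_lit 0, nat_lit 0, nat_lit 595, nat_lit 0, nat_lit 0, nat_lit 0, nat_lit 0, nat_lit 0, nat_lit 329000, nat_lit 0, nat_lit 0, [(nat_lit 19, [(nat_lit 6, nat_lit 329)])],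
 ⟨p083_k2, nat_lit 0, nat_lit 0, nat_lit 282, nat_lit 0, nat_lit 148827, [nat_lit 1961462401, nat_lit 3098311601, nat_lit 3860911600], [], [nat_lit 22347830628, nat_lit 23690666097, nat_lit 24438877454, nat_lit 26202472346, nat_lit 19639343834, nat_lit 20980425356, nat_lit 24106247159, nat_lit 22768702834], nat_lit 1271250, nat_lit 1271250, nat_lit 1100001, nat_lit 1785000, nat_lit 0, nat_lit 1100001, [nat_lit 490000, nat_lit 1427500, nat_lit 1271250], [nat_lit 61, nat_lit 40, nat_lit 40, nat_lit 80, nat_lit 1, nat_lit 317, nat_lit 100, nat_lit 9]⟩, ⟨p083_k11, nat_lit 0, nat_lit 0, nat_lit 264, nat_lit 0, nat_lit 0, [nat_lit 3145648000, nat_lit 6603982000, nat_lit 9432918000], [], [nat_lit 21587675668, nat_lit 23762312124, nat_lit 23009150336, nat_lit 24720217548, nat_lit 17797159642, nat_lit 18633016189, nat_lit 18047239755, nat_lit 20020244914], nat_lit 0, nat_lit 0, nat_lit 0, nat_lit 0, nat_lit 0, nat_lit 0,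 [], [nat_lit 56, nat_lit 40, nat_lit 40, nat_lit 80, nat_lit 32, nat_lit 456, nat_lit 225, nat_lit 11]⟩,
 ⟨nat_lit 3872, nat_lit 4473, ⟨.ofNat (nat_lit 475111), .ofNat (nat_lit 611083), .ofNat (nat_lit 518209), .ofNat (nat_lit 654181), .ofNat (nat_lit 479021), .ofNat (nat_lit 608080), .ofNat (nat_lit 522572), .ofNat (nat_lit 651631)⟩, ⟨.ofNat (nat_lit 0), .ofNat (nat_lit 281055), .ofNat (nat_lit 0), .ofNat (nat_lit 302621), .ofNat (nat_lit 0), .ofNat (nat_lit 282924), .ofNat (nat_lit 0), .ofNat (nat_lit 304717)⟩⟩, [⟨nat_lit 7, nat_lit 89, nat_lit 100, nat_lit 80, nat_lit 63455978⟩]⟩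
noncomputable def p083_l141 : Lf2 := ⟨nat_lit 1, nat_lit 20, [nat_lit 5, nat_lit 5, nat_lit 5, nat_lit 20], false, nat_lit 0, nat_lit 160, nat_lit 0, nat_lit 336, zbN0,
 nat_lit 0, nat_lit 0, nat_lit 0, nat_lit 0, nat_lit 0, nat_lit 0, nat_lit 0, nat_lit 0, nat_lit 0, nat_lit 0, nat_lit 0, nat_lit 0, nat_lit 0, nat_lit 0, nat_lit 0, nat_lit 0, nat_lit 0, nat_lit 0, [],
 C1.Rw.none, C1.Rw.none,
 zbF0, []⟩
noncomputable def p083_l142 : Lf2 := ⟨nat_lit 1, nat_lit 20, [nat_lit 5, nat_lit 5, nat_lit 5, nat_lit 20], false, nat_lit 0, nat_lit 160, nat_lit 0, nat_lit 336, zbN0,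
 nat_lit 0, nat_lit 0, nat_lit 0, nat_lit 0, nat_lit 0, nat_lit 0, nat_lit 0, nat_lit 0, nat_lit 0, nat_lit 0, nat_lit 0, nat_lit 0, nat_lit 0, nat_lit 0, nat_lit 0, nat_lit 0, nat_lit 0, nat_lit 0, [],
 C1.Rw.none, C1.Rw.none,
 zbF0, []⟩
noncomputable def p083_l143 : Lf2 := ⟨nat_lit 0, nat_lit 15, [nat_lit 30, nat_lit 5, nat_lit 5, nat_lit 20], false, nat_lit 0, nat_lit 160, nat_lit 0, nat_lit 312, ⟨nat_lit 846, nat_lit 0, nat_lit 154, nat_lit 6, nat_lit 204, nat_lit 154, nat_lit 54, nat_lit 154, nat_lit 28017, nat_lit 256, nat_lit 31972, nat_lit 200, nat_lit 53198673, nat_lit 0, nat_lit 0, nat_lit 2542973, false, false⟩,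
 nat_lit 0, nat_lit 6281, nat_lit 0, nat_lit 0, nat_lit 5084, nat_lit 17253, nat_lit 550, nat_lit 0, nat_lit 0, nat_lit 0, nat_lit 0, nat_lit 0, nat_lit 0, nat_lit 0, nat_lit 0, nat_lit 154000, nat_lit 0, nat_lit 0, [(nat_lit 22, [(nat_lit 6, nat_lit 154)])],
 ⟨p083_k15, nat_lit 0, nat_lit 0, nat_lit 357, nat_lit 0, nat_lit 361337, [nat_lit 1835619201, nat_lit 3601560801, nat_lit 5378644000], [], [nat_lit 22037193052, nat_lit 24736181722, nat_lit 25125351096, nat_lit 27190657872, nat_lit 19291772977, nat_lit 20447928210, nat_lit 24169985153, nat_lit 23037180240], nat_lit 1271250, nat_lit 1271250, nat_lit 545600, nat_lit 1744500, nat_lit 0, nat_lit 1100001, [nat_lit 490000, nat_lit 1100000, nat_lit 1785000], [nat_lit 34, nat_lit 40, nat_lit 40, nat_lit 80, nat_lit 7, nat_lit 317, nat_lit 100, nat_lit 10]⟩, ⟨p083_k16, nat_lit 0, nat_lit 0, nat_lit 230, nat_lit 0, nat_lit 0, [nat_lit 3966048000, nat_lit 6740928000,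 nat_lit 10043712000], [], [nat_lit 31860972130, nat_lit 36925759311, nat_lit 32040892548, nat_lit 35509668192, nat_lit 24946492886, nat_lit 27241285529, nat_lit 20926197299, nat_lit 24522764789], nat_lit 0, nat_lit 0, nat_lit 0, nat_lit 0, nat_lit 0, nat_lit 0, [], [nat_lit 21, nat_lit 40, nat_lit 40, nat_lit 80, nat_lit 14, nat_lit 456, nat_lit 225, nat_lit 12]⟩,
 ⟨nat_lit 3162, nat_lit 3873, ⟨.ofNat (nat_lit 362778), .ofNat (nat_lit 608082), .ofNat (nat_lit 406307), .ofNat (nat_lit 651611), .ofNat (nat_lit 373492), .ofNat (nat_lit 605237), .ofNat (nat_lit 417744), .ofNat (nat_lit 649490)⟩, ⟨.ofNat (nat_lit 0), .ofNat (nat_lit 261131), .ofNat (nat_lit 0), .ofNat (nat_lit 282924), .ofNat (nat_lit 0), .ofNat (nat_lit 261806), .ofNat (nat_lit 0), .ofNat (nat_lit 283961)⟩⟩, [⟨nat_lit 0, nat_lit 100, nat_lit 69, nat_lit 96, nat_lit 542202329⟩]⟩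
noncomputable def p083_l144 : Lf2 := ⟨nat_lit 0, nat_lit 20, [nat_lit 5, nat_lit 5, nat_lit 5, nat_lit 20], false, nat_lit 0, nat_lit 160, nat_lit 0, nat_lit 336, ⟨nat_lit 140, nat_lit 0, nat_lit 860, nat_lit 6, nat_lit 199, nat_lit 860, nat_lit 59, nat_lit 860, nat_lit 32267, nat_lit 259, nat_lit 7340, nat_lit 203, nat_lit 53669871, nat_lit 0, nat_lit 0, nat_lit 2494765, false, false⟩,
 nat_lit 0, nat_lit 3441, nat_lit 0, nat_lit 54, nat_lit 2785, nat_lit 1851, nat_lit 0, nat_lit 0, nat_lit 0, nat_lit 112, nat_lit 0, nat_lit 0, nat_lit 0, nat_lit 0, nat_lit 82, nat_lit 344000, nat_lit 0, nat_lit 0, [(nat_lit 22, [(nat_lit 5, nat_lit 860)])],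
 ⟨p083_k13, nat_lit 0, nat_lit 0, nat_lit 291, nat_lit 0, nat_lit 221869, [nat_lit 1779840001, nat_lit 722244001, nat_lit 4720000], [], [nat_lit 18294814627, nat_lit 19482922695, nat_lit 21364190393, nat_lit 22660919780, nat_lit 18916952069, nat_lit 19930488371, nat_lit 23220030754, nat_lit 22952022684], nat_lit 1271250, nat_lit 1271250, nat_lit 545600, nat_lit 1744500, nat_lit 0, nat_lit 1100001, [nat_lit 490000, nat_lit 1427500, nat_lit 1271250], [nat_lit 102, nat_lit 40, nat_lit 40, nat_lit 80, nat_lit 2, nat_lit 317, nat_lit 100, nat_lit 10]⟩, ⟨p083_k11, nat_lit 0, nat_lit 0, nat_lit 373, nat_lit 0, nat_lit 0, [nat_lit 656320000, nat_lit 1377880000, nat_lit 1968120000], [], [nat_lit 4931885433, nat_lit 5177013054, nat_lit 4865923856, nat_lit 5037969058, nat_lit 4362133422, nat_lit 4463246538, nat_lit 3858599628, nat_lit 3919165541], nat_lit 0, nat_lit 0, nat_lit 0, nat_lit 0, nat_lit 0, nat_lit 0, [], [nat_lit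 56, nat_lit 40, nat_lit 40, nat_lit 80, nat_lit 32, nat_lit 456, nat_lit 225, nat_lit 11]⟩,
 ⟨nat_lit 3162, nat_lit 3873, ⟨.ofNat (nat_lit 362778), .ofNat (nat_lit 608082), .ofNat (nat_lit 384542), .ofNat (nat_lit 629847), .ofNat (nat_lit 373492), .ofNat (nat_lit 605237), .ofNat (nat_lit 395618), .ofNat (nat_lit 627364)⟩, ⟨.ofNat (nat_lit 0), .ofNat (nat_lit 282924), .ofNat (nat_lit 0), .ofNat (nat_lit 304717), .ofNat (nat_lit 0), .ofNat (nat_lit 283961), .ofNat (nat_lit 0), .ofNat (nat_lit 306116)⟩⟩, [⟨nat_lit 19, nat_lit 100, nat_lit 85, nat_lit 78, nat_lit 12595033⟩]⟩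
noncomputable def p083_l145 : Lf2 := ⟨nat_lit 0, nat_lit 20, [nat_lit 5, nat_lit 5, nat_lit 5, nat_lit 20], false, nat_lit 0, nat_lit 160, nat_lit 0, nat_lit 320, ⟨nat_lit 718, nat_lit 0, nat_lit 282, nat_lit 6, nat_lit 213, nat_lit 282, nat_lit 59, nat_lit 282, nat_lit 32267, nat_lit 259, nat_lit 31972, nat_lit 200, nat_lit 52182716, nat_lit 0, nat_lit 0, nat_lit 2641819, false, false⟩,
 nat_lit 0, nat_lit 6154, nat_lit 0, nat_lit 0, nat_lit 4981, nat_lit 15549, nat_lit 212, nat_lit 0, nat_lit 0, nat_lit 0, nat_lit 0, nat_lit 0, nat_lit 0, nat_lit 0, nat_lit 0, nat_lit 282000, nat_lit 0, nat_lit 0, [(nat_lit 22, [(nat_lit 6, nat_lit 282)])],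
 ⟨p083_k13, nat_lit 0, nat_lit 0, nat_lit 315, nat_lit 0, nat_lit 308008, [nat_lit 1839845201, nat_lit 3040755400, nat_lit 3226452000], [], [nat_lit 23574051527, nat_lit 24740790393, nat_lit 25243827844, nat_lit 26987716148, nat_lit 21638224503, nat_lit 22611747900, nat_lit 23140369074, nat_lit 23996656388], nat_lit 1271250, nat_lit 1271250, nat_lit 660400, nat_lit 1753500, nat_lit 0, nat_lit 1100001, [nat_lit 490000, nat_lit 1427500, nat_lit 1271250], [nat_lit 102, nat_lit 40, nat_lit 40, nat_lit 80, nat_lit 2, nat_lit 317, nat_lit 100, nat_lit 10]⟩, ⟨p083_k20, nat_lit 0, nat_lit 0, nat_lit 238, nat_lit 0, nat_lit 0, [nat_lit 3365984000, nat_lit 7066556000, nat_lit 8524096000], [], [nat_lit 28582752432, nat_lit 30783665562, nat_lit 28960083810, nat_lit 30497178336, nat_lit 21322678552, nat_lit 22259569562, nat_lit 20435987810, nat_lit 21973082336], nat_lit 0, nat_lit 0, nat_lit 0, nat_lit 0, nat_lit 0, nat_lit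 0, [], [nat_lit 125, nat_lit 40, nat_lit 40, nat_lit 80, nat_lit 41, nat_lit 456, nat_lit 225, nat_lit 12]⟩,
 ⟨nat_lit 3162, nat_lit 3873, ⟨.ofNat (nat_lit 410364), .ofNat (nat_lit 629847), .ofNat (nat_lit 432129), .ofNat (nat_lit 651611), .ofNat (nat_lit 420013), .ofNat (nat_lit 627364), .ofNat (nat_lit 442139), .ofNat (nat_lit 649490)⟩, ⟨.ofNat (nat_lit 0), .ofNat (nat_lit 282924), .ofNat (nat_lit 0), .ofNat (nat_lit 304717), .ofNat (nat_lit 0), .ofNat (nat_lit 283961), .ofNat (nat_lit 0), .ofNat (nat_lit 306116)⟩⟩, [⟨nat_lit 0, nat_lit 94, nat_lit 62, nat_lit 100, nat_lit 547784864⟩]⟩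
noncomputable def p083_l146 : Lf2 := ⟨nat_lit 1, nat_lit 20, [nat_lit 5, nat_lit 5, nat_lit 5, nat_lit 20], false, nat_lit 0, nat_lit 160, nat_lit 0, nat_lit 336, zbN0,
 nat_lit 0, nat_lit 0, nat_lit 0, nat_lit 0, nat_lit 0, nat_lit 0, nat_lit 0, nat_lit 0, nat_lit 0, nat_lit 0, nat_lit 0, nat_lit 0, nat_lit 0, nat_lit 0, nat_lit 0, nat_lit 0, nat_lit 0, nat_lit 0, [],
 C1.Rw.none, C1.Rw.none,
 zbF0, []⟩
noncomputable def p083_l147 : Lf2 := ⟨nat_lit 0, nat_lit 15, [nat_lit 30, nat_lit 5, nat_lit 5, nat_lit 20], false, nat_lit 160, nat_lit 232, nat_lit 0, nat_lit 312, ⟨nat_lit 253, nat_lit 0, nat_lit 747, nat_lit 6, nat_lit 194, nat_lit 747, nat_lit 132, nat_lit 747, nat_lit 163350, nat_lit 314, nat_lit 37112, nat_lit 200, nat_lit 47723467, nat_lit 0, nat_lit 0, nat_lit 4210292, false, false⟩,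
 nat_lit 0, nat_lit 5195, nat_lit 0, nat_lit 0, nat_lit 3896, nat_lit 4181, nat_lit 0, nat_lit 0, nat_lit 0, nat_lit 0, nat_lit 0, nat_lit 0, nat_lit 0, nat_lit 0, nat_lit 0, nat_lit 186750, nat_lit 0, nat_lit 0, [(nat_lit 19, [(nat_lit 4, nat_lit 747)])],
 ⟨p083_k0, nat_lit 0, nat_lit 0, nat_lit 168, nat_lit 0, nat_lit 204178, [nat_lit 1648340801, nat_lit 903870400, nat_lit 676675800], [], [nat_lit 18252553856, nat_lit 19677860514, nat_lit 21071697721, nat_lit 22130658729, nat_lit 20444880203, nat_lit 21723306273, nat_lit 22686718489, nat_lit 23670846559], nat_lit 1271250, nat_lit 1271250, nat_lit 382400, nat_lit 1731000, nat_lit 1100001, nat_lit 1716500, [nat_lit 490000, nat_lit 1427500, nat_lit 1271250], [nat_lit 102, nat_lit 40, nat_lit 40, nat_lit 80, nat_lit 2, nat_lit 345, nat_lit 125, nat_lit 11]⟩, ⟨p083_k21, nat_lit 0, nat_lit 0, nat_lit 274, nat_lit 0, nat_lit 0, [nat_lit 1186064000, nat_lit 2490026000,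 nat_lit 3003616000], [], [nat_lit 9770589386, nat_lit 11092737332, nat_lit 9333764636, nat_lit 10230502312, nat_lit 8394238169, nat_lit 9019869756, nat_lit 6959618878, nat_lit 7338598707], nat_lit 0, nat_lit 0, nat_lit 0, nat_lit 0, nat_lit 0, nat_lit 0, [], [nat_lit 125, nat_lit 40, nat_lit 40, nat_lit 80, nat_lit 41, nat_lit 456, nat_lit 225, nat_lit 12]⟩,
 ⟨nat_lit 3872, nat_lit 4473, ⟨.ofNat (nat_lit 311945), .ofNat (nat_lit 611083), .ofNat (nat_lit 355043), .ofNat (nat_lit 654181), .ofNat (nat_lit 324151), .ofNat (nat_lit 608080), .ofNat (nat_lit 367703), .ofNat (nat_lit 651631)⟩, ⟨.ofNat (nat_lit 259489), .ofNat (nat_lit 381849), .ofNat (nat_lit 281055), .ofNat (nat_lit 403416), .ofNat (nat_lit 261131), .ofNat (nat_lit 377270), .ofNat (nat_lit 282924), .ofNat (nat_lit 399063)⟩⟩, [⟨nat_lit 0, nat_lit 99, nat_lit 77, nat_lit 100, nat_lit 173677045⟩, ⟨nat_lit 4, nat_lit 100, nat_lit 76, nat_lit 66, nat_lit 371887874⟩]⟩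
noncomputable def p083_l148 : Lf2 := ⟨nat_lit 0, nat_lit 20, [nat_lit 5, nat_lit 5, nat_lit 5, nat_lit 20], true, nat_lit 160, nat_lit 260, nat_lit 0, nat_lit 336, ⟨nat_lit 0, nat_lit 0, nat_lit 1000, nat_lit 6, nat_lit 167, nat_lit 1000, nat_lit 151, nat_lit 1000, nat_lit 89743, nat_lit 288, nat_lit 19328, nat_lit 248, nat_lit 48722192, nat_lit 0, nat_lit 0, nat_lit 4149040, false, false⟩,
 nat_lit 0, nat_lit 5264, nat_lit 0, nat_lit 1363, nat_lit 3947, nat_lit 0, nat_lit 0, nat_lit 0, nat_lit 0, nat_lit 0, nat_lit 0, nat_lit 0, nat_lit 0, nat_lit 0, nat_lit 81, nat_lit 249340, nat_lit 0, nat_lit 0, [(nat_lit 19, [(nat_lit 3, nat_lit 11), (nat_lit 4, nat_lit 989)])],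
 ⟨p083_k2, nat_lit 0, nat_lit 0, nat_lit 146, nat_lit 0, nat_lit 59545, [nat_lit 2314856000, nat_lit 715791600, nat_lit 178295600], [], [nat_lit 17398031871, nat_lit 18066905900, nat_lit 17775463444, nat_lit 18337208028, nat_lit 20411885007, nat_lit 20969212067, nat_lit 20441120804, nat_lit 21141024794], nat_lit 1271250, nat_lit 1271250, nat_lit 382400, nat_lit 1100001, nat_lit 1100001, nat_lit 1956250, [nat_lit 490000, nat_lit 1427500, nat_lit 1271250], [nat_lit 61, nat_lit 40, nat_lit 40, nat_lit 80, nat_lit 1, nat_lit 345, nat_lit 125, nat_lit 9]⟩, C1.Rw.none,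
 ⟨nat_lit 4183, nat_lit 4473, ⟨.ofNat (nat_lit 311996), .ofNat (nat_lit 475145), .ofNat (nat_lit 355120), .ofNat (nat_lit 518271), .ofNat (nat_lit 318053), .ofNat (nat_lit 477068), .ofNat (nat_lit 361378), .ofNat (nat_lit 520394)⟩, ⟨.ofNat (nat_lit 281055), .ofNat (nat_lit 451000), .ofNat (nat_lit 302621), .ofNat (nat_lit 472567), .ofNat (nat_lit 282076), .ofNat (nat_lit 447715), .ofNat (nat_lit 303743), .ofNat (nat_lit 469382)⟩⟩, [⟨nat_lit 0, nat_lit 100, nat_lit 83, nat_lit 98, nat_lit 58843562⟩, ⟨nat_lit 4, nat_lit 100, nat_lit 79, nat_lit 77, nat_lit 221572011⟩]⟩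
noncomputable def p083_l149 : Lf2 := ⟨nat_lit 0, nat_lit 20, [nat_lit 5, nat_lit 5, nat_lit 5, nat_lit 20], true, nat_lit 160, nat_lit 244, nat_lit 0, nat_lit 336, ⟨nat_lit 0, nat_lit 0, nat_lit 1000, nat_lit 6, nat_lit 172, nat_lit 1000, nat_lit 145, nat_lit 1000, nat_lit 198017, nat_lit 324, nat_lit 19642, nat_lit 247, nat_lit 48692313, nat_lit 0, nat_lit 0, nat_lit 4142688, false, false⟩,
 nat_lit 0, nat_lit 4518, nat_lit 0, nat_lit 0, nat_lit 3521, nat_lit 0, nat_lit 44, nat_lit 0, nat_lit 0, nat_lit 0, nat_lit 0, nat_lit 0, nat_lit 0, nat_lit 0, nat_lit 81, nat_lit 250000, nat_lit 0, nat_lit 0, [(nat_lit 19, [(nat_lit 4, nat_lit 1000)])],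
 ⟨p083_k12, nat_lit 0, nat_lit 0, nat_lit 167, nat_lit 0, nat_lit 141111, [nat_lit 2166400000, nat_lit 713200000, nat_lit 172800000], [], [nat_lit 17644496888, nat_lit 18236094250, nat_lit 18293576604, nat_lit 18827515316, nat_lit 19821686288, nat_lit 20335380034, nat_lit 20264009619, nat_lit 20891110224], nat_lit 1271250, nat_lit 1271250, nat_lit 462650, nat_lit 1100001, nat_lit 1100001, nat_lit 1819250, [nat_lit 490000, nat_lit 1427500, nat_lit 1271250], [nat_lit 61, nat_lit 40, nat_lit 40, nat_lit 80, nat_lit 1, nat_lit 345, nat_lit 125, nat_lit 9]⟩, C1.Rw.none,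
 ⟨nat_lit 3872, nat_lit 4184, ⟨.ofNat (nat_lit 337921), .ofNat (nat_lit 477065), .ofNat (nat_lit 381245), .ofNat (nat_lit 520388), .ofNat (nat_lit 343550), .ofNat (nat_lit 479052), .ofNat (nat_lit 387127), .ofNat (nat_lit 522628)⟩, ⟨.ofNat (nat_lit 282076), .ofNat (nat_lit 421213), .ofNat (nat_lit 303743), .ofNat (nat_lit 442879), .ofNat (nat_lit 282924), .ofNat (nat_lit 418419), .ofNat (nat_lit 304717), .ofNat (nat_lit 440213)⟩⟩, [⟨nat_lit 0, nat_lit 99, nat_lit 77, nat_lit 100, nat_lit 23568601⟩, ⟨nat_lit 4, nat_lit 100, nat_lit 74, nat_lit 77, nat_lit 192514653⟩]⟩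
noncomputable def p083_l150 : Lf2 := ⟨nat_lit 0, nat_lit 20, [nat_lit 5, nat_lit 5, nat_lit 5, nat_lit 20], false, nat_lit 160, nat_lit 260, nat_lit 0, nat_lit 336, ⟨nat_lit 1000, nat_lit 0, nat_lit 0, nat_lit 0, nat_lit 0, nat_lit 0, nat_lit 0, nat_lit 0, nat_lit 0, nat_lit 0, nat_lit 0, nat_lit 0, nat_lit 0, nat_lit 0, nat_lit 0, nat_lit 0, false, false⟩,
 nat_lit 0, nat_lit 11397, nat_lit 0, nat_lit 0, nat_lit 8547, nat_lit 14126, nat_lit 0, nat_lit 0, nat_lit 0, nat_lit 887, nat_lit 0, nat_lit 0, nat_lit 0, nat_lit 0, nat_lit 0, nat_lit 0, nat_lit 0, nat_lit 0, [],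
 ⟨p083_k2, nat_lit 0, nat_lit 0, nat_lit 91, nat_lit 0, nat_lit 148827, [nat_lit 2032000001, nat_lit 6250000000, nat_lit 9842000000], [], [nat_lit 18192467348, nat_lit 20428253252, nat_lit 21025715532, nat_lit 22914771084, nat_lit 22255460184, nat_lit 24051519321, nat_lit 24319029053, nat_lit 26281261287], nat_lit 1271250, nat_lit 1271250, nat_lit 1100001, nat_lit 1785000, nat_lit 1100001, nat_lit 1956250, [nat_lit 490000, nat_lit 1427500, nat_lit 1271250], [nat_lit 61, nat_lit 40, nat_lit 40, nat_lit 80, nat_lit 1, nat_lit 345, nat_lit 125, nat_lit 9]⟩, ⟨p083_k11, nat_lit 0, nat_lit 0, nat_lit 264, nat_lit 0, nat_lit 0, [nat_lit 4688000000, nat_lit 9842000000, nat_lit 14058000000], [], [nat_lit 32168131360, nat_lit 35408705240, nat_lit 34286566216, nat_lit 36836371440, nat_lit 26521073312, nat_lit 27768960842, nat_lit 26895188386, nat_lit 29835308514], nat_lit 0, nat_lit 0, nat_lit 0, nat_lit 0, nat_lit 0, nat_lit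 0, [], [nat_lit 56, nat_lit 40, nat_lit 40, nat_lit 80, nat_lit 32, nat_lit 456, nat_lit 225, nat_lit 11]⟩,
 zbF0, [⟨nat_lit 4, nat_lit 100, nat_lit 77, nat_lit 77, nat_lit 659542561⟩, ⟨nat_lit 19, nat_lit 100, nat_lit 89, nat_lit 80, nat_lit 94553614⟩]⟩
noncomputable def p083_l151 : Lf2 := ⟨nat_lit 1, nat_lit 20, [nat_lit 5, nat_lit 5, nat_lit 5, nat_lit 20], false, nat_lit 160, nat_lit 260, nat_lit 0, nat_lit 336, zbN0,
 nat_lit 0, nat_lit 0, nat_lit 0, nat_lit 0, nat_lit 0, nat_lit 0, nat_lit 0, nat_lit 0, nat_lit 0, nat_lit 0, nat_lit 0, nat_lit 0, nat_lit 0, nat_lit 0, nat_lit 0, nat_lit 0, nat_lit 0, nat_lit 0, [],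
 C1.Rw.none, C1.Rw.none,
 zbF0, []⟩
noncomputable def p083_l152 : Lf2 := ⟨nat_lit 1, nat_lit 20, [nat_lit 5, nat_lit 5, nat_lit 5, nat_lit 20], false, nat_lit 160, nat_lit 260, nat_lit 0, nat_lit 336, zbN0,
 nat_lit 0, nat_lit 0, nat_lit 0, nat_lit 0, nat_lit 0, nat_lit 0, nat_lit 0, nat_lit 0, nat_lit 0, nat_lit 0, nat_lit 0, nat_lit 0, nat_lit 0, nat_lit 0, nat_lit 0, nat_lit 0, nat_lit 0, nat_lit 0, [],
 C1.Rw.none, C1.Rw.none,
 zbF0, []⟩
noncomputable def p083_l153 : Lf2 := ⟨nat_lit 0, nat_lit 20, [nat_lit 5, nat_lit 5, nat_lit 5, nat_lit 20], false, nat_lit 160, nat_lit 232, nat_lit 0, nat_lit 336, ⟨nat_lit 130, nat_lit 0, nat_lit 870, nat_lit 6, nat_lit 199, nat_lit 870, nat_lit 136, nat_lit 870, nat_lit 173400, nat_lit 317, nat_lit 7423, nat_lit 203, nat_lit 47040402, nat_lit 0, nat_lit 0, nat_lit 4298179, false, false⟩,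
 nat_lit 0, nat_lit 4038, nat_lit 0, nat_lit 0, nat_lit 3268, nat_lit 1720, nat_lit 0, nat_lit 0, nat_lit 0, nat_lit 126, nat_lit 0, nat_lit 0, nat_lit 0, nat_lit 0, nat_lit 73, nat_lit 308700, nat_lit 0, nat_lit 0, [(nat_lit 22, [(nat_lit 4, nat_lit 262), (nat_lit 5, nat_lit 608)])],
 ⟨p083_k13, nat_lit 0, nat_lit 0, nat_lit 191, nat_lit 0, nat_lit 290296, [nat_lit 1832262401, nat_lit 655031200, nat_lit 19184800], [], [nat_lit 17792095615, nat_lit 18368963155, nat_lit 20716616163, nat_lit 21298698683, nat_lit 19655042203, nat_lit 20391078266, nat_lit 22639219448, nat_lit 23252216898], nat_lit 1271250, nat_lit 1271250, nat_lit 545600, nat_lit 1744500, nat_lit 1100001, nat_lit 1716500, [nat_lit 490000, nat_lit 1427500, nat_lit 1271250], [nat_lit 102, nat_lit 40, nat_lit 40, nat_lit 80, nat_lit 2, nat_lit 345, nat_lit 125, nat_lit 11]⟩, ⟨p083_k11, nat_lit 0, nat_lit 0, nat_lit 373, nat_lit 0, nat_lit 0, [nat_lit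 609440000, nat_lit 1279460000, nat_lit 1827540000], [], [nat_lit 4491799137, nat_lit 4620267996, nat_lit 4267711200, nat_lit 4427529220, nat_lit 3799211882, nat_lit 3897210489, nat_lit 3537905889, nat_lit 3635501564], nat_lit 0, nat_lit 0, nat_lit 0, nat_lit 0, nat_lit 0, nat_lit 0, [], [nat_lit 56, nat_lit 40, nat_lit 40, nat_lit 80, nat_lit 32, nat_lit 456, nat_lit 225, nat_lit 11]⟩,
 ⟨nat_lit 3535, nat_lit 3873, ⟨.ofNat (nat_lit 362897), .ofNat (nat_lit 608101), .ofNat (nat_lit 384684), .ofNat (nat_lit 629888), .ofNat (nat_lit 368144), .ofNat (nat_lit 606659), .ofNat (nat_lit 390090), .ofNat (nat_lit 628606)⟩, ⟨.ofNat (nat_lit 261131), .ofNat (nat_lit 377270), .ofNat (nat_lit 304717), .ofNat (nat_lit 420856), .ofNat (nat_lit 261616), .ofNat (nat_lit 374587), .ofNat (nat_lit 305521), .ofNat (nat_lit 418492)⟩⟩, [⟨nat_lit 4, nat_lit 100, nat_lit 69, nat_lit 71, nat_lit 329685328⟩, ⟨nat_lit 7, nat_lit 88, nat_lit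 100, nat_lit 74, nat_lit 17240491⟩]⟩
noncomputable def p083_l154 : Lf2 := ⟨nat_lit 0, nat_lit 20, [nat_lit 5, nat_lit 5, nat_lit 5, nat_lit 20], false, nat_lit 160, nat_lit 216, nat_lit 0, nat_lit 336, ⟨nat_lit 144, nat_lit 0, nat_lit 856, nat_lit 6, nat_lit 203, nat_lit 856, nat_lit 131, nat_lit 856, nat_lit 160067, nat_lit 313, nat_lit 4817, nat_lit 203, nat_lit 47004883, nat_lit 0, nat_lit 0, nat_lit 4275443, false, false⟩,
 nat_lit 0, nat_lit 3665, nat_lit 0, nat_lit 0, nat_lit 3078, nat_lit 1906, nat_lit 0, nat_lit 0, nat_lit 0, nat_lit 116, nat_lit 0, nat_lit 0, nat_lit 0, nat_lit 0, nat_lit 79, nat_lit 339400, nat_lit 0, nat_lit 0, [(nat_lit 22, [(nat_lit 4, nat_lit 20), (nat_lit 5, nat_lit 836)])],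
 ⟨p083_k14, nat_lit 0, nat_lit 0, nat_lit 242, nat_lit 0, nat_lit 364456, [nat_lit 1770368000, nat_lit 710554401, nat_lit 5320000], [], [nat_lit 18429584860, nat_lit 18984004488, nat_lit 21314652080, nat_lit 21882005080, nat_lit 19809448541, nat_lit 20517767012, nat_lit 22724381163, nat_lit 23338955518], nat_lit 1271250, nat_lit 1271250, nat_lit 631250, nat_lit 1751250, nat_lit 1100001, nat_lit 1579500, [nat_lit 490000, nat_lit 1427500, nat_lit 1271250], [nat_lit 102, nat_lit 40, nat_lit 40, nat_lit 80, nat_lit 2, nat_lit 345, nat_lit 125, nat_lit 10]⟩, ⟨p083_k11, nat_lit 0, nat_lit 0, nat_lit 365, nat_lit 0, nat_lit 0, [nat_lit 675072000, nat_lit 1417248000, nat_lit 2024352000], [], [nat_lit 5360051828, nat_lit 5445475204, nat_lit 4997034880, nat_lit 5174103196, nat_lit 4371849710, nat_lit 4473688490, nat_lit 3958661405, nat_lit 4026467576], nat_lit 0, nat_lit 0, nat_lit 0, nat_lit 0, nat_lit 0, nat_lit 0, [],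 [nat_lit 56, nat_lit 40, nat_lit 40, nat_lit 80, nat_lit 32, nat_lit 456, nat_lit 225, nat_lit 11]⟩,
 ⟨nat_lit 3162, nat_lit 3536, ⟨.ofNat (nat_lit 386958), .ofNat (nat_lit 606660), .ofNat (nat_lit 408903), .ofNat (nat_lit 628604), .ofNat (nat_lit 391883), .ofNat (nat_lit 605256), .ofNat (nat_lit 414030), .ofNat (nat_lit 627403)⟩, ⟨.ofNat (nat_lit 261616), .ofNat (nat_lit 349482), .ofNat (nat_lit 305521), .ofNat (nat_lit 393387), .ofNat (nat_lit 261806), .ofNat (nat_lit 347141), .ofNat (nat_lit 306116), .ofNat (nat_lit 391450)⟩⟩, [⟨nat_lit 4, nat_lit 100, nat_lit 63, nat_lit 72, nat_lit 363431655⟩, ⟨nat_lit 7, nat_lit 88, nat_lit 100, nat_lit 74, nat_lit 13670167⟩]⟩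
noncomputable def p083_l155 : Lf2 := ⟨nat_lit 0, nat_lit 20, [nat_lit 5, nat_lit 5, nat_lit 5, nat_lit 20], false, nat_lit 160, nat_lit 232, nat_lit 0, nat_lit 320, ⟨nat_lit 654, nat_lit 0, nat_lit 346, nat_lit 6, nat_lit 213, nat_lit 346, nat_lit 136, nat_lit 346, nat_lit 173400, nat_lit 317, nat_lit 31972, nat_lit 200, nat_lit 45818185, nat_lit 0, nat_lit 0, nat_lit 4412831, false, false⟩,
 nat_lit 0, nat_lit 5885, nat_lit 0, nat_lit 0, nat_lit 4763, nat_lit 14168, nat_lit 187, nat_lit 0, nat_lit 0, nat_lit 0, nat_lit 0, nat_lit 0, nat_lit 0, nat_lit 0, nat_lit 0, nat_lit 346000, nat_lit 0, nat_lit 0, [(nat_lit 22, [(nat_lit 6, nat_lit 346)])],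
 ⟨p083_k13, nat_lit 0, nat_lit 0, nat_lit 283, nat_lit 0, nat_lit 475852, [nat_lit 1796235601, nat_lit 2312416200, nat_lit 2150356000], [], [nat_lit 19456718513, nat_lit 20675865450, nat_lit 21534518224, nat_lit 22852329180, nat_lit 21105047153, nat_lit 22369630748, nat_lit 23255466521, nat_lit 24730640546], nat_lit 1271250, nat_lit 1271250, nat_lit 660400, nat_lit 1753500, nat_lit 1100001, nat_lit 1716500, [nat_lit 490000, nat_lit 1427500, nat_lit 1271250], [nat_lit 102, nat_lit 40, nat_lit 40, nat_lit 80, nat_lit 2, nat_lit 345, nat_lit 125, nat_lit 10]⟩, ⟨p083_k20, nat_lit 0, nat_lit 0, nat_lit 238, nat_lit 0, nat_lit 0, [nat_lit 3065952000, nat_lit 6436668000, nat_lit 7764288000], [], [nat_lit 26037280444, nat_lit 28042567292, nat_lit 26380305552, nat_lit 27780746896, nat_lit 19420328080, nat_lit 20278279292, nat_lit 18616017552, nat_lit 20016458896], nat_lit 0, nat_lit 0, nat_lit 0, nat_lit 0, nat_lit 0, nat_lit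 0, [], [nat_lit 125, nat_lit 40, nat_lit 40, nat_lit 80, nat_lit 41, nat_lit 456, nat_lit 225, nat_lit 12]⟩,
 ⟨nat_lit 3162, nat_lit 3873, ⟨.ofNat (nat_lit 410364), .ofNat (nat_lit 629847), .ofNat (nat_lit 432129), .ofNat (nat_lit 651611), .ofNat (nat_lit 420013), .ofNat (nat_lit 627364), .ofNat (nat_lit 442139), .ofNat (nat_lit 649490)⟩, ⟨.ofNat (nat_lit 261131), .ofNat (nat_lit 377270), .ofNat (nat_lit 304717), .ofNat (nat_lit 420856), .ofNat (nat_lit 261806), .ofNat (nat_lit 371522), .ofNat (nat_lit 306116), .ofNat (nat_lit 415832)⟩⟩, [⟨nat_lit 0, nat_lit 100, nat_lit 71, nat_lit 100, nat_lit 364846175⟩, ⟨nat_lit 4, nat_lit 100, nat_lit 66, nat_lit 72, nat_lit 554478839⟩]⟩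
noncomputable def p083_l156 : Lf2 := ⟨nat_lit 0, nat_lit 20, [nat_lit 5, nat_lit 5, nat_lit 5, nat_lit 20], false, nat_lit 0, nat_lit 260, nat_lit 0, nat_lit 160, ⟨nat_lit 1000, nat_lit 0, nat_lit 0, nat_lit 0, nat_lit 0, nat_lit 0, nat_lit 0, nat_lit 0, nat_lit 0, nat_lit 0, nat_lit 0, nat_lit 0, nat_lit 0, nat_lit 0, nat_lit 0, nat_lit 0, false, false⟩,
 nat_lit 0, nat_lit 7388, nat_lit 0, nat_lit 0, nat_lit 5540, nat_lit 6392, nat_lit 655, nat_lit 0, nat_lit 0, nat_lit 1135, nat_lit 0, nat_lit 0, nat_lit 0, nat_lit 0, nat_lit 0, nat_lit 0, nat_lit 0, nat_lit 0, [],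
 ⟨p083_k6, nat_lit 0, nat_lit 0, nat_lit 437, nat_lit 0, nat_lit 528751, [nat_lit 2032000001, nat_lit 4688000000, nat_lit 9842000000], [], [nat_lit 32877021350, nat_lit 34266682150, nat_lit 37579039745, nat_lit 39051698224, nat_lit 31143107755, nat_lit 32368270975, nat_lit 35454869082, nat_lit 36495113083], nat_lit 1271250, nat_lit 1271250, nat_lit 1271250, nat_lit 1271250, nat_lit 0, nat_lit 1836250, [nat_lit 490000, nat_lit 1100000, nat_lit 2127500], [nat_lit 27, nat_lit 40, nat_lit 40, nat_lit 80, nat_lit 13, nat_lit 401, nat_lit 175, nat_lit 11]⟩, ⟨p083_k4, nat_lit 0, nat_lit 0, nat_lit 278, nat_lit 0, nat_lit 0, [nat_lit 4688000000, nat_lit 7968000000, nat_lit 14058000000], [], [nat_lit 28605072172, nat_lit 30368143980, nat_lit 37369902147, nat_lit 38631890365, nat_lit 24411312524, nat_lit 25682211596, nat_lit 32022707604, nat_lit 33100785722], nat_lit 0, nat_lit 0, nat_lit 0, nat_lit 0, nat_lit 0, nat_lit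 0, [], [nat_lit 37, nat_lit 40, nat_lit 40, nat_lit 80, nat_lit 28, nat_lit 456, nat_lit 225, nat_lit 10]⟩,
 zbF0, [⟨nat_lit 4, nat_lit 100, nat_lit 71, nat_lit 71, nat_lit 266628860⟩]⟩
noncomputable def p083_l157 : Lf2 := ⟨nat_lit 0, nat_lit 20, [nat_lit 5, nat_lit 5, nat_lit 5, nat_lit 20], false, nat_lit 0, nat_lit 260, nat_lit 160, nat_lit 336, ⟨nat_lit 1000, nat_lit 0, nat_lit 0, nat_lit 0, nat_lit 0, nat_lit 0, nat_lit 0, nat_lit 0, nat_lit 0, nat_lit 0, nat_lit 0, nat_lit 0, nat_lit 0, nat_lit 0, nat_lit 0, nat_lit 0, false, false⟩,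
 nat_lit 0, nat_lit 7436, nat_lit 0, nat_lit 0, nat_lit 5576, nat_lit 6214, nat_lit 603, nat_lit 0, nat_lit 0, nat_lit 0, nat_lit 0, nat_lit 0, nat_lit 0, nat_lit 0, nat_lit 0, nat_lit 0, nat_lit 0, nat_lit 0, [],
 ⟨p083_k6, nat_lit 0, nat_lit 0, nat_lit 437, nat_lit 0, nat_lit 528751, [nat_lit 2032000001, nat_lit 4688000000, nat_lit 9842000000], [], [nat_lit 33814871790, nat_lit 35207611310, nat_lit 37985263710, nat_lit 39160347479, nat_lit 31778287902, nat_lit 32755672215, nat_lit 35332189121, nat_lit 36373813541], nat_lit 1271250, nat_lit 1271250, nat_lit 1271250, nat_lit 1271250, nat_lit 0, nat_lit 1836250, [nat_lit 490000, nat_lit 1100000, nat_lit 2127500], [nat_lit 27, nat_lit 40, nat_lit 40, nat_lit 80, nat_lit 13, nat_lit 401, nat_lit 175, nat_lit 11]⟩, ⟨p083_k4, nat_lit 0, nat_lit 0, nat_lit 94, nat_lit 0, nat_lit 0, [nat_lit 4688000000, nat_lit 7968000000, nat_lit 14058000000], [], [nat_lit 14937257536,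 nat_lit 17636992680, nat_lit 27474644876, nat_lit 29223771245, nat_lit 24184810789, nat_lit 25835910240, nat_lit 33205838646, nat_lit 34232054049], nat_lit 0, nat_lit 0, nat_lit 0, nat_lit 0, nat_lit 0, nat_lit 0, [], [nat_lit 37, nat_lit 40, nat_lit 40, nat_lit 80, nat_lit 28, nat_lit 538, nat_lit 300, nat_lit 12]⟩,
 zbF0, [⟨nat_lit 4, nat_lit 100, nat_lit 71, nat_lit 71, nat_lit 245378051⟩, ⟨nat_lit 19, nat_lit 100, nat_lit 92, nat_lit 75, nat_lit 521008311⟩]⟩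
noncomputable def b_V_800_600_10_30 : St := ⟨true, nat_lit 1, nat_lit 0, nat_lit 1, nat_lit 80, nat_lit 320, nat_lit 360, nat_lit 240, nat_lit 280, nat_lit 64, nat_lit 396, nat_lit 40, nat_lit 80, nat_lit 0, nat_lit 260, nat_lit 0, nat_lit 336, nat_lit 80, nat_lit 120, nat_lit 0, nat_lit 0, nat_lit 0, nat_lit 0⟩
theorem d_V_800_600_10_30 (h : EB TB.env) : Dead b_V_800_600_10_30 := chkB_sound0 h (T :=
(.spl (nat_lit 2) (nat_lit 240)
(.spl (nat_lit 4) (nat_lit 160)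
(.spl (nat_lit 0) (nat_lit 340)
(.spl (nat_lit 6) (nat_lit 108)
(.spl (nat_lit 3) (nat_lit 60)
(.trX (nat_lit 19) (nat_lit 100) (nat_lit 85) (nat_lit 73) (nat_lit 312) (.spl (nat_lit 6) (nat_lit 100)
(.spl (nat_lit 0) (nat_lit 330)
(.leaf p083_l135)
(.trZ (nat_lit 0) (nat_lit 100) (nat_lit 78) (nat_lit 81) (nat_lit 76) (.leaf p083_l136)))
(.leaf p083_l137)))
(.spl (nat_lit 6) (nat_lit 96)
(.spl (nat_lit 2) (nat_lit 160)
(.spl (nat_lit 1) (nat_lit 260)
(.leaf p083_l138)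
(.trZ (nat_lit 0) (nat_lit 100) (nat_lit 84) (nat_lit 85) (nat_lit 80) (.trX (nat_lit 19) (nat_lit 100) (nat_lit 85) (nat_lit 84) (nat_lit 320) (.leaf p083_l139))))
(.leaf p083_l140))
(.leaf p083_l141)))
(.leaf p083_l142))
(.trZ (nat_lit 0) (nat_lit 100) (nat_lit 73) (nat_lit 85) (nat_lit 88) (.spl (nat_lit 3) (nat_lit 60)
(.trX (nat_lit 19) (nat_lit 100) (nat_lit 85) (nat_lit 73) (nat_lit 312) (.leaf p083_l143))
(.spl (nat_lit 6) (nat_lit 112)
(.spl (nat_lit 1) (nat_lit 260)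
(.leaf p083_l144)
(.trZ (nat_lit 0) (nat_lit 100) (nat_lit 75) (nat_lit 92) (nat_lit 104) (.trX (nat_lit 19) (nat_lit 100) (nat_lit 85) (nat_lit 84) (nat_lit 320) (.leaf p083_l145))))
(.leaf p083_l146)))))
(.spl (nat_lit 0) (nat_lit 340)
(.spl (nat_lit 6) (nat_lit 108)
(.spl (nat_lit 3) (nat_lit 60)
(.trX (nat_lit 16) (nat_lit 81) (nat_lit 100) (nat_lit 72) (nat_lit 232) (.trX (nat_lit 19) (nat_lit 100) (nat_lit 85) (nat_lit 73) (nat_lit 312) (.leaf p083_l147)))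
(.spl (nat_lit 6) (nat_lit 96)
(.spl (nat_lit 2) (nat_lit 160)
(.spl (nat_lit 0) (nat_lit 330)
(.leaf p083_l148)
(.trZ (nat_lit 0) (nat_lit 100) (nat_lit 78) (nat_lit 81) (nat_lit 76) (.trX (nat_lit 16) (nat_lit 78) (nat_lit 100) (nat_lit 82) (nat_lit 244) (.leaf p083_l149))))
(.leaf p083_l150))
(.leaf p083_l151)))
(.leaf p083_l152))
(.trZ (nat_lit 0) (nat_lit 100) (nat_lit 73) (nat_lit 85) (nat_lit 88) (.trX (nat_lit 16) (nat_lit 72) (nat_lit 100) (nat_lit 81) (nat_lit 232) (.spl (nat_lit 1) (nat_lit 260)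
(.spl (nat_lit 0) (nat_lit 350)
(.leaf p083_l153)
(.trZ (nat_lit 0) (nat_lit 100) (nat_lit 68) (nat_lit 89) (nat_lit 100) (.trX (nat_lit 16) (nat_lit 66) (nat_lit 100) (nat_lit 80) (nat_lit 216) (.leaf p083_l154))))
(.trZ (nat_lit 0) (nat_lit 100) (nat_lit 75) (nat_lit 92) (nat_lit 104) (.trX (nat_lit 19) (nat_lit 100) (nat_lit 85) (nat_lit 84) (nat_lit 320) (.leaf p083_l155))))))))
(.spl (nat_lit 5) (nat_lit 160)
(.leaf p083_l156)
(.leaf p083_l157)))) (by decide +kernel)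

end B2
end Pool.Agent.Lib.MP_6947cd_al
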