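import Pool.Agent.Lib.MP_6947cd_al.ZB.Pre

/-!
Problem MP_6947cd_al (Chollet).  Case B, second entry in [2/5, 17/20]: certificates of the tree, part P085 (generated).
-/

set_option autoImplicit false
set_option linter.all false

namespace Pool.Agent.Lib.MP_6947cd_al
namespace B2

open Ent Fr B1 PkA

noncomputable def p085_k0 : C1.Kn := ⟨[nat_lit 40, nat_lit 60, nat_lit 100], [nat_lit 0, nat_lit 0, nat_lit 1216], [(nat_lit 0, nat_lit 0, nat_lit 0), (nat_lit 0, nat_lit 0, nat_lit 0), (nat_lit 1000, nat_lit 810, nat_lit 474)], (nat_lit 82, nat_lit 100, nat_lit 44)⟩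
noncomputable def p085_k1 : C1.Kn := ⟨[nat_lit 80, nat_lit 100, nat_lit 140], [nat_lit 0, nat_lit 0, nat_lit 1022], [(nat_lit 0, nat_lit 0, nat_lit 0), (nat_lit 0, nat_lit 0, nat_lit 0), (nat_lit 1000, nat_lit 1000, nat_lit 399)], (nat_lit 100, nat_lit 99, nat_lit 44)⟩
noncomputable def p085_k2 : C1.Kn := ⟨[nat_lit 40, nat_lit 60, nat_lit 80], [nat_lit 0, nat_lit 96, nat_lit 704], [(nat_lit 0, nat_lit 0, nat_lit 0), (nat_lit 1000, nat_lit 955, nat_lit 75), (nat_lit 1000, nat_lit 800, nat_lit 450)], (nat_lit 80, nat_lit 100, nat_lit 45)⟩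
noncomputable def p085_k3 : C1.Kn := ⟨[nat_lit 40, nat_lit 60, nat_lit 80], [nat_lit 0, nat_lit 197, nat_lit 800], [(nat_lit 0, nat_lit 0, nat_lit 0), (nat_lit 1000, nat_lit 908, nat_lit 154), (nat_lit 1000, nat_lit 781, nat_lit 471)], (nat_lit 79, nat_lit 100, nat_lit 45)⟩
noncomputable def p085_k4 : C1.Kn := ⟨[nat_lit 40, nat_lit 80, nat_lit 100], [nat_lit 0, nat_lit 0, nat_lit 1280], [(nat_lit 0, nat_lit 0, nat_lit 0), (nat_lit 0, nat_lit 0, nat_lit 0), (nat_lit 1000, nat_lit 800, nat_lit 600)], (nat_lit 82, nat_lit 100, nat_lit 44)⟩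
noncomputable def p085_k5 : C1.Kn := ⟨[nat_lit 80, nat_lit 120], [nat_lit 0, nat_lit 264], [(nat_lit 0, nat_lit 0, nat_lit 0), (nat_lit 1000, nat_lit 979, nat_lit 103)], (nat_lit 99, nat_lit 100, nat_lit 44)⟩
noncomputable def p085_k6 : C1.Kn := ⟨[nat_lit 40, nat_lit 80], [nat_lit 0, nat_lit 0], [(nat_lit 0, nat_lit 0, nat_lit 0), (nat_lit 0, nat_lit 0, nat_lit 0)], (nat_lit 85, nat_lit 100, nat_lit 30)⟩
noncomputable def p085_k7 : C1.Kn := ⟨[nat_lit 80, nat_lit 120], [nat_lit 0, nat_lit 264], [(nat_lit 0, nat_lit 0, nat_lit 0), (nat_lit 1000, nat_lit 979, nat_lit 103)], (nat_lit 97, nat_lit 100, nat_lit 28)⟩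
noncomputable def p085_k8 : C1.Kn := ⟨[nat_lit 40, nat_lit 80], [nat_lit 0, nat_lit 395], [(nat_lit 0, nat_lit 0, nat_lit 0), (nat_lit 1000, nat_lit 908, nat_lit 154)], (nat_lit 80, nat_lit 100, nat_lit 41)⟩
noncomputable def p085_k9 : C1.Kn := ⟨[nat_lit 80, nat_lit 120], [nat_lit 0, nat_lit 264], [(nat_lit 0, nat_lit 0, nat_lit 0), (nat_lit 1000, nat_lit 979, nat_lit 103)], (nat_lit 98, nat_lit 100, nat_lit 40)⟩
noncomputable def p085_k10 : C1.Kn := ⟨[nat_lit 40, nat_lit 80], [nat_lit 0, nat_lit 593], [(nat_lit 0, nat_lit 0, nat_lit 0), (nat_lit 1000, nat_lit 861, nat_lit 231)], (nat_lit 78, nat_lit 100, nat_lit 42)⟩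
noncomputable def p085_k11 : C1.Kn := ⟨[nat_lit 40, nat_lit 80], [nat_lit 0, nat_lit 395], [(nat_lit 0, nat_lit 0, nat_lit 0), (nat_lit 1000, nat_lit 908, nat_lit 154)], (nat_lit 79, nat_lit 100, nat_lit 45)⟩
noncomputable def p085_k12 : C1.Kn := ⟨[nat_lit 80, nat_lit 120], [nat_lit 0, nat_lit 341], [(nat_lit 0, nat_lit 0, nat_lit 0), (nat_lit 1000, nat_lit 973, nat_lit 133)], (nat_lit 98, nat_lit 100, nat_lit 44)⟩
noncomputable def p085_k13 : C1.Kn := ⟨[nat_lit 80, nat_lit 120], [nat_lit 0, nat_lit 395], [(nat_lit 0, nat_lit 0, nat_lit 0), (nat_lit 1000, nat_lit 969, nat_lit 154)], (nat_lit 96, nat_lit 100, nat_lit 28)⟩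
noncomputable def p085_k14 : C1.Kn := ⟨[nat_lit 80, nat_lit 120], [nat_lit 0, nat_lit 395], [(nat_lit 0, nat_lit 0, nat_lit 0), (nat_lit 1000, nat_lit 969, nat_lit 154)], (nat_lit 98, nat_lit 100, nat_lit 44)⟩
noncomputable def p085_k15 : C1.Kn := ⟨[nat_lit 80, nat_lit 120], [nat_lit 0, nat_lit 453], [(nat_lit 0, nat_lit 0, nat_lit 0), (nat_lit 1000, nat_lit 965, nat_lit 177)], (nat_lit 97, nat_lit 100, nat_lit 44)⟩
noncomputable def p085_k16 : C1.Kn := ⟨[nat_lit 80, nat_lit 120], [nat_lit 0, nat_lit 475], [(nat_lit 0, nat_lit 0, nat_lit 0), (nat_lit 1000, nat_lit 963, nat_lit 185)], (nat_lit 97, nat_lit 100, nat_lit 44)⟩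
noncomputable def p085_k17 : C1.Kn := ⟨[nat_lit 40, nat_lit 60, nat_lit 80], [nat_lit 0, nat_lit 0, nat_lit 615], [(nat_lit 0, nat_lit 0, nat_lit 0), (nat_lit 0, nat_lit 0, nat_lit 0), (nat_lit 1000, nat_lit 819, nat_lit 426)], (nat_lit 85, nat_lit 100, nat_lit 30)⟩
noncomputable def p085_k18 : C1.Kn := ⟨[nat_lit 80, nat_lit 100, nat_lit 120], [nat_lit 0, nat_lit 132, nat_lit 640], [(nat_lit 0, nat_lit 0, nat_lit 0), (nat_lit 1000, nat_lit 979, nat_lit 103), (nat_lit 1000, nat_lit 979, nat_lit 397)], (nat_lit 97, nat_lit 100, nat_lit 28)⟩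
noncomputable def p085_k19 : C1.Kn := ⟨[nat_lit 40, nat_lit 60], [nat_lit 0, nat_lit 197], [(nat_lit 0, nat_lit 0, nat_lit 0), (nat_lit 1000, nat_lit 908, nat_lit 154)], (nat_lit 83, nat_lit 100, nat_lit 31)⟩
noncomputable def p085_k20 : C1.Kn := ⟨[nat_lit 80, nat_lit 100, nat_lit 120], [nat_lit 0, nat_lit 132, nat_lit 640], [(nat_lit 0, nat_lit 0, nat_lit 0), (nat_lit 1000, nat_lit 979, nat_lit 103), (nat_lit 1000, nat_lit 979, nat_lit 397)], (nat_lit 99, nat_lit 100, nat_lit 44)⟩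
noncomputable def p085_k21 : C1.Kn := ⟨[nat_lit 40, nat_lit 60, nat_lit 80], [nat_lit 0, nat_lit 297, nat_lit 895], [(nat_lit 0, nat_lit 0, nat_lit 0), (nat_lit 1000, nat_lit 861, nat_lit 231), (nat_lit 1000, nat_lit 767, nat_lit 466)], (nat_lit 77, nat_lit 100, nat_lit 45)⟩
noncomputable def p085_k22 : C1.Kn := ⟨[nat_lit 40, nat_lit 80, nat_lit 100], [nat_lit 0, nat_lit 0, nat_lit 1280], [(nat_lit 0, nat_lit 0, nat_lit 0), (nat_lit 0, nat_lit 0, nat_lit 0), (nat_lit 1000, nat_lit 800, nat_lit 600)], (nat_lit 80, nat_lit 100, nat_lit 60)⟩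
noncomputable def p085_k23 : C1.Kn := ⟨[nat_lit 80, nat_lit 120, nat_lit 160], [nat_lit 0, nat_lit 0, nat_lit 2132], [(nat_lit 0, nat_lit 0, nat_lit 0), (nat_lit 0, nat_lit 0, nat_lit 0), (nat_lit 858, nat_lit 1000, nat_lit 713)], (nat_lit 100, nat_lit 92, nat_lit 61)⟩
noncomputable def p085_k24 : C1.Kn := ⟨[nat_lit 40, nat_lit 80, nat_lit 100], [nat_lit 0, nat_lit 395, nat_lit 1536], [(nat_lit 0, nat_lit 0, nat_lit 0), (nat_lit 1000, nat_lit 908, nat_lit 154), (nat_lit 1000, nat_lit 760, nat_lit 642)], (nat_lit 76, nat_lit 100, nat_lit 60)⟩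
noncomputable def p085_k25 : C1.Kn := ⟨[nat_lit 40, nat_lit 60, nat_lit 100], [nat_lit 0, nat_lit 0, nat_lit 1216], [(nat_lit 0, nat_lit 0, nat_lit 0), (nat_lit 0, nat_lit 0, nat_lit 0), (nat_lit 1000, nat_lit 810, nat_lit 474)], (nat_lit 80, nat_lit 100, nat_lit 60)⟩
noncomputable def p085_k26 : C1.Kn := ⟨[nat_lit 80, nat_lit 100, nat_lit 140], [nat_lit 0, nat_lit 132, nat_lit 1148], [(nat_lit 0, nat_lit 0, nat_lit 0), (nat_lit 1000, nat_lit 979, nat_lit 103), (nat_lit 1000, nat_lit 979, nat_lit 397)], (nat_lit 100, nat_lit 95, nat_lit 62)⟩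
noncomputable def p085_k27 : C1.Kn := ⟨[nat_lit 40, nat_lit 80], [nat_lit 0, nat_lit 795], [(nat_lit 0, nat_lit 0, nat_lit 0), (nat_lit 1000, nat_lit 814, nat_lit 310)], (nat_lit 75, nat_lit 100, nat_lit 46)⟩
noncomputable def p085_k28 : C1.Kn := ⟨[nat_lit 40, nat_lit 80, nat_lit 100], [nat_lit 0, nat_lit 795, nat_lit 1829], [(nat_lit 0, nat_lit 0, nat_lit 0), (nat_lit 1000, nat_lit 814, nat_lit 310), (nat_lit 1000, nat_lit 714, nat_lit 692)], (nat_lit 72, nat_lit 100, nat_lit 61)⟩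
noncomputable def p085_k29 : C1.Kn := ⟨[nat_lit 80, nat_lit 120, nat_lit 140], [nat_lit 0, nat_lit 264, nat_lit 1360], [(nat_lit 0, nat_lit 0, nat_lit 0), (nat_lit 1000, nat_lit 979, nat_lit 103), (nat_lit 951, nat_lit 1000, nat_lit 628)], (nat_lit 100, nat_lit 95, nat_lit 62)⟩
noncomputable def p085_k30 : C1.Kn := ⟨[nat_lit 80, nat_lit 120, nat_lit 140], [nat_lit 0, nat_lit 395, nat_lit 1464], [(nat_lit 0, nat_lit 0, nat_lit 0), (nat_lit 1000, nat_lit 969, nat_lit 154), (nat_lit 957, nat_lit 1000, nat_lit 654)], (nat_lit 100, nat_lit 97, nat_lit 62)⟩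
noncomputable def p085_k31 : C1.Kn := ⟨[nat_lit 80, nat_lit 120], [nat_lit 0, nat_lit 528], [(nat_lit 0, nat_lit 0, nat_lit 0), (nat_lit 1000, nat_lit 959, nat_lit 206)], (nat_lit 96, nat_lit 100, nat_lit 44)⟩
noncomputable def p085_k32 : C1.Kn := ⟨[nat_lit 80, nat_lit 120, nat_lit 140], [nat_lit 0, nat_lit 528, nat_lit 1572], [(nat_lit 0, nat_lit 0, nat_lit 0), (nat_lit 1000, nat_lit 959, nat_lit 206), (nat_lit 966, nat_lit 1000, nat_lit 679)], (nat_lit 100, nat_lit 99, nat_lit 63)⟩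
noncomputable def p085_k33 : C1.Kn := ⟨[nat_lit 40, nat_lit 50, nat_lit 70, nat_lit 100], [nat_lit 0, nat_lit 0, nat_lit 339, nat_lit 1165], [(nat_lit 0, nat_lit 0, nat_lit 0), (nat_lit 0, nat_lit 0, nat_lit 0), (nat_lit 1000, nat_lit 868, nat_lit 263), (nat_lit 1000, nat_lit 818, nat_lit 430)], (nat_lit 80, nat_lit 100, nat_lit 60)⟩
noncomputable def p085_k34 : C1.Kn := ⟨[nat_lit 80, nat_lit 100, nat_lit 140], [nat_lit 0, nat_lit 399, nat_lit 1395], [(nat_lit 0, nat_lit 0, nat_lit 0), (nat_lit 1000, nat_lit 938, nat_lit 310), (nat_lit 1000, nat_lit 938, nat_lit 389)], (nat_lit 98, nat_lit 100, nat_lit 63)⟩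
noncomputable def p085_k35 : C1.Kn := ⟨[nat_lit 80, nat_lit 120, nat_lit 140], [nat_lit 0, nat_lit 796, nat_lit 1801], [(nat_lit 0, nat_lit 0, nat_lit 0), (nat_lit 1000, nat_lit 938, nat_lit 310), (nat_lit 982, nat_lit 1000, nat_lit 736)], (nat_lit 98, nat_lit 100, nat_lit 63)⟩
noncomputable def p085_k36 : C1.Kn := ⟨[nat_lit 40, nat_lit 60, nat_lit 80, nat_lit 100], [nat_lit 0, nat_lit 0, nat_lit 615, nat_lit 1187], [(nat_lit 0, nat_lit 0, nat_lit 0), (nat_lit 0, nat_lit 0, nat_lit 0), (nat_lit 1000, nat_lit 819, nat_lit 426), (nat_lit 1000, nat_lit 815, nat_lit 447)], (nat_lit 80, nat_lit 100, nat_lit 60)⟩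
noncomputable def p085_k37 : C1.Kn := ⟨[nat_lit 20, nat_lit 40, nat_lit 60, nat_lit 100], [nat_lit 0, nat_lit 0, nat_lit 398, nat_lit 1586], [(nat_lit 0, nat_lit 0, nat_lit 0), (nat_lit 0, nat_lit 0, nat_lit 0), (nat_lit 1000, nat_lit 814, nat_lit 310), (nat_lit 1000, nat_lit 752, nat_lit 464)], (nat_lit 72, nat_lit 100, nat_lit 61)⟩
noncomputable def p085_k38 : C1.Kn := ⟨[nat_lit 40, nat_lit 50, nat_lit 70, nat_lit 90], [nat_lit 0, nat_lit 0, nat_lit 339, nat_lit 890], [(nat_lit 0, nat_lit 0, nat_lit 0), (nat_lit 0, nat_lit 0, nat_lit 0), (nat_lit 1000, nat_lit 868, nat_lit 263), (nat_lit 1000, nat_lit 818, nat_lit 430)], (nat_lit 82, nat_lit 100, nat_lit 44)⟩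
noncomputable def p085_k39 : C1.Kn := ⟨[nat_lit 80, nat_lit 100, nat_lit 120], [nat_lit 0, nat_lit 265, nat_lit 768], [(nat_lit 0, nat_lit 0, nat_lit 0), (nat_lit 1000, nat_lit 959, nat_lit 206), (nat_lit 1000, nat_lit 958, nat_lit 392)], (nat_lit 96, nat_lit 100, nat_lit 44)⟩
noncomputable def p085_k40 : C1.Kn := ⟨[nat_lit 20, nat_lit 40, nat_lit 60, nat_lit 80], [nat_lit 0, nat_lit 0, nat_lit 197, nat_lit 800], [(nat_lit 0, nat_lit 0, nat_lit 0), (nat_lit 0, nat_lit 0, nat_lit 0), (nat_lit 1000, nat_lit 908, nat_lit 154), (nat_lit 1000, nat_lit 781, nat_lit 471)], (nat_lit 79, nat_lit 100, nat_lit 45)⟩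
noncomputable def p085_k41 : C1.Kn := ⟨[nat_lit 20, nat_lit 40, nat_lit 60, nat_lit 80], [nat_lit 0, nat_lit 0, nat_lit 297, nat_lit 895], [(nat_lit 0, nat_lit 0, nat_lit 0), (nat_lit 0, nat_lit 0, nat_lit 0), (nat_lit 1000, nat_lit 861, nat_lit 231), (nat_lit 1000, nat_lit 767, nat_lit 466)], (nat_lit 77, nat_lit 100, nat_lit 45)⟩
noncomputable def p085_k42 : C1.Kn := ⟨[nat_lit 40, nat_lit 50, nat_lit 70], [nat_lit 0, nat_lit 0, nat_lit 339], [(nat_lit 0, nat_lit 0, nat_lit 0), (nat_lit 0, nat_lit 0, nat_lit 0), (nat_lit 1000, nat_lit 868, nat_lit 263)], (nat_lit 85, nat_lit 100, nat_lit 30)⟩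
noncomputable def p085_k43 : C1.Kn := ⟨[nat_lit 80, nat_lit 100], [nat_lit 0, nat_lit 399], [(nat_lit 0, nat_lit 0, nat_lit 0), (nat_lit 1000, nat_lit 938, nat_lit 310)], (nat_lit 94, nat_lit 100, nat_lit 28)⟩
noncomputable def p085_k44 : C1.Kn := ⟨[nat_lit 20, nat_lit 40, nat_lit 60], [nat_lit 0, nat_lit 0, nat_lit 197], [(nat_lit 0, nat_lit 0, nat_lit 0), (nat_lit 0, nat_lit 0, nat_lit 0), (nat_lit 1000, nat_lit 908, nat_lit 154)], (nat_lit 83, nat_lit 100, nat_lit 31)⟩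
noncomputable def p085_k45 : C1.Kn := ⟨[nat_lit 20, nat_lit 40, nat_lit 60], [nat_lit 0, nat_lit 0, nat_lit 297], [(nat_lit 0, nat_lit 0, nat_lit 0), (nat_lit 0, nat_lit 0, nat_lit 0), (nat_lit 1000, nat_lit 861, nat_lit 231)], (nat_lit 82, nat_lit 100, nat_lit 31)⟩
noncomputable def p085_k46 : C1.Kn := ⟨[nat_lit 80, nat_lit 100, nat_lit 120], [nat_lit 0, nat_lit 399, nat_lit 897], [(nat_lit 0, nat_lit 0, nat_lit 0), (nat_lit 1000, nat_lit 938, nat_lit 310), (nat_lit 1000, nat_lit 938, nat_lit 389)], (nat_lit 94, nat_lit 100, nat_lit 44)⟩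
noncomputable def p085_k47 : C1.Kn := ⟨[nat_lit 80, nat_lit 120], [nat_lit 0, nat_lit 796], [(nat_lit 0, nat_lit 0, nat_lit 0), (nat_lit 1000, nat_lit 938, nat_lit 310)], (nat_lit 94, nat_lit 100, nat_lit 44)⟩
noncomputable def p085_k48 : C1.Kn := ⟨[nat_lit 30, nat_lit 50, nat_lit 90], [nat_lit 0, nat_lit 0, nat_lit 1365], [(nat_lit 0, nat_lit 0, nat_lit 0), (nat_lit 0, nat_lit 0, nat_lit 0), (nat_lit 1000, nat_lit 734, nat_lit 533)], (nat_lit 72, nat_lit 100, nat_lit 61)⟩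
noncomputable def p085_k49 : C1.Kn := ⟨[nat_lit 80, nat_lit 100, nat_lit 140], [nat_lit 0, nat_lit 332, nat_lit 1333], [(nat_lit 0, nat_lit 0, nat_lit 0), (nat_lit 1000, nat_lit 948, nat_lit 259), (nat_lit 1000, nat_lit 948, nat_lit 391)], (nat_lit 99, nat_lit 100, nat_lit 63)⟩
noncomputable def p085_k50 : C1.Kn := ⟨[nat_lit 20, nat_lit 40, nat_lit 60, nat_lit 80], [nat_lit 0, nat_lit 0, nat_lit 600, nat_lit 1195], [(nat_lit 0, nat_lit 0, nat_lit 0), (nat_lit 0, nat_lit 0, nat_lit 0), (nat_lit 1000, nat_lit 725, nat_lit 454), (nat_lit 1000, nat_lit 720, nat_lit 465)], (nat_lit 68, nat_lit 100, nat_lit 61)⟩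
noncomputable def p085_k51 : C1.Kn := ⟨[nat_lit 80, nat_lit 120, nat_lit 140], [nat_lit 0, nat_lit 664, nat_lit 1684], [(nat_lit 0, nat_lit 0, nat_lit 0), (nat_lit 1000, nat_lit 948, nat_lit 259), (nat_lit 975, nat_lit 1000, nat_lit 704)], (nat_lit 99, nat_lit 100, nat_lit 63)⟩
noncomputable def p085_k52 : C1.Kn := ⟨[nat_lit 20, nat_lit 40, nat_lit 60, nat_lit 80], [nat_lit 0, nat_lit 0, nat_lit 398, nat_lit 992], [(nat_lit 0, nat_lit 0, nat_lit 0), (nat_lit 0, nat_lit 0, nat_lit 0), (nat_lit 1000, nat_lit 814, nat_lit 310), (nat_lit 1000, nat_lit 752, nat_lit 464)], (nat_lit 75, nat_lit 100, nat_lit 46)⟩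
noncomputable def p085_k53 : C1.Kn := ⟨[nat_lit 80, nat_lit 120, nat_lit 140], [nat_lit 0, nat_lit 929, nat_lit 1922], [(nat_lit 0, nat_lit 0, nat_lit 0), (nat_lit 1000, nat_lit 927, nat_lit 362), (nat_lit 993, nat_lit 1000, nat_lit 764)], (nat_lit 96, nat_lit 100, nat_lit 62)⟩
noncomputable def p085_k54 : C1.Kn := ⟨[nat_lit 40, nat_lit 100], [nat_lit 0, nat_lit 0], [(nat_lit 0, nat_lit 0, nat_lit 0), (nat_lit 0, nat_lit 0, nat_lit 0)], (nat_lit 80, nat_lit 100, nat_lit 60)⟩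
noncomputable def p085_k55 : C1.Kn := ⟨[nat_lit 40, nat_lit 80, nat_lit 100], [nat_lit 0, nat_lit 192, nat_lit 1404], [(nat_lit 0, nat_lit 0, nat_lit 0), (nat_lit 1000, nat_lit 955, nat_lit 75), (nat_lit 1000, nat_lit 781, nat_lit 625)], (nat_lit 78, nat_lit 100, nat_lit 60)⟩
noncomputable def p085_k56 : C1.Kn := ⟨[nat_lit 40, nat_lit 80, nat_lit 100], [nat_lit 0, nat_lit 593, nat_lit 1677], [(nat_lit 0, nat_lit 0, nat_lit 0), (nat_lit 1000, nat_lit 861, nat_lit 231), (nat_lit 1000, nat_lit 738, nat_lit 662)], (nat_lit 74, nat_lit 100, nat_lit 60)⟩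
noncomputable def p085_k57 : C1.Kn := ⟨[nat_lit 40, nat_lit 80], [nat_lit 0, nat_lit 1195], [(nat_lit 0, nat_lit 0, nat_lit 0), (nat_lit 1000, nat_lit 720, nat_lit 465)], (nat_lit 68, nat_lit 100, nat_lit 61)⟩
noncomputable def p085_k58 : C1.Kn := ⟨[nat_lit 40, nat_lit 80], [nat_lit 0, nat_lit 1399], [(nat_lit 0, nat_lit 0, nat_lit 0), (nat_lit 1000, nat_lit 672, nat_lit 546)], (nat_lit 65, nat_lit 100, nat_lit 62)⟩
noncomputable def p085_k59 : C1.Kn := ⟨[nat_lit 80, nat_lit 120, nat_lit 140], [nat_lit 0, nat_lit 0, nat_lit 1164], [(nat_lit 0, nat_lit 0, nat_lit 0), (nat_lit 0, nat_lit 0, nat_lit 0), (nat_lit 941, nat_lit 1000, nat_lit 576)], (nat_lit 100, nat_lit 99, nat_lit 44)⟩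
noncomputable def p085_k60 : C1.Kn := ⟨[nat_lit 80, nat_lit 100, nat_lit 160], [nat_lit 0, nat_lit 0, nat_lit 1533], [(nat_lit 0, nat_lit 0, nat_lit 0), (nat_lit 0, nat_lit 0, nat_lit 0), (nat_lit 1000, nat_lit 1000, nat_lit 399)], (nat_lit 100, nat_lit 92, nat_lit 61)⟩
noncomputable def p085_k61 : C1.Kn := ⟨[nat_lit 80, nat_lit 100, nat_lit 140], [nat_lit 0, nat_lit 265, nat_lit 1269], [(nat_lit 0, nat_lit 0, nat_lit 0), (nat_lit 1000, nat_lit 959, nat_lit 206), (nat_lit 1000, nat_lit 958, nat_lit 392)], (nat_lit 100, nat_lit 99, nat_lit 63)⟩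
noncomputable def p085_k62 : C1.Kn := ⟨[nat_lit 40, nat_lit 60, nat_lit 100], [nat_lit 0, nat_lit 96, nat_lit 1311], [(nat_lit 0, nat_lit 0, nat_lit 0), (nat_lit 1000, nat_lit 955, nat_lit 75), (nat_lit 1000, nat_lit 795, nat_lit 474)], (nat_lit 78, nat_lit 100, nat_lit 60)⟩
noncomputable def p085_k63 : C1.Kn := ⟨[nat_lit 40, nat_lit 60, nat_lit 80], [nat_lit 0, nat_lit 56, nat_lit 668], [(nat_lit 0, nat_lit 0, nat_lit 0), (nat_lit 1000, nat_lit 974, nat_lit 44), (nat_lit 1000, nat_lit 806, nat_lit 448)], (nat_lit 81, nat_lit 100, nat_lit 45)⟩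
noncomputable def p085_k64 : C1.Kn := ⟨[nat_lit 40, nat_lit 60, nat_lit 100], [nat_lit 0, nat_lit 197, nat_lit 1403], [(nat_lit 0, nat_lit 0, nat_lit 0), (nat_lit 1000, nat_lit 908, nat_lit 154), (nat_lit 1000, nat_lit 781, nat_lit 471)], (nat_lit 76, nat_lit 100, nat_lit 60)⟩
noncomputable def p085_k65 : C1.Kn := ⟨[nat_lit 40, nat_lit 60, nat_lit 80], [nat_lit 0, nat_lit 398, nat_lit 992], [(nat_lit 0, nat_lit 0, nat_lit 0), (nat_lit 1000, nat_lit 814, nat_lit 310), (nat_lit 1000, nat_lit 752, nat_lit 464)], (nat_lit 75, nat_lit 100, nat_lit 46)⟩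
noncomputable def p085_k66 : C1.Kn := ⟨[nat_lit 40, nat_lit 60, nat_lit 80], [nat_lit 0, nat_lit 600, nat_lit 1195], [(nat_lit 0, nat_lit 0, nat_lit 0), (nat_lit 1000, nat_lit 725, nat_lit 454), (nat_lit 1000, nat_lit 720, nat_lit 465)], (nat_lit 72, nat_lit 100, nat_lit 47)⟩
noncomputable def p085_k67 : C1.Kn := ⟨[nat_lit 40, nat_lit 60, nat_lit 100], [nat_lit 0, nat_lit 398, nat_lit 1586], [(nat_lit 0, nat_lit 0, nat_lit 0), (nat_lit 1000, nat_lit 814, nat_lit 310), (nat_lit 1000, nat_lit 752, nat_lit 464)], (nat_lit 72, nat_lit 100, nat_lit 61)⟩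
noncomputable def p085_k68 : C1.Kn := ⟨[nat_lit 40, nat_lit 60, nat_lit 80], [nat_lit 0, nat_lit 600, nat_lit 1195], [(nat_lit 0, nat_lit 0, nat_lit 0), (nat_lit 1000, nat_lit 725, nat_lit 454), (nat_lit 1000, nat_lit 720, nat_lit 465)], (nat_lit 68, nat_lit 100, nat_lit 61)⟩
noncomputable def p085_l0 : Lf2 := ⟨nat_lit 0, nat_lit 5, [nat_lit 4, nat_lit 5, nat_lit 5, nat_lit 20], false, nat_lit 240, nat_lit 300, nat_lit 112, nat_lit 364, ⟨nat_lit 97, nat_lit 903, nat_lit 0, nat_lit 9, nat_lit 337, nat_lit 903, nat_lit 208, nat_lit 0, nat_lit 0, nat_lit 0, nat_lit 0, nat_lit 0, nat_lit 32464205, nat_lit 23724402, nat_lit 10811393, nat_lit 5467739, true, true⟩,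
 nat_lit 0, nat_lit 0, nat_lit 1284, nat_lit 0, nat_lit 3177, nat_lit 679, nat_lit 0, nat_lit 0, nat_lit 0, nat_lit 123, nat_lit 0, nat_lit 0, nat_lit 0, nat_lit 0, nat_lit 0, nat_lit 343350, nat_lit 0, nat_lit 0, [(nat_lit 18, [(nat_lit 0, nat_lit 119), (nat_lit 1, nat_lit 784)])],
 ⟨p085_k0, nat_lit 0, nat_lit 0, nat_lit 60, nat_lit 0, nat_lit 0, [nat_lit 1442611201, nat_lit 1900760001, nat_lit 2476299199], [], [nat_lit 27461915042, nat_lit 27660196078, nat_lit 28762120125, nat_lit 28946875331, nat_lit 29185942364, nat_lit 29363288570, nat_lit 30353860165, nat_lit 30537240961], nat_lit 0, nat_lit 0, nat_lit 0, nat_lit 0, nat_lit 0, nat_lit 0, [], [nat_lit 85, nat_lit 40, nat_lit 40, nat_lit 80, nat_lit 16, nat_lit 203, nat_lit 0, nat_lit 5]⟩, ⟨p085_k1, nat_lit 0, nat_lit 0, nat_lit 433, nat_lit 0, nat_lit 705301, [nat_lit 454736000, nat_lit 606250000, nat_lit 954674000], [], [nat_lit 3156293990, nat_lit 3172672169,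 nat_lit 3270254960, nat_lit 3284332877, nat_lit 3350871218, nat_lit 3358320120, nat_lit 3440819361, nat_lit 3449756532], nat_lit 1271250, nat_lit 1271250, nat_lit 1271250, nat_lit 1271250, nat_lit 719601, nat_lit 2763950, [nat_lit 1100000, nat_lit 1442500, nat_lit 1271250], [nat_lit 11, nat_lit 40, nat_lit 40, nat_lit 80, nat_lit 1, nat_lit 401, nat_lit 175, nat_lit 10]⟩,
 ⟨nat_lit 4330, nat_lit 4473, ⟨.ofNat (nat_lit 815043), .ofNat (nat_lit 862628), .ofNat (nat_lit 825826), .ofNat (nat_lit 873411), .ofNat (nat_lit 811695), .ofNat (nat_lit 858677), .ofNat (nat_lit 822502), .ofNat (nat_lit 869484)⟩, ⟨.ofNat (nat_lit 460144), .ofNat (nat_lit 562111), .ofNat (nat_lit 481711), .ofNat (nat_lit 583678), .ofNat (nat_lit 459048), .ofNat (nat_lit 559724), .ofNat (nat_lit 480662), .ofNat (nat_lit 581338)⟩⟩, [⟨nat_lit 13, nat_lit 83, nat_lit 39, nat_lit 100, nat_lit 182200451⟩, ⟨nat_lit 16, nat_lit 87, nat_lit 95, nat_lit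 100, nat_lit 172666839⟩, ⟨nat_lit 19, nat_lit 100, nat_lit 66, nat_lit 92, nat_lit 27152556⟩]⟩
noncomputable def p085_l1 : Lf2 := ⟨nat_lit 0, nat_lit 5, [nat_lit 4, nat_lit 5, nat_lit 5, nat_lit 20], false, nat_lit 240, nat_lit 296, nat_lit 112, nat_lit 364, ⟨nat_lit 87, nat_lit 913, nat_lit 0, nat_lit 9, nat_lit 334, nat_lit 913, nat_lit 206, nat_lit 0, nat_lit 0, nat_lit 0, nat_lit 0, nat_lit 0, nat_lit 32730123, nat_lit 23553814, nat_lit 10716063, nat_lit 5453922, true, true⟩,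
 nat_lit 0, nat_lit 0, nat_lit 1167, nat_lit 0, nat_lit 3130, nat_lit 617, nat_lit 0, nat_lit 0, nat_lit 0, nat_lit 108, nat_lit 0, nat_lit 0, nat_lit 0, nat_lit 0, nat_lit 0, nat_lit 365200, nat_lit 0, nat_lit 0, [(nat_lit 18, [(nat_lit 1, nat_lit 913)])],
 ⟨p085_k2, nat_lit 0, nat_lit 0, nat_lit 59, nat_lit 0, nat_lit 0, [nat_lit 1414812001, nat_lit 1821565201, nat_lit 2158883799], [], [nat_lit 27600299297, nat_lit 27797639792, nat_lit 28696942163, nat_lit 28882809476, nat_lit 29186303367, nat_lit 29364301364, nat_lit 30180317789, nat_lit 30369170288], nat_lit 0, nat_lit 0, nat_lit 0, nat_lit 0, nat_lit 0, nat_lit 0, [], [nat_lit 78, nat_lit 40, nat_lit 40, nat_lit 80, nat_lit 22, nat_lit 203, nat_lit 0, nat_lit 6]⟩, ⟨p085_k1, nat_lit 0, nat_lit 0, nat_lit 464, nat_lit 0, nat_lit 793199, [nat_lit 407856000, nat_lit 543750000, nat_lit 856254000], [], [nat_lit 2810162631, nat_lit 2824820212, nat_lit 2898297960, nat_lit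 2911168186, nat_lit 2989539039, nat_lit 2996100968, nat_lit 3052213267, nat_lit 3070097702], nat_lit 1271250, nat_lit 1271250, nat_lit 1271250, nat_lit 1271250, nat_lit 719601, nat_lit 2763950, [nat_lit 1100000, nat_lit 1442500, nat_lit 1271250], [nat_lit 11, nat_lit 40, nat_lit 40, nat_lit 80, nat_lit 1, nat_lit 401, nat_lit 175, nat_lit 10]⟩,
 ⟨nat_lit 4183, nat_lit 4331, ⟨.ofNat (nat_lit 811696), .ofNat (nat_lit 851966), .ofNat (nat_lit 822502), .ofNat (nat_lit 862773), .ofNat (nat_lit 808354), .ofNat (nat_lit 848107), .ofNat (nat_lit 819187), .ofNat (nat_lit 858940)⟩, ⟨.ofNat (nat_lit 459048), .ofNat (nat_lit 553013), .ofNat (nat_lit 480662), .ofNat (nat_lit 574626), .ofNat (nat_lit 457921), .ofNat (nat_lit 550678), .ofNat (nat_lit 479587), .ofNat (nat_lit 572345)⟩⟩, [⟨nat_lit 13, nat_lit 81, nat_lit 42, nat_lit 100, nat_lit 188929674⟩, ⟨nat_lit 16, nat_lit 85, nat_lit 97, nat_lit 100, nat_lit 176601338⟩, ⟨nat_lit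 19, nat_lit 100, nat_lit 66, nat_lit 92, nat_lit 24397551⟩]⟩
noncomputable def p085_l2 : Lf2 := ⟨nat_lit 0, nat_lit 5, [nat_lit 4, nat_lit 5, nat_lit 5, nat_lit 20], true, nat_lit 240, nat_lit 288, nat_lit 112, nat_lit 364, ⟨nat_lit 0, nat_lit 1000, nat_lit 0, nat_lit 9, nat_lit 331, nat_lit 1000, nat_lit 203, nat_lit 0, nat_lit 0, nat_lit 0, nat_lit 0, nat_lit 0, nat_lit 33113989, nat_lit 23370391, nat_lit 10515620, nat_lit 5428795, true, true⟩,
 nat_lit 0, nat_lit 0, nat_lit 0, nat_lit 0, nat_lit 3172, nat_lit 0, nat_lit 0, nat_lit 0, nat_lit 0, nat_lit 0, nat_lit 0, nat_lit 0, nat_lit 0, nat_lit 0, nat_lit 0, nat_lit 250000, nat_lit 0, nat_lit 0, [(nat_lit 18, [(nat_lit 0, nat_lit 1000)])],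
 ⟨p085_k3, nat_lit 0, nat_lit 0, nat_lit 60, nat_lit 0, nat_lit 0, [nat_lit 1532800000, nat_lit 1762000001, nat_lit 2180399999], [], [nat_lit 27814816197, nat_lit 28211178153, nat_lit 28723670305, nat_lit 29100730993, nat_lit 29160236652, nat_lit 29523138749, nat_lit 29995520230, nat_lit 30383325166], nat_lit 0, nat_lit 0, nat_lit 0, nat_lit 0, nat_lit 0, nat_lit 0, [], [nat_lit 78, nat_lit 40, nat_lit 40, nat_lit 80, nat_lit 22, nat_lit 203, nat_lit 0, nat_lit 6]⟩, C1.Rw.none,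
 ⟨nat_lit 3872, nat_lit 4184, ⟨.ofNat (nat_lit 808354), .ofNat (nat_lit 841482), .ofNat (nat_lit 819187), .ofNat (nat_lit 852316), .ofNat (nat_lit 801671), .ofNat (nat_lit 833932), .ofNat (nat_lit 812568), .ofNat (nat_lit 844829)⟩, ⟨.ofNat (nat_lit 457921), .ofNat (nat_lit 537427), .ofNat (nat_lit 479587), .ofNat (nat_lit 559094), .ofNat (nat_lit 455554), .ofNat (nat_lit 532980), .ofNat (nat_lit 477347), .ofNat (nat_lit 554773)⟩⟩, [⟨nat_lit 13, nat_lit 78, nat_lit 45, nat_lit 100, nat_lit 231139499⟩, ⟨nat_lit 16, nat_lit 83, nat_lit 98, nat_lit 100, nat_lit 158534399⟩]⟩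
noncomputable def p085_l3 : Lf2 := ⟨nat_lit 0, nat_lit 5, [nat_lit 4, nat_lit 5, nat_lit 5, nat_lit 20], false, nat_lit 240, nat_lit 300, nat_lit 112, nat_lit 240, ⟨nat_lit 405, nat_lit 595, nat_lit 0, nat_lit 9, nat_lit 336, nat_lit 595, nat_lit 207, nat_lit 0, nat_lit 0, nat_lit 0, nat_lit 0, nat_lit 0, nat_lit 32541808, nat_lit 23713562, nat_lit 10744630, nat_lit 5460939, true, true⟩,
 nat_lit 0, nat_lit 0, nat_lit 5089, nat_lit 0, nat_lit 3775, nat_lit 2826, nat_lit 0, nat_lit 0, nat_lit 0, nat_lit 1768, nat_lit 0, nat_lit 0, nat_lit 0, nat_lit 0, nat_lit 0, nat_lit 595000, nat_lit 0, nat_lit 0, [(nat_lit 18, [(nat_lit 2, nat_lit 595)])],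
 ⟨p085_k4, nat_lit 0, nat_lit 0, nat_lit 69, nat_lit 0, nat_lit 0, [nat_lit 1835570667, nat_lit 2520613334, nat_lit 2267546000], [], [nat_lit 28085064001, nat_lit 28885004951, nat_lit 29032810301, nat_lit 29791709326, nat_lit 29771169976, nat_lit 30497563984, nat_lit 30643535734, nat_lit 31403877282], nat_lit 0, nat_lit 0, nat_lit 0, nat_lit 0, nat_lit 0, nat_lit 0, [], [nat_lit 6, nat_lit 40, nat_lit 40, nat_lit 80, nat_lit 3, nat_lit 203, nat_lit 0, nat_lit 5]⟩, ⟨p085_k5, nat_lit 0, nat_lit 0, nat_lit 494, nat_lit 0, nat_lit 978492, [nat_lit 1898640000, nat_lit 3227040000], [], [nat_lit 11479625112, nat_lit 11540556885, nat_lit 11779913951, nat_lit 11841951308, nat_lit 11377112781, nat_lit 11431969986, nat_lit 11685345156, nat_lit 11748291516], nat_lit 1271250, nat_lit 1271250, nat_lit 1271250, nat_lit 1271250, nat_lit 719601, nat_lit 1758000, [nat_lit 1100000, nat_lit 1785000], [nat_lit 39, nat_lit 40, nat_lit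 40, nat_lit 80, nat_lit 7, nat_lit 272, nat_lit 60, nat_lit 8]⟩,
 ⟨nat_lit 3872, nat_lit 4473, ⟨.ofNat (nat_lit 825812), .ofNat (nat_lit 859803), .ofNat (nat_lit 836589), .ofNat (nat_lit 870580), .ofNat (nat_lit 812552), .ofNat (nat_lit 844816), .ofNat (nat_lit 823443), .ofNat (nat_lit 855706)⟩, ⟨.ofNat (nat_lit 460144), .ofNat (nat_lit 562111), .ofNat (nat_lit 481711), .ofNat (nat_lit 583678), .ofNat (nat_lit 455554), .ofNat (nat_lit 552336), .ofNat (nat_lit 477347), .ofNat (nat_lit 574129)⟩⟩, [⟨nat_lit 13, nat_lit 74, nat_lit 52, nat_lit 100, nat_lit 169033806⟩, ⟨nat_lit 4, nat_lit 100, nat_lit 82, nat_lit 97, nat_lit 294989327⟩]⟩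
noncomputable def p085_l4 : Lf2 := ⟨nat_lit 0, nat_lit 5, [nat_lit 4, nat_lit 5, nat_lit 5, nat_lit 20], false, nat_lit 240, nat_lit 300, nat_lit 240, nat_lit 360, ⟨nat_lit 92, nat_lit 908, nat_lit 0, nat_lit 9, nat_lit 332, nat_lit 908, nat_lit 207, nat_lit 0, nat_lit 0, nat_lit 0, nat_lit 0, nat_lit 0, nat_lit 32797490, nat_lit 23390358, nat_lit 10812152, nat_lit 5458931, true, true⟩,
 nat_lit 0, nat_lit 0, nat_lit 1146, nat_lit 0, nat_lit 3695, nat_lit 636, nat_lit 0, nat_lit 0, nat_lit 0, nat_lit 233, nat_lit 0, nat_lit 0, nat_lit 0, nat_lit 0, nat_lit 0, nat_lit 227000, nat_lit 0, nat_lit 0, [(nat_lit 18, [(nat_lit 0, nat_lit 908)])],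
 ⟨p085_k4, nat_lit 0, nat_lit 0, nat_lit 66, nat_lit 0, nat_lit 0, [nat_lit 1578726400, nat_lit 2399840000, nat_lit 2901296000], [], [nat_lit 27909251540, nat_lit 28743283830, nat_lit 28305266641, nat_lit 29121760623, nat_lit 29659099235, nat_lit 30398945370, nat_lit 30012448150, nat_lit 30736994494], nat_lit 0, nat_lit 0, nat_lit 0, nat_lit 0, nat_lit 0, nat_lit 0, [], [nat_lit 6, nat_lit 40, nat_lit 40, nat_lit 80, nat_lit 3, nat_lit 203, nat_lit 0, nat_lit 5]⟩, ⟨p085_k5, nat_lit 0, nat_lit 0, nat_lit 434, nat_lit 0, nat_lit 978492, [nat_lit 431296000, nat_lit 733056000], [], [nat_lit 2980889272, nat_lit 2987934488, nat_lit 2999932881, nat_lit 3006570423, nat_lit 3114395302, nat_lit 3119442712, nat_lit 3133412688, nat_lit 3139238796], nat_lit 1271250, nat_lit 1271250, nat_lit 1271250, nat_lit 1271250, nat_lit 1271250, nat_lit 1271250, [nat_lit 1100000, nat_lit 1785000], [nat_lit 39, nat_lit 40, nat_lit 40, nat_lit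 80, nat_lit 7, nat_lit 232, nat_lit 0, nat_lit 6]⟩,
 ⟨nat_lit 3872, nat_lit 4473, ⟨.ofNat (nat_lit 825812), .ofNat (nat_lit 839408), .ofNat (nat_lit 836589), .ofNat (nat_lit 850185), .ofNat (nat_lit 812552), .ofNat (nat_lit 825458), .ofNat (nat_lit 823443), .ofNat (nat_lit 836348)⟩, ⟨.ofNat (nat_lit 460144), .ofNat (nat_lit 562111), .ofNat (nat_lit 481711), .ofNat (nat_lit 583678), .ofNat (nat_lit 455554), .ofNat (nat_lit 552336), .ofNat (nat_lit 477347), .ofNat (nat_lit 574129)⟩⟩, [⟨nat_lit 4, nat_lit 100, nat_lit 82, nat_lit 97, nat_lit 199780979⟩, ⟨nat_lit 19, nat_lit 100, nat_lit 71, nat_lit 93, nat_lit 31163216⟩]⟩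
noncomputable def p085_l5 : Lf2 := ⟨nat_lit 0, nat_lit 2, [nat_lit 10, nat_lit 5, nat_lit 5, nat_lit 20], false, nat_lit 240, nat_lit 300, nat_lit 240, nat_lit 360, ⟨nat_lit 88, nat_lit 912, nat_lit 0, nat_lit 9, nat_lit 338, nat_lit 912, nat_lit 207, nat_lit 0, nat_lit 0, nat_lit 0, nat_lit 0, nat_lit 0, nat_lit 32441434, nat_lit 23840554, nat_lit 10718012, nat_lit 5461563, true, true⟩,
 nat_lit 0, nat_lit 0, nat_lit 1036, nat_lit 0, nat_lit 3334, nat_lit 575, nat_lit 0, nat_lit 0, nat_lit 0, nat_lit 219, nat_lit 0, nat_lit 0, nat_lit 0, nat_lit 0, nat_lit 0, nat_lit 502200, nat_lit 0, nat_lit 0, [(nat_lit 18, [(nat_lit 1, nat_lit 683), (nat_lit 2, nat_lit 229)])],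
 ⟨p085_k6, nat_lit 0, nat_lit 0, nat_lit 63, nat_lit 0, nat_lit 0, [nat_lit 1523468534, nat_lit 1981430666], [], [nat_lit 28109610948, nat_lit 28862484216, nat_lit 28650832408, nat_lit 29381193882, nat_lit 29727865384, nat_lit 30406494689, nat_lit 30213911551, nat_lit 30907682273], nat_lit 0, nat_lit 0, nat_lit 0, nat_lit 0, nat_lit 0, nat_lit 0, [], [nat_lit 24, nat_lit 40, nat_lit 40, nat_lit 80, nat_lit 33, nat_lit 203, nat_lit 0, nat_lit 6]⟩, ⟨p085_k7, nat_lit 0, nat_lit 0, nat_lit 418, nat_lit 0, nat_lit 926504, [nat_lit 412544000, nat_lit 701184000], [], [nat_lit 2809510613, nat_lit 2815371087, nat_lit 2845204260, nat_lit 2850709012, nat_lit 2997972089, nat_lit 3001230526, nat_lit 3025047312, nat_lit 3028022969], nat_lit 1271250, nat_lit 1271250, nat_lit 1271250, nat_lit 1271250, nat_lit 1271250, nat_lit 1271250, [nat_lit 1100000, nat_lit 1785000], [nat_lit 39, nat_lit 40, nat_lit 40, nat_lit 80, nat_lit 7,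 nat_lit 229, nat_lit 0, nat_lit 6]⟩,
 ⟨nat_lit 3872, nat_lit 4473, ⟨.ofNat (nat_lit 839408), .ofNat (nat_lit 859803), .ofNat (nat_lit 844797), .ofNat (nat_lit 865191), .ofNat (nat_lit 825458), .ofNat (nat_lit 844816), .ofNat (nat_lit 830903), .ofNat (nat_lit 850260)⟩, ⟨.ofNat (nat_lit 460144), .ofNat (nat_lit 562111), .ofNat (nat_lit 481711), .ofNat (nat_lit 583678), .ofNat (nat_lit 455554), .ofNat (nat_lit 552336), .ofNat (nat_lit 477347), .ofNat (nat_lit 574129)⟩⟩, [⟨nat_lit 4, nat_lit 100, nat_lit 82, nat_lit 97, nat_lit 184476466⟩, ⟨nat_lit 19, nat_lit 100, nat_lit 64, nat_lit 95, nat_lit 31175090⟩]⟩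
noncomputable def p085_l6 : Lf2 := ⟨nat_lit 0, nat_lit 5, [nat_lit 4, nat_lit 5, nat_lit 5, nat_lit 20], false, nat_lit 240, nat_lit 300, nat_lit 240, nat_lit 360, ⟨nat_lit 639, nat_lit 361, nat_lit 0, nat_lit 9, nat_lit 339, nat_lit 361, nat_lit 208, nat_lit 0, nat_lit 0, nat_lit 0, nat_lit 0, nat_lit 0, nat_lit 32318564, nat_lit 23937525, nat_lit 10743911, nat_lit 5466502, true, true⟩,
 nat_lit 0, nat_lit 0, nat_lit 6902, nat_lit 0, nat_lit 4421, nat_lit 3834, nat_lit 0, nat_lit 0, nat_lit 0, nat_lit 2590, nat_lit 0, nat_lit 0, nat_lit 0, nat_lit 0, nat_lit 0, nat_lit 361000, nat_lit 0, nat_lit 0, [(nat_lit 18, [(nat_lit 2, nat_lit 361)])],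
 ⟨p085_k4, nat_lit 0, nat_lit 0, nat_lit 67, nat_lit 0, nat_lit 0, [nat_lit 1912821867, nat_lit 3372997334, nat_lit 3833754800], [], [nat_lit 29009594886, nat_lit 29445120456, nat_lit 29652339396, nat_lit 30072819424, nat_lit 30767078177, nat_lit 31150218440, nat_lit 31336768590, nat_lit 31708280011], nat_lit 0, nat_lit 0, nat_lit 0, nat_lit 0, nat_lit 0, nat_lit 0, [], [nat_lit 6, nat_lit 40, nat_lit 40, nat_lit 80, nat_lit 3, nat_lit 203, nat_lit 0, nat_lit 5]⟩, ⟨p085_k5, nat_lit 0, nat_lit 0, nat_lit 281, nat_lit 0, nat_lit 568877, [nat_lit 2995632000, nat_lit 5091552000], [], [nat_lit 19513761535, nat_lit 19568440701, nat_lit 19820794389, nat_lit 19872448913, nat_lit 21203264499, nat_lit 21236338053, nat_lit 21437213742, nat_lit 21478796860], nat_lit 1271250, nat_lit 1271250, nat_lit 1271250, nat_lit 1271250, nat_lit 1271250, nat_lit 1271250, [nat_lit 1100000, nat_lit 1785000], [nat_lit 39, nat_lit 40, nat_lit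 40, nat_lit 80, nat_lit 7, nat_lit 203, nat_lit 0, nat_lit 5]⟩,
 ⟨nat_lit 4183, nat_lit 4473, ⟨.ofNat (nat_lit 839418), .ofNat (nat_lit 859812), .ofNat (nat_lit 844809), .ofNat (nat_lit 865202), .ofNat (nat_lit 832434), .ofNat (nat_lit 852311), .ofNat (nat_lit 837850), .ofNat (nat_lit 857726)⟩, ⟨.ofNat (nat_lit 460144), .ofNat (nat_lit 562111), .ofNat (nat_lit 481711), .ofNat (nat_lit 583678), .ofNat (nat_lit 457921), .ofNat (nat_lit 557304), .ofNat (nat_lit 479587), .ofNat (nat_lit 578971)⟩⟩, [⟨nat_lit 4, nat_lit 100, nat_lit 86, nat_lit 98, nat_lit 343003857⟩, ⟨nat_lit 19, nat_lit 100, nat_lit 64, nat_lit 95, nat_lit 240813150⟩]⟩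
noncomputable def p085_l7 : Lf2 := ⟨nat_lit 0, nat_lit 4, [nat_lit 38, nat_lit 5, nat_lit 5, nat_lit 20], false, nat_lit 240, nat_lit 288, nat_lit 240, nat_lit 360, ⟨nat_lit 155, nat_lit 845, nat_lit 0, nat_lit 9, nat_lit 337, nat_lit 845, nat_lit 203, nat_lit 0, nat_lit 0, nat_lit 0, nat_lit 0, nat_lit 0, nat_lit 32697504, nat_lit 23864889, nat_lit 10437607, nat_lit 5434247, true, true⟩,
 nat_lit 0, nat_lit 0, nat_lit 1791, nat_lit 0, nat_lit 3810, nat_lit 994, nat_lit 0, nat_lit 0, nat_lit 0, nat_lit 479, nat_lit 0, nat_lit 0, nat_lit 0, nat_lit 0, nat_lit 0, nat_lit 211250, nat_lit 0, nat_lit 0, [(nat_lit 18, [(nat_lit 0, nat_lit 845)])],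
 ⟨p085_k8, nat_lit 0, nat_lit 0, nat_lit 61, nat_lit 0, nat_lit 0, [nat_lit 1610176000, nat_lit 2558600000], [], [nat_lit 28834011499, nat_lit 29040295487, nat_lit 29422298400, nat_lit 29621855690, nat_lit 30168539506, nat_lit 30356027730, nat_lit 30705854842, nat_lit 30887304016], nat_lit 0, nat_lit 0, nat_lit 0, nat_lit 0, nat_lit 0, nat_lit 0, [], [nat_lit 24, nat_lit 40, nat_lit 40, nat_lit 80, nat_lit 33, nat_lit 203, nat_lit 0, nat_lit 6]⟩, ⟨p085_k9, nat_lit 0, nat_lit 0, nat_lit 298, nat_lit 0, nat_lit 626597, [nat_lit 726640000, nat_lit 1235040000], [], [nat_lit 4796708374, nat_lit 4804574349, nat_lit 4873332857, nat_lit 4880734607, nat_lit 5208601436, nat_lit 5213156303, nat_lit 5273888896, nat_lit 5279182111], nat_lit 1271250, nat_lit 1271250, nat_lit 1271250, nat_lit 1271250, nat_lit 1271250, nat_lit 1271250, [nat_lit 1100000, nat_lit 1785000], [nat_lit 39, nat_lit 40, nat_lit 40, nat_lit 80, nat_lit 7,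 nat_lit 203, nat_lit 0, nat_lit 5]⟩,
 ⟨nat_lit 4031, nat_lit 4184, ⟨.ofNat (nat_lit 832439), .ofNat (nat_lit 852315), .ofNat (nat_lit 835688), .ofNat (nat_lit 855565), .ofNat (nat_lit 828956), .ofNat (nat_lit 848573), .ofNat (nat_lit 832214), .ofNat (nat_lit 851832)⟩, ⟨.ofNat (nat_lit 457921), .ofNat (nat_lit 537427), .ofNat (nat_lit 479587), .ofNat (nat_lit 559094), .ofNat (nat_lit 456758), .ofNat (nat_lit 535227), .ofNat (nat_lit 478484), .ofNat (nat_lit 556953)⟩⟩, [⟨nat_lit 13, nat_lit 76, nat_lit 48, nat_lit 100, nat_lit 213976937⟩, ⟨nat_lit 16, nat_lit 83, nat_lit 98, nat_lit 100, nat_lit 205604004⟩, ⟨nat_lit 19, nat_lit 100, nat_lit 64, nat_lit 95, nat_lit 58924748⟩]⟩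
noncomputable def p085_l8 : Lf2 := ⟨nat_lit 0, nat_lit 4, [nat_lit 38, nat_lit 5, nat_lit 5, nat_lit 20], false, nat_lit 240, nat_lit 284, nat_lit 240, nat_lit 360, ⟨nat_lit 117, nat_lit 883, nat_lit 0, nat_lit 9, nat_lit 335, nat_lit 883, nat_lit 201, nat_lit 0, nat_lit 0, nat_lit 0, nat_lit 0, nat_lit 0, nat_lit 32875463, nat_lit 23800941, nat_lit 10323596, nat_lit 5420969, true, true⟩,
 nat_lit 0, nat_lit 0, nat_lit 1547, nat_lit 0, nat_lit 3467, nat_lit 859, nat_lit 197, nat_lit 0, nat_lit 0, nat_lit 171, nat_lit 0, nat_lit 0, nat_lit 0, nat_lit 0, nat_lit 0, nat_lit 220750, nat_lit 0, nat_lit 0, [(nat_lit 18, [(nat_lit 0, nat_lit 883)])],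
 ⟨p085_k10, nat_lit 0, nat_lit 0, nat_lit 62, nat_lit 0, nat_lit 0, [nat_lit 1591206400, nat_lit 2462840000], [], [nat_lit 28715471985, nat_lit 28906001283, nat_lit 29247603007, nat_lit 29440589361, nat_lit 29879139057, nat_lit 30062860365, nat_lit 30395932790, nat_lit 30596181681], nat_lit 0, nat_lit 0, nat_lit 0, nat_lit 0, nat_lit 0, nat_lit 0, [], [nat_lit 24, nat_lit 40, nat_lit 40, nat_lit 80, nat_lit 33, nat_lit 203, nat_lit 0, nat_lit 6]⟩, ⟨p085_k9, nat_lit 0, nat_lit 0, nat_lit 326, nat_lit 0, nat_lit 710319, [nat_lit 548496000, nat_lit 932256000], [], [nat_lit 3670835478, nat_lit 3678061906, nat_lit 3743927735, nat_lit 3750684364, nat_lit 4052891401, nat_lit 4056838568, nat_lit 4107113859, nat_lit 4110702177], nat_lit 1271250, nat_lit 1271250, nat_lit 1271250, nat_lit 1271250, nat_lit 1271250, nat_lit 1271250, [nat_lit 1100000, nat_lit 1785000], [nat_lit 39, nat_lit 40, nat_lit 40, nat_lit 80, nat_lit 7,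 nat_lit 206, nat_lit 0, nat_lit 5]⟩,
 ⟨nat_lit 3872, nat_lit 4032, ⟨.ofNat (nat_lit 828956), .ofNat (nat_lit 848573), .ofNat (nat_lit 832215), .ofNat (nat_lit 851832), .ofNat (nat_lit 825472), .ofNat (nat_lit 844829), .ofNat (nat_lit 828741), .ofNat (nat_lit 848098)⟩, ⟨.ofNat (nat_lit 456758), .ofNat (nat_lit 528687), .ofNat (nat_lit 478484), .ofNat (nat_lit 550414), .ofNat (nat_lit 455554), .ofNat (nat_lit 526527), .ofNat (nat_lit 477347), .ofNat (nat_lit 548321)⟩⟩, [⟨nat_lit 13, nat_lit 77, nat_lit 47, nat_lit 100, nat_lit 216740140⟩, ⟨nat_lit 16, nat_lit 81, nat_lit 100, nat_lit 100, nat_lit 198181785⟩, ⟨nat_lit 19, nat_lit 100, nat_lit 64, nat_lit 95, nat_lit 47045081⟩]⟩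
noncomputable def p085_l9 : Lf2 := ⟨nat_lit 0, nat_lit 5, [nat_lit 4, nat_lit 5, nat_lit 5, nat_lit 20], false, nat_lit 240, nat_lit 288, nat_lit 240, nat_lit 360, ⟨nat_lit 121, nat_lit 879, nat_lit 0, nat_lit 9, nat_lit 336, nat_lit 879, nat_lit 203, nat_lit 0, nat_lit 0, nat_lit 0, nat_lit 0, nat_lit 0, nat_lit 32758808, nat_lit 23815350, nat_lit 10425842, nat_lit 5431778, true, true⟩,
 nat_lit 0, nat_lit 0, nat_lit 1783, nat_lit 0, nat_lit 3726, nat_lit 990, nat_lit 0, nat_lit 0, nat_lit 0, nat_lit 0, nat_lit 0, nat_lit 0, nat_lit 0, nat_lit 0, nat_lit 0, nat_lit 219750, nat_lit 0, nat_lit 0, [(nat_lit 18, [(nat_lit 0, nat_lit 879)])],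
 ⟨p085_k11, nat_lit 0, nat_lit 0, nat_lit 62, nat_lit 0, nat_lit 0, [nat_lit 1593203201, nat_lit 2472920000], [], [nat_lit 28776279491, nat_lit 29185691270, nat_lit 29359148040, nat_lit 29755325308, nat_lit 30106744926, nat_lit 30479158635, nat_lit 30639456529, nat_lit 30999987514], nat_lit 0, nat_lit 0, nat_lit 0, nat_lit 0, nat_lit 0, nat_lit 0, [], [nat_lit 24, nat_lit 40, nat_lit 40, nat_lit 80, nat_lit 33, nat_lit 203, nat_lit 0, nat_lit 6]⟩, ⟨p085_k5, nat_lit 0, nat_lit 0, nat_lit 273, nat_lit 0, nat_lit 543377, [nat_lit 567248000, nat_lit 964128000], [], [nat_lit 3900554472, nat_lit 3907995669, nat_lit 3980619583, nat_lit 3987528864, nat_lit 4304594441, nat_lit 4308330498, nat_lit 4363290382, nat_lit 4369711705], nat_lit 1271250, nat_lit 1271250, nat_lit 1271250, nat_lit 1271250, nat_lit 1271250, nat_lit 1271250, [nat_lit 1100000, nat_lit 1785000], [nat_lit 39, nat_lit 40, nat_lit 40, nat_lit 80, nat_lit 7,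 nat_lit 203, nat_lit 0, nat_lit 5]⟩,
 ⟨nat_lit 3872, nat_lit 4184, ⟨.ofNat (nat_lit 832439), .ofNat (nat_lit 852316), .ofNat (nat_lit 835688), .ofNat (nat_lit 855565), .ofNat (nat_lit 825472), .ofNat (nat_lit 844829), .ofNat (nat_lit 828741), .ofNat (nat_lit 848098)⟩, ⟨.ofNat (nat_lit 457921), .ofNat (nat_lit 537427), .ofNat (nat_lit 479587), .ofNat (nat_lit 559094), .ofNat (nat_lit 455554), .ofNat (nat_lit 532980), .ofNat (nat_lit 477347), .ofNat (nat_lit 554773)⟩⟩, [⟨nat_lit 13, nat_lit 76, nat_lit 48, nat_lit 100, nat_lit 226143535⟩, ⟨nat_lit 16, nat_lit 79, nat_lit 100, nat_lit 96, nat_lit 214162886⟩, ⟨nat_lit 19, nat_lit 100, nat_lit 64, nat_lit 95, nat_lit 49020929⟩]⟩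
noncomputable def p085_l10 : Lf2 := ⟨nat_lit 0, nat_lit 5, [nat_lit 4, nat_lit 5, nat_lit 5, nat_lit 20], false, nat_lit 240, nat_lit 288, nat_lit 240, nat_lit 356, ⟨nat_lit 143, nat_lit 857, nat_lit 0, nat_lit 9, nat_lit 337, nat_lit 857, nat_lit 203, nat_lit 0, nat_lit 0, nat_lit 0, nat_lit 0, nat_lit 0, nat_lit 32688211, nat_lit 23903881, nat_lit 10407908, nat_lit 5432235, true, true⟩,
 nat_lit 0, nat_lit 0, nat_lit 1665, nat_lit 0, nat_lit 3660, nat_lit 937, nat_lit 0, nat_lit 0, nat_lit 0, nat_lit 319, nat_lit 0, nat_lit 0, nat_lit 0, nat_lit 0, nat_lit 0, nat_lit 308750, nat_lit 0, nat_lit 0, [(nat_lit 18, [(nat_lit 0, nat_lit 731), (nat_lit 2, nat_lit 126)])],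
 ⟨p085_k11, nat_lit 0, nat_lit 0, nat_lit 62, nat_lit 0, nat_lit 0, [nat_lit 1625488000, nat_lit 2347928000], [], [nat_lit 28673246629, nat_lit 29080178537, nat_lit 29251857900, nat_lit 29645727280, nat_lit 30000520042, nat_lit 30370920170, nat_lit 30529614427, nat_lit 30926151869], nat_lit 0, nat_lit 0, nat_lit 0, nat_lit 0, nat_lit 0, nat_lit 0, [], [nat_lit 24, nat_lit 40, nat_lit 40, nat_lit 80, nat_lit 33, nat_lit 203, nat_lit 0, nat_lit 6]⟩, ⟨p085_k12, nat_lit 0, nat_lit 0, nat_lit 331, nat_lit 0, nat_lit 718811, [nat_lit 670384000, nat_lit 1139424000], [], [nat_lit 4529066351, nat_lit 4532899596, nat_lit 4588853437, nat_lit 4592443297, nat_lit 4825385941, nat_lit 4827518787, nat_lit 4871001420, nat_lit 4872940173], nat_lit 1271250, nat_lit 1271250, nat_lit 1271250, nat_lit 1271250, nat_lit 1271250, nat_lit 1271250, [nat_lit 1100000, nat_lit 1785000], [nat_lit 39, nat_lit 40, nat_lit 40, nat_lit 80, nat_lit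 7, nat_lit 207, nat_lit 0, nat_lit 5]⟩,
 ⟨nat_lit 3872, nat_lit 4184, ⟨.ofNat (nat_lit 835688), .ofNat (nat_lit 855565), .ofNat (nat_lit 837855), .ofNat (nat_lit 857732), .ofNat (nat_lit 828741), .ofNat (nat_lit 848098), .ofNat (nat_lit 830920), .ofNat (nat_lit 850277)⟩, ⟨.ofNat (nat_lit 457921), .ofNat (nat_lit 537427), .ofNat (nat_lit 479587), .ofNat (nat_lit 559094), .ofNat (nat_lit 455554), .ofNat (nat_lit 532980), .ofNat (nat_lit 477347), .ofNat (nat_lit 554773)⟩⟩, [⟨nat_lit 13, nat_lit 77, nat_lit 47, nat_lit 100, nat_lit 200458778⟩, ⟨nat_lit 16, nat_lit 83, nat_lit 98, nat_lit 100, nat_lit 201163157⟩, ⟨nat_lit 19, nat_lit 100, nat_lit 65, nat_lit 95, nat_lit 50745402⟩]⟩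
noncomputable def p085_l11 : Lf2 := ⟨nat_lit 0, nat_lit 2, [nat_lit 10, nat_lit 5, nat_lit 5, nat_lit 20], false, nat_lit 240, nat_lit 300, nat_lit 240, nat_lit 356, ⟨nat_lit 100, nat_lit 900, nat_lit 0, nat_lit 9, nat_lit 340, nat_lit 900, nat_lit 207, nat_lit 0, nat_lit 0, nat_lit 0, nat_lit 0, nat_lit 0, nat_lit 32302993, nat_lit 24015807, nat_lit 10681200, nat_lit 5462272, true, true⟩,
 nat_lit 0, nat_lit 0, nat_lit 1150, nat_lit 0, nat_lit 3325, nat_lit 654, nat_lit 0, nat_lit 0, nat_lit 0, nat_lit 167, nat_lit 0, nat_lit 0, nat_lit 0, nat_lit 0, nat_lit 0, nat_lit 526200, nat_lit 0, nat_lit 0, [(nat_lit 18, [(nat_lit 1, nat_lit 623), (nat_lit 2, nat_lit 277)])],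
 ⟨p085_k6, nat_lit 0, nat_lit 0, nat_lit 63, nat_lit 0, nat_lit 0, [nat_lit 1545654134, nat_lit 1967990666], [], [nat_lit 28128493960, nat_lit 28880741701, nat_lit 28669155700, nat_lit 29398934775, nat_lit 29746183600, nat_lit 30418820258, nat_lit 30231773913, nat_lit 30897555844], nat_lit 0, nat_lit 0, nat_lit 0, nat_lit 0, nat_lit 0, nat_lit 0, [], [nat_lit 24, nat_lit 40, nat_lit 40, nat_lit 80, nat_lit 33, nat_lit 203, nat_lit 0, nat_lit 6]⟩, ⟨p085_k13, nat_lit 0, nat_lit 0, nat_lit 419, nat_lit 0, nat_lit 928819, [nat_lit 468800000, nat_lit 796800000], [], [nat_lit 3195779377, nat_lit 3202436726, nat_lit 3235949629, nat_lit 3242202455, nat_lit 3397761219, nat_lit 3401563465, nat_lit 3428546066, nat_lit 3432024000], nat_lit 1271250, nat_lit 1271250, nat_lit 1271250, nat_lit 1271250, nat_lit 1271250, nat_lit 1271250, [nat_lit 1100000, nat_lit 1785000], [nat_lit 39, nat_lit 40, nat_lit 40, nat_lit 80, nat_lit 7,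 nat_lit 230, nat_lit 0, nat_lit 6]⟩,
 ⟨nat_lit 3872, nat_lit 4473, ⟨.ofNat (nat_lit 844797), .ofNat (nat_lit 865191), .ofNat (nat_lit 850185), .ofNat (nat_lit 870580), .ofNat (nat_lit 830903), .ofNat (nat_lit 850260), .ofNat (nat_lit 836348), .ofNat (nat_lit 855706)⟩, ⟨.ofNat (nat_lit 460144), .ofNat (nat_lit 562111), .ofNat (nat_lit 481711), .ofNat (nat_lit 583678), .ofNat (nat_lit 455554), .ofNat (nat_lit 552336), .ofNat (nat_lit 477347), .ofNat (nat_lit 574129)⟩⟩, [⟨nat_lit 16, nat_lit 82, nat_lit 100, nat_lit 97, nat_lit 188463959⟩, ⟨nat_lit 19, nat_lit 100, nat_lit 66, nat_lit 95, nat_lit 35062403⟩]⟩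
noncomputable def p085_l12 : Lf2 := ⟨nat_lit 0, nat_lit 5, [nat_lit 4, nat_lit 5, nat_lit 5, nat_lit 20], false, nat_lit 240, nat_lit 280, nat_lit 240, nat_lit 356, ⟨nat_lit 174, nat_lit 826, nat_lit 0, nat_lit 9, nat_lit 340, nat_lit 826, nat_lit 201, nat_lit 0, nat_lit 0, nat_lit 0, nat_lit 0, nat_lit 0, nat_lit 32623171, nat_lit 24146798, nat_lit 10230031, nat_lit 5420125, true, true⟩,
 nat_lit 0, nat_lit 0, nat_lit 1908, nat_lit 0, nat_lit 3762, nat_lit 1085, nat_lit 0, nat_lit 0, nat_lit 0, nat_lit 454, nat_lit 0, nat_lit 0, nat_lit 0, nat_lit 0, nat_lit 0, nat_lit 282250, nat_lit 0, nat_lit 0, [(nat_lit 18, [(nat_lit 0, nat_lit 725), (nat_lit 2, nat_lit 101)])],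
 ⟨p085_k4, nat_lit 0, nat_lit 0, nat_lit 68, nat_lit 0, nat_lit 0, [nat_lit 1636736534, nat_lit 2493090667, nat_lit 2900186800], [], [nat_lit 28373708011, nat_lit 29195236883, nat_lit 28972227031, nat_lit 29767099263, nat_lit 29514923801, nat_lit 30274365322, nat_lit 30070219543, nat_lit 30806519101], nat_lit 0, nat_lit 0, nat_lit 0, nat_lit 0, nat_lit 0, nat_lit 0, [], [nat_lit 6, nat_lit 40, nat_lit 40, nat_lit 80, nat_lit 3, nat_lit 203, nat_lit 0, nat_lit 5]⟩, ⟨p085_k14, nat_lit 0, nat_lit 0, nat_lit 334, nat_lit 0, nat_lit 722731, [nat_lit 815712000, nat_lit 1386432000], [], [nat_lit 5432045229, nat_lit 5436799336, nat_lit 5503167675, nat_lit 5507637116, nat_lit 5791788902, nat_lit 5794551941, nat_lit 5856679269, nat_lit 5865550756], nat_lit 1271250, nat_lit 1271250, nat_lit 1271250, nat_lit 1271250, nat_lit 1271250, nat_lit 1271250, [nat_lit 1100000, nat_lit 1785000], [nat_lit 39, nat_lit 40, nat_lit 40, nat_lit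 80, nat_lit 7, nat_lit 208, nat_lit 0, nat_lit 5]⟩,
 ⟨nat_lit 3872, nat_lit 4473, ⟨.ofNat (nat_lit 844797), .ofNat (nat_lit 865191), .ofNat (nat_lit 846952), .ofNat (nat_lit 867347), .ofNat (nat_lit 830903), .ofNat (nat_lit 850260), .ofNat (nat_lit 833081), .ofNat (nat_lit 852439)⟩, ⟨.ofNat (nat_lit 460144), .ofNat (nat_lit 528122), .ofNat (nat_lit 481711), .ofNat (nat_lit 549689), .ofNat (nat_lit 455554), .ofNat (nat_lit 520075), .ofNat (nat_lit 477347), .ofNat (nat_lit 541869)⟩⟩, [⟨nat_lit 13, nat_lit 74, nat_lit 50, nat_lit 100, nat_lit 200830101⟩, ⟨nat_lit 4, nat_lit 100, nat_lit 82, nat_lit 97, nat_lit 217479020⟩, ⟨nat_lit 19, nat_lit 100, nat_lit 66, nat_lit 95, nat_lit 61947274⟩]⟩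
noncomputable def p085_l13 : Lf2 := ⟨nat_lit 0, nat_lit 5, [nat_lit 4, nat_lit 5, nat_lit 5, nat_lit 20], false, nat_lit 240, nat_lit 280, nat_lit 240, nat_lit 356, ⟨nat_lit 177, nat_lit 823, nat_lit 0, nat_lit 9, nat_lit 340, nat_lit 823, nat_lit 201, nat_lit 0, nat_lit 0, nat_lit 0, nat_lit 0, nat_lit 0, nat_lit 32580885, nat_lit 24199681, nat_lit 10219434, nat_lit 5420320, true, true⟩,
 nat_lit 0, nat_lit 0, nat_lit 1913, nat_lit 0, nat_lit 3707, nat_lit 1098, nat_lit 0, nat_lit 0, nat_lit 0, nat_lit 400, nat_lit 0, nat_lit 0, nat_lit 0, nat_lit 0, nat_lit 0, nat_lit 333250, nat_lit 0, nat_lit 0, [(nat_lit 18, [(nat_lit 0, nat_lit 653), (nat_lit 2, nat_lit 170)])],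
 ⟨p085_k4, nat_lit 0, nat_lit 0, nat_lit 68, nat_lit 0, nat_lit 0, [nat_lit 1649899734, nat_lit 2423186667, nat_lit 2703892000], [], [nat_lit 28324169851, nat_lit 29141565605, nat_lit 28918997821, nat_lit 29710023573, nat_lit 29462845147, nat_lit 30218801175, nat_lit 30014907153, nat_lit 30746737296], nat_lit 0, nat_lit 0, nat_lit 0, nat_lit 0, nat_lit 0, nat_lit 0, [], [nat_lit 6, nat_lit 40, nat_lit 40, nat_lit 80, nat_lit 3, nat_lit 203, nat_lit 0, nat_lit 5]⟩, ⟨p085_k15, nat_lit 0, nat_lit 0, nat_lit 331, nat_lit 0, nat_lit 719763, [nat_lit 829776000, nat_lit 1410336000], [], [nat_lit 5559928668, nat_lit 5562351358, nat_lit 5631851359, nat_lit 5634129856, nat_lit 5923987517, nat_lit 5925401542, nat_lit 5979237044, nat_lit 5980536006], nat_lit 1271250, nat_lit 1271250, nat_lit 1271250, nat_lit 1271250, nat_lit 1271250, nat_lit 1271250, [nat_lit 1100000, nat_lit 1785000], [nat_lit 39, nat_lit 40, nat_lit 40, nat_lit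 80, nat_lit 7, nat_lit 207, nat_lit 0, nat_lit 5]⟩,
 ⟨nat_lit 3872, nat_lit 4473, ⟨.ofNat (nat_lit 846952), .ofNat (nat_lit 867347), .ofNat (nat_lit 848030), .ofNat (nat_lit 868424), .ofNat (nat_lit 833081), .ofNat (nat_lit 852439), .ofNat (nat_lit 834170), .ofNat (nat_lit 853527)⟩, ⟨.ofNat (nat_lit 460144), .ofNat (nat_lit 528122), .ofNat (nat_lit 481711), .ofNat (nat_lit 549689), .ofNat (nat_lit 455554), .ofNat (nat_lit 520075), .ofNat (nat_lit 477347), .ofNat (nat_lit 541869)⟩⟩, [⟨nat_lit 13, nat_lit 75, nat_lit 49, nat_lit 100, nat_lit 199997439⟩, ⟨nat_lit 4, nat_lit 100, nat_lit 82, nat_lit 97, nat_lit 219167347⟩, ⟨nat_lit 19, nat_lit 100, nat_lit 67, nat_lit 96, nat_lit 62012652⟩]⟩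
noncomputable def p085_l14 : Lf2 := ⟨nat_lit 0, nat_lit 5, [nat_lit 4, nat_lit 5, nat_lit 5, nat_lit 20], false, nat_lit 280, nat_lit 300, nat_lit 240, nat_lit 356, ⟨nat_lit 280, nat_lit 720, nat_lit 0, nat_lit 9, nat_lit 340, nat_lit 720, nat_lit 221, nat_lit 0, nat_lit 0, nat_lit 0, nat_lit 0, nat_lit 0, nat_lit 31770339, nat_lit 23608977, nat_lit 11620684, nat_lit 5540138, true, true⟩,
 nat_lit 0, nat_lit 0, nat_lit 3059, nat_lit 0, nat_lit 3657, nat_lit 1739, nat_lit 0, nat_lit 0, nat_lit 0, nat_lit 727, nat_lit 0, nat_lit 0, nat_lit 0, nat_lit 0, nat_lit 0, nat_lit 524250, nat_lit 0, nat_lit 0, [(nat_lit 18, [(nat_lit 0, nat_lit 261), (nat_lit 2, nat_lit 459)])],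
 ⟨p085_k4, nat_lit 0, nat_lit 0, nat_lit 69, nat_lit 0, nat_lit 0, [nat_lit 1750177601, nat_lit 2358296001, nat_lit 2215253200], [], [nat_lit 29441714446, nat_lit 30166946739, nat_lit 29963755037, nat_lit 30692180355, nat_lit 29987889234, nat_lit 30704704130, nat_lit 30510289353, nat_lit 31271108549], nat_lit 0, nat_lit 0, nat_lit 0, nat_lit 0, nat_lit 0, nat_lit 0, [], [nat_lit 6, nat_lit 40, nat_lit 40, nat_lit 80, nat_lit 3, nat_lit 203, nat_lit 0, nat_lit 5]⟩, ⟨p085_k14, nat_lit 0, nat_lit 0, nat_lit 340, nat_lit 0, nat_lit 729669, [nat_lit 1312640000, nat_lit 2231040000], [], [nat_lit 8776632111, nat_lit 8788124606, nat_lit 8890913778, nat_lit 8901721327, nat_lit 9355688941, nat_lit 9362390206, nat_lit 9443477971, nat_lit 9449632667], nat_lit 1271250, nat_lit 1271250, nat_lit 1271250, nat_lit 1271250, nat_lit 1271250, nat_lit 1271250, [nat_lit 1100000, nat_lit 1785000], [nat_lit 39, nat_lit 40, nat_lit 40, nat_lit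 80, nat_lit 7, nat_lit 210, nat_lit 0, nat_lit 5]⟩,
 ⟨nat_lit 3872, nat_lit 4473, ⟨.ofNat (nat_lit 844797), .ofNat (nat_lit 865191), .ofNat (nat_lit 848030), .ofNat (nat_lit 868424), .ofNat (nat_lit 830903), .ofNat (nat_lit 850260), .ofNat (nat_lit 834170), .ofNat (nat_lit 853527)⟩, ⟨.ofNat (nat_lit 528122), .ofNat (nat_lit 562111), .ofNat (nat_lit 549689), .ofNat (nat_lit 583678), .ofNat (nat_lit 520075), .ofNat (nat_lit 552336), .ofNat (nat_lit 541869), .ofNat (nat_lit 574129)⟩⟩, [⟨nat_lit 13, nat_lit 79, nat_lit 43, nat_lit 100, nat_lit 140158826⟩, ⟨nat_lit 4, nat_lit 100, nat_lit 82, nat_lit 97, nat_lit 447536024⟩, ⟨nat_lit 19, nat_lit 100, nat_lit 66, nat_lit 95, nat_lit 99305370⟩]⟩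
noncomputable def p085_l15 : Lf2 := ⟨nat_lit 0, nat_lit 5, [nat_lit 4, nat_lit 5, nat_lit 5, nat_lit 20], false, nat_lit 240, nat_lit 300, nat_lit 240, nat_lit 356, ⟨nat_lit 1000, nat_lit 0, nat_lit 0, nat_lit 0, nat_lit 0, nat_lit 0, nat_lit 0, nat_lit 0, nat_lit 0, nat_lit 0, nat_lit 0, nat_lit 0, nat_lit 0, nat_lit 0, nat_lit 0, nat_lit 0, false, false⟩,
 nat_lit 0, nat_lit 0, nat_lit 10330, nat_lit 0, nat_lit 5422, nat_lit 5957, nat_lit 0, nat_lit 0, nat_lit 0, nat_lit 2376, nat_lit 0, nat_lit 0, nat_lit 0, nat_lit 0, nat_lit 0, nat_lit 0, nat_lit 0, nat_lit 0, [],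
 ⟨p085_k4, nat_lit 0, nat_lit 0, nat_lit 67, nat_lit 0, nat_lit 0, [nat_lit 2032000001, nat_lit 4688000000, nat_lit 6250000000], [], [nat_lit 29953939264, nat_lit 30427076208, nat_lit 30663860884, nat_lit 31119343880, nat_lit 31780778041, nat_lit 32192689597, nat_lit 32405160892, nat_lit 32801701623], nat_lit 0, nat_lit 0, nat_lit 0, nat_lit 0, nat_lit 0, nat_lit 0, [], [nat_lit 6, nat_lit 40, nat_lit 40, nat_lit 80, nat_lit 3, nat_lit 203, nat_lit 0, nat_lit 5]⟩, ⟨p085_k16, nat_lit 0, nat_lit 0, nat_lit 281, nat_lit 0, nat_lit 574168, [nat_lit 4688000000, nat_lit 7968000000], [], [nat_lit 30431997333, nat_lit 30466266513, nat_lit 30903512940, nat_lit 30935899518, nat_lit 33026565418, nat_lit 33053594724, nat_lit 33442907435, nat_lit 33468257956], nat_lit 1271250, nat_lit 1271250, nat_lit 1271250, nat_lit 1271250, nat_lit 1271250, nat_lit 1271250, [nat_lit 1100000, nat_lit 1785000], [nat_lit 39, nat_lit 40, nat_lit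 40, nat_lit 80, nat_lit 7, nat_lit 203, nat_lit 0, nat_lit 5]⟩,
 zbF0, [⟨nat_lit 4, nat_lit 100, nat_lit 86, nat_lit 98, nat_lit 450076708⟩, ⟨nat_lit 19, nat_lit 100, nat_lit 68, nat_lit 96, nat_lit 377032823⟩]⟩
noncomputable def p085_l16 : Lf2 := ⟨nat_lit 0, nat_lit 5, [nat_lit 4, nat_lit 5, nat_lit 5, nat_lit 20], false, nat_lit 240, nat_lit 288, nat_lit 240, nat_lit 356, ⟨nat_lit 180, nat_lit 820, nat_lit 0, nat_lit 9, nat_lit 339, nat_lit 820, nat_lit 203, nat_lit 0, nat_lit 0, nat_lit 0, nat_lit 0, nat_lit 0, nat_lit 32547361, nat_lit 24080602, nat_lit 10372037, nat_lit 5433013, true, true⟩,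
 nat_lit 0, nat_lit 0, nat_lit 1935, nat_lit 0, nat_lit 3670, nat_lit 1115, nat_lit 0, nat_lit 0, nat_lit 0, nat_lit 388, nat_lit 0, nat_lit 0, nat_lit 0, nat_lit 0, nat_lit 0, nat_lit 352750, nat_lit 0, nat_lit 0, [(nat_lit 18, [(nat_lit 0, nat_lit 623), (nat_lit 2, nat_lit 197)])],
 ⟨p085_k11, nat_lit 0, nat_lit 0, nat_lit 62, nat_lit 0, nat_lit 0, [nat_lit 1655962134, nat_lit 2339496000], [], [nat_lit 28661487487, nat_lit 29068795133, nat_lit 29240743800, nat_lit 29634962860, nat_lit 29989244540, nat_lit 30359949756, nat_lit 30529760621, nat_lit 30937275367], nat_lit 0, nat_lit 0, nat_lit 0, nat_lit 0, nat_lit 0, nat_lit 0, [], [nat_lit 24, nat_lit 40, nat_lit 40, nat_lit 80, nat_lit 33, nat_lit 203, nat_lit 0, nat_lit 6]⟩, ⟨p085_k16, nat_lit 0, nat_lit 0, nat_lit 338, nat_lit 0, nat_lit 728485, [nat_lit 843840000, nat_lit 1434240000], [], [nat_lit 5662587657, nat_lit 5667517786, nat_lit 5735544414, nat_lit 5740181605,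 nat_lit 6031831335, nat_lit 6034712222, nat_lit 6087881360, nat_lit 6090528482], nat_lit 1271250, nat_lit 1271250, nat_lit 1271250, nat_lit 1271250, nat_lit 1271250, nat_lit 1271250, [nat_lit 1100000, nat_lit 1785000], [nat_lit 39, nat_lit 40, nat_lit 40, nat_lit 80, nat_lit 7, nat_lit 209, nat_lit 0, nat_lit 5]⟩,
 ⟨nat_lit 3872, nat_lit 4184, ⟨.ofNat (nat_lit 841104), .ofNat (nat_lit 860982), .ofNat (nat_lit 843271), .ofNat (nat_lit 863148), .ofNat (nat_lit 834188), .ofNat (nat_lit 853545), .ofNat (nat_lit 836367), .ofNat (nat_lit 855724)⟩, ⟨.ofNat (nat_lit 457921), .ofNat (nat_lit 537427), .ofNat (nat_lit 479587), .ofNat (nat_lit 559094), .ofNat (nat_lit 455554), .ofNat (nat_lit 532980), .ofNat (nat_lit 477347), .ofNat (nat_lit 554773)⟩⟩, [⟨nat_lit 13, nat_lit 75, nat_lit 48, nat_lit 100, nat_lit 194932973⟩, ⟨nat_lit 4, nat_lit 100, nat_lit 79, nat_lit 96, nat_lit 233171813⟩, ⟨nat_lit 19, nat_lit 100, nat_lit 68,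 nat_lit 96, nat_lit 62982482⟩]⟩
noncomputable def p085_l17 : Lf2 := ⟨nat_lit 0, nat_lit 2, [nat_lit 10, nat_lit 5, nat_lit 5, nat_lit 20], false, nat_lit 240, nat_lit 300, nat_lit 148, nat_lit 360, ⟨nat_lit 167, nat_lit 833, nat_lit 0, nat_lit 9, nat_lit 349, nat_lit 833, nat_lit 208, nat_lit 0, nat_lit 0, nat_lit 0, nat_lit 0, nat_lit 0, nat_lit 31740301, nat_lit 24671640, nat_lit 10588059, nat_lit 5467815, true, true⟩,
 nat_lit 0, nat_lit 0, nat_lit 1916, nat_lit 0, nat_lit 3212, nat_lit 1064, nat_lit 314, nat_lit 0, nat_lit 0, nat_lit 322, nat_lit 0, nat_lit 0, nat_lit 0, nat_lit 0, nat_lit 0, nat_lit 333200, nat_lit 0, nat_lit 0, [(nat_lit 18, [(nat_lit 1, nat_lit 833)])],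
 ⟨p085_k17, nat_lit 0, nat_lit 0, nat_lit 63, nat_lit 0, nat_lit 0, [nat_lit 1468892001, nat_lit 1949533201, nat_lit 2377075799], [], [nat_lit 28518263194, nat_lit 28879496560, nat_lit 29051897329, nat_lit 29402167122, nat_lit 30075094168, nat_lit 30404414327, nat_lit 30581050030, nat_lit 30949977464], nat_lit 0, nat_lit 0, nat_lit 0, nat_lit 0, nat_lit 0, nat_lit 0, [], [nat_lit 78, nat_lit 40, nat_lit 40, nat_lit 80, nat_lit 22, nat_lit 203, nat_lit 0, nat_lit 6]⟩, ⟨p085_k18, nat_lit 0, nat_lit 0, nat_lit 403, nat_lit 0, nat_lit 797938, [nat_lit 782896000, nat_lit 1043750000, nat_lit 1330656000], [], [nat_lit 5241443238, nat_lit 5275661632, nat_lit 5335153881, nat_lit 5367518113, nat_lit 5741838545, nat_lit 5757870834, nat_lit 5803016268, nat_lit 5835775817], nat_lit 1271250, nat_lit 1271250, nat_lit 1271250, nat_lit 1271250, nat_lit 1000851, nat_lit 2792250, [nat_lit 1100000, nat_lit 1442500, nat_lit 1271250],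 [nat_lit 9, nat_lit 40, nat_lit 40, nat_lit 80, nat_lit 2, nat_lit 317, nat_lit 100, nat_lit 9]⟩,
 ⟨nat_lit 4183, nat_lit 4473, ⟨.ofNat (nat_lit 859812), .ofNat (nat_lit 880206), .ofNat (nat_lit 870593), .ofNat (nat_lit 890987), .ofNat (nat_lit 852311), .ofNat (nat_lit 872188), .ofNat (nat_lit 863142), .ofNat (nat_lit 883019)⟩, ⟨.ofNat (nat_lit 460144), .ofNat (nat_lit 562111), .ofNat (nat_lit 481711), .ofNat (nat_lit 583678), .ofNat (nat_lit 457921), .ofNat (nat_lit 557304), .ofNat (nat_lit 479587), .ofNat (nat_lit 578971)⟩⟩, [⟨nat_lit 13, nat_lit 81, nat_lit 40, nat_lit 100, nat_lit 215956298⟩, ⟨nat_lit 16, nat_lit 86, nat_lit 100, nat_lit 98, nat_lit 199003694⟩, ⟨nat_lit 19, nat_lit 100, nat_lit 71, nat_lit 93, nat_lit 53641316⟩]⟩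
noncomputable def p085_l18 : Lf2 := ⟨nat_lit 0, nat_lit 2, [nat_lit 10, nat_lit 5, nat_lit 5, nat_lit 20], true, nat_lit 240, nat_lit 288, nat_lit 148, nat_lit 360, ⟨nat_lit 0, nat_lit 1000, nat_lit 0, nat_lit 9, nat_lit 343, nat_lit 1000, nat_lit 203, nat_lit 0, nat_lit 0, nat_lit 0, nat_lit 0, nat_lit 0, nat_lit 32321850, nat_lit 24363789, nat_lit 10314361, nat_lit 5433888, true, true⟩,
 nat_lit 0, nat_lit 0, nat_lit 0, nat_lit 0, nat_lit 3026, nat_lit 0, nat_lit 0, nat_lit 0, nat_lit 0, nat_lit 0, nat_lit 0, nat_lit 0, nat_lit 0, nat_lit 0, nat_lit 0, nat_lit 400000, nat_lit 0, nat_lit 0, [(nat_lit 18, [(nat_lit 1, nat_lit 1000)])],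
 ⟨p085_k19, nat_lit 0, nat_lit 0, nat_lit 61, nat_lit 0, nat_lit 0, [nat_lit 1356000001, nat_lit 1682400000], [], [nat_lit 28594847733, nat_lit 28966688337, nat_lit 28773457976, nat_lit 29141562981, nat_lit 29860100984, nat_lit 30220922095, nat_lit 30024462933, nat_lit 30404124771], nat_lit 0, nat_lit 0, nat_lit 0, nat_lit 0, nat_lit 0, nat_lit 0, [], [nat_lit 112, nat_lit 40, nat_lit 40, nat_lit 80, nat_lit 113, nat_lit 203, nat_lit 0, nat_lit 7]⟩, C1.Rw.none,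
 ⟨nat_lit 3872, nat_lit 4184, ⟨.ofNat (nat_lit 852316), .ofNat (nat_lit 858941), .ofNat (nat_lit 863148), .ofNat (nat_lit 869774), .ofNat (nat_lit 844829), .ofNat (nat_lit 851281), .ofNat (nat_lit 855724), .ofNat (nat_lit 862177)⟩, ⟨.ofNat (nat_lit 457921), .ofNat (nat_lit 537427), .ofNat (nat_lit 479587), .ofNat (nat_lit 559094), .ofNat (nat_lit 455554), .ofNat (nat_lit 532980), .ofNat (nat_lit 477347), .ofNat (nat_lit 554773)⟩⟩, [⟨nat_lit 13, nat_lit 80, nat_lit 41, nat_lit 100, nat_lit 222648396⟩, ⟨nat_lit 16, nat_lit 83, nat_lit 98, nat_lit 100, nat_lit 158227574⟩]⟩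
noncomputable def p085_l19 : Lf2 := ⟨nat_lit 0, nat_lit 5, [nat_lit 4, nat_lit 5, nat_lit 5, nat_lit 20], false, nat_lit 240, nat_lit 300, nat_lit 148, nat_lit 360, ⟨nat_lit 952, nat_lit 48, nat_lit 0, nat_lit 9, nat_lit 349, nat_lit 48, nat_lit 208, nat_lit 0, nat_lit 0, nat_lit 0, nat_lit 0, nat_lit 0, nat_lit 31740301, nat_lit 24671640, nat_lit 10588059, nat_lit 5467815, true, true⟩,
 nat_lit 0, nat_lit 0, nat_lit 11167, nat_lit 0, nat_lit 4295, nat_lit 6203, nat_lit 804, nat_lit 0, nat_lit 0, nat_lit 1079, nat_lit 0, nat_lit 0, nat_lit 0, nat_lit 0, nat_lit 0, nat_lit 48000, nat_lit 0, nat_lit 0, [(nat_lit 18, [(nat_lit 2, nat_lit 48)])],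
 ⟨p085_k0, nat_lit 0, nat_lit 0, nat_lit 63, nat_lit 0, nat_lit 0, [nat_lit 2008729601, nat_lit 3204515201, nat_lit 5928726400], [], [nat_lit 29566604490, nat_lit 29958138818, nat_lit 30164174340, nat_lit 30552950046, nat_lit 31232436824, nat_lit 31618148735, nat_lit 31824347050, nat_lit 32202155927], nat_lit 0, nat_lit 0, nat_lit 0, nat_lit 0, nat_lit 0, nat_lit 0, [], [nat_lit 85, nat_lit 40, nat_lit 40, nat_lit 80, nat_lit 16, nat_lit 203, nat_lit 0, nat_lit 5]⟩, ⟨p085_k20, nat_lit 0, nat_lit 0, nat_lit 319, nat_lit 0, nat_lit 606638, [nat_lit 4462976000, nat_lit 5950000000, nat_lit 7585536000], [], [nat_lit 30400348596, nat_lit 30574768897, nat_lit 30902427979, nat_lit 31066836856, nat_lit 32871190159, nat_lit 32947102507, nat_lit 33215880722, nat_lit 33437351900], nat_lit 1271250, nat_lit 1271250, nat_lit 1271250, nat_lit 1271250, nat_lit 1000851, nat_lit 2792250, [nat_lit 1100000, nat_lit 1442500, nat_lit 1271250],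 [nat_lit 9, nat_lit 40, nat_lit 40, nat_lit 80, nat_lit 2, nat_lit 317, nat_lit 100, nat_lit 9]⟩,
 ⟨nat_lit 4183, nat_lit 4473, ⟨.ofNat (nat_lit 859812), .ofNat (nat_lit 880206), .ofNat (nat_lit 870593), .ofNat (nat_lit 890987), .ofNat (nat_lit 852311), .ofNat (nat_lit 872188), .ofNat (nat_lit 863142), .ofNat (nat_lit 883019)⟩, ⟨.ofNat (nat_lit 460144), .ofNat (nat_lit 562111), .ofNat (nat_lit 481711), .ofNat (nat_lit 583678), .ofNat (nat_lit 457921), .ofNat (nat_lit 557304), .ofNat (nat_lit 479587), .ofNat (nat_lit 578971)⟩⟩, [⟨nat_lit 13, nat_lit 81, nat_lit 40, nat_lit 100, nat_lit 70102851⟩, ⟨nat_lit 16, nat_lit 86, nat_lit 100, nat_lit 98, nat_lit 433043912⟩, ⟨nat_lit 19, nat_lit 100, nat_lit 71, nat_lit 93, nat_lit 296997902⟩]⟩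
noncomputable def p085_l20 : Lf2 := ⟨nat_lit 0, nat_lit 5, [nat_lit 4, nat_lit 5, nat_lit 5, nat_lit 20], false, nat_lit 240, nat_lit 288, nat_lit 148, nat_lit 360, ⟨nat_lit 123, nat_lit 877, nat_lit 0, nat_lit 9, nat_lit 344, nat_lit 877, nat_lit 203, nat_lit 0, nat_lit 0, nat_lit 0, nat_lit 0, nat_lit 0, nat_lit 32259346, nat_lit 24415306, nat_lit 10325348, nat_lit 5436177, true, true⟩,
 nat_lit 0, nat_lit 0, nat_lit 1466, nat_lit 0, nat_lit 3172, nat_lit 814, nat_lit 0, nat_lit 0, nat_lit 0, nat_lit 188, nat_lit 0, nat_lit 0, nat_lit 0, nat_lit 0, nat_lit 0, nat_lit 350800, nat_lit 0, nat_lit 0, [(nat_lit 18, [(nat_lit 1, nat_lit 877)])],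
 ⟨p085_k3, nat_lit 0, nat_lit 0, nat_lit 60, nat_lit 0, nat_lit 0, [nat_lit 1439148001, nat_lit 1879150801, nat_lit 2257070199], [], [nat_lit 28747169106, nat_lit 28935699450, nat_lit 28928939928, nat_lit 29115540145, nat_lit 30019019031, nat_lit 30191789531, nat_lit 30186075747, nat_lit 30377016466], nat_lit 0, nat_lit 0, nat_lit 0, nat_lit 0, nat_lit 0, nat_lit 0, [], [nat_lit 78, nat_lit 40, nat_lit 40, nat_lit 80, nat_lit 22, nat_lit 203, nat_lit 0, nat_lit 6]⟩, ⟨p085_k20, nat_lit 0, nat_lit 0, nat_lit 357, nat_lit 0, nat_lit 687085, [nat_lit 576624000, nat_lit 768750000, nat_lit 980064000], [], [nat_lit 3927814390, nat_lit 3950698946, nat_lit 3949772455, nat_lit 3972217214, nat_lit 4251374728, nat_lit 4261270760, nat_lit 4265591191, nat_lit 4275189483], nat_lit 1271250, nat_lit 1271250, nat_lit 1271250, nat_lit 1271250, nat_lit 1000851, nat_lit 2792250, [nat_lit 1100000, nat_lit 1442500, nat_lit 1271250], [nat_lit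 9, nat_lit 40, nat_lit 40, nat_lit 80, nat_lit 2, nat_lit 317, nat_lit 100, nat_lit 9]⟩,
 ⟨nat_lit 4031, nat_lit 4184, ⟨.ofNat (nat_lit 852315), .ofNat (nat_lit 858941), .ofNat (nat_lit 863148), .ofNat (nat_lit 869774), .ofNat (nat_lit 848573), .ofNat (nat_lit 855112), .ofNat (nat_lit 859436), .ofNat (nat_lit 865975)⟩, ⟨.ofNat (nat_lit 457921), .ofNat (nat_lit 537427), .ofNat (nat_lit 479587), .ofNat (nat_lit 559094), .ofNat (nat_lit 456758), .ofNat (nat_lit 535227), .ofNat (nat_lit 478484), .ofNat (nat_lit 556953)⟩⟩, [⟨nat_lit 13, nat_lit 80, nat_lit 41, nat_lit 100, nat_lit 188904155⟩, ⟨nat_lit 16, nat_lit 83, nat_lit 98, nat_lit 100, nat_lit 193722263⟩, ⟨nat_lit 7, nat_lit 71, nat_lit 100, nat_lit 93, nat_lit 38252230⟩]⟩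
noncomputable def p085_l21 : Lf2 := ⟨nat_lit 0, nat_lit 5, [nat_lit 4, nat_lit 5, nat_lit 5, nat_lit 20], false, nat_lit 240, nat_lit 284, nat_lit 148, nat_lit 356, ⟨nat_lit 79, nat_lit 921, nat_lit 0, nat_lit 9, nat_lit 342, nat_lit 921, nat_lit 201, nat_lit 0, nat_lit 0, nat_lit 0, nat_lit 0, nat_lit 0, nat_lit 32438091, nat_lit 24348117, nat_lit 10213792, nat_lit 5423264, true, true⟩,
 nat_lit 0, nat_lit 0, nat_lit 961, nat_lit 0, nat_lit 3250, nat_lit 533, nat_lit 0, nat_lit 0, nat_lit 0, nat_lit 87, nat_lit 0, nat_lit 0, nat_lit 0, nat_lit 0, nat_lit 0, nat_lit 230250, nat_lit 0, nat_lit 0, [(nat_lit 18, [(nat_lit 0, nat_lit 921)])],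
 ⟨p085_k21, nat_lit 0, nat_lit 0, nat_lit 60, nat_lit 0, nat_lit 0, [nat_lit 1572236800, nat_lit 1882080001, nat_lit 2375419399], [], [nat_lit 29004954051, nat_lit 29194878801, nat_lit 29186449976, nat_lit 29374411301, nat_lit 30159360292, nat_lit 30355728288, nat_lit 30349642147, nat_lit 30545264795], nat_lit 0, nat_lit 0, nat_lit 0, nat_lit 0, nat_lit 0, nat_lit 0, [], [nat_lit 78, nat_lit 40, nat_lit 40, nat_lit 80, nat_lit 22, nat_lit 203, nat_lit 0, nat_lit 6]⟩, ⟨p085_k20, nat_lit 0, nat_lit 0, nat_lit 390, nat_lit 0, nat_lit 769771, [nat_lit 370352000, nat_lit 493750000, nat_lit 629472000], [], [nat_lit 2557520753, nat_lit 2570543889, nat_lit 2570740505, nat_lit 2583496290, nat_lit 2727072519, nat_lit 2732446851, nat_lit 2735666718, nat_lit 2741536039], nat_lit 1271250, nat_lit 1271250, nat_lit 1271250, nat_lit 1271250, nat_lit 1000851, nat_lit 2758450, [nat_lit 1100000, nat_lit 1442500, nat_lit 1271250], [nat_lit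 9, nat_lit 40, nat_lit 40, nat_lit 80, nat_lit 2, nat_lit 317, nat_lit 100, nat_lit 9]⟩,
 ⟨nat_lit 3872, nat_lit 4032, ⟨.ofNat (nat_lit 848573), .ofNat (nat_lit 855112), .ofNat (nat_lit 859436), .ofNat (nat_lit 865975), .ofNat (nat_lit 844829), .ofNat (nat_lit 851281), .ofNat (nat_lit 855725), .ofNat (nat_lit 862178)⟩, ⟨.ofNat (nat_lit 456758), .ofNat (nat_lit 528687), .ofNat (nat_lit 478484), .ofNat (nat_lit 550414), .ofNat (nat_lit 455554), .ofNat (nat_lit 526527), .ofNat (nat_lit 477347), .ofNat (nat_lit 548321)⟩⟩, [⟨nat_lit 13, nat_lit 77, nat_lit 44, nat_lit 100, nat_lit 234411262⟩, ⟨nat_lit 16, nat_lit 81, nat_lit 100, nat_lit 100, nat_lit 208128117⟩, ⟨nat_lit 22, nat_lit 48, nat_lit 70, nat_lit 100, nat_lit 45791098⟩]⟩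
noncomputable def b_V_800_600_20_9 : St := ⟨true, nat_lit 0, nat_lit 1, nat_lit 1, nat_lit 120, nat_lit 320, nat_lit 340, nat_lit 240, nat_lit 260, nat_lit 360, nat_lit 392, nat_lit 100, nat_lit 120, nat_lit 240, nat_lit 300, nat_lit 112, nat_lit 364, nat_lit 0, nat_lit 20, nat_lit 0, nat_lit 0, nat_lit 0, nat_lit 0⟩
theorem d_V_800_600_20_9 (h : EB TB.env) : Dead b_V_800_600_20_9 := chkB_sound0 h (T :=
(.spl (nat_lit 1) (nat_lit 250)
(.trX (nat_lit 13) (nat_lit 83) (nat_lit 39) (nat_lit 100) (nat_lit 388) (.spl (nat_lit 0) (nat_lit 330)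
(.spl (nat_lit 0) (nat_lit 325)
(.leaf p085_l0)
(.trX (nat_lit 13) (nat_lit 81) (nat_lit 42) (nat_lit 100) (nat_lit 384) (.trX (nat_lit 16) (nat_lit 85) (nat_lit 97) (nat_lit 100) (nat_lit 296) (.leaf p085_l1))))
(.trX (nat_lit 13) (nat_lit 78) (nat_lit 45) (nat_lit 100) (nat_lit 380) (.trX (nat_lit 16) (nat_lit 83) (nat_lit 98) (nat_lit 100) (nat_lit 288) (.leaf p085_l2)))))
(.trX (nat_lit 19) (nat_lit 100) (nat_lit 64) (nat_lit 95) (nat_lit 360) (.spl (nat_lit 2) (nat_lit 380)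
(.spl (nat_lit 5) (nat_lit 240)
(.leaf p085_l3)
(.spl (nat_lit 2) (nat_lit 368)
(.leaf p085_l4)
(.spl (nat_lit 1) (nat_lit 255)
(.spl (nat_lit 6) (nat_lit 8)
(.leaf p085_l5)
(.spl (nat_lit 0) (nat_lit 330)
(.leaf p085_l6)
(.trX (nat_lit 16) (nat_lit 83) (nat_lit 98) (nat_lit 100) (nat_lit 288) (.spl (nat_lit 1) (nat_lit 253)
(.spl (nat_lit 6) (nat_lit 16)
(.spl (nat_lit 0) (nat_lit 335)
(.leaf p085_l7)
(.trX (nat_lit 16) (nat_lit 81) (nat_lit 100) (nat_lit 100) (nat_lit 284) (.leaf p085_l8)))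
(.leaf p085_l9))
(.trX (nat_lit 19) (nat_lit 100) (nat_lit 65) (nat_lit 95) (nat_lit 356) (.leaf p085_l10))))))
(.trX (nat_lit 19) (nat_lit 100) (nat_lit 66) (nat_lit 95) (nat_lit 356) (.spl (nat_lit 6) (nat_lit 8)
(.leaf p085_l11)
(.spl (nat_lit 1) (nat_lit 258)
(.spl (nat_lit 4) (nat_lit 280)
(.spl (nat_lit 1) (nat_lit 257)
(.leaf p085_l12)
(.leaf p085_l13))
(.leaf p085_l14))
(.spl (nat_lit 0) (nat_lit 330)
(.leaf p085_l15)
(.trX (nat_lit 16) (nat_lit 83) (nat_lit 98) (nat_lit 100) (nat_lit 288) (.leaf p085_l16)))))))))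
(.trZ (nat_lit 9) (nat_lit 100) (nat_lit 44) (nat_lit 99) (nat_lit 148) (.spl (nat_lit 6) (nat_lit 8)
(.spl (nat_lit 0) (nat_lit 330)
(.leaf p085_l17)
(.trX (nat_lit 13) (nat_lit 80) (nat_lit 41) (nat_lit 100) (nat_lit 384) (.trX (nat_lit 16) (nat_lit 83) (nat_lit 98) (nat_lit 100) (nat_lit 288) (.leaf p085_l18))))
(.spl (nat_lit 0) (nat_lit 330)
(.leaf p085_l19)
(.trX (nat_lit 13) (nat_lit 80) (nat_lit 41) (nat_lit 100) (nat_lit 384) (.trX (nat_lit 16) (nat_lit 83) (nat_lit 98) (nat_lit 100) (nat_lit 288) (.spl (nat_lit 0) (nat_lit 335)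
(.leaf p085_l20)
(.trX (nat_lit 16) (nat_lit 81) (nat_lit 100) (nat_lit 100) (nat_lit 284) (.trX (nat_lit 22) (nat_lit 48) (nat_lit 70) (nat_lit 100) (nat_lit 356) (.leaf p085_l21))))))))))))) (by decide +kernel)
noncomputable def p085_l22 : Lf2 := ⟨nat_lit 0, nat_lit 10, [nat_lit 0, nat_lit 5, nat_lit 5, nat_lit 20], false, nat_lit 240, nat_lit 300, nat_lit 112, nat_lit 364, ⟨nat_lit 1000, nat_lit 0, nat_lit 0, nat_lit 0, nat_lit 0, nat_lit 0, nat_lit 0, nat_lit 0, nat_lit 0, nat_lit 0, nat_lit 0, nat_lit 0, nat_lit 0, nat_lit 0, nat_lit 0, nat_lit 0, false, false⟩,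
 nat_lit 0, nat_lit 0, nat_lit 15206, nat_lit 0, nat_lit 5523, nat_lit 8050, nat_lit 0, nat_lit 0, nat_lit 0, nat_lit 751, nat_lit 0, nat_lit 0, nat_lit 0, nat_lit 0, nat_lit 0, nat_lit 0, nat_lit 0, nat_lit 0, [],
 ⟨p085_k22, nat_lit 0, nat_lit 0, nat_lit 69, nat_lit 0, nat_lit 0, [nat_lit 2032000001, nat_lit 4688000000, nat_lit 6250000000], [], [nat_lit 29438740356, nat_lit 29927617009, nat_lit 31111039727, nat_lit 31558109735, nat_lit 31330442679, nat_lit 31755656349, nat_lit 32937821794, nat_lit 33384953678], nat_lit 0, nat_lit 0, nat_lit 0, nat_lit 0, nat_lit 0, nat_lit 0, [], [nat_lit 6, nat_lit 40, nat_lit 40, nat_lit 80, nat_lit 3, nat_lit 203, nat_lit 0, nat_lit 5]⟩, ⟨p085_k23, nat_lit 0, nat_lit 0, nat_lit 271, nat_lit 0, nat_lit 306649, [nat_lit 4688000000, nat_lit 7968000000, nat_lit 11872000000], [], [nat_lit 33568971900, nat_lit 33784154980, nat_lit 35175419849, nat_lit 35355802309, nat_lit 35570657191,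 nat_lit 35635144146, nat_lit 36662568088, nat_lit 36745241975], nat_lit 1271250, nat_lit 1271250, nat_lit 1271250, nat_lit 1271250, nat_lit 719601, nat_lit 2763950, [nat_lit 1100000, nat_lit 1785000, nat_lit 1271250], [nat_lit 21, nat_lit 40, nat_lit 40, nat_lit 80, nat_lit 14, nat_lit 401, nat_lit 175, nat_lit 9]⟩,
 zbF0, [⟨nat_lit 13, nat_lit 80, nat_lit 44, nat_lit 100, nat_lit 87627144⟩, ⟨nat_lit 4, nat_lit 100, nat_lit 86, nat_lit 98, nat_lit 464483743⟩, ⟨nat_lit 19, nat_lit 100, nat_lit 66, nat_lit 92, nat_lit 272886240⟩]⟩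
noncomputable def p085_l23 : Lf2 := ⟨nat_lit 0, nat_lit 10, [nat_lit 0, nat_lit 5, nat_lit 5, nat_lit 20], false, nat_lit 240, nat_lit 288, nat_lit 112, nat_lit 364, ⟨nat_lit 147, nat_lit 853, nat_lit 0, nat_lit 9, nat_lit 331, nat_lit 853, nat_lit 203, nat_lit 0, nat_lit 0, nat_lit 0, nat_lit 0, nat_lit 0, nat_lit 33113989, nat_lit 23370391, nat_lit 10515620, nat_lit 5428795, true, true⟩,
 nat_lit 0, nat_lit 0, nat_lit 2268, nat_lit 0, nat_lit 3776, nat_lit 1200, nat_lit 0, nat_lit 0, nat_lit 0, nat_lit 113, nat_lit 0, nat_lit 0, nat_lit 0, nat_lit 0, nat_lit 0, nat_lit 213250, nat_lit 0, nat_lit 0, [(nat_lit 18, [(nat_lit 0, nat_lit 853)])],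
 ⟨p085_k24, nat_lit 0, nat_lit 0, nat_lit 68, nat_lit 0, nat_lit 0, [nat_lit 1606182400, nat_lit 2538440000, nat_lit 3104136000], [], [nat_lit 28434434608, nat_lit 28854634944, nat_lit 29411257540, nat_lit 29809183208, nat_lit 29801079468, nat_lit 30183017962, nat_lit 30693499334, nat_lit 31055439464], nat_lit 0, nat_lit 0, nat_lit 0, nat_lit 0, nat_lit 0, nat_lit 0, [], [nat_lit 6, nat_lit 40, nat_lit 40, nat_lit 80, nat_lit 3, nat_lit 203, nat_lit 0, nat_lit 5]⟩, ⟨p085_k23, nat_lit 0, nat_lit 0, nat_lit 375, nat_lit 0, nat_lit 486385, [nat_lit 689136000, nat_lit 1171296000, nat_lit 1745184000], [], [nat_lit 4893242793, nat_lit 4924868605, nat_lit 5063226926, nat_lit 5091155422, nat_lit 5193218355, nat_lit 5208933683, nat_lit 5313182742, nat_lit 5333779350], nat_lit 1271250, nat_lit 1271250, nat_lit 1271250, nat_lit 1271250, nat_lit 719601, nat_lit 2763950, [nat_lit 1100000, nat_lit 1785000, nat_lit 1271250], [nat_lit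 21, nat_lit 40, nat_lit 40, nat_lit 80, nat_lit 14, nat_lit 401, nat_lit 175, nat_lit 9]⟩,
 ⟨nat_lit 3872, nat_lit 4184, ⟨.ofNat (nat_lit 808354), .ofNat (nat_lit 841482), .ofNat (nat_lit 819187), .ofNat (nat_lit 852316), .ofNat (nat_lit 801671), .ofNat (nat_lit 833932), .ofNat (nat_lit 812568), .ofNat (nat_lit 844829)⟩, ⟨.ofNat (nat_lit 457921), .ofNat (nat_lit 537427), .ofNat (nat_lit 479587), .ofNat (nat_lit 559094), .ofNat (nat_lit 455554), .ofNat (nat_lit 532980), .ofNat (nat_lit 477347), .ofNat (nat_lit 554773)⟩⟩, [⟨nat_lit 13, nat_lit 76, nat_lit 50, nat_lit 100, nat_lit 220815844⟩, ⟨nat_lit 4, nat_lit 100, nat_lit 79, nat_lit 96, nat_lit 222356886⟩, ⟨nat_lit 19, nat_lit 100, nat_lit 66, nat_lit 92, nat_lit 40823225⟩]⟩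
noncomputable def p085_l24 : Lf2 := ⟨nat_lit 0, nat_lit 10, [nat_lit 0, nat_lit 5, nat_lit 5, nat_lit 20], false, nat_lit 240, nat_lit 300, nat_lit 112, nat_lit 360, ⟨nat_lit 1000, nat_lit 0, nat_lit 0, nat_lit 0, nat_lit 0, nat_lit 0, nat_lit 0, nat_lit 0, nat_lit 0, nat_lit 0, nat_lit 0, nat_lit 0, nat_lit 0, nat_lit 0, nat_lit 0, nat_lit 0, false, false⟩,
 nat_lit 0, nat_lit 0, nat_lit 11447, nat_lit 0, nat_lit 4344, nat_lit 6359, nat_lit 850, nat_lit 0, nat_lit 0, nat_lit 1338, nat_lit 0, nat_lit 0, nat_lit 0, nat_lit 0, nat_lit 0, nat_lit 0, nat_lit 0, nat_lit 0, [],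
 ⟨p085_k25, nat_lit 0, nat_lit 0, nat_lit 66, nat_lit 0, nat_lit 0, [nat_lit 2032000001, nat_lit 3282000000, nat_lit 6250000000], [], [nat_lit 28692229088, nat_lit 29524354304, nat_lit 30293702368, nat_lit 31053126148, nat_lit 30375477584, nat_lit 31135491060, nat_lit 31901471914, nat_lit 32662950912], nat_lit 0, nat_lit 0, nat_lit 0, nat_lit 0, nat_lit 0, nat_lit 0, [], [nat_lit 85, nat_lit 40, nat_lit 40, nat_lit 80, nat_lit 16, nat_lit 203, nat_lit 0, nat_lit 5]⟩, ⟨p085_k26, nat_lit 0, nat_lit 0, nat_lit 342, nat_lit 0, nat_lit 524567, [nat_lit 4688000000, nat_lit 6250000000, nat_lit 9842000000], [], [nat_lit 31562928023, nat_lit 31744824393, nat_lit 32926941297, nat_lit 33081264298, nat_lit 33698409677, nat_lit 33800685787, nat_lit 34817163117, nat_lit 34930766574], nat_lit 1271250, nat_lit 1271250, nat_lit 1271250, nat_lit 1271250, nat_lit 719601, nat_lit 2731500, [nat_lit 1100000, nat_lit 1442500, nat_lit 1271250],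 [nat_lit 11, nat_lit 40, nat_lit 40, nat_lit 80, nat_lit 1, nat_lit 401, nat_lit 175, nat_lit 10]⟩,
 zbF0, [⟨nat_lit 13, nat_lit 74, nat_lit 52, nat_lit 100, nat_lit 7347251⟩, ⟨nat_lit 4, nat_lit 100, nat_lit 82, nat_lit 97, nat_lit 469334903⟩, ⟨nat_lit 7, nat_lit 71, nat_lit 100, nat_lit 93, nat_lit 279345990⟩]⟩
noncomputable def b_V_800_600_20_10 : St := ⟨true, nat_lit 0, nat_lit 1, nat_lit 1, nat_lit 120, nat_lit 320, nat_lit 340, nat_lit 240, nat_lit 260, nat_lit 360, nat_lit 392, nat_lit 100, nat_lit 120, nat_lit 240, nat_lit 300, nat_lit 112, nat_lit 364, nat_lit 20, nat_lit 40, nat_lit 0, nat_lit 0, nat_lit 0, nat_lit 0⟩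
theorem d_V_800_600_20_10 (h : EB TB.env) : Dead b_V_800_600_20_10 := chkB_sound0 h (T :=
(.spl (nat_lit 1) (nat_lit 250)
(.trX (nat_lit 13) (nat_lit 83) (nat_lit 39) (nat_lit 100) (nat_lit 388) (.spl (nat_lit 0) (nat_lit 330)
(.leaf p085_l22)
(.trX (nat_lit 13) (nat_lit 78) (nat_lit 45) (nat_lit 100) (nat_lit 380) (.trX (nat_lit 16) (nat_lit 83) (nat_lit 98) (nat_lit 100) (nat_lit 288) (.leaf p085_l23)))))
(.trX (nat_lit 19) (nat_lit 100) (nat_lit 64) (nat_lit 95) (nat_lit 360) (.leaf p085_l24)))) (by decide +kernel)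
noncomputable def p085_l25 : Lf2 := ⟨nat_lit 0, nat_lit 5, [nat_lit 4, nat_lit 5, nat_lit 5, nat_lit 20], true, nat_lit 240, nat_lit 276, nat_lit 112, nat_lit 364, ⟨nat_lit 0, nat_lit 1000, nat_lit 0, nat_lit 9, nat_lit 329, nat_lit 1000, nat_lit 197, nat_lit 0, nat_lit 0, nat_lit 0, nat_lit 0, nat_lit 0, nat_lit 33510799, nat_lit 23355785, nat_lit 10133416, nat_lit 5388768, true, true⟩,
 nat_lit 0, nat_lit 0, nat_lit 0, nat_lit 0, nat_lit 3043, nat_lit 0, nat_lit 0, nat_lit 0, nat_lit 0, nat_lit 0, nat_lit 0, nat_lit 0, nat_lit 0, nat_lit 0, nat_lit 0, nat_lit 400000, nat_lit 0, nat_lit 0, [(nat_lit 21, [(nat_lit 1, nat_lit 1000)])],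
 ⟨p085_k27, nat_lit 0, nat_lit 0, nat_lit 67, nat_lit 0, nat_lit 0, [nat_lit 1355200000, nat_lit 1492800000], [], [nat_lit 28178464894, nat_lit 28925190908, nat_lit 29015142489, nat_lit 29726673062, nat_lit 29113163139, nat_lit 29813865013, nat_lit 29900617442, nat_lit 30687861325], nat_lit 0, nat_lit 0, nat_lit 0, nat_lit 0, nat_lit 0, nat_lit 0, [], [nat_lit 24, nat_lit 40, nat_lit 40, nat_lit 80, nat_lit 33, nat_lit 203, nat_lit 0, nat_lit 6]⟩, C1.Rw.none,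
 ⟨nat_lit 3162, nat_lit 3873, ⟨.ofNat (nat_lit 801671), .ofNat (nat_lit 833932), .ofNat (nat_lit 823465), .ofNat (nat_lit 855725), .ofNat (nat_lit 788122), .ofNat (nat_lit 818598), .ofNat (nat_lit 810277), .ofNat (nat_lit 840753)⟩, ⟨.ofNat (nat_lit 455554), .ofNat (nat_lit 513623), .ofNat (nat_lit 477347), .ofNat (nat_lit 535416), .ofNat (nat_lit 450177), .ofNat (nat_lit 505035), .ofNat (nat_lit 472332), .ofNat (nat_lit 527190)⟩⟩, [⟨nat_lit 13, nat_lit 75, nat_lit 48, nat_lit 100, nat_lit 237269686⟩, ⟨nat_lit 16, nat_lit 77, nat_lit 100, nat_lit 99, nat_lit 168534315⟩]⟩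
noncomputable def p085_l26 : Lf2 := ⟨nat_lit 0, nat_lit 10, [nat_lit 0, nat_lit 5, nat_lit 5, nat_lit 20], false, nat_lit 240, nat_lit 276, nat_lit 112, nat_lit 364, ⟨nat_lit 114, nat_lit 886, nat_lit 0, nat_lit 9, nat_lit 325, nat_lit 886, nat_lit 197, nat_lit 0, nat_lit 0, nat_lit 0, nat_lit 0, nat_lit 0, nat_lit 33742173, nat_lit 23069661, nat_lit 10188166, nat_lit 5385944, true, true⟩,
 nat_lit 0, nat_lit 0, nat_lit 1814, nat_lit 0, nat_lit 3295, nat_lit 960, nat_lit 0, nat_lit 0, nat_lit 0, nat_lit 82, nat_lit 0, nat_lit 0, nat_lit 0, nat_lit 0, nat_lit 0, nat_lit 334450, nat_lit 0, nat_lit 0, [(nat_lit 21, [(nat_lit 0, nat_lit 133), (nat_lit 1, nat_lit 753)])],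
 ⟨p085_k28, nat_lit 0, nat_lit 0, nat_lit 70, nat_lit 0, nat_lit 0, [nat_lit 1459380801, nat_lit 1943928400, nat_lit 2121394000], [], [nat_lit 28457798311, nat_lit 29224518120, nat_lit 29146426452, nat_lit 29916162128, nat_lit 29401058274, nat_lit 30151481032, nat_lit 30080253360, nat_lit 30800841322], nat_lit 0, nat_lit 0, nat_lit 0, nat_lit 0, nat_lit 0, nat_lit 0, [], [nat_lit 6, nat_lit 40, nat_lit 40, nat_lit 80, nat_lit 3, nat_lit 203, nat_lit 0, nat_lit 5]⟩, ⟨p085_k23, nat_lit 0, nat_lit 0, nat_lit 549, nat_lit 0, nat_lit 873830, [nat_lit 534432000, nat_lit 908352000, nat_lit 1353408000], [], [nat_lit 3975552805, nat_lit 3989835985, nat_lit 4052726923, nat_lit 4065292035, nat_lit 4052981784, nat_lit 4057704842, nat_lit 4125092689, nat_lit 4136453252], nat_lit 1271250, nat_lit 1271250, nat_lit 1271250, nat_lit 1271250, nat_lit 719601, nat_lit 2763950, [nat_lit 1100000, nat_lit 1785000, nat_lit 1271250], [nat_lit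 21, nat_lit 40, nat_lit 40, nat_lit 80, nat_lit 14, nat_lit 401, nat_lit 175, nat_lit 9]⟩,
 ⟨nat_lit 3162, nat_lit 3873, ⟨.ofNat (nat_lit 801671), .ofNat (nat_lit 827480), .ofNat (nat_lit 812568), .ofNat (nat_lit 838377), .ofNat (nat_lit 788122), .ofNat (nat_lit 812503), .ofNat (nat_lit 799199), .ofNat (nat_lit 823581)⟩, ⟨.ofNat (nat_lit 455554), .ofNat (nat_lit 513623), .ofNat (nat_lit 477347), .ofNat (nat_lit 535416), .ofNat (nat_lit 450177), .ofNat (nat_lit 505035), .ofNat (nat_lit 472332), .ofNat (nat_lit 527190)⟩⟩, [⟨nat_lit 13, nat_lit 68, nat_lit 60, nat_lit 100, nat_lit 212718567⟩, ⟨nat_lit 16, nat_lit 77, nat_lit 100, nat_lit 99, nat_lit 236482070⟩, ⟨nat_lit 22, nat_lit 57, nat_lit 68, nat_lit 100, nat_lit 46961299⟩]⟩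
noncomputable def p085_l27 : Lf2 := ⟨nat_lit 0, nat_lit 10, [nat_lit 0, nat_lit 5, nat_lit 5, nat_lit 20], false, nat_lit 240, nat_lit 276, nat_lit 112, nat_lit 360, ⟨nat_lit 121, nat_lit 879, nat_lit 0, nat_lit 9, nat_lit 328, nat_lit 879, nat_lit 197, nat_lit 0, nat_lit 0, nat_lit 0, nat_lit 0, nat_lit 0, nat_lit 33521230, nat_lit 23342878, nat_lit 10135892, nat_lit 5388651, true, true⟩,
 nat_lit 0, nat_lit 0, nat_lit 1754, nat_lit 0, nat_lit 3265, nat_lit 974, nat_lit 0, nat_lit 0, nat_lit 0, nat_lit 71, nat_lit 0, nat_lit 0, nat_lit 0, nat_lit 0, nat_lit 0, nat_lit 351600, nat_lit 0, nat_lit 0, [(nat_lit 21, [(nat_lit 1, nat_lit 879)])],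
 ⟨p085_k28, nat_lit 0, nat_lit 0, nat_lit 70, nat_lit 0, nat_lit 0, [nat_lit 1437092800, nat_lit 1879419201, nat_lit 2067718000], [], [nat_lit 28403855371, nat_lit 29167742441, nat_lit 29090187552, nat_lit 29857118977, nat_lit 29345693469, nat_lit 30093961179, nat_lit 30022572448, nat_lit 30764986160], nat_lit 0, nat_lit 0, nat_lit 0, nat_lit 0, nat_lit 0, nat_lit 0, [], [nat_lit 6, nat_lit 40, nat_lit 40, nat_lit 80, nat_lit 3, nat_lit 203, nat_lit 0, nat_lit 5]⟩, ⟨p085_k29, nat_lit 0, nat_lit 0, nat_lit 486, nat_lit 0, nat_lit 843714, [nat_lit 567248000, nat_lit 964128000, nat_lit 1190882000], [], [nat_lit 4149340533, nat_lit 4158975196, nat_lit 4236176259, nat_lit 4244853990, nat_lit 4261571114, nat_lit 4263480524, nat_lit 4311849426, nat_lit 4321082605], nat_lit 1271250, nat_lit 1271250, nat_lit 1271250, nat_lit 1271250, nat_lit 719601, nat_lit 2731500, [nat_lit 1100000, nat_lit 1785000, nat_lit 1271250], [nat_lit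 29, nat_lit 40, nat_lit 40, nat_lit 80, nat_lit 17, nat_lit 401, nat_lit 175, nat_lit 10]⟩,
 ⟨nat_lit 3162, nat_lit 3873, ⟨.ofNat (nat_lit 812568), .ofNat (nat_lit 838377), .ofNat (nat_lit 818016), .ofNat (nat_lit 843825), .ofNat (nat_lit 799199), .ofNat (nat_lit 823581), .ofNat (nat_lit 804738), .ofNat (nat_lit 829119)⟩, ⟨.ofNat (nat_lit 455554), .ofNat (nat_lit 513623), .ofNat (nat_lit 477347), .ofNat (nat_lit 535416), .ofNat (nat_lit 450177), .ofNat (nat_lit 505035), .ofNat (nat_lit 472332), .ofNat (nat_lit 527190)⟩⟩, [⟨nat_lit 13, nat_lit 69, nat_lit 57, nat_lit 100, nat_lit 233369295⟩, ⟨nat_lit 16, nat_lit 77, nat_lit 100, nat_lit 99, nat_lit 214844638⟩, ⟨nat_lit 19, nat_lit 100, nat_lit 64, nat_lit 95, nat_lit 29868208⟩]⟩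
noncomputable def p085_l28 : Lf2 := ⟨nat_lit 0, nat_lit 10, [nat_lit 0, nat_lit 5, nat_lit 5, nat_lit 20], false, nat_lit 240, nat_lit 276, nat_lit 112, nat_lit 356, ⟨nat_lit 120, nat_lit 880, nat_lit 0, nat_lit 9, nat_lit 332, nat_lit 880, nat_lit 197, nat_lit 0, nat_lit 0, nat_lit 0, nat_lit 0, nat_lit 0, nat_lit 33290920, nat_lit 23627988, nat_lit 10081092, nat_lit 5391012, true, true⟩,
 nat_lit 0, nat_lit 0, nat_lit 1642, nat_lit 0, nat_lit 3263, nat_lit 933, nat_lit 0, nat_lit 0, nat_lit 0, nat_lit 74, nat_lit 0, nat_lit 0, nat_lit 0, nat_lit 0, nat_lit 0, nat_lit 352000, nat_lit 0, nat_lit 0, [(nat_lit 21, [(nat_lit 1, nat_lit 880)])],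
 ⟨p085_k28, nat_lit 0, nat_lit 0, nat_lit 71, nat_lit 0, nat_lit 0, [nat_lit 1436416000, nat_lit 1876224001, nat_lit 2062960000], [], [nat_lit 28402173655, nat_lit 29165062809, nat_lit 29266620355, nat_lit 30026594523, nat_lit 29343947430, nat_lit 30091231935, nat_lit 30189046333, nat_lit 30946447917], nat_lit 0, nat_lit 0, nat_lit 0, nat_lit 0, nat_lit 0, nat_lit 0, [], [nat_lit 6, nat_lit 40, nat_lit 40, nat_lit 80, nat_lit 3, nat_lit 203, nat_lit 0, nat_lit 5]⟩, ⟨p085_k30, nat_lit 0, nat_lit 0, nat_lit 486, nat_lit 0, nat_lit 846085, [nat_lit 562560000, nat_lit 956160000, nat_lit 1181040000], [], [nat_lit 4107371100, nat_lit 4117010652, nat_lit 4212093369, nat_lit 4220580471, nat_lit 4214706496, nat_lit 4217039081, nat_lit 4281084635, nat_lit 4283702378], nat_lit 1271250, nat_lit 1271250, nat_lit 1271250, nat_lit 1271250, nat_lit 719601, nat_lit 2699050, [nat_lit 1100000, nat_lit 1785000, nat_lit 1271250], [nat_lit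 29, nat_lit 40, nat_lit 40, nat_lit 80, nat_lit 17, nat_lit 401, nat_lit 175, nat_lit 10]⟩,
 ⟨nat_lit 3162, nat_lit 3873, ⟨.ofNat (nat_lit 818016), .ofNat (nat_lit 850277), .ofNat (nat_lit 823465), .ofNat (nat_lit 855725), .ofNat (nat_lit 804738), .ofNat (nat_lit 835215), .ofNat (nat_lit 810277), .ofNat (nat_lit 840753)⟩, ⟨.ofNat (nat_lit 455554), .ofNat (nat_lit 513623), .ofNat (nat_lit 477347), .ofNat (nat_lit 535416), .ofNat (nat_lit 450177), .ofNat (nat_lit 505035), .ofNat (nat_lit 472332), .ofNat (nat_lit 527190)⟩⟩, [⟨nat_lit 13, nat_lit 69, nat_lit 55, nat_lit 100, nat_lit 100149216⟩, ⟨nat_lit 13, nat_lit 75, nat_lit 48, nat_lit 100, nat_lit 74918349⟩, ⟨nat_lit 16, nat_lit 77, nat_lit 100, nat_lit 99, nat_lit 236747655⟩, ⟨nat_lit 22, nat_lit 55, nat_lit 69, nat_lit 100, nat_lit 50511197⟩]⟩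
noncomputable def b_V_800_600_20_11 : St := ⟨true, nat_lit 0, nat_lit 1, nat_lit 1, nat_lit 120, nat_lit 340, nat_lit 360, nat_lit 240, nat_lit 260, nat_lit 360, nat_lit 392, nat_lit 100, nat_lit 120, nat_lit 240, nat_lit 300, nat_lit 112, nat_lit 364, nat_lit 0, nat_lit 40, nat_lit 0, nat_lit 0, nat_lit 0, nat_lit 0⟩
theorem d_V_800_600_20_11 (h : EB TB.env) : Dead b_V_800_600_20_11 := chkB_sound0 h (T :=
(.trX (nat_lit 13) (nat_lit 75) (nat_lit 48) (nat_lit 100) (nat_lit 380) (.trX (nat_lit 16) (nat_lit 77) (nat_lit 100) (nat_lit 99) (nat_lit 276) (.spl (nat_lit 6) (nat_lit 20)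
(.leaf p085_l25)
(.spl (nat_lit 1) (nat_lit 250)
(.trX (nat_lit 13) (nat_lit 74) (nat_lit 52) (nat_lit 100) (nat_lit 376) (.leaf p085_l26))
(.trX (nat_lit 19) (nat_lit 100) (nat_lit 64) (nat_lit 95) (nat_lit 360) (.spl (nat_lit 1) (nat_lit 255)
(.trX (nat_lit 13) (nat_lit 74) (nat_lit 50) (nat_lit 100) (nat_lit 376) (.leaf p085_l27))
(.trX (nat_lit 19) (nat_lit 100) (nat_lit 66) (nat_lit 95) (nat_lit 356) (.leaf p085_l28))))))))) (by decide +kernel)
noncomputable def p085_l29 : Lf2 := ⟨nat_lit 0, nat_lit 5, [nat_lit 4, nat_lit 5, nat_lit 5, nat_lit 20], false, nat_lit 240, nat_lit 280, nat_lit 112, nat_lit 336, ⟨nat_lit 111, nat_lit 889, nat_lit 0, nat_lit 9, nat_lit 342, nat_lit 889, nat_lit 191, nat_lit 0, nat_lit 0, nat_lit 0, nat_lit 0, nat_lit 0, nat_lit 32892179, nat_lit 24614443, nat_lit 9493378, nat_lit 5352695, true, true⟩,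
 nat_lit 0, nat_lit 0, nat_lit 1303, nat_lit 0, nat_lit 3470, nat_lit 758, nat_lit 0, nat_lit 0, nat_lit 0, nat_lit 183, nat_lit 0, nat_lit 0, nat_lit 0, nat_lit 0, nat_lit 0, nat_lit 343150, nat_lit 0, nat_lit 0, [(nat_lit 18, [(nat_lit 0, nat_lit 427), (nat_lit 1, nat_lit 376), (nat_lit 2, nat_lit 86)]), (nat_lit 21, [(nat_lit 0, nat_lit 427), (nat_lit 1, nat_lit 376), (nat_lit 2, nat_lit 86)])],
 ⟨p085_k4, nat_lit 0, nat_lit 0, nat_lit 0, nat_lit 0, nat_lit 0, [nat_lit 1563047467, nat_lit 2275469334, nat_lit 2486869600], [], [nat_lit 27923588001, nat_lit 29510946854, nat_lit 29422056574, nat_lit 30920688710, nat_lit 29033334021, nat_lit 30545728994, nat_lit 30468193938, nat_lit 31858106021], nat_lit 0, nat_lit 0, nat_lit 0, nat_lit 0, nat_lit 0, nat_lit 0, [], [nat_lit 6, nat_lit 40, nat_lit 40, nat_lit 80]⟩, ⟨p085_k31, nat_lit 0, nat_lit 0, nat_lit 691, nat_lit 0, nat_lit 1463876, [nat_lit 520368000, nat_lit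 884448000], [], [nat_lit 3826464972, nat_lit 3833059225, nat_lit 3899816814, nat_lit 3904815221, nat_lit 3781784667, nat_lit 3782049693, nat_lit 3827144203, nat_lit 3826237828], nat_lit 1271250, nat_lit 1271250, nat_lit 1271250, nat_lit 1271250, nat_lit 719601, nat_lit 2536800, [nat_lit 1100000, nat_lit 1785000], [nat_lit 39, nat_lit 40, nat_lit 40, nat_lit 80, nat_lit 7, nat_lit 317, nat_lit 100, nat_lit 9]⟩,
 ⟨nat_lit 3162, nat_lit 4473, ⟨.ofNat (nat_lit 836574), .ofNat (nat_lit 890989), .ofNat (nat_lit 847323), .ofNat (nat_lit 901738), .ofNat (nat_lit 810240), .ofNat (nat_lit 859035), .ofNat (nat_lit 821284), .ofNat (nat_lit 870079)⟩, ⟨.ofNat (nat_lit 438578), .ofNat (nat_lit 506556), .ofNat (nat_lit 460144), .ofNat (nat_lit 528122), .ofNat (nat_lit 428022), .ofNat (nat_lit 488976), .ofNat (nat_lit 450177), .ofNat (nat_lit 511131)⟩⟩, [⟨nat_lit 13, nat_lit 85, nat_lit 30, nat_lit 100, nat_lit 177447764⟩, ⟨nat_lit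 16, nat_lit 87, nat_lit 100, nat_lit 94, nat_lit 191955300⟩, ⟨nat_lit 19, nat_lit 100, nat_lit 77, nat_lit 91, nat_lit 24475152⟩]⟩
noncomputable def p085_l30 : Lf2 := ⟨nat_lit 0, nat_lit 10, [nat_lit 0, nat_lit 5, nat_lit 5, nat_lit 20], false, nat_lit 240, nat_lit 280, nat_lit 112, nat_lit 336, ⟨nat_lit 174, nat_lit 826, nat_lit 0, nat_lit 9, nat_lit 342, nat_lit 826, nat_lit 191, nat_lit 0, nat_lit 0, nat_lit 0, nat_lit 0, nat_lit 0, nat_lit 32892179, nat_lit 24614443, nat_lit 9493378, nat_lit 5352695, true, true⟩,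
 nat_lit 0, nat_lit 0, nat_lit 2046, nat_lit 0, nat_lit 3783, nat_lit 1190, nat_lit 0, nat_lit 0, nat_lit 0, nat_lit 225, nat_lit 0, nat_lit 0, nat_lit 0, nat_lit 0, nat_lit 0, nat_lit 206500, nat_lit 0, nat_lit 0, [(nat_lit 18, [(nat_lit 0, nat_lit 826)]), (nat_lit 21, [(nat_lit 0, nat_lit 826)])],
 ⟨p085_k22, nat_lit 0, nat_lit 0, nat_lit 0, nat_lit 0, nat_lit 0, [nat_lit 1640806400, nat_lit 2606480001, nat_lit 3203712000], [], [nat_lit 28079369077, nat_lit 29761271129, nat_lit 29679177958, nat_lit 31218327568, nat_lit 29250486799, nat_lit 30804680175, nat_lit 30734567977, nat_lit 32246040099], nat_lit 0, nat_lit 0, nat_lit 0, nat_lit 0, nat_lit 0, nat_lit 0, [], [nat_lit 6, nat_lit 40, nat_lit 40, nat_lit 80]⟩, ⟨p085_k32, nat_lit 0, nat_lit 0, nat_lit 578, nat_lit 0, nat_lit 1047470, [nat_lit 815712000, nat_lit 1386432000, nat_lit 1712508000], [], [nat_lit 5810792067, nat_lit 5831335253, nat_lit 5984873582, nat_lit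 6001759193, nat_lit 5865755259, nat_lit 5872491850, nat_lit 5977226056, nat_lit 5989054794], nat_lit 1271250, nat_lit 1271250, nat_lit 1271250, nat_lit 1271250, nat_lit 719601, nat_lit 2536800, [nat_lit 1100000, nat_lit 1785000, nat_lit 1271250], [nat_lit 29, nat_lit 40, nat_lit 40, nat_lit 80, nat_lit 17, nat_lit 401, nat_lit 175, nat_lit 10]⟩,
 ⟨nat_lit 3162, nat_lit 4473, ⟨.ofNat (nat_lit 836574), .ofNat (nat_lit 890989), .ofNat (nat_lit 847323), .ofNat (nat_lit 901738), .ofNat (nat_lit 810240), .ofNat (nat_lit 859035), .ofNat (nat_lit 821284), .ofNat (nat_lit 870079)⟩, ⟨.ofNat (nat_lit 438578), .ofNat (nat_lit 506556), .ofNat (nat_lit 460144), .ofNat (nat_lit 528122), .ofNat (nat_lit 428022), .ofNat (nat_lit 488976), .ofNat (nat_lit 450177), .ofNat (nat_lit 511131)⟩⟩, [⟨nat_lit 13, nat_lit 76, nat_lit 45, nat_lit 100, nat_lit 214372532⟩, ⟨nat_lit 16, nat_lit 73, nat_lit 100, nat_lit 85, nat_lit 302099456⟩, ⟨nat_lit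 19, nat_lit 100, nat_lit 77, nat_lit 91, nat_lit 41037144⟩]⟩
noncomputable def p085_l31 : Lf2 := ⟨nat_lit 0, nat_lit 10, [nat_lit 0, nat_lit 5, nat_lit 5, nat_lit 20], false, nat_lit 240, nat_lit 280, nat_lit 112, nat_lit 328, ⟨nat_lit 161, nat_lit 839, nat_lit 0, nat_lit 9, nat_lit 350, nat_lit 839, nat_lit 192, nat_lit 0, nat_lit 0, nat_lit 0, nat_lit 0, nat_lit 0, nat_lit 32265861, nat_lit 25272042, nat_lit 9462097, nat_lit 5363450, true, true⟩,
 nat_lit 0, nat_lit 0, nat_lit 1730, nat_lit 0, nat_lit 3369, nat_lit 1053, nat_lit 65, nat_lit 0, nat_lit 0, nat_lit 189, nat_lit 0, nat_lit 0, nat_lit 0, nat_lit 0, nat_lit 0, nat_lit 312050, nat_lit 0, nat_lit 0, [(nat_lit 18, [(nat_lit 0, nat_lit 157), (nat_lit 1, nat_lit 682)])],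
 ⟨p085_k33, nat_lit 0, nat_lit 0, nat_lit 0, nat_lit 0, nat_lit 0, [nat_lit 1488410667, nat_lit 1701883901, nat_lit 2209260701, nat_lit 2745749600], [], [nat_lit 27658814601, nat_lit 28448795625, nat_lit 29376442602, nat_lit 30129167743, nat_lit 28711192698, nat_lit 29480535870, nat_lit 30346152123, nat_lit 31046707072], nat_lit 0, nat_lit 0, nat_lit 0, nat_lit 0, nat_lit 0, nat_lit 0, [], [nat_lit 263, nat_lit 40, nat_lit 20, nat_lit 40]⟩, ⟨p085_k34, nat_lit 0, nat_lit 0, nat_lit 618, nat_lit 0, nat_lit 1165554, [nat_lit 754768000, nat_lit 1006250000, nat_lit 1584562000], [], [nat_lit 5298119060, nat_lit 5314807896, nat_lit 5461739269, nat_lit 5479060520, nat_lit 5360828697, nat_lit 5369806023, nat_lit 5479471747, nat_lit 5505008503], nat_lit 1271250, nat_lit 1271250, nat_lit 1271250, nat_lit 1271250, nat_lit 719601, nat_lit 2471900, [nat_lit 1100000, nat_lit 1442500, nat_lit 1271250], [nat_lit 11, nat_lit 40, nat_lit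 40, nat_lit 80, nat_lit 1, nat_lit 401, nat_lit 175, nat_lit 10]⟩,
 ⟨nat_lit 3872, nat_lit 4473, ⟨.ofNat (nat_lit 847364), .ofNat (nat_lit 908549), .ofNat (nat_lit 858139), .ofNat (nat_lit 919326), .ofNat (nat_lit 834332), .ofNat (nat_lit 892405), .ofNat (nat_lit 845220), .ofNat (nat_lit 903295)⟩, ⟨.ofNat (nat_lit 438578), .ofNat (nat_lit 506556), .ofNat (nat_lit 460144), .ofNat (nat_lit 528122), .ofNat (nat_lit 433760), .ofNat (nat_lit 498282), .ofNat (nat_lit 455554), .ofNat (nat_lit 520075)⟩⟩, [⟨nat_lit 13, nat_lit 82, nat_lit 34, nat_lit 100, nat_lit 176685243⟩, ⟨nat_lit 16, nat_lit 79, nat_lit 100, nat_lit 87, nat_lit 235115106⟩, ⟨nat_lit 7, nat_lit 89, nat_lit 100, nat_lit 90, nat_lit 38733451⟩]⟩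
noncomputable def p085_l32 : Lf2 := ⟨nat_lit 0, nat_lit 10, [nat_lit 0, nat_lit 5, nat_lit 5, nat_lit 20], false, nat_lit 240, nat_lit 256, nat_lit 112, nat_lit 328, ⟨nat_lit 122, nat_lit 878, nat_lit 0, nat_lit 9, nat_lit 342, nat_lit 878, nat_lit 182, nat_lit 0, nat_lit 0, nat_lit 0, nat_lit 0, nat_lit 0, nat_lit 33235688, nat_lit 24875392, nat_lit 8888920, nat_lit 5289798, true, true⟩,
 nat_lit 0, nat_lit 0, nat_lit 1419, nat_lit 0, nat_lit 3236, nat_lit 863, nat_lit 0, nat_lit 0, nat_lit 0, nat_lit 84, nat_lit 0, nat_lit 0, nat_lit 0, nat_lit 0, nat_lit 0, nat_lit 387200, nat_lit 0, nat_lit 0, [(nat_lit 21, [(nat_lit 1, nat_lit 818), (nat_lit 2, nat_lit 60)])],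
 ⟨p085_k28, nat_lit 0, nat_lit 0, nat_lit 0, nat_lit 0, nat_lit 0, [nat_lit 1440529600, nat_lit 1784382401, nat_lit 1914988000], [], [nat_lit 28344014489, nat_lit 29104771217, nat_lit 29541211806, nat_lit 30335065498, nat_lit 28762194673, nat_lit 29501629195, nat_lit 29940472263, nat_lit 30755542595], nat_lit 0, nat_lit 0, nat_lit 0, nat_lit 0, nat_lit 0, nat_lit 0, [], [nat_lit 6, nat_lit 40, nat_lit 40, nat_lit 80]⟩, ⟨p085_k35, nat_lit 0, nat_lit 0, nat_lit 759, nat_lit 0, nat_lit 1475190, [nat_lit 571936000, nat_lit 972096000, nat_lit 1200724000], [], [nat_lit 4254519159, nat_lit 4261337976, nat_lit 4323864023, nat_lit 4329104449, nat_lit 4172756275, nat_lit 4172746257, nat_lit 4215959432, nat_lit 4214776105], nat_lit 1271250, nat_lit 1271250, nat_lit 1271250, nat_lit 1271250, nat_lit 719601, nat_lit 2471900, [nat_lit 1100000, nat_lit 1785000, nat_lit 1271250], [nat_lit 29, nat_lit 40, nat_lit 40, nat_lit 80,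 nat_lit 17, nat_lit 401, nat_lit 175, nat_lit 10]⟩,
 ⟨nat_lit 3162, nat_lit 3873, ⟨.ofNat (nat_lit 834361), .ofNat (nat_lit 879526), .ofNat (nat_lit 845258), .ofNat (nat_lit 890423), .ofNat (nat_lit 821354), .ofNat (nat_lit 864021), .ofNat (nat_lit 832432), .ofNat (nat_lit 875099)⟩, ⟨.ofNat (nat_lit 433760), .ofNat (nat_lit 459569), .ofNat (nat_lit 455554), .ofNat (nat_lit 481362), .ofNat (nat_lit 428022), .ofNat (nat_lit 452404), .ofNat (nat_lit 450177), .ofNat (nat_lit 474559)⟩⟩, [⟨nat_lit 13, nat_lit 78, nat_lit 39, nat_lit 100, nat_lit 188435295⟩, ⟨nat_lit 16, nat_lit 74, nat_lit 100, nat_lit 90, nat_lit 243033282⟩, ⟨nat_lit 7, nat_lit 89, nat_lit 100, nat_lit 90, nat_lit 26008536⟩]⟩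
noncomputable def p085_l33 : Lf2 := ⟨nat_lit 0, nat_lit 10, [nat_lit 0, nat_lit 5, nat_lit 5, nat_lit 20], false, nat_lit 240, nat_lit 300, nat_lit 112, nat_lit 240, ⟨nat_lit 330, nat_lit 670, nat_lit 0, nat_lit 9, nat_lit 348, nat_lit 670, nat_lit 207, nat_lit 0, nat_lit 0, nat_lit 0, nat_lit 0, nat_lit 0, nat_lit 31791427, nat_lit 24664399, nat_lit 10544174, nat_lit 5463374, true, true⟩,
 nat_lit 0, nat_lit 0, nat_lit 3909, nat_lit 0, nat_lit 3379, nat_lit 2275, nat_lit 193, nat_lit 0, nat_lit 0, nat_lit 674, nat_lit 0, nat_lit 0, nat_lit 0, nat_lit 0, nat_lit 0, nat_lit 670000, nat_lit 0, nat_lit 0, [(nat_lit 18, [(nat_lit 2, nat_lit 670)])],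
 ⟨p085_k36, nat_lit 0, nat_lit 0, nat_lit 0, nat_lit 0, nat_lit 0, [nat_lit 1707184001, nat_lit 2003372001, nat_lit 2154328001, nat_lit 1765556000], [], [nat_lit 27681934767, nat_lit 28453087309, nat_lit 29335239840, nat_lit 30071867451, nat_lit 29363914976, nat_lit 30085846424, nat_lit 30963930161, nat_lit 31703478267], nat_lit 0, nat_lit 0, nat_lit 0, nat_lit 0, nat_lit 0, nat_lit 0, [], [nat_lit 127, nat_lit 40, nat_lit 40, nat_lit 80]⟩, ⟨p085_k32, nat_lit 0, nat_lit 0, nat_lit 596, nat_lit 0, nat_lit 1090958, [nat_lit 1547040000, nat_lit 2629440000, nat_lit 3247860000], [], [nat_lit 10017128899, nat_lit 10093499069, nat_lit 10383411142, nat_lit 10464205504, nat_lit 9850478880, nat_lit 9918384520, nat_lit 10215937073, nat_lit 10288066650], nat_lit 1271250, nat_lit 1271250, nat_lit 1271250, nat_lit 1271250, nat_lit 719601, nat_lit 1758000, [nat_lit 1100000, nat_lit 1785000, nat_lit 1271250], [nat_lit 29, nat_lit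 40, nat_lit 40, nat_lit 80, nat_lit 17, nat_lit 373, nat_lit 150, nat_lit 10]⟩,
 ⟨nat_lit 3872, nat_lit 4473, ⟨.ofNat (nat_lit 836589), .ofNat (nat_lit 897773), .ofNat (nat_lit 858139), .ofNat (nat_lit 919326), .ofNat (nat_lit 823443), .ofNat (nat_lit 881516), .ofNat (nat_lit 845220), .ofNat (nat_lit 903295)⟩, ⟨.ofNat (nat_lit 460144), .ofNat (nat_lit 562111), .ofNat (nat_lit 481711), .ofNat (nat_lit 583678), .ofNat (nat_lit 455554), .ofNat (nat_lit 552336), .ofNat (nat_lit 477347), .ofNat (nat_lit 574129)⟩⟩, [⟨nat_lit 13, nat_lit 81, nat_lit 37, nat_lit 100, nat_lit 158722549⟩, ⟨nat_lit 4, nat_lit 100, nat_lit 82, nat_lit 97, nat_lit 276783388⟩]⟩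
noncomputable def p085_l34 : Lf2 := ⟨nat_lit 0, nat_lit 10, [nat_lit 0, nat_lit 5, nat_lit 5, nat_lit 20], false, nat_lit 240, nat_lit 276, nat_lit 112, nat_lit 240, ⟨nat_lit 198, nat_lit 802, nat_lit 0, nat_lit 9, nat_lit 340, nat_lit 802, nat_lit 197, nat_lit 0, nat_lit 0, nat_lit 0, nat_lit 0, nat_lit 0, nat_lit 32761382, nat_lit 24284701, nat_lit 9953917, nat_lit 5394668, true, true⟩,
 nat_lit 0, nat_lit 0, nat_lit 2481, nat_lit 0, nat_lit 2707, nat_lit 1444, nat_lit 428, nat_lit 0, nat_lit 0, nat_lit 296, nat_lit 0, nat_lit 0, nat_lit 0, nat_lit 0, nat_lit 0, nat_lit 249100, nat_lit 0, nat_lit 0, [(nat_lit 21, [(nat_lit 0, nat_lit 478), (nat_lit 1, nat_lit 324)])],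
 ⟨p085_k37, nat_lit 0, nat_lit 0, nat_lit 0, nat_lit 0, nat_lit 0, [nat_lit 777724000, nat_lit 1387847200, nat_lit 1912782401, nat_lit 2813335200], [], [nat_lit 27925378970, nat_lit 28631679044, nat_lit 29036692783, nat_lit 29725676492, nat_lit 28824996032, nat_lit 29497913984, nat_lit 29918508482, nat_lit 30637782468], nat_lit 0, nat_lit 0, nat_lit 0, nat_lit 0, nat_lit 0, nat_lit 0, [], [nat_lit 182, nat_lit 40, nat_lit 40, nat_lit 80]⟩, ⟨p085_k32, nat_lit 0, nat_lit 0, nat_lit 738, nat_lit 0, nat_lit 1416673, [nat_lit 928224000, nat_lit 1577664000, nat_lit 1948716000], [], [nat_lit 6243674139, nat_lit 6265388871, nat_lit 6364707410, nat_lit 6380911616, nat_lit 6017601592, nat_lit 6026789424, nat_lit 6113004228, nat_lit 6117510662], nat_lit 1271250, nat_lit 1271250, nat_lit 1271250, nat_lit 1271250, nat_lit 719601, nat_lit 1758000, [nat_lit 1100000, nat_lit 1785000, nat_lit 1271250], [nat_lit 29, nat_lit 40, nat_lit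 40, nat_lit 80, nat_lit 17, nat_lit 373, nat_lit 150, nat_lit 10]⟩,
 ⟨nat_lit 3162, nat_lit 3873, ⟨.ofNat (nat_lit 823465), .ofNat (nat_lit 868630), .ofNat (nat_lit 845258), .ofNat (nat_lit 890423), .ofNat (nat_lit 810277), .ofNat (nat_lit 852944), .ofNat (nat_lit 832432), .ofNat (nat_lit 875099)⟩, ⟨.ofNat (nat_lit 455554), .ofNat (nat_lit 513623), .ofNat (nat_lit 477347), .ofNat (nat_lit 535416), .ofNat (nat_lit 450177), .ofNat (nat_lit 505035), .ofNat (nat_lit 472332), .ofNat (nat_lit 527190)⟩⟩, [⟨nat_lit 13, nat_lit 71, nat_lit 50, nat_lit 100, nat_lit 176790246⟩, ⟨nat_lit 4, nat_lit 100, nat_lit 68, nat_lit 92, nat_lit 299998822⟩]⟩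
noncomputable def p085_l35 : Lf2 := ⟨nat_lit 0, nat_lit 5, [nat_lit 4, nat_lit 5, nat_lit 5, nat_lit 20], false, nat_lit 240, nat_lit 300, nat_lit 240, nat_lit 352, ⟨nat_lit 380, nat_lit 620, nat_lit 0, nat_lit 9, nat_lit 346, nat_lit 620, nat_lit 208, nat_lit 0, nat_lit 0, nat_lit 0, nat_lit 0, nat_lit 0, nat_lit 31890801, nat_lit 24480385, nat_lit 10628814, nat_lit 5467768, true, true⟩,
 nat_lit 0, nat_lit 0, nat_lit 3982, nat_lit 0, nat_lit 3241, nat_lit 2317, nat_lit 448, nat_lit 0, nat_lit 0, nat_lit 706, nat_lit 0, nat_lit 0, nat_lit 0, nat_lit 0, nat_lit 0, nat_lit 620000, nat_lit 0, nat_lit 0, [(nat_lit 18, [(nat_lit 2, nat_lit 620)])],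
 ⟨p085_k38, nat_lit 0, nat_lit 0, nat_lit 0, nat_lit 0, nat_lit 0, [nat_lit 1589072001, nat_lit 1907698000, nat_lit 2304706001, nat_lit 2206962000], [], [nat_lit 27590334914, nat_lit 27980429682, nat_lit 29048461613, nat_lit 29408142270, nat_lit 29241436178, nat_lit 29591326004, nat_lit 30594300883, nat_lit 30930328030], nat_lit 0, nat_lit 0, nat_lit 0, nat_lit 0, nat_lit 0, nat_lit 0, [], [nat_lit 240, nat_lit 40, nat_lit 20, nat_lit 40]⟩, ⟨p085_k39, nat_lit 0, nat_lit 0, nat_lit 391, nat_lit 0, nat_lit 833111, [nat_lit 1781440000, nat_lit 2375000000, nat_lit 3027840000], [], [nat_lit 11735554114, nat_lit 11797581050, nat_lit 12175978308, nat_lit 12229242070, nat_lit 12615904033, nat_lit 12665445083, nat_lit 13027276699, nat_lit 13079004050], nat_lit 1271250, nat_lit 1271250, nat_lit 1271250, nat_lit 1271250, nat_lit 1271250, nat_lit 1271250, [nat_lit 1100000, nat_lit 1442500, nat_lit 1271250], [nat_lit 9, nat_lit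 40, nat_lit 40, nat_lit 80, nat_lit 2, nat_lit 225, nat_lit 0, nat_lit 5]⟩,
 ⟨nat_lit 4183, nat_lit 4473, ⟨.ofNat (nat_lit 836603), .ofNat (nat_lit 890987), .ofNat (nat_lit 847384), .ofNat (nat_lit 901768), .ofNat (nat_lit 830014), .ofNat (nat_lit 883019), .ofNat (nat_lit 840845), .ofNat (nat_lit 893851)⟩, ⟨.ofNat (nat_lit 460144), .ofNat (nat_lit 562111), .ofNat (nat_lit 481711), .ofNat (nat_lit 583678), .ofNat (nat_lit 457921), .ofNat (nat_lit 557304), .ofNat (nat_lit 479587), .ofNat (nat_lit 578971)⟩⟩, [⟨nat_lit 13, nat_lit 83, nat_lit 36, nat_lit 100, nat_lit 117419572⟩, ⟨nat_lit 4, nat_lit 100, nat_lit 86, nat_lit 98, nat_lit 259163656⟩, ⟨nat_lit 7, nat_lit 76, nat_lit 100, nat_lit 94, nat_lit 141966576⟩]⟩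
noncomputable def p085_l36 : Lf2 := ⟨nat_lit 0, nat_lit 5, [nat_lit 4, nat_lit 5, nat_lit 5, nat_lit 20], false, nat_lit 240, nat_lit 288, nat_lit 240, nat_lit 352, ⟨nat_lit 149, nat_lit 851, nat_lit 0, nat_lit 9, nat_lit 343, nat_lit 851, nat_lit 203, nat_lit 0, nat_lit 0, nat_lit 0, nat_lit 0, nat_lit 0, nat_lit 32318939, nat_lit 24340379, nat_lit 10340682, nat_lit 5436016, true, true⟩,
 nat_lit 0, nat_lit 0, nat_lit 1621, nat_lit 0, nat_lit 3137, nat_lit 943, nat_lit 202, nat_lit 0, nat_lit 0, nat_lit 250, nat_lit 0, nat_lit 0, nat_lit 0, nat_lit 0, nat_lit 0, nat_lit 212750, nat_lit 0, nat_lit 0, [(nat_lit 18, [(nat_lit 0, nat_lit 851)])],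
 ⟨p085_k40, nat_lit 0, nat_lit 0, nat_lit 0, nat_lit 0, nat_lit 0, [nat_lit 791968400, nat_lit 1417578001, nat_lit 1988480001, nat_lit 2548221399], [], [nat_lit 27722960810, nat_lit 27930086346, nat_lit 29047816554, nat_lit 29240363449, nat_lit 29051427559, nat_lit 29240897455, nat_lit 30266958220, nat_lit 30443376385], nat_lit 0, nat_lit 0, nat_lit 0, nat_lit 0, nat_lit 0, nat_lit 0, [], [nat_lit 205, nat_lit 40, nat_lit 20, nat_lit 40]⟩, ⟨p085_k39, nat_lit 0, nat_lit 0, nat_lit 418, nat_lit 0, nat_lit 907681, [nat_lit 698512000, nat_lit 931250000, nat_lit 1187232000], [], [nat_lit 4705072426, nat_lit 4726286523, nat_lit 4842741054, nat_lit 4861197552, nat_lit 5001436945, nat_lit 5014452917, nat_lit 5108534967, nat_lit 5131510295], nat_lit 1271250, nat_lit 1271250, nat_lit 1271250, nat_lit 1271250, nat_lit 1271250, nat_lit 1271250, [nat_lit 1100000, nat_lit 1442500, nat_lit 1271250], [nat_lit 9, nat_lit 40, nat_lit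 40, nat_lit 80, nat_lit 2, nat_lit 231, nat_lit 0, nat_lit 6]⟩,
 ⟨nat_lit 4031, nat_lit 4184, ⟨.ofNat (nat_lit 830020), .ofNat (nat_lit 876400), .ofNat (nat_lit 840853), .ofNat (nat_lit 887232), .ofNat (nat_lit 826740), .ofNat (nat_lit 872514), .ofNat (nat_lit 837603), .ofNat (nat_lit 883377)⟩, ⟨.ofNat (nat_lit 457921), .ofNat (nat_lit 537427), .ofNat (nat_lit 479587), .ofNat (nat_lit 559094), .ofNat (nat_lit 456758), .ofNat (nat_lit 535227), .ofNat (nat_lit 478484), .ofNat (nat_lit 556953)⟩⟩, [⟨nat_lit 13, nat_lit 81, nat_lit 37, nat_lit 100, nat_lit 182353907⟩, ⟨nat_lit 16, nat_lit 83, nat_lit 98, nat_lit 100, nat_lit 196287292⟩, ⟨nat_lit 7, nat_lit 76, nat_lit 100, nat_lit 94, nat_lit 52293059⟩]⟩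
noncomputable def p085_l37 : Lf2 := ⟨nat_lit 0, nat_lit 5, [nat_lit 4, nat_lit 5, nat_lit 5, nat_lit 20], false, nat_lit 240, nat_lit 284, nat_lit 240, nat_lit 352, ⟨nat_lit 94, nat_lit 906, nat_lit 0, nat_lit 9, nat_lit 341, nat_lit 906, nat_lit 201, nat_lit 0, nat_lit 0, nat_lit 0, nat_lit 0, nat_lit 0, nat_lit 32492831, nat_lit 24279573, nat_lit 10227596, nat_lit 5423071, true, true⟩,
 nat_lit 0, nat_lit 0, nat_lit 1022, nat_lit 0, nat_lit 3180, nat_lit 594, nat_lit 0, nat_lit 0, nat_lit 0, nat_lit 157, nat_lit 0, nat_lit 0, nat_lit 0, nat_lit 0, nat_lit 0, nat_lit 226500, nat_lit 0, nat_lit 0, [(nat_lit 18, [(nat_lit 0, nat_lit 906)])],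
 ⟨p085_k41, nat_lit 0, nat_lit 0, nat_lit 0, nat_lit 0, nat_lit 0, [nat_lit 782530400, nat_lit 1377868001, nat_lit 1904880001, nat_lit 2412448399], [], [nat_lit 27962496231, nat_lit 28170550201, nat_lit 29279560494, nat_lit 29472895794, nat_lit 29151797534, nat_lit 29343556625, nat_lit 30369304024, nat_lit 30561207232], nat_lit 0, nat_lit 0, nat_lit 0, nat_lit 0, nat_lit 0, nat_lit 0, [], [nat_lit 205, nat_lit 40, nat_lit 20, nat_lit 40]⟩, ⟨p085_k39, nat_lit 0, nat_lit 0, nat_lit 446, nat_lit 0, nat_lit 984308, [nat_lit 440672000, nat_lit 587500000, nat_lit 748992000], [], [nat_lit 2991955121, nat_lit 3004008631, nat_lit 3073330606, nat_lit 3083745347, nat_lit 3163460495, nat_lit 3170634829, nat_lit 3228200876, nat_lit 3236251555], nat_lit 1271250, nat_lit 1271250, nat_lit 1271250, nat_lit 1271250, nat_lit 1271250, nat_lit 1271250, [nat_lit 1100000, nat_lit 1442500, nat_lit 1271250], [nat_lit 9, nat_lit 40, nat_lit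 40, nat_lit 80, nat_lit 2, nat_lit 238, nat_lit 0, nat_lit 6]⟩,
 ⟨nat_lit 3872, nat_lit 4032, ⟨.ofNat (nat_lit 826741), .ofNat (nat_lit 872514), .ofNat (nat_lit 837603), .ofNat (nat_lit 883377), .ofNat (nat_lit 823464), .ofNat (nat_lit 868630), .ofNat (nat_lit 834361), .ofNat (nat_lit 879526)⟩, ⟨.ofNat (nat_lit 456758), .ofNat (nat_lit 528687), .ofNat (nat_lit 478484), .ofNat (nat_lit 550414), .ofNat (nat_lit 455554), .ofNat (nat_lit 526527), .ofNat (nat_lit 477347), .ofNat (nat_lit 548321)⟩⟩, [⟨nat_lit 13, nat_lit 79, nat_lit 40, nat_lit 100, nat_lit 210249632⟩, ⟨nat_lit 16, nat_lit 81, nat_lit 100, nat_lit 100, nat_lit 184361035⟩, ⟨nat_lit 19, nat_lit 100, nat_lit 76, nat_lit 94, nat_lit 32443249⟩]⟩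
noncomputable def p085_l38 : Lf2 := ⟨nat_lit 0, nat_lit 2, [nat_lit 10, nat_lit 5, nat_lit 5, nat_lit 20], false, nat_lit 240, nat_lit 300, nat_lit 240, nat_lit 344, ⟨nat_lit 940, nat_lit 60, nat_lit 0, nat_lit 9, nat_lit 352, nat_lit 60, nat_lit 208, nat_lit 0, nat_lit 0, nat_lit 0, nat_lit 0, nat_lit 0, nat_lit 31534860, nat_lit 24932928, nat_lit 10532212, nat_lit 5467547, true, true⟩,
 nat_lit 0, nat_lit 0, nat_lit 9392, nat_lit 0, nat_lit 3823, nat_lit 5719, nat_lit 1134, nat_lit 0, nat_lit 0, nat_lit 1233, nat_lit 0, nat_lit 0, nat_lit 0, nat_lit 0, nat_lit 0, nat_lit 60000, nat_lit 0, nat_lit 0, [(nat_lit 18, [(nat_lit 2, nat_lit 60)])],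
 ⟨p085_k42, nat_lit 0, nat_lit 0, nat_lit 0, nat_lit 0, nat_lit 0, [nat_lit 1989136001, nat_lit 2566874000, nat_lit 3795970000], [], [nat_lit 28113120687, nat_lit 28525475791, nat_lit 29869783501, nat_lit 30255192420, nat_lit 29803974879, nat_lit 30179089259, nat_lit 31437085769, nat_lit 31799230895], nat_lit 0, nat_lit 0, nat_lit 0, nat_lit 0, nat_lit 0, nat_lit 0, [], [nat_lit 164, nat_lit 40, nat_lit 20, nat_lit 40]⟩, ⟨p085_k43, nat_lit 0, nat_lit 0, nat_lit 350, nat_lit 0, nat_lit 840273, [nat_lit 4406720000, nat_lit 5875000000], [], [nat_lit 28880640189, nat_lit 29065490297, nat_lit 30243426201, nat_lit 30401328926, nat_lit 31140934778, nat_lit 31281166137, nat_lit 32298869476, nat_lit 32416888885], nat_lit 1271250, nat_lit 1271250, nat_lit 1271250, nat_lit 1271250, nat_lit 1271250, nat_lit 1271250, [nat_lit 1100000, nat_lit 1442500], [nat_lit 31, nat_lit 40, nat_lit 40, nat_lit 80, nat_lit 3, nat_lit 215, nat_lit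 0, nat_lit 6]⟩,
 ⟨nat_lit 4183, nat_lit 4473, ⟨.ofNat (nat_lit 847384), .ofNat (nat_lit 908566), .ofNat (nat_lit 858166), .ofNat (nat_lit 919347), .ofNat (nat_lit 840845), .ofNat (nat_lit 900477), .ofNat (nat_lit 851677), .ofNat (nat_lit 911307)⟩, ⟨.ofNat (nat_lit 460144), .ofNat (nat_lit 562111), .ofNat (nat_lit 481711), .ofNat (nat_lit 583678), .ofNat (nat_lit 457921), .ofNat (nat_lit 557304), .ofNat (nat_lit 479587), .ofNat (nat_lit 578971)⟩⟩, [⟨nat_lit 4, nat_lit 100, nat_lit 86, nat_lit 98, nat_lit 419634593⟩, ⟨nat_lit 7, nat_lit 81, nat_lit 100, nat_lit 96, nat_lit 345595742⟩]⟩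
noncomputable def p085_l39 : Lf2 := ⟨nat_lit 0, nat_lit 2, [nat_lit 10, nat_lit 5, nat_lit 5, nat_lit 20], false, nat_lit 240, nat_lit 288, nat_lit 240, nat_lit 344, ⟨nat_lit 308, nat_lit 692, nat_lit 0, nat_lit 9, nat_lit 348, nat_lit 692, nat_lit 203, nat_lit 0, nat_lit 0, nat_lit 0, nat_lit 0, nat_lit 0, nat_lit 31956553, nat_lit 24796335, nat_lit 10247112, nat_lit 5436505, true, true⟩,
 nat_lit 0, nat_lit 0, nat_lit 3185, nat_lit 0, nat_lit 2741, nat_lit 1939, nat_lit 1075, nat_lit 0, nat_lit 0, nat_lit 348, nat_lit 0, nat_lit 0, nat_lit 0, nat_lit 0, nat_lit 0, nat_lit 173000, nat_lit 0, nat_lit 0, [(nat_lit 18, [(nat_lit 0, nat_lit 692)])],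
 ⟨p085_k44, nat_lit 0, nat_lit 0, nat_lit 0, nat_lit 0, nat_lit 0, [nat_lit 819252800, nat_lit 1532376001, nat_lit 2230160000], [], [nat_lit 27537233768, nat_lit 27732542138, nat_lit 28957246538, nat_lit 29140642320, nat_lit 28833118882, nat_lit 29012740262, nat_lit 30152060404, nat_lit 30320888823], nat_lit 0, nat_lit 0, nat_lit 0, nat_lit 0, nat_lit 0, nat_lit 0, [], [nat_lit 234, nat_lit 40, nat_lit 20, nat_lit 40]⟩, ⟨p085_k43, nat_lit 0, nat_lit 0, nat_lit 371, nat_lit 0, nat_lit 907291, [nat_lit 1443904000, nat_lit 1925000000], [], [nat_lit 9744556703, nat_lit 9793114464, nat_lit 10083781738, nat_lit 10125452176, nat_lit 10332678499, nat_lit 10364700232, nat_lit 10602535305, nat_lit 10628915857], nat_lit 1271250, nat_lit 1271250, nat_lit 1271250, nat_lit 1271250, nat_lit 1271250, nat_lit 1271250, [nat_lit 1100000, nat_lit 1442500], [nat_lit 31, nat_lit 40, nat_lit 40, nat_lit 80, nat_lit 3, nat_lit 220, nat_lit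 0, nat_lit 6]⟩,
 ⟨nat_lit 4031, nat_lit 4184, ⟨.ofNat (nat_lit 840853), .ofNat (nat_lit 893858), .ofNat (nat_lit 851686), .ofNat (nat_lit 904691), .ofNat (nat_lit 837603), .ofNat (nat_lit 889916), .ofNat (nat_lit 848466), .ofNat (nat_lit 900779)⟩, ⟨.ofNat (nat_lit 457921), .ofNat (nat_lit 537427), .ofNat (nat_lit 479587), .ofNat (nat_lit 559094), .ofNat (nat_lit 456758), .ofNat (nat_lit 535227), .ofNat (nat_lit 478484), .ofNat (nat_lit 556953)⟩⟩, [⟨nat_lit 13, nat_lit 81, nat_lit 36, nat_lit 100, nat_lit 125274350⟩, ⟨nat_lit 16, nat_lit 83, nat_lit 98, nat_lit 100, nat_lit 239413352⟩, ⟨nat_lit 7, nat_lit 81, nat_lit 100, nat_lit 96, nat_lit 105315056⟩]⟩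
noncomputable def p085_l40 : Lf2 := ⟨nat_lit 0, nat_lit 2, [nat_lit 10, nat_lit 5, nat_lit 5, nat_lit 20], false, nat_lit 240, nat_lit 284, nat_lit 240, nat_lit 344, ⟨nat_lit 209, nat_lit 791, nat_lit 0, nat_lit 9, nat_lit 347, nat_lit 791, nat_lit 201, nat_lit 0, nat_lit 0, nat_lit 0, nat_lit 0, nat_lit 0, nat_lit 32127921, nat_lit 24736832, nat_lit 10135247, nat_lit 5423860, true, true⟩,
 nat_lit 0, nat_lit 0, nat_lit 2162, nat_lit 0, nat_lit 2720, nat_lit 1316, nat_lit 632, nat_lit 0, nat_lit 0, nat_lit 236, nat_lit 0, nat_lit 0, nat_lit 0, nat_lit 0, nat_lit 0, nat_lit 197750, nat_lit 0, nat_lit 0, [(nat_lit 18, [(nat_lit 0, nat_lit 791)])],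
 ⟨p085_k45, nat_lit 0, nat_lit 0, nat_lit 0, nat_lit 0, nat_lit 0, [nat_lit 802264401, nat_lit 1460898001, nat_lit 2079680000], [], [nat_lit 27654114401, nat_lit 27848978841, nat_lit 29065650472, nat_lit 29248670952, nat_lit 28814757356, nat_lit 28995346321, nat_lit 30134964867, nat_lit 30305074318], nat_lit 0, nat_lit 0, nat_lit 0, nat_lit 0, nat_lit 0, nat_lit 0, [], [nat_lit 234, nat_lit 40, nat_lit 20, nat_lit 40]⟩, ⟨p085_k43, nat_lit 0, nat_lit 0, nat_lit 405, nat_lit 0, nat_lit 975966, [nat_lit 979792000, nat_lit 1306250000], [], [nat_lit 6611432280, nat_lit 6644380948, nat_lit 6841637352, nat_lit 6869911771, nat_lit 7010512530, nat_lit 7032238665, nat_lit 7193639163, nat_lit 7211536780], nat_lit 1271250, nat_lit 1271250, nat_lit 1271250, nat_lit 1271250, nat_lit 1271250, nat_lit 1271250, [nat_lit 1100000, nat_lit 1442500], [nat_lit 31, nat_lit 40, nat_lit 40, nat_lit 80, nat_lit 3, nat_lit 229, nat_lit 0,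 nat_lit 6]⟩,
 ⟨nat_lit 3872, nat_lit 4032, ⟨.ofNat (nat_lit 837603), .ofNat (nat_lit 889917), .ofNat (nat_lit 848466), .ofNat (nat_lit 900779), .ofNat (nat_lit 834361), .ofNat (nat_lit 885978), .ofNat (nat_lit 845257), .ofNat (nat_lit 896875)⟩, ⟨.ofNat (nat_lit 456758), .ofNat (nat_lit 528687), .ofNat (nat_lit 478484), .ofNat (nat_lit 550414), .ofNat (nat_lit 455554), .ofNat (nat_lit 526527), .ofNat (nat_lit 477347), .ofNat (nat_lit 548321)⟩⟩, [⟨nat_lit 13, nat_lit 78, nat_lit 39, nat_lit 100, nat_lit 165793634⟩, ⟨nat_lit 16, nat_lit 81, nat_lit 100, nat_lit 100, nat_lit 216008218⟩, ⟨nat_lit 19, nat_lit 100, nat_lit 81, nat_lit 96, nat_lit 71503183⟩]⟩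
noncomputable def p085_l41 : Lf2 := ⟨nat_lit 0, nat_lit 5, [nat_lit 4, nat_lit 5, nat_lit 5, nat_lit 20], false, nat_lit 240, nat_lit 300, nat_lit 240, nat_lit 344, ⟨nat_lit 1000, nat_lit 0, nat_lit 0, nat_lit 0, nat_lit 0, nat_lit 0, nat_lit 0, nat_lit 0, nat_lit 0, nat_lit 0, nat_lit 0, nat_lit 0, nat_lit 0, nat_lit 0, nat_lit 0, nat_lit 0, false, false⟩,
 nat_lit 0, nat_lit 0, nat_lit 9989, nat_lit 0, nat_lit 4022, nat_lit 6083, nat_lit 1001, nat_lit 0, nat_lit 0, nat_lit 1236, nat_lit 0, nat_lit 0, nat_lit 0, nat_lit 0, nat_lit 0, nat_lit 0, nat_lit 0, nat_lit 0, [],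
 ⟨p085_k38, nat_lit 0, nat_lit 0, nat_lit 0, nat_lit 0, nat_lit 0, [nat_lit 2032000001, nat_lit 2637500000, nat_lit 3965500000, nat_lit 5449500000], [], [nat_lit 28246960730, nat_lit 28666927186, nat_lit 30052170913, nat_lit 30450227189, nat_lit 29951407418, nat_lit 30323576151, nat_lit 31640950809, nat_lit 32030505299], nat_lit 0, nat_lit 0, nat_lit 0, nat_lit 0, nat_lit 0, nat_lit 0, [], [nat_lit 240, nat_lit 40, nat_lit 20, nat_lit 40]⟩, ⟨p085_k46, nat_lit 0, nat_lit 0, nat_lit 322, nat_lit 0, nat_lit 675765, [nat_lit 4688000000, nat_lit 6250000000, nat_lit 7968000000], [], [nat_lit 31148915296, nat_lit 31309608396, nat_lit 32415670861, nat_lit 32550634604, nat_lit 33163799011, nat_lit 33282719905, nat_lit 34364039100, nat_lit 34488039090], nat_lit 1271250, nat_lit 1271250, nat_lit 1271250, nat_lit 1271250, nat_lit 1271250, nat_lit 1271250, [nat_lit 1100000, nat_lit 1442500, nat_lit 1271250], [nat_lit 9, nat_lit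 40, nat_lit 40, nat_lit 80, nat_lit 2, nat_lit 208, nat_lit 0, nat_lit 5]⟩,
 zbF0, [⟨nat_lit 4, nat_lit 100, nat_lit 86, nat_lit 98, nat_lit 440072442⟩, ⟨nat_lit 7, nat_lit 81, nat_lit 100, nat_lit 96, nat_lit 357377518⟩]⟩
noncomputable def p085_l42 : Lf2 := ⟨nat_lit 0, nat_lit 5, [nat_lit 4, nat_lit 5, nat_lit 5, nat_lit 20], false, nat_lit 240, nat_lit 288, nat_lit 240, nat_lit 344, ⟨nat_lit 993, nat_lit 7, nat_lit 0, nat_lit 9, nat_lit 348, nat_lit 7, nat_lit 203, nat_lit 0, nat_lit 0, nat_lit 0, nat_lit 0, nat_lit 0, nat_lit 32015978, nat_lit 24748366, nat_lit 10235656, nat_lit 5434348, true, true⟩,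
 nat_lit 0, nat_lit 0, nat_lit 9963, nat_lit 0, nat_lit 3922, nat_lit 6067, nat_lit 774, nat_lit 0, nat_lit 0, nat_lit 1382, nat_lit 0, nat_lit 0, nat_lit 0, nat_lit 0, nat_lit 0, nat_lit 1750, nat_lit 0, nat_lit 0, [(nat_lit 18, [(nat_lit 0, nat_lit 7)])],
 ⟨p085_k40, nat_lit 0, nat_lit 0, nat_lit 0, nat_lit 0, nat_lit 0, [nat_lit 936798800, nat_lit 2026946000, nat_lit 3271360001, nat_lit 4670360000], [], [nat_lit 28576499926, nat_lit 29002439668, nat_lit 30164530253, nat_lit 30563190825, nat_lit 29951149849, nat_lit 30338555131, nat_lit 31454341304, nat_lit 31825706865], nat_lit 0, nat_lit 0, nat_lit 0, nat_lit 0, nat_lit 0, nat_lit 0, [], [nat_lit 205, nat_lit 40, nat_lit 40, nat_lit 80]⟩, ⟨p085_k47, nat_lit 0, nat_lit 0, nat_lit 380, nat_lit 0, nat_lit 810979, [nat_lit 4655184000, nat_lit 7912224000], [], [nat_lit 30733356764, nat_lit 30908726808, nat_lit 31926961541, nat_lit 32078083765, nat_lit 32837050632,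 nat_lit 32956100360, nat_lit 33897121155, nat_lit 34024602051], nat_lit 1271250, nat_lit 1271250, nat_lit 1271250, nat_lit 1271250, nat_lit 1271250, nat_lit 1271250, [nat_lit 1100000, nat_lit 1785000], [nat_lit 39, nat_lit 40, nat_lit 40, nat_lit 80, nat_lit 7, nat_lit 222, nat_lit 0, nat_lit 5]⟩,
 ⟨nat_lit 3872, nat_lit 4184, ⟨.ofNat (nat_lit 840851), .ofNat (nat_lit 893857), .ofNat (nat_lit 851681), .ofNat (nat_lit 904688), .ofNat (nat_lit 834357), .ofNat (nat_lit 885976), .ofNat (nat_lit 845251), .ofNat (nat_lit 896871)⟩, ⟨.ofNat (nat_lit 457921), .ofNat (nat_lit 537427), .ofNat (nat_lit 479587), .ofNat (nat_lit 559094), .ofNat (nat_lit 455554), .ofNat (nat_lit 532980), .ofNat (nat_lit 477347), .ofNat (nat_lit 554773)⟩⟩, [⟨nat_lit 4, nat_lit 100, nat_lit 79, nat_lit 96, nat_lit 482804592⟩, ⟨nat_lit 7, nat_lit 81, nat_lit 100, nat_lit 96, nat_lit 355839856⟩]⟩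
noncomputable def p085_l43 : Lf2 := ⟨nat_lit 0, nat_lit 10, [nat_lit 0, nat_lit 5, nat_lit 5, nat_lit 20], false, nat_lit 240, nat_lit 300, nat_lit 240, nat_lit 352, ⟨nat_lit 1000, nat_lit 0, nat_lit 0, nat_lit 0, nat_lit 0, nat_lit 0, nat_lit 0, nat_lit 0, nat_lit 0, nat_lit 0, nat_lit 0, nat_lit 0, nat_lit 0, nat_lit 0, nat_lit 0, nat_lit 0, false, false⟩,
 nat_lit 0, nat_lit 0, nat_lit 10629, nat_lit 0, nat_lit 5327, nat_lit 6187, nat_lit 0, nat_lit 0, nat_lit 0, nat_lit 1589, nat_lit 0, nat_lit 0, nat_lit 0, nat_lit 0, nat_lit 0, nat_lit 0, nat_lit 0, nat_lit 0, [],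
 ⟨p085_k22, nat_lit 0, nat_lit 0, nat_lit 0, nat_lit 0, nat_lit 0, [nat_lit 2032000001, nat_lit 4688000000, nat_lit 6250000000], [], [nat_lit 29520085844, nat_lit 30482429238, nat_lit 31630724354, nat_lit 32488629369, nat_lit 31396578371, nat_lit 32235149082, nat_lit 33254155153, nat_lit 34056740480], nat_lit 0, nat_lit 0, nat_lit 0, nat_lit 0, nat_lit 0, nat_lit 0, [], [nat_lit 6, nat_lit 40, nat_lit 40, nat_lit 80]⟩, ⟨p085_k32, nat_lit 0, nat_lit 0, nat_lit 351, nat_lit 0, nat_lit 641666, [nat_lit 4688000000, nat_lit 7968000000, nat_lit 9842000000], [], [nat_lit 31330307830, nat_lit 31683001564, nat_lit 32730948591, nat_lit 33026165503, nat_lit 33731694443, nat_lit 33954438933, nat_lit 34841293500, nat_lit 35017142260], nat_lit 1271250, nat_lit 1271250, nat_lit 1271250, nat_lit 1271250, nat_lit 1271250, nat_lit 1271250, [nat_lit 1100000, nat_lit 1785000, nat_lit 1271250], [nat_lit 29, nat_lit 40, nat_lit 40, nat_lit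 80, nat_lit 17, nat_lit 401, nat_lit 175, nat_lit 10]⟩,
 zbF0, [⟨nat_lit 4, nat_lit 100, nat_lit 82, nat_lit 97, nat_lit 465026339⟩, ⟨nat_lit 7, nat_lit 78, nat_lit 100, nat_lit 95, nat_lit 358611623⟩]⟩
noncomputable def p085_l44 : Lf2 := ⟨nat_lit 0, nat_lit 10, [nat_lit 0, nat_lit 5, nat_lit 5, nat_lit 20], false, nat_lit 240, nat_lit 276, nat_lit 240, nat_lit 352, ⟨nat_lit 1000, nat_lit 0, nat_lit 0, nat_lit 0, nat_lit 0, nat_lit 0, nat_lit 0, nat_lit 0, nat_lit 0, nat_lit 0, nat_lit 0, nat_lit 0, nat_lit 0, nat_lit 0, nat_lit 0, nat_lit 0, false, false⟩,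
 nat_lit 0, nat_lit 0, nat_lit 3035, nat_lit 0, nat_lit 5393, nat_lit 1766, nat_lit 0, nat_lit 0, nat_lit 0, nat_lit 1039, nat_lit 0, nat_lit 314, nat_lit 0, nat_lit 0, nat_lit 0, nat_lit 0, nat_lit 0, nat_lit 0, [],
 ⟨p085_k28, nat_lit 0, nat_lit 0, nat_lit 0, nat_lit 0, nat_lit 0, [nat_lit 2032000001, nat_lit 4688000000, nat_lit 6250000000], [], [nat_lit 30460226442, nat_lit 31427758888, nat_lit 32030136675, nat_lit 32915636684, nat_lit 31514213440, nat_lit 32406764368, nat_lit 32971240101, nat_lit 33905600037], nat_lit 0, nat_lit 0, nat_lit 0, nat_lit 0, nat_lit 0, nat_lit 0, [], [nat_lit 6, nat_lit 40, nat_lit 40, nat_lit 80]⟩, ⟨p085_k32, nat_lit 0, nat_lit 0, nat_lit 0, nat_lit 0, nat_lit 1416673, [nat_lit 4688000000, nat_lit 7968000000, nat_lit 9842000000], [], [nat_lit 26029305568, nat_lit 26380105912, nat_lit 26727448354, nat_lit 27061794797, nat_lit 28129511757, nat_lit 28474945925, nat_lit 28867319257,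 nat_lit 29298910172], nat_lit 1271250, nat_lit 1271250, nat_lit 1271250, nat_lit 1271250, nat_lit 1271250, nat_lit 1271250, [nat_lit 1100000, nat_lit 1785000, nat_lit 1271250], [nat_lit 29, nat_lit 40, nat_lit 40, nat_lit 80]⟩,
 zbF0, [⟨nat_lit 16, nat_lit 77, nat_lit 100, nat_lit 99, nat_lit 371393519⟩, ⟨nat_lit 4, nat_lit 100, nat_lit 68, nat_lit 92, nat_lit 140383112⟩, ⟨nat_lit 19, nat_lit 100, nat_lit 69, nat_lit 96, nat_lit 196172114⟩]⟩
noncomputable def p085_l45 : Lf2 := ⟨nat_lit 0, nat_lit 5, [nat_lit 4, nat_lit 5, nat_lit 5, nat_lit 20], false, nat_lit 240, nat_lit 276, nat_lit 240, nat_lit 352, ⟨nat_lit 121, nat_lit 879, nat_lit 0, nat_lit 9, nat_lit 335, nat_lit 879, nat_lit 197, nat_lit 0, nat_lit 0, nat_lit 0, nat_lit 0, nat_lit 0, nat_lit 33061740, nat_lit 23912008, nat_lit 10026252, nat_lit 5392897, true, true⟩,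
 nat_lit 0, nat_lit 0, nat_lit 1489, nat_lit 0, nat_lit 3206, nat_lit 866, nat_lit 0, nat_lit 0, nat_lit 0, nat_lit 246, nat_lit 0, nat_lit 0, nat_lit 0, nat_lit 0, nat_lit 0, nat_lit 388800, nat_lit 0, nat_lit 0, [(nat_lit 21, [(nat_lit 1, nat_lit 817), (nat_lit 2, nat_lit 62)])],
 ⟨p085_k27, nat_lit 0, nat_lit 0, nat_lit 0, nat_lit 0, nat_lit 0, [nat_lit 1439944800, nat_lit 1761993734], [], [nat_lit 28353895282, nat_lit 29112471070, nat_lit 29376620471, nat_lit 30104198317, nat_lit 29293835852, nat_lit 30004739912, nat_lit 30270128591, nat_lit 31062043952], nat_lit 0, nat_lit 0, nat_lit 0, nat_lit 0, nat_lit 0, nat_lit 0, [], [nat_lit 24, nat_lit 40, nat_lit 40, nat_lit 80]⟩, ⟨p085_k31, nat_lit 0, nat_lit 0, nat_lit 560, nat_lit 0, nat_lit 1277852, [nat_lit 567248000, nat_lit 964128000], [], [nat_lit 3441909284, nat_lit 3447970790, nat_lit 3533579682, nat_lit 3540537719, nat_lit 3666935636, nat_lit 3671404957,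 nat_lit 3787496153, nat_lit 3796180197], nat_lit 1271250, nat_lit 1271250, nat_lit 1271250, nat_lit 1271250, nat_lit 1271250, nat_lit 1271250, [nat_lit 1100000, nat_lit 1785000], [nat_lit 39, nat_lit 40, nat_lit 40, nat_lit 80, nat_lit 7, nat_lit 266, nat_lit 0, nat_lit 7]⟩,
 ⟨nat_lit 3162, nat_lit 3873, ⟨.ofNat (nat_lit 823465), .ofNat (nat_lit 862178), .ofNat (nat_lit 828913), .ofNat (nat_lit 867626), .ofNat (nat_lit 810277), .ofNat (nat_lit 846849), .ofNat (nat_lit 815815), .ofNat (nat_lit 852387)⟩, ⟨.ofNat (nat_lit 455554), .ofNat (nat_lit 513623), .ofNat (nat_lit 477347), .ofNat (nat_lit 535416), .ofNat (nat_lit 450177), .ofNat (nat_lit 505035), .ofNat (nat_lit 472332), .ofNat (nat_lit 527190)⟩⟩, [⟨nat_lit 13, nat_lit 76, nat_lit 45, nat_lit 100, nat_lit 208266169⟩, ⟨nat_lit 16, nat_lit 77, nat_lit 100, nat_lit 99, nat_lit 204652653⟩, ⟨nat_lit 19, nat_lit 100, nat_lit 69, nat_lit 96, nat_lit 42145293⟩]⟩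
noncomputable def p085_l46 : Lf2 := ⟨nat_lit 0, nat_lit 10, [nat_lit 0, nat_lit 5, nat_lit 5, nat_lit 20], false, nat_lit 240, nat_lit 276, nat_lit 240, nat_lit 352, ⟨nat_lit 194, nat_lit 806, nat_lit 0, nat_lit 9, nat_lit 335, nat_lit 806, nat_lit 197, nat_lit 0, nat_lit 0, nat_lit 0, nat_lit 0, nat_lit 0, nat_lit 33061740, nat_lit 23912008, nat_lit 10026252, nat_lit 5392897, true, true⟩,
 nat_lit 0, nat_lit 0, nat_lit 2299, nat_lit 0, nat_lit 3429, nat_lit 1338, nat_lit 0, nat_lit 0, nat_lit 0, nat_lit 378, nat_lit 0, nat_lit 0, nat_lit 0, nat_lit 0, nat_lit 0, nat_lit 322400, nat_lit 0, nat_lit 0, [(nat_lit 21, [(nat_lit 1, nat_lit 806)])],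
 ⟨p085_k28, nat_lit 0, nat_lit 0, nat_lit 0, nat_lit 0, nat_lit 0, [nat_lit 1486499201, nat_lit 2112668801, nat_lit 2415052000], [], [nat_lit 28545596627, nat_lit 29358715465, nat_lit 29648097055, nat_lit 30411373540, nat_lit 29529501820, nat_lit 30289002354, nat_lit 30562990210, nat_lit 31328764413], nat_lit 0, nat_lit 0, nat_lit 0, nat_lit 0, nat_lit 0, nat_lit 0, [], [nat_lit 6, nat_lit 40, nat_lit 40, nat_lit 80]⟩, ⟨p085_k32, nat_lit 0, nat_lit 0, nat_lit 442, nat_lit 0, nat_lit 849272, [nat_lit 909472000, nat_lit 1545792000, nat_lit 1909348000], [], [nat_lit 5557331964, nat_lit 5567500285, nat_lit 5698505984, nat_lit 5707155163, nat_lit 6004501110, nat_lit 6017146721, nat_lit 6180067960, nat_lit 6190928070], nat_lit 1271250, nat_lit 1271250, nat_lit 1271250, nat_lit 1271250, nat_lit 1271250, nat_lit 1271250, [nat_lit 1100000, nat_lit 1785000, nat_lit 1271250], [nat_lit 29, nat_lit 40, nat_lit 40, nat_lit 80,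 nat_lit 17, nat_lit 401, nat_lit 175, nat_lit 10]⟩,
 ⟨nat_lit 3162, nat_lit 3873, ⟨.ofNat (nat_lit 823465), .ofNat (nat_lit 862178), .ofNat (nat_lit 828913), .ofNat (nat_lit 867626), .ofNat (nat_lit 810277), .ofNat (nat_lit 846849), .ofNat (nat_lit 815815), .ofNat (nat_lit 852387)⟩, ⟨.ofNat (nat_lit 455554), .ofNat (nat_lit 513623), .ofNat (nat_lit 477347), .ofNat (nat_lit 535416), .ofNat (nat_lit 450177), .ofNat (nat_lit 505035), .ofNat (nat_lit 472332), .ofNat (nat_lit 527190)⟩⟩, [⟨nat_lit 13, nat_lit 70, nat_lit 53, nat_lit 100, nat_lit 242473345⟩, ⟨nat_lit 4, nat_lit 100, nat_lit 68, nat_lit 92, nat_lit 299199081⟩, ⟨nat_lit 19, nat_lit 100, nat_lit 69, nat_lit 96, nat_lit 71805799⟩]⟩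
noncomputable def p085_l47 : Lf2 := ⟨nat_lit 0, nat_lit 10, [nat_lit 0, nat_lit 5, nat_lit 5, nat_lit 20], false, nat_lit 240, nat_lit 276, nat_lit 240, nat_lit 348, ⟨nat_lit 190, nat_lit 810, nat_lit 0, nat_lit 9, nat_lit 339, nat_lit 810, nat_lit 198, nat_lit 0, nat_lit 0, nat_lit 0, nat_lit 0, nat_lit 0, nat_lit 32793302, nat_lit 24188925, nat_lit 10017773, nat_lit 5399063, true, true⟩,
 nat_lit 0, nat_lit 0, nat_lit 2276, nat_lit 0, nat_lit 2904, nat_lit 1355, nat_lit 262, nat_lit 0, nat_lit 0, nat_lit 262, nat_lit 0, nat_lit 0, nat_lit 0, nat_lit 0, nat_lit 0, nat_lit 324000, nat_lit 0, nat_lit 0, [(nat_lit 21, [(nat_lit 1, nat_lit 810)])],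
 ⟨p085_k48, nat_lit 0, nat_lit 0, nat_lit 0, nat_lit 0, nat_lit 0, [nat_lit 1101729000, nat_lit 1608557001, nat_lit 2260940999], [], [nat_lit 28053531257, nat_lit 28418375001, nat_lit 29023624544, nat_lit 29368184038, nat_lit 28910075283, nat_lit 29253170361, nat_lit 29864294082, nat_lit 30228566887], nat_lit 0, nat_lit 0, nat_lit 0, nat_lit 0, nat_lit 0, nat_lit 0, [], [nat_lit 236, nat_lit 40, nat_lit 20, nat_lit 40]⟩, ⟨p085_k49, nat_lit 0, nat_lit 0, nat_lit 564, nat_lit 0, nat_lit 1136782, [nat_lit 890720000, nat_lit 1187500000, nat_lit 1869980000], [], [nat_lit 5454225653, nat_lit 5463973215, nat_lit 5587745642, nat_lit 5597356661, nat_lit 5773247039, nat_lit 5780502691, nat_lit 5942511370, nat_lit 5954193460], nat_lit 1271250, nat_lit 1271250, nat_lit 1271250, nat_lit 1271250, nat_lit 1271250, nat_lit 1271250, [nat_lit 1100000, nat_lit 1442500, nat_lit 1271250], [nat_lit 11, nat_lit 40, nat_lit 40, nat_lit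 80, nat_lit 1, nat_lit 401, nat_lit 175, nat_lit 10]⟩,
 ⟨nat_lit 3535, nat_lit 3873, ⟨.ofNat (nat_lit 828913), .ofNat (nat_lit 867626), .ofNat (nat_lit 834361), .ofNat (nat_lit 873074), .ofNat (nat_lit 822390), .ofNat (nat_lit 860047), .ofNat (nat_lit 827878), .ofNat (nat_lit 865535)⟩, ⟨.ofNat (nat_lit 455554), .ofNat (nat_lit 513623), .ofNat (nat_lit 477347), .ofNat (nat_lit 535416), .ofNat (nat_lit 452997), .ofNat (nat_lit 509482), .ofNat (nat_lit 474949), .ofNat (nat_lit 531435)⟩⟩, [⟨nat_lit 13, nat_lit 70, nat_lit 52, nat_lit 100, nat_lit 209089451⟩, ⟨nat_lit 16, nat_lit 72, nat_lit 100, nat_lit 93, nat_lit 253580594⟩, ⟨nat_lit 19, nat_lit 100, nat_lit 71, nat_lit 97, nat_lit 64211433⟩]⟩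
noncomputable def p085_l48 : Lf2 := ⟨nat_lit 0, nat_lit 10, [nat_lit 0, nat_lit 5, nat_lit 5, nat_lit 20], false, nat_lit 240, nat_lit 264, nat_lit 240, nat_lit 348, ⟨nat_lit 176, nat_lit 824, nat_lit 0, nat_lit 9, nat_lit 335, nat_lit 824, nat_lit 192, nat_lit 0, nat_lit 0, nat_lit 0, nat_lit 0, nat_lit 0, nat_lit 33277369, nat_lit 23993008, nat_lit 9729623, nat_lit 5363147, true, true⟩,
 nat_lit 0, nat_lit 0, nat_lit 2144, nat_lit 0, nat_lit 2740, nat_lit 1276, nat_lit 334, nat_lit 0, nat_lit 0, nat_lit 269, nat_lit 0, nat_lit 0, nat_lit 0, nat_lit 0, nat_lit 0, nat_lit 206000, nat_lit 0, nat_lit 0, [(nat_lit 21, [(nat_lit 0, nat_lit 824)])],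
 ⟨p085_k50, nat_lit 0, nat_lit 0, nat_lit 0, nat_lit 0, nat_lit 0, [nat_lit 807148801, nat_lit 1348739200, nat_lit 1892406401, nat_lit 2443094400], [], [nat_lit 28254653391, nat_lit 28627924671, nat_lit 29070120451, nat_lit 29431592710, nat_lit 28872442911, nat_lit 29230780600, nat_lit 29662029573, nat_lit 30012376497], nat_lit 0, nat_lit 0, nat_lit 0, nat_lit 0, nat_lit 0, nat_lit 0, [], [nat_lit 205, nat_lit 40, nat_lit 40, nat_lit 80]⟩, ⟨p085_k51, nat_lit 0, nat_lit 0, nat_lit 630, nat_lit 0, nat_lit 1301959, [nat_lit 825088000, nat_lit 1402368000, nat_lit 1732192000], [], [nat_lit 5102864560, nat_lit 5108971848, nat_lit 5194842026, nat_lit 5202297188, nat_lit 5341313208, nat_lit 5349104402, nat_lit 5473090965, nat_lit 5484336929], nat_lit 1271250, nat_lit 1271250, nat_lit 1271250, nat_lit 1271250, nat_lit 1271250, nat_lit 1271250, [nat_lit 1100000, nat_lit 1785000, nat_lit 1271250], [nat_lit 29, nat_lit 40, nat_lit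 40, nat_lit 80, nat_lit 17, nat_lit 401, nat_lit 175, nat_lit 10]⟩,
 ⟨nat_lit 3162, nat_lit 3536, ⟨.ofNat (nat_lit 822390), .ofNat (nat_lit 853771), .ofNat (nat_lit 827878), .ofNat (nat_lit 859259), .ofNat (nat_lit 815815), .ofNat (nat_lit 846292), .ofNat (nat_lit 821354), .ofNat (nat_lit 851831)⟩, ⟨.ofNat (nat_lit 452997), .ofNat (nat_lit 490654), .ofNat (nat_lit 474949), .ofNat (nat_lit 512606), .ofNat (nat_lit 450177), .ofNat (nat_lit 486749), .ofNat (nat_lit 472332), .ofNat (nat_lit 508904)⟩⟩, [⟨nat_lit 13, nat_lit 67, nat_lit 55, nat_lit 100, nat_lit 219603217⟩, ⟨nat_lit 16, nat_lit 69, nat_lit 100, nat_lit 96, nat_lit 262216822⟩, ⟨nat_lit 19, nat_lit 100, nat_lit 71, nat_lit 97, nat_lit 56841076⟩]⟩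
noncomputable def p085_l49 : Lf2 := ⟨nat_lit 0, nat_lit 5, [nat_lit 4, nat_lit 5, nat_lit 5, nat_lit 20], false, nat_lit 240, nat_lit 276, nat_lit 240, nat_lit 344, ⟨nat_lit 171, nat_lit 829, nat_lit 0, nat_lit 9, nat_lit 342, nat_lit 829, nat_lit 197, nat_lit 0, nat_lit 0, nat_lit 0, nat_lit 0, nat_lit 0, nat_lit 32617087, nat_lit 24463931, nat_lit 9918982, nat_lit 5395238, true, true⟩,
 nat_lit 0, nat_lit 0, nat_lit 1976, nat_lit 0, nat_lit 2678, nat_lit 1203, nat_lit 381, nat_lit 0, nat_lit 0, nat_lit 232, nat_lit 0, nat_lit 0, nat_lit 0, nat_lit 0, nat_lit 0, nat_lit 247750, nat_lit 0, nat_lit 0, [(nat_lit 21, [(nat_lit 0, nat_lit 559), (nat_lit 1, nat_lit 270)])],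
 ⟨p085_k52, nat_lit 0, nat_lit 0, nat_lit 0, nat_lit 0, nat_lit 0, [nat_lit 778922801, nat_lit 1361981200, nat_lit 1830730401, nat_lit 2305729799], [], [nat_lit 27831176952, nat_lit 28572948984, nat_lit 28988136941, nat_lit 29693039165, nat_lit 28778040892, nat_lit 29475929980, nat_lit 29884911280, nat_lit 30602215689], nat_lit 0, nat_lit 0, nat_lit 0, nat_lit 0, nat_lit 0, nat_lit 0, [], [nat_lit 205, nat_lit 40, nat_lit 40, nat_lit 80]⟩, ⟨p085_k47, nat_lit 0, nat_lit 0, nat_lit 564, nat_lit 0, nat_lit 1289972, [nat_lit 801648000, nat_lit 1362528000], [], [nat_lit 4990592548, nat_lit 5012794332, nat_lit 5143647637, nat_lit 5163031776, nat_lit 5274078401, nat_lit 5287719952, nat_lit 5394700061, nat_lit 5413828990], nat_lit 1271250, nat_lit 1271250, nat_lit 1271250, nat_lit 1271250, nat_lit 1271250, nat_lit 1271250, [nat_lit 1100000, nat_lit 1785000], [nat_lit 39, nat_lit 40, nat_lit 40, nat_lit 80, nat_lit 7, nat_lit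 268, nat_lit 0, nat_lit 7]⟩,
 ⟨nat_lit 3162, nat_lit 3873, ⟨.ofNat (nat_lit 834361), .ofNat (nat_lit 879526), .ofNat (nat_lit 845258), .ofNat (nat_lit 890423), .ofNat (nat_lit 821354), .ofNat (nat_lit 864021), .ofNat (nat_lit 832432), .ofNat (nat_lit 875099)⟩, ⟨.ofNat (nat_lit 455554), .ofNat (nat_lit 513623), .ofNat (nat_lit 477347), .ofNat (nat_lit 535416), .ofNat (nat_lit 450177), .ofNat (nat_lit 505035), .ofNat (nat_lit 472332), .ofNat (nat_lit 527190)⟩⟩, [⟨nat_lit 13, nat_lit 71, nat_lit 48, nat_lit 100, nat_lit 182324014⟩, ⟨nat_lit 16, nat_lit 77, nat_lit 100, nat_lit 99, nat_lit 55287699⟩, ⟨nat_lit 4, nat_lit 100, nat_lit 68, nat_lit 92, nat_lit 203865209⟩, ⟨nat_lit 19, nat_lit 100, nat_lit 81, nat_lit 96, nat_lit 56781651⟩]⟩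
noncomputable def p085_l50 : Lf2 := ⟨nat_lit 0, nat_lit 10, [nat_lit 0, nat_lit 5, nat_lit 5, nat_lit 20], false, nat_lit 240, nat_lit 276, nat_lit 240, nat_lit 344, ⟨nat_lit 199, nat_lit 801, nat_lit 0, nat_lit 9, nat_lit 341, nat_lit 801, nat_lit 197, nat_lit 0, nat_lit 0, nat_lit 0, nat_lit 0, nat_lit 0, nat_lit 32689178, nat_lit 24374371, nat_lit 9936451, nat_lit 5394976, true, true⟩,
 nat_lit 0, nat_lit 0, nat_lit 2288, nat_lit 0, nat_lit 3337, nat_lit 1393, nat_lit 0, nat_lit 0, nat_lit 0, nat_lit 267, nat_lit 0, nat_lit 0, nat_lit 0, nat_lit 0, nat_lit 0, nat_lit 352800, nat_lit 0, nat_lit 0, [(nat_lit 21, [(nat_lit 1, nat_lit 747), (nat_lit 2, nat_lit 54)])],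
 ⟨p085_k28, nat_lit 0, nat_lit 0, nat_lit 0, nat_lit 0, nat_lit 0, [nat_lit 1492367201, nat_lit 2040236001, nat_lit 2297102800], [], [nat_lit 28541096348, nat_lit 29309998793, nat_lit 29777076155, nat_lit 30525931114, nat_lit 29485250074, nat_lit 30238003548, nat_lit 30678700741, nat_lit 31404027500], nat_lit 0, nat_lit 0, nat_lit 0, nat_lit 0, nat_lit 0, nat_lit 0, [], [nat_lit 6, nat_lit 40, nat_lit 40, nat_lit 80]⟩, ⟨p085_k35, nat_lit 0, nat_lit 0, nat_lit 444, nat_lit 0, nat_lit 858181, [nat_lit 932912000, nat_lit 1585632000, nat_lit 1958558000], [], [nat_lit 5676522561, nat_lit 5689984215, nat_lit 5861980452, nat_lit 5873457917, nat_lit 6046317993, nat_lit 6058982283, nat_lit 6285877829, nat_lit 6300590073], nat_lit 1271250, nat_lit 1271250, nat_lit 1271250, nat_lit 1271250, nat_lit 1271250, nat_lit 1271250, [nat_lit 1100000, nat_lit 1785000, nat_lit 1271250], [nat_lit 29, nat_lit 40, nat_lit 40, nat_lit 80,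 nat_lit 17, nat_lit 401, nat_lit 175, nat_lit 10]⟩,
 ⟨nat_lit 3162, nat_lit 3873, ⟨.ofNat (nat_lit 834361), .ofNat (nat_lit 879526), .ofNat (nat_lit 839810), .ofNat (nat_lit 884975), .ofNat (nat_lit 821354), .ofNat (nat_lit 864021), .ofNat (nat_lit 826893), .ofNat (nat_lit 869560)⟩, ⟨.ofNat (nat_lit 455554), .ofNat (nat_lit 513623), .ofNat (nat_lit 477347), .ofNat (nat_lit 535416), .ofNat (nat_lit 450177), .ofNat (nat_lit 505035), .ofNat (nat_lit 472332), .ofNat (nat_lit 527190)⟩⟩, [⟨nat_lit 13, nat_lit 71, nat_lit 49, nat_lit 100, nat_lit 234379636⟩, ⟨nat_lit 4, nat_lit 100, nat_lit 68, nat_lit 92, nat_lit 293301707⟩, ⟨nat_lit 19, nat_lit 100, nat_lit 74, nat_lit 98, nat_lit 68809894⟩]⟩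
noncomputable def p085_l51 : Lf2 := ⟨nat_lit 0, nat_lit 10, [nat_lit 0, nat_lit 5, nat_lit 5, nat_lit 20], false, nat_lit 240, nat_lit 276, nat_lit 240, nat_lit 340, ⟨nat_lit 208, nat_lit 792, nat_lit 0, nat_lit 9, nat_lit 343, nat_lit 792, nat_lit 197, nat_lit 0, nat_lit 0, nat_lit 0, nat_lit 0, nat_lit 0, nat_lit 32545108, nat_lit 24553381, nat_lit 9901511, nat_lit 5395454, true, true⟩,
 nat_lit 0, nat_lit 0, nat_lit 2291, nat_lit 0, nat_lit 3346, nat_lit 1426, nat_lit 0, nat_lit 0, nat_lit 0, nat_lit 230, nat_lit 0, nat_lit 0, nat_lit 0, nat_lit 0, nat_lit 0, nat_lit 355800, nat_lit 0, nat_lit 0, [(nat_lit 21, [(nat_lit 1, nat_lit 727), (nat_lit 2, nat_lit 65)])],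
 ⟨p085_k28, nat_lit 0, nat_lit 0, nat_lit 0, nat_lit 0, nat_lit 0, [nat_lit 1498964400, nat_lit 2050983601, nat_lit 2311052000], [], [nat_lit 28548584869, nat_lit 29318426337, nat_lit 29786095967, nat_lit 30535549081, nat_lit 29493028049, nat_lit 30246654344, nat_lit 30687893370, nat_lit 31414977964], nat_lit 0, nat_lit 0, nat_lit 0, nat_lit 0, nat_lit 0, nat_lit 0, [], [nat_lit 6, nat_lit 40, nat_lit 40, nat_lit 80]⟩, ⟨p085_k53, nat_lit 0, nat_lit 0, nat_lit 445, nat_lit 0, nat_lit 863468, [nat_lit 975104000, nat_lit 1657344000, nat_lit 2047136000], [], [nat_lit 6110633654, nat_lit 6124810026, nat_lit 6300942470, nat_lit 6313079607, nat_lit 6442207126, nat_lit 6452742584, nat_lit 6632286702, nat_lit 6644874842], nat_lit 1271250, nat_lit 1271250, nat_lit 1271250, nat_lit 1271250, nat_lit 1271250, nat_lit 1271250, [nat_lit 1100000, nat_lit 1785000, nat_lit 1271250], [nat_lit 29, nat_lit 40, nat_lit 40, nat_lit 80,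 nat_lit 17, nat_lit 401, nat_lit 175, nat_lit 10]⟩,
 ⟨nat_lit 3162, nat_lit 3873, ⟨.ofNat (nat_lit 839810), .ofNat (nat_lit 884975), .ofNat (nat_lit 845258), .ofNat (nat_lit 890423), .ofNat (nat_lit 826893), .ofNat (nat_lit 869560), .ofNat (nat_lit 832432), .ofNat (nat_lit 875099)⟩, ⟨.ofNat (nat_lit 455554), .ofNat (nat_lit 513623), .ofNat (nat_lit 477347), .ofNat (nat_lit 535416), .ofNat (nat_lit 450177), .ofNat (nat_lit 505035), .ofNat (nat_lit 472332), .ofNat (nat_lit 527190)⟩⟩, [⟨nat_lit 13, nat_lit 72, nat_lit 47, nat_lit 100, nat_lit 213242408⟩, ⟨nat_lit 4, nat_lit 100, nat_lit 68, nat_lit 92, nat_lit 297082311⟩, ⟨nat_lit 19, nat_lit 100, nat_lit 77, nat_lit 99, nat_lit 68923439⟩]⟩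
noncomputable def p085_l52 : Lf2 := ⟨nat_lit 0, nat_lit 10, [nat_lit 0, nat_lit 5, nat_lit 5, nat_lit 20], true, nat_lit 240, nat_lit 300, nat_lit 112, nat_lit 352, ⟨nat_lit 0, nat_lit 1000, nat_lit 0, nat_lit 9, nat_lit 345, nat_lit 1000, nat_lit 201, nat_lit 0, nat_lit 0, nat_lit 0, nat_lit 0, nat_lit 0, nat_lit 32220552, nat_lit 24596923, nat_lit 10182525, nat_lit 5425688, true, true⟩,
 nat_lit 0, nat_lit 0, nat_lit 0, nat_lit 2833, nat_lit 100000, nat_lit 0, nat_lit 0, nat_lit 9173, nat_lit 0, nat_lit 0, nat_lit 0, nat_lit 0, nat_lit 0, nat_lit 0, nat_lit 0, nat_lit 250000, nat_lit 0, nat_lit 0, [(nat_lit 18, [(nat_lit 0, nat_lit 1000)]), (nat_lit 21, [(nat_lit 0, nat_lit 1000)])],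
 ⟨p085_k22, nat_lit 0, nat_lit 0, nat_lit 0, nat_lit 0, nat_lit 0, [nat_lit 74942400000, nat_lit 148936000000, nat_lit 186022000000], [], [nat_lit 135231876000, nat_lit 151287588000, nat_lit 155647293601, nat_lit 169289478000, nat_lit 143699352000, nat_lit 156830601000, nat_lit 161075102100, nat_lit 171461570701], nat_lit 0, nat_lit 0, nat_lit 0, nat_lit 0, nat_lit 0, nat_lit 0, [], [nat_lit 6, nat_lit 40, nat_lit 40, nat_lit 80]⟩, C1.Rw.none,
 ⟨nat_lit 3162, nat_lit 4473, ⟨.ofNat (nat_lit 836574), .ofNat (nat_lit 897791), .ofNat (nat_lit 858073), .ofNat (nat_lit 919290), .ofNat (nat_lit 810240), .ofNat (nat_lit 865135), .ofNat (nat_lit 832328), .ofNat (nat_lit 887222)⟩, ⟨.ofNat (nat_lit 438578), .ofNat (nat_lit 540545), .ofNat (nat_lit 481711), .ofNat (nat_lit 583678), .ofNat (nat_lit 428022), .ofNat (nat_lit 519453), .ofNat (nat_lit 472332), .ofNat (nat_lit 563762)⟩⟩, [⟨nat_lit 13, nat_lit 87, nat_lit 25, nat_lit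 100, nat_lit 2732188389⟩, ⟨nat_lit 16, nat_lit 87, nat_lit 95, nat_lit 100, nat_lit 5794412087⟩]⟩
noncomputable def b_V_800_600_20_12 : St := ⟨true, nat_lit 0, nat_lit 1, nat_lit 1, nat_lit 120, nat_lit 320, nat_lit 360, nat_lit 260, nat_lit 280, nat_lit 360, nat_lit 396, nat_lit 80, nat_lit 120, nat_lit 240, nat_lit 300, nat_lit 112, nat_lit 352, nat_lit 0, nat_lit 40, nat_lit 300, nat_lit 600, nat_lit 0, nat_lit 0⟩
theorem d_V_800_600_20_12 (h : EB TB.env) : Dead b_V_800_600_20_12 := chkB_sound0 h (T :=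
(.spl (nat_lit 7) (nat_lit 460)
(.spl (nat_lit 3) (nat_lit 100)
(.trX (nat_lit 16) (nat_lit 87) (nat_lit 100) (nat_lit 94) (nat_lit 280) (.trX (nat_lit 19) (nat_lit 100) (nat_lit 77) (nat_lit 91) (nat_lit 336) (.spl (nat_lit 1) (nat_lit 270)
(.trX (nat_lit 13) (nat_lit 85) (nat_lit 30) (nat_lit 100) (nat_lit 392) (.spl (nat_lit 6) (nat_lit 20)
(.leaf p085_l29)
(.leaf p085_l30)))
(.trX (nat_lit 19) (nat_lit 100) (nat_lit 82) (nat_lit 92) (nat_lit 328) (.spl (nat_lit 0) (nat_lit 340)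
(.leaf p085_l31)
(.trX (nat_lit 13) (nat_lit 78) (nat_lit 39) (nat_lit 100) (nat_lit 388) (.trX (nat_lit 16) (nat_lit 74) (nat_lit 100) (nat_lit 90) (nat_lit 256) (.leaf p085_l32))))))))
(.spl (nat_lit 5) (nat_lit 240)
(.spl (nat_lit 0) (nat_lit 340)
(.leaf p085_l33)
(.trX (nat_lit 13) (nat_lit 78) (nat_lit 39) (nat_lit 100) (nat_lit 388) (.trX (nat_lit 16) (nat_lit 77) (nat_lit 100) (nat_lit 99) (nat_lit 276) (.leaf p085_l34))))
(.spl (nat_lit 0) (nat_lit 340)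
(.spl (nat_lit 6) (nat_lit 20)
(.spl (nat_lit 1) (nat_lit 270)
(.trX (nat_lit 13) (nat_lit 85) (nat_lit 30) (nat_lit 100) (nat_lit 392) (.spl (nat_lit 0) (nat_lit 330)
(.leaf p085_l35)
(.trX (nat_lit 13) (nat_lit 81) (nat_lit 37) (nat_lit 100) (nat_lit 388) (.trX (nat_lit 16) (nat_lit 83) (nat_lit 98) (nat_lit 100) (nat_lit 288) (.spl (nat_lit 0) (nat_lit 335)
(.leaf p085_l36)
(.trX (nat_lit 16) (nat_lit 81) (nat_lit 100) (nat_lit 100) (nat_lit 284) (.leaf p085_l37)))))))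
(.trX (nat_lit 19) (nat_lit 100) (nat_lit 74) (nat_lit 98) (nat_lit 344) (.spl (nat_lit 6) (nat_lit 8)
(.spl (nat_lit 0) (nat_lit 330)
(.leaf p085_l38)
(.trX (nat_lit 13) (nat_lit 83) (nat_lit 32) (nat_lit 100) (nat_lit 392) (.trX (nat_lit 16) (nat_lit 83) (nat_lit 98) (nat_lit 100) (nat_lit 288) (.spl (nat_lit 0) (nat_lit 335)
(.leaf p085_l39)
(.trX (nat_lit 16) (nat_lit 81) (nat_lit 100) (nat_lit 100) (nat_lit 284) (.leaf p085_l40))))))
(.spl (nat_lit 0) (nat_lit 330)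
(.leaf p085_l41)
(.trX (nat_lit 13) (nat_lit 83) (nat_lit 32) (nat_lit 100) (nat_lit 392) (.trX (nat_lit 16) (nat_lit 83) (nat_lit 98) (nat_lit 100) (nat_lit 288) (.leaf p085_l42)))))))
(.leaf p085_l43))
(.trX (nat_lit 13) (nat_lit 78) (nat_lit 39) (nat_lit 100) (nat_lit 388) (.trX (nat_lit 16) (nat_lit 77) (nat_lit 100) (nat_lit 99) (nat_lit 276) (.spl (nat_lit 8) (nat_lit 800)
(.leaf p085_l44)
(.spl (nat_lit 1) (nat_lit 270)
(.trX (nat_lit 13) (nat_lit 76) (nat_lit 43) (nat_lit 100) (nat_lit 384) (.spl (nat_lit 1) (nat_lit 265)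
(.spl (nat_lit 6) (nat_lit 20)
(.leaf p085_l45)
(.leaf p085_l46))
(.trX (nat_lit 19) (nat_lit 100) (nat_lit 71) (nat_lit 97) (nat_lit 348) (.spl (nat_lit 0) (nat_lit 350)
(.leaf p085_l47)
(.trX (nat_lit 13) (nat_lit 71) (nat_lit 50) (nat_lit 100) (nat_lit 380) (.trX (nat_lit 16) (nat_lit 69) (nat_lit 100) (nat_lit 96) (nat_lit 264) (.leaf p085_l48)))))))
(.trX (nat_lit 19) (nat_lit 100) (nat_lit 74) (nat_lit 98) (nat_lit 344) (.spl (nat_lit 6) (nat_lit 20)
(.leaf p085_l49)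
(.spl (nat_lit 1) (nat_lit 275)
(.leaf p085_l50)
(.trX (nat_lit 19) (nat_lit 100) (nat_lit 77) (nat_lit 99) (nat_lit 340) (.leaf p085_l51))))))))))))
(.leaf p085_l52))) (by decide +kernel)
noncomputable def p085_l53 : Lf2 := ⟨nat_lit 0, nat_lit 10, [nat_lit 0, nat_lit 5, nat_lit 5, nat_lit 20], true, nat_lit 0, nat_lit 300, nat_lit 0, nat_lit 364, ⟨nat_lit 0, nat_lit 1000, nat_lit 0, nat_lit 6, nat_lit 195, nat_lit 1000, nat_lit 110, nat_lit 0, nat_lit 0, nat_lit 0, nat_lit 0, nat_lit 0, nat_lit 0, nat_lit 0, nat_lit 0, nat_lit 5000000, false, false⟩,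
 nat_lit 0, nat_lit 0, nat_lit 0, nat_lit 1532, nat_lit 5118, nat_lit 0, nat_lit 0, nat_lit 0, nat_lit 0, nat_lit 0, nat_lit 0, nat_lit 0, nat_lit 0, nat_lit 0, nat_lit 0, nat_lit 250000, nat_lit 0, nat_lit 0, [(nat_lit 18, [(nat_lit 0, nat_lit 1000)]), (nat_lit 21, [(nat_lit 0, nat_lit 1000)])],
 ⟨p085_k54, nat_lit 0, nat_lit 0, nat_lit 155, nat_lit 0, nat_lit 0, [nat_lit 1558400000, nat_lit 2562000000], [], [nat_lit 21433321988, nat_lit 25733716240, nat_lit 23925560104, nat_lit 27257648344, nat_lit 24355853633, nat_lit 27177048979, nat_lit 25219357630, nat_lit 27824366664], nat_lit 0, nat_lit 0, nat_lit 0, nat_lit 0, nat_lit 0, nat_lit 0, [], [nat_lit 69, nat_lit 40, nat_lit 40, nat_lit 80, nat_lit 64, nat_lit 373, nat_lit 150, nat_lit 14]⟩, C1.Rw.none,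
 ⟨nat_lit 3162, nat_lit 4473, ⟨.ofNat (nat_lit 311562), .ofNat (nat_lit 611007), .ofNat (nat_lit 354514), .ofNat (nat_lit 653959), .ofNat (nat_lit 336623), .ofNat (nat_lit 605159), .ofNat (nat_lit 380752), .ofNat (nat_lit 649288)⟩, ⟨.ofNat (nat_lit 0), .ofNat (nat_lit 540545), .ofNat (nat_lit 0), .ofNat (nat_lit 583678), .ofNat (nat_lit 0), .ofNat (nat_lit 519453), .ofNat (nat_lit 0), .ofNat (nat_lit 563762)⟩⟩, [⟨nat_lit 16, nat_lit 87, nat_lit 95, nat_lit 100, nat_lit 79245669⟩]⟩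
noncomputable def p085_l54 : Lf2 := ⟨nat_lit 0, nat_lit 10, [nat_lit 0, nat_lit 5, nat_lit 5, nat_lit 20], false, nat_lit 0, nat_lit 300, nat_lit 0, nat_lit 364, ⟨nat_lit 749, nat_lit 251, nat_lit 0, nat_lit 6, nat_lit 302, nat_lit 251, nat_lit 110, nat_lit 0, nat_lit 0, nat_lit 0, nat_lit 0, nat_lit 0, nat_lit 0, nat_lit 0, nat_lit 0, nat_lit 5000000, true, true⟩,
 nat_lit 0, nat_lit 0, nat_lit 0, nat_lit 3468, nat_lit 5642, nat_lit 5806, nat_lit 0, nat_lit 0, nat_lit 0, nat_lit 603, nat_lit 0, nat_lit 0, nat_lit 0, nat_lit 0, nat_lit 0, nat_lit 62750, nat_lit 0, nat_lit 0, [(nat_lit 18, [(nat_lit 0, nat_lit 251)]), (nat_lit 21, [(nat_lit 0, nat_lit 251)])],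
 ⟨p085_k22, nat_lit 0, nat_lit 0, nat_lit 179, nat_lit 0, nat_lit 0, [nat_lit 1913126401, nat_lit 4055480000, nat_lit 5324312000], [], [nat_lit 26843341352, nat_lit 29770775496, nat_lit 36681245997, nat_lit 39353701140, nat_lit 28118434368, nat_lit 29971514880, nat_lit 33888765724, nat_lit 35315077701], nat_lit 0, nat_lit 0, nat_lit 0, nat_lit 0, nat_lit 0, nat_lit 0, [], [nat_lit 6, nat_lit 40, nat_lit 40, nat_lit 80, nat_lit 3, nat_lit 289, nat_lit 75, nat_lit 10]⟩, ⟨p085_k23, nat_lit 0, nat_lit 0, nat_lit 249, nat_lit 0, nat_lit 0, [nat_lit 3511312000, nat_lit 5968032000, nat_lit 8892128000], [], [nat_lit 21948052276, nat_lit 23658514220, nat_lit 30322546069, nat_lit 31170989542, nat_lit 23503601140, nat_lit 24201975746, nat_lit 27524257804, nat_lit 28173796165], nat_lit 0, nat_lit 0, nat_lit 0, nat_lit 0, nat_lit 0, nat_lit 0, [], [nat_lit 21, nat_lit 40, nat_lit 40, nat_lit 80, nat_lit 14, nat_lit 538, nat_lit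 300, nat_lit 13]⟩,
 ⟨nat_lit 3162, nat_lit 4473, ⟨.ofNat (nat_lit 611007), .ofNat (nat_lit 876224), .ofNat (nat_lit 653959), .ofNat (nat_lit 919290), .ofNat (nat_lit 605159), .ofNat (nat_lit 842980), .ofNat (nat_lit 649288), .ofNat (nat_lit 887222)⟩, ⟨.ofNat (nat_lit 0), .ofNat (nat_lit 540545), .ofNat (nat_lit 0), .ofNat (nat_lit 583678), .ofNat (nat_lit 0), .ofNat (nat_lit 519453), .ofNat (nat_lit 0), .ofNat (nat_lit 563762)⟩⟩, [⟨nat_lit 4, nat_lit 100, nat_lit 74, nat_lit 90, nat_lit 124398571⟩, ⟨nat_lit 19, nat_lit 100, nat_lit 59, nat_lit 94, nat_lit 115404968⟩]⟩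
noncomputable def p085_l55 : Lf2 := ⟨nat_lit 0, nat_lit 10, [nat_lit 0, nat_lit 5, nat_lit 5, nat_lit 20], true, nat_lit 0, nat_lit 300, nat_lit 0, nat_lit 364, ⟨nat_lit 0, nat_lit 1000, nat_lit 0, nat_lit 6, nat_lit 195, nat_lit 1000, nat_lit 110, nat_lit 0, nat_lit 0, nat_lit 0, nat_lit 0, nat_lit 0, nat_lit 0, nat_lit 0, nat_lit 0, nat_lit 5000000, false, false⟩,
 nat_lit 0, nat_lit 0, nat_lit 0, nat_lit 1532, nat_lit 5118, nat_lit 0, nat_lit 0, nat_lit 0, nat_lit 0, nat_lit 0, nat_lit 0, nat_lit 0, nat_lit 0, nat_lit 0, nat_lit 0, nat_lit 250000, nat_lit 0, nat_lit 0, [(nat_lit 18, [(nat_lit 0, nat_lit 1000)]), (nat_lit 21, [(nat_lit 0, nat_lit 1000)])],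
 ⟨p085_k54, nat_lit 0, nat_lit 0, nat_lit 155, nat_lit 0, nat_lit 0, [nat_lit 1558400000, nat_lit 2562000000], [], [nat_lit 21433321988, nat_lit 25733716240, nat_lit 23925560104, nat_lit 27257648344, nat_lit 24355853633, nat_lit 27177048979, nat_lit 25219357630, nat_lit 27824366664], nat_lit 0, nat_lit 0, nat_lit 0, nat_lit 0, nat_lit 0, nat_lit 0, [], [nat_lit 69, nat_lit 40, nat_lit 40, nat_lit 80, nat_lit 64, nat_lit 373, nat_lit 150, nat_lit 14]⟩, C1.Rw.none,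
 ⟨nat_lit 3162, nat_lit 4473, ⟨.ofNat (nat_lit 311562), .ofNat (nat_lit 611007), .ofNat (nat_lit 354514), .ofNat (nat_lit 653959), .ofNat (nat_lit 336623), .ofNat (nat_lit 605159), .ofNat (nat_lit 380752), .ofNat (nat_lit 649288)⟩, ⟨.ofNat (nat_lit 0), .ofNat (nat_lit 540545), .ofNat (nat_lit 0), .ofNat (nat_lit 583678), .ofNat (nat_lit 0), .ofNat (nat_lit 519453), .ofNat (nat_lit 0), .ofNat (nat_lit 563762)⟩⟩, [⟨nat_lit 16, nat_lit 87, nat_lit 95, nat_lit 100, nat_lit 79245669⟩]⟩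
noncomputable def p085_l56 : Lf2 := ⟨nat_lit 0, nat_lit 10, [nat_lit 0, nat_lit 5, nat_lit 5, nat_lit 20], true, nat_lit 0, nat_lit 300, nat_lit 0, nat_lit 364, ⟨nat_lit 0, nat_lit 1000, nat_lit 0, nat_lit 6, nat_lit 278, nat_lit 1000, nat_lit 110, nat_lit 0, nat_lit 0, nat_lit 0, nat_lit 0, nat_lit 0, nat_lit 0, nat_lit 0, nat_lit 0, nat_lit 5000000, true, true⟩,
 nat_lit 0, nat_lit 0, nat_lit 0, nat_lit 2025, nat_lit 4466, nat_lit 0, nat_lit 0, nat_lit 0, nat_lit 0, nat_lit 0, nat_lit 0, nat_lit 0, nat_lit 0, nat_lit 0, nat_lit 0, nat_lit 250000, nat_lit 0, nat_lit 0, [(nat_lit 18, [(nat_lit 0, nat_lit 1000)]), (nat_lit 21, [(nat_lit 0, nat_lit 1000)])],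
 ⟨p085_k22, nat_lit 0, nat_lit 0, nat_lit 155, nat_lit 0, nat_lit 0, [nat_lit 1558400000, nat_lit 2168000000, nat_lit 2562000000], [], [nat_lit 23281636296, nat_lit 26089325008, nat_lit 27384731576, nat_lit 30470955400, nat_lit 25578499264, nat_lit 27480834806, nat_lit 28219527978, nat_lit 30235885162], nat_lit 0, nat_lit 0, nat_lit 0, nat_lit 0, nat_lit 0, nat_lit 0, [], [nat_lit 6, nat_lit 40, nat_lit 40, nat_lit 80, nat_lit 3, nat_lit 289, nat_lit 75, nat_lit 10]⟩, C1.Rw.none,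
 ⟨nat_lit 3162, nat_lit 4473, ⟨.ofNat (nat_lit 611007), .ofNat (nat_lit 747055), .ofNat (nat_lit 653959), .ofNat (nat_lit 790054), .ofNat (nat_lit 605159), .ofNat (nat_lit 727157), .ofNat (nat_lit 649288), .ofNat (nat_lit 771333)⟩, ⟨.ofNat (nat_lit 0), .ofNat (nat_lit 540545), .ofNat (nat_lit 0), .ofNat (nat_lit 583678), .ofNat (nat_lit 0), .ofNat (nat_lit 519453), .ofNat (nat_lit 0), .ofNat (nat_lit 563762)⟩⟩, [⟨nat_lit 16, nat_lit 87, nat_lit 95, nat_lit 100, nat_lit 63884236⟩]⟩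
noncomputable def p085_l57 : Lf2 := ⟨nat_lit 0, nat_lit 10, [nat_lit 0, nat_lit 5, nat_lit 5, nat_lit 20], true, nat_lit 0, nat_lit 160, nat_lit 0, nat_lit 336, ⟨nat_lit 0, nat_lit 1000, nat_lit 0, nat_lit 8, nat_lit 328, nat_lit 960, nat_lit 65, nat_lit 0, nat_lit 0, nat_lit 0, nat_lit 0, nat_lit 0, nat_lit 0, nat_lit 0, nat_lit 0, nat_lit 5000000, true, true⟩,
 nat_lit 0, nat_lit 0, nat_lit 0, nat_lit 2183, nat_lit 3269, nat_lit 0, nat_lit 0, nat_lit 0, nat_lit 0, nat_lit 0, nat_lit 0, nat_lit 0, nat_lit 0, nat_lit 0, nat_lit 0, nat_lit 475000, nat_lit 0, nat_lit 0, [(nat_lit 18, [(nat_lit 1, nat_lit 875), (nat_lit 2, nat_lit 125)]), (nat_lit 21, [(nat_lit 1, nat_lit 875), (nat_lit 2, nat_lit 125)])],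
 ⟨p085_k22, nat_lit 0, nat_lit 0, nat_lit 179, nat_lit 0, nat_lit 0, [nat_lit 1436100001, nat_lit 1851500000, nat_lit 1660300000], [], [nat_lit 26638705141, nat_lit 28427414865, nat_lit 30142896510, nat_lit 32234772330, nat_lit 26117058945, nat_lit 27663477989, nat_lit 29150713679, nat_lit 30448072716], nat_lit 0, nat_lit 0, nat_lit 0, nat_lit 0, nat_lit 0, nat_lit 0, [], [nat_lit 6, nat_lit 40, nat_lit 40, nat_lit 80, nat_lit 3, nat_lit 249, nat_lit 40, nat_lit 8]⟩, C1.Rw.none,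
 ⟨nat_lit 3162, nat_lit 4473, ⟨.ofNat (nat_lit 747055), .ofNat (nat_lit 876224), .ofNat (nat_lit 790054), .ofNat (nat_lit 919290), .ofNat (nat_lit 727157), .ofNat (nat_lit 842980), .ofNat (nat_lit 771333), .ofNat (nat_lit 887222)⟩, ⟨.ofNat (nat_lit 0), .ofNat (nat_lit 302621), .ofNat (nat_lit 0), .ofNat (nat_lit 345754), .ofNat (nat_lit 0), .ofNat (nat_lit 306116), .ofNat (nat_lit 0), .ofNat (nat_lit 350426)⟩⟩, [⟨nat_lit 13, nat_lit 87, nat_lit 25, nat_lit 100, nat_lit 344534792⟩]⟩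
noncomputable def p085_l58 : Lf2 := ⟨nat_lit 0, nat_lit 10, [nat_lit 0, nat_lit 5, nat_lit 5, nat_lit 20], true, nat_lit 160, nat_lit 300, nat_lit 16, nat_lit 364, ⟨nat_lit 0, nat_lit 1000, nat_lit 0, nat_lit 8, nat_lit 322, nat_lit 1000, nat_lit 176, nat_lit 0, nat_lit 0, nat_lit 0, nat_lit 0, nat_lit 0, nat_lit 0, nat_lit 0, nat_lit 0, nat_lit 5000000, true, true⟩,
 nat_lit 0, nat_lit 0, nat_lit 0, nat_lit 4939, nat_lit 3212, nat_lit 0, nat_lit 31, nat_lit 0, nat_lit 0, nat_lit 0, nat_lit 0, nat_lit 0, nat_lit 0, nat_lit 0, nat_lit 0, nat_lit 497200, nat_lit 0, nat_lit 0, [(nat_lit 18, [(nat_lit 1, nat_lit 838), (nat_lit 2, nat_lit 162)]), (nat_lit 21, [(nat_lit 1, nat_lit 838), (nat_lit 2, nat_lit 162)])],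
 ⟨p085_k22, nat_lit 0, nat_lit 0, nat_lit 92, nat_lit 0, nat_lit 0, [nat_lit 1447338134, nat_lit 1817410667, nat_lit 1571352000], [], [nat_lit 24662498854, nat_lit 26439740406, nat_lit 27954053661, nat_lit 29449234724, nat_lit 27963296202, nat_lit 29370894534, nat_lit 30585113267, nat_lit 32056759766], nat_lit 0, nat_lit 0, nat_lit 0, nat_lit 0, nat_lit 0, nat_lit 0, [], [nat_lit 6, nat_lit 40, nat_lit 40, nat_lit 80, nat_lit 3, nat_lit 289, nat_lit 75, nat_lit 9]⟩, C1.Rw.none,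
 ⟨nat_lit 3162, nat_lit 4473, ⟨.ofNat (nat_lit 747055), .ofNat (nat_lit 869427), .ofNat (nat_lit 768554), .ofNat (nat_lit 890989), .ofNat (nat_lit 727157), .ofNat (nat_lit 836884), .ofNat (nat_lit 749245), .ofNat (nat_lit 859035)⟩, ⟨.ofNat (nat_lit 302621), .ofNat (nat_lit 540545), .ofNat (nat_lit 345754), .ofNat (nat_lit 583678), .ofNat (nat_lit 306116), .ofNat (nat_lit 519453), .ofNat (nat_lit 350426), .ofNat (nat_lit 563762)⟩⟩, [⟨nat_lit 13, nat_lit 84, nat_lit 35, nat_lit 100, nat_lit 337192576⟩, ⟨nat_lit 16, nat_lit 87, nat_lit 95, nat_lit 100, nat_lit 209408700⟩]⟩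
noncomputable def p085_l59 : Lf2 := ⟨nat_lit 0, nat_lit 10, [nat_lit 0, nat_lit 5, nat_lit 5, nat_lit 20], false, nat_lit 160, nat_lit 300, nat_lit 16, nat_lit 352, ⟨nat_lit 167, nat_lit 833, nat_lit 0, nat_lit 8, nat_lit 329, nat_lit 833, nat_lit 176, nat_lit 0, nat_lit 0, nat_lit 0, nat_lit 0, nat_lit 0, nat_lit 0, nat_lit 0, nat_lit 0, nat_lit 5000000, true, true⟩,
 nat_lit 0, nat_lit 0, nat_lit 2156, nat_lit 0, nat_lit 3506, nat_lit 1254, nat_lit 106, nat_lit 0, nat_lit 0, nat_lit 102, nat_lit 0, nat_lit 0, nat_lit 0, nat_lit 0, nat_lit 0, nat_lit 401600, nat_lit 0, nat_lit 0, [(nat_lit 18, [(nat_lit 1, nat_lit 719), (nat_lit 2, nat_lit 114)]), (nat_lit 21, [(nat_lit 1, nat_lit 719), (nat_lit 2, nat_lit 114)])],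
 ⟨p085_k22, nat_lit 0, nat_lit 0, nat_lit 92, nat_lit 0, nat_lit 0, [nat_lit 1538614667, nat_lit 2316097334, nat_lit 2403040400], [], [nat_lit 24888287427, nat_lit 26724680603, nat_lit 28361918231, nat_lit 29966968002, nat_lit 28196325701, nat_lit 29710812666, nat_lit 31024988477, nat_lit 32424122703], nat_lit 0, nat_lit 0, nat_lit 0, nat_lit 0, nat_lit 0, nat_lit 0, [], [nat_lit 6, nat_lit 40, nat_lit 40, nat_lit 80, nat_lit 3, nat_lit 289, nat_lit 75, nat_lit 9]⟩, ⟨p085_k32, nat_lit 0, nat_lit 0, nat_lit 866, nat_lit 0, nat_lit 1547796, [nat_lit 782896000, nat_lit 1330656000, nat_lit 1643614000], [], [nat_lit 6234457394, nat_lit 6241712699, nat_lit 6611700351, nat_lit 6636571604, nat_lit 5740143216, nat_lit 5751801696, nat_lit 6017824135, nat_lit 6031235557], nat_lit 1271250, nat_lit 1271250, nat_lit 1271250, nat_lit 1271250, nat_lit 88400, nat_lit 2511800, [nat_lit 1100000, nat_lit 1785000, nat_lit 1271250], [nat_lit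 29, nat_lit 40, nat_lit 40, nat_lit 80, nat_lit 17, nat_lit 401, nat_lit 175, nat_lit 11]⟩,
 ⟨nat_lit 3162, nat_lit 4473, ⟨.ofNat (nat_lit 768554), .ofNat (nat_lit 890989), .ofNat (nat_lit 779304), .ofNat (nat_lit 901738), .ofNat (nat_lit 749245), .ofNat (nat_lit 859035), .ofNat (nat_lit 760289), .ofNat (nat_lit 870079)⟩, ⟨.ofNat (nat_lit 302621), .ofNat (nat_lit 540545), .ofNat (nat_lit 345754), .ofNat (nat_lit 583678), .ofNat (nat_lit 306116), .ofNat (nat_lit 519453), .ofNat (nat_lit 350426), .ofNat (nat_lit 563762)⟩⟩, [⟨nat_lit 13, nat_lit 85, nat_lit 30, nat_lit 100, nat_lit 266555469⟩, ⟨nat_lit 16, nat_lit 87, nat_lit 95, nat_lit 100, nat_lit 235931914⟩, ⟨nat_lit 19, nat_lit 100, nat_lit 69, nat_lit 96, nat_lit 24897883⟩]⟩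
noncomputable def p085_l60 : Lf2 := ⟨nat_lit 0, nat_lit 10, [nat_lit 0, nat_lit 5, nat_lit 5, nat_lit 20], false, nat_lit 160, nat_lit 300, nat_lit 16, nat_lit 344, ⟨nat_lit 188, nat_lit 812, nat_lit 0, nat_lit 8, nat_lit 335, nat_lit 812, nat_lit 176, nat_lit 0, nat_lit 0, nat_lit 0, nat_lit 0, nat_lit 0, nat_lit 0, nat_lit 0, nat_lit 0, nat_lit 5000000, true, true⟩,
 nat_lit 0, nat_lit 0, nat_lit 2155, nat_lit 0, nat_lit 3406, nat_lit 1312, nat_lit 52, nat_lit 0, nat_lit 0, nat_lit 120, nat_lit 0, nat_lit 0, nat_lit 0, nat_lit 0, nat_lit 0, nat_lit 494000, nat_lit 0, nat_lit 0, [(nat_lit 18, [(nat_lit 1, nat_lit 530), (nat_lit 2, nat_lit 282)]), (nat_lit 21, [(nat_lit 1, nat_lit 530), (nat_lit 2, nat_lit 282)])],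
 ⟨p085_k22, nat_lit 0, nat_lit 0, nat_lit 96, nat_lit 0, nat_lit 0, [nat_lit 1602953067, nat_lit 2218461334, nat_lit 2089241600], [], [nat_lit 24989921027, nat_lit 26806194603, nat_lit 28550228089, nat_lit 30060282293, nat_lit 28295496401, nat_lit 29727007367, nat_lit 31119554515, nat_lit 32477273671], nat_lit 0, nat_lit 0, nat_lit 0, nat_lit 0, nat_lit 0, nat_lit 0, [], [nat_lit 6, nat_lit 40, nat_lit 40, nat_lit 80, nat_lit 3, nat_lit 289, nat_lit 75, nat_lit 9]⟩, ⟨p085_k35, nat_lit 0, nat_lit 0, nat_lit 850, nat_lit 0, nat_lit 1515916, [nat_lit 881344000, nat_lit 1497984000, nat_lit 1850296000], [], [nat_lit 7069468860, nat_lit 7083559052, nat_lit 7340101780, nat_lit 7347574172, nat_lit 6569988513, nat_lit 6571787538, nat_lit 6720284539, nat_lit 6717439975], nat_lit 1271250, nat_lit 1271250, nat_lit 1271250, nat_lit 1271250, nat_lit 88400, nat_lit 2454100, [nat_lit 1100000, nat_lit 1785000, nat_lit 1271250], [nat_lit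 29, nat_lit 40, nat_lit 40, nat_lit 80, nat_lit 17, nat_lit 401, nat_lit 175, nat_lit 11]⟩,
 ⟨nat_lit 3162, nat_lit 4473, ⟨.ofNat (nat_lit 779304), .ofNat (nat_lit 908541), .ofNat (nat_lit 790054), .ofNat (nat_lit 919290), .ofNat (nat_lit 760289), .ofNat (nat_lit 876179), .ofNat (nat_lit 771333), .ofNat (nat_lit 887222)⟩, ⟨.ofNat (nat_lit 302621), .ofNat (nat_lit 540545), .ofNat (nat_lit 345754), .ofNat (nat_lit 583678), .ofNat (nat_lit 306116), .ofNat (nat_lit 519453), .ofNat (nat_lit 350426), .ofNat (nat_lit 563762)⟩⟩, [⟨nat_lit 13, nat_lit 87, nat_lit 25, nat_lit 100, nat_lit 225821295⟩, ⟨nat_lit 16, nat_lit 87, nat_lit 95, nat_lit 100, nat_lit 235205732⟩, ⟨nat_lit 19, nat_lit 100, nat_lit 74, nat_lit 98, nat_lit 27557890⟩]⟩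
noncomputable def b_V_800_600_20_13 : St := ⟨true, nat_lit 0, nat_lit 2, nat_lit 2, nat_lit 120, nat_lit 320, nat_lit 360, nat_lit 240, nat_lit 280, nat_lit 64, nat_lit 396, nat_lit 80, nat_lit 120, nat_lit 0, nat_lit 300, nat_lit 0, nat_lit 364, nat_lit 0, nat_lit 40, nat_lit 0, nat_lit 0, nat_lit 0, nat_lit 0⟩
theorem d_V_800_600_20_13 (h : EB TB.env) : Dead b_V_800_600_20_13 := chkB_sound0 h (T :=
(.st (nat_lit 1)
(.spl (nat_lit 2) (nat_lit 240)
(.leaf p085_l53)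
(.leaf p085_l54))
(.spl (nat_lit 2) (nat_lit 240)
(.leaf p085_l55)
(.spl (nat_lit 2) (nat_lit 320)
(.leaf p085_l56)
(.spl (nat_lit 4) (nat_lit 160)
(.trX (nat_lit 22) (nat_lit 82) (nat_lit 76) (nat_lit 100) (nat_lit 336) (.leaf p085_l57))
(.trZ (nat_lit 9) (nat_lit 100) (nat_lit 82) (nat_lit 44) (nat_lit 16) (.spl (nat_lit 1) (nat_lit 260)
(.trX (nat_lit 13) (nat_lit 84) (nat_lit 35) (nat_lit 100) (nat_lit 392) (.leaf p085_l58))
(.trX (nat_lit 19) (nat_lit 100) (nat_lit 69) (nat_lit 96) (nat_lit 352) (.spl (nat_lit 1) (nat_lit 270)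
(.trX (nat_lit 13) (nat_lit 85) (nat_lit 30) (nat_lit 100) (nat_lit 392) (.leaf p085_l59))
(.trX (nat_lit 19) (nat_lit 100) (nat_lit 74) (nat_lit 98) (nat_lit 344) (.leaf p085_l60))))))))))) (by decide +kernel)
noncomputable def p085_l61 : Lf2 := ⟨nat_lit 0, nat_lit 10, [nat_lit 0, nat_lit 5, nat_lit 5, nat_lit 20], true, nat_lit 0, nat_lit 160, nat_lit 0, nat_lit 364, ⟨nat_lit 0, nat_lit 0, nat_lit 1000, nat_lit 6, nat_lit 149, nat_lit 847, nat_lit 65, nat_lit 1000, nat_lit 40017, nat_lit 264, nat_lit 205350, nat_lit 326, nat_lit 58871035, nat_lit 0, nat_lit 0, nat_lit 1847809, false, false⟩,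
 nat_lit 0, nat_lit 3623, nat_lit 0, nat_lit 0, nat_lit 2717, nat_lit 0, nat_lit 0, nat_lit 0, nat_lit 0, nat_lit 0, nat_lit 0, nat_lit 0, nat_lit 0, nat_lit 0, nat_lit 94, nat_lit 491800, nat_lit 0, nat_lit 0, [(nat_lit 18, [(nat_lit 5, nat_lit 847), (nat_lit 6, nat_lit 153)])],
 ⟨p085_k22, nat_lit 0, nat_lit 0, nat_lit 359, nat_lit 0, nat_lit 557947, [nat_lit 1700832800, nat_lit 963662801, nat_lit 8273200], [], [nat_lit 15916381814, nat_lit 16239255647, nat_lit 16572875045, nat_lit 16876202226, nat_lit 17298951643, nat_lit 17600912463, nat_lit 17970445920, nat_lit 18254263396], nat_lit 1271250, nat_lit 1271250, nat_lit 382400, nat_lit 780000, nat_lit 0, nat_lit 1100001, [nat_lit 490000, nat_lit 1100000, nat_lit 1442500], [nat_lit 6, nat_lit 40, nat_lit 40, nat_lit 80, nat_lit 3, nat_lit 289, nat_lit 75, nat_lit 11]⟩, C1.Rw.none,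
 ⟨nat_lit 4330, nat_lit 4473, ⟨.ofNat (nat_lit 312004), .ofNat (nat_lit 407174), .ofNat (nat_lit 333570), .ofNat (nat_lit 428739), .ofNat (nat_lit 315024), .ofNat (nat_lit 408989), .ofNat (nat_lit 336637), .ofNat (nat_lit 430602)⟩, ⟨.ofNat (nat_lit 0), .ofNat (nat_lit 302621), .ofNat (nat_lit 0), .ofNat (nat_lit 345754), .ofNat (nat_lit 0), .ofNat (nat_lit 303199), .ofNat (nat_lit 0), .ofNat (nat_lit 346426)⟩⟩, [⟨nat_lit 0, nat_lit 100, nat_lit 82, nat_lit 87, nat_lit 38348174⟩]⟩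
noncomputable def p085_l62 : Lf2 := ⟨nat_lit 0, nat_lit 10, [nat_lit 0, nat_lit 5, nat_lit 5, nat_lit 20], true, nat_lit 0, nat_lit 160, nat_lit 0, nat_lit 364, ⟨nat_lit 0, nat_lit 0, nat_lit 1000, nat_lit 6, nat_lit 152, nat_lit 834, nat_lit 65, nat_lit 1000, nat_lit 40017, nat_lit 264, nat_lit 216600, nat_lit 329, nat_lit 58518301, nat_lit 0, nat_lit 0, nat_lit 1899285, false, false⟩,
 nat_lit 0, nat_lit 3518, nat_lit 0, nat_lit 0, nat_lit 2690, nat_lit 0, nat_lit 546, nat_lit 0, nat_lit 0, nat_lit 0, nat_lit 0, nat_lit 0, nat_lit 0, nat_lit 0, nat_lit 76, nat_lit 400000, nat_lit 0, nat_lit 0, [(nat_lit 18, [(nat_lit 5, nat_lit 1000)])],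
 ⟨p085_k55, nat_lit 0, nat_lit 0, nat_lit 368, nat_lit 0, nat_lit 588577, [nat_lit 1536800000, nat_lit 802000001, nat_lit 14800000], [], [nat_lit 16188840188, nat_lit 16542385857, nat_lit 16845276745, nat_lit 17179645370, nat_lit 17630952347, nat_lit 17929256710, nat_lit 18242497720, nat_lit 18525121040], nat_lit 1271250, nat_lit 1271250, nat_lit 435600, nat_lit 780000, nat_lit 0, nat_lit 1100001, [nat_lit 490000, nat_lit 1100000, nat_lit 1442500], [nat_lit 6, nat_lit 40, nat_lit 40, nat_lit 80, nat_lit 3, nat_lit 289, nat_lit 75, nat_lit 11]⟩, C1.Rw.none,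
 ⟨nat_lit 4183, nat_lit 4331, ⟨.ofNat (nat_lit 328447), .ofNat (nat_lit 408988), .ofNat (nat_lit 350060), .ofNat (nat_lit 430601), .ofNat (nat_lit 331312), .ofNat (nat_lit 410819), .ofNat (nat_lit 352977), .ofNat (nat_lit 432485)⟩, ⟨.ofNat (nat_lit 0), .ofNat (nat_lit 303199), .ofNat (nat_lit 0), .ofNat (nat_lit 346426), .ofNat (nat_lit 0), .ofNat (nat_lit 303743), .ofNat (nat_lit 0), .ofNat (nat_lit 347076)⟩⟩, [⟨nat_lit 0, nat_lit 100, nat_lit 80, nat_lit 89, nat_lit 24304140⟩]⟩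
noncomputable def p085_l63 : Lf2 := ⟨nat_lit 0, nat_lit 10, [nat_lit 0, nat_lit 5, nat_lit 5, nat_lit 20], false, nat_lit 0, nat_lit 160, nat_lit 0, nat_lit 364, ⟨nat_lit 273, nat_lit 0, nat_lit 727, nat_lit 6, nat_lit 155, nat_lit 727, nat_lit 65, nat_lit 727, nat_lit 40017, nat_lit 264, nat_lit 224267, nat_lit 331, nat_lit 58250452, nat_lit 0, nat_lit 0, nat_lit 1937534, false, false⟩,
 nat_lit 0, nat_lit 4326, nat_lit 0, nat_lit 0, nat_lit 3371, nat_lit 2761, nat_lit 634, nat_lit 0, nat_lit 0, nat_lit 347, nat_lit 0, nat_lit 0, nat_lit 0, nat_lit 0, nat_lit 0, nat_lit 290800, nat_lit 0, nat_lit 0, [(nat_lit 18, [(nat_lit 5, nat_lit 727)])],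
 ⟨p085_k24, nat_lit 0, nat_lit 0, nat_lit 414, nat_lit 0, nat_lit 663300, [nat_lit 1229973601, nat_lit 978846001, nat_lit 611969600], [], [nat_lit 17859516483, nat_lit 18821642348, nat_lit 18225881171, nat_lit 18759565946, nat_lit 18450803579, nat_lit 18952871072, nat_lit 18817556254, nat_lit 19344868636], nat_lit 1271250, nat_lit 1271250, nat_lit 462650, nat_lit 780000, nat_lit 0, nat_lit 1100001, [nat_lit 490000, nat_lit 1100000, nat_lit 1442500], [nat_lit 6, nat_lit 40, nat_lit 40, nat_lit 80, nat_lit 3, nat_lit 289, nat_lit 75, nat_lit 11]⟩, ⟨p085_k23, nat_lit 0, nat_lit 0, nat_lit 229, nat_lit 0, nat_lit 0, [nat_lit 1279824000, nat_lit 2175264000, nat_lit 3241056000], [], [nat_lit 6903014455, nat_lit 7405506400, nat_lit 6484248028, nat_lit 6959705566, nat_lit 8054405948, nat_lit 8329013361, nat_lit 7596926456, nat_lit 7856166525], nat_lit 0, nat_lit 0, nat_lit 0, nat_lit 0, nat_lit 0, nat_lit 0, [], [nat_lit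 21, nat_lit 40, nat_lit 40, nat_lit 80, nat_lit 14, nat_lit 428, nat_lit 200, nat_lit 11]⟩,
 ⟨nat_lit 3872, nat_lit 4184, ⟨.ofNat (nat_lit 337921), .ofNat (nat_lit 410806), .ofNat (nat_lit 359583), .ofNat (nat_lit 432468), .ofNat (nat_lit 343550), .ofNat (nat_lit 414527), .ofNat (nat_lit 365339), .ofNat (nat_lit 436316)⟩, ⟨.ofNat (nat_lit 0), .ofNat (nat_lit 303743), .ofNat (nat_lit 0), .ofNat (nat_lit 347076), .ofNat (nat_lit 0), .ofNat (nat_lit 304717), .ofNat (nat_lit 0), .ofNat (nat_lit 348304)⟩⟩, [⟨nat_lit 0, nat_lit 100, nat_lit 75, nat_lit 92, nat_lit 298668509⟩, ⟨nat_lit 7, nat_lit 72, nat_lit 100, nat_lit 89, nat_lit 73911398⟩]⟩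
noncomputable def p085_l64 : Lf2 := ⟨nat_lit 0, nat_lit 10, [nat_lit 0, nat_lit 5, nat_lit 5, nat_lit 20], false, nat_lit 0, nat_lit 160, nat_lit 0, nat_lit 352, ⟨nat_lit 328, nat_lit 0, nat_lit 672, nat_lit 6, nat_lit 163, nat_lit 672, nat_lit 65, nat_lit 672, nat_lit 40017, nat_lit 264, nat_lit 191072, nat_lit 322, nat_lit 57444621, nat_lit 0, nat_lit 0, nat_lit 2048432, false, false⟩,
 nat_lit 0, nat_lit 5246, nat_lit 0, nat_lit 0, nat_lit 3934, nat_lit 2189, nat_lit 0, nat_lit 0, nat_lit 0, nat_lit 958, nat_lit 0, nat_lit 0, nat_lit 0, nat_lit 0, nat_lit 29, nat_lit 672000, nat_lit 0, nat_lit 0, [(nat_lit 18, [(nat_lit 6, nat_lit 672)])],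
 ⟨p085_k22, nat_lit 0, nat_lit 0, nat_lit 431, nat_lit 0, nat_lit 728851, [nat_lit 1610636801, nat_lit 1168563201, nat_lit 8662400], [], [nat_lit 17586570494, nat_lit 18687025128, nat_lit 17848998758, nat_lit 18516348818, nat_lit 17626822830, nat_lit 18065029310, nat_lit 17830846414, nat_lit 18250814910], nat_lit 1271250, nat_lit 1271250, nat_lit 490000, nat_lit 780000, nat_lit 0, nat_lit 1100001, [nat_lit 490000, nat_lit 1100000, nat_lit 1442500], [nat_lit 6, nat_lit 40, nat_lit 40, nat_lit 80, nat_lit 3, nat_lit 289, nat_lit 75, nat_lit 11]⟩, ⟨p085_k32, nat_lit 0, nat_lit 0, nat_lit 182, nat_lit 0, nat_lit 0, [nat_lit 1537664000, nat_lit 2613504000, nat_lit 3228176000], [], [nat_lit 5975463812, nat_lit 6496699004, nat_lit 5953073806, nat_lit 6446492880, nat_lit 8280168309, nat_lit 8623620435, nat_lit 8093427339, nat_lit 8354618162], nat_lit 0, nat_lit 0, nat_lit 0, nat_lit 0, nat_lit 0, nat_lit 0, [], [nat_lit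 29, nat_lit 40, nat_lit 40, nat_lit 80, nat_lit 17, nat_lit 428, nat_lit 200, nat_lit 13]⟩,
 ⟨nat_lit 4183, nat_lit 4473, ⟨.ofNat (nat_lit 360749), .ofNat (nat_lit 428729), .ofNat (nat_lit 382312), .ofNat (nat_lit 450291), .ofNat (nat_lit 366218), .ofNat (nat_lit 432475), .ofNat (nat_lit 387880), .ofNat (nat_lit 454137)⟩, ⟨.ofNat (nat_lit 0), .ofNat (nat_lit 302621), .ofNat (nat_lit 0), .ofNat (nat_lit 345754), .ofNat (nat_lit 0), .ofNat (nat_lit 303743), .ofNat (nat_lit 0), .ofNat (nat_lit 347076)⟩⟩, [⟨nat_lit 0, nat_lit 100, nat_lit 83, nat_lit 98, nat_lit 358342567⟩, ⟨nat_lit 7, nat_lit 82, nat_lit 100, nat_lit 92, nat_lit 98392275⟩]⟩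
noncomputable def p085_l65 : Lf2 := ⟨nat_lit 0, nat_lit 10, [nat_lit 0, nat_lit 5, nat_lit 5, nat_lit 20], false, nat_lit 0, nat_lit 160, nat_lit 0, nat_lit 352, ⟨nat_lit 592, nat_lit 0, nat_lit 408, nat_lit 6, nat_lit 169, nat_lit 408, nat_lit 65, nat_lit 408, nat_lit 40017, nat_lit 264, nat_lit 153600, nat_lit 311, nat_lit 56857035, nat_lit 0, nat_lit 0, nat_lit 2125540, false, false⟩,
 nat_lit 0, nat_lit 5850, nat_lit 0, nat_lit 0, nat_lit 4560, nat_lit 5391, nat_lit 1068, nat_lit 0, nat_lit 0, nat_lit 681, nat_lit 0, nat_lit 0, nat_lit 0, nat_lit 0, nat_lit 0, nat_lit 163200, nat_lit 0, nat_lit 0, [(nat_lit 18, [(nat_lit 5, nat_lit 408)])],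
 ⟨p085_k24, nat_lit 0, nat_lit 0, nat_lit 449, nat_lit 0, nat_lit 777478, [nat_lit 1581894401, nat_lit 2606384000, nat_lit 3085878400], [], [nat_lit 19726096700, nat_lit 20979290312, nat_lit 19485038120, nat_lit 20696958640, nat_lit 18115028959, nat_lit 18575330186, nat_lit 18185844445, nat_lit 18695773565], nat_lit 1271250, nat_lit 1271250, nat_lit 573850, nat_lit 780000, nat_lit 0, nat_lit 1100001, [nat_lit 490000, nat_lit 1100000, nat_lit 1442500], [nat_lit 6, nat_lit 40, nat_lit 40, nat_lit 80, nat_lit 3, nat_lit 289, nat_lit 75, nat_lit 11]⟩, ⟨p085_k32, nat_lit 0, nat_lit 0, nat_lit 175, nat_lit 0, nat_lit 0, [nat_lit 2775296000, nat_lit 4717056000, nat_lit 5826464000], [], [nat_lit 12889241426, nat_lit 14067420545, nat_lit 12536837306, nat_lit 13671686232, nat_lit 15960395402, nat_lit 16821251232, nat_lit 15468878237, nat_lit 16234277455], nat_lit 0, nat_lit 0, nat_lit 0, nat_lit 0, nat_lit 0, nat_lit 0, [],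 [nat_lit 29, nat_lit 40, nat_lit 40, nat_lit 80, nat_lit 17, nat_lit 428, nat_lit 200, nat_lit 12]⟩,
 ⟨nat_lit 3872, nat_lit 4184, ⟨.ofNat (nat_lit 386087), .ofNat (nat_lit 432468), .ofNat (nat_lit 407749), .ofNat (nat_lit 454130), .ofNat (nat_lit 391148), .ofNat (nat_lit 436316), .ofNat (nat_lit 412937), .ofNat (nat_lit 458104)⟩, ⟨.ofNat (nat_lit 0), .ofNat (nat_lit 303743), .ofNat (nat_lit 0), .ofNat (nat_lit 347076), .ofNat (nat_lit 0), .ofNat (nat_lit 304717), .ofNat (nat_lit 0), .ofNat (nat_lit 348304)⟩⟩, [⟨nat_lit 0, nat_lit 100, nat_lit 80, nat_lit 89, nat_lit 560834977⟩, ⟨nat_lit 19, nat_lit 100, nat_lit 82, nat_lit 92, nat_lit 167991008⟩]⟩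
noncomputable def p085_l66 : Lf2 := ⟨nat_lit 0, nat_lit 10, [nat_lit 0, nat_lit 5, nat_lit 5, nat_lit 20], false, nat_lit 0, nat_lit 160, nat_lit 0, nat_lit 364, ⟨nat_lit 360, nat_lit 0, nat_lit 640, nat_lit 6, nat_lit 181, nat_lit 640, nat_lit 65, nat_lit 640, nat_lit 40017, nat_lit 264, nat_lit 40413, nat_lit 263, nat_lit 55577206, nat_lit 0, nat_lit 0, nat_lit 2283306, false, false⟩,
 nat_lit 0, nat_lit 5301, nat_lit 0, nat_lit 0, nat_lit 3975, nat_lit 3726, nat_lit 0, nat_lit 0, nat_lit 0, nat_lit 733, nat_lit 0, nat_lit 0, nat_lit 0, nat_lit 0, nat_lit 13, nat_lit 640000, nat_lit 0, nat_lit 0, [(nat_lit 18, [(nat_lit 6, nat_lit 640)])],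
 ⟨p085_k22, nat_lit 0, nat_lit 0, nat_lit 355, nat_lit 0, nat_lit 604446, [nat_lit 1513749334, nat_lit 1102250667, nat_lit 13488000], [], [nat_lit 18758311369, nat_lit 18579793325, nat_lit 18219369669, nat_lit 19216431600, nat_lit 17619239469, nat_lit 18115855819, nat_lit 18488269136, nat_lit 18626615994], nat_lit 1271250, nat_lit 1271250, nat_lit 780000, nat_lit 1100001, nat_lit 0, nat_lit 1100001, [nat_lit 490000, nat_lit 1100000, nat_lit 1442500], [nat_lit 6, nat_lit 40, nat_lit 40, nat_lit 80, nat_lit 3, nat_lit 317, nat_lit 100, nat_lit 12]⟩, ⟨p085_k23, nat_lit 0, nat_lit 0, nat_lit 202, nat_lit 0, nat_lit 0, [nat_lit 1687680000, nat_lit 2868480000, nat_lit 4273920000], [], [nat_lit 6738250940, nat_lit 7376399892, nat_lit 6782792904, nat_lit 7583028480, nat_lit 9980987847, nat_lit 10326410682, nat_lit 9788821949, nat_lit 10139149919], nat_lit 0, nat_lit 0, nat_lit 0, nat_lit 0, nat_lit 0, nat_lit 0, [], [nat_lit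 21, nat_lit 40, nat_lit 40, nat_lit 80, nat_lit 14, nat_lit 428, nat_lit 200, nat_lit 11]⟩,
 ⟨nat_lit 4183, nat_lit 4473, ⟨.ofNat (nat_lit 407167), .ofNat (nat_lit 475145), .ofNat (nat_lit 428729), .ofNat (nat_lit 496708), .ofNat (nat_lit 410812), .ofNat (nat_lit 477068), .ofNat (nat_lit 432475), .ofNat (nat_lit 498731)⟩, ⟨.ofNat (nat_lit 0), .ofNat (nat_lit 302621), .ofNat (nat_lit 0), .ofNat (nat_lit 345754), .ofNat (nat_lit 0), .ofNat (nat_lit 303743), .ofNat (nat_lit 0), .ofNat (nat_lit 347076)⟩⟩, [⟨nat_lit 19, nat_lit 100, nat_lit 72, nat_lit 89, nat_lit 124884693⟩]⟩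
noncomputable def p085_l67 : Lf2 := ⟨nat_lit 0, nat_lit 10, [nat_lit 0, nat_lit 5, nat_lit 5, nat_lit 20], false, nat_lit 0, nat_lit 160, nat_lit 0, nat_lit 352, ⟨nat_lit 437, nat_lit 0, nat_lit 563, nat_lit 6, nat_lit 190, nat_lit 563, nat_lit 65, nat_lit 563, nat_lit 40017, nat_lit 264, nat_lit 19328, nat_lit 248, nat_lit 54667385, nat_lit 0, nat_lit 0, nat_lit 2387536, false, false⟩,
 nat_lit 0, nat_lit 5923, nat_lit 0, nat_lit 0, nat_lit 4441, nat_lit 2778, nat_lit 0, nat_lit 0, nat_lit 0, nat_lit 1442, nat_lit 0, nat_lit 0, nat_lit 0, nat_lit 0, nat_lit 0, nat_lit 563000, nat_lit 0, nat_lit 0, [(nat_lit 18, [(nat_lit 6, nat_lit 563)])],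
 ⟨p085_k22, nat_lit 0, nat_lit 0, nat_lit 416, nat_lit 0, nat_lit 728851, [nat_lit 1484613867, nat_lit 1350686134, nat_lit 535099600], [], [nat_lit 18693130907, nat_lit 19300894307, nat_lit 18861059547, nat_lit 19886789376, nat_lit 17872127047, nat_lit 18343315128, nat_lit 18330572079, nat_lit 18791958599], nat_lit 1271250, nat_lit 1271250, nat_lit 780000, nat_lit 1100001, nat_lit 0, nat_lit 1100001, [nat_lit 490000, nat_lit 1100000, nat_lit 1442500], [nat_lit 6, nat_lit 40, nat_lit 40, nat_lit 80, nat_lit 3, nat_lit 317, nat_lit 100, nat_lit 12]⟩, ⟨p085_k32, nat_lit 0, nat_lit 0, nat_lit 158, nat_lit 0, nat_lit 0, [nat_lit 2048656000, nat_lit 3482016000, nat_lit 4300954000], [], [nat_lit 7833822972, nat_lit 8473469508, nat_lit 8138002224, nat_lit 8735142140, nat_lit 10722924920, nat_lit 11030066777, nat_lit 10716085695, nat_lit 11036253814], nat_lit 0, nat_lit 0, nat_lit 0, nat_lit 0, nat_lit 0, nat_lit 0, [], [nat_lit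 29, nat_lit 40, nat_lit 40, nat_lit 80, nat_lit 17, nat_lit 428, nat_lit 200, nat_lit 12]⟩,
 ⟨nat_lit 4183, nat_lit 4473, ⟨.ofNat (nat_lit 428729), .ofNat (nat_lit 496708), .ofNat (nat_lit 450291), .ofNat (nat_lit 518271), .ofNat (nat_lit 432475), .ofNat (nat_lit 498731), .ofNat (nat_lit 454137), .ofNat (nat_lit 520394)⟩, ⟨.ofNat (nat_lit 0), .ofNat (nat_lit 302621), .ofNat (nat_lit 0), .ofNat (nat_lit 345754), .ofNat (nat_lit 0), .ofNat (nat_lit 303743), .ofNat (nat_lit 0), .ofNat (nat_lit 347076)⟩⟩, [⟨nat_lit 19, nat_lit 100, nat_lit 82, nat_lit 92, nat_lit 131126954⟩]⟩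
noncomputable def p085_l68 : Lf2 := ⟨nat_lit 0, nat_lit 10, [nat_lit 0, nat_lit 5, nat_lit 5, nat_lit 20], false, nat_lit 0, nat_lit 160, nat_lit 0, nat_lit 364, ⟨nat_lit 913, nat_lit 0, nat_lit 87, nat_lit 6, nat_lit 187, nat_lit 87, nat_lit 65, nat_lit 87, nat_lit 40017, nat_lit 264, nat_lit 17067, nat_lit 247, nat_lit 55031610, nat_lit 0, nat_lit 0, nat_lit 2346567, false, false⟩,
 nat_lit 0, nat_lit 7531, nat_lit 0, nat_lit 0, nat_lit 5870, nat_lit 9125, nat_lit 1332, nat_lit 0, nat_lit 0, nat_lit 1047, nat_lit 0, nat_lit 0, nat_lit 0, nat_lit 0, nat_lit 0, nat_lit 87000, nat_lit 0, nat_lit 0, [(nat_lit 18, [(nat_lit 6, nat_lit 87)])],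
 ⟨p085_k24, nat_lit 0, nat_lit 0, nat_lit 420, nat_lit 0, nat_lit 733998, [nat_lit 1947412801, nat_lit 4172287200, nat_lit 5366880400], [], [nat_lit 21512167490, nat_lit 22226050135, nat_lit 21942457320, nat_lit 22612127300, nat_lit 17837958351, nat_lit 18107163186, nat_lit 18121192370, nat_lit 18393737875], nat_lit 1271250, nat_lit 1271250, nat_lit 780000, nat_lit 1100001, nat_lit 0, nat_lit 1100001, [nat_lit 490000, nat_lit 1100000, nat_lit 1442500], [nat_lit 6, nat_lit 40, nat_lit 40, nat_lit 80, nat_lit 3, nat_lit 317, nat_lit 100, nat_lit 12]⟩, ⟨p085_k23, nat_lit 0, nat_lit 0, nat_lit 212, nat_lit 0, nat_lit 0, [nat_lit 4280144000, nat_lit 7274784000, nat_lit 10839136000], [], [nat_lit 22412667788, nat_lit 25569274672, nat_lit 22464601576, nat_lit 25400496412, nat_lit 25944282043, nat_lit 27180522223, nat_lit 25213646022, nat_lit 26665228378], nat_lit 0, nat_lit 0, nat_lit 0, nat_lit 0, nat_lit 0, nat_lit 0,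 [], [nat_lit 21, nat_lit 40, nat_lit 40, nat_lit 80, nat_lit 14, nat_lit 456, nat_lit 225, nat_lit 12]⟩,
 ⟨nat_lit 4031, nat_lit 4184, ⟨.ofNat (nat_lit 410818), .ofNat (nat_lit 477074), .ofNat (nat_lit 454149), .ofNat (nat_lit 520406), .ofNat (nat_lit 412667), .ofNat (nat_lit 478058), .ofNat (nat_lit 456117), .ofNat (nat_lit 521509)⟩, ⟨.ofNat (nat_lit 0), .ofNat (nat_lit 303743), .ofNat (nat_lit 0), .ofNat (nat_lit 347076), .ofNat (nat_lit 0), .ofNat (nat_lit 304250), .ofNat (nat_lit 0), .ofNat (nat_lit 347702)⟩⟩, [⟨nat_lit 7, nat_lit 77, nat_lit 100, nat_lit 91, nat_lit 221192266⟩]⟩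
noncomputable def p085_l69 : Lf2 := ⟨nat_lit 0, nat_lit 10, [nat_lit 0, nat_lit 5, nat_lit 5, nat_lit 20], false, nat_lit 0, nat_lit 160, nat_lit 0, nat_lit 364, ⟨nat_lit 1000, nat_lit 0, nat_lit 0, nat_lit 0, nat_lit 0, nat_lit 0, nat_lit 0, nat_lit 0, nat_lit 0, nat_lit 0, nat_lit 0, nat_lit 0, nat_lit 0, nat_lit 0, nat_lit 0, nat_lit 0, false, false⟩,
 nat_lit 0, nat_lit 7304, nat_lit 0, nat_lit 0, nat_lit 5802, nat_lit 9992, nat_lit 1187, nat_lit 0, nat_lit 0, nat_lit 1160, nat_lit 0, nat_lit 0, nat_lit 0, nat_lit 0, nat_lit 0, nat_lit 0, nat_lit 0, nat_lit 0, [],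
 ⟨p085_k56, nat_lit 0, nat_lit 0, nat_lit 431, nat_lit 0, nat_lit 757584, [nat_lit 2032000001, nat_lit 4688000000, nat_lit 6250000000], [], [nat_lit 22115223021, nat_lit 22823503588, nat_lit 22509118180, nat_lit 23173599488, nat_lit 17861663610, nat_lit 18139400630, nat_lit 18193920310, nat_lit 18601453752], nat_lit 1271250, nat_lit 1271250, nat_lit 780000, nat_lit 1100001, nat_lit 0, nat_lit 1100001, [nat_lit 490000, nat_lit 1100000, nat_lit 1442500], [nat_lit 6, nat_lit 40, nat_lit 40, nat_lit 80, nat_lit 3, nat_lit 317, nat_lit 100, nat_lit 12]⟩, ⟨p085_k23, nat_lit 0, nat_lit 0, nat_lit 212, nat_lit 0, nat_lit 0, [nat_lit 4688000000, nat_lit 7968000000, nat_lit 11872000000], [], [nat_lit 24459555360, nat_lit 27916409024, nat_lit 24516671360, nat_lit 27731832992, nat_lit 28328922220, nat_lit 29769320869, nat_lit 27529063447, nat_lit 29204205620], nat_lit 0, nat_lit 0, nat_lit 0, nat_lit 0, nat_lit 0, nat_lit 0,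 [], [nat_lit 21, nat_lit 40, nat_lit 40, nat_lit 80, nat_lit 14, nat_lit 456, nat_lit 225, nat_lit 12]⟩,
 zbF0, [⟨nat_lit 7, nat_lit 77, nat_lit 100, nat_lit 91, nat_lit 243602138⟩]⟩
noncomputable def p085_l70 : Lf2 := ⟨nat_lit 0, nat_lit 10, [nat_lit 0, nat_lit 5, nat_lit 5, nat_lit 20], false, nat_lit 0, nat_lit 160, nat_lit 0, nat_lit 364, ⟨nat_lit 538, nat_lit 0, nat_lit 462, nat_lit 6, nat_lit 178, nat_lit 462, nat_lit 65, nat_lit 462, nat_lit 40017, nat_lit 264, nat_lit 15045, nat_lit 245, nat_lit 55939096, nat_lit 0, nat_lit 0, nat_lit 2240056, false, false⟩,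
 nat_lit 0, nat_lit 4921, nat_lit 0, nat_lit 0, nat_lit 3983, nat_lit 5700, nat_lit 322, nat_lit 0, nat_lit 0, nat_lit 712, nat_lit 0, nat_lit 0, nat_lit 0, nat_lit 0, nat_lit 0, nat_lit 462000, nat_lit 0, nat_lit 0, [(nat_lit 21, [(nat_lit 6, nat_lit 462)])],
 ⟨p085_k28, nat_lit 0, nat_lit 0, nat_lit 470, nat_lit 0, nat_lit 822642, [nat_lit 1443227201, nat_lit 1272896001, nat_lit 1413599200], [], [nat_lit 19899131645, nat_lit 21058672872, nat_lit 20279308552, nat_lit 21330677216, nat_lit 18869823814, nat_lit 19434071114, nat_lit 19778664103, nat_lit 20335287619], nat_lit 1271250, nat_lit 1271250, nat_lit 545600, nat_lit 1100001, nat_lit 0, nat_lit 1100001, [nat_lit 490000, nat_lit 1100000, nat_lit 1442500], [nat_lit 6, nat_lit 40, nat_lit 40, nat_lit 80, nat_lit 3, nat_lit 317, nat_lit 100, nat_lit 12]⟩, ⟨p085_k23, nat_lit 0, nat_lit 0, nat_lit 230, nat_lit 0, nat_lit 0, [nat_lit 2522144000, nat_lit 4286784000,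 nat_lit 6387136000], [], [nat_lit 13236174272, nat_lit 15249758648, nat_lit 12660170576, nat_lit 14453587112, nat_lit 15512868997, nat_lit 17120988149, nat_lit 14554280038, nat_lit 15963627148], nat_lit 0, nat_lit 0, nat_lit 0, nat_lit 0, nat_lit 0, nat_lit 0, [], [nat_lit 21, nat_lit 40, nat_lit 40, nat_lit 80, nat_lit 14, nat_lit 456, nat_lit 225, nat_lit 12]⟩,
 ⟨nat_lit 3535, nat_lit 3873, ⟨.ofNat (nat_lit 362897), .ofNat (nat_lit 479046), .ofNat (nat_lit 406471), .ofNat (nat_lit 522620), .ofNat (nat_lit 368144), .ofNat (nat_lit 481125), .ofNat (nat_lit 412037), .ofNat (nat_lit 525018)⟩, ⟨.ofNat (nat_lit 0), .ofNat (nat_lit 304717), .ofNat (nat_lit 0), .ofNat (nat_lit 348304), .ofNat (nat_lit 0), .ofNat (nat_lit 305521), .ofNat (nat_lit 0), .ofNat (nat_lit 349427)⟩⟩, [⟨nat_lit 0, nat_lit 100, nat_lit 72, nat_lit 94, nat_lit 453179369⟩, ⟨nat_lit 19, nat_lit 100, nat_lit 77, nat_lit 91, nat_lit 138788829⟩]⟩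
noncomputable def p085_l71 : Lf2 := ⟨nat_lit 0, nat_lit 10, [nat_lit 0, nat_lit 5, nat_lit 5, nat_lit 20], false, nat_lit 4, nat_lit 160, nat_lit 0, nat_lit 364, ⟨nat_lit 628, nat_lit 0, nat_lit 372, nat_lit 6, nat_lit 183, nat_lit 372, nat_lit 68, nat_lit 372, nat_lit 43350, nat_lit 266, nat_lit 18222, nat_lit 245, nat_lit 52884548, nat_lit 0, nat_lit 0, nat_lit 3219479, false, false⟩,
 nat_lit 0, nat_lit 5021, nat_lit 0, nat_lit 0, nat_lit 4217, nat_lit 6688, nat_lit 335, nat_lit 0, nat_lit 0, nat_lit 797, nat_lit 0, nat_lit 0, nat_lit 0, nat_lit 0, nat_lit 0, nat_lit 372000, nat_lit 0, nat_lit 0, [(nat_lit 21, [(nat_lit 6, nat_lit 372)])],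
 ⟨p085_k57, nat_lit 0, nat_lit 0, nat_lit 403, nat_lit 0, nat_lit 823347, [nat_lit 1557923200, nat_lit 1863300800], [], [nat_lit 21273530583, nat_lit 21863649182, nat_lit 21579994610, nat_lit 22122118660, nat_lit 19394977398, nat_lit 19705412769, nat_lit 20168501988, nat_lit 20454635430], nat_lit 1271250, nat_lit 1271250, nat_lit 631250, nat_lit 1100001, nat_lit 21650, nat_lit 1100001, [nat_lit 490000, nat_lit 1100000], [nat_lit 24, nat_lit 40, nat_lit 40, nat_lit 80, nat_lit 33, nat_lit 317, nat_lit 100, nat_lit 15]⟩, ⟨p085_k23, nat_lit 0, nat_lit 0, nat_lit 224, nat_lit 0, nat_lit 0, [nat_lit 2944064000, nat_lit 5003904000, nat_lit 7455616000], [], [nat_lit 15437942244, nat_lit 17759560732, nat_lit 15011234796, nat_lit 17111431260, nat_lit 17813074978, nat_lit 19668171159, nat_lit 16979239881, nat_lit 18660880995], nat_lit 0, nat_lit 0, nat_lit 0, nat_lit 0, nat_lit 0, nat_lit 0, [], [nat_lit 21, nat_lit 40, nat_lit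 40, nat_lit 80, nat_lit 14, nat_lit 456, nat_lit 225, nat_lit 12]⟩,
 ⟨nat_lit 3354, nat_lit 3536, ⟨.ofNat (nat_lit 386991), .ofNat (nat_lit 481137), .ofNat (nat_lit 430893), .ofNat (nat_lit 525039), .ofNat (nat_lit 389422), .ofNat (nat_lit 482223), .ofNat (nat_lit 433514), .ofNat (nat_lit 526315)⟩, ⟨.ofNat (nat_lit 10000), .ofNat (nat_lit 305521), .ofNat (nat_lit 10000), .ofNat (nat_lit 349427), .ofNat (nat_lit 10000), .ofNat (nat_lit 305848), .ofNat (nat_lit 10000), .ofNat (nat_lit 349943)⟩⟩, [⟨nat_lit 0, nat_lit 100, nat_lit 68, nat_lit 89, nat_lit 543036431⟩, ⟨nat_lit 19, nat_lit 100, nat_lit 77, nat_lit 91, nat_lit 165145347⟩]⟩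
noncomputable def p085_l72 : Lf2 := ⟨nat_lit 0, nat_lit 10, [nat_lit 0, nat_lit 5, nat_lit 5, nat_lit 20], false, nat_lit 4, nat_lit 160, nat_lit 0, nat_lit 364, ⟨nat_lit 827, nat_lit 0, nat_lit 173, nat_lit 6, nat_lit 185, nat_lit 173, nat_lit 68, nat_lit 173, nat_lit 43350, nat_lit 266, nat_lit 16226, nat_lit 244, nat_lit 52684232, nat_lit 0, nat_lit 0, nat_lit 3243301, false, false⟩,
 nat_lit 0, nat_lit 5624, nat_lit 0, nat_lit 0, nat_lit 4810, nat_lit 8813, nat_lit 498, nat_lit 0, nat_lit 0, nat_lit 1045, nat_lit 0, nat_lit 0, nat_lit 0, nat_lit 0, nat_lit 0, nat_lit 173000, nat_lit 0, nat_lit 0, [(nat_lit 21, [(nat_lit 6, nat_lit 173)])],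
 ⟨p085_k58, nat_lit 0, nat_lit 0, nat_lit 410, nat_lit 0, nat_lit 843671, [nat_lit 1811528801, nat_lit 3362404800], [], [nat_lit 23026743431, nat_lit 23663943400, nat_lit 23170277204, nat_lit 23757515300, nat_lit 20036656718, nat_lit 20312441857, nat_lit 20567339878, nat_lit 20851384728], nat_lit 1271250, nat_lit 1271250, nat_lit 660400, nat_lit 1100001, nat_lit 21650, nat_lit 1100001, [nat_lit 490000, nat_lit 1100000], [nat_lit 24, nat_lit 40, nat_lit 40, nat_lit 80, nat_lit 33, nat_lit 317, nat_lit 100, nat_lit 14]⟩, ⟨p085_k23, nat_lit 0, nat_lit 0, nat_lit 221, nat_lit 0, nat_lit 0, [nat_lit 3876976000, nat_lit 6589536000, nat_lit 9818144000], [], [nat_lit 20250457409, nat_lit 23292909740, nat_lit 19799296944, nat_lit 22566123036, nat_lit 23328529548, nat_lit 25750318642, nat_lit 22363236430, nat_lit 24578557370], nat_lit 0, nat_lit 0, nat_lit 0, nat_lit 0, nat_lit 0, nat_lit 0, [], [nat_lit 21, nat_lit 40, nat_lit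 40, nat_lit 80, nat_lit 14, nat_lit 456, nat_lit 225, nat_lit 12]⟩,
 ⟨nat_lit 3162, nat_lit 3355, ⟨.ofNat (nat_lit 395606), .ofNat (nat_lit 482222), .ofNat (nat_lit 439697), .ofNat (nat_lit 526313), .ofNat (nat_lit 398010), .ofNat (nat_lit 483348), .ofNat (nat_lit 442315), .ofNat (nat_lit 527654)⟩, ⟨.ofNat (nat_lit 10000), .ofNat (nat_lit 305848), .ofNat (nat_lit 10000), .ofNat (nat_lit 349943), .ofNat (nat_lit 10000), .ofNat (nat_lit 306116), .ofNat (nat_lit 10000), .ofNat (nat_lit 350426)⟩⟩, [⟨nat_lit 0, nat_lit 100, nat_lit 64, nat_lit 90, nat_lit 780889169⟩, ⟨nat_lit 7, nat_lit 77, nat_lit 100, nat_lit 91, nat_lit 217059663⟩]⟩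
noncomputable def p085_l73 : Lf2 := ⟨nat_lit 0, nat_lit 10, [nat_lit 0, nat_lit 5, nat_lit 5, nat_lit 20], false, nat_lit 0, nat_lit 160, nat_lit 0, nat_lit 364, ⟨nat_lit 620, nat_lit 0, nat_lit 380, nat_lit 6, nat_lit 226, nat_lit 380, nat_lit 65, nat_lit 380, nat_lit 40017, nat_lit 264, nat_lit 37206, nat_lit 200, nat_lit 50794469, nat_lit 0, nat_lit 0, nat_lit 2766148, false, false⟩,
 nat_lit 0, nat_lit 7115, nat_lit 0, nat_lit 0, nat_lit 5336, nat_lit 6158, nat_lit 151, nat_lit 0, nat_lit 0, nat_lit 1123, nat_lit 0, nat_lit 0, nat_lit 0, nat_lit 0, nat_lit 0, nat_lit 380000, nat_lit 0, nat_lit 0, [(nat_lit 18, [(nat_lit 6, nat_lit 380)])],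
 ⟨p085_k22, nat_lit 0, nat_lit 0, nat_lit 406, nat_lit 0, nat_lit 728851, [nat_lit 1662538667, nat_lit 2435461334, nat_lit 2392696000], [], [nat_lit 22691326156, nat_lit 21342424044, nat_lit 23432117280, nat_lit 24495881832, nat_lit 19147246755, nat_lit 19631773859, nat_lit 20755368226, nat_lit 21180091896], nat_lit 1271250, nat_lit 1271250, nat_lit 1100001, nat_lit 1785000, nat_lit 0, nat_lit 1100001, [nat_lit 490000, nat_lit 1100000, nat_lit 1442500], [nat_lit 6, nat_lit 40, nat_lit 40, nat_lit 80, nat_lit 3, nat_lit 317, nat_lit 100, nat_lit 12]⟩, ⟨p085_k23, nat_lit 0, nat_lit 0, nat_lit 200, nat_lit 0, nat_lit 0, [nat_lit 2906560000, nat_lit 4940160000, nat_lit 7360640000], [], [nat_lit 12503626380, nat_lit 14489755788, nat_lit 14687737320, nat_lit 16866985504, nat_lit 17005176427, nat_lit 18082537075, nat_lit 17728735412, nat_lit 19016324626], nat_lit 0, nat_lit 0, nat_lit 0, nat_lit 0, nat_lit 0, nat_lit 0,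 [], [nat_lit 21, nat_lit 40, nat_lit 40, nat_lit 80, nat_lit 14, nat_lit 456, nat_lit 225, nat_lit 12]⟩,
 ⟨nat_lit 4183, nat_lit 4473, ⟨.ofNat (nat_lit 475145), .ofNat (nat_lit 611104), .ofNat (nat_lit 518271), .ofNat (nat_lit 654228), .ofNat (nat_lit 477068), .ofNat (nat_lit 609582), .ofNat (nat_lit 520394), .ofNat (nat_lit 652907)⟩, ⟨.ofNat (nat_lit 0), .ofNat (nat_lit 302621), .ofNat (nat_lit 0), .ofNat (nat_lit 345754), .ofNat (nat_lit 0), .ofNat (nat_lit 303743), .ofNat (nat_lit 0), .ofNat (nat_lit 347076)⟩⟩, [⟨nat_lit 7, nat_lit 77, nat_lit 100, nat_lit 91, nat_lit 187887529⟩]⟩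
noncomputable def p085_l74 : Lf2 := ⟨nat_lit 0, nat_lit 10, [nat_lit 0, nat_lit 5, nat_lit 5, nat_lit 20], false, nat_lit 0, nat_lit 160, nat_lit 0, nat_lit 364, ⟨nat_lit 1000, nat_lit 0, nat_lit 0, nat_lit 0, nat_lit 0, nat_lit 0, nat_lit 0, nat_lit 0, nat_lit 0, nat_lit 0, nat_lit 0, nat_lit 0, nat_lit 0, nat_lit 0, nat_lit 0, nat_lit 0, false, false⟩,
 nat_lit 0, nat_lit 7885, nat_lit 0, nat_lit 0, nat_lit 6146, nat_lit 9938, nat_lit 1480, nat_lit 0, nat_lit 0, nat_lit 1103, nat_lit 0, nat_lit 0, nat_lit 0, nat_lit 0, nat_lit 0, nat_lit 0, nat_lit 0, nat_lit 0, [],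
 ⟨p085_k24, nat_lit 0, nat_lit 0, nat_lit 428, nat_lit 0, nat_lit 777478, [nat_lit 2032000001, nat_lit 4688000000, nat_lit 6250000000], [], [nat_lit 22339493256, nat_lit 23720953024, nat_lit 25791830802, nat_lit 26955595524, nat_lit 18506620712, nat_lit 19039431964, nat_lit 20694257400, nat_lit 21679086120], nat_lit 1271250, nat_lit 1271250, nat_lit 1100001, nat_lit 1785000, nat_lit 0, nat_lit 1100001, [nat_lit 490000, nat_lit 1100000, nat_lit 1442500], [nat_lit 6, nat_lit 40, nat_lit 40, nat_lit 80, nat_lit 3, nat_lit 317, nat_lit 100, nat_lit 12]⟩, ⟨p085_k23, nat_lit 0, nat_lit 0, nat_lit 200, nat_lit 0, nat_lit 0, [nat_lit 4688000000, nat_lit 7968000000, nat_lit 11872000000], [], [nat_lit 24887114540, nat_lit 28091676188, nat_lit 27872737068, nat_lit 30470556164, nat_lit 27929261210, nat_lit 29162542687, nat_lit 28598358112, nat_lit 30675675270], nat_lit 0, nat_lit 0, nat_lit 0, nat_lit 0, nat_lit 0, nat_lit 0,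 [], [nat_lit 21, nat_lit 40, nat_lit 40, nat_lit 80, nat_lit 14, nat_lit 456, nat_lit 225, nat_lit 12]⟩,
 zbF0, [⟨nat_lit 7, nat_lit 77, nat_lit 100, nat_lit 91, nat_lit 231784922⟩]⟩
noncomputable def p085_l75 : Lf2 := ⟨nat_lit 0, nat_lit 10, [nat_lit 0, nat_lit 5, nat_lit 5, nat_lit 20], false, nat_lit 0, nat_lit 160, nat_lit 0, nat_lit 364, ⟨nat_lit 1000, nat_lit 0, nat_lit 0, nat_lit 0, nat_lit 0, nat_lit 0, nat_lit 0, nat_lit 0, nat_lit 0, nat_lit 0, nat_lit 0, nat_lit 0, nat_lit 0, nat_lit 0, nat_lit 0, nat_lit 0, false, false⟩,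
 nat_lit 0, nat_lit 6727, nat_lit 0, nat_lit 0, nat_lit 5445, nat_lit 9938, nat_lit 1035, nat_lit 0, nat_lit 0, nat_lit 1103, nat_lit 0, nat_lit 0, nat_lit 0, nat_lit 0, nat_lit 0, nat_lit 0, nat_lit 0, nat_lit 0, [],
 ⟨p085_k28, nat_lit 0, nat_lit 0, nat_lit 483, nat_lit 0, nat_lit 908859, [nat_lit 2032000001, nat_lit 4688000000, nat_lit 6250000000], [], [nat_lit 22605561080, nat_lit 25154524200, nat_lit 25747496330, nat_lit 27901939060, nat_lit 19688462166, nat_lit 20664086476, nat_lit 21416757900, nat_lit 23245065700], nat_lit 1271250, nat_lit 1271250, nat_lit 1100001, nat_lit 1785000, nat_lit 0, nat_lit 1100001, [nat_lit 490000, nat_lit 1100000, nat_lit 1442500], [nat_lit 6, nat_lit 40, nat_lit 40, nat_lit 80, nat_lit 3, nat_lit 317, nat_lit 100, nat_lit 12]⟩, ⟨p085_k23, nat_lit 0, nat_lit 0, nat_lit 200, nat_lit 0, nat_lit 0, [nat_lit 4688000000, nat_lit 7968000000, nat_lit 11872000000], [], [nat_lit 24887114540,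 nat_lit 28091676188, nat_lit 27872737068, nat_lit 30470556164, nat_lit 27929261210, nat_lit 29162542687, nat_lit 28598358112, nat_lit 30675675270], nat_lit 0, nat_lit 0, nat_lit 0, nat_lit 0, nat_lit 0, nat_lit 0, [], [nat_lit 21, nat_lit 40, nat_lit 40, nat_lit 80, nat_lit 14, nat_lit 456, nat_lit 225, nat_lit 12]⟩,
 zbF0, [⟨nat_lit 7, nat_lit 77, nat_lit 100, nat_lit 91, nat_lit 231784922⟩]⟩
noncomputable def b_V_800_600_20_14 : St := ⟨true, nat_lit 1, nat_lit 0, nat_lit 1, nat_lit 120, nat_lit 320, nat_lit 360, nat_lit 240, nat_lit 280, nat_lit 64, nat_lit 240, nat_lit 80, nat_lit 120, nat_lit 0, nat_lit 160, nat_lit 0, nat_lit 364, nat_lit 0, nat_lit 40, nat_lit 0, nat_lit 0, nat_lit 0, nat_lit 0⟩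
theorem d_V_800_600_20_14 (h : EB TB.env) : Dead b_V_800_600_20_14 := chkB_sound0 h (T :=
(.spl (nat_lit 2) (nat_lit 160)
(.spl (nat_lit 0) (nat_lit 340)
(.spl (nat_lit 2) (nat_lit 120)
(.spl (nat_lit 1) (nat_lit 260)
(.spl (nat_lit 0) (nat_lit 330)
(.spl (nat_lit 0) (nat_lit 325)
(.leaf p085_l61)
(.trZ (nat_lit 0) (nat_lit 100) (nat_lit 80) (nat_lit 78) (nat_lit 72) (.leaf p085_l62)))
(.trZ (nat_lit 0) (nat_lit 100) (nat_lit 78) (nat_lit 81) (nat_lit 76) (.leaf p085_l63)))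
(.trZ (nat_lit 0) (nat_lit 100) (nat_lit 84) (nat_lit 85) (nat_lit 80) (.trX (nat_lit 19) (nat_lit 100) (nat_lit 69) (nat_lit 96) (nat_lit 352) (.spl (nat_lit 0) (nat_lit 330)
(.leaf p085_l64)
(.trZ (nat_lit 0) (nat_lit 100) (nat_lit 80) (nat_lit 89) (nat_lit 92) (.leaf p085_l65))))))
(.spl (nat_lit 0) (nat_lit 330)
(.spl (nat_lit 1) (nat_lit 260)
(.leaf p085_l66)
(.trX (nat_lit 19) (nat_lit 100) (nat_lit 69) (nat_lit 96) (nat_lit 352) (.leaf p085_l67)))
(.spl (nat_lit 0) (nat_lit 335)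
(.leaf p085_l68)
(.leaf p085_l69))))
(.trZ (nat_lit 0) (nat_lit 100) (nat_lit 73) (nat_lit 85) (nat_lit 88) (.spl (nat_lit 0) (nat_lit 350)
(.leaf p085_l70)
(.trZ (nat_lit 0) (nat_lit 100) (nat_lit 68) (nat_lit 89) (nat_lit 100) (.trZ (nat_lit 3) (nat_lit 100) (nat_lit 83) (nat_lit 25) (nat_lit 4) (.spl (nat_lit 0) (nat_lit 355)
(.leaf p085_l71)
(.trZ (nat_lit 0) (nat_lit 100) (nat_lit 64) (nat_lit 90) (nat_lit 104) (.leaf p085_l72))))))))
(.spl (nat_lit 0) (nat_lit 340)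
(.spl (nat_lit 0) (nat_lit 330)
(.leaf p085_l73)
(.leaf p085_l74))
(.leaf p085_l75)))) (by decide +kernel)
noncomputable def p085_l76 : Lf2 := ⟨nat_lit 0, nat_lit 5, [nat_lit 4, nat_lit 5, nat_lit 5, nat_lit 20], true, nat_lit 160, nat_lit 240, nat_lit 0, nat_lit 364, ⟨nat_lit 0, nat_lit 0, nat_lit 1000, nat_lit 6, nat_lit 149, nat_lit 1000, nat_lit 157, nat_lit 1000, nat_lit 67907, nat_lit 278, nat_lit 205350, nat_lit 326, nat_lit 49689618, nat_lit 0, nat_lit 0, nat_lit 4017085, false, false⟩,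
 nat_lit 0, nat_lit 3860, nat_lit 0, nat_lit 0, nat_lit 2894, nat_lit 0, nat_lit 0, nat_lit 0, nat_lit 0, nat_lit 0, nat_lit 0, nat_lit 0, nat_lit 0, nat_lit 0, nat_lit 196, nat_lit 1000000, nat_lit 0, nat_lit 0, [(nat_lit 18, [(nat_lit 6, nat_lit 1000)])],
 ⟨p085_k0, nat_lit 0, nat_lit 0, nat_lit 247, nat_lit 0, nat_lit 541440, [nat_lit 2430000000, nat_lit 2647466667, nat_lit 354133333], [], [nat_lit 15654787384, nat_lit 15987069529, nat_lit 16275826808, nat_lit 16587750259, nat_lit 18364776037, nat_lit 18655222884, nat_lit 18843671800, nat_lit 19117097606], nat_lit 1271250, nat_lit 1271250, nat_lit 382400, nat_lit 780000, nat_lit 1100001, nat_lit 1785000, [nat_lit 490000, nat_lit 780000, nat_lit 1435000], [nat_lit 85, nat_lit 40, nat_lit 40, nat_lit 80, nat_lit 16, nat_lit 317, nat_lit 100, nat_lit 11]⟩, C1.Rw.none,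
 ⟨nat_lit 4330, nat_lit 4473, ⟨.ofNat (nat_lit 312004), .ofNat (nat_lit 407174), .ofNat (nat_lit 333570), .ofNat (nat_lit 428739), .ofNat (nat_lit 315024), .ofNat (nat_lit 408989), .ofNat (nat_lit 336637), .ofNat (nat_lit 430602)⟩, ⟨.ofNat (nat_lit 302621), .ofNat (nat_lit 438578), .ofNat (nat_lit 345754), .ofNat (nat_lit 481711), .ofNat (nat_lit 303199), .ofNat (nat_lit 437434), .ofNat (nat_lit 346426), .ofNat (nat_lit 480662)⟩⟩, [⟨nat_lit 0, nat_lit 100, nat_lit 82, nat_lit 87, nat_lit 57416566⟩]⟩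
noncomputable def p085_l77 : Lf2 := ⟨nat_lit 0, nat_lit 5, [nat_lit 4, nat_lit 5, nat_lit 5, nat_lit 20], false, nat_lit 160, nat_lit 240, nat_lit 0, nat_lit 364, ⟨nat_lit 281, nat_lit 0, nat_lit 719, nat_lit 6, nat_lit 152, nat_lit 719, nat_lit 157, nat_lit 719, nat_lit 69797, nat_lit 279, nat_lit 216600, nat_lit 329, nat_lit 49409707, nat_lit 0, nat_lit 0, nat_lit 4058083, false, false⟩,
 nat_lit 0, nat_lit 4361, nat_lit 0, nat_lit 0, nat_lit 3334, nat_lit 2185, nat_lit 59, nat_lit 0, nat_lit 0, nat_lit 838, nat_lit 0, nat_lit 0, nat_lit 0, nat_lit 0, nat_lit 0, nat_lit 719000, nat_lit 0, nat_lit 0, [(nat_lit 18, [(nat_lit 6, nat_lit 719)])],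
 ⟨p085_k2, nat_lit 0, nat_lit 0, nat_lit 218, nat_lit 0, nat_lit 571240, [nat_lit 1190770001, nat_lit 857532000, nat_lit 287402200], [], [nat_lit 16640498270, nat_lit 16929383904, nat_lit 17040103541, nat_lit 17313618569, nat_lit 18961093773, nat_lit 19248748170, nat_lit 19306288415, nat_lit 19591874536], nat_lit 1271250, nat_lit 1271250, nat_lit 435600, nat_lit 780000, nat_lit 1100001, nat_lit 1785000, [nat_lit 490000, nat_lit 780000, nat_lit 1100000], [nat_lit 78, nat_lit 40, nat_lit 40, nat_lit 80, nat_lit 22, nat_lit 238, nat_lit 30, nat_lit 10]⟩, ⟨p085_k1, nat_lit 0, nat_lit 0, nat_lit 167, nat_lit 0, nat_lit 0, [nat_lit 1317328000, nat_lit 1756250000, nat_lit 2765602000], [], [nat_lit 4618221519, nat_lit 5135376740, nat_lit 4373763888, nat_lit 4860535554, nat_lit 7610652516, nat_lit 7894087024, nat_lit 7274022659, nat_lit 7540921656], nat_lit 0, nat_lit 0, nat_lit 0, nat_lit 0, nat_lit 0, nat_lit 0, [], [nat_lit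 11, nat_lit 40, nat_lit 40, nat_lit 80, nat_lit 1, nat_lit 428, nat_lit 200, nat_lit 13]⟩,
 ⟨nat_lit 4183, nat_lit 4331, ⟨.ofNat (nat_lit 328447), .ofNat (nat_lit 408988), .ofNat (nat_lit 350060), .ofNat (nat_lit 430601), .ofNat (nat_lit 331312), .ofNat (nat_lit 410819), .ofNat (nat_lit 352977), .ofNat (nat_lit 432485)⟩, ⟨.ofNat (nat_lit 303199), .ofNat (nat_lit 437434), .ofNat (nat_lit 346426), .ofNat (nat_lit 480662), .ofNat (nat_lit 303743), .ofNat (nat_lit 436254), .ofNat (nat_lit 347076), .ofNat (nat_lit 479587)⟩⟩, [⟨nat_lit 0, nat_lit 100, nat_lit 80, nat_lit 89, nat_lit 283249158⟩, ⟨nat_lit 7, nat_lit 72, nat_lit 100, nat_lit 89, nat_lit 103302872⟩]⟩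
noncomputable def p085_l78 : Lf2 := ⟨nat_lit 0, nat_lit 5, [nat_lit 4, nat_lit 5, nat_lit 5, nat_lit 20], true, nat_lit 160, nat_lit 240, nat_lit 0, nat_lit 364, ⟨nat_lit 0, nat_lit 0, nat_lit 1000, nat_lit 6, nat_lit 153, nat_lit 1000, nat_lit 157, nat_lit 1000, nat_lit 71594, nat_lit 280, nat_lit 220417, nat_lit 330, nat_lit 49379125, nat_lit 0, nat_lit 0, nat_lit 4062552, false, false⟩,
 nat_lit 0, nat_lit 3840, nat_lit 0, nat_lit 0, nat_lit 2993, nat_lit 0, nat_lit 0, nat_lit 0, nat_lit 0, nat_lit 0, nat_lit 0, nat_lit 0, nat_lit 0, nat_lit 0, nat_lit 103, nat_lit 1000000, nat_lit 0, nat_lit 0, [(nat_lit 18, [(nat_lit 6, nat_lit 1000)])],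
 ⟨p085_k3, nat_lit 0, nat_lit 0, nat_lit 241, nat_lit 0, nat_lit 595400, [nat_lit 1686000000, nat_lit 1146000000, nat_lit 230800000], [], [nat_lit 16679137297, nat_lit 17302281042, nat_lit 17212496488, nat_lit 17804545296, nat_lit 19177398024, nat_lit 19723681049, nat_lit 19598308741, nat_lit 20118467370], nat_lit 1271250, nat_lit 1271250, nat_lit 462650, nat_lit 780000, nat_lit 1100001, nat_lit 1785000, [nat_lit 490000, nat_lit 780000, nat_lit 1100000], [nat_lit 78, nat_lit 40, nat_lit 40, nat_lit 80, nat_lit 22, nat_lit 238, nat_lit 30, nat_lit 10]⟩, C1.Rw.none,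
 ⟨nat_lit 3872, nat_lit 4184, ⟨.ofNat (nat_lit 337921), .ofNat (nat_lit 410806), .ofNat (nat_lit 348752), .ofNat (nat_lit 421637), .ofNat (nat_lit 343550), .ofNat (nat_lit 414527), .ofNat (nat_lit 354444), .ofNat (nat_lit 425422)⟩, ⟨.ofNat (nat_lit 303743), .ofNat (nat_lit 436254), .ofNat (nat_lit 347076), .ofNat (nat_lit 479587), .ofNat (nat_lit 304717), .ofNat (nat_lit 433760), .ofNat (nat_lit 348304), .ofNat (nat_lit 477347)⟩⟩, [⟨nat_lit 0, nat_lit 100, nat_lit 74, nat_lit 88, nat_lit 47105326⟩, ⟨nat_lit 4, nat_lit 100, nat_lit 77, nat_lit 91, nat_lit 193946033⟩]⟩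
noncomputable def p085_l79 : Lf2 := ⟨nat_lit 0, nat_lit 5, [nat_lit 4, nat_lit 5, nat_lit 5, nat_lit 20], false, nat_lit 160, nat_lit 240, nat_lit 0, nat_lit 360, ⟨nat_lit 855, nat_lit 0, nat_lit 145, nat_lit 6, nat_lit 160, nat_lit 145, nat_lit 157, nat_lit 145, nat_lit 71594, nat_lit 280, nat_lit 240000, nat_lit 335, nat_lit 48824275, nat_lit 0, nat_lit 0, nat_lit 4140362, false, false⟩,
 nat_lit 0, nat_lit 5655, nat_lit 0, nat_lit 0, nat_lit 4408, nat_lit 5332, nat_lit 1799, nat_lit 0, nat_lit 0, nat_lit 0, nat_lit 0, nat_lit 0, nat_lit 0, nat_lit 0, nat_lit 0, nat_lit 145000, nat_lit 0, nat_lit 0, [(nat_lit 18, [(nat_lit 6, nat_lit 145)])],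
 ⟨p085_k3, nat_lit 0, nat_lit 0, nat_lit 253, nat_lit 0, nat_lit 643847, [nat_lit 1862350001, nat_lit 2793060001, nat_lit 3771136000], [], [nat_lit 17656098457, nat_lit 18334564286, nat_lit 17935386831, nat_lit 18583788743, nat_lit 20077426624, nat_lit 20669810607, nat_lit 20246453751, nat_lit 20827837798], nat_lit 1271250, nat_lit 1271250, nat_lit 517650, nat_lit 780000, nat_lit 1100001, nat_lit 1785000, [nat_lit 490000, nat_lit 780000, nat_lit 1100000], [nat_lit 78, nat_lit 40, nat_lit 40, nat_lit 80, nat_lit 22, nat_lit 238, nat_lit 30, nat_lit 10]⟩, ⟨p085_k20, nat_lit 0, nat_lit 0, nat_lit 81, nat_lit 0, nat_lit 0, [nat_lit 4008240000, nat_lit 5343750000, nat_lit 6812640000], [], [nat_lit 10700736825, nat_lit 11633857392, nat_lit 10801748075, nat_lit 11692941234, nat_lit 21243820398, nat_lit 21739890967, nat_lit 20870912420, nat_lit 21281003536], nat_lit 0, nat_lit 0, nat_lit 0, nat_lit 0, nat_lit 0, nat_lit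 0, [], [nat_lit 9, nat_lit 40, nat_lit 40, nat_lit 80, nat_lit 2, nat_lit 345, nat_lit 125, nat_lit 12]⟩,
 ⟨nat_lit 3872, nat_lit 4184, ⟨.ofNat (nat_lit 362004), .ofNat (nat_lit 421637), .ofNat (nat_lit 372835), .ofNat (nat_lit 432468), .ofNat (nat_lit 367350), .ofNat (nat_lit 425422), .ofNat (nat_lit 378243), .ofNat (nat_lit 436316)⟩, ⟨.ofNat (nat_lit 303743), .ofNat (nat_lit 436254), .ofNat (nat_lit 347076), .ofNat (nat_lit 479587), .ofNat (nat_lit 304717), .ofNat (nat_lit 433760), .ofNat (nat_lit 348304), .ofNat (nat_lit 477347)⟩⟩, [⟨nat_lit 0, nat_lit 100, nat_lit 77, nat_lit 89, nat_lit 646641653⟩, ⟨nat_lit 19, nat_lit 100, nat_lit 64, nat_lit 95, nat_lit 254105056⟩, ⟨nat_lit 11, nat_lit 50, nat_lit 100, nat_lit 87, nat_lit 75323540⟩]⟩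
noncomputable def p085_l80 : Lf2 := ⟨nat_lit 0, nat_lit 5, [nat_lit 4, nat_lit 5, nat_lit 5, nat_lit 20], false, nat_lit 160, nat_lit 240, nat_lit 0, nat_lit 364, ⟨nat_lit 728, nat_lit 0, nat_lit 272, nat_lit 6, nat_lit 181, nat_lit 272, nat_lit 157, nat_lit 272, nat_lit 67907, nat_lit 278, nat_lit 40413, nat_lit 263, nat_lit 47062776, nat_lit 0, nat_lit 0, nat_lit 4363167, false, false⟩,
 nat_lit 0, nat_lit 6704, nat_lit 0, nat_lit 0, nat_lit 5028, nat_lit 5850, nat_lit 630, nat_lit 0, nat_lit 0, nat_lit 1594, nat_lit 0, nat_lit 0, nat_lit 0, nat_lit 0, nat_lit 0, nat_lit 272000, nat_lit 0, nat_lit 0, [(nat_lit 18, [(nat_lit 6, nat_lit 272)])],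
 ⟨p085_k0, nat_lit 0, nat_lit 0, nat_lit 243, nat_lit 0, nat_lit 586563, [nat_lit 1713760001, nat_lit 2469662934, nat_lit 3498252089], [], [nat_lit 17138874182, nat_lit 17765059310, nat_lit 17664115942, nat_lit 18254755814, nat_lit 19312688051, nat_lit 19927956471, nat_lit 19803087971, nat_lit 20394849274], nat_lit 1271250, nat_lit 1271250, nat_lit 780000, nat_lit 1100001, nat_lit 1100001, nat_lit 1785000, [nat_lit 490000, nat_lit 780000, nat_lit 1435000], [nat_lit 85, nat_lit 40, nat_lit 40, nat_lit 80, nat_lit 16, nat_lit 317, nat_lit 100, nat_lit 11]⟩, ⟨p085_k1, nat_lit 0, nat_lit 0, nat_lit 142, nat_lit 0, nat_lit 0, [nat_lit 3412864000, nat_lit 4550000000, nat_lit 7164976000], [], [nat_lit 13140298852, nat_lit 14430070920, nat_lit 13535525996, nat_lit 14738023656, nat_lit 18757514735, nat_lit 19458883364, nat_lit 18666481600, nat_lit 19318680969], nat_lit 0, nat_lit 0, nat_lit 0, nat_lit 0, nat_lit 0, nat_lit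 0, [], [nat_lit 11, nat_lit 40, nat_lit 40, nat_lit 80, nat_lit 1, nat_lit 428, nat_lit 200, nat_lit 12]⟩,
 ⟨nat_lit 4183, nat_lit 4473, ⟨.ofNat (nat_lit 407167), .ofNat (nat_lit 475145), .ofNat (nat_lit 428729), .ofNat (nat_lit 496708), .ofNat (nat_lit 410812), .ofNat (nat_lit 477068), .ofNat (nat_lit 432475), .ofNat (nat_lit 498731)⟩, ⟨.ofNat (nat_lit 302621), .ofNat (nat_lit 438578), .ofNat (nat_lit 345754), .ofNat (nat_lit 481711), .ofNat (nat_lit 303743), .ofNat (nat_lit 436254), .ofNat (nat_lit 347076), .ofNat (nat_lit 479587)⟩⟩, [⟨nat_lit 19, nat_lit 100, nat_lit 72, nat_lit 89, nat_lit 238145092⟩]⟩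
noncomputable def p085_l81 : Lf2 := ⟨nat_lit 0, nat_lit 5, [nat_lit 4, nat_lit 5, nat_lit 5, nat_lit 20], false, nat_lit 160, nat_lit 240, nat_lit 0, nat_lit 364, ⟨nat_lit 584, nat_lit 0, nat_lit 416, nat_lit 6, nat_lit 182, nat_lit 416, nat_lit 157, nat_lit 416, nat_lit 71594, nat_lit 280, nat_lit 35943, nat_lit 261, nat_lit 46985651, nat_lit 0, nat_lit 0, nat_lit 4371654, false, false⟩,
 nat_lit 0, nat_lit 5327, nat_lit 0, nat_lit 0, nat_lit 4152, nat_lit 4691, nat_lit 606, nat_lit 0, nat_lit 0, nat_lit 1161, nat_lit 0, nat_lit 0, nat_lit 0, nat_lit 0, nat_lit 0, nat_lit 166400, nat_lit 0, nat_lit 0, [(nat_lit 18, [(nat_lit 5, nat_lit 416)])],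
 ⟨p085_k3, nat_lit 0, nat_lit 0, nat_lit 242, nat_lit 0, nat_lit 643847, [nat_lit 1573068800, nat_lit 2008873601, nat_lit 2544955199], [], [nat_lit 17630184605, nat_lit 18236588373, nat_lit 18244032341, nat_lit 18842438025, nat_lit 19874156265, nat_lit 20433347545, nat_lit 20423815603, nat_lit 20967922835], nat_lit 1271250, nat_lit 1271250, nat_lit 780000, nat_lit 1100001, nat_lit 1100001, nat_lit 1785000, [nat_lit 490000, nat_lit 780000, nat_lit 1100000], [nat_lit 78, nat_lit 40, nat_lit 40, nat_lit 80, nat_lit 22, nat_lit 249, nat_lit 40, nat_lit 10]⟩, ⟨p085_k1, nat_lit 0, nat_lit 0, nat_lit 142, nat_lit 0, nat_lit 0, [nat_lit 2737792000, nat_lit 3650000000, nat_lit 5747728000], [], [nat_lit 10917262058, nat_lit 11951662336, nat_lit 11234425014, nat_lit 12198836856, nat_lit 15172394712, nat_lit 15612266792, nat_lit 14975298072, nat_lit 15498406272], nat_lit 0, nat_lit 0, nat_lit 0, nat_lit 0, nat_lit 0, nat_lit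 0, [], [nat_lit 11, nat_lit 40, nat_lit 40, nat_lit 80, nat_lit 1, nat_lit 428, nat_lit 200, nat_lit 12]⟩,
 ⟨nat_lit 3872, nat_lit 4184, ⟨.ofNat (nat_lit 410806), .ofNat (nat_lit 477065), .ofNat (nat_lit 432468), .ofNat (nat_lit 498726), .ofNat (nat_lit 414527), .ofNat (nat_lit 479052), .ofNat (nat_lit 436316), .ofNat (nat_lit 500840)⟩, ⟨.ofNat (nat_lit 303743), .ofNat (nat_lit 436254), .ofNat (nat_lit 347076), .ofNat (nat_lit 479587), .ofNat (nat_lit 304717), .ofNat (nat_lit 433760), .ofNat (nat_lit 348304), .ofNat (nat_lit 477347)⟩⟩, [⟨nat_lit 4, nat_lit 100, nat_lit 77, nat_lit 91, nat_lit 45578969⟩, ⟨nat_lit 19, nat_lit 100, nat_lit 72, nat_lit 89, nat_lit 185171249⟩]⟩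
noncomputable def p085_l82 : Lf2 := ⟨nat_lit 0, nat_lit 10, [nat_lit 0, nat_lit 5, nat_lit 5, nat_lit 20], true, nat_lit 160, nat_lit 240, nat_lit 0, nat_lit 364, ⟨nat_lit 0, nat_lit 0, nat_lit 1000, nat_lit 6, nat_lit 163, nat_lit 1000, nat_lit 157, nat_lit 1000, nat_lit 67907, nat_lit 278, nat_lit 35831, nat_lit 261, nat_lit 48532144, nat_lit 0, nat_lit 0, nat_lit 4179839, false, false⟩,
 nat_lit 0, nat_lit 3880, nat_lit 0, nat_lit 0, nat_lit 2910, nat_lit 0, nat_lit 0, nat_lit 0, nat_lit 0, nat_lit 0, nat_lit 0, nat_lit 0, nat_lit 0, nat_lit 0, nat_lit 76, nat_lit 400000, nat_lit 0, nat_lit 0, [(nat_lit 18, [(nat_lit 5, nat_lit 1000)])],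
 ⟨p085_k22, nat_lit 0, nat_lit 0, nat_lit 220, nat_lit 0, nat_lit 415116, [nat_lit 1536800000, nat_lit 802000001, nat_lit 14800000], [], [nat_lit 15958755401, nat_lit 17213424012, nat_lit 17357616120, nat_lit 18542059620, nat_lit 18593838553, nat_lit 19770435773, nat_lit 19793589680, nat_lit 20834091680], nat_lit 1271250, nat_lit 1271250, nat_lit 382400, nat_lit 1100001, nat_lit 1100001, nat_lit 1785000, [nat_lit 490000, nat_lit 1100000, nat_lit 1442500], [nat_lit 6, nat_lit 40, nat_lit 40, nat_lit 80, nat_lit 3, nat_lit 317, nat_lit 100, nat_lit 11]⟩, C1.Rw.none,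
 ⟨nat_lit 3872, nat_lit 4473, ⟨.ofNat (nat_lit 311945), .ofNat (nat_lit 475111), .ofNat (nat_lit 333494), .ofNat (nat_lit 496660), .ofNat (nat_lit 324151), .ofNat (nat_lit 479021), .ofNat (nat_lit 345927), .ofNat (nat_lit 500797)⟩, ⟨.ofNat (nat_lit 302621), .ofNat (nat_lit 438578), .ofNat (nat_lit 345754), .ofNat (nat_lit 481711), .ofNat (nat_lit 304717), .ofNat (nat_lit 433760), .ofNat (nat_lit 348304), .ofNat (nat_lit 477347)⟩⟩, [⟨nat_lit 4, nat_lit 100, nat_lit 81, nat_lit 92, nat_lit 187633985⟩]⟩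
noncomputable def p085_l83 : Lf2 := ⟨nat_lit 0, nat_lit 10, [nat_lit 0, nat_lit 5, nat_lit 5, nat_lit 20], false, nat_lit 240, nat_lit 300, nat_lit 0, nat_lit 160, ⟨nat_lit 1000, nat_lit 0, nat_lit 0, nat_lit 0, nat_lit 0, nat_lit 0, nat_lit 0, nat_lit 0, nat_lit 0, nat_lit 0, nat_lit 0, nat_lit 0, nat_lit 0, nat_lit 0, nat_lit 0, nat_lit 0, false, false⟩,
 nat_lit 0, nat_lit 10043, nat_lit 0, nat_lit 0, nat_lit 7532, nat_lit 8842, nat_lit 277, nat_lit 0, nat_lit 0, nat_lit 2067, nat_lit 0, nat_lit 0, nat_lit 0, nat_lit 0, nat_lit 0, nat_lit 0, nat_lit 0, nat_lit 0, [],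
 ⟨p085_k22, nat_lit 0, nat_lit 0, nat_lit 340, nat_lit 0, nat_lit 699263, [nat_lit 2032000001, nat_lit 4688000000, nat_lit 6250000000], [], [nat_lit 23721902800, nat_lit 24999792410, nat_lit 22730650912, nat_lit 23829126416, nat_lit 26235914798, nat_lit 28401556902, nat_lit 24878187372, nat_lit 26313188484], nat_lit 1271250, nat_lit 1271250, nat_lit 382400, nat_lit 1100001, nat_lit 1271250, nat_lit 1271250, [nat_lit 490000, nat_lit 1100000, nat_lit 1442500], [nat_lit 6, nat_lit 40, nat_lit 40, nat_lit 80, nat_lit 3, nat_lit 249, nat_lit 40, nat_lit 8]⟩, ⟨p085_k23, nat_lit 0, nat_lit 0, nat_lit 240, nat_lit 0, nat_lit 0, [nat_lit 4688000000, nat_lit 7968000000, nat_lit 11872000000], [], [nat_lit 20078349402, nat_lit 22379475232, nat_lit 19563658648, nat_lit 21563658880, nat_lit 15098638892, nat_lit 16675161201, nat_lit 14876204320, nat_lit 16227366944], nat_lit 0, nat_lit 0, nat_lit 0, nat_lit 0, nat_lit 0, nat_lit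 0, [], [nat_lit 21, nat_lit 40, nat_lit 40, nat_lit 80, nat_lit 14, nat_lit 373, nat_lit 150, nat_lit 10]⟩,
 zbF0, [⟨nat_lit 0, nat_lit 100, nat_lit 78, nat_lit 85, nat_lit 479346834⟩, ⟨nat_lit 0, nat_lit 100, nat_lit 82, nat_lit 76, nat_lit 366755276⟩, ⟨nat_lit 4, nat_lit 100, nat_lit 81, nat_lit 92, nat_lit 602025694⟩]⟩
noncomputable def p085_l84 : Lf2 := ⟨nat_lit 0, nat_lit 5, [nat_lit 4, nat_lit 5, nat_lit 5, nat_lit 20], false, nat_lit 240, nat_lit 300, nat_lit 160, nat_lit 336, ⟨nat_lit 644, nat_lit 0, nat_lit 356, nat_lit 6, nat_lit 137, nat_lit 356, nat_lit 203, nat_lit 356, nat_lit 1169, nat_lit 218, nat_lit 176817, nat_lit 318, nat_lit 46643243, nat_lit 0, nat_lit 0, nat_lit 4340463, false, false⟩,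
 nat_lit 0, nat_lit 6318, nat_lit 0, nat_lit 0, nat_lit 4738, nat_lit 4289, nat_lit 246, nat_lit 0, nat_lit 0, nat_lit 0, nat_lit 0, nat_lit 0, nat_lit 0, nat_lit 0, nat_lit 0, nat_lit 356000, nat_lit 0, nat_lit 0, [(nat_lit 18, [(nat_lit 6, nat_lit 356)])],
 ⟨p085_k4, nat_lit 0, nat_lit 0, nat_lit 231, nat_lit 0, nat_lit 409627, [nat_lit 1685873067, nat_lit 2577726934, nat_lit 2636315200], [], [nat_lit 20619409290, nat_lit 21971682130, nat_lit 20398896418, nat_lit 21738106312, nat_lit 23503220555, nat_lit 25007855256, nat_lit 23248761270, nat_lit 24544860767], nat_lit 1271250, nat_lit 1271250, nat_lit 382400, nat_lit 490000, nat_lit 1271250, nat_lit 1271250, [nat_lit 490000, nat_lit 1100000, nat_lit 1442500], [nat_lit 6, nat_lit 40, nat_lit 40, nat_lit 80, nat_lit 3, nat_lit 226, nat_lit 20, nat_lit 7]⟩, ⟨p085_k59, nat_lit 0, nat_lit 0, nat_lit 94, nat_lit 0, nat_lit 0, [nat_lit 3019072000, nat_lit 5131392000, nat_lit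 6338248000], [], [nat_lit 5879244822, nat_lit 7132715760, nat_lit 5661963628, nat_lit 6895305270, nat_lit 14533919005, nat_lit 15407389009, nat_lit 14080315532, nat_lit 14944175307], nat_lit 0, nat_lit 0, nat_lit 0, nat_lit 0, nat_lit 0, nat_lit 0, [], [nat_lit 29, nat_lit 40, nat_lit 40, nat_lit 80, nat_lit 17, nat_lit 401, nat_lit 175, nat_lit 11]⟩,
 ⟨nat_lit 3872, nat_lit 4473, ⟨.ofNat (nat_lit 311945), .ofNat (nat_lit 339140), .ofNat (nat_lit 333494), .ofNat (nat_lit 360688), .ofNat (nat_lit 324151), .ofNat (nat_lit 349963), .ofNat (nat_lit 345927), .ofNat (nat_lit 371739)⟩, ⟨.ofNat (nat_lit 438578), .ofNat (nat_lit 540545), .ofNat (nat_lit 481711), .ofNat (nat_lit 583678), .ofNat (nat_lit 433760), .ofNat (nat_lit 530543), .ofNat (nat_lit 477347), .ofNat (nat_lit 574129)⟩⟩, [⟨nat_lit 0, nat_lit 100, nat_lit 78, nat_lit 85, nat_lit 471678384⟩, ⟨nat_lit 4, nat_lit 100, nat_lit 81, nat_lit 92, nat_lit 60276552⟩,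 ⟨nat_lit 23, nat_lit 100, nat_lit 93, nat_lit 82, nat_lit 466375937⟩]⟩
noncomputable def p085_l85 : Lf2 := ⟨nat_lit 0, nat_lit 5, [nat_lit 4, nat_lit 5, nat_lit 5, nat_lit 20], false, nat_lit 240, nat_lit 280, nat_lit 160, nat_lit 352, ⟨nat_lit 966, nat_lit 0, nat_lit 34, nat_lit 6, nat_lit 154, nat_lit 34, nat_lit 193, nat_lit 34, nat_lit 17368, nat_lit 244, nat_lit 224267, nat_lit 331, nat_lit 46298752, nat_lit 0, nat_lit 0, nat_lit 4441432, false, false⟩,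
 nat_lit 0, nat_lit 7320, nat_lit 0, nat_lit 0, nat_lit 5490, nat_lit 6054, nat_lit 1083, nat_lit 0, nat_lit 0, nat_lit 0, nat_lit 0, nat_lit 0, nat_lit 0, nat_lit 0, nat_lit 0, nat_lit 34000, nat_lit 0, nat_lit 0, [(nat_lit 18, [(nat_lit 6, nat_lit 34)])],
 ⟨p085_k0, nat_lit 0, nat_lit 0, nat_lit 243, nat_lit 0, nat_lit 524933, [nat_lit 1992220001, nat_lit 3180457867, nat_lit 5904872800], [], [nat_lit 20289588202, nat_lit 20629476151, nat_lit 20328808442, nat_lit 20651230117, nat_lit 22315842321, nat_lit 22652454868, nat_lit 22225354121, nat_lit 22541355459], nat_lit 1271250, nat_lit 1271250, nat_lit 490000, nat_lit 780000, nat_lit 1271250, nat_lit 1271250, [nat_lit 490000, nat_lit 780000, nat_lit 1435000], [nat_lit 85, nat_lit 40, nat_lit 40, nat_lit 80, nat_lit 16, nat_lit 238, nat_lit 30, nat_lit 8]⟩, ⟨p085_k1, nat_lit 0, nat_lit 0, nat_lit 77, nat_lit 0, nat_lit 0, [nat_lit 4528608000, nat_lit 6037500000, nat_lit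 9507372000], [], [nat_lit 9097754592, nat_lit 10879905624, nat_lit 9395201376, nat_lit 11082067644, nat_lit 22802708626, nat_lit 23815179951, nat_lit 22393274112, nat_lit 23353795724], nat_lit 0, nat_lit 0, nat_lit 0, nat_lit 0, nat_lit 0, nat_lit 0, [], [nat_lit 11, nat_lit 40, nat_lit 40, nat_lit 80, nat_lit 1, nat_lit 428, nat_lit 200, nat_lit 12]⟩,
 ⟨nat_lit 4330, nat_lit 4473, ⟨.ofNat (nat_lit 339195), .ofNat (nat_lit 407174), .ofNat (nat_lit 360761), .ofNat (nat_lit 428739), .ofNat (nat_lit 341871), .ofNat (nat_lit 408989), .ofNat (nat_lit 363484), .ofNat (nat_lit 430602)⟩, ⟨.ofNat (nat_lit 438578), .ofNat (nat_lit 506556), .ofNat (nat_lit 460144), .ofNat (nat_lit 528122), .ofNat (nat_lit 437434), .ofNat (nat_lit 504552), .ofNat (nat_lit 459048), .ofNat (nat_lit 526166)⟩⟩, [⟨nat_lit 0, nat_lit 100, nat_lit 82, nat_lit 87, nat_lit 234267450⟩, ⟨nat_lit 16, nat_lit 84, nat_lit 100, nat_lit 88, nat_lit 220863960⟩,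 ⟨nat_lit 7, nat_lit 77, nat_lit 100, nat_lit 86, nat_lit 175524092⟩, ⟨nat_lit 23, nat_lit 100, nat_lit 77, nat_lit 91, nat_lit 451039109⟩]⟩
noncomputable def p085_l86 : Lf2 := ⟨nat_lit 0, nat_lit 5, [nat_lit 4, nat_lit 5, nat_lit 5, nat_lit 20], false, nat_lit 240, nat_lit 276, nat_lit 160, nat_lit 352, ⟨nat_lit 1000, nat_lit 0, nat_lit 0, nat_lit 0, nat_lit 0, nat_lit 0, nat_lit 0, nat_lit 0, nat_lit 0, nat_lit 0, nat_lit 0, nat_lit 0, nat_lit 0, nat_lit 0, nat_lit 0, nat_lit 0, false, false⟩,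
 nat_lit 0, nat_lit 6707, nat_lit 0, nat_lit 0, nat_lit 5128, nat_lit 6264, nat_lit 2295, nat_lit 0, nat_lit 0, nat_lit 0, nat_lit 0, nat_lit 0, nat_lit 0, nat_lit 0, nat_lit 0, nat_lit 0, nat_lit 0, nat_lit 0, [],
 ⟨p085_k2, nat_lit 0, nat_lit 0, nat_lit 218, nat_lit 0, nat_lit 553904, [nat_lit 2032000001, nat_lit 3282000000, nat_lit 4688000000], [], [nat_lit 19938543277, nat_lit 20265431033, nat_lit 20011385809, nat_lit 20322220769, nat_lit 22101311803, nat_lit 22551385735, nat_lit 21777602540, nat_lit 22206441124], nat_lit 1271250, nat_lit 1271250, nat_lit 490000, nat_lit 780000, nat_lit 1271250, nat_lit 1271250, [nat_lit 490000, nat_lit 780000, nat_lit 1100000], [nat_lit 78, nat_lit 40, nat_lit 40, nat_lit 80, nat_lit 22, nat_lit 238, nat_lit 30, nat_lit 9]⟩, ⟨p085_k1, nat_lit 0, nat_lit 0, nat_lit 77, nat_lit 0, nat_lit 0, [nat_lit 4688000000, nat_lit 6250000000, nat_lit 9842000000], [], [nat_lit 9422875200,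 nat_lit 11267201152, nat_lit 9731123008, nat_lit 11476848720, nat_lit 23606336736, nat_lit 24651141066, nat_lit 23183101159, nat_lit 24177220314], nat_lit 0, nat_lit 0, nat_lit 0, nat_lit 0, nat_lit 0, nat_lit 0, [], [nat_lit 11, nat_lit 40, nat_lit 40, nat_lit 80, nat_lit 1, nat_lit 428, nat_lit 200, nat_lit 12]⟩,
 zbF0, [⟨nat_lit 0, nat_lit 100, nat_lit 80, nat_lit 84, nat_lit 265521757⟩, ⟨nat_lit 4, nat_lit 100, nat_lit 81, nat_lit 87, nat_lit 246516092⟩, ⟨nat_lit 7, nat_lit 77, nat_lit 100, nat_lit 86, nat_lit 76884104⟩, ⟨nat_lit 23, nat_lit 100, nat_lit 76, nat_lit 90, nat_lit 552149011⟩]⟩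
noncomputable def p085_l87 : Lf2 := ⟨nat_lit 0, nat_lit 5, [nat_lit 4, nat_lit 5, nat_lit 5, nat_lit 20], false, nat_lit 240, nat_lit 300, nat_lit 160, nat_lit 364, ⟨nat_lit 1000, nat_lit 0, nat_lit 0, nat_lit 0, nat_lit 0, nat_lit 0, nat_lit 0, nat_lit 0, nat_lit 0, nat_lit 0, nat_lit 0, nat_lit 0, nat_lit 0, nat_lit 0, nat_lit 0, nat_lit 0, false, false⟩,
 nat_lit 0, nat_lit 6886, nat_lit 0, nat_lit 0, nat_lit 5164, nat_lit 6099, nat_lit 2235, nat_lit 0, nat_lit 0, nat_lit 0, nat_lit 0, nat_lit 0, nat_lit 0, nat_lit 0, nat_lit 0, nat_lit 0, nat_lit 0, nat_lit 0, [],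
 ⟨p085_k0, nat_lit 0, nat_lit 0, nat_lit 221, nat_lit 0, nat_lit 433830, [nat_lit 2032000001, nat_lit 3282000000, nat_lit 6250000000], [], [nat_lit 20220170722, nat_lit 20565349854, nat_lit 20323415762, nat_lit 20651541090, nat_lit 23384465512, nat_lit 23727353289, nat_lit 23249768716, nat_lit 23576299441], nat_lit 1271250, nat_lit 1271250, nat_lit 490000, nat_lit 780000, nat_lit 1271250, nat_lit 1271250, [nat_lit 490000, nat_lit 780000, nat_lit 1435000], [nat_lit 85, nat_lit 40, nat_lit 40, nat_lit 80, nat_lit 16, nat_lit 238, nat_lit 30, nat_lit 8]⟩, ⟨p085_k1, nat_lit 0, nat_lit 0, nat_lit 85, nat_lit 0, nat_lit 0, [nat_lit 4688000000, nat_lit 6250000000, nat_lit 9842000000], [], [nat_lit 9685835700, nat_lit 11500656682, nat_lit 10011858628, nat_lit 11730127020, nat_lit 24803209434, nat_lit 25784118716, nat_lit 24355894320, nat_lit 25290251717], nat_lit 0, nat_lit 0, nat_lit 0, nat_lit 0, nat_lit 0, nat_lit 0,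 [], [nat_lit 11, nat_lit 40, nat_lit 40, nat_lit 80, nat_lit 1, nat_lit 428, nat_lit 200, nat_lit 12]⟩,
 zbF0, [⟨nat_lit 0, nat_lit 100, nat_lit 82, nat_lit 87, nat_lit 28008090⟩, ⟨nat_lit 4, nat_lit 100, nat_lit 88, nat_lit 99, nat_lit 26094866⟩, ⟨nat_lit 23, nat_lit 100, nat_lit 82, nat_lit 92, nat_lit 636215195⟩]⟩
noncomputable def p085_l88 : Lf2 := ⟨nat_lit 0, nat_lit 5, [nat_lit 4, nat_lit 5, nat_lit 5, nat_lit 20], false, nat_lit 240, nat_lit 296, nat_lit 160, nat_lit 364, ⟨nat_lit 1000, nat_lit 0, nat_lit 0, nat_lit 0, nat_lit 0, nat_lit 0, nat_lit 0, nat_lit 0, nat_lit 0, nat_lit 0, nat_lit 0, nat_lit 0, nat_lit 0, nat_lit 0, nat_lit 0, nat_lit 0, false, false⟩,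
 nat_lit 0, nat_lit 6342, nat_lit 0, nat_lit 0, nat_lit 4849, nat_lit 6099, nat_lit 2226, nat_lit 0, nat_lit 0, nat_lit 0, nat_lit 0, nat_lit 0, nat_lit 0, nat_lit 0, nat_lit 0, nat_lit 0, nat_lit 0, nat_lit 0, [],
 ⟨p085_k2, nat_lit 0, nat_lit 0, nat_lit 197, nat_lit 0, nat_lit 465128, [nat_lit 2032000001, nat_lit 3282000000, nat_lit 4688000000], [], [nat_lit 20795035234, nat_lit 21112331807, nat_lit 20906824353, nat_lit 21208729220, nat_lit 23311142453, nat_lit 23591937985, nat_lit 23300703841, nat_lit 23568189309], nat_lit 1271250, nat_lit 1271250, nat_lit 490000, nat_lit 780000, nat_lit 1271250, nat_lit 1271250, [nat_lit 490000, nat_lit 780000, nat_lit 1100000], [nat_lit 78, nat_lit 40, nat_lit 40, nat_lit 80, nat_lit 22, nat_lit 238, nat_lit 30, nat_lit 9]⟩, ⟨p085_k1, nat_lit 0, nat_lit 0, nat_lit 85, nat_lit 0, nat_lit 0, [nat_lit 4688000000, nat_lit 6250000000, nat_lit 9842000000], [], [nat_lit 9685835700,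 nat_lit 11500656682, nat_lit 10011858628, nat_lit 11730127020, nat_lit 24803209434, nat_lit 25784118716, nat_lit 24355894320, nat_lit 25290251717], nat_lit 0, nat_lit 0, nat_lit 0, nat_lit 0, nat_lit 0, nat_lit 0, [], [nat_lit 11, nat_lit 40, nat_lit 40, nat_lit 80, nat_lit 1, nat_lit 428, nat_lit 200, nat_lit 12]⟩,
 zbF0, [⟨nat_lit 0, nat_lit 100, nat_lit 80, nat_lit 89, nat_lit 162313651⟩, ⟨nat_lit 23, nat_lit 100, nat_lit 81, nat_lit 92, nat_lit 616944063⟩]⟩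
noncomputable def p085_l89 : Lf2 := ⟨nat_lit 0, nat_lit 5, [nat_lit 4, nat_lit 5, nat_lit 5, nat_lit 20], false, nat_lit 240, nat_lit 288, nat_lit 160, nat_lit 364, ⟨nat_lit 1000, nat_lit 0, nat_lit 0, nat_lit 0, nat_lit 0, nat_lit 0, nat_lit 0, nat_lit 0, nat_lit 0, nat_lit 0, nat_lit 0, nat_lit 0, nat_lit 0, nat_lit 0, nat_lit 0, nat_lit 0, false, false⟩,
 nat_lit 0, nat_lit 6024, nat_lit 0, nat_lit 0, nat_lit 4695, nat_lit 6169, nat_lit 2124, nat_lit 0, nat_lit 0, nat_lit 0, nat_lit 0, nat_lit 0, nat_lit 0, nat_lit 0, nat_lit 0, nat_lit 0, nat_lit 0, nat_lit 0, [],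
 ⟨p085_k3, nat_lit 0, nat_lit 0, nat_lit 264, nat_lit 0, nat_lit 643847, [nat_lit 2032000001, nat_lit 3282000000, nat_lit 4688000000], [], [nat_lit 20307370467, nat_lit 20889569592, nat_lit 20436855232, nat_lit 20991177782, nat_lit 22947628461, nat_lit 23776591012, nat_lit 22670449594, nat_lit 23461302304], nat_lit 1271250, nat_lit 1271250, nat_lit 490000, nat_lit 780000, nat_lit 1271250, nat_lit 1271250, [nat_lit 490000, nat_lit 780000, nat_lit 1100000], [nat_lit 78, nat_lit 40, nat_lit 40, nat_lit 80, nat_lit 22, nat_lit 238, nat_lit 30, nat_lit 9]⟩, ⟨p085_k1, nat_lit 0, nat_lit 0, nat_lit 85, nat_lit 0, nat_lit 0, [nat_lit 4688000000, nat_lit 6250000000, nat_lit 9842000000], [], [nat_lit 9574276700, nat_lit 11401614942, nat_lit 9892758668, nat_lit 11622675620, nat_lit 24787625055, nat_lit 25860165190, nat_lit 24325941334, nat_lit 25264604648], nat_lit 0, nat_lit 0, nat_lit 0, nat_lit 0, nat_lit 0, nat_lit 0, [],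 [nat_lit 11, nat_lit 40, nat_lit 40, nat_lit 80, nat_lit 1, nat_lit 428, nat_lit 200, nat_lit 12]⟩,
 zbF0, [⟨nat_lit 0, nat_lit 100, nat_lit 75, nat_lit 92, nat_lit 221810397⟩, ⟨nat_lit 4, nat_lit 100, nat_lit 77, nat_lit 91, nat_lit 160288228⟩, ⟨nat_lit 19, nat_lit 100, nat_lit 72, nat_lit 89, nat_lit 35468450⟩, ⟨nat_lit 23, nat_lit 100, nat_lit 79, nat_lit 91, nat_lit 591247110⟩]⟩
noncomputable def p085_l90 : Lf2 := ⟨nat_lit 0, nat_lit 10, [nat_lit 0, nat_lit 5, nat_lit 5, nat_lit 20], true, nat_lit 240, nat_lit 300, nat_lit 160, nat_lit 364, ⟨nat_lit 0, nat_lit 284, nat_lit 716, nat_lit 6, nat_lit 148, nat_lit 1000, nat_lit 203, nat_lit 716, nat_lit 1169, nat_lit 218, nat_lit 205350, nat_lit 326, nat_lit 45889801, nat_lit 7982177, nat_lit 13128022, nat_lit 4461972, false, false⟩,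
 nat_lit 0, nat_lit 4109, nat_lit 0, nat_lit 0, nat_lit 3081, nat_lit 0, nat_lit 0, nat_lit 0, nat_lit 0, nat_lit 0, nat_lit 0, nat_lit 0, nat_lit 0, nat_lit 0, nat_lit 18, nat_lit 357400, nat_lit 0, nat_lit 0, [(nat_lit 18, [(nat_lit 0, nat_lit 284), (nat_lit 5, nat_lit 716)])],
 ⟨p085_k22, nat_lit 0, nat_lit 0, nat_lit 217, nat_lit 0, nat_lit 366506, [nat_lit 1244336000, nat_lit 607288001, nat_lit 9884800], [], [nat_lit 19396939471, nat_lit 20324755628, nat_lit 19616612261, nat_lit 20635248827, nat_lit 21677586700, nat_lit 22995198268, nat_lit 21924376208, nat_lit 22843988679], nat_lit 1271250, nat_lit 1271250, nat_lit 382400, nat_lit 780000, nat_lit 1271250, nat_lit 1271250, [nat_lit 490000, nat_lit 1100000, nat_lit 1442500], [nat_lit 6, nat_lit 40, nat_lit 40, nat_lit 80, nat_lit 3, nat_lit 238, nat_lit 30, nat_lit 8]⟩, C1.Rw.none,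
 ⟨nat_lit 3872, nat_lit 4473, ⟨.ofNat (nat_lit 311945), .ofNat (nat_lit 407125), .ofNat (nat_lit 322720), .ofNat (nat_lit 417900), .ofNat (nat_lit 324151), .ofNat (nat_lit 414492), .ofNat (nat_lit 335039), .ofNat (nat_lit 425380)⟩, ⟨.ofNat (nat_lit 438578), .ofNat (nat_lit 540545), .ofNat (nat_lit 481711), .ofNat (nat_lit 583678), .ofNat (nat_lit 433760), .ofNat (nat_lit 530543), .ofNat (nat_lit 477347), .ofNat (nat_lit 574129)⟩⟩, [⟨nat_lit 0, nat_lit 100, nat_lit 74, nat_lit 88, nat_lit 124075799⟩, ⟨nat_lit 16, nat_lit 87, nat_lit 95, nat_lit 100, nat_lit 233769539⟩]⟩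
noncomputable def p085_l91 : Lf2 := ⟨nat_lit 0, nat_lit 10, [nat_lit 0, nat_lit 5, nat_lit 5, nat_lit 20], false, nat_lit 240, nat_lit 300, nat_lit 160, nat_lit 360, ⟨nat_lit 488, nat_lit 0, nat_lit 512, nat_lit 6, nat_lit 155, nat_lit 512, nat_lit 203, nat_lit 512, nat_lit 1169, nat_lit 218, nat_lit 224267, nat_lit 331, nat_lit 45408411, nat_lit 0, nat_lit 0, nat_lit 4534759, false, false⟩,
 nat_lit 0, nat_lit 5822, nat_lit 0, nat_lit 0, nat_lit 4366, nat_lit 3081, nat_lit 35, nat_lit 0, nat_lit 0, nat_lit 0, nat_lit 0, nat_lit 0, nat_lit 0, nat_lit 0, nat_lit 0, nat_lit 512000, nat_lit 0, nat_lit 0, [(nat_lit 18, [(nat_lit 6, nat_lit 512)])],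
 ⟨p085_k22, nat_lit 0, nat_lit 0, nat_lit 228, nat_lit 0, nat_lit 415116, [nat_lit 1534199467, nat_lit 1653000534, nat_lit 1052790400], [], [nat_lit 19544345540, nat_lit 20836037170, nat_lit 19530850604, nat_lit 20539531288, nat_lit 22800207349, nat_lit 24353447840, nat_lit 22412346454, nat_lit 23886007404], nat_lit 1271250, nat_lit 1271250, nat_lit 435600, nat_lit 780000, nat_lit 1271250, nat_lit 1271250, [nat_lit 490000, nat_lit 1100000, nat_lit 1442500], [nat_lit 6, nat_lit 40, nat_lit 40, nat_lit 80, nat_lit 3, nat_lit 238, nat_lit 30, nat_lit 8]⟩, ⟨p085_k29, nat_lit 0, nat_lit 0, nat_lit 107, nat_lit 0, nat_lit 0, [nat_lit 2287744000, nat_lit 3888384000, nat_lit 4802896000], [], [nat_lit 5089392442, nat_lit 5545228898, nat_lit 5135635864, nat_lit 5563603812, nat_lit 12366892321, nat_lit 12654315919, nat_lit 11895967040, nat_lit 12131231521], nat_lit 0, nat_lit 0, nat_lit 0, nat_lit 0, nat_lit 0, nat_lit 0, [],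 [nat_lit 29, nat_lit 40, nat_lit 40, nat_lit 80, nat_lit 17, nat_lit 428, nat_lit 200, nat_lit 12]⟩,
 ⟨nat_lit 3872, nat_lit 4473, ⟨.ofNat (nat_lit 336317), .ofNat (nat_lit 417900), .ofNat (nat_lit 347091), .ofNat (nat_lit 428674), .ofNat (nat_lit 347945), .ofNat (nat_lit 425380), .ofNat (nat_lit 358832), .ofNat (nat_lit 436268)⟩, ⟨.ofNat (nat_lit 438578), .ofNat (nat_lit 540545), .ofNat (nat_lit 481711), .ofNat (nat_lit 583678), .ofNat (nat_lit 433760), .ofNat (nat_lit 530543), .ofNat (nat_lit 477347), .ofNat (nat_lit 574129)⟩⟩, [⟨nat_lit 0, nat_lit 100, nat_lit 75, nat_lit 92, nat_lit 250628786⟩, ⟨nat_lit 4, nat_lit 100, nat_lit 81, nat_lit 92, nat_lit 265756389⟩, ⟨nat_lit 7, nat_lit 75, nat_lit 100, nat_lit 90, nat_lit 23432402⟩, ⟨nat_lit 23, nat_lit 100, nat_lit 84, nat_lit 91, nat_lit 282815953⟩]⟩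
noncomputable def p085_l92 : Lf2 := ⟨nat_lit 0, nat_lit 10, [nat_lit 0, nat_lit 5, nat_lit 5, nat_lit 20], false, nat_lit 240, nat_lit 300, nat_lit 160, nat_lit 364, ⟨nat_lit 1000, nat_lit 0, nat_lit 0, nat_lit 0, nat_lit 0, nat_lit 0, nat_lit 0, nat_lit 0, nat_lit 0, nat_lit 0, nat_lit 0, nat_lit 0, nat_lit 0, nat_lit 0, nat_lit 0, nat_lit 0, false, false⟩,
 nat_lit 0, nat_lit 7386, nat_lit 0, nat_lit 0, nat_lit 5539, nat_lit 6261, nat_lit 1101, nat_lit 0, nat_lit 0, nat_lit 0, nat_lit 0, nat_lit 0, nat_lit 0, nat_lit 0, nat_lit 0, nat_lit 0, nat_lit 0, nat_lit 0, [],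
 ⟨p085_k25, nat_lit 0, nat_lit 0, nat_lit 257, nat_lit 0, nat_lit 604446, [nat_lit 2032000001, nat_lit 3282000000, nat_lit 6250000000], [], [nat_lit 20567706081, nat_lit 21174718326, nat_lit 20979479985, nat_lit 21590017540, nat_lit 23396017018, nat_lit 24001097597, nat_lit 23684939203, nat_lit 24255539422], nat_lit 1271250, nat_lit 1271250, nat_lit 780000, nat_lit 1100001, nat_lit 1271250, nat_lit 1271250, [nat_lit 490000, nat_lit 780000, nat_lit 1435000], [nat_lit 85, nat_lit 40, nat_lit 40, nat_lit 80, nat_lit 16, nat_lit 249, nat_lit 40, nat_lit 8]⟩, ⟨p085_k60, nat_lit 0, nat_lit 0, nat_lit 68, nat_lit 0, nat_lit 0, [nat_lit 4688000000, nat_lit 6250000000, nat_lit 11872000000], [], [nat_lit 9736227292, nat_lit 11481453780, nat_lit 10842603528, nat_lit 12470831192, nat_lit 24286574553, nat_lit 25230897072, nat_lit 24443138537, nat_lit 25327759793], nat_lit 0, nat_lit 0, nat_lit 0, nat_lit 0, nat_lit 0, nat_lit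 0, [], [nat_lit 48, nat_lit 40, nat_lit 40, nat_lit 80, nat_lit 12, nat_lit 428, nat_lit 200, nat_lit 11]⟩,
 zbF0, [⟨nat_lit 4, nat_lit 100, nat_lit 84, nat_lit 93, nat_lit 224890221⟩, ⟨nat_lit 19, nat_lit 100, nat_lit 72, nat_lit 89, nat_lit 128259185⟩, ⟨nat_lit 23, nat_lit 98, nat_lit 64, nat_lit 100, nat_lit 467423882⟩]⟩
noncomputable def p085_l93 : Lf2 := ⟨nat_lit 0, nat_lit 10, [nat_lit 0, nat_lit 5, nat_lit 5, nat_lit 20], false, nat_lit 240, nat_lit 288, nat_lit 160, nat_lit 364, ⟨nat_lit 1000, nat_lit 0, nat_lit 0, nat_lit 0, nat_lit 0, nat_lit 0, nat_lit 0, nat_lit 0, nat_lit 0, nat_lit 0, nat_lit 0, nat_lit 0, nat_lit 0, nat_lit 0, nat_lit 0, nat_lit 0, false, false⟩,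
 nat_lit 0, nat_lit 6630, nat_lit 0, nat_lit 0, nat_lit 5167, nat_lit 6261, nat_lit 1852, nat_lit 0, nat_lit 0, nat_lit 0, nat_lit 0, nat_lit 0, nat_lit 0, nat_lit 0, nat_lit 0, nat_lit 0, nat_lit 0, nat_lit 0, [],
 ⟨p085_k24, nat_lit 0, nat_lit 0, nat_lit 302, nat_lit 0, nat_lit 663300, [nat_lit 2032000001, nat_lit 4688000000, nat_lit 6250000000], [], [nat_lit 20823485702, nat_lit 21347815615, nat_lit 21129524682, nat_lit 21624633831, nat_lit 22979236337, nat_lit 23813785863, nat_lit 23252574329, nat_lit 24038952932], nat_lit 1271250, nat_lit 1271250, nat_lit 780000, nat_lit 1100001, nat_lit 1271250, nat_lit 1271250, [nat_lit 490000, nat_lit 1100000, nat_lit 1442500], [nat_lit 6, nat_lit 40, nat_lit 40, nat_lit 80, nat_lit 3, nat_lit 249, nat_lit 40, nat_lit 8]⟩, ⟨p085_k23, nat_lit 0, nat_lit 0, nat_lit 82, nat_lit 0, nat_lit 0, [nat_lit 4688000000, nat_lit 7968000000, nat_lit 11872000000], [], [nat_lit 9736227292,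 nat_lit 11481453780, nat_lit 10842603528, nat_lit 12470831192, nat_lit 24286574553, nat_lit 25230897072, nat_lit 24443138537, nat_lit 25327759793], nat_lit 0, nat_lit 0, nat_lit 0, nat_lit 0, nat_lit 0, nat_lit 0, [], [nat_lit 21, nat_lit 40, nat_lit 40, nat_lit 80, nat_lit 14, nat_lit 428, nat_lit 200, nat_lit 11]⟩,
 zbF0, [⟨nat_lit 16, nat_lit 77, nat_lit 100, nat_lit 91, nat_lit 244081561⟩, ⟨nat_lit 19, nat_lit 100, nat_lit 72, nat_lit 89, nat_lit 64243226⟩, ⟨nat_lit 23, nat_lit 99, nat_lit 62, nat_lit 100, nat_lit 520252129⟩]⟩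
noncomputable def b_V_800_600_20_15 : St := ⟨true, nat_lit 1, nat_lit 0, nat_lit 1, nat_lit 120, nat_lit 320, nat_lit 340, nat_lit 240, nat_lit 260, nat_lit 64, nat_lit 160, nat_lit 80, nat_lit 120, nat_lit 160, nat_lit 300, nat_lit 0, nat_lit 364, nat_lit 0, nat_lit 40, nat_lit 0, nat_lit 0, nat_lit 0, nat_lit 0⟩
theorem d_V_800_600_20_15 (h : EB TB.env) : Dead b_V_800_600_20_15 := chkB_sound0 h (T :=
(.spl (nat_lit 4) (nat_lit 240)
(.spl (nat_lit 6) (nat_lit 20)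
(.spl (nat_lit 2) (nat_lit 120)
(.spl (nat_lit 0) (nat_lit 330)
(.spl (nat_lit 0) (nat_lit 325)
(.leaf p085_l76)
(.trZ (nat_lit 0) (nat_lit 100) (nat_lit 80) (nat_lit 78) (nat_lit 72) (.leaf p085_l77)))
(.trZ (nat_lit 0) (nat_lit 100) (nat_lit 78) (nat_lit 81) (nat_lit 76) (.spl (nat_lit 1) (nat_lit 250)
(.leaf p085_l78)
(.trZ (nat_lit 0) (nat_lit 100) (nat_lit 78) (nat_lit 85) (nat_lit 84) (.trX (nat_lit 19) (nat_lit 100) (nat_lit 64) (nat_lit 95) (nat_lit 360) (.leaf p085_l79))))))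
(.spl (nat_lit 0) (nat_lit 330)
(.leaf p085_l80)
(.leaf p085_l81)))
(.leaf p085_l82))
(.spl (nat_lit 5) (nat_lit 160)
(.leaf p085_l83)
(.spl (nat_lit 2) (nat_lit 120)
(.spl (nat_lit 6) (nat_lit 20)
(.spl (nat_lit 2) (nat_lit 80)
(.trX (nat_lit 23) (nat_lit 100) (nat_lit 76) (nat_lit 82) (nat_lit 336) (.leaf p085_l84))
(.spl (nat_lit 0) (nat_lit 330)
(.spl (nat_lit 3) (nat_lit 100)
(.trX (nat_lit 16) (nat_lit 87) (nat_lit 100) (nat_lit 94) (nat_lit 280) (.trX (nat_lit 19) (nat_lit 100) (nat_lit 68) (nat_lit 88) (nat_lit 352) (.spl (nat_lit 0) (nat_lit 325)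
(.leaf p085_l85)
(.trX (nat_lit 16) (nat_lit 84) (nat_lit 100) (nat_lit 93) (nat_lit 276) (.leaf p085_l86)))))
(.spl (nat_lit 0) (nat_lit 325)
(.leaf p085_l87)
(.trX (nat_lit 16) (nat_lit 85) (nat_lit 97) (nat_lit 100) (nat_lit 296) (.leaf p085_l88))))
(.trX (nat_lit 16) (nat_lit 83) (nat_lit 98) (nat_lit 100) (nat_lit 288) (.leaf p085_l89))))
(.spl (nat_lit 1) (nat_lit 250)
(.leaf p085_l90)
(.trZ (nat_lit 0) (nat_lit 100) (nat_lit 83) (nat_lit 81) (nat_lit 72) (.trX (nat_lit 19) (nat_lit 100) (nat_lit 64) (nat_lit 95) (nat_lit 360) (.leaf p085_l91)))))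
(.spl (nat_lit 0) (nat_lit 330)
(.leaf p085_l92)
(.trX (nat_lit 16) (nat_lit 83) (nat_lit 98) (nat_lit 100) (nat_lit 288) (.leaf p085_l93))))))) (by decide +kernel)
noncomputable def p085_l94 : Lf2 := ⟨nat_lit 0, nat_lit 10, [nat_lit 0, nat_lit 5, nat_lit 5, nat_lit 20], false, nat_lit 160, nat_lit 300, nat_lit 0, nat_lit 160, ⟨nat_lit 1000, nat_lit 0, nat_lit 0, nat_lit 0, nat_lit 0, nat_lit 0, nat_lit 0, nat_lit 0, nat_lit 0, nat_lit 0, nat_lit 0, nat_lit 0, nat_lit 0, nat_lit 0, nat_lit 0, nat_lit 0, false, false⟩,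
 nat_lit 0, nat_lit 9465, nat_lit 0, nat_lit 0, nat_lit 7098, nat_lit 10578, nat_lit 558, nat_lit 0, nat_lit 0, nat_lit 2365, nat_lit 0, nat_lit 0, nat_lit 0, nat_lit 0, nat_lit 0, nat_lit 0, nat_lit 0, nat_lit 0, [],
 ⟨p085_k22, nat_lit 0, nat_lit 0, nat_lit 374, nat_lit 0, nat_lit 819836, [nat_lit 2032000001, nat_lit 4688000000, nat_lit 6250000000], [], [nat_lit 21912706040, nat_lit 23176380020, nat_lit 21832096224, nat_lit 23039240332, nat_lit 26036868390, nat_lit 27046853179, nat_lit 27099960825, nat_lit 26369107013], nat_lit 1271250, nat_lit 1271250, nat_lit 490000, nat_lit 1100001, nat_lit 1100001, nat_lit 2298750, [nat_lit 490000, nat_lit 1100000, nat_lit 1442500], [nat_lit 6, nat_lit 40, nat_lit 40, nat_lit 80, nat_lit 3, nat_lit 345, nat_lit 125, nat_lit 12]⟩, ⟨p085_k32, nat_lit 0, nat_lit 0, nat_lit 182, nat_lit 0, nat_lit 0, [nat_lit 4688000000, nat_lit 7968000000, nat_lit 9842000000], [], [nat_lit 17399857820,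 nat_lit 19969800872, nat_lit 17086167920, nat_lit 19342742008, nat_lit 10059257288, nat_lit 12187889640, nat_lit 9924565516, nat_lit 11780648360], nat_lit 0, nat_lit 0, nat_lit 0, nat_lit 0, nat_lit 0, nat_lit 0, [], [nat_lit 29, nat_lit 40, nat_lit 40, nat_lit 80, nat_lit 17, nat_lit 373, nat_lit 150, nat_lit 11]⟩,
 zbF0, [⟨nat_lit 0, nat_lit 100, nat_lit 81, nat_lit 93, nat_lit 648241825⟩, ⟨nat_lit 4, nat_lit 100, nat_lit 81, nat_lit 92, nat_lit 480217917⟩]⟩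
noncomputable def p085_l95 : Lf2 := ⟨nat_lit 0, nat_lit 10, [nat_lit 0, nat_lit 5, nat_lit 5, nat_lit 20], false, nat_lit 160, nat_lit 280, nat_lit 160, nat_lit 336, ⟨nat_lit 1000, nat_lit 0, nat_lit 0, nat_lit 0, nat_lit 0, nat_lit 0, nat_lit 0, nat_lit 0, nat_lit 0, nat_lit 0, nat_lit 0, nat_lit 0, nat_lit 0, nat_lit 0, nat_lit 0, nat_lit 0, false, false⟩,
 nat_lit 0, nat_lit 7459, nat_lit 0, nat_lit 0, nat_lit 5594, nat_lit 6496, nat_lit 1202, nat_lit 0, nat_lit 0, nat_lit 0, nat_lit 0, nat_lit 0, nat_lit 0, nat_lit 0, nat_lit 0, nat_lit 0, nat_lit 0, nat_lit 0, [],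
 ⟨p085_k25, nat_lit 0, nat_lit 0, nat_lit 273, nat_lit 0, nat_lit 600480, [nat_lit 2032000001, nat_lit 3282000000, nat_lit 6250000000], [], [nat_lit 17810829809, nat_lit 18160159803, nat_lit 17875342753, nat_lit 18207801774, nat_lit 22400376432, nat_lit 22736097264, nat_lit 22293333512, nat_lit 22612535840], nat_lit 1271250, nat_lit 1271250, nat_lit 490000, nat_lit 780000, nat_lit 1100001, nat_lit 2127500, [nat_lit 490000, nat_lit 780000, nat_lit 1435000], [nat_lit 85, nat_lit 40, nat_lit 40, nat_lit 80, nat_lit 16, nat_lit 317, nat_lit 100, nat_lit 11]⟩, ⟨p085_k61, nat_lit 0, nat_lit 0, nat_lit 68, nat_lit 0, nat_lit 0, [nat_lit 4688000000, nat_lit 6250000000, nat_lit 9842000000], [], [nat_lit 10938948528, nat_lit 11881854392, nat_lit 11120724080, nat_lit 12012890264, nat_lit 23078725700, nat_lit 23740713346, nat_lit 22632623396, nat_lit 23171661679], nat_lit 0, nat_lit 0, nat_lit 0, nat_lit 0, nat_lit 0, nat_lit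 0, [], [nat_lit 11, nat_lit 40, nat_lit 40, nat_lit 80, nat_lit 1, nat_lit 428, nat_lit 200, nat_lit 12]⟩,
 zbF0, [⟨nat_lit 0, nat_lit 100, nat_lit 84, nat_lit 88, nat_lit 425897461⟩, ⟨nat_lit 16, nat_lit 84, nat_lit 100, nat_lit 88, nat_lit 136260002⟩, ⟨nat_lit 7, nat_lit 84, nat_lit 100, nat_lit 88, nat_lit 287299598⟩, ⟨nat_lit 11, nat_lit 100, nat_lit 100, nat_lit 100, nat_lit 297575667⟩]⟩
noncomputable def p085_l96 : Lf2 := ⟨nat_lit 0, nat_lit 10, [nat_lit 0, nat_lit 5, nat_lit 5, nat_lit 20], false, nat_lit 160, nat_lit 280, nat_lit 160, nat_lit 328, ⟨nat_lit 1000, nat_lit 0, nat_lit 0, nat_lit 0, nat_lit 0, nat_lit 0, nat_lit 0, nat_lit 0, nat_lit 0, nat_lit 0, nat_lit 0, nat_lit 0, nat_lit 0, nat_lit 0, nat_lit 0, nat_lit 0, false, false⟩,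
 nat_lit 0, nat_lit 7504, nat_lit 0, nat_lit 0, nat_lit 5628, nat_lit 6579, nat_lit 1178, nat_lit 0, nat_lit 0, nat_lit 0, nat_lit 0, nat_lit 0, nat_lit 0, nat_lit 0, nat_lit 0, nat_lit 0, nat_lit 0, nat_lit 0, [],
 ⟨p085_k25, nat_lit 0, nat_lit 0, nat_lit 307, nat_lit 0, nat_lit 664707, [nat_lit 2032000001, nat_lit 3282000000, nat_lit 6250000000], [], [nat_lit 18096334036, nat_lit 18417376720, nat_lit 18145508610, nat_lit 18455091154, nat_lit 22294686672, nat_lit 22626552361, nat_lit 22215968144, nat_lit 22536216949], nat_lit 1271250, nat_lit 1271250, nat_lit 573850, nat_lit 780000, nat_lit 1100001, nat_lit 2127500, [nat_lit 490000, nat_lit 780000, nat_lit 1435000], [nat_lit 85, nat_lit 40, nat_lit 40, nat_lit 80, nat_lit 16, nat_lit 317, nat_lit 100, nat_lit 11]⟩, ⟨p085_k34, nat_lit 0, nat_lit 0, nat_lit 60, nat_lit 0, nat_lit 0, [nat_lit 4688000000, nat_lit 6250000000, nat_lit 9842000000], [], [nat_lit 11808004954,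 nat_lit 12742955357, nat_lit 11892389536, nat_lit 12791461652, nat_lit 22735833241, nat_lit 23415658727, nat_lit 22418065319, nat_lit 22977512480], nat_lit 0, nat_lit 0, nat_lit 0, nat_lit 0, nat_lit 0, nat_lit 0, [], [nat_lit 11, nat_lit 40, nat_lit 40, nat_lit 80, nat_lit 1, nat_lit 428, nat_lit 200, nat_lit 12]⟩,
 zbF0, [⟨nat_lit 0, nat_lit 100, nat_lit 85, nat_lit 93, nat_lit 461300133⟩, ⟨nat_lit 16, nat_lit 87, nat_lit 100, nat_lit 94, nat_lit 153538093⟩, ⟨nat_lit 19, nat_lit 100, nat_lit 82, nat_lit 92, nat_lit 298917008⟩, ⟨nat_lit 11, nat_lit 97, nat_lit 97, nat_lit 100, nat_lit 267258180⟩]⟩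
noncomputable def p085_l97 : Lf2 := ⟨nat_lit 0, nat_lit 10, [nat_lit 0, nat_lit 5, nat_lit 5, nat_lit 20], false, nat_lit 160, nat_lit 280, nat_lit 160, nat_lit 336, ⟨nat_lit 1000, nat_lit 0, nat_lit 0, nat_lit 0, nat_lit 0, nat_lit 0, nat_lit 0, nat_lit 0, nat_lit 0, nat_lit 0, nat_lit 0, nat_lit 0, nat_lit 0, nat_lit 0, nat_lit 0, nat_lit 0, false, false⟩,
 nat_lit 0, nat_lit 7611, nat_lit 0, nat_lit 0, nat_lit 5708, nat_lit 6497, nat_lit 1201, nat_lit 0, nat_lit 0, nat_lit 0, nat_lit 0, nat_lit 0, nat_lit 0, nat_lit 0, nat_lit 0, nat_lit 0, nat_lit 0, nat_lit 0, [],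
 ⟨p085_k25, nat_lit 0, nat_lit 0, nat_lit 291, nat_lit 0, nat_lit 664707, [nat_lit 2032000001, nat_lit 3282000000, nat_lit 6250000000], [], [nat_lit 17519701665, nat_lit 17856784887, nat_lit 18101579345, nat_lit 18461251581, nat_lit 22033931984, nat_lit 22356643089, nat_lit 22367367544, nat_lit 22671399501], nat_lit 1271250, nat_lit 1271250, nat_lit 780000, nat_lit 1100001, nat_lit 1100001, nat_lit 2127500, [nat_lit 490000, nat_lit 780000, nat_lit 1435000], [nat_lit 85, nat_lit 40, nat_lit 40, nat_lit 80, nat_lit 16, nat_lit 345, nat_lit 125, nat_lit 12]⟩, ⟨p085_k61, nat_lit 0, nat_lit 0, nat_lit 54, nat_lit 0, nat_lit 0, [nat_lit 4688000000, nat_lit 6250000000, nat_lit 9842000000], [], [nat_lit 11119189060, nat_lit 12903687836, nat_lit 12106086584, nat_lit 13770050312, nat_lit 22632014947, nat_lit 23710168272, nat_lit 22849119508, nat_lit 23857486680], nat_lit 0, nat_lit 0, nat_lit 0, nat_lit 0, nat_lit 0, nat_lit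 0, [], [nat_lit 11, nat_lit 40, nat_lit 40, nat_lit 80, nat_lit 1, nat_lit 428, nat_lit 200, nat_lit 12]⟩,
 zbF0, [⟨nat_lit 16, nat_lit 87, nat_lit 100, nat_lit 94, nat_lit 491872694⟩, ⟨nat_lit 19, nat_lit 100, nat_lit 86, nat_lit 89, nat_lit 601598133⟩]⟩
noncomputable def p085_l98 : Lf2 := ⟨nat_lit 0, nat_lit 10, [nat_lit 0, nat_lit 5, nat_lit 5, nat_lit 20], false, nat_lit 160, nat_lit 276, nat_lit 160, nat_lit 336, ⟨nat_lit 1000, nat_lit 0, nat_lit 0, nat_lit 0, nat_lit 0, nat_lit 0, nat_lit 0, nat_lit 0, nat_lit 0, nat_lit 0, nat_lit 0, nat_lit 0, nat_lit 0, nat_lit 0, nat_lit 0, nat_lit 0, false, false⟩,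
 nat_lit 0, nat_lit 6918, nat_lit 0, nat_lit 0, nat_lit 5290, nat_lit 6528, nat_lit 1977, nat_lit 0, nat_lit 0, nat_lit 0, nat_lit 0, nat_lit 0, nat_lit 0, nat_lit 0, nat_lit 0, nat_lit 0, nat_lit 0, nat_lit 0, [],
 ⟨p085_k62, nat_lit 0, nat_lit 0, nat_lit 317, nat_lit 0, nat_lit 689323, [nat_lit 2032000001, nat_lit 3282000000, nat_lit 6250000000], [], [nat_lit 18588869915, nat_lit 18925486011, nat_lit 19280686191, nat_lit 19585080021, nat_lit 22338645115, nat_lit 22608829737, nat_lit 22626806373, nat_lit 22871960756], nat_lit 1271250, nat_lit 1271250, nat_lit 545600, nat_lit 1100001, nat_lit 1100001, nat_lit 2093250, [nat_lit 490000, nat_lit 780000, nat_lit 1435000], [nat_lit 85, nat_lit 40, nat_lit 40, nat_lit 80, nat_lit 16, nat_lit 345, nat_lit 125, nat_lit 12]⟩, ⟨p085_k61, nat_lit 0, nat_lit 0, nat_lit 68, nat_lit 0, nat_lit 0, [nat_lit 4688000000, nat_lit 6250000000, nat_lit 9842000000], [], [nat_lit 10929258532,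 nat_lit 12800417140, nat_lit 12058175216, nat_lit 13726833088, nat_lit 22975017252, nat_lit 24290554991, nat_lit 22827027792, nat_lit 23839447476], nat_lit 0, nat_lit 0, nat_lit 0, nat_lit 0, nat_lit 0, nat_lit 0, [], [nat_lit 11, nat_lit 40, nat_lit 40, nat_lit 80, nat_lit 1, nat_lit 428, nat_lit 200, nat_lit 12]⟩,
 zbF0, [⟨nat_lit 0, nat_lit 100, nat_lit 82, nat_lit 93, nat_lit 117551760⟩, ⟨nat_lit 0, nat_lit 100, nat_lit 82, nat_lit 87, nat_lit 228566892⟩, ⟨nat_lit 16, nat_lit 84, nat_lit 100, nat_lit 93, nat_lit 133597541⟩, ⟨nat_lit 19, nat_lit 100, nat_lit 77, nat_lit 91, nat_lit 274578572⟩, ⟨nat_lit 11, nat_lit 90, nat_lit 90, nat_lit 100, nat_lit 297973415⟩]⟩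
noncomputable def p085_l99 : Lf2 := ⟨nat_lit 0, nat_lit 10, [nat_lit 0, nat_lit 5, nat_lit 5, nat_lit 20], false, nat_lit 160, nat_lit 240, nat_lit 160, nat_lit 352, ⟨nat_lit 502, nat_lit 0, nat_lit 498, nat_lit 6, nat_lit 163, nat_lit 498, nat_lit 161, nat_lit 498, nat_lit 67907, nat_lit 278, nat_lit 216600, nat_lit 329, nat_lit 48232836, nat_lit 0, nat_lit 0, nat_lit 4221403, false, false⟩,
 nat_lit 0, nat_lit 5752, nat_lit 0, nat_lit 0, nat_lit 4313, nat_lit 3145, nat_lit 257, nat_lit 0, nat_lit 0, nat_lit 0, nat_lit 0, nat_lit 0, nat_lit 0, nat_lit 0, nat_lit 0, nat_lit 498000, nat_lit 0, nat_lit 0, [(nat_lit 18, [(nat_lit 6, nat_lit 498)])],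
 ⟨p085_k25, nat_lit 0, nat_lit 0, nat_lit 247, nat_lit 0, nat_lit 566868, [nat_lit 1449340000, nat_lit 1794706401, nat_lit 1283386399], [], [nat_lit 16767463491, nat_lit 17052899180, nat_lit 16981464705, nat_lit 17271024474, nat_lit 18981167623, nat_lit 19280038124, nat_lit 19181900511, nat_lit 19466649359], nat_lit 1271250, nat_lit 1271250, nat_lit 490000, nat_lit 780000, nat_lit 1100001, nat_lit 1785000, [nat_lit 490000, nat_lit 780000, nat_lit 1435000], [nat_lit 85, nat_lit 40, nat_lit 40, nat_lit 80, nat_lit 16, nat_lit 317, nat_lit 100, nat_lit 11]⟩, ⟨p085_k61, nat_lit 0, nat_lit 0, nat_lit 82, nat_lit 0, nat_lit 0, [nat_lit 2353376000, nat_lit 3137500000, nat_lit 4940684000], [], [nat_lit 5655467154, nat_lit 6581403184, nat_lit 5760653528, nat_lit 6637086380, nat_lit 12374978718, nat_lit 12983401998, nat_lit 12136742698, nat_lit 12635822632], nat_lit 0, nat_lit 0, nat_lit 0, nat_lit 0, nat_lit 0, nat_lit 0,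 [], [nat_lit 11, nat_lit 40, nat_lit 40, nat_lit 80, nat_lit 1, nat_lit 428, nat_lit 200, nat_lit 12]⟩,
 ⟨nat_lit 4330, nat_lit 4473, ⟨.ofNat (nat_lit 360761), .ofNat (nat_lit 428739), .ofNat (nat_lit 382327), .ofNat (nat_lit 450305), .ofNat (nat_lit 363484), .ofNat (nat_lit 430602), .ofNat (nat_lit 385097), .ofNat (nat_lit 452215)⟩, ⟨.ofNat (nat_lit 324188), .ofNat (nat_lit 460144), .ofNat (nat_lit 345754), .ofNat (nat_lit 481711), .ofNat (nat_lit 324813), .ofNat (nat_lit 459048), .ofNat (nat_lit 346426), .ofNat (nat_lit 480662)⟩⟩, [⟨nat_lit 0, nat_lit 100, nat_lit 84, nat_lit 91, nat_lit 410720282⟩, ⟨nat_lit 19, nat_lit 100, nat_lit 69, nat_lit 96, nat_lit 285442498⟩]⟩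
noncomputable def p085_l100 : Lf2 := ⟨nat_lit 0, nat_lit 10, [nat_lit 0, nat_lit 5, nat_lit 5, nat_lit 20], false, nat_lit 240, nat_lit 300, nat_lit 160, nat_lit 240, ⟨nat_lit 1000, nat_lit 0, nat_lit 0, nat_lit 0, nat_lit 0, nat_lit 0, nat_lit 0, nat_lit 0, nat_lit 0, nat_lit 0, nat_lit 0, nat_lit 0, nat_lit 0, nat_lit 0, nat_lit 0, nat_lit 0, false, false⟩,
 nat_lit 0, nat_lit 7347, nat_lit 0, nat_lit 0, nat_lit 5510, nat_lit 100000, nat_lit 1113, nat_lit 0, nat_lit 0, nat_lit 0, nat_lit 0, nat_lit 0, nat_lit 0, nat_lit 0, nat_lit 0, nat_lit 0, nat_lit 0, nat_lit 49539186000, [],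
 ⟨p085_k25, nat_lit 0, nat_lit 0, nat_lit 258, nat_lit 0, nat_lit 566868, [nat_lit 2032000001, nat_lit 3282000000, nat_lit 6250000000], [], [nat_lit 20670531040, nat_lit 20990919905, nat_lit 20612837161, nat_lit 20935898986, nat_lit 23604976800, nat_lit 24043854957, nat_lit 23459745620, nat_lit 23761456267], nat_lit 1271250, nat_lit 1271250, nat_lit 490000, nat_lit 780000, nat_lit 1271250, nat_lit 1271250, [nat_lit 490000, nat_lit 780000, nat_lit 1435000], [nat_lit 85, nat_lit 40, nat_lit 40, nat_lit 80, nat_lit 16, nat_lit 238, nat_lit 30, nat_lit 8]⟩, ⟨p085_k61, nat_lit 0, nat_lit 0, nat_lit 7, nat_lit 0, nat_lit 0, [nat_lit 4688000000, nat_lit 6250000000, nat_lit 9842000000], [], [nat_lit 13883514000, nat_lit 36961898000, nat_lit 0, nat_lit 21680722000, nat_lit 52785598000, nat_lit 70855414000, nat_lit 36505736000, nat_lit 53434970000], nat_lit 0, nat_lit 0, nat_lit 0, nat_lit 0, nat_lit 0, nat_lit 0, [], [nat_lit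 11, nat_lit 40, nat_lit 40, nat_lit 80, nat_lit 1, nat_lit 401, nat_lit 175, nat_lit 11]⟩,
 zbF0, [⟨nat_lit 0, nat_lit 100, nat_lit 85, nat_lit 97, nat_lit 3255644994⟩, ⟨nat_lit 16, nat_lit 87, nat_lit 95, nat_lit 100, nat_lit 547566544⟩]⟩
noncomputable def p085_l101 : Lf2 := ⟨nat_lit 0, nat_lit 10, [nat_lit 0, nat_lit 5, nat_lit 5, nat_lit 20], false, nat_lit 240, nat_lit 300, nat_lit 240, nat_lit 320, ⟨nat_lit 1000, nat_lit 0, nat_lit 0, nat_lit 0, nat_lit 0, nat_lit 0, nat_lit 0, nat_lit 0, nat_lit 0, nat_lit 0, nat_lit 0, nat_lit 0, nat_lit 0, nat_lit 0, nat_lit 0, nat_lit 0, false, false⟩,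
 nat_lit 0, nat_lit 7291, nat_lit 0, nat_lit 0, nat_lit 5468, nat_lit 6719, nat_lit 1104, nat_lit 0, nat_lit 0, nat_lit 0, nat_lit 0, nat_lit 0, nat_lit 0, nat_lit 0, nat_lit 0, nat_lit 0, nat_lit 0, nat_lit 0, [],
 ⟨p085_k25, nat_lit 0, nat_lit 0, nat_lit 258, nat_lit 0, nat_lit 566868, [nat_lit 2032000001, nat_lit 3282000000, nat_lit 6250000000], [], [nat_lit 20824134209, nat_lit 21122977154, nat_lit 20776780961, nat_lit 21061347799, nat_lit 23690296440, nat_lit 24006093216, nat_lit 23552042216, nat_lit 23852551311], nat_lit 1271250, nat_lit 1271250, nat_lit 490000, nat_lit 780000, nat_lit 1271250, nat_lit 1271250, [nat_lit 490000, nat_lit 780000, nat_lit 1435000], [nat_lit 85, nat_lit 40, nat_lit 40, nat_lit 80, nat_lit 16, nat_lit 238, nat_lit 30, nat_lit 8]⟩, ⟨p085_k61, nat_lit 0, nat_lit 0, nat_lit 60, nat_lit 0, nat_lit 0, [nat_lit 4688000000, nat_lit 6250000000, nat_lit 9842000000], [], [nat_lit 15018266924,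 nat_lit 16613647220, nat_lit 14943417946, nat_lit 16453540176, nat_lit 21442892590, nat_lit 22857992572, nat_lit 21030566370, nat_lit 22195873300], nat_lit 0, nat_lit 0, nat_lit 0, nat_lit 0, nat_lit 0, nat_lit 0, [], [nat_lit 11, nat_lit 40, nat_lit 40, nat_lit 80, nat_lit 1, nat_lit 428, nat_lit 200, nat_lit 12]⟩,
 zbF0, [⟨nat_lit 0, nat_lit 100, nat_lit 85, nat_lit 97, nat_lit 458958001⟩, ⟨nat_lit 4, nat_lit 100, nat_lit 88, nat_lit 99, nat_lit 246440142⟩, ⟨nat_lit 23, nat_lit 100, nat_lit 82, nat_lit 92, nat_lit 340727872⟩]⟩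
noncomputable def p085_l102 : Lf2 := ⟨nat_lit 0, nat_lit 10, [nat_lit 0, nat_lit 5, nat_lit 5, nat_lit 20], false, nat_lit 240, nat_lit 300, nat_lit 320, nat_lit 352, ⟨nat_lit 1000, nat_lit 0, nat_lit 0, nat_lit 0, nat_lit 0, nat_lit 0, nat_lit 0, nat_lit 0, nat_lit 0, nat_lit 0, nat_lit 0, nat_lit 0, nat_lit 0, nat_lit 0, nat_lit 0, nat_lit 0, false, false⟩,
 nat_lit 0, nat_lit 7291, nat_lit 0, nat_lit 0, nat_lit 5468, nat_lit 6719, nat_lit 1127, nat_lit 0, nat_lit 0, nat_lit 0, nat_lit 0, nat_lit 0, nat_lit 0, nat_lit 0, nat_lit 0, nat_lit 0, nat_lit 0, nat_lit 0, [],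
 ⟨p085_k25, nat_lit 0, nat_lit 0, nat_lit 258, nat_lit 0, nat_lit 566868, [nat_lit 2032000001, nat_lit 3282000000, nat_lit 6250000000], [], [nat_lit 20736734209, nat_lit 21035967057, nat_lit 20739630289, nat_lit 21061347799, nat_lit 23690296440, nat_lit 24006093216, nat_lit 23552042216, nat_lit 23852551311], nat_lit 1271250, nat_lit 1271250, nat_lit 490000, nat_lit 780000, nat_lit 1271250, nat_lit 1271250, [nat_lit 490000, nat_lit 780000, nat_lit 1435000], [nat_lit 85, nat_lit 40, nat_lit 40, nat_lit 80, nat_lit 16, nat_lit 238, nat_lit 30, nat_lit 8]⟩, ⟨p085_k61, nat_lit 0, nat_lit 0, nat_lit 82, nat_lit 0, nat_lit 0, [nat_lit 4688000000, nat_lit 6250000000, nat_lit 9842000000], [], [nat_lit 21442892590, nat_lit 22857992572, nat_lit 21030566370, nat_lit 22195873300, nat_lit 25084805830, nat_lit 26338883748, nat_lit 24309465640, nat_lit 25507670191], nat_lit 0, nat_lit 0, nat_lit 0, nat_lit 0, nat_lit 0, nat_lit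 0, [], [nat_lit 11, nat_lit 40, nat_lit 40, nat_lit 80, nat_lit 1, nat_lit 317, nat_lit 100, nat_lit 8]⟩,
 zbF0, [⟨nat_lit 0, nat_lit 100, nat_lit 85, nat_lit 97, nat_lit 197058023⟩, ⟨nat_lit 16, nat_lit 88, nat_lit 100, nat_lit 99, nat_lit 11355451⟩, ⟨nat_lit 7, nat_lit 78, nat_lit 100, nat_lit 95, nat_lit 265223754⟩, ⟨nat_lit 23, nat_lit 100, nat_lit 82, nat_lit 92, nat_lit 612209556⟩]⟩
noncomputable def p085_l103 : Lf2 := ⟨nat_lit 0, nat_lit 5, [nat_lit 4, nat_lit 5, nat_lit 5, nat_lit 20], false, nat_lit 160, nat_lit 300, nat_lit 160, nat_lit 352, ⟨nat_lit 1000, nat_lit 0, nat_lit 0, nat_lit 0, nat_lit 0, nat_lit 0, nat_lit 0, nat_lit 0, nat_lit 0, nat_lit 0, nat_lit 0, nat_lit 0, nat_lit 0, nat_lit 0, nat_lit 0, nat_lit 0, false, false⟩,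
 nat_lit 0, nat_lit 7464, nat_lit 0, nat_lit 0, nat_lit 5597, nat_lit 6287, nat_lit 1214, nat_lit 0, nat_lit 0, nat_lit 0, nat_lit 0, nat_lit 0, nat_lit 0, nat_lit 0, nat_lit 0, nat_lit 0, nat_lit 0, nat_lit 0, [],
 ⟨p085_k0, nat_lit 0, nat_lit 0, nat_lit 235, nat_lit 0, nat_lit 534031, [nat_lit 2032000001, nat_lit 3282000000, nat_lit 6250000000], [], [nat_lit 17820521233, nat_lit 18047347186, nat_lit 18452953397, nat_lit 18666339692, nat_lit 23268559814, nat_lit 23451079559, nat_lit 23551851069, nat_lit 23723943004], nat_lit 1271250, nat_lit 1271250, nat_lit 780000, nat_lit 1100001, nat_lit 1100001, nat_lit 2298750, [nat_lit 490000, nat_lit 780000, nat_lit 1435000], [nat_lit 85, nat_lit 40, nat_lit 40, nat_lit 80, nat_lit 16, nat_lit 345, nat_lit 125, nat_lit 12]⟩, ⟨p085_k39, nat_lit 0, nat_lit 0, nat_lit 65, nat_lit 0, nat_lit 0, [nat_lit 4688000000, nat_lit 6250000000, nat_lit 7968000000], [], [nat_lit 11441543260,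 nat_lit 13191096356, nat_lit 12430647464, nat_lit 14062812152, nat_lit 24166407379, nat_lit 25162091611, nat_lit 24322355142, nat_lit 25254659675], nat_lit 0, nat_lit 0, nat_lit 0, nat_lit 0, nat_lit 0, nat_lit 0, [], [nat_lit 9, nat_lit 40, nat_lit 40, nat_lit 80, nat_lit 2, nat_lit 373, nat_lit 150, nat_lit 12]⟩,
 zbF0, [⟨nat_lit 16, nat_lit 88, nat_lit 100, nat_lit 99, nat_lit 64432916⟩, ⟨nat_lit 7, nat_lit 78, nat_lit 100, nat_lit 95, nat_lit 197426900⟩, ⟨nat_lit 11, nat_lit 85, nat_lit 85, nat_lit 100, nat_lit 419422445⟩]⟩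
noncomputable def p085_l104 : Lf2 := ⟨nat_lit 0, nat_lit 5, [nat_lit 4, nat_lit 5, nat_lit 5, nat_lit 20], false, nat_lit 160, nat_lit 296, nat_lit 160, nat_lit 352, ⟨nat_lit 1000, nat_lit 0, nat_lit 0, nat_lit 0, nat_lit 0, nat_lit 0, nat_lit 0, nat_lit 0, nat_lit 0, nat_lit 0, nat_lit 0, nat_lit 0, nat_lit 0, nat_lit 0, nat_lit 0, nat_lit 0, false, false⟩,
 nat_lit 0, nat_lit 6827, nat_lit 0, nat_lit 0, nat_lit 5180, nat_lit 6287, nat_lit 2474, nat_lit 0, nat_lit 0, nat_lit 0, nat_lit 0, nat_lit 0, nat_lit 0, nat_lit 0, nat_lit 0, nat_lit 0, nat_lit 0, nat_lit 0, [],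
 ⟨p085_k63, nat_lit 0, nat_lit 0, nat_lit 205, nat_lit 0, nat_lit 541833, [nat_lit 2032000001, nat_lit 3282000000, nat_lit 4688000000], [], [nat_lit 18039060019, nat_lit 18183697311, nat_lit 18678436277, nat_lit 18814640301, nat_lit 22969464595, nat_lit 23079964079, nat_lit 23291521615, nat_lit 23395864499], nat_lit 1271250, nat_lit 1271250, nat_lit 780000, nat_lit 1100001, nat_lit 1100001, nat_lit 2264500, [nat_lit 490000, nat_lit 780000, nat_lit 1100000], [nat_lit 78, nat_lit 40, nat_lit 40, nat_lit 80, nat_lit 22, nat_lit 249, nat_lit 40, nat_lit 10]⟩, ⟨p085_k39, nat_lit 0, nat_lit 0, nat_lit 65, nat_lit 0, nat_lit 0, [nat_lit 4688000000, nat_lit 6250000000, nat_lit 7968000000], [], [nat_lit 11441543260, nat_lit 13191096356, nat_lit 12430647464, nat_lit 14062812152, nat_lit 24166407379, nat_lit 25162091611, nat_lit 24322355142, nat_lit 25254659675], nat_lit 0, nat_lit 0, nat_lit 0, nat_lit 0, nat_lit 0, nat_lit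 0, [], [nat_lit 9, nat_lit 40, nat_lit 40, nat_lit 80, nat_lit 2, nat_lit 373, nat_lit 150, nat_lit 12]⟩,
 zbF0, [⟨nat_lit 4, nat_lit 100, nat_lit 87, nat_lit 98, nat_lit 32780407⟩, ⟨nat_lit 19, nat_lit 100, nat_lit 78, nat_lit 95, nat_lit 182475006⟩, ⟨nat_lit 11, nat_lit 85, nat_lit 85, nat_lit 100, nat_lit 436133386⟩]⟩
noncomputable def p085_l105 : Lf2 := ⟨nat_lit 0, nat_lit 10, [nat_lit 0, nat_lit 5, nat_lit 5, nat_lit 20], false, nat_lit 160, nat_lit 300, nat_lit 160, nat_lit 352, ⟨nat_lit 1000, nat_lit 0, nat_lit 0, nat_lit 0, nat_lit 0, nat_lit 0, nat_lit 0, nat_lit 0, nat_lit 0, nat_lit 0, nat_lit 0, nat_lit 0, nat_lit 0, nat_lit 0, nat_lit 0, nat_lit 0, false, false⟩,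
 nat_lit 0, nat_lit 6273, nat_lit 0, nat_lit 0, nat_lit 4704, nat_lit 6287, nat_lit 1080, nat_lit 0, nat_lit 0, nat_lit 0, nat_lit 0, nat_lit 0, nat_lit 0, nat_lit 0, nat_lit 0, nat_lit 0, nat_lit 0, nat_lit 0, [],
 ⟨p085_k25, nat_lit 0, nat_lit 0, nat_lit 138, nat_lit 0, nat_lit 279848, [nat_lit 2032000001, nat_lit 3282000000, nat_lit 6250000000], [], [nat_lit 17351651329, nat_lit 17755254620, nat_lit 17993092289, nat_lit 18361319768, nat_lit 22980934640, nat_lit 23286773342, nat_lit 23320822136, nat_lit 23647757531], nat_lit 1271250, nat_lit 1271250, nat_lit 780000, nat_lit 1100001, nat_lit 1100001, nat_lit 2298750, [nat_lit 490000, nat_lit 780000, nat_lit 1435000], [nat_lit 85, nat_lit 40, nat_lit 40, nat_lit 80, nat_lit 16, nat_lit 345, nat_lit 125, nat_lit 12]⟩, ⟨p085_k61, nat_lit 0, nat_lit 0, nat_lit 65, nat_lit 0, nat_lit 0, [nat_lit 4688000000, nat_lit 6250000000, nat_lit 9842000000], [], [nat_lit 11441543260,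 nat_lit 13191096356, nat_lit 12430647464, nat_lit 14062812152, nat_lit 24166407379, nat_lit 25162091611, nat_lit 24322355142, nat_lit 25254659675], nat_lit 0, nat_lit 0, nat_lit 0, nat_lit 0, nat_lit 0, nat_lit 0, [], [nat_lit 11, nat_lit 40, nat_lit 40, nat_lit 80, nat_lit 1, nat_lit 428, nat_lit 200, nat_lit 12]⟩,
 zbF0, [⟨nat_lit 16, nat_lit 88, nat_lit 100, nat_lit 99, nat_lit 17474580⟩, ⟨nat_lit 7, nat_lit 78, nat_lit 100, nat_lit 95, nat_lit 149583568⟩, ⟨nat_lit 11, nat_lit 85, nat_lit 85, nat_lit 100, nat_lit 472894404⟩]⟩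
noncomputable def p085_l106 : Lf2 := ⟨nat_lit 0, nat_lit 5, [nat_lit 4, nat_lit 5, nat_lit 5, nat_lit 20], false, nat_lit 160, nat_lit 296, nat_lit 160, nat_lit 352, ⟨nat_lit 1000, nat_lit 0, nat_lit 0, nat_lit 0, nat_lit 0, nat_lit 0, nat_lit 0, nat_lit 0, nat_lit 0, nat_lit 0, nat_lit 0, nat_lit 0, nat_lit 0, nat_lit 0, nat_lit 0, nat_lit 0, false, false⟩,
 nat_lit 0, nat_lit 6349, nat_lit 0, nat_lit 0, nat_lit 4854, nat_lit 6160, nat_lit 2272, nat_lit 0, nat_lit 0, nat_lit 0, nat_lit 0, nat_lit 0, nat_lit 0, nat_lit 0, nat_lit 0, nat_lit 0, nat_lit 0, nat_lit 0, [],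
 ⟨p085_k2, nat_lit 0, nat_lit 0, nat_lit 236, nat_lit 0, nat_lit 577003, [nat_lit 2032000001, nat_lit 3282000000, nat_lit 4688000000], [], [nat_lit 18246548689, nat_lit 18609958011, nat_lit 19088822541, nat_lit 19417501409, nat_lit 23254307966, nat_lit 23532523473, nat_lit 23592019096, nat_lit 23844981564], nat_lit 1271250, nat_lit 1271250, nat_lit 545600, nat_lit 1100001, nat_lit 1100001, nat_lit 2264500, [nat_lit 490000, nat_lit 780000, nat_lit 1100000], [nat_lit 78, nat_lit 40, nat_lit 40, nat_lit 80, nat_lit 22, nat_lit 249, nat_lit 40, nat_lit 10]⟩, ⟨p085_k39, nat_lit 0, nat_lit 0, nat_lit 79, nat_lit 0, nat_lit 0, [nat_lit 4688000000, nat_lit 6250000000, nat_lit 7968000000], [], [nat_lit 11458777265, nat_lit 13265044224, nat_lit 12626929520, nat_lit 14239863360, nat_lit 24588288368, nat_lit 25615382125, nat_lit 24396641760, nat_lit 25321284992], nat_lit 0, nat_lit 0, nat_lit 0, nat_lit 0, nat_lit 0, nat_lit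 0, [], [nat_lit 9, nat_lit 40, nat_lit 40, nat_lit 80, nat_lit 2, nat_lit 373, nat_lit 150, nat_lit 12]⟩,
 zbF0, [⟨nat_lit 0, nat_lit 100, nat_lit 82, nat_lit 93, nat_lit 254259373⟩, ⟨nat_lit 4, nat_lit 100, nat_lit 84, nat_lit 97, nat_lit 10410504⟩, ⟨nat_lit 19, nat_lit 100, nat_lit 78, nat_lit 95, nat_lit 155729928⟩, ⟨nat_lit 11, nat_lit 90, nat_lit 90, nat_lit 100, nat_lit 414388261⟩]⟩
noncomputable def p085_l107 : Lf2 := ⟨nat_lit 0, nat_lit 10, [nat_lit 0, nat_lit 5, nat_lit 5, nat_lit 20], false, nat_lit 160, nat_lit 296, nat_lit 160, nat_lit 352, ⟨nat_lit 1000, nat_lit 0, nat_lit 0, nat_lit 0, nat_lit 0, nat_lit 0, nat_lit 0, nat_lit 0, nat_lit 0, nat_lit 0, nat_lit 0, nat_lit 0, nat_lit 0, nat_lit 0, nat_lit 0, nat_lit 0, false, false⟩,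
 nat_lit 0, nat_lit 6514, nat_lit 0, nat_lit 0, nat_lit 4981, nat_lit 6160, nat_lit 1013, nat_lit 0, nat_lit 0, nat_lit 0, nat_lit 0, nat_lit 0, nat_lit 0, nat_lit 0, nat_lit 0, nat_lit 0, nat_lit 0, nat_lit 0, [],
 ⟨p085_k62, nat_lit 0, nat_lit 0, nat_lit 158, nat_lit 0, nat_lit 314322, [nat_lit 2032000001, nat_lit 3282000000, nat_lit 6250000000], [], [nat_lit 18339834037, nat_lit 18705842138, nat_lit 19003944099, nat_lit 19335010116, nat_lit 23345661524, nat_lit 23642595367, nat_lit 23469698412, nat_lit 23739525206], nat_lit 1271250, nat_lit 1271250, nat_lit 545600, nat_lit 1100001, nat_lit 1100001, nat_lit 2264500, [nat_lit 490000, nat_lit 780000, nat_lit 1435000], [nat_lit 85, nat_lit 40, nat_lit 40, nat_lit 80, nat_lit 16, nat_lit 345, nat_lit 125, nat_lit 12]⟩, ⟨p085_k61, nat_lit 0, nat_lit 0, nat_lit 79, nat_lit 0, nat_lit 0, [nat_lit 4688000000, nat_lit 6250000000, nat_lit 9842000000], [], [nat_lit 11458777265,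 nat_lit 13265044224, nat_lit 12626929520, nat_lit 14239863360, nat_lit 24588288368, nat_lit 25615382125, nat_lit 24396641760, nat_lit 25321284992], nat_lit 0, nat_lit 0, nat_lit 0, nat_lit 0, nat_lit 0, nat_lit 0, [], [nat_lit 11, nat_lit 40, nat_lit 40, nat_lit 80, nat_lit 1, nat_lit 428, nat_lit 200, nat_lit 12]⟩,
 zbF0, [⟨nat_lit 0, nat_lit 100, nat_lit 82, nat_lit 93, nat_lit 264109522⟩, ⟨nat_lit 19, nat_lit 100, nat_lit 78, nat_lit 95, nat_lit 147677237⟩, ⟨nat_lit 11, nat_lit 90, nat_lit 90, nat_lit 100, nat_lit 422888323⟩]⟩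
noncomputable def p085_l108 : Lf2 := ⟨nat_lit 0, nat_lit 5, [nat_lit 4, nat_lit 5, nat_lit 5, nat_lit 20], false, nat_lit 160, nat_lit 288, nat_lit 160, nat_lit 352, ⟨nat_lit 1000, nat_lit 0, nat_lit 0, nat_lit 0, nat_lit 0, nat_lit 0, nat_lit 0, nat_lit 0, nat_lit 0, nat_lit 0, nat_lit 0, nat_lit 0, nat_lit 0, nat_lit 0, nat_lit 0, nat_lit 0, false, false⟩,
 nat_lit 0, nat_lit 6015, nat_lit 0, nat_lit 0, nat_lit 4688, nat_lit 6312, nat_lit 2121, nat_lit 0, nat_lit 0, nat_lit 0, nat_lit 0, nat_lit 0, nat_lit 0, nat_lit 0, nat_lit 0, nat_lit 0, nat_lit 0, nat_lit 0, [],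
 ⟨p085_k3, nat_lit 0, nat_lit 0, nat_lit 280, nat_lit 0, nat_lit 713084, [nat_lit 2032000001, nat_lit 3282000000, nat_lit 4688000000], [], [nat_lit 18596171962, nat_lit 18935621725, nat_lit 19467362724, nat_lit 19776351372, nat_lit 23005410750, nat_lit 23272153227, nat_lit 23463254366, nat_lit 23719114106], nat_lit 1271250, nat_lit 1271250, nat_lit 573850, nat_lit 1100001, nat_lit 1100001, nat_lit 2196000, [nat_lit 490000, nat_lit 780000, nat_lit 1100000], [nat_lit 78, nat_lit 40, nat_lit 40, nat_lit 80, nat_lit 22, nat_lit 249, nat_lit 40, nat_lit 10]⟩, ⟨p085_k39, nat_lit 0, nat_lit 0, nat_lit 77, nat_lit 0, nat_lit 0, [nat_lit 4688000000, nat_lit 6250000000, nat_lit 7968000000], [], [nat_lit 11260451100, nat_lit 13083601540, nat_lit 12392009264, nat_lit 14027959552, nat_lit 24493248681, nat_lit 25693202259, nat_lit 24307731792, nat_lit 25241544455], nat_lit 0, nat_lit 0, nat_lit 0, nat_lit 0, nat_lit 0, nat_lit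 0, [], [nat_lit 9, nat_lit 40, nat_lit 40, nat_lit 80, nat_lit 2, nat_lit 373, nat_lit 150, nat_lit 12]⟩,
 zbF0, [⟨nat_lit 0, nat_lit 100, nat_lit 80, nat_lit 94, nat_lit 257807652⟩, ⟨nat_lit 4, nat_lit 100, nat_lit 79, nat_lit 91, nat_lit 34819113⟩, ⟨nat_lit 7, nat_lit 82, nat_lit 100, nat_lit 92, nat_lit 187280529⟩, ⟨nat_lit 11, nat_lit 89, nat_lit 89, nat_lit 100, nat_lit 397366710⟩]⟩
noncomputable def p085_l109 : Lf2 := ⟨nat_lit 0, nat_lit 5, [nat_lit 4, nat_lit 5, nat_lit 5, nat_lit 20], false, nat_lit 160, nat_lit 284, nat_lit 160, nat_lit 352, ⟨nat_lit 1000, nat_lit 0, nat_lit 0, nat_lit 0, nat_lit 0, nat_lit 0, nat_lit 0, nat_lit 0, nat_lit 0, nat_lit 0, nat_lit 0, nat_lit 0, nat_lit 0, nat_lit 0, nat_lit 0, nat_lit 0, false, false⟩,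
 nat_lit 0, nat_lit 5889, nat_lit 0, nat_lit 0, nat_lit 4678, nat_lit 6328, nat_lit 2054, nat_lit 0, nat_lit 0, nat_lit 0, nat_lit 0, nat_lit 0, nat_lit 0, nat_lit 0, nat_lit 0, nat_lit 0, nat_lit 0, nat_lit 0, [],
 ⟨p085_k21, nat_lit 0, nat_lit 0, nat_lit 287, nat_lit 0, nat_lit 736088, [nat_lit 2032000001, nat_lit 3282000000, nat_lit 4688000000], [], [nat_lit 18753810657, nat_lit 19108828066, nat_lit 19624057615, nat_lit 19948623690, nat_lit 23121004650, nat_lit 23401791539, nat_lit 23597012732, nat_lit 23854839472], nat_lit 1271250, nat_lit 1271250, nat_lit 602400, nat_lit 1100001, nat_lit 1100001, nat_lit 2161750, [nat_lit 490000, nat_lit 780000, nat_lit 1100000], [nat_lit 78, nat_lit 40, nat_lit 40, nat_lit 80, nat_lit 22, nat_lit 249, nat_lit 40, nat_lit 10]⟩, ⟨p085_k39, nat_lit 0, nat_lit 0, nat_lit 75, nat_lit 0, nat_lit 0, [nat_lit 4688000000, nat_lit 6250000000, nat_lit 7968000000], [], [nat_lit 11257432199,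 nat_lit 13073444711, nat_lit 12367280816, nat_lit 14005653888, nat_lit 24439313130, nat_lit 25635245548, nat_lit 24298372849, nat_lit 25235308263], nat_lit 0, nat_lit 0, nat_lit 0, nat_lit 0, nat_lit 0, nat_lit 0, [], [nat_lit 9, nat_lit 40, nat_lit 40, nat_lit 80, nat_lit 2, nat_lit 373, nat_lit 150, nat_lit 12]⟩,
 zbF0, [⟨nat_lit 0, nat_lit 100, nat_lit 77, nat_lit 91, nat_lit 295648670⟩, ⟨nat_lit 4, nat_lit 100, nat_lit 76, nat_lit 90, nat_lit 50939067⟩, ⟨nat_lit 19, nat_lit 100, nat_lit 69, nat_lit 96, nat_lit 198691577⟩, ⟨nat_lit 11, nat_lit 88, nat_lit 88, nat_lit 100, nat_lit 384541920⟩]⟩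
noncomputable def p085_l110 : Lf2 := ⟨nat_lit 0, nat_lit 10, [nat_lit 0, nat_lit 5, nat_lit 5, nat_lit 20], false, nat_lit 160, nat_lit 288, nat_lit 160, nat_lit 352, ⟨nat_lit 1000, nat_lit 0, nat_lit 0, nat_lit 0, nat_lit 0, nat_lit 0, nat_lit 0, nat_lit 0, nat_lit 0, nat_lit 0, nat_lit 0, nat_lit 0, nat_lit 0, nat_lit 0, nat_lit 0, nat_lit 0, false, false⟩,
 nat_lit 0, nat_lit 6236, nat_lit 0, nat_lit 0, nat_lit 4861, nat_lit 6312, nat_lit 1048, nat_lit 0, nat_lit 0, nat_lit 0, nat_lit 0, nat_lit 0, nat_lit 0, nat_lit 0, nat_lit 0, nat_lit 0, nat_lit 0, nat_lit 0, [],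
 ⟨p085_k64, nat_lit 0, nat_lit 0, nat_lit 238, nat_lit 0, nat_lit 500318, [nat_lit 2032000001, nat_lit 3282000000, nat_lit 6250000000], [], [nat_lit 19393763246, nat_lit 20031105697, nat_lit 19985570073, nat_lit 20566119137, nat_lit 23336732399, nat_lit 23836627614, nat_lit 23616384417, nat_lit 24131854744], nat_lit 1271250, nat_lit 1271250, nat_lit 573850, nat_lit 1100001, nat_lit 1100001, nat_lit 2196000, [nat_lit 490000, nat_lit 780000, nat_lit 1435000], [nat_lit 85, nat_lit 40, nat_lit 40, nat_lit 80, nat_lit 16, nat_lit 345, nat_lit 125, nat_lit 12]⟩, ⟨p085_k61, nat_lit 0, nat_lit 0, nat_lit 77, nat_lit 0, nat_lit 0, [nat_lit 4688000000, nat_lit 6250000000, nat_lit 9842000000], [], [nat_lit 11260451100, nat_lit 13083601540, nat_lit 12392009264, nat_lit 14027959552, nat_lit 24493248681, nat_lit 25693202259, nat_lit 24307731792, nat_lit 25241544455], nat_lit 0, nat_lit 0, nat_lit 0, nat_lit 0, nat_lit 0, nat_lit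 0, [], [nat_lit 11, nat_lit 40, nat_lit 40, nat_lit 80, nat_lit 1, nat_lit 428, nat_lit 200, nat_lit 12]⟩,
 zbF0, [⟨nat_lit 0, nat_lit 100, nat_lit 79, nat_lit 95, nat_lit 332337607⟩, ⟨nat_lit 4, nat_lit 100, nat_lit 77, nat_lit 91, nat_lit 57973961⟩, ⟨nat_lit 19, nat_lit 100, nat_lit 69, nat_lit 96, nat_lit 224230489⟩, ⟨nat_lit 11, nat_lit 89, nat_lit 89, nat_lit 100, nat_lit 354380301⟩]⟩
noncomputable def b_V_800_600_20_16 : St := ⟨true, nat_lit 1, nat_lit 0, nat_lit 1, nat_lit 120, nat_lit 320, nat_lit 340, nat_lit 260, nat_lit 280, nat_lit 64, nat_lit 160, nat_lit 80, nat_lit 120, nat_lit 160, nat_lit 300, nat_lit 0, nat_lit 364, nat_lit 0, nat_lit 40, nat_lit 0, nat_lit 0, nat_lit 0, nat_lit 0⟩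
theorem d_V_800_600_20_16 (h : EB TB.env) : Dead b_V_800_600_20_16 := chkB_sound0 h (T :=
(.trZ (nat_lit 0) (nat_lit 100) (nat_lit 84) (nat_lit 85) (nat_lit 80) (.trX (nat_lit 19) (nat_lit 100) (nat_lit 69) (nat_lit 96) (nat_lit 352) (.spl (nat_lit 5) (nat_lit 160)
(.leaf p085_l94)
(.spl (nat_lit 0) (nat_lit 330)
(.spl (nat_lit 3) (nat_lit 100)
(.trX (nat_lit 16) (nat_lit 87) (nat_lit 100) (nat_lit 94) (nat_lit 280) (.trX (nat_lit 19) (nat_lit 100) (nat_lit 77) (nat_lit 91) (nat_lit 336) (.spl (nat_lit 0) (nat_lit 325)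
(.spl (nat_lit 2) (nat_lit 120)
(.spl (nat_lit 1) (nat_lit 270)
(.leaf p085_l95)
(.trZ (nat_lit 0) (nat_lit 100) (nat_lit 85) (nat_lit 90) (nat_lit 92) (.trX (nat_lit 19) (nat_lit 100) (nat_lit 82) (nat_lit 92) (nat_lit 328) (.leaf p085_l96))))
(.leaf p085_l97))
(.trZ (nat_lit 0) (nat_lit 100) (nat_lit 82) (nat_lit 87) (nat_lit 88) (.trX (nat_lit 16) (nat_lit 84) (nat_lit 100) (nat_lit 93) (nat_lit 276) (.leaf p085_l98))))))
(.spl (nat_lit 0) (nat_lit 325)
(.spl (nat_lit 2) (nat_lit 120)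
(.spl (nat_lit 4) (nat_lit 240)
(.leaf p085_l99)
(.spl (nat_lit 5) (nat_lit 240)
(.leaf p085_l100)
(.spl (nat_lit 5) (nat_lit 320)
(.leaf p085_l101)
(.leaf p085_l102))))
(.spl (nat_lit 6) (nat_lit 20)
(.spl (nat_lit 0) (nat_lit 323)
(.leaf p085_l103)
(.trX (nat_lit 16) (nat_lit 86) (nat_lit 96) (nat_lit 100) (nat_lit 296) (.leaf p085_l104)))
(.leaf p085_l105)))
(.trZ (nat_lit 0) (nat_lit 100) (nat_lit 82) (nat_lit 87) (nat_lit 88) (.trX (nat_lit 16) (nat_lit 85) (nat_lit 97) (nat_lit 100) (nat_lit 296) (.spl (nat_lit 6) (nat_lit 20)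
(.leaf p085_l106)
(.leaf p085_l107))))))
(.trZ (nat_lit 0) (nat_lit 100) (nat_lit 80) (nat_lit 89) (nat_lit 92) (.trX (nat_lit 16) (nat_lit 83) (nat_lit 98) (nat_lit 100) (nat_lit 288) (.spl (nat_lit 6) (nat_lit 20)
(.spl (nat_lit 0) (nat_lit 335)
(.leaf p085_l108)
(.trZ (nat_lit 0) (nat_lit 100) (nat_lit 77) (nat_lit 91) (nat_lit 96) (.trX (nat_lit 16) (nat_lit 81) (nat_lit 100) (nat_lit 100) (nat_lit 284) (.leaf p085_l109))))
(.leaf p085_l110))))))))) (by decide +kernel)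
noncomputable def p085_l111 : Lf2 := ⟨nat_lit 0, nat_lit 10, [nat_lit 0, nat_lit 5, nat_lit 5, nat_lit 20], false, nat_lit 160, nat_lit 276, nat_lit 0, nat_lit 160, ⟨nat_lit 1000, nat_lit 0, nat_lit 0, nat_lit 0, nat_lit 0, nat_lit 0, nat_lit 0, nat_lit 0, nat_lit 0, nat_lit 0, nat_lit 0, nat_lit 0, nat_lit 0, nat_lit 0, nat_lit 0, nat_lit 0, false, false⟩,
 nat_lit 0, nat_lit 7349, nat_lit 0, nat_lit 2565, nat_lit 5949, nat_lit 8883, nat_lit 489, nat_lit 0, nat_lit 0, nat_lit 2035, nat_lit 0, nat_lit 0, nat_lit 0, nat_lit 0, nat_lit 0, nat_lit 0, nat_lit 0, nat_lit 0, [],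
 ⟨p085_k28, nat_lit 0, nat_lit 0, nat_lit 374, nat_lit 0, nat_lit 807609, [nat_lit 2032000001, nat_lit 4688000000, nat_lit 6250000000], [], [nat_lit 20224964320, nat_lit 21859658490, nat_lit 20467902356, nat_lit 21941187484, nat_lit 24089835591, nat_lit 26039462356, nat_lit 23906643746, nat_lit 25552664088], nat_lit 1271250, nat_lit 1271250, nat_lit 545600, nat_lit 1100001, nat_lit 1100001, nat_lit 2093250, [nat_lit 490000, nat_lit 1100000, nat_lit 1442500], [nat_lit 6, nat_lit 40, nat_lit 40, nat_lit 80, nat_lit 3, nat_lit 345, nat_lit 125, nat_lit 12]⟩, ⟨p085_k23, nat_lit 0, nat_lit 0, nat_lit 221, nat_lit 0, nat_lit 0, [nat_lit 4688000000, nat_lit 7968000000, nat_lit 11872000000], [], [nat_lit 19124092078, nat_lit 21376292574, nat_lit 19544013252, nat_lit 21550073120, nat_lit 14437718794, nat_lit 15971959112, nat_lit 14783009680, nat_lit 16137783256], nat_lit 0, nat_lit 0, nat_lit 0, nat_lit 0, nat_lit 0, nat_lit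 0, [], [nat_lit 21, nat_lit 40, nat_lit 40, nat_lit 80, nat_lit 14, nat_lit 373, nat_lit 150, nat_lit 10]⟩,
 zbF0, [⟨nat_lit 0, nat_lit 100, nat_lit 73, nat_lit 85, nat_lit 715975434⟩, ⟨nat_lit 16, nat_lit 77, nat_lit 100, nat_lit 99, nat_lit 498972857⟩]⟩
noncomputable def p085_l112 : Lf2 := ⟨nat_lit 0, nat_lit 5, [nat_lit 4, nat_lit 5, nat_lit 5, nat_lit 20], false, nat_lit 160, nat_lit 240, nat_lit 160, nat_lit 364, ⟨nat_lit 403, nat_lit 0, nat_lit 597, nat_lit 6, nat_lit 173, nat_lit 597, nat_lit 156, nat_lit 597, nat_lit 74869, nat_lit 282, nat_lit 32267, nat_lit 259, nat_lit 47741524, nat_lit 0, nat_lit 0, nat_lit 4280934, false, false⟩,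
 nat_lit 0, nat_lit 4360, nat_lit 0, nat_lit 0, nat_lit 3529, nat_lit 2522, nat_lit 0, nat_lit 0, nat_lit 0, nat_lit 0, nat_lit 0, nat_lit 0, nat_lit 0, nat_lit 0, nat_lit 0, nat_lit 597000, nat_lit 0, nat_lit 0, [(nat_lit 21, [(nat_lit 6, nat_lit 597)])],
 ⟨p085_k65, nat_lit 0, nat_lit 0, nat_lit 273, nat_lit 0, nat_lit 697031, [nat_lit 1271183200, nat_lit 741645601, nat_lit 196932199], [], [nat_lit 17909065819, nat_lit 18508101178, nat_lit 18909189784, nat_lit 19513860994, nat_lit 20286011206, nat_lit 20866865928, nat_lit 21147279154, nat_lit 21676752165], nat_lit 1271250, nat_lit 1271250, nat_lit 545600, nat_lit 1100001, nat_lit 1100001, nat_lit 1785000, [nat_lit 490000, nat_lit 780000, nat_lit 1100000], [nat_lit 78, nat_lit 40, nat_lit 40, nat_lit 80, nat_lit 22, nat_lit 249, nat_lit 40, nat_lit 10]⟩, ⟨p085_k1, nat_lit 0, nat_lit 0, nat_lit 82, nat_lit 0, nat_lit 0, [nat_lit 1889264000, nat_lit 2518750000, nat_lit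 3966326000], [], [nat_lit 3826127147, nat_lit 4561021531, nat_lit 4371576716, nat_lit 5027573330, nat_lit 9944436171, nat_lit 10402040449, nat_lit 9851227696, nat_lit 10207665870], nat_lit 0, nat_lit 0, nat_lit 0, nat_lit 0, nat_lit 0, nat_lit 0, [], [nat_lit 11, nat_lit 40, nat_lit 40, nat_lit 80, nat_lit 1, nat_lit 428, nat_lit 200, nat_lit 12]⟩,
 ⟨nat_lit 3535, nat_lit 3873, ⟨.ofNat (nat_lit 362897), .ofNat (nat_lit 479046), .ofNat (nat_lit 384684), .ofNat (nat_lit 500833), .ofNat (nat_lit 368144), .ofNat (nat_lit 481125), .ofNat (nat_lit 390090), .ofNat (nat_lit 503072)⟩, ⟨.ofNat (nat_lit 304717), .ofNat (nat_lit 433760), .ofNat (nat_lit 348304), .ofNat (nat_lit 477347), .ofNat (nat_lit 305521), .ofNat (nat_lit 431044), .ofNat (nat_lit 349427), .ofNat (nat_lit 474949)⟩⟩, [⟨nat_lit 0, nat_lit 100, nat_lit 71, nat_lit 90, nat_lit 288176761⟩, ⟨nat_lit 19, nat_lit 100, nat_lit 59, nat_lit 94, nat_lit 236334136⟩]⟩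
noncomputable def p085_l113 : Lf2 := ⟨nat_lit 0, nat_lit 5, [nat_lit 4, nat_lit 5, nat_lit 5, nat_lit 20], false, nat_lit 160, nat_lit 240, nat_lit 160, nat_lit 364, ⟨nat_lit 407, nat_lit 0, nat_lit 593, nat_lit 6, nat_lit 179, nat_lit 593, nat_lit 156, nat_lit 593, nat_lit 82355, nat_lit 285, nat_lit 32879, nat_lit 258, nat_lit 47340992, nat_lit 0, nat_lit 0, nat_lit 4328859, false, false⟩,
 nat_lit 0, nat_lit 4334, nat_lit 0, nat_lit 0, nat_lit 3640, nat_lit 2567, nat_lit 0, nat_lit 0, nat_lit 0, nat_lit 0, nat_lit 0, nat_lit 0, nat_lit 0, nat_lit 0, nat_lit 0, nat_lit 593000, nat_lit 0, nat_lit 0, [(nat_lit 21, [(nat_lit 6, nat_lit 593)])],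
 ⟨p085_k66, nat_lit 0, nat_lit 0, nat_lit 290, nat_lit 0, nat_lit 746259, [nat_lit 1276280800, nat_lit 758666401, nat_lit 226761799], [], [nat_lit 18973345880, nat_lit 19593406960, nat_lit 19842172720, nat_lit 20414570720, nat_lit 21207742200, nat_lit 21750222240, nat_lit 21900318080, nat_lit 22402533600], nat_lit 1271250, nat_lit 1271250, nat_lit 631250, nat_lit 1100001, nat_lit 1100001, nat_lit 1785000, [nat_lit 490000, nat_lit 780000, nat_lit 1100000], [nat_lit 78, nat_lit 40, nat_lit 40, nat_lit 80, nat_lit 22, nat_lit 249, nat_lit 40, nat_lit 10]⟩, ⟨p085_k1, nat_lit 0, nat_lit 0, nat_lit 77, nat_lit 0, nat_lit 0, [nat_lit 1908016000, nat_lit 2543750000, nat_lit 4005694000], [], [nat_lit 3868920592, nat_lit 4602525809, nat_lit 4381082756, nat_lit 5046614098, nat_lit 9977791661, nat_lit 10435579081, nat_lit 9938155772, nat_lit 10301119081], nat_lit 0, nat_lit 0, nat_lit 0, nat_lit 0, nat_lit 0, nat_lit 0, [],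 [nat_lit 11, nat_lit 40, nat_lit 40, nat_lit 80, nat_lit 1, nat_lit 428, nat_lit 200, nat_lit 12]⟩,
 ⟨nat_lit 3162, nat_lit 3536, ⟨.ofNat (nat_lit 386958), .ofNat (nat_lit 481116), .ofNat (nat_lit 408903), .ofNat (nat_lit 503061), .ofNat (nat_lit 391883), .ofNat (nat_lit 483329), .ofNat (nat_lit 414030), .ofNat (nat_lit 505476)⟩, ⟨.ofNat (nat_lit 305521), .ofNat (nat_lit 431044), .ofNat (nat_lit 349427), .ofNat (nat_lit 474949), .ofNat (nat_lit 306116), .ofNat (nat_lit 428022), .ofNat (nat_lit 350426), .ofNat (nat_lit 472332)⟩⟩, [⟨nat_lit 0, nat_lit 100, nat_lit 65, nat_lit 94, nat_lit 302224413⟩, ⟨nat_lit 19, nat_lit 100, nat_lit 59, nat_lit 94, nat_lit 241670249⟩]⟩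
noncomputable def p085_l114 : Lf2 := ⟨nat_lit 0, nat_lit 5, [nat_lit 4, nat_lit 5, nat_lit 5, nat_lit 20], false, nat_lit 240, nat_lit 276, nat_lit 160, nat_lit 364, ⟨nat_lit 1000, nat_lit 0, nat_lit 0, nat_lit 0, nat_lit 0, nat_lit 0, nat_lit 0, nat_lit 0, nat_lit 0, nat_lit 0, nat_lit 0, nat_lit 0, nat_lit 0, nat_lit 0, nat_lit 0, nat_lit 0, false, false⟩,
 nat_lit 0, nat_lit 5876, nat_lit 0, nat_lit 0, nat_lit 4756, nat_lit 6252, nat_lit 1972, nat_lit 0, nat_lit 0, nat_lit 0, nat_lit 0, nat_lit 0, nat_lit 0, nat_lit 0, nat_lit 0, nat_lit 0, nat_lit 0, nat_lit 0, [],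
 ⟨p085_k65, nat_lit 0, nat_lit 0, nat_lit 279, nat_lit 0, nat_lit 697031, [nat_lit 2032000001, nat_lit 3282000000, nat_lit 4688000000], [], [nat_lit 21232802344, nat_lit 21860175374, nat_lit 21863463910, nat_lit 22432715318, nat_lit 23050066273, nat_lit 23903868752, nat_lit 23268360743, nat_lit 23904433595], nat_lit 1271250, nat_lit 1271250, nat_lit 545600, nat_lit 1100001, nat_lit 1271250, nat_lit 1271250, [nat_lit 490000, nat_lit 780000, nat_lit 1100000], [nat_lit 78, nat_lit 40, nat_lit 40, nat_lit 80, nat_lit 22, nat_lit 249, nat_lit 40, nat_lit 10]⟩, ⟨p085_k1, nat_lit 0, nat_lit 0, nat_lit 82, nat_lit 0, nat_lit 0, [nat_lit 4688000000, nat_lit 6250000000, nat_lit 9842000000], [], [nat_lit 9503907709, nat_lit 11326397581, nat_lit 10857876096, nat_lit 12484740944, nat_lit 24673402276, nat_lit 25805197667, nat_lit 24448029312, nat_lit 25332162210], nat_lit 0, nat_lit 0, nat_lit 0, nat_lit 0, nat_lit 0, nat_lit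 0, [], [nat_lit 11, nat_lit 40, nat_lit 40, nat_lit 80, nat_lit 1, nat_lit 428, nat_lit 200, nat_lit 12]⟩,
 zbF0, [⟨nat_lit 0, nat_lit 100, nat_lit 71, nat_lit 90, nat_lit 227940609⟩, ⟨nat_lit 4, nat_lit 100, nat_lit 71, nat_lit 89, nat_lit 243617535⟩, ⟨nat_lit 23, nat_lit 100, nat_lit 66, nat_lit 97, nat_lit 567819867⟩]⟩
noncomputable def p085_l115 : Lf2 := ⟨nat_lit 0, nat_lit 5, [nat_lit 4, nat_lit 5, nat_lit 5, nat_lit 20], false, nat_lit 240, nat_lit 264, nat_lit 160, nat_lit 364, ⟨nat_lit 1000, nat_lit 0, nat_lit 0, nat_lit 0, nat_lit 0, nat_lit 0, nat_lit 0, nat_lit 0, nat_lit 0, nat_lit 0, nat_lit 0, nat_lit 0, nat_lit 0, nat_lit 0, nat_lit 0, nat_lit 0, false, false⟩,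
 nat_lit 0, nat_lit 5620, nat_lit 0, nat_lit 0, nat_lit 4720, nat_lit 6304, nat_lit 850, nat_lit 0, nat_lit 0, nat_lit 0, nat_lit 0, nat_lit 0, nat_lit 0, nat_lit 0, nat_lit 0, nat_lit 0, nat_lit 0, nat_lit 0, [],
 ⟨p085_k66, nat_lit 0, nat_lit 0, nat_lit 292, nat_lit 0, nat_lit 746259, [nat_lit 2032000001, nat_lit 3282000000, nat_lit 4688000000], [], [nat_lit 22084849095, nat_lit 22638389575, nat_lit 22561809446, nat_lit 23128898406, nat_lit 23086491052, nat_lit 23950522961, nat_lit 23468997627, nat_lit 24044322945], nat_lit 1271250, nat_lit 1271250, nat_lit 631250, nat_lit 1100001, nat_lit 1271250, nat_lit 1271250, [nat_lit 490000, nat_lit 780000, nat_lit 1100000], [nat_lit 78, nat_lit 40, nat_lit 40, nat_lit 80, nat_lit 22, nat_lit 249, nat_lit 40, nat_lit 10]⟩, ⟨p085_k1, nat_lit 0, nat_lit 0, nat_lit 77, nat_lit 0, nat_lit 0, [nat_lit 4688000000, nat_lit 6250000000, nat_lit 9842000000], [], [nat_lit 9511096544,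 nat_lit 11313026896, nat_lit 10769634592, nat_lit 12404373488, nat_lit 24512872163, nat_lit 25637219643, nat_lit 24419771503, nat_lit 25307668300], nat_lit 0, nat_lit 0, nat_lit 0, nat_lit 0, nat_lit 0, nat_lit 0, [], [nat_lit 11, nat_lit 40, nat_lit 40, nat_lit 80, nat_lit 1, nat_lit 428, nat_lit 200, nat_lit 12]⟩,
 zbF0, [⟨nat_lit 0, nat_lit 100, nat_lit 65, nat_lit 94, nat_lit 262526370⟩, ⟨nat_lit 16, nat_lit 69, nat_lit 100, nat_lit 96, nat_lit 256801790⟩, ⟨nat_lit 23, nat_lit 100, nat_lit 60, nat_lit 97, nat_lit 574152937⟩]⟩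
noncomputable def p085_l116 : Lf2 := ⟨nat_lit 0, nat_lit 10, [nat_lit 0, nat_lit 5, nat_lit 5, nat_lit 20], false, nat_lit 160, nat_lit 276, nat_lit 160, nat_lit 364, ⟨nat_lit 680, nat_lit 0, nat_lit 320, nat_lit 6, nat_lit 174, nat_lit 320, nat_lit 167, nat_lit 320, nat_lit 13749, nat_lit 240, nat_lit 32662, nat_lit 258, nat_lit 46833408, nat_lit 0, nat_lit 0, nat_lit 4403771, false, false⟩,
 nat_lit 0, nat_lit 4796, nat_lit 0, nat_lit 0, nat_lit 3882, nat_lit 4251, nat_lit 487, nat_lit 0, nat_lit 0, nat_lit 0, nat_lit 0, nat_lit 0, nat_lit 0, nat_lit 0, nat_lit 0, nat_lit 320000, nat_lit 0, nat_lit 0, [(nat_lit 21, [(nat_lit 6, nat_lit 320)])],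
 ⟨p085_k67, nat_lit 0, nat_lit 0, nat_lit 258, nat_lit 0, nat_lit 550400, [nat_lit 1624192001, nat_lit 1920336001, nat_lit 2900112000], [], [nat_lit 19479564976, nat_lit 20656325424, nat_lit 20284390938, nat_lit 21356051022, nat_lit 22861545171, nat_lit 23821294853, nat_lit 23355185743, nat_lit 24241520182], nat_lit 1271250, nat_lit 1271250, nat_lit 545600, nat_lit 1100001, nat_lit 1100001, nat_lit 2093250, [nat_lit 490000, nat_lit 780000, nat_lit 1435000], [nat_lit 85, nat_lit 40, nat_lit 40, nat_lit 80, nat_lit 16, nat_lit 345, nat_lit 125, nat_lit 12]⟩, ⟨p085_k60, nat_lit 0, nat_lit 0, nat_lit 82, nat_lit 0, nat_lit 0, [nat_lit 3187840000, nat_lit 4250000000, nat_lit 8072960000], [], [nat_lit 6463238731, nat_lit 7702468363, nat_lit 7383966648, nat_lit 8490180232, nat_lit 16778008475, nat_lit 17547159420, nat_lit 16624855563, nat_lit 17226046400], nat_lit 0, nat_lit 0, nat_lit 0, nat_lit 0, nat_lit 0, nat_lit 0,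 [], [nat_lit 48, nat_lit 40, nat_lit 40, nat_lit 80, nat_lit 12, nat_lit 428, nat_lit 200, nat_lit 11]⟩,
 ⟨nat_lit 3162, nat_lit 3873, ⟨.ofNat (nat_lit 362778), .ofNat (nat_lit 478975), .ofNat (nat_lit 384542), .ofNat (nat_lit 500739), .ofNat (nat_lit 373492), .ofNat (nat_lit 483267), .ofNat (nat_lit 395618), .ofNat (nat_lit 505392)⟩, ⟨.ofNat (nat_lit 304717), .ofNat (nat_lit 491830), .ofNat (nat_lit 348304), .ofNat (nat_lit 535416), .ofNat (nat_lit 306116), .ofNat (nat_lit 482881), .ofNat (nat_lit 350426), .ofNat (nat_lit 527190)⟩⟩, [⟨nat_lit 0, nat_lit 100, nat_lit 63, nat_lit 99, nat_lit 308526633⟩, ⟨nat_lit 4, nat_lit 100, nat_lit 67, nat_lit 88, nat_lit 193047262⟩, ⟨nat_lit 19, nat_lit 100, nat_lit 59, nat_lit 94, nat_lit 27186664⟩, ⟨nat_lit 11, nat_lit 47, nat_lit 100, nat_lit 93, nat_lit 375327058⟩]⟩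
noncomputable def p085_l117 : Lf2 := ⟨nat_lit 0, nat_lit 10, [nat_lit 0, nat_lit 5, nat_lit 5, nat_lit 20], false, nat_lit 160, nat_lit 276, nat_lit 0, nat_lit 160, ⟨nat_lit 1000, nat_lit 0, nat_lit 0, nat_lit 0, nat_lit 0, nat_lit 0, nat_lit 0, nat_lit 0, nat_lit 0, nat_lit 0, nat_lit 0, nat_lit 0, nat_lit 0, nat_lit 0, nat_lit 0, nat_lit 0, false, false⟩,
 nat_lit 0, nat_lit 7217, nat_lit 0, nat_lit 0, nat_lit 5842, nat_lit 8364, nat_lit 529, nat_lit 0, nat_lit 0, nat_lit 1687, nat_lit 0, nat_lit 0, nat_lit 0, nat_lit 0, nat_lit 0, nat_lit 0, nat_lit 0, nat_lit 0, [],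
 ⟨p085_k28, nat_lit 0, nat_lit 0, nat_lit 420, nat_lit 0, nat_lit 908859, [nat_lit 2032000001, nat_lit 4688000000, nat_lit 6250000000], [], [nat_lit 20008958861, nat_lit 21592785799, nat_lit 20332347848, nat_lit 21790302872, nat_lit 23775367104, nat_lit 25664170522, nat_lit 23759881491, nat_lit 25474310898], nat_lit 1271250, nat_lit 1271250, nat_lit 660400, nat_lit 1100001, nat_lit 1100001, nat_lit 2093250, [nat_lit 490000, nat_lit 1100000, nat_lit 1442500], [nat_lit 6, nat_lit 40, nat_lit 40, nat_lit 80, nat_lit 3, nat_lit 345, nat_lit 125, nat_lit 12]⟩, ⟨p085_k32, nat_lit 0, nat_lit 0, nat_lit 168, nat_lit 0, nat_lit 0, [nat_lit 4688000000, nat_lit 7968000000, nat_lit 9842000000], [], [nat_lit 18814107286, nat_lit 20669333253, nat_lit 18938498960, nat_lit 20867852704, nat_lit 14127523696, nat_lit 15572526698, nat_lit 14488231648, nat_lit 15797295856], nat_lit 0, nat_lit 0, nat_lit 0, nat_lit 0, nat_lit 0, nat_lit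 0, [], [nat_lit 29, nat_lit 40, nat_lit 40, nat_lit 80, nat_lit 17, nat_lit 373, nat_lit 150, nat_lit 11]⟩,
 zbF0, [⟨nat_lit 0, nat_lit 100, nat_lit 71, nat_lit 100, nat_lit 490211113⟩, ⟨nat_lit 0, nat_lit 100, nat_lit 75, nat_lit 92, nat_lit 223796323⟩, ⟨nat_lit 16, nat_lit 77, nat_lit 100, nat_lit 99, nat_lit 474241381⟩]⟩
noncomputable def p085_l118 : Lf2 := ⟨nat_lit 0, nat_lit 10, [nat_lit 0, nat_lit 5, nat_lit 5, nat_lit 20], false, nat_lit 160, nat_lit 276, nat_lit 160, nat_lit 352, ⟨nat_lit 1000, nat_lit 0, nat_lit 0, nat_lit 0, nat_lit 0, nat_lit 0, nat_lit 0, nat_lit 0, nat_lit 0, nat_lit 0, nat_lit 0, nat_lit 0, nat_lit 0, nat_lit 0, nat_lit 0, nat_lit 0, false, false⟩,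
 nat_lit 0, nat_lit 5763, nat_lit 0, nat_lit 0, nat_lit 4665, nat_lit 6360, nat_lit 1377, nat_lit 0, nat_lit 0, nat_lit 0, nat_lit 0, nat_lit 0, nat_lit 0, nat_lit 0, nat_lit 0, nat_lit 0, nat_lit 0, nat_lit 0, [],
 ⟨p085_k28, nat_lit 0, nat_lit 0, nat_lit 370, nat_lit 0, nat_lit 822642, [nat_lit 2032000001, nat_lit 4688000000, nat_lit 6250000000], [], [nat_lit 19371574709, nat_lit 20000445007, nat_lit 20033640550, nat_lit 20645081001, nat_lit 23125920577, nat_lit 23691052026, nat_lit 23590497921, nat_lit 24114349601], nat_lit 1271250, nat_lit 1271250, nat_lit 660400, nat_lit 1100001, nat_lit 1100001, nat_lit 2093250, [nat_lit 490000, nat_lit 1100000, nat_lit 1442500], [nat_lit 6, nat_lit 40, nat_lit 40, nat_lit 80, nat_lit 3, nat_lit 345, nat_lit 125, nat_lit 12]⟩, ⟨p085_k32, nat_lit 0, nat_lit 0, nat_lit 87, nat_lit 0, nat_lit 0, [nat_lit 4688000000, nat_lit 7968000000, nat_lit 9842000000], [], [nat_lit 11250241072,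 nat_lit 13051858592, nat_lit 12317823920, nat_lit 13961042560, nat_lit 24329484897, nat_lit 25516978874, nat_lit 24279654960, nat_lit 25256594689], nat_lit 0, nat_lit 0, nat_lit 0, nat_lit 0, nat_lit 0, nat_lit 0, [], [nat_lit 29, nat_lit 40, nat_lit 40, nat_lit 80, nat_lit 17, nat_lit 428, nat_lit 200, nat_lit 12]⟩,
 zbF0, [⟨nat_lit 0, nat_lit 100, nat_lit 74, nat_lit 98, nat_lit 469160956⟩, ⟨nat_lit 16, nat_lit 77, nat_lit 100, nat_lit 99, nat_lit 237101490⟩, ⟨nat_lit 19, nat_lit 100, nat_lit 69, nat_lit 96, nat_lit 376307715⟩, ⟨nat_lit 11, nat_lit 87, nat_lit 87, nat_lit 100, nat_lit 209855101⟩]⟩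
noncomputable def p085_l119 : Lf2 := ⟨nat_lit 0, nat_lit 10, [nat_lit 0, nat_lit 5, nat_lit 5, nat_lit 20], false, nat_lit 160, nat_lit 264, nat_lit 160, nat_lit 352, ⟨nat_lit 1000, nat_lit 0, nat_lit 0, nat_lit 0, nat_lit 0, nat_lit 0, nat_lit 0, nat_lit 0, nat_lit 0, nat_lit 0, nat_lit 0, nat_lit 0, nat_lit 0, nat_lit 0, nat_lit 0, nat_lit 0, false, false⟩,
 nat_lit 0, nat_lit 5839, nat_lit 0, nat_lit 0, nat_lit 4904, nat_lit 6410, nat_lit 757, nat_lit 0, nat_lit 0, nat_lit 0, nat_lit 0, nat_lit 0, nat_lit 0, nat_lit 0, nat_lit 0, nat_lit 0, nat_lit 0, nat_lit 0, [],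
 ⟨p085_k68, nat_lit 0, nat_lit 0, nat_lit 337, nat_lit 0, nat_lit 864559, [nat_lit 2032000001, nat_lit 3282000000, nat_lit 4688000000], [], [nat_lit 20078001451, nat_lit 20704150632, nat_lit 20640384278, nat_lit 21258418471, nat_lit 23104582542, nat_lit 23968216156, nat_lit 23495527588, nat_lit 24169467821], nat_lit 1271250, nat_lit 1271250, nat_lit 749650, nat_lit 1100001, nat_lit 1100001, nat_lit 1990500, [nat_lit 490000, nat_lit 780000, nat_lit 1100000], [nat_lit 78, nat_lit 40, nat_lit 40, nat_lit 80, nat_lit 22, nat_lit 249, nat_lit 40, nat_lit 10]⟩, ⟨p085_k61, nat_lit 0, nat_lit 0, nat_lit 67, nat_lit 0, nat_lit 0, [nat_lit 4688000000, nat_lit 6250000000, nat_lit 9842000000], [], [nat_lit 11233525059, nat_lit 13013587549, nat_lit 12240547520, nat_lit 13891337360, nat_lit 24158950233, nat_lit 25335349083, nat_lit 24250408260, nat_lit 25289854729], nat_lit 0, nat_lit 0, nat_lit 0, nat_lit 0, nat_lit 0, nat_lit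 0, [], [nat_lit 11, nat_lit 40, nat_lit 40, nat_lit 80, nat_lit 1, nat_lit 428, nat_lit 200, nat_lit 12]⟩,
 zbF0, [⟨nat_lit 0, nat_lit 100, nat_lit 69, nat_lit 96, nat_lit 695807105⟩, ⟨nat_lit 16, nat_lit 69, nat_lit 100, nat_lit 96, nat_lit 525553552⟩, ⟨nat_lit 19, nat_lit 100, nat_lit 69, nat_lit 96, nat_lit 567777841⟩]⟩
noncomputable def b_V_800_600_20_17 : St := ⟨true, nat_lit 1, nat_lit 0, nat_lit 1, nat_lit 120, nat_lit 340, nat_lit 360, nat_lit 240, nat_lit 280, nat_lit 64, nat_lit 160, nat_lit 80, nat_lit 120, nat_lit 160, nat_lit 300, nat_lit 0, nat_lit 364, nat_lit 0, nat_lit 40, nat_lit 0, nat_lit 0, nat_lit 0, nat_lit 0⟩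
theorem d_V_800_600_20_17 (h : EB TB.env) : Dead b_V_800_600_20_17 := chkB_sound0 h (T :=
(.trZ (nat_lit 0) (nat_lit 100) (nat_lit 73) (nat_lit 85) (nat_lit 88) (.trX (nat_lit 16) (nat_lit 77) (nat_lit 100) (nat_lit 99) (nat_lit 276) (.spl (nat_lit 1) (nat_lit 260)
(.spl (nat_lit 5) (nat_lit 160)
(.leaf p085_l111)
(.spl (nat_lit 6) (nat_lit 20)
(.spl (nat_lit 4) (nat_lit 240)
(.spl (nat_lit 0) (nat_lit 350)
(.leaf p085_l112)
(.trZ (nat_lit 0) (nat_lit 100) (nat_lit 68) (nat_lit 89) (nat_lit 100) (.leaf p085_l113)))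
(.spl (nat_lit 0) (nat_lit 350)
(.leaf p085_l114)
(.trZ (nat_lit 0) (nat_lit 100) (nat_lit 68) (nat_lit 89) (nat_lit 100) (.trX (nat_lit 16) (nat_lit 69) (nat_lit 100) (nat_lit 96) (nat_lit 264) (.leaf p085_l115)))))
(.leaf p085_l116)))
(.trZ (nat_lit 0) (nat_lit 100) (nat_lit 75) (nat_lit 92) (nat_lit 104) (.trX (nat_lit 19) (nat_lit 100) (nat_lit 69) (nat_lit 96) (nat_lit 352) (.spl (nat_lit 5) (nat_lit 160)
(.leaf p085_l117)
(.spl (nat_lit 0) (nat_lit 350)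
(.leaf p085_l118)
(.trZ (nat_lit 0) (nat_lit 100) (nat_lit 69) (nat_lit 96) (nat_lit 116) (.trX (nat_lit 16) (nat_lit 69) (nat_lit 100) (nat_lit 96) (nat_lit 264) (.leaf p085_l119))))))))))) (by decide +kernel)
noncomputable def p085_l120 : Lf2 := ⟨nat_lit 0, nat_lit 10, [nat_lit 0, nat_lit 5, nat_lit 5, nat_lit 20], false, nat_lit 160, nat_lit 300, nat_lit 0, nat_lit 160, ⟨nat_lit 1000, nat_lit 0, nat_lit 0, nat_lit 0, nat_lit 0, nat_lit 0, nat_lit 0, nat_lit 0, nat_lit 0, nat_lit 0, nat_lit 0, nat_lit 0, nat_lit 0, nat_lit 0, nat_lit 0, nat_lit 0, false, false⟩,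
 nat_lit 0, nat_lit 9396, nat_lit 0, nat_lit 0, nat_lit 7046, nat_lit 14655, nat_lit 472, nat_lit 0, nat_lit 0, nat_lit 2204, nat_lit 0, nat_lit 0, nat_lit 0, nat_lit 0, nat_lit 0, nat_lit 0, nat_lit 0, nat_lit 0, [],
 ⟨p085_k22, nat_lit 0, nat_lit 0, nat_lit 439, nat_lit 0, nat_lit 1008983, [nat_lit 2032000001, nat_lit 4688000000, nat_lit 6250000000], [], [nat_lit 24221321928, nat_lit 26014023256, nat_lit 25234780432, nat_lit 26944614080, nat_lit 26898070762, nat_lit 28384884674, nat_lit 27492239928, nat_lit 29310947208], nat_lit 1271250, nat_lit 1271250, nat_lit 1100001, nat_lit 1785000, nat_lit 1100001, nat_lit 2298750, [nat_lit 490000, nat_lit 1100000, nat_lit 1442500], [nat_lit 6, nat_lit 40, nat_lit 40, nat_lit 80, nat_lit 3, nat_lit 373, nat_lit 150, nat_lit 13]⟩, ⟨p085_k23, nat_lit 0, nat_lit 0, nat_lit 200, nat_lit 0, nat_lit 0, [nat_lit 4688000000, nat_lit 7968000000, nat_lit 11872000000], [], [nat_lit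 18365761900, nat_lit 22496601580, nat_lit 22500051300, nat_lit 29189951020, nat_lit 6135012720, nat_lit 10793026100, nat_lit 10768732400, nat_lit 14528601580], nat_lit 0, nat_lit 0, nat_lit 0, nat_lit 0, nat_lit 0, nat_lit 0, [], [nat_lit 21, nat_lit 40, nat_lit 40, nat_lit 80, nat_lit 14, nat_lit 401, nat_lit 175, nat_lit 10]⟩,
 zbF0, [⟨nat_lit 4, nat_lit 100, nat_lit 74, nat_lit 90, nat_lit 456902132⟩]⟩
noncomputable def p085_l121 : Lf2 := ⟨nat_lit 0, nat_lit 10, [nat_lit 0, nat_lit 5, nat_lit 5, nat_lit 20], false, nat_lit 160, nat_lit 300, nat_lit 160, nat_lit 364, ⟨nat_lit 1000, nat_lit 0, nat_lit 0, nat_lit 0, nat_lit 0, nat_lit 0, nat_lit 0, nat_lit 0, nat_lit 0, nat_lit 0, nat_lit 0, nat_lit 0, nat_lit 0, nat_lit 0, nat_lit 0, nat_lit 0, false, false⟩,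
 nat_lit 0, nat_lit 7748, nat_lit 0, nat_lit 0, nat_lit 5811, nat_lit 6182, nat_lit 1482, nat_lit 0, nat_lit 0, nat_lit 0, nat_lit 0, nat_lit 0, nat_lit 0, nat_lit 0, nat_lit 0, nat_lit 0, nat_lit 0, nat_lit 0, [],
 ⟨p085_k25, nat_lit 0, nat_lit 0, nat_lit 310, nat_lit 0, nat_lit 728851, [nat_lit 2032000001, nat_lit 3282000000, nat_lit 6250000000], [], [nat_lit 19358932925, nat_lit 19999633919, nat_lit 21437597421, nat_lit 21991811546, nat_lit 23821120597, nat_lit 24341334408, nat_lit 25570787375, nat_lit 26267766264], nat_lit 1271250, nat_lit 1271250, nat_lit 1100001, nat_lit 1785000, nat_lit 1100001, nat_lit 2298750, [nat_lit 490000, nat_lit 780000, nat_lit 1435000], [nat_lit 85, nat_lit 40, nat_lit 40, nat_lit 80, nat_lit 16, nat_lit 373, nat_lit 150, nat_lit 13]⟩, ⟨p085_k60, nat_lit 0, nat_lit 0, nat_lit 62, nat_lit 0, nat_lit 0, [nat_lit 4688000000, nat_lit 6250000000, nat_lit 11872000000], [], [nat_lit 10976662736,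 nat_lit 14209193072, nat_lit 14983061568, nat_lit 17675372840, nat_lit 24486068670, nat_lit 26246737801, nat_lit 26271157034, nat_lit 27938815539], nat_lit 0, nat_lit 0, nat_lit 0, nat_lit 0, nat_lit 0, nat_lit 0, [], [nat_lit 48, nat_lit 40, nat_lit 40, nat_lit 80, nat_lit 12, nat_lit 456, nat_lit 225, nat_lit 11]⟩,
 zbF0, [⟨nat_lit 16, nat_lit 87, nat_lit 95, nat_lit 100, nat_lit 430682477⟩, ⟨nat_lit 19, nat_lit 100, nat_lit 77, nat_lit 91, nat_lit 411803393⟩, ⟨nat_lit 19, nat_lit 100, nat_lit 59, nat_lit 94, nat_lit 165455329⟩]⟩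
noncomputable def p085_l122 : Lf2 := ⟨nat_lit 0, nat_lit 10, [nat_lit 0, nat_lit 5, nat_lit 5, nat_lit 20], false, nat_lit 160, nat_lit 288, nat_lit 160, nat_lit 364, ⟨nat_lit 1000, nat_lit 0, nat_lit 0, nat_lit 0, nat_lit 0, nat_lit 0, nat_lit 0, nat_lit 0, nat_lit 0, nat_lit 0, nat_lit 0, nat_lit 0, nat_lit 0, nat_lit 0, nat_lit 0, nat_lit 0, false, false⟩,
 nat_lit 0, nat_lit 6270, nat_lit 0, nat_lit 0, nat_lit 4887, nat_lit 6427, nat_lit 1529, nat_lit 0, nat_lit 0, nat_lit 0, nat_lit 0, nat_lit 0, nat_lit 0, nat_lit 0, nat_lit 0, nat_lit 0, nat_lit 0, nat_lit 0, [],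
 ⟨p085_k64, nat_lit 0, nat_lit 0, nat_lit 328, nat_lit 0, nat_lit 777478, [nat_lit 2032000001, nat_lit 3282000000, nat_lit 6250000000], [], [nat_lit 19706735907, nat_lit 20290838205, nat_lit 21668923266, nat_lit 22177514891, nat_lit 23395753937, nat_lit 23869644831, nat_lit 25150276540, nat_lit 25806596553], nat_lit 1271250, nat_lit 1271250, nat_lit 1100001, nat_lit 1785000, nat_lit 1100001, nat_lit 2196000, [nat_lit 490000, nat_lit 780000, nat_lit 1435000], [nat_lit 85, nat_lit 40, nat_lit 40, nat_lit 80, nat_lit 16, nat_lit 373, nat_lit 150, nat_lit 13]⟩, ⟨p085_k60, nat_lit 0, nat_lit 0, nat_lit 62, nat_lit 0, nat_lit 0, [nat_lit 4688000000, nat_lit 6250000000, nat_lit 11872000000], [], [nat_lit 10560909496, nat_lit 13867637592, nat_lit 14632374448, nat_lit 17381524740, nat_lit 24352930917, nat_lit 26436615551, nat_lit 26382662915, nat_lit 28117338072], nat_lit 0, nat_lit 0, nat_lit 0, nat_lit 0, nat_lit 0, nat_lit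 0, [], [nat_lit 48, nat_lit 40, nat_lit 40, nat_lit 80, nat_lit 12, nat_lit 456, nat_lit 225, nat_lit 11]⟩,
 zbF0, [⟨nat_lit 16, nat_lit 83, nat_lit 98, nat_lit 100, nat_lit 429483030⟩, ⟨nat_lit 19, nat_lit 100, nat_lit 59, nat_lit 94, nat_lit 585577126⟩]⟩
noncomputable def p085_l123 : Lf2 := ⟨nat_lit 0, nat_lit 10, [nat_lit 0, nat_lit 5, nat_lit 5, nat_lit 20], false, nat_lit 160, nat_lit 276, nat_lit 160, nat_lit 364, ⟨nat_lit 1000, nat_lit 0, nat_lit 0, nat_lit 0, nat_lit 0, nat_lit 0, nat_lit 0, nat_lit 0, nat_lit 0, nat_lit 0, nat_lit 0, nat_lit 0, nat_lit 0, nat_lit 0, nat_lit 0, nat_lit 0, false, false⟩,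
 nat_lit 0, nat_lit 5963, nat_lit 0, nat_lit 0, nat_lit 4827, nat_lit 6427, nat_lit 1776, nat_lit 0, nat_lit 0, nat_lit 0, nat_lit 0, nat_lit 0, nat_lit 0, nat_lit 0, nat_lit 0, nat_lit 0, nat_lit 0, nat_lit 0, [],
 ⟨p085_k28, nat_lit 0, nat_lit 0, nat_lit 402, nat_lit 0, nat_lit 908859, [nat_lit 2032000001, nat_lit 4688000000, nat_lit 6250000000], [], [nat_lit 20346253031, nat_lit 21572346239, nat_lit 22417424835, nat_lit 23485449719, nat_lit 23738207190, nat_lit 24731458613, nat_lit 25279720315, nat_lit 26550559671], nat_lit 1271250, nat_lit 1271250, nat_lit 1100001, nat_lit 1785000, nat_lit 1100001, nat_lit 2093250, [nat_lit 490000, nat_lit 1100000, nat_lit 1442500], [nat_lit 6, nat_lit 40, nat_lit 40, nat_lit 80, nat_lit 3, nat_lit 373, nat_lit 150, nat_lit 13]⟩, ⟨p085_k23, nat_lit 0, nat_lit 0, nat_lit 74, nat_lit 0, nat_lit 0, [nat_lit 4688000000, nat_lit 7968000000, nat_lit 11872000000], [], [nat_lit 10560909496,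 nat_lit 13867637592, nat_lit 14632374448, nat_lit 17381524740, nat_lit 24352930917, nat_lit 26436615551, nat_lit 26382662915, nat_lit 28117338072], nat_lit 0, nat_lit 0, nat_lit 0, nat_lit 0, nat_lit 0, nat_lit 0, [], [nat_lit 21, nat_lit 40, nat_lit 40, nat_lit 80, nat_lit 14, nat_lit 456, nat_lit 225, nat_lit 11]⟩,
 zbF0, [⟨nat_lit 4, nat_lit 100, nat_lit 67, nat_lit 88, nat_lit 593527885⟩, ⟨nat_lit 19, nat_lit 100, nat_lit 59, nat_lit 94, nat_lit 602034505⟩]⟩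
noncomputable def b_V_800_600_20_18 : St := ⟨true, nat_lit 1, nat_lit 0, nat_lit 1, nat_lit 120, nat_lit 320, nat_lit 360, nat_lit 240, nat_lit 280, nat_lit 160, nat_lit 240, nat_lit 80, nat_lit 120, nat_lit 160, nat_lit 300, nat_lit 0, nat_lit 364, nat_lit 0, nat_lit 40, nat_lit 0, nat_lit 0, nat_lit 0, nat_lit 0⟩
theorem d_V_800_600_20_18 (h : EB TB.env) : Dead b_V_800_600_20_18 := chkB_sound0 h (T :=
(.spl (nat_lit 5) (nat_lit 160)
(.leaf p085_l120)
(.spl (nat_lit 0) (nat_lit 340)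
(.spl (nat_lit 0) (nat_lit 330)
(.leaf p085_l121)
(.trX (nat_lit 16) (nat_lit 83) (nat_lit 98) (nat_lit 100) (nat_lit 288) (.leaf p085_l122)))
(.trX (nat_lit 16) (nat_lit 77) (nat_lit 100) (nat_lit 99) (nat_lit 276) (.leaf p085_l123))))) (by decide +kernel)
noncomputable def p085_l124 : Lf2 := ⟨nat_lit 0, nat_lit 10, [nat_lit 0, nat_lit 5, nat_lit 5, nat_lit 20], false, nat_lit 0, nat_lit 300, nat_lit 0, nat_lit 160, ⟨nat_lit 1000, nat_lit 0, nat_lit 0, nat_lit 0, nat_lit 0, nat_lit 0, nat_lit 0, nat_lit 0, nat_lit 0, nat_lit 0, nat_lit 0, nat_lit 0, nat_lit 0, nat_lit 0, nat_lit 0, nat_lit 0, false, false⟩,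
 nat_lit 0, nat_lit 7868, nat_lit 0, nat_lit 0, nat_lit 5900, nat_lit 7855, nat_lit 419, nat_lit 0, nat_lit 0, nat_lit 1296, nat_lit 0, nat_lit 0, nat_lit 0, nat_lit 0, nat_lit 0, nat_lit 0, nat_lit 0, nat_lit 0, [],
 ⟨p085_k22, nat_lit 0, nat_lit 0, nat_lit 450, nat_lit 0, nat_lit 819836, [nat_lit 2032000001, nat_lit 4688000000, nat_lit 6250000000], [], [nat_lit 33109754000, nat_lit 33936684600, nat_lit 38127171760, nat_lit 38764399241, nat_lit 32631124700, nat_lit 33193887700, nat_lit 36144553060, nat_lit 36546429810], nat_lit 1271250, nat_lit 1271250, nat_lit 1271250, nat_lit 1271250, nat_lit 0, nat_lit 2118750, [nat_lit 490000, nat_lit 1100000, nat_lit 1442500], [nat_lit 6, nat_lit 40, nat_lit 40, nat_lit 80, nat_lit 3, nat_lit 289, nat_lit 75, nat_lit 10]⟩, ⟨p085_k23, nat_lit 0, nat_lit 0, nat_lit 249, nat_lit 0, nat_lit 0, [nat_lit 4688000000, nat_lit 7968000000, nat_lit 11872000000], [], [nat_lit 26058550780,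 nat_lit 28357059440, nat_lit 38482636506, nat_lit 40047890612, nat_lit 20124624380, nat_lit 22059898120, nat_lit 31316828124, nat_lit 32655710381], nat_lit 0, nat_lit 0, nat_lit 0, nat_lit 0, nat_lit 0, nat_lit 0, [], [nat_lit 21, nat_lit 40, nat_lit 40, nat_lit 80, nat_lit 14, nat_lit 456, nat_lit 225, nat_lit 11]⟩,
 zbF0, [⟨nat_lit 16, nat_lit 81, nat_lit 100, nat_lit 92, nat_lit 133557295⟩, ⟨nat_lit 21, nat_lit 84, nat_lit 100, nat_lit 84, nat_lit 62525903⟩]⟩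
noncomputable def p085_l125 : Lf2 := ⟨nat_lit 0, nat_lit 10, [nat_lit 0, nat_lit 5, nat_lit 5, nat_lit 20], false, nat_lit 0, nat_lit 160, nat_lit 160, nat_lit 364, ⟨nat_lit 1000, nat_lit 0, nat_lit 0, nat_lit 0, nat_lit 0, nat_lit 0, nat_lit 0, nat_lit 0, nat_lit 0, nat_lit 0, nat_lit 0, nat_lit 0, nat_lit 0, nat_lit 0, nat_lit 0, nat_lit 0, false, false⟩,
 nat_lit 0, nat_lit 8152, nat_lit 0, nat_lit 0, nat_lit 6114, nat_lit 6019, nat_lit 477, nat_lit 0, nat_lit 0, nat_lit 0, nat_lit 0, nat_lit 0, nat_lit 0, nat_lit 0, nat_lit 0, nat_lit 0, nat_lit 0, nat_lit 0, [],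
 ⟨p085_k22, nat_lit 0, nat_lit 0, nat_lit 450, nat_lit 0, nat_lit 819836, [nat_lit 2032000001, nat_lit 4688000000, nat_lit 6250000000], [], [nat_lit 31854471880, nat_lit 32694172716, nat_lit 37982583226, nat_lit 39376135103, nat_lit 29336712640, nat_lit 30122800504, nat_lit 34149018906, nat_lit 34689808566], nat_lit 1271250, nat_lit 1271250, nat_lit 1271250, nat_lit 1271250, nat_lit 0, nat_lit 1100001, [nat_lit 490000, nat_lit 1100000, nat_lit 1442500], [nat_lit 6, nat_lit 40, nat_lit 40, nat_lit 80, nat_lit 3, nat_lit 249, nat_lit 40, nat_lit 9]⟩, ⟨p085_k23, nat_lit 0, nat_lit 0, nat_lit 100, nat_lit 0, nat_lit 0, [nat_lit 4688000000, nat_lit 7968000000, nat_lit 11872000000], [], [nat_lit 15216375856, nat_lit 17870871780, nat_lit 27285332246, nat_lit 29014956821, nat_lit 26363450112, nat_lit 27820695893, nat_lit 34524751570, nat_lit 35416298216], nat_lit 0, nat_lit 0, nat_lit 0, nat_lit 0, nat_lit 0, nat_lit 0,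 [], [nat_lit 21, nat_lit 40, nat_lit 40, nat_lit 80, nat_lit 14, nat_lit 538, nat_lit 300, nat_lit 13]⟩,
 zbF0, [⟨nat_lit 7, nat_lit 77, nat_lit 100, nat_lit 91, nat_lit 462473756⟩]⟩
noncomputable def p085_l126 : Lf2 := ⟨nat_lit 0, nat_lit 10, [nat_lit 0, nat_lit 5, nat_lit 5, nat_lit 20], false, nat_lit 160, nat_lit 300, nat_lit 160, nat_lit 364, ⟨nat_lit 1000, nat_lit 0, nat_lit 0, nat_lit 0, nat_lit 0, nat_lit 0, nat_lit 0, nat_lit 0, nat_lit 0, nat_lit 0, nat_lit 0, nat_lit 0, nat_lit 0, nat_lit 0, nat_lit 0, nat_lit 0, false, false⟩,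
 nat_lit 0, nat_lit 8682, nat_lit 0, nat_lit 0, nat_lit 6511, nat_lit 5823, nat_lit 471, nat_lit 0, nat_lit 0, nat_lit 0, nat_lit 0, nat_lit 0, nat_lit 0, nat_lit 0, nat_lit 0, nat_lit 0, nat_lit 0, nat_lit 0, [],
 ⟨p085_k22, nat_lit 0, nat_lit 0, nat_lit 330, nat_lit 0, nat_lit 728851, [nat_lit 2032000001, nat_lit 4688000000, nat_lit 6250000000], [], [nat_lit 25669849376, nat_lit 26132654504, nat_lit 31727437355, nat_lit 32357612250, nat_lit 28424292141, nat_lit 28796951402, nat_lit 34558407231, nat_lit 35022733624], nat_lit 1271250, nat_lit 1271250, nat_lit 1271250, nat_lit 1271250, nat_lit 1100001, nat_lit 2298750, [nat_lit 490000, nat_lit 1100000, nat_lit 1442500], [nat_lit 6, nat_lit 40, nat_lit 40, nat_lit 80, nat_lit 3, nat_lit 289, nat_lit 75, nat_lit 9]⟩, ⟨p085_k23, nat_lit 0, nat_lit 0, nat_lit 100, nat_lit 0, nat_lit 0, [nat_lit 4688000000, nat_lit 7968000000, nat_lit 11872000000], [], [nat_lit 15496925552,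 nat_lit 18105950260, nat_lit 27315410208, nat_lit 28805247856, nat_lit 26474428291, nat_lit 27917628282, nat_lit 34274221387, nat_lit 35167556102], nat_lit 0, nat_lit 0, nat_lit 0, nat_lit 0, nat_lit 0, nat_lit 0, [], [nat_lit 21, nat_lit 40, nat_lit 40, nat_lit 80, nat_lit 14, nat_lit 538, nat_lit 300, nat_lit 13]⟩,
 zbF0, [⟨nat_lit 16, nat_lit 87, nat_lit 95, nat_lit 100, nat_lit 361844607⟩, ⟨nat_lit 19, nat_lit 100, nat_lit 77, nat_lit 91, nat_lit 429855961⟩]⟩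
noncomputable def p085_l127 : Lf2 := ⟨nat_lit 0, nat_lit 10, [nat_lit 0, nat_lit 5, nat_lit 5, nat_lit 20], false, nat_lit 160, nat_lit 288, nat_lit 160, nat_lit 364, ⟨nat_lit 1000, nat_lit 0, nat_lit 0, nat_lit 0, nat_lit 0, nat_lit 0, nat_lit 0, nat_lit 0, nat_lit 0, nat_lit 0, nat_lit 0, nat_lit 0, nat_lit 0, nat_lit 0, nat_lit 0, nat_lit 0, false, false⟩,
 nat_lit 0, nat_lit 6418, nat_lit 0, nat_lit 0, nat_lit 5003, nat_lit 5260, nat_lit 1749, nat_lit 0, nat_lit 0, nat_lit 0, nat_lit 0, nat_lit 0, nat_lit 0, nat_lit 0, nat_lit 0, nat_lit 0, nat_lit 0, nat_lit 0, [],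
 ⟨p085_k24, nat_lit 0, nat_lit 0, nat_lit 346, nat_lit 0, nat_lit 777478, [nat_lit 2032000001, nat_lit 4688000000, nat_lit 6250000000], [], [nat_lit 23186306317, nat_lit 23597061849, nat_lit 30135285729, nat_lit 30697065205, nat_lit 25527872883, nat_lit 25875657664, nat_lit 32660891422, nat_lit 33098174005], nat_lit 1271250, nat_lit 1271250, nat_lit 1271250, nat_lit 1271250, nat_lit 1100001, nat_lit 2196000, [nat_lit 490000, nat_lit 1100000, nat_lit 1442500], [nat_lit 6, nat_lit 40, nat_lit 40, nat_lit 80, nat_lit 3, nat_lit 289, nat_lit 75, nat_lit 9]⟩, ⟨p085_k23, nat_lit 0, nat_lit 0, nat_lit 99, nat_lit 0, nat_lit 0, [nat_lit 4688000000, nat_lit 7968000000, nat_lit 11872000000], [], [nat_lit 16302790240, nat_lit 18781201200, nat_lit 27148525025, nat_lit 28622088704, nat_lit 26793207448, nat_lit 28196061620, nat_lit 33418356634, nat_lit 34232583683], nat_lit 0, nat_lit 0, nat_lit 0, nat_lit 0, nat_lit 0, nat_lit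 0, [], [nat_lit 21, nat_lit 40, nat_lit 40, nat_lit 80, nat_lit 14, nat_lit 538, nat_lit 300, nat_lit 13]⟩,
 zbF0, [⟨nat_lit 16, nat_lit 83, nat_lit 98, nat_lit 100, nat_lit 371285754⟩, ⟨nat_lit 19, nat_lit 100, nat_lit 59, nat_lit 94, nat_lit 396529931⟩]⟩
noncomputable def p085_l128 : Lf2 := ⟨nat_lit 0, nat_lit 10, [nat_lit 0, nat_lit 5, nat_lit 5, nat_lit 20], false, nat_lit 0, nat_lit 276, nat_lit 0, nat_lit 364, ⟨nat_lit 1000, nat_lit 0, nat_lit 0, nat_lit 0, nat_lit 0, nat_lit 0, nat_lit 0, nat_lit 0, nat_lit 0, nat_lit 0, nat_lit 0, nat_lit 0, nat_lit 0, nat_lit 0, nat_lit 0, nat_lit 0, false, false⟩,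
 nat_lit 0, nat_lit 6250, nat_lit 0, nat_lit 0, nat_lit 5059, nat_lit 7650, nat_lit 911, nat_lit 0, nat_lit 0, nat_lit 970, nat_lit 0, nat_lit 0, nat_lit 0, nat_lit 0, nat_lit 0, nat_lit 0, nat_lit 0, nat_lit 0, [],
 ⟨p085_k28, nat_lit 0, nat_lit 0, nat_lit 451, nat_lit 0, nat_lit 822642, [nat_lit 2032000001, nat_lit 4688000000, nat_lit 6250000000], [], [nat_lit 25082266246, nat_lit 26111833209, nat_lit 35671690044, nat_lit 36324499739, nat_lit 25821817149, nat_lit 26158697224, nat_lit 32582911081, nat_lit 33041063626], nat_lit 1271250, nat_lit 1271250, nat_lit 1271250, nat_lit 1271250, nat_lit 0, nat_lit 1949250, [nat_lit 490000, nat_lit 1100000, nat_lit 1442500], [nat_lit 6, nat_lit 40, nat_lit 40, nat_lit 80, nat_lit 3, nat_lit 289, nat_lit 75, nat_lit 10]⟩, ⟨p085_k23, nat_lit 0, nat_lit 0, nat_lit 246, nat_lit 0, nat_lit 0, [nat_lit 4688000000, nat_lit 7968000000, nat_lit 11872000000], [], [nat_lit 28178530400,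 nat_lit 30447582200, nat_lit 38600838521, nat_lit 39791974700, nat_lit 30333646071, nat_lit 31265927251, nat_lit 36335526234, nat_lit 36949629818], nat_lit 0, nat_lit 0, nat_lit 0, nat_lit 0, nat_lit 0, nat_lit 0, [], [nat_lit 21, nat_lit 40, nat_lit 40, nat_lit 80, nat_lit 14, nat_lit 538, nat_lit 300, nat_lit 13]⟩,
 zbF0, [⟨nat_lit 16, nat_lit 77, nat_lit 100, nat_lit 99, nat_lit 151216282⟩, ⟨nat_lit 7, nat_lit 77, nat_lit 100, nat_lit 91, nat_lit 172712087⟩]⟩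
noncomputable def p085_l129 : Lf2 := ⟨nat_lit 0, nat_lit 10, [nat_lit 0, nat_lit 5, nat_lit 5, nat_lit 20], false, nat_lit 4, nat_lit 264, nat_lit 0, nat_lit 364, ⟨nat_lit 1000, nat_lit 0, nat_lit 0, nat_lit 0, nat_lit 0, nat_lit 0, nat_lit 0, nat_lit 0, nat_lit 0, nat_lit 0, nat_lit 0, nat_lit 0, nat_lit 0, nat_lit 0, nat_lit 0, nat_lit 0, false, false⟩,
 nat_lit 0, nat_lit 5981, nat_lit 0, nat_lit 0, nat_lit 5023, nat_lit 7696, nat_lit 723, nat_lit 0, nat_lit 0, nat_lit 1043, nat_lit 0, nat_lit 0, nat_lit 0, nat_lit 0, nat_lit 0, nat_lit 0, nat_lit 0, nat_lit 0, [],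
 ⟨p085_k57, nat_lit 0, nat_lit 0, nat_lit 416, nat_lit 0, nat_lit 864559, [nat_lit 2032000001, nat_lit 4688000000], [], [nat_lit 25847637881, nat_lit 26870177568, nat_lit 35683572193, nat_lit 36342915070, nat_lit 25924156141, nat_lit 26280195409, nat_lit 32425576762, nat_lit 32901724235], nat_lit 1271250, nat_lit 1271250, nat_lit 1271250, nat_lit 1271250, nat_lit 21650, nat_lit 1867650, [nat_lit 490000, nat_lit 1100000], [nat_lit 24, nat_lit 40, nat_lit 40, nat_lit 80, nat_lit 33, nat_lit 289, nat_lit 75, nat_lit 12]⟩, ⟨p085_k23, nat_lit 0, nat_lit 0, nat_lit 244, nat_lit 0, nat_lit 0, [nat_lit 4688000000, nat_lit 7968000000, nat_lit 11872000000], [], [nat_lit 27703835156, nat_lit 29979496788, nat_lit 37823398267, nat_lit 39045977141, nat_lit 29957278656, nat_lit 31238401265, nat_lit 36103971774, nat_lit 36735682173], nat_lit 0, nat_lit 0, nat_lit 0, nat_lit 0, nat_lit 0, nat_lit 0, [], [nat_lit 21, nat_lit 40, nat_lit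 40, nat_lit 80, nat_lit 14, nat_lit 538, nat_lit 300, nat_lit 13]⟩,
 zbF0, [⟨nat_lit 16, nat_lit 69, nat_lit 100, nat_lit 96, nat_lit 160963040⟩, ⟨nat_lit 19, nat_lit 100, nat_lit 77, nat_lit 91, nat_lit 180758597⟩]⟩
noncomputable def b_V_800_600_20_19 : St := ⟨true, nat_lit 1, nat_lit 0, nat_lit 1, nat_lit 120, nat_lit 320, nat_lit 360, nat_lit 240, nat_lit 280, nat_lit 240, nat_lit 396, nat_lit 80, nat_lit 120, nat_lit 0, nat_lit 300, nat_lit 0, nat_lit 364, nat_lit 0, nat_lit 40, nat_lit 0, nat_lit 0, nat_lit 0, nat_lit 0⟩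
theorem d_V_800_600_20_19 (h : EB TB.env) : Dead b_V_800_600_20_19 := chkB_sound0 h (T :=
(.spl (nat_lit 0) (nat_lit 340)
(.spl (nat_lit 5) (nat_lit 160)
(.leaf p085_l124)
(.spl (nat_lit 4) (nat_lit 160)
(.leaf p085_l125)
(.spl (nat_lit 0) (nat_lit 330)
(.leaf p085_l126)
(.trX (nat_lit 13) (nat_lit 83) (nat_lit 32) (nat_lit 100) (nat_lit 392) (.trX (nat_lit 16) (nat_lit 83) (nat_lit 98) (nat_lit 100) (nat_lit 288) (.leaf p085_l127))))))
(.trX (nat_lit 13) (nat_lit 78) (nat_lit 39) (nat_lit 100) (nat_lit 388) (.trX (nat_lit 16) (nat_lit 77) (nat_lit 100) (nat_lit 99) (nat_lit 276) (.spl (nat_lit 0) (nat_lit 350)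
(.leaf p085_l128)
(.trX (nat_lit 13) (nat_lit 72) (nat_lit 46) (nat_lit 100) (nat_lit 384) (.trZ (nat_lit 3) (nat_lit 100) (nat_lit 83) (nat_lit 25) (nat_lit 4) (.trX (nat_lit 16) (nat_lit 69) (nat_lit 100) (nat_lit 96) (nat_lit 264) (.leaf p085_l129))))))))) (by decide +kernel)
noncomputable def p085_l130 : Lf2 := ⟨nat_lit 0, nat_lit 10, [nat_lit 0, nat_lit 5, nat_lit 5, nat_lit 20], false, nat_lit 0, nat_lit 160, nat_lit 0, nat_lit 364, ⟨nat_lit 0, nat_lit 0, nat_lit 1000, nat_lit 6, nat_lit 154, nat_lit 1000, nat_lit 65, nat_lit 1000, nat_lit 40017, nat_lit 264, nat_lit 153600, nat_lit 311, nat_lit 58308227, nat_lit 0, nat_lit 0, nat_lit 1929344, false, false⟩,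
 nat_lit 0, nat_lit 3709, nat_lit 0, nat_lit 0, nat_lit 2781, nat_lit 0, nat_lit 199, nat_lit 0, nat_lit 0, nat_lit 0, nat_lit 0, nat_lit 0, nat_lit 0, nat_lit 0, nat_lit 81, nat_lit 424000, nat_lit 0, nat_lit 0, [(nat_lit 18, [(nat_lit 5, nat_lit 960), (nat_lit 6, nat_lit 40)])],
 ⟨p085_k22, nat_lit 0, nat_lit 0, nat_lit 343, nat_lit 0, nat_lit 490017, [nat_lit 1582037334, nat_lit 848970667, nat_lit 18976000], [], [nat_lit 15874642647, nat_lit 17819035864, nat_lit 16429806295, nat_lit 17655548041, nat_lit 17059475324, nat_lit 18244744045, nat_lit 17684101230, nat_lit 18830693502], nat_lit 1271250, nat_lit 1271250, nat_lit 382400, nat_lit 780000, nat_lit 0, nat_lit 1100001, [nat_lit 490000, nat_lit 1100000, nat_lit 1442500], [nat_lit 6, nat_lit 40, nat_lit 40, nat_lit 80, nat_lit 3, nat_lit 289, nat_lit 75, nat_lit 11]⟩, ⟨p085_k23, nat_lit 0, nat_lit 0, nat_lit 691, nat_lit 0, nat_lit 762249, [nat_lit 0, nat_lit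 0, nat_lit 0], [], [nat_lit 0, nat_lit 0, nat_lit 0, nat_lit 0, nat_lit 0, nat_lit 0, nat_lit 0, nat_lit 0], nat_lit 1271250, nat_lit 1271250, nat_lit 382400, nat_lit 780000, nat_lit 0, nat_lit 2570750, [nat_lit 1100000, nat_lit 1785000, nat_lit 1271250], [nat_lit 21, nat_lit 40, nat_lit 40, nat_lit 80, nat_lit 14, nat_lit 428, nat_lit 200, nat_lit 11]⟩,
 ⟨nat_lit 3872, nat_lit 4473, ⟨.ofNat (nat_lit 311945), .ofNat (nat_lit 407125), .ofNat (nat_lit 355043), .ofNat (nat_lit 450223), .ofNat (nat_lit 324151), .ofNat (nat_lit 414492), .ofNat (nat_lit 367703), .ofNat (nat_lit 458043)⟩, ⟨.ofNat (nat_lit 0), .ofNat (nat_lit 302621), .ofNat (nat_lit 0), .ofNat (nat_lit 345754), .ofNat (nat_lit 0), .ofNat (nat_lit 304717), .ofNat (nat_lit 0), .ofNat (nat_lit 348304)⟩⟩, [⟨nat_lit 0, nat_lit 99, nat_lit 77, nat_lit 100, nat_lit 146617948⟩, ⟨nat_lit 3, nat_lit 100, nat_lit 78, nat_lit 39, nat_lit 49884075⟩]⟩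
noncomputable def p085_l131 : Lf2 := ⟨nat_lit 0, nat_lit 10, [nat_lit 0, nat_lit 5, nat_lit 5, nat_lit 20], false, nat_lit 0, nat_lit 160, nat_lit 0, nat_lit 364, ⟨nat_lit 0, nat_lit 0, nat_lit 1000, nat_lit 6, nat_lit 166, nat_lit 1000, nat_lit 65, nat_lit 1000, nat_lit 40017, nat_lit 264, nat_lit 109688, nat_lit 296, nat_lit 57148649, nat_lit 0, nat_lit 0, nat_lit 2087655, false, false⟩,
 nat_lit 0, nat_lit 3561, nat_lit 0, nat_lit 0, nat_lit 2882, nat_lit 0, nat_lit 0, nat_lit 0, nat_lit 0, nat_lit 0, nat_lit 0, nat_lit 0, nat_lit 0, nat_lit 0, nat_lit 148, nat_lit 641200, nat_lit 0, nat_lit 0, [(nat_lit 21, [(nat_lit 5, nat_lit 598), (nat_lit 6, nat_lit 402)])],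
 ⟨p085_k28, nat_lit 0, nat_lit 0, nat_lit 362, nat_lit 0, nat_lit 549297, [nat_lit 2073160001, nat_lit 644002401, nat_lit 311708800], [], [nat_lit 17761070238, nat_lit 19700246477, nat_lit 17826857406, nat_lit 19694780096, nat_lit 18618798227, nat_lit 19748222245, nat_lit 19017683506, nat_lit 20105964830], nat_lit 1271250, nat_lit 1271250, nat_lit 545600, nat_lit 780000, nat_lit 0, nat_lit 1100001, [nat_lit 490000, nat_lit 1100000, nat_lit 1442500], [nat_lit 6, nat_lit 40, nat_lit 40, nat_lit 80, nat_lit 3, nat_lit 289, nat_lit 75, nat_lit 11]⟩, ⟨p085_k23, nat_lit 0, nat_lit 0, nat_lit 744, nat_lit 0, nat_lit 938109, [nat_lit 0, nat_lit 0, nat_lit 0], [], [nat_lit 0, nat_lit 0, nat_lit 0, nat_lit 0, nat_lit 0, nat_lit 0, nat_lit 0, nat_lit 0], nat_lit 1271250, nat_lit 1271250, nat_lit 545600, nat_lit 780000, nat_lit 0, nat_lit 2570750, [nat_lit 1100000, nat_lit 1785000, nat_lit 1271250], [nat_lit 21, nat_lit 40,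 nat_lit 40, nat_lit 80, nat_lit 14, nat_lit 428, nat_lit 200, nat_lit 11]⟩,
 ⟨nat_lit 3162, nat_lit 3873, ⟨.ofNat (nat_lit 362778), .ofNat (nat_lit 414421), .ofNat (nat_lit 406307), .ofNat (nat_lit 457950), .ofNat (nat_lit 373492), .ofNat (nat_lit 422280), .ofNat (nat_lit 417744), .ofNat (nat_lit 466533)⟩, ⟨.ofNat (nat_lit 0), .ofNat (nat_lit 304717), .ofNat (nat_lit 0), .ofNat (nat_lit 348304), .ofNat (nat_lit 0), .ofNat (nat_lit 306116), .ofNat (nat_lit 0), .ofNat (nat_lit 350426)⟩⟩, [⟨nat_lit 0, nat_lit 100, nat_lit 69, nat_lit 96, nat_lit 527784418⟩, ⟨nat_lit 3, nat_lit 100, nat_lit 76, nat_lit 37, nat_lit 55036271⟩]⟩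
noncomputable def p085_l132 : Lf2 := ⟨nat_lit 0, nat_lit 10, [nat_lit 0, nat_lit 5, nat_lit 5, nat_lit 20], false, nat_lit 0, nat_lit 160, nat_lit 0, nat_lit 160, ⟨nat_lit 377, nat_lit 0, nat_lit 623, nat_lit 6, nat_lit 213, nat_lit 623, nat_lit 65, nat_lit 623, nat_lit 40017, nat_lit 264, nat_lit 37112, nat_lit 200, nat_lit 52226561, nat_lit 0, nat_lit 0, nat_lit 2637693, false, false⟩,
 nat_lit 5179, nat_lit 0, nat_lit 0, nat_lit 0, nat_lit 3884, nat_lit 2741, nat_lit 0, nat_lit 0, nat_lit 0, nat_lit 307, nat_lit 0, nat_lit 0, nat_lit 0, nat_lit 0, nat_lit 0, nat_lit 601400, nat_lit 0, nat_lit 0, [(nat_lit 18, [(nat_lit 5, nat_lit 36), (nat_lit 6, nat_lit 587)])],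
 ⟨p085_k22, nat_lit 0, nat_lit 0, nat_lit 319, nat_lit 0, nat_lit 490017, [nat_lit 1421564267, nat_lit 1024748534, nat_lit 12293200], [], [nat_lit 19069973063, nat_lit 19539515496, nat_lit 21288268320, nat_lit 23057278296, nat_lit 17888261085, nat_lit 18976389573, nat_lit 23263912524, nat_lit 21549724660], nat_lit 1271250, nat_lit 1271250, nat_lit 780000, nat_lit 1762500, nat_lit 0, nat_lit 1100001, [nat_lit 490000, nat_lit 1100000, nat_lit 1442500], [nat_lit 6, nat_lit 40, nat_lit 40, nat_lit 80, nat_lit 3, nat_lit 317, nat_lit 100, nat_lit 12]⟩, ⟨p085_k23, nat_lit 0, nat_lit 0, nat_lit 660, nat_lit 0, nat_lit 762249, [nat_lit 1767376000, nat_lit 3003936000, nat_lit 4475744000], [], [nat_lit 18195096080, nat_lit 16083965036, nat_lit 15802516268, nat_lit 16026530164, nat_lit 14302656384, nat_lit 14513164220, nat_lit 14295008688, nat_lit 14501069100], nat_lit 1271250, nat_lit 1271250, nat_lit 780000, nat_lit 1762500,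 nat_lit 0, nat_lit 1100001, [nat_lit 1100000, nat_lit 1785000, nat_lit 1271250], [nat_lit 21, nat_lit 40, nat_lit 40, nat_lit 80, nat_lit 14, nat_lit 401, nat_lit 175, nat_lit 10]⟩,
 ⟨nat_lit 3872, nat_lit 4473, ⟨.ofNat (nat_lit 407125), .ofNat (nat_lit 611083), .ofNat (nat_lit 450223), .ofNat (nat_lit 654181), .ofNat (nat_lit 414492), .ofNat (nat_lit 608080), .ofNat (nat_lit 458043), .ofNat (nat_lit 651631)⟩, ⟨.ofNat (nat_lit 0), .ofNat (nat_lit 302621), .ofNat (nat_lit 0), .ofNat (nat_lit 345754), .ofNat (nat_lit 0), .ofNat (nat_lit 304717), .ofNat (nat_lit 0), .ofNat (nat_lit 348304)⟩⟩, []⟩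
noncomputable def p085_l133 : Lf2 := ⟨nat_lit 0, nat_lit 10, [nat_lit 0, nat_lit 5, nat_lit 5, nat_lit 20], false, nat_lit 0, nat_lit 160, nat_lit 0, nat_lit 160, ⟨nat_lit 251, nat_lit 0, nat_lit 749, nat_lit 6, nat_lit 214, nat_lit 749, nat_lit 65, nat_lit 749, nat_lit 40017, nat_lit 264, nat_lit 31972, nat_lit 200, nat_lit 52114230, nat_lit 0, nat_lit 0, nat_lit 2648238, false, false⟩,
 nat_lit 3834, nat_lit 0, nat_lit 0, nat_lit 0, nat_lit 3103, nat_lit 2029, nat_lit 0, nat_lit 0, nat_lit 0, nat_lit 201, nat_lit 0, nat_lit 0, nat_lit 0, nat_lit 0, nat_lit 51, nat_lit 548000, nat_lit 0, nat_lit 0, [(nat_lit 21, [(nat_lit 5, nat_lit 335), (nat_lit 6, nat_lit 414)])],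
 ⟨p085_k28, nat_lit 0, nat_lit 0, nat_lit 350, nat_lit 0, nat_lit 549297, [nat_lit 1559174401, nat_lit 516390001, nat_lit 308744400], [], [nat_lit 18738087506, nat_lit 20146001984, nat_lit 22008139534, nat_lit 23287477724, nat_lit 19779086656, nat_lit 20902856602, nat_lit 23074257656, nat_lit 23545292766], nat_lit 1271250, nat_lit 1271250, nat_lit 780000, nat_lit 1762500, nat_lit 0, nat_lit 1100001, [nat_lit 490000, nat_lit 1100000, nat_lit 1442500], [nat_lit 6, nat_lit 40, nat_lit 40, nat_lit 80, nat_lit 3, nat_lit 317, nat_lit 100, nat_lit 12]⟩, ⟨p085_k23, nat_lit 0, nat_lit 0, nat_lit 728, nat_lit 0, nat_lit 938109, [nat_lit 1176688000, nat_lit 1999968000, nat_lit 2979872000], [], [nat_lit 12644144776, nat_lit 10807467124, nat_lit 10554901304, nat_lit 10688787252, nat_lit 9524828916, nat_lit 9631668660, nat_lit 9371495912, nat_lit 9449216756], nat_lit 1271250, nat_lit 1271250, nat_lit 780000, nat_lit 1762500,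 nat_lit 0, nat_lit 1100001, [nat_lit 1100000, nat_lit 1785000, nat_lit 1271250], [nat_lit 21, nat_lit 40, nat_lit 40, nat_lit 80, nat_lit 14, nat_lit 401, nat_lit 175, nat_lit 10]⟩,
 ⟨nat_lit 3162, nat_lit 3873, ⟨.ofNat (nat_lit 414421), .ofNat (nat_lit 608082), .ofNat (nat_lit 457950), .ofNat (nat_lit 651611), .ofNat (nat_lit 422280), .ofNat (nat_lit 605237), .ofNat (nat_lit 466533), .ofNat (nat_lit 649490)⟩, ⟨.ofNat (nat_lit 0), .ofNat (nat_lit 304717), .ofNat (nat_lit 0), .ofNat (nat_lit 348304), .ofNat (nat_lit 0), .ofNat (nat_lit 306116), .ofNat (nat_lit 0), .ofNat (nat_lit 350426)⟩⟩, [⟨nat_lit 0, nat_lit 100, nat_lit 69, nat_lit 96, nat_lit 19609348⟩]⟩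
noncomputable def p085_l134 : Lf2 := ⟨nat_lit 0, nat_lit 10, [nat_lit 0, nat_lit 5, nat_lit 5, nat_lit 20], false, nat_lit 0, nat_lit 160, nat_lit 160, nat_lit 364, ⟨nat_lit 238, nat_lit 0, nat_lit 762, nat_lit 6, nat_lit 208, nat_lit 762, nat_lit 65, nat_lit 762, nat_lit 40017, nat_lit 264, nat_lit 6667, nat_lit 202, nat_lit 52694980, nat_lit 0, nat_lit 0, nat_lit 2592835, false, false⟩,
 nat_lit 3947, nat_lit 426, nat_lit 0, nat_lit 0, nat_lit 3279, nat_lit 2089, nat_lit 0, nat_lit 0, nat_lit 0, nat_lit 186, nat_lit 0, nat_lit 0, nat_lit 0, nat_lit 0, nat_lit 39, nat_lit 585000, nat_lit 0, nat_lit 0, [(nat_lit 18, [(nat_lit 5, nat_lit 295), (nat_lit 6, nat_lit 467)])],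
 ⟨p085_k22, nat_lit 0, nat_lit 0, nat_lit 280, nat_lit 0, nat_lit 430316, [nat_lit 1564507467, nat_lit 1038658534, nat_lit 1792400], [], [nat_lit 17750408366, nat_lit 18509064244, nat_lit 20518087194, nat_lit 22014624926, nat_lit 18061535450, nat_lit 19176537362, nat_lit 22977157304, nat_lit 21858573994], nat_lit 1271250, nat_lit 1271250, nat_lit 780000, nat_lit 1762500, nat_lit 0, nat_lit 1100001, [nat_lit 490000, nat_lit 1100000, nat_lit 1442500], [nat_lit 6, nat_lit 40, nat_lit 40, nat_lit 80, nat_lit 3, nat_lit 317, nat_lit 100, nat_lit 12]⟩, ⟨p085_k23, nat_lit 0, nat_lit 0, nat_lit 488, nat_lit 0, nat_lit 669380, [nat_lit 1115744000, nat_lit 1896384000, nat_lit 2825536000], [], [nat_lit 11302375580, nat_lit 10180712098, nat_lit 6940647628, nat_lit 6998842772, nat_lit 7938261635, nat_lit 7993890879, nat_lit 7683658728, nat_lit 7739251230], nat_lit 1271250, nat_lit 1271250, nat_lit 780000, nat_lit 1762500, nat_lit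 1271250, nat_lit 1271250, [nat_lit 1100000, nat_lit 1785000, nat_lit 1271250], [nat_lit 21, nat_lit 40, nat_lit 40, nat_lit 80, nat_lit 14, nat_lit 456, nat_lit 225, nat_lit 11]⟩,
 ⟨nat_lit 3872, nat_lit 4473, ⟨.ofNat (nat_lit 407125), .ofNat (nat_lit 611083), .ofNat (nat_lit 428674), .ofNat (nat_lit 632632), .ofNat (nat_lit 414492), .ofNat (nat_lit 608080), .ofNat (nat_lit 436268), .ofNat (nat_lit 629856)⟩, ⟨.ofNat (nat_lit 0), .ofNat (nat_lit 302621), .ofNat (nat_lit 0), .ofNat (nat_lit 345754), .ofNat (nat_lit 0), .ofNat (nat_lit 304717), .ofNat (nat_lit 0), .ofNat (nat_lit 348304)⟩⟩, []⟩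
noncomputable def p085_l135 : Lf2 := ⟨nat_lit 0, nat_lit 10, [nat_lit 0, nat_lit 5, nat_lit 5, nat_lit 20], false, nat_lit 0, nat_lit 160, nat_lit 160, nat_lit 364, ⟨nat_lit 217, nat_lit 0, nat_lit 783, nat_lit 6, nat_lit 209, nat_lit 783, nat_lit 65, nat_lit 783, nat_lit 40017, nat_lit 264, nat_lit 7340, nat_lit 203, nat_lit 52589066, nat_lit 0, nat_lit 0, nat_lit 2603104, false, false⟩,
 nat_lit 3588, nat_lit 48, nat_lit 0, nat_lit 0, nat_lit 2943, nat_lit 1899, nat_lit 0, nat_lit 0, nat_lit 0, nat_lit 163, nat_lit 0, nat_lit 0, nat_lit 0, nat_lit 0, nat_lit 60, nat_lit 541800, nat_lit 0, nat_lit 0, [(nat_lit 21, [(nat_lit 5, nat_lit 402), (nat_lit 6, nat_lit 381)])],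
 ⟨p085_k28, nat_lit 0, nat_lit 0, nat_lit 334, nat_lit 0, nat_lit 502297, [nat_lit 1602584800, nat_lit 518861601, nat_lit 308734000], [], [nat_lit 18647720024, nat_lit 19828616860, nat_lit 21594989328, nat_lit 22972228444, nat_lit 19420105964, nat_lit 20439787712, nat_lit 22222864318, nat_lit 23204154792], nat_lit 1271250, nat_lit 1271250, nat_lit 780000, nat_lit 1762500, nat_lit 0, nat_lit 1100001, [nat_lit 490000, nat_lit 1100000, nat_lit 1442500], [nat_lit 6, nat_lit 40, nat_lit 40, nat_lit 80, nat_lit 3, nat_lit 317, nat_lit 100, nat_lit 12]⟩, ⟨p085_k23, nat_lit 0, nat_lit 0, nat_lit 565, nat_lit 0, nat_lit 857842, [nat_lit 1017296000, nat_lit 1729056000, nat_lit 2576224000], [], [nat_lit 10290361288, nat_lit 9270716026, nat_lit 6351421716, nat_lit 6442040544, nat_lit 7297040014, nat_lit 7347860334, nat_lit 7045850297, nat_lit 7073804957], nat_lit 1271250, nat_lit 1271250, nat_lit 780000, nat_lit 1762500, nat_lit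 1271250, nat_lit 1271250, [nat_lit 1100000, nat_lit 1785000, nat_lit 1271250], [nat_lit 21, nat_lit 40, nat_lit 40, nat_lit 80, nat_lit 14, nat_lit 456, nat_lit 225, nat_lit 11]⟩,
 ⟨nat_lit 3162, nat_lit 3873, ⟨.ofNat (nat_lit 414421), .ofNat (nat_lit 608082), .ofNat (nat_lit 436185), .ofNat (nat_lit 629847), .ofNat (nat_lit 422280), .ofNat (nat_lit 605237), .ofNat (nat_lit 444407), .ofNat (nat_lit 627364)⟩, ⟨.ofNat (nat_lit 0), .ofNat (nat_lit 304717), .ofNat (nat_lit 0), .ofNat (nat_lit 348304), .ofNat (nat_lit 0), .ofNat (nat_lit 306116), .ofNat (nat_lit 0), .ofNat (nat_lit 350426)⟩⟩, [⟨nat_lit 3, nat_lit 100, nat_lit 65, nat_lit 54, nat_lit 16784295⟩]⟩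
noncomputable def p085_l136 : Lf2 := ⟨nat_lit 0, nat_lit 10, [nat_lit 0, nat_lit 5, nat_lit 5, nat_lit 20], false, nat_lit 0, nat_lit 160, nat_lit 160, nat_lit 352, ⟨nat_lit 348, nat_lit 0, nat_lit 652, nat_lit 6, nat_lit 218, nat_lit 652, nat_lit 65, nat_lit 652, nat_lit 40017, nat_lit 264, nat_lit 36668, nat_lit 200, nat_lit 51703410, nat_lit 0, nat_lit 0, nat_lit 2686113, false, false⟩,
 nat_lit 5023, nat_lit 0, nat_lit 0, nat_lit 0, nat_lit 3767, nat_lit 2923, nat_lit 0, nat_lit 0, nat_lit 0, nat_lit 520, nat_lit 0, nat_lit 0, nat_lit 0, nat_lit 0, nat_lit 0, nat_lit 460000, nat_lit 0, nat_lit 0, [(nat_lit 18, [(nat_lit 5, nat_lit 320), (nat_lit 6, nat_lit 332)]), (nat_lit 21, [(nat_lit 5, nat_lit 320), (nat_lit 6, nat_lit 332)])],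
 ⟨p085_k22, nat_lit 0, nat_lit 0, nat_lit 368, nat_lit 0, nat_lit 603070, [nat_lit 1371799467, nat_lit 1087352534, nat_lit 398270400], [], [nat_lit 19675709523, nat_lit 21511420163, nat_lit 21792278235, nat_lit 24595762236, nat_lit 19461635093, nat_lit 21173601019, nat_lit 24810151533, nat_lit 23151444812], nat_lit 1271250, nat_lit 1271250, nat_lit 780000, nat_lit 1762500, nat_lit 0, nat_lit 1100001, [nat_lit 490000, nat_lit 1100000, nat_lit 1442500], [nat_lit 6, nat_lit 40, nat_lit 40, nat_lit 80, nat_lit 3, nat_lit 317, nat_lit 100, nat_lit 12]⟩, ⟨p085_k32, nat_lit 0, nat_lit 0, nat_lit 485, nat_lit 0, nat_lit 829531, [nat_lit 1631424000, nat_lit 2772864000, nat_lit 3425016000], [], [nat_lit 8715816054, nat_lit 7605587708, nat_lit 12457661926, nat_lit 11080326788, nat_lit 9172993468, nat_lit 9353830692, nat_lit 9527946740, nat_lit 9884607884], nat_lit 1271250, nat_lit 1271250, nat_lit 780000, nat_lit 1762500, nat_lit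 1271250, nat_lit 1271250, [nat_lit 1100000, nat_lit 1785000, nat_lit 1271250], [nat_lit 29, nat_lit 40, nat_lit 40, nat_lit 80, nat_lit 17, nat_lit 456, nat_lit 225, nat_lit 13]⟩,
 ⟨nat_lit 3162, nat_lit 4473, ⟨.ofNat (nat_lit 428316), .ofNat (nat_lit 632483), .ofNat (nat_lit 449792), .ofNat (nat_lit 653959), .ofNat (nat_lit 444131), .ofNat (nat_lit 627223), .ofNat (nat_lit 466195), .ofNat (nat_lit 649288)⟩, ⟨.ofNat (nat_lit 0), .ofNat (nat_lit 302621), .ofNat (nat_lit 0), .ofNat (nat_lit 345754), .ofNat (nat_lit 0), .ofNat (nat_lit 306116), .ofNat (nat_lit 0), .ofNat (nat_lit 350426)⟩⟩, [⟨nat_lit 0, nat_lit 94, nat_lit 62, nat_lit 100, nat_lit 45822459⟩, ⟨nat_lit 19, nat_lit 100, nat_lit 69, nat_lit 96, nat_lit 31499691⟩]⟩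
noncomputable def b_V_800_600_20_20 : St := ⟨true, nat_lit 1, nat_lit 1, nat_lit 1, nat_lit 120, nat_lit 320, nat_lit 360, nat_lit 240, nat_lit 280, nat_lit 64, nat_lit 240, nat_lit 80, nat_lit 120, nat_lit 0, nat_lit 160, nat_lit 0, nat_lit 364, nat_lit 0, nat_lit 40, nat_lit 0, nat_lit 0, nat_lit 0, nat_lit 0⟩
theorem d_V_800_600_20_20 (h : EB TB.env) : Dead b_V_800_600_20_20 := chkB_sound0 h (T :=
(.spl (nat_lit 2) (nat_lit 120)
(.spl (nat_lit 0) (nat_lit 340)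
(.leaf p085_l130)
(.trZ (nat_lit 0) (nat_lit 100) (nat_lit 73) (nat_lit 85) (nat_lit 88) (.leaf p085_l131)))
(.spl (nat_lit 5) (nat_lit 160)
(.spl (nat_lit 0) (nat_lit 340)
(.leaf p085_l132)
(.leaf p085_l133))
(.spl (nat_lit 1) (nat_lit 260)
(.spl (nat_lit 0) (nat_lit 340)
(.leaf p085_l134)
(.leaf p085_l135))
(.trX (nat_lit 19) (nat_lit 100) (nat_lit 69) (nat_lit 96) (nat_lit 352) (.leaf p085_l136)))))) (by decide +kernel)
noncomputable def p085_l137 : Lf2 := ⟨nat_lit 0, nat_lit 10, [nat_lit 0, nat_lit 5, nat_lit 5, nat_lit 20], false, nat_lit 160, nat_lit 240, nat_lit 0, nat_lit 160, ⟨nat_lit 193, nat_lit 0, nat_lit 807, nat_lit 6, nat_lit 167, nat_lit 807, nat_lit 157, nat_lit 807, nat_lit 67907, nat_lit 278, nat_lit 19328, nat_lit 248, nat_lit 48238979, nat_lit 0, nat_lit 0, nat_lit 4218490, false, false⟩,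
 nat_lit 3017, nat_lit 1434, nat_lit 0, nat_lit 0, nat_lit 3338, nat_lit 1597, nat_lit 0, nat_lit 0, nat_lit 0, nat_lit 191, nat_lit 0, nat_lit 0, nat_lit 0, nat_lit 0, nat_lit 44, nat_lit 538200, nat_lit 0, nat_lit 0, [(nat_lit 18, [(nat_lit 5, nat_lit 448), (nat_lit 6, nat_lit 359)])],
 ⟨p085_k22, nat_lit 0, nat_lit 0, nat_lit 222, nat_lit 0, nat_lit 435635, [nat_lit 1540722667, nat_lit 978247734, nat_lit 11533200], [], [nat_lit 16265136335, nat_lit 16905871078, nat_lit 17491476567, nat_lit 18060658753, nat_lit 18789596676, nat_lit 19349534790, nat_lit 19741827351, nat_lit 20242207092], nat_lit 1271250, nat_lit 1271250, nat_lit 382400, nat_lit 1100001, nat_lit 1100001, nat_lit 1785000, [nat_lit 490000, nat_lit 1100000, nat_lit 1442500], [nat_lit 6, nat_lit 40, nat_lit 40, nat_lit 80, nat_lit 3, nat_lit 317, nat_lit 100, nat_lit 11]⟩, ⟨p085_k23, nat_lit 0, nat_lit 0, nat_lit 659, nat_lit 0, nat_lit 677655, [nat_lit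 904784000, nat_lit 1537824000, nat_lit 2291296000], [], [nat_lit 9422174785, nat_lit 7722909293, nat_lit 7181920856, nat_lit 7396250668, nat_lit 6617645890, nat_lit 6779995886, nat_lit 7962105916, nat_lit 6496788148], nat_lit 1271250, nat_lit 1271250, nat_lit 382400, nat_lit 1100001, nat_lit 0, nat_lit 1100001, [nat_lit 1100000, nat_lit 1785000, nat_lit 1271250], [nat_lit 21, nat_lit 40, nat_lit 40, nat_lit 80, nat_lit 14, nat_lit 373, nat_lit 150, nat_lit 10]⟩,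
 ⟨nat_lit 4183, nat_lit 4473, ⟨.ofNat (nat_lit 311996), .ofNat (nat_lit 475145), .ofNat (nat_lit 355120), .ofNat (nat_lit 518271), .ofNat (nat_lit 318053), .ofNat (nat_lit 477068), .ofNat (nat_lit 361378), .ofNat (nat_lit 520394)⟩, ⟨.ofNat (nat_lit 302621), .ofNat (nat_lit 438578), .ofNat (nat_lit 345754), .ofNat (nat_lit 481711), .ofNat (nat_lit 303743), .ofNat (nat_lit 436254), .ofNat (nat_lit 347076), .ofNat (nat_lit 479587)⟩⟩, [⟨nat_lit 0, nat_lit 100, nat_lit 83, nat_lit 98, nat_lit 149366264⟩]⟩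
noncomputable def p085_l138 : Lf2 := ⟨nat_lit 0, nat_lit 10, [nat_lit 0, nat_lit 5, nat_lit 5, nat_lit 20], false, nat_lit 160, nat_lit 240, nat_lit 0, nat_lit 160, ⟨nat_lit 190, nat_lit 0, nat_lit 810, nat_lit 6, nat_lit 172, nat_lit 810, nat_lit 157, nat_lit 810, nat_lit 71594, nat_lit 280, nat_lit 19642, nat_lit 247, nat_lit 47804757, nat_lit 0, nat_lit 0, nat_lit 4273471, false, false⟩,
 nat_lit 3197, nat_lit 981, nat_lit 0, nat_lit 0, nat_lit 3256, nat_lit 1692, nat_lit 239, nat_lit 0, nat_lit 0, nat_lit 188, nat_lit 0, nat_lit 0, nat_lit 0, nat_lit 0, nat_lit 2, nat_lit 324000, nat_lit 0, nat_lit 0, [(nat_lit 18, [(nat_lit 5, nat_lit 810)])],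
 ⟨p085_k24, nat_lit 0, nat_lit 0, nat_lit 231, nat_lit 0, nat_lit 467346, [nat_lit 1154408000, nat_lit 587380000, nat_lit 8288000], [], [nat_lit 16968254895, nat_lit 17593959671, nat_lit 18132699791, nat_lit 18695576423, nat_lit 19379369895, nat_lit 19926907695, nat_lit 20307624807, nat_lit 20802223447], nat_lit 1271250, nat_lit 1271250, nat_lit 462650, nat_lit 1100001, nat_lit 1100001, nat_lit 1785000, [nat_lit 490000, nat_lit 1100000, nat_lit 1442500], [nat_lit 6, nat_lit 40, nat_lit 40, nat_lit 80, nat_lit 3, nat_lit 317, nat_lit 100, nat_lit 11]⟩, ⟨p085_k23, nat_lit 0, nat_lit 0, nat_lit 684, nat_lit 0, nat_lit 762249, [nat_lit 890720000, nat_lit 1513920000, nat_lit 2255680000], [], [nat_lit 8964679380, nat_lit 7190627825, nat_lit 6697248240, nat_lit 6917982448, nat_lit 6311958180, nat_lit 6158950112, nat_lit 7780497416, nat_lit 6228012968], nat_lit 1271250, nat_lit 1271250, nat_lit 462650, nat_lit 1100001, nat_lit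 0, nat_lit 1100001, [nat_lit 1100000, nat_lit 1785000, nat_lit 1271250], [nat_lit 21, nat_lit 40, nat_lit 40, nat_lit 80, nat_lit 14, nat_lit 373, nat_lit 150, nat_lit 10]⟩,
 ⟨nat_lit 3872, nat_lit 4184, ⟨.ofNat (nat_lit 337921), .ofNat (nat_lit 477065), .ofNat (nat_lit 381245), .ofNat (nat_lit 520388), .ofNat (nat_lit 343550), .ofNat (nat_lit 479052), .ofNat (nat_lit 387127), .ofNat (nat_lit 522628)⟩, ⟨.ofNat (nat_lit 303743), .ofNat (nat_lit 436254), .ofNat (nat_lit 347076), .ofNat (nat_lit 479587), .ofNat (nat_lit 304717), .ofNat (nat_lit 433760), .ofNat (nat_lit 348304), .ofNat (nat_lit 477347)⟩⟩, [⟨nat_lit 0, nat_lit 100, nat_lit 77, nat_lit 91, nat_lit 124951995⟩, ⟨nat_lit 4, nat_lit 100, nat_lit 77, nat_lit 91, nat_lit 36896494⟩]⟩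
noncomputable def p085_l139 : Lf2 := ⟨nat_lit 0, nat_lit 10, [nat_lit 0, nat_lit 5, nat_lit 5, nat_lit 20], false, nat_lit 160, nat_lit 240, nat_lit 0, nat_lit 160, ⟨nat_lit 155, nat_lit 0, nat_lit 845, nat_lit 6, nat_lit 179, nat_lit 845, nat_lit 156, nat_lit 845, nat_lit 74869, nat_lit 282, nat_lit 15897, nat_lit 244, nat_lit 47337935, nat_lit 0, nat_lit 0, nat_lit 4329506, false, false⟩,
 nat_lit 3186, nat_lit 701, nat_lit 0, nat_lit 0, nat_lit 3146, nat_lit 1686, nat_lit 0, nat_lit 0, nat_lit 0, nat_lit 47, nat_lit 0, nat_lit 0, nat_lit 0, nat_lit 0, nat_lit 120, nat_lit 714800, nat_lit 0, nat_lit 0, [(nat_lit 21, [(nat_lit 5, nat_lit 217), (nat_lit 6, nat_lit 628)])],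
 ⟨p085_k28, nat_lit 0, nat_lit 0, nat_lit 265, nat_lit 0, nat_lit 549297, [nat_lit 1962872000, nat_lit 717379601, nat_lit 373957200], [], [nat_lit 17651838685, nat_lit 18910284090, nat_lit 18788218016, nat_lit 19935139096, nat_lit 20064439585, nat_lit 21317392785, nat_lit 20994315396, nat_lit 22002507024], nat_lit 1271250, nat_lit 1271250, nat_lit 545600, nat_lit 1100001, nat_lit 1100001, nat_lit 1785000, [nat_lit 490000, nat_lit 1100000, nat_lit 1442500], [nat_lit 6, nat_lit 40, nat_lit 40, nat_lit 80, nat_lit 3, nat_lit 317, nat_lit 100, nat_lit 11]⟩, ⟨p085_k23, nat_lit 0, nat_lit 0, nat_lit 744, nat_lit 0, nat_lit 938109, [nat_lit 726640000, nat_lit 1235040000, nat_lit 1840160000], [], [nat_lit 7274295193, nat_lit 5697677825, nat_lit 5277259300, nat_lit 5385658080, nat_lit 4955844114, nat_lit 4496955197, nat_lit 6199678228, nat_lit 4652699044], nat_lit 1271250, nat_lit 1271250, nat_lit 545600, nat_lit 1100001,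 nat_lit 0, nat_lit 1100001, [nat_lit 1100000, nat_lit 1785000, nat_lit 1271250], [nat_lit 21, nat_lit 40, nat_lit 40, nat_lit 80, nat_lit 14, nat_lit 373, nat_lit 150, nat_lit 10]⟩,
 ⟨nat_lit 3162, nat_lit 3873, ⟨.ofNat (nat_lit 362778), .ofNat (nat_lit 478975), .ofNat (nat_lit 406307), .ofNat (nat_lit 522504), .ofNat (nat_lit 373492), .ofNat (nat_lit 483267), .ofNat (nat_lit 417744), .ofNat (nat_lit 527519)⟩, ⟨.ofNat (nat_lit 304717), .ofNat (nat_lit 433760), .ofNat (nat_lit 348304), .ofNat (nat_lit 477347), .ofNat (nat_lit 306116), .ofNat (nat_lit 428022), .ofNat (nat_lit 350426), .ofNat (nat_lit 472332)⟩⟩, [⟨nat_lit 0, nat_lit 100, nat_lit 69, nat_lit 96, nat_lit 131395118⟩, ⟨nat_lit 4, nat_lit 100, nat_lit 67, nat_lit 88, nat_lit 114413806⟩]⟩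
noncomputable def p085_l140 : Lf2 := ⟨nat_lit 0, nat_lit 10, [nat_lit 0, nat_lit 5, nat_lit 5, nat_lit 20], false, nat_lit 160, nat_lit 240, nat_lit 160, nat_lit 364, ⟨nat_lit 0, nat_lit 0, nat_lit 1000, nat_lit 6, nat_lit 163, nat_lit 999, nat_lit 157, nat_lit 999, nat_lit 67907, nat_lit 278, nat_lit 35831, nat_lit 261, nat_lit 48532144, nat_lit 0, nat_lit 0, nat_lit 4179839, false, false⟩,
 nat_lit 20, nat_lit 3857, nat_lit 0, nat_lit 0, nat_lit 2907, nat_lit 10, nat_lit 0, nat_lit 0, nat_lit 0, nat_lit 1, nat_lit 0, nat_lit 0, nat_lit 0, nat_lit 0, nat_lit 76, nat_lit 400000, nat_lit 0, nat_lit 6325780, [(nat_lit 18, [(nat_lit 5, nat_lit 1000)])],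
 ⟨p085_k22, nat_lit 0, nat_lit 0, nat_lit 225, nat_lit 0, nat_lit 430316, [nat_lit 1536800000, nat_lit 802000001, nat_lit 14800000], [], [nat_lit 15966897701, nat_lit 17220491253, nat_lit 17366016924, nat_lit 18549923274, nat_lit 18600989331, nat_lit 19767862885, nat_lit 19801597736, nat_lit 20841662936], nat_lit 1271250, nat_lit 1271250, nat_lit 382400, nat_lit 1100001, nat_lit 1100001, nat_lit 1785000, [nat_lit 490000, nat_lit 1100000, nat_lit 1442500], [nat_lit 6, nat_lit 40, nat_lit 40, nat_lit 80, nat_lit 3, nat_lit 317, nat_lit 100, nat_lit 11]⟩, ⟨p085_k23, nat_lit 0, nat_lit 0, nat_lit 520, nat_lit 0, nat_lit 669380, [nat_lit 0, nat_lit 0, nat_lit 0], [], [nat_lit 4740085, nat_lit 2903456, nat_lit 2311300, nat_lit 0, nat_lit 17952500, nat_lit 18802375, nat_lit 12683351, nat_lit 13386178], nat_lit 1271250, nat_lit 1271250, nat_lit 382400, nat_lit 1100001, nat_lit 1271250, nat_lit 1271250, [nat_lit 1100000,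 nat_lit 1785000, nat_lit 1271250], [nat_lit 21, nat_lit 40, nat_lit 40, nat_lit 80, nat_lit 14, nat_lit 428, nat_lit 200, nat_lit 11]⟩,
 ⟨nat_lit 3872, nat_lit 4473, ⟨.ofNat (nat_lit 311945), .ofNat (nat_lit 475111), .ofNat (nat_lit 333494), .ofNat (nat_lit 496660), .ofNat (nat_lit 324151), .ofNat (nat_lit 479021), .ofNat (nat_lit 345927), .ofNat (nat_lit 500797)⟩, ⟨.ofNat (nat_lit 302621), .ofNat (nat_lit 438578), .ofNat (nat_lit 345754), .ofNat (nat_lit 481711), .ofNat (nat_lit 304717), .ofNat (nat_lit 433760), .ofNat (nat_lit 348304), .ofNat (nat_lit 477347)⟩⟩, [⟨nat_lit 4, nat_lit 100, nat_lit 81, nat_lit 92, nat_lit 73844371⟩, ⟨nat_lit 19, nat_lit 100, nat_lit 72, nat_lit 89, nat_lit 283631⟩]⟩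
noncomputable def p085_l141 : Lf2 := ⟨nat_lit 0, nat_lit 10, [nat_lit 0, nat_lit 5, nat_lit 5, nat_lit 20], false, nat_lit 160, nat_lit 240, nat_lit 160, nat_lit 364, ⟨nat_lit 9, nat_lit 0, nat_lit 991, nat_lit 6, nat_lit 174, nat_lit 991, nat_lit 156, nat_lit 991, nat_lit 74869, nat_lit 282, nat_lit 32662, nat_lit 258, nat_lit 47696182, nat_lit 0, nat_lit 0, nat_lit 4286233, false, false⟩,
 nat_lit 168, nat_lit 3409, nat_lit 0, nat_lit 0, nat_lit 2895, nat_lit 88, nat_lit 0, nat_lit 0, nat_lit 0, nat_lit 10, nat_lit 0, nat_lit 0, nat_lit 0, nat_lit 0, nat_lit 146, nat_lit 643600, nat_lit 0, nat_lit 0, [(nat_lit 21, [(nat_lit 5, nat_lit 579), (nat_lit 6, nat_lit 412)])],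
 ⟨p085_k28, nat_lit 0, nat_lit 0, nat_lit 249, nat_lit 0, nat_lit 502297, [nat_lit 2064449601, nat_lit 647393201, nat_lit 316038000], [], [nat_lit 17263406167, nat_lit 18559659565, nat_lit 18451976294, nat_lit 19633734044, nat_lit 19757397324, nat_lit 21093374281, nat_lit 20742546364, nat_lit 21780864364], nat_lit 1271250, nat_lit 1271250, nat_lit 545600, nat_lit 1100001, nat_lit 1100001, nat_lit 1785000, [nat_lit 490000, nat_lit 1100000, nat_lit 1442500], [nat_lit 6, nat_lit 40, nat_lit 40, nat_lit 80, nat_lit 3, nat_lit 317, nat_lit 100, nat_lit 11]⟩, ⟨p085_k23, nat_lit 0, nat_lit 0, nat_lit 582, nat_lit 0, nat_lit 857842, [nat_lit 42192000, nat_lit 71712000, nat_lit 106848000], [], [nat_lit 367198451, nat_lit 320809603, nat_lit 296286720, nat_lit 253663216, nat_lit 281246418, nat_lit 284678723, nat_lit 265154203, nat_lit 267986843], nat_lit 1271250, nat_lit 1271250, nat_lit 545600, nat_lit 1100001, nat_lit 1271250,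 nat_lit 1271250, [nat_lit 1100000, nat_lit 1785000, nat_lit 1271250], [nat_lit 21, nat_lit 40, nat_lit 40, nat_lit 80, nat_lit 14, nat_lit 428, nat_lit 200, nat_lit 11]⟩,
 ⟨nat_lit 3162, nat_lit 3873, ⟨.ofNat (nat_lit 362778), .ofNat (nat_lit 478975), .ofNat (nat_lit 384542), .ofNat (nat_lit 500739), .ofNat (nat_lit 373492), .ofNat (nat_lit 483267), .ofNat (nat_lit 395618), .ofNat (nat_lit 505392)⟩, ⟨.ofNat (nat_lit 304717), .ofNat (nat_lit 433760), .ofNat (nat_lit 348304), .ofNat (nat_lit 477347), .ofNat (nat_lit 306116), .ofNat (nat_lit 428022), .ofNat (nat_lit 350426), .ofNat (nat_lit 472332)⟩⟩, [⟨nat_lit 4, nat_lit 100, nat_lit 67, nat_lit 88, nat_lit 86168875⟩, ⟨nat_lit 19, nat_lit 100, nat_lit 72, nat_lit 89, nat_lit 870302⟩]⟩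
noncomputable def p085_l142 : Lf2 := ⟨nat_lit 0, nat_lit 10, [nat_lit 0, nat_lit 5, nat_lit 5, nat_lit 20], false, nat_lit 160, nat_lit 240, nat_lit 160, nat_lit 352, ⟨nat_lit 303, nat_lit 0, nat_lit 697, nat_lit 6, nat_lit 177, nat_lit 697, nat_lit 157, nat_lit 697, nat_lit 67907, nat_lit 278, nat_lit 19503, nat_lit 247, nat_lit 47400613, nat_lit 0, nat_lit 0, nat_lit 4323024, false, false⟩,
 nat_lit 4257, nat_lit 714, nat_lit 0, nat_lit 0, nat_lit 3727, nat_lit 2477, nat_lit 0, nat_lit 0, nat_lit 0, nat_lit 485, nat_lit 0, nat_lit 0, nat_lit 0, nat_lit 0, nat_lit 2, nat_lit 497200, nat_lit 0, nat_lit 0, [(nat_lit 18, [(nat_lit 5, nat_lit 333), (nat_lit 6, nat_lit 364)])],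
 ⟨p085_k22, nat_lit 0, nat_lit 0, nat_lit 237, nat_lit 0, nat_lit 490017, [nat_lit 1326729334, nat_lit 863339067, nat_lit 12627200], [], [nat_lit 16946117055, nat_lit 18070719175, nat_lit 17839064847, nat_lit 18863715580, nat_lit 19067687779, nat_lit 20200887794, nat_lit 19832217330, nat_lit 20781111282], nat_lit 1271250, nat_lit 1271250, nat_lit 490000, nat_lit 1100001, nat_lit 1100001, nat_lit 1785000, [nat_lit 490000, nat_lit 1100000, nat_lit 1442500], [nat_lit 6, nat_lit 40, nat_lit 40, nat_lit 80, nat_lit 3, nat_lit 317, nat_lit 100, nat_lit 11]⟩, ⟨p085_k32, nat_lit 0, nat_lit 0, nat_lit 437, nat_lit 0, nat_lit 674024, [nat_lit 1420464000, nat_lit 2414304000, nat_lit 2982126000], [], [nat_lit 6716629804, nat_lit 6914312748, nat_lit 8169951386, nat_lit 6970196620, nat_lit 8310636854, nat_lit 8450865904, nat_lit 7857604907, nat_lit 8018555415], nat_lit 1271250, nat_lit 1271250, nat_lit 490000, nat_lit 1100001,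 nat_lit 1271250, nat_lit 1271250, [nat_lit 1100000, nat_lit 1785000, nat_lit 1271250], [nat_lit 29, nat_lit 40, nat_lit 40, nat_lit 80, nat_lit 17, nat_lit 428, nat_lit 200, nat_lit 12]⟩,
 ⟨nat_lit 3872, nat_lit 4473, ⟨.ofNat (nat_lit 360688), .ofNat (nat_lit 496660), .ofNat (nat_lit 382237), .ofNat (nat_lit 518209), .ofNat (nat_lit 371739), .ofNat (nat_lit 500797), .ofNat (nat_lit 393514), .ofNat (nat_lit 522572)⟩, ⟨.ofNat (nat_lit 302621), .ofNat (nat_lit 438578), .ofNat (nat_lit 345754), .ofNat (nat_lit 481711), .ofNat (nat_lit 304717), .ofNat (nat_lit 433760), .ofNat (nat_lit 348304), .ofNat (nat_lit 477347)⟩⟩, [⟨nat_lit 0, nat_lit 100, nat_lit 81, nat_lit 93, nat_lit 235793163⟩, ⟨nat_lit 19, nat_lit 100, nat_lit 82, nat_lit 92, nat_lit 70461977⟩]⟩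
noncomputable def p085_l143 : Lf2 := ⟨nat_lit 0, nat_lit 10, [nat_lit 0, nat_lit 5, nat_lit 5, nat_lit 20], false, nat_lit 160, nat_lit 240, nat_lit 160, nat_lit 352, ⟨nat_lit 266, nat_lit 0, nat_lit 734, nat_lit 6, nat_lit 188, nat_lit 734, nat_lit 156, nat_lit 734, nat_lit 74869, nat_lit 282, nat_lit 15897, nat_lit 244, nat_lit 46565938, nat_lit 0, nat_lit 0, nat_lit 4417912, false, false⟩,
 nat_lit 4065, nat_lit 0, nat_lit 0, nat_lit 0, nat_lit 3290, nat_lit 2365, nat_lit 0, nat_lit 0, nat_lit 0, nat_lit 286, nat_lit 0, nat_lit 0, nat_lit 0, nat_lit 0, nat_lit 32, nat_lit 486800, nat_lit 0, nat_lit 0, [(nat_lit 21, [(nat_lit 5, nat_lit 412), (nat_lit 6, nat_lit 322)])],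
 ⟨p085_k28, nat_lit 0, nat_lit 0, nat_lit 259, nat_lit 0, nat_lit 549297, [nat_lit 1443230401, nat_lit 449457601, nat_lit 287941600], [], [nat_lit 18300064507, nat_lit 19443679883, nat_lit 19082407603, nat_lit 20146022003, nat_lit 20418989599, nat_lit 21466918480, nat_lit 21051363743, nat_lit 22004617524], nat_lit 1271250, nat_lit 1271250, nat_lit 660400, nat_lit 1100001, nat_lit 1100001, nat_lit 1785000, [nat_lit 490000, nat_lit 1100000, nat_lit 1442500], [nat_lit 6, nat_lit 40, nat_lit 40, nat_lit 80, nat_lit 3, nat_lit 317, nat_lit 100, nat_lit 11]⟩, ⟨p085_k32, nat_lit 0, nat_lit 0, nat_lit 494, nat_lit 0, nat_lit 829531, [nat_lit 1247008000, nat_lit 2119488000, nat_lit 2617972000], [], [nat_lit 7831744219, nat_lit 6592574089, nat_lit 7234209066, nat_lit 6088702396, nat_lit 7323634242, nat_lit 7430852095, nat_lit 7039202109, nat_lit 7166093974], nat_lit 1271250, nat_lit 1271250, nat_lit 660400, nat_lit 1100001,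 nat_lit 1271250, nat_lit 1271250, [nat_lit 1100000, nat_lit 1785000, nat_lit 1271250], [nat_lit 29, nat_lit 40, nat_lit 40, nat_lit 80, nat_lit 17, nat_lit 428, nat_lit 200, nat_lit 12]⟩,
 ⟨nat_lit 3162, nat_lit 3873, ⟨.ofNat (nat_lit 410364), .ofNat (nat_lit 500739), .ofNat (nat_lit 432129), .ofNat (nat_lit 522504), .ofNat (nat_lit 420013), .ofNat (nat_lit 505392), .ofNat (nat_lit 442139), .ofNat (nat_lit 527519)⟩, ⟨.ofNat (nat_lit 304717), .ofNat (nat_lit 433760), .ofNat (nat_lit 348304), .ofNat (nat_lit 477347), .ofNat (nat_lit 306116), .ofNat (nat_lit 428022), .ofNat (nat_lit 350426), .ofNat (nat_lit 472332)⟩⟩, [⟨nat_lit 0, nat_lit 100, nat_lit 71, nat_lit 100, nat_lit 205489773⟩, ⟨nat_lit 16, nat_lit 67, nat_lit 100, nat_lit 88, nat_lit 26339234⟩, ⟨nat_lit 7, nat_lit 82, nat_lit 100, nat_lit 92, nat_lit 61784763⟩]⟩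
noncomputable def b_V_800_600_20_21 : St := ⟨true, nat_lit 1, nat_lit 1, nat_lit 1, nat_lit 120, nat_lit 320, nat_lit 360, nat_lit 240, nat_lit 280, nat_lit 64, nat_lit 160, nat_lit 80, nat_lit 120, nat_lit 160, nat_lit 240, nat_lit 0, nat_lit 364, nat_lit 0, nat_lit 40, nat_lit 0, nat_lit 0, nat_lit 0, nat_lit 0⟩
theorem d_V_800_600_20_21 (h : EB TB.env) : Dead b_V_800_600_20_21 := chkB_sound0 h (T :=
(.spl (nat_lit 5) (nat_lit 160)
(.spl (nat_lit 0) (nat_lit 340)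
(.spl (nat_lit 0) (nat_lit 330)
(.leaf p085_l137)
(.trZ (nat_lit 0) (nat_lit 100) (nat_lit 78) (nat_lit 81) (nat_lit 76) (.leaf p085_l138)))
(.trZ (nat_lit 0) (nat_lit 100) (nat_lit 73) (nat_lit 85) (nat_lit 88) (.leaf p085_l139)))
(.spl (nat_lit 1) (nat_lit 260)
(.spl (nat_lit 0) (nat_lit 340)
(.leaf p085_l140)
(.trZ (nat_lit 0) (nat_lit 100) (nat_lit 73) (nat_lit 85) (nat_lit 88) (.leaf p085_l141)))
(.trZ (nat_lit 0) (nat_lit 100) (nat_lit 84) (nat_lit 85) (nat_lit 80) (.trX (nat_lit 19) (nat_lit 100) (nat_lit 69) (nat_lit 96) (nat_lit 352) (.spl (nat_lit 0) (nat_lit 340)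
(.leaf p085_l142)
(.trZ (nat_lit 0) (nat_lit 100) (nat_lit 75) (nat_lit 92) (nat_lit 104) (.leaf p085_l143)))))))) (by decide +kernel)

end B2
end Pool.Agent.Lib.MP_6947cd_al
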