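import Pool.Agent.Lib.MP_6947cd_al.ZB.Pre

/-!
Problem MP_6947cd_al (Chollet).  Case B, second entry in [2/5, 17/20]: certificates of the tree, part P086 (generated).
-/

set_option autoImplicit false
set_option linter.all false

namespace Pool.Agent.Lib.MP_6947cd_al
namespace B2

open Ent Fr B1 PkA

noncomputable def p086_k0 : C1.Kn := ⟨[nat_lit 40, nat_lit 80, nat_lit 100], [nat_lit 0, nat_lit 0, nat_lit 1280], [(nat_lit 0, nat_lit 0, nat_lit 0), (nat_lit 0, nat_lit 0, nat_lit 0), (nat_lit 1000, nat_lit 800, nat_lit 600)], (nat_lit 80, nat_lit 100, nat_lit 60)⟩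
noncomputable def p086_k1 : C1.Kn := ⟨[nat_lit 80, nat_lit 120, nat_lit 160], [nat_lit 0, nat_lit 0, nat_lit 2132], [(nat_lit 0, nat_lit 0, nat_lit 0), (nat_lit 0, nat_lit 0, nat_lit 0), (nat_lit 858, nat_lit 1000, nat_lit 713)], (nat_lit 100, nat_lit 92, nat_lit 61)⟩
noncomputable def p086_k2 : C1.Kn := ⟨[nat_lit 40, nat_lit 60, nat_lit 80], [nat_lit 0, nat_lit 0, nat_lit 615], [(nat_lit 0, nat_lit 0, nat_lit 0), (nat_lit 0, nat_lit 0, nat_lit 0), (nat_lit 1000, nat_lit 819, nat_lit 426)], (nat_lit 85, nat_lit 100, nat_lit 30)⟩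
noncomputable def p086_k3 : C1.Kn := ⟨[nat_lit 40, nat_lit 80, nat_lit 100], [nat_lit 0, nat_lit 0, nat_lit 1280], [(nat_lit 0, nat_lit 0, nat_lit 0), (nat_lit 0, nat_lit 0, nat_lit 0), (nat_lit 1000, nat_lit 800, nat_lit 600)], (nat_lit 82, nat_lit 100, nat_lit 44)⟩
noncomputable def p086_k4 : C1.Kn := ⟨[nat_lit 40, nat_lit 80], [nat_lit 0, nat_lit 0], [(nat_lit 0, nat_lit 0, nat_lit 0), (nat_lit 0, nat_lit 0, nat_lit 0)], (nat_lit 85, nat_lit 100, nat_lit 30)⟩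
noncomputable def p086_k5 : C1.Kn := ⟨[nat_lit 80, nat_lit 120], [nat_lit 0, nat_lit 0], [(nat_lit 0, nat_lit 0, nat_lit 0), (nat_lit 0, nat_lit 0, nat_lit 0)], (nat_lit 98, nat_lit 100, nat_lit 28)⟩
noncomputable def p086_k6 : C1.Kn := ⟨[nat_lit 40, nat_lit 60], [nat_lit 0, nat_lit 0], [(nat_lit 0, nat_lit 0, nat_lit 0), (nat_lit 0, nat_lit 0, nat_lit 0)], (nat_lit 89, nat_lit 100, nat_lit 22)⟩
noncomputable def p086_k7 : C1.Kn := ⟨[nat_lit 80, nat_lit 100], [nat_lit 0, nat_lit 132], [(nat_lit 0, nat_lit 0, nat_lit 0), (nat_lit 1000, nat_lit 979, nat_lit 103)], (nat_lit 97, nat_lit 100, nat_lit 20)⟩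
noncomputable def p086_k8 : C1.Kn := ⟨[nat_lit 80, nat_lit 100], [nat_lit 0, nat_lit 0], [(nat_lit 0, nat_lit 0, nat_lit 0), (nat_lit 0, nat_lit 0, nat_lit 0)], (nat_lit 98, nat_lit 100, nat_lit 20)⟩
noncomputable def p086_k9 : C1.Kn := ⟨[nat_lit 80, nat_lit 100, nat_lit 120], [nat_lit 0, nat_lit 0, nat_lit 511], [(nat_lit 0, nat_lit 0, nat_lit 0), (nat_lit 0, nat_lit 0, nat_lit 0), (nat_lit 1000, nat_lit 997, nat_lit 383)], (nat_lit 98, nat_lit 100, nat_lit 28)⟩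
noncomputable def p086_k10 : C1.Kn := ⟨[nat_lit 40, nat_lit 60, nat_lit 100], [nat_lit 0, nat_lit 0, nat_lit 1216], [(nat_lit 0, nat_lit 0, nat_lit 0), (nat_lit 0, nat_lit 0, nat_lit 0), (nat_lit 1000, nat_lit 810, nat_lit 474)], (nat_lit 82, nat_lit 100, nat_lit 44)⟩
noncomputable def p086_k11 : C1.Kn := ⟨[nat_lit 80, nat_lit 100, nat_lit 140], [nat_lit 0, nat_lit 0, nat_lit 1022], [(nat_lit 0, nat_lit 0, nat_lit 0), (nat_lit 0, nat_lit 0, nat_lit 0), (nat_lit 1000, nat_lit 1000, nat_lit 399)], (nat_lit 100, nat_lit 99, nat_lit 44)⟩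
noncomputable def p086_k12 : C1.Kn := ⟨[nat_lit 40, nat_lit 80, nat_lit 100], [nat_lit 0, nat_lit 395, nat_lit 1536], [(nat_lit 0, nat_lit 0, nat_lit 0), (nat_lit 1000, nat_lit 908, nat_lit 154), (nat_lit 1000, nat_lit 760, nat_lit 642)], (nat_lit 76, nat_lit 100, nat_lit 60)⟩
noncomputable def p086_k13 : C1.Kn := ⟨[nat_lit 80, nat_lit 120, nat_lit 140], [nat_lit 0, nat_lit 264, nat_lit 1360], [(nat_lit 0, nat_lit 0, nat_lit 0), (nat_lit 1000, nat_lit 979, nat_lit 103), (nat_lit 951, nat_lit 1000, nat_lit 628)], (nat_lit 100, nat_lit 95, nat_lit 62)⟩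
noncomputable def p086_k14 : C1.Kn := ⟨[nat_lit 80, nat_lit 120, nat_lit 140], [nat_lit 0, nat_lit 528, nat_lit 1572], [(nat_lit 0, nat_lit 0, nat_lit 0), (nat_lit 1000, nat_lit 959, nat_lit 206), (nat_lit 966, nat_lit 1000, nat_lit 679)], (nat_lit 100, nat_lit 99, nat_lit 63)⟩
noncomputable def p086_k15 : C1.Kn := ⟨[nat_lit 40, nat_lit 100], [nat_lit 0, nat_lit 0], [(nat_lit 0, nat_lit 0, nat_lit 0), (nat_lit 0, nat_lit 0, nat_lit 0)], (nat_lit 80, nat_lit 100, nat_lit 60)⟩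
noncomputable def p086_k16 : C1.Kn := ⟨[nat_lit 80, nat_lit 140], [nat_lit 0, nat_lit 792], [(nat_lit 0, nat_lit 0, nat_lit 0), (nat_lit 1000, nat_lit 959, nat_lit 206)], (nat_lit 100, nat_lit 99, nat_lit 63)⟩
noncomputable def p086_k17 : C1.Kn := ⟨[nat_lit 80, nat_lit 140], [nat_lit 0, nat_lit 831], [(nat_lit 0, nat_lit 0, nat_lit 0), (nat_lit 1000, nat_lit 956, nat_lit 216)], (nat_lit 100, nat_lit 99, nat_lit 63)⟩
noncomputable def p086_k18 : C1.Kn := ⟨[nat_lit 80, nat_lit 140], [nat_lit 0, nat_lit 873], [(nat_lit 0, nat_lit 0, nat_lit 0), (nat_lit 1000, nat_lit 954, nat_lit 227)], (nat_lit 100, nat_lit 100, nat_lit 63)⟩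
noncomputable def p086_k19 : C1.Kn := ⟨[nat_lit 40, nat_lit 100], [nat_lit 0, nat_lit 49], [(nat_lit 0, nat_lit 0, nat_lit 0), (nat_lit 1000, nat_lit 992, nat_lit 13)], (nat_lit 80, nat_lit 100, nat_lit 60)⟩
noncomputable def p086_k20 : C1.Kn := ⟨[nat_lit 40, nat_lit 100], [nat_lit 0, nat_lit 119], [(nat_lit 0, nat_lit 0, nat_lit 0), (nat_lit 1000, nat_lit 981, nat_lit 31)], (nat_lit 79, nat_lit 100, nat_lit 60)⟩
noncomputable def p086_k21 : C1.Kn := ⟨[nat_lit 80, nat_lit 140], [nat_lit 0, nat_lit 912], [(nat_lit 0, nat_lit 0, nat_lit 0), (nat_lit 1000, nat_lit 952, nat_lit 237)], (nat_lit 100, nat_lit 100, nat_lit 63)⟩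
noncomputable def p086_k22 : C1.Kn := ⟨[nat_lit 40, nat_lit 100], [nat_lit 0, nat_lit 169], [(nat_lit 0, nat_lit 0, nat_lit 0), (nat_lit 1000, nat_lit 974, nat_lit 44)], (nat_lit 79, nat_lit 100, nat_lit 60)⟩
noncomputable def p086_k23 : C1.Kn := ⟨[nat_lit 40, nat_lit 100], [nat_lit 0, nat_lit 288], [(nat_lit 0, nat_lit 0, nat_lit 0), (nat_lit 1000, nat_lit 955, nat_lit 75)], (nat_lit 78, nat_lit 100, nat_lit 60)⟩
noncomputable def p086_k24 : C1.Kn := ⟨[nat_lit 80, nat_lit 140], [nat_lit 0, nat_lit 995], [(nat_lit 0, nat_lit 0, nat_lit 0), (nat_lit 1000, nat_lit 948, nat_lit 259)], (nat_lit 99, nat_lit 100, nat_lit 63)⟩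
noncomputable def p086_k25 : C1.Kn := ⟨[nat_lit 40, nat_lit 100], [nat_lit 0, nat_lit 592], [(nat_lit 0, nat_lit 0, nat_lit 0), (nat_lit 1000, nat_lit 908, nat_lit 154)], (nat_lit 76, nat_lit 100, nat_lit 60)⟩
noncomputable def p086_k26 : C1.Kn := ⟨[nat_lit 80, nat_lit 140], [nat_lit 0, nat_lit 1192], [(nat_lit 0, nat_lit 0, nat_lit 0), (nat_lit 1000, nat_lit 938, nat_lit 310)], (nat_lit 98, nat_lit 100, nat_lit 63)⟩
noncomputable def p086_k27 : C1.Kn := ⟨[nat_lit 40, nat_lit 60, nat_lit 100], [nat_lit 0, nat_lit 0, nat_lit 1216], [(nat_lit 0, nat_lit 0, nat_lit 0), (nat_lit 0, nat_lit 0, nat_lit 0), (nat_lit 1000, nat_lit 810, nat_lit 474)], (nat_lit 80, nat_lit 100, nat_lit 60)⟩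
noncomputable def p086_k28 : C1.Kn := ⟨[nat_lit 80, nat_lit 100, nat_lit 140], [nat_lit 0, nat_lit 265, nat_lit 1269], [(nat_lit 0, nat_lit 0, nat_lit 0), (nat_lit 1000, nat_lit 959, nat_lit 206), (nat_lit 1000, nat_lit 958, nat_lit 392)], (nat_lit 100, nat_lit 99, nat_lit 63)⟩
noncomputable def p086_k29 : C1.Kn := ⟨[nat_lit 80, nat_lit 100, nat_lit 140], [nat_lit 0, nat_lit 399, nat_lit 1395], [(nat_lit 0, nat_lit 0, nat_lit 0), (nat_lit 1000, nat_lit 938, nat_lit 310), (nat_lit 1000, nat_lit 938, nat_lit 389)], (nat_lit 98, nat_lit 100, nat_lit 63)⟩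
noncomputable def p086_k30 : C1.Kn := ⟨[nat_lit 80, nat_lit 100, nat_lit 120], [nat_lit 0, nat_lit 265, nat_lit 768], [(nat_lit 0, nat_lit 0, nat_lit 0), (nat_lit 1000, nat_lit 959, nat_lit 206), (nat_lit 1000, nat_lit 958, nat_lit 392)], (nat_lit 96, nat_lit 100, nat_lit 44)⟩
noncomputable def p086_k31 : C1.Kn := ⟨[nat_lit 80, nat_lit 100, nat_lit 120], [nat_lit 0, nat_lit 399, nat_lit 897], [(nat_lit 0, nat_lit 0, nat_lit 0), (nat_lit 1000, nat_lit 938, nat_lit 310), (nat_lit 1000, nat_lit 938, nat_lit 389)], (nat_lit 94, nat_lit 100, nat_lit 44)⟩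
noncomputable def p086_k32 : C1.Kn := ⟨[nat_lit 40, nat_lit 60, nat_lit 80], [nat_lit 0, nat_lit 197, nat_lit 800], [(nat_lit 0, nat_lit 0, nat_lit 0), (nat_lit 1000, nat_lit 908, nat_lit 154), (nat_lit 1000, nat_lit 781, nat_lit 471)], (nat_lit 79, nat_lit 100, nat_lit 45)⟩
noncomputable def p086_k33 : C1.Kn := ⟨[nat_lit 80, nat_lit 120, nat_lit 140], [nat_lit 0, nat_lit 796, nat_lit 1801], [(nat_lit 0, nat_lit 0, nat_lit 0), (nat_lit 1000, nat_lit 938, nat_lit 310), (nat_lit 982, nat_lit 1000, nat_lit 736)], (nat_lit 98, nat_lit 100, nat_lit 63)⟩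
noncomputable def p086_k34 : C1.Kn := ⟨[nat_lit 80, nat_lit 120, nat_lit 140], [nat_lit 0, nat_lit 929, nat_lit 1922], [(nat_lit 0, nat_lit 0, nat_lit 0), (nat_lit 1000, nat_lit 927, nat_lit 362), (nat_lit 993, nat_lit 1000, nat_lit 764)], (nat_lit 96, nat_lit 100, nat_lit 62)⟩
noncomputable def p086_k35 : C1.Kn := ⟨[nat_lit 40, nat_lit 80], [nat_lit 0, nat_lit 795], [(nat_lit 0, nat_lit 0, nat_lit 0), (nat_lit 1000, nat_lit 814, nat_lit 310)], (nat_lit 75, nat_lit 100, nat_lit 46)⟩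
noncomputable def p086_k36 : C1.Kn := ⟨[nat_lit 80, nat_lit 120, nat_lit 140], [nat_lit 0, nat_lit 0, nat_lit 1164], [(nat_lit 0, nat_lit 0, nat_lit 0), (nat_lit 0, nat_lit 0, nat_lit 0), (nat_lit 941, nat_lit 1000, nat_lit 576)], (nat_lit 100, nat_lit 99, nat_lit 44)⟩
noncomputable def p086_k37 : C1.Kn := ⟨[nat_lit 40, nat_lit 80, nat_lit 100], [nat_lit 0, nat_lit 795, nat_lit 1829], [(nat_lit 0, nat_lit 0, nat_lit 0), (nat_lit 1000, nat_lit 814, nat_lit 310), (nat_lit 1000, nat_lit 714, nat_lit 692)], (nat_lit 72, nat_lit 100, nat_lit 61)⟩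
noncomputable def p086_k38 : C1.Kn := ⟨[nat_lit 40, nat_lit 60, nat_lit 80], [nat_lit 0, nat_lit 398, nat_lit 992], [(nat_lit 0, nat_lit 0, nat_lit 0), (nat_lit 1000, nat_lit 814, nat_lit 310), (nat_lit 1000, nat_lit 752, nat_lit 464)], (nat_lit 75, nat_lit 100, nat_lit 46)⟩
noncomputable def p086_k39 : C1.Kn := ⟨[nat_lit 80, nat_lit 100, nat_lit 160], [nat_lit 0, nat_lit 0, nat_lit 1533], [(nat_lit 0, nat_lit 0, nat_lit 0), (nat_lit 0, nat_lit 0, nat_lit 0), (nat_lit 1000, nat_lit 1000, nat_lit 399)], (nat_lit 100, nat_lit 92, nat_lit 61)⟩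
noncomputable def p086_k40 : C1.Kn := ⟨[nat_lit 80, nat_lit 120], [nat_lit 0, nat_lit 528], [(nat_lit 0, nat_lit 0, nat_lit 0), (nat_lit 1000, nat_lit 959, nat_lit 206)], (nat_lit 96, nat_lit 100, nat_lit 44)⟩
noncomputable def p086_k41 : C1.Kn := ⟨[nat_lit 40, nat_lit 60, nat_lit 100], [nat_lit 0, nat_lit 398, nat_lit 1586], [(nat_lit 0, nat_lit 0, nat_lit 0), (nat_lit 1000, nat_lit 814, nat_lit 310), (nat_lit 1000, nat_lit 752, nat_lit 464)], (nat_lit 72, nat_lit 100, nat_lit 61)⟩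
noncomputable def p086_k42 : C1.Kn := ⟨[nat_lit 40, nat_lit 80], [nat_lit 0, nat_lit 1195], [(nat_lit 0, nat_lit 0, nat_lit 0), (nat_lit 1000, nat_lit 720, nat_lit 465)], (nat_lit 68, nat_lit 100, nat_lit 61)⟩
noncomputable def p086_k43 : C1.Kn := ⟨[nat_lit 40, nat_lit 80], [nat_lit 0, nat_lit 395], [(nat_lit 0, nat_lit 0, nat_lit 0), (nat_lit 1000, nat_lit 908, nat_lit 154)], (nat_lit 79, nat_lit 100, nat_lit 45)⟩
noncomputable def p086_k44 : C1.Kn := ⟨[nat_lit 40, nat_lit 80], [nat_lit 0, nat_lit 1195], [(nat_lit 0, nat_lit 0, nat_lit 0), (nat_lit 1000, nat_lit 720, nat_lit 465)], (nat_lit 72, nat_lit 100, nat_lit 47)⟩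
noncomputable def p086_k45 : C1.Kn := ⟨[nat_lit 80, nat_lit 120], [nat_lit 0, nat_lit 264], [(nat_lit 0, nat_lit 0, nat_lit 0), (nat_lit 1000, nat_lit 979, nat_lit 103)], (nat_lit 99, nat_lit 100, nat_lit 44)⟩
noncomputable def p086_k46 : C1.Kn := ⟨[nat_lit 40, nat_lit 80], [nat_lit 0, nat_lit 1399], [(nat_lit 0, nat_lit 0, nat_lit 0), (nat_lit 1000, nat_lit 672, nat_lit 546)], (nat_lit 65, nat_lit 100, nat_lit 62)⟩
noncomputable def p086_k47 : C1.Kn := ⟨[nat_lit 40, nat_lit 140], [nat_lit 0, nat_lit 0], [(nat_lit 0, nat_lit 0, nat_lit 0), (nat_lit 0, nat_lit 0, nat_lit 0)], (nat_lit 83, nat_lit 100, nat_lit 83)⟩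
noncomputable def p086_k48 : C1.Kn := ⟨[nat_lit 40, nat_lit 80, nat_lit 140], [nat_lit 0, nat_lit 0, nat_lit 3199], [(nat_lit 0, nat_lit 0, nat_lit 0), (nat_lit 0, nat_lit 0, nat_lit 0), (nat_lit 1000, nat_lit 833, nat_lit 833)], (nat_lit 83, nat_lit 100, nat_lit 83)⟩
noncomputable def p086_k49 : C1.Kn := ⟨[nat_lit 80, nat_lit 120, nat_lit 160], [nat_lit 0, nat_lit 528, nat_lit 2577], [(nat_lit 0, nat_lit 0, nat_lit 0), (nat_lit 1000, nat_lit 959, nat_lit 206), (nat_lit 929, nat_lit 1000, nat_lit 742)], (nat_lit 100, nat_lit 85, nat_lit 84)⟩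
noncomputable def p086_k50 : C1.Kn := ⟨[nat_lit 80, nat_lit 120, nat_lit 180], [nat_lit 0, nat_lit 0, nat_lit 3196], [(nat_lit 0, nat_lit 0, nat_lit 0), (nat_lit 0, nat_lit 0, nat_lit 0), (nat_lit 858, nat_lit 1000, nat_lit 713)], (nat_lit 100, nat_lit 76, nat_lit 82)⟩
noncomputable def p086_k51 : C1.Kn := ⟨[nat_lit 40, nat_lit 80, nat_lit 120], [nat_lit 0, nat_lit 795, nat_lit 2800], [(nat_lit 0, nat_lit 0, nat_lit 0), (nat_lit 1000, nat_lit 814, nat_lit 310), (nat_lit 1000, nat_lit 719, nat_lit 783)], (nat_lit 72, nat_lit 100, nat_lit 81)⟩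
noncomputable def p086_k52 : C1.Kn := ⟨[nat_lit 80, nat_lit 180], [nat_lit 0, nat_lit 0], [(nat_lit 0, nat_lit 0, nat_lit 0), (nat_lit 0, nat_lit 0, nat_lit 0)], (nat_lit 100, nat_lit 76, nat_lit 82)⟩
noncomputable def p086_k53 : C1.Kn := ⟨[nat_lit 40, nat_lit 120], [nat_lit 0, nat_lit 1589], [(nat_lit 0, nat_lit 0, nat_lit 0), (nat_lit 1000, nat_lit 814, nat_lit 310)], (nat_lit 72, nat_lit 100, nat_lit 81)⟩
noncomputable def p086_k54 : C1.Kn := ⟨[nat_lit 40, nat_lit 100, nat_lit 140], [nat_lit 0, nat_lit 0, nat_lit 3243], [(nat_lit 0, nat_lit 0, nat_lit 0), (nat_lit 0, nat_lit 0, nat_lit 0), (nat_lit 1000, nat_lit 870, nat_lit 941)], (nat_lit 83, nat_lit 100, nat_lit 83)⟩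
noncomputable def p086_k55 : C1.Kn := ⟨[nat_lit 80, nat_lit 140, nat_lit 180], [nat_lit 0, nat_lit 0, nat_lit 3656], [(nat_lit 0, nat_lit 0, nat_lit 0), (nat_lit 0, nat_lit 0, nat_lit 0), (nat_lit 637, nat_lit 1000, nat_lit 908)], (nat_lit 100, nat_lit 76, nat_lit 82)⟩
noncomputable def p086_k56 : C1.Kn := ⟨[nat_lit 40, nat_lit 80, nat_lit 120], [nat_lit 0, nat_lit 1195, nat_lit 3135], [(nat_lit 0, nat_lit 0, nat_lit 0), (nat_lit 1000, nat_lit 720, nat_lit 465), (nat_lit 1000, nat_lit 661, nat_lit 757)], (nat_lit 66, nat_lit 100, nat_lit 80)⟩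
noncomputable def p086_l0 : Lf2 := ⟨nat_lit 0, nat_lit 10, [nat_lit 0, nat_lit 5, nat_lit 5, nat_lit 20], false, nat_lit 240, nat_lit 280, nat_lit 0, nat_lit 352, ⟨nat_lit 0, nat_lit 0, nat_lit 1000, nat_lit 6, nat_lit 163, nat_lit 1000, nat_lit 192, nat_lit 1000, nat_lit 17368, nat_lit 244, nat_lit 35831, nat_lit 261, nat_lit 45708010, nat_lit 0, nat_lit 0, nat_lit 4527894, false, false⟩,
 nat_lit 0, nat_lit 3845, nat_lit 0, nat_lit 0, nat_lit 2883, nat_lit 0, nat_lit 0, nat_lit 0, nat_lit 0, nat_lit 0, nat_lit 0, nat_lit 0, nat_lit 0, nat_lit 0, nat_lit 76, nat_lit 400000, nat_lit 0, nat_lit 0, [(nat_lit 18, [(nat_lit 5, nat_lit 1000)])],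
 ⟨p086_k0, nat_lit 0, nat_lit 0, nat_lit 227, nat_lit 0, nat_lit 409627, [nat_lit 1536800000, nat_lit 802000001, nat_lit 14800000], [], [nat_lit 18658195558, nat_lit 19818077057, nat_lit 19865662184, nat_lit 20902232984, nat_lit 20410870758, nat_lit 21752226412, nat_lit 21439607296, nat_lit 22400964069], nat_lit 1271250, nat_lit 1271250, nat_lit 382400, nat_lit 1100001, nat_lit 1271250, nat_lit 1271250, [nat_lit 490000, nat_lit 1100000, nat_lit 1442500], [nat_lit 6, nat_lit 40, nat_lit 40, nat_lit 80, nat_lit 3, nat_lit 249, nat_lit 40, nat_lit 8]⟩, ⟨p086_k1, nat_lit 0, nat_lit 0, nat_lit 642, nat_lit 0, nat_lit 632601, [nat_lit 0, nat_lit 0, nat_lit 0], [], [nat_lit 0, nat_lit 0, nat_lit 0, nat_lit 0, nat_lit 0, nat_lit 0, nat_lit 0, nat_lit 0], nat_lit 1271250, nat_lit 1271250, nat_lit 382400, nat_lit 1100001, nat_lit 0, nat_lit 2486000, [nat_lit 1100000, nat_lit 1785000, nat_lit 1271250], [nat_lit 21, nat_lit 40, nat_lit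 40, nat_lit 80, nat_lit 14, nat_lit 428, nat_lit 200, nat_lit 11]⟩,
 ⟨nat_lit 3872, nat_lit 4473, ⟨.ofNat (nat_lit 311945), .ofNat (nat_lit 475111), .ofNat (nat_lit 333494), .ofNat (nat_lit 496660), .ofNat (nat_lit 324151), .ofNat (nat_lit 479021), .ofNat (nat_lit 345927), .ofNat (nat_lit 500797)⟩, ⟨.ofNat (nat_lit 438578), .ofNat (nat_lit 506556), .ofNat (nat_lit 460144), .ofNat (nat_lit 528122), .ofNat (nat_lit 433760), .ofNat (nat_lit 498282), .ofNat (nat_lit 455554), .ofNat (nat_lit 520075)⟩⟩, [⟨nat_lit 0, nat_lit 100, nat_lit 78, nat_lit 85, nat_lit 16355127⟩, ⟨nat_lit 16, nat_lit 87, nat_lit 100, nat_lit 94, nat_lit 258456042⟩]⟩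
noncomputable def p086_l1 : Lf2 := ⟨nat_lit 0, nat_lit 2, [nat_lit 10, nat_lit 5, nat_lit 5, nat_lit 20], true, nat_lit 240, nat_lit 300, nat_lit 0, nat_lit 336, ⟨nat_lit 0, nat_lit 514, nat_lit 486, nat_lit 6, nat_lit 136, nat_lit 1000, nat_lit 208, nat_lit 486, nat_lit 1169, nat_lit 218, nat_lit 173400, nat_lit 317, nat_lit 46278879, nat_lit 7010592, nat_lit 13710529, nat_lit 4369490, false, false⟩,
 nat_lit 0, nat_lit 3959, nat_lit 0, nat_lit 0, nat_lit 2969, nat_lit 0, nat_lit 97, nat_lit 0, nat_lit 0, nat_lit 0, nat_lit 0, nat_lit 0, nat_lit 0, nat_lit 0, nat_lit 0, nat_lit 691600, nat_lit 0, nat_lit 0, [(nat_lit 18, [(nat_lit 1, nat_lit 514), (nat_lit 6, nat_lit 486)])],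
 ⟨p086_k2, nat_lit 0, nat_lit 0, nat_lit 144, nat_lit 0, nat_lit 279573, [nat_lit 1115916001, nat_lit 821013600, nat_lit 298943200], [], [nat_lit 18849735889, nat_lit 19415927798, nat_lit 18852095721, nat_lit 19414755595, nat_lit 21562991481, nat_lit 22211075085, nat_lit 21392299515, nat_lit 22031410781], nat_lit 1271250, nat_lit 1271250, nat_lit 382400, nat_lit 490000, nat_lit 1271250, nat_lit 1271250, [nat_lit 490000, nat_lit 780000, nat_lit 1100000], [nat_lit 78, nat_lit 40, nat_lit 40, nat_lit 80, nat_lit 22, nat_lit 226, nat_lit 20, nat_lit 9]⟩, C1.Rw.none,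
 ⟨nat_lit 4183, nat_lit 4473, ⟨.ofNat (nat_lit 311996), .ofNat (nat_lit 339187), .ofNat (nat_lit 333558), .ofNat (nat_lit 360749), .ofNat (nat_lit 318053), .ofNat (nat_lit 344555), .ofNat (nat_lit 339715), .ofNat (nat_lit 366218)⟩, ⟨.ofNat (nat_lit 460144), .ofNat (nat_lit 562111), .ofNat (nat_lit 481711), .ofNat (nat_lit 583678), .ofNat (nat_lit 457921), .ofNat (nat_lit 557304), .ofNat (nat_lit 479587), .ofNat (nat_lit 578971)⟩⟩, [⟨nat_lit 0, nat_lit 100, nat_lit 81, nat_lit 83, nat_lit 589545716⟩, ⟨nat_lit 16, nat_lit 87, nat_lit 95, nat_lit 100, nat_lit 236187207⟩]⟩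
noncomputable def p086_l2 : Lf2 := ⟨nat_lit 0, nat_lit 5, [nat_lit 4, nat_lit 5, nat_lit 5, nat_lit 20], true, nat_lit 240, nat_lit 300, nat_lit 0, nat_lit 336, ⟨nat_lit 0, nat_lit 404, nat_lit 596, nat_lit 6, nat_lit 136, nat_lit 1000, nat_lit 208, nat_lit 596, nat_lit 1169, nat_lit 218, nat_lit 173400, nat_lit 317, nat_lit 46278879, nat_lit 7010592, nat_lit 13710529, nat_lit 4369490, false, false⟩,
 nat_lit 0, nat_lit 4127, nat_lit 0, nat_lit 0, nat_lit 3095, nat_lit 0, nat_lit 0, nat_lit 0, nat_lit 0, nat_lit 0, nat_lit 0, nat_lit 0, nat_lit 0, nat_lit 0, nat_lit 6, nat_lit 400000, nat_lit 0, nat_lit 0, [(nat_lit 18, [(nat_lit 1, nat_lit 404), (nat_lit 5, nat_lit 596)])],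
 ⟨p086_k3, nat_lit 0, nat_lit 0, nat_lit 151, nat_lit 0, nat_lit 215327, [nat_lit 1166410667, nat_lit 643789334, nat_lit 15064000], [], [nat_lit 19006462403, nat_lit 19582464580, nat_lit 18958126867, nat_lit 19525821902, nat_lit 21691911103, nat_lit 22352057159, nat_lit 21501186890, nat_lit 22152996592], nat_lit 1271250, nat_lit 1271250, nat_lit 382400, nat_lit 490000, nat_lit 1271250, nat_lit 1271250, [nat_lit 490000, nat_lit 1100000, nat_lit 1442500], [nat_lit 6, nat_lit 40, nat_lit 40, nat_lit 80, nat_lit 3, nat_lit 226, nat_lit 20, nat_lit 7]⟩, C1.Rw.none,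
 ⟨nat_lit 4183, nat_lit 4473, ⟨.ofNat (nat_lit 311996), .ofNat (nat_lit 339187), .ofNat (nat_lit 333558), .ofNat (nat_lit 360749), .ofNat (nat_lit 318053), .ofNat (nat_lit 344555), .ofNat (nat_lit 339715), .ofNat (nat_lit 366218)⟩, ⟨.ofNat (nat_lit 460144), .ofNat (nat_lit 562111), .ofNat (nat_lit 481711), .ofNat (nat_lit 583678), .ofNat (nat_lit 457921), .ofNat (nat_lit 557304), .ofNat (nat_lit 479587), .ofNat (nat_lit 578971)⟩⟩, [⟨nat_lit 0, nat_lit 100, nat_lit 81, nat_lit 83, nat_lit 606125553⟩, ⟨nat_lit 16, nat_lit 87, nat_lit 95, nat_lit 100, nat_lit 243493747⟩]⟩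
noncomputable def p086_l3 : Lf2 := ⟨nat_lit 0, nat_lit 2, [nat_lit 10, nat_lit 5, nat_lit 5, nat_lit 20], false, nat_lit 240, nat_lit 280, nat_lit 0, nat_lit 364, ⟨nat_lit 0, nat_lit 209, nat_lit 791, nat_lit 6, nat_lit 154, nat_lit 1000, nat_lit 201, nat_lit 791, nat_lit 9526, nat_lit 233, nat_lit 224267, nat_lit 331, nat_lit 45575367, nat_lit 8510784, nat_lit 12913849, nat_lit 4516910, false, false⟩,
 nat_lit 0, nat_lit 3828, nat_lit 0, nat_lit 0, nat_lit 2870, nat_lit 0, nat_lit 0, nat_lit 0, nat_lit 0, nat_lit 0, nat_lit 0, nat_lit 0, nat_lit 0, nat_lit 0, nat_lit 0, nat_lit 400000, nat_lit 0, nat_lit 0, [(nat_lit 18, [(nat_lit 1, nat_lit 209), (nat_lit 5, nat_lit 791)])],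
 ⟨p086_k4, nat_lit 0, nat_lit 0, nat_lit 120, nat_lit 0, nat_lit 279573, [nat_lit 1026890667, nat_lit 61143645], [], [nat_lit 18741696779, nat_lit 19292082579, nat_lit 19135733259, nat_lit 19662164699, nat_lit 20402270039, nat_lit 20916936731, nat_lit 20727674199, nat_lit 21250025576], nat_lit 1271250, nat_lit 1271250, nat_lit 490000, nat_lit 780000, nat_lit 1271250, nat_lit 1271250, [nat_lit 490000, nat_lit 1100000], [nat_lit 24, nat_lit 40, nat_lit 40, nat_lit 80, nat_lit 33, nat_lit 238, nat_lit 30, nat_lit 9]⟩, ⟨p086_k5, nat_lit 0, nat_lit 0, nat_lit 308, nat_lit 0, nat_lit 429714, [nat_lit 0, nat_lit 0], [], [nat_lit 0, nat_lit 0, nat_lit 0, nat_lit 0, nat_lit 0, nat_lit 0, nat_lit 0, nat_lit 0], nat_lit 1271250, nat_lit 1271250, nat_lit 490000, nat_lit 780000, nat_lit 0, nat_lit 2570750, [nat_lit 1100000, nat_lit 1785000], [nat_lit 39, nat_lit 40, nat_lit 40, nat_lit 80, nat_lit 7, nat_lit 345, nat_lit 125, nat_lit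 12]⟩,
 ⟨nat_lit 4183, nat_lit 4473, ⟨.ofNat (nat_lit 339187), .ofNat (nat_lit 407167), .ofNat (nat_lit 360749), .ofNat (nat_lit 428729), .ofNat (nat_lit 344555), .ofNat (nat_lit 410812), .ofNat (nat_lit 366218), .ofNat (nat_lit 432475)⟩, ⟨.ofNat (nat_lit 460144), .ofNat (nat_lit 528122), .ofNat (nat_lit 481711), .ofNat (nat_lit 549689), .ofNat (nat_lit 457921), .ofNat (nat_lit 524176), .ofNat (nat_lit 479587), .ofNat (nat_lit 545843)⟩⟩, [⟨nat_lit 0, nat_lit 100, nat_lit 80, nat_lit 89, nat_lit 53953865⟩, ⟨nat_lit 4, nat_lit 100, nat_lit 86, nat_lit 98, nat_lit 13060144⟩]⟩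
noncomputable def p086_l4 : Lf2 := ⟨nat_lit 0, nat_lit 1, [nat_lit 19, nat_lit 5, nat_lit 5, nat_lit 20], true, nat_lit 280, nat_lit 300, nat_lit 0, nat_lit 320, ⟨nat_lit 0, nat_lit 506, nat_lit 494, nat_lit 6, nat_lit 146, nat_lit 1000, nat_lit 221, nat_lit 494, nat_lit 1169, nat_lit 218, nat_lit 198017, nat_lit 324, nat_lit 44474416, nat_lit 7668431, nat_lit 14857153, nat_lit 4578612, false, false⟩,
 nat_lit 0, nat_lit 3933, nat_lit 0, nat_lit 0, nat_lit 2949, nat_lit 0, nat_lit 0, nat_lit 0, nat_lit 0, nat_lit 0, nat_lit 0, nat_lit 0, nat_lit 0, nat_lit 0, nat_lit 0, nat_lit 696400, nat_lit 0, nat_lit 0, [(nat_lit 18, [(nat_lit 1, nat_lit 506), (nat_lit 6, nat_lit 494)])],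
 ⟨p086_k6, nat_lit 0, nat_lit 0, nat_lit 110, nat_lit 0, nat_lit 251553, [nat_lit 1111964001, nat_lit 806834400], [], [nat_lit 20552387237, nat_lit 21071173485, nat_lit 20714967955, nat_lit 21222678547, nat_lit 21403989822, nat_lit 22012111446, nat_lit 21556229654, nat_lit 22087364889], nat_lit 1271250, nat_lit 1271250, nat_lit 490000, nat_lit 631250, nat_lit 1271250, nat_lit 1271250, [nat_lit 490000, nat_lit 780000], [nat_lit 112, nat_lit 40, nat_lit 40, nat_lit 80, nat_lit 113, nat_lit 232, nat_lit 25, nat_lit 11]⟩, C1.Rw.none,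
 ⟨nat_lit 4183, nat_lit 4473, ⟨.ofNat (nat_lit 339187), .ofNat (nat_lit 373177), .ofNat (nat_lit 349969), .ofNat (nat_lit 383958), .ofNat (nat_lit 344555), .ofNat (nat_lit 377684), .ofNat (nat_lit 355387), .ofNat (nat_lit 388515)⟩, ⟨.ofNat (nat_lit 528122), .ofNat (nat_lit 562111), .ofNat (nat_lit 549689), .ofNat (nat_lit 583678), .ofNat (nat_lit 524176), .ofNat (nat_lit 557304), .ofNat (nat_lit 545843), .ofNat (nat_lit 578971)⟩⟩, [⟨nat_lit 16, nat_lit 87, nat_lit 95, nat_lit 100, nat_lit 243379486⟩]⟩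
noncomputable def p086_l5 : Lf2 := ⟨nat_lit 0, nat_lit 1, [nat_lit 19, nat_lit 5, nat_lit 5, nat_lit 20], false, nat_lit 280, nat_lit 300, nat_lit 0, nat_lit 320, ⟨nat_lit 19, nat_lit 482, nat_lit 499, nat_lit 6, nat_lit 150, nat_lit 981, nat_lit 221, nat_lit 499, nat_lit 1169, nat_lit 218, nat_lit 209067, nat_lit 327, nat_lit 44196188, nat_lit 7997856, nat_lit 14805956, nat_lit 4623054, false, false⟩,
 nat_lit 400, nat_lit 3570, nat_lit 0, nat_lit 0, nat_lit 2977, nat_lit 222, nat_lit 0, nat_lit 0, nat_lit 0, nat_lit 383, nat_lit 0, nat_lit 0, nat_lit 0, nat_lit 0, nat_lit 0, nat_lit 691800, nat_lit 0, nat_lit 0, [(nat_lit 18, [(nat_lit 1, nat_lit 482), (nat_lit 6, nat_lit 499)])],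
 ⟨p086_k6, nat_lit 0, nat_lit 0, nat_lit 120, nat_lit 0, nat_lit 276661, [nat_lit 1122338001, nat_lit 828364800], [], [nat_lit 20551036229, nat_lit 21071807047, nat_lit 20711382043, nat_lit 21221010173, nat_lit 21398768462, nat_lit 22039130515, nat_lit 21545624813, nat_lit 22091209671], nat_lit 1271250, nat_lit 1271250, nat_lit 490000, nat_lit 631250, nat_lit 1271250, nat_lit 1271250, [nat_lit 490000, nat_lit 780000], [nat_lit 112, nat_lit 40, nat_lit 40, nat_lit 80, nat_lit 113, nat_lit 232, nat_lit 25, nat_lit 11]⟩, ⟨p086_k7, nat_lit 0, nat_lit 0, nat_lit 255, nat_lit 0, nat_lit 399528, [nat_lit 89072000, nat_lit 118750000], [], [nat_lit 462574166, nat_lit 405624728, nat_lit 349091207, nat_lit 310242948, nat_lit 509174816, nat_lit 462653372, nat_lit 543966520, nat_lit 494027176], nat_lit 1271250, nat_lit 1271250, nat_lit 490000, nat_lit 631250, nat_lit 0, nat_lit 2260000, [nat_lit 1100000, nat_lit 1442500], [nat_lit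 31, nat_lit 40, nat_lit 40, nat_lit 80, nat_lit 3, nat_lit 345, nat_lit 125, nat_lit 14]⟩,
 ⟨nat_lit 4183, nat_lit 4473, ⟨.ofNat (nat_lit 349969), .ofNat (nat_lit 383958), .ofNat (nat_lit 360749), .ofNat (nat_lit 394739), .ofNat (nat_lit 355387), .ofNat (nat_lit 388515), .ofNat (nat_lit 366218), .ofNat (nat_lit 399346)⟩, ⟨.ofNat (nat_lit 528122), .ofNat (nat_lit 562111), .ofNat (nat_lit 549689), .ofNat (nat_lit 583678), .ofNat (nat_lit 524176), .ofNat (nat_lit 557304), .ofNat (nat_lit 545843), .ofNat (nat_lit 578971)⟩⟩, [⟨nat_lit 0, nat_lit 100, nat_lit 81, nat_lit 85, nat_lit 61923247⟩, ⟨nat_lit 16, nat_lit 87, nat_lit 95, nat_lit 100, nat_lit 239782952⟩, ⟨nat_lit 11, nat_lit 100, nat_lit 100, nat_lit 95, nat_lit 4638280⟩]⟩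
noncomputable def p086_l6 : Lf2 := ⟨nat_lit 0, nat_lit 1, [nat_lit 19, nat_lit 5, nat_lit 5, nat_lit 20], false, nat_lit 280, nat_lit 300, nat_lit 0, nat_lit 336, ⟨nat_lit 0, nat_lit 514, nat_lit 486, nat_lit 6, nat_lit 161, nat_lit 1000, nat_lit 221, nat_lit 486, nat_lit 1169, nat_lit 218, nat_lit 244017, nat_lit 336, nat_lit 43463348, nat_lit 8870409, nat_lit 14666243, nat_lit 4733722, false, false⟩,
 nat_lit 0, nat_lit 3989, nat_lit 0, nat_lit 0, nat_lit 2991, nat_lit 0, nat_lit 0, nat_lit 0, nat_lit 0, nat_lit 0, nat_lit 0, nat_lit 0, nat_lit 0, nat_lit 0, nat_lit 0, nat_lit 691600, nat_lit 0, nat_lit 0, [(nat_lit 18, [(nat_lit 1, nat_lit 514), (nat_lit 6, nat_lit 486)])],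
 ⟨p086_k6, nat_lit 0, nat_lit 0, nat_lit 110, nat_lit 0, nat_lit 276661, [nat_lit 1115916001, nat_lit 821013600], [], [nat_lit 20661747287, nat_lit 21172334186, nat_lit 20820975649, nat_lit 21320386344, nat_lit 21500503215, nat_lit 22103033708, nat_lit 21649725783, nat_lit 22172300515], nat_lit 1271250, nat_lit 1271250, nat_lit 631250, nat_lit 780000, nat_lit 1271250, nat_lit 1271250, [nat_lit 490000, nat_lit 780000], [nat_lit 112, nat_lit 40, nat_lit 40, nat_lit 80, nat_lit 113, nat_lit 238, nat_lit 30, nat_lit 12]⟩, ⟨p086_k8, nat_lit 0, nat_lit 0, nat_lit 252, nat_lit 0, nat_lit 424537, [nat_lit 0, nat_lit 0], [], [nat_lit 0, nat_lit 0, nat_lit 0, nat_lit 0, nat_lit 0, nat_lit 0, nat_lit 0, nat_lit 0], nat_lit 1271250, nat_lit 1271250, nat_lit 631250, nat_lit 780000, nat_lit 0, nat_lit 2373000, [nat_lit 1100000, nat_lit 1442500], [nat_lit 31, nat_lit 40, nat_lit 40, nat_lit 80, nat_lit 3, nat_lit 345, nat_lit 125, nat_lit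 14]⟩,
 ⟨nat_lit 4183, nat_lit 4473, ⟨.ofNat (nat_lit 373177), .ofNat (nat_lit 407167), .ofNat (nat_lit 394739), .ofNat (nat_lit 428729), .ofNat (nat_lit 377684), .ofNat (nat_lit 410812), .ofNat (nat_lit 399346), .ofNat (nat_lit 432475)⟩, ⟨.ofNat (nat_lit 528122), .ofNat (nat_lit 562111), .ofNat (nat_lit 549689), .ofNat (nat_lit 583678), .ofNat (nat_lit 524176), .ofNat (nat_lit 557304), .ofNat (nat_lit 545843), .ofNat (nat_lit 578971)⟩⟩, [⟨nat_lit 16, nat_lit 87, nat_lit 95, nat_lit 100, nat_lit 239967225⟩]⟩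
noncomputable def p086_l7 : Lf2 := ⟨nat_lit 0, nat_lit 2, [nat_lit 10, nat_lit 5, nat_lit 5, nat_lit 20], false, nat_lit 280, nat_lit 300, nat_lit 0, nat_lit 336, ⟨nat_lit 0, nat_lit 514, nat_lit 486, nat_lit 6, nat_lit 154, nat_lit 1000, nat_lit 221, nat_lit 486, nat_lit 1169, nat_lit 218, nat_lit 224267, nat_lit 331, nat_lit 43901381, nat_lit 8348030, nat_lit 14750589, nat_lit 4668666, false, false⟩,
 nat_lit 0, nat_lit 3959, nat_lit 0, nat_lit 0, nat_lit 2969, nat_lit 0, nat_lit 41, nat_lit 0, nat_lit 0, nat_lit 0, nat_lit 0, nat_lit 0, nat_lit 0, nat_lit 0, nat_lit 0, nat_lit 691600, nat_lit 0, nat_lit 0, [(nat_lit 18, [(nat_lit 1, nat_lit 514), (nat_lit 6, nat_lit 486)])],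
 ⟨p086_k2, nat_lit 0, nat_lit 0, nat_lit 125, nat_lit 0, nat_lit 240358, [nat_lit 1115916001, nat_lit 821013600, nat_lit 298943200], [], [nat_lit 20567826140, nat_lit 21069647795, nat_lit 20867533633, nat_lit 21365490359, nat_lit 21392666030, nat_lit 22031410781, nat_lit 21687201916, nat_lit 22208067042], nat_lit 1271250, nat_lit 1271250, nat_lit 490000, nat_lit 780000, nat_lit 1271250, nat_lit 1271250, [nat_lit 490000, nat_lit 780000, nat_lit 1100000], [nat_lit 78, nat_lit 40, nat_lit 40, nat_lit 80, nat_lit 22, nat_lit 238, nat_lit 30, nat_lit 9]⟩, ⟨p086_k9, nat_lit 0, nat_lit 0, nat_lit 298, nat_lit 0, nat_lit 369439, [nat_lit 0, nat_lit 0, nat_lit 0], [], [nat_lit 0, nat_lit 0, nat_lit 0, nat_lit 0, nat_lit 0, nat_lit 0, nat_lit 0, nat_lit 0], nat_lit 1271250, nat_lit 1271250, nat_lit 490000, nat_lit 780000, nat_lit 0, nat_lit 2373000, [nat_lit 1100000, nat_lit 1442500, nat_lit 1271250], [nat_lit 9, nat_lit 40, nat_lit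 40, nat_lit 80, nat_lit 2, nat_lit 345, nat_lit 125, nat_lit 12]⟩,
 ⟨nat_lit 4183, nat_lit 4473, ⟨.ofNat (nat_lit 339187), .ofNat (nat_lit 407167), .ofNat (nat_lit 360749), .ofNat (nat_lit 428729), .ofNat (nat_lit 344555), .ofNat (nat_lit 410812), .ofNat (nat_lit 366218), .ofNat (nat_lit 432475)⟩, ⟨.ofNat (nat_lit 528122), .ofNat (nat_lit 562111), .ofNat (nat_lit 549689), .ofNat (nat_lit 583678), .ofNat (nat_lit 524176), .ofNat (nat_lit 557304), .ofNat (nat_lit 545843), .ofNat (nat_lit 578971)⟩⟩, [⟨nat_lit 0, nat_lit 100, nat_lit 81, nat_lit 83, nat_lit 64441190⟩, ⟨nat_lit 16, nat_lit 87, nat_lit 95, nat_lit 100, nat_lit 234048310⟩]⟩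
noncomputable def p086_l8 : Lf2 := ⟨nat_lit 0, nat_lit 5, [nat_lit 4, nat_lit 5, nat_lit 5, nat_lit 20], false, nat_lit 240, nat_lit 300, nat_lit 0, nat_lit 364, ⟨nat_lit 0, nat_lit 661, nat_lit 339, nat_lit 6, nat_lit 154, nat_lit 1000, nat_lit 208, nat_lit 339, nat_lit 1169, nat_lit 218, nat_lit 224267, nat_lit 331, nat_lit 45017576, nat_lit 8458938, nat_lit 13523486, nat_lit 4570501, false, false⟩,
 nat_lit 0, nat_lit 4260, nat_lit 0, nat_lit 0, nat_lit 3195, nat_lit 0, nat_lit 27, nat_lit 0, nat_lit 0, nat_lit 0, nat_lit 0, nat_lit 0, nat_lit 0, nat_lit 0, nat_lit 2, nat_lit 603400, nat_lit 0, nat_lit 0, [(nat_lit 18, [(nat_lit 1, nat_lit 661), (nat_lit 6, nat_lit 339)])],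
 ⟨p086_k10, nat_lit 0, nat_lit 0, nat_lit 136, nat_lit 0, nat_lit 215327, [nat_lit 1204534001, nat_lit 1280296267, nat_lit 163570933], [], [nat_lit 19015833134, nat_lit 19591393469, nat_lit 19296336174, nat_lit 19846558219, nat_lit 21589272369, nat_lit 22249493267, nat_lit 21846344939, nat_lit 22360223873], nat_lit 1271250, nat_lit 1271250, nat_lit 490000, nat_lit 780000, nat_lit 1271250, nat_lit 1271250, [nat_lit 490000, nat_lit 780000, nat_lit 1435000], [nat_lit 85, nat_lit 40, nat_lit 40, nat_lit 80, nat_lit 16, nat_lit 238, nat_lit 30, nat_lit 8]⟩, ⟨p086_k11, nat_lit 0, nat_lit 0, nat_lit 351, nat_lit 0, nat_lit 332536, [nat_lit 0, nat_lit 0, nat_lit 0], [], [nat_lit 0, nat_lit 0, nat_lit 0, nat_lit 0, nat_lit 0, nat_lit 0, nat_lit 0, nat_lit 0], nat_lit 1271250, nat_lit 1271250, nat_lit 490000, nat_lit 780000, nat_lit 0, nat_lit 2570750, [nat_lit 1100000, nat_lit 1442500, nat_lit 1271250], [nat_lit 11, nat_lit 40,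 nat_lit 40, nat_lit 80, nat_lit 1, nat_lit 428, nat_lit 200, nat_lit 13]⟩,
 ⟨nat_lit 4183, nat_lit 4473, ⟨.ofNat (nat_lit 339187), .ofNat (nat_lit 407167), .ofNat (nat_lit 360749), .ofNat (nat_lit 428729), .ofNat (nat_lit 344555), .ofNat (nat_lit 410812), .ofNat (nat_lit 366218), .ofNat (nat_lit 432475)⟩, ⟨.ofNat (nat_lit 460144), .ofNat (nat_lit 562111), .ofNat (nat_lit 481711), .ofNat (nat_lit 583678), .ofNat (nat_lit 457921), .ofNat (nat_lit 557304), .ofNat (nat_lit 479587), .ofNat (nat_lit 578971)⟩⟩, [⟨nat_lit 0, nat_lit 100, nat_lit 81, nat_lit 83, nat_lit 70573352⟩, ⟨nat_lit 16, nat_lit 87, nat_lit 95, nat_lit 100, nat_lit 228901328⟩]⟩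
noncomputable def p086_l9 : Lf2 := ⟨nat_lit 0, nat_lit 10, [nat_lit 0, nat_lit 5, nat_lit 5, nat_lit 20], false, nat_lit 240, nat_lit 300, nat_lit 0, nat_lit 364, ⟨nat_lit 0, nat_lit 191, nat_lit 809, nat_lit 6, nat_lit 149, nat_lit 1000, nat_lit 208, nat_lit 809, nat_lit 1169, nat_lit 218, nat_lit 209067, nat_lit 327, nat_lit 45381750, nat_lit 8038615, nat_lit 13579635, nat_lit 4515197, false, false⟩,
 nat_lit 0, nat_lit 3589, nat_lit 0, nat_lit 1003, nat_lit 2691, nat_lit 0, nat_lit 0, nat_lit 0, nat_lit 0, nat_lit 0, nat_lit 0, nat_lit 0, nat_lit 0, nat_lit 0, nat_lit 37, nat_lit 371350, nat_lit 0, nat_lit 0, [(nat_lit 18, [(nat_lit 0, nat_lit 191), (nat_lit 5, nat_lit 809)])],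
 ⟨p086_k0, nat_lit 0, nat_lit 0, nat_lit 127, nat_lit 0, nat_lit 130997, [nat_lit 1340164001, nat_lit 671162001, nat_lit 11635200], [], [nat_lit 18823519782, nat_lit 19367065973, nat_lit 19184116713, nat_lit 19697329534, nat_lit 21278549776, nat_lit 21900019397, nat_lit 21512550584, nat_lit 22043027275], nat_lit 1271250, nat_lit 1271250, nat_lit 382400, nat_lit 780000, nat_lit 1271250, nat_lit 1271250, [nat_lit 490000, nat_lit 1100000, nat_lit 1442500], [nat_lit 6, nat_lit 40, nat_lit 40, nat_lit 80, nat_lit 3, nat_lit 238, nat_lit 30, nat_lit 8]⟩, ⟨p086_k1, nat_lit 0, nat_lit 0, nat_lit 393, nat_lit 0, nat_lit 203772, [nat_lit 0, nat_lit 0, nat_lit 0], [], [nat_lit 0, nat_lit 0, nat_lit 0, nat_lit 0, nat_lit 0, nat_lit 0, nat_lit 0, nat_lit 0], nat_lit 1271250, nat_lit 1271250, nat_lit 382400, nat_lit 780000, nat_lit 0, nat_lit 2570750, [nat_lit 1100000, nat_lit 1785000, nat_lit 1271250], [nat_lit 21, nat_lit 40, nat_lit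 40, nat_lit 80, nat_lit 14, nat_lit 428, nat_lit 200, nat_lit 11]⟩,
 ⟨nat_lit 4183, nat_lit 4473, ⟨.ofNat (nat_lit 311996), .ofNat (nat_lit 407167), .ofNat (nat_lit 333558), .ofNat (nat_lit 428729), .ofNat (nat_lit 318053), .ofNat (nat_lit 410812), .ofNat (nat_lit 339715), .ofNat (nat_lit 432475)⟩, ⟨.ofNat (nat_lit 460144), .ofNat (nat_lit 562111), .ofNat (nat_lit 481711), .ofNat (nat_lit 583678), .ofNat (nat_lit 457921), .ofNat (nat_lit 557304), .ofNat (nat_lit 479587), .ofNat (nat_lit 578971)⟩⟩, [⟨nat_lit 0, nat_lit 100, nat_lit 81, nat_lit 83, nat_lit 86527382⟩, ⟨nat_lit 16, nat_lit 87, nat_lit 95, nat_lit 100, nat_lit 237144111⟩]⟩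
noncomputable def p086_l10 : Lf2 := ⟨nat_lit 0, nat_lit 10, [nat_lit 0, nat_lit 5, nat_lit 5, nat_lit 20], false, nat_lit 240, nat_lit 288, nat_lit 0, nat_lit 364, ⟨nat_lit 0, nat_lit 341, nat_lit 659, nat_lit 6, nat_lit 153, nat_lit 1000, nat_lit 203, nat_lit 659, nat_lit 3485, nat_lit 228, nat_lit 220417, nat_lit 330, nat_lit 45574832, nat_lit 8370429, nat_lit 13054739, nat_lit 4511232, false, false⟩,
 nat_lit 0, nat_lit 3736, nat_lit 0, nat_lit 0, nat_lit 2912, nat_lit 0, nat_lit 184, nat_lit 0, nat_lit 0, nat_lit 0, nat_lit 0, nat_lit 0, nat_lit 0, nat_lit 0, nat_lit 17, nat_lit 400000, nat_lit 0, nat_lit 0, [(nat_lit 18, [(nat_lit 1, nat_lit 341), (nat_lit 5, nat_lit 659)])],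
 ⟨p086_k12, nat_lit 0, nat_lit 0, nat_lit 177, nat_lit 0, nat_lit 318583, [nat_lit 1224842667, nat_lit 669807334, nat_lit 16706000], [], [nat_lit 19534953894, nat_lit 20039677252, nat_lit 19860570255, nat_lit 20341941815, nat_lit 21401631362, nat_lit 22056840958, nat_lit 21705983898, nat_lit 22236350616], nat_lit 1271250, nat_lit 1271250, nat_lit 462650, nat_lit 780000, nat_lit 1271250, nat_lit 1271250, [nat_lit 490000, nat_lit 1100000, nat_lit 1442500], [nat_lit 6, nat_lit 40, nat_lit 40, nat_lit 80, nat_lit 3, nat_lit 238, nat_lit 30, nat_lit 8]⟩, ⟨p086_k1, nat_lit 0, nat_lit 0, nat_lit 554, nat_lit 0, nat_lit 519615, [nat_lit 0, nat_lit 0, nat_lit 0], [], [nat_lit 0, nat_lit 0, nat_lit 0, nat_lit 0, nat_lit 0, nat_lit 0, nat_lit 0, nat_lit 0], nat_lit 1271250, nat_lit 1271250, nat_lit 462650, nat_lit 780000, nat_lit 0, nat_lit 2570750, [nat_lit 1100000, nat_lit 1785000, nat_lit 1271250], [nat_lit 21, nat_lit 40, nat_lit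 40, nat_lit 80, nat_lit 14, nat_lit 428, nat_lit 200, nat_lit 11]⟩,
 ⟨nat_lit 3872, nat_lit 4184, ⟨.ofNat (nat_lit 337921), .ofNat (nat_lit 410806), .ofNat (nat_lit 348752), .ofNat (nat_lit 421637), .ofNat (nat_lit 343550), .ofNat (nat_lit 414527), .ofNat (nat_lit 354444), .ofNat (nat_lit 425422)⟩, ⟨.ofNat (nat_lit 457921), .ofNat (nat_lit 537427), .ofNat (nat_lit 479587), .ofNat (nat_lit 559094), .ofNat (nat_lit 455554), .ofNat (nat_lit 532980), .ofNat (nat_lit 477347), .ofNat (nat_lit 554773)⟩⟩, [⟨nat_lit 0, nat_lit 100, nat_lit 76, nat_lit 85, nat_lit 66594900⟩, ⟨nat_lit 16, nat_lit 83, nat_lit 98, nat_lit 100, nat_lit 240135725⟩]⟩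
noncomputable def p086_l11 : Lf2 := ⟨nat_lit 0, nat_lit 10, [nat_lit 0, nat_lit 5, nat_lit 5, nat_lit 20], false, nat_lit 240, nat_lit 288, nat_lit 0, nat_lit 360, ⟨nat_lit 0, nat_lit 373, nat_lit 627, nat_lit 6, nat_lit 160, nat_lit 1000, nat_lit 203, nat_lit 627, nat_lit 3485, nat_lit 228, nat_lit 240000, nat_lit 335, nat_lit 45091320, nat_lit 8924417, nat_lit 12984263, nat_lit 4581766, false, false⟩,
 nat_lit 0, nat_lit 3787, nat_lit 0, nat_lit 0, nat_lit 2952, nat_lit 0, nat_lit 223, nat_lit 0, nat_lit 0, nat_lit 0, nat_lit 0, nat_lit 0, nat_lit 0, nat_lit 0, nat_lit 11, nat_lit 400000, nat_lit 0, nat_lit 0, [(nat_lit 18, [(nat_lit 1, nat_lit 373), (nat_lit 5, nat_lit 627)])],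
 ⟨p086_k12, nat_lit 0, nat_lit 0, nat_lit 181, nat_lit 0, nat_lit 342941, [nat_lit 1191861334, nat_lit 649988667, nat_lit 7618000], [], [nat_lit 19548448438, nat_lit 20051890503, nat_lit 19836986738, nat_lit 20320903498, nat_lit 21409674617, nat_lit 22063858185, nat_lit 21683741219, nat_lit 22217061065], nat_lit 1271250, nat_lit 1271250, nat_lit 517650, nat_lit 780000, nat_lit 1271250, nat_lit 1271250, [nat_lit 490000, nat_lit 1100000, nat_lit 1442500], [nat_lit 6, nat_lit 40, nat_lit 40, nat_lit 80, nat_lit 3, nat_lit 238, nat_lit 30, nat_lit 8]⟩, ⟨p086_k13, nat_lit 0, nat_lit 0, nat_lit 475, nat_lit 0, nat_lit 525314, [nat_lit 0, nat_lit 0, nat_lit 0], [], [nat_lit 0, nat_lit 0, nat_lit 0, nat_lit 0, nat_lit 0, nat_lit 0, nat_lit 0, nat_lit 0], nat_lit 1271250, nat_lit 1271250, nat_lit 517650, nat_lit 780000, nat_lit 0, nat_lit 2542500, [nat_lit 1100000, nat_lit 1785000, nat_lit 1271250], [nat_lit 29, nat_lit 40, nat_lit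 40, nat_lit 80, nat_lit 17, nat_lit 428, nat_lit 200, nat_lit 13]⟩,
 ⟨nat_lit 3872, nat_lit 4184, ⟨.ofNat (nat_lit 362004), .ofNat (nat_lit 421637), .ofNat (nat_lit 372835), .ofNat (nat_lit 432468), .ofNat (nat_lit 367350), .ofNat (nat_lit 425422), .ofNat (nat_lit 378243), .ofNat (nat_lit 436316)⟩, ⟨.ofNat (nat_lit 457921), .ofNat (nat_lit 537427), .ofNat (nat_lit 479587), .ofNat (nat_lit 559094), .ofNat (nat_lit 455554), .ofNat (nat_lit 532980), .ofNat (nat_lit 477347), .ofNat (nat_lit 554773)⟩⟩, [⟨nat_lit 0, nat_lit 100, nat_lit 77, nat_lit 89, nat_lit 64468534⟩, ⟨nat_lit 16, nat_lit 83, nat_lit 98, nat_lit 100, nat_lit 238691185⟩]⟩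
noncomputable def p086_l12 : Lf2 := ⟨nat_lit 0, nat_lit 2, [nat_lit 10, nat_lit 5, nat_lit 5, nat_lit 20], false, nat_lit 240, nat_lit 300, nat_lit 0, nat_lit 364, ⟨nat_lit 0, nat_lit 851, nat_lit 149, nat_lit 6, nat_lit 182, nat_lit 1000, nat_lit 207, nat_lit 149, nat_lit 1169, nat_lit 218, nat_lit 35831, nat_lit 261, nat_lit 43178849, nat_lit 10678978, nat_lit 13142173, nat_lit 4820407, false, false⟩,
 nat_lit 0, nat_lit 4437, nat_lit 0, nat_lit 0, nat_lit 3327, nat_lit 0, nat_lit 107, nat_lit 0, nat_lit 0, nat_lit 0, nat_lit 0, nat_lit 0, nat_lit 0, nat_lit 0, nat_lit 0, nat_lit 877600, nat_lit 0, nat_lit 0, [(nat_lit 18, [(nat_lit 1, nat_lit 204), (nat_lit 2, nat_lit 647), (nat_lit 6, nat_lit 149)])],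
 ⟨p086_k2, nat_lit 0, nat_lit 0, nat_lit 140, nat_lit 0, nat_lit 331917, [nat_lit 1406100401, nat_lit 1218518800, nat_lit 767284400], [], [nat_lit 19511899849, nat_lit 20641597517, nat_lit 20168245533, nat_lit 21238991999, nat_lit 22036704661, nat_lit 23042920726, nat_lit 22562260707, nat_lit 23555998552], nat_lit 1271250, nat_lit 1271250, nat_lit 780000, nat_lit 1100001, nat_lit 1271250, nat_lit 1271250, [nat_lit 490000, nat_lit 780000, nat_lit 1100000], [nat_lit 78, nat_lit 40, nat_lit 40, nat_lit 80, nat_lit 22, nat_lit 249, nat_lit 40, nat_lit 10]⟩, ⟨p086_k9, nat_lit 0, nat_lit 0, nat_lit 366, nat_lit 0, nat_lit 510169, [nat_lit 0, nat_lit 0, nat_lit 0], [], [nat_lit 0, nat_lit 0, nat_lit 0, nat_lit 0, nat_lit 0, nat_lit 0, nat_lit 0, nat_lit 0], nat_lit 1271250, nat_lit 1271250, nat_lit 780000, nat_lit 1100001, nat_lit 0, nat_lit 2570750, [nat_lit 1100000, nat_lit 1442500, nat_lit 1271250], [nat_lit 9, nat_lit 40,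 nat_lit 40, nat_lit 80, nat_lit 2, nat_lit 373, nat_lit 150, nat_lit 12]⟩,
 ⟨nat_lit 3872, nat_lit 4473, ⟨.ofNat (nat_lit 407125), .ofNat (nat_lit 475111), .ofNat (nat_lit 428674), .ofNat (nat_lit 496660), .ofNat (nat_lit 414492), .ofNat (nat_lit 479021), .ofNat (nat_lit 436268), .ofNat (nat_lit 500797)⟩, ⟨.ofNat (nat_lit 460144), .ofNat (nat_lit 562111), .ofNat (nat_lit 481711), .ofNat (nat_lit 583678), .ofNat (nat_lit 455554), .ofNat (nat_lit 552336), .ofNat (nat_lit 477347), .ofNat (nat_lit 574129)⟩⟩, [⟨nat_lit 4, nat_lit 100, nat_lit 82, nat_lit 97, nat_lit 239181555⟩]⟩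
noncomputable def p086_l13 : Lf2 := ⟨nat_lit 0, nat_lit 5, [nat_lit 4, nat_lit 5, nat_lit 5, nat_lit 20], false, nat_lit 240, nat_lit 300, nat_lit 0, nat_lit 364, ⟨nat_lit 0, nat_lit 562, nat_lit 438, nat_lit 6, nat_lit 182, nat_lit 1000, nat_lit 207, nat_lit 438, nat_lit 1169, nat_lit 218, nat_lit 35831, nat_lit 261, nat_lit 43178849, nat_lit 10678978, nat_lit 13142173, nat_lit 4820407, false, false⟩,
 nat_lit 0, nat_lit 4241, nat_lit 0, nat_lit 0, nat_lit 3180, nat_lit 0, nat_lit 0, nat_lit 0, nat_lit 0, nat_lit 0, nat_lit 0, nat_lit 0, nat_lit 0, nat_lit 0, nat_lit 31, nat_lit 662800, nat_lit 0, nat_lit 0, [(nat_lit 18, [(nat_lit 1, nat_lit 562), (nat_lit 6, nat_lit 438)])],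
 ⟨p086_k10, nat_lit 0, nat_lit 0, nat_lit 141, nat_lit 0, nat_lit 269277, [nat_lit 1387628001, nat_lit 1484389867, nat_lit 190992533], [], [nat_lit 19410761121, nat_lit 20476755175, nat_lit 20035712615, nat_lit 21086091055, nat_lit 21856593135, nat_lit 22922270920, nat_lit 22396099775, nat_lit 23382390660], nat_lit 1271250, nat_lit 1271250, nat_lit 780000, nat_lit 1100001, nat_lit 1271250, nat_lit 1271250, [nat_lit 490000, nat_lit 780000, nat_lit 1435000], [nat_lit 85, nat_lit 40, nat_lit 40, nat_lit 80, nat_lit 16, nat_lit 249, nat_lit 40, nat_lit 8]⟩, ⟨p086_k11, nat_lit 0, nat_lit 0, nat_lit 365, nat_lit 0, nat_lit 415852, [nat_lit 0, nat_lit 0, nat_lit 0], [], [nat_lit 0, nat_lit 0, nat_lit 0, nat_lit 0, nat_lit 0, nat_lit 0, nat_lit 0, nat_lit 0], nat_lit 1271250, nat_lit 1271250, nat_lit 780000, nat_lit 1100001, nat_lit 0, nat_lit 2570750, [nat_lit 1100000, nat_lit 1442500, nat_lit 1271250], [nat_lit 11, nat_lit 40,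 nat_lit 40, nat_lit 80, nat_lit 1, nat_lit 428, nat_lit 200, nat_lit 12]⟩,
 ⟨nat_lit 3872, nat_lit 4473, ⟨.ofNat (nat_lit 407125), .ofNat (nat_lit 475111), .ofNat (nat_lit 428674), .ofNat (nat_lit 496660), .ofNat (nat_lit 414492), .ofNat (nat_lit 479021), .ofNat (nat_lit 436268), .ofNat (nat_lit 500797)⟩, ⟨.ofNat (nat_lit 460144), .ofNat (nat_lit 562111), .ofNat (nat_lit 481711), .ofNat (nat_lit 583678), .ofNat (nat_lit 455554), .ofNat (nat_lit 552336), .ofNat (nat_lit 477347), .ofNat (nat_lit 574129)⟩⟩, [⟨nat_lit 4, nat_lit 100, nat_lit 82, nat_lit 97, nat_lit 249348889⟩]⟩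
noncomputable def p086_l14 : Lf2 := ⟨nat_lit 0, nat_lit 10, [nat_lit 0, nat_lit 5, nat_lit 5, nat_lit 20], false, nat_lit 240, nat_lit 300, nat_lit 0, nat_lit 364, ⟨nat_lit 0, nat_lit 435, nat_lit 565, nat_lit 6, nat_lit 182, nat_lit 1000, nat_lit 207, nat_lit 565, nat_lit 1169, nat_lit 218, nat_lit 35831, nat_lit 261, nat_lit 43178849, nat_lit 10678978, nat_lit 13142173, nat_lit 4820407, false, false⟩,
 nat_lit 0, nat_lit 4293, nat_lit 0, nat_lit 0, nat_lit 3219, nat_lit 0, nat_lit 0, nat_lit 0, nat_lit 0, nat_lit 0, nat_lit 0, nat_lit 0, nat_lit 0, nat_lit 0, nat_lit 0, nat_lit 340750, nat_lit 0, nat_lit 0, [(nat_lit 18, [(nat_lit 0, nat_lit 395), (nat_lit 1, nat_lit 40), (nat_lit 5, nat_lit 565)])],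
 ⟨p086_k0, nat_lit 0, nat_lit 0, nat_lit 124, nat_lit 0, nat_lit 187346, [nat_lit 1186153334, nat_lit 701116667, nat_lit 239984000], [], [nat_lit 19475754942, nat_lit 20579723720, nat_lit 20079409310, nat_lit 21126552616, nat_lit 21929358822, nat_lit 22955628804, nat_lit 22408219433, nat_lit 23408654703], nat_lit 1271250, nat_lit 1271250, nat_lit 780000, nat_lit 1100001, nat_lit 1271250, nat_lit 1271250, [nat_lit 490000, nat_lit 1100000, nat_lit 1442500], [nat_lit 6, nat_lit 40, nat_lit 40, nat_lit 80, nat_lit 3, nat_lit 249, nat_lit 40, nat_lit 8]⟩, ⟨p086_k1, nat_lit 0, nat_lit 0, nat_lit 394, nat_lit 0, nat_lit 291426, [nat_lit 0, nat_lit 0, nat_lit 0], [], [nat_lit 0, nat_lit 0, nat_lit 0, nat_lit 0, nat_lit 0, nat_lit 0, nat_lit 0, nat_lit 0], nat_lit 1271250, nat_lit 1271250, nat_lit 780000, nat_lit 1100001, nat_lit 0, nat_lit 2570750, [nat_lit 1100000, nat_lit 1785000, nat_lit 1271250], [nat_lit 21, nat_lit 40, nat_lit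 40, nat_lit 80, nat_lit 14, nat_lit 428, nat_lit 200, nat_lit 11]⟩,
 ⟨nat_lit 3872, nat_lit 4473, ⟨.ofNat (nat_lit 407125), .ofNat (nat_lit 475111), .ofNat (nat_lit 428674), .ofNat (nat_lit 496660), .ofNat (nat_lit 414492), .ofNat (nat_lit 479021), .ofNat (nat_lit 436268), .ofNat (nat_lit 500797)⟩, ⟨.ofNat (nat_lit 460144), .ofNat (nat_lit 562111), .ofNat (nat_lit 481711), .ofNat (nat_lit 583678), .ofNat (nat_lit 455554), .ofNat (nat_lit 552336), .ofNat (nat_lit 477347), .ofNat (nat_lit 574129)⟩⟩, [⟨nat_lit 4, nat_lit 100, nat_lit 82, nat_lit 97, nat_lit 257582315⟩]⟩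
noncomputable def b_V_800_600_20_22 : St := ⟨true, nat_lit 1, nat_lit 1, nat_lit 1, nat_lit 120, nat_lit 320, nat_lit 340, nat_lit 240, nat_lit 260, nat_lit 64, nat_lit 160, nat_lit 80, nat_lit 120, nat_lit 240, nat_lit 300, nat_lit 0, nat_lit 364, nat_lit 0, nat_lit 40, nat_lit 0, nat_lit 0, nat_lit 0, nat_lit 0⟩
theorem d_V_800_600_20_22 (h : EB TB.env) : Dead b_V_800_600_20_22 := chkB_sound0 h (T :=
(.spl (nat_lit 3) (nat_lit 100)
(.trX (nat_lit 16) (nat_lit 87) (nat_lit 100) (nat_lit 94) (nat_lit 280) (.trX (nat_lit 19) (nat_lit 100) (nat_lit 68) (nat_lit 88) (nat_lit 352) (.leaf p086_l0)))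
(.spl (nat_lit 2) (nat_lit 120)
(.spl (nat_lit 0) (nat_lit 330)
(.spl (nat_lit 6) (nat_lit 20)
(.spl (nat_lit 2) (nat_lit 80)
(.trX (nat_lit 23) (nat_lit 100) (nat_lit 76) (nat_lit 82) (nat_lit 336) (.spl (nat_lit 6) (nat_lit 8)
(.leaf p086_l1)
(.leaf p086_l2)))
(.spl (nat_lit 6) (nat_lit 8)
(.spl (nat_lit 4) (nat_lit 280)
(.leaf p086_l3)
(.trX (nat_lit 23) (nat_lit 100) (nat_lit 80) (nat_lit 100) (nat_lit 336) (.spl (nat_lit 6) (nat_lit 4)
(.spl (nat_lit 2) (nat_lit 100)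
(.trX (nat_lit 23) (nat_lit 100) (nat_lit 88) (nat_lit 94) (nat_lit 320) (.spl (nat_lit 1) (nat_lit 250)
(.leaf p086_l4)
(.leaf p086_l5)))
(.leaf p086_l6))
(.leaf p086_l7))))
(.leaf p086_l8)))
(.leaf p086_l9))
(.trZ (nat_lit 0) (nat_lit 100) (nat_lit 78) (nat_lit 81) (nat_lit 76) (.trX (nat_lit 16) (nat_lit 83) (nat_lit 98) (nat_lit 100) (nat_lit 288) (.spl (nat_lit 1) (nat_lit 250)
(.leaf p086_l10)
(.trZ (nat_lit 0) (nat_lit 100) (nat_lit 78) (nat_lit 85) (nat_lit 84) (.trX (nat_lit 19) (nat_lit 100) (nat_lit 64) (nat_lit 95) (nat_lit 360) (.leaf p086_l11)))))))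
(.spl (nat_lit 6) (nat_lit 20)
(.spl (nat_lit 6) (nat_lit 8)
(.leaf p086_l12)
(.leaf p086_l13))
(.leaf p086_l14))))) (by decide +kernel)
noncomputable def p086_l15 : Lf2 := ⟨nat_lit 0, nat_lit 10, [nat_lit 0, nat_lit 5, nat_lit 5, nat_lit 20], false, nat_lit 240, nat_lit 280, nat_lit 0, nat_lit 160, ⟨nat_lit 120, nat_lit 0, nat_lit 880, nat_lit 6, nat_lit 173, nat_lit 880, nat_lit 197, nat_lit 880, nat_lit 9526, nat_lit 233, nat_lit 32267, nat_lit 259, nat_lit 44592793, nat_lit 0, nat_lit 0, nat_lit 4664021, false, false⟩,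
 nat_lit 1224, nat_lit 2797, nat_lit 0, nat_lit 0, nat_lit 3015, nat_lit 712, nat_lit 11, nat_lit 0, nat_lit 0, nat_lit 280, nat_lit 0, nat_lit 0, nat_lit 0, nat_lit 0, nat_lit 29, nat_lit 352000, nat_lit 0, nat_lit 0, [(nat_lit 18, [(nat_lit 5, nat_lit 880)])],
 ⟨p086_k0, nat_lit 0, nat_lit 0, nat_lit 178, nat_lit 0, nat_lit 358923, [nat_lit 1293184000, nat_lit 662240000, nat_lit 5424000], [], [nat_lit 18911917840, nat_lit 19152279110, nat_lit 19774861840, nat_lit 20015223110, nat_lit 20414976360, nat_lit 20698254887, nat_lit 21221654980, nat_lit 21458359092], nat_lit 1271250, nat_lit 1271250, nat_lit 490000, nat_lit 1100001, nat_lit 1271250, nat_lit 1271250, [nat_lit 490000, nat_lit 1100000, nat_lit 1442500], [nat_lit 6, nat_lit 40, nat_lit 40, nat_lit 80, nat_lit 3, nat_lit 249, nat_lit 40, nat_lit 8]⟩, ⟨p086_k14, nat_lit 0, nat_lit 0, nat_lit 464, nat_lit 0, nat_lit 493703, [nat_lit 562560000, nat_lit 956160000, nat_lit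 1181040000], [], [nat_lit 4165234064, nat_lit 4071118700, nat_lit 3455901872, nat_lit 3475069452, nat_lit 3591598768, nat_lit 3507724100, nat_lit 4297517312, nat_lit 4215855896], nat_lit 1271250, nat_lit 1271250, nat_lit 490000, nat_lit 1100001, nat_lit 0, nat_lit 1100001, [nat_lit 1100000, nat_lit 1785000, nat_lit 1271250], [nat_lit 29, nat_lit 40, nat_lit 40, nat_lit 80, nat_lit 17, nat_lit 373, nat_lit 150, nat_lit 11]⟩,
 ⟨nat_lit 4330, nat_lit 4473, ⟨.ofNat (nat_lit 360761), .ofNat (nat_lit 496718), .ofNat (nat_lit 366152), .ofNat (nat_lit 502109), .ofNat (nat_lit 363484), .ofNat (nat_lit 497720), .ofNat (nat_lit 368887), .ofNat (nat_lit 503123)⟩, ⟨.ofNat (nat_lit 438578), .ofNat (nat_lit 506556), .ofNat (nat_lit 481711), .ofNat (nat_lit 549689), .ofNat (nat_lit 437434), .ofNat (nat_lit 504552), .ofNat (nat_lit 480662), .ofNat (nat_lit 547779)⟩⟩, [⟨nat_lit 0, nat_lit 100, nat_lit 83, nat_lit 89, nat_lit 38050533⟩,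 ⟨nat_lit 4, nat_lit 100, nat_lit 85, nat_lit 94, nat_lit 51057794⟩]⟩
noncomputable def p086_l16 : Lf2 := ⟨nat_lit 0, nat_lit 10, [nat_lit 0, nat_lit 5, nat_lit 5, nat_lit 20], false, nat_lit 280, nat_lit 300, nat_lit 0, nat_lit 160, ⟨nat_lit 193, nat_lit 117, nat_lit 690, nat_lit 6, nat_lit 158, nat_lit 807, nat_lit 222, nat_lit 690, nat_lit 1169, nat_lit 218, nat_lit 236017, nat_lit 334, nat_lit 43595338, nat_lit 8629185, nat_lit 14775477, nat_lit 4710274, false, false⟩,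
 nat_lit 5190, nat_lit 0, nat_lit 0, nat_lit 0, nat_lit 3892, nat_lit 3020, nat_lit 0, nat_lit 0, nat_lit 0, nat_lit 628, nat_lit 0, nat_lit 0, nat_lit 0, nat_lit 0, nat_lit 0, nat_lit 201750, nat_lit 0, nat_lit 0, [(nat_lit 18, [(nat_lit 0, nat_lit 117), (nat_lit 4, nat_lit 690)])],
 ⟨p086_k15, nat_lit 0, nat_lit 0, nat_lit 136, nat_lit 0, nat_lit 256288, [nat_lit 1599337600, nat_lit 885280000], [], [nat_lit 21335525808, nat_lit 21390036127, nat_lit 21455203136, nat_lit 21507272337, nat_lit 22198847672, nat_lit 22267945023, nat_lit 22279874152, nat_lit 22329724482], nat_lit 1271250, nat_lit 1271250, nat_lit 490000, nat_lit 780000, nat_lit 1271250, nat_lit 1271250, [nat_lit 490000, nat_lit 1427500], [nat_lit 69, nat_lit 40, nat_lit 40, nat_lit 80, nat_lit 64, nat_lit 238, nat_lit 30, nat_lit 8]⟩, ⟨p086_k16, nat_lit 0, nat_lit 0, nat_lit 345, nat_lit 0, nat_lit 352528, [nat_lit 904784000, nat_lit 1899506000], [], [nat_lit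 4945662036, nat_lit 4867024558, nat_lit 3639669890, nat_lit 3666735377, nat_lit 4048613008, nat_lit 3978412806, nat_lit 4986197528, nat_lit 4916922956], nat_lit 1271250, nat_lit 1271250, nat_lit 490000, nat_lit 780000, nat_lit 0, nat_lit 1100001, [nat_lit 1100000, nat_lit 2127500], [nat_lit 70, nat_lit 40, nat_lit 40, nat_lit 80, nat_lit 13, nat_lit 373, nat_lit 150, nat_lit 11]⟩,
 ⟨nat_lit 4444, nat_lit 4473, ⟨.ofNat (nat_lit 360763), .ofNat (nat_lit 428742), .ofNat (nat_lit 361842), .ofNat (nat_lit 429820), .ofNat (nat_lit 361306), .ofNat (nat_lit 429113), .ofNat (nat_lit 362385), .ofNat (nat_lit 430191)⟩, ⟨.ofNat (nat_lit 528122), .ofNat (nat_lit 562111), .ofNat (nat_lit 549689), .ofNat (nat_lit 583678), .ofNat (nat_lit 527733), .ofNat (nat_lit 561636), .ofNat (nat_lit 549309), .ofNat (nat_lit 583212)⟩⟩, [⟨nat_lit 0, nat_lit 100, nat_lit 84, nat_lit 85, nat_lit 73360166⟩, ⟨nat_lit 16, nat_lit 87, nat_lit 95, nat_lit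 100, nat_lit 310338065⟩]⟩
noncomputable def p086_l17 : Lf2 := ⟨nat_lit 0, nat_lit 10, [nat_lit 0, nat_lit 5, nat_lit 5, nat_lit 20], false, nat_lit 280, nat_lit 300, nat_lit 0, nat_lit 160, ⟨nat_lit 716, nat_lit 284, nat_lit 0, nat_lit 6, nat_lit 185, nat_lit 284, nat_lit 222, nat_lit 0, nat_lit 0, nat_lit 0, nat_lit 0, nat_lit 0, nat_lit 41803018, nat_lit 10790562, nat_lit 14406420, nat_lit 4950729, false, false⟩,
 nat_lit 17768, nat_lit 0, nat_lit 0, nat_lit 0, nat_lit 5783, nat_lit 10342, nat_lit 367, nat_lit 0, nat_lit 0, nat_lit 2521, nat_lit 0, nat_lit 0, nat_lit 0, nat_lit 0, nat_lit 0, nat_lit 284000, nat_lit 0, nat_lit 0, [(nat_lit 18, [(nat_lit 2, nat_lit 284)])],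
 ⟨p086_k0, nat_lit 0, nat_lit 0, nat_lit 136, nat_lit 0, nat_lit 256288, [nat_lit 1938242134, nat_lit 3653482667, nat_lit 4349131200], [], [nat_lit 22017811168, nat_lit 22089509283, nat_lit 22244096404, nat_lit 22311609278, nat_lit 23313231127, nat_lit 23399442226, nat_lit 23511987258, nat_lit 23593155254], nat_lit 1271250, nat_lit 1271250, nat_lit 780000, nat_lit 1100001, nat_lit 1271250, nat_lit 1271250, [nat_lit 490000, nat_lit 1100000, nat_lit 1442500], [nat_lit 6, nat_lit 40, nat_lit 40, nat_lit 80, nat_lit 3, nat_lit 249, nat_lit 40, nat_lit 8]⟩, ⟨p086_k14, nat_lit 0, nat_lit 0, nat_lit 353, nat_lit 0, nat_lit 352528, [nat_lit 3356608000, nat_lit 5705088000, nat_lit 7046872000], [], [nat_lit 18659305004, nat_lit 18390010701, nat_lit 12697273220, nat_lit 12847814887, nat_lit 13899759388, nat_lit 13659358564, nat_lit 18501407112, nat_lit 18264176111], nat_lit 1271250, nat_lit 1271250, nat_lit 780000, nat_lit 1100001,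 nat_lit 0, nat_lit 1100001, [nat_lit 1100000, nat_lit 1785000, nat_lit 1271250], [nat_lit 29, nat_lit 40, nat_lit 40, nat_lit 80, nat_lit 17, nat_lit 373, nat_lit 150, nat_lit 11]⟩,
 ⟨nat_lit 4444, nat_lit 4473, ⟨.ofNat (nat_lit 428742), .ofNat (nat_lit 496720), .ofNat (nat_lit 429820), .ofNat (nat_lit 497798), .ofNat (nat_lit 429113), .ofNat (nat_lit 496919), .ofNat (nat_lit 430191), .ofNat (nat_lit 497997)⟩, ⟨.ofNat (nat_lit 528122), .ofNat (nat_lit 562111), .ofNat (nat_lit 549689), .ofNat (nat_lit 583678), .ofNat (nat_lit 527733), .ofNat (nat_lit 561636), .ofNat (nat_lit 549309), .ofNat (nat_lit 583212)⟩⟩, [⟨nat_lit 4, nat_lit 100, nat_lit 89, nat_lit 100, nat_lit 552432009⟩]⟩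
noncomputable def p086_l18 : Lf2 := ⟨nat_lit 0, nat_lit 10, [nat_lit 0, nat_lit 5, nat_lit 5, nat_lit 20], false, nat_lit 280, nat_lit 300, nat_lit 0, nat_lit 160, ⟨nat_lit 182, nat_lit 424, nat_lit 394, nat_lit 6, nat_lit 174, nat_lit 818, nat_lit 222, nat_lit 394, nat_lit 1169, nat_lit 218, nat_lit 36817, nat_lit 262, nat_lit 42586271, nat_lit 9841273, nat_lit 14572456, nat_lit 4851722, false, false⟩,
 nat_lit 5693, nat_lit 0, nat_lit 0, nat_lit 0, nat_lit 4269, nat_lit 3328, nat_lit 0, nat_lit 0, nat_lit 0, nat_lit 582, nat_lit 0, nat_lit 0, nat_lit 0, nat_lit 0, nat_lit 0, nat_lit 357500, nat_lit 0, nat_lit 0, [(nat_lit 18, [(nat_lit 0, nat_lit 221), (nat_lit 2, nat_lit 204), (nat_lit 4, nat_lit 393)])],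
 ⟨p086_k15, nat_lit 0, nat_lit 0, nat_lit 135, nat_lit 0, nat_lit 259387, [nat_lit 1759513601, nat_lit 1267337200], [], [nat_lit 21442147941, nat_lit 21505952126, nat_lit 21797546554, nat_lit 21853648071, nat_lit 22506288677, nat_lit 22582177202, nat_lit 22739353694, nat_lit 22808174187], nat_lit 1271250, nat_lit 1271250, nat_lit 517650, nat_lit 1100001, nat_lit 1271250, nat_lit 1271250, [nat_lit 490000, nat_lit 1427500], [nat_lit 69, nat_lit 40, nat_lit 40, nat_lit 80, nat_lit 64, nat_lit 249, nat_lit 40, nat_lit 8]⟩, ⟨p086_k17, nat_lit 0, nat_lit 0, nat_lit 345, nat_lit 0, nat_lit 354693, [nat_lit 853216000, nat_lit 1791244000], [], [nat_lit 4161401523, nat_lit 4074872525, nat_lit 3624779874, nat_lit 3671202471, nat_lit 3253439154, nat_lit 3176181464, nat_lit 5631231027, nat_lit 5555883776], nat_lit 1271250, nat_lit 1271250, nat_lit 517650, nat_lit 1100001, nat_lit 0, nat_lit 1100001, [nat_lit 1100000, nat_lit 2127500],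 [nat_lit 70, nat_lit 40, nat_lit 40, nat_lit 80, nat_lit 13, nat_lit 373, nat_lit 150, nat_lit 11]⟩,
 ⟨nat_lit 4444, nat_lit 4473, ⟨.ofNat (nat_lit 368640), .ofNat (nat_lit 497798), .ofNat (nat_lit 369718), .ofNat (nat_lit 498876), .ofNat (nat_lit 369166), .ofNat (nat_lit 497997), .ofNat (nat_lit 370245), .ofNat (nat_lit 499076)⟩, ⟨.ofNat (nat_lit 528122), .ofNat (nat_lit 562111), .ofNat (nat_lit 549689), .ofNat (nat_lit 583678), .ofNat (nat_lit 527733), .ofNat (nat_lit 561636), .ofNat (nat_lit 549309), .ofNat (nat_lit 583212)⟩⟩, [⟨nat_lit 16, nat_lit 87, nat_lit 95, nat_lit 100, nat_lit 308480531⟩]⟩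
noncomputable def p086_l19 : Lf2 := ⟨nat_lit 0, nat_lit 10, [nat_lit 0, nat_lit 5, nat_lit 5, nat_lit 20], false, nat_lit 280, nat_lit 300, nat_lit 0, nat_lit 160, ⟨nat_lit 192, nat_lit 528, nat_lit 280, nat_lit 6, nat_lit 174, nat_lit 808, nat_lit 222, nat_lit 280, nat_lit 1169, nat_lit 218, nat_lit 39157, nat_lit 262, nat_lit 42557731, nat_lit 9875737, nat_lit 14566532, nat_lit 4855490, false, false⟩,
 nat_lit 5899, nat_lit 0, nat_lit 0, nat_lit 0, nat_lit 4424, nat_lit 3465, nat_lit 0, nat_lit 0, nat_lit 0, nat_lit 558, nat_lit 0, nat_lit 0, nat_lit 0, nat_lit 0, nat_lit 0, nat_lit 425500, nat_lit 0, nat_lit 0, [(nat_lit 18, [(nat_lit 0, nat_lit 230), (nat_lit 2, nat_lit 298), (nat_lit 4, nat_lit 280)])],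
 ⟨p086_k15, nat_lit 0, nat_lit 0, nat_lit 136, nat_lit 0, nat_lit 262486, [nat_lit 1839812000, nat_lit 1438835360], [], [nat_lit 21539219100, nat_lit 21604168205, nat_lit 21847975072, nat_lit 21906814604, nat_lit 22637628345, nat_lit 22714966672, nat_lit 22818454224, nat_lit 22888538828], nat_lit 1271250, nat_lit 1271250, nat_lit 517650, nat_lit 1100001, nat_lit 1271250, nat_lit 1271250, [nat_lit 490000, nat_lit 1427500], [nat_lit 69, nat_lit 40, nat_lit 40, nat_lit 80, nat_lit 64, nat_lit 249, nat_lit 40, nat_lit 8]⟩, ⟨p086_k18, nat_lit 0, nat_lit 0, nat_lit 346, nat_lit 0, nat_lit 356830, [nat_lit 900096000, nat_lit 1889664000], [], [nat_lit 4380517791, nat_lit 4312870863, nat_lit 3848836123, nat_lit 3897274447, nat_lit 3474006233, nat_lit 3393568164, nat_lit 5957512758, nat_lit 5879063772], nat_lit 1271250, nat_lit 1271250, nat_lit 517650, nat_lit 1100001, nat_lit 0, nat_lit 1100001, [nat_lit 1100000, nat_lit 2127500],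 [nat_lit 70, nat_lit 40, nat_lit 40, nat_lit 80, nat_lit 13, nat_lit 373, nat_lit 150, nat_lit 11]⟩,
 ⟨nat_lit 4444, nat_lit 4473, ⟨.ofNat (nat_lit 369718), .ofNat (nat_lit 498876), .ofNat (nat_lit 370796), .ofNat (nat_lit 499955), .ofNat (nat_lit 370245), .ofNat (nat_lit 499076), .ofNat (nat_lit 371323), .ofNat (nat_lit 500155)⟩, ⟨.ofNat (nat_lit 528122), .ofNat (nat_lit 562111), .ofNat (nat_lit 549689), .ofNat (nat_lit 583678), .ofNat (nat_lit 527733), .ofNat (nat_lit 561636), .ofNat (nat_lit 549309), .ofNat (nat_lit 583212)⟩⟩, [⟨nat_lit 16, nat_lit 87, nat_lit 95, nat_lit 100, nat_lit 308323637⟩]⟩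
noncomputable def p086_l20 : Lf2 := ⟨nat_lit 0, nat_lit 10, [nat_lit 0, nat_lit 5, nat_lit 5, nat_lit 20], false, nat_lit 280, nat_lit 300, nat_lit 0, nat_lit 160, ⟨nat_lit 179, nat_lit 424, nat_lit 397, nat_lit 6, nat_lit 174, nat_lit 821, nat_lit 222, nat_lit 397, nat_lit 153, nat_lit 218, nat_lit 35267, nat_lit 261, nat_lit 42590118, nat_lit 9854718, nat_lit 14555164, nat_lit 4851879, false, false⟩,
 nat_lit 5608, nat_lit 0, nat_lit 0, nat_lit 0, nat_lit 4222, nat_lit 3264, nat_lit 0, nat_lit 0, nat_lit 0, nat_lit 567, nat_lit 0, nat_lit 0, nat_lit 0, nat_lit 0, nat_lit 0, nat_lit 366650, nat_lit 0, nat_lit 0, [(nat_lit 18, [(nat_lit 1, nat_lit 261), (nat_lit 2, nat_lit 163), (nat_lit 4, nat_lit 397)])],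
 ⟨p086_k19, nat_lit 0, nat_lit 0, nat_lit 137, nat_lit 0, nat_lit 266609, [nat_lit 1729840400, nat_lit 1219331720], [], [nat_lit 21480167664, nat_lit 21543624680, nat_lit 21842751402, nat_lit 21899074131, nat_lit 22541912009, nat_lit 22617360917, nat_lit 22783805555, nat_lit 22852242737], nat_lit 1271250, nat_lit 1271250, nat_lit 517650, nat_lit 1100001, nat_lit 1271250, nat_lit 1271250, [nat_lit 490000, nat_lit 1427500], [nat_lit 69, nat_lit 40, nat_lit 40, nat_lit 80, nat_lit 64, nat_lit 249, nat_lit 40, nat_lit 8]⟩, ⟨p086_k16, nat_lit 0, nat_lit 0, nat_lit 349, nat_lit 0, nat_lit 368488, [nat_lit 839152000, nat_lit 1761718000], [], [nat_lit 4262495782, nat_lit 4046811053, nat_lit 3514785534, nat_lit 3651437724, nat_lit 3368718015, nat_lit 3141402120, nat_lit 5700074124, nat_lit 5478379328], nat_lit 1271250, nat_lit 1271250, nat_lit 517650, nat_lit 1100001, nat_lit 0, nat_lit 1100001, [nat_lit 1100000, nat_lit 2127500],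 [nat_lit 70, nat_lit 40, nat_lit 40, nat_lit 80, nat_lit 13, nat_lit 373, nat_lit 150, nat_lit 11]⟩,
 ⟨nat_lit 4415, nat_lit 4445, ⟨.ofNat (nat_lit 368087), .ofNat (nat_lit 496919), .ofNat (nat_lit 371323), .ofNat (nat_lit 500155), .ofNat (nat_lit 368614), .ofNat (nat_lit 497118), .ofNat (nat_lit 371851), .ofNat (nat_lit 500356)⟩, ⟨.ofNat (nat_lit 527733), .ofNat (nat_lit 561636), .ofNat (nat_lit 549309), .ofNat (nat_lit 583212), .ofNat (nat_lit 527343), .ofNat (nat_lit 561160), .ofNat (nat_lit 548928), .ofNat (nat_lit 582745)⟩⟩, [⟨nat_lit 16, nat_lit 87, nat_lit 95, nat_lit 100, nat_lit 306791642⟩]⟩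
noncomputable def p086_l21 : Lf2 := ⟨nat_lit 0, nat_lit 10, [nat_lit 0, nat_lit 5, nat_lit 5, nat_lit 20], false, nat_lit 280, nat_lit 300, nat_lit 0, nat_lit 160, ⟨nat_lit 179, nat_lit 433, nat_lit 388, nat_lit 6, nat_lit 174, nat_lit 821, nat_lit 222, nat_lit 388, nat_lit 4962, nat_lit 219, nat_lit 35267, nat_lit 261, nat_lit 42593959, nat_lit 9868203, nat_lit 14537838, nat_lit 4852034, false, false⟩,
 nat_lit 5588, nat_lit 0, nat_lit 0, nat_lit 0, nat_lit 4223, nat_lit 3252, nat_lit 0, nat_lit 0, nat_lit 0, nat_lit 568, nat_lit 0, nat_lit 0, nat_lit 0, nat_lit 0, nat_lit 0, nat_lit 371000, nat_lit 0, nat_lit 0, [(nat_lit 18, [(nat_lit 1, nat_lit 265), (nat_lit 2, nat_lit 168), (nat_lit 4, nat_lit 388)])],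
 ⟨p086_k20, nat_lit 0, nat_lit 0, nat_lit 138, nat_lit 0, nat_lit 270690, [nat_lit 1734016800, nat_lit 1234806360], [], [nat_lit 21558633919, nat_lit 21622098321, nat_lit 21915562752, nat_lit 21971348443, nat_lit 22618226977, nat_lit 22693685239, nat_lit 22852769374, nat_lit 22921214711], nat_lit 1271250, nat_lit 1271250, nat_lit 517650, nat_lit 1100001, nat_lit 1271250, nat_lit 1271250, [nat_lit 490000, nat_lit 1427500], [nat_lit 69, nat_lit 40, nat_lit 40, nat_lit 80, nat_lit 64, nat_lit 249, nat_lit 40, nat_lit 8]⟩, ⟨p086_k16, nat_lit 0, nat_lit 0, nat_lit 352, nat_lit 0, nat_lit 375924, [nat_lit 839152000, nat_lit 1761718000], [], [nat_lit 4261914353, nat_lit 4037543107, nat_lit 3508764006, nat_lit 3644996223, nat_lit 3379078472, nat_lit 3152598297, nat_lit 5703396372, nat_lit 5482516630], nat_lit 1271250, nat_lit 1271250, nat_lit 517650, nat_lit 1100001, nat_lit 0, nat_lit 1100001, [nat_lit 1100000, nat_lit 2127500],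 [nat_lit 70, nat_lit 40, nat_lit 40, nat_lit 80, nat_lit 13, nat_lit 373, nat_lit 150, nat_lit 11]⟩,
 ⟨nat_lit 4387, nat_lit 4416, ⟨.ofNat (nat_lit 368614), .ofNat (nat_lit 497118), .ofNat (nat_lit 371851), .ofNat (nat_lit 500356), .ofNat (nat_lit 369141), .ofNat (nat_lit 497319), .ofNat (nat_lit 372380), .ofNat (nat_lit 500558)⟩, ⟨.ofNat (nat_lit 527343), .ofNat (nat_lit 561160), .ofNat (nat_lit 548928), .ofNat (nat_lit 582745), .ofNat (nat_lit 526952), .ofNat (nat_lit 560683), .ofNat (nat_lit 548546), .ofNat (nat_lit 582277)⟩⟩, [⟨nat_lit 16, nat_lit 86, nat_lit 96, nat_lit 100, nat_lit 309402666⟩]⟩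
noncomputable def p086_l22 : Lf2 := ⟨nat_lit 0, nat_lit 10, [nat_lit 0, nat_lit 5, nat_lit 5, nat_lit 20], false, nat_lit 280, nat_lit 300, nat_lit 0, nat_lit 160, ⟨nat_lit 210, nat_lit 214, nat_lit 576, nat_lit 6, nat_lit 175, nat_lit 790, nat_lit 218, nat_lit 576, nat_lit 1169, nat_lit 218, nat_lit 35812, nat_lit 260, nat_lit 42857073, nat_lit 9987341, nat_lit 14155586, nat_lit 4832657, false, false⟩,
 nat_lit 5756, nat_lit 0, nat_lit 0, nat_lit 0, nat_lit 4317, nat_lit 3396, nat_lit 0, nat_lit 0, nat_lit 0, nat_lit 751, nat_lit 0, nat_lit 0, nat_lit 0, nat_lit 0, nat_lit 0, nat_lit 229000, nat_lit 0, nat_lit 0, [(nat_lit 18, [(nat_lit 0, nat_lit 172), (nat_lit 2, nat_lit 42), (nat_lit 4, nat_lit 576)])],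
 ⟨p086_k15, nat_lit 0, nat_lit 0, nat_lit 186, nat_lit 0, nat_lit 347844, [nat_lit 1644215201, nat_lit 1216380000], [], [nat_lit 21727532698, nat_lit 21881258545, nat_lit 21979649332, nat_lit 22119320260, nat_lit 22546961606, nat_lit 22775974095, nat_lit 22763849342, nat_lit 22971485221], nat_lit 1271250, nat_lit 1271250, nat_lit 517650, nat_lit 1100001, nat_lit 1271250, nat_lit 1271250, [nat_lit 490000, nat_lit 1427500], [nat_lit 69, nat_lit 40, nat_lit 40, nat_lit 80, nat_lit 64, nat_lit 249, nat_lit 40, nat_lit 8]⟩, ⟨p086_k21, nat_lit 0, nat_lit 0, nat_lit 444, nat_lit 0, nat_lit 470109, [nat_lit 984480000, nat_lit 2066820000], [], [nat_lit 4413025631, nat_lit 4521288776, nat_lit 4051231871, nat_lit 4148001621, nat_lit 3685066269, nat_lit 3527393725, nat_lit 6171902621, nat_lit 6018129024], nat_lit 1271250, nat_lit 1271250, nat_lit 517650, nat_lit 1100001, nat_lit 0, nat_lit 1100001, [nat_lit 1100000, nat_lit 2127500],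 [nat_lit 70, nat_lit 40, nat_lit 40, nat_lit 80, nat_lit 13, nat_lit 373, nat_lit 150, nat_lit 11]⟩,
 ⟨nat_lit 4387, nat_lit 4473, ⟨.ofNat (nat_lit 370795), .ofNat (nat_lit 499954), .ofNat (nat_lit 372952), .ofNat (nat_lit 502111), .ofNat (nat_lit 372379), .ofNat (nat_lit 500557), .ofNat (nat_lit 374539), .ofNat (nat_lit 502716)⟩, ⟨.ofNat (nat_lit 506556), .ofNat (nat_lit 540545), .ofNat (nat_lit 549689), .ofNat (nat_lit 583678), .ofNat (nat_lit 505358), .ofNat (nat_lit 539089), .ofNat (nat_lit 548546), .ofNat (nat_lit 582277)⟩⟩, [⟨nat_lit 16, nat_lit 87, nat_lit 95, nat_lit 100, nat_lit 290800451⟩]⟩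
noncomputable def p086_l23 : Lf2 := ⟨nat_lit 0, nat_lit 10, [nat_lit 0, nat_lit 5, nat_lit 5, nat_lit 20], false, nat_lit 280, nat_lit 296, nat_lit 0, nat_lit 160, ⟨nat_lit 160, nat_lit 211, nat_lit 629, nat_lit 6, nat_lit 175, nat_lit 840, nat_lit 216, nat_lit 629, nat_lit 674, nat_lit 221, nat_lit 32267, nat_lit 259, nat_lit 43015785, nat_lit 9983419, nat_lit 14000796, nat_lit 4818031, false, false⟩,
 nat_lit 4956, nat_lit 0, nat_lit 0, nat_lit 0, nat_lit 3760, nat_lit 2884, nat_lit 0, nat_lit 0, nat_lit 0, nat_lit 500, nat_lit 0, nat_lit 0, nat_lit 0, nat_lit 0, nat_lit 0, nat_lit 348600, nat_lit 0, nat_lit 0, [(nat_lit 18, [(nat_lit 1, nat_lit 190), (nat_lit 2, nat_lit 21), (nat_lit 5, nat_lit 629)])],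
 ⟨p086_k22, nat_lit 0, nat_lit 0, nat_lit 190, nat_lit 0, nat_lit 353807, [nat_lit 1348715001, nat_lit 553776500], [], [nat_lit 21443539820, nat_lit 21534701997, nat_lit 21866030706, nat_lit 21949214801, nat_lit 22057630884, nat_lit 22201371818, nat_lit 22463427631, nat_lit 22594067320], nat_lit 1271250, nat_lit 1271250, nat_lit 517650, nat_lit 1100001, nat_lit 1271250, nat_lit 1271250, [nat_lit 490000, nat_lit 1427500], [nat_lit 69, nat_lit 40, nat_lit 40, nat_lit 80, nat_lit 64, nat_lit 249, nat_lit 40, nat_lit 8]⟩, ⟨p086_k16, nat_lit 0, nat_lit 0, nat_lit 452, nat_lit 0, nat_lit 493703, [nat_lit 750080000, nat_lit 1574720000], [], [nat_lit 3832213642, nat_lit 3681672820, nat_lit 3124876616, nat_lit 3326498814, nat_lit 3063890443, nat_lit 2729138074, nat_lit 5128111264, nat_lit 4801636696], nat_lit 1271250, nat_lit 1271250, nat_lit 517650, nat_lit 1100001, nat_lit 0, nat_lit 1100001, [nat_lit 1100000, nat_lit 2127500],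 [nat_lit 70, nat_lit 40, nat_lit 40, nat_lit 80, nat_lit 13, nat_lit 373, nat_lit 150, nat_lit 11]⟩,
 ⟨nat_lit 4330, nat_lit 4388, ⟨.ofNat (nat_lit 369141), .ofNat (nat_lit 497318), .ofNat (nat_lit 374539), .ofNat (nat_lit 502717), .ofNat (nat_lit 370198), .ofNat (nat_lit 497721), .ofNat (nat_lit 375601), .ofNat (nat_lit 503125)⟩, ⟨.ofNat (nat_lit 505358), .ofNat (nat_lit 532343), .ofNat (nat_lit 548546), .ofNat (nat_lit 575531), .ofNat (nat_lit 504552), .ofNat (nat_lit 531399), .ofNat (nat_lit 547779), .ofNat (nat_lit 574626)⟩⟩, [⟨nat_lit 16, nat_lit 86, nat_lit 96, nat_lit 100, nat_lit 251900285⟩]⟩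
noncomputable def p086_l24 : Lf2 := ⟨nat_lit 0, nat_lit 10, [nat_lit 0, nat_lit 5, nat_lit 5, nat_lit 20], false, nat_lit 240, nat_lit 296, nat_lit 0, nat_lit 160, ⟨nat_lit 148, nat_lit 140, nat_lit 712, nat_lit 6, nat_lit 176, nat_lit 852, nat_lit 202, nat_lit 712, nat_lit 4420, nat_lit 222, nat_lit 34517, nat_lit 259, nat_lit 43978709, nat_lit 10277076, nat_lit 12744215, nat_lit 4732423, false, false⟩,
 nat_lit 4699, nat_lit 0, nat_lit 0, nat_lit 0, nat_lit 3593, nat_lit 2735, nat_lit 0, nat_lit 0, nat_lit 0, nat_lit 518, nat_lit 0, nat_lit 0, nat_lit 0, nat_lit 0, nat_lit 0, nat_lit 319800, nat_lit 0, nat_lit 0, [(nat_lit 18, [(nat_lit 0, nat_lit 140), (nat_lit 5, nat_lit 712)])],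
 ⟨p086_k23, nat_lit 0, nat_lit 0, nat_lit 203, nat_lit 0, nat_lit 377907, [nat_lit 1287848001, nat_lit 335180000], [], [nat_lit 20013687780, nat_lit 20254538434, nat_lit 20581857609, nat_lit 20802461709, nat_lit 22054328920, nat_lit 22404216381, nat_lit 22505685994, nat_lit 22825368095], nat_lit 1271250, nat_lit 1271250, nat_lit 545600, nat_lit 1100001, nat_lit 1271250, nat_lit 1271250, [nat_lit 490000, nat_lit 1427500], [nat_lit 69, nat_lit 40, nat_lit 40, nat_lit 80, nat_lit 64, nat_lit 249, nat_lit 40, nat_lit 8]⟩, ⟨p086_k16, nat_lit 0, nat_lit 0, nat_lit 463, nat_lit 0, nat_lit 532368, [nat_lit 693824000, nat_lit 1456616000], [], [nat_lit 3200720275, nat_lit 3413047265, nat_lit 2924281606, nat_lit 3114707715, nat_lit 2694445200, nat_lit 2377406735, nat_lit 4573627520, nat_lit 4264020050], nat_lit 1271250, nat_lit 1271250, nat_lit 545600, nat_lit 1100001, nat_lit 0, nat_lit 1100001, [nat_lit 1100000, nat_lit 2127500],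 [nat_lit 70, nat_lit 40, nat_lit 40, nat_lit 80, nat_lit 13, nat_lit 373, nat_lit 150, nat_lit 11]⟩,
 ⟨nat_lit 4183, nat_lit 4331, ⟨.ofNat (nat_lit 376907), .ofNat (nat_lit 497719), .ofNat (nat_lit 382310), .ofNat (nat_lit 503122), .ofNat (nat_lit 379480), .ofNat (nat_lit 498740), .ofNat (nat_lit 384896), .ofNat (nat_lit 504157)⟩, ⟨.ofNat (nat_lit 437434), .ofNat (nat_lit 531399), .ofNat (nat_lit 480662), .ofNat (nat_lit 574626), .ofNat (nat_lit 436254), .ofNat (nat_lit 529012), .ofNat (nat_lit 479587), .ofNat (nat_lit 572345)⟩⟩, [⟨nat_lit 16, nat_lit 85, nat_lit 97, nat_lit 100, nat_lit 251537908⟩]⟩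
noncomputable def p086_l25 : Lf2 := ⟨nat_lit 0, nat_lit 10, [nat_lit 0, nat_lit 5, nat_lit 5, nat_lit 20], false, nat_lit 240, nat_lit 300, nat_lit 0, nat_lit 160, ⟨nat_lit 230, nat_lit 88, nat_lit 682, nat_lit 6, nat_lit 177, nat_lit 770, nat_lit 204, nat_lit 682, nat_lit 1169, nat_lit 218, nat_lit 28134, nat_lit 255, nat_lit 43815112, nat_lit 10297946, nat_lit 12886942, nat_lit 4749428, false, false⟩,
 nat_lit 5551, nat_lit 0, nat_lit 0, nat_lit 0, nat_lit 4163, nat_lit 3305, nat_lit 0, nat_lit 0, nat_lit 0, nat_lit 813, nat_lit 0, nat_lit 0, nat_lit 0, nat_lit 0, nat_lit 0, nat_lit 192500, nat_lit 0, nat_lit 0, [(nat_lit 18, [(nat_lit 0, nat_lit 88), (nat_lit 4, nat_lit 682)])],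
 ⟨p086_k15, nat_lit 0, nat_lit 0, nat_lit 211, nat_lit 0, nat_lit 402630, [nat_lit 1618153601, nat_lit 1049428800], [], [nat_lit 20189303716, nat_lit 20704743371, nat_lit 20654675629, nat_lit 21122901829, nat_lit 22418198173, nat_lit 23165439781, nat_lit 22685259138, nat_lit 23364819185], nat_lit 1271250, nat_lit 1271250, nat_lit 517650, nat_lit 1100001, nat_lit 1271250, nat_lit 1271250, [nat_lit 490000, nat_lit 1427500], [nat_lit 69, nat_lit 40, nat_lit 40, nat_lit 80, nat_lit 64, nat_lit 249, nat_lit 40, nat_lit 8]⟩, ⟨p086_k24, nat_lit 0, nat_lit 0, nat_lit 466, nat_lit 0, nat_lit 537862, [nat_lit 1078240000, nat_lit 2263660000], [], [nat_lit 4620869951, nat_lit 4889948177, nat_lit 4310918213, nat_lit 4551709595, nat_lit 4170992292, nat_lit 3787373506, nat_lit 6654681395, nat_lit 6280548785], nat_lit 1271250, nat_lit 1271250, nat_lit 517650, nat_lit 1100001, nat_lit 0, nat_lit 1100001, [nat_lit 1100000, nat_lit 2127500],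 [nat_lit 70, nat_lit 40, nat_lit 40, nat_lit 80, nat_lit 13, nat_lit 373, nat_lit 150, nat_lit 11]⟩,
 ⟨nat_lit 4183, nat_lit 4473, ⟨.ofNat (nat_lit 372938), .ofNat (nat_lit 502099), .ofNat (nat_lit 378329), .ofNat (nat_lit 507489), .ofNat (nat_lit 378259), .ofNat (nat_lit 504147), .ofNat (nat_lit 383675), .ofNat (nat_lit 509562)⟩, ⟨.ofNat (nat_lit 438578), .ofNat (nat_lit 540545), .ofNat (nat_lit 481711), .ofNat (nat_lit 583678), .ofNat (nat_lit 436254), .ofNat (nat_lit 535637), .ofNat (nat_lit 479587), .ofNat (nat_lit 578971)⟩⟩, [⟨nat_lit 0, nat_lit 100, nat_lit 83, nat_lit 90, nat_lit 697860⟩, ⟨nat_lit 16, nat_lit 87, nat_lit 95, nat_lit 100, nat_lit 276905167⟩]⟩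
noncomputable def p086_l26 : Lf2 := ⟨nat_lit 0, nat_lit 10, [nat_lit 0, nat_lit 5, nat_lit 5, nat_lit 20], false, nat_lit 240, nat_lit 288, nat_lit 0, nat_lit 160, ⟨nat_lit 159, nat_lit 121, nat_lit 720, nat_lit 6, nat_lit 180, nat_lit 841, nat_lit 198, nat_lit 720, nat_lit 3485, nat_lit 228, nat_lit 28555, nat_lit 254, nat_lit 44014432, nat_lit 10603036, nat_lit 12382532, nat_lit 4734428, false, false⟩,
 nat_lit 4622, nat_lit 0, nat_lit 0, nat_lit 0, nat_lit 3602, nat_lit 2690, nat_lit 0, nat_lit 0, nat_lit 0, nat_lit 591, nat_lit 0, nat_lit 0, nat_lit 0, nat_lit 0, nat_lit 0, nat_lit 318250, nat_lit 0, nat_lit 0, [(nat_lit 18, [(nat_lit 0, nat_lit 121), (nat_lit 5, nat_lit 720)])],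
 ⟨p086_k25, nat_lit 0, nat_lit 0, nat_lit 218, nat_lit 0, nat_lit 437808, [nat_lit 1289756801, nat_lit 343981600], [], [nat_lit 20267919712, nat_lit 20747988186, nat_lit 20799262713, nat_lit 21240897513, nat_lit 21968876765, nat_lit 22680646679, nat_lit 22425964491, nat_lit 23078678948], nat_lit 1271250, nat_lit 1271250, nat_lit 573850, nat_lit 1100001, nat_lit 1271250, nat_lit 1271250, [nat_lit 490000, nat_lit 1427500], [nat_lit 69, nat_lit 40, nat_lit 40, nat_lit 80, nat_lit 64, nat_lit 249, nat_lit 40, nat_lit 8]⟩, ⟨p086_k16, nat_lit 0, nat_lit 0, nat_lit 494, nat_lit 0, nat_lit 631423, [nat_lit 745392000, nat_lit 1564878000], [], [nat_lit 3218992245, nat_lit 3640661098, nat_lit 3017042938, nat_lit 3397237989, nat_lit 3143526966, nat_lit 2520707232, nat_lit 4948115420, nat_lit 4339088660], nat_lit 1271250, nat_lit 1271250, nat_lit 573850, nat_lit 1100001, nat_lit 0, nat_lit 1100001, [nat_lit 1100000, nat_lit 2127500],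 [nat_lit 70, nat_lit 40, nat_lit 40, nat_lit 80, nat_lit 13, nat_lit 373, nat_lit 150, nat_lit 11]⟩,
 ⟨nat_lit 3872, nat_lit 4184, ⟨.ofNat (nat_lit 386087), .ofNat (nat_lit 498726), .ofNat (nat_lit 396918), .ofNat (nat_lit 509557), .ofNat (nat_lit 391148), .ofNat (nat_lit 500840), .ofNat (nat_lit 402043), .ofNat (nat_lit 511734)⟩, ⟨.ofNat (nat_lit 436254), .ofNat (nat_lit 515761), .ofNat (nat_lit 479587), .ofNat (nat_lit 559094), .ofNat (nat_lit 433760), .ofNat (nat_lit 511186), .ofNat (nat_lit 477347), .ofNat (nat_lit 554773)⟩⟩, [⟨nat_lit 16, nat_lit 83, nat_lit 98, nat_lit 100, nat_lit 258217064⟩]⟩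
noncomputable def p086_l27 : Lf2 := ⟨nat_lit 0, nat_lit 10, [nat_lit 0, nat_lit 5, nat_lit 5, nat_lit 20], false, nat_lit 240, nat_lit 300, nat_lit 0, nat_lit 160, ⟨nat_lit 404, nat_lit 57, nat_lit 539, nat_lit 6, nat_lit 183, nat_lit 596, nat_lit 203, nat_lit 539, nat_lit 1169, nat_lit 218, nat_lit 19503, nat_lit 247, nat_lit 43400923, nat_lit 10854897, nat_lit 12744180, nat_lit 4801329, false, false⟩,
 nat_lit 7914, nat_lit 0, nat_lit 0, nat_lit 0, nat_lit 4954, nat_lit 4819, nat_lit 0, nat_lit 0, nat_lit 0, nat_lit 1459, nat_lit 0, nat_lit 0, nat_lit 0, nat_lit 0, nat_lit 0, nat_lit 148025, nat_lit 0, nat_lit 0, [(nat_lit 18, [(nat_lit 0, nat_lit 57), (nat_lit 3, nat_lit 13), (nat_lit 4, nat_lit 526)])],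
 ⟨p086_k15, nat_lit 0, nat_lit 0, nat_lit 232, nat_lit 0, nat_lit 490017, [nat_lit 1870395201, nat_lit 2189992400], [], [nat_lit 21000184811, nat_lit 22180808510, nat_lit 21265251450, nat_lit 22333376192, nat_lit 23477852089, nat_lit 24650677951, nat_lit 23509654124, nat_lit 24577067898], nat_lit 1271250, nat_lit 1271250, nat_lit 573850, nat_lit 1100001, nat_lit 1271250, nat_lit 1271250, [nat_lit 490000, nat_lit 1427500], [nat_lit 69, nat_lit 40, nat_lit 40, nat_lit 80, nat_lit 64, nat_lit 249, nat_lit 40, nat_lit 8]⟩, ⟨p086_k26, nat_lit 0, nat_lit 0, nat_lit 496, nat_lit 0, nat_lit 636086, [nat_lit 1893952000, nat_lit 3976168000], [], [nat_lit 7598681011, nat_lit 8406555504, nat_lit 7385193971, nat_lit 8116043288, nat_lit 7228963438, nat_lit 6113213140, nat_lit 10737286028, nat_lit 9646245152], nat_lit 1271250, nat_lit 1271250, nat_lit 573850, nat_lit 1100001, nat_lit 0, nat_lit 1100001, [nat_lit 1100000, nat_lit 2127500],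 [nat_lit 70, nat_lit 40, nat_lit 40, nat_lit 80, nat_lit 13, nat_lit 373, nat_lit 150, nat_lit 11]⟩,
 ⟨nat_lit 3872, nat_lit 4473, ⟨.ofNat (nat_lit 391858), .ofNat (nat_lit 507435), .ofNat (nat_lit 402633), .ofNat (nat_lit 518209), .ofNat (nat_lit 401985), .ofNat (nat_lit 511685), .ofNat (nat_lit 412873), .ofNat (nat_lit 522572)⟩, ⟨.ofNat (nat_lit 438578), .ofNat (nat_lit 540545), .ofNat (nat_lit 481711), .ofNat (nat_lit 583678), .ofNat (nat_lit 433760), .ofNat (nat_lit 530543), .ofNat (nat_lit 477347), .ofNat (nat_lit 574129)⟩⟩, [⟨nat_lit 16, nat_lit 87, nat_lit 95, nat_lit 100, nat_lit 347401685⟩]⟩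
noncomputable def b_V_800_600_20_23 : St := ⟨true, nat_lit 1, nat_lit 1, nat_lit 1, nat_lit 120, nat_lit 320, nat_lit 340, nat_lit 260, nat_lit 280, nat_lit 80, nat_lit 160, nat_lit 80, nat_lit 120, nat_lit 240, nat_lit 300, nat_lit 0, nat_lit 160, nat_lit 0, nat_lit 40, nat_lit 0, nat_lit 0, nat_lit 0, nat_lit 0⟩
theorem d_V_800_600_20_23 (h : EB TB.env) : Dead b_V_800_600_20_23 := chkB_sound0 h (T :=
(.spl (nat_lit 1) (nat_lit 270)
(.spl (nat_lit 0) (nat_lit 330)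
(.spl (nat_lit 1) (nat_lit 265)
(.spl (nat_lit 0) (nat_lit 325)
(.spl (nat_lit 4) (nat_lit 280)
(.leaf p086_l15)
(.spl (nat_lit 0) (nat_lit 323)
(.spl (nat_lit 1) (nat_lit 263)
(.spl (nat_lit 3) (nat_lit 100)
(.emL (nat_lit 16) (nat_lit 87) (nat_lit 100) (nat_lit 94))
(.spl (nat_lit 0) (nat_lit 322)
(.spl (nat_lit 0) (nat_lit 321)
(.spl (nat_lit 1) (nat_lit 262)
(.spl (nat_lit 1) (nat_lit 261)
(.spl (nat_lit 2) (nat_lit 120)
(.leaf p086_l16)
(.leaf p086_l17))
(.trZ (nat_lit 0) (nat_lit 100) (nat_lit 84) (nat_lit 86) (nat_lit 84) (.leaf p086_l18)))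
(.trZ (nat_lit 0) (nat_lit 100) (nat_lit 84) (nat_lit 86) (nat_lit 84) (.leaf p086_l19)))
(.trZ (nat_lit 0) (nat_lit 100) (nat_lit 83) (nat_lit 86) (nat_lit 84) (.leaf p086_l20)))
(.trZ (nat_lit 0) (nat_lit 100) (nat_lit 83) (nat_lit 86) (nat_lit 84) (.leaf p086_l21))))
(.trZ (nat_lit 0) (nat_lit 100) (nat_lit 84) (nat_lit 87) (nat_lit 84) (.leaf p086_l22)))
(.trZ (nat_lit 0) (nat_lit 100) (nat_lit 83) (nat_lit 86) (nat_lit 84) (.trX (nat_lit 16) (nat_lit 86) (nat_lit 96) (nat_lit 100) (nat_lit 296) (.leaf p086_l23)))))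
(.trZ (nat_lit 0) (nat_lit 100) (nat_lit 82) (nat_lit 87) (nat_lit 88) (.trX (nat_lit 16) (nat_lit 85) (nat_lit 97) (nat_lit 100) (nat_lit 296) (.leaf p086_l24))))
(.trZ (nat_lit 0) (nat_lit 100) (nat_lit 85) (nat_lit 87) (nat_lit 84) (.leaf p086_l25)))
(.trZ (nat_lit 0) (nat_lit 100) (nat_lit 80) (nat_lit 89) (nat_lit 92) (.trX (nat_lit 16) (nat_lit 83) (nat_lit 98) (nat_lit 100) (nat_lit 288) (.leaf p086_l26))))
(.trZ (nat_lit 0) (nat_lit 100) (nat_lit 85) (nat_lit 90) (nat_lit 92) (.leaf p086_l27)))) (by decide +kernel)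
noncomputable def p086_l28 : Lf2 := ⟨nat_lit 0, nat_lit 10, [nat_lit 0, nat_lit 5, nat_lit 5, nat_lit 20], false, nat_lit 240, nat_lit 300, nat_lit 160, nat_lit 240, ⟨nat_lit 278, nat_lit 0, nat_lit 722, nat_lit 6, nat_lit 177, nat_lit 722, nat_lit 203, nat_lit 722, nat_lit 1169, nat_lit 218, nat_lit 19503, nat_lit 247, nat_lit 43837115, nat_lit 0, nat_lit 0, nat_lit 4748205, false, false⟩,
 nat_lit 4942, nat_lit 0, nat_lit 0, nat_lit 0, nat_lit 3706, nat_lit 2876, nat_lit 0, nat_lit 0, nat_lit 0, nat_lit 560, nat_lit 0, nat_lit 0, nat_lit 0, nat_lit 0, nat_lit 0, nat_lit 322400, nat_lit 0, nat_lit 0, [(nat_lit 18, [(nat_lit 5, nat_lit 666), (nat_lit 6, nat_lit 56)])],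
 ⟨p086_k0, nat_lit 0, nat_lit 0, nat_lit 248, nat_lit 0, nat_lit 490017, [nat_lit 1242821867, nat_lit 958114934, nat_lit 516592000], [], [nat_lit 20058720639, nat_lit 20950393191, nat_lit 20637406071, nat_lit 21447364499, nat_lit 22033283572, nat_lit 23451898979, nat_lit 22452040156, nat_lit 23736618522], nat_lit 1271250, nat_lit 1271250, nat_lit 490000, nat_lit 1100001, nat_lit 1271250, nat_lit 1271250, [nat_lit 490000, nat_lit 1100000, nat_lit 1442500], [nat_lit 6, nat_lit 40, nat_lit 40, nat_lit 80, nat_lit 3, nat_lit 249, nat_lit 40, nat_lit 8]⟩, ⟨p086_k14, nat_lit 0, nat_lit 0, nat_lit 437, nat_lit 0, nat_lit 674024, [nat_lit 1303264000, nat_lit 2215104000, nat_lit 2736076000], [], [nat_lit 5036724336, nat_lit 4085425496, nat_lit 4611137008, nat_lit 3784971280, nat_lit 5557311776, nat_lit 4670578576, nat_lit 7757220952, nat_lit 6402032496], nat_lit 1271250, nat_lit 1271250, nat_lit 490000, nat_lit 1100001, nat_lit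 1100001, nat_lit 1785000, [nat_lit 1100000, nat_lit 1785000, nat_lit 1271250], [nat_lit 29, nat_lit 40, nat_lit 40, nat_lit 80, nat_lit 17, nat_lit 401, nat_lit 175, nat_lit 11]⟩,
 ⟨nat_lit 3872, nat_lit 4473, ⟨.ofNat (nat_lit 360688), .ofNat (nat_lit 496660), .ofNat (nat_lit 382237), .ofNat (nat_lit 518209), .ofNat (nat_lit 371739), .ofNat (nat_lit 500797), .ofNat (nat_lit 393514), .ofNat (nat_lit 522572)⟩, ⟨.ofNat (nat_lit 438578), .ofNat (nat_lit 540545), .ofNat (nat_lit 481711), .ofNat (nat_lit 583678), .ofNat (nat_lit 433760), .ofNat (nat_lit 530543), .ofNat (nat_lit 477347), .ofNat (nat_lit 574129)⟩⟩, [⟨nat_lit 0, nat_lit 100, nat_lit 81, nat_lit 93, nat_lit 50747999⟩, ⟨nat_lit 16, nat_lit 87, nat_lit 95, nat_lit 100, nat_lit 270500363⟩]⟩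
noncomputable def p086_l29 : Lf2 := ⟨nat_lit 0, nat_lit 10, [nat_lit 0, nat_lit 5, nat_lit 5, nat_lit 20], false, nat_lit 240, nat_lit 280, nat_lit 240, nat_lit 336, ⟨nat_lit 216, nat_lit 0, nat_lit 784, nat_lit 6, nat_lit 175, nat_lit 784, nat_lit 192, nat_lit 784, nat_lit 17368, nat_lit 244, nat_lit 28430, nat_lit 254, nat_lit 44847414, nat_lit 0, nat_lit 0, nat_lit 4640546, false, false⟩,
 nat_lit 3054, nat_lit 1548, nat_lit 0, nat_lit 0, nat_lit 3451, nat_lit 1777, nat_lit 0, nat_lit 0, nat_lit 0, nat_lit 385, nat_lit 0, nat_lit 0, nat_lit 0, nat_lit 0, nat_lit 8, nat_lit 392800, nat_lit 0, nat_lit 0, [(nat_lit 18, [(nat_lit 5, nat_lit 652), (nat_lit 6, nat_lit 132)])],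
 ⟨p086_k27, nat_lit 0, nat_lit 0, nat_lit 223, nat_lit 0, nat_lit 436977, [nat_lit 1222273600, nat_lit 1089674134, nat_lit 128713066], [], [nat_lit 19204795236, nat_lit 20160832956, nat_lit 19957473296, nat_lit 20870377270, nat_lit 20682312016, nat_lit 22123103605, nat_lit 21317313726, nat_lit 22600115798], nat_lit 1271250, nat_lit 1271250, nat_lit 490000, nat_lit 1100001, nat_lit 1271250, nat_lit 1271250, [nat_lit 490000, nat_lit 780000, nat_lit 1435000], [nat_lit 85, nat_lit 40, nat_lit 40, nat_lit 80, nat_lit 16, nat_lit 249, nat_lit 40, nat_lit 8]⟩, ⟨p086_k28, nat_lit 0, nat_lit 0, nat_lit 367, nat_lit 0, nat_lit 597993, [nat_lit 1012608000, nat_lit 1350000000, nat_lit 2125872000], [], [nat_lit 4040496408, nat_lit 4109930627, nat_lit 3861848214, nat_lit 3926430175, nat_lit 5338133812, nat_lit 5437394528, nat_lit 5052318344, nat_lit 5194576767], nat_lit 1271250, nat_lit 1271250, nat_lit 490000, nat_lit 1100001, nat_lit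 1271250, nat_lit 1271250, [nat_lit 1100000, nat_lit 1442500, nat_lit 1271250], [nat_lit 11, nat_lit 40, nat_lit 40, nat_lit 80, nat_lit 1, nat_lit 428, nat_lit 200, nat_lit 12]⟩,
 ⟨nat_lit 3872, nat_lit 4473, ⟨.ofNat (nat_lit 360688), .ofNat (nat_lit 496660), .ofNat (nat_lit 371462), .ofNat (nat_lit 507435), .ofNat (nat_lit 371739), .ofNat (nat_lit 500797), .ofNat (nat_lit 382626), .ofNat (nat_lit 511685)⟩, ⟨.ofNat (nat_lit 438578), .ofNat (nat_lit 506556), .ofNat (nat_lit 460144), .ofNat (nat_lit 528122), .ofNat (nat_lit 433760), .ofNat (nat_lit 498282), .ofNat (nat_lit 455554), .ofNat (nat_lit 520075)⟩⟩, [⟨nat_lit 0, nat_lit 100, nat_lit 80, nat_lit 91, nat_lit 131428471⟩, ⟨nat_lit 16, nat_lit 87, nat_lit 100, nat_lit 94, nat_lit 236205476⟩, ⟨nat_lit 19, nat_lit 100, nat_lit 77, nat_lit 91, nat_lit 69223080⟩, ⟨nat_lit 23, nat_lit 100, nat_lit 69, nat_lit 96, nat_lit 59206843⟩]⟩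
noncomputable def p086_l30 : Lf2 := ⟨nat_lit 0, nat_lit 10, [nat_lit 0, nat_lit 5, nat_lit 5, nat_lit 20], false, nat_lit 240, nat_lit 280, nat_lit 240, nat_lit 328, ⟨nat_lit 286, nat_lit 0, nat_lit 714, nat_lit 6, nat_lit 183, nat_lit 714, nat_lit 192, nat_lit 714, nat_lit 17368, nat_lit 244, nat_lit 19503, nat_lit 247, nat_lit 44236438, nat_lit 0, nat_lit 0, nat_lit 4714605, false, false⟩,
 nat_lit 3937, nat_lit 996, nat_lit 0, nat_lit 0, nat_lit 3699, nat_lit 2397, nat_lit 137, nat_lit 0, nat_lit 0, nat_lit 455, nat_lit 0, nat_lit 0, nat_lit 0, nat_lit 0, nat_lit 0, nat_lit 285600, nat_lit 0, nat_lit 0, [(nat_lit 18, [(nat_lit 5, nat_lit 714)])],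
 ⟨p086_k27, nat_lit 0, nat_lit 0, nat_lit 227, nat_lit 0, nat_lit 466459, [nat_lit 1244315200, nat_lit 1207782401, nat_lit 782601599], [], [nat_lit 19391803986, nat_lit 20368446158, nat_lit 20032736909, nat_lit 20930224237, nat_lit 20868325267, nat_lit 22339628237, nat_lit 21394687056, nat_lit 22742392902], nat_lit 1271250, nat_lit 1271250, nat_lit 573850, nat_lit 1100001, nat_lit 1271250, nat_lit 1271250, [nat_lit 490000, nat_lit 780000, nat_lit 1435000], [nat_lit 85, nat_lit 40, nat_lit 40, nat_lit 80, nat_lit 16, nat_lit 249, nat_lit 40, nat_lit 8]⟩, ⟨p086_k29, nat_lit 0, nat_lit 0, nat_lit 361, nat_lit 0, nat_lit 602994, [nat_lit 1340768000, nat_lit 1787500000, nat_lit 2814812000], [], [nat_lit 5278794579, nat_lit 5464333834, nat_lit 5151659241, nat_lit 5317171951, nat_lit 6943953929, nat_lit 7078990185, nat_lit 6644425391, nat_lit 6834212915], nat_lit 1271250, nat_lit 1271250, nat_lit 573850, nat_lit 1100001, nat_lit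 1271250, nat_lit 1271250, [nat_lit 1100000, nat_lit 1442500, nat_lit 1271250], [nat_lit 11, nat_lit 40, nat_lit 40, nat_lit 80, nat_lit 1, nat_lit 428, nat_lit 200, nat_lit 12]⟩,
 ⟨nat_lit 3872, nat_lit 4473, ⟨.ofNat (nat_lit 391858), .ofNat (nat_lit 507435), .ofNat (nat_lit 402633), .ofNat (nat_lit 518209), .ofNat (nat_lit 401985), .ofNat (nat_lit 511685), .ofNat (nat_lit 412873), .ofNat (nat_lit 522572)⟩, ⟨.ofNat (nat_lit 438578), .ofNat (nat_lit 506556), .ofNat (nat_lit 460144), .ofNat (nat_lit 528122), .ofNat (nat_lit 433760), .ofNat (nat_lit 498282), .ofNat (nat_lit 455554), .ofNat (nat_lit 520075)⟩⟩, [⟨nat_lit 0, nat_lit 100, nat_lit 85, nat_lit 90, nat_lit 213051510⟩, ⟨nat_lit 16, nat_lit 87, nat_lit 100, nat_lit 94, nat_lit 297682855⟩, ⟨nat_lit 19, nat_lit 100, nat_lit 82, nat_lit 92, nat_lit 170547511⟩]⟩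
noncomputable def p086_l31 : Lf2 := ⟨nat_lit 0, nat_lit 5, [nat_lit 4, nat_lit 5, nat_lit 5, nat_lit 20], false, nat_lit 240, nat_lit 300, nat_lit 240, nat_lit 352, ⟨nat_lit 338, nat_lit 0, nat_lit 662, nat_lit 6, nat_lit 162, nat_lit 662, nat_lit 207, nat_lit 662, nat_lit 1169, nat_lit 218, nat_lit 244017, nat_lit 336, nat_lit 44569582, nat_lit 0, nat_lit 0, nat_lit 4638456, false, false⟩,
 nat_lit 4629, nat_lit 0, nat_lit 0, nat_lit 0, nat_lit 3471, nat_lit 2694, nat_lit 0, nat_lit 0, nat_lit 0, nat_lit 447, nat_lit 0, nat_lit 0, nat_lit 0, nat_lit 0, nat_lit 4, nat_lit 561800, nat_lit 0, nat_lit 0, [(nat_lit 18, [(nat_lit 5, nat_lit 167), (nat_lit 6, nat_lit 495)])],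
 ⟨p086_k10, nat_lit 0, nat_lit 0, nat_lit 208, nat_lit 0, nat_lit 368785, [nat_lit 1300615601, nat_lit 1366519867, nat_lit 150064133], [], [nat_lit 19307994853, nat_lit 20381426669, nat_lit 19557813185, nat_lit 20583584251, nat_lit 21828631002, nat_lit 23203017177, nat_lit 21893088758, nat_lit 23158735774], nat_lit 1271250, nat_lit 1271250, nat_lit 490000, nat_lit 780000, nat_lit 1271250, nat_lit 1271250, [nat_lit 490000, nat_lit 780000, nat_lit 1435000], [nat_lit 85, nat_lit 40, nat_lit 40, nat_lit 80, nat_lit 16, nat_lit 238, nat_lit 30, nat_lit 8]⟩, ⟨p086_k30, nat_lit 0, nat_lit 0, nat_lit 296, nat_lit 0, nat_lit 504674, [nat_lit 1584544000, nat_lit 2112500000, nat_lit 2693184000], [], [nat_lit 6689490101, nat_lit 6840795901, nat_lit 6522967845, nat_lit 6665157237, nat_lit 8901454944, nat_lit 9113985568, nat_lit 8583585494, nat_lit 8740097851], nat_lit 1271250, nat_lit 1271250, nat_lit 490000, nat_lit 780000, nat_lit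 1271250, nat_lit 1271250, [nat_lit 1100000, nat_lit 1442500, nat_lit 1271250], [nat_lit 9, nat_lit 40, nat_lit 40, nat_lit 80, nat_lit 2, nat_lit 238, nat_lit 30, nat_lit 7]⟩,
 ⟨nat_lit 3872, nat_lit 4473, ⟨.ofNat (nat_lit 360688), .ofNat (nat_lit 428674), .ofNat (nat_lit 371462), .ofNat (nat_lit 439449), .ofNat (nat_lit 371739), .ofNat (nat_lit 436268), .ofNat (nat_lit 382626), .ofNat (nat_lit 447156)⟩, ⟨.ofNat (nat_lit 460144), .ofNat (nat_lit 562111), .ofNat (nat_lit 481711), .ofNat (nat_lit 583678), .ofNat (nat_lit 455554), .ofNat (nat_lit 552336), .ofNat (nat_lit 477347), .ofNat (nat_lit 574129)⟩⟩, [⟨nat_lit 0, nat_lit 100, nat_lit 80, nat_lit 91, nat_lit 168458530⟩, ⟨nat_lit 4, nat_lit 100, nat_lit 82, nat_lit 97, nat_lit 165816467⟩, ⟨nat_lit 23, nat_lit 100, nat_lit 82, nat_lit 92, nat_lit 139854604⟩, ⟨nat_lit 11, nat_lit 100, nat_lit 100, nat_lit 100, nat_lit 48888564⟩]⟩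
noncomputable def p086_l32 : Lf2 := ⟨nat_lit 0, nat_lit 5, [nat_lit 4, nat_lit 5, nat_lit 5, nat_lit 20], false, nat_lit 240, nat_lit 300, nat_lit 240, nat_lit 344, ⟨nat_lit 429, nat_lit 0, nat_lit 571, nat_lit 6, nat_lit 170, nat_lit 571, nat_lit 207, nat_lit 571, nat_lit 1169, nat_lit 218, nat_lit 157845, nat_lit 312, nat_lit 43994980, nat_lit 0, nat_lit 0, nat_lit 4716990, false, false⟩,
 nat_lit 5185, nat_lit 0, nat_lit 0, nat_lit 0, nat_lit 3888, nat_lit 3157, nat_lit 282, nat_lit 0, nat_lit 0, nat_lit 606, nat_lit 0, nat_lit 0, nat_lit 0, nat_lit 0, nat_lit 0, nat_lit 228400, nat_lit 0, nat_lit 0, [(nat_lit 18, [(nat_lit 5, nat_lit 571)])],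
 ⟨p086_k10, nat_lit 0, nat_lit 0, nat_lit 211, nat_lit 0, nat_lit 397353, [nat_lit 1402072801, nat_lit 1623206934, nat_lit 1846369066], [], [nat_lit 19586346766, nat_lit 20700491414, nat_lit 19716001953, nat_lit 20794084001, nat_lit 22166780981, nat_lit 23600531236, nat_lit 22108448872, nat_lit 23497587472], nat_lit 1271250, nat_lit 1271250, nat_lit 573850, nat_lit 780000, nat_lit 1271250, nat_lit 1271250, [nat_lit 490000, nat_lit 780000, nat_lit 1435000], [nat_lit 85, nat_lit 40, nat_lit 40, nat_lit 80, nat_lit 16, nat_lit 238, nat_lit 30, nat_lit 8]⟩, ⟨p086_k31, nat_lit 0, nat_lit 0, nat_lit 292, nat_lit 0, nat_lit 513662, [nat_lit 2011152000, nat_lit 2681250000, nat_lit 3418272000], [], [nat_lit 8718236028, nat_lit 8900548332, nat_lit 8591183086, nat_lit 8765888452, nat_lit 10833592932, nat_lit 11068902607, nat_lit 10593383748, nat_lit 10789299645], nat_lit 1271250, nat_lit 1271250, nat_lit 573850, nat_lit 780000, nat_lit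 1271250, nat_lit 1271250, [nat_lit 1100000, nat_lit 1442500, nat_lit 1271250], [nat_lit 9, nat_lit 40, nat_lit 40, nat_lit 80, nat_lit 2, nat_lit 238, nat_lit 30, nat_lit 7]⟩,
 ⟨nat_lit 3872, nat_lit 4473, ⟨.ofNat (nat_lit 391858), .ofNat (nat_lit 439449), .ofNat (nat_lit 402633), .ofNat (nat_lit 450223), .ofNat (nat_lit 401985), .ofNat (nat_lit 447156), .ofNat (nat_lit 412873), .ofNat (nat_lit 458043)⟩, ⟨.ofNat (nat_lit 460144), .ofNat (nat_lit 562111), .ofNat (nat_lit 481711), .ofNat (nat_lit 583678), .ofNat (nat_lit 455554), .ofNat (nat_lit 552336), .ofNat (nat_lit 477347), .ofNat (nat_lit 574129)⟩⟩, [⟨nat_lit 0, nat_lit 100, nat_lit 82, nat_lit 96, nat_lit 210801017⟩, ⟨nat_lit 16, nat_lit 87, nat_lit 95, nat_lit 100, nat_lit 167805221⟩, ⟨nat_lit 23, nat_lit 100, nat_lit 80, nat_lit 94, nat_lit 201527011⟩, ⟨nat_lit 11, nat_lit 97, nat_lit 97, nat_lit 100, nat_lit 15679930⟩]⟩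
noncomputable def p086_l33 : Lf2 := ⟨nat_lit 0, nat_lit 5, [nat_lit 4, nat_lit 5, nat_lit 5, nat_lit 20], false, nat_lit 240, nat_lit 300, nat_lit 240, nat_lit 352, ⟨nat_lit 319, nat_lit 0, nat_lit 681, nat_lit 6, nat_lit 188, nat_lit 681, nat_lit 207, nat_lit 681, nat_lit 1169, nat_lit 218, nat_lit 28430, nat_lit 254, nat_lit 42722601, nat_lit 0, nat_lit 0, nat_lit 4874247, false, false⟩,
 nat_lit 4405, nat_lit 0, nat_lit 0, nat_lit 0, nat_lit 3303, nat_lit 2563, nat_lit 0, nat_lit 0, nat_lit 0, nat_lit 411, nat_lit 0, nat_lit 0, nat_lit 0, nat_lit 0, nat_lit 6, nat_lit 544800, nat_lit 0, nat_lit 0, [(nat_lit 18, [(nat_lit 5, nat_lit 227), (nat_lit 6, nat_lit 454)])],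
 ⟨p086_k10, nat_lit 0, nat_lit 0, nat_lit 180, nat_lit 0, nat_lit 368785, [nat_lit 1298393601, nat_lit 1338663734, nat_lit 139782666], [], [nat_lit 19834151313, nat_lit 20838847451, nat_lit 20399405153, nat_lit 21353202879, nat_lit 22079608257, nat_lit 23023093039, nat_lit 22553875503, nat_lit 23500940768], nat_lit 1271250, nat_lit 1271250, nat_lit 780000, nat_lit 1100001, nat_lit 1271250, nat_lit 1271250, [nat_lit 490000, nat_lit 780000, nat_lit 1435000], [nat_lit 85, nat_lit 40, nat_lit 40, nat_lit 80, nat_lit 16, nat_lit 249, nat_lit 40, nat_lit 8]⟩, ⟨p086_k30, nat_lit 0, nat_lit 0, nat_lit 278, nat_lit 0, nat_lit 504674, [nat_lit 1495472000, nat_lit 1993750000, nat_lit 2541792000], [], [nat_lit 6132162337, nat_lit 6266808079, nat_lit 6144942203, nat_lit 6269558838, nat_lit 8117432959, nat_lit 8264301063, nat_lit 8045649625, nat_lit 8216615500], nat_lit 1271250, nat_lit 1271250, nat_lit 780000, nat_lit 1100001, nat_lit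 1271250, nat_lit 1271250, [nat_lit 1100000, nat_lit 1442500, nat_lit 1271250], [nat_lit 9, nat_lit 40, nat_lit 40, nat_lit 80, nat_lit 2, nat_lit 249, nat_lit 40, nat_lit 7]⟩,
 ⟨nat_lit 3872, nat_lit 4473, ⟨.ofNat (nat_lit 428674), .ofNat (nat_lit 496660), .ofNat (nat_lit 439449), .ofNat (nat_lit 507435), .ofNat (nat_lit 436268), .ofNat (nat_lit 500797), .ofNat (nat_lit 447156), .ofNat (nat_lit 511685)⟩, ⟨.ofNat (nat_lit 460144), .ofNat (nat_lit 562111), .ofNat (nat_lit 481711), .ofNat (nat_lit 583678), .ofNat (nat_lit 455554), .ofNat (nat_lit 552336), .ofNat (nat_lit 477347), .ofNat (nat_lit 574129)⟩⟩, [⟨nat_lit 4, nat_lit 100, nat_lit 82, nat_lit 97, nat_lit 209743835⟩, ⟨nat_lit 23, nat_lit 98, nat_lit 64, nat_lit 100, nat_lit 172956800⟩]⟩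
noncomputable def p086_l34 : Lf2 := ⟨nat_lit 0, nat_lit 5, [nat_lit 4, nat_lit 5, nat_lit 5, nat_lit 20], false, nat_lit 240, nat_lit 300, nat_lit 240, nat_lit 344, ⟨nat_lit 593, nat_lit 407, nat_lit 0, nat_lit 6, nat_lit 192, nat_lit 407, nat_lit 208, nat_lit 0, nat_lit 0, nat_lit 0, nat_lit 0, nat_lit 0, nat_lit 42405636, nat_lit 11520271, nat_lit 13074093, nat_lit 4909215, false, false⟩,
 nat_lit 7004, nat_lit 0, nat_lit 0, nat_lit 0, nat_lit 5253, nat_lit 4265, nat_lit 559, nat_lit 0, nat_lit 0, nat_lit 883, nat_lit 0, nat_lit 0, nat_lit 0, nat_lit 0, nat_lit 0, nat_lit 101750, nat_lit 0, nat_lit 0, [(nat_lit 18, [(nat_lit 0, nat_lit 407)])],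
 ⟨p086_k10, nat_lit 0, nat_lit 0, nat_lit 157, nat_lit 0, nat_lit 347121, [nat_lit 1828825600, nat_lit 2668352534, nat_lit 4748984000], [], [nat_lit 20119041554, nat_lit 20786357574, nat_lit 20518575878, nat_lit 21151633892, nat_lit 23145778480, nat_lit 23792599593, nat_lit 23369497712, nat_lit 24009970020], nat_lit 1271250, nat_lit 1271250, nat_lit 780000, nat_lit 1100001, nat_lit 1271250, nat_lit 1271250, [nat_lit 490000, nat_lit 780000, nat_lit 1435000], [nat_lit 85, nat_lit 40, nat_lit 40, nat_lit 80, nat_lit 16, nat_lit 249, nat_lit 40, nat_lit 8]⟩, ⟨p086_k31, nat_lit 0, nat_lit 0, nat_lit 255, nat_lit 0, nat_lit 448726, [nat_lit 2779984000, nat_lit 3706250000, nat_lit 4725024000], [], [nat_lit 11976203750, nat_lit 12215522948, nat_lit 12029794179, nat_lit 12252051680, nat_lit 14647147799, nat_lit 14837697123, nat_lit 14556492920, nat_lit 14822951130], nat_lit 1271250, nat_lit 1271250, nat_lit 780000, nat_lit 1100001,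 nat_lit 1271250, nat_lit 1271250, [nat_lit 1100000, nat_lit 1442500, nat_lit 1271250], [nat_lit 9, nat_lit 40, nat_lit 40, nat_lit 80, nat_lit 2, nat_lit 249, nat_lit 40, nat_lit 7]⟩,
 ⟨nat_lit 4183, nat_lit 4473, ⟨.ofNat (nat_lit 439510), .ofNat (nat_lit 507489), .ofNat (nat_lit 450291), .ofNat (nat_lit 518271), .ofNat (nat_lit 443306), .ofNat (nat_lit 509562), .ofNat (nat_lit 454137), .ofNat (nat_lit 520394)⟩, ⟨.ofNat (nat_lit 460144), .ofNat (nat_lit 562111), .ofNat (nat_lit 481711), .ofNat (nat_lit 583678), .ofNat (nat_lit 457921), .ofNat (nat_lit 557304), .ofNat (nat_lit 479587), .ofNat (nat_lit 578971)⟩⟩, [⟨nat_lit 4, nat_lit 100, nat_lit 86, nat_lit 98, nat_lit 129958711⟩, ⟨nat_lit 11, nat_lit 85, nat_lit 85, nat_lit 100, nat_lit 322374570⟩]⟩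
noncomputable def p086_l35 : Lf2 := ⟨nat_lit 0, nat_lit 5, [nat_lit 4, nat_lit 5, nat_lit 5, nat_lit 20], false, nat_lit 240, nat_lit 288, nat_lit 240, nat_lit 344, ⟨nat_lit 511, nat_lit 489, nat_lit 0, nat_lit 6, nat_lit 193, nat_lit 489, nat_lit 203, nat_lit 0, nat_lit 0, nat_lit 0, nat_lit 0, nat_lit 0, nat_lit 42716049, nat_lit 11685459, nat_lit 12598492, nat_lit 4879903, false, false⟩,
 nat_lit 5944, nat_lit 0, nat_lit 0, nat_lit 0, nat_lit 4633, nat_lit 3619, nat_lit 350, nat_lit 0, nat_lit 0, nat_lit 819, nat_lit 0, nat_lit 0, nat_lit 0, nat_lit 0, nat_lit 0, nat_lit 122250, nat_lit 0, nat_lit 0, [(nat_lit 18, [(nat_lit 0, nat_lit 489)])],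
 ⟨p086_k32, nat_lit 0, nat_lit 0, nat_lit 162, nat_lit 0, nat_lit 379239, [nat_lit 1787891201, nat_lit 2538720000, nat_lit 3455720000], [], [nat_lit 20567081886, nat_lit 21192933493, nat_lit 21048463481, nat_lit 21639342271, nat_lit 22735703764, nat_lit 23415001498, nat_lit 23091116018, nat_lit 23711293949], nat_lit 1271250, nat_lit 1271250, nat_lit 780000, nat_lit 1100001, nat_lit 1271250, nat_lit 1271250, [nat_lit 490000, nat_lit 780000, nat_lit 1100000], [nat_lit 78, nat_lit 40, nat_lit 40, nat_lit 80, nat_lit 22, nat_lit 249, nat_lit 40, nat_lit 10]⟩, ⟨p086_k31, nat_lit 0, nat_lit 0, nat_lit 279, nat_lit 0, nat_lit 513662, [nat_lit 2395568000, nat_lit 3193750000, nat_lit 4071648000], [], [nat_lit 10246560142, nat_lit 10451550172, nat_lit 10298198421, nat_lit 10488664144, nat_lit 12601372980, nat_lit 12759488248, nat_lit 12564128315, nat_lit 12742366745], nat_lit 1271250, nat_lit 1271250, nat_lit 780000, nat_lit 1100001,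 nat_lit 1271250, nat_lit 1271250, [nat_lit 1100000, nat_lit 1442500, nat_lit 1271250], [nat_lit 9, nat_lit 40, nat_lit 40, nat_lit 80, nat_lit 2, nat_lit 249, nat_lit 40, nat_lit 7]⟩,
 ⟨nat_lit 3872, nat_lit 4184, ⟨.ofNat (nat_lit 443299), .ofNat (nat_lit 509557), .ofNat (nat_lit 454130), .ofNat (nat_lit 520388), .ofNat (nat_lit 447210), .ofNat (nat_lit 511734), .ofNat (nat_lit 458104), .ofNat (nat_lit 522628)⟩, ⟨.ofNat (nat_lit 457921), .ofNat (nat_lit 537427), .ofNat (nat_lit 479587), .ofNat (nat_lit 559094), .ofNat (nat_lit 455554), .ofNat (nat_lit 532980), .ofNat (nat_lit 477347), .ofNat (nat_lit 554773)⟩⟩, [⟨nat_lit 4, nat_lit 100, nat_lit 79, nat_lit 96, nat_lit 443533262⟩, ⟨nat_lit 7, nat_lit 81, nat_lit 100, nat_lit 96, nat_lit 248455401⟩]⟩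
noncomputable def p086_l36 : Lf2 := ⟨nat_lit 0, nat_lit 10, [nat_lit 0, nat_lit 5, nat_lit 5, nat_lit 20], false, nat_lit 240, nat_lit 300, nat_lit 240, nat_lit 352, ⟨nat_lit 210, nat_lit 0, nat_lit 790, nat_lit 6, nat_lit 162, nat_lit 790, nat_lit 207, nat_lit 790, nat_lit 1169, nat_lit 218, nat_lit 244017, nat_lit 336, nat_lit 44569582, nat_lit 0, nat_lit 0, nat_lit 4638456, false, false⟩,
 nat_lit 4255, nat_lit 0, nat_lit 0, nat_lit 0, nat_lit 3191, nat_lit 2476, nat_lit 0, nat_lit 0, nat_lit 0, nat_lit 96, nat_lit 0, nat_lit 0, nat_lit 0, nat_lit 0, nat_lit 0, nat_lit 316000, nat_lit 0, nat_lit 0, [(nat_lit 18, [(nat_lit 5, nat_lit 790)])],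
 ⟨p086_k0, nat_lit 0, nat_lit 0, nat_lit 147, nat_lit 0, nat_lit 215361, [nat_lit 1160472000, nat_lit 657420000, nat_lit 123392000], [], [nat_lit 19095725160, nat_lit 20246216606, nat_lit 19376897512, nat_lit 20476754154, nat_lit 21693140189, nat_lit 22906477157, nat_lit 21823794832, nat_lit 22931209454], nat_lit 1271250, nat_lit 1271250, nat_lit 490000, nat_lit 780000, nat_lit 1271250, nat_lit 1271250, [nat_lit 490000, nat_lit 1100000, nat_lit 1442500], [nat_lit 6, nat_lit 40, nat_lit 40, nat_lit 80, nat_lit 3, nat_lit 238, nat_lit 30, nat_lit 8]⟩, ⟨p086_k14, nat_lit 0, nat_lit 0, nat_lit 242, nat_lit 0, nat_lit 296232, [nat_lit 984480000, nat_lit 1673280000, nat_lit 2066820000], [], [nat_lit 4234597256, nat_lit 4404189412, nat_lit 3958498420, nat_lit 4117909270, nat_lit 6361054437, nat_lit 6465514704, nat_lit 5964314457, nat_lit 6062239220], nat_lit 1271250, nat_lit 1271250, nat_lit 490000, nat_lit 780000, nat_lit 1271250,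 nat_lit 1271250, [nat_lit 1100000, nat_lit 1785000, nat_lit 1271250], [nat_lit 29, nat_lit 40, nat_lit 40, nat_lit 80, nat_lit 17, nat_lit 428, nat_lit 200, nat_lit 12]⟩,
 ⟨nat_lit 3872, nat_lit 4473, ⟨.ofNat (nat_lit 360688), .ofNat (nat_lit 428674), .ofNat (nat_lit 371462), .ofNat (nat_lit 439449), .ofNat (nat_lit 371739), .ofNat (nat_lit 436268), .ofNat (nat_lit 382626), .ofNat (nat_lit 447156)⟩, ⟨.ofNat (nat_lit 460144), .ofNat (nat_lit 562111), .ofNat (nat_lit 481711), .ofNat (nat_lit 583678), .ofNat (nat_lit 455554), .ofNat (nat_lit 552336), .ofNat (nat_lit 477347), .ofNat (nat_lit 574129)⟩⟩, [⟨nat_lit 0, nat_lit 100, nat_lit 80, nat_lit 91, nat_lit 115062646⟩, ⟨nat_lit 16, nat_lit 87, nat_lit 95, nat_lit 100, nat_lit 152733531⟩, ⟨nat_lit 11, nat_lit 100, nat_lit 100, nat_lit 100, nat_lit 139710278⟩]⟩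
noncomputable def p086_l37 : Lf2 := ⟨nat_lit 0, nat_lit 10, [nat_lit 0, nat_lit 5, nat_lit 5, nat_lit 20], false, nat_lit 240, nat_lit 300, nat_lit 240, nat_lit 344, ⟨nat_lit 446, nat_lit 0, nat_lit 554, nat_lit 6, nat_lit 168, nat_lit 554, nat_lit 208, nat_lit 554, nat_lit 1169, nat_lit 218, nat_lit 264600, nat_lit 341, nat_lit 44073580, nat_lit 0, nat_lit 0, nat_lit 4704233, false, false⟩,
 nat_lit 6056, nat_lit 0, nat_lit 0, nat_lit 0, nat_lit 4542, nat_lit 3688, nat_lit 40, nat_lit 0, nat_lit 0, nat_lit 519, nat_lit 0, nat_lit 0, nat_lit 0, nat_lit 0, nat_lit 0, nat_lit 221600, nat_lit 0, nat_lit 0, [(nat_lit 18, [(nat_lit 5, nat_lit 554)])],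
 ⟨p086_k0, nat_lit 0, nat_lit 0, nat_lit 127, nat_lit 0, nat_lit 176671, [nat_lit 1420827200, nat_lit 1861492000, nat_lit 1953619200], [], [nat_lit 19804344260, nat_lit 20518583180, nat_lit 19799379456, nat_lit 20489610236, nat_lit 22823812129, nat_lit 23467502297, nat_lit 22721191920, nat_lit 23322200992], nat_lit 1271250, nat_lit 1271250, nat_lit 573850, nat_lit 780000, nat_lit 1271250, nat_lit 1271250, [nat_lit 490000, nat_lit 1100000, nat_lit 1442500], [nat_lit 6, nat_lit 40, nat_lit 40, nat_lit 80, nat_lit 3, nat_lit 238, nat_lit 30, nat_lit 8]⟩, ⟨p086_k33, nat_lit 0, nat_lit 0, nat_lit 206, nat_lit 0, nat_lit 229335, [nat_lit 2090848000, nat_lit 3553728000, nat_lit 4389532000], [], [nat_lit 8442018445, nat_lit 8585629503, nat_lit 8219562167, nat_lit 8357532346, nat_lit 11604948122, nat_lit 11709073863, nat_lit 11282264413, nat_lit 11389278018], nat_lit 1271250, nat_lit 1271250, nat_lit 573850, nat_lit 780000, nat_lit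 1271250, nat_lit 1271250, [nat_lit 1100000, nat_lit 1785000, nat_lit 1271250], [nat_lit 29, nat_lit 40, nat_lit 40, nat_lit 80, nat_lit 17, nat_lit 428, nat_lit 200, nat_lit 12]⟩,
 ⟨nat_lit 4183, nat_lit 4473, ⟨.ofNat (nat_lit 391925), .ofNat (nat_lit 439510), .ofNat (nat_lit 397316), .ofNat (nat_lit 444901), .ofNat (nat_lit 396926), .ofNat (nat_lit 443306), .ofNat (nat_lit 402342), .ofNat (nat_lit 448722)⟩, ⟨.ofNat (nat_lit 460144), .ofNat (nat_lit 562111), .ofNat (nat_lit 481711), .ofNat (nat_lit 583678), .ofNat (nat_lit 457921), .ofNat (nat_lit 557304), .ofNat (nat_lit 479587), .ofNat (nat_lit 578971)⟩⟩, [⟨nat_lit 0, nat_lit 100, nat_lit 84, nat_lit 93, nat_lit 158995866⟩, ⟨nat_lit 16, nat_lit 87, nat_lit 95, nat_lit 100, nat_lit 116412832⟩, ⟨nat_lit 11, nat_lit 97, nat_lit 97, nat_lit 100, nat_lit 265257914⟩]⟩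
noncomputable def p086_l38 : Lf2 := ⟨nat_lit 0, nat_lit 10, [nat_lit 0, nat_lit 5, nat_lit 5, nat_lit 20], false, nat_lit 240, nat_lit 288, nat_lit 240, nat_lit 344, ⟨nat_lit 330, nat_lit 0, nat_lit 670, nat_lit 6, nat_lit 173, nat_lit 670, nat_lit 203, nat_lit 670, nat_lit 3485, nat_lit 228, nat_lit 209067, nat_lit 327, nat_lit 44189744, nat_lit 0, nat_lit 0, nat_lit 4704057, false, false⟩,
 nat_lit 4536, nat_lit 433, nat_lit 0, nat_lit 0, nat_lit 3873, nat_lit 2762, nat_lit 119, nat_lit 0, nat_lit 0, nat_lit 378, nat_lit 0, nat_lit 0, nat_lit 0, nat_lit 0, nat_lit 0, nat_lit 167500, nat_lit 0, nat_lit 0, [(nat_lit 18, [(nat_lit 4, nat_lit 670)])],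
 ⟨p086_k12, nat_lit 0, nat_lit 0, nat_lit 138, nat_lit 0, nat_lit 219507, [nat_lit 1668592001, nat_lit 1439036001, nat_lit 1459768000], [], [nat_lit 20123626475, nat_lit 20738074141, nat_lit 20192714400, nat_lit 20792722663, nat_lit 22228252113, nat_lit 22905644322, nat_lit 22222931097, nat_lit 22847443226], nat_lit 1271250, nat_lit 1271250, nat_lit 631250, nat_lit 780000, nat_lit 1271250, nat_lit 1271250, [nat_lit 490000, nat_lit 1100000, nat_lit 1442500], [nat_lit 6, nat_lit 40, nat_lit 40, nat_lit 80, nat_lit 3, nat_lit 238, nat_lit 30, nat_lit 8]⟩, ⟨p086_k33, nat_lit 0, nat_lit 0, nat_lit 229, nat_lit 0, nat_lit 298762, [nat_lit 1547040000, nat_lit 2629440000, nat_lit 3247860000], [], [nat_lit 6206758517, nat_lit 6312516488, nat_lit 6086120360, nat_lit 6188867975, nat_lit 8537919083, nat_lit 8615345034, nat_lit 8353830611, nat_lit 8425579274], nat_lit 1271250, nat_lit 1271250, nat_lit 631250, nat_lit 780000, nat_lit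 1271250, nat_lit 1271250, [nat_lit 1100000, nat_lit 1785000, nat_lit 1271250], [nat_lit 29, nat_lit 40, nat_lit 40, nat_lit 80, nat_lit 17, nat_lit 428, nat_lit 200, nat_lit 12]⟩,
 ⟨nat_lit 3872, nat_lit 4184, ⟨.ofNat (nat_lit 410169), .ofNat (nat_lit 443299), .ofNat (nat_lit 415585), .ofNat (nat_lit 448714), .ofNat (nat_lit 414947), .ofNat (nat_lit 447210), .ofNat (nat_lit 420395), .ofNat (nat_lit 452657)⟩, ⟨.ofNat (nat_lit 457921), .ofNat (nat_lit 537427), .ofNat (nat_lit 479587), .ofNat (nat_lit 559094), .ofNat (nat_lit 455554), .ofNat (nat_lit 532980), .ofNat (nat_lit 477347), .ofNat (nat_lit 554773)⟩⟩, [⟨nat_lit 0, nat_lit 100, nat_lit 79, nat_lit 96, nat_lit 176121577⟩, ⟨nat_lit 16, nat_lit 83, nat_lit 98, nat_lit 100, nat_lit 196379746⟩, ⟨nat_lit 23, nat_lit 100, nat_lit 75, nat_lit 94, nat_lit 202105317⟩]⟩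
noncomputable def p086_l39 : Lf2 := ⟨nat_lit 0, nat_lit 10, [nat_lit 0, nat_lit 5, nat_lit 5, nat_lit 20], false, nat_lit 240, nat_lit 300, nat_lit 240, nat_lit 340, ⟨nat_lit 528, nat_lit 0, nat_lit 472, nat_lit 6, nat_lit 172, nat_lit 472, nat_lit 208, nat_lit 472, nat_lit 1169, nat_lit 218, nat_lit 191072, nat_lit 322, nat_lit 43830917, nat_lit 0, nat_lit 0, nat_lit 4736465, false, false⟩,
 nat_lit 6517, nat_lit 0, nat_lit 0, nat_lit 0, nat_lit 4887, nat_lit 4057, nat_lit 91, nat_lit 0, nat_lit 0, nat_lit 659, nat_lit 0, nat_lit 0, nat_lit 0, nat_lit 0, nat_lit 0, nat_lit 188800, nat_lit 0, nat_lit 0, [(nat_lit 18, [(nat_lit 5, nat_lit 472)])],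
 ⟨p086_k0, nat_lit 0, nat_lit 0, nat_lit 130, nat_lit 0, nat_lit 192960, [nat_lit 1511289601, nat_lit 2279856000, nat_lit 2589545600], [], [nat_lit 19986818058, nat_lit 20726230918, nat_lit 19944530816, nat_lit 20662220146, nat_lit 23086232632, nat_lit 23739920401, nat_lit 22955833520, nat_lit 23579072063], nat_lit 1271250, nat_lit 1271250, nat_lit 602400, nat_lit 780000, nat_lit 1271250, nat_lit 1271250, [nat_lit 490000, nat_lit 1100000, nat_lit 1442500], [nat_lit 6, nat_lit 40, nat_lit 40, nat_lit 80, nat_lit 3, nat_lit 238, nat_lit 30, nat_lit 8]⟩, ⟨p086_k34, nat_lit 0, nat_lit 0, nat_lit 208, nat_lit 0, nat_lit 243525, [nat_lit 2475264000, nat_lit 4207104000, nat_lit 5196576000], [], [nat_lit 9858932641, nat_lit 10021507289, nat_lit 9674898880, nat_lit 9821317853, nat_lit 13351539989, nat_lit 13480644473, nat_lit 13077619595, nat_lit 13202537996], nat_lit 1271250, nat_lit 1271250, nat_lit 602400, nat_lit 780000, nat_lit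 1271250, nat_lit 1271250, [nat_lit 1100000, nat_lit 1785000, nat_lit 1271250], [nat_lit 29, nat_lit 40, nat_lit 40, nat_lit 80, nat_lit 17, nat_lit 428, nat_lit 200, nat_lit 12]⟩,
 ⟨nat_lit 4183, nat_lit 4473, ⟨.ofNat (nat_lit 404113), .ofNat (nat_lit 444901), .ofNat (nat_lit 409504), .ofNat (nat_lit 450291), .ofNat (nat_lit 408967), .ofNat (nat_lit 448722), .ofNat (nat_lit 414384), .ofNat (nat_lit 454137)⟩, ⟨.ofNat (nat_lit 460144), .ofNat (nat_lit 562111), .ofNat (nat_lit 481711), .ofNat (nat_lit 583678), .ofNat (nat_lit 457921), .ofNat (nat_lit 557304), .ofNat (nat_lit 479587), .ofNat (nat_lit 578971)⟩⟩, [⟨nat_lit 0, nat_lit 100, nat_lit 83, nat_lit 98, nat_lit 166336772⟩, ⟨nat_lit 16, nat_lit 87, nat_lit 95, nat_lit 100, nat_lit 94499666⟩, ⟨nat_lit 11, nat_lit 96, nat_lit 96, nat_lit 100, nat_lit 313031166⟩]⟩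
noncomputable def p086_l40 : Lf2 := ⟨nat_lit 0, nat_lit 10, [nat_lit 0, nat_lit 5, nat_lit 5, nat_lit 20], false, nat_lit 240, nat_lit 288, nat_lit 240, nat_lit 340, ⟨nat_lit 431, nat_lit 0, nat_lit 569, nat_lit 6, nat_lit 176, nat_lit 569, nat_lit 203, nat_lit 569, nat_lit 3485, nat_lit 228, nat_lit 153600, nat_lit 311, nat_lit 43943419, nat_lit 0, nat_lit 0, nat_lit 4735469, false, false⟩,
 nat_lit 5537, nat_lit 0, nat_lit 0, nat_lit 0, nat_lit 4316, nat_lit 3447, nat_lit 162, nat_lit 0, nat_lit 0, nat_lit 495, nat_lit 0, nat_lit 0, nat_lit 0, nat_lit 0, nat_lit 0, nat_lit 141275, nat_lit 0, nat_lit 0, [(nat_lit 18, [(nat_lit 3, nat_lit 13), (nat_lit 4, nat_lit 556)])],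
 ⟨p086_k12, nat_lit 0, nat_lit 0, nat_lit 141, nat_lit 0, nat_lit 234155, [nat_lit 1882577600, nat_lit 1930557600, nat_lit 2185720400], [], [nat_lit 20273429392, nat_lit 20958891677, nat_lit 20273982528, nat_lit 20946225968, nat_lit 22536700422, nat_lit 23267705152, nat_lit 22495897400, nat_lit 23178269956], nat_lit 1271250, nat_lit 1271250, nat_lit 660400, nat_lit 780000, nat_lit 1271250, nat_lit 1271250, [nat_lit 490000, nat_lit 1100000, nat_lit 1442500], [nat_lit 6, nat_lit 40, nat_lit 40, nat_lit 80, nat_lit 3, nat_lit 238, nat_lit 30, nat_lit 8]⟩, ⟨p086_k34, nat_lit 0, nat_lit 0, nat_lit 230, nat_lit 0, nat_lit 309850, [nat_lit 2020528000, nat_lit 3434208000, nat_lit 4241902000], [], [nat_lit 8144776181, nat_lit 8278807363, nat_lit 8027545784, nat_lit 8158544030, nat_lit 10918668476, nat_lit 11019146694, nat_lit 10741285768, nat_lit 10834402364], nat_lit 1271250, nat_lit 1271250, nat_lit 660400, nat_lit 780000, nat_lit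 1271250, nat_lit 1271250, [nat_lit 1100000, nat_lit 1785000, nat_lit 1271250], [nat_lit 29, nat_lit 40, nat_lit 40, nat_lit 80, nat_lit 17, nat_lit 428, nat_lit 200, nat_lit 12]⟩,
 ⟨nat_lit 3872, nat_lit 4184, ⟨.ofNat (nat_lit 422211), .ofNat (nat_lit 448714), .ofNat (nat_lit 427626), .ofNat (nat_lit 454130), .ofNat (nat_lit 426847), .ofNat (nat_lit 452657), .ofNat (nat_lit 432294), .ofNat (nat_lit 458104)⟩, ⟨.ofNat (nat_lit 457921), .ofNat (nat_lit 537427), .ofNat (nat_lit 479587), .ofNat (nat_lit 559094), .ofNat (nat_lit 455554), .ofNat (nat_lit 532980), .ofNat (nat_lit 477347), .ofNat (nat_lit 554773)⟩⟩, [⟨nat_lit 0, nat_lit 100, nat_lit 80, nat_lit 99, nat_lit 220677643⟩, ⟨nat_lit 16, nat_lit 83, nat_lit 98, nat_lit 100, nat_lit 203034128⟩, ⟨nat_lit 23, nat_lit 100, nat_lit 74, nat_lit 95, nat_lit 253704993⟩]⟩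
noncomputable def p086_l41 : Lf2 := ⟨nat_lit 0, nat_lit 10, [nat_lit 0, nat_lit 5, nat_lit 5, nat_lit 20], false, nat_lit 240, nat_lit 300, nat_lit 240, nat_lit 352, ⟨nat_lit 334, nat_lit 0, nat_lit 666, nat_lit 6, nat_lit 188, nat_lit 666, nat_lit 208, nat_lit 666, nat_lit 1169, nat_lit 218, nat_lit 28134, nat_lit 255, nat_lit 42709116, nat_lit 0, nat_lit 0, nat_lit 4874729, false, false⟩,
 nat_lit 5207, nat_lit 0, nat_lit 0, nat_lit 0, nat_lit 3905, nat_lit 3030, nat_lit 30, nat_lit 0, nat_lit 0, nat_lit 370, nat_lit 0, nat_lit 0, nat_lit 0, nat_lit 0, nat_lit 0, nat_lit 266400, nat_lit 0, nat_lit 0, [(nat_lit 18, [(nat_lit 5, nat_lit 666)])],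
 ⟨p086_k0, nat_lit 0, nat_lit 0, nat_lit 111, nat_lit 0, nat_lit 160860, [nat_lit 1297268801, nat_lit 1290068001, nat_lit 1085036800], [], [nat_lit 19500291840, nat_lit 20139823790, nat_lit 20035734980, nat_lit 20640431220, nat_lit 22256871600, nat_lit 22816836692, nat_lit 22642695920, nat_lit 23212113758], nat_lit 1271250, nat_lit 1271250, nat_lit 780000, nat_lit 1100001, nat_lit 1271250, nat_lit 1271250, [nat_lit 490000, nat_lit 1100000, nat_lit 1442500], [nat_lit 6, nat_lit 40, nat_lit 40, nat_lit 80, nat_lit 3, nat_lit 249, nat_lit 40, nat_lit 8]⟩, ⟨p086_k14, nat_lit 0, nat_lit 0, nat_lit 191, nat_lit 0, nat_lit 221265, [nat_lit 1565792000, nat_lit 2661312000, nat_lit 3287228000], [], [nat_lit 6070092876, nat_lit 6287429318, nat_lit 6086350580, nat_lit 6287833566, nat_lit 8775986496, nat_lit 8917111506, nat_lit 8635531377, nat_lit 8819964884], nat_lit 1271250, nat_lit 1271250, nat_lit 780000, nat_lit 1100001, nat_lit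 1271250, nat_lit 1271250, [nat_lit 1100000, nat_lit 1785000, nat_lit 1271250], [nat_lit 29, nat_lit 40, nat_lit 40, nat_lit 80, nat_lit 17, nat_lit 428, nat_lit 200, nat_lit 12]⟩,
 ⟨nat_lit 4183, nat_lit 4473, ⟨.ofNat (nat_lit 428729), .ofNat (nat_lit 496708), .ofNat (nat_lit 439510), .ofNat (nat_lit 507489), .ofNat (nat_lit 432475), .ofNat (nat_lit 498731), .ofNat (nat_lit 443306), .ofNat (nat_lit 509562)⟩, ⟨.ofNat (nat_lit 460144), .ofNat (nat_lit 562111), .ofNat (nat_lit 481711), .ofNat (nat_lit 583678), .ofNat (nat_lit 457921), .ofNat (nat_lit 557304), .ofNat (nat_lit 479587), .ofNat (nat_lit 578971)⟩⟩, [⟨nat_lit 16, nat_lit 86, nat_lit 100, nat_lit 98, nat_lit 148065096⟩, ⟨nat_lit 11, nat_lit 85, nat_lit 85, nat_lit 100, nat_lit 231933529⟩]⟩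
noncomputable def p086_l42 : Lf2 := ⟨nat_lit 0, nat_lit 10, [nat_lit 0, nat_lit 5, nat_lit 5, nat_lit 20], false, nat_lit 240, nat_lit 288, nat_lit 240, nat_lit 352, ⟨nat_lit 205, nat_lit 0, nat_lit 795, nat_lit 6, nat_lit 189, nat_lit 795, nat_lit 203, nat_lit 795, nat_lit 3485, nat_lit 228, nat_lit 28555, nat_lit 254, nat_lit 43026758, nat_lit 0, nat_lit 0, nat_lit 4845193, false, false⟩,
 nat_lit 3321, nat_lit 757, nat_lit 0, nat_lit 0, nat_lit 3178, nat_lit 1933, nat_lit 0, nat_lit 0, nat_lit 0, nat_lit 209, nat_lit 0, nat_lit 0, nat_lit 0, nat_lit 0, nat_lit 0, nat_lit 318000, nat_lit 0, nat_lit 0, [(nat_lit 18, [(nat_lit 5, nat_lit 795)])],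
 ⟨p086_k12, nat_lit 0, nat_lit 0, nat_lit 126, nat_lit 0, nat_lit 205397, [nat_lit 1154956001, nat_lit 631910001, nat_lit 84616000], [], [nat_lit 19901736615, nat_lit 20450710333, nat_lit 20480769599, nat_lit 21001574285, nat_lit 21806487186, nat_lit 22332241523, nat_lit 22289855582, nat_lit 22818515261], nat_lit 1271250, nat_lit 1271250, nat_lit 780000, nat_lit 1100001, nat_lit 1271250, nat_lit 1271250, [nat_lit 490000, nat_lit 1100000, nat_lit 1442500], [nat_lit 6, nat_lit 40, nat_lit 40, nat_lit 80, nat_lit 3, nat_lit 249, nat_lit 40, nat_lit 8]⟩, ⟨p086_k14, nat_lit 0, nat_lit 0, nat_lit 221, nat_lit 0, nat_lit 296232, [nat_lit 961040000, nat_lit 1633440000, nat_lit 2017610000], [], [nat_lit 3746629210, nat_lit 3882945585, nat_lit 3749763494, nat_lit 3876029853, nat_lit 5446511825, nat_lit 5533523462, nat_lit 5334003437, nat_lit 5459337204], nat_lit 1271250, nat_lit 1271250, nat_lit 780000, nat_lit 1100001, nat_lit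 1271250, nat_lit 1271250, [nat_lit 1100000, nat_lit 1785000, nat_lit 1271250], [nat_lit 29, nat_lit 40, nat_lit 40, nat_lit 80, nat_lit 17, nat_lit 428, nat_lit 200, nat_lit 12]⟩,
 ⟨nat_lit 3872, nat_lit 4184, ⟨.ofNat (nat_lit 432468), .ofNat (nat_lit 498726), .ofNat (nat_lit 443299), .ofNat (nat_lit 509557), .ofNat (nat_lit 436316), .ofNat (nat_lit 500840), .ofNat (nat_lit 447210), .ofNat (nat_lit 511734)⟩, ⟨.ofNat (nat_lit 457921), .ofNat (nat_lit 537427), .ofNat (nat_lit 479587), .ofNat (nat_lit 559094), .ofNat (nat_lit 455554), .ofNat (nat_lit 532980), .ofNat (nat_lit 477347), .ofNat (nat_lit 554773)⟩⟩, [⟨nat_lit 16, nat_lit 83, nat_lit 98, nat_lit 100, nat_lit 213098176⟩, ⟨nat_lit 23, nat_lit 99, nat_lit 62, nat_lit 100, nat_lit 98084725⟩, ⟨nat_lit 11, nat_lit 85, nat_lit 85, nat_lit 100, nat_lit 33028737⟩]⟩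
noncomputable def p086_l43 : Lf2 := ⟨nat_lit 0, nat_lit 10, [nat_lit 0, nat_lit 5, nat_lit 5, nat_lit 20], false, nat_lit 240, nat_lit 300, nat_lit 240, nat_lit 344, ⟨nat_lit 448, nat_lit 109, nat_lit 443, nat_lit 6, nat_lit 191, nat_lit 551, nat_lit 208, nat_lit 443, nat_lit 1169, nat_lit 218, nat_lit 21600, nat_lit 251, nat_lit 42481560, nat_lit 11430201, nat_lit 13088239, nat_lit 4900700, false, false⟩,
 nat_lit 6176, nat_lit 0, nat_lit 0, nat_lit 0, nat_lit 4631, nat_lit 3761, nat_lit 58, nat_lit 0, nat_lit 0, nat_lit 513, nat_lit 0, nat_lit 0, nat_lit 0, nat_lit 0, nat_lit 0, nat_lit 286200, nat_lit 0, nat_lit 0, [(nat_lit 18, [(nat_lit 2, nat_lit 109), (nat_lit 5, nat_lit 443)])],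
 ⟨p086_k0, nat_lit 0, nat_lit 0, nat_lit 116, nat_lit 0, nat_lit 176671, [nat_lit 1507297867, nat_lit 2030763334, nat_lit 2084887600], [], [nat_lit 19784668208, nat_lit 20481982498, nat_lit 20251858636, nat_lit 20909703884, nat_lit 22729566560, nat_lit 23341085027, nat_lit 23028085024, nat_lit 23641819727], nat_lit 1271250, nat_lit 1271250, nat_lit 780000, nat_lit 1100001, nat_lit 1271250, nat_lit 1271250, [nat_lit 490000, nat_lit 1100000, nat_lit 1442500], [nat_lit 6, nat_lit 40, nat_lit 40, nat_lit 80, nat_lit 3, nat_lit 249, nat_lit 40, nat_lit 8]⟩, ⟨p086_k33, nat_lit 0, nat_lit 0, nat_lit 191, nat_lit 0, nat_lit 229335, [nat_lit 2100224000, nat_lit 3569664000, nat_lit 4409216000], [], [nat_lit 8253198421, nat_lit 8392912868, nat_lit 8283384903, nat_lit 8413128353, nat_lit 11337059014, nat_lit 11442330891, nat_lit 11225042452, nat_lit 11371017135], nat_lit 1271250, nat_lit 1271250, nat_lit 780000, nat_lit 1100001, nat_lit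 1271250, nat_lit 1271250, [nat_lit 1100000, nat_lit 1785000, nat_lit 1271250], [nat_lit 29, nat_lit 40, nat_lit 40, nat_lit 80, nat_lit 17, nat_lit 428, nat_lit 200, nat_lit 11]⟩,
 ⟨nat_lit 4183, nat_lit 4473, ⟨.ofNat (nat_lit 439510), .ofNat (nat_lit 507489), .ofNat (nat_lit 444901), .ofNat (nat_lit 512880), .ofNat (nat_lit 443306), .ofNat (nat_lit 509562), .ofNat (nat_lit 448722), .ofNat (nat_lit 514978)⟩, ⟨.ofNat (nat_lit 460144), .ofNat (nat_lit 562111), .ofNat (nat_lit 481711), .ofNat (nat_lit 583678), .ofNat (nat_lit 457921), .ofNat (nat_lit 557304), .ofNat (nat_lit 479587), .ofNat (nat_lit 578971)⟩⟩, [⟨nat_lit 4, nat_lit 100, nat_lit 86, nat_lit 98, nat_lit 115196640⟩, ⟨nat_lit 11, nat_lit 85, nat_lit 85, nat_lit 100, nat_lit 303909418⟩]⟩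
noncomputable def p086_l44 : Lf2 := ⟨nat_lit 0, nat_lit 10, [nat_lit 0, nat_lit 5, nat_lit 5, nat_lit 20], false, nat_lit 240, nat_lit 300, nat_lit 240, nat_lit 340, ⟨nat_lit 899, nat_lit 101, nat_lit 0, nat_lit 6, nat_lit 193, nat_lit 101, nat_lit 208, nat_lit 0, nat_lit 0, nat_lit 0, nat_lit 0, nat_lit 0, nat_lit 42329671, nat_lit 11610452, nat_lit 13059877, nat_lit 4917659, false, false⟩,
 nat_lit 10056, nat_lit 0, nat_lit 0, nat_lit 0, nat_lit 7541, nat_lit 6261, nat_lit 32, nat_lit 0, nat_lit 0, nat_lit 1410, nat_lit 0, nat_lit 0, nat_lit 0, nat_lit 0, nat_lit 0, nat_lit 101000, nat_lit 0, nat_lit 0, [(nat_lit 18, [(nat_lit 2, nat_lit 101)])],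
 ⟨p086_k0, nat_lit 0, nat_lit 0, nat_lit 121, nat_lit 0, nat_lit 192960, [nat_lit 1998656534, nat_lit 4320090667, nat_lit 5573986800], [], [nat_lit 20958882288, nat_lit 21887803478, nat_lit 21152497796, nat_lit 22023378324, nat_lit 24658611360, nat_lit 25452855749, nat_lit 24607184864, nat_lit 25364194892], nat_lit 1271250, nat_lit 1271250, nat_lit 780000, nat_lit 1100001, nat_lit 1271250, nat_lit 1271250, [nat_lit 490000, nat_lit 1100000, nat_lit 1442500], [nat_lit 6, nat_lit 40, nat_lit 40, nat_lit 80, nat_lit 3, nat_lit 249, nat_lit 40, nat_lit 8]⟩, ⟨p086_k34, nat_lit 0, nat_lit 0, nat_lit 195, nat_lit 0, nat_lit 243525, [nat_lit 4214512000, nat_lit 7163232000, nat_lit 8847958000], [], [nat_lit 16910508056, nat_lit 17148337954, nat_lit 17149343854, nat_lit 17370842022, nat_lit 21804350636, nat_lit 21975082348, nat_lit 21728256468, nat_lit 21992664474], nat_lit 1271250, nat_lit 1271250, nat_lit 780000, nat_lit 1100001,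 nat_lit 1271250, nat_lit 1271250, [nat_lit 1100000, nat_lit 1785000, nat_lit 1271250], [nat_lit 29, nat_lit 40, nat_lit 40, nat_lit 80, nat_lit 17, nat_lit 428, nat_lit 200, nat_lit 11]⟩,
 ⟨nat_lit 4183, nat_lit 4473, ⟨.ofNat (nat_lit 444901), .ofNat (nat_lit 512880), .ofNat (nat_lit 450291), .ofNat (nat_lit 518271), .ofNat (nat_lit 448722), .ofNat (nat_lit 514978), .ofNat (nat_lit 454137), .ofNat (nat_lit 520394)⟩, ⟨.ofNat (nat_lit 460144), .ofNat (nat_lit 562111), .ofNat (nat_lit 481711), .ofNat (nat_lit 583678), .ofNat (nat_lit 457921), .ofNat (nat_lit 557304), .ofNat (nat_lit 479587), .ofNat (nat_lit 578971)⟩⟩, [⟨nat_lit 4, nat_lit 100, nat_lit 86, nat_lit 98, nat_lit 128108278⟩, ⟨nat_lit 19, nat_lit 100, nat_lit 77, nat_lit 99, nat_lit 63743060⟩, ⟨nat_lit 11, nat_lit 85, nat_lit 85, nat_lit 100, nat_lit 472718949⟩]⟩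
noncomputable def p086_l45 : Lf2 := ⟨nat_lit 0, nat_lit 10, [nat_lit 0, nat_lit 5, nat_lit 5, nat_lit 20], false, nat_lit 240, nat_lit 288, nat_lit 240, nat_lit 344, ⟨nat_lit 362, nat_lit 0, nat_lit 638, nat_lit 6, nat_lit 192, nat_lit 638, nat_lit 203, nat_lit 638, nat_lit 3485, nat_lit 228, nat_lit 21705, nat_lit 250, nat_lit 42793776, nat_lit 0, nat_lit 0, nat_lit 4871335, false, false⟩,
 nat_lit 4980, nat_lit 0, nat_lit 0, nat_lit 0, nat_lit 3882, nat_lit 3032, nat_lit 134, nat_lit 0, nat_lit 0, nat_lit 414, nat_lit 0, nat_lit 0, nat_lit 0, nat_lit 0, nat_lit 0, nat_lit 182600, nat_lit 0, nat_lit 0, [(nat_lit 18, [(nat_lit 4, nat_lit 484), (nat_lit 5, nat_lit 154)])],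
 ⟨p086_k12, nat_lit 0, nat_lit 0, nat_lit 130, nat_lit 0, nat_lit 219507, [nat_lit 1599585601, nat_lit 1555279201, nat_lit 1595292800], [], [nat_lit 20173938567, nat_lit 20781868936, nat_lit 20687871263, nat_lit 21256186797, nat_lit 22281283949, nat_lit 22855610726, nat_lit 22669312806, nat_lit 23250485156], nat_lit 1271250, nat_lit 1271250, nat_lit 780000, nat_lit 1100001, nat_lit 1271250, nat_lit 1271250, [nat_lit 490000, nat_lit 1100000, nat_lit 1442500], [nat_lit 6, nat_lit 40, nat_lit 40, nat_lit 80, nat_lit 3, nat_lit 249, nat_lit 40, nat_lit 8]⟩, ⟨p086_k33, nat_lit 0, nat_lit 0, nat_lit 219, nat_lit 0, nat_lit 298762, [nat_lit 1697056000, nat_lit 2884416000, nat_lit 3562804000], [], [nat_lit 6678048624, nat_lit 6790802897, nat_lit 6703126980, nat_lit 6807839647, nat_lit 9166663604, nat_lit 9243160361, nat_lit 9066375410, nat_lit 9184182544], nat_lit 1271250, nat_lit 1271250, nat_lit 780000, nat_lit 1100001, nat_lit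 1271250, nat_lit 1271250, [nat_lit 1100000, nat_lit 1785000, nat_lit 1271250], [nat_lit 29, nat_lit 40, nat_lit 40, nat_lit 80, nat_lit 17, nat_lit 428, nat_lit 200, nat_lit 11]⟩,
 ⟨nat_lit 3872, nat_lit 4184, ⟨.ofNat (nat_lit 443299), .ofNat (nat_lit 509557), .ofNat (nat_lit 448714), .ofNat (nat_lit 514973), .ofNat (nat_lit 447210), .ofNat (nat_lit 511734), .ofNat (nat_lit 452657), .ofNat (nat_lit 517182)⟩, ⟨.ofNat (nat_lit 457921), .ofNat (nat_lit 537427), .ofNat (nat_lit 479587), .ofNat (nat_lit 559094), .ofNat (nat_lit 455554), .ofNat (nat_lit 532980), .ofNat (nat_lit 477347), .ofNat (nat_lit 554773)⟩⟩, [⟨nat_lit 4, nat_lit 100, nat_lit 79, nat_lit 96, nat_lit 273312334⟩, ⟨nat_lit 19, nat_lit 100, nat_lit 74, nat_lit 98, nat_lit 28456689⟩, ⟨nat_lit 23, nat_lit 99, nat_lit 62, nat_lit 100, nat_lit 182257527⟩]⟩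
noncomputable def p086_l46 : Lf2 := ⟨nat_lit 0, nat_lit 10, [nat_lit 0, nat_lit 5, nat_lit 5, nat_lit 20], false, nat_lit 240, nat_lit 288, nat_lit 240, nat_lit 340, ⟨nat_lit 430, nat_lit 0, nat_lit 570, nat_lit 6, nat_lit 194, nat_lit 570, nat_lit 203, nat_lit 570, nat_lit 3485, nat_lit 228, nat_lit 19642, nat_lit 247, nat_lit 42638282, nat_lit 0, nat_lit 0, nat_lit 4888399, false, false⟩,
 nat_lit 5518, nat_lit 0, nat_lit 0, nat_lit 0, nat_lit 4301, nat_lit 3435, nat_lit 160, nat_lit 0, nat_lit 0, nat_lit 493, nat_lit 0, nat_lit 0, nat_lit 0, nat_lit 0, nat_lit 0, nat_lit 141600, nat_lit 0, nat_lit 0, [(nat_lit 18, [(nat_lit 3, nat_lit 12), (nat_lit 4, nat_lit 558)])],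
 ⟨p086_k12, nat_lit 0, nat_lit 0, nat_lit 135, nat_lit 0, nat_lit 234155, [nat_lit 1869788801, nat_lit 1925573600, nat_lit 2178275200], [], [nat_lit 20287411958, nat_lit 20958461548, nat_lit 20758590692, nat_lit 21381949972, nat_lit 22506396007, nat_lit 23167068148, nat_lit 22843923799, nat_lit 23507580874], nat_lit 1271250, nat_lit 1271250, nat_lit 780000, nat_lit 1100001, nat_lit 1271250, nat_lit 1271250, [nat_lit 490000, nat_lit 1100000, nat_lit 1442500], [nat_lit 6, nat_lit 40, nat_lit 40, nat_lit 80, nat_lit 3, nat_lit 249, nat_lit 40, nat_lit 8]⟩, ⟨p086_k34, nat_lit 0, nat_lit 0, nat_lit 222, nat_lit 0, nat_lit 309850, [nat_lit 2015840000, nat_lit 3426240000, nat_lit 4232060000], [], [nat_lit 8017505630, nat_lit 8148120150, nat_lit 8054389855, nat_lit 8175815430, nat_lit 10723229363, nat_lit 10813932575, nat_lit 10624243798, nat_lit 10763258715], nat_lit 1271250, nat_lit 1271250, nat_lit 780000, nat_lit 1100001,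 nat_lit 1271250, nat_lit 1271250, [nat_lit 1100000, nat_lit 1785000, nat_lit 1271250], [nat_lit 29, nat_lit 40, nat_lit 40, nat_lit 80, nat_lit 17, nat_lit 428, nat_lit 200, nat_lit 11]⟩,
 ⟨nat_lit 3872, nat_lit 4184, ⟨.ofNat (nat_lit 448714), .ofNat (nat_lit 514973), .ofNat (nat_lit 454130), .ofNat (nat_lit 520388), .ofNat (nat_lit 452657), .ofNat (nat_lit 517182), .ofNat (nat_lit 458104), .ofNat (nat_lit 522628)⟩, ⟨.ofNat (nat_lit 457921), .ofNat (nat_lit 537427), .ofNat (nat_lit 479587), .ofNat (nat_lit 559094), .ofNat (nat_lit 455554), .ofNat (nat_lit 532980), .ofNat (nat_lit 477347), .ofNat (nat_lit 554773)⟩⟩, [⟨nat_lit 16, nat_lit 83, nat_lit 98, nat_lit 100, nat_lit 417162873⟩, ⟨nat_lit 19, nat_lit 100, nat_lit 77, nat_lit 99, nat_lit 242602359⟩]⟩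
noncomputable def b_V_800_600_20_24 : St := ⟨true, nat_lit 1, nat_lit 1, nat_lit 1, nat_lit 120, nat_lit 320, nat_lit 340, nat_lit 260, nat_lit 280, nat_lit 80, nat_lit 160, nat_lit 80, nat_lit 120, nat_lit 240, nat_lit 300, nat_lit 160, nat_lit 352, nat_lit 0, nat_lit 40, nat_lit 0, nat_lit 0, nat_lit 0, nat_lit 0⟩
theorem d_V_800_600_20_24 (h : EB TB.env) : Dead b_V_800_600_20_24 := chkB_sound0 h (T :=
(.spl (nat_lit 5) (nat_lit 240)
(.leaf p086_l28)
(.spl (nat_lit 3) (nat_lit 100)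
(.trX (nat_lit 16) (nat_lit 87) (nat_lit 100) (nat_lit 94) (nat_lit 280) (.trX (nat_lit 19) (nat_lit 100) (nat_lit 77) (nat_lit 91) (nat_lit 336) (.spl (nat_lit 1) (nat_lit 270)
(.leaf p086_l29)
(.trZ (nat_lit 0) (nat_lit 100) (nat_lit 85) (nat_lit 90) (nat_lit 92) (.trX (nat_lit 19) (nat_lit 100) (nat_lit 82) (nat_lit 92) (nat_lit 328) (.leaf p086_l30))))))
(.spl (nat_lit 6) (nat_lit 20)
(.spl (nat_lit 2) (nat_lit 120)
(.spl (nat_lit 1) (nat_lit 270)
(.leaf p086_l31)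
(.trZ (nat_lit 0) (nat_lit 100) (nat_lit 85) (nat_lit 90) (nat_lit 92) (.trX (nat_lit 19) (nat_lit 100) (nat_lit 74) (nat_lit 98) (nat_lit 344) (.leaf p086_l32))))
(.spl (nat_lit 1) (nat_lit 270)
(.leaf p086_l33)
(.trX (nat_lit 19) (nat_lit 100) (nat_lit 74) (nat_lit 98) (nat_lit 344) (.spl (nat_lit 0) (nat_lit 330)
(.leaf p086_l34)
(.trX (nat_lit 16) (nat_lit 83) (nat_lit 98) (nat_lit 100) (nat_lit 288) (.leaf p086_l35))))))
(.spl (nat_lit 2) (nat_lit 120)
(.spl (nat_lit 1) (nat_lit 270)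
(.leaf p086_l36)
(.trZ (nat_lit 0) (nat_lit 100) (nat_lit 85) (nat_lit 90) (nat_lit 92) (.trX (nat_lit 19) (nat_lit 100) (nat_lit 74) (nat_lit 98) (nat_lit 344) (.spl (nat_lit 1) (nat_lit 275)
(.spl (nat_lit 0) (nat_lit 330)
(.leaf p086_l37)
(.trZ (nat_lit 0) (nat_lit 100) (nat_lit 81) (nat_lit 93) (nat_lit 100) (.trX (nat_lit 16) (nat_lit 83) (nat_lit 98) (nat_lit 100) (nat_lit 288) (.leaf p086_l38))))
(.trZ (nat_lit 0) (nat_lit 100) (nat_lit 86) (nat_lit 92) (nat_lit 96) (.trX (nat_lit 19) (nat_lit 100) (nat_lit 77) (nat_lit 99) (nat_lit 340) (.spl (nat_lit 0) (nat_lit 330)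
(.leaf p086_l39)
(.trZ (nat_lit 0) (nat_lit 100) (nat_lit 82) (nat_lit 96) (nat_lit 104) (.trX (nat_lit 16) (nat_lit 83) (nat_lit 98) (nat_lit 100) (nat_lit 288) (.leaf p086_l40))))))))))
(.spl (nat_lit 1) (nat_lit 270)
(.spl (nat_lit 0) (nat_lit 330)
(.leaf p086_l41)
(.trX (nat_lit 16) (nat_lit 83) (nat_lit 98) (nat_lit 100) (nat_lit 288) (.leaf p086_l42)))
(.trX (nat_lit 19) (nat_lit 100) (nat_lit 74) (nat_lit 98) (nat_lit 344) (.spl (nat_lit 0) (nat_lit 330)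
(.spl (nat_lit 1) (nat_lit 275)
(.leaf p086_l43)
(.trX (nat_lit 19) (nat_lit 100) (nat_lit 77) (nat_lit 99) (nat_lit 340) (.leaf p086_l44)))
(.trX (nat_lit 16) (nat_lit 83) (nat_lit 98) (nat_lit 100) (nat_lit 288) (.spl (nat_lit 1) (nat_lit 275)
(.leaf p086_l45)
(.trX (nat_lit 19) (nat_lit 100) (nat_lit 77) (nat_lit 99) (nat_lit 340) (.leaf p086_l46)))))))))))) (by decide +kernel)
noncomputable def p086_l47 : Lf2 := ⟨nat_lit 0, nat_lit 5, [nat_lit 4, nat_lit 5, nat_lit 5, nat_lit 20], false, nat_lit 240, nat_lit 256, nat_lit 0, nat_lit 352, ⟨nat_lit 0, nat_lit 412, nat_lit 588, nat_lit 6, nat_lit 178, nat_lit 1000, nat_lit 182, nat_lit 588, nat_lit 66937, nat_lit 278, nat_lit 15045, nat_lit 245, nat_lit 45391627, nat_lit 10588789, nat_lit 11019584, nat_lit 4581669, false, false⟩,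
 nat_lit 0, nat_lit 3739, nat_lit 0, nat_lit 0, nat_lit 3026, nat_lit 0, nat_lit 0, nat_lit 0, nat_lit 0, nat_lit 0, nat_lit 0, nat_lit 0, nat_lit 0, nat_lit 0, nat_lit 72, nat_lit 752800, nat_lit 0, nat_lit 0, [(nat_lit 21, [(nat_lit 1, nat_lit 412), (nat_lit 6, nat_lit 588)])],
 ⟨p086_k35, nat_lit 0, nat_lit 0, nat_lit 185, nat_lit 0, nat_lit 450695, [nat_lit 1579811201, nat_lit 155987199], [], [nat_lit 19880897940, nat_lit 20475744797, nat_lit 20841381252, nat_lit 21370077052, nat_lit 20542643872, nat_lit 21251475598, nat_lit 21449253200, nat_lit 21962398002], nat_lit 1271250, nat_lit 1271250, nat_lit 545600, nat_lit 1100001, nat_lit 1271250, nat_lit 1271250, [nat_lit 490000, nat_lit 1100000], [nat_lit 24, nat_lit 40, nat_lit 40, nat_lit 80, nat_lit 33, nat_lit 249, nat_lit 40, nat_lit 10]⟩, ⟨p086_k36, nat_lit 0, nat_lit 0, nat_lit 593, nat_lit 0, nat_lit 755808, [nat_lit 0, nat_lit 0, nat_lit 0], [], [nat_lit 0, nat_lit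 0, nat_lit 0, nat_lit 0, nat_lit 0, nat_lit 0, nat_lit 0, nat_lit 0], nat_lit 1271250, nat_lit 1271250, nat_lit 545600, nat_lit 1100001, nat_lit 0, nat_lit 2486000, [nat_lit 1100000, nat_lit 1785000, nat_lit 1271250], [nat_lit 29, nat_lit 40, nat_lit 40, nat_lit 80, nat_lit 17, nat_lit 428, nat_lit 200, nat_lit 13]⟩,
 ⟨nat_lit 3535, nat_lit 3873, ⟨.ofNat (nat_lit 362897), .ofNat (nat_lit 479046), .ofNat (nat_lit 406471), .ofNat (nat_lit 522620), .ofNat (nat_lit 368144), .ofNat (nat_lit 481125), .ofNat (nat_lit 412037), .ofNat (nat_lit 525018)⟩, ⟨.ofNat (nat_lit 433760), .ofNat (nat_lit 459569), .ofNat (nat_lit 455554), .ofNat (nat_lit 481362), .ofNat (nat_lit 431044), .ofNat (nat_lit 456149), .ofNat (nat_lit 452997), .ofNat (nat_lit 478101)⟩⟩, [⟨nat_lit 0, nat_lit 100, nat_lit 72, nat_lit 94, nat_lit 504759⟩, ⟨nat_lit 16, nat_lit 74, nat_lit 100, nat_lit 90, nat_lit 288806079⟩]⟩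
noncomputable def p086_l48 : Lf2 := ⟨nat_lit 0, nat_lit 10, [nat_lit 0, nat_lit 5, nat_lit 5, nat_lit 20], false, nat_lit 240, nat_lit 256, nat_lit 0, nat_lit 352, ⟨nat_lit 0, nat_lit 461, nat_lit 539, nat_lit 6, nat_lit 179, nat_lit 1000, nat_lit 182, nat_lit 539, nat_lit 66937, nat_lit 278, nat_lit 15897, nat_lit 244, nat_lit 45384389, nat_lit 10659382, nat_lit 10956229, nat_lit 4582744, false, false⟩,
 nat_lit 0, nat_lit 4055, nat_lit 0, nat_lit 0, nat_lit 3282, nat_lit 0, nat_lit 0, nat_lit 0, nat_lit 0, nat_lit 0, nat_lit 0, nat_lit 0, nat_lit 0, nat_lit 0, nat_lit 10, nat_lit 400000, nat_lit 0, nat_lit 0, [(nat_lit 21, [(nat_lit 1, nat_lit 461), (nat_lit 5, nat_lit 539)])],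
 ⟨p086_k37, nat_lit 0, nat_lit 0, nat_lit 206, nat_lit 0, nat_lit 371526, [nat_lit 1231673601, nat_lit 274038001, nat_lit 29292800], [], [nat_lit 20053874794, nat_lit 21438773329, nat_lit 20787240898, nat_lit 21999480520, nat_lit 20735496293, nat_lit 22209970154, nat_lit 21409623377, nat_lit 22710685858], nat_lit 1271250, nat_lit 1271250, nat_lit 545600, nat_lit 1100001, nat_lit 1271250, nat_lit 1271250, [nat_lit 490000, nat_lit 1100000, nat_lit 1442500], [nat_lit 6, nat_lit 40, nat_lit 40, nat_lit 80, nat_lit 3, nat_lit 249, nat_lit 40, nat_lit 8]⟩, ⟨p086_k1, nat_lit 0, nat_lit 0, nat_lit 590, nat_lit 0, nat_lit 629055, [nat_lit 0, nat_lit 0, nat_lit 0], [], [nat_lit 0, nat_lit 0, nat_lit 0, nat_lit 0, nat_lit 0, nat_lit 0, nat_lit 0, nat_lit 0], nat_lit 1271250, nat_lit 1271250, nat_lit 545600, nat_lit 1100001, nat_lit 0, nat_lit 2486000, [nat_lit 1100000, nat_lit 1785000, nat_lit 1271250], [nat_lit 21, nat_lit 40, nat_lit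 40, nat_lit 80, nat_lit 14, nat_lit 428, nat_lit 200, nat_lit 11]⟩,
 ⟨nat_lit 3162, nat_lit 3873, ⟨.ofNat (nat_lit 362778), .ofNat (nat_lit 478975), .ofNat (nat_lit 406307), .ofNat (nat_lit 522504), .ofNat (nat_lit 373492), .ofNat (nat_lit 483267), .ofNat (nat_lit 417744), .ofNat (nat_lit 527519)⟩, ⟨.ofNat (nat_lit 433760), .ofNat (nat_lit 459569), .ofNat (nat_lit 455554), .ofNat (nat_lit 481362), .ofNat (nat_lit 428022), .ofNat (nat_lit 452404), .ofNat (nat_lit 450177), .ofNat (nat_lit 474559)⟩⟩, [⟨nat_lit 0, nat_lit 100, nat_lit 69, nat_lit 96, nat_lit 25577927⟩, ⟨nat_lit 16, nat_lit 74, nat_lit 100, nat_lit 90, nat_lit 302177295⟩]⟩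
noncomputable def p086_l49 : Lf2 := ⟨nat_lit 0, nat_lit 10, [nat_lit 0, nat_lit 5, nat_lit 5, nat_lit 20], false, nat_lit 240, nat_lit 276, nat_lit 0, nat_lit 364, ⟨nat_lit 0, nat_lit 545, nat_lit 455, nat_lit 6, nat_lit 174, nat_lit 1000, nat_lit 197, nat_lit 455, nat_lit 13749, nat_lit 240, nat_lit 32662, nat_lit 258, nat_lit 44540067, nat_lit 10152121, nat_lit 12307812, nat_lit 4671707, false, false⟩,
 nat_lit 0, nat_lit 3762, nat_lit 0, nat_lit 0, nat_lit 3045, nat_lit 0, nat_lit 0, nat_lit 0, nat_lit 0, nat_lit 0, nat_lit 0, nat_lit 0, nat_lit 0, nat_lit 0, nat_lit 62, nat_lit 673000, nat_lit 0, nat_lit 0, [(nat_lit 21, [(nat_lit 1, nat_lit 545), (nat_lit 6, nat_lit 455)])],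
 ⟨p086_k37, nat_lit 0, nat_lit 0, nat_lit 230, nat_lit 0, nat_lit 434632, [nat_lit 1579292000, nat_lit 575256001, nat_lit 133768000], [], [nat_lit 20154447320, nat_lit 21313876220, nat_lit 21111353160, nat_lit 22171511160, nat_lit 21646355164, nat_lit 22919327045, nat_lit 22481570108, nat_lit 23471444763], nat_lit 1271250, nat_lit 1271250, nat_lit 545600, nat_lit 1100001, nat_lit 1271250, nat_lit 1271250, [nat_lit 490000, nat_lit 1100000, nat_lit 1442500], [nat_lit 6, nat_lit 40, nat_lit 40, nat_lit 80, nat_lit 3, nat_lit 249, nat_lit 40, nat_lit 8]⟩, ⟨p086_k1, nat_lit 0, nat_lit 0, nat_lit 669, nat_lit 0, nat_lit 742281, [nat_lit 0, nat_lit 0, nat_lit 0], [], [nat_lit 0, nat_lit 0, nat_lit 0, nat_lit 0, nat_lit 0, nat_lit 0, nat_lit 0, nat_lit 0], nat_lit 1271250, nat_lit 1271250, nat_lit 545600, nat_lit 1100001, nat_lit 0, nat_lit 2570750, [nat_lit 1100000, nat_lit 1785000, nat_lit 1271250], [nat_lit 21, nat_lit 40,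 nat_lit 40, nat_lit 80, nat_lit 14, nat_lit 428, nat_lit 200, nat_lit 11]⟩,
 ⟨nat_lit 3162, nat_lit 3873, ⟨.ofNat (nat_lit 362778), .ofNat (nat_lit 478975), .ofNat (nat_lit 384542), .ofNat (nat_lit 500739), .ofNat (nat_lit 373492), .ofNat (nat_lit 483267), .ofNat (nat_lit 395618), .ofNat (nat_lit 505392)⟩, ⟨.ofNat (nat_lit 455554), .ofNat (nat_lit 513623), .ofNat (nat_lit 477347), .ofNat (nat_lit 535416), .ofNat (nat_lit 450177), .ofNat (nat_lit 505035), .ofNat (nat_lit 472332), .ofNat (nat_lit 527190)⟩⟩, [⟨nat_lit 0, nat_lit 100, nat_lit 68, nat_lit 92, nat_lit 15606682⟩, ⟨nat_lit 16, nat_lit 77, nat_lit 100, nat_lit 99, nat_lit 253432090⟩]⟩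
noncomputable def p086_l50 : Lf2 := ⟨nat_lit 0, nat_lit 10, [nat_lit 0, nat_lit 5, nat_lit 5, nat_lit 20], false, nat_lit 240, nat_lit 276, nat_lit 0, nat_lit 160, ⟨nat_lit 292, nat_lit 356, nat_lit 352, nat_lit 6, nat_lit 188, nat_lit 708, nat_lit 197, nat_lit 352, nat_lit 13749, nat_lit 240, nat_lit 15897, nat_lit 244, nat_lit 43539566, nat_lit 11305787, nat_lit 12154647, nat_lit 4791926, false, false⟩,
 nat_lit 4403, nat_lit 0, nat_lit 0, nat_lit 0, nat_lit 3564, nat_lit 2562, nat_lit 332, nat_lit 0, nat_lit 0, nat_lit 210, nat_lit 0, nat_lit 0, nat_lit 0, nat_lit 0, nat_lit 0, nat_lit 283200, nat_lit 0, nat_lit 0, [(nat_lit 21, [(nat_lit 1, nat_lit 356), (nat_lit 5, nat_lit 352)])],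
 ⟨p086_k37, nat_lit 0, nat_lit 0, nat_lit 239, nat_lit 0, nat_lit 480330, [nat_lit 1419910401, nat_lit 1525382400, nat_lit 1795486400], [], [nat_lit 20648665881, nat_lit 21686816361, nat_lit 21238784871, nat_lit 22283723876, nat_lit 22005494047, nat_lit 23444380074, nat_lit 22586644238, nat_lit 23806193460], nat_lit 1271250, nat_lit 1271250, nat_lit 660400, nat_lit 1100001, nat_lit 1271250, nat_lit 1271250, [nat_lit 490000, nat_lit 1100000, nat_lit 1442500], [nat_lit 6, nat_lit 40, nat_lit 40, nat_lit 80, nat_lit 3, nat_lit 249, nat_lit 40, nat_lit 8]⟩, ⟨p086_k14, nat_lit 0, nat_lit 0, nat_lit 571, nat_lit 0, nat_lit 725379, [nat_lit 1368896000, nat_lit 2326656000, nat_lit 2873864000], [], [nat_lit 10125190833, nat_lit 9173071695, nat_lit 8764550256, nat_lit 8994285664, nat_lit 8761320603, nat_lit 7563781340, nat_lit 10454029352, nat_lit 9278655488], nat_lit 1271250, nat_lit 1271250, nat_lit 660400, nat_lit 1100001, nat_lit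 0, nat_lit 1100001, [nat_lit 1100000, nat_lit 1785000, nat_lit 1271250], [nat_lit 29, nat_lit 40, nat_lit 40, nat_lit 80, nat_lit 17, nat_lit 373, nat_lit 150, nat_lit 11]⟩,
 ⟨nat_lit 3162, nat_lit 3873, ⟨.ofNat (nat_lit 410364), .ofNat (nat_lit 500739), .ofNat (nat_lit 432129), .ofNat (nat_lit 522504), .ofNat (nat_lit 420013), .ofNat (nat_lit 505392), .ofNat (nat_lit 442139), .ofNat (nat_lit 527519)⟩, ⟨.ofNat (nat_lit 455554), .ofNat (nat_lit 513623), .ofNat (nat_lit 477347), .ofNat (nat_lit 535416), .ofNat (nat_lit 450177), .ofNat (nat_lit 505035), .ofNat (nat_lit 472332), .ofNat (nat_lit 527190)⟩⟩, [⟨nat_lit 0, nat_lit 100, nat_lit 71, nat_lit 100, nat_lit 8329594⟩, ⟨nat_lit 4, nat_lit 100, nat_lit 68, nat_lit 92, nat_lit 416992450⟩]⟩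
noncomputable def p086_l51 : Lf2 := ⟨nat_lit 0, nat_lit 5, [nat_lit 4, nat_lit 5, nat_lit 5, nat_lit 20], false, nat_lit 240, nat_lit 276, nat_lit 160, nat_lit 352, ⟨nat_lit 337, nat_lit 304, nat_lit 359, nat_lit 6, nat_lit 188, nat_lit 663, nat_lit 197, nat_lit 359, nat_lit 13749, nat_lit 240, nat_lit 15897, nat_lit 244, nat_lit 43539566, nat_lit 11305787, nat_lit 12154647, nat_lit 4791926, false, false⟩,
 nat_lit 4437, nat_lit 0, nat_lit 0, nat_lit 0, nat_lit 3591, nat_lit 2582, nat_lit 0, nat_lit 0, nat_lit 0, nat_lit 461, nat_lit 0, nat_lit 0, nat_lit 0, nat_lit 0, nat_lit 0, nat_lit 499200, nat_lit 0, nat_lit 0, [(nat_lit 21, [(nat_lit 1, nat_lit 273), (nat_lit 2, nat_lit 31), (nat_lit 6, nat_lit 359)])],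
 ⟨p086_k38, nat_lit 0, nat_lit 0, nat_lit 195, nat_lit 0, nat_lit 457871, [nat_lit 1367618934, nat_lit 1157898801, nat_lit 963683399], [], [nat_lit 20651157803, nat_lit 21726269296, nat_lit 21272203406, nat_lit 22301621373, nat_lit 22026444776, nat_lit 23470690145, nat_lit 22578501927, nat_lit 23825964825], nat_lit 1271250, nat_lit 1271250, nat_lit 660400, nat_lit 1100001, nat_lit 1271250, nat_lit 1271250, [nat_lit 490000, nat_lit 780000, nat_lit 1100000], [nat_lit 78, nat_lit 40, nat_lit 40, nat_lit 80, nat_lit 22, nat_lit 249, nat_lit 40, nat_lit 10]⟩, ⟨p086_k30, nat_lit 0, nat_lit 0, nat_lit 368, nat_lit 0, nat_lit 686974, [nat_lit 1579856000, nat_lit 2106250000, nat_lit 2685216000], [], [nat_lit 6997036991, nat_lit 7253478354, nat_lit 7689142235, nat_lit 7196516754, nat_lit 8826927794, nat_lit 8997506308, nat_lit 8612131942, nat_lit 8803282697], nat_lit 1271250, nat_lit 1271250, nat_lit 660400, nat_lit 1100001, nat_lit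 1271250, nat_lit 1271250, [nat_lit 1100000, nat_lit 1442500, nat_lit 1271250], [nat_lit 9, nat_lit 40, nat_lit 40, nat_lit 80, nat_lit 2, nat_lit 373, nat_lit 150, nat_lit 12]⟩,
 ⟨nat_lit 3162, nat_lit 3873, ⟨.ofNat (nat_lit 410364), .ofNat (nat_lit 500739), .ofNat (nat_lit 432129), .ofNat (nat_lit 522504), .ofNat (nat_lit 420013), .ofNat (nat_lit 505392), .ofNat (nat_lit 442139), .ofNat (nat_lit 527519)⟩, ⟨.ofNat (nat_lit 455554), .ofNat (nat_lit 513623), .ofNat (nat_lit 477347), .ofNat (nat_lit 535416), .ofNat (nat_lit 450177), .ofNat (nat_lit 505035), .ofNat (nat_lit 472332), .ofNat (nat_lit 527190)⟩⟩, [⟨nat_lit 0, nat_lit 100, nat_lit 75, nat_lit 92, nat_lit 254490402⟩, ⟨nat_lit 16, nat_lit 77, nat_lit 100, nat_lit 99, nat_lit 347468516⟩, ⟨nat_lit 7, nat_lit 78, nat_lit 100, nat_lit 95, nat_lit 110135715⟩]⟩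
noncomputable def p086_l52 : Lf2 := ⟨nat_lit 0, nat_lit 10, [nat_lit 0, nat_lit 5, nat_lit 5, nat_lit 20], false, nat_lit 240, nat_lit 276, nat_lit 160, nat_lit 352, ⟨nat_lit 48, nat_lit 466, nat_lit 486, nat_lit 6, nat_lit 186, nat_lit 952, nat_lit 197, nat_lit 486, nat_lit 13749, nat_lit 240, nat_lit 25055, nat_lit 251, nat_lit 43699238, nat_lit 11120954, nat_lit 12179808, nat_lit 4773604, false, false⟩,
 nat_lit 756, nat_lit 3099, nat_lit 0, nat_lit 0, nat_lit 3120, nat_lit 439, nat_lit 114, nat_lit 0, nat_lit 0, nat_lit 53, nat_lit 0, nat_lit 0, nat_lit 0, nat_lit 0, nat_lit 0, nat_lit 380800, nat_lit 0, nat_lit 0, [(nat_lit 21, [(nat_lit 1, nat_lit 466), (nat_lit 5, nat_lit 486)])],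
 ⟨p086_k37, nat_lit 0, nat_lit 0, nat_lit 166, nat_lit 0, nat_lit 299216, [nat_lit 1204172800, nat_lit 402981601, nat_lit 221171200], [], [nat_lit 20321375790, nat_lit 21366242846, nat_lit 20983180910, nat_lit 22005958400, nat_lit 21660970951, nat_lit 23011725570, nat_lit 22322118357, nat_lit 23481064337], nat_lit 1271250, nat_lit 1271250, nat_lit 660400, nat_lit 1100001, nat_lit 1271250, nat_lit 1271250, [nat_lit 490000, nat_lit 1100000, nat_lit 1442500], [nat_lit 6, nat_lit 40, nat_lit 40, nat_lit 80, nat_lit 3, nat_lit 249, nat_lit 40, nat_lit 8]⟩, ⟨p086_k14, nat_lit 0, nat_lit 0, nat_lit 312, nat_lit 0, nat_lit 451867, [nat_lit 225024000, nat_lit 382464000, nat_lit 472416000], [], [nat_lit 1415421840, nat_lit 1300412181, nat_lit 1292289934, nat_lit 1185973353, nat_lit 1286483570, nat_lit 1310716173, nat_lit 1239161403, nat_lit 1269763648], nat_lit 1271250, nat_lit 1271250, nat_lit 660400, nat_lit 1100001, nat_lit 1271250,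 nat_lit 1271250, [nat_lit 1100000, nat_lit 1785000, nat_lit 1271250], [nat_lit 29, nat_lit 40, nat_lit 40, nat_lit 80, nat_lit 17, nat_lit 428, nat_lit 200, nat_lit 12]⟩,
 ⟨nat_lit 3162, nat_lit 3873, ⟨.ofNat (nat_lit 410364), .ofNat (nat_lit 500739), .ofNat (nat_lit 421247), .ofNat (nat_lit 511622), .ofNat (nat_lit 420013), .ofNat (nat_lit 505392), .ofNat (nat_lit 431076), .ofNat (nat_lit 516456)⟩, ⟨.ofNat (nat_lit 455554), .ofNat (nat_lit 513623), .ofNat (nat_lit 477347), .ofNat (nat_lit 535416), .ofNat (nat_lit 450177), .ofNat (nat_lit 505035), .ofNat (nat_lit 472332), .ofNat (nat_lit 527190)⟩⟩, [⟨nat_lit 0, nat_lit 100, nat_lit 75, nat_lit 92, nat_lit 38374593⟩, ⟨nat_lit 16, nat_lit 77, nat_lit 100, nat_lit 99, nat_lit 256282694⟩, ⟨nat_lit 23, nat_lit 100, nat_lit 62, nat_lit 98, nat_lit 11692227⟩]⟩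
noncomputable def p086_l53 : Lf2 := ⟨nat_lit 0, nat_lit 10, [nat_lit 0, nat_lit 5, nat_lit 5, nat_lit 20], false, nat_lit 240, nat_lit 276, nat_lit 160, nat_lit 344, ⟨nat_lit 353, nat_lit 0, nat_lit 647, nat_lit 6, nat_lit 193, nat_lit 647, nat_lit 197, nat_lit 647, nat_lit 13749, nat_lit 240, nat_lit 15897, nat_lit 244, nat_lit 43196641, nat_lit 0, nat_lit 0, nat_lit 4830196, false, false⟩,
 nat_lit 4805, nat_lit 0, nat_lit 0, nat_lit 0, nat_lit 3889, nat_lit 2926, nat_lit 106, nat_lit 0, nat_lit 0, nat_lit 401, nat_lit 0, nat_lit 0, nat_lit 0, nat_lit 0, nat_lit 0, nat_lit 192800, nat_lit 0, nat_lit 0, [(nat_lit 21, [(nat_lit 4, nat_lit 440), (nat_lit 5, nat_lit 207)])],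
 ⟨p086_k37, nat_lit 0, nat_lit 0, nat_lit 171, nat_lit 0, nat_lit 323145, [nat_lit 1563115200, nat_lit 1177055600, nat_lit 1463116400], [], [nat_lit 20813122781, nat_lit 21960820539, nat_lit 21324256942, nat_lit 22393791350, nat_lit 22242162889, nat_lit 23728541447, nat_lit 22653668686, nat_lit 24044182120], nat_lit 1271250, nat_lit 1271250, nat_lit 719601, nat_lit 1100001, nat_lit 1271250, nat_lit 1271250, [nat_lit 490000, nat_lit 1100000, nat_lit 1442500], [nat_lit 6, nat_lit 40, nat_lit 40, nat_lit 80, nat_lit 3, nat_lit 249, nat_lit 40, nat_lit 8]⟩, ⟨p086_k33, nat_lit 0, nat_lit 0, nat_lit 309, nat_lit 0, nat_lit 460535, [nat_lit 1654864000, nat_lit 2812704000, nat_lit 3474226000], [], [nat_lit 8565954826, nat_lit 7801727516, nat_lit 8708672038, nat_lit 8000056284, nat_lit 9080011657, nat_lit 9194871632, nat_lit 8870234709, nat_lit 9052625378], nat_lit 1271250, nat_lit 1271250, nat_lit 719601, nat_lit 1100001, nat_lit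 1271250, nat_lit 1271250, [nat_lit 1100000, nat_lit 1785000, nat_lit 1271250], [nat_lit 29, nat_lit 40, nat_lit 40, nat_lit 80, nat_lit 17, nat_lit 428, nat_lit 200, nat_lit 12]⟩,
 ⟨nat_lit 3162, nat_lit 3873, ⟨.ofNat (nat_lit 434157), .ofNat (nat_lit 511622), .ofNat (nat_lit 445039), .ofNat (nat_lit 522504), .ofNat (nat_lit 443273), .ofNat (nat_lit 516456), .ofNat (nat_lit 454336), .ofNat (nat_lit 527519)⟩, ⟨.ofNat (nat_lit 455554), .ofNat (nat_lit 513623), .ofNat (nat_lit 477347), .ofNat (nat_lit 535416), .ofNat (nat_lit 450177), .ofNat (nat_lit 505035), .ofNat (nat_lit 472332), .ofNat (nat_lit 527190)⟩⟩, [⟨nat_lit 0, nat_lit 100, nat_lit 76, nat_lit 97, nat_lit 251887389⟩, ⟨nat_lit 16, nat_lit 77, nat_lit 100, nat_lit 99, nat_lit 371058315⟩, ⟨nat_lit 19, nat_lit 100, nat_lit 81, nat_lit 96, nat_lit 94387373⟩]⟩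
noncomputable def b_V_800_600_20_25 : St := ⟨true, nat_lit 1, nat_lit 1, nat_lit 1, nat_lit 120, nat_lit 340, nat_lit 360, nat_lit 240, nat_lit 280, nat_lit 64, nat_lit 160, nat_lit 80, nat_lit 120, nat_lit 240, nat_lit 300, nat_lit 0, nat_lit 364, nat_lit 0, nat_lit 40, nat_lit 0, nat_lit 0, nat_lit 0, nat_lit 0⟩
theorem d_V_800_600_20_25 (h : EB TB.env) : Dead b_V_800_600_20_25 := chkB_sound0 h (T :=
(.trZ (nat_lit 0) (nat_lit 100) (nat_lit 73) (nat_lit 85) (nat_lit 88) (.trX (nat_lit 16) (nat_lit 77) (nat_lit 100) (nat_lit 99) (nat_lit 276) (.spl (nat_lit 3) (nat_lit 100)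
(.trX (nat_lit 16) (nat_lit 74) (nat_lit 100) (nat_lit 90) (nat_lit 256) (.trX (nat_lit 19) (nat_lit 100) (nat_lit 68) (nat_lit 88) (nat_lit 352) (.spl (nat_lit 6) (nat_lit 20)
(.spl (nat_lit 0) (nat_lit 350)
(.leaf p086_l47)
(.trZ (nat_lit 0) (nat_lit 100) (nat_lit 68) (nat_lit 89) (nat_lit 100) (.emL (nat_lit 16) (nat_lit 67) (nat_lit 100) (nat_lit 88))))
(.leaf p086_l48))))
(.spl (nat_lit 1) (nat_lit 260)
(.leaf p086_l49)
(.trZ (nat_lit 0) (nat_lit 100) (nat_lit 75) (nat_lit 92) (nat_lit 104) (.trX (nat_lit 19) (nat_lit 100) (nat_lit 69) (nat_lit 96) (nat_lit 352) (.spl (nat_lit 5) (nat_lit 160)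
(.leaf p086_l50)
(.spl (nat_lit 6) (nat_lit 20)
(.leaf p086_l51)
(.spl (nat_lit 1) (nat_lit 270)
(.leaf p086_l52)
(.trZ (nat_lit 0) (nat_lit 100) (nat_lit 76) (nat_lit 97) (nat_lit 112) (.trX (nat_lit 19) (nat_lit 100) (nat_lit 74) (nat_lit 98) (nat_lit 344) (.leaf p086_l53))))))))))))) (by decide +kernel)
noncomputable def p086_l54 : Lf2 := ⟨nat_lit 0, nat_lit 10, [nat_lit 0, nat_lit 5, nat_lit 5, nat_lit 20], false, nat_lit 160, nat_lit 300, nat_lit 0, nat_lit 160, ⟨nat_lit 397, nat_lit 603, nat_lit 0, nat_lit 6, nat_lit 226, nat_lit 603, nat_lit 177, nat_lit 0, nat_lit 0, nat_lit 0, nat_lit 0, nat_lit 0, nat_lit 42101708, nat_lit 14863208, nat_lit 10035084, nat_lit 4900765, false, false⟩,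
 nat_lit 5859, nat_lit 0, nat_lit 0, nat_lit 0, nat_lit 4394, nat_lit 3101, nat_lit 584, nat_lit 0, nat_lit 0, nat_lit 245, nat_lit 0, nat_lit 0, nat_lit 0, nat_lit 0, nat_lit 0, nat_lit 241200, nat_lit 0, nat_lit 0, [(nat_lit 18, [(nat_lit 1, nat_lit 603)])],
 ⟨p086_k27, nat_lit 0, nat_lit 0, nat_lit 219, nat_lit 0, nat_lit 490017, [nat_lit 1624372001, nat_lit 2357641200, nat_lit 3663612400], [], [nat_lit 18993683329, nat_lit 20091709057, nat_lit 20862329826, nat_lit 21873941382, nat_lit 23051928456, nat_lit 24199943178, nat_lit 24849357250, nat_lit 26057742581], nat_lit 1271250, nat_lit 1271250, nat_lit 1100001, nat_lit 1785000, nat_lit 1100001, nat_lit 2298750, [nat_lit 490000, nat_lit 780000, nat_lit 1435000], [nat_lit 85, nat_lit 40, nat_lit 40, nat_lit 80, nat_lit 16, nat_lit 373, nat_lit 150, nat_lit 13]⟩, ⟨p086_k39, nat_lit 0, nat_lit 0, nat_lit 643, nat_lit 0, nat_lit 762249, [nat_lit 1861136000, nat_lit 2481250000,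 nat_lit 4713184000], [], [nat_lit 16387704604, nat_lit 14445182787, nat_lit 14329514275, nat_lit 14656991459, nat_lit 12449943895, nat_lit 12745468963, nat_lit 12608497983, nat_lit 12838218283], nat_lit 1271250, nat_lit 1271250, nat_lit 1100001, nat_lit 1785000, nat_lit 0, nat_lit 1100001, [nat_lit 1100000, nat_lit 1442500, nat_lit 1271250], [nat_lit 48, nat_lit 40, nat_lit 40, nat_lit 80, nat_lit 12, nat_lit 401, nat_lit 175, nat_lit 10]⟩,
 ⟨nat_lit 3872, nat_lit 4473, ⟨.ofNat (nat_lit 475111), .ofNat (nat_lit 611083), .ofNat (nat_lit 518209), .ofNat (nat_lit 654181), .ofNat (nat_lit 479021), .ofNat (nat_lit 608080), .ofNat (nat_lit 522572), .ofNat (nat_lit 651631)⟩, ⟨.ofNat (nat_lit 302621), .ofNat (nat_lit 540545), .ofNat (nat_lit 345754), .ofNat (nat_lit 583678), .ofNat (nat_lit 304717), .ofNat (nat_lit 530543), .ofNat (nat_lit 348304), .ofNat (nat_lit 574129)⟩⟩, [⟨nat_lit 16, nat_lit 87, nat_lit 95, nat_lit 100, nat_lit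 248770016⟩]⟩
noncomputable def p086_l55 : Lf2 := ⟨nat_lit 0, nat_lit 5, [nat_lit 4, nat_lit 5, nat_lit 5, nat_lit 20], false, nat_lit 160, nat_lit 300, nat_lit 160, nat_lit 364, ⟨nat_lit 388, nat_lit 612, nat_lit 0, nat_lit 6, nat_lit 222, nat_lit 612, nat_lit 177, nat_lit 0, nat_lit 0, nat_lit 0, nat_lit 0, nat_lit 0, nat_lit 42417576, nat_lit 14467593, nat_lit 10114831, nat_lit 4876200, false, false⟩,
 nat_lit 6127, nat_lit 0, nat_lit 0, nat_lit 0, nat_lit 4595, nat_lit 3243, nat_lit 458, nat_lit 0, nat_lit 0, nat_lit 700, nat_lit 0, nat_lit 0, nat_lit 0, nat_lit 0, nat_lit 0, nat_lit 263250, nat_lit 0, nat_lit 0, [(nat_lit 18, [(nat_lit 0, nat_lit 105), (nat_lit 1, nat_lit 450), (nat_lit 2, nat_lit 57)])],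
 ⟨p086_k10, nat_lit 0, nat_lit 0, nat_lit 151, nat_lit 0, nat_lit 354084, [nat_lit 1647750400, nat_lit 2341854801, nat_lit 3551107600], [], [nat_lit 18328234521, nat_lit 18962839351, nat_lit 20566054961, nat_lit 21153443586, nat_lit 23067519551, nat_lit 23620511993, nat_lit 24951691375, nat_lit 25569045672], nat_lit 1271250, nat_lit 1271250, nat_lit 1100001, nat_lit 1785000, nat_lit 1100001, nat_lit 2298750, [nat_lit 490000, nat_lit 780000, nat_lit 1435000], [nat_lit 85, nat_lit 40, nat_lit 40, nat_lit 80, nat_lit 16, nat_lit 373, nat_lit 150, nat_lit 13]⟩, ⟨p086_k11, nat_lit 0, nat_lit 0, nat_lit 324, nat_lit 0, nat_lit 546823, [nat_lit 1818944000, nat_lit 2425000000, nat_lit 3818696000], [], [nat_lit 14520761776, nat_lit 12806064442, nat_lit 11721703820, nat_lit 10150930826, nat_lit 10120025418, nat_lit 10385125169, nat_lit 10709350907, nat_lit 11082441526], nat_lit 1271250, nat_lit 1271250, nat_lit 1100001, nat_lit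 1785000, nat_lit 1271250, nat_lit 1271250, [nat_lit 1100000, nat_lit 1442500, nat_lit 1271250], [nat_lit 11, nat_lit 40, nat_lit 40, nat_lit 80, nat_lit 1, nat_lit 456, nat_lit 225, nat_lit 13]⟩,
 ⟨nat_lit 4183, nat_lit 4473, ⟨.ofNat (nat_lit 475145), .ofNat (nat_lit 611104), .ofNat (nat_lit 496708), .ofNat (nat_lit 632666), .ofNat (nat_lit 477068), .ofNat (nat_lit 609582), .ofNat (nat_lit 498731), .ofNat (nat_lit 631244)⟩, ⟨.ofNat (nat_lit 302621), .ofNat (nat_lit 540545), .ofNat (nat_lit 345754), .ofNat (nat_lit 583678), .ofNat (nat_lit 303743), .ofNat (nat_lit 535637), .ofNat (nat_lit 347076), .ofNat (nat_lit 578971)⟩⟩, [⟨nat_lit 16, nat_lit 87, nat_lit 95, nat_lit 100, nat_lit 274116128⟩, ⟨nat_lit 19, nat_lit 100, nat_lit 59, nat_lit 94, nat_lit 10738369⟩]⟩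
noncomputable def p086_l56 : Lf2 := ⟨nat_lit 0, nat_lit 5, [nat_lit 4, nat_lit 5, nat_lit 5, nat_lit 20], false, nat_lit 160, nat_lit 288, nat_lit 160, nat_lit 364, ⟨nat_lit 339, nat_lit 661, nat_lit 0, nat_lit 6, nat_lit 222, nat_lit 661, nat_lit 172, nat_lit 0, nat_lit 0, nat_lit 0, nat_lit 0, nat_lit 0, nat_lit 42718465, nat_lit 14541621, nat_lit 9739914, nat_lit 4836323, false, false⟩,
 nat_lit 5348, nat_lit 0, nat_lit 0, nat_lit 0, nat_lit 4168, nat_lit 2831, nat_lit 355, nat_lit 0, nat_lit 0, nat_lit 611, nat_lit 0, nat_lit 0, nat_lit 0, nat_lit 0, nat_lit 0, nat_lit 264400, nat_lit 0, nat_lit 0, [(nat_lit 18, [(nat_lit 1, nat_lit 661)])],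
 ⟨p086_k32, nat_lit 0, nat_lit 0, nat_lit 153, nat_lit 0, nat_lit 390953, [nat_lit 1585164001, nat_lit 2224664400, nat_lit 2846188600], [], [nat_lit 18762278446, nat_lit 19407461614, nat_lit 21007268006, nat_lit 21568558846, nat_lit 22908399163, nat_lit 23425972925, nat_lit 24771585855, nat_lit 25378536740], nat_lit 1271250, nat_lit 1271250, nat_lit 1100001, nat_lit 1785000, nat_lit 1100001, nat_lit 2196000, [nat_lit 490000, nat_lit 780000, nat_lit 1100000], [nat_lit 78, nat_lit 40, nat_lit 40, nat_lit 80, nat_lit 22, nat_lit 203, nat_lit 0, nat_lit 8]⟩, ⟨p086_k11, nat_lit 0, nat_lit 0, nat_lit 354, nat_lit 0, nat_lit 632601, [nat_lit 1589232000, nat_lit 2118750000, nat_lit 3336438000], [], [nat_lit 12683227108, nat_lit 11186369830, nat_lit 10242367456, nat_lit 8871149958, nat_lit 8846112550, nat_lit 9077672848, nat_lit 9355337808, nat_lit 9681191966], nat_lit 1271250, nat_lit 1271250, nat_lit 1100001, nat_lit 1785000,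 nat_lit 1271250, nat_lit 1271250, [nat_lit 1100000, nat_lit 1442500, nat_lit 1271250], [nat_lit 11, nat_lit 40, nat_lit 40, nat_lit 80, nat_lit 1, nat_lit 456, nat_lit 225, nat_lit 13]⟩,
 ⟨nat_lit 3872, nat_lit 4184, ⟨.ofNat (nat_lit 477065), .ofNat (nat_lit 609582), .ofNat (nat_lit 498726), .ofNat (nat_lit 631244), .ofNat (nat_lit 479052), .ofNat (nat_lit 608101), .ofNat (nat_lit 500840), .ofNat (nat_lit 629889)⟩, ⟨.ofNat (nat_lit 303743), .ofNat (nat_lit 515761), .ofNat (nat_lit 347076), .ofNat (nat_lit 559094), .ofNat (nat_lit 304717), .ofNat (nat_lit 511186), .ofNat (nat_lit 348304), .ofNat (nat_lit 554773)⟩⟩, [⟨nat_lit 16, nat_lit 83, nat_lit 98, nat_lit 100, nat_lit 267139332⟩, ⟨nat_lit 19, nat_lit 100, nat_lit 59, nat_lit 94, nat_lit 10251547⟩]⟩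
noncomputable def p086_l57 : Lf2 := ⟨nat_lit 0, nat_lit 10, [nat_lit 0, nat_lit 5, nat_lit 5, nat_lit 20], false, nat_lit 160, nat_lit 300, nat_lit 160, nat_lit 364, ⟨nat_lit 170, nat_lit 830, nat_lit 0, nat_lit 6, nat_lit 222, nat_lit 830, nat_lit 177, nat_lit 0, nat_lit 0, nat_lit 0, nat_lit 0, nat_lit 0, nat_lit 42417576, nat_lit 14467593, nat_lit 10114831, nat_lit 4876200, false, false⟩,
 nat_lit 3299, nat_lit 2837, nat_lit 0, nat_lit 0, nat_lit 4602, nat_lit 1746, nat_lit 0, nat_lit 0, nat_lit 0, nat_lit 195, nat_lit 0, nat_lit 0, nat_lit 0, nat_lit 0, nat_lit 0, nat_lit 539600, nat_lit 0, nat_lit 0, [(nat_lit 18, [(nat_lit 1, nat_lit 484), (nat_lit 2, nat_lit 346)])],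
 ⟨p086_k0, nat_lit 0, nat_lit 0, nat_lit 112, nat_lit 0, nat_lit 197367, [nat_lit 1610982401, nat_lit 2110512000, nat_lit 1858180000], [], [nat_lit 17791866968, nat_lit 18552279800, nat_lit 20283983112, nat_lit 20939705328, nat_lit 23053448208, nat_lit 23625220415, nat_lit 24955255250, nat_lit 25573067912], nat_lit 1271250, nat_lit 1271250, nat_lit 1100001, nat_lit 1785000, nat_lit 1100001, nat_lit 2298750, [nat_lit 490000, nat_lit 1100000, nat_lit 1442500], [nat_lit 6, nat_lit 40, nat_lit 40, nat_lit 80, nat_lit 3, nat_lit 373, nat_lit 150, nat_lit 13]⟩, ⟨p086_k1, nat_lit 0, nat_lit 0, nat_lit 241, nat_lit 0, nat_lit 307015, [nat_lit 796960000, nat_lit 1354560000, nat_lit 2018240000], [], [nat_lit 6857586680, nat_lit 5934410132, nat_lit 5040728784, nat_lit 4170721428, nat_lit 4676675804, nat_lit 4782238191, nat_lit 4897401713, nat_lit 5076732569], nat_lit 1271250, nat_lit 1271250, nat_lit 1100001, nat_lit 1785000, nat_lit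 1271250, nat_lit 1271250, [nat_lit 1100000, nat_lit 1785000, nat_lit 1271250], [nat_lit 21, nat_lit 40, nat_lit 40, nat_lit 80, nat_lit 14, nat_lit 456, nat_lit 225, nat_lit 11]⟩,
 ⟨nat_lit 4183, nat_lit 4473, ⟨.ofNat (nat_lit 475145), .ofNat (nat_lit 611104), .ofNat (nat_lit 496708), .ofNat (nat_lit 632666), .ofNat (nat_lit 477068), .ofNat (nat_lit 609582), .ofNat (nat_lit 498731), .ofNat (nat_lit 631244)⟩, ⟨.ofNat (nat_lit 302621), .ofNat (nat_lit 540545), .ofNat (nat_lit 345754), .ofNat (nat_lit 583678), .ofNat (nat_lit 303743), .ofNat (nat_lit 535637), .ofNat (nat_lit 347076), .ofNat (nat_lit 578971)⟩⟩, [⟨nat_lit 16, nat_lit 87, nat_lit 95, nat_lit 100, nat_lit 226994554⟩, ⟨nat_lit 19, nat_lit 100, nat_lit 72, nat_lit 89, nat_lit 13081332⟩]⟩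
noncomputable def p086_l58 : Lf2 := ⟨nat_lit 0, nat_lit 10, [nat_lit 0, nat_lit 5, nat_lit 5, nat_lit 20], false, nat_lit 160, nat_lit 288, nat_lit 160, nat_lit 364, ⟨nat_lit 195, nat_lit 805, nat_lit 0, nat_lit 6, nat_lit 222, nat_lit 805, nat_lit 172, nat_lit 0, nat_lit 0, nat_lit 0, nat_lit 0, nat_lit 0, nat_lit 42718465, nat_lit 14541621, nat_lit 9739914, nat_lit 4836323, false, false⟩,
 nat_lit 3820, nat_lit 1667, nat_lit 0, nat_lit 0, nat_lit 4277, nat_lit 2022, nat_lit 377, nat_lit 0, nat_lit 0, nat_lit 222, nat_lit 0, nat_lit 0, nat_lit 0, nat_lit 0, nat_lit 0, nat_lit 201250, nat_lit 0, nat_lit 0, [(nat_lit 18, [(nat_lit 0, nat_lit 805)])],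
 ⟨p086_k12, nat_lit 0, nat_lit 0, nat_lit 128, nat_lit 0, nat_lit 243637, [nat_lit 1630144000, nat_lit 2659400001, nat_lit 3281160000], [], [nat_lit 18465017300, nat_lit 19195979932, nat_lit 20829997028, nat_lit 21461926644, nat_lit 22921451353, nat_lit 23492854628, nat_lit 24828995152, nat_lit 25443430369], nat_lit 1271250, nat_lit 1271250, nat_lit 1100001, nat_lit 1785000, nat_lit 1100001, nat_lit 2196000, [nat_lit 490000, nat_lit 1100000, nat_lit 1442500], [nat_lit 6, nat_lit 40, nat_lit 40, nat_lit 80, nat_lit 3, nat_lit 373, nat_lit 150, nat_lit 13]⟩, ⟨p086_k1, nat_lit 0, nat_lit 0, nat_lit 275, nat_lit 0, nat_lit 397376, [nat_lit 914160000, nat_lit 1553760000, nat_lit 2315040000], [], [nat_lit 7895366820, nat_lit 6826258584, nat_lit 5780426748, nat_lit 4772892456, nat_lit 5376873588, nat_lit 5494687189, nat_lit 5629746710, nat_lit 5836388347], nat_lit 1271250, nat_lit 1271250, nat_lit 1100001, nat_lit 1785000, nat_lit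 1271250, nat_lit 1271250, [nat_lit 1100000, nat_lit 1785000, nat_lit 1271250], [nat_lit 21, nat_lit 40, nat_lit 40, nat_lit 80, nat_lit 14, nat_lit 456, nat_lit 225, nat_lit 11]⟩,
 ⟨nat_lit 3872, nat_lit 4184, ⟨.ofNat (nat_lit 477065), .ofNat (nat_lit 609582), .ofNat (nat_lit 498726), .ofNat (nat_lit 631244), .ofNat (nat_lit 479052), .ofNat (nat_lit 608101), .ofNat (nat_lit 500840), .ofNat (nat_lit 629889)⟩, ⟨.ofNat (nat_lit 303743), .ofNat (nat_lit 515761), .ofNat (nat_lit 347076), .ofNat (nat_lit 559094), .ofNat (nat_lit 304717), .ofNat (nat_lit 511186), .ofNat (nat_lit 348304), .ofNat (nat_lit 554773)⟩⟩, [⟨nat_lit 16, nat_lit 83, nat_lit 98, nat_lit 100, nat_lit 240994612⟩, ⟨nat_lit 19, nat_lit 100, nat_lit 59, nat_lit 94, nat_lit 8578385⟩]⟩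
noncomputable def p086_l59 : Lf2 := ⟨nat_lit 0, nat_lit 5, [nat_lit 4, nat_lit 5, nat_lit 5, nat_lit 20], false, nat_lit 160, nat_lit 300, nat_lit 160, nat_lit 352, ⟨nat_lit 473, nat_lit 527, nat_lit 0, nat_lit 6, nat_lit 228, nat_lit 527, nat_lit 177, nat_lit 0, nat_lit 0, nat_lit 0, nat_lit 0, nat_lit 0, nat_lit 41932965, nat_lit 15056352, nat_lit 10010683, nat_lit 4914107, false, false⟩,
 nat_lit 6590, nat_lit 0, nat_lit 0, nat_lit 0, nat_lit 4942, nat_lit 3835, nat_lit 129, nat_lit 0, nat_lit 0, nat_lit 828, nat_lit 0, nat_lit 0, nat_lit 0, nat_lit 0, nat_lit 0, nat_lit 527000, nat_lit 0, nat_lit 0, [(nat_lit 18, [(nat_lit 2, nat_lit 527)])],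
 ⟨p086_k3, nat_lit 0, nat_lit 0, nat_lit 204, nat_lit 0, nat_lit 436977, [nat_lit 1858019734, nat_lit 2768314667, nat_lit 2722683600], [], [nat_lit 19024799601, nat_lit 20325846515, nat_lit 21143760467, nat_lit 22293668111, nat_lit 23562822947, nat_lit 24570101116, nat_lit 25128357750, nat_lit 26408509983], nat_lit 1271250, nat_lit 1271250, nat_lit 1100001, nat_lit 1785000, nat_lit 1100001, nat_lit 2298750, [nat_lit 490000, nat_lit 1100000, nat_lit 1442500], [nat_lit 6, nat_lit 40, nat_lit 40, nat_lit 80, nat_lit 3, nat_lit 373, nat_lit 150, nat_lit 13]⟩, ⟨p086_k40, nat_lit 0, nat_lit 0, nat_lit 292, nat_lit 0, nat_lit 597993, [nat_lit 2217424000, nat_lit 3768864000], [], [nat_lit 15493645846, nat_lit 14479790731, nat_lit 12479642326, nat_lit 11550885861, nat_lit 12064502837, nat_lit 12206458811, nat_lit 12869899327, nat_lit 13108486740], nat_lit 1271250, nat_lit 1271250, nat_lit 1100001, nat_lit 1785000, nat_lit 1271250,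 nat_lit 1271250, [nat_lit 1100000, nat_lit 1785000], [nat_lit 39, nat_lit 40, nat_lit 40, nat_lit 80, nat_lit 7, nat_lit 373, nat_lit 150, nat_lit 12]⟩,
 ⟨nat_lit 3872, nat_lit 4473, ⟨.ofNat (nat_lit 496660), .ofNat (nat_lit 632632), .ofNat (nat_lit 507435), .ofNat (nat_lit 643407), .ofNat (nat_lit 500797), .ofNat (nat_lit 629856), .ofNat (nat_lit 511685), .ofNat (nat_lit 640744)⟩, ⟨.ofNat (nat_lit 302621), .ofNat (nat_lit 540545), .ofNat (nat_lit 345754), .ofNat (nat_lit 583678), .ofNat (nat_lit 304717), .ofNat (nat_lit 530543), .ofNat (nat_lit 348304), .ofNat (nat_lit 574129)⟩⟩, [⟨nat_lit 4, nat_lit 100, nat_lit 81, nat_lit 92, nat_lit 334207080⟩, ⟨nat_lit 19, nat_lit 100, nat_lit 69, nat_lit 96, nat_lit 34941156⟩]⟩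
noncomputable def p086_l60 : Lf2 := ⟨nat_lit 0, nat_lit 10, [nat_lit 0, nat_lit 5, nat_lit 5, nat_lit 20], false, nat_lit 160, nat_lit 300, nat_lit 160, nat_lit 352, ⟨nat_lit 429, nat_lit 571, nat_lit 0, nat_lit 6, nat_lit 228, nat_lit 571, nat_lit 177, nat_lit 0, nat_lit 0, nat_lit 0, nat_lit 0, nat_lit 0, nat_lit 41932965, nat_lit 15056352, nat_lit 10010683, nat_lit 4914107, false, false⟩,
 nat_lit 6657, nat_lit 0, nat_lit 0, nat_lit 0, nat_lit 4992, nat_lit 3874, nat_lit 0, nat_lit 0, nat_lit 0, nat_lit 457, nat_lit 0, nat_lit 0, nat_lit 0, nat_lit 0, nat_lit 0, nat_lit 555400, nat_lit 0, nat_lit 0, [(nat_lit 18, [(nat_lit 1, nat_lit 26), (nat_lit 2, nat_lit 545)])],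
 ⟨p086_k0, nat_lit 0, nat_lit 0, nat_lit 143, nat_lit 0, nat_lit 284297, [nat_lit 1835596801, nat_lit 2631992000, nat_lit 2490686800], [], [nat_lit 18029804528, nat_lit 19621310672, nat_lit 20555644752, nat_lit 21924191424, nat_lit 23416037568, nat_lit 24605702016, nat_lit 25153814000, nat_lit 26440514308], nat_lit 1271250, nat_lit 1271250, nat_lit 1100001, nat_lit 1785000, nat_lit 1100001, nat_lit 2298750, [nat_lit 490000, nat_lit 1100000, nat_lit 1442500], [nat_lit 6, nat_lit 40, nat_lit 40, nat_lit 80, nat_lit 3, nat_lit 373, nat_lit 150, nat_lit 13]⟩, ⟨p086_k14, nat_lit 0, nat_lit 0, nat_lit 243, nat_lit 0, nat_lit 391054, [nat_lit 2011152000, nat_lit 3418272000, nat_lit 4222218000], [], [nat_lit 14446182296, nat_lit 13422016790, nat_lit 10968191208, nat_lit 10029989762, nat_lit 11157949722, nat_lit 11323446593, nat_lit 11903504205, nat_lit 12130796632], nat_lit 1271250, nat_lit 1271250, nat_lit 1100001, nat_lit 1785000,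 nat_lit 1271250, nat_lit 1271250, [nat_lit 1100000, nat_lit 1785000, nat_lit 1271250], [nat_lit 29, nat_lit 40, nat_lit 40, nat_lit 80, nat_lit 17, nat_lit 456, nat_lit 225, nat_lit 12]⟩,
 ⟨nat_lit 3872, nat_lit 4473, ⟨.ofNat (nat_lit 496660), .ofNat (nat_lit 632632), .ofNat (nat_lit 507435), .ofNat (nat_lit 643407), .ofNat (nat_lit 500797), .ofNat (nat_lit 629856), .ofNat (nat_lit 511685), .ofNat (nat_lit 640744)⟩, ⟨.ofNat (nat_lit 302621), .ofNat (nat_lit 540545), .ofNat (nat_lit 345754), .ofNat (nat_lit 583678), .ofNat (nat_lit 304717), .ofNat (nat_lit 530543), .ofNat (nat_lit 348304), .ofNat (nat_lit 574129)⟩⟩, [⟨nat_lit 4, nat_lit 100, nat_lit 81, nat_lit 92, nat_lit 355939247⟩, ⟨nat_lit 19, nat_lit 100, nat_lit 69, nat_lit 96, nat_lit 25654439⟩]⟩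
noncomputable def p086_l61 : Lf2 := ⟨nat_lit 0, nat_lit 10, [nat_lit 0, nat_lit 5, nat_lit 5, nat_lit 20], false, nat_lit 160, nat_lit 300, nat_lit 160, nat_lit 344, ⟨nat_lit 688, nat_lit 312, nat_lit 0, nat_lit 6, nat_lit 232, nat_lit 312, nat_lit 177, nat_lit 0, nat_lit 0, nat_lit 0, nat_lit 0, nat_lit 0, nat_lit 41595823, nat_lit 15442916, nat_lit 9961261, nat_lit 4939920, false, false⟩,
 nat_lit 8098, nat_lit 0, nat_lit 0, nat_lit 0, nat_lit 6073, nat_lit 4931, nat_lit 145, nat_lit 0, nat_lit 0, nat_lit 1129, nat_lit 0, nat_lit 0, nat_lit 0, nat_lit 0, nat_lit 0, nat_lit 312000, nat_lit 0, nat_lit 0, [(nat_lit 18, [(nat_lit 2, nat_lit 312)])],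
 ⟨p086_k0, nat_lit 0, nat_lit 0, nat_lit 222, nat_lit 0, nat_lit 490017, [nat_lit 1928998401, nat_lit 3551488001, nat_lit 4161721600], [], [nat_lit 19896890904, nat_lit 21285167938, nat_lit 21876107248, nat_lit 23069565904, nat_lit 24296151838, nat_lit 25333054816, nat_lit 25704178125, nat_lit 27132447815], nat_lit 1271250, nat_lit 1271250, nat_lit 1100001, nat_lit 1785000, nat_lit 1100001, nat_lit 2298750, [nat_lit 490000, nat_lit 1100000, nat_lit 1442500], [nat_lit 6, nat_lit 40, nat_lit 40, nat_lit 80, nat_lit 3, nat_lit 373, nat_lit 150, nat_lit 13]⟩, ⟨p086_k33, nat_lit 0, nat_lit 0, nat_lit 361, nat_lit 0, nat_lit 636086, [nat_lit 3225344000, nat_lit 5481984000, nat_lit 6771296000], [], [nat_lit 20588596679, nat_lit 19284993140, nat_lit 17531302497, nat_lit 16337117848, nat_lit 16997669921, nat_lit 17195480348, nat_lit 18182701377, nat_lit 18524196352], nat_lit 1271250, nat_lit 1271250, nat_lit 1100001, nat_lit 1785000,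 nat_lit 1271250, nat_lit 1271250, [nat_lit 1100000, nat_lit 1785000, nat_lit 1271250], [nat_lit 29, nat_lit 40, nat_lit 40, nat_lit 80, nat_lit 17, nat_lit 456, nat_lit 225, nat_lit 12]⟩,
 ⟨nat_lit 3872, nat_lit 4473, ⟨.ofNat (nat_lit 507435), .ofNat (nat_lit 643407), .ofNat (nat_lit 518209), .ofNat (nat_lit 654181), .ofNat (nat_lit 511685), .ofNat (nat_lit 640744), .ofNat (nat_lit 522572), .ofNat (nat_lit 651631)⟩, ⟨.ofNat (nat_lit 302621), .ofNat (nat_lit 540545), .ofNat (nat_lit 345754), .ofNat (nat_lit 583678), .ofNat (nat_lit 304717), .ofNat (nat_lit 530543), .ofNat (nat_lit 348304), .ofNat (nat_lit 574129)⟩⟩, [⟨nat_lit 4, nat_lit 100, nat_lit 81, nat_lit 92, nat_lit 391872497⟩, ⟨nat_lit 19, nat_lit 100, nat_lit 74, nat_lit 98, nat_lit 72737007⟩]⟩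
noncomputable def p086_l62 : Lf2 := ⟨nat_lit 0, nat_lit 10, [nat_lit 0, nat_lit 5, nat_lit 5, nat_lit 20], false, nat_lit 160, nat_lit 276, nat_lit 0, nat_lit 160, ⟨nat_lit 282, nat_lit 718, nat_lit 0, nat_lit 6, nat_lit 226, nat_lit 718, nat_lit 167, nat_lit 0, nat_lit 0, nat_lit 0, nat_lit 0, nat_lit 0, nat_lit 42672225, nat_lit 15022882, nat_lit 9304893, nat_lit 4822324, false, false⟩,
 nat_lit 4547, nat_lit 0, nat_lit 0, nat_lit 0, nat_lit 3680, nat_lit 2407, nat_lit 538, nat_lit 0, nat_lit 0, nat_lit 86, nat_lit 0, nat_lit 0, nat_lit 0, nat_lit 0, nat_lit 0, nat_lit 287200, nat_lit 0, nat_lit 0, [(nat_lit 21, [(nat_lit 1, nat_lit 718)])],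
 ⟨p086_k41, nat_lit 0, nat_lit 0, nat_lit 238, nat_lit 0, nat_lit 549297, [nat_lit 1546057600, nat_lit 1964613600, nat_lit 2833756000], [], [nat_lit 19583176560, nat_lit 20700820700, nat_lit 21563888780, nat_lit 22544198300, nat_lit 22813771880, nat_lit 23891137104, nat_lit 24643548672, nat_lit 25754180137], nat_lit 1271250, nat_lit 1271250, nat_lit 1100001, nat_lit 1785000, nat_lit 1100001, nat_lit 2093250, [nat_lit 490000, nat_lit 780000, nat_lit 1435000], [nat_lit 85, nat_lit 40, nat_lit 40, nat_lit 80, nat_lit 16, nat_lit 373, nat_lit 150, nat_lit 13]⟩, ⟨p086_k39, nat_lit 0, nat_lit 0, nat_lit 705, nat_lit 0, nat_lit 938109, [nat_lit 1322016000, nat_lit 1762500000, nat_lit 3347904000], [], [nat_lit 11951918264, nat_lit 10363482318, nat_lit 10241934326, nat_lit 10429777450, nat_lit 8780520050, nat_lit 8953463798, nat_lit 8818137834, nat_lit 8955889326], nat_lit 1271250, nat_lit 1271250, nat_lit 1100001, nat_lit 1785000,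 nat_lit 0, nat_lit 1100001, [nat_lit 1100000, nat_lit 1442500, nat_lit 1271250], [nat_lit 48, nat_lit 40, nat_lit 40, nat_lit 80, nat_lit 12, nat_lit 401, nat_lit 175, nat_lit 10]⟩,
 ⟨nat_lit 3162, nat_lit 3873, ⟨.ofNat (nat_lit 478975), .ofNat (nat_lit 608082), .ofNat (nat_lit 522504), .ofNat (nat_lit 651611), .ofNat (nat_lit 483267), .ofNat (nat_lit 605237), .ofNat (nat_lit 527519), .ofNat (nat_lit 649490)⟩, ⟨.ofNat (nat_lit 304717), .ofNat (nat_lit 491830), .ofNat (nat_lit 348304), .ofNat (nat_lit 535416), .ofNat (nat_lit 306116), .ofNat (nat_lit 482881), .ofNat (nat_lit 350426), .ofNat (nat_lit 527190)⟩⟩, [⟨nat_lit 4, nat_lit 100, nat_lit 67, nat_lit 88, nat_lit 323492017⟩, ⟨nat_lit 9, nat_lit 100, nat_lit 100, nat_lit 9, nat_lit 2839672⟩]⟩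
noncomputable def p086_l63 : Lf2 := ⟨nat_lit 0, nat_lit 10, [nat_lit 0, nat_lit 5, nat_lit 5, nat_lit 20], false, nat_lit 160, nat_lit 276, nat_lit 160, nat_lit 364, ⟨nat_lit 241, nat_lit 759, nat_lit 0, nat_lit 6, nat_lit 222, nat_lit 759, nat_lit 168, nat_lit 0, nat_lit 0, nat_lit 0, nat_lit 0, nat_lit 0, nat_lit 43005997, nat_lit 14615063, nat_lit 9378940, nat_lit 4796677, false, false⟩,
 nat_lit 4711, nat_lit 0, nat_lit 0, nat_lit 0, nat_lit 3813, nat_lit 2493, nat_lit 377, nat_lit 0, nat_lit 0, nat_lit 274, nat_lit 0, nat_lit 0, nat_lit 0, nat_lit 0, nat_lit 0, nat_lit 303600, nat_lit 0, nat_lit 0, [(nat_lit 21, [(nat_lit 1, nat_lit 759)])],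
 ⟨p086_k37, nat_lit 0, nat_lit 0, nat_lit 207, nat_lit 0, nat_lit 446507, [nat_lit 1518308800, nat_lit 2262843200, nat_lit 2638678000], [], [nat_lit 19516368538, nat_lit 20064133607, nat_lit 21486354302, nat_lit 22003271326, nat_lit 22805617066, nat_lit 23298640811, nat_lit 24648519530, nat_lit 25247521794], nat_lit 1271250, nat_lit 1271250, nat_lit 1100001, nat_lit 1785000, nat_lit 1100001, nat_lit 2093250, [nat_lit 490000, nat_lit 1100000, nat_lit 1442500], [nat_lit 6, nat_lit 40, nat_lit 40, nat_lit 80, nat_lit 3, nat_lit 373, nat_lit 150, nat_lit 13]⟩, ⟨p086_k1, nat_lit 0, nat_lit 0, nat_lit 510, nat_lit 0, nat_lit 762561, [nat_lit 1129808000, nat_lit 1920288000, nat_lit 2861152000], [], [nat_lit 9748744012, nat_lit 8430600178, nat_lit 7144507944, nat_lit 5902280946, nat_lit 6710488478, nat_lit 6789382043, nat_lit 6954012798, nat_lit 7209108645], nat_lit 1271250, nat_lit 1271250, nat_lit 1100001, nat_lit 1785000, nat_lit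 1271250, nat_lit 1271250, [nat_lit 1100000, nat_lit 1785000, nat_lit 1271250], [nat_lit 21, nat_lit 40, nat_lit 40, nat_lit 80, nat_lit 14, nat_lit 456, nat_lit 225, nat_lit 11]⟩,
 ⟨nat_lit 3535, nat_lit 3873, ⟨.ofNat (nat_lit 479046), .ofNat (nat_lit 608101), .ofNat (nat_lit 500833), .ofNat (nat_lit 629888), .ofNat (nat_lit 481125), .ofNat (nat_lit 606659), .ofNat (nat_lit 503072), .ofNat (nat_lit 628606)⟩, ⟨.ofNat (nat_lit 304717), .ofNat (nat_lit 491830), .ofNat (nat_lit 348304), .ofNat (nat_lit 535416), .ofNat (nat_lit 305521), .ofNat (nat_lit 487529), .ofNat (nat_lit 349427), .ofNat (nat_lit 531435)⟩⟩, [⟨nat_lit 16, nat_lit 77, nat_lit 100, nat_lit 99, nat_lit 244139932⟩, ⟨nat_lit 19, nat_lit 100, nat_lit 59, nat_lit 94, nat_lit 1099665⟩]⟩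
noncomputable def p086_l64 : Lf2 := ⟨nat_lit 0, nat_lit 10, [nat_lit 0, nat_lit 5, nat_lit 5, nat_lit 20], false, nat_lit 160, nat_lit 264, nat_lit 160, nat_lit 364, ⟨nat_lit 225, nat_lit 775, nat_lit 0, nat_lit 6, nat_lit 222, nat_lit 775, nat_lit 163, nat_lit 0, nat_lit 0, nat_lit 0, nat_lit 0, nat_lit 0, nat_lit 43280405, nat_lit 14688996, nat_lit 9030599, nat_lit 4757297, false, false⟩,
 nat_lit 4391, nat_lit 0, nat_lit 0, nat_lit 0, nat_lit 3688, nat_lit 2324, nat_lit 322, nat_lit 0, nat_lit 0, nat_lit 256, nat_lit 0, nat_lit 0, nat_lit 0, nat_lit 0, nat_lit 0, nat_lit 310000, nat_lit 0, nat_lit 0, [(nat_lit 21, [(nat_lit 1, nat_lit 775)])],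
 ⟨p086_k42, nat_lit 0, nat_lit 0, nat_lit 182, nat_lit 0, nat_lit 480307, [nat_lit 1507480001, nat_lit 2204900000], [], [nat_lit 19926282893, nat_lit 20522379029, nat_lit 21983410229, nat_lit 22504928949, nat_lit 22838628961, nat_lit 23342423418, nat_lit 24672667416, nat_lit 25278717975], nat_lit 1271250, nat_lit 1271250, nat_lit 1100001, nat_lit 1785000, nat_lit 1100001, nat_lit 1990500, [nat_lit 490000, nat_lit 1100000], [nat_lit 24, nat_lit 40, nat_lit 40, nat_lit 80, nat_lit 33, nat_lit 203, nat_lit 0, nat_lit 7]⟩, ⟨p086_k1, nat_lit 0, nat_lit 0, nat_lit 549, nat_lit 0, nat_lit 857842, [nat_lit 1054800000, nat_lit 1792800000, nat_lit 2671200000], [], [nat_lit 9096206860, nat_lit 7867419748, nat_lit 6670471436, nat_lit 5512454772, nat_lit 6274938834, nat_lit 6344659879, nat_lit 6490133393, nat_lit 6728123138], nat_lit 1271250, nat_lit 1271250, nat_lit 1100001, nat_lit 1785000, nat_lit 1271250, nat_lit 1271250, [nat_lit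 1100000, nat_lit 1785000, nat_lit 1271250], [nat_lit 21, nat_lit 40, nat_lit 40, nat_lit 80, nat_lit 14, nat_lit 456, nat_lit 225, nat_lit 11]⟩,
 ⟨nat_lit 3162, nat_lit 3536, ⟨.ofNat (nat_lit 481116), .ofNat (nat_lit 606660), .ofNat (nat_lit 503061), .ofNat (nat_lit 628604), .ofNat (nat_lit 483329), .ofNat (nat_lit 605256), .ofNat (nat_lit 505476), .ofNat (nat_lit 627403)⟩, ⟨.ofNat (nat_lit 305521), .ofNat (nat_lit 468701), .ofNat (nat_lit 349427), .ofNat (nat_lit 512606), .ofNat (nat_lit 306116), .ofNat (nat_lit 464594), .ofNat (nat_lit 350426), .ofNat (nat_lit 508904)⟩⟩, [⟨nat_lit 16, nat_lit 69, nat_lit 100, nat_lit 96, nat_lit 275959802⟩, ⟨nat_lit 19, nat_lit 100, nat_lit 59, nat_lit 94, nat_lit 5094729⟩]⟩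
noncomputable def p086_l65 : Lf2 := ⟨nat_lit 0, nat_lit 10, [nat_lit 0, nat_lit 5, nat_lit 5, nat_lit 20], false, nat_lit 160, nat_lit 276, nat_lit 160, nat_lit 352, ⟨nat_lit 329, nat_lit 671, nat_lit 0, nat_lit 6, nat_lit 231, nat_lit 671, nat_lit 168, nat_lit 0, nat_lit 0, nat_lit 0, nat_lit 0, nat_lit 0, nat_lit 42306604, nat_lit 15404081, nat_lit 9289315, nat_lit 4852166, false, false⟩,
 nat_lit 5049, nat_lit 0, nat_lit 0, nat_lit 0, nat_lit 4087, nat_lit 2938, nat_lit 377, nat_lit 0, nat_lit 0, nat_lit 340, nat_lit 0, nat_lit 0, nat_lit 0, nat_lit 0, nat_lit 0, nat_lit 268400, nat_lit 0, nat_lit 0, [(nat_lit 21, [(nat_lit 1, nat_lit 671)])],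
 ⟨p086_k37, nat_lit 0, nat_lit 0, nat_lit 224, nat_lit 0, nat_lit 497189, [nat_lit 1577867201, nat_lit 2544020801, nat_lit 3057382000], [], [nat_lit 20004645329, nat_lit 20534341356, nat_lit 21789058134, nat_lit 22282616790, nat_lit 23018280911, nat_lit 23478125613, nat_lit 24799390041, nat_lit 25418078232], nat_lit 1271250, nat_lit 1271250, nat_lit 1100001, nat_lit 1785000, nat_lit 1100001, nat_lit 2093250, [nat_lit 490000, nat_lit 1100000, nat_lit 1442500], [nat_lit 6, nat_lit 40, nat_lit 40, nat_lit 80, nat_lit 3, nat_lit 373, nat_lit 150, nat_lit 13]⟩, ⟨p086_k14, nat_lit 0, nat_lit 0, nat_lit 435, nat_lit 0, nat_lit 750839, [nat_lit 1542352000, nat_lit 2621472000, nat_lit 3238018000], [], [nat_lit 11045965624, nat_lit 9492533380, nat_lit 8440708168, nat_lit 7649794472, nat_lit 8737167672, nat_lit 8884343875, nat_lit 9109566106, nat_lit 9456371087], nat_lit 1271250, nat_lit 1271250, nat_lit 1100001, nat_lit 1785000,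 nat_lit 1271250, nat_lit 1271250, [nat_lit 1100000, nat_lit 1785000, nat_lit 1271250], [nat_lit 29, nat_lit 40, nat_lit 40, nat_lit 80, nat_lit 17, nat_lit 456, nat_lit 225, nat_lit 12]⟩,
 ⟨nat_lit 3535, nat_lit 3873, ⟨.ofNat (nat_lit 500833), .ofNat (nat_lit 629888), .ofNat (nat_lit 522620), .ofNat (nat_lit 651675), .ofNat (nat_lit 503072), .ofNat (nat_lit 628606), .ofNat (nat_lit 525018), .ofNat (nat_lit 650552)⟩, ⟨.ofNat (nat_lit 304717), .ofNat (nat_lit 491830), .ofNat (nat_lit 348304), .ofNat (nat_lit 535416), .ofNat (nat_lit 305521), .ofNat (nat_lit 487529), .ofNat (nat_lit 349427), .ofNat (nat_lit 531435)⟩⟩, [⟨nat_lit 16, nat_lit 77, nat_lit 100, nat_lit 99, nat_lit 253915817⟩, ⟨nat_lit 19, nat_lit 100, nat_lit 69, nat_lit 96, nat_lit 41914089⟩]⟩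
noncomputable def p086_l66 : Lf2 := ⟨nat_lit 0, nat_lit 10, [nat_lit 0, nat_lit 5, nat_lit 5, nat_lit 20], false, nat_lit 160, nat_lit 264, nat_lit 160, nat_lit 352, ⟨nat_lit 301, nat_lit 699, nat_lit 0, nat_lit 6, nat_lit 231, nat_lit 699, nat_lit 163, nat_lit 0, nat_lit 0, nat_lit 0, nat_lit 0, nat_lit 0, nat_lit 42566315, nat_lit 15489303, nat_lit 8944382, nat_lit 4813734, false, false⟩,
 nat_lit 4629, nat_lit 0, nat_lit 0, nat_lit 0, nat_lit 3888, nat_lit 2694, nat_lit 307, nat_lit 0, nat_lit 0, nat_lit 312, nat_lit 0, nat_lit 0, nat_lit 0, nat_lit 0, nat_lit 0, nat_lit 279600, nat_lit 0, nat_lit 0, [(nat_lit 21, [(nat_lit 1, nat_lit 699)])],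
 ⟨p086_k42, nat_lit 0, nat_lit 0, nat_lit 193, nat_lit 0, nat_lit 525249, [nat_lit 1558916800, nat_lit 2448404000], [], [nat_lit 20366632318, nat_lit 20917878454, nat_lit 22219386614, nat_lit 22702380758, nat_lit 23005868640, nat_lit 23478450458, nat_lit 24788851316, nat_lit 25409907735], nat_lit 1271250, nat_lit 1271250, nat_lit 1100001, nat_lit 1785000, nat_lit 1100001, nat_lit 1990500, [nat_lit 490000, nat_lit 1100000], [nat_lit 24, nat_lit 40, nat_lit 40, nat_lit 80, nat_lit 33, nat_lit 203, nat_lit 0, nat_lit 7]⟩, ⟨p086_k14, nat_lit 0, nat_lit 0, nat_lit 470, nat_lit 0, nat_lit 829531, [nat_lit 1411088000, nat_lit 2398368000, nat_lit 2962442000], [], [nat_lit 10111896400, nat_lit 8687476228, nat_lit 7716997472, nat_lit 6975793336, nat_lit 7971471809, nat_lit 8120852153, nat_lit 8337808005, nat_lit 8655430504], nat_lit 1271250, nat_lit 1271250, nat_lit 1100001, nat_lit 1785000, nat_lit 1271250, nat_lit 1271250, [nat_lit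 1100000, nat_lit 1785000, nat_lit 1271250], [nat_lit 29, nat_lit 40, nat_lit 40, nat_lit 80, nat_lit 17, nat_lit 456, nat_lit 225, nat_lit 12]⟩,
 ⟨nat_lit 3162, nat_lit 3536, ⟨.ofNat (nat_lit 503061), .ofNat (nat_lit 628604), .ofNat (nat_lit 525005), .ofNat (nat_lit 650549), .ofNat (nat_lit 505476), .ofNat (nat_lit 627403), .ofNat (nat_lit 527622), .ofNat (nat_lit 649550)⟩, ⟨.ofNat (nat_lit 305521), .ofNat (nat_lit 468701), .ofNat (nat_lit 349427), .ofNat (nat_lit 512606), .ofNat (nat_lit 306116), .ofNat (nat_lit 464594), .ofNat (nat_lit 350426), .ofNat (nat_lit 508904)⟩⟩, [⟨nat_lit 16, nat_lit 69, nat_lit 100, nat_lit 96, nat_lit 282075977⟩, ⟨nat_lit 19, nat_lit 100, nat_lit 69, nat_lit 96, nat_lit 38572315⟩]⟩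
noncomputable def b_V_800_600_20_26 : St := ⟨true, nat_lit 1, nat_lit 1, nat_lit 1, nat_lit 120, nat_lit 320, nat_lit 360, nat_lit 240, nat_lit 280, nat_lit 160, nat_lit 240, nat_lit 80, nat_lit 120, nat_lit 160, nat_lit 300, nat_lit 0, nat_lit 364, nat_lit 0, nat_lit 40, nat_lit 0, nat_lit 0, nat_lit 0, nat_lit 0⟩
theorem d_V_800_600_20_26 (h : EB TB.env) : Dead b_V_800_600_20_26 := chkB_sound0 h (T :=
(.spl (nat_lit 0) (nat_lit 340)
(.spl (nat_lit 5) (nat_lit 160)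
(.leaf p086_l54)
(.spl (nat_lit 1) (nat_lit 260)
(.spl (nat_lit 6) (nat_lit 20)
(.spl (nat_lit 0) (nat_lit 330)
(.leaf p086_l55)
(.trX (nat_lit 16) (nat_lit 83) (nat_lit 98) (nat_lit 100) (nat_lit 288) (.leaf p086_l56)))
(.spl (nat_lit 0) (nat_lit 330)
(.leaf p086_l57)
(.trX (nat_lit 16) (nat_lit 83) (nat_lit 98) (nat_lit 100) (nat_lit 288) (.leaf p086_l58))))
(.trX (nat_lit 19) (nat_lit 100) (nat_lit 69) (nat_lit 96) (nat_lit 352) (.spl (nat_lit 1) (nat_lit 270)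
(.spl (nat_lit 6) (nat_lit 20)
(.leaf p086_l59)
(.leaf p086_l60))
(.trX (nat_lit 19) (nat_lit 100) (nat_lit 74) (nat_lit 98) (nat_lit 344) (.leaf p086_l61))))))
(.trX (nat_lit 16) (nat_lit 77) (nat_lit 100) (nat_lit 99) (nat_lit 276) (.spl (nat_lit 5) (nat_lit 160)
(.leaf p086_l62)
(.spl (nat_lit 1) (nat_lit 260)
(.spl (nat_lit 0) (nat_lit 350)
(.leaf p086_l63)
(.trX (nat_lit 16) (nat_lit 69) (nat_lit 100) (nat_lit 96) (nat_lit 264) (.leaf p086_l64)))
(.trX (nat_lit 19) (nat_lit 100) (nat_lit 69) (nat_lit 96) (nat_lit 352) (.spl (nat_lit 0) (nat_lit 350)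
(.leaf p086_l65)
(.trX (nat_lit 16) (nat_lit 69) (nat_lit 100) (nat_lit 96) (nat_lit 264) (.leaf p086_l66))))))))) (by decide +kernel)
noncomputable def p086_l67 : Lf2 := ⟨nat_lit 0, nat_lit 10, [nat_lit 0, nat_lit 5, nat_lit 5, nat_lit 20], false, nat_lit 0, nat_lit 160, nat_lit 0, nat_lit 364, ⟨nat_lit 397, nat_lit 529, nat_lit 74, nat_lit 6, nat_lit 275, nat_lit 603, nat_lit 65, nat_lit 74, nat_lit 40017, nat_lit 264, nat_lit 265958, nat_lit 200, nat_lit 45531285, nat_lit 21468715, nat_lit 0, nat_lit 3135959, true, true⟩,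
 nat_lit 6695, nat_lit 0, nat_lit 0, nat_lit 0, nat_lit 5021, nat_lit 3544, nat_lit 68, nat_lit 0, nat_lit 0, nat_lit 416, nat_lit 0, nat_lit 0, nat_lit 0, nat_lit 0, nat_lit 0, nat_lit 603000, nat_lit 0, nat_lit 0, [(nat_lit 18, [(nat_lit 2, nat_lit 529), (nat_lit 6, nat_lit 74)])],
 ⟨p086_k0, nat_lit 0, nat_lit 0, nat_lit 295, nat_lit 0, nat_lit 430316, [nat_lit 1785411734, nat_lit 2322377067, nat_lit 1958138000], [], [nat_lit 22967026080, nat_lit 25016777274, nat_lit 28509070556, nat_lit 30153487728, nat_lit 20636625951, nat_lit 21613791203, nat_lit 24325733068, nat_lit 25743554696], nat_lit 1271250, nat_lit 1271250, nat_lit 1271250, nat_lit 1271250, nat_lit 0, nat_lit 1100001, [nat_lit 490000, nat_lit 1100000, nat_lit 1442500], [nat_lit 6, nat_lit 40, nat_lit 40, nat_lit 80, nat_lit 3, nat_lit 249, nat_lit 40, nat_lit 9]⟩, ⟨p086_k1, nat_lit 0, nat_lit 0, nat_lit 553, nat_lit 0, nat_lit 669380, [nat_lit 1861136000,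 nat_lit 3163296000, nat_lit 4713184000], [], [nat_lit 13086098220, nat_lit 13298797334, nat_lit 14307810220, nat_lit 14519414002, nat_lit 13011501238, nat_lit 12728913429, nat_lit 13113414474, nat_lit 13162676009], nat_lit 1271250, nat_lit 1271250, nat_lit 1271250, nat_lit 1271250, nat_lit 0, nat_lit 2570750, [nat_lit 1100000, nat_lit 1785000, nat_lit 1271250], [nat_lit 21, nat_lit 40, nat_lit 40, nat_lit 80, nat_lit 14, nat_lit 483, nat_lit 250, nat_lit 12]⟩,
 ⟨nat_lit 3872, nat_lit 4473, ⟨.ofNat (nat_lit 611083), .ofNat (nat_lit 747053), .ofNat (nat_lit 632632), .ofNat (nat_lit 768604), .ofNat (nat_lit 608080), .ofNat (nat_lit 737137), .ofNat (nat_lit 629856), .ofNat (nat_lit 758915)⟩, ⟨.ofNat (nat_lit 0), .ofNat (nat_lit 302621), .ofNat (nat_lit 0), .ofNat (nat_lit 345754), .ofNat (nat_lit 0), .ofNat (nat_lit 304717), .ofNat (nat_lit 0), .ofNat (nat_lit 348304)⟩⟩, [⟨nat_lit 7, nat_lit 72, nat_lit 100, nat_lit 89, nat_lit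 2034883⟩, ⟨nat_lit 22, nat_lit 100, nat_lit 95, nat_lit 87, nat_lit 65976899⟩]⟩
noncomputable def p086_l68 : Lf2 := ⟨nat_lit 0, nat_lit 10, [nat_lit 0, nat_lit 5, nat_lit 5, nat_lit 20], false, nat_lit 0, nat_lit 160, nat_lit 0, nat_lit 364, ⟨nat_lit 289, nat_lit 711, nat_lit 0, nat_lit 6, nat_lit 272, nat_lit 711, nat_lit 65, nat_lit 0, nat_lit 0, nat_lit 0, nat_lit 0, nat_lit 0, nat_lit 45798515, nat_lit 21201485, nat_lit 0, nat_lit 3120783, true, true⟩,
 nat_lit 4925, nat_lit 0, nat_lit 0, nat_lit 0, nat_lit 3986, nat_lit 2607, nat_lit 482, nat_lit 0, nat_lit 0, nat_lit 236, nat_lit 0, nat_lit 0, nat_lit 0, nat_lit 0, nat_lit 0, nat_lit 284400, nat_lit 0, nat_lit 0, [(nat_lit 21, [(nat_lit 1, nat_lit 711)])],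
 ⟨p086_k37, nat_lit 0, nat_lit 0, nat_lit 327, nat_lit 0, nat_lit 502297, [nat_lit 1550795200, nat_lit 2416212800, nat_lit 2867062000], [], [nat_lit 23233064484, nat_lit 25027259688, nat_lit 27867826848, nat_lit 29323323400, nat_lit 22146307054, nat_lit 23092166994, nat_lit 24943317536, nat_lit 26205611784], nat_lit 1271250, nat_lit 1271250, nat_lit 1271250, nat_lit 1271250, nat_lit 0, nat_lit 1100001, [nat_lit 490000, nat_lit 1100000, nat_lit 1442500], [nat_lit 6, nat_lit 40, nat_lit 40, nat_lit 80, nat_lit 3, nat_lit 249, nat_lit 40, nat_lit 9]⟩, ⟨p086_k1, nat_lit 0, nat_lit 0, nat_lit 657, nat_lit 0, nat_lit 857842, [nat_lit 1354832000, nat_lit 2302752000, nat_lit 3431008000], [], [nat_lit 10473088328, nat_lit 10563702916, nat_lit 10917520608, nat_lit 11007796916, nat_lit 9441617204, nat_lit 9452660949, nat_lit 9596184508, nat_lit 9600848109], nat_lit 1271250, nat_lit 1271250, nat_lit 1271250, nat_lit 1271250, nat_lit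 0, nat_lit 2570750, [nat_lit 1100000, nat_lit 1785000, nat_lit 1271250], [nat_lit 21, nat_lit 40, nat_lit 40, nat_lit 80, nat_lit 14, nat_lit 483, nat_lit 250, nat_lit 12]⟩,
 ⟨nat_lit 3162, nat_lit 3873, ⟨.ofNat (nat_lit 608082), .ofNat (nat_lit 737150), .ofNat (nat_lit 629847), .ofNat (nat_lit 758943), .ofNat (nat_lit 605237), .ofNat (nat_lit 727168), .ofNat (nat_lit 627364), .ofNat (nat_lit 749323)⟩, ⟨.ofNat (nat_lit 0), .ofNat (nat_lit 304717), .ofNat (nat_lit 0), .ofNat (nat_lit 348304), .ofNat (nat_lit 0), .ofNat (nat_lit 306116), .ofNat (nat_lit 0), .ofNat (nat_lit 350426)⟩⟩, [⟨nat_lit 7, nat_lit 72, nat_lit 100, nat_lit 89, nat_lit 14047868⟩, ⟨nat_lit 22, nat_lit 100, nat_lit 95, nat_lit 87, nat_lit 28574841⟩]⟩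
noncomputable def p086_l69 : Lf2 := ⟨nat_lit 0, nat_lit 10, [nat_lit 0, nat_lit 5, nat_lit 5, nat_lit 20], false, nat_lit 0, nat_lit 80, nat_lit 0, nat_lit 260, ⟨nat_lit 293, nat_lit 707, nat_lit 0, nat_lit 8, nat_lit 322, nat_lit 707, nat_lit 38, nat_lit 0, nat_lit 0, nat_lit 0, nat_lit 0, nat_lit 0, nat_lit 40613304, nat_lit 26386696, nat_lit 0, nat_lit 3352154, true, true⟩,
 nat_lit 4940, nat_lit 0, nat_lit 0, nat_lit 0, nat_lit 3704, nat_lit 2615, nat_lit 0, nat_lit 0, nat_lit 0, nat_lit 276, nat_lit 0, nat_lit 0, nat_lit 0, nat_lit 0, nat_lit 0, nat_lit 707000, nat_lit 0, nat_lit 0, [(nat_lit 18, [(nat_lit 2, nat_lit 707)]), (nat_lit 21, [(nat_lit 2, nat_lit 707)])],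
 ⟨p086_k0, nat_lit 0, nat_lit 0, nat_lit 357, nat_lit 0, nat_lit 551470, [nat_lit 1798595734, nat_lit 2112634667, nat_lit 1517907600], [], [nat_lit 29168007011, nat_lit 30688352611, nat_lit 31991621040, nat_lit 33278729181, nat_lit 28290230851, nat_lit 29720858883, nat_lit 30948306282, nat_lit 32164760964], nat_lit 1271250, nat_lit 1271250, nat_lit 1271250, nat_lit 1271250, nat_lit 0, nat_lit 490000, [nat_lit 490000, nat_lit 1100000, nat_lit 1442500], [nat_lit 6, nat_lit 40, nat_lit 40, nat_lit 80, nat_lit 3, nat_lit 226, nat_lit 20, nat_lit 7]⟩, ⟨p086_k1, nat_lit 0, nat_lit 0, nat_lit 645, nat_lit 0, nat_lit 857842, [nat_lit 1373584000, nat_lit 2334624000, nat_lit 3478496000], [], [nat_lit 11155606056, nat_lit 11247732796, nat_lit 11979512298, nat_lit 12032132207, nat_lit 9388703947, nat_lit 9426447171, nat_lit 9923260025, nat_lit 9932320904], nat_lit 1271250, nat_lit 1271250, nat_lit 1271250, nat_lit 1271250, nat_lit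 0, nat_lit 1836250, [nat_lit 1100000, nat_lit 1785000, nat_lit 1271250], [nat_lit 21, nat_lit 40, nat_lit 40, nat_lit 80, nat_lit 14, nat_lit 373, nat_lit 150, nat_lit 9]⟩,
 ⟨nat_lit 3162, nat_lit 4473, ⟨.ofNat (nat_lit 747055), .ofNat (nat_lit 869427), .ofNat (nat_lit 768554), .ofNat (nat_lit 890989), .ofNat (nat_lit 727157), .ofNat (nat_lit 836884), .ofNat (nat_lit 749245), .ofNat (nat_lit 859035)⟩, ⟨.ofNat (nat_lit 0), .ofNat (nat_lit 166665), .ofNat (nat_lit 0), .ofNat (nat_lit 200000), .ofNat (nat_lit 0), .ofNat (nat_lit 184209), .ofNat (nat_lit 0), .ofNat (nat_lit 200000)⟩⟩, [⟨nat_lit 13, nat_lit 61, nat_lit 68, nat_lit 100, nat_lit 93640578⟩, ⟨nat_lit 22, nat_lit 67, nat_lit 100, nat_lit 55, nat_lit 26252736⟩]⟩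
noncomputable def p086_l70 : Lf2 := ⟨nat_lit 0, nat_lit 10, [nat_lit 0, nat_lit 5, nat_lit 5, nat_lit 20], false, nat_lit 80, nat_lit 160, nat_lit 0, nat_lit 336, ⟨nat_lit 350, nat_lit 650, nat_lit 0, nat_lit 8, nat_lit 325, nat_lit 650, nat_lit 102, nat_lit 0, nat_lit 0, nat_lit 0, nat_lit 0, nat_lit 0, nat_lit 37700859, nat_lit 25278763, nat_lit 4020378, nat_lit 4542811, true, true⟩,
 nat_lit 5560, nat_lit 0, nat_lit 0, nat_lit 0, nat_lit 4169, nat_lit 2943, nat_lit 10, nat_lit 0, nat_lit 0, nat_lit 288, nat_lit 0, nat_lit 0, nat_lit 0, nat_lit 0, nat_lit 0, nat_lit 650000, nat_lit 0, nat_lit 0, [(nat_lit 18, [(nat_lit 2, nat_lit 650)])],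
 ⟨p086_k0, nat_lit 0, nat_lit 0, nat_lit 254, nat_lit 0, nat_lit 430316, [nat_lit 1817413334, nat_lit 2320266667, nat_lit 1899420000], [], [nat_lit 26028055833, nat_lit 26776635121, nat_lit 28993281632, nat_lit 30074151916, nat_lit 26164381420, nat_lit 26887333031, nat_lit 28975122863, nat_lit 29617477829], nat_lit 1271250, nat_lit 1271250, nat_lit 1271250, nat_lit 1271250, nat_lit 490000, nat_lit 1100001, [nat_lit 490000, nat_lit 1100000, nat_lit 1442500], [nat_lit 6, nat_lit 40, nat_lit 40, nat_lit 80, nat_lit 3, nat_lit 249, nat_lit 40, nat_lit 8]⟩, ⟨p086_k1, nat_lit 0, nat_lit 0, nat_lit 549, nat_lit 0, nat_lit 669380, [nat_lit 1640800000, nat_lit 2788800000, nat_lit 4155200000], [], [nat_lit 13274286708, nat_lit 13404906632, nat_lit 14378113520, nat_lit 14457828935, nat_lit 11812624688, nat_lit 11876001821, nat_lit 12549049501, nat_lit 12577469647], nat_lit 1271250, nat_lit 1271250, nat_lit 1271250, nat_lit 1271250,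 nat_lit 0, nat_lit 2373000, [nat_lit 1100000, nat_lit 1785000, nat_lit 1271250], [nat_lit 21, nat_lit 40, nat_lit 40, nat_lit 80, nat_lit 14, nat_lit 373, nat_lit 150, nat_lit 9]⟩,
 ⟨nat_lit 3872, nat_lit 4473, ⟨.ofNat (nat_lit 747053), .ofNat (nat_lit 869421), .ofNat (nat_lit 768604), .ofNat (nat_lit 890974), .ofNat (nat_lit 737137), .ofNat (nat_lit 853283), .ofNat (nat_lit 758915), .ofNat (nat_lit 875063)⟩, ⟨.ofNat (nat_lit 166665), .ofNat (nat_lit 302621), .ofNat (nat_lit 200000), .ofNat (nat_lit 345754), .ofNat (nat_lit 175674), .ofNat (nat_lit 304717), .ofNat (nat_lit 200000), .ofNat (nat_lit 348304)⟩⟩, [⟨nat_lit 13, nat_lit 78, nat_lit 45, nat_lit 100, nat_lit 8702650⟩, ⟨nat_lit 22, nat_lit 65, nat_lit 100, nat_lit 95, nat_lit 62057398⟩]⟩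
noncomputable def p086_l71 : Lf2 := ⟨nat_lit 0, nat_lit 10, [nat_lit 0, nat_lit 5, nat_lit 5, nat_lit 20], false, nat_lit 80, nat_lit 160, nat_lit 0, nat_lit 336, ⟨nat_lit 265, nat_lit 735, nat_lit 0, nat_lit 8, nat_lit 316, nat_lit 735, nat_lit 103, nat_lit 0, nat_lit 0, nat_lit 0, nat_lit 0, nat_lit 0, nat_lit 38420324, nat_lit 24428732, nat_lit 4150944, nat_lit 4541184, true, true⟩,
 nat_lit 4334, nat_lit 0, nat_lit 0, nat_lit 0, nat_lit 3508, nat_lit 2294, nat_lit 155, nat_lit 0, nat_lit 0, nat_lit 195, nat_lit 0, nat_lit 0, nat_lit 0, nat_lit 0, nat_lit 0, nat_lit 547200, nat_lit 0, nat_lit 0, [(nat_lit 21, [(nat_lit 1, nat_lit 313), (nat_lit 2, nat_lit 422)])],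
 ⟨p086_k37, nat_lit 0, nat_lit 0, nat_lit 276, nat_lit 0, nat_lit 502297, [nat_lit 1553964001, nat_lit 1648629601, nat_lit 1645204400], [], [nat_lit 25689712876, nat_lit 26462914084, nat_lit 28106299204, nat_lit 29204167672, nat_lit 26088951524, nat_lit 26794692340, nat_lit 28281106044, nat_lit 29042495557], nat_lit 1271250, nat_lit 1271250, nat_lit 1271250, nat_lit 1271250, nat_lit 490000, nat_lit 1100001, [nat_lit 490000, nat_lit 1100000, nat_lit 1442500], [nat_lit 6, nat_lit 40, nat_lit 40, nat_lit 80, nat_lit 3, nat_lit 249, nat_lit 40, nat_lit 8]⟩, ⟨p086_k1, nat_lit 0, nat_lit 0, nat_lit 645, nat_lit 0, nat_lit 857842, [nat_lit 1242320000, nat_lit 2111520000, nat_lit 3146080000], [], [nat_lit 10454247876, nat_lit 10507414846, nat_lit 10938510260, nat_lit 10968571032, nat_lit 9053779379, nat_lit 9067362848, nat_lit 9360226845, nat_lit 9355607462], nat_lit 1271250, nat_lit 1271250, nat_lit 1271250, nat_lit 1271250,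 nat_lit 0, nat_lit 2373000, [nat_lit 1100000, nat_lit 1785000, nat_lit 1271250], [nat_lit 21, nat_lit 40, nat_lit 40, nat_lit 80, nat_lit 14, nat_lit 373, nat_lit 150, nat_lit 9]⟩,
 ⟨nat_lit 3162, nat_lit 3873, ⟨.ofNat (nat_lit 737150), .ofNat (nat_lit 833932), .ofNat (nat_lit 758943), .ofNat (nat_lit 855725), .ofNat (nat_lit 727168), .ofNat (nat_lit 818598), .ofNat (nat_lit 749323), .ofNat (nat_lit 840753)⟩, ⟨.ofNat (nat_lit 175674), .ofNat (nat_lit 304717), .ofNat (nat_lit 200000), .ofNat (nat_lit 348304), .ofNat (nat_lit 184209), .ofNat (nat_lit 306116), .ofNat (nat_lit 200000), .ofNat (nat_lit 350426)⟩⟩, [⟨nat_lit 13, nat_lit 68, nat_lit 58, nat_lit 100, nat_lit 72032588⟩, ⟨nat_lit 22, nat_lit 69, nat_lit 100, nat_lit 96, nat_lit 39352876⟩]⟩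
noncomputable def p086_l72 : Lf2 := ⟨nat_lit 0, nat_lit 10, [nat_lit 0, nat_lit 5, nat_lit 5, nat_lit 20], false, nat_lit 0, nat_lit 160, nat_lit 0, nat_lit 352, ⟨nat_lit 1000, nat_lit 0, nat_lit 0, nat_lit 0, nat_lit 0, nat_lit 0, nat_lit 0, nat_lit 0, nat_lit 0, nat_lit 0, nat_lit 0, nat_lit 0, nat_lit 0, nat_lit 0, nat_lit 0, nat_lit 0, false, false⟩,
 nat_lit 11533, nat_lit 0, nat_lit 0, nat_lit 0, nat_lit 7739, nat_lit 6713, nat_lit 454, nat_lit 0, nat_lit 0, nat_lit 1972, nat_lit 0, nat_lit 0, nat_lit 0, nat_lit 0, nat_lit 0, nat_lit 0, nat_lit 0, nat_lit 0, [],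
 ⟨p086_k0, nat_lit 0, nat_lit 0, nat_lit 336, nat_lit 0, nat_lit 490017, [nat_lit 2032000001, nat_lit 4688000000, nat_lit 6250000000], [], [nat_lit 26980098720, nat_lit 29700962166, nat_lit 42462822626, nat_lit 44053730428, nat_lit 21341904380, nat_lit 22278575466, nat_lit 33234210547, nat_lit 34619033856], nat_lit 1271250, nat_lit 1271250, nat_lit 1271250, nat_lit 1271250, nat_lit 0, nat_lit 1100001, [nat_lit 490000, nat_lit 1100000, nat_lit 1442500], [nat_lit 6, nat_lit 40, nat_lit 40, nat_lit 80, nat_lit 3, nat_lit 249, nat_lit 40, nat_lit 9]⟩, ⟨p086_k14, nat_lit 0, nat_lit 0, nat_lit 498, nat_lit 0, nat_lit 674024, [nat_lit 4688000000, nat_lit 7968000000, nat_lit 9842000000], [], [nat_lit 30742669440, nat_lit 31184177168, nat_lit 36106548921, nat_lit 37112135154, nat_lit 29853906321, nat_lit 30043122019, nat_lit 35186998359, nat_lit 35660730485], nat_lit 1271250, nat_lit 1271250, nat_lit 1271250, nat_lit 1271250, nat_lit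 0, nat_lit 2486000, [nat_lit 1100000, nat_lit 1785000, nat_lit 1271250], [nat_lit 29, nat_lit 40, nat_lit 40, nat_lit 80, nat_lit 17, nat_lit 538, nat_lit 300, nat_lit 15]⟩,
 zbF0, [⟨nat_lit 7, nat_lit 82, nat_lit 100, nat_lit 92, nat_lit 52242356⟩, ⟨nat_lit 22, nat_lit 84, nat_lit 100, nat_lit 84, nat_lit 176611466⟩]⟩
noncomputable def p086_l73 : Lf2 := ⟨nat_lit 0, nat_lit 10, [nat_lit 0, nat_lit 5, nat_lit 5, nat_lit 20], false, nat_lit 0, nat_lit 160, nat_lit 0, nat_lit 352, ⟨nat_lit 1000, nat_lit 0, nat_lit 0, nat_lit 0, nat_lit 0, nat_lit 0, nat_lit 0, nat_lit 0, nat_lit 0, nat_lit 0, nat_lit 0, nat_lit 0, nat_lit 0, nat_lit 0, nat_lit 0, nat_lit 0, false, false⟩,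
 nat_lit 11594, nat_lit 0, nat_lit 0, nat_lit 0, nat_lit 5247, nat_lit 6748, nat_lit 792, nat_lit 0, nat_lit 0, nat_lit 1674, nat_lit 0, nat_lit 0, nat_lit 0, nat_lit 0, nat_lit 0, nat_lit 0, nat_lit 0, nat_lit 0, [],
 ⟨p086_k37, nat_lit 0, nat_lit 0, nat_lit 355, nat_lit 0, nat_lit 549297, [nat_lit 2032000001, nat_lit 4688000000, nat_lit 6250000000], [], [nat_lit 25406264318, nat_lit 27511818076, nat_lit 36198750413, nat_lit 37528398722, nat_lit 22168238482, nat_lit 23134189320, nat_lit 30718445921, nat_lit 31884048404], nat_lit 1271250, nat_lit 1271250, nat_lit 1271250, nat_lit 1271250, nat_lit 0, nat_lit 1100001, [nat_lit 490000, nat_lit 1100000, nat_lit 1442500], [nat_lit 6, nat_lit 40, nat_lit 40, nat_lit 80, nat_lit 3, nat_lit 249, nat_lit 40, nat_lit 9]⟩, ⟨p086_k14, nat_lit 0, nat_lit 0, nat_lit 571, nat_lit 0, nat_lit 829531, [nat_lit 4688000000, nat_lit 7968000000, nat_lit 9842000000], [], [nat_lit 32080530240,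 nat_lit 32522200928, nat_lit 36150301150, nat_lit 36386126551, nat_lit 31156892477, nat_lit 31324272922, nat_lit 34685121519, nat_lit 35183421792], nat_lit 1271250, nat_lit 1271250, nat_lit 1271250, nat_lit 1271250, nat_lit 0, nat_lit 2486000, [nat_lit 1100000, nat_lit 1785000, nat_lit 1271250], [nat_lit 29, nat_lit 40, nat_lit 40, nat_lit 80, nat_lit 17, nat_lit 538, nat_lit 300, nat_lit 15]⟩,
 zbF0, [⟨nat_lit 19, nat_lit 100, nat_lit 82, nat_lit 92, nat_lit 174403031⟩, ⟨nat_lit 22, nat_lit 87, nat_lit 100, nat_lit 84, nat_lit 21615471⟩]⟩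
noncomputable def b_V_800_600_20_27 : St := ⟨true, nat_lit 1, nat_lit 1, nat_lit 1, nat_lit 120, nat_lit 320, nat_lit 360, nat_lit 240, nat_lit 280, nat_lit 240, nat_lit 396, nat_lit 80, nat_lit 120, nat_lit 0, nat_lit 160, nat_lit 0, nat_lit 364, nat_lit 0, nat_lit 40, nat_lit 0, nat_lit 0, nat_lit 0, nat_lit 0⟩
theorem d_V_800_600_20_27 (h : EB TB.env) : Dead b_V_800_600_20_27 := chkB_sound0 h (T :=
(.spl (nat_lit 1) (nat_lit 260)
(.trX (nat_lit 13) (nat_lit 84) (nat_lit 35) (nat_lit 100) (nat_lit 392) (.spl (nat_lit 2) (nat_lit 320)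
(.spl (nat_lit 0) (nat_lit 340)
(.leaf p086_l67)
(.leaf p086_l68))
(.trX (nat_lit 22) (nat_lit 82) (nat_lit 76) (nat_lit 100) (nat_lit 336) (.spl (nat_lit 4) (nat_lit 80)
(.trX (nat_lit 22) (nat_lit 83) (nat_lit 100) (nat_lit 83) (nat_lit 260) (.leaf p086_l69))
(.spl (nat_lit 0) (nat_lit 340)
(.leaf p086_l70)
(.trX (nat_lit 13) (nat_lit 75) (nat_lit 48) (nat_lit 100) (nat_lit 380) (.leaf p086_l71)))))))
(.trX (nat_lit 19) (nat_lit 100) (nat_lit 69) (nat_lit 96) (nat_lit 352) (.spl (nat_lit 0) (nat_lit 340)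
(.leaf p086_l72)
(.trX (nat_lit 13) (nat_lit 78) (nat_lit 39) (nat_lit 100) (nat_lit 388) (.leaf p086_l73)))))) (by decide +kernel)
noncomputable def p086_l74 : Lf2 := ⟨nat_lit 0, nat_lit 10, [nat_lit 0, nat_lit 5, nat_lit 5, nat_lit 20], false, nat_lit 160, nat_lit 300, nat_lit 0, nat_lit 364, ⟨nat_lit 527, nat_lit 473, nat_lit 0, nat_lit 6, nat_lit 275, nat_lit 473, nat_lit 177, nat_lit 0, nat_lit 0, nat_lit 0, nat_lit 0, nat_lit 0, nat_lit 38354316, nat_lit 19202111, nat_lit 9443573, nat_lit 5133148, true, true⟩,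
 nat_lit 7731, nat_lit 0, nat_lit 0, nat_lit 0, nat_lit 4548, nat_lit 4092, nat_lit 620, nat_lit 0, nat_lit 0, nat_lit 830, nat_lit 0, nat_lit 0, nat_lit 0, nat_lit 0, nat_lit 0, nat_lit 135350, nat_lit 0, nat_lit 0, [(nat_lit 18, [(nat_lit 0, nat_lit 359), (nat_lit 1, nat_lit 114)])],
 ⟨p086_k27, nat_lit 0, nat_lit 0, nat_lit 205, nat_lit 0, nat_lit 430316, [nat_lit 1775723201, nat_lit 2565969334, nat_lit 4437039200], [], [nat_lit 21885691089, nat_lit 22858641489, nat_lit 24747319168, nat_lit 25616100320, nat_lit 25324028580, nat_lit 26156315902, nat_lit 28280645432, nat_lit 29296996234], nat_lit 1271250, nat_lit 1271250, nat_lit 1271250, nat_lit 1271250, nat_lit 1100001, nat_lit 2298750, [nat_lit 490000, nat_lit 780000, nat_lit 1435000], [nat_lit 85, nat_lit 40, nat_lit 40, nat_lit 80, nat_lit 16, nat_lit 289, nat_lit 75, nat_lit 9]⟩, ⟨p086_k39, nat_lit 0, nat_lit 0, nat_lit 546, nat_lit 0, nat_lit 669380, [nat_lit 2470576000,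 nat_lit 3293750000, nat_lit 6256544000], [], [nat_lit 15683089814, nat_lit 16030457090, nat_lit 17236412518, nat_lit 17494397246, nat_lit 15468331183, nat_lit 15631013493, nat_lit 16548420658, nat_lit 16910974363], nat_lit 1271250, nat_lit 1271250, nat_lit 1271250, nat_lit 1271250, nat_lit 0, nat_lit 2570750, [nat_lit 1100000, nat_lit 1442500, nat_lit 1271250], [nat_lit 48, nat_lit 40, nat_lit 40, nat_lit 80, nat_lit 12, nat_lit 483, nat_lit 250, nat_lit 12]⟩,
 ⟨nat_lit 3872, nat_lit 4473, ⟨.ofNat (nat_lit 611083), .ofNat (nat_lit 747053), .ofNat (nat_lit 632632), .ofNat (nat_lit 768604), .ofNat (nat_lit 608080), .ofNat (nat_lit 737137), .ofNat (nat_lit 629856), .ofNat (nat_lit 758915)⟩, ⟨.ofNat (nat_lit 302621), .ofNat (nat_lit 540545), .ofNat (nat_lit 345754), .ofNat (nat_lit 583678), .ofNat (nat_lit 304717), .ofNat (nat_lit 530543), .ofNat (nat_lit 348304), .ofNat (nat_lit 574129)⟩⟩, [⟨nat_lit 4, nat_lit 100, nat_lit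 81, nat_lit 92, nat_lit 308990719⟩, ⟨nat_lit 19, nat_lit 100, nat_lit 72, nat_lit 89, nat_lit 107237418⟩]⟩
noncomputable def p086_l75 : Lf2 := ⟨nat_lit 0, nat_lit 10, [nat_lit 0, nat_lit 5, nat_lit 5, nat_lit 20], false, nat_lit 160, nat_lit 300, nat_lit 16, nat_lit 364, ⟨nat_lit 337, nat_lit 663, nat_lit 0, nat_lit 8, nat_lit 313, nat_lit 663, nat_lit 177, nat_lit 0, nat_lit 0, nat_lit 0, nat_lit 0, nat_lit 0, nat_lit 35466017, nat_lit 22578839, nat_lit 8955144, nat_lit 5229228, true, true⟩,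
 nat_lit 5445, nat_lit 0, nat_lit 0, nat_lit 0, nat_lit 3925, nat_lit 2882, nat_lit 0, nat_lit 0, nat_lit 0, nat_lit 258, nat_lit 0, nat_lit 0, nat_lit 0, nat_lit 0, nat_lit 0, nat_lit 663000, nat_lit 0, nat_lit 0, [(nat_lit 18, [(nat_lit 2, nat_lit 663)])],
 ⟨p086_k0, nat_lit 0, nat_lit 0, nat_lit 174, nat_lit 0, nat_lit 343683, [nat_lit 1813121601, nat_lit 2272912001, nat_lit 1812408400], [], [nat_lit 25540810802, nat_lit 25952913627, nat_lit 27189222102, nat_lit 27563900927, nat_lit 28471861853, nat_lit 28814802010, nat_lit 29843622478, nat_lit 30156098478], nat_lit 1271250, nat_lit 1271250, nat_lit 1271250, nat_lit 1271250, nat_lit 1100001, nat_lit 2298750, [nat_lit 490000, nat_lit 1100000, nat_lit 1442500], [nat_lit 6, nat_lit 40, nat_lit 40, nat_lit 80, nat_lit 3, nat_lit 289, nat_lit 75, nat_lit 9]⟩, ⟨p086_k1, nat_lit 0, nat_lit 0, nat_lit 487, nat_lit 0, nat_lit 534617, [nat_lit 1579856000, nat_lit 2685216000,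 nat_lit 4000864000], [], [nat_lit 12505683321, nat_lit 12567602700, nat_lit 13057654196, nat_lit 13105727105, nat_lit 11518764405, nat_lit 11541376020, nat_lit 11846927578, nat_lit 11863498872], nat_lit 1271250, nat_lit 1271250, nat_lit 1271250, nat_lit 1271250, nat_lit 88400, nat_lit 2598350, [nat_lit 1100000, nat_lit 1785000, nat_lit 1271250], [nat_lit 21, nat_lit 40, nat_lit 40, nat_lit 80, nat_lit 14, nat_lit 401, nat_lit 175, nat_lit 10]⟩,
 ⟨nat_lit 4183, nat_lit 4473, ⟨.ofNat (nat_lit 747062), .ofNat (nat_lit 815041), .ofNat (nat_lit 757843), .ofNat (nat_lit 825822), .ofNat (nat_lit 742095), .ofNat (nat_lit 808351), .ofNat (nat_lit 752926), .ofNat (nat_lit 819182)⟩, ⟨.ofNat (nat_lit 302621), .ofNat (nat_lit 540545), .ofNat (nat_lit 345754), .ofNat (nat_lit 583678), .ofNat (nat_lit 303743), .ofNat (nat_lit 535637), .ofNat (nat_lit 347076), .ofNat (nat_lit 578971)⟩⟩, [⟨nat_lit 16, nat_lit 87, nat_lit 95, nat_lit 100,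 nat_lit 186573697⟩, ⟨nat_lit 19, nat_lit 100, nat_lit 59, nat_lit 94, nat_lit 52704241⟩]⟩
noncomputable def p086_l76 : Lf2 := ⟨nat_lit 0, nat_lit 10, [nat_lit 0, nat_lit 5, nat_lit 5, nat_lit 20], false, nat_lit 160, nat_lit 240, nat_lit 48, nat_lit 352, ⟨nat_lit 332, nat_lit 668, nat_lit 0, nat_lit 9, nat_lit 336, nat_lit 668, nat_lit 157, nat_lit 0, nat_lit 0, nat_lit 0, nat_lit 0, nat_lit 0, nat_lit 34670303, nat_lit 25032640, nat_lit 7297057, nat_lit 5089184, true, true⟩,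
 nat_lit 5239, nat_lit 0, nat_lit 0, nat_lit 0, nat_lit 3929, nat_lit 2773, nat_lit 0, nat_lit 0, nat_lit 0, nat_lit 275, nat_lit 0, nat_lit 0, nat_lit 0, nat_lit 0, nat_lit 0, nat_lit 668000, nat_lit 0, nat_lit 0, [(nat_lit 18, [(nat_lit 2, nat_lit 668)])],
 ⟨p086_k0, nat_lit 0, nat_lit 0, nat_lit 190, nat_lit 0, nat_lit 343683, [nat_lit 1811470934, nat_lit 2254698667, nat_lit 1778942400], [], [nat_lit 27127204309, nat_lit 27502010450, nat_lit 28408266479, nat_lit 28777608323, nat_lit 28323304560, nat_lit 28674099918, nat_lit 29488176644, nat_lit 29814831975], nat_lit 1271250, nat_lit 1271250, nat_lit 1271250, nat_lit 1271250, nat_lit 1100001, nat_lit 1785000, [nat_lit 490000, nat_lit 1100000, nat_lit 1442500], [nat_lit 6, nat_lit 40, nat_lit 40, nat_lit 80, nat_lit 3, nat_lit 272, nat_lit 60, nat_lit 8]⟩, ⟨p086_k1, nat_lit 0, nat_lit 0, nat_lit 433, nat_lit 0, nat_lit 534617, [nat_lit 1556416000, nat_lit 2645376000,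 nat_lit 3941504000], [], [nat_lit 12246754076, nat_lit 12293326165, nat_lit 12667099086, nat_lit 12704359744, nat_lit 11764468196, nat_lit 11781373799, nat_lit 12047712097, nat_lit 12060128317], nat_lit 1271250, nat_lit 1271250, nat_lit 1271250, nat_lit 1271250, nat_lit 279600, nat_lit 2563400, [nat_lit 1100000, nat_lit 1785000, nat_lit 1271250], [nat_lit 21, nat_lit 40, nat_lit 40, nat_lit 80, nat_lit 14, nat_lit 401, nat_lit 175, nat_lit 9]⟩,
 ⟨nat_lit 4183, nat_lit 4473, ⟨.ofNat (nat_lit 815041), .ofNat (nat_lit 862626), .ofNat (nat_lit 825822), .ofNat (nat_lit 873407), .ofNat (nat_lit 808351), .ofNat (nat_lit 854731), .ofNat (nat_lit 819182), .ofNat (nat_lit 865562)⟩, ⟨.ofNat (nat_lit 302621), .ofNat (nat_lit 438578), .ofNat (nat_lit 345754), .ofNat (nat_lit 481711), .ofNat (nat_lit 303743), .ofNat (nat_lit 436254), .ofNat (nat_lit 347076), .ofNat (nat_lit 479587)⟩⟩, [⟨nat_lit 7, nat_lit 70, nat_lit 100, nat_lit 89,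 nat_lit 8161583⟩, ⟨nat_lit 22, nat_lit 49, nat_lit 87, nat_lit 100, nat_lit 102486931⟩]⟩
noncomputable def p086_l77 : Lf2 := ⟨nat_lit 0, nat_lit 10, [nat_lit 0, nat_lit 5, nat_lit 5, nat_lit 20], false, nat_lit 240, nat_lit 300, nat_lit 112, nat_lit 364, ⟨nat_lit 364, nat_lit 636, nat_lit 0, nat_lit 9, nat_lit 336, nat_lit 636, nat_lit 204, nat_lit 0, nat_lit 0, nat_lit 0, nat_lit 0, nat_lit 0, nat_lit 32710433, nat_lit 23793989, nat_lit 10495578, nat_lit 5438271, true, true⟩,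
 nat_lit 5534, nat_lit 0, nat_lit 0, nat_lit 0, nat_lit 3889, nat_lit 2929, nat_lit 0, nat_lit 0, nat_lit 0, nat_lit 273, nat_lit 0, nat_lit 0, nat_lit 0, nat_lit 0, nat_lit 0, nat_lit 636000, nat_lit 0, nat_lit 0, [(nat_lit 18, [(nat_lit 2, nat_lit 636)])],
 ⟨p086_k0, nat_lit 0, nat_lit 0, nat_lit 173, nat_lit 0, nat_lit 343683, [nat_lit 1822035200, nat_lit 2371264000, nat_lit 1993124800], [], [nat_lit 28692862924, nat_lit 29023057596, nat_lit 29815415224, nat_lit 30141025485, nat_lit 30127147855, nat_lit 30438884775, nat_lit 31168319946, nat_lit 31531058823], nat_lit 1271250, nat_lit 1271250, nat_lit 1271250, nat_lit 1271250, nat_lit 1271250, nat_lit 1271250, [nat_lit 490000, nat_lit 1100000, nat_lit 1442500], [nat_lit 6, nat_lit 40, nat_lit 40, nat_lit 80, nat_lit 3, nat_lit 203, nat_lit 0, nat_lit 5]⟩, ⟨p086_k1, nat_lit 0, nat_lit 0, nat_lit 394, nat_lit 0, nat_lit 534617, [nat_lit 1706432000, nat_lit 2900352000, nat_lit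 4321408000], [], [nat_lit 12223264514, nat_lit 12301591595, nat_lit 12807879680, nat_lit 12873543699, nat_lit 12952319582, nat_lit 12973517565, nat_lit 13347209308, nat_lit 13377318913], nat_lit 1271250, nat_lit 1271250, nat_lit 1271250, nat_lit 1271250, nat_lit 719601, nat_lit 2763950, [nat_lit 1100000, nat_lit 1785000, nat_lit 1271250], [nat_lit 21, nat_lit 40, nat_lit 40, nat_lit 80, nat_lit 14, nat_lit 401, nat_lit 175, nat_lit 9]⟩,
 ⟨nat_lit 4183, nat_lit 4473, ⟨.ofNat (nat_lit 815041), .ofNat (nat_lit 862626), .ofNat (nat_lit 825822), .ofNat (nat_lit 873407), .ofNat (nat_lit 808351), .ofNat (nat_lit 854731), .ofNat (nat_lit 819182), .ofNat (nat_lit 865562)⟩, ⟨.ofNat (nat_lit 438578), .ofNat (nat_lit 540545), .ofNat (nat_lit 481711), .ofNat (nat_lit 583678), .ofNat (nat_lit 436254), .ofNat (nat_lit 535637), .ofNat (nat_lit 479587), .ofNat (nat_lit 578971)⟩⟩, [⟨nat_lit 13, nat_lit 80, nat_lit 44, nat_lit 100, nat_lit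 120259510⟩, ⟨nat_lit 16, nat_lit 87, nat_lit 95, nat_lit 100, nat_lit 236114396⟩, ⟨nat_lit 19, nat_lit 100, nat_lit 59, nat_lit 94, nat_lit 97201261⟩]⟩
noncomputable def p086_l78 : Lf2 := ⟨nat_lit 0, nat_lit 10, [nat_lit 0, nat_lit 5, nat_lit 5, nat_lit 20], false, nat_lit 160, nat_lit 300, nat_lit 16, nat_lit 360, ⟨nat_lit 1000, nat_lit 0, nat_lit 0, nat_lit 0, nat_lit 0, nat_lit 0, nat_lit 0, nat_lit 0, nat_lit 0, nat_lit 0, nat_lit 0, nat_lit 0, nat_lit 0, nat_lit 0, nat_lit 0, nat_lit 0, false, false⟩,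
 nat_lit 12752, nat_lit 0, nat_lit 0, nat_lit 0, nat_lit 6089, nat_lit 7084, nat_lit 434, nat_lit 0, nat_lit 0, nat_lit 1920, nat_lit 0, nat_lit 0, nat_lit 0, nat_lit 0, nat_lit 0, nat_lit 0, nat_lit 0, nat_lit 0, [],
 ⟨p086_k0, nat_lit 0, nat_lit 0, nat_lit 206, nat_lit 0, nat_lit 371967, [nat_lit 2032000001, nat_lit 4688000000, nat_lit 6250000000], [], [nat_lit 26939630424, nat_lit 27432597492, nat_lit 30869412677, nat_lit 31487619410, nat_lit 29628693120, nat_lit 30026130102, nat_lit 33817979417, nat_lit 34276401690], nat_lit 1271250, nat_lit 1271250, nat_lit 1271250, nat_lit 1271250, nat_lit 1100001, nat_lit 2298750, [nat_lit 490000, nat_lit 1100000, nat_lit 1442500], [nat_lit 6, nat_lit 40, nat_lit 40, nat_lit 80, nat_lit 3, nat_lit 289, nat_lit 75, nat_lit 9]⟩, ⟨p086_k13, nat_lit 0, nat_lit 0, nat_lit 438, nat_lit 0, nat_lit 543415, [nat_lit 4688000000, nat_lit 7968000000, nat_lit 9842000000], [], [nat_lit 34826760704,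 nat_lit 35032433541, nat_lit 37958062836, nat_lit 38136211893, nat_lit 33897679022, nat_lit 33987231364, nat_lit 35717158794, nat_lit 35825236152], nat_lit 1271250, nat_lit 1271250, nat_lit 1271250, nat_lit 1271250, nat_lit 88400, nat_lit 2569500, [nat_lit 1100000, nat_lit 1785000, nat_lit 1271250], [nat_lit 29, nat_lit 40, nat_lit 40, nat_lit 80, nat_lit 17, nat_lit 401, nat_lit 175, nat_lit 11]⟩,
 zbF0, [⟨nat_lit 16, nat_lit 87, nat_lit 95, nat_lit 100, nat_lit 358766563⟩, ⟨nat_lit 19, nat_lit 100, nat_lit 64, nat_lit 95, nat_lit 174289978⟩]⟩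
noncomputable def p086_l79 : Lf2 := ⟨nat_lit 0, nat_lit 5, [nat_lit 4, nat_lit 5, nat_lit 5, nat_lit 20], false, nat_lit 160, nat_lit 288, nat_lit 16, nat_lit 364, ⟨nat_lit 339, nat_lit 661, nat_lit 0, nat_lit 8, nat_lit 311, nat_lit 661, nat_lit 172, nat_lit 0, nat_lit 0, nat_lit 0, nat_lit 0, nat_lit 0, nat_lit 35850538, nat_lit 22490865, nat_lit 8658597, nat_lit 5189275, true, true⟩,
 nat_lit 5474, nat_lit 0, nat_lit 0, nat_lit 0, nat_lit 3608, nat_lit 2898, nat_lit 812, nat_lit 0, nat_lit 0, nat_lit 188, nat_lit 0, nat_lit 0, nat_lit 0, nat_lit 0, nat_lit 0, nat_lit 264400, nat_lit 0, nat_lit 0, [(nat_lit 18, [(nat_lit 1, nat_lit 661)])],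
 ⟨p086_k43, nat_lit 0, nat_lit 0, nat_lit 168, nat_lit 0, nat_lit 367081, [nat_lit 1613014134, nat_lit 2842897289], [], [nat_lit 25469438240, nat_lit 25893128192, nat_lit 27126396328, nat_lit 27512284560, nat_lit 28144792592, nat_lit 28487408314, nat_lit 29520169804, nat_lit 29889234855], nat_lit 1271250, nat_lit 1271250, nat_lit 1271250, nat_lit 1271250, nat_lit 1100001, nat_lit 2196000, [nat_lit 490000, nat_lit 1100000], [nat_lit 24, nat_lit 40, nat_lit 40, nat_lit 80, nat_lit 33, nat_lit 203, nat_lit 0, nat_lit 7]⟩, ⟨p086_k36, nat_lit 0, nat_lit 0, nat_lit 452, nat_lit 0, nat_lit 593973, [nat_lit 1589232000, nat_lit 2701152000, nat_lit 3336438000], [], [nat_lit 12477509247, nat_lit 12553245993, nat_lit 13101375000, nat_lit 13161812864, nat_lit 11632985895, nat_lit 11648548602, nat_lit 11925414615, nat_lit 11933941557], nat_lit 1271250, nat_lit 1271250, nat_lit 1271250, nat_lit 1271250, nat_lit 88400, nat_lit 2598350,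 [nat_lit 1100000, nat_lit 1785000, nat_lit 1271250], [nat_lit 29, nat_lit 40, nat_lit 40, nat_lit 80, nat_lit 17, nat_lit 401, nat_lit 175, nat_lit 11]⟩,
 ⟨nat_lit 3872, nat_lit 4184, ⟨.ofNat (nat_lit 742098), .ofNat (nat_lit 808354), .ofNat (nat_lit 752930), .ofNat (nat_lit 819187), .ofNat (nat_lit 737149), .ofNat (nat_lit 801671), .ofNat (nat_lit 748044), .ofNat (nat_lit 812568)⟩, ⟨.ofNat (nat_lit 303743), .ofNat (nat_lit 515761), .ofNat (nat_lit 347076), .ofNat (nat_lit 559094), .ofNat (nat_lit 304717), .ofNat (nat_lit 511186), .ofNat (nat_lit 348304), .ofNat (nat_lit 554773)⟩⟩, [⟨nat_lit 16, nat_lit 83, nat_lit 98, nat_lit 100, nat_lit 195520834⟩, ⟨nat_lit 19, nat_lit 100, nat_lit 59, nat_lit 94, nat_lit 53371976⟩]⟩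
noncomputable def p086_l80 : Lf2 := ⟨nat_lit 0, nat_lit 5, [nat_lit 4, nat_lit 5, nat_lit 5, nat_lit 20], false, nat_lit 160, nat_lit 288, nat_lit 48, nat_lit 364, ⟨nat_lit 353, nat_lit 647, nat_lit 0, nat_lit 9, nat_lit 331, nat_lit 647, nat_lit 172, nat_lit 0, nat_lit 0, nat_lit 0, nat_lit 0, nat_lit 0, nat_lit 34429508, nat_lit 24171161, nat_lit 8399331, nat_lit 5211987, true, true⟩,
 nat_lit 5545, nat_lit 0, nat_lit 0, nat_lit 0, nat_lit 3590, nat_lit 2935, nat_lit 824, nat_lit 0, nat_lit 0, nat_lit 197, nat_lit 0, nat_lit 0, nat_lit 0, nat_lit 0, nat_lit 0, nat_lit 258800, nat_lit 0, nat_lit 0, [(nat_lit 18, [(nat_lit 1, nat_lit 647)])],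
 ⟨p086_k43, nat_lit 0, nat_lit 0, nat_lit 174, nat_lit 0, nat_lit 367081, [nat_lit 1621888267, nat_lit 2880324578], [], [nat_lit 27217583603, nat_lit 27602826463, nat_lit 28103139328, nat_lit 28469626153, nat_lit 29613382673, nat_lit 29937607919, nat_lit 30443644117, nat_lit 30848287383], nat_lit 1271250, nat_lit 1271250, nat_lit 1271250, nat_lit 1271250, nat_lit 1100001, nat_lit 2196000, [nat_lit 490000, nat_lit 1100000], [nat_lit 24, nat_lit 40, nat_lit 40, nat_lit 80, nat_lit 33, nat_lit 203, nat_lit 0, nat_lit 6]⟩, ⟨p086_k36, nat_lit 0, nat_lit 0, nat_lit 431, nat_lit 0, nat_lit 593973, [nat_lit 1654864000, nat_lit 2812704000, nat_lit 3474226000], [], [nat_lit 13170116752, nat_lit 13231694622, nat_lit 13522955076, nat_lit 13576836499, nat_lit 12670439058, nat_lit 12679805297, nat_lit 12871269924, nat_lit 12881554126], nat_lit 1271250, nat_lit 1271250, nat_lit 1271250, nat_lit 1271250, nat_lit 279600, nat_lit 2653550,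 [nat_lit 1100000, nat_lit 1785000, nat_lit 1271250], [nat_lit 29, nat_lit 40, nat_lit 40, nat_lit 80, nat_lit 17, nat_lit 401, nat_lit 175, nat_lit 11]⟩,
 ⟨nat_lit 3872, nat_lit 4184, ⟨.ofNat (nat_lit 808354), .ofNat (nat_lit 841482), .ofNat (nat_lit 819187), .ofNat (nat_lit 852316), .ofNat (nat_lit 801671), .ofNat (nat_lit 833932), .ofNat (nat_lit 812568), .ofNat (nat_lit 844829)⟩, ⟨.ofNat (nat_lit 303743), .ofNat (nat_lit 515761), .ofNat (nat_lit 347076), .ofNat (nat_lit 559094), .ofNat (nat_lit 304717), .ofNat (nat_lit 511186), .ofNat (nat_lit 348304), .ofNat (nat_lit 554773)⟩⟩, [⟨nat_lit 13, nat_lit 76, nat_lit 50, nat_lit 100, nat_lit 135866525⟩, ⟨nat_lit 16, nat_lit 83, nat_lit 98, nat_lit 100, nat_lit 201420159⟩, ⟨nat_lit 19, nat_lit 100, nat_lit 59, nat_lit 94, nat_lit 66292496⟩]⟩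
noncomputable def p086_l81 : Lf2 := ⟨nat_lit 0, nat_lit 10, [nat_lit 0, nat_lit 5, nat_lit 5, nat_lit 20], false, nat_lit 160, nat_lit 288, nat_lit 16, nat_lit 364, ⟨nat_lit 1000, nat_lit 0, nat_lit 0, nat_lit 0, nat_lit 0, nat_lit 0, nat_lit 0, nat_lit 0, nat_lit 0, nat_lit 0, nat_lit 0, nat_lit 0, nat_lit 0, nat_lit 0, nat_lit 0, nat_lit 0, false, false⟩,
 nat_lit 15386, nat_lit 0, nat_lit 0, nat_lit 0, nat_lit 5423, nat_lit 8145, nat_lit 519, nat_lit 0, nat_lit 0, nat_lit 792, nat_lit 0, nat_lit 0, nat_lit 0, nat_lit 0, nat_lit 0, nat_lit 0, nat_lit 0, nat_lit 0, [],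
 ⟨p086_k12, nat_lit 0, nat_lit 0, nat_lit 148, nat_lit 0, nat_lit 218337, [nat_lit 2032000001, nat_lit 4688000000, nat_lit 6250000000], [], [nat_lit 26897922329, nat_lit 27397804823, nat_lit 29905920818, nat_lit 30341669478, nat_lit 29431268427, nat_lit 29847701484, nat_lit 32416788515, nat_lit 32887224566], nat_lit 1271250, nat_lit 1271250, nat_lit 1271250, nat_lit 1271250, nat_lit 1100001, nat_lit 2196000, [nat_lit 490000, nat_lit 1100000, nat_lit 1442500], [nat_lit 6, nat_lit 40, nat_lit 40, nat_lit 80, nat_lit 3, nat_lit 289, nat_lit 75, nat_lit 9]⟩, ⟨p086_k1, nat_lit 0, nat_lit 0, nat_lit 394, nat_lit 0, nat_lit 356111, [nat_lit 4688000000, nat_lit 7968000000, nat_lit 11872000000], [], [nat_lit 35585940304, nat_lit 35877909873, nat_lit 39114881974, nat_lit 39324413912, nat_lit 34015007342, nat_lit 34101949176, nat_lit 36175387938, nat_lit 36264120483], nat_lit 1271250, nat_lit 1271250, nat_lit 1271250, nat_lit 1271250,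 nat_lit 88400, nat_lit 2598350, [nat_lit 1100000, nat_lit 1785000, nat_lit 1271250], [nat_lit 21, nat_lit 40, nat_lit 40, nat_lit 80, nat_lit 14, nat_lit 401, nat_lit 175, nat_lit 10]⟩,
 zbF0, [⟨nat_lit 4, nat_lit 100, nat_lit 77, nat_lit 91, nat_lit 451260740⟩, ⟨nat_lit 19, nat_lit 100, nat_lit 70, nat_lit 89, nat_lit 175465161⟩]⟩
noncomputable def p086_l82 : Lf2 := ⟨nat_lit 0, nat_lit 10, [nat_lit 0, nat_lit 5, nat_lit 5, nat_lit 20], false, nat_lit 160, nat_lit 288, nat_lit 16, nat_lit 360, ⟨nat_lit 1000, nat_lit 0, nat_lit 0, nat_lit 0, nat_lit 0, nat_lit 0, nat_lit 0, nat_lit 0, nat_lit 0, nat_lit 0, nat_lit 0, nat_lit 0, nat_lit 0, nat_lit 0, nat_lit 0, nat_lit 0, false, false⟩,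
 nat_lit 12773, nat_lit 0, nat_lit 0, nat_lit 0, nat_lit 5557, nat_lit 7096, nat_lit 501, nat_lit 0, nat_lit 0, nat_lit 2100, nat_lit 0, nat_lit 0, nat_lit 0, nat_lit 0, nat_lit 0, nat_lit 0, nat_lit 0, nat_lit 0, [],
 ⟨p086_k12, nat_lit 0, nat_lit 0, nat_lit 217, nat_lit 0, nat_lit 410406, [nat_lit 2032000001, nat_lit 4688000000, nat_lit 6250000000], [], [nat_lit 26788737211, nat_lit 27294325157, nat_lit 30198069044, nat_lit 30806113319, nat_lit 29290886426, nat_lit 29684275192, nat_lit 32805636203, nat_lit 33274330403], nat_lit 1271250, nat_lit 1271250, nat_lit 1271250, nat_lit 1271250, nat_lit 1100001, nat_lit 2196000, [nat_lit 490000, nat_lit 1100000, nat_lit 1442500], [nat_lit 6, nat_lit 40, nat_lit 40, nat_lit 80, nat_lit 3, nat_lit 289, nat_lit 75, nat_lit 9]⟩, ⟨p086_k13, nat_lit 0, nat_lit 0, nat_lit 469, nat_lit 0, nat_lit 628658, [nat_lit 4688000000, nat_lit 7968000000, nat_lit 9842000000], [], [nat_lit 34344208061,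 nat_lit 34549879476, nat_lit 37085569908, nat_lit 37272218360, nat_lit 33415196168, nat_lit 33504590416, nat_lit 35048641994, nat_lit 35293234577], nat_lit 1271250, nat_lit 1271250, nat_lit 1271250, nat_lit 1271250, nat_lit 88400, nat_lit 2569500, [nat_lit 1100000, nat_lit 1785000, nat_lit 1271250], [nat_lit 29, nat_lit 40, nat_lit 40, nat_lit 80, nat_lit 17, nat_lit 401, nat_lit 175, nat_lit 11]⟩,
 zbF0, [⟨nat_lit 16, nat_lit 83, nat_lit 98, nat_lit 100, nat_lit 373560818⟩, ⟨nat_lit 19, nat_lit 100, nat_lit 64, nat_lit 95, nat_lit 179345885⟩]⟩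
noncomputable def p086_l83 : Lf2 := ⟨nat_lit 0, nat_lit 10, [nat_lit 0, nat_lit 5, nat_lit 5, nat_lit 20], false, nat_lit 160, nat_lit 276, nat_lit 0, nat_lit 364, ⟨nat_lit 330, nat_lit 670, nat_lit 0, nat_lit 6, nat_lit 272, nat_lit 670, nat_lit 167, nat_lit 0, nat_lit 0, nat_lit 0, nat_lit 0, nat_lit 0, nat_lit 39045459, nat_lit 19158848, nat_lit 8795693, nat_lit 5049031, true, true⟩,
 nat_lit 4891, nat_lit 0, nat_lit 0, nat_lit 0, nat_lit 3959, nat_lit 2589, nat_lit 231, nat_lit 0, nat_lit 0, nat_lit 485, nat_lit 0, nat_lit 0, nat_lit 0, nat_lit 0, nat_lit 0, nat_lit 268000, nat_lit 0, nat_lit 0, [(nat_lit 21, [(nat_lit 1, nat_lit 670)])],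
 ⟨p086_k41, nat_lit 0, nat_lit 0, nat_lit 230, nat_lit 0, nat_lit 502297, [nat_lit 1578544000, nat_lit 2052684001, nat_lit 3062140000], [], [nat_lit 23230491028, nat_lit 24153217076, nat_lit 25793233746, nat_lit 26578823736, nat_lit 25759488186, nat_lit 26518279127, nat_lit 27952297726, nat_lit 28954064570], nat_lit 1271250, nat_lit 1271250, nat_lit 1271250, nat_lit 1271250, nat_lit 1100001, nat_lit 2093250, [nat_lit 490000, nat_lit 780000, nat_lit 1435000], [nat_lit 85, nat_lit 40, nat_lit 40, nat_lit 80, nat_lit 16, nat_lit 289, nat_lit 75, nat_lit 9]⟩, ⟨p086_k39, nat_lit 0, nat_lit 0, nat_lit 655, nat_lit 0, nat_lit 857842, [nat_lit 1547040000, nat_lit 2062500000, nat_lit 3917760000], [], [nat_lit 10519413471, nat_lit 10644397185, nat_lit 11208746763, nat_lit 11323862115, nat_lit 9986816602, nat_lit 10074306729, nat_lit 10512669357, nat_lit 10618534301], nat_lit 1271250, nat_lit 1271250, nat_lit 1271250, nat_lit 1271250,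 nat_lit 0, nat_lit 2570750, [nat_lit 1100000, nat_lit 1442500, nat_lit 1271250], [nat_lit 48, nat_lit 40, nat_lit 40, nat_lit 80, nat_lit 12, nat_lit 483, nat_lit 250, nat_lit 12]⟩,
 ⟨nat_lit 3162, nat_lit 3873, ⟨.ofNat (nat_lit 608082), .ofNat (nat_lit 737150), .ofNat (nat_lit 629847), .ofNat (nat_lit 758943), .ofNat (nat_lit 605237), .ofNat (nat_lit 727168), .ofNat (nat_lit 627364), .ofNat (nat_lit 749323)⟩, ⟨.ofNat (nat_lit 304717), .ofNat (nat_lit 491830), .ofNat (nat_lit 348304), .ofNat (nat_lit 535416), .ofNat (nat_lit 306116), .ofNat (nat_lit 482881), .ofNat (nat_lit 350426), .ofNat (nat_lit 527190)⟩⟩, [⟨nat_lit 4, nat_lit 100, nat_lit 67, nat_lit 88, nat_lit 299457750⟩, ⟨nat_lit 19, nat_lit 100, nat_lit 72, nat_lit 89, nat_lit 61931212⟩]⟩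
noncomputable def p086_l84 : Lf2 := ⟨nat_lit 0, nat_lit 5, [nat_lit 4, nat_lit 5, nat_lit 5, nat_lit 20], false, nat_lit 160, nat_lit 276, nat_lit 16, nat_lit 364, ⟨nat_lit 260, nat_lit 740, nat_lit 0, nat_lit 8, nat_lit 314, nat_lit 740, nat_lit 168, nat_lit 0, nat_lit 0, nat_lit 0, nat_lit 0, nat_lit 0, nat_lit 35853677, nat_lit 22838550, nat_lit 8307773, nat_lit 5157275, true, true⟩,
 nat_lit 4116, nat_lit 0, nat_lit 0, nat_lit 0, nat_lit 3332, nat_lit 2179, nat_lit 449, nat_lit 0, nat_lit 0, nat_lit 180, nat_lit 0, nat_lit 0, nat_lit 0, nat_lit 0, nat_lit 0, nat_lit 296000, nat_lit 0, nat_lit 0, [(nat_lit 21, [(nat_lit 1, nat_lit 740)])],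
 ⟨p086_k35, nat_lit 0, nat_lit 0, nat_lit 183, nat_lit 0, nat_lit 404479, [nat_lit 1531168000, nat_lit 2317040000], [], [nat_lit 25556928625, nat_lit 25983101245, nat_lit 27883861309, nat_lit 28265152385, nat_lit 27980706903, nat_lit 28357041864, nat_lit 30090762012, nat_lit 30432586410], nat_lit 1271250, nat_lit 1271250, nat_lit 1271250, nat_lit 1271250, nat_lit 1100001, nat_lit 2093250, [nat_lit 490000, nat_lit 1100000], [nat_lit 24, nat_lit 40, nat_lit 40, nat_lit 80, nat_lit 33, nat_lit 203, nat_lit 0, nat_lit 7]⟩, ⟨p086_k36, nat_lit 0, nat_lit 0, nat_lit 490, nat_lit 0, nat_lit 684850, [nat_lit 1218880000, nat_lit 2071680000, nat_lit 2558920000], [], [nat_lit 9531655396, nat_lit 9589700484, nat_lit 10219809409, nat_lit 10261615180, nat_lit 9023229242, nat_lit 9041274194, nat_lit 9397611368, nat_lit 9421814998], nat_lit 1271250, nat_lit 1271250, nat_lit 1271250, nat_lit 1271250, nat_lit 88400, nat_lit 2598350, [nat_lit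 1100000, nat_lit 1785000, nat_lit 1271250], [nat_lit 29, nat_lit 40, nat_lit 40, nat_lit 80, nat_lit 17, nat_lit 401, nat_lit 175, nat_lit 11]⟩,
 ⟨nat_lit 3535, nat_lit 3873, ⟨.ofNat (nat_lit 737150), .ofNat (nat_lit 827480), .ofNat (nat_lit 748046), .ofNat (nat_lit 838377), .ofNat (nat_lit 732188), .ofNat (nat_lit 820054), .ofNat (nat_lit 743164), .ofNat (nat_lit 831030)⟩, ⟨.ofNat (nat_lit 304717), .ofNat (nat_lit 491830), .ofNat (nat_lit 348304), .ofNat (nat_lit 535416), .ofNat (nat_lit 305521), .ofNat (nat_lit 487529), .ofNat (nat_lit 349427), .ofNat (nat_lit 531435)⟩⟩, [⟨nat_lit 13, nat_lit 71, nat_lit 57, nat_lit 100, nat_lit 128596228⟩, ⟨nat_lit 16, nat_lit 77, nat_lit 100, nat_lit 99, nat_lit 200670469⟩, ⟨nat_lit 19, nat_lit 100, nat_lit 59, nat_lit 94, nat_lit 42417934⟩]⟩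
noncomputable def p086_l85 : Lf2 := ⟨nat_lit 0, nat_lit 5, [nat_lit 4, nat_lit 5, nat_lit 5, nat_lit 20], false, nat_lit 160, nat_lit 264, nat_lit 16, nat_lit 364, ⟨nat_lit 245, nat_lit 755, nat_lit 0, nat_lit 8, nat_lit 309, nat_lit 755, nat_lit 163, nat_lit 0, nat_lit 0, nat_lit 0, nat_lit 0, nat_lit 0, nat_lit 36425664, nat_lit 22509391, nat_lit 8064945, nat_lit 5112988, true, true⟩,
 nat_lit 3966, nat_lit 0, nat_lit 0, nat_lit 0, nat_lit 3331, nat_lit 2099, nat_lit 297, nat_lit 0, nat_lit 0, nat_lit 155, nat_lit 0, nat_lit 0, nat_lit 0, nat_lit 0, nat_lit 0, nat_lit 302000, nat_lit 0, nat_lit 0, [(nat_lit 21, [(nat_lit 1, nat_lit 755)])],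
 ⟨p086_k44, nat_lit 0, nat_lit 0, nat_lit 191, nat_lit 0, nat_lit 439574, [nat_lit 1521016000, nat_lit 2268980000], [], [nat_lit 25913428710, nat_lit 26339554545, nat_lit 27854296441, nat_lit 28271834820, nat_lit 27979610748, nat_lit 28375775822, nat_lit 29780874237, nat_lit 30136228413], nat_lit 1271250, nat_lit 1271250, nat_lit 1271250, nat_lit 1271250, nat_lit 1100001, nat_lit 1990500, [nat_lit 490000, nat_lit 1100000], [nat_lit 24, nat_lit 40, nat_lit 40, nat_lit 80, nat_lit 33, nat_lit 203, nat_lit 0, nat_lit 6]⟩, ⟨p086_k36, nat_lit 0, nat_lit 0, nat_lit 524, nat_lit 0, nat_lit 777846, [nat_lit 1148560000, nat_lit 1952160000, nat_lit 2411290000], [], [nat_lit 9447922640, nat_lit 9479402164, nat_lit 9833397454, nat_lit 9855120688, nat_lit 8609470282, nat_lit 8612069067, nat_lit 8803067873, nat_lit 8799408606], nat_lit 1271250, nat_lit 1271250, nat_lit 1271250, nat_lit 1271250, nat_lit 88400, nat_lit 2598350, [nat_lit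 1100000, nat_lit 1785000, nat_lit 1271250], [nat_lit 29, nat_lit 40, nat_lit 40, nat_lit 80, nat_lit 17, nat_lit 401, nat_lit 175, nat_lit 11]⟩,
 ⟨nat_lit 3162, nat_lit 3536, ⟨.ofNat (nat_lit 732188), .ofNat (nat_lit 807502), .ofNat (nat_lit 743164), .ofNat (nat_lit 818478), .ofNat (nat_lit 727168), .ofNat (nat_lit 800312), .ofNat (nat_lit 738246), .ofNat (nat_lit 811390)⟩, ⟨.ofNat (nat_lit 305521), .ofNat (nat_lit 468701), .ofNat (nat_lit 349427), .ofNat (nat_lit 512606), .ofNat (nat_lit 306116), .ofNat (nat_lit 464594), .ofNat (nat_lit 350426), .ofNat (nat_lit 508904)⟩⟩, [⟨nat_lit 13, nat_lit 65, nat_lit 63, nat_lit 100, nat_lit 137533816⟩, ⟨nat_lit 16, nat_lit 69, nat_lit 100, nat_lit 96, nat_lit 225192425⟩, ⟨nat_lit 19, nat_lit 100, nat_lit 59, nat_lit 94, nat_lit 35916870⟩]⟩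
noncomputable def p086_l86 : Lf2 := ⟨nat_lit 0, nat_lit 5, [nat_lit 4, nat_lit 5, nat_lit 5, nat_lit 20], false, nat_lit 160, nat_lit 276, nat_lit 16, nat_lit 360, ⟨nat_lit 662, nat_lit 338, nat_lit 0, nat_lit 8, nat_lit 318, nat_lit 338, nat_lit 167, nat_lit 0, nat_lit 0, nat_lit 0, nat_lit 0, nat_lit 0, nat_lit 35544824, nat_lit 23228399, nat_lit 8226777, nat_lit 5160456, true, true⟩,
 nat_lit 8254, nat_lit 0, nat_lit 0, nat_lit 0, nat_lit 4255, nat_lit 4585, nat_lit 0, nat_lit 0, nat_lit 0, nat_lit 1571, nat_lit 0, nat_lit 0, nat_lit 0, nat_lit 0, nat_lit 0, nat_lit 338000, nat_lit 0, nat_lit 0, [(nat_lit 21, [(nat_lit 2, nat_lit 338)])],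
 ⟨p086_k35, nat_lit 0, nat_lit 0, nat_lit 206, nat_lit 0, nat_lit 478812, [nat_lit 1818789601, nat_lit 2967680533], [], [nat_lit 26316139667, nat_lit 27197889437, nat_lit 28987155358, nat_lit 30022414790, nat_lit 28596710016, nat_lit 29320671396, nat_lit 31232046517, nat_lit 32112438369], nat_lit 1271250, nat_lit 1271250, nat_lit 1271250, nat_lit 1271250, nat_lit 1100001, nat_lit 2093250, [nat_lit 490000, nat_lit 1100000], [nat_lit 24, nat_lit 40, nat_lit 40, nat_lit 80, nat_lit 33, nat_lit 203, nat_lit 0, nat_lit 7]⟩, ⟨p086_k45, nat_lit 0, nat_lit 0, nat_lit 463, nat_lit 0, nat_lit 762217, [nat_lit 3103456000, nat_lit 5274816000], [], [nat_lit 23129005893, nat_lit 23237160268, nat_lit 24423178334, nat_lit 24502683070, nat_lit 22216527495, nat_lit 22245590620, nat_lit 23000721383, nat_lit 23051473347], nat_lit 1271250, nat_lit 1271250, nat_lit 1271250, nat_lit 1271250, nat_lit 88400, nat_lit 2569500, [nat_lit 1100000,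 nat_lit 1785000], [nat_lit 39, nat_lit 40, nat_lit 40, nat_lit 80, nat_lit 7, nat_lit 317, nat_lit 100, nat_lit 10]⟩,
 ⟨nat_lit 3162, nat_lit 3873, ⟨.ofNat (nat_lit 748046), .ofNat (nat_lit 844829), .ofNat (nat_lit 758943), .ofNat (nat_lit 855725), .ofNat (nat_lit 738246), .ofNat (nat_lit 829676), .ofNat (nat_lit 749323), .ofNat (nat_lit 840753)⟩, ⟨.ofNat (nat_lit 304717), .ofNat (nat_lit 491830), .ofNat (nat_lit 348304), .ofNat (nat_lit 535416), .ofNat (nat_lit 306116), .ofNat (nat_lit 482881), .ofNat (nat_lit 350426), .ofNat (nat_lit 527190)⟩⟩, [⟨nat_lit 13, nat_lit 62, nat_lit 65, nat_lit 100, nat_lit 20239033⟩, ⟨nat_lit 4, nat_lit 100, nat_lit 67, nat_lit 88, nat_lit 399949120⟩, ⟨nat_lit 19, nat_lit 100, nat_lit 64, nat_lit 95, nat_lit 116407181⟩]⟩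
noncomputable def p086_l87 : Lf2 := ⟨nat_lit 0, nat_lit 10, [nat_lit 0, nat_lit 5, nat_lit 5, nat_lit 20], false, nat_lit 160, nat_lit 276, nat_lit 16, nat_lit 364, ⟨nat_lit 753, nat_lit 247, nat_lit 0, nat_lit 8, nat_lit 317, nat_lit 247, nat_lit 168, nat_lit 0, nat_lit 0, nat_lit 0, nat_lit 0, nat_lit 0, nat_lit 35597976, nat_lit 23138168, nat_lit 8263856, nat_lit 5162175, true, true⟩,
 nat_lit 11770, nat_lit 0, nat_lit 0, nat_lit 0, nat_lit 4233, nat_lit 6231, nat_lit 523, nat_lit 0, nat_lit 0, nat_lit 537, nat_lit 0, nat_lit 0, nat_lit 0, nat_lit 0, nat_lit 0, nat_lit 98800, nat_lit 0, nat_lit 0, [(nat_lit 21, [(nat_lit 1, nat_lit 247)])],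
 ⟨p086_k37, nat_lit 0, nat_lit 0, nat_lit 170, nat_lit 0, nat_lit 286895, [nat_lit 1864830401, nat_lit 3898785600, nat_lit 5074774000], [], [nat_lit 26323461163, nat_lit 26749194783, nat_lit 28943417002, nat_lit 29450562311, nat_lit 28549932642, nat_lit 28918844774, nat_lit 31207856619, nat_lit 31647218164], nat_lit 1271250, nat_lit 1271250, nat_lit 1271250, nat_lit 1271250, nat_lit 1100001, nat_lit 2093250, [nat_lit 490000, nat_lit 1100000, nat_lit 1442500], [nat_lit 6, nat_lit 40, nat_lit 40, nat_lit 80, nat_lit 3, nat_lit 289, nat_lit 75, nat_lit 9]⟩, ⟨p086_k1, nat_lit 0, nat_lit 0, nat_lit 440, nat_lit 0, nat_lit 489971, [nat_lit 3530064000, nat_lit 5999904000, nat_lit 8939616000], [], [nat_lit 28635288733, nat_lit 28913214437, nat_lit 30546423617, nat_lit 30733374954, nat_lit 26376912892, nat_lit 26483583710, nat_lit 27546291481, nat_lit 27606880220], nat_lit 1271250, nat_lit 1271250, nat_lit 1271250, nat_lit 1271250,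 nat_lit 88400, nat_lit 2598350, [nat_lit 1100000, nat_lit 1785000, nat_lit 1271250], [nat_lit 21, nat_lit 40, nat_lit 40, nat_lit 80, nat_lit 14, nat_lit 401, nat_lit 175, nat_lit 10]⟩,
 ⟨nat_lit 3535, nat_lit 3873, ⟨.ofNat (nat_lit 737150), .ofNat (nat_lit 833932), .ofNat (nat_lit 758942), .ofNat (nat_lit 855725), .ofNat (nat_lit 732188), .ofNat (nat_lit 826330), .ofNat (nat_lit 754140), .ofNat (nat_lit 848283)⟩, ⟨.ofNat (nat_lit 304717), .ofNat (nat_lit 491830), .ofNat (nat_lit 348304), .ofNat (nat_lit 535416), .ofNat (nat_lit 305521), .ofNat (nat_lit 487529), .ofNat (nat_lit 349427), .ofNat (nat_lit 531435)⟩⟩, [⟨nat_lit 4, nat_lit 100, nat_lit 71, nat_lit 89, nat_lit 401153626⟩, ⟨nat_lit 7, nat_lit 72, nat_lit 100, nat_lit 89, nat_lit 118713052⟩]⟩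
noncomputable def p086_l88 : Lf2 := ⟨nat_lit 0, nat_lit 10, [nat_lit 0, nat_lit 5, nat_lit 5, nat_lit 20], false, nat_lit 160, nat_lit 264, nat_lit 16, nat_lit 364, ⟨nat_lit 598, nat_lit 402, nat_lit 0, nat_lit 8, nat_lit 313, nat_lit 402, nat_lit 163, nat_lit 0, nat_lit 0, nat_lit 0, nat_lit 0, nat_lit 0, nat_lit 36113110, nat_lit 22860156, nat_lit 8026734, nat_lit 5121067, true, true⟩,
 nat_lit 9433, nat_lit 0, nat_lit 0, nat_lit 0, nat_lit 3498, nat_lit 4993, nat_lit 474, nat_lit 0, nat_lit 0, nat_lit 435, nat_lit 0, nat_lit 0, nat_lit 0, nat_lit 0, nat_lit 0, nat_lit 160800, nat_lit 0, nat_lit 0, [(nat_lit 21, [(nat_lit 1, nat_lit 402)])],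
 ⟨p086_k42, nat_lit 0, nat_lit 0, nat_lit 158, nat_lit 0, nat_lit 300718, [nat_lit 1759926400, nat_lit 3399992000], [], [nat_lit 26277701892, nat_lit 26487157448, nat_lit 28346331425, nat_lit 28531781268, nat_lit 28199113753, nat_lit 28376702060, nat_lit 30108310132, nat_lit 30296366878], nat_lit 1271250, nat_lit 1271250, nat_lit 1271250, nat_lit 1271250, nat_lit 1100001, nat_lit 1990500, [nat_lit 490000, nat_lit 1100000], [nat_lit 24, nat_lit 40, nat_lit 40, nat_lit 80, nat_lit 33, nat_lit 203, nat_lit 0, nat_lit 6]⟩, ⟨p086_k1, nat_lit 0, nat_lit 0, nat_lit 489, nat_lit 0, nat_lit 537090, [nat_lit 2803424000, nat_lit 4764864000, nat_lit 7099456000], [], [nat_lit 22592221228, nat_lit 22812677377, nat_lit 23894313018, nat_lit 24051828183, nat_lit 20810722436, nat_lit 20894233291, nat_lit 21600989758, nat_lit 21641828092], nat_lit 1271250, nat_lit 1271250, nat_lit 1271250, nat_lit 1271250, nat_lit 88400, nat_lit 2598350,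 [nat_lit 1100000, nat_lit 1785000, nat_lit 1271250], [nat_lit 21, nat_lit 40, nat_lit 40, nat_lit 80, nat_lit 14, nat_lit 401, nat_lit 175, nat_lit 10]⟩,
 ⟨nat_lit 3354, nat_lit 3536, ⟨.ofNat (nat_lit 732188), .ofNat (nat_lit 813778), .ofNat (nat_lit 754141), .ofNat (nat_lit 835730), .ofNat (nat_lit 729689), .ofNat (nat_lit 810114), .ofNat (nat_lit 751737), .ofNat (nat_lit 832161)⟩, ⟨.ofNat (nat_lit 305521), .ofNat (nat_lit 468701), .ofNat (nat_lit 349427), .ofNat (nat_lit 512606), .ofNat (nat_lit 305848), .ofNat (nat_lit 466697), .ofNat (nat_lit 349943), .ofNat (nat_lit 510793)⟩⟩, [⟨nat_lit 16, nat_lit 69, nat_lit 100, nat_lit 96, nat_lit 322886799⟩, ⟨nat_lit 7, nat_lit 72, nat_lit 100, nat_lit 89, nat_lit 95458121⟩]⟩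
noncomputable def p086_l89 : Lf2 := ⟨nat_lit 0, nat_lit 10, [nat_lit 0, nat_lit 5, nat_lit 5, nat_lit 20], false, nat_lit 160, nat_lit 256, nat_lit 16, nat_lit 364, ⟨nat_lit 267, nat_lit 733, nat_lit 0, nat_lit 8, nat_lit 311, nat_lit 733, nat_lit 161, nat_lit 0, nat_lit 0, nat_lit 0, nat_lit 0, nat_lit 0, nat_lit 36423921, nat_lit 22710224, nat_lit 7865855, nat_lit 5093798, true, true⟩,
 nat_lit 4230, nat_lit 0, nat_lit 0, nat_lit 0, nat_lit 3618, nat_lit 2239, nat_lit 19, nat_lit 0, nat_lit 0, nat_lit 196, nat_lit 0, nat_lit 0, nat_lit 0, nat_lit 0, nat_lit 0, nat_lit 293200, nat_lit 0, nat_lit 0, [(nat_lit 21, [(nat_lit 1, nat_lit 733)])],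
 ⟨p086_k46, nat_lit 0, nat_lit 0, nat_lit 164, nat_lit 0, nat_lit 320235, [nat_lit 1535905600, nat_lit 2339468000], [], [nat_lit 26565956370, nat_lit 26785732935, nat_lit 28534700183, nat_lit 28730969383, nat_lit 28352408988, nat_lit 28541120947, nat_lit 30049567488, nat_lit 30222869047], nat_lit 1271250, nat_lit 1271250, nat_lit 1271250, nat_lit 1271250, nat_lit 1100001, nat_lit 1922000, [nat_lit 490000, nat_lit 1100000], [nat_lit 24, nat_lit 40, nat_lit 40, nat_lit 80, nat_lit 33, nat_lit 203, nat_lit 0, nat_lit 6]⟩, ⟨p086_k1, nat_lit 0, nat_lit 0, nat_lit 506, nat_lit 0, nat_lit 584635, [nat_lit 1251696000, nat_lit 2127456000, nat_lit 3169824000], [], [nat_lit 10055390537, nat_lit 10153765096, nat_lit 10588262909, nat_lit 10660640195, nat_lit 9262073191, nat_lit 9299098770, nat_lit 9583885798, nat_lit 9603298331], nat_lit 1271250, nat_lit 1271250, nat_lit 1271250, nat_lit 1271250, nat_lit 88400, nat_lit 2598350, [nat_lit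 1100000, nat_lit 1785000, nat_lit 1271250], [nat_lit 21, nat_lit 40, nat_lit 40, nat_lit 80, nat_lit 14, nat_lit 401, nat_lit 175, nat_lit 10]⟩,
 ⟨nat_lit 3162, nat_lit 3355, ⟨.ofNat (nat_lit 729689), .ofNat (nat_lit 803927), .ofNat (nat_lit 751737), .ofNat (nat_lit 825975), .ofNat (nat_lit 727168), .ofNat (nat_lit 800312), .ofNat (nat_lit 749323), .ofNat (nat_lit 822467)⟩, ⟨.ofNat (nat_lit 305848), .ofNat (nat_lit 454324), .ofNat (nat_lit 349943), .ofNat (nat_lit 498420), .ofNat (nat_lit 306116), .ofNat (nat_lit 452404), .ofNat (nat_lit 350426), .ofNat (nat_lit 496714)⟩⟩, [⟨nat_lit 13, nat_lit 64, nat_lit 63, nat_lit 100, nat_lit 133284013⟩, ⟨nat_lit 16, nat_lit 66, nat_lit 100, nat_lit 95, nat_lit 224320937⟩, ⟨nat_lit 7, nat_lit 72, nat_lit 100, nat_lit 89, nat_lit 42877519⟩]⟩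
noncomputable def p086_l90 : Lf2 := ⟨nat_lit 0, nat_lit 10, [nat_lit 0, nat_lit 5, nat_lit 5, nat_lit 20], false, nat_lit 160, nat_lit 300, nat_lit 0, nat_lit 352, ⟨nat_lit 924, nat_lit 76, nat_lit 0, nat_lit 6, nat_lit 282, nat_lit 76, nat_lit 176, nat_lit 0, nat_lit 0, nat_lit 0, nat_lit 0, nat_lit 0, nat_lit 37840831, nat_lit 19878334, nat_lit 9280835, nat_lit 5149801, true, true⟩,
 nat_lit 11587, nat_lit 0, nat_lit 0, nat_lit 0, nat_lit 5171, nat_lit 6744, nat_lit 914, nat_lit 0, nat_lit 0, nat_lit 1452, nat_lit 0, nat_lit 0, nat_lit 0, nat_lit 0, nat_lit 0, nat_lit 30400, nat_lit 0, nat_lit 0, [(nat_lit 18, [(nat_lit 1, nat_lit 76)]), (nat_lit 21, [(nat_lit 1, nat_lit 76)])],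
 ⟨p086_k27, nat_lit 0, nat_lit 0, nat_lit 258, nat_lit 0, nat_lit 603070, [nat_lit 1980624001, nat_lit 3165497067, nat_lit 5924020800], [], [nat_lit 22398221164, nat_lit 24257032291, nat_lit 25140253810, nat_lit 27299892924, nat_lit 25801987994, nat_lit 27865232208, nat_lit 28750470914, nat_lit 30901868347], nat_lit 1271250, nat_lit 1271250, nat_lit 1271250, nat_lit 1271250, nat_lit 1100001, nat_lit 2298750, [nat_lit 490000, nat_lit 780000, nat_lit 1435000], [nat_lit 85, nat_lit 40, nat_lit 40, nat_lit 80, nat_lit 16, nat_lit 289, nat_lit 75, nat_lit 9]⟩, ⟨p086_k28, nat_lit 0, nat_lit 0, nat_lit 570, nat_lit 0, nat_lit 829531, [nat_lit 4331712000, nat_lit 5775000000, nat_lit 9094008000], [], [nat_lit 25936794144, nat_lit 26346929664, nat_lit 27841548984, nat_lit 28237529376, nat_lit 25380961700, nat_lit 25596143866, nat_lit 28433571144, nat_lit 29099519453], nat_lit 1271250, nat_lit 1271250, nat_lit 1271250, nat_lit 1271250,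 nat_lit 0, nat_lit 2486000, [nat_lit 1100000, nat_lit 1442500, nat_lit 1271250], [nat_lit 11, nat_lit 40, nat_lit 40, nat_lit 80, nat_lit 1, nat_lit 483, nat_lit 250, nat_lit 14]⟩,
 ⟨nat_lit 3162, nat_lit 4473, ⟨.ofNat (nat_lit 632483), .ofNat (nat_lit 768554), .ofNat (nat_lit 653959), .ofNat (nat_lit 790054), .ofNat (nat_lit 627223), .ofNat (nat_lit 749245), .ofNat (nat_lit 649288), .ofNat (nat_lit 771333)⟩, ⟨.ofNat (nat_lit 302621), .ofNat (nat_lit 540545), .ofNat (nat_lit 345754), .ofNat (nat_lit 583678), .ofNat (nat_lit 306116), .ofNat (nat_lit 519453), .ofNat (nat_lit 350426), .ofNat (nat_lit 563762)⟩⟩, [⟨nat_lit 16, nat_lit 74, nat_lit 100, nat_lit 90, nat_lit 498837957⟩, ⟨nat_lit 7, nat_lit 82, nat_lit 100, nat_lit 92, nat_lit 182418297⟩]⟩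
noncomputable def p086_l91 : Lf2 := ⟨nat_lit 0, nat_lit 10, [nat_lit 0, nat_lit 5, nat_lit 5, nat_lit 20], false, nat_lit 160, nat_lit 300, nat_lit 16, nat_lit 352, ⟨nat_lit 1000, nat_lit 0, nat_lit 0, nat_lit 0, nat_lit 0, nat_lit 0, nat_lit 0, nat_lit 0, nat_lit 0, nat_lit 0, nat_lit 0, nat_lit 0, nat_lit 0, nat_lit 0, nat_lit 0, nat_lit 0, false, false⟩,
 nat_lit 10883, nat_lit 0, nat_lit 0, nat_lit 0, nat_lit 6280, nat_lit 6334, nat_lit 408, nat_lit 0, nat_lit 0, nat_lit 1782, nat_lit 0, nat_lit 0, nat_lit 0, nat_lit 0, nat_lit 0, nat_lit 0, nat_lit 0, nat_lit 0, [],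
 ⟨p086_k0, nat_lit 0, nat_lit 0, nat_lit 245, nat_lit 0, nat_lit 490017, [nat_lit 2032000001, nat_lit 4688000000, nat_lit 6250000000], [], [nat_lit 27940736160, nat_lit 28782676800, nat_lit 31443997120, nat_lit 32680932105, nat_lit 30094481440, nat_lit 30770078160, nat_lit 34293297332, nat_lit 35208002743], nat_lit 1271250, nat_lit 1271250, nat_lit 1271250, nat_lit 1271250, nat_lit 1100001, nat_lit 2298750, [nat_lit 490000, nat_lit 1100000, nat_lit 1442500], [nat_lit 6, nat_lit 40, nat_lit 40, nat_lit 80, nat_lit 3, nat_lit 289, nat_lit 75, nat_lit 9]⟩, ⟨p086_k14, nat_lit 0, nat_lit 0, nat_lit 486, nat_lit 0, nat_lit 674024, [nat_lit 4688000000, nat_lit 7968000000, nat_lit 9842000000], [], [nat_lit 33609221097, nat_lit 34016810644, nat_lit 36370171755, nat_lit 36661141350, nat_lit 33259801611, nat_lit 33420522463, nat_lit 34800662943, nat_lit 35197004368], nat_lit 1271250, nat_lit 1271250, nat_lit 1271250, nat_lit 1271250,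 nat_lit 88400, nat_lit 2511800, [nat_lit 1100000, nat_lit 1785000, nat_lit 1271250], [nat_lit 29, nat_lit 40, nat_lit 40, nat_lit 80, nat_lit 17, nat_lit 401, nat_lit 175, nat_lit 11]⟩,
 zbF0, [⟨nat_lit 4, nat_lit 100, nat_lit 81, nat_lit 92, nat_lit 389902477⟩, ⟨nat_lit 7, nat_lit 82, nat_lit 100, nat_lit 92, nat_lit 190705749⟩]⟩
noncomputable def p086_l92 : Lf2 := ⟨nat_lit 0, nat_lit 10, [nat_lit 0, nat_lit 5, nat_lit 5, nat_lit 20], false, nat_lit 160, nat_lit 276, nat_lit 16, nat_lit 352, ⟨nat_lit 1000, nat_lit 0, nat_lit 0, nat_lit 0, nat_lit 0, nat_lit 0, nat_lit 0, nat_lit 0, nat_lit 0, nat_lit 0, nat_lit 0, nat_lit 0, nat_lit 0, nat_lit 0, nat_lit 0, nat_lit 0, false, false⟩,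
 nat_lit 11164, nat_lit 0, nat_lit 0, nat_lit 0, nat_lit 4935, nat_lit 6498, nat_lit 531, nat_lit 0, nat_lit 0, nat_lit 1747, nat_lit 0, nat_lit 0, nat_lit 0, nat_lit 0, nat_lit 0, nat_lit 0, nat_lit 0, nat_lit 0, [],
 ⟨p086_k37, nat_lit 0, nat_lit 0, nat_lit 264, nat_lit 0, nat_lit 549297, [nat_lit 2032000001, nat_lit 4688000000, nat_lit 6250000000], [], [nat_lit 27150087403, nat_lit 27946231523, nat_lit 30323445684, nat_lit 31455828778, nat_lit 29063825197, nat_lit 29837479690, nat_lit 32440958045, nat_lit 33348343120], nat_lit 1271250, nat_lit 1271250, nat_lit 1271250, nat_lit 1271250, nat_lit 1100001, nat_lit 2093250, [nat_lit 490000, nat_lit 1100000, nat_lit 1442500], [nat_lit 6, nat_lit 40, nat_lit 40, nat_lit 80, nat_lit 3, nat_lit 289, nat_lit 75, nat_lit 9]⟩, ⟨p086_k14, nat_lit 0, nat_lit 0, nat_lit 548, nat_lit 0, nat_lit 829531, [nat_lit 4688000000, nat_lit 7968000000, nat_lit 9842000000], [], [nat_lit 34038451799,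 nat_lit 34368872551, nat_lit 36180629005, nat_lit 36417704274, nat_lit 32818606460, nat_lit 32928366661, nat_lit 34390387549, nat_lit 34888133172], nat_lit 1271250, nat_lit 1271250, nat_lit 1271250, nat_lit 1271250, nat_lit 88400, nat_lit 2511800, [nat_lit 1100000, nat_lit 1785000, nat_lit 1271250], [nat_lit 29, nat_lit 40, nat_lit 40, nat_lit 80, nat_lit 17, nat_lit 401, nat_lit 175, nat_lit 11]⟩,
 zbF0, [⟨nat_lit 4, nat_lit 100, nat_lit 67, nat_lit 88, nat_lit 500923554⟩, ⟨nat_lit 19, nat_lit 100, nat_lit 82, nat_lit 92, nat_lit 189601228⟩]⟩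
noncomputable def b_V_800_600_20_28 : St := ⟨true, nat_lit 1, nat_lit 1, nat_lit 1, nat_lit 120, nat_lit 320, nat_lit 360, nat_lit 240, nat_lit 280, nat_lit 240, nat_lit 396, nat_lit 80, nat_lit 120, nat_lit 160, nat_lit 300, nat_lit 0, nat_lit 364, nat_lit 0, nat_lit 40, nat_lit 0, nat_lit 0, nat_lit 0, nat_lit 0⟩
theorem d_V_800_600_20_28 (h : EB TB.env) : Dead b_V_800_600_20_28 := chkB_sound0 h (T :=
(.spl (nat_lit 1) (nat_lit 260)
(.trX (nat_lit 13) (nat_lit 84) (nat_lit 35) (nat_lit 100) (nat_lit 392) (.spl (nat_lit 0) (nat_lit 340)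
(.spl (nat_lit 2) (nat_lit 320)
(.leaf p086_l74)
(.trZ (nat_lit 9) (nat_lit 100) (nat_lit 82) (nat_lit 44) (nat_lit 16) (.spl (nat_lit 0) (nat_lit 330)
(.spl (nat_lit 1) (nat_lit 250)
(.trX (nat_lit 13) (nat_lit 83) (nat_lit 39) (nat_lit 100) (nat_lit 388) (.spl (nat_lit 2) (nat_lit 360)
(.leaf p086_l75)
(.trZ (nat_lit 9) (nat_lit 100) (nat_lit 61) (nat_lit 68) (nat_lit 48) (.spl (nat_lit 4) (nat_lit 240)
(.trX (nat_lit 22) (nat_lit 61) (nat_lit 68) (nat_lit 100) (nat_lit 352) (.leaf p086_l76))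
(.trZ (nat_lit 9) (nat_lit 100) (nat_lit 61) (nat_lit 92) (nat_lit 112) (.leaf p086_l77))))))
(.trX (nat_lit 19) (nat_lit 100) (nat_lit 64) (nat_lit 95) (nat_lit 360) (.leaf p086_l78)))
(.trX (nat_lit 13) (nat_lit 80) (nat_lit 41) (nat_lit 100) (nat_lit 384) (.trX (nat_lit 16) (nat_lit 83) (nat_lit 98) (nat_lit 100) (nat_lit 288) (.spl (nat_lit 1) (nat_lit 250)
(.trX (nat_lit 13) (nat_lit 78) (nat_lit 45) (nat_lit 100) (nat_lit 380) (.spl (nat_lit 6) (nat_lit 20)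
(.spl (nat_lit 2) (nat_lit 360)
(.leaf p086_l79)
(.trZ (nat_lit 9) (nat_lit 100) (nat_lit 61) (nat_lit 68) (nat_lit 48) (.leaf p086_l80)))
(.leaf p086_l81)))
(.trX (nat_lit 19) (nat_lit 100) (nat_lit 64) (nat_lit 95) (nat_lit 360) (.leaf p086_l82))))))))
(.trX (nat_lit 13) (nat_lit 75) (nat_lit 48) (nat_lit 100) (nat_lit 380) (.trX (nat_lit 16) (nat_lit 77) (nat_lit 100) (nat_lit 99) (nat_lit 276) (.spl (nat_lit 2) (nat_lit 320)
(.leaf p086_l83)
(.trZ (nat_lit 9) (nat_lit 100) (nat_lit 82) (nat_lit 44) (nat_lit 16) (.spl (nat_lit 6) (nat_lit 20)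
(.spl (nat_lit 1) (nat_lit 250)
(.trX (nat_lit 13) (nat_lit 74) (nat_lit 52) (nat_lit 100) (nat_lit 376) (.spl (nat_lit 0) (nat_lit 350)
(.leaf p086_l84)
(.trX (nat_lit 13) (nat_lit 68) (nat_lit 58) (nat_lit 100) (nat_lit 368) (.trX (nat_lit 16) (nat_lit 69) (nat_lit 100) (nat_lit 96) (nat_lit 264) (.leaf p086_l85)))))
(.trX (nat_lit 19) (nat_lit 100) (nat_lit 64) (nat_lit 95) (nat_lit 360) (.leaf p086_l86)))
(.spl (nat_lit 0) (nat_lit 350)
(.leaf p086_l87)
(.trX (nat_lit 13) (nat_lit 69) (nat_lit 54) (nat_lit 100) (nat_lit 372) (.trX (nat_lit 16) (nat_lit 69) (nat_lit 100) (nat_lit 96) (nat_lit 264) (.spl (nat_lit 0) (nat_lit 355)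
(.leaf p086_l88)
(.trX (nat_lit 13) (nat_lit 66) (nat_lit 58) (nat_lit 100) (nat_lit 368) (.trX (nat_lit 16) (nat_lit 66) (nat_lit 100) (nat_lit 95) (nat_lit 256) (.leaf p086_l89))))))))))))))
(.trX (nat_lit 19) (nat_lit 100) (nat_lit 69) (nat_lit 96) (nat_lit 352) (.spl (nat_lit 2) (nat_lit 320)
(.leaf p086_l90)
(.trZ (nat_lit 9) (nat_lit 100) (nat_lit 82) (nat_lit 44) (nat_lit 16) (.spl (nat_lit 0) (nat_lit 340)
(.leaf p086_l91)
(.trX (nat_lit 13) (nat_lit 78) (nat_lit 39) (nat_lit 100) (nat_lit 388) (.trX (nat_lit 16) (nat_lit 77) (nat_lit 100) (nat_lit 99) (nat_lit 276) (.leaf p086_l92))))))))) (by decide +kernel)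
noncomputable def p086_l93 : Lf2 := ⟨nat_lit 0, nat_lit 10, [nat_lit 0, nat_lit 5, nat_lit 5, nat_lit 20], true, nat_lit 0, nat_lit 160, nat_lit 0, nat_lit 364, ⟨nat_lit 0, nat_lit 1000, nat_lit 0, nat_lit 6, nat_lit 194, nat_lit 1000, nat_lit 65, nat_lit 0, nat_lit 0, nat_lit 0, nat_lit 0, nat_lit 0, nat_lit 0, nat_lit 0, nat_lit 0, nat_lit 5000000, false, false⟩,
 nat_lit 0, nat_lit 5218, nat_lit 0, nat_lit 0, nat_lit 3913, nat_lit 0, nat_lit 833, nat_lit 0, nat_lit 0, nat_lit 0, nat_lit 0, nat_lit 0, nat_lit 0, nat_lit 0, nat_lit 23, nat_lit 1000000, nat_lit 0, nat_lit 0, [(nat_lit 18, [(nat_lit 2, nat_lit 1000)])],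
 ⟨p086_k0, nat_lit 0, nat_lit 0, nat_lit 478, nat_lit 0, nat_lit 819836, [nat_lit 1885866667, nat_lit 1413333334, nat_lit 16800000], [], [nat_lit 25530462491, nat_lit 23510783193, nat_lit 23147628230, nat_lit 24055424385, nat_lit 20698942714, nat_lit 21615477184, nat_lit 25336389565, nat_lit 23935110354], nat_lit 1271250, nat_lit 1271250, nat_lit 382400, nat_lit 1731000, nat_lit 0, nat_lit 1100001, [nat_lit 490000, nat_lit 1100000, nat_lit 1442500], [nat_lit 6, nat_lit 40, nat_lit 40, nat_lit 80, nat_lit 3, nat_lit 317, nat_lit 100, nat_lit 12]⟩, C1.Rw.none,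
 ⟨nat_lit 3872, nat_lit 4473, ⟨.ofNat (nat_lit 311945), .ofNat (nat_lit 611083), .ofNat (nat_lit 355043), .ofNat (nat_lit 654181), .ofNat (nat_lit 324151), .ofNat (nat_lit 608080), .ofNat (nat_lit 367703), .ofNat (nat_lit 651631)⟩, ⟨.ofNat (nat_lit 0), .ofNat (nat_lit 302621), .ofNat (nat_lit 0), .ofNat (nat_lit 345754), .ofNat (nat_lit 0), .ofNat (nat_lit 304717), .ofNat (nat_lit 0), .ofNat (nat_lit 348304)⟩⟩, []⟩
noncomputable def p086_l94 : Lf2 := ⟨nat_lit 0, nat_lit 10, [nat_lit 0, nat_lit 5, nat_lit 5, nat_lit 20], true, nat_lit 0, nat_lit 160, nat_lit 0, nat_lit 364, ⟨nat_lit 0, nat_lit 1000, nat_lit 0, nat_lit 6, nat_lit 204, nat_lit 1000, nat_lit 65, nat_lit 0, nat_lit 0, nat_lit 0, nat_lit 0, nat_lit 0, nat_lit 0, nat_lit 0, nat_lit 0, nat_lit 5000000, false, false⟩,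
 nat_lit 0, nat_lit 4732, nat_lit 0, nat_lit 0, nat_lit 3830, nat_lit 0, nat_lit 291, nat_lit 0, nat_lit 0, nat_lit 0, nat_lit 0, nat_lit 0, nat_lit 0, nat_lit 0, nat_lit 0, nat_lit 400000, nat_lit 0, nat_lit 0, [(nat_lit 21, [(nat_lit 1, nat_lit 1000)])],
 ⟨p086_k37, nat_lit 0, nat_lit 0, nat_lit 519, nat_lit 0, nat_lit 908859, [nat_lit 1355200000, nat_lit 1492800001, nat_lit 1492000000], [], [nat_lit 20056230516, nat_lit 21868305793, nat_lit 22964215020, nat_lit 24719891640, nat_lit 20402301173, nat_lit 21315203857, nat_lit 22634658616, nat_lit 23448284636], nat_lit 1271250, nat_lit 1271250, nat_lit 545600, nat_lit 1744500, nat_lit 0, nat_lit 1100001, [nat_lit 490000, nat_lit 1100000, nat_lit 1442500], [nat_lit 6, nat_lit 40, nat_lit 40, nat_lit 80, nat_lit 3, nat_lit 317, nat_lit 100, nat_lit 12]⟩, C1.Rw.none,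
 ⟨nat_lit 3162, nat_lit 3873, ⟨.ofNat (nat_lit 362778), .ofNat (nat_lit 608082), .ofNat (nat_lit 406307), .ofNat (nat_lit 651611), .ofNat (nat_lit 373492), .ofNat (nat_lit 605237), .ofNat (nat_lit 417744), .ofNat (nat_lit 649490)⟩, ⟨.ofNat (nat_lit 0), .ofNat (nat_lit 304717), .ofNat (nat_lit 0), .ofNat (nat_lit 348304), .ofNat (nat_lit 0), .ofNat (nat_lit 306116), .ofNat (nat_lit 0), .ofNat (nat_lit 350426)⟩⟩, []⟩
noncomputable def p086_l95 : Lf2 := ⟨nat_lit 0, nat_lit 10, [nat_lit 0, nat_lit 5, nat_lit 5, nat_lit 20], true, nat_lit 160, nat_lit 300, nat_lit 0, nat_lit 364, ⟨nat_lit 0, nat_lit 1000, nat_lit 0, nat_lit 6, nat_lit 190, nat_lit 1000, nat_lit 177, nat_lit 0, nat_lit 0, nat_lit 0, nat_lit 0, nat_lit 0, nat_lit 0, nat_lit 0, nat_lit 0, nat_lit 5000000, false, false⟩,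
 nat_lit 0, nat_lit 6053, nat_lit 0, nat_lit 0, nat_lit 4539, nat_lit 0, nat_lit 0, nat_lit 0, nat_lit 0, nat_lit 0, nat_lit 0, nat_lit 0, nat_lit 0, nat_lit 0, nat_lit 23, nat_lit 1000000, nat_lit 0, nat_lit 0, [(nat_lit 18, [(nat_lit 2, nat_lit 1000)])],
 ⟨p086_k0, nat_lit 0, nat_lit 0, nat_lit 340, nat_lit 0, nat_lit 699263, [nat_lit 1885866667, nat_lit 1413333334, nat_lit 16800000], [], [nat_lit 22027464587, nat_lit 19684677893, nat_lit 19590812705, nat_lit 21077714580, nat_lit 23169370893, nat_lit 24766142075, nat_lit 27030591714, nat_lit 26150555124], nat_lit 1271250, nat_lit 1271250, nat_lit 382400, nat_lit 1731000, nat_lit 1100001, nat_lit 2298750, [nat_lit 490000, nat_lit 1100000, nat_lit 1442500], [nat_lit 6, nat_lit 40, nat_lit 40, nat_lit 80, nat_lit 3, nat_lit 373, nat_lit 150, nat_lit 14]⟩, C1.Rw.none,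
 ⟨nat_lit 3872, nat_lit 4473, ⟨.ofNat (nat_lit 311945), .ofNat (nat_lit 611083), .ofNat (nat_lit 333494), .ofNat (nat_lit 632632), .ofNat (nat_lit 324151), .ofNat (nat_lit 608080), .ofNat (nat_lit 345927), .ofNat (nat_lit 629856)⟩, ⟨.ofNat (nat_lit 302621), .ofNat (nat_lit 540545), .ofNat (nat_lit 345754), .ofNat (nat_lit 583678), .ofNat (nat_lit 304717), .ofNat (nat_lit 530543), .ofNat (nat_lit 348304), .ofNat (nat_lit 574129)⟩⟩, [⟨nat_lit 16, nat_lit 87, nat_lit 95, nat_lit 100, nat_lit 316977333⟩]⟩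
noncomputable def p086_l96 : Lf2 := ⟨nat_lit 0, nat_lit 10, [nat_lit 0, nat_lit 5, nat_lit 5, nat_lit 20], false, nat_lit 160, nat_lit 300, nat_lit 0, nat_lit 352, ⟨nat_lit 159, nat_lit 841, nat_lit 0, nat_lit 6, nat_lit 204, nat_lit 841, nat_lit 177, nat_lit 0, nat_lit 0, nat_lit 0, nat_lit 0, nat_lit 0, nat_lit 0, nat_lit 0, nat_lit 0, nat_lit 5000000, false, false⟩,
 nat_lit 0, nat_lit 5704, nat_lit 0, nat_lit 0, nat_lit 4277, nat_lit 1028, nat_lit 992, nat_lit 0, nat_lit 0, nat_lit 352, nat_lit 0, nat_lit 0, nat_lit 0, nat_lit 0, nat_lit 0, nat_lit 336400, nat_lit 0, nat_lit 0, [(nat_lit 18, [(nat_lit 1, nat_lit 841)])],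
 ⟨p086_k27, nat_lit 0, nat_lit 0, nat_lit 369, nat_lit 0, nat_lit 819836, [nat_lit 1463484001, nat_lit 1992803067, nat_lit 2664177733], [], [nat_lit 21525521950, nat_lit 20342561716, nat_lit 21990643162, nat_lit 22885164218, nat_lit 23518317099, nat_lit 24396539587, nat_lit 26488368198, nat_lit 25989803629], nat_lit 1271250, nat_lit 1271250, nat_lit 490000, nat_lit 1740000, nat_lit 1100001, nat_lit 2298750, [nat_lit 490000, nat_lit 780000, nat_lit 1435000], [nat_lit 85, nat_lit 40, nat_lit 40, nat_lit 80, nat_lit 16, nat_lit 373, nat_lit 150, nat_lit 14]⟩, ⟨p086_k28, nat_lit 0, nat_lit 0, nat_lit 173, nat_lit 0, nat_lit 0, [nat_lit 745392000, nat_lit 993750000, nat_lit 1564878000], [], [nat_lit 3070466678, nat_lit 3290644264, nat_lit 3535055694, nat_lit 3697455984, nat_lit 4090920662, nat_lit 4221958069, nat_lit 4231656798, nat_lit 4327693178], nat_lit 0, nat_lit 0, nat_lit 0, nat_lit 0, nat_lit 0, nat_lit 0, [], [nat_lit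 11, nat_lit 40, nat_lit 40, nat_lit 80, nat_lit 1, nat_lit 456, nat_lit 225, nat_lit 13]⟩,
 ⟨nat_lit 3872, nat_lit 4473, ⟨.ofNat (nat_lit 360688), .ofNat (nat_lit 632632), .ofNat (nat_lit 382237), .ofNat (nat_lit 654181), .ofNat (nat_lit 371739), .ofNat (nat_lit 629856), .ofNat (nat_lit 393514), .ofNat (nat_lit 651631)⟩, ⟨.ofNat (nat_lit 302621), .ofNat (nat_lit 540545), .ofNat (nat_lit 345754), .ofNat (nat_lit 583678), .ofNat (nat_lit 304717), .ofNat (nat_lit 530543), .ofNat (nat_lit 348304), .ofNat (nat_lit 574129)⟩⟩, [⟨nat_lit 16, nat_lit 81, nat_lit 100, nat_lit 92, nat_lit 295951302⟩, ⟨nat_lit 19, nat_lit 100, nat_lit 82, nat_lit 92, nat_lit 43033376⟩]⟩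
noncomputable def p086_l97 : Lf2 := ⟨nat_lit 0, nat_lit 10, [nat_lit 0, nat_lit 5, nat_lit 5, nat_lit 20], true, nat_lit 160, nat_lit 276, nat_lit 0, nat_lit 364, ⟨nat_lit 0, nat_lit 1000, nat_lit 0, nat_lit 6, nat_lit 204, nat_lit 1000, nat_lit 167, nat_lit 0, nat_lit 0, nat_lit 0, nat_lit 0, nat_lit 0, nat_lit 0, nat_lit 0, nat_lit 0, nat_lit 5000000, false, false⟩,
 nat_lit 0, nat_lit 4615, nat_lit 0, nat_lit 0, nat_lit 3735, nat_lit 0, nat_lit 310, nat_lit 0, nat_lit 0, nat_lit 0, nat_lit 0, nat_lit 0, nat_lit 0, nat_lit 0, nat_lit 0, nat_lit 400000, nat_lit 0, nat_lit 0, [(nat_lit 21, [(nat_lit 1, nat_lit 1000)])],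
 ⟨p086_k37, nat_lit 0, nat_lit 0, nat_lit 426, nat_lit 0, nat_lit 908859, [nat_lit 1355200000, nat_lit 1492800001, nat_lit 1492000000], [], [nat_lit 19927731211, nat_lit 20895452670, nat_lit 22310176461, nat_lit 23171375911, nat_lit 22843864225, nat_lit 23743232916, nat_lit 25010964979, nat_lit 25795875852], nat_lit 1271250, nat_lit 1271250, nat_lit 545600, nat_lit 1744500, nat_lit 1100001, nat_lit 2093250, [nat_lit 490000, nat_lit 1100000, nat_lit 1442500], [nat_lit 6, nat_lit 40, nat_lit 40, nat_lit 80, nat_lit 3, nat_lit 373, nat_lit 150, nat_lit 13]⟩, C1.Rw.none,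
 ⟨nat_lit 3162, nat_lit 3873, ⟨.ofNat (nat_lit 362778), .ofNat (nat_lit 608082), .ofNat (nat_lit 406307), .ofNat (nat_lit 651611), .ofNat (nat_lit 373492), .ofNat (nat_lit 605237), .ofNat (nat_lit 417744), .ofNat (nat_lit 649490)⟩, ⟨.ofNat (nat_lit 304717), .ofNat (nat_lit 491830), .ofNat (nat_lit 348304), .ofNat (nat_lit 535416), .ofNat (nat_lit 306116), .ofNat (nat_lit 482881), .ofNat (nat_lit 350426), .ofNat (nat_lit 527190)⟩⟩, [⟨nat_lit 4, nat_lit 100, nat_lit 67, nat_lit 88, nat_lit 359235142⟩]⟩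
noncomputable def p086_l98 : Lf2 := ⟨nat_lit 0, nat_lit 10, [nat_lit 0, nat_lit 5, nat_lit 5, nat_lit 20], false, nat_lit 0, nat_lit 300, nat_lit 0, nat_lit 160, ⟨nat_lit 1000, nat_lit 0, nat_lit 0, nat_lit 0, nat_lit 0, nat_lit 0, nat_lit 0, nat_lit 0, nat_lit 0, nat_lit 0, nat_lit 0, nat_lit 0, nat_lit 0, nat_lit 0, nat_lit 0, nat_lit 0, false, false⟩,
 nat_lit 0, nat_lit 7868, nat_lit 0, nat_lit 0, nat_lit 5900, nat_lit 7855, nat_lit 419, nat_lit 0, nat_lit 0, nat_lit 1296, nat_lit 0, nat_lit 0, nat_lit 0, nat_lit 0, nat_lit 0, nat_lit 0, nat_lit 0, nat_lit 0, [],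
 ⟨p086_k0, nat_lit 0, nat_lit 0, nat_lit 450, nat_lit 0, nat_lit 819836, [nat_lit 2032000001, nat_lit 4688000000, nat_lit 6250000000], [], [nat_lit 33109754000, nat_lit 33936684600, nat_lit 38127171760, nat_lit 38764399241, nat_lit 32631124700, nat_lit 33193887700, nat_lit 36144553060, nat_lit 36546429810], nat_lit 1271250, nat_lit 1271250, nat_lit 1271250, nat_lit 1271250, nat_lit 0, nat_lit 2118750, [nat_lit 490000, nat_lit 1100000, nat_lit 1442500], [nat_lit 6, nat_lit 40, nat_lit 40, nat_lit 80, nat_lit 3, nat_lit 289, nat_lit 75, nat_lit 10]⟩, ⟨p086_k1, nat_lit 0, nat_lit 0, nat_lit 249, nat_lit 0, nat_lit 0, [nat_lit 4688000000, nat_lit 7968000000, nat_lit 11872000000], [], [nat_lit 26058550780, nat_lit 28357059440, nat_lit 38482636506, nat_lit 40047890612, nat_lit 20124624380, nat_lit 22059898120, nat_lit 31316828124, nat_lit 32655710381], nat_lit 0, nat_lit 0, nat_lit 0, nat_lit 0, nat_lit 0, nat_lit 0, [], [nat_lit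 21, nat_lit 40, nat_lit 40, nat_lit 80, nat_lit 14, nat_lit 456, nat_lit 225, nat_lit 11]⟩,
 zbF0, [⟨nat_lit 16, nat_lit 81, nat_lit 100, nat_lit 92, nat_lit 133557295⟩, ⟨nat_lit 21, nat_lit 84, nat_lit 100, nat_lit 84, nat_lit 62525903⟩]⟩
noncomputable def p086_l99 : Lf2 := ⟨nat_lit 0, nat_lit 10, [nat_lit 0, nat_lit 5, nat_lit 5, nat_lit 20], false, nat_lit 0, nat_lit 160, nat_lit 160, nat_lit 364, ⟨nat_lit 1000, nat_lit 0, nat_lit 0, nat_lit 0, nat_lit 0, nat_lit 0, nat_lit 0, nat_lit 0, nat_lit 0, nat_lit 0, nat_lit 0, nat_lit 0, nat_lit 0, nat_lit 0, nat_lit 0, nat_lit 0, false, false⟩,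
 nat_lit 0, nat_lit 8152, nat_lit 0, nat_lit 0, nat_lit 6114, nat_lit 6019, nat_lit 468, nat_lit 0, nat_lit 0, nat_lit 0, nat_lit 0, nat_lit 0, nat_lit 0, nat_lit 0, nat_lit 0, nat_lit 0, nat_lit 0, nat_lit 0, [],
 ⟨p086_k0, nat_lit 0, nat_lit 0, nat_lit 450, nat_lit 0, nat_lit 819836, [nat_lit 2032000001, nat_lit 4688000000, nat_lit 6250000000], [], [nat_lit 31926471880, nat_lit 32766172716, nat_lit 37982583226, nat_lit 39376135103, nat_lit 29372712640, nat_lit 30123085636, nat_lit 34149018906, nat_lit 34689808566], nat_lit 1271250, nat_lit 1271250, nat_lit 1271250, nat_lit 1271250, nat_lit 0, nat_lit 1100001, [nat_lit 490000, nat_lit 1100000, nat_lit 1442500], [nat_lit 6, nat_lit 40, nat_lit 40, nat_lit 80, nat_lit 3, nat_lit 249, nat_lit 40, nat_lit 9]⟩, ⟨p086_k1, nat_lit 0, nat_lit 0, nat_lit 100, nat_lit 0, nat_lit 0, [nat_lit 4688000000, nat_lit 7968000000, nat_lit 11872000000], [], [nat_lit 15216375856, nat_lit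 17870871780, nat_lit 27285332246, nat_lit 29014956821, nat_lit 26363450112, nat_lit 27820695893, nat_lit 34524751570, nat_lit 35416298216], nat_lit 0, nat_lit 0, nat_lit 0, nat_lit 0, nat_lit 0, nat_lit 0, [], [nat_lit 21, nat_lit 40, nat_lit 40, nat_lit 80, nat_lit 14, nat_lit 538, nat_lit 300, nat_lit 13]⟩,
 zbF0, [⟨nat_lit 7, nat_lit 77, nat_lit 100, nat_lit 91, nat_lit 462473756⟩]⟩
noncomputable def p086_l100 : Lf2 := ⟨nat_lit 0, nat_lit 10, [nat_lit 0, nat_lit 5, nat_lit 5, nat_lit 20], false, nat_lit 160, nat_lit 300, nat_lit 160, nat_lit 364, ⟨nat_lit 1000, nat_lit 0, nat_lit 0, nat_lit 0, nat_lit 0, nat_lit 0, nat_lit 0, nat_lit 0, nat_lit 0, nat_lit 0, nat_lit 0, nat_lit 0, nat_lit 0, nat_lit 0, nat_lit 0, nat_lit 0, false, false⟩,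
 nat_lit 0, nat_lit 8682, nat_lit 0, nat_lit 0, nat_lit 6511, nat_lit 5823, nat_lit 471, nat_lit 0, nat_lit 0, nat_lit 0, nat_lit 0, nat_lit 0, nat_lit 0, nat_lit 0, nat_lit 0, nat_lit 0, nat_lit 0, nat_lit 0, [],
 ⟨p086_k0, nat_lit 0, nat_lit 0, nat_lit 330, nat_lit 0, nat_lit 728851, [nat_lit 2032000001, nat_lit 4688000000, nat_lit 6250000000], [], [nat_lit 25669849376, nat_lit 26132654504, nat_lit 31727437355, nat_lit 32357612250, nat_lit 28424292141, nat_lit 28796951402, nat_lit 34558407231, nat_lit 35022733624], nat_lit 1271250, nat_lit 1271250, nat_lit 1271250, nat_lit 1271250, nat_lit 1100001, nat_lit 2298750, [nat_lit 490000, nat_lit 1100000, nat_lit 1442500], [nat_lit 6, nat_lit 40, nat_lit 40, nat_lit 80, nat_lit 3, nat_lit 289, nat_lit 75, nat_lit 9]⟩, ⟨p086_k1, nat_lit 0, nat_lit 0, nat_lit 100, nat_lit 0, nat_lit 0, [nat_lit 4688000000, nat_lit 7968000000, nat_lit 11872000000], [], [nat_lit 15496925552, nat_lit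 18105950260, nat_lit 27315410208, nat_lit 28805247856, nat_lit 26474428291, nat_lit 27917628282, nat_lit 34274221387, nat_lit 35167556102], nat_lit 0, nat_lit 0, nat_lit 0, nat_lit 0, nat_lit 0, nat_lit 0, [], [nat_lit 21, nat_lit 40, nat_lit 40, nat_lit 80, nat_lit 14, nat_lit 538, nat_lit 300, nat_lit 13]⟩,
 zbF0, [⟨nat_lit 16, nat_lit 87, nat_lit 95, nat_lit 100, nat_lit 361844607⟩, ⟨nat_lit 19, nat_lit 100, nat_lit 77, nat_lit 91, nat_lit 429855961⟩]⟩
noncomputable def p086_l101 : Lf2 := ⟨nat_lit 0, nat_lit 10, [nat_lit 0, nat_lit 5, nat_lit 5, nat_lit 20], false, nat_lit 160, nat_lit 288, nat_lit 160, nat_lit 364, ⟨nat_lit 1000, nat_lit 0, nat_lit 0, nat_lit 0, nat_lit 0, nat_lit 0, nat_lit 0, nat_lit 0, nat_lit 0, nat_lit 0, nat_lit 0, nat_lit 0, nat_lit 0, nat_lit 0, nat_lit 0, nat_lit 0, false, false⟩,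
 nat_lit 0, nat_lit 6418, nat_lit 0, nat_lit 0, nat_lit 5003, nat_lit 5260, nat_lit 1749, nat_lit 0, nat_lit 0, nat_lit 0, nat_lit 0, nat_lit 0, nat_lit 0, nat_lit 0, nat_lit 0, nat_lit 0, nat_lit 0, nat_lit 0, [],
 ⟨p086_k12, nat_lit 0, nat_lit 0, nat_lit 346, nat_lit 0, nat_lit 777478, [nat_lit 2032000001, nat_lit 4688000000, nat_lit 6250000000], [], [nat_lit 23186306317, nat_lit 23597061849, nat_lit 30135285729, nat_lit 30697065205, nat_lit 25527872883, nat_lit 25875657664, nat_lit 32660891422, nat_lit 33098174005], nat_lit 1271250, nat_lit 1271250, nat_lit 1271250, nat_lit 1271250, nat_lit 1100001, nat_lit 2196000, [nat_lit 490000, nat_lit 1100000, nat_lit 1442500], [nat_lit 6, nat_lit 40, nat_lit 40, nat_lit 80, nat_lit 3, nat_lit 289, nat_lit 75, nat_lit 9]⟩, ⟨p086_k1, nat_lit 0, nat_lit 0, nat_lit 99, nat_lit 0, nat_lit 0, [nat_lit 4688000000, nat_lit 7968000000, nat_lit 11872000000], [], [nat_lit 16302790240, nat_lit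 18781201200, nat_lit 27148525025, nat_lit 28622088704, nat_lit 26793207448, nat_lit 28196061620, nat_lit 33418356634, nat_lit 34232583683], nat_lit 0, nat_lit 0, nat_lit 0, nat_lit 0, nat_lit 0, nat_lit 0, [], [nat_lit 21, nat_lit 40, nat_lit 40, nat_lit 80, nat_lit 14, nat_lit 538, nat_lit 300, nat_lit 13]⟩,
 zbF0, [⟨nat_lit 16, nat_lit 83, nat_lit 98, nat_lit 100, nat_lit 371285754⟩, ⟨nat_lit 19, nat_lit 100, nat_lit 59, nat_lit 94, nat_lit 396529931⟩]⟩
noncomputable def p086_l102 : Lf2 := ⟨nat_lit 0, nat_lit 10, [nat_lit 0, nat_lit 5, nat_lit 5, nat_lit 20], false, nat_lit 0, nat_lit 276, nat_lit 0, nat_lit 364, ⟨nat_lit 1000, nat_lit 0, nat_lit 0, nat_lit 0, nat_lit 0, nat_lit 0, nat_lit 0, nat_lit 0, nat_lit 0, nat_lit 0, nat_lit 0, nat_lit 0, nat_lit 0, nat_lit 0, nat_lit 0, nat_lit 0, false, false⟩,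
 nat_lit 0, nat_lit 6250, nat_lit 0, nat_lit 0, nat_lit 5059, nat_lit 7650, nat_lit 911, nat_lit 0, nat_lit 0, nat_lit 970, nat_lit 0, nat_lit 0, nat_lit 0, nat_lit 0, nat_lit 0, nat_lit 0, nat_lit 0, nat_lit 0, [],
 ⟨p086_k37, nat_lit 0, nat_lit 0, nat_lit 451, nat_lit 0, nat_lit 822642, [nat_lit 2032000001, nat_lit 4688000000, nat_lit 6250000000], [], [nat_lit 25082266246, nat_lit 26111833209, nat_lit 35671690044, nat_lit 36324499739, nat_lit 25821817149, nat_lit 26158697224, nat_lit 32582911081, nat_lit 33041063626], nat_lit 1271250, nat_lit 1271250, nat_lit 1271250, nat_lit 1271250, nat_lit 0, nat_lit 1949250, [nat_lit 490000, nat_lit 1100000, nat_lit 1442500], [nat_lit 6, nat_lit 40, nat_lit 40, nat_lit 80, nat_lit 3, nat_lit 289, nat_lit 75, nat_lit 10]⟩, ⟨p086_k1, nat_lit 0, nat_lit 0, nat_lit 246, nat_lit 0, nat_lit 0, [nat_lit 4688000000, nat_lit 7968000000, nat_lit 11872000000], [], [nat_lit 28178530400, nat_lit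 30447582200, nat_lit 38600838521, nat_lit 39791974700, nat_lit 30333646071, nat_lit 31265927251, nat_lit 36335526234, nat_lit 36949629818], nat_lit 0, nat_lit 0, nat_lit 0, nat_lit 0, nat_lit 0, nat_lit 0, [], [nat_lit 21, nat_lit 40, nat_lit 40, nat_lit 80, nat_lit 14, nat_lit 538, nat_lit 300, nat_lit 13]⟩,
 zbF0, [⟨nat_lit 16, nat_lit 77, nat_lit 100, nat_lit 99, nat_lit 151216282⟩, ⟨nat_lit 7, nat_lit 77, nat_lit 100, nat_lit 91, nat_lit 172712087⟩]⟩
noncomputable def p086_l103 : Lf2 := ⟨nat_lit 0, nat_lit 10, [nat_lit 0, nat_lit 5, nat_lit 5, nat_lit 20], false, nat_lit 4, nat_lit 264, nat_lit 0, nat_lit 364, ⟨nat_lit 1000, nat_lit 0, nat_lit 0, nat_lit 0, nat_lit 0, nat_lit 0, nat_lit 0, nat_lit 0, nat_lit 0, nat_lit 0, nat_lit 0, nat_lit 0, nat_lit 0, nat_lit 0, nat_lit 0, nat_lit 0, false, false⟩,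
 nat_lit 0, nat_lit 5981, nat_lit 0, nat_lit 0, nat_lit 5023, nat_lit 7696, nat_lit 723, nat_lit 0, nat_lit 0, nat_lit 1043, nat_lit 0, nat_lit 0, nat_lit 0, nat_lit 0, nat_lit 0, nat_lit 0, nat_lit 0, nat_lit 0, [],
 ⟨p086_k42, nat_lit 0, nat_lit 0, nat_lit 416, nat_lit 0, nat_lit 864559, [nat_lit 2032000001, nat_lit 4688000000], [], [nat_lit 25847637881, nat_lit 26870177568, nat_lit 35683572193, nat_lit 36342915070, nat_lit 25924156141, nat_lit 26280195409, nat_lit 32425576762, nat_lit 32901724235], nat_lit 1271250, nat_lit 1271250, nat_lit 1271250, nat_lit 1271250, nat_lit 21650, nat_lit 1867650, [nat_lit 490000, nat_lit 1100000], [nat_lit 24, nat_lit 40, nat_lit 40, nat_lit 80, nat_lit 33, nat_lit 289, nat_lit 75, nat_lit 12]⟩, ⟨p086_k1, nat_lit 0, nat_lit 0, nat_lit 244, nat_lit 0, nat_lit 0, [nat_lit 4688000000, nat_lit 7968000000, nat_lit 11872000000], [], [nat_lit 27703835156, nat_lit 29979496788, nat_lit 37823398267,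 nat_lit 39045977141, nat_lit 29957278656, nat_lit 31238401265, nat_lit 36103971774, nat_lit 36735682173], nat_lit 0, nat_lit 0, nat_lit 0, nat_lit 0, nat_lit 0, nat_lit 0, [], [nat_lit 21, nat_lit 40, nat_lit 40, nat_lit 80, nat_lit 14, nat_lit 538, nat_lit 300, nat_lit 13]⟩,
 zbF0, [⟨nat_lit 16, nat_lit 69, nat_lit 100, nat_lit 96, nat_lit 160963040⟩, ⟨nat_lit 7, nat_lit 77, nat_lit 100, nat_lit 91, nat_lit 180758597⟩]⟩
noncomputable def p086_l104 : Lf2 := ⟨nat_lit 0, nat_lit 10, [nat_lit 0, nat_lit 5, nat_lit 5, nat_lit 20], false, nat_lit 0, nat_lit 300, nat_lit 0, nat_lit 364, ⟨nat_lit 0, nat_lit 1000, nat_lit 0, nat_lit 6, nat_lit 169, nat_lit 1000, nat_lit 110, nat_lit 0, nat_lit 0, nat_lit 0, nat_lit 0, nat_lit 0, nat_lit 0, nat_lit 0, nat_lit 0, nat_lit 5000000, false, false⟩,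
 nat_lit 0, nat_lit 6073, nat_lit 0, nat_lit 0, nat_lit 4554, nat_lit 0, nat_lit 0, nat_lit 0, nat_lit 0, nat_lit 0, nat_lit 0, nat_lit 0, nat_lit 0, nat_lit 0, nat_lit 23, nat_lit 1000000, nat_lit 0, nat_lit 0, [(nat_lit 18, [(nat_lit 2, nat_lit 1000)]), (nat_lit 21, [(nat_lit 2, nat_lit 1000)])],
 ⟨p086_k0, nat_lit 0, nat_lit 0, nat_lit 407, nat_lit 0, nat_lit 603070, [nat_lit 1885866667, nat_lit 1413333334, nat_lit 16800000], [], [nat_lit 25428819377, nat_lit 24292876720, nat_lit 18910836112, nat_lit 23464867440, nat_lit 23184718467, nat_lit 26384004857, nat_lit 26225777579, nat_lit 25730589592], nat_lit 1271250, nat_lit 1271250, nat_lit 382400, nat_lit 1100001, nat_lit 0, nat_lit 2118750, [nat_lit 490000, nat_lit 1100000, nat_lit 1442500], [nat_lit 6, nat_lit 40, nat_lit 40, nat_lit 80, nat_lit 3, nat_lit 345, nat_lit 125, nat_lit 13]⟩, ⟨p086_k1, nat_lit 0, nat_lit 0, nat_lit 759, nat_lit 0, nat_lit 938109, [nat_lit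 0, nat_lit 0, nat_lit 0], [], [nat_lit 0, nat_lit 0, nat_lit 0, nat_lit 0, nat_lit 0, nat_lit 0, nat_lit 0, nat_lit 0], nat_lit 1271250, nat_lit 1271250, nat_lit 382400, nat_lit 1100001, nat_lit 0, nat_lit 2570750, [nat_lit 1100000, nat_lit 1785000, nat_lit 1271250], [nat_lit 21, nat_lit 40, nat_lit 40, nat_lit 80, nat_lit 14, nat_lit 456, nat_lit 225, nat_lit 12]⟩,
 ⟨nat_lit 3162, nat_lit 4473, ⟨.ofNat (nat_lit 311562), .ofNat (nat_lit 474896), .ofNat (nat_lit 354514), .ofNat (nat_lit 517847), .ofNat (nat_lit 336623), .ofNat (nat_lit 483097), .ofNat (nat_lit 380752), .ofNat (nat_lit 527226)⟩, ⟨.ofNat (nat_lit 0), .ofNat (nat_lit 540545), .ofNat (nat_lit 0), .ofNat (nat_lit 583678), .ofNat (nat_lit 0), .ofNat (nat_lit 519453), .ofNat (nat_lit 0), .ofNat (nat_lit 563762)⟩⟩, [⟨nat_lit 4, nat_lit 100, nat_lit 74, nat_lit 90, nat_lit 112798522⟩]⟩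
noncomputable def p086_l105 : Lf2 := ⟨nat_lit 0, nat_lit 10, [nat_lit 0, nat_lit 5, nat_lit 5, nat_lit 20], false, nat_lit 0, nat_lit 300, nat_lit 0, nat_lit 364, ⟨nat_lit 149, nat_lit 851, nat_lit 0, nat_lit 6, nat_lit 226, nat_lit 851, nat_lit 111, nat_lit 0, nat_lit 0, nat_lit 0, nat_lit 0, nat_lit 0, nat_lit 0, nat_lit 0, nat_lit 0, nat_lit 5000000, false, false⟩,
 nat_lit 2701, nat_lit 4301, nat_lit 0, nat_lit 0, nat_lit 5251, nat_lit 1429, nat_lit 496, nat_lit 0, nat_lit 0, nat_lit 142, nat_lit 0, nat_lit 0, nat_lit 0, nat_lit 0, nat_lit 0, nat_lit 340400, nat_lit 0, nat_lit 0, [(nat_lit 18, [(nat_lit 1, nat_lit 851)])],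
 ⟨p086_k0, nat_lit 0, nat_lit 0, nat_lit 310, nat_lit 0, nat_lit 490017, [nat_lit 1492579467, nat_lit 2372145334, nat_lit 2599890800], [], [nat_lit 22336983076, nat_lit 22296879144, nat_lit 23306616480, nat_lit 25413157894, nat_lit 23240493826, nat_lit 24777078687, nat_lit 27457990863, nat_lit 26606296712], nat_lit 1271250, nat_lit 1271250, nat_lit 1100001, nat_lit 1785000, nat_lit 0, nat_lit 2118750, [nat_lit 490000, nat_lit 1100000, nat_lit 1442500], [nat_lit 6, nat_lit 40, nat_lit 40, nat_lit 80, nat_lit 3, nat_lit 373, nat_lit 150, nat_lit 14]⟩, ⟨p086_k1, nat_lit 0, nat_lit 0, nat_lit 643, nat_lit 0, nat_lit 762249, [nat_lit 698512000, nat_lit 1187232000, nat_lit 1768928000], [], [nat_lit 6554593148, nat_lit 5115544076, nat_lit 5044313024, nat_lit 5181083568, nat_lit 7341918146, nat_lit 6049252177, nat_lit 4773144031, nat_lit 4532958541], nat_lit 1271250, nat_lit 1271250, nat_lit 1271250, nat_lit 1271250, nat_lit 0,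 nat_lit 2570750, [nat_lit 1100000, nat_lit 1785000, nat_lit 1271250], [nat_lit 21, nat_lit 40, nat_lit 40, nat_lit 80, nat_lit 14, nat_lit 456, nat_lit 225, nat_lit 12]⟩,
 ⟨nat_lit 3872, nat_lit 4473, ⟨.ofNat (nat_lit 475111), .ofNat (nat_lit 611083), .ofNat (nat_lit 518209), .ofNat (nat_lit 654181), .ofNat (nat_lit 479021), .ofNat (nat_lit 608080), .ofNat (nat_lit 522572), .ofNat (nat_lit 651631)⟩, ⟨.ofNat (nat_lit 0), .ofNat (nat_lit 540545), .ofNat (nat_lit 0), .ofNat (nat_lit 583678), .ofNat (nat_lit 0), .ofNat (nat_lit 530543), .ofNat (nat_lit 0), .ofNat (nat_lit 574129)⟩⟩, [⟨nat_lit 4, nat_lit 100, nat_lit 81, nat_lit 92, nat_lit 137952557⟩, ⟨nat_lit 19, nat_lit 100, nat_lit 77, nat_lit 91, nat_lit 22306226⟩]⟩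
noncomputable def p086_l106 : Lf2 := ⟨nat_lit 0, nat_lit 10, [nat_lit 0, nat_lit 5, nat_lit 5, nat_lit 20], false, nat_lit 0, nat_lit 276, nat_lit 0, nat_lit 364, ⟨nat_lit 0, nat_lit 1000, nat_lit 0, nat_lit 6, nat_lit 226, nat_lit 1000, nat_lit 102, nat_lit 0, nat_lit 0, nat_lit 0, nat_lit 0, nat_lit 0, nat_lit 0, nat_lit 0, nat_lit 0, nat_lit 5000000, false, false⟩,
 nat_lit 0, nat_lit 4576, nat_lit 0, nat_lit 0, nat_lit 3704, nat_lit 0, nat_lit 461, nat_lit 0, nat_lit 0, nat_lit 0, nat_lit 0, nat_lit 0, nat_lit 0, nat_lit 0, nat_lit 0, nat_lit 400000, nat_lit 0, nat_lit 0, [(nat_lit 21, [(nat_lit 1, nat_lit 1000)])],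
 ⟨p086_k37, nat_lit 0, nat_lit 0, nat_lit 340, nat_lit 0, nat_lit 549297, [nat_lit 1355200000, nat_lit 1492800001, nat_lit 1492000000], [], [nat_lit 19835379376, nat_lit 21852961440, nat_lit 22747067376, nat_lit 24471632832, nat_lit 22931608125, nat_lit 23908711652, nat_lit 25530309905, nat_lit 25770843701], nat_lit 1271250, nat_lit 1271250, nat_lit 1100001, nat_lit 1785000, nat_lit 0, nat_lit 1949250, [nat_lit 490000, nat_lit 1100000, nat_lit 1442500], [nat_lit 6, nat_lit 40, nat_lit 40, nat_lit 80, nat_lit 3, nat_lit 373, nat_lit 150, nat_lit 14]⟩, ⟨p086_k1, nat_lit 0, nat_lit 0, nat_lit 711, nat_lit 0, nat_lit 938109, [nat_lit 0, nat_lit 0, nat_lit 0], [], [nat_lit 0, nat_lit 0, nat_lit 0, nat_lit 0, nat_lit 0, nat_lit 0, nat_lit 0, nat_lit 0], nat_lit 1271250, nat_lit 1271250, nat_lit 1271250, nat_lit 1271250, nat_lit 0, nat_lit 2570750, [nat_lit 1100000, nat_lit 1785000, nat_lit 1271250], [nat_lit 21, nat_lit 40,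 nat_lit 40, nat_lit 80, nat_lit 14, nat_lit 456, nat_lit 225, nat_lit 12]⟩,
 ⟨nat_lit 3162, nat_lit 3873, ⟨.ofNat (nat_lit 478975), .ofNat (nat_lit 608082), .ofNat (nat_lit 522504), .ofNat (nat_lit 651611), .ofNat (nat_lit 483267), .ofNat (nat_lit 605237), .ofNat (nat_lit 527519), .ofNat (nat_lit 649490)⟩, ⟨.ofNat (nat_lit 0), .ofNat (nat_lit 491830), .ofNat (nat_lit 0), .ofNat (nat_lit 535416), .ofNat (nat_lit 0), .ofNat (nat_lit 482881), .ofNat (nat_lit 0), .ofNat (nat_lit 527190)⟩⟩, [⟨nat_lit 16, nat_lit 77, nat_lit 100, nat_lit 99, nat_lit 102544907⟩]⟩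
noncomputable def p086_l107 : Lf2 := ⟨nat_lit 0, nat_lit 10, [nat_lit 0, nat_lit 5, nat_lit 5, nat_lit 20], false, nat_lit 0, nat_lit 160, nat_lit 0, nat_lit 364, ⟨nat_lit 360, nat_lit 640, nat_lit 0, nat_lit 6, nat_lit 302, nat_lit 640, nat_lit 65, nat_lit 0, nat_lit 0, nat_lit 0, nat_lit 0, nat_lit 0, nat_lit 0, nat_lit 0, nat_lit 0, nat_lit 5000000, true, true⟩,
 nat_lit 5676, nat_lit 0, nat_lit 0, nat_lit 0, nat_lit 4257, nat_lit 3004, nat_lit 18, nat_lit 0, nat_lit 0, nat_lit 254, nat_lit 0, nat_lit 0, nat_lit 0, nat_lit 0, nat_lit 0, nat_lit 640000, nat_lit 0, nat_lit 0, [(nat_lit 18, [(nat_lit 2, nat_lit 640)]), (nat_lit 21, [(nat_lit 2, nat_lit 640)])],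
 ⟨p086_k0, nat_lit 0, nat_lit 0, nat_lit 373, nat_lit 0, nat_lit 603070, [nat_lit 1820714667, nat_lit 2356693334, nat_lit 1966352000], [], [nat_lit 26030522591, nat_lit 27638552291, nat_lit 32862703493, nat_lit 35198742691, nat_lit 25082159975, nat_lit 26496672631, nat_lit 29852103620, nat_lit 31029990910], nat_lit 1271250, nat_lit 1271250, nat_lit 1271250, nat_lit 1271250, nat_lit 0, nat_lit 1100001, [nat_lit 490000, nat_lit 1100000, nat_lit 1442500], [nat_lit 6, nat_lit 40, nat_lit 40, nat_lit 80, nat_lit 3, nat_lit 249, nat_lit 40, nat_lit 9]⟩, ⟨p086_k1, nat_lit 0, nat_lit 0, nat_lit 688, nat_lit 0, nat_lit 938109, [nat_lit 1687680000, nat_lit 2868480000, nat_lit 4273920000], [], [nat_lit 14069476600, nat_lit 14299702312, nat_lit 15468441092, nat_lit 15533974041, nat_lit 12761302325, nat_lit 12837497885, nat_lit 13498981219, nat_lit 13812300769], nat_lit 1271250, nat_lit 1271250, nat_lit 1271250, nat_lit 1271250, nat_lit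 0, nat_lit 2570750, [nat_lit 1100000, nat_lit 1785000, nat_lit 1271250], [nat_lit 21, nat_lit 40, nat_lit 40, nat_lit 80, nat_lit 14, nat_lit 538, nat_lit 300, nat_lit 13]⟩,
 ⟨nat_lit 3162, nat_lit 4473, ⟨.ofNat (nat_lit 611007), .ofNat (nat_lit 876224), .ofNat (nat_lit 653959), .ofNat (nat_lit 919290), .ofNat (nat_lit 605159), .ofNat (nat_lit 842980), .ofNat (nat_lit 649288), .ofNat (nat_lit 887222)⟩, ⟨.ofNat (nat_lit 0), .ofNat (nat_lit 302621), .ofNat (nat_lit 0), .ofNat (nat_lit 345754), .ofNat (nat_lit 0), .ofNat (nat_lit 306116), .ofNat (nat_lit 0), .ofNat (nat_lit 350426)⟩⟩, [⟨nat_lit 19, nat_lit 100, nat_lit 77, nat_lit 91, nat_lit 6071473⟩, ⟨nat_lit 10, nat_lit 100, nat_lit 53, nat_lit 80, nat_lit 98369952⟩]⟩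
noncomputable def p086_l108 : Lf2 := ⟨nat_lit 0, nat_lit 10, [nat_lit 0, nat_lit 5, nat_lit 5, nat_lit 20], false, nat_lit 160, nat_lit 300, nat_lit 0, nat_lit 364, ⟨nat_lit 334, nat_lit 666, nat_lit 0, nat_lit 6, nat_lit 299, nat_lit 666, nat_lit 177, nat_lit 0, nat_lit 0, nat_lit 0, nat_lit 0, nat_lit 0, nat_lit 0, nat_lit 0, nat_lit 0, nat_lit 5000000, true, true⟩,
 nat_lit 5140, nat_lit 0, nat_lit 0, nat_lit 0, nat_lit 3855, nat_lit 2721, nat_lit 0, nat_lit 0, nat_lit 0, nat_lit 231, nat_lit 0, nat_lit 0, nat_lit 0, nat_lit 0, nat_lit 0, nat_lit 639600, nat_lit 0, nat_lit 0, [(nat_lit 18, [(nat_lit 1, nat_lit 44), (nat_lit 2, nat_lit 622)])],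
 ⟨p086_k0, nat_lit 0, nat_lit 0, nat_lit 226, nat_lit 0, nat_lit 430316, [nat_lit 1798766934, nat_lit 2302522667, nat_lit 1898104800], [], [nat_lit 23715119155, nat_lit 24621049815, nat_lit 29245227592, nat_lit 29915733118, nat_lit 27069224190, nat_lit 27781039383, nat_lit 31535625831, nat_lit 32082351529], nat_lit 1271250, nat_lit 1271250, nat_lit 1271250, nat_lit 1271250, nat_lit 1100001, nat_lit 2298750, [nat_lit 490000, nat_lit 1100000, nat_lit 1442500], [nat_lit 6, nat_lit 40, nat_lit 40, nat_lit 80, nat_lit 3, nat_lit 289, nat_lit 75, nat_lit 9]⟩, ⟨p086_k1, nat_lit 0, nat_lit 0, nat_lit 553, nat_lit 0, nat_lit 669380, [nat_lit 1565792000, nat_lit 2661312000, nat_lit 3965248000], [], [nat_lit 12323348576, nat_lit 12498822144, nat_lit 14166151656, nat_lit 14242709572, nat_lit 11595804925, nat_lit 11644273900, nat_lit 12464458607, nat_lit 12487568840], nat_lit 1271250, nat_lit 1271250, nat_lit 1271250, nat_lit 1271250,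 nat_lit 0, nat_lit 2570750, [nat_lit 1100000, nat_lit 1785000, nat_lit 1271250], [nat_lit 21, nat_lit 40, nat_lit 40, nat_lit 80, nat_lit 14, nat_lit 538, nat_lit 300, nat_lit 13]⟩,
 ⟨nat_lit 3872, nat_lit 4473, ⟨.ofNat (nat_lit 611083), .ofNat (nat_lit 869421), .ofNat (nat_lit 632632), .ofNat (nat_lit 890974), .ofNat (nat_lit 608080), .ofNat (nat_lit 853283), .ofNat (nat_lit 629856), .ofNat (nat_lit 875063)⟩, ⟨.ofNat (nat_lit 302621), .ofNat (nat_lit 540545), .ofNat (nat_lit 345754), .ofNat (nat_lit 583678), .ofNat (nat_lit 304717), .ofNat (nat_lit 530543), .ofNat (nat_lit 348304), .ofNat (nat_lit 574129)⟩⟩, [⟨nat_lit 13, nat_lit 78, nat_lit 45, nat_lit 100, nat_lit 94235059⟩, ⟨nat_lit 16, nat_lit 81, nat_lit 100, nat_lit 92, nat_lit 126854952⟩, ⟨nat_lit 16, nat_lit 87, nat_lit 95, nat_lit 100, nat_lit 136996761⟩, ⟨nat_lit 7, nat_lit 72, nat_lit 100, nat_lit 89, nat_lit 46455878⟩]⟩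
noncomputable def p086_l109 : Lf2 := ⟨nat_lit 0, nat_lit 10, [nat_lit 0, nat_lit 5, nat_lit 5, nat_lit 20], false, nat_lit 160, nat_lit 276, nat_lit 0, nat_lit 364, ⟨nat_lit 271, nat_lit 729, nat_lit 0, nat_lit 6, nat_lit 291, nat_lit 729, nat_lit 167, nat_lit 0, nat_lit 0, nat_lit 0, nat_lit 0, nat_lit 0, nat_lit 0, nat_lit 0, nat_lit 0, nat_lit 5000000, true, true⟩,
 nat_lit 4299, nat_lit 0, nat_lit 0, nat_lit 0, nat_lit 3480, nat_lit 2275, nat_lit 353, nat_lit 0, nat_lit 0, nat_lit 184, nat_lit 0, nat_lit 0, nat_lit 0, nat_lit 0, nat_lit 0, nat_lit 291600, nat_lit 0, nat_lit 0, [(nat_lit 21, [(nat_lit 1, nat_lit 729)])],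
 ⟨p086_k37, nat_lit 0, nat_lit 0, nat_lit 248, nat_lit 0, nat_lit 502297, [nat_lit 1538612800, nat_lit 2358699200, nat_lit 2781418000], [], [nat_lit 23401897065, nat_lit 24355835945, nat_lit 28518087865, nat_lit 29229556265, nat_lit 26204996237, nat_lit 26993986202, nat_lit 30435818304, nat_lit 31201508329], nat_lit 1271250, nat_lit 1271250, nat_lit 1271250, nat_lit 1271250, nat_lit 1100001, nat_lit 2093250, [nat_lit 490000, nat_lit 1100000, nat_lit 1442500], [nat_lit 6, nat_lit 40, nat_lit 40, nat_lit 80, nat_lit 3, nat_lit 289, nat_lit 75, nat_lit 9]⟩, ⟨p086_k1, nat_lit 0, nat_lit 0, nat_lit 657, nat_lit 0, nat_lit 857842, [nat_lit 1270448000, nat_lit 2159328000, nat_lit 3217312000], [], [nat_lit 10596736032, nat_lit 10683264992, nat_lit 11505269806, nat_lit 11536247422, nat_lit 9554821192, nat_lit 9577645859, nat_lit 10003064017, nat_lit 9993378488], nat_lit 1271250, nat_lit 1271250, nat_lit 1271250, nat_lit 1271250,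 nat_lit 0, nat_lit 2570750, [nat_lit 1100000, nat_lit 1785000, nat_lit 1271250], [nat_lit 21, nat_lit 40, nat_lit 40, nat_lit 80, nat_lit 14, nat_lit 538, nat_lit 300, nat_lit 13]⟩,
 ⟨nat_lit 3162, nat_lit 3873, ⟨.ofNat (nat_lit 608082), .ofNat (nat_lit 833932), .ofNat (nat_lit 629847), .ofNat (nat_lit 855725), .ofNat (nat_lit 605237), .ofNat (nat_lit 818598), .ofNat (nat_lit 627364), .ofNat (nat_lit 840753)⟩, ⟨.ofNat (nat_lit 304717), .ofNat (nat_lit 491830), .ofNat (nat_lit 348304), .ofNat (nat_lit 535416), .ofNat (nat_lit 306116), .ofNat (nat_lit 482881), .ofNat (nat_lit 350426), .ofNat (nat_lit 527190)⟩⟩, [⟨nat_lit 13, nat_lit 68, nat_lit 58, nat_lit 100, nat_lit 155485980⟩, ⟨nat_lit 16, nat_lit 77, nat_lit 100, nat_lit 99, nat_lit 272258503⟩, ⟨nat_lit 7, nat_lit 72, nat_lit 100, nat_lit 89, nat_lit 35882710⟩]⟩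
noncomputable def p086_l110 : Lf2 := ⟨nat_lit 0, nat_lit 10, [nat_lit 0, nat_lit 5, nat_lit 5, nat_lit 20], false, nat_lit 160, nat_lit 300, nat_lit 0, nat_lit 352, ⟨nat_lit 512, nat_lit 488, nat_lit 0, nat_lit 6, nat_lit 307, nat_lit 488, nat_lit 176, nat_lit 0, nat_lit 0, nat_lit 0, nat_lit 0, nat_lit 0, nat_lit 0, nat_lit 0, nat_lit 0, nat_lit 5000000, true, true⟩,
 nat_lit 5979, nat_lit 0, nat_lit 0, nat_lit 0, nat_lit 4484, nat_lit 3480, nat_lit 94, nat_lit 0, nat_lit 0, nat_lit 586, nat_lit 0, nat_lit 0, nat_lit 0, nat_lit 0, nat_lit 0, nat_lit 488000, nat_lit 0, nat_lit 0, [(nat_lit 18, [(nat_lit 2, nat_lit 488)]), (nat_lit 21, [(nat_lit 2, nat_lit 488)])],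
 ⟨p086_k0, nat_lit 0, nat_lit 0, nat_lit 283, nat_lit 0, nat_lit 603070, [nat_lit 1870894934, nat_lit 2910378667, nat_lit 2983718400], [], [nat_lit 24926636673, nat_lit 26567377073, nat_lit 30053305723, nat_lit 31350054767, nat_lit 27728295869, nat_lit 29017801936, nat_lit 32232096560, nat_lit 33844628706], nat_lit 1271250, nat_lit 1271250, nat_lit 1271250, nat_lit 1271250, nat_lit 1100001, nat_lit 2298750, [nat_lit 490000, nat_lit 1100000, nat_lit 1442500], [nat_lit 6, nat_lit 40, nat_lit 40, nat_lit 80, nat_lit 3, nat_lit 289, nat_lit 75, nat_lit 9]⟩, ⟨p086_k14, nat_lit 0, nat_lit 0, nat_lit 571, nat_lit 0, nat_lit 829531, [nat_lit 2400256000, nat_lit 4079616000, nat_lit 5039104000], [], [nat_lit 17668994976, nat_lit 17895246880, nat_lit 19899015407, nat_lit 20013279930, nat_lit 17171158068, nat_lit 17255324244, nat_lit 18256084204, nat_lit 18310838216], nat_lit 1271250, nat_lit 1271250, nat_lit 1271250, nat_lit 1271250,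 nat_lit 0, nat_lit 2486000, [nat_lit 1100000, nat_lit 1785000, nat_lit 1271250], [nat_lit 29, nat_lit 40, nat_lit 40, nat_lit 80, nat_lit 17, nat_lit 538, nat_lit 300, nat_lit 15]⟩,
 ⟨nat_lit 3162, nat_lit 4473, ⟨.ofNat (nat_lit 632483), .ofNat (nat_lit 897791), .ofNat (nat_lit 653959), .ofNat (nat_lit 919290), .ofNat (nat_lit 627223), .ofNat (nat_lit 865135), .ofNat (nat_lit 649288), .ofNat (nat_lit 887222)⟩, ⟨.ofNat (nat_lit 302621), .ofNat (nat_lit 540545), .ofNat (nat_lit 345754), .ofNat (nat_lit 583678), .ofNat (nat_lit 306116), .ofNat (nat_lit 519453), .ofNat (nat_lit 350426), .ofNat (nat_lit 563762)⟩⟩, [⟨nat_lit 4, nat_lit 100, nat_lit 74, nat_lit 90, nat_lit 377216861⟩, ⟨nat_lit 19, nat_lit 100, nat_lit 82, nat_lit 92, nat_lit 81287503⟩]⟩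
noncomputable def b_V_800_600_20_29 : St := ⟨true, nat_lit 1, nat_lit 2, nat_lit 2, nat_lit 120, nat_lit 320, nat_lit 360, nat_lit 240, nat_lit 280, nat_lit 64, nat_lit 396, nat_lit 80, nat_lit 120, nat_lit 0, nat_lit 300, nat_lit 0, nat_lit 364, nat_lit 0, nat_lit 40, nat_lit 0, nat_lit 0, nat_lit 0, nat_lit 0⟩
theorem d_V_800_600_20_29 (h : EB TB.env) : Dead b_V_800_600_20_29 := chkB_sound0 h (T :=
(.st (nat_lit 1)
(.spl (nat_lit 2) (nat_lit 240)
(.spl (nat_lit 4) (nat_lit 160)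
(.spl (nat_lit 0) (nat_lit 340)
(.leaf p086_l93)
(.trZ (nat_lit 0) (nat_lit 100) (nat_lit 73) (nat_lit 85) (nat_lit 88) (.leaf p086_l94)))
(.spl (nat_lit 0) (nat_lit 340)
(.spl (nat_lit 1) (nat_lit 260)
(.leaf p086_l95)
(.trZ (nat_lit 0) (nat_lit 100) (nat_lit 84) (nat_lit 85) (nat_lit 80) (.trX (nat_lit 19) (nat_lit 100) (nat_lit 69) (nat_lit 96) (nat_lit 352) (.leaf p086_l96))))
(.trZ (nat_lit 0) (nat_lit 100) (nat_lit 73) (nat_lit 85) (nat_lit 88) (.trX (nat_lit 16) (nat_lit 77) (nat_lit 100) (nat_lit 99) (nat_lit 276) (.leaf p086_l97)))))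
(.spl (nat_lit 0) (nat_lit 340)
(.spl (nat_lit 5) (nat_lit 160)
(.leaf p086_l98)
(.spl (nat_lit 4) (nat_lit 160)
(.leaf p086_l99)
(.spl (nat_lit 0) (nat_lit 330)
(.leaf p086_l100)
(.trX (nat_lit 13) (nat_lit 83) (nat_lit 32) (nat_lit 100) (nat_lit 392) (.trX (nat_lit 16) (nat_lit 83) (nat_lit 98) (nat_lit 100) (nat_lit 288) (.leaf p086_l101))))))
(.trX (nat_lit 13) (nat_lit 78) (nat_lit 39) (nat_lit 100) (nat_lit 388) (.trX (nat_lit 16) (nat_lit 77) (nat_lit 100) (nat_lit 99) (nat_lit 276) (.spl (nat_lit 0) (nat_lit 350)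
(.leaf p086_l102)
(.trX (nat_lit 13) (nat_lit 72) (nat_lit 46) (nat_lit 100) (nat_lit 384) (.trZ (nat_lit 3) (nat_lit 100) (nat_lit 83) (nat_lit 25) (nat_lit 4) (.trX (nat_lit 16) (nat_lit 69) (nat_lit 100) (nat_lit 96) (nat_lit 264) (.leaf p086_l103)))))))))
(.spl (nat_lit 2) (nat_lit 240)
(.spl (nat_lit 2) (nat_lit 160)
(.leaf p086_l104)
(.spl (nat_lit 0) (nat_lit 340)
(.leaf p086_l105)
(.trX (nat_lit 16) (nat_lit 77) (nat_lit 100) (nat_lit 99) (nat_lit 276) (.leaf p086_l106))))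
(.spl (nat_lit 4) (nat_lit 160)
(.leaf p086_l107)
(.spl (nat_lit 1) (nat_lit 260)
(.trX (nat_lit 13) (nat_lit 84) (nat_lit 35) (nat_lit 100) (nat_lit 392) (.spl (nat_lit 0) (nat_lit 340)
(.leaf p086_l108)
(.trX (nat_lit 13) (nat_lit 75) (nat_lit 48) (nat_lit 100) (nat_lit 380) (.trX (nat_lit 16) (nat_lit 77) (nat_lit 100) (nat_lit 99) (nat_lit 276) (.leaf p086_l109)))))
(.trX (nat_lit 19) (nat_lit 100) (nat_lit 69) (nat_lit 96) (nat_lit 352) (.leaf p086_l110))))))) (by decide +kernel)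
noncomputable def p086_l111 : Lf2 := ⟨nat_lit 0, nat_lit 20, [nat_lit 5, nat_lit 5, nat_lit 5, nat_lit 20], true, nat_lit 0, nat_lit 160, nat_lit 0, nat_lit 364, ⟨nat_lit 0, nat_lit 0, nat_lit 1000, nat_lit 6, nat_lit 165, nat_lit 1000, nat_lit 65, nat_lit 1000, nat_lit 40017, nat_lit 264, nat_lit 32068, nat_lit 258, nat_lit 57260152, nat_lit 0, nat_lit 0, nat_lit 2072971, false, false⟩,
 nat_lit 0, nat_lit 0, nat_lit 0, nat_lit 5681, nat_lit 3279, nat_lit 0, nat_lit 0, nat_lit 0, nat_lit 0, nat_lit 0, nat_lit 0, nat_lit 0, nat_lit 0, nat_lit 0, nat_lit 95, nat_lit 292000, nat_lit 0, nat_lit 0, [(nat_lit 19, [(nat_lit 4, nat_lit 720), (nat_lit 5, nat_lit 280)]), (nat_lit 22, [(nat_lit 4, nat_lit 720), (nat_lit 5, nat_lit 280)])],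
 ⟨p086_k47, nat_lit 0, nat_lit 0, nat_lit 282, nat_lit 0, nat_lit 0, [nat_lit 2252192000, nat_lit 215136000], [], [nat_lit 18586701307, nat_lit 21036272453, nat_lit 18954894776, nat_lit 21216897120, nat_lit 18021317007, nat_lit 20205638154, nat_lit 18795584080, nat_lit 20750191464], nat_lit 0, nat_lit 0, nat_lit 0, nat_lit 0, nat_lit 0, nat_lit 0, [], [nat_lit 94, nat_lit 40, nat_lit 40, nat_lit 80, nat_lit 95, nat_lit 317, nat_lit 100, nat_lit 9]⟩, C1.Rw.none,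
 ⟨nat_lit 3162, nat_lit 4473, ⟨.ofNat (nat_lit 311562), .ofNat (nat_lit 474896), .ofNat (nat_lit 333038), .ofNat (nat_lit 496372), .ofNat (nat_lit 336623), .ofNat (nat_lit 483097), .ofNat (nat_lit 358687), .ofNat (nat_lit 505162)⟩, ⟨.ofNat (nat_lit 0), .ofNat (nat_lit 302621), .ofNat (nat_lit 0), .ofNat (nat_lit 345754), .ofNat (nat_lit 0), .ofNat (nat_lit 306116), .ofNat (nat_lit 0), .ofNat (nat_lit 350426)⟩⟩, [⟨nat_lit 0, nat_lit 100, nat_lit 63, nat_lit 99, nat_lit 54838486⟩, ⟨nat_lit 3, nat_lit 100, nat_lit 65, nat_lit 54, nat_lit 135905158⟩]⟩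
noncomputable def p086_l112 : Lf2 := ⟨nat_lit 0, nat_lit 20, [nat_lit 5, nat_lit 5, nat_lit 5, nat_lit 20], false, nat_lit 0, nat_lit 160, nat_lit 0, nat_lit 352, ⟨nat_lit 358, nat_lit 0, nat_lit 642, nat_lit 6, nat_lit 179, nat_lit 642, nat_lit 65, nat_lit 642, nat_lit 40017, nat_lit 264, nat_lit 15182, nat_lit 244, nat_lit 55837712, nat_lit 0, nat_lit 0, nat_lit 2252278, false, false⟩,
 nat_lit 0, nat_lit 0, nat_lit 0, nat_lit 10768, nat_lit 3562, nat_lit 6014, nat_lit 365, nat_lit 0, nat_lit 0, nat_lit 28, nat_lit 0, nat_lit 0, nat_lit 0, nat_lit 0, nat_lit 0, nat_lit 256800, nat_lit 0, nat_lit 0, [(nat_lit 19, [(nat_lit 5, nat_lit 642)]), (nat_lit 22, [(nat_lit 5, nat_lit 642)])],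
 ⟨p086_k48, nat_lit 0, nat_lit 0, nat_lit 212, nat_lit 0, nat_lit 0, [nat_lit 1354048000, nat_lit 1389318400, nat_lit 1376588000], [], [nat_lit 18579737921, nat_lit 21298454352, nat_lit 19242343849, nat_lit 21593229505, nat_lit 18118573265, nat_lit 20374085648, nat_lit 18910652752, nat_lit 21172577632], nat_lit 0, nat_lit 0, nat_lit 0, nat_lit 0, nat_lit 0, nat_lit 0, [], [nat_lit 27, nat_lit 40, nat_lit 40, nat_lit 80, nat_lit 13, nat_lit 317, nat_lit 100, nat_lit 9]⟩, ⟨p086_k49, nat_lit 0, nat_lit 0, nat_lit 235, nat_lit 0, nat_lit 0, [nat_lit 1678304000, nat_lit 2852544000, nat_lit 4250176000], [], [nat_lit 13823757364, nat_lit 14758363604, nat_lit 12553525096, nat_lit 13368212356, nat_lit 13079813106, nat_lit 13419922829, nat_lit 11257982026, nat_lit 11539372577], nat_lit 0, nat_lit 0, nat_lit 0, nat_lit 0, nat_lit 0, nat_lit 0, [], [nat_lit 21, nat_lit 40, nat_lit 40, nat_lit 80, nat_lit 14, nat_lit 428, nat_lit 200,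 nat_lit 11]⟩,
 ⟨nat_lit 3162, nat_lit 4473, ⟨.ofNat (nat_lit 360260), .ofNat (nat_lit 496372), .ofNat (nat_lit 381736), .ofNat (nat_lit 517847), .ofNat (nat_lit 383100), .ofNat (nat_lit 505162), .ofNat (nat_lit 405164), .ofNat (nat_lit 527226)⟩, ⟨.ofNat (nat_lit 0), .ofNat (nat_lit 302621), .ofNat (nat_lit 0), .ofNat (nat_lit 345754), .ofNat (nat_lit 0), .ofNat (nat_lit 306116), .ofNat (nat_lit 0), .ofNat (nat_lit 350426)⟩⟩, [⟨nat_lit 0, nat_lit 100, nat_lit 76, nat_lit 97, nat_lit 415312454⟩, ⟨nat_lit 7, nat_lit 82, nat_lit 100, nat_lit 92, nat_lit 46834014⟩]⟩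
noncomputable def p086_l113 : Lf2 := ⟨nat_lit 0, nat_lit 20, [nat_lit 5, nat_lit 5, nat_lit 5, nat_lit 20], false, nat_lit 0, nat_lit 160, nat_lit 0, nat_lit 364, ⟨nat_lit 1000, nat_lit 0, nat_lit 0, nat_lit 0, nat_lit 0, nat_lit 0, nat_lit 0, nat_lit 0, nat_lit 0, nat_lit 0, nat_lit 0, nat_lit 0, nat_lit 0, nat_lit 0, nat_lit 0, nat_lit 0, false, false⟩,
 nat_lit 0, nat_lit 0, nat_lit 0, nat_lit 16415, nat_lit 6480, nat_lit 9938, nat_lit 972, nat_lit 0, nat_lit 0, nat_lit 1189, nat_lit 0, nat_lit 0, nat_lit 0, nat_lit 0, nat_lit 0, nat_lit 0, nat_lit 0, nat_lit 0, [],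
 ⟨p086_k48, nat_lit 0, nat_lit 0, nat_lit 178, nat_lit 0, nat_lit 0, [nat_lit 2032000001, nat_lit 4688000000, nat_lit 9842000000], [], [nat_lit 22417877980, nat_lit 24256497340, nat_lit 25121210400, nat_lit 27531209120, nat_lit 18020504380, nat_lit 19569473180, nat_lit 20442544640, nat_lit 22150137200], nat_lit 0, nat_lit 0, nat_lit 0, nat_lit 0, nat_lit 0, nat_lit 0, [], [nat_lit 27, nat_lit 40, nat_lit 40, nat_lit 80, nat_lit 13, nat_lit 317, nat_lit 100, nat_lit 9]⟩, ⟨p086_k50, nat_lit 0, nat_lit 0, nat_lit 249, nat_lit 0, nat_lit 0, [nat_lit 4688000000, nat_lit 7968000000, nat_lit 14058000000], [], [nat_lit 28015267180, nat_lit 30646989620, nat_lit 30119647108, nat_lit 32243432220, nat_lit 28200000217, nat_lit 29163965174, nat_lit 28598358112, nat_lit 30675675270], nat_lit 0, nat_lit 0, nat_lit 0, nat_lit 0, nat_lit 0, nat_lit 0, [], [nat_lit 37, nat_lit 40, nat_lit 40, nat_lit 80, nat_lit 28, nat_lit 456, nat_lit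 225, nat_lit 11]⟩,
 zbF0, [⟨nat_lit 7, nat_lit 77, nat_lit 100, nat_lit 91, nat_lit 193243027⟩]⟩
noncomputable def p086_l114 : Lf2 := ⟨nat_lit 0, nat_lit 20, [nat_lit 5, nat_lit 5, nat_lit 5, nat_lit 20], false, nat_lit 0, nat_lit 160, nat_lit 0, nat_lit 364, ⟨nat_lit 587, nat_lit 0, nat_lit 413, nat_lit 6, nat_lit 226, nat_lit 413, nat_lit 65, nat_lit 413, nat_lit 40017, nat_lit 264, nat_lit 31972, nat_lit 200, nat_lit 50751041, nat_lit 0, nat_lit 0, nat_lit 2769845, false, false⟩,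
 nat_lit 0, nat_lit 0, nat_lit 0, nat_lit 10664, nat_lit 3808, nat_lit 5833, nat_lit 396, nat_lit 0, nat_lit 0, nat_lit 698, nat_lit 0, nat_lit 0, nat_lit 0, nat_lit 0, nat_lit 0, nat_lit 165200, nat_lit 0, nat_lit 0, [(nat_lit 22, [(nat_lit 5, nat_lit 413)])],
 ⟨p086_k51, nat_lit 0, nat_lit 0, nat_lit 160, nat_lit 0, nat_lit 0, [nat_lit 1595872001, nat_lit 2418812800, nat_lit 3198676000], [], [nat_lit 20537835760, nat_lit 22050182880, nat_lit 22926300352, nat_lit 24676544864, nat_lit 19288751105, nat_lit 20489799201, nat_lit 21313693310, nat_lit 22441883662], nat_lit 0, nat_lit 0, nat_lit 0, nat_lit 0, nat_lit 0, nat_lit 0, [], [nat_lit 34, nat_lit 40, nat_lit 40, nat_lit 80, nat_lit 7, nat_lit 317, nat_lit 100, nat_lit 10]⟩, ⟨p086_k50, nat_lit 0, nat_lit 0, nat_lit 249, nat_lit 0, nat_lit 0, [nat_lit 2751856000, nat_lit 4677216000, nat_lit 8252046000], [], [nat_lit 16444043576, nat_lit 17988776548, nat_lit 17679312560,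 nat_lit 18925912776, nat_lit 16552966958, nat_lit 17118811758, nat_lit 16786853782, nat_lit 18006179813], nat_lit 0, nat_lit 0, nat_lit 0, nat_lit 0, nat_lit 0, nat_lit 0, [], [nat_lit 37, nat_lit 40, nat_lit 40, nat_lit 80, nat_lit 28, nat_lit 456, nat_lit 225, nat_lit 11]⟩,
 ⟨nat_lit 3162, nat_lit 3873, ⟨.ofNat (nat_lit 478975), .ofNat (nat_lit 608082), .ofNat (nat_lit 522504), .ofNat (nat_lit 651611), .ofNat (nat_lit 483267), .ofNat (nat_lit 605237), .ofNat (nat_lit 527519), .ofNat (nat_lit 649490)⟩, ⟨.ofNat (nat_lit 0), .ofNat (nat_lit 304717), .ofNat (nat_lit 0), .ofNat (nat_lit 348304), .ofNat (nat_lit 0), .ofNat (nat_lit 306116), .ofNat (nat_lit 0), .ofNat (nat_lit 350426)⟩⟩, [⟨nat_lit 7, nat_lit 77, nat_lit 100, nat_lit 91, nat_lit 113421378⟩]⟩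
noncomputable def p086_l115 : Lf2 := ⟨nat_lit 0, nat_lit 20, [nat_lit 5, nat_lit 5, nat_lit 5, nat_lit 20], true, nat_lit 160, nat_lit 300, nat_lit 0, nat_lit 364, ⟨nat_lit 0, nat_lit 30, nat_lit 970, nat_lit 6, nat_lit 152, nat_lit 1000, nat_lit 176, nat_lit 970, nat_lit 1169, nat_lit 218, nat_lit 216600, nat_lit 329, nat_lit 47884411, nat_lit 8485373, nat_lit 10630216, nat_lit 4256634, false, false⟩,
 nat_lit 0, nat_lit 0, nat_lit 0, nat_lit 7609, nat_lit 2641, nat_lit 0, nat_lit 0, nat_lit 0, nat_lit 0, nat_lit 0, nat_lit 0, nat_lit 0, nat_lit 0, nat_lit 0, nat_lit 122, nat_lit 395500, nat_lit 0, nat_lit 0, [(nat_lit 19, [(nat_lit 0, nat_lit 30), (nat_lit 5, nat_lit 970)]), (nat_lit 22, [(nat_lit 0, nat_lit 30), (nat_lit 5, nat_lit 970)])],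
 ⟨p086_k48, nat_lit 0, nat_lit 0, nat_lit 148, nat_lit 0, nat_lit 0, [nat_lit 1969760001, nat_lit 1586422667, nat_lit 264684000], [], [nat_lit 17023497793, nat_lit 19142566238, nat_lit 17358222925, nat_lit 19361317897, nat_lit 21227391196, nat_lit 23694122931, nat_lit 21461632484, nat_lit 23652920579], nat_lit 0, nat_lit 0, nat_lit 0, nat_lit 0, nat_lit 0, nat_lit 0, [], [nat_lit 27, nat_lit 40, nat_lit 40, nat_lit 80, nat_lit 13, nat_lit 345, nat_lit 125, nat_lit 9]⟩, C1.Rw.none,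
 ⟨nat_lit 3162, nat_lit 4473, ⟨.ofNat (nat_lit 311562), .ofNat (nat_lit 406840), .ofNat (nat_lit 333038), .ofNat (nat_lit 428316), .ofNat (nat_lit 336623), .ofNat (nat_lit 422066), .ofNat (nat_lit 358687), .ofNat (nat_lit 444131)⟩, ⟨.ofNat (nat_lit 302621), .ofNat (nat_lit 540545), .ofNat (nat_lit 345754), .ofNat (nat_lit 583678), .ofNat (nat_lit 306116), .ofNat (nat_lit 519453), .ofNat (nat_lit 350426), .ofNat (nat_lit 563762)⟩⟩, [⟨nat_lit 0, nat_lit 100, nat_lit 74, nat_lit 88, nat_lit 98416071⟩, ⟨nat_lit 16, nat_lit 74, nat_lit 100, nat_lit 90, nat_lit 238998776⟩]⟩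
noncomputable def p086_l116 : Lf2 := ⟨nat_lit 0, nat_lit 20, [nat_lit 5, nat_lit 5, nat_lit 5, nat_lit 20], false, nat_lit 160, nat_lit 300, nat_lit 0, nat_lit 160, ⟨nat_lit 1000, nat_lit 0, nat_lit 0, nat_lit 0, nat_lit 0, nat_lit 0, nat_lit 0, nat_lit 0, nat_lit 0, nat_lit 0, nat_lit 0, nat_lit 0, nat_lit 0, nat_lit 0, nat_lit 0, nat_lit 0, false, false⟩,
 nat_lit 0, nat_lit 0, nat_lit 0, nat_lit 28893, nat_lit 6491, nat_lit 8317, nat_lit 0, nat_lit 0, nat_lit 0, nat_lit 1828, nat_lit 0, nat_lit 0, nat_lit 0, nat_lit 0, nat_lit 0, nat_lit 0, nat_lit 0, nat_lit 0, [],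
 ⟨p086_k48, nat_lit 0, nat_lit 0, nat_lit 79, nat_lit 0, nat_lit 0, [nat_lit 2032000001, nat_lit 4688000000, nat_lit 9842000000], [], [nat_lit 17030031812, nat_lit 21554102900, nat_lit 16886221088, nat_lit 21173147964, nat_lit 24458634242, nat_lit 28344191971, nat_lit 23765566244, nat_lit 27462183729], nat_lit 0, nat_lit 0, nat_lit 0, nat_lit 0, nat_lit 0, nat_lit 0, [], [nat_lit 27, nat_lit 40, nat_lit 40, nat_lit 80, nat_lit 13, nat_lit 345, nat_lit 125, nat_lit 9]⟩, ⟨p086_k49, nat_lit 0, nat_lit 0, nat_lit 235, nat_lit 0, nat_lit 0, [nat_lit 4688000000, nat_lit 7968000000, nat_lit 11872000000], [], [nat_lit 19511865152, nat_lit 21138327296, nat_lit 18569797392, nat_lit 20117991824, nat_lit 14154864138, nat_lit 15646994528, nat_lit 13884247888, nat_lit 15289877536], nat_lit 0, nat_lit 0, nat_lit 0, nat_lit 0, nat_lit 0, nat_lit 0, [], [nat_lit 21, nat_lit 40, nat_lit 40, nat_lit 80, nat_lit 14, nat_lit 373, nat_lit 150,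 nat_lit 10]⟩,
 zbF0, [⟨nat_lit 0, nat_lit 100, nat_lit 76, nat_lit 97, nat_lit 1034210814⟩, ⟨nat_lit 16, nat_lit 87, nat_lit 95, nat_lit 100, nat_lit 73245079⟩, ⟨nat_lit 4, nat_lit 100, nat_lit 74, nat_lit 90, nat_lit 579039226⟩]⟩
noncomputable def p086_l117 : Lf2 := ⟨nat_lit 0, nat_lit 20, [nat_lit 5, nat_lit 5, nat_lit 5, nat_lit 20], false, nat_lit 160, nat_lit 300, nat_lit 160, nat_lit 352, ⟨nat_lit 1000, nat_lit 0, nat_lit 0, nat_lit 0, nat_lit 0, nat_lit 0, nat_lit 0, nat_lit 0, nat_lit 0, nat_lit 0, nat_lit 0, nat_lit 0, nat_lit 0, nat_lit 0, nat_lit 0, nat_lit 0, false, false⟩,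
 nat_lit 0, nat_lit 0, nat_lit 0, nat_lit 5900, nat_lit 6214, nat_lit 6427, nat_lit 0, nat_lit 0, nat_lit 0, nat_lit 0, nat_lit 0, nat_lit 0, nat_lit 0, nat_lit 0, nat_lit 0, nat_lit 0, nat_lit 0, nat_lit 0, [],
 ⟨p086_k48, nat_lit 0, nat_lit 0, nat_lit 79, nat_lit 0, nat_lit 0, [nat_lit 2032000001, nat_lit 4688000000, nat_lit 9842000000], [], [nat_lit 17256858248, nat_lit 21652742600, nat_lit 17157468352, nat_lit 21324388856, nat_lit 24363510576, nat_lit 27998695134, nat_lit 23914568976, nat_lit 27188114666], nat_lit 0, nat_lit 0, nat_lit 0, nat_lit 0, nat_lit 0, nat_lit 0, [], [nat_lit 27, nat_lit 40, nat_lit 40, nat_lit 80, nat_lit 13, nat_lit 345, nat_lit 125, nat_lit 9]⟩, ⟨p086_k49, nat_lit 0, nat_lit 0, nat_lit 100, nat_lit 0, nat_lit 0, [nat_lit 4688000000, nat_lit 7968000000, nat_lit 11872000000], [], [nat_lit 11036575386, nat_lit 12910048672, nat_lit 11226640460, nat_lit 12999490676, nat_lit 24806057257, nat_lit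 26033074484, nat_lit 24100589515, nat_lit 25273439004], nat_lit 0, nat_lit 0, nat_lit 0, nat_lit 0, nat_lit 0, nat_lit 0, [], [nat_lit 21, nat_lit 40, nat_lit 40, nat_lit 80, nat_lit 14, nat_lit 428, nat_lit 200, nat_lit 11]⟩,
 zbF0, [⟨nat_lit 0, nat_lit 100, nat_lit 76, nat_lit 97, nat_lit 353633522⟩, ⟨nat_lit 23, nat_lit 100, nat_lit 63, nat_lit 88, nat_lit 414346348⟩, ⟨nat_lit 11, nat_lit 100, nat_lit 100, nat_lit 100, nat_lit 202936540⟩]⟩
noncomputable def p086_l118 : Lf2 := ⟨nat_lit 0, nat_lit 20, [nat_lit 5, nat_lit 5, nat_lit 5, nat_lit 20], false, nat_lit 160, nat_lit 300, nat_lit 0, nat_lit 364, ⟨nat_lit 26, nat_lit 974, nat_lit 0, nat_lit 6, nat_lit 213, nat_lit 974, nat_lit 177, nat_lit 0, nat_lit 0, nat_lit 0, nat_lit 0, nat_lit 0, nat_lit 43135268, nat_lit 13685239, nat_lit 10179493, nat_lit 4812761, false, false⟩,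
 nat_lit 0, nat_lit 0, nat_lit 0, nat_lit 5468, nat_lit 3281, nat_lit 490, nat_lit 0, nat_lit 0, nat_lit 0, nat_lit 0, nat_lit 0, nat_lit 0, nat_lit 0, nat_lit 0, nat_lit 0, nat_lit 243500, nat_lit 0, nat_lit 0, [(nat_lit 19, [(nat_lit 0, nat_lit 974)])],
 ⟨p086_k47, nat_lit 0, nat_lit 0, nat_lit 38, nat_lit 0, nat_lit 0, [nat_lit 1652919200, nat_lit 3404980312], [], [nat_lit 15761037072, nat_lit 17371256020, nat_lit 19428400572, nat_lit 20744831032, nat_lit 21766360433, nat_lit 23004342914, nat_lit 24333551458, nat_lit 25345445792], nat_lit 0, nat_lit 0, nat_lit 0, nat_lit 0, nat_lit 0, nat_lit 0, [], [nat_lit 94, nat_lit 40, nat_lit 40, nat_lit 80, nat_lit 95, nat_lit 373, nat_lit 150, nat_lit 10]⟩, ⟨p086_k52, nat_lit 0, nat_lit 0, nat_lit 237, nat_lit 0, nat_lit 0, [nat_lit 121888000, nat_lit 365508000], [], [nat_lit 1208141112, nat_lit 1319083008, nat_lit 1226017776, nat_lit 1304796688, nat_lit 1055404233, nat_lit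 1085783581, nat_lit 947456582, nat_lit 966334745], nat_lit 0, nat_lit 0, nat_lit 0, nat_lit 0, nat_lit 0, nat_lit 0, [], [nat_lit 145, nat_lit 40, nat_lit 40, nat_lit 80, nat_lit 144, nat_lit 456, nat_lit 225, nat_lit 11]⟩,
 ⟨nat_lit 3872, nat_lit 4473, ⟨.ofNat (nat_lit 407125), .ofNat (nat_lit 611083), .ofNat (nat_lit 450223), .ofNat (nat_lit 654181), .ofNat (nat_lit 414492), .ofNat (nat_lit 608080), .ofNat (nat_lit 458043), .ofNat (nat_lit 651631)⟩, ⟨.ofNat (nat_lit 302621), .ofNat (nat_lit 540545), .ofNat (nat_lit 345754), .ofNat (nat_lit 583678), .ofNat (nat_lit 304717), .ofNat (nat_lit 530543), .ofNat (nat_lit 348304), .ofNat (nat_lit 574129)⟩⟩, [⟨nat_lit 16, nat_lit 81, nat_lit 100, nat_lit 92, nat_lit 89723843⟩, ⟨nat_lit 16, nat_lit 87, nat_lit 95, nat_lit 100, nat_lit 103093296⟩, ⟨nat_lit 7, nat_lit 77, nat_lit 100, nat_lit 91, nat_lit 499291⟩]⟩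
noncomputable def p086_l119 : Lf2 := ⟨nat_lit 0, nat_lit 20, [nat_lit 5, nat_lit 5, nat_lit 5, nat_lit 20], true, nat_lit 160, nat_lit 276, nat_lit 0, nat_lit 364, ⟨nat_lit 0, nat_lit 1000, nat_lit 0, nat_lit 6, nat_lit 214, nat_lit 1000, nat_lit 167, nat_lit 0, nat_lit 0, nat_lit 0, nat_lit 0, nat_lit 0, nat_lit 43678265, nat_lit 13892413, nat_lit 9429322, nat_lit 4737662, false, false⟩,
 nat_lit 0, nat_lit 0, nat_lit 0, nat_lit 5074, nat_lit 3162, nat_lit 0, nat_lit 0, nat_lit 0, nat_lit 0, nat_lit 0, nat_lit 0, nat_lit 0, nat_lit 0, nat_lit 0, nat_lit 0, nat_lit 250000, nat_lit 0, nat_lit 0, [(nat_lit 22, [(nat_lit 0, nat_lit 1000)])],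
 ⟨p086_k53, nat_lit 0, nat_lit 0, nat_lit 40, nat_lit 0, nat_lit 0, [nat_lit 1568000001, nat_lit 2712400000], [], [nat_lit 17348071641, nat_lit 18928456337, nat_lit 20715404865, nat_lit 22009503785, nat_lit 21772290081, nat_lit 23060269719, nat_lit 24344929397, nat_lit 25395170220], nat_lit 0, nat_lit 0, nat_lit 0, nat_lit 0, nat_lit 0, nat_lit 0, [], [nat_lit 110, nat_lit 40, nat_lit 40, nat_lit 80, nat_lit 109, nat_lit 373, nat_lit 150, nat_lit 11]⟩, C1.Rw.none,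
 ⟨nat_lit 3162, nat_lit 3873, ⟨.ofNat (nat_lit 414421), .ofNat (nat_lit 608082), .ofNat (nat_lit 457950), .ofNat (nat_lit 651611), .ofNat (nat_lit 422280), .ofNat (nat_lit 605237), .ofNat (nat_lit 466533), .ofNat (nat_lit 649490)⟩, ⟨.ofNat (nat_lit 304717), .ofNat (nat_lit 491830), .ofNat (nat_lit 348304), .ofNat (nat_lit 535416), .ofNat (nat_lit 306116), .ofNat (nat_lit 482881), .ofNat (nat_lit 350426), .ofNat (nat_lit 527190)⟩⟩, [⟨nat_lit 16, nat_lit 67, nat_lit 100, nat_lit 88, nat_lit 146353754⟩, ⟨nat_lit 16, nat_lit 77, nat_lit 100, nat_lit 99, nat_lit 75712151⟩]⟩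
noncomputable def p086_l120 : Lf2 := ⟨nat_lit 0, nat_lit 20, [nat_lit 5, nat_lit 5, nat_lit 5, nat_lit 20], false, nat_lit 0, nat_lit 160, nat_lit 0, nat_lit 364, ⟨nat_lit 1000, nat_lit 0, nat_lit 0, nat_lit 0, nat_lit 0, nat_lit 0, nat_lit 0, nat_lit 0, nat_lit 0, nat_lit 0, nat_lit 0, nat_lit 0, nat_lit 0, nat_lit 0, nat_lit 0, nat_lit 0, false, false⟩,
 nat_lit 0, nat_lit 0, nat_lit 0, nat_lit 13395, nat_lit 6758, nat_lit 7560, nat_lit 315, nat_lit 0, nat_lit 0, nat_lit 1046, nat_lit 0, nat_lit 0, nat_lit 0, nat_lit 0, nat_lit 0, nat_lit 0, nat_lit 0, nat_lit 0, [],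
 ⟨p086_k48, nat_lit 0, nat_lit 0, nat_lit 214, nat_lit 0, nat_lit 0, [nat_lit 2032000001, nat_lit 4688000000, nat_lit 9842000000], [], [nat_lit 31376774999, nat_lit 34588164895, nat_lit 40706462156, nat_lit 42703765108, nat_lit 26782195551, nat_lit 29061877479, nat_lit 34295882770, nat_lit 36018032544], nat_lit 0, nat_lit 0, nat_lit 0, nat_lit 0, nat_lit 0, nat_lit 0, [], [nat_lit 27, nat_lit 40, nat_lit 40, nat_lit 80, nat_lit 13, nat_lit 373, nat_lit 150, nat_lit 10]⟩, ⟨p086_k50, nat_lit 0, nat_lit 0, nat_lit 278, nat_lit 0, nat_lit 0, [nat_lit 4688000000, nat_lit 7968000000, nat_lit 14058000000], [], [nat_lit 30170483960, nat_lit 32052369400, nat_lit 39710005353, nat_lit 40613321496, nat_lit 30493391689, nat_lit 31319782441, nat_lit 36794020027, nat_lit 37373407835], nat_lit 0, nat_lit 0, nat_lit 0, nat_lit 0, nat_lit 0, nat_lit 0, [], [nat_lit 37, nat_lit 40, nat_lit 40, nat_lit 80, nat_lit 28, nat_lit 538, nat_lit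 300, nat_lit 12]⟩,
 zbF0, [⟨nat_lit 7, nat_lit 77, nat_lit 100, nat_lit 91, nat_lit 116121027⟩, ⟨nat_lit 10, nat_lit 57, nat_lit 81, nat_lit 100, nat_lit 56831200⟩]⟩
noncomputable def p086_l121 : Lf2 := ⟨nat_lit 0, nat_lit 20, [nat_lit 5, nat_lit 5, nat_lit 5, nat_lit 20], false, nat_lit 160, nat_lit 300, nat_lit 0, nat_lit 364, ⟨nat_lit 1000, nat_lit 0, nat_lit 0, nat_lit 0, nat_lit 0, nat_lit 0, nat_lit 0, nat_lit 0, nat_lit 0, nat_lit 0, nat_lit 0, nat_lit 0, nat_lit 0, nat_lit 0, nat_lit 0, nat_lit 0, false, false⟩,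
 nat_lit 0, nat_lit 0, nat_lit 0, nat_lit 13639, nat_lit 6579, nat_lit 9011, nat_lit 0, nat_lit 0, nat_lit 0, nat_lit 689, nat_lit 0, nat_lit 0, nat_lit 0, nat_lit 0, nat_lit 0, nat_lit 0, nat_lit 0, nat_lit 0, [],
 ⟨p086_k54, nat_lit 0, nat_lit 0, nat_lit 99, nat_lit 0, nat_lit 0, [nat_lit 2032000001, nat_lit 6250000000, nat_lit 9842000000], [], [nat_lit 22846595724, nat_lit 26048413452, nat_lit 32311830433, nat_lit 34345682176, nat_lit 27649912541, nat_lit 30008778789, nat_lit 34636448241, nat_lit 36501965254], nat_lit 0, nat_lit 0, nat_lit 0, nat_lit 0, nat_lit 0, nat_lit 0, [], [nat_lit 61, nat_lit 40, nat_lit 40, nat_lit 80, nat_lit 1, nat_lit 401, nat_lit 175, nat_lit 10]⟩, ⟨p086_k55, nat_lit 0, nat_lit 0, nat_lit 291, nat_lit 0, nat_lit 0, [nat_lit 4688000000, nat_lit 9842000000, nat_lit 14058000000], [], [nat_lit 33586026376, nat_lit 35615513340, nat_lit 44087942672, nat_lit 44982208058, nat_lit 32489992208, nat_lit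 33466622493, nat_lit 38810707968, nat_lit 39214687814], nat_lit 0, nat_lit 0, nat_lit 0, nat_lit 0, nat_lit 0, nat_lit 0, [], [nat_lit 56, nat_lit 40, nat_lit 40, nat_lit 80, nat_lit 32, nat_lit 538, nat_lit 300, nat_lit 12]⟩,
 zbF0, [⟨nat_lit 4, nat_lit 100, nat_lit 74, nat_lit 90, nat_lit 489075396⟩, ⟨nat_lit 19, nat_lit 100, nat_lit 59, nat_lit 94, nat_lit 124436815⟩]⟩
noncomputable def b_V_800_600_20_30 : St := ⟨true, nat_lit 0, nat_lit 0, nat_lit 1, nat_lit 120, nat_lit 320, nat_lit 360, nat_lit 240, nat_lit 280, nat_lit 64, nat_lit 396, nat_lit 80, nat_lit 120, nat_lit 0, nat_lit 300, nat_lit 0, nat_lit 364, nat_lit 40, nat_lit 80, nat_lit 0, nat_lit 0, nat_lit 0, nat_lit 0⟩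
theorem d_V_800_600_20_30 (h : EB TB.env) : Dead b_V_800_600_20_30 := chkB_sound0 h (T :=
(.spl (nat_lit 2) (nat_lit 240)
(.spl (nat_lit 4) (nat_lit 160)
(.spl (nat_lit 2) (nat_lit 160)
(.spl (nat_lit 1) (nat_lit 260)
(.leaf p086_l111)
(.trZ (nat_lit 0) (nat_lit 100) (nat_lit 84) (nat_lit 85) (nat_lit 80) (.trX (nat_lit 19) (nat_lit 100) (nat_lit 69) (nat_lit 96) (nat_lit 352) (.leaf p086_l112))))
(.spl (nat_lit 0) (nat_lit 340)
(.leaf p086_l113)
(.leaf p086_l114)))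
(.spl (nat_lit 2) (nat_lit 120)
(.spl (nat_lit 1) (nat_lit 260)
(.leaf p086_l115)
(.trZ (nat_lit 0) (nat_lit 100) (nat_lit 84) (nat_lit 85) (nat_lit 80) (.trX (nat_lit 19) (nat_lit 100) (nat_lit 69) (nat_lit 96) (nat_lit 352) (.spl (nat_lit 5) (nat_lit 160)
(.leaf p086_l116)
(.leaf p086_l117)))))
(.spl (nat_lit 0) (nat_lit 340)
(.leaf p086_l118)
(.trX (nat_lit 16) (nat_lit 77) (nat_lit 100) (nat_lit 99) (nat_lit 276) (.leaf p086_l119)))))
(.spl (nat_lit 4) (nat_lit 160)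
(.leaf p086_l120)
(.leaf p086_l121)))) (by decide +kernel)
noncomputable def p086_l122 : Lf2 := ⟨nat_lit 0, nat_lit 20, [nat_lit 5, nat_lit 5, nat_lit 5, nat_lit 20], true, nat_lit 0, nat_lit 160, nat_lit 0, nat_lit 364, ⟨nat_lit 0, nat_lit 0, nat_lit 1000, nat_lit 6, nat_lit 154, nat_lit 1000, nat_lit 65, nat_lit 1000, nat_lit 40017, nat_lit 264, nat_lit 153600, nat_lit 311, nat_lit 58308227, nat_lit 0, nat_lit 0, nat_lit 1929344, false, false⟩,
 nat_lit 0, nat_lit 0, nat_lit 0, nat_lit 7191, nat_lit 3263, nat_lit 0, nat_lit 0, nat_lit 0, nat_lit 0, nat_lit 0, nat_lit 0, nat_lit 0, nat_lit 0, nat_lit 0, nat_lit 131, nat_lit 406600, nat_lit 0, nat_lit 0, [(nat_lit 19, [(nat_lit 5, nat_lit 989), (nat_lit 6, nat_lit 11)])],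
 ⟨p086_k47, nat_lit 0, nat_lit 0, nat_lit 245, nat_lit 0, nat_lit 0, [nat_lit 2490056801, nat_lit 269070400], [], [nat_lit 17217357388, nat_lit 18879747814, nat_lit 17273928138, nat_lit 18476243022, nat_lit 16995738743, nat_lit 18085611663, nat_lit 17210536314, nat_lit 18237808034], nat_lit 0, nat_lit 0, nat_lit 0, nat_lit 0, nat_lit 0, nat_lit 0, [], [nat_lit 94, nat_lit 40, nat_lit 40, nat_lit 80, nat_lit 95, nat_lit 289, nat_lit 75, nat_lit 8]⟩, C1.Rw.none,
 ⟨nat_lit 3872, nat_lit 4473, ⟨.ofNat (nat_lit 311945), .ofNat (nat_lit 407125), .ofNat (nat_lit 355043), .ofNat (nat_lit 450223), .ofNat (nat_lit 324151), .ofNat (nat_lit 414492), .ofNat (nat_lit 367703), .ofNat (nat_lit 458043)⟩, ⟨.ofNat (nat_lit 0), .ofNat (nat_lit 302621), .ofNat (nat_lit 0), .ofNat (nat_lit 345754), .ofNat (nat_lit 0), .ofNat (nat_lit 304717), .ofNat (nat_lit 0), .ofNat (nat_lit 348304)⟩⟩, [⟨nat_lit 0, nat_lit 99, nat_lit 77, nat_lit 100, nat_lit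 147736095⟩, ⟨nat_lit 3, nat_lit 100, nat_lit 78, nat_lit 39, nat_lit 95557810⟩]⟩
noncomputable def p086_l123 : Lf2 := ⟨nat_lit 0, nat_lit 20, [nat_lit 5, nat_lit 5, nat_lit 5, nat_lit 20], true, nat_lit 0, nat_lit 160, nat_lit 0, nat_lit 364, ⟨nat_lit 0, nat_lit 0, nat_lit 1000, nat_lit 6, nat_lit 186, nat_lit 1000, nat_lit 65, nat_lit 1000, nat_lit 40017, nat_lit 264, nat_lit 19503, nat_lit 247, nat_lit 55063233, nat_lit 0, nat_lit 0, nat_lit 2342963, false, false⟩,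
 nat_lit 0, nat_lit 0, nat_lit 0, nat_lit 8456, nat_lit 2298, nat_lit 0, nat_lit 109, nat_lit 0, nat_lit 0, nat_lit 0, nat_lit 0, nat_lit 0, nat_lit 0, nat_lit 0, nat_lit 129, nat_lit 400000, nat_lit 0, nat_lit 0, [(nat_lit 19, [(nat_lit 5, nat_lit 1000)])],
 ⟨p086_k48, nat_lit 0, nat_lit 0, nat_lit 186, nat_lit 0, nat_lit 0, [nat_lit 1960800001, nat_lit 1629600001, nat_lit 268000000], [], [nat_lit 15847050466, nat_lit 16948016542, nat_lit 16550384610, nat_lit 17598276114, nat_lit 16518564546, nat_lit 17697360094, nat_lit 17362774170, nat_lit 18541950258], nat_lit 0, nat_lit 0, nat_lit 0, nat_lit 0, nat_lit 0, nat_lit 0, [], [nat_lit 27, nat_lit 40, nat_lit 40, nat_lit 80, nat_lit 13, nat_lit 317, nat_lit 100, nat_lit 9]⟩, C1.Rw.none,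
 ⟨nat_lit 3872, nat_lit 4473, ⟨.ofNat (nat_lit 407125), .ofNat (nat_lit 475111), .ofNat (nat_lit 450223), .ofNat (nat_lit 518209), .ofNat (nat_lit 414492), .ofNat (nat_lit 479021), .ofNat (nat_lit 458043), .ofNat (nat_lit 522572)⟩, ⟨.ofNat (nat_lit 0), .ofNat (nat_lit 302621), .ofNat (nat_lit 0), .ofNat (nat_lit 345754), .ofNat (nat_lit 0), .ofNat (nat_lit 304717), .ofNat (nat_lit 0), .ofNat (nat_lit 348304)⟩⟩, [⟨nat_lit 3, nat_lit 100, nat_lit 78, nat_lit 39, nat_lit 43691586⟩]⟩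
noncomputable def p086_l124 : Lf2 := ⟨nat_lit 0, nat_lit 20, [nat_lit 5, nat_lit 5, nat_lit 5, nat_lit 20], true, nat_lit 0, nat_lit 160, nat_lit 0, nat_lit 364, ⟨nat_lit 0, nat_lit 38, nat_lit 962, nat_lit 6, nat_lit 178, nat_lit 1000, nat_lit 65, nat_lit 962, nat_lit 40017, nat_lit 264, nat_lit 15045, nat_lit 245, nat_lit 55939096, nat_lit 11060904, nat_lit 0, nat_lit 2240056, false, false⟩,
 nat_lit 0, nat_lit 0, nat_lit 0, nat_lit 5169, nat_lit 3052, nat_lit 0, nat_lit 0, nat_lit 0, nat_lit 0, nat_lit 0, nat_lit 0, nat_lit 0, nat_lit 0, nat_lit 0, nat_lit 87, nat_lit 250000, nat_lit 0, nat_lit 0, [(nat_lit 22, [(nat_lit 0, nat_lit 38), (nat_lit 4, nat_lit 962)])],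
 ⟨p086_k53, nat_lit 0, nat_lit 0, nat_lit 156, nat_lit 0, nat_lit 0, [nat_lit 2190118400, nat_lit 28736000], [], [nat_lit 18186332556, nat_lit 19090115640, nat_lit 19105659336, nat_lit 19709282012, nat_lit 18374370660, nat_lit 19004804121, nat_lit 19456616472, nat_lit 20102778484], nat_lit 0, nat_lit 0, nat_lit 0, nat_lit 0, nat_lit 0, nat_lit 0, [], [nat_lit 110, nat_lit 40, nat_lit 40, nat_lit 80, nat_lit 109, nat_lit 317, nat_lit 100, nat_lit 10]⟩, C1.Rw.none,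
 ⟨nat_lit 3535, nat_lit 3873, ⟨.ofNat (nat_lit 362897), .ofNat (nat_lit 479046), .ofNat (nat_lit 406471), .ofNat (nat_lit 522620), .ofNat (nat_lit 368144), .ofNat (nat_lit 481125), .ofNat (nat_lit 412037), .ofNat (nat_lit 525018)⟩, ⟨.ofNat (nat_lit 0), .ofNat (nat_lit 304717), .ofNat (nat_lit 0), .ofNat (nat_lit 348304), .ofNat (nat_lit 0), .ofNat (nat_lit 305521), .ofNat (nat_lit 0), .ofNat (nat_lit 349427)⟩⟩, [⟨nat_lit 0, nat_lit 96, nat_lit 69, nat_lit 100, nat_lit 4986343⟩, ⟨nat_lit 3, nat_lit 100, nat_lit 72, nat_lit 46, nat_lit 90437842⟩]⟩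
noncomputable def p086_l125 : Lf2 := ⟨nat_lit 0, nat_lit 20, [nat_lit 5, nat_lit 5, nat_lit 5, nat_lit 20], false, nat_lit 4, nat_lit 160, nat_lit 0, nat_lit 364, ⟨nat_lit 121, nat_lit 0, nat_lit 879, nat_lit 6, nat_lit 183, nat_lit 879, nat_lit 68, nat_lit 879, nat_lit 43350, nat_lit 266, nat_lit 16148, nat_lit 244, nat_lit 52845913, nat_lit 0, nat_lit 0, nat_lit 3224286, false, false⟩,
 nat_lit 0, nat_lit 0, nat_lit 2058, nat_lit 576, nat_lit 2632, nat_lit 1089, nat_lit 0, nat_lit 0, nat_lit 0, nat_lit 65, nat_lit 0, nat_lit 0, nat_lit 0, nat_lit 0, nat_lit 88, nat_lit 343200, nat_lit 0, nat_lit 0, [(nat_lit 22, [(nat_lit 4, nat_lit 56), (nat_lit 5, nat_lit 823)])],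
 ⟨p086_k56, nat_lit 0, nat_lit 0, nat_lit 173, nat_lit 0, nat_lit 0, [nat_lit 1836627201, nat_lit 1288486401, nat_lit 33667600], [], [nat_lit 18190765091, nat_lit 19063130076, nat_lit 19019230023, nat_lit 19742089160, nat_lit 18792944375, nat_lit 19446960067, nat_lit 19820518747, nat_lit 20425528739], nat_lit 0, nat_lit 0, nat_lit 0, nat_lit 0, nat_lit 0, nat_lit 0, [], [nat_lit 34, nat_lit 40, nat_lit 40, nat_lit 80, nat_lit 7, nat_lit 317, nat_lit 100, nat_lit 10]⟩, ⟨p086_k50, nat_lit 0, nat_lit 0, nat_lit 823, nat_lit 0, nat_lit 975763, [nat_lit 567248000, nat_lit 964128000, nat_lit 1701018000], [], [nat_lit 6977342064, nat_lit 5798684694, nat_lit 5213959212, nat_lit 5079754004, nat_lit 4557362556, nat_lit 4547298236, nat_lit 5305988739, nat_lit 4345788907], nat_lit 1271250, nat_lit 1271250, nat_lit 631250, nat_lit 1100001, nat_lit 0, nat_lit 2570750, [nat_lit 1100000, nat_lit 1785000, nat_lit 1271250], [nat_lit 37,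 nat_lit 40, nat_lit 40, nat_lit 80, nat_lit 28, nat_lit 456, nat_lit 225, nat_lit 11]⟩,
 ⟨nat_lit 3162, nat_lit 3536, ⟨.ofNat (nat_lit 386958), .ofNat (nat_lit 481116), .ofNat (nat_lit 430847), .ofNat (nat_lit 525005), .ofNat (nat_lit 391883), .ofNat (nat_lit 483329), .ofNat (nat_lit 436176), .ofNat (nat_lit 527622)⟩, ⟨.ofNat (nat_lit 10000), .ofNat (nat_lit 305521), .ofNat (nat_lit 10000), .ofNat (nat_lit 349427), .ofNat (nat_lit 10000), .ofNat (nat_lit 306116), .ofNat (nat_lit 10000), .ofNat (nat_lit 350426)⟩⟩, [⟨nat_lit 0, nat_lit 94, nat_lit 62, nat_lit 100, nat_lit 97709210⟩, ⟨nat_lit 3, nat_lit 100, nat_lit 73, nat_lit 41, nat_lit 23411736⟩, ⟨nat_lit 7, nat_lit 77, nat_lit 100, nat_lit 91, nat_lit 7261518⟩]⟩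
noncomputable def p086_l126 : Lf2 := ⟨nat_lit 0, nat_lit 20, [nat_lit 5, nat_lit 5, nat_lit 5, nat_lit 20], false, nat_lit 0, nat_lit 80, nat_lit 0, nat_lit 160, ⟨nat_lit 405, nat_lit 0, nat_lit 595, nat_lit 6, nat_lit 226, nat_lit 595, nat_lit 37, nat_lit 595, nat_lit 13067, nat_lit 243, nat_lit 37112, nat_lit 200, nat_lit 50788003, nat_lit 0, nat_lit 0, nat_lit 2766700, false, false⟩,
 nat_lit 0, nat_lit 0, nat_lit 5555, nat_lit 0, nat_lit 3175, nat_lit 2940, nat_lit 476, nat_lit 0, nat_lit 0, nat_lit 392, nat_lit 0, nat_lit 0, nat_lit 0, nat_lit 0, nat_lit 0, nat_lit 238000, nat_lit 0, nat_lit 0, [(nat_lit 19, [(nat_lit 5, nat_lit 595)])],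
 ⟨p086_k48, nat_lit 0, nat_lit 0, nat_lit 178, nat_lit 0, nat_lit 0, [nat_lit 1375596001, nat_lit 1640172001, nat_lit 1996330000], [], [nat_lit 18311522800, nat_lit 19567932302, nat_lit 20860572102, nat_lit 22207450501, nat_lit 17133459201, nat_lit 18529035602, nat_lit 19820473702, nat_lit 21042679652], nat_lit 0, nat_lit 0, nat_lit 0, nat_lit 0, nat_lit 0, nat_lit 0, [], [nat_lit 27, nat_lit 40, nat_lit 40, nat_lit 80, nat_lit 13, nat_lit 317, nat_lit 100, nat_lit 9]⟩, ⟨p086_k50, nat_lit 0, nat_lit 0, nat_lit 615, nat_lit 0, nat_lit 597963, [nat_lit 1898640000, nat_lit 3227040000, nat_lit 5693490000], [], [nat_lit 16377374460, nat_lit 15405959720, nat_lit 15268868960, nat_lit 15616858760, nat_lit 13226439680, nat_lit 13511839140, nat_lit 14959523880, nat_lit 13817859840], nat_lit 1271250, nat_lit 1271250, nat_lit 1100001, nat_lit 1785000, nat_lit 0, nat_lit 1100001, [nat_lit 1100000, nat_lit 1785000, nat_lit 1271250],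 [nat_lit 37, nat_lit 40, nat_lit 40, nat_lit 80, nat_lit 28, nat_lit 401, nat_lit 175, nat_lit 9]⟩,
 ⟨nat_lit 3872, nat_lit 4473, ⟨.ofNat (nat_lit 475111), .ofNat (nat_lit 611083), .ofNat (nat_lit 518209), .ofNat (nat_lit 654181), .ofNat (nat_lit 479021), .ofNat (nat_lit 608080), .ofNat (nat_lit 522572), .ofNat (nat_lit 651631)⟩, ⟨.ofNat (nat_lit 0), .ofNat (nat_lit 166665), .ofNat (nat_lit 0), .ofNat (nat_lit 200000), .ofNat (nat_lit 0), .ofNat (nat_lit 175674), .ofNat (nat_lit 0), .ofNat (nat_lit 200000)⟩⟩, [⟨nat_lit 3, nat_lit 100, nat_lit 88, nat_lit 21, nat_lit 76146928⟩]⟩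
noncomputable def p086_l127 : Lf2 := ⟨nat_lit 0, nat_lit 20, [nat_lit 5, nat_lit 5, nat_lit 5, nat_lit 20], false, nat_lit 0, nat_lit 80, nat_lit 0, nat_lit 160, ⟨nat_lit 133, nat_lit 272, nat_lit 595, nat_lit 6, nat_lit 226, nat_lit 867, nat_lit 38, nat_lit 595, nat_lit 13067, nat_lit 243, nat_lit 31972, nat_lit 200, nat_lit 50751041, nat_lit 16248959, nat_lit 0, nat_lit 2769845, false, false⟩,
 nat_lit 0, nat_lit 0, nat_lit 2422, nat_lit 0, nat_lit 2703, nat_lit 1282, nat_lit 0, nat_lit 0, nat_lit 0, nat_lit 106, nat_lit 0, nat_lit 0, nat_lit 0, nat_lit 0, nat_lit 56, nat_lit 421200, nat_lit 0, nat_lit 0, [(nat_lit 22, [(nat_lit 1, nat_lit 272), (nat_lit 5, nat_lit 471), (nat_lit 6, nat_lit 124)])],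
 ⟨p086_k51, nat_lit 0, nat_lit 0, nat_lit 160, nat_lit 0, nat_lit 0, [nat_lit 1641280001, nat_lit 1269112000, nat_lit 25709200], [], [nat_lit 19236438617, nat_lit 20444401597, nat_lit 21433707029, nat_lit 22501693538, nat_lit 18476646755, nat_lit 19658663446, nat_lit 20804311662, nat_lit 21878483502], nat_lit 0, nat_lit 0, nat_lit 0, nat_lit 0, nat_lit 0, nat_lit 0, [], [nat_lit 34, nat_lit 40, nat_lit 40, nat_lit 80, nat_lit 7, nat_lit 317, nat_lit 100, nat_lit 10]⟩, ⟨p086_k50, nat_lit 0, nat_lit 0, nat_lit 796, nat_lit 0, nat_lit 975763, [nat_lit 623504000, nat_lit 1059744000, nat_lit 1869714000], [], [nat_lit 5860572476, nat_lit 4895210952, nat_lit 4777245556, nat_lit 4797299148, nat_lit 3981807748, nat_lit 4003714936, nat_lit 4827002848, nat_lit 3953851948], nat_lit 1271250, nat_lit 1271250, nat_lit 1100001, nat_lit 1785000, nat_lit 0, nat_lit 1100001, [nat_lit 1100000, nat_lit 1785000, nat_lit 1271250], [nat_lit 37,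 nat_lit 40, nat_lit 40, nat_lit 80, nat_lit 28, nat_lit 401, nat_lit 175, nat_lit 9]⟩,
 ⟨nat_lit 3162, nat_lit 3873, ⟨.ofNat (nat_lit 478975), .ofNat (nat_lit 608082), .ofNat (nat_lit 522504), .ofNat (nat_lit 651611), .ofNat (nat_lit 483267), .ofNat (nat_lit 605237), .ofNat (nat_lit 527519), .ofNat (nat_lit 649490)⟩, ⟨.ofNat (nat_lit 0), .ofNat (nat_lit 175674), .ofNat (nat_lit 0), .ofNat (nat_lit 200000), .ofNat (nat_lit 0), .ofNat (nat_lit 184209), .ofNat (nat_lit 0), .ofNat (nat_lit 200000)⟩⟩, [⟨nat_lit 3, nat_lit 100, nat_lit 76, nat_lit 37, nat_lit 104224058⟩]⟩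
noncomputable def p086_l128 : Lf2 := ⟨nat_lit 0, nat_lit 20, [nat_lit 5, nat_lit 5, nat_lit 5, nat_lit 20], false, nat_lit 0, nat_lit 80, nat_lit 160, nat_lit 364, ⟨nat_lit 193, nat_lit 0, nat_lit 807, nat_lit 6, nat_lit 222, nat_lit 807, nat_lit 37, nat_lit 807, nat_lit 13067, nat_lit 243, nat_lit 6667, nat_lit 202, nat_lit 51258991, nat_lit 0, nat_lit 0, nat_lit 2725885, false, false⟩,
 nat_lit 0, nat_lit 0, nat_lit 3127, nat_lit 5263, nat_lit 2751, nat_lit 1655, nat_lit 267, nat_lit 0, nat_lit 0, nat_lit 180, nat_lit 0, nat_lit 0, nat_lit 0, nat_lit 0, nat_lit 38, nat_lit 322800, nat_lit 0, nat_lit 0, [(nat_lit 19, [(nat_lit 5, nat_lit 807)])],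
 ⟨p086_k48, nat_lit 0, nat_lit 0, nat_lit 178, nat_lit 0, nat_lit 0, [nat_lit 1445717600, nat_lit 1162223201, nat_lit 264898000], [], [nat_lit 17516331183, nat_lit 18638297013, nat_lit 19818035813, nat_lit 21104672894, nat_lit 16710316059, nat_lit 17775387473, nat_lit 19090462725, nat_lit 20239149619], nat_lit 0, nat_lit 0, nat_lit 0, nat_lit 0, nat_lit 0, nat_lit 0, [], [nat_lit 27, nat_lit 40, nat_lit 40, nat_lit 80, nat_lit 13, nat_lit 317, nat_lit 100, nat_lit 9]⟩, ⟨p086_k50, nat_lit 0, nat_lit 0, nat_lit 383, nat_lit 0, nat_lit 409132, [nat_lit 904784000, nat_lit 1537824000, nat_lit 2713194000], [], [nat_lit 7286741516, nat_lit 6411680126, nat_lit 5813837256, nat_lit 5326689702, nat_lit 6102561051, nat_lit 6158811751, nat_lit 6056283075, nat_lit 6099535150], nat_lit 1271250, nat_lit 1271250, nat_lit 1100001, nat_lit 1785000, nat_lit 1271250, nat_lit 1271250, [nat_lit 1100000, nat_lit 1785000, nat_lit 1271250], [nat_lit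 37, nat_lit 40, nat_lit 40, nat_lit 80, nat_lit 28, nat_lit 456, nat_lit 225, nat_lit 10]⟩,
 ⟨nat_lit 3872, nat_lit 4473, ⟨.ofNat (nat_lit 475111), .ofNat (nat_lit 611083), .ofNat (nat_lit 496660), .ofNat (nat_lit 632632), .ofNat (nat_lit 479021), .ofNat (nat_lit 608080), .ofNat (nat_lit 500797), .ofNat (nat_lit 629856)⟩, ⟨.ofNat (nat_lit 0), .ofNat (nat_lit 166665), .ofNat (nat_lit 0), .ofNat (nat_lit 200000), .ofNat (nat_lit 0), .ofNat (nat_lit 175674), .ofNat (nat_lit 0), .ofNat (nat_lit 200000)⟩⟩, [⟨nat_lit 22, nat_lit 100, nat_lit 95, nat_lit 31, nat_lit 92845089⟩, ⟨nat_lit 22, nat_lit 100, nat_lit 80, nat_lit 60, nat_lit 17572117⟩]⟩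
noncomputable def p086_l129 : Lf2 := ⟨nat_lit 0, nat_lit 20, [nat_lit 5, nat_lit 5, nat_lit 5, nat_lit 20], false, nat_lit 0, nat_lit 80, nat_lit 160, nat_lit 352, ⟨nat_lit 438, nat_lit 0, nat_lit 562, nat_lit 6, nat_lit 230, nat_lit 562, nat_lit 37, nat_lit 562, nat_lit 13067, nat_lit 243, nat_lit 37112, nat_lit 200, nat_lit 50316713, nat_lit 0, nat_lit 0, nat_lit 2806192, false, false⟩,
 nat_lit 0, nat_lit 0, nat_lit 6132, nat_lit 0, nat_lit 3218, nat_lit 3569, nat_lit 504, nat_lit 0, nat_lit 0, nat_lit 423, nat_lit 0, nat_lit 0, nat_lit 0, nat_lit 0, nat_lit 0, nat_lit 224800, nat_lit 0, nat_lit 0, [(nat_lit 19, [(nat_lit 5, nat_lit 562)])],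
 ⟨p086_k48, nat_lit 0, nat_lit 0, nat_lit 178, nat_lit 0, nat_lit 0, [nat_lit 1412001601, nat_lit 1809211201, nat_lit 2431468000], [], [nat_lit 18482609968, nat_lit 19748115290, nat_lit 21037895418, nat_lit 22392581161, nat_lit 17272676913, nat_lit 18677061298, nat_lit 19966102234, nat_lit 21195764126], nat_lit 0, nat_lit 0, nat_lit 0, nat_lit 0, nat_lit 0, nat_lit 0, [], [nat_lit 27, nat_lit 40, nat_lit 40, nat_lit 80, nat_lit 13, nat_lit 317, nat_lit 100, nat_lit 9]⟩, ⟨p086_k49, nat_lit 0, nat_lit 0, nat_lit 366, nat_lit 0, nat_lit 518923, [nat_lit 2053344000, nat_lit 3489984000, nat_lit 5199936000], [], [nat_lit 14364868294, nat_lit 12477802372, nat_lit 11540457366, nat_lit 10729767749, nat_lit 12340202391, nat_lit 12523077313, nat_lit 12524714954, nat_lit 12720983104], nat_lit 1271250, nat_lit 1271250, nat_lit 1100001, nat_lit 1785000, nat_lit 1271250, nat_lit 1271250, [nat_lit 1100000, nat_lit 1785000, nat_lit 1271250],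 [nat_lit 21, nat_lit 40, nat_lit 40, nat_lit 80, nat_lit 14, nat_lit 456, nat_lit 225, nat_lit 11]⟩,
 ⟨nat_lit 3872, nat_lit 4473, ⟨.ofNat (nat_lit 496660), .ofNat (nat_lit 632632), .ofNat (nat_lit 518209), .ofNat (nat_lit 654181), .ofNat (nat_lit 500797), .ofNat (nat_lit 629856), .ofNat (nat_lit 522572), .ofNat (nat_lit 651631)⟩, ⟨.ofNat (nat_lit 0), .ofNat (nat_lit 166665), .ofNat (nat_lit 0), .ofNat (nat_lit 200000), .ofNat (nat_lit 0), .ofNat (nat_lit 175674), .ofNat (nat_lit 0), .ofNat (nat_lit 200000)⟩⟩, [⟨nat_lit 7, nat_lit 82, nat_lit 100, nat_lit 92, nat_lit 21266546⟩, ⟨nat_lit 22, nat_lit 100, nat_lit 80, nat_lit 60, nat_lit 77329806⟩]⟩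
noncomputable def p086_l130 : Lf2 := ⟨nat_lit 0, nat_lit 20, [nat_lit 5, nat_lit 5, nat_lit 5, nat_lit 20], false, nat_lit 0, nat_lit 80, nat_lit 160, nat_lit 364, ⟨nat_lit 167, nat_lit 0, nat_lit 833, nat_lit 6, nat_lit 222, nat_lit 833, nat_lit 38, nat_lit 833, nat_lit 13067, nat_lit 243, nat_lit 7340, nat_lit 203, nat_lit 51228223, nat_lit 0, nat_lit 0, nat_lit 2728593, false, false⟩,
 nat_lit 0, nat_lit 0, nat_lit 2751, nat_lit 0, nat_lit 2638, nat_lit 1456, nat_lit 0, nat_lit 0, nat_lit 0, nat_lit 95, nat_lit 0, nat_lit 0, nat_lit 0, nat_lit 0, nat_lit 69, nat_lit 333200, nat_lit 0, nat_lit 0, [(nat_lit 22, [(nat_lit 5, nat_lit 833)])],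
 ⟨p086_k51, nat_lit 0, nat_lit 0, nat_lit 160, nat_lit 0, nat_lit 0, [nat_lit 1704352000, nat_lit 1215164800, nat_lit 30363334], [], [nat_lit 18918476070, nat_lit 20114241150, nat_lit 21112676222, nat_lit 22371284504, nat_lit 18221447868, nat_lit 19432643624, nat_lit 20583929160, nat_lit 21681370336], nat_lit 0, nat_lit 0, nat_lit 0, nat_lit 0, nat_lit 0, nat_lit 0, [], [nat_lit 34, nat_lit 40, nat_lit 40, nat_lit 80, nat_lit 7, nat_lit 317, nat_lit 100, nat_lit 10]⟩, ⟨p086_k50, nat_lit 0, nat_lit 0, nat_lit 594, nat_lit 0, nat_lit 807400, [nat_lit 782896000, nat_lit 1330656000, nat_lit 2347686000], [], [nat_lit 6341609044, nat_lit 5571766516, nat_lit 5443494524, nat_lit 5499168386, nat_lit 5954542592, nat_lit 5978013576, nat_lit 5854242685, nat_lit 5871929227], nat_lit 1271250, nat_lit 1271250, nat_lit 1100001, nat_lit 1785000, nat_lit 1271250, nat_lit 1271250, [nat_lit 1100000, nat_lit 1785000, nat_lit 1271250], [nat_lit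 37, nat_lit 40, nat_lit 40, nat_lit 80, nat_lit 28, nat_lit 456, nat_lit 225, nat_lit 10]⟩,
 ⟨nat_lit 3162, nat_lit 3873, ⟨.ofNat (nat_lit 478975), .ofNat (nat_lit 608082), .ofNat (nat_lit 500739), .ofNat (nat_lit 629847), .ofNat (nat_lit 483267), .ofNat (nat_lit 605237), .ofNat (nat_lit 505392), .ofNat (nat_lit 627364)⟩, ⟨.ofNat (nat_lit 0), .ofNat (nat_lit 175674), .ofNat (nat_lit 0), .ofNat (nat_lit 200000), .ofNat (nat_lit 0), .ofNat (nat_lit 184209), .ofNat (nat_lit 0), .ofNat (nat_lit 200000)⟩⟩, [⟨nat_lit 22, nat_lit 100, nat_lit 95, nat_lit 31, nat_lit 77187683⟩, ⟨nat_lit 22, nat_lit 100, nat_lit 80, nat_lit 60, nat_lit 40748173⟩]⟩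
noncomputable def p086_l131 : Lf2 := ⟨nat_lit 0, nat_lit 20, [nat_lit 5, nat_lit 5, nat_lit 5, nat_lit 20], false, nat_lit 0, nat_lit 80, nat_lit 160, nat_lit 352, ⟨nat_lit 178, nat_lit 0, nat_lit 822, nat_lit 6, nat_lit 231, nat_lit 822, nat_lit 38, nat_lit 822, nat_lit 13067, nat_lit 243, nat_lit 31972, nat_lit 200, nat_lit 50273587, nat_lit 0, nat_lit 0, nat_lit 2809739, false, false⟩,
 nat_lit 0, nat_lit 0, nat_lit 2491, nat_lit 0, nat_lit 2685, nat_lit 1449, nat_lit 0, nat_lit 0, nat_lit 0, nat_lit 145, nat_lit 0, nat_lit 0, nat_lit 0, nat_lit 0, nat_lit 64, nat_lit 328800, nat_lit 0, nat_lit 0, [(nat_lit 22, [(nat_lit 5, nat_lit 822)])],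
 ⟨p086_k51, nat_lit 0, nat_lit 0, nat_lit 160, nat_lit 0, nat_lit 0, [nat_lit 1675968001, nat_lit 1195603200, nat_lit 36020000], [], [nat_lit 19033831321, nat_lit 20238416421, nat_lit 21230250061, nat_lit 22463888980, nat_lit 18287563831, nat_lit 19431147582, nat_lit 20578356902, nat_lit 21649661702], nat_lit 0, nat_lit 0, nat_lit 0, nat_lit 0, nat_lit 0, nat_lit 0, [], [nat_lit 34, nat_lit 40, nat_lit 40, nat_lit 80, nat_lit 7, nat_lit 317, nat_lit 100, nat_lit 10]⟩, ⟨p086_k49, nat_lit 0, nat_lit 0, nat_lit 542, nat_lit 0, nat_lit 846383, [nat_lit 834464000, nat_lit 1418304000, nat_lit 2113216000], [], [nat_lit 5836368934, nat_lit 5070227572, nat_lit 4851514087, nat_lit 4925819623, nat_lit 5371272601, nat_lit 5413390108, nat_lit 5338098965, nat_lit 5385659627], nat_lit 1271250, nat_lit 1271250, nat_lit 1100001, nat_lit 1785000, nat_lit 1271250, nat_lit 1271250, [nat_lit 1100000, nat_lit 1785000, nat_lit 1271250], [nat_lit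 21, nat_lit 40, nat_lit 40, nat_lit 80, nat_lit 14, nat_lit 456, nat_lit 225, nat_lit 11]⟩,
 ⟨nat_lit 3162, nat_lit 3873, ⟨.ofNat (nat_lit 500739), .ofNat (nat_lit 629847), .ofNat (nat_lit 522504), .ofNat (nat_lit 651611), .ofNat (nat_lit 505392), .ofNat (nat_lit 627364), .ofNat (nat_lit 527519), .ofNat (nat_lit 649490)⟩, ⟨.ofNat (nat_lit 0), .ofNat (nat_lit 175674), .ofNat (nat_lit 0), .ofNat (nat_lit 200000), .ofNat (nat_lit 0), .ofNat (nat_lit 184209), .ofNat (nat_lit 0), .ofNat (nat_lit 200000)⟩⟩, [⟨nat_lit 3, nat_lit 100, nat_lit 65, nat_lit 54, nat_lit 54303173⟩, ⟨nat_lit 22, nat_lit 100, nat_lit 96, nat_lit 28, nat_lit 14915104⟩, ⟨nat_lit 22, nat_lit 100, nat_lit 80, nat_lit 60, nat_lit 77010872⟩]⟩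
noncomputable def p086_l132 : Lf2 := ⟨nat_lit 0, nat_lit 20, [nat_lit 5, nat_lit 5, nat_lit 5, nat_lit 20], true, nat_lit 80, nat_lit 160, nat_lit 0, nat_lit 364, ⟨nat_lit 0, nat_lit 1000, nat_lit 0, nat_lit 6, nat_lit 226, nat_lit 1000, nat_lit 103, nat_lit 0, nat_lit 0, nat_lit 0, nat_lit 0, nat_lit 0, nat_lit 46665765, nat_lit 15741407, nat_lit 4592828, nat_lit 4118033, false, false⟩,
 nat_lit 0, nat_lit 0, nat_lit 0, nat_lit 5074, nat_lit 4388, nat_lit 0, nat_lit 0, nat_lit 0, nat_lit 0, nat_lit 0, nat_lit 0, nat_lit 0, nat_lit 0, nat_lit 0, nat_lit 0, nat_lit 250000, nat_lit 0, nat_lit 0, [(nat_lit 19, [(nat_lit 0, nat_lit 1000)]), (nat_lit 22, [(nat_lit 0, nat_lit 1000)])],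
 ⟨p086_k48, nat_lit 0, nat_lit 0, nat_lit 62, nat_lit 0, nat_lit 0, [nat_lit 1568000001, nat_lit 2368400000, nat_lit 3220880000], [], [nat_lit 16432511216, nat_lit 19983381200, nat_lit 19419916656, nat_lit 22468256816, nat_lit 17355299712, nat_lit 20533382912, nat_lit 20040957184, nat_lit 22779706656], nat_lit 0, nat_lit 0, nat_lit 0, nat_lit 0, nat_lit 0, nat_lit 0, [], [nat_lit 27, nat_lit 40, nat_lit 40, nat_lit 80, nat_lit 13, nat_lit 317, nat_lit 100, nat_lit 9]⟩, C1.Rw.none,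
 ⟨nat_lit 3162, nat_lit 4473, ⟨.ofNat (nat_lit 474896), .ofNat (nat_lit 611007), .ofNat (nat_lit 517847), .ofNat (nat_lit 653959), .ofNat (nat_lit 483097), .ofNat (nat_lit 605159), .ofNat (nat_lit 527226), .ofNat (nat_lit 649288)⟩, ⟨.ofNat (nat_lit 166665), .ofNat (nat_lit 302621), .ofNat (nat_lit 200000), .ofNat (nat_lit 345754), .ofNat (nat_lit 184209), .ofNat (nat_lit 306116), .ofNat (nat_lit 200000), .ofNat (nat_lit 350426)⟩⟩, []⟩
noncomputable def p086_l133 : Lf2 := ⟨nat_lit 0, nat_lit 20, [nat_lit 5, nat_lit 5, nat_lit 5, nat_lit 20], true, nat_lit 160, nat_lit 300, nat_lit 0, nat_lit 364, ⟨nat_lit 0, nat_lit 30, nat_lit 970, nat_lit 6, nat_lit 152, nat_lit 1000, nat_lit 176, nat_lit 970, nat_lit 1169, nat_lit 218, nat_lit 216600, nat_lit 329, nat_lit 47884411, nat_lit 8485373, nat_lit 10630216, nat_lit 4256634, false, false⟩,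
 nat_lit 0, nat_lit 0, nat_lit 0, nat_lit 7609, nat_lit 2641, nat_lit 0, nat_lit 0, nat_lit 0, nat_lit 0, nat_lit 0, nat_lit 0, nat_lit 0, nat_lit 0, nat_lit 0, nat_lit 122, nat_lit 395500, nat_lit 0, nat_lit 0, [(nat_lit 19, [(nat_lit 0, nat_lit 30), (nat_lit 5, nat_lit 970)]), (nat_lit 22, [(nat_lit 0, nat_lit 30), (nat_lit 5, nat_lit 970)])],
 ⟨p086_k48, nat_lit 0, nat_lit 0, nat_lit 148, nat_lit 0, nat_lit 0, [nat_lit 1969760001, nat_lit 1586422667, nat_lit 264684000], [], [nat_lit 17023497793, nat_lit 19142566238, nat_lit 17358222925, nat_lit 19361317897, nat_lit 21227391196, nat_lit 23694122931, nat_lit 21461632484, nat_lit 23652920579], nat_lit 0, nat_lit 0, nat_lit 0, nat_lit 0, nat_lit 0, nat_lit 0, [], [nat_lit 27, nat_lit 40, nat_lit 40, nat_lit 80, nat_lit 13, nat_lit 345, nat_lit 125, nat_lit 9]⟩, C1.Rw.none,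
 ⟨nat_lit 3162, nat_lit 4473, ⟨.ofNat (nat_lit 311562), .ofNat (nat_lit 406840), .ofNat (nat_lit 333038), .ofNat (nat_lit 428316), .ofNat (nat_lit 336623), .ofNat (nat_lit 422066), .ofNat (nat_lit 358687), .ofNat (nat_lit 444131)⟩, ⟨.ofNat (nat_lit 302621), .ofNat (nat_lit 540545), .ofNat (nat_lit 345754), .ofNat (nat_lit 583678), .ofNat (nat_lit 306116), .ofNat (nat_lit 519453), .ofNat (nat_lit 350426), .ofNat (nat_lit 563762)⟩⟩, [⟨nat_lit 0, nat_lit 100, nat_lit 74, nat_lit 88, nat_lit 98416071⟩, ⟨nat_lit 16, nat_lit 74, nat_lit 100, nat_lit 90, nat_lit 238998776⟩]⟩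
noncomputable def p086_l134 : Lf2 := ⟨nat_lit 0, nat_lit 20, [nat_lit 5, nat_lit 5, nat_lit 5, nat_lit 20], true, nat_lit 160, nat_lit 240, nat_lit 0, nat_lit 352, ⟨nat_lit 0, nat_lit 302, nat_lit 698, nat_lit 6, nat_lit 166, nat_lit 1000, nat_lit 156, nat_lit 698, nat_lit 67907, nat_lit 278, nat_lit 113350, nat_lit 297, nat_lit 48352488, nat_lit 9760356, nat_lit 8887156, nat_lit 4203306, false, false⟩,
 nat_lit 0, nat_lit 0, nat_lit 0, nat_lit 4915, nat_lit 3575, nat_lit 0, nat_lit 0, nat_lit 0, nat_lit 0, nat_lit 0, nat_lit 0, nat_lit 0, nat_lit 0, nat_lit 0, nat_lit 21, nat_lit 250000, nat_lit 0, nat_lit 0, [(nat_lit 19, [(nat_lit 0, nat_lit 302), (nat_lit 4, nat_lit 698)]), (nat_lit 22, [(nat_lit 0, nat_lit 302), (nat_lit 4, nat_lit 698)])],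
 ⟨p086_k48, nat_lit 0, nat_lit 0, nat_lit 62, nat_lit 0, nat_lit 0, [nat_lit 1701379200, nat_lit 910260800, nat_lit 55348000], [], [nat_lit 15596882700, nat_lit 19054356000, nat_lit 15972305600, nat_lit 19111119200, nat_lit 18483374300, nat_lit 21703345000, nat_lit 18616103700, nat_lit 21688005000], nat_lit 0, nat_lit 0, nat_lit 0, nat_lit 0, nat_lit 0, nat_lit 0, [], [nat_lit 27, nat_lit 40, nat_lit 40, nat_lit 80, nat_lit 13, nat_lit 317, nat_lit 100, nat_lit 9]⟩, C1.Rw.none,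
 ⟨nat_lit 3162, nat_lit 4473, ⟨.ofNat (nat_lit 360260), .ofNat (nat_lit 428316), .ofNat (nat_lit 381736), .ofNat (nat_lit 449792), .ofNat (nat_lit 383100), .ofNat (nat_lit 444131), .ofNat (nat_lit 405164), .ofNat (nat_lit 466195)⟩, ⟨.ofNat (nat_lit 302621), .ofNat (nat_lit 438578), .ofNat (nat_lit 345754), .ofNat (nat_lit 481711), .ofNat (nat_lit 306116), .ofNat (nat_lit 428022), .ofNat (nat_lit 350426), .ofNat (nat_lit 472332)⟩⟩, [⟨nat_lit 0, nat_lit 100, nat_lit 76, nat_lit 97, nat_lit 239921007⟩]⟩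
noncomputable def p086_l135 : Lf2 := ⟨nat_lit 0, nat_lit 20, [nat_lit 5, nat_lit 5, nat_lit 5, nat_lit 20], true, nat_lit 240, nat_lit 280, nat_lit 0, nat_lit 352, ⟨nat_lit 0, nat_lit 614, nat_lit 386, nat_lit 6, nat_lit 166, nat_lit 1000, nat_lit 195, nat_lit 386, nat_lit 9526, nat_lit 233, nat_lit 113350, nat_lit 297, nat_lit 45287764, nat_lit 9484777, nat_lit 12227459, nat_lit 4577962, false, false⟩,
 nat_lit 0, nat_lit 0, nat_lit 0, nat_lit 5460, nat_lit 3802, nat_lit 0, nat_lit 0, nat_lit 0, nat_lit 0, nat_lit 0, nat_lit 0, nat_lit 0, nat_lit 0, nat_lit 0, nat_lit 0, nat_lit 250000, nat_lit 0, nat_lit 0, [(nat_lit 19, [(nat_lit 0, nat_lit 614), (nat_lit 4, nat_lit 386)]), (nat_lit 22, [(nat_lit 0, nat_lit 614), (nat_lit 4, nat_lit 386)])],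
 ⟨p086_k48, nat_lit 0, nat_lit 0, nat_lit 73, nat_lit 0, nat_lit 0, [nat_lit 1548854401, nat_lit 1376225600, nat_lit 1081636000], [], [nat_lit 18857581049, nat_lit 21916752240, nat_lit 19080262729, nat_lit 21847368080, nat_lit 20941636432, nat_lit 23965752988, nat_lit 20927585212, nat_lit 23816880052], nat_lit 0, nat_lit 0, nat_lit 0, nat_lit 0, nat_lit 0, nat_lit 0, [], [nat_lit 27, nat_lit 40, nat_lit 40, nat_lit 80, nat_lit 13, nat_lit 317, nat_lit 100, nat_lit 8]⟩, C1.Rw.none,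
 ⟨nat_lit 3162, nat_lit 4473, ⟨.ofNat (nat_lit 360260), .ofNat (nat_lit 428316), .ofNat (nat_lit 381736), .ofNat (nat_lit 449792), .ofNat (nat_lit 383100), .ofNat (nat_lit 444131), .ofNat (nat_lit 405164), .ofNat (nat_lit 466195)⟩, ⟨.ofNat (nat_lit 438578), .ofNat (nat_lit 506556), .ofNat (nat_lit 481711), .ofNat (nat_lit 549689), .ofNat (nat_lit 428022), .ofNat (nat_lit 488976), .ofNat (nat_lit 472332), .ofNat (nat_lit 533286)⟩⟩, [⟨nat_lit 0, nat_lit 100, nat_lit 76, nat_lit 97, nat_lit 187504765⟩, ⟨nat_lit 16, nat_lit 74, nat_lit 100, nat_lit 90, nat_lit 80645303⟩]⟩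
noncomputable def p086_l136 : Lf2 := ⟨nat_lit 0, nat_lit 20, [nat_lit 5, nat_lit 5, nat_lit 5, nat_lit 20], true, nat_lit 280, nat_lit 300, nat_lit 0, nat_lit 336, ⟨nat_lit 0, nat_lit 967, nat_lit 33, nat_lit 6, nat_lit 164, nat_lit 1000, nat_lit 216, nat_lit 33, nat_lit 1169, nat_lit 218, nat_lit 153600, nat_lit 311, nat_lit 43698679, nat_lit 9144902, nat_lit 14156419, nat_lit 4724711, false, false⟩,
 nat_lit 0, nat_lit 0, nat_lit 0, nat_lit 8371, nat_lit 4407, nat_lit 0, nat_lit 0, nat_lit 0, nat_lit 0, nat_lit 0, nat_lit 0, nat_lit 0, nat_lit 0, nat_lit 0, nat_lit 0, nat_lit 248020, nat_lit 0, nat_lit 0, [(nat_lit 19, [(nat_lit 0, nat_lit 967), (nat_lit 3, nat_lit 33)])],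
 ⟨p086_k48, nat_lit 0, nat_lit 0, nat_lit 69, nat_lit 0, nat_lit 0, [nat_lit 1986976001, nat_lit 2287510400, nat_lit 3051951680], [], [nat_lit 21489604020, nat_lit 23023516985, nat_lit 21453698632, nat_lit 22797496812, nat_lit 22643757834, nat_lit 24194308101, nat_lit 22486093588, nat_lit 23919323758], nat_lit 0, nat_lit 0, nat_lit 0, nat_lit 0, nat_lit 0, nat_lit 0, [], [nat_lit 27, nat_lit 40, nat_lit 40, nat_lit 80, nat_lit 13, nat_lit 238, nat_lit 30, nat_lit 6]⟩, C1.Rw.none,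
 ⟨nat_lit 3872, nat_lit 4473, ⟨.ofNat (nat_lit 360688), .ofNat (nat_lit 428674), .ofNat (nat_lit 382237), .ofNat (nat_lit 450223), .ofNat (nat_lit 371739), .ofNat (nat_lit 436268), .ofNat (nat_lit 393514), .ofNat (nat_lit 458043)⟩, ⟨.ofNat (nat_lit 506556), .ofNat (nat_lit 540545), .ofNat (nat_lit 549689), .ofNat (nat_lit 583678), .ofNat (nat_lit 498282), .ofNat (nat_lit 530543), .ofNat (nat_lit 541869), .ofNat (nat_lit 574129)⟩⟩, [⟨nat_lit 0, nat_lit 100, nat_lit 81, nat_lit 93, nat_lit 140567681⟩, ⟨nat_lit 16, nat_lit 87, nat_lit 95, nat_lit 100, nat_lit 272780713⟩]⟩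
noncomputable def p086_l137 : Lf2 := ⟨nat_lit 0, nat_lit 20, [nat_lit 5, nat_lit 5, nat_lit 5, nat_lit 20], true, nat_lit 160, nat_lit 300, nat_lit 0, nat_lit 364, ⟨nat_lit 0, nat_lit 1000, nat_lit 0, nat_lit 6, nat_lit 213, nat_lit 1000, nat_lit 177, nat_lit 0, nat_lit 0, nat_lit 0, nat_lit 0, nat_lit 0, nat_lit 43135268, nat_lit 13685239, nat_lit 10179493, nat_lit 4812761, false, false⟩,
 nat_lit 0, nat_lit 0, nat_lit 0, nat_lit 5269, nat_lit 3150, nat_lit 0, nat_lit 0, nat_lit 0, nat_lit 0, nat_lit 0, nat_lit 0, nat_lit 0, nat_lit 0, nat_lit 0, nat_lit 0, nat_lit 250000, nat_lit 0, nat_lit 0, [(nat_lit 19, [(nat_lit 0, nat_lit 1000)])],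
 ⟨p086_k48, nat_lit 0, nat_lit 0, nat_lit 54, nat_lit 0, nat_lit 0, [nat_lit 1542400001, nat_lit 2368400000, nat_lit 3220880000], [], [nat_lit 15751320801, nat_lit 17328697001, nat_lit 19403553801, nat_lit 20695400801, nat_lit 21685552951, nat_lit 22897893100, nat_lit 24266364701, nat_lit 25262222801], nat_lit 0, nat_lit 0, nat_lit 0, nat_lit 0, nat_lit 0, nat_lit 0, [], [nat_lit 27, nat_lit 40, nat_lit 40, nat_lit 80, nat_lit 13, nat_lit 373, nat_lit 150, nat_lit 10]⟩, C1.Rw.none,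
 ⟨nat_lit 3872, nat_lit 4473, ⟨.ofNat (nat_lit 407125), .ofNat (nat_lit 611083), .ofNat (nat_lit 450223), .ofNat (nat_lit 654181), .ofNat (nat_lit 414492), .ofNat (nat_lit 608080), .ofNat (nat_lit 458043), .ofNat (nat_lit 651631)⟩, ⟨.ofNat (nat_lit 302621), .ofNat (nat_lit 540545), .ofNat (nat_lit 345754), .ofNat (nat_lit 583678), .ofNat (nat_lit 304717), .ofNat (nat_lit 530543), .ofNat (nat_lit 348304), .ofNat (nat_lit 574129)⟩⟩, [⟨nat_lit 16, nat_lit 81, nat_lit 100, nat_lit 92, nat_lit 198501253⟩]⟩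
noncomputable def p086_l138 : Lf2 := ⟨nat_lit 0, nat_lit 20, [nat_lit 5, nat_lit 5, nat_lit 5, nat_lit 20], true, nat_lit 160, nat_lit 276, nat_lit 0, nat_lit 364, ⟨nat_lit 0, nat_lit 1000, nat_lit 0, nat_lit 6, nat_lit 214, nat_lit 1000, nat_lit 167, nat_lit 0, nat_lit 0, nat_lit 0, nat_lit 0, nat_lit 0, nat_lit 43678265, nat_lit 13892413, nat_lit 9429322, nat_lit 4737662, false, false⟩,
 nat_lit 0, nat_lit 0, nat_lit 0, nat_lit 5074, nat_lit 3162, nat_lit 0, nat_lit 0, nat_lit 0, nat_lit 0, nat_lit 0, nat_lit 0, nat_lit 0, nat_lit 0, nat_lit 0, nat_lit 0, nat_lit 250000, nat_lit 0, nat_lit 0, [(nat_lit 22, [(nat_lit 0, nat_lit 1000)])],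
 ⟨p086_k51, nat_lit 0, nat_lit 0, nat_lit 58, nat_lit 0, nat_lit 0, [nat_lit 1568000001, nat_lit 1970800000, nat_lit 2712400000], [], [nat_lit 17348071641, nat_lit 18928456337, nat_lit 20715404865, nat_lit 22009503785, nat_lit 21772290081, nat_lit 23060269719, nat_lit 24344929397, nat_lit 25395170220], nat_lit 0, nat_lit 0, nat_lit 0, nat_lit 0, nat_lit 0, nat_lit 0, [], [nat_lit 34, nat_lit 40, nat_lit 40, nat_lit 80, nat_lit 7, nat_lit 373, nat_lit 150, nat_lit 11]⟩, C1.Rw.none,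
 ⟨nat_lit 3162, nat_lit 3873, ⟨.ofNat (nat_lit 414421), .ofNat (nat_lit 608082), .ofNat (nat_lit 457950), .ofNat (nat_lit 651611), .ofNat (nat_lit 422280), .ofNat (nat_lit 605237), .ofNat (nat_lit 466533), .ofNat (nat_lit 649490)⟩, ⟨.ofNat (nat_lit 304717), .ofNat (nat_lit 491830), .ofNat (nat_lit 348304), .ofNat (nat_lit 535416), .ofNat (nat_lit 306116), .ofNat (nat_lit 482881), .ofNat (nat_lit 350426), .ofNat (nat_lit 527190)⟩⟩, [⟨nat_lit 16, nat_lit 67, nat_lit 100, nat_lit 88, nat_lit 146353754⟩, ⟨nat_lit 16, nat_lit 77, nat_lit 100, nat_lit 99, nat_lit 75712151⟩]⟩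
noncomputable def b_V_800_600_20_31 : St := ⟨true, nat_lit 0, nat_lit 1, nat_lit 1, nat_lit 120, nat_lit 320, nat_lit 360, nat_lit 240, nat_lit 280, nat_lit 64, nat_lit 240, nat_lit 80, nat_lit 120, nat_lit 0, nat_lit 300, nat_lit 0, nat_lit 364, nat_lit 40, nat_lit 80, nat_lit 0, nat_lit 0, nat_lit 0, nat_lit 0⟩
theorem d_V_800_600_20_31 (h : EB TB.env) : Dead b_V_800_600_20_31 := chkB_sound0 h (T :=
(.spl (nat_lit 4) (nat_lit 160)
(.spl (nat_lit 2) (nat_lit 160)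
(.spl (nat_lit 0) (nat_lit 340)
(.spl (nat_lit 2) (nat_lit 120)
(.leaf p086_l122)
(.leaf p086_l123))
(.trZ (nat_lit 0) (nat_lit 100) (nat_lit 73) (nat_lit 85) (nat_lit 88) (.spl (nat_lit 0) (nat_lit 350)
(.leaf p086_l124)
(.trZ (nat_lit 0) (nat_lit 100) (nat_lit 68) (nat_lit 89) (nat_lit 100) (.trZ (nat_lit 3) (nat_lit 100) (nat_lit 83) (nat_lit 25) (nat_lit 4) (.leaf p086_l125))))))
(.spl (nat_lit 4) (nat_lit 80)
(.spl (nat_lit 5) (nat_lit 160)
(.spl (nat_lit 0) (nat_lit 340)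
(.leaf p086_l126)
(.leaf p086_l127))
(.spl (nat_lit 0) (nat_lit 340)
(.spl (nat_lit 1) (nat_lit 260)
(.leaf p086_l128)
(.trX (nat_lit 19) (nat_lit 100) (nat_lit 69) (nat_lit 96) (nat_lit 352) (.leaf p086_l129)))
(.spl (nat_lit 1) (nat_lit 260)
(.leaf p086_l130)
(.trX (nat_lit 19) (nat_lit 100) (nat_lit 69) (nat_lit 96) (nat_lit 352) (.leaf p086_l131)))))
(.leaf p086_l132)))
(.spl (nat_lit 2) (nat_lit 120)
(.spl (nat_lit 1) (nat_lit 260)
(.leaf p086_l133)
(.trZ (nat_lit 0) (nat_lit 100) (nat_lit 84) (nat_lit 85) (nat_lit 80) (.trX (nat_lit 19) (nat_lit 100) (nat_lit 69) (nat_lit 96) (nat_lit 352) (.spl (nat_lit 4) (nat_lit 240)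
(.leaf p086_l134)
(.spl (nat_lit 4) (nat_lit 280)
(.leaf p086_l135)
(.trX (nat_lit 23) (nat_lit 100) (nat_lit 80) (nat_lit 100) (nat_lit 336) (.spl (nat_lit 0) (nat_lit 340)
(.leaf p086_l136)
(.trZ (nat_lit 0) (nat_lit 100) (nat_lit 75) (nat_lit 92) (nat_lit 104) (.emL (nat_lit 16) (nat_lit 77) (nat_lit 100) (nat_lit 99))))))))))
(.spl (nat_lit 0) (nat_lit 340)
(.leaf p086_l137)
(.trX (nat_lit 16) (nat_lit 77) (nat_lit 100) (nat_lit 99) (nat_lit 276) (.leaf p086_l138)))))) (by decide +kernel)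

end B2
end Pool.Agent.Lib.MP_6947cd_al
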