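import Pool.Agent.Lib.MP_6947cd_al.ZB.Pre

/-!
Problem MP_6947cd_al (Chollet).  Case B, second entry in [2/5, 17/20]: certificates of the tree, part P087 (generated).
-/

set_option autoImplicit false
set_option linter.all false

namespace Pool.Agent.Lib.MP_6947cd_al
namespace B2

open Ent Fr B1 PkA

noncomputable def p087_k0 : C1.Kn := ⟨[nat_lit 40, nat_lit 80, nat_lit 140], [nat_lit 0, nat_lit 0, nat_lit 3199], [(nat_lit 0, nat_lit 0, nat_lit 0), (nat_lit 0, nat_lit 0, nat_lit 0), (nat_lit 1000, nat_lit 833, nat_lit 833)], (nat_lit 82, nat_lit 100, nat_lit 79)⟩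
noncomputable def p087_k1 : C1.Kn := ⟨[nat_lit 80, nat_lit 120, nat_lit 180], [nat_lit 0, nat_lit 0, nat_lit 3196], [(nat_lit 0, nat_lit 0, nat_lit 0), (nat_lit 0, nat_lit 0, nat_lit 0), (nat_lit 858, nat_lit 1000, nat_lit 713)], (nat_lit 100, nat_lit 80, nat_lit 78)⟩
noncomputable def p087_k2 : C1.Kn := ⟨[nat_lit 80, nat_lit 120, nat_lit 160], [nat_lit 0, nat_lit 264, nat_lit 2353], [(nat_lit 0, nat_lit 0, nat_lit 0), (nat_lit 1000, nat_lit 979, nat_lit 103), (nat_lit 893, nat_lit 1000, nat_lit 726)], (nat_lit 100, nat_lit 84, nat_lit 79)⟩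
noncomputable def p087_k3 : C1.Kn := ⟨[nat_lit 40, nat_lit 80, nat_lit 140], [nat_lit 0, nat_lit 0, nat_lit 3199], [(nat_lit 0, nat_lit 0, nat_lit 0), (nat_lit 0, nat_lit 0, nat_lit 0), (nat_lit 1000, nat_lit 833, nat_lit 833)], (nat_lit 83, nat_lit 100, nat_lit 83)⟩
noncomputable def p087_k4 : C1.Kn := ⟨[nat_lit 80, nat_lit 120, nat_lit 160], [nat_lit 0, nat_lit 528, nat_lit 2577], [(nat_lit 0, nat_lit 0, nat_lit 0), (nat_lit 1000, nat_lit 959, nat_lit 206), (nat_lit 929, nat_lit 1000, nat_lit 742)], (nat_lit 100, nat_lit 85, nat_lit 84)⟩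
noncomputable def p087_k5 : C1.Kn := ⟨[nat_lit 40, nat_lit 80, nat_lit 140], [nat_lit 0, nat_lit 395, nat_lit 3500], [(nat_lit 0, nat_lit 0, nat_lit 0), (nat_lit 1000, nat_lit 908, nat_lit 154), (nat_lit 1000, nat_lit 776, nat_lit 808)], (nat_lit 78, nat_lit 100, nat_lit 82)⟩
noncomputable def p087_k6 : C1.Kn := ⟨[nat_lit 40, nat_lit 80, nat_lit 120], [nat_lit 0, nat_lit 593, nat_lit 2634], [(nat_lit 0, nat_lit 0, nat_lit 0), (nat_lit 1000, nat_lit 861, nat_lit 231), (nat_lit 1000, nat_lit 748, nat_lit 797)], (nat_lit 75, nat_lit 100, nat_lit 81)⟩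
noncomputable def p087_k7 : C1.Kn := ⟨[nat_lit 40, nat_lit 80, nat_lit 120], [nat_lit 0, nat_lit 795, nat_lit 2800], [(nat_lit 0, nat_lit 0, nat_lit 0), (nat_lit 1000, nat_lit 814, nat_lit 310), (nat_lit 1000, nat_lit 719, nat_lit 783)], (nat_lit 72, nat_lit 100, nat_lit 81)⟩
noncomputable def p087_k8 : C1.Kn := ⟨[nat_lit 80, nat_lit 120, nat_lit 180], [nat_lit 0, nat_lit 0, nat_lit 3196], [(nat_lit 0, nat_lit 0, nat_lit 0), (nat_lit 0, nat_lit 0, nat_lit 0), (nat_lit 858, nat_lit 1000, nat_lit 713)], (nat_lit 100, nat_lit 76, nat_lit 82)⟩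
noncomputable def p087_k9 : C1.Kn := ⟨[nat_lit 40, nat_lit 80, nat_lit 120], [nat_lit 0, nat_lit 1195, nat_lit 3135], [(nat_lit 0, nat_lit 0, nat_lit 0), (nat_lit 1000, nat_lit 720, nat_lit 465), (nat_lit 1000, nat_lit 661, nat_lit 757)], (nat_lit 66, nat_lit 100, nat_lit 80)⟩
noncomputable def p087_k10 : C1.Kn := ⟨[nat_lit 40, nat_lit 80, nat_lit 120], [nat_lit 0, nat_lit 1399, nat_lit 3299], [(nat_lit 0, nat_lit 0, nat_lit 0), (nat_lit 1000, nat_lit 672, nat_lit 546), (nat_lit 1000, nat_lit 633, nat_lit 742)], (nat_lit 63, nat_lit 100, nat_lit 80)⟩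
noncomputable def p087_k11 : C1.Kn := ⟨[nat_lit 80, nat_lit 120, nat_lit 180], [nat_lit 0, nat_lit 264, nat_lit 3394], [(nat_lit 0, nat_lit 0, nat_lit 0), (nat_lit 1000, nat_lit 979, nat_lit 103), (nat_lit 893, nat_lit 1000, nat_lit 726)], (nat_lit 100, nat_lit 81, nat_lit 83)⟩
noncomputable def p087_k12 : C1.Kn := ⟨[nat_lit 80, nat_lit 120, nat_lit 160], [nat_lit 0, nat_lit 796, nat_lit 2802], [(nat_lit 0, nat_lit 0, nat_lit 0), (nat_lit 1000, nat_lit 938, nat_lit 310), (nat_lit 969, nat_lit 1000, nat_lit 759)], (nat_lit 100, nat_lit 90, nat_lit 85)⟩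
noncomputable def p087_k13 : C1.Kn := ⟨[nat_lit 40, nat_lit 100, nat_lit 120], [nat_lit 0, nat_lit 1192, nat_lit 2817], [(nat_lit 0, nat_lit 0, nat_lit 0), (nat_lit 1000, nat_lit 814, nat_lit 310), (nat_lit 1000, nat_lit 727, nat_lit 834)], (nat_lit 72, nat_lit 100, nat_lit 81)⟩
noncomputable def p087_k14 : C1.Kn := ⟨[nat_lit 80, nat_lit 140, nat_lit 180], [nat_lit 0, nat_lit 0, nat_lit 3656], [(nat_lit 0, nat_lit 0, nat_lit 0), (nat_lit 0, nat_lit 0, nat_lit 0), (nat_lit 637, nat_lit 1000, nat_lit 908)], (nat_lit 100, nat_lit 76, nat_lit 82)⟩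
noncomputable def p087_k15 : C1.Kn := ⟨[nat_lit 80, nat_lit 140, nat_lit 160], [nat_lit 0, nat_lit 792, nat_lit 2667], [(nat_lit 0, nat_lit 0, nat_lit 0), (nat_lit 1000, nat_lit 959, nat_lit 206), (nat_lit 846, nat_lit 1000, nat_lit 844)], (nat_lit 100, nat_lit 85, nat_lit 84)⟩
noncomputable def p087_k16 : C1.Kn := ⟨[nat_lit 40, nat_lit 140], [nat_lit 0, nat_lit 0], [(nat_lit 0, nat_lit 0, nat_lit 0), (nat_lit 0, nat_lit 0, nat_lit 0)], (nat_lit 83, nat_lit 100, nat_lit 83)⟩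
noncomputable def p087_k17 : C1.Kn := ⟨[nat_lit 40, nat_lit 60, nat_lit 120], [nat_lit 0, nat_lit 398, nat_lit 2180], [(nat_lit 0, nat_lit 0, nat_lit 0), (nat_lit 1000, nat_lit 814, nat_lit 310), (nat_lit 1000, nat_lit 752, nat_lit 464)], (nat_lit 72, nat_lit 100, nat_lit 81)⟩
noncomputable def p087_k18 : C1.Kn := ⟨[nat_lit 80, nat_lit 100, nat_lit 160], [nat_lit 0, nat_lit 265, nat_lit 1771], [(nat_lit 0, nat_lit 0, nat_lit 0), (nat_lit 1000, nat_lit 959, nat_lit 206), (nat_lit 1000, nat_lit 958, nat_lit 392)], (nat_lit 100, nat_lit 85, nat_lit 84)⟩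
noncomputable def p087_k19 : C1.Kn := ⟨[nat_lit 80, nat_lit 100, nat_lit 160], [nat_lit 0, nat_lit 399, nat_lit 1893], [(nat_lit 0, nat_lit 0, nat_lit 0), (nat_lit 1000, nat_lit 938, nat_lit 310), (nat_lit 1000, nat_lit 938, nat_lit 389)], (nat_lit 100, nat_lit 90, nat_lit 85)⟩
noncomputable def p087_k20 : C1.Kn := ⟨[nat_lit 40, nat_lit 80, nat_lit 120], [nat_lit 0, nat_lit 395, nat_lit 2466], [(nat_lit 0, nat_lit 0, nat_lit 0), (nat_lit 1000, nat_lit 908, nat_lit 154), (nat_lit 1000, nat_lit 773, nat_lit 792)], (nat_lit 77, nat_lit 100, nat_lit 78)⟩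
noncomputable def p087_k21 : C1.Kn := ⟨[nat_lit 40, nat_lit 80, nat_lit 120], [nat_lit 0, nat_lit 795, nat_lit 2800], [(nat_lit 0, nat_lit 0, nat_lit 0), (nat_lit 1000, nat_lit 814, nat_lit 310), (nat_lit 1000, nat_lit 719, nat_lit 783)], (nat_lit 71, nat_lit 100, nat_lit 71)⟩
noncomputable def p087_k22 : C1.Kn := ⟨[nat_lit 80, nat_lit 120, nat_lit 160], [nat_lit 0, nat_lit 0, nat_lit 2132], [(nat_lit 0, nat_lit 0, nat_lit 0), (nat_lit 0, nat_lit 0, nat_lit 0), (nat_lit 858, nat_lit 1000, nat_lit 713)], (nat_lit 100, nat_lit 85, nat_lit 73)⟩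
noncomputable def p087_k23 : C1.Kn := ⟨[nat_lit 80, nat_lit 120, nat_lit 160], [nat_lit 0, nat_lit 264, nat_lit 2353], [(nat_lit 0, nat_lit 0, nat_lit 0), (nat_lit 1000, nat_lit 979, nat_lit 103), (nat_lit 893, nat_lit 1000, nat_lit 726)], (nat_lit 100, nat_lit 88, nat_lit 74)⟩
noncomputable def p087_k24 : C1.Kn := ⟨[nat_lit 40, nat_lit 80, nat_lit 100], [nat_lit 0, nat_lit 1195, nat_lit 2166], [(nat_lit 0, nat_lit 0, nat_lit 0), (nat_lit 1000, nat_lit 720, nat_lit 465), (nat_lit 1000, nat_lit 662, nat_lit 740)], (nat_lit 66, nat_lit 100, nat_lit 72)⟩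
noncomputable def p087_k25 : C1.Kn := ⟨[nat_lit 80, nat_lit 120, nat_lit 160], [nat_lit 0, nat_lit 395, nat_lit 2466], [(nat_lit 0, nat_lit 0, nat_lit 0), (nat_lit 1000, nat_lit 969, nat_lit 154), (nat_lit 910, nat_lit 1000, nat_lit 734)], (nat_lit 100, nat_lit 90, nat_lit 74)⟩
noncomputable def p087_k26 : C1.Kn := ⟨[nat_lit 80, nat_lit 120, nat_lit 160], [nat_lit 0, nat_lit 664, nat_lit 2688], [(nat_lit 0, nat_lit 0, nat_lit 0), (nat_lit 1000, nat_lit 948, nat_lit 259), (nat_lit 949, nat_lit 1000, nat_lit 749)], (nat_lit 100, nat_lit 87, nat_lit 85)⟩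
noncomputable def p087_k27 : C1.Kn := ⟨[nat_lit 40, nat_lit 80, nat_lit 120], [nat_lit 0, nat_lit 1518, nat_lit 3403], [(nat_lit 0, nat_lit 0, nat_lit 0), (nat_lit 1000, nat_lit 644, nat_lit 592), (nat_lit 1000, nat_lit 615, nat_lit 736)], (nat_lit 61, nat_lit 100, nat_lit 80)⟩
noncomputable def p087_k28 : C1.Kn := ⟨[nat_lit 40, nat_lit 100, nat_lit 140], [nat_lit 0, nat_lit 0, nat_lit 3243], [(nat_lit 0, nat_lit 0, nat_lit 0), (nat_lit 0, nat_lit 0, nat_lit 0), (nat_lit 1000, nat_lit 870, nat_lit 941)], (nat_lit 83, nat_lit 100, nat_lit 83)⟩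
noncomputable def p087_k29 : C1.Kn := ⟨[nat_lit 40, nat_lit 140], [nat_lit 0, nat_lit 986], [(nat_lit 0, nat_lit 0, nat_lit 0), (nat_lit 1000, nat_lit 908, nat_lit 154)], (nat_lit 78, nat_lit 100, nat_lit 82)⟩
noncomputable def p087_k30 : C1.Kn := ⟨[nat_lit 40, nat_lit 80, nat_lit 140], [nat_lit 0, nat_lit 0, nat_lit 3199], [(nat_lit 0, nat_lit 0, nat_lit 0), (nat_lit 0, nat_lit 0, nat_lit 0), (nat_lit 1000, nat_lit 833, nat_lit 833)], (nat_lit 82, nat_lit 100, nat_lit 77)⟩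
noncomputable def p087_k31 : C1.Kn := ⟨[nat_lit 40, nat_lit 80, nat_lit 120], [nat_lit 0, nat_lit 395, nat_lit 2466], [(nat_lit 0, nat_lit 0, nat_lit 0), (nat_lit 1000, nat_lit 908, nat_lit 154), (nat_lit 1000, nat_lit 773, nat_lit 792)], (nat_lit 77, nat_lit 100, nat_lit 76)⟩
noncomputable def p087_k32 : C1.Kn := ⟨[nat_lit 40, nat_lit 80, nat_lit 120], [nat_lit 0, nat_lit 0, nat_lit 2151], [(nat_lit 0, nat_lit 0, nat_lit 0), (nat_lit 0, nat_lit 0, nat_lit 0), (nat_lit 1000, nat_lit 815, nat_lit 753)], (nat_lit 81, nat_lit 100, nat_lit 72)⟩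
noncomputable def p087_k33 : C1.Kn := ⟨[nat_lit 80, nat_lit 120, nat_lit 160], [nat_lit 0, nat_lit 528, nat_lit 2577], [(nat_lit 0, nat_lit 0, nat_lit 0), (nat_lit 1000, nat_lit 959, nat_lit 206), (nat_lit 929, nat_lit 1000, nat_lit 742)], (nat_lit 100, nat_lit 92, nat_lit 75)⟩
noncomputable def p087_k34 : C1.Kn := ⟨[nat_lit 40, nat_lit 80, nat_lit 120], [nat_lit 0, nat_lit 395, nat_lit 2466], [(nat_lit 0, nat_lit 0, nat_lit 0), (nat_lit 1000, nat_lit 908, nat_lit 154), (nat_lit 1000, nat_lit 773, nat_lit 792)], (nat_lit 76, nat_lit 100, nat_lit 72)⟩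
noncomputable def p087_k35 : C1.Kn := ⟨[nat_lit 80, nat_lit 120, nat_lit 160], [nat_lit 0, nat_lit 796, nat_lit 2802], [(nat_lit 0, nat_lit 0, nat_lit 0), (nat_lit 1000, nat_lit 938, nat_lit 310), (nat_lit 969, nat_lit 1000, nat_lit 759)], (nat_lit 100, nat_lit 97, nat_lit 76)⟩
noncomputable def p087_k36 : C1.Kn := ⟨[nat_lit 40, nat_lit 80, nat_lit 100], [nat_lit 0, nat_lit 395, nat_lit 1536], [(nat_lit 0, nat_lit 0, nat_lit 0), (nat_lit 1000, nat_lit 908, nat_lit 154), (nat_lit 1000, nat_lit 760, nat_lit 642)], (nat_lit 76, nat_lit 100, nat_lit 65)⟩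
noncomputable def p087_k37 : C1.Kn := ⟨[nat_lit 80, nat_lit 120, nat_lit 140], [nat_lit 0, nat_lit 796, nat_lit 1801], [(nat_lit 0, nat_lit 0, nat_lit 0), (nat_lit 1000, nat_lit 938, nat_lit 310), (nat_lit 982, nat_lit 1000, nat_lit 736)], (nat_lit 100, nat_lit 100, nat_lit 69)⟩
noncomputable def p087_k38 : C1.Kn := ⟨[nat_lit 80, nat_lit 120, nat_lit 140], [nat_lit 0, nat_lit 528, nat_lit 1572], [(nat_lit 0, nat_lit 0, nat_lit 0), (nat_lit 1000, nat_lit 959, nat_lit 206), (nat_lit 966, nat_lit 1000, nat_lit 679)], (nat_lit 100, nat_lit 96, nat_lit 68)⟩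
noncomputable def p087_k39 : C1.Kn := ⟨[nat_lit 40, nat_lit 60, nat_lit 100], [nat_lit 0, nat_lit 197, nat_lit 1403], [(nat_lit 0, nat_lit 0, nat_lit 0), (nat_lit 1000, nat_lit 908, nat_lit 154), (nat_lit 1000, nat_lit 781, nat_lit 471)], (nat_lit 76, nat_lit 100, nat_lit 65)⟩
noncomputable def p087_k40 : C1.Kn := ⟨[nat_lit 80, nat_lit 100, nat_lit 140], [nat_lit 0, nat_lit 399, nat_lit 1395], [(nat_lit 0, nat_lit 0, nat_lit 0), (nat_lit 1000, nat_lit 938, nat_lit 310), (nat_lit 1000, nat_lit 938, nat_lit 389)], (nat_lit 100, nat_lit 100, nat_lit 69)⟩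
noncomputable def p087_k41 : C1.Kn := ⟨[nat_lit 80, nat_lit 120, nat_lit 140], [nat_lit 0, nat_lit 929, nat_lit 1922], [(nat_lit 0, nat_lit 0, nat_lit 0), (nat_lit 1000, nat_lit 927, nat_lit 362), (nat_lit 993, nat_lit 1000, nat_lit 764)], (nat_lit 100, nat_lit 99, nat_lit 77)⟩
noncomputable def p087_k42 : C1.Kn := ⟨[nat_lit 80, nat_lit 120, nat_lit 160], [nat_lit 0, nat_lit 929, nat_lit 2912], [(nat_lit 0, nat_lit 0, nat_lit 0), (nat_lit 1000, nat_lit 927, nat_lit 362), (nat_lit 991, nat_lit 1000, nat_lit 767)], (nat_lit 100, nat_lit 92, nat_lit 86)⟩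
noncomputable def p087_l0 : Lf2 := ⟨nat_lit 0, nat_lit 18, [nat_lit 100, nat_lit 5, nat_lit 5, nat_lit 20], false, nat_lit 0, nat_lit 160, nat_lit 0, nat_lit 364, ⟨nat_lit 1000, nat_lit 0, nat_lit 0, nat_lit 0, nat_lit 0, nat_lit 0, nat_lit 0, nat_lit 0, nat_lit 0, nat_lit 0, nat_lit 0, nat_lit 0, nat_lit 0, nat_lit 0, nat_lit 0, nat_lit 0, false, false⟩,
 nat_lit 0, nat_lit 0, nat_lit 15206, nat_lit 0, nat_lit 6964, nat_lit 8050, nat_lit 830, nat_lit 0, nat_lit 0, nat_lit 937, nat_lit 0, nat_lit 0, nat_lit 0, nat_lit 0, nat_lit 0, nat_lit 0, nat_lit 0, nat_lit 0, [],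
 ⟨p087_k0, nat_lit 0, nat_lit 0, nat_lit 209, nat_lit 0, nat_lit 0, [nat_lit 2032000001, nat_lit 4688000000, nat_lit 9842000000], [], [nat_lit 26310233942, nat_lit 28365331816, nat_lit 39463277629, nat_lit 41012381547, nat_lit 21264605958, nat_lit 22426972528, nat_lit 31543797656, nat_lit 32892213250], nat_lit 0, nat_lit 0, nat_lit 0, nat_lit 0, nat_lit 0, nat_lit 0, [], [nat_lit 27, nat_lit 40, nat_lit 40, nat_lit 80, nat_lit 13, nat_lit 373, nat_lit 150, nat_lit 10]⟩, ⟨p087_k1, nat_lit 0, nat_lit 0, nat_lit 444, nat_lit 0, nat_lit 332792, [nat_lit 4688000000, nat_lit 7968000000, nat_lit 14058000000], [], [nat_lit 34002269500, nat_lit 34333130200, nat_lit 40791463181, nat_lit 41030364671, nat_lit 33752452170, nat_lit 32366856646, nat_lit 36662568088, nat_lit 36745241975], nat_lit 1271250, nat_lit 1271250, nat_lit 1271250, nat_lit 1271250, nat_lit 0, nat_lit 2570750, [nat_lit 1100000, nat_lit 1785000, nat_lit 1271250],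 [nat_lit 37, nat_lit 40, nat_lit 40, nat_lit 80, nat_lit 28, nat_lit 538, nat_lit 300, nat_lit 12]⟩,
 zbF0, [⟨nat_lit 7, nat_lit 70, nat_lit 100, nat_lit 89, nat_lit 74101752⟩, ⟨nat_lit 22, nat_lit 87, nat_lit 100, nat_lit 84, nat_lit 97737329⟩]⟩
noncomputable def p087_l1 : Lf2 := ⟨nat_lit 0, nat_lit 18, [nat_lit 100, nat_lit 5, nat_lit 5, nat_lit 20], false, nat_lit 0, nat_lit 160, nat_lit 0, nat_lit 360, ⟨nat_lit 1000, nat_lit 0, nat_lit 0, nat_lit 0, nat_lit 0, nat_lit 0, nat_lit 0, nat_lit 0, nat_lit 0, nat_lit 0, nat_lit 0, nat_lit 0, nat_lit 0, nat_lit 0, nat_lit 0, nat_lit 0, false, false⟩,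
 nat_lit 0, nat_lit 0, nat_lit 13500, nat_lit 0, nat_lit 6964, nat_lit 7500, nat_lit 830, nat_lit 0, nat_lit 0, nat_lit 884, nat_lit 0, nat_lit 0, nat_lit 0, nat_lit 0, nat_lit 0, nat_lit 0, nat_lit 0, nat_lit 0, [],
 ⟨p087_k0, nat_lit 0, nat_lit 0, nat_lit 210, nat_lit 0, nat_lit 0, [nat_lit 2032000001, nat_lit 4688000000, nat_lit 9842000000], [], [nat_lit 26310233942, nat_lit 28365331816, nat_lit 39894685348, nat_lit 41417629410, nat_lit 21264605958, nat_lit 22426972528, nat_lit 31913536177, nat_lit 33240877543], nat_lit 0, nat_lit 0, nat_lit 0, nat_lit 0, nat_lit 0, nat_lit 0, [], [nat_lit 27, nat_lit 40, nat_lit 40, nat_lit 80, nat_lit 13, nat_lit 373, nat_lit 150, nat_lit 10]⟩, ⟨p087_k2, nat_lit 0, nat_lit 0, nat_lit 417, nat_lit 0, nat_lit 386381, [nat_lit 4688000000, nat_lit 7968000000, nat_lit 11872000000], [], [nat_lit 31996948000, nat_lit 32385304500, nat_lit 39406433301, nat_lit 39602909500, nat_lit 31788913000,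 nat_lit 31940259500, nat_lit 36250118201, nat_lit 36339971201], nat_lit 1271250, nat_lit 1271250, nat_lit 1271250, nat_lit 1271250, nat_lit 0, nat_lit 2542500, [nat_lit 1100000, nat_lit 1785000, nat_lit 1271250], [nat_lit 21, nat_lit 40, nat_lit 40, nat_lit 80, nat_lit 14, nat_lit 538, nat_lit 300, nat_lit 13]⟩,
 zbF0, [⟨nat_lit 7, nat_lit 75, nat_lit 100, nat_lit 90, nat_lit 85401495⟩, ⟨nat_lit 22, nat_lit 85, nat_lit 100, nat_lit 84, nat_lit 102386080⟩]⟩
noncomputable def p087_l2 : Lf2 := ⟨nat_lit 1, nat_lit 20, [nat_lit 5, nat_lit 5, nat_lit 5, nat_lit 20], false, nat_lit 0, nat_lit 160, nat_lit 0, nat_lit 364, zbN0,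
 nat_lit 0, nat_lit 0, nat_lit 0, nat_lit 0, nat_lit 0, nat_lit 0, nat_lit 0, nat_lit 0, nat_lit 0, nat_lit 0, nat_lit 0, nat_lit 0, nat_lit 0, nat_lit 0, nat_lit 0, nat_lit 0, nat_lit 0, nat_lit 0, [],
 C1.Rw.none, C1.Rw.none,
 zbF0, []⟩
noncomputable def p087_l3 : Lf2 := ⟨nat_lit 0, nat_lit 20, [nat_lit 5, nat_lit 5, nat_lit 5, nat_lit 20], false, nat_lit 0, nat_lit 160, nat_lit 0, nat_lit 352, ⟨nat_lit 1000, nat_lit 0, nat_lit 0, nat_lit 0, nat_lit 0, nat_lit 0, nat_lit 0, nat_lit 0, nat_lit 0, nat_lit 0, nat_lit 0, nat_lit 0, nat_lit 0, nat_lit 0, nat_lit 0, nat_lit 0, false, false⟩,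
 nat_lit 0, nat_lit 0, nat_lit 12235, nat_lit 0, nat_lit 5633, nat_lit 7121, nat_lit 837, nat_lit 0, nat_lit 0, nat_lit 892, nat_lit 0, nat_lit 0, nat_lit 0, nat_lit 0, nat_lit 0, nat_lit 0, nat_lit 0, nat_lit 0, [],
 ⟨p087_k3, nat_lit 0, nat_lit 0, nat_lit 209, nat_lit 0, nat_lit 0, [nat_lit 2032000001, nat_lit 4688000000, nat_lit 9842000000], [], [nat_lit 26673729493, nat_lit 27288366108, nat_lit 36656432364, nat_lit 37323999625, nat_lit 23580083301, nat_lit 24100189908, nat_lit 31391966704, nat_lit 31826502107], nat_lit 0, nat_lit 0, nat_lit 0, nat_lit 0, nat_lit 0, nat_lit 0, [], [nat_lit 27, nat_lit 40, nat_lit 40, nat_lit 80, nat_lit 13, nat_lit 373, nat_lit 150, nat_lit 10]⟩, ⟨p087_k4, nat_lit 0, nat_lit 0, nat_lit 410, nat_lit 0, nat_lit 366898, [nat_lit 4688000000, nat_lit 7968000000, nat_lit 11872000000], [], [nat_lit 31579856444, nat_lit 32096352000, nat_lit 38559771659, nat_lit 39102156210, nat_lit 30942991991,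 nat_lit 31225316445, nat_lit 35686526778, nat_lit 36159939603], nat_lit 1271250, nat_lit 1271250, nat_lit 1271250, nat_lit 1271250, nat_lit 0, nat_lit 2486000, [nat_lit 1100000, nat_lit 1785000, nat_lit 1271250], [nat_lit 21, nat_lit 40, nat_lit 40, nat_lit 80, nat_lit 14, nat_lit 538, nat_lit 300, nat_lit 13]⟩,
 zbF0, [⟨nat_lit 19, nat_lit 100, nat_lit 82, nat_lit 92, nat_lit 164638643⟩]⟩
noncomputable def p087_l4 : Lf2 := ⟨nat_lit 0, nat_lit 20, [nat_lit 5, nat_lit 5, nat_lit 5, nat_lit 20], false, nat_lit 0, nat_lit 160, nat_lit 0, nat_lit 352, ⟨nat_lit 1000, nat_lit 0, nat_lit 0, nat_lit 0, nat_lit 0, nat_lit 0, nat_lit 0, nat_lit 0, nat_lit 0, nat_lit 0, nat_lit 0, nat_lit 0, nat_lit 0, nat_lit 0, nat_lit 0, nat_lit 0, false, false⟩,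
 nat_lit 0, nat_lit 0, nat_lit 12565, nat_lit 0, nat_lit 5490, nat_lit 7313, nat_lit 855, nat_lit 0, nat_lit 0, nat_lit 841, nat_lit 0, nat_lit 0, nat_lit 0, nat_lit 0, nat_lit 0, nat_lit 0, nat_lit 0, nat_lit 0, [],
 ⟨p087_k5, nat_lit 0, nat_lit 0, nat_lit 209, nat_lit 0, nat_lit 0, [nat_lit 2032000001, nat_lit 4688000000, nat_lit 9842000000], [], [nat_lit 25383358690, nat_lit 25739829925, nat_lit 36560352695, nat_lit 36895161966, nat_lit 22310577865, nat_lit 22570556850, nat_lit 30741718972, nat_lit 31035260678], nat_lit 0, nat_lit 0, nat_lit 0, nat_lit 0, nat_lit 0, nat_lit 0, [], [nat_lit 27, nat_lit 40, nat_lit 40, nat_lit 80, nat_lit 13, nat_lit 373, nat_lit 150, nat_lit 10]⟩, ⟨p087_k4, nat_lit 0, nat_lit 0, nat_lit 435, nat_lit 0, nat_lit 441860, [nat_lit 4688000000, nat_lit 7968000000, nat_lit 11872000000], [], [nat_lit 34140617875, nat_lit 34657827519, nat_lit 39180861363, nat_lit 39429139937, nat_lit 32392648929,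 nat_lit 32670506441, nat_lit 35636409633, nat_lit 36122817807], nat_lit 1271250, nat_lit 1271250, nat_lit 1271250, nat_lit 1271250, nat_lit 0, nat_lit 2486000, [nat_lit 1100000, nat_lit 1785000, nat_lit 1271250], [nat_lit 21, nat_lit 40, nat_lit 40, nat_lit 80, nat_lit 14, nat_lit 538, nat_lit 300, nat_lit 13]⟩,
 zbF0, [⟨nat_lit 7, nat_lit 82, nat_lit 100, nat_lit 92, nat_lit 159075478⟩]⟩
noncomputable def p087_l5 : Lf2 := ⟨nat_lit 0, nat_lit 20, [nat_lit 5, nat_lit 5, nat_lit 5, nat_lit 20], false, nat_lit 0, nat_lit 160, nat_lit 0, nat_lit 352, ⟨nat_lit 1000, nat_lit 0, nat_lit 0, nat_lit 0, nat_lit 0, nat_lit 0, nat_lit 0, nat_lit 0, nat_lit 0, nat_lit 0, nat_lit 0, nat_lit 0, nat_lit 0, nat_lit 0, nat_lit 0, nat_lit 0, false, false⟩,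
 nat_lit 0, nat_lit 0, nat_lit 12297, nat_lit 0, nat_lit 5416, nat_lit 7157, nat_lit 789, nat_lit 0, nat_lit 0, nat_lit 863, nat_lit 0, nat_lit 0, nat_lit 0, nat_lit 0, nat_lit 0, nat_lit 0, nat_lit 0, nat_lit 0, [],
 ⟨p087_k6, nat_lit 0, nat_lit 0, nat_lit 190, nat_lit 0, nat_lit 0, [nat_lit 2032000001, nat_lit 4688000000, nat_lit 7968000000], [], [nat_lit 25160697348, nat_lit 25697517904, nat_lit 36687232437, nat_lit 37019736023, nat_lit 21932199917, nat_lit 22211505982, nat_lit 30941190236, nat_lit 31232809466], nat_lit 0, nat_lit 0, nat_lit 0, nat_lit 0, nat_lit 0, nat_lit 0, [], [nat_lit 34, nat_lit 40, nat_lit 40, nat_lit 80, nat_lit 7, nat_lit 249, nat_lit 40, nat_lit 7]⟩, ⟨p087_k4, nat_lit 0, nat_lit 0, nat_lit 494, nat_lit 0, nat_lit 518923, [nat_lit 4688000000, nat_lit 7968000000, nat_lit 11872000000], [], [nat_lit 34313305889, nat_lit 34730508825, nat_lit 39236600376, nat_lit 39596332856, nat_lit 32828523610,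 nat_lit 33042435682, nat_lit 35841487696, nat_lit 35939199436], nat_lit 1271250, nat_lit 1271250, nat_lit 1271250, nat_lit 1271250, nat_lit 0, nat_lit 2486000, [nat_lit 1100000, nat_lit 1785000, nat_lit 1271250], [nat_lit 21, nat_lit 40, nat_lit 40, nat_lit 80, nat_lit 14, nat_lit 538, nat_lit 300, nat_lit 13]⟩,
 zbF0, [⟨nat_lit 19, nat_lit 100, nat_lit 82, nat_lit 92, nat_lit 153627283⟩]⟩
noncomputable def p087_l6 : Lf2 := ⟨nat_lit 0, nat_lit 20, [nat_lit 5, nat_lit 5, nat_lit 5, nat_lit 20], false, nat_lit 0, nat_lit 80, nat_lit 0, nat_lit 160, ⟨nat_lit 1000, nat_lit 0, nat_lit 0, nat_lit 0, nat_lit 0, nat_lit 0, nat_lit 0, nat_lit 0, nat_lit 0, nat_lit 0, nat_lit 0, nat_lit 0, nat_lit 0, nat_lit 0, nat_lit 0, nat_lit 0, false, false⟩,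
 nat_lit 0, nat_lit 0, nat_lit 13517, nat_lit 0, nat_lit 4325, nat_lit 7156, nat_lit 815, nat_lit 0, nat_lit 0, nat_lit 924, nat_lit 0, nat_lit 0, nat_lit 0, nat_lit 0, nat_lit 0, nat_lit 0, nat_lit 0, nat_lit 0, [],
 ⟨p087_k7, nat_lit 0, nat_lit 0, nat_lit 188, nat_lit 0, nat_lit 0, [nat_lit 2032000001, nat_lit 4688000000, nat_lit 7968000000], [], [nat_lit 24708398476, nat_lit 25263629276, nat_lit 33001361125, nat_lit 33625026388, nat_lit 23014946426, nat_lit 23537305601, nat_lit 29471884475, nat_lit 30073462513], nat_lit 0, nat_lit 0, nat_lit 0, nat_lit 0, nat_lit 0, nat_lit 0, [], [nat_lit 34, nat_lit 40, nat_lit 40, nat_lit 80, nat_lit 7, nat_lit 226, nat_lit 20, nat_lit 7]⟩, ⟨p087_k8, nat_lit 0, nat_lit 0, nat_lit 594, nat_lit 0, nat_lit 603621, [nat_lit 4688000000, nat_lit 7968000000, nat_lit 14058000000], [], [nat_lit 38332977856, nat_lit 38762605632, nat_lit 42520830072, nat_lit 42906778388, nat_lit 33804633184,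 nat_lit 34079013280, nat_lit 37684169048, nat_lit 37924110676], nat_lit 1271250, nat_lit 1271250, nat_lit 1271250, nat_lit 1271250, nat_lit 0, nat_lit 1100001, [nat_lit 1100000, nat_lit 1785000, nat_lit 1271250], [nat_lit 37, nat_lit 40, nat_lit 40, nat_lit 80, nat_lit 28, nat_lit 428, nat_lit 200, nat_lit 10]⟩,
 zbF0, []⟩
noncomputable def p087_l7 : Lf2 := ⟨nat_lit 0, nat_lit 20, [nat_lit 5, nat_lit 5, nat_lit 5, nat_lit 20], false, nat_lit 4, nat_lit 80, nat_lit 0, nat_lit 160, ⟨nat_lit 1000, nat_lit 0, nat_lit 0, nat_lit 0, nat_lit 0, nat_lit 0, nat_lit 0, nat_lit 0, nat_lit 0, nat_lit 0, nat_lit 0, nat_lit 0, nat_lit 0, nat_lit 0, nat_lit 0, nat_lit 0, false, false⟩,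
 nat_lit 0, nat_lit 0, nat_lit 13782, nat_lit 0, nat_lit 3859, nat_lit 7296, nat_lit 881, nat_lit 0, nat_lit 0, nat_lit 953, nat_lit 0, nat_lit 0, nat_lit 0, nat_lit 0, nat_lit 0, nat_lit 0, nat_lit 0, nat_lit 0, [],
 ⟨p087_k9, nat_lit 0, nat_lit 0, nat_lit 183, nat_lit 0, nat_lit 0, [nat_lit 2032000001, nat_lit 4688000000, nat_lit 7968000000], [], [nat_lit 23757446573, nat_lit 24197071286, nat_lit 31329149660, nat_lit 31636992392, nat_lit 21973306433, nat_lit 22257096232, nat_lit 28457204401, nat_lit 28754244619], nat_lit 0, nat_lit 0, nat_lit 0, nat_lit 0, nat_lit 0, nat_lit 0, [], [nat_lit 34, nat_lit 40, nat_lit 40, nat_lit 80, nat_lit 7, nat_lit 226, nat_lit 20, nat_lit 7]⟩, ⟨p087_k8, nat_lit 0, nat_lit 0, nat_lit 602, nat_lit 0, nat_lit 628349, [nat_lit 4688000000, nat_lit 7968000000, nat_lit 14058000000], [], [nat_lit 37780850996, nat_lit 37995657604, nat_lit 41632948999, nat_lit 41838878735, nat_lit 33085834304,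 nat_lit 33307945392, nat_lit 36707780954, nat_lit 36835748903], nat_lit 1271250, nat_lit 1271250, nat_lit 1271250, nat_lit 1271250, nat_lit 0, nat_lit 1100001, [nat_lit 1100000, nat_lit 1785000, nat_lit 1271250], [nat_lit 37, nat_lit 40, nat_lit 40, nat_lit 80, nat_lit 28, nat_lit 428, nat_lit 200, nat_lit 10]⟩,
 zbF0, []⟩
noncomputable def p087_l8 : Lf2 := ⟨nat_lit 0, nat_lit 20, [nat_lit 5, nat_lit 5, nat_lit 5, nat_lit 20], false, nat_lit 4, nat_lit 80, nat_lit 0, nat_lit 160, ⟨nat_lit 722, nat_lit 278, nat_lit 0, nat_lit 6, nat_lit 283, nat_lit 278, nat_lit 40, nat_lit 0, nat_lit 0, nat_lit 0, nat_lit 0, nat_lit 0, nat_lit 43864304, nat_lit 22055357, nat_lit 1080339, nat_lit 3645877, true, true⟩,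
 nat_lit 0, nat_lit 0, nat_lit 12123, nat_lit 0, nat_lit 3123, nat_lit 6417, nat_lit 673, nat_lit 0, nat_lit 0, nat_lit 691, nat_lit 0, nat_lit 0, nat_lit 0, nat_lit 0, nat_lit 0, nat_lit 111200, nat_lit 0, nat_lit 0, [(nat_lit 22, [(nat_lit 1, nat_lit 278)])],
 ⟨p087_k10, nat_lit 0, nat_lit 0, nat_lit 183, nat_lit 0, nat_lit 0, [nat_lit 1844739201, nat_lit 3816970400, nat_lit 6140650400], [], [nat_lit 23887040865, nat_lit 24151936796, nat_lit 29456537369, nat_lit 29706561491, nat_lit 22971835444, nat_lit 23222440835, nat_lit 28289136885, nat_lit 28527121300], nat_lit 0, nat_lit 0, nat_lit 0, nat_lit 0, nat_lit 0, nat_lit 0, [], [nat_lit 34, nat_lit 40, nat_lit 40, nat_lit 80, nat_lit 7, nat_lit 226, nat_lit 20, nat_lit 7]⟩, ⟨p087_k8, nat_lit 0, nat_lit 0, nat_lit 640, nat_lit 0, nat_lit 733980, [nat_lit 3384736000, nat_lit 5752896000, nat_lit 10149876000], [], [nat_lit 26122238356, nat_lit 26209177565, nat_lit 28748181682,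 nat_lit 28832094704, nat_lit 22074768660, nat_lit 22200052525, nat_lit 24222411129, nat_lit 24279948577], nat_lit 1271250, nat_lit 1271250, nat_lit 1271250, nat_lit 1271250, nat_lit 0, nat_lit 1100001, [nat_lit 1100000, nat_lit 1785000, nat_lit 1271250], [nat_lit 37, nat_lit 40, nat_lit 40, nat_lit 80, nat_lit 28, nat_lit 428, nat_lit 200, nat_lit 10]⟩,
 ⟨nat_lit 3162, nat_lit 3355, ⟨.ofNat (nat_lit 605958), .ofNat (nat_lit 797741), .ofNat (nat_lit 616981), .ofNat (nat_lit 808765), .ofNat (nat_lit 605261), .ofNat (nat_lit 794217), .ofNat (nat_lit 616337), .ofNat (nat_lit 805295)⟩, ⟨.ofNat (nat_lit 10000), .ofNat (nat_lit 182118), .ofNat (nat_lit 10000), .ofNat (nat_lit 200000), .ofNat (nat_lit 10000), .ofNat (nat_lit 184209), .ofNat (nat_lit 10000), .ofNat (nat_lit 200000)⟩⟩, []⟩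
noncomputable def p087_l9 : Lf2 := ⟨nat_lit 0, nat_lit 20, [nat_lit 5, nat_lit 5, nat_lit 5, nat_lit 20], false, nat_lit 4, nat_lit 80, nat_lit 0, nat_lit 160, ⟨nat_lit 986, nat_lit 14, nat_lit 0, nat_lit 6, nat_lit 290, nat_lit 14, nat_lit 40, nat_lit 0, nat_lit 0, nat_lit 0, nat_lit 0, nat_lit 0, nat_lit 43129789, nat_lit 22803904, nat_lit 1066307, nat_lit 3678484, true, true⟩,
 nat_lit 0, nat_lit 0, nat_lit 14491, nat_lit 0, nat_lit 3857, nat_lit 8050, nat_lit 844, nat_lit 0, nat_lit 0, nat_lit 946, nat_lit 0, nat_lit 0, nat_lit 0, nat_lit 0, nat_lit 0, nat_lit 3500, nat_lit 0, nat_lit 0, [(nat_lit 22, [(nat_lit 0, nat_lit 14)])],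
 ⟨p087_k9, nat_lit 0, nat_lit 0, nat_lit 186, nat_lit 0, nat_lit 0, [nat_lit 2025504001, nat_lit 4649959200, nat_lit 7894421600], [], [nat_lit 23753855179, nat_lit 24632858401, nat_lit 31603888701, nat_lit 32211325252, nat_lit 22190023977, nat_lit 22738663341, nat_lit 28722979154, nat_lit 29309415073], nat_lit 0, nat_lit 0, nat_lit 0, nat_lit 0, nat_lit 0, nat_lit 0, [], [nat_lit 34, nat_lit 40, nat_lit 40, nat_lit 80, nat_lit 7, nat_lit 226, nat_lit 20, nat_lit 7]⟩, ⟨p087_k11, nat_lit 0, nat_lit 0, nat_lit 644, nat_lit 0, nat_lit 750857, [nat_lit 4622368000, nat_lit 7856448000, nat_lit 13861188000], [], [nat_lit 35019384428, nat_lit 35144423680, nat_lit 38736136422, nat_lit 38849970676, nat_lit 30085638774, nat_lit 30254321916, nat_lit 33148120254, nat_lit 33228859521], nat_lit 1271250, nat_lit 1271250, nat_lit 1271250, nat_lit 1271250, nat_lit 0, nat_lit 1100001, [nat_lit 1100000, nat_lit 1785000, nat_lit 1271250],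 [nat_lit 37, nat_lit 40, nat_lit 40, nat_lit 80, nat_lit 28, nat_lit 428, nat_lit 200, nat_lit 10]⟩,
 ⟨nat_lit 3162, nat_lit 3536, ⟨.ofNat (nat_lit 617632), .ofNat (nat_lit 824754), .ofNat (nat_lit 628604), .ofNat (nat_lit 835730), .ofNat (nat_lit 616329), .ofNat (nat_lit 817485), .ofNat (nat_lit 627403), .ofNat (nat_lit 828563)⟩, ⟨.ofNat (nat_lit 10000), .ofNat (nat_lit 179999), .ofNat (nat_lit 10000), .ofNat (nat_lit 200000), .ofNat (nat_lit 10000), .ofNat (nat_lit 184209), .ofNat (nat_lit 10000), .ofNat (nat_lit 200000)⟩⟩, []⟩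
noncomputable def p087_l10 : Lf2 := ⟨nat_lit 0, nat_lit 20, [nat_lit 5, nat_lit 5, nat_lit 5, nat_lit 20], false, nat_lit 0, nat_lit 80, nat_lit 160, nat_lit 336, ⟨nat_lit 420, nat_lit 580, nat_lit 0, nat_lit 6, nat_lit 273, nat_lit 580, nat_lit 38, nat_lit 0, nat_lit 0, nat_lit 0, nat_lit 0, nat_lit 0, nat_lit 45731653, nat_lit 21268347, nat_lit 0, nat_lit 3124615, true, true⟩,
 nat_lit 0, nat_lit 0, nat_lit 5702, nat_lit 0, nat_lit 3927, nat_lit 3018, nat_lit 530, nat_lit 0, nat_lit 0, nat_lit 402, nat_lit 0, nat_lit 0, nat_lit 0, nat_lit 0, nat_lit 0, nat_lit 232000, nat_lit 0, nat_lit 0, [(nat_lit 22, [(nat_lit 1, nat_lit 580)])],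
 ⟨p087_k7, nat_lit 0, nat_lit 0, nat_lit 171, nat_lit 0, nat_lit 0, [nat_lit 1641312000, nat_lit 2870744000, nat_lit 4155544000], [], [nat_lit 23131384238, nat_lit 24021197877, nat_lit 27737533136, nat_lit 28459896718, nat_lit 20563754052, nat_lit 21191747470, nat_lit 24800480976, nat_lit 25491971606], nat_lit 0, nat_lit 0, nat_lit 0, nat_lit 0, nat_lit 0, nat_lit 0, [], [nat_lit 34, nat_lit 40, nat_lit 40, nat_lit 80, nat_lit 7, nat_lit 226, nat_lit 20, nat_lit 7]⟩, ⟨p087_k8, nat_lit 0, nat_lit 0, nat_lit 440, nat_lit 0, nat_lit 603621, [nat_lit 1968960000, nat_lit 3346560000, nat_lit 5904360000], [], [nat_lit 12314211432, nat_lit 12504210648, nat_lit 13296893328, nat_lit 13462297884, nat_lit 13671498961, nat_lit 13790496291, nat_lit 14511057697, nat_lit 14658391220], nat_lit 1271250, nat_lit 1271250, nat_lit 1271250, nat_lit 1271250, nat_lit 1100001, nat_lit 2607000, [nat_lit 1100000, nat_lit 1785000, nat_lit 1271250],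 [nat_lit 37, nat_lit 40, nat_lit 40, nat_lit 80, nat_lit 28, nat_lit 483, nat_lit 250, nat_lit 10]⟩,
 ⟨nat_lit 3535, nat_lit 3873, ⟨.ofNat (nat_lit 608101), .ofNat (nat_lit 737150), .ofNat (nat_lit 629888), .ofNat (nat_lit 758942), .ofNat (nat_lit 606659), .ofNat (nat_lit 732188), .ofNat (nat_lit 628606), .ofNat (nat_lit 754140)⟩, ⟨.ofNat (nat_lit 0), .ofNat (nat_lit 175674), .ofNat (nat_lit 0), .ofNat (nat_lit 200000), .ofNat (nat_lit 0), .ofNat (nat_lit 179999), .ofNat (nat_lit 0), .ofNat (nat_lit 200000)⟩⟩, [⟨nat_lit 22, nat_lit 100, nat_lit 76, nat_lit 82, nat_lit 161409809⟩]⟩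
noncomputable def p087_l11 : Lf2 := ⟨nat_lit 0, nat_lit 20, [nat_lit 5, nat_lit 5, nat_lit 5, nat_lit 20], false, nat_lit 4, nat_lit 80, nat_lit 160, nat_lit 336, ⟨nat_lit 227, nat_lit 773, nat_lit 0, nat_lit 6, nat_lit 272, nat_lit 773, nat_lit 40, nat_lit 0, nat_lit 0, nat_lit 0, nat_lit 0, nat_lit 0, nat_lit 44990590, nat_lit 20919342, nat_lit 1090068, nat_lit 3586914, true, true⟩,
 nat_lit 0, nat_lit 0, nat_lit 4001, nat_lit 0, nat_lit 2876, nat_lit 2118, nat_lit 417, nat_lit 0, nat_lit 0, nat_lit 217, nat_lit 0, nat_lit 0, nat_lit 0, nat_lit 0, nat_lit 0, nat_lit 309200, nat_lit 0, nat_lit 0, [(nat_lit 22, [(nat_lit 1, nat_lit 773)])],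
 ⟨p087_k9, nat_lit 0, nat_lit 0, nat_lit 171, nat_lit 0, nat_lit 0, [nat_lit 1511307201, nat_lit 2266036400, nat_lit 2886916400], [], [nat_lit 22835007443, nat_lit 23347549344, nat_lit 26034052902, nat_lit 26575437446, nat_lit 22112832099, nat_lit 22613251171, nat_lit 25166264963, nat_lit 25679864739], nat_lit 0, nat_lit 0, nat_lit 0, nat_lit 0, nat_lit 0, nat_lit 0, [], [nat_lit 34, nat_lit 40, nat_lit 40, nat_lit 80, nat_lit 7, nat_lit 226, nat_lit 20, nat_lit 7]⟩, ⟨p087_k8, nat_lit 0, nat_lit 0, nat_lit 571, nat_lit 0, nat_lit 807400, [nat_lit 1064176000, nat_lit 1808736000, nat_lit 3191166000], [], [nat_lit 6122112212, nat_lit 6196688958, nat_lit 6503629092, nat_lit 6598456512, nat_lit 6693632678, nat_lit 6757016210, nat_lit 7086303335, nat_lit 7148726763], nat_lit 1271250, nat_lit 1271250, nat_lit 1271250, nat_lit 1271250, nat_lit 1100001, nat_lit 2607000, [nat_lit 1100000, nat_lit 1785000, nat_lit 1271250], [nat_lit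 37, nat_lit 40, nat_lit 40, nat_lit 80, nat_lit 28, nat_lit 483, nat_lit 250, nat_lit 10]⟩,
 ⟨nat_lit 3162, nat_lit 3536, ⟨.ofNat (nat_lit 606660), .ofNat (nat_lit 732188), .ofNat (nat_lit 628604), .ofNat (nat_lit 754141), .ofNat (nat_lit 605256), .ofNat (nat_lit 727168), .ofNat (nat_lit 627403), .ofNat (nat_lit 749323)⟩, ⟨.ofNat (nat_lit 10000), .ofNat (nat_lit 179999), .ofNat (nat_lit 10000), .ofNat (nat_lit 200000), .ofNat (nat_lit 10000), .ofNat (nat_lit 184209), .ofNat (nat_lit 10000), .ofNat (nat_lit 200000)⟩⟩, [⟨nat_lit 22, nat_lit 95, nat_lit 100, nat_lit 63, nat_lit 113012316⟩]⟩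
noncomputable def p087_l12 : Lf2 := ⟨nat_lit 0, nat_lit 20, [nat_lit 5, nat_lit 5, nat_lit 5, nat_lit 20], false, nat_lit 16, nat_lit 80, nat_lit 160, nat_lit 260, ⟨nat_lit 307, nat_lit 693, nat_lit 0, nat_lit 8, nat_lit 316, nat_lit 693, nat_lit 46, nat_lit 0, nat_lit 0, nat_lit 0, nat_lit 0, nat_lit 0, nat_lit 40380599, nat_lit 25363452, nat_lit 1255949, nat_lit 3848015, true, true⟩,
 nat_lit 0, nat_lit 0, nat_lit 4185, nat_lit 0, nat_lit 3104, nat_lit 2215, nat_lit 0, nat_lit 0, nat_lit 0, nat_lit 261, nat_lit 0, nat_lit 0, nat_lit 0, nat_lit 0, nat_lit 0, nat_lit 662400, nat_lit 0, nat_lit 0, [(nat_lit 22, [(nat_lit 1, nat_lit 51), (nat_lit 2, nat_lit 642)])],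
 ⟨p087_k7, nat_lit 0, nat_lit 0, nat_lit 181, nat_lit 0, nat_lit 0, [nat_lit 1588478401, nat_lit 1514915600, nat_lit 46289600], [], [nat_lit 26637566958, nat_lit 27451874699, nat_lit 29222090847, nat_lit 30298052090, nat_lit 25830219361, nat_lit 26637613825, nat_lit 28336198129, nat_lit 29100887137], nat_lit 0, nat_lit 0, nat_lit 0, nat_lit 0, nat_lit 0, nat_lit 0, [], [nat_lit 34, nat_lit 40, nat_lit 40, nat_lit 80, nat_lit 7, nat_lit 226, nat_lit 20, nat_lit 6]⟩, ⟨p087_k8, nat_lit 0, nat_lit 0, nat_lit 558, nat_lit 0, nat_lit 807400, [nat_lit 1439216000, nat_lit 2446176000, nat_lit 4315806000], [], [nat_lit 10969621532, nat_lit 11043849848, nat_lit 11522685966, nat_lit 11576514570, nat_lit 11052418936, nat_lit 11124325262, nat_lit 11614231533, nat_lit 11679816304], nat_lit 1271250, nat_lit 1271250, nat_lit 1271250, nat_lit 1271250, nat_lit 1100001, nat_lit 1956250, [nat_lit 1100000, nat_lit 1785000, nat_lit 1271250],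 [nat_lit 37, nat_lit 40, nat_lit 40, nat_lit 80, nat_lit 28, nat_lit 456, nat_lit 225, nat_lit 10]⟩,
 ⟨nat_lit 3162, nat_lit 3873, ⟨.ofNat (nat_lit 737150), .ofNat (nat_lit 833932), .ofNat (nat_lit 758943), .ofNat (nat_lit 855725), .ofNat (nat_lit 727168), .ofNat (nat_lit 818598), .ofNat (nat_lit 749323), .ofNat (nat_lit 840753)⟩, ⟨.ofNat (nat_lit 40000), .ofNat (nat_lit 175674), .ofNat (nat_lit 40000), .ofNat (nat_lit 200000), .ofNat (nat_lit 40000), .ofNat (nat_lit 184209), .ofNat (nat_lit 40000), .ofNat (nat_lit 200000)⟩⟩, [⟨nat_lit 22, nat_lit 67, nat_lit 100, nat_lit 66, nat_lit 157673280⟩]⟩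
noncomputable def p087_l13 : Lf2 := ⟨nat_lit 0, nat_lit 20, [nat_lit 5, nat_lit 5, nat_lit 5, nat_lit 20], false, nat_lit 0, nat_lit 80, nat_lit 0, nat_lit 336, ⟨nat_lit 274, nat_lit 726, nat_lit 0, nat_lit 6, nat_lit 279, nat_lit 726, nat_lit 38, nat_lit 0, nat_lit 0, nat_lit 0, nat_lit 0, nat_lit 0, nat_lit 45099329, nat_lit 21900671, nat_lit 0, nat_lit 3159718, true, true⟩,
 nat_lit 0, nat_lit 0, nat_lit 3936, nat_lit 0, nat_lit 3323, nat_lit 2291, nat_lit 0, nat_lit 0, nat_lit 0, nat_lit 245, nat_lit 0, nat_lit 0, nat_lit 0, nat_lit 0, nat_lit 21, nat_lit 709800, nat_lit 0, nat_lit 0, [(nat_lit 22, [(nat_lit 1, nat_lit 27), (nat_lit 2, nat_lit 699)])],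
 ⟨p087_k7, nat_lit 0, nat_lit 0, nat_lit 174, nat_lit 0, nat_lit 0, [nat_lit 1736316801, nat_lit 1658577201, nat_lit 38861200], [], [nat_lit 23071834766, nat_lit 24062008270, nat_lit 26403678864, nat_lit 27738156700, nat_lit 22046991264, nat_lit 23001316863, nat_lit 24941827565, nat_lit 25843975091], nat_lit 0, nat_lit 0, nat_lit 0, nat_lit 0, nat_lit 0, nat_lit 0, [], [nat_lit 34, nat_lit 40, nat_lit 40, nat_lit 80, nat_lit 7, nat_lit 226, nat_lit 20, nat_lit 7]⟩, ⟨p087_k4, nat_lit 0, nat_lit 0, nat_lit 589, nat_lit 0, nat_lit 770357, [nat_lit 1284512000, nat_lit 2183232000, nat_lit 3252928000], [], [nat_lit 8883877617, nat_lit 8927663224, nat_lit 9382947242, nat_lit 9426732849, nat_lit 7911615087, nat_lit 7931168335, nat_lit 8339680297, nat_lit 8428562974], nat_lit 1271250, nat_lit 1271250, nat_lit 1271250, nat_lit 1271250, nat_lit 0, nat_lit 2373000, [nat_lit 1100000, nat_lit 1785000, nat_lit 1271250], [nat_lit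 21, nat_lit 40, nat_lit 40, nat_lit 80, nat_lit 14, nat_lit 483, nat_lit 250, nat_lit 12]⟩,
 ⟨nat_lit 3162, nat_lit 3873, ⟨.ofNat (nat_lit 629847), .ofNat (nat_lit 758943), .ofNat (nat_lit 640729), .ofNat (nat_lit 769831), .ofNat (nat_lit 627364), .ofNat (nat_lit 749323), .ofNat (nat_lit 638427), .ofNat (nat_lit 760392)⟩, ⟨.ofNat (nat_lit 0), .ofNat (nat_lit 175674), .ofNat (nat_lit 0), .ofNat (nat_lit 200000), .ofNat (nat_lit 0), .ofNat (nat_lit 184209), .ofNat (nat_lit 0), .ofNat (nat_lit 200000)⟩⟩, [⟨nat_lit 22, nat_lit 94, nat_lit 100, nat_lit 62, nat_lit 63646279⟩]⟩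
noncomputable def p087_l14 : Lf2 := ⟨nat_lit 0, nat_lit 20, [nat_lit 5, nat_lit 5, nat_lit 5, nat_lit 20], false, nat_lit 0, nat_lit 80, nat_lit 0, nat_lit 336, ⟨nat_lit 469, nat_lit 531, nat_lit 0, nat_lit 6, nat_lit 283, nat_lit 531, nat_lit 38, nat_lit 0, nat_lit 0, nat_lit 0, nat_lit 0, nat_lit 0, nat_lit 44636131, nat_lit 22363869, nat_lit 0, nat_lit 3184147, true, true⟩,
 nat_lit 0, nat_lit 0, nat_lit 5451, nat_lit 0, nat_lit 4088, nat_lit 3319, nat_lit 203, nat_lit 0, nat_lit 0, nat_lit 608, nat_lit 0, nat_lit 0, nat_lit 0, nat_lit 0, nat_lit 0, nat_lit 531000, nat_lit 0, nat_lit 0, [(nat_lit 22, [(nat_lit 2, nat_lit 531)])],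
 ⟨p087_k7, nat_lit 0, nat_lit 0, nat_lit 174, nat_lit 0, nat_lit 0, [nat_lit 1693576000, nat_lit 2195698400, nat_lit 1681809600], [], [nat_lit 23408850672, nat_lit 25228231104, nat_lit 28093080384, nat_lit 29567195200, nat_lit 21279227347, nat_lit 22329893510, nat_lit 24989863344, nat_lit 26400758784], nat_lit 0, nat_lit 0, nat_lit 0, nat_lit 0, nat_lit 0, nat_lit 0, [], [nat_lit 34, nat_lit 40, nat_lit 40, nat_lit 80, nat_lit 7, nat_lit 226, nat_lit 20, nat_lit 7]⟩, ⟨p087_k12, nat_lit 0, nat_lit 0, nat_lit 596, nat_lit 0, nat_lit 791597, [nat_lit 2198672000, nat_lit 3736992000, nat_lit 5567968000], [], [nat_lit 14172756635, nat_lit 14256261700, nat_lit 14870864395, nat_lit 14931299308, nat_lit 13067466651, nat_lit 13110328099, nat_lit 13975878441, nat_lit 14156638987], nat_lit 1271250, nat_lit 1271250, nat_lit 1271250, nat_lit 1271250, nat_lit 0, nat_lit 2373000, [nat_lit 1100000, nat_lit 1785000, nat_lit 1271250],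 [nat_lit 21, nat_lit 40, nat_lit 40, nat_lit 80, nat_lit 14, nat_lit 483, nat_lit 250, nat_lit 12]⟩,
 ⟨nat_lit 3162, nat_lit 3873, ⟨.ofNat (nat_lit 640729), .ofNat (nat_lit 769831), .ofNat (nat_lit 651611), .ofNat (nat_lit 780717), .ofNat (nat_lit 638427), .ofNat (nat_lit 760392), .ofNat (nat_lit 649490), .ofNat (nat_lit 771459)⟩, ⟨.ofNat (nat_lit 0), .ofNat (nat_lit 175674), .ofNat (nat_lit 0), .ofNat (nat_lit 200000), .ofNat (nat_lit 0), .ofNat (nat_lit 184209), .ofNat (nat_lit 0), .ofNat (nat_lit 200000)⟩⟩, [⟨nat_lit 22, nat_lit 94, nat_lit 100, nat_lit 62, nat_lit 123178521⟩]⟩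
noncomputable def p087_l15 : Lf2 := ⟨nat_lit 0, nat_lit 20, [nat_lit 5, nat_lit 5, nat_lit 5, nat_lit 20], false, nat_lit 0, nat_lit 80, nat_lit 0, nat_lit 260, ⟨nat_lit 1000, nat_lit 0, nat_lit 0, nat_lit 0, nat_lit 0, nat_lit 0, nat_lit 0, nat_lit 0, nat_lit 0, nat_lit 0, nat_lit 0, nat_lit 0, nat_lit 0, nat_lit 0, nat_lit 0, nat_lit 0, false, false⟩,
 nat_lit 0, nat_lit 0, nat_lit 11995, nat_lit 0, nat_lit 4609, nat_lit 6982, nat_lit 739, nat_lit 0, nat_lit 0, nat_lit 1767, nat_lit 0, nat_lit 0, nat_lit 0, nat_lit 0, nat_lit 0, nat_lit 0, nat_lit 0, nat_lit 0, [],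
 ⟨p087_k7, nat_lit 0, nat_lit 0, nat_lit 193, nat_lit 0, nat_lit 0, [nat_lit 2032000001, nat_lit 4688000000, nat_lit 7968000000], [], [nat_lit 29243640112, nat_lit 30812854100, nat_lit 34410109374, nat_lit 35658212734, nat_lit 26152430451, nat_lit 27111005242, nat_lit 30553298034, nat_lit 31758616054], nat_lit 0, nat_lit 0, nat_lit 0, nat_lit 0, nat_lit 0, nat_lit 0, [], [nat_lit 34, nat_lit 40, nat_lit 40, nat_lit 80, nat_lit 7, nat_lit 226, nat_lit 20, nat_lit 6]⟩, ⟨p087_k4, nat_lit 0, nat_lit 0, nat_lit 627, nat_lit 0, nat_lit 846383, [nat_lit 4688000000, nat_lit 7968000000, nat_lit 11872000000], [], [nat_lit 33199383560, nat_lit 33458627360, nat_lit 35760308393, nat_lit 36833780228, nat_lit 29226793102, nat_lit 29352331100, nat_lit 30819000777, nat_lit 31314708414], nat_lit 1271250, nat_lit 1271250, nat_lit 1271250, nat_lit 1271250, nat_lit 0, nat_lit 1836250, [nat_lit 1100000, nat_lit 1785000, nat_lit 1271250],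 [nat_lit 21, nat_lit 40, nat_lit 40, nat_lit 80, nat_lit 14, nat_lit 373, nat_lit 150, nat_lit 9]⟩,
 zbF0, [⟨nat_lit 22, nat_lit 66, nat_lit 100, nat_lit 62, nat_lit 158197245⟩]⟩
noncomputable def p087_l16 : Lf2 := ⟨nat_lit 0, nat_lit 20, [nat_lit 5, nat_lit 5, nat_lit 5, nat_lit 20], false, nat_lit 80, nat_lit 160, nat_lit 0, nat_lit 364, ⟨nat_lit 111, nat_lit 889, nat_lit 0, nat_lit 6, nat_lit 272, nat_lit 889, nat_lit 103, nat_lit 0, nat_lit 0, nat_lit 0, nat_lit 0, nat_lit 0, nat_lit 42336932, nat_lit 20249837, nat_lit 4413231, nat_lit 4401396, true, true⟩,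
 nat_lit 0, nat_lit 0, nat_lit 2176, nat_lit 0, nat_lit 4717, nat_lit 1151, nat_lit 0, nat_lit 0, nat_lit 0, nat_lit 70, nat_lit 0, nat_lit 0, nat_lit 0, nat_lit 0, nat_lit 0, nat_lit 222250, nat_lit 0, nat_lit 0, [(nat_lit 22, [(nat_lit 0, nat_lit 889)])],
 ⟨p087_k13, nat_lit 0, nat_lit 0, nat_lit 99, nat_lit 0, nat_lit 0, [nat_lit 1619504001, nat_lit 2765831200, nat_lit 3295771600], [], [nat_lit 22144219780, nat_lit 23623068728, nat_lit 26030853802, nat_lit 27249699956, nat_lit 22413513524, nat_lit 23741795796, nat_lit 25913698530, nat_lit 27013796320], nat_lit 0, nat_lit 0, nat_lit 0, nat_lit 0, nat_lit 0, nat_lit 0, [], [nat_lit 102, nat_lit 40, nat_lit 40, nat_lit 80, nat_lit 2, nat_lit 249, nat_lit 40, nat_lit 7]⟩, ⟨p087_k14, nat_lit 0, nat_lit 0, nat_lit 678, nat_lit 0, nat_lit 807400, [nat_lit 520368000, nat_lit 1092462000, nat_lit 1560438000], [], [nat_lit 4628268792, nat_lit 4648636734, nat_lit 4743931400,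 nat_lit 4751343310, nat_lit 4381526686, nat_lit 3880418693, nat_lit 3834118066, nat_lit 3849973189], nat_lit 1271250, nat_lit 1271250, nat_lit 1271250, nat_lit 1271250, nat_lit 0, nat_lit 2570750, [nat_lit 1100000, nat_lit 2127500, nat_lit 1271250], [nat_lit 56, nat_lit 40, nat_lit 40, nat_lit 80, nat_lit 32, nat_lit 483, nat_lit 250, nat_lit 11]⟩,
 ⟨nat_lit 3162, nat_lit 3873, ⟨.ofNat (nat_lit 608082), .ofNat (nat_lit 737150), .ofNat (nat_lit 629847), .ofNat (nat_lit 758943), .ofNat (nat_lit 605237), .ofNat (nat_lit 727168), .ofNat (nat_lit 627364), .ofNat (nat_lit 749323)⟩, ⟨.ofNat (nat_lit 175674), .ofNat (nat_lit 304717), .ofNat (nat_lit 200000), .ofNat (nat_lit 348304), .ofNat (nat_lit 184209), .ofNat (nat_lit 306116), .ofNat (nat_lit 200000), .ofNat (nat_lit 350426)⟩⟩, [⟨nat_lit 22, nat_lit 100, nat_lit 80, nat_lit 100, nat_lit 9366375⟩]⟩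
noncomputable def p087_l17 : Lf2 := ⟨nat_lit 0, nat_lit 20, [nat_lit 5, nat_lit 5, nat_lit 5, nat_lit 20], false, nat_lit 80, nat_lit 160, nat_lit 0, nat_lit 352, ⟨nat_lit 126, nat_lit 874, nat_lit 0, nat_lit 6, nat_lit 281, nat_lit 874, nat_lit 103, nat_lit 0, nat_lit 0, nat_lit 0, nat_lit 0, nat_lit 0, nat_lit 41536445, nat_lit 21099918, nat_lit 4363637, nat_lit 4438223, true, true⟩,
 nat_lit 0, nat_lit 0, nat_lit 1967, nat_lit 0, nat_lit 4759, nat_lit 1144, nat_lit 0, nat_lit 0, nat_lit 0, nat_lit 91, nat_lit 0, nat_lit 0, nat_lit 0, nat_lit 0, nat_lit 0, nat_lit 218500, nat_lit 0, nat_lit 0, [(nat_lit 22, [(nat_lit 0, nat_lit 874)])],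
 ⟨p087_k13, nat_lit 0, nat_lit 0, nat_lit 99, nat_lit 0, nat_lit 0, [nat_lit 1626464001, nat_lit 2824619201, nat_lit 3374605600], [], [nat_lit 22182962861, nat_lit 23668962057, nat_lit 26083505855, nat_lit 27307076849, nat_lit 22439590749, nat_lit 23774022493, nat_lit 25951255111, nat_lit 27055925441], nat_lit 0, nat_lit 0, nat_lit 0, nat_lit 0, nat_lit 0, nat_lit 0, [], [nat_lit 102, nat_lit 40, nat_lit 40, nat_lit 80, nat_lit 2, nat_lit 249, nat_lit 40, nat_lit 7]⟩, ⟨p087_k15, nat_lit 0, nat_lit 0, nat_lit 649, nat_lit 0, nat_lit 846383, [nat_lit 590688000, nat_lit 1240092000, nat_lit 1495872000], [], [nat_lit 4898606652, nat_lit 4924771728, nat_lit 5024385788, nat_lit 5037388152, nat_lit 4220879863, nat_lit 4114215380, nat_lit 4175105197, nat_lit 4198610133], nat_lit 1271250, nat_lit 1271250, nat_lit 1271250, nat_lit 1271250, nat_lit 0, nat_lit 2486000, [nat_lit 1100000, nat_lit 2127500, nat_lit 1271250], [nat_lit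 125, nat_lit 40, nat_lit 40, nat_lit 80, nat_lit 41, nat_lit 483, nat_lit 250, nat_lit 12]⟩,
 ⟨nat_lit 3162, nat_lit 3873, ⟨.ofNat (nat_lit 629847), .ofNat (nat_lit 758943), .ofNat (nat_lit 651611), .ofNat (nat_lit 780717), .ofNat (nat_lit 627364), .ofNat (nat_lit 749323), .ofNat (nat_lit 649490), .ofNat (nat_lit 771459)⟩, ⟨.ofNat (nat_lit 175674), .ofNat (nat_lit 304717), .ofNat (nat_lit 200000), .ofNat (nat_lit 348304), .ofNat (nat_lit 184209), .ofNat (nat_lit 306116), .ofNat (nat_lit 200000), .ofNat (nat_lit 350426)⟩⟩, [⟨nat_lit 22, nat_lit 100, nat_lit 80, nat_lit 100, nat_lit 12431367⟩]⟩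
noncomputable def p087_l18 : Lf2 := ⟨nat_lit 0, nat_lit 20, [nat_lit 5, nat_lit 5, nat_lit 5, nat_lit 20], false, nat_lit 80, nat_lit 160, nat_lit 0, nat_lit 336, ⟨nat_lit 196, nat_lit 804, nat_lit 0, nat_lit 8, nat_lit 313, nat_lit 804, nat_lit 103, nat_lit 0, nat_lit 0, nat_lit 0, nat_lit 0, nat_lit 0, nat_lit 38719532, nat_lit 24107830, nat_lit 4172638, nat_lit 4534022, true, true⟩,
 nat_lit 0, nat_lit 0, nat_lit 3246, nat_lit 0, nat_lit 3433, nat_lit 1718, nat_lit 220, nat_lit 0, nat_lit 0, nat_lit 170, nat_lit 0, nat_lit 0, nat_lit 0, nat_lit 0, nat_lit 0, nat_lit 321600, nat_lit 0, nat_lit 0, [(nat_lit 22, [(nat_lit 1, nat_lit 804)])],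
 ⟨p087_k7, nat_lit 0, nat_lit 0, nat_lit 137, nat_lit 0, nat_lit 0, [nat_lit 1490425601, nat_lit 2168907201, nat_lit 2683147200], [], [nat_lit 25221700972, nat_lit 26205463020, nat_lit 27897857449, nat_lit 28821481489, nat_lit 25524892713, nat_lit 26376854081, nat_lit 27925059812, nat_lit 28714741281], nat_lit 0, nat_lit 0, nat_lit 0, nat_lit 0, nat_lit 0, nat_lit 0, [], [nat_lit 34, nat_lit 40, nat_lit 40, nat_lit 80, nat_lit 7, nat_lit 249, nat_lit 40, nat_lit 7]⟩, ⟨p087_k8, nat_lit 0, nat_lit 0, nat_lit 627, nat_lit 0, nat_lit 733980, [nat_lit 918848000, nat_lit 1561728000, nat_lit 2755368000], [], [nat_lit 7582977144, nat_lit 7596275664, nat_lit 8108215852, nat_lit 8159399912, nat_lit 6605243332, nat_lit 6609915075, nat_lit 6814441174, nat_lit 6812775510], nat_lit 1271250, nat_lit 1271250, nat_lit 1271250, nat_lit 1271250, nat_lit 0, nat_lit 2373000, [nat_lit 1100000, nat_lit 1785000, nat_lit 1271250], [nat_lit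 37, nat_lit 40, nat_lit 40, nat_lit 80, nat_lit 28, nat_lit 483, nat_lit 250, nat_lit 11]⟩,
 ⟨nat_lit 3162, nat_lit 3873, ⟨.ofNat (nat_lit 737150), .ofNat (nat_lit 827480), .ofNat (nat_lit 748046), .ofNat (nat_lit 838377), .ofNat (nat_lit 727168), .ofNat (nat_lit 812503), .ofNat (nat_lit 738246), .ofNat (nat_lit 823581)⟩, ⟨.ofNat (nat_lit 175674), .ofNat (nat_lit 304717), .ofNat (nat_lit 200000), .ofNat (nat_lit 348304), .ofNat (nat_lit 184209), .ofNat (nat_lit 306116), .ofNat (nat_lit 200000), .ofNat (nat_lit 350426)⟩⟩, [⟨nat_lit 13, nat_lit 68, nat_lit 60, nat_lit 100, nat_lit 6122266⟩, ⟨nat_lit 13, nat_lit 61, nat_lit 68, nat_lit 100, nat_lit 161522110⟩, ⟨nat_lit 22, nat_lit 71, nat_lit 100, nat_lit 97, nat_lit 24659626⟩]⟩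
noncomputable def p087_l19 : Lf2 := ⟨nat_lit 0, nat_lit 20, [nat_lit 5, nat_lit 5, nat_lit 5, nat_lit 20], false, nat_lit 80, nat_lit 160, nat_lit 0, nat_lit 336, ⟨nat_lit 316, nat_lit 684, nat_lit 0, nat_lit 8, nat_lit 320, nat_lit 684, nat_lit 103, nat_lit 0, nat_lit 0, nat_lit 0, nat_lit 0, nat_lit 0, nat_lit 38134747, nat_lit 24752904, nat_lit 4112349, nat_lit 4544517, true, true⟩,
 nat_lit 0, nat_lit 0, nat_lit 4561, nat_lit 0, nat_lit 3324, nat_lit 2533, nat_lit 342, nat_lit 0, nat_lit 0, nat_lit 280, nat_lit 0, nat_lit 0, nat_lit 0, nat_lit 0, nat_lit 0, nat_lit 273600, nat_lit 0, nat_lit 0, [(nat_lit 22, [(nat_lit 1, nat_lit 684)])],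
 ⟨p087_k7, nat_lit 0, nat_lit 0, nat_lit 136, nat_lit 0, nat_lit 0, [nat_lit 1571257601, nat_lit 2544891200, nat_lit 3471931200], [], [nat_lit 25099488873, nat_lit 25560947365, nat_lit 27802840825, nat_lit 28335828114, nat_lit 25463971137, nat_lit 25885117889, nat_lit 27936978253, nat_lit 28308193683], nat_lit 0, nat_lit 0, nat_lit 0, nat_lit 0, nat_lit 0, nat_lit 0, [], [nat_lit 34, nat_lit 40, nat_lit 40, nat_lit 80, nat_lit 7, nat_lit 249, nat_lit 40, nat_lit 7]⟩, ⟨p087_k11, nat_lit 0, nat_lit 0, nat_lit 566, nat_lit 0, nat_lit 561416, [nat_lit 1481408000, nat_lit 2517888000, nat_lit 4442328000], [], [nat_lit 11771939468, nat_lit 11818779028, nat_lit 12750356621, nat_lit 12830207254, nat_lit 10386574312, nat_lit 10416593665, nat_lit 10909240788, nat_lit 10925801973], nat_lit 1271250, nat_lit 1271250, nat_lit 1271250, nat_lit 1271250, nat_lit 0, nat_lit 2373000, [nat_lit 1100000, nat_lit 1785000, nat_lit 1271250],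 [nat_lit 37, nat_lit 40, nat_lit 40, nat_lit 80, nat_lit 28, nat_lit 483, nat_lit 250, nat_lit 11]⟩,
 ⟨nat_lit 3535, nat_lit 3873, ⟨.ofNat (nat_lit 748046), .ofNat (nat_lit 844829), .ofNat (nat_lit 758942), .ofNat (nat_lit 855725), .ofNat (nat_lit 743164), .ofNat (nat_lit 837306), .ofNat (nat_lit 754140), .ofNat (nat_lit 848283)⟩, ⟨.ofNat (nat_lit 175674), .ofNat (nat_lit 304717), .ofNat (nat_lit 200000), .ofNat (nat_lit 348304), .ofNat (nat_lit 179999), .ofNat (nat_lit 305521), .ofNat (nat_lit 200000), .ofNat (nat_lit 349427)⟩⟩, [⟨nat_lit 13, nat_lit 72, nat_lit 53, nat_lit 100, nat_lit 62355528⟩, ⟨nat_lit 22, nat_lit 69, nat_lit 100, nat_lit 96, nat_lit 47225267⟩]⟩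
noncomputable def p087_l20 : Lf2 := ⟨nat_lit 0, nat_lit 20, [nat_lit 5, nat_lit 5, nat_lit 5, nat_lit 20], false, nat_lit 80, nat_lit 160, nat_lit 0, nat_lit 336, ⟨nat_lit 213, nat_lit 787, nat_lit 0, nat_lit 8, nat_lit 315, nat_lit 787, nat_lit 104, nat_lit 0, nat_lit 0, nat_lit 0, nat_lit 0, nat_lit 0, nat_lit 38538635, nat_lit 24282630, nat_lit 4178735, nat_lit 4541600, true, true⟩,
 nat_lit 0, nat_lit 0, nat_lit 3156, nat_lit 0, nat_lit 3316, nat_lit 1753, nat_lit 231, nat_lit 0, nat_lit 0, nat_lit 190, nat_lit 0, nat_lit 0, nat_lit 0, nat_lit 0, nat_lit 0, nat_lit 314800, nat_lit 0, nat_lit 0, [(nat_lit 22, [(nat_lit 1, nat_lit 787)])],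
 ⟨p087_k9, nat_lit 0, nat_lit 0, nat_lit 136, nat_lit 0, nat_lit 0, [nat_lit 1501876801, nat_lit 2222171601, nat_lit 2794891600], [], [nat_lit 25550816752, nat_lit 26011857380, nat_lit 27879799445, nat_lit 28370837852, nat_lit 25877816868, nat_lit 26298608836, nat_lit 27954931405, nat_lit 28341021836], nat_lit 0, nat_lit 0, nat_lit 0, nat_lit 0, nat_lit 0, nat_lit 0, [], [nat_lit 34, nat_lit 40, nat_lit 40, nat_lit 80, nat_lit 7, nat_lit 249, nat_lit 40, nat_lit 7]⟩, ⟨p087_k11, nat_lit 0, nat_lit 0, nat_lit 631, nat_lit 0, nat_lit 750857, [nat_lit 998544000, nat_lit 1697184000, nat_lit 2994354000], [], [nat_lit 7977082392, nat_lit 8011248528, nat_lit 8503464877, nat_lit 8560352887, nat_lit 7045794341, nat_lit 7052752637, nat_lit 7247770949, nat_lit 7268705343], nat_lit 1271250, nat_lit 1271250, nat_lit 1271250, nat_lit 1271250, nat_lit 0, nat_lit 2373000, [nat_lit 1100000, nat_lit 1785000, nat_lit 1271250], [nat_lit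 37, nat_lit 40, nat_lit 40, nat_lit 80, nat_lit 28, nat_lit 483, nat_lit 250, nat_lit 11]⟩,
 ⟨nat_lit 3162, nat_lit 3536, ⟨.ofNat (nat_lit 743164), .ofNat (nat_lit 824754), .ofNat (nat_lit 754141), .ofNat (nat_lit 835730), .ofNat (nat_lit 738246), .ofNat (nat_lit 817485), .ofNat (nat_lit 749323), .ofNat (nat_lit 828563)⟩, ⟨.ofNat (nat_lit 179999), .ofNat (nat_lit 305521), .ofNat (nat_lit 200000), .ofNat (nat_lit 349427), .ofNat (nat_lit 184209), .ofNat (nat_lit 306116), .ofNat (nat_lit 200000), .ofNat (nat_lit 350426)⟩⟩, [⟨nat_lit 13, nat_lit 66, nat_lit 59, nat_lit 100, nat_lit 119023121⟩, ⟨nat_lit 22, nat_lit 73, nat_lit 100, nat_lit 97, nat_lit 29708235⟩]⟩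
noncomputable def p087_l21 : Lf2 := ⟨nat_lit 0, nat_lit 20, [nat_lit 5, nat_lit 5, nat_lit 5, nat_lit 20], false, nat_lit 80, nat_lit 160, nat_lit 0, nat_lit 336, ⟨nat_lit 441, nat_lit 559, nat_lit 0, nat_lit 8, nat_lit 325, nat_lit 559, nat_lit 103, nat_lit 0, nat_lit 0, nat_lit 0, nat_lit 0, nat_lit 0, nat_lit 37651222, nat_lit 25272254, nat_lit 4076524, nat_lit 4554005, true, true⟩,
 nat_lit 0, nat_lit 0, nat_lit 5300, nat_lit 0, nat_lit 3412, nat_lit 3085, nat_lit 459, nat_lit 0, nat_lit 0, nat_lit 541, nat_lit 0, nat_lit 0, nat_lit 0, nat_lit 0, nat_lit 0, nat_lit 223600, nat_lit 0, nat_lit 0, [(nat_lit 22, [(nat_lit 1, nat_lit 559)])],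
 ⟨p087_k7, nat_lit 0, nat_lit 0, nat_lit 137, nat_lit 0, nat_lit 0, [nat_lit 1655457601, nat_lit 2936541200, nat_lit 4293581200], [], [nat_lit 24901445337, nat_lit 25367500333, nat_lit 28206521628, nat_lit 28742415620, nat_lit 25235495969, nat_lit 25667898108, nat_lit 28202057507, nat_lit 28648470098], nat_lit 0, nat_lit 0, nat_lit 0, nat_lit 0, nat_lit 0, nat_lit 0, [], [nat_lit 34, nat_lit 40, nat_lit 40, nat_lit 80, nat_lit 7, nat_lit 249, nat_lit 40, nat_lit 7]⟩, ⟨p087_k4, nat_lit 0, nat_lit 0, nat_lit 520, nat_lit 0, nat_lit 598270, [nat_lit 2067408000, nat_lit 3513888000, nat_lit 5235552000], [], [nat_lit 15264802228, nat_lit 15356786642, nat_lit 16459369338, nat_lit 16542762234, nat_lit 14241485749, nat_lit 14277347085, nat_lit 14970088586, nat_lit 15006336449], nat_lit 1271250, nat_lit 1271250, nat_lit 1271250, nat_lit 1271250, nat_lit 0, nat_lit 2373000, [nat_lit 1100000, nat_lit 1785000, nat_lit 1271250],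 [nat_lit 21, nat_lit 40, nat_lit 40, nat_lit 80, nat_lit 14, nat_lit 401, nat_lit 175, nat_lit 10]⟩,
 ⟨nat_lit 3535, nat_lit 3873, ⟨.ofNat (nat_lit 758942), .ofNat (nat_lit 862178), .ofNat (nat_lit 769837), .ofNat (nat_lit 873074), .ofNat (nat_lit 754140), .ofNat (nat_lit 854559), .ofNat (nat_lit 765114), .ofNat (nat_lit 865535)⟩, ⟨.ofNat (nat_lit 175674), .ofNat (nat_lit 304717), .ofNat (nat_lit 200000), .ofNat (nat_lit 348304), .ofNat (nat_lit 179999), .ofNat (nat_lit 305521), .ofNat (nat_lit 200000), .ofNat (nat_lit 349427)⟩⟩, [⟨nat_lit 22, nat_lit 68, nat_lit 100, nat_lit 96, nat_lit 92830418⟩]⟩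
noncomputable def p087_l22 : Lf2 := ⟨nat_lit 0, nat_lit 20, [nat_lit 5, nat_lit 5, nat_lit 5, nat_lit 20], false, nat_lit 80, nat_lit 160, nat_lit 0, nat_lit 336, ⟨nat_lit 247, nat_lit 753, nat_lit 0, nat_lit 8, nat_lit 321, nat_lit 753, nat_lit 104, nat_lit 0, nat_lit 0, nat_lit 0, nat_lit 0, nat_lit 0, nat_lit 37945721, nat_lit 24919290, nat_lit 4134989, nat_lit 4554590, true, true⟩,
 nat_lit 0, nat_lit 0, nat_lit 3258, nat_lit 0, nat_lit 3236, nat_lit 1896, nat_lit 262, nat_lit 0, nat_lit 0, nat_lit 192, nat_lit 0, nat_lit 0, nat_lit 0, nat_lit 0, nat_lit 0, nat_lit 301200, nat_lit 0, nat_lit 0, [(nat_lit 22, [(nat_lit 1, nat_lit 753)])],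
 ⟨p087_k9, nat_lit 0, nat_lit 0, nat_lit 138, nat_lit 0, nat_lit 0, [nat_lit 1524779201, nat_lit 2328700400, nat_lit 3018380400], [], [nat_lit 25562183947, nat_lit 26019045935, nat_lit 28183069046, nat_lit 28714476824, nat_lit 25917479983, nat_lit 26334724111, nat_lit 28312631677, nat_lit 28683807576], nat_lit 0, nat_lit 0, nat_lit 0, nat_lit 0, nat_lit 0, nat_lit 0, [], [nat_lit 34, nat_lit 40, nat_lit 40, nat_lit 80, nat_lit 7, nat_lit 249, nat_lit 40, nat_lit 7]⟩, ⟨p087_k4, nat_lit 0, nat_lit 0, nat_lit 581, nat_lit 0, nat_lit 770357, [nat_lit 1157936000, nat_lit 1968096000, nat_lit 2932384000], [], [nat_lit 9267809286, nat_lit 9295042817, nat_lit 9687501926, nat_lit 9715415762, nat_lit 8228210942, nat_lit 8238537727, nat_lit 8497194127, nat_lit 8513860272], nat_lit 1271250, nat_lit 1271250, nat_lit 1271250, nat_lit 1271250, nat_lit 0, nat_lit 2373000, [nat_lit 1100000, nat_lit 1785000, nat_lit 1271250], [nat_lit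 21, nat_lit 40, nat_lit 40, nat_lit 80, nat_lit 14, nat_lit 401, nat_lit 175, nat_lit 10]⟩,
 ⟨nat_lit 3162, nat_lit 3536, ⟨.ofNat (nat_lit 754141), .ofNat (nat_lit 848283), .ofNat (nat_lit 765117), .ofNat (nat_lit 859259), .ofNat (nat_lit 749323), .ofNat (nat_lit 840753), .ofNat (nat_lit 760401), .ofNat (nat_lit 851831)⟩, ⟨.ofNat (nat_lit 179999), .ofNat (nat_lit 305521), .ofNat (nat_lit 200000), .ofNat (nat_lit 349427), .ofNat (nat_lit 184209), .ofNat (nat_lit 306116), .ofNat (nat_lit 200000), .ofNat (nat_lit 350426)⟩⟩, [⟨nat_lit 13, nat_lit 67, nat_lit 56, nat_lit 100, nat_lit 84192924⟩, ⟨nat_lit 22, nat_lit 69, nat_lit 100, nat_lit 96, nat_lit 43433719⟩]⟩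
noncomputable def p087_l23 : Lf2 := ⟨nat_lit 0, nat_lit 20, [nat_lit 5, nat_lit 5, nat_lit 5, nat_lit 20], false, nat_lit 80, nat_lit 160, nat_lit 0, nat_lit 336, ⟨nat_lit 404, nat_lit 596, nat_lit 0, nat_lit 8, nat_lit 330, nat_lit 596, nat_lit 103, nat_lit 0, nat_lit 0, nat_lit 0, nat_lit 0, nat_lit 0, nat_lit 37266647, nat_lit 25668412, nat_lit 4064941, nat_lit 4563514, true, true⟩,
 nat_lit 0, nat_lit 0, nat_lit 4365, nat_lit 0, nat_lit 3619, nat_lit 2658, nat_lit 326, nat_lit 0, nat_lit 0, nat_lit 467, nat_lit 0, nat_lit 0, nat_lit 0, nat_lit 0, nat_lit 0, nat_lit 238400, nat_lit 0, nat_lit 0, [(nat_lit 22, [(nat_lit 1, nat_lit 596)])],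
 ⟨p087_k7, nat_lit 0, nat_lit 0, nat_lit 141, nat_lit 0, nat_lit 0, [nat_lit 1630534400, nat_lit 2820612801, nat_lit 4050372800], [], [nat_lit 25635736996, nat_lit 26640453060, nat_lit 28983703171, nat_lit 29911499002, nat_lit 25871011416, nat_lit 26739470240, nat_lit 28880575609, nat_lit 29649620358], nat_lit 0, nat_lit 0, nat_lit 0, nat_lit 0, nat_lit 0, nat_lit 0, [], [nat_lit 34, nat_lit 40, nat_lit 40, nat_lit 80, nat_lit 7, nat_lit 249, nat_lit 40, nat_lit 7]⟩, ⟨p087_k12, nat_lit 0, nat_lit 0, nat_lit 587, nat_lit 0, nat_lit 791597, [nat_lit 1893952000, nat_lit 3219072000, nat_lit 4796288000], [], [nat_lit 14190386440, nat_lit 14244063648, nat_lit 14931897875, nat_lit 14968553457, nat_lit 13047964360, nat_lit 13063836743, nat_lit 13675106979, nat_lit 13784185160], nat_lit 1271250, nat_lit 1271250, nat_lit 1271250, nat_lit 1271250, nat_lit 0, nat_lit 2373000, [nat_lit 1100000, nat_lit 1785000, nat_lit 1271250],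 [nat_lit 21, nat_lit 40, nat_lit 40, nat_lit 80, nat_lit 14, nat_lit 401, nat_lit 175, nat_lit 10]⟩,
 ⟨nat_lit 3162, nat_lit 3873, ⟨.ofNat (nat_lit 769831), .ofNat (nat_lit 879526), .ofNat (nat_lit 780717), .ofNat (nat_lit 890423), .ofNat (nat_lit 760392), .ofNat (nat_lit 864021), .ofNat (nat_lit 771459), .ofNat (nat_lit 875099)⟩, ⟨.ofNat (nat_lit 175674), .ofNat (nat_lit 304717), .ofNat (nat_lit 200000), .ofNat (nat_lit 348304), .ofNat (nat_lit 184209), .ofNat (nat_lit 306116), .ofNat (nat_lit 200000), .ofNat (nat_lit 350426)⟩⟩, [⟨nat_lit 22, nat_lit 66, nat_lit 100, nat_lit 95, nat_lit 94024087⟩]⟩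
noncomputable def b_V_800_600_20_32 : St := ⟨true, nat_lit 0, nat_lit 1, nat_lit 1, nat_lit 120, nat_lit 320, nat_lit 360, nat_lit 240, nat_lit 280, nat_lit 240, nat_lit 396, nat_lit 80, nat_lit 120, nat_lit 0, nat_lit 160, nat_lit 0, nat_lit 364, nat_lit 40, nat_lit 80, nat_lit 0, nat_lit 0, nat_lit 0, nat_lit 0⟩
theorem d_V_800_600_20_32 (h : EB TB.env) : Dead b_V_800_600_20_32 := chkB_sound0 h (T :=
(.spl (nat_lit 0) (nat_lit 340)
(.spl (nat_lit 1) (nat_lit 260)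
(.trX (nat_lit 13) (nat_lit 84) (nat_lit 35) (nat_lit 100) (nat_lit 392) (.spl (nat_lit 6) (nat_lit 72)
(.spl (nat_lit 1) (nat_lit 250)
(.trX (nat_lit 13) (nat_lit 83) (nat_lit 39) (nat_lit 100) (nat_lit 388) (.leaf p087_l0))
(.trX (nat_lit 19) (nat_lit 100) (nat_lit 64) (nat_lit 95) (nat_lit 360) (.leaf p087_l1)))
(.leaf p087_l2)))
(.trX (nat_lit 19) (nat_lit 100) (nat_lit 69) (nat_lit 96) (nat_lit 352) (.spl (nat_lit 0) (nat_lit 330)
(.leaf p087_l3)
(.trX (nat_lit 13) (nat_lit 83) (nat_lit 32) (nat_lit 100) (nat_lit 392) (.spl (nat_lit 0) (nat_lit 335)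
(.leaf p087_l4)
(.leaf p087_l5))))))
(.trX (nat_lit 13) (nat_lit 78) (nat_lit 39) (nat_lit 100) (nat_lit 388) (.spl (nat_lit 4) (nat_lit 80)
(.trX (nat_lit 22) (nat_lit 100) (nat_lit 76) (nat_lit 82) (nat_lit 336) (.spl (nat_lit 1) (nat_lit 260)
(.trX (nat_lit 13) (nat_lit 75) (nat_lit 48) (nat_lit 100) (nat_lit 380) (.spl (nat_lit 5) (nat_lit 160)
(.spl (nat_lit 0) (nat_lit 350)
(.leaf p087_l6)
(.trX (nat_lit 13) (nat_lit 69) (nat_lit 54) (nat_lit 100) (nat_lit 372) (.trZ (nat_lit 3) (nat_lit 100) (nat_lit 83) (nat_lit 25) (nat_lit 4) (.spl (nat_lit 1) (nat_lit 250)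
(.trX (nat_lit 13) (nat_lit 68) (nat_lit 58) (nat_lit 100) (nat_lit 368) (.spl (nat_lit 0) (nat_lit 355)
(.leaf p087_l7)
(.trX (nat_lit 13) (nat_lit 65) (nat_lit 61) (nat_lit 100) (nat_lit 364) (.leaf p087_l8))))
(.leaf p087_l9)))))
(.spl (nat_lit 2) (nat_lit 320)
(.spl (nat_lit 0) (nat_lit 350)
(.leaf p087_l10)
(.trZ (nat_lit 3) (nat_lit 100) (nat_lit 83) (nat_lit 25) (nat_lit 4) (.leaf p087_l11)))
(.trZ (nat_lit 22) (nat_lit 82) (nat_lit 100) (nat_lit 44) (nat_lit 16) (.trX (nat_lit 22) (nat_lit 83) (nat_lit 100) (nat_lit 83) (nat_lit 260) (.leaf p087_l12))))))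
(.spl (nat_lit 2) (nat_lit 320)
(.spl (nat_lit 1) (nat_lit 270)
(.leaf p087_l13)
(.leaf p087_l14))
(.trX (nat_lit 22) (nat_lit 83) (nat_lit 100) (nat_lit 83) (nat_lit 260) (.leaf p087_l15)))))
(.spl (nat_lit 2) (nat_lit 320)
(.spl (nat_lit 1) (nat_lit 260)
(.leaf p087_l16)
(.trX (nat_lit 19) (nat_lit 100) (nat_lit 69) (nat_lit 96) (nat_lit 352) (.leaf p087_l17)))
(.trX (nat_lit 22) (nat_lit 82) (nat_lit 76) (nat_lit 100) (nat_lit 336) (.spl (nat_lit 1) (nat_lit 260)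
(.trX (nat_lit 13) (nat_lit 75) (nat_lit 48) (nat_lit 100) (nat_lit 380) (.spl (nat_lit 1) (nat_lit 250)
(.trX (nat_lit 13) (nat_lit 74) (nat_lit 52) (nat_lit 100) (nat_lit 376) (.leaf p087_l18))
(.spl (nat_lit 0) (nat_lit 350)
(.leaf p087_l19)
(.trX (nat_lit 13) (nat_lit 69) (nat_lit 54) (nat_lit 100) (nat_lit 372) (.leaf p087_l20)))))
(.spl (nat_lit 1) (nat_lit 270)
(.trX (nat_lit 13) (nat_lit 76) (nat_lit 43) (nat_lit 100) (nat_lit 384) (.spl (nat_lit 0) (nat_lit 350)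
(.leaf p087_l21)
(.trX (nat_lit 13) (nat_lit 71) (nat_lit 50) (nat_lit 100) (nat_lit 380) (.leaf p087_l22))))
(.leaf p087_l23))))))))) (by decide +kernel)
noncomputable def p087_l24 : Lf2 := ⟨nat_lit 0, nat_lit 20, [nat_lit 5, nat_lit 5, nat_lit 5, nat_lit 20], true, nat_lit 160, nat_lit 240, nat_lit 0, nat_lit 364, ⟨nat_lit 0, nat_lit 1000, nat_lit 0, nat_lit 6, nat_lit 275, nat_lit 1000, nat_lit 157, nat_lit 0, nat_lit 0, nat_lit 0, nat_lit 0, nat_lit 0, nat_lit 39422417, nat_lit 19590125, nat_lit 7987458, nat_lit 4964476, true, true⟩,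
 nat_lit 0, nat_lit 0, nat_lit 0, nat_lit 5213, nat_lit 3113, nat_lit 0, nat_lit 0, nat_lit 0, nat_lit 0, nat_lit 0, nat_lit 0, nat_lit 0, nat_lit 0, nat_lit 0, nat_lit 0, nat_lit 250000, nat_lit 0, nat_lit 0, [(nat_lit 19, [(nat_lit 0, nat_lit 1000)])],
 ⟨p087_k3, nat_lit 0, nat_lit 0, nat_lit 51, nat_lit 0, nat_lit 0, [nat_lit 1542400001, nat_lit 2368400000, nat_lit 3220880000], [], [nat_lit 19427751357, nat_lit 20712654937, nat_lit 23206011805, nat_lit 24282667865, nat_lit 21807098245, nat_lit 22929276989, nat_lit 25102438765, nat_lit 26050150893], nat_lit 0, nat_lit 0, nat_lit 0, nat_lit 0, nat_lit 0, nat_lit 0, [], [nat_lit 27, nat_lit 40, nat_lit 40, nat_lit 80, nat_lit 13, nat_lit 373, nat_lit 150, nat_lit 10]⟩, C1.Rw.none,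
 ⟨nat_lit 3872, nat_lit 4473, ⟨.ofNat (nat_lit 611083), .ofNat (nat_lit 747053), .ofNat (nat_lit 632632), .ofNat (nat_lit 768604), .ofNat (nat_lit 608080), .ofNat (nat_lit 737137), .ofNat (nat_lit 629856), .ofNat (nat_lit 758915)⟩, ⟨.ofNat (nat_lit 302621), .ofNat (nat_lit 438578), .ofNat (nat_lit 345754), .ofNat (nat_lit 481711), .ofNat (nat_lit 304717), .ofNat (nat_lit 433760), .ofNat (nat_lit 348304), .ofNat (nat_lit 477347)⟩⟩, [⟨nat_lit 4, nat_lit 100, nat_lit 81, nat_lit 92, nat_lit 9131553⟩]⟩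
noncomputable def p087_l25 : Lf2 := ⟨nat_lit 0, nat_lit 20, [nat_lit 5, nat_lit 5, nat_lit 5, nat_lit 20], false, nat_lit 160, nat_lit 240, nat_lit 0, nat_lit 364, ⟨nat_lit 145, nat_lit 855, nat_lit 0, nat_lit 6, nat_lit 272, nat_lit 855, nat_lit 156, nat_lit 0, nat_lit 0, nat_lit 0, nat_lit 0, nat_lit 0, nat_lit 39655268, nat_lit 19372766, nat_lit 7971966, nat_lit 4949960, true, true⟩,
 nat_lit 0, nat_lit 0, nat_lit 2462, nat_lit 0, nat_lit 3969, nat_lit 1303, nat_lit 0, nat_lit 0, nat_lit 0, nat_lit 133, nat_lit 0, nat_lit 0, nat_lit 0, nat_lit 0, nat_lit 0, nat_lit 213750, nat_lit 0, nat_lit 0, [(nat_lit 22, [(nat_lit 0, nat_lit 855)])],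
 ⟨p087_k7, nat_lit 0, nat_lit 0, nat_lit 60, nat_lit 0, nat_lit 0, [nat_lit 1635280000, nat_lit 2364794000, nat_lit 3474462000], [], [nat_lit 21723137960, nat_lit 23024772128, nat_lit 25246345352, nat_lit 26330898924, nat_lit 23764291412, nat_lit 24895573460, nat_lit 26812049170, nat_lit 27760487868], nat_lit 0, nat_lit 0, nat_lit 0, nat_lit 0, nat_lit 0, nat_lit 0, [], [nat_lit 34, nat_lit 40, nat_lit 40, nat_lit 80, nat_lit 7, nat_lit 272, nat_lit 60, nat_lit 7]⟩, ⟨p087_k8, nat_lit 0, nat_lit 0, nat_lit 679, nat_lit 0, nat_lit 807400, [nat_lit 679760000, nat_lit 1155360000, nat_lit 2038410000], [], [nat_lit 5260399716, nat_lit 5294979380, nat_lit 5493058200, nat_lit 5538568292, nat_lit 4751102779, nat_lit 4763766602, nat_lit 4836087044, nat_lit 4836966213], nat_lit 1271250, nat_lit 1271250, nat_lit 1271250, nat_lit 1271250, nat_lit 0, nat_lit 2570750, [nat_lit 1100000, nat_lit 1785000, nat_lit 1271250], [nat_lit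 37, nat_lit 40, nat_lit 40, nat_lit 80, nat_lit 28, nat_lit 483, nat_lit 250, nat_lit 11]⟩,
 ⟨nat_lit 3162, nat_lit 3873, ⟨.ofNat (nat_lit 608082), .ofNat (nat_lit 737150), .ofNat (nat_lit 629847), .ofNat (nat_lit 758943), .ofNat (nat_lit 605237), .ofNat (nat_lit 727168), .ofNat (nat_lit 627364), .ofNat (nat_lit 749323)⟩, ⟨.ofNat (nat_lit 304717), .ofNat (nat_lit 433760), .ofNat (nat_lit 348304), .ofNat (nat_lit 477347), .ofNat (nat_lit 306116), .ofNat (nat_lit 428022), .ofNat (nat_lit 350426), .ofNat (nat_lit 472332)⟩⟩, [⟨nat_lit 4, nat_lit 100, nat_lit 67, nat_lit 88, nat_lit 130210543⟩, ⟨nat_lit 7, nat_lit 72, nat_lit 100, nat_lit 89, nat_lit 20986142⟩]⟩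
noncomputable def p087_l26 : Lf2 := ⟨nat_lit 0, nat_lit 20, [nat_lit 5, nat_lit 5, nat_lit 5, nat_lit 20], true, nat_lit 240, nat_lit 300, nat_lit 16, nat_lit 364, ⟨nat_lit 0, nat_lit 1000, nat_lit 0, nat_lit 6, nat_lit 260, nat_lit 1000, nat_lit 201, nat_lit 0, nat_lit 0, nat_lit 0, nat_lit 0, nat_lit 0, nat_lit 37990715, nat_lit 17465830, nat_lit 11543455, nat_lit 5264018, true, true⟩,
 nat_lit 0, nat_lit 0, nat_lit 0, nat_lit 5337, nat_lit 3166, nat_lit 0, nat_lit 0, nat_lit 0, nat_lit 0, nat_lit 0, nat_lit 0, nat_lit 0, nat_lit 0, nat_lit 0, nat_lit 0, nat_lit 250000, nat_lit 0, nat_lit 0, [(nat_lit 19, [(nat_lit 0, nat_lit 1000)]), (nat_lit 22, [(nat_lit 0, nat_lit 1000)])],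
 ⟨p087_k16, nat_lit 0, nat_lit 0, nat_lit 39, nat_lit 0, nat_lit 0, [nat_lit 1642800000, nat_lit 3238355556], [], [nat_lit 21877245208, nat_lit 24137681624, nat_lit 23438176896, nat_lit 25523611056, nat_lit 24361472188, nat_lit 26357105636, nat_lit 25720303374, nat_lit 27566796522], nat_lit 0, nat_lit 0, nat_lit 0, nat_lit 0, nat_lit 0, nat_lit 0, [], [nat_lit 94, nat_lit 40, nat_lit 40, nat_lit 80, nat_lit 95, nat_lit 373, nat_lit 150, nat_lit 9]⟩, C1.Rw.none,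
 ⟨nat_lit 3162, nat_lit 4473, ⟨.ofNat (nat_lit 611007), .ofNat (nat_lit 679036), .ofNat (nat_lit 632483), .ofNat (nat_lit 700535), .ofNat (nat_lit 605159), .ofNat (nat_lit 666163), .ofNat (nat_lit 627223), .ofNat (nat_lit 688251)⟩, ⟨.ofNat (nat_lit 438578), .ofNat (nat_lit 540545), .ofNat (nat_lit 481711), .ofNat (nat_lit 583678), .ofNat (nat_lit 428022), .ofNat (nat_lit 519453), .ofNat (nat_lit 472332), .ofNat (nat_lit 563762)⟩⟩, [⟨nat_lit 16, nat_lit 74, nat_lit 100, nat_lit 90, nat_lit 274056737⟩]⟩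
noncomputable def p087_l27 : Lf2 := ⟨nat_lit 0, nat_lit 20, [nat_lit 5, nat_lit 5, nat_lit 5, nat_lit 20], true, nat_lit 240, nat_lit 300, nat_lit 36, nat_lit 364, ⟨nat_lit 0, nat_lit 1000, nat_lit 0, nat_lit 7, nat_lit 288, nat_lit 1000, nat_lit 203, nat_lit 0, nat_lit 0, nat_lit 0, nat_lit 0, nat_lit 0, nat_lit 35981922, nat_lit 19782388, nat_lit 11235690, nat_lit 5363427, true, true⟩,
 nat_lit 0, nat_lit 0, nat_lit 0, nat_lit 5382, nat_lit 3032, nat_lit 0, nat_lit 0, nat_lit 0, nat_lit 0, nat_lit 0, nat_lit 0, nat_lit 0, nat_lit 0, nat_lit 0, nat_lit 0, nat_lit 250000, nat_lit 0, nat_lit 0, [(nat_lit 19, [(nat_lit 0, nat_lit 1000)])],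
 ⟨p087_k3, nat_lit 0, nat_lit 0, nat_lit 54, nat_lit 0, nat_lit 0, [nat_lit 1542400001, nat_lit 2368400000, nat_lit 3220880000], [], [nat_lit 23396112993, nat_lit 24421091153, nat_lit 25122751297, nat_lit 26061338289, nat_lit 25651904049, nat_lit 26560927997, nat_lit 27175120009, nat_lit 28010038521], nat_lit 0, nat_lit 0, nat_lit 0, nat_lit 0, nat_lit 0, nat_lit 0, [], [nat_lit 27, nat_lit 40, nat_lit 40, nat_lit 80, nat_lit 13, nat_lit 289, nat_lit 75, nat_lit 7]⟩, C1.Rw.none,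
 ⟨nat_lit 3872, nat_lit 4473, ⟨.ofNat (nat_lit 679069), .ofNat (nat_lit 747053), .ofNat (nat_lit 700618), .ofNat (nat_lit 768604), .ofNat (nat_lit 672609), .ofNat (nat_lit 737137), .ofNat (nat_lit 694385), .ofNat (nat_lit 758915)⟩, ⟨.ofNat (nat_lit 438578), .ofNat (nat_lit 540545), .ofNat (nat_lit 481711), .ofNat (nat_lit 583678), .ofNat (nat_lit 433760), .ofNat (nat_lit 530543), .ofNat (nat_lit 477347), .ofNat (nat_lit 574129)⟩⟩, [⟨nat_lit 4, nat_lit 100, nat_lit 81, nat_lit 92, nat_lit 221575424⟩]⟩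
noncomputable def p087_l28 : Lf2 := ⟨nat_lit 0, nat_lit 20, [nat_lit 5, nat_lit 5, nat_lit 5, nat_lit 20], true, nat_lit 240, nat_lit 276, nat_lit 36, nat_lit 364, ⟨nat_lit 0, nat_lit 1000, nat_lit 0, nat_lit 7, nat_lit 285, nat_lit 1000, nat_lit 192, nat_lit 0, nat_lit 0, nat_lit 0, nat_lit 0, nat_lit 0, nat_lit 36763232, nat_lit 19744488, nat_lit 10492280, nat_lit 5283343, true, true⟩,
 nat_lit 0, nat_lit 0, nat_lit 0, nat_lit 5171, nat_lit 3598, nat_lit 0, nat_lit 0, nat_lit 0, nat_lit 0, nat_lit 0, nat_lit 0, nat_lit 0, nat_lit 0, nat_lit 0, nat_lit 0, nat_lit 250000, nat_lit 0, nat_lit 0, [(nat_lit 22, [(nat_lit 0, nat_lit 1000)])],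
 ⟨p087_k7, nat_lit 0, nat_lit 0, nat_lit 57, nat_lit 0, nat_lit 0, [nat_lit 1568000001, nat_lit 1970800000, nat_lit 2712400000], [], [nat_lit 25105026961, nat_lit 26050640665, nat_lit 26607791473, nat_lit 27520469256, nat_lit 26273877692, nat_lit 27181689276, nat_lit 27715371987, nat_lit 28628879019], nat_lit 0, nat_lit 0, nat_lit 0, nat_lit 0, nat_lit 0, nat_lit 0, [], [nat_lit 34, nat_lit 40, nat_lit 40, nat_lit 80, nat_lit 7, nat_lit 203, nat_lit 0, nat_lit 5]⟩, C1.Rw.none,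
 ⟨nat_lit 3162, nat_lit 3873, ⟨.ofNat (nat_lit 672628), .ofNat (nat_lit 737150), .ofNat (nat_lit 694401), .ofNat (nat_lit 758943), .ofNat (nat_lit 666215), .ofNat (nat_lit 727168), .ofNat (nat_lit 688349), .ofNat (nat_lit 749323)⟩, ⟨.ofNat (nat_lit 433760), .ofNat (nat_lit 491830), .ofNat (nat_lit 477347), .ofNat (nat_lit 535416), .ofNat (nat_lit 428022), .ofNat (nat_lit 482881), .ofNat (nat_lit 472332), .ofNat (nat_lit 527190)⟩⟩, [⟨nat_lit 16, nat_lit 77, nat_lit 100, nat_lit 99, nat_lit 32223355⟩, ⟨nat_lit 4, nat_lit 100, nat_lit 67, nat_lit 88, nat_lit 245108695⟩]⟩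
noncomputable def p087_l29 : Lf2 := ⟨nat_lit 0, nat_lit 20, [nat_lit 5, nat_lit 5, nat_lit 5, nat_lit 20], false, nat_lit 160, nat_lit 300, nat_lit 0, nat_lit 352, ⟨nat_lit 464, nat_lit 536, nat_lit 0, nat_lit 6, nat_lit 283, nat_lit 536, nat_lit 177, nat_lit 0, nat_lit 0, nat_lit 0, nat_lit 0, nat_lit 0, nat_lit 37701592, nat_lit 19967684, nat_lit 9330724, nat_lit 5160539, true, true⟩,
 nat_lit 0, nat_lit 0, nat_lit 6210, nat_lit 0, nat_lit 3392, nat_lit 3614, nat_lit 0, nat_lit 0, nat_lit 0, nat_lit 435, nat_lit 0, nat_lit 0, nat_lit 0, nat_lit 0, nat_lit 0, nat_lit 134000, nat_lit 0, nat_lit 0, [(nat_lit 19, [(nat_lit 0, nat_lit 536)])],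
 ⟨p087_k3, nat_lit 0, nat_lit 0, nat_lit 54, nat_lit 0, nat_lit 0, [nat_lit 1769574401, nat_lit 3444694400, nat_lit 6238791680], [], [nat_lit 19472463105, nat_lit 20809723825, nat_lit 23368823137, nat_lit 24484712177, nat_lit 24413489857, nat_lit 25438972145, nat_lit 27408866528, nat_lit 28315095036], nat_lit 0, nat_lit 0, nat_lit 0, nat_lit 0, nat_lit 0, nat_lit 0, [], [nat_lit 27, nat_lit 40, nat_lit 40, nat_lit 80, nat_lit 13, nat_lit 401, nat_lit 175, nat_lit 10]⟩, ⟨p087_k4, nat_lit 0, nat_lit 0, nat_lit 494, nat_lit 0, nat_lit 518923, [nat_lit 2175232000, nat_lit 3697152000, nat_lit 5508608000], [], [nat_lit 14893570849, nat_lit 15135717001, nat_lit 15931667009, nat_lit 16109620376, nat_lit 14132469481, nat_lit 14258100007, nat_lit 14702483135, nat_lit 14807397229], nat_lit 1271250, nat_lit 1271250, nat_lit 1271250, nat_lit 1271250, nat_lit 0, nat_lit 2486000, [nat_lit 1100000, nat_lit 1785000, nat_lit 1271250],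 [nat_lit 21, nat_lit 40, nat_lit 40, nat_lit 80, nat_lit 14, nat_lit 483, nat_lit 250, nat_lit 12]⟩,
 ⟨nat_lit 3872, nat_lit 4473, ⟨.ofNat (nat_lit 632632), .ofNat (nat_lit 768604), .ofNat (nat_lit 654181), .ofNat (nat_lit 790153), .ofNat (nat_lit 629856), .ofNat (nat_lit 758915), .ofNat (nat_lit 651631), .ofNat (nat_lit 780691)⟩, ⟨.ofNat (nat_lit 302621), .ofNat (nat_lit 540545), .ofNat (nat_lit 345754), .ofNat (nat_lit 583678), .ofNat (nat_lit 304717), .ofNat (nat_lit 530543), .ofNat (nat_lit 348304), .ofNat (nat_lit 574129)⟩⟩, [⟨nat_lit 16, nat_lit 81, nat_lit 100, nat_lit 92, nat_lit 347381230⟩, ⟨nat_lit 7, nat_lit 82, nat_lit 100, nat_lit 92, nat_lit 77343164⟩]⟩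
noncomputable def p087_l30 : Lf2 := ⟨nat_lit 0, nat_lit 20, [nat_lit 5, nat_lit 5, nat_lit 5, nat_lit 20], false, nat_lit 160, nat_lit 276, nat_lit 0, nat_lit 352, ⟨nat_lit 359, nat_lit 641, nat_lit 0, nat_lit 6, nat_lit 279, nat_lit 641, nat_lit 167, nat_lit 0, nat_lit 0, nat_lit 0, nat_lit 0, nat_lit 0, nat_lit 38534241, nat_lit 19748754, nat_lit 8717005, nat_lit 5071646, true, true⟩,
 nat_lit 0, nat_lit 0, nat_lit 4319, nat_lit 0, nat_lit 3737, nat_lit 2514, nat_lit 0, nat_lit 0, nat_lit 0, nat_lit 510, nat_lit 0, nat_lit 0, nat_lit 0, nat_lit 0, nat_lit 0, nat_lit 160250, nat_lit 0, nat_lit 0, [(nat_lit 22, [(nat_lit 0, nat_lit 641)])],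
 ⟨p087_k17, nat_lit 0, nat_lit 0, nat_lit 51, nat_lit 0, nat_lit 0, [nat_lit 1734576001, nat_lit 2205222560, nat_lit 4599160400], [], [nat_lit 21454502103, nat_lit 22713127577, nat_lit 24921212755, nat_lit 25975725245, nat_lit 24903926121, nat_lit 25923860740, nat_lit 27763275363, nat_lit 28754088968], nat_lit 0, nat_lit 0, nat_lit 0, nat_lit 0, nat_lit 0, nat_lit 0, [], [nat_lit 161, nat_lit 40, nat_lit 40, nat_lit 80, nat_lit 43, nat_lit 289, nat_lit 75, nat_lit 8]⟩, ⟨p087_k18, nat_lit 0, nat_lit 0, nat_lit 578, nat_lit 0, nat_lit 770357, [nat_lit 1682992000, nat_lit 2243750000, nat_lit 4262048000], [], [nat_lit 11475260270, nat_lit 11518735051, nat_lit 12150375784, nat_lit 12226159134, nat_lit 10554003011, nat_lit 10593760739, nat_lit 11214421161, nat_lit 11278461833], nat_lit 1271250, nat_lit 1271250, nat_lit 1271250, nat_lit 1271250, nat_lit 0, nat_lit 2486000, [nat_lit 1100000, nat_lit 1442500, nat_lit 1271250],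 [nat_lit 48, nat_lit 40, nat_lit 40, nat_lit 80, nat_lit 12, nat_lit 483, nat_lit 250, nat_lit 12]⟩,
 ⟨nat_lit 3162, nat_lit 3873, ⟨.ofNat (nat_lit 629847), .ofNat (nat_lit 758943), .ofNat (nat_lit 640729), .ofNat (nat_lit 769831), .ofNat (nat_lit 627364), .ofNat (nat_lit 749323), .ofNat (nat_lit 638427), .ofNat (nat_lit 760392)⟩, ⟨.ofNat (nat_lit 304717), .ofNat (nat_lit 491830), .ofNat (nat_lit 348304), .ofNat (nat_lit 535416), .ofNat (nat_lit 306116), .ofNat (nat_lit 482881), .ofNat (nat_lit 350426), .ofNat (nat_lit 527190)⟩⟩, [⟨nat_lit 16, nat_lit 67, nat_lit 100, nat_lit 88, nat_lit 329432174⟩, ⟨nat_lit 7, nat_lit 80, nat_lit 100, nat_lit 92, nat_lit 60830129⟩]⟩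
noncomputable def p087_l31 : Lf2 := ⟨nat_lit 0, nat_lit 20, [nat_lit 5, nat_lit 5, nat_lit 5, nat_lit 20], false, nat_lit 160, nat_lit 276, nat_lit 0, nat_lit 344, ⟨nat_lit 393, nat_lit 607, nat_lit 0, nat_lit 6, nat_lit 283, nat_lit 607, nat_lit 167, nat_lit 0, nat_lit 0, nat_lit 0, nat_lit 0, nat_lit 0, nat_lit 38195404, nat_lit 20140613, nat_lit 8663983, nat_lit 5085416, true, true⟩,
 nat_lit 0, nat_lit 0, nat_lit 4447, nat_lit 0, nat_lit 3776, nat_lit 2708, nat_lit 0, nat_lit 0, nat_lit 0, nat_lit 572, nat_lit 0, nat_lit 0, nat_lit 0, nat_lit 0, nat_lit 0, nat_lit 151750, nat_lit 0, nat_lit 0, [(nat_lit 22, [(nat_lit 0, nat_lit 607)])],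
 ⟨p087_k17, nat_lit 0, nat_lit 0, nat_lit 51, nat_lit 0, nat_lit 0, [nat_lit 1750352000, nat_lit 2262337120, nat_lit 4777850800], [], [nat_lit 21473173536, nat_lit 22738117088, nat_lit 24952473232, nat_lit 26011734752, nat_lit 24928060576, nat_lit 25952506914, nat_lit 27794299601, nat_lit 28789219817], nat_lit 0, nat_lit 0, nat_lit 0, nat_lit 0, nat_lit 0, nat_lit 0, [], [nat_lit 161, nat_lit 40, nat_lit 40, nat_lit 80, nat_lit 43, nat_lit 289, nat_lit 75, nat_lit 8]⟩, ⟨p087_k19, nat_lit 0, nat_lit 0, nat_lit 595, nat_lit 0, nat_lit 791597, [nat_lit 1842384000, nat_lit 2456250000, nat_lit 4665696000], [], [nat_lit 11950832172, nat_lit 12011319424, nat_lit 12822980578, nat_lit 12906009528, nat_lit 11192113061, nat_lit 11233209244, nat_lit 11942068758, nat_lit 12023009852], nat_lit 1271250, nat_lit 1271250, nat_lit 1271250, nat_lit 1271250, nat_lit 0, nat_lit 2429500, [nat_lit 1100000, nat_lit 1442500, nat_lit 1271250],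 [nat_lit 48, nat_lit 40, nat_lit 40, nat_lit 80, nat_lit 12, nat_lit 483, nat_lit 250, nat_lit 12]⟩,
 ⟨nat_lit 3162, nat_lit 3873, ⟨.ofNat (nat_lit 640729), .ofNat (nat_lit 769831), .ofNat (nat_lit 651611), .ofNat (nat_lit 780717), .ofNat (nat_lit 638427), .ofNat (nat_lit 760392), .ofNat (nat_lit 649490), .ofNat (nat_lit 771459)⟩, ⟨.ofNat (nat_lit 304717), .ofNat (nat_lit 491830), .ofNat (nat_lit 348304), .ofNat (nat_lit 535416), .ofNat (nat_lit 306116), .ofNat (nat_lit 482881), .ofNat (nat_lit 350426), .ofNat (nat_lit 527190)⟩⟩, [⟨nat_lit 4, nat_lit 100, nat_lit 67, nat_lit 88, nat_lit 348941594⟩, ⟨nat_lit 19, nat_lit 100, nat_lit 85, nat_lit 93, nat_lit 66918481⟩]⟩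
noncomputable def b_V_800_600_20_33 : St := ⟨true, nat_lit 0, nat_lit 1, nat_lit 1, nat_lit 120, nat_lit 320, nat_lit 360, nat_lit 240, nat_lit 280, nat_lit 240, nat_lit 320, nat_lit 80, nat_lit 120, nat_lit 160, nat_lit 300, nat_lit 0, nat_lit 364, nat_lit 40, nat_lit 80, nat_lit 0, nat_lit 0, nat_lit 0, nat_lit 0⟩
theorem d_V_800_600_20_33 (h : EB TB.env) : Dead b_V_800_600_20_33 := chkB_sound0 h (T :=
(.spl (nat_lit 1) (nat_lit 260)
(.spl (nat_lit 4) (nat_lit 240)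
(.spl (nat_lit 0) (nat_lit 340)
(.leaf p087_l24)
(.leaf p087_l25))
(.trZ (nat_lit 9) (nat_lit 100) (nat_lit 100) (nat_lit 40) (nat_lit 16) (.spl (nat_lit 2) (nat_lit 280)
(.leaf p087_l26)
(.trZ (nat_lit 9) (nat_lit 100) (nat_lit 94) (nat_lit 59) (nat_lit 36) (.spl (nat_lit 0) (nat_lit 340)
(.leaf p087_l27)
(.trX (nat_lit 16) (nat_lit 77) (nat_lit 100) (nat_lit 99) (nat_lit 276) (.leaf p087_l28)))))))
(.trX (nat_lit 19) (nat_lit 100) (nat_lit 69) (nat_lit 96) (nat_lit 352) (.spl (nat_lit 0) (nat_lit 340)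
(.leaf p087_l29)
(.trX (nat_lit 16) (nat_lit 77) (nat_lit 100) (nat_lit 99) (nat_lit 276) (.spl (nat_lit 1) (nat_lit 270)
(.leaf p087_l30)
(.trX (nat_lit 19) (nat_lit 100) (nat_lit 74) (nat_lit 98) (nat_lit 344) (.leaf p087_l31)))))))) (by decide +kernel)
noncomputable def p087_l32 : Lf2 := ⟨nat_lit 0, nat_lit 18, [nat_lit 100, nat_lit 5, nat_lit 5, nat_lit 20], false, nat_lit 160, nat_lit 240, nat_lit 16, nat_lit 364, ⟨nat_lit 1000, nat_lit 0, nat_lit 0, nat_lit 0, nat_lit 0, nat_lit 0, nat_lit 0, nat_lit 0, nat_lit 0, nat_lit 0, nat_lit 0, nat_lit 0, nat_lit 0, nat_lit 0, nat_lit 0, nat_lit 0, false, false⟩,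
 nat_lit 0, nat_lit 0, nat_lit 15025, nat_lit 0, nat_lit 5522, nat_lit 7954, nat_lit 0, nat_lit 0, nat_lit 0, nat_lit 823, nat_lit 0, nat_lit 0, nat_lit 0, nat_lit 0, nat_lit 0, nat_lit 0, nat_lit 0, nat_lit 0, [],
 ⟨p087_k0, nat_lit 0, nat_lit 0, nat_lit 77, nat_lit 0, nat_lit 0, [nat_lit 2032000001, nat_lit 4688000000, nat_lit 9842000000], [], [nat_lit 25611621640, nat_lit 26247690308, nat_lit 30351593496, nat_lit 30860781266, nat_lit 27243971536, nat_lit 27792767498, nat_lit 31350175704, nat_lit 31791240973], nat_lit 0, nat_lit 0, nat_lit 0, nat_lit 0, nat_lit 0, nat_lit 0, [], [nat_lit 27, nat_lit 40, nat_lit 40, nat_lit 80, nat_lit 13, nat_lit 272, nat_lit 60, nat_lit 6]⟩, ⟨p087_k1, nat_lit 0, nat_lit 0, nat_lit 400, nat_lit 0, nat_lit 232501, [nat_lit 4688000000, nat_lit 7968000000, nat_lit 14058000000], [], [nat_lit 37227014264, nat_lit 37701118281, nat_lit 40968020647, nat_lit 41382493500, nat_lit 34714499298,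 nat_lit 34833930219, nat_lit 37033438576, nat_lit 37147464650], nat_lit 1271250, nat_lit 1271250, nat_lit 1271250, nat_lit 1271250, nat_lit 88400, nat_lit 2598350, [nat_lit 1100000, nat_lit 1785000, nat_lit 1271250], [nat_lit 37, nat_lit 40, nat_lit 40, nat_lit 80, nat_lit 28, nat_lit 538, nat_lit 300, nat_lit 12]⟩,
 zbF0, [⟨nat_lit 13, nat_lit 81, nat_lit 42, nat_lit 100, nat_lit 18495185⟩, ⟨nat_lit 7, nat_lit 72, nat_lit 100, nat_lit 89, nat_lit 156401733⟩]⟩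
noncomputable def p087_l33 : Lf2 := ⟨nat_lit 0, nat_lit 18, [nat_lit 100, nat_lit 5, nat_lit 5, nat_lit 20], false, nat_lit 160, nat_lit 240, nat_lit 16, nat_lit 364, ⟨nat_lit 314, nat_lit 686, nat_lit 0, nat_lit 8, nat_lit 321, nat_lit 686, nat_lit 157, nat_lit 0, nat_lit 0, nat_lit 0, nat_lit 0, nat_lit 0, nat_lit 35808165, nat_lit 23733665, nat_lit 7458170, nat_lit 5073620, true, true⟩,
 nat_lit 0, nat_lit 0, nat_lit 4882, nat_lit 0, nat_lit 4208, nat_lit 2584, nat_lit 0, nat_lit 0, nat_lit 0, nat_lit 254, nat_lit 0, nat_lit 0, nat_lit 0, nat_lit 0, nat_lit 0, nat_lit 171500, nat_lit 0, nat_lit 0, [(nat_lit 19, [(nat_lit 0, nat_lit 686)])],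
 ⟨p087_k20, nat_lit 0, nat_lit 0, nat_lit 76, nat_lit 0, nat_lit 0, [nat_lit 1696134401, nat_lit 2974646400, nat_lit 4492449600], [], [nat_lit 25193946312, nat_lit 25750657264, nat_lit 28760088834, nat_lit 29225615268, nat_lit 26814059472, nat_lit 27299755840, nat_lit 29936250412, nat_lit 30344527805], nat_lit 0, nat_lit 0, nat_lit 0, nat_lit 0, nat_lit 0, nat_lit 0, [], [nat_lit 34, nat_lit 40, nat_lit 40, nat_lit 80, nat_lit 7, nat_lit 272, nat_lit 60, nat_lit 7]⟩, ⟨p087_k1, nat_lit 0, nat_lit 0, nat_lit 459, nat_lit 0, nat_lit 415335, [nat_lit 1472032000, nat_lit 2501952000, nat_lit 4414212000], [], [nat_lit 12117750639, nat_lit 12208743941, nat_lit 12869760316, nat_lit 12942896962, nat_lit 11043008981, nat_lit 11087876544, nat_lit 11566706718, nat_lit 11587445108], nat_lit 1271250, nat_lit 1271250, nat_lit 1271250, nat_lit 1271250, nat_lit 88400, nat_lit 2598350, [nat_lit 1100000, nat_lit 1785000, nat_lit 1271250],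 [nat_lit 37, nat_lit 40, nat_lit 40, nat_lit 80, nat_lit 28, nat_lit 538, nat_lit 300, nat_lit 12]⟩,
 ⟨nat_lit 3872, nat_lit 4184, ⟨.ofNat (nat_lit 742098), .ofNat (nat_lit 848108), .ofNat (nat_lit 763761), .ofNat (nat_lit 869774), .ofNat (nat_lit 737149), .ofNat (nat_lit 840384), .ofNat (nat_lit 758939), .ofNat (nat_lit 862177)⟩, ⟨.ofNat (nat_lit 303743), .ofNat (nat_lit 436254), .ofNat (nat_lit 347076), .ofNat (nat_lit 479587), .ofNat (nat_lit 304717), .ofNat (nat_lit 433760), .ofNat (nat_lit 348304), .ofNat (nat_lit 477347)⟩⟩, [⟨nat_lit 13, nat_lit 76, nat_lit 48, nat_lit 100, nat_lit 160581450⟩, ⟨nat_lit 4, nat_lit 100, nat_lit 77, nat_lit 91, nat_lit 179949196⟩, ⟨nat_lit 7, nat_lit 72, nat_lit 100, nat_lit 89, nat_lit 48682725⟩]⟩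
noncomputable def p087_l34 : Lf2 := ⟨nat_lit 1, nat_lit 20, [nat_lit 5, nat_lit 5, nat_lit 5, nat_lit 20], false, nat_lit 160, nat_lit 240, nat_lit 16, nat_lit 364, zbN0,
 nat_lit 0, nat_lit 0, nat_lit 0, nat_lit 0, nat_lit 0, nat_lit 0, nat_lit 0, nat_lit 0, nat_lit 0, nat_lit 0, nat_lit 0, nat_lit 0, nat_lit 0, nat_lit 0, nat_lit 0, nat_lit 0, nat_lit 0, nat_lit 0, [],
 C1.Rw.none, C1.Rw.none,
 zbF0, []⟩
noncomputable def p087_l35 : Lf2 := ⟨nat_lit 0, nat_lit 15, [nat_lit 30, nat_lit 5, nat_lit 5, nat_lit 20], false, nat_lit 160, nat_lit 240, nat_lit 16, nat_lit 364, ⟨nat_lit 99, nat_lit 901, nat_lit 0, nat_lit 8, nat_lit 308, nat_lit 901, nat_lit 156, nat_lit 0, nat_lit 0, nat_lit 0, nat_lit 0, nat_lit 0, nat_lit 36861243, nat_lit 22558584, nat_lit 7580173, nat_lit 5048456, true, true⟩,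
 nat_lit 0, nat_lit 0, nat_lit 1554, nat_lit 0, nat_lit 3678, nat_lit 822, nat_lit 0, nat_lit 0, nat_lit 0, nat_lit 66, nat_lit 0, nat_lit 0, nat_lit 0, nat_lit 0, nat_lit 0, nat_lit 225250, nat_lit 0, nat_lit 0, [(nat_lit 22, [(nat_lit 0, nat_lit 901)])],
 ⟨p087_k21, nat_lit 0, nat_lit 0, nat_lit 73, nat_lit 0, nat_lit 0, [nat_lit 1613936001, nat_lit 2239802801, nat_lit 3232704400], [], [nat_lit 25271266954, nat_lit 26299261689, nat_lit 27245226845, nat_lit 28191192001, nat_lit 26835779341, nat_lit 27756269817, nat_lit 28588965533, nat_lit 29421661249], nat_lit 0, nat_lit 0, nat_lit 0, nat_lit 0, nat_lit 0, nat_lit 0, [], [nat_lit 34, nat_lit 40, nat_lit 40, nat_lit 80, nat_lit 7, nat_lit 272, nat_lit 60, nat_lit 7]⟩, ⟨p087_k22, nat_lit 0, nat_lit 0, nat_lit 559, nat_lit 0, nat_lit 732698, [nat_lit 464112000, nat_lit 788832000, nat_lit 1175328000], [], [nat_lit 3789726075, nat_lit 3807987963, nat_lit 3949836125, nat_lit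 3964129836, nat_lit 3486293593, nat_lit 3489021049, nat_lit 3560247341, nat_lit 3560666712], nat_lit 1271250, nat_lit 1271250, nat_lit 1271250, nat_lit 1271250, nat_lit 88400, nat_lit 2598350, [nat_lit 1100000, nat_lit 1785000, nat_lit 1271250], [nat_lit 21, nat_lit 40, nat_lit 40, nat_lit 80, nat_lit 14, nat_lit 401, nat_lit 175, nat_lit 10]⟩,
 ⟨nat_lit 3162, nat_lit 3873, ⟨.ofNat (nat_lit 737150), .ofNat (nat_lit 801671), .ofNat (nat_lit 748046), .ofNat (nat_lit 812568), .ofNat (nat_lit 727168), .ofNat (nat_lit 788122), .ofNat (nat_lit 738246), .ofNat (nat_lit 799199)⟩, ⟨.ofNat (nat_lit 304717), .ofNat (nat_lit 433760), .ofNat (nat_lit 348304), .ofNat (nat_lit 477347), .ofNat (nat_lit 306116), .ofNat (nat_lit 428022), .ofNat (nat_lit 350426), .ofNat (nat_lit 472332)⟩⟩, [⟨nat_lit 13, nat_lit 68, nat_lit 60, nat_lit 100, nat_lit 124183701⟩, ⟨nat_lit 16, nat_lit 67, nat_lit 100, nat_lit 88, nat_lit 16277583⟩, ⟨nat_lit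 7, nat_lit 70, nat_lit 100, nat_lit 89, nat_lit 15738208⟩]⟩
noncomputable def p087_l36 : Lf2 := ⟨nat_lit 0, nat_lit 15, [nat_lit 30, nat_lit 5, nat_lit 5, nat_lit 20], false, nat_lit 160, nat_lit 240, nat_lit 16, nat_lit 360, ⟨nat_lit 99, nat_lit 901, nat_lit 0, nat_lit 8, nat_lit 312, nat_lit 901, nat_lit 156, nat_lit 0, nat_lit 0, nat_lit 0, nat_lit 0, nat_lit 0, nat_lit 36523410, nat_lit 22946516, nat_lit 7530074, nat_lit 5056212, true, true⟩,
 nat_lit 0, nat_lit 0, nat_lit 1434, nat_lit 0, nat_lit 3677, nat_lit 796, nat_lit 0, nat_lit 0, nat_lit 0, nat_lit 77, nat_lit 0, nat_lit 0, nat_lit 0, nat_lit 0, nat_lit 0, nat_lit 225250, nat_lit 0, nat_lit 0, [(nat_lit 22, [(nat_lit 0, nat_lit 901)])],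
 ⟨p087_k21, nat_lit 0, nat_lit 0, nat_lit 73, nat_lit 0, nat_lit 0, [nat_lit 1613936001, nat_lit 2239802801, nat_lit 3232704400], [], [nat_lit 25272457470, nat_lit 26299582493, nat_lit 27245447547, nat_lit 28191312601, nat_lit 26836290411, nat_lit 27756684845, nat_lit 28589301939, nat_lit 29421919033], nat_lit 0, nat_lit 0, nat_lit 0, nat_lit 0, nat_lit 0, nat_lit 0, [], [nat_lit 34, nat_lit 40, nat_lit 40, nat_lit 80, nat_lit 7, nat_lit 272, nat_lit 60, nat_lit 7]⟩, ⟨p087_k23, nat_lit 0, nat_lit 0, nat_lit 562, nat_lit 0, nat_lit 747906, [nat_lit 464112000, nat_lit 788832000, nat_lit 1175328000], [], [nat_lit 3608053585, nat_lit 3626391362, nat_lit 3762146191, nat_lit 3776620758, nat_lit 3343936178, nat_lit 3351554445, nat_lit 3438142857, nat_lit 3443121533], nat_lit 1271250, nat_lit 1271250, nat_lit 1271250, nat_lit 1271250, nat_lit 88400, nat_lit 2569500, [nat_lit 1100000, nat_lit 1785000, nat_lit 1271250], [nat_lit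 21, nat_lit 40, nat_lit 40, nat_lit 80, nat_lit 14, nat_lit 401, nat_lit 175, nat_lit 10]⟩,
 ⟨nat_lit 3162, nat_lit 3873, ⟨.ofNat (nat_lit 748046), .ofNat (nat_lit 812568), .ofNat (nat_lit 758943), .ofNat (nat_lit 823465), .ofNat (nat_lit 738246), .ofNat (nat_lit 799199), .ofNat (nat_lit 749323), .ofNat (nat_lit 810277)⟩, ⟨.ofNat (nat_lit 304717), .ofNat (nat_lit 433760), .ofNat (nat_lit 348304), .ofNat (nat_lit 477347), .ofNat (nat_lit 306116), .ofNat (nat_lit 428022), .ofNat (nat_lit 350426), .ofNat (nat_lit 472332)⟩⟩, [⟨nat_lit 19, nat_lit 100, nat_lit 64, nat_lit 95, nat_lit 15623851⟩]⟩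
noncomputable def p087_l37 : Lf2 := ⟨nat_lit 0, nat_lit 20, [nat_lit 5, nat_lit 5, nat_lit 5, nat_lit 20], false, nat_lit 160, nat_lit 240, nat_lit 16, nat_lit 364, ⟨nat_lit 264, nat_lit 736, nat_lit 0, nat_lit 8, nat_lit 308, nat_lit 736, nat_lit 156, nat_lit 0, nat_lit 0, nat_lit 0, nat_lit 0, nat_lit 0, nat_lit 36861243, nat_lit 22558584, nat_lit 7580173, nat_lit 5048456, true, true⟩,
 nat_lit 0, nat_lit 0, nat_lit 4263, nat_lit 0, nat_lit 4025, nat_lit 2256, nat_lit 0, nat_lit 0, nat_lit 0, nat_lit 228, nat_lit 0, nat_lit 0, nat_lit 0, nat_lit 0, nat_lit 0, nat_lit 184000, nat_lit 0, nat_lit 0, [(nat_lit 22, [(nat_lit 0, nat_lit 736)])],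
 ⟨p087_k7, nat_lit 0, nat_lit 0, nat_lit 73, nat_lit 0, nat_lit 0, [nat_lit 1690496001, nat_lit 2688140800, nat_lit 4099878400], [], [nat_lit 25544963000, nat_lit 26636280700, nat_lit 27616981250, nat_lit 28597681800, nat_lit 27106776050, nat_lit 28060593100, nat_lit 28920570650, nat_lit 29780548200], nat_lit 0, nat_lit 0, nat_lit 0, nat_lit 0, nat_lit 0, nat_lit 0, [], [nat_lit 34, nat_lit 40, nat_lit 40, nat_lit 80, nat_lit 7, nat_lit 272, nat_lit 60, nat_lit 7]⟩, ⟨p087_k8, nat_lit 0, nat_lit 0, nat_lit 461, nat_lit 0, nat_lit 430200, [nat_lit 1237632000, nat_lit 2103552000, nat_lit 3711312000], [], [nat_lit 9879047569, nat_lit 9916718948, nat_lit 10256819357, nat_lit 10284704972, nat_lit 9028838626, nat_lit 9046575213, nat_lit 9285881933, nat_lit 9296288764], nat_lit 1271250, nat_lit 1271250, nat_lit 1271250, nat_lit 1271250, nat_lit 88400, nat_lit 2598350, [nat_lit 1100000, nat_lit 1785000, nat_lit 1271250], [nat_lit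 37, nat_lit 40, nat_lit 40, nat_lit 80, nat_lit 28, nat_lit 483, nat_lit 250, nat_lit 11]⟩,
 ⟨nat_lit 3162, nat_lit 3873, ⟨.ofNat (nat_lit 737150), .ofNat (nat_lit 801671), .ofNat (nat_lit 748046), .ofNat (nat_lit 812568), .ofNat (nat_lit 727168), .ofNat (nat_lit 788122), .ofNat (nat_lit 738246), .ofNat (nat_lit 799199)⟩, ⟨.ofNat (nat_lit 304717), .ofNat (nat_lit 433760), .ofNat (nat_lit 348304), .ofNat (nat_lit 477347), .ofNat (nat_lit 306116), .ofNat (nat_lit 428022), .ofNat (nat_lit 350426), .ofNat (nat_lit 472332)⟩⟩, [⟨nat_lit 13, nat_lit 68, nat_lit 60, nat_lit 100, nat_lit 54315980⟩, ⟨nat_lit 4, nat_lit 100, nat_lit 67, nat_lit 88, nat_lit 215060207⟩, ⟨nat_lit 19, nat_lit 100, nat_lit 70, nat_lit 89, nat_lit 43429842⟩]⟩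
noncomputable def p087_l38 : Lf2 := ⟨nat_lit 0, nat_lit 20, [nat_lit 5, nat_lit 5, nat_lit 5, nat_lit 20], false, nat_lit 160, nat_lit 240, nat_lit 16, nat_lit 360, ⟨nat_lit 275, nat_lit 725, nat_lit 0, nat_lit 8, nat_lit 312, nat_lit 725, nat_lit 156, nat_lit 0, nat_lit 0, nat_lit 0, nat_lit 0, nat_lit 0, nat_lit 36523410, nat_lit 22946516, nat_lit 7530074, nat_lit 5056212, true, true⟩,
 nat_lit 0, nat_lit 0, nat_lit 3963, nat_lit 0, nat_lit 4048, nat_lit 2201, nat_lit 0, nat_lit 0, nat_lit 0, nat_lit 242, nat_lit 0, nat_lit 0, nat_lit 0, nat_lit 0, nat_lit 0, nat_lit 181250, nat_lit 0, nat_lit 0, [(nat_lit 22, [(nat_lit 0, nat_lit 725)])],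
 ⟨p087_k7, nat_lit 0, nat_lit 0, nat_lit 73, nat_lit 0, nat_lit 0, [nat_lit 1695600001, nat_lit 2718030000, nat_lit 4157690000], [], [nat_lit 25564695584, nat_lit 26658791408, nat_lit 27641794304, nat_lit 28624797200, nat_lit 27124910640, nat_lit 28080936656, nat_lit 28942722512, nat_lit 29804508368], nat_lit 0, nat_lit 0, nat_lit 0, nat_lit 0, nat_lit 0, nat_lit 0, [], [nat_lit 34, nat_lit 40, nat_lit 40, nat_lit 80, nat_lit 7, nat_lit 272, nat_lit 60, nat_lit 7]⟩, ⟨p087_k11, nat_lit 0, nat_lit 0, nat_lit 472, nat_lit 0, nat_lit 466869, [nat_lit 1289200000, nat_lit 2191200000, nat_lit 3865950000], [], [nat_lit 10031252201, nat_lit 10071529665, nat_lit 10405830011, nat_lit 10449499878, nat_lit 9250298083, nat_lit 9271593146, nat_lit 9511793709, nat_lit 9525783986], nat_lit 1271250, nat_lit 1271250, nat_lit 1271250, nat_lit 1271250, nat_lit 88400, nat_lit 2569500, [nat_lit 1100000, nat_lit 1785000, nat_lit 1271250],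 [nat_lit 37, nat_lit 40, nat_lit 40, nat_lit 80, nat_lit 28, nat_lit 483, nat_lit 250, nat_lit 11]⟩,
 ⟨nat_lit 3162, nat_lit 3873, ⟨.ofNat (nat_lit 748046), .ofNat (nat_lit 812568), .ofNat (nat_lit 758943), .ofNat (nat_lit 823465), .ofNat (nat_lit 738246), .ofNat (nat_lit 799199), .ofNat (nat_lit 749323), .ofNat (nat_lit 810277)⟩, ⟨.ofNat (nat_lit 304717), .ofNat (nat_lit 433760), .ofNat (nat_lit 348304), .ofNat (nat_lit 477347), .ofNat (nat_lit 306116), .ofNat (nat_lit 428022), .ofNat (nat_lit 350426), .ofNat (nat_lit 472332)⟩⟩, [⟨nat_lit 4, nat_lit 100, nat_lit 67, nat_lit 88, nat_lit 219331955⟩, ⟨nat_lit 7, nat_lit 75, nat_lit 100, nat_lit 90, nat_lit 45878926⟩]⟩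
noncomputable def p087_l39 : Lf2 := ⟨nat_lit 0, nat_lit 15, [nat_lit 30, nat_lit 5, nat_lit 5, nat_lit 20], false, nat_lit 160, nat_lit 240, nat_lit 48, nat_lit 352, ⟨nat_lit 91, nat_lit 909, nat_lit 0, nat_lit 9, nat_lit 329, nat_lit 909, nat_lit 156, nat_lit 0, nat_lit 0, nat_lit 0, nat_lit 0, nat_lit 0, nat_lit 35264734, nat_lit 24396662, nat_lit 7338604, nat_lit 5077439, true, true⟩,
 nat_lit 0, nat_lit 0, nat_lit 1485, nat_lit 0, nat_lit 3563, nat_lit 786, nat_lit 0, nat_lit 0, nat_lit 0, nat_lit 62, nat_lit 0, nat_lit 0, nat_lit 0, nat_lit 0, nat_lit 0, nat_lit 227250, nat_lit 0, nat_lit 0, [(nat_lit 22, [(nat_lit 0, nat_lit 909)])],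
 ⟨p087_k21, nat_lit 0, nat_lit 0, nat_lit 80, nat_lit 0, nat_lit 0, [nat_lit 1610224001, nat_lit 2218065200, nat_lit 3190659600], [], [nat_lit 27251922563, nat_lit 28183323400, nat_lit 28302439245, nat_lit 29186867232, nat_lit 28605914622, nat_lit 29429568808, nat_lit 29538488954, nat_lit 30319457332], nat_lit 0, nat_lit 0, nat_lit 0, nat_lit 0, nat_lit 0, nat_lit 0, [], [nat_lit 34, nat_lit 40, nat_lit 40, nat_lit 80, nat_lit 7, nat_lit 272, nat_lit 60, nat_lit 7]⟩, ⟨p087_k22, nat_lit 0, nat_lit 0, nat_lit 562, nat_lit 0, nat_lit 804033, [nat_lit 426608000, nat_lit 725088000, nat_lit 1080352000], [], [nat_lit 3495582952, nat_lit 3507395711, nat_lit 3554933672, nat_lit 3563959921, nat_lit 3207706701, nat_lit 3214277816, nat_lit 3280915784, nat_lit 3301667114], nat_lit 1271250, nat_lit 1271250, nat_lit 1271250, nat_lit 1271250, nat_lit 279600, nat_lit 2563400, [nat_lit 1100000, nat_lit 1785000, nat_lit 1271250], [nat_lit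 21, nat_lit 40, nat_lit 40, nat_lit 80, nat_lit 14, nat_lit 401, nat_lit 175, nat_lit 9]⟩,
 ⟨nat_lit 3162, nat_lit 3873, ⟨.ofNat (nat_lit 801671), .ofNat (nat_lit 833932), .ofNat (nat_lit 823465), .ofNat (nat_lit 855725), .ofNat (nat_lit 788122), .ofNat (nat_lit 818598), .ofNat (nat_lit 810277), .ofNat (nat_lit 840753)⟩, ⟨.ofNat (nat_lit 304717), .ofNat (nat_lit 433760), .ofNat (nat_lit 348304), .ofNat (nat_lit 477347), .ofNat (nat_lit 306116), .ofNat (nat_lit 428022), .ofNat (nat_lit 350426), .ofNat (nat_lit 472332)⟩⟩, [⟨nat_lit 13, nat_lit 68, nat_lit 58, nat_lit 100, nat_lit 260657872⟩, ⟨nat_lit 10, nat_lit 68, nat_lit 55, nat_lit 100, nat_lit 25050100⟩]⟩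
noncomputable def p087_l40 : Lf2 := ⟨nat_lit 0, nat_lit 20, [nat_lit 5, nat_lit 5, nat_lit 5, nat_lit 20], false, nat_lit 160, nat_lit 240, nat_lit 48, nat_lit 352, ⟨nat_lit 264, nat_lit 736, nat_lit 0, nat_lit 9, nat_lit 329, nat_lit 736, nat_lit 156, nat_lit 0, nat_lit 0, nat_lit 0, nat_lit 0, nat_lit 0, nat_lit 35264734, nat_lit 24396662, nat_lit 7338604, nat_lit 5077439, true, true⟩,
 nat_lit 0, nat_lit 0, nat_lit 4216, nat_lit 0, nat_lit 3921, nat_lit 2231, nat_lit 0, nat_lit 0, nat_lit 0, nat_lit 219, nat_lit 0, nat_lit 0, nat_lit 0, nat_lit 0, nat_lit 0, nat_lit 184000, nat_lit 0, nat_lit 0, [(nat_lit 22, [(nat_lit 0, nat_lit 736)])],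
 ⟨p087_k7, nat_lit 0, nat_lit 0, nat_lit 80, nat_lit 0, nat_lit 0, [nat_lit 1690496001, nat_lit 2688140800, nat_lit 4099878400], [], [nat_lit 27639934258, nat_lit 28610224200, nat_lit 28738939815, nat_lit 29655533744, nat_lit 28955556874, nat_lit 29807357736, nat_lit 29925063918, nat_lit 30731055974], nat_lit 0, nat_lit 0, nat_lit 0, nat_lit 0, nat_lit 0, nat_lit 0, [], [nat_lit 34, nat_lit 40, nat_lit 40, nat_lit 80, nat_lit 7, nat_lit 272, nat_lit 60, nat_lit 7]⟩, ⟨p087_k8, nat_lit 0, nat_lit 0, nat_lit 464, nat_lit 0, nat_lit 502026, [nat_lit 1237632000, nat_lit 2103552000, nat_lit 3711312000], [], [nat_lit 9893737963, nat_lit 9948553139, nat_lit 10107411785, nat_lit 10152525068, nat_lit 9275588615, nat_lit 9301678396, nat_lit 9479227242, nat_lit 9522620546], nat_lit 1271250, nat_lit 1271250, nat_lit 1271250, nat_lit 1271250, nat_lit 279600, nat_lit 2563400, [nat_lit 1100000, nat_lit 1785000, nat_lit 1271250], [nat_lit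 37, nat_lit 40, nat_lit 40, nat_lit 80, nat_lit 28, nat_lit 401, nat_lit 175, nat_lit 9]⟩,
 ⟨nat_lit 3162, nat_lit 3873, ⟨.ofNat (nat_lit 801671), .ofNat (nat_lit 833932), .ofNat (nat_lit 823465), .ofNat (nat_lit 855725), .ofNat (nat_lit 788122), .ofNat (nat_lit 818598), .ofNat (nat_lit 810277), .ofNat (nat_lit 840753)⟩, ⟨.ofNat (nat_lit 304717), .ofNat (nat_lit 433760), .ofNat (nat_lit 348304), .ofNat (nat_lit 477347), .ofNat (nat_lit 306116), .ofNat (nat_lit 428022), .ofNat (nat_lit 350426), .ofNat (nat_lit 472332)⟩⟩, [⟨nat_lit 13, nat_lit 68, nat_lit 58, nat_lit 100, nat_lit 251602383⟩, ⟨nat_lit 4, nat_lit 100, nat_lit 67, nat_lit 88, nat_lit 207532935⟩, ⟨nat_lit 19, nat_lit 100, nat_lit 72, nat_lit 89, nat_lit 48809558⟩]⟩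
noncomputable def p087_l41 : Lf2 := ⟨nat_lit 0, nat_lit 20, [nat_lit 5, nat_lit 5, nat_lit 5, nat_lit 20], false, nat_lit 240, nat_lit 300, nat_lit 64, nat_lit 364, ⟨nat_lit 1000, nat_lit 0, nat_lit 0, nat_lit 0, nat_lit 0, nat_lit 0, nat_lit 0, nat_lit 0, nat_lit 0, nat_lit 0, nat_lit 0, nat_lit 0, nat_lit 0, nat_lit 0, nat_lit 0, nat_lit 0, false, false⟩,
 nat_lit 0, nat_lit 0, nat_lit 15025, nat_lit 0, nat_lit 5470, nat_lit 7954, nat_lit 0, nat_lit 0, nat_lit 0, nat_lit 823, nat_lit 0, nat_lit 0, nat_lit 0, nat_lit 0, nat_lit 0, nat_lit 0, nat_lit 0, nat_lit 0, [],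
 ⟨p087_k3, nat_lit 0, nat_lit 0, nat_lit 72, nat_lit 0, nat_lit 0, [nat_lit 2032000001, nat_lit 4688000000, nat_lit 9842000000], [], [nat_lit 27275541360, nat_lit 28368139100, nat_lit 31362451240, nat_lit 32241216108, nat_lit 29447834700, nat_lit 30398080505, nat_lit 33121538927, nat_lit 33999873007], nat_lit 0, nat_lit 0, nat_lit 0, nat_lit 0, nat_lit 0, nat_lit 0, [], [nat_lit 27, nat_lit 40, nat_lit 40, nat_lit 80, nat_lit 13, nat_lit 289, nat_lit 75, nat_lit 7]⟩, ⟨p087_k8, nat_lit 0, nat_lit 0, nat_lit 422, nat_lit 0, nat_lit 409132, [nat_lit 4688000000, nat_lit 7968000000, nat_lit 14058000000], [], [nat_lit 34295449169, nat_lit 34756830816, nat_lit 37912432453, nat_lit 38207388053, nat_lit 34714499298, nat_lit 34833930219, nat_lit 37033438576, nat_lit 37147464650], nat_lit 1271250, nat_lit 1271250, nat_lit 1271250, nat_lit 1271250, nat_lit 382400, nat_lit 2681150, [nat_lit 1100000, nat_lit 1785000, nat_lit 1271250],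 [nat_lit 37, nat_lit 40, nat_lit 40, nat_lit 80, nat_lit 28, nat_lit 538, nat_lit 300, nat_lit 12]⟩,
 zbF0, [⟨nat_lit 13, nat_lit 78, nat_lit 45, nat_lit 100, nat_lit 13722309⟩, ⟨nat_lit 16, nat_lit 81, nat_lit 100, nat_lit 92, nat_lit 988176442⟩, ⟨nat_lit 7, nat_lit 72, nat_lit 100, nat_lit 89, nat_lit 218063880⟩]⟩
noncomputable def p087_l42 : Lf2 := ⟨nat_lit 0, nat_lit 15, [nat_lit 30, nat_lit 5, nat_lit 5, nat_lit 20], false, nat_lit 240, nat_lit 276, nat_lit 64, nat_lit 364, ⟨nat_lit 348, nat_lit 652, nat_lit 0, nat_lit 8, nat_lit 314, nat_lit 652, nat_lit 193, nat_lit 0, nat_lit 0, nat_lit 0, nat_lit 0, nat_lit 0, nat_lit 34678702, nat_lit 22217892, nat_lit 10103406, nat_lit 5348281, true, true⟩,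
 nat_lit 0, nat_lit 0, nat_lit 5268, nat_lit 0, nat_lit 4163, nat_lit 2788, nat_lit 0, nat_lit 0, nat_lit 0, nat_lit 255, nat_lit 0, nat_lit 0, nat_lit 0, nat_lit 0, nat_lit 0, nat_lit 163000, nat_lit 0, nat_lit 0, [(nat_lit 22, [(nat_lit 0, nat_lit 652)])],
 ⟨p087_k21, nat_lit 0, nat_lit 0, nat_lit 69, nat_lit 0, nat_lit 0, [nat_lit 1729472001, nat_lit 2916385600, nat_lit 4541348800], [], [nat_lit 27264493190, nat_lit 27748028613, nat_lit 29897969608, nat_lit 30314566625, nat_lit 28405479785, nat_lit 28854371400, nat_lit 30917740180, nat_lit 31359837533], nat_lit 0, nat_lit 0, nat_lit 0, nat_lit 0, nat_lit 0, nat_lit 0, [], [nat_lit 34, nat_lit 40, nat_lit 40, nat_lit 80, nat_lit 7, nat_lit 203, nat_lit 0, nat_lit 5]⟩, ⟨p087_k22, nat_lit 0, nat_lit 0, nat_lit 417, nat_lit 0, nat_lit 528911, [nat_lit 1631424000, nat_lit 2772864000, nat_lit 4131456000], [], [nat_lit 11558637633, nat_lit 11656895072, nat_lit 12649243948,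 nat_lit 12722243117, nat_lit 12060269357, nat_lit 12091124662, nat_lit 12629408289, nat_lit 12647050615], nat_lit 1271250, nat_lit 1271250, nat_lit 1271250, nat_lit 1271250, nat_lit 382400, nat_lit 2681150, [nat_lit 1100000, nat_lit 1785000, nat_lit 1271250], [nat_lit 21, nat_lit 40, nat_lit 40, nat_lit 80, nat_lit 14, nat_lit 401, nat_lit 175, nat_lit 10]⟩,
 ⟨nat_lit 3535, nat_lit 3873, ⟨.ofNat (nat_lit 737150), .ofNat (nat_lit 827480), .ofNat (nat_lit 748046), .ofNat (nat_lit 838377), .ofNat (nat_lit 732188), .ofNat (nat_lit 820054), .ofNat (nat_lit 743164), .ofNat (nat_lit 831030)⟩, ⟨.ofNat (nat_lit 433760), .ofNat (nat_lit 491830), .ofNat (nat_lit 477347), .ofNat (nat_lit 535416), .ofNat (nat_lit 431044), .ofNat (nat_lit 487529), .ofNat (nat_lit 474949), .ofNat (nat_lit 531435)⟩⟩, [⟨nat_lit 13, nat_lit 71, nat_lit 57, nat_lit 100, nat_lit 168272431⟩, ⟨nat_lit 16, nat_lit 71, nat_lit 100, nat_lit 89, nat_lit 423055190⟩,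 ⟨nat_lit 7, nat_lit 70, nat_lit 100, nat_lit 89, nat_lit 81457437⟩]⟩
noncomputable def p087_l43 : Lf2 := ⟨nat_lit 0, nat_lit 15, [nat_lit 30, nat_lit 5, nat_lit 5, nat_lit 20], false, nat_lit 240, nat_lit 264, nat_lit 64, nat_lit 364, ⟨nat_lit 158, nat_lit 842, nat_lit 0, nat_lit 8, nat_lit 309, nat_lit 842, nat_lit 188, nat_lit 0, nat_lit 0, nat_lit 0, nat_lit 0, nat_lit 0, nat_lit 35264324, nat_lit 21924028, nat_lit 9811648, nat_lit 5305017, true, true⟩,
 nat_lit 0, nat_lit 0, nat_lit 2530, nat_lit 0, nat_lit 3705, nat_lit 1339, nat_lit 0, nat_lit 0, nat_lit 0, nat_lit 118, nat_lit 0, nat_lit 0, nat_lit 0, nat_lit 0, nat_lit 0, nat_lit 210500, nat_lit 0, nat_lit 0, [(nat_lit 22, [(nat_lit 0, nat_lit 842)])],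
 ⟨p087_k24, nat_lit 0, nat_lit 0, nat_lit 68, nat_lit 0, nat_lit 0, [nat_lit 1641312001, nat_lit 2400117600, nat_lit 2950033600], [], [nat_lit 27443837055, nat_lit 27905378860, nat_lit 29527709547, nat_lit 29936332276, nat_lit 28165299068, nat_lit 28605628342, nat_lit 30155584738, nat_lit 30545782615], nat_lit 0, nat_lit 0, nat_lit 0, nat_lit 0, nat_lit 0, nat_lit 0, [], [nat_lit 6, nat_lit 40, nat_lit 40, nat_lit 80, nat_lit 3, nat_lit 203, nat_lit 0, nat_lit 5]⟩, ⟨p087_k22, nat_lit 0, nat_lit 0, nat_lit 523, nat_lit 0, nat_lit 732698, [nat_lit 740704000, nat_lit 1258944000, nat_lit 1875776000], [], [nat_lit 5475276480, nat_lit 5503179106, nat_lit 5779991578, nat_lit 5800454873, nat_lit 5437883240, nat_lit 5448649026, nat_lit 5628718800, nat_lit 5645915781], nat_lit 1271250, nat_lit 1271250, nat_lit 1271250, nat_lit 1271250, nat_lit 382400, nat_lit 2681150, [nat_lit 1100000, nat_lit 1785000, nat_lit 1271250], [nat_lit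 21, nat_lit 40, nat_lit 40, nat_lit 80, nat_lit 14, nat_lit 401, nat_lit 175, nat_lit 10]⟩,
 ⟨nat_lit 3162, nat_lit 3536, ⟨.ofNat (nat_lit 732188), .ofNat (nat_lit 807502), .ofNat (nat_lit 743164), .ofNat (nat_lit 818478), .ofNat (nat_lit 727168), .ofNat (nat_lit 800312), .ofNat (nat_lit 738246), .ofNat (nat_lit 811390)⟩, ⟨.ofNat (nat_lit 431044), .ofNat (nat_lit 468701), .ofNat (nat_lit 474949), .ofNat (nat_lit 512606), .ofNat (nat_lit 428022), .ofNat (nat_lit 464594), .ofNat (nat_lit 472332), .ofNat (nat_lit 508904)⟩⟩, [⟨nat_lit 13, nat_lit 65, nat_lit 63, nat_lit 100, nat_lit 222390796⟩, ⟨nat_lit 16, nat_lit 69, nat_lit 100, nat_lit 96, nat_lit 269572975⟩, ⟨nat_lit 19, nat_lit 100, nat_lit 59, nat_lit 94, nat_lit 32791205⟩]⟩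
noncomputable def p087_l44 : Lf2 := ⟨nat_lit 0, nat_lit 15, [nat_lit 30, nat_lit 5, nat_lit 5, nat_lit 20], false, nat_lit 240, nat_lit 276, nat_lit 64, nat_lit 360, ⟨nat_lit 175, nat_lit 825, nat_lit 0, nat_lit 8, nat_lit 311, nat_lit 825, nat_lit 192, nat_lit 0, nat_lit 0, nat_lit 0, nat_lit 0, nat_lit 0, nat_lit 34918177, nat_lit 21985079, nat_lit 10096744, nat_lit 5338965, true, true⟩,
 nat_lit 0, nat_lit 0, nat_lit 2546, nat_lit 0, nat_lit 3748, nat_lit 1414, nat_lit 0, nat_lit 0, nat_lit 0, nat_lit 138, nat_lit 0, nat_lit 0, nat_lit 0, nat_lit 0, nat_lit 0, nat_lit 206250, nat_lit 0, nat_lit 0, [(nat_lit 22, [(nat_lit 0, nat_lit 825)])],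
 ⟨p087_k21, nat_lit 0, nat_lit 0, nat_lit 66, nat_lit 0, nat_lit 0, [nat_lit 1649200001, nat_lit 2446310000, nat_lit 3632130000], [], [nat_lit 27006511640, nat_lit 27933725056, nat_lit 28771924312, nat_lit 29610123568, nat_lit 28123056022, nat_lit 28986101385, nat_lit 29767212446, nat_lit 30548323507], nat_lit 0, nat_lit 0, nat_lit 0, nat_lit 0, nat_lit 0, nat_lit 0, [], [nat_lit 34, nat_lit 40, nat_lit 40, nat_lit 80, nat_lit 7, nat_lit 203, nat_lit 0, nat_lit 5]⟩, ⟨p087_k23, nat_lit 0, nat_lit 0, nat_lit 514, nat_lit 0, nat_lit 713818, [nat_lit 820400000, nat_lit 1394400000, nat_lit 2077600000], [], [nat_lit 5893359877, nat_lit 5908928912, nat_lit 6155991344, nat_lit 6168273779, nat_lit 5884967875, nat_lit 5891655547, nat_lit 6051624764, nat_lit 6055970072], nat_lit 1271250, nat_lit 1271250, nat_lit 1271250, nat_lit 1271250, nat_lit 382400, nat_lit 2650500, [nat_lit 1100000, nat_lit 1785000, nat_lit 1271250], [nat_lit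 21, nat_lit 40, nat_lit 40, nat_lit 80, nat_lit 14, nat_lit 401, nat_lit 175, nat_lit 10]⟩,
 ⟨nat_lit 3162, nat_lit 3873, ⟨.ofNat (nat_lit 748046), .ofNat (nat_lit 812568), .ofNat (nat_lit 753495), .ofNat (nat_lit 818016), .ofNat (nat_lit 738246), .ofNat (nat_lit 799199), .ofNat (nat_lit 743785), .ofNat (nat_lit 804738)⟩, ⟨.ofNat (nat_lit 433760), .ofNat (nat_lit 491830), .ofNat (nat_lit 477347), .ofNat (nat_lit 535416), .ofNat (nat_lit 428022), .ofNat (nat_lit 482881), .ofNat (nat_lit 472332), .ofNat (nat_lit 527190)⟩⟩, [⟨nat_lit 4, nat_lit 100, nat_lit 67, nat_lit 88, nat_lit 316338364⟩, ⟨nat_lit 19, nat_lit 100, nat_lit 64, nat_lit 95, nat_lit 36786030⟩]⟩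
noncomputable def p087_l45 : Lf2 := ⟨nat_lit 0, nat_lit 15, [nat_lit 30, nat_lit 5, nat_lit 5, nat_lit 20], false, nat_lit 240, nat_lit 276, nat_lit 64, nat_lit 356, ⟨nat_lit 177, nat_lit 823, nat_lit 0, nat_lit 8, nat_lit 313, nat_lit 823, nat_lit 192, nat_lit 0, nat_lit 0, nat_lit 0, nat_lit 0, nat_lit 0, nat_lit 34766003, nat_lit 22170839, nat_lit 10063158, nat_lit 5342185, true, true⟩,
 nat_lit 0, nat_lit 0, nat_lit 2453, nat_lit 0, nat_lit 3753, nat_lit 1394, nat_lit 0, nat_lit 0, nat_lit 0, nat_lit 142, nat_lit 0, nat_lit 0, nat_lit 0, nat_lit 0, nat_lit 0, nat_lit 205750, nat_lit 0, nat_lit 0, [(nat_lit 22, [(nat_lit 0, nat_lit 823)])],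
 ⟨p087_k21, nat_lit 0, nat_lit 0, nat_lit 66, nat_lit 0, nat_lit 0, [nat_lit 1650128001, nat_lit 2451744400, nat_lit 3642641200], [], [nat_lit 27009390690, nat_lit 27937084316, nat_lit 28775676682, nat_lit 29614269048, nat_lit 28126229556, nat_lit 28989693448, nat_lit 29771143232, nat_lit 30552912097], nat_lit 0, nat_lit 0, nat_lit 0, nat_lit 0, nat_lit 0, nat_lit 0, [], [nat_lit 34, nat_lit 40, nat_lit 40, nat_lit 80, nat_lit 7, nat_lit 203, nat_lit 0, nat_lit 5]⟩, ⟨p087_k25, nat_lit 0, nat_lit 0, nat_lit 516, nat_lit 0, nat_lit 722140, [nat_lit 829776000, nat_lit 1410336000, nat_lit 2101344000], [], [nat_lit 5877162039, nat_lit 5892970065, nat_lit 6136877286, nat_lit 6149431063, nat_lit 5869527446, nat_lit 5876787379, nat_lit 6038066525, nat_lit 6054135628], nat_lit 1271250, nat_lit 1271250, nat_lit 1271250, nat_lit 1271250, nat_lit 382400, nat_lit 2619851, [nat_lit 1100000, nat_lit 1785000, nat_lit 1271250], [nat_lit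 21, nat_lit 40, nat_lit 40, nat_lit 80, nat_lit 14, nat_lit 401, nat_lit 175, nat_lit 10]⟩,
 ⟨nat_lit 3162, nat_lit 3873, ⟨.ofNat (nat_lit 753495), .ofNat (nat_lit 818016), .ofNat (nat_lit 758943), .ofNat (nat_lit 823465), .ofNat (nat_lit 743785), .ofNat (nat_lit 804738), .ofNat (nat_lit 749323), .ofNat (nat_lit 810277)⟩, ⟨.ofNat (nat_lit 433760), .ofNat (nat_lit 491830), .ofNat (nat_lit 477347), .ofNat (nat_lit 535416), .ofNat (nat_lit 428022), .ofNat (nat_lit 482881), .ofNat (nat_lit 472332), .ofNat (nat_lit 527190)⟩⟩, [⟨nat_lit 16, nat_lit 67, nat_lit 100, nat_lit 88, nat_lit 317778711⟩, ⟨nat_lit 19, nat_lit 100, nat_lit 66, nat_lit 95, nat_lit 37298946⟩]⟩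
noncomputable def p087_l46 : Lf2 := ⟨nat_lit 0, nat_lit 15, [nat_lit 30, nat_lit 5, nat_lit 5, nat_lit 20], false, nat_lit 240, nat_lit 276, nat_lit 112, nat_lit 360, ⟨nat_lit 222, nat_lit 778, nat_lit 0, nat_lit 9, nat_lit 331, nat_lit 778, nat_lit 192, nat_lit 0, nat_lit 0, nat_lit 0, nat_lit 0, nat_lit 0, nat_lit 33554880, nat_lit 23654236, nat_lit 9790884, nat_lit 5360548, true, true⟩,
 nat_lit 0, nat_lit 0, nat_lit 3188, nat_lit 0, nat_lit 3799, nat_lit 1771, nat_lit 0, nat_lit 0, nat_lit 0, nat_lit 161, nat_lit 0, nat_lit 0, nat_lit 0, nat_lit 0, nat_lit 0, nat_lit 194500, nat_lit 0, nat_lit 0, [(nat_lit 22, [(nat_lit 0, nat_lit 778)])],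
 ⟨p087_k21, nat_lit 0, nat_lit 0, nat_lit 71, nat_lit 0, nat_lit 0, [nat_lit 1671008001, nat_lit 2574018400, nat_lit 3879143200], [], [nat_lit 28882476006, nat_lit 29724684984, nat_lit 29839397042, nat_lit 30636856906, nat_lit 29879583983, nat_lit 30664150019, nat_lit 30774639182, nat_lit 31576458887], nat_lit 0, nat_lit 0, nat_lit 0, nat_lit 0, nat_lit 0, nat_lit 0, [], [nat_lit 34, nat_lit 40, nat_lit 40, nat_lit 80, nat_lit 7, nat_lit 203, nat_lit 0, nat_lit 4]⟩, ⟨p087_k23, nat_lit 0, nat_lit 0, nat_lit 501, nat_lit 0, nat_lit 747906, [nat_lit 1040736000, nat_lit 1768896000, nat_lit 2635584000], [], [nat_lit 7646583850, nat_lit 7675213787, nat_lit 7825849401, nat_lit 7850481974, nat_lit 7781441217, nat_lit 7802690606, nat_lit 7975447043, nat_lit 8003290827], nat_lit 1271250, nat_lit 1271250, nat_lit 1271250, nat_lit 1271250, nat_lit 719601, nat_lit 2731500, [nat_lit 1100000, nat_lit 1785000, nat_lit 1271250], [nat_lit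 21, nat_lit 40, nat_lit 40, nat_lit 80, nat_lit 14, nat_lit 401, nat_lit 175, nat_lit 9]⟩,
 ⟨nat_lit 3162, nat_lit 3873, ⟨.ofNat (nat_lit 812568), .ofNat (nat_lit 844829), .ofNat (nat_lit 823465), .ofNat (nat_lit 855725), .ofNat (nat_lit 799199), .ofNat (nat_lit 829676), .ofNat (nat_lit 810277), .ofNat (nat_lit 840753)⟩, ⟨.ofNat (nat_lit 433760), .ofNat (nat_lit 491830), .ofNat (nat_lit 477347), .ofNat (nat_lit 535416), .ofNat (nat_lit 428022), .ofNat (nat_lit 482881), .ofNat (nat_lit 472332), .ofNat (nat_lit 527190)⟩⟩, [⟨nat_lit 13, nat_lit 69, nat_lit 56, nat_lit 100, nat_lit 264046266⟩, ⟨nat_lit 4, nat_lit 100, nat_lit 67, nat_lit 88, nat_lit 337677918⟩, ⟨nat_lit 19, nat_lit 100, nat_lit 64, nat_lit 95, nat_lit 54661746⟩]⟩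
noncomputable def p087_l47 : Lf2 := ⟨nat_lit 0, nat_lit 20, [nat_lit 5, nat_lit 5, nat_lit 5, nat_lit 20], false, nat_lit 240, nat_lit 276, nat_lit 64, nat_lit 364, ⟨nat_lit 1000, nat_lit 0, nat_lit 0, nat_lit 0, nat_lit 0, nat_lit 0, nat_lit 0, nat_lit 0, nat_lit 0, nat_lit 0, nat_lit 0, nat_lit 0, nat_lit 0, nat_lit 0, nat_lit 0, nat_lit 0, false, false⟩,
 nat_lit 0, nat_lit 0, nat_lit 15285, nat_lit 1499, nat_lit 5444, nat_lit 8091, nat_lit 0, nat_lit 0, nat_lit 0, nat_lit 842, nat_lit 0, nat_lit 0, nat_lit 0, nat_lit 0, nat_lit 0, nat_lit 0, nat_lit 0, nat_lit 0, [],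
 ⟨p087_k7, nat_lit 0, nat_lit 0, nat_lit 71, nat_lit 0, nat_lit 0, [nat_lit 2032000001, nat_lit 4688000000, nat_lit 7968000000], [], [nat_lit 28381426920, nat_lit 29471527568, nat_lit 31569695552, nat_lit 32482200136, nat_lit 29597860444, nat_lit 30602870675, nat_lit 32544270875, nat_lit 33509981359], nat_lit 0, nat_lit 0, nat_lit 0, nat_lit 0, nat_lit 0, nat_lit 0, [], [nat_lit 34, nat_lit 40, nat_lit 40, nat_lit 80, nat_lit 7, nat_lit 203, nat_lit 0, nat_lit 5]⟩, ⟨p087_k8, nat_lit 0, nat_lit 0, nat_lit 452, nat_lit 0, nat_lit 502026, [nat_lit 4688000000, nat_lit 7968000000, nat_lit 14058000000], [], [nat_lit 33948767856, nat_lit 34410420981, nat_lit 36946680436, nat_lit 37267993822, nat_lit 34276399884, nat_lit 34391458656, nat_lit 36319211647, nat_lit 36446739465], nat_lit 1271250, nat_lit 1271250, nat_lit 1271250, nat_lit 1271250, nat_lit 382400, nat_lit 2681150, [nat_lit 1100000, nat_lit 1785000, nat_lit 1271250],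 [nat_lit 37, nat_lit 40, nat_lit 40, nat_lit 80, nat_lit 28, nat_lit 538, nat_lit 300, nat_lit 12]⟩,
 zbF0, [⟨nat_lit 13, nat_lit 68, nat_lit 58, nat_lit 100, nat_lit 8531044⟩, ⟨nat_lit 4, nat_lit 100, nat_lit 67, nat_lit 88, nat_lit 1563496980⟩, ⟨nat_lit 7, nat_lit 72, nat_lit 100, nat_lit 89, nat_lit 222619699⟩]⟩
noncomputable def b_V_800_600_20_34 : St := ⟨true, nat_lit 0, nat_lit 1, nat_lit 1, nat_lit 120, nat_lit 320, nat_lit 360, nat_lit 240, nat_lit 260, nat_lit 320, nat_lit 396, nat_lit 80, nat_lit 120, nat_lit 160, nat_lit 300, nat_lit 16, nat_lit 364, nat_lit 40, nat_lit 80, nat_lit 0, nat_lit 0, nat_lit 0, nat_lit 0⟩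
theorem d_V_800_600_20_34 (h : EB TB.env) : Dead b_V_800_600_20_34 := chkB_sound0 h (T :=
(.trX (nat_lit 13) (nat_lit 84) (nat_lit 35) (nat_lit 100) (nat_lit 392) (.spl (nat_lit 4) (nat_lit 240)
(.spl (nat_lit 0) (nat_lit 340)
(.spl (nat_lit 6) (nat_lit 72)
(.spl (nat_lit 0) (nat_lit 330)
(.leaf p087_l32)
(.trX (nat_lit 13) (nat_lit 80) (nat_lit 41) (nat_lit 100) (nat_lit 384) (.leaf p087_l33)))
(.leaf p087_l34))
(.trX (nat_lit 13) (nat_lit 75) (nat_lit 48) (nat_lit 100) (nat_lit 380) (.spl (nat_lit 2) (nat_lit 360)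
(.spl (nat_lit 6) (nat_lit 60)
(.spl (nat_lit 1) (nat_lit 250)
(.leaf p087_l35)
(.trX (nat_lit 19) (nat_lit 100) (nat_lit 64) (nat_lit 95) (nat_lit 360) (.leaf p087_l36)))
(.spl (nat_lit 1) (nat_lit 250)
(.leaf p087_l37)
(.trX (nat_lit 19) (nat_lit 100) (nat_lit 64) (nat_lit 95) (nat_lit 360) (.leaf p087_l38))))
(.trZ (nat_lit 9) (nat_lit 100) (nat_lit 61) (nat_lit 68) (nat_lit 48) (.trX (nat_lit 22) (nat_lit 61) (nat_lit 68) (nat_lit 100) (nat_lit 352) (.spl (nat_lit 6) (nat_lit 60)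
(.leaf p087_l39)
(.leaf p087_l40)))))))
(.trZ (nat_lit 9) (nat_lit 100) (nat_lit 82) (nat_lit 76) (nat_lit 64) (.spl (nat_lit 0) (nat_lit 340)
(.leaf p087_l41)
(.trX (nat_lit 13) (nat_lit 75) (nat_lit 48) (nat_lit 100) (nat_lit 380) (.trX (nat_lit 16) (nat_lit 77) (nat_lit 100) (nat_lit 99) (nat_lit 276) (.spl (nat_lit 6) (nat_lit 60)
(.spl (nat_lit 1) (nat_lit 250)
(.trX (nat_lit 13) (nat_lit 74) (nat_lit 52) (nat_lit 100) (nat_lit 376) (.spl (nat_lit 0) (nat_lit 350)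
(.leaf p087_l42)
(.trX (nat_lit 13) (nat_lit 68) (nat_lit 58) (nat_lit 100) (nat_lit 368) (.trX (nat_lit 16) (nat_lit 69) (nat_lit 100) (nat_lit 96) (nat_lit 264) (.leaf p087_l43)))))
(.trX (nat_lit 19) (nat_lit 100) (nat_lit 64) (nat_lit 95) (nat_lit 360) (.spl (nat_lit 2) (nat_lit 360)
(.spl (nat_lit 1) (nat_lit 255)
(.leaf p087_l44)
(.trX (nat_lit 19) (nat_lit 100) (nat_lit 66) (nat_lit 95) (nat_lit 356) (.leaf p087_l45)))
(.trZ (nat_lit 9) (nat_lit 100) (nat_lit 61) (nat_lit 92) (nat_lit 112) (.leaf p087_l46)))))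
(.leaf p087_l47))))))))) (by decide +kernel)
noncomputable def p087_l48 : Lf2 := ⟨nat_lit 0, nat_lit 20, [nat_lit 5, nat_lit 5, nat_lit 5, nat_lit 20], false, nat_lit 160, nat_lit 300, nat_lit 16, nat_lit 352, ⟨nat_lit 1000, nat_lit 0, nat_lit 0, nat_lit 0, nat_lit 0, nat_lit 0, nat_lit 0, nat_lit 0, nat_lit 0, nat_lit 0, nat_lit 0, nat_lit 0, nat_lit 0, nat_lit 0, nat_lit 0, nat_lit 0, false, false⟩,
 nat_lit 0, nat_lit 0, nat_lit 11818, nat_lit 0, nat_lit 5387, nat_lit 6879, nat_lit 0, nat_lit 0, nat_lit 0, nat_lit 942, nat_lit 0, nat_lit 0, nat_lit 0, nat_lit 0, nat_lit 0, nat_lit 0, nat_lit 0, nat_lit 0, [],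
 ⟨p087_k3, nat_lit 0, nat_lit 0, nat_lit 78, nat_lit 0, nat_lit 0, [nat_lit 2032000001, nat_lit 4688000000, nat_lit 9842000000], [], [nat_lit 25687542940, nat_lit 26315458418, nat_lit 30636031875, nat_lit 31132697392, nat_lit 29488371070, nat_lit 29960361491, nat_lit 33268435256, nat_lit 33698829072], nat_lit 0, nat_lit 0, nat_lit 0, nat_lit 0, nat_lit 0, nat_lit 0, [], [nat_lit 27, nat_lit 40, nat_lit 40, nat_lit 80, nat_lit 13, nat_lit 289, nat_lit 75, nat_lit 7]⟩, ⟨p087_k4, nat_lit 0, nat_lit 0, nat_lit 398, nat_lit 0, nat_lit 366898, [nat_lit 4688000000, nat_lit 7968000000, nat_lit 11872000000], [], [nat_lit 33358661999, nat_lit 33924947527, nat_lit 37327088014, nat_lit 37714413400, nat_lit 32991872820, nat_lit 33317228251, nat_lit 35660643542, nat_lit 35863840078], nat_lit 1271250, nat_lit 1271250, nat_lit 1271250, nat_lit 1271250, nat_lit 88400, nat_lit 2511800, [nat_lit 1100000, nat_lit 1785000, nat_lit 1271250],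 [nat_lit 21, nat_lit 40, nat_lit 40, nat_lit 80, nat_lit 14, nat_lit 401, nat_lit 175, nat_lit 10]⟩,
 zbF0, [⟨nat_lit 4, nat_lit 100, nat_lit 84, nat_lit 93, nat_lit 398474836⟩, ⟨nat_lit 19, nat_lit 100, nat_lit 82, nat_lit 92, nat_lit 184391030⟩]⟩
noncomputable def p087_l49 : Lf2 := ⟨nat_lit 0, nat_lit 20, [nat_lit 5, nat_lit 5, nat_lit 5, nat_lit 20], false, nat_lit 160, nat_lit 288, nat_lit 16, nat_lit 352, ⟨nat_lit 1000, nat_lit 0, nat_lit 0, nat_lit 0, nat_lit 0, nat_lit 0, nat_lit 0, nat_lit 0, nat_lit 0, nat_lit 0, nat_lit 0, nat_lit 0, nat_lit 0, nat_lit 0, nat_lit 0, nat_lit 0, false, false⟩,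
 nat_lit 0, nat_lit 0, nat_lit 12345, nat_lit 0, nat_lit 5521, nat_lit 7185, nat_lit 0, nat_lit 0, nat_lit 0, nat_lit 839, nat_lit 0, nat_lit 0, nat_lit 0, nat_lit 0, nat_lit 0, nat_lit 0, nat_lit 0, nat_lit 0, [],
 ⟨p087_k5, nat_lit 0, nat_lit 0, nat_lit 79, nat_lit 0, nat_lit 0, [nat_lit 2032000001, nat_lit 4688000000, nat_lit 9842000000], [], [nat_lit 26248192294, nat_lit 26884200568, nat_lit 30860840749, nat_lit 31369986670, nat_lit 29478644911, nat_lit 29970032644, nat_lit 33253645991, nat_lit 33708047314], nat_lit 0, nat_lit 0, nat_lit 0, nat_lit 0, nat_lit 0, nat_lit 0, [], [nat_lit 27, nat_lit 40, nat_lit 40, nat_lit 80, nat_lit 13, nat_lit 289, nat_lit 75, nat_lit 7]⟩, ⟨p087_k4, nat_lit 0, nat_lit 0, nat_lit 481, nat_lit 0, nat_lit 518923, [nat_lit 4688000000, nat_lit 7968000000, nat_lit 11872000000], [], [nat_lit 35872702566, nat_lit 36248156210, nat_lit 38650028393, nat_lit 38899116674, nat_lit 34047831996,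 nat_lit 34235081584, nat_lit 35874850189, nat_lit 35971574842], nat_lit 1271250, nat_lit 1271250, nat_lit 1271250, nat_lit 1271250, nat_lit 88400, nat_lit 2511800, [nat_lit 1100000, nat_lit 1785000, nat_lit 1271250], [nat_lit 21, nat_lit 40, nat_lit 40, nat_lit 80, nat_lit 14, nat_lit 401, nat_lit 175, nat_lit 10]⟩,
 zbF0, [⟨nat_lit 4, nat_lit 100, nat_lit 77, nat_lit 91, nat_lit 463545139⟩, ⟨nat_lit 19, nat_lit 100, nat_lit 82, nat_lit 92, nat_lit 166972858⟩]⟩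
noncomputable def p087_l50 : Lf2 := ⟨nat_lit 0, nat_lit 20, [nat_lit 5, nat_lit 5, nat_lit 5, nat_lit 20], false, nat_lit 160, nat_lit 276, nat_lit 16, nat_lit 160, ⟨nat_lit 865, nat_lit 135, nat_lit 0, nat_lit 8, nat_lit 327, nat_lit 135, nat_lit 167, nat_lit 0, nat_lit 0, nat_lit 0, nat_lit 0, nat_lit 0, nat_lit 34878620, nat_lit 24010378, nat_lit 8111002, nat_lit 5170422, true, true⟩,
 nat_lit 0, nat_lit 0, nat_lit 10006, nat_lit 0, nat_lit 4038, nat_lit 5824, nat_lit 536, nat_lit 0, nat_lit 0, nat_lit 1753, nat_lit 0, nat_lit 0, nat_lit 0, nat_lit 0, nat_lit 0, nat_lit 135000, nat_lit 0, nat_lit 0, [(nat_lit 22, [(nat_lit 2, nat_lit 135)])],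
 ⟨p087_k7, nat_lit 0, nat_lit 0, nat_lit 91, nat_lit 0, nat_lit 0, [nat_lit 1945960001, nat_lit 4054364000, nat_lit 6369816000], [], [nat_lit 26141891633, nat_lit 27047514081, nat_lit 29282080697, nat_lit 30224697355, nat_lit 28370073712, nat_lit 29155674839, nat_lit 31414088097, nat_lit 32256946931], nat_lit 0, nat_lit 0, nat_lit 0, nat_lit 0, nat_lit 0, nat_lit 0, [], [nat_lit 34, nat_lit 40, nat_lit 40, nat_lit 80, nat_lit 7, nat_lit 289, nat_lit 75, nat_lit 8]⟩, ⟨p087_k4, nat_lit 0, nat_lit 0, nat_lit 597, nat_lit 0, nat_lit 846383, [nat_lit 4055120000, nat_lit 6892320000, nat_lit 10269280000], [], [nat_lit 27625310906, nat_lit 27849322298, nat_lit 29380550378, nat_lit 30292687190, nat_lit 24803099168, nat_lit 24976388420, nat_lit 26359024023, nat_lit 26562912179], nat_lit 1271250, nat_lit 1271250, nat_lit 1271250, nat_lit 1271250, nat_lit 88400, nat_lit 1100001, [nat_lit 1100000, nat_lit 1785000, nat_lit 1271250],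 [nat_lit 21, nat_lit 40, nat_lit 40, nat_lit 80, nat_lit 14, nat_lit 345, nat_lit 125, nat_lit 8]⟩,
 ⟨nat_lit 3162, nat_lit 3873, ⟨.ofNat (nat_lit 758943), .ofNat (nat_lit 868630), .ofNat (nat_lit 780717), .ofNat (nat_lit 890423), .ofNat (nat_lit 749323), .ofNat (nat_lit 852944), .ofNat (nat_lit 771459), .ofNat (nat_lit 875099)⟩, ⟨.ofNat (nat_lit 304717), .ofNat (nat_lit 491830), .ofNat (nat_lit 348304), .ofNat (nat_lit 535416), .ofNat (nat_lit 306116), .ofNat (nat_lit 482881), .ofNat (nat_lit 350426), .ofNat (nat_lit 527190)⟩⟩, [⟨nat_lit 4, nat_lit 100, nat_lit 67, nat_lit 88, nat_lit 468014142⟩]⟩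
noncomputable def p087_l51 : Lf2 := ⟨nat_lit 0, nat_lit 20, [nat_lit 5, nat_lit 5, nat_lit 5, nat_lit 20], false, nat_lit 160, nat_lit 276, nat_lit 160, nat_lit 352, ⟨nat_lit 1000, nat_lit 0, nat_lit 0, nat_lit 0, nat_lit 0, nat_lit 0, nat_lit 0, nat_lit 0, nat_lit 0, nat_lit 0, nat_lit 0, nat_lit 0, nat_lit 0, nat_lit 0, nat_lit 0, nat_lit 0, false, false⟩,
 nat_lit 0, nat_lit 0, nat_lit 11191, nat_lit 0, nat_lit 5524, nat_lit 6514, nat_lit 0, nat_lit 0, nat_lit 0, nat_lit 863, nat_lit 0, nat_lit 0, nat_lit 0, nat_lit 0, nat_lit 0, nat_lit 0, nat_lit 0, nat_lit 0, [],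
 ⟨p087_k7, nat_lit 0, nat_lit 0, nat_lit 79, nat_lit 0, nat_lit 0, [nat_lit 2032000001, nat_lit 4688000000, nat_lit 7968000000], [], [nat_lit 26882875792, nat_lit 27519065248, nat_lit 30848952362, nat_lit 31372250143, nat_lit 29561686596, nat_lit 30067539939, nat_lit 32871299411, nat_lit 33352900446], nat_lit 0, nat_lit 0, nat_lit 0, nat_lit 0, nat_lit 0, nat_lit 0, [], [nat_lit 34, nat_lit 40, nat_lit 40, nat_lit 80, nat_lit 7, nat_lit 289, nat_lit 75, nat_lit 8]⟩, ⟨p087_k4, nat_lit 0, nat_lit 0, nat_lit 392, nat_lit 0, nat_lit 598270, [nat_lit 4688000000, nat_lit 7968000000, nat_lit 11872000000], [], [nat_lit 31052987333, nat_lit 31247142301, nat_lit 33386292913, nat_lit 33528873353, nat_lit 34106324121, nat_lit 34239341008, nat_lit 36107245581, nat_lit 36222447159], nat_lit 1271250, nat_lit 1271250, nat_lit 1271250, nat_lit 1271250, nat_lit 1100001, nat_lit 2744000, [nat_lit 1100000, nat_lit 1785000, nat_lit 1271250],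 [nat_lit 21, nat_lit 40, nat_lit 40, nat_lit 80, nat_lit 14, nat_lit 401, nat_lit 175, nat_lit 9]⟩,
 zbF0, [⟨nat_lit 4, nat_lit 100, nat_lit 71, nat_lit 89, nat_lit 473449550⟩, ⟨nat_lit 19, nat_lit 100, nat_lit 80, nat_lit 92, nat_lit 328778700⟩]⟩
noncomputable def p087_l52 : Lf2 := ⟨nat_lit 0, nat_lit 20, [nat_lit 5, nat_lit 5, nat_lit 5, nat_lit 20], false, nat_lit 160, nat_lit 276, nat_lit 160, nat_lit 344, ⟨nat_lit 1000, nat_lit 0, nat_lit 0, nat_lit 0, nat_lit 0, nat_lit 0, nat_lit 0, nat_lit 0, nat_lit 0, nat_lit 0, nat_lit 0, nat_lit 0, nat_lit 0, nat_lit 0, nat_lit 0, nat_lit 0, false, false⟩,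
 nat_lit 0, nat_lit 0, nat_lit 10992, nat_lit 0, nat_lit 5492, nat_lit 6694, nat_lit 0, nat_lit 0, nat_lit 0, nat_lit 821, nat_lit 0, nat_lit 0, nat_lit 0, nat_lit 0, nat_lit 0, nat_lit 0, nat_lit 0, nat_lit 0, [],
 ⟨p087_k7, nat_lit 0, nat_lit 0, nat_lit 80, nat_lit 0, nat_lit 0, [nat_lit 2032000001, nat_lit 4688000000, nat_lit 7968000000], [], [nat_lit 26897006736, nat_lit 27531263584, nat_lit 31110819646, nat_lit 31625732305, nat_lit 29576156135, nat_lit 30080670187, nat_lit 33078601925, nat_lit 33552328530], nat_lit 0, nat_lit 0, nat_lit 0, nat_lit 0, nat_lit 0, nat_lit 0, [], [nat_lit 34, nat_lit 40, nat_lit 40, nat_lit 80, nat_lit 7, nat_lit 289, nat_lit 75, nat_lit 8]⟩, ⟨p087_k12, nat_lit 0, nat_lit 0, nat_lit 404, nat_lit 0, nat_lit 634927, [nat_lit 4688000000, nat_lit 7968000000, nat_lit 11872000000], [], [nat_lit 30539841888, nat_lit 30694857690, nat_lit 32602259450, nat_lit 32710220703, nat_lit 32597382064,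 nat_lit 32704090628, nat_lit 34571290307, nat_lit 34686862874], nat_lit 1271250, nat_lit 1271250, nat_lit 1271250, nat_lit 1271250, nat_lit 1100001, nat_lit 2675500, [nat_lit 1100000, nat_lit 1785000, nat_lit 1271250], [nat_lit 21, nat_lit 40, nat_lit 40, nat_lit 80, nat_lit 14, nat_lit 401, nat_lit 175, nat_lit 9]⟩,
 zbF0, [⟨nat_lit 4, nat_lit 100, nat_lit 71, nat_lit 89, nat_lit 474847255⟩, ⟨nat_lit 19, nat_lit 100, nat_lit 85, nat_lit 93, nat_lit 305547192⟩]⟩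
noncomputable def p087_l53 : Lf2 := ⟨nat_lit 0, nat_lit 20, [nat_lit 5, nat_lit 5, nat_lit 5, nat_lit 20], false, nat_lit 160, nat_lit 240, nat_lit 160, nat_lit 336, ⟨nat_lit 176, nat_lit 824, nat_lit 0, nat_lit 8, nat_lit 321, nat_lit 824, nat_lit 151, nat_lit 0, nat_lit 0, nat_lit 0, nat_lit 0, nat_lit 0, nat_lit 36000963, nat_lit 23882442, nat_lit 7116595, nat_lit 5029826, true, true⟩,
 nat_lit 0, nat_lit 0, nat_lit 2284, nat_lit 0, nat_lit 3739, nat_lit 1329, nat_lit 0, nat_lit 0, nat_lit 0, nat_lit 141, nat_lit 0, nat_lit 0, nat_lit 0, nat_lit 0, nat_lit 0, nat_lit 206000, nat_lit 0, nat_lit 0, [(nat_lit 22, [(nat_lit 0, nat_lit 824)])],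
 ⟨p087_k9, nat_lit 0, nat_lit 0, nat_lit 80, nat_lit 0, nat_lit 0, [nat_lit 1649664001, nat_lit 2449027200, nat_lit 3637385600], [], [nat_lit 25960530878, nat_lit 26488917044, nat_lit 28967015791, nat_lit 29417136496, nat_lit 27477002989, nat_lit 27940177508, nat_lit 30125032214, nat_lit 30521710196], nat_lit 0, nat_lit 0, nat_lit 0, nat_lit 0, nat_lit 0, nat_lit 0, [], [nat_lit 34, nat_lit 40, nat_lit 40, nat_lit 80, nat_lit 7, nat_lit 272, nat_lit 60, nat_lit 7]⟩, ⟨p087_k4, nat_lit 0, nat_lit 0, nat_lit 466, nat_lit 0, nat_lit 750547, [nat_lit 825088000, nat_lit 1402368000, nat_lit 2089472000], [], [nat_lit 5449256193, nat_lit 5475513796, nat_lit 5795529916, nat_lit 5813388877, nat_lit 5744867974, nat_lit 5762516182, nat_lit 6024503397, nat_lit 6043096242], nat_lit 1271250, nat_lit 1271250, nat_lit 1271250, nat_lit 1271250, nat_lit 1100001, nat_lit 2607000, [nat_lit 1100000, nat_lit 1785000, nat_lit 1271250], [nat_lit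 21, nat_lit 40, nat_lit 40, nat_lit 80, nat_lit 14, nat_lit 401, nat_lit 175, nat_lit 9]⟩,
 ⟨nat_lit 3162, nat_lit 3536, ⟨.ofNat (nat_lit 754141), .ofNat (nat_lit 848283), .ofNat (nat_lit 765117), .ofNat (nat_lit 859259), .ofNat (nat_lit 749323), .ofNat (nat_lit 840753), .ofNat (nat_lit 760401), .ofNat (nat_lit 851831)⟩, ⟨.ofNat (nat_lit 305521), .ofNat (nat_lit 431044), .ofNat (nat_lit 327474), .ofNat (nat_lit 452997), .ofNat (nat_lit 306116), .ofNat (nat_lit 428022), .ofNat (nat_lit 328271), .ofNat (nat_lit 450177)⟩⟩, [⟨nat_lit 13, nat_lit 67, nat_lit 56, nat_lit 100, nat_lit 225876737⟩, ⟨nat_lit 4, nat_lit 100, nat_lit 64, nat_lit 84, nat_lit 212070629⟩, ⟨nat_lit 19, nat_lit 100, nat_lit 77, nat_lit 91, nat_lit 51076129⟩]⟩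
noncomputable def p087_l54 : Lf2 := ⟨nat_lit 0, nat_lit 20, [nat_lit 5, nat_lit 5, nat_lit 5, nat_lit 20], false, nat_lit 160, nat_lit 264, nat_lit 160, nat_lit 352, ⟨nat_lit 1000, nat_lit 0, nat_lit 0, nat_lit 0, nat_lit 0, nat_lit 0, nat_lit 0, nat_lit 0, nat_lit 0, nat_lit 0, nat_lit 0, nat_lit 0, nat_lit 0, nat_lit 0, nat_lit 0, nat_lit 0, false, false⟩,
 nat_lit 0, nat_lit 0, nat_lit 11453, nat_lit 0, nat_lit 5473, nat_lit 6666, nat_lit 0, nat_lit 0, nat_lit 0, nat_lit 833, nat_lit 0, nat_lit 0, nat_lit 0, nat_lit 0, nat_lit 0, nat_lit 0, nat_lit 0, nat_lit 0, [],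
 ⟨p087_k9, nat_lit 0, nat_lit 0, nat_lit 77, nat_lit 0, nat_lit 0, [nat_lit 2032000001, nat_lit 4688000000, nat_lit 7968000000], [], [nat_lit 27538506346, nat_lit 27855061027, nat_lit 30869029203, nat_lit 31136519530, nat_lit 29696660456, nat_lit 29955640561, nat_lit 32457824249, nat_lit 32711536705], nat_lit 0, nat_lit 0, nat_lit 0, nat_lit 0, nat_lit 0, nat_lit 0, [], [nat_lit 34, nat_lit 40, nat_lit 40, nat_lit 80, nat_lit 7, nat_lit 289, nat_lit 75, nat_lit 8]⟩, ⟨p087_k4, nat_lit 0, nat_lit 0, nat_lit 337, nat_lit 0, nat_lit 453304, [nat_lit 4688000000, nat_lit 7968000000, nat_lit 11872000000], [], [nat_lit 30920741627, nat_lit 31017683223, nat_lit 32961303404, nat_lit 33052389163, nat_lit 33771674443, nat_lit 33830578890, nat_lit 35642906451, nat_lit 35702797083], nat_lit 1271250, nat_lit 1271250, nat_lit 1271250, nat_lit 1271250, nat_lit 1100001, nat_lit 2744000, [nat_lit 1100000, nat_lit 1785000, nat_lit 1271250],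 [nat_lit 21, nat_lit 40, nat_lit 40, nat_lit 80, nat_lit 14, nat_lit 401, nat_lit 175, nat_lit 9]⟩,
 zbF0, [⟨nat_lit 4, nat_lit 100, nat_lit 67, nat_lit 92, nat_lit 464931227⟩, ⟨nat_lit 19, nat_lit 100, nat_lit 74, nat_lit 94, nat_lit 320532074⟩]⟩
noncomputable def p087_l55 : Lf2 := ⟨nat_lit 0, nat_lit 20, [nat_lit 5, nat_lit 5, nat_lit 5, nat_lit 20], false, nat_lit 160, nat_lit 256, nat_lit 160, nat_lit 352, ⟨nat_lit 515, nat_lit 485, nat_lit 0, nat_lit 8, nat_lit 317, nat_lit 485, nat_lit 165, nat_lit 0, nat_lit 0, nat_lit 0, nat_lit 0, nat_lit 0, nat_lit 35717176, nat_lit 23195582, nat_lit 8087242, nat_lit 5141042, true, true⟩,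
 nat_lit 0, nat_lit 0, nat_lit 5899, nat_lit 0, nat_lit 4445, nat_lit 3433, nat_lit 0, nat_lit 0, nat_lit 0, nat_lit 429, nat_lit 0, nat_lit 0, nat_lit 0, nat_lit 0, nat_lit 0, nat_lit 121250, nat_lit 0, nat_lit 0, [(nat_lit 22, [(nat_lit 0, nat_lit 485)])],
 ⟨p087_k10, nat_lit 0, nat_lit 0, nat_lit 77, nat_lit 0, nat_lit 0, [nat_lit 1806960001, nat_lit 3370158000, nat_lit 5419034000], [], [nat_lit 26898048055, nat_lit 27183560220, nat_lit 29646086329, nat_lit 29892911888, nat_lit 28809991282, nat_lit 29050444793, nat_lit 31136621813, nat_lit 31345390782], nat_lit 0, nat_lit 0, nat_lit 0, nat_lit 0, nat_lit 0, nat_lit 0, [], [nat_lit 34, nat_lit 40, nat_lit 40, nat_lit 80, nat_lit 7, nat_lit 289, nat_lit 75, nat_lit 8]⟩, ⟨p087_k4, nat_lit 0, nat_lit 0, nat_lit 368, nat_lit 0, nat_lit 537921, [nat_lit 2414320000, nat_lit 4103520000, nat_lit 6114080000], [], [nat_lit 15924105571, nat_lit 15974030484, nat_lit 16891786445,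 nat_lit 16930751607, nat_lit 17392344949, nat_lit 17422702599, nat_lit 18279409918, nat_lit 18311081343], nat_lit 1271250, nat_lit 1271250, nat_lit 1271250, nat_lit 1271250, nat_lit 1100001, nat_lit 2744000, [nat_lit 1100000, nat_lit 1785000, nat_lit 1271250], [nat_lit 21, nat_lit 40, nat_lit 40, nat_lit 80, nat_lit 14, nat_lit 401, nat_lit 175, nat_lit 9]⟩,
 ⟨nat_lit 3162, nat_lit 3355, ⟨.ofNat (nat_lit 751737), .ofNat (nat_lit 832161), .ofNat (nat_lit 757249), .ofNat (nat_lit 837673), .ofNat (nat_lit 749323), .ofNat (nat_lit 828563), .ofNat (nat_lit 754862), .ofNat (nat_lit 834101)⟩, ⟨.ofNat (nat_lit 327896), .ofNat (nat_lit 476372), .ofNat (nat_lit 349943), .ofNat (nat_lit 498420), .ofNat (nat_lit 328271), .ofNat (nat_lit 474559), .ofNat (nat_lit 350426), .ofNat (nat_lit 496714)⟩⟩, [⟨nat_lit 13, nat_lit 63, nat_lit 61, nat_lit 100, nat_lit 136417857⟩, ⟨nat_lit 4, nat_lit 100, nat_lit 63, nat_lit 91, nat_lit 321041833⟩,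 ⟨nat_lit 7, nat_lit 74, nat_lit 100, nat_lit 94, nat_lit 165534899⟩]⟩
noncomputable def p087_l56 : Lf2 := ⟨nat_lit 0, nat_lit 20, [nat_lit 5, nat_lit 5, nat_lit 5, nat_lit 20], false, nat_lit 160, nat_lit 264, nat_lit 160, nat_lit 348, ⟨nat_lit 854, nat_lit 146, nat_lit 0, nat_lit 8, nat_lit 323, nat_lit 146, nat_lit 168, nat_lit 0, nat_lit 0, nat_lit 0, nat_lit 0, nat_lit 0, nat_lit 35213595, nat_lit 23587943, nat_lit 8198462, nat_lit 5168683, true, true⟩,
 nat_lit 0, nat_lit 0, nat_lit 9146, nat_lit 0, nat_lit 5081, nat_lit 5446, nat_lit 0, nat_lit 0, nat_lit 0, nat_lit 1088, nat_lit 0, nat_lit 0, nat_lit 0, nat_lit 0, nat_lit 0, nat_lit 36500, nat_lit 0, nat_lit 0, [(nat_lit 22, [(nat_lit 0, nat_lit 146)])],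
 ⟨p087_k9, nat_lit 0, nat_lit 0, nat_lit 80, nat_lit 0, nat_lit 0, [nat_lit 1964256000, nat_lit 4291288800, nat_lit 7200682400], [], [nat_lit 27291224762, nat_lit 27900659676, nat_lit 30743706600, nat_lit 31254115984, nat_lit 29467684684, nat_lit 29968432605, nat_lit 32322720540, nat_lit 32743859402], nat_lit 0, nat_lit 0, nat_lit 0, nat_lit 0, nat_lit 0, nat_lit 0, [], [nat_lit 34, nat_lit 40, nat_lit 40, nat_lit 80, nat_lit 7, nat_lit 289, nat_lit 75, nat_lit 8]⟩, ⟨p087_k26, nat_lit 0, nat_lit 0, nat_lit 374, nat_lit 0, nat_lit 553577, [nat_lit 4003552000, nat_lit 6804672000, nat_lit 10138688000], [], [nat_lit 24425710180, nat_lit 24534197328, nat_lit 26621055287, nat_lit 26705434039, nat_lit 27332809561, nat_lit 27391326676, nat_lit 28787480269, nat_lit 28829310259], nat_lit 1271250, nat_lit 1271250, nat_lit 1271250, nat_lit 1271250, nat_lit 1100001, nat_lit 2709750, [nat_lit 1100000, nat_lit 1785000, nat_lit 1271250],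 [nat_lit 21, nat_lit 40, nat_lit 40, nat_lit 80, nat_lit 14, nat_lit 401, nat_lit 175, nat_lit 9]⟩,
 ⟨nat_lit 3162, nat_lit 3536, ⟨.ofNat (nat_lit 759629), .ofNat (nat_lit 853771), .ofNat (nat_lit 765117), .ofNat (nat_lit 859259), .ofNat (nat_lit 754862), .ofNat (nat_lit 846292), .ofNat (nat_lit 760401), .ofNat (nat_lit 851831)⟩, ⟨.ofNat (nat_lit 327474), .ofNat (nat_lit 490654), .ofNat (nat_lit 349427), .ofNat (nat_lit 512606), .ofNat (nat_lit 328271), .ofNat (nat_lit 486749), .ofNat (nat_lit 350426), .ofNat (nat_lit 508904)⟩⟩, [⟨nat_lit 4, nat_lit 100, nat_lit 65, nat_lit 91, nat_lit 426199807⟩, ⟨nat_lit 7, nat_lit 77, nat_lit 100, nat_lit 95, nat_lit 267431310⟩]⟩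
noncomputable def p087_l57 : Lf2 := ⟨nat_lit 0, nat_lit 20, [nat_lit 5, nat_lit 5, nat_lit 5, nat_lit 20], false, nat_lit 160, nat_lit 264, nat_lit 160, nat_lit 344, ⟨nat_lit 811, nat_lit 189, nat_lit 0, nat_lit 8, nat_lit 328, nat_lit 189, nat_lit 163, nat_lit 0, nat_lit 0, nat_lit 0, nat_lit 0, nat_lit 0, nat_lit 35018894, nat_lit 24135561, nat_lit 7845545, nat_lit 5139169, true, true⟩,
 nat_lit 0, nat_lit 0, nat_lit 8233, nat_lit 0, nat_lit 4994, nat_lit 5013, nat_lit 0, nat_lit 0, nat_lit 0, nat_lit 1065, nat_lit 0, nat_lit 0, nat_lit 0, nat_lit 0, nat_lit 0, nat_lit 47250, nat_lit 0, nat_lit 0, [(nat_lit 22, [(nat_lit 0, nat_lit 189)])],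
 ⟨p087_k9, nat_lit 0, nat_lit 0, nat_lit 80, nat_lit 0, nat_lit 0, [nat_lit 1944304000, nat_lit 4174449200, nat_lit 6974691600], [], [nat_lit 27207549388, nat_lit 27509639706, nat_lit 30871685615, nat_lit 31121701217, nat_lit 29388072079, nat_lit 29636536003, nat_lit 32422726550, nat_lit 32629757419], nat_lit 0, nat_lit 0, nat_lit 0, nat_lit 0, nat_lit 0, nat_lit 0, [], [nat_lit 34, nat_lit 40, nat_lit 40, nat_lit 80, nat_lit 7, nat_lit 289, nat_lit 75, nat_lit 8]⟩, ⟨p087_k12, nat_lit 0, nat_lit 0, nat_lit 432, nat_lit 0, nat_lit 712427, [nat_lit 3801968000, nat_lit 6462048000, nat_lit 9628192000], [], [nat_lit 24428972997, nat_lit 24566042104, nat_lit 26017016321, nat_lit 26119384223, nat_lit 26086032376, nat_lit 26159033732, nat_lit 27348846536, nat_lit 27444606785], nat_lit 1271250, nat_lit 1271250, nat_lit 1271250, nat_lit 1271250, nat_lit 1100001, nat_lit 2675500, [nat_lit 1100000, nat_lit 1785000, nat_lit 1271250],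 [nat_lit 21, nat_lit 40, nat_lit 40, nat_lit 80, nat_lit 14, nat_lit 401, nat_lit 175, nat_lit 9]⟩,
 ⟨nat_lit 3354, nat_lit 3536, ⟨.ofNat (nat_lit 765117), .ofNat (nat_lit 865535), .ofNat (nat_lit 776093), .ofNat (nat_lit 876512), .ofNat (nat_lit 762760), .ofNat (nat_lit 861745), .ofNat (nat_lit 773784), .ofNat (nat_lit 872768)⟩, ⟨.ofNat (nat_lit 305521), .ofNat (nat_lit 468701), .ofNat (nat_lit 349427), .ofNat (nat_lit 512606), .ofNat (nat_lit 305848), .ofNat (nat_lit 466697), .ofNat (nat_lit 349943), .ofNat (nat_lit 510793)⟩⟩, [⟨nat_lit 4, nat_lit 100, nat_lit 66, nat_lit 88, nat_lit 419388776⟩, ⟨nat_lit 7, nat_lit 85, nat_lit 100, nat_lit 93, nat_lit 239208674⟩]⟩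
noncomputable def p087_l58 : Lf2 := ⟨nat_lit 0, nat_lit 20, [nat_lit 5, nat_lit 5, nat_lit 5, nat_lit 20], false, nat_lit 160, nat_lit 256, nat_lit 160, nat_lit 344, ⟨nat_lit 514, nat_lit 486, nat_lit 0, nat_lit 8, nat_lit 326, nat_lit 486, nat_lit 161, nat_lit 0, nat_lit 0, nat_lit 0, nat_lit 0, nat_lit 0, nat_lit 35297468, nat_lit 24012129, nat_lit 7690403, nat_lit 5114522, true, true⟩,
 nat_lit 0, nat_lit 0, nat_lit 5254, nat_lit 0, nat_lit 3881, nat_lit 3199, nat_lit 159, nat_lit 0, nat_lit 0, nat_lit 660, nat_lit 0, nat_lit 0, nat_lit 0, nat_lit 0, nat_lit 0, nat_lit 121500, nat_lit 0, nat_lit 0, [(nat_lit 22, [(nat_lit 0, nat_lit 486)])],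
 ⟨p087_k10, nat_lit 0, nat_lit 0, nat_lit 80, nat_lit 0, nat_lit 0, [nat_lit 1806496001, nat_lit 3367440800, nat_lit 5413778400], [], [nat_lit 26416986998, nat_lit 26569451982, nat_lit 29411613067, nat_lit 29548563063, nat_lit 28347319405, nat_lit 28483930204, nat_lit 30919147036, nat_lit 31035956431], nat_lit 0, nat_lit 0, nat_lit 0, nat_lit 0, nat_lit 0, nat_lit 0, [], [nat_lit 34, nat_lit 40, nat_lit 40, nat_lit 80, nat_lit 7, nat_lit 289, nat_lit 75, nat_lit 8]⟩, ⟨p087_k12, nat_lit 0, nat_lit 0, nat_lit 473, nat_lit 0, nat_lit 759816, [nat_lit 2409632000, nat_lit 4095552000, nat_lit 6102208000], [], [nat_lit 15509579219, nat_lit 15596362784, nat_lit 16450317868, nat_lit 16516388244, nat_lit 16555238215, nat_lit 16599193976, nat_lit 17242446332, nat_lit 17287638407], nat_lit 1271250, nat_lit 1271250, nat_lit 1271250, nat_lit 1271250, nat_lit 1100001, nat_lit 2675500, [nat_lit 1100000, nat_lit 1785000, nat_lit 1271250],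 [nat_lit 21, nat_lit 40, nat_lit 40, nat_lit 80, nat_lit 14, nat_lit 401, nat_lit 175, nat_lit 9]⟩,
 ⟨nat_lit 3240, nat_lit 3355, ⟨.ofNat (nat_lit 762760), .ofNat (nat_lit 855558), .ofNat (nat_lit 773784), .ofNat (nat_lit 866582), .ofNat (nat_lit 761345), .ofNat (nat_lit 853326), .ofNat (nat_lit 772400), .ofNat (nat_lit 864381)⟩, ⟨.ofNat (nat_lit 305848), .ofNat (nat_lit 454324), .ofNat (nat_lit 349943), .ofNat (nat_lit 498420), .ofNat (nat_lit 306016), .ofNat (nat_lit 453185), .ofNat (nat_lit 350237), .ofNat (nat_lit 497406)⟩⟩, [⟨nat_lit 13, nat_lit 67, nat_lit 53, nat_lit 100, nat_lit 77425344⟩, ⟨nat_lit 4, nat_lit 100, nat_lit 63, nat_lit 88, nat_lit 334314337⟩, ⟨nat_lit 7, nat_lit 85, nat_lit 100, nat_lit 93, nat_lit 149773225⟩]⟩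
noncomputable def p087_l59 : Lf2 := ⟨nat_lit 0, nat_lit 20, [nat_lit 5, nat_lit 5, nat_lit 5, nat_lit 20], false, nat_lit 160, nat_lit 252, nat_lit 160, nat_lit 344, ⟨nat_lit 505, nat_lit 495, nat_lit 0, nat_lit 8, nat_lit 324, nat_lit 495, nat_lit 159, nat_lit 0, nat_lit 0, nat_lit 0, nat_lit 0, nat_lit 0, nat_lit 35492066, nat_lit 23887511, nat_lit 7620423, nat_lit 5101072, true, true⟩,
 nat_lit 0, nat_lit 0, nat_lit 5186, nat_lit 0, nat_lit 3703, nat_lit 3158, nat_lit 197, nat_lit 0, nat_lit 0, nat_lit 651, nat_lit 0, nat_lit 0, nat_lit 0, nat_lit 0, nat_lit 0, nat_lit 123750, nat_lit 0, nat_lit 0, [(nat_lit 22, [(nat_lit 0, nat_lit 495)])],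
 ⟨p087_k27, nat_lit 0, nat_lit 0, nat_lit 79, nat_lit 0, nat_lit 0, [nat_lit 1802320000, nat_lit 3342986000, nat_lit 5366478000], [], [nat_lit 26495447423, nat_lit 26595102414, nat_lit 29086186503, nat_lit 29172742884, nat_lit 28274332568, nat_lit 28359958460, nat_lit 30525268697, nat_lit 30606088390], nat_lit 0, nat_lit 0, nat_lit 0, nat_lit 0, nat_lit 0, nat_lit 0, [], [nat_lit 34, nat_lit 40, nat_lit 40, nat_lit 80, nat_lit 7, nat_lit 289, nat_lit 75, nat_lit 8]⟩, ⟨p087_k12, nat_lit 0, nat_lit 0, nat_lit 490, nat_lit 0, nat_lit 791597, [nat_lit 2367440000, nat_lit 4023840000, nat_lit 5995360000], [], [nat_lit 15160519834, nat_lit 15245722752, nat_lit 16019339475, nat_lit 16085495053, nat_lit 16184733210, nat_lit 16227705231, nat_lit 16817137702, nat_lit 16872528017], nat_lit 1271250, nat_lit 1271250, nat_lit 1271250, nat_lit 1271250, nat_lit 1100001, nat_lit 2675500, [nat_lit 1100000, nat_lit 1785000, nat_lit 1271250],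 [nat_lit 21, nat_lit 40, nat_lit 40, nat_lit 80, nat_lit 14, nat_lit 401, nat_lit 175, nat_lit 9]⟩,
 ⟨nat_lit 3162, nat_lit 3241, ⟨.ofNat (nat_lit 761345), .ofNat (nat_lit 847194), .ofNat (nat_lit 772401), .ofNat (nat_lit 858249), .ofNat (nat_lit 760401), .ofNat (nat_lit 845735), .ofNat (nat_lit 771478), .ofNat (nat_lit 856813)⟩, ⟨.ofNat (nat_lit 306016), .ofNat (nat_lit 447053), .ofNat (nat_lit 350237), .ofNat (nat_lit 491273), .ofNat (nat_lit 306116), .ofNat (nat_lit 446308), .ofNat (nat_lit 350426), .ofNat (nat_lit 490618)⟩⟩, [⟨nat_lit 13, nat_lit 65, nat_lit 55, nat_lit 100, nat_lit 65692716⟩, ⟨nat_lit 4, nat_lit 100, nat_lit 61, nat_lit 87, nat_lit 346341733⟩, ⟨nat_lit 19, nat_lit 100, nat_lit 85, nat_lit 93, nat_lit 147737672⟩]⟩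
noncomputable def b_V_800_600_20_35 : St := ⟨true, nat_lit 0, nat_lit 1, nat_lit 1, nat_lit 120, nat_lit 320, nat_lit 360, nat_lit 260, nat_lit 280, nat_lit 320, nat_lit 396, nat_lit 80, nat_lit 120, nat_lit 160, nat_lit 300, nat_lit 16, nat_lit 364, nat_lit 40, nat_lit 80, nat_lit 0, nat_lit 0, nat_lit 0, nat_lit 0⟩
theorem d_V_800_600_20_35 (h : EB TB.env) : Dead b_V_800_600_20_35 := chkB_sound0 h (T :=
(.trX (nat_lit 19) (nat_lit 100) (nat_lit 69) (nat_lit 96) (nat_lit 352) (.spl (nat_lit 0) (nat_lit 340)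
(.spl (nat_lit 0) (nat_lit 330)
(.leaf p087_l48)
(.trX (nat_lit 13) (nat_lit 83) (nat_lit 32) (nat_lit 100) (nat_lit 392) (.trX (nat_lit 16) (nat_lit 83) (nat_lit 98) (nat_lit 100) (nat_lit 288) (.leaf p087_l49))))
(.trX (nat_lit 13) (nat_lit 78) (nat_lit 39) (nat_lit 100) (nat_lit 388) (.trX (nat_lit 16) (nat_lit 77) (nat_lit 100) (nat_lit 99) (nat_lit 276) (.spl (nat_lit 5) (nat_lit 160)
(.leaf p087_l50)
(.spl (nat_lit 0) (nat_lit 350)
(.spl (nat_lit 1) (nat_lit 270)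
(.trX (nat_lit 13) (nat_lit 76) (nat_lit 43) (nat_lit 100) (nat_lit 384) (.leaf p087_l51))
(.trX (nat_lit 19) (nat_lit 100) (nat_lit 74) (nat_lit 98) (nat_lit 344) (.leaf p087_l52)))
(.trX (nat_lit 13) (nat_lit 72) (nat_lit 46) (nat_lit 100) (nat_lit 384) (.trX (nat_lit 16) (nat_lit 69) (nat_lit 100) (nat_lit 96) (nat_lit 264) (.spl (nat_lit 1) (nat_lit 270)
(.trX (nat_lit 13) (nat_lit 71) (nat_lit 50) (nat_lit 100) (nat_lit 380) (.spl (nat_lit 3) (nat_lit 100)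
(.trX (nat_lit 16) (nat_lit 67) (nat_lit 100) (nat_lit 88) (nat_lit 240) (.trX (nat_lit 19) (nat_lit 100) (nat_lit 77) (nat_lit 91) (nat_lit 336) (.leaf p087_l53)))
(.spl (nat_lit 1) (nat_lit 265)
(.trX (nat_lit 13) (nat_lit 70) (nat_lit 52) (nat_lit 100) (nat_lit 376) (.spl (nat_lit 0) (nat_lit 355)
(.leaf p087_l54)
(.trX (nat_lit 13) (nat_lit 67) (nat_lit 56) (nat_lit 100) (nat_lit 372) (.trX (nat_lit 16) (nat_lit 66) (nat_lit 100) (nat_lit 95) (nat_lit 256) (.leaf p087_l55)))))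
(.trX (nat_lit 19) (nat_lit 100) (nat_lit 71) (nat_lit 97) (nat_lit 348) (.leaf p087_l56)))))
(.trX (nat_lit 19) (nat_lit 100) (nat_lit 74) (nat_lit 98) (nat_lit 344) (.spl (nat_lit 0) (nat_lit 355)
(.leaf p087_l57)
(.trX (nat_lit 13) (nat_lit 69) (nat_lit 50) (nat_lit 100) (nat_lit 380) (.trX (nat_lit 16) (nat_lit 66) (nat_lit 100) (nat_lit 95) (nat_lit 256) (.spl (nat_lit 0) (nat_lit 358)
(.leaf p087_l58)
(.trX (nat_lit 13) (nat_lit 67) (nat_lit 52) (nat_lit 100) (nat_lit 376) (.trX (nat_lit 16) (nat_lit 63) (nat_lit 100) (nat_lit 95) (nat_lit 252) (.leaf p087_l59)))))))))))))))))) (by decide +kernel)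
noncomputable def p087_l60 : Lf2 := ⟨nat_lit 0, nat_lit 20, [nat_lit 5, nat_lit 5, nat_lit 5, nat_lit 20], true, nat_lit 0, nat_lit 300, nat_lit 0, nat_lit 364, ⟨nat_lit 0, nat_lit 1000, nat_lit 0, nat_lit 6, nat_lit 195, nat_lit 1000, nat_lit 110, nat_lit 0, nat_lit 0, nat_lit 0, nat_lit 0, nat_lit 0, nat_lit 0, nat_lit 0, nat_lit 0, nat_lit 5000000, false, false⟩,
 nat_lit 0, nat_lit 0, nat_lit 0, nat_lit 5074, nat_lit 6399, nat_lit 0, nat_lit 0, nat_lit 0, nat_lit 0, nat_lit 0, nat_lit 0, nat_lit 0, nat_lit 0, nat_lit 0, nat_lit 0, nat_lit 250000, nat_lit 0, nat_lit 0, [(nat_lit 19, [(nat_lit 0, nat_lit 1000)]), (nat_lit 22, [(nat_lit 0, nat_lit 1000)])],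
 ⟨p087_k16, nat_lit 0, nat_lit 0, nat_lit 282, nat_lit 0, nat_lit 0, [nat_lit 1642800000, nat_lit 3238355556], [], [nat_lit 29197404121, nat_lit 31909648260, nat_lit 29228753600, nat_lit 31283849456, nat_lit 28011492229, nat_lit 29717698678, nat_lit 26933261935, nat_lit 28812663010], nat_lit 0, nat_lit 0, nat_lit 0, nat_lit 0, nat_lit 0, nat_lit 0, [], [nat_lit 94, nat_lit 40, nat_lit 40, nat_lit 80, nat_lit 95, nat_lit 373, nat_lit 150, nat_lit 11]⟩, C1.Rw.none,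
 ⟨nat_lit 3162, nat_lit 4473, ⟨.ofNat (nat_lit 311562), .ofNat (nat_lit 611007), .ofNat (nat_lit 354514), .ofNat (nat_lit 653959), .ofNat (nat_lit 336623), .ofNat (nat_lit 605159), .ofNat (nat_lit 380752), .ofNat (nat_lit 649288)⟩, ⟨.ofNat (nat_lit 0), .ofNat (nat_lit 540545), .ofNat (nat_lit 0), .ofNat (nat_lit 583678), .ofNat (nat_lit 0), .ofNat (nat_lit 519453), .ofNat (nat_lit 0), .ofNat (nat_lit 563762)⟩⟩, [⟨nat_lit 4, nat_lit 100, nat_lit 74, nat_lit 90, nat_lit 27513517⟩]⟩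
noncomputable def p087_l61 : Lf2 := ⟨nat_lit 0, nat_lit 20, [nat_lit 5, nat_lit 5, nat_lit 5, nat_lit 20], false, nat_lit 0, nat_lit 160, nat_lit 0, nat_lit 364, ⟨nat_lit 560, nat_lit 440, nat_lit 0, nat_lit 6, nat_lit 302, nat_lit 440, nat_lit 65, nat_lit 0, nat_lit 0, nat_lit 0, nat_lit 0, nat_lit 0, nat_lit 0, nat_lit 0, nat_lit 0, nat_lit 5000000, true, true⟩,
 nat_lit 0, nat_lit 0, nat_lit 0, nat_lit 8317, nat_lit 5679, nat_lit 4234, nat_lit 189, nat_lit 0, nat_lit 0, nat_lit 470, nat_lit 0, nat_lit 0, nat_lit 0, nat_lit 0, nat_lit 0, nat_lit 176000, nat_lit 0, nat_lit 0, [(nat_lit 19, [(nat_lit 1, nat_lit 440)]), (nat_lit 22, [(nat_lit 1, nat_lit 440)])],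
 ⟨p087_k3, nat_lit 0, nat_lit 0, nat_lit 214, nat_lit 0, nat_lit 0, [nat_lit 1753098667, nat_lit 3521824000, nat_lit 6317600000], [], [nat_lit 28683264337, nat_lit 31588636885, nat_lit 37252491715, nat_lit 39464700030, nat_lit 25285039813, nat_lit 27373613577, nat_lit 32255103663, nat_lit 33863853990], nat_lit 0, nat_lit 0, nat_lit 0, nat_lit 0, nat_lit 0, nat_lit 0, [], [nat_lit 27, nat_lit 40, nat_lit 40, nat_lit 80, nat_lit 13, nat_lit 373, nat_lit 150, nat_lit 10]⟩, ⟨p087_k8, nat_lit 0, nat_lit 0, nat_lit 278, nat_lit 0, nat_lit 0, [nat_lit 2625280000, nat_lit 4462080000, nat_lit 7872480000], [], [nat_lit 18051855704, nat_lit 19105752240, nat_lit 23394252989, nat_lit 23900107535, nat_lit 18232292870, nat_lit 18651332750, nat_lit 20795948723, nat_lit 20928988002], nat_lit 0, nat_lit 0, nat_lit 0, nat_lit 0, nat_lit 0, nat_lit 0, [], [nat_lit 37, nat_lit 40, nat_lit 40, nat_lit 80, nat_lit 28, nat_lit 538, nat_lit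 300, nat_lit 12]⟩,
 ⟨nat_lit 3162, nat_lit 4473, ⟨.ofNat (nat_lit 611007), .ofNat (nat_lit 876224), .ofNat (nat_lit 653959), .ofNat (nat_lit 919290), .ofNat (nat_lit 605159), .ofNat (nat_lit 842980), .ofNat (nat_lit 649288), .ofNat (nat_lit 887222)⟩, ⟨.ofNat (nat_lit 0), .ofNat (nat_lit 302621), .ofNat (nat_lit 0), .ofNat (nat_lit 345754), .ofNat (nat_lit 0), .ofNat (nat_lit 306116), .ofNat (nat_lit 0), .ofNat (nat_lit 350426)⟩⟩, [⟨nat_lit 22, nat_lit 84, nat_lit 100, nat_lit 84, nat_lit 97833263⟩]⟩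
noncomputable def p087_l62 : Lf2 := ⟨nat_lit 0, nat_lit 20, [nat_lit 5, nat_lit 5, nat_lit 5, nat_lit 20], false, nat_lit 160, nat_lit 300, nat_lit 0, nat_lit 364, ⟨nat_lit 773, nat_lit 227, nat_lit 0, nat_lit 6, nat_lit 302, nat_lit 227, nat_lit 176, nat_lit 0, nat_lit 0, nat_lit 0, nat_lit 0, nat_lit 0, nat_lit 0, nat_lit 0, nat_lit 0, nat_lit 5000000, true, true⟩,
 nat_lit 0, nat_lit 0, nat_lit 0, nat_lit 10198, nat_lit 6010, nat_lit 6964, nat_lit 0, nat_lit 0, nat_lit 0, nat_lit 409, nat_lit 0, nat_lit 0, nat_lit 0, nat_lit 0, nat_lit 0, nat_lit 56750, nat_lit 0, nat_lit 0, [(nat_lit 19, [(nat_lit 0, nat_lit 227)]), (nat_lit 22, [(nat_lit 0, nat_lit 227)])],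
 ⟨p087_k28, nat_lit 0, nat_lit 0, nat_lit 99, nat_lit 0, nat_lit 0, [nat_lit 1926672000, nat_lit 5422630400, nat_lit 8306753600], [], [nat_lit 22545689960, nat_lit 25580886280, nat_lit 31582201832, nat_lit 33533260888, nat_lit 27241737190, nat_lit 29493795310, nat_lit 33983428619, nat_lit 35780235185], nat_lit 0, nat_lit 0, nat_lit 0, nat_lit 0, nat_lit 0, nat_lit 0, [], [nat_lit 61, nat_lit 40, nat_lit 40, nat_lit 80, nat_lit 1, nat_lit 401, nat_lit 175, nat_lit 10]⟩, ⟨p087_k14, nat_lit 0, nat_lit 0, nat_lit 291, nat_lit 0, nat_lit 0, [nat_lit 3623824000, nat_lit 7607866000, nat_lit 10866834000], [], [nat_lit 27373223552, nat_lit 28941864084, nat_lit 35490207964, nat_lit 36181484483, nat_lit 26527458933, nat_lit 27086956883, nat_lit 30217722727, nat_lit 30315600660], nat_lit 0, nat_lit 0, nat_lit 0, nat_lit 0, nat_lit 0, nat_lit 0, [], [nat_lit 56, nat_lit 40, nat_lit 40, nat_lit 80, nat_lit 32, nat_lit 538, nat_lit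 300, nat_lit 12]⟩,
 ⟨nat_lit 3162, nat_lit 4473, ⟨.ofNat (nat_lit 611007), .ofNat (nat_lit 876224), .ofNat (nat_lit 653959), .ofNat (nat_lit 919290), .ofNat (nat_lit 605159), .ofNat (nat_lit 842980), .ofNat (nat_lit 649288), .ofNat (nat_lit 887222)⟩, ⟨.ofNat (nat_lit 302621), .ofNat (nat_lit 540545), .ofNat (nat_lit 345754), .ofNat (nat_lit 583678), .ofNat (nat_lit 306116), .ofNat (nat_lit 519453), .ofNat (nat_lit 350426), .ofNat (nat_lit 563762)⟩⟩, [⟨nat_lit 4, nat_lit 100, nat_lit 74, nat_lit 90, nat_lit 410139832⟩, ⟨nat_lit 7, nat_lit 77, nat_lit 100, nat_lit 91, nat_lit 78069105⟩]⟩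
noncomputable def p087_l63 : Lf2 := ⟨nat_lit 0, nat_lit 20, [nat_lit 5, nat_lit 5, nat_lit 5, nat_lit 20], true, nat_lit 0, nat_lit 300, nat_lit 0, nat_lit 364, ⟨nat_lit 0, nat_lit 1000, nat_lit 0, nat_lit 6, nat_lit 195, nat_lit 1000, nat_lit 110, nat_lit 0, nat_lit 0, nat_lit 0, nat_lit 0, nat_lit 0, nat_lit 0, nat_lit 0, nat_lit 0, nat_lit 5000000, false, false⟩,
 nat_lit 0, nat_lit 0, nat_lit 0, nat_lit 5074, nat_lit 6399, nat_lit 0, nat_lit 0, nat_lit 0, nat_lit 0, nat_lit 0, nat_lit 0, nat_lit 0, nat_lit 0, nat_lit 0, nat_lit 0, nat_lit 250000, nat_lit 0, nat_lit 0, [(nat_lit 19, [(nat_lit 0, nat_lit 1000)]), (nat_lit 22, [(nat_lit 0, nat_lit 1000)])],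
 ⟨p087_k16, nat_lit 0, nat_lit 0, nat_lit 282, nat_lit 0, nat_lit 0, [nat_lit 1642800000, nat_lit 3238355556], [], [nat_lit 29197404121, nat_lit 31909648260, nat_lit 29228753600, nat_lit 31283849456, nat_lit 28011492229, nat_lit 29717698678, nat_lit 26933261935, nat_lit 28812663010], nat_lit 0, nat_lit 0, nat_lit 0, nat_lit 0, nat_lit 0, nat_lit 0, [], [nat_lit 94, nat_lit 40, nat_lit 40, nat_lit 80, nat_lit 95, nat_lit 373, nat_lit 150, nat_lit 11]⟩, C1.Rw.none,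
 ⟨nat_lit 3162, nat_lit 4473, ⟨.ofNat (nat_lit 311562), .ofNat (nat_lit 611007), .ofNat (nat_lit 354514), .ofNat (nat_lit 653959), .ofNat (nat_lit 336623), .ofNat (nat_lit 605159), .ofNat (nat_lit 380752), .ofNat (nat_lit 649288)⟩, ⟨.ofNat (nat_lit 0), .ofNat (nat_lit 540545), .ofNat (nat_lit 0), .ofNat (nat_lit 583678), .ofNat (nat_lit 0), .ofNat (nat_lit 519453), .ofNat (nat_lit 0), .ofNat (nat_lit 563762)⟩⟩, [⟨nat_lit 4, nat_lit 100, nat_lit 74, nat_lit 90, nat_lit 27513517⟩]⟩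
noncomputable def p087_l64 : Lf2 := ⟨nat_lit 0, nat_lit 20, [nat_lit 5, nat_lit 5, nat_lit 5, nat_lit 20], false, nat_lit 0, nat_lit 160, nat_lit 0, nat_lit 364, ⟨nat_lit 183, nat_lit 817, nat_lit 0, nat_lit 6, nat_lit 302, nat_lit 817, nat_lit 65, nat_lit 0, nat_lit 0, nat_lit 0, nat_lit 0, nat_lit 0, nat_lit 0, nat_lit 0, nat_lit 0, nat_lit 5000000, true, true⟩,
 nat_lit 0, nat_lit 0, nat_lit 2796, nat_lit 437, nat_lit 3725, nat_lit 1480, nat_lit 244, nat_lit 0, nat_lit 0, nat_lit 131, nat_lit 0, nat_lit 0, nat_lit 0, nat_lit 0, nat_lit 0, nat_lit 326800, nat_lit 0, nat_lit 0, [(nat_lit 19, [(nat_lit 1, nat_lit 817)]), (nat_lit 22, [(nat_lit 1, nat_lit 817)])],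
 ⟨p087_k3, nat_lit 0, nat_lit 0, nat_lit 214, nat_lit 0, nat_lit 0, [nat_lit 1514130934, nat_lit 2522623201, nat_lit 3297830000], [], [nat_lit 25344706801, nat_lit 27370862301, nat_lit 31613804931, nat_lit 33602758650, nat_lit 24456914635, nat_lit 26102996535, nat_lit 29656361231, nat_lit 30888122452], nat_lit 0, nat_lit 0, nat_lit 0, nat_lit 0, nat_lit 0, nat_lit 0, [], [nat_lit 27, nat_lit 40, nat_lit 40, nat_lit 80, nat_lit 13, nat_lit 373, nat_lit 150, nat_lit 10]⟩, ⟨p087_k8, nat_lit 0, nat_lit 0, nat_lit 770, nat_lit 0, nat_lit 975763, [nat_lit 857904000, nat_lit 1458144000, nat_lit 2572614000], [], [nat_lit 7507704628, nat_lit 7600341172, nat_lit 8112339514, nat_lit 8154984648, nat_lit 6727761517, nat_lit 6727102556, nat_lit 7054403153, nat_lit 7039951998], nat_lit 1271250, nat_lit 1271250, nat_lit 1271250, nat_lit 1271250, nat_lit 0, nat_lit 2570750, [nat_lit 1100000, nat_lit 1785000, nat_lit 1271250], [nat_lit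 37, nat_lit 40, nat_lit 40, nat_lit 80, nat_lit 28, nat_lit 538, nat_lit 300, nat_lit 12]⟩,
 ⟨nat_lit 3162, nat_lit 4473, ⟨.ofNat (nat_lit 611007), .ofNat (nat_lit 876224), .ofNat (nat_lit 653959), .ofNat (nat_lit 919290), .ofNat (nat_lit 605159), .ofNat (nat_lit 842980), .ofNat (nat_lit 649288), .ofNat (nat_lit 887222)⟩, ⟨.ofNat (nat_lit 0), .ofNat (nat_lit 302621), .ofNat (nat_lit 0), .ofNat (nat_lit 345754), .ofNat (nat_lit 0), .ofNat (nat_lit 306116), .ofNat (nat_lit 0), .ofNat (nat_lit 350426)⟩⟩, [⟨nat_lit 13, nat_lit 75, nat_lit 48, nat_lit 100, nat_lit 143336591⟩, ⟨nat_lit 10, nat_lit 100, nat_lit 53, nat_lit 80, nat_lit 48080084⟩]⟩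
noncomputable def p087_l65 : Lf2 := ⟨nat_lit 0, nat_lit 20, [nat_lit 5, nat_lit 5, nat_lit 5, nat_lit 20], true, nat_lit 160, nat_lit 300, nat_lit 0, nat_lit 364, ⟨nat_lit 0, nat_lit 1000, nat_lit 0, nat_lit 6, nat_lit 278, nat_lit 1000, nat_lit 176, nat_lit 0, nat_lit 0, nat_lit 0, nat_lit 0, nat_lit 0, nat_lit 0, nat_lit 0, nat_lit 0, nat_lit 5000000, true, true⟩,
 nat_lit 0, nat_lit 0, nat_lit 0, nat_lit 5980, nat_lit 3982, nat_lit 0, nat_lit 0, nat_lit 0, nat_lit 0, nat_lit 0, nat_lit 0, nat_lit 0, nat_lit 0, nat_lit 0, nat_lit 0, nat_lit 250000, nat_lit 0, nat_lit 0, [(nat_lit 19, [(nat_lit 0, nat_lit 1000)]), (nat_lit 22, [(nat_lit 0, nat_lit 1000)])],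
 ⟨p087_k3, nat_lit 0, nat_lit 0, nat_lit 60, nat_lit 0, nat_lit 0, [nat_lit 1568000001, nat_lit 2368400000, nat_lit 3220880000], [], [nat_lit 20413190976, nat_lit 23020662784, nat_lit 24158086840, nat_lit 26330334472, nat_lit 25050819210, nat_lit 27041837348, nat_lit 27854959020, nat_lit 29778671174], nat_lit 0, nat_lit 0, nat_lit 0, nat_lit 0, nat_lit 0, nat_lit 0, [], [nat_lit 27, nat_lit 40, nat_lit 40, nat_lit 80, nat_lit 13, nat_lit 401, nat_lit 175, nat_lit 10]⟩, C1.Rw.none,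
 ⟨nat_lit 3162, nat_lit 4473, ⟨.ofNat (nat_lit 611007), .ofNat (nat_lit 747055), .ofNat (nat_lit 653959), .ofNat (nat_lit 790054), .ofNat (nat_lit 605159), .ofNat (nat_lit 727157), .ofNat (nat_lit 649288), .ofNat (nat_lit 771333)⟩, ⟨.ofNat (nat_lit 302621), .ofNat (nat_lit 540545), .ofNat (nat_lit 345754), .ofNat (nat_lit 583678), .ofNat (nat_lit 306116), .ofNat (nat_lit 519453), .ofNat (nat_lit 350426), .ofNat (nat_lit 563762)⟩⟩, [⟨nat_lit 16, nat_lit 87, nat_lit 95, nat_lit 100, nat_lit 253168479⟩]⟩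
noncomputable def p087_l66 : Lf2 := ⟨nat_lit 0, nat_lit 20, [nat_lit 5, nat_lit 5, nat_lit 5, nat_lit 20], true, nat_lit 160, nat_lit 300, nat_lit 16, nat_lit 364, ⟨nat_lit 0, nat_lit 1000, nat_lit 0, nat_lit 8, nat_lit 316, nat_lit 1000, nat_lit 176, nat_lit 0, nat_lit 0, nat_lit 0, nat_lit 0, nat_lit 0, nat_lit 0, nat_lit 0, nat_lit 0, nat_lit 5000000, true, true⟩,
 nat_lit 0, nat_lit 0, nat_lit 0, nat_lit 5707, nat_lit 3788, nat_lit 0, nat_lit 0, nat_lit 0, nat_lit 0, nat_lit 0, nat_lit 0, nat_lit 0, nat_lit 0, nat_lit 0, nat_lit 0, nat_lit 250000, nat_lit 0, nat_lit 0, [(nat_lit 19, [(nat_lit 0, nat_lit 1000)]), (nat_lit 22, [(nat_lit 0, nat_lit 1000)])],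
 ⟨p087_k3, nat_lit 0, nat_lit 0, nat_lit 73, nat_lit 0, nat_lit 0, [nat_lit 1568000001, nat_lit 2368400000, nat_lit 3220880000], [], [nat_lit 24267188560, nat_lit 26392570448, nat_lit 26392570448, nat_lit 28306523200, nat_lit 27949706680, nat_lit 29596278524, nat_lit 29596278524, nat_lit 31293945116], nat_lit 0, nat_lit 0, nat_lit 0, nat_lit 0, nat_lit 0, nat_lit 0, [], [nat_lit 27, nat_lit 40, nat_lit 40, nat_lit 80, nat_lit 13, nat_lit 289, nat_lit 75, nat_lit 7]⟩, C1.Rw.none,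
 ⟨nat_lit 3162, nat_lit 4473, ⟨.ofNat (nat_lit 747055), .ofNat (nat_lit 815044), .ofNat (nat_lit 790054), .ofNat (nat_lit 858073), .ofNat (nat_lit 727157), .ofNat (nat_lit 788122), .ofNat (nat_lit 771333), .ofNat (nat_lit 832328)⟩, ⟨.ofNat (nat_lit 302621), .ofNat (nat_lit 540545), .ofNat (nat_lit 345754), .ofNat (nat_lit 583678), .ofNat (nat_lit 306116), .ofNat (nat_lit 519453), .ofNat (nat_lit 350426), .ofNat (nat_lit 563762)⟩⟩, [⟨nat_lit 16, nat_lit 87, nat_lit 95, nat_lit 100, nat_lit 232920364⟩]⟩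
noncomputable def p087_l67 : Lf2 := ⟨nat_lit 0, nat_lit 20, [nat_lit 5, nat_lit 5, nat_lit 5, nat_lit 20], true, nat_lit 160, nat_lit 300, nat_lit 48, nat_lit 364, ⟨nat_lit 0, nat_lit 1000, nat_lit 0, nat_lit 9, nat_lit 335, nat_lit 1000, nat_lit 176, nat_lit 0, nat_lit 0, nat_lit 0, nat_lit 0, nat_lit 0, nat_lit 0, nat_lit 0, nat_lit 0, nat_lit 5000000, true, true⟩,
 nat_lit 0, nat_lit 0, nat_lit 0, nat_lit 10632, nat_lit 3254, nat_lit 0, nat_lit 169, nat_lit 0, nat_lit 0, nat_lit 0, nat_lit 0, nat_lit 0, nat_lit 0, nat_lit 0, nat_lit 0, nat_lit 400000, nat_lit 0, nat_lit 0, [(nat_lit 19, [(nat_lit 1, nat_lit 1000)]), (nat_lit 22, [(nat_lit 1, nat_lit 1000)])],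
 ⟨p087_k3, nat_lit 0, nat_lit 0, nat_lit 102, nat_lit 0, nat_lit 0, [nat_lit 1398133334, nat_lit 2037600000, nat_lit 1832000000], [], [nat_lit 26899923475, nat_lit 28380923909, nat_lit 28297612124, nat_lit 29666141554, nat_lit 29445664542, nat_lit 30872001986, nat_lit 30794806146, nat_lit 32109357137], nat_lit 0, nat_lit 0, nat_lit 0, nat_lit 0, nat_lit 0, nat_lit 0, [], [nat_lit 27, nat_lit 40, nat_lit 40, nat_lit 80, nat_lit 13, nat_lit 289, nat_lit 75, nat_lit 7]⟩, C1.Rw.none,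
 ⟨nat_lit 3162, nat_lit 4473, ⟨.ofNat (nat_lit 815044), .ofNat (nat_lit 869427), .ofNat (nat_lit 836574), .ofNat (nat_lit 890989), .ofNat (nat_lit 788122), .ofNat (nat_lit 836884), .ofNat (nat_lit 810240), .ofNat (nat_lit 859035)⟩, ⟨.ofNat (nat_lit 302621), .ofNat (nat_lit 540545), .ofNat (nat_lit 345754), .ofNat (nat_lit 583678), .ofNat (nat_lit 306116), .ofNat (nat_lit 519453), .ofNat (nat_lit 350426), .ofNat (nat_lit 563762)⟩⟩, [⟨nat_lit 13, nat_lit 74, nat_lit 52, nat_lit 100, nat_lit 428921727⟩, ⟨nat_lit 4, nat_lit 100, nat_lit 74, nat_lit 90, nat_lit 266233785⟩]⟩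
noncomputable def p087_l68 : Lf2 := ⟨nat_lit 0, nat_lit 20, [nat_lit 5, nat_lit 5, nat_lit 5, nat_lit 20], false, nat_lit 160, nat_lit 300, nat_lit 48, nat_lit 352, ⟨nat_lit 143, nat_lit 857, nat_lit 0, nat_lit 9, nat_lit 345, nat_lit 857, nat_lit 176, nat_lit 0, nat_lit 0, nat_lit 0, nat_lit 0, nat_lit 0, nat_lit 0, nat_lit 0, nat_lit 0, nat_lit 5000000, true, true⟩,
 nat_lit 0, nat_lit 0, nat_lit 2150, nat_lit 4111, nat_lit 4169, nat_lit 1251, nat_lit 0, nat_lit 0, nat_lit 0, nat_lit 60, nat_lit 0, nat_lit 0, nat_lit 0, nat_lit 0, nat_lit 0, nat_lit 214250, nat_lit 0, nat_lit 0, [(nat_lit 19, [(nat_lit 0, nat_lit 857)]), (nat_lit 22, [(nat_lit 0, nat_lit 857)])],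
 ⟨p087_k28, nat_lit 0, nat_lit 0, nat_lit 99, nat_lit 0, nat_lit 0, [nat_lit 1634352000, nat_lit 3126406401, nat_lit 4170075333], [], [nat_lit 27591730241, nat_lit 29462556669, nat_lit 29602218922, nat_lit 31285402169, nat_lit 30560465810, nat_lit 32008245134, nat_lit 32134531113, nat_lit 33445076910], nat_lit 0, nat_lit 0, nat_lit 0, nat_lit 0, nat_lit 0, nat_lit 0, [], [nat_lit 61, nat_lit 40, nat_lit 40, nat_lit 80, nat_lit 1, nat_lit 289, nat_lit 75, nat_lit 7]⟩, ⟨p087_k15, nat_lit 0, nat_lit 0, nat_lit 583, nat_lit 0, nat_lit 846383, [nat_lit 670384000, nat_lit 1407406000, nat_lit 1697696000], [], [nat_lit 6027019805, nat_lit 6034353448, nat_lit 6159596630, nat_lit 6159952262, nat_lit 5363955733, nat_lit 5345646997, nat_lit 5435978717, nat_lit 5459761453], nat_lit 1271250, nat_lit 1271250, nat_lit 1271250, nat_lit 1271250, nat_lit 279600, nat_lit 2563400, [nat_lit 1100000, nat_lit 2127500, nat_lit 1271250], [nat_lit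 125, nat_lit 40, nat_lit 40, nat_lit 80, nat_lit 41, nat_lit 401, nat_lit 175, nat_lit 9]⟩,
 ⟨nat_lit 3162, nat_lit 4473, ⟨.ofNat (nat_lit 836574), .ofNat (nat_lit 897791), .ofNat (nat_lit 858073), .ofNat (nat_lit 919290), .ofNat (nat_lit 810240), .ofNat (nat_lit 865135), .ofNat (nat_lit 832328), .ofNat (nat_lit 887222)⟩, ⟨.ofNat (nat_lit 302621), .ofNat (nat_lit 540545), .ofNat (nat_lit 345754), .ofNat (nat_lit 583678), .ofNat (nat_lit 306116), .ofNat (nat_lit 519453), .ofNat (nat_lit 350426), .ofNat (nat_lit 563762)⟩⟩, [⟨nat_lit 13, nat_lit 76, nat_lit 43, nat_lit 100, nat_lit 351348958⟩, ⟨nat_lit 4, nat_lit 100, nat_lit 74, nat_lit 90, nat_lit 293985107⟩, ⟨nat_lit 19, nat_lit 100, nat_lit 82, nat_lit 92, nat_lit 19468106⟩]⟩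
noncomputable def b_V_800_600_20_36 : St := ⟨true, nat_lit 0, nat_lit 2, nat_lit 2, nat_lit 120, nat_lit 320, nat_lit 360, nat_lit 240, nat_lit 280, nat_lit 64, nat_lit 396, nat_lit 80, nat_lit 120, nat_lit 0, nat_lit 300, nat_lit 0, nat_lit 364, nat_lit 40, nat_lit 80, nat_lit 0, nat_lit 0, nat_lit 0, nat_lit 0⟩
theorem d_V_800_600_20_36 (h : EB TB.env) : Dead b_V_800_600_20_36 := chkB_sound0 h (T :=
(.st (nat_lit 1)
(.spl (nat_lit 2) (nat_lit 240)
(.leaf p087_l60)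
(.spl (nat_lit 4) (nat_lit 160)
(.leaf p087_l61)
(.leaf p087_l62)))
(.spl (nat_lit 2) (nat_lit 240)
(.leaf p087_l63)
(.spl (nat_lit 4) (nat_lit 160)
(.leaf p087_l64)
(.spl (nat_lit 2) (nat_lit 320)
(.leaf p087_l65)
(.trZ (nat_lit 9) (nat_lit 100) (nat_lit 82) (nat_lit 44) (nat_lit 16) (.spl (nat_lit 2) (nat_lit 360)
(.leaf p087_l66)
(.trZ (nat_lit 9) (nat_lit 100) (nat_lit 61) (nat_lit 68) (nat_lit 48) (.spl (nat_lit 1) (nat_lit 260)
(.trX (nat_lit 13) (nat_lit 84) (nat_lit 35) (nat_lit 100) (nat_lit 392) (.leaf p087_l67))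
(.trX (nat_lit 19) (nat_lit 100) (nat_lit 69) (nat_lit 96) (nat_lit 352) (.leaf p087_l68))))))))))) (by decide +kernel)
noncomputable def p087_l69 : Lf2 := ⟨nat_lit 0, nat_lit 20, [nat_lit 5, nat_lit 5, nat_lit 5, nat_lit 20], true, nat_lit 0, nat_lit 80, nat_lit 0, nat_lit 364, ⟨nat_lit 0, nat_lit 0, nat_lit 1000, nat_lit 6, nat_lit 163, nat_lit 1000, nat_lit 37, nat_lit 1000, nat_lit 13067, nat_lit 243, nat_lit 35831, nat_lit 261, nat_lit 57422946, nat_lit 0, nat_lit 0, nat_lit 2051331, false, false⟩,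
 nat_lit 0, nat_lit 4291, nat_lit 0, nat_lit 697, nat_lit 3218, nat_lit 0, nat_lit 0, nat_lit 0, nat_lit 0, nat_lit 0, nat_lit 0, nat_lit 0, nat_lit 0, nat_lit 0, nat_lit 129, nat_lit 400000, nat_lit 0, nat_lit 0, [(nat_lit 19, [(nat_lit 5, nat_lit 1000)])],
 ⟨p087_k16, nat_lit 0, nat_lit 0, nat_lit 326, nat_lit 0, nat_lit 221476, [nat_lit 2456800001, nat_lit 268000000], [], [nat_lit 17587264357, nat_lit 18782277756, nat_lit 18476278771, nat_lit 19544014355, nat_lit 16805595786, nat_lit 17929279459, nat_lit 17734088059, nat_lit 18738759083], nat_lit 1271250, nat_lit 1271250, nat_lit 382400, nat_lit 1100001, nat_lit 0, nat_lit 490000, [nat_lit 490000, nat_lit 2052500], [nat_lit 94, nat_lit 40, nat_lit 40, nat_lit 80, nat_lit 95, nat_lit 272, nat_lit 60, nat_lit 8]⟩, C1.Rw.none,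
 ⟨nat_lit 3872, nat_lit 4473, ⟨.ofNat (nat_lit 311945), .ofNat (nat_lit 475111), .ofNat (nat_lit 333494), .ofNat (nat_lit 496660), .ofNat (nat_lit 324151), .ofNat (nat_lit 479021), .ofNat (nat_lit 345927), .ofNat (nat_lit 500797)⟩, ⟨.ofNat (nat_lit 0), .ofNat (nat_lit 166665), .ofNat (nat_lit 0), .ofNat (nat_lit 200000), .ofNat (nat_lit 0), .ofNat (nat_lit 175674), .ofNat (nat_lit 0), .ofNat (nat_lit 200000)⟩⟩, [⟨nat_lit 0, nat_lit 100, nat_lit 75, nat_lit 92, nat_lit 20920743⟩, ⟨nat_lit 3, nat_lit 100, nat_lit 88, nat_lit 21, nat_lit 159472845⟩]⟩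
noncomputable def p087_l70 : Lf2 := ⟨nat_lit 0, nat_lit 20, [nat_lit 5, nat_lit 5, nat_lit 5, nat_lit 20], false, nat_lit 0, nat_lit 80, nat_lit 0, nat_lit 352, ⟨nat_lit 484, nat_lit 0, nat_lit 516, nat_lit 6, nat_lit 177, nat_lit 30, nat_lit 37, nat_lit 516, nat_lit 13067, nat_lit 243, nat_lit 19328, nat_lit 248, nat_lit 56074411, nat_lit 0, nat_lit 0, nat_lit 2223615, false, false⟩,
 nat_lit 0, nat_lit 5499, nat_lit 0, nat_lit 8396, nat_lit 4124, nat_lit 4214, nat_lit 517, nat_lit 0, nat_lit 0, nat_lit 575, nat_lit 0, nat_lit 0, nat_lit 0, nat_lit 0, nat_lit 0, nat_lit 284400, nat_lit 0, nat_lit 0, [(nat_lit 19, [(nat_lit 5, nat_lit 386), (nat_lit 6, nat_lit 130)])],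
 ⟨p087_k3, nat_lit 0, nat_lit 0, nat_lit 330, nat_lit 0, nat_lit 238404, [nat_lit 1479215467, nat_lit 1941222934, nat_lit 2388856000], [], [nat_lit 18360924351, nat_lit 19034719811, nat_lit 19237999650, nat_lit 19912070362, nat_lit 17083767570, nat_lit 17784672670, nat_lit 18161026338, nat_lit 18790649566], nat_lit 1271250, nat_lit 1271250, nat_lit 490000, nat_lit 1100001, nat_lit 0, nat_lit 490000, [nat_lit 490000, nat_lit 1100000, nat_lit 2127500], [nat_lit 27, nat_lit 40, nat_lit 40, nat_lit 80, nat_lit 13, nat_lit 272, nat_lit 60, nat_lit 8]⟩, ⟨p087_k4, nat_lit 0, nat_lit 0, nat_lit 235, nat_lit 0, nat_lit 0, [nat_lit 2268992000, nat_lit 3856512000, nat_lit 5746048000], [], [nat_lit 12049614349, nat_lit 12858702413, nat_lit 11585757709, nat_lit 12302766205, nat_lit 13477894532, nat_lit 13834079140, nat_lit 12557203226, nat_lit 12981238229], nat_lit 0, nat_lit 0, nat_lit 0, nat_lit 0, nat_lit 0, nat_lit 0, [], [nat_lit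 21, nat_lit 40, nat_lit 40, nat_lit 80, nat_lit 14, nat_lit 428, nat_lit 200, nat_lit 11]⟩,
 ⟨nat_lit 4183, nat_lit 4473, ⟨.ofNat (nat_lit 360749), .ofNat (nat_lit 496708), .ofNat (nat_lit 382312), .ofNat (nat_lit 518271), .ofNat (nat_lit 366218), .ofNat (nat_lit 498731), .ofNat (nat_lit 387880), .ofNat (nat_lit 520394)⟩, ⟨.ofNat (nat_lit 0), .ofNat (nat_lit 166665), .ofNat (nat_lit 0), .ofNat (nat_lit 200000), .ofNat (nat_lit 0), .ofNat (nat_lit 171231), .ofNat (nat_lit 0), .ofNat (nat_lit 200000)⟩⟩, [⟨nat_lit 0, nat_lit 100, nat_lit 83, nat_lit 98, nat_lit 354224070⟩, ⟨nat_lit 19, nat_lit 100, nat_lit 82, nat_lit 92, nat_lit 112138430⟩]⟩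
noncomputable def p087_l71 : Lf2 := ⟨nat_lit 0, nat_lit 20, [nat_lit 5, nat_lit 5, nat_lit 5, nat_lit 20], false, nat_lit 0, nat_lit 80, nat_lit 0, nat_lit 352, ⟨nat_lit 421, nat_lit 0, nat_lit 579, nat_lit 6, nat_lit 182, nat_lit 579, nat_lit 37, nat_lit 579, nat_lit 13067, nat_lit 243, nat_lit 19642, nat_lit 247, nat_lit 55505747, nat_lit 0, nat_lit 0, nat_lit 2291723, false, false⟩,
 nat_lit 0, nat_lit 4960, nat_lit 0, nat_lit 5842, nat_lit 3866, nat_lit 3650, nat_lit 440, nat_lit 0, nat_lit 0, nat_lit 509, nat_lit 0, nat_lit 0, nat_lit 0, nat_lit 0, nat_lit 0, nat_lit 231600, nat_lit 0, nat_lit 0, [(nat_lit 19, [(nat_lit 5, nat_lit 579)])],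
 ⟨p087_k5, nat_lit 0, nat_lit 0, nat_lit 352, nat_lit 0, nat_lit 315401, [nat_lit 1393247201, nat_lit 1722130400, nat_lit 2207306000], [], [nat_lit 19350093049, nat_lit 19735854531, nat_lit 19513531997, nat_lit 20101484228, nat_lit 17714647812, nat_lit 18315832283, nat_lit 18540516823, nat_lit 19090314325], nat_lit 1271250, nat_lit 1271250, nat_lit 573850, nat_lit 1100001, nat_lit 0, nat_lit 490000, [nat_lit 490000, nat_lit 1100000, nat_lit 2127500], [nat_lit 27, nat_lit 40, nat_lit 40, nat_lit 80, nat_lit 13, nat_lit 272, nat_lit 60, nat_lit 8]⟩, ⟨p087_k4, nat_lit 0, nat_lit 0, nat_lit 228, nat_lit 0, nat_lit 0, [nat_lit 1973648000, nat_lit 3354528000, nat_lit 4998112000], [], [nat_lit 10272129850, nat_lit 10963712567, nat_lit 10002272173, nat_lit 10624431379, nat_lit 11486792561, nat_lit 11791010887, nat_lit 10917513606, nat_lit 11285720684], nat_lit 0, nat_lit 0, nat_lit 0, nat_lit 0, nat_lit 0, nat_lit 0, [], [nat_lit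 21, nat_lit 40, nat_lit 40, nat_lit 80, nat_lit 14, nat_lit 428, nat_lit 200, nat_lit 11]⟩,
 ⟨nat_lit 3872, nat_lit 4184, ⟨.ofNat (nat_lit 386087), .ofNat (nat_lit 498726), .ofNat (nat_lit 407749), .ofNat (nat_lit 520388), .ofNat (nat_lit 391148), .ofNat (nat_lit 500840), .ofNat (nat_lit 412937), .ofNat (nat_lit 522628)⟩, ⟨.ofNat (nat_lit 0), .ofNat (nat_lit 171231), .ofNat (nat_lit 0), .ofNat (nat_lit 200000), .ofNat (nat_lit 0), .ofNat (nat_lit 175674), .ofNat (nat_lit 0), .ofNat (nat_lit 200000)⟩⟩, [⟨nat_lit 0, nat_lit 100, nat_lit 79, nat_lit 95, nat_lit 336414845⟩, ⟨nat_lit 3, nat_lit 100, nat_lit 85, nat_lit 25, nat_lit 72813159⟩, ⟨nat_lit 19, nat_lit 100, nat_lit 82, nat_lit 92, nat_lit 98557305⟩]⟩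
noncomputable def p087_l72 : Lf2 := ⟨nat_lit 0, nat_lit 20, [nat_lit 5, nat_lit 5, nat_lit 5, nat_lit 20], true, nat_lit 80, nat_lit 160, nat_lit 0, nat_lit 364, ⟨nat_lit 0, nat_lit 0, nat_lit 1000, nat_lit 6, nat_lit 168, nat_lit 1000, nat_lit 102, nat_lit 1000, nat_lit 98817, nat_lit 292, nat_lit 19503, nat_lit 247, nat_lit 52175686, nat_lit 0, nat_lit 0, nat_lit 3544310, false, false⟩,
 nat_lit 0, nat_lit 4866, nat_lit 0, nat_lit 0, nat_lit 3649, nat_lit 0, nat_lit 0, nat_lit 0, nat_lit 0, nat_lit 0, nat_lit 0, nat_lit 0, nat_lit 0, nat_lit 0, nat_lit 129, nat_lit 400000, nat_lit 0, nat_lit 0, [(nat_lit 19, [(nat_lit 5, nat_lit 1000)])],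
 ⟨p087_k16, nat_lit 0, nat_lit 0, nat_lit 307, nat_lit 0, nat_lit 332738, [nat_lit 2456800001, nat_lit 268000000], [], [nat_lit 15566769196, nat_lit 16991839428, nat_lit 16232568426, nat_lit 17360595738, nat_lit 16322374401, nat_lit 17534129843, nat_lit 16965986482, nat_lit 18049876917], nat_lit 1271250, nat_lit 1271250, nat_lit 382400, nat_lit 1100001, nat_lit 490000, nat_lit 1100001, [nat_lit 490000, nat_lit 2052500], [nat_lit 94, nat_lit 40, nat_lit 40, nat_lit 80, nat_lit 95, nat_lit 317, nat_lit 100, nat_lit 9]⟩, C1.Rw.none,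
 ⟨nat_lit 3872, nat_lit 4473, ⟨.ofNat (nat_lit 311945), .ofNat (nat_lit 475111), .ofNat (nat_lit 355043), .ofNat (nat_lit 518209), .ofNat (nat_lit 324151), .ofNat (nat_lit 479021), .ofNat (nat_lit 367703), .ofNat (nat_lit 522572)⟩, ⟨.ofNat (nat_lit 166665), .ofNat (nat_lit 302621), .ofNat (nat_lit 200000), .ofNat (nat_lit 345754), .ofNat (nat_lit 175674), .ofNat (nat_lit 304717), .ofNat (nat_lit 200000), .ofNat (nat_lit 348304)⟩⟩, [⟨nat_lit 0, nat_lit 99, nat_lit 77, nat_lit 100, nat_lit 33549230⟩]⟩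
noncomputable def p087_l73 : Lf2 := ⟨nat_lit 0, nat_lit 20, [nat_lit 5, nat_lit 5, nat_lit 5, nat_lit 20], false, nat_lit 0, nat_lit 160, nat_lit 0, nat_lit 364, ⟨nat_lit 1000, nat_lit 0, nat_lit 0, nat_lit 0, nat_lit 0, nat_lit 0, nat_lit 0, nat_lit 0, nat_lit 0, nat_lit 0, nat_lit 0, nat_lit 0, nat_lit 0, nat_lit 0, nat_lit 0, nat_lit 0, false, false⟩,
 nat_lit 0, nat_lit 9302, nat_lit 0, nat_lit 10446, nat_lit 6976, nat_lit 9938, nat_lit 903, nat_lit 0, nat_lit 0, nat_lit 1189, nat_lit 0, nat_lit 0, nat_lit 0, nat_lit 0, nat_lit 0, nat_lit 0, nat_lit 0, nat_lit 0, [],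
 ⟨p087_k3, nat_lit 0, nat_lit 0, nat_lit 305, nat_lit 0, nat_lit 238404, [nat_lit 2032000001, nat_lit 4688000000, nat_lit 9842000000], [], [nat_lit 25363472608, nat_lit 24253627667, nat_lit 25853544480, nat_lit 27119778512, nat_lit 18889371155, nat_lit 19566412371, nat_lit 26437143860, nat_lit 24897729012], nat_lit 1271250, nat_lit 1271250, nat_lit 1100001, nat_lit 1785000, nat_lit 0, nat_lit 1100001, [nat_lit 490000, nat_lit 1100000, nat_lit 2127500], [nat_lit 27, nat_lit 40, nat_lit 40, nat_lit 80, nat_lit 13, nat_lit 317, nat_lit 100, nat_lit 9]⟩, ⟨p087_k8, nat_lit 0, nat_lit 0, nat_lit 249, nat_lit 0, nat_lit 0, [nat_lit 4688000000, nat_lit 7968000000, nat_lit 14058000000], [], [nat_lit 28015267180, nat_lit 30646989620, nat_lit 30119647108, nat_lit 32243432220, nat_lit 28200000217, nat_lit 29163965174, nat_lit 28598358112, nat_lit 30675675270], nat_lit 0, nat_lit 0, nat_lit 0, nat_lit 0, nat_lit 0, nat_lit 0, [],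 [nat_lit 37, nat_lit 40, nat_lit 40, nat_lit 80, nat_lit 28, nat_lit 456, nat_lit 225, nat_lit 11]⟩,
 zbF0, [⟨nat_lit 7, nat_lit 77, nat_lit 100, nat_lit 91, nat_lit 193243027⟩]⟩
noncomputable def p087_l74 : Lf2 := ⟨nat_lit 0, nat_lit 20, [nat_lit 5, nat_lit 5, nat_lit 5, nat_lit 20], false, nat_lit 0, nat_lit 160, nat_lit 0, nat_lit 364, ⟨nat_lit 1000, nat_lit 0, nat_lit 0, nat_lit 0, nat_lit 0, nat_lit 0, nat_lit 0, nat_lit 0, nat_lit 0, nat_lit 0, nat_lit 0, nat_lit 0, nat_lit 0, nat_lit 0, nat_lit 0, nat_lit 0, false, false⟩,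
 nat_lit 0, nat_lit 8001, nat_lit 0, nat_lit 8413, nat_lit 6237, nat_lit 9938, nat_lit 938, nat_lit 0, nat_lit 0, nat_lit 1189, nat_lit 0, nat_lit 0, nat_lit 0, nat_lit 0, nat_lit 0, nat_lit 0, nat_lit 0, nat_lit 0, [],
 ⟨p087_k5, nat_lit 0, nat_lit 0, nat_lit 331, nat_lit 0, nat_lit 315401, [nat_lit 2032000001, nat_lit 4688000000, nat_lit 9842000000], [], [nat_lit 22683732179, nat_lit 23865747128, nat_lit 25937425069, nat_lit 27112424378, nat_lit 18438937727, nat_lit 19178763642, nat_lit 23801373658, nat_lit 22425036157], nat_lit 1271250, nat_lit 1271250, nat_lit 1100001, nat_lit 1785000, nat_lit 0, nat_lit 1100001, [nat_lit 490000, nat_lit 1100000, nat_lit 2127500], [nat_lit 27, nat_lit 40, nat_lit 40, nat_lit 80, nat_lit 13, nat_lit 317, nat_lit 100, nat_lit 9]⟩, ⟨p087_k8, nat_lit 0, nat_lit 0, nat_lit 249, nat_lit 0, nat_lit 0, [nat_lit 4688000000, nat_lit 7968000000, nat_lit 14058000000], [], [nat_lit 28015267180,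 nat_lit 30646989620, nat_lit 30119647108, nat_lit 32243432220, nat_lit 28200000217, nat_lit 29163965174, nat_lit 28598358112, nat_lit 30675675270], nat_lit 0, nat_lit 0, nat_lit 0, nat_lit 0, nat_lit 0, nat_lit 0, [], [nat_lit 37, nat_lit 40, nat_lit 40, nat_lit 80, nat_lit 28, nat_lit 456, nat_lit 225, nat_lit 11]⟩,
 zbF0, [⟨nat_lit 7, nat_lit 77, nat_lit 100, nat_lit 91, nat_lit 193243027⟩]⟩
noncomputable def p087_l75 : Lf2 := ⟨nat_lit 0, nat_lit 20, [nat_lit 5, nat_lit 5, nat_lit 5, nat_lit 20], false, nat_lit 0, nat_lit 160, nat_lit 0, nat_lit 364, ⟨nat_lit 109, nat_lit 0, nat_lit 891, nat_lit 6, nat_lit 174, nat_lit 891, nat_lit 65, nat_lit 891, nat_lit 40017, nat_lit 264, nat_lit 32662, nat_lit 258, nat_lit 56314461, nat_lit 0, nat_lit 0, nat_lit 2194078, false, false⟩,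
 nat_lit 0, nat_lit 3482, nat_lit 0, nat_lit 1016, nat_lit 2818, nat_lit 1120, nat_lit 0, nat_lit 0, nat_lit 0, nat_lit 135, nat_lit 0, nat_lit 0, nat_lit 0, nat_lit 0, nat_lit 97, nat_lit 356400, nat_lit 0, nat_lit 0, [(nat_lit 22, [(nat_lit 5, nat_lit 891)])],
 ⟨p087_k7, nat_lit 0, nat_lit 0, nat_lit 367, nat_lit 0, nat_lit 383215, [nat_lit 1867104000, nat_lit 1344489600, nat_lit 39810000], [], [nat_lit 18427655649, nat_lit 19553879604, nat_lit 19427302864, nat_lit 20515060592, nat_lit 19148252346, nat_lit 20289347757, nat_lit 21600290772, nat_lit 21368146168], nat_lit 1271250, nat_lit 1271250, nat_lit 545600, nat_lit 1100001, nat_lit 0, nat_lit 1100001, [nat_lit 490000, nat_lit 1100000, nat_lit 1785000], [nat_lit 34, nat_lit 40, nat_lit 40, nat_lit 80, nat_lit 7, nat_lit 317, nat_lit 100, nat_lit 10]⟩, ⟨p087_k8, nat_lit 0, nat_lit 0, nat_lit 371, nat_lit 0, nat_lit 0, [nat_lit 510992000, nat_lit 868512000, nat_lit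 1532322000], [], [nat_lit 3201157677, nat_lit 3364557130, nat_lit 3020909072, nat_lit 3167009884, nat_lit 3285738510, nat_lit 3346916343, nat_lit 3011621003, nat_lit 3064495393], nat_lit 0, nat_lit 0, nat_lit 0, nat_lit 0, nat_lit 0, nat_lit 0, [], [nat_lit 37, nat_lit 40, nat_lit 40, nat_lit 80, nat_lit 28, nat_lit 428, nat_lit 200, nat_lit 10]⟩,
 ⟨nat_lit 3162, nat_lit 3873, ⟨.ofNat (nat_lit 362778), .ofNat (nat_lit 478975), .ofNat (nat_lit 384542), .ofNat (nat_lit 500739), .ofNat (nat_lit 373492), .ofNat (nat_lit 483267), .ofNat (nat_lit 395618), .ofNat (nat_lit 505392)⟩, ⟨.ofNat (nat_lit 0), .ofNat (nat_lit 304717), .ofNat (nat_lit 0), .ofNat (nat_lit 348304), .ofNat (nat_lit 0), .ofNat (nat_lit 306116), .ofNat (nat_lit 0), .ofNat (nat_lit 350426)⟩⟩, [⟨nat_lit 0, nat_lit 100, nat_lit 63, nat_lit 99, nat_lit 78147096⟩, ⟨nat_lit 19, nat_lit 100, nat_lit 72, nat_lit 89, nat_lit 22448231⟩]⟩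
noncomputable def p087_l76 : Lf2 := ⟨nat_lit 0, nat_lit 20, [nat_lit 5, nat_lit 5, nat_lit 5, nat_lit 20], false, nat_lit 0, nat_lit 160, nat_lit 0, nat_lit 352, ⟨nat_lit 410, nat_lit 0, nat_lit 590, nat_lit 6, nat_lit 188, nat_lit 590, nat_lit 65, nat_lit 590, nat_lit 40017, nat_lit 264, nat_lit 15897, nat_lit 244, nat_lit 54873329, nat_lit 0, nat_lit 0, nat_lit 2364493, false, false⟩,
 nat_lit 0, nat_lit 4576, nat_lit 0, nat_lit 0, nat_lit 3704, nat_lit 6688, nat_lit 0, nat_lit 0, nat_lit 0, nat_lit 68, nat_lit 0, nat_lit 0, nat_lit 0, nat_lit 0, nat_lit 42, nat_lit 481400, nat_lit 0, nat_lit 0, [(nat_lit 22, [(nat_lit 5, nat_lit 181), (nat_lit 6, nat_lit 409)])],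
 ⟨p087_k7, nat_lit 0, nat_lit 0, nat_lit 390, nat_lit 0, nat_lit 475852, [nat_lit 1655307201, nat_lit 1480100400, nat_lit 21671867], [], [nat_lit 19294327322, nat_lit 21476613261, nat_lit 19835379376, nat_lit 21852961440, nat_lit 19078896406, nat_lit 20060317970, nat_lit 19683482082, nat_lit 20597090546], nat_lit 1271250, nat_lit 1271250, nat_lit 660400, nat_lit 1100001, nat_lit 0, nat_lit 1100001, [nat_lit 490000, nat_lit 1100000, nat_lit 1785000], [nat_lit 34, nat_lit 40, nat_lit 40, nat_lit 80, nat_lit 7, nat_lit 317, nat_lit 100, nat_lit 10]⟩, ⟨p087_k4, nat_lit 0, nat_lit 0, nat_lit 221, nat_lit 0, nat_lit 0, [nat_lit 1922080000, nat_lit 3266880000, nat_lit 4867520000], [], [nat_lit 14765325344, nat_lit 15777931320, nat_lit 14033547944, nat_lit 14946985028, nat_lit 13932568574, nat_lit 14299957357, nat_lit 12688219793, nat_lit 13069489167], nat_lit 0, nat_lit 0, nat_lit 0, nat_lit 0, nat_lit 0, nat_lit 0, [], [nat_lit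 21, nat_lit 40, nat_lit 40, nat_lit 80, nat_lit 14, nat_lit 428, nat_lit 200, nat_lit 11]⟩,
 ⟨nat_lit 3162, nat_lit 3873, ⟨.ofNat (nat_lit 410364), .ofNat (nat_lit 500739), .ofNat (nat_lit 432129), .ofNat (nat_lit 522504), .ofNat (nat_lit 420013), .ofNat (nat_lit 505392), .ofNat (nat_lit 442139), .ofNat (nat_lit 527519)⟩, ⟨.ofNat (nat_lit 0), .ofNat (nat_lit 304717), .ofNat (nat_lit 0), .ofNat (nat_lit 348304), .ofNat (nat_lit 0), .ofNat (nat_lit 306116), .ofNat (nat_lit 0), .ofNat (nat_lit 350426)⟩⟩, [⟨nat_lit 0, nat_lit 100, nat_lit 71, nat_lit 100, nat_lit 437813456⟩, ⟨nat_lit 7, nat_lit 82, nat_lit 100, nat_lit 92, nat_lit 57171691⟩]⟩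
noncomputable def p087_l77 : Lf2 := ⟨nat_lit 0, nat_lit 20, [nat_lit 5, nat_lit 5, nat_lit 5, nat_lit 20], false, nat_lit 0, nat_lit 160, nat_lit 0, nat_lit 364, ⟨nat_lit 711, nat_lit 0, nat_lit 289, nat_lit 6, nat_lit 226, nat_lit 289, nat_lit 65, nat_lit 289, nat_lit 40017, nat_lit 264, nat_lit 32100, nat_lit 200, nat_lit 50761314, nat_lit 0, nat_lit 0, nat_lit 2768972, false, false⟩,
 nat_lit 0, nat_lit 6111, nat_lit 0, nat_lit 3601, nat_lit 4946, nat_lit 7067, nat_lit 254, nat_lit 0, nat_lit 0, nat_lit 846, nat_lit 0, nat_lit 0, nat_lit 0, nat_lit 0, nat_lit 0, nat_lit 289000, nat_lit 0, nat_lit 0, [(nat_lit 22, [(nat_lit 6, nat_lit 289)])],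
 ⟨p087_k7, nat_lit 0, nat_lit 0, nat_lit 307, nat_lit 0, nat_lit 386602, [nat_lit 1663467200, nat_lit 2649162800, nat_lit 3108754000], [], [nat_lit 22116276120, nat_lit 23009910392, nat_lit 24887522724, nat_lit 25903139046, nat_lit 19768619952, nat_lit 20286952362, nat_lit 21562916008, nat_lit 22192155824], nat_lit 1271250, nat_lit 1271250, nat_lit 1100001, nat_lit 1785000, nat_lit 0, nat_lit 1100001, [nat_lit 490000, nat_lit 1100000, nat_lit 1785000], [nat_lit 34, nat_lit 40, nat_lit 40, nat_lit 80, nat_lit 7, nat_lit 317, nat_lit 100, nat_lit 10]⟩, ⟨p087_k8, nat_lit 0, nat_lit 0, nat_lit 249, nat_lit 0, nat_lit 0, [nat_lit 3333168000, nat_lit 5665248000, nat_lit 9995238000], [], [nat_lit 19913275808, nat_lit 21784587764, nat_lit 21409493568, nat_lit 22919614848, nat_lit 20043754880, nat_lit 20735224047, nat_lit 20334115438, nat_lit 21811193531], nat_lit 0, nat_lit 0, nat_lit 0, nat_lit 0, nat_lit 0, nat_lit 0, [],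 [nat_lit 37, nat_lit 40, nat_lit 40, nat_lit 80, nat_lit 28, nat_lit 456, nat_lit 225, nat_lit 11]⟩,
 ⟨nat_lit 3535, nat_lit 3873, ⟨.ofNat (nat_lit 479046), .ofNat (nat_lit 608101), .ofNat (nat_lit 522620), .ofNat (nat_lit 651675), .ofNat (nat_lit 481125), .ofNat (nat_lit 606659), .ofNat (nat_lit 525018), .ofNat (nat_lit 650552)⟩, ⟨.ofNat (nat_lit 0), .ofNat (nat_lit 304717), .ofNat (nat_lit 0), .ofNat (nat_lit 348304), .ofNat (nat_lit 0), .ofNat (nat_lit 305521), .ofNat (nat_lit 0), .ofNat (nat_lit 349427)⟩⟩, [⟨nat_lit 7, nat_lit 77, nat_lit 100, nat_lit 91, nat_lit 137433383⟩]⟩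
noncomputable def p087_l78 : Lf2 := ⟨nat_lit 0, nat_lit 20, [nat_lit 5, nat_lit 5, nat_lit 5, nat_lit 20], false, nat_lit 4, nat_lit 160, nat_lit 0, nat_lit 364, ⟨nat_lit 564, nat_lit 0, nat_lit 436, nat_lit 6, nat_lit 226, nat_lit 436, nat_lit 68, nat_lit 436, nat_lit 43350, nat_lit 266, nat_lit 29848, nat_lit 200, nat_lit 48499729, nat_lit 0, nat_lit 0, nat_lit 3651491, false, false⟩,
 nat_lit 0, nat_lit 5063, nat_lit 0, nat_lit 574, nat_lit 4252, nat_lit 5600, nat_lit 271, nat_lit 0, nat_lit 0, nat_lit 670, nat_lit 0, nat_lit 0, nat_lit 0, nat_lit 0, nat_lit 0, nat_lit 174400, nat_lit 0, nat_lit 0, [(nat_lit 22, [(nat_lit 5, nat_lit 436)])],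
 ⟨p087_k9, nat_lit 0, nat_lit 0, nat_lit 363, nat_lit 0, nat_lit 452465, [nat_lit 1571584000, nat_lit 2292441600, nat_lit 2933072000], [], [nat_lit 21923520077, nat_lit 22728769760, nat_lit 24463155494, nat_lit 25390783848, nat_lit 20479885494, nat_lit 20950159842, nat_lit 22052301363, nat_lit 22636364555], nat_lit 1271250, nat_lit 1271250, nat_lit 1100001, nat_lit 1785000, nat_lit 21650, nat_lit 1100001, [nat_lit 490000, nat_lit 1100000, nat_lit 1785000], [nat_lit 34, nat_lit 40, nat_lit 40, nat_lit 80, nat_lit 7, nat_lit 317, nat_lit 100, nat_lit 10]⟩, ⟨p087_k8, nat_lit 0, nat_lit 0, nat_lit 249, nat_lit 0, nat_lit 0, [nat_lit 2644032000, nat_lit 4493952000, nat_lit 7928712000], [], [nat_lit 15803665512, nat_lit 17287225416, nat_lit 16990518904, nat_lit 18187821832, nat_lit 15911882950, nat_lit 16455537350, nat_lit 16126298419, nat_lit 17297414218], nat_lit 0, nat_lit 0, nat_lit 0, nat_lit 0, nat_lit 0, nat_lit 0,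 [], [nat_lit 37, nat_lit 40, nat_lit 40, nat_lit 80, nat_lit 28, nat_lit 456, nat_lit 225, nat_lit 11]⟩,
 ⟨nat_lit 3162, nat_lit 3536, ⟨.ofNat (nat_lit 481116), .ofNat (nat_lit 606660), .ofNat (nat_lit 525005), .ofNat (nat_lit 650549), .ofNat (nat_lit 483329), .ofNat (nat_lit 605256), .ofNat (nat_lit 527622), .ofNat (nat_lit 649550)⟩, ⟨.ofNat (nat_lit 10000), .ofNat (nat_lit 305521), .ofNat (nat_lit 10000), .ofNat (nat_lit 349427), .ofNat (nat_lit 10000), .ofNat (nat_lit 306116), .ofNat (nat_lit 10000), .ofNat (nat_lit 350426)⟩⟩, [⟨nat_lit 7, nat_lit 77, nat_lit 100, nat_lit 91, nat_lit 108895249⟩]⟩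
noncomputable def b_V_800_600_20_37 : St := ⟨true, nat_lit 1, nat_lit 0, nat_lit 1, nat_lit 120, nat_lit 320, nat_lit 360, nat_lit 240, nat_lit 280, nat_lit 64, nat_lit 240, nat_lit 80, nat_lit 120, nat_lit 0, nat_lit 160, nat_lit 0, nat_lit 364, nat_lit 40, nat_lit 80, nat_lit 0, nat_lit 0, nat_lit 0, nat_lit 0⟩
theorem d_V_800_600_20_37 (h : EB TB.env) : Dead b_V_800_600_20_37 := chkB_sound0 h (T :=
(.spl (nat_lit 0) (nat_lit 340)
(.spl (nat_lit 2) (nat_lit 160)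
(.spl (nat_lit 4) (nat_lit 80)
(.spl (nat_lit 1) (nat_lit 260)
(.leaf p087_l69)
(.trZ (nat_lit 0) (nat_lit 100) (nat_lit 84) (nat_lit 85) (nat_lit 80) (.trX (nat_lit 19) (nat_lit 100) (nat_lit 69) (nat_lit 96) (nat_lit 352) (.spl (nat_lit 0) (nat_lit 330)
(.leaf p087_l70)
(.trZ (nat_lit 0) (nat_lit 100) (nat_lit 80) (nat_lit 89) (nat_lit 92) (.leaf p087_l71))))))
(.leaf p087_l72))
(.spl (nat_lit 0) (nat_lit 330)
(.leaf p087_l73)
(.leaf p087_l74)))
(.trZ (nat_lit 0) (nat_lit 100) (nat_lit 73) (nat_lit 85) (nat_lit 88) (.spl (nat_lit 2) (nat_lit 160)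
(.spl (nat_lit 1) (nat_lit 260)
(.leaf p087_l75)
(.trZ (nat_lit 0) (nat_lit 100) (nat_lit 75) (nat_lit 92) (nat_lit 104) (.trX (nat_lit 19) (nat_lit 100) (nat_lit 69) (nat_lit 96) (nat_lit 352) (.leaf p087_l76))))
(.spl (nat_lit 0) (nat_lit 350)
(.leaf p087_l77)
(.trZ (nat_lit 3) (nat_lit 100) (nat_lit 83) (nat_lit 25) (nat_lit 4) (.leaf p087_l78))))))) (by decide +kernel)
noncomputable def p087_l79 : Lf2 := ⟨nat_lit 0, nat_lit 20, [nat_lit 5, nat_lit 5, nat_lit 5, nat_lit 20], true, nat_lit 160, nat_lit 240, nat_lit 0, nat_lit 352, ⟨nat_lit 0, nat_lit 0, nat_lit 1000, nat_lit 6, nat_lit 167, nat_lit 1000, nat_lit 152, nat_lit 1000, nat_lit 141393, nat_lit 307, nat_lit 19328, nat_lit 248, nat_lit 48573261, nat_lit 0, nat_lit 0, nat_lit 4170778, false, false⟩,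
 nat_lit 0, nat_lit 3680, nat_lit 0, nat_lit 0, nat_lit 2759, nat_lit 0, nat_lit 28, nat_lit 0, nat_lit 0, nat_lit 0, nat_lit 0, nat_lit 0, nat_lit 0, nat_lit 0, nat_lit 129, nat_lit 400000, nat_lit 0, nat_lit 0, [(nat_lit 19, [(nat_lit 5, nat_lit 1000)])],
 ⟨p087_k3, nat_lit 0, nat_lit 0, nat_lit 191, nat_lit 0, nat_lit 231926, [nat_lit 1960800001, nat_lit 1629600001, nat_lit 268000000], [], [nat_lit 16355355790, nat_lit 16894286239, nat_lit 17271119169, nat_lit 17755320617, nat_lit 18449457752, nat_lit 18924911562, nat_lit 19240993318, nat_lit 19816030341], nat_lit 1271250, nat_lit 1271250, nat_lit 382400, nat_lit 1100001, nat_lit 1100001, nat_lit 1785000, [nat_lit 490000, nat_lit 1100000, nat_lit 2127500], [nat_lit 27, nat_lit 40, nat_lit 40, nat_lit 80, nat_lit 13, nat_lit 317, nat_lit 100, nat_lit 9]⟩, C1.Rw.none,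
 ⟨nat_lit 4183, nat_lit 4473, ⟨.ofNat (nat_lit 311996), .ofNat (nat_lit 475145), .ofNat (nat_lit 355120), .ofNat (nat_lit 518271), .ofNat (nat_lit 318053), .ofNat (nat_lit 477068), .ofNat (nat_lit 361378), .ofNat (nat_lit 520394)⟩, ⟨.ofNat (nat_lit 302621), .ofNat (nat_lit 438578), .ofNat (nat_lit 324188), .ofNat (nat_lit 460144), .ofNat (nat_lit 303743), .ofNat (nat_lit 436254), .ofNat (nat_lit 325409), .ofNat (nat_lit 457921)⟩⟩, [⟨nat_lit 0, nat_lit 100, nat_lit 83, nat_lit 98, nat_lit 13636591⟩]⟩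
noncomputable def p087_l80 : Lf2 := ⟨nat_lit 0, nat_lit 20, [nat_lit 5, nat_lit 5, nat_lit 5, nat_lit 20], true, nat_lit 160, nat_lit 240, nat_lit 0, nat_lit 352, ⟨nat_lit 0, nat_lit 0, nat_lit 1000, nat_lit 6, nat_lit 159, nat_lit 1000, nat_lit 152, nat_lit 1000, nat_lit 153600, nat_lit 311, nat_lit 153600, nat_lit 311, nat_lit 49202635, nat_lit 0, nat_lit 0, nat_lit 4086674, false, false⟩,
 nat_lit 0, nat_lit 4575, nat_lit 0, nat_lit 0, nat_lit 3566, nat_lit 0, nat_lit 0, nat_lit 0, nat_lit 0, nat_lit 0, nat_lit 0, nat_lit 0, nat_lit 0, nat_lit 0, nat_lit 113, nat_lit 348550, nat_lit 0, nat_lit 0, [(nat_lit 19, [(nat_lit 4, nat_lit 343), (nat_lit 5, nat_lit 657)])],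
 ⟨p087_k29, nat_lit 0, nat_lit 0, nat_lit 255, nat_lit 0, nat_lit 306899, [nat_lit 2360904801, nat_lit 248338400], [], [nat_lit 17463445251, nat_lit 18023750900, nat_lit 17632119106, nat_lit 18165516626, nat_lit 19426698480, nat_lit 20148504771, nat_lit 19507345992, nat_lit 20147759379], nat_lit 1271250, nat_lit 1271250, nat_lit 462650, nat_lit 780000, nat_lit 1100001, nat_lit 1785000, [nat_lit 490000, nat_lit 2052500], [nat_lit 94, nat_lit 40, nat_lit 40, nat_lit 80, nat_lit 95, nat_lit 317, nat_lit 100, nat_lit 9]⟩, C1.Rw.none,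
 ⟨nat_lit 3872, nat_lit 4184, ⟨.ofNat (nat_lit 337921), .ofNat (nat_lit 410806), .ofNat (nat_lit 381245), .ofNat (nat_lit 454130), .ofNat (nat_lit 343550), .ofNat (nat_lit 414527), .ofNat (nat_lit 387127), .ofNat (nat_lit 458104)⟩, ⟨.ofNat (nat_lit 303743), .ofNat (nat_lit 436254), .ofNat (nat_lit 325409), .ofNat (nat_lit 457921), .ofNat (nat_lit 304717), .ofNat (nat_lit 433760), .ofNat (nat_lit 326511), .ofNat (nat_lit 455554)⟩⟩, [⟨nat_lit 0, nat_lit 99, nat_lit 77, nat_lit 100, nat_lit 431970935⟩, ⟨nat_lit 4, nat_lit 100, nat_lit 76, nat_lit 86, nat_lit 151246057⟩]⟩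
noncomputable def p087_l81 : Lf2 := ⟨nat_lit 0, nat_lit 20, [nat_lit 5, nat_lit 5, nat_lit 5, nat_lit 20], false, nat_lit 160, nat_lit 240, nat_lit 0, nat_lit 352, ⟨nat_lit 33, nat_lit 0, nat_lit 967, nat_lit 6, nat_lit 187, nat_lit 967, nat_lit 152, nat_lit 967, nat_lit 153600, nat_lit 311, nat_lit 19642, nat_lit 247, nat_lit 46946154, nat_lit 0, nat_lit 0, nat_lit 4366021, false, false⟩,
 nat_lit 0, nat_lit 3778, nat_lit 0, nat_lit 0, nat_lit 2944, nat_lit 339, nat_lit 16, nat_lit 0, nat_lit 0, nat_lit 42, nat_lit 0, nat_lit 0, nat_lit 0, nat_lit 0, nat_lit 114, nat_lit 386800, nat_lit 0, nat_lit 0, [(nat_lit 19, [(nat_lit 5, nat_lit 967)])],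
 ⟨p087_k5, nat_lit 0, nat_lit 0, nat_lit 196, nat_lit 0, nat_lit 306899, [nat_lit 1877205601, nat_lit 1558639201, nat_lit 283138000], [], [nat_lit 17497023329, nat_lit 18024992256, nat_lit 18068544657, nat_lit 18564821425, nat_lit 19470216048, nat_lit 19956106640, nat_lit 19936420744, nat_lit 20482650483], nat_lit 1271250, nat_lit 1271250, nat_lit 780000, nat_lit 1100001, nat_lit 1100001, nat_lit 1785000, [nat_lit 490000, nat_lit 1100000, nat_lit 2127500], [nat_lit 27, nat_lit 40, nat_lit 40, nat_lit 80, nat_lit 13, nat_lit 317, nat_lit 100, nat_lit 8]⟩, ⟨p087_k8, nat_lit 0, nat_lit 0, nat_lit 263, nat_lit 0, nat_lit 0, [nat_lit 154704000, nat_lit 262944000, nat_lit 463914000], [], [nat_lit 915311556, nat_lit 1010368104, nat_lit 903269304, nat_lit 991722012, nat_lit 904122032, nat_lit 942232186, nat_lit 872061082, nat_lit 920454070], nat_lit 0, nat_lit 0, nat_lit 0, nat_lit 0, nat_lit 0, nat_lit 0, [], [nat_lit 37,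 nat_lit 40, nat_lit 40, nat_lit 80, nat_lit 28, nat_lit 428, nat_lit 200, nat_lit 10]⟩,
 ⟨nat_lit 3872, nat_lit 4184, ⟨.ofNat (nat_lit 410806), .ofNat (nat_lit 477065), .ofNat (nat_lit 454130), .ofNat (nat_lit 520388), .ofNat (nat_lit 414527), .ofNat (nat_lit 479052), .ofNat (nat_lit 458104), .ofNat (nat_lit 522628)⟩, ⟨.ofNat (nat_lit 303743), .ofNat (nat_lit 436254), .ofNat (nat_lit 325409), .ofNat (nat_lit 457921), .ofNat (nat_lit 304717), .ofNat (nat_lit 433760), .ofNat (nat_lit 326511), .ofNat (nat_lit 455554)⟩⟩, [⟨nat_lit 4, nat_lit 100, nat_lit 76, nat_lit 86, nat_lit 171932921⟩, ⟨nat_lit 7, nat_lit 81, nat_lit 100, nat_lit 88, nat_lit 6110441⟩]⟩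
noncomputable def p087_l82 : Lf2 := ⟨nat_lit 0, nat_lit 17, [nat_lit 172, nat_lit 5, nat_lit 5, nat_lit 20], true, nat_lit 160, nat_lit 240, nat_lit 0, nat_lit 364, ⟨nat_lit 0, nat_lit 0, nat_lit 1000, nat_lit 6, nat_lit 167, nat_lit 1000, nat_lit 161, nat_lit 1000, nat_lit 67907, nat_lit 278, nat_lit 19328, nat_lit 248, nat_lit 47902740, nat_lit 0, nat_lit 0, nat_lit 4265003, false, false⟩,
 nat_lit 0, nat_lit 3719, nat_lit 0, nat_lit 809, nat_lit 2789, nat_lit 0, nat_lit 25, nat_lit 0, nat_lit 0, nat_lit 0, nat_lit 0, nat_lit 0, nat_lit 0, nat_lit 0, nat_lit 129, nat_lit 400000, nat_lit 0, nat_lit 0, [(nat_lit 19, [(nat_lit 5, nat_lit 1000)])],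
 ⟨p087_k30, nat_lit 0, nat_lit 0, nat_lit 160, nat_lit 0, nat_lit 127554, [nat_lit 1960800001, nat_lit 1629600001, nat_lit 268000000], [], [nat_lit 16352146711, nat_lit 16893406822, nat_lit 17256465354, nat_lit 17742624962, nat_lit 18447300545, nat_lit 18946949181, nat_lit 19199261038, nat_lit 19776898971], nat_lit 1271250, nat_lit 1271250, nat_lit 382400, nat_lit 1100001, nat_lit 1100001, nat_lit 1785000, [nat_lit 490000, nat_lit 1100000, nat_lit 2127500], [nat_lit 27, nat_lit 40, nat_lit 40, nat_lit 80, nat_lit 13, nat_lit 317, nat_lit 100, nat_lit 9]⟩, C1.Rw.none,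
 ⟨nat_lit 4183, nat_lit 4473, ⟨.ofNat (nat_lit 311996), .ofNat (nat_lit 475145), .ofNat (nat_lit 355120), .ofNat (nat_lit 518271), .ofNat (nat_lit 318053), .ofNat (nat_lit 477068), .ofNat (nat_lit 361378), .ofNat (nat_lit 520394)⟩, ⟨.ofNat (nat_lit 324188), .ofNat (nat_lit 460144), .ofNat (nat_lit 345754), .ofNat (nat_lit 481711), .ofNat (nat_lit 325409), .ofNat (nat_lit 457921), .ofNat (nat_lit 347076), .ofNat (nat_lit 479587)⟩⟩, [⟨nat_lit 0, nat_lit 100, nat_lit 83, nat_lit 98, nat_lit 17403479⟩]⟩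
noncomputable def p087_l83 : Lf2 := ⟨nat_lit 0, nat_lit 17, [nat_lit 172, nat_lit 5, nat_lit 5, nat_lit 20], true, nat_lit 160, nat_lit 240, nat_lit 0, nat_lit 364, ⟨nat_lit 0, nat_lit 77, nat_lit 923, nat_lit 6, nat_lit 172, nat_lit 1000, nat_lit 161, nat_lit 923, nat_lit 71594, nat_lit 280, nat_lit 19642, nat_lit 247, nat_lit 47472164, nat_lit 10294284, nat_lit 9233552, nat_lit 4319717, false, false⟩,
 nat_lit 0, nat_lit 3563, nat_lit 0, nat_lit 0, nat_lit 2777, nat_lit 0, nat_lit 0, nat_lit 0, nat_lit 0, nat_lit 0, nat_lit 0, nat_lit 0, nat_lit 0, nat_lit 0, nat_lit 100, nat_lit 388450, nat_lit 0, nat_lit 0, [(nat_lit 19, [(nat_lit 0, nat_lit 77), (nat_lit 5, nat_lit 923)])],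
 ⟨p087_k31, nat_lit 0, nat_lit 0, nat_lit 154, nat_lit 0, nat_lit 206156, [nat_lit 1776047201, nat_lit 1602151600, nat_lit 54139867], [], [nat_lit 16568393913, nat_lit 17147095068, nat_lit 17608865347, nat_lit 18205424361, nat_lit 18916405646, nat_lit 19560720443, nat_lit 19939766340, nat_lit 20463643488], nat_lit 1271250, nat_lit 1271250, nat_lit 462650, nat_lit 1100001, nat_lit 1100001, nat_lit 1785000, [nat_lit 490000, nat_lit 1100000, nat_lit 1785000], [nat_lit 34, nat_lit 40, nat_lit 40, nat_lit 80, nat_lit 7, nat_lit 317, nat_lit 100, nat_lit 10]⟩, C1.Rw.none,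
 ⟨nat_lit 3872, nat_lit 4184, ⟨.ofNat (nat_lit 337921), .ofNat (nat_lit 477065), .ofNat (nat_lit 381245), .ofNat (nat_lit 520388), .ofNat (nat_lit 343550), .ofNat (nat_lit 479052), .ofNat (nat_lit 387127), .ofNat (nat_lit 522628)⟩, ⟨.ofNat (nat_lit 325409), .ofNat (nat_lit 457921), .ofNat (nat_lit 347076), .ofNat (nat_lit 479587), .ofNat (nat_lit 326511), .ofNat (nat_lit 455554), .ofNat (nat_lit 348304), .ofNat (nat_lit 477347)⟩⟩, []⟩
noncomputable def p087_l84 : Lf2 := ⟨nat_lit 1, nat_lit 20, [nat_lit 5, nat_lit 5, nat_lit 5, nat_lit 20], false, nat_lit 160, nat_lit 240, nat_lit 0, nat_lit 364, zbN0,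
 nat_lit 0, nat_lit 0, nat_lit 0, nat_lit 0, nat_lit 0, nat_lit 0, nat_lit 0, nat_lit 0, nat_lit 0, nat_lit 0, nat_lit 0, nat_lit 0, nat_lit 0, nat_lit 0, nat_lit 0, nat_lit 0, nat_lit 0, nat_lit 0, [],
 C1.Rw.none, C1.Rw.none,
 zbF0, []⟩
noncomputable def p087_l85 : Lf2 := ⟨nat_lit 0, nat_lit 18, [nat_lit 100, nat_lit 5, nat_lit 5, nat_lit 20], true, nat_lit 240, nat_lit 300, nat_lit 0, nat_lit 364, ⟨nat_lit 0, nat_lit 0, nat_lit 1000, nat_lit 6, nat_lit 163, nat_lit 1000, nat_lit 204, nat_lit 1000, nat_lit 1169, nat_lit 218, nat_lit 40413, nat_lit 263, nat_lit 44817857, nat_lit 0, nat_lit 0, nat_lit 4616708, false, false⟩,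
 nat_lit 0, nat_lit 3438, nat_lit 0, nat_lit 8399, nat_lit 2578, nat_lit 0, nat_lit 9, nat_lit 0, nat_lit 0, nat_lit 0, nat_lit 0, nat_lit 0, nat_lit 0, nat_lit 0, nat_lit 129, nat_lit 400000, nat_lit 0, nat_lit 0, [(nat_lit 19, [(nat_lit 5, nat_lit 1000)])],
 ⟨p087_k0, nat_lit 0, nat_lit 0, nat_lit 173, nat_lit 0, nat_lit 127540, [nat_lit 1960800001, nat_lit 1629600001, nat_lit 268000000], [], [nat_lit 18833356963, nat_lit 19297481983, nat_lit 19632209942, nat_lit 20052122940, nat_lit 21162931385, nat_lit 21773583093, nat_lit 22031580436, nat_lit 22528106342], nat_lit 1271250, nat_lit 1271250, nat_lit 382400, nat_lit 1100001, nat_lit 1271250, nat_lit 1271250, [nat_lit 490000, nat_lit 1100000, nat_lit 2127500], [nat_lit 27, nat_lit 40, nat_lit 40, nat_lit 80, nat_lit 13, nat_lit 345, nat_lit 125, nat_lit 9]⟩, C1.Rw.none,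
 ⟨nat_lit 4183, nat_lit 4473, ⟨.ofNat (nat_lit 311996), .ofNat (nat_lit 475145), .ofNat (nat_lit 333558), .ofNat (nat_lit 496708), .ofNat (nat_lit 318053), .ofNat (nat_lit 477068), .ofNat (nat_lit 339715), .ofNat (nat_lit 498731)⟩, ⟨.ofNat (nat_lit 438578), .ofNat (nat_lit 540545), .ofNat (nat_lit 481711), .ofNat (nat_lit 583678), .ofNat (nat_lit 436254), .ofNat (nat_lit 535637), .ofNat (nat_lit 479587), .ofNat (nat_lit 578971)⟩⟩, [⟨nat_lit 0, nat_lit 100, nat_lit 80, nat_lit 89, nat_lit 27780701⟩, ⟨nat_lit 4, nat_lit 100, nat_lit 84, nat_lit 93, nat_lit 302259700⟩]⟩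
noncomputable def p087_l86 : Lf2 := ⟨nat_lit 0, nat_lit 18, [nat_lit 100, nat_lit 5, nat_lit 5, nat_lit 20], true, nat_lit 240, nat_lit 288, nat_lit 0, nat_lit 364, ⟨nat_lit 0, nat_lit 246, nat_lit 754, nat_lit 6, nat_lit 168, nat_lit 1000, nat_lit 198, nat_lit 754, nat_lit 3485, nat_lit 228, nat_lit 35943, nat_lit 261, nat_lit 44857545, nat_lit 9632795, nat_lit 12509660, nat_lit 4627159, false, false⟩,
 nat_lit 0, nat_lit 3913, nat_lit 0, nat_lit 2303, nat_lit 3050, nat_lit 0, nat_lit 0, nat_lit 0, nat_lit 0, nat_lit 0, nat_lit 0, nat_lit 0, nat_lit 0, nat_lit 0, nat_lit 55, nat_lit 346150, nat_lit 0, nat_lit 0, [(nat_lit 19, [(nat_lit 0, nat_lit 246), (nat_lit 4, nat_lit 113), (nat_lit 5, nat_lit 641)])],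
 ⟨p087_k20, nat_lit 0, nat_lit 0, nat_lit 167, nat_lit 0, nat_lit 213097, [nat_lit 1586370400, nat_lit 1304693600, nat_lit 46567734], [], [nat_lit 19694946560, nat_lit 20222992544, nat_lit 20515882100, nat_lit 21028189200, nat_lit 21529610291, nat_lit 22198617394, nat_lit 22319183870, nat_lit 22786351140], nat_lit 1271250, nat_lit 1271250, nat_lit 462650, nat_lit 1100001, nat_lit 1271250, nat_lit 1271250, [nat_lit 490000, nat_lit 1100000, nat_lit 1785000], [nat_lit 34, nat_lit 40, nat_lit 40, nat_lit 80, nat_lit 7, nat_lit 249, nat_lit 40, nat_lit 7]⟩, C1.Rw.none,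
 ⟨nat_lit 3872, nat_lit 4184, ⟨.ofNat (nat_lit 337921), .ofNat (nat_lit 477065), .ofNat (nat_lit 359583), .ofNat (nat_lit 498726), .ofNat (nat_lit 343550), .ofNat (nat_lit 479052), .ofNat (nat_lit 365339), .ofNat (nat_lit 500840)⟩, ⟨.ofNat (nat_lit 436254), .ofNat (nat_lit 515761), .ofNat (nat_lit 479587), .ofNat (nat_lit 559094), .ofNat (nat_lit 433760), .ofNat (nat_lit 511186), .ofNat (nat_lit 477347), .ofNat (nat_lit 554773)⟩⟩, [⟨nat_lit 0, nat_lit 100, nat_lit 76, nat_lit 87, nat_lit 23298020⟩, ⟨nat_lit 16, nat_lit 83, nat_lit 98, nat_lit 100, nat_lit 100244219⟩, ⟨nat_lit 4, nat_lit 100, nat_lit 77, nat_lit 91, nat_lit 174742906⟩]⟩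
noncomputable def p087_l87 : Lf2 := ⟨nat_lit 1, nat_lit 20, [nat_lit 5, nat_lit 5, nat_lit 5, nat_lit 20], false, nat_lit 240, nat_lit 300, nat_lit 0, nat_lit 364, zbN0,
 nat_lit 0, nat_lit 0, nat_lit 0, nat_lit 0, nat_lit 0, nat_lit 0, nat_lit 0, nat_lit 0, nat_lit 0, nat_lit 0, nat_lit 0, nat_lit 0, nat_lit 0, nat_lit 0, nat_lit 0, nat_lit 0, nat_lit 0, nat_lit 0, [],
 C1.Rw.none, C1.Rw.none,
 zbF0, []⟩
noncomputable def p087_l88 : Lf2 := ⟨nat_lit 0, nat_lit 20, [nat_lit 5, nat_lit 5, nat_lit 5, nat_lit 20], false, nat_lit 240, nat_lit 300, nat_lit 0, nat_lit 160, ⟨nat_lit 1000, nat_lit 0, nat_lit 0, nat_lit 0, nat_lit 0, nat_lit 0, nat_lit 0, nat_lit 0, nat_lit 0, nat_lit 0, nat_lit 0, nat_lit 0, nat_lit 0, nat_lit 0, nat_lit 0, nat_lit 0, false, false⟩,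
 nat_lit 0, nat_lit 9285, nat_lit 0, nat_lit 16085, nat_lit 6963, nat_lit 8164, nat_lit 751, nat_lit 0, nat_lit 0, nat_lit 1733, nat_lit 0, nat_lit 0, nat_lit 0, nat_lit 0, nat_lit 0, nat_lit 0, nat_lit 0, nat_lit 0, [],
 ⟨p087_k3, nat_lit 0, nat_lit 0, nat_lit 260, nat_lit 0, nat_lit 332738, [nat_lit 2032000001, nat_lit 4688000000, nat_lit 9842000000], [], [nat_lit 22639110911, nat_lit 24022086543, nat_lit 22056151311, nat_lit 23214146665, nat_lit 25505084882, nat_lit 26901294855, nat_lit 24520988527, nat_lit 25930002831], nat_lit 1271250, nat_lit 1271250, nat_lit 490000, nat_lit 1100001, nat_lit 1271250, nat_lit 1271250, [nat_lit 490000, nat_lit 1100000, nat_lit 2127500], [nat_lit 27, nat_lit 40, nat_lit 40, nat_lit 80, nat_lit 13, nat_lit 345, nat_lit 125, nat_lit 9]⟩, ⟨p087_k4, nat_lit 0, nat_lit 0, nat_lit 235, nat_lit 0, nat_lit 0, [nat_lit 4688000000, nat_lit 7968000000, nat_lit 11872000000], [], [nat_lit 20186526359,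 nat_lit 21795235607, nat_lit 19401795767, nat_lit 20829962039, nat_lit 14616984696, nat_lit 16092794576, nat_lit 14849325248, nat_lit 16140775056], nat_lit 0, nat_lit 0, nat_lit 0, nat_lit 0, nat_lit 0, nat_lit 0, [], [nat_lit 21, nat_lit 40, nat_lit 40, nat_lit 80, nat_lit 14, nat_lit 373, nat_lit 150, nat_lit 10]⟩,
 zbF0, [⟨nat_lit 0, nat_lit 100, nat_lit 81, nat_lit 93, nat_lit 806066720⟩, ⟨nat_lit 4, nat_lit 100, nat_lit 81, nat_lit 92, nat_lit 641526695⟩]⟩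
noncomputable def p087_l89 : Lf2 := ⟨nat_lit 0, nat_lit 20, [nat_lit 5, nat_lit 5, nat_lit 5, nat_lit 20], false, nat_lit 240, nat_lit 300, nat_lit 160, nat_lit 352, ⟨nat_lit 1000, nat_lit 0, nat_lit 0, nat_lit 0, nat_lit 0, nat_lit 0, nat_lit 0, nat_lit 0, nat_lit 0, nat_lit 0, nat_lit 0, nat_lit 0, nat_lit 0, nat_lit 0, nat_lit 0, nat_lit 0, false, false⟩,
 nat_lit 0, nat_lit 8287, nat_lit 0, nat_lit 9319, nat_lit 6215, nat_lit 6238, nat_lit 916, nat_lit 0, nat_lit 0, nat_lit 0, nat_lit 0, nat_lit 0, nat_lit 0, nat_lit 0, nat_lit 0, nat_lit 0, nat_lit 0, nat_lit 0, [],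
 ⟨p087_k3, nat_lit 0, nat_lit 0, nat_lit 196, nat_lit 0, nat_lit 238404, [nat_lit 2032000001, nat_lit 4688000000, nat_lit 9842000000], [], [nat_lit 21152875540, nat_lit 21876047390, nat_lit 20752955640, nat_lit 21517879860, nat_lit 24363174060, nat_lit 25163874410, nat_lit 24087795505, nat_lit 24804330473], nat_lit 1271250, nat_lit 1271250, nat_lit 490000, nat_lit 1100001, nat_lit 1271250, nat_lit 1271250, [nat_lit 490000, nat_lit 1100000, nat_lit 2127500], [nat_lit 27, nat_lit 40, nat_lit 40, nat_lit 80, nat_lit 13, nat_lit 345, nat_lit 125, nat_lit 9]⟩, ⟨p087_k4, nat_lit 0, nat_lit 0, nat_lit 100, nat_lit 0, nat_lit 0, [nat_lit 4688000000, nat_lit 7968000000, nat_lit 11872000000], [], [nat_lit 11303988084, nat_lit 13143664768, nat_lit 12506378336, nat_lit 14131123248, nat_lit 24658063816, nat_lit 25835136296, nat_lit 24351016909, nat_lit 25280365506], nat_lit 0, nat_lit 0, nat_lit 0, nat_lit 0, nat_lit 0, nat_lit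 0, [], [nat_lit 21, nat_lit 40, nat_lit 40, nat_lit 80, nat_lit 14, nat_lit 428, nat_lit 200, nat_lit 11]⟩,
 zbF0, [⟨nat_lit 0, nat_lit 100, nat_lit 83, nat_lit 92, nat_lit 460566942⟩, ⟨nat_lit 4, nat_lit 100, nat_lit 84, nat_lit 93, nat_lit 376465094⟩, ⟨nat_lit 7, nat_lit 82, nat_lit 100, nat_lit 92, nat_lit 246552252⟩, ⟨nat_lit 23, nat_lit 100, nat_lit 74, nat_lit 98, nat_lit 301853897⟩]⟩
noncomputable def p087_l90 : Lf2 := ⟨nat_lit 0, nat_lit 20, [nat_lit 5, nat_lit 5, nat_lit 5, nat_lit 20], false, nat_lit 240, nat_lit 288, nat_lit 160, nat_lit 352, ⟨nat_lit 1000, nat_lit 0, nat_lit 0, nat_lit 0, nat_lit 0, nat_lit 0, nat_lit 0, nat_lit 0, nat_lit 0, nat_lit 0, nat_lit 0, nat_lit 0, nat_lit 0, nat_lit 0, nat_lit 0, nat_lit 0, false, false⟩,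
 nat_lit 0, nat_lit 7545, nat_lit 0, nat_lit 9224, nat_lit 5881, nat_lit 6312, nat_lit 865, nat_lit 0, nat_lit 0, nat_lit 0, nat_lit 0, nat_lit 0, nat_lit 0, nat_lit 0, nat_lit 0, nat_lit 0, nat_lit 0, nat_lit 0, [],
 ⟨p087_k5, nat_lit 0, nat_lit 0, nat_lit 215, nat_lit 0, nat_lit 315401, [nat_lit 2032000001, nat_lit 4688000000, nat_lit 9842000000], [], [nat_lit 21703209482, nat_lit 22286759180, nat_lit 21511813218, nat_lit 22186589162, nat_lit 23836276512, nat_lit 24768564562, nat_lit 23671051899, nat_lit 24477058762], nat_lit 1271250, nat_lit 1271250, nat_lit 573850, nat_lit 1100001, nat_lit 1271250, nat_lit 1271250, [nat_lit 490000, nat_lit 1100000, nat_lit 2127500], [nat_lit 27, nat_lit 40, nat_lit 40, nat_lit 80, nat_lit 13, nat_lit 345, nat_lit 125, nat_lit 9]⟩, ⟨p087_k4, nat_lit 0, nat_lit 0, nat_lit 94, nat_lit 0, nat_lit 0, [nat_lit 4688000000, nat_lit 7968000000, nat_lit 11872000000], [], [nat_lit 11260451100,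 nat_lit 13083601540, nat_lit 12392009264, nat_lit 14027959552, nat_lit 24493248681, nat_lit 25693202259, nat_lit 24307731792, nat_lit 25241544455], nat_lit 0, nat_lit 0, nat_lit 0, nat_lit 0, nat_lit 0, nat_lit 0, [], [nat_lit 21, nat_lit 40, nat_lit 40, nat_lit 80, nat_lit 14, nat_lit 428, nat_lit 200, nat_lit 11]⟩,
 zbF0, [⟨nat_lit 0, nat_lit 100, nat_lit 79, nat_lit 95, nat_lit 528288331⟩, ⟨nat_lit 4, nat_lit 100, nat_lit 77, nat_lit 91, nat_lit 421572796⟩, ⟨nat_lit 7, nat_lit 82, nat_lit 100, nat_lit 92, nat_lit 306840053⟩, ⟨nat_lit 23, nat_lit 100, nat_lit 68, nat_lit 98, nat_lit 248707901⟩]⟩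
noncomputable def p087_l91 : Lf2 := ⟨nat_lit 0, nat_lit 20, [nat_lit 5, nat_lit 5, nat_lit 5, nat_lit 20], true, nat_lit 160, nat_lit 276, nat_lit 0, nat_lit 364, ⟨nat_lit 0, nat_lit 159, nat_lit 841, nat_lit 6, nat_lit 173, nat_lit 1000, nat_lit 168, nat_lit 841, nat_lit 13749, nat_lit 240, nat_lit 32267, nat_lit 259, nat_lit 46864127, nat_lit 10335816, nat_lit 9800057, nat_lit 4400152, false, false⟩,
 nat_lit 0, nat_lit 4163, nat_lit 0, nat_lit 0, nat_lit 3369, nat_lit 0, nat_lit 0, nat_lit 0, nat_lit 0, nat_lit 0, nat_lit 0, nat_lit 0, nat_lit 0, nat_lit 0, nat_lit 66, nat_lit 260950, nat_lit 0, nat_lit 0, [(nat_lit 22, [(nat_lit 0, nat_lit 159), (nat_lit 4, nat_lit 768), (nat_lit 5, nat_lit 73)])],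
 ⟨p087_k7, nat_lit 0, nat_lit 0, nat_lit 186, nat_lit 0, nat_lit 290296, [nat_lit 1993801600, nat_lit 993766801, nat_lit 40177467], [], [nat_lit 18221175030, nat_lit 18805978584, nat_lit 19015166011, nat_lit 19549267829, nat_lit 21922834365, nat_lit 22554767001, nat_lit 22670279000, nat_lit 23219027377], nat_lit 1271250, nat_lit 1271250, nat_lit 545600, nat_lit 1100001, nat_lit 1100001, nat_lit 2093250, [nat_lit 490000, nat_lit 1100000, nat_lit 1785000], [nat_lit 34, nat_lit 40, nat_lit 40, nat_lit 80, nat_lit 7, nat_lit 345, nat_lit 125, nat_lit 11]⟩, C1.Rw.none,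
 ⟨nat_lit 3535, nat_lit 3873, ⟨.ofNat (nat_lit 362897), .ofNat (nat_lit 479046), .ofNat (nat_lit 384684), .ofNat (nat_lit 500833), .ofNat (nat_lit 368144), .ofNat (nat_lit 481125), .ofNat (nat_lit 390090), .ofNat (nat_lit 503072)⟩, ⟨.ofNat (nat_lit 304717), .ofNat (nat_lit 491830), .ofNat (nat_lit 348304), .ofNat (nat_lit 535416), .ofNat (nat_lit 305521), .ofNat (nat_lit 487529), .ofNat (nat_lit 349427), .ofNat (nat_lit 531435)⟩⟩, [⟨nat_lit 0, nat_lit 100, nat_lit 69, nat_lit 96, nat_lit 8905267⟩, ⟨nat_lit 4, nat_lit 100, nat_lit 71, nat_lit 89, nat_lit 263882136⟩]⟩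
noncomputable def p087_l92 : Lf2 := ⟨nat_lit 0, nat_lit 20, [nat_lit 5, nat_lit 5, nat_lit 5, nat_lit 20], true, nat_lit 160, nat_lit 264, nat_lit 0, nat_lit 364, ⟨nat_lit 0, nat_lit 301, nat_lit 699, nat_lit 6, nat_lit 179, nat_lit 1000, nat_lit 163, nat_lit 699, nat_lit 25644, nat_lit 253, nat_lit 32879, nat_lit 258, nat_lit 46782719, nat_lit 10823353, nat_lit 9393928, nat_lit 4406355, false, false⟩,
 nat_lit 0, nat_lit 3591, nat_lit 0, nat_lit 0, nat_lit 3016, nat_lit 0, nat_lit 0, nat_lit 0, nat_lit 0, nat_lit 0, nat_lit 0, nat_lit 0, nat_lit 0, nat_lit 0, nat_lit 71, nat_lit 354850, nat_lit 0, nat_lit 0, [(nat_lit 22, [(nat_lit 0, nat_lit 301), (nat_lit 5, nat_lit 699)])],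
 ⟨p087_k9, nat_lit 0, nat_lit 0, nat_lit 242, nat_lit 0, nat_lit 364456, [nat_lit 1722192001, nat_lit 1165537200, nat_lit 47502000], [], [nat_lit 18813300422, nat_lit 19362947538, nat_lit 19545460570, nat_lit 20055444722, nat_lit 21675740032, nat_lit 22348783409, nat_lit 22410518954, nat_lit 22947016397], nat_lit 1271250, nat_lit 1271250, nat_lit 631250, nat_lit 1100001, nat_lit 1100001, nat_lit 1990500, [nat_lit 490000, nat_lit 1100000, nat_lit 1785000], [nat_lit 34, nat_lit 40, nat_lit 40, nat_lit 80, nat_lit 7, nat_lit 345, nat_lit 125, nat_lit 10]⟩, C1.Rw.none,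
 ⟨nat_lit 3162, nat_lit 3536, ⟨.ofNat (nat_lit 386958), .ofNat (nat_lit 481116), .ofNat (nat_lit 408903), .ofNat (nat_lit 503061), .ofNat (nat_lit 391883), .ofNat (nat_lit 483329), .ofNat (nat_lit 414030), .ofNat (nat_lit 505476)⟩, ⟨.ofNat (nat_lit 305521), .ofNat (nat_lit 468701), .ofNat (nat_lit 349427), .ofNat (nat_lit 512606), .ofNat (nat_lit 306116), .ofNat (nat_lit 464594), .ofNat (nat_lit 350426), .ofNat (nat_lit 508904)⟩⟩, [⟨nat_lit 16, nat_lit 69, nat_lit 100, nat_lit 96, nat_lit 157067307⟩, ⟨nat_lit 4, nat_lit 100, nat_lit 64, nat_lit 88, nat_lit 71866272⟩]⟩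
noncomputable def p087_l93 : Lf2 := ⟨nat_lit 0, nat_lit 20, [nat_lit 5, nat_lit 5, nat_lit 5, nat_lit 20], false, nat_lit 160, nat_lit 276, nat_lit 0, nat_lit 160, ⟨nat_lit 1000, nat_lit 0, nat_lit 0, nat_lit 0, nat_lit 0, nat_lit 0, nat_lit 0, nat_lit 0, nat_lit 0, nat_lit 0, nat_lit 0, nat_lit 0, nat_lit 0, nat_lit 0, nat_lit 0, nat_lit 0, false, false⟩,
 nat_lit 0, nat_lit 6567, nat_lit 0, nat_lit 15072, nat_lit 5316, nat_lit 8193, nat_lit 700, nat_lit 0, nat_lit 0, nat_lit 1736, nat_lit 0, nat_lit 0, nat_lit 0, nat_lit 0, nat_lit 0, nat_lit 0, nat_lit 0, nat_lit 0, [],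
 ⟨p087_k7, nat_lit 0, nat_lit 0, nat_lit 277, nat_lit 0, nat_lit 475852, [nat_lit 2032000001, nat_lit 4688000000, nat_lit 7968000000], [], [nat_lit 20441873043, nat_lit 21825664630, nat_lit 20726659532, nat_lit 22004090300, nat_lit 23768318309, nat_lit 25151611358, nat_lit 23763661781, nat_lit 25089135405], nat_lit 1271250, nat_lit 1271250, nat_lit 660400, nat_lit 1100001, nat_lit 1100001, nat_lit 2093250, [nat_lit 490000, nat_lit 1100000, nat_lit 1785000], [nat_lit 34, nat_lit 40, nat_lit 40, nat_lit 80, nat_lit 7, nat_lit 345, nat_lit 125, nat_lit 10]⟩, ⟨p087_k4, nat_lit 0, nat_lit 0, nat_lit 221, nat_lit 0, nat_lit 0, [nat_lit 4688000000, nat_lit 7968000000, nat_lit 11872000000], [], [nat_lit 19630423884, nat_lit 21195307012, nat_lit 19385487504, nat_lit 20818392148, nat_lit 14401846853, nat_lit 15829484052, nat_lit 14781011176, nat_lit 16075015072], nat_lit 0, nat_lit 0, nat_lit 0, nat_lit 0, nat_lit 0, nat_lit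 0, [], [nat_lit 21, nat_lit 40, nat_lit 40, nat_lit 80, nat_lit 14, nat_lit 373, nat_lit 150, nat_lit 10]⟩,
 zbF0, [⟨nat_lit 0, nat_lit 100, nat_lit 71, nat_lit 100, nat_lit 785603907⟩, ⟨nat_lit 4, nat_lit 100, nat_lit 67, nat_lit 88, nat_lit 587912186⟩]⟩
noncomputable def p087_l94 : Lf2 := ⟨nat_lit 0, nat_lit 20, [nat_lit 5, nat_lit 5, nat_lit 5, nat_lit 20], false, nat_lit 160, nat_lit 276, nat_lit 160, nat_lit 352, ⟨nat_lit 1000, nat_lit 0, nat_lit 0, nat_lit 0, nat_lit 0, nat_lit 0, nat_lit 0, nat_lit 0, nat_lit 0, nat_lit 0, nat_lit 0, nat_lit 0, nat_lit 0, nat_lit 0, nat_lit 0, nat_lit 0, false, false⟩,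
 nat_lit 0, nat_lit 6537, nat_lit 0, nat_lit 7478, nat_lit 5291, nat_lit 6360, nat_lit 710, nat_lit 0, nat_lit 0, nat_lit 0, nat_lit 0, nat_lit 0, nat_lit 0, nat_lit 0, nat_lit 0, nat_lit 0, nat_lit 0, nat_lit 0, [],
 ⟨p087_k7, nat_lit 0, nat_lit 0, nat_lit 277, nat_lit 0, nat_lit 475852, [nat_lit 2032000001, nat_lit 4688000000, nat_lit 7968000000], [], [nat_lit 20369123633, nat_lit 21749339240, nat_lit 20658061982, nat_lit 21932301550, nat_lit 23692598050, nat_lit 25127250181, nat_lit 23693630983, nat_lit 25070828585], nat_lit 1271250, nat_lit 1271250, nat_lit 660400, nat_lit 1100001, nat_lit 1100001, nat_lit 2093250, [nat_lit 490000, nat_lit 1100000, nat_lit 1785000], [nat_lit 34, nat_lit 40, nat_lit 40, nat_lit 80, nat_lit 7, nat_lit 345, nat_lit 125, nat_lit 10]⟩, ⟨p087_k4, nat_lit 0, nat_lit 0, nat_lit 87, nat_lit 0, nat_lit 0, [nat_lit 4688000000, nat_lit 7968000000, nat_lit 11872000000], [], [nat_lit 11250241072,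 nat_lit 13051858592, nat_lit 12317823920, nat_lit 13961042560, nat_lit 24329484897, nat_lit 25516978874, nat_lit 24279654960, nat_lit 25256594689], nat_lit 0, nat_lit 0, nat_lit 0, nat_lit 0, nat_lit 0, nat_lit 0, [], [nat_lit 21, nat_lit 40, nat_lit 40, nat_lit 80, nat_lit 14, nat_lit 428, nat_lit 200, nat_lit 11]⟩,
 zbF0, [⟨nat_lit 0, nat_lit 100, nat_lit 71, nat_lit 100, nat_lit 762945334⟩, ⟨nat_lit 16, nat_lit 77, nat_lit 100, nat_lit 99, nat_lit 458046783⟩, ⟨nat_lit 19, nat_lit 100, nat_lit 69, nat_lit 96, nat_lit 566488900⟩]⟩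
noncomputable def p087_l95 : Lf2 := ⟨nat_lit 0, nat_lit 20, [nat_lit 5, nat_lit 5, nat_lit 5, nat_lit 20], false, nat_lit 160, nat_lit 300, nat_lit 0, nat_lit 160, ⟨nat_lit 1000, nat_lit 0, nat_lit 0, nat_lit 0, nat_lit 0, nat_lit 0, nat_lit 0, nat_lit 0, nat_lit 0, nat_lit 0, nat_lit 0, nat_lit 0, nat_lit 0, nat_lit 0, nat_lit 0, nat_lit 0, false, false⟩,
 nat_lit 0, nat_lit 9336, nat_lit 0, nat_lit 1714, nat_lit 7002, nat_lit 6621, nat_lit 694, nat_lit 0, nat_lit 0, nat_lit 1322, nat_lit 0, nat_lit 0, nat_lit 0, nat_lit 0, nat_lit 0, nat_lit 0, nat_lit 0, nat_lit 0, [],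
 ⟨p087_k3, nat_lit 0, nat_lit 0, nat_lit 323, nat_lit 0, nat_lit 528751, [nat_lit 2032000001, nat_lit 4688000000, nat_lit 9842000000], [], [nat_lit 20932848310, nat_lit 23646810238, nat_lit 22556076294, nat_lit 25141983582, nat_lit 25067316958, nat_lit 27778459096, nat_lit 26177155250, nat_lit 29277021096], nat_lit 1271250, nat_lit 1271250, nat_lit 1100001, nat_lit 1785000, nat_lit 1100001, nat_lit 2298750, [nat_lit 490000, nat_lit 1100000, nat_lit 2127500], [nat_lit 27, nat_lit 40, nat_lit 40, nat_lit 80, nat_lit 13, nat_lit 373, nat_lit 150, nat_lit 10]⟩, ⟨p087_k8, nat_lit 0, nat_lit 0, nat_lit 249, nat_lit 0, nat_lit 0, [nat_lit 4688000000, nat_lit 7968000000, nat_lit 14058000000], [], [nat_lit 24776802060, nat_lit 26926299040, nat_lit 26870050136, nat_lit 28656416740, nat_lit 20637706800, nat_lit 22235735584, nat_lit 22649136548, nat_lit 24575846424], nat_lit 0, nat_lit 0, nat_lit 0, nat_lit 0, nat_lit 0, nat_lit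 0, [], [nat_lit 37, nat_lit 40, nat_lit 40, nat_lit 80, nat_lit 28, nat_lit 401, nat_lit 175, nat_lit 9]⟩,
 zbF0, [⟨nat_lit 4, nat_lit 100, nat_lit 74, nat_lit 90, nat_lit 551497852⟩]⟩
noncomputable def p087_l96 : Lf2 := ⟨nat_lit 0, nat_lit 20, [nat_lit 5, nat_lit 5, nat_lit 5, nat_lit 20], false, nat_lit 160, nat_lit 300, nat_lit 160, nat_lit 364, ⟨nat_lit 1000, nat_lit 0, nat_lit 0, nat_lit 0, nat_lit 0, nat_lit 0, nat_lit 0, nat_lit 0, nat_lit 0, nat_lit 0, nat_lit 0, nat_lit 0, nat_lit 0, nat_lit 0, nat_lit 0, nat_lit 0, false, false⟩,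
 nat_lit 0, nat_lit 8631, nat_lit 0, nat_lit 1203, nat_lit 6473, nat_lit 6182, nat_lit 787, nat_lit 0, nat_lit 0, nat_lit 0, nat_lit 0, nat_lit 0, nat_lit 0, nat_lit 0, nat_lit 0, nat_lit 0, nat_lit 0, nat_lit 0, [],
 ⟨p087_k3, nat_lit 0, nat_lit 0, nat_lit 323, nat_lit 0, nat_lit 528751, [nat_lit 2032000001, nat_lit 4688000000, nat_lit 9842000000], [], [nat_lit 20964794184, nat_lit 23532425287, nat_lit 22574455531, nat_lit 24803659399, nat_lit 24768025638, nat_lit 27335925204, nat_lit 26243482701, nat_lit 28869136704], nat_lit 1271250, nat_lit 1271250, nat_lit 1100001, nat_lit 1785000, nat_lit 1100001, nat_lit 2298750, [nat_lit 490000, nat_lit 1100000, nat_lit 2127500], [nat_lit 27, nat_lit 40, nat_lit 40, nat_lit 80, nat_lit 13, nat_lit 373, nat_lit 150, nat_lit 10]⟩, ⟨p087_k8, nat_lit 0, nat_lit 0, nat_lit 74, nat_lit 0, nat_lit 0, [nat_lit 4688000000, nat_lit 7968000000, nat_lit 14058000000], [], [nat_lit 10976662736,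 nat_lit 14209193072, nat_lit 14983061568, nat_lit 17675372840, nat_lit 24486068670, nat_lit 26246737801, nat_lit 26271157034, nat_lit 27938815539], nat_lit 0, nat_lit 0, nat_lit 0, nat_lit 0, nat_lit 0, nat_lit 0, [], [nat_lit 37, nat_lit 40, nat_lit 40, nat_lit 80, nat_lit 28, nat_lit 456, nat_lit 225, nat_lit 10]⟩,
 zbF0, [⟨nat_lit 4, nat_lit 100, nat_lit 74, nat_lit 90, nat_lit 533709536⟩, ⟨nat_lit 19, nat_lit 100, nat_lit 59, nat_lit 94, nat_lit 142756533⟩, ⟨nat_lit 7, nat_lit 77, nat_lit 100, nat_lit 91, nat_lit 435250501⟩]⟩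
noncomputable def b_V_800_600_20_38 : St := ⟨true, nat_lit 1, nat_lit 0, nat_lit 1, nat_lit 120, nat_lit 320, nat_lit 360, nat_lit 240, nat_lit 280, nat_lit 64, nat_lit 240, nat_lit 80, nat_lit 120, nat_lit 160, nat_lit 300, nat_lit 0, nat_lit 364, nat_lit 40, nat_lit 80, nat_lit 0, nat_lit 0, nat_lit 0, nat_lit 0⟩
theorem d_V_800_600_20_38 (h : EB TB.env) : Dead b_V_800_600_20_38 := chkB_sound0 h (T :=
(.spl (nat_lit 2) (nat_lit 160)
(.spl (nat_lit 0) (nat_lit 340)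
(.spl (nat_lit 4) (nat_lit 240)
(.spl (nat_lit 3) (nat_lit 100)
(.trX (nat_lit 19) (nat_lit 100) (nat_lit 68) (nat_lit 88) (nat_lit 352) (.spl (nat_lit 0) (nat_lit 330)
(.leaf p087_l79)
(.trZ (nat_lit 0) (nat_lit 100) (nat_lit 78) (nat_lit 81) (nat_lit 76) (.spl (nat_lit 2) (nat_lit 120)
(.leaf p087_l80)
(.leaf p087_l81)))))
(.spl (nat_lit 6) (nat_lit 68)
(.spl (nat_lit 0) (nat_lit 330)
(.leaf p087_l82)
(.trZ (nat_lit 0) (nat_lit 100) (nat_lit 78) (nat_lit 81) (nat_lit 76) (.leaf p087_l83)))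
(.leaf p087_l84)))
(.spl (nat_lit 1) (nat_lit 260)
(.spl (nat_lit 6) (nat_lit 72)
(.spl (nat_lit 0) (nat_lit 330)
(.leaf p087_l85)
(.trZ (nat_lit 0) (nat_lit 100) (nat_lit 78) (nat_lit 81) (nat_lit 76) (.trX (nat_lit 16) (nat_lit 83) (nat_lit 98) (nat_lit 100) (nat_lit 288) (.leaf p087_l86))))
(.leaf p087_l87))
(.trZ (nat_lit 0) (nat_lit 100) (nat_lit 84) (nat_lit 85) (nat_lit 80) (.trX (nat_lit 19) (nat_lit 100) (nat_lit 69) (nat_lit 96) (nat_lit 352) (.spl (nat_lit 5) (nat_lit 160)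
(.leaf p087_l88)
(.spl (nat_lit 0) (nat_lit 330)
(.leaf p087_l89)
(.trZ (nat_lit 0) (nat_lit 100) (nat_lit 80) (nat_lit 89) (nat_lit 92) (.trX (nat_lit 16) (nat_lit 83) (nat_lit 98) (nat_lit 100) (nat_lit 288) (.leaf p087_l90)))))))))
(.trZ (nat_lit 0) (nat_lit 100) (nat_lit 73) (nat_lit 85) (nat_lit 88) (.trX (nat_lit 16) (nat_lit 77) (nat_lit 100) (nat_lit 99) (nat_lit 276) (.spl (nat_lit 1) (nat_lit 260)
(.spl (nat_lit 0) (nat_lit 350)
(.leaf p087_l91)
(.trZ (nat_lit 0) (nat_lit 100) (nat_lit 68) (nat_lit 89) (nat_lit 100) (.trX (nat_lit 16) (nat_lit 69) (nat_lit 100) (nat_lit 96) (nat_lit 264) (.leaf p087_l92))))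
(.trZ (nat_lit 0) (nat_lit 100) (nat_lit 75) (nat_lit 92) (nat_lit 104) (.trX (nat_lit 19) (nat_lit 100) (nat_lit 69) (nat_lit 96) (nat_lit 352) (.spl (nat_lit 5) (nat_lit 160)
(.leaf p087_l93)
(.leaf p087_l94))))))))
(.spl (nat_lit 5) (nat_lit 160)
(.leaf p087_l95)
(.leaf p087_l96)))) (by decide +kernel)
noncomputable def p087_l97 : Lf2 := ⟨nat_lit 0, nat_lit 20, [nat_lit 5, nat_lit 5, nat_lit 5, nat_lit 20], false, nat_lit 0, nat_lit 300, nat_lit 0, nat_lit 160, ⟨nat_lit 1000, nat_lit 0, nat_lit 0, nat_lit 0, nat_lit 0, nat_lit 0, nat_lit 0, nat_lit 0, nat_lit 0, nat_lit 0, nat_lit 0, nat_lit 0, nat_lit 0, nat_lit 0, nat_lit 0, nat_lit 0, false, false⟩,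
 nat_lit 0, nat_lit 8475, nat_lit 0, nat_lit 0, nat_lit 6356, nat_lit 6392, nat_lit 555, nat_lit 0, nat_lit 0, nat_lit 1100, nat_lit 0, nat_lit 0, nat_lit 0, nat_lit 0, nat_lit 0, nat_lit 0, nat_lit 0, nat_lit 0, [],
 ⟨p087_k3, nat_lit 0, nat_lit 0, nat_lit 437, nat_lit 0, nat_lit 528751, [nat_lit 2032000001, nat_lit 4688000000, nat_lit 9842000000], [], [nat_lit 31072459831, nat_lit 32925824503, nat_lit 38649794263, nat_lit 41495679720, nat_lit 29916559959, nat_lit 31078724131, nat_lit 34380519637, nat_lit 36219107951], nat_lit 1271250, nat_lit 1271250, nat_lit 1271250, nat_lit 1271250, nat_lit 0, nat_lit 2118750, [nat_lit 490000, nat_lit 1100000, nat_lit 2127500], [nat_lit 27, nat_lit 40, nat_lit 40, nat_lit 80, nat_lit 13, nat_lit 401, nat_lit 175, nat_lit 11]⟩, ⟨p087_k8, nat_lit 0, nat_lit 0, nat_lit 278, nat_lit 0, nat_lit 0, [nat_lit 4688000000, nat_lit 7968000000, nat_lit 14058000000], [], [nat_lit 28954634672,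 nat_lit 30717706480, nat_lit 37719464647, nat_lit 38631890365, nat_lit 24760875024, nat_lit 26031774096, nat_lit 32022707604, nat_lit 33100785722], nat_lit 0, nat_lit 0, nat_lit 0, nat_lit 0, nat_lit 0, nat_lit 0, [], [nat_lit 37, nat_lit 40, nat_lit 40, nat_lit 80, nat_lit 28, nat_lit 456, nat_lit 225, nat_lit 10]⟩,
 zbF0, [⟨nat_lit 4, nat_lit 100, nat_lit 74, nat_lit 90, nat_lit 139150983⟩]⟩
noncomputable def p087_l98 : Lf2 := ⟨nat_lit 0, nat_lit 20, [nat_lit 5, nat_lit 5, nat_lit 5, nat_lit 20], false, nat_lit 0, nat_lit 300, nat_lit 160, nat_lit 364, ⟨nat_lit 1000, nat_lit 0, nat_lit 0, nat_lit 0, nat_lit 0, nat_lit 0, nat_lit 0, nat_lit 0, nat_lit 0, nat_lit 0, nat_lit 0, nat_lit 0, nat_lit 0, nat_lit 0, nat_lit 0, nat_lit 0, false, false⟩,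
 nat_lit 0, nat_lit 8349, nat_lit 0, nat_lit 0, nat_lit 6261, nat_lit 6019, nat_lit 619, nat_lit 0, nat_lit 0, nat_lit 0, nat_lit 0, nat_lit 0, nat_lit 0, nat_lit 0, nat_lit 0, nat_lit 0, nat_lit 0, nat_lit 0, [],
 ⟨p087_k3, nat_lit 0, nat_lit 0, nat_lit 437, nat_lit 0, nat_lit 528751, [nat_lit 2032000001, nat_lit 4688000000, nat_lit 9842000000], [], [nat_lit 30692819611, nat_lit 32533367643, nat_lit 38387872575, nat_lit 41210682570, nat_lit 29632049129, nat_lit 30790390933, nat_lit 34271491756, nat_lit 36098608203], nat_lit 1271250, nat_lit 1271250, nat_lit 1271250, nat_lit 1271250, nat_lit 0, nat_lit 2118750, [nat_lit 490000, nat_lit 1100000, nat_lit 2127500], [nat_lit 27, nat_lit 40, nat_lit 40, nat_lit 80, nat_lit 13, nat_lit 401, nat_lit 175, nat_lit 11]⟩, ⟨p087_k8, nat_lit 0, nat_lit 0, nat_lit 100, nat_lit 0, nat_lit 0, [nat_lit 4688000000, nat_lit 7968000000, nat_lit 14058000000], [], [nat_lit 15216375856,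 nat_lit 17870871780, nat_lit 27285332246, nat_lit 29014956821, nat_lit 26363450112, nat_lit 27820695893, nat_lit 34524751570, nat_lit 35416298216], nat_lit 0, nat_lit 0, nat_lit 0, nat_lit 0, nat_lit 0, nat_lit 0, [], [nat_lit 37, nat_lit 40, nat_lit 40, nat_lit 80, nat_lit 28, nat_lit 538, nat_lit 300, nat_lit 12]⟩,
 zbF0, [⟨nat_lit 4, nat_lit 100, nat_lit 74, nat_lit 90, nat_lit 146947586⟩, ⟨nat_lit 7, nat_lit 77, nat_lit 100, nat_lit 91, nat_lit 430904631⟩]⟩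
noncomputable def b_V_800_600_20_39 : St := ⟨true, nat_lit 1, nat_lit 0, nat_lit 1, nat_lit 120, nat_lit 320, nat_lit 360, nat_lit 240, nat_lit 280, nat_lit 240, nat_lit 396, nat_lit 80, nat_lit 120, nat_lit 0, nat_lit 300, nat_lit 0, nat_lit 364, nat_lit 40, nat_lit 80, nat_lit 0, nat_lit 0, nat_lit 0, nat_lit 0⟩
theorem d_V_800_600_20_39 (h : EB TB.env) : Dead b_V_800_600_20_39 := chkB_sound0 h (T :=
(.spl (nat_lit 5) (nat_lit 160)
(.leaf p087_l97)
(.leaf p087_l98))) (by decide +kernel)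
noncomputable def p087_l99 : Lf2 := ⟨nat_lit 0, nat_lit 20, [nat_lit 5, nat_lit 5, nat_lit 5, nat_lit 20], false, nat_lit 0, nat_lit 160, nat_lit 0, nat_lit 364, ⟨nat_lit 0, nat_lit 0, nat_lit 1000, nat_lit 6, nat_lit 154, nat_lit 556, nat_lit 65, nat_lit 1000, nat_lit 40017, nat_lit 264, nat_lit 153600, nat_lit 311, nat_lit 58308227, nat_lit 0, nat_lit 0, nat_lit 1929344, false, false⟩,
 nat_lit 0, nat_lit 3713, nat_lit 0, nat_lit 3111, nat_lit 2784, nat_lit 0, nat_lit 55, nat_lit 0, nat_lit 0, nat_lit 0, nat_lit 0, nat_lit 0, nat_lit 0, nat_lit 0, nat_lit 129, nat_lit 400000, nat_lit 0, nat_lit 0, [(nat_lit 19, [(nat_lit 5, nat_lit 1000)])],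
 ⟨p087_k3, nat_lit 0, nat_lit 0, nat_lit 333, nat_lit 0, nat_lit 206153, [nat_lit 1960800001, nat_lit 1629600001, nat_lit 268000000], [], [nat_lit 16312302659, nat_lit 17825637805, nat_lit 16598775430, nat_lit 17658361974, nat_lit 16775334035, nat_lit 17738107453, nat_lit 17538957734, nat_lit 18073904836], nat_lit 1271250, nat_lit 1271250, nat_lit 382400, nat_lit 780000, nat_lit 0, nat_lit 1100001, [nat_lit 490000, nat_lit 1100000, nat_lit 2127500], [nat_lit 27, nat_lit 40, nat_lit 40, nat_lit 80, nat_lit 13, nat_lit 289, nat_lit 75, nat_lit 8]⟩, ⟨p087_k8, nat_lit 0, nat_lit 0, nat_lit 566, nat_lit 0, nat_lit 324701, [nat_lit 0, nat_lit 0, nat_lit 0], [], [nat_lit 0, nat_lit 0, nat_lit 0, nat_lit 0, nat_lit 0, nat_lit 0, nat_lit 0, nat_lit 0], nat_lit 1271250, nat_lit 1271250, nat_lit 382400, nat_lit 780000, nat_lit 0, nat_lit 2570750, [nat_lit 1100000, nat_lit 1785000, nat_lit 1271250], [nat_lit 37, nat_lit 40, nat_lit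 40, nat_lit 80, nat_lit 28, nat_lit 428, nat_lit 200, nat_lit 10]⟩,
 ⟨nat_lit 3872, nat_lit 4473, ⟨.ofNat (nat_lit 311945), .ofNat (nat_lit 407125), .ofNat (nat_lit 355043), .ofNat (nat_lit 450223), .ofNat (nat_lit 324151), .ofNat (nat_lit 414492), .ofNat (nat_lit 367703), .ofNat (nat_lit 458043)⟩, ⟨.ofNat (nat_lit 0), .ofNat (nat_lit 302621), .ofNat (nat_lit 0), .ofNat (nat_lit 345754), .ofNat (nat_lit 0), .ofNat (nat_lit 304717), .ofNat (nat_lit 0), .ofNat (nat_lit 348304)⟩⟩, [⟨nat_lit 0, nat_lit 99, nat_lit 77, nat_lit 100, nat_lit 133277718⟩]⟩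
noncomputable def p087_l100 : Lf2 := ⟨nat_lit 0, nat_lit 20, [nat_lit 5, nat_lit 5, nat_lit 5, nat_lit 20], true, nat_lit 0, nat_lit 160, nat_lit 0, nat_lit 364, ⟨nat_lit 0, nat_lit 0, nat_lit 1000, nat_lit 6, nat_lit 182, nat_lit 734, nat_lit 65, nat_lit 1000, nat_lit 40017, nat_lit 264, nat_lit 35831, nat_lit 261, nat_lit 55518065, nat_lit 0, nat_lit 0, nat_lit 2290275, false, false⟩,
 nat_lit 0, nat_lit 3307, nat_lit 0, nat_lit 3539, nat_lit 2480, nat_lit 0, nat_lit 101, nat_lit 0, nat_lit 0, nat_lit 0, nat_lit 0, nat_lit 0, nat_lit 0, nat_lit 0, nat_lit 129, nat_lit 400000, nat_lit 0, nat_lit 0, [(nat_lit 19, [(nat_lit 5, nat_lit 1000)])],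
 ⟨p087_k3, nat_lit 0, nat_lit 0, nat_lit 314, nat_lit 0, nat_lit 221476, [nat_lit 1960800001, nat_lit 1629600001, nat_lit 268000000], [], [nat_lit 16178646187, nat_lit 17251612427, nat_lit 16871107947, nat_lit 17891630987, nat_lit 16912753603, nat_lit 18080989123, nat_lit 17732792963, nat_lit 18909245283], nat_lit 1271250, nat_lit 1271250, nat_lit 780000, nat_lit 1100001, nat_lit 0, nat_lit 1100001, [nat_lit 490000, nat_lit 1100000, nat_lit 2127500], [nat_lit 27, nat_lit 40, nat_lit 40, nat_lit 80, nat_lit 13, nat_lit 317, nat_lit 100, nat_lit 9]⟩, C1.Rw.none,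
 ⟨nat_lit 3872, nat_lit 4473, ⟨.ofNat (nat_lit 407125), .ofNat (nat_lit 475111), .ofNat (nat_lit 428674), .ofNat (nat_lit 496660), .ofNat (nat_lit 414492), .ofNat (nat_lit 479021), .ofNat (nat_lit 436268), .ofNat (nat_lit 500797)⟩, ⟨.ofNat (nat_lit 0), .ofNat (nat_lit 302621), .ofNat (nat_lit 0), .ofNat (nat_lit 345754), .ofNat (nat_lit 0), .ofNat (nat_lit 304717), .ofNat (nat_lit 0), .ofNat (nat_lit 348304)⟩⟩, []⟩
noncomputable def p087_l101 : Lf2 := ⟨nat_lit 0, nat_lit 20, [nat_lit 5, nat_lit 5, nat_lit 5, nat_lit 20], false, nat_lit 0, nat_lit 160, nat_lit 0, nat_lit 352, ⟨nat_lit 95, nat_lit 0, nat_lit 905, nat_lit 6, nat_lit 191, nat_lit 721, nat_lit 65, nat_lit 905, nat_lit 40017, nat_lit 264, nat_lit 19503, nat_lit 247, nat_lit 54605338, nat_lit 0, nat_lit 0, nat_lit 2394417, false, false⟩,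
 nat_lit 1865, nat_lit 1822, nat_lit 0, nat_lit 4092, nat_lit 2765, nat_lit 1085, nat_lit 182, nat_lit 0, nat_lit 0, nat_lit 33, nat_lit 0, nat_lit 0, nat_lit 0, nat_lit 0, nat_lit 84, nat_lit 362000, nat_lit 0, nat_lit 0, [(nat_lit 19, [(nat_lit 5, nat_lit 905)])],
 ⟨p087_k3, nat_lit 0, nat_lit 0, nat_lit 309, nat_lit 0, nat_lit 206153, [nat_lit 1705604000, nat_lit 1396228001, nat_lit 260670000], [], [nat_lit 16517989211, nat_lit 17629687462, nat_lit 17193067742, nat_lit 18383978202, nat_lit 17232517962, nat_lit 18302259742, nat_lit 17966632442, nat_lit 18982332742], nat_lit 1271250, nat_lit 1271250, nat_lit 780000, nat_lit 1100001, nat_lit 0, nat_lit 1100001, [nat_lit 490000, nat_lit 1100000, nat_lit 2127500], [nat_lit 27, nat_lit 40, nat_lit 40, nat_lit 80, nat_lit 13, nat_lit 317, nat_lit 100, nat_lit 9]⟩, ⟨p087_k4, nat_lit 0, nat_lit 0, nat_lit 394, nat_lit 0, nat_lit 286084, [nat_lit 445360000, nat_lit 756960000,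 nat_lit 1127840000], [], [nat_lit 5026665270, nat_lit 4444087540, nat_lit 3870406810, nat_lit 3296726080, nat_lit 3094568627, nat_lit 3166461991, nat_lit 3542620904, nat_lit 3063050708], nat_lit 1271250, nat_lit 1271250, nat_lit 780000, nat_lit 1100001, nat_lit 0, nat_lit 2486000, [nat_lit 1100000, nat_lit 1785000, nat_lit 1271250], [nat_lit 21, nat_lit 40, nat_lit 40, nat_lit 80, nat_lit 14, nat_lit 428, nat_lit 200, nat_lit 11]⟩,
 ⟨nat_lit 3872, nat_lit 4473, ⟨.ofNat (nat_lit 428674), .ofNat (nat_lit 496660), .ofNat (nat_lit 450223), .ofNat (nat_lit 518209), .ofNat (nat_lit 436268), .ofNat (nat_lit 500797), .ofNat (nat_lit 458043), .ofNat (nat_lit 522572)⟩, ⟨.ofNat (nat_lit 0), .ofNat (nat_lit 302621), .ofNat (nat_lit 0), .ofNat (nat_lit 345754), .ofNat (nat_lit 0), .ofNat (nat_lit 304717), .ofNat (nat_lit 0), .ofNat (nat_lit 348304)⟩⟩, [⟨nat_lit 0, nat_lit 99, nat_lit 77, nat_lit 100, nat_lit 17001276⟩]⟩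
noncomputable def p087_l102 : Lf2 := ⟨nat_lit 0, nat_lit 20, [nat_lit 5, nat_lit 5, nat_lit 5, nat_lit 20], false, nat_lit 0, nat_lit 160, nat_lit 0, nat_lit 364, ⟨nat_lit 0, nat_lit 196, nat_lit 804, nat_lit 6, nat_lit 174, nat_lit 1000, nat_lit 65, nat_lit 804, nat_lit 40017, nat_lit 264, nat_lit 32662, nat_lit 258, nat_lit 56314461, nat_lit 10685539, nat_lit 0, nat_lit 2194078, false, false⟩,
 nat_lit 0, nat_lit 3383, nat_lit 0, nat_lit 1793, nat_lit 2738, nat_lit 0, nat_lit 0, nat_lit 0, nat_lit 0, nat_lit 0, nat_lit 0, nat_lit 0, nat_lit 0, nat_lit 0, nat_lit 98, nat_lit 370600, nat_lit 0, nat_lit 0, [(nat_lit 22, [(nat_lit 0, nat_lit 196), (nat_lit 5, nat_lit 804)])],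
 ⟨p087_k7, nat_lit 0, nat_lit 0, nat_lit 291, nat_lit 0, nat_lit 246306, [nat_lit 1876032001, nat_lit 1305931200, nat_lit 40792000], [], [nat_lit 17931208167, nat_lit 19370921012, nat_lit 18943070363, nat_lit 20023172172, nat_lit 18593617972, nat_lit 19697975988, nat_lit 19645837120, nat_lit 20799484020], nat_lit 1271250, nat_lit 1271250, nat_lit 545600, nat_lit 1100001, nat_lit 0, nat_lit 1100001, [nat_lit 490000, nat_lit 1100000, nat_lit 1785000], [nat_lit 34, nat_lit 40, nat_lit 40, nat_lit 80, nat_lit 7, nat_lit 317, nat_lit 100, nat_lit 10]⟩, ⟨p087_k8, nat_lit 0, nat_lit 0, nat_lit 587, nat_lit 0, nat_lit 426950, [nat_lit 0, nat_lit 0, nat_lit 0], [], [nat_lit 0, nat_lit 0, nat_lit 0, nat_lit 0, nat_lit 0, nat_lit 0, nat_lit 0, nat_lit 0], nat_lit 1271250, nat_lit 1271250, nat_lit 545600, nat_lit 1100001, nat_lit 0, nat_lit 2570750, [nat_lit 1100000, nat_lit 1785000, nat_lit 1271250], [nat_lit 37, nat_lit 40,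 nat_lit 40, nat_lit 80, nat_lit 28, nat_lit 428, nat_lit 200, nat_lit 10]⟩,
 ⟨nat_lit 3162, nat_lit 3873, ⟨.ofNat (nat_lit 362778), .ofNat (nat_lit 478975), .ofNat (nat_lit 384542), .ofNat (nat_lit 500739), .ofNat (nat_lit 373492), .ofNat (nat_lit 483267), .ofNat (nat_lit 395618), .ofNat (nat_lit 505392)⟩, ⟨.ofNat (nat_lit 0), .ofNat (nat_lit 304717), .ofNat (nat_lit 0), .ofNat (nat_lit 348304), .ofNat (nat_lit 0), .ofNat (nat_lit 306116), .ofNat (nat_lit 0), .ofNat (nat_lit 350426)⟩⟩, [⟨nat_lit 0, nat_lit 100, nat_lit 63, nat_lit 99, nat_lit 4219964⟩, ⟨nat_lit 3, nat_lit 100, nat_lit 65, nat_lit 54, nat_lit 37097884⟩]⟩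
noncomputable def p087_l103 : Lf2 := ⟨nat_lit 0, nat_lit 20, [nat_lit 5, nat_lit 5, nat_lit 5, nat_lit 20], false, nat_lit 0, nat_lit 160, nat_lit 0, nat_lit 352, ⟨nat_lit 195, nat_lit 0, nat_lit 805, nat_lit 6, nat_lit 188, nat_lit 805, nat_lit 65, nat_lit 805, nat_lit 40017, nat_lit 264, nat_lit 15897, nat_lit 244, nat_lit 54873329, nat_lit 0, nat_lit 0, nat_lit 2364493, false, false⟩,
 nat_lit 3204, nat_lit 674, nat_lit 0, nat_lit 0, nat_lit 3139, nat_lit 1864, nat_lit 0, nat_lit 0, nat_lit 0, nat_lit 0, nat_lit 0, nat_lit 0, nat_lit 0, nat_lit 0, nat_lit 56, nat_lit 322000, nat_lit 0, nat_lit 0, [(nat_lit 22, [(nat_lit 5, nat_lit 805)])],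
 ⟨p087_k7, nat_lit 0, nat_lit 0, nat_lit 300, nat_lit 0, nat_lit 297666, [nat_lit 1629920001, nat_lit 1161008000, nat_lit 38216667], [], [nat_lit 18721825773, nat_lit 20253752573, nat_lit 19456748250, nat_lit 20781518040, nat_lit 18972314036, nat_lit 20017755608, nat_lit 19688799088, nat_lit 20663414658], nat_lit 1271250, nat_lit 1271250, nat_lit 660400, nat_lit 1100001, nat_lit 0, nat_lit 1100001, [nat_lit 490000, nat_lit 1100000, nat_lit 1785000], [nat_lit 34, nat_lit 40, nat_lit 40, nat_lit 80, nat_lit 7, nat_lit 317, nat_lit 100, nat_lit 10]⟩, ⟨p087_k4, nat_lit 0, nat_lit 0, nat_lit 513, nat_lit 0, nat_lit 454615, [nat_lit 914160000, nat_lit 1553760000, nat_lit 2315040000], [], [nat_lit 10376597780, nat_lit 9369442046, nat_lit 7583192468, nat_lit 7644577036, nat_lit 7167180340, nat_lit 7255222988, nat_lit 7509576546, nat_lit 6979816987], nat_lit 1271250, nat_lit 1271250, nat_lit 660400, nat_lit 1100001, nat_lit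 0, nat_lit 2486000, [nat_lit 1100000, nat_lit 1785000, nat_lit 1271250], [nat_lit 21, nat_lit 40, nat_lit 40, nat_lit 80, nat_lit 14, nat_lit 428, nat_lit 200, nat_lit 11]⟩,
 ⟨nat_lit 3162, nat_lit 3873, ⟨.ofNat (nat_lit 410364), .ofNat (nat_lit 500739), .ofNat (nat_lit 432129), .ofNat (nat_lit 522504), .ofNat (nat_lit 420013), .ofNat (nat_lit 505392), .ofNat (nat_lit 442139), .ofNat (nat_lit 527519)⟩, ⟨.ofNat (nat_lit 0), .ofNat (nat_lit 304717), .ofNat (nat_lit 0), .ofNat (nat_lit 348304), .ofNat (nat_lit 0), .ofNat (nat_lit 306116), .ofNat (nat_lit 0), .ofNat (nat_lit 350426)⟩⟩, [⟨nat_lit 0, nat_lit 100, nat_lit 71, nat_lit 100, nat_lit 142017385⟩, ⟨nat_lit 3, nat_lit 100, nat_lit 76, nat_lit 37, nat_lit 45919468⟩]⟩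
noncomputable def p087_l104 : Lf2 := ⟨nat_lit 0, nat_lit 18, [nat_lit 100, nat_lit 5, nat_lit 5, nat_lit 20], false, nat_lit 0, nat_lit 160, nat_lit 0, nat_lit 364, ⟨nat_lit 168, nat_lit 0, nat_lit 832, nat_lit 6, nat_lit 222, nat_lit 832, nat_lit 65, nat_lit 832, nat_lit 40017, nat_lit 264, nat_lit 6736, nat_lit 202, nat_lit 51264381, nat_lit 0, nat_lit 0, nat_lit 2725410, false, false⟩,
 nat_lit 1910, nat_lit 1878, nat_lit 0, nat_lit 5490, nat_lit 2840, nat_lit 1011, nat_lit 216, nat_lit 0, nat_lit 0, nat_lit 0, nat_lit 0, nat_lit 0, nat_lit 0, nat_lit 0, nat_lit 50, nat_lit 332800, nat_lit 0, nat_lit 0, [(nat_lit 19, [(nat_lit 5, nat_lit 832)])],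
 ⟨p087_k0, nat_lit 0, nat_lit 0, nat_lit 195, nat_lit 0, nat_lit 80703, [nat_lit 1514137600, nat_lit 1226163201, nat_lit 271248000], [], [nat_lit 17662054840, nat_lit 18260713280, nat_lit 19925154561, nat_lit 20507214041, nat_lit 18107286081, nat_lit 18673131001, nat_lit 20419141281, nat_lit 20917100761], nat_lit 1271250, nat_lit 1271250, nat_lit 1100001, nat_lit 1785000, nat_lit 0, nat_lit 1100001, [nat_lit 490000, nat_lit 1100000, nat_lit 2127500], [nat_lit 27, nat_lit 40, nat_lit 40, nat_lit 80, nat_lit 13, nat_lit 317, nat_lit 100, nat_lit 9]⟩, ⟨p087_k1, nat_lit 0, nat_lit 0, nat_lit 383, nat_lit 0, nat_lit 126819, [nat_lit 787584000, nat_lit 1338624000, nat_lit 2361744000], [], [nat_lit 6475772256, nat_lit 6564743832, nat_lit 6724649100, nat_lit 6849157986, nat_lit 7868483538, nat_lit 7411210867, nat_lit 6994112212, nat_lit 7049059421], nat_lit 1271250, nat_lit 1271250, nat_lit 1271250, nat_lit 1271250, nat_lit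 0, nat_lit 2570750, [nat_lit 1100000, nat_lit 1785000, nat_lit 1271250], [nat_lit 37, nat_lit 40, nat_lit 40, nat_lit 80, nat_lit 28, nat_lit 456, nat_lit 225, nat_lit 11]⟩,
 ⟨nat_lit 4183, nat_lit 4473, ⟨.ofNat (nat_lit 475145), .ofNat (nat_lit 611104), .ofNat (nat_lit 496708), .ofNat (nat_lit 632666), .ofNat (nat_lit 477068), .ofNat (nat_lit 609582), .ofNat (nat_lit 498731), .ofNat (nat_lit 631244)⟩, ⟨.ofNat (nat_lit 0), .ofNat (nat_lit 302621), .ofNat (nat_lit 0), .ofNat (nat_lit 345754), .ofNat (nat_lit 0), .ofNat (nat_lit 303743), .ofNat (nat_lit 0), .ofNat (nat_lit 347076)⟩⟩, [⟨nat_lit 19, nat_lit 100, nat_lit 72, nat_lit 89, nat_lit 21836609⟩, ⟨nat_lit 22, nat_lit 100, nat_lit 60, nat_lit 80, nat_lit 20203225⟩]⟩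
noncomputable def p087_l105 : Lf2 := ⟨nat_lit 0, nat_lit 18, [nat_lit 100, nat_lit 5, nat_lit 5, nat_lit 20], false, nat_lit 0, nat_lit 160, nat_lit 0, nat_lit 364, ⟨nat_lit 156, nat_lit 0, nat_lit 844, nat_lit 6, nat_lit 222, nat_lit 739, nat_lit 65, nat_lit 844, nat_lit 40017, nat_lit 264, nat_lit 3863, nat_lit 202, nat_lit 51252151, nat_lit 0, nat_lit 0, nat_lit 2726488, false, false⟩,
 nat_lit 2532, nat_lit 1548, nat_lit 0, nat_lit 2406, nat_lit 3180, nat_lit 1340, nat_lit 0, nat_lit 0, nat_lit 0, nat_lit 0, nat_lit 0, nat_lit 0, nat_lit 0, nat_lit 0, nat_lit 48, nat_lit 337600, nat_lit 0, nat_lit 0, [(nat_lit 19, [(nat_lit 5, nat_lit 844)])],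
 ⟨p087_k20, nat_lit 0, nat_lit 0, nat_lit 187, nat_lit 0, nat_lit 135492, [nat_lit 1484899200, nat_lit 1347070400, nat_lit 33481600], [], [nat_lit 18896477460, nat_lit 19450631200, nat_lit 21113644180, nat_lit 21844008920, nat_lit 18920220400, nat_lit 19393567920, nat_lit 21676924320, nat_lit 21113739960], nat_lit 1271250, nat_lit 1271250, nat_lit 1100001, nat_lit 1785000, nat_lit 0, nat_lit 1100001, [nat_lit 490000, nat_lit 1100000, nat_lit 1785000], [nat_lit 34, nat_lit 40, nat_lit 40, nat_lit 80, nat_lit 7, nat_lit 317, nat_lit 100, nat_lit 10]⟩, ⟨p087_k1, nat_lit 0, nat_lit 0, nat_lit 418, nat_lit 0, nat_lit 223469, [nat_lit 731328000, nat_lit 1243008000, nat_lit 2193048000], [], [nat_lit 6624603472, nat_lit 6642068896, nat_lit 6707275488, nat_lit 6812335208, nat_lit 7580278552, nat_lit 6974200036, nat_lit 6344332580, nat_lit 6379653179], nat_lit 1271250, nat_lit 1271250, nat_lit 1271250, nat_lit 1271250, nat_lit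 0, nat_lit 2570750, [nat_lit 1100000, nat_lit 1785000, nat_lit 1271250], [nat_lit 37, nat_lit 40, nat_lit 40, nat_lit 80, nat_lit 28, nat_lit 456, nat_lit 225, nat_lit 11]⟩,
 ⟨nat_lit 3872, nat_lit 4184, ⟨.ofNat (nat_lit 477065), .ofNat (nat_lit 609582), .ofNat (nat_lit 498726), .ofNat (nat_lit 631244), .ofNat (nat_lit 479052), .ofNat (nat_lit 608101), .ofNat (nat_lit 500840), .ofNat (nat_lit 629889)⟩, ⟨.ofNat (nat_lit 0), .ofNat (nat_lit 303743), .ofNat (nat_lit 0), .ofNat (nat_lit 347076), .ofNat (nat_lit 0), .ofNat (nat_lit 304717), .ofNat (nat_lit 0), .ofNat (nat_lit 348304)⟩⟩, [⟨nat_lit 22, nat_lit 100, nat_lit 60, nat_lit 80, nat_lit 30894304⟩]⟩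
noncomputable def p087_l106 : Lf2 := ⟨nat_lit 1, nat_lit 20, [nat_lit 5, nat_lit 5, nat_lit 5, nat_lit 20], false, nat_lit 0, nat_lit 160, nat_lit 0, nat_lit 364, zbN0,
 nat_lit 0, nat_lit 0, nat_lit 0, nat_lit 0, nat_lit 0, nat_lit 0, nat_lit 0, nat_lit 0, nat_lit 0, nat_lit 0, nat_lit 0, nat_lit 0, nat_lit 0, nat_lit 0, nat_lit 0, nat_lit 0, nat_lit 0, nat_lit 0, [],
 C1.Rw.none, C1.Rw.none,
 zbF0, []⟩
noncomputable def p087_l107 : Lf2 := ⟨nat_lit 0, nat_lit 20, [nat_lit 5, nat_lit 5, nat_lit 5, nat_lit 20], false, nat_lit 0, nat_lit 160, nat_lit 0, nat_lit 352, ⟨nat_lit 230, nat_lit 0, nat_lit 770, nat_lit 6, nat_lit 215, nat_lit 770, nat_lit 65, nat_lit 770, nat_lit 40017, nat_lit 264, nat_lit 2183, nat_lit 221, nat_lit 51991900, nat_lit 0, nat_lit 0, nat_lit 2659629, false, false⟩,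
 nat_lit 4454, nat_lit 0, nat_lit 0, nat_lit 3669, nat_lit 3340, nat_lit 2592, nat_lit 251, nat_lit 0, nat_lit 0, nat_lit 0, nat_lit 0, nat_lit 0, nat_lit 0, nat_lit 0, nat_lit 21, nat_lit 308000, nat_lit 0, nat_lit 0, [(nat_lit 19, [(nat_lit 5, nat_lit 770)])],
 ⟨p087_k3, nat_lit 0, nat_lit 0, nat_lit 289, nat_lit 0, nat_lit 172426, [nat_lit 1350536000, nat_lit 1079752001, nat_lit 276780000], [], [nat_lit 18314134215, nat_lit 19599542095, nat_lit 19256095895, nat_lit 20463029840, nat_lit 18019192642, nat_lit 19118049442, nat_lit 20611108936, nat_lit 20011234842], nat_lit 1271250, nat_lit 1271250, nat_lit 1100001, nat_lit 1442500, nat_lit 0, nat_lit 1100001, [nat_lit 490000, nat_lit 1100000, nat_lit 2127500], [nat_lit 27, nat_lit 40, nat_lit 40, nat_lit 80, nat_lit 13, nat_lit 317, nat_lit 100, nat_lit 9]⟩, ⟨p087_k4, nat_lit 0, nat_lit 0, nat_lit 359, nat_lit 0, nat_lit 239281, [nat_lit 1078240000, nat_lit 1832640000,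 nat_lit 2730560000], [], [nat_lit 9335787144, nat_lit 8650542696, nat_lit 8122562720, nat_lit 8258095534, nat_lit 8238914026, nat_lit 7994348924, nat_lit 9766316389, nat_lit 9185419122], nat_lit 1271250, nat_lit 1271250, nat_lit 1100001, nat_lit 1442500, nat_lit 0, nat_lit 2486000, [nat_lit 1100000, nat_lit 1785000, nat_lit 1271250], [nat_lit 21, nat_lit 40, nat_lit 40, nat_lit 80, nat_lit 14, nat_lit 456, nat_lit 225, nat_lit 12]⟩,
 ⟨nat_lit 3872, nat_lit 4473, ⟨.ofNat (nat_lit 496660), .ofNat (nat_lit 564646), .ofNat (nat_lit 507435), .ofNat (nat_lit 575420), .ofNat (nat_lit 500797), .ofNat (nat_lit 565327), .ofNat (nat_lit 511685), .ofNat (nat_lit 576214)⟩, ⟨.ofNat (nat_lit 0), .ofNat (nat_lit 302621), .ofNat (nat_lit 0), .ofNat (nat_lit 345754), .ofNat (nat_lit 0), .ofNat (nat_lit 304717), .ofNat (nat_lit 0), .ofNat (nat_lit 348304)⟩⟩, [⟨nat_lit 19, nat_lit 100, nat_lit 80, nat_lit 92, nat_lit 17210421⟩, ⟨nat_lit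 10, nat_lit 65, nat_lit 100, nat_lit 69, nat_lit 41321341⟩]⟩
noncomputable def p087_l108 : Lf2 := ⟨nat_lit 0, nat_lit 20, [nat_lit 5, nat_lit 5, nat_lit 5, nat_lit 20], false, nat_lit 0, nat_lit 160, nat_lit 0, nat_lit 352, ⟨nat_lit 1000, nat_lit 0, nat_lit 0, nat_lit 0, nat_lit 0, nat_lit 0, nat_lit 0, nat_lit 0, nat_lit 0, nat_lit 0, nat_lit 0, nat_lit 0, nat_lit 0, nat_lit 0, nat_lit 0, nat_lit 0, false, false⟩,
 nat_lit 15813, nat_lit 0, nat_lit 0, nat_lit 0, nat_lit 6818, nat_lit 9204, nat_lit 885, nat_lit 0, nat_lit 0, nat_lit 95, nat_lit 0, nat_lit 0, nat_lit 0, nat_lit 0, nat_lit 0, nat_lit 0, nat_lit 0, nat_lit 0, [],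
 ⟨p087_k3, nat_lit 0, nat_lit 0, nat_lit 283, nat_lit 0, nat_lit 172426, [nat_lit 2032000001, nat_lit 4688000000, nat_lit 9842000000], [], [nat_lit 24274434729, nat_lit 26039223768, nat_lit 25702395929, nat_lit 28113716292, nat_lit 19966365273, nat_lit 21352757192, nat_lit 21213292272, nat_lit 22682450336], nat_lit 1271250, nat_lit 1271250, nat_lit 1271250, nat_lit 1271250, nat_lit 0, nat_lit 1100001, [nat_lit 490000, nat_lit 1100000, nat_lit 2127500], [nat_lit 27, nat_lit 40, nat_lit 40, nat_lit 80, nat_lit 13, nat_lit 317, nat_lit 100, nat_lit 9]⟩, ⟨p087_k4, nat_lit 0, nat_lit 0, nat_lit 351, nat_lit 0, nat_lit 239281, [nat_lit 4688000000, nat_lit 7968000000, nat_lit 11872000000], [], [nat_lit 36171855685, nat_lit 36643799861, nat_lit 37247177245, nat_lit 37666156329, nat_lit 35428067386, nat_lit 34768337025, nat_lit 34954722602, nat_lit 35207584608], nat_lit 1271250, nat_lit 1271250, nat_lit 1271250, nat_lit 1271250,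 nat_lit 0, nat_lit 2486000, [nat_lit 1100000, nat_lit 1785000, nat_lit 1271250], [nat_lit 21, nat_lit 40, nat_lit 40, nat_lit 80, nat_lit 14, nat_lit 456, nat_lit 225, nat_lit 11]⟩,
 zbF0, [⟨nat_lit 7, nat_lit 80, nat_lit 100, nat_lit 92, nat_lit 181140902⟩]⟩
noncomputable def p087_l109 : Lf2 := ⟨nat_lit 0, nat_lit 20, [nat_lit 5, nat_lit 5, nat_lit 5, nat_lit 20], false, nat_lit 0, nat_lit 160, nat_lit 0, nat_lit 344, ⟨nat_lit 655, nat_lit 0, nat_lit 345, nat_lit 6, nat_lit 219, nat_lit 345, nat_lit 65, nat_lit 345, nat_lit 40017, nat_lit 264, nat_lit 2762, nat_lit 217, nat_lit 51521895, nat_lit 0, nat_lit 0, nat_lit 2702507, false, false⟩,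
 nat_lit 6812, nat_lit 0, nat_lit 2925, nat_lit 0, nat_lit 5108, nat_lit 5930, nat_lit 617, nat_lit 0, nat_lit 0, nat_lit 0, nat_lit 0, nat_lit 0, nat_lit 0, nat_lit 0, nat_lit 0, nat_lit 138000, nat_lit 0, nat_lit 0, [(nat_lit 19, [(nat_lit 5, nat_lit 345)])],
 ⟨p087_k3, nat_lit 0, nat_lit 0, nat_lit 299, nat_lit 0, nat_lit 206153, [nat_lit 1651396001, nat_lit 2920772001, nat_lit 5292830000], [], [nat_lit 20988990974, nat_lit 22508398389, nat_lit 21812890349, nat_lit 23301005037, nat_lit 18727642366, nat_lit 19981395130, nat_lit 21655723199, nat_lit 20893831954], nat_lit 1271250, nat_lit 1271250, nat_lit 1100001, nat_lit 1442500, nat_lit 0, nat_lit 1100001, [nat_lit 490000, nat_lit 1100000, nat_lit 2127500], [nat_lit 27, nat_lit 40, nat_lit 40, nat_lit 80, nat_lit 13, nat_lit 317, nat_lit 100, nat_lit 9]⟩, ⟨p087_k12, nat_lit 0, nat_lit 0, nat_lit 372, nat_lit 0, nat_lit 269532, [nat_lit 3070640000, nat_lit 5219040000,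 nat_lit 7776160000], [], [nat_lit 24386784465, nat_lit 24724589560, nat_lit 24688111000, nat_lit 24994981560, nat_lit 23463810116, nat_lit 23603059867, nat_lit 26131482463, nat_lit 24799102192], nat_lit 1271250, nat_lit 1271250, nat_lit 1100001, nat_lit 1442500, nat_lit 0, nat_lit 2429500, [nat_lit 1100000, nat_lit 1785000, nat_lit 1271250], [nat_lit 21, nat_lit 40, nat_lit 40, nat_lit 80, nat_lit 14, nat_lit 456, nat_lit 225, nat_lit 12]⟩,
 ⟨nat_lit 3872, nat_lit 4473, ⟨.ofNat (nat_lit 507435), .ofNat (nat_lit 575420), .ofNat (nat_lit 518209), .ofNat (nat_lit 586195), .ofNat (nat_lit 511685), .ofNat (nat_lit 576214), .ofNat (nat_lit 522572), .ofNat (nat_lit 587102)⟩, ⟨.ofNat (nat_lit 0), .ofNat (nat_lit 302621), .ofNat (nat_lit 0), .ofNat (nat_lit 345754), .ofNat (nat_lit 0), .ofNat (nat_lit 304717), .ofNat (nat_lit 0), .ofNat (nat_lit 348304)⟩⟩, [⟨nat_lit 7, nat_lit 85, nat_lit 100, nat_lit 93, nat_lit 117233551⟩]⟩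
noncomputable def p087_l110 : Lf2 := ⟨nat_lit 0, nat_lit 20, [nat_lit 5, nat_lit 5, nat_lit 5, nat_lit 20], false, nat_lit 0, nat_lit 160, nat_lit 0, nat_lit 344, ⟨nat_lit 1000, nat_lit 0, nat_lit 0, nat_lit 0, nat_lit 0, nat_lit 0, nat_lit 0, nat_lit 0, nat_lit 0, nat_lit 0, nat_lit 0, nat_lit 0, nat_lit 0, nat_lit 0, nat_lit 0, nat_lit 0, false, false⟩,
 nat_lit 9091, nat_lit 0, nat_lit 6973, nat_lit 0, nat_lit 6818, nat_lit 9783, nat_lit 885, nat_lit 0, nat_lit 0, nat_lit 558, nat_lit 0, nat_lit 0, nat_lit 0, nat_lit 0, nat_lit 0, nat_lit 0, nat_lit 0, nat_lit 0, [],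
 ⟨p087_k3, nat_lit 0, nat_lit 0, nat_lit 293, nat_lit 0, nat_lit 206153, [nat_lit 2032000001, nat_lit 4688000000, nat_lit 9842000000], [], [nat_lit 24274434729, nat_lit 26039223768, nat_lit 25702395929, nat_lit 28113716292, nat_lit 19966365273, nat_lit 21352757192, nat_lit 21213292272, nat_lit 22682450336], nat_lit 1271250, nat_lit 1271250, nat_lit 1271250, nat_lit 1271250, nat_lit 0, nat_lit 1100001, [nat_lit 490000, nat_lit 1100000, nat_lit 2127500], [nat_lit 27, nat_lit 40, nat_lit 40, nat_lit 80, nat_lit 13, nat_lit 317, nat_lit 100, nat_lit 9]⟩, ⟨p087_k12, nat_lit 0, nat_lit 0, nat_lit 363, nat_lit 0, nat_lit 269532, [nat_lit 4688000000, nat_lit 7968000000, nat_lit 11872000000], [], [nat_lit 30806372972, nat_lit 31291543824, nat_lit 32227833615, nat_lit 32871720324, nat_lit 30882997710, nat_lit 30111999412, nat_lit 30263520139, nat_lit 30530922061], nat_lit 1271250, nat_lit 1271250, nat_lit 1271250, nat_lit 1271250,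 nat_lit 0, nat_lit 2429500, [nat_lit 1100000, nat_lit 1785000, nat_lit 1271250], [nat_lit 21, nat_lit 40, nat_lit 40, nat_lit 80, nat_lit 14, nat_lit 456, nat_lit 225, nat_lit 11]⟩,
 zbF0, [⟨nat_lit 7, nat_lit 85, nat_lit 100, nat_lit 93, nat_lit 187312826⟩]⟩
noncomputable def p087_l111 : Lf2 := ⟨nat_lit 0, nat_lit 20, [nat_lit 5, nat_lit 5, nat_lit 5, nat_lit 20], false, nat_lit 0, nat_lit 160, nat_lit 0, nat_lit 160, ⟨nat_lit 618, nat_lit 0, nat_lit 382, nat_lit 6, nat_lit 226, nat_lit 382, nat_lit 65, nat_lit 382, nat_lit 40017, nat_lit 264, nat_lit 31972, nat_lit 200, nat_lit 50751041, nat_lit 0, nat_lit 0, nat_lit 2769845, false, false⟩,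
 nat_lit 8470, nat_lit 0, nat_lit 0, nat_lit 0, nat_lit 4344, nat_lit 4484, nat_lit 128, nat_lit 0, nat_lit 0, nat_lit 594, nat_lit 0, nat_lit 0, nat_lit 0, nat_lit 0, nat_lit 0, nat_lit 382000, nat_lit 0, nat_lit 0, [(nat_lit 22, [(nat_lit 6, nat_lit 382)])],
 ⟨p087_k7, nat_lit 0, nat_lit 0, nat_lit 285, nat_lit 0, nat_lit 297666, [nat_lit 1544873601, nat_lit 1993066400, nat_lit 1545052000], [], [nat_lit 21429793680, nat_lit 23066631840, nat_lit 23850039536, nat_lit 25732629952, nat_lit 19838456162, nat_lit 20889049600, nat_lit 21547104912, nat_lit 22727208960], nat_lit 1271250, nat_lit 1271250, nat_lit 1100001, nat_lit 1785000, nat_lit 0, nat_lit 1100001, [nat_lit 490000, nat_lit 1100000, nat_lit 1785000], [nat_lit 34, nat_lit 40, nat_lit 40, nat_lit 80, nat_lit 7, nat_lit 317, nat_lit 100, nat_lit 10]⟩, ⟨p087_k8, nat_lit 0, nat_lit 0, nat_lit 585, nat_lit 0, nat_lit 515980, [nat_lit 2897184000, nat_lit 4924224000,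 nat_lit 8687844000], [], [nat_lit 24987273976, nat_lit 23553771832, nat_lit 23344907096, nat_lit 23875914216, nat_lit 20232278568, nat_lit 20659334432, nat_lit 22827726528, nat_lit 21093733824], nat_lit 1271250, nat_lit 1271250, nat_lit 1100001, nat_lit 1785000, nat_lit 0, nat_lit 1100001, [nat_lit 1100000, nat_lit 1785000, nat_lit 1271250], [nat_lit 37, nat_lit 40, nat_lit 40, nat_lit 80, nat_lit 28, nat_lit 401, nat_lit 175, nat_lit 9]⟩,
 ⟨nat_lit 3162, nat_lit 3873, ⟨.ofNat (nat_lit 478975), .ofNat (nat_lit 608082), .ofNat (nat_lit 522504), .ofNat (nat_lit 651611), .ofNat (nat_lit 483267), .ofNat (nat_lit 605237), .ofNat (nat_lit 527519), .ofNat (nat_lit 649490)⟩, ⟨.ofNat (nat_lit 0), .ofNat (nat_lit 304717), .ofNat (nat_lit 0), .ofNat (nat_lit 348304), .ofNat (nat_lit 0), .ofNat (nat_lit 306116), .ofNat (nat_lit 0), .ofNat (nat_lit 350426)⟩⟩, []⟩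
noncomputable def p087_l112 : Lf2 := ⟨nat_lit 0, nat_lit 20, [nat_lit 5, nat_lit 5, nat_lit 5, nat_lit 20], false, nat_lit 0, nat_lit 160, nat_lit 160, nat_lit 364, ⟨nat_lit 225, nat_lit 0, nat_lit 775, nat_lit 6, nat_lit 222, nat_lit 775, nat_lit 65, nat_lit 775, nat_lit 40017, nat_lit 264, nat_lit 7340, nat_lit 203, nat_lit 51228223, nat_lit 0, nat_lit 0, nat_lit 2728593, false, false⟩,
 nat_lit 3765, nat_lit 0, nat_lit 0, nat_lit 2138, nat_lit 3023, nat_lit 1993, nat_lit 0, nat_lit 0, nat_lit 0, nat_lit 219, nat_lit 0, nat_lit 0, nat_lit 0, nat_lit 0, nat_lit 41, nat_lit 310000, nat_lit 0, nat_lit 0, [(nat_lit 22, [(nat_lit 5, nat_lit 775)])],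
 ⟨p087_k7, nat_lit 0, nat_lit 0, nat_lit 269, nat_lit 0, nat_lit 246306, [nat_lit 1541600001, nat_lit 1085840001, nat_lit 20916667], [], [nat_lit 19801486943, nat_lit 20887249447, nat_lit 21827597619, nat_lit 23129853084, nat_lit 19888613361, nat_lit 20853636329, nat_lit 21838896030, nat_lit 22799054520], nat_lit 1271250, nat_lit 1271250, nat_lit 1100001, nat_lit 1785000, nat_lit 0, nat_lit 1100001, [nat_lit 490000, nat_lit 1100000, nat_lit 1785000], [nat_lit 34, nat_lit 40, nat_lit 40, nat_lit 80, nat_lit 7, nat_lit 317, nat_lit 100, nat_lit 10]⟩, ⟨p087_k8, nat_lit 0, nat_lit 0, nat_lit 390, nat_lit 0, nat_lit 426950, [nat_lit 1054800000, nat_lit 1792800000, nat_lit 3163050000], [], [nat_lit 8591815820, nat_lit 7538040986, nat_lit 6752258864, nat_lit 6007792218, nat_lit 6924033046, nat_lit 6992155604, nat_lit 6907891217, nat_lit 6993279161], nat_lit 1271250, nat_lit 1271250, nat_lit 1100001, nat_lit 1785000, nat_lit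 1271250, nat_lit 1271250, [nat_lit 1100000, nat_lit 1785000, nat_lit 1271250], [nat_lit 37, nat_lit 40, nat_lit 40, nat_lit 80, nat_lit 28, nat_lit 456, nat_lit 225, nat_lit 10]⟩,
 ⟨nat_lit 3162, nat_lit 3873, ⟨.ofNat (nat_lit 478975), .ofNat (nat_lit 608082), .ofNat (nat_lit 500739), .ofNat (nat_lit 629847), .ofNat (nat_lit 483267), .ofNat (nat_lit 605237), .ofNat (nat_lit 505392), .ofNat (nat_lit 627364)⟩, ⟨.ofNat (nat_lit 0), .ofNat (nat_lit 304717), .ofNat (nat_lit 0), .ofNat (nat_lit 348304), .ofNat (nat_lit 0), .ofNat (nat_lit 306116), .ofNat (nat_lit 0), .ofNat (nat_lit 350426)⟩⟩, [⟨nat_lit 22, nat_lit 100, nat_lit 60, nat_lit 80, nat_lit 42204975⟩]⟩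
noncomputable def p087_l113 : Lf2 := ⟨nat_lit 0, nat_lit 20, [nat_lit 5, nat_lit 5, nat_lit 5, nat_lit 20], false, nat_lit 0, nat_lit 160, nat_lit 160, nat_lit 352, ⟨nat_lit 485, nat_lit 0, nat_lit 515, nat_lit 6, nat_lit 231, nat_lit 515, nat_lit 65, nat_lit 515, nat_lit 40017, nat_lit 264, nat_lit 31972, nat_lit 200, nat_lit 50273587, nat_lit 0, nat_lit 0, nat_lit 2809739, false, false⟩,
 nat_lit 6968, nat_lit 0, nat_lit 0, nat_lit 0, nat_lit 3852, nat_lit 4056, nat_lit 0, nat_lit 0, nat_lit 0, nat_lit 384, nat_lit 0, nat_lit 0, nat_lit 0, nat_lit 0, nat_lit 10, nat_lit 462800, nat_lit 0, nat_lit 0, [(nat_lit 22, [(nat_lit 5, nat_lit 87), (nat_lit 6, nat_lit 428)])],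
 ⟨p087_k7, nat_lit 0, nat_lit 0, nat_lit 285, nat_lit 0, nat_lit 297666, [nat_lit 1474342401, nat_lit 1350532800, nat_lit 11168400], [], [nat_lit 20591793840, nat_lit 22133622720, nat_lit 23002129688, nat_lit 24763238416, nat_lit 19872890482, nat_lit 20835056434, nat_lit 21499482610, nat_lit 22373278080], nat_lit 1271250, nat_lit 1271250, nat_lit 1100001, nat_lit 1785000, nat_lit 0, nat_lit 1100001, [nat_lit 490000, nat_lit 1100000, nat_lit 1785000], [nat_lit 34, nat_lit 40, nat_lit 40, nat_lit 80, nat_lit 7, nat_lit 317, nat_lit 100, nat_lit 10]⟩, ⟨p087_k4, nat_lit 0, nat_lit 0, nat_lit 339, nat_lit 0, nat_lit 454615, [nat_lit 2273680000, nat_lit 3864480000, nat_lit 5757920000], [], [nat_lit 16009819532, nat_lit 13865258204, nat_lit 12686670460, nat_lit 12505807124, nat_lit 14308033923, nat_lit 14505277548, nat_lit 14460497990, nat_lit 14703708817], nat_lit 1271250, nat_lit 1271250, nat_lit 1100001, nat_lit 1785000,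 nat_lit 1271250, nat_lit 1271250, [nat_lit 1100000, nat_lit 1785000, nat_lit 1271250], [nat_lit 21, nat_lit 40, nat_lit 40, nat_lit 80, nat_lit 14, nat_lit 456, nat_lit 225, nat_lit 11]⟩,
 ⟨nat_lit 3162, nat_lit 3873, ⟨.ofNat (nat_lit 500739), .ofNat (nat_lit 629847), .ofNat (nat_lit 522504), .ofNat (nat_lit 651611), .ofNat (nat_lit 505392), .ofNat (nat_lit 627364), .ofNat (nat_lit 527519), .ofNat (nat_lit 649490)⟩, ⟨.ofNat (nat_lit 0), .ofNat (nat_lit 304717), .ofNat (nat_lit 0), .ofNat (nat_lit 348304), .ofNat (nat_lit 0), .ofNat (nat_lit 306116), .ofNat (nat_lit 0), .ofNat (nat_lit 350426)⟩⟩, [⟨nat_lit 7, nat_lit 82, nat_lit 100, nat_lit 92, nat_lit 83958783⟩]⟩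
noncomputable def b_V_800_600_20_40 : St := ⟨true, nat_lit 1, nat_lit 1, nat_lit 1, nat_lit 120, nat_lit 320, nat_lit 360, nat_lit 240, nat_lit 280, nat_lit 64, nat_lit 240, nat_lit 80, nat_lit 120, nat_lit 0, nat_lit 160, nat_lit 0, nat_lit 364, nat_lit 40, nat_lit 80, nat_lit 0, nat_lit 0, nat_lit 0, nat_lit 0⟩
theorem d_V_800_600_20_40 (h : EB TB.env) : Dead b_V_800_600_20_40 := chkB_sound0 h (T :=
(.spl (nat_lit 2) (nat_lit 160)
(.spl (nat_lit 0) (nat_lit 340)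
(.spl (nat_lit 2) (nat_lit 120)
(.leaf p087_l99)
(.spl (nat_lit 1) (nat_lit 260)
(.leaf p087_l100)
(.trX (nat_lit 19) (nat_lit 100) (nat_lit 69) (nat_lit 96) (nat_lit 352) (.leaf p087_l101))))
(.trZ (nat_lit 0) (nat_lit 100) (nat_lit 73) (nat_lit 85) (nat_lit 88) (.spl (nat_lit 1) (nat_lit 260)
(.leaf p087_l102)
(.trZ (nat_lit 0) (nat_lit 100) (nat_lit 75) (nat_lit 92) (nat_lit 104) (.trX (nat_lit 19) (nat_lit 100) (nat_lit 69) (nat_lit 96) (nat_lit 352) (.leaf p087_l103))))))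
(.spl (nat_lit 0) (nat_lit 340)
(.spl (nat_lit 1) (nat_lit 260)
(.spl (nat_lit 6) (nat_lit 72)
(.spl (nat_lit 0) (nat_lit 330)
(.leaf p087_l104)
(.leaf p087_l105))
(.leaf p087_l106))
(.trX (nat_lit 19) (nat_lit 100) (nat_lit 69) (nat_lit 96) (nat_lit 352) (.spl (nat_lit 1) (nat_lit 270)
(.spl (nat_lit 2) (nat_lit 200)
(.leaf p087_l107)
(.leaf p087_l108))
(.trX (nat_lit 19) (nat_lit 100) (nat_lit 74) (nat_lit 98) (nat_lit 344) (.spl (nat_lit 2) (nat_lit 200)
(.leaf p087_l109)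
(.leaf p087_l110))))))
(.spl (nat_lit 5) (nat_lit 160)
(.leaf p087_l111)
(.spl (nat_lit 1) (nat_lit 260)
(.leaf p087_l112)
(.trX (nat_lit 19) (nat_lit 100) (nat_lit 69) (nat_lit 96) (nat_lit 352) (.leaf p087_l113))))))) (by decide +kernel)
noncomputable def p087_l114 : Lf2 := ⟨nat_lit 0, nat_lit 20, [nat_lit 5, nat_lit 5, nat_lit 5, nat_lit 20], false, nat_lit 160, nat_lit 240, nat_lit 0, nat_lit 364, ⟨nat_lit 0, nat_lit 0, nat_lit 1000, nat_lit 6, nat_lit 168, nat_lit 1000, nat_lit 157, nat_lit 1000, nat_lit 67907, nat_lit 278, nat_lit 19503, nat_lit 247, nat_lit 48182837, nat_lit 0, nat_lit 0, nat_lit 4225648, false, false⟩,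
 nat_lit 0, nat_lit 4056, nat_lit 0, nat_lit 0, nat_lit 3041, nat_lit 0, nat_lit 0, nat_lit 0, nat_lit 0, nat_lit 0, nat_lit 0, nat_lit 0, nat_lit 0, nat_lit 0, nat_lit 114, nat_lit 351250, nat_lit 0, nat_lit 0, [(nat_lit 19, [(nat_lit 4, nat_lit 325), (nat_lit 5, nat_lit 675)])],
 ⟨p087_k3, nat_lit 0, nat_lit 0, nat_lit 189, nat_lit 0, nat_lit 206153, [nat_lit 2032420001, nat_lit 1465130001, nat_lit 253860000], [], [nat_lit 16920671073, nat_lit 18047400826, nat_lit 17728853933, nat_lit 18734070237, nat_lit 19024660631, nat_lit 20061697109, nat_lit 19631167853, nat_lit 20518548321], nat_lit 1271250, nat_lit 1271250, nat_lit 382400, nat_lit 1100001, nat_lit 1100001, nat_lit 1785000, [nat_lit 490000, nat_lit 1100000, nat_lit 2127500], [nat_lit 27, nat_lit 40, nat_lit 40, nat_lit 80, nat_lit 13, nat_lit 317, nat_lit 100, nat_lit 9]⟩, ⟨p087_k8, nat_lit 0, nat_lit 0, nat_lit 566, nat_lit 0, nat_lit 324701, [nat_lit 0, nat_lit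 0, nat_lit 0], [], [nat_lit 0, nat_lit 0, nat_lit 0, nat_lit 0, nat_lit 0, nat_lit 0, nat_lit 0, nat_lit 0], nat_lit 1271250, nat_lit 1271250, nat_lit 382400, nat_lit 1100001, nat_lit 0, nat_lit 2570750, [nat_lit 1100000, nat_lit 1785000, nat_lit 1271250], [nat_lit 37, nat_lit 40, nat_lit 40, nat_lit 80, nat_lit 28, nat_lit 456, nat_lit 225, nat_lit 11]⟩,
 ⟨nat_lit 3872, nat_lit 4473, ⟨.ofNat (nat_lit 311945), .ofNat (nat_lit 475111), .ofNat (nat_lit 355043), .ofNat (nat_lit 518209), .ofNat (nat_lit 324151), .ofNat (nat_lit 479021), .ofNat (nat_lit 367703), .ofNat (nat_lit 522572)⟩, ⟨.ofNat (nat_lit 302621), .ofNat (nat_lit 438578), .ofNat (nat_lit 345754), .ofNat (nat_lit 481711), .ofNat (nat_lit 304717), .ofNat (nat_lit 433760), .ofNat (nat_lit 348304), .ofNat (nat_lit 477347)⟩⟩, [⟨nat_lit 0, nat_lit 99, nat_lit 77, nat_lit 100, nat_lit 37605252⟩]⟩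
noncomputable def p087_l115 : Lf2 := ⟨nat_lit 0, nat_lit 18, [nat_lit 100, nat_lit 5, nat_lit 5, nat_lit 20], true, nat_lit 240, nat_lit 300, nat_lit 0, nat_lit 364, ⟨nat_lit 0, nat_lit 0, nat_lit 1000, nat_lit 6, nat_lit 163, nat_lit 1000, nat_lit 204, nat_lit 1000, nat_lit 1169, nat_lit 218, nat_lit 40413, nat_lit 263, nat_lit 44817857, nat_lit 0, nat_lit 0, nat_lit 4616708, false, false⟩,
 nat_lit 0, nat_lit 3438, nat_lit 0, nat_lit 8399, nat_lit 2578, nat_lit 0, nat_lit 9, nat_lit 0, nat_lit 0, nat_lit 0, nat_lit 0, nat_lit 0, nat_lit 0, nat_lit 0, nat_lit 129, nat_lit 400000, nat_lit 0, nat_lit 0, [(nat_lit 19, [(nat_lit 5, nat_lit 1000)])],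
 ⟨p087_k0, nat_lit 0, nat_lit 0, nat_lit 173, nat_lit 0, nat_lit 127540, [nat_lit 1960800001, nat_lit 1629600001, nat_lit 268000000], [], [nat_lit 18833356963, nat_lit 19297481983, nat_lit 19632209942, nat_lit 20052122940, nat_lit 21162931385, nat_lit 21773583093, nat_lit 22031580436, nat_lit 22528106342], nat_lit 1271250, nat_lit 1271250, nat_lit 382400, nat_lit 1100001, nat_lit 1271250, nat_lit 1271250, [nat_lit 490000, nat_lit 1100000, nat_lit 2127500], [nat_lit 27, nat_lit 40, nat_lit 40, nat_lit 80, nat_lit 13, nat_lit 345, nat_lit 125, nat_lit 9]⟩, C1.Rw.none,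
 ⟨nat_lit 4183, nat_lit 4473, ⟨.ofNat (nat_lit 311996), .ofNat (nat_lit 475145), .ofNat (nat_lit 333558), .ofNat (nat_lit 496708), .ofNat (nat_lit 318053), .ofNat (nat_lit 477068), .ofNat (nat_lit 339715), .ofNat (nat_lit 498731)⟩, ⟨.ofNat (nat_lit 438578), .ofNat (nat_lit 540545), .ofNat (nat_lit 481711), .ofNat (nat_lit 583678), .ofNat (nat_lit 436254), .ofNat (nat_lit 535637), .ofNat (nat_lit 479587), .ofNat (nat_lit 578971)⟩⟩, [⟨nat_lit 0, nat_lit 100, nat_lit 80, nat_lit 89, nat_lit 27780701⟩, ⟨nat_lit 4, nat_lit 100, nat_lit 84, nat_lit 93, nat_lit 302259700⟩]⟩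
noncomputable def p087_l116 : Lf2 := ⟨nat_lit 0, nat_lit 18, [nat_lit 100, nat_lit 5, nat_lit 5, nat_lit 20], true, nat_lit 240, nat_lit 288, nat_lit 0, nat_lit 364, ⟨nat_lit 0, nat_lit 246, nat_lit 754, nat_lit 6, nat_lit 168, nat_lit 1000, nat_lit 198, nat_lit 754, nat_lit 3485, nat_lit 228, nat_lit 35943, nat_lit 261, nat_lit 44857545, nat_lit 9632795, nat_lit 12509660, nat_lit 4627159, false, false⟩,
 nat_lit 0, nat_lit 3913, nat_lit 0, nat_lit 2303, nat_lit 3050, nat_lit 0, nat_lit 0, nat_lit 0, nat_lit 0, nat_lit 0, nat_lit 0, nat_lit 0, nat_lit 0, nat_lit 0, nat_lit 55, nat_lit 346150, nat_lit 0, nat_lit 0, [(nat_lit 19, [(nat_lit 0, nat_lit 246), (nat_lit 4, nat_lit 113), (nat_lit 5, nat_lit 641)])],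
 ⟨p087_k20, nat_lit 0, nat_lit 0, nat_lit 167, nat_lit 0, nat_lit 213097, [nat_lit 1586370400, nat_lit 1304693600, nat_lit 46567734], [], [nat_lit 19694946560, nat_lit 20222992544, nat_lit 20515882100, nat_lit 21028189200, nat_lit 21529610291, nat_lit 22198617394, nat_lit 22319183870, nat_lit 22786351140], nat_lit 1271250, nat_lit 1271250, nat_lit 462650, nat_lit 1100001, nat_lit 1271250, nat_lit 1271250, [nat_lit 490000, nat_lit 1100000, nat_lit 1785000], [nat_lit 34, nat_lit 40, nat_lit 40, nat_lit 80, nat_lit 7, nat_lit 249, nat_lit 40, nat_lit 7]⟩, C1.Rw.none,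
 ⟨nat_lit 3872, nat_lit 4184, ⟨.ofNat (nat_lit 337921), .ofNat (nat_lit 477065), .ofNat (nat_lit 359583), .ofNat (nat_lit 498726), .ofNat (nat_lit 343550), .ofNat (nat_lit 479052), .ofNat (nat_lit 365339), .ofNat (nat_lit 500840)⟩, ⟨.ofNat (nat_lit 436254), .ofNat (nat_lit 515761), .ofNat (nat_lit 479587), .ofNat (nat_lit 559094), .ofNat (nat_lit 433760), .ofNat (nat_lit 511186), .ofNat (nat_lit 477347), .ofNat (nat_lit 554773)⟩⟩, [⟨nat_lit 0, nat_lit 100, nat_lit 76, nat_lit 87, nat_lit 23298020⟩, ⟨nat_lit 16, nat_lit 83, nat_lit 98, nat_lit 100, nat_lit 100244219⟩, ⟨nat_lit 4, nat_lit 100, nat_lit 77, nat_lit 91, nat_lit 174742906⟩]⟩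
noncomputable def p087_l117 : Lf2 := ⟨nat_lit 1, nat_lit 20, [nat_lit 5, nat_lit 5, nat_lit 5, nat_lit 20], false, nat_lit 240, nat_lit 300, nat_lit 0, nat_lit 364, zbN0,
 nat_lit 0, nat_lit 0, nat_lit 0, nat_lit 0, nat_lit 0, nat_lit 0, nat_lit 0, nat_lit 0, nat_lit 0, nat_lit 0, nat_lit 0, nat_lit 0, nat_lit 0, nat_lit 0, nat_lit 0, nat_lit 0, nat_lit 0, nat_lit 0, [],
 C1.Rw.none, C1.Rw.none,
 zbF0, []⟩
noncomputable def p087_l118 : Lf2 := ⟨nat_lit 0, nat_lit 15, [nat_lit 30, nat_lit 5, nat_lit 5, nat_lit 20], false, nat_lit 240, nat_lit 280, nat_lit 0, nat_lit 336, ⟨nat_lit 0, nat_lit 183, nat_lit 817, nat_lit 6, nat_lit 164, nat_lit 1000, nat_lit 192, nat_lit 817, nat_lit 17368, nat_lit 244, nat_lit 153600, nat_lit 311, nat_lit 45656218, nat_lit 9355776, nat_lit 11988006, nat_lit 4534959, false, false⟩,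
 nat_lit 0, nat_lit 4645, nat_lit 0, nat_lit 0, nat_lit 3483, nat_lit 0, nat_lit 0, nat_lit 0, nat_lit 0, nat_lit 0, nat_lit 0, nat_lit 0, nat_lit 0, nat_lit 0, nat_lit 48, nat_lit 278350, nat_lit 0, nat_lit 0, [(nat_lit 19, [(nat_lit 0, nat_lit 183), (nat_lit 4, nat_lit 628), (nat_lit 5, nat_lit 189)])],
 ⟨p087_k32, nat_lit 0, nat_lit 0, nat_lit 157, nat_lit 0, nat_lit 193688, [nat_lit 1795357601, nat_lit 1143037200, nat_lit 29374267], [], [nat_lit 19000311000, nat_lit 20113391818, nat_lit 19177867160, nat_lit 20242039152, nat_lit 20705954128, nat_lit 22153242965, nat_lit 20766254407, nat_lit 22148002428], nat_lit 1271250, nat_lit 1271250, nat_lit 490000, nat_lit 780000, nat_lit 1271250, nat_lit 1271250, [nat_lit 490000, nat_lit 1100000, nat_lit 1785000], [nat_lit 34, nat_lit 40, nat_lit 40, nat_lit 80, nat_lit 7, nat_lit 238, nat_lit 30, nat_lit 7]⟩, ⟨p087_k33, nat_lit 0, nat_lit 0, nat_lit 407, nat_lit 0, nat_lit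 266420, [nat_lit 0, nat_lit 0, nat_lit 0], [], [nat_lit 0, nat_lit 0, nat_lit 0, nat_lit 0, nat_lit 0, nat_lit 0, nat_lit 0, nat_lit 0], nat_lit 1271250, nat_lit 1271250, nat_lit 490000, nat_lit 780000, nat_lit 0, nat_lit 2373000, [nat_lit 1100000, nat_lit 1785000, nat_lit 1271250], [nat_lit 21, nat_lit 40, nat_lit 40, nat_lit 80, nat_lit 14, nat_lit 428, nat_lit 200, nat_lit 11]⟩,
 ⟨nat_lit 3872, nat_lit 4473, ⟨.ofNat (nat_lit 360688), .ofNat (nat_lit 428674), .ofNat (nat_lit 382237), .ofNat (nat_lit 450223), .ofNat (nat_lit 371739), .ofNat (nat_lit 436268), .ofNat (nat_lit 393514), .ofNat (nat_lit 458043)⟩, ⟨.ofNat (nat_lit 438578), .ofNat (nat_lit 506556), .ofNat (nat_lit 460144), .ofNat (nat_lit 528122), .ofNat (nat_lit 433760), .ofNat (nat_lit 498282), .ofNat (nat_lit 455554), .ofNat (nat_lit 520075)⟩⟩, [⟨nat_lit 0, nat_lit 100, nat_lit 81, nat_lit 93, nat_lit 101815148⟩, ⟨nat_lit 16, nat_lit 87, nat_lit 100,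 nat_lit 94, nat_lit 251614177⟩]⟩
noncomputable def p087_l119 : Lf2 := ⟨nat_lit 0, nat_lit 15, [nat_lit 30, nat_lit 5, nat_lit 5, nat_lit 20], false, nat_lit 240, nat_lit 280, nat_lit 0, nat_lit 336, ⟨nat_lit 18, nat_lit 18, nat_lit 964, nat_lit 6, nat_lit 191, nat_lit 982, nat_lit 192, nat_lit 964, nat_lit 17368, nat_lit 244, nat_lit 19503, nat_lit 247, nat_lit 43711120, nat_lit 11573069, nat_lit 11715811, nat_lit 4774524, false, false⟩,
 nat_lit 321, nat_lit 4208, nat_lit 0, nat_lit 0, nat_lit 3396, nat_lit 186, nat_lit 0, nat_lit 0, nat_lit 0, nat_lit 5, nat_lit 0, nat_lit 0, nat_lit 0, nat_lit 0, nat_lit 69, nat_lit 257050, nat_lit 0, nat_lit 0, [(nat_lit 19, [(nat_lit 0, nat_lit 18), (nat_lit 4, nat_lit 887), (nat_lit 5, nat_lit 77)])],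
 ⟨p087_k32, nat_lit 0, nat_lit 0, nat_lit 142, nat_lit 0, nat_lit 193688, [nat_lit 2034677601, nat_lit 1225628801, nat_lit 43446133], [], [nat_lit 18888721638, nat_lit 20084071626, nat_lit 19462633106, nat_lit 20723159130, nat_lit 20719629576, nat_lit 22086848736, nat_lit 21315893562, nat_lit 22568562408], nat_lit 1271250, nat_lit 1271250, nat_lit 780000, nat_lit 1100001, nat_lit 1271250, nat_lit 1271250, [nat_lit 490000, nat_lit 1100000, nat_lit 1785000], [nat_lit 34, nat_lit 40, nat_lit 40, nat_lit 80, nat_lit 7, nat_lit 249, nat_lit 40, nat_lit 7]⟩, ⟨p087_k33, nat_lit 0, nat_lit 0, nat_lit 386, nat_lit 0, nat_lit 266420, [nat_lit 84384000, nat_lit 143424000, nat_lit 213696000], [], [nat_lit 912072924, nat_lit 812202456, nat_lit 713857188, nat_lit 615511920, nat_lit 577546885, nat_lit 591950204, nat_lit 657530048, nat_lit 576982959], nat_lit 1271250, nat_lit 1271250, nat_lit 780000, nat_lit 1100001, nat_lit 0, nat_lit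 2373000, [nat_lit 1100000, nat_lit 1785000, nat_lit 1271250], [nat_lit 21, nat_lit 40, nat_lit 40, nat_lit 80, nat_lit 14, nat_lit 428, nat_lit 200, nat_lit 11]⟩,
 ⟨nat_lit 3872, nat_lit 4473, ⟨.ofNat (nat_lit 428674), .ofNat (nat_lit 496660), .ofNat (nat_lit 450223), .ofNat (nat_lit 518209), .ofNat (nat_lit 436268), .ofNat (nat_lit 500797), .ofNat (nat_lit 458043), .ofNat (nat_lit 522572)⟩, ⟨.ofNat (nat_lit 438578), .ofNat (nat_lit 506556), .ofNat (nat_lit 460144), .ofNat (nat_lit 528122), .ofNat (nat_lit 433760), .ofNat (nat_lit 498282), .ofNat (nat_lit 455554), .ofNat (nat_lit 520075)⟩⟩, [⟨nat_lit 4, nat_lit 100, nat_lit 79, nat_lit 87, nat_lit 363047568⟩]⟩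
noncomputable def p087_l120 : Lf2 := ⟨nat_lit 0, nat_lit 15, [nat_lit 30, nat_lit 5, nat_lit 5, nat_lit 20], false, nat_lit 240, nat_lit 300, nat_lit 0, nat_lit 160, ⟨nat_lit 204, nat_lit 0, nat_lit 796, nat_lit 6, nat_lit 164, nat_lit 796, nat_lit 207, nat_lit 796, nat_lit 1169, nat_lit 218, nat_lit 153600, nat_lit 311, nat_lit 44420234, nat_lit 0, nat_lit 0, nat_lit 4659338, false, false⟩,
 nat_lit 3625, nat_lit 681, nat_lit 0, nat_lit 11673, nat_lit 3229, nat_lit 2110, nat_lit 73, nat_lit 0, nat_lit 0, nat_lit 171, nat_lit 0, nat_lit 0, nat_lit 0, nat_lit 0, nat_lit 27, nat_lit 318400, nat_lit 0, nat_lit 0, [(nat_lit 19, [(nat_lit 5, nat_lit 796)])],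
 ⟨p087_k32, nat_lit 0, nat_lit 0, nat_lit 144, nat_lit 0, nat_lit 132158, [nat_lit 1369852801, nat_lit 1244753600, nat_lit 41814400], [], [nat_lit 19101694842, nat_lit 20241376129, nat_lit 19324076922, nat_lit 20373792699, nat_lit 21617882398, nat_lit 22946721874, nat_lit 21689477101, nat_lit 22962088026], nat_lit 1271250, nat_lit 1271250, nat_lit 490000, nat_lit 780000, nat_lit 1271250, nat_lit 1271250, [nat_lit 490000, nat_lit 1100000, nat_lit 1785000], [nat_lit 34, nat_lit 40, nat_lit 40, nat_lit 80, nat_lit 7, nat_lit 238, nat_lit 30, nat_lit 7]⟩, ⟨p087_k33, nat_lit 0, nat_lit 0, nat_lit 375, nat_lit 0, nat_lit 182629, [nat_lit 956352000, nat_lit 1625472000, nat_lit 2421888000], [], [nat_lit 8479341668, nat_lit 7363704488, nat_lit 6264862908, nat_lit 5928994521, nat_lit 5240005204, nat_lit 4548568305, nat_lit 5949057324, nat_lit 4968114104], nat_lit 1271250, nat_lit 1271250, nat_lit 490000, nat_lit 780000, nat_lit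 0, nat_lit 1100001, [nat_lit 1100000, nat_lit 1785000, nat_lit 1271250], [nat_lit 21, nat_lit 40, nat_lit 40, nat_lit 80, nat_lit 14, nat_lit 373, nat_lit 150, nat_lit 10]⟩,
 ⟨nat_lit 3872, nat_lit 4473, ⟨.ofNat (nat_lit 360688), .ofNat (nat_lit 428674), .ofNat (nat_lit 382237), .ofNat (nat_lit 450223), .ofNat (nat_lit 371739), .ofNat (nat_lit 436268), .ofNat (nat_lit 393514), .ofNat (nat_lit 458043)⟩, ⟨.ofNat (nat_lit 460144), .ofNat (nat_lit 562111), .ofNat (nat_lit 481711), .ofNat (nat_lit 583678), .ofNat (nat_lit 455554), .ofNat (nat_lit 552336), .ofNat (nat_lit 477347), .ofNat (nat_lit 574129)⟩⟩, [⟨nat_lit 0, nat_lit 100, nat_lit 81, nat_lit 93, nat_lit 442803928⟩, ⟨nat_lit 4, nat_lit 100, nat_lit 82, nat_lit 97, nat_lit 346661982⟩]⟩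
noncomputable def p087_l121 : Lf2 := ⟨nat_lit 0, nat_lit 15, [nat_lit 30, nat_lit 5, nat_lit 5, nat_lit 20], false, nat_lit 240, nat_lit 300, nat_lit 160, nat_lit 240, ⟨nat_lit 1000, nat_lit 0, nat_lit 0, nat_lit 0, nat_lit 0, nat_lit 0, nat_lit 0, nat_lit 0, nat_lit 0, nat_lit 0, nat_lit 0, nat_lit 0, nat_lit 0, nat_lit 0, nat_lit 0, nat_lit 0, false, false⟩,
 nat_lit 35785, nat_lit 0, nat_lit 0, nat_lit 0, nat_lit 11782, nat_lit 20829, nat_lit 0, nat_lit 0, nat_lit 0, nat_lit 1101, nat_lit 0, nat_lit 0, nat_lit 0, nat_lit 0, nat_lit 0, nat_lit 0, nat_lit 0, nat_lit 0, [],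
 ⟨p087_k32, nat_lit 0, nat_lit 0, nat_lit 144, nat_lit 0, nat_lit 132158, [nat_lit 2032000001, nat_lit 4688000000, nat_lit 7968000000], [], [nat_lit 23284329016, nat_lit 25899172004, nat_lit 21817656232, nat_lit 24120471092, nat_lit 29066365084, nat_lit 32004960413, nat_lit 27127209358, nat_lit 29912204508], nat_lit 1271250, nat_lit 1271250, nat_lit 490000, nat_lit 780000, nat_lit 1271250, nat_lit 1271250, [nat_lit 490000, nat_lit 1100000, nat_lit 1785000], [nat_lit 34, nat_lit 40, nat_lit 40, nat_lit 80, nat_lit 7, nat_lit 238, nat_lit 30, nat_lit 7]⟩, ⟨p087_k33, nat_lit 0, nat_lit 0, nat_lit 193, nat_lit 0, nat_lit 182629, [nat_lit 4688000000, nat_lit 7968000000, nat_lit 11872000000], [], [nat_lit 11839189065, nat_lit 14373568807, nat_lit 8811151045, nat_lit 11182439675, nat_lit 15134553713, nat_lit 17111405199, nat_lit 13457844376, nat_lit 13631303071], nat_lit 1271250, nat_lit 1271250, nat_lit 490000, nat_lit 780000,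 nat_lit 1100001, nat_lit 1785000, [nat_lit 1100000, nat_lit 1785000, nat_lit 1271250], [nat_lit 21, nat_lit 40, nat_lit 40, nat_lit 80, nat_lit 14, nat_lit 401, nat_lit 175, nat_lit 10]⟩,
 zbF0, [⟨nat_lit 0, nat_lit 99, nat_lit 77, nat_lit 100, nat_lit 1642842593⟩, ⟨nat_lit 4, nat_lit 100, nat_lit 82, nat_lit 97, nat_lit 907480268⟩]⟩
noncomputable def p087_l122 : Lf2 := ⟨nat_lit 0, nat_lit 15, [nat_lit 30, nat_lit 5, nat_lit 5, nat_lit 20], false, nat_lit 240, nat_lit 300, nat_lit 240, nat_lit 352, ⟨nat_lit 0, nat_lit 985, nat_lit 15, nat_lit 6, nat_lit 161, nat_lit 1000, nat_lit 208, nat_lit 15, nat_lit 1169, nat_lit 218, nat_lit 244017, nat_lit 336, nat_lit 44574370, nat_lit 8972733, nat_lit 13452897, nat_lit 4634976, false, false⟩,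
 nat_lit 0, nat_lit 5535, nat_lit 0, nat_lit 6565, nat_lit 4151, nat_lit 0, nat_lit 0, nat_lit 0, nat_lit 0, nat_lit 0, nat_lit 0, nat_lit 0, nat_lit 0, nat_lit 0, nat_lit 0, nat_lit 249100, nat_lit 0, nat_lit 0, [(nat_lit 19, [(nat_lit 0, nat_lit 985), (nat_lit 3, nat_lit 15)])],
 ⟨p087_k32, nat_lit 0, nat_lit 0, nat_lit 75, nat_lit 0, nat_lit 44873, [nat_lit 1744480001, nat_lit 2158804000, nat_lit 2836881334], [], [nat_lit 19365315812, nat_lit 20105163142, nat_lit 19516736365, nat_lit 20179583516, nat_lit 22528547084, nat_lit 23172001480, nat_lit 22495093684, nat_lit 23109557694], nat_lit 1271250, nat_lit 1271250, nat_lit 490000, nat_lit 780000, nat_lit 1271250, nat_lit 1271250, [nat_lit 490000, nat_lit 1100000, nat_lit 1785000], [nat_lit 34, nat_lit 40, nat_lit 40, nat_lit 80, nat_lit 7, nat_lit 238, nat_lit 30, nat_lit 7]⟩, ⟨p087_k33, nat_lit 0, nat_lit 0, nat_lit 182, nat_lit 0, nat_lit 62010, [nat_lit 0, nat_lit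 0, nat_lit 0], [], [nat_lit 0, nat_lit 0, nat_lit 0, nat_lit 0, nat_lit 0, nat_lit 0, nat_lit 0, nat_lit 0], nat_lit 1271250, nat_lit 1271250, nat_lit 490000, nat_lit 780000, nat_lit 1271250, nat_lit 1271250, [nat_lit 1100000, nat_lit 1785000, nat_lit 1271250], [nat_lit 21, nat_lit 40, nat_lit 40, nat_lit 80, nat_lit 14, nat_lit 428, nat_lit 200, nat_lit 10]⟩,
 ⟨nat_lit 4183, nat_lit 4473, ⟨.ofNat (nat_lit 360749), .ofNat (nat_lit 428729), .ofNat (nat_lit 371531), .ofNat (nat_lit 439510), .ofNat (nat_lit 366218), .ofNat (nat_lit 432475), .ofNat (nat_lit 377050), .ofNat (nat_lit 443306)⟩, ⟨.ofNat (nat_lit 460144), .ofNat (nat_lit 562111), .ofNat (nat_lit 481711), .ofNat (nat_lit 583678), .ofNat (nat_lit 457921), .ofNat (nat_lit 557304), .ofNat (nat_lit 479587), .ofNat (nat_lit 578971)⟩⟩, [⟨nat_lit 0, nat_lit 100, nat_lit 81, nat_lit 93, nat_lit 116638212⟩, ⟨nat_lit 4, nat_lit 100, nat_lit 86, nat_lit 98, nat_lit 260739531⟩]⟩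
noncomputable def p087_l123 : Lf2 := ⟨nat_lit 0, nat_lit 15, [nat_lit 30, nat_lit 5, nat_lit 5, nat_lit 20], true, nat_lit 240, nat_lit 288, nat_lit 240, nat_lit 352, ⟨nat_lit 0, nat_lit 172, nat_lit 828, nat_lit 6, nat_lit 167, nat_lit 1000, nat_lit 203, nat_lit 828, nat_lit 3485, nat_lit 228, nat_lit 260417, nat_lit 340, nat_lit 44603822, nat_lit 9485848, nat_lit 12910330, nat_lit 4649343, false, false⟩,
 nat_lit 0, nat_lit 3669, nat_lit 0, nat_lit 1844, nat_lit 2860, nat_lit 0, nat_lit 0, nat_lit 0, nat_lit 0, nat_lit 0, nat_lit 0, nat_lit 0, nat_lit 0, nat_lit 0, nat_lit 70, nat_lit 348400, nat_lit 0, nat_lit 0, [(nat_lit 19, [(nat_lit 0, nat_lit 172), (nat_lit 4, nat_lit 172), (nat_lit 5, nat_lit 656)])],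
 ⟨p087_k34, nat_lit 0, nat_lit 0, nat_lit 143, nat_lit 0, nat_lit 155077, [nat_lit 1695750400, nat_lit 1380676800, nat_lit 44190400], [], [nat_lit 19621293142, nat_lit 20127691085, nat_lit 19807481760, nat_lit 20298816080, nat_lit 21395677027, nat_lit 22000859461, nat_lit 21532935977, nat_lit 22090947792], nat_lit 1271250, nat_lit 1271250, nat_lit 573850, nat_lit 780000, nat_lit 1271250, nat_lit 1271250, [nat_lit 490000, nat_lit 1100000, nat_lit 1785000], [nat_lit 34, nat_lit 40, nat_lit 40, nat_lit 80, nat_lit 7, nat_lit 238, nat_lit 30, nat_lit 7]⟩, C1.Rw.none,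
 ⟨nat_lit 3872, nat_lit 4184, ⟨.ofNat (nat_lit 386087), .ofNat (nat_lit 432468), .ofNat (nat_lit 396918), .ofNat (nat_lit 443299), .ofNat (nat_lit 391148), .ofNat (nat_lit 436316), .ofNat (nat_lit 402043), .ofNat (nat_lit 447210)⟩, ⟨.ofNat (nat_lit 457921), .ofNat (nat_lit 537427), .ofNat (nat_lit 479587), .ofNat (nat_lit 559094), .ofNat (nat_lit 455554), .ofNat (nat_lit 532980), .ofNat (nat_lit 477347), .ofNat (nat_lit 554773)⟩⟩, [⟨nat_lit 0, nat_lit 100, nat_lit 78, nat_lit 93, nat_lit 87057663⟩, ⟨nat_lit 16, nat_lit 83, nat_lit 98, nat_lit 100, nat_lit 153146050⟩, ⟨nat_lit 4, nat_lit 100, nat_lit 79, nat_lit 96, nat_lit 90000186⟩]⟩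
noncomputable def p087_l124 : Lf2 := ⟨nat_lit 0, nat_lit 15, [nat_lit 30, nat_lit 5, nat_lit 5, nat_lit 20], false, nat_lit 240, nat_lit 300, nat_lit 240, nat_lit 344, ⟨nat_lit 614, nat_lit 322, nat_lit 64, nat_lit 6, nat_lit 169, nat_lit 385, nat_lit 208, nat_lit 64, nat_lit 1169, nat_lit 218, nat_lit 191072, nat_lit 322, nat_lit 43998825, nat_lit 9643524, nat_lit 13357651, nat_lit 4714253, false, false⟩,
 nat_lit 8197, nat_lit 0, nat_lit 0, nat_lit 4368, nat_lit 5466, nat_lit 4992, nat_lit 0, nat_lit 0, nat_lit 0, nat_lit 754, nat_lit 0, nat_lit 0, nat_lit 0, nat_lit 0, nat_lit 0, nat_lit 92660, nat_lit 0, nat_lit 0, [(nat_lit 19, [(nat_lit 0, nat_lit 322), (nat_lit 3, nat_lit 64)])],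
 ⟨p087_k32, nat_lit 0, nat_lit 0, nat_lit 80, nat_lit 0, nat_lit 78029, [nat_lit 2705222401, nat_lit 3589116801, nat_lit 5735377600], [], [nat_lit 19898443218, nat_lit 20748089252, nat_lit 19866601226, nat_lit 20635964692, nat_lit 23429708191, nat_lit 24292385903, nat_lit 23218046945, nat_lit 23945776579], nat_lit 1271250, nat_lit 1271250, nat_lit 573850, nat_lit 780000, nat_lit 1271250, nat_lit 1271250, [nat_lit 490000, nat_lit 1100000, nat_lit 1785000], [nat_lit 34, nat_lit 40, nat_lit 40, nat_lit 80, nat_lit 7, nat_lit 238, nat_lit 30, nat_lit 7]⟩, ⟨p087_k35, nat_lit 0, nat_lit 0, nat_lit 188, nat_lit 0, nat_lit 101671, [nat_lit 2878432000, nat_lit 4892352000, nat_lit 7289408000], [], [nat_lit 12242493828, nat_lit 12579747764, nat_lit 11875532164, nat_lit 12199770140, nat_lit 16022640419, nat_lit 16263768173, nat_lit 15516117871, nat_lit 15779043358], nat_lit 1271250, nat_lit 1271250, nat_lit 573850, nat_lit 780000,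 nat_lit 1271250, nat_lit 1271250, [nat_lit 1100000, nat_lit 1785000, nat_lit 1271250], [nat_lit 21, nat_lit 40, nat_lit 40, nat_lit 80, nat_lit 14, nat_lit 428, nat_lit 200, nat_lit 10]⟩,
 ⟨nat_lit 4183, nat_lit 4473, ⟨.ofNat (nat_lit 391925), .ofNat (nat_lit 439510), .ofNat (nat_lit 402706), .ofNat (nat_lit 450291), .ofNat (nat_lit 396926), .ofNat (nat_lit 443306), .ofNat (nat_lit 407757), .ofNat (nat_lit 454137)⟩, ⟨.ofNat (nat_lit 460144), .ofNat (nat_lit 562111), .ofNat (nat_lit 481711), .ofNat (nat_lit 583678), .ofNat (nat_lit 457921), .ofNat (nat_lit 557304), .ofNat (nat_lit 479587), .ofNat (nat_lit 578971)⟩⟩, [⟨nat_lit 0, nat_lit 100, nat_lit 83, nat_lit 98, nat_lit 348466076⟩, ⟨nat_lit 16, nat_lit 86, nat_lit 100, nat_lit 98, nat_lit 228703951⟩, ⟨nat_lit 19, nat_lit 100, nat_lit 81, nat_lit 96, nat_lit 48811082⟩, ⟨nat_lit 23, nat_lit 100, nat_lit 80, nat_lit 94, nat_lit 295978467⟩]⟩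
noncomputable def p087_l125 : Lf2 := ⟨nat_lit 0, nat_lit 12, [nat_lit 126, nat_lit 5, nat_lit 5, nat_lit 20], false, nat_lit 240, nat_lit 288, nat_lit 240, nat_lit 344, ⟨nat_lit 265, nat_lit 0, nat_lit 735, nat_lit 6, nat_lit 174, nat_lit 735, nat_lit 203, nat_lit 735, nat_lit 3485, nat_lit 228, nat_lit 153600, nat_lit 311, nat_lit 44112934, nat_lit 0, nat_lit 0, nat_lit 4713942, false, false⟩,
 nat_lit 5129, nat_lit 0, nat_lit 0, nat_lit 0, nat_lit 3998, nat_lit 3123, nat_lit 0, nat_lit 0, nat_lit 0, nat_lit 115, nat_lit 0, nat_lit 0, nat_lit 0, nat_lit 0, nat_lit 0, nat_lit 183750, nat_lit 0, nat_lit 0, [(nat_lit 19, [(nat_lit 4, nat_lit 735)])],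
 ⟨p087_k36, nat_lit 0, nat_lit 0, nat_lit 108, nat_lit 0, nat_lit 120979, [nat_lit 1654504000, nat_lit 1130306000, nat_lit 989752000], [], [nat_lit 20063852524, nat_lit 20726430312, nat_lit 20095168274, nat_lit 20741570104, nat_lit 22272747813, nat_lit 23014114872, nat_lit 22254417708, nat_lit 22940791626], nat_lit 1271250, nat_lit 1271250, nat_lit 631250, nat_lit 780000, nat_lit 1271250, nat_lit 1271250, [nat_lit 490000, nat_lit 1100000, nat_lit 1442500], [nat_lit 6, nat_lit 40, nat_lit 40, nat_lit 80, nat_lit 3, nat_lit 238, nat_lit 30, nat_lit 8]⟩, ⟨p087_k37, nat_lit 0, nat_lit 0, nat_lit 177, nat_lit 0, nat_lit 164959, [nat_lit 1242320000, nat_lit 2111520000, nat_lit 2608130000], [], [nat_lit 5326091581, nat_lit 5533615367, nat_lit 5145598830, nat_lit 5346701285, nat_lit 7634356095, nat_lit 7775183083, nat_lit 7386078070, nat_lit 7515323038], nat_lit 1271250, nat_lit 1271250, nat_lit 631250, nat_lit 780000, nat_lit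 1271250, nat_lit 1271250, [nat_lit 1100000, nat_lit 1785000, nat_lit 1271250], [nat_lit 29, nat_lit 40, nat_lit 40, nat_lit 80, nat_lit 17, nat_lit 428, nat_lit 200, nat_lit 12]⟩,
 ⟨nat_lit 3872, nat_lit 4184, ⟨.ofNat (nat_lit 410169), .ofNat (nat_lit 443299), .ofNat (nat_lit 421001), .ofNat (nat_lit 454130), .ofNat (nat_lit 414947), .ofNat (nat_lit 447210), .ofNat (nat_lit 425842), .ofNat (nat_lit 458104)⟩, ⟨.ofNat (nat_lit 457921), .ofNat (nat_lit 537427), .ofNat (nat_lit 479587), .ofNat (nat_lit 559094), .ofNat (nat_lit 455554), .ofNat (nat_lit 532980), .ofNat (nat_lit 477347), .ofNat (nat_lit 554773)⟩⟩, [⟨nat_lit 0, nat_lit 100, nat_lit 80, nat_lit 97, nat_lit 186986472⟩, ⟨nat_lit 16, nat_lit 83, nat_lit 98, nat_lit 100, nat_lit 213596853⟩, ⟨nat_lit 23, nat_lit 100, nat_lit 75, nat_lit 94, nat_lit 181248099⟩]⟩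
noncomputable def p087_l126 : Lf2 := ⟨nat_lit 0, nat_lit 15, [nat_lit 30, nat_lit 5, nat_lit 5, nat_lit 20], false, nat_lit 240, nat_lit 288, nat_lit 240, nat_lit 344, ⟨nat_lit 571, nat_lit 367, nat_lit 62, nat_lit 6, nat_lit 174, nat_lit 429, nat_lit 203, nat_lit 62, nat_lit 3485, nat_lit 228, nat_lit 153600, nat_lit 311, nat_lit 44112934, nat_lit 10054004, nat_lit 12833062, nat_lit 4713942, false, false⟩,
 nat_lit 7629, nat_lit 0, nat_lit 0, nat_lit 4299, nat_lit 5345, nat_lit 4646, nat_lit 0, nat_lit 0, nat_lit 0, nat_lit 696, nat_lit 0, nat_lit 0, nat_lit 0, nat_lit 0, nat_lit 0, nat_lit 103530, nat_lit 0, nat_lit 0, [(nat_lit 19, [(nat_lit 0, nat_lit 367), (nat_lit 3, nat_lit 62)])],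
 ⟨p087_k34, nat_lit 0, nat_lit 0, nat_lit 80, nat_lit 0, nat_lit 83909, [nat_lit 2657225601, nat_lit 3485932800, nat_lit 5526178400], [], [nat_lit 20695633986, nat_lit 21520826370, nat_lit 20662803326, nat_lit 21426309100, nat_lit 23365112308, nat_lit 24182993519, nat_lit 23226899295, nat_lit 23948499964], nat_lit 1271250, nat_lit 1271250, nat_lit 631250, nat_lit 780000, nat_lit 1271250, nat_lit 1271250, [nat_lit 490000, nat_lit 1100000, nat_lit 1785000], [nat_lit 34, nat_lit 40, nat_lit 40, nat_lit 80, nat_lit 7, nat_lit 238, nat_lit 30, nat_lit 7]⟩, ⟨p087_k35, nat_lit 0, nat_lit 0, nat_lit 188, nat_lit 0, nat_lit 114709, [nat_lit 2676848000, nat_lit 4549728000, nat_lit 6778912000], [], [nat_lit 11331056161, nat_lit 11641349662, nat_lit 11086934342, nat_lit 11388576552, nat_lit 14810799809, nat_lit 15019157323, nat_lit 14473915778, nat_lit 14676597750], nat_lit 1271250, nat_lit 1271250, nat_lit 631250, nat_lit 780000,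 nat_lit 1271250, nat_lit 1271250, [nat_lit 1100000, nat_lit 1785000, nat_lit 1271250], [nat_lit 21, nat_lit 40, nat_lit 40, nat_lit 80, nat_lit 14, nat_lit 428, nat_lit 200, nat_lit 10]⟩,
 ⟨nat_lit 3872, nat_lit 4184, ⟨.ofNat (nat_lit 410169), .ofNat (nat_lit 443299), .ofNat (nat_lit 421001), .ofNat (nat_lit 454130), .ofNat (nat_lit 414947), .ofNat (nat_lit 447210), .ofNat (nat_lit 425842), .ofNat (nat_lit 458104)⟩, ⟨.ofNat (nat_lit 457921), .ofNat (nat_lit 537427), .ofNat (nat_lit 479587), .ofNat (nat_lit 559094), .ofNat (nat_lit 455554), .ofNat (nat_lit 532980), .ofNat (nat_lit 477347), .ofNat (nat_lit 554773)⟩⟩, [⟨nat_lit 0, nat_lit 100, nat_lit 80, nat_lit 97, nat_lit 134604703⟩, ⟨nat_lit 0, nat_lit 99, nat_lit 77, nat_lit 100, nat_lit 229167169⟩, ⟨nat_lit 4, nat_lit 100, nat_lit 79, nat_lit 96, nat_lit 256779257⟩, ⟨nat_lit 7, nat_lit 81, nat_lit 100, nat_lit 96, nat_lit 37589865⟩, ⟨nat_lit 23, nat_lit 100, nat_lit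 75, nat_lit 94, nat_lit 281556777⟩]⟩
noncomputable def p087_l127 : Lf2 := ⟨nat_lit 0, nat_lit 15, [nat_lit 30, nat_lit 5, nat_lit 5, nat_lit 20], false, nat_lit 240, nat_lit 300, nat_lit 0, nat_lit 352, ⟨nat_lit 0, nat_lit 1000, nat_lit 0, nat_lit 6, nat_lit 190, nat_lit 1000, nat_lit 208, nat_lit 0, nat_lit 0, nat_lit 0, nat_lit 0, nat_lit 0, nat_lit 42557448, nat_lit 11340234, nat_lit 13102318, nat_lit 4892115, false, false⟩,
 nat_lit 0, nat_lit 5723, nat_lit 0, nat_lit 538, nat_lit 4292, nat_lit 0, nat_lit 0, nat_lit 0, nat_lit 0, nat_lit 0, nat_lit 0, nat_lit 0, nat_lit 0, nat_lit 0, nat_lit 0, nat_lit 250000, nat_lit 0, nat_lit 0, [(nat_lit 19, [(nat_lit 0, nat_lit 1000)])],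
 ⟨p087_k32, nat_lit 0, nat_lit 0, nat_lit 70, nat_lit 0, nat_lit 78029, [nat_lit 1542400001, nat_lit 2190400000, nat_lit 2901600000], [], [nat_lit 19387505920, nat_lit 20104872600, nat_lit 19950973056, nat_lit 20627900168, nat_lit 22450843528, nat_lit 23095587498, nat_lit 22842055044, nat_lit 23441171898], nat_lit 1271250, nat_lit 1271250, nat_lit 780000, nat_lit 1100001, nat_lit 1271250, nat_lit 1271250, [nat_lit 490000, nat_lit 1100000, nat_lit 1785000], [nat_lit 34, nat_lit 40, nat_lit 40, nat_lit 80, nat_lit 7, nat_lit 249, nat_lit 40, nat_lit 7]⟩, ⟨p087_k33, nat_lit 0, nat_lit 0, nat_lit 324, nat_lit 0, nat_lit 107829, [nat_lit 0, nat_lit 0, nat_lit 0], [], [nat_lit 0, nat_lit 0, nat_lit 0, nat_lit 0, nat_lit 0, nat_lit 0, nat_lit 0, nat_lit 0], nat_lit 1271250, nat_lit 1271250, nat_lit 780000, nat_lit 1100001, nat_lit 0, nat_lit 2486000, [nat_lit 1100000, nat_lit 1785000, nat_lit 1271250], [nat_lit 21, nat_lit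 40, nat_lit 40, nat_lit 80, nat_lit 14, nat_lit 428, nat_lit 200, nat_lit 11]⟩,
 ⟨nat_lit 4183, nat_lit 4473, ⟨.ofNat (nat_lit 428729), .ofNat (nat_lit 496708), .ofNat (nat_lit 450291), .ofNat (nat_lit 518271), .ofNat (nat_lit 432475), .ofNat (nat_lit 498731), .ofNat (nat_lit 454137), .ofNat (nat_lit 520394)⟩, ⟨.ofNat (nat_lit 460144), .ofNat (nat_lit 562111), .ofNat (nat_lit 481711), .ofNat (nat_lit 583678), .ofNat (nat_lit 457921), .ofNat (nat_lit 557304), .ofNat (nat_lit 479587), .ofNat (nat_lit 578971)⟩⟩, [⟨nat_lit 16, nat_lit 87, nat_lit 95, nat_lit 100, nat_lit 261208728⟩]⟩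
noncomputable def p087_l128 : Lf2 := ⟨nat_lit 0, nat_lit 12, [nat_lit 126, nat_lit 5, nat_lit 5, nat_lit 20], false, nat_lit 240, nat_lit 288, nat_lit 0, nat_lit 160, ⟨nat_lit 1000, nat_lit 0, nat_lit 0, nat_lit 0, nat_lit 0, nat_lit 0, nat_lit 0, nat_lit 0, nat_lit 0, nat_lit 0, nat_lit 0, nat_lit 0, nat_lit 0, nat_lit 0, nat_lit 0, nat_lit 0, false, false⟩,
 nat_lit 22646, nat_lit 0, nat_lit 0, nat_lit 0, nat_lit 8560, nat_lit 13181, nat_lit 0, nat_lit 0, nat_lit 0, nat_lit 32, nat_lit 0, nat_lit 0, nat_lit 0, nat_lit 0, nat_lit 0, nat_lit 0, nat_lit 0, nat_lit 0, [],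
 ⟨p087_k36, nat_lit 0, nat_lit 0, nat_lit 98, nat_lit 0, nat_lit 120979, [nat_lit 2032000001, nat_lit 4688000000, nat_lit 6250000000], [], [nat_lit 21925893480, nat_lit 22935916880, nat_lit 21942530160, nat_lit 22920281600, nat_lit 25198968152, nat_lit 26347634832, nat_lit 25121837432, nat_lit 26234255425], nat_lit 1271250, nat_lit 1271250, nat_lit 780000, nat_lit 936251, nat_lit 1271250, nat_lit 1271250, [nat_lit 490000, nat_lit 1100000, nat_lit 1442500], [nat_lit 6, nat_lit 40, nat_lit 40, nat_lit 80, nat_lit 3, nat_lit 249, nat_lit 40, nat_lit 8]⟩, ⟨p087_k38, nat_lit 0, nat_lit 0, nat_lit 243, nat_lit 0, nat_lit 174861, [nat_lit 4688000000, nat_lit 7968000000, nat_lit 9842000000], [], [nat_lit 31885981066, nat_lit 29193742320, nat_lit 27397079594, nat_lit 29125092850, nat_lit 17748226830, nat_lit 19056593984, nat_lit 17545519530, nat_lit 18798633690], nat_lit 1271250, nat_lit 1271250, nat_lit 780000, nat_lit 936251,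 nat_lit 0, nat_lit 1100001, [nat_lit 1100000, nat_lit 1785000, nat_lit 1271250], [nat_lit 29, nat_lit 40, nat_lit 40, nat_lit 80, nat_lit 17, nat_lit 373, nat_lit 150, nat_lit 11]⟩,
 zbF0, [⟨nat_lit 4, nat_lit 100, nat_lit 79, nat_lit 96, nat_lit 780071053⟩]⟩
noncomputable def p087_l129 : Lf2 := ⟨nat_lit 0, nat_lit 12, [nat_lit 126, nat_lit 5, nat_lit 5, nat_lit 20], true, nat_lit 240, nat_lit 288, nat_lit 160, nat_lit 352, ⟨nat_lit 0, nat_lit 357, nat_lit 643, nat_lit 6, nat_lit 182, nat_lit 1000, nat_lit 203, nat_lit 643, nat_lit 3485, nat_lit 228, nat_lit 71272, nat_lit 280, nat_lit 43493113, nat_lit 10775290, nat_lit 12731597, nat_lit 4790761, false, false⟩,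
 nat_lit 0, nat_lit 4501, nat_lit 0, nat_lit 0, nat_lit 3508, nat_lit 0, nat_lit 0, nat_lit 0, nat_lit 0, nat_lit 0, nat_lit 0, nat_lit 0, nat_lit 0, nat_lit 0, nat_lit 0, nat_lit 250000, nat_lit 0, nat_lit 0, [(nat_lit 19, [(nat_lit 0, nat_lit 357), (nat_lit 4, nat_lit 643)])],
 ⟨p087_k39, nat_lit 0, nat_lit 0, nat_lit 108, nat_lit 0, nat_lit 149892, [nat_lit 1526968001, nat_lit 897575467, nat_lit 392318133], [], [nat_lit 20093995538, nat_lit 20667201486, nat_lit 20368254150, nat_lit 20926394822, nat_lit 22058319953, nat_lit 22577590187, nat_lit 22281587181, nat_lit 22797933524], nat_lit 1271250, nat_lit 1271250, nat_lit 780000, nat_lit 936251, nat_lit 1271250, nat_lit 1271250, [nat_lit 490000, nat_lit 780000, nat_lit 1435000], [nat_lit 85, nat_lit 40, nat_lit 40, nat_lit 80, nat_lit 16, nat_lit 249, nat_lit 40, nat_lit 8]⟩, C1.Rw.none,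
 ⟨nat_lit 3872, nat_lit 4184, ⟨.ofNat (nat_lit 432468), .ofNat (nat_lit 465597), .ofNat (nat_lit 443299), .ofNat (nat_lit 476428), .ofNat (nat_lit 436316), .ofNat (nat_lit 468578), .ofNat (nat_lit 447210), .ofNat (nat_lit 479472)⟩, ⟨.ofNat (nat_lit 457921), .ofNat (nat_lit 537427), .ofNat (nat_lit 479587), .ofNat (nat_lit 559094), .ofNat (nat_lit 455554), .ofNat (nat_lit 532980), .ofNat (nat_lit 477347), .ofNat (nat_lit 554773)⟩⟩, [⟨nat_lit 4, nat_lit 100, nat_lit 79, nat_lit 96, nat_lit 279708409⟩]⟩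
noncomputable def p087_l130 : Lf2 := ⟨nat_lit 0, nat_lit 12, [nat_lit 126, nat_lit 5, nat_lit 5, nat_lit 20], false, nat_lit 240, nat_lit 288, nat_lit 160, nat_lit 344, ⟨nat_lit 214, nat_lit 45, nat_lit 741, nat_lit 6, nat_lit 187, nat_lit 786, nat_lit 203, nat_lit 741, nat_lit 3485, nat_lit 228, nat_lit 52739, nat_lit 270, nat_lit 43183420, nat_lit 11137260, nat_lit 12679320, nat_lit 4827223, false, false⟩,
 nat_lit 4900, nat_lit 0, nat_lit 0, nat_lit 0, nat_lit 3819, nat_lit 2984, nat_lit 0, nat_lit 0, nat_lit 0, nat_lit 0, nat_lit 0, nat_lit 0, nat_lit 0, nat_lit 0, nat_lit 0, nat_lit 196500, nat_lit 0, nat_lit 0, [(nat_lit 19, [(nat_lit 0, nat_lit 45), (nat_lit 4, nat_lit 741)])],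
 ⟨p087_k39, nat_lit 0, nat_lit 0, nat_lit 99, nat_lit 0, nat_lit 120979, [nat_lit 1629390400, nat_lit 1084659201, nat_lit 817776799], [], [nat_lit 20162486996, nat_lit 20758529985, nat_lit 20422366212, nat_lit 21002419633, nat_lit 22182955246, nat_lit 22807116717, nat_lit 22388865875, nat_lit 23009472738], nat_lit 1271250, nat_lit 1271250, nat_lit 780000, nat_lit 936251, nat_lit 1271250, nat_lit 1271250, [nat_lit 490000, nat_lit 780000, nat_lit 1435000], [nat_lit 85, nat_lit 40, nat_lit 40, nat_lit 80, nat_lit 16, nat_lit 249, nat_lit 40, nat_lit 8]⟩, ⟨p087_k40, nat_lit 0, nat_lit 0, nat_lit 162, nat_lit 0, nat_lit 164959, [nat_lit 1003232000, nat_lit 1337500000, nat_lit 2106188000], [], [nat_lit 3538011276, nat_lit 3764209352, nat_lit 3528321673, nat_lit 3745650516, nat_lit 6298007828, nat_lit 6404834145, nat_lit 6915702909, nat_lit 6300622810], nat_lit 1271250, nat_lit 1271250, nat_lit 780000, nat_lit 936251, nat_lit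 1100001, nat_lit 2675500, [nat_lit 1100000, nat_lit 1442500, nat_lit 1271250], [nat_lit 11, nat_lit 40, nat_lit 40, nat_lit 80, nat_lit 1, nat_lit 428, nat_lit 200, nat_lit 12]⟩,
 ⟨nat_lit 3872, nat_lit 4184, ⟨.ofNat (nat_lit 443299), .ofNat (nat_lit 476428), .ofNat (nat_lit 454130), .ofNat (nat_lit 487259), .ofNat (nat_lit 447210), .ofNat (nat_lit 479472), .ofNat (nat_lit 458104), .ofNat (nat_lit 490366)⟩, ⟨.ofNat (nat_lit 457921), .ofNat (nat_lit 537427), .ofNat (nat_lit 479587), .ofNat (nat_lit 559094), .ofNat (nat_lit 455554), .ofNat (nat_lit 532980), .ofNat (nat_lit 477347), .ofNat (nat_lit 554773)⟩⟩, [⟨nat_lit 16, nat_lit 83, nat_lit 98, nat_lit 100, nat_lit 334550305⟩, ⟨nat_lit 19, nat_lit 100, nat_lit 81, nat_lit 96, nat_lit 125944792⟩]⟩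
noncomputable def p087_l131 : Lf2 := ⟨nat_lit 0, nat_lit 12, [nat_lit 126, nat_lit 5, nat_lit 5, nat_lit 20], false, nat_lit 240, nat_lit 288, nat_lit 0, nat_lit 352, ⟨nat_lit 300, nat_lit 700, nat_lit 0, nat_lit 6, nat_lit 198, nat_lit 700, nat_lit 203, nat_lit 0, nat_lit 0, nat_lit 0, nat_lit 0, nat_lit 0, nat_lit 42403269, nat_lit 12053602, nat_lit 12543129, nat_lit 4913614, false, false⟩,
 nat_lit 6271, nat_lit 0, nat_lit 0, nat_lit 0, nat_lit 4888, nat_lit 3650, nat_lit 0, nat_lit 0, nat_lit 0, nat_lit 10, nat_lit 0, nat_lit 0, nat_lit 0, nat_lit 0, nat_lit 0, nat_lit 175000, nat_lit 0, nat_lit 0, [(nat_lit 19, [(nat_lit 0, nat_lit 700)])],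
 ⟨p087_k36, nat_lit 0, nat_lit 0, nat_lit 79, nat_lit 0, nat_lit 120979, [nat_lit 1689280001, nat_lit 2929320000, nat_lit 3657200000], [], [nat_lit 20634333476, nat_lit 21381730920, nat_lit 20868566552, nat_lit 21593671920, nat_lit 23070363469, nat_lit 23738480209, nat_lit 23231788281, nat_lit 23880497751], nat_lit 1271250, nat_lit 1271250, nat_lit 936251, nat_lit 1100001, nat_lit 1271250, nat_lit 1271250, [nat_lit 490000, nat_lit 1100000, nat_lit 1442500], [nat_lit 6, nat_lit 40, nat_lit 40, nat_lit 80, nat_lit 3, nat_lit 249, nat_lit 40, nat_lit 8]⟩, ⟨p087_k38, nat_lit 0, nat_lit 0, nat_lit 237, nat_lit 0, nat_lit 174861, [nat_lit 1406400000, nat_lit 2390400000, nat_lit 2952600000], [], [nat_lit 14389784600, nat_lit 12444925900, nat_lit 12444925900, nat_lit 10515032200, nat_lit 10079068760, nat_lit 9230752001, nat_lit 11040681760, nat_lit 9425422440], nat_lit 1271250, nat_lit 1271250, nat_lit 936251, nat_lit 1100001,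 nat_lit 0, nat_lit 2486000, [nat_lit 1100000, nat_lit 1785000, nat_lit 1271250], [nat_lit 29, nat_lit 40, nat_lit 40, nat_lit 80, nat_lit 17, nat_lit 428, nat_lit 200, nat_lit 12]⟩,
 ⟨nat_lit 3872, nat_lit 4184, ⟨.ofNat (nat_lit 465597), .ofNat (nat_lit 498726), .ofNat (nat_lit 487259), .ofNat (nat_lit 520388), .ofNat (nat_lit 468578), .ofNat (nat_lit 500840), .ofNat (nat_lit 490366), .ofNat (nat_lit 522628)⟩, ⟨.ofNat (nat_lit 457921), .ofNat (nat_lit 537427), .ofNat (nat_lit 479587), .ofNat (nat_lit 559094), .ofNat (nat_lit 455554), .ofNat (nat_lit 532980), .ofNat (nat_lit 477347), .ofNat (nat_lit 554773)⟩⟩, [⟨nat_lit 4, nat_lit 100, nat_lit 79, nat_lit 96, nat_lit 403829972⟩]⟩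
noncomputable def p087_l132 : Lf2 := ⟨nat_lit 0, nat_lit 15, [nat_lit 30, nat_lit 5, nat_lit 5, nat_lit 20], false, nat_lit 240, nat_lit 288, nat_lit 0, nat_lit 352, ⟨nat_lit 0, nat_lit 1000, nat_lit 0, nat_lit 6, nat_lit 191, nat_lit 1000, nat_lit 203, nat_lit 0, nat_lit 0, nat_lit 0, nat_lit 0, nat_lit 0, nat_lit 42871477, nat_lit 11502897, nat_lit 12625626, nat_lit 4862693, false, false⟩,
 nat_lit 0, nat_lit 5511, nat_lit 0, nat_lit 0, nat_lit 4295, nat_lit 0, nat_lit 0, nat_lit 0, nat_lit 0, nat_lit 0, nat_lit 0, nat_lit 0, nat_lit 0, nat_lit 0, nat_lit 0, nat_lit 250000, nat_lit 0, nat_lit 0, [(nat_lit 19, [(nat_lit 0, nat_lit 1000)])],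
 ⟨p087_k34, nat_lit 0, nat_lit 0, nat_lit 73, nat_lit 0, nat_lit 83909, [nat_lit 1542400001, nat_lit 2190400000, nat_lit 2901600000], [], [nat_lit 20102639250, nat_lit 20820269300, nat_lit 20625392180, nat_lit 21302561800, nat_lit 22479692035, nat_lit 23162587424, nat_lit 22869773150, nat_lit 23503899313], nat_lit 1271250, nat_lit 1271250, nat_lit 780000, nat_lit 1100001, nat_lit 1271250, nat_lit 1271250, [nat_lit 490000, nat_lit 1100000, nat_lit 1785000], [nat_lit 34, nat_lit 40, nat_lit 40, nat_lit 80, nat_lit 7, nat_lit 249, nat_lit 40, nat_lit 7]⟩, ⟨p087_k33, nat_lit 0, nat_lit 0, nat_lit 329, nat_lit 0, nat_lit 121657, [nat_lit 0, nat_lit 0, nat_lit 0], [], [nat_lit 0, nat_lit 0, nat_lit 0, nat_lit 0, nat_lit 0, nat_lit 0, nat_lit 0, nat_lit 0], nat_lit 1271250, nat_lit 1271250, nat_lit 780000, nat_lit 1100001, nat_lit 0, nat_lit 2486000, [nat_lit 1100000, nat_lit 1785000, nat_lit 1271250], [nat_lit 21, nat_lit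 40, nat_lit 40, nat_lit 80, nat_lit 14, nat_lit 428, nat_lit 200, nat_lit 11]⟩,
 ⟨nat_lit 3872, nat_lit 4184, ⟨.ofNat (nat_lit 432468), .ofNat (nat_lit 498726), .ofNat (nat_lit 454130), .ofNat (nat_lit 520388), .ofNat (nat_lit 436316), .ofNat (nat_lit 500840), .ofNat (nat_lit 458104), .ofNat (nat_lit 522628)⟩, ⟨.ofNat (nat_lit 457921), .ofNat (nat_lit 537427), .ofNat (nat_lit 479587), .ofNat (nat_lit 559094), .ofNat (nat_lit 455554), .ofNat (nat_lit 532980), .ofNat (nat_lit 477347), .ofNat (nat_lit 554773)⟩⟩, [⟨nat_lit 16, nat_lit 83, nat_lit 98, nat_lit 100, nat_lit 273005385⟩]⟩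
noncomputable def p087_l133 : Lf2 := ⟨nat_lit 0, nat_lit 20, [nat_lit 5, nat_lit 5, nat_lit 5, nat_lit 20], true, nat_lit 240, nat_lit 280, nat_lit 0, nat_lit 352, ⟨nat_lit 0, nat_lit 0, nat_lit 1000, nat_lit 6, nat_lit 163, nat_lit 1000, nat_lit 197, nat_lit 1000, nat_lit 9526, nat_lit 233, nat_lit 191072, nat_lit 322, nat_lit 45320565, nat_lit 0, nat_lit 0, nat_lit 4568064, false, false⟩,
 nat_lit 0, nat_lit 4866, nat_lit 0, nat_lit 6784, nat_lit 3649, nat_lit 0, nat_lit 1, nat_lit 0, nat_lit 0, nat_lit 0, nat_lit 0, nat_lit 0, nat_lit 0, nat_lit 0, nat_lit 81, nat_lit 250000, nat_lit 0, nat_lit 0, [(nat_lit 19, [(nat_lit 4, nat_lit 1000)])],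
 ⟨p087_k3, nat_lit 0, nat_lit 0, nat_lit 145, nat_lit 0, nat_lit 77717, [nat_lit 2166400000, nat_lit 1094000001, nat_lit 172800000], [], [nat_lit 19479908869, nat_lit 20033237179, nat_lit 19540716993, nat_lit 20041731403, nat_lit 21064610147, nat_lit 21573890154, nat_lit 21031353813, nat_lit 21556952089], nat_lit 1271250, nat_lit 1271250, nat_lit 490000, nat_lit 780000, nat_lit 1271250, nat_lit 1271250, [nat_lit 490000, nat_lit 1100000, nat_lit 2127500], [nat_lit 27, nat_lit 40, nat_lit 40, nat_lit 80, nat_lit 13, nat_lit 317, nat_lit 100, nat_lit 8]⟩, C1.Rw.none,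
 ⟨nat_lit 4183, nat_lit 4473, ⟨.ofNat (nat_lit 360749), .ofNat (nat_lit 428729), .ofNat (nat_lit 382312), .ofNat (nat_lit 450291), .ofNat (nat_lit 366218), .ofNat (nat_lit 432475), .ofNat (nat_lit 387880), .ofNat (nat_lit 454137)⟩, ⟨.ofNat (nat_lit 438578), .ofNat (nat_lit 506556), .ofNat (nat_lit 481711), .ofNat (nat_lit 549689), .ofNat (nat_lit 436254), .ofNat (nat_lit 502509), .ofNat (nat_lit 479587), .ofNat (nat_lit 545843)⟩⟩, [⟨nat_lit 0, nat_lit 100, nat_lit 83, nat_lit 98, nat_lit 104915912⟩, ⟨nat_lit 4, nat_lit 100, nat_lit 84, nat_lit 93, nat_lit 271707270⟩]⟩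
noncomputable def p087_l134 : Lf2 := ⟨nat_lit 0, nat_lit 20, [nat_lit 5, nat_lit 5, nat_lit 5, nat_lit 20], false, nat_lit 240, nat_lit 280, nat_lit 0, nat_lit 352, ⟨nat_lit 0, nat_lit 0, nat_lit 1000, nat_lit 6, nat_lit 169, nat_lit 1000, nat_lit 196, nat_lit 1000, nat_lit 6023, nat_lit 234, nat_lit 153600, nat_lit 311, nat_lit 45005580, nat_lit 0, nat_lit 0, nat_lit 4613673, false, false⟩,
 nat_lit 0, nat_lit 4567, nat_lit 0, nat_lit 5777, nat_lit 3560, nat_lit 0, nat_lit 0, nat_lit 0, nat_lit 0, nat_lit 0, nat_lit 0, nat_lit 0, nat_lit 0, nat_lit 0, nat_lit 81, nat_lit 250000, nat_lit 0, nat_lit 0, [(nat_lit 19, [(nat_lit 4, nat_lit 1000)])],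
 ⟨p087_k5, nat_lit 0, nat_lit 0, nat_lit 151, nat_lit 0, nat_lit 100224, [nat_lit 2166400000, nat_lit 1094000001, nat_lit 172800000], [], [nat_lit 20115806772, nat_lit 20627351432, nat_lit 20168939320, nat_lit 20664872720, nat_lit 21595315503, nat_lit 22218674149, nat_lit 21570941660, nat_lit 22202126960], nat_lit 1271250, nat_lit 1271250, nat_lit 573850, nat_lit 780000, nat_lit 1271250, nat_lit 1271250, [nat_lit 490000, nat_lit 1100000, nat_lit 2127500], [nat_lit 27, nat_lit 40, nat_lit 40, nat_lit 80, nat_lit 13, nat_lit 317, nat_lit 100, nat_lit 8]⟩, ⟨p087_k4, nat_lit 0, nat_lit 0, nat_lit 354, nat_lit 0, nat_lit 146010, [nat_lit 0, nat_lit 0, nat_lit 0], [], [nat_lit 0, nat_lit 0, nat_lit 0, nat_lit 0, nat_lit 0, nat_lit 0, nat_lit 0, nat_lit 0], nat_lit 1271250, nat_lit 1271250, nat_lit 573850, nat_lit 780000, nat_lit 0, nat_lit 2486000, [nat_lit 1100000, nat_lit 1785000, nat_lit 1271250], [nat_lit 21, nat_lit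 40, nat_lit 40, nat_lit 80, nat_lit 14, nat_lit 428, nat_lit 200, nat_lit 11]⟩,
 ⟨nat_lit 3872, nat_lit 4184, ⟨.ofNat (nat_lit 386087), .ofNat (nat_lit 432468), .ofNat (nat_lit 407749), .ofNat (nat_lit 454130), .ofNat (nat_lit 391148), .ofNat (nat_lit 436316), .ofNat (nat_lit 412937), .ofNat (nat_lit 458104)⟩, ⟨.ofNat (nat_lit 436254), .ofNat (nat_lit 502509), .ofNat (nat_lit 479587), .ofNat (nat_lit 545843), .ofNat (nat_lit 433760), .ofNat (nat_lit 498282), .ofNat (nat_lit 477347), .ofNat (nat_lit 541869)⟩⟩, [⟨nat_lit 0, nat_lit 99, nat_lit 77, nat_lit 100, nat_lit 153312164⟩, ⟨nat_lit 4, nat_lit 100, nat_lit 77, nat_lit 91, nat_lit 281792335⟩]⟩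
noncomputable def p087_l135 : Lf2 := ⟨nat_lit 0, nat_lit 20, [nat_lit 5, nat_lit 5, nat_lit 5, nat_lit 20], true, nat_lit 240, nat_lit 280, nat_lit 0, nat_lit 352, ⟨nat_lit 0, nat_lit 967, nat_lit 33, nat_lit 6, nat_lit 190, nat_lit 1000, nat_lit 197, nat_lit 33, nat_lit 9526, nat_lit 233, nat_lit 19328, nat_lit 248, nat_lit 43382634, nat_lit 11467873, nat_lit 12149493, nat_lit 4809516, false, false⟩,
 nat_lit 0, nat_lit 5990, nat_lit 0, nat_lit 4864, nat_lit 4492, nat_lit 0, nat_lit 0, nat_lit 0, nat_lit 0, nat_lit 0, nat_lit 0, nat_lit 0, nat_lit 0, nat_lit 0, nat_lit 0, nat_lit 248020, nat_lit 0, nat_lit 0, [(nat_lit 19, [(nat_lit 0, nat_lit 967), (nat_lit 3, nat_lit 33)])],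
 ⟨p087_k3, nat_lit 0, nat_lit 0, nat_lit 63, nat_lit 0, nat_lit 77717, [nat_lit 1986976001, nat_lit 2287510400, nat_lit 3051951680], [], [nat_lit 19358626289, nat_lit 20053093000, nat_lit 19918252193, nat_lit 20569755445, nat_lit 21399636592, nat_lit 22070453932, nat_lit 21827550248, nat_lit 22461028828], nat_lit 1271250, nat_lit 1271250, nat_lit 780000, nat_lit 1100001, nat_lit 1271250, nat_lit 1271250, [nat_lit 490000, nat_lit 1100000, nat_lit 2127500], [nat_lit 27, nat_lit 40, nat_lit 40, nat_lit 80, nat_lit 13, nat_lit 345, nat_lit 125, nat_lit 9]⟩, C1.Rw.none,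
 ⟨nat_lit 4183, nat_lit 4473, ⟨.ofNat (nat_lit 428729), .ofNat (nat_lit 496708), .ofNat (nat_lit 450291), .ofNat (nat_lit 518271), .ofNat (nat_lit 432475), .ofNat (nat_lit 498731), .ofNat (nat_lit 454137), .ofNat (nat_lit 520394)⟩, ⟨.ofNat (nat_lit 438578), .ofNat (nat_lit 506556), .ofNat (nat_lit 481711), .ofNat (nat_lit 549689), .ofNat (nat_lit 436254), .ofNat (nat_lit 502509), .ofNat (nat_lit 479587), .ofNat (nat_lit 545843)⟩⟩, [⟨nat_lit 4, nat_lit 100, nat_lit 84, nat_lit 93, nat_lit 288123901⟩]⟩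
noncomputable def p087_l136 : Lf2 := ⟨nat_lit 0, nat_lit 20, [nat_lit 5, nat_lit 5, nat_lit 5, nat_lit 20], false, nat_lit 240, nat_lit 280, nat_lit 0, nat_lit 352, ⟨nat_lit 0, nat_lit 970, nat_lit 30, nat_lit 6, nat_lit 191, nat_lit 1000, nat_lit 196, nat_lit 30, nat_lit 6023, nat_lit 234, nat_lit 19642, nat_lit 247, nat_lit 43389732, nat_lit 11583115, nat_lit 12027153, nat_lit 4809280, false, false⟩,
 nat_lit 0, nat_lit 5644, nat_lit 0, nat_lit 4357, nat_lit 4399, nat_lit 0, nat_lit 0, nat_lit 0, nat_lit 0, nat_lit 0, nat_lit 0, nat_lit 0, nat_lit 0, nat_lit 0, nat_lit 0, nat_lit 248200, nat_lit 0, nat_lit 0, [(nat_lit 19, [(nat_lit 0, nat_lit 970), (nat_lit 3, nat_lit 30)])],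
 ⟨p087_k5, nat_lit 0, nat_lit 0, nat_lit 75, nat_lit 0, nat_lit 100224, [nat_lit 1946560001, nat_lit 2294864000, nat_lit 3067308800], [], [nat_lit 20152857236, nat_lit 20856440660, nat_lit 20681279494, nat_lit 21328489160, nat_lit 22129818154, nat_lit 22793495884, nat_lit 22530598591, nat_lit 23157509976], nat_lit 1271250, nat_lit 1271250, nat_lit 780000, nat_lit 1100001, nat_lit 1271250, nat_lit 1271250, [nat_lit 490000, nat_lit 1100000, nat_lit 2127500], [nat_lit 27, nat_lit 40, nat_lit 40, nat_lit 80, nat_lit 13, nat_lit 345, nat_lit 125, nat_lit 9]⟩, ⟨p087_k4, nat_lit 0, nat_lit 0, nat_lit 339, nat_lit 0, nat_lit 146010, [nat_lit 0, nat_lit 0, nat_lit 0], [], [nat_lit 0, nat_lit 0, nat_lit 0, nat_lit 0, nat_lit 0, nat_lit 0, nat_lit 0, nat_lit 0], nat_lit 1271250, nat_lit 1271250, nat_lit 780000, nat_lit 1100001, nat_lit 0, nat_lit 2486000, [nat_lit 1100000, nat_lit 1785000, nat_lit 1271250], [nat_lit 21, nat_lit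 40, nat_lit 40, nat_lit 80, nat_lit 14, nat_lit 428, nat_lit 200, nat_lit 11]⟩,
 ⟨nat_lit 3872, nat_lit 4184, ⟨.ofNat (nat_lit 432468), .ofNat (nat_lit 498726), .ofNat (nat_lit 454130), .ofNat (nat_lit 520388), .ofNat (nat_lit 436316), .ofNat (nat_lit 500840), .ofNat (nat_lit 458104), .ofNat (nat_lit 522628)⟩, ⟨.ofNat (nat_lit 436254), .ofNat (nat_lit 502509), .ofNat (nat_lit 479587), .ofNat (nat_lit 545843), .ofNat (nat_lit 433760), .ofNat (nat_lit 498282), .ofNat (nat_lit 477347), .ofNat (nat_lit 541869)⟩⟩, [⟨nat_lit 0, nat_lit 99, nat_lit 77, nat_lit 100, nat_lit 30591140⟩, ⟨nat_lit 4, nat_lit 100, nat_lit 77, nat_lit 91, nat_lit 332175544⟩]⟩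
noncomputable def p087_l137 : Lf2 := ⟨nat_lit 0, nat_lit 20, [nat_lit 5, nat_lit 5, nat_lit 5, nat_lit 20], true, nat_lit 280, nat_lit 300, nat_lit 0, nat_lit 352, ⟨nat_lit 0, nat_lit 22, nat_lit 978, nat_lit 6, nat_lit 177, nat_lit 1000, nat_lit 216, nat_lit 978, nat_lit 1169, nat_lit 218, nat_lit 19503, nat_lit 247, nat_lit 42805844, nat_lit 10207207, nat_lit 13986949, nat_lit 4844197, false, false⟩,
 nat_lit 0, nat_lit 4747, nat_lit 0, nat_lit 100000, nat_lit 3560, nat_lit 0, nat_lit 0, nat_lit 0, nat_lit 0, nat_lit 0, nat_lit 0, nat_lit 0, nat_lit 0, nat_lit 0, nat_lit 77, nat_lit 250000, nat_lit 0, nat_lit 0, [(nat_lit 19, [(nat_lit 0, nat_lit 22), (nat_lit 4, nat_lit 978)])],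
 ⟨p087_k3, nat_lit 0, nat_lit 0, nat_lit 179, nat_lit 0, nat_lit 169821, [nat_lit 2134928000, nat_lit 1086548800, nat_lit 174628000], [], [nat_lit 21215519680, nat_lit 22225765800, nat_lit 21580889200, nat_lit 22663603120, nat_lit 22002039840, nat_lit 23297274540, nat_lit 22441169720, nat_lit 23638296720], nat_lit 1271250, nat_lit 1271250, nat_lit 490000, nat_lit 1100001, nat_lit 1271250, nat_lit 1271250, [nat_lit 490000, nat_lit 1100000, nat_lit 2127500], [nat_lit 27, nat_lit 40, nat_lit 40, nat_lit 80, nat_lit 13, nat_lit 249, nat_lit 40, nat_lit 6]⟩, C1.Rw.none,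
 ⟨nat_lit 3872, nat_lit 4473, ⟨.ofNat (nat_lit 360688), .ofNat (nat_lit 496660), .ofNat (nat_lit 382237), .ofNat (nat_lit 518209), .ofNat (nat_lit 371739), .ofNat (nat_lit 500797), .ofNat (nat_lit 393514), .ofNat (nat_lit 522572)⟩, ⟨.ofNat (nat_lit 506556), .ofNat (nat_lit 540545), .ofNat (nat_lit 549689), .ofNat (nat_lit 583678), .ofNat (nat_lit 498282), .ofNat (nat_lit 530543), .ofNat (nat_lit 541869), .ofNat (nat_lit 574129)⟩⟩, [⟨nat_lit 0, nat_lit 99, nat_lit 77, nat_lit 100, nat_lit 33538077⟩, ⟨nat_lit 4, nat_lit 100, nat_lit 81, nat_lit 92, nat_lit 4862384754⟩]⟩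
noncomputable def b_V_800_600_20_41 : St := ⟨true, nat_lit 1, nat_lit 1, nat_lit 1, nat_lit 120, nat_lit 320, nat_lit 340, nat_lit 240, nat_lit 280, nat_lit 64, nat_lit 160, nat_lit 80, nat_lit 120, nat_lit 160, nat_lit 300, nat_lit 0, nat_lit 364, nat_lit 40, nat_lit 80, nat_lit 0, nat_lit 0, nat_lit 0, nat_lit 0⟩
theorem d_V_800_600_20_41 (h : EB TB.env) : Dead b_V_800_600_20_41 := chkB_sound0 h (T :=
(.spl (nat_lit 4) (nat_lit 240)
(.leaf p087_l114)
(.spl (nat_lit 1) (nat_lit 260)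
(.spl (nat_lit 6) (nat_lit 72)
(.spl (nat_lit 0) (nat_lit 330)
(.leaf p087_l115)
(.trZ (nat_lit 0) (nat_lit 100) (nat_lit 78) (nat_lit 81) (nat_lit 76) (.trX (nat_lit 16) (nat_lit 83) (nat_lit 98) (nat_lit 100) (nat_lit 288) (.leaf p087_l116))))
(.leaf p087_l117))
(.trZ (nat_lit 0) (nat_lit 100) (nat_lit 84) (nat_lit 85) (nat_lit 80) (.trX (nat_lit 19) (nat_lit 100) (nat_lit 69) (nat_lit 96) (nat_lit 352) (.spl (nat_lit 6) (nat_lit 60)
(.spl (nat_lit 3) (nat_lit 100)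
(.trX (nat_lit 16) (nat_lit 87) (nat_lit 100) (nat_lit 94) (nat_lit 280) (.trX (nat_lit 19) (nat_lit 100) (nat_lit 77) (nat_lit 91) (nat_lit 336) (.spl (nat_lit 2) (nat_lit 120)
(.leaf p087_l118)
(.leaf p087_l119))))
(.spl (nat_lit 2) (nat_lit 120)
(.spl (nat_lit 5) (nat_lit 160)
(.leaf p087_l120)
(.spl (nat_lit 5) (nat_lit 240)
(.leaf p087_l121)
(.spl (nat_lit 1) (nat_lit 270)
(.spl (nat_lit 0) (nat_lit 330)
(.leaf p087_l122)
(.trZ (nat_lit 0) (nat_lit 100) (nat_lit 80) (nat_lit 89) (nat_lit 92) (.trX (nat_lit 16) (nat_lit 83) (nat_lit 98) (nat_lit 100) (nat_lit 288) (.leaf p087_l123))))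
(.trZ (nat_lit 0) (nat_lit 100) (nat_lit 85) (nat_lit 90) (nat_lit 92) (.trX (nat_lit 19) (nat_lit 100) (nat_lit 74) (nat_lit 98) (nat_lit 344) (.spl (nat_lit 0) (nat_lit 330)
(.leaf p087_l124)
(.trZ (nat_lit 0) (nat_lit 100) (nat_lit 81) (nat_lit 93) (nat_lit 100) (.trX (nat_lit 16) (nat_lit 83) (nat_lit 98) (nat_lit 100) (nat_lit 288) (.spl (nat_lit 6) (nat_lit 48)
(.leaf p087_l125)
(.leaf p087_l126))))))))))
(.spl (nat_lit 0) (nat_lit 330)
(.leaf p087_l127)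
(.trX (nat_lit 16) (nat_lit 83) (nat_lit 98) (nat_lit 100) (nat_lit 288) (.spl (nat_lit 6) (nat_lit 48)
(.spl (nat_lit 2) (nat_lit 140)
(.spl (nat_lit 5) (nat_lit 160)
(.leaf p087_l128)
(.spl (nat_lit 1) (nat_lit 270)
(.leaf p087_l129)
(.trX (nat_lit 19) (nat_lit 100) (nat_lit 74) (nat_lit 98) (nat_lit 344) (.leaf p087_l130))))
(.leaf p087_l131))
(.leaf p087_l132))))))
(.spl (nat_lit 4) (nat_lit 280)
(.spl (nat_lit 2) (nat_lit 120)
(.spl (nat_lit 0) (nat_lit 330)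
(.leaf p087_l133)
(.trZ (nat_lit 0) (nat_lit 100) (nat_lit 80) (nat_lit 89) (nat_lit 92) (.leaf p087_l134)))
(.spl (nat_lit 0) (nat_lit 330)
(.leaf p087_l135)
(.leaf p087_l136)))
(.leaf p087_l137)))))))) (by decide +kernel)
noncomputable def p087_l138 : Lf2 := ⟨nat_lit 0, nat_lit 20, [nat_lit 5, nat_lit 5, nat_lit 5, nat_lit 20], false, nat_lit 160, nat_lit 240, nat_lit 0, nat_lit 364, ⟨nat_lit 0, nat_lit 266, nat_lit 734, nat_lit 6, nat_lit 179, nat_lit 1000, nat_lit 156, nat_lit 734, nat_lit 74869, nat_lit 282, nat_lit 15897, nat_lit 244, nat_lit 47337935, nat_lit 10868089, nat_lit 8793976, nat_lit 4329506, false, false⟩,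
 nat_lit 0, nat_lit 3904, nat_lit 0, nat_lit 0, nat_lit 3160, nat_lit 0, nat_lit 0, nat_lit 0, nat_lit 0, nat_lit 0, nat_lit 0, nat_lit 0, nat_lit 0, nat_lit 0, nat_lit 73, nat_lit 340150, nat_lit 0, nat_lit 0, [(nat_lit 22, [(nat_lit 0, nat_lit 266), (nat_lit 4, nat_lit 133), (nat_lit 5, nat_lit 601)])],
 ⟨p087_k7, nat_lit 0, nat_lit 0, nat_lit 187, nat_lit 0, nat_lit 297666, [nat_lit 1785993601, nat_lit 1152737201, nat_lit 50112133], [], [nat_lit 17938991271, nat_lit 19075754279, nat_lit 18777209495, nat_lit 19816854535, nat_lit 20004777208, nat_lit 21329887841, nat_lit 20782878003, nat_lit 21929840803], nat_lit 1271250, nat_lit 1271250, nat_lit 545600, nat_lit 1100001, nat_lit 1100001, nat_lit 1785000, [nat_lit 490000, nat_lit 1100000, nat_lit 1785000], [nat_lit 34, nat_lit 40, nat_lit 40, nat_lit 80, nat_lit 7, nat_lit 317, nat_lit 100, nat_lit 10]⟩, ⟨p087_k8, nat_lit 0, nat_lit 0, nat_lit 619, nat_lit 0, nat_lit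 515980, [nat_lit 0, nat_lit 0, nat_lit 0], [], [nat_lit 0, nat_lit 0, nat_lit 0, nat_lit 0, nat_lit 0, nat_lit 0, nat_lit 0, nat_lit 0], nat_lit 1271250, nat_lit 1271250, nat_lit 545600, nat_lit 1100001, nat_lit 0, nat_lit 2570750, [nat_lit 1100000, nat_lit 1785000, nat_lit 1271250], [nat_lit 37, nat_lit 40, nat_lit 40, nat_lit 80, nat_lit 28, nat_lit 456, nat_lit 225, nat_lit 11]⟩,
 ⟨nat_lit 3162, nat_lit 3873, ⟨.ofNat (nat_lit 362778), .ofNat (nat_lit 478975), .ofNat (nat_lit 406307), .ofNat (nat_lit 522504), .ofNat (nat_lit 373492), .ofNat (nat_lit 483267), .ofNat (nat_lit 417744), .ofNat (nat_lit 527519)⟩, ⟨.ofNat (nat_lit 304717), .ofNat (nat_lit 433760), .ofNat (nat_lit 348304), .ofNat (nat_lit 477347), .ofNat (nat_lit 306116), .ofNat (nat_lit 428022), .ofNat (nat_lit 350426), .ofNat (nat_lit 472332)⟩⟩, [⟨nat_lit 0, nat_lit 94, nat_lit 62, nat_lit 100, nat_lit 9831452⟩, ⟨nat_lit 4, nat_lit 100, nat_lit 67, nat_lit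 88, nat_lit 127322505⟩]⟩
noncomputable def p087_l139 : Lf2 := ⟨nat_lit 0, nat_lit 20, [nat_lit 5, nat_lit 5, nat_lit 5, nat_lit 20], false, nat_lit 240, nat_lit 276, nat_lit 0, nat_lit 364, ⟨nat_lit 0, nat_lit 241, nat_lit 759, nat_lit 6, nat_lit 166, nat_lit 1000, nat_lit 192, nat_lit 759, nat_lit 13749, nat_lit 240, nat_lit 109688, nat_lit 296, nat_lit 45479614, nat_lit 9517268, nat_lit 12003118, nat_lit 4557945, false, false⟩,
 nat_lit 0, nat_lit 4358, nat_lit 0, nat_lit 34, nat_lit 3527, nat_lit 0, nat_lit 0, nat_lit 0, nat_lit 0, nat_lit 0, nat_lit 0, nat_lit 0, nat_lit 0, nat_lit 0, nat_lit 45, nat_lit 250000, nat_lit 0, nat_lit 0, [(nat_lit 22, [(nat_lit 0, nat_lit 241), (nat_lit 4, nat_lit 759)])],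
 ⟨p087_k7, nat_lit 0, nat_lit 0, nat_lit 192, nat_lit 0, nat_lit 297666, [nat_lit 1869708800, nat_lit 881951201, nat_lit 35778400], [], [nat_lit 20583458199, nat_lit 21657436809, nat_lit 20705901960, nat_lit 21714007744, nat_lit 21979698907, nat_lit 23437200743, nat_lit 21976542883, nat_lit 23379450320], nat_lit 1271250, nat_lit 1271250, nat_lit 545600, nat_lit 780000, nat_lit 1271250, nat_lit 1271250, [nat_lit 490000, nat_lit 1100000, nat_lit 1785000], [nat_lit 34, nat_lit 40, nat_lit 40, nat_lit 80, nat_lit 7, nat_lit 238, nat_lit 30, nat_lit 7]⟩, ⟨p087_k8, nat_lit 0, nat_lit 0, nat_lit 619, nat_lit 0, nat_lit 515980, [nat_lit 0, nat_lit 0, nat_lit 0], [], [nat_lit 0, nat_lit 0, nat_lit 0, nat_lit 0, nat_lit 0, nat_lit 0, nat_lit 0, nat_lit 0], nat_lit 1271250, nat_lit 1271250, nat_lit 545600, nat_lit 780000, nat_lit 0, nat_lit 2570750, [nat_lit 1100000, nat_lit 1785000, nat_lit 1271250], [nat_lit 37, nat_lit 40,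 nat_lit 40, nat_lit 80, nat_lit 28, nat_lit 428, nat_lit 200, nat_lit 10]⟩,
 ⟨nat_lit 3162, nat_lit 3873, ⟨.ofNat (nat_lit 362778), .ofNat (nat_lit 414421), .ofNat (nat_lit 406307), .ofNat (nat_lit 457950), .ofNat (nat_lit 373492), .ofNat (nat_lit 422280), .ofNat (nat_lit 417744), .ofNat (nat_lit 466533)⟩, ⟨.ofNat (nat_lit 433760), .ofNat (nat_lit 491830), .ofNat (nat_lit 477347), .ofNat (nat_lit 535416), .ofNat (nat_lit 428022), .ofNat (nat_lit 482881), .ofNat (nat_lit 472332), .ofNat (nat_lit 527190)⟩⟩, [⟨nat_lit 0, nat_lit 100, nat_lit 69, nat_lit 96, nat_lit 508342333⟩, ⟨nat_lit 16, nat_lit 77, nat_lit 100, nat_lit 99, nat_lit 253443318⟩]⟩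
noncomputable def p087_l140 : Lf2 := ⟨nat_lit 0, nat_lit 20, [nat_lit 5, nat_lit 5, nat_lit 5, nat_lit 20], false, nat_lit 240, nat_lit 256, nat_lit 0, nat_lit 352, ⟨nat_lit 4, nat_lit 219, nat_lit 777, nat_lit 6, nat_lit 188, nat_lit 996, nat_lit 182, nat_lit 777, nat_lit 66937, nat_lit 278, nat_lit 15045, nat_lit 245, nat_lit 44617998, nat_lit 11459275, nat_lit 10922727, nat_lit 4671954, false, false⟩,
 nat_lit 90, nat_lit 4017, nat_lit 0, nat_lit 0, nat_lit 3324, nat_lit 47, nat_lit 0, nat_lit 0, nat_lit 0, nat_lit 3, nat_lit 0, nat_lit 0, nat_lit 0, nat_lit 0, nat_lit 60, nat_lit 282750, nat_lit 0, nat_lit 0, [(nat_lit 22, [(nat_lit 0, nat_lit 219), (nat_lit 4, nat_lit 552), (nat_lit 5, nat_lit 225)])],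
 ⟨p087_k7, nat_lit 0, nat_lit 0, nat_lit 152, nat_lit 0, nat_lit 231496, [nat_lit 1874262401, nat_lit 1001272401, nat_lit 35277200], [], [nat_lit 20158649953, nat_lit 20770970200, nat_lit 20634152433, nat_lit 21323351960, nat_lit 20832583978, nat_lit 21547775242, nat_lit 21384724829, nat_lit 22061258257], nat_lit 1271250, nat_lit 1271250, nat_lit 780000, nat_lit 1100001, nat_lit 1271250, nat_lit 1271250, [nat_lit 490000, nat_lit 1100000, nat_lit 1785000], [nat_lit 34, nat_lit 40, nat_lit 40, nat_lit 80, nat_lit 7, nat_lit 249, nat_lit 40, nat_lit 7]⟩, ⟨p087_k8, nat_lit 0, nat_lit 0, nat_lit 560, nat_lit 0, nat_lit 398450, [nat_lit 18752000, nat_lit 31872000, nat_lit 56232000], [], [nat_lit 239596700, nat_lit 189124528, nat_lit 189124528, nat_lit 145353556, nat_lit 145952980, nat_lit 134573413, nat_lit 169100203, nat_lit 129221380], nat_lit 1271250, nat_lit 1271250, nat_lit 780000, nat_lit 1100001, nat_lit 0, nat_lit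 2486000, [nat_lit 1100000, nat_lit 1785000, nat_lit 1271250], [nat_lit 37, nat_lit 40, nat_lit 40, nat_lit 80, nat_lit 28, nat_lit 428, nat_lit 200, nat_lit 10]⟩,
 ⟨nat_lit 3535, nat_lit 3873, ⟨.ofNat (nat_lit 414519), .ofNat (nat_lit 479046), .ofNat (nat_lit 458093), .ofNat (nat_lit 522620), .ofNat (nat_lit 418358), .ofNat (nat_lit 481125), .ofNat (nat_lit 462251), .ofNat (nat_lit 525018)⟩, ⟨.ofNat (nat_lit 433760), .ofNat (nat_lit 459569), .ofNat (nat_lit 455554), .ofNat (nat_lit 481362), .ofNat (nat_lit 431044), .ofNat (nat_lit 456149), .ofNat (nat_lit 452997), .ofNat (nat_lit 478101)⟩⟩, [⟨nat_lit 16, nat_lit 74, nat_lit 100, nat_lit 90, nat_lit 366971236⟩]⟩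
noncomputable def p087_l141 : Lf2 := ⟨nat_lit 0, nat_lit 20, [nat_lit 5, nat_lit 5, nat_lit 5, nat_lit 20], true, nat_lit 240, nat_lit 276, nat_lit 0, nat_lit 364, ⟨nat_lit 0, nat_lit 270, nat_lit 730, nat_lit 6, nat_lit 184, nat_lit 1000, nat_lit 198, nat_lit 730, nat_lit 13749, nat_lit 240, nat_lit 36738, nat_lit 260, nat_lit 43802925, nat_lit 10931457, nat_lit 12265618, nat_lit 4760817, false, false⟩,
 nat_lit 0, nat_lit 4129, nat_lit 0, nat_lit 285, nat_lit 3342, nat_lit 0, nat_lit 0, nat_lit 0, nat_lit 0, nat_lit 0, nat_lit 0, nat_lit 0, nat_lit 0, nat_lit 0, nat_lit 39, nat_lit 250000, nat_lit 0, nat_lit 0, [(nat_lit 22, [(nat_lit 0, nat_lit 270), (nat_lit 4, nat_lit 730)])],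
 ⟨p087_k7, nat_lit 0, nat_lit 0, nat_lit 143, nat_lit 0, nat_lit 185952, [nat_lit 1823936001, nat_lit 855064001, nat_lit 34914667], [], [nat_lit 20755530484, nat_lit 21278393388, nat_lit 21229062324, nat_lit 21725289532, nat_lit 22068790046, nat_lit 22555909548, nat_lit 22476666189, nat_lit 22996186256], nat_lit 1271250, nat_lit 1271250, nat_lit 780000, nat_lit 1100001, nat_lit 1271250, nat_lit 1271250, [nat_lit 490000, nat_lit 1100000, nat_lit 1785000], [nat_lit 34, nat_lit 40, nat_lit 40, nat_lit 80, nat_lit 7, nat_lit 249, nat_lit 40, nat_lit 7]⟩, C1.Rw.none,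
 ⟨nat_lit 3535, nat_lit 3873, ⟨.ofNat (nat_lit 414519), .ofNat (nat_lit 479046), .ofNat (nat_lit 436306), .ofNat (nat_lit 500833), .ofNat (nat_lit 418358), .ofNat (nat_lit 481125), .ofNat (nat_lit 440305), .ofNat (nat_lit 503072)⟩, ⟨.ofNat (nat_lit 455554), .ofNat (nat_lit 513623), .ofNat (nat_lit 477347), .ofNat (nat_lit 535416), .ofNat (nat_lit 452997), .ofNat (nat_lit 509482), .ofNat (nat_lit 474949), .ofNat (nat_lit 531435)⟩⟩, [⟨nat_lit 4, nat_lit 100, nat_lit 72, nat_lit 93, nat_lit 292177848⟩]⟩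
noncomputable def p087_l142 : Lf2 := ⟨nat_lit 0, nat_lit 20, [nat_lit 5, nat_lit 5, nat_lit 5, nat_lit 20], false, nat_lit 240, nat_lit 276, nat_lit 0, nat_lit 352, ⟨nat_lit 0, nat_lit 246, nat_lit 754, nat_lit 6, nat_lit 190, nat_lit 1000, nat_lit 198, nat_lit 754, nat_lit 13749, nat_lit 240, nat_lit 24144, nat_lit 252, nat_lit 43326728, nat_lit 11483424, nat_lit 12189848, nat_lit 4815500, false, false⟩,
 nat_lit 0, nat_lit 4178, nat_lit 0, nat_lit 184, nat_lit 3382, nat_lit 0, nat_lit 0, nat_lit 0, nat_lit 0, nat_lit 0, nat_lit 0, nat_lit 0, nat_lit 0, nat_lit 0, nat_lit 44, nat_lit 250000, nat_lit 0, nat_lit 0, [(nat_lit 22, [(nat_lit 0, nat_lit 246), (nat_lit 4, nat_lit 754)])],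
 ⟨p087_k7, nat_lit 0, nat_lit 0, nat_lit 131, nat_lit 0, nat_lit 145220, [nat_lit 1862092800, nat_lit 877867201, nat_lit 36457067], [], [nat_lit 20580939603, nat_lit 21106418987, nat_lit 21050092243, nat_lit 21548720411, nat_lit 21898482985, nat_lit 22563889530, nat_lit 22369582384, nat_lit 23020935793], nat_lit 1271250, nat_lit 1271250, nat_lit 780000, nat_lit 1100001, nat_lit 1271250, nat_lit 1271250, [nat_lit 490000, nat_lit 1100000, nat_lit 1785000], [nat_lit 34, nat_lit 40, nat_lit 40, nat_lit 80, nat_lit 7, nat_lit 249, nat_lit 40, nat_lit 7]⟩, ⟨p087_k4, nat_lit 0, nat_lit 0, nat_lit 367, nat_lit 0, nat_lit 221789, [nat_lit 0, nat_lit 0, nat_lit 0], [], [nat_lit 0, nat_lit 0, nat_lit 0, nat_lit 0, nat_lit 0, nat_lit 0, nat_lit 0, nat_lit 0], nat_lit 1271250, nat_lit 1271250, nat_lit 780000, nat_lit 1100001, nat_lit 0, nat_lit 2486000, [nat_lit 1100000, nat_lit 1785000, nat_lit 1271250], [nat_lit 21, nat_lit 40,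 nat_lit 40, nat_lit 80, nat_lit 14, nat_lit 428, nat_lit 200, nat_lit 11]⟩,
 ⟨nat_lit 3535, nat_lit 3873, ⟨.ofNat (nat_lit 436306), .ofNat (nat_lit 500833), .ofNat (nat_lit 447199), .ofNat (nat_lit 511727), .ofNat (nat_lit 440305), .ofNat (nat_lit 503072), .ofNat (nat_lit 451277), .ofNat (nat_lit 514045)⟩, ⟨.ofNat (nat_lit 455554), .ofNat (nat_lit 513623), .ofNat (nat_lit 477347), .ofNat (nat_lit 535416), .ofNat (nat_lit 452997), .ofNat (nat_lit 509482), .ofNat (nat_lit 474949), .ofNat (nat_lit 531435)⟩⟩, [⟨nat_lit 16, nat_lit 77, nat_lit 100, nat_lit 99, nat_lit 259381231⟩]⟩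
noncomputable def p087_l143 : Lf2 := ⟨nat_lit 0, nat_lit 20, [nat_lit 5, nat_lit 5, nat_lit 5, nat_lit 20], false, nat_lit 240, nat_lit 276, nat_lit 0, nat_lit 344, ⟨nat_lit 0, nat_lit 244, nat_lit 756, nat_lit 6, nat_lit 194, nat_lit 1000, nat_lit 198, nat_lit 756, nat_lit 13749, nat_lit 240, nat_lit 22385, nat_lit 249, nat_lit 43088076, nat_lit 11760936, nat_lit 12150988, nat_lit 4841835, false, false⟩,
 nat_lit 0, nat_lit 4178, nat_lit 0, nat_lit 11, nat_lit 3382, nat_lit 0, nat_lit 0, nat_lit 0, nat_lit 0, nat_lit 0, nat_lit 0, nat_lit 0, nat_lit 0, nat_lit 0, nat_lit 44, nat_lit 250000, nat_lit 0, nat_lit 0, [(nat_lit 22, [(nat_lit 0, nat_lit 244), (nat_lit 4, nat_lit 756)])],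
 ⟨p087_k7, nat_lit 0, nat_lit 0, nat_lit 135, nat_lit 0, nat_lit 158917, [nat_lit 1861939201, nat_lit 873100801, nat_lit 26585600], [], [nat_lit 20570914537, nat_lit 21096393921, nat_lit 21040067177, nat_lit 21538695345, nat_lit 21888457919, nat_lit 22563889530, nat_lit 22369275186, nat_lit 23020935793], nat_lit 1271250, nat_lit 1271250, nat_lit 780000, nat_lit 1100001, nat_lit 1271250, nat_lit 1271250, [nat_lit 490000, nat_lit 1100000, nat_lit 1785000], [nat_lit 34, nat_lit 40, nat_lit 40, nat_lit 80, nat_lit 7, nat_lit 249, nat_lit 40, nat_lit 7]⟩, ⟨p087_k12, nat_lit 0, nat_lit 0, nat_lit 370, nat_lit 0, nat_lit 228665, [nat_lit 0, nat_lit 0, nat_lit 0], [], [nat_lit 0, nat_lit 0, nat_lit 0, nat_lit 0, nat_lit 0, nat_lit 0, nat_lit 0, nat_lit 0], nat_lit 1271250, nat_lit 1271250, nat_lit 780000, nat_lit 1100001, nat_lit 0, nat_lit 2429500, [nat_lit 1100000, nat_lit 1785000, nat_lit 1271250], [nat_lit 21, nat_lit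 40, nat_lit 40, nat_lit 80, nat_lit 14, nat_lit 428, nat_lit 200, nat_lit 11]⟩,
 ⟨nat_lit 3535, nat_lit 3873, ⟨.ofNat (nat_lit 447199), .ofNat (nat_lit 511727), .ofNat (nat_lit 452646), .ofNat (nat_lit 517174), .ofNat (nat_lit 451277), .ofNat (nat_lit 514045), .ofNat (nat_lit 456764), .ofNat (nat_lit 519532)⟩, ⟨.ofNat (nat_lit 455554), .ofNat (nat_lit 513623), .ofNat (nat_lit 477347), .ofNat (nat_lit 535416), .ofNat (nat_lit 452997), .ofNat (nat_lit 509482), .ofNat (nat_lit 474949), .ofNat (nat_lit 531435)⟩⟩, [⟨nat_lit 16, nat_lit 77, nat_lit 100, nat_lit 99, nat_lit 259566973⟩]⟩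
noncomputable def p087_l144 : Lf2 := ⟨nat_lit 0, nat_lit 15, [nat_lit 30, nat_lit 5, nat_lit 5, nat_lit 20], false, nat_lit 240, nat_lit 276, nat_lit 0, nat_lit 340, ⟨nat_lit 142, nat_lit 24, nat_lit 834, nat_lit 6, nat_lit 189, nat_lit 858, nat_lit 198, nat_lit 834, nat_lit 13749, nat_lit 240, nat_lit 46756, nat_lit 267, nat_lit 43392008, nat_lit 11407617, nat_lit 12200375, nat_lit 4808173, false, false⟩,
 nat_lit 2267, nat_lit 1543, nat_lit 0, nat_lit 0, nat_lit 3084, nat_lit 1411, nat_lit 0, nat_lit 0, nat_lit 0, nat_lit 0, nat_lit 0, nat_lit 0, nat_lit 0, nat_lit 0, nat_lit 60, nat_lit 298050, nat_lit 0, nat_lit 0, [(nat_lit 22, [(nat_lit 0, nat_lit 24), (nat_lit 4, nat_lit 277), (nat_lit 5, nat_lit 557)])],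
 ⟨p087_k21, nat_lit 0, nat_lit 0, nat_lit 138, nat_lit 0, nat_lit 170872, [nat_lit 1762870400, nat_lit 1109595601, nat_lit 38417200], [], [nat_lit 20376138432, nat_lit 20882125040, nat_lit 20627027272, nat_lit 21120391084, nat_lit 21672194354, nat_lit 22332127808, nat_lit 21938948720, nat_lit 22580723087], nat_lit 1271250, nat_lit 1271250, nat_lit 780000, nat_lit 936251, nat_lit 1271250, nat_lit 1271250, [nat_lit 490000, nat_lit 1100000, nat_lit 1785000], [nat_lit 34, nat_lit 40, nat_lit 40, nat_lit 80, nat_lit 7, nat_lit 249, nat_lit 40, nat_lit 7]⟩, ⟨p087_k41, nat_lit 0, nat_lit 0, nat_lit 306, nat_lit 0, nat_lit 237851, [nat_lit 665696000, nat_lit 1131456000, nat_lit 1397564000], [], [nat_lit 6510936824, nat_lit 6321531944, nat_lit 5763441231, nat_lit 5575482626, nat_lit 4464613120, nat_lit 4485546317, nat_lit 4412536882, nat_lit 4432511996], nat_lit 1271250, nat_lit 1271250, nat_lit 780000, nat_lit 936251, nat_lit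 0, nat_lit 2401250, [nat_lit 1100000, nat_lit 1785000, nat_lit 1271250], [nat_lit 29, nat_lit 40, nat_lit 40, nat_lit 80, nat_lit 17, nat_lit 428, nat_lit 200, nat_lit 12]⟩,
 ⟨nat_lit 3535, nat_lit 3873, ⟨.ofNat (nat_lit 452646), .ofNat (nat_lit 484910), .ofNat (nat_lit 458093), .ofNat (nat_lit 490357), .ofNat (nat_lit 456764), .ofNat (nat_lit 488148), .ofNat (nat_lit 462251), .ofNat (nat_lit 493635)⟩, ⟨.ofNat (nat_lit 455554), .ofNat (nat_lit 513623), .ofNat (nat_lit 477347), .ofNat (nat_lit 535416), .ofNat (nat_lit 452997), .ofNat (nat_lit 509482), .ofNat (nat_lit 474949), .ofNat (nat_lit 531435)⟩⟩, [⟨nat_lit 0, nat_lit 100, nat_lit 77, nat_lit 99, nat_lit 95628626⟩, ⟨nat_lit 16, nat_lit 77, nat_lit 100, nat_lit 99, nat_lit 303722315⟩]⟩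
noncomputable def p087_l145 : Lf2 := ⟨nat_lit 0, nat_lit 15, [nat_lit 30, nat_lit 5, nat_lit 5, nat_lit 20], false, nat_lit 240, nat_lit 276, nat_lit 0, nat_lit 340, ⟨nat_lit 221, nat_lit 0, nat_lit 779, nat_lit 6, nat_lit 202, nat_lit 779, nat_lit 198, nat_lit 779, nat_lit 13749, nat_lit 240, nat_lit 15045, nat_lit 245, nat_lit 42464598, nat_lit 0, nat_lit 0, nat_lit 4907355, false, false⟩,
 nat_lit 4182, nat_lit 0, nat_lit 0, nat_lit 0, nat_lit 3385, nat_lit 2603, nat_lit 0, nat_lit 0, nat_lit 0, nat_lit 45, nat_lit 0, nat_lit 0, nat_lit 0, nat_lit 0, nat_lit 36, nat_lit 290300, nat_lit 0, nat_lit 0, [(nat_lit 22, [(nat_lit 4, nat_lit 142), (nat_lit 5, nat_lit 637)])],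
 ⟨p087_k21, nat_lit 0, nat_lit 0, nat_lit 133, nat_lit 0, nat_lit 170872, [nat_lit 1570534401, nat_lit 1039810401, nat_lit 39766533], [], [nat_lit 20779031014, nat_lit 21320379171, nat_lit 21013443114, nat_lit 21534962473, nat_lit 22124464005, nat_lit 22794543765, nat_lit 22370613028, nat_lit 23022864828], nat_lit 1271250, nat_lit 1271250, nat_lit 936251, nat_lit 1100001, nat_lit 1271250, nat_lit 1271250, [nat_lit 490000, nat_lit 1100000, nat_lit 1785000], [nat_lit 34, nat_lit 40, nat_lit 40, nat_lit 80, nat_lit 7, nat_lit 249, nat_lit 40, nat_lit 7]⟩, ⟨p087_k41, nat_lit 0, nat_lit 0, nat_lit 300, nat_lit 0, nat_lit 237851, [nat_lit 1036048000, nat_lit 1760928000, nat_lit 2175082000], [], [nat_lit 9429093487, nat_lit 9082349158, nat_lit 8050120398, nat_lit 7706044144, nat_lit 6300295920, nat_lit 6353051287, nat_lit 6587213621, nat_lit 6290582899], nat_lit 1271250, nat_lit 1271250, nat_lit 936251, nat_lit 1100001, nat_lit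 0, nat_lit 2401250, [nat_lit 1100000, nat_lit 1785000, nat_lit 1271250], [nat_lit 29, nat_lit 40, nat_lit 40, nat_lit 80, nat_lit 17, nat_lit 428, nat_lit 200, nat_lit 12]⟩,
 ⟨nat_lit 3535, nat_lit 3873, ⟨.ofNat (nat_lit 484910), .ofNat (nat_lit 517174), .ofNat (nat_lit 490357), .ofNat (nat_lit 522620), .ofNat (nat_lit 488148), .ofNat (nat_lit 519532), .ofNat (nat_lit 493635), .ofNat (nat_lit 525018)⟩, ⟨.ofNat (nat_lit 455554), .ofNat (nat_lit 513623), .ofNat (nat_lit 477347), .ofNat (nat_lit 535416), .ofNat (nat_lit 452997), .ofNat (nat_lit 509482), .ofNat (nat_lit 474949), .ofNat (nat_lit 531435)⟩⟩, [⟨nat_lit 16, nat_lit 77, nat_lit 100, nat_lit 99, nat_lit 337492919⟩]⟩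
noncomputable def p087_l146 : Lf2 := ⟨nat_lit 0, nat_lit 20, [nat_lit 5, nat_lit 5, nat_lit 5, nat_lit 20], false, nat_lit 240, nat_lit 276, nat_lit 0, nat_lit 340, ⟨nat_lit 0, nat_lit 1000, nat_lit 0, nat_lit 6, nat_lit 196, nat_lit 1000, nat_lit 198, nat_lit 0, nat_lit 0, nat_lit 0, nat_lit 0, nat_lit 0, nat_lit 42928803, nat_lit 11946466, nat_lit 12124731, nat_lit 4859021, false, false⟩,
 nat_lit 0, nat_lit 5129, nat_lit 0, nat_lit 936, nat_lit 4151, nat_lit 0, nat_lit 0, nat_lit 0, nat_lit 0, nat_lit 0, nat_lit 0, nat_lit 0, nat_lit 0, nat_lit 0, nat_lit 0, nat_lit 250000, nat_lit 0, nat_lit 0, [(nat_lit 22, [(nat_lit 0, nat_lit 1000)])],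
 ⟨p087_k7, nat_lit 0, nat_lit 0, nat_lit 74, nat_lit 0, nat_lit 81952, [nat_lit 1568000001, nat_lit 1970800000, nat_lit 2712400000], [], [nat_lit 20695228340, nat_lit 21400216630, nat_lit 21191704840, nat_lit 21857234076, nat_lit 22399701959, nat_lit 23161959209, nat_lit 22802829386, nat_lit 23515411637], nat_lit 1271250, nat_lit 1271250, nat_lit 780000, nat_lit 1100001, nat_lit 1271250, nat_lit 1271250, [nat_lit 490000, nat_lit 1100000, nat_lit 1785000], [nat_lit 34, nat_lit 40, nat_lit 40, nat_lit 80, nat_lit 7, nat_lit 249, nat_lit 40, nat_lit 7]⟩, ⟨p087_k42, nat_lit 0, nat_lit 0, nat_lit 326, nat_lit 0, nat_lit 114554, [nat_lit 0, nat_lit 0, nat_lit 0], [], [nat_lit 0, nat_lit 0, nat_lit 0, nat_lit 0, nat_lit 0, nat_lit 0, nat_lit 0, nat_lit 0], nat_lit 1271250, nat_lit 1271250, nat_lit 780000, nat_lit 1100001, nat_lit 0, nat_lit 2401250, [nat_lit 1100000, nat_lit 1785000, nat_lit 1271250], [nat_lit 21, nat_lit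 40, nat_lit 40, nat_lit 80, nat_lit 14, nat_lit 428, nat_lit 200, nat_lit 11]⟩,
 ⟨nat_lit 3535, nat_lit 3873, ⟨.ofNat (nat_lit 452646), .ofNat (nat_lit 517174), .ofNat (nat_lit 458093), .ofNat (nat_lit 522620), .ofNat (nat_lit 456764), .ofNat (nat_lit 519532), .ofNat (nat_lit 462251), .ofNat (nat_lit 525018)⟩, ⟨.ofNat (nat_lit 455554), .ofNat (nat_lit 513623), .ofNat (nat_lit 477347), .ofNat (nat_lit 535416), .ofNat (nat_lit 452997), .ofNat (nat_lit 509482), .ofNat (nat_lit 474949), .ofNat (nat_lit 531435)⟩⟩, [⟨nat_lit 0, nat_lit 99, nat_lit 74, nat_lit 100, nat_lit 50222440⟩, ⟨nat_lit 16, nat_lit 77, nat_lit 100, nat_lit 99, nat_lit 277432454⟩]⟩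
noncomputable def p087_l147 : Lf2 := ⟨nat_lit 0, nat_lit 15, [nat_lit 30, nat_lit 5, nat_lit 5, nat_lit 20], false, nat_lit 240, nat_lit 264, nat_lit 0, nat_lit 364, ⟨nat_lit 3, nat_lit 477, nat_lit 520, nat_lit 6, nat_lit 189, nat_lit 997, nat_lit 188, nat_lit 520, nat_lit 25644, nat_lit 253, nat_lit 16148, nat_lit 244, nat_lit 44101032, nat_lit 11510706, nat_lit 11388262, nat_lit 4731212, false, false⟩,
 nat_lit 82, nat_lit 3749, nat_lit 0, nat_lit 0, nat_lit 3217, nat_lit 43, nat_lit 0, nat_lit 0, nat_lit 0, nat_lit 2, nat_lit 0, nat_lit 0, nat_lit 0, nat_lit 0, nat_lit 1, nat_lit 327250, nat_lit 0, nat_lit 0, [(nat_lit 22, [(nat_lit 0, nat_lit 477), (nat_lit 5, nat_lit 520)])],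
 ⟨p087_k24, nat_lit 0, nat_lit 0, nat_lit 151, nat_lit 0, nat_lit 277303, [nat_lit 1269552001, nat_lit 452839601, nat_lit 10077600], [], [nat_lit 20959860926, nat_lit 21511698453, nat_lit 21478485806, nat_lit 22009364503, nat_lit 21865047728, nat_lit 22551135178, nat_lit 22385184906, nat_lit 23022079739], nat_lit 1271250, nat_lit 1271250, nat_lit 780000, nat_lit 1100001, nat_lit 1271250, nat_lit 1271250, [nat_lit 490000, nat_lit 1100000, nat_lit 1442500], [nat_lit 6, nat_lit 40, nat_lit 40, nat_lit 80, nat_lit 3, nat_lit 249, nat_lit 40, nat_lit 8]⟩, ⟨p087_k22, nat_lit 0, nat_lit 0, nat_lit 523, nat_lit 0, nat_lit 499438, [nat_lit 14064000, nat_lit 23904000, nat_lit 35616000], [], [nat_lit 199829824, nat_lit 153653156, nat_lit 153653156, nat_lit 108181688, nat_lit 108831046, nat_lit 101316348, nat_lit 129311895, nat_lit 97723443], nat_lit 1271250, nat_lit 1271250, nat_lit 780000, nat_lit 1100001, nat_lit 0, nat_lit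 2570750, [nat_lit 1100000, nat_lit 1785000, nat_lit 1271250], [nat_lit 21, nat_lit 40, nat_lit 40, nat_lit 80, nat_lit 14, nat_lit 456, nat_lit 225, nat_lit 12]⟩,
 ⟨nat_lit 3162, nat_lit 3536, ⟨.ofNat (nat_lit 418344), .ofNat (nat_lit 481116), .ofNat (nat_lit 462233), .ofNat (nat_lit 525005), .ofNat (nat_lit 422365), .ofNat (nat_lit 483329), .ofNat (nat_lit 466658), .ofNat (nat_lit 527622)⟩, ⟨.ofNat (nat_lit 431044), .ofNat (nat_lit 468701), .ofNat (nat_lit 474949), .ofNat (nat_lit 512606), .ofNat (nat_lit 428022), .ofNat (nat_lit 464594), .ofNat (nat_lit 472332), .ofNat (nat_lit 508904)⟩⟩, [⟨nat_lit 16, nat_lit 69, nat_lit 100, nat_lit 96, nat_lit 304281847⟩, ⟨nat_lit 7, nat_lit 77, nat_lit 100, nat_lit 91, nat_lit 516988⟩]⟩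
noncomputable def p087_l148 : Lf2 := ⟨nat_lit 0, nat_lit 20, [nat_lit 5, nat_lit 5, nat_lit 5, nat_lit 20], false, nat_lit 240, nat_lit 264, nat_lit 0, nat_lit 364, ⟨nat_lit 0, nat_lit 222, nat_lit 778, nat_lit 6, nat_lit 189, nat_lit 1000, nat_lit 188, nat_lit 778, nat_lit 25644, nat_lit 253, nat_lit 16148, nat_lit 244, nat_lit 44101032, nat_lit 11510706, nat_lit 11388262, nat_lit 4731212, false, false⟩,
 nat_lit 0, nat_lit 4072, nat_lit 0, nat_lit 789, nat_lit 3420, nat_lit 0, nat_lit 0, nat_lit 0, nat_lit 0, nat_lit 0, nat_lit 0, nat_lit 0, nat_lit 0, nat_lit 0, nat_lit 49, nat_lit 250000, nat_lit 0, nat_lit 0, [(nat_lit 22, [(nat_lit 0, nat_lit 222), (nat_lit 4, nat_lit 778)])],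
 ⟨p087_k9, nat_lit 0, nat_lit 0, nat_lit 148, nat_lit 0, nat_lit 194412, [nat_lit 1900249601, nat_lit 900670401, nat_lit 37999467], [], [nat_lit 20937028268, nat_lit 21579188800, nat_lit 21377422502, nat_lit 22078949200, nat_lit 22004921692, nat_lit 22716984473, nat_lit 22486565420, nat_lit 23160147185], nat_lit 1271250, nat_lit 1271250, nat_lit 780000, nat_lit 1100001, nat_lit 1271250, nat_lit 1271250, [nat_lit 490000, nat_lit 1100000, nat_lit 1785000], [nat_lit 34, nat_lit 40, nat_lit 40, nat_lit 80, nat_lit 7, nat_lit 249, nat_lit 40, nat_lit 7]⟩, ⟨p087_k8, nat_lit 0, nat_lit 0, nat_lit 544, nat_lit 0, nat_lit 352822, [nat_lit 0, nat_lit 0, nat_lit 0], [], [nat_lit 0, nat_lit 0, nat_lit 0, nat_lit 0, nat_lit 0, nat_lit 0, nat_lit 0, nat_lit 0], nat_lit 1271250, nat_lit 1271250, nat_lit 780000, nat_lit 1100001, nat_lit 0, nat_lit 2570750, [nat_lit 1100000, nat_lit 1785000, nat_lit 1271250], [nat_lit 37, nat_lit 40,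 nat_lit 40, nat_lit 80, nat_lit 28, nat_lit 456, nat_lit 225, nat_lit 11]⟩,
 ⟨nat_lit 3162, nat_lit 3536, ⟨.ofNat (nat_lit 418344), .ofNat (nat_lit 481116), .ofNat (nat_lit 462233), .ofNat (nat_lit 525005), .ofNat (nat_lit 422365), .ofNat (nat_lit 483329), .ofNat (nat_lit 466658), .ofNat (nat_lit 527622)⟩, ⟨.ofNat (nat_lit 431044), .ofNat (nat_lit 468701), .ofNat (nat_lit 474949), .ofNat (nat_lit 512606), .ofNat (nat_lit 428022), .ofNat (nat_lit 464594), .ofNat (nat_lit 472332), .ofNat (nat_lit 508904)⟩⟩, [⟨nat_lit 16, nat_lit 69, nat_lit 100, nat_lit 96, nat_lit 378588234⟩]⟩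
noncomputable def b_V_800_600_20_42 : St := ⟨true, nat_lit 1, nat_lit 1, nat_lit 1, nat_lit 120, nat_lit 340, nat_lit 360, nat_lit 240, nat_lit 280, nat_lit 64, nat_lit 160, nat_lit 80, nat_lit 120, nat_lit 160, nat_lit 300, nat_lit 0, nat_lit 364, nat_lit 40, nat_lit 80, nat_lit 0, nat_lit 0, nat_lit 0, nat_lit 0⟩
theorem d_V_800_600_20_42 (h : EB TB.env) : Dead b_V_800_600_20_42 := chkB_sound0 h (T :=
(.trZ (nat_lit 0) (nat_lit 100) (nat_lit 73) (nat_lit 85) (nat_lit 88) (.trX (nat_lit 16) (nat_lit 77) (nat_lit 100) (nat_lit 99) (nat_lit 276) (.spl (nat_lit 4) (nat_lit 240)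
(.leaf p087_l138)
(.spl (nat_lit 2) (nat_lit 120)
(.leaf p087_l139)
(.spl (nat_lit 0) (nat_lit 350)
(.spl (nat_lit 3) (nat_lit 100)
(.trX (nat_lit 16) (nat_lit 74) (nat_lit 100) (nat_lit 90) (nat_lit 256) (.trX (nat_lit 19) (nat_lit 100) (nat_lit 68) (nat_lit 88) (nat_lit 352) (.leaf p087_l140)))
(.spl (nat_lit 1) (nat_lit 260)
(.leaf p087_l141)
(.trX (nat_lit 19) (nat_lit 100) (nat_lit 69) (nat_lit 96) (nat_lit 352) (.spl (nat_lit 1) (nat_lit 270)
(.leaf p087_l142)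
(.trX (nat_lit 19) (nat_lit 100) (nat_lit 74) (nat_lit 98) (nat_lit 344) (.spl (nat_lit 1) (nat_lit 275)
(.leaf p087_l143)
(.trX (nat_lit 19) (nat_lit 100) (nat_lit 77) (nat_lit 99) (nat_lit 340) (.spl (nat_lit 6) (nat_lit 60)
(.spl (nat_lit 2) (nat_lit 140)
(.leaf p087_l144)
(.leaf p087_l145))
(.leaf p087_l146)))))))))
(.trX (nat_lit 16) (nat_lit 69) (nat_lit 100) (nat_lit 96) (nat_lit 264) (.spl (nat_lit 6) (nat_lit 60)
(.leaf p087_l147)
(.leaf p087_l148))))))))) (by decide +kernel)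

end B2
end Pool.Agent.Lib.MP_6947cd_al
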