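import Pool.Agent.Lib.MP_6947cd_al.ZB.Pre

/-!
Problem MP_6947cd_al (Chollet).  Case B, second entry in [2/5, 17/20]: certificates of the tree, part P088 (generated).
-/

set_option autoImplicit false
set_option linter.all false

namespace Pool.Agent.Lib.MP_6947cd_al
namespace B2

open Ent Fr B1 PkA

noncomputable def p088_k0 : C1.Kn := ⟨[nat_lit 40, nat_lit 80, nat_lit 120], [nat_lit 0, nat_lit 0, nat_lit 2151], [(nat_lit 0, nat_lit 0, nat_lit 0), (nat_lit 0, nat_lit 0, nat_lit 0), (nat_lit 1000, nat_lit 815, nat_lit 753)], (nat_lit 81, nat_lit 100, nat_lit 72)⟩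
noncomputable def p088_k1 : C1.Kn := ⟨[nat_lit 80, nat_lit 120, nat_lit 160], [nat_lit 0, nat_lit 0, nat_lit 2132], [(nat_lit 0, nat_lit 0, nat_lit 0), (nat_lit 0, nat_lit 0, nat_lit 0), (nat_lit 858, nat_lit 1000, nat_lit 713)], (nat_lit 100, nat_lit 85, nat_lit 73)⟩
noncomputable def p088_k2 : C1.Kn := ⟨[nat_lit 40, nat_lit 60, nat_lit 120], [nat_lit 0, nat_lit 0, nat_lit 1823], [(nat_lit 0, nat_lit 0, nat_lit 0), (nat_lit 0, nat_lit 0, nat_lit 0), (nat_lit 1000, nat_lit 810, nat_lit 474)], (nat_lit 81, nat_lit 100, nat_lit 72)⟩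
noncomputable def p088_k3 : C1.Kn := ⟨[nat_lit 80, nat_lit 100, nat_lit 160], [nat_lit 0, nat_lit 265, nat_lit 1771], [(nat_lit 0, nat_lit 0, nat_lit 0), (nat_lit 1000, nat_lit 959, nat_lit 206), (nat_lit 1000, nat_lit 958, nat_lit 392)], (nat_lit 100, nat_lit 92, nat_lit 75)⟩
noncomputable def p088_k4 : C1.Kn := ⟨[nat_lit 80, nat_lit 120, nat_lit 160], [nat_lit 0, nat_lit 528, nat_lit 2577], [(nat_lit 0, nat_lit 0, nat_lit 0), (nat_lit 1000, nat_lit 959, nat_lit 206), (nat_lit 929, nat_lit 1000, nat_lit 742)], (nat_lit 100, nat_lit 92, nat_lit 75)⟩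
noncomputable def p088_k5 : C1.Kn := ⟨[nat_lit 80, nat_lit 120, nat_lit 160], [nat_lit 0, nat_lit 796, nat_lit 2802], [(nat_lit 0, nat_lit 0, nat_lit 0), (nat_lit 1000, nat_lit 938, nat_lit 310), (nat_lit 969, nat_lit 1000, nat_lit 759)], (nat_lit 100, nat_lit 97, nat_lit 76)⟩
noncomputable def p088_k6 : C1.Kn := ⟨[nat_lit 40, nat_lit 80, nat_lit 140], [nat_lit 0, nat_lit 0, nat_lit 3199], [(nat_lit 0, nat_lit 0, nat_lit 0), (nat_lit 0, nat_lit 0, nat_lit 0), (nat_lit 1000, nat_lit 833, nat_lit 833)], (nat_lit 83, nat_lit 100, nat_lit 83)⟩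
noncomputable def p088_k7 : C1.Kn := ⟨[nat_lit 80, nat_lit 120, nat_lit 180], [nat_lit 0, nat_lit 0, nat_lit 3196], [(nat_lit 0, nat_lit 0, nat_lit 0), (nat_lit 0, nat_lit 0, nat_lit 0), (nat_lit 858, nat_lit 1000, nat_lit 713)], (nat_lit 100, nat_lit 76, nat_lit 82)⟩
noncomputable def p088_k8 : C1.Kn := ⟨[nat_lit 40, nat_lit 80, nat_lit 120], [nat_lit 0, nat_lit 795, nat_lit 2800], [(nat_lit 0, nat_lit 0, nat_lit 0), (nat_lit 1000, nat_lit 814, nat_lit 310), (nat_lit 1000, nat_lit 719, nat_lit 783)], (nat_lit 72, nat_lit 100, nat_lit 81)⟩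
noncomputable def p088_k9 : C1.Kn := ⟨[nat_lit 40, nat_lit 80, nat_lit 120], [nat_lit 0, nat_lit 1195, nat_lit 3135], [(nat_lit 0, nat_lit 0, nat_lit 0), (nat_lit 1000, nat_lit 720, nat_lit 465), (nat_lit 1000, nat_lit 661, nat_lit 757)], (nat_lit 66, nat_lit 100, nat_lit 80)⟩
noncomputable def p088_k10 : C1.Kn := ⟨[nat_lit 80, nat_lit 120, nat_lit 160], [nat_lit 0, nat_lit 528, nat_lit 2577], [(nat_lit 0, nat_lit 0, nat_lit 0), (nat_lit 1000, nat_lit 959, nat_lit 206), (nat_lit 929, nat_lit 1000, nat_lit 742)], (nat_lit 100, nat_lit 85, nat_lit 84)⟩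
noncomputable def p088_k11 : C1.Kn := ⟨[nat_lit 80, nat_lit 120, nat_lit 160], [nat_lit 0, nat_lit 796, nat_lit 2802], [(nat_lit 0, nat_lit 0, nat_lit 0), (nat_lit 1000, nat_lit 938, nat_lit 310), (nat_lit 969, nat_lit 1000, nat_lit 759)], (nat_lit 100, nat_lit 90, nat_lit 85)⟩
noncomputable def p088_k12 : C1.Kn := ⟨[nat_lit 40, nat_lit 80, nat_lit 140], [nat_lit 0, nat_lit 0, nat_lit 3199], [(nat_lit 0, nat_lit 0, nat_lit 0), (nat_lit 0, nat_lit 0, nat_lit 0), (nat_lit 1000, nat_lit 833, nat_lit 833)], (nat_lit 82, nat_lit 100, nat_lit 79)⟩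
noncomputable def p088_k13 : C1.Kn := ⟨[nat_lit 80, nat_lit 120, nat_lit 180], [nat_lit 0, nat_lit 0, nat_lit 3196], [(nat_lit 0, nat_lit 0, nat_lit 0), (nat_lit 0, nat_lit 0, nat_lit 0), (nat_lit 858, nat_lit 1000, nat_lit 713)], (nat_lit 100, nat_lit 80, nat_lit 78)⟩
noncomputable def p088_k14 : C1.Kn := ⟨[nat_lit 40, nat_lit 80, nat_lit 120], [nat_lit 0, nat_lit 395, nat_lit 2466], [(nat_lit 0, nat_lit 0, nat_lit 0), (nat_lit 1000, nat_lit 908, nat_lit 154), (nat_lit 1000, nat_lit 773, nat_lit 792)], (nat_lit 77, nat_lit 100, nat_lit 78)⟩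
noncomputable def p088_k15 : C1.Kn := ⟨[nat_lit 40, nat_lit 80, nat_lit 120], [nat_lit 0, nat_lit 795, nat_lit 2800], [(nat_lit 0, nat_lit 0, nat_lit 0), (nat_lit 1000, nat_lit 814, nat_lit 310), (nat_lit 1000, nat_lit 719, nat_lit 783)], (nat_lit 71, nat_lit 100, nat_lit 71)⟩
noncomputable def p088_k16 : C1.Kn := ⟨[nat_lit 40, nat_lit 140], [nat_lit 0, nat_lit 0], [(nat_lit 0, nat_lit 0, nat_lit 0), (nat_lit 0, nat_lit 0, nat_lit 0)], (nat_lit 83, nat_lit 100, nat_lit 83)⟩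
noncomputable def p088_k17 : C1.Kn := ⟨[nat_lit 80, nat_lit 180], [nat_lit 0, nat_lit 0], [(nat_lit 0, nat_lit 0, nat_lit 0), (nat_lit 0, nat_lit 0, nat_lit 0)], (nat_lit 100, nat_lit 76, nat_lit 82)⟩
noncomputable def p088_k18 : C1.Kn := ⟨[nat_lit 40, nat_lit 80, nat_lit 140], [nat_lit 0, nat_lit 0, nat_lit 3199], [(nat_lit 0, nat_lit 0, nat_lit 0), (nat_lit 0, nat_lit 0, nat_lit 0), (nat_lit 1000, nat_lit 833, nat_lit 833)], (nat_lit 85, nat_lit 100, nat_lit 88)⟩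
noncomputable def p088_k19 : C1.Kn := ⟨[nat_lit 80, nat_lit 120, nat_lit 180], [nat_lit 0, nat_lit 0, nat_lit 3196], [(nat_lit 0, nat_lit 0, nat_lit 0), (nat_lit 0, nat_lit 0, nat_lit 0), (nat_lit 858, nat_lit 1000, nat_lit 713)], (nat_lit 100, nat_lit 73, nat_lit 85)⟩
noncomputable def p088_k20 : C1.Kn := ⟨[nat_lit 40, nat_lit 80, nat_lit 140], [nat_lit 0, nat_lit 795, nat_lit 3803], [(nat_lit 0, nat_lit 0, nat_lit 0), (nat_lit 1000, nat_lit 814, nat_lit 310), (nat_lit 1000, nat_lit 719, nat_lit 783)], (nat_lit 74, nat_lit 100, nat_lit 90)⟩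
noncomputable def p088_k21 : C1.Kn := ⟨[nat_lit 40, nat_lit 80, nat_lit 120], [nat_lit 0, nat_lit 1195, nat_lit 3135], [(nat_lit 0, nat_lit 0, nat_lit 0), (nat_lit 1000, nat_lit 720, nat_lit 465), (nat_lit 1000, nat_lit 661, nat_lit 757)], (nat_lit 67, nat_lit 100, nat_lit 88)⟩
noncomputable def p088_k22 : C1.Kn := ⟨[nat_lit 40, nat_lit 140], [nat_lit 0, nat_lit 1985], [(nat_lit 0, nat_lit 0, nat_lit 0), (nat_lit 1000, nat_lit 814, nat_lit 310)], (nat_lit 77, nat_lit 100, nat_lit 99)⟩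
noncomputable def p088_k23 : C1.Kn := ⟨[nat_lit 40, nat_lit 80, nat_lit 140], [nat_lit 0, nat_lit 795, nat_lit 3803], [(nat_lit 0, nat_lit 0, nat_lit 0), (nat_lit 1000, nat_lit 814, nat_lit 310), (nat_lit 1000, nat_lit 719, nat_lit 783)], (nat_lit 77, nat_lit 100, nat_lit 99)⟩
noncomputable def p088_k24 : C1.Kn := ⟨[nat_lit 80, nat_lit 120, nat_lit 200], [nat_lit 0, nat_lit 0, nat_lit 4259], [(nat_lit 0, nat_lit 0, nat_lit 0), (nat_lit 0, nat_lit 0, nat_lit 0), (nat_lit 858, nat_lit 1000, nat_lit 713)], (nat_lit 0, nat_lit 0, nat_lit 0)⟩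
noncomputable def p088_k25 : C1.Kn := ⟨[nat_lit 80, nat_lit 200], [nat_lit 0, nat_lit 0], [(nat_lit 0, nat_lit 0, nat_lit 0), (nat_lit 0, nat_lit 0, nat_lit 0)], (nat_lit 0, nat_lit 0, nat_lit 0)⟩
noncomputable def p088_k26 : C1.Kn := ⟨[nat_lit 40, nat_lit 80, nat_lit 140], [nat_lit 0, nat_lit 0, nat_lit 3199], [(nat_lit 0, nat_lit 0, nat_lit 0), (nat_lit 0, nat_lit 0, nat_lit 0), (nat_lit 1000, nat_lit 833, nat_lit 833)], (nat_lit 87, nat_lit 100, nat_lit 94)⟩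
noncomputable def p088_k27 : C1.Kn := ⟨[nat_lit 40, nat_lit 160], [nat_lit 0, nat_lit 0], [(nat_lit 0, nat_lit 0, nat_lit 0), (nat_lit 0, nat_lit 0, nat_lit 0)], (nat_lit 87, nat_lit 95, nat_lit 100)⟩
noncomputable def p088_k28 : C1.Kn := ⟨[nat_lit 40, nat_lit 80, nat_lit 160], [nat_lit 0, nat_lit 0, nat_lit 4265], [(nat_lit 0, nat_lit 0, nat_lit 0), (nat_lit 0, nat_lit 0, nat_lit 0), (nat_lit 1000, nat_lit 833, nat_lit 833)], (nat_lit 87, nat_lit 95, nat_lit 100)⟩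
noncomputable def p088_k29 : C1.Kn := ⟨[nat_lit 40, nat_lit 100, nat_lit 140], [nat_lit 0, nat_lit 1192, nat_lit 4003], [(nat_lit 0, nat_lit 0, nat_lit 0), (nat_lit 1000, nat_lit 814, nat_lit 310), (nat_lit 992, nat_lit 771, nat_lit 1000)], (nat_lit 77, nat_lit 100, nat_lit 99)⟩
noncomputable def p088_k30 : C1.Kn := ⟨[nat_lit 80, nat_lit 140, nat_lit 200], [nat_lit 0, nat_lit 0, nat_lit 5481], [(nat_lit 0, nat_lit 0, nat_lit 0), (nat_lit 0, nat_lit 0, nat_lit 0), (nat_lit 637, nat_lit 1000, nat_lit 908)], (nat_lit 0, nat_lit 0, nat_lit 0)⟩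
noncomputable def p088_k31 : C1.Kn := ⟨[nat_lit 80, nat_lit 140, nat_lit 180], [nat_lit 0, nat_lit 792, nat_lit 4228], [(nat_lit 0, nat_lit 0, nat_lit 0), (nat_lit 1000, nat_lit 959, nat_lit 206), (nat_lit 709, nat_lit 1000, nat_lit 949)], (nat_lit 100, nat_lit 69, nat_lit 96)⟩
noncomputable def p088_k32 : C1.Kn := ⟨[nat_lit 40, nat_lit 100, nat_lit 160], [nat_lit 0, nat_lit 0, nat_lit 4607], [(nat_lit 0, nat_lit 0, nat_lit 0), (nat_lit 0, nat_lit 0, nat_lit 0), (nat_lit 846, nat_lit 837, nat_lit 1000)], (nat_lit 87, nat_lit 95, nat_lit 100)⟩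
noncomputable def p088_k33 : C1.Kn := ⟨[nat_lit 80, nat_lit 120, nat_lit 180], [nat_lit 0, nat_lit 528, nat_lit 3600], [(nat_lit 0, nat_lit 0, nat_lit 0), (nat_lit 1000, nat_lit 959, nat_lit 206), (nat_lit 929, nat_lit 1000, nat_lit 742)], (nat_lit 100, nat_lit 69, nat_lit 96)⟩
noncomputable def p088_k34 : C1.Kn := ⟨[nat_lit 40, nat_lit 80, nat_lit 140], [nat_lit 0, nat_lit 795, nat_lit 3803], [(nat_lit 0, nat_lit 0, nat_lit 0), (nat_lit 1000, nat_lit 814, nat_lit 310), (nat_lit 1000, nat_lit 719, nat_lit 783)], (nat_lit 75, nat_lit 100, nat_lit 92)⟩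
noncomputable def p088_k35 : C1.Kn := ⟨[nat_lit 80, nat_lit 120, nat_lit 180], [nat_lit 0, nat_lit 0, nat_lit 3196], [(nat_lit 0, nat_lit 0, nat_lit 0), (nat_lit 0, nat_lit 0, nat_lit 0), (nat_lit 858, nat_lit 1000, nat_lit 713)], (nat_lit 100, nat_lit 66, nat_lit 90)⟩
noncomputable def p088_k36 : C1.Kn := ⟨[nat_lit 80, nat_lit 120, nat_lit 180], [nat_lit 0, nat_lit 528, nat_lit 3600], [(nat_lit 0, nat_lit 0, nat_lit 0), (nat_lit 1000, nat_lit 959, nat_lit 206), (nat_lit 929, nat_lit 1000, nat_lit 742)], (nat_lit 100, nat_lit 77, nat_lit 91)⟩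
noncomputable def p088_k37 : C1.Kn := ⟨[nat_lit 40, nat_lit 100, nat_lit 140], [nat_lit 0, nat_lit 1192, nat_lit 4003], [(nat_lit 0, nat_lit 0, nat_lit 0), (nat_lit 1000, nat_lit 814, nat_lit 310), (nat_lit 992, nat_lit 771, nat_lit 1000)], (nat_lit 74, nat_lit 100, nat_lit 90)⟩
noncomputable def p088_k38 : C1.Kn := ⟨[nat_lit 80, nat_lit 140, nat_lit 180], [nat_lit 0, nat_lit 792, nat_lit 4228], [(nat_lit 0, nat_lit 0, nat_lit 0), (nat_lit 1000, nat_lit 959, nat_lit 206), (nat_lit 709, nat_lit 1000, nat_lit 949)], (nat_lit 100, nat_lit 77, nat_lit 91)⟩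
noncomputable def p088_k39 : C1.Kn := ⟨[nat_lit 40, nat_lit 100, nat_lit 140], [nat_lit 0, nat_lit 1192, nat_lit 4003], [(nat_lit 0, nat_lit 0, nat_lit 0), (nat_lit 1000, nat_lit 814, nat_lit 310), (nat_lit 992, nat_lit 771, nat_lit 1000)], (nat_lit 75, nat_lit 100, nat_lit 92)⟩
noncomputable def p088_k40 : C1.Kn := ⟨[nat_lit 80, nat_lit 140, nat_lit 180], [nat_lit 0, nat_lit 0, nat_lit 3656], [(nat_lit 0, nat_lit 0, nat_lit 0), (nat_lit 0, nat_lit 0, nat_lit 0), (nat_lit 637, nat_lit 1000, nat_lit 908)], (nat_lit 100, nat_lit 66, nat_lit 90)⟩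
noncomputable def p088_k41 : C1.Kn := ⟨[nat_lit 40, nat_lit 100, nat_lit 140], [nat_lit 0, nat_lit 1790, nat_lit 4440], [(nat_lit 0, nat_lit 0, nat_lit 0), (nat_lit 1000, nat_lit 720, nat_lit 465), (nat_lit 969, nat_lit 697, nat_lit 1000)], (nat_lit 68, nat_lit 100, nat_lit 90)⟩
noncomputable def p088_k42 : C1.Kn := ⟨[nat_lit 40, nat_lit 80, nat_lit 160], [nat_lit 0, nat_lit 0, nat_lit 4265], [(nat_lit 0, nat_lit 0, nat_lit 0), (nat_lit 0, nat_lit 0, nat_lit 0), (nat_lit 1000, nat_lit 833, nat_lit 833)], (nat_lit 88, nat_lit 100, nat_lit 96)⟩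
noncomputable def p088_k43 : C1.Kn := ⟨[nat_lit 40, nat_lit 100, nat_lit 140], [nat_lit 0, nat_lit 0, nat_lit 3243], [(nat_lit 0, nat_lit 0, nat_lit 0), (nat_lit 0, nat_lit 0, nat_lit 0), (nat_lit 1000, nat_lit 870, nat_lit 941)], (nat_lit 87, nat_lit 100, nat_lit 94)⟩
noncomputable def p088_k44 : C1.Kn := ⟨[nat_lit 80, nat_lit 140, nat_lit 180], [nat_lit 0, nat_lit 1192, nat_lit 4513], [(nat_lit 0, nat_lit 0, nat_lit 0), (nat_lit 1000, nat_lit 938, nat_lit 310), (nat_lit 752, nat_lit 1000, nat_lit 973)], (nat_lit 100, nat_lit 82, nat_lit 92)⟩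
noncomputable def p088_k45 : C1.Kn := ⟨[nat_lit 40, nat_lit 100, nat_lit 140], [nat_lit 0, nat_lit 0, nat_lit 3243], [(nat_lit 0, nat_lit 0, nat_lit 0), (nat_lit 0, nat_lit 0, nat_lit 0), (nat_lit 1000, nat_lit 870, nat_lit 941)], (nat_lit 85, nat_lit 100, nat_lit 88)⟩
noncomputable def p088_k46 : C1.Kn := ⟨[nat_lit 40, nat_lit 100, nat_lit 120], [nat_lit 0, nat_lit 1790, nat_lit 3212], [(nat_lit 0, nat_lit 0, nat_lit 0), (nat_lit 1000, nat_lit 720, nat_lit 465), (nat_lit 1000, nat_lit 674, nat_lit 878)], (nat_lit 67, nat_lit 100, nat_lit 88)⟩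
noncomputable def p088_k47 : C1.Kn := ⟨[nat_lit 80, nat_lit 140, nat_lit 180], [nat_lit 0, nat_lit 0, nat_lit 3656], [(nat_lit 0, nat_lit 0, nat_lit 0), (nat_lit 0, nat_lit 0, nat_lit 0), (nat_lit 637, nat_lit 1000, nat_lit 908)], (nat_lit 100, nat_lit 73, nat_lit 85)⟩
noncomputable def p088_k48 : C1.Kn := ⟨[nat_lit 40, nat_lit 80, nat_lit 140], [nat_lit 0, nat_lit 395, nat_lit 3500], [(nat_lit 0, nat_lit 0, nat_lit 0), (nat_lit 1000, nat_lit 908, nat_lit 154), (nat_lit 1000, nat_lit 776, nat_lit 808)], (nat_lit 79, nat_lit 100, nat_lit 86)⟩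
noncomputable def p088_k49 : C1.Kn := ⟨[nat_lit 80, nat_lit 120, nat_lit 180], [nat_lit 0, nat_lit 0, nat_lit 3196], [(nat_lit 0, nat_lit 0, nat_lit 0), (nat_lit 0, nat_lit 0, nat_lit 0), (nat_lit 858, nat_lit 1000, nat_lit 713)], (nat_lit 100, nat_lit 68, nat_lit 88)⟩
noncomputable def p088_k50 : C1.Kn := ⟨[nat_lit 40, nat_lit 100, nat_lit 140], [nat_lit 0, nat_lit 1790, nat_lit 4440], [(nat_lit 0, nat_lit 0, nat_lit 0), (nat_lit 1000, nat_lit 720, nat_lit 465), (nat_lit 969, nat_lit 697, nat_lit 1000)], (nat_lit 69, nat_lit 100, nat_lit 96)⟩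
noncomputable def p088_l0 : Lf2 := ⟨nat_lit 0, nat_lit 15, [nat_lit 30, nat_lit 5, nat_lit 5, nat_lit 20], false, nat_lit 160, nat_lit 240, nat_lit 0, nat_lit 364, ⟨nat_lit 37, nat_lit 963, nat_lit 0, nat_lit 6, nat_lit 222, nat_lit 963, nat_lit 157, nat_lit 0, nat_lit 0, nat_lit 0, nat_lit 0, nat_lit 0, nat_lit 43747968, nat_lit 14739276, nat_lit 8512756, nat_lit 4690887, false, false⟩,
 nat_lit 1067, nat_lit 4830, nat_lit 0, nat_lit 0, nat_lit 4422, nat_lit 564, nat_lit 0, nat_lit 0, nat_lit 0, nat_lit 0, nat_lit 0, nat_lit 0, nat_lit 0, nat_lit 0, nat_lit 0, nat_lit 240750, nat_lit 0, nat_lit 0, [(nat_lit 19, [(nat_lit 0, nat_lit 963)])],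
 ⟨p088_k0, nat_lit 0, nat_lit 0, nat_lit 80, nat_lit 0, nat_lit 140868, [nat_lit 1560515201, nat_lit 2282811200, nat_lit 3089056800], [], [nat_lit 17234446928, nat_lit 18830278328, nat_lit 19924196096, nat_lit 21299067680, nat_lit 19924196096, nat_lit 21299067680, nat_lit 22156896632, nat_lit 23347155656], nat_lit 1271250, nat_lit 1271250, nat_lit 1100001, nat_lit 1785000, nat_lit 1100001, nat_lit 1785000, [nat_lit 490000, nat_lit 1100000, nat_lit 1785000], [nat_lit 34, nat_lit 40, nat_lit 40, nat_lit 80, nat_lit 7, nat_lit 345, nat_lit 125, nat_lit 10]⟩, ⟨p088_k1, nat_lit 0, nat_lit 0, nat_lit 351, nat_lit 0, nat_lit 220564, [nat_lit 173456000, nat_lit 294816000, nat_lit 439264000], [], [nat_lit 1946358204, nat_lit 1648149972, nat_lit 1352981784, nat_lit 1415144376, nat_lit 1965904572, nat_lit 1710808839, nat_lit 1216399622, nat_lit 1234089675], nat_lit 1271250, nat_lit 1271250, nat_lit 1271250, nat_lit 1271250,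 nat_lit 0, nat_lit 2570750, [nat_lit 1100000, nat_lit 1785000, nat_lit 1271250], [nat_lit 21, nat_lit 40, nat_lit 40, nat_lit 80, nat_lit 14, nat_lit 456, nat_lit 225, nat_lit 12]⟩,
 ⟨nat_lit 3872, nat_lit 4473, ⟨.ofNat (nat_lit 475111), .ofNat (nat_lit 611083), .ofNat (nat_lit 496660), .ofNat (nat_lit 632632), .ofNat (nat_lit 479021), .ofNat (nat_lit 608080), .ofNat (nat_lit 500797), .ofNat (nat_lit 629856)⟩, ⟨.ofNat (nat_lit 302621), .ofNat (nat_lit 438578), .ofNat (nat_lit 345754), .ofNat (nat_lit 481711), .ofNat (nat_lit 304717), .ofNat (nat_lit 433760), .ofNat (nat_lit 348304), .ofNat (nat_lit 477347)⟩⟩, [⟨nat_lit 4, nat_lit 100, nat_lit 81, nat_lit 92, nat_lit 148423532⟩, ⟨nat_lit 7, nat_lit 72, nat_lit 100, nat_lit 89, nat_lit 5294683⟩]⟩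
noncomputable def p088_l1 : Lf2 := ⟨nat_lit 0, nat_lit 15, [nat_lit 30, nat_lit 5, nat_lit 5, nat_lit 20], false, nat_lit 160, nat_lit 240, nat_lit 0, nat_lit 352, ⟨nat_lit 195, nat_lit 0, nat_lit 805, nat_lit 6, nat_lit 230, nat_lit 805, nat_lit 157, nat_lit 805, nat_lit 67907, nat_lit 278, nat_lit 37112, nat_lit 200, nat_lit 43032821, nat_lit 0, nat_lit 0, nat_lit 4747551, false, false⟩,
 nat_lit 4258, nat_lit 0, nat_lit 0, nat_lit 0, nat_lit 3193, nat_lit 2478, nat_lit 0, nat_lit 0, nat_lit 0, nat_lit 0, nat_lit 0, nat_lit 0, nat_lit 0, nat_lit 0, nat_lit 46, nat_lit 376000, nat_lit 0, nat_lit 0, [(nat_lit 19, [(nat_lit 5, nat_lit 715), (nat_lit 6, nat_lit 90)])],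
 ⟨p088_k2, nat_lit 0, nat_lit 0, nat_lit 125, nat_lit 0, nat_lit 203000, [nat_lit 1505228000, nat_lit 1773271001, nat_lit 179912500], [], [nat_lit 17973268268, nat_lit 19082643234, nat_lit 20075327960, nat_lit 21049895224, nat_lit 20075327960, nat_lit 21049895224, nat_lit 21883128984, nat_lit 22834336218], nat_lit 1271250, nat_lit 1271250, nat_lit 1100001, nat_lit 1785000, nat_lit 1100001, nat_lit 1785000, [nat_lit 490000, nat_lit 780000, nat_lit 1762500], [nat_lit 161, nat_lit 40, nat_lit 40, nat_lit 80, nat_lit 43, nat_lit 345, nat_lit 125, nat_lit 10]⟩, ⟨p088_k3, nat_lit 0, nat_lit 0, nat_lit 369, nat_lit 0, nat_lit 280526, [nat_lit 914160000, nat_lit 1218750000, nat_lit 2315040000], [], [nat_lit 8194185096, nat_lit 7110106908, nat_lit 7297264476, nat_lit 7589355144, nat_lit 6592290581, nat_lit 6731229017, nat_lit 7929879560, nat_lit 6819182470], nat_lit 1271250, nat_lit 1271250, nat_lit 1100001, nat_lit 1785000,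 nat_lit 0, nat_lit 2486000, [nat_lit 1100000, nat_lit 1442500, nat_lit 1271250], [nat_lit 48, nat_lit 40, nat_lit 40, nat_lit 80, nat_lit 12, nat_lit 456, nat_lit 225, nat_lit 12]⟩,
 ⟨nat_lit 3872, nat_lit 4473, ⟨.ofNat (nat_lit 496660), .ofNat (nat_lit 632632), .ofNat (nat_lit 518209), .ofNat (nat_lit 654181), .ofNat (nat_lit 500797), .ofNat (nat_lit 629856), .ofNat (nat_lit 522572), .ofNat (nat_lit 651631)⟩, ⟨.ofNat (nat_lit 302621), .ofNat (nat_lit 438578), .ofNat (nat_lit 345754), .ofNat (nat_lit 481711), .ofNat (nat_lit 304717), .ofNat (nat_lit 433760), .ofNat (nat_lit 348304), .ofNat (nat_lit 477347)⟩⟩, [⟨nat_lit 4, nat_lit 100, nat_lit 81, nat_lit 92, nat_lit 18878821⟩, ⟨nat_lit 7, nat_lit 82, nat_lit 100, nat_lit 92, nat_lit 29032480⟩]⟩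
noncomputable def p088_l2 : Lf2 := ⟨nat_lit 0, nat_lit 15, [nat_lit 30, nat_lit 5, nat_lit 5, nat_lit 20], false, nat_lit 240, nat_lit 300, nat_lit 0, nat_lit 160, ⟨nat_lit 1000, nat_lit 0, nat_lit 0, nat_lit 0, nat_lit 0, nat_lit 0, nat_lit 0, nat_lit 0, nat_lit 0, nat_lit 0, nat_lit 0, nat_lit 0, nat_lit 0, nat_lit 0, nat_lit 0, nat_lit 0, false, false⟩,
 nat_lit 13611, nat_lit 0, nat_lit 0, nat_lit 0, nat_lit 10202, nat_lit 7205, nat_lit 0, nat_lit 0, nat_lit 0, nat_lit 0, nat_lit 0, nat_lit 0, nat_lit 0, nat_lit 0, nat_lit 0, nat_lit 0, nat_lit 0, nat_lit 0, [],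
 ⟨p088_k0, nat_lit 0, nat_lit 0, nat_lit 139, nat_lit 0, nat_lit 203000, [nat_lit 2032000001, nat_lit 4688000000, nat_lit 7968000000], [], [nat_lit 22813231112, nat_lit 24755999896, nat_lit 24576372776, nat_lit 26211421768, nat_lit 26465323310, nat_lit 28111316869, nat_lit 27806355250, nat_lit 29775364973], nat_lit 1271250, nat_lit 1271250, nat_lit 1100001, nat_lit 1785000, nat_lit 1271250, nat_lit 1271250, [nat_lit 490000, nat_lit 1100000, nat_lit 1785000], [nat_lit 34, nat_lit 40, nat_lit 40, nat_lit 80, nat_lit 7, nat_lit 272, nat_lit 60, nat_lit 8]⟩, ⟨p088_k1, nat_lit 0, nat_lit 0, nat_lit 391, nat_lit 0, nat_lit 317847, [nat_lit 4688000000, nat_lit 7968000000, nat_lit 11872000000], [], [nat_lit 40355279200, nat_lit 39154501180, nat_lit 39098955540, nat_lit 40631175760, nat_lit 33650652040, nat_lit 34917718580, nat_lit 36951775300, nat_lit 35825273500], nat_lit 1271250, nat_lit 1271250, nat_lit 1100001, nat_lit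 1785000, nat_lit 0, nat_lit 1100001, [nat_lit 1100000, nat_lit 1785000, nat_lit 1271250], [nat_lit 21, nat_lit 40, nat_lit 40, nat_lit 80, nat_lit 14, nat_lit 401, nat_lit 175, nat_lit 10]⟩,
 zbF0, [⟨nat_lit 4, nat_lit 100, nat_lit 81, nat_lit 92, nat_lit 696102176⟩]⟩
noncomputable def p088_l3 : Lf2 := ⟨nat_lit 0, nat_lit 15, [nat_lit 30, nat_lit 5, nat_lit 5, nat_lit 20], false, nat_lit 240, nat_lit 300, nat_lit 160, nat_lit 364, ⟨nat_lit 98, nat_lit 902, nat_lit 0, nat_lit 6, nat_lit 222, nat_lit 902, nat_lit 203, nat_lit 0, nat_lit 0, nat_lit 0, nat_lit 0, nat_lit 0, nat_lit 40665072, nat_lit 14090209, nat_lit 12244719, nat_lit 5079815, false, false⟩,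
 nat_lit 1773, nat_lit 6192, nat_lit 0, nat_lit 0, nat_lit 5973, nat_lit 938, nat_lit 101, nat_lit 0, nat_lit 0, nat_lit 111, nat_lit 0, nat_lit 0, nat_lit 0, nat_lit 0, nat_lit 0, nat_lit 225500, nat_lit 0, nat_lit 0, [(nat_lit 19, [(nat_lit 0, nat_lit 902)])],
 ⟨p088_k0, nat_lit 0, nat_lit 0, nat_lit 117, nat_lit 0, nat_lit 140868, [nat_lit 1590380801, nat_lit 2435164800, nat_lit 3398107200], [], [nat_lit 21243845013, nat_lit 22636031829, nat_lit 23067748949, nat_lit 24263421757, nat_lit 24061982640, nat_lit 25265709494, nat_lit 25653265625, nat_lit 27068439165], nat_lit 1271250, nat_lit 1271250, nat_lit 1100001, nat_lit 1785000, nat_lit 1271250, nat_lit 1271250, [nat_lit 490000, nat_lit 1100000, nat_lit 1785000], [nat_lit 34, nat_lit 40, nat_lit 40, nat_lit 80, nat_lit 7, nat_lit 272, nat_lit 60, nat_lit 8]⟩, ⟨p088_k1, nat_lit 0, nat_lit 0, nat_lit 209, nat_lit 0, nat_lit 220564, [nat_lit 459424000, nat_lit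 780864000, nat_lit 1163456000], [], [nat_lit 3848787096, nat_lit 3352830852, nat_lit 2912907200, nat_lit 2458579396, nat_lit 2731301122, nat_lit 2791816295, nat_lit 2818386027, nat_lit 2884884936], nat_lit 1271250, nat_lit 1271250, nat_lit 1100001, nat_lit 1785000, nat_lit 1271250, nat_lit 1271250, [nat_lit 1100000, nat_lit 1785000, nat_lit 1271250], [nat_lit 21, nat_lit 40, nat_lit 40, nat_lit 80, nat_lit 14, nat_lit 456, nat_lit 225, nat_lit 11]⟩,
 ⟨nat_lit 3872, nat_lit 4473, ⟨.ofNat (nat_lit 475111), .ofNat (nat_lit 611083), .ofNat (nat_lit 496660), .ofNat (nat_lit 632632), .ofNat (nat_lit 479021), .ofNat (nat_lit 608080), .ofNat (nat_lit 500797), .ofNat (nat_lit 629856)⟩, ⟨.ofNat (nat_lit 438578), .ofNat (nat_lit 540545), .ofNat (nat_lit 481711), .ofNat (nat_lit 583678), .ofNat (nat_lit 433760), .ofNat (nat_lit 530543), .ofNat (nat_lit 477347), .ofNat (nat_lit 574129)⟩⟩, [⟨nat_lit 4, nat_lit 100, nat_lit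 81, nat_lit 92, nat_lit 317502078⟩, ⟨nat_lit 19, nat_lit 100, nat_lit 72, nat_lit 89, nat_lit 10261455⟩]⟩
noncomputable def p088_l4 : Lf2 := ⟨nat_lit 0, nat_lit 15, [nat_lit 30, nat_lit 5, nat_lit 5, nat_lit 20], false, nat_lit 240, nat_lit 300, nat_lit 160, nat_lit 352, ⟨nat_lit 829, nat_lit 171, nat_lit 0, nat_lit 6, nat_lit 228, nat_lit 171, nat_lit 203, nat_lit 0, nat_lit 0, nat_lit 0, nat_lit 0, nat_lit 0, nat_lit 40199044, nat_lit 14648479, nat_lit 12152477, nat_lit 5118454, false, false⟩,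
 nat_lit 12674, nat_lit 0, nat_lit 0, nat_lit 0, nat_lit 9505, nat_lit 7377, nat_lit 0, nat_lit 0, nat_lit 0, nat_lit 973, nat_lit 0, nat_lit 0, nat_lit 0, nat_lit 0, nat_lit 0, nat_lit 42750, nat_lit 0, nat_lit 0, [(nat_lit 19, [(nat_lit 0, nat_lit 171)])],
 ⟨p088_k0, nat_lit 0, nat_lit 0, nat_lit 129, nat_lit 0, nat_lit 170810, [nat_lit 1948278401, nat_lit 4260910401, nat_lit 7101645600], [], [nat_lit 22553297380, nat_lit 24405322340, nat_lit 24326453540, nat_lit 25889087020, nat_lit 26067941875, nat_lit 27641879685, nat_lit 27451495125, nat_lit 29329224683], nat_lit 1271250, nat_lit 1271250, nat_lit 1100001, nat_lit 1785000, nat_lit 1271250, nat_lit 1271250, [nat_lit 490000, nat_lit 1100000, nat_lit 1785000], [nat_lit 34, nat_lit 40, nat_lit 40, nat_lit 80, nat_lit 7, nat_lit 272, nat_lit 60, nat_lit 8]⟩, ⟨p088_k4, nat_lit 0, nat_lit 0, nat_lit 211, nat_lit 0, nat_lit 236043, [nat_lit 3886352000, nat_lit 6605472000,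 nat_lit 9841888000], [], [nat_lit 27807229402, nat_lit 25856979289, nat_lit 21291603578, nat_lit 19505049095, nat_lit 21525164110, nat_lit 21801558348, nat_lit 22938701257, nat_lit 23374916046], nat_lit 1271250, nat_lit 1271250, nat_lit 1100001, nat_lit 1785000, nat_lit 1271250, nat_lit 1271250, [nat_lit 1100000, nat_lit 1785000, nat_lit 1271250], [nat_lit 21, nat_lit 40, nat_lit 40, nat_lit 80, nat_lit 14, nat_lit 456, nat_lit 225, nat_lit 11]⟩,
 ⟨nat_lit 3872, nat_lit 4473, ⟨.ofNat (nat_lit 496660), .ofNat (nat_lit 632632), .ofNat (nat_lit 507435), .ofNat (nat_lit 643407), .ofNat (nat_lit 500797), .ofNat (nat_lit 629856), .ofNat (nat_lit 511685), .ofNat (nat_lit 640744)⟩, ⟨.ofNat (nat_lit 438578), .ofNat (nat_lit 540545), .ofNat (nat_lit 481711), .ofNat (nat_lit 583678), .ofNat (nat_lit 433760), .ofNat (nat_lit 530543), .ofNat (nat_lit 477347), .ofNat (nat_lit 574129)⟩⟩, [⟨nat_lit 4, nat_lit 100, nat_lit 81,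 nat_lit 92, nat_lit 626666760⟩, ⟨nat_lit 19, nat_lit 100, nat_lit 69, nat_lit 96, nat_lit 39828524⟩]⟩
noncomputable def p088_l5 : Lf2 := ⟨nat_lit 0, nat_lit 15, [nat_lit 30, nat_lit 5, nat_lit 5, nat_lit 20], false, nat_lit 240, nat_lit 300, nat_lit 160, nat_lit 344, ⟨nat_lit 1000, nat_lit 0, nat_lit 0, nat_lit 0, nat_lit 0, nat_lit 0, nat_lit 0, nat_lit 0, nat_lit 0, nat_lit 0, nat_lit 0, nat_lit 0, nat_lit 0, nat_lit 0, nat_lit 0, nat_lit 0, false, false⟩,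
 nat_lit 13343, nat_lit 0, nat_lit 0, nat_lit 0, nat_lit 10007, nat_lit 8126, nat_lit 36, nat_lit 0, nat_lit 0, nat_lit 1177, nat_lit 0, nat_lit 0, nat_lit 0, nat_lit 0, nat_lit 0, nat_lit 0, nat_lit 0, nat_lit 0, [],
 ⟨p088_k0, nat_lit 0, nat_lit 0, nat_lit 139, nat_lit 0, nat_lit 203000, [nat_lit 2032000001, nat_lit 4688000000, nat_lit 7968000000], [], [nat_lit 22740902192, nat_lit 24658283536, nat_lit 24506845616, nat_lit 26121634888, nat_lit 26354540585, nat_lit 27980141142, nat_lit 27707075875, nat_lit 29650548106], nat_lit 1271250, nat_lit 1271250, nat_lit 1100001, nat_lit 1785000, nat_lit 1271250, nat_lit 1271250, [nat_lit 490000, nat_lit 1100000, nat_lit 1785000], [nat_lit 34, nat_lit 40, nat_lit 40, nat_lit 80, nat_lit 7, nat_lit 272, nat_lit 60, nat_lit 8]⟩, ⟨p088_k5, nat_lit 0, nat_lit 0, nat_lit 219, nat_lit 0, nat_lit 264505, [nat_lit 4688000000, nat_lit 7968000000, nat_lit 11872000000], [], [nat_lit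 30625948358, nat_lit 28477685864, nat_lit 24399973386, nat_lit 22432026832, nat_lit 25225259783, nat_lit 25553365086, nat_lit 26954196808, nat_lit 27478972707], nat_lit 1271250, nat_lit 1271250, nat_lit 1100001, nat_lit 1785000, nat_lit 1271250, nat_lit 1271250, [nat_lit 1100000, nat_lit 1785000, nat_lit 1271250], [nat_lit 21, nat_lit 40, nat_lit 40, nat_lit 80, nat_lit 14, nat_lit 456, nat_lit 225, nat_lit 11]⟩,
 zbF0, [⟨nat_lit 16, nat_lit 81, nat_lit 100, nat_lit 92, nat_lit 692371311⟩, ⟨nat_lit 19, nat_lit 100, nat_lit 74, nat_lit 98, nat_lit 97706665⟩]⟩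
noncomputable def p088_l6 : Lf2 := ⟨nat_lit 0, nat_lit 20, [nat_lit 5, nat_lit 5, nat_lit 5, nat_lit 20], false, nat_lit 160, nat_lit 280, nat_lit 0, nat_lit 352, ⟨nat_lit 135, nat_lit 865, nat_lit 0, nat_lit 6, nat_lit 226, nat_lit 865, nat_lit 166, nat_lit 0, nat_lit 0, nat_lit 0, nat_lit 0, nat_lit 0, nat_lit 42815533, nat_lit 15016758, nat_lit 9167709, nat_lit 4803851, false, false⟩,
 nat_lit 4701, nat_lit 1621, nat_lit 0, nat_lit 0, nat_lit 4741, nat_lit 2488, nat_lit 0, nat_lit 0, nat_lit 0, nat_lit 14, nat_lit 0, nat_lit 0, nat_lit 0, nat_lit 0, nat_lit 0, nat_lit 216250, nat_lit 0, nat_lit 0, [(nat_lit 19, [(nat_lit 0, nat_lit 865)])],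
 ⟨p088_k6, nat_lit 0, nat_lit 0, nat_lit 77, nat_lit 0, nat_lit 100601, [nat_lit 1608496001, nat_lit 2681546000, nat_lit 4098936200], [], [nat_lit 17302322584, nat_lit 18961858284, nat_lit 20030461488, nat_lit 21456906440, nat_lit 22037423954, nat_lit 23340186218, nat_lit 24027791842, nat_lit 25346222953], nat_lit 1271250, nat_lit 1271250, nat_lit 1100001, nat_lit 1785000, nat_lit 1100001, nat_lit 2127500, [nat_lit 490000, nat_lit 1100000, nat_lit 2127500], [nat_lit 27, nat_lit 40, nat_lit 40, nat_lit 80, nat_lit 13, nat_lit 373, nat_lit 150, nat_lit 10]⟩, ⟨p088_k7, nat_lit 0, nat_lit 0, nat_lit 394, nat_lit 0, nat_lit 157515, [nat_lit 632880000, nat_lit 1075680000, nat_lit 1897830000], [], [nat_lit 7757075540, nat_lit 6427470060, nat_lit 6193466768, nat_lit 6596791100, nat_lit 7257687908, nat_lit 4998269425, nat_lit 4658778084, nat_lit 4751629426], nat_lit 1271250, nat_lit 1271250, nat_lit 1271250, nat_lit 1271250,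 nat_lit 0, nat_lit 2486000, [nat_lit 1100000, nat_lit 1785000, nat_lit 1271250], [nat_lit 37, nat_lit 40, nat_lit 40, nat_lit 80, nat_lit 28, nat_lit 456, nat_lit 225, nat_lit 11]⟩,
 ⟨nat_lit 3872, nat_lit 4473, ⟨.ofNat (nat_lit 475111), .ofNat (nat_lit 611083), .ofNat (nat_lit 518209), .ofNat (nat_lit 654181), .ofNat (nat_lit 479021), .ofNat (nat_lit 608080), .ofNat (nat_lit 522572), .ofNat (nat_lit 651631)⟩, ⟨.ofNat (nat_lit 302621), .ofNat (nat_lit 506556), .ofNat (nat_lit 324188), .ofNat (nat_lit 528122), .ofNat (nat_lit 304717), .ofNat (nat_lit 498282), .ofNat (nat_lit 326511), .ofNat (nat_lit 520075)⟩⟩, [⟨nat_lit 4, nat_lit 100, nat_lit 79, nat_lit 87, nat_lit 279810340⟩]⟩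
noncomputable def p088_l7 : Lf2 := ⟨nat_lit 0, nat_lit 20, [nat_lit 5, nat_lit 5, nat_lit 5, nat_lit 20], false, nat_lit 160, nat_lit 300, nat_lit 0, nat_lit 364, ⟨nat_lit 73, nat_lit 927, nat_lit 0, nat_lit 6, nat_lit 226, nat_lit 927, nat_lit 181, nat_lit 0, nat_lit 0, nat_lit 0, nat_lit 0, nat_lit 0, nat_lit 41817545, nat_lit 14800376, nat_lit 10382079, nat_lit 4937147, false, false⟩,
 nat_lit 2512, nat_lit 1776, nat_lit 0, nat_lit 7835, nat_lit 3216, nat_lit 1329, nat_lit 0, nat_lit 0, nat_lit 0, nat_lit 4, nat_lit 0, nat_lit 0, nat_lit 0, nat_lit 0, nat_lit 0, nat_lit 231750, nat_lit 0, nat_lit 0, [(nat_lit 19, [(nat_lit 0, nat_lit 927)])],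
 ⟨p088_k6, nat_lit 0, nat_lit 0, nat_lit 72, nat_lit 0, nat_lit 33275, [nat_lit 1578140801, nat_lit 2537730800, nat_lit 3695680760], [], [nat_lit 16601965313, nat_lit 18106218257, nat_lit 19396131393, nat_lit 20700363953, nat_lit 22262526345, nat_lit 23406939425, nat_lit 24280273889, nat_lit 25303720684], nat_lit 1271250, nat_lit 1271250, nat_lit 1100001, nat_lit 1785000, nat_lit 1100001, nat_lit 2298750, [nat_lit 490000, nat_lit 1100000, nat_lit 2127500], [nat_lit 27, nat_lit 40, nat_lit 40, nat_lit 80, nat_lit 13, nat_lit 373, nat_lit 150, nat_lit 10]⟩, ⟨p088_k7, nat_lit 0, nat_lit 0, nat_lit 269, nat_lit 0, nat_lit 52410, [nat_lit 342224000, nat_lit 581664000, nat_lit 1026234000], [], [nat_lit 4169632236, nat_lit 3499452372, nat_lit 3375241192, nat_lit 3591670584, nat_lit 4026263034, nat_lit 2824056545, nat_lit 2638862990, nat_lit 2680351189], nat_lit 1271250, nat_lit 1271250, nat_lit 1271250, nat_lit 1271250,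 nat_lit 0, nat_lit 2570750, [nat_lit 1100000, nat_lit 1785000, nat_lit 1271250], [nat_lit 37, nat_lit 40, nat_lit 40, nat_lit 80, nat_lit 28, nat_lit 456, nat_lit 225, nat_lit 11]⟩,
 ⟨nat_lit 3872, nat_lit 4473, ⟨.ofNat (nat_lit 475111), .ofNat (nat_lit 611083), .ofNat (nat_lit 518209), .ofNat (nat_lit 654181), .ofNat (nat_lit 479021), .ofNat (nat_lit 608080), .ofNat (nat_lit 522572), .ofNat (nat_lit 651631)⟩, ⟨.ofNat (nat_lit 324188), .ofNat (nat_lit 562111), .ofNat (nat_lit 345754), .ofNat (nat_lit 583678), .ofNat (nat_lit 326511), .ofNat (nat_lit 552336), .ofNat (nat_lit 348304), .ofNat (nat_lit 574129)⟩⟩, [⟨nat_lit 16, nat_lit 82, nat_lit 100, nat_lit 97, nat_lit 199999269⟩, ⟨nat_lit 7, nat_lit 73, nat_lit 100, nat_lit 94, nat_lit 1886959⟩]⟩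
noncomputable def p088_l8 : Lf2 := ⟨nat_lit 0, nat_lit 20, [nat_lit 5, nat_lit 5, nat_lit 5, nat_lit 20], false, nat_lit 160, nat_lit 276, nat_lit 0, nat_lit 160, ⟨nat_lit 273, nat_lit 0, nat_lit 727, nat_lit 6, nat_lit 226, nat_lit 727, nat_lit 167, nat_lit 727, nat_lit 13749, nat_lit 240, nat_lit 31972, nat_lit 200, nat_lit 42672225, nat_lit 0, nat_lit 0, nat_lit 4822324, false, false⟩,
 nat_lit 5210, nat_lit 0, nat_lit 0, nat_lit 0, nat_lit 4217, nat_lit 2758, nat_lit 0, nat_lit 0, nat_lit 0, nat_lit 148, nat_lit 0, nat_lit 0, nat_lit 0, nat_lit 0, nat_lit 0, nat_lit 177200, nat_lit 0, nat_lit 0, [(nat_lit 22, [(nat_lit 3, nat_lit 70), (nat_lit 4, nat_lit 657)])],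
 ⟨p088_k8, nat_lit 0, nat_lit 0, nat_lit 170, nat_lit 0, nat_lit 297666, [nat_lit 1896102401, nat_lit 991825201, nat_lit 572406800], [], [nat_lit 19822326047, nat_lit 21085199904, nat_lit 21803330357, nat_lit 22951990580, nat_lit 23185443979, nat_lit 24284367598, nat_lit 24870970940, nat_lit 26127027399], nat_lit 1271250, nat_lit 1271250, nat_lit 1100001, nat_lit 1785000, nat_lit 1100001, nat_lit 2093250, [nat_lit 490000, nat_lit 1100000, nat_lit 1785000], [nat_lit 34, nat_lit 40, nat_lit 40, nat_lit 80, nat_lit 7, nat_lit 373, nat_lit 150, nat_lit 11]⟩, ⟨p088_k7, nat_lit 0, nat_lit 0, nat_lit 585, nat_lit 0, nat_lit 515980, [nat_lit 1279824000, nat_lit 2175264000, nat_lit 3837834000], [], [nat_lit 12222401996, nat_lit 10204052952, nat_lit 10012448056, nat_lit 10596811444, nat_lit 7851647932, nat_lit 8091767448, nat_lit 9873828048, nat_lit 8060650684], nat_lit 1271250, nat_lit 1271250, nat_lit 1100001, nat_lit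 1785000, nat_lit 0, nat_lit 1100001, [nat_lit 1100000, nat_lit 1785000, nat_lit 1271250], [nat_lit 37, nat_lit 40, nat_lit 40, nat_lit 80, nat_lit 28, nat_lit 401, nat_lit 175, nat_lit 9]⟩,
 ⟨nat_lit 3162, nat_lit 3873, ⟨.ofNat (nat_lit 478975), .ofNat (nat_lit 608082), .ofNat (nat_lit 522504), .ofNat (nat_lit 651611), .ofNat (nat_lit 483267), .ofNat (nat_lit 605237), .ofNat (nat_lit 527519), .ofNat (nat_lit 649490)⟩, ⟨.ofNat (nat_lit 304717), .ofNat (nat_lit 491830), .ofNat (nat_lit 348304), .ofNat (nat_lit 535416), .ofNat (nat_lit 306116), .ofNat (nat_lit 482881), .ofNat (nat_lit 350426), .ofNat (nat_lit 527190)⟩⟩, [⟨nat_lit 16, nat_lit 77, nat_lit 100, nat_lit 99, nat_lit 277564274⟩, ⟨nat_lit 9, nat_lit 100, nat_lit 100, nat_lit 9, nat_lit 25943336⟩]⟩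
noncomputable def p088_l9 : Lf2 := ⟨nat_lit 0, nat_lit 20, [nat_lit 5, nat_lit 5, nat_lit 5, nat_lit 20], false, nat_lit 160, nat_lit 276, nat_lit 160, nat_lit 364, ⟨nat_lit 41, nat_lit 380, nat_lit 579, nat_lit 6, nat_lit 209, nat_lit 959, nat_lit 167, nat_lit 578, nat_lit 13749, nat_lit 240, nat_lit 3101, nat_lit 225, nat_lit 44030197, nat_lit 13498857, nat_lit 9470946, nat_lit 4705667, false, false⟩,
 nat_lit 785, nat_lit 3728, nat_lit 0, nat_lit 0, nat_lit 3653, nat_lit 415, nat_lit 0, nat_lit 0, nat_lit 0, nat_lit 48, nat_lit 0, nat_lit 0, nat_lit 0, nat_lit 0, nat_lit 0, nat_lit 239750, nat_lit 0, nat_lit 0, [(nat_lit 22, [(nat_lit 0, nat_lit 380), (nat_lit 4, nat_lit 579)])],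
 ⟨p088_k8, nat_lit 0, nat_lit 0, nat_lit 155, nat_lit 0, nat_lit 246306, [nat_lit 1542556800, nat_lit 702332401, nat_lit 56918400], [], [nat_lit 19788103414, nat_lit 20966046900, nat_lit 20647969534, nat_lit 21753691556, nat_lit 23038553999, nat_lit 24041885234, nat_lit 23679669709, nat_lit 24642763224], nat_lit 1271250, nat_lit 1271250, nat_lit 1100001, nat_lit 1442500, nat_lit 1100001, nat_lit 2093250, [nat_lit 490000, nat_lit 1100000, nat_lit 1785000], [nat_lit 34, nat_lit 40, nat_lit 40, nat_lit 80, nat_lit 7, nat_lit 345, nat_lit 125, nat_lit 10]⟩, ⟨p088_k7, nat_lit 0, nat_lit 0, nat_lit 390, nat_lit 0, nat_lit 426950, [nat_lit 192208000, nat_lit 326688000, nat_lit 576378000], [], [nat_lit 1644602092, nat_lit 1425175822, nat_lit 1205749552, nat_lit 989626682, nat_lit 1161986578, nat_lit 1181764223, nat_lit 1148123749, nat_lit 1167806620], nat_lit 1271250, nat_lit 1271250, nat_lit 1100001, nat_lit 1442500,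 nat_lit 1271250, nat_lit 1271250, [nat_lit 1100000, nat_lit 1785000, nat_lit 1271250], [nat_lit 37, nat_lit 40, nat_lit 40, nat_lit 80, nat_lit 28, nat_lit 456, nat_lit 225, nat_lit 10]⟩,
 ⟨nat_lit 3162, nat_lit 3873, ⟨.ofNat (nat_lit 478975), .ofNat (nat_lit 543529), .ofNat (nat_lit 500739), .ofNat (nat_lit 565293), .ofNat (nat_lit 483267), .ofNat (nat_lit 544252), .ofNat (nat_lit 505392), .ofNat (nat_lit 566378)⟩, ⟨.ofNat (nat_lit 304717), .ofNat (nat_lit 491830), .ofNat (nat_lit 348304), .ofNat (nat_lit 535416), .ofNat (nat_lit 306116), .ofNat (nat_lit 482881), .ofNat (nat_lit 350426), .ofNat (nat_lit 527190)⟩⟩, [⟨nat_lit 16, nat_lit 67, nat_lit 100, nat_lit 88, nat_lit 242426425⟩, ⟨nat_lit 19, nat_lit 100, nat_lit 72, nat_lit 89, nat_lit 5700264⟩]⟩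
noncomputable def p088_l10 : Lf2 := ⟨nat_lit 0, nat_lit 20, [nat_lit 5, nat_lit 5, nat_lit 5, nat_lit 20], false, nat_lit 160, nat_lit 276, nat_lit 160, nat_lit 364, ⟨nat_lit 457, nat_lit 520, nat_lit 23, nat_lit 6, nat_lit 235, nat_lit 543, nat_lit 168, nat_lit 23, nat_lit 13749, nat_lit 240, nat_lit 7423, nat_lit 203, nat_lit 41988735, nat_lit 15763897, nat_lit 9247368, nat_lit 4875838, true, false⟩,
 nat_lit 8639, nat_lit 931, nat_lit 0, nat_lit 0, nat_lit 7747, nat_lit 4573, nat_lit 0, nat_lit 0, nat_lit 0, nat_lit 537, nat_lit 0, nat_lit 0, nat_lit 0, nat_lit 0, nat_lit 0, nat_lit 134255, nat_lit 0, nat_lit 0, [(nat_lit 22, [(nat_lit 0, nat_lit 520), (nat_lit 3, nat_lit 23)])],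
 ⟨p088_k8, nat_lit 0, nat_lit 0, nat_lit 128, nat_lit 0, nat_lit 186583, [nat_lit 1862811201, nat_lit 3161629200, nat_lit 5012954000], [], [nat_lit 22300787484, nat_lit 23186748860, nat_lit 23617290556, nat_lit 24428864268, nat_lit 25764390691, nat_lit 26452161384, nat_lit 26814667659, nat_lit 27696313857], nat_lit 1271250, nat_lit 1271250, nat_lit 1271250, nat_lit 1271250, nat_lit 1100001, nat_lit 2093250, [nat_lit 490000, nat_lit 1100000, nat_lit 1785000], [nat_lit 34, nat_lit 40, nat_lit 40, nat_lit 80, nat_lit 7, nat_lit 373, nat_lit 150, nat_lit 11]⟩, ⟨p088_k7, nat_lit 0, nat_lit 0, nat_lit 266, nat_lit 0, nat_lit 323426, [nat_lit 2142416000, nat_lit 3641376000, nat_lit 6424506000], [], [nat_lit 13415104056, nat_lit 11033586262, nat_lit 9675630960, nat_lit 10082750516, nat_lit 12795440862, nat_lit 12988468228, nat_lit 13089223680, nat_lit 13565419609], nat_lit 1271250, nat_lit 1271250, nat_lit 1271250, nat_lit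 1271250, nat_lit 1271250, nat_lit 1271250, [nat_lit 1100000, nat_lit 1785000, nat_lit 1271250], [nat_lit 37, nat_lit 40, nat_lit 40, nat_lit 80, nat_lit 28, nat_lit 456, nat_lit 225, nat_lit 10]⟩,
 ⟨nat_lit 3535, nat_lit 3873, ⟨.ofNat (nat_lit 543574), .ofNat (nat_lit 608101), .ofNat (nat_lit 565361), .ofNat (nat_lit 629888), .ofNat (nat_lit 543892), .ofNat (nat_lit 606659), .ofNat (nat_lit 565839), .ofNat (nat_lit 628606)⟩, ⟨.ofNat (nat_lit 304717), .ofNat (nat_lit 491830), .ofNat (nat_lit 348304), .ofNat (nat_lit 535416), .ofNat (nat_lit 305521), .ofNat (nat_lit 487529), .ofNat (nat_lit 349427), .ofNat (nat_lit 531435)⟩⟩, [⟨nat_lit 4, nat_lit 100, nat_lit 71, nat_lit 89, nat_lit 374028015⟩, ⟨nat_lit 7, nat_lit 72, nat_lit 100, nat_lit 89, nat_lit 114442026⟩]⟩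
noncomputable def p088_l11 : Lf2 := ⟨nat_lit 0, nat_lit 20, [nat_lit 5, nat_lit 5, nat_lit 5, nat_lit 20], false, nat_lit 160, nat_lit 264, nat_lit 160, nat_lit 364, ⟨nat_lit 288, nat_lit 135, nat_lit 577, nat_lit 6, nat_lit 234, nat_lit 712, nat_lit 163, nat_lit 577, nat_lit 25644, nat_lit 253, nat_lit 4817, nat_lit 203, nat_lit 42278948, nat_lit 15812418, nat_lit 8908634, nat_lit 4835092, true, false⟩,
 nat_lit 5290, nat_lit 541, nat_lit 0, nat_lit 0, nat_lit 4897, nat_lit 2800, nat_lit 0, nat_lit 0, nat_lit 0, nat_lit 316, nat_lit 0, nat_lit 0, nat_lit 0, nat_lit 0, nat_lit 0, nat_lit 165130, nat_lit 0, nat_lit 0, [(nat_lit 22, [(nat_lit 0, nat_lit 135), (nat_lit 3, nat_lit 198), (nat_lit 4, nat_lit 379)])],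
 ⟨p088_k9, nat_lit 0, nat_lit 0, nat_lit 146, nat_lit 0, nat_lit 235258, [nat_lit 2385008001, nat_lit 1411669601, nat_lit 1469949600], [], [nat_lit 21671627006, nat_lit 22332080036, nat_lit 22808914468, nat_lit 23434964580, nat_lit 24320490961, nat_lit 24910129844, nat_lit 25374999092, nat_lit 26071760074], nat_lit 1271250, nat_lit 1271250, nat_lit 1271250, nat_lit 1271250, nat_lit 1100001, nat_lit 1990500, [nat_lit 490000, nat_lit 1100000, nat_lit 1785000], [nat_lit 34, nat_lit 40, nat_lit 40, nat_lit 80, nat_lit 7, nat_lit 373, nat_lit 150, nat_lit 11]⟩, ⟨p088_k7, nat_lit 0, nat_lit 0, nat_lit 379, nat_lit 0, nat_lit 426950, [nat_lit 1350144000, nat_lit 2294784000, nat_lit 4048704000], [], [nat_lit 8415966656, nat_lit 6957788256, nat_lit 6738422192, nat_lit 6900498352, nat_lit 8315156804, nat_lit 8437024653, nat_lit 8386488845, nat_lit 8493211096], nat_lit 1271250, nat_lit 1271250, nat_lit 1271250, nat_lit 1271250,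 nat_lit 1271250, nat_lit 1271250, [nat_lit 1100000, nat_lit 1785000, nat_lit 1271250], [nat_lit 37, nat_lit 40, nat_lit 40, nat_lit 80, nat_lit 28, nat_lit 456, nat_lit 225, nat_lit 10]⟩,
 ⟨nat_lit 3162, nat_lit 3536, ⟨.ofNat (nat_lit 543888), .ofNat (nat_lit 606660), .ofNat (nat_lit 565832), .ofNat (nat_lit 628604), .ofNat (nat_lit 544293), .ofNat (nat_lit 605256), .ofNat (nat_lit 566439), .ofNat (nat_lit 627403)⟩, ⟨.ofNat (nat_lit 305521), .ofNat (nat_lit 468701), .ofNat (nat_lit 349427), .ofNat (nat_lit 512606), .ofNat (nat_lit 306116), .ofNat (nat_lit 464594), .ofNat (nat_lit 350426), .ofNat (nat_lit 508904)⟩⟩, [⟨nat_lit 16, nat_lit 69, nat_lit 100, nat_lit 96, nat_lit 295282464⟩, ⟨nat_lit 19, nat_lit 100, nat_lit 59, nat_lit 94, nat_lit 85626095⟩]⟩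
noncomputable def p088_l12 : Lf2 := ⟨nat_lit 0, nat_lit 20, [nat_lit 5, nat_lit 5, nat_lit 5, nat_lit 20], false, nat_lit 160, nat_lit 276, nat_lit 160, nat_lit 240, ⟨nat_lit 1000, nat_lit 0, nat_lit 0, nat_lit 0, nat_lit 0, nat_lit 0, nat_lit 0, nat_lit 0, nat_lit 0, nat_lit 0, nat_lit 0, nat_lit 0, nat_lit 0, nat_lit 0, nat_lit 0, nat_lit 0, false, false⟩,
 nat_lit 12048, nat_lit 0, nat_lit 0, nat_lit 0, nat_lit 8827, nat_lit 7013, nat_lit 182, nat_lit 0, nat_lit 0, nat_lit 888, nat_lit 0, nat_lit 0, nat_lit 0, nat_lit 0, nat_lit 0, nat_lit 0, nat_lit 0, nat_lit 0, [],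
 ⟨p088_k8, nat_lit 0, nat_lit 0, nat_lit 170, nat_lit 0, nat_lit 297666, [nat_lit 2032000001, nat_lit 4688000000, nat_lit 7968000000], [], [nat_lit 22065276680, nat_lit 24152313424, nat_lit 22822199244, nat_lit 24752251276, nat_lit 26052427718, nat_lit 27660145206, nat_lit 26369481931, nat_lit 28146360089], nat_lit 1271250, nat_lit 1271250, nat_lit 1100001, nat_lit 1442500, nat_lit 1100001, nat_lit 2093250, [nat_lit 490000, nat_lit 1100000, nat_lit 1785000], [nat_lit 34, nat_lit 40, nat_lit 40, nat_lit 80, nat_lit 7, nat_lit 345, nat_lit 125, nat_lit 10]⟩, ⟨p088_k10, nat_lit 0, nat_lit 0, nat_lit 339, nat_lit 0, nat_lit 454615, [nat_lit 4688000000, nat_lit 7968000000, nat_lit 11872000000], [], [nat_lit 31666662326, nat_lit 27958622732, nat_lit 26554315178, nat_lit 27128784788, nat_lit 27238224432, nat_lit 27753506500, nat_lit 27442069600, nat_lit 27910457860], nat_lit 1271250, nat_lit 1271250, nat_lit 1100001,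 nat_lit 1442500, nat_lit 1100001, nat_lit 1785000, [nat_lit 1100000, nat_lit 1785000, nat_lit 1271250], [nat_lit 21, nat_lit 40, nat_lit 40, nat_lit 80, nat_lit 14, nat_lit 428, nat_lit 200, nat_lit 10]⟩,
 zbF0, [⟨nat_lit 4, nat_lit 100, nat_lit 67, nat_lit 88, nat_lit 618957369⟩]⟩
noncomputable def p088_l13 : Lf2 := ⟨nat_lit 0, nat_lit 20, [nat_lit 5, nat_lit 5, nat_lit 5, nat_lit 20], false, nat_lit 160, nat_lit 276, nat_lit 240, nat_lit 352, ⟨nat_lit 220, nat_lit 0, nat_lit 780, nat_lit 6, nat_lit 216, nat_lit 780, nat_lit 168, nat_lit 780, nat_lit 13749, nat_lit 240, nat_lit 3505, nat_lit 221, nat_lit 43499983, nat_lit 0, nat_lit 0, nat_lit 4754609, false, false⟩,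
 nat_lit 4812, nat_lit 0, nat_lit 0, nat_lit 977, nat_lit 3895, nat_lit 2801, nat_lit 0, nat_lit 0, nat_lit 0, nat_lit 150, nat_lit 0, nat_lit 0, nat_lit 0, nat_lit 0, nat_lit 1, nat_lit 195000, nat_lit 0, nat_lit 0, [(nat_lit 22, [(nat_lit 4, nat_lit 780)])],
 ⟨p088_k8, nat_lit 0, nat_lit 0, nat_lit 141, nat_lit 0, nat_lit 213148, [nat_lit 1618176000, nat_lit 725688001, nat_lit 17488000], [], [nat_lit 19434093010, nat_lit 20052549020, nat_lit 20288644810, nat_lit 20885331100, nat_lit 22811607011, nat_lit 23350800693, nat_lit 23500896500, nat_lit 24153765544], nat_lit 1271250, nat_lit 1271250, nat_lit 1100001, nat_lit 1442500, nat_lit 1100001, nat_lit 2093250, [nat_lit 490000, nat_lit 1100000, nat_lit 1785000], [nat_lit 34, nat_lit 40, nat_lit 40, nat_lit 80, nat_lit 7, nat_lit 345, nat_lit 125, nat_lit 10]⟩, ⟨p088_k10, nat_lit 0, nat_lit 0, nat_lit 244, nat_lit 0, nat_lit 325532, [nat_lit 1031360000, nat_lit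 1752960000, nat_lit 2611840000], [], [nat_lit 4456551986, nat_lit 4592032776, nat_lit 4531544150, nat_lit 4653101554, nat_lit 6227243026, nat_lit 6313816688, nat_lit 6248946321, nat_lit 6407175633], nat_lit 1271250, nat_lit 1271250, nat_lit 1100001, nat_lit 1442500, nat_lit 1271250, nat_lit 1271250, [nat_lit 1100000, nat_lit 1785000, nat_lit 1271250], [nat_lit 21, nat_lit 40, nat_lit 40, nat_lit 80, nat_lit 14, nat_lit 456, nat_lit 225, nat_lit 11]⟩,
 ⟨nat_lit 3535, nat_lit 3873, ⟨.ofNat (nat_lit 500833), .ofNat (nat_lit 565361), .ofNat (nat_lit 511727), .ofNat (nat_lit 576255), .ofNat (nat_lit 503072), .ofNat (nat_lit 565839), .ofNat (nat_lit 514045), .ofNat (nat_lit 576812)⟩, ⟨.ofNat (nat_lit 304717), .ofNat (nat_lit 491830), .ofNat (nat_lit 348304), .ofNat (nat_lit 535416), .ofNat (nat_lit 305521), .ofNat (nat_lit 487529), .ofNat (nat_lit 349427), .ofNat (nat_lit 531435)⟩⟩, [⟨nat_lit 16, nat_lit 77, nat_lit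 100, nat_lit 99, nat_lit 267232392⟩, ⟨nat_lit 19, nat_lit 100, nat_lit 69, nat_lit 96, nat_lit 137494071⟩]⟩
noncomputable def p088_l14 : Lf2 := ⟨nat_lit 0, nat_lit 20, [nat_lit 5, nat_lit 5, nat_lit 5, nat_lit 20], false, nat_lit 160, nat_lit 264, nat_lit 240, nat_lit 352, ⟨nat_lit 198, nat_lit 0, nat_lit 802, nat_lit 6, nat_lit 216, nat_lit 802, nat_lit 163, nat_lit 802, nat_lit 25644, nat_lit 253, nat_lit 5054, nat_lit 221, nat_lit 43747486, nat_lit 0, nat_lit 0, nat_lit 4717738, false, false⟩,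
 nat_lit 4442, nat_lit 0, nat_lit 0, nat_lit 0, nat_lit 3731, nat_lit 2585, nat_lit 0, nat_lit 0, nat_lit 0, nat_lit 126, nat_lit 0, nat_lit 0, nat_lit 0, nat_lit 0, nat_lit 10, nat_lit 200500, nat_lit 0, nat_lit 0, [(nat_lit 22, [(nat_lit 4, nat_lit 802)])],
 ⟨p088_k9, nat_lit 0, nat_lit 0, nat_lit 157, nat_lit 0, nat_lit 258777, [nat_lit 1678278400, nat_lit 757479201, nat_lit 10765867], [], [nat_lit 20037005006, nat_lit 20631790167, nat_lit 20858498082, nat_lit 21416623079, nat_lit 22768425455, nat_lit 23371669232, nat_lit 23516431031, nat_lit 24173840954], nat_lit 1271250, nat_lit 1271250, nat_lit 1100001, nat_lit 1442500, nat_lit 1100001, nat_lit 1990500, [nat_lit 490000, nat_lit 1100000, nat_lit 1785000], [nat_lit 34, nat_lit 40, nat_lit 40, nat_lit 80, nat_lit 7, nat_lit 345, nat_lit 125, nat_lit 10]⟩, ⟨p088_k10, nat_lit 0, nat_lit 0, nat_lit 278, nat_lit 0, nat_lit 413779, [nat_lit 928224000, nat_lit 1577664000,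 nat_lit 2350656000], [], [nat_lit 4031093414, nat_lit 4154770286, nat_lit 4095686734, nat_lit 4206552698, nat_lit 5649893292, nat_lit 5722578260, nat_lit 5659196488, nat_lit 5803758911], nat_lit 1271250, nat_lit 1271250, nat_lit 1100001, nat_lit 1442500, nat_lit 1271250, nat_lit 1271250, [nat_lit 1100000, nat_lit 1785000, nat_lit 1271250], [nat_lit 21, nat_lit 40, nat_lit 40, nat_lit 80, nat_lit 14, nat_lit 456, nat_lit 225, nat_lit 11]⟩,
 ⟨nat_lit 3162, nat_lit 3536, ⟨.ofNat (nat_lit 503061), .ofNat (nat_lit 565832), .ofNat (nat_lit 514033), .ofNat (nat_lit 576805), .ofNat (nat_lit 505476), .ofNat (nat_lit 566439), .ofNat (nat_lit 516549), .ofNat (nat_lit 577513)⟩, ⟨.ofNat (nat_lit 305521), .ofNat (nat_lit 468701), .ofNat (nat_lit 349427), .ofNat (nat_lit 512606), .ofNat (nat_lit 306116), .ofNat (nat_lit 464594), .ofNat (nat_lit 350426), .ofNat (nat_lit 508904)⟩⟩, [⟨nat_lit 16, nat_lit 69, nat_lit 100, nat_lit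 96, nat_lit 278446641⟩, ⟨nat_lit 19, nat_lit 100, nat_lit 69, nat_lit 96, nat_lit 124892069⟩]⟩
noncomputable def p088_l15 : Lf2 := ⟨nat_lit 0, nat_lit 20, [nat_lit 5, nat_lit 5, nat_lit 5, nat_lit 20], false, nat_lit 160, nat_lit 276, nat_lit 240, nat_lit 344, ⟨nat_lit 1000, nat_lit 0, nat_lit 0, nat_lit 0, nat_lit 0, nat_lit 0, nat_lit 0, nat_lit 0, nat_lit 0, nat_lit 0, nat_lit 0, nat_lit 0, nat_lit 0, nat_lit 0, nat_lit 0, nat_lit 0, false, false⟩,
 nat_lit 13904, nat_lit 0, nat_lit 0, nat_lit 0, nat_lit 10402, nat_lit 8467, nat_lit 0, nat_lit 0, nat_lit 0, nat_lit 1137, nat_lit 0, nat_lit 0, nat_lit 0, nat_lit 0, nat_lit 0, nat_lit 0, nat_lit 0, nat_lit 0, [],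
 ⟨p088_k8, nat_lit 0, nat_lit 0, nat_lit 150, nat_lit 0, nat_lit 241836, [nat_lit 2032000001, nat_lit 4688000000, nat_lit 7968000000], [], [nat_lit 22468399680, nat_lit 23639234752, nat_lit 23188045144, nat_lit 24268373760, nat_lit 26641810060, nat_lit 27535644335, nat_lit 26857360406, nat_lit 28033728921], nat_lit 1271250, nat_lit 1271250, nat_lit 1100001, nat_lit 1442500, nat_lit 1100001, nat_lit 2093250, [nat_lit 490000, nat_lit 1100000, nat_lit 1785000], [nat_lit 34, nat_lit 40, nat_lit 40, nat_lit 80, nat_lit 7, nat_lit 345, nat_lit 125, nat_lit 10]⟩, ⟨p088_k11, nat_lit 0, nat_lit 0, nat_lit 251, nat_lit 0, nat_lit 347978, [nat_lit 4688000000, nat_lit 7968000000, nat_lit 11872000000], [], [nat_lit 19770229412, nat_lit 20270005482, nat_lit 20259358278, nat_lit 20714466426, nat_lit 25421597625, nat_lit 25753229039, nat_lit 25777199538, nat_lit 26375675382], nat_lit 1271250, nat_lit 1271250, nat_lit 1100001,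 nat_lit 1442500, nat_lit 1271250, nat_lit 1271250, [nat_lit 1100000, nat_lit 1785000, nat_lit 1271250], [nat_lit 21, nat_lit 40, nat_lit 40, nat_lit 80, nat_lit 14, nat_lit 456, nat_lit 225, nat_lit 11]⟩,
 zbF0, [⟨nat_lit 16, nat_lit 77, nat_lit 100, nat_lit 99, nat_lit 500755944⟩, ⟨nat_lit 19, nat_lit 100, nat_lit 74, nat_lit 98, nat_lit 523962750⟩]⟩
noncomputable def p088_l16 : Lf2 := ⟨nat_lit 0, nat_lit 20, [nat_lit 5, nat_lit 5, nat_lit 5, nat_lit 20], false, nat_lit 160, nat_lit 264, nat_lit 240, nat_lit 344, ⟨nat_lit 517, nat_lit 0, nat_lit 483, nat_lit 6, nat_lit 221, nat_lit 483, nat_lit 163, nat_lit 483, nat_lit 25644, nat_lit 253, nat_lit 96, nat_lit 216, nat_lit 43389909, nat_lit 0, nat_lit 0, nat_lit 4748213, false, false⟩,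
 nat_lit 7273, nat_lit 0, nat_lit 0, nat_lit 0, nat_lit 6109, nat_lit 4429, nat_lit 51, nat_lit 0, nat_lit 0, nat_lit 582, nat_lit 0, nat_lit 0, nat_lit 0, nat_lit 0, nat_lit 0, nat_lit 93840, nat_lit 0, nat_lit 0, [(nat_lit 22, [(nat_lit 3, nat_lit 414), (nat_lit 4, nat_lit 69)])],
 ⟨p088_k9, nat_lit 0, nat_lit 0, nat_lit 164, nat_lit 0, nat_lit 284315, [nat_lit 3292326400, nat_lit 2294390000, nat_lit 3263883600], [], [nat_lit 21381939596, nat_lit 22154156783, nat_lit 22134461160, nat_lit 22859890067, nat_lit 24308220290, nat_lit 24989030737, nat_lit 24817349698, nat_lit 25675466151], nat_lit 1271250, nat_lit 1271250, nat_lit 1100001, nat_lit 1442500, nat_lit 1100001, nat_lit 1990500, [nat_lit 490000, nat_lit 1100000, nat_lit 1785000], [nat_lit 34, nat_lit 40, nat_lit 40, nat_lit 80, nat_lit 7, nat_lit 345, nat_lit 125, nat_lit 10]⟩, ⟨p088_k11, nat_lit 0, nat_lit 0, nat_lit 322, nat_lit 0, nat_lit 428312, [nat_lit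 2423696000, nat_lit 4119456000, nat_lit 6137824000], [], [nat_lit 10390035244, nat_lit 10562186768, nat_lit 10481919468, nat_lit 10718388240, nat_lit 13170733823, nat_lit 13343269485, nat_lit 13353221334, nat_lit 13664487129], nat_lit 1271250, nat_lit 1271250, nat_lit 1100001, nat_lit 1442500, nat_lit 1271250, nat_lit 1271250, [nat_lit 1100000, nat_lit 1785000, nat_lit 1271250], [nat_lit 21, nat_lit 40, nat_lit 40, nat_lit 80, nat_lit 14, nat_lit 456, nat_lit 225, nat_lit 11]⟩,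
 ⟨nat_lit 3162, nat_lit 3536, ⟨.ofNat (nat_lit 514033), .ofNat (nat_lit 576805), .ofNat (nat_lit 525005), .ofNat (nat_lit 587777), .ofNat (nat_lit 516549), .ofNat (nat_lit 577513), .ofNat (nat_lit 527622), .ofNat (nat_lit 588586)⟩, ⟨.ofNat (nat_lit 305521), .ofNat (nat_lit 468701), .ofNat (nat_lit 349427), .ofNat (nat_lit 512606), .ofNat (nat_lit 306116), .ofNat (nat_lit 464594), .ofNat (nat_lit 350426), .ofNat (nat_lit 508904)⟩⟩, [⟨nat_lit 16, nat_lit 69, nat_lit 100, nat_lit 96, nat_lit 383802352⟩, ⟨nat_lit 19, nat_lit 100, nat_lit 74, nat_lit 98, nat_lit 268257540⟩]⟩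
noncomputable def p088_l17 : Lf2 := ⟨nat_lit 0, nat_lit 20, [nat_lit 5, nat_lit 5, nat_lit 5, nat_lit 20], false, nat_lit 160, nat_lit 276, nat_lit 160, nat_lit 352, ⟨nat_lit 567, nat_lit 433, nat_lit 0, nat_lit 6, nat_lit 243, nat_lit 433, nat_lit 167, nat_lit 0, nat_lit 0, nat_lit 0, nat_lit 0, nat_lit 0, nat_lit 41319920, nat_lit 16554464, nat_lit 9125616, nat_lit 4920828, true, false⟩,
 nat_lit 8402, nat_lit 0, nat_lit 0, nat_lit 0, nat_lit 6801, nat_lit 4890, nat_lit 184, nat_lit 0, nat_lit 0, nat_lit 619, nat_lit 0, nat_lit 0, nat_lit 0, nat_lit 0, nat_lit 0, nat_lit 108250, nat_lit 0, nat_lit 0, [(nat_lit 22, [(nat_lit 0, nat_lit 433)])],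
 ⟨p088_k8, nat_lit 0, nat_lit 0, nat_lit 165, nat_lit 0, nat_lit 297666, [nat_lit 1831088001, nat_lit 3511452401, nat_lit 5692325200], [], [nat_lit 22106929972, nat_lit 23740343188, nat_lit 23386561748, nat_lit 24886547540, nat_lit 25497236153, nat_lit 26775051198, nat_lit 26369510967, nat_lit 27921137876], nat_lit 1271250, nat_lit 1271250, nat_lit 1271250, nat_lit 1271250, nat_lit 1100001, nat_lit 2093250, [nat_lit 490000, nat_lit 1100000, nat_lit 1785000], [nat_lit 34, nat_lit 40, nat_lit 40, nat_lit 80, nat_lit 7, nat_lit 373, nat_lit 150, nat_lit 11]⟩, ⟨p088_k10, nat_lit 0, nat_lit 0, nat_lit 330, nat_lit 0, nat_lit 454615, [nat_lit 2658096000, nat_lit 4517856000, nat_lit 6731424000], [], [nat_lit 14572367964, nat_lit 12257963601, nat_lit 12314851461, nat_lit 12693200277, nat_lit 15205007794, nat_lit 15496609736, nat_lit 15598357465, nat_lit 16186493535], nat_lit 1271250, nat_lit 1271250, nat_lit 1271250,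 nat_lit 1271250, nat_lit 1271250, nat_lit 1271250, [nat_lit 1100000, nat_lit 1785000, nat_lit 1271250], [nat_lit 21, nat_lit 40, nat_lit 40, nat_lit 80, nat_lit 14, nat_lit 456, nat_lit 225, nat_lit 11]⟩,
 ⟨nat_lit 3162, nat_lit 3873, ⟨.ofNat (nat_lit 565293), .ofNat (nat_lit 629847), .ofNat (nat_lit 587058), .ofNat (nat_lit 651611), .ofNat (nat_lit 566378), .ofNat (nat_lit 627364), .ofNat (nat_lit 588504), .ofNat (nat_lit 649490)⟩, ⟨.ofNat (nat_lit 304717), .ofNat (nat_lit 491830), .ofNat (nat_lit 348304), .ofNat (nat_lit 535416), .ofNat (nat_lit 306116), .ofNat (nat_lit 482881), .ofNat (nat_lit 350426), .ofNat (nat_lit 527190)⟩⟩, [⟨nat_lit 4, nat_lit 100, nat_lit 67, nat_lit 88, nat_lit 429323197⟩, ⟨nat_lit 19, nat_lit 100, nat_lit 69, nat_lit 96, nat_lit 158650366⟩]⟩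
noncomputable def b_V_800_600_20_43 : St := ⟨true, nat_lit 1, nat_lit 1, nat_lit 1, nat_lit 120, nat_lit 320, nat_lit 360, nat_lit 240, nat_lit 280, nat_lit 160, nat_lit 240, nat_lit 80, nat_lit 120, nat_lit 160, nat_lit 300, nat_lit 0, nat_lit 364, nat_lit 40, nat_lit 80, nat_lit 0, nat_lit 0, nat_lit 0, nat_lit 0⟩
theorem d_V_800_600_20_43 (h : EB TB.env) : Dead b_V_800_600_20_43 := chkB_sound0 h (T :=
(.spl (nat_lit 0) (nat_lit 340)
(.spl (nat_lit 6) (nat_lit 60)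
(.spl (nat_lit 4) (nat_lit 240)
(.spl (nat_lit 1) (nat_lit 260)
(.leaf p088_l0)
(.trX (nat_lit 19) (nat_lit 100) (nat_lit 69) (nat_lit 96) (nat_lit 352) (.leaf p088_l1)))
(.spl (nat_lit 5) (nat_lit 160)
(.leaf p088_l2)
(.spl (nat_lit 1) (nat_lit 260)
(.leaf p088_l3)
(.trX (nat_lit 19) (nat_lit 100) (nat_lit 69) (nat_lit 96) (nat_lit 352) (.spl (nat_lit 1) (nat_lit 270)
(.leaf p088_l4)
(.trX (nat_lit 19) (nat_lit 100) (nat_lit 74) (nat_lit 98) (nat_lit 344) (.leaf p088_l5)))))))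
(.spl (nat_lit 3) (nat_lit 100)
(.trX (nat_lit 16) (nat_lit 87) (nat_lit 100) (nat_lit 94) (nat_lit 280) (.trX (nat_lit 19) (nat_lit 100) (nat_lit 68) (nat_lit 88) (nat_lit 352) (.leaf p088_l6)))
(.leaf p088_l7)))
(.trX (nat_lit 16) (nat_lit 77) (nat_lit 100) (nat_lit 99) (nat_lit 276) (.spl (nat_lit 5) (nat_lit 160)
(.leaf p088_l8)
(.spl (nat_lit 1) (nat_lit 260)
(.spl (nat_lit 2) (nat_lit 200)
(.leaf p088_l9)
(.spl (nat_lit 0) (nat_lit 350)
(.leaf p088_l10)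
(.trX (nat_lit 16) (nat_lit 69) (nat_lit 100) (nat_lit 96) (nat_lit 264) (.leaf p088_l11))))
(.trX (nat_lit 19) (nat_lit 100) (nat_lit 69) (nat_lit 96) (nat_lit 352) (.spl (nat_lit 2) (nat_lit 200)
(.spl (nat_lit 5) (nat_lit 240)
(.leaf p088_l12)
(.spl (nat_lit 1) (nat_lit 270)
(.spl (nat_lit 0) (nat_lit 350)
(.leaf p088_l13)
(.trX (nat_lit 16) (nat_lit 69) (nat_lit 100) (nat_lit 96) (nat_lit 264) (.leaf p088_l14)))
(.trX (nat_lit 19) (nat_lit 100) (nat_lit 74) (nat_lit 98) (nat_lit 344) (.spl (nat_lit 0) (nat_lit 350)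
(.leaf p088_l15)
(.trX (nat_lit 16) (nat_lit 69) (nat_lit 100) (nat_lit 96) (nat_lit 264) (.leaf p088_l16))))))
(.leaf p088_l17)))))))) (by decide +kernel)
noncomputable def p088_l18 : Lf2 := ⟨nat_lit 0, nat_lit 20, [nat_lit 5, nat_lit 5, nat_lit 5, nat_lit 20], false, nat_lit 0, nat_lit 160, nat_lit 0, nat_lit 160, ⟨nat_lit 1000, nat_lit 0, nat_lit 0, nat_lit 0, nat_lit 0, nat_lit 0, nat_lit 0, nat_lit 0, nat_lit 0, nat_lit 0, nat_lit 0, nat_lit 0, nat_lit 0, nat_lit 0, nat_lit 0, nat_lit 0, false, false⟩,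
 nat_lit 7569, nat_lit 0, nat_lit 7268, nat_lit 0, nat_lit 5676, nat_lit 7854, nat_lit 748, nat_lit 0, nat_lit 0, nat_lit 1065, nat_lit 0, nat_lit 0, nat_lit 0, nat_lit 0, nat_lit 0, nat_lit 0, nat_lit 0, nat_lit 0, [],
 ⟨p088_k6, nat_lit 0, nat_lit 0, nat_lit 343, nat_lit 0, nat_lit 327596, [nat_lit 2032000001, nat_lit 4688000000, nat_lit 9842000000], [], [nat_lit 29080739372, nat_lit 31168781788, nat_lit 36774986391, nat_lit 39455700120, nat_lit 26317259276, nat_lit 28078883788, nat_lit 32583123994, nat_lit 34068698666], nat_lit 1271250, nat_lit 1271250, nat_lit 1271250, nat_lit 1271250, nat_lit 0, nat_lit 1100001, [nat_lit 490000, nat_lit 1100000, nat_lit 2127500], [nat_lit 27, nat_lit 40, nat_lit 40, nat_lit 80, nat_lit 13, nat_lit 373, nat_lit 150, nat_lit 10]⟩, ⟨p088_k7, nat_lit 0, nat_lit 0, nat_lit 563, nat_lit 0, nat_lit 515980, [nat_lit 4688000000, nat_lit 7968000000, nat_lit 14058000000], [], [nat_lit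 35616043404, nat_lit 36475153772, nat_lit 42146998064, nat_lit 42836210428, nat_lit 30895251296, nat_lit 31788891744, nat_lit 36337994910, nat_lit 36877005118], nat_lit 1271250, nat_lit 1271250, nat_lit 1271250, nat_lit 1271250, nat_lit 0, nat_lit 1100001, [nat_lit 1100000, nat_lit 1785000, nat_lit 1271250], [nat_lit 37, nat_lit 40, nat_lit 40, nat_lit 80, nat_lit 28, nat_lit 456, nat_lit 225, nat_lit 10]⟩,
 zbF0, []⟩
noncomputable def p088_l19 : Lf2 := ⟨nat_lit 0, nat_lit 20, [nat_lit 5, nat_lit 5, nat_lit 5, nat_lit 20], false, nat_lit 0, nat_lit 160, nat_lit 160, nat_lit 364, ⟨nat_lit 1000, nat_lit 0, nat_lit 0, nat_lit 0, nat_lit 0, nat_lit 0, nat_lit 0, nat_lit 0, nat_lit 0, nat_lit 0, nat_lit 0, nat_lit 0, nat_lit 0, nat_lit 0, nat_lit 0, nat_lit 0, false, false⟩,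
 nat_lit 15381, nat_lit 0, nat_lit 0, nat_lit 0, nat_lit 7218, nat_lit 8142, nat_lit 769, nat_lit 0, nat_lit 0, nat_lit 907, nat_lit 0, nat_lit 0, nat_lit 0, nat_lit 0, nat_lit 0, nat_lit 0, nat_lit 0, nat_lit 0, [],
 ⟨p088_k6, nat_lit 0, nat_lit 0, nat_lit 309, nat_lit 0, nat_lit 206153, [nat_lit 2032000001, nat_lit 4688000000, nat_lit 9842000000], [], [nat_lit 27020964629, nat_lit 28803073892, nat_lit 41026388948, nat_lit 42554021404, nat_lit 21884520893, nat_lit 22869350301, nat_lit 32594936252, nat_lit 33926949543], nat_lit 1271250, nat_lit 1271250, nat_lit 1271250, nat_lit 1271250, nat_lit 0, nat_lit 1100001, [nat_lit 490000, nat_lit 1100000, nat_lit 2127500], [nat_lit 27, nat_lit 40, nat_lit 40, nat_lit 80, nat_lit 13, nat_lit 373, nat_lit 150, nat_lit 10]⟩, ⟨p088_k7, nat_lit 0, nat_lit 0, nat_lit 285, nat_lit 0, nat_lit 324701, [nat_lit 4688000000, nat_lit 7968000000, nat_lit 14058000000], [], [nat_lit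 28064188684, nat_lit 29153928700, nat_lit 33981513375, nat_lit 34442792721, nat_lit 32396711432, nat_lit 32825272024, nat_lit 37238402482, nat_lit 38110581424], nat_lit 1271250, nat_lit 1271250, nat_lit 1271250, nat_lit 1271250, nat_lit 1100001, nat_lit 2846750, [nat_lit 1100000, nat_lit 1785000, nat_lit 1271250], [nat_lit 37, nat_lit 40, nat_lit 40, nat_lit 80, nat_lit 28, nat_lit 538, nat_lit 300, nat_lit 12]⟩,
 zbF0, [⟨nat_lit 7, nat_lit 77, nat_lit 100, nat_lit 91, nat_lit 254578780⟩, ⟨nat_lit 22, nat_lit 85, nat_lit 100, nat_lit 85, nat_lit 129468508⟩]⟩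
noncomputable def p088_l20 : Lf2 := ⟨nat_lit 0, nat_lit 20, [nat_lit 5, nat_lit 5, nat_lit 5, nat_lit 20], false, nat_lit 0, nat_lit 160, nat_lit 160, nat_lit 364, ⟨nat_lit 1000, nat_lit 0, nat_lit 0, nat_lit 0, nat_lit 0, nat_lit 0, nat_lit 0, nat_lit 0, nat_lit 0, nat_lit 0, nat_lit 0, nat_lit 0, nat_lit 0, nat_lit 0, nat_lit 0, nat_lit 0, false, false⟩,
 nat_lit 13188, nat_lit 0, nat_lit 0, nat_lit 0, nat_lit 5435, nat_lit 6981, nat_lit 732, nat_lit 0, nat_lit 0, nat_lit 901, nat_lit 0, nat_lit 0, nat_lit 0, nat_lit 0, nat_lit 0, nat_lit 0, nat_lit 0, nat_lit 0, [],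
 ⟨p088_k8, nat_lit 0, nat_lit 0, nat_lit 300, nat_lit 0, nat_lit 297666, [nat_lit 2032000001, nat_lit 4688000000, nat_lit 7968000000], [], [nat_lit 25730262390, nat_lit 27882235980, nat_lit 36725810781, nat_lit 38079488010, nat_lit 22297983910, nat_lit 23239307100, nat_lit 30956458884, nat_lit 32142078179], nat_lit 1271250, nat_lit 1271250, nat_lit 1271250, nat_lit 1271250, nat_lit 0, nat_lit 1100001, [nat_lit 490000, nat_lit 1100000, nat_lit 1785000], [nat_lit 34, nat_lit 40, nat_lit 40, nat_lit 80, nat_lit 7, nat_lit 249, nat_lit 40, nat_lit 7]⟩, ⟨p088_k7, nat_lit 0, nat_lit 0, nat_lit 408, nat_lit 0, nat_lit 515980, [nat_lit 4688000000, nat_lit 7968000000, nat_lit 14058000000], [], [nat_lit 30440616844, nat_lit 31309137660, nat_lit 35394671028, nat_lit 35934046308, nat_lit 34496227826, nat_lit 34975705698, nat_lit 38474989429, nat_lit 38863803791], nat_lit 1271250, nat_lit 1271250, nat_lit 1271250, nat_lit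 1271250, nat_lit 1100001, nat_lit 2846750, [nat_lit 1100000, nat_lit 1785000, nat_lit 1271250], [nat_lit 37, nat_lit 40, nat_lit 40, nat_lit 80, nat_lit 28, nat_lit 538, nat_lit 300, nat_lit 12]⟩,
 zbF0, [⟨nat_lit 7, nat_lit 77, nat_lit 100, nat_lit 91, nat_lit 312993756⟩, ⟨nat_lit 22, nat_lit 87, nat_lit 100, nat_lit 84, nat_lit 30523722⟩]⟩
noncomputable def p088_l21 : Lf2 := ⟨nat_lit 0, nat_lit 18, [nat_lit 100, nat_lit 5, nat_lit 5, nat_lit 20], false, nat_lit 160, nat_lit 300, nat_lit 0, nat_lit 364, ⟨nat_lit 1000, nat_lit 0, nat_lit 0, nat_lit 0, nat_lit 0, nat_lit 0, nat_lit 0, nat_lit 0, nat_lit 0, nat_lit 0, nat_lit 0, nat_lit 0, nat_lit 0, nat_lit 0, nat_lit 0, nat_lit 0, false, false⟩,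
 nat_lit 16195, nat_lit 0, nat_lit 0, nat_lit 9233, nat_lit 5763, nat_lit 8573, nat_lit 762, nat_lit 0, nat_lit 0, nat_lit 931, nat_lit 0, nat_lit 0, nat_lit 0, nat_lit 0, nat_lit 0, nat_lit 0, nat_lit 0, nat_lit 0, [],
 ⟨p088_k12, nat_lit 0, nat_lit 0, nat_lit 149, nat_lit 0, nat_lit 80703, [nat_lit 2032000001, nat_lit 4688000000, nat_lit 9842000000], [], [nat_lit 22636538598, nat_lit 23258540363, nat_lit 30480402093, nat_lit 31081670257, nat_lit 26297517333, nat_lit 26762964845, nat_lit 33451194926, nat_lit 33899476317], nat_lit 1271250, nat_lit 1271250, nat_lit 1271250, nat_lit 1271250, nat_lit 1100001, nat_lit 2298750, [nat_lit 490000, nat_lit 1100000, nat_lit 2127500], [nat_lit 27, nat_lit 40, nat_lit 40, nat_lit 80, nat_lit 13, nat_lit 401, nat_lit 175, nat_lit 10]⟩, ⟨p088_k13, nat_lit 0, nat_lit 0, nat_lit 378, nat_lit 0, nat_lit 126819, [nat_lit 4688000000, nat_lit 7968000000, nat_lit 14058000000], [],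 [nat_lit 33708322240, nat_lit 34381417844, nat_lit 41797001080, nat_lit 42260097437, nat_lit 33169254557, nat_lit 31607746212, nat_lit 37473150357, nat_lit 37921724375], nat_lit 1271250, nat_lit 1271250, nat_lit 1271250, nat_lit 1271250, nat_lit 0, nat_lit 2570750, [nat_lit 1100000, nat_lit 1785000, nat_lit 1271250], [nat_lit 37, nat_lit 40, nat_lit 40, nat_lit 80, nat_lit 28, nat_lit 538, nat_lit 300, nat_lit 12]⟩,
 zbF0, [⟨nat_lit 16, nat_lit 84, nat_lit 100, nat_lit 93, nat_lit 409959153⟩, ⟨nat_lit 7, nat_lit 72, nat_lit 100, nat_lit 89, nat_lit 153472926⟩]⟩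
noncomputable def p088_l22 : Lf2 := ⟨nat_lit 0, nat_lit 18, [nat_lit 100, nat_lit 5, nat_lit 5, nat_lit 20], false, nat_lit 160, nat_lit 288, nat_lit 0, nat_lit 364, ⟨nat_lit 1000, nat_lit 0, nat_lit 0, nat_lit 0, nat_lit 0, nat_lit 0, nat_lit 0, nat_lit 0, nat_lit 0, nat_lit 0, nat_lit 0, nat_lit 0, nat_lit 0, nat_lit 0, nat_lit 0, nat_lit 0, false, false⟩,
 nat_lit 16195, nat_lit 0, nat_lit 0, nat_lit 0, nat_lit 7320, nat_lit 8573, nat_lit 403, nat_lit 0, nat_lit 0, nat_lit 754, nat_lit 0, nat_lit 0, nat_lit 0, nat_lit 0, nat_lit 0, nat_lit 0, nat_lit 0, nat_lit 0, [],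
 ⟨p088_k14, nat_lit 0, nat_lit 0, nat_lit 143, nat_lit 0, nat_lit 135492, [nat_lit 2032000001, nat_lit 4688000000, nat_lit 7968000000], [], [nat_lit 22998856890, nat_lit 23782634610, nat_lit 32279004232, nat_lit 32983155984, nat_lit 26664320322, nat_lit 27256550626, nat_lit 34743306274, nat_lit 35273608368], nat_lit 1271250, nat_lit 1271250, nat_lit 1271250, nat_lit 1271250, nat_lit 1100001, nat_lit 2196000, [nat_lit 490000, nat_lit 1100000, nat_lit 1785000], [nat_lit 34, nat_lit 40, nat_lit 40, nat_lit 80, nat_lit 7, nat_lit 289, nat_lit 75, nat_lit 8]⟩, ⟨p088_k13, nat_lit 0, nat_lit 0, nat_lit 408, nat_lit 0, nat_lit 223469, [nat_lit 4688000000, nat_lit 7968000000, nat_lit 14058000000], [], [nat_lit 35476109740, nat_lit 36149205344, nat_lit 42924392175, nat_lit 43416683791, nat_lit 33169254557, nat_lit 33372467200, nat_lit 37221425887, nat_lit 37324179351], nat_lit 1271250, nat_lit 1271250, nat_lit 1271250,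 nat_lit 1271250, nat_lit 0, nat_lit 2570750, [nat_lit 1100000, nat_lit 1785000, nat_lit 1271250], [nat_lit 37, nat_lit 40, nat_lit 40, nat_lit 80, nat_lit 28, nat_lit 538, nat_lit 300, nat_lit 12]⟩,
 zbF0, [⟨nat_lit 4, nat_lit 100, nat_lit 77, nat_lit 91, nat_lit 475224361⟩, ⟨nat_lit 7, nat_lit 72, nat_lit 100, nat_lit 89, nat_lit 126428743⟩]⟩
noncomputable def p088_l23 : Lf2 := ⟨nat_lit 1, nat_lit 20, [nat_lit 5, nat_lit 5, nat_lit 5, nat_lit 20], false, nat_lit 160, nat_lit 300, nat_lit 0, nat_lit 364, zbN0,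
 nat_lit 0, nat_lit 0, nat_lit 0, nat_lit 0, nat_lit 0, nat_lit 0, nat_lit 0, nat_lit 0, nat_lit 0, nat_lit 0, nat_lit 0, nat_lit 0, nat_lit 0, nat_lit 0, nat_lit 0, nat_lit 0, nat_lit 0, nat_lit 0, [],
 C1.Rw.none, C1.Rw.none,
 zbF0, []⟩
noncomputable def p088_l24 : Lf2 := ⟨nat_lit 0, nat_lit 20, [nat_lit 5, nat_lit 5, nat_lit 5, nat_lit 20], false, nat_lit 160, nat_lit 300, nat_lit 0, nat_lit 352, ⟨nat_lit 1000, nat_lit 0, nat_lit 0, nat_lit 0, nat_lit 0, nat_lit 0, nat_lit 0, nat_lit 0, nat_lit 0, nat_lit 0, nat_lit 0, nat_lit 0, nat_lit 0, nat_lit 0, nat_lit 0, nat_lit 0, false, false⟩,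
 nat_lit 14321, nat_lit 0, nat_lit 0, nat_lit 973, nat_lit 6435, nat_lit 8335, nat_lit 706, nat_lit 0, nat_lit 0, nat_lit 542, nat_lit 0, nat_lit 0, nat_lit 0, nat_lit 0, nat_lit 0, nat_lit 0, nat_lit 0, nat_lit 0, [],
 ⟨p088_k6, nat_lit 0, nat_lit 0, nat_lit 186, nat_lit 0, nat_lit 206153, [nat_lit 2032000001, nat_lit 4688000000, nat_lit 9842000000], [], [nat_lit 23452307070, nat_lit 24563543800, nat_lit 31634184290, nat_lit 32886830509, nat_lit 26531028215, nat_lit 27364937618, nat_lit 34471184927, nat_lit 35395248966], nat_lit 1271250, nat_lit 1271250, nat_lit 1271250, nat_lit 1271250, nat_lit 1100001, nat_lit 2298750, [nat_lit 490000, nat_lit 1100000, nat_lit 2127500], [nat_lit 27, nat_lit 40, nat_lit 40, nat_lit 80, nat_lit 13, nat_lit 401, nat_lit 175, nat_lit 10]⟩, ⟨p088_k10, nat_lit 0, nat_lit 0, nat_lit 383, nat_lit 0, nat_lit 286084, [nat_lit 4688000000, nat_lit 7968000000, nat_lit 11872000000], [],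 [nat_lit 33647200800, nat_lit 34453925370, nat_lit 42686905743, nat_lit 43258711500, nat_lit 32037517258, nat_lit 32345157246, nat_lit 37289551980, nat_lit 37645331440], nat_lit 1271250, nat_lit 1271250, nat_lit 1271250, nat_lit 1271250, nat_lit 0, nat_lit 2486000, [nat_lit 1100000, nat_lit 1785000, nat_lit 1271250], [nat_lit 21, nat_lit 40, nat_lit 40, nat_lit 80, nat_lit 14, nat_lit 538, nat_lit 300, nat_lit 13]⟩,
 zbF0, [⟨nat_lit 4, nat_lit 100, nat_lit 81, nat_lit 92, nat_lit 414935464⟩, ⟨nat_lit 7, nat_lit 82, nat_lit 100, nat_lit 92, nat_lit 123459475⟩]⟩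
noncomputable def p088_l25 : Lf2 := ⟨nat_lit 0, nat_lit 15, [nat_lit 30, nat_lit 5, nat_lit 5, nat_lit 20], false, nat_lit 160, nat_lit 276, nat_lit 0, nat_lit 364, ⟨nat_lit 465, nat_lit 535, nat_lit 0, nat_lit 6, nat_lit 272, nat_lit 535, nat_lit 167, nat_lit 0, nat_lit 0, nat_lit 0, nat_lit 0, nat_lit 0, nat_lit 39045459, nat_lit 19158848, nat_lit 8795693, nat_lit 5049031, true, true⟩,
 nat_lit 7964, nat_lit 0, nat_lit 0, nat_lit 0, nat_lit 3842, nat_lit 4216, nat_lit 427, nat_lit 0, nat_lit 0, nat_lit 374, nat_lit 0, nat_lit 0, nat_lit 0, nat_lit 0, nat_lit 0, nat_lit 214000, nat_lit 0, nat_lit 0, [(nat_lit 22, [(nat_lit 1, nat_lit 535)])],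
 ⟨p088_k15, nat_lit 0, nat_lit 0, nat_lit 160, nat_lit 0, nat_lit 241103, [nat_lit 1671624001, nat_lit 3011738001, nat_lit 4451338000], [], [nat_lit 22271557657, nat_lit 23324036073, nat_lit 25227249060, nat_lit 26163490424, nat_lit 25102317197, nat_lit 26008270513, nat_lit 27846802159, nat_lit 28848672023], nat_lit 1271250, nat_lit 1271250, nat_lit 1271250, nat_lit 1271250, nat_lit 1100001, nat_lit 2093250, [nat_lit 490000, nat_lit 1100000, nat_lit 1785000], [nat_lit 34, nat_lit 40, nat_lit 40, nat_lit 80, nat_lit 7, nat_lit 289, nat_lit 75, nat_lit 8]⟩, ⟨p088_k1, nat_lit 0, nat_lit 0, nat_lit 417, nat_lit 0, nat_lit 414985, [nat_lit 2179920000, nat_lit 3705120000, nat_lit 5520480000], [], [nat_lit 14923625968, nat_lit 15310981260, nat_lit 16665452852, nat_lit 16945841838, nat_lit 15167726451, nat_lit 14496116714, nat_lit 15328245396, nat_lit 15469711056], nat_lit 1271250, nat_lit 1271250, nat_lit 1271250, nat_lit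 1271250, nat_lit 0, nat_lit 2570750, [nat_lit 1100000, nat_lit 1785000, nat_lit 1271250], [nat_lit 21, nat_lit 40, nat_lit 40, nat_lit 80, nat_lit 14, nat_lit 483, nat_lit 250, nat_lit 12]⟩,
 ⟨nat_lit 3162, nat_lit 3873, ⟨.ofNat (nat_lit 608082), .ofNat (nat_lit 737150), .ofNat (nat_lit 629847), .ofNat (nat_lit 758943), .ofNat (nat_lit 605237), .ofNat (nat_lit 727168), .ofNat (nat_lit 627364), .ofNat (nat_lit 749323)⟩, ⟨.ofNat (nat_lit 304717), .ofNat (nat_lit 491830), .ofNat (nat_lit 348304), .ofNat (nat_lit 535416), .ofNat (nat_lit 306116), .ofNat (nat_lit 482881), .ofNat (nat_lit 350426), .ofNat (nat_lit 527190)⟩⟩, [⟨nat_lit 4, nat_lit 100, nat_lit 67, nat_lit 88, nat_lit 370409934⟩, ⟨nat_lit 19, nat_lit 100, nat_lit 59, nat_lit 94, nat_lit 75464561⟩]⟩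
noncomputable def p088_l26 : Lf2 := ⟨nat_lit 0, nat_lit 20, [nat_lit 5, nat_lit 5, nat_lit 5, nat_lit 20], false, nat_lit 160, nat_lit 276, nat_lit 0, nat_lit 364, ⟨nat_lit 589, nat_lit 411, nat_lit 0, nat_lit 6, nat_lit 272, nat_lit 411, nat_lit 167, nat_lit 0, nat_lit 0, nat_lit 0, nat_lit 0, nat_lit 0, nat_lit 39045459, nat_lit 19158848, nat_lit 8795693, nat_lit 5049031, true, true⟩,
 nat_lit 9925, nat_lit 0, nat_lit 0, nat_lit 0, nat_lit 7716, nat_lit 5254, nat_lit 0, nat_lit 0, nat_lit 0, nat_lit 484, nat_lit 0, nat_lit 0, nat_lit 0, nat_lit 0, nat_lit 0, nat_lit 102750, nat_lit 0, nat_lit 0, [(nat_lit 22, [(nat_lit 0, nat_lit 411)])],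
 ⟨p088_k8, nat_lit 0, nat_lit 0, nat_lit 135, nat_lit 0, nat_lit 153148, [nat_lit 1841296000, nat_lit 3571230801, nat_lit 5807948400], [], [nat_lit 24435220368, nat_lit 26054331840, nat_lit 28340224280, nat_lit 29650057904, nat_lit 27445745948, nat_lit 28704009735, nat_lit 30928543203, nat_lit 32338336357], nat_lit 1271250, nat_lit 1271250, nat_lit 1271250, nat_lit 1271250, nat_lit 1100001, nat_lit 2093250, [nat_lit 490000, nat_lit 1100000, nat_lit 1785000], [nat_lit 34, nat_lit 40, nat_lit 40, nat_lit 80, nat_lit 7, nat_lit 289, nat_lit 75, nat_lit 8]⟩, ⟨p088_k7, nat_lit 0, nat_lit 0, nat_lit 417, nat_lit 0, nat_lit 265470, [nat_lit 2761232000, nat_lit 4693152000, nat_lit 8280162000], [], [nat_lit 20358616492, nat_lit 20759517334, nat_lit 22230783036, nat_lit 22661828916, nat_lit 19308649516, nat_lit 19174083560, nat_lit 20033058979, nat_lit 20161834325], nat_lit 1271250, nat_lit 1271250, nat_lit 1271250, nat_lit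 1271250, nat_lit 0, nat_lit 2570750, [nat_lit 1100000, nat_lit 1785000, nat_lit 1271250], [nat_lit 37, nat_lit 40, nat_lit 40, nat_lit 80, nat_lit 28, nat_lit 483, nat_lit 250, nat_lit 11]⟩,
 ⟨nat_lit 3162, nat_lit 3873, ⟨.ofNat (nat_lit 608082), .ofNat (nat_lit 737150), .ofNat (nat_lit 629847), .ofNat (nat_lit 758943), .ofNat (nat_lit 605237), .ofNat (nat_lit 727168), .ofNat (nat_lit 627364), .ofNat (nat_lit 749323)⟩, ⟨.ofNat (nat_lit 304717), .ofNat (nat_lit 491830), .ofNat (nat_lit 348304), .ofNat (nat_lit 535416), .ofNat (nat_lit 306116), .ofNat (nat_lit 482881), .ofNat (nat_lit 350426), .ofNat (nat_lit 527190)⟩⟩, [⟨nat_lit 16, nat_lit 67, nat_lit 100, nat_lit 88, nat_lit 407086301⟩, ⟨nat_lit 7, nat_lit 72, nat_lit 100, nat_lit 89, nat_lit 91413865⟩]⟩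
noncomputable def p088_l27 : Lf2 := ⟨nat_lit 0, nat_lit 20, [nat_lit 5, nat_lit 5, nat_lit 5, nat_lit 20], false, nat_lit 160, nat_lit 256, nat_lit 16, nat_lit 352, ⟨nat_lit 1000, nat_lit 0, nat_lit 0, nat_lit 0, nat_lit 0, nat_lit 0, nat_lit 0, nat_lit 0, nat_lit 0, nat_lit 0, nat_lit 0, nat_lit 0, nat_lit 0, nat_lit 0, nat_lit 0, nat_lit 0, false, false⟩,
 nat_lit 15172, nat_lit 0, nat_lit 0, nat_lit 0, nat_lit 4605, nat_lit 8032, nat_lit 666, nat_lit 0, nat_lit 0, nat_lit 861, nat_lit 0, nat_lit 0, nat_lit 0, nat_lit 0, nat_lit 0, nat_lit 0, nat_lit 0, nat_lit 0, [],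
 ⟨p088_k8, nat_lit 0, nat_lit 0, nat_lit 174, nat_lit 0, nat_lit 235774, [nat_lit 2032000001, nat_lit 4688000000, nat_lit 7968000000], [], [nat_lit 26902524731, nat_lit 27719349791, nat_lit 29396015795, nat_lit 30482755090, nat_lit 28303324003, nat_lit 29036130002, nat_lit 31016158124, nat_lit 31964415068], nat_lit 1271250, nat_lit 1271250, nat_lit 1271250, nat_lit 1271250, nat_lit 1100001, nat_lit 1922000, [nat_lit 490000, nat_lit 1100000, nat_lit 1785000], [nat_lit 34, nat_lit 40, nat_lit 40, nat_lit 80, nat_lit 7, nat_lit 289, nat_lit 75, nat_lit 8]⟩, ⟨p088_k7, nat_lit 0, nat_lit 0, nat_lit 455, nat_lit 0, nat_lit 405814, [nat_lit 4688000000, nat_lit 7968000000, nat_lit 14058000000], [], [nat_lit 36793092126, nat_lit 37267401627, nat_lit 39882808350, nat_lit 40211790036, nat_lit 33823413329, nat_lit 33958787633, nat_lit 35940494055, nat_lit 36141436968], nat_lit 1271250, nat_lit 1271250, nat_lit 1271250, nat_lit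 1271250, nat_lit 88400, nat_lit 2511800, [nat_lit 1100000, nat_lit 1785000, nat_lit 1271250], [nat_lit 37, nat_lit 40, nat_lit 40, nat_lit 80, nat_lit 28, nat_lit 483, nat_lit 250, nat_lit 11]⟩,
 zbF0, [⟨nat_lit 16, nat_lit 67, nat_lit 100, nat_lit 84, nat_lit 508283736⟩, ⟨nat_lit 7, nat_lit 77, nat_lit 100, nat_lit 86, nat_lit 158913111⟩]⟩
noncomputable def p088_l28 : Lf2 := ⟨nat_lit 0, nat_lit 20, [nat_lit 5, nat_lit 5, nat_lit 5, nat_lit 20], false, nat_lit 160, nat_lit 276, nat_lit 16, nat_lit 364, ⟨nat_lit 1000, nat_lit 0, nat_lit 0, nat_lit 0, nat_lit 0, nat_lit 0, nat_lit 0, nat_lit 0, nat_lit 0, nat_lit 0, nat_lit 0, nat_lit 0, nat_lit 0, nat_lit 0, nat_lit 0, nat_lit 0, false, false⟩,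
 nat_lit 15417, nat_lit 0, nat_lit 0, nat_lit 0, nat_lit 4242, nat_lit 8161, nat_lit 679, nat_lit 0, nat_lit 0, nat_lit 848, nat_lit 0, nat_lit 0, nat_lit 0, nat_lit 0, nat_lit 0, nat_lit 0, nat_lit 0, nat_lit 0, [],
 ⟨p088_k8, nat_lit 0, nat_lit 0, nat_lit 158, nat_lit 0, nat_lit 177471, [nat_lit 2032000001, nat_lit 4688000000, nat_lit 7968000000], [], [nat_lit 26334483060, nat_lit 27309141224, nat_lit 29188802436, nat_lit 30017243948, nat_lit 28596688573, nat_lit 29390793133, nat_lit 31217752486, nat_lit 32097158252], nat_lit 1271250, nat_lit 1271250, nat_lit 1271250, nat_lit 1271250, nat_lit 1100001, nat_lit 2093250, [nat_lit 490000, nat_lit 1100000, nat_lit 1785000], [nat_lit 34, nat_lit 40, nat_lit 40, nat_lit 80, nat_lit 7, nat_lit 289, nat_lit 75, nat_lit 8]⟩, ⟨p088_k7, nat_lit 0, nat_lit 0, nat_lit 423, nat_lit 0, nat_lit 307632, [nat_lit 4688000000, nat_lit 7968000000, nat_lit 14058000000], [], [nat_lit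 36832965129, nat_lit 37307614468, nat_lit 39962875718, nat_lit 40467258031, nat_lit 34089587410, nat_lit 34283996496, nat_lit 36238497606, nat_lit 36527239895], nat_lit 1271250, nat_lit 1271250, nat_lit 1271250, nat_lit 1271250, nat_lit 88400, nat_lit 2598350, [nat_lit 1100000, nat_lit 1785000, nat_lit 1271250], [nat_lit 37, nat_lit 40, nat_lit 40, nat_lit 80, nat_lit 28, nat_lit 538, nat_lit 300, nat_lit 12]⟩,
 zbF0, [⟨nat_lit 4, nat_lit 100, nat_lit 68, nat_lit 92, nat_lit 484991293⟩, ⟨nat_lit 7, nat_lit 68, nat_lit 100, nat_lit 92, nat_lit 155951185⟩]⟩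
noncomputable def p088_l29 : Lf2 := ⟨nat_lit 0, nat_lit 20, [nat_lit 5, nat_lit 5, nat_lit 5, nat_lit 20], false, nat_lit 160, nat_lit 276, nat_lit 0, nat_lit 352, ⟨nat_lit 1000, nat_lit 0, nat_lit 0, nat_lit 0, nat_lit 0, nat_lit 0, nat_lit 0, nat_lit 0, nat_lit 0, nat_lit 0, nat_lit 0, nat_lit 0, nat_lit 0, nat_lit 0, nat_lit 0, nat_lit 0, false, false⟩,
 nat_lit 13512, nat_lit 0, nat_lit 0, nat_lit 0, nat_lit 4899, nat_lit 7865, nat_lit 697, nat_lit 0, nat_lit 0, nat_lit 801, nat_lit 0, nat_lit 0, nat_lit 0, nat_lit 0, nat_lit 0, nat_lit 0, nat_lit 0, nat_lit 0, [],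
 ⟨p088_k8, nat_lit 0, nat_lit 0, nat_lit 193, nat_lit 0, nat_lit 297666, [nat_lit 2032000001, nat_lit 4688000000, nat_lit 7968000000], [], [nat_lit 23254044044, nat_lit 24311905953, nat_lit 30277868734, nat_lit 31406418822, nat_lit 25751223688, nat_lit 26606913026, nat_lit 32399745873, nat_lit 33304541266], nat_lit 1271250, nat_lit 1271250, nat_lit 1271250, nat_lit 1271250, nat_lit 1100001, nat_lit 2093250, [nat_lit 490000, nat_lit 1100000, nat_lit 1785000], [nat_lit 34, nat_lit 40, nat_lit 40, nat_lit 80, nat_lit 7, nat_lit 289, nat_lit 75, nat_lit 8]⟩, ⟨p088_k10, nat_lit 0, nat_lit 0, nat_lit 439, nat_lit 0, nat_lit 454615, [nat_lit 4688000000, nat_lit 7968000000, nat_lit 11872000000], [], [nat_lit 33496262875, nat_lit 34018875495, nat_lit 39432274436, nat_lit 40030555525, nat_lit 30900649959, nat_lit 31169825801, nat_lit 36001992897, nat_lit 36502771346], nat_lit 1271250, nat_lit 1271250, nat_lit 1271250, nat_lit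 1271250, nat_lit 0, nat_lit 2486000, [nat_lit 1100000, nat_lit 1785000, nat_lit 1271250], [nat_lit 21, nat_lit 40, nat_lit 40, nat_lit 80, nat_lit 14, nat_lit 538, nat_lit 300, nat_lit 13]⟩,
 zbF0, [⟨nat_lit 4, nat_lit 100, nat_lit 67, nat_lit 88, nat_lit 530354249⟩, ⟨nat_lit 19, nat_lit 100, nat_lit 82, nat_lit 92, nat_lit 155649677⟩]⟩
noncomputable def b_V_800_600_20_44 : St := ⟨true, nat_lit 1, nat_lit 1, nat_lit 1, nat_lit 120, nat_lit 320, nat_lit 360, nat_lit 240, nat_lit 280, nat_lit 240, nat_lit 396, nat_lit 80, nat_lit 120, nat_lit 0, nat_lit 300, nat_lit 0, nat_lit 364, nat_lit 40, nat_lit 80, nat_lit 0, nat_lit 0, nat_lit 0, nat_lit 0⟩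
theorem d_V_800_600_20_44 (h : EB TB.env) : Dead b_V_800_600_20_44 := chkB_sound0 h (T :=
(.spl (nat_lit 4) (nat_lit 160)
(.spl (nat_lit 5) (nat_lit 160)
(.leaf p088_l18)
(.spl (nat_lit 0) (nat_lit 340)
(.leaf p088_l19)
(.trX (nat_lit 13) (nat_lit 78) (nat_lit 39) (nat_lit 100) (nat_lit 388) (.leaf p088_l20))))
(.spl (nat_lit 0) (nat_lit 340)
(.spl (nat_lit 1) (nat_lit 260)
(.trX (nat_lit 13) (nat_lit 84) (nat_lit 35) (nat_lit 100) (nat_lit 392) (.spl (nat_lit 6) (nat_lit 72)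
(.spl (nat_lit 0) (nat_lit 330)
(.leaf p088_l21)
(.trX (nat_lit 13) (nat_lit 80) (nat_lit 41) (nat_lit 100) (nat_lit 384) (.trX (nat_lit 16) (nat_lit 83) (nat_lit 98) (nat_lit 100) (nat_lit 288) (.leaf p088_l22))))
(.leaf p088_l23)))
(.trX (nat_lit 19) (nat_lit 100) (nat_lit 69) (nat_lit 96) (nat_lit 352) (.leaf p088_l24)))
(.trX (nat_lit 13) (nat_lit 78) (nat_lit 39) (nat_lit 100) (nat_lit 388) (.trX (nat_lit 16) (nat_lit 77) (nat_lit 100) (nat_lit 99) (nat_lit 276) (.spl (nat_lit 1) (nat_lit 260)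
(.trX (nat_lit 13) (nat_lit 75) (nat_lit 48) (nat_lit 100) (nat_lit 380) (.spl (nat_lit 2) (nat_lit 320)
(.spl (nat_lit 6) (nat_lit 60)
(.leaf p088_l25)
(.leaf p088_l26))
(.trZ (nat_lit 9) (nat_lit 100) (nat_lit 82) (nat_lit 44) (nat_lit 16) (.spl (nat_lit 3) (nat_lit 100)
(.trX (nat_lit 16) (nat_lit 74) (nat_lit 100) (nat_lit 90) (nat_lit 256) (.trX (nat_lit 19) (nat_lit 100) (nat_lit 68) (nat_lit 88) (nat_lit 352) (.leaf p088_l27)))
(.leaf p088_l28)))))
(.trX (nat_lit 19) (nat_lit 100) (nat_lit 69) (nat_lit 96) (nat_lit 352) (.leaf p088_l29)))))))) (by decide +kernel)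
noncomputable def p088_l30 : Lf2 := ⟨nat_lit 0, nat_lit 20, [nat_lit 5, nat_lit 5, nat_lit 5, nat_lit 20], true, nat_lit 0, nat_lit 160, nat_lit 0, nat_lit 364, ⟨nat_lit 0, nat_lit 1000, nat_lit 0, nat_lit 6, nat_lit 195, nat_lit 1000, nat_lit 65, nat_lit 0, nat_lit 0, nat_lit 0, nat_lit 0, nat_lit 0, nat_lit 0, nat_lit 0, nat_lit 0, nat_lit 5000000, false, false⟩,
 nat_lit 0, nat_lit 5791, nat_lit 0, nat_lit 930, nat_lit 4343, nat_lit 0, nat_lit 310, nat_lit 0, nat_lit 0, nat_lit 0, nat_lit 0, nat_lit 0, nat_lit 0, nat_lit 0, nat_lit 0, nat_lit 400000, nat_lit 0, nat_lit 0, [(nat_lit 19, [(nat_lit 1, nat_lit 1000)]), (nat_lit 22, [(nat_lit 1, nat_lit 1000)])],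
 ⟨p088_k6, nat_lit 0, nat_lit 0, nat_lit 487, nat_lit 0, nat_lit 528751, [nat_lit 1398133334, nat_lit 2037600000, nat_lit 1832000000], [], [nat_lit 25543344230, nat_lit 23753839240, nat_lit 23696393262, nat_lit 25730659644, nat_lit 20854987326, nat_lit 22843850450, nat_lit 28196363262, nat_lit 24457248726], nat_lit 1271250, nat_lit 1271250, nat_lit 382400, nat_lit 1731000, nat_lit 0, nat_lit 1100001, [nat_lit 490000, nat_lit 1100000, nat_lit 2127500], [nat_lit 27, nat_lit 40, nat_lit 40, nat_lit 80, nat_lit 13, nat_lit 317, nat_lit 100, nat_lit 9]⟩, C1.Rw.none,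
 ⟨nat_lit 3162, nat_lit 4473, ⟨.ofNat (nat_lit 311562), .ofNat (nat_lit 611007), .ofNat (nat_lit 354514), .ofNat (nat_lit 653959), .ofNat (nat_lit 336623), .ofNat (nat_lit 605159), .ofNat (nat_lit 380752), .ofNat (nat_lit 649288)⟩, ⟨.ofNat (nat_lit 0), .ofNat (nat_lit 302621), .ofNat (nat_lit 0), .ofNat (nat_lit 345754), .ofNat (nat_lit 0), .ofNat (nat_lit 306116), .ofNat (nat_lit 0), .ofNat (nat_lit 350426)⟩⟩, []⟩
noncomputable def p088_l31 : Lf2 := ⟨nat_lit 0, nat_lit 20, [nat_lit 5, nat_lit 5, nat_lit 5, nat_lit 20], true, nat_lit 160, nat_lit 300, nat_lit 0, nat_lit 364, ⟨nat_lit 0, nat_lit 1000, nat_lit 0, nat_lit 6, nat_lit 195, nat_lit 1000, nat_lit 176, nat_lit 0, nat_lit 0, nat_lit 0, nat_lit 0, nat_lit 0, nat_lit 0, nat_lit 0, nat_lit 0, nat_lit 5000000, false, false⟩,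
 nat_lit 0, nat_lit 5873, nat_lit 0, nat_lit 0, nat_lit 4404, nat_lit 0, nat_lit 0, nat_lit 0, nat_lit 0, nat_lit 0, nat_lit 0, nat_lit 0, nat_lit 0, nat_lit 0, nat_lit 0, nat_lit 429400, nat_lit 0, nat_lit 0, [(nat_lit 19, [(nat_lit 1, nat_lit 951), (nat_lit 2, nat_lit 49)]), (nat_lit 22, [(nat_lit 1, nat_lit 951), (nat_lit 2, nat_lit 49)])],
 ⟨p088_k6, nat_lit 0, nat_lit 0, nat_lit 358, nat_lit 0, nat_lit 528751, [nat_lit 1412859467, nat_lit 1989253334, nat_lit 1587744800], [], [nat_lit 22703784283, nat_lit 24051790633, nat_lit 23626575772, nat_lit 25216592220, nat_lit 25683644446, nat_lit 27821684869, nat_lit 28831848779, nat_lit 28289334984], nat_lit 1271250, nat_lit 1271250, nat_lit 382400, nat_lit 1731000, nat_lit 1100001, nat_lit 2298750, [nat_lit 490000, nat_lit 1100000, nat_lit 2127500], [nat_lit 27, nat_lit 40, nat_lit 40, nat_lit 80, nat_lit 13, nat_lit 373, nat_lit 150, nat_lit 10]⟩, C1.Rw.none,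
 ⟨nat_lit 3162, nat_lit 4473, ⟨.ofNat (nat_lit 311562), .ofNat (nat_lit 611007), .ofNat (nat_lit 354514), .ofNat (nat_lit 653959), .ofNat (nat_lit 336623), .ofNat (nat_lit 605159), .ofNat (nat_lit 380752), .ofNat (nat_lit 649288)⟩, ⟨.ofNat (nat_lit 302621), .ofNat (nat_lit 540545), .ofNat (nat_lit 345754), .ofNat (nat_lit 583678), .ofNat (nat_lit 306116), .ofNat (nat_lit 519453), .ofNat (nat_lit 350426), .ofNat (nat_lit 563762)⟩⟩, [⟨nat_lit 4, nat_lit 100, nat_lit 74, nat_lit 90, nat_lit 317747513⟩]⟩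
noncomputable def p088_l32 : Lf2 := ⟨nat_lit 0, nat_lit 20, [nat_lit 5, nat_lit 5, nat_lit 5, nat_lit 20], false, nat_lit 0, nat_lit 300, nat_lit 0, nat_lit 160, ⟨nat_lit 1000, nat_lit 0, nat_lit 0, nat_lit 0, nat_lit 0, nat_lit 0, nat_lit 0, nat_lit 0, nat_lit 0, nat_lit 0, nat_lit 0, nat_lit 0, nat_lit 0, nat_lit 0, nat_lit 0, nat_lit 0, false, false⟩,
 nat_lit 0, nat_lit 8475, nat_lit 0, nat_lit 0, nat_lit 6356, nat_lit 6392, nat_lit 555, nat_lit 0, nat_lit 0, nat_lit 1100, nat_lit 0, nat_lit 0, nat_lit 0, nat_lit 0, nat_lit 0, nat_lit 0, nat_lit 0, nat_lit 0, [],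
 ⟨p088_k6, nat_lit 0, nat_lit 0, nat_lit 437, nat_lit 0, nat_lit 528751, [nat_lit 2032000001, nat_lit 4688000000, nat_lit 9842000000], [], [nat_lit 31072459831, nat_lit 32925824503, nat_lit 38649794263, nat_lit 41495679720, nat_lit 29916559959, nat_lit 31078724131, nat_lit 34380519637, nat_lit 36219107951], nat_lit 1271250, nat_lit 1271250, nat_lit 1271250, nat_lit 1271250, nat_lit 0, nat_lit 2118750, [nat_lit 490000, nat_lit 1100000, nat_lit 2127500], [nat_lit 27, nat_lit 40, nat_lit 40, nat_lit 80, nat_lit 13, nat_lit 401, nat_lit 175, nat_lit 11]⟩, ⟨p088_k7, nat_lit 0, nat_lit 0, nat_lit 278, nat_lit 0, nat_lit 0, [nat_lit 4688000000, nat_lit 7968000000, nat_lit 14058000000], [], [nat_lit 28954634672, nat_lit 30717706480, nat_lit 37719464647, nat_lit 38631890365, nat_lit 24760875024, nat_lit 26031774096, nat_lit 32022707604, nat_lit 33100785722], nat_lit 0, nat_lit 0, nat_lit 0, nat_lit 0, nat_lit 0, nat_lit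 0, [], [nat_lit 37, nat_lit 40, nat_lit 40, nat_lit 80, nat_lit 28, nat_lit 456, nat_lit 225, nat_lit 10]⟩,
 zbF0, [⟨nat_lit 16, nat_lit 74, nat_lit 100, nat_lit 90, nat_lit 139150983⟩]⟩
noncomputable def p088_l33 : Lf2 := ⟨nat_lit 0, nat_lit 20, [nat_lit 5, nat_lit 5, nat_lit 5, nat_lit 20], false, nat_lit 0, nat_lit 300, nat_lit 160, nat_lit 364, ⟨nat_lit 1000, nat_lit 0, nat_lit 0, nat_lit 0, nat_lit 0, nat_lit 0, nat_lit 0, nat_lit 0, nat_lit 0, nat_lit 0, nat_lit 0, nat_lit 0, nat_lit 0, nat_lit 0, nat_lit 0, nat_lit 0, false, false⟩,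
 nat_lit 0, nat_lit 8349, nat_lit 0, nat_lit 0, nat_lit 6261, nat_lit 6019, nat_lit 619, nat_lit 0, nat_lit 0, nat_lit 0, nat_lit 0, nat_lit 0, nat_lit 0, nat_lit 0, nat_lit 0, nat_lit 0, nat_lit 0, nat_lit 0, [],
 ⟨p088_k6, nat_lit 0, nat_lit 0, nat_lit 437, nat_lit 0, nat_lit 528751, [nat_lit 2032000001, nat_lit 4688000000, nat_lit 9842000000], [], [nat_lit 30692819611, nat_lit 32533367643, nat_lit 38387872575, nat_lit 41210682570, nat_lit 29632049129, nat_lit 30790390933, nat_lit 34271491756, nat_lit 36098608203], nat_lit 1271250, nat_lit 1271250, nat_lit 1271250, nat_lit 1271250, nat_lit 0, nat_lit 2118750, [nat_lit 490000, nat_lit 1100000, nat_lit 2127500], [nat_lit 27, nat_lit 40, nat_lit 40, nat_lit 80, nat_lit 13, nat_lit 401, nat_lit 175, nat_lit 11]⟩, ⟨p088_k7, nat_lit 0, nat_lit 0, nat_lit 100, nat_lit 0, nat_lit 0, [nat_lit 4688000000, nat_lit 7968000000, nat_lit 14058000000], [], [nat_lit 15216375856,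 nat_lit 17870871780, nat_lit 27285332246, nat_lit 29014956821, nat_lit 26363450112, nat_lit 27820695893, nat_lit 34524751570, nat_lit 35416298216], nat_lit 0, nat_lit 0, nat_lit 0, nat_lit 0, nat_lit 0, nat_lit 0, [], [nat_lit 37, nat_lit 40, nat_lit 40, nat_lit 80, nat_lit 28, nat_lit 538, nat_lit 300, nat_lit 12]⟩,
 zbF0, [⟨nat_lit 4, nat_lit 100, nat_lit 74, nat_lit 90, nat_lit 146947586⟩, ⟨nat_lit 7, nat_lit 77, nat_lit 100, nat_lit 91, nat_lit 430904631⟩]⟩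
noncomputable def p088_l34 : Lf2 := ⟨nat_lit 0, nat_lit 20, [nat_lit 5, nat_lit 5, nat_lit 5, nat_lit 20], true, nat_lit 0, nat_lit 300, nat_lit 0, nat_lit 364, ⟨nat_lit 0, nat_lit 1000, nat_lit 0, nat_lit 6, nat_lit 156, nat_lit 1000, nat_lit 110, nat_lit 0, nat_lit 0, nat_lit 0, nat_lit 0, nat_lit 0, nat_lit 0, nat_lit 0, nat_lit 0, nat_lit 5000000, false, false⟩,
 nat_lit 0, nat_lit 6031, nat_lit 0, nat_lit 1874, nat_lit 4523, nat_lit 0, nat_lit 309, nat_lit 0, nat_lit 0, nat_lit 0, nat_lit 0, nat_lit 0, nat_lit 0, nat_lit 0, nat_lit 0, nat_lit 400000, nat_lit 0, nat_lit 0, [(nat_lit 19, [(nat_lit 1, nat_lit 1000)]), (nat_lit 22, [(nat_lit 1, nat_lit 1000)])],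
 ⟨p088_k6, nat_lit 0, nat_lit 0, nat_lit 487, nat_lit 0, nat_lit 528751, [nat_lit 1398133334, nat_lit 2037600000, nat_lit 1832000000], [], [nat_lit 25514801702, nat_lit 24213681640, nat_lit 20836246285, nat_lit 23047160105, nat_lit 24212944167, nat_lit 26340415552, nat_lit 27490910746, nat_lit 25515007137], nat_lit 1271250, nat_lit 1271250, nat_lit 382400, nat_lit 780000, nat_lit 0, nat_lit 2118750, [nat_lit 490000, nat_lit 1100000, nat_lit 2127500], [nat_lit 27, nat_lit 40, nat_lit 40, nat_lit 80, nat_lit 13, nat_lit 345, nat_lit 125, nat_lit 10]⟩, C1.Rw.none,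
 ⟨nat_lit 3162, nat_lit 4473, ⟨.ofNat (nat_lit 311562), .ofNat (nat_lit 406840), .ofNat (nat_lit 354514), .ofNat (nat_lit 449792), .ofNat (nat_lit 336623), .ofNat (nat_lit 422066), .ofNat (nat_lit 380752), .ofNat (nat_lit 466195)⟩, ⟨.ofNat (nat_lit 0), .ofNat (nat_lit 540545), .ofNat (nat_lit 0), .ofNat (nat_lit 583678), .ofNat (nat_lit 0), .ofNat (nat_lit 519453), .ofNat (nat_lit 0), .ofNat (nat_lit 563762)⟩⟩, [⟨nat_lit 0, nat_lit 100, nat_lit 75, nat_lit 92, nat_lit 134763932⟩, ⟨nat_lit 4, nat_lit 100, nat_lit 74, nat_lit 90, nat_lit 165451026⟩]⟩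
noncomputable def p088_l35 : Lf2 := ⟨nat_lit 0, nat_lit 20, [nat_lit 5, nat_lit 5, nat_lit 5, nat_lit 20], false, nat_lit 0, nat_lit 300, nat_lit 0, nat_lit 364, ⟨nat_lit 0, nat_lit 1000, nat_lit 0, nat_lit 6, nat_lit 213, nat_lit 1000, nat_lit 111, nat_lit 0, nat_lit 0, nat_lit 0, nat_lit 0, nat_lit 0, nat_lit 0, nat_lit 0, nat_lit 0, nat_lit 5000000, false, false⟩,
 nat_lit 0, nat_lit 7382, nat_lit 0, nat_lit 0, nat_lit 5536, nat_lit 0, nat_lit 0, nat_lit 0, nat_lit 0, nat_lit 0, nat_lit 0, nat_lit 0, nat_lit 0, nat_lit 0, nat_lit 0, nat_lit 443200, nat_lit 0, nat_lit 0, [(nat_lit 19, [(nat_lit 1, nat_lit 928), (nat_lit 2, nat_lit 72)])],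
 ⟨p088_k16, nat_lit 0, nat_lit 0, nat_lit 301, nat_lit 0, nat_lit 206153, [nat_lit 2140320001, nat_lit 1529509333], [], [nat_lit 25071667018, nat_lit 26250798538, nat_lit 26468397898, nat_lit 27429605290, nat_lit 24775660106, nat_lit 25678530525, nat_lit 27768675063, nat_lit 26788721364], nat_lit 1271250, nat_lit 1271250, nat_lit 780000, nat_lit 1762500, nat_lit 0, nat_lit 2118750, [nat_lit 490000, nat_lit 2052500], [nat_lit 94, nat_lit 40, nat_lit 40, nat_lit 80, nat_lit 95, nat_lit 373, nat_lit 150, nat_lit 11]⟩, ⟨p088_k17, nat_lit 0, nat_lit 0, nat_lit 483, nat_lit 0, nat_lit 324701, [nat_lit 0, nat_lit 0], [], [nat_lit 0, nat_lit 0, nat_lit 0, nat_lit 0, nat_lit 0, nat_lit 0, nat_lit 0, nat_lit 0], nat_lit 1271250, nat_lit 1271250, nat_lit 780000, nat_lit 1762500, nat_lit 0, nat_lit 2570750, [nat_lit 1100000, nat_lit 2812500], [nat_lit 145, nat_lit 40, nat_lit 40, nat_lit 80, nat_lit 144, nat_lit 456, nat_lit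 225, nat_lit 11]⟩,
 ⟨nat_lit 3872, nat_lit 4473, ⟨.ofNat (nat_lit 407125), .ofNat (nat_lit 611083), .ofNat (nat_lit 450223), .ofNat (nat_lit 654181), .ofNat (nat_lit 414492), .ofNat (nat_lit 608080), .ofNat (nat_lit 458043), .ofNat (nat_lit 651631)⟩, ⟨.ofNat (nat_lit 0), .ofNat (nat_lit 540545), .ofNat (nat_lit 0), .ofNat (nat_lit 583678), .ofNat (nat_lit 0), .ofNat (nat_lit 530543), .ofNat (nat_lit 0), .ofNat (nat_lit 574129)⟩⟩, [⟨nat_lit 4, nat_lit 100, nat_lit 81, nat_lit 92, nat_lit 74410774⟩]⟩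
noncomputable def p088_l36 : Lf2 := ⟨nat_lit 0, nat_lit 20, [nat_lit 5, nat_lit 5, nat_lit 5, nat_lit 20], true, nat_lit 0, nat_lit 276, nat_lit 0, nat_lit 364, ⟨nat_lit 0, nat_lit 1000, nat_lit 0, nat_lit 6, nat_lit 214, nat_lit 1000, nat_lit 102, nat_lit 0, nat_lit 0, nat_lit 0, nat_lit 0, nat_lit 0, nat_lit 0, nat_lit 0, nat_lit 0, nat_lit 5000000, false, false⟩,
 nat_lit 0, nat_lit 4591, nat_lit 0, nat_lit 0, nat_lit 3716, nat_lit 0, nat_lit 0, nat_lit 0, nat_lit 0, nat_lit 0, nat_lit 0, nat_lit 0, nat_lit 0, nat_lit 0, nat_lit 71, nat_lit 752800, nat_lit 0, nat_lit 0, [(nat_lit 22, [(nat_lit 1, nat_lit 412), (nat_lit 2, nat_lit 588)])],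
 ⟨p088_k8, nat_lit 0, nat_lit 0, nat_lit 384, nat_lit 0, nat_lit 475852, [nat_lit 1947724801, nat_lit 1773284800, nat_lit 41502400], [], [nat_lit 23194543978, nat_lit 21397581248, nat_lit 22767748104, nat_lit 24495276528, nat_lit 22102573967, nat_lit 23544724659, nat_lit 25600989506, nat_lit 25779175484], nat_lit 1271250, nat_lit 1271250, nat_lit 780000, nat_lit 1762500, nat_lit 0, nat_lit 1949250, [nat_lit 490000, nat_lit 1100000, nat_lit 1785000], [nat_lit 34, nat_lit 40, nat_lit 40, nat_lit 80, nat_lit 7, nat_lit 373, nat_lit 150, nat_lit 12]⟩, C1.Rw.none,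
 ⟨nat_lit 3162, nat_lit 3873, ⟨.ofNat (nat_lit 414421), .ofNat (nat_lit 608082), .ofNat (nat_lit 457950), .ofNat (nat_lit 651611), .ofNat (nat_lit 422280), .ofNat (nat_lit 605237), .ofNat (nat_lit 466533), .ofNat (nat_lit 649490)⟩, ⟨.ofNat (nat_lit 0), .ofNat (nat_lit 491830), .ofNat (nat_lit 0), .ofNat (nat_lit 535416), .ofNat (nat_lit 0), .ofNat (nat_lit 482881), .ofNat (nat_lit 0), .ofNat (nat_lit 527190)⟩⟩, [⟨nat_lit 4, nat_lit 100, nat_lit 67, nat_lit 88, nat_lit 149247796⟩]⟩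
noncomputable def p088_l37 : Lf2 := ⟨nat_lit 0, nat_lit 20, [nat_lit 5, nat_lit 5, nat_lit 5, nat_lit 20], false, nat_lit 0, nat_lit 160, nat_lit 0, nat_lit 364, ⟨nat_lit 386, nat_lit 614, nat_lit 0, nat_lit 6, nat_lit 302, nat_lit 614, nat_lit 65, nat_lit 0, nat_lit 0, nat_lit 0, nat_lit 0, nat_lit 0, nat_lit 0, nat_lit 0, nat_lit 0, nat_lit 5000000, true, true⟩,
 nat_lit 6141, nat_lit 0, nat_lit 0, nat_lit 0, nat_lit 4605, nat_lit 3251, nat_lit 200, nat_lit 0, nat_lit 0, nat_lit 271, nat_lit 0, nat_lit 0, nat_lit 0, nat_lit 0, nat_lit 0, nat_lit 299000, nat_lit 0, nat_lit 0, [(nat_lit 19, [(nat_lit 1, nat_lit 525), (nat_lit 2, nat_lit 89)]), (nat_lit 22, [(nat_lit 1, nat_lit 525), (nat_lit 2, nat_lit 89)])],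
 ⟨p088_k6, nat_lit 0, nat_lit 0, nat_lit 343, nat_lit 0, nat_lit 327596, [nat_lit 1669553334, nat_lit 2972841067, nat_lit 4480212800], [], [nat_lit 27686397994, nat_lit 29584749174, nat_lit 34121472750, nat_lit 36242732250, nat_lit 25975858188, nat_lit 27553534674, nat_lit 30903960346, nat_lit 32026853254], nat_lit 1271250, nat_lit 1271250, nat_lit 1271250, nat_lit 1271250, nat_lit 0, nat_lit 1100001, [nat_lit 490000, nat_lit 1100000, nat_lit 2127500], [nat_lit 27, nat_lit 40, nat_lit 40, nat_lit 80, nat_lit 13, nat_lit 373, nat_lit 150, nat_lit 10]⟩, ⟨p088_k7, nat_lit 0, nat_lit 0, nat_lit 563, nat_lit 0, nat_lit 515980, [nat_lit 1809568000, nat_lit 3075648000, nat_lit 5426388000], [], [nat_lit 14735665800, nat_lit 15067236776, nat_lit 17067509393, nat_lit 17414113302, nat_lit 13365939727, nat_lit 13429877533, nat_lit 14775744602, nat_lit 14847985001], nat_lit 1271250, nat_lit 1271250, nat_lit 1271250, nat_lit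 1271250, nat_lit 0, nat_lit 2570750, [nat_lit 1100000, nat_lit 1785000, nat_lit 1271250], [nat_lit 37, nat_lit 40, nat_lit 40, nat_lit 80, nat_lit 28, nat_lit 538, nat_lit 300, nat_lit 12]⟩,
 ⟨nat_lit 3162, nat_lit 4473, ⟨.ofNat (nat_lit 611007), .ofNat (nat_lit 876224), .ofNat (nat_lit 653959), .ofNat (nat_lit 919290), .ofNat (nat_lit 605159), .ofNat (nat_lit 842980), .ofNat (nat_lit 649288), .ofNat (nat_lit 887222)⟩, ⟨.ofNat (nat_lit 0), .ofNat (nat_lit 302621), .ofNat (nat_lit 0), .ofNat (nat_lit 345754), .ofNat (nat_lit 0), .ofNat (nat_lit 306116), .ofNat (nat_lit 0), .ofNat (nat_lit 350426)⟩⟩, [⟨nat_lit 10, nat_lit 100, nat_lit 53, nat_lit 80, nat_lit 95503612⟩]⟩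
noncomputable def p088_l38 : Lf2 := ⟨nat_lit 0, nat_lit 20, [nat_lit 5, nat_lit 5, nat_lit 5, nat_lit 20], false, nat_lit 160, nat_lit 300, nat_lit 0, nat_lit 364, ⟨nat_lit 577, nat_lit 423, nat_lit 0, nat_lit 6, nat_lit 299, nat_lit 423, nat_lit 177, nat_lit 0, nat_lit 0, nat_lit 0, nat_lit 0, nat_lit 0, nat_lit 0, nat_lit 0, nat_lit 0, nat_lit 5000000, true, true⟩,
 nat_lit 8667, nat_lit 0, nat_lit 0, nat_lit 6710, nat_lit 4465, nat_lit 4588, nat_lit 413, nat_lit 0, nat_lit 0, nat_lit 474, nat_lit 0, nat_lit 0, nat_lit 0, nat_lit 0, nat_lit 0, nat_lit 169200, nat_lit 0, nat_lit 0, [(nat_lit 19, [(nat_lit 1, nat_lit 423)])],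
 ⟨p088_k6, nat_lit 0, nat_lit 0, nat_lit 167, nat_lit 0, nat_lit 141052, [nat_lit 1763874400, nat_lit 3566880800, nat_lit 6453770000], [], [nat_lit 23725260765, nat_lit 24822187915, nat_lit 30204944390, nat_lit 30954759081, nat_lit 27313752690, nat_lit 28152967603, nat_lit 32233873855, nat_lit 32812816784], nat_lit 1271250, nat_lit 1271250, nat_lit 1271250, nat_lit 1271250, nat_lit 1100001, nat_lit 2298750, [nat_lit 490000, nat_lit 1100000, nat_lit 2127500], [nat_lit 27, nat_lit 40, nat_lit 40, nat_lit 80, nat_lit 13, nat_lit 401, nat_lit 175, nat_lit 10]⟩, ⟨p088_k7, nat_lit 0, nat_lit 0, nat_lit 409, nat_lit 0, nat_lit 222163, [nat_lit 2704976000, nat_lit 4597536000, nat_lit 8111466000], [], [nat_lit 20323432236, nat_lit 20704009110, nat_lit 24310736850, nat_lit 24578540050, nat_lit 19538558372, nat_lit 19504853139, nat_lit 21377389415, nat_lit 21440267014], nat_lit 1271250, nat_lit 1271250, nat_lit 1271250,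 nat_lit 1271250, nat_lit 0, nat_lit 2570750, [nat_lit 1100000, nat_lit 1785000, nat_lit 1271250], [nat_lit 37, nat_lit 40, nat_lit 40, nat_lit 80, nat_lit 28, nat_lit 538, nat_lit 300, nat_lit 12]⟩,
 ⟨nat_lit 3872, nat_lit 4473, ⟨.ofNat (nat_lit 611083), .ofNat (nat_lit 869421), .ofNat (nat_lit 632632), .ofNat (nat_lit 890974), .ofNat (nat_lit 608080), .ofNat (nat_lit 853283), .ofNat (nat_lit 629856), .ofNat (nat_lit 875063)⟩, ⟨.ofNat (nat_lit 302621), .ofNat (nat_lit 540545), .ofNat (nat_lit 345754), .ofNat (nat_lit 583678), .ofNat (nat_lit 304717), .ofNat (nat_lit 530543), .ofNat (nat_lit 348304), .ofNat (nat_lit 574129)⟩⟩, [⟨nat_lit 16, nat_lit 81, nat_lit 100, nat_lit 92, nat_lit 312762110⟩, ⟨nat_lit 7, nat_lit 72, nat_lit 100, nat_lit 89, nat_lit 78720704⟩]⟩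
noncomputable def p088_l39 : Lf2 := ⟨nat_lit 0, nat_lit 20, [nat_lit 5, nat_lit 5, nat_lit 5, nat_lit 20], true, nat_lit 160, nat_lit 276, nat_lit 0, nat_lit 364, ⟨nat_lit 0, nat_lit 1000, nat_lit 0, nat_lit 6, nat_lit 291, nat_lit 1000, nat_lit 167, nat_lit 0, nat_lit 0, nat_lit 0, nat_lit 0, nat_lit 0, nat_lit 0, nat_lit 0, nat_lit 0, nat_lit 5000000, true, true⟩,
 nat_lit 0, nat_lit 4383, nat_lit 0, nat_lit 1233, nat_lit 3548, nat_lit 0, nat_lit 0, nat_lit 0, nat_lit 0, nat_lit 0, nat_lit 0, nat_lit 0, nat_lit 0, nat_lit 0, nat_lit 0, nat_lit 400000, nat_lit 0, nat_lit 0, [(nat_lit 22, [(nat_lit 1, nat_lit 1000)])],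
 ⟨p088_k8, nat_lit 0, nat_lit 0, nat_lit 241, nat_lit 0, nat_lit 383215, [nat_lit 1358400001, nat_lit 1554800000, nat_lit 1406000000], [], [nat_lit 24346112994, nat_lit 25166861330, nat_lit 28731174258, nat_lit 29509828312, nat_lit 26654573863, nat_lit 27336067215, nat_lit 30587860500, nat_lit 31281435093], nat_lit 1271250, nat_lit 1271250, nat_lit 1271250, nat_lit 1271250, nat_lit 1100001, nat_lit 2093250, [nat_lit 490000, nat_lit 1100000, nat_lit 1785000], [nat_lit 34, nat_lit 40, nat_lit 40, nat_lit 80, nat_lit 7, nat_lit 289, nat_lit 75, nat_lit 8]⟩, C1.Rw.none,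
 ⟨nat_lit 3162, nat_lit 3873, ⟨.ofNat (nat_lit 608082), .ofNat (nat_lit 833932), .ofNat (nat_lit 629847), .ofNat (nat_lit 855725), .ofNat (nat_lit 605237), .ofNat (nat_lit 818598), .ofNat (nat_lit 627364), .ofNat (nat_lit 840753)⟩, ⟨.ofNat (nat_lit 304717), .ofNat (nat_lit 491830), .ofNat (nat_lit 348304), .ofNat (nat_lit 535416), .ofNat (nat_lit 306116), .ofNat (nat_lit 482881), .ofNat (nat_lit 350426), .ofNat (nat_lit 527190)⟩⟩, [⟨nat_lit 13, nat_lit 68, nat_lit 58, nat_lit 100, nat_lit 325707376⟩, ⟨nat_lit 16, nat_lit 67, nat_lit 100, nat_lit 88, nat_lit 291665425⟩]⟩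
noncomputable def p088_l40 : Lf2 := ⟨nat_lit 0, nat_lit 20, [nat_lit 5, nat_lit 5, nat_lit 5, nat_lit 20], false, nat_lit 160, nat_lit 300, nat_lit 0, nat_lit 352, ⟨nat_lit 817, nat_lit 183, nat_lit 0, nat_lit 6, nat_lit 309, nat_lit 183, nat_lit 177, nat_lit 0, nat_lit 0, nat_lit 0, nat_lit 0, nat_lit 0, nat_lit 0, nat_lit 0, nat_lit 0, nat_lit 5000000, true, true⟩,
 nat_lit 11751, nat_lit 0, nat_lit 0, nat_lit 1424, nat_lit 6050, nat_lit 6840, nat_lit 483, nat_lit 0, nat_lit 0, nat_lit 418, nat_lit 0, nat_lit 0, nat_lit 0, nat_lit 0, nat_lit 0, nat_lit 45750, nat_lit 0, nat_lit 0, [(nat_lit 19, [(nat_lit 0, nat_lit 183)])],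
 ⟨p088_k6, nat_lit 0, nat_lit 0, nat_lit 186, nat_lit 0, nat_lit 206153, [nat_lit 1942403201, nat_lit 4263513200, nat_lit 8604334400], [], [nat_lit 24709465575, nat_lit 25786607475, nat_lit 31525732315, nat_lit 32375405441, nat_lit 27790085925, nat_lit 28597532200, nat_lit 34029335095, nat_lit 34930153508], nat_lit 1271250, nat_lit 1271250, nat_lit 1271250, nat_lit 1271250, nat_lit 1100001, nat_lit 2298750, [nat_lit 490000, nat_lit 1100000, nat_lit 2127500], [nat_lit 27, nat_lit 40, nat_lit 40, nat_lit 80, nat_lit 13, nat_lit 401, nat_lit 175, nat_lit 10]⟩, ⟨p088_k10, nat_lit 0, nat_lit 0, nat_lit 383, nat_lit 0, nat_lit 286084, [nat_lit 3830096000, nat_lit 6509856000, nat_lit 9699424000], [], [nat_lit 27704823514, nat_lit 28365006710, nat_lit 35108150019, nat_lit 35575596983, nat_lit 26359063850, nat_lit 26610036994, nat_lit 30654865937, nat_lit 30799124061], nat_lit 1271250, nat_lit 1271250, nat_lit 1271250,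 nat_lit 1271250, nat_lit 0, nat_lit 2486000, [nat_lit 1100000, nat_lit 1785000, nat_lit 1271250], [nat_lit 21, nat_lit 40, nat_lit 40, nat_lit 80, nat_lit 14, nat_lit 538, nat_lit 300, nat_lit 13]⟩,
 ⟨nat_lit 3872, nat_lit 4473, ⟨.ofNat (nat_lit 632632), .ofNat (nat_lit 897773), .ofNat (nat_lit 654181), .ofNat (nat_lit 919326), .ofNat (nat_lit 629856), .ofNat (nat_lit 881516), .ofNat (nat_lit 651631), .ofNat (nat_lit 903295)⟩, ⟨.ofNat (nat_lit 302621), .ofNat (nat_lit 540545), .ofNat (nat_lit 345754), .ofNat (nat_lit 583678), .ofNat (nat_lit 304717), .ofNat (nat_lit 530543), .ofNat (nat_lit 348304), .ofNat (nat_lit 574129)⟩⟩, [⟨nat_lit 4, nat_lit 100, nat_lit 81, nat_lit 92, nat_lit 386434100⟩, ⟨nat_lit 7, nat_lit 82, nat_lit 100, nat_lit 92, nat_lit 97875232⟩]⟩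
noncomputable def p088_l41 : Lf2 := ⟨nat_lit 0, nat_lit 20, [nat_lit 5, nat_lit 5, nat_lit 5, nat_lit 20], false, nat_lit 160, nat_lit 276, nat_lit 0, nat_lit 352, ⟨nat_lit 611, nat_lit 389, nat_lit 0, nat_lit 6, nat_lit 302, nat_lit 389, nat_lit 167, nat_lit 0, nat_lit 0, nat_lit 0, nat_lit 0, nat_lit 0, nat_lit 0, nat_lit 0, nat_lit 0, nat_lit 5000000, true, true⟩,
 nat_lit 7695, nat_lit 0, nat_lit 0, nat_lit 0, nat_lit 5234, nat_lit 4479, nat_lit 0, nat_lit 0, nat_lit 0, nat_lit 455, nat_lit 0, nat_lit 0, nat_lit 0, nat_lit 0, nat_lit 0, nat_lit 306200, nat_lit 0, nat_lit 0, [(nat_lit 22, [(nat_lit 1, nat_lit 138), (nat_lit 2, nat_lit 251)])],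
 ⟨p088_k8, nat_lit 0, nat_lit 0, nat_lit 193, nat_lit 0, nat_lit 297666, [nat_lit 1779072534, nat_lit 3077524800, nat_lit 4089460000], [], [nat_lit 24999883596, nat_lit 26095633248, nat_lit 31462120923, nat_lit 32337053537, nat_lit 27494756176, nat_lit 28521312446, nat_lit 32953900599, nat_lit 33712141850], nat_lit 1271250, nat_lit 1271250, nat_lit 1271250, nat_lit 1271250, nat_lit 1100001, nat_lit 2093250, [nat_lit 490000, nat_lit 1100000, nat_lit 1785000], [nat_lit 34, nat_lit 40, nat_lit 40, nat_lit 80, nat_lit 7, nat_lit 289, nat_lit 75, nat_lit 8]⟩, ⟨p088_k10, nat_lit 0, nat_lit 0, nat_lit 439, nat_lit 0, nat_lit 454615, [nat_lit 2864368000, nat_lit 4868448000, nat_lit 7253792000], [], [nat_lit 21506653851, nat_lit 21822774233, nat_lit 24485362457, nat_lit 24640184438, nat_lit 20284308290, nat_lit 20396481635, nat_lit 21864990412, nat_lit 21924128955], nat_lit 1271250, nat_lit 1271250, nat_lit 1271250, nat_lit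 1271250, nat_lit 0, nat_lit 2486000, [nat_lit 1100000, nat_lit 1785000, nat_lit 1271250], [nat_lit 21, nat_lit 40, nat_lit 40, nat_lit 80, nat_lit 14, nat_lit 538, nat_lit 300, nat_lit 13]⟩,
 ⟨nat_lit 3162, nat_lit 3873, ⟨.ofNat (nat_lit 629847), .ofNat (nat_lit 868630), .ofNat (nat_lit 651611), .ofNat (nat_lit 890423), .ofNat (nat_lit 627364), .ofNat (nat_lit 852944), .ofNat (nat_lit 649490), .ofNat (nat_lit 875099)⟩, ⟨.ofNat (nat_lit 304717), .ofNat (nat_lit 491830), .ofNat (nat_lit 348304), .ofNat (nat_lit 535416), .ofNat (nat_lit 306116), .ofNat (nat_lit 482881), .ofNat (nat_lit 350426), .ofNat (nat_lit 527190)⟩⟩, [⟨nat_lit 4, nat_lit 100, nat_lit 67, nat_lit 88, nat_lit 385909854⟩, ⟨nat_lit 7, nat_lit 82, nat_lit 100, nat_lit 92, nat_lit 86439362⟩]⟩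
noncomputable def b_V_800_600_20_45 : St := ⟨true, nat_lit 1, nat_lit 2, nat_lit 2, nat_lit 120, nat_lit 320, nat_lit 360, nat_lit 240, nat_lit 280, nat_lit 64, nat_lit 396, nat_lit 80, nat_lit 120, nat_lit 0, nat_lit 300, nat_lit 0, nat_lit 364, nat_lit 40, nat_lit 80, nat_lit 0, nat_lit 0, nat_lit 0, nat_lit 0⟩
theorem d_V_800_600_20_45 (h : EB TB.env) : Dead b_V_800_600_20_45 := chkB_sound0 h (T :=
(.st (nat_lit 1)
(.spl (nat_lit 2) (nat_lit 240)
(.spl (nat_lit 4) (nat_lit 160)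
(.leaf p088_l30)
(.leaf p088_l31))
(.spl (nat_lit 5) (nat_lit 160)
(.leaf p088_l32)
(.leaf p088_l33)))
(.spl (nat_lit 2) (nat_lit 120)
(.leaf p088_l34)
(.spl (nat_lit 2) (nat_lit 240)
(.spl (nat_lit 0) (nat_lit 340)
(.leaf p088_l35)
(.trX (nat_lit 16) (nat_lit 77) (nat_lit 100) (nat_lit 99) (nat_lit 276) (.leaf p088_l36)))
(.spl (nat_lit 4) (nat_lit 160)
(.leaf p088_l37)
(.spl (nat_lit 1) (nat_lit 260)
(.trX (nat_lit 13) (nat_lit 84) (nat_lit 35) (nat_lit 100) (nat_lit 392) (.spl (nat_lit 0) (nat_lit 340)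
(.leaf p088_l38)
(.trX (nat_lit 13) (nat_lit 75) (nat_lit 48) (nat_lit 100) (nat_lit 380) (.trX (nat_lit 16) (nat_lit 77) (nat_lit 100) (nat_lit 99) (nat_lit 276) (.leaf p088_l39)))))
(.trX (nat_lit 19) (nat_lit 100) (nat_lit 69) (nat_lit 96) (nat_lit 352) (.spl (nat_lit 0) (nat_lit 340)
(.leaf p088_l40)
(.trX (nat_lit 13) (nat_lit 78) (nat_lit 39) (nat_lit 100) (nat_lit 388) (.trX (nat_lit 16) (nat_lit 77) (nat_lit 100) (nat_lit 99) (nat_lit 276) (.leaf p088_l41))))))))))) (by decide +kernel)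
noncomputable def p088_l42 : Lf2 := ⟨nat_lit 0, nat_lit 22, [nat_lit 146, nat_lit 5, nat_lit 5, nat_lit 20], true, nat_lit 0, nat_lit 160, nat_lit 0, nat_lit 364, ⟨nat_lit 0, nat_lit 0, nat_lit 1000, nat_lit 6, nat_lit 168, nat_lit 532, nat_lit 65, nat_lit 1000, nat_lit 40017, nat_lit 264, nat_lit 19503, nat_lit 247, nat_lit 56985151, nat_lit 0, nat_lit 0, nat_lit 2108988, false, false⟩,
 nat_lit 0, nat_lit 0, nat_lit 0, nat_lit 9906, nat_lit 2662, nat_lit 0, nat_lit 50, nat_lit 0, nat_lit 0, nat_lit 0, nat_lit 0, nat_lit 0, nat_lit 0, nat_lit 0, nat_lit 126, nat_lit 400000, nat_lit 0, nat_lit 0, [(nat_lit 20, [(nat_lit 5, nat_lit 1000)])],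
 ⟨p088_k18, nat_lit 0, nat_lit 0, nat_lit 209, nat_lit 0, nat_lit 0, [nat_lit 1936800001, nat_lit 1581600001, nat_lit 184400000], [], [nat_lit 16258221362, nat_lit 17557158847, nat_lit 17159505860, nat_lit 18207710736, nat_lit 16604923392, nat_lit 17608866292, nat_lit 17597066492, nat_lit 18543786735], nat_lit 0, nat_lit 0, nat_lit 0, nat_lit 0, nat_lit 0, nat_lit 0, [], [nat_lit 27, nat_lit 40, nat_lit 40, nat_lit 80, nat_lit 13, nat_lit 317, nat_lit 100, nat_lit 9]⟩, C1.Rw.none,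
 ⟨nat_lit 3872, nat_lit 4473, ⟨.ofNat (nat_lit 311945), .ofNat (nat_lit 475111), .ofNat (nat_lit 355043), .ofNat (nat_lit 518209), .ofNat (nat_lit 324151), .ofNat (nat_lit 479021), .ofNat (nat_lit 367703), .ofNat (nat_lit 522572)⟩, ⟨.ofNat (nat_lit 0), .ofNat (nat_lit 302621), .ofNat (nat_lit 0), .ofNat (nat_lit 345754), .ofNat (nat_lit 0), .ofNat (nat_lit 304717), .ofNat (nat_lit 0), .ofNat (nat_lit 348304)⟩⟩, [⟨nat_lit 0, nat_lit 99, nat_lit 77, nat_lit 100, nat_lit 24301337⟩]⟩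
noncomputable def p088_l43 : Lf2 := ⟨nat_lit 0, nat_lit 22, [nat_lit 146, nat_lit 5, nat_lit 5, nat_lit 20], false, nat_lit 0, nat_lit 160, nat_lit 0, nat_lit 364, ⟨nat_lit 1000, nat_lit 0, nat_lit 0, nat_lit 0, nat_lit 0, nat_lit 0, nat_lit 0, nat_lit 0, nat_lit 0, nat_lit 0, nat_lit 0, nat_lit 0, nat_lit 0, nat_lit 0, nat_lit 0, nat_lit 0, false, false⟩,
 nat_lit 0, nat_lit 0, nat_lit 0, nat_lit 34383, nat_lit 6480, nat_lit 9938, nat_lit 972, nat_lit 0, nat_lit 0, nat_lit 1189, nat_lit 0, nat_lit 0, nat_lit 0, nat_lit 0, nat_lit 0, nat_lit 0, nat_lit 0, nat_lit 0, [],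
 ⟨p088_k18, nat_lit 0, nat_lit 0, nat_lit 178, nat_lit 0, nat_lit 0, [nat_lit 2032000001, nat_lit 4688000000, nat_lit 9842000000], [], [nat_lit 22417877980, nat_lit 24256497340, nat_lit 25121210400, nat_lit 27531209120, nat_lit 18020504380, nat_lit 19569473180, nat_lit 20442544640, nat_lit 22150137200], nat_lit 0, nat_lit 0, nat_lit 0, nat_lit 0, nat_lit 0, nat_lit 0, [], [nat_lit 27, nat_lit 40, nat_lit 40, nat_lit 80, nat_lit 13, nat_lit 317, nat_lit 100, nat_lit 9]⟩, ⟨p088_k19, nat_lit 0, nat_lit 0, nat_lit 249, nat_lit 0, nat_lit 0, [nat_lit 4688000000, nat_lit 7968000000, nat_lit 14058000000], [], [nat_lit 28015267180, nat_lit 30646989620, nat_lit 30119647108, nat_lit 32243432220, nat_lit 28200000217, nat_lit 29163965174, nat_lit 28598358112, nat_lit 30675675270], nat_lit 0, nat_lit 0, nat_lit 0, nat_lit 0, nat_lit 0, nat_lit 0, [], [nat_lit 37, nat_lit 40, nat_lit 40, nat_lit 80, nat_lit 28, nat_lit 456,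 nat_lit 225, nat_lit 11]⟩,
 zbF0, [⟨nat_lit 7, nat_lit 77, nat_lit 100, nat_lit 91, nat_lit 193243027⟩]⟩
noncomputable def p088_l44 : Lf2 := ⟨nat_lit 1, nat_lit 30, [nat_lit 15, nat_lit 5, nat_lit 5, nat_lit 20], false, nat_lit 0, nat_lit 160, nat_lit 0, nat_lit 364, zbN0,
 nat_lit 0, nat_lit 0, nat_lit 0, nat_lit 0, nat_lit 0, nat_lit 0, nat_lit 0, nat_lit 0, nat_lit 0, nat_lit 0, nat_lit 0, nat_lit 0, nat_lit 0, nat_lit 0, nat_lit 0, nat_lit 0, nat_lit 0, nat_lit 0, [],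
 C1.Rw.none, C1.Rw.none,
 zbF0, []⟩
noncomputable def p088_l45 : Lf2 := ⟨nat_lit 0, nat_lit 25, [nat_lit 44, nat_lit 5, nat_lit 5, nat_lit 20], true, nat_lit 0, nat_lit 80, nat_lit 0, nat_lit 352, ⟨nat_lit 0, nat_lit 0, nat_lit 1000, nat_lit 6, nat_lit 178, nat_lit 1000, nat_lit 38, nat_lit 1000, nat_lit 13067, nat_lit 243, nat_lit 15045, nat_lit 245, nat_lit 55939096, nat_lit 0, nat_lit 0, nat_lit 2240056, false, false⟩,
 nat_lit 0, nat_lit 0, nat_lit 0, nat_lit 8284, nat_lit 2601, nat_lit 0, nat_lit 0, nat_lit 0, nat_lit 0, nat_lit 0, nat_lit 0, nat_lit 0, nat_lit 0, nat_lit 0, nat_lit 150, nat_lit 400000, nat_lit 0, nat_lit 0, [(nat_lit 23, [(nat_lit 5, nat_lit 1000)])],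
 ⟨p088_k20, nat_lit 0, nat_lit 0, nat_lit 203, nat_lit 0, nat_lit 0, [nat_lit 2182400000, nat_lit 1335600000, nat_lit 378800000], [], [nat_lit 17511698644, nat_lit 18136496615, nat_lit 18402230382, nat_lit 18921693831, nat_lit 16927483461, nat_lit 17461504983, nat_lit 17843218264, nat_lit 18333930608], nat_lit 0, nat_lit 0, nat_lit 0, nat_lit 0, nat_lit 0, nat_lit 0, [], [nat_lit 27, nat_lit 40, nat_lit 40, nat_lit 80, nat_lit 13, nat_lit 272, nat_lit 60, nat_lit 8]⟩, C1.Rw.none,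
 ⟨nat_lit 3535, nat_lit 3873, ⟨.ofNat (nat_lit 362897), .ofNat (nat_lit 479046), .ofNat (nat_lit 406471), .ofNat (nat_lit 522620), .ofNat (nat_lit 368144), .ofNat (nat_lit 481125), .ofNat (nat_lit 412037), .ofNat (nat_lit 525018)⟩, ⟨.ofNat (nat_lit 0), .ofNat (nat_lit 175674), .ofNat (nat_lit 0), .ofNat (nat_lit 197467), .ofNat (nat_lit 0), .ofNat (nat_lit 179999), .ofNat (nat_lit 0), .ofNat (nat_lit 200000)⟩⟩, [⟨nat_lit 3, nat_lit 100, nat_lit 82, nat_lit 27, nat_lit 161610440⟩]⟩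
noncomputable def p088_l46 : Lf2 := ⟨nat_lit 0, nat_lit 25, [nat_lit 44, nat_lit 5, nat_lit 5, nat_lit 20], true, nat_lit 4, nat_lit 80, nat_lit 0, nat_lit 352, ⟨nat_lit 0, nat_lit 160, nat_lit 840, nat_lit 6, nat_lit 183, nat_lit 1000, nat_lit 40, nat_lit 840, nat_lit 15000, nat_lit 245, nat_lit 16148, nat_lit 244, nat_lit 54208601, nat_lit 11644378, nat_lit 1147021, nat_lit 2816267, false, false⟩,
 nat_lit 0, nat_lit 0, nat_lit 0, nat_lit 5875, nat_lit 3040, nat_lit 0, nat_lit 0, nat_lit 0, nat_lit 0, nat_lit 0, nat_lit 0, nat_lit 0, nat_lit 0, nat_lit 0, nat_lit 62, nat_lit 250000, nat_lit 0, nat_lit 0, [(nat_lit 23, [(nat_lit 0, nat_lit 160), (nat_lit 4, nat_lit 840)])],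
 ⟨p088_k21, nat_lit 0, nat_lit 0, nat_lit 173, nat_lit 0, nat_lit 0, [nat_lit 2007488000, nat_lit 959232000, nat_lit 46784000], [], [nat_lit 19121526707, nat_lit 19935925145, nat_lit 19857711007, nat_lit 20495810680, nat_lit 18082316880, nat_lit 18730042160, nat_lit 18993422440, nat_lit 19709097440], nat_lit 0, nat_lit 0, nat_lit 0, nat_lit 0, nat_lit 0, nat_lit 0, [], [nat_lit 34, nat_lit 40, nat_lit 40, nat_lit 80, nat_lit 7, nat_lit 272, nat_lit 60, nat_lit 9]⟩, C1.Rw.none,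
 ⟨nat_lit 3162, nat_lit 3536, ⟨.ofNat (nat_lit 386958), .ofNat (nat_lit 481116), .ofNat (nat_lit 430847), .ofNat (nat_lit 525005), .ofNat (nat_lit 391883), .ofNat (nat_lit 483329), .ofNat (nat_lit 436176), .ofNat (nat_lit 527622)⟩, ⟨.ofNat (nat_lit 10000), .ofNat (nat_lit 179999), .ofNat (nat_lit 10000), .ofNat (nat_lit 200000), .ofNat (nat_lit 10000), .ofNat (nat_lit 184209), .ofNat (nat_lit 10000), .ofNat (nat_lit 200000)⟩⟩, [⟨nat_lit 3, nat_lit 100, nat_lit 69, nat_lit 45, nat_lit 225522781⟩]⟩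
noncomputable def p088_l47 : Lf2 := ⟨nat_lit 1, nat_lit 25, [nat_lit 44, nat_lit 5, nat_lit 5, nat_lit 20], false, nat_lit 0, nat_lit 80, nat_lit 0, nat_lit 352, zbN0,
 nat_lit 0, nat_lit 0, nat_lit 0, nat_lit 0, nat_lit 0, nat_lit 0, nat_lit 0, nat_lit 0, nat_lit 0, nat_lit 0, nat_lit 0, nat_lit 0, nat_lit 0, nat_lit 0, nat_lit 0, nat_lit 0, nat_lit 0, nat_lit 0, [],
 C1.Rw.none, C1.Rw.none,
 zbF0, []⟩
noncomputable def p088_l48 : Lf2 := ⟨nat_lit 0, nat_lit 25, [nat_lit 44, nat_lit 5, nat_lit 5, nat_lit 20], true, nat_lit 4, nat_lit 80, nat_lit 0, nat_lit 364, ⟨nat_lit 0, nat_lit 0, nat_lit 1000, nat_lit 6, nat_lit 178, nat_lit 1000, nat_lit 42, nat_lit 1000, nat_lit 16017, nat_lit 246, nat_lit 15045, nat_lit 245, nat_lit 54671707, nat_lit 0, nat_lit 0, nat_lit 2777049, false, false⟩,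
 nat_lit 0, nat_lit 0, nat_lit 0, nat_lit 8670, nat_lit 2617, nat_lit 0, nat_lit 0, nat_lit 0, nat_lit 0, nat_lit 0, nat_lit 0, nat_lit 0, nat_lit 0, nat_lit 0, nat_lit 150, nat_lit 400000, nat_lit 0, nat_lit 0, [(nat_lit 23, [(nat_lit 5, nat_lit 1000)])],
 ⟨p088_k20, nat_lit 0, nat_lit 0, nat_lit 201, nat_lit 0, nat_lit 0, [nat_lit 2182400000, nat_lit 1335600000, nat_lit 378800000], [], [nat_lit 17468855444, nat_lit 18084647676, nat_lit 18356656034, nat_lit 18875893828, nat_lit 16902994821, nat_lit 17438300861, nat_lit 17815056088, nat_lit 18306887536], nat_lit 0, nat_lit 0, nat_lit 0, nat_lit 0, nat_lit 0, nat_lit 0, [], [nat_lit 27, nat_lit 40, nat_lit 40, nat_lit 80, nat_lit 13, nat_lit 272, nat_lit 60, nat_lit 8]⟩, C1.Rw.none,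
 ⟨nat_lit 3535, nat_lit 3873, ⟨.ofNat (nat_lit 362897), .ofNat (nat_lit 479046), .ofNat (nat_lit 406471), .ofNat (nat_lit 522620), .ofNat (nat_lit 368144), .ofNat (nat_lit 481125), .ofNat (nat_lit 412037), .ofNat (nat_lit 525018)⟩, ⟨.ofNat (nat_lit 10000), .ofNat (nat_lit 197467), .ofNat (nat_lit 10000), .ofNat (nat_lit 200000), .ofNat (nat_lit 10000), .ofNat (nat_lit 200000), .ofNat (nat_lit 10000), .ofNat (nat_lit 200000)⟩⟩, [⟨nat_lit 3, nat_lit 100, nat_lit 77, nat_lit 38, nat_lit 208403847⟩]⟩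
noncomputable def p088_l49 : Lf2 := ⟨nat_lit 0, nat_lit 25, [nat_lit 44, nat_lit 5, nat_lit 5, nat_lit 20], true, nat_lit 8, nat_lit 80, nat_lit 0, nat_lit 364, ⟨nat_lit 0, nat_lit 160, nat_lit 840, nat_lit 6, nat_lit 183, nat_lit 1000, nat_lit 44, nat_lit 840, nat_lit 18150, nat_lit 248, nat_lit 16148, nat_lit 244, nat_lit 54039694, nat_lit 11646330, nat_lit 1313976, nat_lit 2872611, false, false⟩,
 nat_lit 0, nat_lit 0, nat_lit 0, nat_lit 6206, nat_lit 3061, nat_lit 0, nat_lit 0, nat_lit 0, nat_lit 0, nat_lit 0, nat_lit 0, nat_lit 0, nat_lit 0, nat_lit 0, nat_lit 62, nat_lit 250000, nat_lit 0, nat_lit 0, [(nat_lit 23, [(nat_lit 0, nat_lit 160), (nat_lit 4, nat_lit 840)])],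
 ⟨p088_k21, nat_lit 0, nat_lit 0, nat_lit 170, nat_lit 0, nat_lit 0, [nat_lit 2007488000, nat_lit 959232000, nat_lit 46784000], [], [nat_lit 19061625606, nat_lit 19870593108, nat_lit 19795835652, nat_lit 20434545818, nat_lit 18062355530, nat_lit 18712123994, nat_lit 18957629746, nat_lit 19675691396], nat_lit 0, nat_lit 0, nat_lit 0, nat_lit 0, nat_lit 0, nat_lit 0, [], [nat_lit 34, nat_lit 40, nat_lit 40, nat_lit 80, nat_lit 7, nat_lit 272, nat_lit 60, nat_lit 9]⟩, C1.Rw.none,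
 ⟨nat_lit 3162, nat_lit 3536, ⟨.ofNat (nat_lit 386958), .ofNat (nat_lit 481116), .ofNat (nat_lit 430847), .ofNat (nat_lit 525005), .ofNat (nat_lit 391883), .ofNat (nat_lit 483329), .ofNat (nat_lit 436176), .ofNat (nat_lit 527622)⟩, ⟨.ofNat (nat_lit 20000), .ofNat (nat_lit 200000), .ofNat (nat_lit 20000), .ofNat (nat_lit 200000), .ofNat (nat_lit 20000), .ofNat (nat_lit 200000), .ofNat (nat_lit 20000), .ofNat (nat_lit 200000)⟩⟩, [⟨nat_lit 3, nat_lit 100, nat_lit 65, nat_lit 54, nat_lit 272254777⟩]⟩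
noncomputable def p088_l50 : Lf2 := ⟨nat_lit 1, nat_lit 30, [nat_lit 15, nat_lit 5, nat_lit 5, nat_lit 20], false, nat_lit 4, nat_lit 80, nat_lit 0, nat_lit 364, zbN0,
 nat_lit 0, nat_lit 0, nat_lit 0, nat_lit 0, nat_lit 0, nat_lit 0, nat_lit 0, nat_lit 0, nat_lit 0, nat_lit 0, nat_lit 0, nat_lit 0, nat_lit 0, nat_lit 0, nat_lit 0, nat_lit 0, nat_lit 0, nat_lit 0, [],
 C1.Rw.none, C1.Rw.none,
 zbF0, []⟩
noncomputable def p088_l51 : Lf2 := ⟨nat_lit 0, nat_lit 30, [nat_lit 15, nat_lit 5, nat_lit 5, nat_lit 20], true, nat_lit 80, nat_lit 160, nat_lit 0, nat_lit 364, ⟨nat_lit 0, nat_lit 0, nat_lit 1000, nat_lit 6, nat_lit 179, nat_lit 1000, nat_lit 103, nat_lit 1000, nat_lit 101400, nat_lit 293, nat_lit 15897, nat_lit 244, nat_lit 51082439, nat_lit 0, nat_lit 0, nat_lit 3686717, false, false⟩,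
 nat_lit 0, nat_lit 0, nat_lit 0, nat_lit 7704, nat_lit 3983, nat_lit 0, nat_lit 0, nat_lit 0, nat_lit 0, nat_lit 0, nat_lit 0, nat_lit 0, nat_lit 0, nat_lit 0, nat_lit 105, nat_lit 278200, nat_lit 0, nat_lit 0, [(nat_lit 23, [(nat_lit 4, nat_lit 812), (nat_lit 5, nat_lit 188)])],
 ⟨p088_k22, nat_lit 0, nat_lit 0, nat_lit 149, nat_lit 0, nat_lit 0, [nat_lit 2242041601, nat_lit 636265600], [], [nat_lit 17830872662, nat_lit 19285904096, nat_lit 18286015454, nat_lit 19610435844, nat_lit 18284362042, nat_lit 19596756892, nat_lit 18694918978, nat_lit 19921262296], nat_lit 0, nat_lit 0, nat_lit 0, nat_lit 0, nat_lit 0, nat_lit 0, [], [nat_lit 94, nat_lit 40, nat_lit 40, nat_lit 80, nat_lit 95, nat_lit 317, nat_lit 100, nat_lit 9]⟩, C1.Rw.none,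
 ⟨nat_lit 3162, nat_lit 3873, ⟨.ofNat (nat_lit 362778), .ofNat (nat_lit 478975), .ofNat (nat_lit 406307), .ofNat (nat_lit 522504), .ofNat (nat_lit 373492), .ofNat (nat_lit 483267), .ofNat (nat_lit 417744), .ofNat (nat_lit 527519)⟩, ⟨.ofNat (nat_lit 175674), .ofNat (nat_lit 304717), .ofNat (nat_lit 200000), .ofNat (nat_lit 348304), .ofNat (nat_lit 184209), .ofNat (nat_lit 306116), .ofNat (nat_lit 200000), .ofNat (nat_lit 350426)⟩⟩, [⟨nat_lit 0, nat_lit 94, nat_lit 62, nat_lit 100, nat_lit 28559255⟩]⟩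
noncomputable def p088_l52 : Lf2 := ⟨nat_lit 0, nat_lit 30, [nat_lit 15, nat_lit 5, nat_lit 5, nat_lit 20], false, nat_lit 0, nat_lit 160, nat_lit 0, nat_lit 160, ⟨nat_lit 1000, nat_lit 0, nat_lit 0, nat_lit 0, nat_lit 0, nat_lit 0, nat_lit 0, nat_lit 0, nat_lit 0, nat_lit 0, nat_lit 0, nat_lit 0, nat_lit 0, nat_lit 0, nat_lit 0, nat_lit 0, false, false⟩,
 nat_lit 0, nat_lit 0, nat_lit 0, nat_lit 42374, nat_lit 6239, nat_lit 6120, nat_lit 755, nat_lit 0, nat_lit 0, nat_lit 1347, nat_lit 0, nat_lit 0, nat_lit 0, nat_lit 0, nat_lit 0, nat_lit 0, nat_lit 0, nat_lit 0, [],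
 ⟨p088_k23, nat_lit 0, nat_lit 0, nat_lit 188, nat_lit 0, nat_lit 0, [nat_lit 2032000001, nat_lit 4688000000, nat_lit 9842000000], [], [nat_lit 24869397737, nat_lit 26665557235, nat_lit 27115871166, nat_lit 29466363612, nat_lit 20463739149, nat_lit 21978628139, nat_lit 22217060209, nat_lit 23702298540], nat_lit 0, nat_lit 0, nat_lit 0, nat_lit 0, nat_lit 0, nat_lit 0, [], [nat_lit 27, nat_lit 40, nat_lit 40, nat_lit 80, nat_lit 13, nat_lit 317, nat_lit 100, nat_lit 9]⟩, ⟨p088_k24, nat_lit 0, nat_lit 0, nat_lit 408, nat_lit 0, nat_lit 0, [nat_lit 4688000000, nat_lit 7968000000, nat_lit 16400000000], [], [nat_lit 26272282275, nat_lit 27974570435, nat_lit 27776693955, nat_lit 29199554595, nat_lit 22024958435, nat_lit 23288591395, nat_lit 23735310560, nat_lit 25597313280], nat_lit 0, nat_lit 0, nat_lit 0, nat_lit 0, nat_lit 0, nat_lit 0, [], [nat_lit 122, nat_lit 40, nat_lit 40, nat_lit 80, nat_lit 111, nat_lit 401,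 nat_lit 175, nat_lit 9]⟩,
 zbF0, []⟩
noncomputable def p088_l53 : Lf2 := ⟨nat_lit 0, nat_lit 30, [nat_lit 15, nat_lit 5, nat_lit 5, nat_lit 20], false, nat_lit 0, nat_lit 160, nat_lit 160, nat_lit 364, ⟨nat_lit 1000, nat_lit 0, nat_lit 0, nat_lit 0, nat_lit 0, nat_lit 0, nat_lit 0, nat_lit 0, nat_lit 0, nat_lit 0, nat_lit 0, nat_lit 0, nat_lit 0, nat_lit 0, nat_lit 0, nat_lit 0, false, false⟩,
 nat_lit 0, nat_lit 0, nat_lit 0, nat_lit 26380, nat_lit 6239, nat_lit 6427, nat_lit 0, nat_lit 0, nat_lit 0, nat_lit 0, nat_lit 0, nat_lit 0, nat_lit 0, nat_lit 0, nat_lit 0, nat_lit 0, nat_lit 0, nat_lit 0, [],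
 ⟨p088_k22, nat_lit 0, nat_lit 0, nat_lit 174, nat_lit 0, nat_lit 0, [nat_lit 2032000001, nat_lit 9842000000], [], [nat_lit 33842100862, nat_lit 35638260360, nat_lit 35851675026, nat_lit 37383772660, nat_lit 29436442274, nat_lit 30951331264, nat_lit 31189763334, nat_lit 32487702424], nat_lit 0, nat_lit 0, nat_lit 0, nat_lit 0, nat_lit 0, nat_lit 0, [], [nat_lit 94, nat_lit 40, nat_lit 40, nat_lit 80, nat_lit 95, nat_lit 317, nat_lit 100, nat_lit 9]⟩, ⟨p088_k25, nat_lit 0, nat_lit 0, nat_lit 52, nat_lit 0, nat_lit 0, [nat_lit 4688000000, nat_lit 16400000000], [], [nat_lit 10560909496, nat_lit 13867637592, nat_lit 14632374448, nat_lit 17381524740, nat_lit 24352930917, nat_lit 26436615551, nat_lit 26382662915, nat_lit 28117338072], nat_lit 0, nat_lit 0, nat_lit 0, nat_lit 0, nat_lit 0, nat_lit 0, [], [nat_lit 277, nat_lit 40, nat_lit 40, nat_lit 80, nat_lit 282, nat_lit 456, nat_lit 225, nat_lit 9]⟩,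
 zbF0, [⟨nat_lit 7, nat_lit 77, nat_lit 100, nat_lit 91, nat_lit 597045965⟩]⟩
noncomputable def p088_l54 : Lf2 := ⟨nat_lit 0, nat_lit 25, [nat_lit 44, nat_lit 5, nat_lit 5, nat_lit 20], true, nat_lit 160, nat_lit 280, nat_lit 0, nat_lit 352, ⟨nat_lit 0, nat_lit 0, nat_lit 1000, nat_lit 6, nat_lit 156, nat_lit 1000, nat_lit 165, nat_lit 1000, nat_lit 13067, nat_lit 243, nat_lit 109350, nat_lit 296, nat_lit 48433273, nat_lit 0, nat_lit 0, nat_lit 4192804, false, false⟩,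
 nat_lit 0, nat_lit 0, nat_lit 0, nat_lit 10829, nat_lit 4207, nat_lit 0, nat_lit 0, nat_lit 0, nat_lit 0, nat_lit 0, nat_lit 0, nat_lit 0, nat_lit 0, nat_lit 0, nat_lit 74, nat_lit 239360, nat_lit 0, nat_lit 0, [(nat_lit 20, [(nat_lit 3, nat_lit 266), (nat_lit 4, nat_lit 734)]), (nat_lit 23, [(nat_lit 3, nat_lit 266), (nat_lit 4, nat_lit 734)])],
 ⟨p088_k26, nat_lit 0, nat_lit 0, nat_lit 145, nat_lit 0, nat_lit 0, [nat_lit 2428275200, nat_lit 1004084001, nat_lit 360882400], [], [nat_lit 17687106703, nat_lit 20449762099, nat_lit 17457941300, nat_lit 20055395036, nat_lit 21586573169, nat_lit 24819123254, nat_lit 21135335584, nat_lit 24178798582], nat_lit 0, nat_lit 0, nat_lit 0, nat_lit 0, nat_lit 0, nat_lit 0, [], [nat_lit 27, nat_lit 40, nat_lit 40, nat_lit 80, nat_lit 13, nat_lit 317, nat_lit 100, nat_lit 9]⟩, C1.Rw.none,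
 ⟨nat_lit 3162, nat_lit 4473, ⟨.ofNat (nat_lit 311562), .ofNat (nat_lit 406840), .ofNat (nat_lit 354514), .ofNat (nat_lit 449792), .ofNat (nat_lit 336623), .ofNat (nat_lit 422066), .ofNat (nat_lit 380752), .ofNat (nat_lit 466195)⟩, ⟨.ofNat (nat_lit 302621), .ofNat (nat_lit 506556), .ofNat (nat_lit 324188), .ofNat (nat_lit 528122), .ofNat (nat_lit 306116), .ofNat (nat_lit 488976), .ofNat (nat_lit 328271), .ofNat (nat_lit 511131)⟩⟩, [⟨nat_lit 0, nat_lit 100, nat_lit 75, nat_lit 92, nat_lit 342482953⟩, ⟨nat_lit 16, nat_lit 73, nat_lit 100, nat_lit 85, nat_lit 254031903⟩]⟩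
noncomputable def p088_l55 : Lf2 := ⟨nat_lit 0, nat_lit 30, [nat_lit 15, nat_lit 5, nat_lit 5, nat_lit 20], true, nat_lit 160, nat_lit 300, nat_lit 0, nat_lit 364, ⟨nat_lit 0, nat_lit 0, nat_lit 1000, nat_lit 6, nat_lit 156, nat_lit 1000, nat_lit 180, nat_lit 1000, nat_lit 1169, nat_lit 218, nat_lit 109350, nat_lit 296, nat_lit 47199321, nat_lit 0, nat_lit 0, nat_lit 4346545, false, false⟩,
 nat_lit 0, nat_lit 0, nat_lit 0, nat_lit 100000, nat_lit 2859, nat_lit 0, nat_lit 0, nat_lit 0, nat_lit 0, nat_lit 0, nat_lit 0, nat_lit 0, nat_lit 0, nat_lit 0, nat_lit 124, nat_lit 395650, nat_lit 0, nat_lit 0, [(nat_lit 20, [(nat_lit 4, nat_lit 29), (nat_lit 5, nat_lit 971)]), (nat_lit 23, [(nat_lit 4, nat_lit 29), (nat_lit 5, nat_lit 971)])],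
 ⟨p088_k27, nat_lit 0, nat_lit 0, nat_lit 171, nat_lit 0, nat_lit 0, [nat_lit 2035218400, nat_lit 557522000], [], [nat_lit 18431435452, nat_lit 20515381062, nat_lit 18603766728, nat_lit 20498963588, nat_lit 22369372676, nat_lit 24027663267, nat_lit 22291789397, nat_lit 23869124516], nat_lit 0, nat_lit 0, nat_lit 0, nat_lit 0, nat_lit 0, nat_lit 0, [], [nat_lit 190, nat_lit 40, nat_lit 40, nat_lit 80, nat_lit 192, nat_lit 345, nat_lit 125, nat_lit 8]⟩, C1.Rw.none,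
 ⟨nat_lit 3162, nat_lit 4473, ⟨.ofNat (nat_lit 311562), .ofNat (nat_lit 406840), .ofNat (nat_lit 354514), .ofNat (nat_lit 449792), .ofNat (nat_lit 336623), .ofNat (nat_lit 422066), .ofNat (nat_lit 380752), .ofNat (nat_lit 466195)⟩, ⟨.ofNat (nat_lit 324188), .ofNat (nat_lit 562111), .ofNat (nat_lit 345754), .ofNat (nat_lit 583678), .ofNat (nat_lit 328271), .ofNat (nat_lit 541607), .ofNat (nat_lit 350426), .ofNat (nat_lit 563762)⟩⟩, [⟨nat_lit 0, nat_lit 94, nat_lit 62, nat_lit 100, nat_lit 3614090605⟩, ⟨nat_lit 16, nat_lit 75, nat_lit 100, nat_lit 94, nat_lit 219217112⟩]⟩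
noncomputable def p088_l56 : Lf2 := ⟨nat_lit 0, nat_lit 30, [nat_lit 15, nat_lit 5, nat_lit 5, nat_lit 20], true, nat_lit 160, nat_lit 300, nat_lit 0, nat_lit 364, ⟨nat_lit 0, nat_lit 1000, nat_lit 0, nat_lit 6, nat_lit 213, nat_lit 1000, nat_lit 177, nat_lit 0, nat_lit 0, nat_lit 0, nat_lit 0, nat_lit 0, nat_lit 43135268, nat_lit 13685239, nat_lit 10179493, nat_lit 4812761, false, false⟩,
 nat_lit 0, nat_lit 0, nat_lit 0, nat_lit 10096, nat_lit 3274, nat_lit 0, nat_lit 0, nat_lit 0, nat_lit 0, nat_lit 0, nat_lit 0, nat_lit 0, nat_lit 0, nat_lit 0, nat_lit 0, nat_lit 250000, nat_lit 0, nat_lit 0, [(nat_lit 20, [(nat_lit 0, nat_lit 1000)])],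
 ⟨p088_k27, nat_lit 0, nat_lit 0, nat_lit 38, nat_lit 0, nat_lit 0, [nat_lit 1647600001, nat_lit 3602509091], [], [nat_lit 15761104289, nat_lit 17369568281, nat_lit 19427659289, nat_lit 20742776129, nat_lit 21762628883, nat_lit 22998654756, nat_lit 24330547733, nat_lit 25341585169], nat_lit 0, nat_lit 0, nat_lit 0, nat_lit 0, nat_lit 0, nat_lit 0, [], [nat_lit 190, nat_lit 40, nat_lit 40, nat_lit 80, nat_lit 192, nat_lit 373, nat_lit 150, nat_lit 9]⟩, C1.Rw.none,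
 ⟨nat_lit 3872, nat_lit 4473, ⟨.ofNat (nat_lit 407125), .ofNat (nat_lit 611083), .ofNat (nat_lit 450223), .ofNat (nat_lit 654181), .ofNat (nat_lit 414492), .ofNat (nat_lit 608080), .ofNat (nat_lit 458043), .ofNat (nat_lit 651631)⟩, ⟨.ofNat (nat_lit 302621), .ofNat (nat_lit 540545), .ofNat (nat_lit 345754), .ofNat (nat_lit 583678), .ofNat (nat_lit 304717), .ofNat (nat_lit 530543), .ofNat (nat_lit 348304), .ofNat (nat_lit 574129)⟩⟩, [⟨nat_lit 4, nat_lit 100, nat_lit 81, nat_lit 92, nat_lit 185835964⟩]⟩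
noncomputable def p088_l57 : Lf2 := ⟨nat_lit 0, nat_lit 30, [nat_lit 15, nat_lit 5, nat_lit 5, nat_lit 20], true, nat_lit 160, nat_lit 276, nat_lit 0, nat_lit 364, ⟨nat_lit 0, nat_lit 1000, nat_lit 0, nat_lit 6, nat_lit 214, nat_lit 1000, nat_lit 167, nat_lit 0, nat_lit 0, nat_lit 0, nat_lit 0, nat_lit 0, nat_lit 43678265, nat_lit 13892413, nat_lit 9429322, nat_lit 4737662, false, false⟩,
 nat_lit 0, nat_lit 0, nat_lit 0, nat_lit 7411, nat_lit 3172, nat_lit 0, nat_lit 0, nat_lit 0, nat_lit 0, nat_lit 0, nat_lit 0, nat_lit 0, nat_lit 0, nat_lit 0, nat_lit 0, nat_lit 250000, nat_lit 0, nat_lit 0, [(nat_lit 23, [(nat_lit 0, nat_lit 1000)])],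
 ⟨p088_k22, nat_lit 0, nat_lit 0, nat_lit 40, nat_lit 0, nat_lit 0, [nat_lit 1576000001, nat_lit 3132400000], [], [nat_lit 17350883841, nat_lit 18933775617, nat_lit 20718741585, nat_lit 22014717105, nat_lit 21778431018, nat_lit 23069014393, nat_lit 24350002693, nat_lit 25401584752], nat_lit 0, nat_lit 0, nat_lit 0, nat_lit 0, nat_lit 0, nat_lit 0, [], [nat_lit 94, nat_lit 40, nat_lit 40, nat_lit 80, nat_lit 95, nat_lit 373, nat_lit 150, nat_lit 10]⟩, C1.Rw.none,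
 ⟨nat_lit 3162, nat_lit 3873, ⟨.ofNat (nat_lit 414421), .ofNat (nat_lit 608082), .ofNat (nat_lit 457950), .ofNat (nat_lit 651611), .ofNat (nat_lit 422280), .ofNat (nat_lit 605237), .ofNat (nat_lit 466533), .ofNat (nat_lit 649490)⟩, ⟨.ofNat (nat_lit 304717), .ofNat (nat_lit 491830), .ofNat (nat_lit 348304), .ofNat (nat_lit 535416), .ofNat (nat_lit 306116), .ofNat (nat_lit 482881), .ofNat (nat_lit 350426), .ofNat (nat_lit 527190)⟩⟩, [⟨nat_lit 4, nat_lit 100, nat_lit 67, nat_lit 88, nat_lit 246799357⟩]⟩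
noncomputable def p088_l58 : Lf2 := ⟨nat_lit 0, nat_lit 30, [nat_lit 15, nat_lit 5, nat_lit 5, nat_lit 20], false, nat_lit 0, nat_lit 160, nat_lit 0, nat_lit 364, ⟨nat_lit 1000, nat_lit 0, nat_lit 0, nat_lit 0, nat_lit 0, nat_lit 0, nat_lit 0, nat_lit 0, nat_lit 0, nat_lit 0, nat_lit 0, nat_lit 0, nat_lit 0, nat_lit 0, nat_lit 0, nat_lit 0, false, false⟩,
 nat_lit 0, nat_lit 0, nat_lit 0, nat_lit 36182, nat_lit 6305, nat_lit 8054, nat_lit 645, nat_lit 0, nat_lit 0, nat_lit 967, nat_lit 0, nat_lit 0, nat_lit 0, nat_lit 0, nat_lit 0, nat_lit 0, nat_lit 0, nat_lit 0, [],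
 ⟨p088_k28, nat_lit 0, nat_lit 0, nat_lit 233, nat_lit 0, nat_lit 0, [nat_lit 2032000001, nat_lit 4688000000, nat_lit 11872000000], [], [nat_lit 30229081215, nat_lit 31606538575, nat_lit 38509183673, nat_lit 39925932462, nat_lit 25927780295, nat_lit 26919820955, nat_lit 32226061942, nat_lit 32977634472], nat_lit 0, nat_lit 0, nat_lit 0, nat_lit 0, nat_lit 0, nat_lit 0, [], [nat_lit 75, nat_lit 40, nat_lit 40, nat_lit 80, nat_lit 65, nat_lit 373, nat_lit 150, nat_lit 9]⟩, ⟨p088_k24, nat_lit 0, nat_lit 0, nat_lit 308, nat_lit 0, nat_lit 0, [nat_lit 4688000000, nat_lit 7968000000, nat_lit 16400000000], [], [nat_lit 35919483567, nat_lit 36971606223, nat_lit 42965068316, nat_lit 43620899353, nat_lit 32704399887, nat_lit 32991188588, nat_lit 37125919542, nat_lit 37998901291], nat_lit 0, nat_lit 0, nat_lit 0, nat_lit 0, nat_lit 0, nat_lit 0, [], [nat_lit 122, nat_lit 40, nat_lit 40, nat_lit 80, nat_lit 111, nat_lit 538,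 nat_lit 300, nat_lit 11]⟩,
 zbF0, [⟨nat_lit 7, nat_lit 77, nat_lit 100, nat_lit 91, nat_lit 130839261⟩]⟩
noncomputable def p088_l59 : Lf2 := ⟨nat_lit 0, nat_lit 30, [nat_lit 15, nat_lit 5, nat_lit 5, nat_lit 20], false, nat_lit 0, nat_lit 160, nat_lit 0, nat_lit 364, ⟨nat_lit 1000, nat_lit 0, nat_lit 0, nat_lit 0, nat_lit 0, nat_lit 0, nat_lit 0, nat_lit 0, nat_lit 0, nat_lit 0, nat_lit 0, nat_lit 0, nat_lit 0, nat_lit 0, nat_lit 0, nat_lit 0, false, false⟩,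
 nat_lit 0, nat_lit 0, nat_lit 0, nat_lit 23068, nat_lit 7918, nat_lit 11101, nat_lit 131, nat_lit 0, nat_lit 0, nat_lit 745, nat_lit 0, nat_lit 0, nat_lit 0, nat_lit 0, nat_lit 0, nat_lit 0, nat_lit 0, nat_lit 0, [],
 ⟨p088_k29, nat_lit 0, nat_lit 0, nat_lit 220, nat_lit 0, nat_lit 0, [nat_lit 2032000001, nat_lit 6250000000, nat_lit 9842000000], [], [nat_lit 35118152887, nat_lit 36888342795, nat_lit 43389407637, nat_lit 44537577299, nat_lit 28799504231, nat_lit 29952506619, nat_lit 35478615819, nat_lit 36459408479], nat_lit 0, nat_lit 0, nat_lit 0, nat_lit 0, nat_lit 0, nat_lit 0, [], [nat_lit 61, nat_lit 40, nat_lit 40, nat_lit 80, nat_lit 1, nat_lit 373, nat_lit 150, nat_lit 10]⟩, ⟨p088_k30, nat_lit 0, nat_lit 0, nat_lit 318, nat_lit 0, nat_lit 0, [nat_lit 4688000000, nat_lit 9842000000, nat_lit 16400000000], [], [nat_lit 37665864887, nat_lit 38486072695, nat_lit 46149271873, nat_lit 46492241508, nat_lit 31793750000,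 nat_lit 32015010058, nat_lit 39524229008, nat_lit 40019184617], nat_lit 0, nat_lit 0, nat_lit 0, nat_lit 0, nat_lit 0, nat_lit 0, [], [nat_lit 83, nat_lit 40, nat_lit 40, nat_lit 80, nat_lit 73, nat_lit 538, nat_lit 300, nat_lit 11]⟩,
 zbF0, [⟨nat_lit 19, nat_lit 100, nat_lit 72, nat_lit 89, nat_lit 25539369⟩, ⟨nat_lit 22, nat_lit 89, nat_lit 100, nat_lit 85, nat_lit 111689258⟩]⟩
noncomputable def p088_l60 : Lf2 := ⟨nat_lit 0, nat_lit 30, [nat_lit 15, nat_lit 5, nat_lit 5, nat_lit 20], false, nat_lit 0, nat_lit 160, nat_lit 0, nat_lit 352, ⟨nat_lit 1000, nat_lit 0, nat_lit 0, nat_lit 0, nat_lit 0, nat_lit 0, nat_lit 0, nat_lit 0, nat_lit 0, nat_lit 0, nat_lit 0, nat_lit 0, nat_lit 0, nat_lit 0, nat_lit 0, nat_lit 0, false, false⟩,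
 nat_lit 0, nat_lit 0, nat_lit 0, nat_lit 13857, nat_lit 6837, nat_lit 12938, nat_lit 260, nat_lit 0, nat_lit 0, nat_lit 86, nat_lit 0, nat_lit 0, nat_lit 0, nat_lit 0, nat_lit 0, nat_lit 0, nat_lit 0, nat_lit 0, [],
 ⟨p088_k29, nat_lit 0, nat_lit 0, nat_lit 222, nat_lit 0, nat_lit 0, [nat_lit 2032000001, nat_lit 6250000000, nat_lit 9842000000], [], [nat_lit 33268084250, nat_lit 34538537280, nat_lit 41151267714, nat_lit 42189207062, nat_lit 28623350854, nat_lit 29690774796, nat_lit 34575947380, nat_lit 35467137580], nat_lit 0, nat_lit 0, nat_lit 0, nat_lit 0, nat_lit 0, nat_lit 0, [], [nat_lit 61, nat_lit 40, nat_lit 40, nat_lit 80, nat_lit 1, nat_lit 373, nat_lit 150, nat_lit 10]⟩, ⟨p088_k31, nat_lit 0, nat_lit 0, nat_lit 287, nat_lit 0, nat_lit 0, [nat_lit 4688000000, nat_lit 9842000000, nat_lit 14058000000], [], [nat_lit 43810636164, nat_lit 45025114720, nat_lit 55335435982, nat_lit 55812220303, nat_lit 37195499351,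 nat_lit 37568881066, nat_lit 42040688841, nat_lit 42494768023], nat_lit 0, nat_lit 0, nat_lit 0, nat_lit 0, nat_lit 0, nat_lit 0, [], [nat_lit 56, nat_lit 40, nat_lit 40, nat_lit 80, nat_lit 32, nat_lit 538, nat_lit 300, nat_lit 12]⟩,
 zbF0, [⟨nat_lit 22, nat_lit 87, nat_lit 100, nat_lit 84, nat_lit 5731478⟩]⟩
noncomputable def p088_l61 : Lf2 := ⟨nat_lit 0, nat_lit 30, [nat_lit 15, nat_lit 5, nat_lit 5, nat_lit 20], false, nat_lit 160, nat_lit 300, nat_lit 0, nat_lit 364, ⟨nat_lit 1000, nat_lit 0, nat_lit 0, nat_lit 0, nat_lit 0, nat_lit 0, nat_lit 0, nat_lit 0, nat_lit 0, nat_lit 0, nat_lit 0, nat_lit 0, nat_lit 0, nat_lit 0, nat_lit 0, nat_lit 0, false, false⟩,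
 nat_lit 0, nat_lit 0, nat_lit 0, nat_lit 19368, nat_lit 6579, nat_lit 10141, nat_lit 0, nat_lit 0, nat_lit 0, nat_lit 652, nat_lit 0, nat_lit 0, nat_lit 0, nat_lit 0, nat_lit 0, nat_lit 0, nat_lit 0, nat_lit 0, [],
 ⟨p088_k32, nat_lit 0, nat_lit 0, nat_lit 99, nat_lit 0, nat_lit 0, [nat_lit 2032000001, nat_lit 6250000000, nat_lit 11872000000], [], [nat_lit 22846595724, nat_lit 26048413452, nat_lit 32311830433, nat_lit 34345682176, nat_lit 27649912541, nat_lit 30008778789, nat_lit 34636448241, nat_lit 36501965254], nat_lit 0, nat_lit 0, nat_lit 0, nat_lit 0, nat_lit 0, nat_lit 0, [], [nat_lit 72, nat_lit 40, nat_lit 40, nat_lit 80, nat_lit 12, nat_lit 401, nat_lit 175, nat_lit 9]⟩, ⟨p088_k30, nat_lit 0, nat_lit 0, nat_lit 322, nat_lit 0, nat_lit 0, [nat_lit 4688000000, nat_lit 9842000000, nat_lit 16400000000], [], [nat_lit 39665040992, nat_lit 40561699628, nat_lit 47667779810, nat_lit 48257253431, nat_lit 33627352601,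 nat_lit 34091153153, nat_lit 39793554707, nat_lit 40647497172], nat_lit 0, nat_lit 0, nat_lit 0, nat_lit 0, nat_lit 0, nat_lit 0, [], [nat_lit 83, nat_lit 40, nat_lit 40, nat_lit 80, nat_lit 73, nat_lit 538, nat_lit 300, nat_lit 11]⟩,
 zbF0, [⟨nat_lit 4, nat_lit 100, nat_lit 74, nat_lit 90, nat_lit 445413462⟩, ⟨nat_lit 19, nat_lit 100, nat_lit 77, nat_lit 91, nat_lit 100844802⟩]⟩
noncomputable def b_V_800_600_20_46 : St := ⟨true, nat_lit 0, nat_lit 0, nat_lit 1, nat_lit 120, nat_lit 320, nat_lit 360, nat_lit 240, nat_lit 280, nat_lit 64, nat_lit 396, nat_lit 80, nat_lit 120, nat_lit 0, nat_lit 300, nat_lit 0, nat_lit 364, nat_lit 80, nat_lit 120, nat_lit 0, nat_lit 0, nat_lit 0, nat_lit 0⟩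
theorem d_V_800_600_20_46 (h : EB TB.env) : Dead b_V_800_600_20_46 := chkB_sound0 h (T :=
(.spl (nat_lit 2) (nat_lit 240)
(.spl (nat_lit 4) (nat_lit 160)
(.spl (nat_lit 0) (nat_lit 340)
(.spl (nat_lit 6) (nat_lit 88)
(.spl (nat_lit 2) (nat_lit 160)
(.leaf p088_l42)
(.leaf p088_l43))
(.leaf p088_l44))
(.trZ (nat_lit 0) (nat_lit 100) (nat_lit 73) (nat_lit 85) (nat_lit 88) (.spl (nat_lit 2) (nat_lit 160)
(.spl (nat_lit 4) (nat_lit 80)
(.spl (nat_lit 3) (nat_lit 100)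
(.trX (nat_lit 19) (nat_lit 100) (nat_lit 68) (nat_lit 88) (nat_lit 352) (.spl (nat_lit 6) (nat_lit 108)
(.spl (nat_lit 0) (nat_lit 350)
(.leaf p088_l45)
(.trZ (nat_lit 0) (nat_lit 100) (nat_lit 68) (nat_lit 89) (nat_lit 100) (.trZ (nat_lit 3) (nat_lit 100) (nat_lit 83) (nat_lit 25) (nat_lit 4) (.leaf p088_l46))))
(.leaf p088_l47)))
(.trZ (nat_lit 3) (nat_lit 100) (nat_lit 82) (nat_lit 29) (nat_lit 4) (.spl (nat_lit 6) (nat_lit 100)
(.spl (nat_lit 0) (nat_lit 350)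
(.leaf p088_l48)
(.trZ (nat_lit 0) (nat_lit 100) (nat_lit 68) (nat_lit 89) (nat_lit 100) (.trZ (nat_lit 3) (nat_lit 100) (nat_lit 76) (nat_lit 37) (nat_lit 8) (.leaf p088_l49))))
(.leaf p088_l50))))
(.leaf p088_l51))
(.spl (nat_lit 5) (nat_lit 160)
(.leaf p088_l52)
(.leaf p088_l53)))))
(.spl (nat_lit 2) (nat_lit 120)
(.spl (nat_lit 3) (nat_lit 100)
(.trX (nat_lit 16) (nat_lit 87) (nat_lit 100) (nat_lit 94) (nat_lit 280) (.trX (nat_lit 19) (nat_lit 100) (nat_lit 68) (nat_lit 88) (nat_lit 352) (.leaf p088_l54)))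
(.leaf p088_l55))
(.spl (nat_lit 0) (nat_lit 340)
(.leaf p088_l56)
(.trX (nat_lit 16) (nat_lit 77) (nat_lit 100) (nat_lit 99) (nat_lit 276) (.leaf p088_l57)))))
(.spl (nat_lit 4) (nat_lit 160)
(.spl (nat_lit 0) (nat_lit 340)
(.leaf p088_l58)
(.trX (nat_lit 13) (nat_lit 78) (nat_lit 39) (nat_lit 100) (nat_lit 388) (.spl (nat_lit 1) (nat_lit 260)
(.trX (nat_lit 13) (nat_lit 75) (nat_lit 48) (nat_lit 100) (nat_lit 380) (.leaf p088_l59))
(.trX (nat_lit 19) (nat_lit 100) (nat_lit 69) (nat_lit 96) (nat_lit 352) (.leaf p088_l60)))))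
(.leaf p088_l61)))) (by decide +kernel)
noncomputable def p088_l62 : Lf2 := ⟨nat_lit 0, nat_lit 22, [nat_lit 146, nat_lit 5, nat_lit 5, nat_lit 20], true, nat_lit 0, nat_lit 160, nat_lit 0, nat_lit 364, ⟨nat_lit 0, nat_lit 0, nat_lit 1000, nat_lit 6, nat_lit 168, nat_lit 532, nat_lit 65, nat_lit 1000, nat_lit 40017, nat_lit 264, nat_lit 19503, nat_lit 247, nat_lit 56985151, nat_lit 0, nat_lit 0, nat_lit 2108988, false, false⟩,
 nat_lit 0, nat_lit 0, nat_lit 0, nat_lit 9906, nat_lit 2662, nat_lit 0, nat_lit 50, nat_lit 0, nat_lit 0, nat_lit 0, nat_lit 0, nat_lit 0, nat_lit 0, nat_lit 0, nat_lit 126, nat_lit 400000, nat_lit 0, nat_lit 0, [(nat_lit 20, [(nat_lit 5, nat_lit 1000)])],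
 ⟨p088_k18, nat_lit 0, nat_lit 0, nat_lit 209, nat_lit 0, nat_lit 0, [nat_lit 1936800001, nat_lit 1581600001, nat_lit 184400000], [], [nat_lit 16258221362, nat_lit 17557158847, nat_lit 17159505860, nat_lit 18207710736, nat_lit 16604923392, nat_lit 17608866292, nat_lit 17597066492, nat_lit 18543786735], nat_lit 0, nat_lit 0, nat_lit 0, nat_lit 0, nat_lit 0, nat_lit 0, [], [nat_lit 27, nat_lit 40, nat_lit 40, nat_lit 80, nat_lit 13, nat_lit 317, nat_lit 100, nat_lit 9]⟩, C1.Rw.none,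
 ⟨nat_lit 3872, nat_lit 4473, ⟨.ofNat (nat_lit 311945), .ofNat (nat_lit 475111), .ofNat (nat_lit 355043), .ofNat (nat_lit 518209), .ofNat (nat_lit 324151), .ofNat (nat_lit 479021), .ofNat (nat_lit 367703), .ofNat (nat_lit 522572)⟩, ⟨.ofNat (nat_lit 0), .ofNat (nat_lit 302621), .ofNat (nat_lit 0), .ofNat (nat_lit 345754), .ofNat (nat_lit 0), .ofNat (nat_lit 304717), .ofNat (nat_lit 0), .ofNat (nat_lit 348304)⟩⟩, [⟨nat_lit 0, nat_lit 99, nat_lit 77, nat_lit 100, nat_lit 24301337⟩]⟩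
noncomputable def p088_l63 : Lf2 := ⟨nat_lit 0, nat_lit 22, [nat_lit 146, nat_lit 5, nat_lit 5, nat_lit 20], false, nat_lit 0, nat_lit 160, nat_lit 0, nat_lit 160, ⟨nat_lit 1000, nat_lit 0, nat_lit 0, nat_lit 0, nat_lit 0, nat_lit 0, nat_lit 0, nat_lit 0, nat_lit 0, nat_lit 0, nat_lit 0, nat_lit 0, nat_lit 0, nat_lit 0, nat_lit 0, nat_lit 0, false, false⟩,
 nat_lit 0, nat_lit 0, nat_lit 12461, nat_lit 38992, nat_lit 6480, nat_lit 6597, nat_lit 972, nat_lit 0, nat_lit 0, nat_lit 767, nat_lit 0, nat_lit 0, nat_lit 0, nat_lit 0, nat_lit 0, nat_lit 0, nat_lit 0, nat_lit 0, [],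
 ⟨p088_k18, nat_lit 0, nat_lit 0, nat_lit 178, nat_lit 0, nat_lit 0, [nat_lit 2032000001, nat_lit 4688000000, nat_lit 9842000000], [], [nat_lit 22417877980, nat_lit 24256497340, nat_lit 25121210400, nat_lit 27531209120, nat_lit 18020504380, nat_lit 19569473180, nat_lit 20442544640, nat_lit 22150137200], nat_lit 0, nat_lit 0, nat_lit 0, nat_lit 0, nat_lit 0, nat_lit 0, [], [nat_lit 27, nat_lit 40, nat_lit 40, nat_lit 80, nat_lit 13, nat_lit 317, nat_lit 100, nat_lit 9]⟩, ⟨p088_k19, nat_lit 0, nat_lit 0, nat_lit 273, nat_lit 0, nat_lit 61179, [nat_lit 4688000000, nat_lit 7968000000, nat_lit 14058000000], [], [nat_lit 39428784480, nat_lit 32452615308, nat_lit 32399211452, nat_lit 34183136680, nat_lit 28993748932, nat_lit 27764437668, nat_lit 37116263620, nat_lit 30899171656], nat_lit 1271250, nat_lit 1271250, nat_lit 1100001, nat_lit 1785000, nat_lit 0, nat_lit 1100001, [nat_lit 1100000, nat_lit 1785000, nat_lit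 1271250], [nat_lit 37, nat_lit 40, nat_lit 40, nat_lit 80, nat_lit 28, nat_lit 401, nat_lit 175, nat_lit 9]⟩,
 zbF0, []⟩
noncomputable def p088_l64 : Lf2 := ⟨nat_lit 0, nat_lit 22, [nat_lit 146, nat_lit 5, nat_lit 5, nat_lit 20], false, nat_lit 0, nat_lit 160, nat_lit 160, nat_lit 364, ⟨nat_lit 570, nat_lit 0, nat_lit 430, nat_lit 6, nat_lit 226, nat_lit 430, nat_lit 65, nat_lit 430, nat_lit 40017, nat_lit 264, nat_lit 37112, nat_lit 200, nat_lit 50788003, nat_lit 0, nat_lit 0, nat_lit 2766700, false, false⟩,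
 nat_lit 0, nat_lit 0, nat_lit 6521, nat_lit 23433, nat_lit 4046, nat_lit 3452, nat_lit 348, nat_lit 0, nat_lit 0, nat_lit 499, nat_lit 0, nat_lit 0, nat_lit 0, nat_lit 0, nat_lit 0, nat_lit 430000, nat_lit 0, nat_lit 0, [(nat_lit 20, [(nat_lit 6, nat_lit 430)])],
 ⟨p088_k18, nat_lit 0, nat_lit 0, nat_lit 178, nat_lit 0, nat_lit 0, [nat_lit 1611976001, nat_lit 2179380000, nat_lit 1565532000], [], [nat_lit 19481615796, nat_lit 20891408168, nat_lit 21692856588, nat_lit 23336468124, nat_lit 17841282676, nat_lit 19046059536, nat_lit 20165493728, nat_lit 21479576640], nat_lit 0, nat_lit 0, nat_lit 0, nat_lit 0, nat_lit 0, nat_lit 0, [], [nat_lit 27, nat_lit 40, nat_lit 40, nat_lit 80, nat_lit 13, nat_lit 317, nat_lit 100, nat_lit 9]⟩, ⟨p088_k19, nat_lit 0, nat_lit 0, nat_lit 183, nat_lit 0, nat_lit 61179, [nat_lit 2672160000, nat_lit 4541760000, nat_lit 8013060000], [], [nat_lit 19332462520, nat_lit 15683555908, nat_lit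 17099297768, nat_lit 16425708276, nat_lit 18436854959, nat_lit 18895927671, nat_lit 18712321861, nat_lit 19134996179], nat_lit 1271250, nat_lit 1271250, nat_lit 1100001, nat_lit 1785000, nat_lit 1271250, nat_lit 1271250, [nat_lit 1100000, nat_lit 1785000, nat_lit 1271250], [nat_lit 37, nat_lit 40, nat_lit 40, nat_lit 80, nat_lit 28, nat_lit 456, nat_lit 225, nat_lit 10]⟩,
 ⟨nat_lit 3872, nat_lit 4473, ⟨.ofNat (nat_lit 475111), .ofNat (nat_lit 611083), .ofNat (nat_lit 518209), .ofNat (nat_lit 654181), .ofNat (nat_lit 479021), .ofNat (nat_lit 608080), .ofNat (nat_lit 522572), .ofNat (nat_lit 651631)⟩, ⟨.ofNat (nat_lit 0), .ofNat (nat_lit 302621), .ofNat (nat_lit 0), .ofNat (nat_lit 345754), .ofNat (nat_lit 0), .ofNat (nat_lit 304717), .ofNat (nat_lit 0), .ofNat (nat_lit 348304)⟩⟩, [⟨nat_lit 19, nat_lit 100, nat_lit 77, nat_lit 91, nat_lit 233868277⟩]⟩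
noncomputable def p088_l65 : Lf2 := ⟨nat_lit 1, nat_lit 30, [nat_lit 15, nat_lit 5, nat_lit 5, nat_lit 20], false, nat_lit 0, nat_lit 160, nat_lit 0, nat_lit 364, zbN0,
 nat_lit 0, nat_lit 0, nat_lit 0, nat_lit 0, nat_lit 0, nat_lit 0, nat_lit 0, nat_lit 0, nat_lit 0, nat_lit 0, nat_lit 0, nat_lit 0, nat_lit 0, nat_lit 0, nat_lit 0, nat_lit 0, nat_lit 0, nat_lit 0, [],
 C1.Rw.none, C1.Rw.none,
 zbF0, []⟩
noncomputable def p088_l66 : Lf2 := ⟨nat_lit 0, nat_lit 25, [nat_lit 44, nat_lit 5, nat_lit 5, nat_lit 20], true, nat_lit 0, nat_lit 80, nat_lit 0, nat_lit 352, ⟨nat_lit 0, nat_lit 0, nat_lit 1000, nat_lit 6, nat_lit 178, nat_lit 1000, nat_lit 38, nat_lit 1000, nat_lit 13067, nat_lit 243, nat_lit 15045, nat_lit 245, nat_lit 55939096, nat_lit 0, nat_lit 0, nat_lit 2240056, false, false⟩,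
 nat_lit 0, nat_lit 0, nat_lit 0, nat_lit 8284, nat_lit 2601, nat_lit 0, nat_lit 0, nat_lit 0, nat_lit 0, nat_lit 0, nat_lit 0, nat_lit 0, nat_lit 0, nat_lit 0, nat_lit 150, nat_lit 400000, nat_lit 0, nat_lit 0, [(nat_lit 23, [(nat_lit 5, nat_lit 1000)])],
 ⟨p088_k20, nat_lit 0, nat_lit 0, nat_lit 203, nat_lit 0, nat_lit 0, [nat_lit 2182400000, nat_lit 1335600000, nat_lit 378800000], [], [nat_lit 17511698644, nat_lit 18136496615, nat_lit 18402230382, nat_lit 18921693831, nat_lit 16927483461, nat_lit 17461504983, nat_lit 17843218264, nat_lit 18333930608], nat_lit 0, nat_lit 0, nat_lit 0, nat_lit 0, nat_lit 0, nat_lit 0, [], [nat_lit 27, nat_lit 40, nat_lit 40, nat_lit 80, nat_lit 13, nat_lit 272, nat_lit 60, nat_lit 8]⟩, C1.Rw.none,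
 ⟨nat_lit 3535, nat_lit 3873, ⟨.ofNat (nat_lit 362897), .ofNat (nat_lit 479046), .ofNat (nat_lit 406471), .ofNat (nat_lit 522620), .ofNat (nat_lit 368144), .ofNat (nat_lit 481125), .ofNat (nat_lit 412037), .ofNat (nat_lit 525018)⟩, ⟨.ofNat (nat_lit 0), .ofNat (nat_lit 175674), .ofNat (nat_lit 0), .ofNat (nat_lit 197467), .ofNat (nat_lit 0), .ofNat (nat_lit 179999), .ofNat (nat_lit 0), .ofNat (nat_lit 200000)⟩⟩, [⟨nat_lit 3, nat_lit 100, nat_lit 82, nat_lit 27, nat_lit 161610440⟩]⟩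
noncomputable def p088_l67 : Lf2 := ⟨nat_lit 0, nat_lit 25, [nat_lit 44, nat_lit 5, nat_lit 5, nat_lit 20], true, nat_lit 4, nat_lit 80, nat_lit 0, nat_lit 352, ⟨nat_lit 0, nat_lit 160, nat_lit 840, nat_lit 6, nat_lit 183, nat_lit 1000, nat_lit 40, nat_lit 840, nat_lit 15000, nat_lit 245, nat_lit 16148, nat_lit 244, nat_lit 54208601, nat_lit 11644378, nat_lit 1147021, nat_lit 2816267, false, false⟩,
 nat_lit 0, nat_lit 0, nat_lit 0, nat_lit 5875, nat_lit 3040, nat_lit 0, nat_lit 0, nat_lit 0, nat_lit 0, nat_lit 0, nat_lit 0, nat_lit 0, nat_lit 0, nat_lit 0, nat_lit 62, nat_lit 250000, nat_lit 0, nat_lit 0, [(nat_lit 23, [(nat_lit 0, nat_lit 160), (nat_lit 4, nat_lit 840)])],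
 ⟨p088_k21, nat_lit 0, nat_lit 0, nat_lit 173, nat_lit 0, nat_lit 0, [nat_lit 2007488000, nat_lit 959232000, nat_lit 46784000], [], [nat_lit 19121526707, nat_lit 19935925145, nat_lit 19857711007, nat_lit 20495810680, nat_lit 18082316880, nat_lit 18730042160, nat_lit 18993422440, nat_lit 19709097440], nat_lit 0, nat_lit 0, nat_lit 0, nat_lit 0, nat_lit 0, nat_lit 0, [], [nat_lit 34, nat_lit 40, nat_lit 40, nat_lit 80, nat_lit 7, nat_lit 272, nat_lit 60, nat_lit 9]⟩, C1.Rw.none,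
 ⟨nat_lit 3162, nat_lit 3536, ⟨.ofNat (nat_lit 386958), .ofNat (nat_lit 481116), .ofNat (nat_lit 430847), .ofNat (nat_lit 525005), .ofNat (nat_lit 391883), .ofNat (nat_lit 483329), .ofNat (nat_lit 436176), .ofNat (nat_lit 527622)⟩, ⟨.ofNat (nat_lit 10000), .ofNat (nat_lit 179999), .ofNat (nat_lit 10000), .ofNat (nat_lit 200000), .ofNat (nat_lit 10000), .ofNat (nat_lit 184209), .ofNat (nat_lit 10000), .ofNat (nat_lit 200000)⟩⟩, [⟨nat_lit 3, nat_lit 100, nat_lit 69, nat_lit 45, nat_lit 225522781⟩]⟩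
noncomputable def p088_l68 : Lf2 := ⟨nat_lit 1, nat_lit 25, [nat_lit 44, nat_lit 5, nat_lit 5, nat_lit 20], false, nat_lit 0, nat_lit 80, nat_lit 0, nat_lit 352, zbN0,
 nat_lit 0, nat_lit 0, nat_lit 0, nat_lit 0, nat_lit 0, nat_lit 0, nat_lit 0, nat_lit 0, nat_lit 0, nat_lit 0, nat_lit 0, nat_lit 0, nat_lit 0, nat_lit 0, nat_lit 0, nat_lit 0, nat_lit 0, nat_lit 0, [],
 C1.Rw.none, C1.Rw.none,
 zbF0, []⟩
noncomputable def p088_l69 : Lf2 := ⟨nat_lit 0, nat_lit 25, [nat_lit 44, nat_lit 5, nat_lit 5, nat_lit 20], true, nat_lit 4, nat_lit 80, nat_lit 0, nat_lit 364, ⟨nat_lit 0, nat_lit 0, nat_lit 1000, nat_lit 6, nat_lit 178, nat_lit 1000, nat_lit 42, nat_lit 1000, nat_lit 16017, nat_lit 246, nat_lit 15045, nat_lit 245, nat_lit 54671707, nat_lit 0, nat_lit 0, nat_lit 2777049, false, false⟩,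
 nat_lit 0, nat_lit 0, nat_lit 0, nat_lit 8670, nat_lit 2617, nat_lit 0, nat_lit 0, nat_lit 0, nat_lit 0, nat_lit 0, nat_lit 0, nat_lit 0, nat_lit 0, nat_lit 0, nat_lit 150, nat_lit 400000, nat_lit 0, nat_lit 0, [(nat_lit 23, [(nat_lit 5, nat_lit 1000)])],
 ⟨p088_k20, nat_lit 0, nat_lit 0, nat_lit 201, nat_lit 0, nat_lit 0, [nat_lit 2182400000, nat_lit 1335600000, nat_lit 378800000], [], [nat_lit 17468855444, nat_lit 18084647676, nat_lit 18356656034, nat_lit 18875893828, nat_lit 16902994821, nat_lit 17438300861, nat_lit 17815056088, nat_lit 18306887536], nat_lit 0, nat_lit 0, nat_lit 0, nat_lit 0, nat_lit 0, nat_lit 0, [], [nat_lit 27, nat_lit 40, nat_lit 40, nat_lit 80, nat_lit 13, nat_lit 272, nat_lit 60, nat_lit 8]⟩, C1.Rw.none,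
 ⟨nat_lit 3535, nat_lit 3873, ⟨.ofNat (nat_lit 362897), .ofNat (nat_lit 479046), .ofNat (nat_lit 406471), .ofNat (nat_lit 522620), .ofNat (nat_lit 368144), .ofNat (nat_lit 481125), .ofNat (nat_lit 412037), .ofNat (nat_lit 525018)⟩, ⟨.ofNat (nat_lit 10000), .ofNat (nat_lit 197467), .ofNat (nat_lit 10000), .ofNat (nat_lit 200000), .ofNat (nat_lit 10000), .ofNat (nat_lit 200000), .ofNat (nat_lit 10000), .ofNat (nat_lit 200000)⟩⟩, [⟨nat_lit 3, nat_lit 100, nat_lit 77, nat_lit 38, nat_lit 208403847⟩]⟩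
noncomputable def p088_l70 : Lf2 := ⟨nat_lit 0, nat_lit 25, [nat_lit 44, nat_lit 5, nat_lit 5, nat_lit 20], true, nat_lit 8, nat_lit 80, nat_lit 0, nat_lit 364, ⟨nat_lit 0, nat_lit 160, nat_lit 840, nat_lit 6, nat_lit 183, nat_lit 1000, nat_lit 44, nat_lit 840, nat_lit 18150, nat_lit 248, nat_lit 16148, nat_lit 244, nat_lit 54039694, nat_lit 11646330, nat_lit 1313976, nat_lit 2872611, false, false⟩,
 nat_lit 0, nat_lit 0, nat_lit 0, nat_lit 6206, nat_lit 3061, nat_lit 0, nat_lit 0, nat_lit 0, nat_lit 0, nat_lit 0, nat_lit 0, nat_lit 0, nat_lit 0, nat_lit 0, nat_lit 62, nat_lit 250000, nat_lit 0, nat_lit 0, [(nat_lit 23, [(nat_lit 0, nat_lit 160), (nat_lit 4, nat_lit 840)])],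
 ⟨p088_k21, nat_lit 0, nat_lit 0, nat_lit 170, nat_lit 0, nat_lit 0, [nat_lit 2007488000, nat_lit 959232000, nat_lit 46784000], [], [nat_lit 19061625606, nat_lit 19870593108, nat_lit 19795835652, nat_lit 20434545818, nat_lit 18062355530, nat_lit 18712123994, nat_lit 18957629746, nat_lit 19675691396], nat_lit 0, nat_lit 0, nat_lit 0, nat_lit 0, nat_lit 0, nat_lit 0, [], [nat_lit 34, nat_lit 40, nat_lit 40, nat_lit 80, nat_lit 7, nat_lit 272, nat_lit 60, nat_lit 9]⟩, C1.Rw.none,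
 ⟨nat_lit 3162, nat_lit 3536, ⟨.ofNat (nat_lit 386958), .ofNat (nat_lit 481116), .ofNat (nat_lit 430847), .ofNat (nat_lit 525005), .ofNat (nat_lit 391883), .ofNat (nat_lit 483329), .ofNat (nat_lit 436176), .ofNat (nat_lit 527622)⟩, ⟨.ofNat (nat_lit 20000), .ofNat (nat_lit 200000), .ofNat (nat_lit 20000), .ofNat (nat_lit 200000), .ofNat (nat_lit 20000), .ofNat (nat_lit 200000), .ofNat (nat_lit 20000), .ofNat (nat_lit 200000)⟩⟩, [⟨nat_lit 3, nat_lit 100, nat_lit 65, nat_lit 54, nat_lit 272254777⟩]⟩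
noncomputable def p088_l71 : Lf2 := ⟨nat_lit 1, nat_lit 30, [nat_lit 15, nat_lit 5, nat_lit 5, nat_lit 20], false, nat_lit 4, nat_lit 80, nat_lit 0, nat_lit 364, zbN0,
 nat_lit 0, nat_lit 0, nat_lit 0, nat_lit 0, nat_lit 0, nat_lit 0, nat_lit 0, nat_lit 0, nat_lit 0, nat_lit 0, nat_lit 0, nat_lit 0, nat_lit 0, nat_lit 0, nat_lit 0, nat_lit 0, nat_lit 0, nat_lit 0, [],
 C1.Rw.none, C1.Rw.none,
 zbF0, []⟩
noncomputable def p088_l72 : Lf2 := ⟨nat_lit 0, nat_lit 30, [nat_lit 15, nat_lit 5, nat_lit 5, nat_lit 20], false, nat_lit 0, nat_lit 80, nat_lit 0, nat_lit 160, ⟨nat_lit 395, nat_lit 0, nat_lit 605, nat_lit 6, nat_lit 222, nat_lit 605, nat_lit 38, nat_lit 605, nat_lit 13067, nat_lit 243, nat_lit 7340, nat_lit 203, nat_lit 51228223, nat_lit 0, nat_lit 0, nat_lit 2728593, false, false⟩,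
 nat_lit 0, nat_lit 0, nat_lit 4992, nat_lit 10229, nat_lit 2827, nat_lit 2642, nat_lit 0, nat_lit 0, nat_lit 0, nat_lit 360, nat_lit 0, nat_lit 0, nat_lit 0, nat_lit 0, nat_lit 105, nat_lit 605000, nat_lit 0, nat_lit 0, [(nat_lit 23, [(nat_lit 6, nat_lit 605)])],
 ⟨p088_k23, nat_lit 0, nat_lit 0, nat_lit 188, nat_lit 0, nat_lit 0, [nat_lit 2100504001, nat_lit 1900680001, nat_lit 3916000], [], [nat_lit 19266127927, nat_lit 20400582837, nat_lit 21265218773, nat_lit 22743672716, nat_lit 18341949515, nat_lit 19415984999, nat_lit 20550878943, nat_lit 21726082147], nat_lit 0, nat_lit 0, nat_lit 0, nat_lit 0, nat_lit 0, nat_lit 0, [], [nat_lit 27, nat_lit 40, nat_lit 40, nat_lit 80, nat_lit 13, nat_lit 317, nat_lit 100, nat_lit 9]⟩, ⟨p088_k24, nat_lit 0, nat_lit 0, nat_lit 494, nat_lit 0, nat_lit 262910, [nat_lit 1851760000, nat_lit 3147360000, nat_lit 6478000000], [], [nat_lit 15629510020, nat_lit 14591748768, nat_lit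 14716791016, nat_lit 14920576940, nat_lit 12575032832, nat_lit 12748733574, nat_lit 14651134640, nat_lit 13406208388], nat_lit 1271250, nat_lit 1271250, nat_lit 1100001, nat_lit 1785000, nat_lit 0, nat_lit 1100001, [nat_lit 1100000, nat_lit 1785000, nat_lit 1271250], [nat_lit 122, nat_lit 40, nat_lit 40, nat_lit 80, nat_lit 111, nat_lit 401, nat_lit 175, nat_lit 9]⟩,
 ⟨nat_lit 3162, nat_lit 3873, ⟨.ofNat (nat_lit 478975), .ofNat (nat_lit 608082), .ofNat (nat_lit 500739), .ofNat (nat_lit 629847), .ofNat (nat_lit 483267), .ofNat (nat_lit 605237), .ofNat (nat_lit 505392), .ofNat (nat_lit 627364)⟩, ⟨.ofNat (nat_lit 0), .ofNat (nat_lit 175674), .ofNat (nat_lit 0), .ofNat (nat_lit 200000), .ofNat (nat_lit 0), .ofNat (nat_lit 184209), .ofNat (nat_lit 0), .ofNat (nat_lit 200000)⟩⟩, [⟨nat_lit 3, nat_lit 100, nat_lit 76, nat_lit 37, nat_lit 95134186⟩]⟩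
noncomputable def p088_l73 : Lf2 := ⟨nat_lit 0, nat_lit 30, [nat_lit 15, nat_lit 5, nat_lit 5, nat_lit 20], false, nat_lit 0, nat_lit 80, nat_lit 0, nat_lit 160, ⟨nat_lit 1000, nat_lit 0, nat_lit 0, nat_lit 0, nat_lit 0, nat_lit 0, nat_lit 0, nat_lit 0, nat_lit 0, nat_lit 0, nat_lit 0, nat_lit 0, nat_lit 0, nat_lit 0, nat_lit 0, nat_lit 0, false, false⟩,
 nat_lit 0, nat_lit 0, nat_lit 12049, nat_lit 0, nat_lit 4141, nat_lit 7013, nat_lit 963, nat_lit 0, nat_lit 0, nat_lit 648, nat_lit 0, nat_lit 0, nat_lit 0, nat_lit 0, nat_lit 0, nat_lit 0, nat_lit 0, nat_lit 0, [],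
 ⟨p088_k23, nat_lit 0, nat_lit 0, nat_lit 188, nat_lit 0, nat_lit 0, [nat_lit 2032000001, nat_lit 4688000000, nat_lit 9842000000], [], [nat_lit 21253916053, nat_lit 22681670760, nat_lit 23500190554, nat_lit 25332657428, nat_lit 19147080903, nat_lit 20652807545, nat_lit 21673740897, nat_lit 22976957377], nat_lit 0, nat_lit 0, nat_lit 0, nat_lit 0, nat_lit 0, nat_lit 0, [], [nat_lit 27, nat_lit 40, nat_lit 40, nat_lit 80, nat_lit 13, nat_lit 317, nat_lit 100, nat_lit 9]⟩, ⟨p088_k33, nat_lit 0, nat_lit 0, nat_lit 472, nat_lit 0, nat_lit 374133, [nat_lit 4688000000, nat_lit 7968000000, nat_lit 14058000000], [], [nat_lit 36354662326, nat_lit 35898734408, nat_lit 36342180664, nat_lit 36981349388, nat_lit 30677255368, nat_lit 31212317044, nat_lit 32629951302, nat_lit 31861198680], nat_lit 1271250, nat_lit 1271250, nat_lit 1100001, nat_lit 1785000, nat_lit 0, nat_lit 1100001, [nat_lit 1100000, nat_lit 1785000, nat_lit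 1271250], [nat_lit 37, nat_lit 40, nat_lit 40, nat_lit 80, nat_lit 28, nat_lit 401, nat_lit 175, nat_lit 9]⟩,
 zbF0, []⟩
noncomputable def p088_l74 : Lf2 := ⟨nat_lit 0, nat_lit 26, [nat_lit 108, nat_lit 5, nat_lit 5, nat_lit 20], false, nat_lit 0, nat_lit 80, nat_lit 160, nat_lit 364, ⟨nat_lit 188, nat_lit 0, nat_lit 812, nat_lit 6, nat_lit 222, nat_lit 812, nat_lit 38, nat_lit 812, nat_lit 13067, nat_lit 243, nat_lit 7340, nat_lit 203, nat_lit 51228223, nat_lit 0, nat_lit 0, nat_lit 2728593, false, false⟩,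
 nat_lit 0, nat_lit 0, nat_lit 2172, nat_lit 7040, nat_lit 2657, nat_lit 1149, nat_lit 0, nat_lit 0, nat_lit 0, nat_lit 105, nat_lit 0, nat_lit 0, nat_lit 0, nat_lit 0, nat_lit 118, nat_lit 483200, nat_lit 0, nat_lit 0, [(nat_lit 23, [(nat_lit 5, nat_lit 548), (nat_lit 6, nat_lit 264)])],
 ⟨p088_k34, nat_lit 0, nat_lit 0, nat_lit 188, nat_lit 0, nat_lit 0, [nat_lit 2064166401, nat_lit 1474308801, nat_lit 82675200], [], [nat_lit 18892308067, nat_lit 19998826877, nat_lit 20942673858, nat_lit 22408720356, nat_lit 18097730175, nat_lit 19145174561, nat_lit 20381684571, nat_lit 21556691107], nat_lit 0, nat_lit 0, nat_lit 0, nat_lit 0, nat_lit 0, nat_lit 0, [], [nat_lit 27, nat_lit 40, nat_lit 40, nat_lit 80, nat_lit 13, nat_lit 317, nat_lit 100, nat_lit 9]⟩, ⟨p088_k35, nat_lit 0, nat_lit 0, nat_lit 251, nat_lit 0, nat_lit 252806, [nat_lit 881344000, nat_lit 1497984000, nat_lit 2642904000], [], [nat_lit 6392238416, nat_lit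 5784718454, nat_lit 5849141908, nat_lit 5877648472, nat_lit 6661607885, nat_lit 6737236583, nat_lit 6756647405, nat_lit 6829288879], nat_lit 1271250, nat_lit 1271250, nat_lit 1100001, nat_lit 1785000, nat_lit 1271250, nat_lit 1271250, [nat_lit 1100000, nat_lit 1785000, nat_lit 1271250], [nat_lit 37, nat_lit 40, nat_lit 40, nat_lit 80, nat_lit 28, nat_lit 456, nat_lit 225, nat_lit 10]⟩,
 ⟨nat_lit 3162, nat_lit 3873, ⟨.ofNat (nat_lit 478975), .ofNat (nat_lit 608082), .ofNat (nat_lit 500739), .ofNat (nat_lit 629847), .ofNat (nat_lit 483267), .ofNat (nat_lit 605237), .ofNat (nat_lit 505392), .ofNat (nat_lit 627364)⟩, ⟨.ofNat (nat_lit 0), .ofNat (nat_lit 175674), .ofNat (nat_lit 0), .ofNat (nat_lit 200000), .ofNat (nat_lit 0), .ofNat (nat_lit 184209), .ofNat (nat_lit 0), .ofNat (nat_lit 200000)⟩⟩, [⟨nat_lit 22, nat_lit 100, nat_lit 95, nat_lit 31, nat_lit 39893578⟩, ⟨nat_lit 22, nat_lit 100, nat_lit 80, nat_lit 60,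 nat_lit 92007392⟩]⟩
noncomputable def p088_l75 : Lf2 := ⟨nat_lit 1, nat_lit 30, [nat_lit 15, nat_lit 5, nat_lit 5, nat_lit 20], false, nat_lit 0, nat_lit 80, nat_lit 160, nat_lit 364, zbN0,
 nat_lit 0, nat_lit 0, nat_lit 0, nat_lit 0, nat_lit 0, nat_lit 0, nat_lit 0, nat_lit 0, nat_lit 0, nat_lit 0, nat_lit 0, nat_lit 0, nat_lit 0, nat_lit 0, nat_lit 0, nat_lit 0, nat_lit 0, nat_lit 0, [],
 C1.Rw.none, C1.Rw.none,
 zbF0, []⟩
noncomputable def p088_l76 : Lf2 := ⟨nat_lit 0, nat_lit 25, [nat_lit 44, nat_lit 5, nat_lit 5, nat_lit 20], false, nat_lit 0, nat_lit 80, nat_lit 160, nat_lit 336, ⟨nat_lit 1000, nat_lit 0, nat_lit 0, nat_lit 0, nat_lit 0, nat_lit 0, nat_lit 0, nat_lit 0, nat_lit 0, nat_lit 0, nat_lit 0, nat_lit 0, nat_lit 0, nat_lit 0, nat_lit 0, nat_lit 0, false, false⟩,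
 nat_lit 0, nat_lit 0, nat_lit 10702, nat_lit 6917, nat_lit 3984, nat_lit 6229, nat_lit 994, nat_lit 0, nat_lit 0, nat_lit 906, nat_lit 0, nat_lit 0, nat_lit 0, nat_lit 0, nat_lit 0, nat_lit 0, nat_lit 0, nat_lit 0, [],
 ⟨p088_k20, nat_lit 0, nat_lit 0, nat_lit 183, nat_lit 0, nat_lit 0, [nat_lit 2032000001, nat_lit 4688000000, nat_lit 9842000000], [], [nat_lit 20799926322, nat_lit 21499360866, nat_lit 23229617696, nat_lit 24126468384, nat_lit 18844152339, nat_lit 19472129371, nat_lit 21292338163, nat_lit 21973579011], nat_lit 0, nat_lit 0, nat_lit 0, nat_lit 0, nat_lit 0, nat_lit 0, [], [nat_lit 27, nat_lit 40, nat_lit 40, nat_lit 80, nat_lit 13, nat_lit 317, nat_lit 100, nat_lit 9]⟩, ⟨p088_k36, nat_lit 0, nat_lit 0, nat_lit 223, nat_lit 0, nat_lit 196957, [nat_lit 4688000000, nat_lit 7968000000, nat_lit 14058000000], [], [nat_lit 30886502358, nat_lit 27592993356, nat_lit 28048301510, nat_lit 27088787352, nat_lit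 29815681418, nat_lit 30271494576, nat_lit 30402844860, nat_lit 30844260595], nat_lit 1271250, nat_lit 1271250, nat_lit 1100001, nat_lit 1785000, nat_lit 1271250, nat_lit 1271250, [nat_lit 1100000, nat_lit 1785000, nat_lit 1271250], [nat_lit 37, nat_lit 40, nat_lit 40, nat_lit 80, nat_lit 28, nat_lit 456, nat_lit 225, nat_lit 10]⟩,
 zbF0, [⟨nat_lit 19, nat_lit 100, nat_lit 86, nat_lit 89, nat_lit 222294539⟩]⟩
noncomputable def p088_l77 : Lf2 := ⟨nat_lit 0, nat_lit 25, [nat_lit 44, nat_lit 5, nat_lit 5, nat_lit 20], false, nat_lit 4, nat_lit 80, nat_lit 160, nat_lit 336, ⟨nat_lit 234, nat_lit 0, nat_lit 766, nat_lit 6, nat_lit 231, nat_lit 766, nat_lit 40, nat_lit 766, nat_lit 15000, nat_lit 245, nat_lit 29848, nat_lit 200, nat_lit 49232243, nat_lit 0, nat_lit 0, nat_lit 3302694, false, false⟩,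
 nat_lit 0, nat_lit 0, nat_lit 2509, nat_lit 3431, nat_lit 2873, nat_lit 1460, nat_lit 20, nat_lit 0, nat_lit 0, nat_lit 244, nat_lit 0, nat_lit 0, nat_lit 0, nat_lit 0, nat_lit 37, nat_lit 306400, nat_lit 0, nat_lit 0, [(nat_lit 23, [(nat_lit 5, nat_lit 766)])],
 ⟨p088_k21, nat_lit 0, nat_lit 0, nat_lit 157, nat_lit 0, nat_lit 0, [nat_lit 1524006401, nat_lit 1070983201, nat_lit 27828800], [], [nat_lit 20027877240, nat_lit 20646059224, nat_lit 22154618125, nat_lit 22744760578, nat_lit 19151469796, nat_lit 19736390277, nat_lit 21224846530, nat_lit 21738611909], nat_lit 0, nat_lit 0, nat_lit 0, nat_lit 0, nat_lit 0, nat_lit 0, [], [nat_lit 34, nat_lit 40, nat_lit 40, nat_lit 80, nat_lit 7, nat_lit 317, nat_lit 100, nat_lit 10]⟩, ⟨p088_k36, nat_lit 0, nat_lit 0, nat_lit 280, nat_lit 0, nat_lit 352225, [nat_lit 1096992000, nat_lit 1864512000, nat_lit 3289572000], [], [nat_lit 7229843728, nat_lit 6457886248, nat_lit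 6561164208, nat_lit 5974922360, nat_lit 6613363812, nat_lit 6722615775, nat_lit 6753115749, nat_lit 6860468570], nat_lit 1271250, nat_lit 1271250, nat_lit 1100001, nat_lit 1785000, nat_lit 1271250, nat_lit 1271250, [nat_lit 1100000, nat_lit 1785000, nat_lit 1271250], [nat_lit 37, nat_lit 40, nat_lit 40, nat_lit 80, nat_lit 28, nat_lit 456, nat_lit 225, nat_lit 10]⟩,
 ⟨nat_lit 3162, nat_lit 3536, ⟨.ofNat (nat_lit 503061), .ofNat (nat_lit 628604), .ofNat (nat_lit 525005), .ofNat (nat_lit 650549), .ofNat (nat_lit 505476), .ofNat (nat_lit 627403), .ofNat (nat_lit 527622), .ofNat (nat_lit 649550)⟩, ⟨.ofNat (nat_lit 10000), .ofNat (nat_lit 179999), .ofNat (nat_lit 10000), .ofNat (nat_lit 200000), .ofNat (nat_lit 10000), .ofNat (nat_lit 184209), .ofNat (nat_lit 10000), .ofNat (nat_lit 200000)⟩⟩, [⟨nat_lit 3, nat_lit 100, nat_lit 69, nat_lit 45, nat_lit 52840385⟩, ⟨nat_lit 19, nat_lit 100, nat_lit 86, nat_lit 89, nat_lit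 49328231⟩, ⟨nat_lit 22, nat_lit 100, nat_lit 97, nat_lit 24, nat_lit 72770311⟩]⟩
noncomputable def p088_l78 : Lf2 := ⟨nat_lit 1, nat_lit 25, [nat_lit 44, nat_lit 5, nat_lit 5, nat_lit 20], false, nat_lit 0, nat_lit 80, nat_lit 160, nat_lit 336, zbN0,
 nat_lit 0, nat_lit 0, nat_lit 0, nat_lit 0, nat_lit 0, nat_lit 0, nat_lit 0, nat_lit 0, nat_lit 0, nat_lit 0, nat_lit 0, nat_lit 0, nat_lit 0, nat_lit 0, nat_lit 0, nat_lit 0, nat_lit 0, nat_lit 0, [],
 C1.Rw.none, C1.Rw.none,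
 zbF0, []⟩
noncomputable def p088_l79 : Lf2 := ⟨nat_lit 0, nat_lit 25, [nat_lit 44, nat_lit 5, nat_lit 5, nat_lit 20], false, nat_lit 4, nat_lit 80, nat_lit 160, nat_lit 352, ⟨nat_lit 863, nat_lit 0, nat_lit 137, nat_lit 6, nat_lit 231, nat_lit 137, nat_lit 42, nat_lit 137, nat_lit 16017, nat_lit 246, nat_lit 31972, nat_lit 200, nat_lit 49183470, nat_lit 0, nat_lit 0, nat_lit 3324961, false, false⟩,
 nat_lit 0, nat_lit 0, nat_lit 9811, nat_lit 5687, nat_lit 3635, nat_lit 5710, nat_lit 601, nat_lit 0, nat_lit 0, nat_lit 636, nat_lit 0, nat_lit 0, nat_lit 0, nat_lit 0, nat_lit 0, nat_lit 137000, nat_lit 0, nat_lit 0, [(nat_lit 23, [(nat_lit 6, nat_lit 137)])],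
 ⟨p088_k37, nat_lit 0, nat_lit 0, nat_lit 195, nat_lit 0, nat_lit 0, [nat_lit 1938977001, nat_lit 4690487900, nat_lit 6948450400], [], [nat_lit 21987987554, nat_lit 23251669238, nat_lit 24211686502, nat_lit 25502615960, nat_lit 20524833596, nat_lit 21826690121, nat_lit 22808777811, nat_lit 24029113121], nat_lit 0, nat_lit 0, nat_lit 0, nat_lit 0, nat_lit 0, nat_lit 0, [], [nat_lit 61, nat_lit 40, nat_lit 40, nat_lit 80, nat_lit 1, nat_lit 317, nat_lit 100, nat_lit 9]⟩, ⟨p088_k38, nat_lit 0, nat_lit 0, nat_lit 220, nat_lit 0, nat_lit 162108, [nat_lit 4045744000, nat_lit 8493646000, nat_lit 12132054000], [], [nat_lit 26987786776, nat_lit 23968692796, nat_lit 26401943056, nat_lit 23597065436, nat_lit 26679991484, nat_lit 27115381411, nat_lit 27432613133, nat_lit 27928843168], nat_lit 1271250, nat_lit 1271250, nat_lit 1100001, nat_lit 1785000, nat_lit 1271250, nat_lit 1271250, [nat_lit 1100000, nat_lit 2127500, nat_lit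 1271250], [nat_lit 56, nat_lit 40, nat_lit 40, nat_lit 80, nat_lit 32, nat_lit 456, nat_lit 225, nat_lit 10]⟩,
 ⟨nat_lit 3162, nat_lit 3873, ⟨.ofNat (nat_lit 500739), .ofNat (nat_lit 629847), .ofNat (nat_lit 522504), .ofNat (nat_lit 651611), .ofNat (nat_lit 505392), .ofNat (nat_lit 627364), .ofNat (nat_lit 527519), .ofNat (nat_lit 649490)⟩, ⟨.ofNat (nat_lit 10000), .ofNat (nat_lit 197467), .ofNat (nat_lit 10000), .ofNat (nat_lit 200000), .ofNat (nat_lit 10000), .ofNat (nat_lit 200000), .ofNat (nat_lit 10000), .ofNat (nat_lit 200000)⟩⟩, [⟨nat_lit 19, nat_lit 100, nat_lit 78, nat_lit 95, nat_lit 202263555⟩]⟩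
noncomputable def p088_l80 : Lf2 := ⟨nat_lit 1, nat_lit 30, [nat_lit 15, nat_lit 5, nat_lit 5, nat_lit 20], false, nat_lit 4, nat_lit 80, nat_lit 160, nat_lit 352, zbN0,
 nat_lit 0, nat_lit 0, nat_lit 0, nat_lit 0, nat_lit 0, nat_lit 0, nat_lit 0, nat_lit 0, nat_lit 0, nat_lit 0, nat_lit 0, nat_lit 0, nat_lit 0, nat_lit 0, nat_lit 0, nat_lit 0, nat_lit 0, nat_lit 0, [],
 C1.Rw.none, C1.Rw.none,
 zbF0, []⟩
noncomputable def p088_l81 : Lf2 := ⟨nat_lit 0, nat_lit 30, [nat_lit 15, nat_lit 5, nat_lit 5, nat_lit 20], true, nat_lit 80, nat_lit 160, nat_lit 0, nat_lit 364, ⟨nat_lit 0, nat_lit 0, nat_lit 1000, nat_lit 6, nat_lit 179, nat_lit 1000, nat_lit 103, nat_lit 1000, nat_lit 101400, nat_lit 293, nat_lit 15897, nat_lit 244, nat_lit 51082439, nat_lit 0, nat_lit 0, nat_lit 3686717, false, false⟩,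
 nat_lit 0, nat_lit 0, nat_lit 0, nat_lit 7704, nat_lit 3983, nat_lit 0, nat_lit 0, nat_lit 0, nat_lit 0, nat_lit 0, nat_lit 0, nat_lit 0, nat_lit 0, nat_lit 0, nat_lit 105, nat_lit 278200, nat_lit 0, nat_lit 0, [(nat_lit 23, [(nat_lit 4, nat_lit 812), (nat_lit 5, nat_lit 188)])],
 ⟨p088_k22, nat_lit 0, nat_lit 0, nat_lit 149, nat_lit 0, nat_lit 0, [nat_lit 2242041601, nat_lit 636265600], [], [nat_lit 17830872662, nat_lit 19285904096, nat_lit 18286015454, nat_lit 19610435844, nat_lit 18284362042, nat_lit 19596756892, nat_lit 18694918978, nat_lit 19921262296], nat_lit 0, nat_lit 0, nat_lit 0, nat_lit 0, nat_lit 0, nat_lit 0, [], [nat_lit 94, nat_lit 40, nat_lit 40, nat_lit 80, nat_lit 95, nat_lit 317, nat_lit 100, nat_lit 9]⟩, C1.Rw.none,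
 ⟨nat_lit 3162, nat_lit 3873, ⟨.ofNat (nat_lit 362778), .ofNat (nat_lit 478975), .ofNat (nat_lit 406307), .ofNat (nat_lit 522504), .ofNat (nat_lit 373492), .ofNat (nat_lit 483267), .ofNat (nat_lit 417744), .ofNat (nat_lit 527519)⟩, ⟨.ofNat (nat_lit 175674), .ofNat (nat_lit 304717), .ofNat (nat_lit 200000), .ofNat (nat_lit 348304), .ofNat (nat_lit 184209), .ofNat (nat_lit 306116), .ofNat (nat_lit 200000), .ofNat (nat_lit 350426)⟩⟩, [⟨nat_lit 0, nat_lit 94, nat_lit 62, nat_lit 100, nat_lit 28559255⟩]⟩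
noncomputable def p088_l82 : Lf2 := ⟨nat_lit 0, nat_lit 30, [nat_lit 15, nat_lit 5, nat_lit 5, nat_lit 20], true, nat_lit 80, nat_lit 160, nat_lit 0, nat_lit 364, ⟨nat_lit 0, nat_lit 1000, nat_lit 0, nat_lit 6, nat_lit 226, nat_lit 1000, nat_lit 103, nat_lit 0, nat_lit 0, nat_lit 0, nat_lit 0, nat_lit 0, nat_lit 46607007, nat_lit 15756006, nat_lit 4636987, nat_lit 4128209, false, false⟩,
 nat_lit 0, nat_lit 0, nat_lit 0, nat_lit 7224, nat_lit 4101, nat_lit 0, nat_lit 0, nat_lit 0, nat_lit 0, nat_lit 0, nat_lit 0, nat_lit 0, nat_lit 0, nat_lit 0, nat_lit 0, nat_lit 250000, nat_lit 0, nat_lit 0, [(nat_lit 23, [(nat_lit 0, nat_lit 1000)])],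
 ⟨p088_k23, nat_lit 0, nat_lit 0, nat_lit 62, nat_lit 0, nat_lit 0, [nat_lit 1576000001, nat_lit 1970800000, nat_lit 3132400000], [], [nat_lit 17978954116, nat_lit 19687981900, nat_lit 20680322872, nat_lit 22197848120, nat_lit 18787096924, nat_lit 20318824624, nat_lit 21229462840, nat_lit 22552437712], nat_lit 0, nat_lit 0, nat_lit 0, nat_lit 0, nat_lit 0, nat_lit 0, [], [nat_lit 27, nat_lit 40, nat_lit 40, nat_lit 80, nat_lit 13, nat_lit 317, nat_lit 100, nat_lit 8]⟩, C1.Rw.none,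
 ⟨nat_lit 3162, nat_lit 3873, ⟨.ofNat (nat_lit 478975), .ofNat (nat_lit 608082), .ofNat (nat_lit 522504), .ofNat (nat_lit 651611), .ofNat (nat_lit 483267), .ofNat (nat_lit 605237), .ofNat (nat_lit 527519), .ofNat (nat_lit 649490)⟩, ⟨.ofNat (nat_lit 175674), .ofNat (nat_lit 304717), .ofNat (nat_lit 200000), .ofNat (nat_lit 348304), .ofNat (nat_lit 184209), .ofNat (nat_lit 306116), .ofNat (nat_lit 200000), .ofNat (nat_lit 350426)⟩⟩, []⟩
noncomputable def p088_l83 : Lf2 := ⟨nat_lit 0, nat_lit 25, [nat_lit 44, nat_lit 5, nat_lit 5, nat_lit 20], true, nat_lit 160, nat_lit 280, nat_lit 0, nat_lit 352, ⟨nat_lit 0, nat_lit 0, nat_lit 1000, nat_lit 6, nat_lit 156, nat_lit 1000, nat_lit 165, nat_lit 1000, nat_lit 13067, nat_lit 243, nat_lit 109350, nat_lit 296, nat_lit 48433273, nat_lit 0, nat_lit 0, nat_lit 4192804, false, false⟩,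
 nat_lit 0, nat_lit 0, nat_lit 0, nat_lit 10829, nat_lit 4207, nat_lit 0, nat_lit 0, nat_lit 0, nat_lit 0, nat_lit 0, nat_lit 0, nat_lit 0, nat_lit 0, nat_lit 0, nat_lit 74, nat_lit 239360, nat_lit 0, nat_lit 0, [(nat_lit 20, [(nat_lit 3, nat_lit 266), (nat_lit 4, nat_lit 734)]), (nat_lit 23, [(nat_lit 3, nat_lit 266), (nat_lit 4, nat_lit 734)])],
 ⟨p088_k26, nat_lit 0, nat_lit 0, nat_lit 145, nat_lit 0, nat_lit 0, [nat_lit 2428275200, nat_lit 1004084001, nat_lit 360882400], [], [nat_lit 17687106703, nat_lit 20449762099, nat_lit 17457941300, nat_lit 20055395036, nat_lit 21586573169, nat_lit 24819123254, nat_lit 21135335584, nat_lit 24178798582], nat_lit 0, nat_lit 0, nat_lit 0, nat_lit 0, nat_lit 0, nat_lit 0, [], [nat_lit 27, nat_lit 40, nat_lit 40, nat_lit 80, nat_lit 13, nat_lit 317, nat_lit 100, nat_lit 9]⟩, C1.Rw.none,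
 ⟨nat_lit 3162, nat_lit 4473, ⟨.ofNat (nat_lit 311562), .ofNat (nat_lit 406840), .ofNat (nat_lit 354514), .ofNat (nat_lit 449792), .ofNat (nat_lit 336623), .ofNat (nat_lit 422066), .ofNat (nat_lit 380752), .ofNat (nat_lit 466195)⟩, ⟨.ofNat (nat_lit 302621), .ofNat (nat_lit 506556), .ofNat (nat_lit 324188), .ofNat (nat_lit 528122), .ofNat (nat_lit 306116), .ofNat (nat_lit 488976), .ofNat (nat_lit 328271), .ofNat (nat_lit 511131)⟩⟩, [⟨nat_lit 0, nat_lit 100, nat_lit 75, nat_lit 92, nat_lit 342482953⟩, ⟨nat_lit 16, nat_lit 73, nat_lit 100, nat_lit 85, nat_lit 254031903⟩]⟩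
noncomputable def p088_l84 : Lf2 := ⟨nat_lit 0, nat_lit 30, [nat_lit 15, nat_lit 5, nat_lit 5, nat_lit 20], true, nat_lit 160, nat_lit 300, nat_lit 0, nat_lit 364, ⟨nat_lit 0, nat_lit 0, nat_lit 1000, nat_lit 6, nat_lit 156, nat_lit 1000, nat_lit 180, nat_lit 1000, nat_lit 1169, nat_lit 218, nat_lit 109350, nat_lit 296, nat_lit 47199321, nat_lit 0, nat_lit 0, nat_lit 4346545, false, false⟩,
 nat_lit 0, nat_lit 0, nat_lit 0, nat_lit 100000, nat_lit 2859, nat_lit 0, nat_lit 0, nat_lit 0, nat_lit 0, nat_lit 0, nat_lit 0, nat_lit 0, nat_lit 0, nat_lit 0, nat_lit 124, nat_lit 395650, nat_lit 0, nat_lit 0, [(nat_lit 20, [(nat_lit 4, nat_lit 29), (nat_lit 5, nat_lit 971)]), (nat_lit 23, [(nat_lit 4, nat_lit 29), (nat_lit 5, nat_lit 971)])],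
 ⟨p088_k27, nat_lit 0, nat_lit 0, nat_lit 171, nat_lit 0, nat_lit 0, [nat_lit 2035218400, nat_lit 557522000], [], [nat_lit 18431435452, nat_lit 20515381062, nat_lit 18603766728, nat_lit 20498963588, nat_lit 22369372676, nat_lit 24027663267, nat_lit 22291789397, nat_lit 23869124516], nat_lit 0, nat_lit 0, nat_lit 0, nat_lit 0, nat_lit 0, nat_lit 0, [], [nat_lit 190, nat_lit 40, nat_lit 40, nat_lit 80, nat_lit 192, nat_lit 345, nat_lit 125, nat_lit 8]⟩, C1.Rw.none,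
 ⟨nat_lit 3162, nat_lit 4473, ⟨.ofNat (nat_lit 311562), .ofNat (nat_lit 406840), .ofNat (nat_lit 354514), .ofNat (nat_lit 449792), .ofNat (nat_lit 336623), .ofNat (nat_lit 422066), .ofNat (nat_lit 380752), .ofNat (nat_lit 466195)⟩, ⟨.ofNat (nat_lit 324188), .ofNat (nat_lit 562111), .ofNat (nat_lit 345754), .ofNat (nat_lit 583678), .ofNat (nat_lit 328271), .ofNat (nat_lit 541607), .ofNat (nat_lit 350426), .ofNat (nat_lit 563762)⟩⟩, [⟨nat_lit 0, nat_lit 94, nat_lit 62, nat_lit 100, nat_lit 3614090605⟩, ⟨nat_lit 16, nat_lit 75, nat_lit 100, nat_lit 94, nat_lit 219217112⟩]⟩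
noncomputable def p088_l85 : Lf2 := ⟨nat_lit 0, nat_lit 30, [nat_lit 15, nat_lit 5, nat_lit 5, nat_lit 20], true, nat_lit 160, nat_lit 300, nat_lit 0, nat_lit 364, ⟨nat_lit 0, nat_lit 1000, nat_lit 0, nat_lit 6, nat_lit 213, nat_lit 1000, nat_lit 177, nat_lit 0, nat_lit 0, nat_lit 0, nat_lit 0, nat_lit 0, nat_lit 43135268, nat_lit 13685239, nat_lit 10179493, nat_lit 4812761, false, false⟩,
 nat_lit 0, nat_lit 0, nat_lit 0, nat_lit 10096, nat_lit 3274, nat_lit 0, nat_lit 0, nat_lit 0, nat_lit 0, nat_lit 0, nat_lit 0, nat_lit 0, nat_lit 0, nat_lit 0, nat_lit 0, nat_lit 250000, nat_lit 0, nat_lit 0, [(nat_lit 20, [(nat_lit 0, nat_lit 1000)])],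
 ⟨p088_k27, nat_lit 0, nat_lit 0, nat_lit 38, nat_lit 0, nat_lit 0, [nat_lit 1647600001, nat_lit 3602509091], [], [nat_lit 15761104289, nat_lit 17369568281, nat_lit 19427659289, nat_lit 20742776129, nat_lit 21762628883, nat_lit 22998654756, nat_lit 24330547733, nat_lit 25341585169], nat_lit 0, nat_lit 0, nat_lit 0, nat_lit 0, nat_lit 0, nat_lit 0, [], [nat_lit 190, nat_lit 40, nat_lit 40, nat_lit 80, nat_lit 192, nat_lit 373, nat_lit 150, nat_lit 9]⟩, C1.Rw.none,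
 ⟨nat_lit 3872, nat_lit 4473, ⟨.ofNat (nat_lit 407125), .ofNat (nat_lit 611083), .ofNat (nat_lit 450223), .ofNat (nat_lit 654181), .ofNat (nat_lit 414492), .ofNat (nat_lit 608080), .ofNat (nat_lit 458043), .ofNat (nat_lit 651631)⟩, ⟨.ofNat (nat_lit 302621), .ofNat (nat_lit 540545), .ofNat (nat_lit 345754), .ofNat (nat_lit 583678), .ofNat (nat_lit 304717), .ofNat (nat_lit 530543), .ofNat (nat_lit 348304), .ofNat (nat_lit 574129)⟩⟩, [⟨nat_lit 4, nat_lit 100, nat_lit 81, nat_lit 92, nat_lit 185835964⟩]⟩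
noncomputable def p088_l86 : Lf2 := ⟨nat_lit 0, nat_lit 30, [nat_lit 15, nat_lit 5, nat_lit 5, nat_lit 20], true, nat_lit 160, nat_lit 276, nat_lit 0, nat_lit 364, ⟨nat_lit 0, nat_lit 1000, nat_lit 0, nat_lit 6, nat_lit 214, nat_lit 1000, nat_lit 167, nat_lit 0, nat_lit 0, nat_lit 0, nat_lit 0, nat_lit 0, nat_lit 43678265, nat_lit 13892413, nat_lit 9429322, nat_lit 4737662, false, false⟩,
 nat_lit 0, nat_lit 0, nat_lit 0, nat_lit 7411, nat_lit 3172, nat_lit 0, nat_lit 0, nat_lit 0, nat_lit 0, nat_lit 0, nat_lit 0, nat_lit 0, nat_lit 0, nat_lit 0, nat_lit 0, nat_lit 250000, nat_lit 0, nat_lit 0, [(nat_lit 23, [(nat_lit 0, nat_lit 1000)])],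
 ⟨p088_k22, nat_lit 0, nat_lit 0, nat_lit 40, nat_lit 0, nat_lit 0, [nat_lit 1576000001, nat_lit 3132400000], [], [nat_lit 17350883841, nat_lit 18933775617, nat_lit 20718741585, nat_lit 22014717105, nat_lit 21778431018, nat_lit 23069014393, nat_lit 24350002693, nat_lit 25401584752], nat_lit 0, nat_lit 0, nat_lit 0, nat_lit 0, nat_lit 0, nat_lit 0, [], [nat_lit 94, nat_lit 40, nat_lit 40, nat_lit 80, nat_lit 95, nat_lit 373, nat_lit 150, nat_lit 10]⟩, C1.Rw.none,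
 ⟨nat_lit 3162, nat_lit 3873, ⟨.ofNat (nat_lit 414421), .ofNat (nat_lit 608082), .ofNat (nat_lit 457950), .ofNat (nat_lit 651611), .ofNat (nat_lit 422280), .ofNat (nat_lit 605237), .ofNat (nat_lit 466533), .ofNat (nat_lit 649490)⟩, ⟨.ofNat (nat_lit 304717), .ofNat (nat_lit 491830), .ofNat (nat_lit 348304), .ofNat (nat_lit 535416), .ofNat (nat_lit 306116), .ofNat (nat_lit 482881), .ofNat (nat_lit 350426), .ofNat (nat_lit 527190)⟩⟩, [⟨nat_lit 4, nat_lit 100, nat_lit 67, nat_lit 88, nat_lit 246799357⟩]⟩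
noncomputable def b_V_800_600_20_47 : St := ⟨true, nat_lit 0, nat_lit 1, nat_lit 1, nat_lit 120, nat_lit 320, nat_lit 360, nat_lit 240, nat_lit 280, nat_lit 64, nat_lit 240, nat_lit 80, nat_lit 120, nat_lit 0, nat_lit 300, nat_lit 0, nat_lit 364, nat_lit 80, nat_lit 120, nat_lit 0, nat_lit 0, nat_lit 0, nat_lit 0⟩
theorem d_V_800_600_20_47 (h : EB TB.env) : Dead b_V_800_600_20_47 := chkB_sound0 h (T :=
(.spl (nat_lit 4) (nat_lit 160)
(.spl (nat_lit 0) (nat_lit 340)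
(.spl (nat_lit 6) (nat_lit 88)
(.spl (nat_lit 2) (nat_lit 160)
(.leaf p088_l62)
(.spl (nat_lit 5) (nat_lit 160)
(.leaf p088_l63)
(.leaf p088_l64)))
(.leaf p088_l65))
(.trZ (nat_lit 0) (nat_lit 100) (nat_lit 73) (nat_lit 85) (nat_lit 88) (.spl (nat_lit 4) (nat_lit 80)
(.spl (nat_lit 2) (nat_lit 160)
(.spl (nat_lit 3) (nat_lit 100)
(.trX (nat_lit 19) (nat_lit 100) (nat_lit 68) (nat_lit 88) (nat_lit 352) (.spl (nat_lit 6) (nat_lit 108)
(.spl (nat_lit 0) (nat_lit 350)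
(.leaf p088_l66)
(.trZ (nat_lit 0) (nat_lit 100) (nat_lit 68) (nat_lit 89) (nat_lit 100) (.trZ (nat_lit 3) (nat_lit 100) (nat_lit 83) (nat_lit 25) (nat_lit 4) (.leaf p088_l67))))
(.leaf p088_l68)))
(.trZ (nat_lit 3) (nat_lit 100) (nat_lit 82) (nat_lit 29) (nat_lit 4) (.spl (nat_lit 6) (nat_lit 100)
(.spl (nat_lit 0) (nat_lit 350)
(.leaf p088_l69)
(.trZ (nat_lit 0) (nat_lit 100) (nat_lit 68) (nat_lit 89) (nat_lit 100) (.trZ (nat_lit 3) (nat_lit 100) (nat_lit 76) (nat_lit 37) (nat_lit 8) (.leaf p088_l70))))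
(.leaf p088_l71))))
(.spl (nat_lit 5) (nat_lit 160)
(.spl (nat_lit 1) (nat_lit 260)
(.leaf p088_l72)
(.leaf p088_l73))
(.spl (nat_lit 1) (nat_lit 260)
(.spl (nat_lit 6) (nat_lit 104)
(.leaf p088_l74)
(.leaf p088_l75))
(.trX (nat_lit 19) (nat_lit 100) (nat_lit 69) (nat_lit 96) (nat_lit 352) (.spl (nat_lit 3) (nat_lit 100)
(.trX (nat_lit 19) (nat_lit 100) (nat_lit 77) (nat_lit 91) (nat_lit 336) (.spl (nat_lit 6) (nat_lit 108)
(.spl (nat_lit 0) (nat_lit 350)
(.leaf p088_l76)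
(.trZ (nat_lit 3) (nat_lit 100) (nat_lit 83) (nat_lit 25) (nat_lit 4) (.leaf p088_l77)))
(.leaf p088_l78)))
(.trZ (nat_lit 3) (nat_lit 100) (nat_lit 82) (nat_lit 29) (nat_lit 4) (.spl (nat_lit 6) (nat_lit 100)
(.leaf p088_l79)
(.leaf p088_l80))))))))
(.spl (nat_lit 2) (nat_lit 160)
(.leaf p088_l81)
(.leaf p088_l82)))))
(.spl (nat_lit 2) (nat_lit 120)
(.spl (nat_lit 3) (nat_lit 100)
(.trX (nat_lit 16) (nat_lit 87) (nat_lit 100) (nat_lit 94) (nat_lit 280) (.trX (nat_lit 19) (nat_lit 100) (nat_lit 68) (nat_lit 88) (nat_lit 352) (.leaf p088_l83)))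
(.leaf p088_l84))
(.spl (nat_lit 0) (nat_lit 340)
(.leaf p088_l85)
(.trX (nat_lit 16) (nat_lit 77) (nat_lit 100) (nat_lit 99) (nat_lit 276) (.leaf p088_l86)))))) (by decide +kernel)
noncomputable def p088_l87 : Lf2 := ⟨nat_lit 0, nat_lit 22, [nat_lit 146, nat_lit 5, nat_lit 5, nat_lit 20], false, nat_lit 0, nat_lit 160, nat_lit 0, nat_lit 364, ⟨nat_lit 1000, nat_lit 0, nat_lit 0, nat_lit 0, nat_lit 0, nat_lit 0, nat_lit 0, nat_lit 0, nat_lit 0, nat_lit 0, nat_lit 0, nat_lit 0, nat_lit 0, nat_lit 0, nat_lit 0, nat_lit 0, false, false⟩,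
 nat_lit 0, nat_lit 0, nat_lit 15976, nat_lit 5092, nat_lit 6964, nat_lit 8457, nat_lit 327, nat_lit 0, nat_lit 0, nat_lit 811, nat_lit 0, nat_lit 0, nat_lit 0, nat_lit 0, nat_lit 0, nat_lit 0, nat_lit 0, nat_lit 0, [],
 ⟨p088_k18, nat_lit 0, nat_lit 0, nat_lit 211, nat_lit 0, nat_lit 0, [nat_lit 2032000001, nat_lit 4688000000, nat_lit 9842000000], [], [nat_lit 31338662067, nat_lit 32973569051, nat_lit 40813534316, nat_lit 41826001347, nat_lit 26293034083, nat_lit 27451117995, nat_lit 34133151951, nat_lit 35005051808], nat_lit 0, nat_lit 0, nat_lit 0, nat_lit 0, nat_lit 0, nat_lit 0, [], [nat_lit 27, nat_lit 40, nat_lit 40, nat_lit 80, nat_lit 13, nat_lit 373, nat_lit 150, nat_lit 10]⟩, ⟨p088_k19, nat_lit 0, nat_lit 0, nat_lit 297, nat_lit 0, nat_lit 61179, [nat_lit 4688000000, nat_lit 7968000000, nat_lit 14058000000], [], [nat_lit 34985310160, nat_lit 36326455832, nat_lit 43171571695, nat_lit 44069292712, nat_lit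 33298606226, nat_lit 33216879748, nat_lit 37641040276, nat_lit 38510345536], nat_lit 1271250, nat_lit 1271250, nat_lit 1271250, nat_lit 1271250, nat_lit 0, nat_lit 2570750, [nat_lit 1100000, nat_lit 1785000, nat_lit 1271250], [nat_lit 37, nat_lit 40, nat_lit 40, nat_lit 80, nat_lit 28, nat_lit 538, nat_lit 300, nat_lit 12]⟩,
 zbF0, [⟨nat_lit 7, nat_lit 77, nat_lit 100, nat_lit 91, nat_lit 107668638⟩, ⟨nat_lit 22, nat_lit 84, nat_lit 100, nat_lit 84, nat_lit 31047986⟩]⟩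
noncomputable def p088_l88 : Lf2 := ⟨nat_lit 1, nat_lit 30, [nat_lit 15, nat_lit 5, nat_lit 5, nat_lit 20], false, nat_lit 0, nat_lit 160, nat_lit 0, nat_lit 364, zbN0,
 nat_lit 0, nat_lit 0, nat_lit 0, nat_lit 0, nat_lit 0, nat_lit 0, nat_lit 0, nat_lit 0, nat_lit 0, nat_lit 0, nat_lit 0, nat_lit 0, nat_lit 0, nat_lit 0, nat_lit 0, nat_lit 0, nat_lit 0, nat_lit 0, [],
 C1.Rw.none, C1.Rw.none,
 zbF0, []⟩
noncomputable def p088_l89 : Lf2 := ⟨nat_lit 0, nat_lit 26, [nat_lit 108, nat_lit 5, nat_lit 5, nat_lit 20], false, nat_lit 0, nat_lit 160, nat_lit 0, nat_lit 160, ⟨nat_lit 1000, nat_lit 0, nat_lit 0, nat_lit 0, nat_lit 0, nat_lit 0, nat_lit 0, nat_lit 0, nat_lit 0, nat_lit 0, nat_lit 0, nat_lit 0, nat_lit 0, nat_lit 0, nat_lit 0, nat_lit 0, false, false⟩,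
 nat_lit 0, nat_lit 0, nat_lit 13040, nat_lit 0, nat_lit 4715, nat_lit 6903, nat_lit 771, nat_lit 0, nat_lit 0, nat_lit 1058, nat_lit 0, nat_lit 0, nat_lit 0, nat_lit 0, nat_lit 0, nat_lit 0, nat_lit 0, nat_lit 0, [],
 ⟨p088_k34, nat_lit 0, nat_lit 0, nat_lit 210, nat_lit 0, nat_lit 0, [nat_lit 2032000001, nat_lit 4688000000, nat_lit 9842000000], [], [nat_lit 25867181685, nat_lit 27183166975, nat_lit 34065478075, nat_lit 35365137630, nat_lit 23529667281, nat_lit 24432682411, nat_lit 29487817340, nat_lit 30627433470], nat_lit 0, nat_lit 0, nat_lit 0, nat_lit 0, nat_lit 0, nat_lit 0, [], [nat_lit 27, nat_lit 40, nat_lit 40, nat_lit 80, nat_lit 13, nat_lit 373, nat_lit 150, nat_lit 10]⟩, ⟨p088_k35, nat_lit 0, nat_lit 0, nat_lit 417, nat_lit 0, nat_lit 252806, [nat_lit 4688000000, nat_lit 7968000000, nat_lit 14058000000], [], [nat_lit 33815386904, nat_lit 34206641584, nat_lit 39454243592, nat_lit 40031385362, nat_lit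 29086079072, nat_lit 29520201576, nat_lit 34564364558, nat_lit 34957980729], nat_lit 1271250, nat_lit 1271250, nat_lit 1271250, nat_lit 1271250, nat_lit 0, nat_lit 1100001, [nat_lit 1100000, nat_lit 1785000, nat_lit 1271250], [nat_lit 37, nat_lit 40, nat_lit 40, nat_lit 80, nat_lit 28, nat_lit 428, nat_lit 200, nat_lit 10]⟩,
 zbF0, []⟩
noncomputable def p088_l90 : Lf2 := ⟨nat_lit 0, nat_lit 26, [nat_lit 108, nat_lit 5, nat_lit 5, nat_lit 20], false, nat_lit 0, nat_lit 160, nat_lit 160, nat_lit 364, ⟨nat_lit 1000, nat_lit 0, nat_lit 0, nat_lit 0, nat_lit 0, nat_lit 0, nat_lit 0, nat_lit 0, nat_lit 0, nat_lit 0, nat_lit 0, nat_lit 0, nat_lit 0, nat_lit 0, nat_lit 0, nat_lit 0, false, false⟩,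
 nat_lit 0, nat_lit 0, nat_lit 17812, nat_lit 9544, nat_lit 6373, nat_lit 9429, nat_lit 650, nat_lit 0, nat_lit 0, nat_lit 692, nat_lit 0, nat_lit 0, nat_lit 0, nat_lit 0, nat_lit 0, nat_lit 0, nat_lit 0, nat_lit 0, [],
 ⟨p088_k39, nat_lit 0, nat_lit 0, nat_lit 218, nat_lit 0, nat_lit 0, [nat_lit 2032000001, nat_lit 6250000000, nat_lit 9842000000], [], [nat_lit 27792825232, nat_lit 28568375051, nat_lit 38589339365, nat_lit 39350401876, nat_lit 23115246716, nat_lit 23630592175, nat_lit 31483512148, nat_lit 32145821691], nat_lit 0, nat_lit 0, nat_lit 0, nat_lit 0, nat_lit 0, nat_lit 0, [], [nat_lit 61, nat_lit 40, nat_lit 40, nat_lit 80, nat_lit 1, nat_lit 373, nat_lit 150, nat_lit 10]⟩, ⟨p088_k40, nat_lit 0, nat_lit 0, nat_lit 192, nat_lit 0, nat_lit 68846, [nat_lit 4688000000, nat_lit 9842000000, nat_lit 14058000000], [], [nat_lit 25353935860, nat_lit 26223107662, nat_lit 33295325726, nat_lit 33724438344, nat_lit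 32289064705, nat_lit 32650631441, nat_lit 37800887538, nat_lit 38034666920], nat_lit 1271250, nat_lit 1271250, nat_lit 1271250, nat_lit 1271250, nat_lit 1271250, nat_lit 1271250, [nat_lit 1100000, nat_lit 2127500, nat_lit 1271250], [nat_lit 56, nat_lit 40, nat_lit 40, nat_lit 80, nat_lit 32, nat_lit 538, nat_lit 300, nat_lit 12]⟩,
 zbF0, [⟨nat_lit 7, nat_lit 72, nat_lit 100, nat_lit 89, nat_lit 314170620⟩, ⟨nat_lit 22, nat_lit 89, nat_lit 100, nat_lit 85, nat_lit 80867979⟩]⟩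
noncomputable def p088_l91 : Lf2 := ⟨nat_lit 0, nat_lit 26, [nat_lit 108, nat_lit 5, nat_lit 5, nat_lit 20], false, nat_lit 4, nat_lit 160, nat_lit 160, nat_lit 364, ⟨nat_lit 1000, nat_lit 0, nat_lit 0, nat_lit 0, nat_lit 0, nat_lit 0, nat_lit 0, nat_lit 0, nat_lit 0, nat_lit 0, nat_lit 0, nat_lit 0, nat_lit 0, nat_lit 0, nat_lit 0, nat_lit 0, false, false⟩,
 nat_lit 0, nat_lit 0, nat_lit 11492, nat_lit 4700, nat_lit 5120, nat_lit 6083, nat_lit 686, nat_lit 0, nat_lit 0, nat_lit 604, nat_lit 0, nat_lit 0, nat_lit 0, nat_lit 0, nat_lit 0, nat_lit 0, nat_lit 0, nat_lit 0, [],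
 ⟨p088_k41, nat_lit 0, nat_lit 0, nat_lit 215, nat_lit 0, nat_lit 0, [nat_lit 2032000001, nat_lit 6250000000, nat_lit 9842000000], [], [nat_lit 26257027625, nat_lit 27056301032, nat_lit 34977305611, nat_lit 35673310252, nat_lit 23022295080, nat_lit 23569529400, nat_lit 30001718268, nat_lit 30610484864], nat_lit 0, nat_lit 0, nat_lit 0, nat_lit 0, nat_lit 0, nat_lit 0, [], [nat_lit 61, nat_lit 40, nat_lit 40, nat_lit 80, nat_lit 1, nat_lit 373, nat_lit 150, nat_lit 10]⟩, ⟨p088_k40, nat_lit 0, nat_lit 0, nat_lit 263, nat_lit 0, nat_lit 252806, [nat_lit 4688000000, nat_lit 9842000000, nat_lit 14058000000], [], [nat_lit 29360764176, nat_lit 29988578940, nat_lit 34451514006, nat_lit 34851963412, nat_lit 34629602589, nat_lit 35016026769, nat_lit 38621610239, nat_lit 38935412565], nat_lit 1271250, nat_lit 1271250, nat_lit 1271250, nat_lit 1271250, nat_lit 1271250, nat_lit 1271250, [nat_lit 1100000, nat_lit 2127500, nat_lit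 1271250], [nat_lit 56, nat_lit 40, nat_lit 40, nat_lit 80, nat_lit 32, nat_lit 483, nat_lit 250, nat_lit 10]⟩,
 zbF0, [⟨nat_lit 19, nat_lit 100, nat_lit 72, nat_lit 89, nat_lit 376756433⟩]⟩
noncomputable def p088_l92 : Lf2 := ⟨nat_lit 1, nat_lit 30, [nat_lit 15, nat_lit 5, nat_lit 5, nat_lit 20], false, nat_lit 0, nat_lit 160, nat_lit 0, nat_lit 364, zbN0,
 nat_lit 0, nat_lit 0, nat_lit 0, nat_lit 0, nat_lit 0, nat_lit 0, nat_lit 0, nat_lit 0, nat_lit 0, nat_lit 0, nat_lit 0, nat_lit 0, nat_lit 0, nat_lit 0, nat_lit 0, nat_lit 0, nat_lit 0, nat_lit 0, [],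
 C1.Rw.none, C1.Rw.none,
 zbF0, []⟩
noncomputable def p088_l93 : Lf2 := ⟨nat_lit 0, nat_lit 25, [nat_lit 44, nat_lit 5, nat_lit 5, nat_lit 20], false, nat_lit 0, nat_lit 160, nat_lit 0, nat_lit 336, ⟨nat_lit 1000, nat_lit 0, nat_lit 0, nat_lit 0, nat_lit 0, nat_lit 0, nat_lit 0, nat_lit 0, nat_lit 0, nat_lit 0, nat_lit 0, nat_lit 0, nat_lit 0, nat_lit 0, nat_lit 0, nat_lit 0, false, false⟩,
 nat_lit 0, nat_lit 0, nat_lit 13226, nat_lit 0, nat_lit 4757, nat_lit 7698, nat_lit 844, nat_lit 0, nat_lit 0, nat_lit 861, nat_lit 0, nat_lit 0, nat_lit 0, nat_lit 0, nat_lit 0, nat_lit 0, nat_lit 0, nat_lit 0, [],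
 ⟨p088_k20, nat_lit 0, nat_lit 0, nat_lit 211, nat_lit 0, nat_lit 0, [nat_lit 2032000001, nat_lit 4688000000, nat_lit 9842000000], [], [nat_lit 25022265938, nat_lit 25683236509, nat_lit 34825029239, nat_lit 35458539111, nat_lit 22381533695, nat_lit 22834737682, nat_lit 30098092985, nat_lit 30654808489], nat_lit 0, nat_lit 0, nat_lit 0, nat_lit 0, nat_lit 0, nat_lit 0, [], [nat_lit 27, nat_lit 40, nat_lit 40, nat_lit 80, nat_lit 13, nat_lit 373, nat_lit 150, nat_lit 10]⟩, ⟨p088_k36, nat_lit 0, nat_lit 0, nat_lit 397, nat_lit 0, nat_lit 196957, [nat_lit 4688000000, nat_lit 7968000000, nat_lit 14058000000], [], [nat_lit 33145893344, nat_lit 33799959448, nat_lit 40520447814, nat_lit 40998324151, nat_lit 30349146250, nat_lit 30622033500, nat_lit 34821052981, nat_lit 35369343844], nat_lit 1271250, nat_lit 1271250, nat_lit 1271250, nat_lit 1271250, nat_lit 0, nat_lit 2373000, [nat_lit 1100000, nat_lit 1785000, nat_lit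 1271250], [nat_lit 37, nat_lit 40, nat_lit 40, nat_lit 80, nat_lit 28, nat_lit 538, nat_lit 300, nat_lit 12]⟩,
 zbF0, [⟨nat_lit 7, nat_lit 86, nat_lit 100, nat_lit 89, nat_lit 116776936⟩, ⟨nat_lit 22, nat_lit 87, nat_lit 100, nat_lit 84, nat_lit 2265207⟩]⟩
noncomputable def p088_l94 : Lf2 := ⟨nat_lit 0, nat_lit 25, [nat_lit 44, nat_lit 5, nat_lit 5, nat_lit 20], false, nat_lit 4, nat_lit 160, nat_lit 0, nat_lit 336, ⟨nat_lit 1000, nat_lit 0, nat_lit 0, nat_lit 0, nat_lit 0, nat_lit 0, nat_lit 0, nat_lit 0, nat_lit 0, nat_lit 0, nat_lit 0, nat_lit 0, nat_lit 0, nat_lit 0, nat_lit 0, nat_lit 0, false, false⟩,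
 nat_lit 0, nat_lit 0, nat_lit 12428, nat_lit 0, nat_lit 4731, nat_lit 7234, nat_lit 682, nat_lit 0, nat_lit 0, nat_lit 975, nat_lit 0, nat_lit 0, nat_lit 0, nat_lit 0, nat_lit 0, nat_lit 0, nat_lit 0, nat_lit 0, [],
 ⟨p088_k21, nat_lit 0, nat_lit 0, nat_lit 189, nat_lit 0, nat_lit 0, [nat_lit 2032000001, nat_lit 4688000000, nat_lit 7968000000], [], [nat_lit 25344071210, nat_lit 26309888377, nat_lit 34872269077, nat_lit 35512523567, nat_lit 22753061776, nat_lit 23352749790, nat_lit 30349142269, nat_lit 30912158311], nat_lit 0, nat_lit 0, nat_lit 0, nat_lit 0, nat_lit 0, nat_lit 0, [], [nat_lit 34, nat_lit 40, nat_lit 40, nat_lit 80, nat_lit 7, nat_lit 249, nat_lit 40, nat_lit 7]⟩, ⟨p088_k36, nat_lit 0, nat_lit 0, nat_lit 447, nat_lit 0, nat_lit 352225, [nat_lit 4688000000, nat_lit 7968000000, nat_lit 14058000000], [], [nat_lit 31979153952, nat_lit 32623128984, nat_lit 38406871467, nat_lit 38897493618, nat_lit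 29726369277, nat_lit 30007007554, nat_lit 34008726154, nat_lit 34567274794], nat_lit 1271250, nat_lit 1271250, nat_lit 1271250, nat_lit 1271250, nat_lit 0, nat_lit 2373000, [nat_lit 1100000, nat_lit 1785000, nat_lit 1271250], [nat_lit 37, nat_lit 40, nat_lit 40, nat_lit 80, nat_lit 28, nat_lit 483, nat_lit 250, nat_lit 11]⟩,
 zbF0, [⟨nat_lit 7, nat_lit 86, nat_lit 100, nat_lit 89, nat_lit 140449294⟩]⟩
noncomputable def p088_l95 : Lf2 := ⟨nat_lit 1, nat_lit 25, [nat_lit 44, nat_lit 5, nat_lit 5, nat_lit 20], false, nat_lit 0, nat_lit 160, nat_lit 0, nat_lit 336, zbN0,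
 nat_lit 0, nat_lit 0, nat_lit 0, nat_lit 0, nat_lit 0, nat_lit 0, nat_lit 0, nat_lit 0, nat_lit 0, nat_lit 0, nat_lit 0, nat_lit 0, nat_lit 0, nat_lit 0, nat_lit 0, nat_lit 0, nat_lit 0, nat_lit 0, [],
 C1.Rw.none, C1.Rw.none,
 zbF0, []⟩
noncomputable def p088_l96 : Lf2 := ⟨nat_lit 0, nat_lit 30, [nat_lit 15, nat_lit 5, nat_lit 5, nat_lit 20], false, nat_lit 4, nat_lit 160, nat_lit 0, nat_lit 352, ⟨nat_lit 1000, nat_lit 0, nat_lit 0, nat_lit 0, nat_lit 0, nat_lit 0, nat_lit 0, nat_lit 0, nat_lit 0, nat_lit 0, nat_lit 0, nat_lit 0, nat_lit 0, nat_lit 0, nat_lit 0, nat_lit 0, false, false⟩,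
 nat_lit 0, nat_lit 0, nat_lit 12764, nat_lit 9930, nat_lit 5597, nat_lit 7429, nat_lit 505, nat_lit 0, nat_lit 0, nat_lit 956, nat_lit 0, nat_lit 0, nat_lit 0, nat_lit 0, nat_lit 0, nat_lit 0, nat_lit 0, nat_lit 0, [],
 ⟨p088_k23, nat_lit 0, nat_lit 0, nat_lit 210, nat_lit 0, nat_lit 0, [nat_lit 2032000001, nat_lit 4688000000, nat_lit 9842000000], [], [nat_lit 29325843498, nat_lit 30763075414, nat_lit 36934738482, nat_lit 38306744759, nat_lit 25792794260, nat_lit 26829819386, nat_lit 32063836721, nat_lit 32885947513], nat_lit 0, nat_lit 0, nat_lit 0, nat_lit 0, nat_lit 0, nat_lit 0, [], [nat_lit 27, nat_lit 40, nat_lit 40, nat_lit 80, nat_lit 13, nat_lit 373, nat_lit 150, nat_lit 10]⟩, ⟨p088_k33, nat_lit 0, nat_lit 0, nat_lit 390, nat_lit 0, nat_lit 173501, [nat_lit 4688000000, nat_lit 7968000000, nat_lit 14058000000], [], [nat_lit 32096553912, nat_lit 32744769804, nat_lit 39130077863, nat_lit 39608010260, nat_lit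 30181044510, nat_lit 30431978432, nat_lit 35487976853, nat_lit 35987787992], nat_lit 1271250, nat_lit 1271250, nat_lit 1271250, nat_lit 1271250, nat_lit 0, nat_lit 2486000, [nat_lit 1100000, nat_lit 1785000, nat_lit 1271250], [nat_lit 37, nat_lit 40, nat_lit 40, nat_lit 80, nat_lit 28, nat_lit 538, nat_lit 300, nat_lit 12]⟩,
 zbF0, [⟨nat_lit 7, nat_lit 78, nat_lit 100, nat_lit 95, nat_lit 149332598⟩]⟩
noncomputable def p088_l97 : Lf2 := ⟨nat_lit 0, nat_lit 26, [nat_lit 108, nat_lit 5, nat_lit 5, nat_lit 20], false, nat_lit 160, nat_lit 300, nat_lit 0, nat_lit 160, ⟨nat_lit 1000, nat_lit 0, nat_lit 0, nat_lit 0, nat_lit 0, nat_lit 0, nat_lit 0, nat_lit 0, nat_lit 0, nat_lit 0, nat_lit 0, nat_lit 0, nat_lit 0, nat_lit 0, nat_lit 0, nat_lit 0, false, false⟩,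
 nat_lit 0, nat_lit 0, nat_lit 15455, nat_lit 86, nat_lit 5936, nat_lit 8181, nat_lit 790, nat_lit 0, nat_lit 0, nat_lit 1086, nat_lit 0, nat_lit 0, nat_lit 0, nat_lit 0, nat_lit 0, nat_lit 0, nat_lit 0, nat_lit 0, [],
 ⟨p088_k42, nat_lit 0, nat_lit 0, nat_lit 114, nat_lit 0, nat_lit 0, [nat_lit 2032000001, nat_lit 4688000000, nat_lit 11872000000], [], [nat_lit 23647408418, nat_lit 25922115042, nat_lit 30686840225, nat_lit 33127868372, nat_lit 26762000762, nat_lit 28460712818, nat_lit 33645838229, nat_lit 35460489837], nat_lit 0, nat_lit 0, nat_lit 0, nat_lit 0, nat_lit 0, nat_lit 0, [], [nat_lit 75, nat_lit 40, nat_lit 40, nat_lit 80, nat_lit 65, nat_lit 401, nat_lit 175, nat_lit 9]⟩, ⟨p088_k35, nat_lit 0, nat_lit 0, nat_lit 419, nat_lit 0, nat_lit 252806, [nat_lit 4688000000, nat_lit 7968000000, nat_lit 14058000000], [], [nat_lit 32709828808, nat_lit 33090065168, nat_lit 39771031623, nat_lit 40234780111, nat_lit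 26208135312, nat_lit 26753446956, nat_lit 33060643865, nat_lit 33515544700], nat_lit 1271250, nat_lit 1271250, nat_lit 1271250, nat_lit 1271250, nat_lit 0, nat_lit 1100001, [nat_lit 1100000, nat_lit 1785000, nat_lit 1271250], [nat_lit 37, nat_lit 40, nat_lit 40, nat_lit 80, nat_lit 28, nat_lit 456, nat_lit 225, nat_lit 10]⟩,
 zbF0, [⟨nat_lit 4, nat_lit 100, nat_lit 74, nat_lit 90, nat_lit 411717615⟩, ⟨nat_lit 9, nat_lit 100, nat_lit 82, nat_lit 70, nat_lit 62864845⟩]⟩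
noncomputable def p088_l98 : Lf2 := ⟨nat_lit 1, nat_lit 26, [nat_lit 108, nat_lit 5, nat_lit 5, nat_lit 20], false, nat_lit 160, nat_lit 300, nat_lit 160, nat_lit 364, zbN0,
 nat_lit 0, nat_lit 0, nat_lit 0, nat_lit 0, nat_lit 0, nat_lit 0, nat_lit 0, nat_lit 0, nat_lit 0, nat_lit 0, nat_lit 0, nat_lit 0, nat_lit 0, nat_lit 0, nat_lit 0, nat_lit 0, nat_lit 0, nat_lit 0, [],
 C1.Rw.none, C1.Rw.none,
 zbF0, []⟩
noncomputable def p088_l99 : Lf2 := ⟨nat_lit 0, nat_lit 26, [nat_lit 108, nat_lit 5, nat_lit 5, nat_lit 20], false, nat_lit 160, nat_lit 276, nat_lit 160, nat_lit 364, ⟨nat_lit 1000, nat_lit 0, nat_lit 0, nat_lit 0, nat_lit 0, nat_lit 0, nat_lit 0, nat_lit 0, nat_lit 0, nat_lit 0, nat_lit 0, nat_lit 0, nat_lit 0, nat_lit 0, nat_lit 0, nat_lit 0, false, false⟩,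
 nat_lit 0, nat_lit 0, nat_lit 11492, nat_lit 9500, nat_lit 6975, nat_lit 6083, nat_lit 0, nat_lit 0, nat_lit 0, nat_lit 604, nat_lit 0, nat_lit 0, nat_lit 0, nat_lit 0, nat_lit 0, nat_lit 0, nat_lit 0, nat_lit 0, [],
 ⟨p088_k39, nat_lit 0, nat_lit 0, nat_lit 93, nat_lit 0, nat_lit 0, [nat_lit 2032000001, nat_lit 6250000000, nat_lit 9842000000], [], [nat_lit 24139088700, nat_lit 25797978300, nat_lit 32208125100, nat_lit 33599916550, nat_lit 27542876575, nat_lit 28838666655, nat_lit 34222797629, nat_lit 35309508961], nat_lit 0, nat_lit 0, nat_lit 0, nat_lit 0, nat_lit 0, nat_lit 0, [], [nat_lit 61, nat_lit 40, nat_lit 40, nat_lit 80, nat_lit 1, nat_lit 401, nat_lit 175, nat_lit 10]⟩, ⟨p088_k40, nat_lit 0, nat_lit 0, nat_lit 266, nat_lit 0, nat_lit 252806, [nat_lit 4688000000, nat_lit 9842000000, nat_lit 14058000000], [], [nat_lit 29360764176, nat_lit 29988578940, nat_lit 34847147602, nat_lit 35284819288, nat_lit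 34629602589, nat_lit 35016026769, nat_lit 38978384421, nat_lit 39277722148], nat_lit 1271250, nat_lit 1271250, nat_lit 1271250, nat_lit 1271250, nat_lit 1271250, nat_lit 1271250, [nat_lit 1100000, nat_lit 2127500, nat_lit 1271250], [nat_lit 56, nat_lit 40, nat_lit 40, nat_lit 80, nat_lit 32, nat_lit 538, nat_lit 300, nat_lit 12]⟩,
 zbF0, [⟨nat_lit 4, nat_lit 100, nat_lit 67, nat_lit 88, nat_lit 584870841⟩, ⟨nat_lit 7, nat_lit 72, nat_lit 100, nat_lit 89, nat_lit 374262554⟩]⟩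
noncomputable def p088_l100 : Lf2 := ⟨nat_lit 1, nat_lit 30, [nat_lit 15, nat_lit 5, nat_lit 5, nat_lit 20], false, nat_lit 160, nat_lit 300, nat_lit 0, nat_lit 364, zbN0,
 nat_lit 0, nat_lit 0, nat_lit 0, nat_lit 0, nat_lit 0, nat_lit 0, nat_lit 0, nat_lit 0, nat_lit 0, nat_lit 0, nat_lit 0, nat_lit 0, nat_lit 0, nat_lit 0, nat_lit 0, nat_lit 0, nat_lit 0, nat_lit 0, [],
 C1.Rw.none, C1.Rw.none,
 zbF0, []⟩
noncomputable def p088_l101 : Lf2 := ⟨nat_lit 0, nat_lit 25, [nat_lit 44, nat_lit 5, nat_lit 5, nat_lit 20], false, nat_lit 160, nat_lit 280, nat_lit 0, nat_lit 336, ⟨nat_lit 1000, nat_lit 0, nat_lit 0, nat_lit 0, nat_lit 0, nat_lit 0, nat_lit 0, nat_lit 0, nat_lit 0, nat_lit 0, nat_lit 0, nat_lit 0, nat_lit 0, nat_lit 0, nat_lit 0, nat_lit 0, false, false⟩,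
 nat_lit 0, nat_lit 0, nat_lit 14791, nat_lit 0, nat_lit 7124, nat_lit 8609, nat_lit 0, nat_lit 0, nat_lit 0, nat_lit 611, nat_lit 0, nat_lit 0, nat_lit 0, nat_lit 0, nat_lit 0, nat_lit 0, nat_lit 0, nat_lit 0, [],
 ⟨p088_k43, nat_lit 0, nat_lit 0, nat_lit 97, nat_lit 0, nat_lit 0, [nat_lit 2032000001, nat_lit 6250000000, nat_lit 9842000000], [], [nat_lit 22342337744, nat_lit 25703748912, nat_lit 32104461617, nat_lit 34792397981, nat_lit 26314061080, nat_lit 28909560120, nat_lit 34312697711, nat_lit 36386895545], nat_lit 0, nat_lit 0, nat_lit 0, nat_lit 0, nat_lit 0, nat_lit 0, [], [nat_lit 61, nat_lit 40, nat_lit 40, nat_lit 80, nat_lit 1, nat_lit 401, nat_lit 175, nat_lit 10]⟩, ⟨p088_k38, nat_lit 0, nat_lit 0, nat_lit 431, nat_lit 0, nat_lit 278972, [nat_lit 4688000000, nat_lit 9842000000, nat_lit 14058000000], [], [nat_lit 37198770294, nat_lit 37488644949, nat_lit 43529451962, nat_lit 43760970195, nat_lit 32969082376,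 nat_lit 32642347041, nat_lit 36386196058, nat_lit 36433989437], nat_lit 1271250, nat_lit 1271250, nat_lit 1271250, nat_lit 1271250, nat_lit 0, nat_lit 2373000, [nat_lit 1100000, nat_lit 2127500, nat_lit 1271250], [nat_lit 56, nat_lit 40, nat_lit 40, nat_lit 80, nat_lit 32, nat_lit 483, nat_lit 250, nat_lit 11]⟩,
 zbF0, [⟨nat_lit 4, nat_lit 100, nat_lit 73, nat_lit 85, nat_lit 561364749⟩, ⟨nat_lit 19, nat_lit 100, nat_lit 84, nat_lit 88, nat_lit 91299773⟩]⟩
noncomputable def p088_l102 : Lf2 := ⟨nat_lit 0, nat_lit 25, [nat_lit 44, nat_lit 5, nat_lit 5, nat_lit 20], false, nat_lit 160, nat_lit 280, nat_lit 0, nat_lit 328, ⟨nat_lit 1000, nat_lit 0, nat_lit 0, nat_lit 0, nat_lit 0, nat_lit 0, nat_lit 0, nat_lit 0, nat_lit 0, nat_lit 0, nat_lit 0, nat_lit 0, nat_lit 0, nat_lit 0, nat_lit 0, nat_lit 0, false, false⟩,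
 nat_lit 0, nat_lit 0, nat_lit 13175, nat_lit 0, nat_lit 7002, nat_lit 8023, nat_lit 0, nat_lit 0, nat_lit 0, nat_lit 628, nat_lit 0, nat_lit 0, nat_lit 0, nat_lit 0, nat_lit 0, nat_lit 0, nat_lit 0, nat_lit 0, [],
 ⟨p088_k43, nat_lit 0, nat_lit 0, nat_lit 99, nat_lit 0, nat_lit 0, [nat_lit 2032000001, nat_lit 6250000000, nat_lit 9842000000], [], [nat_lit 22455217512, nat_lit 25780903176, nat_lit 32329901228, nat_lit 34950139080, nat_lit 26410847340, nat_lit 28981524260, nat_lit 34469125964, nat_lit 36494213144], nat_lit 0, nat_lit 0, nat_lit 0, nat_lit 0, nat_lit 0, nat_lit 0, [], [nat_lit 61, nat_lit 40, nat_lit 40, nat_lit 80, nat_lit 1, nat_lit 401, nat_lit 175, nat_lit 10]⟩, ⟨p088_k44, nat_lit 0, nat_lit 0, nat_lit 447, nat_lit 0, nat_lit 329397, [nat_lit 4688000000, nat_lit 9842000000, nat_lit 14058000000], [], [nat_lit 36237589003, nat_lit 36523774788, nat_lit 42550756824, nat_lit 42775863857, nat_lit 31874326316,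 nat_lit 31988810607, nat_lit 35815008212, nat_lit 35874540515], nat_lit 1271250, nat_lit 1271250, nat_lit 1271250, nat_lit 1271250, nat_lit 0, nat_lit 2316500, [nat_lit 1100000, nat_lit 2127500, nat_lit 1271250], [nat_lit 56, nat_lit 40, nat_lit 40, nat_lit 80, nat_lit 32, nat_lit 538, nat_lit 300, nat_lit 12]⟩,
 zbF0, [⟨nat_lit 16, nat_lit 73, nat_lit 100, nat_lit 85, nat_lit 561014703⟩, ⟨nat_lit 7, nat_lit 89, nat_lit 100, nat_lit 90, nat_lit 91348378⟩]⟩
noncomputable def p088_l103 : Lf2 := ⟨nat_lit 1, nat_lit 25, [nat_lit 44, nat_lit 5, nat_lit 5, nat_lit 20], false, nat_lit 160, nat_lit 280, nat_lit 0, nat_lit 336, zbN0,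
 nat_lit 0, nat_lit 0, nat_lit 0, nat_lit 0, nat_lit 0, nat_lit 0, nat_lit 0, nat_lit 0, nat_lit 0, nat_lit 0, nat_lit 0, nat_lit 0, nat_lit 0, nat_lit 0, nat_lit 0, nat_lit 0, nat_lit 0, nat_lit 0, [],
 C1.Rw.none, C1.Rw.none,
 zbF0, []⟩
noncomputable def p088_l104 : Lf2 := ⟨nat_lit 0, nat_lit 25, [nat_lit 44, nat_lit 5, nat_lit 5, nat_lit 20], false, nat_lit 160, nat_lit 300, nat_lit 0, nat_lit 352, ⟨nat_lit 1000, nat_lit 0, nat_lit 0, nat_lit 0, nat_lit 0, nat_lit 0, nat_lit 0, nat_lit 0, nat_lit 0, nat_lit 0, nat_lit 0, nat_lit 0, nat_lit 0, nat_lit 0, nat_lit 0, nat_lit 0, false, false⟩,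
 nat_lit 0, nat_lit 0, nat_lit 15090, nat_lit 0, nat_lit 6579, nat_lit 8783, nat_lit 0, nat_lit 0, nat_lit 0, nat_lit 579, nat_lit 0, nat_lit 0, nat_lit 0, nat_lit 0, nat_lit 0, nat_lit 0, nat_lit 0, nat_lit 0, [],
 ⟨p088_k43, nat_lit 0, nat_lit 0, nat_lit 99, nat_lit 0, nat_lit 0, [nat_lit 2032000001, nat_lit 6250000000, nat_lit 9842000000], [], [nat_lit 22846595724, nat_lit 26048413452, nat_lit 32311830433, nat_lit 34345682176, nat_lit 27649912541, nat_lit 30008778789, nat_lit 34636448241, nat_lit 36501965254], nat_lit 0, nat_lit 0, nat_lit 0, nat_lit 0, nat_lit 0, nat_lit 0, [], [nat_lit 61, nat_lit 40, nat_lit 40, nat_lit 80, nat_lit 1, nat_lit 401, nat_lit 175, nat_lit 10]⟩, ⟨p088_k38, nat_lit 0, nat_lit 0, nat_lit 390, nat_lit 0, nat_lit 162108, [nat_lit 4688000000, nat_lit 9842000000, nat_lit 14058000000], [], [nat_lit 37592797378, nat_lit 38174737348, nat_lit 44474288694, nat_lit 44922132473, nat_lit 34191279443,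 nat_lit 33431745034, nat_lit 37721370484, nat_lit 38193482629], nat_lit 1271250, nat_lit 1271250, nat_lit 1271250, nat_lit 1271250, nat_lit 0, nat_lit 2486000, [nat_lit 1100000, nat_lit 2127500, nat_lit 1271250], [nat_lit 56, nat_lit 40, nat_lit 40, nat_lit 80, nat_lit 32, nat_lit 538, nat_lit 300, nat_lit 12]⟩,
 zbF0, [⟨nat_lit 4, nat_lit 100, nat_lit 75, nat_lit 94, nat_lit 512152170⟩, ⟨nat_lit 19, nat_lit 100, nat_lit 78, nat_lit 95, nat_lit 102791816⟩]⟩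
noncomputable def p088_l105 : Lf2 := ⟨nat_lit 1, nat_lit 30, [nat_lit 15, nat_lit 5, nat_lit 5, nat_lit 20], false, nat_lit 160, nat_lit 300, nat_lit 0, nat_lit 352, zbN0,
 nat_lit 0, nat_lit 0, nat_lit 0, nat_lit 0, nat_lit 0, nat_lit 0, nat_lit 0, nat_lit 0, nat_lit 0, nat_lit 0, nat_lit 0, nat_lit 0, nat_lit 0, nat_lit 0, nat_lit 0, nat_lit 0, nat_lit 0, nat_lit 0, [],
 C1.Rw.none, C1.Rw.none,
 zbF0, []⟩
noncomputable def b_V_800_600_20_48 : St := ⟨true, nat_lit 0, nat_lit 1, nat_lit 1, nat_lit 120, nat_lit 320, nat_lit 360, nat_lit 240, nat_lit 280, nat_lit 240, nat_lit 396, nat_lit 80, nat_lit 120, nat_lit 0, nat_lit 300, nat_lit 0, nat_lit 364, nat_lit 80, nat_lit 120, nat_lit 0, nat_lit 0, nat_lit 0, nat_lit 0⟩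
theorem d_V_800_600_20_48 (h : EB TB.env) : Dead b_V_800_600_20_48 := chkB_sound0 h (T :=
(.spl (nat_lit 4) (nat_lit 160)
(.spl (nat_lit 0) (nat_lit 340)
(.spl (nat_lit 6) (nat_lit 88)
(.leaf p088_l87)
(.leaf p088_l88))
(.trX (nat_lit 13) (nat_lit 78) (nat_lit 39) (nat_lit 100) (nat_lit 388) (.spl (nat_lit 1) (nat_lit 260)
(.trX (nat_lit 13) (nat_lit 75) (nat_lit 48) (nat_lit 100) (nat_lit 380) (.spl (nat_lit 6) (nat_lit 104)
(.spl (nat_lit 5) (nat_lit 160)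
(.leaf p088_l89)
(.spl (nat_lit 0) (nat_lit 350)
(.leaf p088_l90)
(.trX (nat_lit 13) (nat_lit 69) (nat_lit 54) (nat_lit 100) (nat_lit 372) (.trZ (nat_lit 3) (nat_lit 100) (nat_lit 83) (nat_lit 25) (nat_lit 4) (.leaf p088_l91)))))
(.leaf p088_l92)))
(.trX (nat_lit 19) (nat_lit 100) (nat_lit 69) (nat_lit 96) (nat_lit 352) (.spl (nat_lit 3) (nat_lit 100)
(.trX (nat_lit 19) (nat_lit 100) (nat_lit 77) (nat_lit 91) (nat_lit 336) (.spl (nat_lit 6) (nat_lit 108)
(.spl (nat_lit 0) (nat_lit 350)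
(.leaf p088_l93)
(.trX (nat_lit 13) (nat_lit 72) (nat_lit 46) (nat_lit 100) (nat_lit 384) (.trZ (nat_lit 3) (nat_lit 100) (nat_lit 83) (nat_lit 25) (nat_lit 4) (.leaf p088_l94))))
(.leaf p088_l95)))
(.trZ (nat_lit 3) (nat_lit 100) (nat_lit 82) (nat_lit 29) (nat_lit 4) (.leaf p088_l96)))))))
(.spl (nat_lit 1) (nat_lit 260)
(.trX (nat_lit 13) (nat_lit 84) (nat_lit 35) (nat_lit 100) (nat_lit 392) (.spl (nat_lit 6) (nat_lit 104)
(.spl (nat_lit 5) (nat_lit 160)
(.leaf p088_l97)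
(.spl (nat_lit 0) (nat_lit 340)
(.leaf p088_l98)
(.trX (nat_lit 13) (nat_lit 75) (nat_lit 48) (nat_lit 100) (nat_lit 380) (.trX (nat_lit 16) (nat_lit 77) (nat_lit 100) (nat_lit 99) (nat_lit 276) (.leaf p088_l99)))))
(.leaf p088_l100)))
(.trX (nat_lit 19) (nat_lit 100) (nat_lit 69) (nat_lit 96) (nat_lit 352) (.spl (nat_lit 3) (nat_lit 100)
(.trX (nat_lit 16) (nat_lit 87) (nat_lit 100) (nat_lit 94) (nat_lit 280) (.trX (nat_lit 19) (nat_lit 100) (nat_lit 77) (nat_lit 91) (nat_lit 336) (.spl (nat_lit 6) (nat_lit 108)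
(.spl (nat_lit 1) (nat_lit 270)
(.trX (nat_lit 13) (nat_lit 85) (nat_lit 30) (nat_lit 100) (nat_lit 392) (.leaf p088_l101))
(.trX (nat_lit 19) (nat_lit 100) (nat_lit 82) (nat_lit 92) (nat_lit 328) (.leaf p088_l102)))
(.leaf p088_l103))))
(.spl (nat_lit 6) (nat_lit 100)
(.leaf p088_l104)
(.leaf p088_l105))))))) (by decide +kernel)
noncomputable def p088_l106 : Lf2 := ⟨nat_lit 0, nat_lit 30, [nat_lit 15, nat_lit 5, nat_lit 5, nat_lit 20], true, nat_lit 0, nat_lit 300, nat_lit 0, nat_lit 364, ⟨nat_lit 0, nat_lit 1000, nat_lit 0, nat_lit 6, nat_lit 195, nat_lit 1000, nat_lit 110, nat_lit 0, nat_lit 0, nat_lit 0, nat_lit 0, nat_lit 0, nat_lit 0, nat_lit 0, nat_lit 0, nat_lit 5000000, false, false⟩,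
 nat_lit 0, nat_lit 0, nat_lit 0, nat_lit 9659, nat_lit 6226, nat_lit 0, nat_lit 0, nat_lit 0, nat_lit 0, nat_lit 0, nat_lit 0, nat_lit 0, nat_lit 0, nat_lit 0, nat_lit 0, nat_lit 400000, nat_lit 0, nat_lit 0, [(nat_lit 20, [(nat_lit 1, nat_lit 1000)]), (nat_lit 23, [(nat_lit 1, nat_lit 1000)])],
 ⟨p088_k27, nat_lit 0, nat_lit 0, nat_lit 333, nat_lit 0, nat_lit 0, [nat_lit 2268400001, nat_lit 1709200000], [], [nat_lit 30168114031, nat_lit 32319829148, nat_lit 29288326952, nat_lit 31351872192, nat_lit 27621423082, nat_lit 29875199125, nat_lit 26947130942, nat_lit 28679242588], nat_lit 0, nat_lit 0, nat_lit 0, nat_lit 0, nat_lit 0, nat_lit 0, [], [nat_lit 190, nat_lit 40, nat_lit 40, nat_lit 80, nat_lit 192, nat_lit 373, nat_lit 150, nat_lit 10]⟩, C1.Rw.none,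
 ⟨nat_lit 3162, nat_lit 4473, ⟨.ofNat (nat_lit 311562), .ofNat (nat_lit 611007), .ofNat (nat_lit 354514), .ofNat (nat_lit 653959), .ofNat (nat_lit 336623), .ofNat (nat_lit 605159), .ofNat (nat_lit 380752), .ofNat (nat_lit 649288)⟩, ⟨.ofNat (nat_lit 0), .ofNat (nat_lit 540545), .ofNat (nat_lit 0), .ofNat (nat_lit 583678), .ofNat (nat_lit 0), .ofNat (nat_lit 519453), .ofNat (nat_lit 0), .ofNat (nat_lit 563762)⟩⟩, [⟨nat_lit 4, nat_lit 100, nat_lit 74, nat_lit 90, nat_lit 32670568⟩]⟩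
noncomputable def p088_l107 : Lf2 := ⟨nat_lit 0, nat_lit 30, [nat_lit 15, nat_lit 5, nat_lit 5, nat_lit 20], false, nat_lit 0, nat_lit 160, nat_lit 0, nat_lit 364, ⟨nat_lit 441, nat_lit 559, nat_lit 0, nat_lit 6, nat_lit 304, nat_lit 559, nat_lit 65, nat_lit 0, nat_lit 0, nat_lit 0, nat_lit 0, nat_lit 0, nat_lit 0, nat_lit 0, nat_lit 0, nat_lit 5000000, true, true⟩,
 nat_lit 0, nat_lit 0, nat_lit 0, nat_lit 23232, nat_lit 4602, nat_lit 3446, nat_lit 391, nat_lit 0, nat_lit 0, nat_lit 384, nat_lit 0, nat_lit 0, nat_lit 0, nat_lit 0, nat_lit 0, nat_lit 251800, nat_lit 0, nat_lit 0, [(nat_lit 20, [(nat_lit 1, nat_lit 512), (nat_lit 2, nat_lit 47)])],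
 ⟨p088_k28, nat_lit 0, nat_lit 0, nat_lit 233, nat_lit 0, nat_lit 0, [nat_lit 1691953200, nat_lit 3221631520, nat_lit 5801383200], [], [nat_lit 26926232421, nat_lit 27935465705, nat_lit 33813892781, nat_lit 35023812561, nat_lit 24631143333, nat_lit 25496119757, nat_lit 29901599781, nat_lit 30522493828], nat_lit 0, nat_lit 0, nat_lit 0, nat_lit 0, nat_lit 0, nat_lit 0, [], [nat_lit 75, nat_lit 40, nat_lit 40, nat_lit 80, nat_lit 65, nat_lit 373, nat_lit 150, nat_lit 9]⟩, ⟨p088_k24, nat_lit 0, nat_lit 0, nat_lit 308, nat_lit 0, nat_lit 0, [nat_lit 2067408000, nat_lit 3513888000, nat_lit 7232400000], [], [nat_lit 16451787328, nat_lit 16914200600, nat_lit 19360429485, nat_lit 19653015392, nat_lit 15164203591, nat_lit 15296906911, nat_lit 16590156312, nat_lit 16625706389], nat_lit 0, nat_lit 0, nat_lit 0, nat_lit 0, nat_lit 0, nat_lit 0, [], [nat_lit 122, nat_lit 40, nat_lit 40, nat_lit 80, nat_lit 111, nat_lit 538,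 nat_lit 300, nat_lit 11]⟩,
 ⟨nat_lit 3872, nat_lit 4473, ⟨.ofNat (nat_lit 611083), .ofNat (nat_lit 876219), .ofNat (nat_lit 654181), .ofNat (nat_lit 919326), .ofNat (nat_lit 608080), .ofNat (nat_lit 859735), .ofNat (nat_lit 651631), .ofNat (nat_lit 903295)⟩, ⟨.ofNat (nat_lit 0), .ofNat (nat_lit 302621), .ofNat (nat_lit 0), .ofNat (nat_lit 345754), .ofNat (nat_lit 0), .ofNat (nat_lit 304717), .ofNat (nat_lit 0), .ofNat (nat_lit 348304)⟩⟩, [⟨nat_lit 22, nat_lit 84, nat_lit 100, nat_lit 84, nat_lit 63691493⟩]⟩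
noncomputable def p088_l108 : Lf2 := ⟨nat_lit 0, nat_lit 30, [nat_lit 15, nat_lit 5, nat_lit 5, nat_lit 20], true, nat_lit 0, nat_lit 160, nat_lit 0, nat_lit 364, ⟨nat_lit 0, nat_lit 1000, nat_lit 0, nat_lit 6, nat_lit 298, nat_lit 1000, nat_lit 65, nat_lit 0, nat_lit 0, nat_lit 0, nat_lit 0, nat_lit 0, nat_lit 0, nat_lit 0, nat_lit 0, nat_lit 5000000, true, true⟩,
 nat_lit 0, nat_lit 0, nat_lit 0, nat_lit 11290, nat_lit 3052, nat_lit 0, nat_lit 0, nat_lit 0, nat_lit 0, nat_lit 0, nat_lit 0, nat_lit 0, nat_lit 0, nat_lit 0, nat_lit 0, nat_lit 500800, nat_lit 0, nat_lit 0, [(nat_lit 23, [(nat_lit 1, nat_lit 832), (nat_lit 2, nat_lit 168)])],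
 ⟨p088_k29, nat_lit 0, nat_lit 0, nat_lit 222, nat_lit 0, nat_lit 0, [nat_lit 1454142401, nat_lit 1025618401, nat_lit 18067467], [], [nat_lit 25491550013, nat_lit 26330999309, nat_lit 30323663572, nat_lit 31094138152, nat_lit 25068572629, nat_lit 25796393645, nat_lit 29265341125, nat_lit 29810750649], nat_lit 0, nat_lit 0, nat_lit 0, nat_lit 0, nat_lit 0, nat_lit 0, [], [nat_lit 61, nat_lit 40, nat_lit 40, nat_lit 80, nat_lit 1, nat_lit 373, nat_lit 150, nat_lit 10]⟩, C1.Rw.none,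
 ⟨nat_lit 3162, nat_lit 3873, ⟨.ofNat (nat_lit 608082), .ofNat (nat_lit 846836), .ofNat (nat_lit 651611), .ofNat (nat_lit 890423), .ofNat (nat_lit 605237), .ofNat (nat_lit 830789), .ofNat (nat_lit 649490), .ofNat (nat_lit 875099)⟩, ⟨.ofNat (nat_lit 0), .ofNat (nat_lit 304717), .ofNat (nat_lit 0), .ofNat (nat_lit 348304), .ofNat (nat_lit 0), .ofNat (nat_lit 306116), .ofNat (nat_lit 0), .ofNat (nat_lit 350426)⟩⟩, [⟨nat_lit 13, nat_lit 69, nat_lit 54, nat_lit 100, nat_lit 309849312⟩]⟩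
noncomputable def p088_l109 : Lf2 := ⟨nat_lit 0, nat_lit 30, [nat_lit 15, nat_lit 5, nat_lit 5, nat_lit 20], false, nat_lit 160, nat_lit 300, nat_lit 0, nat_lit 364, ⟨nat_lit 645, nat_lit 355, nat_lit 0, nat_lit 6, nat_lit 302, nat_lit 355, nat_lit 176, nat_lit 0, nat_lit 0, nat_lit 0, nat_lit 0, nat_lit 0, nat_lit 0, nat_lit 0, nat_lit 0, nat_lit 5000000, true, true⟩,
 nat_lit 0, nat_lit 0, nat_lit 0, nat_lit 14098, nat_lit 5421, nat_lit 5884, nat_lit 0, nat_lit 0, nat_lit 0, nat_lit 359, nat_lit 0, nat_lit 0, nat_lit 0, nat_lit 0, nat_lit 0, nat_lit 88750, nat_lit 0, nat_lit 0, [(nat_lit 20, [(nat_lit 0, nat_lit 355)]), (nat_lit 23, [(nat_lit 0, nat_lit 355)])],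
 ⟨p088_k32, nat_lit 0, nat_lit 0, nat_lit 99, nat_lit 0, nat_lit 0, [nat_lit 1870120000, nat_lit 4996140000, nat_lit 8878498000], [], [nat_lit 22664168276, nat_lit 25526886548, nat_lit 31256887968, nat_lit 33122244225, nat_lit 27249175459, nat_lit 29390671211, nat_lit 33627159432, nat_lit 35035612311], nat_lit 0, nat_lit 0, nat_lit 0, nat_lit 0, nat_lit 0, nat_lit 0, [], [nat_lit 72, nat_lit 40, nat_lit 40, nat_lit 80, nat_lit 12, nat_lit 401, nat_lit 175, nat_lit 9]⟩, ⟨p088_k30, nat_lit 0, nat_lit 0, nat_lit 322, nat_lit 0, nat_lit 0, [nat_lit 3023760000, nat_lit 6348090000, nat_lit 10578000000], [], [nat_lit 26916027493, nat_lit 27494900497, nat_lit 30855417783, nat_lit 31256516229, nat_lit 23449400571, nat_lit 23532705028, nat_lit 25422293863, nat_lit 25401536756], nat_lit 0, nat_lit 0, nat_lit 0, nat_lit 0, nat_lit 0, nat_lit 0, [], [nat_lit 83, nat_lit 40, nat_lit 40, nat_lit 80, nat_lit 73, nat_lit 538,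 nat_lit 300, nat_lit 11]⟩,
 ⟨nat_lit 3162, nat_lit 4473, ⟨.ofNat (nat_lit 611007), .ofNat (nat_lit 876224), .ofNat (nat_lit 653959), .ofNat (nat_lit 919290), .ofNat (nat_lit 605159), .ofNat (nat_lit 842980), .ofNat (nat_lit 649288), .ofNat (nat_lit 887222)⟩, ⟨.ofNat (nat_lit 302621), .ofNat (nat_lit 540545), .ofNat (nat_lit 345754), .ofNat (nat_lit 583678), .ofNat (nat_lit 306116), .ofNat (nat_lit 519453), .ofNat (nat_lit 350426), .ofNat (nat_lit 563762)⟩⟩, [⟨nat_lit 4, nat_lit 100, nat_lit 74, nat_lit 90, nat_lit 369497995⟩, ⟨nat_lit 7, nat_lit 77, nat_lit 100, nat_lit 91, nat_lit 50569959⟩]⟩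
noncomputable def p088_l110 : Lf2 := ⟨nat_lit 0, nat_lit 30, [nat_lit 15, nat_lit 5, nat_lit 5, nat_lit 20], true, nat_lit 0, nat_lit 300, nat_lit 0, nat_lit 364, ⟨nat_lit 0, nat_lit 1000, nat_lit 0, nat_lit 6, nat_lit 195, nat_lit 1000, nat_lit 110, nat_lit 0, nat_lit 0, nat_lit 0, nat_lit 0, nat_lit 0, nat_lit 0, nat_lit 0, nat_lit 0, nat_lit 5000000, false, false⟩,
 nat_lit 0, nat_lit 0, nat_lit 0, nat_lit 9659, nat_lit 6226, nat_lit 0, nat_lit 0, nat_lit 0, nat_lit 0, nat_lit 0, nat_lit 0, nat_lit 0, nat_lit 0, nat_lit 0, nat_lit 0, nat_lit 400000, nat_lit 0, nat_lit 0, [(nat_lit 20, [(nat_lit 1, nat_lit 1000)]), (nat_lit 23, [(nat_lit 1, nat_lit 1000)])],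
 ⟨p088_k27, nat_lit 0, nat_lit 0, nat_lit 333, nat_lit 0, nat_lit 0, [nat_lit 2268400001, nat_lit 1709200000], [], [nat_lit 30168114031, nat_lit 32319829148, nat_lit 29288326952, nat_lit 31351872192, nat_lit 27621423082, nat_lit 29875199125, nat_lit 26947130942, nat_lit 28679242588], nat_lit 0, nat_lit 0, nat_lit 0, nat_lit 0, nat_lit 0, nat_lit 0, [], [nat_lit 190, nat_lit 40, nat_lit 40, nat_lit 80, nat_lit 192, nat_lit 373, nat_lit 150, nat_lit 10]⟩, C1.Rw.none,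
 ⟨nat_lit 3162, nat_lit 4473, ⟨.ofNat (nat_lit 311562), .ofNat (nat_lit 611007), .ofNat (nat_lit 354514), .ofNat (nat_lit 653959), .ofNat (nat_lit 336623), .ofNat (nat_lit 605159), .ofNat (nat_lit 380752), .ofNat (nat_lit 649288)⟩, ⟨.ofNat (nat_lit 0), .ofNat (nat_lit 540545), .ofNat (nat_lit 0), .ofNat (nat_lit 583678), .ofNat (nat_lit 0), .ofNat (nat_lit 519453), .ofNat (nat_lit 0), .ofNat (nat_lit 563762)⟩⟩, [⟨nat_lit 4, nat_lit 100, nat_lit 74, nat_lit 90, nat_lit 32670568⟩]⟩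
noncomputable def p088_l111 : Lf2 := ⟨nat_lit 0, nat_lit 30, [nat_lit 15, nat_lit 5, nat_lit 5, nat_lit 20], false, nat_lit 0, nat_lit 160, nat_lit 0, nat_lit 364, ⟨nat_lit 385, nat_lit 615, nat_lit 0, nat_lit 6, nat_lit 304, nat_lit 615, nat_lit 65, nat_lit 0, nat_lit 0, nat_lit 0, nat_lit 0, nat_lit 0, nat_lit 0, nat_lit 0, nat_lit 0, nat_lit 5000000, true, true⟩,
 nat_lit 0, nat_lit 0, nat_lit 5686, nat_lit 16549, nat_lit 4400, nat_lit 3010, nat_lit 290, nat_lit 0, nat_lit 0, nat_lit 335, nat_lit 0, nat_lit 0, nat_lit 0, nat_lit 0, nat_lit 0, nat_lit 360600, nat_lit 0, nat_lit 0, [(nat_lit 20, [(nat_lit 1, nat_lit 424), (nat_lit 2, nat_lit 191)])],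
 ⟨p088_k28, nat_lit 0, nat_lit 0, nat_lit 233, nat_lit 0, nat_lit 0, [nat_lit 1699118001, nat_lit 2978910881, nat_lit 4181700000], [], [nat_lit 26532605831, nat_lit 27522438631, nat_lit 33256964561, nat_lit 34442351481, nat_lit 24453524231, nat_lit 25303429031, nat_lit 29657372471, nat_lit 30271026402], nat_lit 0, nat_lit 0, nat_lit 0, nat_lit 0, nat_lit 0, nat_lit 0, [], [nat_lit 75, nat_lit 40, nat_lit 40, nat_lit 80, nat_lit 65, nat_lit 373, nat_lit 150, nat_lit 9]⟩, ⟨p088_k24, nat_lit 0, nat_lit 0, nat_lit 411, nat_lit 0, nat_lit 71330, [nat_lit 1804880000, nat_lit 3067680000, nat_lit 6314000000], [], [nat_lit 14365145055, nat_lit 14768862775, nat_lit 16907412909, nat_lit 17162794581, nat_lit 13239109880, nat_lit 13354868536, nat_lit 14486322331, nat_lit 14517221278], nat_lit 1271250, nat_lit 1271250, nat_lit 1271250, nat_lit 1271250, nat_lit 0, nat_lit 2570750, [nat_lit 1100000, nat_lit 1785000, nat_lit 1271250],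 [nat_lit 122, nat_lit 40, nat_lit 40, nat_lit 80, nat_lit 111, nat_lit 538, nat_lit 300, nat_lit 11]⟩,
 ⟨nat_lit 3872, nat_lit 4473, ⟨.ofNat (nat_lit 611083), .ofNat (nat_lit 876219), .ofNat (nat_lit 654181), .ofNat (nat_lit 919326), .ofNat (nat_lit 608080), .ofNat (nat_lit 859735), .ofNat (nat_lit 651631), .ofNat (nat_lit 903295)⟩, ⟨.ofNat (nat_lit 0), .ofNat (nat_lit 302621), .ofNat (nat_lit 0), .ofNat (nat_lit 345754), .ofNat (nat_lit 0), .ofNat (nat_lit 304717), .ofNat (nat_lit 0), .ofNat (nat_lit 348304)⟩⟩, [⟨nat_lit 10, nat_lit 100, nat_lit 53, nat_lit 80, nat_lit 92563882⟩]⟩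
noncomputable def p088_l112 : Lf2 := ⟨nat_lit 0, nat_lit 30, [nat_lit 15, nat_lit 5, nat_lit 5, nat_lit 20], true, nat_lit 0, nat_lit 160, nat_lit 0, nat_lit 364, ⟨nat_lit 0, nat_lit 1000, nat_lit 0, nat_lit 6, nat_lit 298, nat_lit 1000, nat_lit 65, nat_lit 0, nat_lit 0, nat_lit 0, nat_lit 0, nat_lit 0, nat_lit 0, nat_lit 0, nat_lit 0, nat_lit 5000000, true, true⟩,
 nat_lit 0, nat_lit 0, nat_lit 0, nat_lit 11343, nat_lit 3045, nat_lit 0, nat_lit 0, nat_lit 0, nat_lit 0, nat_lit 0, nat_lit 0, nat_lit 0, nat_lit 0, nat_lit 0, nat_lit 2, nat_lit 503800, nat_lit 0, nat_lit 0, [(nat_lit 23, [(nat_lit 1, nat_lit 827), (nat_lit 2, nat_lit 173)])],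
 ⟨p088_k23, nat_lit 0, nat_lit 0, nat_lit 212, nat_lit 0, nat_lit 0, [nat_lit 1379035334, nat_lit 1465193601, nat_lit 65468600], [], [nat_lit 25136435935, nat_lit 26024234595, nat_lit 30307193433, nat_lit 31073824216, nat_lit 24796641925, nat_lit 25564751115, nat_lit 29222126278, nat_lit 29795601584], nat_lit 0, nat_lit 0, nat_lit 0, nat_lit 0, nat_lit 0, nat_lit 0, [], [nat_lit 27, nat_lit 40, nat_lit 40, nat_lit 80, nat_lit 13, nat_lit 373, nat_lit 150, nat_lit 10]⟩, C1.Rw.none,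
 ⟨nat_lit 3162, nat_lit 3873, ⟨.ofNat (nat_lit 608082), .ofNat (nat_lit 846836), .ofNat (nat_lit 651611), .ofNat (nat_lit 890423), .ofNat (nat_lit 605237), .ofNat (nat_lit 830789), .ofNat (nat_lit 649490), .ofNat (nat_lit 875099)⟩, ⟨.ofNat (nat_lit 0), .ofNat (nat_lit 304717), .ofNat (nat_lit 0), .ofNat (nat_lit 348304), .ofNat (nat_lit 0), .ofNat (nat_lit 306116), .ofNat (nat_lit 0), .ofNat (nat_lit 350426)⟩⟩, [⟨nat_lit 13, nat_lit 69, nat_lit 54, nat_lit 100, nat_lit 320452156⟩]⟩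
noncomputable def p088_l113 : Lf2 := ⟨nat_lit 0, nat_lit 30, [nat_lit 15, nat_lit 5, nat_lit 5, nat_lit 20], false, nat_lit 160, nat_lit 300, nat_lit 0, nat_lit 364, ⟨nat_lit 664, nat_lit 336, nat_lit 0, nat_lit 6, nat_lit 304, nat_lit 336, nat_lit 177, nat_lit 0, nat_lit 0, nat_lit 0, nat_lit 0, nat_lit 0, nat_lit 0, nat_lit 0, nat_lit 0, nat_lit 5000000, true, true⟩,
 nat_lit 0, nat_lit 0, nat_lit 11455, nat_lit 9387, nat_lit 5577, nat_lit 6064, nat_lit 0, nat_lit 0, nat_lit 0, nat_lit 378, nat_lit 0, nat_lit 0, nat_lit 0, nat_lit 0, nat_lit 0, nat_lit 84000, nat_lit 0, nat_lit 0, [(nat_lit 20, [(nat_lit 0, nat_lit 336)])],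
 ⟨p088_k32, nat_lit 0, nat_lit 0, nat_lit 94, nat_lit 0, nat_lit 0, [nat_lit 1864806401, nat_lit 5063248000, nat_lit 9038713600], [], [nat_lit 22586938212, nat_lit 24041138244, nat_lit 31297198787, nat_lit 32241226352, nat_lit 27201354983, nat_lit 28286744395, nat_lit 33647279873, nat_lit 34358750517], nat_lit 0, nat_lit 0, nat_lit 0, nat_lit 0, nat_lit 0, nat_lit 0, [], [nat_lit 72, nat_lit 40, nat_lit 40, nat_lit 80, nat_lit 12, nat_lit 401, nat_lit 175, nat_lit 9]⟩, ⟨p088_k30, nat_lit 0, nat_lit 0, nat_lit 412, nat_lit 0, nat_lit 71330, [nat_lit 3112832000, nat_lit 6535088000, nat_lit 10889600000], [], [nat_lit 27561777710, nat_lit 28157697422, nat_lit 31629628248, nat_lit 32042329829, nat_lit 26725002253, nat_lit 24069635382, nat_lit 26096237310, nat_lit 26140123380], nat_lit 1271250, nat_lit 1271250, nat_lit 1271250, nat_lit 1271250, nat_lit 0, nat_lit 2570750, [nat_lit 1100000, nat_lit 2127500, nat_lit 1271250],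 [nat_lit 83, nat_lit 40, nat_lit 40, nat_lit 80, nat_lit 73, nat_lit 538, nat_lit 300, nat_lit 11]⟩,
 ⟨nat_lit 3872, nat_lit 4473, ⟨.ofNat (nat_lit 611083), .ofNat (nat_lit 876219), .ofNat (nat_lit 654181), .ofNat (nat_lit 919326), .ofNat (nat_lit 608080), .ofNat (nat_lit 859735), .ofNat (nat_lit 651631), .ofNat (nat_lit 903295)⟩, ⟨.ofNat (nat_lit 302621), .ofNat (nat_lit 540545), .ofNat (nat_lit 345754), .ofNat (nat_lit 583678), .ofNat (nat_lit 304717), .ofNat (nat_lit 530543), .ofNat (nat_lit 348304), .ofNat (nat_lit 574129)⟩⟩, [⟨nat_lit 4, nat_lit 100, nat_lit 81, nat_lit 92, nat_lit 339833752⟩, ⟨nat_lit 7, nat_lit 77, nat_lit 100, nat_lit 91, nat_lit 53967212⟩]⟩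
noncomputable def p088_l114 : Lf2 := ⟨nat_lit 0, nat_lit 30, [nat_lit 15, nat_lit 5, nat_lit 5, nat_lit 20], true, nat_lit 160, nat_lit 276, nat_lit 0, nat_lit 364, ⟨nat_lit 0, nat_lit 1000, nat_lit 0, nat_lit 6, nat_lit 298, nat_lit 1000, nat_lit 167, nat_lit 0, nat_lit 0, nat_lit 0, nat_lit 0, nat_lit 0, nat_lit 0, nat_lit 0, nat_lit 0, nat_lit 5000000, true, true⟩,
 nat_lit 0, nat_lit 0, nat_lit 0, nat_lit 11933, nat_lit 3741, nat_lit 0, nat_lit 0, nat_lit 0, nat_lit 0, nat_lit 0, nat_lit 0, nat_lit 0, nat_lit 0, nat_lit 0, nat_lit 0, nat_lit 250000, nat_lit 0, nat_lit 0, [(nat_lit 23, [(nat_lit 0, nat_lit 1000)])],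
 ⟨p088_k29, nat_lit 0, nat_lit 0, nat_lit 96, nat_lit 0, nat_lit 0, [nat_lit 1576000001, nat_lit 2330800000, nat_lit 3132400000], [], [nat_lit 22823107599, nat_lit 23940707333, nat_lit 29284425436, nat_lit 30114106155, nat_lit 25891832773, nat_lit 26853535130, nat_lit 31212698494, nat_lit 31896097291], nat_lit 0, nat_lit 0, nat_lit 0, nat_lit 0, nat_lit 0, nat_lit 0, [], [nat_lit 61, nat_lit 40, nat_lit 40, nat_lit 80, nat_lit 1, nat_lit 401, nat_lit 175, nat_lit 10]⟩, C1.Rw.none,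
 ⟨nat_lit 3162, nat_lit 3873, ⟨.ofNat (nat_lit 608082), .ofNat (nat_lit 846836), .ofNat (nat_lit 651611), .ofNat (nat_lit 890423), .ofNat (nat_lit 605237), .ofNat (nat_lit 830789), .ofNat (nat_lit 649490), .ofNat (nat_lit 875099)⟩, ⟨.ofNat (nat_lit 304717), .ofNat (nat_lit 491830), .ofNat (nat_lit 348304), .ofNat (nat_lit 535416), .ofNat (nat_lit 306116), .ofNat (nat_lit 482881), .ofNat (nat_lit 350426), .ofNat (nat_lit 527190)⟩⟩, [⟨nat_lit 13, nat_lit 69, nat_lit 54, nat_lit 100, nat_lit 360196256⟩, ⟨nat_lit 4, nat_lit 100, nat_lit 67, nat_lit 88, nat_lit 297547843⟩]⟩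
noncomputable def b_V_800_600_20_49 : St := ⟨true, nat_lit 0, nat_lit 2, nat_lit 2, nat_lit 120, nat_lit 320, nat_lit 360, nat_lit 240, nat_lit 280, nat_lit 64, nat_lit 396, nat_lit 80, nat_lit 120, nat_lit 0, nat_lit 300, nat_lit 0, nat_lit 364, nat_lit 80, nat_lit 120, nat_lit 0, nat_lit 0, nat_lit 0, nat_lit 0⟩
theorem d_V_800_600_20_49 (h : EB TB.env) : Dead b_V_800_600_20_49 := chkB_sound0 h (T :=
(.st (nat_lit 1)
(.spl (nat_lit 2) (nat_lit 240)
(.leaf p088_l106)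
(.spl (nat_lit 4) (nat_lit 160)
(.spl (nat_lit 0) (nat_lit 340)
(.leaf p088_l107)
(.trX (nat_lit 13) (nat_lit 78) (nat_lit 39) (nat_lit 100) (nat_lit 388) (.leaf p088_l108)))
(.leaf p088_l109)))
(.spl (nat_lit 2) (nat_lit 240)
(.leaf p088_l110)
(.spl (nat_lit 4) (nat_lit 160)
(.spl (nat_lit 0) (nat_lit 340)
(.leaf p088_l111)
(.trX (nat_lit 13) (nat_lit 78) (nat_lit 39) (nat_lit 100) (nat_lit 388) (.leaf p088_l112)))
(.spl (nat_lit 0) (nat_lit 340)
(.leaf p088_l113)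
(.trX (nat_lit 13) (nat_lit 78) (nat_lit 39) (nat_lit 100) (nat_lit 388) (.trX (nat_lit 16) (nat_lit 77) (nat_lit 100) (nat_lit 99) (nat_lit 276) (.leaf p088_l114)))))))) (by decide +kernel)
noncomputable def p088_l115 : Lf2 := ⟨nat_lit 0, nat_lit 22, [nat_lit 146, nat_lit 5, nat_lit 5, nat_lit 20], true, nat_lit 0, nat_lit 160, nat_lit 0, nat_lit 364, ⟨nat_lit 0, nat_lit 0, nat_lit 1000, nat_lit 6, nat_lit 154, nat_lit 541, nat_lit 65, nat_lit 1000, nat_lit 40017, nat_lit 264, nat_lit 153600, nat_lit 311, nat_lit 58308227, nat_lit 0, nat_lit 0, nat_lit 1929344, false, false⟩,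
 nat_lit 0, nat_lit 3517, nat_lit 0, nat_lit 100000, nat_lit 2637, nat_lit 0, nat_lit 70, nat_lit 0, nat_lit 0, nat_lit 0, nat_lit 0, nat_lit 0, nat_lit 0, nat_lit 0, nat_lit 126, nat_lit 400000, nat_lit 0, nat_lit 0, [(nat_lit 20, [(nat_lit 5, nat_lit 1000)])],
 ⟨p088_k18, nat_lit 0, nat_lit 0, nat_lit 284, nat_lit 0, nat_lit 32785, [nat_lit 1936800001, nat_lit 1581600001, nat_lit 184400000], [], [nat_lit 16036876962, nat_lit 17502142667, nat_lit 16311299416, nat_lit 17410192322, nat_lit 16449919852, nat_lit 17450288292, nat_lit 16830368040, nat_lit 17775984320], nat_lit 1271250, nat_lit 1271250, nat_lit 382400, nat_lit 780000, nat_lit 0, nat_lit 1100001, [nat_lit 490000, nat_lit 1100000, nat_lit 2127500], [nat_lit 27, nat_lit 40, nat_lit 40, nat_lit 80, nat_lit 13, nat_lit 289, nat_lit 75, nat_lit 8]⟩, C1.Rw.none,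
 ⟨nat_lit 3872, nat_lit 4473, ⟨.ofNat (nat_lit 311945), .ofNat (nat_lit 407125), .ofNat (nat_lit 355043), .ofNat (nat_lit 450223), .ofNat (nat_lit 324151), .ofNat (nat_lit 414492), .ofNat (nat_lit 367703), .ofNat (nat_lit 458043)⟩, ⟨.ofNat (nat_lit 0), .ofNat (nat_lit 302621), .ofNat (nat_lit 0), .ofNat (nat_lit 345754), .ofNat (nat_lit 0), .ofNat (nat_lit 304717), .ofNat (nat_lit 0), .ofNat (nat_lit 348304)⟩⟩, [⟨nat_lit 0, nat_lit 99, nat_lit 77, nat_lit 100, nat_lit 3562858645⟩]⟩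
noncomputable def p088_l116 : Lf2 := ⟨nat_lit 0, nat_lit 22, [nat_lit 146, nat_lit 5, nat_lit 5, nat_lit 20], true, nat_lit 0, nat_lit 160, nat_lit 0, nat_lit 364, ⟨nat_lit 0, nat_lit 0, nat_lit 1000, nat_lit 6, nat_lit 186, nat_lit 529, nat_lit 65, nat_lit 1000, nat_lit 40017, nat_lit 264, nat_lit 19503, nat_lit 247, nat_lit 55063233, nat_lit 0, nat_lit 0, nat_lit 2342963, false, false⟩,
 nat_lit 0, nat_lit 3346, nat_lit 0, nat_lit 6560, nat_lit 2509, nat_lit 0, nat_lit 69, nat_lit 0, nat_lit 0, nat_lit 0, nat_lit 0, nat_lit 0, nat_lit 0, nat_lit 0, nat_lit 126, nat_lit 400000, nat_lit 0, nat_lit 0, [(nat_lit 20, [(nat_lit 5, nat_lit 1000)])],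
 ⟨p088_k18, nat_lit 0, nat_lit 0, nat_lit 195, nat_lit 0, nat_lit 32785, [nat_lit 1936800001, nat_lit 1581600001, nat_lit 184400000], [], [nat_lit 16169061346, nat_lit 17332436969, nat_lit 16851744498, nat_lit 17933962296, nat_lit 16595207302, nat_lit 17578004716, nat_lit 17233684294, nat_lit 18260196050], nat_lit 1271250, nat_lit 1271250, nat_lit 780000, nat_lit 1100001, nat_lit 0, nat_lit 1100001, [nat_lit 490000, nat_lit 1100000, nat_lit 2127500], [nat_lit 27, nat_lit 40, nat_lit 40, nat_lit 80, nat_lit 13, nat_lit 317, nat_lit 100, nat_lit 9]⟩, C1.Rw.none,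
 ⟨nat_lit 3872, nat_lit 4473, ⟨.ofNat (nat_lit 407125), .ofNat (nat_lit 475111), .ofNat (nat_lit 450223), .ofNat (nat_lit 518209), .ofNat (nat_lit 414492), .ofNat (nat_lit 479021), .ofNat (nat_lit 458043), .ofNat (nat_lit 522572)⟩, ⟨.ofNat (nat_lit 0), .ofNat (nat_lit 302621), .ofNat (nat_lit 0), .ofNat (nat_lit 345754), .ofNat (nat_lit 0), .ofNat (nat_lit 304717), .ofNat (nat_lit 0), .ofNat (nat_lit 348304)⟩⟩, []⟩
noncomputable def p088_l117 : Lf2 := ⟨nat_lit 0, nat_lit 22, [nat_lit 146, nat_lit 5, nat_lit 5, nat_lit 20], false, nat_lit 0, nat_lit 160, nat_lit 0, nat_lit 364, ⟨nat_lit 958, nat_lit 0, nat_lit 42, nat_lit 6, nat_lit 226, nat_lit 42, nat_lit 65, nat_lit 42, nat_lit 40017, nat_lit 264, nat_lit 37112, nat_lit 200, nat_lit 50788003, nat_lit 0, nat_lit 0, nat_lit 2766700, false, false⟩,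
 nat_lit 0, nat_lit 8326, nat_lit 0, nat_lit 25070, nat_lit 6244, nat_lit 9523, nat_lit 917, nat_lit 0, nat_lit 0, nat_lit 1140, nat_lit 0, nat_lit 0, nat_lit 0, nat_lit 0, nat_lit 0, nat_lit 42000, nat_lit 0, nat_lit 0, [(nat_lit 20, [(nat_lit 6, nat_lit 42)])],
 ⟨p088_k18, nat_lit 0, nat_lit 0, nat_lit 187, nat_lit 0, nat_lit 32785, [nat_lit 1990974401, nat_lit 4442972000, nat_lit 9033600800], [], [nat_lit 22072252169, nat_lit 23876885136, nat_lit 24772761120, nat_lit 27124488136, nat_lit 17942200489, nat_lit 19464557856, nat_lit 20413888992, nat_lit 22083326960], nat_lit 1271250, nat_lit 1271250, nat_lit 1100001, nat_lit 1785000, nat_lit 0, nat_lit 1100001, [nat_lit 490000, nat_lit 1100000, nat_lit 2127500], [nat_lit 27, nat_lit 40, nat_lit 40, nat_lit 80, nat_lit 13, nat_lit 317, nat_lit 100, nat_lit 9]⟩, ⟨p088_k19, nat_lit 0, nat_lit 0, nat_lit 249, nat_lit 0, nat_lit 0, [nat_lit 4491104000, nat_lit 7633344000,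 nat_lit 13467564000], [], [nat_lit 26830637444, nat_lit 29352175872, nat_lit 28846641456, nat_lit 30881471324, nat_lit 27005693748, nat_lit 27939328332, nat_lit 27398739121, nat_lit 29389042786], nat_lit 0, nat_lit 0, nat_lit 0, nat_lit 0, nat_lit 0, nat_lit 0, [], [nat_lit 37, nat_lit 40, nat_lit 40, nat_lit 80, nat_lit 28, nat_lit 456, nat_lit 225, nat_lit 11]⟩,
 ⟨nat_lit 3872, nat_lit 4473, ⟨.ofNat (nat_lit 475111), .ofNat (nat_lit 611083), .ofNat (nat_lit 518209), .ofNat (nat_lit 654181), .ofNat (nat_lit 479021), .ofNat (nat_lit 608080), .ofNat (nat_lit 522572), .ofNat (nat_lit 651631)⟩, ⟨.ofNat (nat_lit 0), .ofNat (nat_lit 302621), .ofNat (nat_lit 0), .ofNat (nat_lit 345754), .ofNat (nat_lit 0), .ofNat (nat_lit 304717), .ofNat (nat_lit 0), .ofNat (nat_lit 348304)⟩⟩, [⟨nat_lit 7, nat_lit 77, nat_lit 100, nat_lit 91, nat_lit 185187764⟩]⟩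
noncomputable def p088_l118 : Lf2 := ⟨nat_lit 1, nat_lit 30, [nat_lit 15, nat_lit 5, nat_lit 5, nat_lit 20], false, nat_lit 0, nat_lit 160, nat_lit 0, nat_lit 364, zbN0,
 nat_lit 0, nat_lit 0, nat_lit 0, nat_lit 0, nat_lit 0, nat_lit 0, nat_lit 0, nat_lit 0, nat_lit 0, nat_lit 0, nat_lit 0, nat_lit 0, nat_lit 0, nat_lit 0, nat_lit 0, nat_lit 0, nat_lit 0, nat_lit 0, [],
 C1.Rw.none, C1.Rw.none,
 zbF0, []⟩
noncomputable def p088_l119 : Lf2 := ⟨nat_lit 0, nat_lit 30, [nat_lit 15, nat_lit 5, nat_lit 5, nat_lit 20], true, nat_lit 0, nat_lit 160, nat_lit 0, nat_lit 364, ⟨nat_lit 0, nat_lit 0, nat_lit 1000, nat_lit 6, nat_lit 174, nat_lit 1000, nat_lit 65, nat_lit 1000, nat_lit 40017, nat_lit 264, nat_lit 32662, nat_lit 258, nat_lit 56314461, nat_lit 0, nat_lit 0, nat_lit 2194078, false, false⟩,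
 nat_lit 0, nat_lit 3072, nat_lit 0, nat_lit 5289, nat_lit 2486, nat_lit 0, nat_lit 0, nat_lit 0, nat_lit 0, nat_lit 0, nat_lit 0, nat_lit 0, nat_lit 0, nat_lit 0, nat_lit 150, nat_lit 400000, nat_lit 0, nat_lit 0, [(nat_lit 23, [(nat_lit 5, nat_lit 1000)])],
 ⟨p088_k22, nat_lit 0, nat_lit 0, nat_lit 299, nat_lit 0, nat_lit 125094, [nat_lit 2182400000, nat_lit 378800000], [], [nat_lit 17605575030, nat_lit 18794601447, nat_lit 18524914452, nat_lit 19546350080, nat_lit 18115912624, nat_lit 19097786647, nat_lit 19057997196, nat_lit 20239406728], nat_lit 1271250, nat_lit 1271250, nat_lit 545600, nat_lit 1100001, nat_lit 0, nat_lit 1100001, [nat_lit 490000, nat_lit 2052500], [nat_lit 94, nat_lit 40, nat_lit 40, nat_lit 80, nat_lit 95, nat_lit 317, nat_lit 100, nat_lit 9]⟩, C1.Rw.none,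
 ⟨nat_lit 3162, nat_lit 3873, ⟨.ofNat (nat_lit 362778), .ofNat (nat_lit 478975), .ofNat (nat_lit 384542), .ofNat (nat_lit 500739), .ofNat (nat_lit 373492), .ofNat (nat_lit 483267), .ofNat (nat_lit 395618), .ofNat (nat_lit 505392)⟩, ⟨.ofNat (nat_lit 0), .ofNat (nat_lit 304717), .ofNat (nat_lit 0), .ofNat (nat_lit 348304), .ofNat (nat_lit 0), .ofNat (nat_lit 306116), .ofNat (nat_lit 0), .ofNat (nat_lit 350426)⟩⟩, [⟨nat_lit 3, nat_lit 100, nat_lit 76, nat_lit 37, nat_lit 51855967⟩]⟩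
noncomputable def p088_l120 : Lf2 := ⟨nat_lit 0, nat_lit 25, [nat_lit 44, nat_lit 5, nat_lit 5, nat_lit 20], false, nat_lit 0, nat_lit 160, nat_lit 0, nat_lit 336, ⟨nat_lit 375, nat_lit 0, nat_lit 625, nat_lit 6, nat_lit 188, nat_lit 625, nat_lit 63, nat_lit 625, nat_lit 36817, nat_lit 262, nat_lit 15897, nat_lit 244, nat_lit 54873329, nat_lit 0, nat_lit 0, nat_lit 2364493, false, false⟩,
 nat_lit 0, nat_lit 4235, nat_lit 0, nat_lit 4430, nat_lit 3428, nat_lit 4549, nat_lit 289, nat_lit 0, nat_lit 0, nat_lit 335, nat_lit 0, nat_lit 0, nat_lit 0, nat_lit 0, nat_lit 0, nat_lit 260200, nat_lit 0, nat_lit 0, [(nat_lit 23, [(nat_lit 5, nat_lit 608), (nat_lit 6, nat_lit 17)])],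
 ⟨p088_k37, nat_lit 0, nat_lit 0, nat_lit 327, nat_lit 0, nat_lit 198109, [nat_lit 1382300201, nat_lit 987101501, nat_lit 1175720800], [], [nat_lit 19538632898, nat_lit 20938032334, nat_lit 20028454249, nat_lit 21329566080, nat_lit 19139045888, nat_lit 20143457961, nat_lit 19715463492, nat_lit 20651262604], nat_lit 1271250, nat_lit 1271250, nat_lit 660400, nat_lit 1100001, nat_lit 0, nat_lit 1100001, [nat_lit 490000, nat_lit 1427500, nat_lit 1271250], [nat_lit 61, nat_lit 40, nat_lit 40, nat_lit 80, nat_lit 1, nat_lit 317, nat_lit 100, nat_lit 9]⟩, ⟨p088_k38, nat_lit 0, nat_lit 0, nat_lit 363, nat_lit 0, nat_lit 0, [nat_lit 1758000000, nat_lit 3690750000, nat_lit 5271750000], [], [nat_lit 12147842850, nat_lit 12756872771, nat_lit 11559432450, nat_lit 12112649760, nat_lit 10611256409, nat_lit 10867829919, nat_lit 9803574828, nat_lit 10028958167], nat_lit 0, nat_lit 0, nat_lit 0, nat_lit 0, nat_lit 0, nat_lit 0,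 [], [nat_lit 56, nat_lit 40, nat_lit 40, nat_lit 80, nat_lit 32, nat_lit 428, nat_lit 200, nat_lit 10]⟩,
 ⟨nat_lit 3162, nat_lit 3873, ⟨.ofNat (nat_lit 410364), .ofNat (nat_lit 500739), .ofNat (nat_lit 432129), .ofNat (nat_lit 522504), .ofNat (nat_lit 420013), .ofNat (nat_lit 505392), .ofNat (nat_lit 442139), .ofNat (nat_lit 527519)⟩, ⟨.ofNat (nat_lit 0), .ofNat (nat_lit 304717), .ofNat (nat_lit 0), .ofNat (nat_lit 326511), .ofNat (nat_lit 0), .ofNat (nat_lit 306116), .ofNat (nat_lit 0), .ofNat (nat_lit 328271)⟩⟩, [⟨nat_lit 0, nat_lit 100, nat_lit 71, nat_lit 100, nat_lit 364241128⟩, ⟨nat_lit 7, nat_lit 86, nat_lit 100, nat_lit 89, nat_lit 44937642⟩]⟩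
noncomputable def p088_l121 : Lf2 := ⟨nat_lit 1, nat_lit 25, [nat_lit 44, nat_lit 5, nat_lit 5, nat_lit 20], false, nat_lit 0, nat_lit 160, nat_lit 0, nat_lit 336, zbN0,
 nat_lit 0, nat_lit 0, nat_lit 0, nat_lit 0, nat_lit 0, nat_lit 0, nat_lit 0, nat_lit 0, nat_lit 0, nat_lit 0, nat_lit 0, nat_lit 0, nat_lit 0, nat_lit 0, nat_lit 0, nat_lit 0, nat_lit 0, nat_lit 0, [],
 C1.Rw.none, C1.Rw.none,
 zbF0, []⟩
noncomputable def p088_l122 : Lf2 := ⟨nat_lit 0, nat_lit 25, [nat_lit 44, nat_lit 5, nat_lit 5, nat_lit 20], false, nat_lit 4, nat_lit 160, nat_lit 0, nat_lit 352, ⟨nat_lit 418, nat_lit 0, nat_lit 582, nat_lit 6, nat_lit 188, nat_lit 582, nat_lit 70, nat_lit 582, nat_lit 45067, nat_lit 267, nat_lit 15897, nat_lit 244, nat_lit 52245744, nat_lit 0, nat_lit 0, nat_lit 3310376, false, false⟩,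
 nat_lit 0, nat_lit 4118, nat_lit 0, nat_lit 10163, nat_lit 3333, nat_lit 4797, nat_lit 267, nat_lit 0, nat_lit 0, nat_lit 354, nat_lit 0, nat_lit 0, nat_lit 0, nat_lit 0, nat_lit 0, nat_lit 323400, nat_lit 0, nat_lit 0, [(nat_lit 23, [(nat_lit 5, nat_lit 431), (nat_lit 6, nat_lit 151)])],
 ⟨p088_k37, nat_lit 0, nat_lit 0, nat_lit 288, nat_lit 0, nat_lit 91232, [nat_lit 1477093401, nat_lit 937529900, nat_lit 763920000], [], [nat_lit 19243960040, nat_lit 20621171579, nat_lit 19802497239, nat_lit 21039499752, nat_lit 18914795166, nat_lit 19968403663, nat_lit 19551337793, nat_lit 20523622289], nat_lit 1271250, nat_lit 1271250, nat_lit 660400, nat_lit 1100001, nat_lit 21650, nat_lit 1100001, [nat_lit 490000, nat_lit 1427500, nat_lit 1271250], [nat_lit 61, nat_lit 40, nat_lit 40, nat_lit 80, nat_lit 1, nat_lit 317, nat_lit 100, nat_lit 9]⟩, ⟨p088_k38, nat_lit 0, nat_lit 0, nat_lit 363, nat_lit 0, nat_lit 0, [nat_lit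 1959584000, nat_lit 4113956000, nat_lit 5876244000], [], [nat_lit 13556389125, nat_lit 14212497941, nat_lit 12963957318, nat_lit 13560720872, nat_lit 12638731927, nat_lit 12892055669, nat_lit 11765482053, nat_lit 11987835716], nat_lit 0, nat_lit 0, nat_lit 0, nat_lit 0, nat_lit 0, nat_lit 0, [], [nat_lit 56, nat_lit 40, nat_lit 40, nat_lit 80, nat_lit 32, nat_lit 428, nat_lit 200, nat_lit 10]⟩,
 ⟨nat_lit 3162, nat_lit 3873, ⟨.ofNat (nat_lit 410364), .ofNat (nat_lit 500739), .ofNat (nat_lit 432129), .ofNat (nat_lit 522504), .ofNat (nat_lit 420013), .ofNat (nat_lit 505392), .ofNat (nat_lit 442139), .ofNat (nat_lit 527519)⟩, ⟨.ofNat (nat_lit 10000), .ofNat (nat_lit 326511), .ofNat (nat_lit 10000), .ofNat (nat_lit 348304), .ofNat (nat_lit 10000), .ofNat (nat_lit 328271), .ofNat (nat_lit 10000), .ofNat (nat_lit 350426)⟩⟩, [⟨nat_lit 0, nat_lit 94, nat_lit 62, nat_lit 100, nat_lit 484765110⟩, ⟨nat_lit 7, nat_lit 78,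 nat_lit 100, nat_lit 95, nat_lit 61396068⟩]⟩
noncomputable def p088_l123 : Lf2 := ⟨nat_lit 1, nat_lit 30, [nat_lit 15, nat_lit 5, nat_lit 5, nat_lit 20], false, nat_lit 4, nat_lit 160, nat_lit 0, nat_lit 352, zbN0,
 nat_lit 0, nat_lit 0, nat_lit 0, nat_lit 0, nat_lit 0, nat_lit 0, nat_lit 0, nat_lit 0, nat_lit 0, nat_lit 0, nat_lit 0, nat_lit 0, nat_lit 0, nat_lit 0, nat_lit 0, nat_lit 0, nat_lit 0, nat_lit 0, [],
 C1.Rw.none, C1.Rw.none,
 zbF0, []⟩
noncomputable def p088_l124 : Lf2 := ⟨nat_lit 0, nat_lit 30, [nat_lit 15, nat_lit 5, nat_lit 5, nat_lit 20], false, nat_lit 0, nat_lit 160, nat_lit 0, nat_lit 160, ⟨nat_lit 1000, nat_lit 0, nat_lit 0, nat_lit 0, nat_lit 0, nat_lit 0, nat_lit 0, nat_lit 0, nat_lit 0, nat_lit 0, nat_lit 0, nat_lit 0, nat_lit 0, nat_lit 0, nat_lit 0, nat_lit 0, false, false⟩,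
 nat_lit 0, nat_lit 7708, nat_lit 0, nat_lit 23002, nat_lit 6239, nat_lit 6120, nat_lit 755, nat_lit 0, nat_lit 0, nat_lit 1347, nat_lit 0, nat_lit 0, nat_lit 0, nat_lit 0, nat_lit 0, nat_lit 0, nat_lit 0, nat_lit 0, [],
 ⟨p088_k23, nat_lit 0, nat_lit 0, nat_lit 307, nat_lit 0, nat_lit 210758, [nat_lit 2032000001, nat_lit 4688000000, nat_lit 9842000000], [], [nat_lit 24869397737, nat_lit 26665557235, nat_lit 27115871166, nat_lit 29466363612, nat_lit 20463739149, nat_lit 21978628139, nat_lit 22989906133, nat_lit 23702298540], nat_lit 1271250, nat_lit 1271250, nat_lit 1100001, nat_lit 1785000, nat_lit 0, nat_lit 1100001, [nat_lit 490000, nat_lit 1100000, nat_lit 2127500], [nat_lit 27, nat_lit 40, nat_lit 40, nat_lit 80, nat_lit 13, nat_lit 317, nat_lit 100, nat_lit 9]⟩, ⟨p088_k24, nat_lit 0, nat_lit 0, nat_lit 408, nat_lit 0, nat_lit 0, [nat_lit 4688000000, nat_lit 7968000000, nat_lit 16400000000], [], [nat_lit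 26272282275, nat_lit 27974570435, nat_lit 27776693955, nat_lit 29199554595, nat_lit 22024958435, nat_lit 23288591395, nat_lit 23735310560, nat_lit 25597313280], nat_lit 0, nat_lit 0, nat_lit 0, nat_lit 0, nat_lit 0, nat_lit 0, [], [nat_lit 122, nat_lit 40, nat_lit 40, nat_lit 80, nat_lit 111, nat_lit 401, nat_lit 175, nat_lit 9]⟩,
 zbF0, []⟩
noncomputable def p088_l125 : Lf2 := ⟨nat_lit 0, nat_lit 30, [nat_lit 15, nat_lit 5, nat_lit 5, nat_lit 20], false, nat_lit 0, nat_lit 160, nat_lit 160, nat_lit 364, ⟨nat_lit 1000, nat_lit 0, nat_lit 0, nat_lit 0, nat_lit 0, nat_lit 0, nat_lit 0, nat_lit 0, nat_lit 0, nat_lit 0, nat_lit 0, nat_lit 0, nat_lit 0, nat_lit 0, nat_lit 0, nat_lit 0, false, false⟩,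
 nat_lit 0, nat_lit 7883, nat_lit 0, nat_lit 11720, nat_lit 6381, nat_lit 6427, nat_lit 704, nat_lit 0, nat_lit 0, nat_lit 0, nat_lit 0, nat_lit 0, nat_lit 0, nat_lit 0, nat_lit 0, nat_lit 0, nat_lit 0, nat_lit 0, [],
 ⟨p088_k29, nat_lit 0, nat_lit 0, nat_lit 311, nat_lit 0, nat_lit 210758, [nat_lit 2032000001, nat_lit 6250000000, nat_lit 9842000000], [], [nat_lit 25112899098, nat_lit 26934076440, nat_lit 27360593114, nat_lit 29746147348, nat_lit 20934622872, nat_lit 22244917084, nat_lit 22597820688, nat_lit 23823271920], nat_lit 1271250, nat_lit 1271250, nat_lit 1100001, nat_lit 1785000, nat_lit 0, nat_lit 1100001, [nat_lit 490000, nat_lit 1427500, nat_lit 1271250], [nat_lit 61, nat_lit 40, nat_lit 40, nat_lit 80, nat_lit 1, nat_lit 317, nat_lit 100, nat_lit 9]⟩, ⟨p088_k30, nat_lit 0, nat_lit 0, nat_lit 90, nat_lit 0, nat_lit 0, [nat_lit 4688000000, nat_lit 9842000000, nat_lit 16400000000], [], [nat_lit 10560909496,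 nat_lit 13867637592, nat_lit 14632374448, nat_lit 17381524740, nat_lit 24352930917, nat_lit 26436615551, nat_lit 26382662915, nat_lit 28117338072], nat_lit 0, nat_lit 0, nat_lit 0, nat_lit 0, nat_lit 0, nat_lit 0, [], [nat_lit 83, nat_lit 40, nat_lit 40, nat_lit 80, nat_lit 73, nat_lit 456, nat_lit 225, nat_lit 9]⟩,
 zbF0, [⟨nat_lit 7, nat_lit 77, nat_lit 100, nat_lit 91, nat_lit 597045965⟩]⟩
noncomputable def p088_l126 : Lf2 := ⟨nat_lit 0, nat_lit 22, [nat_lit 146, nat_lit 5, nat_lit 5, nat_lit 20], true, nat_lit 160, nat_lit 300, nat_lit 0, nat_lit 364, ⟨nat_lit 0, nat_lit 0, nat_lit 1000, nat_lit 6, nat_lit 154, nat_lit 1000, nat_lit 177, nat_lit 1000, nat_lit 1169, nat_lit 218, nat_lit 153600, nat_lit 311, nat_lit 47632286, nat_lit 0, nat_lit 0, nat_lit 4291430, false, false⟩,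
 nat_lit 0, nat_lit 4854, nat_lit 0, nat_lit 100000, nat_lit 3640, nat_lit 0, nat_lit 0, nat_lit 0, nat_lit 0, nat_lit 0, nat_lit 0, nat_lit 0, nat_lit 0, nat_lit 0, nat_lit 78, nat_lit 250000, nat_lit 0, nat_lit 0, [(nat_lit 20, [(nat_lit 4, nat_lit 1000)])],
 ⟨p088_k18, nat_lit 0, nat_lit 0, nat_lit 150, nat_lit 0, nat_lit 32785, [nat_lit 2113600001, nat_lit 1048400001, nat_lit 356800000], [], [nat_lit 17766229249, nat_lit 19052519808, nat_lit 17785536961, nat_lit 18928988401, nat_lit 22351577297, nat_lit 23674181524, nat_lit 22073192840, nat_lit 23296064160], nat_lit 1271250, nat_lit 1271250, nat_lit 382400, nat_lit 780000, nat_lit 1100001, nat_lit 2298750, [nat_lit 490000, nat_lit 1100000, nat_lit 2127500], [nat_lit 27, nat_lit 40, nat_lit 40, nat_lit 80, nat_lit 13, nat_lit 345, nat_lit 125, nat_lit 9]⟩, C1.Rw.none,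
 ⟨nat_lit 3872, nat_lit 4473, ⟨.ofNat (nat_lit 311945), .ofNat (nat_lit 407125), .ofNat (nat_lit 355043), .ofNat (nat_lit 450223), .ofNat (nat_lit 324151), .ofNat (nat_lit 414492), .ofNat (nat_lit 367703), .ofNat (nat_lit 458043)⟩, ⟨.ofNat (nat_lit 302621), .ofNat (nat_lit 540545), .ofNat (nat_lit 345754), .ofNat (nat_lit 583678), .ofNat (nat_lit 304717), .ofNat (nat_lit 530543), .ofNat (nat_lit 348304), .ofNat (nat_lit 574129)⟩⟩, [⟨nat_lit 0, nat_lit 99, nat_lit 77, nat_lit 100, nat_lit 3604813204⟩, ⟨nat_lit 16, nat_lit 81, nat_lit 100, nat_lit 92, nat_lit 241932950⟩]⟩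
noncomputable def p088_l127 : Lf2 := ⟨nat_lit 0, nat_lit 22, [nat_lit 146, nat_lit 5, nat_lit 5, nat_lit 20], true, nat_lit 160, nat_lit 280, nat_lit 0, nat_lit 352, ⟨nat_lit 0, nat_lit 1000, nat_lit 0, nat_lit 6, nat_lit 213, nat_lit 1000, nat_lit 166, nat_lit 0, nat_lit 0, nat_lit 0, nat_lit 0, nat_lit 0, nat_lit 43883079, nat_lit 13820922, nat_lit 9295999, nat_lit 4713504, false, false⟩,
 nat_lit 0, nat_lit 4239, nat_lit 0, nat_lit 4811, nat_lit 3179, nat_lit 0, nat_lit 0, nat_lit 0, nat_lit 0, nat_lit 0, nat_lit 0, nat_lit 0, nat_lit 0, nat_lit 0, nat_lit 0, nat_lit 250000, nat_lit 0, nat_lit 0, [(nat_lit 20, [(nat_lit 0, nat_lit 1000)])],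
 ⟨p088_k45, nat_lit 0, nat_lit 0, nat_lit 92, nat_lit 0, nat_lit 31743, [nat_lit 1534400001, nat_lit 2545600000, nat_lit 3257600000], [], [nat_lit 15721005649, nat_lit 17305652381, nat_lit 19376588149, nat_lit 20673877289, nat_lit 20667525831, nat_lit 21934315964, nat_lit 23419656233, nat_lit 24463325021], nat_lit 1271250, nat_lit 1271250, nat_lit 780000, nat_lit 1762500, nat_lit 1100001, nat_lit 2127500, [nat_lit 490000, nat_lit 1427500, nat_lit 1271250], [nat_lit 61, nat_lit 40, nat_lit 40, nat_lit 80, nat_lit 1, nat_lit 373, nat_lit 150, nat_lit 10]⟩, C1.Rw.none,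
 ⟨nat_lit 3872, nat_lit 4473, ⟨.ofNat (nat_lit 407125), .ofNat (nat_lit 611083), .ofNat (nat_lit 450223), .ofNat (nat_lit 654181), .ofNat (nat_lit 414492), .ofNat (nat_lit 608080), .ofNat (nat_lit 458043), .ofNat (nat_lit 651631)⟩, ⟨.ofNat (nat_lit 302621), .ofNat (nat_lit 506556), .ofNat (nat_lit 324188), .ofNat (nat_lit 528122), .ofNat (nat_lit 304717), .ofNat (nat_lit 498282), .ofNat (nat_lit 326511), .ofNat (nat_lit 520075)⟩⟩, [⟨nat_lit 16, nat_lit 79, nat_lit 100, nat_lit 87, nat_lit 199841900⟩]⟩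
noncomputable def p088_l128 : Lf2 := ⟨nat_lit 1, nat_lit 22, [nat_lit 146, nat_lit 5, nat_lit 5, nat_lit 20], false, nat_lit 160, nat_lit 300, nat_lit 0, nat_lit 364, zbN0,
 nat_lit 0, nat_lit 0, nat_lit 0, nat_lit 0, nat_lit 0, nat_lit 0, nat_lit 0, nat_lit 0, nat_lit 0, nat_lit 0, nat_lit 0, nat_lit 0, nat_lit 0, nat_lit 0, nat_lit 0, nat_lit 0, nat_lit 0, nat_lit 0, [],
 C1.Rw.none, C1.Rw.none,
 zbF0, []⟩
noncomputable def p088_l129 : Lf2 := ⟨nat_lit 1, nat_lit 30, [nat_lit 15, nat_lit 5, nat_lit 5, nat_lit 20], false, nat_lit 160, nat_lit 300, nat_lit 0, nat_lit 364, zbN0,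
 nat_lit 0, nat_lit 0, nat_lit 0, nat_lit 0, nat_lit 0, nat_lit 0, nat_lit 0, nat_lit 0, nat_lit 0, nat_lit 0, nat_lit 0, nat_lit 0, nat_lit 0, nat_lit 0, nat_lit 0, nat_lit 0, nat_lit 0, nat_lit 0, [],
 C1.Rw.none, C1.Rw.none,
 zbF0, []⟩
noncomputable def p088_l130 : Lf2 := ⟨nat_lit 0, nat_lit 25, [nat_lit 44, nat_lit 5, nat_lit 5, nat_lit 20], true, nat_lit 160, nat_lit 256, nat_lit 0, nat_lit 352, ⟨nat_lit 0, nat_lit 784, nat_lit 216, nat_lit 6, nat_lit 199, nat_lit 1000, nat_lit 157, nat_lit 216, nat_lit 66937, nat_lit 278, nat_lit 7423, nat_lit 203, nat_lit 45601172, nat_lit 12672298, nat_lit 8726530, nat_lit 4522325, false, false⟩,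
 nat_lit 0, nat_lit 5198, nat_lit 0, nat_lit 2996, nat_lit 4207, nat_lit 0, nat_lit 0, nat_lit 0, nat_lit 0, nat_lit 0, nat_lit 0, nat_lit 0, nat_lit 0, nat_lit 0, nat_lit 0, nat_lit 240280, nat_lit 0, nat_lit 0, [(nat_lit 23, [(nat_lit 0, nat_lit 784), (nat_lit 3, nat_lit 216)])],
 ⟨p088_k37, nat_lit 0, nat_lit 0, nat_lit 98, nat_lit 0, nat_lit 31010, [nat_lit 1767116800, nat_lit 1593721601, nat_lit 2155388800], [], [nat_lit 18725416158, nat_lit 19525209421, nat_lit 21638606205, nat_lit 22265411261, nat_lit 21950484837, nat_lit 22616428644, nat_lit 24102913028, nat_lit 24629932433], nat_lit 1271250, nat_lit 1271250, nat_lit 545600, nat_lit 1744500, nat_lit 1100001, nat_lit 1922000, [nat_lit 490000, nat_lit 1427500, nat_lit 1271250], [nat_lit 61, nat_lit 40, nat_lit 40, nat_lit 80, nat_lit 1, nat_lit 345, nat_lit 125, nat_lit 9]⟩, C1.Rw.none,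
 ⟨nat_lit 3535, nat_lit 3873, ⟨.ofNat (nat_lit 362897), .ofNat (nat_lit 608101), .ofNat (nat_lit 384684), .ofNat (nat_lit 629888), .ofNat (nat_lit 368144), .ofNat (nat_lit 606659), .ofNat (nat_lit 390090), .ofNat (nat_lit 628606)⟩, ⟨.ofNat (nat_lit 304717), .ofNat (nat_lit 459569), .ofNat (nat_lit 326511), .ofNat (nat_lit 481362), .ofNat (nat_lit 305521), .ofNat (nat_lit 456149), .ofNat (nat_lit 327474), .ofNat (nat_lit 478101)⟩⟩, [⟨nat_lit 4, nat_lit 100, nat_lit 70, nat_lit 85, nat_lit 188973898⟩]⟩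
noncomputable def p088_l131 : Lf2 := ⟨nat_lit 0, nat_lit 25, [nat_lit 44, nat_lit 5, nat_lit 5, nat_lit 20], true, nat_lit 160, nat_lit 240, nat_lit 0, nat_lit 352, ⟨nat_lit 0, nat_lit 379, nat_lit 621, nat_lit 6, nat_lit 203, nat_lit 1000, nat_lit 151, nat_lit 621, nat_lit 201667, nat_lit 325, nat_lit 4817, nat_lit 203, nat_lit 45606710, nat_lit 13136595, nat_lit 8256695, nat_lit 4503105, false, false⟩,
 nat_lit 0, nat_lit 4123, nat_lit 0, nat_lit 0, nat_lit 3463, nat_lit 0, nat_lit 0, nat_lit 0, nat_lit 0, nat_lit 0, nat_lit 0, nat_lit 0, nat_lit 0, nat_lit 0, nat_lit 16, nat_lit 250000, nat_lit 0, nat_lit 0, [(nat_lit 23, [(nat_lit 0, nat_lit 379), (nat_lit 4, nat_lit 621)])],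
 ⟨p088_k46, nat_lit 0, nat_lit 0, nat_lit 126, nat_lit 0, nat_lit 109537, [nat_lit 1656307200, nat_lit 372475201, nat_lit 34789599], [], [nat_lit 19586615332, nat_lit 20208210419, nat_lit 22123323995, nat_lit 22626814107, nat_lit 21636324289, nat_lit 22179282141, nat_lit 23743085814, nat_lit 24186361008], nat_lit 1271250, nat_lit 1271250, nat_lit 631250, nat_lit 1751250, nat_lit 1100001, nat_lit 1785000, [nat_lit 490000, nat_lit 1427500, nat_lit 1271250], [nat_lit 102, nat_lit 40, nat_lit 40, nat_lit 80, nat_lit 2, nat_lit 345, nat_lit 125, nat_lit 10]⟩, C1.Rw.none,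
 ⟨nat_lit 3162, nat_lit 3536, ⟨.ofNat (nat_lit 386958), .ofNat (nat_lit 606660), .ofNat (nat_lit 408903), .ofNat (nat_lit 628604), .ofNat (nat_lit 391883), .ofNat (nat_lit 605256), .ofNat (nat_lit 414030), .ofNat (nat_lit 627403)⟩, ⟨.ofNat (nat_lit 305521), .ofNat (nat_lit 431044), .ofNat (nat_lit 327474), .ofNat (nat_lit 452997), .ofNat (nat_lit 306116), .ofNat (nat_lit 428022), .ofNat (nat_lit 328271), .ofNat (nat_lit 450177)⟩⟩, [⟨nat_lit 4, nat_lit 100, nat_lit 64, nat_lit 84, nat_lit 170031258⟩]⟩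
noncomputable def p088_l132 : Lf2 := ⟨nat_lit 0, nat_lit 26, [nat_lit 108, nat_lit 5, nat_lit 5, nat_lit 20], true, nat_lit 160, nat_lit 276, nat_lit 0, nat_lit 364, ⟨nat_lit 0, nat_lit 790, nat_lit 210, nat_lit 6, nat_lit 199, nat_lit 1000, nat_lit 172, nat_lit 210, nat_lit 13749, nat_lit 240, nat_lit 7340, nat_lit 203, nat_lit 44521730, nat_lit 12556055, nat_lit 9922215, nat_lit 4668981, false, false⟩,
 nat_lit 0, nat_lit 4961, nat_lit 0, nat_lit 5786, nat_lit 4016, nat_lit 0, nat_lit 0, nat_lit 0, nat_lit 0, nat_lit 0, nat_lit 0, nat_lit 0, nat_lit 0, nat_lit 0, nat_lit 0, nat_lit 240550, nat_lit 0, nat_lit 0, [(nat_lit 23, [(nat_lit 0, nat_lit 790), (nat_lit 3, nat_lit 210)])],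
 ⟨p088_k39, nat_lit 0, nat_lit 0, nat_lit 98, nat_lit 0, nat_lit 27603, [nat_lit 1761808001, nat_lit 1614196001, nat_lit 2182528000], [], [nat_lit 18945406377, nat_lit 20420642613, nat_lit 21879228050, nat_lit 23033945634, nat_lit 22962858554, nat_lit 24207359982, nat_lit 24982358349, nat_lit 25987470044], nat_lit 1271250, nat_lit 1271250, nat_lit 545600, nat_lit 1744500, nat_lit 1100001, nat_lit 2093250, [nat_lit 490000, nat_lit 1427500, nat_lit 1271250], [nat_lit 61, nat_lit 40, nat_lit 40, nat_lit 80, nat_lit 1, nat_lit 373, nat_lit 150, nat_lit 10]⟩, C1.Rw.none,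
 ⟨nat_lit 3162, nat_lit 3873, ⟨.ofNat (nat_lit 362778), .ofNat (nat_lit 608082), .ofNat (nat_lit 384542), .ofNat (nat_lit 629847), .ofNat (nat_lit 373492), .ofNat (nat_lit 605237), .ofNat (nat_lit 395618), .ofNat (nat_lit 627364)⟩, ⟨.ofNat (nat_lit 326511), .ofNat (nat_lit 513623), .ofNat (nat_lit 348304), .ofNat (nat_lit 535416), .ofNat (nat_lit 328271), .ofNat (nat_lit 505035), .ofNat (nat_lit 350426), .ofNat (nat_lit 527190)⟩⟩, [⟨nat_lit 4, nat_lit 100, nat_lit 68, nat_lit 92, nat_lit 195341985⟩]⟩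
noncomputable def p088_l133 : Lf2 := ⟨nat_lit 1, nat_lit 30, [nat_lit 15, nat_lit 5, nat_lit 5, nat_lit 20], false, nat_lit 160, nat_lit 276, nat_lit 0, nat_lit 364, zbN0,
 nat_lit 0, nat_lit 0, nat_lit 0, nat_lit 0, nat_lit 0, nat_lit 0, nat_lit 0, nat_lit 0, nat_lit 0, nat_lit 0, nat_lit 0, nat_lit 0, nat_lit 0, nat_lit 0, nat_lit 0, nat_lit 0, nat_lit 0, nat_lit 0, [],
 C1.Rw.none, C1.Rw.none,
 zbF0, []⟩
noncomputable def p088_l134 : Lf2 := ⟨nat_lit 0, nat_lit 30, [nat_lit 15, nat_lit 5, nat_lit 5, nat_lit 20], false, nat_lit 160, nat_lit 276, nat_lit 0, nat_lit 160, ⟨nat_lit 1000, nat_lit 0, nat_lit 0, nat_lit 0, nat_lit 0, nat_lit 0, nat_lit 0, nat_lit 0, nat_lit 0, nat_lit 0, nat_lit 0, nat_lit 0, nat_lit 0, nat_lit 0, nat_lit 0, nat_lit 0, false, false⟩,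
 nat_lit 0, nat_lit 8694, nat_lit 0, nat_lit 17473, nat_lit 7037, nat_lit 6619, nat_lit 603, nat_lit 0, nat_lit 0, nat_lit 1312, nat_lit 0, nat_lit 0, nat_lit 0, nat_lit 0, nat_lit 0, nat_lit 0, nat_lit 0, nat_lit 0, [],
 ⟨p088_k23, nat_lit 0, nat_lit 0, nat_lit 185, nat_lit 0, nat_lit 210758, [nat_lit 2032000001, nat_lit 4688000000, nat_lit 9842000000], [], [nat_lit 21958498451, nat_lit 23729271607, nat_lit 23506465797, nat_lit 24894826267, nat_lit 25540159755, nat_lit 26920669218, nat_lit 26423725826, nat_lit 28084996263], nat_lit 1271250, nat_lit 1271250, nat_lit 660400, nat_lit 1753500, nat_lit 1100001, nat_lit 2093250, [nat_lit 490000, nat_lit 1100000, nat_lit 2127500], [nat_lit 27, nat_lit 40, nat_lit 40, nat_lit 80, nat_lit 13, nat_lit 373, nat_lit 150, nat_lit 10]⟩, ⟨p088_k33, nat_lit 0, nat_lit 0, nat_lit 363, nat_lit 0, nat_lit 0, [nat_lit 4688000000, nat_lit 7968000000, nat_lit 14058000000], [], [nat_lit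 24584718056, nat_lit 25750399143, nat_lit 26205448282, nat_lit 27098529860, nat_lit 19989128962, nat_lit 20835807717, nat_lit 21451898354, nat_lit 22415124136], nat_lit 0, nat_lit 0, nat_lit 0, nat_lit 0, nat_lit 0, nat_lit 0, [], [nat_lit 37, nat_lit 40, nat_lit 40, nat_lit 80, nat_lit 28, nat_lit 401, nat_lit 175, nat_lit 9]⟩,
 zbF0, [⟨nat_lit 0, nat_lit 94, nat_lit 62, nat_lit 100, nat_lit 688680921⟩, ⟨nat_lit 4, nat_lit 100, nat_lit 67, nat_lit 88, nat_lit 595890601⟩]⟩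
noncomputable def p088_l135 : Lf2 := ⟨nat_lit 0, nat_lit 30, [nat_lit 15, nat_lit 5, nat_lit 5, nat_lit 20], true, nat_lit 160, nat_lit 276, nat_lit 160, nat_lit 352, ⟨nat_lit 0, nat_lit 0, nat_lit 1000, nat_lit 6, nat_lit 175, nat_lit 1000, nat_lit 167, nat_lit 1000, nat_lit 13749, nat_lit 240, nat_lit 109688, nat_lit 296, nat_lit 46734999, nat_lit 0, nat_lit 0, nat_lit 4415866, false, false⟩,
 nat_lit 0, nat_lit 4462, nat_lit 0, nat_lit 7318, nat_lit 3612, nat_lit 0, nat_lit 0, nat_lit 0, nat_lit 0, nat_lit 0, nat_lit 0, nat_lit 0, nat_lit 0, nat_lit 0, nat_lit 95, nat_lit 250000, nat_lit 0, nat_lit 0, [(nat_lit 23, [(nat_lit 4, nat_lit 1000)])],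
 ⟨p088_k29, nat_lit 0, nat_lit 0, nat_lit 192, nat_lit 0, nat_lit 210758, [nat_lit 2259200001, nat_lit 562000001, nat_lit 707600000], [], [nat_lit 18799817427, nat_lit 20020296433, nat_lit 18848444121, nat_lit 20024654576, nat_lit 22056635890, nat_lit 23491153533, nat_lit 22031902647, nat_lit 23453780049], nat_lit 1271250, nat_lit 1271250, nat_lit 660400, nat_lit 780000, nat_lit 1100001, nat_lit 2093250, [nat_lit 490000, nat_lit 1427500, nat_lit 1271250], [nat_lit 61, nat_lit 40, nat_lit 40, nat_lit 80, nat_lit 1, nat_lit 317, nat_lit 100, nat_lit 8]⟩, C1.Rw.none,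
 ⟨nat_lit 3162, nat_lit 3873, ⟨.ofNat (nat_lit 410364), .ofNat (nat_lit 436185), .ofNat (nat_lit 432129), .ofNat (nat_lit 457950), .ofNat (nat_lit 420013), .ofNat (nat_lit 444407), .ofNat (nat_lit 442139), .ofNat (nat_lit 466533)⟩, ⟨.ofNat (nat_lit 304717), .ofNat (nat_lit 491830), .ofNat (nat_lit 348304), .ofNat (nat_lit 535416), .ofNat (nat_lit 306116), .ofNat (nat_lit 482881), .ofNat (nat_lit 350426), .ofNat (nat_lit 527190)⟩⟩, [⟨nat_lit 0, nat_lit 100, nat_lit 71, nat_lit 100, nat_lit 377740856⟩, ⟨nat_lit 0, nat_lit 100, nat_lit 75, nat_lit 92, nat_lit 415494770⟩, ⟨nat_lit 4, nat_lit 100, nat_lit 67, nat_lit 88, nat_lit 257262964⟩]⟩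
noncomputable def p088_l136 : Lf2 := ⟨nat_lit 0, nat_lit 30, [nat_lit 15, nat_lit 5, nat_lit 5, nat_lit 20], false, nat_lit 160, nat_lit 276, nat_lit 160, nat_lit 352, ⟨nat_lit 1000, nat_lit 0, nat_lit 0, nat_lit 0, nat_lit 0, nat_lit 0, nat_lit 0, nat_lit 0, nat_lit 0, nat_lit 0, nat_lit 0, nat_lit 0, nat_lit 0, nat_lit 0, nat_lit 0, nat_lit 0, false, false⟩,
 nat_lit 0, nat_lit 7283, nat_lit 0, nat_lit 23645, nat_lit 5895, nat_lit 6427, nat_lit 690, nat_lit 0, nat_lit 0, nat_lit 0, nat_lit 0, nat_lit 0, nat_lit 0, nat_lit 0, nat_lit 0, nat_lit 0, nat_lit 0, nat_lit 0, [],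
 ⟨p088_k29, nat_lit 0, nat_lit 0, nat_lit 185, nat_lit 0, nat_lit 210758, [nat_lit 2032000001, nat_lit 6250000000, nat_lit 9842000000], [], [nat_lit 20821528730, nat_lit 22379741710, nat_lit 21019090820, nat_lit 22485334770, nat_lit 24228844545, nat_lit 25457142975, nat_lit 24190987743, nat_lit 25513121357], nat_lit 1271250, nat_lit 1271250, nat_lit 780000, nat_lit 1100001, nat_lit 1100001, nat_lit 2093250, [nat_lit 490000, nat_lit 1427500, nat_lit 1271250], [nat_lit 61, nat_lit 40, nat_lit 40, nat_lit 80, nat_lit 1, nat_lit 345, nat_lit 125, nat_lit 9]⟩, ⟨p088_k31, nat_lit 0, nat_lit 0, nat_lit 97, nat_lit 0, nat_lit 0, [nat_lit 4688000000, nat_lit 9842000000, nat_lit 14058000000], [], [nat_lit 11226640460, nat_lit 12999490676, nat_lit 12214273544, nat_lit 13867637592, nat_lit 24100589515, nat_lit 25273439004, nat_lit 24240464382, nat_lit 25301163142], nat_lit 0, nat_lit 0, nat_lit 0, nat_lit 0, nat_lit 0, nat_lit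 0, [], [nat_lit 56, nat_lit 40, nat_lit 40, nat_lit 80, nat_lit 32, nat_lit 428, nat_lit 200, nat_lit 10]⟩,
 zbF0, [⟨nat_lit 0, nat_lit 94, nat_lit 62, nat_lit 100, nat_lit 859812455⟩, ⟨nat_lit 4, nat_lit 100, nat_lit 67, nat_lit 88, nat_lit 584435949⟩, ⟨nat_lit 19, nat_lit 100, nat_lit 69, nat_lit 96, nat_lit 552249595⟩]⟩
noncomputable def p088_l137 : Lf2 := ⟨nat_lit 0, nat_lit 30, [nat_lit 15, nat_lit 5, nat_lit 5, nat_lit 20], false, nat_lit 160, nat_lit 276, nat_lit 160, nat_lit 352, ⟨nat_lit 1000, nat_lit 0, nat_lit 0, nat_lit 0, nat_lit 0, nat_lit 0, nat_lit 0, nat_lit 0, nat_lit 0, nat_lit 0, nat_lit 0, nat_lit 0, nat_lit 0, nat_lit 0, nat_lit 0, nat_lit 0, false, false⟩,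
 nat_lit 0, nat_lit 7342, nat_lit 0, nat_lit 15715, nat_lit 5943, nat_lit 6326, nat_lit 672, nat_lit 0, nat_lit 0, nat_lit 0, nat_lit 0, nat_lit 0, nat_lit 0, nat_lit 0, nat_lit 0, nat_lit 0, nat_lit 0, nat_lit 0, [],
 ⟨p088_k29, nat_lit 0, nat_lit 0, nat_lit 173, nat_lit 0, nat_lit 210758, [nat_lit 2032000001, nat_lit 6250000000, nat_lit 9842000000], [], [nat_lit 21214382738, nat_lit 22687414368, nat_lit 22975239958, nat_lit 24239639288, nat_lit 24388966965, nat_lit 25551526335, nat_lit 25821345029, nat_lit 27325415434], nat_lit 1271250, nat_lit 1271250, nat_lit 1100001, nat_lit 1785000, nat_lit 1100001, nat_lit 2093250, [nat_lit 490000, nat_lit 1427500, nat_lit 1271250], [nat_lit 61, nat_lit 40, nat_lit 40, nat_lit 80, nat_lit 1, nat_lit 373, nat_lit 150, nat_lit 10]⟩, ⟨p088_k31, nat_lit 0, nat_lit 0, nat_lit 80, nat_lit 0, nat_lit 0, [nat_lit 4688000000, nat_lit 9842000000, nat_lit 14058000000], [], [nat_lit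 12370371872, nat_lit 14008442096, nat_lit 16139802772, nat_lit 17502662120, nat_lit 24299542717, nat_lit 25234199932, nat_lit 26169900008, nat_lit 27080579940], nat_lit 0, nat_lit 0, nat_lit 0, nat_lit 0, nat_lit 0, nat_lit 0, [], [nat_lit 56, nat_lit 40, nat_lit 40, nat_lit 80, nat_lit 32, nat_lit 456, nat_lit 225, nat_lit 10]⟩,
 zbF0, [⟨nat_lit 16, nat_lit 67, nat_lit 100, nat_lit 88, nat_lit 571961580⟩, ⟨nat_lit 19, nat_lit 100, nat_lit 69, nat_lit 96, nat_lit 546501739⟩]⟩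
noncomputable def b_V_800_600_20_50 : St := ⟨true, nat_lit 1, nat_lit 0, nat_lit 1, nat_lit 120, nat_lit 320, nat_lit 360, nat_lit 240, nat_lit 280, nat_lit 64, nat_lit 240, nat_lit 80, nat_lit 120, nat_lit 0, nat_lit 300, nat_lit 0, nat_lit 364, nat_lit 80, nat_lit 120, nat_lit 0, nat_lit 0, nat_lit 0, nat_lit 0⟩
theorem d_V_800_600_20_50 (h : EB TB.env) : Dead b_V_800_600_20_50 := chkB_sound0 h (T :=
(.spl (nat_lit 4) (nat_lit 160)
(.spl (nat_lit 0) (nat_lit 340)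
(.spl (nat_lit 6) (nat_lit 88)
(.spl (nat_lit 2) (nat_lit 160)
(.spl (nat_lit 2) (nat_lit 120)
(.leaf p088_l115)
(.leaf p088_l116))
(.leaf p088_l117))
(.leaf p088_l118))
(.trZ (nat_lit 0) (nat_lit 100) (nat_lit 73) (nat_lit 85) (nat_lit 88) (.spl (nat_lit 2) (nat_lit 160)
(.spl (nat_lit 1) (nat_lit 260)
(.leaf p088_l119)
(.trZ (nat_lit 0) (nat_lit 100) (nat_lit 75) (nat_lit 92) (nat_lit 104) (.trX (nat_lit 19) (nat_lit 100) (nat_lit 69) (nat_lit 96) (nat_lit 352) (.spl (nat_lit 3) (nat_lit 100)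
(.trX (nat_lit 19) (nat_lit 100) (nat_lit 77) (nat_lit 91) (nat_lit 336) (.spl (nat_lit 6) (nat_lit 108)
(.leaf p088_l120)
(.leaf p088_l121)))
(.trZ (nat_lit 3) (nat_lit 100) (nat_lit 82) (nat_lit 29) (nat_lit 4) (.spl (nat_lit 6) (nat_lit 100)
(.leaf p088_l122)
(.leaf p088_l123)))))))
(.spl (nat_lit 5) (nat_lit 160)
(.leaf p088_l124)
(.leaf p088_l125)))))
(.spl (nat_lit 0) (nat_lit 340)
(.spl (nat_lit 6) (nat_lit 88)
(.spl (nat_lit 2) (nat_lit 120)
(.leaf p088_l126)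
(.spl (nat_lit 3) (nat_lit 100)
(.trX (nat_lit 16) (nat_lit 87) (nat_lit 100) (nat_lit 94) (nat_lit 280) (.trX (nat_lit 19) (nat_lit 100) (nat_lit 68) (nat_lit 88) (nat_lit 352) (.leaf p088_l127)))
(.leaf p088_l128)))
(.leaf p088_l129))
(.trZ (nat_lit 0) (nat_lit 100) (nat_lit 73) (nat_lit 85) (nat_lit 88) (.trX (nat_lit 16) (nat_lit 77) (nat_lit 100) (nat_lit 99) (nat_lit 276) (.spl (nat_lit 1) (nat_lit 260)
(.spl (nat_lit 6) (nat_lit 104)
(.spl (nat_lit 3) (nat_lit 100)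
(.trX (nat_lit 16) (nat_lit 74) (nat_lit 100) (nat_lit 90) (nat_lit 256) (.trX (nat_lit 19) (nat_lit 100) (nat_lit 68) (nat_lit 88) (nat_lit 352) (.spl (nat_lit 0) (nat_lit 350)
(.leaf p088_l130)
(.trZ (nat_lit 0) (nat_lit 100) (nat_lit 68) (nat_lit 89) (nat_lit 100) (.trX (nat_lit 16) (nat_lit 67) (nat_lit 100) (nat_lit 88) (nat_lit 240) (.leaf p088_l131))))))
(.leaf p088_l132))
(.leaf p088_l133))
(.trZ (nat_lit 0) (nat_lit 100) (nat_lit 75) (nat_lit 92) (nat_lit 104) (.trX (nat_lit 19) (nat_lit 100) (nat_lit 69) (nat_lit 96) (nat_lit 352) (.spl (nat_lit 5) (nat_lit 160)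
(.leaf p088_l134)
(.spl (nat_lit 2) (nat_lit 160)
(.spl (nat_lit 2) (nat_lit 120)
(.leaf p088_l135)
(.leaf p088_l136))
(.leaf p088_l137))))))))))) (by decide +kernel)
noncomputable def p088_l138 : Lf2 := ⟨nat_lit 0, nat_lit 22, [nat_lit 146, nat_lit 5, nat_lit 5, nat_lit 20], false, nat_lit 0, nat_lit 160, nat_lit 0, nat_lit 364, ⟨nat_lit 1000, nat_lit 0, nat_lit 0, nat_lit 0, nat_lit 0, nat_lit 0, nat_lit 0, nat_lit 0, nat_lit 0, nat_lit 0, nat_lit 0, nat_lit 0, nat_lit 0, nat_lit 0, nat_lit 0, nat_lit 0, false, false⟩,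
 nat_lit 0, nat_lit 11533, nat_lit 0, nat_lit 3941, nat_lit 8649, nat_lit 9248, nat_lit 39, nat_lit 0, nat_lit 0, nat_lit 670, nat_lit 0, nat_lit 0, nat_lit 0, nat_lit 0, nat_lit 0, nat_lit 0, nat_lit 0, nat_lit 0, [],
 ⟨p088_k45, nat_lit 0, nat_lit 0, nat_lit 230, nat_lit 0, nat_lit 32785, [nat_lit 2032000001, nat_lit 6250000000, nat_lit 9842000000], [], [nat_lit 34881897247, nat_lit 36755747341, nat_lit 45544327166, nat_lit 46673183810, nat_lit 28023038299, nat_lit 29233911033, nat_lit 36657061209, nat_lit 37617505120], nat_lit 1271250, nat_lit 1271250, nat_lit 1271250, nat_lit 1271250, nat_lit 0, nat_lit 1100001, [nat_lit 490000, nat_lit 1427500, nat_lit 1271250], [nat_lit 61, nat_lit 40, nat_lit 40, nat_lit 80, nat_lit 1, nat_lit 373, nat_lit 150, nat_lit 10]⟩, ⟨p088_k47, nat_lit 0, nat_lit 0, nat_lit 291, nat_lit 0, nat_lit 0, [nat_lit 4688000000, nat_lit 9842000000, nat_lit 14058000000], [], [nat_lit 33940375568,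 nat_lit 35993971120, nat_lit 44599485242, nat_lit 45492272317, nat_lit 32612577631, nat_lit 33332338892, nat_lit 38739379320, nat_lit 39514197641], nat_lit 0, nat_lit 0, nat_lit 0, nat_lit 0, nat_lit 0, nat_lit 0, [], [nat_lit 56, nat_lit 40, nat_lit 40, nat_lit 80, nat_lit 32, nat_lit 538, nat_lit 300, nat_lit 12]⟩,
 zbF0, [⟨nat_lit 19, nat_lit 100, nat_lit 77, nat_lit 91, nat_lit 43636837⟩, ⟨nat_lit 22, nat_lit 84, nat_lit 100, nat_lit 84, nat_lit 105487564⟩]⟩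
noncomputable def p088_l139 : Lf2 := ⟨nat_lit 0, nat_lit 22, [nat_lit 146, nat_lit 5, nat_lit 5, nat_lit 20], false, nat_lit 160, nat_lit 300, nat_lit 0, nat_lit 364, ⟨nat_lit 1000, nat_lit 0, nat_lit 0, nat_lit 0, nat_lit 0, nat_lit 0, nat_lit 0, nat_lit 0, nat_lit 0, nat_lit 0, nat_lit 0, nat_lit 0, nat_lit 0, nat_lit 0, nat_lit 0, nat_lit 0, false, false⟩,
 nat_lit 0, nat_lit 13496, nat_lit 0, nat_lit 12180, nat_lit 10121, nat_lit 9011, nat_lit 0, nat_lit 0, nat_lit 0, nat_lit 651, nat_lit 0, nat_lit 0, nat_lit 0, nat_lit 0, nat_lit 0, nat_lit 0, nat_lit 0, nat_lit 0, [],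
 ⟨p088_k45, nat_lit 0, nat_lit 0, nat_lit 123, nat_lit 0, nat_lit 32785, [nat_lit 2032000001, nat_lit 6250000000, nat_lit 9842000000], [], [nat_lit 26936830316, nat_lit 28674638826, nat_lit 36746695203, nat_lit 37784490360, nat_lit 30841181561, nat_lit 32077179014, nat_lit 38701466690, nat_lit 39848084959], nat_lit 1271250, nat_lit 1271250, nat_lit 1271250, nat_lit 1271250, nat_lit 1100001, nat_lit 2298750, [nat_lit 490000, nat_lit 1427500, nat_lit 1271250], [nat_lit 61, nat_lit 40, nat_lit 40, nat_lit 80, nat_lit 1, nat_lit 401, nat_lit 175, nat_lit 10]⟩, ⟨p088_k47, nat_lit 0, nat_lit 0, nat_lit 291, nat_lit 0, nat_lit 0, [nat_lit 4688000000, nat_lit 9842000000, nat_lit 14058000000], [], [nat_lit 34020176376, nat_lit 36049663340, nat_lit 44522092672, nat_lit 45416358058, nat_lit 32924142208, nat_lit 33647910049, nat_lit 38810707968, nat_lit 39214687814], nat_lit 0, nat_lit 0, nat_lit 0, nat_lit 0, nat_lit 0,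 nat_lit 0, [], [nat_lit 56, nat_lit 40, nat_lit 40, nat_lit 80, nat_lit 32, nat_lit 538, nat_lit 300, nat_lit 12]⟩,
 zbF0, [⟨nat_lit 16, nat_lit 81, nat_lit 100, nat_lit 92, nat_lit 393674522⟩, ⟨nat_lit 7, nat_lit 77, nat_lit 100, nat_lit 91, nat_lit 121945770⟩]⟩
noncomputable def p088_l140 : Lf2 := ⟨nat_lit 1, nat_lit 30, [nat_lit 15, nat_lit 5, nat_lit 5, nat_lit 20], false, nat_lit 0, nat_lit 300, nat_lit 0, nat_lit 364, zbN0,
 nat_lit 0, nat_lit 0, nat_lit 0, nat_lit 0, nat_lit 0, nat_lit 0, nat_lit 0, nat_lit 0, nat_lit 0, nat_lit 0, nat_lit 0, nat_lit 0, nat_lit 0, nat_lit 0, nat_lit 0, nat_lit 0, nat_lit 0, nat_lit 0, [],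
 C1.Rw.none, C1.Rw.none,
 zbF0, []⟩
noncomputable def p088_l141 : Lf2 := ⟨nat_lit 0, nat_lit 30, [nat_lit 15, nat_lit 5, nat_lit 5, nat_lit 20], false, nat_lit 0, nat_lit 160, nat_lit 0, nat_lit 160, ⟨nat_lit 1000, nat_lit 0, nat_lit 0, nat_lit 0, nat_lit 0, nat_lit 0, nat_lit 0, nat_lit 0, nat_lit 0, nat_lit 0, nat_lit 0, nat_lit 0, nat_lit 0, nat_lit 0, nat_lit 0, nat_lit 0, false, false⟩,
 nat_lit 0, nat_lit 7515, nat_lit 0, nat_lit 13167, nat_lit 6083, nat_lit 7505, nat_lit 384, nat_lit 0, nat_lit 0, nat_lit 1083, nat_lit 0, nat_lit 0, nat_lit 0, nat_lit 0, nat_lit 0, nat_lit 0, nat_lit 0, nat_lit 0, [],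
 ⟨p088_k23, nat_lit 0, nat_lit 0, nat_lit 311, nat_lit 0, nat_lit 210758, [nat_lit 2032000001, nat_lit 4688000000, nat_lit 9842000000], [], [nat_lit 31203970122, nat_lit 32713946020, nat_lit 38992256795, nat_lit 39978987259, nat_lit 27117009356, nat_lit 28025276204, nat_lit 33408933393, nat_lit 34258118857], nat_lit 1271250, nat_lit 1271250, nat_lit 1271250, nat_lit 1271250, nat_lit 0, nat_lit 1100001, [nat_lit 490000, nat_lit 1100000, nat_lit 2127500], [nat_lit 27, nat_lit 40, nat_lit 40, nat_lit 80, nat_lit 13, nat_lit 373, nat_lit 150, nat_lit 10]⟩, ⟨p088_k24, nat_lit 0, nat_lit 0, nat_lit 306, nat_lit 0, nat_lit 0, [nat_lit 4688000000, nat_lit 7968000000, nat_lit 16400000000], [], [nat_lit 34616086615, nat_lit 35660048935, nat_lit 40116395845, nat_lit 40835079432, nat_lit 28658393835, nat_lit 29523511975, nat_lit 33892793500, nat_lit 34820970171], nat_lit 0, nat_lit 0, nat_lit 0, nat_lit 0, nat_lit 0, nat_lit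 0, [], [nat_lit 122, nat_lit 40, nat_lit 40, nat_lit 80, nat_lit 111, nat_lit 456, nat_lit 225, nat_lit 9]⟩,
 zbF0, []⟩
noncomputable def p088_l142 : Lf2 := ⟨nat_lit 0, nat_lit 30, [nat_lit 15, nat_lit 5, nat_lit 5, nat_lit 20], false, nat_lit 0, nat_lit 160, nat_lit 160, nat_lit 364, ⟨nat_lit 1000, nat_lit 0, nat_lit 0, nat_lit 0, nat_lit 0, nat_lit 0, nat_lit 0, nat_lit 0, nat_lit 0, nat_lit 0, nat_lit 0, nat_lit 0, nat_lit 0, nat_lit 0, nat_lit 0, nat_lit 0, false, false⟩,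
 nat_lit 0, nat_lit 6302, nat_lit 0, nat_lit 15913, nat_lit 5101, nat_lit 9793, nat_lit 635, nat_lit 0, nat_lit 0, nat_lit 757, nat_lit 0, nat_lit 0, nat_lit 0, nat_lit 0, nat_lit 0, nat_lit 0, nat_lit 0, nat_lit 0, [],
 ⟨p088_k29, nat_lit 0, nat_lit 0, nat_lit 314, nat_lit 0, nat_lit 210758, [nat_lit 2032000001, nat_lit 6250000000, nat_lit 9842000000], [], [nat_lit 28418395625, nat_lit 29511427747, nat_lit 35789437573, nat_lit 37100425126, nat_lit 25615745717, nat_lit 26546192320, nat_lit 31358425767, nat_lit 32111980052], nat_lit 1271250, nat_lit 1271250, nat_lit 1271250, nat_lit 1271250, nat_lit 0, nat_lit 1100001, [nat_lit 490000, nat_lit 1427500, nat_lit 1271250], [nat_lit 61, nat_lit 40, nat_lit 40, nat_lit 80, nat_lit 1, nat_lit 373, nat_lit 150, nat_lit 10]⟩, ⟨p088_k30, nat_lit 0, nat_lit 0, nat_lit 204, nat_lit 0, nat_lit 0, [nat_lit 4688000000, nat_lit 9842000000, nat_lit 16400000000], [], [nat_lit 26521406371,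 nat_lit 27908964863, nat_lit 33796480326, nat_lit 34478610453, nat_lit 31916148505, nat_lit 33016225527, nat_lit 38660486753, nat_lit 39582433193], nat_lit 0, nat_lit 0, nat_lit 0, nat_lit 0, nat_lit 0, nat_lit 0, [], [nat_lit 83, nat_lit 40, nat_lit 40, nat_lit 80, nat_lit 73, nat_lit 538, nat_lit 300, nat_lit 11]⟩,
 zbF0, [⟨nat_lit 7, nat_lit 77, nat_lit 100, nat_lit 91, nat_lit 395974265⟩]⟩
noncomputable def p088_l143 : Lf2 := ⟨nat_lit 0, nat_lit 30, [nat_lit 15, nat_lit 5, nat_lit 5, nat_lit 20], false, nat_lit 160, nat_lit 276, nat_lit 0, nat_lit 160, ⟨nat_lit 1000, nat_lit 0, nat_lit 0, nat_lit 0, nat_lit 0, nat_lit 0, nat_lit 0, nat_lit 0, nat_lit 0, nat_lit 0, nat_lit 0, nat_lit 0, nat_lit 0, nat_lit 0, nat_lit 0, nat_lit 0, false, false⟩,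
 nat_lit 0, nat_lit 8960, nat_lit 0, nat_lit 11410, nat_lit 7253, nat_lit 8544, nat_lit 339, nat_lit 0, nat_lit 0, nat_lit 1244, nat_lit 0, nat_lit 0, nat_lit 0, nat_lit 0, nat_lit 0, nat_lit 0, nat_lit 0, nat_lit 0, [],
 ⟨p088_k23, nat_lit 0, nat_lit 0, nat_lit 188, nat_lit 0, nat_lit 210758, [nat_lit 2032000001, nat_lit 4688000000, nat_lit 9842000000], [], [nat_lit 26503995693, nat_lit 27916831123, nat_lit 33720051540, nat_lit 34637280997, nat_lit 29030322438, nat_lit 30133287529, nat_lit 35094563996, nat_lit 36168695815], nat_lit 1271250, nat_lit 1271250, nat_lit 1271250, nat_lit 1271250, nat_lit 1100001, nat_lit 2093250, [nat_lit 490000, nat_lit 1100000, nat_lit 2127500], [nat_lit 27, nat_lit 40, nat_lit 40, nat_lit 80, nat_lit 13, nat_lit 401, nat_lit 175, nat_lit 10]⟩, ⟨p088_k24, nat_lit 0, nat_lit 0, nat_lit 306, nat_lit 0, nat_lit 0, [nat_lit 4688000000, nat_lit 7968000000, nat_lit 16400000000], [], [nat_lit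 32018141212, nat_lit 33077547228, nat_lit 39427515277, nat_lit 40700370023, nat_lit 24892865948, nat_lit 25762431936, nat_lit 32211088881, nat_lit 33145763456], nat_lit 0, nat_lit 0, nat_lit 0, nat_lit 0, nat_lit 0, nat_lit 0, [], [nat_lit 122, nat_lit 40, nat_lit 40, nat_lit 80, nat_lit 111, nat_lit 456, nat_lit 225, nat_lit 9]⟩,
 zbF0, [⟨nat_lit 4, nat_lit 100, nat_lit 67, nat_lit 88, nat_lit 435302710⟩, ⟨nat_lit 9, nat_lit 100, nat_lit 82, nat_lit 64, nat_lit 100336991⟩]⟩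
noncomputable def p088_l144 : Lf2 := ⟨nat_lit 0, nat_lit 30, [nat_lit 15, nat_lit 5, nat_lit 5, nat_lit 20], false, nat_lit 160, nat_lit 276, nat_lit 160, nat_lit 240, ⟨nat_lit 1000, nat_lit 0, nat_lit 0, nat_lit 0, nat_lit 0, nat_lit 0, nat_lit 0, nat_lit 0, nat_lit 0, nat_lit 0, nat_lit 0, nat_lit 0, nat_lit 0, nat_lit 0, nat_lit 0, nat_lit 0, false, false⟩,
 nat_lit 0, nat_lit 6415, nat_lit 0, nat_lit 15022, nat_lit 5192, nat_lit 10907, nat_lit 570, nat_lit 0, nat_lit 0, nat_lit 767, nat_lit 0, nat_lit 0, nat_lit 0, nat_lit 0, nat_lit 0, nat_lit 0, nat_lit 0, nat_lit 0, [],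
 ⟨p088_k29, nat_lit 0, nat_lit 0, nat_lit 194, nat_lit 0, nat_lit 210758, [nat_lit 2032000001, nat_lit 6250000000, nat_lit 9842000000], [], [nat_lit 24737764602, nat_lit 25917068122, nat_lit 31012529598, nat_lit 31812078164, nat_lit 27310175925, nat_lit 28252440106, nat_lit 32735167160, nat_lit 33661039687], nat_lit 1271250, nat_lit 1271250, nat_lit 1271250, nat_lit 1271250, nat_lit 1100001, nat_lit 2093250, [nat_lit 490000, nat_lit 1427500, nat_lit 1271250], [nat_lit 61, nat_lit 40, nat_lit 40, nat_lit 80, nat_lit 1, nat_lit 401, nat_lit 175, nat_lit 10]⟩, ⟨p088_k30, nat_lit 0, nat_lit 0, nat_lit 204, nat_lit 0, nat_lit 0, [nat_lit 4688000000, nat_lit 9842000000, nat_lit 16400000000], [], [nat_lit 25996287529, nat_lit 27429791837, nat_lit 33668882135, nat_lit 34184923809, nat_lit 26434614961, nat_lit 27529144609, nat_lit 33083240899, nat_lit 34075679517], nat_lit 0, nat_lit 0, nat_lit 0, nat_lit 0, nat_lit 0,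 nat_lit 0, [], [nat_lit 83, nat_lit 40, nat_lit 40, nat_lit 80, nat_lit 73, nat_lit 483, nat_lit 250, nat_lit 10]⟩,
 zbF0, [⟨nat_lit 4, nat_lit 100, nat_lit 67, nat_lit 88, nat_lit 533303138⟩]⟩
noncomputable def p088_l145 : Lf2 := ⟨nat_lit 0, nat_lit 30, [nat_lit 15, nat_lit 5, nat_lit 5, nat_lit 20], false, nat_lit 160, nat_lit 276, nat_lit 240, nat_lit 364, ⟨nat_lit 1000, nat_lit 0, nat_lit 0, nat_lit 0, nat_lit 0, nat_lit 0, nat_lit 0, nat_lit 0, nat_lit 0, nat_lit 0, nat_lit 0, nat_lit 0, nat_lit 0, nat_lit 0, nat_lit 0, nat_lit 0, false, false⟩,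
 nat_lit 0, nat_lit 6178, nat_lit 0, nat_lit 19022, nat_lit 5000, nat_lit 5799, nat_lit 623, nat_lit 0, nat_lit 0, nat_lit 0, nat_lit 0, nat_lit 0, nat_lit 0, nat_lit 0, nat_lit 0, nat_lit 0, nat_lit 0, nat_lit 0, [],
 ⟨p088_k29, nat_lit 0, nat_lit 0, nat_lit 194, nat_lit 0, nat_lit 210758, [nat_lit 2032000001, nat_lit 6250000000, nat_lit 9842000000], [], [nat_lit 24199163375, nat_lit 25356711375, nat_lit 30700138600, nat_lit 31626186200, nat_lit 26775867875, nat_lit 27703161375, nat_lit 32515368911, nat_lit 33427429800], nat_lit 1271250, nat_lit 1271250, nat_lit 1271250, nat_lit 1271250, nat_lit 1100001, nat_lit 2093250, [nat_lit 490000, nat_lit 1427500, nat_lit 1271250], [nat_lit 61, nat_lit 40, nat_lit 40, nat_lit 80, nat_lit 1, nat_lit 401, nat_lit 175, nat_lit 10]⟩, ⟨p088_k30, nat_lit 0, nat_lit 0, nat_lit 111, nat_lit 0, nat_lit 0, [nat_lit 4688000000, nat_lit 9842000000, nat_lit 16400000000], [], [nat_lit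 18696177520, nat_lit 20876265048, nat_lit 28161732758, nat_lit 29457459044, nat_lit 26488017456, nat_lit 27929497553, nat_lit 33738375172, nat_lit 34673752635], nat_lit 0, nat_lit 0, nat_lit 0, nat_lit 0, nat_lit 0, nat_lit 0, [], [nat_lit 83, nat_lit 40, nat_lit 40, nat_lit 80, nat_lit 73, nat_lit 538, nat_lit 300, nat_lit 10]⟩,
 zbF0, [⟨nat_lit 4, nat_lit 100, nat_lit 67, nat_lit 88, nat_lit 494465364⟩, ⟨nat_lit 7, nat_lit 77, nat_lit 100, nat_lit 91, nat_lit 511074300⟩]⟩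
noncomputable def b_V_800_600_20_51 : St := ⟨true, nat_lit 1, nat_lit 0, nat_lit 1, nat_lit 120, nat_lit 320, nat_lit 360, nat_lit 240, nat_lit 280, nat_lit 240, nat_lit 396, nat_lit 80, nat_lit 120, nat_lit 0, nat_lit 300, nat_lit 0, nat_lit 364, nat_lit 80, nat_lit 120, nat_lit 0, nat_lit 0, nat_lit 0, nat_lit 0⟩
theorem d_V_800_600_20_51 (h : EB TB.env) : Dead b_V_800_600_20_51 := chkB_sound0 h (T :=
(.spl (nat_lit 0) (nat_lit 340)
(.spl (nat_lit 6) (nat_lit 88)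
(.spl (nat_lit 4) (nat_lit 160)
(.leaf p088_l138)
(.leaf p088_l139))
(.leaf p088_l140))
(.trX (nat_lit 13) (nat_lit 78) (nat_lit 39) (nat_lit 100) (nat_lit 388) (.trX (nat_lit 16) (nat_lit 77) (nat_lit 100) (nat_lit 99) (nat_lit 276) (.spl (nat_lit 4) (nat_lit 160)
(.spl (nat_lit 5) (nat_lit 160)
(.leaf p088_l141)
(.leaf p088_l142))
(.spl (nat_lit 5) (nat_lit 160)
(.leaf p088_l143)
(.spl (nat_lit 5) (nat_lit 240)
(.leaf p088_l144)
(.leaf p088_l145)))))))) (by decide +kernel)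
noncomputable def p088_l146 : Lf2 := ⟨nat_lit 1, nat_lit 22, [nat_lit 146, nat_lit 5, nat_lit 5, nat_lit 20], false, nat_lit 0, nat_lit 160, nat_lit 0, nat_lit 364, zbN0,
 nat_lit 0, nat_lit 0, nat_lit 0, nat_lit 0, nat_lit 0, nat_lit 0, nat_lit 0, nat_lit 0, nat_lit 0, nat_lit 0, nat_lit 0, nat_lit 0, nat_lit 0, nat_lit 0, nat_lit 0, nat_lit 0, nat_lit 0, nat_lit 0, [],
 C1.Rw.none, C1.Rw.none,
 zbF0, []⟩
noncomputable def p088_l147 : Lf2 := ⟨nat_lit 0, nat_lit 22, [nat_lit 146, nat_lit 5, nat_lit 5, nat_lit 20], false, nat_lit 0, nat_lit 160, nat_lit 0, nat_lit 364, ⟨nat_lit 0, nat_lit 0, nat_lit 1000, nat_lit 6, nat_lit 172, nat_lit 583, nat_lit 65, nat_lit 1000, nat_lit 40017, nat_lit 264, nat_lit 19642, nat_lit 247, nat_lit 56498786, nat_lit 0, nat_lit 0, nat_lit 2171074, false, false⟩,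
 nat_lit 0, nat_lit 3364, nat_lit 0, nat_lit 6542, nat_lit 2622, nat_lit 0, nat_lit 58, nat_lit 0, nat_lit 0, nat_lit 0, nat_lit 0, nat_lit 0, nat_lit 0, nat_lit 0, nat_lit 126, nat_lit 400000, nat_lit 0, nat_lit 0, [(nat_lit 20, [(nat_lit 5, nat_lit 1000)])],
 ⟨p088_k48, nat_lit 0, nat_lit 0, nat_lit 207, nat_lit 0, nat_lit 17276, [nat_lit 1936800001, nat_lit 1581600001, nat_lit 184400000], [], [nat_lit 16649277879, nat_lit 17287965637, nat_lit 17594791728, nat_lit 18115852206, nat_lit 17047924022, nat_lit 17541837868, nat_lit 18020077113, nat_lit 18624107295], nat_lit 1271250, nat_lit 1271250, nat_lit 462650, nat_lit 1100001, nat_lit 0, nat_lit 1100001, [nat_lit 490000, nat_lit 1100000, nat_lit 2127500], [nat_lit 27, nat_lit 40, nat_lit 40, nat_lit 80, nat_lit 13, nat_lit 317, nat_lit 100, nat_lit 9]⟩, ⟨p088_k19, nat_lit 0, nat_lit 0, nat_lit 389, nat_lit 0, nat_lit 29697, [nat_lit 0, nat_lit 0, nat_lit 0],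 [], [nat_lit 0, nat_lit 0, nat_lit 0, nat_lit 0, nat_lit 0, nat_lit 0, nat_lit 0, nat_lit 0], nat_lit 1271250, nat_lit 1271250, nat_lit 462650, nat_lit 1100001, nat_lit 0, nat_lit 2570750, [nat_lit 1100000, nat_lit 1785000, nat_lit 1271250], [nat_lit 37, nat_lit 40, nat_lit 40, nat_lit 80, nat_lit 28, nat_lit 456, nat_lit 225, nat_lit 11]⟩,
 ⟨nat_lit 3872, nat_lit 4184, ⟨.ofNat (nat_lit 337921), .ofNat (nat_lit 477065), .ofNat (nat_lit 381245), .ofNat (nat_lit 520388), .ofNat (nat_lit 343550), .ofNat (nat_lit 479052), .ofNat (nat_lit 387127), .ofNat (nat_lit 522628)⟩, ⟨.ofNat (nat_lit 0), .ofNat (nat_lit 303743), .ofNat (nat_lit 0), .ofNat (nat_lit 347076), .ofNat (nat_lit 0), .ofNat (nat_lit 304717), .ofNat (nat_lit 0), .ofNat (nat_lit 348304)⟩⟩, [⟨nat_lit 0, nat_lit 99, nat_lit 77, nat_lit 100, nat_lit 2844774⟩]⟩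
noncomputable def p088_l148 : Lf2 := ⟨nat_lit 0, nat_lit 22, [nat_lit 146, nat_lit 5, nat_lit 5, nat_lit 20], false, nat_lit 0, nat_lit 160, nat_lit 0, nat_lit 160, ⟨nat_lit 1000, nat_lit 0, nat_lit 0, nat_lit 0, nat_lit 0, nat_lit 0, nat_lit 0, nat_lit 0, nat_lit 0, nat_lit 0, nat_lit 0, nat_lit 0, nat_lit 0, nat_lit 0, nat_lit 0, nat_lit 0, false, false⟩,
 nat_lit 12461, nat_lit 0, nat_lit 0, nat_lit 38992, nat_lit 6480, nat_lit 6597, nat_lit 972, nat_lit 0, nat_lit 0, nat_lit 767, nat_lit 0, nat_lit 0, nat_lit 0, nat_lit 0, nat_lit 0, nat_lit 0, nat_lit 0, nat_lit 0, [],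
 ⟨p088_k18, nat_lit 0, nat_lit 0, nat_lit 183, nat_lit 0, nat_lit 18201, [nat_lit 2032000001, nat_lit 4688000000, nat_lit 9842000000], [], [nat_lit 22417877980, nat_lit 24256497340, nat_lit 25121210400, nat_lit 27531209120, nat_lit 18020504380, nat_lit 19569473180, nat_lit 20442544640, nat_lit 22150137200], nat_lit 1271250, nat_lit 1271250, nat_lit 1100001, nat_lit 1785000, nat_lit 0, nat_lit 1100001, [nat_lit 490000, nat_lit 1100000, nat_lit 2127500], [nat_lit 27, nat_lit 40, nat_lit 40, nat_lit 80, nat_lit 13, nat_lit 317, nat_lit 100, nat_lit 9]⟩, ⟨p088_k19, nat_lit 0, nat_lit 0, nat_lit 261, nat_lit 0, nat_lit 29697, [nat_lit 4688000000, nat_lit 7968000000, nat_lit 14058000000], [], [nat_lit 39428784480, nat_lit 32452615308, nat_lit 32399211452, nat_lit 34183136680, nat_lit 28993748932, nat_lit 27764437668, nat_lit 37116263620, nat_lit 30899171656], nat_lit 1271250, nat_lit 1271250, nat_lit 1100001, nat_lit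 1785000, nat_lit 0, nat_lit 1100001, [nat_lit 1100000, nat_lit 1785000, nat_lit 1271250], [nat_lit 37, nat_lit 40, nat_lit 40, nat_lit 80, nat_lit 28, nat_lit 401, nat_lit 175, nat_lit 9]⟩,
 zbF0, []⟩
noncomputable def p088_l149 : Lf2 := ⟨nat_lit 0, nat_lit 22, [nat_lit 146, nat_lit 5, nat_lit 5, nat_lit 20], false, nat_lit 0, nat_lit 160, nat_lit 160, nat_lit 364, ⟨nat_lit 1000, nat_lit 0, nat_lit 0, nat_lit 0, nat_lit 0, nat_lit 0, nat_lit 0, nat_lit 0, nat_lit 0, nat_lit 0, nat_lit 0, nat_lit 0, nat_lit 0, nat_lit 0, nat_lit 0, nat_lit 0, false, false⟩,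
 nat_lit 8641, nat_lit 0, nat_lit 10131, nat_lit 58331, nat_lit 6480, nat_lit 9938, nat_lit 972, nat_lit 0, nat_lit 0, nat_lit 0, nat_lit 0, nat_lit 0, nat_lit 0, nat_lit 0, nat_lit 0, nat_lit 0, nat_lit 0, nat_lit 0, [],
 ⟨p088_k18, nat_lit 0, nat_lit 0, nat_lit 183, nat_lit 0, nat_lit 18201, [nat_lit 2032000001, nat_lit 4688000000, nat_lit 9842000000], [], [nat_lit 22417877980, nat_lit 24256497340, nat_lit 25121210400, nat_lit 27531209120, nat_lit 18020504380, nat_lit 19569473180, nat_lit 20442544640, nat_lit 22150137200], nat_lit 1271250, nat_lit 1271250, nat_lit 1100001, nat_lit 1785000, nat_lit 0, nat_lit 1100001, [nat_lit 490000, nat_lit 1100000, nat_lit 2127500], [nat_lit 27, nat_lit 40, nat_lit 40, nat_lit 80, nat_lit 13, nat_lit 317, nat_lit 100, nat_lit 9]⟩, ⟨p088_k19, nat_lit 0, nat_lit 0, nat_lit 112, nat_lit 0, nat_lit 29697, [nat_lit 4688000000, nat_lit 7968000000, nat_lit 14058000000], [], [nat_lit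 39831933920, nat_lit 29322737432, nat_lit 29678763032, nat_lit 19774830496, nat_lit 27424452743, nat_lit 29162542687, nat_lit 28598358112, nat_lit 30675675270], nat_lit 1271250, nat_lit 1271250, nat_lit 1100001, nat_lit 1785000, nat_lit 1271250, nat_lit 1271250, [nat_lit 1100000, nat_lit 1785000, nat_lit 1271250], [nat_lit 37, nat_lit 40, nat_lit 40, nat_lit 80, nat_lit 28, nat_lit 456, nat_lit 225, nat_lit 10]⟩,
 zbF0, [⟨nat_lit 7, nat_lit 77, nat_lit 100, nat_lit 91, nat_lit 254169086⟩]⟩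
noncomputable def p088_l150 : Lf2 := ⟨nat_lit 1, nat_lit 30, [nat_lit 15, nat_lit 5, nat_lit 5, nat_lit 20], false, nat_lit 0, nat_lit 160, nat_lit 0, nat_lit 364, zbN0,
 nat_lit 0, nat_lit 0, nat_lit 0, nat_lit 0, nat_lit 0, nat_lit 0, nat_lit 0, nat_lit 0, nat_lit 0, nat_lit 0, nat_lit 0, nat_lit 0, nat_lit 0, nat_lit 0, nat_lit 0, nat_lit 0, nat_lit 0, nat_lit 0, [],
 C1.Rw.none, C1.Rw.none,
 zbF0, []⟩
noncomputable def p088_l151 : Lf2 := ⟨nat_lit 0, nat_lit 25, [nat_lit 44, nat_lit 5, nat_lit 5, nat_lit 20], true, nat_lit 0, nat_lit 80, nat_lit 0, nat_lit 352, ⟨nat_lit 0, nat_lit 0, nat_lit 1000, nat_lit 6, nat_lit 173, nat_lit 1000, nat_lit 38, nat_lit 1000, nat_lit 13067, nat_lit 243, nat_lit 32267, nat_lit 259, nat_lit 56391267, nat_lit 0, nat_lit 0, nat_lit 2184527, false, false⟩,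
 nat_lit 0, nat_lit 3213, nat_lit 0, nat_lit 5281, nat_lit 2601, nat_lit 0, nat_lit 0, nat_lit 0, nat_lit 0, nat_lit 0, nat_lit 0, nat_lit 0, nat_lit 0, nat_lit 0, nat_lit 150, nat_lit 400000, nat_lit 0, nat_lit 0, [(nat_lit 23, [(nat_lit 5, nat_lit 1000)])],
 ⟨p088_k37, nat_lit 0, nat_lit 0, nat_lit 226, nat_lit 0, nat_lit 30826, [nat_lit 2182400000, nat_lit 912200000, nat_lit 378800000], [], [nat_lit 17511698644, nat_lit 18136496615, nat_lit 18402230382, nat_lit 18921693831, nat_lit 16927483461, nat_lit 17461504983, nat_lit 17843218264, nat_lit 18333930608], nat_lit 1271250, nat_lit 1271250, nat_lit 545600, nat_lit 1100001, nat_lit 0, nat_lit 490000, [nat_lit 490000, nat_lit 1427500, nat_lit 1271250], [nat_lit 61, nat_lit 40, nat_lit 40, nat_lit 80, nat_lit 1, nat_lit 272, nat_lit 60, nat_lit 8]⟩, C1.Rw.none,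
 ⟨nat_lit 3535, nat_lit 3873, ⟨.ofNat (nat_lit 362897), .ofNat (nat_lit 479046), .ofNat (nat_lit 384684), .ofNat (nat_lit 500833), .ofNat (nat_lit 368144), .ofNat (nat_lit 481125), .ofNat (nat_lit 390090), .ofNat (nat_lit 503072)⟩, ⟨.ofNat (nat_lit 0), .ofNat (nat_lit 175674), .ofNat (nat_lit 0), .ofNat (nat_lit 197467), .ofNat (nat_lit 0), .ofNat (nat_lit 179999), .ofNat (nat_lit 0), .ofNat (nat_lit 200000)⟩⟩, [⟨nat_lit 3, nat_lit 100, nat_lit 82, nat_lit 27, nat_lit 161610440⟩]⟩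
noncomputable def p088_l152 : Lf2 := ⟨nat_lit 0, nat_lit 25, [nat_lit 44, nat_lit 5, nat_lit 5, nat_lit 20], false, nat_lit 0, nat_lit 80, nat_lit 0, nat_lit 336, ⟨nat_lit 32, nat_lit 0, nat_lit 968, nat_lit 6, nat_lit 187, nat_lit 968, nat_lit 38, nat_lit 968, nat_lit 13067, nat_lit 243, nat_lit 15045, nat_lit 245, nat_lit 54947969, nat_lit 0, nat_lit 0, nat_lit 2356064, false, false⟩,
 nat_lit 451, nat_lit 2841, nat_lit 0, nat_lit 4064, nat_lit 2664, nat_lit 262, nat_lit 0, nat_lit 0, nat_lit 0, nat_lit 24, nat_lit 0, nat_lit 0, nat_lit 0, nat_lit 0, nat_lit 144, nat_lit 412400, nat_lit 0, nat_lit 0, [(nat_lit 23, [(nat_lit 5, nat_lit 926), (nat_lit 6, nat_lit 42)])],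
 ⟨p088_k20, nat_lit 0, nat_lit 0, nat_lit 216, nat_lit 0, nat_lit 69447, [nat_lit 2158512000, nat_lit 1355149600, nat_lit 334803200], [], [nat_lit 17759103076, nat_lit 18320541513, nat_lit 18507248048, nat_lit 19031502584, nat_lit 17142505328, nat_lit 17672381141, nat_lit 17904556896, nat_lit 18399675712], nat_lit 1271250, nat_lit 1271250, nat_lit 660400, nat_lit 1100001, nat_lit 0, nat_lit 490000, [nat_lit 490000, nat_lit 1100000, nat_lit 2127500], [nat_lit 27, nat_lit 40, nat_lit 40, nat_lit 80, nat_lit 13, nat_lit 272, nat_lit 60, nat_lit 8]⟩, ⟨p088_k36, nat_lit 0, nat_lit 0, nat_lit 400, nat_lit 0, nat_lit 106064, [nat_lit 150016000, nat_lit 254976000, nat_lit 449856000], [], [nat_lit 1593384404, nat_lit 1451820669, nat_lit 1200749108, nat_lit 1086562096, nat_lit 1026572964, nat_lit 1042070101, nat_lit 1120203445, nat_lit 1004475127], nat_lit 1271250, nat_lit 1271250, nat_lit 660400, nat_lit 1100001, nat_lit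 0, nat_lit 2373000, [nat_lit 1100000, nat_lit 1785000, nat_lit 1271250], [nat_lit 37, nat_lit 40, nat_lit 40, nat_lit 80, nat_lit 28, nat_lit 428, nat_lit 200, nat_lit 10]⟩,
 ⟨nat_lit 3535, nat_lit 3873, ⟨.ofNat (nat_lit 410495), .ofNat (nat_lit 500833), .ofNat (nat_lit 432282), .ofNat (nat_lit 522620), .ofNat (nat_lit 415197), .ofNat (nat_lit 503072), .ofNat (nat_lit 437143), .ofNat (nat_lit 525018)⟩, ⟨.ofNat (nat_lit 0), .ofNat (nat_lit 175674), .ofNat (nat_lit 0), .ofNat (nat_lit 197467), .ofNat (nat_lit 0), .ofNat (nat_lit 179999), .ofNat (nat_lit 0), .ofNat (nat_lit 200000)⟩⟩, [⟨nat_lit 3, nat_lit 100, nat_lit 82, nat_lit 27, nat_lit 156226865⟩]⟩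
noncomputable def p088_l153 : Lf2 := ⟨nat_lit 1, nat_lit 25, [nat_lit 44, nat_lit 5, nat_lit 5, nat_lit 20], false, nat_lit 0, nat_lit 80, nat_lit 0, nat_lit 352, zbN0,
 nat_lit 0, nat_lit 0, nat_lit 0, nat_lit 0, nat_lit 0, nat_lit 0, nat_lit 0, nat_lit 0, nat_lit 0, nat_lit 0, nat_lit 0, nat_lit 0, nat_lit 0, nat_lit 0, nat_lit 0, nat_lit 0, nat_lit 0, nat_lit 0, [],
 C1.Rw.none, C1.Rw.none,
 zbF0, []⟩
noncomputable def p088_l154 : Lf2 := ⟨nat_lit 0, nat_lit 25, [nat_lit 44, nat_lit 5, nat_lit 5, nat_lit 20], false, nat_lit 4, nat_lit 80, nat_lit 0, nat_lit 352, ⟨nat_lit 130, nat_lit 0, nat_lit 870, nat_lit 6, nat_lit 183, nat_lit 870, nat_lit 40, nat_lit 870, nat_lit 15000, nat_lit 245, nat_lit 16148, nat_lit 244, nat_lit 54208601, nat_lit 0, nat_lit 0, nat_lit 2816267, false, false⟩,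
 nat_lit 2577, nat_lit 654, nat_lit 0, nat_lit 2698, nat_lit 2713, nat_lit 1364, nat_lit 0, nat_lit 0, nat_lit 0, nat_lit 81, nat_lit 0, nat_lit 0, nat_lit 0, nat_lit 0, nat_lit 87, nat_lit 348000, nat_lit 0, nat_lit 0, [(nat_lit 23, [(nat_lit 5, nat_lit 870)])],
 ⟨p088_k21, nat_lit 0, nat_lit 0, nat_lit 245, nat_lit 0, nat_lit 119093, [nat_lit 1814848001, nat_lit 1299524001, nat_lit 39816000], [], [nat_lit 18481720729, nat_lit 19236405567, nat_lit 19320191922, nat_lit 19891423190, nat_lit 17899125677, nat_lit 18478797612, nat_lit 18753046182, nat_lit 19290928502], nat_lit 1271250, nat_lit 1271250, nat_lit 631250, nat_lit 1100001, nat_lit 21650, nat_lit 490000, [nat_lit 490000, nat_lit 1100000, nat_lit 1785000], [nat_lit 34, nat_lit 40, nat_lit 40, nat_lit 80, nat_lit 7, nat_lit 272, nat_lit 60, nat_lit 9]⟩, ⟨p088_k49, nat_lit 0, nat_lit 0, nat_lit 442, nat_lit 0, nat_lit 216749, [nat_lit 609440000, nat_lit 1035840000,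 nat_lit 1827540000], [], [nat_lit 8106080872, nat_lit 6629782752, nat_lit 5897399320, nat_lit 5472094904, nat_lit 4700173211, nat_lit 4728523035, nat_lit 5530515501, nat_lit 4418309714], nat_lit 1271250, nat_lit 1271250, nat_lit 631250, nat_lit 1100001, nat_lit 0, nat_lit 2486000, [nat_lit 1100000, nat_lit 1785000, nat_lit 1271250], [nat_lit 37, nat_lit 40, nat_lit 40, nat_lit 80, nat_lit 28, nat_lit 428, nat_lit 200, nat_lit 10]⟩,
 ⟨nat_lit 3162, nat_lit 3536, ⟨.ofNat (nat_lit 386958), .ofNat (nat_lit 481116), .ofNat (nat_lit 430847), .ofNat (nat_lit 525005), .ofNat (nat_lit 391883), .ofNat (nat_lit 483329), .ofNat (nat_lit 436176), .ofNat (nat_lit 527622)⟩, ⟨.ofNat (nat_lit 10000), .ofNat (nat_lit 179999), .ofNat (nat_lit 10000), .ofNat (nat_lit 200000), .ofNat (nat_lit 10000), .ofNat (nat_lit 184209), .ofNat (nat_lit 10000), .ofNat (nat_lit 200000)⟩⟩, [⟨nat_lit 0, nat_lit 94, nat_lit 62, nat_lit 100, nat_lit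 145440528⟩, ⟨nat_lit 3, nat_lit 100, nat_lit 76, nat_lit 36, nat_lit 145486788⟩]⟩
noncomputable def p088_l155 : Lf2 := ⟨nat_lit 1, nat_lit 25, [nat_lit 44, nat_lit 5, nat_lit 5, nat_lit 20], false, nat_lit 0, nat_lit 80, nat_lit 0, nat_lit 352, zbN0,
 nat_lit 0, nat_lit 0, nat_lit 0, nat_lit 0, nat_lit 0, nat_lit 0, nat_lit 0, nat_lit 0, nat_lit 0, nat_lit 0, nat_lit 0, nat_lit 0, nat_lit 0, nat_lit 0, nat_lit 0, nat_lit 0, nat_lit 0, nat_lit 0, [],
 C1.Rw.none, C1.Rw.none,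
 zbF0, []⟩
noncomputable def p088_l156 : Lf2 := ⟨nat_lit 0, nat_lit 25, [nat_lit 44, nat_lit 5, nat_lit 5, nat_lit 20], true, nat_lit 4, nat_lit 80, nat_lit 0, nat_lit 364, ⟨nat_lit 0, nat_lit 0, nat_lit 1000, nat_lit 6, nat_lit 178, nat_lit 1000, nat_lit 42, nat_lit 1000, nat_lit 16017, nat_lit 246, nat_lit 15045, nat_lit 245, nat_lit 54671707, nat_lit 0, nat_lit 0, nat_lit 2777049, false, false⟩,
 nat_lit 0, nat_lit 3145, nat_lit 0, nat_lit 5593, nat_lit 2545, nat_lit 0, nat_lit 0, nat_lit 0, nat_lit 0, nat_lit 0, nat_lit 0, nat_lit 0, nat_lit 0, nat_lit 0, nat_lit 155, nat_lit 415000, nat_lit 0, nat_lit 0, [(nat_lit 23, [(nat_lit 5, nat_lit 975), (nat_lit 6, nat_lit 25)])],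
 ⟨p088_k20, nat_lit 0, nat_lit 0, nat_lit 207, nat_lit 0, nat_lit 25321, [nat_lit 2216760001, nat_lit 1374810001, nat_lit 332360000], [], [nat_lit 17332481431, nat_lit 17936450553, nat_lit 18238242877, nat_lit 18752027121, nat_lit 16815473703, nat_lit 17344999411, nat_lit 17744065882, nat_lit 18232923373], nat_lit 1271250, nat_lit 1271250, nat_lit 545600, nat_lit 1100001, nat_lit 21650, nat_lit 490000, [nat_lit 490000, nat_lit 1100000, nat_lit 2127500], [nat_lit 27, nat_lit 40, nat_lit 40, nat_lit 80, nat_lit 13, nat_lit 272, nat_lit 60, nat_lit 8]⟩, C1.Rw.none,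
 ⟨nat_lit 3535, nat_lit 3873, ⟨.ofNat (nat_lit 362897), .ofNat (nat_lit 479046), .ofNat (nat_lit 406471), .ofNat (nat_lit 522620), .ofNat (nat_lit 368144), .ofNat (nat_lit 481125), .ofNat (nat_lit 412037), .ofNat (nat_lit 525018)⟩, ⟨.ofNat (nat_lit 10000), .ofNat (nat_lit 197467), .ofNat (nat_lit 10000), .ofNat (nat_lit 200000), .ofNat (nat_lit 10000), .ofNat (nat_lit 200000), .ofNat (nat_lit 10000), .ofNat (nat_lit 200000)⟩⟩, [⟨nat_lit 3, nat_lit 100, nat_lit 77, nat_lit 38, nat_lit 204319665⟩]⟩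
noncomputable def p088_l157 : Lf2 := ⟨nat_lit 0, nat_lit 25, [nat_lit 44, nat_lit 5, nat_lit 5, nat_lit 20], false, nat_lit 8, nat_lit 80, nat_lit 0, nat_lit 364, ⟨nat_lit 147, nat_lit 0, nat_lit 853, nat_lit 6, nat_lit 183, nat_lit 853, nat_lit 44, nat_lit 853, nat_lit 18150, nat_lit 248, nat_lit 16148, nat_lit 244, nat_lit 54039694, nat_lit 0, nat_lit 0, nat_lit 2872611, false, false⟩,
 nat_lit 2840, nat_lit 511, nat_lit 0, nat_lit 4772, nat_lit 2814, nat_lit 1503, nat_lit 0, nat_lit 0, nat_lit 0, nat_lit 93, nat_lit 0, nat_lit 0, nat_lit 0, nat_lit 0, nat_lit 79, nat_lit 341200, nat_lit 0, nat_lit 0, [(nat_lit 23, [(nat_lit 5, nat_lit 853)])],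
 ⟨p088_k21, nat_lit 0, nat_lit 0, nat_lit 185, nat_lit 0, nat_lit 55333, [nat_lit 1768691201, nat_lit 1264935600, nat_lit 42010400], [], [nat_lit 18577823797, nat_lit 19355994493, nat_lit 19399043096, nat_lit 19990058600, nat_lit 17961899452, nat_lit 18550610382, nat_lit 18799193842, nat_lit 19345119802], nat_lit 1271250, nat_lit 1271250, nat_lit 631250, nat_lit 1100001, nat_lit 43600, nat_lit 490000, [nat_lit 490000, nat_lit 1100000, nat_lit 1785000], [nat_lit 34, nat_lit 40, nat_lit 40, nat_lit 80, nat_lit 7, nat_lit 272, nat_lit 60, nat_lit 9]⟩, ⟨p088_k49, nat_lit 0, nat_lit 0, nat_lit 401, nat_lit 0, nat_lit 101118, [nat_lit 689136000, nat_lit 1171296000, nat_lit 2066526000], [], [nat_lit 9042365088, nat_lit 7415623098, nat_lit 6608605284, nat_lit 6169431852, nat_lit 5403736115, nat_lit 5430534040, nat_lit 6420901163, nat_lit 5095666684], nat_lit 1271250, nat_lit 1271250, nat_lit 631250, nat_lit 1100001, nat_lit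 0, nat_lit 2570750, [nat_lit 1100000, nat_lit 1785000, nat_lit 1271250], [nat_lit 37, nat_lit 40, nat_lit 40, nat_lit 80, nat_lit 28, nat_lit 456, nat_lit 225, nat_lit 11]⟩,
 ⟨nat_lit 3162, nat_lit 3536, ⟨.ofNat (nat_lit 386958), .ofNat (nat_lit 481116), .ofNat (nat_lit 430847), .ofNat (nat_lit 525005), .ofNat (nat_lit 391883), .ofNat (nat_lit 483329), .ofNat (nat_lit 436176), .ofNat (nat_lit 527622)⟩, ⟨.ofNat (nat_lit 20000), .ofNat (nat_lit 200000), .ofNat (nat_lit 20000), .ofNat (nat_lit 200000), .ofNat (nat_lit 20000), .ofNat (nat_lit 200000), .ofNat (nat_lit 20000), .ofNat (nat_lit 200000)⟩⟩, [⟨nat_lit 0, nat_lit 94, nat_lit 62, nat_lit 100, nat_lit 145660754⟩, ⟨nat_lit 3, nat_lit 100, nat_lit 71, nat_lit 46, nat_lit 183838116⟩, ⟨nat_lit 19, nat_lit 100, nat_lit 73, nat_lit 94, nat_lit 1959652⟩]⟩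
noncomputable def p088_l158 : Lf2 := ⟨nat_lit 1, nat_lit 30, [nat_lit 15, nat_lit 5, nat_lit 5, nat_lit 20], false, nat_lit 4, nat_lit 80, nat_lit 0, nat_lit 364, zbN0,
 nat_lit 0, nat_lit 0, nat_lit 0, nat_lit 0, nat_lit 0, nat_lit 0, nat_lit 0, nat_lit 0, nat_lit 0, nat_lit 0, nat_lit 0, nat_lit 0, nat_lit 0, nat_lit 0, nat_lit 0, nat_lit 0, nat_lit 0, nat_lit 0, [],
 C1.Rw.none, C1.Rw.none,
 zbF0, []⟩
noncomputable def p088_l159 : Lf2 := ⟨nat_lit 0, nat_lit 30, [nat_lit 15, nat_lit 5, nat_lit 5, nat_lit 20], true, nat_lit 80, nat_lit 160, nat_lit 0, nat_lit 364, ⟨nat_lit 0, nat_lit 0, nat_lit 1000, nat_lit 6, nat_lit 179, nat_lit 1000, nat_lit 103, nat_lit 1000, nat_lit 101400, nat_lit 293, nat_lit 15897, nat_lit 244, nat_lit 51082439, nat_lit 0, nat_lit 0, nat_lit 3686717, false, false⟩,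
 nat_lit 0, nat_lit 3982, nat_lit 0, nat_lit 354, nat_lit 3223, nat_lit 0, nat_lit 0, nat_lit 0, nat_lit 0, nat_lit 0, nat_lit 0, nat_lit 0, nat_lit 0, nat_lit 0, nat_lit 129, nat_lit 344350, nat_lit 0, nat_lit 0, [(nat_lit 23, [(nat_lit 4, nat_lit 371), (nat_lit 5, nat_lit 629)])],
 ⟨p088_k22, nat_lit 0, nat_lit 0, nat_lit 254, nat_lit 0, nat_lit 210758, [nat_lit 2206132800, nat_lit 484124800], [], [nat_lit 17052277981, nat_lit 18338343552, nat_lit 17825204072, nat_lit 18893639096, nat_lit 17870218432, nat_lit 18929377276, nat_lit 18567479164, nat_lit 19538076968], nat_lit 1271250, nat_lit 1271250, nat_lit 545600, nat_lit 1100001, nat_lit 490000, nat_lit 1100001, [nat_lit 490000, nat_lit 2052500], [nat_lit 94, nat_lit 40, nat_lit 40, nat_lit 80, nat_lit 95, nat_lit 317, nat_lit 100, nat_lit 9]⟩, C1.Rw.none,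
 ⟨nat_lit 3162, nat_lit 3873, ⟨.ofNat (nat_lit 362778), .ofNat (nat_lit 478975), .ofNat (nat_lit 406307), .ofNat (nat_lit 522504), .ofNat (nat_lit 373492), .ofNat (nat_lit 483267), .ofNat (nat_lit 417744), .ofNat (nat_lit 527519)⟩, ⟨.ofNat (nat_lit 175674), .ofNat (nat_lit 304717), .ofNat (nat_lit 200000), .ofNat (nat_lit 348304), .ofNat (nat_lit 184209), .ofNat (nat_lit 306116), .ofNat (nat_lit 200000), .ofNat (nat_lit 350426)⟩⟩, [⟨nat_lit 0, nat_lit 94, nat_lit 62, nat_lit 100, nat_lit 1190840⟩]⟩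
noncomputable def p088_l160 : Lf2 := ⟨nat_lit 0, nat_lit 30, [nat_lit 15, nat_lit 5, nat_lit 5, nat_lit 20], false, nat_lit 0, nat_lit 160, nat_lit 0, nat_lit 160, ⟨nat_lit 534, nat_lit 0, nat_lit 466, nat_lit 6, nat_lit 222, nat_lit 466, nat_lit 65, nat_lit 466, nat_lit 40017, nat_lit 264, nat_lit 7340, nat_lit 203, nat_lit 51228223, nat_lit 0, nat_lit 0, nat_lit 2728593, false, false⟩,
 nat_lit 6757, nat_lit 0, nat_lit 0, nat_lit 14483, nat_lit 3665, nat_lit 3577, nat_lit 182, nat_lit 0, nat_lit 0, nat_lit 465, nat_lit 0, nat_lit 0, nat_lit 0, nat_lit 0, nat_lit 1, nat_lit 466000, nat_lit 0, nat_lit 0, [(nat_lit 23, [(nat_lit 6, nat_lit 466)])],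
 ⟨p088_k23, nat_lit 0, nat_lit 0, nat_lit 211, nat_lit 0, nat_lit 82731, [nat_lit 1445756801, nat_lit 1263056001, nat_lit 27707200], [], [nat_lit 20433872520, nat_lit 21779003400, nat_lit 22679855010, nat_lit 24394790820, nat_lit 19161769772, nat_lit 20185296192, nat_lit 22419748272, nat_lit 22220034900], nat_lit 1271250, nat_lit 1271250, nat_lit 1100001, nat_lit 1785000, nat_lit 0, nat_lit 1100001, [nat_lit 490000, nat_lit 1100000, nat_lit 2127500], [nat_lit 27, nat_lit 40, nat_lit 40, nat_lit 80, nat_lit 13, nat_lit 317, nat_lit 100, nat_lit 9]⟩, ⟨p088_k24, nat_lit 0, nat_lit 0, nat_lit 455, nat_lit 0, nat_lit 145190, [nat_lit 2503392000, nat_lit 4254912000, nat_lit 8757600000], [], [nat_lit 21137566088, nat_lit 20013591867, nat_lit 20181891101, nat_lit 20457428301, nat_lit 17275838861, nat_lit 17510674639, nat_lit 19805420964, nat_lit 18119917102], nat_lit 1271250, nat_lit 1271250, nat_lit 1100001, nat_lit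 1785000, nat_lit 0, nat_lit 1100001, [nat_lit 1100000, nat_lit 1785000, nat_lit 1271250], [nat_lit 122, nat_lit 40, nat_lit 40, nat_lit 80, nat_lit 111, nat_lit 401, nat_lit 175, nat_lit 9]⟩,
 ⟨nat_lit 3162, nat_lit 3873, ⟨.ofNat (nat_lit 478975), .ofNat (nat_lit 608082), .ofNat (nat_lit 500739), .ofNat (nat_lit 629847), .ofNat (nat_lit 483267), .ofNat (nat_lit 605237), .ofNat (nat_lit 505392), .ofNat (nat_lit 627364)⟩, ⟨.ofNat (nat_lit 0), .ofNat (nat_lit 304717), .ofNat (nat_lit 0), .ofNat (nat_lit 348304), .ofNat (nat_lit 0), .ofNat (nat_lit 306116), .ofNat (nat_lit 0), .ofNat (nat_lit 350426)⟩⟩, []⟩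
noncomputable def p088_l161 : Lf2 := ⟨nat_lit 0, nat_lit 30, [nat_lit 15, nat_lit 5, nat_lit 5, nat_lit 20], false, nat_lit 0, nat_lit 160, nat_lit 0, nat_lit 160, ⟨nat_lit 1000, nat_lit 0, nat_lit 0, nat_lit 0, nat_lit 0, nat_lit 0, nat_lit 0, nat_lit 0, nat_lit 0, nat_lit 0, nat_lit 0, nat_lit 0, nat_lit 0, nat_lit 0, nat_lit 0, nat_lit 0, false, false⟩,
 nat_lit 14673, nat_lit 0, nat_lit 0, nat_lit 0, nat_lit 6239, nat_lit 8540, nat_lit 755, nat_lit 0, nat_lit 0, nat_lit 417, nat_lit 0, nat_lit 0, nat_lit 0, nat_lit 0, nat_lit 0, nat_lit 0, nat_lit 0, nat_lit 0, [],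
 ⟨p088_k23, nat_lit 0, nat_lit 0, nat_lit 285, nat_lit 0, nat_lit 135846, [nat_lit 2032000001, nat_lit 4688000000, nat_lit 9842000000], [], [nat_lit 24869397737, nat_lit 26665557235, nat_lit 27115871166, nat_lit 29466363612, nat_lit 20463739149, nat_lit 21978628139, nat_lit 22989906133, nat_lit 23702298540], nat_lit 1271250, nat_lit 1271250, nat_lit 1100001, nat_lit 1785000, nat_lit 0, nat_lit 1100001, [nat_lit 490000, nat_lit 1100000, nat_lit 2127500], [nat_lit 27, nat_lit 40, nat_lit 40, nat_lit 80, nat_lit 13, nat_lit 317, nat_lit 100, nat_lit 9]⟩, ⟨p088_k33, nat_lit 0, nat_lit 0, nat_lit 413, nat_lit 0, nat_lit 209428, [nat_lit 4688000000, nat_lit 7968000000, nat_lit 14058000000], [], [nat_lit 37874183080, nat_lit 38062324640, nat_lit 38322091120, nat_lit 38994469040, nat_lit 30760941200, nat_lit 31449463520, nat_lit 31878455160, nat_lit 32145388000], nat_lit 1271250, nat_lit 1271250, nat_lit 1100001, nat_lit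 1785000, nat_lit 0, nat_lit 1100001, [nat_lit 1100000, nat_lit 1785000, nat_lit 1271250], [nat_lit 37, nat_lit 40, nat_lit 40, nat_lit 80, nat_lit 28, nat_lit 401, nat_lit 175, nat_lit 9]⟩,
 zbF0, []⟩
noncomputable def p088_l162 : Lf2 := ⟨nat_lit 0, nat_lit 26, [nat_lit 108, nat_lit 5, nat_lit 5, nat_lit 20], false, nat_lit 0, nat_lit 160, nat_lit 160, nat_lit 364, ⟨nat_lit 200, nat_lit 0, nat_lit 800, nat_lit 6, nat_lit 209, nat_lit 800, nat_lit 65, nat_lit 800, nat_lit 40017, nat_lit 264, nat_lit 3101, nat_lit 225, nat_lit 52589055, nat_lit 0, nat_lit 0, nat_lit 2603105, false, false⟩,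
 nat_lit 3380, nat_lit 125, nat_lit 0, nat_lit 6787, nat_lit 2837, nat_lit 1789, nat_lit 0, nat_lit 0, nat_lit 0, nat_lit 0, nat_lit 0, nat_lit 0, nat_lit 0, nat_lit 0, nat_lit 115, nat_lit 485000, nat_lit 0, nat_lit 0, [(nat_lit 23, [(nat_lit 5, nat_lit 525), (nat_lit 6, nat_lit 275)])],
 ⟨p088_k34, nat_lit 0, nat_lit 0, nat_lit 209, nat_lit 0, nat_lit 78609, [nat_lit 2050280001, nat_lit 1477390001, nat_lit 80600000], [], [nat_lit 19128021336, nat_lit 20208817320, nat_lit 19993748026, nat_lit 21292910112, nat_lit 19252111318, nat_lit 20176486394, nat_lit 20025006566, nat_lit 21050748155], nat_lit 1271250, nat_lit 1271250, nat_lit 1100001, nat_lit 1442500, nat_lit 0, nat_lit 1100001, [nat_lit 490000, nat_lit 1100000, nat_lit 2127500], [nat_lit 27, nat_lit 40, nat_lit 40, nat_lit 80, nat_lit 13, nat_lit 317, nat_lit 100, nat_lit 9]⟩, ⟨p088_k35, nat_lit 0, nat_lit 0, nat_lit 210, nat_lit 0, nat_lit 137311, [nat_lit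 937600000, nat_lit 1593600000, nat_lit 2811600000], [], [nat_lit 7663752160, nat_lit 6717839878, nat_lit 6472025332, nat_lit 6663267026, nat_lit 8059636679, nat_lit 8155602272, nat_lit 8018566460, nat_lit 8103619440], nat_lit 1271250, nat_lit 1271250, nat_lit 1100001, nat_lit 1442500, nat_lit 1271250, nat_lit 1271250, [nat_lit 1100000, nat_lit 1785000, nat_lit 1271250], [nat_lit 37, nat_lit 40, nat_lit 40, nat_lit 80, nat_lit 28, nat_lit 456, nat_lit 225, nat_lit 10]⟩,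
 ⟨nat_lit 3162, nat_lit 3873, ⟨.ofNat (nat_lit 478975), .ofNat (nat_lit 543529), .ofNat (nat_lit 500739), .ofNat (nat_lit 565293), .ofNat (nat_lit 483267), .ofNat (nat_lit 544252), .ofNat (nat_lit 505392), .ofNat (nat_lit 566378)⟩, ⟨.ofNat (nat_lit 0), .ofNat (nat_lit 304717), .ofNat (nat_lit 0), .ofNat (nat_lit 348304), .ofNat (nat_lit 0), .ofNat (nat_lit 306116), .ofNat (nat_lit 0), .ofNat (nat_lit 350426)⟩⟩, [⟨nat_lit 19, nat_lit 100, nat_lit 72, nat_lit 89, nat_lit 70701542⟩, ⟨nat_lit 22, nat_lit 100, nat_lit 96, nat_lit 21, nat_lit 6781525⟩, ⟨nat_lit 10, nat_lit 58, nat_lit 100, nat_lit 76, nat_lit 23794219⟩]⟩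
noncomputable def p088_l163 : Lf2 := ⟨nat_lit 0, nat_lit 26, [nat_lit 108, nat_lit 5, nat_lit 5, nat_lit 20], false, nat_lit 0, nat_lit 160, nat_lit 160, nat_lit 364, ⟨nat_lit 422, nat_lit 0, nat_lit 578, nat_lit 6, nat_lit 234, nat_lit 578, nat_lit 65, nat_lit 578, nat_lit 40017, nat_lit 264, nat_lit 7340, nat_lit 203, nat_lit 49862824, nat_lit 0, nat_lit 0, nat_lit 2842974, true, false⟩,
 nat_lit 11179, nat_lit 0, nat_lit 0, nat_lit 0, nat_lit 3240, nat_lit 5918, nat_lit 0, nat_lit 0, nat_lit 0, nat_lit 15, nat_lit 0, nat_lit 0, nat_lit 0, nat_lit 0, nat_lit 85, nat_lit 578000, nat_lit 0, nat_lit 0, [(nat_lit 23, [(nat_lit 6, nat_lit 578)])],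
 ⟨p088_k34, nat_lit 0, nat_lit 0, nat_lit 206, nat_lit 0, nat_lit 78609, [nat_lit 1974934401, nat_lit 1780048001, nat_lit 14177600], [], [nat_lit 20866030960, nat_lit 22055945600, nat_lit 22026989760, nat_lit 23557409920, nat_lit 20293671682, nat_lit 21210838562, nat_lit 21254842722, nat_lit 22113690082], nat_lit 1271250, nat_lit 1271250, nat_lit 1271250, nat_lit 1271250, nat_lit 0, nat_lit 1100001, [nat_lit 490000, nat_lit 1100000, nat_lit 2127500], [nat_lit 27, nat_lit 40, nat_lit 40, nat_lit 80, nat_lit 13, nat_lit 317, nat_lit 100, nat_lit 9]⟩, ⟨p088_k35, nat_lit 0, nat_lit 0, nat_lit 199, nat_lit 0, nat_lit 137311, [nat_lit 1978336000, nat_lit 3362496000, nat_lit 5932476000], [], [nat_lit 13178283216, nat_lit 12655975944, nat_lit 12703815060, nat_lit 13143390316, nat_lit 16046193096, nat_lit 16219829211, nat_lit 16039501858, nat_lit 16174336386], nat_lit 1271250, nat_lit 1271250, nat_lit 1271250, nat_lit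 1271250, nat_lit 1271250, nat_lit 1271250, [nat_lit 1100000, nat_lit 1785000, nat_lit 1271250], [nat_lit 37, nat_lit 40, nat_lit 40, nat_lit 80, nat_lit 28, nat_lit 456, nat_lit 225, nat_lit 10]⟩,
 ⟨nat_lit 3162, nat_lit 3873, ⟨.ofNat (nat_lit 543529), .ofNat (nat_lit 608082), .ofNat (nat_lit 565293), .ofNat (nat_lit 629847), .ofNat (nat_lit 544252), .ofNat (nat_lit 605237), .ofNat (nat_lit 566378), .ofNat (nat_lit 627364)⟩, ⟨.ofNat (nat_lit 0), .ofNat (nat_lit 304717), .ofNat (nat_lit 0), .ofNat (nat_lit 348304), .ofNat (nat_lit 0), .ofNat (nat_lit 306116), .ofNat (nat_lit 0), .ofNat (nat_lit 350426)⟩⟩, [⟨nat_lit 19, nat_lit 100, nat_lit 72, nat_lit 89, nat_lit 200137119⟩]⟩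
noncomputable def p088_l164 : Lf2 := ⟨nat_lit 1, nat_lit 30, [nat_lit 15, nat_lit 5, nat_lit 5, nat_lit 20], false, nat_lit 0, nat_lit 160, nat_lit 160, nat_lit 364, zbN0,
 nat_lit 0, nat_lit 0, nat_lit 0, nat_lit 0, nat_lit 0, nat_lit 0, nat_lit 0, nat_lit 0, nat_lit 0, nat_lit 0, nat_lit 0, nat_lit 0, nat_lit 0, nat_lit 0, nat_lit 0, nat_lit 0, nat_lit 0, nat_lit 0, [],
 C1.Rw.none, C1.Rw.none,
 zbF0, []⟩
noncomputable def p088_l165 : Lf2 := ⟨nat_lit 0, nat_lit 30, [nat_lit 15, nat_lit 5, nat_lit 5, nat_lit 20], false, nat_lit 0, nat_lit 160, nat_lit 160, nat_lit 240, ⟨nat_lit 1000, nat_lit 0, nat_lit 0, nat_lit 0, nat_lit 0, nat_lit 0, nat_lit 0, nat_lit 0, nat_lit 0, nat_lit 0, nat_lit 0, nat_lit 0, nat_lit 0, nat_lit 0, nat_lit 0, nat_lit 0, false, false⟩,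
 nat_lit 13351, nat_lit 0, nat_lit 0, nat_lit 0, nat_lit 6381, nat_lit 7771, nat_lit 704, nat_lit 0, nat_lit 0, nat_lit 317, nat_lit 0, nat_lit 0, nat_lit 0, nat_lit 0, nat_lit 0, nat_lit 0, nat_lit 0, nat_lit 0, [],
 ⟨p088_k29, nat_lit 0, nat_lit 0, nat_lit 286, nat_lit 0, nat_lit 135846, [nat_lit 2032000001, nat_lit 6250000000, nat_lit 9842000000], [], [nat_lit 25112899098, nat_lit 26934076440, nat_lit 27360593114, nat_lit 29746147348, nat_lit 20934622872, nat_lit 22244917084, nat_lit 22597820688, nat_lit 23823271920], nat_lit 1271250, nat_lit 1271250, nat_lit 1100001, nat_lit 1785000, nat_lit 0, nat_lit 1100001, [nat_lit 490000, nat_lit 1427500, nat_lit 1271250], [nat_lit 61, nat_lit 40, nat_lit 40, nat_lit 80, nat_lit 1, nat_lit 317, nat_lit 100, nat_lit 9]⟩, ⟨p088_k31, nat_lit 0, nat_lit 0, nat_lit 226, nat_lit 0, nat_lit 209428, [nat_lit 4688000000, nat_lit 9842000000, nat_lit 14058000000], [], [nat_lit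 32420949642, nat_lit 30242039996, nat_lit 30889423438, nat_lit 31696357236, nat_lit 31401449670, nat_lit 31696357236, nat_lit 32048625188, nat_lit 32704278896], nat_lit 1271250, nat_lit 1271250, nat_lit 1271250, nat_lit 1271250, nat_lit 1100001, nat_lit 1785000, [nat_lit 1100000, nat_lit 2127500, nat_lit 1271250], [nat_lit 56, nat_lit 40, nat_lit 40, nat_lit 80, nat_lit 32, nat_lit 428, nat_lit 200, nat_lit 9]⟩,
 zbF0, []⟩
noncomputable def p088_l166 : Lf2 := ⟨nat_lit 0, nat_lit 30, [nat_lit 15, nat_lit 5, nat_lit 5, nat_lit 20], false, nat_lit 0, nat_lit 160, nat_lit 240, nat_lit 352, ⟨nat_lit 1000, nat_lit 0, nat_lit 0, nat_lit 0, nat_lit 0, nat_lit 0, nat_lit 0, nat_lit 0, nat_lit 0, nat_lit 0, nat_lit 0, nat_lit 0, nat_lit 0, nat_lit 0, nat_lit 0, nat_lit 0, false, false⟩,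
 nat_lit 19736, nat_lit 0, nat_lit 0, nat_lit 7788, nat_lit 6522, nat_lit 11488, nat_lit 732, nat_lit 0, nat_lit 0, nat_lit 848, nat_lit 0, nat_lit 0, nat_lit 0, nat_lit 0, nat_lit 0, nat_lit 0, nat_lit 0, nat_lit 0, [],
 ⟨p088_k29, nat_lit 0, nat_lit 0, nat_lit 217, nat_lit 0, nat_lit 78163, [nat_lit 2032000001, nat_lit 6250000000, nat_lit 9842000000], [], [nat_lit 24839489776, nat_lit 25762499278, nat_lit 27603591668, nat_lit 28813776222, nat_lit 20351641332, nat_lit 21074888070, nat_lit 22131253856, nat_lit 22842529880], nat_lit 1271250, nat_lit 1271250, nat_lit 1100001, nat_lit 1785000, nat_lit 0, nat_lit 1100001, [nat_lit 490000, nat_lit 1427500, nat_lit 1271250], [nat_lit 61, nat_lit 40, nat_lit 40, nat_lit 80, nat_lit 1, nat_lit 317, nat_lit 100, nat_lit 9]⟩, ⟨p088_k31, nat_lit 0, nat_lit 0, nat_lit 203, nat_lit 0, nat_lit 120501, [nat_lit 4688000000, nat_lit 9842000000, nat_lit 14058000000], [], [nat_lit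 21747008464, nat_lit 22693471008, nat_lit 22598628464, nat_lit 23335119488, nat_lit 28129191037, nat_lit 28667744391, nat_lit 29180467194, nat_lit 30375480410], nat_lit 1271250, nat_lit 1271250, nat_lit 1100001, nat_lit 1785000, nat_lit 1271250, nat_lit 1271250, [nat_lit 1100000, nat_lit 2127500, nat_lit 1271250], [nat_lit 56, nat_lit 40, nat_lit 40, nat_lit 80, nat_lit 32, nat_lit 456, nat_lit 225, nat_lit 10]⟩,
 zbF0, [⟨nat_lit 7, nat_lit 82, nat_lit 100, nat_lit 92, nat_lit 563279814⟩]⟩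
noncomputable def p088_l167 : Lf2 := ⟨nat_lit 0, nat_lit 30, [nat_lit 15, nat_lit 5, nat_lit 5, nat_lit 20], false, nat_lit 4, nat_lit 160, nat_lit 240, nat_lit 352, ⟨nat_lit 707, nat_lit 0, nat_lit 293, nat_lit 6, nat_lit 231, nat_lit 293, nat_lit 68, nat_lit 293, nat_lit 43350, nat_lit 266, nat_lit 29848, nat_lit 200, nat_lit 48054466, nat_lit 0, nat_lit 0, nat_lit 3687176, false, false⟩,
 nat_lit 13945, nat_lit 0, nat_lit 0, nat_lit 3950, nat_lit 4278, nat_lit 8117, nat_lit 582, nat_lit 0, nat_lit 0, nat_lit 599, nat_lit 0, nat_lit 0, nat_lit 0, nat_lit 0, nat_lit 0, nat_lit 73250, nat_lit 0, nat_lit 0, [(nat_lit 23, [(nat_lit 4, nat_lit 293)])],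
 ⟨p088_k50, nat_lit 0, nat_lit 0, nat_lit 281, nat_lit 0, nat_lit 129630, [nat_lit 1875889600, nat_lit 4026716000, nat_lit 6386240800], [], [nat_lit 21844056573, nat_lit 22776704140, nat_lit 24509843616, nat_lit 25440672611, nat_lit 19824182040, nat_lit 20366321208, nat_lit 21776540120, nat_lit 22573037080], nat_lit 1271250, nat_lit 1271250, nat_lit 1100001, nat_lit 1785000, nat_lit 21650, nat_lit 1100001, [nat_lit 490000, nat_lit 1427500, nat_lit 1271250], [nat_lit 61, nat_lit 40, nat_lit 40, nat_lit 80, nat_lit 1, nat_lit 317, nat_lit 100, nat_lit 9]⟩, ⟨p088_k31, nat_lit 0, nat_lit 0, nat_lit 239, nat_lit 0, nat_lit 209428, [nat_lit 3314416000, nat_lit 6958294000, nat_lit 9939006000], [], [nat_lit 15385086648, nat_lit 16054047376, nat_lit 15987597062, nat_lit 16508187128, nat_lit 19895778228, nat_lit 20271884117, nat_lit 20627664889, nat_lit 21472262941], nat_lit 1271250, nat_lit 1271250, nat_lit 1100001, nat_lit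 1785000, nat_lit 1271250, nat_lit 1271250, [nat_lit 1100000, nat_lit 2127500, nat_lit 1271250], [nat_lit 56, nat_lit 40, nat_lit 40, nat_lit 80, nat_lit 32, nat_lit 456, nat_lit 225, nat_lit 10]⟩,
 ⟨nat_lit 3162, nat_lit 3536, ⟨.ofNat (nat_lit 503061), .ofNat (nat_lit 628604), .ofNat (nat_lit 525005), .ofNat (nat_lit 650549), .ofNat (nat_lit 505476), .ofNat (nat_lit 627403), .ofNat (nat_lit 527622), .ofNat (nat_lit 649550)⟩, ⟨.ofNat (nat_lit 10000), .ofNat (nat_lit 305521), .ofNat (nat_lit 10000), .ofNat (nat_lit 349427), .ofNat (nat_lit 10000), .ofNat (nat_lit 306116), .ofNat (nat_lit 10000), .ofNat (nat_lit 350426)⟩⟩, [⟨nat_lit 7, nat_lit 82, nat_lit 100, nat_lit 92, nat_lit 398014318⟩]⟩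
noncomputable def b_V_800_600_20_52 : St := ⟨true, nat_lit 1, nat_lit 1, nat_lit 1, nat_lit 120, nat_lit 320, nat_lit 360, nat_lit 240, nat_lit 280, nat_lit 64, nat_lit 240, nat_lit 80, nat_lit 120, nat_lit 0, nat_lit 160, nat_lit 0, nat_lit 364, nat_lit 80, nat_lit 120, nat_lit 0, nat_lit 0, nat_lit 0, nat_lit 0⟩
theorem d_V_800_600_20_52 (h : EB TB.env) : Dead b_V_800_600_20_52 := chkB_sound0 h (T :=
(.spl (nat_lit 0) (nat_lit 340)
(.spl (nat_lit 6) (nat_lit 88)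
(.spl (nat_lit 2) (nat_lit 160)
(.spl (nat_lit 0) (nat_lit 330)
(.leaf p088_l146)
(.trZ (nat_lit 0) (nat_lit 100) (nat_lit 78) (nat_lit 81) (nat_lit 76) (.leaf p088_l147)))
(.spl (nat_lit 5) (nat_lit 160)
(.leaf p088_l148)
(.leaf p088_l149)))
(.leaf p088_l150))
(.trZ (nat_lit 0) (nat_lit 100) (nat_lit 73) (nat_lit 85) (nat_lit 88) (.spl (nat_lit 2) (nat_lit 160)
(.spl (nat_lit 4) (nat_lit 80)
(.spl (nat_lit 3) (nat_lit 100)
(.trX (nat_lit 19) (nat_lit 100) (nat_lit 68) (nat_lit 88) (nat_lit 352) (.spl (nat_lit 6) (nat_lit 108)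
(.spl (nat_lit 0) (nat_lit 350)
(.spl (nat_lit 6) (nat_lit 100)
(.spl (nat_lit 1) (nat_lit 260)
(.leaf p088_l151)
(.trZ (nat_lit 0) (nat_lit 100) (nat_lit 75) (nat_lit 92) (nat_lit 104) (.trX (nat_lit 19) (nat_lit 100) (nat_lit 77) (nat_lit 91) (nat_lit 336) (.leaf p088_l152))))
(.leaf p088_l153))
(.trZ (nat_lit 0) (nat_lit 100) (nat_lit 68) (nat_lit 89) (nat_lit 100) (.trZ (nat_lit 3) (nat_lit 100) (nat_lit 83) (nat_lit 25) (nat_lit 4) (.leaf p088_l154))))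
(.leaf p088_l155)))
(.trZ (nat_lit 3) (nat_lit 100) (nat_lit 82) (nat_lit 29) (nat_lit 4) (.spl (nat_lit 6) (nat_lit 100)
(.spl (nat_lit 0) (nat_lit 350)
(.leaf p088_l156)
(.trZ (nat_lit 0) (nat_lit 100) (nat_lit 68) (nat_lit 89) (nat_lit 100) (.trZ (nat_lit 3) (nat_lit 100) (nat_lit 76) (nat_lit 37) (nat_lit 8) (.leaf p088_l157))))
(.leaf p088_l158))))
(.leaf p088_l159))
(.spl (nat_lit 5) (nat_lit 160)
(.spl (nat_lit 1) (nat_lit 260)
(.leaf p088_l160)
(.leaf p088_l161))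
(.spl (nat_lit 1) (nat_lit 260)
(.spl (nat_lit 6) (nat_lit 104)
(.spl (nat_lit 2) (nat_lit 200)
(.leaf p088_l162)
(.leaf p088_l163))
(.leaf p088_l164))
(.trX (nat_lit 19) (nat_lit 100) (nat_lit 69) (nat_lit 96) (nat_lit 352) (.spl (nat_lit 5) (nat_lit 240)
(.leaf p088_l165)
(.spl (nat_lit 0) (nat_lit 350)
(.leaf p088_l166)
(.trZ (nat_lit 3) (nat_lit 100) (nat_lit 83) (nat_lit 25) (nat_lit 4) (.leaf p088_l167))))))))))) (by decide +kernel)

end B2
end Pool.Agent.Lib.MP_6947cd_al
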