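import Pool.Agent.Lib.MP_6947cd_al.ZB.Pre

/-!
Problem MP_6947cd_al (Chollet).  Case B, second entry in [2/5, 17/20]: certificates of the tree, part P089 (generated).
-/

set_option autoImplicit false
set_option linter.all false

namespace Pool.Agent.Lib.MP_6947cd_al
namespace B2

open Ent Fr B1 PkA

noncomputable def p089_k0 : C1.Kn := ⟨[nat_lit 40, nat_lit 80, nat_lit 140], [nat_lit 0, nat_lit 395, nat_lit 3500], [(nat_lit 0, nat_lit 0, nat_lit 0), (nat_lit 1000, nat_lit 908, nat_lit 154), (nat_lit 1000, nat_lit 776, nat_lit 808)], (nat_lit 79, nat_lit 100, nat_lit 86)⟩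
noncomputable def p089_k1 : C1.Kn := ⟨[nat_lit 40, nat_lit 140], [nat_lit 0, nat_lit 0], [(nat_lit 0, nat_lit 0, nat_lit 0), (nat_lit 0, nat_lit 0, nat_lit 0)], (nat_lit 85, nat_lit 100, nat_lit 88)⟩
noncomputable def p089_k2 : C1.Kn := ⟨[nat_lit 40, nat_lit 140], [nat_lit 0, nat_lit 1985], [(nat_lit 0, nat_lit 0, nat_lit 0), (nat_lit 1000, nat_lit 814, nat_lit 310)], (nat_lit 77, nat_lit 100, nat_lit 99)⟩
noncomputable def p089_k3 : C1.Kn := ⟨[nat_lit 40, nat_lit 80, nat_lit 140], [nat_lit 0, nat_lit 795, nat_lit 3803], [(nat_lit 0, nat_lit 0, nat_lit 0), (nat_lit 1000, nat_lit 814, nat_lit 310), (nat_lit 1000, nat_lit 719, nat_lit 783)], (nat_lit 74, nat_lit 100, nat_lit 90)⟩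
noncomputable def p089_k4 : C1.Kn := ⟨[nat_lit 80, nat_lit 120, nat_lit 180], [nat_lit 0, nat_lit 0, nat_lit 3196], [(nat_lit 0, nat_lit 0, nat_lit 0), (nat_lit 0, nat_lit 0, nat_lit 0), (nat_lit 858, nat_lit 1000, nat_lit 713)], (nat_lit 100, nat_lit 68, nat_lit 88)⟩
noncomputable def p089_k5 : C1.Kn := ⟨[nat_lit 40, nat_lit 80, nat_lit 120], [nat_lit 0, nat_lit 1195, nat_lit 3135], [(nat_lit 0, nat_lit 0, nat_lit 0), (nat_lit 1000, nat_lit 720, nat_lit 465), (nat_lit 1000, nat_lit 661, nat_lit 757)], (nat_lit 67, nat_lit 100, nat_lit 88)⟩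
noncomputable def p089_k6 : C1.Kn := ⟨[nat_lit 40, nat_lit 80, nat_lit 140], [nat_lit 0, nat_lit 795, nat_lit 3803], [(nat_lit 0, nat_lit 0, nat_lit 0), (nat_lit 1000, nat_lit 814, nat_lit 310), (nat_lit 1000, nat_lit 719, nat_lit 783)], (nat_lit 77, nat_lit 100, nat_lit 99)⟩
noncomputable def p089_k7 : C1.Kn := ⟨[nat_lit 80, nat_lit 120, nat_lit 200], [nat_lit 0, nat_lit 0, nat_lit 4259], [(nat_lit 0, nat_lit 0, nat_lit 0), (nat_lit 0, nat_lit 0, nat_lit 0), (nat_lit 858, nat_lit 1000, nat_lit 713)], (nat_lit 0, nat_lit 0, nat_lit 0)⟩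
noncomputable def p089_k8 : C1.Kn := ⟨[nat_lit 40, nat_lit 80, nat_lit 160], [nat_lit 0, nat_lit 0, nat_lit 4265], [(nat_lit 0, nat_lit 0, nat_lit 0), (nat_lit 0, nat_lit 0, nat_lit 0), (nat_lit 1000, nat_lit 833, nat_lit 833)], (nat_lit 87, nat_lit 95, nat_lit 100)⟩
noncomputable def p089_k9 : C1.Kn := ⟨[nat_lit 40, nat_lit 100, nat_lit 140], [nat_lit 0, nat_lit 1192, nat_lit 4003], [(nat_lit 0, nat_lit 0, nat_lit 0), (nat_lit 1000, nat_lit 814, nat_lit 310), (nat_lit 992, nat_lit 771, nat_lit 1000)], (nat_lit 77, nat_lit 100, nat_lit 99)⟩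
noncomputable def p089_k10 : C1.Kn := ⟨[nat_lit 80, nat_lit 140, nat_lit 200], [nat_lit 0, nat_lit 0, nat_lit 5481], [(nat_lit 0, nat_lit 0, nat_lit 0), (nat_lit 0, nat_lit 0, nat_lit 0), (nat_lit 637, nat_lit 1000, nat_lit 908)], (nat_lit 0, nat_lit 0, nat_lit 0)⟩
noncomputable def p089_k11 : C1.Kn := ⟨[nat_lit 40, nat_lit 100, nat_lit 140], [nat_lit 0, nat_lit 1790, nat_lit 4440], [(nat_lit 0, nat_lit 0, nat_lit 0), (nat_lit 1000, nat_lit 720, nat_lit 465), (nat_lit 969, nat_lit 697, nat_lit 1000)], (nat_lit 69, nat_lit 100, nat_lit 96)⟩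
noncomputable def p089_k12 : C1.Kn := ⟨[nat_lit 40, nat_lit 100, nat_lit 160], [nat_lit 0, nat_lit 0, nat_lit 4607], [(nat_lit 0, nat_lit 0, nat_lit 0), (nat_lit 0, nat_lit 0, nat_lit 0), (nat_lit 846, nat_lit 837, nat_lit 1000)], (nat_lit 87, nat_lit 95, nat_lit 100)⟩
noncomputable def p089_k13 : C1.Kn := ⟨[nat_lit 40, nat_lit 100, nat_lit 140], [nat_lit 0, nat_lit 1192, nat_lit 4003], [(nat_lit 0, nat_lit 0, nat_lit 0), (nat_lit 1000, nat_lit 814, nat_lit 310), (nat_lit 992, nat_lit 771, nat_lit 1000)], (nat_lit 75, nat_lit 100, nat_lit 92)⟩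
noncomputable def p089_k14 : C1.Kn := ⟨[nat_lit 80, nat_lit 140, nat_lit 180], [nat_lit 0, nat_lit 0, nat_lit 3656], [(nat_lit 0, nat_lit 0, nat_lit 0), (nat_lit 0, nat_lit 0, nat_lit 0), (nat_lit 637, nat_lit 1000, nat_lit 908)], (nat_lit 100, nat_lit 66, nat_lit 90)⟩
noncomputable def p089_k15 : C1.Kn := ⟨[nat_lit 40, nat_lit 100, nat_lit 140], [nat_lit 0, nat_lit 1790, nat_lit 4440], [(nat_lit 0, nat_lit 0, nat_lit 0), (nat_lit 1000, nat_lit 720, nat_lit 465), (nat_lit 969, nat_lit 697, nat_lit 1000)], (nat_lit 68, nat_lit 100, nat_lit 90)⟩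
noncomputable def p089_k16 : C1.Kn := ⟨[nat_lit 80, nat_lit 140, nat_lit 180], [nat_lit 0, nat_lit 792, nat_lit 4228], [(nat_lit 0, nat_lit 0, nat_lit 0), (nat_lit 1000, nat_lit 959, nat_lit 206), (nat_lit 709, nat_lit 1000, nat_lit 949)], (nat_lit 100, nat_lit 69, nat_lit 96)⟩
noncomputable def p089_k17 : C1.Kn := ⟨[nat_lit 40, nat_lit 160], [nat_lit 0, nat_lit 0], [(nat_lit 0, nat_lit 0, nat_lit 0), (nat_lit 0, nat_lit 0, nat_lit 0)], (nat_lit 87, nat_lit 95, nat_lit 100)⟩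
noncomputable def p089_k18 : C1.Kn := ⟨[nat_lit 40, nat_lit 100, nat_lit 140], [nat_lit 0, nat_lit 0, nat_lit 3243], [(nat_lit 0, nat_lit 0, nat_lit 0), (nat_lit 0, nat_lit 0, nat_lit 0), (nat_lit 1000, nat_lit 870, nat_lit 941)], (nat_lit 85, nat_lit 100, nat_lit 88)⟩
noncomputable def p089_k19 : C1.Kn := ⟨[nat_lit 80, nat_lit 140, nat_lit 180], [nat_lit 0, nat_lit 0, nat_lit 3656], [(nat_lit 0, nat_lit 0, nat_lit 0), (nat_lit 0, nat_lit 0, nat_lit 0), (nat_lit 637, nat_lit 1000, nat_lit 908)], (nat_lit 100, nat_lit 73, nat_lit 85)⟩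
noncomputable def p089_k20 : C1.Kn := ⟨[nat_lit 40, nat_lit 80, nat_lit 100], [nat_lit 0, nat_lit 0, nat_lit 1280], [(nat_lit 0, nat_lit 0, nat_lit 0), (nat_lit 0, nat_lit 0, nat_lit 0), (nat_lit 1000, nat_lit 800, nat_lit 600)], (nat_lit 80, nat_lit 100, nat_lit 60)⟩
noncomputable def p089_k21 : C1.Kn := ⟨[nat_lit 60, nat_lit 100, nat_lit 140], [nat_lit 0, nat_lit 0, nat_lit 2047], [(nat_lit 0, nat_lit 0, nat_lit 0), (nat_lit 0, nat_lit 0, nat_lit 0), (nat_lit 1000, nat_lit 993, nat_lit 781)], (nat_lit 94, nat_lit 100, nat_lit 62)⟩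
noncomputable def p089_k22 : C1.Kn := ⟨[nat_lit 40, nat_lit 100], [nat_lit 0, nat_lit 1192], [(nat_lit 0, nat_lit 0, nat_lit 0), (nat_lit 1000, nat_lit 814, nat_lit 310)], (nat_lit 72, nat_lit 100, nat_lit 61)⟩
noncomputable def p089_k23 : C1.Kn := ⟨[nat_lit 60, nat_lit 100, nat_lit 120], [nat_lit 0, nat_lit 609, nat_lit 1609], [(nat_lit 0, nat_lit 0, nat_lit 0), (nat_lit 1000, nat_lit 905, nat_lit 238), (nat_lit 1000, nat_lit 882, nat_lit 668)], (nat_lit 87, nat_lit 100, nat_lit 60)⟩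
noncomputable def p089_k24 : C1.Kn := ⟨[nat_lit 40, nat_lit 80, nat_lit 100], [nat_lit 0, nat_lit 795, nat_lit 1829], [(nat_lit 0, nat_lit 0, nat_lit 0), (nat_lit 1000, nat_lit 814, nat_lit 310), (nat_lit 1000, nat_lit 714, nat_lit 692)], (nat_lit 72, nat_lit 100, nat_lit 61)⟩
noncomputable def p089_k25 : C1.Kn := ⟨[nat_lit 40, nat_lit 80], [nat_lit 0, nat_lit 1195], [(nat_lit 0, nat_lit 0, nat_lit 0), (nat_lit 1000, nat_lit 720, nat_lit 465)], (nat_lit 68, nat_lit 100, nat_lit 61)⟩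
noncomputable def p089_k26 : C1.Kn := ⟨[nat_lit 60, nat_lit 100, nat_lit 140], [nat_lit 0, nat_lit 151, nat_lit 2175], [(nat_lit 0, nat_lit 0, nat_lit 0), (nat_lit 1000, nat_lit 977, nat_lit 59), (nat_lit 1000, nat_lit 974, nat_lit 785)], (nat_lit 92, nat_lit 100, nat_lit 61)⟩
noncomputable def p089_k27 : C1.Kn := ⟨[nat_lit 40, nat_lit 80, nat_lit 100], [nat_lit 0, nat_lit 395, nat_lit 1536], [(nat_lit 0, nat_lit 0, nat_lit 0), (nat_lit 1000, nat_lit 908, nat_lit 154), (nat_lit 1000, nat_lit 760, nat_lit 642)], (nat_lit 76, nat_lit 100, nat_lit 60)⟩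
noncomputable def p089_k28 : C1.Kn := ⟨[nat_lit 60, nat_lit 100, nat_lit 120], [nat_lit 0, nat_lit 302, nat_lit 1376], [(nat_lit 0, nat_lit 0, nat_lit 0), (nat_lit 1000, nat_lit 953, nat_lit 118), (nat_lit 1000, nat_lit 911, nat_lit 628)], (nat_lit 91, nat_lit 100, nat_lit 61)⟩
noncomputable def p089_k29 : C1.Kn := ⟨[nat_lit 40, nat_lit 80], [nat_lit 0, nat_lit 1399], [(nat_lit 0, nat_lit 0, nat_lit 0), (nat_lit 1000, nat_lit 672, nat_lit 546)], (nat_lit 65, nat_lit 100, nat_lit 62)⟩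
noncomputable def p089_k30 : C1.Kn := ⟨[nat_lit 60, nat_lit 100, nat_lit 120], [nat_lit 0, nat_lit 909, nat_lit 1866], [(nat_lit 0, nat_lit 0, nat_lit 0), (nat_lit 1000, nat_lit 858, nat_lit 354), (nat_lit 1000, nat_lit 849, nat_lit 705)], (nat_lit 84, nat_lit 100, nat_lit 60)⟩
noncomputable def p089_k31 : C1.Kn := ⟨[nat_lit 40, nat_lit 60, nat_lit 100], [nat_lit 0, nat_lit 0, nat_lit 1216], [(nat_lit 0, nat_lit 0, nat_lit 0), (nat_lit 0, nat_lit 0, nat_lit 0), (nat_lit 1000, nat_lit 810, nat_lit 474)], (nat_lit 80, nat_lit 100, nat_lit 60)⟩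
noncomputable def p089_k32 : C1.Kn := ⟨[nat_lit 60, nat_lit 80, nat_lit 140], [nat_lit 0, nat_lit 0, nat_lit 1595], [(nat_lit 0, nat_lit 0, nat_lit 0), (nat_lit 0, nat_lit 0, nat_lit 0), (nat_lit 1000, nat_lit 917, nat_lit 415)], (nat_lit 94, nat_lit 100, nat_lit 62)⟩
noncomputable def p089_k33 : C1.Kn := ⟨[nat_lit 40, nat_lit 60, nat_lit 100], [nat_lit 0, nat_lit 197, nat_lit 1403], [(nat_lit 0, nat_lit 0, nat_lit 0), (nat_lit 1000, nat_lit 908, nat_lit 154), (nat_lit 1000, nat_lit 781, nat_lit 471)], (nat_lit 76, nat_lit 100, nat_lit 60)⟩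
noncomputable def p089_k34 : C1.Kn := ⟨[nat_lit 40, nat_lit 60, nat_lit 100], [nat_lit 0, nat_lit 398, nat_lit 1586], [(nat_lit 0, nat_lit 0, nat_lit 0), (nat_lit 1000, nat_lit 814, nat_lit 310), (nat_lit 1000, nat_lit 752, nat_lit 464)], (nat_lit 72, nat_lit 100, nat_lit 61)⟩
noncomputable def p089_k35 : C1.Kn := ⟨[nat_lit 60, nat_lit 80, nat_lit 120], [nat_lit 0, nat_lit 151, nat_lit 1205], [(nat_lit 0, nat_lit 0, nat_lit 0), (nat_lit 1000, nat_lit 953, nat_lit 118), (nat_lit 1000, nat_lit 894, nat_lit 411)], (nat_lit 91, nat_lit 100, nat_lit 61)⟩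
noncomputable def p089_k36 : C1.Kn := ⟨[nat_lit 60, nat_lit 80, nat_lit 120], [nat_lit 0, nat_lit 304, nat_lit 1346], [(nat_lit 0, nat_lit 0, nat_lit 0), (nat_lit 1000, nat_lit 905, nat_lit 238), (nat_lit 1000, nat_lit 871, nat_lit 407)], (nat_lit 87, nat_lit 100, nat_lit 60)⟩
noncomputable def p089_k37 : C1.Kn := ⟨[nat_lit 40, nat_lit 100], [nat_lit 0, nat_lit 0], [(nat_lit 0, nat_lit 0, nat_lit 0), (nat_lit 0, nat_lit 0, nat_lit 0)], (nat_lit 80, nat_lit 100, nat_lit 60)⟩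
noncomputable def p089_k38 : C1.Kn := ⟨[nat_lit 60, nat_lit 140], [nat_lit 0, nat_lit 0], [(nat_lit 0, nat_lit 0, nat_lit 0), (nat_lit 0, nat_lit 0, nat_lit 0)], (nat_lit 94, nat_lit 100, nat_lit 62)⟩
noncomputable def p089_k39 : C1.Kn := ⟨[nat_lit 40, nat_lit 80, nat_lit 100], [nat_lit 0, nat_lit 0, nat_lit 1280], [(nat_lit 0, nat_lit 0, nat_lit 0), (nat_lit 0, nat_lit 0, nat_lit 0), (nat_lit 1000, nat_lit 800, nat_lit 600)], (nat_lit 82, nat_lit 100, nat_lit 44)⟩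
noncomputable def p089_k40 : C1.Kn := ⟨[nat_lit 60, nat_lit 100, nat_lit 120], [nat_lit 0, nat_lit 0, nat_lit 1164], [(nat_lit 0, nat_lit 0, nat_lit 0), (nat_lit 0, nat_lit 0, nat_lit 0), (nat_lit 1000, nat_lit 933, nat_lit 572)], (nat_lit 92, nat_lit 100, nat_lit 44)⟩
noncomputable def p089_k41 : C1.Kn := ⟨[nat_lit 40, nat_lit 80], [nat_lit 0, nat_lit 192], [(nat_lit 0, nat_lit 0, nat_lit 0), (nat_lit 1000, nat_lit 955, nat_lit 75)], (nat_lit 80, nat_lit 100, nat_lit 45)⟩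
noncomputable def p089_k42 : C1.Kn := ⟨[nat_lit 40, nat_lit 80, nat_lit 100], [nat_lit 0, nat_lit 192, nat_lit 1404], [(nat_lit 0, nat_lit 0, nat_lit 0), (nat_lit 1000, nat_lit 955, nat_lit 75), (nat_lit 1000, nat_lit 781, nat_lit 625)], (nat_lit 78, nat_lit 100, nat_lit 60)⟩
noncomputable def p089_k43 : C1.Kn := ⟨[nat_lit 40, nat_lit 60], [nat_lit 0, nat_lit 0], [(nat_lit 0, nat_lit 0, nat_lit 0), (nat_lit 0, nat_lit 0, nat_lit 0)], (nat_lit 89, nat_lit 100, nat_lit 22)⟩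
noncomputable def p089_k44 : C1.Kn := ⟨[nat_lit 60, nat_lit 80], [nat_lit 0, nat_lit 0], [(nat_lit 0, nat_lit 0, nat_lit 0), (nat_lit 0, nat_lit 0, nat_lit 0)], (nat_lit 94, nat_lit 100, nat_lit 20)⟩
noncomputable def p089_k45 : C1.Kn := ⟨[nat_lit 40, nat_lit 80], [nat_lit 0, nat_lit 0], [(nat_lit 0, nat_lit 0, nat_lit 0), (nat_lit 0, nat_lit 0, nat_lit 0)], (nat_lit 85, nat_lit 100, nat_lit 30)⟩
noncomputable def p089_k46 : C1.Kn := ⟨[nat_lit 60, nat_lit 100], [nat_lit 0, nat_lit 0], [(nat_lit 0, nat_lit 0, nat_lit 0), (nat_lit 0, nat_lit 0, nat_lit 0)], (nat_lit 92, nat_lit 100, nat_lit 28)⟩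
noncomputable def p089_k47 : C1.Kn := ⟨[nat_lit 60, nat_lit 80], [nat_lit 0, nat_lit 304], [(nat_lit 0, nat_lit 0, nat_lit 0), (nat_lit 1000, nat_lit 905, nat_lit 238)], (nat_lit 91, nat_lit 100, nat_lit 21)⟩
noncomputable def p089_k48 : C1.Kn := ⟨[nat_lit 60, nat_lit 80], [nat_lit 0, nat_lit 304], [(nat_lit 0, nat_lit 0, nat_lit 0), (nat_lit 1000, nat_lit 905, nat_lit 238)], (nat_lit 89, nat_lit 100, nat_lit 29)⟩
noncomputable def p089_k49 : C1.Kn := ⟨[nat_lit 60, nat_lit 100], [nat_lit 0, nat_lit 609], [(nat_lit 0, nat_lit 0, nat_lit 0), (nat_lit 1000, nat_lit 905, nat_lit 238)], (nat_lit 87, nat_lit 100, nat_lit 44)⟩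
noncomputable def p089_k50 : C1.Kn := ⟨[nat_lit 40, nat_lit 80], [nat_lit 0, nat_lit 112], [(nat_lit 0, nat_lit 0, nat_lit 0), (nat_lit 1000, nat_lit 974, nat_lit 44)], (nat_lit 81, nat_lit 100, nat_lit 45)⟩
noncomputable def p089_l0 : Lf2 := ⟨nat_lit 1, nat_lit 22, [nat_lit 146, nat_lit 5, nat_lit 5, nat_lit 20], false, nat_lit 160, nat_lit 300, nat_lit 0, nat_lit 364, zbN0,
 nat_lit 0, nat_lit 0, nat_lit 0, nat_lit 0, nat_lit 0, nat_lit 0, nat_lit 0, nat_lit 0, nat_lit 0, nat_lit 0, nat_lit 0, nat_lit 0, nat_lit 0, nat_lit 0, nat_lit 0, nat_lit 0, nat_lit 0, nat_lit 0, [],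
 C1.Rw.none, C1.Rw.none,
 zbF0, []⟩
noncomputable def p089_l1 : Lf2 := ⟨nat_lit 0, nat_lit 22, [nat_lit 146, nat_lit 5, nat_lit 5, nat_lit 20], true, nat_lit 160, nat_lit 288, nat_lit 0, nat_lit 364, ⟨nat_lit 0, nat_lit 830, nat_lit 170, nat_lit 6, nat_lit 172, nat_lit 1000, nat_lit 172, nat_lit 170, nat_lit 3485, nat_lit 228, nat_lit 19642, nat_lit 247, nat_lit 46595961, nat_lit 10212065, nat_lit 10191974, nat_lit 4434730, false, false⟩,
 nat_lit 0, nat_lit 5039, nat_lit 0, nat_lit 5926, nat_lit 3927, nat_lit 0, nat_lit 0, nat_lit 0, nat_lit 0, nat_lit 0, nat_lit 0, nat_lit 0, nat_lit 0, nat_lit 0, nat_lit 0, nat_lit 250000, nat_lit 0, nat_lit 0, [(nat_lit 20, [(nat_lit 0, nat_lit 830), (nat_lit 4, nat_lit 170)])],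
 ⟨p089_k0, nat_lit 0, nat_lit 0, nat_lit 109, nat_lit 0, nat_lit 30989, [nat_lit 1526784001, nat_lit 1783436000, nat_lit 2393184000], [], [nat_lit 17100377526, nat_lit 17938060203, nat_lit 18043729247, nat_lit 18746067561, nat_lit 22343800446, nat_lit 23099616920, nat_lit 22696706271, nat_lit 23279519202], nat_lit 1271250, nat_lit 1271250, nat_lit 462650, nat_lit 1100001, nat_lit 1100001, nat_lit 2196000, [nat_lit 490000, nat_lit 1100000, nat_lit 2127500], [nat_lit 27, nat_lit 40, nat_lit 40, nat_lit 80, nat_lit 13, nat_lit 345, nat_lit 125, nat_lit 9]⟩, C1.Rw.none,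
 ⟨nat_lit 3872, nat_lit 4184, ⟨.ofNat (nat_lit 337921), .ofNat (nat_lit 477065), .ofNat (nat_lit 381245), .ofNat (nat_lit 520388), .ofNat (nat_lit 343550), .ofNat (nat_lit 479052), .ofNat (nat_lit 387127), .ofNat (nat_lit 522628)⟩, ⟨.ofNat (nat_lit 303743), .ofNat (nat_lit 515761), .ofNat (nat_lit 347076), .ofNat (nat_lit 559094), .ofNat (nat_lit 304717), .ofNat (nat_lit 511186), .ofNat (nat_lit 348304), .ofNat (nat_lit 554773)⟩⟩, [⟨nat_lit 0, nat_lit 99, nat_lit 77, nat_lit 100, nat_lit 85338646⟩, ⟨nat_lit 4, nat_lit 100, nat_lit 77, nat_lit 91, nat_lit 222350402⟩]⟩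
noncomputable def p089_l2 : Lf2 := ⟨nat_lit 0, nat_lit 22, [nat_lit 146, nat_lit 5, nat_lit 5, nat_lit 20], true, nat_lit 160, nat_lit 300, nat_lit 0, nat_lit 364, ⟨nat_lit 0, nat_lit 1000, nat_lit 0, nat_lit 6, nat_lit 226, nat_lit 1000, nat_lit 177, nat_lit 0, nat_lit 0, nat_lit 0, nat_lit 0, nat_lit 0, nat_lit 42101708, nat_lit 14863208, nat_lit 10035084, nat_lit 4900765, false, false⟩,
 nat_lit 0, nat_lit 4189, nat_lit 0, nat_lit 6002, nat_lit 3141, nat_lit 0, nat_lit 0, nat_lit 0, nat_lit 0, nat_lit 0, nat_lit 0, nat_lit 0, nat_lit 0, nat_lit 0, nat_lit 0, nat_lit 250000, nat_lit 0, nat_lit 0, [(nat_lit 20, [(nat_lit 0, nat_lit 1000)])],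
 ⟨p089_k1, nat_lit 0, nat_lit 0, nat_lit 72, nat_lit 0, nat_lit 32785, [nat_lit 1534400001, nat_lit 3257600000], [], [nat_lit 16619639613, nat_lit 18106538757, nat_lit 19401439693, nat_lit 20691597753, nat_lit 22244024245, nat_lit 23377008825, nat_lit 24261341739, nat_lit 25256098113], nat_lit 1271250, nat_lit 1271250, nat_lit 1100001, nat_lit 1785000, nat_lit 1100001, nat_lit 2298750, [nat_lit 490000, nat_lit 2052500], [nat_lit 94, nat_lit 40, nat_lit 40, nat_lit 80, nat_lit 95, nat_lit 373, nat_lit 150, nat_lit 10]⟩, C1.Rw.none,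
 ⟨nat_lit 3872, nat_lit 4473, ⟨.ofNat (nat_lit 475111), .ofNat (nat_lit 611083), .ofNat (nat_lit 518209), .ofNat (nat_lit 654181), .ofNat (nat_lit 479021), .ofNat (nat_lit 608080), .ofNat (nat_lit 522572), .ofNat (nat_lit 651631)⟩, ⟨.ofNat (nat_lit 302621), .ofNat (nat_lit 540545), .ofNat (nat_lit 345754), .ofNat (nat_lit 583678), .ofNat (nat_lit 304717), .ofNat (nat_lit 530543), .ofNat (nat_lit 348304), .ofNat (nat_lit 574129)⟩⟩, [⟨nat_lit 4, nat_lit 100, nat_lit 81, nat_lit 92, nat_lit 186477717⟩]⟩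
noncomputable def p089_l3 : Lf2 := ⟨nat_lit 1, nat_lit 30, [nat_lit 15, nat_lit 5, nat_lit 5, nat_lit 20], false, nat_lit 160, nat_lit 300, nat_lit 0, nat_lit 364, zbN0,
 nat_lit 0, nat_lit 0, nat_lit 0, nat_lit 0, nat_lit 0, nat_lit 0, nat_lit 0, nat_lit 0, nat_lit 0, nat_lit 0, nat_lit 0, nat_lit 0, nat_lit 0, nat_lit 0, nat_lit 0, nat_lit 0, nat_lit 0, nat_lit 0, [],
 C1.Rw.none, C1.Rw.none,
 zbF0, []⟩
noncomputable def p089_l4 : Lf2 := ⟨nat_lit 0, nat_lit 30, [nat_lit 15, nat_lit 5, nat_lit 5, nat_lit 20], true, nat_lit 160, nat_lit 276, nat_lit 0, nat_lit 364, ⟨nat_lit 0, nat_lit 0, nat_lit 1000, nat_lit 6, nat_lit 166, nat_lit 1000, nat_lit 167, nat_lit 1000, nat_lit 13749, nat_lit 240, nat_lit 109688, nat_lit 296, nat_lit 47475578, nat_lit 0, nat_lit 0, nat_lit 4321984, false, false⟩,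
 nat_lit 0, nat_lit 4565, nat_lit 0, nat_lit 8614, nat_lit 3695, nat_lit 0, nat_lit 0, nat_lit 0, nat_lit 0, nat_lit 0, nat_lit 0, nat_lit 0, nat_lit 0, nat_lit 0, nat_lit 105, nat_lit 277450, nat_lit 0, nat_lit 0, [(nat_lit 23, [(nat_lit 4, nat_lit 817), (nat_lit 5, nat_lit 183)])],
 ⟨p089_k2, nat_lit 0, nat_lit 0, nat_lit 177, nat_lit 0, nat_lit 210758, [nat_lit 2244625601, nat_lit 645609600], [], [nat_lit 18393090464, nat_lit 19658769180, nat_lit 18433274280, nat_lit 19653294460, nat_lit 22126014381, nat_lit 23617704439, nat_lit 22088273378, nat_lit 23526360843], nat_lit 1271250, nat_lit 1271250, nat_lit 545600, nat_lit 780000, nat_lit 1100001, nat_lit 2093250, [nat_lit 490000, nat_lit 2052500], [nat_lit 94, nat_lit 40, nat_lit 40, nat_lit 80, nat_lit 95, nat_lit 317, nat_lit 100, nat_lit 8]⟩, C1.Rw.none,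
 ⟨nat_lit 3162, nat_lit 3873, ⟨.ofNat (nat_lit 362778), .ofNat (nat_lit 414421), .ofNat (nat_lit 406307), .ofNat (nat_lit 457950), .ofNat (nat_lit 373492), .ofNat (nat_lit 422280), .ofNat (nat_lit 417744), .ofNat (nat_lit 466533)⟩, ⟨.ofNat (nat_lit 304717), .ofNat (nat_lit 491830), .ofNat (nat_lit 348304), .ofNat (nat_lit 535416), .ofNat (nat_lit 306116), .ofNat (nat_lit 482881), .ofNat (nat_lit 350426), .ofNat (nat_lit 527190)⟩⟩, [⟨nat_lit 0, nat_lit 100, nat_lit 69, nat_lit 96, nat_lit 845908029⟩, ⟨nat_lit 16, nat_lit 67, nat_lit 100, nat_lit 88, nat_lit 291680622⟩]⟩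
noncomputable def p089_l5 : Lf2 := ⟨nat_lit 0, nat_lit 25, [nat_lit 44, nat_lit 5, nat_lit 5, nat_lit 20], false, nat_lit 160, nat_lit 240, nat_lit 0, nat_lit 352, ⟨nat_lit 60, nat_lit 940, nat_lit 0, nat_lit 6, nat_lit 214, nat_lit 940, nat_lit 152, nat_lit 0, nat_lit 0, nat_lit 0, nat_lit 0, nat_lit 0, nat_lit 44739740, nat_lit 14049022, nat_lit 8211238, nat_lit 4585265, false, false⟩,
 nat_lit 1935, nat_lit 3265, nat_lit 0, nat_lit 642, nat_lit 4209, nat_lit 1024, nat_lit 0, nat_lit 0, nat_lit 0, nat_lit 0, nat_lit 0, nat_lit 0, nat_lit 0, nat_lit 0, nat_lit 0, nat_lit 235000, nat_lit 0, nat_lit 0, [(nat_lit 23, [(nat_lit 0, nat_lit 940)])],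
 ⟨p089_k3, nat_lit 0, nat_lit 0, nat_lit 85, nat_lit 0, nat_lit 70635, [nat_lit 1603360001, nat_lit 2133832000, nat_lit 3534976000], [], [nat_lit 18215801674, nat_lit 19040372255, nat_lit 21310937560, nat_lit 21981155284, nat_lit 20820174060, nat_lit 21530254170, nat_lit 23355764932, nat_lit 23937940589], nat_lit 1271250, nat_lit 1271250, nat_lit 780000, nat_lit 1762500, nat_lit 1100001, nat_lit 1785000, [nat_lit 490000, nat_lit 1100000, nat_lit 2127500], [nat_lit 27, nat_lit 40, nat_lit 40, nat_lit 80, nat_lit 13, nat_lit 345, nat_lit 125, nat_lit 9]⟩, ⟨p089_k4, nat_lit 0, nat_lit 0, nat_lit 398, nat_lit 0, nat_lit 122764, [nat_lit 281280000, nat_lit 478080000, nat_lit 843480000], [], [nat_lit 4422621904, nat_lit 3322972880, nat_lit 3036279632, nat_lit 3074106240, nat_lit 2362660448, nat_lit 2439993488, nat_lit 3457361597, nat_lit 2551046231], nat_lit 1271250, nat_lit 1271250, nat_lit 780000, nat_lit 1762500,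 nat_lit 0, nat_lit 2486000, [nat_lit 1100000, nat_lit 1785000, nat_lit 1271250], [nat_lit 37, nat_lit 40, nat_lit 40, nat_lit 80, nat_lit 28, nat_lit 456, nat_lit 225, nat_lit 11]⟩,
 ⟨nat_lit 3535, nat_lit 3873, ⟨.ofNat (nat_lit 414519), .ofNat (nat_lit 608101), .ofNat (nat_lit 458093), .ofNat (nat_lit 651675), .ofNat (nat_lit 418358), .ofNat (nat_lit 606659), .ofNat (nat_lit 462251), .ofNat (nat_lit 650552)⟩, ⟨.ofNat (nat_lit 304717), .ofNat (nat_lit 433760), .ofNat (nat_lit 326511), .ofNat (nat_lit 455554), .ofNat (nat_lit 305521), .ofNat (nat_lit 431044), .ofNat (nat_lit 327474), .ofNat (nat_lit 452997)⟩⟩, [⟨nat_lit 4, nat_lit 100, nat_lit 70, nat_lit 85, nat_lit 203463978⟩]⟩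
noncomputable def p089_l6 : Lf2 := ⟨nat_lit 0, nat_lit 25, [nat_lit 44, nat_lit 5, nat_lit 5, nat_lit 20], false, nat_lit 160, nat_lit 240, nat_lit 0, nat_lit 352, ⟨nat_lit 50, nat_lit 950, nat_lit 0, nat_lit 6, nat_lit 214, nat_lit 950, nat_lit 151, nat_lit 0, nat_lit 0, nat_lit 0, nat_lit 0, nat_lit 0, nat_lit 44718393, nat_lit 14105783, nat_lit 8175824, nat_lit 4585446, false, false⟩,
 nat_lit 1152, nat_lit 3730, nat_lit 0, nat_lit 0, nat_lit 4100, nat_lit 609, nat_lit 0, nat_lit 0, nat_lit 0, nat_lit 0, nat_lit 0, nat_lit 0, nat_lit 0, nat_lit 0, nat_lit 0, nat_lit 237500, nat_lit 0, nat_lit 0, [(nat_lit 23, [(nat_lit 0, nat_lit 950)])],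
 ⟨p089_k5, nat_lit 0, nat_lit 0, nat_lit 84, nat_lit 0, nat_lit 119093, [nat_lit 1598800001, nat_lit 2106660001, nat_lit 2977080000], [], [nat_lit 19084519501, nat_lit 19897284401, nat_lit 22027484601, nat_lit 22688891201, nat_lit 21565089001, nat_lit 22265600001, nat_lit 23983405401, nat_lit 24557574001], nat_lit 1271250, nat_lit 1271250, nat_lit 780000, nat_lit 1762500, nat_lit 1100001, nat_lit 1785000, [nat_lit 490000, nat_lit 1100000, nat_lit 1785000], [nat_lit 34, nat_lit 40, nat_lit 40, nat_lit 80, nat_lit 7, nat_lit 345, nat_lit 125, nat_lit 10]⟩, ⟨p089_k4, nat_lit 0, nat_lit 0, nat_lit 431, nat_lit 0, nat_lit 216749, [nat_lit 234400000, nat_lit 398400000, nat_lit 702900000], [], [nat_lit 3050809644, nat_lit 2778222988, nat_lit 2634668912, nat_lit 2669755420, nat_lit 2265864161, nat_lit 2271072577, nat_lit 2691189149, nat_lit 2152179327], nat_lit 1271250, nat_lit 1271250, nat_lit 780000, nat_lit 1762500,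 nat_lit 0, nat_lit 2486000, [nat_lit 1100000, nat_lit 1785000, nat_lit 1271250], [nat_lit 37, nat_lit 40, nat_lit 40, nat_lit 80, nat_lit 28, nat_lit 456, nat_lit 225, nat_lit 11]⟩,
 ⟨nat_lit 3162, nat_lit 3536, ⟨.ofNat (nat_lit 418344), .ofNat (nat_lit 606660), .ofNat (nat_lit 462233), .ofNat (nat_lit 650549), .ofNat (nat_lit 422365), .ofNat (nat_lit 605256), .ofNat (nat_lit 466658), .ofNat (nat_lit 649550)⟩, ⟨.ofNat (nat_lit 305521), .ofNat (nat_lit 431044), .ofNat (nat_lit 327474), .ofNat (nat_lit 452997), .ofNat (nat_lit 306116), .ofNat (nat_lit 428022), .ofNat (nat_lit 328271), .ofNat (nat_lit 450177)⟩⟩, [⟨nat_lit 4, nat_lit 100, nat_lit 64, nat_lit 84, nat_lit 222616708⟩, ⟨nat_lit 7, nat_lit 81, nat_lit 100, nat_lit 88, nat_lit 2639242⟩]⟩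
noncomputable def p089_l7 : Lf2 := ⟨nat_lit 1, nat_lit 25, [nat_lit 44, nat_lit 5, nat_lit 5, nat_lit 20], false, nat_lit 160, nat_lit 240, nat_lit 0, nat_lit 352, zbN0,
 nat_lit 0, nat_lit 0, nat_lit 0, nat_lit 0, nat_lit 0, nat_lit 0, nat_lit 0, nat_lit 0, nat_lit 0, nat_lit 0, nat_lit 0, nat_lit 0, nat_lit 0, nat_lit 0, nat_lit 0, nat_lit 0, nat_lit 0, nat_lit 0, [],
 C1.Rw.none, C1.Rw.none,
 zbF0, []⟩
noncomputable def p089_l8 : Lf2 := ⟨nat_lit 0, nat_lit 25, [nat_lit 44, nat_lit 5, nat_lit 5, nat_lit 20], false, nat_lit 160, nat_lit 240, nat_lit 0, nat_lit 364, ⟨nat_lit 0, nat_lit 1000, nat_lit 0, nat_lit 6, nat_lit 214, nat_lit 1000, nat_lit 160, nat_lit 0, nat_lit 0, nat_lit 0, nat_lit 0, nat_lit 0, nat_lit 44143969, nat_lit 13975373, nat_lit 8880658, nat_lit 4672351, false, false⟩,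
 nat_lit 0, nat_lit 4926, nat_lit 0, nat_lit 1280, nat_lit 3987, nat_lit 0, nat_lit 0, nat_lit 0, nat_lit 0, nat_lit 0, nat_lit 0, nat_lit 0, nat_lit 0, nat_lit 0, nat_lit 0, nat_lit 250000, nat_lit 0, nat_lit 0, [(nat_lit 23, [(nat_lit 0, nat_lit 1000)])],
 ⟨p089_k3, nat_lit 0, nat_lit 0, nat_lit 84, nat_lit 0, nat_lit 57960, [nat_lit 1576000001, nat_lit 1970800000, nat_lit 3132400000], [], [nat_lit 18222069982, nat_lit 19823121948, nat_lit 21315551080, nat_lit 22620095344, nat_lit 20802920580, nat_lit 22184102040, nat_lit 23356980076, nat_lit 24490605580], nat_lit 1271250, nat_lit 1271250, nat_lit 780000, nat_lit 1762500, nat_lit 1100001, nat_lit 1785000, [nat_lit 490000, nat_lit 1100000, nat_lit 2127500], [nat_lit 27, nat_lit 40, nat_lit 40, nat_lit 80, nat_lit 13, nat_lit 345, nat_lit 125, nat_lit 9]⟩, ⟨p089_k4, nat_lit 0, nat_lit 0, nat_lit 390, nat_lit 0, nat_lit 101118, [nat_lit 0, nat_lit 0, nat_lit 0],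 [], [nat_lit 0, nat_lit 0, nat_lit 0, nat_lit 0, nat_lit 0, nat_lit 0, nat_lit 0, nat_lit 0], nat_lit 1271250, nat_lit 1271250, nat_lit 780000, nat_lit 1762500, nat_lit 0, nat_lit 2570750, [nat_lit 1100000, nat_lit 1785000, nat_lit 1271250], [nat_lit 37, nat_lit 40, nat_lit 40, nat_lit 80, nat_lit 28, nat_lit 456, nat_lit 225, nat_lit 11]⟩,
 ⟨nat_lit 3162, nat_lit 3873, ⟨.ofNat (nat_lit 414421), .ofNat (nat_lit 608082), .ofNat (nat_lit 457950), .ofNat (nat_lit 651611), .ofNat (nat_lit 422280), .ofNat (nat_lit 605237), .ofNat (nat_lit 466533), .ofNat (nat_lit 649490)⟩, ⟨.ofNat (nat_lit 326511), .ofNat (nat_lit 455554), .ofNat (nat_lit 348304), .ofNat (nat_lit 477347), .ofNat (nat_lit 328271), .ofNat (nat_lit 450177), .ofNat (nat_lit 350426), .ofNat (nat_lit 472332)⟩⟩, [⟨nat_lit 4, nat_lit 100, nat_lit 68, nat_lit 92, nat_lit 142313137⟩]⟩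
noncomputable def p089_l9 : Lf2 := ⟨nat_lit 1, nat_lit 30, [nat_lit 15, nat_lit 5, nat_lit 5, nat_lit 20], false, nat_lit 160, nat_lit 240, nat_lit 0, nat_lit 364, zbN0,
 nat_lit 0, nat_lit 0, nat_lit 0, nat_lit 0, nat_lit 0, nat_lit 0, nat_lit 0, nat_lit 0, nat_lit 0, nat_lit 0, nat_lit 0, nat_lit 0, nat_lit 0, nat_lit 0, nat_lit 0, nat_lit 0, nat_lit 0, nat_lit 0, [],
 C1.Rw.none, C1.Rw.none,
 zbF0, []⟩
noncomputable def p089_l10 : Lf2 := ⟨nat_lit 0, nat_lit 25, [nat_lit 44, nat_lit 5, nat_lit 5, nat_lit 20], true, nat_lit 240, nat_lit 256, nat_lit 0, nat_lit 352, ⟨nat_lit 0, nat_lit 0, nat_lit 1000, nat_lit 6, nat_lit 189, nat_lit 1000, nat_lit 182, nat_lit 1000, nat_lit 66937, nat_lit 278, nat_lit 15897, nat_lit 244, nat_lit 44619570, nat_lit 0, nat_lit 0, nat_lit 4671466, false, false⟩,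
 nat_lit 0, nat_lit 4214, nat_lit 0, nat_lit 2873, nat_lit 3411, nat_lit 0, nat_lit 0, nat_lit 0, nat_lit 0, nat_lit 0, nat_lit 0, nat_lit 0, nat_lit 0, nat_lit 0, nat_lit 111, nat_lit 294700, nat_lit 0, nat_lit 0, [(nat_lit 23, [(nat_lit 4, nat_lit 702), (nat_lit 5, nat_lit 298)])],
 ⟨p089_k3, nat_lit 0, nat_lit 0, nat_lit 173, nat_lit 0, nat_lit 201254, [nat_lit 2233193600, nat_lit 1052491200, nat_lit 598697600], [], [nat_lit 20289605510, nat_lit 21572870440, nat_lit 20670705166, nat_lit 22073766460, nat_lit 20882287287, nat_lit 22330711179, nat_lit 21424223804, nat_lit 22793939465], nat_lit 1271250, nat_lit 1271250, nat_lit 780000, nat_lit 1100001, nat_lit 1271250, nat_lit 1271250, [nat_lit 490000, nat_lit 1100000, nat_lit 2127500], [nat_lit 27, nat_lit 40, nat_lit 40, nat_lit 80, nat_lit 13, nat_lit 345, nat_lit 125, nat_lit 9]⟩, C1.Rw.none,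
 ⟨nat_lit 3162, nat_lit 3873, ⟨.ofNat (nat_lit 414421), .ofNat (nat_lit 478975), .ofNat (nat_lit 457950), .ofNat (nat_lit 522504), .ofNat (nat_lit 422280), .ofNat (nat_lit 483267), .ofNat (nat_lit 466533), .ofNat (nat_lit 527519)⟩, ⟨.ofNat (nat_lit 433760), .ofNat (nat_lit 459569), .ofNat (nat_lit 455554), .ofNat (nat_lit 481362), .ofNat (nat_lit 428022), .ofNat (nat_lit 452404), .ofNat (nat_lit 450177), .ofNat (nat_lit 474559)⟩⟩, [⟨nat_lit 4, nat_lit 100, nat_lit 67, nat_lit 84, nat_lit 543382338⟩]⟩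
noncomputable def p089_l11 : Lf2 := ⟨nat_lit 0, nat_lit 30, [nat_lit 15, nat_lit 5, nat_lit 5, nat_lit 20], false, nat_lit 240, nat_lit 276, nat_lit 0, nat_lit 364, ⟨nat_lit 0, nat_lit 1000, nat_lit 0, nat_lit 6, nat_lit 189, nat_lit 1000, nat_lit 197, nat_lit 0, nat_lit 0, nat_lit 0, nat_lit 0, nat_lit 0, nat_lit 43493513, nat_lit 11359147, nat_lit 12147340, nat_lit 4797150, false, false⟩,
 nat_lit 0, nat_lit 5152, nat_lit 0, nat_lit 4054, nat_lit 4170, nat_lit 0, nat_lit 0, nat_lit 0, nat_lit 0, nat_lit 0, nat_lit 0, nat_lit 0, nat_lit 0, nat_lit 0, nat_lit 0, nat_lit 250000, nat_lit 0, nat_lit 0, [(nat_lit 23, [(nat_lit 0, nat_lit 1000)])],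
 ⟨p089_k6, nat_lit 0, nat_lit 0, nat_lit 74, nat_lit 0, nat_lit 62997, [nat_lit 1576000001, nat_lit 1970800000, nat_lit 3132400000], [], [nat_lit 20682751800, nat_lit 22105718800, nat_lit 21177356800, nat_lit 22511487040, nat_lit 22411739068, nat_lit 23941732858, nat_lit 22805306935, nat_lit 24249950776], nat_lit 1271250, nat_lit 1271250, nat_lit 780000, nat_lit 1100001, nat_lit 1271250, nat_lit 1271250, [nat_lit 490000, nat_lit 1100000, nat_lit 2127500], [nat_lit 27, nat_lit 40, nat_lit 40, nat_lit 80, nat_lit 13, nat_lit 345, nat_lit 125, nat_lit 9]⟩, ⟨p089_k7, nat_lit 0, nat_lit 0, nat_lit 460, nat_lit 0, nat_lit 110558, [nat_lit 0, nat_lit 0, nat_lit 0], [], [nat_lit 0, nat_lit 0, nat_lit 0, nat_lit 0, nat_lit 0, nat_lit 0, nat_lit 0, nat_lit 0], nat_lit 1271250, nat_lit 1271250, nat_lit 780000, nat_lit 1100001, nat_lit 0, nat_lit 2570750, [nat_lit 1100000, nat_lit 1785000, nat_lit 1271250], [nat_lit 122,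 nat_lit 40, nat_lit 40, nat_lit 80, nat_lit 111, nat_lit 456, nat_lit 225, nat_lit 10]⟩,
 ⟨nat_lit 3162, nat_lit 3873, ⟨.ofNat (nat_lit 414421), .ofNat (nat_lit 478975), .ofNat (nat_lit 457950), .ofNat (nat_lit 522504), .ofNat (nat_lit 422280), .ofNat (nat_lit 483267), .ofNat (nat_lit 466533), .ofNat (nat_lit 527519)⟩, ⟨.ofNat (nat_lit 455554), .ofNat (nat_lit 513623), .ofNat (nat_lit 477347), .ofNat (nat_lit 535416), .ofNat (nat_lit 450177), .ofNat (nat_lit 505035), .ofNat (nat_lit 472332), .ofNat (nat_lit 527190)⟩⟩, [⟨nat_lit 0, nat_lit 94, nat_lit 62, nat_lit 100, nat_lit 46977169⟩, ⟨nat_lit 4, nat_lit 100, nat_lit 68, nat_lit 92, nat_lit 383778674⟩]⟩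
noncomputable def p089_l12 : Lf2 := ⟨nat_lit 0, nat_lit 25, [nat_lit 44, nat_lit 5, nat_lit 5, nat_lit 20], false, nat_lit 240, nat_lit 256, nat_lit 0, nat_lit 352, ⟨nat_lit 154, nat_lit 846, nat_lit 0, nat_lit 6, nat_lit 226, nat_lit 846, nat_lit 182, nat_lit 0, nat_lit 0, nat_lit 0, nat_lit 0, nat_lit 0, nat_lit 41731095, nat_lit 14816974, nat_lit 10451931, nat_lit 4946809, false, false⟩,
 nat_lit 5860, nat_lit 0, nat_lit 0, nat_lit 4577, nat_lit 4743, nat_lit 3102, nat_lit 0, nat_lit 0, nat_lit 0, nat_lit 16, nat_lit 0, nat_lit 0, nat_lit 0, nat_lit 0, nat_lit 0, nat_lit 211500, nat_lit 0, nat_lit 0, [(nat_lit 23, [(nat_lit 0, nat_lit 846)])],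
 ⟨p089_k3, nat_lit 0, nat_lit 0, nat_lit 78, nat_lit 0, nat_lit 124711, [nat_lit 1646224001, nat_lit 2389248800, nat_lit 4165678400], [], [nat_lit 21163098920, nat_lit 22840811980, nat_lit 23479796518, nat_lit 24927757488, nat_lit 22028966722, nat_lit 23653581363, nat_lit 24226819519, nat_lit 25623081802], nat_lit 1271250, nat_lit 1271250, nat_lit 1100001, nat_lit 1785000, nat_lit 1271250, nat_lit 1271250, [nat_lit 490000, nat_lit 1100000, nat_lit 2127500], [nat_lit 27, nat_lit 40, nat_lit 40, nat_lit 80, nat_lit 13, nat_lit 345, nat_lit 125, nat_lit 9]⟩, ⟨p089_k4, nat_lit 0, nat_lit 0, nat_lit 416, nat_lit 0, nat_lit 216749, [nat_lit 721952000, nat_lit 1227072000, nat_lit 2164932000], [], [nat_lit 9250857528, nat_lit 7706664840, nat_lit 7271028936, nat_lit 7704589632, nat_lit 8441921400, nat_lit 5626234796, nat_lit 5198224232, nat_lit 5528579796], nat_lit 1271250, nat_lit 1271250, nat_lit 1271250, nat_lit 1271250,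 nat_lit 0, nat_lit 2486000, [nat_lit 1100000, nat_lit 1785000, nat_lit 1271250], [nat_lit 37, nat_lit 40, nat_lit 40, nat_lit 80, nat_lit 28, nat_lit 456, nat_lit 225, nat_lit 11]⟩,
 ⟨nat_lit 3162, nat_lit 3873, ⟨.ofNat (nat_lit 478975), .ofNat (nat_lit 608082), .ofNat (nat_lit 522504), .ofNat (nat_lit 651611), .ofNat (nat_lit 483267), .ofNat (nat_lit 605237), .ofNat (nat_lit 527519), .ofNat (nat_lit 649490)⟩, ⟨.ofNat (nat_lit 433760), .ofNat (nat_lit 459569), .ofNat (nat_lit 455554), .ofNat (nat_lit 481362), .ofNat (nat_lit 428022), .ofNat (nat_lit 452404), .ofNat (nat_lit 450177), .ofNat (nat_lit 474559)⟩⟩, [⟨nat_lit 4, nat_lit 100, nat_lit 67, nat_lit 84, nat_lit 775196162⟩]⟩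
noncomputable def p089_l13 : Lf2 := ⟨nat_lit 1, nat_lit 25, [nat_lit 44, nat_lit 5, nat_lit 5, nat_lit 20], false, nat_lit 240, nat_lit 256, nat_lit 0, nat_lit 352, zbN0,
 nat_lit 0, nat_lit 0, nat_lit 0, nat_lit 0, nat_lit 0, nat_lit 0, nat_lit 0, nat_lit 0, nat_lit 0, nat_lit 0, nat_lit 0, nat_lit 0, nat_lit 0, nat_lit 0, nat_lit 0, nat_lit 0, nat_lit 0, nat_lit 0, [],
 C1.Rw.none, C1.Rw.none,
 zbF0, []⟩
noncomputable def p089_l14 : Lf2 := ⟨nat_lit 0, nat_lit 30, [nat_lit 15, nat_lit 5, nat_lit 5, nat_lit 20], false, nat_lit 240, nat_lit 276, nat_lit 0, nat_lit 364, ⟨nat_lit 49, nat_lit 951, nat_lit 0, nat_lit 6, nat_lit 226, nat_lit 951, nat_lit 197, nat_lit 0, nat_lit 0, nat_lit 0, nat_lit 0, nat_lit 0, nat_lit 40738874, nat_lit 14588699, nat_lit 11672427, nat_lit 5063715, false, false⟩,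
 nat_lit 882, nat_lit 4183, nat_lit 0, nat_lit 3366, nat_lit 4100, nat_lit 466, nat_lit 0, nat_lit 0, nat_lit 0, nat_lit 56, nat_lit 0, nat_lit 0, nat_lit 0, nat_lit 0, nat_lit 0, nat_lit 237750, nat_lit 0, nat_lit 0, [(nat_lit 23, [(nat_lit 0, nat_lit 951)])],
 ⟨p089_k6, nat_lit 0, nat_lit 0, nat_lit 66, nat_lit 0, nat_lit 62997, [nat_lit 1598344001, nat_lit 2103942801, nat_lit 3461170400], [], [nat_lit 21363360801, nat_lit 22686174001, nat_lit 23406519601, nat_lit 24555321600, nat_lit 22967288962, nat_lit 24198691680, nat_lit 24806548130, nat_lit 26045792521], nat_lit 1271250, nat_lit 1271250, nat_lit 1100001, nat_lit 1785000, nat_lit 1271250, nat_lit 1271250, [nat_lit 490000, nat_lit 1100000, nat_lit 2127500], [nat_lit 27, nat_lit 40, nat_lit 40, nat_lit 80, nat_lit 13, nat_lit 373, nat_lit 150, nat_lit 10]⟩, ⟨p089_k7, nat_lit 0, nat_lit 0, nat_lit 444, nat_lit 0, nat_lit 110558, [nat_lit 229712000, nat_lit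 390432000, nat_lit 803600000], [], [nat_lit 2149534028, nat_lit 1688229000, nat_lit 1650325212, nat_lit 1729991320, nat_lit 2411767520, nat_lit 1990226344, nat_lit 1574084709, nat_lit 1487833846], nat_lit 1271250, nat_lit 1271250, nat_lit 1271250, nat_lit 1271250, nat_lit 0, nat_lit 2570750, [nat_lit 1100000, nat_lit 1785000, nat_lit 1271250], [nat_lit 122, nat_lit 40, nat_lit 40, nat_lit 80, nat_lit 111, nat_lit 456, nat_lit 225, nat_lit 10]⟩,
 ⟨nat_lit 3162, nat_lit 3873, ⟨.ofNat (nat_lit 478975), .ofNat (nat_lit 608082), .ofNat (nat_lit 522504), .ofNat (nat_lit 651611), .ofNat (nat_lit 483267), .ofNat (nat_lit 605237), .ofNat (nat_lit 527519), .ofNat (nat_lit 649490)⟩, ⟨.ofNat (nat_lit 455554), .ofNat (nat_lit 513623), .ofNat (nat_lit 477347), .ofNat (nat_lit 535416), .ofNat (nat_lit 450177), .ofNat (nat_lit 505035), .ofNat (nat_lit 472332), .ofNat (nat_lit 527190)⟩⟩, [⟨nat_lit 4, nat_lit 100, nat_lit 68, nat_lit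 92, nat_lit 353612747⟩, ⟨nat_lit 7, nat_lit 73, nat_lit 100, nat_lit 94, nat_lit 6650978⟩]⟩
noncomputable def b_V_800_600_20_53 : St := ⟨true, nat_lit 1, nat_lit 1, nat_lit 1, nat_lit 120, nat_lit 320, nat_lit 360, nat_lit 240, nat_lit 280, nat_lit 64, nat_lit 240, nat_lit 80, nat_lit 120, nat_lit 160, nat_lit 300, nat_lit 0, nat_lit 364, nat_lit 80, nat_lit 120, nat_lit 0, nat_lit 0, nat_lit 0, nat_lit 0⟩
theorem d_V_800_600_20_53 (h : EB TB.env) : Dead b_V_800_600_20_53 := chkB_sound0 h (T :=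
(.spl (nat_lit 0) (nat_lit 340)
(.spl (nat_lit 6) (nat_lit 88)
(.spl (nat_lit 2) (nat_lit 160)
(.spl (nat_lit 0) (nat_lit 330)
(.leaf p089_l0)
(.trZ (nat_lit 0) (nat_lit 100) (nat_lit 78) (nat_lit 81) (nat_lit 76) (.trX (nat_lit 16) (nat_lit 83) (nat_lit 98) (nat_lit 100) (nat_lit 288) (.leaf p089_l1))))
(.leaf p089_l2))
(.leaf p089_l3))
(.trZ (nat_lit 0) (nat_lit 100) (nat_lit 73) (nat_lit 85) (nat_lit 88) (.trX (nat_lit 16) (nat_lit 77) (nat_lit 100) (nat_lit 99) (nat_lit 276) (.spl (nat_lit 2) (nat_lit 120)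
(.leaf p089_l4)
(.spl (nat_lit 4) (nat_lit 240)
(.spl (nat_lit 3) (nat_lit 100)
(.trX (nat_lit 19) (nat_lit 100) (nat_lit 68) (nat_lit 88) (nat_lit 352) (.spl (nat_lit 6) (nat_lit 108)
(.spl (nat_lit 0) (nat_lit 350)
(.leaf p089_l5)
(.leaf p089_l6))
(.leaf p089_l7)))
(.spl (nat_lit 6) (nat_lit 100)
(.leaf p089_l8)
(.leaf p089_l9)))
(.spl (nat_lit 2) (nat_lit 160)
(.spl (nat_lit 3) (nat_lit 100)
(.trX (nat_lit 16) (nat_lit 74) (nat_lit 100) (nat_lit 90) (nat_lit 256) (.trX (nat_lit 19) (nat_lit 100) (nat_lit 68) (nat_lit 88) (nat_lit 352) (.leaf p089_l10)))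
(.leaf p089_l11))
(.spl (nat_lit 3) (nat_lit 100)
(.trX (nat_lit 16) (nat_lit 74) (nat_lit 100) (nat_lit 90) (nat_lit 256) (.trX (nat_lit 19) (nat_lit 100) (nat_lit 68) (nat_lit 88) (nat_lit 352) (.spl (nat_lit 6) (nat_lit 108)
(.leaf p089_l12)
(.leaf p089_l13))))
(.leaf p089_l14))))))))) (by decide +kernel)
noncomputable def p089_l15 : Lf2 := ⟨nat_lit 0, nat_lit 30, [nat_lit 15, nat_lit 5, nat_lit 5, nat_lit 20], false, nat_lit 0, nat_lit 160, nat_lit 0, nat_lit 364, ⟨nat_lit 1000, nat_lit 0, nat_lit 0, nat_lit 0, nat_lit 0, nat_lit 0, nat_lit 0, nat_lit 0, nat_lit 0, nat_lit 0, nat_lit 0, nat_lit 0, nat_lit 0, nat_lit 0, nat_lit 0, nat_lit 0, false, false⟩,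
 nat_lit 15215, nat_lit 0, nat_lit 0, nat_lit 20967, nat_lit 6305, nat_lit 8054, nat_lit 645, nat_lit 0, nat_lit 0, nat_lit 967, nat_lit 0, nat_lit 0, nat_lit 0, nat_lit 0, nat_lit 0, nat_lit 0, nat_lit 0, nat_lit 0, [],
 ⟨p089_k8, nat_lit 0, nat_lit 0, nat_lit 239, nat_lit 0, nat_lit 24942, [nat_lit 2032000001, nat_lit 4688000000, nat_lit 11872000000], [], [nat_lit 30229081215, nat_lit 31606538575, nat_lit 38509183673, nat_lit 39925932462, nat_lit 25927780295, nat_lit 26919820955, nat_lit 32226061942, nat_lit 32977634472], nat_lit 1271250, nat_lit 1271250, nat_lit 1271250, nat_lit 1271250, nat_lit 0, nat_lit 1100001, [nat_lit 490000, nat_lit 1100000, nat_lit 2470000], [nat_lit 75, nat_lit 40, nat_lit 40, nat_lit 80, nat_lit 65, nat_lit 373, nat_lit 150, nat_lit 9]⟩, ⟨p089_k7, nat_lit 0, nat_lit 0, nat_lit 401, nat_lit 0, nat_lit 39849, [nat_lit 4688000000, nat_lit 7968000000, nat_lit 16400000000], [], [nat_lit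 35919483567, nat_lit 36971606223, nat_lit 42965068316, nat_lit 43620899353, nat_lit 33747991768, nat_lit 32991188588, nat_lit 37125919542, nat_lit 37998901291], nat_lit 1271250, nat_lit 1271250, nat_lit 1271250, nat_lit 1271250, nat_lit 0, nat_lit 2570750, [nat_lit 1100000, nat_lit 1785000, nat_lit 1271250], [nat_lit 122, nat_lit 40, nat_lit 40, nat_lit 80, nat_lit 111, nat_lit 538, nat_lit 300, nat_lit 11]⟩,
 zbF0, [⟨nat_lit 7, nat_lit 77, nat_lit 100, nat_lit 91, nat_lit 130839261⟩]⟩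
noncomputable def p089_l16 : Lf2 := ⟨nat_lit 0, nat_lit 30, [nat_lit 15, nat_lit 5, nat_lit 5, nat_lit 20], false, nat_lit 0, nat_lit 160, nat_lit 0, nat_lit 160, ⟨nat_lit 1000, nat_lit 0, nat_lit 0, nat_lit 0, nat_lit 0, nat_lit 0, nat_lit 0, nat_lit 0, nat_lit 0, nat_lit 0, nat_lit 0, nat_lit 0, nat_lit 0, nat_lit 0, nat_lit 0, nat_lit 0, false, false⟩,
 nat_lit 14185, nat_lit 0, nat_lit 0, nat_lit 4913, nat_lit 6067, nat_lit 7509, nat_lit 386, nat_lit 0, nat_lit 0, nat_lit 1084, nat_lit 0, nat_lit 0, nat_lit 0, nat_lit 0, nat_lit 0, nat_lit 0, nat_lit 0, nat_lit 0, [],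
 ⟨p089_k6, nat_lit 0, nat_lit 0, nat_lit 291, nat_lit 0, nat_lit 135846, [nat_lit 2032000001, nat_lit 4688000000, nat_lit 9842000000], [], [nat_lit 31171575228, nat_lit 32679282230, nat_lit 38950496566, nat_lit 39932086042, nat_lit 26713832352, nat_lit 27992282122, nat_lit 33388223498, nat_lit 34236517614], nat_lit 1271250, nat_lit 1271250, nat_lit 1271250, nat_lit 1271250, nat_lit 0, nat_lit 1100001, [nat_lit 490000, nat_lit 1100000, nat_lit 2127500], [nat_lit 27, nat_lit 40, nat_lit 40, nat_lit 80, nat_lit 13, nat_lit 373, nat_lit 150, nat_lit 10]⟩, ⟨p089_k7, nat_lit 0, nat_lit 0, nat_lit 466, nat_lit 0, nat_lit 238404, [nat_lit 4688000000, nat_lit 7968000000, nat_lit 16400000000], [], [nat_lit 34601025032, nat_lit 35645046808, nat_lit 40108683887, nat_lit 40829242481, nat_lit 28638837228, nat_lit 29503952280, nat_lit 33886319181, nat_lit 34814520866], nat_lit 1271250, nat_lit 1271250, nat_lit 1271250, nat_lit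 1271250, nat_lit 0, nat_lit 1100001, [nat_lit 1100000, nat_lit 1785000, nat_lit 1271250], [nat_lit 122, nat_lit 40, nat_lit 40, nat_lit 80, nat_lit 111, nat_lit 456, nat_lit 225, nat_lit 9]⟩,
 zbF0, []⟩
noncomputable def p089_l17 : Lf2 := ⟨nat_lit 0, nat_lit 30, [nat_lit 15, nat_lit 5, nat_lit 5, nat_lit 20], false, nat_lit 0, nat_lit 160, nat_lit 160, nat_lit 364, ⟨nat_lit 1000, nat_lit 0, nat_lit 0, nat_lit 0, nat_lit 0, nat_lit 0, nat_lit 0, nat_lit 0, nat_lit 0, nat_lit 0, nat_lit 0, nat_lit 0, nat_lit 0, nat_lit 0, nat_lit 0, nat_lit 0, false, false⟩,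
 nat_lit 17259, nat_lit 0, nat_lit 0, nat_lit 5833, nat_lit 6373, nat_lit 9137, nat_lit 650, nat_lit 0, nat_lit 0, nat_lit 703, nat_lit 0, nat_lit 0, nat_lit 0, nat_lit 0, nat_lit 0, nat_lit 0, nat_lit 0, nat_lit 0, [],
 ⟨p089_k9, nat_lit 0, nat_lit 0, nat_lit 248, nat_lit 0, nat_lit 78163, [nat_lit 2032000001, nat_lit 6250000000, nat_lit 9842000000], [], [nat_lit 27792825232, nat_lit 28568375051, nat_lit 39355505600, nat_lit 40092288699, nat_lit 23115246716, nat_lit 23630592175, nat_lit 32143991648, nat_lit 32786736850], nat_lit 1271250, nat_lit 1271250, nat_lit 1271250, nat_lit 1271250, nat_lit 0, nat_lit 1100001, [nat_lit 490000, nat_lit 1427500, nat_lit 1271250], [nat_lit 61, nat_lit 40, nat_lit 40, nat_lit 80, nat_lit 1, nat_lit 373, nat_lit 150, nat_lit 10]⟩, ⟨p089_k10, nat_lit 0, nat_lit 0, nat_lit 256, nat_lit 0, nat_lit 137173, [nat_lit 4688000000, nat_lit 9842000000, nat_lit 16400000000], [], [nat_lit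 29692233028, nat_lit 29015191517, nat_lit 34695675479, nat_lit 35268419457, nat_lit 33005536688, nat_lit 33506999689, nat_lit 38338216096, nat_lit 38776762328], nat_lit 1271250, nat_lit 1271250, nat_lit 1271250, nat_lit 1271250, nat_lit 1271250, nat_lit 1271250, [nat_lit 1100000, nat_lit 2127500, nat_lit 1271250], [nat_lit 83, nat_lit 40, nat_lit 40, nat_lit 80, nat_lit 73, nat_lit 538, nat_lit 300, nat_lit 11]⟩,
 zbF0, [⟨nat_lit 7, nat_lit 77, nat_lit 100, nat_lit 91, nat_lit 284683289⟩, ⟨nat_lit 22, nat_lit 87, nat_lit 100, nat_lit 84, nat_lit 85150692⟩]⟩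
noncomputable def p089_l18 : Lf2 := ⟨nat_lit 0, nat_lit 30, [nat_lit 15, nat_lit 5, nat_lit 5, nat_lit 20], false, nat_lit 4, nat_lit 160, nat_lit 160, nat_lit 364, ⟨nat_lit 1000, nat_lit 0, nat_lit 0, nat_lit 0, nat_lit 0, nat_lit 0, nat_lit 0, nat_lit 0, nat_lit 0, nat_lit 0, nat_lit 0, nat_lit 0, nat_lit 0, nat_lit 0, nat_lit 0, nat_lit 0, false, false⟩,
 nat_lit 17380, nat_lit 0, nat_lit 0, nat_lit 1913, nat_lit 5077, nat_lit 9201, nat_lit 673, nat_lit 0, nat_lit 0, nat_lit 699, nat_lit 0, nat_lit 0, nat_lit 0, nat_lit 0, nat_lit 0, nat_lit 0, nat_lit 0, nat_lit 0, [],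
 ⟨p089_k11, nat_lit 0, nat_lit 0, nat_lit 286, nat_lit 0, nat_lit 129630, [nat_lit 2032000001, nat_lit 6250000000, nat_lit 9842000000], [], [nat_lit 26412991677, nat_lit 27094860613, nat_lit 35833607701, nat_lit 36496480623, nat_lit 23328735575, nat_lit 23792781466, nat_lit 30795262490, nat_lit 31377140237], nat_lit 1271250, nat_lit 1271250, nat_lit 1271250, nat_lit 1271250, nat_lit 21650, nat_lit 1100001, [nat_lit 490000, nat_lit 1427500, nat_lit 1271250], [nat_lit 61, nat_lit 40, nat_lit 40, nat_lit 80, nat_lit 1, nat_lit 373, nat_lit 150, nat_lit 10]⟩, ⟨p089_k10, nat_lit 0, nat_lit 0, nat_lit 293, nat_lit 0, nat_lit 238404, [nat_lit 4688000000, nat_lit 9842000000, nat_lit 16400000000], [], [nat_lit 29614603844, nat_lit 29066015441, nat_lit 34518689684, nat_lit 35112146646, nat_lit 33058003390, nat_lit 33557065598, nat_lit 38099223737, nat_lit 38555368728], nat_lit 1271250, nat_lit 1271250, nat_lit 1271250,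 nat_lit 1271250, nat_lit 1271250, nat_lit 1271250, [nat_lit 1100000, nat_lit 2127500, nat_lit 1271250], [nat_lit 83, nat_lit 40, nat_lit 40, nat_lit 80, nat_lit 73, nat_lit 538, nat_lit 300, nat_lit 11]⟩,
 zbF0, [⟨nat_lit 7, nat_lit 77, nat_lit 100, nat_lit 91, nat_lit 335537943⟩, ⟨nat_lit 22, nat_lit 88, nat_lit 100, nat_lit 86, nat_lit 18871524⟩]⟩
noncomputable def p089_l19 : Lf2 := ⟨nat_lit 0, nat_lit 30, [nat_lit 15, nat_lit 5, nat_lit 5, nat_lit 20], false, nat_lit 160, nat_lit 300, nat_lit 0, nat_lit 160, ⟨nat_lit 1000, nat_lit 0, nat_lit 0, nat_lit 0, nat_lit 0, nat_lit 0, nat_lit 0, nat_lit 0, nat_lit 0, nat_lit 0, nat_lit 0, nat_lit 0, nat_lit 0, nat_lit 0, nat_lit 0, nat_lit 0, false, false⟩,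
 nat_lit 15570, nat_lit 0, nat_lit 0, nat_lit 774, nat_lit 11677, nat_lit 8242, nat_lit 29, nat_lit 0, nat_lit 0, nat_lit 1181, nat_lit 0, nat_lit 0, nat_lit 0, nat_lit 0, nat_lit 0, nat_lit 0, nat_lit 0, nat_lit 0, [],
 ⟨p089_k8, nat_lit 0, nat_lit 0, nat_lit 195, nat_lit 0, nat_lit 149808, [nat_lit 2032000001, nat_lit 4688000000, nat_lit 11872000000], [], [nat_lit 30304681551, nat_lit 33682142419, nat_lit 39576028748, nat_lit 41634171710, nat_lit 33315815334, nat_lit 35675724101, nat_lit 40487228607, nat_lit 42968362257], nat_lit 1271250, nat_lit 1271250, nat_lit 1271250, nat_lit 1271250, nat_lit 1100001, nat_lit 2298750, [nat_lit 490000, nat_lit 1100000, nat_lit 2470000], [nat_lit 75, nat_lit 40, nat_lit 40, nat_lit 80, nat_lit 65, nat_lit 401, nat_lit 175, nat_lit 9]⟩, ⟨p089_k7, nat_lit 0, nat_lit 0, nat_lit 466, nat_lit 0, nat_lit 238404, [nat_lit 4688000000, nat_lit 7968000000, nat_lit 16400000000], [],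 [nat_lit 32988923541, nat_lit 34043840629, nat_lit 40387113945, nat_lit 41044435253, nat_lit 26203022589, nat_lit 27067571765, nat_lit 33226229656, nat_lit 34113524396], nat_lit 1271250, nat_lit 1271250, nat_lit 1271250, nat_lit 1271250, nat_lit 0, nat_lit 1100001, [nat_lit 1100000, nat_lit 1785000, nat_lit 1271250], [nat_lit 122, nat_lit 40, nat_lit 40, nat_lit 80, nat_lit 111, nat_lit 456, nat_lit 225, nat_lit 9]⟩,
 zbF0, [⟨nat_lit 4, nat_lit 100, nat_lit 74, nat_lit 90, nat_lit 361904110⟩, ⟨nat_lit 9, nat_lit 100, nat_lit 82, nat_lit 71, nat_lit 85526479⟩]⟩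
noncomputable def p089_l20 : Lf2 := ⟨nat_lit 0, nat_lit 30, [nat_lit 15, nat_lit 5, nat_lit 5, nat_lit 20], false, nat_lit 160, nat_lit 300, nat_lit 160, nat_lit 364, ⟨nat_lit 1000, nat_lit 0, nat_lit 0, nat_lit 0, nat_lit 0, nat_lit 0, nat_lit 0, nat_lit 0, nat_lit 0, nat_lit 0, nat_lit 0, nat_lit 0, nat_lit 0, nat_lit 0, nat_lit 0, nat_lit 0, false, false⟩,
 nat_lit 17239, nat_lit 0, nat_lit 0, nat_lit 16355, nat_lit 6754, nat_lit 9126, nat_lit 622, nat_lit 0, nat_lit 0, nat_lit 709, nat_lit 0, nat_lit 0, nat_lit 0, nat_lit 0, nat_lit 0, nat_lit 0, nat_lit 0, nat_lit 0, [],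
 ⟨p089_k12, nat_lit 0, nat_lit 0, nat_lit 103, nat_lit 0, nat_lit 24942, [nat_lit 2032000001, nat_lit 6250000000, nat_lit 11872000000], [], [nat_lit 24725153302, nat_lit 25941068970, nat_lit 32281769493, nat_lit 33311427105, nat_lit 27825004468, nat_lit 28721465435, nat_lit 34837289073, nat_lit 35780613774], nat_lit 1271250, nat_lit 1271250, nat_lit 1271250, nat_lit 1271250, nat_lit 1100001, nat_lit 2298750, [nat_lit 490000, nat_lit 1427500, nat_lit 1271250], [nat_lit 72, nat_lit 40, nat_lit 40, nat_lit 80, nat_lit 12, nat_lit 401, nat_lit 175, nat_lit 9]⟩, ⟨p089_k10, nat_lit 0, nat_lit 0, nat_lit 222, nat_lit 0, nat_lit 39849, [nat_lit 4688000000, nat_lit 9842000000, nat_lit 16400000000], [], [nat_lit 29705575544, nat_lit 28915462991, nat_lit 35086176057, nat_lit 35614063587, nat_lit 32905525810, nat_lit 33407401448, nat_lit 38776097021, nat_lit 39359368365], nat_lit 1271250, nat_lit 1271250, nat_lit 1271250,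 nat_lit 1271250, nat_lit 1271250, nat_lit 1271250, [nat_lit 1100000, nat_lit 2127500, nat_lit 1271250], [nat_lit 83, nat_lit 40, nat_lit 40, nat_lit 80, nat_lit 73, nat_lit 538, nat_lit 300, nat_lit 11]⟩,
 zbF0, [⟨nat_lit 4, nat_lit 100, nat_lit 81, nat_lit 92, nat_lit 427970586⟩, ⟨nat_lit 7, nat_lit 77, nat_lit 100, nat_lit 91, nat_lit 359585654⟩]⟩
noncomputable def p089_l21 : Lf2 := ⟨nat_lit 0, nat_lit 26, [nat_lit 108, nat_lit 5, nat_lit 5, nat_lit 20], false, nat_lit 160, nat_lit 276, nat_lit 160, nat_lit 364, ⟨nat_lit 1000, nat_lit 0, nat_lit 0, nat_lit 0, nat_lit 0, nat_lit 0, nat_lit 0, nat_lit 0, nat_lit 0, nat_lit 0, nat_lit 0, nat_lit 0, nat_lit 0, nat_lit 0, nat_lit 0, nat_lit 0, false, false⟩,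
 nat_lit 18296, nat_lit 0, nat_lit 0, nat_lit 15504, nat_lit 6853, nat_lit 9686, nat_lit 0, nat_lit 0, nat_lit 0, nat_lit 0, nat_lit 0, nat_lit 0, nat_lit 0, nat_lit 0, nat_lit 0, nat_lit 0, nat_lit 0, nat_lit 0, [],
 ⟨p089_k13, nat_lit 0, nat_lit 0, nat_lit 96, nat_lit 0, nat_lit 20601, [nat_lit 2032000001, nat_lit 6250000000, nat_lit 9842000000], [], [nat_lit 24234105716, nat_lit 25054619140, nat_lit 32201877448, nat_lit 32751328046, nat_lit 27628440910, nat_lit 28270034357, nat_lit 34088653646, nat_lit 34627382293], nat_lit 1271250, nat_lit 1271250, nat_lit 1271250, nat_lit 1271250, nat_lit 1100001, nat_lit 2093250, [nat_lit 490000, nat_lit 1427500, nat_lit 1271250], [nat_lit 61, nat_lit 40, nat_lit 40, nat_lit 80, nat_lit 1, nat_lit 401, nat_lit 175, nat_lit 10]⟩, ⟨p089_k14, nat_lit 0, nat_lit 0, nat_lit 122, nat_lit 0, nat_lit 36439, [nat_lit 4688000000, nat_lit 9842000000, nat_lit 14058000000], [], [nat_lit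 21787806672, nat_lit 23037905648, nat_lit 32495759976, nat_lit 33168151668, nat_lit 31921603175, nat_lit 32499727954, nat_lit 37845278163, nat_lit 38338537752], nat_lit 1271250, nat_lit 1271250, nat_lit 1271250, nat_lit 1271250, nat_lit 1271250, nat_lit 1271250, [nat_lit 1100000, nat_lit 2127500, nat_lit 1271250], [nat_lit 56, nat_lit 40, nat_lit 40, nat_lit 80, nat_lit 32, nat_lit 538, nat_lit 300, nat_lit 12]⟩,
 zbF0, [⟨nat_lit 4, nat_lit 100, nat_lit 71, nat_lit 89, nat_lit 466335329⟩, ⟨nat_lit 7, nat_lit 72, nat_lit 100, nat_lit 89, nat_lit 406688267⟩]⟩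
noncomputable def p089_l22 : Lf2 := ⟨nat_lit 0, nat_lit 26, [nat_lit 108, nat_lit 5, nat_lit 5, nat_lit 20], false, nat_lit 160, nat_lit 264, nat_lit 160, nat_lit 364, ⟨nat_lit 1000, nat_lit 0, nat_lit 0, nat_lit 0, nat_lit 0, nat_lit 0, nat_lit 0, nat_lit 0, nat_lit 0, nat_lit 0, nat_lit 0, nat_lit 0, nat_lit 0, nat_lit 0, nat_lit 0, nat_lit 0, false, false⟩,
 nat_lit 18346, nat_lit 0, nat_lit 0, nat_lit 7786, nat_lit 4770, nat_lit 9712, nat_lit 670, nat_lit 0, nat_lit 0, nat_lit 696, nat_lit 0, nat_lit 0, nat_lit 0, nat_lit 0, nat_lit 0, nat_lit 0, nat_lit 0, nat_lit 0, [],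
 ⟨p089_k15, nat_lit 0, nat_lit 0, nat_lit 148, nat_lit 0, nat_lit 75039, [nat_lit 2032000001, nat_lit 6250000000, nat_lit 9842000000], [], [nat_lit 23411012970, nat_lit 23976756320, nat_lit 29581833278, nat_lit 30170178844, nat_lit 25517583033, nat_lit 25988454576, nat_lit 31455023277, nat_lit 31939811924], nat_lit 1271250, nat_lit 1271250, nat_lit 1271250, nat_lit 1271250, nat_lit 1100001, nat_lit 1990500, [nat_lit 490000, nat_lit 1427500, nat_lit 1271250], [nat_lit 61, nat_lit 40, nat_lit 40, nat_lit 80, nat_lit 1, nat_lit 401, nat_lit 175, nat_lit 10]⟩, ⟨p089_k14, nat_lit 0, nat_lit 0, nat_lit 216, nat_lit 0, nat_lit 137311, [nat_lit 4688000000, nat_lit 9842000000, nat_lit 14058000000], [], [nat_lit 25135702080, nat_lit 26015497136, nat_lit 32615081994, nat_lit 33070577968, nat_lit 32130535378, nat_lit 32486493956, nat_lit 37252078913, nat_lit 37717064119], nat_lit 1271250, nat_lit 1271250, nat_lit 1271250,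 nat_lit 1271250, nat_lit 1271250, nat_lit 1271250, [nat_lit 1100000, nat_lit 2127500, nat_lit 1271250], [nat_lit 56, nat_lit 40, nat_lit 40, nat_lit 80, nat_lit 32, nat_lit 483, nat_lit 250, nat_lit 10]⟩,
 zbF0, [⟨nat_lit 4, nat_lit 100, nat_lit 64, nat_lit 88, nat_lit 545759836⟩, ⟨nat_lit 19, nat_lit 100, nat_lit 72, nat_lit 89, nat_lit 392337052⟩]⟩
noncomputable def p089_l23 : Lf2 := ⟨nat_lit 1, nat_lit 30, [nat_lit 15, nat_lit 5, nat_lit 5, nat_lit 20], false, nat_lit 160, nat_lit 276, nat_lit 160, nat_lit 364, zbN0,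
 nat_lit 0, nat_lit 0, nat_lit 0, nat_lit 0, nat_lit 0, nat_lit 0, nat_lit 0, nat_lit 0, nat_lit 0, nat_lit 0, nat_lit 0, nat_lit 0, nat_lit 0, nat_lit 0, nat_lit 0, nat_lit 0, nat_lit 0, nat_lit 0, [],
 C1.Rw.none, C1.Rw.none,
 zbF0, []⟩
noncomputable def p089_l24 : Lf2 := ⟨nat_lit 0, nat_lit 30, [nat_lit 15, nat_lit 5, nat_lit 5, nat_lit 20], false, nat_lit 160, nat_lit 276, nat_lit 160, nat_lit 352, ⟨nat_lit 1000, nat_lit 0, nat_lit 0, nat_lit 0, nat_lit 0, nat_lit 0, nat_lit 0, nat_lit 0, nat_lit 0, nat_lit 0, nat_lit 0, nat_lit 0, nat_lit 0, nat_lit 0, nat_lit 0, nat_lit 0, false, false⟩,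
 nat_lit 14647, nat_lit 0, nat_lit 0, nat_lit 10802, nat_lit 7921, nat_lit 8525, nat_lit 261, nat_lit 0, nat_lit 0, nat_lit 717, nat_lit 0, nat_lit 0, nat_lit 0, nat_lit 0, nat_lit 0, nat_lit 0, nat_lit 0, nat_lit 0, [],
 ⟨p089_k9, nat_lit 0, nat_lit 0, nat_lit 152, nat_lit 0, nat_lit 78163, [nat_lit 2032000001, nat_lit 6250000000, nat_lit 9842000000], [], [nat_lit 26835058751, nat_lit 27579322006, nat_lit 34356200619, nat_lit 34831990106, nat_lit 29346448815, nat_lit 29923974109, nat_lit 35859278739, nat_lit 36420371142], nat_lit 1271250, nat_lit 1271250, nat_lit 1271250, nat_lit 1271250, nat_lit 1100001, nat_lit 2093250, [nat_lit 490000, nat_lit 1427500, nat_lit 1271250], [nat_lit 61, nat_lit 40, nat_lit 40, nat_lit 80, nat_lit 1, nat_lit 401, nat_lit 175, nat_lit 10]⟩, ⟨p089_k16, nat_lit 0, nat_lit 0, nat_lit 215, nat_lit 0, nat_lit 120501, [nat_lit 4688000000, nat_lit 9842000000, nat_lit 14058000000], [],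 [nat_lit 25173043450, nat_lit 26008280900, nat_lit 32826351200, nat_lit 33233540570, nat_lit 30821310721, nat_lit 31218388480, nat_lit 36780090578, nat_lit 37282333302], nat_lit 1271250, nat_lit 1271250, nat_lit 1271250, nat_lit 1271250, nat_lit 1100001, nat_lit 2744000, [nat_lit 1100000, nat_lit 2127500, nat_lit 1271250], [nat_lit 56, nat_lit 40, nat_lit 40, nat_lit 80, nat_lit 32, nat_lit 538, nat_lit 300, nat_lit 12]⟩,
 zbF0, [⟨nat_lit 4, nat_lit 100, nat_lit 71, nat_lit 89, nat_lit 446855358⟩, ⟨nat_lit 7, nat_lit 82, nat_lit 100, nat_lit 92, nat_lit 367228850⟩]⟩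
noncomputable def p089_l25 : Lf2 := ⟨nat_lit 0, nat_lit 30, [nat_lit 15, nat_lit 5, nat_lit 5, nat_lit 20], false, nat_lit 160, nat_lit 264, nat_lit 160, nat_lit 352, ⟨nat_lit 1000, nat_lit 0, nat_lit 0, nat_lit 0, nat_lit 0, nat_lit 0, nat_lit 0, nat_lit 0, nat_lit 0, nat_lit 0, nat_lit 0, nat_lit 0, nat_lit 0, nat_lit 0, nat_lit 0, nat_lit 0, false, false⟩,
 nat_lit 14173, nat_lit 0, nat_lit 0, nat_lit 7393, nat_lit 8210, nat_lit 8249, nat_lit 195, nat_lit 0, nat_lit 0, nat_lit 713, nat_lit 0, nat_lit 0, nat_lit 0, nat_lit 0, nat_lit 0, nat_lit 0, nat_lit 0, nat_lit 0, [],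
 ⟨p089_k11, nat_lit 0, nat_lit 0, nat_lit 168, nat_lit 0, nat_lit 129630, [nat_lit 2032000001, nat_lit 6250000000, nat_lit 9842000000], [], [nat_lit 27967775810, nat_lit 28728412360, nat_lit 35094226216, nat_lit 35587511265, nat_lit 29883088409, nat_lit 30490792841, nat_lit 36088243715, nat_lit 36688522480], nat_lit 1271250, nat_lit 1271250, nat_lit 1271250, nat_lit 1271250, nat_lit 1100001, nat_lit 1990500, [nat_lit 490000, nat_lit 1427500, nat_lit 1271250], [nat_lit 61, nat_lit 40, nat_lit 40, nat_lit 80, nat_lit 1, nat_lit 401, nat_lit 175, nat_lit 10]⟩, ⟨p089_k16, nat_lit 0, nat_lit 0, nat_lit 248, nat_lit 0, nat_lit 209428, [nat_lit 4688000000, nat_lit 9842000000, nat_lit 14058000000], [], [nat_lit 25383799122, nat_lit 26208676084, nat_lit 32660481178, nat_lit 33080828246, nat_lit 30996925300, nat_lit 31398848810, nat_lit 36391879539, nat_lit 36665355418], nat_lit 1271250, nat_lit 1271250, nat_lit 1271250,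 nat_lit 1271250, nat_lit 1100001, nat_lit 2744000, [nat_lit 1100000, nat_lit 2127500, nat_lit 1271250], [nat_lit 56, nat_lit 40, nat_lit 40, nat_lit 80, nat_lit 32, nat_lit 538, nat_lit 300, nat_lit 12]⟩,
 zbF0, [⟨nat_lit 4, nat_lit 100, nat_lit 64, nat_lit 88, nat_lit 524821769⟩, ⟨nat_lit 7, nat_lit 82, nat_lit 100, nat_lit 92, nat_lit 353866720⟩]⟩
noncomputable def b_V_800_600_20_54 : St := ⟨true, nat_lit 1, nat_lit 1, nat_lit 1, nat_lit 120, nat_lit 320, nat_lit 360, nat_lit 240, nat_lit 280, nat_lit 240, nat_lit 396, nat_lit 80, nat_lit 120, nat_lit 0, nat_lit 300, nat_lit 0, nat_lit 364, nat_lit 80, nat_lit 120, nat_lit 0, nat_lit 0, nat_lit 0, nat_lit 0⟩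
theorem d_V_800_600_20_54 (h : EB TB.env) : Dead b_V_800_600_20_54 := chkB_sound0 h (T :=
(.spl (nat_lit 4) (nat_lit 160)
(.spl (nat_lit 0) (nat_lit 340)
(.leaf p089_l15)
(.trX (nat_lit 13) (nat_lit 78) (nat_lit 39) (nat_lit 100) (nat_lit 388) (.spl (nat_lit 5) (nat_lit 160)
(.leaf p089_l16)
(.spl (nat_lit 0) (nat_lit 350)
(.leaf p089_l17)
(.trX (nat_lit 13) (nat_lit 72) (nat_lit 46) (nat_lit 100) (nat_lit 384) (.trZ (nat_lit 3) (nat_lit 100) (nat_lit 83) (nat_lit 25) (nat_lit 4) (.leaf p089_l18)))))))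
(.spl (nat_lit 5) (nat_lit 160)
(.leaf p089_l19)
(.spl (nat_lit 0) (nat_lit 340)
(.leaf p089_l20)
(.trX (nat_lit 13) (nat_lit 78) (nat_lit 39) (nat_lit 100) (nat_lit 388) (.trX (nat_lit 16) (nat_lit 77) (nat_lit 100) (nat_lit 99) (nat_lit 276) (.spl (nat_lit 1) (nat_lit 260)
(.trX (nat_lit 13) (nat_lit 75) (nat_lit 48) (nat_lit 100) (nat_lit 380) (.spl (nat_lit 6) (nat_lit 104)
(.spl (nat_lit 0) (nat_lit 350)
(.leaf p089_l21)
(.trX (nat_lit 13) (nat_lit 69) (nat_lit 54) (nat_lit 100) (nat_lit 372) (.trX (nat_lit 16) (nat_lit 69) (nat_lit 100) (nat_lit 96) (nat_lit 264) (.leaf p089_l22))))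
(.leaf p089_l23)))
(.trX (nat_lit 19) (nat_lit 100) (nat_lit 69) (nat_lit 96) (nat_lit 352) (.spl (nat_lit 0) (nat_lit 350)
(.leaf p089_l24)
(.trX (nat_lit 13) (nat_lit 72) (nat_lit 46) (nat_lit 100) (nat_lit 384) (.trX (nat_lit 16) (nat_lit 69) (nat_lit 100) (nat_lit 96) (nat_lit 264) (.leaf p089_l25)))))))))))) (by decide +kernel)
noncomputable def p089_l26 : Lf2 := ⟨nat_lit 0, nat_lit 30, [nat_lit 15, nat_lit 5, nat_lit 5, nat_lit 20], true, nat_lit 0, nat_lit 300, nat_lit 0, nat_lit 364, ⟨nat_lit 0, nat_lit 1000, nat_lit 0, nat_lit 6, nat_lit 194, nat_lit 1000, nat_lit 111, nat_lit 0, nat_lit 0, nat_lit 0, nat_lit 0, nat_lit 0, nat_lit 0, nat_lit 0, nat_lit 0, nat_lit 5000000, false, false⟩,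
 nat_lit 0, nat_lit 8830, nat_lit 0, nat_lit 8509, nat_lit 6622, nat_lit 0, nat_lit 0, nat_lit 0, nat_lit 0, nat_lit 0, nat_lit 0, nat_lit 0, nat_lit 0, nat_lit 0, nat_lit 0, nat_lit 408400, nat_lit 0, nat_lit 0, [(nat_lit 20, [(nat_lit 1, nat_lit 986), (nat_lit 2, nat_lit 14)])],
 ⟨p089_k17, nat_lit 0, nat_lit 0, nat_lit 337, nat_lit 0, nat_lit 39526, [nat_lit 2303136801, nat_lit 1607327600], [], [nat_lit 29998144229, nat_lit 31106995874, nat_lit 28846685944, nat_lit 30165047680, nat_lit 27514114802, nat_lit 28686523215, nat_lit 29263677844, nat_lit 27486565555], nat_lit 1271250, nat_lit 1271250, nat_lit 382400, nat_lit 1731000, nat_lit 0, nat_lit 2118750, [nat_lit 490000, nat_lit 2365000], [nat_lit 190, nat_lit 40, nat_lit 40, nat_lit 80, nat_lit 192, nat_lit 373, nat_lit 150, nat_lit 10]⟩, C1.Rw.none,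
 ⟨nat_lit 3872, nat_lit 4473, ⟨.ofNat (nat_lit 311945), .ofNat (nat_lit 611083), .ofNat (nat_lit 355043), .ofNat (nat_lit 654181), .ofNat (nat_lit 324151), .ofNat (nat_lit 608080), .ofNat (nat_lit 367703), .ofNat (nat_lit 651631)⟩, ⟨.ofNat (nat_lit 0), .ofNat (nat_lit 540545), .ofNat (nat_lit 0), .ofNat (nat_lit 583678), .ofNat (nat_lit 0), .ofNat (nat_lit 530543), .ofNat (nat_lit 0), .ofNat (nat_lit 574129)⟩⟩, [⟨nat_lit 4, nat_lit 100, nat_lit 81, nat_lit 92, nat_lit 29047493⟩]⟩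
noncomputable def p089_l27 : Lf2 := ⟨nat_lit 0, nat_lit 30, [nat_lit 15, nat_lit 5, nat_lit 5, nat_lit 20], true, nat_lit 0, nat_lit 276, nat_lit 0, nat_lit 364, ⟨nat_lit 0, nat_lit 1000, nat_lit 0, nat_lit 6, nat_lit 204, nat_lit 1000, nat_lit 102, nat_lit 0, nat_lit 0, nat_lit 0, nat_lit 0, nat_lit 0, nat_lit 0, nat_lit 0, nat_lit 0, nat_lit 5000000, false, false⟩,
 nat_lit 0, nat_lit 7245, nat_lit 0, nat_lit 1542, nat_lit 5864, nat_lit 0, nat_lit 0, nat_lit 0, nat_lit 0, nat_lit 0, nat_lit 0, nat_lit 0, nat_lit 0, nat_lit 0, nat_lit 0, nat_lit 400000, nat_lit 0, nat_lit 0, [(nat_lit 23, [(nat_lit 1, nat_lit 1000)])],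
 ⟨p089_k6, nat_lit 0, nat_lit 0, nat_lit 330, nat_lit 0, nat_lit 210758, [nat_lit 1356000000, nat_lit 1626400000, nat_lit 1279600000], [], [nat_lit 28942817764, nat_lit 27266851149, nat_lit 27087099776, nat_lit 28727498112, nat_lit 24761053522, nat_lit 26034612602, nat_lit 29769708259, nat_lit 27272645244], nat_lit 1271250, nat_lit 1271250, nat_lit 545600, nat_lit 1744500, nat_lit 0, nat_lit 1949250, [nat_lit 490000, nat_lit 1100000, nat_lit 2127500], [nat_lit 27, nat_lit 40, nat_lit 40, nat_lit 80, nat_lit 13, nat_lit 373, nat_lit 150, nat_lit 11]⟩, C1.Rw.none,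
 ⟨nat_lit 3162, nat_lit 3873, ⟨.ofNat (nat_lit 362778), .ofNat (nat_lit 608082), .ofNat (nat_lit 406307), .ofNat (nat_lit 651611), .ofNat (nat_lit 373492), .ofNat (nat_lit 605237), .ofNat (nat_lit 417744), .ofNat (nat_lit 649490)⟩, ⟨.ofNat (nat_lit 0), .ofNat (nat_lit 491830), .ofNat (nat_lit 0), .ofNat (nat_lit 535416), .ofNat (nat_lit 0), .ofNat (nat_lit 482881), .ofNat (nat_lit 0), .ofNat (nat_lit 527190)⟩⟩, [⟨nat_lit 4, nat_lit 100, nat_lit 67, nat_lit 88, nat_lit 65011123⟩]⟩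
noncomputable def p089_l28 : Lf2 := ⟨nat_lit 0, nat_lit 30, [nat_lit 15, nat_lit 5, nat_lit 5, nat_lit 20], false, nat_lit 0, nat_lit 160, nat_lit 0, nat_lit 364, ⟨nat_lit 441, nat_lit 559, nat_lit 0, nat_lit 6, nat_lit 304, nat_lit 559, nat_lit 65, nat_lit 0, nat_lit 0, nat_lit 0, nat_lit 0, nat_lit 0, nat_lit 0, nat_lit 0, nat_lit 0, nat_lit 5000000, true, true⟩,
 nat_lit 0, nat_lit 6137, nat_lit 0, nat_lit 17095, nat_lit 4602, nat_lit 3446, nat_lit 391, nat_lit 0, nat_lit 0, nat_lit 384, nat_lit 0, nat_lit 0, nat_lit 0, nat_lit 0, nat_lit 0, nat_lit 251800, nat_lit 0, nat_lit 0, [(nat_lit 20, [(nat_lit 1, nat_lit 512), (nat_lit 2, nat_lit 47)])],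
 ⟨p089_k8, nat_lit 0, nat_lit 0, nat_lit 251, nat_lit 0, nat_lit 39526, [nat_lit 1691953200, nat_lit 3221631520, nat_lit 5801383200], [], [nat_lit 26926232421, nat_lit 27935465705, nat_lit 33813892781, nat_lit 35023812561, nat_lit 24631143333, nat_lit 25496119757, nat_lit 29901599781, nat_lit 30522493828], nat_lit 1271250, nat_lit 1271250, nat_lit 1271250, nat_lit 1271250, nat_lit 0, nat_lit 1100001, [nat_lit 490000, nat_lit 1100000, nat_lit 2470000], [nat_lit 75, nat_lit 40, nat_lit 40, nat_lit 80, nat_lit 65, nat_lit 373, nat_lit 150, nat_lit 9]⟩, ⟨p089_k7, nat_lit 0, nat_lit 0, nat_lit 308, nat_lit 0, nat_lit 0, [nat_lit 2067408000, nat_lit 3513888000, nat_lit 7232400000], [], [nat_lit 16451787328, nat_lit 16914200600, nat_lit 19360429485, nat_lit 19653015392, nat_lit 15164203591, nat_lit 15296906911, nat_lit 16590156312, nat_lit 16625706389], nat_lit 0, nat_lit 0, nat_lit 0, nat_lit 0, nat_lit 0, nat_lit 0,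 [], [nat_lit 122, nat_lit 40, nat_lit 40, nat_lit 80, nat_lit 111, nat_lit 538, nat_lit 300, nat_lit 11]⟩,
 ⟨nat_lit 3872, nat_lit 4473, ⟨.ofNat (nat_lit 611083), .ofNat (nat_lit 876219), .ofNat (nat_lit 654181), .ofNat (nat_lit 919326), .ofNat (nat_lit 608080), .ofNat (nat_lit 859735), .ofNat (nat_lit 651631), .ofNat (nat_lit 903295)⟩, ⟨.ofNat (nat_lit 0), .ofNat (nat_lit 302621), .ofNat (nat_lit 0), .ofNat (nat_lit 345754), .ofNat (nat_lit 0), .ofNat (nat_lit 304717), .ofNat (nat_lit 0), .ofNat (nat_lit 348304)⟩⟩, [⟨nat_lit 22, nat_lit 84, nat_lit 100, nat_lit 84, nat_lit 63691493⟩]⟩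
noncomputable def p089_l29 : Lf2 := ⟨nat_lit 0, nat_lit 30, [nat_lit 15, nat_lit 5, nat_lit 5, nat_lit 20], false, nat_lit 0, nat_lit 160, nat_lit 0, nat_lit 364, ⟨nat_lit 429, nat_lit 571, nat_lit 0, nat_lit 6, nat_lit 298, nat_lit 571, nat_lit 65, nat_lit 0, nat_lit 0, nat_lit 0, nat_lit 0, nat_lit 0, nat_lit 0, nat_lit 0, nat_lit 0, nat_lit 5000000, true, true⟩,
 nat_lit 0, nat_lit 5280, nat_lit 0, nat_lit 4237, nat_lit 4274, nat_lit 3962, nat_lit 268, nat_lit 0, nat_lit 0, nat_lit 243, nat_lit 0, nat_lit 0, nat_lit 0, nat_lit 0, nat_lit 0, nat_lit 238600, nat_lit 0, nat_lit 0, [(nat_lit 23, [(nat_lit 1, nat_lit 554), (nat_lit 2, nat_lit 17)])],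
 ⟨p089_k9, nat_lit 0, nat_lit 0, nat_lit 314, nat_lit 0, nat_lit 210758, [nat_lit 1658096201, nat_lit 3515398701, nat_lit 4813911600], [], [nat_lit 27203579301, nat_lit 28212321929, nat_lit 33470932653, nat_lit 34676218524, nat_lit 25375119543, nat_lit 26143588915, nat_lit 30032180407, nat_lit 30686181740], nat_lit 1271250, nat_lit 1271250, nat_lit 1271250, nat_lit 1271250, nat_lit 0, nat_lit 1100001, [nat_lit 490000, nat_lit 1427500, nat_lit 1271250], [nat_lit 61, nat_lit 40, nat_lit 40, nat_lit 80, nat_lit 1, nat_lit 373, nat_lit 150, nat_lit 10]⟩, ⟨p089_k10, nat_lit 0, nat_lit 0, nat_lit 320, nat_lit 0, nat_lit 0, [nat_lit 2011152000, nat_lit 4222218000, nat_lit 7035600000], [], [nat_lit 17809445681, nat_lit 18194424581, nat_lit 20270245672, nat_lit 20558693432, nat_lit 15440508530, nat_lit 15492654740, nat_lit 16699586651, nat_lit 16694508214], nat_lit 0, nat_lit 0, nat_lit 0, nat_lit 0, nat_lit 0, nat_lit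 0, [], [nat_lit 83, nat_lit 40, nat_lit 40, nat_lit 80, nat_lit 73, nat_lit 538, nat_lit 300, nat_lit 11]⟩,
 ⟨nat_lit 3162, nat_lit 3873, ⟨.ofNat (nat_lit 608082), .ofNat (nat_lit 846836), .ofNat (nat_lit 651611), .ofNat (nat_lit 890423), .ofNat (nat_lit 605237), .ofNat (nat_lit 830789), .ofNat (nat_lit 649490), .ofNat (nat_lit 875099)⟩, ⟨.ofNat (nat_lit 0), .ofNat (nat_lit 304717), .ofNat (nat_lit 0), .ofNat (nat_lit 348304), .ofNat (nat_lit 0), .ofNat (nat_lit 306116), .ofNat (nat_lit 0), .ofNat (nat_lit 350426)⟩⟩, [⟨nat_lit 10, nat_lit 100, nat_lit 53, nat_lit 80, nat_lit 73242691⟩]⟩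
noncomputable def p089_l30 : Lf2 := ⟨nat_lit 0, nat_lit 22, [nat_lit 146, nat_lit 5, nat_lit 5, nat_lit 20], false, nat_lit 160, nat_lit 300, nat_lit 0, nat_lit 364, ⟨nat_lit 747, nat_lit 253, nat_lit 0, nat_lit 6, nat_lit 304, nat_lit 253, nat_lit 177, nat_lit 0, nat_lit 0, nat_lit 0, nat_lit 0, nat_lit 0, nat_lit 0, nat_lit 0, nat_lit 0, nat_lit 5000000, true, true⟩,
 nat_lit 0, nat_lit 8017, nat_lit 0, nat_lit 14900, nat_lit 6012, nat_lit 6736, nat_lit 400, nat_lit 0, nat_lit 0, nat_lit 396, nat_lit 0, nat_lit 0, nat_lit 0, nat_lit 0, nat_lit 0, nat_lit 101200, nat_lit 0, nat_lit 0, [(nat_lit 20, [(nat_lit 1, nat_lit 253)])],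
 ⟨p089_k18, nat_lit 0, nat_lit 0, nat_lit 123, nat_lit 0, nat_lit 32785, [nat_lit 1911015401, nat_lit 5188867400, nat_lit 7792295200], [], [nat_lit 23961162752, nat_lit 25233380472, nat_lit 31496323042, nat_lit 32324927122, nat_lit 27636046892, nat_lit 28583787722, nat_lit 33985723943, nat_lit 34884247982], nat_lit 1271250, nat_lit 1271250, nat_lit 1271250, nat_lit 1271250, nat_lit 1100001, nat_lit 2298750, [nat_lit 490000, nat_lit 1427500, nat_lit 1271250], [nat_lit 61, nat_lit 40, nat_lit 40, nat_lit 80, nat_lit 1, nat_lit 401, nat_lit 175, nat_lit 10]⟩, ⟨p089_k19, nat_lit 0, nat_lit 0, nat_lit 291, nat_lit 0, nat_lit 0, [nat_lit 3501936000, nat_lit 7351974000, nat_lit 10501326000], [], [nat_lit 26447485368, nat_lit 27963998676, nat_lit 34295589229, nat_lit 34963575638, nat_lit 25624070519, nat_lit 26164644238, nat_lit 29191055396, nat_lit 29298496854], nat_lit 0, nat_lit 0, nat_lit 0, nat_lit 0, nat_lit 0,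 nat_lit 0, [], [nat_lit 56, nat_lit 40, nat_lit 40, nat_lit 80, nat_lit 32, nat_lit 538, nat_lit 300, nat_lit 12]⟩,
 ⟨nat_lit 3872, nat_lit 4473, ⟨.ofNat (nat_lit 611083), .ofNat (nat_lit 876219), .ofNat (nat_lit 654181), .ofNat (nat_lit 919326), .ofNat (nat_lit 608080), .ofNat (nat_lit 859735), .ofNat (nat_lit 651631), .ofNat (nat_lit 903295)⟩, ⟨.ofNat (nat_lit 302621), .ofNat (nat_lit 540545), .ofNat (nat_lit 345754), .ofNat (nat_lit 583678), .ofNat (nat_lit 304717), .ofNat (nat_lit 530543), .ofNat (nat_lit 348304), .ofNat (nat_lit 574129)⟩⟩, [⟨nat_lit 4, nat_lit 100, nat_lit 81, nat_lit 92, nat_lit 375004862⟩, ⟨nat_lit 19, nat_lit 100, nat_lit 77, nat_lit 91, nat_lit 75511706⟩]⟩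
noncomputable def p089_l31 : Lf2 := ⟨nat_lit 1, nat_lit 30, [nat_lit 15, nat_lit 5, nat_lit 5, nat_lit 20], false, nat_lit 160, nat_lit 300, nat_lit 0, nat_lit 364, zbN0,
 nat_lit 0, nat_lit 0, nat_lit 0, nat_lit 0, nat_lit 0, nat_lit 0, nat_lit 0, nat_lit 0, nat_lit 0, nat_lit 0, nat_lit 0, nat_lit 0, nat_lit 0, nat_lit 0, nat_lit 0, nat_lit 0, nat_lit 0, nat_lit 0, [],
 C1.Rw.none, C1.Rw.none,
 zbF0, []⟩
noncomputable def p089_l32 : Lf2 := ⟨nat_lit 0, nat_lit 30, [nat_lit 15, nat_lit 5, nat_lit 5, nat_lit 20], true, nat_lit 160, nat_lit 276, nat_lit 0, nat_lit 364, ⟨nat_lit 0, nat_lit 1000, nat_lit 0, nat_lit 6, nat_lit 291, nat_lit 1000, nat_lit 167, nat_lit 0, nat_lit 0, nat_lit 0, nat_lit 0, nat_lit 0, nat_lit 0, nat_lit 0, nat_lit 0, nat_lit 5000000, true, true⟩,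
 nat_lit 0, nat_lit 3836, nat_lit 0, nat_lit 7632, nat_lit 3105, nat_lit 0, nat_lit 97, nat_lit 0, nat_lit 0, nat_lit 0, nat_lit 0, nat_lit 0, nat_lit 0, nat_lit 0, nat_lit 0, nat_lit 400000, nat_lit 0, nat_lit 0, [(nat_lit 23, [(nat_lit 1, nat_lit 1000)])],
 ⟨p089_k9, nat_lit 0, nat_lit 0, nat_lit 166, nat_lit 0, nat_lit 125094, [nat_lit 1360600001, nat_lit 1554600001, nat_lit 1260466667], [], [nat_lit 23655446893, nat_lit 24549518433, nat_lit 28424872688, nat_lit 29113808982, nat_lit 26192184040, nat_lit 26934466000, nat_lit 30177319814, nat_lit 30761749862], nat_lit 1271250, nat_lit 1271250, nat_lit 1271250, nat_lit 1271250, nat_lit 1100001, nat_lit 2093250, [nat_lit 490000, nat_lit 1427500, nat_lit 1271250], [nat_lit 61, nat_lit 40, nat_lit 40, nat_lit 80, nat_lit 1, nat_lit 401, nat_lit 175, nat_lit 10]⟩, C1.Rw.none,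
 ⟨nat_lit 3162, nat_lit 3873, ⟨.ofNat (nat_lit 608082), .ofNat (nat_lit 833932), .ofNat (nat_lit 629847), .ofNat (nat_lit 855725), .ofNat (nat_lit 605237), .ofNat (nat_lit 818598), .ofNat (nat_lit 627364), .ofNat (nat_lit 840753)⟩, ⟨.ofNat (nat_lit 304717), .ofNat (nat_lit 491830), .ofNat (nat_lit 348304), .ofNat (nat_lit 535416), .ofNat (nat_lit 306116), .ofNat (nat_lit 482881), .ofNat (nat_lit 350426), .ofNat (nat_lit 527190)⟩⟩, [⟨nat_lit 13, nat_lit 68, nat_lit 58, nat_lit 100, nat_lit 331084596⟩, ⟨nat_lit 4, nat_lit 100, nat_lit 67, nat_lit 88, nat_lit 287750895⟩]⟩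
noncomputable def p089_l33 : Lf2 := ⟨nat_lit 0, nat_lit 30, [nat_lit 15, nat_lit 5, nat_lit 5, nat_lit 20], false, nat_lit 160, nat_lit 276, nat_lit 0, nat_lit 352, ⟨nat_lit 660, nat_lit 340, nat_lit 0, nat_lit 6, nat_lit 303, nat_lit 340, nat_lit 168, nat_lit 0, nat_lit 0, nat_lit 0, nat_lit 0, nat_lit 0, nat_lit 0, nat_lit 0, nat_lit 0, nat_lit 5000000, true, true⟩,
 nat_lit 0, nat_lit 5009, nat_lit 0, nat_lit 15398, nat_lit 4054, nat_lit 5543, nat_lit 322, nat_lit 0, nat_lit 0, nat_lit 383, nat_lit 0, nat_lit 0, nat_lit 0, nat_lit 0, nat_lit 0, nat_lit 277000, nat_lit 0, nat_lit 0, [(nat_lit 23, [(nat_lit 1, nat_lit 105), (nat_lit 2, nat_lit 235)])],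
 ⟨p089_k9, nat_lit 0, nat_lit 0, nat_lit 165, nat_lit 0, nat_lit 121266, [nat_lit 1934572001, nat_lit 3913619500, nat_lit 5163980000], [], [nat_lit 24006349331, nat_lit 24502993127, nat_lit 29654395617, nat_lit 30049165329, nat_lit 26519231750, nat_lit 26937159033, nat_lit 31502943239, nat_lit 31854409520], nat_lit 1271250, nat_lit 1271250, nat_lit 1271250, nat_lit 1271250, nat_lit 1100001, nat_lit 2093250, [nat_lit 490000, nat_lit 1427500, nat_lit 1271250], [nat_lit 61, nat_lit 40, nat_lit 40, nat_lit 80, nat_lit 1, nat_lit 401, nat_lit 175, nat_lit 10]⟩, ⟨p089_k16, nat_lit 0, nat_lit 0, nat_lit 287, nat_lit 0, nat_lit 0, [nat_lit 3094080000, nat_lit 6495720000, nat_lit 9278280000], [], [nat_lit 22716809774, nat_lit 23365979000, nat_lit 28628788952, nat_lit 28944090987, nat_lit 21571237559, nat_lit 21833757242, nat_lit 24423899226, nat_lit 24507713581], nat_lit 0, nat_lit 0, nat_lit 0, nat_lit 0, nat_lit 0, nat_lit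 0, [], [nat_lit 56, nat_lit 40, nat_lit 40, nat_lit 80, nat_lit 32, nat_lit 538, nat_lit 300, nat_lit 12]⟩,
 ⟨nat_lit 3535, nat_lit 3873, ⟨.ofNat (nat_lit 629888), .ofNat (nat_lit 868630), .ofNat (nat_lit 651675), .ofNat (nat_lit 890423), .ofNat (nat_lit 628606), .ofNat (nat_lit 860835), .ofNat (nat_lit 650552), .ofNat (nat_lit 882788)⟩, ⟨.ofNat (nat_lit 304717), .ofNat (nat_lit 491830), .ofNat (nat_lit 348304), .ofNat (nat_lit 535416), .ofNat (nat_lit 305521), .ofNat (nat_lit 487529), .ofNat (nat_lit 349427), .ofNat (nat_lit 531435)⟩⟩, [⟨nat_lit 16, nat_lit 71, nat_lit 100, nat_lit 89, nat_lit 397388448⟩, ⟨nat_lit 7, nat_lit 82, nat_lit 100, nat_lit 92, nat_lit 70183410⟩]⟩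
noncomputable def p089_l34 : Lf2 := ⟨nat_lit 0, nat_lit 30, [nat_lit 15, nat_lit 5, nat_lit 5, nat_lit 20], false, nat_lit 160, nat_lit 264, nat_lit 0, nat_lit 352, ⟨nat_lit 677, nat_lit 323, nat_lit 0, nat_lit 6, nat_lit 300, nat_lit 323, nat_lit 163, nat_lit 0, nat_lit 0, nat_lit 0, nat_lit 0, nat_lit 0, nat_lit 0, nat_lit 0, nat_lit 0, nat_lit 5000000, true, true⟩,
 nat_lit 0, nat_lit 4656, nat_lit 0, nat_lit 13775, nat_lit 3911, nat_lit 5724, nat_lit 502, nat_lit 0, nat_lit 0, nat_lit 396, nat_lit 0, nat_lit 0, nat_lit 0, nat_lit 0, nat_lit 0, nat_lit 80750, nat_lit 0, nat_lit 0, [(nat_lit 23, [(nat_lit 0, nat_lit 323)])],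
 ⟨p089_k11, nat_lit 0, nat_lit 0, nat_lit 190, nat_lit 0, nat_lit 200322, [nat_lit 1884712001, nat_lit 4984098401, nat_lit 7674799200], [], [nat_lit 24216940535, nat_lit 24706109149, nat_lit 29443758546, nat_lit 29812029959, nat_lit 26308277103, nat_lit 26718078510, nat_lit 31147608249, nat_lit 31580444145], nat_lit 1271250, nat_lit 1271250, nat_lit 1271250, nat_lit 1271250, nat_lit 1100001, nat_lit 1990500, [nat_lit 490000, nat_lit 1427500, nat_lit 1271250], [nat_lit 61, nat_lit 40, nat_lit 40, nat_lit 80, nat_lit 1, nat_lit 401, nat_lit 175, nat_lit 10]⟩, ⟨p089_k16, nat_lit 0, nat_lit 0, nat_lit 286, nat_lit 0, nat_lit 0, [nat_lit 3173776000, nat_lit 6663034000, nat_lit 9517266000], [], [nat_lit 23284605746, nat_lit 23952440236, nat_lit 29165337759, nat_lit 29498519538, nat_lit 22068438372, nat_lit 22337514669, nat_lit 24887917195, nat_lit 24983561139], nat_lit 0, nat_lit 0, nat_lit 0, nat_lit 0, nat_lit 0,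 nat_lit 0, [], [nat_lit 56, nat_lit 40, nat_lit 40, nat_lit 80, nat_lit 32, nat_lit 538, nat_lit 300, nat_lit 12]⟩,
 ⟨nat_lit 3162, nat_lit 3536, ⟨.ofNat (nat_lit 628604), .ofNat (nat_lit 854559), .ofNat (nat_lit 650549), .ofNat (nat_lit 876512), .ofNat (nat_lit 627403), .ofNat (nat_lit 846849), .ofNat (nat_lit 649550), .ofNat (nat_lit 869004)⟩, ⟨.ofNat (nat_lit 305521), .ofNat (nat_lit 468701), .ofNat (nat_lit 349427), .ofNat (nat_lit 512606), .ofNat (nat_lit 306116), .ofNat (nat_lit 464594), .ofNat (nat_lit 350426), .ofNat (nat_lit 508904)⟩⟩, [⟨nat_lit 4, nat_lit 100, nat_lit 64, nat_lit 88, nat_lit 460164352⟩, ⟨nat_lit 7, nat_lit 82, nat_lit 100, nat_lit 92, nat_lit 72439760⟩]⟩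
noncomputable def p089_l35 : Lf2 := ⟨nat_lit 0, nat_lit 30, [nat_lit 15, nat_lit 5, nat_lit 5, nat_lit 20], false, nat_lit 0, nat_lit 300, nat_lit 0, nat_lit 364, ⟨nat_lit 0, nat_lit 1000, nat_lit 0, nat_lit 6, nat_lit 195, nat_lit 1000, nat_lit 110, nat_lit 0, nat_lit 0, nat_lit 0, nat_lit 0, nat_lit 0, nat_lit 0, nat_lit 0, nat_lit 0, nat_lit 5000000, false, false⟩,
 nat_lit 0, nat_lit 8109, nat_lit 0, nat_lit 0, nat_lit 6081, nat_lit 0, nat_lit 0, nat_lit 0, nat_lit 0, nat_lit 0, nat_lit 0, nat_lit 0, nat_lit 0, nat_lit 0, nat_lit 0, nat_lit 408400, nat_lit 0, nat_lit 0, [(nat_lit 20, [(nat_lit 1, nat_lit 986), (nat_lit 2, nat_lit 14)]), (nat_lit 23, [(nat_lit 1, nat_lit 986), (nat_lit 2, nat_lit 14)])],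
 ⟨p089_k12, nat_lit 0, nat_lit 0, nat_lit 385, nat_lit 0, nat_lit 149808, [nat_lit 1563989201, nat_lit 2026918000, nat_lit 1521132000], [], [nat_lit 30563072509, nat_lit 31323856014, nat_lit 28341733328, nat_lit 31042730352, nat_lit 27409669757, nat_lit 29655785895, nat_lit 29394512992, nat_lit 28566885888], nat_lit 1271250, nat_lit 1271250, nat_lit 382400, nat_lit 1731000, nat_lit 0, nat_lit 2118750, [nat_lit 490000, nat_lit 1427500, nat_lit 1271250], [nat_lit 72, nat_lit 40, nat_lit 40, nat_lit 80, nat_lit 12, nat_lit 373, nat_lit 150, nat_lit 10]⟩, ⟨p089_k10, nat_lit 0, nat_lit 0, nat_lit 613, nat_lit 0, nat_lit 238404, [nat_lit 0, nat_lit 0, nat_lit 0], [], [nat_lit 0, nat_lit 0, nat_lit 0, nat_lit 0, nat_lit 0, nat_lit 0, nat_lit 0, nat_lit 0], nat_lit 1271250, nat_lit 1271250, nat_lit 382400, nat_lit 1731000, nat_lit 0, nat_lit 2570750, [nat_lit 1100000, nat_lit 2127500, nat_lit 1271250], [nat_lit 83, nat_lit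 40, nat_lit 40, nat_lit 80, nat_lit 73, nat_lit 456, nat_lit 225, nat_lit 10]⟩,
 ⟨nat_lit 3162, nat_lit 4473, ⟨.ofNat (nat_lit 311562), .ofNat (nat_lit 611007), .ofNat (nat_lit 354514), .ofNat (nat_lit 653959), .ofNat (nat_lit 336623), .ofNat (nat_lit 605159), .ofNat (nat_lit 380752), .ofNat (nat_lit 649288)⟩, ⟨.ofNat (nat_lit 0), .ofNat (nat_lit 540545), .ofNat (nat_lit 0), .ofNat (nat_lit 583678), .ofNat (nat_lit 0), .ofNat (nat_lit 519453), .ofNat (nat_lit 0), .ofNat (nat_lit 563762)⟩⟩, [⟨nat_lit 4, nat_lit 100, nat_lit 74, nat_lit 90, nat_lit 41608764⟩]⟩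
noncomputable def p089_l36 : Lf2 := ⟨nat_lit 0, nat_lit 30, [nat_lit 15, nat_lit 5, nat_lit 5, nat_lit 20], false, nat_lit 0, nat_lit 160, nat_lit 0, nat_lit 364, ⟨nat_lit 441, nat_lit 559, nat_lit 0, nat_lit 6, nat_lit 304, nat_lit 559, nat_lit 65, nat_lit 0, nat_lit 0, nat_lit 0, nat_lit 0, nat_lit 0, nat_lit 0, nat_lit 0, nat_lit 0, nat_lit 5000000, true, true⟩,
 nat_lit 6510, nat_lit 0, nat_lit 0, nat_lit 16721, nat_lit 4602, nat_lit 3446, nat_lit 391, nat_lit 0, nat_lit 0, nat_lit 384, nat_lit 0, nat_lit 0, nat_lit 0, nat_lit 0, nat_lit 0, nat_lit 251800, nat_lit 0, nat_lit 0, [(nat_lit 20, [(nat_lit 1, nat_lit 512), (nat_lit 2, nat_lit 47)])],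
 ⟨p089_k8, nat_lit 0, nat_lit 0, nat_lit 239, nat_lit 0, nat_lit 24942, [nat_lit 1691953200, nat_lit 3221631520, nat_lit 5801383200], [], [nat_lit 26926232421, nat_lit 27935465705, nat_lit 33813892781, nat_lit 35023812561, nat_lit 24631143333, nat_lit 25496119757, nat_lit 29901599781, nat_lit 30522493828], nat_lit 1271250, nat_lit 1271250, nat_lit 1271250, nat_lit 1271250, nat_lit 0, nat_lit 1100001, [nat_lit 490000, nat_lit 1100000, nat_lit 2470000], [nat_lit 75, nat_lit 40, nat_lit 40, nat_lit 80, nat_lit 65, nat_lit 373, nat_lit 150, nat_lit 9]⟩, ⟨p089_k7, nat_lit 0, nat_lit 0, nat_lit 401, nat_lit 0, nat_lit 39849, [nat_lit 2067408000, nat_lit 3513888000, nat_lit 7232400000], [], [nat_lit 16451787328, nat_lit 16914200600, nat_lit 19360429485, nat_lit 19653015392, nat_lit 15164203591, nat_lit 15296906911, nat_lit 16590156312, nat_lit 16625706389], nat_lit 1271250, nat_lit 1271250, nat_lit 1271250, nat_lit 1271250,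 nat_lit 0, nat_lit 2570750, [nat_lit 1100000, nat_lit 1785000, nat_lit 1271250], [nat_lit 122, nat_lit 40, nat_lit 40, nat_lit 80, nat_lit 111, nat_lit 538, nat_lit 300, nat_lit 11]⟩,
 ⟨nat_lit 3872, nat_lit 4473, ⟨.ofNat (nat_lit 611083), .ofNat (nat_lit 876219), .ofNat (nat_lit 654181), .ofNat (nat_lit 919326), .ofNat (nat_lit 608080), .ofNat (nat_lit 859735), .ofNat (nat_lit 651631), .ofNat (nat_lit 903295)⟩, ⟨.ofNat (nat_lit 0), .ofNat (nat_lit 302621), .ofNat (nat_lit 0), .ofNat (nat_lit 345754), .ofNat (nat_lit 0), .ofNat (nat_lit 304717), .ofNat (nat_lit 0), .ofNat (nat_lit 348304)⟩⟩, [⟨nat_lit 22, nat_lit 84, nat_lit 100, nat_lit 84, nat_lit 63691493⟩]⟩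
noncomputable def p089_l37 : Lf2 := ⟨nat_lit 0, nat_lit 30, [nat_lit 15, nat_lit 5, nat_lit 5, nat_lit 20], false, nat_lit 0, nat_lit 160, nat_lit 0, nat_lit 364, ⟨nat_lit 451, nat_lit 549, nat_lit 0, nat_lit 6, nat_lit 298, nat_lit 549, nat_lit 65, nat_lit 0, nat_lit 0, nat_lit 0, nat_lit 0, nat_lit 0, nat_lit 0, nat_lit 0, nat_lit 0, nat_lit 5000000, true, true⟩,
 nat_lit 7865, nat_lit 0, nat_lit 0, nat_lit 1652, nat_lit 4623, nat_lit 4163, nat_lit 128, nat_lit 0, nat_lit 0, nat_lit 256, nat_lit 0, nat_lit 0, nat_lit 0, nat_lit 0, nat_lit 0, nat_lit 310800, nat_lit 0, nat_lit 0, [(nat_lit 23, [(nat_lit 1, nat_lit 397), (nat_lit 2, nat_lit 152)])],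
 ⟨p089_k9, nat_lit 0, nat_lit 0, nat_lit 292, nat_lit 0, nat_lit 135846, [nat_lit 1748035001, nat_lit 3193623000, nat_lit 3991745200], [], [nat_lit 28083525450, nat_lit 29127838856, nat_lit 34462679591, nat_lit 35699251299, nat_lit 25788085166, nat_lit 26680235584, nat_lit 30800199057, nat_lit 31568049089], nat_lit 1271250, nat_lit 1271250, nat_lit 1271250, nat_lit 1271250, nat_lit 0, nat_lit 1100001, [nat_lit 490000, nat_lit 1427500, nat_lit 1271250], [nat_lit 61, nat_lit 40, nat_lit 40, nat_lit 80, nat_lit 1, nat_lit 373, nat_lit 150, nat_lit 10]⟩, ⟨p089_k10, nat_lit 0, nat_lit 0, nat_lit 473, nat_lit 0, nat_lit 238404, [nat_lit 2114288000, nat_lit 4438742000, nat_lit 7396400000], [], [nat_lit 18714450084, nat_lit 19119173244, nat_lit 21297472740, nat_lit 21600771022, nat_lit 18124348444, nat_lit 16281839909, nat_lit 17547214219, nat_lit 17552086677], nat_lit 1271250, nat_lit 1271250, nat_lit 1271250, nat_lit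 1271250, nat_lit 0, nat_lit 2570750, [nat_lit 1100000, nat_lit 2127500, nat_lit 1271250], [nat_lit 83, nat_lit 40, nat_lit 40, nat_lit 80, nat_lit 73, nat_lit 538, nat_lit 300, nat_lit 11]⟩,
 ⟨nat_lit 3162, nat_lit 3873, ⟨.ofNat (nat_lit 608082), .ofNat (nat_lit 846836), .ofNat (nat_lit 651611), .ofNat (nat_lit 890423), .ofNat (nat_lit 605237), .ofNat (nat_lit 830789), .ofNat (nat_lit 649490), .ofNat (nat_lit 875099)⟩, ⟨.ofNat (nat_lit 0), .ofNat (nat_lit 304717), .ofNat (nat_lit 0), .ofNat (nat_lit 348304), .ofNat (nat_lit 0), .ofNat (nat_lit 306116), .ofNat (nat_lit 0), .ofNat (nat_lit 350426)⟩⟩, [⟨nat_lit 10, nat_lit 100, nat_lit 53, nat_lit 80, nat_lit 76963395⟩]⟩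
noncomputable def p089_l38 : Lf2 := ⟨nat_lit 0, nat_lit 22, [nat_lit 146, nat_lit 5, nat_lit 5, nat_lit 20], false, nat_lit 160, nat_lit 300, nat_lit 0, nat_lit 364, ⟨nat_lit 802, nat_lit 198, nat_lit 0, nat_lit 6, nat_lit 304, nat_lit 198, nat_lit 177, nat_lit 0, nat_lit 0, nat_lit 0, nat_lit 0, nat_lit 0, nat_lit 0, nat_lit 0, nat_lit 0, nat_lit 5000000, true, true⟩,
 nat_lit 15111, nat_lit 0, nat_lit 0, nat_lit 9347, nat_lit 6239, nat_lit 7999, nat_lit 0, nat_lit 0, nat_lit 0, nat_lit 315, nat_lit 0, nat_lit 0, nat_lit 0, nat_lit 0, nat_lit 0, nat_lit 49500, nat_lit 0, nat_lit 0, [(nat_lit 20, [(nat_lit 0, nat_lit 198)])],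
 ⟨p089_k18, nat_lit 0, nat_lit 0, nat_lit 99, nat_lit 0, nat_lit 18201, [nat_lit 1933475201, nat_lit 5516528800, nat_lit 8538288800], [], [nat_lit 22427707484, nat_lit 23978834908, nat_lit 31636763345, nat_lit 32628953265, nat_lit 27166926481, nat_lit 28314448565, nat_lit 34246243195, nat_lit 35158473096], nat_lit 1271250, nat_lit 1271250, nat_lit 1271250, nat_lit 1271250, nat_lit 1100001, nat_lit 2298750, [nat_lit 490000, nat_lit 1427500, nat_lit 1271250], [nat_lit 61, nat_lit 40, nat_lit 40, nat_lit 80, nat_lit 1, nat_lit 401, nat_lit 175, nat_lit 10]⟩, ⟨p089_k19, nat_lit 0, nat_lit 0, nat_lit 302, nat_lit 0, nat_lit 29697, [nat_lit 3759776000, nat_lit 7893284000, nat_lit 11274516000], [], [nat_lit 32763793820, nat_lit 33721273288, nat_lit 39032273777, nat_lit 39744658079, nat_lit 31856368051, nat_lit 29036858256, nat_lit 32396855316, nat_lit 32442436094], nat_lit 1271250, nat_lit 1271250, nat_lit 1271250, nat_lit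 1271250, nat_lit 0, nat_lit 2570750, [nat_lit 1100000, nat_lit 2127500, nat_lit 1271250], [nat_lit 56, nat_lit 40, nat_lit 40, nat_lit 80, nat_lit 32, nat_lit 538, nat_lit 300, nat_lit 12]⟩,
 ⟨nat_lit 3872, nat_lit 4473, ⟨.ofNat (nat_lit 611083), .ofNat (nat_lit 876219), .ofNat (nat_lit 654181), .ofNat (nat_lit 919326), .ofNat (nat_lit 608080), .ofNat (nat_lit 859735), .ofNat (nat_lit 651631), .ofNat (nat_lit 903295)⟩, ⟨.ofNat (nat_lit 302621), .ofNat (nat_lit 540545), .ofNat (nat_lit 345754), .ofNat (nat_lit 583678), .ofNat (nat_lit 304717), .ofNat (nat_lit 530543), .ofNat (nat_lit 348304), .ofNat (nat_lit 574129)⟩⟩, [⟨nat_lit 4, nat_lit 100, nat_lit 81, nat_lit 92, nat_lit 382788022⟩, ⟨nat_lit 7, nat_lit 77, nat_lit 100, nat_lit 91, nat_lit 62587649⟩]⟩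
noncomputable def p089_l39 : Lf2 := ⟨nat_lit 1, nat_lit 30, [nat_lit 15, nat_lit 5, nat_lit 5, nat_lit 20], false, nat_lit 160, nat_lit 300, nat_lit 0, nat_lit 364, zbN0,
 nat_lit 0, nat_lit 0, nat_lit 0, nat_lit 0, nat_lit 0, nat_lit 0, nat_lit 0, nat_lit 0, nat_lit 0, nat_lit 0, nat_lit 0, nat_lit 0, nat_lit 0, nat_lit 0, nat_lit 0, nat_lit 0, nat_lit 0, nat_lit 0, [],
 C1.Rw.none, C1.Rw.none,
 zbF0, []⟩
noncomputable def p089_l40 : Lf2 := ⟨nat_lit 0, nat_lit 30, [nat_lit 15, nat_lit 5, nat_lit 5, nat_lit 20], true, nat_lit 160, nat_lit 276, nat_lit 0, nat_lit 364, ⟨nat_lit 0, nat_lit 1000, nat_lit 0, nat_lit 6, nat_lit 277, nat_lit 1000, nat_lit 167, nat_lit 0, nat_lit 0, nat_lit 0, nat_lit 0, nat_lit 0, nat_lit 0, nat_lit 0, nat_lit 0, nat_lit 5000000, true, true⟩,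
 nat_lit 0, nat_lit 4048, nat_lit 0, nat_lit 5596, nat_lit 3276, nat_lit 0, nat_lit 132, nat_lit 0, nat_lit 0, nat_lit 0, nat_lit 0, nat_lit 0, nat_lit 0, nat_lit 0, nat_lit 0, nat_lit 400000, nat_lit 0, nat_lit 0, [(nat_lit 23, [(nat_lit 1, nat_lit 1000)])],
 ⟨p089_k9, nat_lit 0, nat_lit 0, nat_lit 178, nat_lit 0, nat_lit 210758, [nat_lit 1360600001, nat_lit 1554600001, nat_lit 1260466667], [], [nat_lit 22981214688, nat_lit 23893163936, nat_lit 25535617663, nat_lit 26353529119, nat_lit 25513653459, nat_lit 26284825335, nat_lit 27660439893, nat_lit 28341110495], nat_lit 1271250, nat_lit 1271250, nat_lit 1271250, nat_lit 1271250, nat_lit 1100001, nat_lit 2093250, [nat_lit 490000, nat_lit 1427500, nat_lit 1271250], [nat_lit 61, nat_lit 40, nat_lit 40, nat_lit 80, nat_lit 1, nat_lit 373, nat_lit 150, nat_lit 10]⟩, C1.Rw.none,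
 ⟨nat_lit 3162, nat_lit 3873, ⟨.ofNat (nat_lit 608082), .ofNat (nat_lit 737150), .ofNat (nat_lit 651611), .ofNat (nat_lit 780717), .ofNat (nat_lit 605237), .ofNat (nat_lit 727168), .ofNat (nat_lit 649490), .ofNat (nat_lit 771459)⟩, ⟨.ofNat (nat_lit 304717), .ofNat (nat_lit 491830), .ofNat (nat_lit 348304), .ofNat (nat_lit 535416), .ofNat (nat_lit 306116), .ofNat (nat_lit 482881), .ofNat (nat_lit 350426), .ofNat (nat_lit 527190)⟩⟩, [⟨nat_lit 4, nat_lit 100, nat_lit 67, nat_lit 88, nat_lit 312435207⟩]⟩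
noncomputable def p089_l41 : Lf2 := ⟨nat_lit 0, nat_lit 30, [nat_lit 15, nat_lit 5, nat_lit 5, nat_lit 20], true, nat_lit 160, nat_lit 276, nat_lit 16, nat_lit 364, ⟨nat_lit 0, nat_lit 1000, nat_lit 0, nat_lit 8, nat_lit 316, nat_lit 1000, nat_lit 167, nat_lit 0, nat_lit 0, nat_lit 0, nat_lit 0, nat_lit 0, nat_lit 0, nat_lit 0, nat_lit 0, nat_lit 5000000, true, true⟩,
 nat_lit 0, nat_lit 3819, nat_lit 0, nat_lit 8140, nat_lit 3091, nat_lit 0, nat_lit 108, nat_lit 0, nat_lit 0, nat_lit 0, nat_lit 0, nat_lit 0, nat_lit 0, nat_lit 0, nat_lit 0, nat_lit 400000, nat_lit 0, nat_lit 0, [(nat_lit 23, [(nat_lit 1, nat_lit 1000)])],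
 ⟨p089_k9, nat_lit 0, nat_lit 0, nat_lit 166, nat_lit 0, nat_lit 125094, [nat_lit 1360600001, nat_lit 1554600001, nat_lit 1260466667], [], [nat_lit 26050601194, nat_lit 26815217032, nat_lit 28301200977, nat_lit 28978563765, nat_lit 28143301500, nat_lit 28785726923, nat_lit 30137103302, nat_lit 30744729852], nat_lit 1271250, nat_lit 1271250, nat_lit 1271250, nat_lit 1271250, nat_lit 1100001, nat_lit 2093250, [nat_lit 490000, nat_lit 1427500, nat_lit 1271250], [nat_lit 61, nat_lit 40, nat_lit 40, nat_lit 80, nat_lit 1, nat_lit 289, nat_lit 75, nat_lit 7]⟩, C1.Rw.none,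
 ⟨nat_lit 3162, nat_lit 3873, ⟨.ofNat (nat_lit 737150), .ofNat (nat_lit 833932), .ofNat (nat_lit 758943), .ofNat (nat_lit 855725), .ofNat (nat_lit 727168), .ofNat (nat_lit 818598), .ofNat (nat_lit 749323), .ofNat (nat_lit 840753)⟩, ⟨.ofNat (nat_lit 304717), .ofNat (nat_lit 491830), .ofNat (nat_lit 348304), .ofNat (nat_lit 535416), .ofNat (nat_lit 306116), .ofNat (nat_lit 482881), .ofNat (nat_lit 350426), .ofNat (nat_lit 527190)⟩⟩, [⟨nat_lit 13, nat_lit 68, nat_lit 58, nat_lit 100, nat_lit 414645896⟩, ⟨nat_lit 16, nat_lit 67, nat_lit 100, nat_lit 88, nat_lit 296135129⟩]⟩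
noncomputable def p089_l42 : Lf2 := ⟨nat_lit 0, nat_lit 30, [nat_lit 15, nat_lit 5, nat_lit 5, nat_lit 20], false, nat_lit 160, nat_lit 276, nat_lit 16, nat_lit 352, ⟨nat_lit 297, nat_lit 703, nat_lit 0, nat_lit 8, nat_lit 327, nat_lit 703, nat_lit 167, nat_lit 0, nat_lit 0, nat_lit 0, nat_lit 0, nat_lit 0, nat_lit 0, nat_lit 0, nat_lit 0, nat_lit 5000000, true, true⟩,
 nat_lit 4405, nat_lit 0, nat_lit 0, nat_lit 9764, nat_lit 3565, nat_lit 2563, nat_lit 235, nat_lit 0, nat_lit 0, nat_lit 163, nat_lit 0, nat_lit 0, nat_lit 0, nat_lit 0, nat_lit 0, nat_lit 281200, nat_lit 0, nat_lit 0, [(nat_lit 23, [(nat_lit 1, nat_lit 703)])],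
 ⟨p089_k9, nat_lit 0, nat_lit 0, nat_lit 172, nat_lit 0, nat_lit 135846, [nat_lit 1560005801, nat_lit 2949133800, nat_lit 3808291600], [], [nat_lit 26660041715, nat_lit 27501811855, nat_lit 29480509080, nat_lit 30189418777, nat_lit 28750050051, nat_lit 29444479942, nat_lit 31091441929, nat_lit 31682733346], nat_lit 1271250, nat_lit 1271250, nat_lit 1271250, nat_lit 1271250, nat_lit 1100001, nat_lit 2093250, [nat_lit 490000, nat_lit 1427500, nat_lit 1271250], [nat_lit 61, nat_lit 40, nat_lit 40, nat_lit 80, nat_lit 1, nat_lit 289, nat_lit 75, nat_lit 7]⟩, ⟨p089_k16, nat_lit 0, nat_lit 0, nat_lit 392, nat_lit 0, nat_lit 209428, [nat_lit 1392336000, nat_lit 2923074000, nat_lit 4175226000], [], [nat_lit 11758654296, nat_lit 11877381727, nat_lit 12696868168, nat_lit 12838459852, nat_lit 10366264392, nat_lit 10410909151, nat_lit 11091664885, nat_lit 11125741621], nat_lit 1271250, nat_lit 1271250, nat_lit 1271250, nat_lit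 1271250, nat_lit 88400, nat_lit 2511800, [nat_lit 1100000, nat_lit 2127500, nat_lit 1271250], [nat_lit 56, nat_lit 40, nat_lit 40, nat_lit 80, nat_lit 32, nat_lit 538, nat_lit 300, nat_lit 12]⟩,
 ⟨nat_lit 3162, nat_lit 3873, ⟨.ofNat (nat_lit 758943), .ofNat (nat_lit 868630), .ofNat (nat_lit 780717), .ofNat (nat_lit 890423), .ofNat (nat_lit 749323), .ofNat (nat_lit 852944), .ofNat (nat_lit 771459), .ofNat (nat_lit 875099)⟩, ⟨.ofNat (nat_lit 304717), .ofNat (nat_lit 491830), .ofNat (nat_lit 348304), .ofNat (nat_lit 535416), .ofNat (nat_lit 306116), .ofNat (nat_lit 482881), .ofNat (nat_lit 350426), .ofNat (nat_lit 527190)⟩⟩, [⟨nat_lit 13, nat_lit 71, nat_lit 50, nat_lit 100, nat_lit 253658294⟩, ⟨nat_lit 4, nat_lit 100, nat_lit 67, nat_lit 88, nat_lit 334128808⟩, ⟨nat_lit 7, nat_lit 82, nat_lit 100, nat_lit 92, nat_lit 35807210⟩]⟩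
noncomputable def b_V_800_600_20_55 : St := ⟨true, nat_lit 1, nat_lit 2, nat_lit 2, nat_lit 120, nat_lit 320, nat_lit 360, nat_lit 240, nat_lit 280, nat_lit 64, nat_lit 396, nat_lit 80, nat_lit 120, nat_lit 0, nat_lit 300, nat_lit 0, nat_lit 364, nat_lit 80, nat_lit 120, nat_lit 0, nat_lit 0, nat_lit 0, nat_lit 0⟩
theorem d_V_800_600_20_55 (h : EB TB.env) : Dead b_V_800_600_20_55 := chkB_sound0 h (T :=
(.st (nat_lit 1)
(.spl (nat_lit 2) (nat_lit 240)
(.spl (nat_lit 0) (nat_lit 340)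
(.leaf p089_l26)
(.trZ (nat_lit 0) (nat_lit 100) (nat_lit 73) (nat_lit 85) (nat_lit 88) (.trX (nat_lit 16) (nat_lit 77) (nat_lit 100) (nat_lit 99) (nat_lit 276) (.leaf p089_l27))))
(.spl (nat_lit 4) (nat_lit 160)
(.spl (nat_lit 0) (nat_lit 340)
(.leaf p089_l28)
(.trX (nat_lit 13) (nat_lit 78) (nat_lit 39) (nat_lit 100) (nat_lit 388) (.leaf p089_l29)))
(.spl (nat_lit 0) (nat_lit 340)
(.spl (nat_lit 6) (nat_lit 88)
(.leaf p089_l30)
(.leaf p089_l31))
(.trX (nat_lit 13) (nat_lit 78) (nat_lit 39) (nat_lit 100) (nat_lit 388) (.trX (nat_lit 16) (nat_lit 77) (nat_lit 100) (nat_lit 99) (nat_lit 276) (.spl (nat_lit 1) (nat_lit 260)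
(.trX (nat_lit 13) (nat_lit 75) (nat_lit 48) (nat_lit 100) (nat_lit 380) (.leaf p089_l32))
(.trX (nat_lit 19) (nat_lit 100) (nat_lit 69) (nat_lit 96) (nat_lit 352) (.spl (nat_lit 0) (nat_lit 350)
(.leaf p089_l33)
(.trX (nat_lit 13) (nat_lit 72) (nat_lit 46) (nat_lit 100) (nat_lit 384) (.trX (nat_lit 16) (nat_lit 69) (nat_lit 100) (nat_lit 96) (nat_lit 264) (.leaf p089_l34)))))))))))
(.spl (nat_lit 2) (nat_lit 240)
(.leaf p089_l35)
(.spl (nat_lit 4) (nat_lit 160)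
(.spl (nat_lit 0) (nat_lit 340)
(.leaf p089_l36)
(.trX (nat_lit 13) (nat_lit 78) (nat_lit 39) (nat_lit 100) (nat_lit 388) (.leaf p089_l37)))
(.spl (nat_lit 0) (nat_lit 340)
(.spl (nat_lit 6) (nat_lit 88)
(.leaf p089_l38)
(.leaf p089_l39))
(.trX (nat_lit 13) (nat_lit 78) (nat_lit 39) (nat_lit 100) (nat_lit 388) (.trX (nat_lit 16) (nat_lit 77) (nat_lit 100) (nat_lit 99) (nat_lit 276) (.spl (nat_lit 2) (nat_lit 320)
(.leaf p089_l40)
(.trZ (nat_lit 9) (nat_lit 100) (nat_lit 82) (nat_lit 44) (nat_lit 16) (.spl (nat_lit 1) (nat_lit 260)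
(.trX (nat_lit 13) (nat_lit 75) (nat_lit 48) (nat_lit 100) (nat_lit 380) (.leaf p089_l41))
(.trX (nat_lit 19) (nat_lit 100) (nat_lit 69) (nat_lit 96) (nat_lit 352) (.leaf p089_l42)))))))))))) (by decide +kernel)
noncomputable def p089_l43 : Lf2 := ⟨nat_lit 0, nat_lit 10, [nat_lit 0, nat_lit 5, nat_lit 5, nat_lit 20], false, nat_lit 0, nat_lit 160, nat_lit 0, nat_lit 300, ⟨nat_lit 104, nat_lit 276, nat_lit 620, nat_lit 7, nat_lit 219, nat_lit 896, nat_lit 56, nat_lit 620, nat_lit 29400, nat_lit 257, nat_lit 80210, nat_lit 200, nat_lit 51535695, nat_lit 15464305, nat_lit 0, nat_lit 2701268, false, false⟩,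
 nat_lit 0, nat_lit 0, nat_lit 1357, nat_lit 0, nat_lit 2886, nat_lit 863, nat_lit 89, nat_lit 0, nat_lit 0, nat_lit 0, nat_lit 0, nat_lit 0, nat_lit 0, nat_lit 0, nat_lit 0, nat_lit 358400, nat_lit 0, nat_lit 0, [(nat_lit 18, [(nat_lit 1, nat_lit 276), (nat_lit 5, nat_lit 620)])],
 ⟨p089_k20, nat_lit 0, nat_lit 0, nat_lit 134, nat_lit 0, nat_lit 0, [nat_lit 1173068801, nat_lit 773672000, nat_lit 257956800], [], [nat_lit 16571302385, nat_lit 18057344918, nat_lit 20160145057, nat_lit 21344446456, nat_lit 17042814573, nat_lit 18273990219, nat_lit 20273450545, nat_lit 21275647509], nat_lit 0, nat_lit 0, nat_lit 0, nat_lit 0, nat_lit 0, nat_lit 0, [], [nat_lit 6, nat_lit 40, nat_lit 40, nat_lit 80, nat_lit 3, nat_lit 317, nat_lit 100, nat_lit 12]⟩, ⟨p089_k21, nat_lit 0, nat_lit 0, nat_lit 1002, nat_lit 0, nat_lit 1666359, [nat_lit 341328000, nat_lit 650000000, nat_lit 1023568000], [], [nat_lit 4849780662, nat_lit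 4389941468, nat_lit 4171171828, nat_lit 4187460500, nat_lit 3824749752, nat_lit 3833210049, nat_lit 3975597440, nat_lit 3617413145], nat_lit 1271250, nat_lit 1271250, nat_lit 631250, nat_lit 1751250, nat_lit 0, nat_lit 2118750, [nat_lit 780000, nat_lit 1435000, nat_lit 1271250], [nat_lit 8, nat_lit 40, nat_lit 40, nat_lit 80, nat_lit 1, nat_lit 373, nat_lit 150, nat_lit 11]⟩,
 ⟨nat_lit 3872, nat_lit 4473, ⟨.ofNat (nat_lit 416230), .ofNat (nat_lit 654181), .ofNat (nat_lit 437779), .ofNat (nat_lit 675730), .ofNat (nat_lit 425778), .ofNat (nat_lit 651631), .ofNat (nat_lit 447554), .ofNat (nat_lit 673407)⟩, ⟨.negSucc (nat_lit 12427), .ofNat (nat_lit 259489), .ofNat (nat_lit 0), .ofNat (nat_lit 302621), .ofNat (nat_lit 0), .ofNat (nat_lit 261131), .ofNat (nat_lit 0), .ofNat (nat_lit 304717)⟩⟩, [⟨nat_lit 7, nat_lit 100, nat_lit 94, nat_lit 75, nat_lit 13025458⟩]⟩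
noncomputable def p089_l44 : Lf2 := ⟨nat_lit 0, nat_lit 10, [nat_lit 0, nat_lit 5, nat_lit 5, nat_lit 20], true, nat_lit 0, nat_lit 160, nat_lit 0, nat_lit 300, ⟨nat_lit 0, nat_lit 973, nat_lit 27, nat_lit 7, nat_lit 228, nat_lit 1000, nat_lit 57, nat_lit 27, nat_lit 30817, nat_lit 258, nat_lit 75502, nat_lit 200, nat_lit 50547777, nat_lit 16452223, nat_lit 0, nat_lit 2786996, false, false⟩,
 nat_lit 0, nat_lit 0, nat_lit 0, nat_lit 0, nat_lit 3696, nat_lit 0, nat_lit 0, nat_lit 0, nat_lit 0, nat_lit 0, nat_lit 0, nat_lit 0, nat_lit 0, nat_lit 0, nat_lit 0, nat_lit 429400, nat_lit 0, nat_lit 0, [(nat_lit 21, [(nat_lit 1, nat_lit 951), (nat_lit 2, nat_lit 22), (nat_lit 6, nat_lit 27)])],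
 ⟨p089_k22, nat_lit 0, nat_lit 0, nat_lit 128, nat_lit 0, nat_lit 0, [nat_lit 1342448400, nat_lit 1336523600], [], [nat_lit 19985567308, nat_lit 21671561236, nat_lit 23068342016, nat_lit 24455870368, nat_lit 19139693255, nat_lit 20414264324, nat_lit 21779929888, nat_lit 22958180848], nat_lit 0, nat_lit 0, nat_lit 0, nat_lit 0, nat_lit 0, nat_lit 0, [], [nat_lit 69, nat_lit 40, nat_lit 40, nat_lit 80, nat_lit 64, nat_lit 317, nat_lit 100, nat_lit 12]⟩, C1.Rw.none,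
 ⟨nat_lit 3162, nat_lit 3873, ⟨.ofNat (nat_lit 464406), .ofNat (nat_lit 651611), .ofNat (nat_lit 486170), .ofNat (nat_lit 673376), .ofNat (nat_lit 472632), .ofNat (nat_lit 649490), .ofNat (nat_lit 494758), .ofNat (nat_lit 671616)⟩, ⟨.ofNat (nat_lit 0), .ofNat (nat_lit 261131), .ofNat (nat_lit 0), .ofNat (nat_lit 304717), .ofNat (nat_lit 0), .ofNat (nat_lit 261806), .ofNat (nat_lit 0), .ofNat (nat_lit 306116)⟩⟩, []⟩
noncomputable def p089_l45 : Lf2 := ⟨nat_lit 0, nat_lit 10, [nat_lit 0, nat_lit 5, nat_lit 5, nat_lit 20], false, nat_lit 0, nat_lit 160, nat_lit 0, nat_lit 280, ⟨nat_lit 169, nat_lit 299, nat_lit 532, nat_lit 7, nat_lit 234, nat_lit 831, nat_lit 56, nat_lit 532, nat_lit 29400, nat_lit 257, nat_lit 123308, nat_lit 200, nat_lit 49873027, nat_lit 17126973, nat_lit 0, nat_lit 2842161, false, false⟩,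
 nat_lit 0, nat_lit 0, nat_lit 1649, nat_lit 0, nat_lit 3421, nat_lit 1141, nat_lit 53, nat_lit 0, nat_lit 0, nat_lit 154, nat_lit 0, nat_lit 0, nat_lit 0, nat_lit 0, nat_lit 0, nat_lit 332400, nat_lit 0, nat_lit 0, [(nat_lit 18, [(nat_lit 1, nat_lit 299), (nat_lit 5, nat_lit 532)])],
 ⟨p089_k20, nat_lit 0, nat_lit 0, nat_lit 127, nat_lit 0, nat_lit 0, [nat_lit 1255571467, nat_lit 1160057334, nat_lit 841762800], [], [nat_lit 17485623688, nat_lit 19113939638, nat_lit 20934008784, nat_lit 22263352316, nat_lit 17182052939, nat_lit 18481963501, nat_lit 20207912851, nat_lit 21286806212], nat_lit 0, nat_lit 0, nat_lit 0, nat_lit 0, nat_lit 0, nat_lit 0, [], [nat_lit 6, nat_lit 40, nat_lit 40, nat_lit 80, nat_lit 3, nat_lit 317, nat_lit 100, nat_lit 12]⟩, ⟨p089_k23, nat_lit 0, nat_lit 0, nat_lit 895, nat_lit 0, nat_lit 1630547, [nat_lit 554658000, nat_lit 1056250000, nat_lit 1346592000], [], [nat_lit 5833240160, nat_lit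 5229950102, nat_lit 5160484936, nat_lit 5220200278, nat_lit 4835279603, nat_lit 4880591496, nat_lit 5334741879, nat_lit 4824849898], nat_lit 1271250, nat_lit 1271250, nat_lit 780000, nat_lit 1762500, nat_lit 0, nat_lit 1977500, [nat_lit 780000, nat_lit 1435000, nat_lit 1271250], [nat_lit 18, nat_lit 40, nat_lit 40, nat_lit 80, nat_lit 2, nat_lit 373, nat_lit 150, nat_lit 12]⟩,
 ⟨nat_lit 3872, nat_lit 4473, ⟨.ofNat (nat_lit 471772), .ofNat (nat_lit 675730), .ofNat (nat_lit 493321), .ofNat (nat_lit 697279), .ofNat (nat_lit 479819), .ofNat (nat_lit 673407), .ofNat (nat_lit 501595), .ofNat (nat_lit 695183)⟩, ⟨.negSucc (nat_lit 12427), .ofNat (nat_lit 259489), .ofNat (nat_lit 0), .ofNat (nat_lit 302621), .ofNat (nat_lit 0), .ofNat (nat_lit 261131), .ofNat (nat_lit 0), .ofNat (nat_lit 304717)⟩⟩, [⟨nat_lit 7, nat_lit 100, nat_lit 85, nat_lit 73, nat_lit 36944853⟩]⟩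
noncomputable def p089_l46 : Lf2 := ⟨nat_lit 0, nat_lit 10, [nat_lit 0, nat_lit 5, nat_lit 5, nat_lit 20], false, nat_lit 0, nat_lit 160, nat_lit 0, nat_lit 280, ⟨nat_lit 131, nat_lit 841, nat_lit 28, nat_lit 7, nat_lit 243, nat_lit 869, nat_lit 57, nat_lit 28, nat_lit 30817, nat_lit 258, nat_lit 119032, nat_lit 200, nat_lit 48910799, nat_lit 18089201, nat_lit 0, nat_lit 2916234, false, false⟩,
 nat_lit 0, nat_lit 0, nat_lit 1367, nat_lit 0, nat_lit 3891, nat_lit 946, nat_lit 170, nat_lit 0, nat_lit 0, nat_lit 123, nat_lit 0, nat_lit 0, nat_lit 0, nat_lit 0, nat_lit 0, nat_lit 217250, nat_lit 0, nat_lit 0, [(nat_lit 21, [(nat_lit 0, nat_lit 841), (nat_lit 4, nat_lit 28)])],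
 ⟨p089_k24, nat_lit 0, nat_lit 0, nat_lit 138, nat_lit 0, nat_lit 0, [nat_lit 1617753600, nat_lit 2402539600, nat_lit 2597227200], [], [nat_lit 20653508048, nat_lit 22336648926, nat_lit 23427042586, nat_lit 24842345358, nat_lit 19516336866, nat_lit 20855136466, nat_lit 21934313848, nat_lit 23123907858], nat_lit 0, nat_lit 0, nat_lit 0, nat_lit 0, nat_lit 0, nat_lit 0, [], [nat_lit 6, nat_lit 40, nat_lit 40, nat_lit 80, nat_lit 3, nat_lit 317, nat_lit 100, nat_lit 12]⟩, ⟨p089_k23, nat_lit 0, nat_lit 0, nat_lit 999, nat_lit 0, nat_lit 1876805, [nat_lit 429942000, nat_lit 818750000, nat_lit 1043808000], [], [nat_lit 3980270408, nat_lit 3645045515, nat_lit 3610380465, nat_lit 3649490575, nat_lit 3286498246, nat_lit 3313597855, nat_lit 4115105028, nat_lit 3692170186], nat_lit 1271250, nat_lit 1271250, nat_lit 968401, nat_lit 1776000, nat_lit 0, nat_lit 1977500, [nat_lit 780000, nat_lit 1435000, nat_lit 1271250], [nat_lit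 18, nat_lit 40, nat_lit 40, nat_lit 80, nat_lit 2, nat_lit 373, nat_lit 150, nat_lit 12]⟩,
 ⟨nat_lit 3162, nat_lit 3873, ⟨.ofNat (nat_lit 518447), .ofNat (nat_lit 673376), .ofNat (nat_lit 540212), .ofNat (nat_lit 695141), .ofNat (nat_lit 525251), .ofNat (nat_lit 671616), .ofNat (nat_lit 547377), .ofNat (nat_lit 693742)⟩, ⟨.ofNat (nat_lit 0), .ofNat (nat_lit 261131), .ofNat (nat_lit 0), .ofNat (nat_lit 304717), .ofNat (nat_lit 0), .ofNat (nat_lit 261806), .ofNat (nat_lit 0), .ofNat (nat_lit 306116)⟩⟩, [⟨nat_lit 7, nat_lit 100, nat_lit 85, nat_lit 73, nat_lit 27593406⟩]⟩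
noncomputable def p089_l47 : Lf2 := ⟨nat_lit 0, nat_lit 10, [nat_lit 0, nat_lit 5, nat_lit 5, nat_lit 20], true, nat_lit 160, nat_lit 260, nat_lit 0, nat_lit 300, ⟨nat_lit 0, nat_lit 1000, nat_lit 0, nat_lit 7, nat_lit 223, nat_lit 1000, nat_lit 146, nat_lit 0, nat_lit 0, nat_lit 0, nat_lit 0, nat_lit 0, nat_lit 44289162, nat_lit 15034860, nat_lit 7675978, nat_lit 4595310, false, false⟩,
 nat_lit 0, nat_lit 0, nat_lit 0, nat_lit 0, nat_lit 3249, nat_lit 0, nat_lit 0, nat_lit 0, nat_lit 0, nat_lit 0, nat_lit 0, nat_lit 0, nat_lit 0, nat_lit 0, nat_lit 0, nat_lit 250000, nat_lit 0, nat_lit 0, [(nat_lit 18, [(nat_lit 0, nat_lit 1000)])],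
 ⟨p089_k20, nat_lit 0, nat_lit 0, nat_lit 49, nat_lit 0, nat_lit 0, [nat_lit 1532800000, nat_lit 2168000000, nat_lit 2562000000], [], [nat_lit 15467700692, nat_lit 17109671118, nat_lit 19329208988, nat_lit 20639634328, nat_lit 19509332857, nat_lit 20943247375, nat_lit 22554584302, nat_lit 23680051896], nat_lit 0, nat_lit 0, nat_lit 0, nat_lit 0, nat_lit 0, nat_lit 0, [], [nat_lit 6, nat_lit 40, nat_lit 40, nat_lit 80, nat_lit 3, nat_lit 345, nat_lit 125, nat_lit 12]⟩, C1.Rw.none,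
 ⟨nat_lit 3872, nat_lit 4473, ⟨.ofNat (nat_lit 416230), .ofNat (nat_lit 654181), .ofNat (nat_lit 459327), .ofNat (nat_lit 697279), .ofNat (nat_lit 425778), .ofNat (nat_lit 651631), .ofNat (nat_lit 469330), .ofNat (nat_lit 695183)⟩, ⟨.ofNat (nat_lit 259489), .ofNat (nat_lit 429434), .ofNat (nat_lit 302621), .ofNat (nat_lit 472567), .ofNat (nat_lit 261131), .ofNat (nat_lit 422435), .ofNat (nat_lit 304717), .ofNat (nat_lit 466021)⟩⟩, [⟨nat_lit 0, nat_lit 92, nat_lit 81, nat_lit 100, nat_lit 1078750⟩, ⟨nat_lit 16, nat_lit 83, nat_lit 100, nat_lit 83, nat_lit 214204136⟩]⟩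
noncomputable def p089_l48 : Lf2 := ⟨nat_lit 0, nat_lit 10, [nat_lit 0, nat_lit 5, nat_lit 5, nat_lit 20], true, nat_lit 160, nat_lit 232, nat_lit 0, nat_lit 300, ⟨nat_lit 0, nat_lit 1000, nat_lit 0, nat_lit 7, nat_lit 233, nat_lit 1000, nat_lit 136, nat_lit 0, nat_lit 0, nat_lit 0, nat_lit 0, nat_lit 0, nat_lit 44121204, nat_lit 16011810, nat_lit 6866986, nat_lit 4551315, false, false⟩,
 nat_lit 0, nat_lit 0, nat_lit 0, nat_lit 0, nat_lit 3290, nat_lit 0, nat_lit 0, nat_lit 0, nat_lit 0, nat_lit 0, nat_lit 0, nat_lit 0, nat_lit 0, nat_lit 0, nat_lit 0, nat_lit 250000, nat_lit 0, nat_lit 0, [(nat_lit 21, [(nat_lit 0, nat_lit 1000)])],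
 ⟨p089_k22, nat_lit 0, nat_lit 0, nat_lit 32, nat_lit 0, nat_lit 0, [nat_lit 1558400000, nat_lit 2263520000], [], [nat_lit 17349161384, nat_lit 19000139944, nat_lit 20646114880, nat_lit 22004087400, nat_lit 19804721698, nat_lit 21285599977, nat_lit 22648594324, nat_lit 23877949716], nat_lit 0, nat_lit 0, nat_lit 0, nat_lit 0, nat_lit 0, nat_lit 0, [], [nat_lit 69, nat_lit 40, nat_lit 40, nat_lit 80, nat_lit 64, nat_lit 345, nat_lit 125, nat_lit 12]⟩, C1.Rw.none,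
 ⟨nat_lit 3162, nat_lit 3873, ⟨.ofNat (nat_lit 464406), .ofNat (nat_lit 651611), .ofNat (nat_lit 507934), .ofNat (nat_lit 695141), .ofNat (nat_lit 472632), .ofNat (nat_lit 649490), .ofNat (nat_lit 516884), .ofNat (nat_lit 693742)⟩, ⟨.ofNat (nat_lit 261131), .ofNat (nat_lit 377270), .ofNat (nat_lit 304717), .ofNat (nat_lit 420856), .ofNat (nat_lit 261806), .ofNat (nat_lit 371522), .ofNat (nat_lit 306116), .ofNat (nat_lit 415832)⟩⟩, [⟨nat_lit 16, nat_lit 72, nat_lit 100, nat_lit 81, nat_lit 236696692⟩]⟩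
noncomputable def b_V_800_700_10_0 : St := ⟨true, nat_lit 0, nat_lit 1, nat_lit 1, nat_lit 80, nat_lit 320, nat_lit 360, nat_lit 280, nat_lit 320, nat_lit 100, nat_lit 240, nat_lit 40, nat_lit 80, nat_lit 0, nat_lit 260, nat_lit 0, nat_lit 300, nat_lit 0, nat_lit 40, nat_lit 0, nat_lit 0, nat_lit 0, nat_lit 0⟩
theorem d_V_800_700_10_0 (h : EB TB.env) : Dead b_V_800_700_10_0 := chkB_sound0 h (T :=
(.spl (nat_lit 4) (nat_lit 160)
(.spl (nat_lit 1) (nat_lit 300)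
(.spl (nat_lit 0) (nat_lit 340)
(.leaf p089_l43)
(.trZ (nat_lit 0) (nat_lit 99) (nat_lit 77) (nat_lit 100) (nat_lit 124) (.leaf p089_l44)))
(.trZ (nat_lit 0) (nat_lit 94) (nat_lit 87) (nat_lit 100) (nat_lit 120) (.trX (nat_lit 19) (nat_lit 94) (nat_lit 100) (nat_lit 87) (nat_lit 280) (.spl (nat_lit 0) (nat_lit 340)
(.leaf p089_l45)
(.trZ (nat_lit 0) (nat_lit 90) (nat_lit 74) (nat_lit 100) (nat_lit 144) (.leaf p089_l46))))))
(.spl (nat_lit 0) (nat_lit 340)
(.leaf p089_l47)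
(.trZ (nat_lit 0) (nat_lit 99) (nat_lit 77) (nat_lit 100) (nat_lit 124) (.trX (nat_lit 16) (nat_lit 72) (nat_lit 100) (nat_lit 81) (nat_lit 232) (.leaf p089_l48)))))) (by decide +kernel)
noncomputable def p089_l49 : Lf2 := ⟨nat_lit 0, nat_lit 10, [nat_lit 0, nat_lit 5, nat_lit 5, nat_lit 20], false, nat_lit 0, nat_lit 80, nat_lit 0, nat_lit 300, ⟨nat_lit 125, nat_lit 875, nat_lit 0, nat_lit 7, nat_lit 292, nat_lit 875, nat_lit 30, nat_lit 0, nat_lit 0, nat_lit 0, nat_lit 0, nat_lit 0, nat_lit 43708207, nat_lit 23291793, nat_lit 0, nat_lit 3229862, true, false⟩,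
 nat_lit 0, nat_lit 0, nat_lit 1662, nat_lit 0, nat_lit 3106, nat_lit 1057, nat_lit 73, nat_lit 0, nat_lit 0, nat_lit 74, nat_lit 0, nat_lit 0, nat_lit 0, nat_lit 0, nat_lit 0, nat_lit 429800, nat_lit 0, nat_lit 0, [(nat_lit 18, [(nat_lit 1, nat_lit 742), (nat_lit 2, nat_lit 133)])],
 ⟨p089_k20, nat_lit 0, nat_lit 0, nat_lit 147, nat_lit 0, nat_lit 0, [nat_lit 1517763201, nat_lit 2184296000, nat_lit 2177218000], [], [nat_lit 22345649777, nat_lit 23550235641, nat_lit 25889995641, nat_lit 26903361237, nat_lit 21360892042, nat_lit 22499253722, nat_lit 24767233618, nat_lit 25731972606], nat_lit 0, nat_lit 0, nat_lit 0, nat_lit 0, nat_lit 0, nat_lit 0, [], [nat_lit 6, nat_lit 40, nat_lit 40, nat_lit 80, nat_lit 3, nat_lit 226, nat_lit 20, nat_lit 8]⟩, ⟨p089_k21, nat_lit 0, nat_lit 0, nat_lit 932, nat_lit 0, nat_lit 1666359, [nat_lit 410250000, nat_lit 781250000, nat_lit 1230250000], [], [nat_lit 4422557748, nat_lit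 4450068096, nat_lit 4491792900, nat_lit 4510036540, nat_lit 3794673798, nat_lit 3801875517, nat_lit 3791282093, nat_lit 3791967260], nat_lit 1271250, nat_lit 1271250, nat_lit 1271250, nat_lit 1271250, nat_lit 0, nat_lit 2118750, [nat_lit 780000, nat_lit 1435000, nat_lit 1271250], [nat_lit 8, nat_lit 40, nat_lit 40, nat_lit 80, nat_lit 1, nat_lit 401, nat_lit 175, nat_lit 11]⟩,
 ⟨nat_lit 3872, nat_lit 4473, ⟨.ofNat (nat_lit 654181), .ofNat (nat_lit 790153), .ofNat (nat_lit 675730), .ofNat (nat_lit 811702), .ofNat (nat_lit 651631), .ofNat (nat_lit 780691), .ofNat (nat_lit 673407), .ofNat (nat_lit 802466)⟩, ⟨.negSucc (nat_lit 12427), .ofNat (nat_lit 123532), .ofNat (nat_lit 0), .ofNat (nat_lit 166665), .ofNat (nat_lit 0), .ofNat (nat_lit 132088), .ofNat (nat_lit 0), .ofNat (nat_lit 175674)⟩⟩, [⟨nat_lit 22, nat_lit 94, nat_lit 100, nat_lit 62, nat_lit 17994413⟩]⟩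
noncomputable def p089_l50 : Lf2 := ⟨nat_lit 0, nat_lit 10, [nat_lit 0, nat_lit 5, nat_lit 5, nat_lit 20], false, nat_lit 0, nat_lit 80, nat_lit 0, nat_lit 300, ⟨nat_lit 122, nat_lit 878, nat_lit 0, nat_lit 7, nat_lit 290, nat_lit 878, nat_lit 31, nat_lit 0, nat_lit 0, nat_lit 0, nat_lit 0, nat_lit 0, nat_lit 43887434, nat_lit 23112566, nat_lit 0, nat_lit 3221364, true, false⟩,
 nat_lit 0, nat_lit 0, nat_lit 1611, nat_lit 0, nat_lit 3058, nat_lit 1025, nat_lit 196, nat_lit 0, nat_lit 0, nat_lit 64, nat_lit 0, nat_lit 0, nat_lit 0, nat_lit 0, nat_lit 0, nat_lit 351200, nat_lit 0, nat_lit 0, [(nat_lit 21, [(nat_lit 1, nat_lit 878)])],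
 ⟨p089_k24, nat_lit 0, nat_lit 0, nat_lit 151, nat_lit 0, nat_lit 0, [nat_lit 1437769600, nat_lit 1882614400, nat_lit 2072476000], [], [nat_lit 22560146020, nat_lit 23158353096, nat_lit 25935213116, nat_lit 26463793028, nat_lit 21641788860, nat_lit 22207146980, nat_lit 24859055872, nat_lit 25338540614], nat_lit 0, nat_lit 0, nat_lit 0, nat_lit 0, nat_lit 0, nat_lit 0, [], [nat_lit 6, nat_lit 40, nat_lit 40, nat_lit 80, nat_lit 3, nat_lit 226, nat_lit 20, nat_lit 8]⟩, ⟨p089_k21, nat_lit 0, nat_lit 0, nat_lit 1007, nat_lit 0, nat_lit 1809535, [nat_lit 400404000, nat_lit 762500000, nat_lit 1200724000], [], [nat_lit 4397810396, nat_lit 4416669612, nat_lit 4436507668, nat_lit 4447394734, nat_lit 3754818812, nat_lit 3762033688, nat_lit 3752429129, nat_lit 3753316420], nat_lit 1271250, nat_lit 1271250, nat_lit 1271250, nat_lit 1271250, nat_lit 0, nat_lit 2118750, [nat_lit 780000, nat_lit 1435000, nat_lit 1271250], [nat_lit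 8, nat_lit 40, nat_lit 40, nat_lit 80, nat_lit 1, nat_lit 401, nat_lit 175, nat_lit 11]⟩,
 ⟨nat_lit 3535, nat_lit 3873, ⟨.ofNat (nat_lit 651675), .ofNat (nat_lit 780730), .ofNat (nat_lit 673463), .ofNat (nat_lit 802518), .ofNat (nat_lit 650552), .ofNat (nat_lit 776087), .ofNat (nat_lit 672499), .ofNat (nat_lit 798034)⟩, ⟨.ofNat (nat_lit 0), .ofNat (nat_lit 132088), .ofNat (nat_lit 0), .ofNat (nat_lit 175674), .ofNat (nat_lit 0), .ofNat (nat_lit 136093), .ofNat (nat_lit 0), .ofNat (nat_lit 179999)⟩⟩, [⟨nat_lit 22, nat_lit 94, nat_lit 100, nat_lit 62, nat_lit 17807363⟩]⟩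
noncomputable def p089_l51 : Lf2 := ⟨nat_lit 0, nat_lit 10, [nat_lit 0, nat_lit 5, nat_lit 5, nat_lit 20], false, nat_lit 0, nat_lit 80, nat_lit 0, nat_lit 300, ⟨nat_lit 98, nat_lit 902, nat_lit 0, nat_lit 7, nat_lit 289, nat_lit 902, nat_lit 32, nat_lit 0, nat_lit 0, nat_lit 0, nat_lit 0, nat_lit 0, nat_lit 44002468, nat_lit 22997532, nat_lit 0, nat_lit 3215827, true, false⟩,
 nat_lit 0, nat_lit 0, nat_lit 1337, nat_lit 0, nat_lit 2777, nat_lit 850, nat_lit 266, nat_lit 0, nat_lit 0, nat_lit 48, nat_lit 0, nat_lit 0, nat_lit 0, nat_lit 0, nat_lit 0, nat_lit 360800, nat_lit 0, nat_lit 0, [(nat_lit 21, [(nat_lit 1, nat_lit 902)])],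
 ⟨p089_k25, nat_lit 0, nat_lit 0, nat_lit 126, nat_lit 0, nat_lit 0, [nat_lit 1421526400, nat_lit 1798285600], [], [nat_lit 23040342813, nat_lit 23564025400, nat_lit 25968149172, nat_lit 26432725300, nat_lit 22420647246, nat_lit 22914302440, nat_lit 25208177475, nat_lit 25631251812], nat_lit 0, nat_lit 0, nat_lit 0, nat_lit 0, nat_lit 0, nat_lit 0, [], [nat_lit 24, nat_lit 40, nat_lit 40, nat_lit 80, nat_lit 33, nat_lit 226, nat_lit 20, nat_lit 9]⟩, ⟨p089_k21, nat_lit 0, nat_lit 0, nat_lit 1067, nat_lit 0, nat_lit 1959301, [nat_lit 321636000, nat_lit 612500000, nat_lit 964516000], [], [nat_lit 3457343992, nat_lit 3463888328, nat_lit 3457243176, nat_lit 3484663948, nat_lit 2886220232, nat_lit 2884911998, nat_lit 2925211400, nat_lit 2998313192], nat_lit 1271250, nat_lit 1271250, nat_lit 1271250, nat_lit 1271250, nat_lit 0, nat_lit 2118750, [nat_lit 780000, nat_lit 1435000, nat_lit 1271250], [nat_lit 8, nat_lit 40,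 nat_lit 40, nat_lit 80, nat_lit 1, nat_lit 401, nat_lit 175, nat_lit 11]⟩,
 ⟨nat_lit 3162, nat_lit 3536, ⟨.ofNat (nat_lit 650549), .ofNat (nat_lit 776092), .ofNat (nat_lit 672493), .ofNat (nat_lit 798037), .ofNat (nat_lit 649550), .ofNat (nat_lit 771477), .ofNat (nat_lit 671696), .ofNat (nat_lit 793624)⟩, ⟨.ofNat (nat_lit 0), .ofNat (nat_lit 136093), .ofNat (nat_lit 0), .ofNat (nat_lit 179999), .ofNat (nat_lit 0), .ofNat (nat_lit 139899), .ofNat (nat_lit 0), .ofNat (nat_lit 184209)⟩⟩, [⟨nat_lit 22, nat_lit 94, nat_lit 100, nat_lit 62, nat_lit 16646331⟩]⟩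
noncomputable def p089_l52 : Lf2 := ⟨nat_lit 0, nat_lit 10, [nat_lit 0, nat_lit 5, nat_lit 5, nat_lit 20], false, nat_lit 0, nat_lit 80, nat_lit 0, nat_lit 280, ⟨nat_lit 308, nat_lit 692, nat_lit 0, nat_lit 7, nat_lit 301, nat_lit 692, nat_lit 30, nat_lit 0, nat_lit 0, nat_lit 0, nat_lit 0, nat_lit 0, nat_lit 42811803, nat_lit 24188197, nat_lit 0, nat_lit 3270007, true, false⟩,
 nat_lit 0, nat_lit 0, nat_lit 2898, nat_lit 0, nat_lit 3729, nat_lit 2006, nat_lit 0, nat_lit 0, nat_lit 0, nat_lit 400, nat_lit 0, nat_lit 0, nat_lit 0, nat_lit 0, nat_lit 0, nat_lit 636800, nat_lit 0, nat_lit 0, [(nat_lit 18, [(nat_lit 1, nat_lit 92), (nat_lit 2, nat_lit 600)])],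
 ⟨p089_k20, nat_lit 0, nat_lit 0, nat_lit 147, nat_lit 0, nat_lit 0, [nat_lit 1775604267, nat_lit 2252037334, nat_lit 1839473600], [], [nat_lit 22197405216, nat_lit 23583079484, nat_lit 26149678296, nat_lit 27300276272, nat_lit 20682755907, nat_lit 21917877981, nat_lit 24293386212, nat_lit 25333008554], nat_lit 0, nat_lit 0, nat_lit 0, nat_lit 0, nat_lit 0, nat_lit 0, [], [nat_lit 6, nat_lit 40, nat_lit 40, nat_lit 80, nat_lit 3, nat_lit 226, nat_lit 20, nat_lit 8]⟩, ⟨p089_k23, nat_lit 0, nat_lit 0, nat_lit 855, nat_lit 0, nat_lit 1630547, [nat_lit 1010856000, nat_lit 1925000000, nat_lit 2454144000], [], [nat_lit 9128457044, nat_lit 9255104616, nat_lit 9516060316, nat_lit 9711730200, nat_lit 8605513840, nat_lit 8680587352, nat_lit 8814147920, nat_lit 8891173976], nat_lit 1271250, nat_lit 1271250, nat_lit 1271250, nat_lit 1271250, nat_lit 0, nat_lit 1977500, [nat_lit 780000, nat_lit 1435000, nat_lit 1271250], [nat_lit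 18, nat_lit 40, nat_lit 40, nat_lit 80, nat_lit 2, nat_lit 329, nat_lit 75, nat_lit 10]⟩,
 ⟨nat_lit 3872, nat_lit 4473, ⟨.ofNat (nat_lit 675730), .ofNat (nat_lit 811702), .ofNat (nat_lit 697279), .ofNat (nat_lit 833251), .ofNat (nat_lit 673407), .ofNat (nat_lit 802466), .ofNat (nat_lit 695183), .ofNat (nat_lit 824242)⟩, ⟨.negSucc (nat_lit 12427), .ofNat (nat_lit 123532), .ofNat (nat_lit 0), .ofNat (nat_lit 166665), .ofNat (nat_lit 0), .ofNat (nat_lit 132088), .ofNat (nat_lit 0), .ofNat (nat_lit 175674)⟩⟩, [⟨nat_lit 19, nat_lit 85, nat_lit 100, nat_lit 73, nat_lit 12035047⟩, ⟨nat_lit 22, nat_lit 94, nat_lit 100, nat_lit 62, nat_lit 55092967⟩]⟩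
noncomputable def p089_l53 : Lf2 := ⟨nat_lit 0, nat_lit 10, [nat_lit 0, nat_lit 5, nat_lit 5, nat_lit 20], false, nat_lit 0, nat_lit 80, nat_lit 0, nat_lit 280, ⟨nat_lit 157, nat_lit 843, nat_lit 0, nat_lit 7, nat_lit 298, nat_lit 843, nat_lit 32, nat_lit 0, nat_lit 0, nat_lit 0, nat_lit 0, nat_lit 0, nat_lit 43035011, nat_lit 23964989, nat_lit 0, nat_lit 3260376, true, false⟩,
 nat_lit 0, nat_lit 0, nat_lit 1585, nat_lit 0, nat_lit 3168, nat_lit 1097, nat_lit 268, nat_lit 0, nat_lit 0, nat_lit 94, nat_lit 0, nat_lit 0, nat_lit 0, nat_lit 0, nat_lit 0, nat_lit 337200, nat_lit 0, nat_lit 0, [(nat_lit 21, [(nat_lit 1, nat_lit 843)])],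
 ⟨p089_k24, nat_lit 0, nat_lit 0, nat_lit 155, nat_lit 0, nat_lit 0, [nat_lit 1461457601, nat_lit 1994446400, nat_lit 2239006000], [], [nat_lit 23274333505, nat_lit 24314593137, nat_lit 26208754545, nat_lit 27367567200, nat_lit 22398660705, nat_lit 23379027601, nat_lit 25187886545, nat_lit 26025184209], nat_lit 0, nat_lit 0, nat_lit 0, nat_lit 0, nat_lit 0, nat_lit 0, [], [nat_lit 6, nat_lit 40, nat_lit 40, nat_lit 80, nat_lit 3, nat_lit 226, nat_lit 20, nat_lit 8]⟩, ⟨p089_k23, nat_lit 0, nat_lit 0, nat_lit 967, nat_lit 0, nat_lit 1876805, [nat_lit 515274000, nat_lit 981250000, nat_lit 1250976000], [], [nat_lit 4924434510, nat_lit 4971490490, nat_lit 5058745480, nat_lit 5101305728, nat_lit 4509633204, nat_lit 4534366476, nat_lit 4566236151, nat_lit 4584375500], nat_lit 1271250, nat_lit 1271250, nat_lit 1271250, nat_lit 1271250, nat_lit 0, nat_lit 1977500, [nat_lit 780000, nat_lit 1435000, nat_lit 1271250], [nat_lit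 18, nat_lit 40, nat_lit 40, nat_lit 80, nat_lit 2, nat_lit 357, nat_lit 75, nat_lit 11]⟩,
 ⟨nat_lit 3162, nat_lit 3873, ⟨.ofNat (nat_lit 673376), .ofNat (nat_lit 802484), .ofNat (nat_lit 695141), .ofNat (nat_lit 824248), .ofNat (nat_lit 671616), .ofNat (nat_lit 793588), .ofNat (nat_lit 693742), .ofNat (nat_lit 815713)⟩, ⟨.ofNat (nat_lit 0), .ofNat (nat_lit 132088), .ofNat (nat_lit 0), .ofNat (nat_lit 175674), .ofNat (nat_lit 0), .ofNat (nat_lit 139899), .ofNat (nat_lit 0), .ofNat (nat_lit 184209)⟩⟩, [⟨nat_lit 22, nat_lit 94, nat_lit 100, nat_lit 62, nat_lit 31521951⟩]⟩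
noncomputable def p089_l54 : Lf2 := ⟨nat_lit 0, nat_lit 10, [nat_lit 0, nat_lit 5, nat_lit 5, nat_lit 20], false, nat_lit 0, nat_lit 80, nat_lit 0, nat_lit 260, ⟨nat_lit 169, nat_lit 831, nat_lit 0, nat_lit 8, nat_lit 342, nat_lit 831, nat_lit 29, nat_lit 0, nat_lit 0, nat_lit 0, nat_lit 0, nat_lit 0, nat_lit 38733426, nat_lit 28266574, nat_lit 0, nat_lit 3404471, true, true⟩,
 nat_lit 0, nat_lit 0, nat_lit 2084, nat_lit 0, nat_lit 3259, nat_lit 1326, nat_lit 0, nat_lit 0, nat_lit 0, nat_lit 89, nat_lit 0, nat_lit 0, nat_lit 0, nat_lit 0, nat_lit 0, nat_lit 642000, nat_lit 0, nat_lit 0, [(nat_lit 18, [(nat_lit 1, nat_lit 315), (nat_lit 2, nat_lit 516)])],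
 ⟨p089_k20, nat_lit 0, nat_lit 0, nat_lit 172, nat_lit 0, nat_lit 0, [nat_lit 1661983200, nat_lit 1951164001, nat_lit 1445210800], [], [nat_lit 26762672541, nat_lit 27209346982, nat_lit 30262767874, nat_lit 30634553583, nat_lit 25727103441, nat_lit 26149949557, nat_lit 29040611473, nat_lit 29394650928], nat_lit 0, nat_lit 0, nat_lit 0, nat_lit 0, nat_lit 0, nat_lit 0, [], [nat_lit 6, nat_lit 40, nat_lit 40, nat_lit 80, nat_lit 3, nat_lit 226, nat_lit 20, nat_lit 7]⟩, ⟨p089_k21, nat_lit 0, nat_lit 0, nat_lit 796, nat_lit 0, nat_lit 1407700, [nat_lit 554658000, nat_lit 1056250000, nat_lit 1663298000], [], [nat_lit 6570476609, nat_lit 6578228002, nat_lit 6788521101, nat_lit 6821791586, nat_lit 5702350935, nat_lit 5705745744, nat_lit 5865690672, nat_lit 5867900780], nat_lit 1271250, nat_lit 1271250, nat_lit 1271250, nat_lit 1271250, nat_lit 0, nat_lit 1836250, [nat_lit 780000, nat_lit 1435000, nat_lit 1271250], [nat_lit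 8, nat_lit 40, nat_lit 40, nat_lit 80, nat_lit 1, nat_lit 317, nat_lit 75, nat_lit 8]⟩,
 ⟨nat_lit 4183, nat_lit 4473, ⟨.ofNat (nat_lit 790187), .ofNat (nat_lit 919347), .ofNat (nat_lit 795578), .ofNat (nat_lit 924738), .ofNat (nat_lit 785420), .ofNat (nat_lit 911307), .ofNat (nat_lit 790836), .ofNat (nat_lit 916723)⟩, ⟨.negSucc (nat_lit 12423), .ofNat (nat_lit 123532), .ofNat (nat_lit 0), .ofNat (nat_lit 166665), .negSucc (nat_lit 4612), .ofNat (nat_lit 127898), .ofNat (nat_lit 0), .ofNat (nat_lit 171231)⟩⟩, [⟨nat_lit 13, nat_lit 86, nat_lit 27, nat_lit 100, nat_lit 95654759⟩, ⟨nat_lit 10, nat_lit 100, nat_lit 58, nat_lit 64, nat_lit 30096990⟩]⟩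
noncomputable def p089_l55 : Lf2 := ⟨nat_lit 0, nat_lit 10, [nat_lit 0, nat_lit 5, nat_lit 5, nat_lit 20], false, nat_lit 0, nat_lit 80, nat_lit 0, nat_lit 260, ⟨nat_lit 364, nat_lit 636, nat_lit 0, nat_lit 8, nat_lit 345, nat_lit 636, nat_lit 29, nat_lit 0, nat_lit 0, nat_lit 0, nat_lit 0, nat_lit 0, nat_lit 38399511, nat_lit 28600489, nat_lit 0, nat_lit 3412067, true, true⟩,
 nat_lit 0, nat_lit 0, nat_lit 3861, nat_lit 0, nat_lit 3642, nat_lit 2510, nat_lit 20, nat_lit 0, nat_lit 0, nat_lit 779, nat_lit 0, nat_lit 0, nat_lit 0, nat_lit 0, nat_lit 0, nat_lit 636000, nat_lit 0, nat_lit 0, [(nat_lit 18, [(nat_lit 2, nat_lit 636)])],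
 ⟨p089_k20, nat_lit 0, nat_lit 0, nat_lit 174, nat_lit 0, nat_lit 0, [nat_lit 1822035200, nat_lit 2371264000, nat_lit 1993124800], [], [nat_lit 27293328520, nat_lit 27759267478, nat_lit 31463355352, nat_lit 32002224380, nat_lit 25998506720, nat_lit 26439018328, nat_lit 29644598912, nat_lit 30005325694], nat_lit 0, nat_lit 0, nat_lit 0, nat_lit 0, nat_lit 0, nat_lit 0, [], [nat_lit 6, nat_lit 40, nat_lit 40, nat_lit 80, nat_lit 3, nat_lit 226, nat_lit 20, nat_lit 7]⟩, ⟨p089_k26, nat_lit 0, nat_lit 0, nat_lit 794, nat_lit 0, nat_lit 1403691, [nat_lit 1194648000, nat_lit 2275000000, nat_lit 3582488000], [], [nat_lit 13510764499, nat_lit 13530837709, nat_lit 14062681675, nat_lit 14082461934, nat_lit 12140835677, nat_lit 12150883444, nat_lit 12477297436, nat_lit 12484478203], nat_lit 1271250, nat_lit 1271250, nat_lit 1271250, nat_lit 1271250, nat_lit 0, nat_lit 1836250, [nat_lit 780000, nat_lit 1435000, nat_lit 1271250],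 [nat_lit 8, nat_lit 40, nat_lit 40, nat_lit 80, nat_lit 1, nat_lit 318, nat_lit 75, nat_lit 8]⟩,
 ⟨nat_lit 4183, nat_lit 4473, ⟨.ofNat (nat_lit 795578), .ofNat (nat_lit 931536), .ofNat (nat_lit 800968), .ofNat (nat_lit 936926), .ofNat (nat_lit 790836), .ofNat (nat_lit 923349), .ofNat (nat_lit 796251), .ofNat (nat_lit 928764)⟩, ⟨.negSucc (nat_lit 12423), .ofNat (nat_lit 123532), .ofNat (nat_lit 0), .ofNat (nat_lit 166665), .negSucc (nat_lit 4612), .ofNat (nat_lit 127898), .ofNat (nat_lit 0), .ofNat (nat_lit 171231)⟩⟩, [⟨nat_lit 10, nat_lit 100, nat_lit 58, nat_lit 64, nat_lit 84997768⟩]⟩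
noncomputable def p089_l56 : Lf2 := ⟨nat_lit 0, nat_lit 10, [nat_lit 0, nat_lit 5, nat_lit 5, nat_lit 20], false, nat_lit 0, nat_lit 80, nat_lit 0, nat_lit 260, ⟨nat_lit 140, nat_lit 860, nat_lit 0, nat_lit 8, nat_lit 328, nat_lit 834, nat_lit 30, nat_lit 0, nat_lit 0, nat_lit 0, nat_lit 0, nat_lit 0, nat_lit 40014995, nat_lit 26985005, nat_lit 0, nat_lit 3370576, true, true⟩,
 nat_lit 0, nat_lit 0, nat_lit 1798, nat_lit 0, nat_lit 3447, nat_lit 1144, nat_lit 245, nat_lit 0, nat_lit 0, nat_lit 77, nat_lit 0, nat_lit 0, nat_lit 0, nat_lit 0, nat_lit 0, nat_lit 308000, nat_lit 0, nat_lit 0, [(nat_lit 18, [(nat_lit 0, nat_lit 240), (nat_lit 1, nat_lit 620)])],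
 ⟨p089_k27, nat_lit 0, nat_lit 0, nat_lit 161, nat_lit 0, nat_lit 0, [nat_lit 1519194667, nat_lit 2395973334, nat_lit 2705576000], [], [nat_lit 27048790599, nat_lit 27504921252, nat_lit 28831408113, nat_lit 29245633668, nat_lit 25861351074, nat_lit 26292868502, nat_lit 27548994150, nat_lit 27948751447], nat_lit 0, nat_lit 0, nat_lit 0, nat_lit 0, nat_lit 0, nat_lit 0, [], [nat_lit 6, nat_lit 40, nat_lit 40, nat_lit 80, nat_lit 3, nat_lit 226, nat_lit 20, nat_lit 7]⟩, ⟨p089_k21, nat_lit 0, nat_lit 0, nat_lit 885, nat_lit 0, nat_lit 1587165, [nat_lit 459480000, nat_lit 875000000, nat_lit 1377880000], [], [nat_lit 5150545697, nat_lit 5162960681, nat_lit 5235315329, nat_lit 5244818441, nat_lit 4409767200, nat_lit 4417426462, nat_lit 4471533544, nat_lit 4476746140], nat_lit 1271250, nat_lit 1271250, nat_lit 1271250, nat_lit 1271250, nat_lit 0, nat_lit 1836250, [nat_lit 780000, nat_lit 1435000, nat_lit 1271250], [nat_lit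 8, nat_lit 40, nat_lit 40, nat_lit 80, nat_lit 1, nat_lit 335, nat_lit 75, nat_lit 9]⟩,
 ⟨nat_lit 3872, nat_lit 4184, ⟨.ofNat (nat_lit 785423), .ofNat (nat_lit 851681), .ofNat (nat_lit 796254), .ofNat (nat_lit 862512), .ofNat (nat_lit 780727), .ofNat (nat_lit 845251), .ofNat (nat_lit 791621), .ofNat (nat_lit 856145)⟩, ⟨.negSucc (nat_lit 4619), .ofNat (nat_lit 127898), .ofNat (nat_lit 0), .ofNat (nat_lit 171231), .ofNat (nat_lit 0), .ofNat (nat_lit 132088), .ofNat (nat_lit 0), .ofNat (nat_lit 175674)⟩⟩, [⟨nat_lit 22, nat_lit 76, nat_lit 100, nat_lit 43, nat_lit 28050507⟩]⟩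
noncomputable def p089_l57 : Lf2 := ⟨nat_lit 0, nat_lit 10, [nat_lit 0, nat_lit 5, nat_lit 5, nat_lit 20], false, nat_lit 0, nat_lit 80, nat_lit 0, nat_lit 200, ⟨nat_lit 145, nat_lit 855, nat_lit 0, nat_lit 9, nat_lit 352, nat_lit 757, nat_lit 30, nat_lit 0, nat_lit 0, nat_lit 0, nat_lit 0, nat_lit 0, nat_lit 37736463, nat_lit 29263537, nat_lit 0, nat_lit 3425646, true, true⟩,
 nat_lit 0, nat_lit 0, nat_lit 1775, nat_lit 0, nat_lit 3264, nat_lit 1129, nat_lit 198, nat_lit 0, nat_lit 0, nat_lit 78, nat_lit 0, nat_lit 0, nat_lit 0, nat_lit 0, nat_lit 0, nat_lit 342000, nat_lit 0, nat_lit 0, [(nat_lit 18, [(nat_lit 1, nat_lit 855)])],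
 ⟨p089_k27, nat_lit 0, nat_lit 0, nat_lit 174, nat_lit 0, nat_lit 0, [nat_lit 1490044001, nat_lit 2361260000, nat_lit 2582734000], [], [nat_lit 29131114495, nat_lit 29537733655, nat_lit 30809510045, nat_lit 31180085148, nat_lit 27976256839, nat_lit 28362368743, nat_lit 29566229383, nat_lit 29919230504], nat_lit 0, nat_lit 0, nat_lit 0, nat_lit 0, nat_lit 0, nat_lit 0, [], [nat_lit 6, nat_lit 40, nat_lit 40, nat_lit 80, nat_lit 3, nat_lit 226, nat_lit 20, nat_lit 7]⟩, ⟨p089_k21, nat_lit 0, nat_lit 0, nat_lit 865, nat_lit 0, nat_lit 1549223, [nat_lit 475890000, nat_lit 906250000, nat_lit 1427090000], [], [nat_lit 5767101354, nat_lit 5772343005, nat_lit 5865844948, nat_lit 5869748425, nat_lit 5052036852, nat_lit 5056463567, nat_lit 5140578757, nat_lit 5143781342], nat_lit 1271250, nat_lit 1271250, nat_lit 1271250, nat_lit 1271250, nat_lit 0, nat_lit 1412500, [nat_lit 780000, nat_lit 1435000, nat_lit 1271250], [nat_lit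 8, nat_lit 40, nat_lit 40, nat_lit 80, nat_lit 1, nat_lit 327, nat_lit 50, nat_lit 9]⟩,
 ⟨nat_lit 3872, nat_lit 4184, ⟨.ofNat (nat_lit 851681), .ofNat (nat_lit 911314), .ofNat (nat_lit 857097), .ofNat (nat_lit 916730), .ofNat (nat_lit 845251), .ofNat (nat_lit 903324), .ofNat (nat_lit 850699), .ofNat (nat_lit 908771)⟩, ⟨.negSucc (nat_lit 4619), .ofNat (nat_lit 127898), .ofNat (nat_lit 0), .ofNat (nat_lit 171231), .ofNat (nat_lit 0), .ofNat (nat_lit 132088), .ofNat (nat_lit 0), .ofNat (nat_lit 175674)⟩⟩, [⟨nat_lit 13, nat_lit 78, nat_lit 39, nat_lit 100, nat_lit 171056317⟩, ⟨nat_lit 22, nat_lit 53, nat_lit 100, nat_lit 63, nat_lit 14273513⟩]⟩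
noncomputable def p089_l58 : Lf2 := ⟨nat_lit 0, nat_lit 10, [nat_lit 0, nat_lit 5, nat_lit 5, nat_lit 20], false, nat_lit 0, nat_lit 80, nat_lit 0, nat_lit 200, ⟨nat_lit 156, nat_lit 844, nat_lit 0, nat_lit 9, nat_lit 354, nat_lit 773, nat_lit 30, nat_lit 0, nat_lit 0, nat_lit 0, nat_lit 0, nat_lit 0, nat_lit 37533626, nat_lit 29466374, nat_lit 0, nat_lit 3429402, true, true⟩,
 nat_lit 0, nat_lit 0, nat_lit 1814, nat_lit 0, nat_lit 3280, nat_lit 1179, nat_lit 203, nat_lit 0, nat_lit 0, nat_lit 86, nat_lit 0, nat_lit 0, nat_lit 0, nat_lit 0, nat_lit 0, nat_lit 337600, nat_lit 0, nat_lit 0, [(nat_lit 18, [(nat_lit 1, nat_lit 844)])],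
 ⟨p089_k27, nat_lit 0, nat_lit 0, nat_lit 174, nat_lit 0, nat_lit 0, [nat_lit 1497016534, nat_lit 2391194667, nat_lit 2629915200], [], [nat_lit 29167300156, nat_lit 29574584356, nat_lit 30848905048, nat_lit 31220020012, nat_lit 28001290036, nat_lit 28388012116, nat_lit 29594219116, nat_lit 29949701442], nat_lit 0, nat_lit 0, nat_lit 0, nat_lit 0, nat_lit 0, nat_lit 0, [], [nat_lit 6, nat_lit 40, nat_lit 40, nat_lit 80, nat_lit 3, nat_lit 226, nat_lit 20, nat_lit 7]⟩, ⟨p089_k26, nat_lit 0, nat_lit 0, nat_lit 860, nat_lit 0, nat_lit 1539134, [nat_lit 511992000, nat_lit 975000000, nat_lit 1535352000], [], [nat_lit 6132153894, nat_lit 6137997666, nat_lit 6236748378, nat_lit 6241186869, nat_lit 5396851546, nat_lit 5401831481, nat_lit 5490804417, nat_lit 5494498751], nat_lit 1271250, nat_lit 1271250, nat_lit 1271250, nat_lit 1271250, nat_lit 0, nat_lit 1412500, [nat_lit 780000, nat_lit 1435000, nat_lit 1271250], [nat_lit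 8, nat_lit 40, nat_lit 40, nat_lit 80, nat_lit 1, nat_lit 326, nat_lit 50, nat_lit 9]⟩,
 ⟨nat_lit 3872, nat_lit 4184, ⟨.ofNat (nat_lit 857097), .ofNat (nat_lit 916730), .ofNat (nat_lit 862512), .ofNat (nat_lit 922145), .ofNat (nat_lit 850699), .ofNat (nat_lit 908771), .ofNat (nat_lit 856145), .ofNat (nat_lit 914217)⟩, ⟨.negSucc (nat_lit 4619), .ofNat (nat_lit 127898), .ofNat (nat_lit 0), .ofNat (nat_lit 171231), .ofNat (nat_lit 0), .ofNat (nat_lit 132088), .ofNat (nat_lit 0), .ofNat (nat_lit 175674)⟩⟩, [⟨nat_lit 13, nat_lit 79, nat_lit 36, nat_lit 100, nat_lit 162070344⟩, ⟨nat_lit 22, nat_lit 53, nat_lit 100, nat_lit 63, nat_lit 17975829⟩]⟩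
noncomputable def p089_l59 : Lf2 := ⟨nat_lit 0, nat_lit 10, [nat_lit 0, nat_lit 5, nat_lit 5, nat_lit 20], false, nat_lit 0, nat_lit 80, nat_lit 0, nat_lit 260, ⟨nat_lit 361, nat_lit 639, nat_lit 0, nat_lit 8, nat_lit 347, nat_lit 639, nat_lit 30, nat_lit 0, nat_lit 0, nat_lit 0, nat_lit 0, nat_lit 0, nat_lit 38213747, nat_lit 28786253, nat_lit 0, nat_lit 3416073, true, true⟩,
 nat_lit 0, nat_lit 0, nat_lit 3385, nat_lit 0, nat_lit 3681, nat_lit 2247, nat_lit 0, nat_lit 0, nat_lit 0, nat_lit 629, nat_lit 0, nat_lit 0, nat_lit 0, nat_lit 0, nat_lit 0, nat_lit 619800, nat_lit 0, nat_lit 0, [(nat_lit 18, [(nat_lit 1, nat_lit 32), (nat_lit 2, nat_lit 607)])],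
 ⟨p089_k20, nat_lit 0, nat_lit 0, nat_lit 176, nat_lit 0, nat_lit 0, [nat_lit 1811325334, nat_lit 2389818667, nat_lit 2049973200], [], [nat_lit 27385335061, nat_lit 28321136299, nat_lit 31572467836, nat_lit 32654818344, nat_lit 26064114161, nat_lit 26948735049, nat_lit 29725719617, nat_lit 30449526519], nat_lit 0, nat_lit 0, nat_lit 0, nat_lit 0, nat_lit 0, nat_lit 0, [], [nat_lit 6, nat_lit 40, nat_lit 40, nat_lit 80, nat_lit 3, nat_lit 226, nat_lit 20, nat_lit 7]⟩, ⟨p089_k28, nat_lit 0, nat_lit 0, nat_lit 808, nat_lit 0, nat_lit 1567891, [nat_lit 1184802000, nat_lit 2256250000, nat_lit 2876448000], [], [nat_lit 12957665991, nat_lit 13008029956, nat_lit 13536254766, nat_lit 13573138822, nat_lit 11985622751, nat_lit 12015790902, nat_lit 12374126198, nat_lit 12394411739], nat_lit 1271250, nat_lit 1271250, nat_lit 1271250, nat_lit 1271250, nat_lit 0, nat_lit 1836250, [nat_lit 780000, nat_lit 1435000, nat_lit 1271250],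 [nat_lit 18, nat_lit 40, nat_lit 40, nat_lit 80, nat_lit 2, nat_lit 322, nat_lit 75, nat_lit 10]⟩,
 ⟨nat_lit 3872, nat_lit 4473, ⟨.ofNat (nat_lit 800927), .ofNat (nat_lit 936900), .ofNat (nat_lit 811702), .ofNat (nat_lit 947674), .ofNat (nat_lit 791578), .ofNat (nat_lit 920637), .ofNat (nat_lit 802466), .ofNat (nat_lit 931525)⟩, ⟨.negSucc (nat_lit 12427), .ofNat (nat_lit 123532), .ofNat (nat_lit 0), .ofNat (nat_lit 166665), .ofNat (nat_lit 0), .ofNat (nat_lit 132088), .ofNat (nat_lit 0), .ofNat (nat_lit 175674)⟩⟩, [⟨nat_lit 22, nat_lit 63, nat_lit 100, nat_lit 62, nat_lit 99577839⟩]⟩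
noncomputable def p089_l60 : Lf2 := ⟨nat_lit 0, nat_lit 10, [nat_lit 0, nat_lit 5, nat_lit 5, nat_lit 20], false, nat_lit 0, nat_lit 80, nat_lit 0, nat_lit 260, ⟨nat_lit 122, nat_lit 878, nat_lit 0, nat_lit 8, nat_lit 328, nat_lit 878, nat_lit 31, nat_lit 0, nat_lit 0, nat_lit 0, nat_lit 0, nat_lit 0, nat_lit 40016408, nat_lit 26983592, nat_lit 0, nat_lit 3370534, true, true⟩,
 nat_lit 0, nat_lit 0, nat_lit 1592, nat_lit 0, nat_lit 2932, nat_lit 1013, nat_lit 237, nat_lit 0, nat_lit 0, nat_lit 57, nat_lit 0, nat_lit 0, nat_lit 0, nat_lit 0, nat_lit 0, nat_lit 351200, nat_lit 0, nat_lit 0, [(nat_lit 21, [(nat_lit 1, nat_lit 878)])],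
 ⟨p089_k24, nat_lit 0, nat_lit 0, nat_lit 164, nat_lit 0, nat_lit 0, [nat_lit 1437769600, nat_lit 1882614400, nat_lit 2072476000], [], [nat_lit 26455985256, nat_lit 26886211924, nat_lit 28102077752, nat_lit 28494897332, nat_lit 25596836256, nat_lit 26004599824, nat_lit 27159264896, nat_lit 27532715648], nat_lit 0, nat_lit 0, nat_lit 0, nat_lit 0, nat_lit 0, nat_lit 0, [], [nat_lit 6, nat_lit 40, nat_lit 40, nat_lit 80, nat_lit 3, nat_lit 226, nat_lit 20, nat_lit 7]⟩, ⟨p089_k21, nat_lit 0, nat_lit 0, nat_lit 988, nat_lit 0, nat_lit 1809535, [nat_lit 400404000, nat_lit 762500000, nat_lit 1200724000], [], [nat_lit 4564187313, nat_lit 4575385875, nat_lit 4613670077, nat_lit 4707265459, nat_lit 3864114930, nat_lit 3863159262, nat_lit 3885107894, nat_lit 3883887334], nat_lit 1271250, nat_lit 1271250, nat_lit 1271250, nat_lit 1271250, nat_lit 0, nat_lit 1836250, [nat_lit 780000, nat_lit 1435000, nat_lit 1271250], [nat_lit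 8, nat_lit 40, nat_lit 40, nat_lit 80, nat_lit 1, nat_lit 362, nat_lit 75, nat_lit 10]⟩,
 ⟨nat_lit 3535, nat_lit 3873, ⟨.ofNat (nat_lit 780730), .ofNat (nat_lit 845257), .ofNat (nat_lit 802518), .ofNat (nat_lit 867045), .ofNat (nat_lit 776087), .ofNat (nat_lit 838854), .ofNat (nat_lit 798034), .ofNat (nat_lit 860801)⟩, ⟨.ofNat (nat_lit 0), .ofNat (nat_lit 132088), .ofNat (nat_lit 0), .ofNat (nat_lit 175674), .ofNat (nat_lit 0), .ofNat (nat_lit 136093), .ofNat (nat_lit 0), .ofNat (nat_lit 179999)⟩⟩, [⟨nat_lit 10, nat_lit 100, nat_lit 58, nat_lit 64, nat_lit 13246224⟩]⟩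
noncomputable def p089_l61 : Lf2 := ⟨nat_lit 0, nat_lit 10, [nat_lit 0, nat_lit 5, nat_lit 5, nat_lit 20], false, nat_lit 0, nat_lit 80, nat_lit 0, nat_lit 260, ⟨nat_lit 112, nat_lit 888, nat_lit 0, nat_lit 8, nat_lit 326, nat_lit 888, nat_lit 32, nat_lit 0, nat_lit 0, nat_lit 0, nat_lit 0, nat_lit 0, nat_lit 40229858, nat_lit 26770142, nat_lit 0, nat_lit 3364152, true, true⟩,
 nat_lit 0, nat_lit 0, nat_lit 1478, nat_lit 0, nat_lit 2677, nat_lit 940, nat_lit 253, nat_lit 0, nat_lit 0, nat_lit 49, nat_lit 0, nat_lit 0, nat_lit 0, nat_lit 0, nat_lit 0, nat_lit 355200, nat_lit 0, nat_lit 0, [(nat_lit 21, [(nat_lit 1, nat_lit 888)])],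
 ⟨p089_k25, nat_lit 0, nat_lit 0, nat_lit 149, nat_lit 0, nat_lit 0, [nat_lit 1431001600, nat_lit 1842848000], [], [nat_lit 26277309322, nat_lit 26718280126, nat_lit 27927394309, nat_lit 28373601128, nat_lit 25586533725, nat_lit 26004479962, nat_lit 27154108957, nat_lit 27537318622], nat_lit 0, nat_lit 0, nat_lit 0, nat_lit 0, nat_lit 0, nat_lit 0, [], [nat_lit 24, nat_lit 40, nat_lit 40, nat_lit 80, nat_lit 33, nat_lit 226, nat_lit 20, nat_lit 9]⟩, ⟨p089_k21, nat_lit 0, nat_lit 0, nat_lit 1047, nat_lit 0, nat_lit 1959301, [nat_lit 367584000, nat_lit 700000000, nat_lit 1102304000], [], [nat_lit 4234816789, nat_lit 4237142717, nat_lit 4261573269, nat_lit 4350940941, nat_lit 3572258853, nat_lit 3565283933, nat_lit 3577203985, nat_lit 3576849373], nat_lit 1271250, nat_lit 1271250, nat_lit 1271250, nat_lit 1271250, nat_lit 0, nat_lit 1836250, [nat_lit 780000, nat_lit 1435000, nat_lit 1271250], [nat_lit 8, nat_lit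 40, nat_lit 40, nat_lit 80, nat_lit 1, nat_lit 377, nat_lit 75, nat_lit 10]⟩,
 ⟨nat_lit 3162, nat_lit 3536, ⟨.ofNat (nat_lit 776092), .ofNat (nat_lit 838855), .ofNat (nat_lit 798037), .ofNat (nat_lit 860807), .ofNat (nat_lit 771477), .ofNat (nat_lit 832432), .ofNat (nat_lit 793624), .ofNat (nat_lit 854586)⟩, ⟨.ofNat (nat_lit 0), .ofNat (nat_lit 136093), .ofNat (nat_lit 0), .ofNat (nat_lit 179999), .ofNat (nat_lit 0), .ofNat (nat_lit 139899), .ofNat (nat_lit 0), .ofNat (nat_lit 184209)⟩⟩, [⟨nat_lit 10, nat_lit 100, nat_lit 58, nat_lit 64, nat_lit 11551570⟩]⟩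
noncomputable def p089_l62 : Lf2 := ⟨nat_lit 0, nat_lit 10, [nat_lit 0, nat_lit 5, nat_lit 5, nat_lit 20], false, nat_lit 0, nat_lit 80, nat_lit 0, nat_lit 200, ⟨nat_lit 130, nat_lit 870, nat_lit 0, nat_lit 9, nat_lit 349, nat_lit 870, nat_lit 31, nat_lit 0, nat_lit 0, nat_lit 0, nat_lit 0, nat_lit 0, nat_lit 38022937, nat_lit 28977063, nat_lit 0, nat_lit 3420024, true, true⟩,
 nat_lit 0, nat_lit 0, nat_lit 1629, nat_lit 0, nat_lit 2901, nat_lit 1036, nat_lit 186, nat_lit 0, nat_lit 0, nat_lit 62, nat_lit 0, nat_lit 0, nat_lit 0, nat_lit 0, nat_lit 0, nat_lit 348000, nat_lit 0, nat_lit 0, [(nat_lit 21, [(nat_lit 1, nat_lit 870)])],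
 ⟨p089_k24, nat_lit 0, nat_lit 0, nat_lit 175, nat_lit 0, nat_lit 0, [nat_lit 1443184001, nat_lit 1908176001, nat_lit 2110540000], [], [nat_lit 28622382788, nat_lit 29013913853, nat_lit 30020053491, nat_lit 30382862713, nat_lit 27701284130, nat_lit 28073552666, nat_lit 29062343654, nat_lit 29438236550], nat_lit 0, nat_lit 0, nat_lit 0, nat_lit 0, nat_lit 0, nat_lit 0, [], [nat_lit 6, nat_lit 40, nat_lit 40, nat_lit 80, nat_lit 3, nat_lit 226, nat_lit 20, nat_lit 7]⟩, ⟨p089_k21, nat_lit 0, nat_lit 0, nat_lit 935, nat_lit 0, nat_lit 1733740, [nat_lit 426660000, nat_lit 812500000, nat_lit 1279460000], [], [nat_lit 5209357638, nat_lit 5213730320, nat_lit 5266725421, nat_lit 5269318511, nat_lit 4545966050, nat_lit 4546360685, nat_lit 4585479279, nat_lit 4584407065], nat_lit 1271250, nat_lit 1271250, nat_lit 1271250, nat_lit 1271250, nat_lit 0, nat_lit 1412500, [nat_lit 780000, nat_lit 1435000, nat_lit 1271250], [nat_lit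 8, nat_lit 40, nat_lit 40, nat_lit 80, nat_lit 1, nat_lit 344, nat_lit 50, nat_lit 9]⟩,
 ⟨nat_lit 3535, nat_lit 3873, ⟨.ofNat (nat_lit 845257), .ofNat (nat_lit 896875), .ofNat (nat_lit 856151), .ofNat (nat_lit 907772), .ofNat (nat_lit 838854), .ofNat (nat_lit 889064), .ofNat (nat_lit 849828), .ofNat (nat_lit 900040)⟩, ⟨.ofNat (nat_lit 0), .ofNat (nat_lit 132088), .ofNat (nat_lit 0), .ofNat (nat_lit 175674), .ofNat (nat_lit 0), .ofNat (nat_lit 136093), .ofNat (nat_lit 0), .ofNat (nat_lit 179999)⟩⟩, [⟨nat_lit 13, nat_lit 76, nat_lit 40, nat_lit 100, nat_lit 167339344⟩, ⟨nat_lit 10, nat_lit 100, nat_lit 45, nat_lit 69, nat_lit 10269328⟩]⟩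
noncomputable def p089_l63 : Lf2 := ⟨nat_lit 0, nat_lit 10, [nat_lit 0, nat_lit 5, nat_lit 5, nat_lit 20], false, nat_lit 0, nat_lit 80, nat_lit 0, nat_lit 200, ⟨nat_lit 304, nat_lit 696, nat_lit 0, nat_lit 9, nat_lit 355, nat_lit 696, nat_lit 31, nat_lit 0, nat_lit 0, nat_lit 0, nat_lit 0, nat_lit 0, nat_lit 37494246, nat_lit 29505754, nat_lit 0, nat_lit 3430110, true, true⟩,
 nat_lit 0, nat_lit 0, nat_lit 2907, nat_lit 0, nat_lit 3172, nat_lit 1930, nat_lit 286, nat_lit 0, nat_lit 0, nat_lit 515, nat_lit 0, nat_lit 0, nat_lit 0, nat_lit 0, nat_lit 0, nat_lit 278400, nat_lit 0, nat_lit 0, [(nat_lit 21, [(nat_lit 1, nat_lit 696)])],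
 ⟨p089_k24, nat_lit 0, nat_lit 0, nat_lit 177, nat_lit 0, nat_lit 0, [nat_lit 1560947201, nat_lit 2464140800, nat_lit 2938432000], [], [nat_lit 29014950393, nat_lit 29417745573, nat_lit 30907528675, nat_lit 31425651958, nat_lit 27904027617, nat_lit 28286631009, nat_lit 29444548798, nat_lit 29794700908], nat_lit 0, nat_lit 0, nat_lit 0, nat_lit 0, nat_lit 0, nat_lit 0, [], [nat_lit 6, nat_lit 40, nat_lit 40, nat_lit 80, nat_lit 3, nat_lit 226, nat_lit 20, nat_lit 7]⟩, ⟨p089_k28, nat_lit 0, nat_lit 0, nat_lit 868, nat_lit 0, nat_lit 1702383, [nat_lit 997728000, nat_lit 1900000000, nat_lit 2422272000], [], [nat_lit 11157246788, nat_lit 11188095066, nat_lit 11365066820, nat_lit 11391226452, nat_lit 10236259701, nat_lit 10256972472, nat_lit 10394992408, nat_lit 10411652289], nat_lit 1271250, nat_lit 1271250, nat_lit 1271250, nat_lit 1271250, nat_lit 0, nat_lit 1412500, [nat_lit 780000, nat_lit 1435000, nat_lit 1271250],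 [nat_lit 18, nat_lit 40, nat_lit 40, nat_lit 80, nat_lit 2, nat_lit 329, nat_lit 50, nat_lit 10]⟩,
 ⟨nat_lit 3535, nat_lit 3873, ⟨.ofNat (nat_lit 856151), .ofNat (nat_lit 914224), .ofNat (nat_lit 867045), .ofNat (nat_lit 925119), .ofNat (nat_lit 849828), .ofNat (nat_lit 906316), .ofNat (nat_lit 860801), .ofNat (nat_lit 917291)⟩, ⟨.ofNat (nat_lit 0), .ofNat (nat_lit 132088), .ofNat (nat_lit 0), .ofNat (nat_lit 175674), .ofNat (nat_lit 0), .ofNat (nat_lit 136093), .ofNat (nat_lit 0), .ofNat (nat_lit 179999)⟩⟩, [⟨nat_lit 13, nat_lit 78, nat_lit 35, nat_lit 100, nat_lit 43530130⟩, ⟨nat_lit 10, nat_lit 100, nat_lit 45, nat_lit 69, nat_lit 73933288⟩]⟩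
noncomputable def p089_l64 : Lf2 := ⟨nat_lit 0, nat_lit 10, [nat_lit 0, nat_lit 5, nat_lit 5, nat_lit 20], false, nat_lit 0, nat_lit 80, nat_lit 0, nat_lit 200, ⟨nat_lit 120, nat_lit 880, nat_lit 0, nat_lit 9, nat_lit 346, nat_lit 880, nat_lit 32, nat_lit 0, nat_lit 0, nat_lit 0, nat_lit 0, nat_lit 0, nat_lit 38341210, nat_lit 28658790, nat_lit 0, nat_lit 3413341, true, true⟩,
 nat_lit 0, nat_lit 0, nat_lit 1511, nat_lit 0, nat_lit 2895, nat_lit 961, nat_lit 102, nat_lit 0, nat_lit 0, nat_lit 59, nat_lit 0, nat_lit 0, nat_lit 0, nat_lit 0, nat_lit 0, nat_lit 352000, nat_lit 0, nat_lit 0, [(nat_lit 21, [(nat_lit 1, nat_lit 880)])],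
 ⟨p089_k25, nat_lit 0, nat_lit 0, nat_lit 162, nat_lit 0, nat_lit 0, [nat_lit 1436416000, nat_lit 1868480000], [], [nat_lit 28907013965, nat_lit 29113589833, nat_lit 30169273676, nat_lit 30376662172, nat_lit 28059305815, nat_lit 28262188243, nat_lit 29293883020, nat_lit 29483594310], nat_lit 0, nat_lit 0, nat_lit 0, nat_lit 0, nat_lit 0, nat_lit 0, [], [nat_lit 24, nat_lit 40, nat_lit 40, nat_lit 80, nat_lit 33, nat_lit 226, nat_lit 20, nat_lit 8]⟩, ⟨p089_k21, nat_lit 0, nat_lit 0, nat_lit 981, nat_lit 0, nat_lit 1809697, [nat_lit 393840000, nat_lit 750000000, nat_lit 1181040000], [], [nat_lit 4764772023, nat_lit 4768739565, nat_lit 4811067691, nat_lit 4813592155, nat_lit 4148045735, nat_lit 4148824879, nat_lit 4186745787, nat_lit 4188255442], nat_lit 1271250, nat_lit 1271250, nat_lit 1271250, nat_lit 1271250, nat_lit 0, nat_lit 1412500, [nat_lit 780000, nat_lit 1435000, nat_lit 1271250], [nat_lit 8, nat_lit 40,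 nat_lit 40, nat_lit 80, nat_lit 1, nat_lit 355, nat_lit 50, nat_lit 9]⟩,
 ⟨nat_lit 3354, nat_lit 3536, ⟨.ofNat (nat_lit 838855), .ofNat (nat_lit 882788), .ofNat (nat_lit 849831), .ofNat (nat_lit 893764), .ofNat (nat_lit 835649), .ofNat (nat_lit 878955), .ofNat (nat_lit 846673), .ofNat (nat_lit 889979)⟩, ⟨.ofNat (nat_lit 0), .ofNat (nat_lit 136093), .ofNat (nat_lit 0), .ofNat (nat_lit 179999), .ofNat (nat_lit 0), .ofNat (nat_lit 138023), .ofNat (nat_lit 0), .ofNat (nat_lit 182118)⟩⟩, [⟨nat_lit 13, nat_lit 71, nat_lit 46, nat_lit 100, nat_lit 201637795⟩, ⟨nat_lit 22, nat_lit 57, nat_lit 100, nat_lit 59, nat_lit 9214478⟩]⟩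
noncomputable def p089_l65 : Lf2 := ⟨nat_lit 0, nat_lit 10, [nat_lit 0, nat_lit 5, nat_lit 5, nat_lit 20], false, nat_lit 0, nat_lit 80, nat_lit 0, nat_lit 200, ⟨nat_lit 114, nat_lit 886, nat_lit 0, nat_lit 9, nat_lit 343, nat_lit 886, nat_lit 32, nat_lit 0, nat_lit 0, nat_lit 0, nat_lit 0, nat_lit 0, nat_lit 38591263, nat_lit 28408737, nat_lit 0, nat_lit 3407767, true, true⟩,
 nat_lit 0, nat_lit 0, nat_lit 1457, nat_lit 0, nat_lit 2903, nat_lit 927, nat_lit 72, nat_lit 0, nat_lit 0, nat_lit 54, nat_lit 0, nat_lit 0, nat_lit 0, nat_lit 0, nat_lit 0, nat_lit 354400, nat_lit 0, nat_lit 0, [(nat_lit 21, [(nat_lit 1, nat_lit 886)])],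
 ⟨p089_k29, nat_lit 0, nat_lit 0, nat_lit 161, nat_lit 0, nat_lit 0, [nat_lit 1432355200, nat_lit 1849256000], [], [nat_lit 29103939453, nat_lit 29318196604, nat_lit 30210331067, nat_lit 30417664213, nat_lit 28281236865, nat_lit 28484303488, nat_lit 29329203125, nat_lit 29520958804], nat_lit 0, nat_lit 0, nat_lit 0, nat_lit 0, nat_lit 0, nat_lit 0, [], [nat_lit 24, nat_lit 40, nat_lit 40, nat_lit 80, nat_lit 33, nat_lit 226, nat_lit 20, nat_lit 8]⟩, ⟨p089_k21, nat_lit 0, nat_lit 0, nat_lit 1012, nat_lit 0, nat_lit 1887213, [nat_lit 374148000, nat_lit 712500000, nat_lit 1121988000], [], [nat_lit 4545892146, nat_lit 4545963564, nat_lit 4571669651, nat_lit 4570759112, nat_lit 3958347864, nat_lit 3957524147, nat_lit 3980348087, nat_lit 3978620727], nat_lit 1271250, nat_lit 1271250, nat_lit 1271250, nat_lit 1271250, nat_lit 0, nat_lit 1412500, [nat_lit 780000, nat_lit 1435000, nat_lit 1271250], [nat_lit 8, nat_lit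 40, nat_lit 40, nat_lit 80, nat_lit 1, nat_lit 363, nat_lit 50, nat_lit 10]⟩,
 ⟨nat_lit 3162, nat_lit 3355, ⟨.ofNat (nat_lit 835649), .ofNat (nat_lit 872768), .ofNat (nat_lit 846673), .ofNat (nat_lit 883792), .ofNat (nat_lit 832432), .ofNat (nat_lit 869004), .ofNat (nat_lit 843509), .ofNat (nat_lit 880081)⟩, ⟨.ofNat (nat_lit 0), .ofNat (nat_lit 138023), .ofNat (nat_lit 0), .ofNat (nat_lit 182118), .ofNat (nat_lit 0), .ofNat (nat_lit 139899), .ofNat (nat_lit 0), .ofNat (nat_lit 184209)⟩⟩, [⟨nat_lit 13, nat_lit 68, nat_lit 50, nat_lit 100, nat_lit 213769060⟩, ⟨nat_lit 22, nat_lit 59, nat_lit 100, nat_lit 57, nat_lit 9028750⟩]⟩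
noncomputable def p089_l66 : Lf2 := ⟨nat_lit 0, nat_lit 10, [nat_lit 0, nat_lit 5, nat_lit 5, nat_lit 20], false, nat_lit 0, nat_lit 80, nat_lit 0, nat_lit 200, ⟨nat_lit 154, nat_lit 846, nat_lit 0, nat_lit 9, nat_lit 351, nat_lit 846, nat_lit 32, nat_lit 0, nat_lit 0, nat_lit 0, nat_lit 0, nat_lit 0, nat_lit 37874513, nat_lit 29125487, nat_lit 0, nat_lit 3422983, true, true⟩,
 nat_lit 0, nat_lit 0, nat_lit 1592, nat_lit 0, nat_lit 2948, nat_lit 1056, nat_lit 100, nat_lit 0, nat_lit 0, nat_lit 114, nat_lit 0, nat_lit 0, nat_lit 0, nat_lit 0, nat_lit 0, nat_lit 338400, nat_lit 0, nat_lit 0, [(nat_lit 21, [(nat_lit 1, nat_lit 846)])],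
 ⟨p089_k25, nat_lit 0, nat_lit 0, nat_lit 164, nat_lit 0, nat_lit 0, [nat_lit 1459427200, nat_lit 1977416000], [], [nat_lit 29113034116, nat_lit 29528644680, nat_lit 30563957713, nat_lit 31030531104, nat_lit 28147941468, nat_lit 28547874308, nat_lit 29560049759, nat_lit 29937771716], nat_lit 0, nat_lit 0, nat_lit 0, nat_lit 0, nat_lit 0, nat_lit 0, [], [nat_lit 24, nat_lit 40, nat_lit 40, nat_lit 80, nat_lit 33, nat_lit 226, nat_lit 20, nat_lit 8]⟩, ⟨p089_k28, nat_lit 0, nat_lit 0, nat_lit 925, nat_lit 0, nat_lit 1843044, [nat_lit 505428000, nat_lit 962500000, nat_lit 1227072000], [], [nat_lit 5840804144, nat_lit 5852964732, nat_lit 5922912017, nat_lit 5933060995, nat_lit 5311728036, nat_lit 5318863384, nat_lit 5372673369, nat_lit 5378157433], nat_lit 1271250, nat_lit 1271250, nat_lit 1271250, nat_lit 1271250, nat_lit 0, nat_lit 1412500, [nat_lit 780000, nat_lit 1435000, nat_lit 1271250], [nat_lit 18, nat_lit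 40, nat_lit 40, nat_lit 80, nat_lit 2, nat_lit 343, nat_lit 50, nat_lit 10]⟩,
 ⟨nat_lit 3162, nat_lit 3536, ⟨.ofNat (nat_lit 849831), .ofNat (nat_lit 900040), .ofNat (nat_lit 860807), .ofNat (nat_lit 911016), .ofNat (nat_lit 843509), .ofNat (nat_lit 892272), .ofNat (nat_lit 854586), .ofNat (nat_lit 903349)⟩, ⟨.ofNat (nat_lit 0), .ofNat (nat_lit 136093), .ofNat (nat_lit 0), .ofNat (nat_lit 179999), .ofNat (nat_lit 0), .ofNat (nat_lit 139899), .ofNat (nat_lit 0), .ofNat (nat_lit 184209)⟩⟩, [⟨nat_lit 13, nat_lit 72, nat_lit 43, nat_lit 100, nat_lit 166797647⟩, ⟨nat_lit 10, nat_lit 100, nat_lit 45, nat_lit 69, nat_lit 31621148⟩]⟩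
noncomputable def p089_l67 : Lf2 := ⟨nat_lit 0, nat_lit 10, [nat_lit 0, nat_lit 5, nat_lit 5, nat_lit 20], false, nat_lit 0, nat_lit 80, nat_lit 0, nat_lit 260, ⟨nat_lit 383, nat_lit 617, nat_lit 0, nat_lit 8, nat_lit 354, nat_lit 617, nat_lit 30, nat_lit 0, nat_lit 0, nat_lit 0, nat_lit 0, nat_lit 0, nat_lit 37603229, nat_lit 29396771, nat_lit 0, nat_lit 3428134, true, true⟩,
 nat_lit 0, nat_lit 0, nat_lit 3217, nat_lit 0, nat_lit 3871, nat_lit 2227, nat_lit 0, nat_lit 0, nat_lit 0, nat_lit 537, nat_lit 0, nat_lit 0, nat_lit 0, nat_lit 0, nat_lit 0, nat_lit 617000, nat_lit 0, nat_lit 0, [(nat_lit 18, [(nat_lit 2, nat_lit 617)])],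
 ⟨p089_k20, nat_lit 0, nat_lit 0, nat_lit 176, nat_lit 0, nat_lit 0, [nat_lit 1828307734, nat_lit 2440474667, nat_lit 2120295600], [], [nat_lit 27266617261, nat_lit 28221532119, nat_lit 32104041476, nat_lit 33208862904, nat_lit 25816785361, nat_lit 26718933369, nat_lit 29553968257, nat_lit 30289240139], nat_lit 0, nat_lit 0, nat_lit 0, nat_lit 0, nat_lit 0, nat_lit 0, [], [nat_lit 6, nat_lit 40, nat_lit 40, nat_lit 80, nat_lit 3, nat_lit 226, nat_lit 20, nat_lit 7]⟩, ⟨p089_k23, nat_lit 0, nat_lit 0, nat_lit 841, nat_lit 0, nat_lit 1630547, [nat_lit 1257006000, nat_lit 2393750000, nat_lit 3051744000], [], [nat_lit 13612105152, nat_lit 13739755626, nat_lit 14285528886, nat_lit 14383965018, nat_lit 12927675363, nat_lit 13009005110, nat_lit 13463483531, nat_lit 13548782942], nat_lit 1271250, nat_lit 1271250, nat_lit 1271250, nat_lit 1271250, nat_lit 0, nat_lit 1836250, [nat_lit 780000, nat_lit 1435000, nat_lit 1271250],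 [nat_lit 18, nat_lit 40, nat_lit 40, nat_lit 80, nat_lit 2, nat_lit 333, nat_lit 75, nat_lit 10]⟩,
 ⟨nat_lit 3872, nat_lit 4473, ⟨.ofNat (nat_lit 811702), .ofNat (nat_lit 947674), .ofNat (nat_lit 833251), .ofNat (nat_lit 969223), .ofNat (nat_lit 802466), .ofNat (nat_lit 931525), .ofNat (nat_lit 824242), .ofNat (nat_lit 953301)⟩, ⟨.negSucc (nat_lit 12427), .ofNat (nat_lit 123532), .ofNat (nat_lit 0), .ofNat (nat_lit 166665), .ofNat (nat_lit 0), .ofNat (nat_lit 132088), .ofNat (nat_lit 0), .ofNat (nat_lit 175674)⟩⟩, [⟨nat_lit 22, nat_lit 63, nat_lit 100, nat_lit 62, nat_lit 126448629⟩]⟩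
noncomputable def p089_l68 : Lf2 := ⟨nat_lit 0, nat_lit 10, [nat_lit 0, nat_lit 5, nat_lit 5, nat_lit 20], false, nat_lit 0, nat_lit 80, nat_lit 0, nat_lit 260, ⟨nat_lit 350, nat_lit 650, nat_lit 0, nat_lit 8, nat_lit 348, nat_lit 650, nat_lit 31, nat_lit 0, nat_lit 0, nat_lit 0, nat_lit 0, nat_lit 0, nat_lit 38158416, nat_lit 28841584, nat_lit 0, nat_lit 3417235, true, true⟩,
 nat_lit 0, nat_lit 0, nat_lit 3049, nat_lit 0, nat_lit 3244, nat_lit 2110, nat_lit 73, nat_lit 0, nat_lit 0, nat_lit 388, nat_lit 0, nat_lit 0, nat_lit 0, nat_lit 0, nat_lit 0, nat_lit 650000, nat_lit 0, nat_lit 0, [(nat_lit 21, [(nat_lit 2, nat_lit 650)])],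
 ⟨p089_k24, nat_lit 0, nat_lit 0, nat_lit 178, nat_lit 0, nat_lit 0, [nat_lit 1621980000, nat_lit 1546940001, nat_lit 1451180000], [], [nat_lit 26637918553, nat_lit 27083838509, nat_lit 31380515856, nat_lit 31895849552, nat_lit 25610710698, nat_lit 26073648262, nat_lit 29262348026, nat_lit 29643440478], nat_lit 0, nat_lit 0, nat_lit 0, nat_lit 0, nat_lit 0, nat_lit 0, [], [nat_lit 6, nat_lit 40, nat_lit 40, nat_lit 80, nat_lit 3, nat_lit 226, nat_lit 20, nat_lit 7]⟩, ⟨p089_k23, nat_lit 0, nat_lit 0, nat_lit 860, nat_lit 0, nat_lit 1676099, [nat_lit 1148700000, nat_lit 2187500000, nat_lit 2788800000], [], [nat_lit 12539600300, nat_lit 12589584380, nat_lit 13085730020, nat_lit 13143774710, nat_lit 11820573840, nat_lit 11857299330, nat_lit 12243694300, nat_lit 12270370705], nat_lit 1271250, nat_lit 1271250, nat_lit 1271250, nat_lit 1271250, nat_lit 0, nat_lit 1836250, [nat_lit 780000, nat_lit 1435000, nat_lit 1271250],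 [nat_lit 18, nat_lit 40, nat_lit 40, nat_lit 80, nat_lit 2, nat_lit 337, nat_lit 75, nat_lit 10]⟩,
 ⟨nat_lit 3535, nat_lit 3873, ⟨.ofNat (nat_lit 802518), .ofNat (nat_lit 931571), .ofNat (nat_lit 813411), .ofNat (nat_lit 942466), .ofNat (nat_lit 798034), .ofNat (nat_lit 923567), .ofNat (nat_lit 809007), .ofNat (nat_lit 934542)⟩, ⟨.ofNat (nat_lit 0), .ofNat (nat_lit 132088), .ofNat (nat_lit 0), .ofNat (nat_lit 175674), .ofNat (nat_lit 0), .ofNat (nat_lit 136093), .ofNat (nat_lit 0), .ofNat (nat_lit 179999)⟩⟩, [⟨nat_lit 10, nat_lit 100, nat_lit 58, nat_lit 64, nat_lit 117058349⟩]⟩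
noncomputable def p089_l69 : Lf2 := ⟨nat_lit 0, nat_lit 10, [nat_lit 0, nat_lit 5, nat_lit 5, nat_lit 20], false, nat_lit 0, nat_lit 80, nat_lit 0, nat_lit 260, ⟨nat_lit 265, nat_lit 735, nat_lit 0, nat_lit 8, nat_lit 344, nat_lit 735, nat_lit 32, nat_lit 0, nat_lit 0, nat_lit 0, nat_lit 0, nat_lit 0, nat_lit 38510346, nat_lit 28489654, nat_lit 0, nat_lit 3409602, true, true⟩,
 nat_lit 0, nat_lit 0, nat_lit 2311, nat_lit 0, nat_lit 3142, nat_lit 1599, nat_lit 188, nat_lit 0, nat_lit 0, nat_lit 350, nat_lit 0, nat_lit 0, nat_lit 0, nat_lit 0, nat_lit 0, nat_lit 294000, nat_lit 0, nat_lit 0, [(nat_lit 21, [(nat_lit 1, nat_lit 735)])],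
 ⟨p089_k25, nat_lit 0, nat_lit 0, nat_lit 165, nat_lit 0, nat_lit 0, [nat_lit 1534552001, nat_lit 2333060000], [], [nat_lit 27319133713, nat_lit 27786075697, nat_lit 31337474605, nat_lit 31853776140, nat_lit 26306596251, nat_lit 26756030103, nat_lit 29644230278, nat_lit 30025518571], nat_lit 0, nat_lit 0, nat_lit 0, nat_lit 0, nat_lit 0, nat_lit 0, [], [nat_lit 24, nat_lit 40, nat_lit 40, nat_lit 80, nat_lit 33, nat_lit 226, nat_lit 20, nat_lit 9]⟩, ⟨p089_k23, nat_lit 0, nat_lit 0, nat_lit 913, nat_lit 0, nat_lit 1805231, [nat_lit 869730000, nat_lit 1656250000, nat_lit 2111520000], [], [nat_lit 9472376000, nat_lit 9504759643, nat_lit 9815421554, nat_lit 9848264980, nat_lit 8857650868, nat_lit 8877399470, nat_lit 9133777045, nat_lit 9155923121], nat_lit 1271250, nat_lit 1271250, nat_lit 1271250, nat_lit 1271250, nat_lit 0, nat_lit 1836250, [nat_lit 780000, nat_lit 1435000, nat_lit 1271250], [nat_lit 18, nat_lit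 40, nat_lit 40, nat_lit 80, nat_lit 2, nat_lit 349, nat_lit 75, nat_lit 11]⟩,
 ⟨nat_lit 3162, nat_lit 3536, ⟨.ofNat (nat_lit 798037), .ofNat (nat_lit 917293), .ofNat (nat_lit 809008), .ofNat (nat_lit 928269), .ofNat (nat_lit 793624), .ofNat (nat_lit 909444), .ofNat (nat_lit 804697), .ofNat (nat_lit 920522)⟩, ⟨.ofNat (nat_lit 0), .ofNat (nat_lit 136093), .ofNat (nat_lit 0), .ofNat (nat_lit 179999), .ofNat (nat_lit 0), .ofNat (nat_lit 139899), .ofNat (nat_lit 0), .ofNat (nat_lit 184209)⟩⟩, [⟨nat_lit 13, nat_lit 74, nat_lit 39, nat_lit 100, nat_lit 59988095⟩, ⟨nat_lit 10, nat_lit 100, nat_lit 58, nat_lit 64, nat_lit 86399045⟩]⟩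
noncomputable def p089_l70 : Lf2 := ⟨nat_lit 0, nat_lit 10, [nat_lit 0, nat_lit 5, nat_lit 5, nat_lit 20], false, nat_lit 0, nat_lit 80, nat_lit 0, nat_lit 260, ⟨nat_lit 304, nat_lit 696, nat_lit 0, nat_lit 8, nat_lit 351, nat_lit 696, nat_lit 32, nat_lit 0, nat_lit 0, nat_lit 0, nat_lit 0, nat_lit 0, nat_lit 37862025, nat_lit 29137975, nat_lit 0, nat_lit 3423228, true, true⟩,
 nat_lit 0, nat_lit 0, nat_lit 2504, nat_lit 0, nat_lit 3192, nat_lit 1805, nat_lit 330, nat_lit 0, nat_lit 0, nat_lit 282, nat_lit 0, nat_lit 0, nat_lit 0, nat_lit 0, nat_lit 0, nat_lit 278400, nat_lit 0, nat_lit 0, [(nat_lit 21, [(nat_lit 1, nat_lit 696)])],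
 ⟨p089_k24, nat_lit 0, nat_lit 0, nat_lit 180, nat_lit 0, nat_lit 0, [nat_lit 1560947201, nat_lit 2464140800, nat_lit 2938432000], [], [nat_lit 26938956337, nat_lit 27825565153, nat_lit 31228882608, nat_lit 32253400064, nat_lit 25901642337, nat_lit 26742480253, nat_lit 29451417853, nat_lit 30209740925], nat_lit 0, nat_lit 0, nat_lit 0, nat_lit 0, nat_lit 0, nat_lit 0, [], [nat_lit 6, nat_lit 40, nat_lit 40, nat_lit 80, nat_lit 3, nat_lit 226, nat_lit 20, nat_lit 7]⟩, ⟨p089_k30, nat_lit 0, nat_lit 0, nat_lit 898, nat_lit 0, nat_lit 1772701, [nat_lit 997728000, nat_lit 1900000000, nat_lit 2422272000], [], [nat_lit 10992225030, nat_lit 11035919824, nat_lit 11453908082, nat_lit 11517223692, nat_lit 10373925905, nat_lit 10406052843, nat_lit 10767156242, nat_lit 10795559213], nat_lit 1271250, nat_lit 1271250, nat_lit 1271250, nat_lit 1271250, nat_lit 0, nat_lit 1836250, [nat_lit 780000, nat_lit 1435000, nat_lit 1271250],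 [nat_lit 18, nat_lit 40, nat_lit 40, nat_lit 80, nat_lit 2, nat_lit 347, nat_lit 75, nat_lit 10]⟩,
 ⟨nat_lit 3162, nat_lit 3873, ⟨.ofNat (nat_lit 813366), .ofNat (nat_lit 942462), .ofNat (nat_lit 824248), .ofNat (nat_lit 953347), .ofNat (nat_lit 804650), .ofNat (nat_lit 926609), .ofNat (nat_lit 815713), .ofNat (nat_lit 937676)⟩, ⟨.ofNat (nat_lit 0), .ofNat (nat_lit 132088), .ofNat (nat_lit 0), .ofNat (nat_lit 175674), .ofNat (nat_lit 0), .ofNat (nat_lit 139899), .ofNat (nat_lit 0), .ofNat (nat_lit 184209)⟩⟩, [⟨nat_lit 13, nat_lit 72, nat_lit 40, nat_lit 100, nat_lit 23890504⟩, ⟨nat_lit 10, nat_lit 100, nat_lit 58, nat_lit 64, nat_lit 104311306⟩]⟩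
noncomputable def b_V_800_700_10_1 : St := ⟨true, nat_lit 0, nat_lit 1, nat_lit 1, nat_lit 80, nat_lit 320, nat_lit 360, nat_lit 280, nat_lit 320, nat_lit 240, nat_lit 400, nat_lit 40, nat_lit 80, nat_lit 0, nat_lit 80, nat_lit 0, nat_lit 300, nat_lit 0, nat_lit 40, nat_lit 0, nat_lit 0, nat_lit 0, nat_lit 0⟩
theorem d_V_800_700_10_1 (h : EB TB.env) : Dead b_V_800_700_10_1 := chkB_sound0 h (T :=
(.spl (nat_lit 2) (nat_lit 320)
(.spl (nat_lit 1) (nat_lit 300)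
(.spl (nat_lit 0) (nat_lit 340)
(.leaf p089_l49)
(.spl (nat_lit 0) (nat_lit 350)
(.leaf p089_l50)
(.leaf p089_l51)))
(.trX (nat_lit 19) (nat_lit 94) (nat_lit 100) (nat_lit 87) (nat_lit 280) (.spl (nat_lit 0) (nat_lit 340)
(.leaf p089_l52)
(.leaf p089_l53))))
(.trX (nat_lit 22) (nat_lit 83) (nat_lit 100) (nat_lit 83) (nat_lit 260) (.spl (nat_lit 1) (nat_lit 300)
(.spl (nat_lit 0) (nat_lit 340)
(.spl (nat_lit 1) (nat_lit 290)
(.spl (nat_lit 0) (nat_lit 330)
(.spl (nat_lit 1) (nat_lit 285)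
(.trX (nat_lit 13) (nat_lit 88) (nat_lit 22) (nat_lit 100) (nat_lit 396) (.leaf p089_l54))
(.leaf p089_l55))
(.trX (nat_lit 13) (nat_lit 85) (nat_lit 27) (nat_lit 100) (nat_lit 396) (.spl (nat_lit 2) (nat_lit 360)
(.leaf p089_l56)
(.trX (nat_lit 22) (nat_lit 60) (nat_lit 100) (nat_lit 80) (nat_lit 200) (.spl (nat_lit 1) (nat_lit 285)
(.leaf p089_l57)
(.leaf p089_l58))))))
(.leaf p089_l59))
(.trX (nat_lit 13) (nat_lit 82) (nat_lit 29) (nat_lit 100) (nat_lit 396) (.spl (nat_lit 2) (nat_lit 360)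
(.spl (nat_lit 0) (nat_lit 350)
(.leaf p089_l60)
(.leaf p089_l61))
(.trX (nat_lit 22) (nat_lit 60) (nat_lit 100) (nat_lit 80) (nat_lit 200) (.spl (nat_lit 0) (nat_lit 350)
(.spl (nat_lit 1) (nat_lit 290)
(.trX (nat_lit 13) (nat_lit 80) (nat_lit 34) (nat_lit 100) (nat_lit 392) (.leaf p089_l62))
(.leaf p089_l63))
(.trX (nat_lit 13) (nat_lit 76) (nat_lit 37) (nat_lit 100) (nat_lit 392) (.spl (nat_lit 1) (nat_lit 290)
(.trX (nat_lit 13) (nat_lit 74) (nat_lit 42) (nat_lit 100) (nat_lit 388) (.spl (nat_lit 0) (nat_lit 355)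
(.leaf p089_l64)
(.trX (nat_lit 13) (nat_lit 71) (nat_lit 46) (nat_lit 100) (nat_lit 384) (.leaf p089_l65))))
(.leaf p089_l66))))))))
(.spl (nat_lit 0) (nat_lit 340)
(.leaf p089_l67)
(.spl (nat_lit 1) (nat_lit 310)
(.spl (nat_lit 0) (nat_lit 350)
(.leaf p089_l68)
(.trX (nat_lit 13) (nat_lit 79) (nat_lit 31) (nat_lit 100) (nat_lit 396) (.leaf p089_l69)))
(.leaf p089_l70))))))) (by decide +kernel)
noncomputable def p089_l71 : Lf2 := ⟨nat_lit 0, nat_lit 10, [nat_lit 0, nat_lit 5, nat_lit 5, nat_lit 20], true, nat_lit 80, nat_lit 160, nat_lit 0, nat_lit 300, ⟨nat_lit 0, nat_lit 1000, nat_lit 0, nat_lit 7, nat_lit 295, nat_lit 1000, nat_lit 87, nat_lit 0, nat_lit 0, nat_lit 0, nat_lit 0, nat_lit 0, nat_lit 40935510, nat_lit 22730646, nat_lit 3333844, nat_lit 4297781, true, false⟩,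
 nat_lit 0, nat_lit 0, nat_lit 0, nat_lit 0, nat_lit 4977, nat_lit 0, nat_lit 0, nat_lit 0, nat_lit 0, nat_lit 0, nat_lit 0, nat_lit 0, nat_lit 0, nat_lit 0, nat_lit 0, nat_lit 250000, nat_lit 0, nat_lit 0, [(nat_lit 18, [(nat_lit 0, nat_lit 1000)]), (nat_lit 21, [(nat_lit 0, nat_lit 1000)])],
 ⟨p089_k20, nat_lit 0, nat_lit 0, nat_lit 95, nat_lit 0, nat_lit 0, [nat_lit 1558400000, nat_lit 2168000000, nat_lit 2562000000], [], [nat_lit 20293188592, nat_lit 23339413368, nat_lit 24537744980, nat_lit 27600613636, nat_lit 20640836612, nat_lit 23373537476, nat_lit 24450030740, nat_lit 27120744788], nat_lit 0, nat_lit 0, nat_lit 0, nat_lit 0, nat_lit 0, nat_lit 0, [], [nat_lit 6, nat_lit 40, nat_lit 40, nat_lit 80, nat_lit 3, nat_lit 249, nat_lit 40, nat_lit 8]⟩, C1.Rw.none,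
 ⟨nat_lit 3162, nat_lit 4473, ⟨.ofNat (nat_lit 653959), .ofNat (nat_lit 790054), .ofNat (nat_lit 696911), .ofNat (nat_lit 833022), .ofNat (nat_lit 649288), .ofNat (nat_lit 771333), .ofNat (nat_lit 693416), .ofNat (nat_lit 815478)⟩, ⟨.ofNat (nat_lit 123532), .ofNat (nat_lit 259488), .ofNat (nat_lit 166665), .ofNat (nat_lit 302621), .ofNat (nat_lit 139899), .ofNat (nat_lit 261805), .ofNat (nat_lit 184209), .ofNat (nat_lit 306116)⟩⟩, []⟩
noncomputable def p089_l72 : Lf2 := ⟨nat_lit 0, nat_lit 10, [nat_lit 0, nat_lit 5, nat_lit 5, nat_lit 20], false, nat_lit 80, nat_lit 160, nat_lit 0, nat_lit 300, ⟨nat_lit 60, nat_lit 940, nat_lit 0, nat_lit 8, nat_lit 336, nat_lit 940, nat_lit 86, nat_lit 0, nat_lit 0, nat_lit 0, nat_lit 0, nat_lit 0, nat_lit 37308304, nat_lit 26605234, nat_lit 3086462, nat_lit 4379098, true, true⟩,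
 nat_lit 0, nat_lit 0, nat_lit 760, nat_lit 0, nat_lit 4547, nat_lit 483, nat_lit 0, nat_lit 0, nat_lit 0, nat_lit 28, nat_lit 0, nat_lit 0, nat_lit 0, nat_lit 0, nat_lit 0, nat_lit 235000, nat_lit 0, nat_lit 0, [(nat_lit 18, [(nat_lit 0, nat_lit 940)])],
 ⟨p089_k20, nat_lit 0, nat_lit 0, nat_lit 106, nat_lit 0, nat_lit 0, [nat_lit 1562752000, nat_lit 2319200000, nat_lit 2783280000], [], [nat_lit 24876526780, nat_lit 26073138582, nat_lit 27269750384, nat_lit 28338562492, nat_lit 24935494140, nat_lit 26017084030, nat_lit 27098673920, nat_lit 28068033802], nat_lit 0, nat_lit 0, nat_lit 0, nat_lit 0, nat_lit 0, nat_lit 0, [], [nat_lit 6, nat_lit 40, nat_lit 40, nat_lit 80, nat_lit 3, nat_lit 249, nat_lit 40, nat_lit 8]⟩, ⟨p089_k21, nat_lit 0, nat_lit 0, nat_lit 999, nat_lit 0, nat_lit 1837889, [nat_lit 196920000, nat_lit 375000000, nat_lit 590520000], [], [nat_lit 2349877960, nat_lit 2361681892, nat_lit 2374640044,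 nat_lit 2382428548, nat_lit 2016456169, nat_lit 2013959671, nat_lit 2024838777, nat_lit 2023891575], nat_lit 1271250, nat_lit 1271250, nat_lit 1271250, nat_lit 1271250, nat_lit 0, nat_lit 2118750, [nat_lit 780000, nat_lit 1435000, nat_lit 1271250], [nat_lit 8, nat_lit 40, nat_lit 40, nat_lit 80, nat_lit 1, nat_lit 373, nat_lit 75, nat_lit 10]⟩,
 ⟨nat_lit 3872, nat_lit 4473, ⟨.ofNat (nat_lit 790153), .ofNat (nat_lit 858139), .ofNat (nat_lit 833251), .ofNat (nat_lit 901237), .ofNat (nat_lit 780691), .ofNat (nat_lit 845220), .ofNat (nat_lit 824242), .ofNat (nat_lit 888771)⟩, ⟨.ofNat (nat_lit 123532), .ofNat (nat_lit 259489), .ofNat (nat_lit 166665), .ofNat (nat_lit 302621), .ofNat (nat_lit 132088), .ofNat (nat_lit 261131), .ofNat (nat_lit 175674), .ofNat (nat_lit 304717)⟩⟩, [⟨nat_lit 7, nat_lit 100, nat_lit 90, nat_lit 74, nat_lit 5506690⟩, ⟨nat_lit 22, nat_lit 77, nat_lit 100, nat_lit 99, nat_lit 1535073⟩]⟩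
noncomputable def p089_l73 : Lf2 := ⟨nat_lit 0, nat_lit 10, [nat_lit 0, nat_lit 5, nat_lit 5, nat_lit 20], true, nat_lit 80, nat_lit 160, nat_lit 0, nat_lit 300, ⟨nat_lit 0, nat_lit 1000, nat_lit 0, nat_lit 8, nat_lit 332, nat_lit 1000, nat_lit 88, nat_lit 0, nat_lit 0, nat_lit 0, nat_lit 0, nat_lit 0, nat_lit 37616042, nat_lit 26170769, nat_lit 3213189, nat_lit 4396182, true, true⟩,
 nat_lit 0, nat_lit 0, nat_lit 0, nat_lit 0, nat_lit 3498, nat_lit 0, nat_lit 150, nat_lit 0, nat_lit 0, nat_lit 0, nat_lit 0, nat_lit 0, nat_lit 0, nat_lit 0, nat_lit 0, nat_lit 250000, nat_lit 0, nat_lit 0, [(nat_lit 21, [(nat_lit 0, nat_lit 1000)])],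
 ⟨p089_k24, nat_lit 0, nat_lit 0, nat_lit 114, nat_lit 0, nat_lit 0, [nat_lit 1558400000, nat_lit 2146000001, nat_lit 2146000000], [], [nat_lit 24753835106, nat_lit 25794982106, nat_lit 26770839600, nat_lit 27937224536, nat_lit 25145887934, nat_lit 26063279738, nat_lit 26895970478, nat_lit 27884805688], nat_lit 0, nat_lit 0, nat_lit 0, nat_lit 0, nat_lit 0, nat_lit 0, [], [nat_lit 6, nat_lit 40, nat_lit 40, nat_lit 80, nat_lit 3, nat_lit 249, nat_lit 40, nat_lit 8]⟩, C1.Rw.none,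
 ⟨nat_lit 3162, nat_lit 3873, ⟨.ofNat (nat_lit 780717), .ofNat (nat_lit 845258), .ofNat (nat_lit 824248), .ofNat (nat_lit 888802), .ofNat (nat_lit 771459), .ofNat (nat_lit 832432), .ofNat (nat_lit 815713), .ofNat (nat_lit 876699)⟩, ⟨.ofNat (nat_lit 132088), .ofNat (nat_lit 261131), .ofNat (nat_lit 175674), .ofNat (nat_lit 304717), .ofNat (nat_lit 139899), .ofNat (nat_lit 261806), .ofNat (nat_lit 184209), .ofNat (nat_lit 306116)⟩⟩, []⟩
noncomputable def p089_l74 : Lf2 := ⟨nat_lit 0, nat_lit 10, [nat_lit 0, nat_lit 5, nat_lit 5, nat_lit 20], false, nat_lit 80, nat_lit 160, nat_lit 8, nat_lit 288, ⟨nat_lit 79, nat_lit 921, nat_lit 0, nat_lit 9, nat_lit 358, nat_lit 921, nat_lit 86, nat_lit 0, nat_lit 0, nat_lit 0, nat_lit 0, nat_lit 0, nat_lit 35429854, nat_lit 28595084, nat_lit 2975062, nat_lit 4395778, true, true⟩,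
 nat_lit 0, nat_lit 0, nat_lit 982, nat_lit 0, nat_lit 3888, nat_lit 624, nat_lit 0, nat_lit 0, nat_lit 0, nat_lit 33, nat_lit 0, nat_lit 0, nat_lit 0, nat_lit 0, nat_lit 0, nat_lit 351300, nat_lit 0, nat_lit 0, [(nat_lit 18, [(nat_lit 0, nat_lit 114), (nat_lit 1, nat_lit 807)])],
 ⟨p089_k20, nat_lit 0, nat_lit 0, nat_lit 124, nat_lit 0, nat_lit 0, [nat_lit 1463560801, nat_lit 2204604000, nat_lit 2368183600], [], [nat_lit 26867127536, nat_lit 27866504768, nat_lit 29244662896, nat_lit 30131838208, nat_lit 26944963280, nat_lit 27855141008, nat_lit 29108632304, nat_lit 29919888208], nat_lit 0, nat_lit 0, nat_lit 0, nat_lit 0, nat_lit 0, nat_lit 0, [], [nat_lit 6, nat_lit 40, nat_lit 40, nat_lit 80, nat_lit 3, nat_lit 249, nat_lit 40, nat_lit 8]⟩, ⟨p089_k21, nat_lit 0, nat_lit 0, nat_lit 904, nat_lit 0, nat_lit 1666359, [nat_lit 259278000, nat_lit 493750000, nat_lit 777518000], [], [nat_lit 3210730587, nat_lit 3216084867,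 nat_lit 3253977925, nat_lit 3262514860, nat_lit 2790408992, nat_lit 2787805129, nat_lit 2812359562, nat_lit 2807783766], nat_lit 1271250, nat_lit 1271250, nat_lit 1271250, nat_lit 1271250, nat_lit 43600, nat_lit 2042100, [nat_lit 780000, nat_lit 1435000, nat_lit 1271250], [nat_lit 8, nat_lit 40, nat_lit 40, nat_lit 80, nat_lit 1, nat_lit 350, nat_lit 75, nat_lit 9]⟩,
 ⟨nat_lit 3872, nat_lit 4473, ⟨.ofNat (nat_lit 858139), .ofNat (nat_lit 926124), .ofNat (nat_lit 879688), .ofNat (nat_lit 947674), .ofNat (nat_lit 845220), .ofNat (nat_lit 909748), .ofNat (nat_lit 866995), .ofNat (nat_lit 931525)⟩, ⟨.ofNat (nat_lit 123532), .ofNat (nat_lit 259489), .ofNat (nat_lit 166665), .ofNat (nat_lit 302621), .ofNat (nat_lit 132088), .ofNat (nat_lit 261131), .ofNat (nat_lit 175674), .ofNat (nat_lit 304717)⟩⟩, [⟨nat_lit 13, nat_lit 85, nat_lit 27, nat_lit 100, nat_lit 181131523⟩, ⟨nat_lit 10, nat_lit 100, nat_lit 15, nat_lit 95,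 nat_lit 38575985⟩]⟩
noncomputable def p089_l75 : Lf2 := ⟨nat_lit 0, nat_lit 10, [nat_lit 0, nat_lit 5, nat_lit 5, nat_lit 20], true, nat_lit 80, nat_lit 160, nat_lit 8, nat_lit 288, ⟨nat_lit 0, nat_lit 1000, nat_lit 0, nat_lit 9, nat_lit 351, nat_lit 1000, nat_lit 88, nat_lit 0, nat_lit 0, nat_lit 0, nat_lit 0, nat_lit 0, nat_lit 35955900, nat_lit 27931456, nat_lit 3112644, nat_lit 4415140, true, true⟩,
 nat_lit 0, nat_lit 0, nat_lit 0, nat_lit 0, nat_lit 3334, nat_lit 0, nat_lit 100, nat_lit 0, nat_lit 0, nat_lit 0, nat_lit 0, nat_lit 0, nat_lit 0, nat_lit 0, nat_lit 0, nat_lit 297550, nat_lit 0, nat_lit 0, [(nat_lit 21, [(nat_lit 0, nat_lit 683), (nat_lit 1, nat_lit 317)])],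
 ⟨p089_k24, nat_lit 0, nat_lit 0, nat_lit 128, nat_lit 0, nat_lit 0, [nat_lit 1493985601, nat_lit 1938935601, nat_lit 1938682000], [], [nat_lit 26817555124, nat_lit 27758560700, nat_lit 28847072516, nat_lit 29868596811, nat_lit 27111899267, nat_lit 27934354127, nat_lit 28769217631, nat_lit 29705854227], nat_lit 0, nat_lit 0, nat_lit 0, nat_lit 0, nat_lit 0, nat_lit 0, [], [nat_lit 6, nat_lit 40, nat_lit 40, nat_lit 80, nat_lit 3, nat_lit 249, nat_lit 40, nat_lit 8]⟩, C1.Rw.none,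
 ⟨nat_lit 3162, nat_lit 3873, ⟨.ofNat (nat_lit 845258), .ofNat (nat_lit 903327), .ofNat (nat_lit 867032), .ofNat (nat_lit 925121), .ofNat (nat_lit 832432), .ofNat (nat_lit 887290), .ofNat (nat_lit 854567), .ofNat (nat_lit 909444)⟩, ⟨.ofNat (nat_lit 132088), .ofNat (nat_lit 261131), .ofNat (nat_lit 175674), .ofNat (nat_lit 304717), .ofNat (nat_lit 139899), .ofNat (nat_lit 261806), .ofNat (nat_lit 184209), .ofNat (nat_lit 306116)⟩⟩, [⟨nat_lit 13, nat_lit 82, nat_lit 29, nat_lit 100, nat_lit 234097439⟩]⟩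
noncomputable def p089_l76 : Lf2 := ⟨nat_lit 0, nat_lit 10, [nat_lit 0, nat_lit 5, nat_lit 5, nat_lit 20], false, nat_lit 80, nat_lit 160, nat_lit 8, nat_lit 280, ⟨nat_lit 256, nat_lit 744, nat_lit 0, nat_lit 9, nat_lit 367, nat_lit 744, nat_lit 86, nat_lit 0, nat_lit 0, nat_lit 0, nat_lit 0, nat_lit 0, nat_lit 34717870, nat_lit 29351057, nat_lit 2931073, nat_lit 4396794, true, true⟩,
 nat_lit 0, nat_lit 0, nat_lit 2306, nat_lit 0, nat_lit 3689, nat_lit 1596, nat_lit 0, nat_lit 0, nat_lit 0, nat_lit 216, nat_lit 0, nat_lit 0, nat_lit 0, nat_lit 0, nat_lit 0, nat_lit 582000, nat_lit 0, nat_lit 0, [(nat_lit 18, [(nat_lit 1, nat_lit 270), (nat_lit 2, nat_lit 474)])],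
 ⟨p089_k20, nat_lit 0, nat_lit 0, nat_lit 124, nat_lit 0, nat_lit 0, [nat_lit 1704372801, nat_lit 2226616000, nat_lit 1919339200], [], [nat_lit 26422049808, nat_lit 27400459604, nat_lit 28742229388, nat_lit 29761627214, nat_lit 26620334385, nat_lit 27468902955, nat_lit 28688999512, nat_lit 29486154674], nat_lit 0, nat_lit 0, nat_lit 0, nat_lit 0, nat_lit 0, nat_lit 0, [], [nat_lit 6, nat_lit 40, nat_lit 40, nat_lit 80, nat_lit 3, nat_lit 249, nat_lit 40, nat_lit 8]⟩, ⟨p089_k23, nat_lit 0, nat_lit 0, nat_lit 825, nat_lit 0, nat_lit 1630547, [nat_lit 840192000, nat_lit 1600000000, nat_lit 2039808000], [], [nat_lit 9075410540, nat_lit 9148996037, nat_lit 9463914471, nat_lit 9768352516, nat_lit 8484953512, nat_lit 8526857472, nat_lit 8646000412, nat_lit 8680222800], nat_lit 1271250, nat_lit 1271250, nat_lit 1271250, nat_lit 1271250, nat_lit 43600, nat_lit 1985000, [nat_lit 780000, nat_lit 1435000, nat_lit 1271250],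 [nat_lit 18, nat_lit 40, nat_lit 40, nat_lit 80, nat_lit 2, nat_lit 332, nat_lit 75, nat_lit 10]⟩,
 ⟨nat_lit 3872, nat_lit 4473, ⟨.ofNat (nat_lit 879688), .ofNat (nat_lit 947674), .ofNat (nat_lit 901237), .ofNat (nat_lit 969223), .ofNat (nat_lit 866995), .ofNat (nat_lit 931525), .ofNat (nat_lit 888771), .ofNat (nat_lit 953301)⟩, ⟨.ofNat (nat_lit 123532), .ofNat (nat_lit 259489), .ofNat (nat_lit 166665), .ofNat (nat_lit 302621), .ofNat (nat_lit 132088), .ofNat (nat_lit 261131), .ofNat (nat_lit 175674), .ofNat (nat_lit 304717)⟩⟩, [⟨nat_lit 7, nat_lit 100, nat_lit 85, nat_lit 73, nat_lit 11689897⟩, ⟨nat_lit 10, nat_lit 100, nat_lit 13, nat_lit 95, nat_lit 146265999⟩]⟩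
noncomputable def p089_l77 : Lf2 := ⟨nat_lit 0, nat_lit 10, [nat_lit 0, nat_lit 5, nat_lit 5, nat_lit 20], false, nat_lit 80, nat_lit 160, nat_lit 8, nat_lit 280, ⟨nat_lit 97, nat_lit 903, nat_lit 0, nat_lit 9, nat_lit 361, nat_lit 903, nat_lit 88, nat_lit 0, nat_lit 0, nat_lit 0, nat_lit 0, nat_lit 0, nat_lit 35123499, nat_lit 28816365, nat_lit 3060136, nat_lit 4418610, true, true⟩,
 nat_lit 0, nat_lit 0, nat_lit 920, nat_lit 0, nat_lit 3485, nat_lit 636, nat_lit 133, nat_lit 0, nat_lit 0, nat_lit 47, nat_lit 0, nat_lit 0, nat_lit 0, nat_lit 0, nat_lit 0, nat_lit 225750, nat_lit 0, nat_lit 0, [(nat_lit 21, [(nat_lit 0, nat_lit 903)])],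
 ⟨p089_k24, nat_lit 0, nat_lit 0, nat_lit 129, nat_lit 0, nat_lit 0, [nat_lit 1604339200, nat_lit 2392574001, nat_lit 2544088000], [], [nat_lit 27247397335, nat_lit 28204312875, nat_lit 29405278885, nat_lit 30409572960, nat_lit 27451029285, nat_lit 28284395986, nat_lit 29366215885, nat_lit 30149764600], nat_lit 0, nat_lit 0, nat_lit 0, nat_lit 0, nat_lit 0, nat_lit 0, [], [nat_lit 6, nat_lit 40, nat_lit 40, nat_lit 80, nat_lit 3, nat_lit 249, nat_lit 40, nat_lit 8]⟩, ⟨p089_k23, nat_lit 0, nat_lit 0, nat_lit 931, nat_lit 0, nat_lit 1876805, [nat_lit 318354000, nat_lit 606250000, nat_lit 772896000], [], [nat_lit 3588094574, nat_lit 3605490095, nat_lit 3667262786, nat_lit 3785442251, nat_lit 3302738417, nat_lit 3310344621, nat_lit 3344320646, nat_lit 3349605585], nat_lit 1271250, nat_lit 1271250, nat_lit 1271250, nat_lit 1271250, nat_lit 43600, nat_lit 1985000, [nat_lit 780000, nat_lit 1435000, nat_lit 1271250],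 [nat_lit 18, nat_lit 40, nat_lit 40, nat_lit 80, nat_lit 2, nat_lit 358, nat_lit 75, nat_lit 11]⟩,
 ⟨nat_lit 3162, nat_lit 3873, ⟨.ofNat (nat_lit 867032), .ofNat (nat_lit 931573), .ofNat (nat_lit 888802), .ofNat (nat_lit 953347), .ofNat (nat_lit 854567), .ofNat (nat_lit 915540), .ofNat (nat_lit 876699), .ofNat (nat_lit 937676)⟩, ⟨.ofNat (nat_lit 132088), .ofNat (nat_lit 261131), .ofNat (nat_lit 175674), .ofNat (nat_lit 304717), .ofNat (nat_lit 139899), .ofNat (nat_lit 261806), .ofNat (nat_lit 184209), .ofNat (nat_lit 306116)⟩⟩, [⟨nat_lit 13, nat_lit 79, nat_lit 31, nat_lit 100, nat_lit 202294448⟩, ⟨nat_lit 22, nat_lit 44, nat_lit 100, nat_lit 92, nat_lit 21327160⟩]⟩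
noncomputable def b_V_800_700_10_2 : St := ⟨true, nat_lit 0, nat_lit 1, nat_lit 1, nat_lit 80, nat_lit 320, nat_lit 360, nat_lit 280, nat_lit 320, nat_lit 240, nat_lit 400, nat_lit 40, nat_lit 80, nat_lit 80, nat_lit 160, nat_lit 0, nat_lit 300, nat_lit 0, nat_lit 40, nat_lit 0, nat_lit 0, nat_lit 0, nat_lit 0⟩
theorem d_V_800_700_10_2 (h : EB TB.env) : Dead b_V_800_700_10_2 := chkB_sound0 h (T :=
(.spl (nat_lit 2) (nat_lit 320)
(.leaf p089_l71)
(.spl (nat_lit 2) (nat_lit 360)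
(.spl (nat_lit 0) (nat_lit 340)
(.leaf p089_l72)
(.leaf p089_l73))
(.trZ (nat_lit 9) (nat_lit 100) (nat_lit 75) (nat_lit 35) (nat_lit 8) (.trX (nat_lit 22) (nat_lit 61) (nat_lit 92) (nat_lit 100) (nat_lit 288) (.spl (nat_lit 1) (nat_lit 300)
(.spl (nat_lit 0) (nat_lit 340)
(.leaf p089_l74)
(.trX (nat_lit 13) (nat_lit 82) (nat_lit 29) (nat_lit 100) (nat_lit 396) (.leaf p089_l75)))
(.trX (nat_lit 19) (nat_lit 94) (nat_lit 100) (nat_lit 87) (nat_lit 280) (.spl (nat_lit 0) (nat_lit 340)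
(.leaf p089_l76)
(.leaf p089_l77))))))))) (by decide +kernel)
noncomputable def p089_l78 : Lf2 := ⟨nat_lit 0, nat_lit 10, [nat_lit 0, nat_lit 5, nat_lit 5, nat_lit 20], false, nat_lit 160, nat_lit 260, nat_lit 0, nat_lit 300, ⟨nat_lit 76, nat_lit 924, nat_lit 0, nat_lit 7, nat_lit 292, nat_lit 924, nat_lit 146, nat_lit 0, nat_lit 0, nat_lit 0, nat_lit 0, nat_lit 0, nat_lit 38572891, nat_lit 21374357, nat_lit 7052752, nat_lit 4920704, true, false⟩,
 nat_lit 0, nat_lit 0, nat_lit 1015, nat_lit 0, nat_lit 3170, nat_lit 645, nat_lit 0, nat_lit 0, nat_lit 0, nat_lit 45, nat_lit 0, nat_lit 0, nat_lit 0, nat_lit 0, nat_lit 0, nat_lit 231000, nat_lit 0, nat_lit 0, [(nat_lit 18, [(nat_lit 0, nat_lit 924)])],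
 ⟨p089_k20, nat_lit 0, nat_lit 0, nat_lit 51, nat_lit 0, nat_lit 0, [nat_lit 1570739200, nat_lit 2359520000, nat_lit 2842288000], [], [nat_lit 19418813240, nat_lit 20714413440, nat_lit 23221201560, nat_lit 24312405920, nat_lit 22631296860, nat_lit 23717948960, nat_lit 25807568900, nat_lit 26769364945], nat_lit 0, nat_lit 0, nat_lit 0, nat_lit 0, nat_lit 0, nat_lit 0, [], [nat_lit 6, nat_lit 40, nat_lit 40, nat_lit 80, nat_lit 3, nat_lit 289, nat_lit 75, nat_lit 9]⟩, ⟨p089_k21, nat_lit 0, nat_lit 0, nat_lit 932, nat_lit 0, nat_lit 1666359, [nat_lit 249432000, nat_lit 475000000, nat_lit 747992000], [], [nat_lit 2673306096, nat_lit 2690001128, nat_lit 2715196756, nat_lit 2726240884, nat_lit 2289059576, nat_lit 2293372483, nat_lit 2286672037, nat_lit 2287011369], nat_lit 1271250, nat_lit 1271250, nat_lit 1271250, nat_lit 1271250, nat_lit 0, nat_lit 2118750, [nat_lit 780000, nat_lit 1435000, nat_lit 1271250], [nat_lit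 8, nat_lit 40, nat_lit 40, nat_lit 80, nat_lit 1, nat_lit 401, nat_lit 175, nat_lit 11]⟩,
 ⟨nat_lit 3872, nat_lit 4473, ⟨.ofNat (nat_lit 654181), .ofNat (nat_lit 790153), .ofNat (nat_lit 675730), .ofNat (nat_lit 811702), .ofNat (nat_lit 651631), .ofNat (nat_lit 780691), .ofNat (nat_lit 673407), .ofNat (nat_lit 802466)⟩, ⟨.ofNat (nat_lit 259489), .ofNat (nat_lit 429434), .ofNat (nat_lit 302621), .ofNat (nat_lit 472567), .ofNat (nat_lit 261131), .ofNat (nat_lit 422435), .ofNat (nat_lit 304717), .ofNat (nat_lit 466021)⟩⟩, [⟨nat_lit 16, nat_lit 83, nat_lit 100, nat_lit 83, nat_lit 203617217⟩, ⟨nat_lit 19, nat_lit 100, nat_lit 95, nat_lit 87, nat_lit 7361562⟩]⟩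
noncomputable def p089_l79 : Lf2 := ⟨nat_lit 0, nat_lit 10, [nat_lit 0, nat_lit 5, nat_lit 5, nat_lit 20], false, nat_lit 160, nat_lit 260, nat_lit 0, nat_lit 280, ⟨nat_lit 236, nat_lit 764, nat_lit 0, nat_lit 7, nat_lit 301, nat_lit 764, nat_lit 146, nat_lit 0, nat_lit 0, nat_lit 0, nat_lit 0, nat_lit 0, nat_lit 37876550, nat_lit 22158542, nat_lit 6964908, nat_lit 4942601, true, false⟩,
 nat_lit 0, nat_lit 0, nat_lit 2217, nat_lit 0, nat_lit 3092, nat_lit 1534, nat_lit 0, nat_lit 0, nat_lit 0, nat_lit 406, nat_lit 0, nat_lit 0, nat_lit 0, nat_lit 0, nat_lit 0, nat_lit 305600, nat_lit 0, nat_lit 0, [(nat_lit 18, [(nat_lit 1, nat_lit 764)])],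
 ⟨p089_k20, nat_lit 0, nat_lit 0, nat_lit 51, nat_lit 0, nat_lit 0, [nat_lit 1547725867, nat_lit 2608901334, nat_lit 2973051200], [], [nat_lit 19446810971, nat_lit 20727773691, nat_lit 23216182203, nat_lit 24289885243, nat_lit 22646566083, nat_lit 23722147643, nat_lit 25800176067, nat_lit 26710500959], nat_lit 0, nat_lit 0, nat_lit 0, nat_lit 0, nat_lit 0, nat_lit 0, [], [nat_lit 6, nat_lit 40, nat_lit 40, nat_lit 80, nat_lit 3, nat_lit 289, nat_lit 75, nat_lit 9]⟩, ⟨p089_k23, nat_lit 0, nat_lit 0, nat_lit 855, nat_lit 0, nat_lit 1630547, [nat_lit 774552000, nat_lit 1475000000, nat_lit 1880448000], [], [nat_lit 6698801236, nat_lit 6828231896, nat_lit 7108282476, nat_lit 7435246552, nat_lit 6499305008, nat_lit 6579420164, nat_lit 6738190580, nat_lit 6810569656], nat_lit 1271250, nat_lit 1271250, nat_lit 1271250, nat_lit 1271250, nat_lit 0, nat_lit 1977500, [nat_lit 780000, nat_lit 1435000, nat_lit 1271250], [nat_lit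 18, nat_lit 40, nat_lit 40, nat_lit 80, nat_lit 2, nat_lit 329, nat_lit 75, nat_lit 10]⟩,
 ⟨nat_lit 3872, nat_lit 4473, ⟨.ofNat (nat_lit 675730), .ofNat (nat_lit 811702), .ofNat (nat_lit 697279), .ofNat (nat_lit 833251), .ofNat (nat_lit 673407), .ofNat (nat_lit 802466), .ofNat (nat_lit 695183), .ofNat (nat_lit 824242)⟩, ⟨.ofNat (nat_lit 259489), .ofNat (nat_lit 429434), .ofNat (nat_lit 302621), .ofNat (nat_lit 472567), .ofNat (nat_lit 261131), .ofNat (nat_lit 422435), .ofNat (nat_lit 304717), .ofNat (nat_lit 466021)⟩⟩, [⟨nat_lit 16, nat_lit 83, nat_lit 100, nat_lit 83, nat_lit 254602833⟩, ⟨nat_lit 19, nat_lit 94, nat_lit 100, nat_lit 87, nat_lit 37146176⟩]⟩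
noncomputable def p089_l80 : Lf2 := ⟨nat_lit 0, nat_lit 10, [nat_lit 0, nat_lit 5, nat_lit 5, nat_lit 20], true, nat_lit 160, nat_lit 232, nat_lit 0, nat_lit 300, ⟨nat_lit 0, nat_lit 1000, nat_lit 0, nat_lit 7, nat_lit 295, nat_lit 1000, nat_lit 136, nat_lit 0, nat_lit 0, nat_lit 0, nat_lit 0, nat_lit 0, nat_lit 38820604, nat_lit 21810074, nat_lit 6369322, nat_lit 4834560, true, false⟩,
 nat_lit 0, nat_lit 0, nat_lit 0, nat_lit 0, nat_lit 3133, nat_lit 0, nat_lit 0, nat_lit 0, nat_lit 0, nat_lit 0, nat_lit 0, nat_lit 0, nat_lit 0, nat_lit 0, nat_lit 0, nat_lit 250000, nat_lit 0, nat_lit 0, [(nat_lit 21, [(nat_lit 0, nat_lit 1000)])],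
 ⟨p089_k24, nat_lit 0, nat_lit 0, nat_lit 56, nat_lit 0, nat_lit 0, [nat_lit 1558400000, nat_lit 2146000001, nat_lit 2146000000], [], [nat_lit 20719328376, nat_lit 21363656766, nat_lit 24296866424, nat_lit 24850856230, nat_lit 22715137895, nat_lit 23285916361, nat_lit 25886736358, nat_lit 26391057999], nat_lit 0, nat_lit 0, nat_lit 0, nat_lit 0, nat_lit 0, nat_lit 0, [], [nat_lit 6, nat_lit 40, nat_lit 40, nat_lit 80, nat_lit 3, nat_lit 272, nat_lit 60, nat_lit 9]⟩, C1.Rw.none,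
 ⟨nat_lit 3535, nat_lit 3873, ⟨.ofNat (nat_lit 651675), .ofNat (nat_lit 780730), .ofNat (nat_lit 695250), .ofNat (nat_lit 824304), .ofNat (nat_lit 650552), .ofNat (nat_lit 776087), .ofNat (nat_lit 694446), .ofNat (nat_lit 819980)⟩, ⟨.ofNat (nat_lit 261131), .ofNat (nat_lit 377270), .ofNat (nat_lit 304717), .ofNat (nat_lit 420856), .ofNat (nat_lit 261616), .ofNat (nat_lit 374587), .ofNat (nat_lit 305521), .ofNat (nat_lit 418492)⟩⟩, [⟨nat_lit 16, nat_lit 72, nat_lit 100, nat_lit 81, nat_lit 198984744⟩]⟩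
noncomputable def p089_l81 : Lf2 := ⟨nat_lit 0, nat_lit 10, [nat_lit 0, nat_lit 5, nat_lit 5, nat_lit 20], true, nat_lit 160, nat_lit 216, nat_lit 0, nat_lit 300, ⟨nat_lit 0, nat_lit 1000, nat_lit 0, nat_lit 7, nat_lit 294, nat_lit 1000, nat_lit 131, nat_lit 0, nat_lit 0, nat_lit 0, nat_lit 0, nat_lit 0, nat_lit 39162033, nat_lit 21816800, nat_lit 6021167, nat_lit 4777851, true, false⟩,
 nat_lit 0, nat_lit 0, nat_lit 0, nat_lit 0, nat_lit 3743, nat_lit 0, nat_lit 0, nat_lit 0, nat_lit 0, nat_lit 0, nat_lit 0, nat_lit 0, nat_lit 0, nat_lit 0, nat_lit 0, nat_lit 250000, nat_lit 0, nat_lit 0, [(nat_lit 21, [(nat_lit 0, nat_lit 1000)])],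
 ⟨p089_k25, nat_lit 0, nat_lit 0, nat_lit 46, nat_lit 0, nat_lit 0, [nat_lit 1558400000, nat_lit 1963600000], [], [nat_lit 22173093167, nat_lit 22768772700, nat_lit 25473578886, nat_lit 26002206628, nat_lit 23502572220, nat_lit 24069825759, nat_lit 26534880181, nat_lit 27092935407], nat_lit 0, nat_lit 0, nat_lit 0, nat_lit 0, nat_lit 0, nat_lit 0, [], [nat_lit 24, nat_lit 40, nat_lit 40, nat_lit 80, nat_lit 33, nat_lit 203, nat_lit 0, nat_lit 7]⟩, C1.Rw.none,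
 ⟨nat_lit 3162, nat_lit 3536, ⟨.ofNat (nat_lit 650549), .ofNat (nat_lit 776092), .ofNat (nat_lit 694437), .ofNat (nat_lit 819981), .ofNat (nat_lit 649550), .ofNat (nat_lit 771477), .ofNat (nat_lit 693843), .ofNat (nat_lit 815770)⟩, ⟨.ofNat (nat_lit 261616), .ofNat (nat_lit 349482), .ofNat (nat_lit 305521), .ofNat (nat_lit 393387), .ofNat (nat_lit 261806), .ofNat (nat_lit 347141), .ofNat (nat_lit 306116), .ofNat (nat_lit 391450)⟩⟩, [⟨nat_lit 16, nat_lit 66, nat_lit 100, nat_lit 80, nat_lit 199297903⟩]⟩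
noncomputable def p089_l82 : Lf2 := ⟨nat_lit 0, nat_lit 10, [nat_lit 0, nat_lit 5, nat_lit 5, nat_lit 20], false, nat_lit 160, nat_lit 260, nat_lit 16, nat_lit 300, ⟨nat_lit 78, nat_lit 922, nat_lit 0, nat_lit 8, nat_lit 332, nat_lit 922, nat_lit 146, nat_lit 0, nat_lit 0, nat_lit 0, nat_lit 0, nat_lit 0, nat_lit 35446041, nat_lit 24912993, nat_lit 6640966, nat_lit 4990771, true, true⟩,
 nat_lit 0, nat_lit 0, nat_lit 1000, nat_lit 0, nat_lit 3852, nat_lit 636, nat_lit 0, nat_lit 0, nat_lit 0, nat_lit 39, nat_lit 0, nat_lit 0, nat_lit 0, nat_lit 0, nat_lit 0, nat_lit 230500, nat_lit 0, nat_lit 0, [(nat_lit 18, [(nat_lit 0, nat_lit 922)])],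
 ⟨p089_k20, nat_lit 0, nat_lit 0, nat_lit 67, nat_lit 0, nat_lit 0, [nat_lit 1571737600, nat_lit 2364560001, nat_lit 2849664000], [], [nat_lit 24227356241, nat_lit 25297777617, nat_lit 26368198993, nat_lit 27331581897, nat_lit 26594475625, nat_lit 27495315727, nat_lit 28396155829, nat_lit 29257236096], nat_lit 0, nat_lit 0, nat_lit 0, nat_lit 0, nat_lit 0, nat_lit 0, [], [nat_lit 6, nat_lit 40, nat_lit 40, nat_lit 80, nat_lit 3, nat_lit 289, nat_lit 75, nat_lit 9]⟩, ⟨p089_k21, nat_lit 0, nat_lit 0, nat_lit 905, nat_lit 0, nat_lit 1666359, [nat_lit 255996000, nat_lit 487500000, nat_lit 767676000], [], [nat_lit 2934637770, nat_lit 2941819547, nat_lit 2965881426, nat_lit 2970458343, nat_lit 2551041060, nat_lit 2552245323, nat_lit 2568245808, nat_lit 2567341710], nat_lit 1271250, nat_lit 1271250, nat_lit 1271250, nat_lit 1271250, nat_lit 88400, nat_lit 2136750, [nat_lit 780000, nat_lit 1435000, nat_lit 1271250], [nat_lit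 8, nat_lit 40, nat_lit 40, nat_lit 80, nat_lit 1, nat_lit 347, nat_lit 75, nat_lit 9]⟩,
 ⟨nat_lit 3872, nat_lit 4473, ⟨.ofNat (nat_lit 790153), .ofNat (nat_lit 858139), .ofNat (nat_lit 811702), .ofNat (nat_lit 879688), .ofNat (nat_lit 780691), .ofNat (nat_lit 845220), .ofNat (nat_lit 802466), .ofNat (nat_lit 866995)⟩, ⟨.ofNat (nat_lit 259489), .ofNat (nat_lit 429434), .ofNat (nat_lit 302621), .ofNat (nat_lit 472567), .ofNat (nat_lit 261131), .ofNat (nat_lit 422435), .ofNat (nat_lit 304717), .ofNat (nat_lit 466021)⟩⟩, [⟨nat_lit 16, nat_lit 83, nat_lit 100, nat_lit 83, nat_lit 170969026⟩, ⟨nat_lit 19, nat_lit 100, nat_lit 95, nat_lit 87, nat_lit 8316667⟩]⟩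
noncomputable def p089_l83 : Lf2 := ⟨nat_lit 0, nat_lit 10, [nat_lit 0, nat_lit 5, nat_lit 5, nat_lit 20], true, nat_lit 160, nat_lit 232, nat_lit 16, nat_lit 300, ⟨nat_lit 0, nat_lit 1000, nat_lit 0, nat_lit 8, nat_lit 327, nat_lit 1000, nat_lit 136, nat_lit 0, nat_lit 0, nat_lit 0, nat_lit 0, nat_lit 0, nat_lit 36189232, nat_lit 24763697, nat_lit 6047071, nat_lit 4893975, true, true⟩,
 nat_lit 0, nat_lit 0, nat_lit 0, nat_lit 0, nat_lit 3708, nat_lit 0, nat_lit 0, nat_lit 0, nat_lit 0, nat_lit 0, nat_lit 0, nat_lit 0, nat_lit 0, nat_lit 0, nat_lit 0, nat_lit 250000, nat_lit 0, nat_lit 0, [(nat_lit 21, [(nat_lit 0, nat_lit 1000)])],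
 ⟨p089_k24, nat_lit 0, nat_lit 0, nat_lit 73, nat_lit 0, nat_lit 0, [nat_lit 1558400000, nat_lit 2146000001, nat_lit 2146000000], [], [nat_lit 25142806865, nat_lit 26195834769, nat_lit 27144802985, nat_lit 28130958448, nat_lit 26568260684, nat_lit 27504598037, nat_lit 28351043797, nat_lit 29320407189], nat_lit 0, nat_lit 0, nat_lit 0, nat_lit 0, nat_lit 0, nat_lit 0, [], [nat_lit 6, nat_lit 40, nat_lit 40, nat_lit 80, nat_lit 3, nat_lit 272, nat_lit 60, nat_lit 8]⟩, C1.Rw.none,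
 ⟨nat_lit 3162, nat_lit 3873, ⟨.ofNat (nat_lit 780717), .ofNat (nat_lit 845258), .ofNat (nat_lit 802484), .ofNat (nat_lit 867032), .ofNat (nat_lit 771459), .ofNat (nat_lit 832432), .ofNat (nat_lit 793588), .ofNat (nat_lit 854567)⟩, ⟨.ofNat (nat_lit 261131), .ofNat (nat_lit 377270), .ofNat (nat_lit 304717), .ofNat (nat_lit 420856), .ofNat (nat_lit 261806), .ofNat (nat_lit 371522), .ofNat (nat_lit 306116), .ofNat (nat_lit 415832)⟩⟩, [⟨nat_lit 16, nat_lit 72, nat_lit 100, nat_lit 81, nat_lit 160701100⟩]⟩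
noncomputable def p089_l84 : Lf2 := ⟨nat_lit 0, nat_lit 10, [nat_lit 0, nat_lit 5, nat_lit 5, nat_lit 20], false, nat_lit 160, nat_lit 260, nat_lit 48, nat_lit 300, ⟨nat_lit 249, nat_lit 751, nat_lit 0, nat_lit 9, nat_lit 358, nat_lit 751, nat_lit 146, nat_lit 0, nat_lit 0, nat_lit 0, nat_lit 0, nat_lit 0, nat_lit 33509309, nat_lit 27107907, nat_lit 6382784, nat_lit 5000891, true, true⟩,
 nat_lit 0, nat_lit 0, nat_lit 2643, nat_lit 0, nat_lit 3376, nat_lit 1681, nat_lit 378, nat_lit 0, nat_lit 0, nat_lit 241, nat_lit 0, nat_lit 0, nat_lit 0, nat_lit 0, nat_lit 0, nat_lit 300400, nat_lit 0, nat_lit 0, [(nat_lit 18, [(nat_lit 1, nat_lit 751)])],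
 ⟨p089_k31, nat_lit 0, nat_lit 0, nat_lit 84, nat_lit 0, nat_lit 0, [nat_lit 1524324001, nat_lit 2130767067, nat_lit 3031551645], [], [nat_lit 26475967902, nat_lit 26887242342, nat_lit 28410757853, nat_lit 28798246157, nat_lit 28356016150, nat_lit 28707722110, nat_lit 30049963803, nat_lit 30417038522], nat_lit 0, nat_lit 0, nat_lit 0, nat_lit 0, nat_lit 0, nat_lit 0, [], [nat_lit 85, nat_lit 40, nat_lit 40, nat_lit 80, nat_lit 16, nat_lit 289, nat_lit 75, nat_lit 9]⟩, ⟨p089_k32, nat_lit 0, nat_lit 0, nat_lit 771, nat_lit 0, nat_lit 1447397, [nat_lit 817218000, nat_lit 1167312000, nat_lit 2450658000], [], [nat_lit 8726454603, nat_lit 8758634683, nat_lit 8966142202, nat_lit 8992967982, nat_lit 8270121900, nat_lit 8285779776, nat_lit 8424511391, nat_lit 8452183400], nat_lit 1271250, nat_lit 1271250, nat_lit 1271250, nat_lit 1271250, nat_lit 279600, nat_lit 2172750, [nat_lit 780000, nat_lit 1100000, nat_lit 2127500],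 [nat_lit 42, nat_lit 40, nat_lit 40, nat_lit 80, nat_lit 13, nat_lit 317, nat_lit 75, nat_lit 8]⟩,
 ⟨nat_lit 4183, nat_lit 4473, ⟨.ofNat (nat_lit 858166), .ofNat (nat_lit 926145), .ofNat (nat_lit 868947), .ofNat (nat_lit 936926), .ofNat (nat_lit 851677), .ofNat (nat_lit 917933), .ofNat (nat_lit 862508), .ofNat (nat_lit 928764)⟩, ⟨.ofNat (nat_lit 259489), .ofNat (nat_lit 429434), .ofNat (nat_lit 302621), .ofNat (nat_lit 472567), .ofNat (nat_lit 260409), .ofNat (nat_lit 426048), .ofNat (nat_lit 303743), .ofNat (nat_lit 469382)⟩⟩, [⟨nat_lit 13, nat_lit 86, nat_lit 26, nat_lit 100, nat_lit 110193584⟩, ⟨nat_lit 4, nat_lit 100, nat_lit 79, nat_lit 72, nat_lit 227688512⟩, ⟨nat_lit 7, nat_lit 100, nat_lit 97, nat_lit 76, nat_lit 50091618⟩]⟩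
noncomputable def p089_l85 : Lf2 := ⟨nat_lit 0, nat_lit 10, [nat_lit 0, nat_lit 5, nat_lit 5, nat_lit 20], false, nat_lit 160, nat_lit 244, nat_lit 48, nat_lit 300, ⟨nat_lit 197, nat_lit 803, nat_lit 0, nat_lit 9, nat_lit 353, nat_lit 803, nat_lit 140, nat_lit 0, nat_lit 0, nat_lit 0, nat_lit 0, nat_lit 0, nat_lit 34026722, nat_lit 26900152, nat_lit 6073126, nat_lit 4949788, true, true⟩,
 nat_lit 0, nat_lit 0, nat_lit 2155, nat_lit 0, nat_lit 3463, nat_lit 1371, nat_lit 350, nat_lit 0, nat_lit 0, nat_lit 168, nat_lit 0, nat_lit 0, nat_lit 0, nat_lit 0, nat_lit 0, nat_lit 209450, nat_lit 0, nat_lit 0, [(nat_lit 18, [(nat_lit 0, nat_lit 745), (nat_lit 1, nat_lit 58)])],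
 ⟨p089_k33, nat_lit 0, nat_lit 0, nat_lit 86, nat_lit 0, nat_lit 0, [nat_lit 1620888000, nat_lit 2069828534, nat_lit 3253666400], [], [nat_lit 27011378273, nat_lit 27426268868, nat_lit 28729690019, nat_lit 29106979641, nat_lit 28415403601, nat_lit 28780141248, nat_lit 29931964566, nat_lit 30277816043], nat_lit 0, nat_lit 0, nat_lit 0, nat_lit 0, nat_lit 0, nat_lit 0, [], [nat_lit 85, nat_lit 40, nat_lit 40, nat_lit 80, nat_lit 16, nat_lit 289, nat_lit 75, nat_lit 9]⟩, ⟨p089_k32, nat_lit 0, nat_lit 0, nat_lit 848, nat_lit 0, nat_lit 1587165, [nat_lit 646554000, nat_lit 923536000, nat_lit 1938874000], [], [nat_lit 7001802769, nat_lit 7020945694, nat_lit 7143271042, nat_lit 7159084679, nat_lit 6561414294, nat_lit 6569003301, nat_lit 6649382448, nat_lit 6673991705], nat_lit 1271250, nat_lit 1271250, nat_lit 1271250, nat_lit 1271250, nat_lit 279600, nat_lit 2172750, [nat_lit 780000, nat_lit 1100000, nat_lit 2127500],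 [nat_lit 42, nat_lit 40, nat_lit 40, nat_lit 80, nat_lit 13, nat_lit 336, nat_lit 75, nat_lit 9]⟩,
 ⟨nat_lit 3872, nat_lit 4184, ⟨.ofNat (nat_lit 851681), .ofNat (nat_lit 911314), .ofNat (nat_lit 862512), .ofNat (nat_lit 922145), .ofNat (nat_lit 845251), .ofNat (nat_lit 903324), .ofNat (nat_lit 856145), .ofNat (nat_lit 914217)⟩, ⟨.ofNat (nat_lit 260409), .ofNat (nat_lit 399546), .ofNat (nat_lit 303743), .ofNat (nat_lit 442879), .ofNat (nat_lit 261131), .ofNat (nat_lit 396626), .ofNat (nat_lit 304717), .ofNat (nat_lit 440213)⟩⟩, [⟨nat_lit 13, nat_lit 82, nat_lit 33, nat_lit 100, nat_lit 137632878⟩, ⟨nat_lit 4, nat_lit 100, nat_lit 74, nat_lit 72, nat_lit 226422614⟩, ⟨nat_lit 7, nat_lit 100, nat_lit 97, nat_lit 76, nat_lit 37929309⟩]⟩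
noncomputable def p089_l86 : Lf2 := ⟨nat_lit 0, nat_lit 10, [nat_lit 0, nat_lit 5, nat_lit 5, nat_lit 20], false, nat_lit 160, nat_lit 232, nat_lit 48, nat_lit 300, ⟨nat_lit 170, nat_lit 830, nat_lit 0, nat_lit 9, nat_lit 349, nat_lit 830, nat_lit 136, nat_lit 0, nat_lit 0, nat_lit 0, nat_lit 0, nat_lit 0, nat_lit 34492418, nat_lit 26655016, nat_lit 5852566, nat_lit 4910078, true, true⟩,
 nat_lit 0, nat_lit 0, nat_lit 1892, nat_lit 0, nat_lit 3258, nat_lit 1203, nat_lit 180, nat_lit 0, nat_lit 0, nat_lit 141, nat_lit 0, nat_lit 0, nat_lit 0, nat_lit 0, nat_lit 0, nat_lit 332000, nat_lit 0, nat_lit 0, [(nat_lit 21, [(nat_lit 1, nat_lit 830)])],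
 ⟨p089_k34, nat_lit 0, nat_lit 0, nat_lit 89, nat_lit 0, nat_lit 0, [nat_lit 1470256001, nat_lit 1759116000, nat_lit 2300860000], [], [nat_lit 27183892589, nat_lit 27590262359, nat_lit 28642732529, nat_lit 29017104864, nat_lit 28336013524, nat_lit 28701319972, nat_lit 29651993486, nat_lit 30017303254], nat_lit 0, nat_lit 0, nat_lit 0, nat_lit 0, nat_lit 0, nat_lit 0, [], [nat_lit 85, nat_lit 40, nat_lit 40, nat_lit 80, nat_lit 16, nat_lit 272, nat_lit 60, nat_lit 8]⟩, ⟨p089_k32, nat_lit 0, nat_lit 0, nat_lit 901, nat_lit 0, nat_lit 1733740, [nat_lit 557940000, nat_lit 796960000, nat_lit 1673140000], [], [nat_lit 6124289569, nat_lit 6136039096, nat_lit 6212682464, nat_lit 6222214917, nat_lit 5692269279, nat_lit 5695267882, nat_lit 5744741951, nat_lit 5746082200], nat_lit 1271250, nat_lit 1271250, nat_lit 1271250, nat_lit 1271250, nat_lit 279600, nat_lit 2172750, [nat_lit 780000, nat_lit 1100000, nat_lit 2127500],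 [nat_lit 42, nat_lit 40, nat_lit 40, nat_lit 80, nat_lit 13, nat_lit 348, nat_lit 75, nat_lit 9]⟩,
 ⟨nat_lit 3535, nat_lit 3873, ⟨.ofNat (nat_lit 845257), .ofNat (nat_lit 896875), .ofNat (nat_lit 856151), .ofNat (nat_lit 907772), .ofNat (nat_lit 838854), .ofNat (nat_lit 889064), .ofNat (nat_lit 849828), .ofNat (nat_lit 900040)⟩, ⟨.ofNat (nat_lit 261131), .ofNat (nat_lit 377270), .ofNat (nat_lit 304717), .ofNat (nat_lit 420856), .ofNat (nat_lit 261616), .ofNat (nat_lit 374587), .ofNat (nat_lit 305521), .ofNat (nat_lit 418492)⟩⟩, [⟨nat_lit 13, nat_lit 76, nat_lit 40, nat_lit 100, nat_lit 159777789⟩, ⟨nat_lit 16, nat_lit 72, nat_lit 100, nat_lit 81, nat_lit 200662045⟩, ⟨nat_lit 19, nat_lit 100, nat_lit 95, nat_lit 87, nat_lit 26675535⟩]⟩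
noncomputable def p089_l87 : Lf2 := ⟨nat_lit 0, nat_lit 10, [nat_lit 0, nat_lit 5, nat_lit 5, nat_lit 20], true, nat_lit 160, nat_lit 216, nat_lit 48, nat_lit 300, ⟨nat_lit 0, nat_lit 1000, nat_lit 0, nat_lit 9, nat_lit 345, nat_lit 1000, nat_lit 131, nat_lit 0, nat_lit 0, nat_lit 0, nat_lit 0, nat_lit 0, nat_lit 35001586, nat_lit 26436670, nat_lit 5561744, nat_lit 4857829, true, true⟩,
 nat_lit 0, nat_lit 0, nat_lit 0, nat_lit 0, nat_lit 3387, nat_lit 0, nat_lit 0, nat_lit 0, nat_lit 0, nat_lit 0, nat_lit 0, nat_lit 0, nat_lit 0, nat_lit 0, nat_lit 0, nat_lit 250000, nat_lit 0, nat_lit 0, [(nat_lit 21, [(nat_lit 0, nat_lit 1000)])],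
 ⟨p089_k25, nat_lit 0, nat_lit 0, nat_lit 83, nat_lit 0, nat_lit 0, [nat_lit 1558400000, nat_lit 1963600000], [], [nat_lit 27555151029, nat_lit 27991128120, nat_lit 28901636056, nat_lit 29331200636, nat_lit 28469667486, nat_lit 28870567557, nat_lit 29717342064, nat_lit 30160304383], nat_lit 0, nat_lit 0, nat_lit 0, nat_lit 0, nat_lit 0, nat_lit 0, [], [nat_lit 24, nat_lit 40, nat_lit 40, nat_lit 80, nat_lit 33, nat_lit 203, nat_lit 0, nat_lit 6]⟩, C1.Rw.none,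
 ⟨nat_lit 3162, nat_lit 3536, ⟨.ofNat (nat_lit 838855), .ofNat (nat_lit 882788), .ofNat (nat_lit 849831), .ofNat (nat_lit 893764), .ofNat (nat_lit 832432), .ofNat (nat_lit 875099), .ofNat (nat_lit 843509), .ofNat (nat_lit 886176)⟩, ⟨.ofNat (nat_lit 261616), .ofNat (nat_lit 349482), .ofNat (nat_lit 305521), .ofNat (nat_lit 393387), .ofNat (nat_lit 261806), .ofNat (nat_lit 347141), .ofNat (nat_lit 306116), .ofNat (nat_lit 391450)⟩⟩, [⟨nat_lit 13, nat_lit 74, nat_lit 42, nat_lit 100, nat_lit 267117505⟩, ⟨nat_lit 16, nat_lit 66, nat_lit 100, nat_lit 80, nat_lit 169476691⟩]⟩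
noncomputable def p089_l88 : Lf2 := ⟨nat_lit 0, nat_lit 10, [nat_lit 0, nat_lit 5, nat_lit 5, nat_lit 20], false, nat_lit 160, nat_lit 260, nat_lit 48, nat_lit 292, ⟨nat_lit 331, nat_lit 669, nat_lit 0, nat_lit 9, nat_lit 362, nat_lit 669, nat_lit 146, nat_lit 0, nat_lit 0, nat_lit 0, nat_lit 0, nat_lit 0, nat_lit 33195151, nat_lit 27468337, nat_lit 6336512, nat_lit 4999650, true, true⟩,
 nat_lit 0, nat_lit 0, nat_lit 3003, nat_lit 0, nat_lit 4036, nat_lit 1994, nat_lit 0, nat_lit 0, nat_lit 0, nat_lit 757, nat_lit 0, nat_lit 0, nat_lit 0, nat_lit 0, nat_lit 0, nat_lit 249750, nat_lit 0, nat_lit 0, [(nat_lit 18, [(nat_lit 0, nat_lit 559), (nat_lit 2, nat_lit 110)])],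
 ⟨p089_k20, nat_lit 0, nat_lit 0, nat_lit 80, nat_lit 0, nat_lit 0, [nat_lit 1716632534, nat_lit 2878626667, nat_lit 3452156000], [], [nat_lit 26823237723, nat_lit 27314138559, nat_lit 29160189963, nat_lit 29596215691, nat_lit 28838616871, nat_lit 29252310043, nat_lit 30819138183, nat_lit 31188021654], nat_lit 0, nat_lit 0, nat_lit 0, nat_lit 0, nat_lit 0, nat_lit 0, [], [nat_lit 6, nat_lit 40, nat_lit 40, nat_lit 80, nat_lit 3, nat_lit 289, nat_lit 75, nat_lit 9]⟩, ⟨p089_k28, nat_lit 0, nat_lit 0, nat_lit 723, nat_lit 0, nat_lit 1439844, [nat_lit 1086342000, nat_lit 2068750000, nat_lit 2637408000], [], [nat_lit 11173276830, nat_lit 11218682384, nat_lit 11479630915, nat_lit 11518582539, nat_lit 10778736235, nat_lit 10804561341, nat_lit 10986530048, nat_lit 11007579588], nat_lit 1271250, nat_lit 1271250, nat_lit 1271250, nat_lit 1271250, nat_lit 279600, nat_lit 2112650, [nat_lit 780000, nat_lit 1435000, nat_lit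 1271250], [nat_lit 18, nat_lit 40, nat_lit 40, nat_lit 80, nat_lit 2, nat_lit 305, nat_lit 75, nat_lit 9]⟩,
 ⟨nat_lit 4183, nat_lit 4473, ⟨.ofNat (nat_lit 868947), .ofNat (nat_lit 936926), .ofNat (nat_lit 879728), .ofNat (nat_lit 947707), .ofNat (nat_lit 862508), .ofNat (nat_lit 928764), .ofNat (nat_lit 873339), .ofNat (nat_lit 939596)⟩, ⟨.ofNat (nat_lit 259489), .ofNat (nat_lit 429434), .ofNat (nat_lit 302621), .ofNat (nat_lit 472567), .ofNat (nat_lit 260409), .ofNat (nat_lit 426048), .ofNat (nat_lit 303743), .ofNat (nat_lit 469382)⟩⟩, [⟨nat_lit 13, nat_lit 89, nat_lit 20, nat_lit 100, nat_lit 119049631⟩, ⟨nat_lit 4, nat_lit 100, nat_lit 79, nat_lit 72, nat_lit 260127354⟩, ⟨nat_lit 7, nat_lit 100, nat_lit 92, nat_lit 75, nat_lit 76132029⟩]⟩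
noncomputable def p089_l89 : Lf2 := ⟨nat_lit 0, nat_lit 10, [nat_lit 0, nat_lit 5, nat_lit 5, nat_lit 20], false, nat_lit 160, nat_lit 244, nat_lit 48, nat_lit 292, ⟨nat_lit 331, nat_lit 669, nat_lit 0, nat_lit 9, nat_lit 359, nat_lit 669, nat_lit 140, nat_lit 0, nat_lit 0, nat_lit 0, nat_lit 0, nat_lit 0, nat_lit 33607489, nat_lit 27376648, nat_lit 6015863, nat_lit 4949102, true, true⟩,
 nat_lit 0, nat_lit 0, nat_lit 3163, nat_lit 0, nat_lit 3281, nat_lit 2100, nat_lit 496, nat_lit 0, nat_lit 0, nat_lit 398, nat_lit 0, nat_lit 0, nat_lit 0, nat_lit 0, nat_lit 0, nat_lit 267600, nat_lit 0, nat_lit 0, [(nat_lit 18, [(nat_lit 1, nat_lit 669)])],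
 ⟨p089_k33, nat_lit 0, nat_lit 0, nat_lit 90, nat_lit 0, nat_lit 0, [nat_lit 1579756001, nat_lit 2256467601, nat_lit 3380525200], [], [nat_lit 26658674902, nat_lit 27066000667, nat_lit 28527347653, nat_lit 28931729444, nat_lit 28083163682, nat_lit 28454390249, nat_lit 29885272027, nat_lit 30270715970], nat_lit 0, nat_lit 0, nat_lit 0, nat_lit 0, nat_lit 0, nat_lit 0, [], [nat_lit 85, nat_lit 40, nat_lit 40, nat_lit 80, nat_lit 16, nat_lit 289, nat_lit 75, nat_lit 9]⟩, ⟨p089_k35, nat_lit 0, nat_lit 0, nat_lit 770, nat_lit 0, nat_lit 1567891, [nat_lit 1086342000, nat_lit 1551728000, nat_lit 2637408000], [], [nat_lit 11325713110, nat_lit 11372668513, nat_lit 11644466927, nat_lit 11684573235, nat_lit 10893221934, nat_lit 10919342505, nat_lit 11107318844, nat_lit 11128384258], nat_lit 1271250, nat_lit 1271250, nat_lit 1271250, nat_lit 1271250, nat_lit 279600, nat_lit 2112650, [nat_lit 780000, nat_lit 1100000, nat_lit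 1785000], [nat_lit 36, nat_lit 40, nat_lit 40, nat_lit 80, nat_lit 7, nat_lit 317, nat_lit 75, nat_lit 9]⟩,
 ⟨nat_lit 3872, nat_lit 4184, ⟨.ofNat (nat_lit 862512), .ofNat (nat_lit 928771), .ofNat (nat_lit 873343), .ofNat (nat_lit 939602), .ofNat (nat_lit 856145), .ofNat (nat_lit 920670), .ofNat (nat_lit 867040), .ofNat (nat_lit 931565)⟩, ⟨.ofNat (nat_lit 260409), .ofNat (nat_lit 399546), .ofNat (nat_lit 303743), .ofNat (nat_lit 442879), .ofNat (nat_lit 261131), .ofNat (nat_lit 396626), .ofNat (nat_lit 304717), .ofNat (nat_lit 440213)⟩⟩, [⟨nat_lit 13, nat_lit 84, nat_lit 28, nat_lit 100, nat_lit 114423667⟩, ⟨nat_lit 4, nat_lit 100, nat_lit 74, nat_lit 72, nat_lit 281675805⟩, ⟨nat_lit 7, nat_lit 100, nat_lit 92, nat_lit 75, nat_lit 74787055⟩]⟩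
noncomputable def p089_l90 : Lf2 := ⟨nat_lit 0, nat_lit 10, [nat_lit 0, nat_lit 5, nat_lit 5, nat_lit 20], false, nat_lit 160, nat_lit 232, nat_lit 48, nat_lit 292, ⟨nat_lit 205, nat_lit 795, nat_lit 0, nat_lit 9, nat_lit 355, nat_lit 795, nat_lit 136, nat_lit 0, nat_lit 0, nat_lit 0, nat_lit 0, nat_lit 0, nat_lit 34066211, nat_lit 27135984, nat_lit 5797805, nat_lit 4910448, true, true⟩,
 nat_lit 0, nat_lit 0, nat_lit 2129, nat_lit 0, nat_lit 3128, nat_lit 1413, nat_lit 227, nat_lit 0, nat_lit 0, nat_lit 172, nat_lit 0, nat_lit 0, nat_lit 0, nat_lit 0, nat_lit 0, nat_lit 318000, nat_lit 0, nat_lit 0, [(nat_lit 21, [(nat_lit 1, nat_lit 795)])],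
 ⟨p089_k24, nat_lit 0, nat_lit 0, nat_lit 89, nat_lit 0, nat_lit 0, [nat_lit 1493944001, nat_lit 2147816000, nat_lit 2467390000], [], [nat_lit 27107448534, nat_lit 27508414854, nat_lit 28723584640, nat_lit 29089570926, nat_lit 28274167091, nat_lit 28635162050, nat_lit 29733917974, nat_lit 30064331860], nat_lit 0, nat_lit 0, nat_lit 0, nat_lit 0, nat_lit 0, nat_lit 0, [], [nat_lit 6, nat_lit 40, nat_lit 40, nat_lit 80, nat_lit 3, nat_lit 272, nat_lit 60, nat_lit 8]⟩, ⟨p089_k28, nat_lit 0, nat_lit 0, nat_lit 834, nat_lit 0, nat_lit 1702383, [nat_lit 672810000, nat_lit 1281250000, nat_lit 1633440000], [], [nat_lit 7263059101, nat_lit 7281565386, nat_lit 7397759773, nat_lit 7426746981, nat_lit 6806356161, nat_lit 6813901356, nat_lit 6952335290, nat_lit 6972137914], nat_lit 1271250, nat_lit 1271250, nat_lit 1271250, nat_lit 1271250, nat_lit 279600, nat_lit 2112650, [nat_lit 780000, nat_lit 1435000, nat_lit 1271250],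 [nat_lit 18, nat_lit 40, nat_lit 40, nat_lit 80, nat_lit 2, nat_lit 332, nat_lit 75, nat_lit 10]⟩,
 ⟨nat_lit 3535, nat_lit 3873, ⟨.ofNat (nat_lit 856151), .ofNat (nat_lit 914224), .ofNat (nat_lit 867045), .ofNat (nat_lit 925119), .ofNat (nat_lit 849828), .ofNat (nat_lit 906316), .ofNat (nat_lit 860801), .ofNat (nat_lit 917291)⟩, ⟨.ofNat (nat_lit 261131), .ofNat (nat_lit 377270), .ofNat (nat_lit 304717), .ofNat (nat_lit 420856), .ofNat (nat_lit 261616), .ofNat (nat_lit 374587), .ofNat (nat_lit 305521), .ofNat (nat_lit 418492)⟩⟩, [⟨nat_lit 13, nat_lit 78, nat_lit 35, nat_lit 100, nat_lit 154092915⟩, ⟨nat_lit 16, nat_lit 72, nat_lit 100, nat_lit 81, nat_lit 104361914⟩, ⟨nat_lit 4, nat_lit 100, nat_lit 69, nat_lit 71, nat_lit 128553385⟩, ⟨nat_lit 19, nat_lit 92, nat_lit 100, nat_lit 75, nat_lit 42561567⟩]⟩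
noncomputable def p089_l91 : Lf2 := ⟨nat_lit 0, nat_lit 10, [nat_lit 0, nat_lit 5, nat_lit 5, nat_lit 20], false, nat_lit 160, nat_lit 216, nat_lit 48, nat_lit 292, ⟨nat_lit 131, nat_lit 869, nat_lit 0, nat_lit 9, nat_lit 351, nat_lit 869, nat_lit 131, nat_lit 0, nat_lit 0, nat_lit 0, nat_lit 0, nat_lit 0, nat_lit 34566713, nat_lit 26923236, nat_lit 5510051, nat_lit 4859333, true, true⟩,
 nat_lit 0, nat_lit 0, nat_lit 1358, nat_lit 0, nat_lit 3408, nat_lit 901, nat_lit 66, nat_lit 0, nat_lit 0, nat_lit 120, nat_lit 0, nat_lit 0, nat_lit 0, nat_lit 0, nat_lit 0, nat_lit 234800, nat_lit 0, nat_lit 0, [(nat_lit 21, [(nat_lit 0, nat_lit 752), (nat_lit 1, nat_lit 117)])],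
 ⟨p089_k25, nat_lit 0, nat_lit 0, nat_lit 84, nat_lit 0, nat_lit 0, [nat_lit 1596667201, nat_lit 2264383200], [], [nat_lit 27628000387, nat_lit 28064951731, nat_lit 29162166320, nat_lit 29585839034, nat_lit 28540765191, nat_lit 28942491869, nat_lit 29955859740, nat_lit 30394067945], nat_lit 0, nat_lit 0, nat_lit 0, nat_lit 0, nat_lit 0, nat_lit 0, [], [nat_lit 24, nat_lit 40, nat_lit 40, nat_lit 80, nat_lit 33, nat_lit 203, nat_lit 0, nat_lit 6]⟩, ⟨p089_k28, nat_lit 0, nat_lit 0, nat_lit 895, nat_lit 0, nat_lit 1843044, [nat_lit 429942000, nat_lit 818750000, nat_lit 1043808000], [], [nat_lit 4668767126, nat_lit 4678332634, nat_lit 4735187627, nat_lit 4743104226, nat_lit 4364992327, nat_lit 4368218670, nat_lit 4405903275, nat_lit 4407880141], nat_lit 1271250, nat_lit 1271250, nat_lit 1271250, nat_lit 1271250, nat_lit 279600, nat_lit 2112650, [nat_lit 780000, nat_lit 1435000, nat_lit 1271250], [nat_lit 18, nat_lit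 40, nat_lit 40, nat_lit 80, nat_lit 2, nat_lit 347, nat_lit 75, nat_lit 10]⟩,
 ⟨nat_lit 3162, nat_lit 3536, ⟨.ofNat (nat_lit 849831), .ofNat (nat_lit 900040), .ofNat (nat_lit 860807), .ofNat (nat_lit 911016), .ofNat (nat_lit 843509), .ofNat (nat_lit 892272), .ofNat (nat_lit 854586), .ofNat (nat_lit 903349)⟩, ⟨.ofNat (nat_lit 261616), .ofNat (nat_lit 349482), .ofNat (nat_lit 305521), .ofNat (nat_lit 393387), .ofNat (nat_lit 261806), .ofNat (nat_lit 347141), .ofNat (nat_lit 306116), .ofNat (nat_lit 391450)⟩⟩, [⟨nat_lit 13, nat_lit 76, nat_lit 37, nat_lit 100, nat_lit 201657884⟩, ⟨nat_lit 16, nat_lit 66, nat_lit 100, nat_lit 80, nat_lit 212190862⟩, ⟨nat_lit 19, nat_lit 100, nat_lit 100, nat_lit 89, nat_lit 20298017⟩]⟩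
noncomputable def p089_l92 : Lf2 := ⟨nat_lit 0, nat_lit 10, [nat_lit 0, nat_lit 5, nat_lit 5, nat_lit 20], false, nat_lit 160, nat_lit 260, nat_lit 16, nat_lit 280, ⟨nat_lit 316, nat_lit 684, nat_lit 0, nat_lit 8, nat_lit 340, nat_lit 684, nat_lit 146, nat_lit 0, nat_lit 0, nat_lit 0, nat_lit 0, nat_lit 0, nat_lit 34789245, nat_lit 25661678, nat_lit 6549077, nat_lit 4996402, true, true⟩,
 nat_lit 0, nat_lit 0, nat_lit 2866, nat_lit 0, nat_lit 3847, nat_lit 1983, nat_lit 0, nat_lit 0, nat_lit 0, nat_lit 419, nat_lit 0, nat_lit 0, nat_lit 0, nat_lit 0, nat_lit 0, nat_lit 543750, nat_lit 0, nat_lit 0, [(nat_lit 18, [(nat_lit 0, nat_lit 187), (nat_lit 2, nat_lit 497)])],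
 ⟨p089_k20, nat_lit 0, nat_lit 0, nat_lit 67, nat_lit 0, nat_lit 0, [nat_lit 1774573334, nat_lit 2406354667, nat_lit 2233823600], [], [nat_lit 24384623661, nat_lit 25397258949, nat_lit 26411597679, nat_lit 27374480073, nat_lit 26679413170, nat_lit 27539502141, nat_lit 28439896300, nat_lit 29253565213], nat_lit 0, nat_lit 0, nat_lit 0, nat_lit 0, nat_lit 0, nat_lit 0, [], [nat_lit 6, nat_lit 40, nat_lit 40, nat_lit 80, nat_lit 3, nat_lit 289, nat_lit 75, nat_lit 9]⟩, ⟨p089_k23, nat_lit 0, nat_lit 0, nat_lit 823, nat_lit 0, nat_lit 1630547, [nat_lit 1037112000, nat_lit 1975000000, nat_lit 2517888000], [], [nat_lit 10160443648, nat_lit 10263626675, nat_lit 10419675953, nat_lit 10651747609, nat_lit 9622182720, nat_lit 9682734356, nat_lit 9801730006, nat_lit 9864486358], nat_lit 1271250, nat_lit 1271250, nat_lit 1271250, nat_lit 1271250, nat_lit 88400, nat_lit 1992500, [nat_lit 780000, nat_lit 1435000, nat_lit 1271250],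 [nat_lit 18, nat_lit 40, nat_lit 40, nat_lit 80, nat_lit 2, nat_lit 326, nat_lit 75, nat_lit 10]⟩,
 ⟨nat_lit 3872, nat_lit 4473, ⟨.ofNat (nat_lit 811702), .ofNat (nat_lit 879688), .ofNat (nat_lit 833251), .ofNat (nat_lit 901237), .ofNat (nat_lit 802466), .ofNat (nat_lit 866995), .ofNat (nat_lit 824242), .ofNat (nat_lit 888771)⟩, ⟨.ofNat (nat_lit 259489), .ofNat (nat_lit 429434), .ofNat (nat_lit 302621), .ofNat (nat_lit 472567), .ofNat (nat_lit 261131), .ofNat (nat_lit 422435), .ofNat (nat_lit 304717), .ofNat (nat_lit 466021)⟩⟩, [⟨nat_lit 4, nat_lit 100, nat_lit 76, nat_lit 72, nat_lit 307310953⟩, ⟨nat_lit 7, nat_lit 100, nat_lit 85, nat_lit 73, nat_lit 67176722⟩]⟩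
noncomputable def p089_l93 : Lf2 := ⟨nat_lit 0, nat_lit 10, [nat_lit 0, nat_lit 5, nat_lit 5, nat_lit 20], false, nat_lit 160, nat_lit 232, nat_lit 16, nat_lit 280, ⟨nat_lit 167, nat_lit 833, nat_lit 0, nat_lit 8, nat_lit 336, nat_lit 833, nat_lit 136, nat_lit 0, nat_lit 0, nat_lit 0, nat_lit 0, nat_lit 0, nat_lit 35502413, nat_lit 25534547, nat_lit 5963040, nat_lit 4901966, true, true⟩,
 nat_lit 0, nat_lit 0, nat_lit 1577, nat_lit 0, nat_lit 3521, nat_lit 1091, nat_lit 0, nat_lit 0, nat_lit 0, nat_lit 168, nat_lit 0, nat_lit 0, nat_lit 0, nat_lit 0, nat_lit 0, nat_lit 333200, nat_lit 0, nat_lit 0, [(nat_lit 21, [(nat_lit 1, nat_lit 833)])],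
 ⟨p089_k24, nat_lit 0, nat_lit 0, nat_lit 73, nat_lit 0, nat_lit 0, [nat_lit 1468225600, nat_lit 2026398401, nat_lit 2286586000], [], [nat_lit 25105782969, nat_lit 26136223517, nat_lit 27066472659, nat_lit 27996721801, nat_lit 26542929935, nat_lit 27460844684, nat_lit 28292186454, nat_lit 29124714756], nat_lit 0, nat_lit 0, nat_lit 0, nat_lit 0, nat_lit 0, nat_lit 0, [], [nat_lit 6, nat_lit 40, nat_lit 40, nat_lit 80, nat_lit 3, nat_lit 272, nat_lit 60, nat_lit 8]⟩, ⟨p089_k23, nat_lit 0, nat_lit 0, nat_lit 932, nat_lit 0, nat_lit 1876805, [nat_lit 548094000, nat_lit 1043750000, nat_lit 1330656000], [], [nat_lit 5538976577, nat_lit 5577957432, nat_lit 5642453635, nat_lit 5723148818, nat_lit 5150013915, nat_lit 5170122308, nat_lit 5212057634, nat_lit 5248020516], nat_lit 1271250, nat_lit 1271250, nat_lit 1271250, nat_lit 1271250, nat_lit 88400, nat_lit 1992500, [nat_lit 780000, nat_lit 1435000, nat_lit 1271250],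 [nat_lit 18, nat_lit 40, nat_lit 40, nat_lit 80, nat_lit 2, nat_lit 353, nat_lit 75, nat_lit 11]⟩,
 ⟨nat_lit 3162, nat_lit 3873, ⟨.ofNat (nat_lit 802484), .ofNat (nat_lit 867032), .ofNat (nat_lit 824248), .ofNat (nat_lit 888802), .ofNat (nat_lit 793588), .ofNat (nat_lit 854567), .ofNat (nat_lit 815713), .ofNat (nat_lit 876699)⟩, ⟨.ofNat (nat_lit 261131), .ofNat (nat_lit 377270), .ofNat (nat_lit 304717), .ofNat (nat_lit 420856), .ofNat (nat_lit 261806), .ofNat (nat_lit 371522), .ofNat (nat_lit 306116), .ofNat (nat_lit 415832)⟩⟩, [⟨nat_lit 16, nat_lit 72, nat_lit 100, nat_lit 81, nat_lit 47246321⟩, ⟨nat_lit 4, nat_lit 100, nat_lit 66, nat_lit 72, nat_lit 215672167⟩, ⟨nat_lit 19, nat_lit 94, nat_lit 100, nat_lit 87, nat_lit 25792447⟩]⟩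
noncomputable def p089_l94 : Lf2 := ⟨nat_lit 0, nat_lit 10, [nat_lit 0, nat_lit 5, nat_lit 5, nat_lit 20], false, nat_lit 160, nat_lit 260, nat_lit 48, nat_lit 280, ⟨nat_lit 435, nat_lit 565, nat_lit 0, nat_lit 9, nat_lit 368, nat_lit 565, nat_lit 146, nat_lit 0, nat_lit 0, nat_lit 0, nat_lit 0, nat_lit 0, nat_lit 32728617, nat_lit 28004274, nat_lit 6267109, nat_lit 4996524, true, true⟩,
 nat_lit 0, nat_lit 0, nat_lit 3730, nat_lit 0, nat_lit 3601, nat_lit 2582, nat_lit 340, nat_lit 0, nat_lit 0, nat_lit 512, nat_lit 0, nat_lit 0, nat_lit 0, nat_lit 0, nat_lit 0, nat_lit 444400, nat_lit 0, nat_lit 0, [(nat_lit 18, [(nat_lit 1, nat_lit 201), (nat_lit 2, nat_lit 364)])],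
 ⟨p089_k31, nat_lit 0, nat_lit 0, nat_lit 84, nat_lit 0, nat_lit 0, [nat_lit 1719656800, nat_lit 2386287334, nat_lit 2989100089], [], [nat_lit 26514556745, nat_lit 26935183310, nat_lit 28497593518, nat_lit 28937105532, nat_lit 28377869716, nat_lit 28776177650, nat_lit 30305452795, nat_lit 30679470816], nat_lit 0, nat_lit 0, nat_lit 0, nat_lit 0, nat_lit 0, nat_lit 0, [], [nat_lit 85, nat_lit 40, nat_lit 40, nat_lit 80, nat_lit 16, nat_lit 289, nat_lit 75, nat_lit 9]⟩, ⟨p089_k36, nat_lit 0, nat_lit 0, nat_lit 750, nat_lit 0, nat_lit 1515867, [nat_lit 1427670000, nat_lit 2039280000, nat_lit 3466080000], [], [nat_lit 14485531242, nat_lit 14639436760, nat_lit 14958141397, nat_lit 15102945176, nat_lit 14182959047, nat_lit 14280661350, nat_lit 14523462218, nat_lit 14621784704], nat_lit 1271250, nat_lit 1271250, nat_lit 1271250, nat_lit 1271250, nat_lit 279600, nat_lit 2022500, [nat_lit 780000, nat_lit 1100000, nat_lit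 1785000], [nat_lit 36, nat_lit 40, nat_lit 40, nat_lit 80, nat_lit 7, nat_lit 313, nat_lit 75, nat_lit 9]⟩,
 ⟨nat_lit 4183, nat_lit 4473, ⟨.ofNat (nat_lit 879728), .ofNat (nat_lit 947707), .ofNat (nat_lit 901291), .ofNat (nat_lit 969270), .ofNat (nat_lit 873339), .ofNat (nat_lit 939596), .ofNat (nat_lit 895002), .ofNat (nat_lit 961259)⟩, ⟨.ofNat (nat_lit 259489), .ofNat (nat_lit 429434), .ofNat (nat_lit 302621), .ofNat (nat_lit 472567), .ofNat (nat_lit 260409), .ofNat (nat_lit 426048), .ofNat (nat_lit 303743), .ofNat (nat_lit 469382)⟩⟩, [⟨nat_lit 13, nat_lit 93, nat_lit 11, nat_lit 100, nat_lit 88819962⟩, ⟨nat_lit 4, nat_lit 100, nat_lit 79, nat_lit 72, nat_lit 313139354⟩, ⟨nat_lit 7, nat_lit 100, nat_lit 85, nat_lit 73, nat_lit 115063891⟩]⟩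
noncomputable def p089_l95 : Lf2 := ⟨nat_lit 0, nat_lit 10, [nat_lit 0, nat_lit 5, nat_lit 5, nat_lit 20], false, nat_lit 160, nat_lit 244, nat_lit 48, nat_lit 280, ⟨nat_lit 369, nat_lit 631, nat_lit 0, nat_lit 9, nat_lit 366, nat_lit 631, nat_lit 140, nat_lit 0, nat_lit 0, nat_lit 0, nat_lit 0, nat_lit 0, nat_lit 33129563, nat_lit 27920628, nat_lit 5949809, nat_lit 4946837, true, true⟩,
 nat_lit 0, nat_lit 0, nat_lit 3243, nat_lit 0, nat_lit 3302, nat_lit 2245, nat_lit 522, nat_lit 0, nat_lit 0, nat_lit 368, nat_lit 0, nat_lit 0, nat_lit 0, nat_lit 0, nat_lit 0, nat_lit 252400, nat_lit 0, nat_lit 0, [(nat_lit 18, [(nat_lit 1, nat_lit 631)])],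
 ⟨p089_k33, nat_lit 0, nat_lit 0, nat_lit 90, nat_lit 0, nat_lit 0, [nat_lit 1605444001, nat_lit 2314719067, nat_lit 3543514800], [], [nat_lit 26710086993, nat_lit 27118285623, nat_lit 28583440035, nat_lit 28987291182, nat_lit 28132214605, nat_lit 28502635184, nat_lit 29937179237, nat_lit 30296498868], nat_lit 0, nat_lit 0, nat_lit 0, nat_lit 0, nat_lit 0, nat_lit 0, [], [nat_lit 85, nat_lit 40, nat_lit 40, nat_lit 80, nat_lit 16, nat_lit 289, nat_lit 75, nat_lit 9]⟩, ⟨p089_k36, nat_lit 0, nat_lit 0, nat_lit 792, nat_lit 0, nat_lit 1630547, [nat_lit 1211058000, nat_lit 1729872000, nat_lit 2940192000], [], [nat_lit 12516329711, nat_lit 12618001801, nat_lit 12847163780, nat_lit 12934814256, nat_lit 12112955197, nat_lit 12188296858, nat_lit 12378472937, nat_lit 12442084364], nat_lit 1271250, nat_lit 1271250, nat_lit 1271250, nat_lit 1271250, nat_lit 279600, nat_lit 2022500, [nat_lit 780000, nat_lit 1100000, nat_lit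 1785000], [nat_lit 36, nat_lit 40, nat_lit 40, nat_lit 80, nat_lit 7, nat_lit 323, nat_lit 75, nat_lit 9]⟩,
 ⟨nat_lit 3872, nat_lit 4184, ⟨.ofNat (nat_lit 873343), .ofNat (nat_lit 939602), .ofNat (nat_lit 895005), .ofNat (nat_lit 961264), .ofNat (nat_lit 867040), .ofNat (nat_lit 931565), .ofNat (nat_lit 888829), .ofNat (nat_lit 953353)⟩, ⟨.ofNat (nat_lit 260409), .ofNat (nat_lit 399546), .ofNat (nat_lit 303743), .ofNat (nat_lit 442879), .ofNat (nat_lit 261131), .ofNat (nat_lit 396626), .ofNat (nat_lit 304717), .ofNat (nat_lit 440213)⟩⟩, [⟨nat_lit 13, nat_lit 88, nat_lit 19, nat_lit 100, nat_lit 98936730⟩, ⟨nat_lit 4, nat_lit 100, nat_lit 74, nat_lit 72, nat_lit 293857414⟩, ⟨nat_lit 7, nat_lit 100, nat_lit 85, nat_lit 73, nat_lit 94306717⟩]⟩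
noncomputable def p089_l96 : Lf2 := ⟨nat_lit 0, nat_lit 10, [nat_lit 0, nat_lit 5, nat_lit 5, nat_lit 20], false, nat_lit 160, nat_lit 232, nat_lit 48, nat_lit 280, ⟨nat_lit 318, nat_lit 682, nat_lit 0, nat_lit 9, nat_lit 363, nat_lit 682, nat_lit 136, nat_lit 0, nat_lit 0, nat_lit 0, nat_lit 0, nat_lit 0, nat_lit 33482285, nat_lit 27795974, nat_lit 5721741, nat_lit 4908942, true, true⟩,
 nat_lit 0, nat_lit 0, nat_lit 2838, nat_lit 0, nat_lit 3079, nat_lit 1964, nat_lit 430, nat_lit 0, nat_lit 0, nat_lit 285, nat_lit 0, nat_lit 0, nat_lit 0, nat_lit 0, nat_lit 0, nat_lit 272800, nat_lit 0, nat_lit 0, [(nat_lit 21, [(nat_lit 1, nat_lit 682)])],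
 ⟨p089_k34, nat_lit 0, nat_lit 0, nat_lit 95, nat_lit 0, nat_lit 0, [nat_lit 1570422400, nat_lit 2030666401, nat_lit 3005044000], [], [nat_lit 26940104394, nat_lit 27339034029, nat_lit 28725316456, nat_lit 29107008524, nat_lit 28112325132, nat_lit 28471694991, nat_lit 29829155363, nat_lit 30202074091], nat_lit 0, nat_lit 0, nat_lit 0, nat_lit 0, nat_lit 0, nat_lit 0, [], [nat_lit 85, nat_lit 40, nat_lit 40, nat_lit 80, nat_lit 16, nat_lit 272, nat_lit 60, nat_lit 8]⟩, ⟨p089_k36, nat_lit 0, nat_lit 0, nat_lit 854, nat_lit 0, nat_lit 1750884, [nat_lit 1043676000, nat_lit 1490784000, nat_lit 2533824000], [], [nat_lit 11016981429, nat_lit 11085883912, nat_lit 11257115527, nat_lit 11315399096, nat_lit 10530153452, nat_lit 10568064294, nat_lit 10719643090, nat_lit 10768875120], nat_lit 1271250, nat_lit 1271250, nat_lit 1271250, nat_lit 1271250, nat_lit 279600, nat_lit 2022500, [nat_lit 780000, nat_lit 1100000, nat_lit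 1785000], [nat_lit 36, nat_lit 40, nat_lit 40, nat_lit 80, nat_lit 7, nat_lit 339, nat_lit 75, nat_lit 10]⟩,
 ⟨nat_lit 3535, nat_lit 3873, ⟨.ofNat (nat_lit 867045), .ofNat (nat_lit 931571), .ofNat (nat_lit 888832), .ofNat (nat_lit 953359), .ofNat (nat_lit 860801), .ofNat (nat_lit 923567), .ofNat (nat_lit 882748), .ofNat (nat_lit 945515)⟩, ⟨.ofNat (nat_lit 261131), .ofNat (nat_lit 377270), .ofNat (nat_lit 304717), .ofNat (nat_lit 420856), .ofNat (nat_lit 261616), .ofNat (nat_lit 374587), .ofNat (nat_lit 305521), .ofNat (nat_lit 418492)⟩⟩, [⟨nat_lit 13, nat_lit 82, nat_lit 27, nat_lit 100, nat_lit 120323413⟩, ⟨nat_lit 4, nat_lit 100, nat_lit 69, nat_lit 71, nat_lit 313869757⟩, ⟨nat_lit 7, nat_lit 100, nat_lit 85, nat_lit 73, nat_lit 77111405⟩]⟩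
noncomputable def p089_l97 : Lf2 := ⟨nat_lit 0, nat_lit 10, [nat_lit 0, nat_lit 5, nat_lit 5, nat_lit 20], false, nat_lit 160, nat_lit 216, nat_lit 48, nat_lit 280, ⟨nat_lit 222, nat_lit 778, nat_lit 0, nat_lit 9, nat_lit 359, nat_lit 778, nat_lit 131, nat_lit 0, nat_lit 0, nat_lit 0, nat_lit 0, nat_lit 0, nat_lit 33969511, nat_lit 27592469, nat_lit 5438020, nat_lit 4859328, true, true⟩,
 nat_lit 0, nat_lit 0, nat_lit 1992, nat_lit 0, nat_lit 3258, nat_lit 1378, nat_lit 82, nat_lit 0, nat_lit 0, nat_lit 268, nat_lit 0, nat_lit 0, nat_lit 0, nat_lit 0, nat_lit 0, nat_lit 311200, nat_lit 0, nat_lit 0, [(nat_lit 21, [(nat_lit 1, nat_lit 778)])],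
 ⟨p089_k25, nat_lit 0, nat_lit 0, nat_lit 85, nat_lit 0, nat_lit 0, [nat_lit 1505449600, nat_lit 2195288000], [], [nat_lit 27548882536, nat_lit 27978874930, nat_lit 29244281941, nat_lit 29635531477, nat_lit 28474159140, nat_lit 28869981488, nat_lit 30039653413, nat_lit 30406807589], nat_lit 0, nat_lit 0, nat_lit 0, nat_lit 0, nat_lit 0, nat_lit 0, [], [nat_lit 24, nat_lit 40, nat_lit 40, nat_lit 80, nat_lit 33, nat_lit 203, nat_lit 0, nat_lit 6]⟩, ⟨p089_k23, nat_lit 0, nat_lit 0, nat_lit 907, nat_lit 0, nat_lit 1876805, [nat_lit 728604000, nat_lit 1387500000, nat_lit 1768896000], [], [nat_lit 7674414205, nat_lit 7718338241, nat_lit 7815049452, nat_lit 7852698429, nat_lit 7325248132, nat_lit 7348615444, nat_lit 7420407064, nat_lit 7453420299], nat_lit 1271250, nat_lit 1271250, nat_lit 1271250, nat_lit 1271250, nat_lit 279600, nat_lit 2022500, [nat_lit 780000, nat_lit 1435000, nat_lit 1271250], [nat_lit 18, nat_lit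 40, nat_lit 40, nat_lit 80, nat_lit 2, nat_lit 352, nat_lit 75, nat_lit 10]⟩,
 ⟨nat_lit 3162, nat_lit 3536, ⟨.ofNat (nat_lit 860807), .ofNat (nat_lit 917293), .ofNat (nat_lit 882753), .ofNat (nat_lit 939245), .ofNat (nat_lit 854586), .ofNat (nat_lit 909444), .ofNat (nat_lit 876734), .ofNat (nat_lit 931599)⟩, ⟨.ofNat (nat_lit 261616), .ofNat (nat_lit 349482), .ofNat (nat_lit 305521), .ofNat (nat_lit 393387), .ofNat (nat_lit 261806), .ofNat (nat_lit 347141), .ofNat (nat_lit 306116), .ofNat (nat_lit 391450)⟩⟩, [⟨nat_lit 13, nat_lit 76, nat_lit 36, nat_lit 100, nat_lit 163925970⟩, ⟨nat_lit 16, nat_lit 66, nat_lit 100, nat_lit 80, nat_lit 246356236⟩, ⟨nat_lit 19, nat_lit 94, nat_lit 100, nat_lit 87, nat_lit 40078649⟩]⟩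
noncomputable def b_V_800_700_10_3 : St := ⟨true, nat_lit 0, nat_lit 1, nat_lit 1, nat_lit 80, nat_lit 320, nat_lit 360, nat_lit 280, nat_lit 320, nat_lit 240, nat_lit 400, nat_lit 40, nat_lit 80, nat_lit 160, nat_lit 260, nat_lit 0, nat_lit 300, nat_lit 0, nat_lit 40, nat_lit 0, nat_lit 0, nat_lit 0, nat_lit 0⟩
theorem d_V_800_700_10_3 (h : EB TB.env) : Dead b_V_800_700_10_3 := chkB_sound0 h (T :=
(.spl (nat_lit 2) (nat_lit 320)
(.spl (nat_lit 0) (nat_lit 340)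
(.spl (nat_lit 1) (nat_lit 300)
(.leaf p089_l78)
(.trX (nat_lit 19) (nat_lit 94) (nat_lit 100) (nat_lit 87) (nat_lit 280) (.leaf p089_l79)))
(.trX (nat_lit 16) (nat_lit 72) (nat_lit 100) (nat_lit 81) (nat_lit 232) (.spl (nat_lit 0) (nat_lit 350)
(.leaf p089_l80)
(.trX (nat_lit 16) (nat_lit 66) (nat_lit 100) (nat_lit 80) (nat_lit 216) (.leaf p089_l81)))))
(.trZ (nat_lit 9) (nat_lit 100) (nat_lit 82) (nat_lit 44) (nat_lit 16) (.spl (nat_lit 1) (nat_lit 300)
(.spl (nat_lit 2) (nat_lit 360)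
(.spl (nat_lit 0) (nat_lit 340)
(.leaf p089_l82)
(.trX (nat_lit 16) (nat_lit 72) (nat_lit 100) (nat_lit 81) (nat_lit 232) (.leaf p089_l83)))
(.trZ (nat_lit 9) (nat_lit 100) (nat_lit 61) (nat_lit 68) (nat_lit 48) (.spl (nat_lit 1) (nat_lit 290)
(.spl (nat_lit 0) (nat_lit 340)
(.spl (nat_lit 0) (nat_lit 330)
(.leaf p089_l84)
(.trX (nat_lit 13) (nat_lit 85) (nat_lit 27) (nat_lit 100) (nat_lit 396) (.trX (nat_lit 16) (nat_lit 78) (nat_lit 100) (nat_lit 82) (nat_lit 244) (.leaf p089_l85))))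
(.trX (nat_lit 13) (nat_lit 80) (nat_lit 34) (nat_lit 100) (nat_lit 392) (.trX (nat_lit 16) (nat_lit 72) (nat_lit 100) (nat_lit 81) (nat_lit 232) (.spl (nat_lit 0) (nat_lit 350)
(.leaf p089_l86)
(.trX (nat_lit 13) (nat_lit 74) (nat_lit 42) (nat_lit 100) (nat_lit 388) (.trX (nat_lit 16) (nat_lit 66) (nat_lit 100) (nat_lit 80) (nat_lit 216) (.leaf p089_l87)))))))
(.trX (nat_lit 19) (nat_lit 100) (nat_lit 100) (nat_lit 89) (nat_lit 292) (.spl (nat_lit 0) (nat_lit 340)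
(.spl (nat_lit 0) (nat_lit 330)
(.leaf p089_l88)
(.trX (nat_lit 16) (nat_lit 78) (nat_lit 100) (nat_lit 82) (nat_lit 244) (.leaf p089_l89)))
(.trX (nat_lit 13) (nat_lit 82) (nat_lit 29) (nat_lit 100) (nat_lit 396) (.trX (nat_lit 16) (nat_lit 72) (nat_lit 100) (nat_lit 81) (nat_lit 232) (.spl (nat_lit 0) (nat_lit 350)
(.leaf p089_l90)
(.trX (nat_lit 13) (nat_lit 76) (nat_lit 37) (nat_lit 100) (nat_lit 392) (.trX (nat_lit 16) (nat_lit 66) (nat_lit 100) (nat_lit 80) (nat_lit 216) (.leaf p089_l91)))))))))))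
(.trX (nat_lit 19) (nat_lit 94) (nat_lit 100) (nat_lit 87) (nat_lit 280) (.spl (nat_lit 2) (nat_lit 360)
(.spl (nat_lit 0) (nat_lit 340)
(.leaf p089_l92)
(.trX (nat_lit 16) (nat_lit 72) (nat_lit 100) (nat_lit 81) (nat_lit 232) (.leaf p089_l93)))
(.trZ (nat_lit 9) (nat_lit 100) (nat_lit 61) (nat_lit 68) (nat_lit 48) (.spl (nat_lit 0) (nat_lit 340)
(.spl (nat_lit 0) (nat_lit 330)
(.leaf p089_l94)
(.trX (nat_lit 16) (nat_lit 78) (nat_lit 100) (nat_lit 82) (nat_lit 244) (.leaf p089_l95)))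
(.trX (nat_lit 16) (nat_lit 72) (nat_lit 100) (nat_lit 81) (nat_lit 232) (.spl (nat_lit 0) (nat_lit 350)
(.leaf p089_l96)
(.trX (nat_lit 13) (nat_lit 83) (nat_lit 25) (nat_lit 100) (nat_lit 396) (.trX (nat_lit 16) (nat_lit 66) (nat_lit 100) (nat_lit 80) (nat_lit 216) (.leaf p089_l97))))))))))))) (by decide +kernel)
noncomputable def p089_l98 : Lf2 := ⟨nat_lit 0, nat_lit 10, [nat_lit 0, nat_lit 5, nat_lit 5, nat_lit 20], false, nat_lit 0, nat_lit 260, nat_lit 0, nat_lit 300, ⟨nat_lit 776, nat_lit 224, nat_lit 0, nat_lit 7, nat_lit 276, nat_lit 224, nat_lit 89, nat_lit 0, nat_lit 0, nat_lit 0, nat_lit 0, nat_lit 0, nat_lit 0, nat_lit 0, nat_lit 0, nat_lit 5000000, false, false⟩,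
 nat_lit 0, nat_lit 0, nat_lit 0, nat_lit 0, nat_lit 7825, nat_lit 7592, nat_lit 0, nat_lit 0, nat_lit 0, nat_lit 0, nat_lit 0, nat_lit 0, nat_lit 0, nat_lit 0, nat_lit 0, nat_lit 56000, nat_lit 0, nat_lit 0, [(nat_lit 18, [(nat_lit 0, nat_lit 224)]), (nat_lit 21, [(nat_lit 0, nat_lit 224)])],
 ⟨p089_k37, nat_lit 0, nat_lit 0, nat_lit 187, nat_lit 0, nat_lit 0, [nat_lit 1925913600, nat_lit 5423888000], [], [nat_lit 24569104500, nat_lit 30548140900, nat_lit 43166368700, nat_lit 46311274900, nat_lit 23430029200, nat_lit 26588532250, nat_lit 35052061750, nat_lit 37268613725], nat_lit 0, nat_lit 0, nat_lit 0, nat_lit 0, nat_lit 0, nat_lit 0, [], [nat_lit 69, nat_lit 40, nat_lit 40, nat_lit 80, nat_lit 64, nat_lit 401, nat_lit 175, nat_lit 15]⟩, ⟨p089_k38, nat_lit 0, nat_lit 0, nat_lit 200, nat_lit 0, nat_lit 0, [nat_lit 2546832000, nat_lit 7637392000], [], [nat_lit 22807922784, nat_lit 26531591024, nat_lit 35408092608,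 nat_lit 37749131680, nat_lit 22406432568, nat_lit 24543287204, nat_lit 28620239880, nat_lit 29995181832], nat_lit 0, nat_lit 0, nat_lit 0, nat_lit 0, nat_lit 0, nat_lit 0, [], [nat_lit 82, nat_lit 40, nat_lit 40, nat_lit 80, nat_lit 63, nat_lit 401, nat_lit 175, nat_lit 12]⟩,
 ⟨nat_lit 3162, nat_lit 4473, ⟨.ofNat (nat_lit 415764), .ofNat (nat_lit 926092), .ofNat (nat_lit 458716), .ofNat (nat_lit 969090), .ofNat (nat_lit 435680), .ofNat (nat_lit 893321), .ofNat (nat_lit 479808), .ofNat (nat_lit 937496)⟩, ⟨.negSucc (nat_lit 12437), .ofNat (nat_lit 429433), .ofNat (nat_lit 0), .ofNat (nat_lit 472567), .ofNat (nat_lit 0), .ofNat (nat_lit 414188), .ofNat (nat_lit 0), .ofNat (nat_lit 458499)⟩⟩, [⟨nat_lit 0, nat_lit 90, nat_lit 74, nat_lit 100, nat_lit 34784466⟩, ⟨nat_lit 7, nat_lit 100, nat_lit 90, nat_lit 74, nat_lit 16518442⟩]⟩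
noncomputable def p089_l99 : Lf2 := ⟨nat_lit 0, nat_lit 10, [nat_lit 0, nat_lit 5, nat_lit 5, nat_lit 20], true, nat_lit 0, nat_lit 260, nat_lit 0, nat_lit 300, ⟨nat_lit 0, nat_lit 1000, nat_lit 0, nat_lit 7, nat_lit 224, nat_lit 1000, nat_lit 89, nat_lit 0, nat_lit 0, nat_lit 0, nat_lit 0, nat_lit 0, nat_lit 0, nat_lit 0, nat_lit 0, nat_lit 5000000, false, false⟩,
 nat_lit 0, nat_lit 0, nat_lit 0, nat_lit 0, nat_lit 5319, nat_lit 0, nat_lit 0, nat_lit 0, nat_lit 0, nat_lit 0, nat_lit 0, nat_lit 0, nat_lit 0, nat_lit 0, nat_lit 0, nat_lit 250000, nat_lit 0, nat_lit 0, [(nat_lit 18, [(nat_lit 0, nat_lit 1000)]), (nat_lit 21, [(nat_lit 0, nat_lit 1000)])],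
 ⟨p089_k20, nat_lit 0, nat_lit 0, nat_lit 150, nat_lit 0, nat_lit 0, [nat_lit 1558400000, nat_lit 2168000000, nat_lit 2562000000], [], [nat_lit 19726573472, nat_lit 25047440828, nat_lit 23407017120, nat_lit 27653680252, nat_lit 21063946096, nat_lit 24282586230, nat_lit 23225862459, nat_lit 26167373040], nat_lit 0, nat_lit 0, nat_lit 0, nat_lit 0, nat_lit 0, nat_lit 0, [], [nat_lit 6, nat_lit 40, nat_lit 40, nat_lit 80, nat_lit 3, nat_lit 345, nat_lit 125, nat_lit 13]⟩, C1.Rw.none,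
 ⟨nat_lit 3162, nat_lit 4473, ⟨.ofNat (nat_lit 415764), .ofNat (nat_lit 653959), .ofNat (nat_lit 458716), .ofNat (nat_lit 696911), .ofNat (nat_lit 435680), .ofNat (nat_lit 649288), .ofNat (nat_lit 479808), .ofNat (nat_lit 693416)⟩, ⟨.negSucc (nat_lit 12437), .ofNat (nat_lit 429433), .ofNat (nat_lit 0), .ofNat (nat_lit 472567), .ofNat (nat_lit 0), .ofNat (nat_lit 414188), .ofNat (nat_lit 0), .ofNat (nat_lit 458499)⟩⟩, [⟨nat_lit 16, nat_lit 83, nat_lit 100, nat_lit 83, nat_lit 56012298⟩]⟩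
noncomputable def p089_l100 : Lf2 := ⟨nat_lit 0, nat_lit 10, [nat_lit 0, nat_lit 5, nat_lit 5, nat_lit 20], false, nat_lit 0, nat_lit 260, nat_lit 0, nat_lit 300, ⟨nat_lit 76, nat_lit 924, nat_lit 0, nat_lit 7, nat_lit 317, nat_lit 924, nat_lit 89, nat_lit 0, nat_lit 0, nat_lit 0, nat_lit 0, nat_lit 0, nat_lit 0, nat_lit 0, nat_lit 0, nat_lit 5000000, true, true⟩,
 nat_lit 0, nat_lit 0, nat_lit 950, nat_lit 0, nat_lit 4051, nat_lit 604, nat_lit 0, nat_lit 0, nat_lit 0, nat_lit 28, nat_lit 0, nat_lit 0, nat_lit 0, nat_lit 0, nat_lit 0, nat_lit 243300, nat_lit 0, nat_lit 0, [(nat_lit 18, [(nat_lit 0, nat_lit 842), (nat_lit 1, nat_lit 82)]), (nat_lit 21, [(nat_lit 0, nat_lit 842), (nat_lit 1, nat_lit 82)])],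
 ⟨p089_k20, nat_lit 0, nat_lit 0, nat_lit 180, nat_lit 0, nat_lit 0, [nat_lit 1581251734, nat_lit 2343010667, nat_lit 2792989600], [], [nat_lit 24071612823, nat_lit 26533151255, nat_lit 32607637556, nat_lit 34859856892, nat_lit 25523110640, nat_lit 27186116353, nat_lit 31041780295, nat_lit 32464413623], nat_lit 0, nat_lit 0, nat_lit 0, nat_lit 0, nat_lit 0, nat_lit 0, [], [nat_lit 6, nat_lit 40, nat_lit 40, nat_lit 80, nat_lit 3, nat_lit 289, nat_lit 75, nat_lit 10]⟩, ⟨p089_k21, nat_lit 0, nat_lit 0, nat_lit 1067, nat_lit 0, nat_lit 1959301, [nat_lit 249432000, nat_lit 475000000, nat_lit 747992000], [], [nat_lit 3165155772, nat_lit 3171699740, nat_lit 3221072364, nat_lit 3219507380, nat_lit 2768925096, nat_lit 2766949494, nat_lit 2758735740, nat_lit 2750862568], nat_lit 1271250, nat_lit 1271250, nat_lit 1271250, nat_lit 1271250, nat_lit 0, nat_lit 2118750, [nat_lit 780000, nat_lit 1435000, nat_lit 1271250], [nat_lit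 8, nat_lit 40, nat_lit 40, nat_lit 80, nat_lit 1, nat_lit 401, nat_lit 175, nat_lit 11]⟩,
 ⟨nat_lit 3162, nat_lit 4473, ⟨.ofNat (nat_lit 653959), .ofNat (nat_lit 926092), .ofNat (nat_lit 675435), .ofNat (nat_lit 947591), .ofNat (nat_lit 649288), .ofNat (nat_lit 893321), .ofNat (nat_lit 671352), .ofNat (nat_lit 915409)⟩, ⟨.negSucc (nat_lit 12437), .ofNat (nat_lit 429433), .ofNat (nat_lit 0), .ofNat (nat_lit 472567), .ofNat (nat_lit 0), .ofNat (nat_lit 414188), .ofNat (nat_lit 0), .ofNat (nat_lit 458499)⟩⟩, [⟨nat_lit 13, nat_lit 92, nat_lit 14, nat_lit 100, nat_lit 196842021⟩, ⟨nat_lit 16, nat_lit 83, nat_lit 100, nat_lit 83, nat_lit 38357691⟩, ⟨nat_lit 19, nat_lit 100, nat_lit 95, nat_lit 87, nat_lit 6218951⟩]⟩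
noncomputable def p089_l101 : Lf2 := ⟨nat_lit 0, nat_lit 10, [nat_lit 0, nat_lit 5, nat_lit 5, nat_lit 20], false, nat_lit 0, nat_lit 260, nat_lit 0, nat_lit 280, ⟨nat_lit 213, nat_lit 787, nat_lit 0, nat_lit 7, nat_lit 327, nat_lit 787, nat_lit 90, nat_lit 0, nat_lit 0, nat_lit 0, nat_lit 0, nat_lit 0, nat_lit 0, nat_lit 0, nat_lit 0, nat_lit 5000000, true, true⟩,
 nat_lit 0, nat_lit 0, nat_lit 1921, nat_lit 0, nat_lit 3897, nat_lit 1329, nat_lit 0, nat_lit 0, nat_lit 0, nat_lit 180, nat_lit 0, nat_lit 0, nat_lit 0, nat_lit 0, nat_lit 0, nat_lit 441250, nat_lit 0, nat_lit 0, [(nat_lit 18, [(nat_lit 0, nat_lit 461), (nat_lit 2, nat_lit 326)])],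
 ⟨p089_k20, nat_lit 0, nat_lit 0, nat_lit 176, nat_lit 0, nat_lit 0, [nat_lit 1694245334, nat_lit 2338770667, nat_lit 2367848800], [], [nat_lit 23944185689, nat_lit 25082841367, nat_lit 32176783132, nat_lit 33284679528, nat_lit 25595082334, nat_lit 26414606840, nat_lit 30865916827, nat_lit 31440846652], nat_lit 0, nat_lit 0, nat_lit 0, nat_lit 0, nat_lit 0, nat_lit 0, [], [nat_lit 6, nat_lit 40, nat_lit 40, nat_lit 80, nat_lit 3, nat_lit 289, nat_lit 75, nat_lit 10]⟩, ⟨p089_k23, nat_lit 0, nat_lit 0, nat_lit 855, nat_lit 0, nat_lit 1630547, [nat_lit 699066000, nat_lit 1331250000, nat_lit 1697184000], [], [nat_lit 7138287912, nat_lit 7225269804, nat_lit 7995537654, nat_lit 8249564388, nat_lit 6790938219, nat_lit 6843252414, nat_lit 7183732065, nat_lit 7217005638], nat_lit 1271250, nat_lit 1271250, nat_lit 1271250, nat_lit 1271250, nat_lit 0, nat_lit 1977500, [nat_lit 780000, nat_lit 1435000, nat_lit 1271250], [nat_lit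 18, nat_lit 40, nat_lit 40, nat_lit 80, nat_lit 2, nat_lit 339, nat_lit 75, nat_lit 11]⟩,
 ⟨nat_lit 3872, nat_lit 4473, ⟨.ofNat (nat_lit 675730), .ofNat (nat_lit 947674), .ofNat (nat_lit 697279), .ofNat (nat_lit 969223), .ofNat (nat_lit 673407), .ofNat (nat_lit 931525), .ofNat (nat_lit 695183), .ofNat (nat_lit 953301)⟩, ⟨.negSucc (nat_lit 12427), .ofNat (nat_lit 429434), .ofNat (nat_lit 0), .ofNat (nat_lit 472567), .ofNat (nat_lit 0), .ofNat (nat_lit 422435), .ofNat (nat_lit 0), .ofNat (nat_lit 466021)⟩⟩, [⟨nat_lit 13, nat_lit 91, nat_lit 15, nat_lit 100, nat_lit 123386053⟩, ⟨nat_lit 16, nat_lit 76, nat_lit 100, nat_lit 72, nat_lit 91349658⟩, ⟨nat_lit 7, nat_lit 100, nat_lit 85, nat_lit 73, nat_lit 30662595⟩]⟩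
noncomputable def p089_l102 : Lf2 := ⟨nat_lit 0, nat_lit 10, [nat_lit 0, nat_lit 5, nat_lit 5, nat_lit 20], true, nat_lit 0, nat_lit 232, nat_lit 0, nat_lit 280, ⟨nat_lit 0, nat_lit 1000, nat_lit 0, nat_lit 7, nat_lit 324, nat_lit 1000, nat_lit 79, nat_lit 0, nat_lit 0, nat_lit 0, nat_lit 0, nat_lit 0, nat_lit 0, nat_lit 0, nat_lit 0, nat_lit 5000000, true, true⟩,
 nat_lit 0, nat_lit 0, nat_lit 0, nat_lit 0, nat_lit 3617, nat_lit 0, nat_lit 0, nat_lit 0, nat_lit 0, nat_lit 0, nat_lit 0, nat_lit 0, nat_lit 0, nat_lit 0, nat_lit 0, nat_lit 305350, nat_lit 0, nat_lit 0, [(nat_lit 21, [(nat_lit 0, nat_lit 631), (nat_lit 1, nat_lit 369)])],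
 ⟨p089_k24, nat_lit 0, nat_lit 0, nat_lit 180, nat_lit 0, nat_lit 0, [nat_lit 1483419200, nat_lit 1904969201, nat_lit 1904674000], [], [nat_lit 24395633127, nat_lit 25496496085, nat_lit 32468192808, nat_lit 33542974164, nat_lit 25257529503, nat_lit 26096259107, nat_lit 30446839776, nat_lit 31298200795], nat_lit 0, nat_lit 0, nat_lit 0, nat_lit 0, nat_lit 0, nat_lit 0, [], [nat_lit 6, nat_lit 40, nat_lit 40, nat_lit 80, nat_lit 3, nat_lit 272, nat_lit 60, nat_lit 9]⟩, C1.Rw.none,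
 ⟨nat_lit 3162, nat_lit 3873, ⟨.ofNat (nat_lit 673376), .ofNat (nat_lit 931573), .ofNat (nat_lit 695141), .ofNat (nat_lit 953347), .ofNat (nat_lit 671616), .ofNat (nat_lit 915540), .ofNat (nat_lit 693742), .ofNat (nat_lit 937676)⟩, ⟨.ofNat (nat_lit 0), .ofNat (nat_lit 377270), .ofNat (nat_lit 0), .ofNat (nat_lit 420856), .ofNat (nat_lit 0), .ofNat (nat_lit 371522), .ofNat (nat_lit 0), .ofNat (nat_lit 415832)⟩⟩, [⟨nat_lit 13, nat_lit 89, nat_lit 16, nat_lit 100, nat_lit 226888861⟩, ⟨nat_lit 16, nat_lit 72, nat_lit 100, nat_lit 81, nat_lit 24846537⟩]⟩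
noncomputable def b_V_800_700_10_4 : St := ⟨true, nat_lit 0, nat_lit 2, nat_lit 2, nat_lit 80, nat_lit 320, nat_lit 360, nat_lit 280, nat_lit 320, nat_lit 100, nat_lit 400, nat_lit 40, nat_lit 80, nat_lit 0, nat_lit 260, nat_lit 0, nat_lit 300, nat_lit 0, nat_lit 40, nat_lit 0, nat_lit 0, nat_lit 0, nat_lit 0⟩
theorem d_V_800_700_10_4 (h : EB TB.env) : Dead b_V_800_700_10_4 := chkB_sound0 h (T :=
(.st (nat_lit 1)
(.leaf p089_l98)
(.spl (nat_lit 2) (nat_lit 240)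
(.leaf p089_l99)
(.spl (nat_lit 1) (nat_lit 300)
(.leaf p089_l100)
(.trX (nat_lit 19) (nat_lit 94) (nat_lit 100) (nat_lit 87) (nat_lit 280) (.spl (nat_lit 0) (nat_lit 340)
(.leaf p089_l101)
(.trX (nat_lit 16) (nat_lit 72) (nat_lit 100) (nat_lit 81) (nat_lit 232) (.leaf p089_l102)))))))) (by decide +kernel)
noncomputable def p089_l103 : Lf2 := ⟨nat_lit 0, nat_lit 10, [nat_lit 0, nat_lit 5, nat_lit 5, nat_lit 20], false, nat_lit 0, nat_lit 160, nat_lit 0, nat_lit 160, ⟨nat_lit 1000, nat_lit 0, nat_lit 0, nat_lit 0, nat_lit 0, nat_lit 0, nat_lit 0, nat_lit 0, nat_lit 0, nat_lit 0, nat_lit 0, nat_lit 0, nat_lit 0, nat_lit 0, nat_lit 0, nat_lit 0, false, false⟩,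
 nat_lit 0, nat_lit 10334, nat_lit 0, nat_lit 0, nat_lit 7750, nat_lit 8699, nat_lit 479, nat_lit 0, nat_lit 0, nat_lit 1613, nat_lit 0, nat_lit 0, nat_lit 0, nat_lit 0, nat_lit 0, nat_lit 0, nat_lit 0, nat_lit 0, [],
 ⟨p089_k20, nat_lit 0, nat_lit 0, nat_lit 622, nat_lit 0, nat_lit 1171209, [nat_lit 2032000001, nat_lit 4688000000, nat_lit 6250000000], [], [nat_lit 27410352500, nat_lit 28349702750, nat_lit 27971114000, nat_lit 29719919500, nat_lit 24301440500, nat_lit 25071749250, nat_lit 24439941000, nat_lit 25038133500], nat_lit 1271250, nat_lit 1271250, nat_lit 631250, nat_lit 1751250, nat_lit 0, nat_lit 1100001, [nat_lit 490000, nat_lit 1100000, nat_lit 1442500], [nat_lit 6, nat_lit 40, nat_lit 40, nat_lit 80, nat_lit 3, nat_lit 317, nat_lit 100, nat_lit 12]⟩, ⟨p089_k21, nat_lit 0, nat_lit 0, nat_lit 171, nat_lit 0, nat_lit 0, [nat_lit 3282000000, nat_lit 6250000000, nat_lit 9842000000], [], [nat_lit 18802681915,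 nat_lit 20021258740, nat_lit 23312950108, nat_lit 24353268205, nat_lit 13403469124, nat_lit 14546667659, nat_lit 17433922320, nat_lit 18296711351], nat_lit 0, nat_lit 0, nat_lit 0, nat_lit 0, nat_lit 0, nat_lit 0, [], [nat_lit 8, nat_lit 40, nat_lit 40, nat_lit 80, nat_lit 1, nat_lit 317, nat_lit 100, nat_lit 9]⟩,
 zbF0, [⟨nat_lit 0, nat_lit 94, nat_lit 75, nat_lit 100, nat_lit 493299731⟩]⟩
noncomputable def p089_l104 : Lf2 := ⟨nat_lit 0, nat_lit 10, [nat_lit 0, nat_lit 5, nat_lit 5, nat_lit 20], false, nat_lit 0, nat_lit 160, nat_lit 0, nat_lit 160, ⟨nat_lit 1000, nat_lit 0, nat_lit 0, nat_lit 0, nat_lit 0, nat_lit 0, nat_lit 0, nat_lit 0, nat_lit 0, nat_lit 0, nat_lit 0, nat_lit 0, nat_lit 0, nat_lit 0, nat_lit 0, nat_lit 0, false, false⟩,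
 nat_lit 0, nat_lit 10334, nat_lit 0, nat_lit 0, nat_lit 7750, nat_lit 7079, nat_lit 427, nat_lit 0, nat_lit 0, nat_lit 3213, nat_lit 0, nat_lit 0, nat_lit 0, nat_lit 0, nat_lit 0, nat_lit 0, nat_lit 0, nat_lit 0, [],
 ⟨p089_k20, nat_lit 0, nat_lit 0, nat_lit 649, nat_lit 0, nat_lit 1248111, [nat_lit 2032000001, nat_lit 4688000000, nat_lit 6250000000], [], [nat_lit 27650488400, nat_lit 28454154551, nat_lit 27971114000, nat_lit 29719919500, nat_lit 24259618900, nat_lit 24967190000, nat_lit 24439941000, nat_lit 25038133500], nat_lit 1271250, nat_lit 1271250, nat_lit 689850, nat_lit 1755750, nat_lit 0, nat_lit 1100001, [nat_lit 490000, nat_lit 1100000, nat_lit 1442500], [nat_lit 6, nat_lit 40, nat_lit 40, nat_lit 80, nat_lit 3, nat_lit 317, nat_lit 100, nat_lit 12]⟩, ⟨p089_k28, nat_lit 0, nat_lit 0, nat_lit 133, nat_lit 0, nat_lit 0, [nat_lit 3282000000, nat_lit 6250000000, nat_lit 7968000000], [], [nat_lit 17463347734,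 nat_lit 18990235072, nat_lit 22493202657, nat_lit 23664009078, nat_lit 13318021008, nat_lit 14303066340, nat_lit 17070825221, nat_lit 17894864132], nat_lit 0, nat_lit 0, nat_lit 0, nat_lit 0, nat_lit 0, nat_lit 0, [], [nat_lit 18, nat_lit 40, nat_lit 40, nat_lit 80, nat_lit 2, nat_lit 317, nat_lit 100, nat_lit 10]⟩,
 zbF0, [⟨nat_lit 0, nat_lit 90, nat_lit 74, nat_lit 100, nat_lit 469609488⟩]⟩
noncomputable def p089_l105 : Lf2 := ⟨nat_lit 0, nat_lit 10, [nat_lit 0, nat_lit 5, nat_lit 5, nat_lit 20], false, nat_lit 0, nat_lit 160, nat_lit 0, nat_lit 160, ⟨nat_lit 1000, nat_lit 0, nat_lit 0, nat_lit 0, nat_lit 0, nat_lit 0, nat_lit 0, nat_lit 0, nat_lit 0, nat_lit 0, nat_lit 0, nat_lit 0, nat_lit 0, nat_lit 0, nat_lit 0, nat_lit 0, false, false⟩,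
 nat_lit 0, nat_lit 11130, nat_lit 0, nat_lit 0, nat_lit 8347, nat_lit 5991, nat_lit 421, nat_lit 0, nat_lit 0, nat_lit 3641, nat_lit 0, nat_lit 0, nat_lit 0, nat_lit 0, nat_lit 0, nat_lit 0, nat_lit 0, nat_lit 0, [],
 ⟨p089_k20, nat_lit 0, nat_lit 0, nat_lit 677, nat_lit 0, nat_lit 1336626, [nat_lit 2032000001, nat_lit 4688000000, nat_lit 6250000000], [], [nat_lit 24506727260, nat_lit 25345144169, nat_lit 24282526288, nat_lit 25505710992, nat_lit 20691196024, nat_lit 21051626844, nat_lit 20457710920, nat_lit 20819394026], nat_lit 1271250, nat_lit 1271250, nat_lit 780000, nat_lit 1100001, nat_lit 0, nat_lit 1100001, [nat_lit 490000, nat_lit 1100000, nat_lit 1442500], [nat_lit 6, nat_lit 40, nat_lit 40, nat_lit 80, nat_lit 3, nat_lit 317, nat_lit 100, nat_lit 12]⟩, ⟨p089_k23, nat_lit 0, nat_lit 0, nat_lit 145, nat_lit 0, nat_lit 0, [nat_lit 3282000000, nat_lit 6250000000, nat_lit 7968000000], [], [nat_lit 17566859862,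 nat_lit 20251704060, nat_lit 18241705320, nat_lit 20758714648, nat_lit 13892519872, nat_lit 15711046348, nat_lit 14693526024, nat_lit 16365356608], nat_lit 0, nat_lit 0, nat_lit 0, nat_lit 0, nat_lit 0, nat_lit 0, [], [nat_lit 18, nat_lit 40, nat_lit 40, nat_lit 80, nat_lit 2, nat_lit 317, nat_lit 100, nat_lit 10]⟩,
 zbF0, [⟨nat_lit 0, nat_lit 82, nat_lit 78, nat_lit 100, nat_lit 709690145⟩]⟩
noncomputable def p089_l106 : Lf2 := ⟨nat_lit 0, nat_lit 10, [nat_lit 0, nat_lit 5, nat_lit 5, nat_lit 20], false, nat_lit 0, nat_lit 160, nat_lit 0, nat_lit 160, ⟨nat_lit 1000, nat_lit 0, nat_lit 0, nat_lit 0, nat_lit 0, nat_lit 0, nat_lit 0, nat_lit 0, nat_lit 0, nat_lit 0, nat_lit 0, nat_lit 0, nat_lit 0, nat_lit 0, nat_lit 0, nat_lit 0, false, false⟩,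
 nat_lit 0, nat_lit 11130, nat_lit 0, nat_lit 0, nat_lit 8347, nat_lit 5991, nat_lit 408, nat_lit 0, nat_lit 0, nat_lit 2464, nat_lit 0, nat_lit 0, nat_lit 0, nat_lit 0, nat_lit 0, nat_lit 0, nat_lit 0, nat_lit 0, [],
 ⟨p089_k20, nat_lit 0, nat_lit 0, nat_lit 665, nat_lit 0, nat_lit 1336626, [nat_lit 2032000001, nat_lit 4688000000, nat_lit 6250000000], [], [nat_lit 24386526288, nat_lit 25505710992, nat_lit 27877798560, nat_lit 29313292139, nat_lit 20483577516, nat_lit 20819394026, nat_lit 20913846468, nat_lit 21296010800], nat_lit 1271250, nat_lit 1271250, nat_lit 1100001, nat_lit 1785000, nat_lit 0, nat_lit 1100001, [nat_lit 490000, nat_lit 1100000, nat_lit 1442500], [nat_lit 6, nat_lit 40, nat_lit 40, nat_lit 80, nat_lit 3, nat_lit 317, nat_lit 100, nat_lit 12]⟩, ⟨p089_k23, nat_lit 0, nat_lit 0, nat_lit 142, nat_lit 0, nat_lit 0, [nat_lit 3282000000, nat_lit 6250000000, nat_lit 7968000000], [], [nat_lit 18241705320,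 nat_lit 20758714648, nat_lit 22295868662, nat_lit 24399211680, nat_lit 14915430590, nat_lit 16365356608, nat_lit 17900839428, nat_lit 19682678780], nat_lit 0, nat_lit 0, nat_lit 0, nat_lit 0, nat_lit 0, nat_lit 0, [], [nat_lit 18, nat_lit 40, nat_lit 40, nat_lit 80, nat_lit 2, nat_lit 317, nat_lit 100, nat_lit 10]⟩,
 zbF0, []⟩
noncomputable def p089_l107 : Lf2 := ⟨nat_lit 0, nat_lit 10, [nat_lit 0, nat_lit 5, nat_lit 5, nat_lit 20], false, nat_lit 0, nat_lit 160, nat_lit 0, nat_lit 160, ⟨nat_lit 1000, nat_lit 0, nat_lit 0, nat_lit 0, nat_lit 0, nat_lit 0, nat_lit 0, nat_lit 0, nat_lit 0, nat_lit 0, nat_lit 0, nat_lit 0, nat_lit 0, nat_lit 0, nat_lit 0, nat_lit 0, false, false⟩,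
 nat_lit 0, nat_lit 7580, nat_lit 0, nat_lit 0, nat_lit 5908, nat_lit 7099, nat_lit 1654, nat_lit 0, nat_lit 0, nat_lit 974, nat_lit 0, nat_lit 0, nat_lit 0, nat_lit 0, nat_lit 0, nat_lit 0, nat_lit 0, nat_lit 0, [],
 ⟨p089_k27, nat_lit 0, nat_lit 0, nat_lit 678, nat_lit 0, nat_lit 1344089, [nat_lit 2032000001, nat_lit 4688000000, nat_lit 6250000000], [], [nat_lit 21774649410, nat_lit 23106175533, nat_lit 25411045796, nat_lit 26545427752, nat_lit 20446888239, nat_lit 20813034387, nat_lit 21544937006, nat_lit 21861037874], nat_lit 1271250, nat_lit 1271250, nat_lit 872850, nat_lit 1769250, nat_lit 0, nat_lit 1100001, [nat_lit 490000, nat_lit 1100000, nat_lit 1442500], [nat_lit 6, nat_lit 40, nat_lit 40, nat_lit 80, nat_lit 3, nat_lit 317, nat_lit 100, nat_lit 12]⟩, ⟨p089_k23, nat_lit 0, nat_lit 0, nat_lit 142, nat_lit 0, nat_lit 0, [nat_lit 3282000000, nat_lit 6250000000, nat_lit 7968000000], [], [nat_lit 20641816505,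 nat_lit 22717200720, nat_lit 24042179208, nat_lit 26035151520, nat_lit 16299290880, nat_lit 18029419708, nat_lit 19227786396, nat_lit 20615583894], nat_lit 0, nat_lit 0, nat_lit 0, nat_lit 0, nat_lit 0, nat_lit 0, [], [nat_lit 18, nat_lit 40, nat_lit 40, nat_lit 80, nat_lit 2, nat_lit 317, nat_lit 100, nat_lit 10]⟩,
 zbF0, [⟨nat_lit 0, nat_lit 81, nat_lit 72, nat_lit 100, nat_lit 465151494⟩]⟩
noncomputable def p089_l108 : Lf2 := ⟨nat_lit 0, nat_lit 10, [nat_lit 0, nat_lit 5, nat_lit 5, nat_lit 20], false, nat_lit 0, nat_lit 160, nat_lit 0, nat_lit 160, ⟨nat_lit 1000, nat_lit 0, nat_lit 0, nat_lit 0, nat_lit 0, nat_lit 0, nat_lit 0, nat_lit 0, nat_lit 0, nat_lit 0, nat_lit 0, nat_lit 0, nat_lit 0, nat_lit 0, nat_lit 0, nat_lit 0, false, false⟩,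
 nat_lit 0, nat_lit 7028, nat_lit 0, nat_lit 0, nat_lit 5689, nat_lit 7207, nat_lit 1067, nat_lit 0, nat_lit 0, nat_lit 1323, nat_lit 0, nat_lit 0, nat_lit 0, nat_lit 0, nat_lit 0, nat_lit 0, nat_lit 0, nat_lit 0, [],
 ⟨p089_k24, nat_lit 0, nat_lit 0, nat_lit 726, nat_lit 0, nat_lit 1428878, [nat_lit 2032000001, nat_lit 4688000000, nat_lit 6250000000], [], [nat_lit 22666403121, nat_lit 25445043137, nat_lit 26168004466, nat_lit 28382694212, nat_lit 21713349867, nat_lit 22510884271, nat_lit 23033390509, nat_lit 23697456261], nat_lit 1271250, nat_lit 1271250, nat_lit 810650, nat_lit 1764750, nat_lit 0, nat_lit 1100001, [nat_lit 490000, nat_lit 1100000, nat_lit 1442500], [nat_lit 6, nat_lit 40, nat_lit 40, nat_lit 80, nat_lit 3, nat_lit 317, nat_lit 100, nat_lit 12]⟩, ⟨p089_k21, nat_lit 0, nat_lit 0, nat_lit 181, nat_lit 0, nat_lit 0, [nat_lit 3282000000, nat_lit 6250000000, nat_lit 9842000000], [], [nat_lit 20037351765,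 nat_lit 23822841662, nat_lit 23530346444, nat_lit 27214160928, nat_lit 15408127476, nat_lit 19137626151, nat_lit 19191975760, nat_lit 22265542492], nat_lit 0, nat_lit 0, nat_lit 0, nat_lit 0, nat_lit 0, nat_lit 0, [], [nat_lit 8, nat_lit 40, nat_lit 40, nat_lit 80, nat_lit 1, nat_lit 317, nat_lit 100, nat_lit 9]⟩,
 zbF0, [⟨nat_lit 0, nat_lit 80, nat_lit 60, nat_lit 100, nat_lit 557397916⟩]⟩
noncomputable def p089_l109 : Lf2 := ⟨nat_lit 0, nat_lit 10, [nat_lit 0, nat_lit 5, nat_lit 5, nat_lit 20], false, nat_lit 160, nat_lit 260, nat_lit 0, nat_lit 160, ⟨nat_lit 1000, nat_lit 0, nat_lit 0, nat_lit 0, nat_lit 0, nat_lit 0, nat_lit 0, nat_lit 0, nat_lit 0, nat_lit 0, nat_lit 0, nat_lit 0, nat_lit 0, nat_lit 0, nat_lit 0, nat_lit 0, false, false⟩,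
 nat_lit 0, nat_lit 10207, nat_lit 0, nat_lit 0, nat_lit 7654, nat_lit 8699, nat_lit 464, nat_lit 0, nat_lit 0, nat_lit 1613, nat_lit 0, nat_lit 0, nat_lit 0, nat_lit 0, nat_lit 0, nat_lit 0, nat_lit 0, nat_lit 0, [],
 ⟨p089_k20, nat_lit 0, nat_lit 0, nat_lit 530, nat_lit 0, nat_lit 1171209, [nat_lit 2032000001, nat_lit 4688000000, nat_lit 6250000000], [], [nat_lit 23257699380, nat_lit 24126921052, nat_lit 23777894160, nat_lit 24507585008, nat_lit 24702031414, nat_lit 25467112670, nat_lit 25075559968, nat_lit 25842816593], nat_lit 1271250, nat_lit 1271250, nat_lit 631250, nat_lit 1751250, nat_lit 1100001, nat_lit 1956250, [nat_lit 490000, nat_lit 1100000, nat_lit 1442500], [nat_lit 6, nat_lit 40, nat_lit 40, nat_lit 80, nat_lit 3, nat_lit 345, nat_lit 125, nat_lit 12]⟩, ⟨p089_k21, nat_lit 0, nat_lit 0, nat_lit 171, nat_lit 0, nat_lit 0, [nat_lit 3282000000, nat_lit 6250000000, nat_lit 9842000000], [], [nat_lit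 18802681915, nat_lit 20021258740, nat_lit 23312950108, nat_lit 24353268205, nat_lit 13403469124, nat_lit 14546667659, nat_lit 17433922320, nat_lit 18296711351], nat_lit 0, nat_lit 0, nat_lit 0, nat_lit 0, nat_lit 0, nat_lit 0, [], [nat_lit 8, nat_lit 40, nat_lit 40, nat_lit 80, nat_lit 1, nat_lit 317, nat_lit 100, nat_lit 9]⟩,
 zbF0, [⟨nat_lit 0, nat_lit 94, nat_lit 75, nat_lit 100, nat_lit 472277810⟩, ⟨nat_lit 4, nat_lit 100, nat_lit 76, nat_lit 72, nat_lit 506061348⟩]⟩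
noncomputable def p089_l110 : Lf2 := ⟨nat_lit 0, nat_lit 10, [nat_lit 0, nat_lit 5, nat_lit 5, nat_lit 20], false, nat_lit 160, nat_lit 260, nat_lit 0, nat_lit 160, ⟨nat_lit 1000, nat_lit 0, nat_lit 0, nat_lit 0, nat_lit 0, nat_lit 0, nat_lit 0, nat_lit 0, nat_lit 0, nat_lit 0, nat_lit 0, nat_lit 0, nat_lit 0, nat_lit 0, nat_lit 0, nat_lit 0, false, false⟩,
 nat_lit 0, nat_lit 10201, nat_lit 0, nat_lit 0, nat_lit 7650, nat_lit 7116, nat_lit 462, nat_lit 0, nat_lit 0, nat_lit 3126, nat_lit 0, nat_lit 0, nat_lit 0, nat_lit 0, nat_lit 0, nat_lit 0, nat_lit 0, nat_lit 0, [],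
 ⟨p089_k20, nat_lit 0, nat_lit 0, nat_lit 557, nat_lit 0, nat_lit 1248111, [nat_lit 2032000001, nat_lit 4688000000, nat_lit 6250000000], [], [nat_lit 23193488900, nat_lit 24052871900, nat_lit 23798510000, nat_lit 24528042800, nat_lit 24611887951, nat_lit 25368256988, nat_lit 25245620800, nat_lit 25840852675], nat_lit 1271250, nat_lit 1271250, nat_lit 689850, nat_lit 1755750, nat_lit 1100001, nat_lit 1956250, [nat_lit 490000, nat_lit 1100000, nat_lit 1442500], [nat_lit 6, nat_lit 40, nat_lit 40, nat_lit 80, nat_lit 3, nat_lit 345, nat_lit 125, nat_lit 12]⟩, ⟨p089_k28, nat_lit 0, nat_lit 0, nat_lit 133, nat_lit 0, nat_lit 0, [nat_lit 3282000000, nat_lit 6250000000, nat_lit 7968000000], [], [nat_lit 17500654475, nat_lit 19033149766, nat_lit 22535678028, nat_lit 23710535912, nat_lit 13357179512, nat_lit 14345538138, nat_lit 17111674584, nat_lit 17894660928], nat_lit 0, nat_lit 0, nat_lit 0, nat_lit 0, nat_lit 0, nat_lit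 0, [], [nat_lit 18, nat_lit 40, nat_lit 40, nat_lit 80, nat_lit 2, nat_lit 317, nat_lit 100, nat_lit 10]⟩,
 zbF0, [⟨nat_lit 0, nat_lit 90, nat_lit 74, nat_lit 100, nat_lit 446408707⟩, ⟨nat_lit 4, nat_lit 100, nat_lit 76, nat_lit 72, nat_lit 503742868⟩]⟩
noncomputable def p089_l111 : Lf2 := ⟨nat_lit 0, nat_lit 10, [nat_lit 0, nat_lit 5, nat_lit 5, nat_lit 20], false, nat_lit 160, nat_lit 232, nat_lit 0, nat_lit 160, ⟨nat_lit 1000, nat_lit 0, nat_lit 0, nat_lit 0, nat_lit 0, nat_lit 0, nat_lit 0, nat_lit 0, nat_lit 0, nat_lit 0, nat_lit 0, nat_lit 0, nat_lit 0, nat_lit 0, nat_lit 0, nat_lit 0, false, false⟩,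
 nat_lit 0, nat_lit 7076, nat_lit 0, nat_lit 0, nat_lit 5727, nat_lit 7799, nat_lit 860, nat_lit 0, nat_lit 0, nat_lit 1463, nat_lit 0, nat_lit 0, nat_lit 0, nat_lit 0, nat_lit 0, nat_lit 0, nat_lit 0, nat_lit 0, [],
 ⟨p089_k24, nat_lit 0, nat_lit 0, nat_lit 569, nat_lit 0, nat_lit 1285347, [nat_lit 2032000001, nat_lit 4688000000, nat_lit 6250000000], [], [nat_lit 19480012412, nat_lit 20465492448, nat_lit 21522287940, nat_lit 23407458220, nat_lit 20913857724, nat_lit 22944244500, nat_lit 23652832526, nat_lit 25288681251], nat_lit 1271250, nat_lit 1271250, nat_lit 810650, nat_lit 1764750, nat_lit 1100001, nat_lit 1716500, [nat_lit 490000, nat_lit 1100000, nat_lit 1442500], [nat_lit 6, nat_lit 40, nat_lit 40, nat_lit 80, nat_lit 3, nat_lit 345, nat_lit 125, nat_lit 12]⟩, ⟨p089_k21, nat_lit 0, nat_lit 0, nat_lit 168, nat_lit 0, nat_lit 0, [nat_lit 3282000000, nat_lit 6250000000, nat_lit 9842000000], [], [nat_lit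 19224651506, nat_lit 21215254764, nat_lit 23444087308, nat_lit 25380718102, nat_lit 14476869725, nat_lit 16526280949, nat_lit 18494410320, nat_lit 20106104182], nat_lit 0, nat_lit 0, nat_lit 0, nat_lit 0, nat_lit 0, nat_lit 0, [], [nat_lit 8, nat_lit 40, nat_lit 40, nat_lit 80, nat_lit 1, nat_lit 317, nat_lit 100, nat_lit 9]⟩,
 zbF0, [⟨nat_lit 0, nat_lit 92, nat_lit 68, nat_lit 100, nat_lit 270764049⟩, ⟨nat_lit 4, nat_lit 100, nat_lit 66, nat_lit 72, nat_lit 789543175⟩]⟩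
noncomputable def p089_l112 : Lf2 := ⟨nat_lit 0, nat_lit 10, [nat_lit 0, nat_lit 5, nat_lit 5, nat_lit 20], false, nat_lit 160, nat_lit 260, nat_lit 0, nat_lit 160, ⟨nat_lit 1000, nat_lit 0, nat_lit 0, nat_lit 0, nat_lit 0, nat_lit 0, nat_lit 0, nat_lit 0, nat_lit 0, nat_lit 0, nat_lit 0, nat_lit 0, nat_lit 0, nat_lit 0, nat_lit 0, nat_lit 0, false, false⟩,
 nat_lit 0, nat_lit 8876, nat_lit 0, nat_lit 0, nat_lit 6657, nat_lit 5991, nat_lit 475, nat_lit 0, nat_lit 0, nat_lit 2696, nat_lit 0, nat_lit 0, nat_lit 0, nat_lit 0, nat_lit 0, nat_lit 0, nat_lit 0, nat_lit 0, [],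
 ⟨p089_k20, nat_lit 0, nat_lit 0, nat_lit 593, nat_lit 0, nat_lit 1336626, [nat_lit 2032000001, nat_lit 4688000000, nat_lit 6250000000], [], [nat_lit 27992772640, nat_lit 28389505708, nat_lit 28000174008, nat_lit 28400138330, nat_lit 29445126432, nat_lit 29796608169, nat_lit 29358803621, nat_lit 29689252225], nat_lit 1271250, nat_lit 1271250, nat_lit 780000, nat_lit 1100001, nat_lit 1100001, nat_lit 1956250, [nat_lit 490000, nat_lit 1100000, nat_lit 1442500], [nat_lit 6, nat_lit 40, nat_lit 40, nat_lit 80, nat_lit 3, nat_lit 345, nat_lit 125, nat_lit 12]⟩, ⟨p089_k23, nat_lit 0, nat_lit 0, nat_lit 145, nat_lit 0, nat_lit 0, [nat_lit 3282000000, nat_lit 6250000000, nat_lit 7968000000], [], [nat_lit 17566859862, nat_lit 20251704060, nat_lit 18241705320, nat_lit 20758714648, nat_lit 13892519872, nat_lit 15711046348, nat_lit 14693526024, nat_lit 16365356608], nat_lit 0, nat_lit 0, nat_lit 0, nat_lit 0, nat_lit 0, nat_lit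 0, [], [nat_lit 18, nat_lit 40, nat_lit 40, nat_lit 80, nat_lit 2, nat_lit 317, nat_lit 100, nat_lit 10]⟩,
 zbF0, [⟨nat_lit 0, nat_lit 82, nat_lit 78, nat_lit 100, nat_lit 691325462⟩, ⟨nat_lit 4, nat_lit 100, nat_lit 79, nat_lit 72, nat_lit 488407922⟩]⟩
noncomputable def p089_l113 : Lf2 := ⟨nat_lit 0, nat_lit 10, [nat_lit 0, nat_lit 5, nat_lit 5, nat_lit 20], false, nat_lit 160, nat_lit 260, nat_lit 0, nat_lit 160, ⟨nat_lit 1000, nat_lit 0, nat_lit 0, nat_lit 0, nat_lit 0, nat_lit 0, nat_lit 0, nat_lit 0, nat_lit 0, nat_lit 0, nat_lit 0, nat_lit 0, nat_lit 0, nat_lit 0, nat_lit 0, nat_lit 0, false, false⟩,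
 nat_lit 0, nat_lit 8784, nat_lit 0, nat_lit 0, nat_lit 6588, nat_lit 5991, nat_lit 469, nat_lit 0, nat_lit 0, nat_lit 2501, nat_lit 0, nat_lit 0, nat_lit 0, nat_lit 0, nat_lit 0, nat_lit 0, nat_lit 0, nat_lit 0, [],
 ⟨p089_k20, nat_lit 0, nat_lit 0, nat_lit 574, nat_lit 0, nat_lit 1336626, [nat_lit 2032000001, nat_lit 4688000000, nat_lit 6250000000], [], [nat_lit 28406203282, nat_lit 28749017412, nat_lit 29272015520, nat_lit 29615801048, nat_lit 29713915364, nat_lit 30043123900, nat_lit 30297314676, nat_lit 30580705314], nat_lit 1271250, nat_lit 1271250, nat_lit 1100001, nat_lit 1785000, nat_lit 1100001, nat_lit 1956250, [nat_lit 490000, nat_lit 1100000, nat_lit 1442500], [nat_lit 6, nat_lit 40, nat_lit 40, nat_lit 80, nat_lit 3, nat_lit 345, nat_lit 125, nat_lit 12]⟩, ⟨p089_k23, nat_lit 0, nat_lit 0, nat_lit 142, nat_lit 0, nat_lit 0, [nat_lit 3282000000, nat_lit 6250000000, nat_lit 7968000000], [], [nat_lit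 18241705320, nat_lit 20758714648, nat_lit 22295868662, nat_lit 24399211680, nat_lit 14845014965, nat_lit 16365356608, nat_lit 17900839428, nat_lit 19682678780], nat_lit 0, nat_lit 0, nat_lit 0, nat_lit 0, nat_lit 0, nat_lit 0, [], [nat_lit 18, nat_lit 40, nat_lit 40, nat_lit 80, nat_lit 2, nat_lit 317, nat_lit 100, nat_lit 10]⟩,
 zbF0, [⟨nat_lit 4, nat_lit 100, nat_lit 79, nat_lit 72, nat_lit 482826128⟩]⟩
noncomputable def p089_l114 : Lf2 := ⟨nat_lit 0, nat_lit 10, [nat_lit 0, nat_lit 5, nat_lit 5, nat_lit 20], false, nat_lit 160, nat_lit 244, nat_lit 0, nat_lit 160, ⟨nat_lit 1000, nat_lit 0, nat_lit 0, nat_lit 0, nat_lit 0, nat_lit 0, nat_lit 0, nat_lit 0, nat_lit 0, nat_lit 0, nat_lit 0, nat_lit 0, nat_lit 0, nat_lit 0, nat_lit 0, nat_lit 0, false, false⟩,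
 nat_lit 0, nat_lit 7734, nat_lit 0, nat_lit 0, nat_lit 6028, nat_lit 7099, nat_lit 1553, nat_lit 0, nat_lit 0, nat_lit 1136, nat_lit 0, nat_lit 0, nat_lit 0, nat_lit 0, nat_lit 0, nat_lit 0, nat_lit 0, nat_lit 0, [],
 ⟨p089_k27, nat_lit 0, nat_lit 0, nat_lit 594, nat_lit 0, nat_lit 1344089, [nat_lit 2032000001, nat_lit 4688000000, nat_lit 6250000000], [], [nat_lit 19653980891, nat_lit 20051821293, nat_lit 20764047849, nat_lit 21634928160, nat_lit 20814815564, nat_lit 21682118344, nat_lit 23400072525, nat_lit 24220819928], nat_lit 1271250, nat_lit 1271250, nat_lit 872850, nat_lit 1769250, nat_lit 1100001, nat_lit 1819250, [nat_lit 490000, nat_lit 1100000, nat_lit 1442500], [nat_lit 6, nat_lit 40, nat_lit 40, nat_lit 80, nat_lit 3, nat_lit 345, nat_lit 125, nat_lit 12]⟩, ⟨p089_k23, nat_lit 0, nat_lit 0, nat_lit 142, nat_lit 0, nat_lit 0, [nat_lit 3282000000, nat_lit 6250000000, nat_lit 7968000000], [], [nat_lit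 19827260255, nat_lit 21903640800, nat_lit 23689158718, nat_lit 26035151520, nat_lit 15484734630, nat_lit 17214863458, nat_lit 18680401582, nat_lit 20203518844], nat_lit 0, nat_lit 0, nat_lit 0, nat_lit 0, nat_lit 0, nat_lit 0, [], [nat_lit 18, nat_lit 40, nat_lit 40, nat_lit 80, nat_lit 2, nat_lit 317, nat_lit 100, nat_lit 10]⟩,
 zbF0, [⟨nat_lit 0, nat_lit 81, nat_lit 72, nat_lit 100, nat_lit 357694403⟩, ⟨nat_lit 4, nat_lit 100, nat_lit 74, nat_lit 72, nat_lit 675489576⟩]⟩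
noncomputable def p089_l115 : Lf2 := ⟨nat_lit 0, nat_lit 10, [nat_lit 0, nat_lit 5, nat_lit 5, nat_lit 20], false, nat_lit 160, nat_lit 232, nat_lit 0, nat_lit 160, ⟨nat_lit 1000, nat_lit 0, nat_lit 0, nat_lit 0, nat_lit 0, nat_lit 0, nat_lit 0, nat_lit 0, nat_lit 0, nat_lit 0, nat_lit 0, nat_lit 0, nat_lit 0, nat_lit 0, nat_lit 0, nat_lit 0, false, false⟩,
 nat_lit 0, nat_lit 6807, nat_lit 0, nat_lit 0, nat_lit 5510, nat_lit 7087, nat_lit 1167, nat_lit 0, nat_lit 0, nat_lit 1136, nat_lit 0, nat_lit 0, nat_lit 0, nat_lit 0, nat_lit 0, nat_lit 0, nat_lit 0, nat_lit 0, [],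
 ⟨p089_k24, nat_lit 0, nat_lit 0, nat_lit 630, nat_lit 0, nat_lit 1428878, [nat_lit 2032000001, nat_lit 4688000000, nat_lit 6250000000], [], [nat_lit 20959880771, nat_lit 21793110609, nat_lit 22412988751, nat_lit 23282496600, nat_lit 22139439671, nat_lit 23014574676, nat_lit 23563383955, nat_lit 25163064204], nat_lit 1271250, nat_lit 1271250, nat_lit 968401, nat_lit 1776000, nat_lit 1100001, nat_lit 1716500, [nat_lit 490000, nat_lit 1100000, nat_lit 1442500], [nat_lit 6, nat_lit 40, nat_lit 40, nat_lit 80, nat_lit 3, nat_lit 345, nat_lit 125, nat_lit 12]⟩, ⟨p089_k23, nat_lit 0, nat_lit 0, nat_lit 142, nat_lit 0, nat_lit 0, [nat_lit 3282000000, nat_lit 6250000000, nat_lit 7968000000], [], [nat_lit 19965620363, nat_lit 22007694810, nat_lit 23674068934, nat_lit 26017433760, nat_lit 15629346141, nat_lit 17323264618, nat_lit 18693022966, nat_lit 20214621772], nat_lit 0, nat_lit 0, nat_lit 0, nat_lit 0, nat_lit 0, nat_lit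 0, [], [nat_lit 18, nat_lit 40, nat_lit 40, nat_lit 80, nat_lit 2, nat_lit 317, nat_lit 100, nat_lit 10]⟩,
 zbF0, [⟨nat_lit 0, nat_lit 84, nat_lit 67, nat_lit 100, nat_lit 329557383⟩, ⟨nat_lit 4, nat_lit 100, nat_lit 66, nat_lit 72, nat_lit 702115176⟩]⟩
noncomputable def b_V_800_700_10_5 : St := ⟨true, nat_lit 1, nat_lit 0, nat_lit 1, nat_lit 80, nat_lit 320, nat_lit 360, nat_lit 280, nat_lit 320, nat_lit 100, nat_lit 240, nat_lit 40, nat_lit 80, nat_lit 0, nat_lit 260, nat_lit 0, nat_lit 160, nat_lit 0, nat_lit 40, nat_lit 0, nat_lit 0, nat_lit 0, nat_lit 0⟩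
theorem d_V_800_700_10_5 (h : EB TB.env) : Dead b_V_800_700_10_5 := chkB_sound0 h (T :=
(.spl (nat_lit 4) (nat_lit 160)
(.spl (nat_lit 0) (nat_lit 340)
(.spl (nat_lit 1) (nat_lit 300)
(.spl (nat_lit 1) (nat_lit 290)
(.leaf p089_l103)
(.trZ (nat_lit 0) (nat_lit 100) (nat_lit 89) (nat_lit 100) (nat_lit 108) (.leaf p089_l104)))
(.trZ (nat_lit 0) (nat_lit 94) (nat_lit 87) (nat_lit 100) (nat_lit 120) (.spl (nat_lit 0) (nat_lit 330)
(.spl (nat_lit 2) (nat_lit 160)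
(.leaf p089_l105)
(.leaf p089_l106))
(.trZ (nat_lit 0) (nat_lit 92) (nat_lit 81) (nat_lit 100) (nat_lit 132) (.leaf p089_l107)))))
(.trZ (nat_lit 0) (nat_lit 99) (nat_lit 77) (nat_lit 100) (nat_lit 124) (.leaf p089_l108)))
(.spl (nat_lit 1) (nat_lit 300)
(.spl (nat_lit 0) (nat_lit 340)
(.spl (nat_lit 1) (nat_lit 290)
(.leaf p089_l109)
(.trZ (nat_lit 0) (nat_lit 100) (nat_lit 89) (nat_lit 100) (nat_lit 108) (.leaf p089_l110)))
(.trZ (nat_lit 0) (nat_lit 99) (nat_lit 77) (nat_lit 100) (nat_lit 124) (.trX (nat_lit 16) (nat_lit 72) (nat_lit 100) (nat_lit 81) (nat_lit 232) (.leaf p089_l111))))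
(.trZ (nat_lit 0) (nat_lit 94) (nat_lit 87) (nat_lit 100) (nat_lit 120) (.spl (nat_lit 0) (nat_lit 340)
(.spl (nat_lit 0) (nat_lit 330)
(.spl (nat_lit 2) (nat_lit 160)
(.leaf p089_l112)
(.leaf p089_l113))
(.trZ (nat_lit 0) (nat_lit 92) (nat_lit 81) (nat_lit 100) (nat_lit 132) (.trX (nat_lit 16) (nat_lit 78) (nat_lit 100) (nat_lit 82) (nat_lit 244) (.leaf p089_l114))))
(.trZ (nat_lit 0) (nat_lit 90) (nat_lit 74) (nat_lit 100) (nat_lit 144) (.trX (nat_lit 16) (nat_lit 72) (nat_lit 100) (nat_lit 81) (nat_lit 232) (.leaf p089_l115)))))))) (by decide +kernel)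
noncomputable def p089_l116 : Lf2 := ⟨nat_lit 0, nat_lit 5, [nat_lit 4, nat_lit 5, nat_lit 5, nat_lit 20], false, nat_lit 0, nat_lit 80, nat_lit 160, nat_lit 276, ⟨nat_lit 1000, nat_lit 0, nat_lit 0, nat_lit 0, nat_lit 0, nat_lit 0, nat_lit 0, nat_lit 0, nat_lit 0, nat_lit 0, nat_lit 0, nat_lit 0, nat_lit 0, nat_lit 0, nat_lit 0, nat_lit 0, false, false⟩,
 nat_lit 0, nat_lit 11053, nat_lit 0, nat_lit 0, nat_lit 8289, nat_lit 5591, nat_lit 472, nat_lit 0, nat_lit 0, nat_lit 0, nat_lit 0, nat_lit 0, nat_lit 0, nat_lit 0, nat_lit 0, nat_lit 0, nat_lit 0, nat_lit 0, [],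
 ⟨p089_k39, nat_lit 0, nat_lit 0, nat_lit 640, nat_lit 0, nat_lit 1222783, [nat_lit 2032000001, nat_lit 4688000000, nat_lit 6250000000], [], [nat_lit 24769477830, nat_lit 25011609625, nat_lit 24417759416, nat_lit 24639239913, nat_lit 21925978068, nat_lit 22150474541, nat_lit 21552213120, nat_lit 21756425637], nat_lit 1271250, nat_lit 1271250, nat_lit 631250, nat_lit 1100001, nat_lit 0, nat_lit 490000, [nat_lit 490000, nat_lit 1100000, nat_lit 1442500], [nat_lit 6, nat_lit 40, nat_lit 40, nat_lit 80, nat_lit 3, nat_lit 272, nat_lit 60, nat_lit 10]⟩, ⟨p089_k40, nat_lit 0, nat_lit 0, nat_lit 51, nat_lit 0, nat_lit 0, [nat_lit 3282000000, nat_lit 6250000000, nat_lit 7968000000], [], [nat_lit 11648733714, nat_lit 15761258826, nat_lit 12737650308, nat_lit 16361529888, nat_lit 18388873954, nat_lit 21777777810, nat_lit 18790043494, nat_lit 21893861512], nat_lit 0, nat_lit 0, nat_lit 0, nat_lit 0, nat_lit 0, nat_lit 0,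 [], [nat_lit 18, nat_lit 40, nat_lit 40, nat_lit 80, nat_lit 2, nat_lit 345, nat_lit 125, nat_lit 11]⟩,
 zbF0, [⟨nat_lit 0, nat_lit 94, nat_lit 85, nat_lit 100, nat_lit 466209560⟩, ⟨nat_lit 0, nat_lit 83, nat_lit 81, nat_lit 100, nat_lit 245826825⟩, ⟨nat_lit 7, nat_lit 100, nat_lit 88, nat_lit 67, nat_lit 767122807⟩]⟩
noncomputable def p089_l117 : Lf2 := ⟨nat_lit 0, nat_lit 5, [nat_lit 4, nat_lit 5, nat_lit 5, nat_lit 20], false, nat_lit 0, nat_lit 80, nat_lit 160, nat_lit 276, ⟨nat_lit 1000, nat_lit 0, nat_lit 0, nat_lit 0, nat_lit 0, nat_lit 0, nat_lit 0, nat_lit 0, nat_lit 0, nat_lit 0, nat_lit 0, nat_lit 0, nat_lit 0, nat_lit 0, nat_lit 0, nat_lit 0, false, false⟩,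
 nat_lit 0, nat_lit 7860, nat_lit 0, nat_lit 0, nat_lit 6010, nat_lit 6067, nat_lit 3034, nat_lit 0, nat_lit 0, nat_lit 0, nat_lit 0, nat_lit 0, nat_lit 0, nat_lit 0, nat_lit 0, nat_lit 0, nat_lit 0, nat_lit 0, [],
 ⟨p089_k41, nat_lit 0, nat_lit 0, nat_lit 562, nat_lit 0, nat_lit 1226900, [nat_lit 2032000001, nat_lit 4688000000], [], [nat_lit 21287462794, nat_lit 22027484731, nat_lit 21522405510, nat_lit 22143852360, nat_lit 19768523812, nat_lit 19998743067, nat_lit 20000361315, nat_lit 20213046825], nat_lit 1271250, nat_lit 1271250, nat_lit 660400, nat_lit 1100001, nat_lit 0, nat_lit 490000, [nat_lit 490000, nat_lit 1100000], [nat_lit 24, nat_lit 40, nat_lit 40, nat_lit 80, nat_lit 33, nat_lit 272, nat_lit 60, nat_lit 12]⟩, ⟨p089_k40, nat_lit 0, nat_lit 0, nat_lit 50, nat_lit 0, nat_lit 0, [nat_lit 3282000000, nat_lit 6250000000, nat_lit 7968000000], [], [nat_lit 11144759070, nat_lit 15817089025, nat_lit 12086190996,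 nat_lit 16364090480, nat_lit 18474454914, nat_lit 22011987297, nat_lit 18820999678, nat_lit 22072469850], nat_lit 0, nat_lit 0, nat_lit 0, nat_lit 0, nat_lit 0, nat_lit 0, [], [nat_lit 18, nat_lit 40, nat_lit 40, nat_lit 80, nat_lit 2, nat_lit 345, nat_lit 125, nat_lit 11]⟩,
 zbF0, [⟨nat_lit 0, nat_lit 100, nat_lit 85, nat_lit 97, nat_lit 513220640⟩, ⟨nat_lit 7, nat_lit 100, nat_lit 88, nat_lit 67, nat_lit 898461698⟩]⟩
noncomputable def p089_l118 : Lf2 := ⟨nat_lit 0, nat_lit 5, [nat_lit 4, nat_lit 5, nat_lit 5, nat_lit 20], false, nat_lit 80, nat_lit 160, nat_lit 160, nat_lit 276, ⟨nat_lit 1000, nat_lit 0, nat_lit 0, nat_lit 0, nat_lit 0, nat_lit 0, nat_lit 0, nat_lit 0, nat_lit 0, nat_lit 0, nat_lit 0, nat_lit 0, nat_lit 0, nat_lit 0, nat_lit 0, nat_lit 0, false, false⟩,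
 nat_lit 0, nat_lit 11795, nat_lit 0, nat_lit 0, nat_lit 8846, nat_lit 5591, nat_lit 467, nat_lit 0, nat_lit 0, nat_lit 0, nat_lit 0, nat_lit 0, nat_lit 0, nat_lit 0, nat_lit 0, nat_lit 0, nat_lit 0, nat_lit 0, [],
 ⟨p089_k39, nat_lit 0, nat_lit 0, nat_lit 576, nat_lit 0, nat_lit 1222783, [nat_lit 2032000001, nat_lit 4688000000, nat_lit 6250000000], [], [nat_lit 18077934792, nat_lit 18342337524, nat_lit 17660765320, nat_lit 17901039132, nat_lit 17350976912, nat_lit 17602897590, nat_lit 16907075024, nat_lit 17135892882], nat_lit 1271250, nat_lit 1271250, nat_lit 631250, nat_lit 1100001, nat_lit 490000, nat_lit 1100001, [nat_lit 490000, nat_lit 1100000, nat_lit 1442500], [nat_lit 6, nat_lit 40, nat_lit 40, nat_lit 80, nat_lit 3, nat_lit 317, nat_lit 100, nat_lit 12]⟩, ⟨p089_k40, nat_lit 0, nat_lit 0, nat_lit 51, nat_lit 0, nat_lit 0, [nat_lit 3282000000, nat_lit 6250000000, nat_lit 7968000000], [], [nat_lit 11648733714,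 nat_lit 15761258826, nat_lit 12737650308, nat_lit 16361529888, nat_lit 18388873954, nat_lit 21777777810, nat_lit 18790043494, nat_lit 21893861512], nat_lit 0, nat_lit 0, nat_lit 0, nat_lit 0, nat_lit 0, nat_lit 0, [], [nat_lit 18, nat_lit 40, nat_lit 40, nat_lit 80, nat_lit 2, nat_lit 345, nat_lit 125, nat_lit 11]⟩,
 zbF0, [⟨nat_lit 0, nat_lit 83, nat_lit 81, nat_lit 100, nat_lit 811622790⟩, ⟨nat_lit 7, nat_lit 100, nat_lit 88, nat_lit 67, nat_lit 767122807⟩]⟩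
noncomputable def p089_l119 : Lf2 := ⟨nat_lit 0, nat_lit 5, [nat_lit 4, nat_lit 5, nat_lit 5, nat_lit 20], false, nat_lit 80, nat_lit 160, nat_lit 160, nat_lit 276, ⟨nat_lit 1000, nat_lit 0, nat_lit 0, nat_lit 0, nat_lit 0, nat_lit 0, nat_lit 0, nat_lit 0, nat_lit 0, nat_lit 0, nat_lit 0, nat_lit 0, nat_lit 0, nat_lit 0, nat_lit 0, nat_lit 0, false, false⟩,
 nat_lit 0, nat_lit 8344, nat_lit 0, nat_lit 0, nat_lit 6380, nat_lit 6067, nat_lit 3241, nat_lit 0, nat_lit 0, nat_lit 0, nat_lit 0, nat_lit 0, nat_lit 0, nat_lit 0, nat_lit 0, nat_lit 0, nat_lit 0, nat_lit 0, [],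
 ⟨p089_k41, nat_lit 0, nat_lit 0, nat_lit 502, nat_lit 0, nat_lit 1226900, [nat_lit 2032000001, nat_lit 4688000000], [], [nat_lit 16801559233, nat_lit 17057715676, nat_lit 17026352694, nat_lit 17392584240, nat_lit 16941705324, nat_lit 17170725908, nat_lit 17057126674, nat_lit 17558058040], nat_lit 1271250, nat_lit 1271250, nat_lit 660400, nat_lit 1100001, nat_lit 490000, nat_lit 1100001, [nat_lit 490000, nat_lit 1100000], [nat_lit 24, nat_lit 40, nat_lit 40, nat_lit 80, nat_lit 33, nat_lit 317, nat_lit 100, nat_lit 14]⟩, ⟨p089_k40, nat_lit 0, nat_lit 0, nat_lit 50, nat_lit 0, nat_lit 0, [nat_lit 3282000000, nat_lit 6250000000, nat_lit 7968000000], [], [nat_lit 11144759070, nat_lit 15817089025, nat_lit 12086190996, nat_lit 16364090480, nat_lit 18474454914, nat_lit 22011987297, nat_lit 18820999678, nat_lit 22072469850], nat_lit 0, nat_lit 0, nat_lit 0, nat_lit 0, nat_lit 0, nat_lit 0, [], [nat_lit 18, nat_lit 40,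 nat_lit 40, nat_lit 80, nat_lit 2, nat_lit 345, nat_lit 125, nat_lit 11]⟩,
 zbF0, [⟨nat_lit 0, nat_lit 100, nat_lit 85, nat_lit 97, nat_lit 494335415⟩, ⟨nat_lit 7, nat_lit 100, nat_lit 88, nat_lit 67, nat_lit 898461698⟩]⟩
noncomputable def p089_l120 : Lf2 := ⟨nat_lit 0, nat_lit 10, [nat_lit 0, nat_lit 5, nat_lit 5, nat_lit 20], false, nat_lit 0, nat_lit 160, nat_lit 160, nat_lit 276, ⟨nat_lit 1000, nat_lit 0, nat_lit 0, nat_lit 0, nat_lit 0, nat_lit 0, nat_lit 0, nat_lit 0, nat_lit 0, nat_lit 0, nat_lit 0, nat_lit 0, nat_lit 0, nat_lit 0, nat_lit 0, nat_lit 0, false, false⟩,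
 nat_lit 0, nat_lit 10930, nat_lit 0, nat_lit 0, nat_lit 8197, nat_lit 5591, nat_lit 444, nat_lit 0, nat_lit 0, nat_lit 0, nat_lit 0, nat_lit 0, nat_lit 0, nat_lit 0, nat_lit 0, nat_lit 0, nat_lit 0, nat_lit 0, [],
 ⟨p089_k20, nat_lit 0, nat_lit 0, nat_lit 542, nat_lit 0, nat_lit 1002462, [nat_lit 2032000001, nat_lit 4688000000, nat_lit 6250000000], [], [nat_lit 24423038402, nat_lit 25789784922, nat_lit 24036541996, nat_lit 25289930592, nat_lit 20690665320, nat_lit 21107728780, nat_lit 20227841420, nat_lit 20636679803], nat_lit 1271250, nat_lit 1271250, nat_lit 631250, nat_lit 1100001, nat_lit 0, nat_lit 1100001, [nat_lit 490000, nat_lit 1100000, nat_lit 1442500], [nat_lit 6, nat_lit 40, nat_lit 40, nat_lit 80, nat_lit 3, nat_lit 317, nat_lit 100, nat_lit 12]⟩, ⟨p089_k21, nat_lit 0, nat_lit 0, nat_lit 51, nat_lit 0, nat_lit 0, [nat_lit 3282000000, nat_lit 6250000000, nat_lit 9842000000], [], [nat_lit 11648733714,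 nat_lit 15761258826, nat_lit 12737650308, nat_lit 16361529888, nat_lit 18388873954, nat_lit 21777777810, nat_lit 18790043494, nat_lit 21893861512], nat_lit 0, nat_lit 0, nat_lit 0, nat_lit 0, nat_lit 0, nat_lit 0, [], [nat_lit 8, nat_lit 40, nat_lit 40, nat_lit 80, nat_lit 1, nat_lit 345, nat_lit 125, nat_lit 9]⟩,
 zbF0, [⟨nat_lit 0, nat_lit 93, nat_lit 84, nat_lit 100, nat_lit 638096231⟩, ⟨nat_lit 0, nat_lit 82, nat_lit 78, nat_lit 100, nat_lit 69092478⟩, ⟨nat_lit 7, nat_lit 100, nat_lit 88, nat_lit 67, nat_lit 767122807⟩]⟩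
noncomputable def p089_l121 : Lf2 := ⟨nat_lit 0, nat_lit 5, [nat_lit 4, nat_lit 5, nat_lit 5, nat_lit 20], false, nat_lit 0, nat_lit 160, nat_lit 160, nat_lit 276, ⟨nat_lit 1000, nat_lit 0, nat_lit 0, nat_lit 0, nat_lit 0, nat_lit 0, nat_lit 0, nat_lit 0, nat_lit 0, nat_lit 0, nat_lit 0, nat_lit 0, nat_lit 0, nat_lit 0, nat_lit 0, nat_lit 0, false, false⟩,
 nat_lit 0, nat_lit 11256, nat_lit 0, nat_lit 0, nat_lit 8442, nat_lit 5591, nat_lit 409, nat_lit 0, nat_lit 0, nat_lit 0, nat_lit 0, nat_lit 0, nat_lit 0, nat_lit 0, nat_lit 0, nat_lit 0, nat_lit 0, nat_lit 0, [],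
 ⟨p089_k39, nat_lit 0, nat_lit 0, nat_lit 619, nat_lit 0, nat_lit 1222783, [nat_lit 2032000001, nat_lit 4688000000, nat_lit 6250000000], [], [nat_lit 23910524176, nat_lit 24776448044, nat_lit 28018064160, nat_lit 28741675157, nat_lit 19922443176, nat_lit 20090651926, nat_lit 20352742648, nat_lit 20713828080], nat_lit 1271250, nat_lit 1271250, nat_lit 1100001, nat_lit 1785000, nat_lit 0, nat_lit 1100001, [nat_lit 490000, nat_lit 1100000, nat_lit 1442500], [nat_lit 6, nat_lit 40, nat_lit 40, nat_lit 80, nat_lit 3, nat_lit 317, nat_lit 100, nat_lit 12]⟩, ⟨p089_k40, nat_lit 0, nat_lit 0, nat_lit 34, nat_lit 0, nat_lit 0, [nat_lit 3282000000, nat_lit 6250000000, nat_lit 7968000000], [], [nat_lit 12737650308, nat_lit 16361529888, nat_lit 16334922064, nat_lit 19613646780, nat_lit 18790043494, nat_lit 21893861512, nat_lit 21544128025, nat_lit 24174035476], nat_lit 0, nat_lit 0, nat_lit 0, nat_lit 0, nat_lit 0, nat_lit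 0, [], [nat_lit 18, nat_lit 40, nat_lit 40, nat_lit 80, nat_lit 2, nat_lit 373, nat_lit 150, nat_lit 11]⟩,
 zbF0, [⟨nat_lit 7, nat_lit 100, nat_lit 88, nat_lit 67, nat_lit 767122807⟩]⟩
noncomputable def p089_l122 : Lf2 := ⟨nat_lit 0, nat_lit 5, [nat_lit 4, nat_lit 5, nat_lit 5, nat_lit 20], false, nat_lit 0, nat_lit 160, nat_lit 160, nat_lit 276, ⟨nat_lit 1000, nat_lit 0, nat_lit 0, nat_lit 0, nat_lit 0, nat_lit 0, nat_lit 0, nat_lit 0, nat_lit 0, nat_lit 0, nat_lit 0, nat_lit 0, nat_lit 0, nat_lit 0, nat_lit 0, nat_lit 0, false, false⟩,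
 nat_lit 0, nat_lit 8278, nat_lit 0, nat_lit 0, nat_lit 6330, nat_lit 5591, nat_lit 3214, nat_lit 0, nat_lit 0, nat_lit 0, nat_lit 0, nat_lit 0, nat_lit 0, nat_lit 0, nat_lit 0, nat_lit 0, nat_lit 0, nat_lit 0, [],
 ⟨p089_k41, nat_lit 0, nat_lit 0, nat_lit 539, nat_lit 0, nat_lit 1226900, [nat_lit 2032000001, nat_lit 4688000000], [], [nat_lit 21899414060, nat_lit 22604183880, nat_lit 25492978805, nat_lit 26086219210, nat_lit 17723973395, nat_lit 17918906665, nat_lit 20242873200, nat_lit 20744563000], nat_lit 1271250, nat_lit 1271250, nat_lit 1100001, nat_lit 1785000, nat_lit 0, nat_lit 1100001, [nat_lit 490000, nat_lit 1100000], [nat_lit 24, nat_lit 40, nat_lit 40, nat_lit 80, nat_lit 33, nat_lit 249, nat_lit 40, nat_lit 11]⟩, ⟨p089_k40, nat_lit 0, nat_lit 0, nat_lit 34, nat_lit 0, nat_lit 0, [nat_lit 3282000000, nat_lit 6250000000, nat_lit 7968000000], [], [nat_lit 12737650308, nat_lit 16361529888, nat_lit 16334922064,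 nat_lit 19613646780, nat_lit 18790043494, nat_lit 21893861512, nat_lit 21544128025, nat_lit 24174035476], nat_lit 0, nat_lit 0, nat_lit 0, nat_lit 0, nat_lit 0, nat_lit 0, [], [nat_lit 18, nat_lit 40, nat_lit 40, nat_lit 80, nat_lit 2, nat_lit 373, nat_lit 150, nat_lit 11]⟩,
 zbF0, [⟨nat_lit 7, nat_lit 100, nat_lit 88, nat_lit 67, nat_lit 767122807⟩]⟩
noncomputable def p089_l123 : Lf2 := ⟨nat_lit 0, nat_lit 10, [nat_lit 0, nat_lit 5, nat_lit 5, nat_lit 20], false, nat_lit 0, nat_lit 160, nat_lit 160, nat_lit 276, ⟨nat_lit 1000, nat_lit 0, nat_lit 0, nat_lit 0, nat_lit 0, nat_lit 0, nat_lit 0, nat_lit 0, nat_lit 0, nat_lit 0, nat_lit 0, nat_lit 0, nat_lit 0, nat_lit 0, nat_lit 0, nat_lit 0, false, false⟩,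
 nat_lit 0, nat_lit 10692, nat_lit 0, nat_lit 0, nat_lit 8019, nat_lit 5591, nat_lit 485, nat_lit 0, nat_lit 0, nat_lit 0, nat_lit 0, nat_lit 0, nat_lit 0, nat_lit 0, nat_lit 0, nat_lit 0, nat_lit 0, nat_lit 0, [],
 ⟨p089_k20, nat_lit 0, nat_lit 0, nat_lit 522, nat_lit 0, nat_lit 1002462, [nat_lit 2032000001, nat_lit 4688000000, nat_lit 6250000000], [], [nat_lit 24139547354, nat_lit 25033871184, nat_lit 27393513120, nat_lit 28788512803, nat_lit 19852830884, nat_lit 20346999720, nat_lit 20969919048, nat_lit 21424545566], nat_lit 1271250, nat_lit 1271250, nat_lit 1100001, nat_lit 1785000, nat_lit 0, nat_lit 1100001, [nat_lit 490000, nat_lit 1100000, nat_lit 1442500], [nat_lit 6, nat_lit 40, nat_lit 40, nat_lit 80, nat_lit 3, nat_lit 317, nat_lit 100, nat_lit 12]⟩, ⟨p089_k21, nat_lit 0, nat_lit 0, nat_lit 34, nat_lit 0, nat_lit 0, [nat_lit 3282000000, nat_lit 6250000000, nat_lit 9842000000], [], [nat_lit 12737650308,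 nat_lit 16361529888, nat_lit 16334922064, nat_lit 19613646780, nat_lit 18790043494, nat_lit 21893861512, nat_lit 21544128025, nat_lit 24174035476], nat_lit 0, nat_lit 0, nat_lit 0, nat_lit 0, nat_lit 0, nat_lit 0, [], [nat_lit 8, nat_lit 40, nat_lit 40, nat_lit 80, nat_lit 1, nat_lit 373, nat_lit 150, nat_lit 10]⟩,
 zbF0, [⟨nat_lit 7, nat_lit 100, nat_lit 88, nat_lit 67, nat_lit 767122807⟩]⟩
noncomputable def p089_l124 : Lf2 := ⟨nat_lit 0, nat_lit 10, [nat_lit 0, nat_lit 5, nat_lit 5, nat_lit 20], false, nat_lit 0, nat_lit 160, nat_lit 160, nat_lit 300, ⟨nat_lit 1000, nat_lit 0, nat_lit 0, nat_lit 0, nat_lit 0, nat_lit 0, nat_lit 0, nat_lit 0, nat_lit 0, nat_lit 0, nat_lit 0, nat_lit 0, nat_lit 0, nat_lit 0, nat_lit 0, nat_lit 0, false, false⟩,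
 nat_lit 0, nat_lit 11053, nat_lit 0, nat_lit 0, nat_lit 8289, nat_lit 5591, nat_lit 468, nat_lit 0, nat_lit 0, nat_lit 0, nat_lit 0, nat_lit 0, nat_lit 0, nat_lit 0, nat_lit 0, nat_lit 0, nat_lit 0, nat_lit 0, [],
 ⟨p089_k20, nat_lit 0, nat_lit 0, nat_lit 579, nat_lit 0, nat_lit 1102545, [nat_lit 2032000001, nat_lit 4688000000, nat_lit 6250000000], [], [nat_lit 24071006638, nat_lit 25007959117, nat_lit 23713777192, nat_lit 24568026548, nat_lit 20097477830, nat_lit 20323609625, nat_lit 19729759416, nat_lit 19951239913], nat_lit 1271250, nat_lit 1271250, nat_lit 631250, nat_lit 1100001, nat_lit 0, nat_lit 1100001, [nat_lit 490000, nat_lit 1100000, nat_lit 1442500], [nat_lit 6, nat_lit 40, nat_lit 40, nat_lit 80, nat_lit 3, nat_lit 317, nat_lit 100, nat_lit 12]⟩, ⟨p089_k21, nat_lit 0, nat_lit 0, nat_lit 62, nat_lit 0, nat_lit 0, [nat_lit 3282000000, nat_lit 6250000000, nat_lit 9842000000], [], [nat_lit 11648733714,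 nat_lit 15761258826, nat_lit 12737650308, nat_lit 16361529888, nat_lit 20280286177, nat_lit 23433010961, nat_lit 20521788706, nat_lit 23414004666], nat_lit 0, nat_lit 0, nat_lit 0, nat_lit 0, nat_lit 0, nat_lit 0, [], [nat_lit 8, nat_lit 40, nat_lit 40, nat_lit 80, nat_lit 1, nat_lit 345, nat_lit 125, nat_lit 9]⟩,
 zbF0, [⟨nat_lit 0, nat_lit 94, nat_lit 85, nat_lit 100, nat_lit 442848334⟩, ⟨nat_lit 0, nat_lit 83, nat_lit 81, nat_lit 100, nat_lit 290337657⟩, ⟨nat_lit 7, nat_lit 100, nat_lit 92, nat_lit 81, nat_lit 632785807⟩]⟩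
noncomputable def p089_l125 : Lf2 := ⟨nat_lit 0, nat_lit 10, [nat_lit 0, nat_lit 5, nat_lit 5, nat_lit 20], false, nat_lit 0, nat_lit 160, nat_lit 160, nat_lit 300, ⟨nat_lit 1000, nat_lit 0, nat_lit 0, nat_lit 0, nat_lit 0, nat_lit 0, nat_lit 0, nat_lit 0, nat_lit 0, nat_lit 0, nat_lit 0, nat_lit 0, nat_lit 0, nat_lit 0, nat_lit 0, nat_lit 0, false, false⟩,
 nat_lit 0, nat_lit 8615, nat_lit 0, nat_lit 0, nat_lit 6587, nat_lit 5210, nat_lit 2936, nat_lit 0, nat_lit 0, nat_lit 0, nat_lit 0, nat_lit 0, nat_lit 0, nat_lit 0, nat_lit 0, nat_lit 0, nat_lit 0, nat_lit 0, [],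
 ⟨p089_k42, nat_lit 0, nat_lit 0, nat_lit 585, nat_lit 0, nat_lit 1111069, [nat_lit 2032000001, nat_lit 4688000000, nat_lit 6250000000], [], [nat_lit 22195712320, nat_lit 22984389032, nat_lit 22249507684, nat_lit 22973887632, nat_lit 18116991621, nat_lit 18302546319, nat_lit 18013520810, nat_lit 18184431398], nat_lit 1271250, nat_lit 1271250, nat_lit 660400, nat_lit 1100001, nat_lit 0, nat_lit 1100001, [nat_lit 490000, nat_lit 1100000, nat_lit 1442500], [nat_lit 6, nat_lit 40, nat_lit 40, nat_lit 80, nat_lit 3, nat_lit 317, nat_lit 100, nat_lit 12]⟩, ⟨p089_k21, nat_lit 0, nat_lit 0, nat_lit 60, nat_lit 0, nat_lit 0, [nat_lit 3282000000, nat_lit 6250000000, nat_lit 9842000000], [], [nat_lit 12168533937, nat_lit 15958501744, nat_lit 13259091480, nat_lit 16734617280, nat_lit 20089417140, nat_lit 23106585302, nat_lit 20533270210, nat_lit 23219570460], nat_lit 0, nat_lit 0, nat_lit 0, nat_lit 0, nat_lit 0, nat_lit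 0, [], [nat_lit 8, nat_lit 40, nat_lit 40, nat_lit 80, nat_lit 1, nat_lit 345, nat_lit 125, nat_lit 9]⟩,
 zbF0, [⟨nat_lit 0, nat_lit 100, nat_lit 85, nat_lit 97, nat_lit 521088500⟩, ⟨nat_lit 7, nat_lit 100, nat_lit 92, nat_lit 81, nat_lit 674364636⟩]⟩
noncomputable def p089_l126 : Lf2 := ⟨nat_lit 0, nat_lit 10, [nat_lit 0, nat_lit 5, nat_lit 5, nat_lit 20], false, nat_lit 0, nat_lit 160, nat_lit 160, nat_lit 300, ⟨nat_lit 1000, nat_lit 0, nat_lit 0, nat_lit 0, nat_lit 0, nat_lit 0, nat_lit 0, nat_lit 0, nat_lit 0, nat_lit 0, nat_lit 0, nat_lit 0, nat_lit 0, nat_lit 0, nat_lit 0, nat_lit 0, false, false⟩,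
 nat_lit 0, nat_lit 10936, nat_lit 0, nat_lit 0, nat_lit 8202, nat_lit 5591, nat_lit 444, nat_lit 0, nat_lit 0, nat_lit 0, nat_lit 0, nat_lit 0, nat_lit 0, nat_lit 0, nat_lit 0, nat_lit 0, nat_lit 0, nat_lit 0, [],
 ⟨p089_k20, nat_lit 0, nat_lit 0, nat_lit 576, nat_lit 0, nat_lit 1141168, [nat_lit 2032000001, nat_lit 4688000000, nat_lit 6250000000], [], [nat_lit 24034287218, nat_lit 25297123272, nat_lit 27663708960, nat_lit 29081301274, nat_lit 20202205720, nat_lit 20611314380, nat_lit 20953524080, nat_lit 21329195792], nat_lit 1271250, nat_lit 1271250, nat_lit 1100001, nat_lit 1785000, nat_lit 0, nat_lit 1100001, [nat_lit 490000, nat_lit 1100000, nat_lit 1442500], [nat_lit 6, nat_lit 40, nat_lit 40, nat_lit 80, nat_lit 3, nat_lit 317, nat_lit 100, nat_lit 12]⟩, ⟨p089_k21, nat_lit 0, nat_lit 0, nat_lit 43, nat_lit 0, nat_lit 0, [nat_lit 3282000000, nat_lit 6250000000, nat_lit 9842000000], [], [nat_lit 12737650308,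 nat_lit 16361529888, nat_lit 16334922064, nat_lit 19613646780, nat_lit 20521788706, nat_lit 23414004666, nat_lit 23003753928, nat_lit 25458779875], nat_lit 0, nat_lit 0, nat_lit 0, nat_lit 0, nat_lit 0, nat_lit 0, [], [nat_lit 8, nat_lit 40, nat_lit 40, nat_lit 80, nat_lit 1, nat_lit 373, nat_lit 150, nat_lit 10]⟩,
 zbF0, [⟨nat_lit 19, nat_lit 92, nat_lit 100, nat_lit 81, nat_lit 632785807⟩]⟩
noncomputable def p089_l127 : Lf2 := ⟨nat_lit 0, nat_lit 10, [nat_lit 0, nat_lit 5, nat_lit 5, nat_lit 20], false, nat_lit 0, nat_lit 160, nat_lit 160, nat_lit 300, ⟨nat_lit 1000, nat_lit 0, nat_lit 0, nat_lit 0, nat_lit 0, nat_lit 0, nat_lit 0, nat_lit 0, nat_lit 0, nat_lit 0, nat_lit 0, nat_lit 0, nat_lit 0, nat_lit 0, nat_lit 0, nat_lit 0, false, false⟩,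
 nat_lit 0, nat_lit 7554, nat_lit 0, nat_lit 0, nat_lit 5888, nat_lit 5512, nat_lit 2558, nat_lit 0, nat_lit 0, nat_lit 0, nat_lit 0, nat_lit 0, nat_lit 0, nat_lit 0, nat_lit 0, nat_lit 0, nat_lit 0, nat_lit 0, [],
 ⟨p089_k27, nat_lit 0, nat_lit 0, nat_lit 690, nat_lit 0, nat_lit 1344089, [nat_lit 2032000001, nat_lit 4688000000, nat_lit 6250000000], [], [nat_lit 21682589761, nat_lit 23127689754, nat_lit 25379047056, nat_lit 26510959872, nat_lit 18584025036, nat_lit 19080081753, nat_lit 20623720200, nat_lit 21582537360], nat_lit 1271250, nat_lit 1271250, nat_lit 719601, nat_lit 1758000, nat_lit 0, nat_lit 1100001, [nat_lit 490000, nat_lit 1100000, nat_lit 1442500], [nat_lit 6, nat_lit 40, nat_lit 40, nat_lit 80, nat_lit 3, nat_lit 317, nat_lit 100, nat_lit 12]⟩, ⟨p089_k21, nat_lit 0, nat_lit 0, nat_lit 57, nat_lit 0, nat_lit 0, [nat_lit 3282000000, nat_lit 6250000000, nat_lit 9842000000], [], [nat_lit 11825866522,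 nat_lit 15705331495, nat_lit 16425084448, nat_lit 19600012960, nat_lit 20151281184, nat_lit 23233962252, nat_lit 22980748496, nat_lit 25418559000], nat_lit 0, nat_lit 0, nat_lit 0, nat_lit 0, nat_lit 0, nat_lit 0, [], [nat_lit 8, nat_lit 40, nat_lit 40, nat_lit 80, nat_lit 1, nat_lit 373, nat_lit 150, nat_lit 10]⟩,
 zbF0, [⟨nat_lit 0, nat_lit 91, nat_lit 77, nat_lit 100, nat_lit 313824803⟩, ⟨nat_lit 7, nat_lit 100, nat_lit 90, nat_lit 74, nat_lit 771710632⟩]⟩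
noncomputable def b_V_800_700_10_6 : St := ⟨true, nat_lit 1, nat_lit 0, nat_lit 1, nat_lit 80, nat_lit 320, nat_lit 340, nat_lit 280, nat_lit 320, nat_lit 100, nat_lit 240, nat_lit 40, nat_lit 80, nat_lit 0, nat_lit 160, nat_lit 160, nat_lit 300, nat_lit 0, nat_lit 40, nat_lit 0, nat_lit 0, nat_lit 0, nat_lit 0⟩
theorem d_V_800_700_10_6 (h : EB TB.env) : Dead b_V_800_700_10_6 := chkB_sound0 h (T :=
(.spl (nat_lit 0) (nat_lit 330)
(.spl (nat_lit 3) (nat_lit 60)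
(.trX (nat_lit 19) (nat_lit 99) (nat_lit 100) (nat_lit 77) (nat_lit 276) (.spl (nat_lit 2) (nat_lit 160)
(.spl (nat_lit 6) (nat_lit 20)
(.spl (nat_lit 4) (nat_lit 80)
(.spl (nat_lit 0) (nat_lit 325)
(.leaf p089_l116)
(.trZ (nat_lit 0) (nat_lit 100) (nat_lit 85) (nat_lit 97) (nat_lit 104) (.leaf p089_l117)))
(.spl (nat_lit 0) (nat_lit 325)
(.leaf p089_l118)
(.trZ (nat_lit 0) (nat_lit 100) (nat_lit 85) (nat_lit 97) (nat_lit 104) (.leaf p089_l119))))
(.leaf p089_l120))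
(.spl (nat_lit 6) (nat_lit 20)
(.spl (nat_lit 0) (nat_lit 325)
(.leaf p089_l121)
(.leaf p089_l122))
(.leaf p089_l123))))
(.spl (nat_lit 2) (nat_lit 160)
(.spl (nat_lit 0) (nat_lit 325)
(.leaf p089_l124)
(.trZ (nat_lit 0) (nat_lit 100) (nat_lit 85) (nat_lit 97) (nat_lit 104) (.leaf p089_l125)))
(.leaf p089_l126)))
(.trZ (nat_lit 0) (nat_lit 100) (nat_lit 83) (nat_lit 98) (nat_lit 112) (.leaf p089_l127)))) (by decide +kernel)
noncomputable def p089_l128 : Lf2 := ⟨nat_lit 0, nat_lit 1, [nat_lit 19, nat_lit 5, nat_lit 5, nat_lit 20], false, nat_lit 160, nat_lit 232, nat_lit 160, nat_lit 276, ⟨nat_lit 1000, nat_lit 0, nat_lit 0, nat_lit 0, nat_lit 0, nat_lit 0, nat_lit 0, nat_lit 0, nat_lit 0, nat_lit 0, nat_lit 0, nat_lit 0, nat_lit 0, nat_lit 0, nat_lit 0, nat_lit 0, false, false⟩,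
 nat_lit 0, nat_lit 9121, nat_lit 0, nat_lit 0, nat_lit 6840, nat_lit 5368, nat_lit 0, nat_lit 0, nat_lit 0, nat_lit 0, nat_lit 0, nat_lit 0, nat_lit 0, nat_lit 0, nat_lit 0, nat_lit 0, nat_lit 0, nat_lit 0, [],
 ⟨p089_k43, nat_lit 0, nat_lit 0, nat_lit 410, nat_lit 0, nat_lit 1229081, [nat_lit 2032000001, nat_lit 3282000000], [], [nat_lit 18758048001, nat_lit 19276420841, nat_lit 18938102401, nat_lit 19412825761, nat_lit 20103846081, nat_lit 20558973527, nat_lit 20109039122, nat_lit 20557473172], nat_lit 1271250, nat_lit 1271250, nat_lit 631250, nat_lit 1100001, nat_lit 1100001, nat_lit 1716500, [nat_lit 490000, nat_lit 780000], [nat_lit 112, nat_lit 40, nat_lit 40, nat_lit 80, nat_lit 113, nat_lit 249, nat_lit 40, nat_lit 13]⟩, ⟨p089_k44, nat_lit 0, nat_lit 0, nat_lit 34, nat_lit 0, nat_lit 0, [nat_lit 3282000000, nat_lit 4688000000], [], [nat_lit 11935990272, nat_lit 15815591632, nat_lit 13042850784, nat_lit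 16579898624, nat_lit 18333468996, nat_lit 21643988937, nat_lit 18881667410, nat_lit 21810185757], nat_lit 0, nat_lit 0, nat_lit 0, nat_lit 0, nat_lit 0, nat_lit 0, [], [nat_lit 40, nat_lit 40, nat_lit 40, nat_lit 80, nat_lit 22, nat_lit 249, nat_lit 40, nat_lit 11]⟩,
 zbF0, [⟨nat_lit 0, nat_lit 100, nat_lit 87, nat_lit 95, nat_lit 568931044⟩, ⟨nat_lit 16, nat_lit 81, nat_lit 100, nat_lit 72, nat_lit 484921841⟩, ⟨nat_lit 19, nat_lit 99, nat_lit 100, nat_lit 77, nat_lit 610594001⟩]⟩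
noncomputable def p089_l129 : Lf2 := ⟨nat_lit 0, nat_lit 2, [nat_lit 10, nat_lit 5, nat_lit 5, nat_lit 20], false, nat_lit 160, nat_lit 232, nat_lit 160, nat_lit 276, ⟨nat_lit 1000, nat_lit 0, nat_lit 0, nat_lit 0, nat_lit 0, nat_lit 0, nat_lit 0, nat_lit 0, nat_lit 0, nat_lit 0, nat_lit 0, nat_lit 0, nat_lit 0, nat_lit 0, nat_lit 0, nat_lit 0, false, false⟩,
 nat_lit 0, nat_lit 11062, nat_lit 0, nat_lit 0, nat_lit 8296, nat_lit 5591, nat_lit 0, nat_lit 0, nat_lit 0, nat_lit 0, nat_lit 0, nat_lit 0, nat_lit 0, nat_lit 0, nat_lit 0, nat_lit 0, nat_lit 0, nat_lit 0, [],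
 ⟨p089_k45, nat_lit 0, nat_lit 0, nat_lit 447, nat_lit 0, nat_lit 1168749, [nat_lit 2032000001, nat_lit 4688000000], [], [nat_lit 20045937312, nat_lit 20532897792, nat_lit 19694285824, nat_lit 20137431240, nat_lit 20911582268, nat_lit 21334243868, nat_lit 20391575239, nat_lit 20934949617], nat_lit 1271250, nat_lit 1271250, nat_lit 631250, nat_lit 1100001, nat_lit 1100001, nat_lit 1716500, [nat_lit 490000, nat_lit 1100000], [nat_lit 24, nat_lit 40, nat_lit 40, nat_lit 80, nat_lit 33, nat_lit 249, nat_lit 40, nat_lit 10]⟩, ⟨p089_k46, nat_lit 0, nat_lit 0, nat_lit 34, nat_lit 0, nat_lit 0, [nat_lit 3282000000, nat_lit 6250000000], [], [nat_lit 11648733714, nat_lit 15761258826, nat_lit 12737650308, nat_lit 16361529888, nat_lit 18388873954, nat_lit 21777777810, nat_lit 18790043494, nat_lit 21893861512], nat_lit 0, nat_lit 0, nat_lit 0, nat_lit 0, nat_lit 0, nat_lit 0, [], [nat_lit 49, nat_lit 40, nat_lit 40, nat_lit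 80, nat_lit 16, nat_lit 345, nat_lit 125, nat_lit 13]⟩,
 zbF0, [⟨nat_lit 0, nat_lit 93, nat_lit 84, nat_lit 100, nat_lit 691739996⟩, ⟨nat_lit 4, nat_lit 100, nat_lit 78, nat_lit 66, nat_lit 502516772⟩, ⟨nat_lit 7, nat_lit 100, nat_lit 88, nat_lit 67, nat_lit 787438654⟩]⟩
noncomputable def p089_l130 : Lf2 := ⟨nat_lit 0, nat_lit 5, [nat_lit 4, nat_lit 5, nat_lit 5, nat_lit 20], false, nat_lit 160, nat_lit 232, nat_lit 160, nat_lit 276, ⟨nat_lit 1000, nat_lit 0, nat_lit 0, nat_lit 0, nat_lit 0, nat_lit 0, nat_lit 0, nat_lit 0, nat_lit 0, nat_lit 0, nat_lit 0, nat_lit 0, nat_lit 0, nat_lit 0, nat_lit 0, nat_lit 0, false, false⟩,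
 nat_lit 0, nat_lit 10850, nat_lit 0, nat_lit 0, nat_lit 8137, nat_lit 5591, nat_lit 484, nat_lit 0, nat_lit 0, nat_lit 0, nat_lit 0, nat_lit 0, nat_lit 0, nat_lit 0, nat_lit 0, nat_lit 0, nat_lit 0, nat_lit 0, [],
 ⟨p089_k39, nat_lit 0, nat_lit 0, nat_lit 513, nat_lit 0, nat_lit 1133294, [nat_lit 2032000001, nat_lit 4688000000, nat_lit 6250000000], [], [nat_lit 19623412954, nat_lit 20169967248, nat_lit 19340679532, nat_lit 19840439983, nat_lit 20715599793, nat_lit 21226959085, nat_lit 20337859714, nat_lit 20893727945], nat_lit 1271250, nat_lit 1271250, nat_lit 631250, nat_lit 1100001, nat_lit 1100001, nat_lit 1716500, [nat_lit 490000, nat_lit 1100000, nat_lit 1442500], [nat_lit 6, nat_lit 40, nat_lit 40, nat_lit 80, nat_lit 3, nat_lit 317, nat_lit 100, nat_lit 11]⟩, ⟨p089_k40, nat_lit 0, nat_lit 0, nat_lit 51, nat_lit 0, nat_lit 0, [nat_lit 3282000000, nat_lit 6250000000, nat_lit 7968000000], [], [nat_lit 11648733714,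 nat_lit 15761258826, nat_lit 12737650308, nat_lit 16361529888, nat_lit 18388873954, nat_lit 21777777810, nat_lit 18790043494, nat_lit 21893861512], nat_lit 0, nat_lit 0, nat_lit 0, nat_lit 0, nat_lit 0, nat_lit 0, [], [nat_lit 18, nat_lit 40, nat_lit 40, nat_lit 80, nat_lit 2, nat_lit 345, nat_lit 125, nat_lit 11]⟩,
 zbF0, [⟨nat_lit 0, nat_lit 93, nat_lit 84, nat_lit 100, nat_lit 684893646⟩, ⟨nat_lit 4, nat_lit 100, nat_lit 78, nat_lit 66, nat_lit 536762076⟩, ⟨nat_lit 7, nat_lit 100, nat_lit 88, nat_lit 67, nat_lit 782813220⟩]⟩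
noncomputable def p089_l131 : Lf2 := ⟨nat_lit 0, nat_lit 5, [nat_lit 4, nat_lit 5, nat_lit 5, nat_lit 20], false, nat_lit 160, nat_lit 260, nat_lit 160, nat_lit 300, ⟨nat_lit 680, nat_lit 0, nat_lit 320, nat_lit 7, nat_lit 178, nat_lit 320, nat_lit 151, nat_lit 320, nat_lit 89743, nat_lit 288, nat_lit 80022, nat_lit 284, nat_lit 47762546, nat_lit 0, nat_lit 0, nat_lit 4268101, false, false⟩,
 nat_lit 0, nat_lit 7680, nat_lit 0, nat_lit 0, nat_lit 5759, nat_lit 3568, nat_lit 243, nat_lit 0, nat_lit 0, nat_lit 0, nat_lit 0, nat_lit 0, nat_lit 0, nat_lit 0, nat_lit 0, nat_lit 320000, nat_lit 0, nat_lit 0, [(nat_lit 18, [(nat_lit 6, nat_lit 320)])],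
 ⟨p089_k39, nat_lit 0, nat_lit 0, nat_lit 426, nat_lit 0, nat_lit 946449, [nat_lit 1720874667, nat_lit 2791125334, nat_lit 3001744000], [], [nat_lit 18699596940, nat_lit 19287548110, nat_lit 18678684888, nat_lit 19251549101, nat_lit 21208451340, nat_lit 21740293058, nat_lit 21110978852, nat_lit 21586572062], nat_lit 1271250, nat_lit 1271250, nat_lit 631250, nat_lit 780000, nat_lit 1100001, nat_lit 1956250, [nat_lit 490000, nat_lit 1100000, nat_lit 1442500], [nat_lit 6, nat_lit 40, nat_lit 40, nat_lit 80, nat_lit 3, nat_lit 317, nat_lit 100, nat_lit 11]⟩, ⟨p089_k40, nat_lit 0, nat_lit 0, nat_lit 51, nat_lit 0, nat_lit 0, [nat_lit 2231760000, nat_lit 4250000000, nat_lit 5418240000], [], [nat_lit 8222410512, nat_lit 9523412192, nat_lit 8319442496, nat_lit 9585866992, nat_lit 13688167556, nat_lit 14723214790, nat_lit 13616300592, nat_lit 14610898464], nat_lit 0, nat_lit 0, nat_lit 0, nat_lit 0, nat_lit 0, nat_lit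 0, [], [nat_lit 18, nat_lit 40, nat_lit 40, nat_lit 80, nat_lit 2, nat_lit 345, nat_lit 125, nat_lit 11]⟩,
 ⟨nat_lit 4183, nat_lit 4473, ⟨.ofNat (nat_lit 416301), .ofNat (nat_lit 450291), .ofNat (nat_lit 437865), .ofNat (nat_lit 471853), .ofNat (nat_lit 421009), .ofNat (nat_lit 454137), .ofNat (nat_lit 442672), .ofNat (nat_lit 475800)⟩, ⟨.ofNat (nat_lit 281055), .ofNat (nat_lit 451000), .ofNat (nat_lit 302621), .ofNat (nat_lit 472567), .ofNat (nat_lit 282076), .ofNat (nat_lit 447715), .ofNat (nat_lit 303743), .ofNat (nat_lit 469382)⟩⟩, [⟨nat_lit 0, nat_lit 98, nat_lit 86, nat_lit 100, nat_lit 534882395⟩, ⟨nat_lit 16, nat_lit 83, nat_lit 100, nat_lit 83, nat_lit 375693166⟩, ⟨nat_lit 19, nat_lit 100, nat_lit 95, nat_lit 87, nat_lit 378067420⟩]⟩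
noncomputable def p089_l132 : Lf2 := ⟨nat_lit 0, nat_lit 5, [nat_lit 4, nat_lit 5, nat_lit 5, nat_lit 20], false, nat_lit 160, nat_lit 260, nat_lit 160, nat_lit 300, ⟨nat_lit 1000, nat_lit 0, nat_lit 0, nat_lit 0, nat_lit 0, nat_lit 0, nat_lit 0, nat_lit 0, nat_lit 0, nat_lit 0, nat_lit 0, nat_lit 0, nat_lit 0, nat_lit 0, nat_lit 0, nat_lit 0, false, false⟩,
 nat_lit 0, nat_lit 10292, nat_lit 0, nat_lit 0, nat_lit 7718, nat_lit 5269, nat_lit 563, nat_lit 0, nat_lit 0, nat_lit 0, nat_lit 0, nat_lit 0, nat_lit 0, nat_lit 0, nat_lit 0, nat_lit 0, nat_lit 0, nat_lit 0, [],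
 ⟨p089_k39, nat_lit 0, nat_lit 0, nat_lit 418, nat_lit 0, nat_lit 946449, [nat_lit 2032000001, nat_lit 4688000000, nat_lit 6250000000], [], [nat_lit 19428740704, nat_lit 20103682530, nat_lit 19618874784, nat_lit 20251973098, nat_lit 21933509832, nat_lit 22484937401, nat_lit 21896035116, nat_lit 22572347439], nat_lit 1271250, nat_lit 1271250, nat_lit 780000, nat_lit 1100001, nat_lit 1100001, nat_lit 1956250, [nat_lit 490000, nat_lit 1100000, nat_lit 1442500], [nat_lit 6, nat_lit 40, nat_lit 40, nat_lit 80, nat_lit 3, nat_lit 345, nat_lit 125, nat_lit 12]⟩, ⟨p089_k40, nat_lit 0, nat_lit 0, nat_lit 42, nat_lit 0, nat_lit 0, [nat_lit 3282000000, nat_lit 6250000000, nat_lit 7968000000], [], [nat_lit 12204796448, nat_lit 14071840716, nat_lit 13178343372, nat_lit 14927592982, nat_lit 20008719796, nat_lit 21497217815, nat_lit 20487173569, nat_lit 21848580874], nat_lit 0, nat_lit 0, nat_lit 0, nat_lit 0, nat_lit 0, nat_lit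 0, [], [nat_lit 18, nat_lit 40, nat_lit 40, nat_lit 80, nat_lit 2, nat_lit 345, nat_lit 125, nat_lit 11]⟩,
 zbF0, [⟨nat_lit 0, nat_lit 98, nat_lit 86, nat_lit 100, nat_lit 493722690⟩, ⟨nat_lit 16, nat_lit 83, nat_lit 100, nat_lit 83, nat_lit 477484034⟩, ⟨nat_lit 19, nat_lit 100, nat_lit 95, nat_lit 87, nat_lit 550081631⟩]⟩
noncomputable def p089_l133 : Lf2 := ⟨nat_lit 0, nat_lit 1, [nat_lit 19, nat_lit 5, nat_lit 5, nat_lit 20], false, nat_lit 160, nat_lit 260, nat_lit 160, nat_lit 280, ⟨nat_lit 1000, nat_lit 0, nat_lit 0, nat_lit 0, nat_lit 0, nat_lit 0, nat_lit 0, nat_lit 0, nat_lit 0, nat_lit 0, nat_lit 0, nat_lit 0, nat_lit 0, nat_lit 0, nat_lit 0, nat_lit 0, false, false⟩,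
 nat_lit 0, nat_lit 8672, nat_lit 0, nat_lit 0, nat_lit 6504, nat_lit 5258, nat_lit 0, nat_lit 0, nat_lit 0, nat_lit 0, nat_lit 0, nat_lit 0, nat_lit 0, nat_lit 0, nat_lit 0, nat_lit 0, nat_lit 0, nat_lit 0, [],
 ⟨p089_k43, nat_lit 0, nat_lit 0, nat_lit 351, nat_lit 0, nat_lit 1082142, [nat_lit 2032000001, nat_lit 3282000000], [], [nat_lit 19045440289, nat_lit 19605584393, nat_lit 19384383041, nat_lit 19911628433, nat_lit 21414099393, nat_lit 21886195994, nat_lit 21562516049, nat_lit 22111560992], nat_lit 1271250, nat_lit 1271250, nat_lit 780000, nat_lit 1100001, nat_lit 1100001, nat_lit 1956250, [nat_lit 490000, nat_lit 780000], [nat_lit 112, nat_lit 40, nat_lit 40, nat_lit 80, nat_lit 113, nat_lit 203, nat_lit 0, nat_lit 10]⟩, ⟨p089_k47, nat_lit 0, nat_lit 0, nat_lit 30, nat_lit 0, nat_lit 0, [nat_lit 3282000000, nat_lit 4688000000], [], [nat_lit 14084385512, nat_lit 15949095888, nat_lit 14940506124, nat_lit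 16687614144, nat_lit 20095224672, nat_lit 21673357148, nat_lit 20571217462, nat_lit 22014769952], nat_lit 0, nat_lit 0, nat_lit 0, nat_lit 0, nat_lit 0, nat_lit 0, [], [nat_lit 40, nat_lit 40, nat_lit 40, nat_lit 80, nat_lit 22, nat_lit 249, nat_lit 40, nat_lit 10]⟩,
 zbF0, [⟨nat_lit 0, nat_lit 88, nat_lit 82, nat_lit 100, nat_lit 29016983⟩, ⟨nat_lit 0, nat_lit 94, nat_lit 87, nat_lit 100, nat_lit 502466220⟩, ⟨nat_lit 16, nat_lit 83, nat_lit 100, nat_lit 83, nat_lit 464369745⟩, ⟨nat_lit 19, nat_lit 94, nat_lit 100, nat_lit 87, nat_lit 548633738⟩]⟩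
noncomputable def p089_l134 : Lf2 := ⟨nat_lit 0, nat_lit 2, [nat_lit 10, nat_lit 5, nat_lit 5, nat_lit 20], false, nat_lit 160, nat_lit 260, nat_lit 160, nat_lit 280, ⟨nat_lit 1000, nat_lit 0, nat_lit 0, nat_lit 0, nat_lit 0, nat_lit 0, nat_lit 0, nat_lit 0, nat_lit 0, nat_lit 0, nat_lit 0, nat_lit 0, nat_lit 0, nat_lit 0, nat_lit 0, nat_lit 0, false, false⟩,
 nat_lit 0, nat_lit 10491, nat_lit 0, nat_lit 0, nat_lit 7868, nat_lit 5297, nat_lit 0, nat_lit 0, nat_lit 0, nat_lit 0, nat_lit 0, nat_lit 0, nat_lit 0, nat_lit 0, nat_lit 0, nat_lit 0, nat_lit 0, nat_lit 0, [],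
 ⟨p089_k45, nat_lit 0, nat_lit 0, nat_lit 379, nat_lit 0, nat_lit 1019820, [nat_lit 2032000001, nat_lit 4688000000], [], [nat_lit 20414550752, nat_lit 20975878364, nat_lit 20468578400, nat_lit 20995052812, nat_lit 22342975436, nat_lit 22801796850, nat_lit 22201654836, nat_lit 22631698058], nat_lit 1271250, nat_lit 1271250, nat_lit 780000, nat_lit 1100001, nat_lit 1100001, nat_lit 1956250, [nat_lit 490000, nat_lit 1100000], [nat_lit 24, nat_lit 40, nat_lit 40, nat_lit 80, nat_lit 33, nat_lit 249, nat_lit 40, nat_lit 10]⟩, ⟨p089_k48, nat_lit 0, nat_lit 0, nat_lit 30, nat_lit 0, nat_lit 0, [nat_lit 3282000000, nat_lit 4688000000], [], [nat_lit 14039908508, nat_lit 15912893592, nat_lit 14894723166, nat_lit 16649424096, nat_lit 20108655183, nat_lit 21693333182, nat_lit 20541239683, nat_lit 22030281968], nat_lit 0, nat_lit 0, nat_lit 0, nat_lit 0, nat_lit 0, nat_lit 0, [], [nat_lit 40, nat_lit 40, nat_lit 40, nat_lit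 80, nat_lit 22, nat_lit 249, nat_lit 40, nat_lit 10]⟩,
 zbF0, [⟨nat_lit 0, nat_lit 88, nat_lit 82, nat_lit 100, nat_lit 674676716⟩, ⟨nat_lit 4, nat_lit 100, nat_lit 79, nat_lit 77, nat_lit 479543109⟩, ⟨nat_lit 19, nat_lit 94, nat_lit 100, nat_lit 87, nat_lit 1045662⟩, ⟨nat_lit 7, nat_lit 100, nat_lit 87, nat_lit 79, nat_lit 637449544⟩]⟩
noncomputable def p089_l135 : Lf2 := ⟨nat_lit 0, nat_lit 5, [nat_lit 4, nat_lit 5, nat_lit 5, nat_lit 20], false, nat_lit 160, nat_lit 260, nat_lit 160, nat_lit 280, ⟨nat_lit 1000, nat_lit 0, nat_lit 0, nat_lit 0, nat_lit 0, nat_lit 0, nat_lit 0, nat_lit 0, nat_lit 0, nat_lit 0, nat_lit 0, nat_lit 0, nat_lit 0, nat_lit 0, nat_lit 0, nat_lit 0, false, false⟩,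
 nat_lit 0, nat_lit 10236, nat_lit 0, nat_lit 0, nat_lit 7677, nat_lit 5287, nat_lit 485, nat_lit 0, nat_lit 0, nat_lit 0, nat_lit 0, nat_lit 0, nat_lit 0, nat_lit 0, nat_lit 0, nat_lit 0, nat_lit 0, nat_lit 0, [],
 ⟨p089_k39, nat_lit 0, nat_lit 0, nat_lit 432, nat_lit 0, nat_lit 980727, [nat_lit 2032000001, nat_lit 4688000000, nat_lit 6250000000], [], [nat_lit 19883279712, nat_lit 20508637924, nat_lit 19996316248, nat_lit 20583025295, nat_lit 22112655553, nat_lit 22624934576, nat_lit 22041820374, nat_lit 22557668312], nat_lit 1271250, nat_lit 1271250, nat_lit 780000, nat_lit 1100001, nat_lit 1100001, nat_lit 1956250, [nat_lit 490000, nat_lit 1100000, nat_lit 1442500], [nat_lit 6, nat_lit 40, nat_lit 40, nat_lit 80, nat_lit 3, nat_lit 345, nat_lit 125, nat_lit 12]⟩, ⟨p089_k49, nat_lit 0, nat_lit 0, nat_lit 30, nat_lit 0, nat_lit 0, [nat_lit 3282000000, nat_lit 6250000000], [], [nat_lit 14051312868, nat_lit 15922176232,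 nat_lit 14906462386, nat_lit 16659216416, nat_lit 20105196793, nat_lit 21688211122, nat_lit 20548926293, nat_lit 22026304528], nat_lit 0, nat_lit 0, nat_lit 0, nat_lit 0, nat_lit 0, nat_lit 0, [], [nat_lit 49, nat_lit 40, nat_lit 40, nat_lit 80, nat_lit 16, nat_lit 345, nat_lit 125, nat_lit 12]⟩,
 zbF0, [⟨nat_lit 0, nat_lit 88, nat_lit 82, nat_lit 100, nat_lit 654922428⟩, ⟨nat_lit 16, nat_lit 83, nat_lit 100, nat_lit 83, nat_lit 391304458⟩, ⟨nat_lit 4, nat_lit 100, nat_lit 79, nat_lit 77, nat_lit 64071583⟩, ⟨nat_lit 19, nat_lit 94, nat_lit 100, nat_lit 87, nat_lit 34576658⟩, ⟨nat_lit 7, nat_lit 100, nat_lit 87, nat_lit 79, nat_lit 596715091⟩]⟩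
noncomputable def p089_l136 : Lf2 := ⟨nat_lit 0, nat_lit 10, [nat_lit 0, nat_lit 5, nat_lit 5, nat_lit 20], false, nat_lit 160, nat_lit 260, nat_lit 160, nat_lit 300, ⟨nat_lit 1000, nat_lit 0, nat_lit 0, nat_lit 0, nat_lit 0, nat_lit 0, nat_lit 0, nat_lit 0, nat_lit 0, nat_lit 0, nat_lit 0, nat_lit 0, nat_lit 0, nat_lit 0, nat_lit 0, nat_lit 0, false, false⟩,
 nat_lit 0, nat_lit 10513, nat_lit 0, nat_lit 0, nat_lit 7884, nat_lit 5572, nat_lit 487, nat_lit 0, nat_lit 0, nat_lit 0, nat_lit 0, nat_lit 0, nat_lit 0, nat_lit 0, nat_lit 0, nat_lit 0, nat_lit 0, nat_lit 0, [],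
 ⟨p089_k20, nat_lit 0, nat_lit 0, nat_lit 460, nat_lit 0, nat_lit 1032120, [nat_lit 2032000001, nat_lit 4688000000, nat_lit 6250000000], [], [nat_lit 20721831144, nat_lit 21221104740, nat_lit 20435343024, nat_lit 20926376956, nat_lit 22552041518, nat_lit 23024390224, nat_lit 22131824068, nat_lit 22635354482], nat_lit 1271250, nat_lit 1271250, nat_lit 631250, nat_lit 1100001, nat_lit 1100001, nat_lit 1956250, [nat_lit 490000, nat_lit 1100000, nat_lit 1442500], [nat_lit 6, nat_lit 40, nat_lit 40, nat_lit 80, nat_lit 3, nat_lit 345, nat_lit 125, nat_lit 12]⟩, ⟨p089_k21, nat_lit 0, nat_lit 0, nat_lit 62, nat_lit 0, nat_lit 0, [nat_lit 3282000000, nat_lit 6250000000, nat_lit 9842000000], [], [nat_lit 11673208488, nat_lit 15758027192, nat_lit 12763653936, nat_lit 16380135296, nat_lit 20271965184, nat_lit 23418697966, nat_lit 20517404152, nat_lit 23404308472], nat_lit 0, nat_lit 0, nat_lit 0, nat_lit 0, nat_lit 0, nat_lit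 0, [], [nat_lit 8, nat_lit 40, nat_lit 40, nat_lit 80, nat_lit 1, nat_lit 345, nat_lit 125, nat_lit 9]⟩,
 zbF0, [⟨nat_lit 0, nat_lit 93, nat_lit 84, nat_lit 100, nat_lit 697847191⟩, ⟨nat_lit 4, nat_lit 100, nat_lit 79, nat_lit 72, nat_lit 527284693⟩, ⟨nat_lit 7, nat_lit 100, nat_lit 90, nat_lit 74, nat_lit 729477897⟩]⟩
noncomputable def p089_l137 : Lf2 := ⟨nat_lit 0, nat_lit 5, [nat_lit 4, nat_lit 5, nat_lit 5, nat_lit 20], false, nat_lit 160, nat_lit 232, nat_lit 160, nat_lit 276, ⟨nat_lit 1000, nat_lit 0, nat_lit 0, nat_lit 0, nat_lit 0, nat_lit 0, nat_lit 0, nat_lit 0, nat_lit 0, nat_lit 0, nat_lit 0, nat_lit 0, nat_lit 0, nat_lit 0, nat_lit 0, nat_lit 0, false, false⟩,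
 nat_lit 0, nat_lit 11169, nat_lit 0, nat_lit 0, nat_lit 8376, nat_lit 5591, nat_lit 447, nat_lit 0, nat_lit 0, nat_lit 0, nat_lit 0, nat_lit 0, nat_lit 0, nat_lit 0, nat_lit 0, nat_lit 0, nat_lit 0, nat_lit 0, [],
 ⟨p089_k39, nat_lit 0, nat_lit 0, nat_lit 521, nat_lit 0, nat_lit 1208215, [nat_lit 2032000001, nat_lit 4688000000, nat_lit 6250000000], [], [nat_lit 19298083360, nat_lit 19422449273, nat_lit 20094282080, nat_lit 20457179277, nat_lit 19979948871, nat_lit 20095665963, nat_lit 22667393831, nat_lit 22978999451], nat_lit 1271250, nat_lit 1271250, nat_lit 1100001, nat_lit 1785000, nat_lit 1100001, nat_lit 1716500, [nat_lit 490000, nat_lit 1100000, nat_lit 1442500], [nat_lit 6, nat_lit 40, nat_lit 40, nat_lit 80, nat_lit 3, nat_lit 345, nat_lit 125, nat_lit 12]⟩, ⟨p089_k40, nat_lit 0, nat_lit 0, nat_lit 34, nat_lit 0, nat_lit 0, [nat_lit 3282000000, nat_lit 6250000000, nat_lit 7968000000], [], [nat_lit 12737650308,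 nat_lit 16361529888, nat_lit 16334922064, nat_lit 19613646780, nat_lit 18790043494, nat_lit 21893861512, nat_lit 21544128025, nat_lit 24174035476], nat_lit 0, nat_lit 0, nat_lit 0, nat_lit 0, nat_lit 0, nat_lit 0, [], [nat_lit 18, nat_lit 40, nat_lit 40, nat_lit 80, nat_lit 2, nat_lit 373, nat_lit 150, nat_lit 11]⟩,
 zbF0, [⟨nat_lit 4, nat_lit 100, nat_lit 80, nat_lit 66, nat_lit 473102620⟩, ⟨nat_lit 7, nat_lit 100, nat_lit 88, nat_lit 67, nat_lit 767122807⟩]⟩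
noncomputable def p089_l138 : Lf2 := ⟨nat_lit 0, nat_lit 5, [nat_lit 4, nat_lit 5, nat_lit 5, nat_lit 20], false, nat_lit 160, nat_lit 228, nat_lit 160, nat_lit 276, ⟨nat_lit 1000, nat_lit 0, nat_lit 0, nat_lit 0, nat_lit 0, nat_lit 0, nat_lit 0, nat_lit 0, nat_lit 0, nat_lit 0, nat_lit 0, nat_lit 0, nat_lit 0, nat_lit 0, nat_lit 0, nat_lit 0, false, false⟩,
 nat_lit 0, nat_lit 9203, nat_lit 0, nat_lit 0, nat_lit 6983, nat_lit 5591, nat_lit 3523, nat_lit 0, nat_lit 0, nat_lit 0, nat_lit 0, nat_lit 0, nat_lit 0, nat_lit 0, nat_lit 0, nat_lit 0, nat_lit 0, nat_lit 0, [],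
 ⟨p089_k50, nat_lit 0, nat_lit 0, nat_lit 441, nat_lit 0, nat_lit 1203457, [nat_lit 2032000001, nat_lit 4688000000], [], [nat_lit 19072384088, nat_lit 19154094711, nat_lit 20174642659, nat_lit 20388485670, nat_lit 19812728968, nat_lit 19884755717, nat_lit 22467287407, nat_lit 22653435757], nat_lit 1271250, nat_lit 1271250, nat_lit 1100001, nat_lit 1785000, nat_lit 1100001, nat_lit 1682250, [nat_lit 490000, nat_lit 1100000], [nat_lit 24, nat_lit 40, nat_lit 40, nat_lit 80, nat_lit 33, nat_lit 210, nat_lit 0, nat_lit 8]⟩, ⟨p089_k40, nat_lit 0, nat_lit 0, nat_lit 34, nat_lit 0, nat_lit 0, [nat_lit 3282000000, nat_lit 6250000000, nat_lit 7968000000], [], [nat_lit 12737650308, nat_lit 16361529888, nat_lit 16334922064, nat_lit 19613646780, nat_lit 18790043494, nat_lit 21893861512, nat_lit 21544128025, nat_lit 24174035476], nat_lit 0, nat_lit 0, nat_lit 0, nat_lit 0, nat_lit 0, nat_lit 0, [], [nat_lit 18, nat_lit 40,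 nat_lit 40, nat_lit 80, nat_lit 2, nat_lit 373, nat_lit 150, nat_lit 11]⟩,
 zbF0, [⟨nat_lit 16, nat_lit 80, nat_lit 100, nat_lit 72, nat_lit 183153486⟩, ⟨nat_lit 4, nat_lit 100, nat_lit 79, nat_lit 66, nat_lit 288262000⟩, ⟨nat_lit 7, nat_lit 100, nat_lit 88, nat_lit 67, nat_lit 767122807⟩]⟩
noncomputable def p089_l139 : Lf2 := ⟨nat_lit 0, nat_lit 5, [nat_lit 4, nat_lit 5, nat_lit 5, nat_lit 20], false, nat_lit 160, nat_lit 224, nat_lit 160, nat_lit 276, ⟨nat_lit 1000, nat_lit 0, nat_lit 0, nat_lit 0, nat_lit 0, nat_lit 0, nat_lit 0, nat_lit 0, nat_lit 0, nat_lit 0, nat_lit 0, nat_lit 0, nat_lit 0, nat_lit 0, nat_lit 0, nat_lit 0, false, false⟩,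
 nat_lit 0, nat_lit 8016, nat_lit 0, nat_lit 0, nat_lit 6129, nat_lit 5591, nat_lit 3019, nat_lit 0, nat_lit 0, nat_lit 0, nat_lit 0, nat_lit 0, nat_lit 0, nat_lit 0, nat_lit 0, nat_lit 0, nat_lit 0, nat_lit 0, [],
 ⟨p089_k41, nat_lit 0, nat_lit 0, nat_lit 459, nat_lit 0, nat_lit 1226900, [nat_lit 2032000001, nat_lit 4688000000], [], [nat_lit 18978208553, nat_lit 19185632385, nat_lit 20198052210, nat_lit 20689609600, nat_lit 19874374418, nat_lit 20060023361, nat_lit 22281028060, nat_lit 22714057120], nat_lit 1271250, nat_lit 1271250, nat_lit 1100001, nat_lit 1785000, nat_lit 1100001, nat_lit 1648000, [nat_lit 490000, nat_lit 1100000], [nat_lit 24, nat_lit 40, nat_lit 40, nat_lit 80, nat_lit 33, nat_lit 214, nat_lit 0, nat_lit 8]⟩, ⟨p089_k40, nat_lit 0, nat_lit 0, nat_lit 34, nat_lit 0, nat_lit 0, [nat_lit 3282000000, nat_lit 6250000000, nat_lit 7968000000], [], [nat_lit 12737650308, nat_lit 16361529888, nat_lit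 16334922064, nat_lit 19613646780, nat_lit 18790043494, nat_lit 21893861512, nat_lit 21544128025, nat_lit 24174035476], nat_lit 0, nat_lit 0, nat_lit 0, nat_lit 0, nat_lit 0, nat_lit 0, [], [nat_lit 18, nat_lit 40, nat_lit 40, nat_lit 80, nat_lit 2, nat_lit 373, nat_lit 150, nat_lit 11]⟩,
 zbF0, [⟨nat_lit 16, nat_lit 79, nat_lit 100, nat_lit 72, nat_lit 473644420⟩, ⟨nat_lit 7, nat_lit 100, nat_lit 88, nat_lit 67, nat_lit 767122807⟩]⟩
noncomputable def p089_l140 : Lf2 := ⟨nat_lit 0, nat_lit 10, [nat_lit 0, nat_lit 5, nat_lit 5, nat_lit 20], false, nat_lit 160, nat_lit 232, nat_lit 160, nat_lit 276, ⟨nat_lit 1000, nat_lit 0, nat_lit 0, nat_lit 0, nat_lit 0, nat_lit 0, nat_lit 0, nat_lit 0, nat_lit 0, nat_lit 0, nat_lit 0, nat_lit 0, nat_lit 0, nat_lit 0, nat_lit 0, nat_lit 0, false, false⟩,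
 nat_lit 0, nat_lit 9684, nat_lit 0, nat_lit 0, nat_lit 7263, nat_lit 5591, nat_lit 514, nat_lit 0, nat_lit 0, nat_lit 0, nat_lit 0, nat_lit 0, nat_lit 0, nat_lit 0, nat_lit 0, nat_lit 0, nat_lit 0, nat_lit 0, [],
 ⟨p089_k20, nat_lit 0, nat_lit 0, nat_lit 429, nat_lit 0, nat_lit 1002462, [nat_lit 2032000001, nat_lit 4688000000, nat_lit 6250000000], [], [nat_lit 21408427340, nat_lit 21939691605, nat_lit 22824318532, nat_lit 23348837730, nat_lit 22666196054, nat_lit 23199406317, nat_lit 23886446873, nat_lit 24343736653], nat_lit 1271250, nat_lit 1271250, nat_lit 1100001, nat_lit 1785000, nat_lit 1100001, nat_lit 1716500, [nat_lit 490000, nat_lit 1100000, nat_lit 1442500], [nat_lit 6, nat_lit 40, nat_lit 40, nat_lit 80, nat_lit 3, nat_lit 345, nat_lit 125, nat_lit 12]⟩, ⟨p089_k21, nat_lit 0, nat_lit 0, nat_lit 34, nat_lit 0, nat_lit 0, [nat_lit 3282000000, nat_lit 6250000000, nat_lit 9842000000], [], [nat_lit 12737650308,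 nat_lit 16361529888, nat_lit 16334922064, nat_lit 19613646780, nat_lit 18790043494, nat_lit 21893861512, nat_lit 21544128025, nat_lit 24174035476], nat_lit 0, nat_lit 0, nat_lit 0, nat_lit 0, nat_lit 0, nat_lit 0, [], [nat_lit 8, nat_lit 40, nat_lit 40, nat_lit 80, nat_lit 1, nat_lit 373, nat_lit 150, nat_lit 10]⟩,
 zbF0, [⟨nat_lit 4, nat_lit 100, nat_lit 78, nat_lit 66, nat_lit 564118743⟩, ⟨nat_lit 7, nat_lit 100, nat_lit 88, nat_lit 67, nat_lit 767122807⟩]⟩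
noncomputable def p089_l141 : Lf2 := ⟨nat_lit 0, nat_lit 5, [nat_lit 4, nat_lit 5, nat_lit 5, nat_lit 20], false, nat_lit 160, nat_lit 260, nat_lit 160, nat_lit 240, ⟨nat_lit 1000, nat_lit 0, nat_lit 0, nat_lit 0, nat_lit 0, nat_lit 0, nat_lit 0, nat_lit 0, nat_lit 0, nat_lit 0, nat_lit 0, nat_lit 0, nat_lit 0, nat_lit 0, nat_lit 0, nat_lit 0, false, false⟩,
 nat_lit 0, nat_lit 9561, nat_lit 0, nat_lit 0, nat_lit 7170, nat_lit 5376, nat_lit 496, nat_lit 0, nat_lit 0, nat_lit 0, nat_lit 0, nat_lit 0, nat_lit 0, nat_lit 0, nat_lit 0, nat_lit 0, nat_lit 0, nat_lit 0, [],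
 ⟨p089_k39, nat_lit 0, nat_lit 0, nat_lit 471, nat_lit 0, nat_lit 1108376, [nat_lit 2032000001, nat_lit 4688000000, nat_lit 6250000000], [], [nat_lit 23522496120, nat_lit 23991037030, nat_lit 24691262640, nat_lit 25122183380, nat_lit 25248022090, nat_lit 25660089020, nat_lit 26019872360, nat_lit 26373206335], nat_lit 1271250, nat_lit 1271250, nat_lit 1100001, nat_lit 1785000, nat_lit 1100001, nat_lit 1956250, [nat_lit 490000, nat_lit 1100000, nat_lit 1442500], [nat_lit 6, nat_lit 40, nat_lit 40, nat_lit 80, nat_lit 3, nat_lit 345, nat_lit 125, nat_lit 12]⟩, ⟨p089_k40, nat_lit 0, nat_lit 0, nat_lit 22, nat_lit 0, nat_lit 0, [nat_lit 3282000000, nat_lit 6250000000, nat_lit 7968000000], [], [nat_lit 13031901888, nat_lit 16572064768, nat_lit 16580300704, nat_lit 19576957760, nat_lit 16580300704, nat_lit 19576957760, nat_lit 19475346240, nat_lit 22192387136], nat_lit 0, nat_lit 0, nat_lit 0, nat_lit 0, nat_lit 0, nat_lit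 0, [], [nat_lit 18, nat_lit 40, nat_lit 40, nat_lit 80, nat_lit 2, nat_lit 345, nat_lit 125, nat_lit 10]⟩,
 zbF0, [⟨nat_lit 16, nat_lit 79, nat_lit 100, nat_lit 77, nat_lit 482206958⟩, ⟨nat_lit 7, nat_lit 100, nat_lit 92, nat_lit 81, nat_lit 527119716⟩]⟩
noncomputable def p089_l142 : Lf2 := ⟨nat_lit 0, nat_lit 5, [nat_lit 4, nat_lit 5, nat_lit 5, nat_lit 20], false, nat_lit 160, nat_lit 260, nat_lit 240, nat_lit 300, ⟨nat_lit 1000, nat_lit 0, nat_lit 0, nat_lit 0, nat_lit 0, nat_lit 0, nat_lit 0, nat_lit 0, nat_lit 0, nat_lit 0, nat_lit 0, nat_lit 0, nat_lit 0, nat_lit 0, nat_lit 0, nat_lit 0, false, false⟩,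
 nat_lit 0, nat_lit 10587, nat_lit 0, nat_lit 0, nat_lit 7939, nat_lit 5376, nat_lit 491, nat_lit 0, nat_lit 0, nat_lit 0, nat_lit 0, nat_lit 0, nat_lit 0, nat_lit 0, nat_lit 0, nat_lit 0, nat_lit 0, nat_lit 0, [],
 ⟨p089_k39, nat_lit 0, nat_lit 0, nat_lit 455, nat_lit 0, nat_lit 1070862, [nat_lit 2032000001, nat_lit 4688000000, nat_lit 6250000000], [], [nat_lit 20178764004, nat_lit 20425789951, nat_lit 21320575688, nat_lit 21546772067, nat_lit 21891780803, nat_lit 22107716681, nat_lit 24113039261, nat_lit 24580465884], nat_lit 1271250, nat_lit 1271250, nat_lit 1100001, nat_lit 1785000, nat_lit 1100001, nat_lit 1956250, [nat_lit 490000, nat_lit 1100000, nat_lit 1442500], [nat_lit 6, nat_lit 40, nat_lit 40, nat_lit 80, nat_lit 3, nat_lit 345, nat_lit 125, nat_lit 12]⟩, ⟨p089_k40, nat_lit 0, nat_lit 0, nat_lit 43, nat_lit 0, nat_lit 0, [nat_lit 3282000000, nat_lit 6250000000, nat_lit 7968000000], [], [nat_lit 16580300704,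 nat_lit 19576957760, nat_lit 19475346240, nat_lit 22192387136, nat_lit 20472174016, nat_lit 23304284576, nat_lit 22941144208, nat_lit 25349318000], nat_lit 0, nat_lit 0, nat_lit 0, nat_lit 0, nat_lit 0, nat_lit 0, [], [nat_lit 18, nat_lit 40, nat_lit 40, nat_lit 80, nat_lit 2, nat_lit 272, nat_lit 60, nat_lit 8]⟩,
 zbF0, [⟨nat_lit 16, nat_lit 83, nat_lit 100, nat_lit 83, nat_lit 426722754⟩, ⟨nat_lit 7, nat_lit 100, nat_lit 92, nat_lit 81, nat_lit 737764159⟩]⟩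
noncomputable def p089_l143 : Lf2 := ⟨nat_lit 0, nat_lit 5, [nat_lit 4, nat_lit 5, nat_lit 5, nat_lit 20], false, nat_lit 160, nat_lit 252, nat_lit 240, nat_lit 300, ⟨nat_lit 1000, nat_lit 0, nat_lit 0, nat_lit 0, nat_lit 0, nat_lit 0, nat_lit 0, nat_lit 0, nat_lit 0, nat_lit 0, nat_lit 0, nat_lit 0, nat_lit 0, nat_lit 0, nat_lit 0, nat_lit 0, false, false⟩,
 nat_lit 0, nat_lit 7754, nat_lit 0, nat_lit 0, nat_lit 5929, nat_lit 5376, nat_lit 2945, nat_lit 0, nat_lit 0, nat_lit 0, nat_lit 0, nat_lit 0, nat_lit 0, nat_lit 0, nat_lit 0, nat_lit 0, nat_lit 0, nat_lit 0, [],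
 ⟨p089_k41, nat_lit 0, nat_lit 0, nat_lit 402, nat_lit 0, nat_lit 1079278, [nat_lit 2032000001, nat_lit 4688000000], [], [nat_lit 19499632496, nat_lit 19736696417, nat_lit 20847904597, nat_lit 21053730556, nat_lit 21179256751, nat_lit 21393025659, nat_lit 23390967644, nat_lit 23789644188], nat_lit 1271250, nat_lit 1271250, nat_lit 1100001, nat_lit 1785000, nat_lit 1100001, nat_lit 1887750, [nat_lit 490000, nat_lit 1100000], [nat_lit 24, nat_lit 40, nat_lit 40, nat_lit 80, nat_lit 33, nat_lit 204, nat_lit 0, nat_lit 8]⟩, ⟨p089_k40, nat_lit 0, nat_lit 0, nat_lit 43, nat_lit 0, nat_lit 0, [nat_lit 3282000000, nat_lit 6250000000, nat_lit 7968000000], [], [nat_lit 16580300704, nat_lit 19576957760, nat_lit 19475346240, nat_lit 22192387136, nat_lit 20472174016, nat_lit 23304284576, nat_lit 22941144208, nat_lit 25349318000], nat_lit 0, nat_lit 0, nat_lit 0, nat_lit 0, nat_lit 0, nat_lit 0, [], [nat_lit 18, nat_lit 40,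 nat_lit 40, nat_lit 80, nat_lit 2, nat_lit 272, nat_lit 60, nat_lit 8]⟩,
 zbF0, [⟨nat_lit 16, nat_lit 81, nat_lit 100, nat_lit 83, nat_lit 443238086⟩, ⟨nat_lit 7, nat_lit 100, nat_lit 92, nat_lit 81, nat_lit 737764159⟩]⟩
noncomputable def p089_l144 : Lf2 := ⟨nat_lit 0, nat_lit 10, [nat_lit 0, nat_lit 5, nat_lit 5, nat_lit 20], false, nat_lit 160, nat_lit 260, nat_lit 160, nat_lit 300, ⟨nat_lit 1000, nat_lit 0, nat_lit 0, nat_lit 0, nat_lit 0, nat_lit 0, nat_lit 0, nat_lit 0, nat_lit 0, nat_lit 0, nat_lit 0, nat_lit 0, nat_lit 0, nat_lit 0, nat_lit 0, nat_lit 0, false, false⟩,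
 nat_lit 0, nat_lit 10236, nat_lit 0, nat_lit 0, nat_lit 7677, nat_lit 5086, nat_lit 469, nat_lit 0, nat_lit 0, nat_lit 0, nat_lit 0, nat_lit 0, nat_lit 0, nat_lit 0, nat_lit 0, nat_lit 0, nat_lit 0, nat_lit 0, [],
 ⟨p089_k20, nat_lit 0, nat_lit 0, nat_lit 354, nat_lit 0, nat_lit 843836, [nat_lit 2032000001, nat_lit 4688000000, nat_lit 6250000000], [], [nat_lit 20261541860, nat_lit 20806928810, nat_lit 21451154340, nat_lit 21937065928, nat_lit 22079144578, nat_lit 22558503811, nat_lit 24024273923, nat_lit 24939191523], nat_lit 1271250, nat_lit 1271250, nat_lit 1100001, nat_lit 1785000, nat_lit 1100001, nat_lit 1956250, [nat_lit 490000, nat_lit 1100000, nat_lit 1442500], [nat_lit 6, nat_lit 40, nat_lit 40, nat_lit 80, nat_lit 3, nat_lit 345, nat_lit 125, nat_lit 12]⟩, ⟨p089_k21, nat_lit 0, nat_lit 0, nat_lit 43, nat_lit 0, nat_lit 0, [nat_lit 3282000000, nat_lit 6250000000, nat_lit 9842000000], [], [nat_lit 13428799368,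 nat_lit 16856042048, nat_lit 16911276544, nat_lit 19818307360, nat_lit 20630151286, nat_lit 23156290036, nat_lit 22926667108, nat_lit 25201671750], nat_lit 0, nat_lit 0, nat_lit 0, nat_lit 0, nat_lit 0, nat_lit 0, [], [nat_lit 8, nat_lit 40, nat_lit 40, nat_lit 80, nat_lit 1, nat_lit 373, nat_lit 150, nat_lit 10]⟩,
 zbF0, [⟨nat_lit 4, nat_lit 100, nat_lit 79, nat_lit 77, nat_lit 489059777⟩, ⟨nat_lit 7, nat_lit 100, nat_lit 92, nat_lit 81, nat_lit 596675889⟩]⟩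
noncomputable def p089_l145 : Lf2 := ⟨nat_lit 0, nat_lit 10, [nat_lit 0, nat_lit 5, nat_lit 5, nat_lit 20], false, nat_lit 160, nat_lit 244, nat_lit 160, nat_lit 300, ⟨nat_lit 1000, nat_lit 0, nat_lit 0, nat_lit 0, nat_lit 0, nat_lit 0, nat_lit 0, nat_lit 0, nat_lit 0, nat_lit 0, nat_lit 0, nat_lit 0, nat_lit 0, nat_lit 0, nat_lit 0, nat_lit 0, false, false⟩,
 nat_lit 0, nat_lit 7096, nat_lit 0, nat_lit 0, nat_lit 5531, nat_lit 5240, nat_lit 2288, nat_lit 0, nat_lit 0, nat_lit 0, nat_lit 0, nat_lit 0, nat_lit 0, nat_lit 0, nat_lit 0, nat_lit 0, nat_lit 0, nat_lit 0, [],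
 ⟨p089_k27, nat_lit 0, nat_lit 0, nat_lit 605, nat_lit 0, nat_lit 1344089, [nat_lit 2032000001, nat_lit 4688000000, nat_lit 6250000000], [], [nat_lit 19496561686, nat_lit 19948946043, nat_lit 21136458070, nat_lit 21547725759, nat_lit 21036609741, nat_lit 21428946019, nat_lit 23225624208, nat_lit 24006445588], nat_lit 1271250, nat_lit 1271250, nat_lit 719601, nat_lit 1758000, nat_lit 1100001, nat_lit 1819250, [nat_lit 490000, nat_lit 1100000, nat_lit 1442500], [nat_lit 6, nat_lit 40, nat_lit 40, nat_lit 80, nat_lit 3, nat_lit 345, nat_lit 125, nat_lit 12]⟩, ⟨p089_k21, nat_lit 0, nat_lit 0, nat_lit 57, nat_lit 0, nat_lit 0, [nat_lit 3282000000, nat_lit 6250000000, nat_lit 9842000000], [], [nat_lit 12186762432, nat_lit 15949181888, nat_lit 16735516960, nat_lit 19690142400, nat_lit 20049815761, nat_lit 23048244024, nat_lit 22901539920, nat_lit 25280077000], nat_lit 0, nat_lit 0, nat_lit 0, nat_lit 0, nat_lit 0, nat_lit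 0, [], [nat_lit 8, nat_lit 40, nat_lit 40, nat_lit 80, nat_lit 1, nat_lit 373, nat_lit 150, nat_lit 10]⟩,
 zbF0, [⟨nat_lit 0, nat_lit 100, nat_lit 83, nat_lit 98, nat_lit 351022526⟩, ⟨nat_lit 16, nat_lit 78, nat_lit 100, nat_lit 82, nat_lit 459770805⟩, ⟨nat_lit 19, nat_lit 100, nat_lit 95, nat_lit 87, nat_lit 500888044⟩]⟩
noncomputable def b_V_800_700_10_7 : St := ⟨true, nat_lit 1, nat_lit 0, nat_lit 1, nat_lit 80, nat_lit 320, nat_lit 340, nat_lit 280, nat_lit 320, nat_lit 100, nat_lit 240, nat_lit 40, nat_lit 80, nat_lit 160, nat_lit 260, nat_lit 160, nat_lit 300, nat_lit 0, nat_lit 40, nat_lit 0, nat_lit 0, nat_lit 0, nat_lit 0⟩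
theorem d_V_800_700_10_7 (h : EB TB.env) : Dead b_V_800_700_10_7 := chkB_sound0 h (T :=
(.spl (nat_lit 0) (nat_lit 330)
(.spl (nat_lit 2) (nat_lit 160)
(.spl (nat_lit 6) (nat_lit 20)
(.spl (nat_lit 3) (nat_lit 60)
(.trX (nat_lit 16) (nat_lit 81) (nat_lit 100) (nat_lit 72) (nat_lit 232) (.trX (nat_lit 19) (nat_lit 99) (nat_lit 100) (nat_lit 77) (nat_lit 276) (.spl (nat_lit 6) (nat_lit 8)
(.spl (nat_lit 6) (nat_lit 4)
(.leaf p089_l128)
(.leaf p089_l129))
(.leaf p089_l130))))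
(.spl (nat_lit 1) (nat_lit 300)
(.spl (nat_lit 2) (nat_lit 120)
(.leaf p089_l131)
(.leaf p089_l132))
(.trZ (nat_lit 0) (nat_lit 94) (nat_lit 87) (nat_lit 100) (nat_lit 120) (.trX (nat_lit 19) (nat_lit 94) (nat_lit 100) (nat_lit 87) (nat_lit 280) (.spl (nat_lit 6) (nat_lit 8)
(.spl (nat_lit 6) (nat_lit 4)
(.leaf p089_l133)
(.leaf p089_l134))
(.leaf p089_l135))))))
(.leaf p089_l136))
(.spl (nat_lit 3) (nat_lit 60)
(.trX (nat_lit 16) (nat_lit 81) (nat_lit 100) (nat_lit 72) (nat_lit 232) (.trX (nat_lit 19) (nat_lit 99) (nat_lit 100) (nat_lit 77) (nat_lit 276) (.spl (nat_lit 6) (nat_lit 20)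
(.spl (nat_lit 0) (nat_lit 325)
(.spl (nat_lit 0) (nat_lit 323)
(.leaf p089_l137)
(.trX (nat_lit 16) (nat_lit 80) (nat_lit 100) (nat_lit 72) (nat_lit 228) (.leaf p089_l138)))
(.trX (nat_lit 16) (nat_lit 79) (nat_lit 100) (nat_lit 72) (nat_lit 224) (.leaf p089_l139)))
(.leaf p089_l140))))
(.spl (nat_lit 6) (nat_lit 20)
(.spl (nat_lit 5) (nat_lit 240)
(.leaf p089_l141)
(.spl (nat_lit 0) (nat_lit 325)
(.leaf p089_l142)
(.trX (nat_lit 16) (nat_lit 81) (nat_lit 100) (nat_lit 83) (nat_lit 252) (.leaf p089_l143))))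
(.leaf p089_l144))))
(.trZ (nat_lit 0) (nat_lit 100) (nat_lit 83) (nat_lit 98) (nat_lit 112) (.trX (nat_lit 16) (nat_lit 78) (nat_lit 100) (nat_lit 82) (nat_lit 244) (.leaf p089_l145))))) (by decide +kernel)

end B2
end Pool.Agent.Lib.MP_6947cd_al
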