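import Pool.Agent.Lib.MP_6947cd_al.ZB.Pre

/-!
Problem MP_6947cd_al (Chollet).  Case B, second entry in [2/5, 17/20]: certificates of the tree, part P091 (generated).
-/

set_option autoImplicit false
set_option linter.all false

namespace Pool.Agent.Lib.MP_6947cd_al
namespace B2

open Ent Fr B1 PkA

noncomputable def p091_k0 : C1.Kn := ⟨[nat_lit 40, nat_lit 80, nat_lit 120], [nat_lit 0, nat_lit 795, nat_lit 2800], [(nat_lit 0, nat_lit 0, nat_lit 0), (nat_lit 1000, nat_lit 814, nat_lit 310), (nat_lit 1000, nat_lit 719, nat_lit 783)], (nat_lit 71, nat_lit 100, nat_lit 71)⟩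
noncomputable def p091_k1 : C1.Kn := ⟨[nat_lit 60, nat_lit 100, nat_lit 140], [nat_lit 0, nat_lit 0, nat_lit 2047], [(nat_lit 0, nat_lit 0, nat_lit 0), (nat_lit 0, nat_lit 0, nat_lit 0), (nat_lit 1000, nat_lit 993, nat_lit 781)], (nat_lit 99, nat_lit 100, nat_lit 77)⟩
noncomputable def p091_k2 : C1.Kn := ⟨[nat_lit 40, nat_lit 80, nat_lit 100], [nat_lit 0, nat_lit 994, nat_lit 1992], [(nat_lit 0, nat_lit 0, nat_lit 0), (nat_lit 1000, nat_lit 767, nat_lit 387), (nat_lit 1000, nat_lit 689, nat_lit 725)], (nat_lit 69, nat_lit 100, nat_lit 71)⟩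
noncomputable def p091_k3 : C1.Kn := ⟨[nat_lit 40, nat_lit 80, nat_lit 100], [nat_lit 0, nat_lit 1195, nat_lit 2166], [(nat_lit 0, nat_lit 0, nat_lit 0), (nat_lit 1000, nat_lit 720, nat_lit 465), (nat_lit 1000, nat_lit 662, nat_lit 740)], (nat_lit 66, nat_lit 100, nat_lit 72)⟩
noncomputable def p091_k4 : C1.Kn := ⟨[nat_lit 60, nat_lit 100, nat_lit 140], [nat_lit 0, nat_lit 151, nat_lit 2175], [(nat_lit 0, nat_lit 0, nat_lit 0), (nat_lit 1000, nat_lit 977, nat_lit 59), (nat_lit 1000, nat_lit 974, nat_lit 785)], (nat_lit 97, nat_lit 100, nat_lit 76)⟩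
noncomputable def p091_k5 : C1.Kn := ⟨[nat_lit 60, nat_lit 100, nat_lit 140], [nat_lit 0, nat_lit 302, nat_lit 2304], [(nat_lit 0, nat_lit 0, nat_lit 0), (nat_lit 1000, nat_lit 953, nat_lit 118), (nat_lit 1000, nat_lit 952, nat_lit 781)], (nat_lit 94, nat_lit 100, nat_lit 75)⟩
noncomputable def p091_k6 : C1.Kn := ⟨[nat_lit 40, nat_lit 80, nat_lit 100], [nat_lit 0, nat_lit 1399, nat_lit 2349], [(nat_lit 0, nat_lit 0, nat_lit 0), (nat_lit 1000, nat_lit 672, nat_lit 546), (nat_lit 1000, nat_lit 633, nat_lit 742)], (nat_lit 63, nat_lit 100, nat_lit 72)⟩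
noncomputable def p091_k7 : C1.Kn := ⟨[nat_lit 60, nat_lit 100, nat_lit 140], [nat_lit 0, nat_lit 455, nat_lit 2431], [(nat_lit 0, nat_lit 0, nat_lit 0), (nat_lit 1000, nat_lit 929, nat_lit 178), (nat_lit 1000, nat_lit 928, nat_lit 770)], (nat_lit 92, nat_lit 100, nat_lit 75)⟩
noncomputable def p091_k8 : C1.Kn := ⟨[nat_lit 40, nat_lit 80, nat_lit 120], [nat_lit 0, nat_lit 795, nat_lit 2800], [(nat_lit 0, nat_lit 0, nat_lit 0), (nat_lit 1000, nat_lit 814, nat_lit 310), (nat_lit 1000, nat_lit 719, nat_lit 783)], (nat_lit 72, nat_lit 100, nat_lit 81)⟩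
noncomputable def p091_k9 : C1.Kn := ⟨[nat_lit 60, nat_lit 100, nat_lit 160], [nat_lit 0, nat_lit 0, nat_lit 3069], [(nat_lit 0, nat_lit 0, nat_lit 0), (nat_lit 0, nat_lit 0, nat_lit 0), (nat_lit 1000, nat_lit 999, nat_lit 798)], (nat_lit 100, nat_lit 95, nat_lit 87)⟩
noncomputable def p091_k10 : C1.Kn := ⟨[nat_lit 60, nat_lit 100, nat_lit 160], [nat_lit 0, nat_lit 302, nat_lit 3303], [(nat_lit 0, nat_lit 0, nat_lit 0), (nat_lit 1000, nat_lit 953, nat_lit 118), (nat_lit 1000, nat_lit 952, nat_lit 781)], (nat_lit 100, nat_lit 100, nat_lit 89)⟩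
noncomputable def p091_k11 : C1.Kn := ⟨[nat_lit 40, nat_lit 80, nat_lit 120], [nat_lit 0, nat_lit 1195, nat_lit 3135], [(nat_lit 0, nat_lit 0, nat_lit 0), (nat_lit 1000, nat_lit 720, nat_lit 465), (nat_lit 1000, nat_lit 661, nat_lit 757)], (nat_lit 66, nat_lit 100, nat_lit 80)⟩
noncomputable def p091_k12 : C1.Kn := ⟨[nat_lit 60, nat_lit 100, nat_lit 160], [nat_lit 0, nat_lit 151, nat_lit 3185], [(nat_lit 0, nat_lit 0, nat_lit 0), (nat_lit 1000, nat_lit 977, nat_lit 59), (nat_lit 1000, nat_lit 976, nat_lit 789)], (nat_lit 100, nat_lit 98, nat_lit 88)⟩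
noncomputable def p091_k13 : C1.Kn := ⟨[nat_lit 40, nat_lit 60, nat_lit 120], [nat_lit 0, nat_lit 398, nat_lit 2180], [(nat_lit 0, nat_lit 0, nat_lit 0), (nat_lit 1000, nat_lit 814, nat_lit 310), (nat_lit 1000, nat_lit 752, nat_lit 464)], (nat_lit 71, nat_lit 100, nat_lit 71)⟩
noncomputable def p091_k14 : C1.Kn := ⟨[nat_lit 60, nat_lit 80, nat_lit 140], [nat_lit 0, nat_lit 0, nat_lit 1595], [(nat_lit 0, nat_lit 0, nat_lit 0), (nat_lit 0, nat_lit 0, nat_lit 0), (nat_lit 1000, nat_lit 917, nat_lit 415)], (nat_lit 99, nat_lit 100, nat_lit 77)⟩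
noncomputable def p091_k15 : C1.Kn := ⟨[nat_lit 60, nat_lit 80, nat_lit 140], [nat_lit 0, nat_lit 151, nat_lit 1731], [(nat_lit 0, nat_lit 0, nat_lit 0), (nat_lit 1000, nat_lit 953, nat_lit 118), (nat_lit 1000, nat_lit 894, nat_lit 411)], (nat_lit 94, nat_lit 100, nat_lit 75)⟩
noncomputable def p091_k16 : C1.Kn := ⟨[nat_lit 60, nat_lit 100, nat_lit 160], [nat_lit 0, nat_lit 455, nat_lit 3416], [(nat_lit 0, nat_lit 0, nat_lit 0), (nat_lit 1000, nat_lit 929, nat_lit 178), (nat_lit 1000, nat_lit 928, nat_lit 770)], (nat_lit 97, nat_lit 100, nat_lit 88)⟩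
noncomputable def p091_k17 : C1.Kn := ⟨[nat_lit 40, nat_lit 80, nat_lit 140], [nat_lit 0, nat_lit 0, nat_lit 3199], [(nat_lit 0, nat_lit 0, nat_lit 0), (nat_lit 0, nat_lit 0, nat_lit 0), (nat_lit 1000, nat_lit 833, nat_lit 833)], (nat_lit 83, nat_lit 100, nat_lit 83)⟩
noncomputable def p091_k18 : C1.Kn := ⟨[nat_lit 60, nat_lit 100, nat_lit 140], [nat_lit 0, nat_lit 609, nat_lit 2558], [(nat_lit 0, nat_lit 0, nat_lit 0), (nat_lit 1000, nat_lit 905, nat_lit 238), (nat_lit 1000, nat_lit 904, nat_lit 760)], (nat_lit 94, nat_lit 100, nat_lit 87)⟩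
noncomputable def p091_k19 : C1.Kn := ⟨[nat_lit 40, nat_lit 80, nat_lit 140], [nat_lit 0, nat_lit 395, nat_lit 3500], [(nat_lit 0, nat_lit 0, nat_lit 0), (nat_lit 1000, nat_lit 908, nat_lit 154), (nat_lit 1000, nat_lit 776, nat_lit 808)], (nat_lit 78, nat_lit 100, nat_lit 82)⟩
noncomputable def p091_k20 : C1.Kn := ⟨[nat_lit 60, nat_lit 100, nat_lit 140], [nat_lit 0, nat_lit 909, nat_lit 2819], [(nat_lit 0, nat_lit 0, nat_lit 0), (nat_lit 1000, nat_lit 858, nat_lit 354), (nat_lit 1000, nat_lit 858, nat_lit 746)], (nat_lit 89, nat_lit 100, nat_lit 85)⟩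
noncomputable def p091_k21 : C1.Kn := ⟨[nat_lit 40, nat_lit 60, nat_lit 120], [nat_lit 0, nat_lit 0, nat_lit 1823], [(nat_lit 0, nat_lit 0, nat_lit 0), (nat_lit 0, nat_lit 0, nat_lit 0), (nat_lit 1000, nat_lit 810, nat_lit 474)], (nat_lit 81, nat_lit 100, nat_lit 72)⟩
noncomputable def p091_k22 : C1.Kn := ⟨[nat_lit 60, nat_lit 80, nat_lit 140], [nat_lit 0, nat_lit 75, nat_lit 1666], [(nat_lit 0, nat_lit 0, nat_lit 0), (nat_lit 1000, nat_lit 977, nat_lit 59), (nat_lit 1000, nat_lit 905, nat_lit 414)], (nat_lit 97, nat_lit 100, nat_lit 76)⟩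
noncomputable def p091_k23 : C1.Kn := ⟨[nat_lit 30, nat_lit 50, nat_lit 110], [nat_lit 0, nat_lit 247, nat_lit 2267], [(nat_lit 0, nat_lit 0, nat_lit 0), (nat_lit 1000, nat_lit 866, nat_lit 192), (nat_lit 1000, nat_lit 698, nat_lit 526)], (nat_lit 66, nat_lit 100, nat_lit 80)⟩
noncomputable def p091_k24 : C1.Kn := ⟨[nat_lit 60, nat_lit 80, nat_lit 160], [nat_lit 0, nat_lit 0, nat_lit 2127], [(nat_lit 0, nat_lit 0, nat_lit 0), (nat_lit 0, nat_lit 0, nat_lit 0), (nat_lit 1000, nat_lit 917, nat_lit 415)], (nat_lit 100, nat_lit 95, nat_lit 87)⟩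
noncomputable def p091_k25 : C1.Kn := ⟨[nat_lit 30, nat_lit 50, nat_lit 110], [nat_lit 0, nat_lit 0, nat_lit 2047], [(nat_lit 0, nat_lit 0, nat_lit 0), (nat_lit 0, nat_lit 0, nat_lit 0), (nat_lit 1000, nat_lit 734, nat_lit 533)], (nat_lit 71, nat_lit 100, nat_lit 71)⟩
noncomputable def p091_k26 : C1.Kn := ⟨[nat_lit 40, nat_lit 100, nat_lit 140], [nat_lit 0, nat_lit 0, nat_lit 3243], [(nat_lit 0, nat_lit 0, nat_lit 0), (nat_lit 0, nat_lit 0, nat_lit 0), (nat_lit 1000, nat_lit 870, nat_lit 941)], (nat_lit 83, nat_lit 100, nat_lit 83)⟩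
noncomputable def p091_k27 : C1.Kn := ⟨[nat_lit 60, nat_lit 120, nat_lit 140], [nat_lit 0, nat_lit 913, nat_lit 2600], [(nat_lit 0, nat_lit 0, nat_lit 0), (nat_lit 1000, nat_lit 905, nat_lit 238), (nat_lit 1000, nat_lit 943, nat_lit 874)], (nat_lit 94, nat_lit 100, nat_lit 87)⟩
noncomputable def p091_k28 : C1.Kn := ⟨[nat_lit 60, nat_lit 120, nat_lit 140], [nat_lit 0, nat_lit 1362, nat_lit 2909], [(nat_lit 0, nat_lit 0, nat_lit 0), (nat_lit 1000, nat_lit 858, nat_lit 354), (nat_lit 1000, nat_lit 909, nat_lit 910)], (nat_lit 89, nat_lit 100, nat_lit 85)⟩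
noncomputable def p091_k29 : C1.Kn := ⟨[nat_lit 40, nat_lit 100, nat_lit 120], [nat_lit 0, nat_lit 0, nat_lit 2151], [(nat_lit 0, nat_lit 0, nat_lit 0), (nat_lit 0, nat_lit 0, nat_lit 0), (nat_lit 1000, nat_lit 815, nat_lit 753)], (nat_lit 81, nat_lit 100, nat_lit 72)⟩
noncomputable def p091_k30 : C1.Kn := ⟨[nat_lit 60, nat_lit 120, nat_lit 140], [nat_lit 0, nat_lit 913, nat_lit 2600], [(nat_lit 0, nat_lit 0, nat_lit 0), (nat_lit 1000, nat_lit 905, nat_lit 238), (nat_lit 1000, nat_lit 943, nat_lit 874)], (nat_lit 90, nat_lit 100, nat_lit 74)⟩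
noncomputable def p091_k31 : C1.Kn := ⟨[nat_lit 60, nat_lit 120, nat_lit 160], [nat_lit 0, nat_lit 0, nat_lit 3243], [(nat_lit 0, nat_lit 0, nat_lit 0), (nat_lit 0, nat_lit 0, nat_lit 0), (nat_lit 878, nat_lit 1000, nat_lit 945)], (nat_lit 100, nat_lit 95, nat_lit 87)⟩
noncomputable def p091_k32 : C1.Kn := ⟨[nat_lit 40, nat_lit 120], [nat_lit 0, nat_lit 1589], [(nat_lit 0, nat_lit 0, nat_lit 0), (nat_lit 1000, nat_lit 814, nat_lit 310)], (nat_lit 72, nat_lit 100, nat_lit 81)⟩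
noncomputable def p091_k33 : C1.Kn := ⟨[nat_lit 60, nat_lit 160], [nat_lit 0, nat_lit 0], [(nat_lit 0, nat_lit 0, nat_lit 0), (nat_lit 0, nat_lit 0, nat_lit 0)], (nat_lit 100, nat_lit 95, nat_lit 87)⟩
noncomputable def p091_k34 : C1.Kn := ⟨[nat_lit 60, nat_lit 140], [nat_lit 0, nat_lit 1218], [(nat_lit 0, nat_lit 0, nat_lit 0), (nat_lit 1000, nat_lit 905, nat_lit 238)], (nat_lit 94, nat_lit 100, nat_lit 87)⟩
noncomputable def p091_k35 : C1.Kn := ⟨[nat_lit 40, nat_lit 100, nat_lit 120], [nat_lit 0, nat_lit 1192, nat_lit 2817], [(nat_lit 0, nat_lit 0, nat_lit 0), (nat_lit 1000, nat_lit 814, nat_lit 310), (nat_lit 1000, nat_lit 727, nat_lit 834)], (nat_lit 72, nat_lit 100, nat_lit 81)⟩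
noncomputable def p091_k36 : C1.Kn := ⟨[nat_lit 40, nat_lit 80, nat_lit 120], [nat_lit 0, nat_lit 0, nat_lit 2151], [(nat_lit 0, nat_lit 0, nat_lit 0), (nat_lit 0, nat_lit 0, nat_lit 0), (nat_lit 1000, nat_lit 815, nat_lit 753)], (nat_lit 81, nat_lit 100, nat_lit 72)⟩
noncomputable def p091_k37 : C1.Kn := ⟨[nat_lit 60, nat_lit 100, nat_lit 140], [nat_lit 0, nat_lit 609, nat_lit 2558], [(nat_lit 0, nat_lit 0, nat_lit 0), (nat_lit 1000, nat_lit 905, nat_lit 238), (nat_lit 1000, nat_lit 904, nat_lit 760)], (nat_lit 90, nat_lit 100, nat_lit 74)⟩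
noncomputable def p091_l0 : Lf2 := ⟨nat_lit 0, nat_lit 15, [nat_lit 30, nat_lit 5, nat_lit 5, nat_lit 20], false, nat_lit 0, nat_lit 80, nat_lit 0, nat_lit 160, ⟨nat_lit 1000, nat_lit 0, nat_lit 0, nat_lit 0, nat_lit 0, nat_lit 0, nat_lit 0, nat_lit 0, nat_lit 0, nat_lit 0, nat_lit 0, nat_lit 0, nat_lit 0, nat_lit 0, nat_lit 0, nat_lit 0, false, false⟩,
 nat_lit 0, nat_lit 0, nat_lit 11798, nat_lit 0, nat_lit 3998, nat_lit 7507, nat_lit 755, nat_lit 0, nat_lit 0, nat_lit 633, nat_lit 0, nat_lit 0, nat_lit 0, nat_lit 0, nat_lit 0, nat_lit 0, nat_lit 0, nat_lit 0, [],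
 ⟨p091_k0, nat_lit 0, nat_lit 0, nat_lit 191, nat_lit 0, nat_lit 0, [nat_lit 2032000001, nat_lit 4688000000, nat_lit 7968000000], [], [nat_lit 28772423948, nat_lit 28997942600, nat_lit 32991174768, nat_lit 33279496452, nat_lit 27148816496, nat_lit 27362078375, nat_lit 30556414624, nat_lit 30757855750], nat_lit 0, nat_lit 0, nat_lit 0, nat_lit 0, nat_lit 0, nat_lit 0, [], [nat_lit 34, nat_lit 40, nat_lit 40, nat_lit 80, nat_lit 7, nat_lit 226, nat_lit 20, nat_lit 6]⟩, ⟨p091_k1, nat_lit 0, nat_lit 0, nat_lit 626, nat_lit 0, nat_lit 1006765, [nat_lit 3282000000, nat_lit 6250000000, nat_lit 9842000000], [], [nat_lit 37172435010, nat_lit 37328813077, nat_lit 39183423245, nat_lit 39330230041, nat_lit 32557959377, nat_lit 32715915515, nat_lit 34486702460, nat_lit 34634600097], nat_lit 1271250, nat_lit 1271250, nat_lit 1271250, nat_lit 1271250, nat_lit 0, nat_lit 1100001, [nat_lit 780000, nat_lit 1435000, nat_lit 1271250],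 [nat_lit 8, nat_lit 40, nat_lit 40, nat_lit 80, nat_lit 1, nat_lit 262, nat_lit 40, nat_lit 7]⟩,
 zbF0, []⟩
noncomputable def p091_l1 : Lf2 := ⟨nat_lit 0, nat_lit 15, [nat_lit 30, nat_lit 5, nat_lit 5, nat_lit 20], false, nat_lit 0, nat_lit 80, nat_lit 0, nat_lit 160, ⟨nat_lit 737, nat_lit 263, nat_lit 0, nat_lit 8, nat_lit 336, nat_lit 263, nat_lit 29, nat_lit 0, nat_lit 0, nat_lit 0, nat_lit 0, nat_lit 0, nat_lit 39297398, nat_lit 27702602, nat_lit 0, nat_lit 3390485, true, true⟩,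
 nat_lit 0, nat_lit 0, nat_lit 8687, nat_lit 0, nat_lit 3492, nat_lit 5527, nat_lit 514, nat_lit 0, nat_lit 0, nat_lit 467, nat_lit 0, nat_lit 0, nat_lit 0, nat_lit 0, nat_lit 0, nat_lit 105200, nat_lit 0, nat_lit 0, [(nat_lit 22, [(nat_lit 1, nat_lit 263)])],
 ⟨p091_k2, nat_lit 0, nat_lit 0, nat_lit 175, nat_lit 0, nat_lit 0, [nat_lit 1854843201, nat_lit 3851344400, nat_lit 4994122400], [], [nat_lit 28439578291, nat_lit 28668775345, nat_lit 31826176256, nat_lit 32098732043, nat_lit 27184288741, nat_lit 27401085245, nat_lit 30226126981, nat_lit 30416123796], nat_lit 0, nat_lit 0, nat_lit 0, nat_lit 0, nat_lit 0, nat_lit 0, [], [nat_lit 6, nat_lit 40, nat_lit 40, nat_lit 80, nat_lit 3, nat_lit 226, nat_lit 20, nat_lit 7]⟩, ⟨p091_k1, nat_lit 0, nat_lit 0, nat_lit 651, nat_lit 0, nat_lit 1076527, [nat_lit 2418834000, nat_lit 4606250000, nat_lit 7253554000], [], [nat_lit 27413211038, nat_lit 27528483851, nat_lit 28897237823,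 nat_lit 29007805856, nat_lit 24019784651, nat_lit 24136216807, nat_lit 25443253633, nat_lit 25552279627], nat_lit 1271250, nat_lit 1271250, nat_lit 1271250, nat_lit 1271250, nat_lit 0, nat_lit 1100001, [nat_lit 780000, nat_lit 1435000, nat_lit 1271250], [nat_lit 8, nat_lit 40, nat_lit 40, nat_lit 80, nat_lit 1, nat_lit 268, nat_lit 40, nat_lit 7]⟩,
 ⟨nat_lit 3535, nat_lit 3709, ⟨.ofNat (nat_lit 778408), .ofNat (nat_lit 892972), .ofNat (nat_lit 789342), .ofNat (nat_lit 903906), .ofNat (nat_lit 776092), .ofNat (nat_lit 889064), .ofNat (nat_lit 787068), .ofNat (nat_lit 900040)⟩, ⟨.ofNat (nat_lit 0), .ofNat (nat_lit 134114), .ofNat (nat_lit 0), .ofNat (nat_lit 155983), .ofNat (nat_lit 0), .ofNat (nat_lit 136093), .ofNat (nat_lit 0), .ofNat (nat_lit 158046)⟩⟩, []⟩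
noncomputable def p091_l2 : Lf2 := ⟨nat_lit 0, nat_lit 15, [nat_lit 30, nat_lit 5, nat_lit 5, nat_lit 20], false, nat_lit 0, nat_lit 80, nat_lit 0, nat_lit 160, ⟨nat_lit 223, nat_lit 777, nat_lit 0, nat_lit 8, nat_lit 324, nat_lit 777, nat_lit 30, nat_lit 0, nat_lit 0, nat_lit 0, nat_lit 0, nat_lit 0, nat_lit 40447541, nat_lit 26552459, nat_lit 0, nat_lit 3357425, true, true⟩,
 nat_lit 0, nat_lit 0, nat_lit 2815, nat_lit 0, nat_lit 2840, nat_lit 1791, nat_lit 321, nat_lit 0, nat_lit 0, nat_lit 134, nat_lit 0, nat_lit 0, nat_lit 0, nat_lit 0, nat_lit 0, nat_lit 277050, nat_lit 0, nat_lit 0, [(nat_lit 22, [(nat_lit 0, nat_lit 225), (nat_lit 1, nat_lit 552)])],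
 ⟨p091_k3, nat_lit 0, nat_lit 0, nat_lit 167, nat_lit 0, nat_lit 0, [nat_lit 1555772801, nat_lit 2320607601, nat_lit 2732269600], [], [nat_lit 26784302757, nat_lit 27209901917, nat_lit 28383875452, nat_lit 28809888480, nat_lit 25966117757, nat_lit 26369637917, nat_lit 27479464637, nat_lit 27849406877], nat_lit 0, nat_lit 0, nat_lit 0, nat_lit 0, nat_lit 0, nat_lit 0, [], [nat_lit 6, nat_lit 40, nat_lit 40, nat_lit 80, nat_lit 3, nat_lit 226, nat_lit 20, nat_lit 7]⟩, ⟨p091_k1, nat_lit 0, nat_lit 0, nat_lit 727, nat_lit 0, nat_lit 1221308, [nat_lit 731886000, nat_lit 1393750000, nat_lit 2194766000], [], [nat_lit 8071772082, nat_lit 8102898478, nat_lit 8260032850, nat_lit 8287163884, nat_lit 7003082328, nat_lit 7034239818, nat_lit 7188527032, nat_lit 7214219257], nat_lit 1271250, nat_lit 1271250, nat_lit 1271250, nat_lit 1271250, nat_lit 0, nat_lit 1100001, [nat_lit 780000, nat_lit 1435000, nat_lit 1271250], [nat_lit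 8, nat_lit 40, nat_lit 40, nat_lit 80, nat_lit 1, nat_lit 283, nat_lit 40, nat_lit 7]⟩,
 ⟨nat_lit 3162, nat_lit 3536, ⟨.ofNat (nat_lit 776092), .ofNat (nat_lit 838855), .ofNat (nat_lit 787064), .ofNat (nat_lit 849831), .ofNat (nat_lit 771477), .ofNat (nat_lit 832432), .ofNat (nat_lit 782550), .ofNat (nat_lit 843509)⟩, ⟨.ofNat (nat_lit 0), .ofNat (nat_lit 136093), .ofNat (nat_lit 0), .ofNat (nat_lit 158046), .ofNat (nat_lit 0), .ofNat (nat_lit 139899), .ofNat (nat_lit 0), .ofNat (nat_lit 162054)⟩⟩, [⟨nat_lit 9, nat_lit 100, nat_lit 89, nat_lit 16, nat_lit 996979⟩]⟩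
noncomputable def p091_l3 : Lf2 := ⟨nat_lit 0, nat_lit 15, [nat_lit 30, nat_lit 5, nat_lit 5, nat_lit 20], false, nat_lit 0, nat_lit 80, nat_lit 0, nat_lit 160, ⟨nat_lit 203, nat_lit 797, nat_lit 0, nat_lit 9, nat_lit 343, nat_lit 797, nat_lit 30, nat_lit 0, nat_lit 0, nat_lit 0, nat_lit 0, nat_lit 0, nat_lit 38630614, nat_lit 28369386, nat_lit 0, nat_lit 3406864, true, true⟩,
 nat_lit 0, nat_lit 0, nat_lit 2501, nat_lit 0, nat_lit 2929, nat_lit 1591, nat_lit 195, nat_lit 0, nat_lit 0, nat_lit 116, nat_lit 0, nat_lit 0, nat_lit 0, nat_lit 0, nat_lit 0, nat_lit 318800, nat_lit 0, nat_lit 0, [(nat_lit 22, [(nat_lit 1, nat_lit 797)])],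
 ⟨p091_k3, nat_lit 0, nat_lit 0, nat_lit 175, nat_lit 0, nat_lit 0, [nat_lit 1495140801, nat_lit 2152583601, nat_lit 2444165600], [], [nat_lit 29092293106, nat_lit 29484987991, nat_lit 30121862246, nat_lit 30492986317, nat_lit 28132223083, nat_lit 28512210663, nat_lit 29167628909, nat_lit 29552198451], nat_lit 0, nat_lit 0, nat_lit 0, nat_lit 0, nat_lit 0, nat_lit 0, [], [nat_lit 6, nat_lit 40, nat_lit 40, nat_lit 80, nat_lit 3, nat_lit 226, nat_lit 20, nat_lit 7]⟩, ⟨p091_k1, nat_lit 0, nat_lit 0, nat_lit 711, nat_lit 0, nat_lit 1186249, [nat_lit 666246000, nat_lit 1268750000, nat_lit 1997926000], [], [nat_lit 7754437992, nat_lit 7765359312, nat_lit 7876129808, nat_lit 7886313534, nat_lit 6778325124, nat_lit 6786839666, nat_lit 6888284909, nat_lit 6898623393], nat_lit 1271250, nat_lit 1271250, nat_lit 1271250, nat_lit 1271250, nat_lit 0, nat_lit 1100001, [nat_lit 780000, nat_lit 1435000, nat_lit 1271250], [nat_lit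 8, nat_lit 40, nat_lit 40, nat_lit 80, nat_lit 1, nat_lit 282, nat_lit 40, nat_lit 7]⟩,
 ⟨nat_lit 3162, nat_lit 3536, ⟨.ofNat (nat_lit 838855), .ofNat (nat_lit 876512), .ofNat (nat_lit 844343), .ofNat (nat_lit 882000), .ofNat (nat_lit 832432), .ofNat (nat_lit 869004), .ofNat (nat_lit 837970), .ofNat (nat_lit 874542)⟩, ⟨.ofNat (nat_lit 0), .ofNat (nat_lit 136093), .ofNat (nat_lit 0), .ofNat (nat_lit 158046), .ofNat (nat_lit 0), .ofNat (nat_lit 139899), .ofNat (nat_lit 0), .ofNat (nat_lit 162054)⟩⟩, [⟨nat_lit 13, nat_lit 65, nat_lit 54, nat_lit 100, nat_lit 202874061⟩]⟩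
noncomputable def p091_l4 : Lf2 := ⟨nat_lit 0, nat_lit 15, [nat_lit 30, nat_lit 5, nat_lit 5, nat_lit 20], false, nat_lit 0, nat_lit 80, nat_lit 0, nat_lit 160, ⟨nat_lit 222, nat_lit 778, nat_lit 0, nat_lit 9, nat_lit 346, nat_lit 778, nat_lit 30, nat_lit 0, nat_lit 0, nat_lit 0, nat_lit 0, nat_lit 0, nat_lit 38303225, nat_lit 28696775, nat_lit 0, nat_lit 3414163, true, true⟩,
 nat_lit 0, nat_lit 0, nat_lit 2566, nat_lit 0, nat_lit 2942, nat_lit 1668, nat_lit 199, nat_lit 0, nat_lit 0, nat_lit 131, nat_lit 0, nat_lit 0, nat_lit 0, nat_lit 0, nat_lit 0, nat_lit 311200, nat_lit 0, nat_lit 0, [(nat_lit 22, [(nat_lit 1, nat_lit 778)])],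
 ⟨p091_k3, nat_lit 0, nat_lit 0, nat_lit 176, nat_lit 0, nat_lit 0, [nat_lit 1507939201, nat_lit 2213026401, nat_lit 2534894400], [], [nat_lit 29200924969, nat_lit 29594160199, nat_lit 30403958879, nat_lit 30771692292, nat_lit 28231704415, nat_lit 28605536527, nat_lit 29404906092, nat_lit 29786199639], nat_lit 0, nat_lit 0, nat_lit 0, nat_lit 0, nat_lit 0, nat_lit 0, [], [nat_lit 6, nat_lit 40, nat_lit 40, nat_lit 80, nat_lit 3, nat_lit 226, nat_lit 20, nat_lit 7]⟩, ⟨p091_k4, nat_lit 0, nat_lit 0, nat_lit 710, nat_lit 0, nat_lit 1184046, [nat_lit 728604000, nat_lit 1387500000, nat_lit 2184924000], [], [nat_lit 8462687293, nat_lit 8475790576, nat_lit 8615491666, nat_lit 8626682897, nat_lit 7455108031, nat_lit 7467307548, nat_lit 7603801468, nat_lit 7615151370], nat_lit 1271250, nat_lit 1271250, nat_lit 1271250, nat_lit 1271250, nat_lit 0, nat_lit 1100001, [nat_lit 780000, nat_lit 1435000, nat_lit 1271250], [nat_lit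 8, nat_lit 40, nat_lit 40, nat_lit 80, nat_lit 1, nat_lit 283, nat_lit 40, nat_lit 7]⟩,
 ⟨nat_lit 3162, nat_lit 3536, ⟨.ofNat (nat_lit 844343), .ofNat (nat_lit 888276), .ofNat (nat_lit 849831), .ofNat (nat_lit 893764), .ofNat (nat_lit 837970), .ofNat (nat_lit 880638), .ofNat (nat_lit 843509), .ofNat (nat_lit 886176)⟩, ⟨.ofNat (nat_lit 0), .ofNat (nat_lit 136093), .ofNat (nat_lit 0), .ofNat (nat_lit 158046), .ofNat (nat_lit 0), .ofNat (nat_lit 139899), .ofNat (nat_lit 0), .ofNat (nat_lit 162054)⟩⟩, [⟨nat_lit 13, nat_lit 66, nat_lit 52, nat_lit 100, nat_lit 190096432⟩, ⟨nat_lit 22, nat_lit 54, nat_lit 100, nat_lit 65, nat_lit 2304404⟩]⟩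
noncomputable def p091_l5 : Lf2 := ⟨nat_lit 0, nat_lit 15, [nat_lit 30, nat_lit 5, nat_lit 5, nat_lit 20], false, nat_lit 16, nat_lit 80, nat_lit 160, nat_lit 260, ⟨nat_lit 330, nat_lit 670, nat_lit 0, nat_lit 8, nat_lit 334, nat_lit 670, nat_lit 36, nat_lit 0, nat_lit 0, nat_lit 0, nat_lit 0, nat_lit 0, nat_lit 38930220, nat_lit 27213196, nat_lit 856584, nat_lit 3769764, true, true⟩,
 nat_lit 0, nat_lit 0, nat_lit 3460, nat_lit 0, nat_lit 3375, nat_lit 2201, nat_lit 0, nat_lit 0, nat_lit 0, nat_lit 222, nat_lit 0, nat_lit 0, nat_lit 0, nat_lit 0, nat_lit 0, nat_lit 670000, nat_lit 0, nat_lit 0, [(nat_lit 22, [(nat_lit 2, nat_lit 670)])],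
 ⟨p091_k0, nat_lit 0, nat_lit 0, nat_lit 180, nat_lit 0, nat_lit 0, [nat_lit 1604986667, nat_lit 1543288001, nat_lit 49302667], [], [nat_lit 26307689186, nat_lit 26726659361, nat_lit 30172614150, nat_lit 30721375776, nat_lit 25351340585, nat_lit 25776008294, nat_lit 28165924220, nat_lit 28676922476], nat_lit 0, nat_lit 0, nat_lit 0, nat_lit 0, nat_lit 0, nat_lit 0, [], [nat_lit 34, nat_lit 40, nat_lit 40, nat_lit 80, nat_lit 7, nat_lit 226, nat_lit 20, nat_lit 6]⟩, ⟨p091_k1, nat_lit 0, nat_lit 0, nat_lit 563, nat_lit 0, nat_lit 1076527, [nat_lit 1083060000, nat_lit 2062500000, nat_lit 3247860000], [], [nat_lit 11209319412, nat_lit 11267124887, nat_lit 11827834863, nat_lit 11885211878, nat_lit 11350860651, nat_lit 11404108321, nat_lit 11961996802, nat_lit 12016532859], nat_lit 1271250, nat_lit 1271250, nat_lit 1271250, nat_lit 1271250, nat_lit 1100001, nat_lit 1956250, [nat_lit 780000, nat_lit 1435000, nat_lit 1271250],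 [nat_lit 8, nat_lit 40, nat_lit 40, nat_lit 80, nat_lit 1, nat_lit 289, nat_lit 75, nat_lit 7]⟩,
 ⟨nat_lit 3535, nat_lit 3873, ⟨.ofNat (nat_lit 780730), .ofNat (nat_lit 883971), .ofNat (nat_lit 791624), .ofNat (nat_lit 894867), .ofNat (nat_lit 776087), .ofNat (nat_lit 876512), .ofNat (nat_lit 787061), .ofNat (nat_lit 887487)⟩, ⟨.ofNat (nat_lit 28853), .ofNat (nat_lit 132088), .ofNat (nat_lit 40000), .ofNat (nat_lit 153881), .ofNat (nat_lit 35675), .ofNat (nat_lit 136093), .ofNat (nat_lit 40000), .ofNat (nat_lit 158046)⟩⟩, [⟨nat_lit 22, nat_lit 66, nat_lit 100, nat_lit 66, nat_lit 174971869⟩]⟩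
noncomputable def p091_l6 : Lf2 := ⟨nat_lit 0, nat_lit 15, [nat_lit 30, nat_lit 5, nat_lit 5, nat_lit 20], false, nat_lit 16, nat_lit 80, nat_lit 160, nat_lit 260, ⟨nat_lit 210, nat_lit 790, nat_lit 0, nat_lit 8, nat_lit 332, nat_lit 790, nat_lit 38, nat_lit 0, nat_lit 0, nat_lit 0, nat_lit 0, nat_lit 0, nat_lit 39125672, nat_lit 26966059, nat_lit 908269, nat_lit 3781366, true, true⟩,
 nat_lit 0, nat_lit 0, nat_lit 2694, nat_lit 0, nat_lit 3071, nat_lit 1714, nat_lit 252, nat_lit 0, nat_lit 0, nat_lit 126, nat_lit 0, nat_lit 0, nat_lit 0, nat_lit 0, nat_lit 0, nat_lit 316000, nat_lit 0, nat_lit 0, [(nat_lit 22, [(nat_lit 1, nat_lit 790)])],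
 ⟨p091_k3, nat_lit 0, nat_lit 0, nat_lit 165, nat_lit 0, nat_lit 0, [nat_lit 1499856001, nat_lit 2174852001, nat_lit 2477592000], [], [nat_lit 26579970014, nat_lit 27012579558, nat_lit 29925132251, nat_lit 30454136320, nat_lit 25798016274, nat_lit 26212191078, nat_lit 28342349247, nat_lit 28699949394], nat_lit 0, nat_lit 0, nat_lit 0, nat_lit 0, nat_lit 0, nat_lit 0, [], [nat_lit 6, nat_lit 40, nat_lit 40, nat_lit 80, nat_lit 3, nat_lit 226, nat_lit 20, nat_lit 7]⟩, ⟨p091_k1, nat_lit 0, nat_lit 0, nat_lit 618, nat_lit 0, nat_lit 1221308, [nat_lit 689220000, nat_lit 1312500000, nat_lit 2066820000], [], [nat_lit 6219053412, nat_lit 6243412314, nat_lit 6542057288, nat_lit 6581822753, nat_lit 6181229304, nat_lit 6210706898, nat_lit 6730894781, nat_lit 6838030617], nat_lit 1271250, nat_lit 1271250, nat_lit 1271250, nat_lit 1271250, nat_lit 1100001, nat_lit 1956250, [nat_lit 780000, nat_lit 1435000, nat_lit 1271250], [nat_lit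 8, nat_lit 40, nat_lit 40, nat_lit 80, nat_lit 1, nat_lit 289, nat_lit 75, nat_lit 7]⟩,
 ⟨nat_lit 3162, nat_lit 3536, ⟨.ofNat (nat_lit 776092), .ofNat (nat_lit 876512), .ofNat (nat_lit 787064), .ofNat (nat_lit 887488), .ofNat (nat_lit 771477), .ofNat (nat_lit 869004), .ofNat (nat_lit 782550), .ofNat (nat_lit 880081)⟩, ⟨.ofNat (nat_lit 35673), .ofNat (nat_lit 136093), .ofNat (nat_lit 40000), .ofNat (nat_lit 158046), .ofNat (nat_lit 40000), .ofNat (nat_lit 139899), .ofNat (nat_lit 40000), .ofNat (nat_lit 162054)⟩⟩, [⟨nat_lit 22, nat_lit 66, nat_lit 100, nat_lit 66, nat_lit 167303672⟩]⟩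
noncomputable def p091_l7 : Lf2 := ⟨nat_lit 0, nat_lit 15, [nat_lit 30, nat_lit 5, nat_lit 5, nat_lit 20], false, nat_lit 0, nat_lit 80, nat_lit 0, nat_lit 260, ⟨nat_lit 428, nat_lit 572, nat_lit 0, nat_lit 8, nat_lit 342, nat_lit 572, nat_lit 29, nat_lit 0, nat_lit 0, nat_lit 0, nat_lit 0, nat_lit 0, nat_lit 38694940, nat_lit 28305060, nat_lit 0, nat_lit 3405372, true, true⟩,
 nat_lit 0, nat_lit 0, nat_lit 4268, nat_lit 0, nat_lit 3373, nat_lit 2834, nat_lit 371, nat_lit 0, nat_lit 0, nat_lit 439, nat_lit 0, nat_lit 0, nat_lit 0, nat_lit 0, nat_lit 0, nat_lit 304400, nat_lit 0, nat_lit 0, [(nat_lit 22, [(nat_lit 1, nat_lit 446), (nat_lit 2, nat_lit 126)])],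
 ⟨p091_k0, nat_lit 0, nat_lit 0, nat_lit 193, nat_lit 0, nat_lit 0, [nat_lit 1651270400, nat_lit 2699199201, nat_lit 3544714400], [], [nat_lit 27078942948, nat_lit 27502262752, nat_lit 31486111235, nat_lit 32016440223, nat_lit 25884881746, nat_lit 26294361427, nat_lit 29339107567, nat_lit 29729179543], nat_lit 0, nat_lit 0, nat_lit 0, nat_lit 0, nat_lit 0, nat_lit 0, [], [nat_lit 34, nat_lit 40, nat_lit 40, nat_lit 80, nat_lit 7, nat_lit 226, nat_lit 20, nat_lit 6]⟩, ⟨p091_k5, nat_lit 0, nat_lit 0, nat_lit 653, nat_lit 0, nat_lit 1085278, [nat_lit 1404696000, nat_lit 2675000000, nat_lit 4212376000], [], [nat_lit 15301165416, nat_lit 15381011170, nat_lit 16257378892, nat_lit 16336630878, nat_lit 14005533946, nat_lit 14054099653, nat_lit 14605363517, nat_lit 14653499091], nat_lit 1271250, nat_lit 1271250, nat_lit 1271250, nat_lit 1271250, nat_lit 0, nat_lit 1836250, [nat_lit 780000, nat_lit 1435000, nat_lit 1271250],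 [nat_lit 8, nat_lit 40, nat_lit 40, nat_lit 80, nat_lit 1, nat_lit 289, nat_lit 75, nat_lit 8]⟩,
 ⟨nat_lit 3535, nat_lit 3873, ⟨.ofNat (nat_lit 791624), .ofNat (nat_lit 914224), .ofNat (nat_lit 802518), .ofNat (nat_lit 925119), .ofNat (nat_lit 787061), .ofNat (nat_lit 906316), .ofNat (nat_lit 798034), .ofNat (nat_lit 917291)⟩, ⟨.ofNat (nat_lit 0), .ofNat (nat_lit 132088), .ofNat (nat_lit 0), .ofNat (nat_lit 153881), .ofNat (nat_lit 0), .ofNat (nat_lit 136093), .ofNat (nat_lit 0), .ofNat (nat_lit 158046)⟩⟩, [⟨nat_lit 10, nat_lit 100, nat_lit 58, nat_lit 64, nat_lit 109631886⟩]⟩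
noncomputable def p091_l8 : Lf2 := ⟨nat_lit 0, nat_lit 15, [nat_lit 30, nat_lit 5, nat_lit 5, nat_lit 20], false, nat_lit 0, nat_lit 80, nat_lit 0, nat_lit 260, ⟨nat_lit 275, nat_lit 725, nat_lit 0, nat_lit 8, nat_lit 329, nat_lit 725, nat_lit 30, nat_lit 0, nat_lit 0, nat_lit 0, nat_lit 0, nat_lit 0, nat_lit 39960352, nat_lit 27039648, nat_lit 0, nat_lit 3372175, true, true⟩,
 nat_lit 0, nat_lit 0, nat_lit 3104, nat_lit 0, nat_lit 3042, nat_lit 2061, nat_lit 317, nat_lit 0, nat_lit 0, nat_lit 182, nat_lit 0, nat_lit 0, nat_lit 0, nat_lit 0, nat_lit 0, nat_lit 290000, nat_lit 0, nat_lit 0, [(nat_lit 22, [(nat_lit 1, nat_lit 725)])],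
 ⟨p091_k3, nat_lit 0, nat_lit 0, nat_lit 166, nat_lit 0, nat_lit 0, [nat_lit 1543640000, nat_lit 2381630000, nat_lit 2787980000], [], [nat_lit 26688506569, nat_lit 26906386348, nat_lit 28781692218, nat_lit 29067588621, nat_lit 25731057719, nat_lit 25937476323, nat_lit 27276832063, nat_lit 27465654919], nat_lit 0, nat_lit 0, nat_lit 0, nat_lit 0, nat_lit 0, nat_lit 0, [], [nat_lit 6, nat_lit 40, nat_lit 40, nat_lit 80, nat_lit 3, nat_lit 226, nat_lit 20, nat_lit 7]⟩, ⟨p091_k5, nat_lit 0, nat_lit 0, nat_lit 698, nat_lit 0, nat_lit 1150753, [nat_lit 902550000, nat_lit 1718750000, nat_lit 2706550000], [], [nat_lit 9632785954, nat_lit 9682956784, nat_lit 9905461424, nat_lit 9948097620, nat_lit 8468864049, nat_lit 8497239385, nat_lit 8641839583, nat_lit 8664708596], nat_lit 1271250, nat_lit 1271250, nat_lit 1271250, nat_lit 1271250, nat_lit 0, nat_lit 1836250, [nat_lit 780000, nat_lit 1435000, nat_lit 1271250], [nat_lit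 8, nat_lit 40, nat_lit 40, nat_lit 80, nat_lit 1, nat_lit 290, nat_lit 75, nat_lit 8]⟩,
 ⟨nat_lit 3354, nat_lit 3536, ⟨.ofNat (nat_lit 787068), .ofNat (nat_lit 849831), .ofNat (nat_lit 798044), .ofNat (nat_lit 860807), .ofNat (nat_lit 784807), .ofNat (nat_lit 846673), .ofNat (nat_lit 795830), .ofNat (nat_lit 857697)⟩, ⟨.ofNat (nat_lit 0), .ofNat (nat_lit 136093), .ofNat (nat_lit 0), .ofNat (nat_lit 158046), .ofNat (nat_lit 0), .ofNat (nat_lit 138023), .ofNat (nat_lit 0), .ofNat (nat_lit 160070)⟩⟩, [⟨nat_lit 10, nat_lit 100, nat_lit 58, nat_lit 64, nat_lit 59973127⟩]⟩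
noncomputable def p091_l9 : Lf2 := ⟨nat_lit 0, nat_lit 15, [nat_lit 30, nat_lit 5, nat_lit 5, nat_lit 20], false, nat_lit 0, nat_lit 80, nat_lit 0, nat_lit 260, ⟨nat_lit 255, nat_lit 745, nat_lit 0, nat_lit 8, nat_lit 328, nat_lit 745, nat_lit 30, nat_lit 0, nat_lit 0, nat_lit 0, nat_lit 0, nat_lit 0, nat_lit 40065683, nat_lit 26934317, nat_lit 0, nat_lit 3369080, true, true⟩,
 nat_lit 0, nat_lit 0, nat_lit 2878, nat_lit 0, nat_lit 3013, nat_lit 1911, nat_lit 266, nat_lit 0, nat_lit 0, nat_lit 169, nat_lit 0, nat_lit 0, nat_lit 0, nat_lit 0, nat_lit 0, nat_lit 298000, nat_lit 0, nat_lit 0, [(nat_lit 22, [(nat_lit 1, nat_lit 745)])],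
 ⟨p091_k6, nat_lit 0, nat_lit 0, nat_lit 167, nat_lit 0, nat_lit 0, [nat_lit 1530168000, nat_lit 2318006000, nat_lit 2692476000], [], [nat_lit 26981823885, nat_lit 27198974328, nat_lit 28990635657, nat_lit 29275443936, nat_lit 26032967722, nat_lit 26238717528, nat_lit 27556606716, nat_lit 27745791054], nat_lit 0, nat_lit 0, nat_lit 0, nat_lit 0, nat_lit 0, nat_lit 0, [], [nat_lit 6, nat_lit 40, nat_lit 40, nat_lit 80, nat_lit 3, nat_lit 226, nat_lit 20, nat_lit 7]⟩, ⟨p091_k5, nat_lit 0, nat_lit 0, nat_lit 724, nat_lit 0, nat_lit 1217832, [nat_lit 836910000, nat_lit 1593750000, nat_lit 2509710000], [], [nat_lit 8931413814, nat_lit 8977935924, nat_lit 9184255224, nat_lit 9223791000, nat_lit 7852255869, nat_lit 7878568475, nat_lit 8012652288, nat_lit 8033859266], nat_lit 1271250, nat_lit 1271250, nat_lit 1271250, nat_lit 1271250, nat_lit 0, nat_lit 1836250, [nat_lit 780000, nat_lit 1435000, nat_lit 1271250], [nat_lit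 8, nat_lit 40, nat_lit 40, nat_lit 80, nat_lit 1, nat_lit 296, nat_lit 75, nat_lit 8]⟩,
 ⟨nat_lit 3162, nat_lit 3355, ⟨.ofNat (nat_lit 784807), .ofNat (nat_lit 846673), .ofNat (nat_lit 795830), .ofNat (nat_lit 857697), .ofNat (nat_lit 782555), .ofNat (nat_lit 843509), .ofNat (nat_lit 793631), .ofNat (nat_lit 854586)⟩, ⟨.ofNat (nat_lit 0), .ofNat (nat_lit 138023), .ofNat (nat_lit 0), .ofNat (nat_lit 160070), .ofNat (nat_lit 0), .ofNat (nat_lit 139899), .ofNat (nat_lit 0), .ofNat (nat_lit 162054)⟩⟩, [⟨nat_lit 10, nat_lit 100, nat_lit 58, nat_lit 64, nat_lit 55603979⟩]⟩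
noncomputable def p091_l10 : Lf2 := ⟨nat_lit 0, nat_lit 15, [nat_lit 30, nat_lit 5, nat_lit 5, nat_lit 20], false, nat_lit 0, nat_lit 80, nat_lit 0, nat_lit 200, ⟨nat_lit 323, nat_lit 677, nat_lit 0, nat_lit 9, nat_lit 348, nat_lit 677, nat_lit 30, nat_lit 0, nat_lit 0, nat_lit 0, nat_lit 0, nat_lit 0, nat_lit 38094703, nat_lit 28905297, nat_lit 0, nat_lit 3418557, true, true⟩,
 nat_lit 0, nat_lit 0, nat_lit 3343, nat_lit 0, nat_lit 3125, nat_lit 2220, nat_lit 247, nat_lit 0, nat_lit 0, nat_lit 348, nat_lit 0, nat_lit 0, nat_lit 0, nat_lit 0, nat_lit 0, nat_lit 270800, nat_lit 0, nat_lit 0, [(nat_lit 22, [(nat_lit 1, nat_lit 677)])],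
 ⟨p091_k3, nat_lit 0, nat_lit 0, nat_lit 176, nat_lit 0, nat_lit 0, [nat_lit 1575972800, nat_lit 2534327601, nat_lit 3017189600], [], [nat_lit 29380821001, nat_lit 29781662626, nat_lit 30778910813, nat_lit 31308124950, nat_lit 28282789126, nat_lit 28663600126, nat_lit 29449501614, nat_lit 29805336126], nat_lit 0, nat_lit 0, nat_lit 0, nat_lit 0, nat_lit 0, nat_lit 0, [], [nat_lit 6, nat_lit 40, nat_lit 40, nat_lit 80, nat_lit 3, nat_lit 226, nat_lit 20, nat_lit 7]⟩, ⟨p091_k5, nat_lit 0, nat_lit 0, nat_lit 708, nat_lit 0, nat_lit 1182618, [nat_lit 1060086000, nat_lit 2018750000, nat_lit 3178966000], [], [nat_lit 11848477370, nat_lit 11873879179, nat_lit 12102449465, nat_lit 12131900046, nat_lit 10582340779, nat_lit 10597617856, nat_lit 10775987253, nat_lit 10791430682], nat_lit 1271250, nat_lit 1271250, nat_lit 1271250, nat_lit 1271250, nat_lit 0, nat_lit 1412500, [nat_lit 780000, nat_lit 1435000, nat_lit 1271250],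 [nat_lit 8, nat_lit 40, nat_lit 40, nat_lit 80, nat_lit 1, nat_lit 288, nat_lit 50, nat_lit 7]⟩,
 ⟨nat_lit 3162, nat_lit 3536, ⟨.ofNat (nat_lit 849831), .ofNat (nat_lit 893764), .ofNat (nat_lit 855319), .ofNat (nat_lit 899252), .ofNat (nat_lit 843509), .ofNat (nat_lit 886176), .ofNat (nat_lit 849048), .ofNat (nat_lit 891715)⟩, ⟨.ofNat (nat_lit 0), .ofNat (nat_lit 136093), .ofNat (nat_lit 0), .ofNat (nat_lit 158046), .ofNat (nat_lit 0), .ofNat (nat_lit 139899), .ofNat (nat_lit 0), .ofNat (nat_lit 162054)⟩⟩, [⟨nat_lit 13, nat_lit 67, nat_lit 50, nat_lit 100, nat_lit 81107583⟩, ⟨nat_lit 10, nat_lit 100, nat_lit 45, nat_lit 69, nat_lit 55245766⟩]⟩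
noncomputable def p091_l11 : Lf2 := ⟨nat_lit 0, nat_lit 15, [nat_lit 30, nat_lit 5, nat_lit 5, nat_lit 20], false, nat_lit 0, nat_lit 80, nat_lit 0, nat_lit 200, ⟨nat_lit 1000, nat_lit 0, nat_lit 0, nat_lit 0, nat_lit 0, nat_lit 0, nat_lit 0, nat_lit 0, nat_lit 0, nat_lit 0, nat_lit 0, nat_lit 0, nat_lit 0, nat_lit 0, nat_lit 0, nat_lit 0, false, false⟩,
 nat_lit 0, nat_lit 0, nat_lit 8744, nat_lit 0, nat_lit 4047, nat_lit 5929, nat_lit 638, nat_lit 0, nat_lit 0, nat_lit 1636, nat_lit 0, nat_lit 0, nat_lit 0, nat_lit 0, nat_lit 0, nat_lit 0, nat_lit 0, nat_lit 0, [],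
 ⟨p091_k3, nat_lit 0, nat_lit 0, nat_lit 178, nat_lit 0, nat_lit 0, [nat_lit 2032000001, nat_lit 4688000000, nat_lit 6250000000], [], [nat_lit 31410801363, nat_lit 32058012384, nat_lit 33710081414, nat_lit 34289778256, nat_lit 28424498259, nat_lit 28840470651, nat_lit 30417493327, nat_lit 30977802075], nat_lit 0, nat_lit 0, nat_lit 0, nat_lit 0, nat_lit 0, nat_lit 0, [], [nat_lit 6, nat_lit 40, nat_lit 40, nat_lit 80, nat_lit 3, nat_lit 226, nat_lit 20, nat_lit 7]⟩, ⟨p091_k7, nat_lit 0, nat_lit 0, nat_lit 707, nat_lit 0, nat_lit 1181962, [nat_lit 3282000000, nat_lit 6250000000, nat_lit 9842000000], [], [nat_lit 34036390250, nat_lit 34106455478, nat_lit 35570205176, nat_lit 35872809557, nat_lit 31087797582, nat_lit 31138447484, nat_lit 31826589291, nat_lit 31890690932], nat_lit 1271250, nat_lit 1271250, nat_lit 1271250, nat_lit 1271250, nat_lit 0, nat_lit 1412500, [nat_lit 780000, nat_lit 1435000, nat_lit 1271250],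 [nat_lit 8, nat_lit 40, nat_lit 40, nat_lit 80, nat_lit 1, nat_lit 289, nat_lit 50, nat_lit 7]⟩,
 zbF0, [⟨nat_lit 22, nat_lit 60, nat_lit 100, nat_lit 80, nat_lit 124046272⟩]⟩
noncomputable def p091_l12 : Lf2 := ⟨nat_lit 0, nat_lit 20, [nat_lit 5, nat_lit 5, nat_lit 5, nat_lit 20], false, nat_lit 0, nat_lit 80, nat_lit 0, nat_lit 160, ⟨nat_lit 1000, nat_lit 0, nat_lit 0, nat_lit 0, nat_lit 0, nat_lit 0, nat_lit 0, nat_lit 0, nat_lit 0, nat_lit 0, nat_lit 0, nat_lit 0, nat_lit 0, nat_lit 0, nat_lit 0, nat_lit 0, false, false⟩,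
 nat_lit 0, nat_lit 0, nat_lit 11627, nat_lit 0, nat_lit 3937, nat_lit 7398, nat_lit 742, nat_lit 0, nat_lit 0, nat_lit 714, nat_lit 0, nat_lit 0, nat_lit 0, nat_lit 0, nat_lit 0, nat_lit 0, nat_lit 0, nat_lit 0, [],
 ⟨p091_k8, nat_lit 0, nat_lit 0, nat_lit 194, nat_lit 0, nat_lit 0, [nat_lit 2032000001, nat_lit 4688000000, nat_lit 7968000000], [], [nat_lit 28995119519, nat_lit 29891783671, nat_lit 32817872767, nat_lit 33963556976, nat_lit 27413435781, nat_lit 28261630173, nat_lit 30713498795, nat_lit 31514898795], nat_lit 0, nat_lit 0, nat_lit 0, nat_lit 0, nat_lit 0, nat_lit 0, [], [nat_lit 34, nat_lit 40, nat_lit 40, nat_lit 80, nat_lit 7, nat_lit 226, nat_lit 20, nat_lit 6]⟩, ⟨p091_k9, nat_lit 0, nat_lit 0, nat_lit 680, nat_lit 0, nat_lit 982630, [nat_lit 3282000000, nat_lit 6250000000, nat_lit 11872000000], [], [nat_lit 37502223710, nat_lit 37675563100, nat_lit 39555188031, nat_lit 39829477935, nat_lit 32954966606,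 nat_lit 33090814116, nat_lit 34998166909, nat_lit 35146554458], nat_lit 1271250, nat_lit 1271250, nat_lit 1271250, nat_lit 1271250, nat_lit 0, nat_lit 1100001, [nat_lit 780000, nat_lit 1435000, nat_lit 1271250], [nat_lit 23, nat_lit 40, nat_lit 40, nat_lit 80, nat_lit 12, nat_lit 345, nat_lit 125, nat_lit 8]⟩,
 zbF0, []⟩
noncomputable def p091_l13 : Lf2 := ⟨nat_lit 0, nat_lit 20, [nat_lit 5, nat_lit 5, nat_lit 5, nat_lit 20], false, nat_lit 16, nat_lit 80, nat_lit 160, nat_lit 260, ⟨nat_lit 431, nat_lit 569, nat_lit 0, nat_lit 8, nat_lit 333, nat_lit 569, nat_lit 42, nat_lit 0, nat_lit 0, nat_lit 0, nat_lit 0, nat_lit 0, nat_lit 38912315, nat_lit 27026077, nat_lit 1061608, nat_lit 3835942, true, true⟩,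
 nat_lit 0, nat_lit 0, nat_lit 4431, nat_lit 0, nat_lit 3682, nat_lit 2819, nat_lit 102, nat_lit 0, nat_lit 0, nat_lit 321, nat_lit 0, nat_lit 0, nat_lit 0, nat_lit 0, nat_lit 0, nat_lit 569000, nat_lit 0, nat_lit 0, [(nat_lit 22, [(nat_lit 2, nat_lit 569)])],
 ⟨p091_k8, nat_lit 0, nat_lit 0, nat_lit 182, nat_lit 0, nat_lit 0, [nat_lit 1669357334, nat_lit 2017341600, nat_lit 1231950400], [], [nat_lit 26659644465, nat_lit 28047750556, nat_lit 30956762810, nat_lit 32094191123, nat_lit 25329756664, nat_lit 26190383426, nat_lit 28667442840, nat_lit 29773234301], nat_lit 0, nat_lit 0, nat_lit 0, nat_lit 0, nat_lit 0, nat_lit 0, [], [nat_lit 34, nat_lit 40, nat_lit 40, nat_lit 80, nat_lit 7, nat_lit 226, nat_lit 20, nat_lit 6]⟩, ⟨p091_k9, nat_lit 0, nat_lit 0, nat_lit 554, nat_lit 0, nat_lit 982630, [nat_lit 1414542000, nat_lit 2693750000, nat_lit 5116832000], [], [nat_lit 14845191159, nat_lit 14927682896, nat_lit 15636948112,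 nat_lit 15728340630, nat_lit 15033851197, nat_lit 15113220390, nat_lit 15839654277, nat_lit 15911072667], nat_lit 1271250, nat_lit 1271250, nat_lit 1271250, nat_lit 1271250, nat_lit 1100001, nat_lit 1956250, [nat_lit 780000, nat_lit 1435000, nat_lit 1271250], [nat_lit 23, nat_lit 40, nat_lit 40, nat_lit 80, nat_lit 12, nat_lit 373, nat_lit 150, nat_lit 8]⟩,
 ⟨nat_lit 3162, nat_lit 3873, ⟨.ofNat (nat_lit 780717), .ofNat (nat_lit 883971), .ofNat (nat_lit 791601), .ofNat (nat_lit 894867), .ofNat (nat_lit 771459), .ofNat (nat_lit 869004), .ofNat (nat_lit 782524), .ofNat (nat_lit 880081)⟩, ⟨.ofNat (nat_lit 40000), .ofNat (nat_lit 153881), .ofNat (nat_lit 40000), .ofNat (nat_lit 175674), .ofNat (nat_lit 40000), .ofNat (nat_lit 162054), .ofNat (nat_lit 40000), .ofNat (nat_lit 184209)⟩⟩, [⟨nat_lit 22, nat_lit 65, nat_lit 100, nat_lit 79, nat_lit 41979612⟩, ⟨nat_lit 22, nat_lit 66, nat_lit 100, nat_lit 66, nat_lit 179020471⟩]⟩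
noncomputable def p091_l14 : Lf2 := ⟨nat_lit 0, nat_lit 20, [nat_lit 5, nat_lit 5, nat_lit 5, nat_lit 20], false, nat_lit 0, nat_lit 80, nat_lit 0, nat_lit 260, ⟨nat_lit 767, nat_lit 233, nat_lit 0, nat_lit 8, nat_lit 341, nat_lit 233, nat_lit 34, nat_lit 0, nat_lit 0, nat_lit 0, nat_lit 0, nat_lit 0, nat_lit 38813754, nat_lit 28186246, nat_lit 0, nat_lit 3402568, true, true⟩,
 nat_lit 0, nat_lit 0, nat_lit 7759, nat_lit 0, nat_lit 4276, nat_lit 5152, nat_lit 473, nat_lit 0, nat_lit 0, nat_lit 690, nat_lit 0, nat_lit 0, nat_lit 0, nat_lit 0, nat_lit 0, nat_lit 233000, nat_lit 0, nat_lit 0, [(nat_lit 22, [(nat_lit 2, nat_lit 233)])],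
 ⟨p091_k8, nat_lit 0, nat_lit 0, nat_lit 195, nat_lit 0, nat_lit 0, [nat_lit 1883501334, nat_lit 3594391200, nat_lit 5209652800], [], [nat_lit 28508253568, nat_lit 30016684400, nat_lit 34085414976, nat_lit 35255742120, nat_lit 25776076399, nat_lit 26660666040, nat_lit 30555929659, nat_lit 31687801906], nat_lit 0, nat_lit 0, nat_lit 0, nat_lit 0, nat_lit 0, nat_lit 0, [], [nat_lit 34, nat_lit 40, nat_lit 40, nat_lit 80, nat_lit 7, nat_lit 226, nat_lit 20, nat_lit 6]⟩, ⟨p091_k10, nat_lit 0, nat_lit 0, nat_lit 682, nat_lit 0, nat_lit 993869, [nat_lit 2517294000, nat_lit 4793750000, nat_lit 9105824000], [], [nat_lit 27363273471, nat_lit 27551755546, nat_lit 29313526407, nat_lit 29455464568, nat_lit 24954011320, nat_lit 25056119181, nat_lit 26268904155, nat_lit 26354504561], nat_lit 1271250, nat_lit 1271250, nat_lit 1271250, nat_lit 1271250, nat_lit 0, nat_lit 1836250, [nat_lit 780000, nat_lit 1435000, nat_lit 1271250],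 [nat_lit 23, nat_lit 40, nat_lit 40, nat_lit 80, nat_lit 12, nat_lit 373, nat_lit 150, nat_lit 9]⟩,
 ⟨nat_lit 3162, nat_lit 3873, ⟨.ofNat (nat_lit 791601), .ofNat (nat_lit 914224), .ofNat (nat_lit 802484), .ofNat (nat_lit 925121), .ofNat (nat_lit 782524), .ofNat (nat_lit 898367), .ofNat (nat_lit 793588), .ofNat (nat_lit 909444)⟩, ⟨.ofNat (nat_lit 0), .ofNat (nat_lit 153881), .ofNat (nat_lit 0), .ofNat (nat_lit 175674), .ofNat (nat_lit 0), .ofNat (nat_lit 162054), .ofNat (nat_lit 0), .ofNat (nat_lit 184209)⟩⟩, [⟨nat_lit 22, nat_lit 64, nat_lit 100, nat_lit 62, nat_lit 179840032⟩]⟩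
noncomputable def b_V_800_700_10_19 : St := ⟨true, nat_lit 0, nat_lit 1, nat_lit 1, nat_lit 80, nat_lit 340, nat_lit 360, nat_lit 280, nat_lit 300, nat_lit 320, nat_lit 396, nat_lit 40, nat_lit 80, nat_lit 0, nat_lit 80, nat_lit 0, nat_lit 300, nat_lit 40, nat_lit 80, nat_lit 0, nat_lit 0, nat_lit 0, nat_lit 0⟩
theorem d_V_800_700_10_19 (h : EB TB.env) : Dead b_V_800_700_10_19 := chkB_sound0 h (T :=
(.trX (nat_lit 22) (nat_lit 83) (nat_lit 100) (nat_lit 83) (nat_lit 260) (.spl (nat_lit 3) (nat_lit 60)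
(.spl (nat_lit 1) (nat_lit 290)
(.trX (nat_lit 13) (nat_lit 80) (nat_lit 34) (nat_lit 100) (nat_lit 392) (.spl (nat_lit 5) (nat_lit 160)
(.spl (nat_lit 0) (nat_lit 350)
(.spl (nat_lit 0) (nat_lit 345)
(.leaf p091_l0)
(.leaf p091_l1))
(.trX (nat_lit 13) (nat_lit 74) (nat_lit 42) (nat_lit 100) (nat_lit 388) (.spl (nat_lit 2) (nat_lit 360)
(.leaf p091_l2)
(.spl (nat_lit 1) (nat_lit 285)
(.trX (nat_lit 13) (nat_lit 73) (nat_lit 44) (nat_lit 100) (nat_lit 384) (.leaf p091_l3))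
(.leaf p091_l4)))))
(.trX (nat_lit 10) (nat_lit 100) (nat_lit 44) (nat_lit 82) (nat_lit 384) (.trZ (nat_lit 22) (nat_lit 82) (nat_lit 100) (nat_lit 44) (nat_lit 16) (.spl (nat_lit 0) (nat_lit 350)
(.leaf p091_l5)
(.leaf p091_l6))))))
(.spl (nat_lit 0) (nat_lit 350)
(.leaf p091_l7)
(.trX (nat_lit 13) (nat_lit 76) (nat_lit 37) (nat_lit 100) (nat_lit 392) (.spl (nat_lit 2) (nat_lit 360)
(.spl (nat_lit 0) (nat_lit 355)
(.leaf p091_l8)
(.leaf p091_l9))
(.trX (nat_lit 22) (nat_lit 60) (nat_lit 100) (nat_lit 80) (nat_lit 200) (.spl (nat_lit 1) (nat_lit 295)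
(.trX (nat_lit 13) (nat_lit 75) (nat_lit 39) (nat_lit 100) (nat_lit 388) (.leaf p091_l10))
(.leaf p091_l11)))))))
(.spl (nat_lit 1) (nat_lit 290)
(.trX (nat_lit 13) (nat_lit 80) (nat_lit 34) (nat_lit 100) (nat_lit 392) (.spl (nat_lit 5) (nat_lit 160)
(.leaf p091_l12)
(.trX (nat_lit 10) (nat_lit 100) (nat_lit 44) (nat_lit 82) (nat_lit 384) (.trZ (nat_lit 22) (nat_lit 82) (nat_lit 100) (nat_lit 44) (nat_lit 16) (.leaf p091_l13)))))
(.leaf p091_l14))))) (by decide +kernel)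
noncomputable def p091_l15 : Lf2 := ⟨nat_lit 0, nat_lit 15, [nat_lit 30, nat_lit 5, nat_lit 5, nat_lit 20], false, nat_lit 80, nat_lit 160, nat_lit 0, nat_lit 276, ⟨nat_lit 151, nat_lit 849, nat_lit 0, nat_lit 8, nat_lit 329, nat_lit 849, nat_lit 83, nat_lit 0, nat_lit 0, nat_lit 0, nat_lit 0, nat_lit 0, nat_lit 38028156, nat_lit 26011132, nat_lit 2960712, nat_lit 4333594, true, true⟩,
 nat_lit 0, nat_lit 0, nat_lit 1883, nat_lit 0, nat_lit 3330, nat_lit 1198, nat_lit 247, nat_lit 0, nat_lit 0, nat_lit 85, nat_lit 0, nat_lit 0, nat_lit 0, nat_lit 0, nat_lit 0, nat_lit 339600, nat_lit 0, nat_lit 0, [(nat_lit 22, [(nat_lit 1, nat_lit 849)])],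
 ⟨p091_k0, nat_lit 0, nat_lit 0, nat_lit 127, nat_lit 0, nat_lit 0, [nat_lit 1460113600, nat_lit 2027913200, nat_lit 2387353200], [], [nat_lit 24729552540, nat_lit 24960438485, nat_lit 26555570720, nat_lit 26805549890, nat_lit 25091959920, nat_lit 25302666340, nat_lit 26702375940, nat_lit 26904864370], nat_lit 0, nat_lit 0, nat_lit 0, nat_lit 0, nat_lit 0, nat_lit 0, [], [nat_lit 34, nat_lit 40, nat_lit 40, nat_lit 80, nat_lit 7, nat_lit 249, nat_lit 40, nat_lit 7]⟩, ⟨p091_k1, nat_lit 0, nat_lit 0, nat_lit 654, nat_lit 0, nat_lit 1085818, [nat_lit 495582000, nat_lit 943750000, nat_lit 1486142000], [], [nat_lit 5483617034, nat_lit 5530338106, nat_lit 5638167114, nat_lit 5737964570, nat_lit 4675121265, nat_lit 4706748641, nat_lit 4778380883, nat_lit 4805641802], nat_lit 1271250, nat_lit 1271250, nat_lit 1271250, nat_lit 1271250, nat_lit 0, nat_lit 1949250, [nat_lit 780000, nat_lit 1435000, nat_lit 1271250], [nat_lit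 8, nat_lit 40, nat_lit 40, nat_lit 80, nat_lit 1, nat_lit 289, nat_lit 75, nat_lit 8]⟩,
 ⟨nat_lit 3708, nat_lit 3873, ⟨.ofNat (nat_lit 780735), .ofNat (nat_lit 845257), .ofNat (nat_lit 802527), .ofNat (nat_lit 867049), .ofNat (nat_lit 778408), .ofNat (nat_lit 842055), .ofNat (nat_lit 800275), .ofNat (nat_lit 863922)⟩, ⟨.ofNat (nat_lit 132088), .ofNat (nat_lit 261131), .ofNat (nat_lit 153881), .ofNat (nat_lit 282924), .ofNat (nat_lit 134114), .ofNat (nat_lit 261406), .ofNat (nat_lit 155983), .ofNat (nat_lit 283274)⟩⟩, [⟨nat_lit 19, nat_lit 92, nat_lit 100, nat_lit 68, nat_lit 15104319⟩]⟩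
noncomputable def p091_l16 : Lf2 := ⟨nat_lit 0, nat_lit 15, [nat_lit 30, nat_lit 5, nat_lit 5, nat_lit 20], false, nat_lit 80, nat_lit 160, nat_lit 0, nat_lit 276, ⟨nat_lit 73, nat_lit 927, nat_lit 0, nat_lit 8, nat_lit 328, nat_lit 927, nat_lit 84, nat_lit 0, nat_lit 0, nat_lit 0, nat_lit 0, nat_lit 0, nat_lit 38108391, nat_lit 25901484, nat_lit 2990125, nat_lit 4337249, true, true⟩,
 nat_lit 0, nat_lit 0, nat_lit 920, nat_lit 0, nat_lit 4226, nat_lit 585, nat_lit 0, nat_lit 0, nat_lit 0, nat_lit 38, nat_lit 0, nat_lit 0, nat_lit 0, nat_lit 0, nat_lit 0, nat_lit 231750, nat_lit 0, nat_lit 0, [(nat_lit 22, [(nat_lit 0, nat_lit 927)])],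
 ⟨p091_k2, nat_lit 0, nat_lit 0, nat_lit 110, nat_lit 0, nat_lit 0, [nat_lit 1601872001, nat_lit 2169155600, nat_lit 2616901600], [], [nat_lit 26242604235, nat_lit 26531552114, nat_lit 28403185702, nat_lit 28661933268, nat_lit 26274634995, nat_lit 26536295650, nat_lit 28235282155, nat_lit 28470415194], nat_lit 0, nat_lit 0, nat_lit 0, nat_lit 0, nat_lit 0, nat_lit 0, [], [nat_lit 6, nat_lit 40, nat_lit 40, nat_lit 80, nat_lit 3, nat_lit 249, nat_lit 40, nat_lit 8]⟩, ⟨p091_k1, nat_lit 0, nat_lit 0, nat_lit 702, nat_lit 0, nat_lit 1153880, [nat_lit 239586000, nat_lit 456250000, nat_lit 718466000], [], [nat_lit 2686298826, nat_lit 2706690194, nat_lit 2761807080, nat_lit 2810193232, nat_lit 2312359893, nat_lit 2321295846, nat_lit 2347176746, nat_lit 2353445113], nat_lit 1271250, nat_lit 1271250, nat_lit 1271250, nat_lit 1271250, nat_lit 0, nat_lit 1949250, [nat_lit 780000, nat_lit 1435000, nat_lit 1271250], [nat_lit 8,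 nat_lit 40, nat_lit 40, nat_lit 80, nat_lit 1, nat_lit 293, nat_lit 75, nat_lit 8]⟩,
 ⟨nat_lit 3535, nat_lit 3709, ⟨.ofNat (nat_lit 778408), .ofNat (nat_lit 842055), .ofNat (nat_lit 800275), .ofNat (nat_lit 863923), .ofNat (nat_lit 776092), .ofNat (nat_lit 838855), .ofNat (nat_lit 798044), .ofNat (nat_lit 860806)⟩, ⟨.ofNat (nat_lit 134114), .ofNat (nat_lit 261406), .ofNat (nat_lit 155983), .ofNat (nat_lit 283274), .ofNat (nat_lit 136093), .ofNat (nat_lit 261616), .ofNat (nat_lit 158046), .ofNat (nat_lit 283569)⟩⟩, [⟨nat_lit 7, nat_lit 100, nat_lit 92, nat_lit 68, nat_lit 6832767⟩]⟩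
noncomputable def p091_l17 : Lf2 := ⟨nat_lit 0, nat_lit 15, [nat_lit 30, nat_lit 5, nat_lit 5, nat_lit 20], false, nat_lit 80, nat_lit 160, nat_lit 0, nat_lit 276, ⟨nat_lit 71, nat_lit 929, nat_lit 0, nat_lit 8, nat_lit 326, nat_lit 929, nat_lit 84, nat_lit 0, nat_lit 0, nat_lit 0, nat_lit 0, nat_lit 0, nat_lit 38229959, nat_lit 25738227, nat_lit 3031814, nat_lit 4342056, true, true⟩,
 nat_lit 0, nat_lit 0, nat_lit 900, nat_lit 0, nat_lit 4255, nat_lit 572, nat_lit 0, nat_lit 0, nat_lit 0, nat_lit 38, nat_lit 0, nat_lit 0, nat_lit 0, nat_lit 0, nat_lit 0, nat_lit 232250, nat_lit 0, nat_lit 0, [(nat_lit 22, [(nat_lit 0, nat_lit 929)])],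
 ⟨p091_k3, nat_lit 0, nat_lit 0, nat_lit 114, nat_lit 0, nat_lit 0, [nat_lit 1600944001, nat_lit 2163721201, nat_lit 2609063200], [], [nat_lit 26521320895, nat_lit 27101060560, nat_lit 28658129290, nat_lit 29177152200, nat_lit 26515376075, nat_lit 27040276000, nat_lit 28454980795, nat_lit 28926549060], nat_lit 0, nat_lit 0, nat_lit 0, nat_lit 0, nat_lit 0, nat_lit 0, [], [nat_lit 6, nat_lit 40, nat_lit 40, nat_lit 80, nat_lit 3, nat_lit 249, nat_lit 40, nat_lit 8]⟩, ⟨p091_k1, nat_lit 0, nat_lit 0, nat_lit 754, nat_lit 0, nat_lit 1294969, [nat_lit 233022000, nat_lit 443750000, nat_lit 698782000], [], [nat_lit 2617175148, nat_lit 2631687042, nat_lit 2671007196, nat_lit 2718140188, nat_lit 2223856570, nat_lit 2232473538, nat_lit 2259940417, nat_lit 2269946242], nat_lit 1271250, nat_lit 1271250, nat_lit 1271250, nat_lit 1271250, nat_lit 0, nat_lit 1949250, [nat_lit 780000, nat_lit 1435000, nat_lit 1271250], [nat_lit 8,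 nat_lit 40, nat_lit 40, nat_lit 80, nat_lit 1, nat_lit 306, nat_lit 75, nat_lit 8]⟩,
 ⟨nat_lit 3162, nat_lit 3536, ⟨.ofNat (nat_lit 776092), .ofNat (nat_lit 838855), .ofNat (nat_lit 798037), .ofNat (nat_lit 860807), .ofNat (nat_lit 771477), .ofNat (nat_lit 832432), .ofNat (nat_lit 793624), .ofNat (nat_lit 854586)⟩, ⟨.ofNat (nat_lit 136093), .ofNat (nat_lit 261616), .ofNat (nat_lit 158046), .ofNat (nat_lit 283569), .ofNat (nat_lit 139899), .ofNat (nat_lit 261806), .ofNat (nat_lit 162054), .ofNat (nat_lit 283961)⟩⟩, [⟨nat_lit 4, nat_lit 100, nat_lit 64, nat_lit 67, nat_lit 948981⟩, ⟨nat_lit 7, nat_lit 100, nat_lit 92, nat_lit 68, nat_lit 6683522⟩]⟩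
noncomputable def p091_l18 : Lf2 := ⟨nat_lit 0, nat_lit 20, [nat_lit 5, nat_lit 5, nat_lit 5, nat_lit 20], false, nat_lit 80, nat_lit 160, nat_lit 0, nat_lit 300, ⟨nat_lit 338, nat_lit 662, nat_lit 0, nat_lit 8, nat_lit 325, nat_lit 662, nat_lit 92, nat_lit 0, nat_lit 0, nat_lit 0, nat_lit 0, nat_lit 0, nat_lit 38051174, nat_lit 25488332, nat_lit 3460494, nat_lit 4431071, true, true⟩,
 nat_lit 0, nat_lit 0, nat_lit 4011, nat_lit 0, nat_lit 3429, nat_lit 2552, nat_lit 369, nat_lit 0, nat_lit 0, nat_lit 225, nat_lit 0, nat_lit 0, nat_lit 0, nat_lit 0, nat_lit 0, nat_lit 264800, nat_lit 0, nat_lit 0, [(nat_lit 22, [(nat_lit 1, nat_lit 662)])],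
 ⟨p091_k8, nat_lit 0, nat_lit 0, nat_lit 128, nat_lit 0, nat_lit 0, [nat_lit 1586076801, nat_lit 2613821601, nat_lit 3616541600], [], [nat_lit 24927042663, nat_lit 25393985620, nat_lit 26723926176, nat_lit 27246049414, nat_lit 25255214457, nat_lit 25681017749, nat_lit 26881608483, nat_lit 27276850470], nat_lit 0, nat_lit 0, nat_lit 0, nat_lit 0, nat_lit 0, nat_lit 0, [], [nat_lit 34, nat_lit 40, nat_lit 40, nat_lit 80, nat_lit 7, nat_lit 249, nat_lit 40, nat_lit 7]⟩, ⟨p091_k9, nat_lit 0, nat_lit 0, nat_lit 579, nat_lit 0, nat_lit 803025, [nat_lit 1109316000, nat_lit 2112500000, nat_lit 4012736000], [], [nat_lit 12231187631, nat_lit 12271330083, nat_lit 12720075207, nat_lit 12796301918, nat_lit 10761334529, nat_lit 10781837645, nat_lit 11019191975, nat_lit 11038740140], nat_lit 1271250, nat_lit 1271250, nat_lit 1271250, nat_lit 1271250, nat_lit 0, nat_lit 2118750, [nat_lit 780000, nat_lit 1435000, nat_lit 1271250],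 [nat_lit 23, nat_lit 40, nat_lit 40, nat_lit 80, nat_lit 12, nat_lit 373, nat_lit 150, nat_lit 9]⟩,
 ⟨nat_lit 3535, nat_lit 3873, ⟨.ofNat (nat_lit 780730), .ofNat (nat_lit 845257), .ofNat (nat_lit 786177), .ofNat (nat_lit 850704), .ofNat (nat_lit 776087), .ofNat (nat_lit 838854), .ofNat (nat_lit 781574), .ofNat (nat_lit 844341)⟩, ⟨.ofNat (nat_lit 153881), .ofNat (nat_lit 282924), .ofNat (nat_lit 175674), .ofNat (nat_lit 304717), .ofNat (nat_lit 158046), .ofNat (nat_lit 283569), .ofNat (nat_lit 179999), .ofNat (nat_lit 305521)⟩⟩, [⟨nat_lit 7, nat_lit 99, nat_lit 100, nat_lit 83, nat_lit 38255383⟩]⟩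
noncomputable def p091_l19 : Lf2 := ⟨nat_lit 0, nat_lit 20, [nat_lit 5, nat_lit 5, nat_lit 5, nat_lit 20], false, nat_lit 80, nat_lit 160, nat_lit 0, nat_lit 300, ⟨nat_lit 268, nat_lit 732, nat_lit 0, nat_lit 8, nat_lit 323, nat_lit 732, nat_lit 93, nat_lit 0, nat_lit 0, nat_lit 0, nat_lit 0, nat_lit 0, nat_lit 38208437, nat_lit 25266430, nat_lit 3525133, nat_lit 4438207, true, true⟩,
 nat_lit 0, nat_lit 0, nat_lit 3237, nat_lit 0, nat_lit 3597, nat_lit 2059, nat_lit 339, nat_lit 0, nat_lit 0, nat_lit 165, nat_lit 0, nat_lit 0, nat_lit 0, nat_lit 0, nat_lit 0, nat_lit 183000, nat_lit 0, nat_lit 0, [(nat_lit 22, [(nat_lit 0, nat_lit 732)])],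
 ⟨p091_k11, nat_lit 0, nat_lit 0, nat_lit 131, nat_lit 0, nat_lit 0, [nat_lit 1692352001, nat_lit 2699009600, nat_lit 4120900800], [], [nat_lit 25768003243, nat_lit 26243721344, nat_lit 27599362537, nat_lit 28099261004, nat_lit 25995613940, nat_lit 26428867696, nat_lit 27609368755, nat_lit 28002869108], nat_lit 0, nat_lit 0, nat_lit 0, nat_lit 0, nat_lit 0, nat_lit 0, [], [nat_lit 34, nat_lit 40, nat_lit 40, nat_lit 80, nat_lit 7, nat_lit 249, nat_lit 40, nat_lit 7]⟩, ⟨p091_k9, nat_lit 0, nat_lit 0, nat_lit 667, nat_lit 0, nat_lit 947088, [nat_lit 879576000, nat_lit 1675000000, nat_lit 3181696000], [], [nat_lit 9998367311, nat_lit 10021511011, nat_lit 10266358107, nat_lit 10306533691, nat_lit 8723275081, nat_lit 8733566491, nat_lit 8870869396, nat_lit 8878556200], nat_lit 1271250, nat_lit 1271250, nat_lit 1271250, nat_lit 1271250, nat_lit 0, nat_lit 2118750, [nat_lit 780000, nat_lit 1435000, nat_lit 1271250], [nat_lit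 23, nat_lit 40, nat_lit 40, nat_lit 80, nat_lit 12, nat_lit 373, nat_lit 150, nat_lit 9]⟩,
 ⟨nat_lit 3162, nat_lit 3536, ⟨.ofNat (nat_lit 776092), .ofNat (nat_lit 838855), .ofNat (nat_lit 781578), .ofNat (nat_lit 844343), .ofNat (nat_lit 771477), .ofNat (nat_lit 832432), .ofNat (nat_lit 777014), .ofNat (nat_lit 837970)⟩, ⟨.ofNat (nat_lit 158046), .ofNat (nat_lit 283569), .ofNat (nat_lit 179999), .ofNat (nat_lit 305521), .ofNat (nat_lit 162054), .ofNat (nat_lit 283961), .ofNat (nat_lit 184209), .ofNat (nat_lit 306116)⟩⟩, [⟨nat_lit 19, nat_lit 100, nat_lit 99, nat_lit 83, nat_lit 29156880⟩]⟩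
noncomputable def p091_l20 : Lf2 := ⟨nat_lit 0, nat_lit 20, [nat_lit 5, nat_lit 5, nat_lit 5, nat_lit 20], false, nat_lit 80, nat_lit 160, nat_lit 0, nat_lit 296, ⟨nat_lit 329, nat_lit 671, nat_lit 0, nat_lit 8, nat_lit 326, nat_lit 671, nat_lit 93, nat_lit 0, nat_lit 0, nat_lit 0, nat_lit 0, nat_lit 0, nat_lit 37939511, nat_lit 25580675, nat_lit 3479814, nat_lit 4438126, true, true⟩,
 nat_lit 0, nat_lit 0, nat_lit 3761, nat_lit 0, nat_lit 3450, nat_lit 2445, nat_lit 340, nat_lit 0, nat_lit 0, nat_lit 207, nat_lit 0, nat_lit 0, nat_lit 0, nat_lit 0, nat_lit 0, nat_lit 268400, nat_lit 0, nat_lit 0, [(nat_lit 22, [(nat_lit 1, nat_lit 671)])],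
 ⟨p091_k8, nat_lit 0, nat_lit 0, nat_lit 131, nat_lit 0, nat_lit 0, [nat_lit 1580014401, nat_lit 2585622801, nat_lit 3557382800], [], [nat_lit 25096446301, nat_lit 26032526001, nat_lit 26919931600, nat_lit 27858661400, nat_lit 25417356001, nat_lit 26270825201, nat_lit 27047139301, nat_lit 27828542200], nat_lit 0, nat_lit 0, nat_lit 0, nat_lit 0, nat_lit 0, nat_lit 0, [], [nat_lit 34, nat_lit 40, nat_lit 40, nat_lit 80, nat_lit 7, nat_lit 249, nat_lit 40, nat_lit 7]⟩, ⟨p091_k12, nat_lit 0, nat_lit 0, nat_lit 669, nat_lit 0, nat_lit 952539, [nat_lit 1079778000, nat_lit 2056250000, nat_lit 3905888000], [], [nat_lit 12124443287, nat_lit 12152945480, nat_lit 12460731863, nat_lit 12534451944, nat_lit 10633501853, nat_lit 10646896306, nat_lit 10815591988, nat_lit 10825851714], nat_lit 1271250, nat_lit 1271250, nat_lit 1271250, nat_lit 1271250, nat_lit 0, nat_lit 2090500, [nat_lit 780000, nat_lit 1435000, nat_lit 1271250],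 [nat_lit 23, nat_lit 40, nat_lit 40, nat_lit 80, nat_lit 12, nat_lit 373, nat_lit 150, nat_lit 9]⟩,
 ⟨nat_lit 3162, nat_lit 3873, ⟨.ofNat (nat_lit 786160), .ofNat (nat_lit 850703), .ofNat (nat_lit 791601), .ofNat (nat_lit 856147), .ofNat (nat_lit 776992), .ofNat (nat_lit 837968), .ofNat (nat_lit 782524), .ofNat (nat_lit 843501)⟩, ⟨.ofNat (nat_lit 153881), .ofNat (nat_lit 282924), .ofNat (nat_lit 175674), .ofNat (nat_lit 304717), .ofNat (nat_lit 162054), .ofNat (nat_lit 283961), .ofNat (nat_lit 184209), .ofNat (nat_lit 306116)⟩⟩, [⟨nat_lit 19, nat_lit 98, nat_lit 100, nat_lit 83, nat_lit 36899335⟩]⟩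
noncomputable def p091_l21 : Lf2 := ⟨nat_lit 0, nat_lit 20, [nat_lit 5, nat_lit 5, nat_lit 5, nat_lit 20], false, nat_lit 80, nat_lit 160, nat_lit 0, nat_lit 292, ⟨nat_lit 374, nat_lit 626, nat_lit 0, nat_lit 8, nat_lit 330, nat_lit 626, nat_lit 93, nat_lit 0, nat_lit 0, nat_lit 0, nat_lit 0, nat_lit 0, nat_lit 37654098, nat_lit 25884062, nat_lit 3461840, nat_lit 4443199, true, true⟩,
 nat_lit 0, nat_lit 0, nat_lit 4101, nat_lit 0, nat_lit 3489, nat_lit 2723, nat_lit 367, nat_lit 0, nat_lit 0, nat_lit 281, nat_lit 0, nat_lit 0, nat_lit 0, nat_lit 0, nat_lit 0, nat_lit 250400, nat_lit 0, nat_lit 0, [(nat_lit 22, [(nat_lit 1, nat_lit 626)])],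
 ⟨p091_k8, nat_lit 0, nat_lit 0, nat_lit 131, nat_lit 0, nat_lit 0, [nat_lit 1610326400, nat_lit 2726616800, nat_lit 3853176800], [], [nat_lit 25150784142, nat_lit 26090938016, nat_lit 26982102016, nat_lit 27922493948, nat_lit 25458207096, nat_lit 26315135440, nat_lit 27094284762, nat_lit 27874256284], nat_lit 0, nat_lit 0, nat_lit 0, nat_lit 0, nat_lit 0, nat_lit 0, [], [nat_lit 34, nat_lit 40, nat_lit 40, nat_lit 80, nat_lit 7, nat_lit 249, nat_lit 40, nat_lit 7]⟩, ⟨p091_k10, nat_lit 0, nat_lit 0, nat_lit 682, nat_lit 0, nat_lit 993869, [nat_lit 1227468000, nat_lit 2337500000, nat_lit 4440128000], [], [nat_lit 12865764980, nat_lit 12930690167, nat_lit 13639316623, nat_lit 13805545085, nat_lit 11510027731, nat_lit 11561121905, nat_lit 11802833724, nat_lit 11845342432], nat_lit 1271250, nat_lit 1271250, nat_lit 1271250, nat_lit 1271250, nat_lit 0, nat_lit 2062250, [nat_lit 780000, nat_lit 1435000, nat_lit 1271250],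 [nat_lit 23, nat_lit 40, nat_lit 40, nat_lit 80, nat_lit 12, nat_lit 373, nat_lit 150, nat_lit 9]⟩,
 ⟨nat_lit 3162, nat_lit 3873, ⟨.ofNat (nat_lit 791601), .ofNat (nat_lit 856147), .ofNat (nat_lit 802484), .ofNat (nat_lit 867032), .ofNat (nat_lit 782524), .ofNat (nat_lit 843501), .ofNat (nat_lit 793588), .ofNat (nat_lit 854567)⟩, ⟨.ofNat (nat_lit 153881), .ofNat (nat_lit 282924), .ofNat (nat_lit 175674), .ofNat (nat_lit 304717), .ofNat (nat_lit 162054), .ofNat (nat_lit 283961), .ofNat (nat_lit 184209), .ofNat (nat_lit 306116)⟩⟩, [⟨nat_lit 7, nat_lit 100, nat_lit 94, nat_lit 81, nat_lit 43220540⟩]⟩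
noncomputable def p091_l22 : Lf2 := ⟨nat_lit 0, nat_lit 15, [nat_lit 30, nat_lit 5, nat_lit 5, nat_lit 20], false, nat_lit 80, nat_lit 160, nat_lit 8, nat_lit 276, ⟨nat_lit 340, nat_lit 660, nat_lit 0, nat_lit 9, nat_lit 349, nat_lit 660, nat_lit 83, nat_lit 0, nat_lit 0, nat_lit 0, nat_lit 0, nat_lit 0, nat_lit 36274906, nat_lit 27848284, nat_lit 2876810, nat_lit 4359330, true, true⟩,
 nat_lit 0, nat_lit 0, nat_lit 3620, nat_lit 0, nat_lit 3393, nat_lit 2303, nat_lit 0, nat_lit 0, nat_lit 0, nat_lit 336, nat_lit 0, nat_lit 0, nat_lit 0, nat_lit 0, nat_lit 0, nat_lit 606600, nat_lit 0, nat_lit 0, [(nat_lit 22, [(nat_lit 1, nat_lit 89), (nat_lit 2, nat_lit 571)])],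
 ⟨p091_k13, nat_lit 0, nat_lit 0, nat_lit 138, nat_lit 0, nat_lit 0, [nat_lit 1564888534, nat_lit 1995245801, nat_lit 726865900], [], [nat_lit 27060576092, nat_lit 27503264078, nat_lit 28694097375, nat_lit 29215141795, nat_lit 27238919628, nat_lit 27625004785, nat_lit 28689351266, nat_lit 29089254875], nat_lit 0, nat_lit 0, nat_lit 0, nat_lit 0, nat_lit 0, nat_lit 0, [], [nat_lit 161, nat_lit 40, nat_lit 40, nat_lit 80, nat_lit 43, nat_lit 249, nat_lit 40, nat_lit 7]⟩, ⟨p091_k14, nat_lit 0, nat_lit 0, nat_lit 638, nat_lit 0, nat_lit 1076527, [nat_lit 1115880000, nat_lit 1593920000, nat_lit 3346280000], [], [nat_lit 12066330863, nat_lit 12115078710, nat_lit 12473138702, nat_lit 12566687041, nat_lit 10825992036, nat_lit 10851683636, nat_lit 11029188377, nat_lit 11062279001], nat_lit 1271250, nat_lit 1271250, nat_lit 1271250, nat_lit 1271250, nat_lit 43600, nat_lit 1956450, [nat_lit 780000, nat_lit 1100000, nat_lit 2127500],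 [nat_lit 42, nat_lit 40, nat_lit 40, nat_lit 80, nat_lit 13, nat_lit 289, nat_lit 75, nat_lit 7]⟩,
 ⟨nat_lit 3535, nat_lit 3873, ⟨.ofNat (nat_lit 845257), .ofNat (nat_lit 896875), .ofNat (nat_lit 856151), .ofNat (nat_lit 907772), .ofNat (nat_lit 838854), .ofNat (nat_lit 889064), .ofNat (nat_lit 849828), .ofNat (nat_lit 900040)⟩, ⟨.ofNat (nat_lit 132088), .ofNat (nat_lit 261131), .ofNat (nat_lit 153881), .ofNat (nat_lit 282924), .ofNat (nat_lit 136093), .ofNat (nat_lit 261616), .ofNat (nat_lit 158046), .ofNat (nat_lit 283569)⟩⟩, [⟨nat_lit 13, nat_lit 76, nat_lit 40, nat_lit 100, nat_lit 123879229⟩, ⟨nat_lit 4, nat_lit 100, nat_lit 69, nat_lit 66, nat_lit 110504233⟩, ⟨nat_lit 19, nat_lit 94, nat_lit 100, nat_lit 69, nat_lit 49106720⟩]⟩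
noncomputable def p091_l23 : Lf2 := ⟨nat_lit 0, nat_lit 15, [nat_lit 30, nat_lit 5, nat_lit 5, nat_lit 20], false, nat_lit 80, nat_lit 160, nat_lit 8, nat_lit 276, ⟨nat_lit 73, nat_lit 927, nat_lit 0, nat_lit 9, nat_lit 345, nat_lit 927, nat_lit 84, nat_lit 0, nat_lit 0, nat_lit 0, nat_lit 0, nat_lit 0, nat_lit 36593967, nat_lit 27464594, nat_lit 2941439, nat_lit 4366280, true, true⟩,
 nat_lit 0, nat_lit 0, nat_lit 902, nat_lit 0, nat_lit 4027, nat_lit 574, nat_lit 0, nat_lit 0, nat_lit 0, nat_lit 38, nat_lit 0, nat_lit 0, nat_lit 0, nat_lit 0, nat_lit 0, nat_lit 231750, nat_lit 0, nat_lit 0, [(nat_lit 22, [(nat_lit 0, nat_lit 927)])],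
 ⟨p091_k3, nat_lit 0, nat_lit 0, nat_lit 125, nat_lit 0, nat_lit 0, [nat_lit 1601872001, nat_lit 2169155600, nat_lit 2616901600], [], [nat_lit 28634248786, nat_lit 29141260200, nat_lit 30205604268, nat_lit 30672735120, nat_lit 28522539463, nat_lit 28983869844, nat_lit 29954784615, nat_lit 30380570537], nat_lit 0, nat_lit 0, nat_lit 0, nat_lit 0, nat_lit 0, nat_lit 0, [], [nat_lit 6, nat_lit 40, nat_lit 40, nat_lit 80, nat_lit 3, nat_lit 249, nat_lit 40, nat_lit 8]⟩, ⟨p091_k1, nat_lit 0, nat_lit 0, nat_lit 719, nat_lit 0, nat_lit 1221308, [nat_lit 239586000, nat_lit 456250000, nat_lit 718466000], [], [nat_lit 2802194535, nat_lit 2808101500, nat_lit 2850777535, nat_lit 2871832151, nat_lit 2414620041, nat_lit 2417909268, nat_lit 2446703477, nat_lit 2450944175], nat_lit 1271250, nat_lit 1271250, nat_lit 1271250, nat_lit 1271250, nat_lit 43600, nat_lit 1956450, [nat_lit 780000, nat_lit 1435000, nat_lit 1271250], [nat_lit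 8, nat_lit 40, nat_lit 40, nat_lit 80, nat_lit 1, nat_lit 299, nat_lit 75, nat_lit 8]⟩,
 ⟨nat_lit 3162, nat_lit 3536, ⟨.ofNat (nat_lit 838855), .ofNat (nat_lit 882788), .ofNat (nat_lit 849831), .ofNat (nat_lit 893764), .ofNat (nat_lit 832432), .ofNat (nat_lit 875099), .ofNat (nat_lit 843509), .ofNat (nat_lit 886176)⟩, ⟨.ofNat (nat_lit 136093), .ofNat (nat_lit 261616), .ofNat (nat_lit 158046), .ofNat (nat_lit 283569), .ofNat (nat_lit 139899), .ofNat (nat_lit 261806), .ofNat (nat_lit 162054), .ofNat (nat_lit 283961)⟩⟩, [⟨nat_lit 13, nat_lit 70, nat_lit 48, nat_lit 100, nat_lit 293337024⟩, ⟨nat_lit 19, nat_lit 94, nat_lit 100, nat_lit 69, nat_lit 7214932⟩]⟩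
noncomputable def p091_l24 : Lf2 := ⟨nat_lit 0, nat_lit 15, [nat_lit 30, nat_lit 5, nat_lit 5, nat_lit 20], false, nat_lit 80, nat_lit 160, nat_lit 8, nat_lit 268, ⟨nat_lit 467, nat_lit 533, nat_lit 0, nat_lit 9, nat_lit 355, nat_lit 533, nat_lit 83, nat_lit 0, nat_lit 0, nat_lit 0, nat_lit 0, nat_lit 0, nat_lit 35798412, nat_lit 28351925, nat_lit 2849663, nat_lit 4362588, true, true⟩,
 nat_lit 0, nat_lit 0, nat_lit 4407, nat_lit 0, nat_lit 3471, nat_lit 2926, nat_lit 124, nat_lit 0, nat_lit 0, nat_lit 493, nat_lit 0, nat_lit 0, nat_lit 0, nat_lit 0, nat_lit 0, nat_lit 533000, nat_lit 0, nat_lit 0, [(nat_lit 22, [(nat_lit 2, nat_lit 533)])],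
 ⟨p091_k13, nat_lit 0, nat_lit 0, nat_lit 139, nat_lit 0, nat_lit 0, [nat_lit 1651935467, nat_lit 2226446801, nat_lit 1715470600], [], [nat_lit 27226441835, nat_lit 27655990966, nat_lit 29095600572, nat_lit 29614386960, nat_lit 27384400185, nat_lit 27773320564, nat_lit 29030153013, nat_lit 29428715535], nat_lit 0, nat_lit 0, nat_lit 0, nat_lit 0, nat_lit 0, nat_lit 0, [], [nat_lit 161, nat_lit 40, nat_lit 40, nat_lit 80, nat_lit 43, nat_lit 249, nat_lit 40, nat_lit 7]⟩, ⟨p091_k15, nat_lit 0, nat_lit 0, nat_lit 640, nat_lit 0, nat_lit 1085278, [nat_lit 1532694000, nat_lit 2189296000, nat_lit 4596214000], [], [nat_lit 16194668231, nat_lit 16253698536, nat_lit 16819713291, nat_lit 17103619754, nat_lit 14776626987, nat_lit 14825102939, nat_lit 15109375310, nat_lit 15150234216], nat_lit 1271250, nat_lit 1271250, nat_lit 1271250, nat_lit 1271250, nat_lit 43600, nat_lit 1899350, [nat_lit 780000, nat_lit 1100000, nat_lit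 2127500], [nat_lit 42, nat_lit 40, nat_lit 40, nat_lit 80, nat_lit 13, nat_lit 289, nat_lit 75, nat_lit 7]⟩,
 ⟨nat_lit 3535, nat_lit 3873, ⟨.ofNat (nat_lit 856151), .ofNat (nat_lit 914224), .ofNat (nat_lit 867045), .ofNat (nat_lit 925119), .ofNat (nat_lit 849828), .ofNat (nat_lit 906316), .ofNat (nat_lit 860801), .ofNat (nat_lit 917291)⟩, ⟨.ofNat (nat_lit 132088), .ofNat (nat_lit 261131), .ofNat (nat_lit 153881), .ofNat (nat_lit 282924), .ofNat (nat_lit 136093), .ofNat (nat_lit 261616), .ofNat (nat_lit 158046), .ofNat (nat_lit 283569)⟩⟩, [⟨nat_lit 13, nat_lit 78, nat_lit 35, nat_lit 100, nat_lit 77754181⟩, ⟨nat_lit 4, nat_lit 100, nat_lit 69, nat_lit 66, nat_lit 148463485⟩, ⟨nat_lit 19, nat_lit 90, nat_lit 100, nat_lit 68, nat_lit 71432671⟩]⟩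
noncomputable def p091_l25 : Lf2 := ⟨nat_lit 0, nat_lit 15, [nat_lit 30, nat_lit 5, nat_lit 5, nat_lit 20], false, nat_lit 80, nat_lit 160, nat_lit 8, nat_lit 268, ⟨nat_lit 113, nat_lit 887, nat_lit 0, nat_lit 9, nat_lit 351, nat_lit 887, nat_lit 84, nat_lit 0, nat_lit 0, nat_lit 0, nat_lit 0, nat_lit 0, nat_lit 36114355, nat_lit 27971690, nat_lit 2913955, nat_lit 4370449, true, true⟩,
 nat_lit 0, nat_lit 0, nat_lit 1257, nat_lit 0, nat_lit 3524, nat_lit 834, nat_lit 128, nat_lit 0, nat_lit 0, nat_lit 61, nat_lit 0, nat_lit 0, nat_lit 0, nat_lit 0, nat_lit 0, nat_lit 221750, nat_lit 0, nat_lit 0, [(nat_lit 22, [(nat_lit 0, nat_lit 887)])],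
 ⟨p091_k3, nat_lit 0, nat_lit 0, nat_lit 126, nat_lit 0, nat_lit 0, [nat_lit 1620432001, nat_lit 2277843600, nat_lit 2773669600], [], [nat_lit 27854640432, nat_lit 28335152800, nat_lit 29547527265, nat_lit 29986302369, nat_lit 27966309925, nat_lit 28383735985, nat_lit 29492408536, nat_lit 29894342807], nat_lit 0, nat_lit 0, nat_lit 0, nat_lit 0, nat_lit 0, nat_lit 0, [], [nat_lit 6, nat_lit 40, nat_lit 40, nat_lit 80, nat_lit 3, nat_lit 249, nat_lit 40, nat_lit 8]⟩, ⟨p091_k5, nat_lit 0, nat_lit 0, nat_lit 716, nat_lit 0, nat_lit 1217832, [nat_lit 370866000, nat_lit 706250000, nat_lit 1112146000], [], [nat_lit 4238459730, nat_lit 4251787809, nat_lit 4348921271, nat_lit 4407275473, nat_lit 3724590199, nat_lit 3730763349, nat_lit 3780949443, nat_lit 3786060375], nat_lit 1271250, nat_lit 1271250, nat_lit 1271250, nat_lit 1271250, nat_lit 43600, nat_lit 1899350, [nat_lit 780000, nat_lit 1435000, nat_lit 1271250], [nat_lit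 8, nat_lit 40, nat_lit 40, nat_lit 80, nat_lit 1, nat_lit 299, nat_lit 75, nat_lit 8]⟩,
 ⟨nat_lit 3162, nat_lit 3536, ⟨.ofNat (nat_lit 849831), .ofNat (nat_lit 900040), .ofNat (nat_lit 860807), .ofNat (nat_lit 911016), .ofNat (nat_lit 843509), .ofNat (nat_lit 892272), .ofNat (nat_lit 854586), .ofNat (nat_lit 903349)⟩, ⟨.ofNat (nat_lit 136093), .ofNat (nat_lit 261616), .ofNat (nat_lit 158046), .ofNat (nat_lit 283569), .ofNat (nat_lit 139899), .ofNat (nat_lit 261806), .ofNat (nat_lit 162054), .ofNat (nat_lit 283961)⟩⟩, [⟨nat_lit 13, nat_lit 72, nat_lit 43, nat_lit 100, nat_lit 249930124⟩, ⟨nat_lit 4, nat_lit 100, nat_lit 64, nat_lit 67, nat_lit 45493787⟩, ⟨nat_lit 19, nat_lit 90, nat_lit 100, nat_lit 68, nat_lit 12093747⟩]⟩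
noncomputable def p091_l26 : Lf2 := ⟨nat_lit 0, nat_lit 20, [nat_lit 5, nat_lit 5, nat_lit 5, nat_lit 20], false, nat_lit 80, nat_lit 160, nat_lit 8, nat_lit 288, ⟨nat_lit 525, nat_lit 475, nat_lit 0, nat_lit 9, nat_lit 348, nat_lit 475, nat_lit 92, nat_lit 0, nat_lit 0, nat_lit 0, nat_lit 0, nat_lit 0, nat_lit 36093897, nat_lit 27571125, nat_lit 3334978, nat_lit 4457314, true, true⟩,
 nat_lit 0, nat_lit 0, nat_lit 6143, nat_lit 0, nat_lit 3637, nat_lit 3909, nat_lit 421, nat_lit 0, nat_lit 0, nat_lit 354, nat_lit 0, nat_lit 0, nat_lit 0, nat_lit 0, nat_lit 0, nat_lit 190000, nat_lit 0, nat_lit 0, [(nat_lit 22, [(nat_lit 1, nat_lit 475)])],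
 ⟨p091_k8, nat_lit 0, nat_lit 0, nat_lit 140, nat_lit 0, nat_lit 0, [nat_lit 1712040001, nat_lit 3199730000, nat_lit 4845730000], [], [nat_lit 27512122128, nat_lit 27966132202, nat_lit 29157735279, nat_lit 29663725547, nat_lit 27553970547, nat_lit 27948924860, nat_lit 29029268927, nat_lit 29415891575], nat_lit 0, nat_lit 0, nat_lit 0, nat_lit 0, nat_lit 0, nat_lit 0, [], [nat_lit 34, nat_lit 40, nat_lit 40, nat_lit 80, nat_lit 7, nat_lit 249, nat_lit 40, nat_lit 7]⟩, ⟨p091_k9, nat_lit 0, nat_lit 0, nat_lit 574, nat_lit 0, nat_lit 803025, [nat_lit 1723050000, nat_lit 3281250000, nat_lit 6232800000], [], [nat_lit 19611359372, nat_lit 19664081481, nat_lit 20646503454, nat_lit 20748020930, nat_lit 17246139590, nat_lit 17274879292, nat_lit 17761392033, nat_lit 17803725712], nat_lit 1271250, nat_lit 1271250, nat_lit 1271250, nat_lit 1271250, nat_lit 43600, nat_lit 2042100, [nat_lit 780000, nat_lit 1435000, nat_lit 1271250],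 [nat_lit 23, nat_lit 40, nat_lit 40, nat_lit 80, nat_lit 12, nat_lit 373, nat_lit 150, nat_lit 9]⟩,
 ⟨nat_lit 3535, nat_lit 3873, ⟨.ofNat (nat_lit 845257), .ofNat (nat_lit 896875), .ofNat (nat_lit 850704), .ofNat (nat_lit 902323), .ofNat (nat_lit 838854), .ofNat (nat_lit 889064), .ofNat (nat_lit 844341), .ofNat (nat_lit 894552)⟩, ⟨.ofNat (nat_lit 153881), .ofNat (nat_lit 282924), .ofNat (nat_lit 175674), .ofNat (nat_lit 304717), .ofNat (nat_lit 158046), .ofNat (nat_lit 283569), .ofNat (nat_lit 179999), .ofNat (nat_lit 305521)⟩⟩, [⟨nat_lit 22, nat_lit 48, nat_lit 100, nat_lit 92, nat_lit 94669220⟩]⟩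
noncomputable def p091_l27 : Lf2 := ⟨nat_lit 0, nat_lit 20, [nat_lit 5, nat_lit 5, nat_lit 5, nat_lit 20], false, nat_lit 80, nat_lit 160, nat_lit 8, nat_lit 288, ⟨nat_lit 281, nat_lit 719, nat_lit 0, nat_lit 9, nat_lit 343, nat_lit 719, nat_lit 93, nat_lit 0, nat_lit 0, nat_lit 0, nat_lit 0, nat_lit 0, nat_lit 36509206, nat_lit 27075271, nat_lit 3415523, nat_lit 4464038, true, true⟩,
 nat_lit 0, nat_lit 0, nat_lit 3363, nat_lit 0, nat_lit 3343, nat_lit 2139, nat_lit 257, nat_lit 0, nat_lit 0, nat_lit 176, nat_lit 0, nat_lit 0, nat_lit 0, nat_lit 0, nat_lit 0, nat_lit 287600, nat_lit 0, nat_lit 0, [(nat_lit 22, [(nat_lit 1, nat_lit 719)])],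
 ⟨p091_k11, nat_lit 0, nat_lit 0, nat_lit 140, nat_lit 0, nat_lit 0, [nat_lit 1547681601, nat_lit 2435229201, nat_lit 3241869200], [], [nat_lit 27494783203, nat_lit 27935151089, nat_lit 28659187236, nat_lit 29151828860, nat_lit 27657943927, nat_lit 28042211634, nat_lit 28673841517, nat_lit 29046855092], nat_lit 0, nat_lit 0, nat_lit 0, nat_lit 0, nat_lit 0, nat_lit 0, [], [nat_lit 34, nat_lit 40, nat_lit 40, nat_lit 80, nat_lit 7, nat_lit 249, nat_lit 40, nat_lit 7]⟩, ⟨p091_k9, nat_lit 0, nat_lit 0, nat_lit 659, nat_lit 0, nat_lit 947088, [nat_lit 922242000, nat_lit 1756250000, nat_lit 3336032000], [], [nat_lit 10718598346, nat_lit 10738762927, nat_lit 11055199199, nat_lit 11112091698, nat_lit 9360908663, nat_lit 9373682494, nat_lit 9522632182, nat_lit 9536428472], nat_lit 1271250, nat_lit 1271250, nat_lit 1271250, nat_lit 1271250, nat_lit 43600, nat_lit 2042100, [nat_lit 780000, nat_lit 1435000, nat_lit 1271250],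 [nat_lit 23, nat_lit 40, nat_lit 40, nat_lit 80, nat_lit 12, nat_lit 373, nat_lit 150, nat_lit 9]⟩,
 ⟨nat_lit 3162, nat_lit 3536, ⟨.ofNat (nat_lit 838855), .ofNat (nat_lit 876512), .ofNat (nat_lit 844343), .ofNat (nat_lit 882000), .ofNat (nat_lit 832432), .ofNat (nat_lit 869004), .ofNat (nat_lit 837970), .ofNat (nat_lit 874542)⟩, ⟨.ofNat (nat_lit 158046), .ofNat (nat_lit 283569), .ofNat (nat_lit 179999), .ofNat (nat_lit 305521), .ofNat (nat_lit 162054), .ofNat (nat_lit 283961), .ofNat (nat_lit 184209), .ofNat (nat_lit 306116)⟩⟩, [⟨nat_lit 13, nat_lit 65, nat_lit 54, nat_lit 100, nat_lit 115586636⟩, ⟨nat_lit 10, nat_lit 90, nat_lit 51, nat_lit 100, nat_lit 43418866⟩]⟩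
noncomputable def p091_l28 : Lf2 := ⟨nat_lit 0, nat_lit 20, [nat_lit 5, nat_lit 5, nat_lit 5, nat_lit 20], false, nat_lit 80, nat_lit 160, nat_lit 8, nat_lit 288, ⟨nat_lit 1000, nat_lit 0, nat_lit 0, nat_lit 0, nat_lit 0, nat_lit 0, nat_lit 0, nat_lit 0, nat_lit 0, nat_lit 0, nat_lit 0, nat_lit 0, nat_lit 0, nat_lit 0, nat_lit 0, nat_lit 0, false, false⟩,
 nat_lit 0, nat_lit 0, nat_lit 11007, nat_lit 0, nat_lit 4158, nat_lit 7156, nat_lit 695, nat_lit 0, nat_lit 0, nat_lit 684, nat_lit 0, nat_lit 0, nat_lit 0, nat_lit 0, nat_lit 0, nat_lit 0, nat_lit 0, nat_lit 0, [],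
 ⟨p091_k8, nat_lit 0, nat_lit 0, nat_lit 140, nat_lit 0, nat_lit 0, [nat_lit 2032000001, nat_lit 4688000000, nat_lit 7968000000], [], [nat_lit 28271978352, nat_lit 28750163868, nat_lit 30054589287, nat_lit 30621562165, nat_lit 28074437852, nat_lit 28512551755, nat_lit 29682582426, nat_lit 30119488556], nat_lit 0, nat_lit 0, nat_lit 0, nat_lit 0, nat_lit 0, nat_lit 0, [], [nat_lit 34, nat_lit 40, nat_lit 40, nat_lit 80, nat_lit 7, nat_lit 249, nat_lit 40, nat_lit 7]⟩, ⟨p091_k12, nat_lit 0, nat_lit 0, nat_lit 577, nat_lit 0, nat_lit 814761, [nat_lit 3282000000, nat_lit 6250000000, nat_lit 11872000000], [], [nat_lit 36997823777, nat_lit 37098233052, nat_lit 38889450614, nat_lit 39080281116, nat_lit 32786287406, nat_lit 32840985924, nat_lit 33741973870, nat_lit 33813177846], nat_lit 1271250, nat_lit 1271250, nat_lit 1271250, nat_lit 1271250, nat_lit 43600, nat_lit 2042100, [nat_lit 780000, nat_lit 1435000, nat_lit 1271250],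 [nat_lit 23, nat_lit 40, nat_lit 40, nat_lit 80, nat_lit 12, nat_lit 373, nat_lit 150, nat_lit 9]⟩,
 zbF0, [⟨nat_lit 19, nat_lit 98, nat_lit 100, nat_lit 83, nat_lit 98929137⟩, ⟨nat_lit 10, nat_lit 90, nat_lit 48, nat_lit 100, nat_lit 10572859⟩]⟩
noncomputable def p091_l29 : Lf2 := ⟨nat_lit 0, nat_lit 20, [nat_lit 5, nat_lit 5, nat_lit 5, nat_lit 20], false, nat_lit 80, nat_lit 160, nat_lit 8, nat_lit 288, ⟨nat_lit 319, nat_lit 681, nat_lit 0, nat_lit 9, nat_lit 346, nat_lit 681, nat_lit 93, nat_lit 0, nat_lit 0, nat_lit 0, nat_lit 0, nat_lit 0, nat_lit 36219902, nat_lit 27383889, nat_lit 3396209, nat_lit 4466718, true, true⟩,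
 nat_lit 0, nat_lit 0, nat_lit 3594, nat_lit 0, nat_lit 3274, nat_lit 2336, nat_lit 295, nat_lit 0, nat_lit 0, nat_lit 203, nat_lit 0, nat_lit 0, nat_lit 0, nat_lit 0, nat_lit 0, nat_lit 272400, nat_lit 0, nat_lit 0, [(nat_lit 22, [(nat_lit 1, nat_lit 681)])],
 ⟨p091_k11, nat_lit 0, nat_lit 0, nat_lit 141, nat_lit 0, nat_lit 0, [nat_lit 1573278401, nat_lit 2554290801, nat_lit 3491650800], [], [nat_lit 27437272436, nat_lit 27854069604, nat_lit 28747254591, nat_lit 29267806696, nat_lit 27634097794, nat_lit 28015857420, nat_lit 28810456182, nat_lit 29176108272], nat_lit 0, nat_lit 0, nat_lit 0, nat_lit 0, nat_lit 0, nat_lit 0, [], [nat_lit 34, nat_lit 40, nat_lit 40, nat_lit 80, nat_lit 7, nat_lit 249, nat_lit 40, nat_lit 7]⟩, ⟨p091_k12, nat_lit 0, nat_lit 0, nat_lit 660, nat_lit 0, nat_lit 952539, [nat_lit 1046958000, nat_lit 1993750000, nat_lit 3787168000], [], [nat_lit 12075166844, nat_lit 12098303627, nat_lit 12516445416,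 nat_lit 12578965997, nat_lit 10628205916, nat_lit 10640385850, nat_lit 10835755842, nat_lit 10852993103], nat_lit 1271250, nat_lit 1271250, nat_lit 1271250, nat_lit 1271250, nat_lit 43600, nat_lit 2042100, [nat_lit 780000, nat_lit 1435000, nat_lit 1271250], [nat_lit 23, nat_lit 40, nat_lit 40, nat_lit 80, nat_lit 12, nat_lit 373, nat_lit 150, nat_lit 9]⟩,
 ⟨nat_lit 3162, nat_lit 3536, ⟨.ofNat (nat_lit 844343), .ofNat (nat_lit 888276), .ofNat (nat_lit 849831), .ofNat (nat_lit 893764), .ofNat (nat_lit 837970), .ofNat (nat_lit 880638), .ofNat (nat_lit 843509), .ofNat (nat_lit 886176)⟩, ⟨.ofNat (nat_lit 158046), .ofNat (nat_lit 283569), .ofNat (nat_lit 179999), .ofNat (nat_lit 305521), .ofNat (nat_lit 162054), .ofNat (nat_lit 283961), .ofNat (nat_lit 184209), .ofNat (nat_lit 306116)⟩⟩, [⟨nat_lit 13, nat_lit 66, nat_lit 52, nat_lit 100, nat_lit 82437469⟩, ⟨nat_lit 10, nat_lit 90, nat_lit 49, nat_lit 100, nat_lit 54112768⟩]⟩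
noncomputable def p091_l30 : Lf2 := ⟨nat_lit 0, nat_lit 20, [nat_lit 5, nat_lit 5, nat_lit 5, nat_lit 20], false, nat_lit 80, nat_lit 160, nat_lit 8, nat_lit 288, ⟨nat_lit 362, nat_lit 638, nat_lit 0, nat_lit 9, nat_lit 352, nat_lit 638, nat_lit 93, nat_lit 0, nat_lit 0, nat_lit 0, nat_lit 0, nat_lit 0, nat_lit 35727759, nat_lit 27936532, nat_lit 3335709, nat_lit 4464725, true, true⟩,
 nat_lit 0, nat_lit 0, nat_lit 3849, nat_lit 0, nat_lit 3417, nat_lit 2556, nat_lit 318, nat_lit 0, nat_lit 0, nat_lit 253, nat_lit 0, nat_lit 0, nat_lit 0, nat_lit 0, nat_lit 0, nat_lit 255200, nat_lit 0, nat_lit 0, [(nat_lit 22, [(nat_lit 1, nat_lit 638)])],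
 ⟨p091_k8, nat_lit 0, nat_lit 0, nat_lit 144, nat_lit 0, nat_lit 0, [nat_lit 1602243201, nat_lit 2689018400, nat_lit 3774298400], [], [nat_lit 27336706937, nat_lit 28214728116, nat_lit 29131122791, nat_lit 30028887706, nat_lit 27514923387, nat_lit 28288838453, nat_lit 29085344736, nat_lit 29826204593], nat_lit 0, nat_lit 0, nat_lit 0, nat_lit 0, nat_lit 0, nat_lit 0, [], [nat_lit 34, nat_lit 40, nat_lit 40, nat_lit 80, nat_lit 7, nat_lit 249, nat_lit 40, nat_lit 7]⟩, ⟨p091_k10, nat_lit 0, nat_lit 0, nat_lit 661, nat_lit 0, nat_lit 958396, [nat_lit 1188084000, nat_lit 2262500000, nat_lit 4297664000], [], [nat_lit 13272692153, nat_lit 13299199984, nat_lit 14068170128, nat_lit 14135650634, nat_lit 11897456287, nat_lit 11918689732, nat_lit 12203180763, nat_lit 12220653956], nat_lit 1271250, nat_lit 1271250, nat_lit 1271250, nat_lit 1271250, nat_lit 43600, nat_lit 2042100, [nat_lit 780000, nat_lit 1435000, nat_lit 1271250],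 [nat_lit 23, nat_lit 40, nat_lit 40, nat_lit 80, nat_lit 12, nat_lit 373, nat_lit 150, nat_lit 9]⟩,
 ⟨nat_lit 3162, nat_lit 3873, ⟨.ofNat (nat_lit 856147), .ofNat (nat_lit 914224), .ofNat (nat_lit 861589), .ofNat (nat_lit 919672), .ofNat (nat_lit 843501), .ofNat (nat_lit 898367), .ofNat (nat_lit 849034), .ofNat (nat_lit 903906)⟩, ⟨.ofNat (nat_lit 153881), .ofNat (nat_lit 282924), .ofNat (nat_lit 175674), .ofNat (nat_lit 304717), .ofNat (nat_lit 162054), .ofNat (nat_lit 283961), .ofNat (nat_lit 184209), .ofNat (nat_lit 306116)⟩⟩, [⟨nat_lit 13, nat_lit 67, nat_lit 50, nat_lit 100, nat_lit 48273611⟩, ⟨nat_lit 22, nat_lit 46, nat_lit 100, nat_lit 92, nat_lit 72703115⟩]⟩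
noncomputable def p091_l31 : Lf2 := ⟨nat_lit 0, nat_lit 20, [nat_lit 5, nat_lit 5, nat_lit 5, nat_lit 20], false, nat_lit 80, nat_lit 160, nat_lit 8, nat_lit 284, ⟨nat_lit 1000, nat_lit 0, nat_lit 0, nat_lit 0, nat_lit 0, nat_lit 0, nat_lit 0, nat_lit 0, nat_lit 0, nat_lit 0, nat_lit 0, nat_lit 0, nat_lit 0, nat_lit 0, nat_lit 0, nat_lit 0, false, false⟩,
 nat_lit 0, nat_lit 0, nat_lit 8918, nat_lit 0, nat_lit 4108, nat_lit 6047, nat_lit 682, nat_lit 0, nat_lit 0, nat_lit 1399, nat_lit 0, nat_lit 0, nat_lit 0, nat_lit 0, nat_lit 0, nat_lit 0, nat_lit 0, nat_lit 0, [],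
 ⟨p091_k8, nat_lit 0, nat_lit 0, nat_lit 144, nat_lit 0, nat_lit 0, [nat_lit 2032000001, nat_lit 4688000000, nat_lit 7968000000], [], [nat_lit 28382361152, nat_lit 29334091984, nat_lit 30334977025, nat_lit 31363357685, nat_lit 28205008152, nat_lit 29071511328, nat_lit 29991654459, nat_lit 30814013732], nat_lit 0, nat_lit 0, nat_lit 0, nat_lit 0, nat_lit 0, nat_lit 0, [], [nat_lit 34, nat_lit 40, nat_lit 40, nat_lit 80, nat_lit 7, nat_lit 249, nat_lit 40, nat_lit 7]⟩, ⟨p091_k16, nat_lit 0, nat_lit 0, nat_lit 663, nat_lit 0, nat_lit 964486, [nat_lit 3282000000, nat_lit 6250000000, nat_lit 11872000000], [], [nat_lit 34023462900, nat_lit 34116345297, nat_lit 35766718456, nat_lit 36065575928, nat_lit 31645045956, nat_lit 31699823493, nat_lit 32523075479, nat_lit 32722460363], nat_lit 1271250, nat_lit 1271250, nat_lit 1271250, nat_lit 1271250, nat_lit 43600, nat_lit 2013550, [nat_lit 780000, nat_lit 1435000, nat_lit 1271250],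 [nat_lit 23, nat_lit 40, nat_lit 40, nat_lit 80, nat_lit 12, nat_lit 373, nat_lit 150, nat_lit 9]⟩,
 zbF0, [⟨nat_lit 19, nat_lit 93, nat_lit 100, nat_lit 81, nat_lit 156760629⟩]⟩
noncomputable def b_V_800_700_10_20 : St := ⟨true, nat_lit 0, nat_lit 1, nat_lit 1, nat_lit 80, nat_lit 340, nat_lit 360, nat_lit 280, nat_lit 300, nat_lit 320, nat_lit 396, nat_lit 40, nat_lit 80, nat_lit 80, nat_lit 160, nat_lit 0, nat_lit 300, nat_lit 40, nat_lit 80, nat_lit 0, nat_lit 0, nat_lit 0, nat_lit 0⟩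
theorem d_V_800_700_10_20 (h : EB TB.env) : Dead b_V_800_700_10_20 := chkB_sound0 h (T :=
(.spl (nat_lit 2) (nat_lit 360)
(.spl (nat_lit 3) (nat_lit 60)
(.trX (nat_lit 19) (nat_lit 99) (nat_lit 100) (nat_lit 77) (nat_lit 276) (.spl (nat_lit 0) (nat_lit 350)
(.spl (nat_lit 0) (nat_lit 345)
(.leaf p091_l15)
(.leaf p091_l16))
(.leaf p091_l17)))
(.spl (nat_lit 1) (nat_lit 290)
(.spl (nat_lit 1) (nat_lit 285)
(.spl (nat_lit 0) (nat_lit 350)
(.leaf p091_l18)
(.leaf p091_l19))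
(.trX (nat_lit 19) (nat_lit 100) (nat_lit 98) (nat_lit 88) (nat_lit 296) (.leaf p091_l20)))
(.trX (nat_lit 19) (nat_lit 100) (nat_lit 100) (nat_lit 89) (nat_lit 292) (.leaf p091_l21))))
(.trZ (nat_lit 9) (nat_lit 100) (nat_lit 75) (nat_lit 35) (nat_lit 8) (.trX (nat_lit 22) (nat_lit 61) (nat_lit 92) (nat_lit 100) (nat_lit 288) (.spl (nat_lit 3) (nat_lit 60)
(.trX (nat_lit 19) (nat_lit 99) (nat_lit 100) (nat_lit 77) (nat_lit 276) (.spl (nat_lit 1) (nat_lit 290)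
(.trX (nat_lit 13) (nat_lit 80) (nat_lit 34) (nat_lit 100) (nat_lit 392) (.spl (nat_lit 0) (nat_lit 350)
(.leaf p091_l22)
(.trX (nat_lit 13) (nat_lit 74) (nat_lit 42) (nat_lit 100) (nat_lit 388) (.leaf p091_l23))))
(.trX (nat_lit 19) (nat_lit 94) (nat_lit 100) (nat_lit 75) (nat_lit 268) (.spl (nat_lit 0) (nat_lit 350)
(.leaf p091_l24)
(.trX (nat_lit 13) (nat_lit 76) (nat_lit 37) (nat_lit 100) (nat_lit 392) (.leaf p091_l25))))))
(.spl (nat_lit 1) (nat_lit 290)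
(.trX (nat_lit 13) (nat_lit 80) (nat_lit 34) (nat_lit 100) (nat_lit 392) (.spl (nat_lit 1) (nat_lit 285)
(.spl (nat_lit 0) (nat_lit 350)
(.leaf p091_l26)
(.trX (nat_lit 13) (nat_lit 73) (nat_lit 44) (nat_lit 100) (nat_lit 384) (.leaf p091_l27)))
(.spl (nat_lit 0) (nat_lit 350)
(.leaf p091_l28)
(.trX (nat_lit 13) (nat_lit 74) (nat_lit 42) (nat_lit 100) (nat_lit 388) (.leaf p091_l29)))))
(.spl (nat_lit 1) (nat_lit 295)
(.leaf p091_l30)
(.trX (nat_lit 19) (nat_lit 97) (nat_lit 100) (nat_lit 88) (nat_lit 284) (.leaf p091_l31))))))))) (by decide +kernel)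
noncomputable def p091_l32 : Lf2 := ⟨nat_lit 0, nat_lit 20, [nat_lit 5, nat_lit 5, nat_lit 5, nat_lit 20], false, nat_lit 0, nat_lit 160, nat_lit 0, nat_lit 280, ⟨nat_lit 1000, nat_lit 0, nat_lit 0, nat_lit 0, nat_lit 0, nat_lit 0, nat_lit 0, nat_lit 0, nat_lit 0, nat_lit 0, nat_lit 0, nat_lit 0, nat_lit 0, nat_lit 0, nat_lit 0, nat_lit 0, false, false⟩,
 nat_lit 0, nat_lit 0, nat_lit 8420, nat_lit 0, nat_lit 5531, nat_lit 5829, nat_lit 755, nat_lit 0, nat_lit 0, nat_lit 1097, nat_lit 0, nat_lit 0, nat_lit 0, nat_lit 0, nat_lit 0, nat_lit 0, nat_lit 0, nat_lit 0, [],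
 ⟨p091_k17, nat_lit 0, nat_lit 0, nat_lit 211, nat_lit 0, nat_lit 0, [nat_lit 2032000001, nat_lit 4688000000, nat_lit 9842000000], [], [nat_lit 30851804115, nat_lit 31353841733, nat_lit 36748316436, nat_lit 37398889590, nat_lit 27364826195, nat_lit 27793021720, nat_lit 31750489596, nat_lit 32176097922], nat_lit 0, nat_lit 0, nat_lit 0, nat_lit 0, nat_lit 0, nat_lit 0, [], [nat_lit 27, nat_lit 40, nat_lit 40, nat_lit 80, nat_lit 13, nat_lit 249, nat_lit 40, nat_lit 6]⟩, ⟨p091_k18, nat_lit 0, nat_lit 0, nat_lit 610, nat_lit 0, nat_lit 966364, [nat_lit 3282000000, nat_lit 6250000000, nat_lit 9842000000], [], [nat_lit 33805237881, nat_lit 34229689591, nat_lit 36426607194, nat_lit 37582047724, nat_lit 31730655211, nat_lit 31991958687, nat_lit 33219698394, nat_lit 33410438396], nat_lit 1271250, nat_lit 1271250, nat_lit 1271250, nat_lit 1271250, nat_lit 0, nat_lit 1977500, [nat_lit 780000, nat_lit 1435000, nat_lit 1271250],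 [nat_lit 8, nat_lit 40, nat_lit 40, nat_lit 80, nat_lit 1, nat_lit 289, nat_lit 75, nat_lit 8]⟩,
 zbF0, [⟨nat_lit 19, nat_lit 85, nat_lit 100, nat_lit 73, nat_lit 163170549⟩]⟩
noncomputable def p091_l33 : Lf2 := ⟨nat_lit 0, nat_lit 20, [nat_lit 5, nat_lit 5, nat_lit 5, nat_lit 20], false, nat_lit 0, nat_lit 160, nat_lit 0, nat_lit 280, ⟨nat_lit 1000, nat_lit 0, nat_lit 0, nat_lit 0, nat_lit 0, nat_lit 0, nat_lit 0, nat_lit 0, nat_lit 0, nat_lit 0, nat_lit 0, nat_lit 0, nat_lit 0, nat_lit 0, nat_lit 0, nat_lit 0, false, false⟩,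
 nat_lit 0, nat_lit 0, nat_lit 8435, nat_lit 0, nat_lit 5101, nat_lit 5839, nat_lit 769, nat_lit 0, nat_lit 0, nat_lit 1144, nat_lit 0, nat_lit 0, nat_lit 0, nat_lit 0, nat_lit 0, nat_lit 0, nat_lit 0, nat_lit 0, [],
 ⟨p091_k19, nat_lit 0, nat_lit 0, nat_lit 212, nat_lit 0, nat_lit 0, [nat_lit 2032000001, nat_lit 4688000000, nat_lit 9842000000], [], [nat_lit 29759828743, nat_lit 30330157168, nat_lit 36170426890, nat_lit 36795572424, nat_lit 26672792620, nat_lit 27087324895, nat_lit 30854803948, nat_lit 31405360752], nat_lit 0, nat_lit 0, nat_lit 0, nat_lit 0, nat_lit 0, nat_lit 0, [], [nat_lit 27, nat_lit 40, nat_lit 40, nat_lit 80, nat_lit 13, nat_lit 249, nat_lit 40, nat_lit 6]⟩, ⟨p091_k18, nat_lit 0, nat_lit 0, nat_lit 649, nat_lit 0, nat_lit 1076197, [nat_lit 3282000000, nat_lit 6250000000, nat_lit 9842000000], [], [nat_lit 34071084714, nat_lit 34444028260, nat_lit 36453679054, nat_lit 37610025284, nat_lit 31947277265,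 nat_lit 32172659974, nat_lit 33262642456, nat_lit 33424153862], nat_lit 1271250, nat_lit 1271250, nat_lit 1271250, nat_lit 1271250, nat_lit 0, nat_lit 1977500, [nat_lit 780000, nat_lit 1435000, nat_lit 1271250], [nat_lit 8, nat_lit 40, nat_lit 40, nat_lit 80, nat_lit 1, nat_lit 289, nat_lit 75, nat_lit 8]⟩,
 zbF0, [⟨nat_lit 7, nat_lit 100, nat_lit 85, nat_lit 73, nat_lit 162694903⟩]⟩
noncomputable def p091_l34 : Lf2 := ⟨nat_lit 0, nat_lit 20, [nat_lit 5, nat_lit 5, nat_lit 5, nat_lit 20], false, nat_lit 0, nat_lit 160, nat_lit 0, nat_lit 160, ⟨nat_lit 1000, nat_lit 0, nat_lit 0, nat_lit 0, nat_lit 0, nat_lit 0, nat_lit 0, nat_lit 0, nat_lit 0, nat_lit 0, nat_lit 0, nat_lit 0, nat_lit 0, nat_lit 0, nat_lit 0, nat_lit 0, false, false⟩,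
 nat_lit 0, nat_lit 0, nat_lit 8502, nat_lit 0, nat_lit 4489, nat_lit 5885, nat_lit 710, nat_lit 0, nat_lit 0, nat_lit 1317, nat_lit 0, nat_lit 0, nat_lit 0, nat_lit 0, nat_lit 0, nat_lit 0, nat_lit 0, nat_lit 0, [],
 ⟨p091_k8, nat_lit 0, nat_lit 0, nat_lit 196, nat_lit 0, nat_lit 0, [nat_lit 2032000001, nat_lit 4688000000, nat_lit 7968000000], [], [nat_lit 28978635952, nat_lit 30525946100, nat_lit 35010965736, nat_lit 36188876788, nat_lit 26671604615, nat_lit 27480544923, nat_lit 30573314928, nat_lit 31613958040], nat_lit 0, nat_lit 0, nat_lit 0, nat_lit 0, nat_lit 0, nat_lit 0, [], [nat_lit 34, nat_lit 40, nat_lit 40, nat_lit 80, nat_lit 7, nat_lit 249, nat_lit 40, nat_lit 7]⟩, ⟨p091_k18, nat_lit 0, nat_lit 0, nat_lit 730, nat_lit 0, nat_lit 1237900, [nat_lit 3282000000, nat_lit 6250000000, nat_lit 9842000000], [], [nat_lit 32703182900, nat_lit 32891983640, nat_lit 36578209610, nat_lit 37158465835, nat_lit 30244811500,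 nat_lit 30398141820, nat_lit 32316783315, nat_lit 32477527335], nat_lit 1271250, nat_lit 1271250, nat_lit 1271250, nat_lit 1271250, nat_lit 0, nat_lit 1100001, [nat_lit 780000, nat_lit 1435000, nat_lit 1271250], [nat_lit 8, nat_lit 40, nat_lit 40, nat_lit 80, nat_lit 1, nat_lit 292, nat_lit 40, nat_lit 8]⟩,
 zbF0, [⟨nat_lit 4, nat_lit 100, nat_lit 66, nat_lit 72, nat_lit 7433249⟩]⟩
noncomputable def p091_l35 : Lf2 := ⟨nat_lit 0, nat_lit 20, [nat_lit 5, nat_lit 5, nat_lit 5, nat_lit 20], false, nat_lit 0, nat_lit 160, nat_lit 0, nat_lit 160, ⟨nat_lit 1000, nat_lit 0, nat_lit 0, nat_lit 0, nat_lit 0, nat_lit 0, nat_lit 0, nat_lit 0, nat_lit 0, nat_lit 0, nat_lit 0, nat_lit 0, nat_lit 0, nat_lit 0, nat_lit 0, nat_lit 0, false, false⟩,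
 nat_lit 0, nat_lit 0, nat_lit 8126, nat_lit 0, nat_lit 4485, nat_lit 5858, nat_lit 710, nat_lit 0, nat_lit 0, nat_lit 824, nat_lit 0, nat_lit 0, nat_lit 0, nat_lit 0, nat_lit 0, nat_lit 0, nat_lit 0, nat_lit 0, [],
 ⟨p091_k8, nat_lit 0, nat_lit 0, nat_lit 196, nat_lit 0, nat_lit 0, [nat_lit 2032000001, nat_lit 4688000000, nat_lit 7968000000], [], [nat_lit 28969802480, nat_lit 30516382500, nat_lit 34999301640, nat_lit 36176739620, nat_lit 26680687111, nat_lit 27489355531, nat_lit 30567876720, nat_lit 31608124600], nat_lit 0, nat_lit 0, nat_lit 0, nat_lit 0, nat_lit 0, nat_lit 0, [], [nat_lit 34, nat_lit 40, nat_lit 40, nat_lit 80, nat_lit 7, nat_lit 249, nat_lit 40, nat_lit 7]⟩, ⟨p091_k20, nat_lit 0, nat_lit 0, nat_lit 730, nat_lit 0, nat_lit 1239451, [nat_lit 3282000000, nat_lit 6250000000, nat_lit 9842000000], [], [nat_lit 33120730834, nat_lit 33338468016, nat_lit 37084149118, nat_lit 37663182648, nat_lit 30763386650,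 nat_lit 30944065656, nat_lit 32816945568, nat_lit 32977758384], nat_lit 1271250, nat_lit 1271250, nat_lit 1271250, nat_lit 1271250, nat_lit 0, nat_lit 1100001, [nat_lit 780000, nat_lit 1435000, nat_lit 1271250], [nat_lit 8, nat_lit 40, nat_lit 40, nat_lit 80, nat_lit 1, nat_lit 293, nat_lit 40, nat_lit 8]⟩,
 zbF0, [⟨nat_lit 4, nat_lit 100, nat_lit 66, nat_lit 72, nat_lit 7777905⟩]⟩
noncomputable def p091_l36 : Lf2 := ⟨nat_lit 0, nat_lit 20, [nat_lit 5, nat_lit 5, nat_lit 5, nat_lit 20], false, nat_lit 16, nat_lit 160, nat_lit 160, nat_lit 280, ⟨nat_lit 1000, nat_lit 0, nat_lit 0, nat_lit 0, nat_lit 0, nat_lit 0, nat_lit 0, nat_lit 0, nat_lit 0, nat_lit 0, nat_lit 0, nat_lit 0, nat_lit 0, nat_lit 0, nat_lit 0, nat_lit 0, false, false⟩,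
 nat_lit 0, nat_lit 0, nat_lit 8222, nat_lit 0, nat_lit 4919, nat_lit 5692, nat_lit 626, nat_lit 0, nat_lit 0, nat_lit 1265, nat_lit 0, nat_lit 0, nat_lit 0, nat_lit 0, nat_lit 0, nat_lit 0, nat_lit 0, nat_lit 0, [],
 ⟨p091_k8, nat_lit 0, nat_lit 0, nat_lit 185, nat_lit 0, nat_lit 0, [nat_lit 2032000001, nat_lit 4688000000, nat_lit 7968000000], [], [nat_lit 29214713208, nat_lit 29941876074, nat_lit 35419242884, nat_lit 36029656100, nat_lit 26799898614, nat_lit 27244212828, nat_lit 31157922288, nat_lit 31699487564], nat_lit 0, nat_lit 0, nat_lit 0, nat_lit 0, nat_lit 0, nat_lit 0, [], [nat_lit 34, nat_lit 40, nat_lit 40, nat_lit 80, nat_lit 7, nat_lit 249, nat_lit 40, nat_lit 7]⟩, ⟨p091_k18, nat_lit 0, nat_lit 0, nat_lit 575, nat_lit 0, nat_lit 1113482, [nat_lit 3282000000, nat_lit 6250000000, nat_lit 9842000000], [], [nat_lit 30252806143, nat_lit 30427126195, nat_lit 32116374767, nat_lit 32248931491, nat_lit 30913357103,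 nat_lit 31044964827, nat_lit 32687519066, nat_lit 32864291950], nat_lit 1271250, nat_lit 1271250, nat_lit 1271250, nat_lit 1271250, nat_lit 1100001, nat_lit 2127500, [nat_lit 780000, nat_lit 1435000, nat_lit 1271250], [nat_lit 8, nat_lit 40, nat_lit 40, nat_lit 80, nat_lit 1, nat_lit 289, nat_lit 75, nat_lit 7]⟩,
 zbF0, [⟨nat_lit 7, nat_lit 100, nat_lit 88, nat_lit 74, nat_lit 369307580⟩]⟩
noncomputable def p091_l37 : Lf2 := ⟨nat_lit 0, nat_lit 20, [nat_lit 5, nat_lit 5, nat_lit 5, nat_lit 20], false, nat_lit 16, nat_lit 160, nat_lit 160, nat_lit 280, ⟨nat_lit 1000, nat_lit 0, nat_lit 0, nat_lit 0, nat_lit 0, nat_lit 0, nat_lit 0, nat_lit 0, nat_lit 0, nat_lit 0, nat_lit 0, nat_lit 0, nat_lit 0, nat_lit 0, nat_lit 0, nat_lit 0, false, false⟩,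
 nat_lit 0, nat_lit 0, nat_lit 8367, nat_lit 0, nat_lit 4083, nat_lit 5792, nat_lit 722, nat_lit 0, nat_lit 0, nat_lit 1271, nat_lit 0, nat_lit 0, nat_lit 0, nat_lit 0, nat_lit 0, nat_lit 0, nat_lit 0, nat_lit 0, [],
 ⟨p091_k11, nat_lit 0, nat_lit 0, nat_lit 186, nat_lit 0, nat_lit 0, [nat_lit 2032000001, nat_lit 4688000000, nat_lit 7968000000], [], [nat_lit 28192710933, nat_lit 28922994649, nat_lit 33434732474, nat_lit 34004413787, nat_lit 26190993547, nat_lit 26596155108, nat_lit 30269608731, nat_lit 30776729187], nat_lit 0, nat_lit 0, nat_lit 0, nat_lit 0, nat_lit 0, nat_lit 0, [], [nat_lit 34, nat_lit 40, nat_lit 40, nat_lit 80, nat_lit 7, nat_lit 249, nat_lit 40, nat_lit 7]⟩, ⟨p091_k18, nat_lit 0, nat_lit 0, nat_lit 621, nat_lit 0, nat_lit 1237900, [nat_lit 3282000000, nat_lit 6250000000, nat_lit 9842000000], [], [nat_lit 30155451220, nat_lit 30331862324, nat_lit 31932356633, nat_lit 32069034116, nat_lit 30846432100,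 nat_lit 30979779772, nat_lit 32572248066, nat_lit 32714495758], nat_lit 1271250, nat_lit 1271250, nat_lit 1271250, nat_lit 1271250, nat_lit 1100001, nat_lit 2127500, [nat_lit 780000, nat_lit 1435000, nat_lit 1271250], [nat_lit 8, nat_lit 40, nat_lit 40, nat_lit 80, nat_lit 1, nat_lit 289, nat_lit 75, nat_lit 7]⟩,
 zbF0, [⟨nat_lit 4, nat_lit 100, nat_lit 63, nat_lit 72, nat_lit 84449940⟩, ⟨nat_lit 7, nat_lit 100, nat_lit 88, nat_lit 74, nat_lit 371222634⟩]⟩
noncomputable def p091_l38 : Lf2 := ⟨nat_lit 0, nat_lit 20, [nat_lit 5, nat_lit 5, nat_lit 5, nat_lit 20], false, nat_lit 16, nat_lit 160, nat_lit 160, nat_lit 268, ⟨nat_lit 1000, nat_lit 0, nat_lit 0, nat_lit 0, nat_lit 0, nat_lit 0, nat_lit 0, nat_lit 0, nat_lit 0, nat_lit 0, nat_lit 0, nat_lit 0, nat_lit 0, nat_lit 0, nat_lit 0, nat_lit 0, false, false⟩,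
 nat_lit 0, nat_lit 0, nat_lit 8048, nat_lit 0, nat_lit 4485, nat_lit 5802, nat_lit 710, nat_lit 0, nat_lit 0, nat_lit 816, nat_lit 0, nat_lit 0, nat_lit 0, nat_lit 0, nat_lit 0, nat_lit 0, nat_lit 0, nat_lit 0, [],
 ⟨p091_k8, nat_lit 0, nat_lit 0, nat_lit 187, nat_lit 0, nat_lit 0, [nat_lit 2032000001, nat_lit 4688000000, nat_lit 7968000000], [], [nat_lit 28417316998, nat_lit 29800421396, nat_lit 34246243135, nat_lit 35416093489, nat_lit 26680687111, nat_lit 27489355531, nat_lit 30567876720, nat_lit 31608124600], nat_lit 0, nat_lit 0, nat_lit 0, nat_lit 0, nat_lit 0, nat_lit 0, [], [nat_lit 34, nat_lit 40, nat_lit 40, nat_lit 80, nat_lit 7, nat_lit 249, nat_lit 40, nat_lit 7]⟩, ⟨p091_k20, nat_lit 0, nat_lit 0, nat_lit 621, nat_lit 0, nat_lit 1239451, [nat_lit 3282000000, nat_lit 6250000000, nat_lit 9842000000], [], [nat_lit 30103278496, nat_lit 30306975776, nat_lit 32177792582, nat_lit 32342824248, nat_lit 30814120562,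 nat_lit 30976408775, nat_lit 32722923866, nat_lit 33010385296], nat_lit 1271250, nat_lit 1271250, nat_lit 1271250, nat_lit 1271250, nat_lit 1100001, nat_lit 2024750, [nat_lit 780000, nat_lit 1435000, nat_lit 1271250], [nat_lit 8, nat_lit 40, nat_lit 40, nat_lit 80, nat_lit 1, nat_lit 289, nat_lit 75, nat_lit 7]⟩,
 zbF0, [⟨nat_lit 4, nat_lit 100, nat_lit 66, nat_lit 72, nat_lit 38205443⟩, ⟨nat_lit 19, nat_lit 83, nat_lit 100, nat_lit 73, nat_lit 400643790⟩]⟩
noncomputable def b_V_800_700_10_21 : St := ⟨true, nat_lit 0, nat_lit 1, nat_lit 1, nat_lit 80, nat_lit 320, nat_lit 360, nat_lit 300, nat_lit 320, nat_lit 320, nat_lit 400, nat_lit 40, nat_lit 80, nat_lit 0, nat_lit 160, nat_lit 0, nat_lit 300, nat_lit 40, nat_lit 80, nat_lit 0, nat_lit 0, nat_lit 0, nat_lit 0⟩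
theorem d_V_800_700_10_21 (h : EB TB.env) : Dead b_V_800_700_10_21 := chkB_sound0 h (T :=
(.trX (nat_lit 19) (nat_lit 94) (nat_lit 100) (nat_lit 87) (nat_lit 280) (.spl (nat_lit 0) (nat_lit 340)
(.spl (nat_lit 0) (nat_lit 330)
(.leaf p091_l32)
(.leaf p091_l33))
(.spl (nat_lit 5) (nat_lit 160)
(.spl (nat_lit 1) (nat_lit 310)
(.leaf p091_l34)
(.leaf p091_l35))
(.trZ (nat_lit 22) (nat_lit 82) (nat_lit 100) (nat_lit 44) (nat_lit 16) (.spl (nat_lit 1) (nat_lit 310)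
(.spl (nat_lit 0) (nat_lit 350)
(.leaf p091_l36)
(.trX (nat_lit 13) (nat_lit 79) (nat_lit 31) (nat_lit 100) (nat_lit 396) (.leaf p091_l37)))
(.trX (nat_lit 19) (nat_lit 89) (nat_lit 100) (nat_lit 85) (nat_lit 268) (.leaf p091_l38)))))))) (by decide +kernel)
noncomputable def p091_l39 : Lf2 := ⟨nat_lit 0, nat_lit 20, [nat_lit 5, nat_lit 5, nat_lit 5, nat_lit 20], true, nat_lit 160, nat_lit 260, nat_lit 0, nat_lit 300, ⟨nat_lit 0, nat_lit 1000, nat_lit 0, nat_lit 7, nat_lit 278, nat_lit 1000, nat_lit 145, nat_lit 0, nat_lit 0, nat_lit 0, nat_lit 0, nat_lit 0, nat_lit 39755657, nat_lit 20099997, nat_lit 7144346, nat_lit 4869988, true, false⟩,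
 nat_lit 0, nat_lit 0, nat_lit 0, nat_lit 4042, nat_lit 3256, nat_lit 0, nat_lit 0, nat_lit 0, nat_lit 0, nat_lit 0, nat_lit 0, nat_lit 0, nat_lit 0, nat_lit 0, nat_lit 0, nat_lit 250000, nat_lit 0, nat_lit 0, [(nat_lit 19, [(nat_lit 0, nat_lit 1000)]), (nat_lit 22, [(nat_lit 0, nat_lit 1000)])],
 ⟨p091_k17, nat_lit 0, nat_lit 0, nat_lit 48, nat_lit 0, nat_lit 0, [nat_lit 1568000001, nat_lit 2368400000, nat_lit 3220880000], [], [nat_lit 19359831073, nat_lit 21984508160, nat_lit 21174141249, nat_lit 23644801440, nat_lit 22586348689, nat_lit 24840533960, nat_lit 24090800753, nat_lit 26220806480], nat_lit 0, nat_lit 0, nat_lit 0, nat_lit 0, nat_lit 0, nat_lit 0, [], [nat_lit 27, nat_lit 40, nat_lit 40, nat_lit 80, nat_lit 13, nat_lit 373, nat_lit 150, nat_lit 10]⟩, C1.Rw.none,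
 ⟨nat_lit 3162, nat_lit 4473, ⟨.ofNat (nat_lit 653959), .ofNat (nat_lit 722015), .ofNat (nat_lit 675435), .ofNat (nat_lit 743491), .ofNat (nat_lit 649288), .ofNat (nat_lit 710319), .ofNat (nat_lit 671352), .ofNat (nat_lit 732383)⟩, ⟨.ofNat (nat_lit 259488), .ofNat (nat_lit 429433), .ofNat (nat_lit 302621), .ofNat (nat_lit 472567), .ofNat (nat_lit 261805), .ofNat (nat_lit 414188), .ofNat (nat_lit 306116), .ofNat (nat_lit 458499)⟩⟩, [⟨nat_lit 16, nat_lit 83, nat_lit 100, nat_lit 83, nat_lit 202539651⟩]⟩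
noncomputable def p091_l40 : Lf2 := ⟨nat_lit 0, nat_lit 20, [nat_lit 5, nat_lit 5, nat_lit 5, nat_lit 20], false, nat_lit 160, nat_lit 260, nat_lit 4, nat_lit 300, ⟨nat_lit 202, nat_lit 798, nat_lit 0, nat_lit 7, nat_lit 305, nat_lit 798, nat_lit 146, nat_lit 0, nat_lit 0, nat_lit 0, nat_lit 0, nat_lit 0, nat_lit 37511114, nat_lit 22570993, nat_lit 6917893, nat_lit 4952632, true, true⟩,
 nat_lit 0, nat_lit 0, nat_lit 2527, nat_lit 0, nat_lit 3202, nat_lit 1608, nat_lit 0, nat_lit 0, nat_lit 0, nat_lit 135, nat_lit 0, nat_lit 0, nat_lit 0, nat_lit 0, nat_lit 0, nat_lit 199500, nat_lit 0, nat_lit 0, [(nat_lit 19, [(nat_lit 0, nat_lit 798)])],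
 ⟨p091_k17, nat_lit 0, nat_lit 0, nat_lit 51, nat_lit 0, nat_lit 0, [nat_lit 1641299201, nat_lit 2836959200, nat_lit 4534712240], [], [nat_lit 21272755217, nat_lit 22468833877, nat_lit 23284379417, nat_lit 24373550657, nat_lit 24184070935, nat_lit 25191415301, nat_lit 25871705401, nat_lit 26793670817], nat_lit 0, nat_lit 0, nat_lit 0, nat_lit 0, nat_lit 0, nat_lit 0, [], [nat_lit 27, nat_lit 40, nat_lit 40, nat_lit 80, nat_lit 13, nat_lit 289, nat_lit 75, nat_lit 7]⟩, ⟨p091_k9, nat_lit 0, nat_lit 0, nat_lit 700, nat_lit 0, nat_lit 1034629, [nat_lit 662964000, nat_lit 1262500000, nat_lit 2398144000], [], [nat_lit 7013062422, nat_lit 7093718694, nat_lit 7174374968, nat_lit 7256262148, nat_lit 6115716310, nat_lit 6177091799, nat_lit 6238467288, nat_lit 6295795279], nat_lit 1271250, nat_lit 1271250, nat_lit 1271250, nat_lit 1271250, nat_lit 21650, nat_lit 2123250, [nat_lit 780000, nat_lit 1435000, nat_lit 1271250], [nat_lit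 23, nat_lit 40, nat_lit 40, nat_lit 80, nat_lit 12, nat_lit 483, nat_lit 250, nat_lit 12]⟩,
 ⟨nat_lit 3872, nat_lit 4473, ⟨.ofNat (nat_lit 722167), .ofNat (nat_lit 790153), .ofNat (nat_lit 743716), .ofNat (nat_lit 811702), .ofNat (nat_lit 716161), .ofNat (nat_lit 780691), .ofNat (nat_lit 737937), .ofNat (nat_lit 802466)⟩, ⟨.ofNat (nat_lit 259489), .ofNat (nat_lit 429434), .ofNat (nat_lit 302621), .ofNat (nat_lit 472567), .ofNat (nat_lit 261131), .ofNat (nat_lit 422435), .ofNat (nat_lit 304717), .ofNat (nat_lit 466021)⟩⟩, [⟨nat_lit 4, nat_lit 100, nat_lit 76, nat_lit 72, nat_lit 308743617⟩, ⟨nat_lit 7, nat_lit 100, nat_lit 94, nat_lit 75, nat_lit 29157264⟩]⟩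
noncomputable def p091_l41 : Lf2 := ⟨nat_lit 0, nat_lit 20, [nat_lit 5, nat_lit 5, nat_lit 5, nat_lit 20], false, nat_lit 160, nat_lit 232, nat_lit 4, nat_lit 300, ⟨nat_lit 144, nat_lit 856, nat_lit 0, nat_lit 7, nat_lit 302, nat_lit 856, nat_lit 136, nat_lit 0, nat_lit 0, nat_lit 0, nat_lit 0, nat_lit 0, nat_lit 38205847, nat_lit 22511153, nat_lit 6283000, nat_lit 4851314, true, true⟩,
 nat_lit 0, nat_lit 0, nat_lit 1884, nat_lit 0, nat_lit 3979, nat_lit 1198, nat_lit 0, nat_lit 0, nat_lit 0, nat_lit 111, nat_lit 0, nat_lit 0, nat_lit 0, nat_lit 0, nat_lit 0, nat_lit 214000, nat_lit 0, nat_lit 0, [(nat_lit 22, [(nat_lit 0, nat_lit 856)])],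
 ⟨p091_k8, nat_lit 0, nat_lit 0, nat_lit 60, nat_lit 0, nat_lit 0, [nat_lit 1634816001, nat_lit 2362076801, nat_lit 3469206400], [], [nat_lit 23363219915, nat_lit 24558522305, nat_lit 25239212233, nat_lit 26324973685, nat_lit 24992994509, nat_lit 26050197390, nat_lit 26647720368, nat_lit 27610755719], nat_lit 0, nat_lit 0, nat_lit 0, nat_lit 0, nat_lit 0, nat_lit 0, [], [nat_lit 34, nat_lit 40, nat_lit 40, nat_lit 80, nat_lit 7, nat_lit 272, nat_lit 60, nat_lit 7]⟩, ⟨p091_k9, nat_lit 0, nat_lit 0, nat_lit 834, nat_lit 0, nat_lit 1317019, [nat_lit 472608000, nat_lit 900000000, nat_lit 1709568000], [], [nat_lit 4832367127, nat_lit 4892870466, nat_lit 4953373805, nat_lit 5067336432, nat_lit 4235908190, nat_lit 4263921470, nat_lit 4291934750, nat_lit 4315384918], nat_lit 1271250, nat_lit 1271250, nat_lit 1271250, nat_lit 1271250, nat_lit 21650, nat_lit 2123250, [nat_lit 780000, nat_lit 1435000, nat_lit 1271250], [nat_lit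 23, nat_lit 40, nat_lit 40, nat_lit 80, nat_lit 12, nat_lit 483, nat_lit 250, nat_lit 12]⟩,
 ⟨nat_lit 3162, nat_lit 3873, ⟨.ofNat (nat_lit 716165), .ofNat (nat_lit 780717), .ofNat (nat_lit 737930), .ofNat (nat_lit 802484), .ofNat (nat_lit 710475), .ofNat (nat_lit 771459), .ofNat (nat_lit 732601), .ofNat (nat_lit 793588)⟩, ⟨.ofNat (nat_lit 261131), .ofNat (nat_lit 377270), .ofNat (nat_lit 304717), .ofNat (nat_lit 420856), .ofNat (nat_lit 261806), .ofNat (nat_lit 371522), .ofNat (nat_lit 306116), .ofNat (nat_lit 415832)⟩⟩, [⟨nat_lit 16, nat_lit 66, nat_lit 100, nat_lit 72, nat_lit 280639606⟩, ⟨nat_lit 19, nat_lit 100, nat_lit 95, nat_lit 87, nat_lit 15452527⟩]⟩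
noncomputable def p091_l42 : Lf2 := ⟨nat_lit 0, nat_lit 20, [nat_lit 5, nat_lit 5, nat_lit 5, nat_lit 20], false, nat_lit 160, nat_lit 260, nat_lit 16, nat_lit 300, ⟨nat_lit 186, nat_lit 814, nat_lit 0, nat_lit 8, nat_lit 332, nat_lit 814, nat_lit 146, nat_lit 0, nat_lit 0, nat_lit 0, nat_lit 0, nat_lit 0, nat_lit 35446041, nat_lit 24912993, nat_lit 6640966, nat_lit 4990771, true, true⟩,
 nat_lit 0, nat_lit 0, nat_lit 2233, nat_lit 0, nat_lit 4154, nat_lit 1421, nat_lit 0, nat_lit 0, nat_lit 0, nat_lit 116, nat_lit 0, nat_lit 0, nat_lit 0, nat_lit 0, nat_lit 0, nat_lit 203500, nat_lit 0, nat_lit 0, [(nat_lit 19, [(nat_lit 0, nat_lit 814)])],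
 ⟨p091_k17, nat_lit 0, nat_lit 0, nat_lit 67, nat_lit 0, nat_lit 0, [nat_lit 1633465601, nat_lit 2799845600, nat_lit 4430646320], [], [nat_lit 24492803080, nat_lit 25599702432, nat_lit 26706601784, nat_lit 27700215492, nat_lit 26858364748, nat_lit 27786139777, nat_lit 28713914806, nat_lit 29549865472], nat_lit 0, nat_lit 0, nat_lit 0, nat_lit 0, nat_lit 0, nat_lit 0, [], [nat_lit 27, nat_lit 40, nat_lit 40, nat_lit 80, nat_lit 13, nat_lit 289, nat_lit 75, nat_lit 7]⟩, ⟨p091_k9, nat_lit 0, nat_lit 0, nat_lit 687, nat_lit 0, nat_lit 1034629, [nat_lit 610452000, nat_lit 1162500000, nat_lit 2208192000], [], [nat_lit 6832049662, nat_lit 6895311967, nat_lit 7015154814, nat_lit 7068049123, nat_lit 6081473460, nat_lit 6110229210, nat_lit 6189261742, nat_lit 6228983035], nat_lit 1271250, nat_lit 1271250, nat_lit 1271250, nat_lit 1271250, nat_lit 88400, nat_lit 2136750, [nat_lit 780000, nat_lit 1435000, nat_lit 1271250], [nat_lit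 23, nat_lit 40, nat_lit 40, nat_lit 80, nat_lit 12, nat_lit 373, nat_lit 150, nat_lit 9]⟩,
 ⟨nat_lit 3872, nat_lit 4473, ⟨.ofNat (nat_lit 790153), .ofNat (nat_lit 858139), .ofNat (nat_lit 811702), .ofNat (nat_lit 879688), .ofNat (nat_lit 780691), .ofNat (nat_lit 845220), .ofNat (nat_lit 802466), .ofNat (nat_lit 866995)⟩, ⟨.ofNat (nat_lit 259489), .ofNat (nat_lit 429434), .ofNat (nat_lit 302621), .ofNat (nat_lit 472567), .ofNat (nat_lit 261131), .ofNat (nat_lit 422435), .ofNat (nat_lit 304717), .ofNat (nat_lit 466021)⟩⟩, [⟨nat_lit 4, nat_lit 100, nat_lit 76, nat_lit 72, nat_lit 255618319⟩, ⟨nat_lit 7, nat_lit 100, nat_lit 94, nat_lit 75, nat_lit 27589863⟩]⟩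
noncomputable def p091_l43 : Lf2 := ⟨nat_lit 0, nat_lit 20, [nat_lit 5, nat_lit 5, nat_lit 5, nat_lit 20], false, nat_lit 160, nat_lit 232, nat_lit 16, nat_lit 300, ⟨nat_lit 148, nat_lit 852, nat_lit 0, nat_lit 8, nat_lit 327, nat_lit 852, nat_lit 136, nat_lit 0, nat_lit 0, nat_lit 0, nat_lit 0, nat_lit 0, nat_lit 36189232, nat_lit 24763697, nat_lit 6047071, nat_lit 4893975, true, true⟩,
 nat_lit 0, nat_lit 0, nat_lit 1853, nat_lit 0, nat_lit 3788, nat_lit 1179, nat_lit 0, nat_lit 0, nat_lit 0, nat_lit 103, nat_lit 0, nat_lit 0, nat_lit 0, nat_lit 0, nat_lit 0, nat_lit 213000, nat_lit 0, nat_lit 0, [(nat_lit 22, [(nat_lit 0, nat_lit 852)])],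
 ⟨p091_k8, nat_lit 0, nat_lit 0, nat_lit 73, nat_lit 0, nat_lit 0, [nat_lit 1636672001, nat_lit 2372945600, nat_lit 3490228800], [], [nat_lit 25334425104, nat_lit 26397116048, nat_lit 27354092424, nat_lit 28311068800, nat_lit 26754876507, nat_lit 27699095188, nat_lit 28552002548, nat_lit 29404909908], nat_lit 0, nat_lit 0, nat_lit 0, nat_lit 0, nat_lit 0, nat_lit 0, [], [nat_lit 34, nat_lit 40, nat_lit 40, nat_lit 80, nat_lit 7, nat_lit 272, nat_lit 60, nat_lit 7]⟩, ⟨p091_k9, nat_lit 0, nat_lit 0, nat_lit 819, nat_lit 0, nat_lit 1317019, [nat_lit 485736000, nat_lit 925000000, nat_lit 1757056000], [], [nat_lit 5276638087, nat_lit 5329611492, nat_lit 5427266580, nat_lit 5544773369, nat_lit 4723566271, nat_lit 4747609204, nat_lit 4807347110, nat_lit 4825562500], nat_lit 1271250, nat_lit 1271250, nat_lit 1271250, nat_lit 1271250, nat_lit 88400, nat_lit 2136750, [nat_lit 780000, nat_lit 1435000, nat_lit 1271250], [nat_lit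 23, nat_lit 40, nat_lit 40, nat_lit 80, nat_lit 12, nat_lit 373, nat_lit 150, nat_lit 9]⟩,
 ⟨nat_lit 3162, nat_lit 3873, ⟨.ofNat (nat_lit 780717), .ofNat (nat_lit 845258), .ofNat (nat_lit 802484), .ofNat (nat_lit 867032), .ofNat (nat_lit 771459), .ofNat (nat_lit 832432), .ofNat (nat_lit 793588), .ofNat (nat_lit 854567)⟩, ⟨.ofNat (nat_lit 261131), .ofNat (nat_lit 377270), .ofNat (nat_lit 304717), .ofNat (nat_lit 420856), .ofNat (nat_lit 261806), .ofNat (nat_lit 371522), .ofNat (nat_lit 306116), .ofNat (nat_lit 415832)⟩⟩, [⟨nat_lit 4, nat_lit 100, nat_lit 66, nat_lit 72, nat_lit 259477282⟩, ⟨nat_lit 19, nat_lit 100, nat_lit 95, nat_lit 87, nat_lit 16614632⟩]⟩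
noncomputable def p091_l44 : Lf2 := ⟨nat_lit 0, nat_lit 20, [nat_lit 5, nat_lit 5, nat_lit 5, nat_lit 20], false, nat_lit 160, nat_lit 260, nat_lit 48, nat_lit 300, ⟨nat_lit 1000, nat_lit 0, nat_lit 0, nat_lit 0, nat_lit 0, nat_lit 0, nat_lit 0, nat_lit 0, nat_lit 0, nat_lit 0, nat_lit 0, nat_lit 0, nat_lit 0, nat_lit 0, nat_lit 0, nat_lit 0, false, false⟩,
 nat_lit 0, nat_lit 0, nat_lit 4765, nat_lit 0, nat_lit 5273, nat_lit 3032, nat_lit 651, nat_lit 0, nat_lit 0, nat_lit 406, nat_lit 0, nat_lit 269, nat_lit 0, nat_lit 0, nat_lit 0, nat_lit 0, nat_lit 0, nat_lit 0, [],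
 ⟨p091_k17, nat_lit 0, nat_lit 0, nat_lit 115, nat_lit 0, nat_lit 0, [nat_lit 2032000001, nat_lit 4688000000, nat_lit 9842000000], [], [nat_lit 29310791371, nat_lit 31066056883, nat_lit 31460176927, nat_lit 33005237455, nat_lit 30618449466, nat_lit 32076872884, nat_lit 32425181209, nat_lit 34020733450], nat_lit 0, nat_lit 0, nat_lit 0, nat_lit 0, nat_lit 0, nat_lit 0, [], [nat_lit 27, nat_lit 40, nat_lit 40, nat_lit 80, nat_lit 13, nat_lit 289, nat_lit 75, nat_lit 7]⟩, ⟨p091_k9, nat_lit 0, nat_lit 0, nat_lit 0, nat_lit 0, nat_lit 1317019, [nat_lit 3282000000, nat_lit 6250000000, nat_lit 11872000000], [], [nat_lit 27714548516, nat_lit 28106514273, nat_lit 28815075895, nat_lit 29172257198, nat_lit 29003108122, nat_lit 29290555298, nat_lit 30167661242, nat_lit 30599725782], nat_lit 1271250, nat_lit 1271250, nat_lit 1271250, nat_lit 1271250, nat_lit 279600, nat_lit 2172750, [nat_lit 780000, nat_lit 1435000, nat_lit 1271250],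 [nat_lit 23, nat_lit 40, nat_lit 40, nat_lit 80]⟩,
 zbF0, [⟨nat_lit 13, nat_lit 65, nat_lit 54, nat_lit 100, nat_lit 37318866⟩, ⟨nat_lit 4, nat_lit 100, nat_lit 71, nat_lit 71, nat_lit 516584704⟩, ⟨nat_lit 19, nat_lit 100, nat_lit 95, nat_lit 87, nat_lit 93257477⟩]⟩
noncomputable def p091_l45 : Lf2 := ⟨nat_lit 0, nat_lit 15, [nat_lit 30, nat_lit 5, nat_lit 5, nat_lit 20], false, nat_lit 160, nat_lit 232, nat_lit 48, nat_lit 276, ⟨nat_lit 1000, nat_lit 0, nat_lit 0, nat_lit 0, nat_lit 0, nat_lit 0, nat_lit 0, nat_lit 0, nat_lit 0, nat_lit 0, nat_lit 0, nat_lit 0, nat_lit 0, nat_lit 0, nat_lit 0, nat_lit 0, false, false⟩,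
 nat_lit 0, nat_lit 0, nat_lit 10754, nat_lit 0, nat_lit 4408, nat_lit 6843, nat_lit 1003, nat_lit 0, nat_lit 0, nat_lit 1100, nat_lit 0, nat_lit 0, nat_lit 0, nat_lit 0, nat_lit 0, nat_lit 0, nat_lit 0, nat_lit 0, [],
 ⟨p091_k21, nat_lit 0, nat_lit 0, nat_lit 0, nat_lit 0, nat_lit 0, [nat_lit 2032000001, nat_lit 3282000000, nat_lit 7968000000], [], [nat_lit 27467530951, nat_lit 28357620727, nat_lit 29393147192, nat_lit 30194693596, nat_lit 28482611864, nat_lit 29272727811, nat_lit 30306794717, nat_lit 31160909137], nat_lit 0, nat_lit 0, nat_lit 0, nat_lit 0, nat_lit 0, nat_lit 0, [], [nat_lit 161, nat_lit 40, nat_lit 40, nat_lit 80]⟩, ⟨p091_k14, nat_lit 0, nat_lit 0, nat_lit 552, nat_lit 0, nat_lit 899837, [nat_lit 3282000000, nat_lit 4688000000, nat_lit 9842000000], [], [nat_lit 31788149750, nat_lit 31942228417, nat_lit 33660877854, nat_lit 33793140788, nat_lit 30008732176, nat_lit 30081577925, nat_lit 31033043825,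 nat_lit 31117851994], nat_lit 1271250, nat_lit 1271250, nat_lit 1271250, nat_lit 1271250, nat_lit 279600, nat_lit 1992450, [nat_lit 780000, nat_lit 1100000, nat_lit 2127500], [nat_lit 42, nat_lit 40, nat_lit 40, nat_lit 80, nat_lit 13, nat_lit 289, nat_lit 75, nat_lit 7]⟩,
 zbF0, [⟨nat_lit 4, nat_lit 100, nat_lit 76, nat_lit 66, nat_lit 538562518⟩, ⟨nat_lit 7, nat_lit 100, nat_lit 95, nat_lit 69, nat_lit 194915051⟩]⟩
noncomputable def p091_l46 : Lf2 := ⟨nat_lit 0, nat_lit 15, [nat_lit 30, nat_lit 5, nat_lit 5, nat_lit 20], false, nat_lit 160, nat_lit 232, nat_lit 48, nat_lit 272, ⟨nat_lit 1000, nat_lit 0, nat_lit 0, nat_lit 0, nat_lit 0, nat_lit 0, nat_lit 0, nat_lit 0, nat_lit 0, nat_lit 0, nat_lit 0, nat_lit 0, nat_lit 0, nat_lit 0, nat_lit 0, nat_lit 0, false, false⟩,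
 nat_lit 0, nat_lit 0, nat_lit 10170, nat_lit 0, nat_lit 4387, nat_lit 6612, nat_lit 997, nat_lit 0, nat_lit 0, nat_lit 1128, nat_lit 0, nat_lit 0, nat_lit 0, nat_lit 0, nat_lit 0, nat_lit 0, nat_lit 0, nat_lit 0, [],
 ⟨p091_k21, nat_lit 0, nat_lit 0, nat_lit 0, nat_lit 0, nat_lit 0, [nat_lit 2032000001, nat_lit 3282000000, nat_lit 7968000000], [], [nat_lit 27510427789, nat_lit 28398866503, nat_lit 29645303689, nat_lit 30435041644, nat_lit 28528023158, nat_lit 29316833988, nat_lit 30535437440, nat_lit 31377215841], nat_lit 0, nat_lit 0, nat_lit 0, nat_lit 0, nat_lit 0, nat_lit 0, [], [nat_lit 161, nat_lit 40, nat_lit 40, nat_lit 80]⟩, ⟨p091_k22, nat_lit 0, nat_lit 0, nat_lit 559, nat_lit 0, nat_lit 910045, [nat_lit 3282000000, nat_lit 4688000000, nat_lit 9842000000], [], [nat_lit 31441122096, nat_lit 31555766056, nat_lit 33424876797, nat_lit 33554093331, nat_lit 29656522089, nat_lit 29733133253, nat_lit 30876541566,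 nat_lit 30962949165], nat_lit 1271250, nat_lit 1271250, nat_lit 1271250, nat_lit 1271250, nat_lit 279600, nat_lit 1962400, [nat_lit 780000, nat_lit 1100000, nat_lit 2127500], [nat_lit 42, nat_lit 40, nat_lit 40, nat_lit 80, nat_lit 13, nat_lit 289, nat_lit 75, nat_lit 7]⟩,
 zbF0, [⟨nat_lit 13, nat_lit 79, nat_lit 36, nat_lit 100, nat_lit 15283427⟩, ⟨nat_lit 4, nat_lit 100, nat_lit 76, nat_lit 66, nat_lit 535237999⟩, ⟨nat_lit 7, nat_lit 100, nat_lit 93, nat_lit 69, nat_lit 198770330⟩]⟩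
noncomputable def p091_l47 : Lf2 := ⟨nat_lit 0, nat_lit 20, [nat_lit 5, nat_lit 5, nat_lit 5, nat_lit 20], false, nat_lit 160, nat_lit 260, nat_lit 48, nat_lit 300, ⟨nat_lit 1000, nat_lit 0, nat_lit 0, nat_lit 0, nat_lit 0, nat_lit 0, nat_lit 0, nat_lit 0, nat_lit 0, nat_lit 0, nat_lit 0, nat_lit 0, nat_lit 0, nat_lit 0, nat_lit 0, nat_lit 0, false, false⟩,
 nat_lit 0, nat_lit 0, nat_lit 11912, nat_lit 0, nat_lit 5410, nat_lit 7580, nat_lit 0, nat_lit 0, nat_lit 0, nat_lit 709, nat_lit 0, nat_lit 0, nat_lit 0, nat_lit 0, nat_lit 0, nat_lit 0, nat_lit 0, nat_lit 0, [],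
 ⟨p091_k17, nat_lit 0, nat_lit 0, nat_lit 0, nat_lit 0, nat_lit 0, [nat_lit 2032000001, nat_lit 4688000000, nat_lit 9842000000], [], [nat_lit 28191826360, nat_lit 28751497270, nat_lit 30905721760, nat_lit 31396429940, nat_lit 30113282990, nat_lit 30576837935, nat_lit 32382127210, nat_lit 32789472033], nat_lit 0, nat_lit 0, nat_lit 0, nat_lit 0, nat_lit 0, nat_lit 0, [], [nat_lit 27, nat_lit 40, nat_lit 40, nat_lit 80]⟩, ⟨p091_k9, nat_lit 0, nat_lit 0, nat_lit 461, nat_lit 0, nat_lit 575937, [nat_lit 3282000000, nat_lit 6250000000, nat_lit 11872000000], [], [nat_lit 34019750939, nat_lit 34281711415, nat_lit 35994385579, nat_lit 36281930647, nat_lit 31638949055, nat_lit 31782574480, nat_lit 33123943515, nat_lit 33284717765], nat_lit 1271250, nat_lit 1271250, nat_lit 1271250, nat_lit 1271250, nat_lit 279600, nat_lit 2172750, [nat_lit 780000, nat_lit 1435000, nat_lit 1271250], [nat_lit 23, nat_lit 40, nat_lit 40, nat_lit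 80, nat_lit 12, nat_lit 373, nat_lit 150, nat_lit 9]⟩,
 zbF0, [⟨nat_lit 13, nat_lit 86, nat_lit 26, nat_lit 100, nat_lit 74875265⟩, ⟨nat_lit 16, nat_lit 79, nat_lit 100, nat_lit 77, nat_lit 459521378⟩, ⟨nat_lit 7, nat_lit 100, nat_lit 99, nat_lit 83, nat_lit 161670466⟩]⟩
noncomputable def p091_l48 : Lf2 := ⟨nat_lit 0, nat_lit 20, [nat_lit 5, nat_lit 5, nat_lit 5, nat_lit 20], false, nat_lit 160, nat_lit 244, nat_lit 48, nat_lit 300, ⟨nat_lit 1000, nat_lit 0, nat_lit 0, nat_lit 0, nat_lit 0, nat_lit 0, nat_lit 0, nat_lit 0, nat_lit 0, nat_lit 0, nat_lit 0, nat_lit 0, nat_lit 0, nat_lit 0, nat_lit 0, nat_lit 0, false, false⟩,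
 nat_lit 0, nat_lit 0, nat_lit 9392, nat_lit 0, nat_lit 4747, nat_lit 5976, nat_lit 730, nat_lit 0, nat_lit 0, nat_lit 710, nat_lit 0, nat_lit 0, nat_lit 0, nat_lit 0, nat_lit 0, nat_lit 0, nat_lit 0, nat_lit 0, [],
 ⟨p091_k19, nat_lit 0, nat_lit 0, nat_lit 0, nat_lit 0, nat_lit 0, [nat_lit 2032000001, nat_lit 4688000000, nat_lit 9842000000], [], [nat_lit 28457804386, nat_lit 28879059728, nat_lit 30255733567, nat_lit 30723310055, nat_lit 29436403319, nat_lit 29890999374, nat_lit 31367570716, nat_lit 31774963959], nat_lit 0, nat_lit 0, nat_lit 0, nat_lit 0, nat_lit 0, nat_lit 0, [], [nat_lit 27, nat_lit 40, nat_lit 40, nat_lit 80]⟩, ⟨p091_k9, nat_lit 0, nat_lit 0, nat_lit 517, nat_lit 0, nat_lit 704850, [nat_lit 3282000000, nat_lit 6250000000, nat_lit 11872000000], [], [nat_lit 37428892551, nat_lit 37681065099, nat_lit 38924216257, nat_lit 39143881657, nat_lit 36450948746, nat_lit 36604172106, nat_lit 37472959996,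 nat_lit 37618947988], nat_lit 1271250, nat_lit 1271250, nat_lit 1271250, nat_lit 1271250, nat_lit 279600, nat_lit 2172750, [nat_lit 780000, nat_lit 1435000, nat_lit 1271250], [nat_lit 23, nat_lit 40, nat_lit 40, nat_lit 80, nat_lit 12, nat_lit 373, nat_lit 150, nat_lit 9]⟩,
 zbF0, [⟨nat_lit 4, nat_lit 100, nat_lit 74, nat_lit 77, nat_lit 471334629⟩, ⟨nat_lit 7, nat_lit 100, nat_lit 99, nat_lit 83, nat_lit 197255194⟩]⟩
noncomputable def p091_l49 : Lf2 := ⟨nat_lit 0, nat_lit 15, [nat_lit 30, nat_lit 5, nat_lit 5, nat_lit 20], false, nat_lit 160, nat_lit 232, nat_lit 48, nat_lit 268, ⟨nat_lit 1000, nat_lit 0, nat_lit 0, nat_lit 0, nat_lit 0, nat_lit 0, nat_lit 0, nat_lit 0, nat_lit 0, nat_lit 0, nat_lit 0, nat_lit 0, nat_lit 0, nat_lit 0, nat_lit 0, nat_lit 0, false, false⟩,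
 nat_lit 0, nat_lit 0, nat_lit 9766, nat_lit 0, nat_lit 4387, nat_lit 6485, nat_lit 997, nat_lit 0, nat_lit 0, nat_lit 1256, nat_lit 0, nat_lit 0, nat_lit 0, nat_lit 0, nat_lit 0, nat_lit 0, nat_lit 0, nat_lit 0, [],
 ⟨p091_k21, nat_lit 0, nat_lit 0, nat_lit 0, nat_lit 0, nat_lit 0, [nat_lit 2032000001, nat_lit 3282000000, nat_lit 7968000000], [], [nat_lit 27510427789, nat_lit 28398866503, nat_lit 29645303689, nat_lit 30435041644, nat_lit 28528023158, nat_lit 29316833988, nat_lit 30535437440, nat_lit 31377215841], nat_lit 0, nat_lit 0, nat_lit 0, nat_lit 0, nat_lit 0, nat_lit 0, [], [nat_lit 161, nat_lit 40, nat_lit 40, nat_lit 80]⟩, ⟨p091_k15, nat_lit 0, nat_lit 0, nat_lit 563, nat_lit 0, nat_lit 920377, [nat_lit 3282000000, nat_lit 4688000000, nat_lit 9842000000], [], [nat_lit 29844187980, nat_lit 29996258124, nat_lit 31823821338, nat_lit 31952695670, nat_lit 28683968548, nat_lit 28773254773, nat_lit 29879002477,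 nat_lit 29955167020], nat_lit 1271250, nat_lit 1271250, nat_lit 1271250, nat_lit 1271250, nat_lit 279600, nat_lit 1932350, [nat_lit 780000, nat_lit 1100000, nat_lit 2127500], [nat_lit 42, nat_lit 40, nat_lit 40, nat_lit 80, nat_lit 13, nat_lit 289, nat_lit 75, nat_lit 7]⟩,
 zbF0, [⟨nat_lit 13, nat_lit 80, nat_lit 34, nat_lit 100, nat_lit 10009383⟩, ⟨nat_lit 16, nat_lit 76, nat_lit 100, nat_lit 66, nat_lit 535237999⟩, ⟨nat_lit 7, nat_lit 100, nat_lit 91, nat_lit 68, nat_lit 224668857⟩]⟩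
noncomputable def p091_l50 : Lf2 := ⟨nat_lit 0, nat_lit 20, [nat_lit 5, nat_lit 5, nat_lit 5, nat_lit 20], false, nat_lit 160, nat_lit 260, nat_lit 48, nat_lit 292, ⟨nat_lit 1000, nat_lit 0, nat_lit 0, nat_lit 0, nat_lit 0, nat_lit 0, nat_lit 0, nat_lit 0, nat_lit 0, nat_lit 0, nat_lit 0, nat_lit 0, nat_lit 0, nat_lit 0, nat_lit 0, nat_lit 0, false, false⟩,
 nat_lit 0, nat_lit 0, nat_lit 9250, nat_lit 0, nat_lit 5364, nat_lit 6143, nat_lit 684, nat_lit 0, nat_lit 0, nat_lit 823, nat_lit 0, nat_lit 0, nat_lit 0, nat_lit 0, nat_lit 0, nat_lit 0, nat_lit 0, nat_lit 0, [],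
 ⟨p091_k17, nat_lit 0, nat_lit 0, nat_lit 0, nat_lit 0, nat_lit 0, [nat_lit 2032000001, nat_lit 4688000000, nat_lit 9842000000], [], [nat_lit 28945918828, nat_lit 29829627836, nat_lit 31113174236, nat_lit 31890342588, nat_lit 30239655288, nat_lit 31054955652, nat_lit 32390375884, nat_lit 33202490242], nat_lit 0, nat_lit 0, nat_lit 0, nat_lit 0, nat_lit 0, nat_lit 0, [], [nat_lit 27, nat_lit 40, nat_lit 40, nat_lit 80]⟩, ⟨p091_k10, nat_lit 0, nat_lit 0, nat_lit 514, nat_lit 0, nat_lit 700750, [nat_lit 3282000000, nat_lit 6250000000, nat_lit 11872000000], [], [nat_lit 34087171965, nat_lit 34213767772, nat_lit 35731421616, nat_lit 35839555193, nat_lit 33407448509, nat_lit 33493239666, nat_lit 34830691759, nat_lit 34924605942], nat_lit 1271250, nat_lit 1271250, nat_lit 1271250, nat_lit 1271250, nat_lit 279600, nat_lit 2112650, [nat_lit 780000, nat_lit 1435000, nat_lit 1271250], [nat_lit 23, nat_lit 40, nat_lit 40, nat_lit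 80, nat_lit 12, nat_lit 373, nat_lit 150, nat_lit 9]⟩,
 zbF0, [⟨nat_lit 13, nat_lit 80, nat_lit 34, nat_lit 100, nat_lit 52994184⟩, ⟨nat_lit 4, nat_lit 100, nat_lit 77, nat_lit 77, nat_lit 465033935⟩, ⟨nat_lit 7, nat_lit 100, nat_lit 96, nat_lit 82, nat_lit 218097860⟩]⟩
noncomputable def p091_l51 : Lf2 := ⟨nat_lit 0, nat_lit 20, [nat_lit 5, nat_lit 5, nat_lit 5, nat_lit 20], false, nat_lit 160, nat_lit 260, nat_lit 48, nat_lit 284, ⟨nat_lit 1000, nat_lit 0, nat_lit 0, nat_lit 0, nat_lit 0, nat_lit 0, nat_lit 0, nat_lit 0, nat_lit 0, nat_lit 0, nat_lit 0, nat_lit 0, nat_lit 0, nat_lit 0, nat_lit 0, nat_lit 0, false, false⟩,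
 nat_lit 0, nat_lit 0, nat_lit 9203, nat_lit 0, nat_lit 5364, nat_lit 6241, nat_lit 684, nat_lit 0, nat_lit 0, nat_lit 1420, nat_lit 0, nat_lit 0, nat_lit 0, nat_lit 0, nat_lit 0, nat_lit 0, nat_lit 0, nat_lit 0, [],
 ⟨p091_k17, nat_lit 0, nat_lit 0, nat_lit 0, nat_lit 0, nat_lit 0, [nat_lit 2032000001, nat_lit 4688000000, nat_lit 9842000000], [], [nat_lit 28945918828, nat_lit 29829627836, nat_lit 31113174236, nat_lit 31890342588, nat_lit 30239655288, nat_lit 31054955652, nat_lit 32390375884, nat_lit 33202490242], nat_lit 0, nat_lit 0, nat_lit 0, nat_lit 0, nat_lit 0, nat_lit 0, [], [nat_lit 27, nat_lit 40, nat_lit 40, nat_lit 80]⟩, ⟨p091_k16, nat_lit 0, nat_lit 0, nat_lit 613, nat_lit 0, nat_lit 944340, [nat_lit 3282000000, nat_lit 6250000000, nat_lit 11872000000], [], [nat_lit 31070998553, nat_lit 31175216055, nat_lit 32394392421, nat_lit 32484251521, nat_lit 29977265332, nat_lit 30041852373, nat_lit 30993982383,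 nat_lit 31118861890], nat_lit 1271250, nat_lit 1271250, nat_lit 1271250, nat_lit 1271250, nat_lit 279600, nat_lit 2052550, [nat_lit 780000, nat_lit 1435000, nat_lit 1271250], [nat_lit 23, nat_lit 40, nat_lit 40, nat_lit 80, nat_lit 12, nat_lit 373, nat_lit 150, nat_lit 9]⟩,
 zbF0, [⟨nat_lit 16, nat_lit 76, nat_lit 100, nat_lit 72, nat_lit 503871747⟩, ⟨nat_lit 7, nat_lit 100, nat_lit 91, nat_lit 74, nat_lit 236847930⟩]⟩
noncomputable def p091_l52 : Lf2 := ⟨nat_lit 0, nat_lit 15, [nat_lit 30, nat_lit 5, nat_lit 5, nat_lit 20], false, nat_lit 160, nat_lit 208, nat_lit 48, nat_lit 276, ⟨nat_lit 306, nat_lit 694, nat_lit 0, nat_lit 9, nat_lit 347, nat_lit 694, nat_lit 124, nat_lit 0, nat_lit 0, nat_lit 0, nat_lit 0, nat_lit 0, nat_lit 35127302, nat_lit 26733515, nat_lit 5139183, nat_lit 4792124, true, true⟩,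
 nat_lit 0, nat_lit 0, nat_lit 3409, nat_lit 0, nat_lit 3404, nat_lit 2169, nat_lit 0, nat_lit 0, nat_lit 0, nat_lit 329, nat_lit 0, nat_lit 0, nat_lit 0, nat_lit 0, nat_lit 0, nat_lit 578800, nat_lit 0, nat_lit 0, [(nat_lit 22, [(nat_lit 1, nat_lit 192), (nat_lit 2, nat_lit 502)])],
 ⟨p091_k13, nat_lit 0, nat_lit 0, nat_lit 0, nat_lit 0, nat_lit 0, [nat_lit 1544709334, nat_lit 1951416801, nat_lit 858470000], [], [nat_lit 27338297966, nat_lit 28111267958, nat_lit 28765681986, nat_lit 29580234557, nat_lit 28030557931, nat_lit 28756579389, nat_lit 29383365640, nat_lit 30273438920], nat_lit 0, nat_lit 0, nat_lit 0, nat_lit 0, nat_lit 0, nat_lit 0, [], [nat_lit 161, nat_lit 40, nat_lit 40, nat_lit 80]⟩, ⟨p091_k14, nat_lit 0, nat_lit 0, nat_lit 660, nat_lit 0, nat_lit 1186249, [nat_lit 1004292000, nat_lit 1434528000, nat_lit 3011652000], [], [nat_lit 9724409914, nat_lit 9771979001, nat_lit 10242978780, nat_lit 10284438936,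 nat_lit 9040077569, nat_lit 9058635092, nat_lit 9386972344, nat_lit 9412839439], nat_lit 1271250, nat_lit 1271250, nat_lit 1271250, nat_lit 1271250, nat_lit 279600, nat_lit 1992450, [nat_lit 780000, nat_lit 1100000, nat_lit 2127500], [nat_lit 42, nat_lit 40, nat_lit 40, nat_lit 80, nat_lit 13, nat_lit 289, nat_lit 75, nat_lit 7]⟩,
 ⟨nat_lit 3162, nat_lit 3873, ⟨.ofNat (nat_lit 845258), .ofNat (nat_lit 896875), .ofNat (nat_lit 850703), .ofNat (nat_lit 902323), .ofNat (nat_lit 832432), .ofNat (nat_lit 881194), .ofNat (nat_lit 837968), .ofNat (nat_lit 886733)⟩, ⟨.ofNat (nat_lit 261131), .ofNat (nat_lit 338557), .ofNat (nat_lit 282924), .ofNat (nat_lit 360350), .ofNat (nat_lit 261806), .ofNat (nat_lit 334950), .ofNat (nat_lit 283961), .ofNat (nat_lit 357105)⟩⟩, [⟨nat_lit 13, nat_lit 65, nat_lit 54, nat_lit 100, nat_lit 218169566⟩, ⟨nat_lit 4, nat_lit 100, nat_lit 67, nat_lit 67, nat_lit 528629199⟩, ⟨nat_lit 7, nat_lit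 100, nat_lit 95, nat_lit 69, nat_lit 57866004⟩]⟩
noncomputable def p091_l53 : Lf2 := ⟨nat_lit 0, nat_lit 15, [nat_lit 30, nat_lit 5, nat_lit 5, nat_lit 20], false, nat_lit 160, nat_lit 208, nat_lit 48, nat_lit 272, ⟨nat_lit 360, nat_lit 640, nat_lit 0, nat_lit 9, nat_lit 349, nat_lit 640, nat_lit 124, nat_lit 0, nat_lit 0, nat_lit 0, nat_lit 0, nat_lit 0, nat_lit 34955459, nat_lit 26924006, nat_lit 5120535, nat_lit 4792843, true, true⟩,
 nat_lit 0, nat_lit 0, nat_lit 3792, nat_lit 0, nat_lit 3361, nat_lit 2465, nat_lit 0, nat_lit 0, nat_lit 0, nat_lit 406, nat_lit 0, nat_lit 0, nat_lit 0, nat_lit 0, nat_lit 0, nat_lit 607600, nat_lit 0, nat_lit 0, [(nat_lit 22, [(nat_lit 1, nat_lit 54), (nat_lit 2, nat_lit 586)])],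
 ⟨p091_k13, nat_lit 0, nat_lit 0, nat_lit 0, nat_lit 0, nat_lit 0, [nat_lit 1577768534, nat_lit 2026866801, nat_lit 777523400], [], [nat_lit 27337501672, nat_lit 28107345650, nat_lit 28724860176, nat_lit 29519986432, nat_lit 28033478076, nat_lit 28751533531, nat_lit 29331705530, nat_lit 30217885590], nat_lit 0, nat_lit 0, nat_lit 0, nat_lit 0, nat_lit 0, nat_lit 0, [], [nat_lit 161, nat_lit 40, nat_lit 40, nat_lit 80]⟩, ⟨p091_k22, nat_lit 0, nat_lit 0, nat_lit 658, nat_lit 0, nat_lit 1184046, [nat_lit 1181520000, nat_lit 1687680000, nat_lit 3543120000], [], [nat_lit 11217770180, nat_lit 11273247028, nat_lit 11810244675, nat_lit 11858736943, nat_lit 10564111413, nat_lit 10589170993, nat_lit 10856358031, nat_lit 10881270824], nat_lit 1271250, nat_lit 1271250, nat_lit 1271250, nat_lit 1271250, nat_lit 279600, nat_lit 1962400, [nat_lit 780000, nat_lit 1100000, nat_lit 2127500], [nat_lit 42, nat_lit 40, nat_lit 40, nat_lit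 80, nat_lit 13, nat_lit 289, nat_lit 75, nat_lit 7]⟩,
 ⟨nat_lit 3162, nat_lit 3873, ⟨.ofNat (nat_lit 850703), .ofNat (nat_lit 902323), .ofNat (nat_lit 856147), .ofNat (nat_lit 907772), .ofNat (nat_lit 837968), .ofNat (nat_lit 886733), .ofNat (nat_lit 843501), .ofNat (nat_lit 892272)⟩, ⟨.ofNat (nat_lit 261131), .ofNat (nat_lit 338557), .ofNat (nat_lit 282924), .ofNat (nat_lit 360350), .ofNat (nat_lit 261806), .ofNat (nat_lit 334950), .ofNat (nat_lit 283961), .ofNat (nat_lit 357105)⟩⟩, [⟨nat_lit 13, nat_lit 66, nat_lit 52, nat_lit 100, nat_lit 151215634⟩, ⟨nat_lit 4, nat_lit 100, nat_lit 67, nat_lit 67, nat_lit 585404180⟩, ⟨nat_lit 7, nat_lit 100, nat_lit 93, nat_lit 69, nat_lit 70031133⟩]⟩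
noncomputable def p091_l54 : Lf2 := ⟨nat_lit 0, nat_lit 20, [nat_lit 5, nat_lit 5, nat_lit 5, nat_lit 20], false, nat_lit 160, nat_lit 232, nat_lit 48, nat_lit 160, ⟨nat_lit 1000, nat_lit 0, nat_lit 0, nat_lit 0, nat_lit 0, nat_lit 0, nat_lit 0, nat_lit 0, nat_lit 0, nat_lit 0, nat_lit 0, nat_lit 0, nat_lit 0, nat_lit 0, nat_lit 0, nat_lit 0, false, false⟩,
 nat_lit 0, nat_lit 0, nat_lit 12274, nat_lit 0, nat_lit 4129, nat_lit 7810, nat_lit 687, nat_lit 0, nat_lit 0, nat_lit 706, nat_lit 0, nat_lit 0, nat_lit 0, nat_lit 0, nat_lit 0, nat_lit 0, nat_lit 0, nat_lit 0, [],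
 ⟨p091_k8, nat_lit 0, nat_lit 0, nat_lit 0, nat_lit 0, nat_lit 0, [nat_lit 2032000001, nat_lit 4688000000, nat_lit 7968000000], [], [nat_lit 28154193626, nat_lit 28588270745, nat_lit 29739737876, nat_lit 30138661356, nat_lit 29107303188, nat_lit 29493691460, nat_lit 30656576895, nat_lit 31058515537], nat_lit 0, nat_lit 0, nat_lit 0, nat_lit 0, nat_lit 0, nat_lit 0, [], [nat_lit 34, nat_lit 40, nat_lit 40, nat_lit 80]⟩, ⟨p091_k9, nat_lit 0, nat_lit 0, nat_lit 561, nat_lit 0, nat_lit 840451, [nat_lit 3282000000, nat_lit 6250000000, nat_lit 11872000000], [], [nat_lit 34066516399, nat_lit 34260331020, nat_lit 35368868357, nat_lit 35669787995, nat_lit 30974316270, nat_lit 31134796150, nat_lit 31992009422, nat_lit 32128412734], nat_lit 1271250, nat_lit 1271250, nat_lit 1271250, nat_lit 1271250, nat_lit 279600, nat_lit 1100001, [nat_lit 780000, nat_lit 1435000, nat_lit 1271250], [nat_lit 23, nat_lit 40, nat_lit 40, nat_lit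 80, nat_lit 12, nat_lit 345, nat_lit 125, nat_lit 8]⟩,
 zbF0, [⟨nat_lit 13, nat_lit 76, nat_lit 40, nat_lit 100, nat_lit 4206046⟩, ⟨nat_lit 4, nat_lit 100, nat_lit 69, nat_lit 76, nat_lit 508945247⟩]⟩
noncomputable def p091_l55 : Lf2 := ⟨nat_lit 0, nat_lit 20, [nat_lit 5, nat_lit 5, nat_lit 5, nat_lit 20], false, nat_lit 160, nat_lit 216, nat_lit 48, nat_lit 160, ⟨nat_lit 287, nat_lit 713, nat_lit 0, nat_lit 9, nat_lit 345, nat_lit 713, nat_lit 135, nat_lit 0, nat_lit 0, nat_lit 0, nat_lit 0, nat_lit 0, nat_lit 34838469, nat_lit 26329576, nat_lit 5831955, nat_lit 4899870, true, true⟩,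
 nat_lit 0, nat_lit 0, nat_lit 3625, nat_lit 0, nat_lit 3066, nat_lit 2306, nat_lit 319, nat_lit 0, nat_lit 0, nat_lit 193, nat_lit 0, nat_lit 0, nat_lit 0, nat_lit 0, nat_lit 0, nat_lit 285200, nat_lit 0, nat_lit 0, [(nat_lit 22, [(nat_lit 1, nat_lit 713)])],
 ⟨p091_k11, nat_lit 0, nat_lit 0, nat_lit 0, nat_lit 0, nat_lit 0, [nat_lit 1551723201, nat_lit 2454028400, nat_lit 3281308400], [], [nat_lit 27387304138, nat_lit 27761503172, nat_lit 28536967785, nat_lit 28890628521, nat_lit 28200584732, nat_lit 28546345978, nat_lit 29366411201, nat_lit 29760529872], nat_lit 0, nat_lit 0, nat_lit 0, nat_lit 0, nat_lit 0, nat_lit 0, [], [nat_lit 34, nat_lit 40, nat_lit 40, nat_lit 80]⟩, ⟨p091_k9, nat_lit 0, nat_lit 0, nat_lit 645, nat_lit 0, nat_lit 982630, [nat_lit 941934000, nat_lit 1793750000, nat_lit 3407264000], [], [nat_lit 9807708824, nat_lit 9846503375, nat_lit 10121704448, nat_lit 10210356167, nat_lit 8910923779, nat_lit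 8941668510, nat_lit 9149509603, nat_lit 9192173705], nat_lit 1271250, nat_lit 1271250, nat_lit 1271250, nat_lit 1271250, nat_lit 279600, nat_lit 1100001, [nat_lit 780000, nat_lit 1435000, nat_lit 1271250], [nat_lit 23, nat_lit 40, nat_lit 40, nat_lit 80, nat_lit 12, nat_lit 345, nat_lit 125, nat_lit 8]⟩,
 ⟨nat_lit 3162, nat_lit 3536, ⟨.ofNat (nat_lit 838855), .ofNat (nat_lit 882788), .ofNat (nat_lit 849831), .ofNat (nat_lit 893764), .ofNat (nat_lit 832432), .ofNat (nat_lit 875099), .ofNat (nat_lit 843509), .ofNat (nat_lit 886176)⟩, ⟨.ofNat (nat_lit 283569), .ofNat (nat_lit 371435), .ofNat (nat_lit 305521), .ofNat (nat_lit 393387), .ofNat (nat_lit 283961), .ofNat (nat_lit 369296), .ofNat (nat_lit 306116), .ofNat (nat_lit 391450)⟩⟩, [⟨nat_lit 13, nat_lit 70, nat_lit 48, nat_lit 100, nat_lit 174842198⟩, ⟨nat_lit 4, nat_lit 100, nat_lit 63, nat_lit 76, nat_lit 298980431⟩]⟩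
noncomputable def p091_l56 : Lf2 := ⟨nat_lit 0, nat_lit 20, [nat_lit 5, nat_lit 5, nat_lit 5, nat_lit 20], false, nat_lit 160, nat_lit 232, nat_lit 160, nat_lit 300, ⟨nat_lit 704, nat_lit 296, nat_lit 0, nat_lit 9, nat_lit 349, nat_lit 296, nat_lit 141, nat_lit 0, nat_lit 0, nat_lit 0, nat_lit 0, nat_lit 0, nat_lit 34331847, nat_lit 26545662, nat_lit 6122491, nat_lit 4950620, true, true⟩,
 nat_lit 0, nat_lit 0, nat_lit 6634, nat_lit 0, nat_lit 3712, nat_lit 4221, nat_lit 535, nat_lit 0, nat_lit 0, nat_lit 502, nat_lit 0, nat_lit 0, nat_lit 0, nat_lit 0, nat_lit 0, nat_lit 118400, nat_lit 0, nat_lit 0, [(nat_lit 22, [(nat_lit 1, nat_lit 296)])],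
 ⟨p091_k8, nat_lit 0, nat_lit 0, nat_lit 0, nat_lit 0, nat_lit 0, [nat_lit 1832614400, nat_lit 3760572800, nat_lit 6022332800], [], [nat_lit 27771512096, nat_lit 28169192584, nat_lit 29212596064, nat_lit 29580995139, nat_lit 28769971938, nat_lit 29132769451, nat_lit 30189429782, nat_lit 30560024697], nat_lit 0, nat_lit 0, nat_lit 0, nat_lit 0, nat_lit 0, nat_lit 0, [], [nat_lit 34, nat_lit 40, nat_lit 40, nat_lit 80]⟩, ⟨p091_k9, nat_lit 0, nat_lit 0, nat_lit 505, nat_lit 0, nat_lit 840451, [nat_lit 2310528000, nat_lit 4400000000, nat_lit 8357888000], [], [nat_lit 24977286506, nat_lit 25098155549, nat_lit 25647780233, nat_lit 25784023608, nat_lit 25598981083, nat_lit 25706767179, nat_lit 26238509530, nat_lit 26344479129], nat_lit 1271250, nat_lit 1271250, nat_lit 1271250, nat_lit 1271250, nat_lit 1100001, nat_lit 2298750, [nat_lit 780000, nat_lit 1435000, nat_lit 1271250], [nat_lit 23, nat_lit 40, nat_lit 40, nat_lit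 80, nat_lit 12, nat_lit 373, nat_lit 150, nat_lit 8]⟩,
 ⟨nat_lit 3535, nat_lit 3873, ⟨.ofNat (nat_lit 845257), .ofNat (nat_lit 896875), .ofNat (nat_lit 856151), .ofNat (nat_lit 907772), .ofNat (nat_lit 838854), .ofNat (nat_lit 889064), .ofNat (nat_lit 849828), .ofNat (nat_lit 900040)⟩, ⟨.ofNat (nat_lit 282924), .ofNat (nat_lit 399063), .ofNat (nat_lit 304717), .ofNat (nat_lit 420856), .ofNat (nat_lit 283569), .ofNat (nat_lit 396539), .ofNat (nat_lit 305521), .ofNat (nat_lit 418492)⟩⟩, [⟨nat_lit 13, nat_lit 76, nat_lit 40, nat_lit 100, nat_lit 45731134⟩, ⟨nat_lit 4, nat_lit 100, nat_lit 69, nat_lit 76, nat_lit 406403370⟩, ⟨nat_lit 7, nat_lit 100, nat_lit 99, nat_lit 83, nat_lit 212575673⟩]⟩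
noncomputable def p091_l57 : Lf2 := ⟨nat_lit 0, nat_lit 20, [nat_lit 5, nat_lit 5, nat_lit 5, nat_lit 20], false, nat_lit 160, nat_lit 216, nat_lit 160, nat_lit 300, ⟨nat_lit 602, nat_lit 398, nat_lit 0, nat_lit 9, nat_lit 345, nat_lit 398, nat_lit 135, nat_lit 0, nat_lit 0, nat_lit 0, nat_lit 0, nat_lit 0, nat_lit 34838469, nat_lit 26329576, nat_lit 5831955, nat_lit 4899870, true, true⟩,
 nat_lit 0, nat_lit 0, nat_lit 6155, nat_lit 0, nat_lit 3269, nat_lit 3916, nat_lit 536, nat_lit 0, nat_lit 0, nat_lit 748, nat_lit 0, nat_lit 0, nat_lit 0, nat_lit 0, nat_lit 0, nat_lit 159200, nat_lit 0, nat_lit 0, [(nat_lit 22, [(nat_lit 1, nat_lit 398)])],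
 ⟨p091_k23, nat_lit 0, nat_lit 0, nat_lit 0, nat_lit 0, nat_lit 0, [nat_lit 1287713400, nat_lit 2195282200, nat_lit 4842272600], [], [nat_lit 27527960819, nat_lit 27929067344, nat_lit 28781675757, nat_lit 29166307713, nat_lit 28306043499, nat_lit 28676106601, nat_lit 29485108984, nat_lit 29924418055], nat_lit 0, nat_lit 0, nat_lit 0, nat_lit 0, nat_lit 0, nat_lit 0, [], [nat_lit 237, nat_lit 40, nat_lit 20, nat_lit 40]⟩, ⟨p091_k24, nat_lit 0, nat_lit 0, nat_lit 547, nat_lit 0, nat_lit 982630, [nat_lit 1975764000, nat_lit 2822176000, nat_lit 7146944000], [], [nat_lit 18181565792, nat_lit 18263946116, nat_lit 18673579833, nat_lit 18789208764, nat_lit 18667201174, nat_lit 18755792956, nat_lit 19136244838, nat_lit 19214141328], nat_lit 1271250, nat_lit 1271250, nat_lit 1271250, nat_lit 1271250, nat_lit 1100001, nat_lit 2298750, [nat_lit 780000, nat_lit 1100000, nat_lit 2470000], [nat_lit 158, nat_lit 40, nat_lit 40, nat_lit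 80, nat_lit 65, nat_lit 373, nat_lit 150, nat_lit 8]⟩,
 ⟨nat_lit 3162, nat_lit 3536, ⟨.ofNat (nat_lit 838855), .ofNat (nat_lit 882788), .ofNat (nat_lit 849831), .ofNat (nat_lit 893764), .ofNat (nat_lit 832432), .ofNat (nat_lit 875099), .ofNat (nat_lit 843509), .ofNat (nat_lit 886176)⟩, ⟨.ofNat (nat_lit 283569), .ofNat (nat_lit 371435), .ofNat (nat_lit 305521), .ofNat (nat_lit 393387), .ofNat (nat_lit 283961), .ofNat (nat_lit 369296), .ofNat (nat_lit 306116), .ofNat (nat_lit 391450)⟩⟩, [⟨nat_lit 13, nat_lit 70, nat_lit 48, nat_lit 100, nat_lit 87148437⟩, ⟨nat_lit 4, nat_lit 100, nat_lit 63, nat_lit 76, nat_lit 399550188⟩, ⟨nat_lit 7, nat_lit 100, nat_lit 99, nat_lit 83, nat_lit 179397785⟩]⟩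
noncomputable def p091_l58 : Lf2 := ⟨nat_lit 0, nat_lit 15, [nat_lit 30, nat_lit 5, nat_lit 5, nat_lit 20], false, nat_lit 160, nat_lit 208, nat_lit 48, nat_lit 268, ⟨nat_lit 428, nat_lit 572, nat_lit 0, nat_lit 9, nat_lit 352, nat_lit 572, nat_lit 124, nat_lit 0, nat_lit 0, nat_lit 0, nat_lit 0, nat_lit 0, nat_lit 34686883, nat_lit 27221915, nat_lit 5091202, nat_lit 4793579, true, true⟩,
 nat_lit 0, nat_lit 0, nat_lit 4292, nat_lit 0, nat_lit 3479, nat_lit 2850, nat_lit 0, nat_lit 0, nat_lit 0, nat_lit 539, nat_lit 0, nat_lit 0, nat_lit 0, nat_lit 0, nat_lit 0, nat_lit 572000, nat_lit 0, nat_lit 0, [(nat_lit 22, [(nat_lit 2, nat_lit 572)])],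
 ⟨p091_k25, nat_lit 0, nat_lit 0, nat_lit 0, nat_lit 0, nat_lit 0, [nat_lit 1193056401, nat_lit 2282002000, nat_lit 1423356400], [], [nat_lit 27410223038, nat_lit 28255879528, nat_lit 29126067618, nat_lit 29954938684, nat_lit 28049266330, nat_lit 28837529704, nat_lit 29698444136, nat_lit 30535122346], nat_lit 0, nat_lit 0, nat_lit 0, nat_lit 0, nat_lit 0, nat_lit 0, [], [nat_lit 237, nat_lit 40, nat_lit 20, nat_lit 40]⟩, ⟨p091_k15, nat_lit 0, nat_lit 0, nat_lit 655, nat_lit 0, nat_lit 1182618, [nat_lit 1404696000, nat_lit 2006464000, nat_lit 4212376000], [], [nat_lit 12711196720, nat_lit 12758324354, nat_lit 13453193205, nat_lit 13509566425, nat_lit 12202281329, nat_lit 12232657567, nat_lit 12589359548, nat_lit 12620411323], nat_lit 1271250, nat_lit 1271250, nat_lit 1271250, nat_lit 1271250, nat_lit 279600, nat_lit 1932350, [nat_lit 780000, nat_lit 1100000, nat_lit 2127500], [nat_lit 42, nat_lit 40, nat_lit 40, nat_lit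 80, nat_lit 13, nat_lit 289, nat_lit 75, nat_lit 7]⟩,
 ⟨nat_lit 3162, nat_lit 3873, ⟨.ofNat (nat_lit 856147), .ofNat (nat_lit 914224), .ofNat (nat_lit 861589), .ofNat (nat_lit 919672), .ofNat (nat_lit 843501), .ofNat (nat_lit 898367), .ofNat (nat_lit 849034), .ofNat (nat_lit 903906)⟩, ⟨.ofNat (nat_lit 261131), .ofNat (nat_lit 338557), .ofNat (nat_lit 282924), .ofNat (nat_lit 360350), .ofNat (nat_lit 261806), .ofNat (nat_lit 334950), .ofNat (nat_lit 283961), .ofNat (nat_lit 357105)⟩⟩, [⟨nat_lit 13, nat_lit 67, nat_lit 50, nat_lit 100, nat_lit 154360611⟩, ⟨nat_lit 4, nat_lit 100, nat_lit 67, nat_lit 67, nat_lit 680428868⟩, ⟨nat_lit 7, nat_lit 100, nat_lit 91, nat_lit 68, nat_lit 94806781⟩]⟩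
noncomputable def p091_l59 : Lf2 := ⟨nat_lit 0, nat_lit 20, [nat_lit 5, nat_lit 5, nat_lit 5, nat_lit 20], false, nat_lit 160, nat_lit 232, nat_lit 48, nat_lit 292, ⟨nat_lit 1000, nat_lit 0, nat_lit 0, nat_lit 0, nat_lit 0, nat_lit 0, nat_lit 0, nat_lit 0, nat_lit 0, nat_lit 0, nat_lit 0, nat_lit 0, nat_lit 0, nat_lit 0, nat_lit 0, nat_lit 0, false, false⟩,
 nat_lit 0, nat_lit 0, nat_lit 10932, nat_lit 0, nat_lit 4110, nat_lit 7260, nat_lit 685, nat_lit 0, nat_lit 0, nat_lit 824, nat_lit 0, nat_lit 0, nat_lit 0, nat_lit 0, nat_lit 0, nat_lit 0, nat_lit 0, nat_lit 0, [],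
 ⟨p091_k8, nat_lit 0, nat_lit 0, nat_lit 0, nat_lit 0, nat_lit 0, [nat_lit 2032000001, nat_lit 4688000000, nat_lit 7968000000], [], [nat_lit 28178085340, nat_lit 28611415550, nat_lit 29958294413, nat_lit 30362205235, nat_lit 29133782884, nat_lit 29519580746, nat_lit 30864989891, nat_lit 31261005624], nat_lit 0, nat_lit 0, nat_lit 0, nat_lit 0, nat_lit 0, nat_lit 0, [], [nat_lit 34, nat_lit 40, nat_lit 40, nat_lit 80]⟩, ⟨p091_k10, nat_lit 0, nat_lit 0, nat_lit 555, nat_lit 0, nat_lit 826470, [nat_lit 3282000000, nat_lit 6250000000, nat_lit 11872000000], [], [nat_lit 32220277665, nat_lit 32358737872, nat_lit 33843888673, nat_lit 33964015360, nat_lit 30665798020, nat_lit 30747302047, nat_lit 31754294863, nat_lit 31822647759], nat_lit 1271250, nat_lit 1271250, nat_lit 1271250, nat_lit 1271250, nat_lit 279600, nat_lit 2112650, [nat_lit 780000, nat_lit 1435000, nat_lit 1271250], [nat_lit 23, nat_lit 40, nat_lit 40, nat_lit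 80, nat_lit 12, nat_lit 373, nat_lit 150, nat_lit 9]⟩,
 zbF0, [⟨nat_lit 16, nat_lit 69, nat_lit 100, nat_lit 76, nat_lit 506217507⟩, ⟨nat_lit 7, nat_lit 100, nat_lit 96, nat_lit 82, nat_lit 186103088⟩]⟩
noncomputable def p091_l60 : Lf2 := ⟨nat_lit 0, nat_lit 20, [nat_lit 5, nat_lit 5, nat_lit 5, nat_lit 20], false, nat_lit 160, nat_lit 216, nat_lit 48, nat_lit 292, ⟨nat_lit 371, nat_lit 629, nat_lit 0, nat_lit 9, nat_lit 348, nat_lit 629, nat_lit 135, nat_lit 0, nat_lit 0, nat_lit 0, nat_lit 0, nat_lit 0, nat_lit 34585839, nat_lit 26613911, nat_lit 5800250, nat_lit 4900798, true, true⟩,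
 nat_lit 0, nat_lit 0, nat_lit 4122, nat_lit 0, nat_lit 3133, nat_lit 2737, nat_lit 366, nat_lit 0, nat_lit 0, nat_lit 284, nat_lit 0, nat_lit 0, nat_lit 0, nat_lit 0, nat_lit 0, nat_lit 251600, nat_lit 0, nat_lit 0, [(nat_lit 22, [(nat_lit 1, nat_lit 629)])],
 ⟨p091_k11, nat_lit 0, nat_lit 0, nat_lit 0, nat_lit 0, nat_lit 0, [nat_lit 1608305600, nat_lit 2717217200, nat_lit 3833457200], [], [nat_lit 27464643081, nat_lit 27841277498, nat_lit 28622905515, nat_lit 28982585941, nat_lit 28270765328, nat_lit 28618559461, nat_lit 29446974731, nat_lit 29843761739], nat_lit 0, nat_lit 0, nat_lit 0, nat_lit 0, nat_lit 0, nat_lit 0, [], [nat_lit 34, nat_lit 40, nat_lit 40, nat_lit 80]⟩, ⟨p091_k10, nat_lit 0, nat_lit 0, nat_lit 627, nat_lit 0, nat_lit 958396, [nat_lit 1217622000, nat_lit 2318750000, nat_lit 4404512000], [], [nat_lit 12008535333, nat_lit 12066828436, nat_lit 12589871508, nat_lit 12645984281, nat_lit 11286735433,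 nat_lit 11316899196, nat_lit 11602475833, nat_lit 11631274850], nat_lit 1271250, nat_lit 1271250, nat_lit 1271250, nat_lit 1271250, nat_lit 279600, nat_lit 2112650, [nat_lit 780000, nat_lit 1435000, nat_lit 1271250], [nat_lit 23, nat_lit 40, nat_lit 40, nat_lit 80, nat_lit 12, nat_lit 373, nat_lit 150, nat_lit 9]⟩,
 ⟨nat_lit 3162, nat_lit 3536, ⟨.ofNat (nat_lit 849831), .ofNat (nat_lit 893764), .ofNat (nat_lit 855319), .ofNat (nat_lit 899252), .ofNat (nat_lit 843509), .ofNat (nat_lit 886176), .ofNat (nat_lit 849048), .ofNat (nat_lit 891715)⟩, ⟨.ofNat (nat_lit 283569), .ofNat (nat_lit 371435), .ofNat (nat_lit 305521), .ofNat (nat_lit 393387), .ofNat (nat_lit 283961), .ofNat (nat_lit 369296), .ofNat (nat_lit 306116), .ofNat (nat_lit 391450)⟩⟩, [⟨nat_lit 13, nat_lit 67, nat_lit 50, nat_lit 100, nat_lit 152721298⟩, ⟨nat_lit 16, nat_lit 63, nat_lit 100, nat_lit 76, nat_lit 330947256⟩, ⟨nat_lit 7, nat_lit 100, nat_lit 96,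 nat_lit 82, nat_lit 63213941⟩]⟩
noncomputable def p091_l61 : Lf2 := ⟨nat_lit 0, nat_lit 15, [nat_lit 30, nat_lit 5, nat_lit 5, nat_lit 20], false, nat_lit 160, nat_lit 208, nat_lit 48, nat_lit 260, ⟨nat_lit 761, nat_lit 239, nat_lit 0, nat_lit 9, nat_lit 355, nat_lit 239, nat_lit 124, nat_lit 0, nat_lit 0, nat_lit 0, nat_lit 0, nat_lit 0, nat_lit 34516856, nat_lit 27410629, nat_lit 5072515, nat_lit 4793800, true, true⟩,
 nat_lit 0, nat_lit 0, nat_lit 7046, nat_lit 0, nat_lit 3769, nat_lit 4778, nat_lit 414, nat_lit 0, nat_lit 0, nat_lit 1241, nat_lit 0, nat_lit 0, nat_lit 0, nat_lit 0, nat_lit 0, nat_lit 239000, nat_lit 0, nat_lit 0, [(nat_lit 22, [(nat_lit 2, nat_lit 239)])],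
 ⟨p091_k0, nat_lit 0, nat_lit 0, nat_lit 0, nat_lit 0, nat_lit 0, [nat_lit 1879677334, nat_lit 3566229600, nat_lit 5138622400], [], [nat_lit 27931191536, nat_lit 28730696298, nat_lit 29562226229, nat_lit 30327790953, nat_lit 28591904989, nat_lit 29335419482, nat_lit 30142432793, nat_lit 30964331404], nat_lit 0, nat_lit 0, nat_lit 0, nat_lit 0, nat_lit 0, nat_lit 0, [], [nat_lit 34, nat_lit 40, nat_lit 40, nat_lit 80]⟩, ⟨p091_k7, nat_lit 0, nat_lit 0, nat_lit 655, nat_lit 0, nat_lit 1181962, [nat_lit 2497602000, nat_lit 4756250000, nat_lit 7489762000], [], [nat_lit 23229954702, nat_lit 23289084153, nat_lit 23944586930, nat_lit 23995861085, nat_lit 21950243797, nat_lit 21990204929, nat_lit 22603105253, nat_lit 22652212710], nat_lit 1271250, nat_lit 1271250, nat_lit 1271250, nat_lit 1271250, nat_lit 279600, nat_lit 1872250, [nat_lit 780000, nat_lit 1435000, nat_lit 1271250], [nat_lit 8, nat_lit 40, nat_lit 40, nat_lit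 80, nat_lit 1, nat_lit 289, nat_lit 75, nat_lit 7]⟩,
 ⟨nat_lit 3162, nat_lit 3873, ⟨.ofNat (nat_lit 861589), .ofNat (nat_lit 919672), .ofNat (nat_lit 867032), .ofNat (nat_lit 925121), .ofNat (nat_lit 849034), .ofNat (nat_lit 903906), .ofNat (nat_lit 854567), .ofNat (nat_lit 909444)⟩, ⟨.ofNat (nat_lit 261131), .ofNat (nat_lit 338557), .ofNat (nat_lit 282924), .ofNat (nat_lit 360350), .ofNat (nat_lit 261806), .ofNat (nat_lit 334950), .ofNat (nat_lit 283961), .ofNat (nat_lit 357105)⟩⟩, [⟨nat_lit 13, nat_lit 68, nat_lit 48, nat_lit 100, nat_lit 19285800⟩, ⟨nat_lit 16, nat_lit 67, nat_lit 100, nat_lit 67, nat_lit 1145476065⟩, ⟨nat_lit 7, nat_lit 100, nat_lit 89, nat_lit 68, nat_lit 177092184⟩]⟩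
noncomputable def p091_l62 : Lf2 := ⟨nat_lit 0, nat_lit 20, [nat_lit 5, nat_lit 5, nat_lit 5, nat_lit 20], false, nat_lit 160, nat_lit 232, nat_lit 48, nat_lit 284, ⟨nat_lit 1000, nat_lit 0, nat_lit 0, nat_lit 0, nat_lit 0, nat_lit 0, nat_lit 0, nat_lit 0, nat_lit 0, nat_lit 0, nat_lit 0, nat_lit 0, nat_lit 0, nat_lit 0, nat_lit 0, nat_lit 0, false, false⟩,
 nat_lit 0, nat_lit 0, nat_lit 9197, nat_lit 0, nat_lit 4084, nat_lit 6237, nat_lit 680, nat_lit 0, nat_lit 0, nat_lit 1480, nat_lit 0, nat_lit 0, nat_lit 0, nat_lit 0, nat_lit 0, nat_lit 0, nat_lit 0, nat_lit 0, [],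
 ⟨p091_k8, nat_lit 0, nat_lit 0, nat_lit 0, nat_lit 0, nat_lit 0, [nat_lit 2032000001, nat_lit 4688000000, nat_lit 7968000000], [], [nat_lit 28240422073, nat_lit 29095198144, nat_lit 30005962893, nat_lit 30816836997, nat_lit 29190654645, nat_lit 29959800756, nat_lit 30880918252, nat_lit 31679881281], nat_lit 0, nat_lit 0, nat_lit 0, nat_lit 0, nat_lit 0, nat_lit 0, [], [nat_lit 34, nat_lit 40, nat_lit 40, nat_lit 80]⟩, ⟨p091_k16, nat_lit 0, nat_lit 0, nat_lit 630, nat_lit 0, nat_lit 964486, [nat_lit 3282000000, nat_lit 6250000000, nat_lit 11872000000], [], [nat_lit 30748465110, nat_lit 30852677901, nat_lit 31939240708, nat_lit 32030537567, nat_lit 29657757967, nat_lit 29722359027, nat_lit 30645684445, nat_lit 30772673368], nat_lit 1271250, nat_lit 1271250, nat_lit 1271250, nat_lit 1271250, nat_lit 279600, nat_lit 2052550, [nat_lit 780000, nat_lit 1435000, nat_lit 1271250], [nat_lit 23, nat_lit 40, nat_lit 40, nat_lit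 80, nat_lit 12, nat_lit 373, nat_lit 150, nat_lit 9]⟩,
 zbF0, [⟨nat_lit 4, nat_lit 100, nat_lit 66, nat_lit 76, nat_lit 524488794⟩, ⟨nat_lit 19, nat_lit 93, nat_lit 100, nat_lit 81, nat_lit 214789553⟩]⟩
noncomputable def p091_l63 : Lf2 := ⟨nat_lit 2, nat_lit 20, [nat_lit 5, nat_lit 5, nat_lit 5, nat_lit 20], true, nat_lit 160, nat_lit 260, nat_lit 48, nat_lit 300, zbN0,
 nat_lit 0, nat_lit 0, nat_lit 0, nat_lit 0, nat_lit 0, nat_lit 0, nat_lit 0, nat_lit 0, nat_lit 0, nat_lit 0, nat_lit 0, nat_lit 0, nat_lit 0, nat_lit 0, nat_lit 0, nat_lit 0, nat_lit 0, nat_lit 0, [],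
 ⟨p091_k26, nat_lit 0, nat_lit 0, nat_lit 100, nat_lit 0, nat_lit 0, [], [], [], nat_lit 0, nat_lit 0, nat_lit 0, nat_lit 0, nat_lit 0, nat_lit 0, [], [nat_lit 61, nat_lit 40, nat_lit 40, nat_lit 80, nat_lit 1, nat_lit 289, nat_lit 75, nat_lit 7]⟩, C1.Rw.none,
 zbF0, []⟩
noncomputable def b_V_800_700_10_22 : St := ⟨true, nat_lit 0, nat_lit 1, nat_lit 1, nat_lit 80, nat_lit 320, nat_lit 360, nat_lit 280, nat_lit 300, nat_lit 240, nat_lit 400, nat_lit 40, nat_lit 80, nat_lit 160, nat_lit 260, nat_lit 0, nat_lit 300, nat_lit 40, nat_lit 80, nat_lit 0, nat_lit 0, nat_lit 0, nat_lit 0⟩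
theorem d_V_800_700_10_22 (h : EB TB.env) : Dead b_V_800_700_10_22 := chkB_sound0 h (T :=
(.spl (nat_lit 2) (nat_lit 320)
(.spl (nat_lit 2) (nat_lit 280)
(.leaf p091_l39)
(.trZ (nat_lit 9) (nat_lit 100) (nat_lit 94) (nat_lit 21) (nat_lit 4) (.spl (nat_lit 0) (nat_lit 340)
(.leaf p091_l40)
(.trX (nat_lit 16) (nat_lit 72) (nat_lit 100) (nat_lit 81) (nat_lit 232) (.leaf p091_l41)))))
(.trZ (nat_lit 9) (nat_lit 100) (nat_lit 82) (nat_lit 44) (nat_lit 16) (.spl (nat_lit 2) (nat_lit 360)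
(.spl (nat_lit 0) (nat_lit 340)
(.leaf p091_l42)
(.trX (nat_lit 16) (nat_lit 72) (nat_lit 100) (nat_lit 81) (nat_lit 232) (.leaf p091_l43)))
(.trZ (nat_lit 9) (nat_lit 100) (nat_lit 61) (nat_lit 68) (nat_lit 48) (.spl (nat_lit 8) (nat_lit 800)
(.leaf p091_l44)
(.spl (nat_lit 7) (nat_lit 600)
(.spl (nat_lit 0) (nat_lit 340)
(.spl (nat_lit 1) (nat_lit 290)
(.spl (nat_lit 3) (nat_lit 60)
(.trX (nat_lit 16) (nat_lit 81) (nat_lit 100) (nat_lit 72) (nat_lit 232) (.trX (nat_lit 19) (nat_lit 99) (nat_lit 100) (nat_lit 77) (nat_lit 276) (.spl (nat_lit 1) (nat_lit 285)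
(.trX (nat_lit 13) (nat_lit 88) (nat_lit 22) (nat_lit 100) (nat_lit 396) (.leaf p091_l45))
(.trX (nat_lit 19) (nat_lit 97) (nat_lit 100) (nat_lit 76) (nat_lit 272) (.leaf p091_l46)))))
(.spl (nat_lit 0) (nat_lit 330)
(.leaf p091_l47)
(.trX (nat_lit 13) (nat_lit 85) (nat_lit 27) (nat_lit 100) (nat_lit 396) (.trX (nat_lit 16) (nat_lit 78) (nat_lit 100) (nat_lit 82) (nat_lit 244) (.leaf p091_l48)))))
(.trX (nat_lit 19) (nat_lit 100) (nat_lit 100) (nat_lit 89) (nat_lit 292) (.spl (nat_lit 1) (nat_lit 295)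
(.spl (nat_lit 3) (nat_lit 60)
(.trX (nat_lit 16) (nat_lit 81) (nat_lit 100) (nat_lit 72) (nat_lit 232) (.trX (nat_lit 19) (nat_lit 94) (nat_lit 100) (nat_lit 75) (nat_lit 268) (.leaf p091_l49)))
(.leaf p091_l50))
(.trX (nat_lit 19) (nat_lit 97) (nat_lit 100) (nat_lit 88) (nat_lit 284) (.leaf p091_l51)))))
(.trX (nat_lit 13) (nat_lit 82) (nat_lit 29) (nat_lit 100) (nat_lit 396) (.trX (nat_lit 16) (nat_lit 72) (nat_lit 100) (nat_lit 81) (nat_lit 232) (.spl (nat_lit 1) (nat_lit 290)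
(.trX (nat_lit 13) (nat_lit 80) (nat_lit 34) (nat_lit 100) (nat_lit 392) (.spl (nat_lit 3) (nat_lit 60)
(.trX (nat_lit 16) (nat_lit 71) (nat_lit 100) (nat_lit 71) (nat_lit 208) (.trX (nat_lit 19) (nat_lit 99) (nat_lit 100) (nat_lit 77) (nat_lit 276) (.spl (nat_lit 1) (nat_lit 285)
(.leaf p091_l52)
(.trX (nat_lit 19) (nat_lit 97) (nat_lit 100) (nat_lit 76) (nat_lit 272) (.leaf p091_l53)))))
(.spl (nat_lit 5) (nat_lit 160)
(.spl (nat_lit 0) (nat_lit 350)
(.leaf p091_l54)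
(.trX (nat_lit 13) (nat_lit 74) (nat_lit 42) (nat_lit 100) (nat_lit 388) (.trX (nat_lit 16) (nat_lit 66) (nat_lit 100) (nat_lit 80) (nat_lit 216) (.leaf p091_l55))))
(.spl (nat_lit 0) (nat_lit 350)
(.leaf p091_l56)
(.trX (nat_lit 13) (nat_lit 74) (nat_lit 42) (nat_lit 100) (nat_lit 388) (.trX (nat_lit 16) (nat_lit 66) (nat_lit 100) (nat_lit 80) (nat_lit 216) (.leaf p091_l57)))))))
(.trX (nat_lit 19) (nat_lit 100) (nat_lit 100) (nat_lit 89) (nat_lit 292) (.spl (nat_lit 1) (nat_lit 295)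
(.spl (nat_lit 3) (nat_lit 60)
(.trX (nat_lit 16) (nat_lit 71) (nat_lit 100) (nat_lit 71) (nat_lit 208) (.trX (nat_lit 19) (nat_lit 94) (nat_lit 100) (nat_lit 75) (nat_lit 268) (.leaf p091_l58)))
(.spl (nat_lit 0) (nat_lit 350)
(.leaf p091_l59)
(.trX (nat_lit 13) (nat_lit 75) (nat_lit 39) (nat_lit 100) (nat_lit 388) (.trX (nat_lit 16) (nat_lit 66) (nat_lit 100) (nat_lit 80) (nat_lit 216) (.leaf p091_l60)))))
(.trX (nat_lit 19) (nat_lit 97) (nat_lit 100) (nat_lit 88) (nat_lit 284) (.spl (nat_lit 3) (nat_lit 60)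
(.trX (nat_lit 16) (nat_lit 71) (nat_lit 100) (nat_lit 71) (nat_lit 208) (.trX (nat_lit 19) (nat_lit 92) (nat_lit 100) (nat_lit 75) (nat_lit 260) (.leaf p091_l61)))
(.leaf p091_l62)))))))))
(.leaf p091_l63)))))))) (by decide +kernel)
noncomputable def p091_l64 : Lf2 := ⟨nat_lit 0, nat_lit 20, [nat_lit 5, nat_lit 5, nat_lit 5, nat_lit 20], false, nat_lit 160, nat_lit 260, nat_lit 0, nat_lit 160, ⟨nat_lit 803, nat_lit 197, nat_lit 0, nat_lit 7, nat_lit 323, nat_lit 197, nat_lit 145, nat_lit 0, nat_lit 0, nat_lit 0, nat_lit 0, nat_lit 0, nat_lit 36135641, nat_lit 24177568, nat_lit 6686791, nat_lit 4975712, true, true⟩,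
 nat_lit 0, nat_lit 0, nat_lit 6824, nat_lit 0, nat_lit 6045, nat_lit 4724, nat_lit 0, nat_lit 0, nat_lit 0, nat_lit 1246, nat_lit 0, nat_lit 0, nat_lit 0, nat_lit 0, nat_lit 0, nat_lit 49250, nat_lit 0, nat_lit 0, [(nat_lit 19, [(nat_lit 0, nat_lit 197)]), (nat_lit 22, [(nat_lit 0, nat_lit 197)])],
 ⟨p091_k26, nat_lit 0, nat_lit 0, nat_lit 100, nat_lit 0, nat_lit 0, [nat_lit 1940592001, nat_lit 5531974400, nat_lit 8509649600], [], [nat_lit 22622650420, nat_lit 25668095860, nat_lit 31955792760, nat_lit 33883985980, nat_lit 25578781145, nat_lit 28072084505, nat_lit 33184797320, nat_lit 35002721785], nat_lit 0, nat_lit 0, nat_lit 0, nat_lit 0, nat_lit 0, nat_lit 0, [], [nat_lit 61, nat_lit 40, nat_lit 40, nat_lit 80, nat_lit 1, nat_lit 401, nat_lit 175, nat_lit 10]⟩, ⟨p091_k27, nat_lit 0, nat_lit 0, nat_lit 747, nat_lit 0, nat_lit 1237900, [nat_lit 2635446000, nat_lit 6398304000, nat_lit 7903126000], [], [nat_lit 25153070444,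 nat_lit 25318817245, nat_lit 29367821924, nat_lit 29833692726, nat_lit 23258577154, nat_lit 23393655614, nat_lit 25965860276, nat_lit 26083651015], nat_lit 1271250, nat_lit 1271250, nat_lit 1271250, nat_lit 1271250, nat_lit 0, nat_lit 1100001, [nat_lit 780000, nat_lit 1762500, nat_lit 1271250], [nat_lit 99, nat_lit 40, nat_lit 40, nat_lit 80, nat_lit 17, nat_lit 373, nat_lit 150, nat_lit 10]⟩,
 ⟨nat_lit 3162, nat_lit 4473, ⟨.ofNat (nat_lit 675435), .ofNat (nat_lit 947591), .ofNat (nat_lit 686173), .ofNat (nat_lit 958341), .ofNat (nat_lit 671352), .ofNat (nat_lit 915409), .ofNat (nat_lit 682385), .ofNat (nat_lit 926454)⟩, ⟨.ofNat (nat_lit 259488), .ofNat (nat_lit 429433), .ofNat (nat_lit 302621), .ofNat (nat_lit 472567), .ofNat (nat_lit 261805), .ofNat (nat_lit 414188), .ofNat (nat_lit 306116), .ofNat (nat_lit 458499)⟩⟩, [⟨nat_lit 16, nat_lit 71, nat_lit 100, nat_lit 71, nat_lit 1130909458⟩]⟩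
noncomputable def p091_l65 : Lf2 := ⟨nat_lit 0, nat_lit 20, [nat_lit 5, nat_lit 5, nat_lit 5, nat_lit 20], false, nat_lit 160, nat_lit 260, nat_lit 0, nat_lit 160, ⟨nat_lit 1000, nat_lit 0, nat_lit 0, nat_lit 0, nat_lit 0, nat_lit 0, nat_lit 0, nat_lit 0, nat_lit 0, nat_lit 0, nat_lit 0, nat_lit 0, nat_lit 0, nat_lit 0, nat_lit 0, nat_lit 0, false, false⟩,
 nat_lit 0, nat_lit 0, nat_lit 8178, nat_lit 0, nat_lit 7030, nat_lit 5895, nat_lit 0, nat_lit 0, nat_lit 0, nat_lit 915, nat_lit 0, nat_lit 0, nat_lit 0, nat_lit 0, nat_lit 0, nat_lit 0, nat_lit 0, nat_lit 0, [],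
 ⟨p091_k26, nat_lit 0, nat_lit 0, nat_lit 100, nat_lit 0, nat_lit 0, [nat_lit 2032000001, nat_lit 6250000000, nat_lit 9842000000], [], [nat_lit 22429310680, nat_lit 25763195640, nat_lit 32736222320, nat_lit 35319650800, nat_lit 25459616830, nat_lit 28168840070, nat_lit 34153051900, nat_lit 36256600190], nat_lit 0, nat_lit 0, nat_lit 0, nat_lit 0, nat_lit 0, nat_lit 0, [], [nat_lit 61, nat_lit 40, nat_lit 40, nat_lit 80, nat_lit 1, nat_lit 401, nat_lit 175, nat_lit 10]⟩, ⟨p091_k28, nat_lit 0, nat_lit 0, nat_lit 746, nat_lit 0, nat_lit 1239451, [nat_lit 3282000000, nat_lit 7968000000, nat_lit 9842000000], [], [nat_lit 31762536770, nat_lit 32020846520, nat_lit 37185990545, nat_lit 37766699620, nat_lit 29600039630, nat_lit 29813926370, nat_lit 32936943340, nat_lit 33083579410], nat_lit 1271250, nat_lit 1271250, nat_lit 1271250, nat_lit 1271250, nat_lit 0, nat_lit 1100001, [nat_lit 780000, nat_lit 1762500, nat_lit 1271250],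 [nat_lit 99, nat_lit 40, nat_lit 40, nat_lit 80, nat_lit 17, nat_lit 373, nat_lit 150, nat_lit 10]⟩,
 zbF0, [⟨nat_lit 4, nat_lit 100, nat_lit 71, nat_lit 71, nat_lit 1349719510⟩]⟩
noncomputable def p091_l66 : Lf2 := ⟨nat_lit 0, nat_lit 15, [nat_lit 30, nat_lit 5, nat_lit 5, nat_lit 20], false, nat_lit 160, nat_lit 232, nat_lit 160, nat_lit 256, ⟨nat_lit 781, nat_lit 219, nat_lit 0, nat_lit 7, nat_lit 323, nat_lit 219, nat_lit 132, nat_lit 0, nat_lit 0, nat_lit 0, nat_lit 0, nat_lit 0, nat_lit 36692607, nat_lit 24482394, nat_lit 5824999, nat_lit 4849016, true, true⟩,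
 nat_lit 0, nat_lit 0, nat_lit 6376, nat_lit 0, nat_lit 5982, nat_lit 4413, nat_lit 0, nat_lit 0, nat_lit 0, nat_lit 1318, nat_lit 0, nat_lit 0, nat_lit 0, nat_lit 0, nat_lit 0, nat_lit 54750, nat_lit 0, nat_lit 0, [(nat_lit 19, [(nat_lit 0, nat_lit 219)]), (nat_lit 22, [(nat_lit 0, nat_lit 219)])],
 ⟨p091_k29, nat_lit 0, nat_lit 0, nat_lit 100, nat_lit 0, nat_lit 0, [nat_lit 1930384001, nat_lit 5438824000, nat_lit 6858458400], [], [nat_lit 22587790392, nat_lit 25614787416, nat_lit 31871890256, nat_lit 33791289520, nat_lit 24461316317, nat_lit 27100270932, nat_lit 32538797644, nat_lit 34337375263], nat_lit 0, nat_lit 0, nat_lit 0, nat_lit 0, nat_lit 0, nat_lit 0, [], [nat_lit 102, nat_lit 40, nat_lit 40, nat_lit 80, nat_lit 2, nat_lit 272, nat_lit 60, nat_lit 8]⟩, ⟨p091_k30, nat_lit 0, nat_lit 0, nat_lit 630, nat_lit 0, nat_lit 1216909, [nat_lit 2563242000, nat_lit 6223008000, nat_lit 7686602000], [], [nat_lit 21954506278,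 nat_lit 22105031728, nat_lit 24474287734, nat_lit 24624599830, nat_lit 22395465361, nat_lit 22518296121, nat_lit 24884314765, nat_lit 25038628239], nat_lit 1271250, nat_lit 1271250, nat_lit 1271250, nat_lit 1271250, nat_lit 1100001, nat_lit 1922000, [nat_lit 780000, nat_lit 1762500, nat_lit 1271250], [nat_lit 99, nat_lit 40, nat_lit 40, nat_lit 80, nat_lit 17, nat_lit 401, nat_lit 175, nat_lit 10]⟩,
 ⟨nat_lit 3162, nat_lit 4473, ⟨.ofNat (nat_lit 675435), .ofNat (nat_lit 947591), .ofNat (nat_lit 686173), .ofNat (nat_lit 958341), .ofNat (nat_lit 671352), .ofNat (nat_lit 915409), .ofNat (nat_lit 682385), .ofNat (nat_lit 926454)⟩, ⟨.ofNat (nat_lit 259488), .ofNat (nat_lit 381849), .ofNat (nat_lit 281055), .ofNat (nat_lit 403415), .ofNat (nat_lit 261805), .ofNat (nat_lit 371522), .ofNat (nat_lit 283961), .ofNat (nat_lit 393676)⟩⟩, [⟨nat_lit 4, nat_lit 100, nat_lit 72, nat_lit 66, nat_lit 751196517⟩, ⟨nat_lit 7, nat_lit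 100, nat_lit 86, nat_lit 67, nat_lit 320534534⟩]⟩
noncomputable def p091_l67 : Lf2 := ⟨nat_lit 0, nat_lit 20, [nat_lit 5, nat_lit 5, nat_lit 5, nat_lit 20], false, nat_lit 160, nat_lit 260, nat_lit 160, nat_lit 280, ⟨nat_lit 1000, nat_lit 0, nat_lit 0, nat_lit 0, nat_lit 0, nat_lit 0, nat_lit 0, nat_lit 0, nat_lit 0, nat_lit 0, nat_lit 0, nat_lit 0, nat_lit 0, nat_lit 0, nat_lit 0, nat_lit 0, false, false⟩,
 nat_lit 0, nat_lit 0, nat_lit 7915, nat_lit 0, nat_lit 6700, nat_lit 5479, nat_lit 0, nat_lit 0, nat_lit 0, nat_lit 1770, nat_lit 0, nat_lit 0, nat_lit 0, nat_lit 0, nat_lit 0, nat_lit 0, nat_lit 0, nat_lit 0, [],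
 ⟨p091_k26, nat_lit 0, nat_lit 0, nat_lit 100, nat_lit 0, nat_lit 0, [nat_lit 2032000001, nat_lit 6250000000, nat_lit 9842000000], [], [nat_lit 22734641200, nat_lit 25971891600, nat_lit 32577669600, nat_lit 34838392000, nat_lit 25740096700, nat_lit 28376981300, nat_lit 33779878000, nat_lit 35836519100], nat_lit 0, nat_lit 0, nat_lit 0, nat_lit 0, nat_lit 0, nat_lit 0, [], [nat_lit 61, nat_lit 40, nat_lit 40, nat_lit 80, nat_lit 1, nat_lit 401, nat_lit 175, nat_lit 10]⟩, ⟨p091_k27, nat_lit 0, nat_lit 0, nat_lit 527, nat_lit 0, nat_lit 1006474, [nat_lit 3282000000, nat_lit 7968000000, nat_lit 9842000000], [], [nat_lit 26832266880, nat_lit 27103206078, nat_lit 30975070776, nat_lit 31192382319, nat_lit 28326844940, nat_lit 28538755578, nat_lit 32240018679, nat_lit 32623886838], nat_lit 1271250, nat_lit 1271250, nat_lit 1271250, nat_lit 1271250, nat_lit 1100001, nat_lit 2127500, [nat_lit 780000, nat_lit 1762500, nat_lit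 1271250], [nat_lit 99, nat_lit 40, nat_lit 40, nat_lit 80, nat_lit 17, nat_lit 401, nat_lit 175, nat_lit 10]⟩,
 zbF0, [⟨nat_lit 4, nat_lit 100, nat_lit 72, nat_lit 76, nat_lit 603306848⟩, ⟨nat_lit 7, nat_lit 100, nat_lit 89, nat_lit 80, nat_lit 385620340⟩]⟩
noncomputable def p091_l68 : Lf2 := ⟨nat_lit 0, nat_lit 20, [nat_lit 5, nat_lit 5, nat_lit 5, nat_lit 20], false, nat_lit 160, nat_lit 260, nat_lit 160, nat_lit 268, ⟨nat_lit 1000, nat_lit 0, nat_lit 0, nat_lit 0, nat_lit 0, nat_lit 0, nat_lit 0, nat_lit 0, nat_lit 0, nat_lit 0, nat_lit 0, nat_lit 0, nat_lit 0, nat_lit 0, nat_lit 0, nat_lit 0, false, false⟩,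
 nat_lit 0, nat_lit 0, nat_lit 8169, nat_lit 0, nat_lit 6812, nat_lit 5889, nat_lit 0, nat_lit 0, nat_lit 0, nat_lit 968, nat_lit 0, nat_lit 0, nat_lit 0, nat_lit 0, nat_lit 0, nat_lit 0, nat_lit 0, nat_lit 0, [],
 ⟨p091_k26, nat_lit 0, nat_lit 0, nat_lit 100, nat_lit 0, nat_lit 0, [nat_lit 2032000001, nat_lit 6250000000, nat_lit 9842000000], [], [nat_lit 22631013872, nat_lit 25901061456, nat_lit 32561228896, nat_lit 35001728320, nat_lit 25644903532, nat_lit 28306339428, nat_lit 33906530960, nat_lit 35979092076], nat_lit 0, nat_lit 0, nat_lit 0, nat_lit 0, nat_lit 0, nat_lit 0, [], [nat_lit 61, nat_lit 40, nat_lit 40, nat_lit 80, nat_lit 1, nat_lit 401, nat_lit 175, nat_lit 10]⟩, ⟨p091_k28, nat_lit 0, nat_lit 0, nat_lit 639, nat_lit 0, nat_lit 1239451, [nat_lit 3282000000, nat_lit 7968000000, nat_lit 9842000000], [], [nat_lit 28021668877, nat_lit 28263845612, nat_lit 31818720053, nat_lit 31987336616, nat_lit 29174530833,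 nat_lit 29386337314, nat_lit 32703240334, nat_lit 33109452857], nat_lit 1271250, nat_lit 1271250, nat_lit 1271250, nat_lit 1271250, nat_lit 1100001, nat_lit 2024750, [nat_lit 780000, nat_lit 1762500, nat_lit 1271250], [nat_lit 99, nat_lit 40, nat_lit 40, nat_lit 80, nat_lit 17, nat_lit 401, nat_lit 175, nat_lit 10]⟩,
 zbF0, [⟨nat_lit 4, nat_lit 100, nat_lit 71, nat_lit 71, nat_lit 838730414⟩, ⟨nat_lit 7, nat_lit 100, nat_lit 83, nat_lit 73, nat_lit 435509434⟩]⟩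
noncomputable def b_V_800_700_10_23 : St := ⟨true, nat_lit 0, nat_lit 1, nat_lit 1, nat_lit 80, nat_lit 320, nat_lit 360, nat_lit 300, nat_lit 320, nat_lit 240, nat_lit 400, nat_lit 40, nat_lit 80, nat_lit 160, nat_lit 260, nat_lit 0, nat_lit 300, nat_lit 40, nat_lit 80, nat_lit 0, nat_lit 0, nat_lit 0, nat_lit 0⟩
theorem d_V_800_700_10_23 (h : EB TB.env) : Dead b_V_800_700_10_23 := chkB_sound0 h (T :=
(.trX (nat_lit 19) (nat_lit 94) (nat_lit 100) (nat_lit 87) (nat_lit 280) (.spl (nat_lit 5) (nat_lit 160)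
(.spl (nat_lit 1) (nat_lit 310)
(.leaf p091_l64)
(.leaf p091_l65))
(.spl (nat_lit 1) (nat_lit 310)
(.spl (nat_lit 3) (nat_lit 60)
(.trX (nat_lit 16) (nat_lit 81) (nat_lit 100) (nat_lit 72) (nat_lit 232) (.trX (nat_lit 19) (nat_lit 90) (nat_lit 100) (nat_lit 74) (nat_lit 256) (.leaf p091_l66)))
(.leaf p091_l67))
(.trX (nat_lit 19) (nat_lit 89) (nat_lit 100) (nat_lit 85) (nat_lit 268) (.leaf p091_l68)))))) (by decide +kernel)
noncomputable def p091_l69 : Lf2 := ⟨nat_lit 0, nat_lit 20, [nat_lit 5, nat_lit 5, nat_lit 5, nat_lit 20], true, nat_lit 0, nat_lit 260, nat_lit 0, nat_lit 300, ⟨nat_lit 0, nat_lit 1000, nat_lit 0, nat_lit 7, nat_lit 224, nat_lit 1000, nat_lit 89, nat_lit 0, nat_lit 0, nat_lit 0, nat_lit 0, nat_lit 0, nat_lit 0, nat_lit 0, nat_lit 0, nat_lit 5000000, false, false⟩,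
 nat_lit 0, nat_lit 0, nat_lit 0, nat_lit 0, nat_lit 6821, nat_lit 0, nat_lit 55, nat_lit 0, nat_lit 0, nat_lit 0, nat_lit 0, nat_lit 0, nat_lit 0, nat_lit 0, nat_lit 0, nat_lit 250000, nat_lit 0, nat_lit 0, [(nat_lit 19, [(nat_lit 0, nat_lit 1000)]), (nat_lit 22, [(nat_lit 0, nat_lit 1000)])],
 ⟨p091_k26, nat_lit 0, nat_lit 0, nat_lit 217, nat_lit 0, nat_lit 0, [nat_lit 1568000001, nat_lit 2605200001, nat_lit 3236666667], [], [nat_lit 25266764972, nat_lit 29415807654, nat_lit 27388098330, nat_lit 30617355782, nat_lit 23550259560, nat_lit 26388222819, nat_lit 24523689137, nat_lit 27133399360], nat_lit 0, nat_lit 0, nat_lit 0, nat_lit 0, nat_lit 0, nat_lit 0, [], [nat_lit 61, nat_lit 40, nat_lit 40, nat_lit 80, nat_lit 1, nat_lit 345, nat_lit 125, nat_lit 10]⟩, C1.Rw.none,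
 ⟨nat_lit 3162, nat_lit 4473, ⟨.ofNat (nat_lit 415764), .ofNat (nat_lit 653959), .ofNat (nat_lit 458716), .ofNat (nat_lit 696911), .ofNat (nat_lit 435680), .ofNat (nat_lit 649288), .ofNat (nat_lit 479808), .ofNat (nat_lit 693416)⟩, ⟨.negSucc (nat_lit 12437), .ofNat (nat_lit 429433), .ofNat (nat_lit 0), .ofNat (nat_lit 472567), .ofNat (nat_lit 0), .ofNat (nat_lit 414188), .ofNat (nat_lit 0), .ofNat (nat_lit 458499)⟩⟩, []⟩
noncomputable def p091_l70 : Lf2 := ⟨nat_lit 0, nat_lit 20, [nat_lit 5, nat_lit 5, nat_lit 5, nat_lit 20], false, nat_lit 0, nat_lit 260, nat_lit 0, nat_lit 300, ⟨nat_lit 1000, nat_lit 0, nat_lit 0, nat_lit 0, nat_lit 0, nat_lit 0, nat_lit 0, nat_lit 0, nat_lit 0, nat_lit 0, nat_lit 0, nat_lit 0, nat_lit 0, nat_lit 0, nat_lit 0, nat_lit 0, false, false⟩,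
 nat_lit 0, nat_lit 0, nat_lit 0, nat_lit 158, nat_lit 8154, nat_lit 10302, nat_lit 102, nat_lit 0, nat_lit 0, nat_lit 219, nat_lit 0, nat_lit 0, nat_lit 0, nat_lit 0, nat_lit 0, nat_lit 0, nat_lit 0, nat_lit 0, [],
 ⟨p091_k26, nat_lit 0, nat_lit 0, nat_lit 225, nat_lit 0, nat_lit 0, [nat_lit 2032000001, nat_lit 6250000000, nat_lit 9842000000], [], [nat_lit 34111765262, nat_lit 37654066510, nat_lit 44679539350, nat_lit 47309556968, nat_lit 29824324498, nat_lit 32063942914, nat_lit 36773136682, nat_lit 38244424204], nat_lit 0, nat_lit 0, nat_lit 0, nat_lit 0, nat_lit 0, nat_lit 0, [], [nat_lit 61, nat_lit 40, nat_lit 40, nat_lit 80, nat_lit 1, nat_lit 401, nat_lit 175, nat_lit 11]⟩, ⟨p091_k31, nat_lit 0, nat_lit 0, nat_lit 252, nat_lit 0, nat_lit 0, [nat_lit 3282000000, nat_lit 7968000000, nat_lit 11872000000], [], [nat_lit 35895348419, nat_lit 38981662851, nat_lit 47943324675, nat_lit 50096410312, nat_lit 30524083457,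 nat_lit 32342460709, nat_lit 37523168487, nat_lit 39260336836], nat_lit 0, nat_lit 0, nat_lit 0, nat_lit 0, nat_lit 0, nat_lit 0, [], [nat_lit 79, nat_lit 40, nat_lit 40, nat_lit 80, nat_lit 14, nat_lit 538, nat_lit 300, nat_lit 13]⟩,
 zbF0, []⟩
noncomputable def p091_l71 : Lf2 := ⟨nat_lit 0, nat_lit 20, [nat_lit 5, nat_lit 5, nat_lit 5, nat_lit 20], true, nat_lit 0, nat_lit 260, nat_lit 0, nat_lit 300, ⟨nat_lit 0, nat_lit 1000, nat_lit 0, nat_lit 7, nat_lit 224, nat_lit 1000, nat_lit 89, nat_lit 0, nat_lit 0, nat_lit 0, nat_lit 0, nat_lit 0, nat_lit 0, nat_lit 0, nat_lit 0, nat_lit 5000000, false, false⟩,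
 nat_lit 0, nat_lit 0, nat_lit 0, nat_lit 0, nat_lit 6821, nat_lit 0, nat_lit 55, nat_lit 0, nat_lit 0, nat_lit 0, nat_lit 0, nat_lit 0, nat_lit 0, nat_lit 0, nat_lit 0, nat_lit 250000, nat_lit 0, nat_lit 0, [(nat_lit 19, [(nat_lit 0, nat_lit 1000)]), (nat_lit 22, [(nat_lit 0, nat_lit 1000)])],
 ⟨p091_k17, nat_lit 0, nat_lit 0, nat_lit 205, nat_lit 0, nat_lit 0, [nat_lit 1568000001, nat_lit 2368400000, nat_lit 3220880000], [], [nat_lit 25258540805, nat_lit 29407583487, nat_lit 27379874163, nat_lit 30613082868, nat_lit 23542035393, nat_lit 26379998652, nat_lit 24515464970, nat_lit 27133399360], nat_lit 0, nat_lit 0, nat_lit 0, nat_lit 0, nat_lit 0, nat_lit 0, [], [nat_lit 27, nat_lit 40, nat_lit 40, nat_lit 80, nat_lit 13, nat_lit 345, nat_lit 125, nat_lit 10]⟩, C1.Rw.none,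
 ⟨nat_lit 3162, nat_lit 4473, ⟨.ofNat (nat_lit 415764), .ofNat (nat_lit 653959), .ofNat (nat_lit 458716), .ofNat (nat_lit 696911), .ofNat (nat_lit 435680), .ofNat (nat_lit 649288), .ofNat (nat_lit 479808), .ofNat (nat_lit 693416)⟩, ⟨.negSucc (nat_lit 12437), .ofNat (nat_lit 429433), .ofNat (nat_lit 0), .ofNat (nat_lit 472567), .ofNat (nat_lit 0), .ofNat (nat_lit 414188), .ofNat (nat_lit 0), .ofNat (nat_lit 458499)⟩⟩, []⟩
noncomputable def p091_l72 : Lf2 := ⟨nat_lit 0, nat_lit 20, [nat_lit 5, nat_lit 5, nat_lit 5, nat_lit 20], false, nat_lit 0, nat_lit 160, nat_lit 0, nat_lit 300, ⟨nat_lit 115, nat_lit 885, nat_lit 0, nat_lit 7, nat_lit 317, nat_lit 885, nat_lit 57, nat_lit 0, nat_lit 0, nat_lit 0, nat_lit 0, nat_lit 0, nat_lit 0, nat_lit 0, nat_lit 0, nat_lit 5000000, true, true⟩,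
 nat_lit 0, nat_lit 0, nat_lit 1354, nat_lit 0, nat_lit 3647, nat_lit 861, nat_lit 147, nat_lit 0, nat_lit 0, nat_lit 64, nat_lit 0, nat_lit 0, nat_lit 0, nat_lit 0, nat_lit 0, nat_lit 354000, nat_lit 0, nat_lit 0, [(nat_lit 19, [(nat_lit 1, nat_lit 885)]), (nat_lit 22, [(nat_lit 1, nat_lit 885)])],
 ⟨p091_k17, nat_lit 0, nat_lit 0, nat_lit 215, nat_lit 0, nat_lit 0, [nat_lit 1471028000, nat_lit 2342396000, nat_lit 2753150000], [], [nat_lit 25648870387, nat_lit 27657349527, nat_lit 32078170175, nat_lit 33638864395, nat_lit 24849158495, nat_lit 26482638403, nat_lit 30167679699, nat_lit 31379350083], nat_lit 0, nat_lit 0, nat_lit 0, nat_lit 0, nat_lit 0, nat_lit 0, [], [nat_lit 27, nat_lit 40, nat_lit 40, nat_lit 80, nat_lit 13, nat_lit 373, nat_lit 150, nat_lit 10]⟩, ⟨p091_k9, nat_lit 0, nat_lit 0, nat_lit 846, nat_lit 0, nat_lit 1317019, [nat_lit 377430000, nat_lit 718750000, nat_lit 1365280000], [], [nat_lit 4493647924,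 nat_lit 4531115292, nat_lit 4790751672, nat_lit 4876195076, nat_lit 4019820083, nat_lit 4036569423, nat_lit 4158324335, nat_lit 4161070413], nat_lit 1271250, nat_lit 1271250, nat_lit 1271250, nat_lit 1271250, nat_lit 0, nat_lit 2118750, [nat_lit 780000, nat_lit 1435000, nat_lit 1271250], [nat_lit 23, nat_lit 40, nat_lit 40, nat_lit 80, nat_lit 12, nat_lit 483, nat_lit 250, nat_lit 12]⟩,
 ⟨nat_lit 3162, nat_lit 4473, ⟨.ofNat (nat_lit 653959), .ofNat (nat_lit 926092), .ofNat (nat_lit 675435), .ofNat (nat_lit 947591), .ofNat (nat_lit 649288), .ofNat (nat_lit 893321), .ofNat (nat_lit 671352), .ofNat (nat_lit 915409)⟩, ⟨.negSucc (nat_lit 12437), .ofNat (nat_lit 259488), .ofNat (nat_lit 0), .ofNat (nat_lit 302621), .ofNat (nat_lit 0), .ofNat (nat_lit 261805), .ofNat (nat_lit 0), .ofNat (nat_lit 306116)⟩⟩, [⟨nat_lit 13, nat_lit 80, nat_lit 34, nat_lit 100, nat_lit 174536745⟩, ⟨nat_lit 10, nat_lit 100, nat_lit 39, nat_lit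 83, nat_lit 25640954⟩]⟩
noncomputable def p091_l73 : Lf2 := ⟨nat_lit 0, nat_lit 20, [nat_lit 5, nat_lit 5, nat_lit 5, nat_lit 20], false, nat_lit 0, nat_lit 160, nat_lit 0, nat_lit 280, ⟨nat_lit 164, nat_lit 836, nat_lit 0, nat_lit 7, nat_lit 325, nat_lit 836, nat_lit 57, nat_lit 0, nat_lit 0, nat_lit 0, nat_lit 0, nat_lit 0, nat_lit 0, nat_lit 0, nat_lit 0, nat_lit 5000000, true, true⟩,
 nat_lit 0, nat_lit 0, nat_lit 1534, nat_lit 0, nat_lit 3948, nat_lit 1061, nat_lit 133, nat_lit 0, nat_lit 0, nat_lit 93, nat_lit 0, nat_lit 0, nat_lit 0, nat_lit 0, nat_lit 0, nat_lit 334400, nat_lit 0, nat_lit 0, [(nat_lit 19, [(nat_lit 1, nat_lit 836)]), (nat_lit 22, [(nat_lit 1, nat_lit 836)])],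
 ⟨p091_k17, nat_lit 0, nat_lit 0, nat_lit 215, nat_lit 0, nat_lit 0, [nat_lit 1502087467, nat_lit 2472265600, nat_lit 3145640000], [], [nat_lit 26082063833, nat_lit 28158755593, nat_lit 32949662825, nat_lit 34549565305, nat_lit 24807178772, nat_lit 26507679049, nat_lit 30420783641, nat_lit 31655171097], nat_lit 0, nat_lit 0, nat_lit 0, nat_lit 0, nat_lit 0, nat_lit 0, [], [nat_lit 27, nat_lit 40, nat_lit 40, nat_lit 80, nat_lit 13, nat_lit 373, nat_lit 150, nat_lit 10]⟩, ⟨p091_k18, nat_lit 0, nat_lit 0, nat_lit 772, nat_lit 0, nat_lit 1312822, [nat_lit 538248000, nat_lit 1025000000, nat_lit 1614088000], [], [nat_lit 5958550538, nat_lit 6012788658, nat_lit 6391758872, nat_lit 6457343308, nat_lit 5508282028, nat_lit 5538616336, nat_lit 5736355373, nat_lit 5753155141], nat_lit 1271250, nat_lit 1271250, nat_lit 1271250, nat_lit 1271250, nat_lit 0, nat_lit 1977500, [nat_lit 780000, nat_lit 1435000, nat_lit 1271250], [nat_lit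 8, nat_lit 40, nat_lit 40, nat_lit 80, nat_lit 1, nat_lit 401, nat_lit 175, nat_lit 11]⟩,
 ⟨nat_lit 3162, nat_lit 4473, ⟨.ofNat (nat_lit 675435), .ofNat (nat_lit 947591), .ofNat (nat_lit 696911), .ofNat (nat_lit 969090), .ofNat (nat_lit 671352), .ofNat (nat_lit 915409), .ofNat (nat_lit 693416), .ofNat (nat_lit 937496)⟩, ⟨.negSucc (nat_lit 12437), .ofNat (nat_lit 259488), .ofNat (nat_lit 0), .ofNat (nat_lit 302621), .ofNat (nat_lit 0), .ofNat (nat_lit 261805), .ofNat (nat_lit 0), .ofNat (nat_lit 306116)⟩⟩, [⟨nat_lit 13, nat_lit 69, nat_lit 45, nat_lit 100, nat_lit 139206549⟩, ⟨nat_lit 10, nat_lit 100, nat_lit 35, nat_lit 84, nat_lit 56463906⟩]⟩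
noncomputable def p091_l74 : Lf2 := ⟨nat_lit 0, nat_lit 20, [nat_lit 5, nat_lit 5, nat_lit 5, nat_lit 20], false, nat_lit 160, nat_lit 260, nat_lit 0, nat_lit 300, ⟨nat_lit 164, nat_lit 836, nat_lit 0, nat_lit 7, nat_lit 317, nat_lit 836, nat_lit 145, nat_lit 0, nat_lit 0, nat_lit 0, nat_lit 0, nat_lit 0, nat_lit 0, nat_lit 0, nat_lit 0, nat_lit 5000000, true, true⟩,
 nat_lit 0, nat_lit 0, nat_lit 2230, nat_lit 0, nat_lit 4345, nat_lit 1419, nat_lit 0, nat_lit 0, nat_lit 0, nat_lit 70, nat_lit 0, nat_lit 0, nat_lit 0, nat_lit 0, nat_lit 0, nat_lit 209000, nat_lit 0, nat_lit 0, [(nat_lit 19, [(nat_lit 0, nat_lit 836)]), (nat_lit 22, [(nat_lit 0, nat_lit 836)])],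
 ⟨p091_k26, nat_lit 0, nat_lit 0, nat_lit 100, nat_lit 0, nat_lit 0, [nat_lit 1644096000, nat_lit 3202947201, nat_lit 4307149333], [], [nat_lit 21866538021, nat_lit 24414169061, nat_lit 29876311961, nat_lit 31563587981, nat_lit 24694650246, nat_lit 26815300006, nat_lit 31363090921, nat_lit 32838667685], nat_lit 0, nat_lit 0, nat_lit 0, nat_lit 0, nat_lit 0, nat_lit 0, [], [nat_lit 61, nat_lit 40, nat_lit 40, nat_lit 80, nat_lit 1, nat_lit 401, nat_lit 175, nat_lit 10]⟩, ⟨p091_k31, nat_lit 0, nat_lit 0, nat_lit 849, nat_lit 0, nat_lit 1317019, [nat_lit 538248000, nat_lit 1306752000, nat_lit 1947008000], [], [nat_lit 6952621578, nat_lit 6975215744, nat_lit 7227345116, nat_lit 7341173050, nat_lit 5948577956, nat_lit 5956575151, nat_lit 6023947573, nat_lit 6012584907], nat_lit 1271250, nat_lit 1271250, nat_lit 1271250, nat_lit 1271250, nat_lit 0, nat_lit 2118750, [nat_lit 780000, nat_lit 1762500, nat_lit 1271250], [nat_lit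 79, nat_lit 40, nat_lit 40, nat_lit 80, nat_lit 14, nat_lit 483, nat_lit 250, nat_lit 12]⟩,
 ⟨nat_lit 3162, nat_lit 4473, ⟨.ofNat (nat_lit 653959), .ofNat (nat_lit 926092), .ofNat (nat_lit 675435), .ofNat (nat_lit 947591), .ofNat (nat_lit 649288), .ofNat (nat_lit 893321), .ofNat (nat_lit 671352), .ofNat (nat_lit 915409)⟩, ⟨.ofNat (nat_lit 259488), .ofNat (nat_lit 429433), .ofNat (nat_lit 302621), .ofNat (nat_lit 472567), .ofNat (nat_lit 261805), .ofNat (nat_lit 414188), .ofNat (nat_lit 306116), .ofNat (nat_lit 458499)⟩⟩, [⟨nat_lit 13, nat_lit 80, nat_lit 34, nat_lit 100, nat_lit 120219020⟩, ⟨nat_lit 13, nat_lit 92, nat_lit 14, nat_lit 100, nat_lit 88742550⟩, ⟨nat_lit 16, nat_lit 83, nat_lit 100, nat_lit 83, nat_lit 265494203⟩, ⟨nat_lit 19, nat_lit 100, nat_lit 95, nat_lit 87, nat_lit 7994407⟩]⟩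
noncomputable def p091_l75 : Lf2 := ⟨nat_lit 0, nat_lit 20, [nat_lit 5, nat_lit 5, nat_lit 5, nat_lit 20], false, nat_lit 160, nat_lit 260, nat_lit 0, nat_lit 280, ⟨nat_lit 312, nat_lit 688, nat_lit 0, nat_lit 7, nat_lit 325, nat_lit 688, nat_lit 145, nat_lit 0, nat_lit 0, nat_lit 0, nat_lit 0, nat_lit 0, nat_lit 0, nat_lit 0, nat_lit 0, nat_lit 5000000, true, true⟩,
 nat_lit 0, nat_lit 0, nat_lit 2791, nat_lit 0, nat_lit 4675, nat_lit 1932, nat_lit 0, nat_lit 0, nat_lit 0, nat_lit 329, nat_lit 0, nat_lit 0, nat_lit 0, nat_lit 0, nat_lit 0, nat_lit 172000, nat_lit 0, nat_lit 0, [(nat_lit 19, [(nat_lit 0, nat_lit 688)]), (nat_lit 22, [(nat_lit 0, nat_lit 688)])],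
 ⟨p091_k26, nat_lit 0, nat_lit 0, nat_lit 100, nat_lit 0, nat_lit 0, [nat_lit 1712768001, nat_lit 3742377601, nat_lit 5273194667], [], [nat_lit 22100637901, nat_lit 24744903501, nat_lit 30367301001, nat_lit 32101343301, nat_lit 24953600776, nat_lit 27146589176, nat_lit 31804041401, nat_lit 33258748775], nat_lit 0, nat_lit 0, nat_lit 0, nat_lit 0, nat_lit 0, nat_lit 0, [], [nat_lit 61, nat_lit 40, nat_lit 40, nat_lit 80, nat_lit 1, nat_lit 401, nat_lit 175, nat_lit 10]⟩, ⟨p091_k27, nat_lit 0, nat_lit 0, nat_lit 778, nat_lit 0, nat_lit 1312822, [nat_lit 1023984000, nat_lit 2486016000, nat_lit 3070704000], [], [nat_lit 10548504849, nat_lit 10677884073, nat_lit 11671966392, nat_lit 12042730128, nat_lit 9919092693, nat_lit 9996826377, nat_lit 10502938989, nat_lit 10554470976], nat_lit 1271250, nat_lit 1271250, nat_lit 1271250, nat_lit 1271250, nat_lit 0, nat_lit 1977500, [nat_lit 780000, nat_lit 1762500, nat_lit 1271250],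 [nat_lit 99, nat_lit 40, nat_lit 40, nat_lit 80, nat_lit 17, nat_lit 401, nat_lit 175, nat_lit 11]⟩,
 ⟨nat_lit 3162, nat_lit 4473, ⟨.ofNat (nat_lit 675435), .ofNat (nat_lit 947591), .ofNat (nat_lit 696911), .ofNat (nat_lit 969090), .ofNat (nat_lit 671352), .ofNat (nat_lit 915409), .ofNat (nat_lit 693416), .ofNat (nat_lit 937496)⟩, ⟨.ofNat (nat_lit 259488), .ofNat (nat_lit 429433), .ofNat (nat_lit 302621), .ofNat (nat_lit 472567), .ofNat (nat_lit 261805), .ofNat (nat_lit 414188), .ofNat (nat_lit 306116), .ofNat (nat_lit 458499)⟩⟩, [⟨nat_lit 13, nat_lit 86, nat_lit 23, nat_lit 100, nat_lit 136529531⟩, ⟨nat_lit 4, nat_lit 100, nat_lit 71, nat_lit 71, nat_lit 382891943⟩, ⟨nat_lit 19, nat_lit 94, nat_lit 100, nat_lit 87, nat_lit 34619072⟩]⟩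
noncomputable def b_V_800_700_10_24 : St := ⟨true, nat_lit 0, nat_lit 2, nat_lit 2, nat_lit 80, nat_lit 320, nat_lit 360, nat_lit 280, nat_lit 320, nat_lit 100, nat_lit 400, nat_lit 40, nat_lit 80, nat_lit 0, nat_lit 260, nat_lit 0, nat_lit 300, nat_lit 40, nat_lit 80, nat_lit 0, nat_lit 0, nat_lit 0, nat_lit 0⟩
theorem d_V_800_700_10_24 (h : EB TB.env) : Dead b_V_800_700_10_24 := chkB_sound0 h (T :=
(.st (nat_lit 1)
(.spl (nat_lit 2) (nat_lit 240)
(.leaf p091_l69)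
(.leaf p091_l70))
(.spl (nat_lit 2) (nat_lit 240)
(.leaf p091_l71)
(.spl (nat_lit 4) (nat_lit 160)
(.spl (nat_lit 1) (nat_lit 300)
(.leaf p091_l72)
(.trX (nat_lit 19) (nat_lit 94) (nat_lit 100) (nat_lit 87) (nat_lit 280) (.leaf p091_l73)))
(.spl (nat_lit 1) (nat_lit 300)
(.leaf p091_l74)
(.trX (nat_lit 19) (nat_lit 94) (nat_lit 100) (nat_lit 87) (nat_lit 280) (.leaf p091_l75))))))) (by decide +kernel)
noncomputable def p091_l76 : Lf2 := ⟨nat_lit 0, nat_lit 20, [nat_lit 5, nat_lit 5, nat_lit 5, nat_lit 20], false, nat_lit 0, nat_lit 160, nat_lit 0, nat_lit 160, ⟨nat_lit 1000, nat_lit 0, nat_lit 0, nat_lit 0, nat_lit 0, nat_lit 0, nat_lit 0, nat_lit 0, nat_lit 0, nat_lit 0, nat_lit 0, nat_lit 0, nat_lit 0, nat_lit 0, nat_lit 0, nat_lit 0, false, false⟩,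
 nat_lit 0, nat_lit 10093, nat_lit 0, nat_lit 0, nat_lit 7569, nat_lit 6429, nat_lit 743, nat_lit 0, nat_lit 0, nat_lit 1352, nat_lit 0, nat_lit 0, nat_lit 0, nat_lit 0, nat_lit 0, nat_lit 0, nat_lit 0, nat_lit 0, [],
 ⟨p091_k17, nat_lit 0, nat_lit 0, nat_lit 589, nat_lit 0, nat_lit 775883, [nat_lit 2032000001, nat_lit 4688000000, nat_lit 9842000000], [], [nat_lit 25739347453, nat_lit 27668337494, nat_lit 27420345507, nat_lit 29407985186, nat_lit 22100280211, nat_lit 22984741699, nat_lit 31520956729, nat_lit 28262683885], nat_lit 1271250, nat_lit 1271250, nat_lit 631250, nat_lit 1751250, nat_lit 0, nat_lit 1100001, [nat_lit 490000, nat_lit 1100000, nat_lit 2127500], [nat_lit 27, nat_lit 40, nat_lit 40, nat_lit 80, nat_lit 13, nat_lit 317, nat_lit 100, nat_lit 9]⟩, ⟨p091_k9, nat_lit 0, nat_lit 0, nat_lit 221, nat_lit 0, nat_lit 0, [nat_lit 3282000000, nat_lit 6250000000, nat_lit 11872000000], [], [nat_lit 21259986570,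 nat_lit 22858106025, nat_lit 23643707268, nat_lit 25361129842, nat_lit 16814632266, nat_lit 18170134508, nat_lit 20108708720, nat_lit 21547045522], nat_lit 0, nat_lit 0, nat_lit 0, nat_lit 0, nat_lit 0, nat_lit 0, [], [nat_lit 23, nat_lit 40, nat_lit 40, nat_lit 80, nat_lit 12, nat_lit 401, nat_lit 175, nat_lit 10]⟩,
 zbF0, [⟨nat_lit 0, nat_lit 90, nat_lit 74, nat_lit 100, nat_lit 264035088⟩]⟩
noncomputable def p091_l77 : Lf2 := ⟨nat_lit 0, nat_lit 20, [nat_lit 5, nat_lit 5, nat_lit 5, nat_lit 20], false, nat_lit 0, nat_lit 160, nat_lit 0, nat_lit 160, ⟨nat_lit 1000, nat_lit 0, nat_lit 0, nat_lit 0, nat_lit 0, nat_lit 0, nat_lit 0, nat_lit 0, nat_lit 0, nat_lit 0, nat_lit 0, nat_lit 0, nat_lit 0, nat_lit 0, nat_lit 0, nat_lit 0, false, false⟩,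
 nat_lit 0, nat_lit 6790, nat_lit 0, nat_lit 0, nat_lit 5496, nat_lit 6511, nat_lit 1259, nat_lit 0, nat_lit 0, nat_lit 0, nat_lit 0, nat_lit 0, nat_lit 0, nat_lit 0, nat_lit 0, nat_lit 0, nat_lit 0, nat_lit 0, [],
 ⟨p091_k32, nat_lit 0, nat_lit 0, nat_lit 537, nat_lit 0, nat_lit 865551, [nat_lit 2032000001, nat_lit 7968000000], [], [nat_lit 23514491950, nat_lit 25053795236, nat_lit 25835389424, nat_lit 28002424768, nat_lit 21172950543, nat_lit 21958160868, nat_lit 22783316929, nat_lit 23316106765], nat_lit 1271250, nat_lit 1271250, nat_lit 810650, nat_lit 1764750, nat_lit 0, nat_lit 1100001, [nat_lit 490000, nat_lit 1740000], [nat_lit 110, nat_lit 40, nat_lit 40, nat_lit 80, nat_lit 109, nat_lit 317, nat_lit 100, nat_lit 10]⟩, ⟨p091_k33, nat_lit 0, nat_lit 0, nat_lit 195, nat_lit 0, nat_lit 0, [nat_lit 3282000000, nat_lit 11872000000], [], [nat_lit 33988388897, nat_lit 35549533541, nat_lit 36457650608, nat_lit 37702897888,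 nat_lit 29540060102, nat_lit 30861931393, nat_lit 31714776756, nat_lit 32771157262], nat_lit 0, nat_lit 0, nat_lit 0, nat_lit 0, nat_lit 0, nat_lit 0, [], [nat_lit 135, nat_lit 40, nat_lit 40, nat_lit 80, nat_lit 134, nat_lit 401, nat_lit 175, nat_lit 10]⟩,
 zbF0, [⟨nat_lit 0, nat_lit 87, nat_lit 60, nat_lit 100, nat_lit 621319200⟩]⟩
noncomputable def p091_l78 : Lf2 := ⟨nat_lit 0, nat_lit 20, [nat_lit 5, nat_lit 5, nat_lit 5, nat_lit 20], false, nat_lit 0, nat_lit 160, nat_lit 0, nat_lit 160, ⟨nat_lit 1000, nat_lit 0, nat_lit 0, nat_lit 0, nat_lit 0, nat_lit 0, nat_lit 0, nat_lit 0, nat_lit 0, nat_lit 0, nat_lit 0, nat_lit 0, nat_lit 0, nat_lit 0, nat_lit 0, nat_lit 0, false, false⟩,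
 nat_lit 0, nat_lit 9289, nat_lit 0, nat_lit 0, nat_lit 6966, nat_lit 6515, nat_lit 678, nat_lit 0, nat_lit 0, nat_lit 1271, nat_lit 0, nat_lit 0, nat_lit 0, nat_lit 0, nat_lit 0, nat_lit 0, nat_lit 0, nat_lit 0, [],
 ⟨p091_k17, nat_lit 0, nat_lit 0, nat_lit 633, nat_lit 0, nat_lit 936020, [nat_lit 2032000001, nat_lit 4688000000, nat_lit 9842000000], [], [nat_lit 32000703626, nat_lit 29195882682, nat_lit 29170779454, nat_lit 29976332578, nat_lit 25040980686, nat_lit 25868567570, nat_lit 27984799895, nat_lit 26435886376], nat_lit 1271250, nat_lit 1271250, nat_lit 780000, nat_lit 1762500, nat_lit 0, nat_lit 1100001, [nat_lit 490000, nat_lit 1100000, nat_lit 2127500], [nat_lit 27, nat_lit 40, nat_lit 40, nat_lit 80, nat_lit 13, nat_lit 317, nat_lit 100, nat_lit 9]⟩, ⟨p091_k18, nat_lit 0, nat_lit 0, nat_lit 182, nat_lit 0, nat_lit 0, [nat_lit 3282000000, nat_lit 6250000000, nat_lit 9842000000], [], [nat_lit 19989800540,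 nat_lit 21779383830, nat_lit 22954789230, nat_lit 25172887200, nat_lit 15820655230, nat_lit 17325188105, nat_lit 19037720395, nat_lit 20486939465], nat_lit 0, nat_lit 0, nat_lit 0, nat_lit 0, nat_lit 0, nat_lit 0, [], [nat_lit 8, nat_lit 40, nat_lit 40, nat_lit 80, nat_lit 1, nat_lit 317, nat_lit 100, nat_lit 9]⟩,
 zbF0, [⟨nat_lit 0, nat_lit 81, nat_lit 72, nat_lit 100, nat_lit 551669888⟩]⟩
noncomputable def p091_l79 : Lf2 := ⟨nat_lit 0, nat_lit 20, [nat_lit 5, nat_lit 5, nat_lit 5, nat_lit 20], false, nat_lit 0, nat_lit 160, nat_lit 0, nat_lit 160, ⟨nat_lit 1000, nat_lit 0, nat_lit 0, nat_lit 0, nat_lit 0, nat_lit 0, nat_lit 0, nat_lit 0, nat_lit 0, nat_lit 0, nat_lit 0, nat_lit 0, nat_lit 0, nat_lit 0, nat_lit 0, nat_lit 0, false, false⟩,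
 nat_lit 0, nat_lit 6671, nat_lit 0, nat_lit 0, nat_lit 5400, nat_lit 6729, nat_lit 1303, nat_lit 0, nat_lit 0, nat_lit 0, nat_lit 0, nat_lit 0, nat_lit 0, nat_lit 0, nat_lit 0, nat_lit 0, nat_lit 0, nat_lit 0, [],
 ⟨p091_k32, nat_lit 0, nat_lit 0, nat_lit 605, nat_lit 0, nat_lit 1000681, [nat_lit 2032000001, nat_lit 7968000000], [], [nat_lit 23248346930, nat_lit 24975853280, nat_lit 25669943600, nat_lit 27813275200, nat_lit 21293249016, nat_lit 22051344936, nat_lit 23140776629, nat_lit 23220556233], nat_lit 1271250, nat_lit 1271250, nat_lit 968401, nat_lit 1776000, nat_lit 0, nat_lit 1100001, [nat_lit 490000, nat_lit 1740000], [nat_lit 110, nat_lit 40, nat_lit 40, nat_lit 80, nat_lit 109, nat_lit 317, nat_lit 100, nat_lit 10]⟩, ⟨p091_k34, nat_lit 0, nat_lit 0, nat_lit 164, nat_lit 0, nat_lit 0, [nat_lit 3282000000, nat_lit 9842000000], [], [nat_lit 30396923259, nat_lit 32153038638, nat_lit 33075786026, nat_lit 34514268112,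 nat_lit 25991502044, nat_lit 27465665955, nat_lit 28307131010, nat_lit 29518834284], nat_lit 0, nat_lit 0, nat_lit 0, nat_lit 0, nat_lit 0, nat_lit 0, [], [nat_lit 82, nat_lit 40, nat_lit 40, nat_lit 80, nat_lit 63, nat_lit 317, nat_lit 100, nat_lit 9]⟩,
 zbF0, [⟨nat_lit 0, nat_lit 80, nat_lit 60, nat_lit 100, nat_lit 573712665⟩, ⟨nat_lit 4, nat_lit 100, nat_lit 66, nat_lit 72, nat_lit 6130006⟩]⟩
noncomputable def p091_l80 : Lf2 := ⟨nat_lit 0, nat_lit 20, [nat_lit 5, nat_lit 5, nat_lit 5, nat_lit 20], false, nat_lit 160, nat_lit 260, nat_lit 0, nat_lit 160, ⟨nat_lit 1000, nat_lit 0, nat_lit 0, nat_lit 0, nat_lit 0, nat_lit 0, nat_lit 0, nat_lit 0, nat_lit 0, nat_lit 0, nat_lit 0, nat_lit 0, nat_lit 0, nat_lit 0, nat_lit 0, nat_lit 0, false, false⟩,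
 nat_lit 0, nat_lit 9163, nat_lit 0, nat_lit 0, nat_lit 6871, nat_lit 6847, nat_lit 732, nat_lit 0, nat_lit 0, nat_lit 1237, nat_lit 0, nat_lit 0, nat_lit 0, nat_lit 0, nat_lit 0, nat_lit 0, nat_lit 0, nat_lit 0, [],
 ⟨p091_k17, nat_lit 0, nat_lit 0, nat_lit 561, nat_lit 0, nat_lit 936020, [nat_lit 2032000001, nat_lit 4688000000, nat_lit 9842000000], [], [nat_lit 23500477202, nat_lit 24518254910, nat_lit 24287442524, nat_lit 25250274176, nat_lit 25218299972, nat_lit 26108596432, nat_lit 26000561663, nat_lit 26838828310], nat_lit 1271250, nat_lit 1271250, nat_lit 631250, nat_lit 1751250, nat_lit 1100001, nat_lit 1956250, [nat_lit 490000, nat_lit 1100000, nat_lit 2127500], [nat_lit 27, nat_lit 40, nat_lit 40, nat_lit 80, nat_lit 13, nat_lit 345, nat_lit 125, nat_lit 9]⟩, ⟨p091_k9, nat_lit 0, nat_lit 0, nat_lit 230, nat_lit 0, nat_lit 0, [nat_lit 3282000000, nat_lit 6250000000, nat_lit 11872000000], [], [nat_lit 22611338385,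 nat_lit 25927455515, nat_lit 24727549691, nat_lit 27284222811, nat_lit 17681364913, nat_lit 20488424125, nat_lit 19616170960, nat_lit 22598630332], nat_lit 0, nat_lit 0, nat_lit 0, nat_lit 0, nat_lit 0, nat_lit 0, [], [nat_lit 23, nat_lit 40, nat_lit 40, nat_lit 80, nat_lit 12, nat_lit 428, nat_lit 200, nat_lit 11]⟩,
 zbF0, [⟨nat_lit 0, nat_lit 81, nat_lit 72, nat_lit 100, nat_lit 700544240⟩, ⟨nat_lit 4, nat_lit 100, nat_lit 76, nat_lit 72, nat_lit 528690910⟩]⟩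
noncomputable def p091_l81 : Lf2 := ⟨nat_lit 0, nat_lit 20, [nat_lit 5, nat_lit 5, nat_lit 5, nat_lit 20], false, nat_lit 160, nat_lit 232, nat_lit 0, nat_lit 160, ⟨nat_lit 1000, nat_lit 0, nat_lit 0, nat_lit 0, nat_lit 0, nat_lit 0, nat_lit 0, nat_lit 0, nat_lit 0, nat_lit 0, nat_lit 0, nat_lit 0, nat_lit 0, nat_lit 0, nat_lit 0, nat_lit 0, false, false⟩,
 nat_lit 0, nat_lit 6823, nat_lit 0, nat_lit 0, nat_lit 5523, nat_lit 6289, nat_lit 1301, nat_lit 0, nat_lit 0, nat_lit 0, nat_lit 0, nat_lit 0, nat_lit 0, nat_lit 0, nat_lit 0, nat_lit 0, nat_lit 0, nat_lit 0, [],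
 ⟨p091_k32, nat_lit 0, nat_lit 0, nat_lit 503, nat_lit 0, nat_lit 1000681, [nat_lit 2032000001, nat_lit 7968000000], [], [nat_lit 20180831254, nat_lit 21367263810, nat_lit 21757489279, nat_lit 23289982780, nat_lit 21526369373, nat_lit 22805400231, nat_lit 23568742625, nat_lit 25170589650], nat_lit 1271250, nat_lit 1271250, nat_lit 810650, nat_lit 1764750, nat_lit 1100001, nat_lit 1716500, [nat_lit 490000, nat_lit 1740000], [nat_lit 110, nat_lit 40, nat_lit 40, nat_lit 80, nat_lit 109, nat_lit 345, nat_lit 125, nat_lit 10]⟩, ⟨p091_k33, nat_lit 0, nat_lit 0, nat_lit 202, nat_lit 0, nat_lit 0, [nat_lit 3282000000, nat_lit 11872000000], [], [nat_lit 33883921824, nat_lit 36945135095, nat_lit 36369443792, nat_lit 38816213232, nat_lit 29689145179, nat_lit 32284161158, nat_lit 31883764044, nat_lit 33962316632], nat_lit 0, nat_lit 0, nat_lit 0, nat_lit 0, nat_lit 0, nat_lit 0, [], [nat_lit 135, nat_lit 40, nat_lit 40, nat_lit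 80, nat_lit 134, nat_lit 428, nat_lit 200, nat_lit 11]⟩,
 zbF0, [⟨nat_lit 0, nat_lit 88, nat_lit 67, nat_lit 100, nat_lit 556855479⟩, ⟨nat_lit 4, nat_lit 100, nat_lit 66, nat_lit 72, nat_lit 702120621⟩]⟩
noncomputable def p091_l82 : Lf2 := ⟨nat_lit 0, nat_lit 20, [nat_lit 5, nat_lit 5, nat_lit 5, nat_lit 20], false, nat_lit 0, nat_lit 260, nat_lit 160, nat_lit 300, ⟨nat_lit 1000, nat_lit 0, nat_lit 0, nat_lit 0, nat_lit 0, nat_lit 0, nat_lit 0, nat_lit 0, nat_lit 0, nat_lit 0, nat_lit 0, nat_lit 0, nat_lit 0, nat_lit 0, nat_lit 0, nat_lit 0, false, false⟩,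
 nat_lit 0, nat_lit 8408, nat_lit 0, nat_lit 0, nat_lit 6306, nat_lit 5553, nat_lit 684, nat_lit 0, nat_lit 0, nat_lit 0, nat_lit 0, nat_lit 0, nat_lit 0, nat_lit 0, nat_lit 0, nat_lit 0, nat_lit 0, nat_lit 0, [],
 ⟨p091_k17, nat_lit 0, nat_lit 0, nat_lit 589, nat_lit 0, nat_lit 775883, [nat_lit 2032000001, nat_lit 4688000000, nat_lit 9842000000], [], [nat_lit 35651125212, nat_lit 32342001264, nat_lit 31504127164, nat_lit 32276935048, nat_lit 29320912807, nat_lit 29995996245, nat_lit 36420141153, nat_lit 33721838436], nat_lit 1271250, nat_lit 1271250, nat_lit 631250, nat_lit 1751250, nat_lit 0, nat_lit 1836250, [nat_lit 490000, nat_lit 1100000, nat_lit 2127500], [nat_lit 27, nat_lit 40, nat_lit 40, nat_lit 80, nat_lit 13, nat_lit 345, nat_lit 125, nat_lit 10]⟩, ⟨p091_k9, nat_lit 0, nat_lit 0, nat_lit 51, nat_lit 0, nat_lit 0, [nat_lit 3282000000, nat_lit 6250000000, nat_lit 11872000000], [], [nat_lit 11697683262,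 nat_lit 13678116417, nat_lit 16378291312, nat_lit 17903971296, nat_lit 20263644191, nat_lit 21834014582, nat_lit 22992688024, nat_lit 24216060575], nat_lit 0, nat_lit 0, nat_lit 0, nat_lit 0, nat_lit 0, nat_lit 0, [], [nat_lit 23, nat_lit 40, nat_lit 40, nat_lit 80, nat_lit 12, nat_lit 456, nat_lit 225, nat_lit 11]⟩,
 zbF0, [⟨nat_lit 0, nat_lit 97, nat_lit 82, nat_lit 100, nat_lit 230204209⟩, ⟨nat_lit 4, nat_lit 100, nat_lit 76, nat_lit 72, nat_lit 168487792⟩, ⟨nat_lit 7, nat_lit 100, nat_lit 94, nat_lit 75, nat_lit 724753293⟩]⟩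
noncomputable def p091_l83 : Lf2 := ⟨nat_lit 0, nat_lit 20, [nat_lit 5, nat_lit 5, nat_lit 5, nat_lit 20], false, nat_lit 0, nat_lit 260, nat_lit 160, nat_lit 280, ⟨nat_lit 1000, nat_lit 0, nat_lit 0, nat_lit 0, nat_lit 0, nat_lit 0, nat_lit 0, nat_lit 0, nat_lit 0, nat_lit 0, nat_lit 0, nat_lit 0, nat_lit 0, nat_lit 0, nat_lit 0, nat_lit 0, false, false⟩,
 nat_lit 0, nat_lit 8142, nat_lit 0, nat_lit 0, nat_lit 6106, nat_lit 5376, nat_lit 753, nat_lit 0, nat_lit 0, nat_lit 0, nat_lit 0, nat_lit 0, nat_lit 0, nat_lit 0, nat_lit 0, nat_lit 0, nat_lit 0, nat_lit 0, [],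
 ⟨p091_k17, nat_lit 0, nat_lit 0, nat_lit 633, nat_lit 0, nat_lit 936020, [nat_lit 2032000001, nat_lit 4688000000, nat_lit 9842000000], [], [nat_lit 32223630584, nat_lit 31335715337, nat_lit 31663676184, nat_lit 32625370336, nat_lit 29953454994, nat_lit 30660081649, nat_lit 36230558378, nat_lit 33617834561], nat_lit 1271250, nat_lit 1271250, nat_lit 780000, nat_lit 1762500, nat_lit 0, nat_lit 1836250, [nat_lit 490000, nat_lit 1100000, nat_lit 2127500], [nat_lit 27, nat_lit 40, nat_lit 40, nat_lit 80, nat_lit 13, nat_lit 345, nat_lit 125, nat_lit 10]⟩, ⟨p091_k18, nat_lit 0, nat_lit 0, nat_lit 44, nat_lit 0, nat_lit 0, [nat_lit 3282000000, nat_lit 6250000000, nat_lit 9842000000], [], [nat_lit 13949814064, nat_lit 15839560736, nat_lit 18078629232, nat_lit 19576957760, nat_lit 20135976464, nat_lit 21733797456, nat_lit 23022306400, nat_lit 24297007712], nat_lit 0, nat_lit 0, nat_lit 0, nat_lit 0, nat_lit 0, nat_lit 0,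 [], [nat_lit 8, nat_lit 40, nat_lit 40, nat_lit 80, nat_lit 1, nat_lit 373, nat_lit 150, nat_lit 10]⟩,
 zbF0, [⟨nat_lit 0, nat_lit 87, nat_lit 79, nat_lit 100, nat_lit 59827831⟩, ⟨nat_lit 0, nat_lit 81, nat_lit 72, nat_lit 100, nat_lit 166524362⟩, ⟨nat_lit 16, nat_lit 76, nat_lit 100, nat_lit 72, nat_lit 288647278⟩, ⟨nat_lit 7, nat_lit 100, nat_lit 85, nat_lit 73, nat_lit 741930742⟩]⟩
noncomputable def p091_l84 : Lf2 := ⟨nat_lit 0, nat_lit 20, [nat_lit 5, nat_lit 5, nat_lit 5, nat_lit 20], false, nat_lit 0, nat_lit 232, nat_lit 160, nat_lit 300, ⟨nat_lit 1000, nat_lit 0, nat_lit 0, nat_lit 0, nat_lit 0, nat_lit 0, nat_lit 0, nat_lit 0, nat_lit 0, nat_lit 0, nat_lit 0, nat_lit 0, nat_lit 0, nat_lit 0, nat_lit 0, nat_lit 0, false, false⟩,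
 nat_lit 0, nat_lit 6851, nat_lit 0, nat_lit 0, nat_lit 5546, nat_lit 5273, nat_lit 1252, nat_lit 0, nat_lit 0, nat_lit 0, nat_lit 0, nat_lit 0, nat_lit 0, nat_lit 0, nat_lit 0, nat_lit 0, nat_lit 0, nat_lit 0, [],
 ⟨p091_k32, nat_lit 0, nat_lit 0, nat_lit 611, nat_lit 0, nat_lit 1000681, [nat_lit 2032000001, nat_lit 7968000000], [], [nat_lit 23552330710, nat_lit 25155154796, nat_lit 25921559124, nat_lit 28100940168, nat_lit 22343359909, nat_lit 23017557626, nat_lit 28172761182, nat_lit 25808460341], nat_lit 1271250, nat_lit 1271250, nat_lit 810650, nat_lit 1764750, nat_lit 0, nat_lit 1638500, [nat_lit 490000, nat_lit 1740000], [nat_lit 110, nat_lit 40, nat_lit 40, nat_lit 80, nat_lit 109, nat_lit 345, nat_lit 125, nat_lit 11]⟩, ⟨p091_k33, nat_lit 0, nat_lit 0, nat_lit 36, nat_lit 0, nat_lit 0, [nat_lit 3282000000, nat_lit 11872000000], [], [nat_lit 12296734307, nat_lit 16008947302, nat_lit 16697854192, nat_lit 19662678480,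 nat_lit 20053750237, nat_lit 23015262144, nat_lit 22911149784, nat_lit 25296878125], nat_lit 0, nat_lit 0, nat_lit 0, nat_lit 0, nat_lit 0, nat_lit 0, [], [nat_lit 135, nat_lit 40, nat_lit 40, nat_lit 80, nat_lit 134, nat_lit 456, nat_lit 225, nat_lit 11]⟩,
 zbF0, [⟨nat_lit 0, nat_lit 88, nat_lit 67, nat_lit 100, nat_lit 281234472⟩, ⟨nat_lit 16, nat_lit 66, nat_lit 100, nat_lit 72, nat_lit 248021687⟩, ⟨nat_lit 19, nat_lit 100, nat_lit 95, nat_lit 87, nat_lit 494256934⟩]⟩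
noncomputable def p091_l85 : Lf2 := ⟨nat_lit 0, nat_lit 20, [nat_lit 5, nat_lit 5, nat_lit 5, nat_lit 20], false, nat_lit 0, nat_lit 260, nat_lit 0, nat_lit 160, ⟨nat_lit 1000, nat_lit 0, nat_lit 0, nat_lit 0, nat_lit 0, nat_lit 0, nat_lit 0, nat_lit 0, nat_lit 0, nat_lit 0, nat_lit 0, nat_lit 0, nat_lit 0, nat_lit 0, nat_lit 0, nat_lit 0, false, false⟩,
 nat_lit 0, nat_lit 7914, nat_lit 0, nat_lit 0, nat_lit 5935, nat_lit 6764, nat_lit 638, nat_lit 0, nat_lit 0, nat_lit 979, nat_lit 0, nat_lit 0, nat_lit 0, nat_lit 0, nat_lit 0, nat_lit 0, nat_lit 0, nat_lit 0, [],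
 ⟨p091_k17, nat_lit 0, nat_lit 0, nat_lit 574, nat_lit 0, nat_lit 851948, [nat_lit 2032000001, nat_lit 4688000000, nat_lit 9842000000], [], [nat_lit 33309324390, nat_lit 33686524935, nat_lit 38188237920, nat_lit 38553073150, nat_lit 31599231570, nat_lit 31865466843, nat_lit 35585241895, nat_lit 35803804217], nat_lit 1271250, nat_lit 1271250, nat_lit 1271250, nat_lit 1271250, nat_lit 0, nat_lit 1836250, [nat_lit 490000, nat_lit 1100000, nat_lit 2127500], [nat_lit 27, nat_lit 40, nat_lit 40, nat_lit 80, nat_lit 13, nat_lit 401, nat_lit 175, nat_lit 11]⟩, ⟨p091_k9, nat_lit 0, nat_lit 0, nat_lit 242, nat_lit 0, nat_lit 0, [nat_lit 3282000000, nat_lit 6250000000, nat_lit 11872000000], [], [nat_lit 28919338717, nat_lit 30910356557, nat_lit 37717702624, nat_lit 40197949584, nat_lit 24552949789, nat_lit 26222573389, nat_lit 32231665792, nat_lit 33598086048], nat_lit 0, nat_lit 0, nat_lit 0, nat_lit 0, nat_lit 0, nat_lit 0,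 [], [nat_lit 23, nat_lit 40, nat_lit 40, nat_lit 80, nat_lit 12, nat_lit 456, nat_lit 225, nat_lit 11]⟩,
 zbF0, [⟨nat_lit 16, nat_lit 79, nat_lit 100, nat_lit 72, nat_lit 207392651⟩]⟩
noncomputable def p091_l86 : Lf2 := ⟨nat_lit 0, nat_lit 20, [nat_lit 5, nat_lit 5, nat_lit 5, nat_lit 20], false, nat_lit 0, nat_lit 244, nat_lit 0, nat_lit 160, ⟨nat_lit 1000, nat_lit 0, nat_lit 0, nat_lit 0, nat_lit 0, nat_lit 0, nat_lit 0, nat_lit 0, nat_lit 0, nat_lit 0, nat_lit 0, nat_lit 0, nat_lit 0, nat_lit 0, nat_lit 0, nat_lit 0, false, false⟩,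
 nat_lit 0, nat_lit 7509, nat_lit 0, nat_lit 0, nat_lit 5853, nat_lit 6764, nat_lit 645, nat_lit 0, nat_lit 0, nat_lit 859, nat_lit 0, nat_lit 0, nat_lit 0, nat_lit 0, nat_lit 0, nat_lit 0, nat_lit 0, nat_lit 0, [],
 ⟨p091_k19, nat_lit 0, nat_lit 0, nat_lit 586, nat_lit 0, nat_lit 887251, [nat_lit 2032000001, nat_lit 4688000000, nat_lit 9842000000], [], [nat_lit 30120475003, nat_lit 30495641374, nat_lit 38318808170, nat_lit 38988422472, nat_lit 28116167675, nat_lit 28386359396, nat_lit 32831825147, nat_lit 33334374089], nat_lit 1271250, nat_lit 1271250, nat_lit 1271250, nat_lit 1271250, nat_lit 0, nat_lit 1723250, [nat_lit 490000, nat_lit 1100000, nat_lit 2127500], [nat_lit 27, nat_lit 40, nat_lit 40, nat_lit 80, nat_lit 13, nat_lit 401, nat_lit 175, nat_lit 11]⟩, ⟨p091_k9, nat_lit 0, nat_lit 0, nat_lit 242, nat_lit 0, nat_lit 0, [nat_lit 3282000000, nat_lit 6250000000, nat_lit 11872000000], [], [nat_lit 30070213717,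 nat_lit 32061231557, nat_lit 37939202725, nat_lit 40197949584, nat_lit 25703824789, nat_lit 27373448389, nat_lit 32231665792, nat_lit 33598086048], nat_lit 0, nat_lit 0, nat_lit 0, nat_lit 0, nat_lit 0, nat_lit 0, [], [nat_lit 23, nat_lit 40, nat_lit 40, nat_lit 80, nat_lit 12, nat_lit 456, nat_lit 225, nat_lit 11]⟩,
 zbF0, [⟨nat_lit 4, nat_lit 100, nat_lit 74, nat_lit 72, nat_lit 95902393⟩]⟩
noncomputable def p091_l87 : Lf2 := ⟨nat_lit 0, nat_lit 20, [nat_lit 5, nat_lit 5, nat_lit 5, nat_lit 20], false, nat_lit 0, nat_lit 232, nat_lit 0, nat_lit 160, ⟨nat_lit 1000, nat_lit 0, nat_lit 0, nat_lit 0, nat_lit 0, nat_lit 0, nat_lit 0, nat_lit 0, nat_lit 0, nat_lit 0, nat_lit 0, nat_lit 0, nat_lit 0, nat_lit 0, nat_lit 0, nat_lit 0, false, false⟩,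
 nat_lit 0, nat_lit 6336, nat_lit 0, nat_lit 0, nat_lit 5129, nat_lit 7742, nat_lit 637, nat_lit 0, nat_lit 0, nat_lit 578, nat_lit 0, nat_lit 0, nat_lit 0, nat_lit 0, nat_lit 0, nat_lit 0, nat_lit 0, nat_lit 0, [],
 ⟨p091_k35, nat_lit 0, nat_lit 0, nat_lit 571, nat_lit 0, nat_lit 1000681, [nat_lit 2032000001, nat_lit 6250000000, nat_lit 7968000000], [], [nat_lit 30926427403, nat_lit 31663456473, nat_lit 36877221096, nat_lit 38130823668, nat_lit 30111829824, nat_lit 30663249011, nat_lit 33406794261, nat_lit 33787844645], nat_lit 1271250, nat_lit 1271250, nat_lit 1271250, nat_lit 1271250, nat_lit 0, nat_lit 1638500, [nat_lit 490000, nat_lit 1427500, nat_lit 1271250], [nat_lit 102, nat_lit 40, nat_lit 40, nat_lit 80, nat_lit 2, nat_lit 272, nat_lit 60, nat_lit 8]⟩, ⟨p091_k31, nat_lit 0, nat_lit 0, nat_lit 252, nat_lit 0, nat_lit 0, [nat_lit 3282000000, nat_lit 7968000000, nat_lit 11872000000], [], [nat_lit 34337179474,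 nat_lit 36265669554, nat_lit 41720579178, nat_lit 42934666616, nat_lit 28768956498, nat_lit 30374087378, nat_lit 35135233640, nat_lit 36300652016], nat_lit 0, nat_lit 0, nat_lit 0, nat_lit 0, nat_lit 0, nat_lit 0, [], [nat_lit 79, nat_lit 40, nat_lit 40, nat_lit 80, nat_lit 14, nat_lit 456, nat_lit 225, nat_lit 11]⟩,
 zbF0, [⟨nat_lit 16, nat_lit 66, nat_lit 100, nat_lit 72, nat_lit 281638372⟩, ⟨nat_lit 9, nat_lit 100, nat_lit 88, nat_lit 23, nat_lit 42747076⟩]⟩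
noncomputable def p091_l88 : Lf2 := ⟨nat_lit 0, nat_lit 20, [nat_lit 5, nat_lit 5, nat_lit 5, nat_lit 20], false, nat_lit 0, nat_lit 260, nat_lit 160, nat_lit 300, ⟨nat_lit 1000, nat_lit 0, nat_lit 0, nat_lit 0, nat_lit 0, nat_lit 0, nat_lit 0, nat_lit 0, nat_lit 0, nat_lit 0, nat_lit 0, nat_lit 0, nat_lit 0, nat_lit 0, nat_lit 0, nat_lit 0, false, false⟩,
 nat_lit 0, nat_lit 7824, nat_lit 0, nat_lit 0, nat_lit 5867, nat_lit 6882, nat_lit 602, nat_lit 0, nat_lit 0, nat_lit 0, nat_lit 0, nat_lit 0, nat_lit 0, nat_lit 0, nat_lit 0, nat_lit 0, nat_lit 0, nat_lit 0, [],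
 ⟨p091_k17, nat_lit 0, nat_lit 0, nat_lit 602, nat_lit 0, nat_lit 936020, [nat_lit 2032000001, nat_lit 4688000000, nat_lit 9842000000], [], [nat_lit 33915797298, nat_lit 34666824636, nat_lit 38539332034, nat_lit 39036331528, nat_lit 32273144974, nat_lit 32795503078, nat_lit 35879667139, nat_lit 36316206608], nat_lit 1271250, nat_lit 1271250, nat_lit 1271250, nat_lit 1271250, nat_lit 0, nat_lit 1836250, [nat_lit 490000, nat_lit 1100000, nat_lit 2127500], [nat_lit 27, nat_lit 40, nat_lit 40, nat_lit 80, nat_lit 13, nat_lit 401, nat_lit 175, nat_lit 11]⟩, ⟨p091_k9, nat_lit 0, nat_lit 0, nat_lit 90, nat_lit 0, nat_lit 0, [nat_lit 3282000000, nat_lit 6250000000, nat_lit 11872000000], [], [nat_lit 19574929760, nat_lit 22566246792, nat_lit 30795560448, nat_lit 32550953456, nat_lit 25291102388, nat_lit 27426686078, nat_lit 33701122798, nat_lit 35258191276], nat_lit 0, nat_lit 0, nat_lit 0, nat_lit 0, nat_lit 0, nat_lit 0,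 [], [nat_lit 23, nat_lit 40, nat_lit 40, nat_lit 80, nat_lit 12, nat_lit 538, nat_lit 300, nat_lit 13]⟩,
 zbF0, [⟨nat_lit 4, nat_lit 100, nat_lit 76, nat_lit 72, nat_lit 216678087⟩, ⟨nat_lit 19, nat_lit 90, nat_lit 100, nat_lit 74, nat_lit 568055876⟩]⟩
noncomputable def p091_l89 : Lf2 := ⟨nat_lit 0, nat_lit 20, [nat_lit 5, nat_lit 5, nat_lit 5, nat_lit 20], false, nat_lit 0, nat_lit 232, nat_lit 160, nat_lit 300, ⟨nat_lit 1000, nat_lit 0, nat_lit 0, nat_lit 0, nat_lit 0, nat_lit 0, nat_lit 0, nat_lit 0, nat_lit 0, nat_lit 0, nat_lit 0, nat_lit 0, nat_lit 0, nat_lit 0, nat_lit 0, nat_lit 0, false, false⟩,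
 nat_lit 0, nat_lit 5862, nat_lit 0, nat_lit 0, nat_lit 4745, nat_lit 8602, nat_lit 989, nat_lit 0, nat_lit 0, nat_lit 0, nat_lit 0, nat_lit 0, nat_lit 0, nat_lit 0, nat_lit 0, nat_lit 0, nat_lit 0, nat_lit 0, [],
 ⟨p091_k35, nat_lit 0, nat_lit 0, nat_lit 571, nat_lit 0, nat_lit 1000681, [nat_lit 2032000001, nat_lit 6250000000, nat_lit 7968000000], [], [nat_lit 28818493195, nat_lit 29534467545, nat_lit 35757467880, nat_lit 36965655540, nat_lit 28364435662, nat_lit 28956858767, nat_lit 32290208805, nat_lit 32749549515], nat_lit 1271250, nat_lit 1271250, nat_lit 1271250, nat_lit 1271250, nat_lit 0, nat_lit 1638500, [nat_lit 490000, nat_lit 1427500, nat_lit 1271250], [nat_lit 102, nat_lit 40, nat_lit 40, nat_lit 80, nat_lit 2, nat_lit 272, nat_lit 60, nat_lit 8]⟩, ⟨p091_k31, nat_lit 0, nat_lit 0, nat_lit 105, nat_lit 0, nat_lit 0, [nat_lit 3282000000, nat_lit 7968000000, nat_lit 11872000000], [], [nat_lit 21096936304,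 nat_lit 24205301512, nat_lit 32772128832, nat_lit 34718111888, nat_lit 26567419476, nat_lit 28735965962, nat_lit 35584073878, nat_lit 37270966236], nat_lit 0, nat_lit 0, nat_lit 0, nat_lit 0, nat_lit 0, nat_lit 0, [], [nat_lit 79, nat_lit 40, nat_lit 40, nat_lit 80, nat_lit 14, nat_lit 538, nat_lit 300, nat_lit 13]⟩,
 zbF0, [⟨nat_lit 4, nat_lit 100, nat_lit 66, nat_lit 72, nat_lit 153913727⟩, ⟨nat_lit 7, nat_lit 100, nat_lit 90, nat_lit 74, nat_lit 493363754⟩]⟩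
noncomputable def b_V_800_700_10_25 : St := ⟨true, nat_lit 1, nat_lit 0, nat_lit 1, nat_lit 80, nat_lit 320, nat_lit 360, nat_lit 280, nat_lit 320, nat_lit 100, nat_lit 400, nat_lit 40, nat_lit 80, nat_lit 0, nat_lit 260, nat_lit 0, nat_lit 300, nat_lit 40, nat_lit 80, nat_lit 0, nat_lit 0, nat_lit 0, nat_lit 0⟩
theorem d_V_800_700_10_25 (h : EB TB.env) : Dead b_V_800_700_10_25 := chkB_sound0 h (T :=
(.spl (nat_lit 2) (nat_lit 240)
(.spl (nat_lit 5) (nat_lit 160)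
(.spl (nat_lit 4) (nat_lit 160)
(.spl (nat_lit 1) (nat_lit 300)
(.spl (nat_lit 0) (nat_lit 340)
(.leaf p091_l76)
(.trZ (nat_lit 0) (nat_lit 99) (nat_lit 77) (nat_lit 100) (nat_lit 124) (.leaf p091_l77)))
(.trZ (nat_lit 0) (nat_lit 94) (nat_lit 87) (nat_lit 100) (nat_lit 120) (.spl (nat_lit 0) (nat_lit 340)
(.leaf p091_l78)
(.trZ (nat_lit 0) (nat_lit 90) (nat_lit 74) (nat_lit 100) (nat_lit 144) (.leaf p091_l79)))))
(.spl (nat_lit 0) (nat_lit 340)
(.leaf p091_l80)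
(.trZ (nat_lit 0) (nat_lit 99) (nat_lit 77) (nat_lit 100) (nat_lit 124) (.trX (nat_lit 16) (nat_lit 72) (nat_lit 100) (nat_lit 81) (nat_lit 232) (.leaf p091_l81)))))
(.spl (nat_lit 0) (nat_lit 340)
(.spl (nat_lit 1) (nat_lit 300)
(.leaf p091_l82)
(.trZ (nat_lit 0) (nat_lit 94) (nat_lit 87) (nat_lit 100) (nat_lit 120) (.trX (nat_lit 19) (nat_lit 94) (nat_lit 100) (nat_lit 87) (nat_lit 280) (.leaf p091_l83))))
(.trZ (nat_lit 0) (nat_lit 99) (nat_lit 77) (nat_lit 100) (nat_lit 124) (.trX (nat_lit 16) (nat_lit 72) (nat_lit 100) (nat_lit 81) (nat_lit 232) (.leaf p091_l84)))))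
(.spl (nat_lit 5) (nat_lit 160)
(.spl (nat_lit 0) (nat_lit 340)
(.spl (nat_lit 0) (nat_lit 330)
(.leaf p091_l85)
(.trX (nat_lit 16) (nat_lit 78) (nat_lit 100) (nat_lit 82) (nat_lit 244) (.leaf p091_l86)))
(.trX (nat_lit 16) (nat_lit 72) (nat_lit 100) (nat_lit 81) (nat_lit 232) (.leaf p091_l87)))
(.spl (nat_lit 0) (nat_lit 340)
(.leaf p091_l88)
(.trX (nat_lit 16) (nat_lit 72) (nat_lit 100) (nat_lit 81) (nat_lit 232) (.leaf p091_l89)))))) (by decide +kernel)
noncomputable def p091_l90 : Lf2 := ⟨nat_lit 0, nat_lit 20, [nat_lit 5, nat_lit 5, nat_lit 5, nat_lit 20], false, nat_lit 0, nat_lit 160, nat_lit 0, nat_lit 160, ⟨nat_lit 843, nat_lit 0, nat_lit 157, nat_lit 7, nat_lit 198, nat_lit 157, nat_lit 57, nat_lit 157, nat_lit 29400, nat_lit 257, nat_lit 2872, nat_lit 223, nat_lit 53775688, nat_lit 0, nat_lit 0, nat_lit 2483727, false, false⟩,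
 nat_lit 11088, nat_lit 0, nat_lit 0, nat_lit 0, nat_lit 6421, nat_lit 7056, nat_lit 651, nat_lit 0, nat_lit 0, nat_lit 543, nat_lit 0, nat_lit 0, nat_lit 0, nat_lit 0, nat_lit 0, nat_lit 85000, nat_lit 0, nat_lit 0, [(nat_lit 19, [(nat_lit 5, nat_lit 120), (nat_lit 6, nat_lit 37)]), (nat_lit 22, [(nat_lit 5, nat_lit 120), (nat_lit 6, nat_lit 37)])],
 ⟨p091_k17, nat_lit 0, nat_lit 0, nat_lit 503, nat_lit 0, nat_lit 628479, [nat_lit 1869148267, nat_lit 3852403734, nat_lit 7587034800], [], [nat_lit 23889636249, nat_lit 27466344052, nat_lit 23853288585, nat_lit 27006595215, nat_lit 21056527179, nat_lit 23175120332, nat_lit 22632844491, nat_lit 23191731316], nat_lit 1271250, nat_lit 1271250, nat_lit 631250, nat_lit 1100001, nat_lit 0, nat_lit 1100001, [nat_lit 490000, nat_lit 1100000, nat_lit 2127500], [nat_lit 27, nat_lit 40, nat_lit 40, nat_lit 80, nat_lit 13, nat_lit 317, nat_lit 100, nat_lit 9]⟩, ⟨p091_k9, nat_lit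 0, nat_lit 0, nat_lit 666, nat_lit 0, nat_lit 771539, [nat_lit 2766726000, nat_lit 5268750000, nat_lit 10008096000], [], [nat_lit 27024662061, nat_lit 28444756209, nat_lit 26449164057, nat_lit 27730373553, nat_lit 22856831163, nat_lit 24011302953, nat_lit 22837199748, nat_lit 23276218137], nat_lit 1271250, nat_lit 1271250, nat_lit 631250, nat_lit 1100001, nat_lit 0, nat_lit 1100001, [nat_lit 780000, nat_lit 1435000, nat_lit 1271250], [nat_lit 23, nat_lit 40, nat_lit 40, nat_lit 80, nat_lit 12, nat_lit 401, nat_lit 175, nat_lit 10]⟩,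
 ⟨nat_lit 3162, nat_lit 4473, ⟨.ofNat (nat_lit 415764), .ofNat (nat_lit 517847), .ofNat (nat_lit 458716), .ofNat (nat_lit 560799), .ofNat (nat_lit 435680), .ofNat (nat_lit 527226), .ofNat (nat_lit 479808), .ofNat (nat_lit 571355)⟩, ⟨.negSucc (nat_lit 12437), .ofNat (nat_lit 259488), .ofNat (nat_lit 0), .ofNat (nat_lit 302621), .ofNat (nat_lit 0), .ofNat (nat_lit 261805), .ofNat (nat_lit 0), .ofNat (nat_lit 306116)⟩⟩, [⟨nat_lit 0, nat_lit 90, nat_lit 74, nat_lit 100, nat_lit 752497028⟩]⟩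
noncomputable def p091_l91 : Lf2 := ⟨nat_lit 0, nat_lit 20, [nat_lit 5, nat_lit 5, nat_lit 5, nat_lit 20], false, nat_lit 0, nat_lit 160, nat_lit 0, nat_lit 160, ⟨nat_lit 1000, nat_lit 0, nat_lit 0, nat_lit 0, nat_lit 0, nat_lit 0, nat_lit 0, nat_lit 0, nat_lit 0, nat_lit 0, nat_lit 0, nat_lit 0, nat_lit 0, nat_lit 0, nat_lit 0, nat_lit 0, false, false⟩,
 nat_lit 12184, nat_lit 0, nat_lit 0, nat_lit 0, nat_lit 7134, nat_lit 7753, nat_lit 747, nat_lit 0, nat_lit 0, nat_lit 742, nat_lit 0, nat_lit 0, nat_lit 0, nat_lit 0, nat_lit 0, nat_lit 0, nat_lit 0, nat_lit 0, [],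
 ⟨p091_k17, nat_lit 0, nat_lit 0, nat_lit 481, nat_lit 0, nat_lit 628479, [nat_lit 2032000001, nat_lit 4688000000, nat_lit 9842000000], [], [nat_lit 25744536807, nat_lit 28816104535, nat_lit 27207520327, nat_lit 31229789272, nat_lit 22219317951, nat_lit 24124732520, nat_lit 27754929632, nat_lit 25365775032], nat_lit 1271250, nat_lit 1271250, nat_lit 1100001, nat_lit 1785000, nat_lit 0, nat_lit 1100001, [nat_lit 490000, nat_lit 1100000, nat_lit 2127500], [nat_lit 27, nat_lit 40, nat_lit 40, nat_lit 80, nat_lit 13, nat_lit 317, nat_lit 100, nat_lit 9]⟩, ⟨p091_k9, nat_lit 0, nat_lit 0, nat_lit 640, nat_lit 0, nat_lit 771539, [nat_lit 3282000000, nat_lit 6250000000, nat_lit 11872000000], [], [nat_lit 33147732092, nat_lit 33676474390, nat_lit 32931991222, nat_lit 34160682746, nat_lit 27755772258, nat_lit 28958258370, nat_lit 28815819144, nat_lit 29224612030], nat_lit 1271250, nat_lit 1271250, nat_lit 1100001, nat_lit 1785000,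 nat_lit 0, nat_lit 1100001, [nat_lit 780000, nat_lit 1435000, nat_lit 1271250], [nat_lit 23, nat_lit 40, nat_lit 40, nat_lit 80, nat_lit 12, nat_lit 428, nat_lit 200, nat_lit 11]⟩,
 zbF0, [⟨nat_lit 0, nat_lit 80, nat_lit 60, nat_lit 100, nat_lit 569762530⟩]⟩
noncomputable def p091_l92 : Lf2 := ⟨nat_lit 0, nat_lit 20, [nat_lit 5, nat_lit 5, nat_lit 5, nat_lit 20], false, nat_lit 0, nat_lit 160, nat_lit 160, nat_lit 300, ⟨nat_lit 575, nat_lit 0, nat_lit 425, nat_lit 7, nat_lit 198, nat_lit 425, nat_lit 57, nat_lit 425, nat_lit 29400, nat_lit 257, nat_lit 2872, nat_lit 223, nat_lit 53775688, nat_lit 0, nat_lit 0, nat_lit 2483727, false, false⟩,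
 nat_lit 7711, nat_lit 0, nat_lit 0, nat_lit 0, nat_lit 5783, nat_lit 4907, nat_lit 389, nat_lit 0, nat_lit 0, nat_lit 331, nat_lit 0, nat_lit 0, nat_lit 0, nat_lit 0, nat_lit 0, nat_lit 170000, nat_lit 0, nat_lit 0, [(nat_lit 19, [(nat_lit 5, nat_lit 425)]), (nat_lit 22, [(nat_lit 5, nat_lit 425)])],
 ⟨p091_k17, nat_lit 0, nat_lit 0, nat_lit 503, nat_lit 0, nat_lit 628479, [nat_lit 1583200001, nat_lit 2504293334, nat_lit 4237950000], [], [nat_lit 22319740015, nat_lit 26065926396, nat_lit 22384899533, nat_lit 25816540545, nat_lit 18623342607, nat_lit 21784552889, nat_lit 21456657865, nat_lit 21677843833], nat_lit 1271250, nat_lit 1271250, nat_lit 631250, nat_lit 1100001, nat_lit 0, nat_lit 1100001, [nat_lit 490000, nat_lit 1100000, nat_lit 2127500], [nat_lit 27, nat_lit 40, nat_lit 40, nat_lit 80, nat_lit 13, nat_lit 317, nat_lit 100, nat_lit 9]⟩, ⟨p091_k9, nat_lit 0, nat_lit 0, nat_lit 531, nat_lit 0, nat_lit 771539,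 [nat_lit 1887150000, nat_lit 3593750000, nat_lit 6826400000], [], [nat_lit 15007297402, nat_lit 15856233855, nat_lit 14431423201, nat_lit 15391366129, nat_lit 16429856033, nat_lit 17711377957, nat_lit 15865092828, nat_lit 17028386995], nat_lit 1271250, nat_lit 1271250, nat_lit 631250, nat_lit 1100001, nat_lit 1100001, nat_lit 2298750, [nat_lit 780000, nat_lit 1435000, nat_lit 1271250], [nat_lit 23, nat_lit 40, nat_lit 40, nat_lit 80, nat_lit 12, nat_lit 428, nat_lit 200, nat_lit 11]⟩,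
 ⟨nat_lit 3162, nat_lit 4473, ⟨.ofNat (nat_lit 415764), .ofNat (nat_lit 517847), .ofNat (nat_lit 458716), .ofNat (nat_lit 560799), .ofNat (nat_lit 435680), .ofNat (nat_lit 527226), .ofNat (nat_lit 479808), .ofNat (nat_lit 571355)⟩, ⟨.negSucc (nat_lit 12437), .ofNat (nat_lit 259488), .ofNat (nat_lit 0), .ofNat (nat_lit 302621), .ofNat (nat_lit 0), .ofNat (nat_lit 261805), .ofNat (nat_lit 0), .ofNat (nat_lit 306116)⟩⟩, [⟨nat_lit 0, nat_lit 90, nat_lit 74, nat_lit 100, nat_lit 573199798⟩, ⟨nat_lit 7, nat_lit 100, nat_lit 90, nat_lit 74, nat_lit 266348389⟩]⟩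
noncomputable def p091_l93 : Lf2 := ⟨nat_lit 0, nat_lit 20, [nat_lit 5, nat_lit 5, nat_lit 5, nat_lit 20], false, nat_lit 0, nat_lit 160, nat_lit 160, nat_lit 300, ⟨nat_lit 1000, nat_lit 0, nat_lit 0, nat_lit 0, nat_lit 0, nat_lit 0, nat_lit 0, nat_lit 0, nat_lit 0, nat_lit 0, nat_lit 0, nat_lit 0, nat_lit 0, nat_lit 0, nat_lit 0, nat_lit 0, false, false⟩,
 nat_lit 12447, nat_lit 0, nat_lit 0, nat_lit 0, nat_lit 7293, nat_lit 7920, nat_lit 887, nat_lit 0, nat_lit 0, nat_lit 598, nat_lit 0, nat_lit 0, nat_lit 0, nat_lit 0, nat_lit 0, nat_lit 0, nat_lit 0, nat_lit 0, [],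
 ⟨p091_k17, nat_lit 0, nat_lit 0, nat_lit 447, nat_lit 0, nat_lit 529055, [nat_lit 2032000001, nat_lit 4688000000, nat_lit 9842000000], [], [nat_lit 25181136744, nat_lit 25549363869, nat_lit 26321588640, nat_lit 28932328442, nat_lit 19377925896, nat_lit 20861878556, nat_lit 26112110488, nat_lit 22893374110], nat_lit 1271250, nat_lit 1271250, nat_lit 1100001, nat_lit 1785000, nat_lit 0, nat_lit 1100001, [nat_lit 490000, nat_lit 1100000, nat_lit 2127500], [nat_lit 27, nat_lit 40, nat_lit 40, nat_lit 80, nat_lit 13, nat_lit 317, nat_lit 100, nat_lit 9]⟩, ⟨p091_k9, nat_lit 0, nat_lit 0, nat_lit 412, nat_lit 0, nat_lit 649483, [nat_lit 3282000000, nat_lit 6250000000, nat_lit 11872000000], [], [nat_lit 26597432810, nat_lit 28214836490, nat_lit 27471399850, nat_lit 28819854410, nat_lit 30463220720, nat_lit 30193923410, nat_lit 29289863810, nat_lit 30315761890], nat_lit 1271250, nat_lit 1271250, nat_lit 1271250, nat_lit 1271250,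 nat_lit 1100001, nat_lit 2298750, [nat_lit 780000, nat_lit 1435000, nat_lit 1271250], [nat_lit 23, nat_lit 40, nat_lit 40, nat_lit 80, nat_lit 12, nat_lit 456, nat_lit 225, nat_lit 11]⟩,
 zbF0, [⟨nat_lit 7, nat_lit 100, nat_lit 90, nat_lit 74, nat_lit 435890734⟩]⟩
noncomputable def p091_l94 : Lf2 := ⟨nat_lit 0, nat_lit 20, [nat_lit 5, nat_lit 5, nat_lit 5, nat_lit 20], false, nat_lit 0, nat_lit 160, nat_lit 160, nat_lit 300, ⟨nat_lit 700, nat_lit 0, nat_lit 300, nat_lit 7, nat_lit 244, nat_lit 300, nat_lit 57, nat_lit 300, nat_lit 30817, nat_lit 258, nat_lit 119032, nat_lit 200, nat_lit 48842140, nat_lit 0, nat_lit 0, nat_lit 2921317, false, false⟩,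
 nat_lit 7936, nat_lit 0, nat_lit 0, nat_lit 0, nat_lit 5109, nat_lit 5050, nat_lit 170, nat_lit 0, nat_lit 0, nat_lit 429, nat_lit 0, nat_lit 0, nat_lit 0, nat_lit 0, nat_lit 0, nat_lit 300000, nat_lit 0, nat_lit 0, [(nat_lit 22, [(nat_lit 6, nat_lit 300)])],
 ⟨p091_k8, nat_lit 0, nat_lit 0, nat_lit 404, nat_lit 0, nat_lit 572440, [nat_lit 1649440000, nat_lit 2571560000, nat_lit 2923800000], [], [nat_lit 22727319980, nat_lit 24517347240, nat_lit 25168435946, nat_lit 27239915572, nat_lit 20571325454, nat_lit 21457754082, nat_lit 21992366132, nat_lit 23272067060], nat_lit 1271250, nat_lit 1271250, nat_lit 1100001, nat_lit 1785000, nat_lit 0, nat_lit 1100001, [nat_lit 490000, nat_lit 1100000, nat_lit 1785000], [nat_lit 34, nat_lit 40, nat_lit 40, nat_lit 80, nat_lit 7, nat_lit 317, nat_lit 100, nat_lit 10]⟩, ⟨p091_k9, nat_lit 0, nat_lit 0, nat_lit 507, nat_lit 0, nat_lit 771539, [nat_lit 2297400000, nat_lit 4375000000,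 nat_lit 8310400000], [], [nat_lit 19897378475, nat_lit 20987667875, nat_lit 20555536075, nat_lit 21471312075, nat_lit 21659437950, nat_lit 22425639225, nat_lit 21888055525, nat_lit 22525714375], nat_lit 1271250, nat_lit 1271250, nat_lit 1271250, nat_lit 1271250, nat_lit 1100001, nat_lit 2298750, [nat_lit 780000, nat_lit 1435000, nat_lit 1271250], [nat_lit 23, nat_lit 40, nat_lit 40, nat_lit 80, nat_lit 12, nat_lit 456, nat_lit 225, nat_lit 11]⟩,
 ⟨nat_lit 3162, nat_lit 3873, ⟨.ofNat (nat_lit 522504), .ofNat (nat_lit 651611), .ofNat (nat_lit 566033), .ofNat (nat_lit 695141), .ofNat (nat_lit 527519), .ofNat (nat_lit 649490), .ofNat (nat_lit 571771), .ofNat (nat_lit 693742)⟩, ⟨.ofNat (nat_lit 0), .ofNat (nat_lit 261131), .ofNat (nat_lit 0), .ofNat (nat_lit 304717), .ofNat (nat_lit 0), .ofNat (nat_lit 261806), .ofNat (nat_lit 0), .ofNat (nat_lit 306116)⟩⟩, [⟨nat_lit 0, nat_lit 88, nat_lit 67, nat_lit 100, nat_lit 208637306⟩,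 ⟨nat_lit 7, nat_lit 100, nat_lit 90, nat_lit 74, nat_lit 325135691⟩]⟩
noncomputable def p091_l95 : Lf2 := ⟨nat_lit 0, nat_lit 20, [nat_lit 5, nat_lit 5, nat_lit 5, nat_lit 20], false, nat_lit 160, nat_lit 260, nat_lit 0, nat_lit 160, ⟨nat_lit 641, nat_lit 0, nat_lit 359, nat_lit 7, nat_lit 223, nat_lit 359, nat_lit 146, nat_lit 359, nat_lit 89743, nat_lit 288, nat_lit 123308, nat_lit 200, nat_lit 44289162, nat_lit 0, nat_lit 0, nat_lit 4595310, false, false⟩,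
 nat_lit 8447, nat_lit 0, nat_lit 0, nat_lit 0, nat_lit 6335, nat_lit 5375, nat_lit 514, nat_lit 0, nat_lit 0, nat_lit 174, nat_lit 0, nat_lit 0, nat_lit 0, nat_lit 0, nat_lit 0, nat_lit 87470, nat_lit 0, nat_lit 0, [(nat_lit 19, [(nat_lit 3, nat_lit 38), (nat_lit 4, nat_lit 321)])],
 ⟨p091_k17, nat_lit 0, nat_lit 0, nat_lit 336, nat_lit 0, nat_lit 529055, [nat_lit 2360465600, nat_lit 2937019601, nat_lit 5575530000], [], [nat_lit 18403433451, nat_lit 20067795885, nat_lit 20413884910, nat_lit 21749813700, nat_lit 21538888363, nat_lit 23131030814, nat_lit 23569605665, nat_lit 25195214633], nat_lit 1271250, nat_lit 1271250, nat_lit 631250, nat_lit 1751250, nat_lit 1100001, nat_lit 1956250, [nat_lit 490000, nat_lit 1100000, nat_lit 2127500], [nat_lit 27, nat_lit 40, nat_lit 40, nat_lit 80, nat_lit 13, nat_lit 345, nat_lit 125, nat_lit 9]⟩, ⟨p091_k9, nat_lit 0, nat_lit 0, nat_lit 576, nat_lit 0, nat_lit 649483, [nat_lit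 2103762000, nat_lit 4006250000, nat_lit 7609952000], [], [nat_lit 24479966942, nat_lit 23894885242, nat_lit 22798865330, nat_lit 24010999026, nat_lit 19636393086, nat_lit 20514796578, nat_lit 23219318756, nat_lit 20062884278], nat_lit 1271250, nat_lit 1271250, nat_lit 631250, nat_lit 1751250, nat_lit 0, nat_lit 1100001, [nat_lit 780000, nat_lit 1435000, nat_lit 1271250], [nat_lit 23, nat_lit 40, nat_lit 40, nat_lit 80, nat_lit 12, nat_lit 428, nat_lit 200, nat_lit 11]⟩,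
 ⟨nat_lit 3872, nat_lit 4473, ⟨.ofNat (nat_lit 416230), .ofNat (nat_lit 654181), .ofNat (nat_lit 459327), .ofNat (nat_lit 697279), .ofNat (nat_lit 425778), .ofNat (nat_lit 651631), .ofNat (nat_lit 469330), .ofNat (nat_lit 695183)⟩, ⟨.ofNat (nat_lit 259489), .ofNat (nat_lit 429434), .ofNat (nat_lit 302621), .ofNat (nat_lit 472567), .ofNat (nat_lit 261131), .ofNat (nat_lit 422435), .ofNat (nat_lit 304717), .ofNat (nat_lit 466021)⟩⟩, [⟨nat_lit 0, nat_lit 92, nat_lit 81, nat_lit 100, nat_lit 288292678⟩, ⟨nat_lit 4, nat_lit 100, nat_lit 76, nat_lit 72, nat_lit 526697003⟩]⟩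
noncomputable def p091_l96 : Lf2 := ⟨nat_lit 0, nat_lit 20, [nat_lit 5, nat_lit 5, nat_lit 5, nat_lit 20], false, nat_lit 160, nat_lit 232, nat_lit 0, nat_lit 160, ⟨nat_lit 885, nat_lit 0, nat_lit 115, nat_lit 7, nat_lit 233, nat_lit 115, nat_lit 136, nat_lit 115, nat_lit 173400, nat_lit 317, nat_lit 119032, nat_lit 200, nat_lit 44121204, nat_lit 0, nat_lit 0, nat_lit 4551315, false, false⟩,
 nat_lit 9146, nat_lit 0, nat_lit 0, nat_lit 0, nat_lit 7403, nat_lit 5820, nat_lit 385, nat_lit 0, nat_lit 0, nat_lit 503, nat_lit 0, nat_lit 0, nat_lit 0, nat_lit 0, nat_lit 0, nat_lit 21275, nat_lit 0, nat_lit 0, [(nat_lit 22, [(nat_lit 3, nat_lit 115)])],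
 ⟨p091_k8, nat_lit 0, nat_lit 0, nat_lit 302, nat_lit 0, nat_lit 572440, [nat_lit 2392456001, nat_lit 4120866001, nat_lit 6857330000], [], [nat_lit 20095165470, nat_lit 22063713518, nat_lit 22347425644, nat_lit 24372599580, nat_lit 22135533340, nat_lit 24084945452, nat_lit 24343688777, nat_lit 26258884802], nat_lit 1271250, nat_lit 1271250, nat_lit 810650, nat_lit 1764750, nat_lit 1100001, nat_lit 1716500, [nat_lit 490000, nat_lit 1100000, nat_lit 1785000], [nat_lit 34, nat_lit 40, nat_lit 40, nat_lit 80, nat_lit 7, nat_lit 345, nat_lit 125, nat_lit 10]⟩, ⟨p091_k9, nat_lit 0, nat_lit 0, nat_lit 654, nat_lit 0, nat_lit 771539, [nat_lit 2904570000, nat_lit 5531250000, nat_lit 10506720000], [], [nat_lit 34389128388, nat_lit 34306043091, nat_lit 33710197605, nat_lit 34750197345, nat_lit 30246551061, nat_lit 31197411015, nat_lit 30577533645, nat_lit 31352959905], nat_lit 1271250, nat_lit 1271250, nat_lit 810650, nat_lit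 1764750, nat_lit 0, nat_lit 1100001, [nat_lit 780000, nat_lit 1435000, nat_lit 1271250], [nat_lit 23, nat_lit 40, nat_lit 40, nat_lit 80, nat_lit 12, nat_lit 428, nat_lit 200, nat_lit 11]⟩,
 ⟨nat_lit 3162, nat_lit 3873, ⟨.ofNat (nat_lit 464406), .ofNat (nat_lit 651611), .ofNat (nat_lit 507934), .ofNat (nat_lit 695141), .ofNat (nat_lit 472632), .ofNat (nat_lit 649490), .ofNat (nat_lit 516884), .ofNat (nat_lit 693742)⟩, ⟨.ofNat (nat_lit 261131), .ofNat (nat_lit 377270), .ofNat (nat_lit 304717), .ofNat (nat_lit 420856), .ofNat (nat_lit 261806), .ofNat (nat_lit 371522), .ofNat (nat_lit 306116), .ofNat (nat_lit 415832)⟩⟩, [⟨nat_lit 0, nat_lit 88, nat_lit 67, nat_lit 100, nat_lit 542469508⟩, ⟨nat_lit 4, nat_lit 100, nat_lit 66, nat_lit 72, nat_lit 673489155⟩]⟩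
noncomputable def p091_l97 : Lf2 := ⟨nat_lit 0, nat_lit 20, [nat_lit 5, nat_lit 5, nat_lit 5, nat_lit 20], false, nat_lit 160, nat_lit 260, nat_lit 160, nat_lit 300, ⟨nat_lit 515, nat_lit 0, nat_lit 485, nat_lit 7, nat_lit 185, nat_lit 485, nat_lit 145, nat_lit 485, nat_lit 89743, nat_lit 288, nat_lit 25350, nat_lit 254, nat_lit 47566233, nat_lit 0, nat_lit 0, nat_lit 4276855, false, false⟩,
 nat_lit 9979, nat_lit 0, nat_lit 0, nat_lit 0, nat_lit 7484, nat_lit 6350, nat_lit 305, nat_lit 0, nat_lit 0, nat_lit 460, nat_lit 0, nat_lit 0, nat_lit 0, nat_lit 0, nat_lit 0, nat_lit 113210, nat_lit 0, nat_lit 0, [(nat_lit 19, [(nat_lit 3, nat_lit 134), (nat_lit 4, nat_lit 351)]), (nat_lit 22, [(nat_lit 3, nat_lit 134), (nat_lit 4, nat_lit 351)])],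
 ⟨p091_k17, nat_lit 0, nat_lit 0, nat_lit 421, nat_lit 0, nat_lit 628479, [nat_lit 3591368001, nat_lit 2332322800, nat_lit 4119404400], [], [nat_lit 18383391261, nat_lit 22085611397, nat_lit 18072336325, nat_lit 21677297157, nat_lit 21626527095, nat_lit 26274754280, nat_lit 21232381212, nat_lit 25769745172], nat_lit 1271250, nat_lit 1271250, nat_lit 631250, nat_lit 780000, nat_lit 1100001, nat_lit 1956250, [nat_lit 490000, nat_lit 1100000, nat_lit 2127500], [nat_lit 27, nat_lit 40, nat_lit 40, nat_lit 80, nat_lit 13, nat_lit 317, nat_lit 100, nat_lit 8]⟩, ⟨p091_k9, nat_lit 0, nat_lit 0, nat_lit 531, nat_lit 0, nat_lit 771539, [nat_lit 1690230000, nat_lit 3218750000, nat_lit 6114080000], [], [nat_lit 9208396970, nat_lit 11302929260, nat_lit 8807978720, nat_lit 10841755880, nat_lit 12463948635, nat_lit 14682483785, nat_lit 11956100730, nat_lit 14149971335], nat_lit 1271250, nat_lit 1271250, nat_lit 631250, nat_lit 780000,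 nat_lit 1100001, nat_lit 2298750, [nat_lit 780000, nat_lit 1435000, nat_lit 1271250], [nat_lit 23, nat_lit 40, nat_lit 40, nat_lit 80, nat_lit 12, nat_lit 428, nat_lit 200, nat_lit 11]⟩,
 ⟨nat_lit 3162, nat_lit 4473, ⟨.ofNat (nat_lit 415764), .ofNat (nat_lit 449792), .ofNat (nat_lit 458716), .ofNat (nat_lit 492744), .ofNat (nat_lit 435680), .ofNat (nat_lit 466195), .ofNat (nat_lit 479808), .ofNat (nat_lit 510324)⟩, ⟨.ofNat (nat_lit 259488), .ofNat (nat_lit 429433), .ofNat (nat_lit 302621), .ofNat (nat_lit 472567), .ofNat (nat_lit 261805), .ofNat (nat_lit 414188), .ofNat (nat_lit 306116), .ofNat (nat_lit 458499)⟩⟩, [⟨nat_lit 0, nat_lit 100, nat_lit 87, nat_lit 95, nat_lit 636694700⟩, ⟨nat_lit 16, nat_lit 83, nat_lit 100, nat_lit 83, nat_lit 73164378⟩, ⟨nat_lit 4, nat_lit 100, nat_lit 71, nat_lit 71, nat_lit 418362744⟩, ⟨nat_lit 19, nat_lit 100, nat_lit 95, nat_lit 87, nat_lit 259260833⟩]⟩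
noncomputable def p091_l98 : Lf2 := ⟨nat_lit 0, nat_lit 20, [nat_lit 5, nat_lit 5, nat_lit 5, nat_lit 20], false, nat_lit 160, nat_lit 260, nat_lit 160, nat_lit 300, ⟨nat_lit 866, nat_lit 0, nat_lit 134, nat_lit 7, nat_lit 205, nat_lit 134, nat_lit 145, nat_lit 134, nat_lit 89743, nat_lit 288, nat_lit 2872, nat_lit 223, nat_lit 45921400, nat_lit 0, nat_lit 0, nat_lit 4447831, false, false⟩,
 nat_lit 12409, nat_lit 0, nat_lit 0, nat_lit 0, nat_lit 9306, nat_lit 7896, nat_lit 454, nat_lit 0, nat_lit 0, nat_lit 923, nat_lit 0, nat_lit 0, nat_lit 0, nat_lit 0, nat_lit 0, nat_lit 25460, nat_lit 0, nat_lit 0, [(nat_lit 19, [(nat_lit 3, nat_lit 134)]), (nat_lit 22, [(nat_lit 3, nat_lit 134)])],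
 ⟨p091_k17, nat_lit 0, nat_lit 0, nat_lit 385, nat_lit 0, nat_lit 628479, [nat_lit 3771641601, nat_lit 4048712801, nat_lit 8309361600], [], [nat_lit 19567870550, nat_lit 23733001638, nat_lit 19507624086, nat_lit 23404811006, nat_lit 22867518758, nat_lit 27223396898, nat_lit 22505997342, nat_lit 26880929336], nat_lit 1271250, nat_lit 1271250, nat_lit 780000, nat_lit 1100001, nat_lit 1100001, nat_lit 1956250, [nat_lit 490000, nat_lit 1100000, nat_lit 2127500], [nat_lit 27, nat_lit 40, nat_lit 40, nat_lit 80, nat_lit 13, nat_lit 345, nat_lit 125, nat_lit 9]⟩, ⟨p091_k9, nat_lit 0, nat_lit 0, nat_lit 521, nat_lit 0, nat_lit 771539, [nat_lit 2842212000, nat_lit 5412500000, nat_lit 10281152000], [], [nat_lit 18462718360, nat_lit 18240143744, nat_lit 16252514869, nat_lit 18175263576, nat_lit 19948258436, nat_lit 22025309438, nat_lit 19682954920, nat_lit 21835162648], nat_lit 1271250, nat_lit 1271250, nat_lit 780000, nat_lit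 1100001, nat_lit 1100001, nat_lit 2298750, [nat_lit 780000, nat_lit 1435000, nat_lit 1271250], [nat_lit 23, nat_lit 40, nat_lit 40, nat_lit 80, nat_lit 12, nat_lit 428, nat_lit 200, nat_lit 10]⟩,
 ⟨nat_lit 3162, nat_lit 4473, ⟨.ofNat (nat_lit 449792), .ofNat (nat_lit 517847), .ofNat (nat_lit 492744), .ofNat (nat_lit 560799), .ofNat (nat_lit 466195), .ofNat (nat_lit 527226), .ofNat (nat_lit 510324), .ofNat (nat_lit 571355)⟩, ⟨.ofNat (nat_lit 259488), .ofNat (nat_lit 429433), .ofNat (nat_lit 302621), .ofNat (nat_lit 472567), .ofNat (nat_lit 261805), .ofNat (nat_lit 414188), .ofNat (nat_lit 306116), .ofNat (nat_lit 458499)⟩⟩, [⟨nat_lit 0, nat_lit 100, nat_lit 87, nat_lit 95, nat_lit 486433345⟩, ⟨nat_lit 16, nat_lit 71, nat_lit 100, nat_lit 71, nat_lit 685527101⟩, ⟨nat_lit 19, nat_lit 100, nat_lit 95, nat_lit 87, nat_lit 279841286⟩]⟩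
noncomputable def p091_l99 : Lf2 := ⟨nat_lit 0, nat_lit 20, [nat_lit 5, nat_lit 5, nat_lit 5, nat_lit 20], false, nat_lit 160, nat_lit 260, nat_lit 160, nat_lit 300, ⟨nat_lit 660, nat_lit 0, nat_lit 340, nat_lit 7, nat_lit 244, nat_lit 340, nat_lit 145, nat_lit 340, nat_lit 89743, nat_lit 288, nat_lit 122572, nat_lit 200, nat_lit 42626296, nat_lit 0, nat_lit 0, nat_lit 4713745, false, false⟩,
 nat_lit 8439, nat_lit 0, nat_lit 0, nat_lit 0, nat_lit 6328, nat_lit 5370, nat_lit 467, nat_lit 0, nat_lit 0, nat_lit 331, nat_lit 0, nat_lit 0, nat_lit 0, nat_lit 0, nat_lit 0, nat_lit 80080, nat_lit 0, nat_lit 0, [(nat_lit 19, [(nat_lit 3, nat_lit 82), (nat_lit 4, nat_lit 258)]), (nat_lit 22, [(nat_lit 3, nat_lit 82), (nat_lit 4, nat_lit 258)])],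
 ⟨p091_k17, nat_lit 0, nat_lit 0, nat_lit 354, nat_lit 0, nat_lit 628479, [nat_lit 2964048000, nat_lit 3035174401, nat_lit 5824319200], [], [nat_lit 19167349743, nat_lit 22222298703, nat_lit 21137855663, nat_lit 23753903023, nat_lit 22000217671, nat_lit 24907241968, nat_lit 25409682351, nat_lit 26816321480], nat_lit 1271250, nat_lit 1271250, nat_lit 1100001, nat_lit 1785000, nat_lit 1100001, nat_lit 1956250, [nat_lit 490000, nat_lit 1100000, nat_lit 2127500], [nat_lit 27, nat_lit 40, nat_lit 40, nat_lit 80, nat_lit 13, nat_lit 345, nat_lit 125, nat_lit 9]⟩, ⟨p091_k9, nat_lit 0, nat_lit 0, nat_lit 507, nat_lit 0, nat_lit 771539, [nat_lit 2166120000, nat_lit 4125000000, nat_lit 7835520000], [], [nat_lit 17766434445, nat_lit 18846030885, nat_lit 18329845485, nat_lit 19227960525, nat_lit 20008834590, nat_lit 20143045305, nat_lit 19512804735, nat_lit 20529864855], nat_lit 1271250, nat_lit 1271250, nat_lit 1271250, nat_lit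 1271250, nat_lit 1100001, nat_lit 2298750, [nat_lit 780000, nat_lit 1435000, nat_lit 1271250], [nat_lit 23, nat_lit 40, nat_lit 40, nat_lit 80, nat_lit 12, nat_lit 456, nat_lit 225, nat_lit 11]⟩,
 ⟨nat_lit 3162, nat_lit 4473, ⟨.ofNat (nat_lit 517847), .ofNat (nat_lit 653959), .ofNat (nat_lit 560799), .ofNat (nat_lit 696911), .ofNat (nat_lit 527226), .ofNat (nat_lit 649288), .ofNat (nat_lit 571355), .ofNat (nat_lit 693416)⟩, ⟨.ofNat (nat_lit 259488), .ofNat (nat_lit 429433), .ofNat (nat_lit 302621), .ofNat (nat_lit 472567), .ofNat (nat_lit 261805), .ofNat (nat_lit 414188), .ofNat (nat_lit 306116), .ofNat (nat_lit 458499)⟩⟩, [⟨nat_lit 0, nat_lit 90, nat_lit 74, nat_lit 100, nat_lit 172953158⟩, ⟨nat_lit 4, nat_lit 100, nat_lit 71, nat_lit 71, nat_lit 549741979⟩, ⟨nat_lit 19, nat_lit 100, nat_lit 95, nat_lit 87, nat_lit 219726056⟩]⟩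
noncomputable def p091_l100 : Lf2 := ⟨nat_lit 0, nat_lit 20, [nat_lit 5, nat_lit 5, nat_lit 5, nat_lit 20], false, nat_lit 0, nat_lit 260, nat_lit 0, nat_lit 160, ⟨nat_lit 1000, nat_lit 0, nat_lit 0, nat_lit 0, nat_lit 0, nat_lit 0, nat_lit 0, nat_lit 0, nat_lit 0, nat_lit 0, nat_lit 0, nat_lit 0, nat_lit 0, nat_lit 0, nat_lit 0, nat_lit 0, false, false⟩,
 nat_lit 10961, nat_lit 0, nat_lit 0, nat_lit 0, nat_lit 7069, nat_lit 6975, nat_lit 516, nat_lit 0, nat_lit 0, nat_lit 739, nat_lit 0, nat_lit 0, nat_lit 0, nat_lit 0, nat_lit 0, nat_lit 0, nat_lit 0, nat_lit 0, [],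
 ⟨p091_k17, nat_lit 0, nat_lit 0, nat_lit 437, nat_lit 0, nat_lit 529055, [nat_lit 2032000001, nat_lit 4688000000, nat_lit 9842000000], [], [nat_lit 29509770344, nat_lit 31140768746, nat_lit 41051265164, nat_lit 42534307656, nat_lit 26807825218, nat_lit 27470399777, nat_lit 34197154270, nat_lit 35251700204], nat_lit 1271250, nat_lit 1271250, nat_lit 1271250, nat_lit 1271250, nat_lit 0, nat_lit 1836250, [nat_lit 490000, nat_lit 1100000, nat_lit 2127500], [nat_lit 27, nat_lit 40, nat_lit 40, nat_lit 80, nat_lit 13, nat_lit 401, nat_lit 175, nat_lit 11]⟩, ⟨p091_k9, nat_lit 0, nat_lit 0, nat_lit 535, nat_lit 0, nat_lit 649483, [nat_lit 3282000000, nat_lit 6250000000, nat_lit 11872000000], [], [nat_lit 35270393025, nat_lit 36463679325, nat_lit 39906667725, nat_lit 40789632325, nat_lit 31276122725, nat_lit 32253149625, nat_lit 35307432900, nat_lit 36102682000], nat_lit 1271250, nat_lit 1271250, nat_lit 1271250, nat_lit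 1271250, nat_lit 0, nat_lit 1100001, [nat_lit 780000, nat_lit 1435000, nat_lit 1271250], [nat_lit 23, nat_lit 40, nat_lit 40, nat_lit 80, nat_lit 12, nat_lit 456, nat_lit 225, nat_lit 11]⟩,
 zbF0, [⟨nat_lit 4, nat_lit 100, nat_lit 76, nat_lit 72, nat_lit 107394774⟩]⟩
noncomputable def p091_l101 : Lf2 := ⟨nat_lit 0, nat_lit 20, [nat_lit 5, nat_lit 5, nat_lit 5, nat_lit 20], false, nat_lit 0, nat_lit 232, nat_lit 0, nat_lit 160, ⟨nat_lit 1000, nat_lit 0, nat_lit 0, nat_lit 0, nat_lit 0, nat_lit 0, nat_lit 0, nat_lit 0, nat_lit 0, nat_lit 0, nat_lit 0, nat_lit 0, nat_lit 0, nat_lit 0, nat_lit 0, nat_lit 0, false, false⟩,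
 nat_lit 10961, nat_lit 0, nat_lit 0, nat_lit 0, nat_lit 5837, nat_lit 6975, nat_lit 556, nat_lit 0, nat_lit 0, nat_lit 739, nat_lit 0, nat_lit 0, nat_lit 0, nat_lit 0, nat_lit 0, nat_lit 0, nat_lit 0, nat_lit 0, [],
 ⟨p091_k8, nat_lit 0, nat_lit 0, nat_lit 405, nat_lit 0, nat_lit 572440, [nat_lit 2032000001, nat_lit 4688000000, nat_lit 7968000000], [], [nat_lit 27038366562, nat_lit 28674299796, nat_lit 38941766088, nat_lit 40279102404, nat_lit 25077376743, nat_lit 25795660056, nat_lit 33121863660, nat_lit 34151041099], nat_lit 1271250, nat_lit 1271250, nat_lit 1271250, nat_lit 1271250, nat_lit 0, nat_lit 1638500, [nat_lit 490000, nat_lit 1100000, nat_lit 1785000], [nat_lit 34, nat_lit 40, nat_lit 40, nat_lit 80, nat_lit 7, nat_lit 272, nat_lit 60, nat_lit 8]⟩, ⟨p091_k9, nat_lit 0, nat_lit 0, nat_lit 577, nat_lit 0, nat_lit 771539, [nat_lit 3282000000, nat_lit 6250000000, nat_lit 11872000000], [], [nat_lit 35270393025,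 nat_lit 36463679325, nat_lit 39906667725, nat_lit 40789632325, nat_lit 31276122725, nat_lit 32253149625, nat_lit 35307432900, nat_lit 36102682000], nat_lit 1271250, nat_lit 1271250, nat_lit 1271250, nat_lit 1271250, nat_lit 0, nat_lit 1100001, [nat_lit 780000, nat_lit 1435000, nat_lit 1271250], [nat_lit 23, nat_lit 40, nat_lit 40, nat_lit 80, nat_lit 12, nat_lit 456, nat_lit 225, nat_lit 11]⟩,
 zbF0, [⟨nat_lit 16, nat_lit 66, nat_lit 100, nat_lit 72, nat_lit 95019279⟩]⟩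
noncomputable def p091_l102 : Lf2 := ⟨nat_lit 0, nat_lit 20, [nat_lit 5, nat_lit 5, nat_lit 5, nat_lit 20], false, nat_lit 0, nat_lit 260, nat_lit 160, nat_lit 300, ⟨nat_lit 1000, nat_lit 0, nat_lit 0, nat_lit 0, nat_lit 0, nat_lit 0, nat_lit 0, nat_lit 0, nat_lit 0, nat_lit 0, nat_lit 0, nat_lit 0, nat_lit 0, nat_lit 0, nat_lit 0, nat_lit 0, false, false⟩,
 nat_lit 11259, nat_lit 0, nat_lit 0, nat_lit 0, nat_lit 7069, nat_lit 7164, nat_lit 561, nat_lit 0, nat_lit 0, nat_lit 741, nat_lit 0, nat_lit 0, nat_lit 0, nat_lit 0, nat_lit 0, nat_lit 0, nat_lit 0, nat_lit 0, [],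
 ⟨p091_k17, nat_lit 0, nat_lit 0, nat_lit 437, nat_lit 0, nat_lit 529055, [nat_lit 2032000001, nat_lit 4688000000, nat_lit 9842000000], [], [nat_lit 29059910969, nat_lit 30690909371, nat_lit 41051265164, nat_lit 42534307656, nat_lit 26357965843, nat_lit 27020540402, nat_lit 34197154270, nat_lit 35251700204], nat_lit 1271250, nat_lit 1271250, nat_lit 1271250, nat_lit 1271250, nat_lit 0, nat_lit 1836250, [nat_lit 490000, nat_lit 1100000, nat_lit 2127500], [nat_lit 27, nat_lit 40, nat_lit 40, nat_lit 80, nat_lit 13, nat_lit 401, nat_lit 175, nat_lit 11]⟩, ⟨p091_k9, nat_lit 0, nat_lit 0, nat_lit 401, nat_lit 0, nat_lit 649483, [nat_lit 3282000000, nat_lit 6250000000, nat_lit 11872000000], [], [nat_lit 28281166795, nat_lit 29586553547, nat_lit 33337301995, nat_lit 34077664544, nat_lit 30190832327, nat_lit 31101134963, nat_lit 34262665524, nat_lit 35588192752], nat_lit 1271250, nat_lit 1271250, nat_lit 1271250, nat_lit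 1271250, nat_lit 1100001, nat_lit 2298750, [nat_lit 780000, nat_lit 1435000, nat_lit 1271250], [nat_lit 23, nat_lit 40, nat_lit 40, nat_lit 80, nat_lit 12, nat_lit 538, nat_lit 300, nat_lit 13]⟩,
 zbF0, [⟨nat_lit 16, nat_lit 76, nat_lit 100, nat_lit 72, nat_lit 69305445⟩, ⟨nat_lit 7, nat_lit 100, nat_lit 90, nat_lit 74, nat_lit 410977579⟩]⟩
noncomputable def p091_l103 : Lf2 := ⟨nat_lit 0, nat_lit 20, [nat_lit 5, nat_lit 5, nat_lit 5, nat_lit 20], false, nat_lit 0, nat_lit 232, nat_lit 160, nat_lit 300, ⟨nat_lit 1000, nat_lit 0, nat_lit 0, nat_lit 0, nat_lit 0, nat_lit 0, nat_lit 0, nat_lit 0, nat_lit 0, nat_lit 0, nat_lit 0, nat_lit 0, nat_lit 0, nat_lit 0, nat_lit 0, nat_lit 0, false, false⟩,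
 nat_lit 11259, nat_lit 0, nat_lit 0, nat_lit 0, nat_lit 5682, nat_lit 7164, nat_lit 602, nat_lit 0, nat_lit 0, nat_lit 741, nat_lit 0, nat_lit 0, nat_lit 0, nat_lit 0, nat_lit 0, nat_lit 0, nat_lit 0, nat_lit 0, [],
 ⟨p091_k8, nat_lit 0, nat_lit 0, nat_lit 405, nat_lit 0, nat_lit 572440, [nat_lit 2032000001, nat_lit 4688000000, nat_lit 7968000000], [], [nat_lit 26604898802, nat_lit 28368902056, nat_lit 38489782368, nat_lit 39808787144, nat_lit 24904451837, nat_lit 25615668018, nat_lit 32934998760, nat_lit 33951856303], nat_lit 1271250, nat_lit 1271250, nat_lit 1271250, nat_lit 1271250, nat_lit 0, nat_lit 1638500, [nat_lit 490000, nat_lit 1100000, nat_lit 1785000], [nat_lit 34, nat_lit 40, nat_lit 40, nat_lit 80, nat_lit 7, nat_lit 272, nat_lit 60, nat_lit 8]⟩, ⟨p091_k9, nat_lit 0, nat_lit 0, nat_lit 488, nat_lit 0, nat_lit 771539, [nat_lit 3282000000, nat_lit 6250000000, nat_lit 11872000000], [], [nat_lit 28281166795,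 nat_lit 29586553547, nat_lit 33337301995, nat_lit 34077664544, nat_lit 30190832327, nat_lit 31101134963, nat_lit 34262665524, nat_lit 35588192752], nat_lit 1271250, nat_lit 1271250, nat_lit 1271250, nat_lit 1271250, nat_lit 1100001, nat_lit 2298750, [nat_lit 780000, nat_lit 1435000, nat_lit 1271250], [nat_lit 23, nat_lit 40, nat_lit 40, nat_lit 80, nat_lit 12, nat_lit 538, nat_lit 300, nat_lit 13]⟩,
 zbF0, [⟨nat_lit 16, nat_lit 66, nat_lit 100, nat_lit 72, nat_lit 79524909⟩, ⟨nat_lit 7, nat_lit 100, nat_lit 90, nat_lit 74, nat_lit 410977579⟩]⟩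
noncomputable def b_V_800_700_10_26 : St := ⟨true, nat_lit 1, nat_lit 1, nat_lit 1, nat_lit 80, nat_lit 320, nat_lit 360, nat_lit 280, nat_lit 320, nat_lit 100, nat_lit 400, nat_lit 40, nat_lit 80, nat_lit 0, nat_lit 260, nat_lit 0, nat_lit 300, nat_lit 40, nat_lit 80, nat_lit 0, nat_lit 0, nat_lit 0, nat_lit 0⟩
theorem d_V_800_700_10_26 (h : EB TB.env) : Dead b_V_800_700_10_26 := chkB_sound0 h (T :=
(.spl (nat_lit 2) (nat_lit 240)
(.spl (nat_lit 4) (nat_lit 160)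
(.spl (nat_lit 5) (nat_lit 160)
(.spl (nat_lit 2) (nat_lit 160)
(.leaf p091_l90)
(.leaf p091_l91))
(.spl (nat_lit 2) (nat_lit 160)
(.leaf p091_l92)
(.spl (nat_lit 0) (nat_lit 340)
(.leaf p091_l93)
(.leaf p091_l94))))
(.spl (nat_lit 5) (nat_lit 160)
(.spl (nat_lit 0) (nat_lit 340)
(.leaf p091_l95)
(.trZ (nat_lit 0) (nat_lit 99) (nat_lit 77) (nat_lit 100) (nat_lit 124) (.trX (nat_lit 16) (nat_lit 72) (nat_lit 100) (nat_lit 81) (nat_lit 232) (.leaf p091_l96))))
(.spl (nat_lit 2) (nat_lit 160)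
(.spl (nat_lit 2) (nat_lit 120)
(.leaf p091_l97)
(.leaf p091_l98))
(.leaf p091_l99))))
(.spl (nat_lit 5) (nat_lit 160)
(.spl (nat_lit 0) (nat_lit 340)
(.leaf p091_l100)
(.trX (nat_lit 16) (nat_lit 72) (nat_lit 100) (nat_lit 81) (nat_lit 232) (.leaf p091_l101)))
(.spl (nat_lit 0) (nat_lit 340)
(.leaf p091_l102)
(.trX (nat_lit 16) (nat_lit 72) (nat_lit 100) (nat_lit 81) (nat_lit 232) (.leaf p091_l103)))))) (by decide +kernel)
noncomputable def p091_l104 : Lf2 := ⟨nat_lit 0, nat_lit 20, [nat_lit 5, nat_lit 5, nat_lit 5, nat_lit 20], false, nat_lit 0, nat_lit 160, nat_lit 0, nat_lit 160, ⟨nat_lit 1000, nat_lit 0, nat_lit 0, nat_lit 0, nat_lit 0, nat_lit 0, nat_lit 0, nat_lit 0, nat_lit 0, nat_lit 0, nat_lit 0, nat_lit 0, nat_lit 0, nat_lit 0, nat_lit 0, nat_lit 0, false, false⟩,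
 nat_lit 0, nat_lit 10093, nat_lit 0, nat_lit 0, nat_lit 7569, nat_lit 6429, nat_lit 743, nat_lit 0, nat_lit 0, nat_lit 1352, nat_lit 0, nat_lit 0, nat_lit 0, nat_lit 0, nat_lit 0, nat_lit 0, nat_lit 0, nat_lit 0, [],
 ⟨p091_k17, nat_lit 0, nat_lit 0, nat_lit 589, nat_lit 0, nat_lit 775883, [nat_lit 2032000001, nat_lit 4688000000, nat_lit 9842000000], [], [nat_lit 25739347453, nat_lit 27668337494, nat_lit 27420345507, nat_lit 29407985186, nat_lit 22100280211, nat_lit 22984741699, nat_lit 31520956729, nat_lit 28262683885], nat_lit 1271250, nat_lit 1271250, nat_lit 631250, nat_lit 1751250, nat_lit 0, nat_lit 1100001, [nat_lit 490000, nat_lit 1100000, nat_lit 2127500], [nat_lit 27, nat_lit 40, nat_lit 40, nat_lit 80, nat_lit 13, nat_lit 317, nat_lit 100, nat_lit 9]⟩, ⟨p091_k9, nat_lit 0, nat_lit 0, nat_lit 221, nat_lit 0, nat_lit 0, [nat_lit 3282000000, nat_lit 6250000000, nat_lit 11872000000], [], [nat_lit 21259986570,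 nat_lit 22858106025, nat_lit 23643707268, nat_lit 25361129842, nat_lit 16814632266, nat_lit 18170134508, nat_lit 20108708720, nat_lit 21547045522], nat_lit 0, nat_lit 0, nat_lit 0, nat_lit 0, nat_lit 0, nat_lit 0, [], [nat_lit 23, nat_lit 40, nat_lit 40, nat_lit 80, nat_lit 12, nat_lit 401, nat_lit 175, nat_lit 10]⟩,
 zbF0, [⟨nat_lit 0, nat_lit 90, nat_lit 74, nat_lit 100, nat_lit 264035088⟩]⟩
noncomputable def p091_l105 : Lf2 := ⟨nat_lit 0, nat_lit 20, [nat_lit 5, nat_lit 5, nat_lit 5, nat_lit 20], false, nat_lit 0, nat_lit 160, nat_lit 0, nat_lit 160, ⟨nat_lit 1000, nat_lit 0, nat_lit 0, nat_lit 0, nat_lit 0, nat_lit 0, nat_lit 0, nat_lit 0, nat_lit 0, nat_lit 0, nat_lit 0, nat_lit 0, nat_lit 0, nat_lit 0, nat_lit 0, nat_lit 0, false, false⟩,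
 nat_lit 0, nat_lit 6790, nat_lit 0, nat_lit 0, nat_lit 5496, nat_lit 6511, nat_lit 1259, nat_lit 0, nat_lit 0, nat_lit 0, nat_lit 0, nat_lit 0, nat_lit 0, nat_lit 0, nat_lit 0, nat_lit 0, nat_lit 0, nat_lit 0, [],
 ⟨p091_k32, nat_lit 0, nat_lit 0, nat_lit 537, nat_lit 0, nat_lit 865551, [nat_lit 2032000001, nat_lit 7968000000], [], [nat_lit 23514491950, nat_lit 25053795236, nat_lit 25835389424, nat_lit 28002424768, nat_lit 21172950543, nat_lit 21958160868, nat_lit 22783316929, nat_lit 23316106765], nat_lit 1271250, nat_lit 1271250, nat_lit 810650, nat_lit 1764750, nat_lit 0, nat_lit 1100001, [nat_lit 490000, nat_lit 1740000], [nat_lit 110, nat_lit 40, nat_lit 40, nat_lit 80, nat_lit 109, nat_lit 317, nat_lit 100, nat_lit 10]⟩, ⟨p091_k33, nat_lit 0, nat_lit 0, nat_lit 195, nat_lit 0, nat_lit 0, [nat_lit 3282000000, nat_lit 11872000000], [], [nat_lit 33988388897, nat_lit 35549533541, nat_lit 36457650608, nat_lit 37702897888,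 nat_lit 29540060102, nat_lit 30861931393, nat_lit 31714776756, nat_lit 32771157262], nat_lit 0, nat_lit 0, nat_lit 0, nat_lit 0, nat_lit 0, nat_lit 0, [], [nat_lit 135, nat_lit 40, nat_lit 40, nat_lit 80, nat_lit 134, nat_lit 401, nat_lit 175, nat_lit 10]⟩,
 zbF0, [⟨nat_lit 0, nat_lit 87, nat_lit 60, nat_lit 100, nat_lit 621319200⟩]⟩
noncomputable def p091_l106 : Lf2 := ⟨nat_lit 0, nat_lit 20, [nat_lit 5, nat_lit 5, nat_lit 5, nat_lit 20], false, nat_lit 0, nat_lit 160, nat_lit 0, nat_lit 160, ⟨nat_lit 1000, nat_lit 0, nat_lit 0, nat_lit 0, nat_lit 0, nat_lit 0, nat_lit 0, nat_lit 0, nat_lit 0, nat_lit 0, nat_lit 0, nat_lit 0, nat_lit 0, nat_lit 0, nat_lit 0, nat_lit 0, false, false⟩,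
 nat_lit 0, nat_lit 9289, nat_lit 0, nat_lit 0, nat_lit 6966, nat_lit 6515, nat_lit 678, nat_lit 0, nat_lit 0, nat_lit 1271, nat_lit 0, nat_lit 0, nat_lit 0, nat_lit 0, nat_lit 0, nat_lit 0, nat_lit 0, nat_lit 0, [],
 ⟨p091_k17, nat_lit 0, nat_lit 0, nat_lit 633, nat_lit 0, nat_lit 936020, [nat_lit 2032000001, nat_lit 4688000000, nat_lit 9842000000], [], [nat_lit 32000703626, nat_lit 29195882682, nat_lit 29170779454, nat_lit 29976332578, nat_lit 25040980686, nat_lit 25868567570, nat_lit 27984799895, nat_lit 26435886376], nat_lit 1271250, nat_lit 1271250, nat_lit 780000, nat_lit 1762500, nat_lit 0, nat_lit 1100001, [nat_lit 490000, nat_lit 1100000, nat_lit 2127500], [nat_lit 27, nat_lit 40, nat_lit 40, nat_lit 80, nat_lit 13, nat_lit 317, nat_lit 100, nat_lit 9]⟩, ⟨p091_k18, nat_lit 0, nat_lit 0, nat_lit 182, nat_lit 0, nat_lit 0, [nat_lit 3282000000, nat_lit 6250000000, nat_lit 9842000000], [], [nat_lit 19989800540,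 nat_lit 21779383830, nat_lit 22954789230, nat_lit 25172887200, nat_lit 15820655230, nat_lit 17325188105, nat_lit 19037720395, nat_lit 20486939465], nat_lit 0, nat_lit 0, nat_lit 0, nat_lit 0, nat_lit 0, nat_lit 0, [], [nat_lit 8, nat_lit 40, nat_lit 40, nat_lit 80, nat_lit 1, nat_lit 317, nat_lit 100, nat_lit 9]⟩,
 zbF0, [⟨nat_lit 0, nat_lit 81, nat_lit 72, nat_lit 100, nat_lit 551669888⟩]⟩
noncomputable def p091_l107 : Lf2 := ⟨nat_lit 0, nat_lit 20, [nat_lit 5, nat_lit 5, nat_lit 5, nat_lit 20], false, nat_lit 0, nat_lit 160, nat_lit 0, nat_lit 160, ⟨nat_lit 1000, nat_lit 0, nat_lit 0, nat_lit 0, nat_lit 0, nat_lit 0, nat_lit 0, nat_lit 0, nat_lit 0, nat_lit 0, nat_lit 0, nat_lit 0, nat_lit 0, nat_lit 0, nat_lit 0, nat_lit 0, false, false⟩,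
 nat_lit 0, nat_lit 6671, nat_lit 0, nat_lit 0, nat_lit 5400, nat_lit 6729, nat_lit 1303, nat_lit 0, nat_lit 0, nat_lit 0, nat_lit 0, nat_lit 0, nat_lit 0, nat_lit 0, nat_lit 0, nat_lit 0, nat_lit 0, nat_lit 0, [],
 ⟨p091_k32, nat_lit 0, nat_lit 0, nat_lit 605, nat_lit 0, nat_lit 1000681, [nat_lit 2032000001, nat_lit 7968000000], [], [nat_lit 23248346930, nat_lit 24975853280, nat_lit 25669943600, nat_lit 27813275200, nat_lit 21293249016, nat_lit 22051344936, nat_lit 23140776629, nat_lit 23220556233], nat_lit 1271250, nat_lit 1271250, nat_lit 968401, nat_lit 1776000, nat_lit 0, nat_lit 1100001, [nat_lit 490000, nat_lit 1740000], [nat_lit 110, nat_lit 40, nat_lit 40, nat_lit 80, nat_lit 109, nat_lit 317, nat_lit 100, nat_lit 10]⟩, ⟨p091_k34, nat_lit 0, nat_lit 0, nat_lit 164, nat_lit 0, nat_lit 0, [nat_lit 3282000000, nat_lit 9842000000], [], [nat_lit 30396923259, nat_lit 32153038638, nat_lit 33075786026, nat_lit 34514268112,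 nat_lit 25991502044, nat_lit 27465665955, nat_lit 28307131010, nat_lit 29518834284], nat_lit 0, nat_lit 0, nat_lit 0, nat_lit 0, nat_lit 0, nat_lit 0, [], [nat_lit 82, nat_lit 40, nat_lit 40, nat_lit 80, nat_lit 63, nat_lit 317, nat_lit 100, nat_lit 9]⟩,
 zbF0, [⟨nat_lit 0, nat_lit 80, nat_lit 60, nat_lit 100, nat_lit 573712665⟩, ⟨nat_lit 4, nat_lit 100, nat_lit 66, nat_lit 72, nat_lit 6130006⟩]⟩
noncomputable def p091_l108 : Lf2 := ⟨nat_lit 0, nat_lit 20, [nat_lit 5, nat_lit 5, nat_lit 5, nat_lit 20], false, nat_lit 160, nat_lit 260, nat_lit 0, nat_lit 160, ⟨nat_lit 1000, nat_lit 0, nat_lit 0, nat_lit 0, nat_lit 0, nat_lit 0, nat_lit 0, nat_lit 0, nat_lit 0, nat_lit 0, nat_lit 0, nat_lit 0, nat_lit 0, nat_lit 0, nat_lit 0, nat_lit 0, false, false⟩,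
 nat_lit 0, nat_lit 9163, nat_lit 0, nat_lit 0, nat_lit 6871, nat_lit 6847, nat_lit 732, nat_lit 0, nat_lit 0, nat_lit 1237, nat_lit 0, nat_lit 0, nat_lit 0, nat_lit 0, nat_lit 0, nat_lit 0, nat_lit 0, nat_lit 0, [],
 ⟨p091_k17, nat_lit 0, nat_lit 0, nat_lit 561, nat_lit 0, nat_lit 936020, [nat_lit 2032000001, nat_lit 4688000000, nat_lit 9842000000], [], [nat_lit 23500477202, nat_lit 24518254910, nat_lit 24287442524, nat_lit 25250274176, nat_lit 25218299972, nat_lit 26108596432, nat_lit 26000561663, nat_lit 26838828310], nat_lit 1271250, nat_lit 1271250, nat_lit 631250, nat_lit 1751250, nat_lit 1100001, nat_lit 1956250, [nat_lit 490000, nat_lit 1100000, nat_lit 2127500], [nat_lit 27, nat_lit 40, nat_lit 40, nat_lit 80, nat_lit 13, nat_lit 345, nat_lit 125, nat_lit 9]⟩, ⟨p091_k9, nat_lit 0, nat_lit 0, nat_lit 230, nat_lit 0, nat_lit 0, [nat_lit 3282000000, nat_lit 6250000000, nat_lit 11872000000], [], [nat_lit 22611338385,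 nat_lit 25927455515, nat_lit 24727549691, nat_lit 27284222811, nat_lit 17681364913, nat_lit 20488424125, nat_lit 19616170960, nat_lit 22598630332], nat_lit 0, nat_lit 0, nat_lit 0, nat_lit 0, nat_lit 0, nat_lit 0, [], [nat_lit 23, nat_lit 40, nat_lit 40, nat_lit 80, nat_lit 12, nat_lit 428, nat_lit 200, nat_lit 11]⟩,
 zbF0, [⟨nat_lit 0, nat_lit 81, nat_lit 72, nat_lit 100, nat_lit 700544240⟩, ⟨nat_lit 4, nat_lit 100, nat_lit 76, nat_lit 72, nat_lit 528690910⟩]⟩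
noncomputable def p091_l109 : Lf2 := ⟨nat_lit 0, nat_lit 20, [nat_lit 5, nat_lit 5, nat_lit 5, nat_lit 20], false, nat_lit 160, nat_lit 232, nat_lit 0, nat_lit 160, ⟨nat_lit 1000, nat_lit 0, nat_lit 0, nat_lit 0, nat_lit 0, nat_lit 0, nat_lit 0, nat_lit 0, nat_lit 0, nat_lit 0, nat_lit 0, nat_lit 0, nat_lit 0, nat_lit 0, nat_lit 0, nat_lit 0, false, false⟩,
 nat_lit 0, nat_lit 6823, nat_lit 0, nat_lit 0, nat_lit 5523, nat_lit 6289, nat_lit 1301, nat_lit 0, nat_lit 0, nat_lit 0, nat_lit 0, nat_lit 0, nat_lit 0, nat_lit 0, nat_lit 0, nat_lit 0, nat_lit 0, nat_lit 0, [],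
 ⟨p091_k32, nat_lit 0, nat_lit 0, nat_lit 503, nat_lit 0, nat_lit 1000681, [nat_lit 2032000001, nat_lit 7968000000], [], [nat_lit 20180831254, nat_lit 21367263810, nat_lit 21757489279, nat_lit 23289982780, nat_lit 21526369373, nat_lit 22805400231, nat_lit 23568742625, nat_lit 25170589650], nat_lit 1271250, nat_lit 1271250, nat_lit 810650, nat_lit 1764750, nat_lit 1100001, nat_lit 1716500, [nat_lit 490000, nat_lit 1740000], [nat_lit 110, nat_lit 40, nat_lit 40, nat_lit 80, nat_lit 109, nat_lit 345, nat_lit 125, nat_lit 10]⟩, ⟨p091_k33, nat_lit 0, nat_lit 0, nat_lit 202, nat_lit 0, nat_lit 0, [nat_lit 3282000000, nat_lit 11872000000], [], [nat_lit 33883921824, nat_lit 36945135095, nat_lit 36369443792, nat_lit 38816213232, nat_lit 29689145179, nat_lit 32284161158, nat_lit 31883764044, nat_lit 33962316632], nat_lit 0, nat_lit 0, nat_lit 0, nat_lit 0, nat_lit 0, nat_lit 0, [], [nat_lit 135, nat_lit 40, nat_lit 40, nat_lit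 80, nat_lit 134, nat_lit 428, nat_lit 200, nat_lit 11]⟩,
 zbF0, [⟨nat_lit 0, nat_lit 88, nat_lit 67, nat_lit 100, nat_lit 556855479⟩, ⟨nat_lit 4, nat_lit 100, nat_lit 66, nat_lit 72, nat_lit 702120621⟩]⟩
noncomputable def p091_l110 : Lf2 := ⟨nat_lit 0, nat_lit 20, [nat_lit 5, nat_lit 5, nat_lit 5, nat_lit 20], false, nat_lit 0, nat_lit 260, nat_lit 160, nat_lit 300, ⟨nat_lit 1000, nat_lit 0, nat_lit 0, nat_lit 0, nat_lit 0, nat_lit 0, nat_lit 0, nat_lit 0, nat_lit 0, nat_lit 0, nat_lit 0, nat_lit 0, nat_lit 0, nat_lit 0, nat_lit 0, nat_lit 0, false, false⟩,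
 nat_lit 0, nat_lit 8408, nat_lit 0, nat_lit 0, nat_lit 6306, nat_lit 5553, nat_lit 684, nat_lit 0, nat_lit 0, nat_lit 0, nat_lit 0, nat_lit 0, nat_lit 0, nat_lit 0, nat_lit 0, nat_lit 0, nat_lit 0, nat_lit 0, [],
 ⟨p091_k17, nat_lit 0, nat_lit 0, nat_lit 589, nat_lit 0, nat_lit 775883, [nat_lit 2032000001, nat_lit 4688000000, nat_lit 9842000000], [], [nat_lit 35651125212, nat_lit 32342001264, nat_lit 31504127164, nat_lit 32276935048, nat_lit 29320912807, nat_lit 29995996245, nat_lit 36420141153, nat_lit 33721838436], nat_lit 1271250, nat_lit 1271250, nat_lit 631250, nat_lit 1751250, nat_lit 0, nat_lit 1836250, [nat_lit 490000, nat_lit 1100000, nat_lit 2127500], [nat_lit 27, nat_lit 40, nat_lit 40, nat_lit 80, nat_lit 13, nat_lit 345, nat_lit 125, nat_lit 10]⟩, ⟨p091_k9, nat_lit 0, nat_lit 0, nat_lit 51, nat_lit 0, nat_lit 0, [nat_lit 3282000000, nat_lit 6250000000, nat_lit 11872000000], [], [nat_lit 11697683262,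 nat_lit 13678116417, nat_lit 16378291312, nat_lit 17903971296, nat_lit 20263644191, nat_lit 21834014582, nat_lit 22992688024, nat_lit 24216060575], nat_lit 0, nat_lit 0, nat_lit 0, nat_lit 0, nat_lit 0, nat_lit 0, [], [nat_lit 23, nat_lit 40, nat_lit 40, nat_lit 80, nat_lit 12, nat_lit 456, nat_lit 225, nat_lit 11]⟩,
 zbF0, [⟨nat_lit 0, nat_lit 97, nat_lit 82, nat_lit 100, nat_lit 230204209⟩, ⟨nat_lit 16, nat_lit 76, nat_lit 100, nat_lit 72, nat_lit 168487792⟩, ⟨nat_lit 7, nat_lit 100, nat_lit 94, nat_lit 75, nat_lit 724753293⟩]⟩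
noncomputable def p091_l111 : Lf2 := ⟨nat_lit 0, nat_lit 20, [nat_lit 5, nat_lit 5, nat_lit 5, nat_lit 20], false, nat_lit 0, nat_lit 260, nat_lit 160, nat_lit 280, ⟨nat_lit 1000, nat_lit 0, nat_lit 0, nat_lit 0, nat_lit 0, nat_lit 0, nat_lit 0, nat_lit 0, nat_lit 0, nat_lit 0, nat_lit 0, nat_lit 0, nat_lit 0, nat_lit 0, nat_lit 0, nat_lit 0, false, false⟩,
 nat_lit 0, nat_lit 8142, nat_lit 0, nat_lit 0, nat_lit 6106, nat_lit 5376, nat_lit 753, nat_lit 0, nat_lit 0, nat_lit 0, nat_lit 0, nat_lit 0, nat_lit 0, nat_lit 0, nat_lit 0, nat_lit 0, nat_lit 0, nat_lit 0, [],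
 ⟨p091_k17, nat_lit 0, nat_lit 0, nat_lit 633, nat_lit 0, nat_lit 936020, [nat_lit 2032000001, nat_lit 4688000000, nat_lit 9842000000], [], [nat_lit 32223630584, nat_lit 31335715337, nat_lit 31663676184, nat_lit 32625370336, nat_lit 29953454994, nat_lit 30660081649, nat_lit 36230558378, nat_lit 33617834561], nat_lit 1271250, nat_lit 1271250, nat_lit 780000, nat_lit 1762500, nat_lit 0, nat_lit 1836250, [nat_lit 490000, nat_lit 1100000, nat_lit 2127500], [nat_lit 27, nat_lit 40, nat_lit 40, nat_lit 80, nat_lit 13, nat_lit 345, nat_lit 125, nat_lit 10]⟩, ⟨p091_k18, nat_lit 0, nat_lit 0, nat_lit 44, nat_lit 0, nat_lit 0, [nat_lit 3282000000, nat_lit 6250000000, nat_lit 9842000000], [], [nat_lit 13949814064, nat_lit 15839560736, nat_lit 18078629232, nat_lit 19576957760, nat_lit 20135976464, nat_lit 21733797456, nat_lit 23022306400, nat_lit 24297007712], nat_lit 0, nat_lit 0, nat_lit 0, nat_lit 0, nat_lit 0, nat_lit 0,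 [], [nat_lit 8, nat_lit 40, nat_lit 40, nat_lit 80, nat_lit 1, nat_lit 373, nat_lit 150, nat_lit 10]⟩,
 zbF0, [⟨nat_lit 0, nat_lit 87, nat_lit 79, nat_lit 100, nat_lit 59827831⟩, ⟨nat_lit 0, nat_lit 81, nat_lit 72, nat_lit 100, nat_lit 166524362⟩, ⟨nat_lit 16, nat_lit 76, nat_lit 100, nat_lit 72, nat_lit 288647278⟩, ⟨nat_lit 7, nat_lit 100, nat_lit 85, nat_lit 73, nat_lit 741930742⟩]⟩
noncomputable def p091_l112 : Lf2 := ⟨nat_lit 0, nat_lit 20, [nat_lit 5, nat_lit 5, nat_lit 5, nat_lit 20], false, nat_lit 0, nat_lit 232, nat_lit 160, nat_lit 300, ⟨nat_lit 1000, nat_lit 0, nat_lit 0, nat_lit 0, nat_lit 0, nat_lit 0, nat_lit 0, nat_lit 0, nat_lit 0, nat_lit 0, nat_lit 0, nat_lit 0, nat_lit 0, nat_lit 0, nat_lit 0, nat_lit 0, false, false⟩,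
 nat_lit 0, nat_lit 6851, nat_lit 0, nat_lit 0, nat_lit 5546, nat_lit 5273, nat_lit 1252, nat_lit 0, nat_lit 0, nat_lit 0, nat_lit 0, nat_lit 0, nat_lit 0, nat_lit 0, nat_lit 0, nat_lit 0, nat_lit 0, nat_lit 0, [],
 ⟨p091_k32, nat_lit 0, nat_lit 0, nat_lit 611, nat_lit 0, nat_lit 1000681, [nat_lit 2032000001, nat_lit 7968000000], [], [nat_lit 23552330710, nat_lit 25155154796, nat_lit 25921559124, nat_lit 28100940168, nat_lit 22343359909, nat_lit 23017557626, nat_lit 28172761182, nat_lit 25808460341], nat_lit 1271250, nat_lit 1271250, nat_lit 810650, nat_lit 1764750, nat_lit 0, nat_lit 1638500, [nat_lit 490000, nat_lit 1740000], [nat_lit 110, nat_lit 40, nat_lit 40, nat_lit 80, nat_lit 109, nat_lit 345, nat_lit 125, nat_lit 11]⟩, ⟨p091_k33, nat_lit 0, nat_lit 0, nat_lit 36, nat_lit 0, nat_lit 0, [nat_lit 3282000000, nat_lit 11872000000], [], [nat_lit 12296734307, nat_lit 16008947302, nat_lit 16697854192, nat_lit 19662678480,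 nat_lit 20053750237, nat_lit 23015262144, nat_lit 22911149784, nat_lit 25296878125], nat_lit 0, nat_lit 0, nat_lit 0, nat_lit 0, nat_lit 0, nat_lit 0, [], [nat_lit 135, nat_lit 40, nat_lit 40, nat_lit 80, nat_lit 134, nat_lit 456, nat_lit 225, nat_lit 11]⟩,
 zbF0, [⟨nat_lit 0, nat_lit 88, nat_lit 67, nat_lit 100, nat_lit 281234472⟩, ⟨nat_lit 16, nat_lit 66, nat_lit 100, nat_lit 72, nat_lit 248021687⟩, ⟨nat_lit 19, nat_lit 100, nat_lit 95, nat_lit 87, nat_lit 494256934⟩]⟩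
noncomputable def p091_l113 : Lf2 := ⟨nat_lit 0, nat_lit 20, [nat_lit 5, nat_lit 5, nat_lit 5, nat_lit 20], false, nat_lit 0, nat_lit 260, nat_lit 0, nat_lit 160, ⟨nat_lit 1000, nat_lit 0, nat_lit 0, nat_lit 0, nat_lit 0, nat_lit 0, nat_lit 0, nat_lit 0, nat_lit 0, nat_lit 0, nat_lit 0, nat_lit 0, nat_lit 0, nat_lit 0, nat_lit 0, nat_lit 0, false, false⟩,
 nat_lit 0, nat_lit 7914, nat_lit 0, nat_lit 0, nat_lit 5935, nat_lit 6764, nat_lit 638, nat_lit 0, nat_lit 0, nat_lit 979, nat_lit 0, nat_lit 0, nat_lit 0, nat_lit 0, nat_lit 0, nat_lit 0, nat_lit 0, nat_lit 0, [],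
 ⟨p091_k17, nat_lit 0, nat_lit 0, nat_lit 574, nat_lit 0, nat_lit 851948, [nat_lit 2032000001, nat_lit 4688000000, nat_lit 9842000000], [], [nat_lit 33309324390, nat_lit 33686524935, nat_lit 38188237920, nat_lit 38553073150, nat_lit 31599231570, nat_lit 31865466843, nat_lit 35585241895, nat_lit 35803804217], nat_lit 1271250, nat_lit 1271250, nat_lit 1271250, nat_lit 1271250, nat_lit 0, nat_lit 1836250, [nat_lit 490000, nat_lit 1100000, nat_lit 2127500], [nat_lit 27, nat_lit 40, nat_lit 40, nat_lit 80, nat_lit 13, nat_lit 401, nat_lit 175, nat_lit 11]⟩, ⟨p091_k9, nat_lit 0, nat_lit 0, nat_lit 242, nat_lit 0, nat_lit 0, [nat_lit 3282000000, nat_lit 6250000000, nat_lit 11872000000], [], [nat_lit 28919338717, nat_lit 30910356557, nat_lit 37717702624, nat_lit 40197949584, nat_lit 24552949789, nat_lit 26222573389, nat_lit 32231665792, nat_lit 33598086048], nat_lit 0, nat_lit 0, nat_lit 0, nat_lit 0, nat_lit 0, nat_lit 0,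 [], [nat_lit 23, nat_lit 40, nat_lit 40, nat_lit 80, nat_lit 12, nat_lit 456, nat_lit 225, nat_lit 11]⟩,
 zbF0, [⟨nat_lit 16, nat_lit 79, nat_lit 100, nat_lit 72, nat_lit 207392651⟩]⟩
noncomputable def p091_l114 : Lf2 := ⟨nat_lit 0, nat_lit 20, [nat_lit 5, nat_lit 5, nat_lit 5, nat_lit 20], false, nat_lit 0, nat_lit 244, nat_lit 0, nat_lit 160, ⟨nat_lit 1000, nat_lit 0, nat_lit 0, nat_lit 0, nat_lit 0, nat_lit 0, nat_lit 0, nat_lit 0, nat_lit 0, nat_lit 0, nat_lit 0, nat_lit 0, nat_lit 0, nat_lit 0, nat_lit 0, nat_lit 0, false, false⟩,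
 nat_lit 0, nat_lit 7509, nat_lit 0, nat_lit 0, nat_lit 5853, nat_lit 6764, nat_lit 645, nat_lit 0, nat_lit 0, nat_lit 859, nat_lit 0, nat_lit 0, nat_lit 0, nat_lit 0, nat_lit 0, nat_lit 0, nat_lit 0, nat_lit 0, [],
 ⟨p091_k19, nat_lit 0, nat_lit 0, nat_lit 586, nat_lit 0, nat_lit 887251, [nat_lit 2032000001, nat_lit 4688000000, nat_lit 9842000000], [], [nat_lit 30120475003, nat_lit 30495641374, nat_lit 38318808170, nat_lit 38988422472, nat_lit 28116167675, nat_lit 28386359396, nat_lit 32831825147, nat_lit 33334374089], nat_lit 1271250, nat_lit 1271250, nat_lit 1271250, nat_lit 1271250, nat_lit 0, nat_lit 1723250, [nat_lit 490000, nat_lit 1100000, nat_lit 2127500], [nat_lit 27, nat_lit 40, nat_lit 40, nat_lit 80, nat_lit 13, nat_lit 401, nat_lit 175, nat_lit 11]⟩, ⟨p091_k9, nat_lit 0, nat_lit 0, nat_lit 242, nat_lit 0, nat_lit 0, [nat_lit 3282000000, nat_lit 6250000000, nat_lit 11872000000], [], [nat_lit 30070213717,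 nat_lit 32061231557, nat_lit 37939202725, nat_lit 40197949584, nat_lit 25703824789, nat_lit 27373448389, nat_lit 32231665792, nat_lit 33598086048], nat_lit 0, nat_lit 0, nat_lit 0, nat_lit 0, nat_lit 0, nat_lit 0, [], [nat_lit 23, nat_lit 40, nat_lit 40, nat_lit 80, nat_lit 12, nat_lit 456, nat_lit 225, nat_lit 11]⟩,
 zbF0, [⟨nat_lit 4, nat_lit 100, nat_lit 74, nat_lit 72, nat_lit 95902393⟩]⟩
noncomputable def p091_l115 : Lf2 := ⟨nat_lit 0, nat_lit 20, [nat_lit 5, nat_lit 5, nat_lit 5, nat_lit 20], false, nat_lit 0, nat_lit 232, nat_lit 0, nat_lit 160, ⟨nat_lit 1000, nat_lit 0, nat_lit 0, nat_lit 0, nat_lit 0, nat_lit 0, nat_lit 0, nat_lit 0, nat_lit 0, nat_lit 0, nat_lit 0, nat_lit 0, nat_lit 0, nat_lit 0, nat_lit 0, nat_lit 0, false, false⟩,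
 nat_lit 0, nat_lit 6336, nat_lit 0, nat_lit 0, nat_lit 5129, nat_lit 7742, nat_lit 637, nat_lit 0, nat_lit 0, nat_lit 578, nat_lit 0, nat_lit 0, nat_lit 0, nat_lit 0, nat_lit 0, nat_lit 0, nat_lit 0, nat_lit 0, [],
 ⟨p091_k35, nat_lit 0, nat_lit 0, nat_lit 571, nat_lit 0, nat_lit 1000681, [nat_lit 2032000001, nat_lit 6250000000, nat_lit 7968000000], [], [nat_lit 30926427403, nat_lit 31663456473, nat_lit 36877221096, nat_lit 38130823668, nat_lit 30111829824, nat_lit 30663249011, nat_lit 33406794261, nat_lit 33787844645], nat_lit 1271250, nat_lit 1271250, nat_lit 1271250, nat_lit 1271250, nat_lit 0, nat_lit 1638500, [nat_lit 490000, nat_lit 1427500, nat_lit 1271250], [nat_lit 102, nat_lit 40, nat_lit 40, nat_lit 80, nat_lit 2, nat_lit 272, nat_lit 60, nat_lit 8]⟩, ⟨p091_k31, nat_lit 0, nat_lit 0, nat_lit 252, nat_lit 0, nat_lit 0, [nat_lit 3282000000, nat_lit 7968000000, nat_lit 11872000000], [], [nat_lit 34337179474,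 nat_lit 36265669554, nat_lit 41720579178, nat_lit 42934666616, nat_lit 28768956498, nat_lit 30374087378, nat_lit 35135233640, nat_lit 36300652016], nat_lit 0, nat_lit 0, nat_lit 0, nat_lit 0, nat_lit 0, nat_lit 0, [], [nat_lit 79, nat_lit 40, nat_lit 40, nat_lit 80, nat_lit 14, nat_lit 456, nat_lit 225, nat_lit 11]⟩,
 zbF0, [⟨nat_lit 16, nat_lit 66, nat_lit 100, nat_lit 72, nat_lit 281638372⟩, ⟨nat_lit 9, nat_lit 100, nat_lit 88, nat_lit 23, nat_lit 42747076⟩]⟩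
noncomputable def p091_l116 : Lf2 := ⟨nat_lit 0, nat_lit 20, [nat_lit 5, nat_lit 5, nat_lit 5, nat_lit 20], false, nat_lit 0, nat_lit 260, nat_lit 160, nat_lit 300, ⟨nat_lit 1000, nat_lit 0, nat_lit 0, nat_lit 0, nat_lit 0, nat_lit 0, nat_lit 0, nat_lit 0, nat_lit 0, nat_lit 0, nat_lit 0, nat_lit 0, nat_lit 0, nat_lit 0, nat_lit 0, nat_lit 0, false, false⟩,
 nat_lit 0, nat_lit 7824, nat_lit 0, nat_lit 0, nat_lit 5867, nat_lit 6882, nat_lit 602, nat_lit 0, nat_lit 0, nat_lit 0, nat_lit 0, nat_lit 0, nat_lit 0, nat_lit 0, nat_lit 0, nat_lit 0, nat_lit 0, nat_lit 0, [],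
 ⟨p091_k17, nat_lit 0, nat_lit 0, nat_lit 602, nat_lit 0, nat_lit 936020, [nat_lit 2032000001, nat_lit 4688000000, nat_lit 9842000000], [], [nat_lit 33915797298, nat_lit 34666824636, nat_lit 38539332034, nat_lit 39036331528, nat_lit 32273144974, nat_lit 32795503078, nat_lit 35879667139, nat_lit 36316206608], nat_lit 1271250, nat_lit 1271250, nat_lit 1271250, nat_lit 1271250, nat_lit 0, nat_lit 1836250, [nat_lit 490000, nat_lit 1100000, nat_lit 2127500], [nat_lit 27, nat_lit 40, nat_lit 40, nat_lit 80, nat_lit 13, nat_lit 401, nat_lit 175, nat_lit 11]⟩, ⟨p091_k9, nat_lit 0, nat_lit 0, nat_lit 90, nat_lit 0, nat_lit 0, [nat_lit 3282000000, nat_lit 6250000000, nat_lit 11872000000], [], [nat_lit 19574929760, nat_lit 22566246792, nat_lit 30795560448, nat_lit 32550953456, nat_lit 25291102388, nat_lit 27426686078, nat_lit 33701122798, nat_lit 35258191276], nat_lit 0, nat_lit 0, nat_lit 0, nat_lit 0, nat_lit 0, nat_lit 0,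 [], [nat_lit 23, nat_lit 40, nat_lit 40, nat_lit 80, nat_lit 12, nat_lit 538, nat_lit 300, nat_lit 13]⟩,
 zbF0, [⟨nat_lit 16, nat_lit 76, nat_lit 100, nat_lit 72, nat_lit 216678087⟩, ⟨nat_lit 7, nat_lit 100, nat_lit 90, nat_lit 74, nat_lit 568055876⟩]⟩
noncomputable def p091_l117 : Lf2 := ⟨nat_lit 0, nat_lit 20, [nat_lit 5, nat_lit 5, nat_lit 5, nat_lit 20], false, nat_lit 0, nat_lit 232, nat_lit 160, nat_lit 300, ⟨nat_lit 1000, nat_lit 0, nat_lit 0, nat_lit 0, nat_lit 0, nat_lit 0, nat_lit 0, nat_lit 0, nat_lit 0, nat_lit 0, nat_lit 0, nat_lit 0, nat_lit 0, nat_lit 0, nat_lit 0, nat_lit 0, false, false⟩,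
 nat_lit 0, nat_lit 5862, nat_lit 0, nat_lit 0, nat_lit 4745, nat_lit 8602, nat_lit 989, nat_lit 0, nat_lit 0, nat_lit 0, nat_lit 0, nat_lit 0, nat_lit 0, nat_lit 0, nat_lit 0, nat_lit 0, nat_lit 0, nat_lit 0, [],
 ⟨p091_k35, nat_lit 0, nat_lit 0, nat_lit 571, nat_lit 0, nat_lit 1000681, [nat_lit 2032000001, nat_lit 6250000000, nat_lit 7968000000], [], [nat_lit 28818493195, nat_lit 29534467545, nat_lit 35757467880, nat_lit 36965655540, nat_lit 28364435662, nat_lit 28956858767, nat_lit 32290208805, nat_lit 32749549515], nat_lit 1271250, nat_lit 1271250, nat_lit 1271250, nat_lit 1271250, nat_lit 0, nat_lit 1638500, [nat_lit 490000, nat_lit 1427500, nat_lit 1271250], [nat_lit 102, nat_lit 40, nat_lit 40, nat_lit 80, nat_lit 2, nat_lit 272, nat_lit 60, nat_lit 8]⟩, ⟨p091_k31, nat_lit 0, nat_lit 0, nat_lit 105, nat_lit 0, nat_lit 0, [nat_lit 3282000000, nat_lit 7968000000, nat_lit 11872000000], [], [nat_lit 21096936304,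 nat_lit 24205301512, nat_lit 32772128832, nat_lit 34718111888, nat_lit 26567419476, nat_lit 28735965962, nat_lit 35584073878, nat_lit 37270966236], nat_lit 0, nat_lit 0, nat_lit 0, nat_lit 0, nat_lit 0, nat_lit 0, [], [nat_lit 79, nat_lit 40, nat_lit 40, nat_lit 80, nat_lit 14, nat_lit 538, nat_lit 300, nat_lit 13]⟩,
 zbF0, [⟨nat_lit 16, nat_lit 66, nat_lit 100, nat_lit 72, nat_lit 153913727⟩, ⟨nat_lit 7, nat_lit 100, nat_lit 90, nat_lit 74, nat_lit 493363754⟩]⟩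
noncomputable def p091_l118 : Lf2 := ⟨nat_lit 0, nat_lit 20, [nat_lit 5, nat_lit 5, nat_lit 5, nat_lit 20], false, nat_lit 0, nat_lit 160, nat_lit 0, nat_lit 300, ⟨nat_lit 139, nat_lit 861, nat_lit 0, nat_lit 7, nat_lit 224, nat_lit 861, nat_lit 57, nat_lit 0, nat_lit 0, nat_lit 0, nat_lit 0, nat_lit 0, nat_lit 0, nat_lit 0, nat_lit 0, nat_lit 5000000, false, false⟩,
 nat_lit 2791, nat_lit 3405, nat_lit 0, nat_lit 0, nat_lit 4647, nat_lit 1776, nat_lit 38, nat_lit 0, nat_lit 0, nat_lit 54, nat_lit 0, nat_lit 0, nat_lit 0, nat_lit 0, nat_lit 0, nat_lit 662400, nat_lit 0, nat_lit 0, [(nat_lit 19, [(nat_lit 1, nat_lit 331), (nat_lit 2, nat_lit 530)]), (nat_lit 22, [(nat_lit 1, nat_lit 331), (nat_lit 2, nat_lit 530)])],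
 ⟨p091_k26, nat_lit 0, nat_lit 0, nat_lit 512, nat_lit 0, nat_lit 628479, [nat_lit 2006640601, nat_lit 1543337401, nat_lit 303446000], [], [nat_lit 25303768745, nat_lit 24505715834, nat_lit 24075149099, nat_lit 26376055930, nat_lit 21466579605, nat_lit 22928226761, nat_lit 23819011153, nat_lit 24134763938], nat_lit 1271250, nat_lit 1271250, nat_lit 631250, nat_lit 1751250, nat_lit 0, nat_lit 1100001, [nat_lit 490000, nat_lit 1427500, nat_lit 1271250], [nat_lit 61, nat_lit 40, nat_lit 40, nat_lit 80, nat_lit 1, nat_lit 317, nat_lit 100, nat_lit 9]⟩, ⟨p091_k31, nat_lit 0, nat_lit 0, nat_lit 668, nat_lit 0, nat_lit 771539, [nat_lit 456198000, nat_lit 1107552000, nat_lit 1650208000], [], [nat_lit 6111052820, nat_lit 5431979040, nat_lit 4866418350, nat_lit 5384143542, nat_lit 3985824986, nat_lit 4374379606, nat_lit 5596307916, nat_lit 4057604604], nat_lit 1271250, nat_lit 1271250, nat_lit 631250, nat_lit 1751250, nat_lit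 0, nat_lit 2118750, [nat_lit 780000, nat_lit 1762500, nat_lit 1271250], [nat_lit 79, nat_lit 40, nat_lit 40, nat_lit 80, nat_lit 14, nat_lit 456, nat_lit 225, nat_lit 12]⟩,
 ⟨nat_lit 3162, nat_lit 4473, ⟨.ofNat (nat_lit 415764), .ofNat (nat_lit 653959), .ofNat (nat_lit 458716), .ofNat (nat_lit 696911), .ofNat (nat_lit 435680), .ofNat (nat_lit 649288), .ofNat (nat_lit 479808), .ofNat (nat_lit 693416)⟩, ⟨.negSucc (nat_lit 12437), .ofNat (nat_lit 259488), .ofNat (nat_lit 0), .ofNat (nat_lit 302621), .ofNat (nat_lit 0), .ofNat (nat_lit 261805), .ofNat (nat_lit 0), .ofNat (nat_lit 306116)⟩⟩, [⟨nat_lit 7, nat_lit 100, nat_lit 90, nat_lit 74, nat_lit 4310561⟩]⟩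
noncomputable def p091_l119 : Lf2 := ⟨nat_lit 0, nat_lit 20, [nat_lit 5, nat_lit 5, nat_lit 5, nat_lit 20], false, nat_lit 160, nat_lit 260, nat_lit 0, nat_lit 300, ⟨nat_lit 159, nat_lit 841, nat_lit 0, nat_lit 7, nat_lit 224, nat_lit 841, nat_lit 145, nat_lit 0, nat_lit 0, nat_lit 0, nat_lit 0, nat_lit 0, nat_lit 0, nat_lit 0, nat_lit 0, nat_lit 5000000, false, false⟩,
 nat_lit 3420, nat_lit 2953, nat_lit 0, nat_lit 0, nat_lit 4779, nat_lit 2176, nat_lit 60, nat_lit 0, nat_lit 0, nat_lit 47, nat_lit 0, nat_lit 0, nat_lit 0, nat_lit 0, nat_lit 0, nat_lit 636400, nat_lit 0, nat_lit 0, [(nat_lit 19, [(nat_lit 1, nat_lit 341), (nat_lit 2, nat_lit 500)]), (nat_lit 22, [(nat_lit 1, nat_lit 341), (nat_lit 2, nat_lit 500)])],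
 ⟨p091_k17, nat_lit 0, nat_lit 0, nat_lit 421, nat_lit 0, nat_lit 628479, [nat_lit 1649184801, nat_lit 1965680267, nat_lit 613190000], [], [nat_lit 19292532562, nat_lit 21696744732, nat_lit 21174559584, nat_lit 23439572564, nat_lit 21853968983, nat_lit 24203937124, nat_lit 23961670269, nat_lit 25820066640], nat_lit 1271250, nat_lit 1271250, nat_lit 631250, nat_lit 1751250, nat_lit 1100001, nat_lit 1956250, [nat_lit 490000, nat_lit 1100000, nat_lit 2127500], [nat_lit 27, nat_lit 40, nat_lit 40, nat_lit 80, nat_lit 13, nat_lit 345, nat_lit 125, nat_lit 9]⟩, ⟨p091_k9, nat_lit 0, nat_lit 0, nat_lit 666, nat_lit 0, nat_lit 771539, [nat_lit 521838000, nat_lit 993750000, nat_lit 1887648000], [], [nat_lit 9179842836, nat_lit 6860931860, nat_lit 5799259385, nat_lit 6419930337, nat_lit 4684092541, nat_lit 5147845691, nat_lit 5624062092, nat_lit 4708270648], nat_lit 1271250, nat_lit 1271250, nat_lit 631250, nat_lit 1751250,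 nat_lit 0, nat_lit 2118750, [nat_lit 780000, nat_lit 1435000, nat_lit 1271250], [nat_lit 23, nat_lit 40, nat_lit 40, nat_lit 80, nat_lit 12, nat_lit 456, nat_lit 225, nat_lit 12]⟩,
 ⟨nat_lit 3162, nat_lit 4473, ⟨.ofNat (nat_lit 415764), .ofNat (nat_lit 653959), .ofNat (nat_lit 458716), .ofNat (nat_lit 696911), .ofNat (nat_lit 435680), .ofNat (nat_lit 649288), .ofNat (nat_lit 479808), .ofNat (nat_lit 693416)⟩, ⟨.ofNat (nat_lit 259488), .ofNat (nat_lit 429433), .ofNat (nat_lit 302621), .ofNat (nat_lit 472567), .ofNat (nat_lit 261805), .ofNat (nat_lit 414188), .ofNat (nat_lit 306116), .ofNat (nat_lit 458499)⟩⟩, [⟨nat_lit 4, nat_lit 100, nat_lit 71, nat_lit 71, nat_lit 471302138⟩, ⟨nat_lit 19, nat_lit 90, nat_lit 100, nat_lit 74, nat_lit 114241⟩]⟩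
noncomputable def p091_l120 : Lf2 := ⟨nat_lit 0, nat_lit 20, [nat_lit 5, nat_lit 5, nat_lit 5, nat_lit 20], false, nat_lit 0, nat_lit 160, nat_lit 0, nat_lit 300, ⟨nat_lit 627, nat_lit 373, nat_lit 0, nat_lit 7, nat_lit 321, nat_lit 373, nat_lit 57, nat_lit 0, nat_lit 0, nat_lit 0, nat_lit 0, nat_lit 0, nat_lit 0, nat_lit 0, nat_lit 0, nat_lit 5000000, true, true⟩,
 nat_lit 7110, nat_lit 0, nat_lit 0, nat_lit 0, nat_lit 5332, nat_lit 4524, nat_lit 72, nat_lit 0, nat_lit 0, nat_lit 406, nat_lit 0, nat_lit 0, nat_lit 0, nat_lit 0, nat_lit 0, nat_lit 373000, nat_lit 0, nat_lit 0, [(nat_lit 19, [(nat_lit 2, nat_lit 373)]), (nat_lit 22, [(nat_lit 2, nat_lit 373)])],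
 ⟨p091_k17, nat_lit 0, nat_lit 0, nat_lit 467, nat_lit 0, nat_lit 628479, [nat_lit 1907666667, nat_lit 3331374134, nat_lit 4994939600], [], [nat_lit 29788261034, nat_lit 31503475818, nat_lit 36967709400, nat_lit 38747891720, nat_lit 27729681536, nat_lit 28998930048, nat_lit 32390216568, nat_lit 33941291320], nat_lit 1271250, nat_lit 1271250, nat_lit 1271250, nat_lit 1271250, nat_lit 0, nat_lit 1100001, [nat_lit 490000, nat_lit 1100000, nat_lit 2127500], [nat_lit 27, nat_lit 40, nat_lit 40, nat_lit 80, nat_lit 13, nat_lit 373, nat_lit 150, nat_lit 10]⟩, ⟨p091_k9, nat_lit 0, nat_lit 0, nat_lit 577, nat_lit 0, nat_lit 771539, [nat_lit 2057814000, nat_lit 3918750000, nat_lit 7443744000], [], [nat_lit 22217282286, nat_lit 22972329714, nat_lit 25378269510, nat_lit 26304440574, nat_lit 20333589438, nat_lit 20751983391, nat_lit 22019251467, nat_lit 22351445109], nat_lit 1271250, nat_lit 1271250, nat_lit 1271250, nat_lit 1271250,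 nat_lit 0, nat_lit 2118750, [nat_lit 780000, nat_lit 1435000, nat_lit 1271250], [nat_lit 23, nat_lit 40, nat_lit 40, nat_lit 80, nat_lit 12, nat_lit 538, nat_lit 300, nat_lit 13]⟩,
 ⟨nat_lit 3162, nat_lit 4473, ⟨.ofNat (nat_lit 653959), .ofNat (nat_lit 926092), .ofNat (nat_lit 696911), .ofNat (nat_lit 969090), .ofNat (nat_lit 649288), .ofNat (nat_lit 893321), .ofNat (nat_lit 693416), .ofNat (nat_lit 937496)⟩, ⟨.negSucc (nat_lit 12437), .ofNat (nat_lit 259488), .ofNat (nat_lit 0), .ofNat (nat_lit 302621), .ofNat (nat_lit 0), .ofNat (nat_lit 261805), .ofNat (nat_lit 0), .ofNat (nat_lit 306116)⟩⟩, [⟨nat_lit 19, nat_lit 90, nat_lit 100, nat_lit 74, nat_lit 65856129⟩, ⟨nat_lit 22, nat_lit 83, nat_lit 100, nat_lit 83, nat_lit 5001779⟩]⟩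
noncomputable def p091_l121 : Lf2 := ⟨nat_lit 0, nat_lit 20, [nat_lit 5, nat_lit 5, nat_lit 5, nat_lit 20], false, nat_lit 160, nat_lit 260, nat_lit 0, nat_lit 300, ⟨nat_lit 688, nat_lit 312, nat_lit 0, nat_lit 7, nat_lit 321, nat_lit 312, nat_lit 145, nat_lit 0, nat_lit 0, nat_lit 0, nat_lit 0, nat_lit 0, nat_lit 0, nat_lit 0, nat_lit 0, nat_lit 5000000, true, true⟩,
 nat_lit 7913, nat_lit 0, nat_lit 0, nat_lit 0, nat_lit 5934, nat_lit 5035, nat_lit 324, nat_lit 0, nat_lit 0, nat_lit 441, nat_lit 0, nat_lit 0, nat_lit 0, nat_lit 0, nat_lit 0, nat_lit 124800, nat_lit 0, nat_lit 0, [(nat_lit 19, [(nat_lit 1, nat_lit 312)]), (nat_lit 22, [(nat_lit 1, nat_lit 312)])],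
 ⟨p091_k17, nat_lit 0, nat_lit 0, nat_lit 350, nat_lit 0, nat_lit 628479, [nat_lit 1834233601, nat_lit 3861075201, nat_lit 7342880000], [], [nat_lit 25696425486, nat_lit 27492857294, nat_lit 32105782916, nat_lit 33721288240, nat_lit 27229027268, nat_lit 28716531232, nat_lit 32936626672, nat_lit 34861421782], nat_lit 1271250, nat_lit 1271250, nat_lit 1271250, nat_lit 1271250, nat_lit 1100001, nat_lit 1956250, [nat_lit 490000, nat_lit 1100000, nat_lit 2127500], [nat_lit 27, nat_lit 40, nat_lit 40, nat_lit 80, nat_lit 13, nat_lit 401, nat_lit 175, nat_lit 10]⟩, ⟨p091_k9, nat_lit 0, nat_lit 0, nat_lit 577, nat_lit 0, nat_lit 771539, [nat_lit 2258016000, nat_lit 4300000000, nat_lit 8167936000], [], [nat_lit 24211544155, nat_lit 25043274119, nat_lit 27970261415, nat_lit 28991039279, nat_lit 22066933337, nat_lit 22525206482, nat_lit 23939876145, nat_lit 24608916318], nat_lit 1271250, nat_lit 1271250, nat_lit 1271250, nat_lit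 1271250, nat_lit 0, nat_lit 2118750, [nat_lit 780000, nat_lit 1435000, nat_lit 1271250], [nat_lit 23, nat_lit 40, nat_lit 40, nat_lit 80, nat_lit 12, nat_lit 538, nat_lit 300, nat_lit 13]⟩,
 ⟨nat_lit 3162, nat_lit 4473, ⟨.ofNat (nat_lit 653959), .ofNat (nat_lit 926092), .ofNat (nat_lit 696911), .ofNat (nat_lit 969090), .ofNat (nat_lit 649288), .ofNat (nat_lit 893321), .ofNat (nat_lit 693416), .ofNat (nat_lit 937496)⟩, ⟨.ofNat (nat_lit 259488), .ofNat (nat_lit 429433), .ofNat (nat_lit 302621), .ofNat (nat_lit 472567), .ofNat (nat_lit 261805), .ofNat (nat_lit 414188), .ofNat (nat_lit 306116), .ofNat (nat_lit 458499)⟩⟩, [⟨nat_lit 4, nat_lit 100, nat_lit 71, nat_lit 71, nat_lit 470452066⟩, ⟨nat_lit 7, nat_lit 100, nat_lit 90, nat_lit 74, nat_lit 76892140⟩]⟩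
noncomputable def b_V_800_700_10_27 : St := ⟨true, nat_lit 1, nat_lit 2, nat_lit 2, nat_lit 80, nat_lit 320, nat_lit 360, nat_lit 280, nat_lit 320, nat_lit 100, nat_lit 400, nat_lit 40, nat_lit 80, nat_lit 0, nat_lit 260, nat_lit 0, nat_lit 300, nat_lit 40, nat_lit 80, nat_lit 0, nat_lit 0, nat_lit 0, nat_lit 0⟩
theorem d_V_800_700_10_27 (h : EB TB.env) : Dead b_V_800_700_10_27 := chkB_sound0 h (T :=
(.st (nat_lit 1)
(.spl (nat_lit 2) (nat_lit 240)
(.spl (nat_lit 5) (nat_lit 160)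
(.spl (nat_lit 4) (nat_lit 160)
(.spl (nat_lit 1) (nat_lit 300)
(.spl (nat_lit 0) (nat_lit 340)
(.leaf p091_l104)
(.trZ (nat_lit 0) (nat_lit 99) (nat_lit 77) (nat_lit 100) (nat_lit 124) (.leaf p091_l105)))
(.trZ (nat_lit 0) (nat_lit 94) (nat_lit 87) (nat_lit 100) (nat_lit 120) (.spl (nat_lit 0) (nat_lit 340)
(.leaf p091_l106)
(.trZ (nat_lit 0) (nat_lit 90) (nat_lit 74) (nat_lit 100) (nat_lit 144) (.leaf p091_l107)))))
(.spl (nat_lit 0) (nat_lit 340)
(.leaf p091_l108)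
(.trZ (nat_lit 0) (nat_lit 99) (nat_lit 77) (nat_lit 100) (nat_lit 124) (.trX (nat_lit 16) (nat_lit 72) (nat_lit 100) (nat_lit 81) (nat_lit 232) (.leaf p091_l109)))))
(.spl (nat_lit 0) (nat_lit 340)
(.spl (nat_lit 1) (nat_lit 300)
(.leaf p091_l110)
(.trZ (nat_lit 0) (nat_lit 94) (nat_lit 87) (nat_lit 100) (nat_lit 120) (.trX (nat_lit 19) (nat_lit 94) (nat_lit 100) (nat_lit 87) (nat_lit 280) (.leaf p091_l111))))
(.trZ (nat_lit 0) (nat_lit 99) (nat_lit 77) (nat_lit 100) (nat_lit 124) (.trX (nat_lit 16) (nat_lit 72) (nat_lit 100) (nat_lit 81) (nat_lit 232) (.leaf p091_l112)))))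
(.spl (nat_lit 5) (nat_lit 160)
(.spl (nat_lit 0) (nat_lit 340)
(.spl (nat_lit 0) (nat_lit 330)
(.leaf p091_l113)
(.trX (nat_lit 16) (nat_lit 78) (nat_lit 100) (nat_lit 82) (nat_lit 244) (.leaf p091_l114)))
(.trX (nat_lit 16) (nat_lit 72) (nat_lit 100) (nat_lit 81) (nat_lit 232) (.leaf p091_l115)))
(.spl (nat_lit 0) (nat_lit 340)
(.leaf p091_l116)
(.trX (nat_lit 16) (nat_lit 72) (nat_lit 100) (nat_lit 81) (nat_lit 232) (.leaf p091_l117)))))
(.spl (nat_lit 2) (nat_lit 240)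
(.spl (nat_lit 4) (nat_lit 160)
(.leaf p091_l118)
(.leaf p091_l119))
(.spl (nat_lit 4) (nat_lit 160)
(.leaf p091_l120)
(.leaf p091_l121))))) (by decide +kernel)
noncomputable def p091_l122 : Lf2 := ⟨nat_lit 0, nat_lit 20, [nat_lit 5, nat_lit 5, nat_lit 5, nat_lit 20], false, nat_lit 0, nat_lit 260, nat_lit 0, nat_lit 160, ⟨nat_lit 1000, nat_lit 0, nat_lit 0, nat_lit 0, nat_lit 0, nat_lit 0, nat_lit 0, nat_lit 0, nat_lit 0, nat_lit 0, nat_lit 0, nat_lit 0, nat_lit 0, nat_lit 0, nat_lit 0, nat_lit 0, false, false⟩,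
 nat_lit 0, nat_lit 0, nat_lit 0, nat_lit 6488, nat_lit 7035, nat_lit 8001, nat_lit 254, nat_lit 0, nat_lit 0, nat_lit 191, nat_lit 0, nat_lit 0, nat_lit 0, nat_lit 0, nat_lit 0, nat_lit 0, nat_lit 0, nat_lit 0, [],
 ⟨p091_k17, nat_lit 0, nat_lit 0, nat_lit 215, nat_lit 0, nat_lit 0, [nat_lit 2032000001, nat_lit 4688000000, nat_lit 9842000000], [], [nat_lit 30017469300, nat_lit 34250879770, nat_lit 41913597750, nat_lit 43915612850, nat_lit 28072163113, nat_lit 30961267878, nat_lit 35705100780, nat_lit 37103773035], nat_lit 0, nat_lit 0, nat_lit 0, nat_lit 0, nat_lit 0, nat_lit 0, [], [nat_lit 27, nat_lit 40, nat_lit 40, nat_lit 80, nat_lit 13, nat_lit 401, nat_lit 175, nat_lit 11]⟩, ⟨p091_k9, nat_lit 0, nat_lit 0, nat_lit 242, nat_lit 0, nat_lit 0, [nat_lit 3282000000, nat_lit 6250000000, nat_lit 11872000000], [], [nat_lit 34142450415, nat_lit 36976191307, nat_lit 45739097025, nat_lit 47266144537, nat_lit 28824334957,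 nat_lit 31184131127, nat_lit 37653534649, nat_lit 38961351333], nat_lit 0, nat_lit 0, nat_lit 0, nat_lit 0, nat_lit 0, nat_lit 0, [], [nat_lit 23, nat_lit 40, nat_lit 40, nat_lit 80, nat_lit 12, nat_lit 456, nat_lit 225, nat_lit 12]⟩,
 zbF0, [⟨nat_lit 0, nat_lit 90, nat_lit 74, nat_lit 100, nat_lit 232806087⟩, ⟨nat_lit 16, nat_lit 71, nat_lit 100, nat_lit 71, nat_lit 86064412⟩]⟩
noncomputable def p091_l123 : Lf2 := ⟨nat_lit 0, nat_lit 20, [nat_lit 5, nat_lit 5, nat_lit 5, nat_lit 20], false, nat_lit 0, nat_lit 260, nat_lit 160, nat_lit 300, ⟨nat_lit 1000, nat_lit 0, nat_lit 0, nat_lit 0, nat_lit 0, nat_lit 0, nat_lit 0, nat_lit 0, nat_lit 0, nat_lit 0, nat_lit 0, nat_lit 0, nat_lit 0, nat_lit 0, nat_lit 0, nat_lit 0, false, false⟩,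
 nat_lit 0, nat_lit 0, nat_lit 0, nat_lit 5135, nat_lit 7006, nat_lit 9117, nat_lit 259, nat_lit 0, nat_lit 0, nat_lit 0, nat_lit 0, nat_lit 0, nat_lit 0, nat_lit 0, nat_lit 0, nat_lit 0, nat_lit 0, nat_lit 0, [],
 ⟨p091_k17, nat_lit 0, nat_lit 0, nat_lit 215, nat_lit 0, nat_lit 0, [nat_lit 2032000001, nat_lit 4688000000, nat_lit 9842000000], [], [nat_lit 29950249355, nat_lit 34172226807, nat_lit 41830947775, nat_lit 43829185335, nat_lit 28036997659, nat_lit 30918123254, nat_lit 35666453723, nat_lit 37063244081], nat_lit 0, nat_lit 0, nat_lit 0, nat_lit 0, nat_lit 0, nat_lit 0, [], [nat_lit 27, nat_lit 40, nat_lit 40, nat_lit 80, nat_lit 13, nat_lit 401, nat_lit 175, nat_lit 11]⟩, ⟨p091_k9, nat_lit 0, nat_lit 0, nat_lit 90, nat_lit 0, nat_lit 0, [nat_lit 3282000000, nat_lit 6250000000, nat_lit 11872000000], [], [nat_lit 12892704892, nat_lit 17617342546, nat_lit 32828033496, nat_lit 35367395048, nat_lit 21824701413,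 nat_lit 26089201414, nat_lit 36147864463, nat_lit 37873628506], nat_lit 0, nat_lit 0, nat_lit 0, nat_lit 0, nat_lit 0, nat_lit 0, [], [nat_lit 23, nat_lit 40, nat_lit 40, nat_lit 80, nat_lit 12, nat_lit 538, nat_lit 300, nat_lit 13]⟩,
 zbF0, [⟨nat_lit 0, nat_lit 90, nat_lit 74, nat_lit 100, nat_lit 81214698⟩, ⟨nat_lit 16, nat_lit 71, nat_lit 100, nat_lit 71, nat_lit 214784332⟩, ⟨nat_lit 19, nat_lit 100, nat_lit 95, nat_lit 87, nat_lit 388724472⟩]⟩
noncomputable def b_V_800_700_10_28 : St := ⟨true, nat_lit 0, nat_lit 0, nat_lit 1, nat_lit 80, nat_lit 320, nat_lit 360, nat_lit 280, nat_lit 320, nat_lit 100, nat_lit 400, nat_lit 40, nat_lit 80, nat_lit 0, nat_lit 260, nat_lit 0, nat_lit 300, nat_lit 80, nat_lit 120, nat_lit 0, nat_lit 0, nat_lit 0, nat_lit 0⟩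
theorem d_V_800_700_10_28 (h : EB TB.env) : Dead b_V_800_700_10_28 := chkB_sound0 h (T :=
(.spl (nat_lit 5) (nat_lit 160)
(.leaf p091_l122)
(.leaf p091_l123))) (by decide +kernel)
noncomputable def p091_l124 : Lf2 := ⟨nat_lit 0, nat_lit 20, [nat_lit 5, nat_lit 5, nat_lit 5, nat_lit 20], false, nat_lit 0, nat_lit 160, nat_lit 0, nat_lit 160, ⟨nat_lit 285, nat_lit 0, nat_lit 715, nat_lit 7, nat_lit 193, nat_lit 715, nat_lit 56, nat_lit 715, nat_lit 29400, nat_lit 257, nat_lit 7971, nat_lit 235, nat_lit 54388864, nat_lit 0, nat_lit 0, nat_lit 2418200, false, false⟩,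
 nat_lit 0, nat_lit 0, nat_lit 3916, nat_lit 0, nat_lit 3382, nat_lit 2492, nat_lit 382, nat_lit 0, nat_lit 0, nat_lit 283, nat_lit 0, nat_lit 0, nat_lit 0, nat_lit 0, nat_lit 0, nat_lit 194350, nat_lit 0, nat_lit 0, [(nat_lit 19, [(nat_lit 4, nat_lit 611), (nat_lit 5, nat_lit 104)])],
 ⟨p091_k17, nat_lit 0, nat_lit 0, nat_lit 193, nat_lit 0, nat_lit 0, [nat_lit 1603457600, nat_lit 1167480400, nat_lit 1177026800], [], [nat_lit 17901808610, nat_lit 19298430832, nat_lit 18508751606, nat_lit 19801090706, nat_lit 17336942318, nat_lit 18469201822, nat_lit 18000793614, nat_lit 19055742960], nat_lit 0, nat_lit 0, nat_lit 0, nat_lit 0, nat_lit 0, nat_lit 0, [], [nat_lit 27, nat_lit 40, nat_lit 40, nat_lit 80, nat_lit 13, nat_lit 317, nat_lit 100, nat_lit 9]⟩, ⟨p091_k9, nat_lit 0, nat_lit 0, nat_lit 566, nat_lit 0, nat_lit 618725, [nat_lit 935370000, nat_lit 1781250000, nat_lit 3383520000], [], [nat_lit 9126903732, nat_lit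 8263716099, nat_lit 7683809821, nat_lit 7910657974, nat_lit 6421076196, nat_lit 6698742695, nat_lit 7526602716, nat_lit 6565852316], nat_lit 1271250, nat_lit 1271250, nat_lit 631250, nat_lit 1100001, nat_lit 0, nat_lit 1100001, [nat_lit 780000, nat_lit 1435000, nat_lit 1271250], [nat_lit 23, nat_lit 40, nat_lit 40, nat_lit 80, nat_lit 12, nat_lit 401, nat_lit 175, nat_lit 10]⟩,
 ⟨nat_lit 3872, nat_lit 4473, ⟨.ofNat (nat_lit 416230), .ofNat (nat_lit 518209), .ofNat (nat_lit 437779), .ofNat (nat_lit 539758), .ofNat (nat_lit 425778), .ofNat (nat_lit 522572), .ofNat (nat_lit 447554), .ofNat (nat_lit 544349)⟩, ⟨.negSucc (nat_lit 12427), .ofNat (nat_lit 259489), .ofNat (nat_lit 0), .ofNat (nat_lit 302621), .ofNat (nat_lit 0), .ofNat (nat_lit 261131), .ofNat (nat_lit 0), .ofNat (nat_lit 304717)⟩⟩, [⟨nat_lit 0, nat_lit 97, nat_lit 82, nat_lit 100, nat_lit 214862681⟩]⟩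
noncomputable def p091_l125 : Lf2 := ⟨nat_lit 0, nat_lit 15, [nat_lit 30, nat_lit 5, nat_lit 5, nat_lit 20], true, nat_lit 0, nat_lit 160, nat_lit 160, nat_lit 276, ⟨nat_lit 0, nat_lit 0, nat_lit 1000, nat_lit 7, nat_lit 193, nat_lit 610, nat_lit 54, nat_lit 1000, nat_lit 26667, nat_lit 255, nat_lit 7971, nat_lit 235, nat_lit 54388864, nat_lit 0, nat_lit 0, nat_lit 2418200, false, false⟩,
 nat_lit 0, nat_lit 0, nat_lit 0, nat_lit 3885, nat_lit 3112, nat_lit 0, nat_lit 0, nat_lit 0, nat_lit 0, nat_lit 0, nat_lit 0, nat_lit 0, nat_lit 0, nat_lit 0, nat_lit 77, nat_lit 250000, nat_lit 0, nat_lit 0, [(nat_lit 19, [(nat_lit 4, nat_lit 1000)])],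
 ⟨p091_k36, nat_lit 0, nat_lit 0, nat_lit 162, nat_lit 0, nat_lit 0, [nat_lit 2134400001, nat_lit 1245200000, nat_lit 52666667], [], [nat_lit 16732521756, nat_lit 18211459024, nat_lit 17609072012, nat_lit 18893787932, nat_lit 16782351196, nat_lit 17966679372, nat_lit 17615161580, nat_lit 18712462524], nat_lit 0, nat_lit 0, nat_lit 0, nat_lit 0, nat_lit 0, nat_lit 0, [], [nat_lit 34, nat_lit 40, nat_lit 40, nat_lit 80, nat_lit 7, nat_lit 317, nat_lit 100, nat_lit 10]⟩, C1.Rw.none,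
 ⟨nat_lit 3872, nat_lit 4473, ⟨.ofNat (nat_lit 416230), .ofNat (nat_lit 518209), .ofNat (nat_lit 437779), .ofNat (nat_lit 539758), .ofNat (nat_lit 425778), .ofNat (nat_lit 522572), .ofNat (nat_lit 447554), .ofNat (nat_lit 544349)⟩, ⟨.negSucc (nat_lit 12427), .ofNat (nat_lit 259489), .ofNat (nat_lit 0), .ofNat (nat_lit 281055), .ofNat (nat_lit 0), .ofNat (nat_lit 261131), .ofNat (nat_lit 0), .ofNat (nat_lit 282924)⟩⟩, []⟩
noncomputable def p091_l126 : Lf2 := ⟨nat_lit 0, nat_lit 20, [nat_lit 5, nat_lit 5, nat_lit 5, nat_lit 20], false, nat_lit 0, nat_lit 160, nat_lit 160, nat_lit 300, ⟨nat_lit 533, nat_lit 0, nat_lit 467, nat_lit 7, nat_lit 193, nat_lit 467, nat_lit 59, nat_lit 467, nat_lit 32267, nat_lit 259, nat_lit 7971, nat_lit 235, nat_lit 54388864, nat_lit 0, nat_lit 0, nat_lit 2418200, false, false⟩,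
 nat_lit 0, nat_lit 0, nat_lit 6803, nat_lit 396, nat_lit 4073, nat_lit 4328, nat_lit 580, nat_lit 0, nat_lit 0, nat_lit 464, nat_lit 0, nat_lit 0, nat_lit 0, nat_lit 0, nat_lit 0, nat_lit 116750, nat_lit 0, nat_lit 0, [(nat_lit 19, [(nat_lit 4, nat_lit 467)])],
 ⟨p091_k17, nat_lit 0, nat_lit 0, nat_lit 193, nat_lit 0, nat_lit 0, [nat_lit 1792148801, nat_lit 2404370000, nat_lit 4267327600], [], [nat_lit 19423410190, nat_lit 20956243023, nat_lit 19874096048, nat_lit 21288645334, nat_lit 17733778153, nat_lit 19018214713, nat_lit 18272094097, nat_lit 19412031809], nat_lit 0, nat_lit 0, nat_lit 0, nat_lit 0, nat_lit 0, nat_lit 0, [], [nat_lit 27, nat_lit 40, nat_lit 40, nat_lit 80, nat_lit 13, nat_lit 317, nat_lit 100, nat_lit 9]⟩, ⟨p091_k9, nat_lit 0, nat_lit 0, nat_lit 332, nat_lit 0, nat_lit 371064, [nat_lit 1749306000, nat_lit 3331250000, nat_lit 6327776000], [], [nat_lit 13923114604, nat_lit 13282032586, nat_lit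 12353688176, nat_lit 12763882706, nat_lit 14079127111, nat_lit 14389589426, nat_lit 13459922056, nat_lit 13862357749], nat_lit 1271250, nat_lit 1271250, nat_lit 631250, nat_lit 1100001, nat_lit 1100001, nat_lit 2298750, [nat_lit 780000, nat_lit 1435000, nat_lit 1271250], [nat_lit 23, nat_lit 40, nat_lit 40, nat_lit 80, nat_lit 12, nat_lit 428, nat_lit 200, nat_lit 11]⟩,
 ⟨nat_lit 3872, nat_lit 4473, ⟨.ofNat (nat_lit 416230), .ofNat (nat_lit 518209), .ofNat (nat_lit 437779), .ofNat (nat_lit 539758), .ofNat (nat_lit 425778), .ofNat (nat_lit 522572), .ofNat (nat_lit 447554), .ofNat (nat_lit 544349)⟩, ⟨.ofNat (nat_lit 0), .ofNat (nat_lit 281055), .ofNat (nat_lit 0), .ofNat (nat_lit 302621), .ofNat (nat_lit 0), .ofNat (nat_lit 282924), .ofNat (nat_lit 0), .ofNat (nat_lit 304717)⟩⟩, [⟨nat_lit 0, nat_lit 97, nat_lit 82, nat_lit 100, nat_lit 397012222⟩, ⟨nat_lit 7, nat_lit 100, nat_lit 97, nat_lit 82, nat_lit 153248220⟩]⟩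
noncomputable def p091_l127 : Lf2 := ⟨nat_lit 0, nat_lit 15, [nat_lit 30, nat_lit 5, nat_lit 5, nat_lit 20], false, nat_lit 0, nat_lit 160, nat_lit 0, nat_lit 276, ⟨nat_lit 1000, nat_lit 0, nat_lit 0, nat_lit 0, nat_lit 0, nat_lit 0, nat_lit 0, nat_lit 0, nat_lit 0, nat_lit 0, nat_lit 0, nat_lit 0, nat_lit 0, nat_lit 0, nat_lit 0, nat_lit 0, false, false⟩,
 nat_lit 0, nat_lit 0, nat_lit 13505, nat_lit 0, nat_lit 6786, nat_lit 8593, nat_lit 0, nat_lit 0, nat_lit 0, nat_lit 657, nat_lit 0, nat_lit 0, nat_lit 0, nat_lit 0, nat_lit 0, nat_lit 0, nat_lit 0, nat_lit 0, [],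
 ⟨p091_k36, nat_lit 0, nat_lit 0, nat_lit 149, nat_lit 0, nat_lit 0, [nat_lit 2032000001, nat_lit 4688000000, nat_lit 7968000000], [], [nat_lit 27787879880, nat_lit 29886586920, nat_lit 30518013896, nat_lit 32298554836, nat_lit 23441994048, nat_lit 25199058240, nat_lit 25785301416, nat_lit 27283334328], nat_lit 0, nat_lit 0, nat_lit 0, nat_lit 0, nat_lit 0, nat_lit 0, [], [nat_lit 34, nat_lit 40, nat_lit 40, nat_lit 80, nat_lit 7, nat_lit 317, nat_lit 100, nat_lit 10]⟩, ⟨p091_k1, nat_lit 0, nat_lit 0, nat_lit 374, nat_lit 0, nat_lit 446955, [nat_lit 3282000000, nat_lit 6250000000, nat_lit 9842000000], [], [nat_lit 33539477852, nat_lit 30323773414, nat_lit 30324643054, nat_lit 31328727312, nat_lit 25339720835, nat_lit 25906703558, nat_lit 34918000980, nat_lit 31120076293], nat_lit 1271250, nat_lit 1271250, nat_lit 1100001, nat_lit 1785000, nat_lit 0, nat_lit 1949250, [nat_lit 780000, nat_lit 1435000, nat_lit 1271250],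 [nat_lit 8, nat_lit 40, nat_lit 40, nat_lit 80, nat_lit 1, nat_lit 373, nat_lit 150, nat_lit 11]⟩,
 zbF0, [⟨nat_lit 7, nat_lit 100, nat_lit 92, nat_lit 68, nat_lit 151439264⟩]⟩
noncomputable def p091_l128 : Lf2 := ⟨nat_lit 0, nat_lit 20, [nat_lit 5, nat_lit 5, nat_lit 5, nat_lit 20], false, nat_lit 0, nat_lit 160, nat_lit 0, nat_lit 300, ⟨nat_lit 923, nat_lit 0, nat_lit 77, nat_lit 7, nat_lit 237, nat_lit 77, nat_lit 59, nat_lit 77, nat_lit 32267, nat_lit 259, nat_lit 58660, nat_lit 200, nat_lit 49609799, nat_lit 0, nat_lit 0, nat_lit 2862955, false, false⟩,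
 nat_lit 0, nat_lit 0, nat_lit 15419, nat_lit 0, nat_lit 5871, nat_lit 9812, nat_lit 829, nat_lit 0, nat_lit 0, nat_lit 514, nat_lit 0, nat_lit 0, nat_lit 0, nat_lit 0, nat_lit 0, nat_lit 14630, nat_lit 0, nat_lit 0, [(nat_lit 19, [(nat_lit 3, nat_lit 77)])],
 ⟨p091_k17, nat_lit 0, nat_lit 0, nat_lit 178, nat_lit 0, nat_lit 0, [nat_lit 3031644800, nat_lit 4320648400, nat_lit 8961304800], [], [nat_lit 22742090421, nat_lit 24473414943, nat_lit 25005256113, nat_lit 26485169139, nat_lit 19040655317, nat_lit 20497393411, nat_lit 21003842741, nat_lit 22260083751], nat_lit 0, nat_lit 0, nat_lit 0, nat_lit 0, nat_lit 0, nat_lit 0, [], [nat_lit 27, nat_lit 40, nat_lit 40, nat_lit 80, nat_lit 13, nat_lit 317, nat_lit 100, nat_lit 9]⟩, ⟨p091_k9, nat_lit 0, nat_lit 0, nat_lit 371, nat_lit 0, nat_lit 282517, [nat_lit 3029286000, nat_lit 5768750000, nat_lit 10957856000], [], [nat_lit 31834010644, nat_lit 31986456472, nat_lit 31916813708,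 nat_lit 32310662770, nat_lit 24735507437, nat_lit 24989584166, nat_lit 32531709608, nat_lit 30379783469], nat_lit 1271250, nat_lit 1271250, nat_lit 1100001, nat_lit 1785000, nat_lit 0, nat_lit 2118750, [nat_lit 780000, nat_lit 1435000, nat_lit 1271250], [nat_lit 23, nat_lit 40, nat_lit 40, nat_lit 80, nat_lit 12, nat_lit 456, nat_lit 225, nat_lit 12]⟩,
 ⟨nat_lit 3872, nat_lit 4473, ⟨.ofNat (nat_lit 518209), .ofNat (nat_lit 654181), .ofNat (nat_lit 528983), .ofNat (nat_lit 664955), .ofNat (nat_lit 522572), .ofNat (nat_lit 651631), .ofNat (nat_lit 533461), .ofNat (nat_lit 662519)⟩, ⟨.ofNat (nat_lit 0), .ofNat (nat_lit 281055), .ofNat (nat_lit 0), .ofNat (nat_lit 302621), .ofNat (nat_lit 0), .ofNat (nat_lit 282924), .ofNat (nat_lit 0), .ofNat (nat_lit 304717)⟩⟩, [⟨nat_lit 7, nat_lit 100, nat_lit 99, nat_lit 83, nat_lit 61001463⟩]⟩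
noncomputable def p091_l129 : Lf2 := ⟨nat_lit 0, nat_lit 20, [nat_lit 5, nat_lit 5, nat_lit 5, nat_lit 20], false, nat_lit 0, nat_lit 160, nat_lit 0, nat_lit 292, ⟨nat_lit 1000, nat_lit 0, nat_lit 0, nat_lit 0, nat_lit 0, nat_lit 0, nat_lit 0, nat_lit 0, nat_lit 0, nat_lit 0, nat_lit 0, nat_lit 0, nat_lit 0, nat_lit 0, nat_lit 0, nat_lit 0, false, false⟩,
 nat_lit 0, nat_lit 0, nat_lit 11569, nat_lit 0, nat_lit 6480, nat_lit 7683, nat_lit 845, nat_lit 0, nat_lit 0, nat_lit 643, nat_lit 0, nat_lit 0, nat_lit 0, nat_lit 0, nat_lit 0, nat_lit 0, nat_lit 0, nat_lit 0, [],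
 ⟨p091_k17, nat_lit 0, nat_lit 0, nat_lit 178, nat_lit 0, nat_lit 0, [nat_lit 2032000001, nat_lit 4688000000, nat_lit 9842000000], [], [nat_lit 23687481105, nat_lit 25526100465, nat_lit 25967974065, nat_lit 27534246945, nat_lit 19290107505, nat_lit 20839076305, nat_lit 21261014705, nat_lit 22586261505], nat_lit 0, nat_lit 0, nat_lit 0, nat_lit 0, nat_lit 0, nat_lit 0, [], [nat_lit 27, nat_lit 40, nat_lit 40, nat_lit 80, nat_lit 13, nat_lit 317, nat_lit 100, nat_lit 9]⟩, ⟨p091_k10, nat_lit 0, nat_lit 0, nat_lit 393, nat_lit 0, nat_lit 341624, [nat_lit 3282000000, nat_lit 6250000000, nat_lit 11872000000], [], [nat_lit 30507686675, nat_lit 29843138117, nat_lit 30966686319, nat_lit 31647019239, nat_lit 27223120509, nat_lit 27602447469, nat_lit 34661404124, nat_lit 32972114871], nat_lit 1271250, nat_lit 1271250, nat_lit 1100001, nat_lit 1785000, nat_lit 0, nat_lit 2062250, [nat_lit 780000, nat_lit 1435000, nat_lit 1271250],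 [nat_lit 23, nat_lit 40, nat_lit 40, nat_lit 80, nat_lit 12, nat_lit 456, nat_lit 225, nat_lit 11]⟩,
 zbF0, [⟨nat_lit 19, nat_lit 94, nat_lit 100, nat_lit 81, nat_lit 184271588⟩]⟩
noncomputable def p091_l130 : Lf2 := ⟨nat_lit 1, nat_lit 20, [nat_lit 5, nat_lit 5, nat_lit 5, nat_lit 20], false, nat_lit 0, nat_lit 160, nat_lit 0, nat_lit 300, zbN0,
 nat_lit 0, nat_lit 0, nat_lit 0, nat_lit 0, nat_lit 0, nat_lit 0, nat_lit 0, nat_lit 0, nat_lit 0, nat_lit 0, nat_lit 0, nat_lit 0, nat_lit 0, nat_lit 0, nat_lit 0, nat_lit 0, nat_lit 0, nat_lit 0, [],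
 C1.Rw.none, C1.Rw.none,
 zbF0, []⟩
noncomputable def p091_l131 : Lf2 := ⟨nat_lit 0, nat_lit 20, [nat_lit 5, nat_lit 5, nat_lit 5, nat_lit 20], false, nat_lit 0, nat_lit 160, nat_lit 0, nat_lit 160, ⟨nat_lit 177, nat_lit 40, nat_lit 783, nat_lit 7, nat_lit 226, nat_lit 823, nat_lit 57, nat_lit 783, nat_lit 30817, nat_lit 258, nat_lit 53738, nat_lit 200, nat_lit 50786481, nat_lit 16213519, nat_lit 0, nat_lit 2766829, false, false⟩,
 nat_lit 0, nat_lit 0, nat_lit 1879, nat_lit 0, nat_lit 2908, nat_lit 1195, nat_lit 0, nat_lit 0, nat_lit 0, nat_lit 134, nat_lit 0, nat_lit 0, nat_lit 0, nat_lit 0, nat_lit 42, nat_lit 289600, nat_lit 0, nat_lit 0, [(nat_lit 22, [(nat_lit 0, nat_lit 40), (nat_lit 4, nat_lit 224), (nat_lit 5, nat_lit 559)])],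
 ⟨p091_k8, nat_lit 0, nat_lit 0, nat_lit 167, nat_lit 0, nat_lit 0, [nat_lit 1637996800, nat_lit 1037452801, nat_lit 37120400], [], [nat_lit 18996191167, nat_lit 20305301177, nat_lit 21803914608, nat_lit 22903267664, nat_lit 19060738866, nat_lit 20179321330, nat_lit 21585890544, nat_lit 22668204400], nat_lit 0, nat_lit 0, nat_lit 0, nat_lit 0, nat_lit 0, nat_lit 0, [], [nat_lit 34, nat_lit 40, nat_lit 40, nat_lit 80, nat_lit 7, nat_lit 317, nat_lit 100, nat_lit 10]⟩, ⟨p091_k9, nat_lit 0, nat_lit 0, nat_lit 669, nat_lit 0, nat_lit 814120, [nat_lit 580914000, nat_lit 1106250000, nat_lit 2101344000], [], [nat_lit 6921786542, nat_lit 6606341198, nat_lit 6427715620, nat_lit 6465229812, nat_lit 5700790422, nat_lit 5740292302, nat_lit 5676313920, nat_lit 5706811277], nat_lit 1271250, nat_lit 1271250, nat_lit 810650, nat_lit 1764750, nat_lit 0, nat_lit 1100001, [nat_lit 780000, nat_lit 1435000, nat_lit 1271250], [nat_lit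 23, nat_lit 40, nat_lit 40, nat_lit 80, nat_lit 12, nat_lit 401, nat_lit 175, nat_lit 10]⟩,
 ⟨nat_lit 3162, nat_lit 3873, ⟨.ofNat (nat_lit 464406), .ofNat (nat_lit 651611), .ofNat (nat_lit 475288), .ofNat (nat_lit 662494), .ofNat (nat_lit 472632), .ofNat (nat_lit 649490), .ofNat (nat_lit 483694), .ofNat (nat_lit 660553)⟩, ⟨.ofNat (nat_lit 0), .ofNat (nat_lit 261131), .ofNat (nat_lit 0), .ofNat (nat_lit 304717), .ofNat (nat_lit 0), .ofNat (nat_lit 261806), .ofNat (nat_lit 0), .ofNat (nat_lit 306116)⟩⟩, []⟩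
noncomputable def p091_l132 : Lf2 := ⟨nat_lit 0, nat_lit 20, [nat_lit 5, nat_lit 5, nat_lit 5, nat_lit 20], false, nat_lit 0, nat_lit 160, nat_lit 0, nat_lit 160, ⟨nat_lit 202, nat_lit 0, nat_lit 798, nat_lit 7, nat_lit 233, nat_lit 798, nat_lit 57, nat_lit 798, nat_lit 30817, nat_lit 258, nat_lit 75502, nat_lit 200, nat_lit 50035875, nat_lit 0, nat_lit 0, nat_lit 2829094, false, false⟩,
 nat_lit 0, nat_lit 0, nat_lit 2071, nat_lit 0, nat_lit 2905, nat_lit 1375, nat_lit 0, nat_lit 0, nat_lit 0, nat_lit 162, nat_lit 0, nat_lit 0, nat_lit 0, nat_lit 0, nat_lit 42, nat_lit 290550, nat_lit 0, nat_lit 0, [(nat_lit 22, [(nat_lit 4, nat_lit 191), (nat_lit 5, nat_lit 607)])],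
 ⟨p091_k8, nat_lit 0, nat_lit 0, nat_lit 166, nat_lit 0, nat_lit 0, [nat_lit 1623715201, nat_lit 1050722801, nat_lit 30403600], [], [nat_lit 19109901184, nat_lit 20409464731, nat_lit 21784173581, nat_lit 22897356740, nat_lit 19168820379, nat_lit 20275441779, nat_lit 21575530483, nat_lit 22630578103], nat_lit 0, nat_lit 0, nat_lit 0, nat_lit 0, nat_lit 0, nat_lit 0, [], [nat_lit 34, nat_lit 40, nat_lit 40, nat_lit 80, nat_lit 7, nat_lit 317, nat_lit 100, nat_lit 10]⟩, ⟨p091_k10, nat_lit 0, nat_lit 0, nat_lit 673, nat_lit 0, nat_lit 837166, [nat_lit 662964000, nat_lit 1262500000, nat_lit 2398144000], [], [nat_lit 7109784450, nat_lit 6747918824, nat_lit 6586143719, nat_lit 6646018428, nat_lit 5763005104, nat_lit 5810061757, nat_lit 5802517153, nat_lit 5853945418], nat_lit 1271250, nat_lit 1271250, nat_lit 872850, nat_lit 1769250, nat_lit 0, nat_lit 1100001, [nat_lit 780000, nat_lit 1435000, nat_lit 1271250], [nat_lit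 23, nat_lit 40, nat_lit 40, nat_lit 80, nat_lit 12, nat_lit 401, nat_lit 175, nat_lit 10]⟩,
 ⟨nat_lit 3162, nat_lit 3873, ⟨.ofNat (nat_lit 488199), .ofNat (nat_lit 662494), .ofNat (nat_lit 499081), .ofNat (nat_lit 673376), .ofNat (nat_lit 495892), .ofNat (nat_lit 660553), .ofNat (nat_lit 506955), .ofNat (nat_lit 671616)⟩, ⟨.ofNat (nat_lit 0), .ofNat (nat_lit 261131), .ofNat (nat_lit 0), .ofNat (nat_lit 304717), .ofNat (nat_lit 0), .ofNat (nat_lit 261806), .ofNat (nat_lit 0), .ofNat (nat_lit 306116)⟩⟩, []⟩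
noncomputable def p091_l133 : Lf2 := ⟨nat_lit 0, nat_lit 15, [nat_lit 30, nat_lit 5, nat_lit 5, nat_lit 20], false, nat_lit 0, nat_lit 160, nat_lit 160, nat_lit 276, ⟨nat_lit 246, nat_lit 0, nat_lit 754, nat_lit 7, nat_lit 226, nat_lit 754, nat_lit 54, nat_lit 754, nat_lit 28017, nat_lit 256, nat_lit 53738, nat_lit 200, nat_lit 50786481, nat_lit 0, nat_lit 0, nat_lit 2766829, false, false⟩,
 nat_lit 0, nat_lit 0, nat_lit 2449, nat_lit 0, nat_lit 3096, nat_lit 1558, nat_lit 0, nat_lit 0, nat_lit 0, nat_lit 166, nat_lit 0, nat_lit 0, nat_lit 0, nat_lit 0, nat_lit 31, nat_lit 301600, nat_lit 0, nat_lit 0, [(nat_lit 22, [(nat_lit 5, nat_lit 754)])],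
 ⟨p091_k0, nat_lit 0, nat_lit 0, nat_lit 167, nat_lit 0, nat_lit 0, [nat_lit 1483776000, nat_lit 1041222400, nat_lit 20806667], [], [nat_lit 19258484363, nat_lit 20682598779, nat_lit 22070749563, nat_lit 23273685568, nat_lit 18979149695, nat_lit 20127945263, nat_lit 21491610395, nat_lit 22454533003], nat_lit 0, nat_lit 0, nat_lit 0, nat_lit 0, nat_lit 0, nat_lit 0, [], [nat_lit 34, nat_lit 40, nat_lit 40, nat_lit 80, nat_lit 7, nat_lit 317, nat_lit 100, nat_lit 10]⟩, ⟨p091_k1, nat_lit 0, nat_lit 0, nat_lit 362, nat_lit 0, nat_lit 636077, [nat_lit 807372000, nat_lit 1537500000, nat_lit 2421132000], [], [nat_lit 6564284182, nat_lit 6680231493, nat_lit 6899736276, nat_lit 6992594962, nat_lit 7203469047, nat_lit 7293124363, nat_lit 7802631822, nat_lit 7444712715], nat_lit 1271250, nat_lit 1271250, nat_lit 810650, nat_lit 1764750, nat_lit 1100001, nat_lit 2093250, [nat_lit 780000, nat_lit 1435000, nat_lit 1271250], [nat_lit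 8, nat_lit 40, nat_lit 40, nat_lit 80, nat_lit 1, nat_lit 373, nat_lit 150, nat_lit 10]⟩,
 ⟨nat_lit 3162, nat_lit 3873, ⟨.ofNat (nat_lit 464406), .ofNat (nat_lit 651611), .ofNat (nat_lit 475288), .ofNat (nat_lit 662494), .ofNat (nat_lit 472632), .ofNat (nat_lit 649490), .ofNat (nat_lit 483694), .ofNat (nat_lit 660553)⟩, ⟨.ofNat (nat_lit 0), .ofNat (nat_lit 261131), .ofNat (nat_lit 0), .ofNat (nat_lit 282924), .ofNat (nat_lit 0), .ofNat (nat_lit 261806), .ofNat (nat_lit 0), .ofNat (nat_lit 283961)⟩⟩, [⟨nat_lit 0, nat_lit 91, nat_lit 61, nat_lit 100, nat_lit 14459545⟩, ⟨nat_lit 7, nat_lit 100, nat_lit 94, nat_lit 69, nat_lit 122023002⟩]⟩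
noncomputable def p091_l134 : Lf2 := ⟨nat_lit 0, nat_lit 20, [nat_lit 5, nat_lit 5, nat_lit 5, nat_lit 20], false, nat_lit 0, nat_lit 160, nat_lit 160, nat_lit 300, ⟨nat_lit 209, nat_lit 0, nat_lit 791, nat_lit 7, nat_lit 226, nat_lit 764, nat_lit 59, nat_lit 791, nat_lit 32267, nat_lit 259, nat_lit 53738, nat_lit 200, nat_lit 50786481, nat_lit 0, nat_lit 0, nat_lit 2766829, false, false⟩,
 nat_lit 0, nat_lit 0, nat_lit 2554, nat_lit 0, nat_lit 2784, nat_lit 1625, nat_lit 0, nat_lit 0, nat_lit 0, nat_lit 191, nat_lit 0, nat_lit 0, nat_lit 0, nat_lit 0, nat_lit 49, nat_lit 316400, nat_lit 0, nat_lit 0, [(nat_lit 22, [(nat_lit 5, nat_lit 791)])],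
 ⟨p091_k8, nat_lit 0, nat_lit 0, nat_lit 167, nat_lit 0, nat_lit 0, [nat_lit 1588704001, nat_lit 1125929600, nat_lit 30143334], [], [nat_lit 18763285483, nat_lit 20047273515, nat_lit 21575616119, nat_lit 22658949472, nat_lit 18953973124, nat_lit 20052627796, nat_lit 21615923986, nat_lit 22604190882], nat_lit 0, nat_lit 0, nat_lit 0, nat_lit 0, nat_lit 0, nat_lit 0, [], [nat_lit 34, nat_lit 40, nat_lit 40, nat_lit 80, nat_lit 7, nat_lit 317, nat_lit 100, nat_lit 10]⟩, ⟨p091_k9, nat_lit 0, nat_lit 0, nat_lit 387, nat_lit 0, nat_lit 556118, [nat_lit 685938000, nat_lit 1306250000, nat_lit 2481248000], [], [nat_lit 4855086547, nat_lit 4939355403, nat_lit 4912963958, nat_lit 4978660062, nat_lit 5383491671, nat_lit 5466232135, nat_lit 5439063722, nat_lit 5503471023], nat_lit 1271250, nat_lit 1271250, nat_lit 810650, nat_lit 1764750, nat_lit 1271250, nat_lit 1271250, [nat_lit 780000, nat_lit 1435000, nat_lit 1271250], [nat_lit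 23, nat_lit 40, nat_lit 40, nat_lit 80, nat_lit 12, nat_lit 456, nat_lit 225, nat_lit 11]⟩,
 ⟨nat_lit 3162, nat_lit 3873, ⟨.ofNat (nat_lit 464406), .ofNat (nat_lit 651611), .ofNat (nat_lit 475288), .ofNat (nat_lit 662494), .ofNat (nat_lit 472632), .ofNat (nat_lit 649490), .ofNat (nat_lit 483694), .ofNat (nat_lit 660553)⟩, ⟨.ofNat (nat_lit 0), .ofNat (nat_lit 282924), .ofNat (nat_lit 0), .ofNat (nat_lit 304717), .ofNat (nat_lit 0), .ofNat (nat_lit 283961), .ofNat (nat_lit 0), .ofNat (nat_lit 306116)⟩⟩, [⟨nat_lit 0, nat_lit 91, nat_lit 61, nat_lit 100, nat_lit 1726318⟩, ⟨nat_lit 7, nat_lit 100, nat_lit 99, nat_lit 83, nat_lit 78820433⟩]⟩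
noncomputable def p091_l135 : Lf2 := ⟨nat_lit 0, nat_lit 20, [nat_lit 5, nat_lit 5, nat_lit 5, nat_lit 20], false, nat_lit 0, nat_lit 160, nat_lit 160, nat_lit 292, ⟨nat_lit 225, nat_lit 0, nat_lit 775, nat_lit 7, nat_lit 232, nat_lit 775, nat_lit 57, nat_lit 775, nat_lit 30817, nat_lit 258, nat_lit 64620, nat_lit 200, nat_lit 50155247, nat_lit 0, nat_lit 0, nat_lit 2819416, false, false⟩,
 nat_lit 0, nat_lit 0, nat_lit 2143, nat_lit 0, nat_lit 3159, nat_lit 1423, nat_lit 0, nat_lit 0, nat_lit 0, nat_lit 182, nat_lit 0, nat_lit 0, nat_lit 0, nat_lit 0, nat_lit 9, nat_lit 222850, nat_lit 0, nat_lit 0, [(nat_lit 22, [(nat_lit 4, nat_lit 581), (nat_lit 5, nat_lit 194)])],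
 ⟨p091_k8, nat_lit 0, nat_lit 0, nat_lit 166, nat_lit 0, nat_lit 0, [nat_lit 1584931201, nat_lit 802754001, nat_lit 7984267], [], [nat_lit 20002916088, nat_lit 21347912794, nat_lit 22672512752, nat_lit 23802263611, nat_lit 19803645097, nat_lit 20950428977, nat_lit 22191539080, nat_lit 23162024712], nat_lit 0, nat_lit 0, nat_lit 0, nat_lit 0, nat_lit 0, nat_lit 0, [], [nat_lit 34, nat_lit 40, nat_lit 40, nat_lit 80, nat_lit 7, nat_lit 317, nat_lit 100, nat_lit 10]⟩, ⟨p091_k10, nat_lit 0, nat_lit 0, nat_lit 527, nat_lit 0, nat_lit 800547, [nat_lit 738450000, nat_lit 1406250000, nat_lit 2671200000], [], [nat_lit 6376343198, nat_lit 6408526804, nat_lit 6441422766, nat_lit 6468091606, nat_lit 6704061335, nat_lit 6727442485, nat_lit 7048283680, nat_lit 6885691379], nat_lit 1271250, nat_lit 1271250, nat_lit 872850, nat_lit 1769250, nat_lit 1100001, nat_lit 2230250, [nat_lit 780000, nat_lit 1435000, nat_lit 1271250], [nat_lit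 23, nat_lit 40, nat_lit 40, nat_lit 80, nat_lit 12, nat_lit 456, nat_lit 225, nat_lit 11]⟩,
 ⟨nat_lit 3162, nat_lit 3873, ⟨.ofNat (nat_lit 488199), .ofNat (nat_lit 662494), .ofNat (nat_lit 493640), .ofNat (nat_lit 667935), .ofNat (nat_lit 495892), .ofNat (nat_lit 660553), .ofNat (nat_lit 501423), .ofNat (nat_lit 666085)⟩, ⟨.ofNat (nat_lit 0), .ofNat (nat_lit 261131), .ofNat (nat_lit 0), .ofNat (nat_lit 304717), .ofNat (nat_lit 0), .ofNat (nat_lit 261806), .ofNat (nat_lit 0), .ofNat (nat_lit 306116)⟩⟩, [⟨nat_lit 7, nat_lit 100, nat_lit 93, nat_lit 75, nat_lit 87503532⟩]⟩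
noncomputable def p091_l136 : Lf2 := ⟨nat_lit 0, nat_lit 20, [nat_lit 5, nat_lit 5, nat_lit 5, nat_lit 20], false, nat_lit 0, nat_lit 160, nat_lit 160, nat_lit 284, ⟨nat_lit 242, nat_lit 0, nat_lit 758, nat_lit 7, nat_lit 237, nat_lit 758, nat_lit 57, nat_lit 758, nat_lit 30817, nat_lit 258, nat_lit 75502, nat_lit 200, nat_lit 49643418, nat_lit 0, nat_lit 0, nat_lit 2860321, false, false⟩,
 nat_lit 0, nat_lit 0, nat_lit 2348, nat_lit 0, nat_lit 3064, nat_lit 1592, nat_lit 0, nat_lit 0, nat_lit 0, nat_lit 203, nat_lit 0, nat_lit 0, nat_lit 0, nat_lit 0, nat_lit 33, nat_lit 303200, nat_lit 0, nat_lit 0, [(nat_lit 22, [(nat_lit 5, nat_lit 758)])],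
 ⟨p091_k8, nat_lit 0, nat_lit 0, nat_lit 164, nat_lit 0, nat_lit 0, [nat_lit 1495552000, nat_lit 1051244800, nat_lit 23113334], [], [nat_lit 19446194294, nat_lit 20832716134, nat_lit 22011730598, nat_lit 23210635712, nat_lit 19218052662, nat_lit 20337924710, nat_lit 21488628486, nat_lit 22447709558], nat_lit 0, nat_lit 0, nat_lit 0, nat_lit 0, nat_lit 0, nat_lit 0, [], [nat_lit 34, nat_lit 40, nat_lit 40, nat_lit 80, nat_lit 7, nat_lit 317, nat_lit 100, nat_lit 10]⟩, ⟨p091_k16, nat_lit 0, nat_lit 0, nat_lit 529, nat_lit 0, nat_lit 812246, [nat_lit 794244000, nat_lit 1512500000, nat_lit 2873024000], [], [nat_lit 6129345089, nat_lit 6175588464, nat_lit 6343784189, nat_lit 6382263178, nat_lit 6634589038, nat_lit 6669990209, nat_lit 7065029560, nat_lit 6882645941], nat_lit 1271250, nat_lit 1271250, nat_lit 936251, nat_lit 1773750, nat_lit 1100001, nat_lit 2161750, [nat_lit 780000, nat_lit 1435000, nat_lit 1271250], [nat_lit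 23, nat_lit 40, nat_lit 40, nat_lit 80, nat_lit 12, nat_lit 456, nat_lit 225, nat_lit 11]⟩,
 ⟨nat_lit 3162, nat_lit 3873, ⟨.ofNat (nat_lit 506551), .ofNat (nat_lit 667935), .ofNat (nat_lit 511992), .ofNat (nat_lit 673376), .ofNat (nat_lit 513621), .ofNat (nat_lit 666085), .ofNat (nat_lit 519152), .ofNat (nat_lit 671616)⟩, ⟨.ofNat (nat_lit 0), .ofNat (nat_lit 261131), .ofNat (nat_lit 0), .ofNat (nat_lit 304717), .ofNat (nat_lit 0), .ofNat (nat_lit 261806), .ofNat (nat_lit 0), .ofNat (nat_lit 306116)⟩⟩, [⟨nat_lit 7, nat_lit 100, nat_lit 91, nat_lit 74, nat_lit 107345795⟩]⟩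
noncomputable def p091_l137 : Lf2 := ⟨nat_lit 0, nat_lit 20, [nat_lit 5, nat_lit 5, nat_lit 5, nat_lit 20], false, nat_lit 0, nat_lit 160, nat_lit 0, nat_lit 160, ⟨nat_lit 1000, nat_lit 0, nat_lit 0, nat_lit 0, nat_lit 0, nat_lit 0, nat_lit 0, nat_lit 0, nat_lit 0, nat_lit 0, nat_lit 0, nat_lit 0, nat_lit 0, nat_lit 0, nat_lit 0, nat_lit 0, false, false⟩,
 nat_lit 0, nat_lit 0, nat_lit 9906, nat_lit 0, nat_lit 6582, nat_lit 6857, nat_lit 876, nat_lit 0, nat_lit 0, nat_lit 943, nat_lit 0, nat_lit 0, nat_lit 0, nat_lit 0, nat_lit 0, nat_lit 0, nat_lit 0, nat_lit 0, [],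
 ⟨p091_k17, nat_lit 0, nat_lit 0, nat_lit 180, nat_lit 0, nat_lit 0, [nat_lit 2032000001, nat_lit 4688000000, nat_lit 9842000000], [], [nat_lit 23214463004, nat_lit 24202700708, nat_lit 25698598396, nat_lit 26489403334, nat_lit 18683208900, nat_lit 19515119584, nat_lit 20873468772, nat_lit 21541870982], nat_lit 0, nat_lit 0, nat_lit 0, nat_lit 0, nat_lit 0, nat_lit 0, [], [nat_lit 27, nat_lit 40, nat_lit 40, nat_lit 80, nat_lit 13, nat_lit 317, nat_lit 100, nat_lit 9]⟩, ⟨p091_k18, nat_lit 0, nat_lit 0, nat_lit 487, nat_lit 0, nat_lit 603354, [nat_lit 3282000000, nat_lit 6250000000, nat_lit 9842000000], [], [nat_lit 29472895202, nat_lit 26107123457, nat_lit 26336430194, nat_lit 27210583856, nat_lit 21476090322, nat_lit 22185282888, nat_lit 31513647238, nat_lit 28448568238], nat_lit 1271250, nat_lit 1271250, nat_lit 780000, nat_lit 1762500, nat_lit 0, nat_lit 1100001, [nat_lit 780000, nat_lit 1435000, nat_lit 1271250],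 [nat_lit 8, nat_lit 40, nat_lit 40, nat_lit 80, nat_lit 1, nat_lit 317, nat_lit 100, nat_lit 9]⟩,
 zbF0, [⟨nat_lit 0, nat_lit 88, nat_lit 82, nat_lit 100, nat_lit 165112007⟩]⟩
noncomputable def p091_l138 : Lf2 := ⟨nat_lit 0, nat_lit 20, [nat_lit 5, nat_lit 5, nat_lit 5, nat_lit 20], false, nat_lit 0, nat_lit 160, nat_lit 0, nat_lit 160, ⟨nat_lit 1000, nat_lit 0, nat_lit 0, nat_lit 0, nat_lit 0, nat_lit 0, nat_lit 0, nat_lit 0, nat_lit 0, nat_lit 0, nat_lit 0, nat_lit 0, nat_lit 0, nat_lit 0, nat_lit 0, nat_lit 0, false, false⟩,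
 nat_lit 0, nat_lit 0, nat_lit 9615, nat_lit 0, nat_lit 5709, nat_lit 6656, nat_lit 1013, nat_lit 0, nat_lit 0, nat_lit 778, nat_lit 0, nat_lit 0, nat_lit 0, nat_lit 0, nat_lit 0, nat_lit 0, nat_lit 0, nat_lit 0, [],
 ⟨p091_k19, nat_lit 0, nat_lit 0, nat_lit 184, nat_lit 0, nat_lit 0, [nat_lit 2032000001, nat_lit 4688000000, nat_lit 9842000000], [], [nat_lit 21450020409, nat_lit 22772675612, nat_lit 25092658333, nat_lit 26202472346, nat_lit 17782038456, nat_lit 18535102852, nat_lit 20690471961, nat_lit 21515551980], nat_lit 0, nat_lit 0, nat_lit 0, nat_lit 0, nat_lit 0, nat_lit 0, [], [nat_lit 27, nat_lit 40, nat_lit 40, nat_lit 80, nat_lit 13, nat_lit 317, nat_lit 100, nat_lit 9]⟩, ⟨p091_k18, nat_lit 0, nat_lit 0, nat_lit 522, nat_lit 0, nat_lit 708648, [nat_lit 3282000000, nat_lit 6250000000, nat_lit 9842000000], [], [nat_lit 32579106114, nat_lit 30330469902, nat_lit 30155994820, nat_lit 30700455940, nat_lit 26056264936,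 nat_lit 26560859185, nat_lit 26464933566, nat_lit 26987280056], nat_lit 1271250, nat_lit 1271250, nat_lit 872850, nat_lit 1769250, nat_lit 0, nat_lit 1100001, [nat_lit 780000, nat_lit 1435000, nat_lit 1271250], [nat_lit 8, nat_lit 40, nat_lit 40, nat_lit 80, nat_lit 1, nat_lit 317, nat_lit 100, nat_lit 9]⟩,
 zbF0, [⟨nat_lit 0, nat_lit 81, nat_lit 72, nat_lit 100, nat_lit 541043496⟩]⟩
noncomputable def p091_l139 : Lf2 := ⟨nat_lit 0, nat_lit 20, [nat_lit 5, nat_lit 5, nat_lit 5, nat_lit 20], false, nat_lit 0, nat_lit 160, nat_lit 160, nat_lit 280, ⟨nat_lit 1000, nat_lit 0, nat_lit 0, nat_lit 0, nat_lit 0, nat_lit 0, nat_lit 0, nat_lit 0, nat_lit 0, nat_lit 0, nat_lit 0, nat_lit 0, nat_lit 0, nat_lit 0, nat_lit 0, nat_lit 0, false, false⟩,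
 nat_lit 0, nat_lit 0, nat_lit 9350, nat_lit 0, nat_lit 6582, nat_lit 6472, nat_lit 876, nat_lit 0, nat_lit 0, nat_lit 974, nat_lit 0, nat_lit 0, nat_lit 0, nat_lit 0, nat_lit 0, nat_lit 0, nat_lit 0, nat_lit 0, [],
 ⟨p091_k17, nat_lit 0, nat_lit 0, nat_lit 180, nat_lit 0, nat_lit 0, [nat_lit 2032000001, nat_lit 4688000000, nat_lit 9842000000], [], [nat_lit 23214463004, nat_lit 24202700708, nat_lit 25698598396, nat_lit 26489403334, nat_lit 18683208900, nat_lit 19515119584, nat_lit 20873468772, nat_lit 21541870982], nat_lit 0, nat_lit 0, nat_lit 0, nat_lit 0, nat_lit 0, nat_lit 0, [], [nat_lit 27, nat_lit 40, nat_lit 40, nat_lit 80, nat_lit 13, nat_lit 317, nat_lit 100, nat_lit 9]⟩, ⟨p091_k18, nat_lit 0, nat_lit 0, nat_lit 357, nat_lit 0, nat_lit 603354, [nat_lit 3282000000, nat_lit 6250000000, nat_lit 9842000000], [], [nat_lit 20504724950, nat_lit 21412288376, nat_lit 22185663796, nat_lit 23055284180, nat_lit 23496828588,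 nat_lit 24337526612, nat_lit 27140725328, nat_lit 25660744580], nat_lit 1271250, nat_lit 1271250, nat_lit 780000, nat_lit 1762500, nat_lit 1100001, nat_lit 2127500, [nat_lit 780000, nat_lit 1435000, nat_lit 1271250], [nat_lit 8, nat_lit 40, nat_lit 40, nat_lit 80, nat_lit 1, nat_lit 373, nat_lit 150, nat_lit 10]⟩,
 zbF0, [⟨nat_lit 0, nat_lit 82, nat_lit 78, nat_lit 100, nat_lit 437653032⟩, ⟨nat_lit 7, nat_lit 100, nat_lit 85, nat_lit 73, nat_lit 542657471⟩]⟩
noncomputable def p091_l140 : Lf2 := ⟨nat_lit 0, nat_lit 20, [nat_lit 5, nat_lit 5, nat_lit 5, nat_lit 20], false, nat_lit 0, nat_lit 160, nat_lit 160, nat_lit 280, ⟨nat_lit 1000, nat_lit 0, nat_lit 0, nat_lit 0, nat_lit 0, nat_lit 0, nat_lit 0, nat_lit 0, nat_lit 0, nat_lit 0, nat_lit 0, nat_lit 0, nat_lit 0, nat_lit 0, nat_lit 0, nat_lit 0, false, false⟩,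
 nat_lit 0, nat_lit 0, nat_lit 9645, nat_lit 0, nat_lit 5748, nat_lit 6677, nat_lit 907, nat_lit 0, nat_lit 0, nat_lit 928, nat_lit 0, nat_lit 0, nat_lit 0, nat_lit 0, nat_lit 0, nat_lit 0, nat_lit 0, nat_lit 0, [],
 ⟨p091_k19, nat_lit 0, nat_lit 0, nat_lit 184, nat_lit 0, nat_lit 0, [nat_lit 2032000001, nat_lit 4688000000, nat_lit 9842000000], [], [nat_lit 22630503414, nat_lit 23522981373, nat_lit 25155055876, nat_lit 26269684712, nat_lit 18917348572, nat_lit 19671632517, nat_lit 20966414848, nat_lit 21587566788], nat_lit 0, nat_lit 0, nat_lit 0, nat_lit 0, nat_lit 0, nat_lit 0, [], [nat_lit 27, nat_lit 40, nat_lit 40, nat_lit 80, nat_lit 13, nat_lit 317, nat_lit 100, nat_lit 9]⟩, ⟨p091_k18, nat_lit 0, nat_lit 0, nat_lit 430, nat_lit 0, nat_lit 708648, [nat_lit 3282000000, nat_lit 6250000000, nat_lit 9842000000], [], [nat_lit 22052951661, nat_lit 22836491251, nat_lit 23369391544, nat_lit 24134269552, nat_lit 24601644555,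 nat_lit 25400592711, nat_lit 27175317655, nat_lit 26188219160], nat_lit 1271250, nat_lit 1271250, nat_lit 872850, nat_lit 1769250, nat_lit 1100001, nat_lit 2127500, [nat_lit 780000, nat_lit 1435000, nat_lit 1271250], [nat_lit 8, nat_lit 40, nat_lit 40, nat_lit 80, nat_lit 1, nat_lit 373, nat_lit 150, nat_lit 10]⟩,
 zbF0, [⟨nat_lit 0, nat_lit 81, nat_lit 72, nat_lit 100, nat_lit 528358746⟩, ⟨nat_lit 7, nat_lit 100, nat_lit 85, nat_lit 73, nat_lit 518429247⟩]⟩
noncomputable def p091_l141 : Lf2 := ⟨nat_lit 0, nat_lit 20, [nat_lit 5, nat_lit 5, nat_lit 5, nat_lit 20], false, nat_lit 0, nat_lit 160, nat_lit 0, nat_lit 280, ⟨nat_lit 187, nat_lit 0, nat_lit 813, nat_lit 7, nat_lit 229, nat_lit 813, nat_lit 57, nat_lit 813, nat_lit 30817, nat_lit 258, nat_lit 3223, nat_lit 205, nat_lit 50514418, nat_lit 0, nat_lit 0, nat_lit 2789787, false, false⟩,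
 nat_lit 0, nat_lit 0, nat_lit 1887, nat_lit 0, nat_lit 2861, nat_lit 1306, nat_lit 0, nat_lit 0, nat_lit 0, nat_lit 146, nat_lit 0, nat_lit 0, nat_lit 0, nat_lit 0, nat_lit 57, nat_lit 317550, nat_lit 0, nat_lit 0, [(nat_lit 22, [(nat_lit 4, nat_lit 51), (nat_lit 5, nat_lit 762)])],
 ⟨p091_k8, nat_lit 0, nat_lit 0, nat_lit 163, nat_lit 0, nat_lit 0, [nat_lit 1655747201, nat_lit 1153146800, nat_lit 37109600], [], [nat_lit 18887851694, nat_lit 20198035052, nat_lit 20133039941, nat_lit 21338043936, nat_lit 18978426123, nat_lit 20061042641, nat_lit 20107031759, nat_lit 21105854373], nat_lit 0, nat_lit 0, nat_lit 0, nat_lit 0, nat_lit 0, nat_lit 0, [], [nat_lit 34, nat_lit 40, nat_lit 40, nat_lit 80, nat_lit 7, nat_lit 317, nat_lit 100, nat_lit 10]⟩, ⟨p091_k18, nat_lit 0, nat_lit 0, nat_lit 604, nat_lit 0, nat_lit 860326, [nat_lit 613734000, nat_lit 1168750000, nat_lit 1840454000], [], [nat_lit 5721832469, nat_lit 5413678830,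 nat_lit 5360827304, nat_lit 5417428264, nat_lit 4861647787, nat_lit 4907984831, nat_lit 5196691588, nat_lit 4911374707], nat_lit 1271250, nat_lit 1271250, nat_lit 968401, nat_lit 1439500, nat_lit 0, nat_lit 1977500, [nat_lit 780000, nat_lit 1435000, nat_lit 1271250], [nat_lit 8, nat_lit 40, nat_lit 40, nat_lit 80, nat_lit 1, nat_lit 345, nat_lit 125, nat_lit 10]⟩,
 ⟨nat_lit 3162, nat_lit 3873, ⟨.ofNat (nat_lit 518447), .ofNat (nat_lit 608822), .ofNat (nat_lit 529329), .ofNat (nat_lit 619705), .ofNat (nat_lit 525251), .ofNat (nat_lit 610630), .ofNat (nat_lit 536314), .ofNat (nat_lit 621694)⟩, ⟨.ofNat (nat_lit 0), .ofNat (nat_lit 261131), .ofNat (nat_lit 0), .ofNat (nat_lit 304717), .ofNat (nat_lit 0), .ofNat (nat_lit 261806), .ofNat (nat_lit 0), .ofNat (nat_lit 306116)⟩⟩, [⟨nat_lit 0, nat_lit 84, nat_lit 60, nat_lit 100, nat_lit 21396247⟩, ⟨nat_lit 7, nat_lit 100, nat_lit 88, nat_lit 74, nat_lit 36509192⟩]⟩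
noncomputable def p091_l142 : Lf2 := ⟨nat_lit 0, nat_lit 20, [nat_lit 5, nat_lit 5, nat_lit 5, nat_lit 20], false, nat_lit 0, nat_lit 160, nat_lit 0, nat_lit 268, ⟨nat_lit 341, nat_lit 0, nat_lit 659, nat_lit 7, nat_lit 237, nat_lit 659, nat_lit 57, nat_lit 659, nat_lit 30817, nat_lit 258, nat_lit 6920, nat_lit 202, nat_lit 49627269, nat_lit 0, nat_lit 0, nat_lit 2861587, false, false⟩,
 nat_lit 0, nat_lit 0, nat_lit 3172, nat_lit 0, nat_lit 3338, nat_lit 2286, nat_lit 0, nat_lit 0, nat_lit 0, nat_lit 324, nat_lit 0, nat_lit 0, nat_lit 0, nat_lit 0, nat_lit 31, nat_lit 387200, nat_lit 0, nat_lit 0, [(nat_lit 22, [(nat_lit 5, nat_lit 453), (nat_lit 6, nat_lit 206)])],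
 ⟨p091_k8, nat_lit 0, nat_lit 0, nat_lit 161, nat_lit 0, nat_lit 0, [nat_lit 1538940801, nat_lit 1241748000, nat_lit 29906800], [], [nat_lit 19855047253, nat_lit 21266624764, nat_lit 20889849048, nat_lit 22235078688, nat_lit 19173179612, nat_lit 20310468340, nat_lit 20098510365, nat_lit 21161715577], nat_lit 0, nat_lit 0, nat_lit 0, nat_lit 0, nat_lit 0, nat_lit 0, [], [nat_lit 34, nat_lit 40, nat_lit 40, nat_lit 80, nat_lit 7, nat_lit 317, nat_lit 100, nat_lit 10]⟩, ⟨p091_k20, nat_lit 0, nat_lit 0, nat_lit 608, nat_lit 0, nat_lit 883303, [nat_lit 1119162000, nat_lit 2131250000, nat_lit 3356122000], [], [nat_lit 8669423464, nat_lit 8328272053, nat_lit 8319827571, nat_lit 8435702884, nat_lit 7689054549, nat_lit 7770147704, nat_lit 8303336374, nat_lit 7790384150], nat_lit 1271250, nat_lit 1271250, nat_lit 1066650, nat_lit 1441750, nat_lit 0, nat_lit 1892750, [nat_lit 780000, nat_lit 1435000, nat_lit 1271250], [nat_lit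 8, nat_lit 40, nat_lit 40, nat_lit 80, nat_lit 1, nat_lit 345, nat_lit 125, nat_lit 10]⟩,
 ⟨nat_lit 3162, nat_lit 3873, ⟨.ofNat (nat_lit 548695), .ofNat (nat_lit 619705), .ofNat (nat_lit 559578), .ofNat (nat_lit 630587), .ofNat (nat_lit 554609), .ofNat (nat_lit 621694), .ofNat (nat_lit 565673), .ofNat (nat_lit 632757)⟩, ⟨.ofNat (nat_lit 0), .ofNat (nat_lit 261131), .ofNat (nat_lit 0), .ofNat (nat_lit 304717), .ofNat (nat_lit 0), .ofNat (nat_lit 261806), .ofNat (nat_lit 0), .ofNat (nat_lit 306116)⟩⟩, [⟨nat_lit 0, nat_lit 80, nat_lit 60, nat_lit 100, nat_lit 160344117⟩, ⟨nat_lit 7, nat_lit 100, nat_lit 83, nat_lit 73, nat_lit 77180290⟩]⟩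
noncomputable def p091_l143 : Lf2 := ⟨nat_lit 0, nat_lit 15, [nat_lit 30, nat_lit 5, nat_lit 5, nat_lit 20], false, nat_lit 0, nat_lit 160, nat_lit 0, nat_lit 256, ⟨nat_lit 793, nat_lit 0, nat_lit 207, nat_lit 7, nat_lit 261, nat_lit 207, nat_lit 54, nat_lit 207, nat_lit 28017, nat_lit 256, nat_lit 119032, nat_lit 200, nat_lit 47010504, nat_lit 0, nat_lit 0, nat_lit 3047300, true, false⟩,
 nat_lit 0, nat_lit 0, nat_lit 8515, nat_lit 0, nat_lit 5455, nat_lit 5895, nat_lit 436, nat_lit 0, nat_lit 0, nat_lit 745, nat_lit 0, nat_lit 0, nat_lit 0, nat_lit 0, nat_lit 0, nat_lit 38295, nat_lit 0, nat_lit 0, [(nat_lit 22, [(nat_lit 3, nat_lit 207)])],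
 ⟨p091_k0, nat_lit 0, nat_lit 0, nat_lit 159, nat_lit 0, nat_lit 0, [nat_lit 2680820800, nat_lit 3667158801, nat_lit 5968794000], [], [nat_lit 24513920180, nat_lit 26216258080, nat_lit 25930085830, nat_lit 27921642140, nat_lit 21226701260, nat_lit 22663038540, nat_lit 22453871340, nat_lit 23778618700], nat_lit 0, nat_lit 0, nat_lit 0, nat_lit 0, nat_lit 0, nat_lit 0, [], [nat_lit 34, nat_lit 40, nat_lit 40, nat_lit 80, nat_lit 7, nat_lit 317, nat_lit 100, nat_lit 10]⟩, ⟨p091_k37, nat_lit 0, nat_lit 0, nat_lit 544, nat_lit 0, nat_lit 777475, [nat_lit 2602626000, nat_lit 4956250000, nat_lit 7804706000], [], [nat_lit 19749035366, nat_lit 20479565848, nat_lit 20428902688, nat_lit 21636538674, nat_lit 17794264717, nat_lit 18275137540, nat_lit 18148576985, nat_lit 18791217354], nat_lit 1271250, nat_lit 1271250, nat_lit 1271250, nat_lit 1271250, nat_lit 0, nat_lit 1808000, [nat_lit 780000, nat_lit 1435000, nat_lit 1271250],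 [nat_lit 8, nat_lit 40, nat_lit 40, nat_lit 80, nat_lit 1, nat_lit 345, nat_lit 125, nat_lit 10]⟩,
 ⟨nat_lit 3162, nat_lit 3873, ⟨.ofNat (nat_lit 608822), .ofNat (nat_lit 673376), .ofNat (nat_lit 630587), .ofNat (nat_lit 695141), .ofNat (nat_lit 610630), .ofNat (nat_lit 671616), .ofNat (nat_lit 632757), .ofNat (nat_lit 693742)⟩, ⟨.ofNat (nat_lit 0), .ofNat (nat_lit 261131), .ofNat (nat_lit 0), .ofNat (nat_lit 282924), .ofNat (nat_lit 0), .ofNat (nat_lit 261806), .ofNat (nat_lit 0), .ofNat (nat_lit 283961)⟩⟩, [⟨nat_lit 19, nat_lit 84, nat_lit 100, nat_lit 67, nat_lit 162889961⟩]⟩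
noncomputable def p091_l144 : Lf2 := ⟨nat_lit 0, nat_lit 20, [nat_lit 5, nat_lit 5, nat_lit 5, nat_lit 20], false, nat_lit 0, nat_lit 160, nat_lit 0, nat_lit 280, ⟨nat_lit 1000, nat_lit 0, nat_lit 0, nat_lit 0, nat_lit 0, nat_lit 0, nat_lit 0, nat_lit 0, nat_lit 0, nat_lit 0, nat_lit 0, nat_lit 0, nat_lit 0, nat_lit 0, nat_lit 0, nat_lit 0, false, false⟩,
 nat_lit 0, nat_lit 0, nat_lit 10697, nat_lit 0, nat_lit 6423, nat_lit 7405, nat_lit 516, nat_lit 0, nat_lit 0, nat_lit 932, nat_lit 0, nat_lit 0, nat_lit 0, nat_lit 0, nat_lit 0, nat_lit 0, nat_lit 0, nat_lit 0, [],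
 ⟨p091_k8, nat_lit 0, nat_lit 0, nat_lit 159, nat_lit 0, nat_lit 0, [nat_lit 2032000001, nat_lit 4688000000, nat_lit 7968000000], [], [nat_lit 26158891908, nat_lit 28037277224, nat_lit 27632392198, nat_lit 29828900284, nat_lit 21772001756, nat_lit 23350069724, nat_lit 23036900604, nat_lit 24487673820], nat_lit 0, nat_lit 0, nat_lit 0, nat_lit 0, nat_lit 0, nat_lit 0, [], [nat_lit 34, nat_lit 40, nat_lit 40, nat_lit 80, nat_lit 7, nat_lit 317, nat_lit 100, nat_lit 10]⟩, ⟨p091_k18, nat_lit 0, nat_lit 0, nat_lit 500, nat_lit 0, nat_lit 703669, [nat_lit 3282000000, nat_lit 6250000000, nat_lit 9842000000], [], [nat_lit 25047687180, nat_lit 25967253740, nat_lit 25902103700, nat_lit 27332686840, nat_lit 23180938665, nat_lit 23746985030, nat_lit 23640187625, nat_lit 25157226610], nat_lit 1271250, nat_lit 1271250, nat_lit 1271250, nat_lit 1271250, nat_lit 0, nat_lit 1977500, [nat_lit 780000, nat_lit 1435000, nat_lit 1271250],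 [nat_lit 8, nat_lit 40, nat_lit 40, nat_lit 80, nat_lit 1, nat_lit 373, nat_lit 150, nat_lit 10]⟩,
 zbF0, [⟨nat_lit 19, nat_lit 87, nat_lit 100, nat_lit 79, nat_lit 198007914⟩]⟩
noncomputable def p091_l145 : Lf2 := ⟨nat_lit 0, nat_lit 20, [nat_lit 5, nat_lit 5, nat_lit 5, nat_lit 20], true, nat_lit 160, nat_lit 260, nat_lit 0, nat_lit 300, ⟨nat_lit 0, nat_lit 334, nat_lit 666, nat_lit 7, nat_lit 185, nat_lit 1000, nat_lit 145, nat_lit 666, nat_lit 89743, nat_lit 288, nat_lit 25350, nat_lit 254, nat_lit 47566233, nat_lit 11553787, nat_lit 7879980, nat_lit 4276855, false, false⟩,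
 nat_lit 0, nat_lit 0, nat_lit 0, nat_lit 6608, nat_lit 3514, nat_lit 0, nat_lit 0, nat_lit 0, nat_lit 0, nat_lit 0, nat_lit 0, nat_lit 0, nat_lit 0, nat_lit 0, nat_lit 15, nat_lit 250000, nat_lit 0, nat_lit 0, [(nat_lit 19, [(nat_lit 0, nat_lit 334), (nat_lit 4, nat_lit 666)]), (nat_lit 22, [(nat_lit 0, nat_lit 334), (nat_lit 4, nat_lit 666)])],
 ⟨p091_k17, nat_lit 0, nat_lit 0, nat_lit 61, nat_lit 0, nat_lit 0, [nat_lit 1654966401, nat_lit 896513601, nat_lit 52916000], [], [nat_lit 15967251590, nat_lit 19038399872, nat_lit 16159300994, nat_lit 19073791104, nat_lit 19640552641, nat_lit 22621679380, nat_lit 19691173796, nat_lit 22602348162], nat_lit 0, nat_lit 0, nat_lit 0, nat_lit 0, nat_lit 0, nat_lit 0, [], [nat_lit 27, nat_lit 40, nat_lit 40, nat_lit 80, nat_lit 13, nat_lit 317, nat_lit 100, nat_lit 8]⟩, C1.Rw.none,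
 ⟨nat_lit 3162, nat_lit 4473, ⟨.ofNat (nat_lit 415764), .ofNat (nat_lit 449792), .ofNat (nat_lit 458716), .ofNat (nat_lit 492744), .ofNat (nat_lit 435680), .ofNat (nat_lit 466195), .ofNat (nat_lit 479808), .ofNat (nat_lit 510324)⟩, ⟨.ofNat (nat_lit 259488), .ofNat (nat_lit 429433), .ofNat (nat_lit 302621), .ofNat (nat_lit 472567), .ofNat (nat_lit 261805), .ofNat (nat_lit 414188), .ofNat (nat_lit 306116), .ofNat (nat_lit 458499)⟩⟩, [⟨nat_lit 0, nat_lit 100, nat_lit 87, nat_lit 95, nat_lit 607055204⟩, ⟨nat_lit 16, nat_lit 83, nat_lit 100, nat_lit 83, nat_lit 233096144⟩]⟩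
noncomputable def p091_l146 : Lf2 := ⟨nat_lit 0, nat_lit 20, [nat_lit 5, nat_lit 5, nat_lit 5, nat_lit 20], false, nat_lit 160, nat_lit 260, nat_lit 0, nat_lit 300, ⟨nat_lit 241, nat_lit 759, nat_lit 0, nat_lit 7, nat_lit 230, nat_lit 759, nat_lit 146, nat_lit 0, nat_lit 0, nat_lit 0, nat_lit 0, nat_lit 0, nat_lit 43726113, nat_lit 15650647, nat_lit 7623240, nat_lit 4639540, false, false⟩,
 nat_lit 0, nat_lit 0, nat_lit 3143, nat_lit 0, nat_lit 3451, nat_lit 2000, nat_lit 0, nat_lit 0, nat_lit 0, nat_lit 189, nat_lit 0, nat_lit 0, nat_lit 0, nat_lit 0, nat_lit 0, nat_lit 189750, nat_lit 0, nat_lit 0, [(nat_lit 19, [(nat_lit 0, nat_lit 759)])],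
 ⟨p091_k17, nat_lit 0, nat_lit 0, nat_lit 41, nat_lit 0, nat_lit 0, [nat_lit 1660393601, nat_lit 2927423600, nat_lit 4788372920], [], [nat_lit 15637698513, nat_lit 17290537821, nat_lit 19324697013, nat_lit 20673029673, nat_lit 19665044098, nat_lit 21108534338, nat_lit 22592509349, nat_lit 23779229755], nat_lit 0, nat_lit 0, nat_lit 0, nat_lit 0, nat_lit 0, nat_lit 0, [], [nat_lit 27, nat_lit 40, nat_lit 40, nat_lit 80, nat_lit 13, nat_lit 345, nat_lit 125, nat_lit 9]⟩, ⟨p091_k9, nat_lit 0, nat_lit 0, nat_lit 666, nat_lit 0, nat_lit 800264, [nat_lit 790962000, nat_lit 1506250000, nat_lit 2861152000], [], [nat_lit 10164894892, nat_lit 8072667350, nat_lit 7658974630, nat_lit 8031606094, nat_lit 6605188634, nat_lit 6829899451, nat_lit 9313440892, nat_lit 7536594892], nat_lit 1271250, nat_lit 1271250, nat_lit 780000, nat_lit 1762500, nat_lit 0, nat_lit 2118750, [nat_lit 780000, nat_lit 1435000, nat_lit 1271250], [nat_lit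 23, nat_lit 40, nat_lit 40, nat_lit 80, nat_lit 12, nat_lit 456, nat_lit 225, nat_lit 12]⟩,
 ⟨nat_lit 3872, nat_lit 4473, ⟨.ofNat (nat_lit 450223), .ofNat (nat_lit 654181), .ofNat (nat_lit 493321), .ofNat (nat_lit 697279), .ofNat (nat_lit 458043), .ofNat (nat_lit 651631), .ofNat (nat_lit 501595), .ofNat (nat_lit 695183)⟩, ⟨.ofNat (nat_lit 259489), .ofNat (nat_lit 429434), .ofNat (nat_lit 302621), .ofNat (nat_lit 472567), .ofNat (nat_lit 261131), .ofNat (nat_lit 422435), .ofNat (nat_lit 304717), .ofNat (nat_lit 466021)⟩⟩, [⟨nat_lit 0, nat_lit 92, nat_lit 81, nat_lit 100, nat_lit 21154777⟩, ⟨nat_lit 4, nat_lit 100, nat_lit 76, nat_lit 72, nat_lit 420865359⟩, ⟨nat_lit 7, nat_lit 100, nat_lit 90, nat_lit 74, nat_lit 12571756⟩]⟩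
noncomputable def p091_l147 : Lf2 := ⟨nat_lit 0, nat_lit 20, [nat_lit 5, nat_lit 5, nat_lit 5, nat_lit 20], false, nat_lit 160, nat_lit 232, nat_lit 0, nat_lit 300, ⟨nat_lit 142, nat_lit 858, nat_lit 0, nat_lit 7, nat_lit 233, nat_lit 858, nat_lit 136, nat_lit 0, nat_lit 0, nat_lit 0, nat_lit 0, nat_lit 0, nat_lit 44121204, nat_lit 16011810, nat_lit 6866986, nat_lit 4551315, false, false⟩,
 nat_lit 0, nat_lit 0, nat_lit 1840, nat_lit 0, nat_lit 3376, nat_lit 1170, nat_lit 0, nat_lit 0, nat_lit 0, nat_lit 101, nat_lit 0, nat_lit 0, nat_lit 0, nat_lit 0, nat_lit 0, nat_lit 214500, nat_lit 0, nat_lit 0, [(nat_lit 22, [(nat_lit 0, nat_lit 858)])],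
 ⟨p091_k8, nat_lit 0, nat_lit 0, nat_lit 47, nat_lit 0, nat_lit 0, [nat_lit 1633888001, nat_lit 2356642400, nat_lit 3458695200], [], [nat_lit 17379443451, nat_lit 19051851194, nat_lit 20681498673, nat_lit 22053611360, nat_lit 19846124689, nat_lit 21344132365, nat_lit 22687631707, nat_lit 23927733431], nat_lit 0, nat_lit 0, nat_lit 0, nat_lit 0, nat_lit 0, nat_lit 0, [], [nat_lit 34, nat_lit 40, nat_lit 40, nat_lit 80, nat_lit 7, nat_lit 345, nat_lit 125, nat_lit 10]⟩, ⟨p091_k9, nat_lit 0, nat_lit 0, nat_lit 778, nat_lit 0, nat_lit 1057406, [nat_lit 466044000, nat_lit 887500000, nat_lit 1685824000], [], [nat_lit 5852713812, nat_lit 4949548430, nat_lit 4717134190, nat_lit 4936112718, nat_lit 4139066043, nat_lit 4228786269, nat_lit 5503480984, nat_lit 4464026074], nat_lit 1271250, nat_lit 1271250, nat_lit 810650, nat_lit 1764750, nat_lit 0, nat_lit 2118750, [nat_lit 780000, nat_lit 1435000, nat_lit 1271250], [nat_lit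 23, nat_lit 40, nat_lit 40, nat_lit 80, nat_lit 12, nat_lit 456, nat_lit 225, nat_lit 12]⟩,
 ⟨nat_lit 3162, nat_lit 3873, ⟨.ofNat (nat_lit 464406), .ofNat (nat_lit 651611), .ofNat (nat_lit 507934), .ofNat (nat_lit 695141), .ofNat (nat_lit 472632), .ofNat (nat_lit 649490), .ofNat (nat_lit 516884), .ofNat (nat_lit 693742)⟩, ⟨.ofNat (nat_lit 261131), .ofNat (nat_lit 377270), .ofNat (nat_lit 304717), .ofNat (nat_lit 420856), .ofNat (nat_lit 261806), .ofNat (nat_lit 371522), .ofNat (nat_lit 306116), .ofNat (nat_lit 415832)⟩⟩, [⟨nat_lit 0, nat_lit 88, nat_lit 67, nat_lit 100, nat_lit 29476192⟩, ⟨nat_lit 16, nat_lit 72, nat_lit 100, nat_lit 81, nat_lit 287204204⟩, ⟨nat_lit 7, nat_lit 100, nat_lit 90, nat_lit 74, nat_lit 20393150⟩]⟩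
noncomputable def b_V_800_700_10_29 : St := ⟨true, nat_lit 0, nat_lit 1, nat_lit 1, nat_lit 80, nat_lit 320, nat_lit 360, nat_lit 280, nat_lit 320, nat_lit 100, nat_lit 240, nat_lit 40, nat_lit 80, nat_lit 0, nat_lit 260, nat_lit 0, nat_lit 300, nat_lit 80, nat_lit 120, nat_lit 0, nat_lit 0, nat_lit 0, nat_lit 0⟩
theorem d_V_800_700_10_29 (h : EB TB.env) : Dead b_V_800_700_10_29 := chkB_sound0 h (T :=
(.spl (nat_lit 4) (nat_lit 160)
(.spl (nat_lit 1) (nat_lit 300)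
(.spl (nat_lit 0) (nat_lit 340)
(.spl (nat_lit 2) (nat_lit 160)
(.spl (nat_lit 5) (nat_lit 160)
(.leaf p091_l124)
(.spl (nat_lit 3) (nat_lit 60)
(.trX (nat_lit 19) (nat_lit 99) (nat_lit 100) (nat_lit 77) (nat_lit 276) (.leaf p091_l125))
(.leaf p091_l126)))
(.spl (nat_lit 3) (nat_lit 60)
(.trX (nat_lit 19) (nat_lit 99) (nat_lit 100) (nat_lit 77) (nat_lit 276) (.leaf p091_l127))
(.spl (nat_lit 6) (nat_lit 104)
(.spl (nat_lit 1) (nat_lit 290)
(.leaf p091_l128)
(.trX (nat_lit 19) (nat_lit 100) (nat_lit 100) (nat_lit 89) (nat_lit 292) (.leaf p091_l129)))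
(.leaf p091_l130))))
(.trZ (nat_lit 0) (nat_lit 99) (nat_lit 77) (nat_lit 100) (nat_lit 124) (.spl (nat_lit 5) (nat_lit 160)
(.spl (nat_lit 1) (nat_lit 290)
(.leaf p091_l131)
(.trZ (nat_lit 0) (nat_lit 94) (nat_lit 75) (nat_lit 100) (nat_lit 132) (.leaf p091_l132)))
(.spl (nat_lit 1) (nat_lit 290)
(.spl (nat_lit 3) (nat_lit 60)
(.trX (nat_lit 19) (nat_lit 99) (nat_lit 100) (nat_lit 77) (nat_lit 276) (.leaf p091_l133))
(.leaf p091_l134))
(.trZ (nat_lit 0) (nat_lit 94) (nat_lit 75) (nat_lit 100) (nat_lit 132) (.trX (nat_lit 19) (nat_lit 100) (nat_lit 100) (nat_lit 89) (nat_lit 292) (.spl (nat_lit 1) (nat_lit 295)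
(.leaf p091_l135)
(.trZ (nat_lit 0) (nat_lit 92) (nat_lit 75) (nat_lit 100) (nat_lit 140) (.trX (nat_lit 19) (nat_lit 97) (nat_lit 100) (nat_lit 88) (nat_lit 284) (.leaf p091_l136))))))))))
(.trZ (nat_lit 0) (nat_lit 94) (nat_lit 87) (nat_lit 100) (nat_lit 120) (.trX (nat_lit 19) (nat_lit 94) (nat_lit 100) (nat_lit 87) (nat_lit 280) (.spl (nat_lit 0) (nat_lit 340)
(.spl (nat_lit 5) (nat_lit 160)
(.spl (nat_lit 0) (nat_lit 330)
(.leaf p091_l137)
(.trZ (nat_lit 0) (nat_lit 92) (nat_lit 81) (nat_lit 100) (nat_lit 132) (.leaf p091_l138)))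
(.spl (nat_lit 0) (nat_lit 330)
(.leaf p091_l139)
(.trZ (nat_lit 0) (nat_lit 92) (nat_lit 81) (nat_lit 100) (nat_lit 132) (.leaf p091_l140))))
(.trZ (nat_lit 0) (nat_lit 90) (nat_lit 74) (nat_lit 100) (nat_lit 144) (.spl (nat_lit 2) (nat_lit 200)
(.spl (nat_lit 1) (nat_lit 310)
(.leaf p091_l141)
(.trZ (nat_lit 0) (nat_lit 85) (nat_lit 73) (nat_lit 100) (nat_lit 156) (.trX (nat_lit 19) (nat_lit 89) (nat_lit 100) (nat_lit 85) (nat_lit 268) (.leaf p091_l142))))
(.spl (nat_lit 3) (nat_lit 60)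
(.trX (nat_lit 19) (nat_lit 90) (nat_lit 100) (nat_lit 74) (nat_lit 256) (.leaf p091_l143))
(.leaf p091_l144))))))))
(.spl (nat_lit 2) (nat_lit 120)
(.leaf p091_l145)
(.spl (nat_lit 0) (nat_lit 340)
(.leaf p091_l146)
(.trZ (nat_lit 0) (nat_lit 99) (nat_lit 77) (nat_lit 100) (nat_lit 124) (.trX (nat_lit 16) (nat_lit 72) (nat_lit 100) (nat_lit 81) (nat_lit 232) (.leaf p091_l147))))))) (by decide +kernel)

end B2
end Pool.Agent.Lib.MP_6947cd_al
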