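import Pool.Agent.Lib.MP_6947cd_al.ZB.Pre

/-!
Problem MP_6947cd_al (Chollet).  Case B, second entry in [2/5, 17/20]: certificates of the tree, part P092 (generated).
-/

set_option autoImplicit false
set_option linter.all false

namespace Pool.Agent.Lib.MP_6947cd_al
namespace B2

open Ent Fr B1 PkA

noncomputable def p092_k0 : C1.Kn := ⟨[nat_lit 40, nat_lit 80, nat_lit 120], [nat_lit 0, nat_lit 0, nat_lit 2151], [(nat_lit 0, nat_lit 0, nat_lit 0), (nat_lit 0, nat_lit 0, nat_lit 0), (nat_lit 1000, nat_lit 815, nat_lit 753)], (nat_lit 81, nat_lit 100, nat_lit 72)⟩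
noncomputable def p092_k1 : C1.Kn := ⟨[nat_lit 60, nat_lit 100, nat_lit 140], [nat_lit 0, nat_lit 0, nat_lit 2047], [(nat_lit 0, nat_lit 0, nat_lit 0), (nat_lit 0, nat_lit 0, nat_lit 0), (nat_lit 1000, nat_lit 993, nat_lit 781)], (nat_lit 99, nat_lit 100, nat_lit 77)⟩
noncomputable def p092_k2 : C1.Kn := ⟨[nat_lit 40, nat_lit 80, nat_lit 140], [nat_lit 0, nat_lit 0, nat_lit 3199], [(nat_lit 0, nat_lit 0, nat_lit 0), (nat_lit 0, nat_lit 0, nat_lit 0), (nat_lit 1000, nat_lit 833, nat_lit 833)], (nat_lit 83, nat_lit 100, nat_lit 83)⟩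
noncomputable def p092_k3 : C1.Kn := ⟨[nat_lit 60, nat_lit 100, nat_lit 160], [nat_lit 0, nat_lit 0, nat_lit 3069], [(nat_lit 0, nat_lit 0, nat_lit 0), (nat_lit 0, nat_lit 0, nat_lit 0), (nat_lit 1000, nat_lit 999, nat_lit 798)], (nat_lit 100, nat_lit 95, nat_lit 87)⟩
noncomputable def p092_k4 : C1.Kn := ⟨[nat_lit 40, nat_lit 80, nat_lit 140], [nat_lit 0, nat_lit 395, nat_lit 3500], [(nat_lit 0, nat_lit 0, nat_lit 0), (nat_lit 1000, nat_lit 908, nat_lit 154), (nat_lit 1000, nat_lit 776, nat_lit 808)], (nat_lit 78, nat_lit 100, nat_lit 82)⟩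
noncomputable def p092_k5 : C1.Kn := ⟨[nat_lit 40, nat_lit 80, nat_lit 120], [nat_lit 0, nat_lit 795, nat_lit 2800], [(nat_lit 0, nat_lit 0, nat_lit 0), (nat_lit 1000, nat_lit 814, nat_lit 310), (nat_lit 1000, nat_lit 719, nat_lit 783)], (nat_lit 71, nat_lit 100, nat_lit 71)⟩
noncomputable def p092_k6 : C1.Kn := ⟨[nat_lit 40, nat_lit 80, nat_lit 100], [nat_lit 0, nat_lit 1195, nat_lit 2166], [(nat_lit 0, nat_lit 0, nat_lit 0), (nat_lit 1000, nat_lit 720, nat_lit 465), (nat_lit 1000, nat_lit 662, nat_lit 740)], (nat_lit 66, nat_lit 100, nat_lit 72)⟩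
noncomputable def p092_k7 : C1.Kn := ⟨[nat_lit 40, nat_lit 80, nat_lit 120], [nat_lit 0, nat_lit 795, nat_lit 2800], [(nat_lit 0, nat_lit 0, nat_lit 0), (nat_lit 1000, nat_lit 814, nat_lit 310), (nat_lit 1000, nat_lit 719, nat_lit 783)], (nat_lit 72, nat_lit 100, nat_lit 81)⟩
noncomputable def p092_k8 : C1.Kn := ⟨[nat_lit 40, nat_lit 80, nat_lit 120], [nat_lit 0, nat_lit 1195, nat_lit 3135], [(nat_lit 0, nat_lit 0, nat_lit 0), (nat_lit 1000, nat_lit 720, nat_lit 465), (nat_lit 1000, nat_lit 661, nat_lit 757)], (nat_lit 66, nat_lit 100, nat_lit 80)⟩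
noncomputable def p092_k9 : C1.Kn := ⟨[nat_lit 60, nat_lit 100, nat_lit 140], [nat_lit 0, nat_lit 609, nat_lit 2558], [(nat_lit 0, nat_lit 0, nat_lit 0), (nat_lit 1000, nat_lit 905, nat_lit 238), (nat_lit 1000, nat_lit 904, nat_lit 760)], (nat_lit 90, nat_lit 100, nat_lit 74)⟩
noncomputable def p092_k10 : C1.Kn := ⟨[nat_lit 60, nat_lit 100, nat_lit 140], [nat_lit 0, nat_lit 609, nat_lit 2558], [(nat_lit 0, nat_lit 0, nat_lit 0), (nat_lit 1000, nat_lit 905, nat_lit 238), (nat_lit 1000, nat_lit 904, nat_lit 760)], (nat_lit 94, nat_lit 100, nat_lit 87)⟩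
noncomputable def p092_k11 : C1.Kn := ⟨[nat_lit 40, nat_lit 100, nat_lit 120], [nat_lit 0, nat_lit 1192, nat_lit 2817], [(nat_lit 0, nat_lit 0, nat_lit 0), (nat_lit 1000, nat_lit 814, nat_lit 310), (nat_lit 1000, nat_lit 727, nat_lit 834)], (nat_lit 72, nat_lit 100, nat_lit 81)⟩
noncomputable def p092_k12 : C1.Kn := ⟨[nat_lit 60, nat_lit 120, nat_lit 160], [nat_lit 0, nat_lit 0, nat_lit 3243], [(nat_lit 0, nat_lit 0, nat_lit 0), (nat_lit 0, nat_lit 0, nat_lit 0), (nat_lit 878, nat_lit 1000, nat_lit 945)], (nat_lit 100, nat_lit 95, nat_lit 87)⟩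
noncomputable def p092_k13 : C1.Kn := ⟨[nat_lit 60, nat_lit 120, nat_lit 140], [nat_lit 0, nat_lit 913, nat_lit 2600], [(nat_lit 0, nat_lit 0, nat_lit 0), (nat_lit 1000, nat_lit 905, nat_lit 238), (nat_lit 1000, nat_lit 943, nat_lit 874)], (nat_lit 94, nat_lit 100, nat_lit 87)⟩
noncomputable def p092_k14 : C1.Kn := ⟨[nat_lit 60, nat_lit 100, nat_lit 140], [nat_lit 0, nat_lit 302, nat_lit 2304], [(nat_lit 0, nat_lit 0, nat_lit 0), (nat_lit 1000, nat_lit 953, nat_lit 118), (nat_lit 1000, nat_lit 952, nat_lit 781)], (nat_lit 94, nat_lit 100, nat_lit 75)⟩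
noncomputable def p092_k15 : C1.Kn := ⟨[nat_lit 40, nat_lit 100, nat_lit 140], [nat_lit 0, nat_lit 0, nat_lit 3243], [(nat_lit 0, nat_lit 0, nat_lit 0), (nat_lit 0, nat_lit 0, nat_lit 0), (nat_lit 1000, nat_lit 870, nat_lit 941)], (nat_lit 83, nat_lit 100, nat_lit 83)⟩
noncomputable def p092_k16 : C1.Kn := ⟨[nat_lit 60, nat_lit 120, nat_lit 160], [nat_lit 0, nat_lit 226, nat_lit 3397], [(nat_lit 0, nat_lit 0, nat_lit 0), (nat_lit 1000, nat_lit 977, nat_lit 59), (nat_lit 889, nat_lit 1000, nat_lit 972)], (nat_lit 100, nat_lit 98, nat_lit 88)⟩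
noncomputable def p092_k17 : C1.Kn := ⟨[nat_lit 60, nat_lit 120, nat_lit 160], [nat_lit 0, nat_lit 453, nat_lit 3555], [(nat_lit 0, nat_lit 0, nat_lit 0), (nat_lit 1000, nat_lit 953, nat_lit 118), (nat_lit 904, nat_lit 1000, nat_lit 997)], (nat_lit 100, nat_lit 100, nat_lit 89)⟩
noncomputable def p092_k18 : C1.Kn := ⟨[nat_lit 60, nat_lit 120, nat_lit 140], [nat_lit 0, nat_lit 1362, nat_lit 2909], [(nat_lit 0, nat_lit 0, nat_lit 0), (nat_lit 1000, nat_lit 858, nat_lit 354), (nat_lit 1000, nat_lit 909, nat_lit 910)], (nat_lit 89, nat_lit 100, nat_lit 85)⟩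
noncomputable def p092_k19 : C1.Kn := ⟨[nat_lit 40, nat_lit 120], [nat_lit 0, nat_lit 1589], [(nat_lit 0, nat_lit 0, nat_lit 0), (nat_lit 1000, nat_lit 814, nat_lit 310)], (nat_lit 72, nat_lit 100, nat_lit 81)⟩
noncomputable def p092_k20 : C1.Kn := ⟨[nat_lit 60, nat_lit 160], [nat_lit 0, nat_lit 0], [(nat_lit 0, nat_lit 0, nat_lit 0), (nat_lit 0, nat_lit 0, nat_lit 0)], (nat_lit 100, nat_lit 95, nat_lit 87)⟩
noncomputable def p092_k21 : C1.Kn := ⟨[nat_lit 40, nat_lit 100], [nat_lit 0, nat_lit 0], [(nat_lit 0, nat_lit 0, nat_lit 0), (nat_lit 0, nat_lit 0, nat_lit 0)], (nat_lit 80, nat_lit 100, nat_lit 60)⟩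
noncomputable def p092_k22 : C1.Kn := ⟨[nat_lit 60, nat_lit 140], [nat_lit 0, nat_lit 0], [(nat_lit 0, nat_lit 0, nat_lit 0), (nat_lit 0, nat_lit 0, nat_lit 0)], (nat_lit 94, nat_lit 100, nat_lit 62)⟩
noncomputable def p092_k23 : C1.Kn := ⟨[nat_lit 40, nat_lit 80, nat_lit 100], [nat_lit 0, nat_lit 0, nat_lit 1280], [(nat_lit 0, nat_lit 0, nat_lit 0), (nat_lit 0, nat_lit 0, nat_lit 0), (nat_lit 1000, nat_lit 800, nat_lit 600)], (nat_lit 80, nat_lit 100, nat_lit 60)⟩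
noncomputable def p092_k24 : C1.Kn := ⟨[nat_lit 60, nat_lit 100, nat_lit 140], [nat_lit 0, nat_lit 0, nat_lit 2047], [(nat_lit 0, nat_lit 0, nat_lit 0), (nat_lit 0, nat_lit 0, nat_lit 0), (nat_lit 1000, nat_lit 993, nat_lit 781)], (nat_lit 94, nat_lit 100, nat_lit 62)⟩
noncomputable def p092_k25 : C1.Kn := ⟨[nat_lit 40, nat_lit 80, nat_lit 100], [nat_lit 0, nat_lit 795, nat_lit 1829], [(nat_lit 0, nat_lit 0, nat_lit 0), (nat_lit 1000, nat_lit 814, nat_lit 310), (nat_lit 1000, nat_lit 714, nat_lit 692)], (nat_lit 72, nat_lit 100, nat_lit 61)⟩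
noncomputable def p092_k26 : C1.Kn := ⟨[nat_lit 40, nat_lit 80], [nat_lit 0, nat_lit 1195], [(nat_lit 0, nat_lit 0, nat_lit 0), (nat_lit 1000, nat_lit 720, nat_lit 465)], (nat_lit 68, nat_lit 100, nat_lit 61)⟩
noncomputable def p092_k27 : C1.Kn := ⟨[nat_lit 60, nat_lit 100, nat_lit 120], [nat_lit 0, nat_lit 609, nat_lit 1609], [(nat_lit 0, nat_lit 0, nat_lit 0), (nat_lit 1000, nat_lit 905, nat_lit 238), (nat_lit 1000, nat_lit 882, nat_lit 668)], (nat_lit 87, nat_lit 100, nat_lit 60)⟩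
noncomputable def p092_k28 : C1.Kn := ⟨[nat_lit 40, nat_lit 80, nat_lit 100], [nat_lit 0, nat_lit 395, nat_lit 1536], [(nat_lit 0, nat_lit 0, nat_lit 0), (nat_lit 1000, nat_lit 908, nat_lit 154), (nat_lit 1000, nat_lit 760, nat_lit 642)], (nat_lit 76, nat_lit 100, nat_lit 60)⟩
noncomputable def p092_k29 : C1.Kn := ⟨[nat_lit 60, nat_lit 120], [nat_lit 0, nat_lit 453], [(nat_lit 0, nat_lit 0, nat_lit 0), (nat_lit 1000, nat_lit 953, nat_lit 118)], (nat_lit 91, nat_lit 100, nat_lit 61)⟩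
noncomputable def p092_k30 : C1.Kn := ⟨[nat_lit 40, nat_lit 80], [nat_lit 0, nat_lit 795], [(nat_lit 0, nat_lit 0, nat_lit 0), (nat_lit 1000, nat_lit 814, nat_lit 310)], (nat_lit 75, nat_lit 100, nat_lit 46)⟩
noncomputable def p092_k31 : C1.Kn := ⟨[nat_lit 60, nat_lit 100, nat_lit 120], [nat_lit 0, nat_lit 0, nat_lit 1164], [(nat_lit 0, nat_lit 0, nat_lit 0), (nat_lit 0, nat_lit 0, nat_lit 0), (nat_lit 1000, nat_lit 933, nat_lit 572)], (nat_lit 92, nat_lit 100, nat_lit 44)⟩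
noncomputable def p092_k32 : C1.Kn := ⟨[nat_lit 40, nat_lit 80], [nat_lit 0, nat_lit 1195], [(nat_lit 0, nat_lit 0, nat_lit 0), (nat_lit 1000, nat_lit 720, nat_lit 465)], (nat_lit 72, nat_lit 100, nat_lit 47)⟩
noncomputable def p092_k33 : C1.Kn := ⟨[nat_lit 60, nat_lit 100, nat_lit 140], [nat_lit 0, nat_lit 151, nat_lit 2175], [(nat_lit 0, nat_lit 0, nat_lit 0), (nat_lit 1000, nat_lit 977, nat_lit 59), (nat_lit 1000, nat_lit 974, nat_lit 785)], (nat_lit 92, nat_lit 100, nat_lit 61)⟩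
noncomputable def p092_k34 : C1.Kn := ⟨[nat_lit 40, nat_lit 100], [nat_lit 0, nat_lit 1192], [(nat_lit 0, nat_lit 0, nat_lit 0), (nat_lit 1000, nat_lit 814, nat_lit 310)], (nat_lit 72, nat_lit 100, nat_lit 61)⟩
noncomputable def p092_k35 : C1.Kn := ⟨[nat_lit 60, nat_lit 120], [nat_lit 0, nat_lit 913], [(nat_lit 0, nat_lit 0, nat_lit 0), (nat_lit 1000, nat_lit 905, nat_lit 238)], (nat_lit 87, nat_lit 100, nat_lit 60)⟩
noncomputable def p092_k36 : C1.Kn := ⟨[nat_lit 60, nat_lit 100, nat_lit 120], [nat_lit 0, nat_lit 909, nat_lit 1866], [(nat_lit 0, nat_lit 0, nat_lit 0), (nat_lit 1000, nat_lit 858, nat_lit 354), (nat_lit 1000, nat_lit 849, nat_lit 705)], (nat_lit 84, nat_lit 100, nat_lit 60)⟩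
noncomputable def p092_l0 : Lf2 := ⟨nat_lit 0, nat_lit 15, [nat_lit 30, nat_lit 5, nat_lit 5, nat_lit 20], false, nat_lit 0, nat_lit 160, nat_lit 0, nat_lit 276, ⟨nat_lit 1000, nat_lit 0, nat_lit 0, nat_lit 0, nat_lit 0, nat_lit 0, nat_lit 0, nat_lit 0, nat_lit 0, nat_lit 0, nat_lit 0, nat_lit 0, nat_lit 0, nat_lit 0, nat_lit 0, nat_lit 0, false, false⟩,
 nat_lit 0, nat_lit 0, nat_lit 12587, nat_lit 0, nat_lit 6503, nat_lit 8009, nat_lit 0, nat_lit 0, nat_lit 0, nat_lit 692, nat_lit 0, nat_lit 0, nat_lit 0, nat_lit 0, nat_lit 0, nat_lit 0, nat_lit 0, nat_lit 0, [],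
 ⟨p092_k0, nat_lit 0, nat_lit 0, nat_lit 167, nat_lit 0, nat_lit 0, [nat_lit 2032000001, nat_lit 4688000000, nat_lit 7968000000], [], [nat_lit 30446234908, nat_lit 32180706278, nat_lit 35039390864, nat_lit 36440677920, nat_lit 26031523868, nat_lit 27492712444, nat_lit 29928394664, nat_lit 31120203790], nat_lit 0, nat_lit 0, nat_lit 0, nat_lit 0, nat_lit 0, nat_lit 0, [], [nat_lit 34, nat_lit 40, nat_lit 40, nat_lit 80, nat_lit 7, nat_lit 249, nat_lit 40, nat_lit 7]⟩, ⟨p092_k1, nat_lit 0, nat_lit 0, nat_lit 467, nat_lit 0, nat_lit 627124, [nat_lit 3282000000, nat_lit 6250000000, nat_lit 9842000000], [], [nat_lit 31045195852, nat_lit 32563762088, nat_lit 33561056584, nat_lit 35114996260, nat_lit 26823568674, nat_lit 27785474143, nat_lit 28409589207, nat_lit 29751895263], nat_lit 1271250, nat_lit 1271250, nat_lit 1271250, nat_lit 1271250, nat_lit 0, nat_lit 1949250, [nat_lit 780000, nat_lit 1435000, nat_lit 1271250],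 [nat_lit 8, nat_lit 40, nat_lit 40, nat_lit 80, nat_lit 1, nat_lit 373, nat_lit 150, nat_lit 10]⟩,
 zbF0, [⟨nat_lit 19, nat_lit 88, nat_lit 100, nat_lit 67, nat_lit 149630710⟩]⟩
noncomputable def p092_l1 : Lf2 := ⟨nat_lit 0, nat_lit 20, [nat_lit 5, nat_lit 5, nat_lit 5, nat_lit 20], false, nat_lit 0, nat_lit 160, nat_lit 0, nat_lit 300, ⟨nat_lit 1000, nat_lit 0, nat_lit 0, nat_lit 0, nat_lit 0, nat_lit 0, nat_lit 0, nat_lit 0, nat_lit 0, nat_lit 0, nat_lit 0, nat_lit 0, nat_lit 0, nat_lit 0, nat_lit 0, nat_lit 0, false, false⟩,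
 nat_lit 0, nat_lit 0, nat_lit 12375, nat_lit 0, nat_lit 6361, nat_lit 7875, nat_lit 728, nat_lit 0, nat_lit 0, nat_lit 790, nat_lit 0, nat_lit 0, nat_lit 0, nat_lit 0, nat_lit 0, nat_lit 0, nat_lit 0, nat_lit 0, [],
 ⟨p092_k2, nat_lit 0, nat_lit 0, nat_lit 188, nat_lit 0, nat_lit 0, [nat_lit 2032000001, nat_lit 4688000000, nat_lit 9842000000], [], [nat_lit 27090326408, nat_lit 27865025391, nat_lit 31223690796, nat_lit 32168195822, nat_lit 22521232356, nat_lit 23177113811, nat_lit 25977667940, nat_lit 26513966298], nat_lit 0, nat_lit 0, nat_lit 0, nat_lit 0, nat_lit 0, nat_lit 0, [], [nat_lit 27, nat_lit 40, nat_lit 40, nat_lit 80, nat_lit 13, nat_lit 345, nat_lit 125, nat_lit 9]⟩, ⟨p092_k3, nat_lit 0, nat_lit 0, nat_lit 412, nat_lit 0, nat_lit 435366, [nat_lit 3282000000, nat_lit 6250000000, nat_lit 11872000000], [], [nat_lit 31953109000, nat_lit 33470106000, nat_lit 34309081000, nat_lit 36052687250, nat_lit 27583727375,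 nat_lit 28503059000, nat_lit 29424681750, nat_lit 30789649250], nat_lit 1271250, nat_lit 1271250, nat_lit 1271250, nat_lit 1271250, nat_lit 0, nat_lit 2118750, [nat_lit 780000, nat_lit 1435000, nat_lit 1271250], [nat_lit 23, nat_lit 40, nat_lit 40, nat_lit 80, nat_lit 12, nat_lit 483, nat_lit 250, nat_lit 12]⟩,
 zbF0, [⟨nat_lit 19, nat_lit 92, nat_lit 100, nat_lit 81, nat_lit 131381204⟩]⟩
noncomputable def p092_l2 : Lf2 := ⟨nat_lit 0, nat_lit 20, [nat_lit 5, nat_lit 5, nat_lit 5, nat_lit 20], false, nat_lit 0, nat_lit 160, nat_lit 0, nat_lit 300, ⟨nat_lit 1000, nat_lit 0, nat_lit 0, nat_lit 0, nat_lit 0, nat_lit 0, nat_lit 0, nat_lit 0, nat_lit 0, nat_lit 0, nat_lit 0, nat_lit 0, nat_lit 0, nat_lit 0, nat_lit 0, nat_lit 0, false, false⟩,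
 nat_lit 0, nat_lit 0, nat_lit 11686, nat_lit 0, nat_lit 5594, nat_lit 7436, nat_lit 906, nat_lit 0, nat_lit 0, nat_lit 793, nat_lit 0, nat_lit 0, nat_lit 0, nat_lit 0, nat_lit 0, nat_lit 0, nat_lit 0, nat_lit 0, [],
 ⟨p092_k4, nat_lit 0, nat_lit 0, nat_lit 191, nat_lit 0, nat_lit 0, [nat_lit 2032000001, nat_lit 4688000000, nat_lit 9842000000], [], [nat_lit 24908665578, nat_lit 26004282036, nat_lit 30544378588, nat_lit 31418882592, nat_lit 21085852894, nat_lit 21700865210, nat_lit 25434621948, nat_lit 26186584544], nat_lit 0, nat_lit 0, nat_lit 0, nat_lit 0, nat_lit 0, nat_lit 0, [], [nat_lit 27, nat_lit 40, nat_lit 40, nat_lit 80, nat_lit 13, nat_lit 345, nat_lit 125, nat_lit 9]⟩, ⟨p092_k3, nat_lit 0, nat_lit 0, nat_lit 501, nat_lit 0, nat_lit 548879, [nat_lit 3282000000, nat_lit 6250000000, nat_lit 11872000000], [], [nat_lit 32671620062, nat_lit 33810829726, nat_lit 34517987422, nat_lit 35670327726, nat_lit 28874526723,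 nat_lit 29788411816, nat_lit 30555525772, nat_lit 31570287240], nat_lit 1271250, nat_lit 1271250, nat_lit 1271250, nat_lit 1271250, nat_lit 0, nat_lit 2118750, [nat_lit 780000, nat_lit 1435000, nat_lit 1271250], [nat_lit 23, nat_lit 40, nat_lit 40, nat_lit 80, nat_lit 12, nat_lit 483, nat_lit 250, nat_lit 12]⟩,
 zbF0, [⟨nat_lit 7, nat_lit 100, nat_lit 92, nat_lit 81, nat_lit 150638729⟩]⟩
noncomputable def p092_l3 : Lf2 := ⟨nat_lit 0, nat_lit 15, [nat_lit 30, nat_lit 5, nat_lit 5, nat_lit 20], false, nat_lit 0, nat_lit 80, nat_lit 0, nat_lit 276, ⟨nat_lit 1000, nat_lit 0, nat_lit 0, nat_lit 0, nat_lit 0, nat_lit 0, nat_lit 0, nat_lit 0, nat_lit 0, nat_lit 0, nat_lit 0, nat_lit 0, nat_lit 0, nat_lit 0, nat_lit 0, nat_lit 0, false, false⟩,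
 nat_lit 0, nat_lit 0, nat_lit 13367, nat_lit 0, nat_lit 4026, nat_lit 8506, nat_lit 747, nat_lit 0, nat_lit 0, nat_lit 733, nat_lit 0, nat_lit 0, nat_lit 0, nat_lit 0, nat_lit 0, nat_lit 0, nat_lit 0, nat_lit 0, [],
 ⟨p092_k5, nat_lit 0, nat_lit 0, nat_lit 171, nat_lit 0, nat_lit 0, [nat_lit 2032000001, nat_lit 4688000000, nat_lit 7968000000], [], [nat_lit 24612969076, nat_lit 25278589346, nat_lit 28134264640, nat_lit 28687560484, nat_lit 22652366901, nat_lit 23246984099, nat_lit 25957605361, nat_lit 26495265935], nat_lit 0, nat_lit 0, nat_lit 0, nat_lit 0, nat_lit 0, nat_lit 0, [], [nat_lit 34, nat_lit 40, nat_lit 40, nat_lit 80, nat_lit 7, nat_lit 226, nat_lit 20, nat_lit 7]⟩, ⟨p092_k1, nat_lit 0, nat_lit 0, nat_lit 447, nat_lit 0, nat_lit 576426, [nat_lit 3282000000, nat_lit 6250000000, nat_lit 9842000000], [], [nat_lit 29526367818, nat_lit 30427800254, nat_lit 32673790306, nat_lit 33902707777, nat_lit 24861894680,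 nat_lit 25447329668, nat_lit 27564823533, nat_lit 28768282168], nat_lit 1271250, nat_lit 1271250, nat_lit 1271250, nat_lit 1271250, nat_lit 0, nat_lit 1949250, [nat_lit 780000, nat_lit 1435000, nat_lit 1271250], [nat_lit 8, nat_lit 40, nat_lit 40, nat_lit 80, nat_lit 1, nat_lit 373, nat_lit 150, nat_lit 10]⟩,
 zbF0, [⟨nat_lit 19, nat_lit 92, nat_lit 100, nat_lit 68, nat_lit 135131117⟩]⟩
noncomputable def p092_l4 : Lf2 := ⟨nat_lit 0, nat_lit 15, [nat_lit 30, nat_lit 5, nat_lit 5, nat_lit 20], false, nat_lit 0, nat_lit 80, nat_lit 0, nat_lit 276, ⟨nat_lit 1000, nat_lit 0, nat_lit 0, nat_lit 0, nat_lit 0, nat_lit 0, nat_lit 0, nat_lit 0, nat_lit 0, nat_lit 0, nat_lit 0, nat_lit 0, nat_lit 0, nat_lit 0, nat_lit 0, nat_lit 0, false, false⟩,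
 nat_lit 0, nat_lit 0, nat_lit 13376, nat_lit 0, nat_lit 5109, nat_lit 8511, nat_lit 413, nat_lit 0, nat_lit 0, nat_lit 664, nat_lit 0, nat_lit 0, nat_lit 0, nat_lit 0, nat_lit 0, nat_lit 0, nat_lit 0, nat_lit 0, [],
 ⟨p092_k6, nat_lit 0, nat_lit 0, nat_lit 155, nat_lit 0, nat_lit 0, [nat_lit 2032000001, nat_lit 4688000000, nat_lit 6250000000], [], [nat_lit 26635429795, nat_lit 27329107842, nat_lit 31178064106, nat_lit 32008304100, nat_lit 24112736160, nat_lit 24763858243, nat_lit 27424467688, nat_lit 27964195279], nat_lit 0, nat_lit 0, nat_lit 0, nat_lit 0, nat_lit 0, nat_lit 0, [], [nat_lit 6, nat_lit 40, nat_lit 40, nat_lit 80, nat_lit 3, nat_lit 226, nat_lit 20, nat_lit 8]⟩, ⟨p092_k1, nat_lit 0, nat_lit 0, nat_lit 496, nat_lit 0, nat_lit 712369, [nat_lit 3282000000, nat_lit 6250000000, nat_lit 9842000000], [], [nat_lit 30842874700, nat_lit 31419835420, nat_lit 33552909936, nat_lit 34347942738, nat_lit 25902162040,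 nat_lit 26322511140, nat_lit 28002633081, nat_lit 28805822396], nat_lit 1271250, nat_lit 1271250, nat_lit 1271250, nat_lit 1271250, nat_lit 0, nat_lit 1949250, [nat_lit 780000, nat_lit 1435000, nat_lit 1271250], [nat_lit 8, nat_lit 40, nat_lit 40, nat_lit 80, nat_lit 1, nat_lit 373, nat_lit 150, nat_lit 10]⟩,
 zbF0, [⟨nat_lit 7, nat_lit 100, nat_lit 92, nat_lit 68, nat_lit 85868922⟩, ⟨nat_lit 22, nat_lit 94, nat_lit 100, nat_lit 62, nat_lit 35429660⟩]⟩
noncomputable def p092_l5 : Lf2 := ⟨nat_lit 0, nat_lit 20, [nat_lit 5, nat_lit 5, nat_lit 5, nat_lit 20], false, nat_lit 0, nat_lit 80, nat_lit 0, nat_lit 300, ⟨nat_lit 1000, nat_lit 0, nat_lit 0, nat_lit 0, nat_lit 0, nat_lit 0, nat_lit 0, nat_lit 0, nat_lit 0, nat_lit 0, nat_lit 0, nat_lit 0, nat_lit 0, nat_lit 0, nat_lit 0, nat_lit 0, false, false⟩,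
 nat_lit 0, nat_lit 0, nat_lit 12612, nat_lit 0, nat_lit 4026, nat_lit 8025, nat_lit 775, nat_lit 0, nat_lit 0, nat_lit 811, nat_lit 0, nat_lit 0, nat_lit 0, nat_lit 0, nat_lit 0, nat_lit 0, nat_lit 0, nat_lit 0, [],
 ⟨p092_k7, nat_lit 0, nat_lit 0, nat_lit 171, nat_lit 0, nat_lit 0, [nat_lit 2032000001, nat_lit 4688000000, nat_lit 7968000000], [], [nat_lit 24367969076, nat_lit 25033589346, nat_lit 27956161568, nat_lit 28687560484, nat_lit 22407366901, nat_lit 23001984099, nat_lit 25888042861, nat_lit 26425703435], nat_lit 0, nat_lit 0, nat_lit 0, nat_lit 0, nat_lit 0, nat_lit 0, [], [nat_lit 34, nat_lit 40, nat_lit 40, nat_lit 80, nat_lit 7, nat_lit 226, nat_lit 20, nat_lit 7]⟩, ⟨p092_k3, nat_lit 0, nat_lit 0, nat_lit 484, nat_lit 0, nat_lit 497977, [nat_lit 3282000000, nat_lit 6250000000, nat_lit 11872000000], [], [nat_lit 31449857350, nat_lit 32213522450, nat_lit 33815232550, nat_lit 34886788025, nat_lit 26931445700,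 nat_lit 27395096925, nat_lit 29129885625, nat_lit 29759989563], nat_lit 1271250, nat_lit 1271250, nat_lit 1271250, nat_lit 1271250, nat_lit 0, nat_lit 2118750, [nat_lit 780000, nat_lit 1435000, nat_lit 1271250], [nat_lit 23, nat_lit 40, nat_lit 40, nat_lit 80, nat_lit 12, nat_lit 483, nat_lit 250, nat_lit 12]⟩,
 zbF0, [⟨nat_lit 19, nat_lit 97, nat_lit 100, nat_lit 82, nat_lit 125939601⟩]⟩
noncomputable def p092_l6 : Lf2 := ⟨nat_lit 0, nat_lit 20, [nat_lit 5, nat_lit 5, nat_lit 5, nat_lit 20], false, nat_lit 0, nat_lit 80, nat_lit 0, nat_lit 300, ⟨nat_lit 1000, nat_lit 0, nat_lit 0, nat_lit 0, nat_lit 0, nat_lit 0, nat_lit 0, nat_lit 0, nat_lit 0, nat_lit 0, nat_lit 0, nat_lit 0, nat_lit 0, nat_lit 0, nat_lit 0, nat_lit 0, false, false⟩,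
 nat_lit 0, nat_lit 0, nat_lit 12278, nat_lit 0, nat_lit 4296, nat_lit 7813, nat_lit 714, nat_lit 0, nat_lit 0, nat_lit 811, nat_lit 0, nat_lit 0, nat_lit 0, nat_lit 0, nat_lit 0, nat_lit 0, nat_lit 0, nat_lit 0, [],
 ⟨p092_k8, nat_lit 0, nat_lit 0, nat_lit 174, nat_lit 0, nat_lit 0, [nat_lit 2032000001, nat_lit 4688000000, nat_lit 7968000000], [], [nat_lit 24954282266, nat_lit 25641879186, nat_lit 29308461664, nat_lit 30064502400, nat_lit 23092132877, nat_lit 23612730029, nat_lit 25958010488, nat_lit 26681489728], nat_lit 0, nat_lit 0, nat_lit 0, nat_lit 0, nat_lit 0, nat_lit 0, [], [nat_lit 34, nat_lit 40, nat_lit 40, nat_lit 80, nat_lit 7, nat_lit 226, nat_lit 20, nat_lit 7]⟩, ⟨p092_k3, nat_lit 0, nat_lit 0, nat_lit 529, nat_lit 0, nat_lit 631267, [nat_lit 3282000000, nat_lit 6250000000, nat_lit 11872000000], [], [nat_lit 31618838646, nat_lit 32348183154, nat_lit 33943905526, nat_lit 34729578153, nat_lit 27568687384,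 nat_lit 28027959528, nat_lit 29445270951, nat_lit 29957093311], nat_lit 1271250, nat_lit 1271250, nat_lit 1271250, nat_lit 1271250, nat_lit 0, nat_lit 2118750, [nat_lit 780000, nat_lit 1435000, nat_lit 1271250], [nat_lit 23, nat_lit 40, nat_lit 40, nat_lit 80, nat_lit 12, nat_lit 483, nat_lit 250, nat_lit 12]⟩,
 zbF0, [⟨nat_lit 19, nat_lit 97, nat_lit 100, nat_lit 82, nat_lit 136640915⟩]⟩
noncomputable def p092_l7 : Lf2 := ⟨nat_lit 0, nat_lit 15, [nat_lit 30, nat_lit 5, nat_lit 5, nat_lit 20], false, nat_lit 0, nat_lit 80, nat_lit 0, nat_lit 256, ⟨nat_lit 1000, nat_lit 0, nat_lit 0, nat_lit 0, nat_lit 0, nat_lit 0, nat_lit 0, nat_lit 0, nat_lit 0, nat_lit 0, nat_lit 0, nat_lit 0, nat_lit 0, nat_lit 0, nat_lit 0, nat_lit 0, false, false⟩,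
 nat_lit 0, nat_lit 0, nat_lit 9726, nat_lit 0, nat_lit 4521, nat_lit 6733, nat_lit 780, nat_lit 0, nat_lit 0, nat_lit 792, nat_lit 0, nat_lit 0, nat_lit 0, nat_lit 0, nat_lit 0, nat_lit 0, nat_lit 0, nat_lit 0, [],
 ⟨p092_k5, nat_lit 0, nat_lit 0, nat_lit 174, nat_lit 0, nat_lit 0, [nat_lit 2032000001, nat_lit 4688000000, nat_lit 7968000000], [], [nat_lit 24884286608, nat_lit 26087434640, nat_lit 29049303728, nat_lit 30602454900, nat_lit 22989884375, nat_lit 24055822829, nat_lit 26010999975, nat_lit 27036016777], nat_lit 0, nat_lit 0, nat_lit 0, nat_lit 0, nat_lit 0, nat_lit 0, [], [nat_lit 34, nat_lit 40, nat_lit 40, nat_lit 80, nat_lit 7, nat_lit 226, nat_lit 20, nat_lit 7]⟩, ⟨p092_k9, nat_lit 0, nat_lit 0, nat_lit 520, nat_lit 0, nat_lit 777475, [nat_lit 3282000000, nat_lit 6250000000, nat_lit 9842000000], [], [nat_lit 29644742260, nat_lit 30193409492, nat_lit 31557840958, nat_lit 32345127168, nat_lit 26855165819,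 nat_lit 27334502748, nat_lit 28414651923, nat_lit 28841869188], nat_lit 1271250, nat_lit 1271250, nat_lit 1271250, nat_lit 1271250, nat_lit 0, nat_lit 1808000, [nat_lit 780000, nat_lit 1435000, nat_lit 1271250], [nat_lit 8, nat_lit 40, nat_lit 40, nat_lit 80, nat_lit 1, nat_lit 373, nat_lit 150, nat_lit 10]⟩,
 zbF0, [⟨nat_lit 19, nat_lit 84, nat_lit 100, nat_lit 67, nat_lit 202566643⟩]⟩
noncomputable def p092_l8 : Lf2 := ⟨nat_lit 0, nat_lit 20, [nat_lit 5, nat_lit 5, nat_lit 5, nat_lit 20], false, nat_lit 0, nat_lit 80, nat_lit 0, nat_lit 280, ⟨nat_lit 1000, nat_lit 0, nat_lit 0, nat_lit 0, nat_lit 0, nat_lit 0, nat_lit 0, nat_lit 0, nat_lit 0, nat_lit 0, nat_lit 0, nat_lit 0, nat_lit 0, nat_lit 0, nat_lit 0, nat_lit 0, false, false⟩,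
 nat_lit 0, nat_lit 0, nat_lit 10217, nat_lit 0, nat_lit 4727, nat_lit 7073, nat_lit 733, nat_lit 0, nat_lit 0, nat_lit 720, nat_lit 0, nat_lit 0, nat_lit 0, nat_lit 0, nat_lit 0, nat_lit 0, nat_lit 0, nat_lit 0, [],
 ⟨p092_k7, nat_lit 0, nat_lit 0, nat_lit 174, nat_lit 0, nat_lit 0, [nat_lit 2032000001, nat_lit 4688000000, nat_lit 7968000000], [], [nat_lit 25259892721, nat_lit 26489860305, nat_lit 29504227536, nat_lit 31094980300, nat_lit 23078294764, nat_lit 24166887862, nat_lit 26071565453, nat_lit 27263196636], nat_lit 0, nat_lit 0, nat_lit 0, nat_lit 0, nat_lit 0, nat_lit 0, [], [nat_lit 34, nat_lit 40, nat_lit 40, nat_lit 80, nat_lit 7, nat_lit 226, nat_lit 20, nat_lit 7]⟩, ⟨p092_k10, nat_lit 0, nat_lit 0, nat_lit 494, nat_lit 0, nat_lit 703669, [nat_lit 3282000000, nat_lit 6250000000, nat_lit 9842000000], [], [nat_lit 30036027060, nat_lit 30587794020, nat_lit 32329737534, nat_lit 33150413808, nat_lit 26603643389,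 nat_lit 27014009424, nat_lit 28397269591, nat_lit 29259934196], nat_lit 1271250, nat_lit 1271250, nat_lit 1271250, nat_lit 1271250, nat_lit 0, nat_lit 1977500, [nat_lit 780000, nat_lit 1435000, nat_lit 1271250], [nat_lit 8, nat_lit 40, nat_lit 40, nat_lit 80, nat_lit 1, nat_lit 373, nat_lit 150, nat_lit 10]⟩,
 zbF0, [⟨nat_lit 19, nat_lit 87, nat_lit 100, nat_lit 79, nat_lit 138302287⟩, ⟨nat_lit 22, nat_lit 94, nat_lit 100, nat_lit 62, nat_lit 19371007⟩]⟩
noncomputable def p092_l9 : Lf2 := ⟨nat_lit 0, nat_lit 20, [nat_lit 5, nat_lit 5, nat_lit 5, nat_lit 20], true, nat_lit 80, nat_lit 160, nat_lit 0, nat_lit 300, ⟨nat_lit 0, nat_lit 1000, nat_lit 0, nat_lit 7, nat_lit 277, nat_lit 1000, nat_lit 88, nat_lit 0, nat_lit 0, nat_lit 0, nat_lit 0, nat_lit 0, nat_lit 42568749, nat_lit 20955402, nat_lit 3475849, nat_lit 4241138, true, false⟩,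
 nat_lit 0, nat_lit 0, nat_lit 0, nat_lit 2818, nat_lit 3979, nat_lit 0, nat_lit 0, nat_lit 0, nat_lit 0, nat_lit 0, nat_lit 0, nat_lit 0, nat_lit 0, nat_lit 0, nat_lit 0, nat_lit 250000, nat_lit 0, nat_lit 0, [(nat_lit 22, [(nat_lit 0, nat_lit 1000)])],
 ⟨p092_k7, nat_lit 0, nat_lit 0, nat_lit 72, nat_lit 0, nat_lit 0, [nat_lit 1568000001, nat_lit 1970800000, nat_lit 2712400000], [], [nat_lit 20737214888, nat_lit 22184632028, nat_lit 22561767702, nat_lit 24019710936, nat_lit 21321592360, nat_lit 22624843248, nat_lit 22971943114, nat_lit 24167245504], nat_lit 0, nat_lit 0, nat_lit 0, nat_lit 0, nat_lit 0, nat_lit 0, [], [nat_lit 34, nat_lit 40, nat_lit 40, nat_lit 80, nat_lit 7, nat_lit 249, nat_lit 40, nat_lit 7]⟩, C1.Rw.none,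
 ⟨nat_lit 3162, nat_lit 3873, ⟨.ofNat (nat_lit 651611), .ofNat (nat_lit 716165), .ofNat (nat_lit 673376), .ofNat (nat_lit 737930), .ofNat (nat_lit 649490), .ofNat (nat_lit 710475), .ofNat (nat_lit 671616), .ofNat (nat_lit 732601)⟩, ⟨.ofNat (nat_lit 132088), .ofNat (nat_lit 261131), .ofNat (nat_lit 175674), .ofNat (nat_lit 304717), .ofNat (nat_lit 139899), .ofNat (nat_lit 261806), .ofNat (nat_lit 184209), .ofNat (nat_lit 306116)⟩⟩, []⟩
noncomputable def p092_l10 : Lf2 := ⟨nat_lit 0, nat_lit 20, [nat_lit 5, nat_lit 5, nat_lit 5, nat_lit 20], false, nat_lit 80, nat_lit 160, nat_lit 0, nat_lit 300, ⟨nat_lit 79, nat_lit 921, nat_lit 0, nat_lit 7, nat_lit 302, nat_lit 921, nat_lit 88, nat_lit 0, nat_lit 0, nat_lit 0, nat_lit 0, nat_lit 0, nat_lit 40242384, nat_lit 23397679, nat_lit 3359937, nat_lit 4332760, true, true⟩,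
 nat_lit 0, nat_lit 0, nat_lit 1119, nat_lit 0, nat_lit 4624, nat_lit 711, nat_lit 0, nat_lit 0, nat_lit 0, nat_lit 35, nat_lit 0, nat_lit 0, nat_lit 0, nat_lit 0, nat_lit 0, nat_lit 230250, nat_lit 0, nat_lit 0, [(nat_lit 22, [(nat_lit 0, nat_lit 921)])],
 ⟨p092_k11, nat_lit 0, nat_lit 0, nat_lit 99, nat_lit 0, nat_lit 0, [nat_lit 1604656001, nat_lit 2640416801, nat_lit 3127592400], [], [nat_lit 23856458945, nat_lit 25192169793, nat_lit 25919026145, nat_lit 27125429729, nat_lit 23974332897, nat_lit 25177584321, nat_lit 25835296561, nat_lit 26925269441], nat_lit 0, nat_lit 0, nat_lit 0, nat_lit 0, nat_lit 0, nat_lit 0, [], [nat_lit 102, nat_lit 40, nat_lit 40, nat_lit 80, nat_lit 2, nat_lit 249, nat_lit 40, nat_lit 7]⟩, ⟨p092_k12, nat_lit 0, nat_lit 0, nat_lit 654, nat_lit 0, nat_lit 890782, [nat_lit 259278000, nat_lit 629472000, nat_lit 937888000], [], [nat_lit 3071715766, nat_lit 3093573012, nat_lit 3144170458,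 nat_lit 3191662572, nat_lit 2512984707, nat_lit 2532709309, nat_lit 2552433910, nat_lit 2571346514], nat_lit 1271250, nat_lit 1271250, nat_lit 1271250, nat_lit 1271250, nat_lit 0, nat_lit 2118750, [nat_lit 780000, nat_lit 1762500, nat_lit 1271250], [nat_lit 79, nat_lit 40, nat_lit 40, nat_lit 80, nat_lit 14, nat_lit 483, nat_lit 250, nat_lit 12]⟩,
 ⟨nat_lit 3162, nat_lit 3873, ⟨.ofNat (nat_lit 716165), .ofNat (nat_lit 780717), .ofNat (nat_lit 737930), .ofNat (nat_lit 802484), .ofNat (nat_lit 710475), .ofNat (nat_lit 771459), .ofNat (nat_lit 732601), .ofNat (nat_lit 793588)⟩, ⟨.ofNat (nat_lit 132088), .ofNat (nat_lit 261131), .ofNat (nat_lit 175674), .ofNat (nat_lit 304717), .ofNat (nat_lit 139899), .ofNat (nat_lit 261806), .ofNat (nat_lit 184209), .ofNat (nat_lit 306116)⟩⟩, [⟨nat_lit 7, nat_lit 100, nat_lit 94, nat_lit 75, nat_lit 5496405⟩]⟩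
noncomputable def p092_l11 : Lf2 := ⟨nat_lit 0, nat_lit 20, [nat_lit 5, nat_lit 5, nat_lit 5, nat_lit 20], false, nat_lit 80, nat_lit 160, nat_lit 0, nat_lit 280, ⟨nat_lit 161, nat_lit 839, nat_lit 0, nat_lit 7, nat_lit 298, nat_lit 839, nat_lit 88, nat_lit 0, nat_lit 0, nat_lit 0, nat_lit 0, nat_lit 0, nat_lit 40587309, nat_lit 23034689, nat_lit 3378002, nat_lit 4321317, true, false⟩,
 nat_lit 0, nat_lit 0, nat_lit 1432, nat_lit 0, nat_lit 4901, nat_lit 991, nat_lit 0, nat_lit 0, nat_lit 0, nat_lit 231, nat_lit 0, nat_lit 0, nat_lit 0, nat_lit 0, nat_lit 0, nat_lit 209750, nat_lit 0, nat_lit 0, [(nat_lit 22, [(nat_lit 0, nat_lit 839)])],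
 ⟨p092_k11, nat_lit 0, nat_lit 0, nat_lit 99, nat_lit 0, nat_lit 0, [nat_lit 1642704000, nat_lit 2961791200, nat_lit 3558551600], [], [nat_lit 22252363940, nat_lit 23762537784, nat_lit 26199932506, nat_lit 27498038868, nat_lit 22466169172, nat_lit 23821391988, nat_lit 26016644690, nat_lit 27136774560], nat_lit 0, nat_lit 0, nat_lit 0, nat_lit 0, nat_lit 0, nat_lit 0, [], [nat_lit 102, nat_lit 40, nat_lit 40, nat_lit 80, nat_lit 2, nat_lit 249, nat_lit 40, nat_lit 7]⟩, ⟨p092_k13, nat_lit 0, nat_lit 0, nat_lit 612, nat_lit 0, nat_lit 935966, [nat_lit 528402000, nat_lit 1282848000, nat_lit 1584562000], [], [nat_lit 4874090314, nat_lit 4942905284, nat_lit 5080402828, nat_lit 5135342208, nat_lit 4484951351, nat_lit 4526376792, nat_lit 4598043277, nat_lit 4629673562], nat_lit 1271250, nat_lit 1271250, nat_lit 1271250, nat_lit 1271250, nat_lit 0, nat_lit 1977500, [nat_lit 780000, nat_lit 1762500, nat_lit 1271250], [nat_lit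 99, nat_lit 40, nat_lit 40, nat_lit 80, nat_lit 17, nat_lit 373, nat_lit 150, nat_lit 10]⟩,
 ⟨nat_lit 3162, nat_lit 3873, ⟨.ofNat (nat_lit 673376), .ofNat (nat_lit 802484), .ofNat (nat_lit 695141), .ofNat (nat_lit 824248), .ofNat (nat_lit 671616), .ofNat (nat_lit 793588), .ofNat (nat_lit 693742), .ofNat (nat_lit 815713)⟩, ⟨.ofNat (nat_lit 132088), .ofNat (nat_lit 261131), .ofNat (nat_lit 175674), .ofNat (nat_lit 304717), .ofNat (nat_lit 139899), .ofNat (nat_lit 261806), .ofNat (nat_lit 184209), .ofNat (nat_lit 306116)⟩⟩, [⟨nat_lit 7, nat_lit 100, nat_lit 85, nat_lit 73, nat_lit 30887732⟩]⟩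
noncomputable def p092_l12 : Lf2 := ⟨nat_lit 0, nat_lit 15, [nat_lit 30, nat_lit 5, nat_lit 5, nat_lit 20], false, nat_lit 0, nat_lit 160, nat_lit 0, nat_lit 276, ⟨nat_lit 1000, nat_lit 0, nat_lit 0, nat_lit 0, nat_lit 0, nat_lit 0, nat_lit 0, nat_lit 0, nat_lit 0, nat_lit 0, nat_lit 0, nat_lit 0, nat_lit 0, nat_lit 0, nat_lit 0, nat_lit 0, false, false⟩,
 nat_lit 0, nat_lit 0, nat_lit 11778, nat_lit 0, nat_lit 6494, nat_lit 7494, nat_lit 0, nat_lit 0, nat_lit 0, nat_lit 588, nat_lit 0, nat_lit 0, nat_lit 0, nat_lit 0, nat_lit 0, nat_lit 0, nat_lit 0, nat_lit 0, [],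
 ⟨p092_k0, nat_lit 0, nat_lit 0, nat_lit 196, nat_lit 0, nat_lit 0, [nat_lit 2032000001, nat_lit 4688000000, nat_lit 7968000000], [], [nat_lit 35034042272, nat_lit 37834450048, nat_lit 40886317184, nat_lit 43014145152, nat_lit 30303570736, nat_lit 32315855392, nat_lit 34921959968, nat_lit 36757518968], nat_lit 0, nat_lit 0, nat_lit 0, nat_lit 0, nat_lit 0, nat_lit 0, [], [nat_lit 34, nat_lit 40, nat_lit 40, nat_lit 80, nat_lit 7, nat_lit 249, nat_lit 40, nat_lit 7]⟩, ⟨p092_k1, nat_lit 0, nat_lit 0, nat_lit 476, nat_lit 0, nat_lit 636077, [nat_lit 3282000000, nat_lit 6250000000, nat_lit 9842000000], [], [nat_lit 36670444904, nat_lit 36887096986, nat_lit 39627832304, nat_lit 40280952094, nat_lit 31935787401, nat_lit 32055693557, nat_lit 33795022707, nat_lit 33901157761], nat_lit 1271250, nat_lit 1271250, nat_lit 1271250, nat_lit 1271250, nat_lit 0, nat_lit 1949250, [nat_lit 780000, nat_lit 1435000, nat_lit 1271250],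 [nat_lit 8, nat_lit 40, nat_lit 40, nat_lit 80, nat_lit 1, nat_lit 289, nat_lit 75, nat_lit 8]⟩,
 zbF0, [⟨nat_lit 7, nat_lit 100, nat_lit 94, nat_lit 69, nat_lit 56101263⟩, ⟨nat_lit 22, nat_lit 60, nat_lit 100, nat_lit 80, nat_lit 47286680⟩]⟩
noncomputable def p092_l13 : Lf2 := ⟨nat_lit 0, nat_lit 15, [nat_lit 30, nat_lit 5, nat_lit 5, nat_lit 20], false, nat_lit 0, nat_lit 160, nat_lit 0, nat_lit 268, ⟨nat_lit 1000, nat_lit 0, nat_lit 0, nat_lit 0, nat_lit 0, nat_lit 0, nat_lit 0, nat_lit 0, nat_lit 0, nat_lit 0, nat_lit 0, nat_lit 0, nat_lit 0, nat_lit 0, nat_lit 0, nat_lit 0, false, false⟩,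
 nat_lit 0, nat_lit 0, nat_lit 10537, nat_lit 0, nat_lit 6494, nat_lit 6997, nat_lit 0, nat_lit 0, nat_lit 0, nat_lit 631, nat_lit 0, nat_lit 0, nat_lit 0, nat_lit 0, nat_lit 0, nat_lit 0, nat_lit 0, nat_lit 0, [],
 ⟨p092_k0, nat_lit 0, nat_lit 0, nat_lit 196, nat_lit 0, nat_lit 0, [nat_lit 2032000001, nat_lit 4688000000, nat_lit 7968000000], [], [nat_lit 35034042272, nat_lit 37834450048, nat_lit 40886317184, nat_lit 43014145152, nat_lit 30303570736, nat_lit 32315855392, nat_lit 34921959968, nat_lit 36757518968], nat_lit 0, nat_lit 0, nat_lit 0, nat_lit 0, nat_lit 0, nat_lit 0, [], [nat_lit 34, nat_lit 40, nat_lit 40, nat_lit 80, nat_lit 7, nat_lit 249, nat_lit 40, nat_lit 7]⟩, ⟨p092_k14, nat_lit 0, nat_lit 0, nat_lit 486, nat_lit 0, nat_lit 669632, [nat_lit 3282000000, nat_lit 6250000000, nat_lit 9842000000], [], [nat_lit 35644820743, nat_lit 35860527034, nat_lit 38957987297, nat_lit 39588600442, nat_lit 31333218562,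 nat_lit 31461593673, nat_lit 33360422773, nat_lit 33508392221], nat_lit 1271250, nat_lit 1271250, nat_lit 1271250, nat_lit 1271250, nat_lit 0, nat_lit 1892750, [nat_lit 780000, nat_lit 1435000, nat_lit 1271250], [nat_lit 8, nat_lit 40, nat_lit 40, nat_lit 80, nat_lit 1, nat_lit 289, nat_lit 75, nat_lit 8]⟩,
 zbF0, [⟨nat_lit 19, nat_lit 90, nat_lit 100, nat_lit 68, nat_lit 53349912⟩, ⟨nat_lit 22, nat_lit 60, nat_lit 100, nat_lit 80, nat_lit 55589729⟩]⟩
noncomputable def p092_l14 : Lf2 := ⟨nat_lit 0, nat_lit 20, [nat_lit 5, nat_lit 5, nat_lit 5, nat_lit 20], false, nat_lit 0, nat_lit 160, nat_lit 0, nat_lit 160, ⟨nat_lit 1000, nat_lit 0, nat_lit 0, nat_lit 0, nat_lit 0, nat_lit 0, nat_lit 0, nat_lit 0, nat_lit 0, nat_lit 0, nat_lit 0, nat_lit 0, nat_lit 0, nat_lit 0, nat_lit 0, nat_lit 0, false, false⟩,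
 nat_lit 0, nat_lit 0, nat_lit 11174, nat_lit 0, nat_lit 5590, nat_lit 7110, nat_lit 511, nat_lit 0, nat_lit 0, nat_lit 772, nat_lit 0, nat_lit 0, nat_lit 0, nat_lit 0, nat_lit 0, nat_lit 0, nat_lit 0, nat_lit 0, [],
 ⟨p092_k2, nat_lit 0, nat_lit 0, nat_lit 215, nat_lit 0, nat_lit 0, [nat_lit 2032000001, nat_lit 4688000000, nat_lit 9842000000], [], [nat_lit 33258623475, nat_lit 35276515555, nat_lit 37716752875, nat_lit 39530542275, nat_lit 29707198675, nat_lit 31427479675, nat_lit 33321747155, nat_lit 34680059635], nat_lit 0, nat_lit 0, nat_lit 0, nat_lit 0, nat_lit 0, nat_lit 0, [], [nat_lit 27, nat_lit 40, nat_lit 40, nat_lit 80, nat_lit 13, nat_lit 249, nat_lit 40, nat_lit 6]⟩, ⟨p092_k3, nat_lit 0, nat_lit 0, nat_lit 525, nat_lit 0, nat_lit 631267, [nat_lit 3282000000, nat_lit 6250000000, nat_lit 11872000000], [], [nat_lit 36460455580, nat_lit 36931937220, nat_lit 39385322840, nat_lit 39898550660, nat_lit 31970996620,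 nat_lit 32353414240, nat_lit 34813803240, nat_lit 35211522020], nat_lit 1271250, nat_lit 1271250, nat_lit 1271250, nat_lit 1271250, nat_lit 0, nat_lit 1100001, [nat_lit 780000, nat_lit 1435000, nat_lit 1271250], [nat_lit 23, nat_lit 40, nat_lit 40, nat_lit 80, nat_lit 12, nat_lit 345, nat_lit 125, nat_lit 8]⟩,
 zbF0, []⟩
noncomputable def p092_l15 : Lf2 := ⟨nat_lit 0, nat_lit 20, [nat_lit 5, nat_lit 5, nat_lit 5, nat_lit 20], false, nat_lit 16, nat_lit 160, nat_lit 160, nat_lit 300, ⟨nat_lit 1000, nat_lit 0, nat_lit 0, nat_lit 0, nat_lit 0, nat_lit 0, nat_lit 0, nat_lit 0, nat_lit 0, nat_lit 0, nat_lit 0, nat_lit 0, nat_lit 0, nat_lit 0, nat_lit 0, nat_lit 0, false, false⟩,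
 nat_lit 0, nat_lit 0, nat_lit 10807, nat_lit 0, nat_lit 6478, nat_lit 6877, nat_lit 422, nat_lit 0, nat_lit 0, nat_lit 754, nat_lit 0, nat_lit 0, nat_lit 0, nat_lit 0, nat_lit 0, nat_lit 0, nat_lit 0, nat_lit 0, [],
 ⟨p092_k2, nat_lit 0, nat_lit 0, nat_lit 203, nat_lit 0, nat_lit 0, [nat_lit 2032000001, nat_lit 4688000000, nat_lit 9842000000], [], [nat_lit 33405667021, nat_lit 34661425021, nat_lit 38674526667, nat_lit 39632852584, nat_lit 29139019910, nat_lit 30055592810, nat_lit 33522950222, nat_lit 34356896926], nat_lit 0, nat_lit 0, nat_lit 0, nat_lit 0, nat_lit 0, nat_lit 0, [], [nat_lit 27, nat_lit 40, nat_lit 40, nat_lit 80, nat_lit 13, nat_lit 249, nat_lit 40, nat_lit 6]⟩, ⟨p092_k3, nat_lit 0, nat_lit 0, nat_lit 266, nat_lit 0, nat_lit 371064, [nat_lit 3282000000, nat_lit 6250000000, nat_lit 11872000000], [], [nat_lit 30082719404, nat_lit 30558985152, nat_lit 32958388126, nat_lit 33448006970, nat_lit 31137763763,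 nat_lit 31604825922, nat_lit 33993621427, nat_lit 34474296139], nat_lit 1271250, nat_lit 1271250, nat_lit 1271250, nat_lit 1271250, nat_lit 1100001, nat_lit 2298750, [nat_lit 780000, nat_lit 1435000, nat_lit 1271250], [nat_lit 23, nat_lit 40, nat_lit 40, nat_lit 80, nat_lit 12, nat_lit 373, nat_lit 150, nat_lit 8]⟩,
 zbF0, [⟨nat_lit 7, nat_lit 100, nat_lit 97, nat_lit 82, nat_lit 285371180⟩, ⟨nat_lit 22, nat_lit 61, nat_lit 100, nat_lit 89, nat_lit 53731164⟩]⟩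
noncomputable def p092_l16 : Lf2 := ⟨nat_lit 0, nat_lit 20, [nat_lit 5, nat_lit 5, nat_lit 5, nat_lit 20], false, nat_lit 16, nat_lit 160, nat_lit 160, nat_lit 300, ⟨nat_lit 1000, nat_lit 0, nat_lit 0, nat_lit 0, nat_lit 0, nat_lit 0, nat_lit 0, nat_lit 0, nat_lit 0, nat_lit 0, nat_lit 0, nat_lit 0, nat_lit 0, nat_lit 0, nat_lit 0, nat_lit 0, false, false⟩,
 nat_lit 0, nat_lit 0, nat_lit 11247, nat_lit 0, nat_lit 6005, nat_lit 7157, nat_lit 219, nat_lit 0, nat_lit 0, nat_lit 705, nat_lit 0, nat_lit 0, nat_lit 0, nat_lit 0, nat_lit 0, nat_lit 0, nat_lit 0, nat_lit 0, [],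
 ⟨p092_k7, nat_lit 0, nat_lit 0, nat_lit 186, nat_lit 0, nat_lit 0, [nat_lit 2032000001, nat_lit 4688000000, nat_lit 7968000000], [], [nat_lit 33366843645, nat_lit 34694627709, nat_lit 38325861223, nat_lit 39359526936, nat_lit 29632686655, nat_lit 30602446860, nat_lit 33750197447, nat_lit 34650807782], nat_lit 0, nat_lit 0, nat_lit 0, nat_lit 0, nat_lit 0, nat_lit 0, [], [nat_lit 34, nat_lit 40, nat_lit 40, nat_lit 80, nat_lit 7, nat_lit 249, nat_lit 40, nat_lit 7]⟩, ⟨p092_k3, nat_lit 0, nat_lit 0, nat_lit 395, nat_lit 0, nat_lit 631267, [nat_lit 3282000000, nat_lit 6250000000, nat_lit 11872000000], [], [nat_lit 31346592710, nat_lit 31703480946, nat_lit 33543654941, nat_lit 33920940064, nat_lit 31941600973, nat_lit 32290209273, nat_lit 34127609723, nat_lit 34497989199], nat_lit 1271250, nat_lit 1271250, nat_lit 1271250, nat_lit 1271250, nat_lit 1100001, nat_lit 2298750, [nat_lit 780000, nat_lit 1435000, nat_lit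 1271250], [nat_lit 23, nat_lit 40, nat_lit 40, nat_lit 80, nat_lit 12, nat_lit 373, nat_lit 150, nat_lit 8]⟩,
 zbF0, [⟨nat_lit 7, nat_lit 100, nat_lit 97, nat_lit 82, nat_lit 287610200⟩, ⟨nat_lit 22, nat_lit 62, nat_lit 100, nat_lit 88, nat_lit 21094688⟩]⟩
noncomputable def p092_l17 : Lf2 := ⟨nat_lit 0, nat_lit 15, [nat_lit 30, nat_lit 5, nat_lit 5, nat_lit 20], false, nat_lit 0, nat_lit 160, nat_lit 0, nat_lit 256, ⟨nat_lit 1000, nat_lit 0, nat_lit 0, nat_lit 0, nat_lit 0, nat_lit 0, nat_lit 0, nat_lit 0, nat_lit 0, nat_lit 0, nat_lit 0, nat_lit 0, nat_lit 0, nat_lit 0, nat_lit 0, nat_lit 0, false, false⟩,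
 nat_lit 0, nat_lit 0, nat_lit 8854, nat_lit 0, nat_lit 6494, nat_lit 6129, nat_lit 0, nat_lit 0, nat_lit 0, nat_lit 682, nat_lit 0, nat_lit 0, nat_lit 0, nat_lit 0, nat_lit 0, nat_lit 0, nat_lit 0, nat_lit 0, [],
 ⟨p092_k0, nat_lit 0, nat_lit 0, nat_lit 196, nat_lit 0, nat_lit 0, [nat_lit 2032000001, nat_lit 4688000000, nat_lit 7968000000], [], [nat_lit 35034042272, nat_lit 37834450048, nat_lit 40886317184, nat_lit 43014145152, nat_lit 30303570736, nat_lit 32315855392, nat_lit 34921959968, nat_lit 36757518968], nat_lit 0, nat_lit 0, nat_lit 0, nat_lit 0, nat_lit 0, nat_lit 0, [], [nat_lit 34, nat_lit 40, nat_lit 40, nat_lit 80, nat_lit 7, nat_lit 249, nat_lit 40, nat_lit 7]⟩, ⟨p092_k9, nat_lit 0, nat_lit 0, nat_lit 522, nat_lit 0, nat_lit 777475, [nat_lit 3282000000, nat_lit 6250000000, nat_lit 9842000000], [], [nat_lit 35278344538, nat_lit 35706453512, nat_lit 37611558060, nat_lit 38421374524, nat_lit 32011866826,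 nat_lit 32315510335, nat_lit 33969690965, nat_lit 34246617567], nat_lit 1271250, nat_lit 1271250, nat_lit 1271250, nat_lit 1271250, nat_lit 0, nat_lit 1808000, [nat_lit 780000, nat_lit 1435000, nat_lit 1271250], [nat_lit 8, nat_lit 40, nat_lit 40, nat_lit 80, nat_lit 1, nat_lit 289, nat_lit 75, nat_lit 8]⟩,
 zbF0, [⟨nat_lit 7, nat_lit 100, nat_lit 84, nat_lit 67, nat_lit 109334477⟩, ⟨nat_lit 22, nat_lit 60, nat_lit 100, nat_lit 80, nat_lit 55775472⟩]⟩
noncomputable def p092_l18 : Lf2 := ⟨nat_lit 0, nat_lit 20, [nat_lit 5, nat_lit 5, nat_lit 5, nat_lit 20], false, nat_lit 0, nat_lit 160, nat_lit 0, nat_lit 280, ⟨nat_lit 1000, nat_lit 0, nat_lit 0, nat_lit 0, nat_lit 0, nat_lit 0, nat_lit 0, nat_lit 0, nat_lit 0, nat_lit 0, nat_lit 0, nat_lit 0, nat_lit 0, nat_lit 0, nat_lit 0, nat_lit 0, false, false⟩,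
 nat_lit 0, nat_lit 0, nat_lit 8730, nat_lit 0, nat_lit 6478, nat_lit 6043, nat_lit 398, nat_lit 0, nat_lit 0, nat_lit 730, nat_lit 0, nat_lit 0, nat_lit 0, nat_lit 0, nat_lit 0, nat_lit 0, nat_lit 0, nat_lit 0, [],
 ⟨p092_k2, nat_lit 0, nat_lit 0, nat_lit 212, nat_lit 0, nat_lit 0, [nat_lit 2032000001, nat_lit 4688000000, nat_lit 9842000000], [], [nat_lit 34525118438, nat_lit 35793319594, nat_lit 39846642950, nat_lit 40811373090, nat_lit 29378944910, nat_lit 30295517810, nat_lit 33762875222, nat_lit 34596821926], nat_lit 0, nat_lit 0, nat_lit 0, nat_lit 0, nat_lit 0, nat_lit 0, [], [nat_lit 27, nat_lit 40, nat_lit 40, nat_lit 80, nat_lit 13, nat_lit 249, nat_lit 40, nat_lit 6]⟩, ⟨p092_k10, nat_lit 0, nat_lit 0, nat_lit 426, nat_lit 0, nat_lit 486042, [nat_lit 3282000000, nat_lit 6250000000, nat_lit 9842000000], [], [nat_lit 33580899256, nat_lit 34134625662, nat_lit 37005944998, nat_lit 38180767508, nat_lit 30680880448,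 nat_lit 31110934448, nat_lit 33268797922, nat_lit 33658546036], nat_lit 1271250, nat_lit 1271250, nat_lit 1271250, nat_lit 1271250, nat_lit 0, nat_lit 1977500, [nat_lit 780000, nat_lit 1435000, nat_lit 1271250], [nat_lit 8, nat_lit 40, nat_lit 40, nat_lit 80, nat_lit 1, nat_lit 289, nat_lit 75, nat_lit 8]⟩,
 zbF0, [⟨nat_lit 19, nat_lit 87, nat_lit 100, nat_lit 79, nat_lit 92266397⟩, ⟨nat_lit 22, nat_lit 60, nat_lit 100, nat_lit 80, nat_lit 65657307⟩]⟩
noncomputable def p092_l19 : Lf2 := ⟨nat_lit 0, nat_lit 20, [nat_lit 5, nat_lit 5, nat_lit 5, nat_lit 20], false, nat_lit 0, nat_lit 160, nat_lit 0, nat_lit 280, ⟨nat_lit 1000, nat_lit 0, nat_lit 0, nat_lit 0, nat_lit 0, nat_lit 0, nat_lit 0, nat_lit 0, nat_lit 0, nat_lit 0, nat_lit 0, nat_lit 0, nat_lit 0, nat_lit 0, nat_lit 0, nat_lit 0, false, false⟩,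
 nat_lit 0, nat_lit 0, nat_lit 9087, nat_lit 0, nat_lit 5593, nat_lit 6290, nat_lit 267, nat_lit 0, nat_lit 0, nat_lit 673, nat_lit 0, nat_lit 0, nat_lit 0, nat_lit 0, nat_lit 0, nat_lit 0, nat_lit 0, nat_lit 0, [],
 ⟨p092_k7, nat_lit 0, nat_lit 0, nat_lit 196, nat_lit 0, nat_lit 0, [nat_lit 2032000001, nat_lit 4688000000, nat_lit 7968000000], [], [nat_lit 33454105520, nat_lit 34745872256, nat_lit 38543167896, nat_lit 39538735156, nat_lit 29753396383, nat_lit 30692313299, nat_lit 33620689746, nat_lit 34483282996], nat_lit 0, nat_lit 0, nat_lit 0, nat_lit 0, nat_lit 0, nat_lit 0, [], [nat_lit 34, nat_lit 40, nat_lit 40, nat_lit 80, nat_lit 7, nat_lit 249, nat_lit 40, nat_lit 7]⟩, ⟨p092_k10, nat_lit 0, nat_lit 0, nat_lit 497, nat_lit 0, nat_lit 703669, [nat_lit 3282000000, nat_lit 6250000000, nat_lit 9842000000], [], [nat_lit 34966858630, nat_lit 35395580370, nat_lit 37674619940, nat_lit 38871813240, nat_lit 31622037425,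 nat_lit 31942355000, nat_lit 33649712880, nat_lit 33941711880], nat_lit 1271250, nat_lit 1271250, nat_lit 1271250, nat_lit 1271250, nat_lit 0, nat_lit 1977500, [nat_lit 780000, nat_lit 1435000, nat_lit 1271250], [nat_lit 8, nat_lit 40, nat_lit 40, nat_lit 80, nat_lit 1, nat_lit 289, nat_lit 75, nat_lit 8]⟩,
 zbF0, [⟨nat_lit 19, nat_lit 87, nat_lit 100, nat_lit 79, nat_lit 127566552⟩]⟩
noncomputable def b_V_800_700_10_30 : St := ⟨true, nat_lit 0, nat_lit 1, nat_lit 1, nat_lit 80, nat_lit 320, nat_lit 360, nat_lit 280, nat_lit 320, nat_lit 240, nat_lit 400, nat_lit 40, nat_lit 80, nat_lit 0, nat_lit 160, nat_lit 0, nat_lit 300, nat_lit 80, nat_lit 120, nat_lit 0, nat_lit 0, nat_lit 0, nat_lit 0⟩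
theorem d_V_800_700_10_30 (h : EB TB.env) : Dead b_V_800_700_10_30 := chkB_sound0 h (T :=
(.spl (nat_lit 2) (nat_lit 320)
(.spl (nat_lit 0) (nat_lit 340)
(.spl (nat_lit 3) (nat_lit 60)
(.trX (nat_lit 19) (nat_lit 99) (nat_lit 100) (nat_lit 77) (nat_lit 276) (.leaf p092_l0))
(.spl (nat_lit 0) (nat_lit 330)
(.leaf p092_l1)
(.leaf p092_l2)))
(.spl (nat_lit 4) (nat_lit 80)
(.spl (nat_lit 1) (nat_lit 300)
(.spl (nat_lit 3) (nat_lit 60)
(.trX (nat_lit 19) (nat_lit 99) (nat_lit 100) (nat_lit 77) (nat_lit 276) (.spl (nat_lit 0) (nat_lit 350)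
(.leaf p092_l3)
(.leaf p092_l4)))
(.spl (nat_lit 0) (nat_lit 350)
(.leaf p092_l5)
(.leaf p092_l6)))
(.trX (nat_lit 19) (nat_lit 94) (nat_lit 100) (nat_lit 87) (nat_lit 280) (.spl (nat_lit 3) (nat_lit 60)
(.trX (nat_lit 19) (nat_lit 90) (nat_lit 100) (nat_lit 74) (nat_lit 256) (.leaf p092_l7))
(.leaf p092_l8))))
(.spl (nat_lit 1) (nat_lit 300)
(.spl (nat_lit 2) (nat_lit 280)
(.leaf p092_l9)
(.leaf p092_l10))
(.trX (nat_lit 19) (nat_lit 94) (nat_lit 100) (nat_lit 87) (nat_lit 280) (.leaf p092_l11)))))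
(.spl (nat_lit 1) (nat_lit 300)
(.spl (nat_lit 3) (nat_lit 60)
(.trX (nat_lit 19) (nat_lit 99) (nat_lit 100) (nat_lit 77) (nat_lit 276) (.spl (nat_lit 1) (nat_lit 290)
(.leaf p092_l12)
(.trX (nat_lit 19) (nat_lit 94) (nat_lit 100) (nat_lit 75) (nat_lit 268) (.leaf p092_l13))))
(.spl (nat_lit 5) (nat_lit 160)
(.leaf p092_l14)
(.trZ (nat_lit 22) (nat_lit 82) (nat_lit 100) (nat_lit 44) (nat_lit 16) (.spl (nat_lit 0) (nat_lit 340)
(.leaf p092_l15)
(.trX (nat_lit 13) (nat_lit 82) (nat_lit 29) (nat_lit 100) (nat_lit 396) (.leaf p092_l16))))))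
(.trX (nat_lit 19) (nat_lit 94) (nat_lit 100) (nat_lit 87) (nat_lit 280) (.spl (nat_lit 3) (nat_lit 60)
(.trX (nat_lit 19) (nat_lit 90) (nat_lit 100) (nat_lit 74) (nat_lit 256) (.leaf p092_l17))
(.spl (nat_lit 0) (nat_lit 340)
(.leaf p092_l18)
(.leaf p092_l19))))))) (by decide +kernel)
noncomputable def p092_l20 : Lf2 := ⟨nat_lit 0, nat_lit 20, [nat_lit 5, nat_lit 5, nat_lit 5, nat_lit 20], false, nat_lit 160, nat_lit 260, nat_lit 0, nat_lit 300, ⟨nat_lit 211, nat_lit 789, nat_lit 0, nat_lit 7, nat_lit 291, nat_lit 789, nat_lit 145, nat_lit 0, nat_lit 0, nat_lit 0, nat_lit 0, nat_lit 0, nat_lit 38701609, nat_lit 21280863, nat_lit 7017528, nat_lit 4910970, true, false⟩,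
 nat_lit 0, nat_lit 0, nat_lit 2558, nat_lit 0, nat_lit 4477, nat_lit 1627, nat_lit 0, nat_lit 0, nat_lit 0, nat_lit 144, nat_lit 0, nat_lit 0, nat_lit 0, nat_lit 0, nat_lit 0, nat_lit 197250, nat_lit 0, nat_lit 0, [(nat_lit 19, [(nat_lit 0, nat_lit 789)]), (nat_lit 22, [(nat_lit 0, nat_lit 789)])],
 ⟨p092_k2, nat_lit 0, nat_lit 0, nat_lit 60, nat_lit 0, nat_lit 0, [nat_lit 1665904001, nat_lit 2857835600, nat_lit 4593249320], [], [nat_lit 20448794736, nat_lit 23216321824, nat_lit 24369144340, nat_lit 26660972092, nat_lit 23525111253, nat_lit 25819854646, nat_lit 26733039974, nat_lit 28870272919], nat_lit 0, nat_lit 0, nat_lit 0, nat_lit 0, nat_lit 0, nat_lit 0, [], [nat_lit 27, nat_lit 40, nat_lit 40, nat_lit 80, nat_lit 13, nat_lit 373, nat_lit 150, nat_lit 10]⟩, ⟨p092_k3, nat_lit 0, nat_lit 0, nat_lit 660, nat_lit 0, nat_lit 890782, [nat_lit 692502000, nat_lit 1318750000, nat_lit 2504992000], [], [nat_lit 7356275872,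 nat_lit 7446314936, nat_lit 7695454228, nat_lit 7817953150, nat_lit 6347003534, nat_lit 6416793881, nat_lit 6543899503, nat_lit 6595013599], nat_lit 1271250, nat_lit 1271250, nat_lit 1271250, nat_lit 1271250, nat_lit 0, nat_lit 2118750, [nat_lit 780000, nat_lit 1435000, nat_lit 1271250], [nat_lit 23, nat_lit 40, nat_lit 40, nat_lit 80, nat_lit 12, nat_lit 483, nat_lit 250, nat_lit 12]⟩,
 ⟨nat_lit 3162, nat_lit 4473, ⟨.ofNat (nat_lit 653959), .ofNat (nat_lit 790054), .ofNat (nat_lit 675435), .ofNat (nat_lit 811546), .ofNat (nat_lit 649288), .ofNat (nat_lit 771333), .ofNat (nat_lit 671352), .ofNat (nat_lit 793414)⟩, ⟨.ofNat (nat_lit 259488), .ofNat (nat_lit 429433), .ofNat (nat_lit 302621), .ofNat (nat_lit 472567), .ofNat (nat_lit 261805), .ofNat (nat_lit 414188), .ofNat (nat_lit 306116), .ofNat (nat_lit 458499)⟩⟩, [⟨nat_lit 4, nat_lit 100, nat_lit 71, nat_lit 71, nat_lit 315084013⟩, ⟨nat_lit 7, nat_lit 100, nat_lit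 94, nat_lit 75, nat_lit 24698906⟩]⟩
noncomputable def p092_l21 : Lf2 := ⟨nat_lit 0, nat_lit 15, [nat_lit 30, nat_lit 5, nat_lit 5, nat_lit 20], false, nat_lit 160, nat_lit 232, nat_lit 16, nat_lit 276, ⟨nat_lit 1000, nat_lit 0, nat_lit 0, nat_lit 0, nat_lit 0, nat_lit 0, nat_lit 0, nat_lit 0, nat_lit 0, nat_lit 0, nat_lit 0, nat_lit 0, nat_lit 0, nat_lit 0, nat_lit 0, nat_lit 0, false, false⟩,
 nat_lit 0, nat_lit 0, nat_lit 11749, nat_lit 0, nat_lit 7947, nat_lit 7476, nat_lit 0, nat_lit 0, nat_lit 0, nat_lit 551, nat_lit 0, nat_lit 0, nat_lit 0, nat_lit 0, nat_lit 0, nat_lit 0, nat_lit 0, nat_lit 0, [],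
 ⟨p092_k0, nat_lit 0, nat_lit 0, nat_lit 105, nat_lit 0, nat_lit 0, [nat_lit 2032000001, nat_lit 4688000000, nat_lit 7968000000], [], [nat_lit 29051724936, nat_lit 31712712484, nat_lit 34643960384, nat_lit 36657511884, nat_lit 30002542832, nat_lit 32304047692, nat_lit 34866601099, nat_lit 36862524451], nat_lit 0, nat_lit 0, nat_lit 0, nat_lit 0, nat_lit 0, nat_lit 0, [], [nat_lit 34, nat_lit 40, nat_lit 40, nat_lit 80, nat_lit 7, nat_lit 272, nat_lit 60, nat_lit 7]⟩, ⟨p092_k1, nat_lit 0, nat_lit 0, nat_lit 491, nat_lit 0, nat_lit 712369, [nat_lit 3282000000, nat_lit 6250000000, nat_lit 9842000000], [], [nat_lit 36490851430, nat_lit 36918075658, nat_lit 39085461101, nat_lit 39621479877, nat_lit 32485342354, nat_lit 32725434602, nat_lit 34153132123, nat_lit 34313989172], nat_lit 1271250, nat_lit 1271250, nat_lit 1271250, nat_lit 1271250, nat_lit 88400, nat_lit 1963651, [nat_lit 780000, nat_lit 1435000, nat_lit 1271250],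 [nat_lit 8, nat_lit 40, nat_lit 40, nat_lit 80, nat_lit 1, nat_lit 289, nat_lit 75, nat_lit 8]⟩,
 zbF0, [⟨nat_lit 13, nat_lit 65, nat_lit 54, nat_lit 100, nat_lit 24782026⟩, ⟨nat_lit 4, nat_lit 100, nat_lit 72, nat_lit 66, nat_lit 2149352467⟩, ⟨nat_lit 7, nat_lit 100, nat_lit 92, nat_lit 68, nat_lit 122467973⟩]⟩
noncomputable def p092_l22 : Lf2 := ⟨nat_lit 0, nat_lit 20, [nat_lit 5, nat_lit 5, nat_lit 5, nat_lit 20], false, nat_lit 160, nat_lit 260, nat_lit 16, nat_lit 300, ⟨nat_lit 1000, nat_lit 0, nat_lit 0, nat_lit 0, nat_lit 0, nat_lit 0, nat_lit 0, nat_lit 0, nat_lit 0, nat_lit 0, nat_lit 0, nat_lit 0, nat_lit 0, nat_lit 0, nat_lit 0, nat_lit 0, false, false⟩,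
 nat_lit 0, nat_lit 0, nat_lit 13054, nat_lit 0, nat_lit 6579, nat_lit 8306, nat_lit 0, nat_lit 0, nat_lit 0, nat_lit 444, nat_lit 0, nat_lit 0, nat_lit 0, nat_lit 0, nat_lit 0, nat_lit 0, nat_lit 0, nat_lit 0, [],
 ⟨p092_k15, nat_lit 0, nat_lit 0, nat_lit 99, nat_lit 0, nat_lit 0, [nat_lit 2032000001, nat_lit 6250000000, nat_lit 9842000000], [], [nat_lit 27153793980, nat_lit 29759421440, nat_lit 32311830433, nat_lit 34345682176, nat_lit 29260909437, nat_lit 31391637345, nat_lit 33508281789, nat_lit 35420693923], nat_lit 0, nat_lit 0, nat_lit 0, nat_lit 0, nat_lit 0, nat_lit 0, [], [nat_lit 61, nat_lit 40, nat_lit 40, nat_lit 80, nat_lit 1, nat_lit 289, nat_lit 75, nat_lit 7]⟩, ⟨p092_k12, nat_lit 0, nat_lit 0, nat_lit 472, nat_lit 0, nat_lit 520220, [nat_lit 3282000000, nat_lit 7968000000, nat_lit 11872000000], [], [nat_lit 39876765679, nat_lit 39972647851, nat_lit 42534826836, nat_lit 42635040504, nat_lit 34085109368,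 nat_lit 34127052372, nat_lit 35895576320, nat_lit 35955084445], nat_lit 1271250, nat_lit 1271250, nat_lit 1271250, nat_lit 1271250, nat_lit 88400, nat_lit 2136750, [nat_lit 780000, nat_lit 1762500, nat_lit 1271250], [nat_lit 79, nat_lit 40, nat_lit 40, nat_lit 80, nat_lit 14, nat_lit 373, nat_lit 150, nat_lit 9]⟩,
 zbF0, [⟨nat_lit 13, nat_lit 65, nat_lit 54, nat_lit 100, nat_lit 35492061⟩, ⟨nat_lit 16, nat_lit 72, nat_lit 100, nat_lit 76, nat_lit 532684169⟩, ⟨nat_lit 7, nat_lit 99, nat_lit 100, nat_lit 83, nat_lit 80593761⟩]⟩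
noncomputable def p092_l23 : Lf2 := ⟨nat_lit 0, nat_lit 20, [nat_lit 5, nat_lit 5, nat_lit 5, nat_lit 20], false, nat_lit 160, nat_lit 260, nat_lit 16, nat_lit 296, ⟨nat_lit 1000, nat_lit 0, nat_lit 0, nat_lit 0, nat_lit 0, nat_lit 0, nat_lit 0, nat_lit 0, nat_lit 0, nat_lit 0, nat_lit 0, nat_lit 0, nat_lit 0, nat_lit 0, nat_lit 0, nat_lit 0, false, false⟩,
 nat_lit 0, nat_lit 0, nat_lit 12505, nat_lit 0, nat_lit 6536, nat_lit 8130, nat_lit 0, nat_lit 0, nat_lit 0, nat_lit 485, nat_lit 0, nat_lit 0, nat_lit 0, nat_lit 0, nat_lit 0, nat_lit 0, nat_lit 0, nat_lit 0, [],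
 ⟨p092_k15, nat_lit 0, nat_lit 0, nat_lit 100, nat_lit 0, nat_lit 0, [nat_lit 2032000001, nat_lit 6250000000, nat_lit 9842000000], [], [nat_lit 27180212320, nat_lit 29776476960, nat_lit 32601743488, nat_lit 34599519264, nat_lit 29288760408, nat_lit 31412640480, nat_lit 33756296736, nat_lit 35627751528], nat_lit 0, nat_lit 0, nat_lit 0, nat_lit 0, nat_lit 0, nat_lit 0, [], [nat_lit 61, nat_lit 40, nat_lit 40, nat_lit 80, nat_lit 1, nat_lit 289, nat_lit 75, nat_lit 7]⟩, ⟨p092_k16, nat_lit 0, nat_lit 0, nat_lit 485, nat_lit 0, nat_lit 538971, [nat_lit 3282000000, nat_lit 7968000000, nat_lit 11872000000], [], [nat_lit 38699376171, nat_lit 38795376210, nat_lit 41624706822, nat_lit 41726951515, nat_lit 33314392486, nat_lit 33380706673, nat_lit 35555686649, nat_lit 35615453257], nat_lit 1271250, nat_lit 1271250, nat_lit 1271250, nat_lit 1271250, nat_lit 88400, nat_lit 2107900, [nat_lit 780000, nat_lit 1762500, nat_lit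 1271250], [nat_lit 79, nat_lit 40, nat_lit 40, nat_lit 80, nat_lit 14, nat_lit 373, nat_lit 150, nat_lit 9]⟩,
 zbF0, [⟨nat_lit 13, nat_lit 66, nat_lit 52, nat_lit 100, nat_lit 67550003⟩, ⟨nat_lit 4, nat_lit 100, nat_lit 72, nat_lit 76, nat_lit 533045030⟩, ⟨nat_lit 7, nat_lit 100, nat_lit 98, nat_lit 83, nat_lit 91359531⟩]⟩
noncomputable def p092_l24 : Lf2 := ⟨nat_lit 0, nat_lit 20, [nat_lit 5, nat_lit 5, nat_lit 5, nat_lit 20], false, nat_lit 160, nat_lit 260, nat_lit 16, nat_lit 292, ⟨nat_lit 1000, nat_lit 0, nat_lit 0, nat_lit 0, nat_lit 0, nat_lit 0, nat_lit 0, nat_lit 0, nat_lit 0, nat_lit 0, nat_lit 0, nat_lit 0, nat_lit 0, nat_lit 0, nat_lit 0, nat_lit 0, false, false⟩,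
 nat_lit 0, nat_lit 0, nat_lit 11655, nat_lit 0, nat_lit 6536, nat_lit 7740, nat_lit 0, nat_lit 0, nat_lit 0, nat_lit 457, nat_lit 0, nat_lit 0, nat_lit 0, nat_lit 0, nat_lit 0, nat_lit 0, nat_lit 0, nat_lit 0, [],
 ⟨p092_k15, nat_lit 0, nat_lit 0, nat_lit 100, nat_lit 0, nat_lit 0, [nat_lit 2032000001, nat_lit 6250000000, nat_lit 9842000000], [], [nat_lit 27180212320, nat_lit 29776476960, nat_lit 32601743488, nat_lit 34599519264, nat_lit 29288760408, nat_lit 31412640480, nat_lit 33756296736, nat_lit 35627751528], nat_lit 0, nat_lit 0, nat_lit 0, nat_lit 0, nat_lit 0, nat_lit 0, [], [nat_lit 61, nat_lit 40, nat_lit 40, nat_lit 80, nat_lit 1, nat_lit 289, nat_lit 75, nat_lit 7]⟩, ⟨p092_k17, nat_lit 0, nat_lit 0, nat_lit 503, nat_lit 0, nat_lit 593271, [nat_lit 3282000000, nat_lit 7968000000, nat_lit 11872000000], [], [nat_lit 38509183868, nat_lit 38764418624, nat_lit 41482758771, nat_lit 41796675322, nat_lit 34052815062,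 nat_lit 34190403425, nat_lit 35904744290, nat_lit 35988030591], nat_lit 1271250, nat_lit 1271250, nat_lit 1271250, nat_lit 1271250, nat_lit 88400, nat_lit 2079050, [nat_lit 780000, nat_lit 1762500, nat_lit 1271250], [nat_lit 79, nat_lit 40, nat_lit 40, nat_lit 80, nat_lit 14, nat_lit 373, nat_lit 150, nat_lit 9]⟩,
 zbF0, [⟨nat_lit 13, nat_lit 67, nat_lit 50, nat_lit 100, nat_lit 31998863⟩, ⟨nat_lit 4, nat_lit 100, nat_lit 72, nat_lit 76, nat_lit 533045030⟩, ⟨nat_lit 7, nat_lit 100, nat_lit 94, nat_lit 81, nat_lit 101536049⟩]⟩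
noncomputable def p092_l25 : Lf2 := ⟨nat_lit 0, nat_lit 20, [nat_lit 5, nat_lit 5, nat_lit 5, nat_lit 20], false, nat_lit 160, nat_lit 260, nat_lit 0, nat_lit 160, ⟨nat_lit 1000, nat_lit 0, nat_lit 0, nat_lit 0, nat_lit 0, nat_lit 0, nat_lit 0, nat_lit 0, nat_lit 0, nat_lit 0, nat_lit 0, nat_lit 0, nat_lit 0, nat_lit 0, nat_lit 0, nat_lit 0, false, false⟩,
 nat_lit 0, nat_lit 0, nat_lit 8261, nat_lit 0, nat_lit 7297, nat_lit 5719, nat_lit 0, nat_lit 0, nat_lit 0, nat_lit 1449, nat_lit 0, nat_lit 0, nat_lit 0, nat_lit 0, nat_lit 0, nat_lit 0, nat_lit 0, nat_lit 0, [],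
 ⟨p092_k15, nat_lit 0, nat_lit 0, nat_lit 100, nat_lit 0, nat_lit 0, [nat_lit 2032000001, nat_lit 6250000000, nat_lit 9842000000], [], [nat_lit 22182270532, nat_lit 25594341636, nat_lit 33072840968, nat_lit 35709032920, nat_lit 25232683117, nat_lit 28000434893, nat_lit 34454983510, nat_lit 36596483981], nat_lit 0, nat_lit 0, nat_lit 0, nat_lit 0, nat_lit 0, nat_lit 0, [], [nat_lit 61, nat_lit 40, nat_lit 40, nat_lit 80, nat_lit 1, nat_lit 401, nat_lit 175, nat_lit 10]⟩, ⟨p092_k13, nat_lit 0, nat_lit 0, nat_lit 612, nat_lit 0, nat_lit 935966, [nat_lit 3282000000, nat_lit 7968000000, nat_lit 9842000000], [], [nat_lit 32135843052, nat_lit 32560589960, nat_lit 36128816734, nat_lit 37274294564, nat_lit 29523986604, nat_lit 29873262296, nat_lit 32281722694, nat_lit 32586058354], nat_lit 1271250, nat_lit 1271250, nat_lit 1271250, nat_lit 1271250, nat_lit 0, nat_lit 1100001, [nat_lit 780000, nat_lit 1762500, nat_lit 1271250],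 [nat_lit 99, nat_lit 40, nat_lit 40, nat_lit 80, nat_lit 17, nat_lit 373, nat_lit 150, nat_lit 10]⟩,
 zbF0, [⟨nat_lit 4, nat_lit 100, nat_lit 71, nat_lit 71, nat_lit 1392963639⟩]⟩
noncomputable def p092_l26 : Lf2 := ⟨nat_lit 0, nat_lit 20, [nat_lit 5, nat_lit 5, nat_lit 5, nat_lit 20], false, nat_lit 160, nat_lit 260, nat_lit 160, nat_lit 280, ⟨nat_lit 1000, nat_lit 0, nat_lit 0, nat_lit 0, nat_lit 0, nat_lit 0, nat_lit 0, nat_lit 0, nat_lit 0, nat_lit 0, nat_lit 0, nat_lit 0, nat_lit 0, nat_lit 0, nat_lit 0, nat_lit 0, false, false⟩,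
 nat_lit 0, nat_lit 0, nat_lit 9138, nat_lit 0, nat_lit 6629, nat_lit 6326, nat_lit 0, nat_lit 0, nat_lit 0, nat_lit 1095, nat_lit 0, nat_lit 0, nat_lit 0, nat_lit 0, nat_lit 0, nat_lit 0, nat_lit 0, nat_lit 0, [],
 ⟨p092_k15, nat_lit 0, nat_lit 0, nat_lit 100, nat_lit 0, nat_lit 0, [nat_lit 2032000001, nat_lit 6250000000, nat_lit 9842000000], [], [nat_lit 22800333524, nat_lit 26016792852, nat_lit 32588091832, nat_lit 34734848440, nat_lit 25800442369, nat_lit 28421763201, nat_lit 33728543304, nat_lit 35746138017], nat_lit 0, nat_lit 0, nat_lit 0, nat_lit 0, nat_lit 0, nat_lit 0, [], [nat_lit 61, nat_lit 40, nat_lit 40, nat_lit 80, nat_lit 1, nat_lit 401, nat_lit 175, nat_lit 10]⟩, ⟨p092_k13, nat_lit 0, nat_lit 0, nat_lit 466, nat_lit 0, nat_lit 860326, [nat_lit 3282000000, nat_lit 7968000000, nat_lit 9842000000], [], [nat_lit 28036030987, nat_lit 28290045277, nat_lit 32332352907, nat_lit 32527705381, nat_lit 29153588315,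 nat_lit 29345811329, nat_lit 33177479126, nat_lit 33579863975], nat_lit 1271250, nat_lit 1271250, nat_lit 1271250, nat_lit 1271250, nat_lit 1100001, nat_lit 2127500, [nat_lit 780000, nat_lit 1762500, nat_lit 1271250], [nat_lit 99, nat_lit 40, nat_lit 40, nat_lit 80, nat_lit 17, nat_lit 401, nat_lit 175, nat_lit 10]⟩,
 zbF0, [⟨nat_lit 4, nat_lit 100, nat_lit 71, nat_lit 71, nat_lit 1065702555⟩, ⟨nat_lit 7, nat_lit 100, nat_lit 88, nat_lit 74, nat_lit 397322559⟩]⟩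
noncomputable def p092_l27 : Lf2 := ⟨nat_lit 0, nat_lit 20, [nat_lit 5, nat_lit 5, nat_lit 5, nat_lit 20], false, nat_lit 160, nat_lit 260, nat_lit 160, nat_lit 268, ⟨nat_lit 1000, nat_lit 0, nat_lit 0, nat_lit 0, nat_lit 0, nat_lit 0, nat_lit 0, nat_lit 0, nat_lit 0, nat_lit 0, nat_lit 0, nat_lit 0, nat_lit 0, nat_lit 0, nat_lit 0, nat_lit 0, false, false⟩,
 nat_lit 0, nat_lit 0, nat_lit 7631, nat_lit 0, nat_lit 6657, nat_lit 5501, nat_lit 0, nat_lit 0, nat_lit 0, nat_lit 1092, nat_lit 0, nat_lit 0, nat_lit 0, nat_lit 0, nat_lit 0, nat_lit 0, nat_lit 0, nat_lit 0, [],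
 ⟨p092_k15, nat_lit 0, nat_lit 0, nat_lit 100, nat_lit 0, nat_lit 0, [nat_lit 2032000001, nat_lit 6250000000, nat_lit 9842000000], [], [nat_lit 22774426692, nat_lit 25999085316, nat_lit 32583981656, nat_lit 34775682520, nat_lit 25776644077, nat_lit 28404102733, nat_lit 33731252310, nat_lit 35781781261], nat_lit 0, nat_lit 0, nat_lit 0, nat_lit 0, nat_lit 0, nat_lit 0, [], [nat_lit 61, nat_lit 40, nat_lit 40, nat_lit 80, nat_lit 1, nat_lit 401, nat_lit 175, nat_lit 10]⟩, ⟨p092_k18, nat_lit 0, nat_lit 0, nat_lit 476, nat_lit 0, nat_lit 883303, [nat_lit 3282000000, nat_lit 7968000000, nat_lit 9842000000], [], [nat_lit 27419724877, nat_lit 27667209292, nat_lit 31496220211, nat_lit 31713611328, nat_lit 28426497703, nat_lit 28624369560, nat_lit 32270600527, nat_lit 32667634308], nat_lit 1271250, nat_lit 1271250, nat_lit 1271250, nat_lit 1271250, nat_lit 1100001, nat_lit 2024750, [nat_lit 780000, nat_lit 1762500, nat_lit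 1271250], [nat_lit 99, nat_lit 40, nat_lit 40, nat_lit 80, nat_lit 17, nat_lit 401, nat_lit 175, nat_lit 10]⟩,
 zbF0, [⟨nat_lit 4, nat_lit 100, nat_lit 71, nat_lit 71, nat_lit 741618954⟩, ⟨nat_lit 7, nat_lit 100, nat_lit 83, nat_lit 73, nat_lit 422737329⟩]⟩
noncomputable def b_V_800_700_10_31 : St := ⟨true, nat_lit 0, nat_lit 1, nat_lit 1, nat_lit 80, nat_lit 320, nat_lit 360, nat_lit 280, nat_lit 320, nat_lit 240, nat_lit 400, nat_lit 40, nat_lit 80, nat_lit 160, nat_lit 260, nat_lit 0, nat_lit 300, nat_lit 80, nat_lit 120, nat_lit 0, nat_lit 0, nat_lit 0, nat_lit 0⟩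
theorem d_V_800_700_10_31 (h : EB TB.env) : Dead b_V_800_700_10_31 := chkB_sound0 h (T :=
(.spl (nat_lit 1) (nat_lit 300)
(.spl (nat_lit 2) (nat_lit 320)
(.leaf p092_l20)
(.trZ (nat_lit 9) (nat_lit 100) (nat_lit 82) (nat_lit 44) (nat_lit 16) (.spl (nat_lit 3) (nat_lit 60)
(.trX (nat_lit 16) (nat_lit 81) (nat_lit 100) (nat_lit 72) (nat_lit 232) (.trX (nat_lit 19) (nat_lit 99) (nat_lit 100) (nat_lit 77) (nat_lit 276) (.leaf p092_l21)))
(.spl (nat_lit 1) (nat_lit 290)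
(.spl (nat_lit 1) (nat_lit 285)
(.trX (nat_lit 13) (nat_lit 88) (nat_lit 22) (nat_lit 100) (nat_lit 396) (.leaf p092_l22))
(.trX (nat_lit 19) (nat_lit 100) (nat_lit 98) (nat_lit 88) (nat_lit 296) (.leaf p092_l23)))
(.trX (nat_lit 19) (nat_lit 100) (nat_lit 100) (nat_lit 89) (nat_lit 292) (.leaf p092_l24))))))
(.trX (nat_lit 19) (nat_lit 94) (nat_lit 100) (nat_lit 87) (nat_lit 280) (.spl (nat_lit 5) (nat_lit 160)
(.leaf p092_l25)
(.spl (nat_lit 1) (nat_lit 310)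
(.leaf p092_l26)
(.trX (nat_lit 19) (nat_lit 89) (nat_lit 100) (nat_lit 85) (nat_lit 268) (.leaf p092_l27))))))) (by decide +kernel)
noncomputable def p092_l28 : Lf2 := ⟨nat_lit 0, nat_lit 20, [nat_lit 5, nat_lit 5, nat_lit 5, nat_lit 20], true, nat_lit 0, nat_lit 260, nat_lit 0, nat_lit 300, ⟨nat_lit 0, nat_lit 1000, nat_lit 0, nat_lit 7, nat_lit 224, nat_lit 1000, nat_lit 89, nat_lit 0, nat_lit 0, nat_lit 0, nat_lit 0, nat_lit 0, nat_lit 0, nat_lit 0, nat_lit 0, nat_lit 5000000, false, false⟩,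
 nat_lit 0, nat_lit 0, nat_lit 0, nat_lit 2994, nat_lit 6420, nat_lit 0, nat_lit 0, nat_lit 0, nat_lit 0, nat_lit 0, nat_lit 0, nat_lit 0, nat_lit 0, nat_lit 0, nat_lit 0, nat_lit 250000, nat_lit 0, nat_lit 0, [(nat_lit 19, [(nat_lit 0, nat_lit 1000)]), (nat_lit 22, [(nat_lit 0, nat_lit 1000)])],
 ⟨p092_k2, nat_lit 0, nat_lit 0, nat_lit 205, nat_lit 0, nat_lit 0, [nat_lit 1568000001, nat_lit 2368400000, nat_lit 3220880000], [], [nat_lit 25570042600, nat_lit 29560994240, nat_lit 27770373760, nat_lit 30885902800, nat_lit 24282271350, nat_lit 27024404030, nat_lit 25376791900, nat_lit 27535021720], nat_lit 0, nat_lit 0, nat_lit 0, nat_lit 0, nat_lit 0, nat_lit 0, [], [nat_lit 27, nat_lit 40, nat_lit 40, nat_lit 80, nat_lit 13, nat_lit 345, nat_lit 125, nat_lit 10]⟩, C1.Rw.none,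
 ⟨nat_lit 3162, nat_lit 4473, ⟨.ofNat (nat_lit 415764), .ofNat (nat_lit 653959), .ofNat (nat_lit 458716), .ofNat (nat_lit 696911), .ofNat (nat_lit 435680), .ofNat (nat_lit 649288), .ofNat (nat_lit 479808), .ofNat (nat_lit 693416)⟩, ⟨.negSucc (nat_lit 12437), .ofNat (nat_lit 429433), .ofNat (nat_lit 0), .ofNat (nat_lit 472567), .ofNat (nat_lit 0), .ofNat (nat_lit 414188), .ofNat (nat_lit 0), .ofNat (nat_lit 458499)⟩⟩, []⟩
noncomputable def p092_l29 : Lf2 := ⟨nat_lit 0, nat_lit 20, [nat_lit 5, nat_lit 5, nat_lit 5, nat_lit 20], false, nat_lit 0, nat_lit 260, nat_lit 0, nat_lit 300, ⟨nat_lit 1000, nat_lit 0, nat_lit 0, nat_lit 0, nat_lit 0, nat_lit 0, nat_lit 0, nat_lit 0, nat_lit 0, nat_lit 0, nat_lit 0, nat_lit 0, nat_lit 0, nat_lit 0, nat_lit 0, nat_lit 0, false, false⟩,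
 nat_lit 0, nat_lit 0, nat_lit 0, nat_lit 2871, nat_lit 8345, nat_lit 10387, nat_lit 0, nat_lit 0, nat_lit 0, nat_lit 0, nat_lit 0, nat_lit 0, nat_lit 0, nat_lit 0, nat_lit 0, nat_lit 0, nat_lit 0, nat_lit 0, [],
 ⟨p092_k2, nat_lit 0, nat_lit 0, nat_lit 215, nat_lit 0, nat_lit 0, [nat_lit 2032000001, nat_lit 4688000000, nat_lit 9842000000], [], [nat_lit 35156350160, nat_lit 38817832300, nat_lit 45928388000, nat_lit 48101043700, nat_lit 30502562275, nat_lit 32981056270, nat_lit 37732173010, nat_lit 39215855095], nat_lit 0, nat_lit 0, nat_lit 0, nat_lit 0, nat_lit 0, nat_lit 0, [], [nat_lit 27, nat_lit 40, nat_lit 40, nat_lit 80, nat_lit 13, nat_lit 401, nat_lit 175, nat_lit 11]⟩, ⟨p092_k3, nat_lit 0, nat_lit 0, nat_lit 242, nat_lit 0, nat_lit 0, [nat_lit 3282000000, nat_lit 6250000000, nat_lit 11872000000], [], [nat_lit 37997693936, nat_lit 41251605456, nat_lit 50258496800, nat_lit 51937083944, nat_lit 32683556067,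 nat_lit 34508752529, nat_lit 39708376122, nat_lit 40568386402], nat_lit 0, nat_lit 0, nat_lit 0, nat_lit 0, nat_lit 0, nat_lit 0, [], [nat_lit 23, nat_lit 40, nat_lit 40, nat_lit 80, nat_lit 12, nat_lit 538, nat_lit 300, nat_lit 13]⟩,
 zbF0, []⟩
noncomputable def p092_l30 : Lf2 := ⟨nat_lit 0, nat_lit 20, [nat_lit 5, nat_lit 5, nat_lit 5, nat_lit 20], true, nat_lit 0, nat_lit 260, nat_lit 0, nat_lit 300, ⟨nat_lit 0, nat_lit 1000, nat_lit 0, nat_lit 7, nat_lit 224, nat_lit 1000, nat_lit 89, nat_lit 0, nat_lit 0, nat_lit 0, nat_lit 0, nat_lit 0, nat_lit 0, nat_lit 0, nat_lit 0, nat_lit 5000000, false, false⟩,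
 nat_lit 0, nat_lit 0, nat_lit 0, nat_lit 2994, nat_lit 6420, nat_lit 0, nat_lit 0, nat_lit 0, nat_lit 0, nat_lit 0, nat_lit 0, nat_lit 0, nat_lit 0, nat_lit 0, nat_lit 0, nat_lit 250000, nat_lit 0, nat_lit 0, [(nat_lit 19, [(nat_lit 0, nat_lit 1000)]), (nat_lit 22, [(nat_lit 0, nat_lit 1000)])],
 ⟨p092_k2, nat_lit 0, nat_lit 0, nat_lit 205, nat_lit 0, nat_lit 0, [nat_lit 1568000001, nat_lit 2368400000, nat_lit 3220880000], [], [nat_lit 25570042600, nat_lit 29560994240, nat_lit 27770373760, nat_lit 30885902800, nat_lit 24282271350, nat_lit 27024404030, nat_lit 25376791900, nat_lit 27535021720], nat_lit 0, nat_lit 0, nat_lit 0, nat_lit 0, nat_lit 0, nat_lit 0, [], [nat_lit 27, nat_lit 40, nat_lit 40, nat_lit 80, nat_lit 13, nat_lit 345, nat_lit 125, nat_lit 10]⟩, C1.Rw.none,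
 ⟨nat_lit 3162, nat_lit 4473, ⟨.ofNat (nat_lit 415764), .ofNat (nat_lit 653959), .ofNat (nat_lit 458716), .ofNat (nat_lit 696911), .ofNat (nat_lit 435680), .ofNat (nat_lit 649288), .ofNat (nat_lit 479808), .ofNat (nat_lit 693416)⟩, ⟨.negSucc (nat_lit 12437), .ofNat (nat_lit 429433), .ofNat (nat_lit 0), .ofNat (nat_lit 472567), .ofNat (nat_lit 0), .ofNat (nat_lit 414188), .ofNat (nat_lit 0), .ofNat (nat_lit 458499)⟩⟩, []⟩
noncomputable def p092_l31 : Lf2 := ⟨nat_lit 0, nat_lit 20, [nat_lit 5, nat_lit 5, nat_lit 5, nat_lit 20], false, nat_lit 0, nat_lit 160, nat_lit 0, nat_lit 300, ⟨nat_lit 240, nat_lit 760, nat_lit 0, nat_lit 7, nat_lit 319, nat_lit 760, nat_lit 56, nat_lit 0, nat_lit 0, nat_lit 0, nat_lit 0, nat_lit 0, nat_lit 0, nat_lit 0, nat_lit 0, nat_lit 5000000, true, true⟩,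
 nat_lit 0, nat_lit 0, nat_lit 2735, nat_lit 0, nat_lit 4272, nat_lit 1740, nat_lit 187, nat_lit 0, nat_lit 0, nat_lit 154, nat_lit 0, nat_lit 0, nat_lit 0, nat_lit 0, nat_lit 0, nat_lit 285400, nat_lit 0, nat_lit 0, [(nat_lit 19, [(nat_lit 0, nat_lit 124), (nat_lit 1, nat_lit 636)])],
 ⟨p092_k2, nat_lit 0, nat_lit 0, nat_lit 212, nat_lit 0, nat_lit 0, [nat_lit 1568150401, nat_lit 2714715200, nat_lit 3909003200], [], [nat_lit 26301415287, nat_lit 27376473607, nat_lit 33538148375, nat_lit 34378188528, nat_lit 24610992759, nat_lit 25530678535, nat_lit 30446284599, nat_lit 31075704791], nat_lit 0, nat_lit 0, nat_lit 0, nat_lit 0, nat_lit 0, nat_lit 0, [], [nat_lit 27, nat_lit 40, nat_lit 40, nat_lit 80, nat_lit 13, nat_lit 373, nat_lit 150, nat_lit 10]⟩, ⟨p092_k3, nat_lit 0, nat_lit 0, nat_lit 525, nat_lit 0, nat_lit 618725, [nat_lit 787680000, nat_lit 1500000000, nat_lit 2849280000], [], [nat_lit 8621628060, nat_lit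 8757569340, nat_lit 9822209820, nat_lit 9917861460, nat_lit 7762844910, nat_lit 7842871800, nat_lit 8398673250, nat_lit 8459571030], nat_lit 1271250, nat_lit 1271250, nat_lit 1271250, nat_lit 1271250, nat_lit 0, nat_lit 2118750, [nat_lit 780000, nat_lit 1435000, nat_lit 1271250], [nat_lit 23, nat_lit 40, nat_lit 40, nat_lit 80, nat_lit 12, nat_lit 483, nat_lit 250, nat_lit 12]⟩,
 ⟨nat_lit 3872, nat_lit 4473, ⟨.ofNat (nat_lit 654181), .ofNat (nat_lit 926124), .ofNat (nat_lit 675730), .ofNat (nat_lit 947674), .ofNat (nat_lit 651631), .ofNat (nat_lit 909748), .ofNat (nat_lit 673407), .ofNat (nat_lit 931525)⟩, ⟨.negSucc (nat_lit 12427), .ofNat (nat_lit 259489), .ofNat (nat_lit 0), .ofNat (nat_lit 302621), .ofNat (nat_lit 0), .ofNat (nat_lit 261131), .ofNat (nat_lit 0), .ofNat (nat_lit 304717)⟩⟩, [⟨nat_lit 13, nat_lit 85, nat_lit 27, nat_lit 100, nat_lit 100244496⟩, ⟨nat_lit 10, nat_lit 100, nat_lit 39, nat_lit 83, nat_lit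 58985657⟩]⟩
noncomputable def p092_l32 : Lf2 := ⟨nat_lit 0, nat_lit 20, [nat_lit 5, nat_lit 5, nat_lit 5, nat_lit 20], true, nat_lit 0, nat_lit 160, nat_lit 0, nat_lit 300, ⟨nat_lit 0, nat_lit 1000, nat_lit 0, nat_lit 7, nat_lit 314, nat_lit 1000, nat_lit 57, nat_lit 0, nat_lit 0, nat_lit 0, nat_lit 0, nat_lit 0, nat_lit 0, nat_lit 0, nat_lit 0, nat_lit 5000000, true, true⟩,
 nat_lit 0, nat_lit 0, nat_lit 0, nat_lit 3960, nat_lit 3257, nat_lit 0, nat_lit 0, nat_lit 0, nat_lit 0, nat_lit 0, nat_lit 0, nat_lit 0, nat_lit 0, nat_lit 0, nat_lit 0, nat_lit 367150, nat_lit 0, nat_lit 0, [(nat_lit 22, [(nat_lit 0, nat_lit 219), (nat_lit 1, nat_lit 781)])],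
 ⟨p092_k7, nat_lit 0, nat_lit 0, nat_lit 195, nat_lit 0, nat_lit 0, [nat_lit 1404302400, nat_lit 1645904000, nat_lit 1689824000], [], [nat_lit 25482914276, nat_lit 26465164612, nat_lit 31618980703, nat_lit 32442366355, nat_lit 25106162574, nat_lit 25950281076, nat_lit 30231885924, nat_lit 30841978864], nat_lit 0, nat_lit 0, nat_lit 0, nat_lit 0, nat_lit 0, nat_lit 0, [], [nat_lit 34, nat_lit 40, nat_lit 40, nat_lit 80, nat_lit 7, nat_lit 249, nat_lit 40, nat_lit 7]⟩, C1.Rw.none,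
 ⟨nat_lit 3162, nat_lit 3873, ⟨.ofNat (nat_lit 651611), .ofNat (nat_lit 903327), .ofNat (nat_lit 673376), .ofNat (nat_lit 925121), .ofNat (nat_lit 649490), .ofNat (nat_lit 887290), .ofNat (nat_lit 671616), .ofNat (nat_lit 909444)⟩, ⟨.ofNat (nat_lit 0), .ofNat (nat_lit 261131), .ofNat (nat_lit 0), .ofNat (nat_lit 304717), .ofNat (nat_lit 0), .ofNat (nat_lit 261806), .ofNat (nat_lit 0), .ofNat (nat_lit 306116)⟩⟩, [⟨nat_lit 13, nat_lit 74, nat_lit 42, nat_lit 100, nat_lit 150539876⟩, ⟨nat_lit 13, nat_lit 82, nat_lit 29, nat_lit 100, nat_lit 130187005⟩]⟩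
noncomputable def p092_l33 : Lf2 := ⟨nat_lit 0, nat_lit 20, [nat_lit 5, nat_lit 5, nat_lit 5, nat_lit 20], false, nat_lit 0, nat_lit 160, nat_lit 0, nat_lit 280, ⟨nat_lit 452, nat_lit 548, nat_lit 0, nat_lit 7, nat_lit 327, nat_lit 548, nat_lit 56, nat_lit 0, nat_lit 0, nat_lit 0, nat_lit 0, nat_lit 0, nat_lit 0, nat_lit 0, nat_lit 0, nat_lit 5000000, true, true⟩,
 nat_lit 0, nat_lit 0, nat_lit 3968, nat_lit 0, nat_lit 4710, nat_lit 2746, nat_lit 263, nat_lit 0, nat_lit 0, nat_lit 303, nat_lit 0, nat_lit 0, nat_lit 0, nat_lit 0, nat_lit 0, nat_lit 219200, nat_lit 0, nat_lit 0, [(nat_lit 19, [(nat_lit 1, nat_lit 548)])],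
 ⟨p092_k2, nat_lit 0, nat_lit 0, nat_lit 212, nat_lit 0, nat_lit 0, [nat_lit 1684641067, nat_lit 3235580801, nat_lit 5452520000], [], [nat_lit 27272627836, nat_lit 28397315936, nat_lit 34815265875, nat_lit 35664846175, nat_lit 25130616796, nat_lit 26089090976, nat_lit 31155439996, nat_lit 31801388556], nat_lit 0, nat_lit 0, nat_lit 0, nat_lit 0, nat_lit 0, nat_lit 0, [], [nat_lit 27, nat_lit 40, nat_lit 40, nat_lit 80, nat_lit 13, nat_lit 373, nat_lit 150, nat_lit 10]⟩, ⟨p092_k10, nat_lit 0, nat_lit 0, nat_lit 498, nat_lit 0, nat_lit 708648, [nat_lit 1483464000, nat_lit 2825000000, nat_lit 4448584000], [], [nat_lit 15459634578, nat_lit 15673625054, nat_lit 17175995582, nat_lit 17318539478, nat_lit 14356265480, nat_lit 14487534714, nat_lit 15616382482, nat_lit 15732819392], nat_lit 1271250, nat_lit 1271250, nat_lit 1271250, nat_lit 1271250, nat_lit 0, nat_lit 1977500, [nat_lit 780000, nat_lit 1435000, nat_lit 1271250],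 [nat_lit 8, nat_lit 40, nat_lit 40, nat_lit 80, nat_lit 1, nat_lit 401, nat_lit 175, nat_lit 11]⟩,
 ⟨nat_lit 3872, nat_lit 4473, ⟨.ofNat (nat_lit 675730), .ofNat (nat_lit 947674), .ofNat (nat_lit 697279), .ofNat (nat_lit 969223), .ofNat (nat_lit 673407), .ofNat (nat_lit 931525), .ofNat (nat_lit 695183), .ofNat (nat_lit 953301)⟩, ⟨.negSucc (nat_lit 12427), .ofNat (nat_lit 259489), .ofNat (nat_lit 0), .ofNat (nat_lit 302621), .ofNat (nat_lit 0), .ofNat (nat_lit 261131), .ofNat (nat_lit 0), .ofNat (nat_lit 304717)⟩⟩, [⟨nat_lit 7, nat_lit 100, nat_lit 85, nat_lit 73, nat_lit 51529478⟩, ⟨nat_lit 10, nat_lit 100, nat_lit 35, nat_lit 84, nat_lit 64582428⟩]⟩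
noncomputable def p092_l34 : Lf2 := ⟨nat_lit 0, nat_lit 20, [nat_lit 5, nat_lit 5, nat_lit 5, nat_lit 20], false, nat_lit 0, nat_lit 160, nat_lit 0, nat_lit 280, ⟨nat_lit 169, nat_lit 831, nat_lit 0, nat_lit 7, nat_lit 324, nat_lit 831, nat_lit 57, nat_lit 0, nat_lit 0, nat_lit 0, nat_lit 0, nat_lit 0, nat_lit 0, nat_lit 0, nat_lit 0, nat_lit 5000000, true, true⟩,
 nat_lit 0, nat_lit 0, nat_lit 1559, nat_lit 0, nat_lit 3836, nat_lit 1078, nat_lit 0, nat_lit 0, nat_lit 0, nat_lit 101, nat_lit 0, nat_lit 0, nat_lit 0, nat_lit 0, nat_lit 0, nat_lit 332400, nat_lit 0, nat_lit 0, [(nat_lit 22, [(nat_lit 1, nat_lit 831)])],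
 ⟨p092_k7, nat_lit 0, nat_lit 0, nat_lit 196, nat_lit 0, nat_lit 0, [nat_lit 1472238401, nat_lit 2084310801, nat_lit 2505670800], [], [nat_lit 26087879329, nat_lit 27201845841, nat_lit 33328943392, nat_lit 34207484112, nat_lit 25028551354, nat_lit 25926682450, nat_lit 30723157592, nat_lit 31478134592], nat_lit 0, nat_lit 0, nat_lit 0, nat_lit 0, nat_lit 0, nat_lit 0, [], [nat_lit 34, nat_lit 40, nat_lit 40, nat_lit 80, nat_lit 7, nat_lit 249, nat_lit 40, nat_lit 7]⟩, ⟨p092_k10, nat_lit 0, nat_lit 0, nat_lit 607, nat_lit 0, nat_lit 935966, [nat_lit 554658000, nat_lit 1056250000, nat_lit 1663298000], [], [nat_lit 5985480358, nat_lit 6059559854, nat_lit 6566010182, nat_lit 6615337626, nat_lit 5554382651, nat_lit 5598485958, nat_lit 5895668269, nat_lit 5922988701], nat_lit 1271250, nat_lit 1271250, nat_lit 1271250, nat_lit 1271250, nat_lit 0, nat_lit 1977500, [nat_lit 780000, nat_lit 1435000, nat_lit 1271250], [nat_lit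 8, nat_lit 40, nat_lit 40, nat_lit 80, nat_lit 1, nat_lit 401, nat_lit 175, nat_lit 11]⟩,
 ⟨nat_lit 3162, nat_lit 3873, ⟨.ofNat (nat_lit 673376), .ofNat (nat_lit 931573), .ofNat (nat_lit 695141), .ofNat (nat_lit 953347), .ofNat (nat_lit 671616), .ofNat (nat_lit 915540), .ofNat (nat_lit 693742), .ofNat (nat_lit 937676)⟩, ⟨.ofNat (nat_lit 0), .ofNat (nat_lit 261131), .ofNat (nat_lit 0), .ofNat (nat_lit 304717), .ofNat (nat_lit 0), .ofNat (nat_lit 261806), .ofNat (nat_lit 0), .ofNat (nat_lit 306116)⟩⟩, [⟨nat_lit 13, nat_lit 79, nat_lit 31, nat_lit 100, nat_lit 129875543⟩, ⟨nat_lit 10, nat_lit 100, nat_lit 35, nat_lit 84, nat_lit 58855128⟩]⟩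
noncomputable def p092_l35 : Lf2 := ⟨nat_lit 0, nat_lit 20, [nat_lit 5, nat_lit 5, nat_lit 5, nat_lit 20], false, nat_lit 160, nat_lit 260, nat_lit 0, nat_lit 300, ⟨nat_lit 243, nat_lit 757, nat_lit 0, nat_lit 7, nat_lit 317, nat_lit 757, nat_lit 145, nat_lit 0, nat_lit 0, nat_lit 0, nat_lit 0, nat_lit 0, nat_lit 0, nat_lit 0, nat_lit 0, nat_lit 5000000, true, true⟩,
 nat_lit 0, nat_lit 0, nat_lit 3173, nat_lit 0, nat_lit 4561, nat_lit 2019, nat_lit 0, nat_lit 0, nat_lit 0, nat_lit 95, nat_lit 0, nat_lit 0, nat_lit 0, nat_lit 0, nat_lit 0, nat_lit 189250, nat_lit 0, nat_lit 0, [(nat_lit 19, [(nat_lit 0, nat_lit 757)]), (nat_lit 22, [(nat_lit 0, nat_lit 757)])],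
 ⟨p092_k15, nat_lit 0, nat_lit 0, nat_lit 100, nat_lit 0, nat_lit 0, [nat_lit 1680752001, nat_lit 3490886400, nat_lit 4822808667], [], [nat_lit 21954624516, nat_lit 24565507268, nat_lit 30132544088, nat_lit 31850430764, nat_lit 24799002621, nat_lit 26967001309, nat_lit 31586570536, nat_lit 33113629853], nat_lit 0, nat_lit 0, nat_lit 0, nat_lit 0, nat_lit 0, nat_lit 0, [], [nat_lit 61, nat_lit 40, nat_lit 40, nat_lit 80, nat_lit 1, nat_lit 401, nat_lit 175, nat_lit 10]⟩, ⟨p092_k12, nat_lit 0, nat_lit 0, nat_lit 662, nat_lit 0, nat_lit 890782, [nat_lit 797526000, nat_lit 1936224000, nat_lit 2884896000], [], [nat_lit 10165303242, nat_lit 10246331784, nat_lit 10905226554, nat_lit 11001078282, nat_lit 8664911937, nat_lit 8696798703, nat_lit 8981044758, nat_lit 8998972301], nat_lit 1271250, nat_lit 1271250, nat_lit 1271250, nat_lit 1271250, nat_lit 0, nat_lit 2118750, [nat_lit 780000, nat_lit 1762500, nat_lit 1271250],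 [nat_lit 79, nat_lit 40, nat_lit 40, nat_lit 80, nat_lit 14, nat_lit 483, nat_lit 250, nat_lit 12]⟩,
 ⟨nat_lit 3162, nat_lit 4473, ⟨.ofNat (nat_lit 653959), .ofNat (nat_lit 926092), .ofNat (nat_lit 675435), .ofNat (nat_lit 947591), .ofNat (nat_lit 649288), .ofNat (nat_lit 893321), .ofNat (nat_lit 671352), .ofNat (nat_lit 915409)⟩, ⟨.ofNat (nat_lit 259488), .ofNat (nat_lit 429433), .ofNat (nat_lit 302621), .ofNat (nat_lit 472567), .ofNat (nat_lit 261805), .ofNat (nat_lit 414188), .ofNat (nat_lit 306116), .ofNat (nat_lit 458499)⟩⟩, [⟨nat_lit 13, nat_lit 80, nat_lit 34, nat_lit 100, nat_lit 189961215⟩, ⟨nat_lit 16, nat_lit 71, nat_lit 100, nat_lit 71, nat_lit 378624168⟩, ⟨nat_lit 7, nat_lit 100, nat_lit 94, nat_lit 75, nat_lit 14883162⟩]⟩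
noncomputable def p092_l36 : Lf2 := ⟨nat_lit 0, nat_lit 20, [nat_lit 5, nat_lit 5, nat_lit 5, nat_lit 20], false, nat_lit 160, nat_lit 260, nat_lit 0, nat_lit 280, ⟨nat_lit 342, nat_lit 658, nat_lit 0, nat_lit 7, nat_lit 325, nat_lit 658, nat_lit 145, nat_lit 0, nat_lit 0, nat_lit 0, nat_lit 0, nat_lit 0, nat_lit 0, nat_lit 0, nat_lit 0, nat_lit 5000000, true, true⟩,
 nat_lit 0, nat_lit 0, nat_lit 3281, nat_lit 0, nat_lit 4749, nat_lit 2271, nat_lit 0, nat_lit 0, nat_lit 0, nat_lit 299, nat_lit 0, nat_lit 0, nat_lit 0, nat_lit 0, nat_lit 0, nat_lit 164500, nat_lit 0, nat_lit 0, [(nat_lit 19, [(nat_lit 0, nat_lit 658)]), (nat_lit 22, [(nat_lit 0, nat_lit 658)])],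
 ⟨p092_k15, nat_lit 0, nat_lit 0, nat_lit 100, nat_lit 0, nat_lit 0, [nat_lit 1726688000, nat_lit 3851721601, nat_lit 5469014667], [], [nat_lit 22141513845, nat_lit 24807449013, nat_lit 30465782393, nat_lit 32210311677, nat_lit 25000049290, nat_lit 27209259082, nat_lit 31891302025, nat_lit 33352948777], nat_lit 0, nat_lit 0, nat_lit 0, nat_lit 0, nat_lit 0, nat_lit 0, [], [nat_lit 61, nat_lit 40, nat_lit 40, nat_lit 80, nat_lit 1, nat_lit 401, nat_lit 175, nat_lit 10]⟩, ⟨p092_k13, nat_lit 0, nat_lit 0, nat_lit 612, nat_lit 0, nat_lit 935966, [nat_lit 1122444000, nat_lit 2725056000, nat_lit 3365964000], [], [nat_lit 11847291260, nat_lit 12038305184, nat_lit 13252025618, nat_lit 13629387252, nat_lit 10822587320, nat_lit 10938222356, nat_lit 11682506153, nat_lit 11745619632], nat_lit 1271250, nat_lit 1271250, nat_lit 1271250, nat_lit 1271250, nat_lit 0, nat_lit 1977500, [nat_lit 780000, nat_lit 1762500, nat_lit 1271250],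 [nat_lit 99, nat_lit 40, nat_lit 40, nat_lit 80, nat_lit 17, nat_lit 401, nat_lit 175, nat_lit 11]⟩,
 ⟨nat_lit 3162, nat_lit 4473, ⟨.ofNat (nat_lit 675435), .ofNat (nat_lit 947591), .ofNat (nat_lit 696911), .ofNat (nat_lit 969090), .ofNat (nat_lit 671352), .ofNat (nat_lit 915409), .ofNat (nat_lit 693416), .ofNat (nat_lit 937496)⟩, ⟨.ofNat (nat_lit 259488), .ofNat (nat_lit 429433), .ofNat (nat_lit 302621), .ofNat (nat_lit 472567), .ofNat (nat_lit 261805), .ofNat (nat_lit 414188), .ofNat (nat_lit 306116), .ofNat (nat_lit 458499)⟩⟩, [⟨nat_lit 13, nat_lit 86, nat_lit 23, nat_lit 100, nat_lit 131275714⟩, ⟨nat_lit 4, nat_lit 100, nat_lit 71, nat_lit 71, nat_lit 387917644⟩, ⟨nat_lit 7, nat_lit 100, nat_lit 85, nat_lit 73, nat_lit 42727849⟩]⟩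
noncomputable def b_V_800_700_10_32 : St := ⟨true, nat_lit 0, nat_lit 2, nat_lit 2, nat_lit 80, nat_lit 320, nat_lit 360, nat_lit 280, nat_lit 320, nat_lit 100, nat_lit 400, nat_lit 40, nat_lit 80, nat_lit 0, nat_lit 260, nat_lit 0, nat_lit 300, nat_lit 80, nat_lit 120, nat_lit 0, nat_lit 0, nat_lit 0, nat_lit 0⟩
theorem d_V_800_700_10_32 (h : EB TB.env) : Dead b_V_800_700_10_32 := chkB_sound0 h (T :=
(.st (nat_lit 1)
(.spl (nat_lit 2) (nat_lit 240)
(.leaf p092_l28)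
(.leaf p092_l29))
(.spl (nat_lit 2) (nat_lit 240)
(.leaf p092_l30)
(.spl (nat_lit 4) (nat_lit 160)
(.spl (nat_lit 1) (nat_lit 300)
(.spl (nat_lit 0) (nat_lit 340)
(.leaf p092_l31)
(.trX (nat_lit 13) (nat_lit 82) (nat_lit 29) (nat_lit 100) (nat_lit 396) (.leaf p092_l32)))
(.trX (nat_lit 19) (nat_lit 94) (nat_lit 100) (nat_lit 87) (nat_lit 280) (.spl (nat_lit 0) (nat_lit 340)
(.leaf p092_l33)
(.leaf p092_l34))))
(.spl (nat_lit 1) (nat_lit 300)
(.leaf p092_l35)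
(.trX (nat_lit 19) (nat_lit 94) (nat_lit 100) (nat_lit 87) (nat_lit 280) (.leaf p092_l36))))))) (by decide +kernel)
noncomputable def p092_l37 : Lf2 := ⟨nat_lit 0, nat_lit 15, [nat_lit 30, nat_lit 5, nat_lit 5, nat_lit 20], false, nat_lit 0, nat_lit 160, nat_lit 0, nat_lit 160, ⟨nat_lit 1000, nat_lit 0, nat_lit 0, nat_lit 0, nat_lit 0, nat_lit 0, nat_lit 0, nat_lit 0, nat_lit 0, nat_lit 0, nat_lit 0, nat_lit 0, nat_lit 0, nat_lit 0, nat_lit 0, nat_lit 0, false, false⟩,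
 nat_lit 0, nat_lit 9222, nat_lit 0, nat_lit 0, nat_lit 6916, nat_lit 6638, nat_lit 648, nat_lit 0, nat_lit 0, nat_lit 0, nat_lit 0, nat_lit 0, nat_lit 0, nat_lit 0, nat_lit 0, nat_lit 0, nat_lit 0, nat_lit 0, [],
 ⟨p092_k0, nat_lit 0, nat_lit 0, nat_lit 481, nat_lit 0, nat_lit 659133, [nat_lit 2032000001, nat_lit 4688000000, nat_lit 7968000000], [], [nat_lit 26716472824, nat_lit 29026769904, nat_lit 27689087648, nat_lit 30800262128, nat_lit 23383227424, nat_lit 25304979776, nat_lit 28855424074, nat_lit 26115052368], nat_lit 1271250, nat_lit 1271250, nat_lit 631250, nat_lit 1751250, nat_lit 0, nat_lit 1100001, [nat_lit 490000, nat_lit 1100000, nat_lit 1785000], [nat_lit 34, nat_lit 40, nat_lit 40, nat_lit 80, nat_lit 7, nat_lit 317, nat_lit 100, nat_lit 10]⟩, ⟨p092_k1, nat_lit 0, nat_lit 0, nat_lit 191, nat_lit 0, nat_lit 0, [nat_lit 3282000000, nat_lit 6250000000, nat_lit 9842000000], [], [nat_lit 28606188980,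 nat_lit 32320726540, nat_lit 31622938680, nat_lit 34478111264, nat_lit 24509789752, nat_lit 27633062652, nat_lit 27181824592, nat_lit 29588103848], nat_lit 0, nat_lit 0, nat_lit 0, nat_lit 0, nat_lit 0, nat_lit 0, [], [nat_lit 8, nat_lit 40, nat_lit 40, nat_lit 80, nat_lit 1, nat_lit 317, nat_lit 100, nat_lit 9]⟩,
 zbF0, [⟨nat_lit 0, nat_lit 90, nat_lit 74, nat_lit 100, nat_lit 203436057⟩, ⟨nat_lit 0, nat_lit 80, nat_lit 60, nat_lit 100, nat_lit 479129088⟩]⟩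
noncomputable def p092_l38 : Lf2 := ⟨nat_lit 0, nat_lit 20, [nat_lit 5, nat_lit 5, nat_lit 5, nat_lit 20], false, nat_lit 0, nat_lit 160, nat_lit 0, nat_lit 160, ⟨nat_lit 1000, nat_lit 0, nat_lit 0, nat_lit 0, nat_lit 0, nat_lit 0, nat_lit 0, nat_lit 0, nat_lit 0, nat_lit 0, nat_lit 0, nat_lit 0, nat_lit 0, nat_lit 0, nat_lit 0, nat_lit 0, false, false⟩,
 nat_lit 0, nat_lit 9452, nat_lit 0, nat_lit 0, nat_lit 7089, nat_lit 6229, nat_lit 778, nat_lit 0, nat_lit 0, nat_lit 1032, nat_lit 0, nat_lit 0, nat_lit 0, nat_lit 0, nat_lit 0, nat_lit 0, nat_lit 0, nat_lit 0, [],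
 ⟨p092_k2, nat_lit 0, nat_lit 0, nat_lit 492, nat_lit 0, nat_lit 597106, [nat_lit 2032000001, nat_lit 4688000000, nat_lit 9842000000], [], [nat_lit 25813800472, nat_lit 29065900158, nat_lit 26879737442, nat_lit 31141125412, nat_lit 22310051068, nat_lit 24378283812, nat_lit 31871526264, nat_lit 25768237536], nat_lit 1271250, nat_lit 1271250, nat_lit 631250, nat_lit 1751250, nat_lit 0, nat_lit 1100001, [nat_lit 490000, nat_lit 1100000, nat_lit 2127500], [nat_lit 27, nat_lit 40, nat_lit 40, nat_lit 80, nat_lit 13, nat_lit 317, nat_lit 100, nat_lit 9]⟩, ⟨p092_k3, nat_lit 0, nat_lit 0, nat_lit 230, nat_lit 0, nat_lit 0, [nat_lit 3282000000, nat_lit 6250000000, nat_lit 11872000000], [], [nat_lit 24210120570, nat_lit 27349001480, nat_lit 26448079112, nat_lit 28883030952, nat_lit 19996641466, nat_lit 22661686750, nat_lit 22031911284, nat_lit 24101218352], nat_lit 0, nat_lit 0, nat_lit 0, nat_lit 0, nat_lit 0, nat_lit 0,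 [], [nat_lit 23, nat_lit 40, nat_lit 40, nat_lit 80, nat_lit 12, nat_lit 428, nat_lit 200, nat_lit 11]⟩,
 zbF0, [⟨nat_lit 0, nat_lit 90, nat_lit 74, nat_lit 100, nat_lit 447242240⟩]⟩
noncomputable def p092_l39 : Lf2 := ⟨nat_lit 0, nat_lit 20, [nat_lit 5, nat_lit 5, nat_lit 5, nat_lit 20], false, nat_lit 160, nat_lit 260, nat_lit 0, nat_lit 160, ⟨nat_lit 1000, nat_lit 0, nat_lit 0, nat_lit 0, nat_lit 0, nat_lit 0, nat_lit 0, nat_lit 0, nat_lit 0, nat_lit 0, nat_lit 0, nat_lit 0, nat_lit 0, nat_lit 0, nat_lit 0, nat_lit 0, false, false⟩,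
 nat_lit 0, nat_lit 9311, nat_lit 0, nat_lit 0, nat_lit 6983, nat_lit 6229, nat_lit 762, nat_lit 0, nat_lit 0, nat_lit 1139, nat_lit 0, nat_lit 0, nat_lit 0, nat_lit 0, nat_lit 0, nat_lit 0, nat_lit 0, nat_lit 0, [],
 ⟨p092_k2, nat_lit 0, nat_lit 0, nat_lit 383, nat_lit 0, nat_lit 616676, [nat_lit 2032000001, nat_lit 4688000000, nat_lit 9842000000], [], [nat_lit 21709285584, nat_lit 22686577673, nat_lit 22598052158, nat_lit 23567029406, nat_lit 23622377411, nat_lit 24633559357, nat_lit 24499249748, nat_lit 25514431889], nat_lit 1271250, nat_lit 1271250, nat_lit 631250, nat_lit 1751250, nat_lit 1100001, nat_lit 1956250, [nat_lit 490000, nat_lit 1100000, nat_lit 2127500], [nat_lit 27, nat_lit 40, nat_lit 40, nat_lit 80, nat_lit 13, nat_lit 345, nat_lit 125, nat_lit 9]⟩, ⟨p092_k3, nat_lit 0, nat_lit 0, nat_lit 230, nat_lit 0, nat_lit 0, [nat_lit 3282000000, nat_lit 6250000000, nat_lit 11872000000], [], [nat_lit 23183923695,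 nat_lit 26322804605, nat_lit 25421882237, nat_lit 27856834077, nat_lit 18970444591, nat_lit 21635489875, nat_lit 21005714409, nat_lit 23170431124], nat_lit 0, nat_lit 0, nat_lit 0, nat_lit 0, nat_lit 0, nat_lit 0, [], [nat_lit 23, nat_lit 40, nat_lit 40, nat_lit 80, nat_lit 12, nat_lit 428, nat_lit 200, nat_lit 11]⟩,
 zbF0, [⟨nat_lit 0, nat_lit 92, nat_lit 81, nat_lit 100, nat_lit 237030456⟩, ⟨nat_lit 0, nat_lit 81, nat_lit 72, nat_lit 100, nat_lit 377602419⟩, ⟨nat_lit 4, nat_lit 100, nat_lit 76, nat_lit 72, nat_lit 561446514⟩]⟩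
noncomputable def p092_l40 : Lf2 := ⟨nat_lit 0, nat_lit 20, [nat_lit 5, nat_lit 5, nat_lit 5, nat_lit 20], false, nat_lit 160, nat_lit 232, nat_lit 0, nat_lit 160, ⟨nat_lit 1000, nat_lit 0, nat_lit 0, nat_lit 0, nat_lit 0, nat_lit 0, nat_lit 0, nat_lit 0, nat_lit 0, nat_lit 0, nat_lit 0, nat_lit 0, nat_lit 0, nat_lit 0, nat_lit 0, nat_lit 0, false, false⟩,
 nat_lit 0, nat_lit 6931, nat_lit 0, nat_lit 0, nat_lit 5610, nat_lit 6311, nat_lit 772, nat_lit 0, nat_lit 0, nat_lit 595, nat_lit 0, nat_lit 0, nat_lit 0, nat_lit 0, nat_lit 0, nat_lit 0, nat_lit 0, nat_lit 0, [],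
 ⟨p092_k7, nat_lit 0, nat_lit 0, nat_lit 381, nat_lit 0, nat_lit 714187, [nat_lit 2032000001, nat_lit 4688000000, nat_lit 7968000000], [], [nat_lit 19618427557, nat_lit 20780705177, nat_lit 21478504200, nat_lit 23340082600, nat_lit 21017365299, nat_lit 22864613228, nat_lit 23604604495, nat_lit 25220952244], nat_lit 1271250, nat_lit 1271250, nat_lit 810650, nat_lit 1764750, nat_lit 1100001, nat_lit 1716500, [nat_lit 490000, nat_lit 1100000, nat_lit 1785000], [nat_lit 34, nat_lit 40, nat_lit 40, nat_lit 80, nat_lit 7, nat_lit 345, nat_lit 125, nat_lit 10]⟩, ⟨p092_k3, nat_lit 0, nat_lit 0, nat_lit 220, nat_lit 0, nat_lit 0, [nat_lit 3282000000, nat_lit 6250000000, nat_lit 11872000000], [], [nat_lit 28187852542, nat_lit 31255118391, nat_lit 30671763133, nat_lit 33122865693, nat_lit 23967949107, nat_lit 26567793848, nat_lit 26160595681, nat_lit 28242538293], nat_lit 0, nat_lit 0, nat_lit 0, nat_lit 0, nat_lit 0, nat_lit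 0, [], [nat_lit 23, nat_lit 40, nat_lit 40, nat_lit 80, nat_lit 12, nat_lit 428, nat_lit 200, nat_lit 11]⟩,
 zbF0, [⟨nat_lit 0, nat_lit 88, nat_lit 67, nat_lit 100, nat_lit 479431590⟩, ⟨nat_lit 4, nat_lit 100, nat_lit 66, nat_lit 72, nat_lit 693542062⟩]⟩
noncomputable def p092_l41 : Lf2 := ⟨nat_lit 0, nat_lit 20, [nat_lit 5, nat_lit 5, nat_lit 5, nat_lit 20], false, nat_lit 0, nat_lit 260, nat_lit 160, nat_lit 300, ⟨nat_lit 1000, nat_lit 0, nat_lit 0, nat_lit 0, nat_lit 0, nat_lit 0, nat_lit 0, nat_lit 0, nat_lit 0, nat_lit 0, nat_lit 0, nat_lit 0, nat_lit 0, nat_lit 0, nat_lit 0, nat_lit 0, false, false⟩,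
 nat_lit 0, nat_lit 8639, nat_lit 0, nat_lit 0, nat_lit 6479, nat_lit 5376, nat_lit 653, nat_lit 0, nat_lit 0, nat_lit 0, nat_lit 0, nat_lit 0, nat_lit 0, nat_lit 0, nat_lit 0, nat_lit 0, nat_lit 0, nat_lit 0, [],
 ⟨p092_k2, nat_lit 0, nat_lit 0, nat_lit 494, nat_lit 0, nat_lit 616676, [nat_lit 2032000001, nat_lit 4688000000, nat_lit 9842000000], [], [nat_lit 35823277858, nat_lit 32423370776, nat_lit 30261084910, nat_lit 30996066950, nat_lit 27514348512, nat_lit 28157087595, nat_lit 36573970944, nat_lit 33801642479], nat_lit 1271250, nat_lit 1271250, nat_lit 631250, nat_lit 1751250, nat_lit 0, nat_lit 1836250, [nat_lit 490000, nat_lit 1100000, nat_lit 2127500], [nat_lit 27, nat_lit 40, nat_lit 40, nat_lit 80, nat_lit 13, nat_lit 345, nat_lit 125, nat_lit 10]⟩, ⟨p092_k3, nat_lit 0, nat_lit 0, nat_lit 62, nat_lit 0, nat_lit 0, [nat_lit 3282000000, nat_lit 6250000000, nat_lit 11872000000], [], [nat_lit 11925685104,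 nat_lit 15808800624, nat_lit 16580300704, nat_lit 19576957760, nat_lit 20186127572, nat_lit 23271048128, nat_lit 22941144208, nat_lit 25349318000], nat_lit 0, nat_lit 0, nat_lit 0, nat_lit 0, nat_lit 0, nat_lit 0, [], [nat_lit 23, nat_lit 40, nat_lit 40, nat_lit 80, nat_lit 12, nat_lit 456, nat_lit 225, nat_lit 11]⟩,
 zbF0, [⟨nat_lit 0, nat_lit 92, nat_lit 81, nat_lit 100, nat_lit 174996963⟩, ⟨nat_lit 4, nat_lit 100, nat_lit 76, nat_lit 72, nat_lit 89943924⟩, ⟨nat_lit 7, nat_lit 100, nat_lit 90, nat_lit 74, nat_lit 729966232⟩]⟩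
noncomputable def p092_l42 : Lf2 := ⟨nat_lit 0, nat_lit 20, [nat_lit 5, nat_lit 5, nat_lit 5, nat_lit 20], false, nat_lit 0, nat_lit 232, nat_lit 160, nat_lit 300, ⟨nat_lit 1000, nat_lit 0, nat_lit 0, nat_lit 0, nat_lit 0, nat_lit 0, nat_lit 0, nat_lit 0, nat_lit 0, nat_lit 0, nat_lit 0, nat_lit 0, nat_lit 0, nat_lit 0, nat_lit 0, nat_lit 0, false, false⟩,
 nat_lit 0, nat_lit 8022, nat_lit 0, nat_lit 0, nat_lit 6494, nat_lit 5471, nat_lit 1002, nat_lit 0, nat_lit 0, nat_lit 0, nat_lit 0, nat_lit 0, nat_lit 0, nat_lit 0, nat_lit 0, nat_lit 0, nat_lit 0, nat_lit 0, [],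
 ⟨p092_k19, nat_lit 0, nat_lit 0, nat_lit 488, nat_lit 0, nat_lit 714187, [nat_lit 2032000001, nat_lit 7968000000], [], [nat_lit 25972422694, nat_lit 27083501390, nat_lit 27555336636, nat_lit 29968792152, nat_lit 23005917318, nat_lit 23964863735, nat_lit 27143430805, nat_lit 25732682518], nat_lit 1271250, nat_lit 1271250, nat_lit 810650, nat_lit 1764750, nat_lit 0, nat_lit 1638500, [nat_lit 490000, nat_lit 1740000], [nat_lit 110, nat_lit 40, nat_lit 40, nat_lit 80, nat_lit 109, nat_lit 345, nat_lit 125, nat_lit 11]⟩, ⟨p092_k20, nat_lit 0, nat_lit 0, nat_lit 36, nat_lit 0, nat_lit 0, [nat_lit 3282000000, nat_lit 11872000000], [], [nat_lit 12028601044, nat_lit 15824141864, nat_lit 16471877584, nat_lit 19592937180, nat_lit 20116716640, nat_lit 23138660634, nat_lit 22968808968, nat_lit 25397684875], nat_lit 0, nat_lit 0, nat_lit 0, nat_lit 0, nat_lit 0, nat_lit 0, [], [nat_lit 135, nat_lit 40, nat_lit 40, nat_lit 80,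 nat_lit 134, nat_lit 456, nat_lit 225, nat_lit 11]⟩,
 zbF0, [⟨nat_lit 0, nat_lit 88, nat_lit 67, nat_lit 100, nat_lit 301259290⟩, ⟨nat_lit 16, nat_lit 66, nat_lit 100, nat_lit 72, nat_lit 203869541⟩, ⟨nat_lit 7, nat_lit 100, nat_lit 90, nat_lit 74, nat_lit 733347948⟩]⟩
noncomputable def p092_l43 : Lf2 := ⟨nat_lit 0, nat_lit 20, [nat_lit 5, nat_lit 5, nat_lit 5, nat_lit 20], false, nat_lit 0, nat_lit 260, nat_lit 0, nat_lit 160, ⟨nat_lit 1000, nat_lit 0, nat_lit 0, nat_lit 0, nat_lit 0, nat_lit 0, nat_lit 0, nat_lit 0, nat_lit 0, nat_lit 0, nat_lit 0, nat_lit 0, nat_lit 0, nat_lit 0, nat_lit 0, nat_lit 0, false, false⟩,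
 nat_lit 0, nat_lit 7499, nat_lit 0, nat_lit 0, nat_lit 5623, nat_lit 7093, nat_lit 670, nat_lit 0, nat_lit 0, nat_lit 719, nat_lit 0, nat_lit 0, nat_lit 0, nat_lit 0, nat_lit 0, nat_lit 0, nat_lit 0, nat_lit 0, [],
 ⟨p092_k2, nat_lit 0, nat_lit 0, nat_lit 463, nat_lit 0, nat_lit 616676, [nat_lit 2032000001, nat_lit 4688000000, nat_lit 9842000000], [], [nat_lit 32342352920, nat_lit 33040732400, nat_lit 37591491664, nat_lit 38322364622, nat_lit 30682387856, nat_lit 31302163030, nat_lit 35315537173, nat_lit 35830728038], nat_lit 1271250, nat_lit 1271250, nat_lit 1271250, nat_lit 1271250, nat_lit 0, nat_lit 1836250, [nat_lit 490000, nat_lit 1100000, nat_lit 2127500], [nat_lit 27, nat_lit 40, nat_lit 40, nat_lit 80, nat_lit 13, nat_lit 401, nat_lit 175, nat_lit 11]⟩, ⟨p092_k3, nat_lit 0, nat_lit 0, nat_lit 242, nat_lit 0, nat_lit 0, [nat_lit 3282000000, nat_lit 6250000000, nat_lit 11872000000], [], [nat_lit 31144709629,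 nat_lit 33180162209, nat_lit 39652475825, nat_lit 41121854441, nat_lit 26436702893, nat_lit 28139193593, nat_lit 32974528609, nat_lit 34027610469], nat_lit 0, nat_lit 0, nat_lit 0, nat_lit 0, nat_lit 0, nat_lit 0, [], [nat_lit 23, nat_lit 40, nat_lit 40, nat_lit 80, nat_lit 12, nat_lit 456, nat_lit 225, nat_lit 11]⟩,
 zbF0, [⟨nat_lit 4, nat_lit 100, nat_lit 76, nat_lit 72, nat_lit 244772011⟩, ⟨nat_lit 9, nat_lit 100, nat_lit 85, nat_lit 30, nat_lit 12984234⟩]⟩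
noncomputable def p092_l44 : Lf2 := ⟨nat_lit 0, nat_lit 20, [nat_lit 5, nat_lit 5, nat_lit 5, nat_lit 20], false, nat_lit 0, nat_lit 232, nat_lit 0, nat_lit 160, ⟨nat_lit 1000, nat_lit 0, nat_lit 0, nat_lit 0, nat_lit 0, nat_lit 0, nat_lit 0, nat_lit 0, nat_lit 0, nat_lit 0, nat_lit 0, nat_lit 0, nat_lit 0, nat_lit 0, nat_lit 0, nat_lit 0, false, false⟩,
 nat_lit 0, nat_lit 5418, nat_lit 0, nat_lit 0, nat_lit 4385, nat_lit 7742, nat_lit 1073, nat_lit 0, nat_lit 0, nat_lit 578, nat_lit 0, nat_lit 0, nat_lit 0, nat_lit 0, nat_lit 0, nat_lit 0, nat_lit 0, nat_lit 0, [],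
 ⟨p092_k11, nat_lit 0, nat_lit 0, nat_lit 456, nat_lit 0, nat_lit 714187, [nat_lit 2032000001, nat_lit 6250000000, nat_lit 7968000000], [], [nat_lit 28726220472, nat_lit 29403015842, nat_lit 34707699240, nat_lit 35873310420, nat_lit 28171376254, nat_lit 28687875179, nat_lit 32430255654, nat_lit 32943753921], nat_lit 1271250, nat_lit 1271250, nat_lit 1271250, nat_lit 1271250, nat_lit 0, nat_lit 1638500, [nat_lit 490000, nat_lit 1427500, nat_lit 1271250], [nat_lit 102, nat_lit 40, nat_lit 40, nat_lit 80, nat_lit 2, nat_lit 272, nat_lit 60, nat_lit 8]⟩, ⟨p092_k12, nat_lit 0, nat_lit 0, nat_lit 252, nat_lit 0, nat_lit 0, [nat_lit 3282000000, nat_lit 7968000000, nat_lit 11872000000], [], [nat_lit 34337179474, nat_lit 36265669554, nat_lit 41720579178, nat_lit 42934666616, nat_lit 28768956498, nat_lit 30374087378, nat_lit 35135233640, nat_lit 36300652016], nat_lit 0, nat_lit 0, nat_lit 0, nat_lit 0, nat_lit 0, nat_lit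 0, [], [nat_lit 79, nat_lit 40, nat_lit 40, nat_lit 80, nat_lit 14, nat_lit 456, nat_lit 225, nat_lit 11]⟩,
 zbF0, [⟨nat_lit 16, nat_lit 66, nat_lit 100, nat_lit 72, nat_lit 294525459⟩, ⟨nat_lit 9, nat_lit 100, nat_lit 88, nat_lit 23, nat_lit 42747076⟩]⟩
noncomputable def p092_l45 : Lf2 := ⟨nat_lit 0, nat_lit 20, [nat_lit 5, nat_lit 5, nat_lit 5, nat_lit 20], false, nat_lit 0, nat_lit 260, nat_lit 160, nat_lit 300, ⟨nat_lit 1000, nat_lit 0, nat_lit 0, nat_lit 0, nat_lit 0, nat_lit 0, nat_lit 0, nat_lit 0, nat_lit 0, nat_lit 0, nat_lit 0, nat_lit 0, nat_lit 0, nat_lit 0, nat_lit 0, nat_lit 0, false, false⟩,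
 nat_lit 0, nat_lit 7706, nat_lit 0, nat_lit 0, nat_lit 5779, nat_lit 6882, nat_lit 574, nat_lit 0, nat_lit 0, nat_lit 0, nat_lit 0, nat_lit 0, nat_lit 0, nat_lit 0, nat_lit 0, nat_lit 0, nat_lit 0, nat_lit 0, [],
 ⟨p092_k2, nat_lit 0, nat_lit 0, nat_lit 549, nat_lit 0, nat_lit 794224, [nat_lit 2032000001, nat_lit 4688000000, nat_lit 9842000000], [], [nat_lit 35483767744, nat_lit 36672213720, nat_lit 39120455158, nat_lit 40111764514, nat_lit 33182385760, nat_lit 34005564465, nat_lit 36260688043, nat_lit 37132252412], nat_lit 1271250, nat_lit 1271250, nat_lit 1271250, nat_lit 1271250, nat_lit 0, nat_lit 1836250, [nat_lit 490000, nat_lit 1100000, nat_lit 2127500], [nat_lit 27, nat_lit 40, nat_lit 40, nat_lit 80, nat_lit 13, nat_lit 401, nat_lit 175, nat_lit 11]⟩, ⟨p092_k3, nat_lit 0, nat_lit 0, nat_lit 90, nat_lit 0, nat_lit 0, [nat_lit 3282000000, nat_lit 6250000000, nat_lit 11872000000], [], [nat_lit 19574929760,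 nat_lit 22566246792, nat_lit 30795560448, nat_lit 32550953456, nat_lit 25291102388, nat_lit 27426686078, nat_lit 33701122798, nat_lit 35258191276], nat_lit 0, nat_lit 0, nat_lit 0, nat_lit 0, nat_lit 0, nat_lit 0, [], [nat_lit 23, nat_lit 40, nat_lit 40, nat_lit 80, nat_lit 12, nat_lit 538, nat_lit 300, nat_lit 13]⟩,
 zbF0, [⟨nat_lit 4, nat_lit 100, nat_lit 71, nat_lit 71, nat_lit 225471039⟩, ⟨nat_lit 7, nat_lit 100, nat_lit 90, nat_lit 74, nat_lit 574611882⟩]⟩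
noncomputable def b_V_800_700_10_33 : St := ⟨true, nat_lit 1, nat_lit 0, nat_lit 1, nat_lit 80, nat_lit 320, nat_lit 360, nat_lit 280, nat_lit 320, nat_lit 100, nat_lit 400, nat_lit 40, nat_lit 80, nat_lit 0, nat_lit 260, nat_lit 0, nat_lit 300, nat_lit 80, nat_lit 120, nat_lit 0, nat_lit 0, nat_lit 0, nat_lit 0⟩
theorem d_V_800_700_10_33 (h : EB TB.env) : Dead b_V_800_700_10_33 := chkB_sound0 h (T :=
(.spl (nat_lit 2) (nat_lit 240)
(.spl (nat_lit 5) (nat_lit 160)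
(.spl (nat_lit 4) (nat_lit 160)
(.spl (nat_lit 3) (nat_lit 60)
(.leaf p092_l37)
(.leaf p092_l38))
(.spl (nat_lit 0) (nat_lit 340)
(.leaf p092_l39)
(.trZ (nat_lit 0) (nat_lit 99) (nat_lit 77) (nat_lit 100) (nat_lit 124) (.trX (nat_lit 16) (nat_lit 72) (nat_lit 100) (nat_lit 81) (nat_lit 232) (.leaf p092_l40)))))
(.spl (nat_lit 0) (nat_lit 340)
(.leaf p092_l41)
(.trZ (nat_lit 0) (nat_lit 99) (nat_lit 77) (nat_lit 100) (nat_lit 124) (.trX (nat_lit 16) (nat_lit 72) (nat_lit 100) (nat_lit 81) (nat_lit 232) (.leaf p092_l42)))))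
(.spl (nat_lit 5) (nat_lit 160)
(.spl (nat_lit 0) (nat_lit 340)
(.leaf p092_l43)
(.trX (nat_lit 16) (nat_lit 72) (nat_lit 100) (nat_lit 81) (nat_lit 232) (.leaf p092_l44)))
(.leaf p092_l45)))) (by decide +kernel)
noncomputable def p092_l46 : Lf2 := ⟨nat_lit 0, nat_lit 20, [nat_lit 5, nat_lit 5, nat_lit 5, nat_lit 20], false, nat_lit 0, nat_lit 160, nat_lit 0, nat_lit 160, ⟨nat_lit 888, nat_lit 0, nat_lit 112, nat_lit 7, nat_lit 198, nat_lit 112, nat_lit 57, nat_lit 112, nat_lit 29400, nat_lit 257, nat_lit 2872, nat_lit 223, nat_lit 53775688, nat_lit 0, nat_lit 0, nat_lit 2483727, false, false⟩,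
 nat_lit 11519, nat_lit 0, nat_lit 0, nat_lit 0, nat_lit 6388, nat_lit 7330, nat_lit 729, nat_lit 0, nat_lit 0, nat_lit 706, nat_lit 0, nat_lit 0, nat_lit 0, nat_lit 0, nat_lit 0, nat_lit 44800, nat_lit 0, nat_lit 0, [(nat_lit 19, [(nat_lit 5, nat_lit 112)]), (nat_lit 22, [(nat_lit 5, nat_lit 112)])],
 ⟨p092_k2, nat_lit 0, nat_lit 0, nat_lit 452, nat_lit 0, nat_lit 466709, [nat_lit 1913728000, nat_lit 4112529067, nat_lit 8365168000], [], [nat_lit 24013461890, nat_lit 27393908656, nat_lit 23726414899, nat_lit 26981171245, nat_lit 20638147875, nat_lit 22989683099, nat_lit 23056733336, nat_lit 22913673057], nat_lit 1271250, nat_lit 1271250, nat_lit 631250, nat_lit 1100001, nat_lit 0, nat_lit 1100001, [nat_lit 490000, nat_lit 1100000, nat_lit 2127500], [nat_lit 27, nat_lit 40, nat_lit 40, nat_lit 80, nat_lit 13, nat_lit 317, nat_lit 100, nat_lit 9]⟩, ⟨p092_k3, nat_lit 0, nat_lit 0, nat_lit 552, nat_lit 0, nat_lit 576160,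 [nat_lit 2914416000, nat_lit 5550000000, nat_lit 10542336000], [], [nat_lit 28461156036, nat_lit 30127760088, nat_lit 27538529236, nat_lit 29062681148, nat_lit 23558582976, nat_lit 24403442556, nat_lit 24243381600, nat_lit 23613669902], nat_lit 1271250, nat_lit 1271250, nat_lit 631250, nat_lit 1100001, nat_lit 0, nat_lit 1100001, [nat_lit 780000, nat_lit 1435000, nat_lit 1271250], [nat_lit 23, nat_lit 40, nat_lit 40, nat_lit 80, nat_lit 12, nat_lit 401, nat_lit 175, nat_lit 10]⟩,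
 ⟨nat_lit 3162, nat_lit 4473, ⟨.ofNat (nat_lit 415764), .ofNat (nat_lit 517847), .ofNat (nat_lit 458716), .ofNat (nat_lit 560799), .ofNat (nat_lit 435680), .ofNat (nat_lit 527226), .ofNat (nat_lit 479808), .ofNat (nat_lit 571355)⟩, ⟨.negSucc (nat_lit 12437), .ofNat (nat_lit 259488), .ofNat (nat_lit 0), .ofNat (nat_lit 302621), .ofNat (nat_lit 0), .ofNat (nat_lit 261805), .ofNat (nat_lit 0), .ofNat (nat_lit 306116)⟩⟩, [⟨nat_lit 0, nat_lit 90, nat_lit 74, nat_lit 100, nat_lit 756322904⟩]⟩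
noncomputable def p092_l47 : Lf2 := ⟨nat_lit 0, nat_lit 20, [nat_lit 5, nat_lit 5, nat_lit 5, nat_lit 20], false, nat_lit 0, nat_lit 160, nat_lit 0, nat_lit 160, ⟨nat_lit 1000, nat_lit 0, nat_lit 0, nat_lit 0, nat_lit 0, nat_lit 0, nat_lit 0, nat_lit 0, nat_lit 0, nat_lit 0, nat_lit 0, nat_lit 0, nat_lit 0, nat_lit 0, nat_lit 0, nat_lit 0, false, false⟩,
 nat_lit 11005, nat_lit 0, nat_lit 0, nat_lit 0, nat_lit 6890, nat_lit 7003, nat_lit 789, nat_lit 0, nat_lit 0, nat_lit 871, nat_lit 0, nat_lit 0, nat_lit 0, nat_lit 0, nat_lit 0, nat_lit 0, nat_lit 0, nat_lit 0, [],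
 ⟨p092_k2, nat_lit 0, nat_lit 0, nat_lit 431, nat_lit 0, nat_lit 466709, [nat_lit 2032000001, nat_lit 4688000000, nat_lit 9842000000], [], [nat_lit 25412939120, nat_lit 28220253225, nat_lit 26690703545, nat_lit 30749034120, nat_lit 21290576345, nat_lit 23533409665, nat_lit 27708360386, nat_lit 24969995480], nat_lit 1271250, nat_lit 1271250, nat_lit 1100001, nat_lit 1785000, nat_lit 0, nat_lit 1100001, [nat_lit 490000, nat_lit 1100000, nat_lit 2127500], [nat_lit 27, nat_lit 40, nat_lit 40, nat_lit 80, nat_lit 13, nat_lit 317, nat_lit 100, nat_lit 9]⟩, ⟨p092_k3, nat_lit 0, nat_lit 0, nat_lit 528, nat_lit 0, nat_lit 576160, [nat_lit 3282000000, nat_lit 6250000000, nat_lit 11872000000], [], [nat_lit 32797959092, nat_lit 32770609194, nat_lit 31988097126, nat_lit 33298116165, nat_lit 26808157566, nat_lit 28078482041, nat_lit 29770533144, nat_lit 28795120869], nat_lit 1271250, nat_lit 1271250, nat_lit 1100001, nat_lit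 1785000, nat_lit 0, nat_lit 1100001, [nat_lit 780000, nat_lit 1435000, nat_lit 1271250], [nat_lit 23, nat_lit 40, nat_lit 40, nat_lit 80, nat_lit 12, nat_lit 428, nat_lit 200, nat_lit 11]⟩,
 zbF0, [⟨nat_lit 0, nat_lit 80, nat_lit 60, nat_lit 100, nat_lit 447177876⟩]⟩
noncomputable def p092_l48 : Lf2 := ⟨nat_lit 0, nat_lit 20, [nat_lit 5, nat_lit 5, nat_lit 5, nat_lit 20], false, nat_lit 0, nat_lit 160, nat_lit 160, nat_lit 240, ⟨nat_lit 474, nat_lit 0, nat_lit 526, nat_lit 7, nat_lit 198, nat_lit 526, nat_lit 57, nat_lit 526, nat_lit 29400, nat_lit 257, nat_lit 2872, nat_lit 223, nat_lit 53775688, nat_lit 0, nat_lit 0, nat_lit 2483727, false, false⟩,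
 nat_lit 7028, nat_lit 0, nat_lit 0, nat_lit 0, nat_lit 5270, nat_lit 4472, nat_lit 317, nat_lit 0, nat_lit 0, nat_lit 364, nat_lit 0, nat_lit 0, nat_lit 0, nat_lit 0, nat_lit 0, nat_lit 210400, nat_lit 0, nat_lit 0, [(nat_lit 19, [(nat_lit 5, nat_lit 526)]), (nat_lit 22, [(nat_lit 5, nat_lit 526)])],
 ⟨p092_k2, nat_lit 0, nat_lit 0, nat_lit 452, nat_lit 0, nat_lit 466709, [nat_lit 1476544001, nat_lit 1985341867, nat_lit 2906164000], [], [nat_lit 21819734350, nat_lit 24940411065, nat_lit 21742918370, nat_lit 24834533425, nat_lit 18862094270, nat_lit 21299248785, nat_lit 21297368254, nat_lit 21312598145], nat_lit 1271250, nat_lit 1271250, nat_lit 631250, nat_lit 1100001, nat_lit 0, nat_lit 1100001, [nat_lit 490000, nat_lit 1100000, nat_lit 2127500], [nat_lit 27, nat_lit 40, nat_lit 40, nat_lit 80, nat_lit 13, nat_lit 317, nat_lit 100, nat_lit 9]⟩, ⟨p092_k3, nat_lit 0, nat_lit 0, nat_lit 408, nat_lit 0, nat_lit 576160,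 [nat_lit 1555668000, nat_lit 2962500000, nat_lit 5627328000], [], [nat_lit 11471773704, nat_lit 12332284304, nat_lit 10896174888, nat_lit 11670603760, nat_lit 11733228024, nat_lit 12438672680, nat_lit 11107808752, nat_lit 11705320736], nat_lit 1271250, nat_lit 1271250, nat_lit 631250, nat_lit 1100001, nat_lit 1100001, nat_lit 1785000, [nat_lit 780000, nat_lit 1435000, nat_lit 1271250], [nat_lit 23, nat_lit 40, nat_lit 40, nat_lit 80, nat_lit 12, nat_lit 428, nat_lit 200, nat_lit 11]⟩,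
 ⟨nat_lit 3162, nat_lit 4473, ⟨.ofNat (nat_lit 415764), .ofNat (nat_lit 517847), .ofNat (nat_lit 458716), .ofNat (nat_lit 560799), .ofNat (nat_lit 435680), .ofNat (nat_lit 527226), .ofNat (nat_lit 479808), .ofNat (nat_lit 571355)⟩, ⟨.negSucc (nat_lit 12437), .ofNat (nat_lit 259488), .ofNat (nat_lit 0), .ofNat (nat_lit 302621), .ofNat (nat_lit 0), .ofNat (nat_lit 261805), .ofNat (nat_lit 0), .ofNat (nat_lit 306116)⟩⟩, [⟨nat_lit 0, nat_lit 90, nat_lit 74, nat_lit 100, nat_lit 489729139⟩, ⟨nat_lit 7, nat_lit 100, nat_lit 90, nat_lit 74, nat_lit 149061889⟩]⟩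
noncomputable def p092_l49 : Lf2 := ⟨nat_lit 0, nat_lit 20, [nat_lit 5, nat_lit 5, nat_lit 5, nat_lit 20], false, nat_lit 0, nat_lit 160, nat_lit 240, nat_lit 300, ⟨nat_lit 410, nat_lit 0, nat_lit 590, nat_lit 7, nat_lit 198, nat_lit 590, nat_lit 57, nat_lit 590, nat_lit 29400, nat_lit 257, nat_lit 2872, nat_lit 223, nat_lit 53775688, nat_lit 0, nat_lit 0, nat_lit 2483727, false, false⟩,
 nat_lit 7224, nat_lit 0, nat_lit 0, nat_lit 0, nat_lit 4620, nat_lit 4597, nat_lit 231, nat_lit 0, nat_lit 0, nat_lit 317, nat_lit 0, nat_lit 0, nat_lit 0, nat_lit 0, nat_lit 0, nat_lit 315800, nat_lit 0, nat_lit 0, [(nat_lit 19, [(nat_lit 5, nat_lit 457), (nat_lit 6, nat_lit 133)]), (nat_lit 22, [(nat_lit 5, nat_lit 457), (nat_lit 6, nat_lit 133)])],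
 ⟨p092_k15, nat_lit 0, nat_lit 0, nat_lit 456, nat_lit 0, nat_lit 466709, [nat_lit 1570888601, nat_lit 1539867301, nat_lit 1398111200], [], [nat_lit 20807986217, nat_lit 23617755215, nat_lit 21024327177, nat_lit 23685643375, nat_lit 19632174145, nat_lit 21436902585, nat_lit 20101218364, nat_lit 21647632785], nat_lit 1271250, nat_lit 1271250, nat_lit 631250, nat_lit 1100001, nat_lit 0, nat_lit 1100001, [nat_lit 490000, nat_lit 1427500, nat_lit 1271250], [nat_lit 61, nat_lit 40, nat_lit 40, nat_lit 80, nat_lit 1, nat_lit 317, nat_lit 100, nat_lit 9]⟩, ⟨p092_k12, nat_lit 0, nat_lit 0, nat_lit 403, nat_lit 0, nat_lit 576160, [nat_lit 1345620000, nat_lit 3266880000, nat_lit 4867520000], [], [nat_lit 8931171951, nat_lit 10134151069, nat_lit 8329872868, nat_lit 9486491301, nat_lit 10382509198, nat_lit 11442930840, nat_lit 9701969963, nat_lit 10775885142], nat_lit 1271250, nat_lit 1271250, nat_lit 631250, nat_lit 1100001,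 nat_lit 1271250, nat_lit 1271250, [nat_lit 780000, nat_lit 1762500, nat_lit 1271250], [nat_lit 79, nat_lit 40, nat_lit 40, nat_lit 80, nat_lit 14, nat_lit 428, nat_lit 200, nat_lit 10]⟩,
 ⟨nat_lit 3162, nat_lit 4473, ⟨.ofNat (nat_lit 415764), .ofNat (nat_lit 517847), .ofNat (nat_lit 458716), .ofNat (nat_lit 560799), .ofNat (nat_lit 435680), .ofNat (nat_lit 527226), .ofNat (nat_lit 479808), .ofNat (nat_lit 571355)⟩, ⟨.negSucc (nat_lit 12437), .ofNat (nat_lit 259488), .ofNat (nat_lit 0), .ofNat (nat_lit 302621), .ofNat (nat_lit 0), .ofNat (nat_lit 261805), .ofNat (nat_lit 0), .ofNat (nat_lit 306116)⟩⟩, [⟨nat_lit 0, nat_lit 90, nat_lit 74, nat_lit 100, nat_lit 437453034⟩, ⟨nat_lit 7, nat_lit 100, nat_lit 90, nat_lit 74, nat_lit 329249663⟩]⟩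
noncomputable def p092_l50 : Lf2 := ⟨nat_lit 0, nat_lit 20, [nat_lit 5, nat_lit 5, nat_lit 5, nat_lit 20], false, nat_lit 0, nat_lit 160, nat_lit 160, nat_lit 300, ⟨nat_lit 1000, nat_lit 0, nat_lit 0, nat_lit 0, nat_lit 0, nat_lit 0, nat_lit 0, nat_lit 0, nat_lit 0, nat_lit 0, nat_lit 0, nat_lit 0, nat_lit 0, nat_lit 0, nat_lit 0, nat_lit 0, false, false⟩,
 nat_lit 11449, nat_lit 0, nat_lit 0, nat_lit 0, nat_lit 7141, nat_lit 7285, nat_lit 839, nat_lit 0, nat_lit 0, nat_lit 727, nat_lit 0, nat_lit 0, nat_lit 0, nat_lit 0, nat_lit 0, nat_lit 0, nat_lit 0, nat_lit 0, [],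
 ⟨p092_k2, nat_lit 0, nat_lit 0, nat_lit 345, nat_lit 0, nat_lit 362377, [nat_lit 2032000001, nat_lit 4688000000, nat_lit 9842000000], [], [nat_lit 25268565928, nat_lit 25946365053, nat_lit 26290589123, nat_lit 28670372554, nat_lit 20118064643, nat_lit 21266002172, nat_lit 26824507720, nat_lit 23672855934], nat_lit 1271250, nat_lit 1271250, nat_lit 1100001, nat_lit 1785000, nat_lit 0, nat_lit 1100001, [nat_lit 490000, nat_lit 1100000, nat_lit 2127500], [nat_lit 27, nat_lit 40, nat_lit 40, nat_lit 80, nat_lit 13, nat_lit 317, nat_lit 100, nat_lit 9]⟩, ⟨p092_k3, nat_lit 0, nat_lit 0, nat_lit 340, nat_lit 0, nat_lit 447359, [nat_lit 3282000000, nat_lit 6250000000, nat_lit 11872000000], [], [nat_lit 27302015950, nat_lit 28781095390, nat_lit 27960982390, nat_lit 29196184410, nat_lit 30894073935, nat_lit 30433361790, nat_lit 29487414510, nat_lit 30329559795], nat_lit 1271250, nat_lit 1271250, nat_lit 1271250, nat_lit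 1271250, nat_lit 1100001, nat_lit 2298750, [nat_lit 780000, nat_lit 1435000, nat_lit 1271250], [nat_lit 23, nat_lit 40, nat_lit 40, nat_lit 80, nat_lit 12, nat_lit 456, nat_lit 225, nat_lit 11]⟩,
 zbF0, [⟨nat_lit 19, nat_lit 90, nat_lit 100, nat_lit 74, nat_lit 418364202⟩]⟩
noncomputable def p092_l51 : Lf2 := ⟨nat_lit 0, nat_lit 20, [nat_lit 5, nat_lit 5, nat_lit 5, nat_lit 20], false, nat_lit 0, nat_lit 160, nat_lit 160, nat_lit 300, ⟨nat_lit 673, nat_lit 0, nat_lit 327, nat_lit 7, nat_lit 244, nat_lit 327, nat_lit 57, nat_lit 327, nat_lit 30817, nat_lit 258, nat_lit 119032, nat_lit 200, nat_lit 48842140, nat_lit 0, nat_lit 0, nat_lit 2921317, false, false⟩,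
 nat_lit 6781, nat_lit 0, nat_lit 0, nat_lit 0, nat_lit 5279, nat_lit 4314, nat_lit 358, nat_lit 0, nat_lit 0, nat_lit 470, nat_lit 0, nat_lit 0, nat_lit 0, nat_lit 0, nat_lit 0, nat_lit 75185, nat_lit 0, nat_lit 0, [(nat_lit 22, [(nat_lit 3, nat_lit 101), (nat_lit 4, nat_lit 226)])],
 ⟨p092_k7, nat_lit 0, nat_lit 0, nat_lit 335, nat_lit 0, nat_lit 424070, [nat_lit 2226353601, nat_lit 3037218001, nat_lit 4681104400], [], [nat_lit 23527500092, nat_lit 24839728440, nat_lit 25461412926, nat_lit 27574867932, nat_lit 20983199518, nat_lit 21950953488, nat_lit 22254961870, nat_lit 23280729260], nat_lit 1271250, nat_lit 1271250, nat_lit 1100001, nat_lit 1785000, nat_lit 0, nat_lit 1100001, [nat_lit 490000, nat_lit 1100000, nat_lit 1785000], [nat_lit 34, nat_lit 40, nat_lit 40, nat_lit 80, nat_lit 7, nat_lit 317, nat_lit 100, nat_lit 10]⟩, ⟨p092_k3, nat_lit 0, nat_lit 0, nat_lit 386, nat_lit 0, nat_lit 576160, [nat_lit 2208786000,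 nat_lit 4206250000, nat_lit 7989856000], [], [nat_lit 19710586876, nat_lit 20663622800, nat_lit 20231920732, nat_lit 21036614192, nat_lit 21192826117, nat_lit 21871431989, nat_lit 21361407255, nat_lit 21926992833], nat_lit 1271250, nat_lit 1271250, nat_lit 1271250, nat_lit 1271250, nat_lit 1100001, nat_lit 2298750, [nat_lit 780000, nat_lit 1435000, nat_lit 1271250], [nat_lit 23, nat_lit 40, nat_lit 40, nat_lit 80, nat_lit 12, nat_lit 456, nat_lit 225, nat_lit 11]⟩,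
 ⟨nat_lit 3162, nat_lit 3873, ⟨.ofNat (nat_lit 522504), .ofNat (nat_lit 651611), .ofNat (nat_lit 566033), .ofNat (nat_lit 695141), .ofNat (nat_lit 527519), .ofNat (nat_lit 649490), .ofNat (nat_lit 571771), .ofNat (nat_lit 693742)⟩, ⟨.ofNat (nat_lit 0), .ofNat (nat_lit 261131), .ofNat (nat_lit 0), .ofNat (nat_lit 304717), .ofNat (nat_lit 0), .ofNat (nat_lit 261806), .ofNat (nat_lit 0), .ofNat (nat_lit 306116)⟩⟩, [⟨nat_lit 0, nat_lit 88, nat_lit 67, nat_lit 100, nat_lit 199019962⟩, ⟨nat_lit 7, nat_lit 100, nat_lit 90, nat_lit 74, nat_lit 301483800⟩]⟩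
noncomputable def p092_l52 : Lf2 := ⟨nat_lit 0, nat_lit 20, [nat_lit 5, nat_lit 5, nat_lit 5, nat_lit 20], false, nat_lit 160, nat_lit 260, nat_lit 0, nat_lit 160, ⟨nat_lit 1000, nat_lit 0, nat_lit 0, nat_lit 0, nat_lit 0, nat_lit 0, nat_lit 0, nat_lit 0, nat_lit 0, nat_lit 0, nat_lit 0, nat_lit 0, nat_lit 0, nat_lit 0, nat_lit 0, nat_lit 0, false, false⟩,
 nat_lit 13963, nat_lit 0, nat_lit 0, nat_lit 0, nat_lit 10472, nat_lit 8885, nat_lit 551, nat_lit 0, nat_lit 0, nat_lit 778, nat_lit 0, nat_lit 0, nat_lit 0, nat_lit 0, nat_lit 0, nat_lit 0, nat_lit 0, nat_lit 0, [],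
 ⟨p092_k2, nat_lit 0, nat_lit 0, nat_lit 322, nat_lit 0, nat_lit 466709, [nat_lit 2032000001, nat_lit 4688000000, nat_lit 9842000000], [], [nat_lit 20207626822, nat_lit 24610963651, nat_lit 19179923507, nat_lit 23406878547, nat_lit 23471091935, nat_lit 29024222240, nat_lit 22272308464, nat_lit 27653702832], nat_lit 1271250, nat_lit 1271250, nat_lit 631250, nat_lit 1100001, nat_lit 1100001, nat_lit 1956250, [nat_lit 490000, nat_lit 1100000, nat_lit 2127500], [nat_lit 27, nat_lit 40, nat_lit 40, nat_lit 80, nat_lit 13, nat_lit 345, nat_lit 125, nat_lit 9]⟩, ⟨p092_k3, nat_lit 0, nat_lit 0, nat_lit 552, nat_lit 0, nat_lit 576160, [nat_lit 3282000000, nat_lit 6250000000, nat_lit 11872000000], [], [nat_lit 32025320250, nat_lit 34148789490, nat_lit 30847543400, nat_lit 32772213340, nat_lit 24776369680, nat_lit 26543566660, nat_lit 26151868480, nat_lit 25291178040], nat_lit 1271250, nat_lit 1271250, nat_lit 631250, nat_lit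 1100001, nat_lit 0, nat_lit 1100001, [nat_lit 780000, nat_lit 1435000, nat_lit 1271250], [nat_lit 23, nat_lit 40, nat_lit 40, nat_lit 80, nat_lit 12, nat_lit 401, nat_lit 175, nat_lit 10]⟩,
 zbF0, [⟨nat_lit 0, nat_lit 90, nat_lit 74, nat_lit 100, nat_lit 1099290888⟩, ⟨nat_lit 4, nat_lit 100, nat_lit 71, nat_lit 71, nat_lit 774250637⟩]⟩
noncomputable def p092_l53 : Lf2 := ⟨nat_lit 0, nat_lit 20, [nat_lit 5, nat_lit 5, nat_lit 5, nat_lit 20], false, nat_lit 160, nat_lit 260, nat_lit 160, nat_lit 300, ⟨nat_lit 798, nat_lit 0, nat_lit 202, nat_lit 7, nat_lit 197, nat_lit 202, nat_lit 146, nat_lit 202, nat_lit 89743, nat_lit 288, nat_lit 2529, nat_lit 225, nat_lit 46543714, nat_lit 0, nat_lit 0, nat_lit 4388910, false, false⟩,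
 nat_lit 16263, nat_lit 0, nat_lit 0, nat_lit 0, nat_lit 12197, nat_lit 10348, nat_lit 160, nat_lit 0, nat_lit 0, nat_lit 339, nat_lit 0, nat_lit 0, nat_lit 0, nat_lit 0, nat_lit 0, nat_lit 38380, nat_lit 0, nat_lit 0, [(nat_lit 19, [(nat_lit 3, nat_lit 202)])],
 ⟨p092_k2, nat_lit 0, nat_lit 0, nat_lit 283, nat_lit 0, nat_lit 362377, [nat_lit 4654444801, nat_lit 3724298400, nat_lit 7531604800], [], [nat_lit 20802102522, nat_lit 23182681057, nat_lit 19460675532, nat_lit 21818085302, nat_lit 24250388798, nat_lit 27286826836, nat_lit 22764212914, nat_lit 25780584923], nat_lit 1271250, nat_lit 1271250, nat_lit 631250, nat_lit 1100001, nat_lit 1100001, nat_lit 1956250, [nat_lit 490000, nat_lit 1100000, nat_lit 2127500], [nat_lit 27, nat_lit 40, nat_lit 40, nat_lit 80, nat_lit 13, nat_lit 345, nat_lit 125, nat_lit 9]⟩, ⟨p092_k3, nat_lit 0, nat_lit 0, nat_lit 363, nat_lit 0, nat_lit 447359, [nat_lit 2619036000, nat_lit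 4987500000, nat_lit 9473856000], [], [nat_lit 20635005504, nat_lit 22324820722, nat_lit 18967724106, nat_lit 20474445986, nat_lit 22720134787, nat_lit 24971124042, nat_lit 21041178067, nat_lit 23058974149], nat_lit 1271250, nat_lit 1271250, nat_lit 631250, nat_lit 1100001, nat_lit 1100001, nat_lit 2298750, [nat_lit 780000, nat_lit 1435000, nat_lit 1271250], [nat_lit 23, nat_lit 40, nat_lit 40, nat_lit 80, nat_lit 12, nat_lit 428, nat_lit 200, nat_lit 11]⟩,
 ⟨nat_lit 3872, nat_lit 4473, ⟨.ofNat (nat_lit 416230), .ofNat (nat_lit 518209), .ofNat (nat_lit 459327), .ofNat (nat_lit 561306), .ofNat (nat_lit 425778), .ofNat (nat_lit 522572), .ofNat (nat_lit 469330), .ofNat (nat_lit 566124)⟩, ⟨.ofNat (nat_lit 259489), .ofNat (nat_lit 429434), .ofNat (nat_lit 302621), .ofNat (nat_lit 472567), .ofNat (nat_lit 261131), .ofNat (nat_lit 422435), .ofNat (nat_lit 304717), .ofNat (nat_lit 466021)⟩⟩, [⟨nat_lit 0, nat_lit 92, nat_lit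 81, nat_lit 100, nat_lit 940333907⟩, ⟨nat_lit 4, nat_lit 100, nat_lit 76, nat_lit 72, nat_lit 668748863⟩, ⟨nat_lit 7, nat_lit 100, nat_lit 90, nat_lit 74, nat_lit 374579670⟩]⟩
noncomputable def p092_l54 : Lf2 := ⟨nat_lit 0, nat_lit 20, [nat_lit 5, nat_lit 5, nat_lit 5, nat_lit 20], false, nat_lit 160, nat_lit 232, nat_lit 160, nat_lit 300, ⟨nat_lit 1000, nat_lit 0, nat_lit 0, nat_lit 0, nat_lit 0, nat_lit 0, nat_lit 0, nat_lit 0, nat_lit 0, nat_lit 0, nat_lit 0, nat_lit 0, nat_lit 0, nat_lit 0, nat_lit 0, nat_lit 0, false, false⟩,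
 nat_lit 15063, nat_lit 0, nat_lit 0, nat_lit 0, nat_lit 12193, nat_lit 9585, nat_lit 0, nat_lit 0, nat_lit 0, nat_lit 1035, nat_lit 0, nat_lit 0, nat_lit 0, nat_lit 0, nat_lit 0, nat_lit 0, nat_lit 0, nat_lit 0, [],
 ⟨p092_k7, nat_lit 0, nat_lit 0, nat_lit 252, nat_lit 0, nat_lit 424070, [nat_lit 2032000001, nat_lit 4688000000, nat_lit 7968000000], [], [nat_lit 22006470871, nat_lit 24353456865, nat_lit 21474391742, nat_lit 24071515816, nat_lit 23880028794, nat_lit 27345063328, nat_lit 23571854201, nat_lit 26825023664], nat_lit 1271250, nat_lit 1271250, nat_lit 810650, nat_lit 1100001, nat_lit 1100001, nat_lit 1716500, [nat_lit 490000, nat_lit 1100000, nat_lit 1785000], [nat_lit 34, nat_lit 40, nat_lit 40, nat_lit 80, nat_lit 7, nat_lit 317, nat_lit 100, nat_lit 9]⟩, ⟨p092_k3, nat_lit 0, nat_lit 0, nat_lit 398, nat_lit 0, nat_lit 576160, [nat_lit 3282000000, nat_lit 6250000000, nat_lit 11872000000], [], [nat_lit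 20067264494, nat_lit 20867857383, nat_lit 17618096950, nat_lit 20584374825, nat_lit 23055842243, nat_lit 25702607050, nat_lit 22552862465, nat_lit 25452246710], nat_lit 1271250, nat_lit 1271250, nat_lit 810650, nat_lit 1100001, nat_lit 1100001, nat_lit 2298750, [nat_lit 780000, nat_lit 1435000, nat_lit 1271250], [nat_lit 23, nat_lit 40, nat_lit 40, nat_lit 80, nat_lit 12, nat_lit 428, nat_lit 200, nat_lit 10]⟩,
 zbF0, [⟨nat_lit 0, nat_lit 88, nat_lit 67, nat_lit 100, nat_lit 1108737883⟩, ⟨nat_lit 4, nat_lit 100, nat_lit 66, nat_lit 72, nat_lit 829692993⟩, ⟨nat_lit 7, nat_lit 100, nat_lit 90, nat_lit 74, nat_lit 490255216⟩]⟩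
noncomputable def p092_l55 : Lf2 := ⟨nat_lit 0, nat_lit 20, [nat_lit 5, nat_lit 5, nat_lit 5, nat_lit 20], false, nat_lit 160, nat_lit 260, nat_lit 0, nat_lit 160, ⟨nat_lit 1000, nat_lit 0, nat_lit 0, nat_lit 0, nat_lit 0, nat_lit 0, nat_lit 0, nat_lit 0, nat_lit 0, nat_lit 0, nat_lit 0, nat_lit 0, nat_lit 0, nat_lit 0, nat_lit 0, nat_lit 0, false, false⟩,
 nat_lit 11457, nat_lit 0, nat_lit 0, nat_lit 0, nat_lit 8592, nat_lit 7290, nat_lit 712, nat_lit 0, nat_lit 0, nat_lit 903, nat_lit 0, nat_lit 0, nat_lit 0, nat_lit 0, nat_lit 0, nat_lit 0, nat_lit 0, nat_lit 0, [],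
 ⟨p092_k2, nat_lit 0, nat_lit 0, nat_lit 303, nat_lit 0, nat_lit 466709, [nat_lit 2032000001, nat_lit 4688000000, nat_lit 9842000000], [], [nat_lit 19006902640, nat_lit 22701706792, nat_lit 20982936232, nat_lit 25057297120, nat_lit 21965145344, nat_lit 26407721552, nat_lit 24334275008, nat_lit 28272435720], nat_lit 1271250, nat_lit 1271250, nat_lit 1100001, nat_lit 1785000, nat_lit 1100001, nat_lit 1956250, [nat_lit 490000, nat_lit 1100000, nat_lit 2127500], [nat_lit 27, nat_lit 40, nat_lit 40, nat_lit 80, nat_lit 13, nat_lit 345, nat_lit 125, nat_lit 9]⟩, ⟨p092_k3, nat_lit 0, nat_lit 0, nat_lit 528, nat_lit 0, nat_lit 576160, [nat_lit 3282000000, nat_lit 6250000000, nat_lit 11872000000], [], [nat_lit 32931805560, nat_lit 31677131170, nat_lit 30874993945, nat_lit 32463761825, nat_lit 25430831345, nat_lit 26994808505, nat_lit 29405195920, nat_lit 27676512545], nat_lit 1271250, nat_lit 1271250, nat_lit 1100001, nat_lit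 1785000, nat_lit 0, nat_lit 1100001, [nat_lit 780000, nat_lit 1435000, nat_lit 1271250], [nat_lit 23, nat_lit 40, nat_lit 40, nat_lit 80, nat_lit 12, nat_lit 428, nat_lit 200, nat_lit 11]⟩,
 zbF0, [⟨nat_lit 0, nat_lit 90, nat_lit 74, nat_lit 100, nat_lit 191486705⟩, ⟨nat_lit 4, nat_lit 100, nat_lit 71, nat_lit 71, nat_lit 783984609⟩]⟩
noncomputable def p092_l56 : Lf2 := ⟨nat_lit 0, nat_lit 20, [nat_lit 5, nat_lit 5, nat_lit 5, nat_lit 20], false, nat_lit 160, nat_lit 260, nat_lit 160, nat_lit 300, ⟨nat_lit 1000, nat_lit 0, nat_lit 0, nat_lit 0, nat_lit 0, nat_lit 0, nat_lit 0, nat_lit 0, nat_lit 0, nat_lit 0, nat_lit 0, nat_lit 0, nat_lit 0, nat_lit 0, nat_lit 0, nat_lit 0, false, false⟩,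
 nat_lit 16571, nat_lit 0, nat_lit 0, nat_lit 0, nat_lit 12427, nat_lit 10544, nat_lit 301, nat_lit 0, nat_lit 0, nat_lit 796, nat_lit 0, nat_lit 0, nat_lit 0, nat_lit 0, nat_lit 0, nat_lit 0, nat_lit 0, nat_lit 0, [],
 ⟨p092_k2, nat_lit 0, nat_lit 0, nat_lit 205, nat_lit 0, nat_lit 362377, [nat_lit 2032000001, nat_lit 4688000000, nat_lit 9842000000], [], [nat_lit 20185827237, nat_lit 22575761307, nat_lit 22172434517, nat_lit 24171535887, nat_lit 23357653189, nat_lit 25889595493, nat_lit 25633569173, nat_lit 28186261747], nat_lit 1271250, nat_lit 1271250, nat_lit 1100001, nat_lit 1785000, nat_lit 1100001, nat_lit 1956250, [nat_lit 490000, nat_lit 1100000, nat_lit 2127500], [nat_lit 27, nat_lit 40, nat_lit 40, nat_lit 80, nat_lit 13, nat_lit 345, nat_lit 125, nat_lit 9]⟩, ⟨p092_k3, nat_lit 0, nat_lit 0, nat_lit 340, nat_lit 0, nat_lit 447359, [nat_lit 3282000000, nat_lit 6250000000, nat_lit 11872000000], [], [nat_lit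 20627948680, nat_lit 22341623976, nat_lit 21010703524, nat_lit 23744917572, nat_lit 28682813104, nat_lit 26519606340, nat_lit 24938677204, nat_lit 27980476000], nat_lit 1271250, nat_lit 1271250, nat_lit 1271250, nat_lit 1271250, nat_lit 1100001, nat_lit 2298750, [nat_lit 780000, nat_lit 1435000, nat_lit 1271250], [nat_lit 23, nat_lit 40, nat_lit 40, nat_lit 80, nat_lit 12, nat_lit 456, nat_lit 225, nat_lit 11]⟩,
 zbF0, [⟨nat_lit 4, nat_lit 100, nat_lit 76, nat_lit 72, nat_lit 686838040⟩, ⟨nat_lit 7, nat_lit 100, nat_lit 90, nat_lit 74, nat_lit 554051971⟩]⟩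
noncomputable def p092_l57 : Lf2 := ⟨nat_lit 0, nat_lit 20, [nat_lit 5, nat_lit 5, nat_lit 5, nat_lit 20], false, nat_lit 160, nat_lit 232, nat_lit 160, nat_lit 300, ⟨nat_lit 1000, nat_lit 0, nat_lit 0, nat_lit 0, nat_lit 0, nat_lit 0, nat_lit 0, nat_lit 0, nat_lit 0, nat_lit 0, nat_lit 0, nat_lit 0, nat_lit 0, nat_lit 0, nat_lit 0, nat_lit 0, false, false⟩,
 nat_lit 14525, nat_lit 0, nat_lit 0, nat_lit 0, nat_lit 11757, nat_lit 9242, nat_lit 0, nat_lit 0, nat_lit 0, nat_lit 540, nat_lit 0, nat_lit 0, nat_lit 0, nat_lit 0, nat_lit 0, nat_lit 0, nat_lit 0, nat_lit 0, [],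
 ⟨p092_k7, nat_lit 0, nat_lit 0, nat_lit 243, nat_lit 0, nat_lit 424070, [nat_lit 2032000001, nat_lit 4688000000, nat_lit 7968000000], [], [nat_lit 22244675558, nat_lit 24006932304, nat_lit 23778834540, nat_lit 26879894020, nat_lit 23413827920, nat_lit 26577015877, nat_lit 26138431088, nat_lit 28779330063], nat_lit 1271250, nat_lit 1271250, nat_lit 1100001, nat_lit 1785000, nat_lit 1100001, nat_lit 1716500, [nat_lit 490000, nat_lit 1100000, nat_lit 1785000], [nat_lit 34, nat_lit 40, nat_lit 40, nat_lit 80, nat_lit 7, nat_lit 345, nat_lit 125, nat_lit 10]⟩, ⟨p092_k3, nat_lit 0, nat_lit 0, nat_lit 386, nat_lit 0, nat_lit 576160, [nat_lit 3282000000, nat_lit 6250000000, nat_lit 11872000000], [], [nat_lit 27675946240, nat_lit 29295898368, nat_lit 28076165968, nat_lit 29399769592, nat_lit 29566231822, nat_lit 30629643448, nat_lit 29262925512, nat_lit 30108986754], nat_lit 1271250, nat_lit 1271250, nat_lit 1271250, nat_lit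 1271250, nat_lit 1100001, nat_lit 2298750, [nat_lit 780000, nat_lit 1435000, nat_lit 1271250], [nat_lit 23, nat_lit 40, nat_lit 40, nat_lit 80, nat_lit 12, nat_lit 456, nat_lit 225, nat_lit 11]⟩,
 zbF0, [⟨nat_lit 0, nat_lit 88, nat_lit 67, nat_lit 100, nat_lit 455698676⟩, ⟨nat_lit 16, nat_lit 66, nat_lit 100, nat_lit 72, nat_lit 882594285⟩, ⟨nat_lit 7, nat_lit 100, nat_lit 90, nat_lit 74, nat_lit 403284953⟩]⟩
noncomputable def p092_l58 : Lf2 := ⟨nat_lit 0, nat_lit 20, [nat_lit 5, nat_lit 5, nat_lit 5, nat_lit 20], false, nat_lit 0, nat_lit 260, nat_lit 0, nat_lit 160, ⟨nat_lit 1000, nat_lit 0, nat_lit 0, nat_lit 0, nat_lit 0, nat_lit 0, nat_lit 0, nat_lit 0, nat_lit 0, nat_lit 0, nat_lit 0, nat_lit 0, nat_lit 0, nat_lit 0, nat_lit 0, nat_lit 0, false, false⟩,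
 nat_lit 10510, nat_lit 0, nat_lit 0, nat_lit 0, nat_lit 6788, nat_lit 6688, nat_lit 622, nat_lit 0, nat_lit 0, nat_lit 802, nat_lit 0, nat_lit 0, nat_lit 0, nat_lit 0, nat_lit 0, nat_lit 0, nat_lit 0, nat_lit 0, [],
 ⟨p092_k2, nat_lit 0, nat_lit 0, nat_lit 352, nat_lit 0, nat_lit 362377, [nat_lit 2032000001, nat_lit 4688000000, nat_lit 9842000000], [], [nat_lit 29703633356, nat_lit 30761084492, nat_lit 40265095728, nat_lit 41714904912, nat_lit 26160700876, nat_lit 26774671186, nat_lit 33879391040, nat_lit 34913965882], nat_lit 1271250, nat_lit 1271250, nat_lit 1271250, nat_lit 1271250, nat_lit 0, nat_lit 1836250, [nat_lit 490000, nat_lit 1100000, nat_lit 2127500], [nat_lit 27, nat_lit 40, nat_lit 40, nat_lit 80, nat_lit 13, nat_lit 401, nat_lit 175, nat_lit 11]⟩, ⟨p092_k3, nat_lit 0, nat_lit 0, nat_lit 432, nat_lit 0, nat_lit 447359, [nat_lit 3282000000, nat_lit 6250000000, nat_lit 11872000000], [], [nat_lit 33902766396,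 nat_lit 35016376508, nat_lit 38925457886, nat_lit 39986497344, nat_lit 29425482620, nat_lit 30348980924, nat_lit 34246276064, nat_lit 35297035648], nat_lit 1271250, nat_lit 1271250, nat_lit 1271250, nat_lit 1271250, nat_lit 0, nat_lit 1100001, [nat_lit 780000, nat_lit 1435000, nat_lit 1271250], [nat_lit 23, nat_lit 40, nat_lit 40, nat_lit 80, nat_lit 12, nat_lit 456, nat_lit 225, nat_lit 11]⟩,
 zbF0, [⟨nat_lit 4, nat_lit 100, nat_lit 76, nat_lit 72, nat_lit 73225502⟩]⟩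
noncomputable def p092_l59 : Lf2 := ⟨nat_lit 0, nat_lit 20, [nat_lit 5, nat_lit 5, nat_lit 5, nat_lit 20], false, nat_lit 0, nat_lit 232, nat_lit 0, nat_lit 160, ⟨nat_lit 1000, nat_lit 0, nat_lit 0, nat_lit 0, nat_lit 0, nat_lit 0, nat_lit 0, nat_lit 0, nat_lit 0, nat_lit 0, nat_lit 0, nat_lit 0, nat_lit 0, nat_lit 0, nat_lit 0, nat_lit 0, false, false⟩,
 nat_lit 10508, nat_lit 0, nat_lit 0, nat_lit 0, nat_lit 5304, nat_lit 6686, nat_lit 654, nat_lit 0, nat_lit 0, nat_lit 802, nat_lit 0, nat_lit 0, nat_lit 0, nat_lit 0, nat_lit 0, nat_lit 0, nat_lit 0, nat_lit 0, [],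
 ⟨p092_k7, nat_lit 0, nat_lit 0, nat_lit 361, nat_lit 0, nat_lit 424070, [nat_lit 2032000001, nat_lit 4688000000, nat_lit 7968000000], [], [nat_lit 26664861790, nat_lit 27683555520, nat_lit 37387525296, nat_lit 38661824768, nat_lit 24866892171, nat_lit 25584133980, nat_lit 32479289520, nat_lit 33466102413], nat_lit 1271250, nat_lit 1271250, nat_lit 1271250, nat_lit 1271250, nat_lit 0, nat_lit 1638500, [nat_lit 490000, nat_lit 1100000, nat_lit 1785000], [nat_lit 34, nat_lit 40, nat_lit 40, nat_lit 80, nat_lit 7, nat_lit 272, nat_lit 60, nat_lit 8]⟩, ⟨p092_k3, nat_lit 0, nat_lit 0, nat_lit 510, nat_lit 0, nat_lit 576160, [nat_lit 3282000000, nat_lit 6250000000, nat_lit 11872000000], [], [nat_lit 33906519812, nat_lit 35020061476, nat_lit 38928664342, nat_lit 39989520968, nat_lit 29431270140, nat_lit 30354739228, nat_lit 34251456808, nat_lit 35302159056], nat_lit 1271250, nat_lit 1271250, nat_lit 1271250, nat_lit 1271250,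 nat_lit 0, nat_lit 1100001, [nat_lit 780000, nat_lit 1435000, nat_lit 1271250], [nat_lit 23, nat_lit 40, nat_lit 40, nat_lit 80, nat_lit 12, nat_lit 456, nat_lit 225, nat_lit 11]⟩,
 zbF0, [⟨nat_lit 16, nat_lit 66, nat_lit 100, nat_lit 72, nat_lit 109553688⟩]⟩
noncomputable def p092_l60 : Lf2 := ⟨nat_lit 0, nat_lit 20, [nat_lit 5, nat_lit 5, nat_lit 5, nat_lit 20], false, nat_lit 0, nat_lit 260, nat_lit 160, nat_lit 300, ⟨nat_lit 1000, nat_lit 0, nat_lit 0, nat_lit 0, nat_lit 0, nat_lit 0, nat_lit 0, nat_lit 0, nat_lit 0, nat_lit 0, nat_lit 0, nat_lit 0, nat_lit 0, nat_lit 0, nat_lit 0, nat_lit 0, false, false⟩,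
 nat_lit 10134, nat_lit 0, nat_lit 0, nat_lit 0, nat_lit 6785, nat_lit 6448, nat_lit 622, nat_lit 0, nat_lit 0, nat_lit 809, nat_lit 0, nat_lit 0, nat_lit 0, nat_lit 0, nat_lit 0, nat_lit 0, nat_lit 0, nat_lit 0, [],
 ⟨p092_k2, nat_lit 0, nat_lit 0, nat_lit 352, nat_lit 0, nat_lit 362377, [nat_lit 2032000001, nat_lit 4688000000, nat_lit 9842000000], [], [nat_lit 29705918420, nat_lit 30763138940, nat_lit 40256702460, nat_lit 41706156840, nat_lit 26169653320, nat_lit 26783003770, nat_lit 33875998550, nat_lit 34910360178], nat_lit 1271250, nat_lit 1271250, nat_lit 1271250, nat_lit 1271250, nat_lit 0, nat_lit 1836250, [nat_lit 490000, nat_lit 1100000, nat_lit 2127500], [nat_lit 27, nat_lit 40, nat_lit 40, nat_lit 80, nat_lit 13, nat_lit 401, nat_lit 175, nat_lit 11]⟩, ⟨p092_k3, nat_lit 0, nat_lit 0, nat_lit 336, nat_lit 0, nat_lit 447359, [nat_lit 3282000000, nat_lit 6250000000, nat_lit 11872000000], [], [nat_lit 27872954542,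 nat_lit 29070347598, nat_lit 33065528599, nat_lit 34041297536, nat_lit 29544663078, nat_lit 30719316463, nat_lit 34682530648, nat_lit 35637568624], nat_lit 1271250, nat_lit 1271250, nat_lit 1271250, nat_lit 1271250, nat_lit 1100001, nat_lit 2298750, [nat_lit 780000, nat_lit 1435000, nat_lit 1271250], [nat_lit 23, nat_lit 40, nat_lit 40, nat_lit 80, nat_lit 12, nat_lit 538, nat_lit 300, nat_lit 13]⟩,
 zbF0, [⟨nat_lit 4, nat_lit 100, nat_lit 76, nat_lit 72, nat_lit 73411273⟩, ⟨nat_lit 19, nat_lit 90, nat_lit 100, nat_lit 74, nat_lit 417997150⟩]⟩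
noncomputable def p092_l61 : Lf2 := ⟨nat_lit 0, nat_lit 20, [nat_lit 5, nat_lit 5, nat_lit 5, nat_lit 20], false, nat_lit 0, nat_lit 232, nat_lit 160, nat_lit 300, ⟨nat_lit 1000, nat_lit 0, nat_lit 0, nat_lit 0, nat_lit 0, nat_lit 0, nat_lit 0, nat_lit 0, nat_lit 0, nat_lit 0, nat_lit 0, nat_lit 0, nat_lit 0, nat_lit 0, nat_lit 0, nat_lit 0, false, false⟩,
 nat_lit 11259, nat_lit 0, nat_lit 0, nat_lit 0, nat_lit 5428, nat_lit 7164, nat_lit 651, nat_lit 0, nat_lit 0, nat_lit 741, nat_lit 0, nat_lit 0, nat_lit 0, nat_lit 0, nat_lit 0, nat_lit 0, nat_lit 0, nat_lit 0, [],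
 ⟨p092_k7, nat_lit 0, nat_lit 0, nat_lit 361, nat_lit 0, nat_lit 424070, [nat_lit 2032000001, nat_lit 4688000000, nat_lit 7968000000], [], [nat_lit 26513105152, nat_lit 27868443824, nat_lit 37749112272, nat_lit 39038076976, nat_lit 24565988581, nat_lit 25287212910, nat_lit 32628781441, nat_lit 33625450250], nat_lit 1271250, nat_lit 1271250, nat_lit 1271250, nat_lit 1271250, nat_lit 0, nat_lit 1638500, [nat_lit 490000, nat_lit 1100000, nat_lit 1785000], [nat_lit 34, nat_lit 40, nat_lit 40, nat_lit 80, nat_lit 7, nat_lit 272, nat_lit 60, nat_lit 8]⟩, ⟨p092_k3, nat_lit 0, nat_lit 0, nat_lit 377, nat_lit 0, nat_lit 576160, [nat_lit 3282000000, nat_lit 6250000000, nat_lit 11872000000], [], [nat_lit 28281166795, nat_lit 29586553547, nat_lit 33337301995, nat_lit 34077664544, nat_lit 30190832327, nat_lit 31101134963, nat_lit 34262665524, nat_lit 35588192752], nat_lit 1271250, nat_lit 1271250, nat_lit 1271250, nat_lit 1271250,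 nat_lit 1100001, nat_lit 2298750, [nat_lit 780000, nat_lit 1435000, nat_lit 1271250], [nat_lit 23, nat_lit 40, nat_lit 40, nat_lit 80, nat_lit 12, nat_lit 538, nat_lit 300, nat_lit 13]⟩,
 zbF0, [⟨nat_lit 4, nat_lit 100, nat_lit 66, nat_lit 72, nat_lit 99738590⟩, ⟨nat_lit 7, nat_lit 100, nat_lit 90, nat_lit 74, nat_lit 410977579⟩]⟩
noncomputable def b_V_800_700_10_34 : St := ⟨true, nat_lit 1, nat_lit 1, nat_lit 1, nat_lit 80, nat_lit 320, nat_lit 360, nat_lit 280, nat_lit 320, nat_lit 100, nat_lit 400, nat_lit 40, nat_lit 80, nat_lit 0, nat_lit 260, nat_lit 0, nat_lit 300, nat_lit 80, nat_lit 120, nat_lit 0, nat_lit 0, nat_lit 0, nat_lit 0⟩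
theorem d_V_800_700_10_34 (h : EB TB.env) : Dead b_V_800_700_10_34 := chkB_sound0 h (T :=
(.spl (nat_lit 2) (nat_lit 240)
(.spl (nat_lit 4) (nat_lit 160)
(.spl (nat_lit 5) (nat_lit 160)
(.spl (nat_lit 2) (nat_lit 160)
(.leaf p092_l46)
(.leaf p092_l47))
(.spl (nat_lit 2) (nat_lit 160)
(.spl (nat_lit 5) (nat_lit 240)
(.leaf p092_l48)
(.leaf p092_l49))
(.spl (nat_lit 0) (nat_lit 340)
(.leaf p092_l50)
(.leaf p092_l51))))
(.spl (nat_lit 2) (nat_lit 160)
(.spl (nat_lit 5) (nat_lit 160)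
(.leaf p092_l52)
(.spl (nat_lit 0) (nat_lit 340)
(.leaf p092_l53)
(.trZ (nat_lit 0) (nat_lit 99) (nat_lit 77) (nat_lit 100) (nat_lit 124) (.trX (nat_lit 16) (nat_lit 72) (nat_lit 100) (nat_lit 81) (nat_lit 232) (.leaf p092_l54)))))
(.spl (nat_lit 5) (nat_lit 160)
(.leaf p092_l55)
(.spl (nat_lit 0) (nat_lit 340)
(.leaf p092_l56)
(.trX (nat_lit 16) (nat_lit 72) (nat_lit 100) (nat_lit 81) (nat_lit 232) (.leaf p092_l57))))))
(.spl (nat_lit 5) (nat_lit 160)
(.spl (nat_lit 0) (nat_lit 340)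
(.leaf p092_l58)
(.trX (nat_lit 16) (nat_lit 72) (nat_lit 100) (nat_lit 81) (nat_lit 232) (.leaf p092_l59)))
(.spl (nat_lit 0) (nat_lit 340)
(.leaf p092_l60)
(.trX (nat_lit 16) (nat_lit 72) (nat_lit 100) (nat_lit 81) (nat_lit 232) (.leaf p092_l61)))))) (by decide +kernel)
noncomputable def p092_l62 : Lf2 := ⟨nat_lit 0, nat_lit 15, [nat_lit 30, nat_lit 5, nat_lit 5, nat_lit 20], false, nat_lit 0, nat_lit 232, nat_lit 0, nat_lit 276, ⟨nat_lit 1000, nat_lit 0, nat_lit 0, nat_lit 0, nat_lit 0, nat_lit 0, nat_lit 0, nat_lit 0, nat_lit 0, nat_lit 0, nat_lit 0, nat_lit 0, nat_lit 0, nat_lit 0, nat_lit 0, nat_lit 0, false, false⟩,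
 nat_lit 0, nat_lit 9724, nat_lit 0, nat_lit 0, nat_lit 7293, nat_lit 16783, nat_lit 531, nat_lit 0, nat_lit 0, nat_lit 0, nat_lit 0, nat_lit 0, nat_lit 0, nat_lit 0, nat_lit 0, nat_lit 0, nat_lit 0, nat_lit 0, [],
 ⟨p092_k0, nat_lit 0, nat_lit 0, nat_lit 406, nat_lit 0, nat_lit 520649, [nat_lit 2032000001, nat_lit 4688000000, nat_lit 7968000000], [], [nat_lit 36009290888, nat_lit 29798102000, nat_lit 27978496034, nat_lit 31543068244, nat_lit 23817590980, nat_lit 25887445712, nat_lit 29776415536, nat_lit 26195207958], nat_lit 1271250, nat_lit 1271250, nat_lit 631250, nat_lit 1751250, nat_lit 0, nat_lit 1638500, [nat_lit 490000, nat_lit 1100000, nat_lit 1785000], [nat_lit 34, nat_lit 40, nat_lit 40, nat_lit 80, nat_lit 7, nat_lit 345, nat_lit 125, nat_lit 11]⟩, ⟨p092_k1, nat_lit 0, nat_lit 0, nat_lit 178, nat_lit 0, nat_lit 0, [nat_lit 3282000000, nat_lit 6250000000, nat_lit 9842000000], [], [nat_lit 31139496930,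 nat_lit 34744850660, nat_lit 33224428380, nat_lit 35866716102, nat_lit 22986080628, nat_lit 25124347243, nat_lit 23378093913, nat_lit 26053241617], nat_lit 0, nat_lit 0, nat_lit 0, nat_lit 0, nat_lit 0, nat_lit 0, [], [nat_lit 8, nat_lit 40, nat_lit 40, nat_lit 80, nat_lit 1, nat_lit 373, nat_lit 150, nat_lit 11]⟩,
 zbF0, [⟨nat_lit 0, nat_lit 94, nat_lit 75, nat_lit 100, nat_lit 614283232⟩, ⟨nat_lit 4, nat_lit 100, nat_lit 72, nat_lit 66, nat_lit 17528094⟩]⟩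
noncomputable def p092_l63 : Lf2 := ⟨nat_lit 0, nat_lit 15, [nat_lit 30, nat_lit 5, nat_lit 5, nat_lit 20], false, nat_lit 0, nat_lit 232, nat_lit 0, nat_lit 256, ⟨nat_lit 1000, nat_lit 0, nat_lit 0, nat_lit 0, nat_lit 0, nat_lit 0, nat_lit 0, nat_lit 0, nat_lit 0, nat_lit 0, nat_lit 0, nat_lit 0, nat_lit 0, nat_lit 0, nat_lit 0, nat_lit 0, false, false⟩,
 nat_lit 0, nat_lit 9380, nat_lit 0, nat_lit 0, nat_lit 7035, nat_lit 13155, nat_lit 538, nat_lit 0, nat_lit 0, nat_lit 0, nat_lit 0, nat_lit 0, nat_lit 0, nat_lit 0, nat_lit 0, nat_lit 0, nat_lit 0, nat_lit 0, [],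
 ⟨p092_k0, nat_lit 0, nat_lit 0, nat_lit 451, nat_lit 0, nat_lit 659133, [nat_lit 2032000001, nat_lit 4688000000, nat_lit 7968000000], [], [nat_lit 32032882742, nat_lit 29928123200, nat_lit 28827682480, nat_lit 31034728780, nat_lit 25097371579, nat_lit 26743341643, nat_lit 30500110653, nat_lit 26857078694], nat_lit 1271250, nat_lit 1271250, nat_lit 780000, nat_lit 1762500, nat_lit 0, nat_lit 1638500, [nat_lit 490000, nat_lit 1100000, nat_lit 1785000], [nat_lit 34, nat_lit 40, nat_lit 40, nat_lit 80, nat_lit 7, nat_lit 345, nat_lit 125, nat_lit 11]⟩, ⟨p092_k9, nat_lit 0, nat_lit 0, nat_lit 182, nat_lit 0, nat_lit 0, [nat_lit 3282000000, nat_lit 6250000000, nat_lit 9842000000], [], [nat_lit 32242691830, nat_lit 35139070160, nat_lit 34859605070, nat_lit 37067497840, nat_lit 24575568024, nat_lit 26441058977, nat_lit 25164467111, nat_lit 26572631013], nat_lit 0, nat_lit 0, nat_lit 0, nat_lit 0, nat_lit 0, nat_lit 0,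 [], [nat_lit 8, nat_lit 40, nat_lit 40, nat_lit 80, nat_lit 1, nat_lit 345, nat_lit 125, nat_lit 10]⟩,
 zbF0, [⟨nat_lit 0, nat_lit 85, nat_lit 73, nat_lit 100, nat_lit 547087834⟩, ⟨nat_lit 4, nat_lit 100, nat_lit 72, nat_lit 66, nat_lit 200781729⟩]⟩
noncomputable def p092_l64 : Lf2 := ⟨nat_lit 0, nat_lit 20, [nat_lit 5, nat_lit 5, nat_lit 5, nat_lit 20], false, nat_lit 0, nat_lit 160, nat_lit 0, nat_lit 300, ⟨nat_lit 137, nat_lit 863, nat_lit 0, nat_lit 7, nat_lit 223, nat_lit 863, nat_lit 59, nat_lit 0, nat_lit 0, nat_lit 0, nat_lit 0, nat_lit 0, nat_lit 0, nat_lit 0, nat_lit 0, nat_lit 5000000, false, false⟩,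
 nat_lit 0, nat_lit 6105, nat_lit 0, nat_lit 0, nat_lit 4578, nat_lit 1371, nat_lit 82, nat_lit 0, nat_lit 0, nat_lit 96, nat_lit 0, nat_lit 0, nat_lit 0, nat_lit 0, nat_lit 0, nat_lit 581600, nat_lit 0, nat_lit 0, [(nat_lit 19, [(nat_lit 1, nat_lit 469), (nat_lit 2, nat_lit 394)])],
 ⟨p092_k15, nat_lit 0, nat_lit 0, nat_lit 436, nat_lit 0, nat_lit 422961, [nat_lit 1905826601, nat_lit 1815512201, nat_lit 965358800], [], [nat_lit 25378070111, nat_lit 24016830710, nat_lit 24407756436, nat_lit 25295320452, nat_lit 21290152874, nat_lit 22009345315, nat_lit 23893889157, nat_lit 23272645004], nat_lit 1271250, nat_lit 1271250, nat_lit 631250, nat_lit 1751250, nat_lit 0, nat_lit 1100001, [nat_lit 490000, nat_lit 1427500, nat_lit 1271250], [nat_lit 61, nat_lit 40, nat_lit 40, nat_lit 80, nat_lit 1, nat_lit 317, nat_lit 100, nat_lit 9]⟩, ⟨p092_k12, nat_lit 0, nat_lit 0, nat_lit 246, nat_lit 0, nat_lit 0, [nat_lit 449634000,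 nat_lit 1091616000, nat_lit 1626464000], [], [nat_lit 4007488698, nat_lit 4585965630, nat_lit 4212115464, nat_lit 4647655680, nat_lit 3627526956, nat_lit 3959819257, nat_lit 3541439251, nat_lit 3795890269], nat_lit 0, nat_lit 0, nat_lit 0, nat_lit 0, nat_lit 0, nat_lit 0, [], [nat_lit 79, nat_lit 40, nat_lit 40, nat_lit 80, nat_lit 14, nat_lit 456, nat_lit 225, nat_lit 12]⟩,
 ⟨nat_lit 3872, nat_lit 4473, ⟨.ofNat (nat_lit 416230), .ofNat (nat_lit 654181), .ofNat (nat_lit 459327), .ofNat (nat_lit 697279), .ofNat (nat_lit 425778), .ofNat (nat_lit 651631), .ofNat (nat_lit 469330), .ofNat (nat_lit 695183)⟩, ⟨.ofNat (nat_lit 0), .ofNat (nat_lit 281055), .ofNat (nat_lit 0), .ofNat (nat_lit 302621), .ofNat (nat_lit 0), .ofNat (nat_lit 282924), .ofNat (nat_lit 0), .ofNat (nat_lit 304717)⟩⟩, [⟨nat_lit 7, nat_lit 100, nat_lit 92, nat_lit 81, nat_lit 14038635⟩]⟩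
noncomputable def p092_l65 : Lf2 := ⟨nat_lit 0, nat_lit 20, [nat_lit 5, nat_lit 5, nat_lit 5, nat_lit 20], true, nat_lit 0, nat_lit 160, nat_lit 0, nat_lit 300, ⟨nat_lit 0, nat_lit 1000, nat_lit 0, nat_lit 7, nat_lit 233, nat_lit 1000, nat_lit 59, nat_lit 0, nat_lit 0, nat_lit 0, nat_lit 0, nat_lit 0, nat_lit 0, nat_lit 0, nat_lit 0, nat_lit 5000000, false, false⟩,
 nat_lit 0, nat_lit 4552, nat_lit 0, nat_lit 0, nat_lit 3684, nat_lit 0, nat_lit 305, nat_lit 0, nat_lit 0, nat_lit 0, nat_lit 0, nat_lit 0, nat_lit 0, nat_lit 0, nat_lit 0, nat_lit 400000, nat_lit 0, nat_lit 0, [(nat_lit 22, [(nat_lit 1, nat_lit 1000)])],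
 ⟨p092_k7, nat_lit 0, nat_lit 0, nat_lit 403, nat_lit 0, nat_lit 536933, [nat_lit 1358400001, nat_lit 1554800000, nat_lit 1406000000], [], [nat_lit 19278520950, nat_lit 21380524781, nat_lit 22712599496, nat_lit 24432226672, nat_lit 19450361242, nat_lit 20542287942, nat_lit 23716597827, nat_lit 22843578366], nat_lit 1271250, nat_lit 1271250, nat_lit 810650, nat_lit 1764750, nat_lit 0, nat_lit 1100001, [nat_lit 490000, nat_lit 1100000, nat_lit 1785000], [nat_lit 34, nat_lit 40, nat_lit 40, nat_lit 80, nat_lit 7, nat_lit 317, nat_lit 100, nat_lit 10]⟩, C1.Rw.none,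
 ⟨nat_lit 3162, nat_lit 3873, ⟨.ofNat (nat_lit 464406), .ofNat (nat_lit 651611), .ofNat (nat_lit 507934), .ofNat (nat_lit 695141), .ofNat (nat_lit 472632), .ofNat (nat_lit 649490), .ofNat (nat_lit 516884), .ofNat (nat_lit 693742)⟩, ⟨.ofNat (nat_lit 0), .ofNat (nat_lit 282924), .ofNat (nat_lit 0), .ofNat (nat_lit 304717), .ofNat (nat_lit 0), .ofNat (nat_lit 283961), .ofNat (nat_lit 0), .ofNat (nat_lit 306116)⟩⟩, []⟩
noncomputable def p092_l66 : Lf2 := ⟨nat_lit 0, nat_lit 20, [nat_lit 5, nat_lit 5, nat_lit 5, nat_lit 20], true, nat_lit 160, nat_lit 260, nat_lit 0, nat_lit 300, ⟨nat_lit 0, nat_lit 1000, nat_lit 0, nat_lit 7, nat_lit 220, nat_lit 1000, nat_lit 150, nat_lit 0, nat_lit 0, nat_lit 0, nat_lit 0, nat_lit 0, nat_lit 0, nat_lit 0, nat_lit 0, nat_lit 5000000, false, false⟩,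
 nat_lit 0, nat_lit 5324, nat_lit 0, nat_lit 0, nat_lit 3993, nat_lit 0, nat_lit 148, nat_lit 0, nat_lit 0, nat_lit 0, nat_lit 0, nat_lit 0, nat_lit 0, nat_lit 0, nat_lit 0, nat_lit 529600, nat_lit 0, nat_lit 0, [(nat_lit 19, [(nat_lit 1, nat_lit 784), (nat_lit 2, nat_lit 216)]), (nat_lit 22, [(nat_lit 1, nat_lit 784), (nat_lit 2, nat_lit 216)])],
 ⟨p092_k2, nat_lit 0, nat_lit 0, nat_lit 321, nat_lit 0, nat_lit 461928, [nat_lit 1463048534, nat_lit 1824480000, nat_lit 755283200], [], [nat_lit 19865725418, nat_lit 21648524002, nat_lit 21655802420, nat_lit 23252296156, nat_lit 21925039224, nat_lit 23675823208, nat_lit 24984926253, nat_lit 25315585917], nat_lit 1271250, nat_lit 1271250, nat_lit 631250, nat_lit 1751250, nat_lit 1100001, nat_lit 1956250, [nat_lit 490000, nat_lit 1100000, nat_lit 2127500], [nat_lit 27, nat_lit 40, nat_lit 40, nat_lit 80, nat_lit 13, nat_lit 345, nat_lit 125, nat_lit 9]⟩, C1.Rw.none,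
 ⟨nat_lit 3162, nat_lit 4473, ⟨.ofNat (nat_lit 415764), .ofNat (nat_lit 653959), .ofNat (nat_lit 437240), .ofNat (nat_lit 675435), .ofNat (nat_lit 435680), .ofNat (nat_lit 649288), .ofNat (nat_lit 457744), .ofNat (nat_lit 671352)⟩, ⟨.ofNat (nat_lit 281055), .ofNat (nat_lit 451000), .ofNat (nat_lit 302621), .ofNat (nat_lit 472567), .ofNat (nat_lit 283961), .ofNat (nat_lit 436344), .ofNat (nat_lit 306116), .ofNat (nat_lit 458499)⟩⟩, [⟨nat_lit 16, nat_lit 72, nat_lit 100, nat_lit 76, nat_lit 370874271⟩]⟩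
noncomputable def p092_l67 : Lf2 := ⟨nat_lit 0, nat_lit 20, [nat_lit 5, nat_lit 5, nat_lit 5, nat_lit 20], false, nat_lit 160, nat_lit 260, nat_lit 0, nat_lit 280, ⟨nat_lit 1000, nat_lit 0, nat_lit 0, nat_lit 0, nat_lit 0, nat_lit 0, nat_lit 0, nat_lit 0, nat_lit 0, nat_lit 0, nat_lit 0, nat_lit 0, nat_lit 0, nat_lit 0, nat_lit 0, nat_lit 0, false, false⟩,
 nat_lit 0, nat_lit 9020, nat_lit 0, nat_lit 0, nat_lit 6765, nat_lit 14804, nat_lit 743, nat_lit 0, nat_lit 0, nat_lit 0, nat_lit 0, nat_lit 0, nat_lit 0, nat_lit 0, nat_lit 0, nat_lit 0, nat_lit 0, nat_lit 0, [],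
 ⟨p092_k2, nat_lit 0, nat_lit 0, nat_lit 356, nat_lit 0, nat_lit 597106, [nat_lit 2032000001, nat_lit 4688000000, nat_lit 9842000000], [], [nat_lit 22348960710, nat_lit 24356471675, nat_lit 23384991015, nat_lit 25293534695, nat_lit 24092075290, nat_lit 26031608585, nat_lit 25099631340, nat_lit 27098209695], nat_lit 1271250, nat_lit 1271250, nat_lit 780000, nat_lit 1762500, nat_lit 1100001, nat_lit 1956250, [nat_lit 490000, nat_lit 1100000, nat_lit 2127500], [nat_lit 27, nat_lit 40, nat_lit 40, nat_lit 80, nat_lit 13, nat_lit 345, nat_lit 125, nat_lit 9]⟩, ⟨p092_k10, nat_lit 0, nat_lit 0, nat_lit 182, nat_lit 0, nat_lit 0, [nat_lit 3282000000, nat_lit 6250000000, nat_lit 9842000000], [], [nat_lit 32762433544, nat_lit 35933677088, nat_lit 35317357576, nat_lit 37722691712, nat_lit 25310820376, nat_lit 27179200048, nat_lit 25893368100, nat_lit 28294121448], nat_lit 0, nat_lit 0, nat_lit 0, nat_lit 0, nat_lit 0, nat_lit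 0, [], [nat_lit 8, nat_lit 40, nat_lit 40, nat_lit 80, nat_lit 1, nat_lit 373, nat_lit 150, nat_lit 11]⟩,
 zbF0, [⟨nat_lit 0, nat_lit 80, nat_lit 60, nat_lit 100, nat_lit 792393716⟩, ⟨nat_lit 4, nat_lit 100, nat_lit 72, nat_lit 76, nat_lit 548765850⟩, ⟨nat_lit 7, nat_lit 100, nat_lit 87, nat_lit 79, nat_lit 10742037⟩]⟩
noncomputable def p092_l68 : Lf2 := ⟨nat_lit 0, nat_lit 20, [nat_lit 5, nat_lit 5, nat_lit 5, nat_lit 20], false, nat_lit 0, nat_lit 260, nat_lit 0, nat_lit 160, ⟨nat_lit 1000, nat_lit 0, nat_lit 0, nat_lit 0, nat_lit 0, nat_lit 0, nat_lit 0, nat_lit 0, nat_lit 0, nat_lit 0, nat_lit 0, nat_lit 0, nat_lit 0, nat_lit 0, nat_lit 0, nat_lit 0, false, false⟩,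
 nat_lit 0, nat_lit 7499, nat_lit 0, nat_lit 0, nat_lit 5623, nat_lit 7093, nat_lit 670, nat_lit 0, nat_lit 0, nat_lit 719, nat_lit 0, nat_lit 0, nat_lit 0, nat_lit 0, nat_lit 0, nat_lit 0, nat_lit 0, nat_lit 0, [],
 ⟨p092_k2, nat_lit 0, nat_lit 0, nat_lit 463, nat_lit 0, nat_lit 616676, [nat_lit 2032000001, nat_lit 4688000000, nat_lit 9842000000], [], [nat_lit 32342352920, nat_lit 33040732400, nat_lit 37591491664, nat_lit 38322364622, nat_lit 30682387856, nat_lit 31302163030, nat_lit 35315537173, nat_lit 35830728038], nat_lit 1271250, nat_lit 1271250, nat_lit 1271250, nat_lit 1271250, nat_lit 0, nat_lit 1836250, [nat_lit 490000, nat_lit 1100000, nat_lit 2127500], [nat_lit 27, nat_lit 40, nat_lit 40, nat_lit 80, nat_lit 13, nat_lit 401, nat_lit 175, nat_lit 11]⟩, ⟨p092_k3, nat_lit 0, nat_lit 0, nat_lit 242, nat_lit 0, nat_lit 0, [nat_lit 3282000000, nat_lit 6250000000, nat_lit 11872000000], [], [nat_lit 31144709629,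 nat_lit 33180162209, nat_lit 39652475825, nat_lit 41121854441, nat_lit 26436702893, nat_lit 28139193593, nat_lit 32974528609, nat_lit 34027610469], nat_lit 0, nat_lit 0, nat_lit 0, nat_lit 0, nat_lit 0, nat_lit 0, [], [nat_lit 23, nat_lit 40, nat_lit 40, nat_lit 80, nat_lit 12, nat_lit 456, nat_lit 225, nat_lit 11]⟩,
 zbF0, [⟨nat_lit 4, nat_lit 100, nat_lit 76, nat_lit 72, nat_lit 244772011⟩, ⟨nat_lit 9, nat_lit 100, nat_lit 85, nat_lit 30, nat_lit 12984234⟩]⟩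
noncomputable def p092_l69 : Lf2 := ⟨nat_lit 0, nat_lit 20, [nat_lit 5, nat_lit 5, nat_lit 5, nat_lit 20], false, nat_lit 0, nat_lit 232, nat_lit 0, nat_lit 160, ⟨nat_lit 1000, nat_lit 0, nat_lit 0, nat_lit 0, nat_lit 0, nat_lit 0, nat_lit 0, nat_lit 0, nat_lit 0, nat_lit 0, nat_lit 0, nat_lit 0, nat_lit 0, nat_lit 0, nat_lit 0, nat_lit 0, false, false⟩,
 nat_lit 0, nat_lit 5418, nat_lit 0, nat_lit 0, nat_lit 4385, nat_lit 7742, nat_lit 1073, nat_lit 0, nat_lit 0, nat_lit 578, nat_lit 0, nat_lit 0, nat_lit 0, nat_lit 0, nat_lit 0, nat_lit 0, nat_lit 0, nat_lit 0, [],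
 ⟨p092_k11, nat_lit 0, nat_lit 0, nat_lit 456, nat_lit 0, nat_lit 714187, [nat_lit 2032000001, nat_lit 6250000000, nat_lit 7968000000], [], [nat_lit 28726220472, nat_lit 29403015842, nat_lit 34707699240, nat_lit 35873310420, nat_lit 28171376254, nat_lit 28687875179, nat_lit 32430255654, nat_lit 32943753921], nat_lit 1271250, nat_lit 1271250, nat_lit 1271250, nat_lit 1271250, nat_lit 0, nat_lit 1638500, [nat_lit 490000, nat_lit 1427500, nat_lit 1271250], [nat_lit 102, nat_lit 40, nat_lit 40, nat_lit 80, nat_lit 2, nat_lit 272, nat_lit 60, nat_lit 8]⟩, ⟨p092_k12, nat_lit 0, nat_lit 0, nat_lit 252, nat_lit 0, nat_lit 0, [nat_lit 3282000000, nat_lit 7968000000, nat_lit 11872000000], [], [nat_lit 34337179474, nat_lit 36265669554, nat_lit 41720579178, nat_lit 42934666616, nat_lit 28768956498, nat_lit 30374087378, nat_lit 35135233640, nat_lit 36300652016], nat_lit 0, nat_lit 0, nat_lit 0, nat_lit 0, nat_lit 0, nat_lit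 0, [], [nat_lit 79, nat_lit 40, nat_lit 40, nat_lit 80, nat_lit 14, nat_lit 456, nat_lit 225, nat_lit 11]⟩,
 zbF0, [⟨nat_lit 4, nat_lit 100, nat_lit 66, nat_lit 72, nat_lit 294525459⟩, ⟨nat_lit 9, nat_lit 100, nat_lit 88, nat_lit 23, nat_lit 42747076⟩]⟩
noncomputable def p092_l70 : Lf2 := ⟨nat_lit 0, nat_lit 20, [nat_lit 5, nat_lit 5, nat_lit 5, nat_lit 20], false, nat_lit 0, nat_lit 260, nat_lit 160, nat_lit 300, ⟨nat_lit 1000, nat_lit 0, nat_lit 0, nat_lit 0, nat_lit 0, nat_lit 0, nat_lit 0, nat_lit 0, nat_lit 0, nat_lit 0, nat_lit 0, nat_lit 0, nat_lit 0, nat_lit 0, nat_lit 0, nat_lit 0, false, false⟩,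
 nat_lit 0, nat_lit 7706, nat_lit 0, nat_lit 0, nat_lit 5779, nat_lit 6882, nat_lit 574, nat_lit 0, nat_lit 0, nat_lit 0, nat_lit 0, nat_lit 0, nat_lit 0, nat_lit 0, nat_lit 0, nat_lit 0, nat_lit 0, nat_lit 0, [],
 ⟨p092_k2, nat_lit 0, nat_lit 0, nat_lit 549, nat_lit 0, nat_lit 794224, [nat_lit 2032000001, nat_lit 4688000000, nat_lit 9842000000], [], [nat_lit 35483767744, nat_lit 36672213720, nat_lit 39120455158, nat_lit 40111764514, nat_lit 33182385760, nat_lit 34005564465, nat_lit 36260688043, nat_lit 37132252412], nat_lit 1271250, nat_lit 1271250, nat_lit 1271250, nat_lit 1271250, nat_lit 0, nat_lit 1836250, [nat_lit 490000, nat_lit 1100000, nat_lit 2127500], [nat_lit 27, nat_lit 40, nat_lit 40, nat_lit 80, nat_lit 13, nat_lit 401, nat_lit 175, nat_lit 11]⟩, ⟨p092_k3, nat_lit 0, nat_lit 0, nat_lit 90, nat_lit 0, nat_lit 0, [nat_lit 3282000000, nat_lit 6250000000, nat_lit 11872000000], [], [nat_lit 19574929760,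 nat_lit 22566246792, nat_lit 30795560448, nat_lit 32550953456, nat_lit 25291102388, nat_lit 27426686078, nat_lit 33701122798, nat_lit 35258191276], nat_lit 0, nat_lit 0, nat_lit 0, nat_lit 0, nat_lit 0, nat_lit 0, [], [nat_lit 23, nat_lit 40, nat_lit 40, nat_lit 80, nat_lit 12, nat_lit 538, nat_lit 300, nat_lit 13]⟩,
 zbF0, [⟨nat_lit 16, nat_lit 71, nat_lit 100, nat_lit 71, nat_lit 225471039⟩, ⟨nat_lit 7, nat_lit 100, nat_lit 90, nat_lit 74, nat_lit 574611882⟩]⟩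
noncomputable def p092_l71 : Lf2 := ⟨nat_lit 0, nat_lit 20, [nat_lit 5, nat_lit 5, nat_lit 5, nat_lit 20], false, nat_lit 0, nat_lit 160, nat_lit 0, nat_lit 300, ⟨nat_lit 142, nat_lit 858, nat_lit 0, nat_lit 7, nat_lit 224, nat_lit 858, nat_lit 57, nat_lit 0, nat_lit 0, nat_lit 0, nat_lit 0, nat_lit 0, nat_lit 0, nat_lit 0, nat_lit 0, nat_lit 5000000, false, false⟩,
 nat_lit 2856, nat_lit 3190, nat_lit 0, nat_lit 0, nat_lit 4534, nat_lit 1817, nat_lit 40, nat_lit 0, nat_lit 0, nat_lit 54, nat_lit 0, nat_lit 0, nat_lit 0, nat_lit 0, nat_lit 0, nat_lit 673800, nat_lit 0, nat_lit 0, [(nat_lit 19, [(nat_lit 1, nat_lit 307), (nat_lit 2, nat_lit 551)]), (nat_lit 22, [(nat_lit 1, nat_lit 307), (nat_lit 2, nat_lit 551)])],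
 ⟨p092_k15, nat_lit 0, nat_lit 0, nat_lit 456, nat_lit 0, nat_lit 466709, [nat_lit 2023503001, nat_lit 1512604201, nat_lit 222795200], [], [nat_lit 25312909127, nat_lit 24493745040, nat_lit 23941366723, nat_lit 26198190160, nat_lit 21118123676, nat_lit 22673721875, nat_lit 24193023061, nat_lit 23943826493], nat_lit 1271250, nat_lit 1271250, nat_lit 631250, nat_lit 1751250, nat_lit 0, nat_lit 1100001, [nat_lit 490000, nat_lit 1427500, nat_lit 1271250], [nat_lit 61, nat_lit 40, nat_lit 40, nat_lit 80, nat_lit 1, nat_lit 317, nat_lit 100, nat_lit 9]⟩, ⟨p092_k12, nat_lit 0, nat_lit 0, nat_lit 560, nat_lit 0, nat_lit 576160, [nat_lit 466044000, nat_lit 1131456000, nat_lit 1685824000], [], [nat_lit 6245602038, nat_lit 5780484570, nat_lit 5126673448, nat_lit 5513745558, nat_lit 4082728761, nat_lit 4480025881, nat_lit 5715795170, nat_lit 4141569991], nat_lit 1271250, nat_lit 1271250, nat_lit 631250, nat_lit 1751250, nat_lit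 0, nat_lit 2118750, [nat_lit 780000, nat_lit 1762500, nat_lit 1271250], [nat_lit 79, nat_lit 40, nat_lit 40, nat_lit 80, nat_lit 14, nat_lit 456, nat_lit 225, nat_lit 12]⟩,
 ⟨nat_lit 3162, nat_lit 4473, ⟨.ofNat (nat_lit 415764), .ofNat (nat_lit 653959), .ofNat (nat_lit 458716), .ofNat (nat_lit 696911), .ofNat (nat_lit 435680), .ofNat (nat_lit 649288), .ofNat (nat_lit 479808), .ofNat (nat_lit 693416)⟩, ⟨.negSucc (nat_lit 12437), .ofNat (nat_lit 259488), .ofNat (nat_lit 0), .ofNat (nat_lit 302621), .ofNat (nat_lit 0), .ofNat (nat_lit 261805), .ofNat (nat_lit 0), .ofNat (nat_lit 306116)⟩⟩, [⟨nat_lit 7, nat_lit 100, nat_lit 90, nat_lit 74, nat_lit 4015960⟩]⟩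
noncomputable def p092_l72 : Lf2 := ⟨nat_lit 0, nat_lit 20, [nat_lit 5, nat_lit 5, nat_lit 5, nat_lit 20], false, nat_lit 160, nat_lit 260, nat_lit 0, nat_lit 300, ⟨nat_lit 128, nat_lit 872, nat_lit 0, nat_lit 7, nat_lit 224, nat_lit 872, nat_lit 145, nat_lit 0, nat_lit 0, nat_lit 0, nat_lit 0, nat_lit 0, nat_lit 0, nat_lit 0, nat_lit 0, nat_lit 5000000, false, false⟩,
 nat_lit 2770, nat_lit 3391, nat_lit 0, nat_lit 0, nat_lit 4620, nat_lit 1762, nat_lit 311, nat_lit 0, nat_lit 0, nat_lit 30, nat_lit 0, nat_lit 0, nat_lit 0, nat_lit 0, nat_lit 0, nat_lit 348800, nat_lit 0, nat_lit 0, [(nat_lit 19, [(nat_lit 1, nat_lit 872)]), (nat_lit 22, [(nat_lit 1, nat_lit 872)])],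
 ⟨p092_k2, nat_lit 0, nat_lit 0, nat_lit 322, nat_lit 0, nat_lit 466709, [nat_lit 1479268267, nat_lit 2376851200, nat_lit 2857280000], [], [nat_lit 19864861870, nat_lit 21757064430, nat_lit 21358097715, nat_lit 23259445795, nat_lit 21882694255, nat_lit 23976312205, nat_lit 24093638341, nat_lit 25717804200], nat_lit 1271250, nat_lit 1271250, nat_lit 631250, nat_lit 1751250, nat_lit 1100001, nat_lit 1956250, [nat_lit 490000, nat_lit 1100000, nat_lit 2127500], [nat_lit 27, nat_lit 40, nat_lit 40, nat_lit 80, nat_lit 13, nat_lit 345, nat_lit 125, nat_lit 9]⟩, ⟨p092_k3, nat_lit 0, nat_lit 0, nat_lit 552, nat_lit 0, nat_lit 576160, [nat_lit 420096000, nat_lit 800000000, nat_lit 1519616000], [], [nat_lit 7411188372, nat_lit 5600908896, nat_lit 4949262908, nat_lit 5249494914, nat_lit 3874547275, nat_lit 4217121721, nat_lit 4522113344, nat_lit 3859054056], nat_lit 1271250, nat_lit 1271250, nat_lit 631250, nat_lit 1751250,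 nat_lit 0, nat_lit 2118750, [nat_lit 780000, nat_lit 1435000, nat_lit 1271250], [nat_lit 23, nat_lit 40, nat_lit 40, nat_lit 80, nat_lit 12, nat_lit 456, nat_lit 225, nat_lit 12]⟩,
 ⟨nat_lit 3162, nat_lit 4473, ⟨.ofNat (nat_lit 415764), .ofNat (nat_lit 653959), .ofNat (nat_lit 458716), .ofNat (nat_lit 696911), .ofNat (nat_lit 435680), .ofNat (nat_lit 649288), .ofNat (nat_lit 479808), .ofNat (nat_lit 693416)⟩, ⟨.ofNat (nat_lit 259488), .ofNat (nat_lit 429433), .ofNat (nat_lit 302621), .ofNat (nat_lit 472567), .ofNat (nat_lit 261805), .ofNat (nat_lit 414188), .ofNat (nat_lit 306116), .ofNat (nat_lit 458499)⟩⟩, [⟨nat_lit 16, nat_lit 71, nat_lit 100, nat_lit 71, nat_lit 472597103⟩]⟩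
noncomputable def p092_l73 : Lf2 := ⟨nat_lit 0, nat_lit 20, [nat_lit 5, nat_lit 5, nat_lit 5, nat_lit 20], false, nat_lit 0, nat_lit 160, nat_lit 0, nat_lit 300, ⟨nat_lit 610, nat_lit 390, nat_lit 0, nat_lit 7, nat_lit 323, nat_lit 390, nat_lit 56, nat_lit 0, nat_lit 0, nat_lit 0, nat_lit 0, nat_lit 0, nat_lit 0, nat_lit 0, nat_lit 0, nat_lit 5000000, true, true⟩,
 nat_lit 6405, nat_lit 0, nat_lit 0, nat_lit 0, nat_lit 4803, nat_lit 4075, nat_lit 487, nat_lit 0, nat_lit 0, nat_lit 437, nat_lit 0, nat_lit 0, nat_lit 0, nat_lit 0, nat_lit 0, nat_lit 156000, nat_lit 0, nat_lit 0, [(nat_lit 19, [(nat_lit 1, nat_lit 390)])],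
 ⟨p092_k2, nat_lit 0, nat_lit 0, nat_lit 352, nat_lit 0, nat_lit 362377, [nat_lit 1784792000, nat_lit 3654344000, nat_lit 6718100000], [], [nat_lit 28673580062, nat_lit 29449489468, nat_lit 34711550068, nat_lit 35926597272, nat_lit 26351090370, nat_lit 27014406650, nat_lit 31644925904, nat_lit 32337959142], nat_lit 1271250, nat_lit 1271250, nat_lit 1271250, nat_lit 1271250, nat_lit 0, nat_lit 1100001, [nat_lit 490000, nat_lit 1100000, nat_lit 2127500], [nat_lit 27, nat_lit 40, nat_lit 40, nat_lit 80, nat_lit 13, nat_lit 373, nat_lit 150, nat_lit 10]⟩, ⟨p092_k3, nat_lit 0, nat_lit 0, nat_lit 432, nat_lit 0, nat_lit 447359, [nat_lit 2002020000, nat_lit 3812500000, nat_lit 7241920000], [], [nat_lit 21691115370, nat_lit 22370257370, nat_lit 24344386390, nat_lit 24800043755, nat_lit 19614381550, nat_lit 19998748945, nat_lit 21722726385, nat_lit 22166725345], nat_lit 1271250, nat_lit 1271250, nat_lit 1271250, nat_lit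 1271250, nat_lit 0, nat_lit 2118750, [nat_lit 780000, nat_lit 1435000, nat_lit 1271250], [nat_lit 23, nat_lit 40, nat_lit 40, nat_lit 80, nat_lit 12, nat_lit 538, nat_lit 300, nat_lit 13]⟩,
 ⟨nat_lit 3872, nat_lit 4473, ⟨.ofNat (nat_lit 654181), .ofNat (nat_lit 926124), .ofNat (nat_lit 697279), .ofNat (nat_lit 969223), .ofNat (nat_lit 651631), .ofNat (nat_lit 909748), .ofNat (nat_lit 695183), .ofNat (nat_lit 953301)⟩, ⟨.negSucc (nat_lit 12427), .ofNat (nat_lit 259489), .ofNat (nat_lit 0), .ofNat (nat_lit 302621), .ofNat (nat_lit 0), .ofNat (nat_lit 261131), .ofNat (nat_lit 0), .ofNat (nat_lit 304717)⟩⟩, [⟨nat_lit 7, nat_lit 100, nat_lit 90, nat_lit 74, nat_lit 99558032⟩]⟩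
noncomputable def p092_l74 : Lf2 := ⟨nat_lit 0, nat_lit 20, [nat_lit 5, nat_lit 5, nat_lit 5, nat_lit 20], false, nat_lit 0, nat_lit 160, nat_lit 0, nat_lit 300, ⟨nat_lit 464, nat_lit 536, nat_lit 0, nat_lit 7, nat_lit 319, nat_lit 536, nat_lit 57, nat_lit 0, nat_lit 0, nat_lit 0, nat_lit 0, nat_lit 0, nat_lit 0, nat_lit 0, nat_lit 0, nat_lit 5000000, true, true⟩,
 nat_lit 4874, nat_lit 0, nat_lit 0, nat_lit 0, nat_lit 3945, nat_lit 3101, nat_lit 343, nat_lit 0, nat_lit 0, nat_lit 333, nat_lit 0, nat_lit 0, nat_lit 0, nat_lit 0, nat_lit 0, nat_lit 214400, nat_lit 0, nat_lit 0, [(nat_lit 22, [(nat_lit 1, nat_lit 536)])],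
 ⟨p092_k7, nat_lit 0, nat_lit 0, nat_lit 361, nat_lit 0, nat_lit 424070, [nat_lit 1670950401, nat_lit 3008604800, nat_lit 4444764800], [], [nat_lit 27220648517, nat_lit 27973789577, nat_lit 33424648680, nat_lit 34538221940, nat_lit 26249480397, nat_lit 26894908897, nat_lit 30328070352, nat_lit 30855278387], nat_lit 1271250, nat_lit 1271250, nat_lit 1271250, nat_lit 1271250, nat_lit 0, nat_lit 1100001, [nat_lit 490000, nat_lit 1100000, nat_lit 1785000], [nat_lit 34, nat_lit 40, nat_lit 40, nat_lit 80, nat_lit 7, nat_lit 249, nat_lit 40, nat_lit 7]⟩, ⟨p092_k3, nat_lit 0, nat_lit 0, nat_lit 510, nat_lit 0, nat_lit 576160, [nat_lit 1522848000, nat_lit 2900000000, nat_lit 5508608000], [], [nat_lit 16485596370, nat_lit 17002235074, nat_lit 18503996438, nat_lit 18860184139, nat_lit 14904267098, nat_lit 15202497125, nat_lit 16519814685, nat_lit 16857533003], nat_lit 1271250, nat_lit 1271250, nat_lit 1271250, nat_lit 1271250,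 nat_lit 0, nat_lit 2118750, [nat_lit 780000, nat_lit 1435000, nat_lit 1271250], [nat_lit 23, nat_lit 40, nat_lit 40, nat_lit 80, nat_lit 12, nat_lit 538, nat_lit 300, nat_lit 13]⟩,
 ⟨nat_lit 3162, nat_lit 3873, ⟨.ofNat (nat_lit 651611), .ofNat (nat_lit 909779), .ofNat (nat_lit 695141), .ofNat (nat_lit 953347), .ofNat (nat_lit 649490), .ofNat (nat_lit 893385), .ofNat (nat_lit 693742), .ofNat (nat_lit 937676)⟩, ⟨.ofNat (nat_lit 0), .ofNat (nat_lit 261131), .ofNat (nat_lit 0), .ofNat (nat_lit 304717), .ofNat (nat_lit 0), .ofNat (nat_lit 261806), .ofNat (nat_lit 0), .ofNat (nat_lit 306116)⟩⟩, [⟨nat_lit 19, nat_lit 90, nat_lit 100, nat_lit 74, nat_lit 55742057⟩, ⟨nat_lit 22, nat_lit 83, nat_lit 100, nat_lit 83, nat_lit 19359512⟩]⟩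
noncomputable def p092_l75 : Lf2 := ⟨nat_lit 0, nat_lit 20, [nat_lit 5, nat_lit 5, nat_lit 5, nat_lit 20], false, nat_lit 160, nat_lit 260, nat_lit 0, nat_lit 300, ⟨nat_lit 681, nat_lit 319, nat_lit 0, nat_lit 7, nat_lit 321, nat_lit 319, nat_lit 145, nat_lit 0, nat_lit 0, nat_lit 0, nat_lit 0, nat_lit 0, nat_lit 0, nat_lit 0, nat_lit 0, nat_lit 5000000, true, true⟩,
 nat_lit 7509, nat_lit 0, nat_lit 0, nat_lit 0, nat_lit 5631, nat_lit 4778, nat_lit 471, nat_lit 0, nat_lit 0, nat_lit 485, nat_lit 0, nat_lit 0, nat_lit 0, nat_lit 0, nat_lit 0, nat_lit 79750, nat_lit 0, nat_lit 0, [(nat_lit 19, [(nat_lit 0, nat_lit 319)]), (nat_lit 22, [(nat_lit 0, nat_lit 319)])],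
 ⟨p092_k2, nat_lit 0, nat_lit 0, nat_lit 303, nat_lit 0, nat_lit 466709, [nat_lit 1883984001, nat_lit 3948047600, nat_lit 7684539200], [], [nat_lit 25749905374, nat_lit 27398769098, nat_lit 31034858219, nat_lit 33279405160, nat_lit 27130929594, nat_lit 28589937620, nat_lit 32571020730, nat_lit 34475710963], nat_lit 1271250, nat_lit 1271250, nat_lit 1271250, nat_lit 1271250, nat_lit 1100001, nat_lit 1956250, [nat_lit 490000, nat_lit 1100000, nat_lit 2127500], [nat_lit 27, nat_lit 40, nat_lit 40, nat_lit 80, nat_lit 13, nat_lit 401, nat_lit 175, nat_lit 10]⟩, ⟨p092_k3, nat_lit 0, nat_lit 0, nat_lit 510, nat_lit 0, nat_lit 576160, [nat_lit 2235042000, nat_lit 4256250000, nat_lit 8084832000], [], [nat_lit 23841555838, nat_lit 24607572430, nat_lit 27014381718, nat_lit 27986202119, nat_lit 21238965524, nat_lit 21669413683, nat_lit 23613557949, nat_lit 24117737035], nat_lit 1271250, nat_lit 1271250, nat_lit 1271250, nat_lit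 1271250, nat_lit 0, nat_lit 2118750, [nat_lit 780000, nat_lit 1435000, nat_lit 1271250], [nat_lit 23, nat_lit 40, nat_lit 40, nat_lit 80, nat_lit 12, nat_lit 538, nat_lit 300, nat_lit 13]⟩,
 ⟨nat_lit 3162, nat_lit 4473, ⟨.ofNat (nat_lit 653959), .ofNat (nat_lit 926092), .ofNat (nat_lit 696911), .ofNat (nat_lit 969090), .ofNat (nat_lit 649288), .ofNat (nat_lit 893321), .ofNat (nat_lit 693416), .ofNat (nat_lit 937496)⟩, ⟨.ofNat (nat_lit 259488), .ofNat (nat_lit 429433), .ofNat (nat_lit 302621), .ofNat (nat_lit 472567), .ofNat (nat_lit 261805), .ofNat (nat_lit 414188), .ofNat (nat_lit 306116), .ofNat (nat_lit 458499)⟩⟩, [⟨nat_lit 4, nat_lit 100, nat_lit 71, nat_lit 71, nat_lit 472306452⟩, ⟨nat_lit 7, nat_lit 100, nat_lit 90, nat_lit 74, nat_lit 87795776⟩]⟩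
noncomputable def b_V_800_700_10_35 : St := ⟨true, nat_lit 1, nat_lit 2, nat_lit 2, nat_lit 80, nat_lit 320, nat_lit 360, nat_lit 280, nat_lit 320, nat_lit 100, nat_lit 400, nat_lit 40, nat_lit 80, nat_lit 0, nat_lit 260, nat_lit 0, nat_lit 300, nat_lit 80, nat_lit 120, nat_lit 0, nat_lit 0, nat_lit 0, nat_lit 0⟩
theorem d_V_800_700_10_35 (h : EB TB.env) : Dead b_V_800_700_10_35 := chkB_sound0 h (T :=
(.st (nat_lit 1)
(.spl (nat_lit 2) (nat_lit 240)
(.spl (nat_lit 3) (nat_lit 60)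
(.trX (nat_lit 16) (nat_lit 81) (nat_lit 100) (nat_lit 72) (nat_lit 232) (.trX (nat_lit 19) (nat_lit 99) (nat_lit 100) (nat_lit 77) (nat_lit 276) (.spl (nat_lit 1) (nat_lit 300)
(.leaf p092_l62)
(.trZ (nat_lit 0) (nat_lit 94) (nat_lit 87) (nat_lit 100) (nat_lit 120) (.trX (nat_lit 19) (nat_lit 90) (nat_lit 100) (nat_lit 74) (nat_lit 256) (.leaf p092_l63))))))
(.spl (nat_lit 4) (nat_lit 160)
(.spl (nat_lit 0) (nat_lit 340)
(.leaf p092_l64)
(.trZ (nat_lit 0) (nat_lit 99) (nat_lit 77) (nat_lit 100) (nat_lit 124) (.leaf p092_l65)))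
(.spl (nat_lit 1) (nat_lit 300)
(.leaf p092_l66)
(.trZ (nat_lit 0) (nat_lit 94) (nat_lit 87) (nat_lit 100) (nat_lit 120) (.trX (nat_lit 19) (nat_lit 94) (nat_lit 100) (nat_lit 87) (nat_lit 280) (.leaf p092_l67))))))
(.spl (nat_lit 5) (nat_lit 160)
(.spl (nat_lit 0) (nat_lit 340)
(.leaf p092_l68)
(.trX (nat_lit 16) (nat_lit 72) (nat_lit 100) (nat_lit 81) (nat_lit 232) (.leaf p092_l69)))
(.leaf p092_l70)))
(.spl (nat_lit 2) (nat_lit 240)
(.spl (nat_lit 4) (nat_lit 160)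
(.leaf p092_l71)
(.leaf p092_l72))
(.spl (nat_lit 4) (nat_lit 160)
(.spl (nat_lit 0) (nat_lit 340)
(.leaf p092_l73)
(.leaf p092_l74))
(.leaf p092_l75))))) (by decide +kernel)
noncomputable def p092_l76 : Lf2 := ⟨nat_lit 0, nat_lit 20, [nat_lit 5, nat_lit 5, nat_lit 5, nat_lit 20], false, nat_lit 0, nat_lit 260, nat_lit 0, nat_lit 300, ⟨nat_lit 1000, nat_lit 0, nat_lit 0, nat_lit 0, nat_lit 0, nat_lit 0, nat_lit 0, nat_lit 0, nat_lit 0, nat_lit 0, nat_lit 0, nat_lit 0, nat_lit 0, nat_lit 0, nat_lit 0, nat_lit 0, false, false⟩,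
 nat_lit 0, nat_lit 0, nat_lit 0, nat_lit 17306, nat_lit 8067, nat_lit 14580, nat_lit 0, nat_lit 0, nat_lit 0, nat_lit 0, nat_lit 0, nat_lit 0, nat_lit 0, nat_lit 0, nat_lit 0, nat_lit 0, nat_lit 0, nat_lit 0, [],
 ⟨p092_k2, nat_lit 0, nat_lit 0, nat_lit 205, nat_lit 0, nat_lit 0, [nat_lit 2032000001, nat_lit 4688000000, nat_lit 9842000000], [], [nat_lit 33170024110, nat_lit 37810292324, nat_lit 35045892976, nat_lit 38628530980, nat_lit 30121342223, nat_lit 33257073316, nat_lit 30718514065, nat_lit 33150756922], nat_lit 0, nat_lit 0, nat_lit 0, nat_lit 0, nat_lit 0, nat_lit 0, [], [nat_lit 27, nat_lit 40, nat_lit 40, nat_lit 80, nat_lit 13, nat_lit 345, nat_lit 125, nat_lit 10]⟩, ⟨p092_k3, nat_lit 0, nat_lit 0, nat_lit 230, nat_lit 0, nat_lit 0, [nat_lit 3282000000, nat_lit 6250000000, nat_lit 11872000000], [], [nat_lit 39070895400, nat_lit 44604759600, nat_lit 39663690240, nat_lit 43743455040, nat_lit 31982160050,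 nat_lit 35018294330, nat_lit 29725985780, nat_lit 31887569860], nat_lit 0, nat_lit 0, nat_lit 0, nat_lit 0, nat_lit 0, nat_lit 0, [], [nat_lit 23, nat_lit 40, nat_lit 40, nat_lit 80, nat_lit 12, nat_lit 456, nat_lit 225, nat_lit 12]⟩,
 zbF0, [⟨nat_lit 0, nat_lit 90, nat_lit 74, nat_lit 100, nat_lit 824556222⟩, ⟨nat_lit 4, nat_lit 100, nat_lit 71, nat_lit 71, nat_lit 162356043⟩]⟩
noncomputable def p092_l77 : Lf2 := ⟨nat_lit 0, nat_lit 20, [nat_lit 5, nat_lit 5, nat_lit 5, nat_lit 20], false, nat_lit 0, nat_lit 260, nat_lit 0, nat_lit 300, ⟨nat_lit 1000, nat_lit 0, nat_lit 0, nat_lit 0, nat_lit 0, nat_lit 0, nat_lit 0, nat_lit 0, nat_lit 0, nat_lit 0, nat_lit 0, nat_lit 0, nat_lit 0, nat_lit 0, nat_lit 0, nat_lit 0, false, false⟩,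
 nat_lit 0, nat_lit 0, nat_lit 0, nat_lit 5468, nat_lit 8180, nat_lit 10413, nat_lit 0, nat_lit 0, nat_lit 0, nat_lit 0, nat_lit 0, nat_lit 0, nat_lit 0, nat_lit 0, nat_lit 0, nat_lit 0, nat_lit 0, nat_lit 0, [],
 ⟨p092_k2, nat_lit 0, nat_lit 0, nat_lit 215, nat_lit 0, nat_lit 0, [nat_lit 2032000001, nat_lit 4688000000, nat_lit 9842000000], [], [nat_lit 35090791040, nat_lit 38705477200, nat_lit 45742532000, nat_lit 47893694800, nat_lit 30630735100, nat_lit 33081777880, nat_lit 37796678440, nat_lit 39269653180], nat_lit 0, nat_lit 0, nat_lit 0, nat_lit 0, nat_lit 0, nat_lit 0, [], [nat_lit 27, nat_lit 40, nat_lit 40, nat_lit 80, nat_lit 13, nat_lit 401, nat_lit 175, nat_lit 11]⟩, ⟨p092_k3, nat_lit 0, nat_lit 0, nat_lit 242, nat_lit 0, nat_lit 0, [nat_lit 3282000000, nat_lit 6250000000, nat_lit 11872000000], [], [nat_lit 38008024464, nat_lit 41267056944, nat_lit 50287783200, nat_lit 51968021656, nat_lit 32665216733,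 nat_lit 34492499071, nat_lit 39697908678, nat_lit 40557904398], nat_lit 0, nat_lit 0, nat_lit 0, nat_lit 0, nat_lit 0, nat_lit 0, [], [nat_lit 23, nat_lit 40, nat_lit 40, nat_lit 80, nat_lit 12, nat_lit 538, nat_lit 300, nat_lit 13]⟩,
 zbF0, [⟨nat_lit 4, nat_lit 100, nat_lit 71, nat_lit 71, nat_lit 9955263⟩]⟩
noncomputable def p092_l78 : Lf2 := ⟨nat_lit 0, nat_lit 15, [nat_lit 30, nat_lit 5, nat_lit 5, nat_lit 20], false, nat_lit 0, nat_lit 232, nat_lit 0, nat_lit 276, ⟨nat_lit 1000, nat_lit 0, nat_lit 0, nat_lit 0, nat_lit 0, nat_lit 0, nat_lit 0, nat_lit 0, nat_lit 0, nat_lit 0, nat_lit 0, nat_lit 0, nat_lit 0, nat_lit 0, nat_lit 0, nat_lit 0, false, false⟩,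
 nat_lit 0, nat_lit 0, nat_lit 13743, nat_lit 0, nat_lit 9327, nat_lit 8745, nat_lit 0, nat_lit 0, nat_lit 0, nat_lit 0, nat_lit 0, nat_lit 0, nat_lit 0, nat_lit 0, nat_lit 0, nat_lit 0, nat_lit 0, nat_lit 0, [],
 ⟨p092_k0, nat_lit 0, nat_lit 0, nat_lit 175, nat_lit 0, nat_lit 0, [nat_lit 2032000001, nat_lit 4688000000, nat_lit 7968000000], [], [nat_lit 28644881954, nat_lit 34386527160, nat_lit 31162502972, nat_lit 35550883632, nat_lit 23908213430, nat_lit 28002865696, nat_lit 25172661910, nat_lit 28317884052], nat_lit 0, nat_lit 0, nat_lit 0, nat_lit 0, nat_lit 0, nat_lit 0, [], [nat_lit 34, nat_lit 40, nat_lit 40, nat_lit 80, nat_lit 7, nat_lit 345, nat_lit 125, nat_lit 11]⟩, ⟨p092_k1, nat_lit 0, nat_lit 0, nat_lit 354, nat_lit 0, nat_lit 317136, [nat_lit 3282000000, nat_lit 6250000000, nat_lit 9842000000], [], [nat_lit 47553515610, nat_lit 40516166850, nat_lit 38569837220, nat_lit 40649122440, nat_lit 34266259176,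 nat_lit 35975320863, nat_lit 36104204656, nat_lit 34980867575], nat_lit 1271250, nat_lit 1271250, nat_lit 631250, nat_lit 1751250, nat_lit 0, nat_lit 1949250, [nat_lit 780000, nat_lit 1435000, nat_lit 1271250], [nat_lit 8, nat_lit 40, nat_lit 40, nat_lit 80, nat_lit 1, nat_lit 373, nat_lit 150, nat_lit 11]⟩,
 zbF0, [⟨nat_lit 0, nat_lit 90, nat_lit 74, nat_lit 100, nat_lit 147552334⟩, ⟨nat_lit 0, nat_lit 80, nat_lit 60, nat_lit 100, nat_lit 828456788⟩, ⟨nat_lit 4, nat_lit 100, nat_lit 72, nat_lit 66, nat_lit 17176654⟩]⟩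
noncomputable def p092_l79 : Lf2 := ⟨nat_lit 1, nat_lit 20, [nat_lit 5, nat_lit 5, nat_lit 5, nat_lit 20], false, nat_lit 0, nat_lit 260, nat_lit 0, nat_lit 300, zbN0,
 nat_lit 0, nat_lit 0, nat_lit 0, nat_lit 0, nat_lit 0, nat_lit 0, nat_lit 0, nat_lit 0, nat_lit 0, nat_lit 0, nat_lit 0, nat_lit 0, nat_lit 0, nat_lit 0, nat_lit 0, nat_lit 0, nat_lit 0, nat_lit 0, [],
 C1.Rw.none, C1.Rw.none,
 zbF0, []⟩
noncomputable def p092_l80 : Lf2 := ⟨nat_lit 0, nat_lit 20, [nat_lit 5, nat_lit 5, nat_lit 5, nat_lit 20], false, nat_lit 0, nat_lit 232, nat_lit 0, nat_lit 300, ⟨nat_lit 1000, nat_lit 0, nat_lit 0, nat_lit 0, nat_lit 0, nat_lit 0, nat_lit 0, nat_lit 0, nat_lit 0, nat_lit 0, nat_lit 0, nat_lit 0, nat_lit 0, nat_lit 0, nat_lit 0, nat_lit 0, false, false⟩,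
 nat_lit 0, nat_lit 0, nat_lit 20772, nat_lit 26692, nat_lit 9327, nat_lit 13218, nat_lit 0, nat_lit 0, nat_lit 0, nat_lit 192, nat_lit 0, nat_lit 0, nat_lit 0, nat_lit 0, nat_lit 0, nat_lit 0, nat_lit 0, nat_lit 0, [],
 ⟨p092_k7, nat_lit 0, nat_lit 0, nat_lit 167, nat_lit 0, nat_lit 0, [nat_lit 2032000001, nat_lit 4688000000, nat_lit 7968000000], [], [nat_lit 30894610303, nat_lit 33669580595, nat_lit 33356693302, nat_lit 35550883632, nat_lit 25389575402, nat_lit 27367983625, nat_lit 26745272981, nat_lit 28317884052], nat_lit 0, nat_lit 0, nat_lit 0, nat_lit 0, nat_lit 0, nat_lit 0, [], [nat_lit 34, nat_lit 40, nat_lit 40, nat_lit 80, nat_lit 7, nat_lit 345, nat_lit 125, nat_lit 11]⟩, ⟨p092_k3, nat_lit 0, nat_lit 0, nat_lit 331, nat_lit 0, nat_lit 106786, [nat_lit 3282000000, nat_lit 6250000000, nat_lit 11872000000], [], [nat_lit 48276357344, nat_lit 43309599610, nat_lit 39845631352, nat_lit 41730696936, nat_lit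 30594360930, nat_lit 32164791863, nat_lit 36387032512, nat_lit 30897601006], nat_lit 1271250, nat_lit 1271250, nat_lit 810650, nat_lit 1764750, nat_lit 0, nat_lit 2118750, [nat_lit 780000, nat_lit 1435000, nat_lit 1271250], [nat_lit 23, nat_lit 40, nat_lit 40, nat_lit 80, nat_lit 12, nat_lit 456, nat_lit 225, nat_lit 12]⟩,
 zbF0, [⟨nat_lit 0, nat_lit 80, nat_lit 60, nat_lit 100, nat_lit 1024704718⟩, ⟨nat_lit 4, nat_lit 100, nat_lit 66, nat_lit 76, nat_lit 16272619⟩]⟩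
noncomputable def p092_l81 : Lf2 := ⟨nat_lit 1, nat_lit 20, [nat_lit 5, nat_lit 5, nat_lit 5, nat_lit 20], false, nat_lit 0, nat_lit 260, nat_lit 0, nat_lit 300, zbN0,
 nat_lit 0, nat_lit 0, nat_lit 0, nat_lit 0, nat_lit 0, nat_lit 0, nat_lit 0, nat_lit 0, nat_lit 0, nat_lit 0, nat_lit 0, nat_lit 0, nat_lit 0, nat_lit 0, nat_lit 0, nat_lit 0, nat_lit 0, nat_lit 0, [],
 C1.Rw.none, C1.Rw.none,
 zbF0, []⟩
noncomputable def p092_l82 : Lf2 := ⟨nat_lit 0, nat_lit 20, [nat_lit 5, nat_lit 5, nat_lit 5, nat_lit 20], false, nat_lit 0, nat_lit 260, nat_lit 0, nat_lit 300, ⟨nat_lit 1000, nat_lit 0, nat_lit 0, nat_lit 0, nat_lit 0, nat_lit 0, nat_lit 0, nat_lit 0, nat_lit 0, nat_lit 0, nat_lit 0, nat_lit 0, nat_lit 0, nat_lit 0, nat_lit 0, nat_lit 0, false, false⟩,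
 nat_lit 0, nat_lit 0, nat_lit 10664, nat_lit 0, nat_lit 8785, nat_lit 6786, nat_lit 0, nat_lit 0, nat_lit 0, nat_lit 771, nat_lit 0, nat_lit 0, nat_lit 0, nat_lit 0, nat_lit 0, nat_lit 0, nat_lit 0, nat_lit 0, [],
 ⟨p092_k2, nat_lit 0, nat_lit 0, nat_lit 212, nat_lit 0, nat_lit 0, [nat_lit 2032000001, nat_lit 4688000000, nat_lit 9842000000], [], [nat_lit 35331174480, nat_lit 37224310190, nat_lit 46424004000, nat_lit 47538989050, nat_lit 30160768075, nat_lit 31436616693, nat_lit 37560158530, nat_lit 38316276033], nat_lit 0, nat_lit 0, nat_lit 0, nat_lit 0, nat_lit 0, nat_lit 0, [], [nat_lit 27, nat_lit 40, nat_lit 40, nat_lit 80, nat_lit 13, nat_lit 401, nat_lit 175, nat_lit 11]⟩, ⟨p092_k3, nat_lit 0, nat_lit 0, nat_lit 327, nat_lit 0, nat_lit 122311, [nat_lit 3282000000, nat_lit 6250000000, nat_lit 11872000000], [], [nat_lit 33046786354, nat_lit 34488764322, nat_lit 38807958525, nat_lit 40259500216, nat_lit 29615273946,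 nat_lit 30458098891, nat_lit 34139753686, nat_lit 35145850348], nat_lit 1271250, nat_lit 1271250, nat_lit 1271250, nat_lit 1271250, nat_lit 0, nat_lit 2118750, [nat_lit 780000, nat_lit 1435000, nat_lit 1271250], [nat_lit 23, nat_lit 40, nat_lit 40, nat_lit 80, nat_lit 12, nat_lit 538, nat_lit 300, nat_lit 13]⟩,
 zbF0, [⟨nat_lit 4, nat_lit 100, nat_lit 76, nat_lit 72, nat_lit 41698940⟩, ⟨nat_lit 7, nat_lit 100, nat_lit 90, nat_lit 74, nat_lit 143239038⟩]⟩
noncomputable def p092_l83 : Lf2 := ⟨nat_lit 0, nat_lit 20, [nat_lit 5, nat_lit 5, nat_lit 5, nat_lit 20], false, nat_lit 0, nat_lit 232, nat_lit 0, nat_lit 300, ⟨nat_lit 1000, nat_lit 0, nat_lit 0, nat_lit 0, nat_lit 0, nat_lit 0, nat_lit 0, nat_lit 0, nat_lit 0, nat_lit 0, nat_lit 0, nat_lit 0, nat_lit 0, nat_lit 0, nat_lit 0, nat_lit 0, false, false⟩,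
 nat_lit 0, nat_lit 0, nat_lit 11242, nat_lit 0, nat_lit 6780, nat_lit 7154, nat_lit 0, nat_lit 0, nat_lit 0, nat_lit 709, nat_lit 0, nat_lit 0, nat_lit 0, nat_lit 0, nat_lit 0, nat_lit 0, nat_lit 0, nat_lit 0, [],
 ⟨p092_k7, nat_lit 0, nat_lit 0, nat_lit 196, nat_lit 0, nat_lit 0, [nat_lit 2032000001, nat_lit 4688000000, nat_lit 7968000000], [], [nat_lit 32296056280, nat_lit 34075620480, nat_lit 42290134160, nat_lit 43376166240, nat_lit 28932452452, nat_lit 30025129520, nat_lit 36089214592, nat_lit 36903565273], nat_lit 0, nat_lit 0, nat_lit 0, nat_lit 0, nat_lit 0, nat_lit 0, [], [nat_lit 34, nat_lit 40, nat_lit 40, nat_lit 80, nat_lit 7, nat_lit 272, nat_lit 60, nat_lit 8]⟩, ⟨p092_k3, nat_lit 0, nat_lit 0, nat_lit 399, nat_lit 0, nat_lit 366056, [nat_lit 3282000000, nat_lit 6250000000, nat_lit 11872000000], [], [nat_lit 34812076718, nat_lit 35941635214, nat_lit 39817092475, nat_lit 41290345323, nat_lit 30819093422,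 nat_lit 31438951480, nat_lit 34290543114, nat_lit 35576490572], nat_lit 1271250, nat_lit 1271250, nat_lit 1271250, nat_lit 1271250, nat_lit 0, nat_lit 2118750, [nat_lit 780000, nat_lit 1435000, nat_lit 1271250], [nat_lit 23, nat_lit 40, nat_lit 40, nat_lit 80, nat_lit 12, nat_lit 538, nat_lit 300, nat_lit 13]⟩,
 zbF0, [⟨nat_lit 4, nat_lit 100, nat_lit 66, nat_lit 72, nat_lit 133579810⟩, ⟨nat_lit 7, nat_lit 100, nat_lit 90, nat_lit 74, nat_lit 128243190⟩]⟩
noncomputable def p092_l84 : Lf2 := ⟨nat_lit 0, nat_lit 20, [nat_lit 5, nat_lit 5, nat_lit 5, nat_lit 20], false, nat_lit 0, nat_lit 260, nat_lit 0, nat_lit 300, ⟨nat_lit 461, nat_lit 539, nat_lit 0, nat_lit 7, nat_lit 271, nat_lit 539, nat_lit 89, nat_lit 0, nat_lit 0, nat_lit 0, nat_lit 0, nat_lit 0, nat_lit 0, nat_lit 0, nat_lit 0, nat_lit 5000000, false, false⟩,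
 nat_lit 0, nat_lit 0, nat_lit 0, nat_lit 5587, nat_lit 5466, nat_lit 4751, nat_lit 0, nat_lit 0, nat_lit 0, nat_lit 0, nat_lit 0, nat_lit 0, nat_lit 0, nat_lit 0, nat_lit 0, nat_lit 134750, nat_lit 0, nat_lit 0, [(nat_lit 19, [(nat_lit 0, nat_lit 539)]), (nat_lit 22, [(nat_lit 0, nat_lit 539)])],
 ⟨p092_k2, nat_lit 0, nat_lit 0, nat_lit 215, nat_lit 0, nat_lit 0, [nat_lit 1781904001, nat_lit 3437735601, nat_lit 6219279320], [], [nat_lit 28110311485, nat_lit 31616295872, nat_lit 39062761720, nat_lit 40860398880, nat_lit 28116388645, nat_lit 30249005817, nat_lit 35234974348, nat_lit 36531829486], nat_lit 0, nat_lit 0, nat_lit 0, nat_lit 0, nat_lit 0, nat_lit 0, [], [nat_lit 27, nat_lit 40, nat_lit 40, nat_lit 80, nat_lit 13, nat_lit 401, nat_lit 175, nat_lit 11]⟩, ⟨p092_k3, nat_lit 0, nat_lit 0, nat_lit 240, nat_lit 0, nat_lit 0, [nat_lit 1513002000, nat_lit 2881250000, nat_lit 5472992000], [], [nat_lit 16840626834,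 nat_lit 17833639892, nat_lit 23127031780, nat_lit 23512758220, nat_lit 15432182222, nat_lit 16000447916, nat_lit 18320621226, nat_lit 18518864070], nat_lit 0, nat_lit 0, nat_lit 0, nat_lit 0, nat_lit 0, nat_lit 0, [], [nat_lit 23, nat_lit 40, nat_lit 40, nat_lit 80, nat_lit 12, nat_lit 483, nat_lit 250, nat_lit 12]⟩,
 ⟨nat_lit 3162, nat_lit 4473, ⟨.ofNat (nat_lit 415764), .ofNat (nat_lit 926092), .ofNat (nat_lit 437240), .ofNat (nat_lit 947591), .ofNat (nat_lit 435680), .ofNat (nat_lit 893321), .ofNat (nat_lit 457744), .ofNat (nat_lit 915409)⟩, ⟨.negSucc (nat_lit 12437), .ofNat (nat_lit 429433), .ofNat (nat_lit 0), .ofNat (nat_lit 472567), .ofNat (nat_lit 0), .ofNat (nat_lit 414188), .ofNat (nat_lit 0), .ofNat (nat_lit 458499)⟩⟩, [⟨nat_lit 4, nat_lit 100, nat_lit 71, nat_lit 71, nat_lit 59969814⟩]⟩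
noncomputable def p092_l85 : Lf2 := ⟨nat_lit 0, nat_lit 20, [nat_lit 5, nat_lit 5, nat_lit 5, nat_lit 20], false, nat_lit 0, nat_lit 260, nat_lit 0, nat_lit 280, ⟨nat_lit 1000, nat_lit 0, nat_lit 0, nat_lit 0, nat_lit 0, nat_lit 0, nat_lit 0, nat_lit 0, nat_lit 0, nat_lit 0, nat_lit 0, nat_lit 0, nat_lit 0, nat_lit 0, nat_lit 0, nat_lit 0, false, false⟩,
 nat_lit 0, nat_lit 0, nat_lit 0, nat_lit 8352, nat_lit 7050, nat_lit 9389, nat_lit 0, nat_lit 0, nat_lit 0, nat_lit 0, nat_lit 0, nat_lit 0, nat_lit 0, nat_lit 0, nat_lit 0, nat_lit 0, nat_lit 0, nat_lit 0, [],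
 ⟨p092_k2, nat_lit 0, nat_lit 0, nat_lit 215, nat_lit 0, nat_lit 0, [nat_lit 2032000001, nat_lit 4688000000, nat_lit 9842000000], [], [nat_lit 32197241600, nat_lit 36328916000, nat_lit 44469700000, nat_lit 46473669000, nat_lit 30247489600, nat_lit 33066050000, nat_lit 38238442900, nat_lit 39638088550], nat_lit 0, nat_lit 0, nat_lit 0, nat_lit 0, nat_lit 0, nat_lit 0, [], [nat_lit 27, nat_lit 40, nat_lit 40, nat_lit 80, nat_lit 13, nat_lit 401, nat_lit 175, nat_lit 11]⟩, ⟨p092_k10, nat_lit 0, nat_lit 0, nat_lit 219, nat_lit 0, nat_lit 0, [nat_lit 3282000000, nat_lit 6250000000, nat_lit 9842000000], [], [nat_lit 31055701354, nat_lit 33324340208, nat_lit 46161878256, nat_lit 47542059084, nat_lit 28600194616, nat_lit 29994393568, nat_lit 37141233915, nat_lit 37702097248], nat_lit 0, nat_lit 0, nat_lit 0, nat_lit 0, nat_lit 0, nat_lit 0, [], [nat_lit 8, nat_lit 40, nat_lit 40, nat_lit 80, nat_lit 1, nat_lit 401, nat_lit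 175, nat_lit 11]⟩,
 zbF0, [⟨nat_lit 0, nat_lit 80, nat_lit 60, nat_lit 100, nat_lit 262981625⟩, ⟨nat_lit 16, nat_lit 71, nat_lit 100, nat_lit 71, nat_lit 179624252⟩]⟩
noncomputable def p092_l86 : Lf2 := ⟨nat_lit 0, nat_lit 20, [nat_lit 5, nat_lit 5, nat_lit 5, nat_lit 20], true, nat_lit 0, nat_lit 260, nat_lit 0, nat_lit 300, ⟨nat_lit 0, nat_lit 1000, nat_lit 0, nat_lit 7, nat_lit 224, nat_lit 1000, nat_lit 89, nat_lit 0, nat_lit 0, nat_lit 0, nat_lit 0, nat_lit 0, nat_lit 0, nat_lit 0, nat_lit 0, nat_lit 5000000, false, false⟩,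
 nat_lit 0, nat_lit 0, nat_lit 0, nat_lit 5224, nat_lit 6814, nat_lit 0, nat_lit 0, nat_lit 0, nat_lit 0, nat_lit 0, nat_lit 0, nat_lit 0, nat_lit 0, nat_lit 0, nat_lit 0, nat_lit 250000, nat_lit 0, nat_lit 0, [(nat_lit 19, [(nat_lit 0, nat_lit 1000)]), (nat_lit 22, [(nat_lit 0, nat_lit 1000)])],
 ⟨p092_k2, nat_lit 0, nat_lit 0, nat_lit 205, nat_lit 0, nat_lit 0, [nat_lit 1568000001, nat_lit 2368400000, nat_lit 3220880000], [], [nat_lit 25804208620, nat_lit 29950491608, nat_lit 27926920992, nat_lit 31154193160, nat_lit 24095187345, nat_lit 26931477751, nat_lit 25070730730, nat_lit 27294510724], nat_lit 0, nat_lit 0, nat_lit 0, nat_lit 0, nat_lit 0, nat_lit 0, [], [nat_lit 27, nat_lit 40, nat_lit 40, nat_lit 80, nat_lit 13, nat_lit 345, nat_lit 125, nat_lit 10]⟩, C1.Rw.none,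
 ⟨nat_lit 3162, nat_lit 4473, ⟨.ofNat (nat_lit 415764), .ofNat (nat_lit 653959), .ofNat (nat_lit 458716), .ofNat (nat_lit 696911), .ofNat (nat_lit 435680), .ofNat (nat_lit 649288), .ofNat (nat_lit 479808), .ofNat (nat_lit 693416)⟩, ⟨.negSucc (nat_lit 12437), .ofNat (nat_lit 429433), .ofNat (nat_lit 0), .ofNat (nat_lit 472567), .ofNat (nat_lit 0), .ofNat (nat_lit 414188), .ofNat (nat_lit 0), .ofNat (nat_lit 458499)⟩⟩, []⟩
noncomputable def p092_l87 : Lf2 := ⟨nat_lit 0, nat_lit 20, [nat_lit 5, nat_lit 5, nat_lit 5, nat_lit 20], false, nat_lit 0, nat_lit 260, nat_lit 0, nat_lit 300, ⟨nat_lit 1000, nat_lit 0, nat_lit 0, nat_lit 0, nat_lit 0, nat_lit 0, nat_lit 0, nat_lit 0, nat_lit 0, nat_lit 0, nat_lit 0, nat_lit 0, nat_lit 0, nat_lit 0, nat_lit 0, nat_lit 0, false, false⟩,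
 nat_lit 0, nat_lit 0, nat_lit 10664, nat_lit 0, nat_lit 8785, nat_lit 6786, nat_lit 0, nat_lit 0, nat_lit 0, nat_lit 771, nat_lit 0, nat_lit 0, nat_lit 0, nat_lit 0, nat_lit 0, nat_lit 0, nat_lit 0, nat_lit 0, [],
 ⟨p092_k2, nat_lit 0, nat_lit 0, nat_lit 212, nat_lit 0, nat_lit 0, [nat_lit 2032000001, nat_lit 4688000000, nat_lit 9842000000], [], [nat_lit 35331174480, nat_lit 37224310190, nat_lit 46424004000, nat_lit 47538989050, nat_lit 30160768075, nat_lit 31436616693, nat_lit 37560158530, nat_lit 38316276033], nat_lit 0, nat_lit 0, nat_lit 0, nat_lit 0, nat_lit 0, nat_lit 0, [], [nat_lit 27, nat_lit 40, nat_lit 40, nat_lit 80, nat_lit 13, nat_lit 401, nat_lit 175, nat_lit 11]⟩, ⟨p092_k3, nat_lit 0, nat_lit 0, nat_lit 327, nat_lit 0, nat_lit 122311, [nat_lit 3282000000, nat_lit 6250000000, nat_lit 11872000000], [], [nat_lit 33046786354, nat_lit 34488764322, nat_lit 38807958525, nat_lit 40259500216, nat_lit 29615273946,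 nat_lit 30458098891, nat_lit 34139753686, nat_lit 35145850348], nat_lit 1271250, nat_lit 1271250, nat_lit 1271250, nat_lit 1271250, nat_lit 0, nat_lit 2118750, [nat_lit 780000, nat_lit 1435000, nat_lit 1271250], [nat_lit 23, nat_lit 40, nat_lit 40, nat_lit 80, nat_lit 12, nat_lit 538, nat_lit 300, nat_lit 13]⟩,
 zbF0, [⟨nat_lit 4, nat_lit 100, nat_lit 76, nat_lit 72, nat_lit 41698940⟩, ⟨nat_lit 7, nat_lit 100, nat_lit 90, nat_lit 74, nat_lit 143239038⟩]⟩
noncomputable def p092_l88 : Lf2 := ⟨nat_lit 0, nat_lit 20, [nat_lit 5, nat_lit 5, nat_lit 5, nat_lit 20], false, nat_lit 0, nat_lit 232, nat_lit 0, nat_lit 300, ⟨nat_lit 697, nat_lit 303, nat_lit 0, nat_lit 7, nat_lit 319, nat_lit 303, nat_lit 79, nat_lit 0, nat_lit 0, nat_lit 0, nat_lit 0, nat_lit 0, nat_lit 0, nat_lit 0, nat_lit 0, nat_lit 5000000, true, true⟩,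
 nat_lit 0, nat_lit 0, nat_lit 7624, nat_lit 0, nat_lit 6012, nat_lit 4851, nat_lit 0, nat_lit 0, nat_lit 0, nat_lit 465, nat_lit 0, nat_lit 0, nat_lit 0, nat_lit 0, nat_lit 0, nat_lit 75750, nat_lit 0, nat_lit 0, [(nat_lit 22, [(nat_lit 0, nat_lit 303)])],
 ⟨p092_k7, nat_lit 0, nat_lit 0, nat_lit 196, nat_lit 0, nat_lit 0, [nat_lit 1891408001, nat_lit 3864688401, nat_lit 6375553200], [], [nat_lit 30383794312, nat_lit 32038335792, nat_lit 39784940864, nat_lit 40811578896, nat_lit 27918475762, nat_lit 28947531249, nat_lit 34729297917, nat_lit 35507501909], nat_lit 0, nat_lit 0, nat_lit 0, nat_lit 0, nat_lit 0, nat_lit 0, [], [nat_lit 34, nat_lit 40, nat_lit 40, nat_lit 80, nat_lit 7, nat_lit 272, nat_lit 60, nat_lit 8]⟩, ⟨p092_k3, nat_lit 0, nat_lit 0, nat_lit 399, nat_lit 0, nat_lit 366056, [nat_lit 2287554000, nat_lit 4356250000, nat_lit 8274784000], [], [nat_lit 25077581986, nat_lit 25860252450, nat_lit 28267310266,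 nat_lit 28898117683, nat_lit 22462619808, nat_lit 22897316612, nat_lit 24450500493, nat_lit 24783355519], nat_lit 1271250, nat_lit 1271250, nat_lit 1271250, nat_lit 1271250, nat_lit 0, nat_lit 2118750, [nat_lit 780000, nat_lit 1435000, nat_lit 1271250], [nat_lit 23, nat_lit 40, nat_lit 40, nat_lit 80, nat_lit 12, nat_lit 538, nat_lit 300, nat_lit 13]⟩,
 ⟨nat_lit 3162, nat_lit 3873, ⟨.ofNat (nat_lit 651611), .ofNat (nat_lit 909779), .ofNat (nat_lit 695141), .ofNat (nat_lit 953347), .ofNat (nat_lit 649490), .ofNat (nat_lit 893385), .ofNat (nat_lit 693742), .ofNat (nat_lit 937676)⟩, ⟨.ofNat (nat_lit 0), .ofNat (nat_lit 377270), .ofNat (nat_lit 0), .ofNat (nat_lit 420856), .ofNat (nat_lit 0), .ofNat (nat_lit 371522), .ofNat (nat_lit 0), .ofNat (nat_lit 415832)⟩⟩, [⟨nat_lit 4, nat_lit 100, nat_lit 66, nat_lit 72, nat_lit 44973746⟩, ⟨nat_lit 7, nat_lit 100, nat_lit 90, nat_lit 74, nat_lit 85910258⟩]⟩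
noncomputable def p092_l89 : Lf2 := ⟨nat_lit 0, nat_lit 15, [nat_lit 30, nat_lit 5, nat_lit 5, nat_lit 20], false, nat_lit 0, nat_lit 232, nat_lit 0, nat_lit 276, ⟨nat_lit 1000, nat_lit 0, nat_lit 0, nat_lit 0, nat_lit 0, nat_lit 0, nat_lit 0, nat_lit 0, nat_lit 0, nat_lit 0, nat_lit 0, nat_lit 0, nat_lit 0, nat_lit 0, nat_lit 0, nat_lit 0, false, false⟩,
 nat_lit 0, nat_lit 12908, nat_lit 0, nat_lit 0, nat_lit 9680, nat_lit 15092, nat_lit 0, nat_lit 0, nat_lit 0, nat_lit 0, nat_lit 0, nat_lit 0, nat_lit 0, nat_lit 0, nat_lit 0, nat_lit 0, nat_lit 0, nat_lit 0, [],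
 ⟨p092_k0, nat_lit 0, nat_lit 0, nat_lit 284, nat_lit 0, nat_lit 238272, [nat_lit 2032000001, nat_lit 4688000000, nat_lit 7968000000], [], [nat_lit 38384599362, nat_lit 36044592000, nat_lit 33006035840, nat_lit 36246193440, nat_lit 26498175857, nat_lit 29432458816, nat_lit 29560085697, nat_lit 28727981648], nat_lit 1271250, nat_lit 1271250, nat_lit 631250, nat_lit 1751250, nat_lit 0, nat_lit 1638500, [nat_lit 490000, nat_lit 1100000, nat_lit 1785000], [nat_lit 34, nat_lit 40, nat_lit 40, nat_lit 80, nat_lit 7, nat_lit 345, nat_lit 125, nat_lit 11]⟩, ⟨p092_k1, nat_lit 0, nat_lit 0, nat_lit 191, nat_lit 0, nat_lit 0, [nat_lit 3282000000, nat_lit 6250000000, nat_lit 9842000000], [], [nat_lit 30717237320, nat_lit 37345192360, nat_lit 32957487120, nat_lit 37837122176, nat_lit 24017905661, nat_lit 27980697855, nat_lit 23228183856, nat_lit 28040271705], nat_lit 0, nat_lit 0, nat_lit 0, nat_lit 0, nat_lit 0, nat_lit 0,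 [], [nat_lit 8, nat_lit 40, nat_lit 40, nat_lit 80, nat_lit 1, nat_lit 373, nat_lit 150, nat_lit 11]⟩,
 zbF0, [⟨nat_lit 0, nat_lit 90, nat_lit 74, nat_lit 100, nat_lit 734766473⟩]⟩
noncomputable def p092_l90 : Lf2 := ⟨nat_lit 0, nat_lit 20, [nat_lit 5, nat_lit 5, nat_lit 5, nat_lit 20], false, nat_lit 0, nat_lit 260, nat_lit 0, nat_lit 300, ⟨nat_lit 1000, nat_lit 0, nat_lit 0, nat_lit 0, nat_lit 0, nat_lit 0, nat_lit 0, nat_lit 0, nat_lit 0, nat_lit 0, nat_lit 0, nat_lit 0, nat_lit 0, nat_lit 0, nat_lit 0, nat_lit 0, false, false⟩,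
 nat_lit 0, nat_lit 14682, nat_lit 0, nat_lit 8156, nat_lit 11011, nat_lit 13744, nat_lit 143, nat_lit 0, nat_lit 0, nat_lit 0, nat_lit 0, nat_lit 0, nat_lit 0, nat_lit 0, nat_lit 0, nat_lit 0, nat_lit 0, nat_lit 0, [],
 ⟨p092_k15, nat_lit 0, nat_lit 0, nat_lit 290, nat_lit 0, nat_lit 82267, [nat_lit 2032000001, nat_lit 6250000000, nat_lit 9842000000], [], [nat_lit 36630960580, nat_lit 40264613310, nat_lit 36024706182, nat_lit 39184002715, nat_lit 28992626207, nat_lit 31379422572, nat_lit 28626747520, nat_lit 29904423601], nat_lit 1271250, nat_lit 1271250, nat_lit 631250, nat_lit 1751250, nat_lit 0, nat_lit 1836250, [nat_lit 490000, nat_lit 1427500, nat_lit 1271250], [nat_lit 61, nat_lit 40, nat_lit 40, nat_lit 80, nat_lit 1, nat_lit 345, nat_lit 125, nat_lit 10]⟩, ⟨p092_k12, nat_lit 0, nat_lit 0, nat_lit 246, nat_lit 0, nat_lit 0, [nat_lit 3282000000, nat_lit 7968000000, nat_lit 11872000000], [], [nat_lit 38574035520,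 nat_lit 43868143280, nat_lit 39331524032, nat_lit 43246630272, nat_lit 32274239640, nat_lit 35198733644, nat_lit 30315665904, nat_lit 32410181048], nat_lit 0, nat_lit 0, nat_lit 0, nat_lit 0, nat_lit 0, nat_lit 0, [], [nat_lit 79, nat_lit 40, nat_lit 40, nat_lit 80, nat_lit 14, nat_lit 456, nat_lit 225, nat_lit 12]⟩,
 zbF0, [⟨nat_lit 0, nat_lit 80, nat_lit 60, nat_lit 100, nat_lit 1270531059⟩]⟩
noncomputable def p092_l91 : Lf2 := ⟨nat_lit 0, nat_lit 20, [nat_lit 5, nat_lit 5, nat_lit 5, nat_lit 20], false, nat_lit 0, nat_lit 260, nat_lit 0, nat_lit 300, ⟨nat_lit 1000, nat_lit 0, nat_lit 0, nat_lit 0, nat_lit 0, nat_lit 0, nat_lit 0, nat_lit 0, nat_lit 0, nat_lit 0, nat_lit 0, nat_lit 0, nat_lit 0, nat_lit 0, nat_lit 0, nat_lit 0, false, false⟩,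
 nat_lit 0, nat_lit 7021, nat_lit 0, nat_lit 0, nat_lit 5265, nat_lit 11182, nat_lit 635, nat_lit 0, nat_lit 0, nat_lit 0, nat_lit 0, nat_lit 0, nat_lit 0, nat_lit 0, nat_lit 0, nat_lit 0, nat_lit 0, nat_lit 0, [],
 ⟨p092_k2, nat_lit 0, nat_lit 0, nat_lit 330, nat_lit 0, nat_lit 275154, [nat_lit 2032000001, nat_lit 4688000000, nat_lit 9842000000], [], [nat_lit 32146668310, nat_lit 33752635370, nat_lit 37211974755, nat_lit 38545758835, nat_lit 30445639530, nat_lit 31587180550, nat_lit 34792555630, nat_lit 35985822745], nat_lit 1271250, nat_lit 1271250, nat_lit 1271250, nat_lit 1271250, nat_lit 0, nat_lit 1836250, [nat_lit 490000, nat_lit 1100000, nat_lit 2127500], [nat_lit 27, nat_lit 40, nat_lit 40, nat_lit 80, nat_lit 13, nat_lit 401, nat_lit 175, nat_lit 11]⟩, ⟨p092_k3, nat_lit 0, nat_lit 0, nat_lit 242, nat_lit 0, nat_lit 0, [nat_lit 3282000000, nat_lit 6250000000, nat_lit 11872000000], [], [nat_lit 38313569696,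 nat_lit 41724064416, nat_lit 51153984800, nat_lit 52883063984, nat_lit 32122795662, nat_lit 34011771794, nat_lit 39388313892, nat_lit 40290128676], nat_lit 0, nat_lit 0, nat_lit 0, nat_lit 0, nat_lit 0, nat_lit 0, [], [nat_lit 23, nat_lit 40, nat_lit 40, nat_lit 80, nat_lit 12, nat_lit 538, nat_lit 300, nat_lit 13]⟩,
 zbF0, [⟨nat_lit 16, nat_lit 71, nat_lit 100, nat_lit 71, nat_lit 256265482⟩]⟩
noncomputable def p092_l92 : Lf2 := ⟨nat_lit 0, nat_lit 15, [nat_lit 30, nat_lit 5, nat_lit 5, nat_lit 20], false, nat_lit 0, nat_lit 232, nat_lit 0, nat_lit 276, ⟨nat_lit 1000, nat_lit 0, nat_lit 0, nat_lit 0, nat_lit 0, nat_lit 0, nat_lit 0, nat_lit 0, nat_lit 0, nat_lit 0, nat_lit 0, nat_lit 0, nat_lit 0, nat_lit 0, nat_lit 0, nat_lit 0, false, false⟩,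
 nat_lit 12439, nat_lit 1341, nat_lit 0, nat_lit 255, nat_lit 10335, nat_lit 7915, nat_lit 0, nat_lit 0, nat_lit 0, nat_lit 0, nat_lit 0, nat_lit 0, nat_lit 0, nat_lit 0, nat_lit 0, nat_lit 0, nat_lit 0, nat_lit 0, [],
 ⟨p092_k0, nat_lit 0, nat_lit 0, nat_lit 255, nat_lit 0, nat_lit 141512, [nat_lit 2032000001, nat_lit 4688000000, nat_lit 7968000000], [], [nat_lit 31484384720, nat_lit 36057621020, nat_lit 32426745980, nat_lit 37536745180, nat_lit 25388209058, nat_lit 28446393127, nat_lit 28521293163, nat_lit 27956162134], nat_lit 1271250, nat_lit 1271250, nat_lit 631250, nat_lit 1751250, nat_lit 0, nat_lit 1638500, [nat_lit 490000, nat_lit 1100000, nat_lit 1785000], [nat_lit 34, nat_lit 40, nat_lit 40, nat_lit 80, nat_lit 7, nat_lit 345, nat_lit 125, nat_lit 11]⟩, ⟨p092_k1, nat_lit 0, nat_lit 0, nat_lit 304, nat_lit 0, nat_lit 174958, [nat_lit 3282000000, nat_lit 6250000000, nat_lit 9842000000], [], [nat_lit 45843069870,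 nat_lit 40877606950, nat_lit 39299941740, nat_lit 41281323480, nat_lit 35627351359, nat_lit 37266620421, nat_lit 36658753552, nat_lit 36614826325], nat_lit 1271250, nat_lit 1271250, nat_lit 631250, nat_lit 1751250, nat_lit 0, nat_lit 1949250, [nat_lit 780000, nat_lit 1435000, nat_lit 1271250], [nat_lit 8, nat_lit 40, nat_lit 40, nat_lit 80, nat_lit 1, nat_lit 373, nat_lit 150, nat_lit 11]⟩,
 zbF0, [⟨nat_lit 0, nat_lit 90, nat_lit 74, nat_lit 100, nat_lit 639302646⟩]⟩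
noncomputable def p092_l93 : Lf2 := ⟨nat_lit 0, nat_lit 20, [nat_lit 5, nat_lit 5, nat_lit 5, nat_lit 20], false, nat_lit 0, nat_lit 260, nat_lit 0, nat_lit 300, ⟨nat_lit 1000, nat_lit 0, nat_lit 0, nat_lit 0, nat_lit 0, nat_lit 0, nat_lit 0, nat_lit 0, nat_lit 0, nat_lit 0, nat_lit 0, nat_lit 0, nat_lit 0, nat_lit 0, nat_lit 0, nat_lit 0, false, false⟩,
 nat_lit 20037, nat_lit 0, nat_lit 0, nat_lit 12840, nat_lit 10705, nat_lit 12750, nat_lit 0, nat_lit 0, nat_lit 0, nat_lit 180, nat_lit 0, nat_lit 0, nat_lit 0, nat_lit 0, nat_lit 0, nat_lit 0, nat_lit 0, nat_lit 0, [],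
 ⟨p092_k15, nat_lit 0, nat_lit 0, nat_lit 233, nat_lit 0, nat_lit 49686, [nat_lit 2032000001, nat_lit 6250000000, nat_lit 9842000000], [], [nat_lit 34737866650, nat_lit 40418145260, nat_lit 36094044240, nat_lit 40424850700, nat_lit 28868734088, nat_lit 32634891783, nat_lit 29093633446, nat_lit 31540432030], nat_lit 1271250, nat_lit 1271250, nat_lit 631250, nat_lit 1751250, nat_lit 0, nat_lit 1836250, [nat_lit 490000, nat_lit 1427500, nat_lit 1271250], [nat_lit 61, nat_lit 40, nat_lit 40, nat_lit 80, nat_lit 1, nat_lit 345, nat_lit 125, nat_lit 10]⟩, ⟨p092_k12, nat_lit 0, nat_lit 0, nat_lit 328, nat_lit 0, nat_lit 61572, [nat_lit 3282000000, nat_lit 7968000000, nat_lit 11872000000], [], [nat_lit 43937562500, nat_lit 44774779500, nat_lit 40193446000, nat_lit 42046272000, nat_lit 32618830625, nat_lit 33938056875, nat_lit 29192605250, nat_lit 31207375750], nat_lit 1271250, nat_lit 1271250, nat_lit 631250, nat_lit 1751250,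 nat_lit 0, nat_lit 2118750, [nat_lit 780000, nat_lit 1762500, nat_lit 1271250], [nat_lit 79, nat_lit 40, nat_lit 40, nat_lit 80, nat_lit 14, nat_lit 456, nat_lit 225, nat_lit 12]⟩,
 zbF0, [⟨nat_lit 0, nat_lit 80, nat_lit 60, nat_lit 100, nat_lit 1267107469⟩]⟩
noncomputable def p092_l94 : Lf2 := ⟨nat_lit 0, nat_lit 20, [nat_lit 5, nat_lit 5, nat_lit 5, nat_lit 20], false, nat_lit 0, nat_lit 260, nat_lit 0, nat_lit 300, ⟨nat_lit 1000, nat_lit 0, nat_lit 0, nat_lit 0, nat_lit 0, nat_lit 0, nat_lit 0, nat_lit 0, nat_lit 0, nat_lit 0, nat_lit 0, nat_lit 0, nat_lit 0, nat_lit 0, nat_lit 0, nat_lit 0, false, false⟩,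
 nat_lit 12281, nat_lit 0, nat_lit 0, nat_lit 0, nat_lit 9210, nat_lit 7815, nat_lit 157, nat_lit 0, nat_lit 0, nat_lit 598, nat_lit 0, nat_lit 0, nat_lit 0, nat_lit 0, nat_lit 0, nat_lit 0, nat_lit 0, nat_lit 0, [],
 ⟨p092_k2, nat_lit 0, nat_lit 0, nat_lit 242, nat_lit 0, nat_lit 56910, [nat_lit 2032000001, nat_lit 4688000000, nat_lit 9842000000], [], [nat_lit 37155918770, nat_lit 38399553890, nat_lit 47041260760, nat_lit 48777515040, nat_lit 30556954720, nat_lit 31380714100, nat_lit 36618261300, nat_lit 37824971315], nat_lit 1271250, nat_lit 1271250, nat_lit 1271250, nat_lit 1271250, nat_lit 0, nat_lit 1836250, [nat_lit 490000, nat_lit 1100000, nat_lit 2127500], [nat_lit 27, nat_lit 40, nat_lit 40, nat_lit 80, nat_lit 13, nat_lit 401, nat_lit 175, nat_lit 11]⟩, ⟨p092_k3, nat_lit 0, nat_lit 0, nat_lit 262, nat_lit 0, nat_lit 70523, [nat_lit 3282000000, nat_lit 6250000000, nat_lit 11872000000], [], [nat_lit 35676087160,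 nat_lit 37188950880, nat_lit 41626202250, nat_lit 43141436530, nat_lit 30929586840, nat_lit 31772792655, nat_lit 35008654140, nat_lit 36350004670], nat_lit 1271250, nat_lit 1271250, nat_lit 1271250, nat_lit 1271250, nat_lit 0, nat_lit 2118750, [nat_lit 780000, nat_lit 1435000, nat_lit 1271250], [nat_lit 23, nat_lit 40, nat_lit 40, nat_lit 80, nat_lit 12, nat_lit 538, nat_lit 300, nat_lit 13]⟩,
 zbF0, [⟨nat_lit 19, nat_lit 90, nat_lit 100, nat_lit 74, nat_lit 101315682⟩]⟩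
noncomputable def p092_l95 : Lf2 := ⟨nat_lit 0, nat_lit 20, [nat_lit 5, nat_lit 5, nat_lit 5, nat_lit 20], false, nat_lit 0, nat_lit 232, nat_lit 0, nat_lit 300, ⟨nat_lit 1000, nat_lit 0, nat_lit 0, nat_lit 0, nat_lit 0, nat_lit 0, nat_lit 0, nat_lit 0, nat_lit 0, nat_lit 0, nat_lit 0, nat_lit 0, nat_lit 0, nat_lit 0, nat_lit 0, nat_lit 0, false, false⟩,
 nat_lit 10637, nat_lit 0, nat_lit 0, nat_lit 0, nat_lit 8166, nat_lit 6769, nat_lit 0, nat_lit 0, nat_lit 0, nat_lit 771, nat_lit 0, nat_lit 0, nat_lit 0, nat_lit 0, nat_lit 0, nat_lit 0, nat_lit 0, nat_lit 0, [],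
 ⟨p092_k7, nat_lit 0, nat_lit 0, nat_lit 263, nat_lit 0, nat_lit 150751, [nat_lit 2032000001, nat_lit 4688000000, nat_lit 7968000000], [], [nat_lit 35768552344, nat_lit 37192069080, nat_lit 45733185984, nat_lit 47345968472, nat_lit 30521915130, nat_lit 31547861758, nat_lit 36125990074, nat_lit 37143953292], nat_lit 1271250, nat_lit 1271250, nat_lit 1271250, nat_lit 1271250, nat_lit 0, nat_lit 1638500, [nat_lit 490000, nat_lit 1100000, nat_lit 1785000], [nat_lit 34, nat_lit 40, nat_lit 40, nat_lit 80, nat_lit 7, nat_lit 272, nat_lit 60, nat_lit 8]⟩, ⟨p092_k3, nat_lit 0, nat_lit 0, nat_lit 352, nat_lit 0, nat_lit 205935, [nat_lit 3282000000, nat_lit 6250000000, nat_lit 11872000000], [], [nat_lit 33058170166, nat_lit 34498977038, nat_lit 38788809725, nat_lit 40237610453, nat_lit 29648382534, nat_lit 30489567064, nat_lit 34167053119, nat_lit 35126813647], nat_lit 1271250, nat_lit 1271250, nat_lit 1271250, nat_lit 1271250,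 nat_lit 0, nat_lit 2118750, [nat_lit 780000, nat_lit 1435000, nat_lit 1271250], [nat_lit 23, nat_lit 40, nat_lit 40, nat_lit 80, nat_lit 12, nat_lit 538, nat_lit 300, nat_lit 13]⟩,
 zbF0, [⟨nat_lit 7, nat_lit 100, nat_lit 90, nat_lit 74, nat_lit 143286762⟩]⟩
noncomputable def p092_l96 : Lf2 := ⟨nat_lit 0, nat_lit 20, [nat_lit 5, nat_lit 5, nat_lit 5, nat_lit 20], true, nat_lit 0, nat_lit 260, nat_lit 0, nat_lit 300, ⟨nat_lit 0, nat_lit 1000, nat_lit 0, nat_lit 7, nat_lit 223, nat_lit 1000, nat_lit 90, nat_lit 0, nat_lit 0, nat_lit 0, nat_lit 0, nat_lit 0, nat_lit 0, nat_lit 0, nat_lit 0, nat_lit 5000000, false, false⟩,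
 nat_lit 0, nat_lit 9531, nat_lit 0, nat_lit 0, nat_lit 7148, nat_lit 0, nat_lit 0, nat_lit 0, nat_lit 0, nat_lit 0, nat_lit 0, nat_lit 0, nat_lit 0, nat_lit 0, nat_lit 0, nat_lit 250000, nat_lit 0, nat_lit 0, [(nat_lit 19, [(nat_lit 0, nat_lit 1000)])],
 ⟨p092_k15, nat_lit 0, nat_lit 0, nat_lit 285, nat_lit 0, nat_lit 94227, [nat_lit 1542400001, nat_lit 2605200001, nat_lit 3236666667], [], [nat_lit 28000945774, nat_lit 29388148594, nat_lit 28654871510, nat_lit 29739996566, nat_lit 24756553710, nat_lit 25708099120, nat_lit 26741600895, nat_lit 25966738481], nat_lit 1271250, nat_lit 1271250, nat_lit 631250, nat_lit 1751250, nat_lit 0, nat_lit 1836250, [nat_lit 490000, nat_lit 1427500, nat_lit 1271250], [nat_lit 61, nat_lit 40, nat_lit 40, nat_lit 80, nat_lit 1, nat_lit 345, nat_lit 125, nat_lit 10]⟩, C1.Rw.none,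
 ⟨nat_lit 3872, nat_lit 4473, ⟨.ofNat (nat_lit 416230), .ofNat (nat_lit 654181), .ofNat (nat_lit 459327), .ofNat (nat_lit 697279), .ofNat (nat_lit 425778), .ofNat (nat_lit 651631), .ofNat (nat_lit 469330), .ofNat (nat_lit 695183)⟩, ⟨.negSucc (nat_lit 12427), .ofNat (nat_lit 429434), .ofNat (nat_lit 0), .ofNat (nat_lit 472567), .ofNat (nat_lit 0), .ofNat (nat_lit 422435), .ofNat (nat_lit 0), .ofNat (nat_lit 466021)⟩⟩, []⟩
noncomputable def p092_l97 : Lf2 := ⟨nat_lit 0, nat_lit 20, [nat_lit 5, nat_lit 5, nat_lit 5, nat_lit 20], true, nat_lit 0, nat_lit 232, nat_lit 0, nat_lit 300, ⟨nat_lit 0, nat_lit 1000, nat_lit 0, nat_lit 7, nat_lit 233, nat_lit 1000, nat_lit 79, nat_lit 0, nat_lit 0, nat_lit 0, nat_lit 0, nat_lit 0, nat_lit 0, nat_lit 0, nat_lit 0, nat_lit 5000000, false, false⟩,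
 nat_lit 0, nat_lit 5287, nat_lit 0, nat_lit 0, nat_lit 4279, nat_lit 0, nat_lit 60, nat_lit 0, nat_lit 0, nat_lit 0, nat_lit 0, nat_lit 0, nat_lit 0, nat_lit 0, nat_lit 0, nat_lit 400000, nat_lit 0, nat_lit 0, [(nat_lit 22, [(nat_lit 1, nat_lit 1000)])],
 ⟨p092_k7, nat_lit 0, nat_lit 0, nat_lit 278, nat_lit 0, nat_lit 247279, [nat_lit 1358400001, nat_lit 1554800000, nat_lit 1406000000], [], [nat_lit 23447333572, nat_lit 23847664016, nat_lit 24628418036, nat_lit 25648091020, nat_lit 22400082176, nat_lit 23329683679, nat_lit 25498223834, nat_lit 24613540745], nat_lit 1271250, nat_lit 1271250, nat_lit 810650, nat_lit 1764750, nat_lit 0, nat_lit 1638500, [nat_lit 490000, nat_lit 1100000, nat_lit 1785000], [nat_lit 34, nat_lit 40, nat_lit 40, nat_lit 80, nat_lit 7, nat_lit 345, nat_lit 125, nat_lit 11]⟩, C1.Rw.none,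
 ⟨nat_lit 3162, nat_lit 3873, ⟨.ofNat (nat_lit 464406), .ofNat (nat_lit 651611), .ofNat (nat_lit 507934), .ofNat (nat_lit 695141), .ofNat (nat_lit 472632), .ofNat (nat_lit 649490), .ofNat (nat_lit 516884), .ofNat (nat_lit 693742)⟩, ⟨.ofNat (nat_lit 0), .ofNat (nat_lit 377270), .ofNat (nat_lit 0), .ofNat (nat_lit 420856), .ofNat (nat_lit 0), .ofNat (nat_lit 371522), .ofNat (nat_lit 0), .ofNat (nat_lit 415832)⟩⟩, [⟨nat_lit 4, nat_lit 100, nat_lit 66, nat_lit 72, nat_lit 101448217⟩]⟩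
noncomputable def p092_l98 : Lf2 := ⟨nat_lit 0, nat_lit 20, [nat_lit 5, nat_lit 5, nat_lit 5, nat_lit 20], false, nat_lit 0, nat_lit 260, nat_lit 0, nat_lit 300, ⟨nat_lit 1000, nat_lit 0, nat_lit 0, nat_lit 0, nat_lit 0, nat_lit 0, nat_lit 0, nat_lit 0, nat_lit 0, nat_lit 0, nat_lit 0, nat_lit 0, nat_lit 0, nat_lit 0, nat_lit 0, nat_lit 0, false, false⟩,
 nat_lit 0, nat_lit 7021, nat_lit 0, nat_lit 0, nat_lit 5265, nat_lit 11182, nat_lit 635, nat_lit 0, nat_lit 0, nat_lit 0, nat_lit 0, nat_lit 0, nat_lit 0, nat_lit 0, nat_lit 0, nat_lit 0, nat_lit 0, nat_lit 0, [],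
 ⟨p092_k2, nat_lit 0, nat_lit 0, nat_lit 330, nat_lit 0, nat_lit 275154, [nat_lit 2032000001, nat_lit 4688000000, nat_lit 9842000000], [], [nat_lit 32146668310, nat_lit 33752635370, nat_lit 37211974755, nat_lit 38545758835, nat_lit 30445639530, nat_lit 31587180550, nat_lit 34792555630, nat_lit 35985822745], nat_lit 1271250, nat_lit 1271250, nat_lit 1271250, nat_lit 1271250, nat_lit 0, nat_lit 1836250, [nat_lit 490000, nat_lit 1100000, nat_lit 2127500], [nat_lit 27, nat_lit 40, nat_lit 40, nat_lit 80, nat_lit 13, nat_lit 401, nat_lit 175, nat_lit 11]⟩, ⟨p092_k3, nat_lit 0, nat_lit 0, nat_lit 242, nat_lit 0, nat_lit 0, [nat_lit 3282000000, nat_lit 6250000000, nat_lit 11872000000], [], [nat_lit 38313569696, nat_lit 41724064416, nat_lit 51153984800, nat_lit 52883063984, nat_lit 32122795662, nat_lit 34011771794, nat_lit 39388313892, nat_lit 40290128676], nat_lit 0, nat_lit 0, nat_lit 0, nat_lit 0, nat_lit 0, nat_lit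 0, [], [nat_lit 23, nat_lit 40, nat_lit 40, nat_lit 80, nat_lit 12, nat_lit 538, nat_lit 300, nat_lit 13]⟩,
 zbF0, [⟨nat_lit 4, nat_lit 100, nat_lit 71, nat_lit 71, nat_lit 256265482⟩]⟩
noncomputable def p092_l99 : Lf2 := ⟨nat_lit 0, nat_lit 20, [nat_lit 5, nat_lit 5, nat_lit 5, nat_lit 20], false, nat_lit 0, nat_lit 260, nat_lit 0, nat_lit 300, ⟨nat_lit 87, nat_lit 913, nat_lit 0, nat_lit 7, nat_lit 224, nat_lit 913, nat_lit 89, nat_lit 0, nat_lit 0, nat_lit 0, nat_lit 0, nat_lit 0, nat_lit 0, nat_lit 0, nat_lit 0, nat_lit 5000000, false, false⟩,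
 nat_lit 1884, nat_lit 6098, nat_lit 0, nat_lit 0, nat_lit 5986, nat_lit 1198, nat_lit 22, nat_lit 0, nat_lit 0, nat_lit 19, nat_lit 0, nat_lit 0, nat_lit 0, nat_lit 0, nat_lit 0, nat_lit 365200, nat_lit 0, nat_lit 0, [(nat_lit 19, [(nat_lit 1, nat_lit 913)]), (nat_lit 22, [(nat_lit 1, nat_lit 913)])],
 ⟨p092_k15, nat_lit 0, nat_lit 0, nat_lit 318, nat_lit 0, nat_lit 166182, [nat_lit 1592481801, nat_lit 2418504201, nat_lit 2528870000], [], [nat_lit 26645456080, nat_lit 29161398060, nat_lit 27678447132, nat_lit 29675408590, nat_lit 24722772782, nat_lit 26480363772, nat_lit 28191236997, nat_lit 26884983826], nat_lit 1271250, nat_lit 1271250, nat_lit 631250, nat_lit 1751250, nat_lit 0, nat_lit 1836250, [nat_lit 490000, nat_lit 1427500, nat_lit 1271250], [nat_lit 61, nat_lit 40, nat_lit 40, nat_lit 80, nat_lit 1, nat_lit 345, nat_lit 125, nat_lit 10]⟩, ⟨p092_k12, nat_lit 0, nat_lit 0, nat_lit 382, nat_lit 0, nat_lit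 205935, [nat_lit 285534000, nat_lit 693216000, nat_lit 1032864000], [], [nat_lit 3910883240, nat_lit 3812813634, nat_lit 3369701982, nat_lit 3571253931, nat_lit 2638915200, nat_lit 2869246322, nat_lit 3460759048, nat_lit 2625712324], nat_lit 1271250, nat_lit 1271250, nat_lit 631250, nat_lit 1751250, nat_lit 0, nat_lit 2118750, [nat_lit 780000, nat_lit 1762500, nat_lit 1271250], [nat_lit 79, nat_lit 40, nat_lit 40, nat_lit 80, nat_lit 14, nat_lit 456, nat_lit 225, nat_lit 12]⟩,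
 ⟨nat_lit 3162, nat_lit 4473, ⟨.ofNat (nat_lit 415764), .ofNat (nat_lit 653959), .ofNat (nat_lit 458716), .ofNat (nat_lit 696911), .ofNat (nat_lit 435680), .ofNat (nat_lit 649288), .ofNat (nat_lit 479808), .ofNat (nat_lit 693416)⟩, ⟨.negSucc (nat_lit 12437), .ofNat (nat_lit 429433), .ofNat (nat_lit 0), .ofNat (nat_lit 472567), .ofNat (nat_lit 0), .ofNat (nat_lit 414188), .ofNat (nat_lit 0), .ofNat (nat_lit 458499)⟩⟩, [⟨nat_lit 16, nat_lit 71, nat_lit 100, nat_lit 71, nat_lit 58374874⟩]⟩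
noncomputable def p092_l100 : Lf2 := ⟨nat_lit 0, nat_lit 20, [nat_lit 5, nat_lit 5, nat_lit 5, nat_lit 20], false, nat_lit 0, nat_lit 260, nat_lit 0, nat_lit 300, ⟨nat_lit 1000, nat_lit 0, nat_lit 0, nat_lit 0, nat_lit 0, nat_lit 0, nat_lit 0, nat_lit 0, nat_lit 0, nat_lit 0, nat_lit 0, nat_lit 0, nat_lit 0, nat_lit 0, nat_lit 0, nat_lit 0, false, false⟩,
 nat_lit 14480, nat_lit 0, nat_lit 0, nat_lit 0, nat_lit 8785, nat_lit 9214, nat_lit 0, nat_lit 0, nat_lit 0, nat_lit 0, nat_lit 0, nat_lit 0, nat_lit 0, nat_lit 0, nat_lit 0, nat_lit 0, nat_lit 0, nat_lit 0, [],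
 ⟨p092_k15, nat_lit 0, nat_lit 0, nat_lit 238, nat_lit 0, nat_lit 56910, [nat_lit 2032000001, nat_lit 6250000000, nat_lit 9842000000], [], [nat_lit 35331174480, nat_lit 37224310190, nat_lit 46424004000, nat_lit 47538989050, nat_lit 30160768075, nat_lit 31436616693, nat_lit 37560158530, nat_lit 38316276033], nat_lit 1271250, nat_lit 1271250, nat_lit 1271250, nat_lit 1271250, nat_lit 0, nat_lit 1836250, [nat_lit 490000, nat_lit 1427500, nat_lit 1271250], [nat_lit 61, nat_lit 40, nat_lit 40, nat_lit 80, nat_lit 1, nat_lit 401, nat_lit 175, nat_lit 11]⟩, ⟨p092_k12, nat_lit 0, nat_lit 0, nat_lit 274, nat_lit 0, nat_lit 70523, [nat_lit 3282000000, nat_lit 7968000000, nat_lit 11872000000], [], [nat_lit 38998807008, nat_lit 41095458368, nat_lit 48937229600, nat_lit 50541317168, nat_lit 34088738924, nat_lit 35242450230, nat_lit 40180618884, nat_lit 41041286044], nat_lit 1271250, nat_lit 1271250, nat_lit 1271250, nat_lit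 1271250, nat_lit 0, nat_lit 2118750, [nat_lit 780000, nat_lit 1762500, nat_lit 1271250], [nat_lit 79, nat_lit 40, nat_lit 40, nat_lit 80, nat_lit 14, nat_lit 538, nat_lit 300, nat_lit 13]⟩,
 zbF0, [⟨nat_lit 16, nat_lit 76, nat_lit 100, nat_lit 72, nat_lit 2576060⟩, ⟨nat_lit 7, nat_lit 100, nat_lit 90, nat_lit 74, nat_lit 33457339⟩]⟩
noncomputable def p092_l101 : Lf2 := ⟨nat_lit 0, nat_lit 20, [nat_lit 5, nat_lit 5, nat_lit 5, nat_lit 20], false, nat_lit 0, nat_lit 232, nat_lit 0, nat_lit 300, ⟨nat_lit 1000, nat_lit 0, nat_lit 0, nat_lit 0, nat_lit 0, nat_lit 0, nat_lit 0, nat_lit 0, nat_lit 0, nat_lit 0, nat_lit 0, nat_lit 0, nat_lit 0, nat_lit 0, nat_lit 0, nat_lit 0, false, false⟩,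
 nat_lit 12606, nat_lit 0, nat_lit 0, nat_lit 0, nat_lit 8220, nat_lit 8021, nat_lit 0, nat_lit 0, nat_lit 0, nat_lit 524, nat_lit 0, nat_lit 0, nat_lit 0, nat_lit 0, nat_lit 0, nat_lit 0, nat_lit 0, nat_lit 0, [],
 ⟨p092_k11, nat_lit 0, nat_lit 0, nat_lit 265, nat_lit 0, nat_lit 150751, [nat_lit 2032000001, nat_lit 6250000000, nat_lit 7968000000], [], [nat_lit 35726404480, nat_lit 37155531600, nat_lit 45890651280, nat_lit 47509820240, nat_lit 30417868233, nat_lit 31447284792, nat_lit 36034861845, nat_lit 37213346704], nat_lit 1271250, nat_lit 1271250, nat_lit 1271250, nat_lit 1271250, nat_lit 0, nat_lit 1638500, [nat_lit 490000, nat_lit 1427500, nat_lit 1271250], [nat_lit 102, nat_lit 40, nat_lit 40, nat_lit 80, nat_lit 2, nat_lit 272, nat_lit 60, nat_lit 8]⟩, ⟨p092_k12, nat_lit 0, nat_lit 0, nat_lit 355, nat_lit 0, nat_lit 205935, [nat_lit 3282000000, nat_lit 7968000000, nat_lit 11872000000], [], [nat_lit 36387704644,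 nat_lit 37914759292, nat_lit 42298126180, nat_lit 43811339652, nat_lit 31377951156, nat_lit 32221569177, nat_lit 35821601557, nat_lit 36593466544], nat_lit 1271250, nat_lit 1271250, nat_lit 1271250, nat_lit 1271250, nat_lit 0, nat_lit 2118750, [nat_lit 780000, nat_lit 1762500, nat_lit 1271250], [nat_lit 79, nat_lit 40, nat_lit 40, nat_lit 80, nat_lit 14, nat_lit 538, nat_lit 300, nat_lit 13]⟩,
 zbF0, [⟨nat_lit 7, nat_lit 100, nat_lit 90, nat_lit 74, nat_lit 90567553⟩]⟩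
noncomputable def b_V_800_700_10_36 : St := ⟨true, nat_lit 2, nat_lit 2, nat_lit 0, nat_lit 80, nat_lit 320, nat_lit 360, nat_lit 280, nat_lit 320, nat_lit 100, nat_lit 400, nat_lit 40, nat_lit 80, nat_lit 0, nat_lit 260, nat_lit 0, nat_lit 300, nat_lit 120, nat_lit 152, nat_lit 0, nat_lit 0, nat_lit 0, nat_lit 0⟩
theorem d_V_800_700_10_36 (h : EB TB.env) : Dead b_V_800_700_10_36 := chkB_sound0 h (T :=
(.st (nat_lit 0)
(.gv
(.st (nat_lit 1)
(.spl (nat_lit 2) (nat_lit 240)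
(.leaf p092_l76)
(.leaf p092_l77))
(.spl (nat_lit 2) (nat_lit 240)
(.spl (nat_lit 3) (nat_lit 60)
(.trX (nat_lit 16) (nat_lit 81) (nat_lit 100) (nat_lit 72) (nat_lit 232) (.trX (nat_lit 19) (nat_lit 99) (nat_lit 100) (nat_lit 77) (nat_lit 276) (.leaf p092_l78)))
(.spl (nat_lit 6) (nat_lit 132)
(.spl (nat_lit 0) (nat_lit 340)
(.leaf p092_l79)
(.trZ (nat_lit 0) (nat_lit 99) (nat_lit 77) (nat_lit 100) (nat_lit 124) (.trX (nat_lit 16) (nat_lit 72) (nat_lit 100) (nat_lit 81) (nat_lit 232) (.leaf p092_l80))))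
(.leaf p092_l81)))
(.spl (nat_lit 0) (nat_lit 340)
(.leaf p092_l82)
(.trX (nat_lit 16) (nat_lit 72) (nat_lit 100) (nat_lit 81) (nat_lit 232) (.leaf p092_l83)))))
(.st (nat_lit 1)
(.spl (nat_lit 1) (nat_lit 300)
(.leaf p092_l84)
(.trZ (nat_lit 0) (nat_lit 94) (nat_lit 87) (nat_lit 100) (nat_lit 120) (.trX (nat_lit 19) (nat_lit 94) (nat_lit 100) (nat_lit 87) (nat_lit 280) (.leaf p092_l85))))
(.spl (nat_lit 2) (nat_lit 240)
(.leaf p092_l86)
(.spl (nat_lit 0) (nat_lit 340)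
(.leaf p092_l87)
(.trX (nat_lit 16) (nat_lit 72) (nat_lit 100) (nat_lit 81) (nat_lit 232) (.leaf p092_l88))))))
(.gv
(.st (nat_lit 1)
(.spl (nat_lit 2) (nat_lit 240)
(.spl (nat_lit 3) (nat_lit 60)
(.trX (nat_lit 16) (nat_lit 81) (nat_lit 100) (nat_lit 72) (nat_lit 232) (.trX (nat_lit 19) (nat_lit 99) (nat_lit 100) (nat_lit 77) (nat_lit 276) (.leaf p092_l89)))
(.leaf p092_l90))
(.leaf p092_l91))
(.spl (nat_lit 2) (nat_lit 240)
(.spl (nat_lit 3) (nat_lit 60)
(.trX (nat_lit 16) (nat_lit 81) (nat_lit 100) (nat_lit 72) (nat_lit 232) (.trX (nat_lit 19) (nat_lit 99) (nat_lit 100) (nat_lit 77) (nat_lit 276) (.leaf p092_l92)))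
(.leaf p092_l93))
(.spl (nat_lit 0) (nat_lit 340)
(.leaf p092_l94)
(.trX (nat_lit 16) (nat_lit 72) (nat_lit 100) (nat_lit 81) (nat_lit 232) (.leaf p092_l95)))))
(.st (nat_lit 1)
(.spl (nat_lit 2) (nat_lit 240)
(.spl (nat_lit 0) (nat_lit 340)
(.leaf p092_l96)
(.trZ (nat_lit 0) (nat_lit 99) (nat_lit 77) (nat_lit 100) (nat_lit 124) (.trX (nat_lit 16) (nat_lit 72) (nat_lit 100) (nat_lit 81) (nat_lit 232) (.leaf p092_l97))))
(.leaf p092_l98))
(.spl (nat_lit 2) (nat_lit 240)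
(.leaf p092_l99)
(.spl (nat_lit 0) (nat_lit 340)
(.leaf p092_l100)
(.trX (nat_lit 16) (nat_lit 72) (nat_lit 100) (nat_lit 81) (nat_lit 232) (.leaf p092_l101)))))))) (by decide +kernel)
noncomputable def p092_l102 : Lf2 := ⟨nat_lit 0, nat_lit 10, [nat_lit 0, nat_lit 5, nat_lit 5, nat_lit 20], false, nat_lit 0, nat_lit 300, nat_lit 0, nat_lit 160, ⟨nat_lit 1000, nat_lit 0, nat_lit 0, nat_lit 0, nat_lit 0, nat_lit 0, nat_lit 0, nat_lit 0, nat_lit 0, nat_lit 0, nat_lit 0, nat_lit 0, nat_lit 0, nat_lit 0, nat_lit 0, nat_lit 0, false, false⟩,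
 nat_lit 0, nat_lit 0, nat_lit 0, nat_lit 0, nat_lit 8441, nat_lit 7021, nat_lit 0, nat_lit 0, nat_lit 0, nat_lit 0, nat_lit 0, nat_lit 0, nat_lit 0, nat_lit 0, nat_lit 0, nat_lit 0, nat_lit 0, nat_lit 0, [],
 ⟨p092_k21, nat_lit 0, nat_lit 0, nat_lit 187, nat_lit 0, nat_lit 0, [nat_lit 2032000001, nat_lit 6250000000], [], [nat_lit 25707104020, nat_lit 31900268292, nat_lit 44889786396, nat_lit 48180398772, nat_lit 26093518212, nat_lit 30083970350, nat_lit 37082561138, nat_lit 39136948623], nat_lit 0, nat_lit 0, nat_lit 0, nat_lit 0, nat_lit 0, nat_lit 0, [], [nat_lit 69, nat_lit 40, nat_lit 40, nat_lit 80, nat_lit 64, nat_lit 401, nat_lit 175, nat_lit 15]⟩, ⟨p092_k22, nat_lit 0, nat_lit 0, nat_lit 200, nat_lit 0, nat_lit 0, [nat_lit 3282000000, nat_lit 9842000000], [], [nat_lit 28701827910, nat_lit 32548354930, nat_lit 42760930368, nat_lit 44437034400, nat_lit 24187841484, nat_lit 27416650034, nat_lit 36197122264,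 nat_lit 37639560504], nat_lit 0, nat_lit 0, nat_lit 0, nat_lit 0, nat_lit 0, nat_lit 0, [], [nat_lit 82, nat_lit 40, nat_lit 40, nat_lit 80, nat_lit 63, nat_lit 373, nat_lit 150, nat_lit 11]⟩,
 zbF0, [⟨nat_lit 0, nat_lit 90, nat_lit 74, nat_lit 100, nat_lit 91569537⟩, ⟨nat_lit 16, nat_lit 74, nat_lit 100, nat_lit 90, nat_lit 64736577⟩]⟩
noncomputable def p092_l103 : Lf2 := ⟨nat_lit 0, nat_lit 10, [nat_lit 0, nat_lit 5, nat_lit 5, nat_lit 20], false, nat_lit 0, nat_lit 300, nat_lit 160, nat_lit 336, ⟨nat_lit 1000, nat_lit 0, nat_lit 0, nat_lit 0, nat_lit 0, nat_lit 0, nat_lit 0, nat_lit 0, nat_lit 0, nat_lit 0, nat_lit 0, nat_lit 0, nat_lit 0, nat_lit 0, nat_lit 0, nat_lit 0, false, false⟩,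
 nat_lit 0, nat_lit 0, nat_lit 0, nat_lit 0, nat_lit 8222, nat_lit 8322, nat_lit 0, nat_lit 0, nat_lit 0, nat_lit 0, nat_lit 0, nat_lit 0, nat_lit 0, nat_lit 0, nat_lit 0, nat_lit 0, nat_lit 0, nat_lit 0, [],
 ⟨p092_k23, nat_lit 0, nat_lit 0, nat_lit 180, nat_lit 0, nat_lit 0, [nat_lit 2032000001, nat_lit 4688000000, nat_lit 6250000000], [], [nat_lit 24061036736, nat_lit 31419560664, nat_lit 44277077832, nat_lit 47515888824, nat_lit 25523736629, nat_lit 29839051700, nat_lit 36826283396, nat_lit 38855029266], nat_lit 0, nat_lit 0, nat_lit 0, nat_lit 0, nat_lit 0, nat_lit 0, [], [nat_lit 6, nat_lit 40, nat_lit 40, nat_lit 80, nat_lit 3, nat_lit 401, nat_lit 175, nat_lit 15]⟩, ⟨p092_k24, nat_lit 0, nat_lit 0, nat_lit 90, nat_lit 0, nat_lit 0, [nat_lit 3282000000, nat_lit 6250000000, nat_lit 9842000000], [], [nat_lit 13864134472, nat_lit 18299978836, nat_lit 31945831536, nat_lit 34365103568, nat_lit 25443553376, nat_lit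 28961126050, nat_lit 36991669615, nat_lit 38437071109], nat_lit 0, nat_lit 0, nat_lit 0, nat_lit 0, nat_lit 0, nat_lit 0, [], [nat_lit 8, nat_lit 40, nat_lit 40, nat_lit 80, nat_lit 1, nat_lit 428, nat_lit 200, nat_lit 12]⟩,
 zbF0, [⟨nat_lit 16, nat_lit 87, nat_lit 95, nat_lit 100, nat_lit 169271352⟩, ⟨nat_lit 19, nat_lit 100, nat_lit 80, nat_lit 100, nat_lit 371749362⟩]⟩
noncomputable def b_V_800_700_20_0 : St := ⟨true, nat_lit 0, nat_lit 0, nat_lit 1, nat_lit 120, nat_lit 320, nat_lit 360, nat_lit 280, nat_lit 320, nat_lit 100, nat_lit 400, nat_lit 80, nat_lit 120, nat_lit 0, nat_lit 300, nat_lit 0, nat_lit 336, nat_lit 0, nat_lit 40, nat_lit 0, nat_lit 0, nat_lit 0, nat_lit 0⟩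
theorem d_V_800_700_20_0 (h : EB TB.env) : Dead b_V_800_700_20_0 := chkB_sound0 h (T :=
(.spl (nat_lit 5) (nat_lit 160)
(.leaf p092_l102)
(.leaf p092_l103))) (by decide +kernel)
noncomputable def p092_l104 : Lf2 := ⟨nat_lit 0, nat_lit 10, [nat_lit 0, nat_lit 5, nat_lit 5, nat_lit 20], false, nat_lit 0, nat_lit 80, nat_lit 0, nat_lit 160, ⟨nat_lit 180, nat_lit 452, nat_lit 368, nat_lit 7, nat_lit 219, nat_lit 820, nat_lit 37, nat_lit 368, nat_lit 13067, nat_lit 243, nat_lit 80210, nat_lit 200, nat_lit 51535695, nat_lit 15464305, nat_lit 0, nat_lit 2701268, false, false⟩,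
 nat_lit 0, nat_lit 0, nat_lit 2386, nat_lit 0, nat_lit 3092, nat_lit 1518, nat_lit 33, nat_lit 0, nat_lit 0, nat_lit 125, nat_lit 0, nat_lit 0, nat_lit 0, nat_lit 0, nat_lit 2, nat_lit 697600, nat_lit 0, nat_lit 0, [(nat_lit 18, [(nat_lit 1, nat_lit 204), (nat_lit 2, nat_lit 248), (nat_lit 6, nat_lit 368)])],
 ⟨p092_k23, nat_lit 0, nat_lit 0, nat_lit 134, nat_lit 0, nat_lit 0, [nat_lit 1479024001, nat_lit 1080060801, nat_lit 19595200], [], [nat_lit 16677392849, nat_lit 18174343484, nat_lit 20410169906, nat_lit 21692350248, nat_lit 15724182281, nat_lit 17131989602, nat_lit 19431249810, nat_lit 20639064058], nat_lit 0, nat_lit 0, nat_lit 0, nat_lit 0, nat_lit 0, nat_lit 0, [], [nat_lit 6, nat_lit 40, nat_lit 40, nat_lit 80, nat_lit 3, nat_lit 317, nat_lit 100, nat_lit 12]⟩, ⟨p092_k24, nat_lit 0, nat_lit 0, nat_lit 820, nat_lit 0, nat_lit 1281160, [nat_lit 590760000, nat_lit 1125000000, nat_lit 1771560000], [], [nat_lit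 6882846996, nat_lit 6086264352, nat_lit 5858980920, nat_lit 5945247108, nat_lit 5159441909, nat_lit 5233444001, nat_lit 6511252392, nat_lit 5832706392], nat_lit 1271250, nat_lit 1271250, nat_lit 631250, nat_lit 1751250, nat_lit 0, nat_lit 1100001, [nat_lit 780000, nat_lit 1435000, nat_lit 1271250], [nat_lit 8, nat_lit 40, nat_lit 40, nat_lit 80, nat_lit 1, nat_lit 317, nat_lit 100, nat_lit 9]⟩,
 ⟨nat_lit 3872, nat_lit 4473, ⟨.ofNat (nat_lit 416230), .ofNat (nat_lit 654181), .ofNat (nat_lit 437779), .ofNat (nat_lit 675730), .ofNat (nat_lit 425778), .ofNat (nat_lit 651631), .ofNat (nat_lit 447554), .ofNat (nat_lit 673407)⟩, ⟨.ofNat (nat_lit 0), .ofNat (nat_lit 166665), .ofNat (nat_lit 0), .ofNat (nat_lit 200000), .ofNat (nat_lit 0), .ofNat (nat_lit 175674), .ofNat (nat_lit 0), .ofNat (nat_lit 200000)⟩⟩, [⟨nat_lit 3, nat_lit 100, nat_lit 78, nat_lit 39, nat_lit 86896751⟩]⟩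
noncomputable def p092_l105 : Lf2 := ⟨nat_lit 0, nat_lit 10, [nat_lit 0, nat_lit 5, nat_lit 5, nat_lit 20], false, nat_lit 0, nat_lit 80, nat_lit 0, nat_lit 160, ⟨nat_lit 150, nat_lit 850, nat_lit 0, nat_lit 7, nat_lit 228, nat_lit 850, nat_lit 38, nat_lit 0, nat_lit 0, nat_lit 0, nat_lit 0, nat_lit 0, nat_lit 50547777, nat_lit 16452223, nat_lit 0, nat_lit 2786996, false, false⟩,
 nat_lit 0, nat_lit 0, nat_lit 1983, nat_lit 0, nat_lit 3161, nat_lit 1261, nat_lit 300, nat_lit 0, nat_lit 0, nat_lit 82, nat_lit 0, nat_lit 0, nat_lit 0, nat_lit 0, nat_lit 0, nat_lit 340000, nat_lit 0, nat_lit 0, [(nat_lit 21, [(nat_lit 1, nat_lit 850)])],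
 ⟨p092_k25, nat_lit 0, nat_lit 0, nat_lit 142, nat_lit 0, nat_lit 0, [nat_lit 1456720000, nat_lit 1972080001, nat_lit 2205700000], [], [nat_lit 19003133638, nat_lit 20504166744, nat_lit 22184166699, nat_lit 23403945133, nat_lit 18181090412, nat_lit 19563347528, nat_lit 21315205921, nat_lit 22462328001], nat_lit 0, nat_lit 0, nat_lit 0, nat_lit 0, nat_lit 0, nat_lit 0, [], [nat_lit 6, nat_lit 40, nat_lit 40, nat_lit 80, nat_lit 3, nat_lit 317, nat_lit 100, nat_lit 12]⟩, ⟨p092_k24, nat_lit 0, nat_lit 0, nat_lit 931, nat_lit 0, nat_lit 1563961, [nat_lit 492300000, nat_lit 937500000, nat_lit 1476300000], [], [nat_lit 6218016317, nat_lit 5563098446, nat_lit 5380834182, nat_lit 5404006902, nat_lit 4849269459, nat_lit 4874041113, nat_lit 4680816348, nat_lit 4703647498], nat_lit 1271250, nat_lit 1271250, nat_lit 810650, nat_lit 1764750, nat_lit 0, nat_lit 1100001, [nat_lit 780000, nat_lit 1435000, nat_lit 1271250], [nat_lit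 8, nat_lit 40, nat_lit 40, nat_lit 80, nat_lit 1, nat_lit 321, nat_lit 100, nat_lit 9]⟩,
 ⟨nat_lit 3162, nat_lit 3873, ⟨.ofNat (nat_lit 464406), .ofNat (nat_lit 651611), .ofNat (nat_lit 486170), .ofNat (nat_lit 673376), .ofNat (nat_lit 472632), .ofNat (nat_lit 649490), .ofNat (nat_lit 494758), .ofNat (nat_lit 671616)⟩, ⟨.ofNat (nat_lit 0), .ofNat (nat_lit 175674), .ofNat (nat_lit 0), .ofNat (nat_lit 200000), .ofNat (nat_lit 0), .ofNat (nat_lit 184209), .ofNat (nat_lit 0), .ofNat (nat_lit 200000)⟩⟩, [⟨nat_lit 0, nat_lit 87, nat_lit 60, nat_lit 100, nat_lit 52923460⟩, ⟨nat_lit 3, nat_lit 100, nat_lit 65, nat_lit 54, nat_lit 60038846⟩]⟩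
noncomputable def p092_l106 : Lf2 := ⟨nat_lit 0, nat_lit 10, [nat_lit 0, nat_lit 5, nat_lit 5, nat_lit 20], false, nat_lit 0, nat_lit 80, nat_lit 160, nat_lit 336, ⟨nat_lit 119, nat_lit 53, nat_lit 828, nat_lit 7, nat_lit 219, nat_lit 881, nat_lit 37, nat_lit 828, nat_lit 13067, nat_lit 243, nat_lit 80210, nat_lit 200, nat_lit 51535695, nat_lit 15464305, nat_lit 0, nat_lit 2701268, false, false⟩,
 nat_lit 0, nat_lit 0, nat_lit 1604, nat_lit 0, nat_lit 2532, nat_lit 1020, nat_lit 0, nat_lit 0, nat_lit 0, nat_lit 82, nat_lit 0, nat_lit 0, nat_lit 0, nat_lit 0, nat_lit 40, nat_lit 452600, nat_lit 0, nat_lit 0, [(nat_lit 18, [(nat_lit 1, nat_lit 53), (nat_lit 5, nat_lit 661), (nat_lit 6, nat_lit 167)])],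
 ⟨p092_k23, nat_lit 0, nat_lit 0, nat_lit 134, nat_lit 0, nat_lit 0, [nat_lit 1426821334, nat_lit 821415867, nat_lit 1301600], [], [nat_lit 16026943942, nat_lit 17391394874, nat_lit 19622458806, nat_lit 20729428705, nat_lit 15493651614, nat_lit 16779161070, nat_lit 19031539254, nat_lit 20098118377], nat_lit 0, nat_lit 0, nat_lit 0, nat_lit 0, nat_lit 0, nat_lit 0, [], [nat_lit 6, nat_lit 40, nat_lit 40, nat_lit 80, nat_lit 3, nat_lit 317, nat_lit 100, nat_lit 12]⟩, ⟨p092_k24, nat_lit 0, nat_lit 0, nat_lit 722, nat_lit 0, nat_lit 1281160, [nat_lit 390558000, nat_lit 743750000, nat_lit 1171198000], [], [nat_lit 3135597424, nat_lit 3204206857, nat_lit 3067001778, nat_lit 3116630694, nat_lit 3425292587, nat_lit 3476304392, nat_lit 3283194646, nat_lit 3378235405], nat_lit 1271250, nat_lit 1271250, nat_lit 631250, nat_lit 1751250, nat_lit 1271250, nat_lit 1271250, [nat_lit 780000, nat_lit 1435000, nat_lit 1271250], [nat_lit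 8, nat_lit 40, nat_lit 40, nat_lit 80, nat_lit 1, nat_lit 373, nat_lit 150, nat_lit 10]⟩,
 ⟨nat_lit 3872, nat_lit 4473, ⟨.ofNat (nat_lit 416230), .ofNat (nat_lit 654181), .ofNat (nat_lit 437779), .ofNat (nat_lit 675730), .ofNat (nat_lit 425778), .ofNat (nat_lit 651631), .ofNat (nat_lit 447554), .ofNat (nat_lit 673407)⟩, ⟨.ofNat (nat_lit 0), .ofNat (nat_lit 166665), .ofNat (nat_lit 0), .ofNat (nat_lit 200000), .ofNat (nat_lit 0), .ofNat (nat_lit 175674), .ofNat (nat_lit 0), .ofNat (nat_lit 200000)⟩⟩, [⟨nat_lit 3, nat_lit 100, nat_lit 78, nat_lit 39, nat_lit 99013965⟩, ⟨nat_lit 10, nat_lit 74, nat_lit 100, nat_lit 57, nat_lit 61218283⟩]⟩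
noncomputable def p092_l107 : Lf2 := ⟨nat_lit 0, nat_lit 10, [nat_lit 0, nat_lit 5, nat_lit 5, nat_lit 20], false, nat_lit 0, nat_lit 80, nat_lit 160, nat_lit 336, ⟨nat_lit 173, nat_lit 827, nat_lit 0, nat_lit 7, nat_lit 228, nat_lit 827, nat_lit 38, nat_lit 0, nat_lit 0, nat_lit 0, nat_lit 0, nat_lit 0, nat_lit 50580357, nat_lit 16419643, nat_lit 0, nat_lit 2784264, false, false⟩,
 nat_lit 0, nat_lit 0, nat_lit 2398, nat_lit 0, nat_lit 2990, nat_lit 1525, nat_lit 437, nat_lit 0, nat_lit 0, nat_lit 113, nat_lit 0, nat_lit 0, nat_lit 0, nat_lit 0, nat_lit 0, nat_lit 330800, nat_lit 0, nat_lit 0, [(nat_lit 21, [(nat_lit 1, nat_lit 827)])],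
 ⟨p092_k25, nat_lit 0, nat_lit 0, nat_lit 134, nat_lit 0, nat_lit 0, [nat_lit 1472286401, nat_lit 2045569601, nat_lit 2315134000], [], [nat_lit 18429523296, nat_lit 19145006953, nat_lit 21659797407, nat_lit 22290708107, nat_lit 17495100698, nat_lit 18186290414, nat_lit 20684366947, nat_lit 21279430977], nat_lit 0, nat_lit 0, nat_lit 0, nat_lit 0, nat_lit 0, nat_lit 0, [], [nat_lit 6, nat_lit 40, nat_lit 40, nat_lit 80, nat_lit 3, nat_lit 317, nat_lit 100, nat_lit 12]⟩, ⟨p092_k24, nat_lit 0, nat_lit 0, nat_lit 765, nat_lit 0, nat_lit 1419309, [nat_lit 567786000, nat_lit 1081250000, nat_lit 1702666000], [], [nat_lit 4563508747, nat_lit 4631610900, nat_lit 4471441220, nat_lit 4536029792, nat_lit 4824108436, nat_lit 4885551604, nat_lit 4775320355, nat_lit 4925396168], nat_lit 1271250, nat_lit 1271250, nat_lit 810650, nat_lit 1764750, nat_lit 1271250, nat_lit 1271250, [nat_lit 780000, nat_lit 1435000, nat_lit 1271250],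 [nat_lit 8, nat_lit 40, nat_lit 40, nat_lit 80, nat_lit 1, nat_lit 373, nat_lit 150, nat_lit 10]⟩,
 ⟨nat_lit 3535, nat_lit 3873, ⟨.ofNat (nat_lit 464546), .ofNat (nat_lit 651675), .ofNat (nat_lit 486333), .ofNat (nat_lit 673463), .ofNat (nat_lit 468527), .ofNat (nat_lit 650552), .ofNat (nat_lit 490474), .ofNat (nat_lit 672499)⟩, ⟨.ofNat (nat_lit 0), .ofNat (nat_lit 175674), .ofNat (nat_lit 0), .ofNat (nat_lit 200000), .ofNat (nat_lit 0), .ofNat (nat_lit 179999), .ofNat (nat_lit 0), .ofNat (nat_lit 200000)⟩⟩, [⟨nat_lit 0, nat_lit 88, nat_lit 67, nat_lit 100, nat_lit 41788492⟩, ⟨nat_lit 3, nat_lit 100, nat_lit 72, nat_lit 46, nat_lit 51565294⟩, ⟨nat_lit 7, nat_lit 94, nat_lit 100, nat_lit 97, nat_lit 47913772⟩]⟩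
noncomputable def p092_l108 : Lf2 := ⟨nat_lit 0, nat_lit 10, [nat_lit 0, nat_lit 5, nat_lit 5, nat_lit 20], false, nat_lit 4, nat_lit 80, nat_lit 160, nat_lit 336, ⟨nat_lit 102, nat_lit 781, nat_lit 117, nat_lit 7, nat_lit 232, nat_lit 898, nat_lit 40, nat_lit 117, nat_lit 15000, nat_lit 245, nat_lit 73736, nat_lit 200, nat_lit 49085638, nat_lit 16784566, nat_lit 1129796, nat_lit 3314378, false, false⟩,
 nat_lit 0, nat_lit 0, nat_lit 1425, nat_lit 0, nat_lit 3052, nat_lit 906, nat_lit 61, nat_lit 0, nat_lit 0, nat_lit 65, nat_lit 0, nat_lit 0, nat_lit 0, nat_lit 0, nat_lit 0, nat_lit 359200, nat_lit 0, nat_lit 0, [(nat_lit 21, [(nat_lit 1, nat_lit 781), (nat_lit 5, nat_lit 117)])],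
 ⟨p092_k26, nat_lit 0, nat_lit 0, nat_lit 106, nat_lit 0, nat_lit 0, [nat_lit 1380054400, nat_lit 1512551600], [], [nat_lit 19525905324, nat_lit 20282715822, nat_lit 22447323063, nat_lit 23088225528, nat_lit 18574776024, nat_lit 19288024460, nat_lit 21441934905, nat_lit 22042374149], nat_lit 0, nat_lit 0, nat_lit 0, nat_lit 0, nat_lit 0, nat_lit 0, [], [nat_lit 24, nat_lit 40, nat_lit 40, nat_lit 80, nat_lit 33, nat_lit 317, nat_lit 100, nat_lit 14]⟩, ⟨p092_k24, nat_lit 0, nat_lit 0, nat_lit 839, nat_lit 0, nat_lit 1563961, [nat_lit 334764000, nat_lit 637500000, nat_lit 1003884000], [], [nat_lit 2771274183, nat_lit 2805816356, nat_lit 2715696384, nat_lit 2740769340, nat_lit 2851362074, nat_lit 2871937164, nat_lit 2821130343, nat_lit 2908719005], nat_lit 1271250, nat_lit 1271250, nat_lit 904401, nat_lit 1771500, nat_lit 1271250, nat_lit 1271250, [nat_lit 780000, nat_lit 1435000, nat_lit 1271250], [nat_lit 8, nat_lit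 40, nat_lit 40, nat_lit 80, nat_lit 1, nat_lit 373, nat_lit 150, nat_lit 10]⟩,
 ⟨nat_lit 3162, nat_lit 3536, ⟨.ofNat (nat_lit 487342), .ofNat (nat_lit 650549), .ofNat (nat_lit 509286), .ofNat (nat_lit 672493), .ofNat (nat_lit 491044), .ofNat (nat_lit 649550), .ofNat (nat_lit 513190), .ofNat (nat_lit 671696)⟩, ⟨.ofNat (nat_lit 10000), .ofNat (nat_lit 179999), .ofNat (nat_lit 10000), .ofNat (nat_lit 200000), .ofNat (nat_lit 10000), .ofNat (nat_lit 184209), .ofNat (nat_lit 10000), .ofNat (nat_lit 200000)⟩⟩, [⟨nat_lit 3, nat_lit 100, nat_lit 65, nat_lit 54, nat_lit 213537745⟩, ⟨nat_lit 22, nat_lit 100, nat_lit 75, nat_lit 61, nat_lit 41133843⟩]⟩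
noncomputable def p092_l109 : Lf2 := ⟨nat_lit 0, nat_lit 10, [nat_lit 0, nat_lit 5, nat_lit 5, nat_lit 20], false, nat_lit 0, nat_lit 80, nat_lit 0, nat_lit 320, ⟨nat_lit 313, nat_lit 687, nat_lit 0, nat_lit 7, nat_lit 234, nat_lit 687, nat_lit 37, nat_lit 0, nat_lit 0, nat_lit 0, nat_lit 0, nat_lit 0, nat_lit 49873027, nat_lit 17126973, nat_lit 0, nat_lit 2842161, false, false⟩,
 nat_lit 0, nat_lit 0, nat_lit 3116, nat_lit 0, nat_lit 3629, nat_lit 2157, nat_lit 109, nat_lit 0, nat_lit 0, nat_lit 340, nat_lit 0, nat_lit 0, nat_lit 0, nat_lit 0, nat_lit 0, nat_lit 687000, nat_lit 0, nat_lit 0, [(nat_lit 18, [(nat_lit 2, nat_lit 687)])],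
 ⟨p092_k23, nat_lit 0, nat_lit 0, nat_lit 127, nat_lit 0, nat_lit 0, [nat_lit 1805198401, nat_lit 2185488000, nat_lit 1651771600], [], [nat_lit 18193646893, nat_lit 19776935899, nat_lit 21624993985, nat_lit 22923657884, nat_lit 16870885061, nat_lit 18357856887, nat_lit 20226972041, nat_lit 21464770423], nat_lit 0, nat_lit 0, nat_lit 0, nat_lit 0, nat_lit 0, nat_lit 0, [], [nat_lit 6, nat_lit 40, nat_lit 40, nat_lit 80, nat_lit 3, nat_lit 317, nat_lit 100, nat_lit 12]⟩, ⟨p092_k27, nat_lit 0, nat_lit 0, nat_lit 742, nat_lit 0, nat_lit 1290027, [nat_lit 1027266000, nat_lit 1956250000, nat_lit 2493984000], [], [nat_lit 10742892270, nat_lit 9602404404, nat_lit 8222845254, nat_lit 8395797612, nat_lit 7864678418, nat_lit 7989581864, nat_lit 10688479552, nat_lit 9759942820], nat_lit 1271250, nat_lit 1271250, nat_lit 780000, nat_lit 1762500, nat_lit 0, nat_lit 2260000, [nat_lit 780000, nat_lit 1435000, nat_lit 1271250],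 [nat_lit 18, nat_lit 40, nat_lit 40, nat_lit 80, nat_lit 2, nat_lit 373, nat_lit 150, nat_lit 12]⟩,
 ⟨nat_lit 3872, nat_lit 4473, ⟨.ofNat (nat_lit 471772), .ofNat (nat_lit 675730), .ofNat (nat_lit 493321), .ofNat (nat_lit 697279), .ofNat (nat_lit 479819), .ofNat (nat_lit 673407), .ofNat (nat_lit 501595), .ofNat (nat_lit 695183)⟩, ⟨.ofNat (nat_lit 0), .ofNat (nat_lit 166665), .ofNat (nat_lit 0), .ofNat (nat_lit 200000), .ofNat (nat_lit 0), .ofNat (nat_lit 175674), .ofNat (nat_lit 0), .ofNat (nat_lit 200000)⟩⟩, [⟨nat_lit 0, nat_lit 81, nat_lit 72, nat_lit 100, nat_lit 30632146⟩, ⟨nat_lit 3, nat_lit 100, nat_lit 88, nat_lit 21, nat_lit 42561749⟩, ⟨nat_lit 7, nat_lit 100, nat_lit 93, nat_lit 97, nat_lit 36290182⟩]⟩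
noncomputable def p092_l110 : Lf2 := ⟨nat_lit 0, nat_lit 10, [nat_lit 0, nat_lit 5, nat_lit 5, nat_lit 20], false, nat_lit 0, nat_lit 80, nat_lit 0, nat_lit 320, ⟨nat_lit 278, nat_lit 722, nat_lit 0, nat_lit 7, nat_lit 243, nat_lit 722, nat_lit 38, nat_lit 0, nat_lit 0, nat_lit 0, nat_lit 0, nat_lit 0, nat_lit 48910799, nat_lit 18089201, nat_lit 0, nat_lit 2916234, false, false⟩,
 nat_lit 0, nat_lit 0, nat_lit 2732, nat_lit 0, nat_lit 3304, nat_lit 1891, nat_lit 360, nat_lit 0, nat_lit 0, nat_lit 372, nat_lit 0, nat_lit 0, nat_lit 0, nat_lit 0, nat_lit 0, nat_lit 288800, nat_lit 0, nat_lit 0, [(nat_lit 21, [(nat_lit 1, nat_lit 722)])],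
 ⟨p092_k25, nat_lit 0, nat_lit 0, nat_lit 138, nat_lit 0, nat_lit 0, [nat_lit 1543350400, nat_lit 2381065600, nat_lit 2814724000], [], [nat_lit 19639909353, nat_lit 21148398629, nat_lit 22443222072, nat_lit 23687795848, nat_lit 18726961637, nat_lit 20100092424, nat_lit 21476864280, nat_lit 22646763400], nat_lit 0, nat_lit 0, nat_lit 0, nat_lit 0, nat_lit 0, nat_lit 0, [], [nat_lit 6, nat_lit 40, nat_lit 40, nat_lit 80, nat_lit 3, nat_lit 317, nat_lit 100, nat_lit 12]⟩, ⟨p092_k27, nat_lit 0, nat_lit 0, nat_lit 842, nat_lit 0, nat_lit 1527098, [nat_lit 912396000, nat_lit 1737500000, nat_lit 2215104000], [], [nat_lit 8192893865, nat_lit 7469620024, nat_lit 7469664988, nat_lit 7584231892, nat_lit 7034067944, nat_lit 7107996078, nat_lit 9407422322, nat_lit 8583245100], nat_lit 1271250, nat_lit 1271250, nat_lit 968401, nat_lit 1776000, nat_lit 0, nat_lit 2260000, [nat_lit 780000, nat_lit 1435000, nat_lit 1271250], [nat_lit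 18, nat_lit 40, nat_lit 40, nat_lit 80, nat_lit 2, nat_lit 373, nat_lit 150, nat_lit 12]⟩,
 ⟨nat_lit 3162, nat_lit 3873, ⟨.ofNat (nat_lit 518447), .ofNat (nat_lit 673376), .ofNat (nat_lit 540212), .ofNat (nat_lit 695141), .ofNat (nat_lit 525251), .ofNat (nat_lit 671616), .ofNat (nat_lit 547377), .ofNat (nat_lit 693742)⟩, ⟨.ofNat (nat_lit 0), .ofNat (nat_lit 175674), .ofNat (nat_lit 0), .ofNat (nat_lit 200000), .ofNat (nat_lit 0), .ofNat (nat_lit 184209), .ofNat (nat_lit 0), .ofNat (nat_lit 200000)⟩⟩, [⟨nat_lit 19, nat_lit 93, nat_lit 100, nat_lit 97, nat_lit 27746199⟩, ⟨nat_lit 10, nat_lit 80, nat_lit 100, nat_lit 57, nat_lit 36426498⟩]⟩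
noncomputable def p092_l111 : Lf2 := ⟨nat_lit 0, nat_lit 10, [nat_lit 0, nat_lit 5, nat_lit 5, nat_lit 20], true, nat_lit 80, nat_lit 160, nat_lit 0, nat_lit 336, ⟨nat_lit 0, nat_lit 1000, nat_lit 0, nat_lit 7, nat_lit 224, nat_lit 1000, nat_lit 103, nat_lit 0, nat_lit 0, nat_lit 0, nat_lit 0, nat_lit 0, nat_lit 46849525, nat_lit 15549871, nat_lit 4600604, nat_lit 4103181, false, false⟩,
 nat_lit 0, nat_lit 0, nat_lit 0, nat_lit 0, nat_lit 4224, nat_lit 0, nat_lit 0, nat_lit 0, nat_lit 0, nat_lit 0, nat_lit 0, nat_lit 0, nat_lit 0, nat_lit 0, nat_lit 0, nat_lit 250000, nat_lit 0, nat_lit 0, [(nat_lit 18, [(nat_lit 0, nat_lit 1000)]), (nat_lit 21, [(nat_lit 0, nat_lit 1000)])],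
 ⟨p092_k23, nat_lit 0, nat_lit 0, nat_lit 70, nat_lit 0, nat_lit 0, [nat_lit 1558400000, nat_lit 2168000000, nat_lit 2562000000], [], [nat_lit 15432400992, nat_lit 19221536144, nat_lit 19326770688, nat_lit 22313558368, nat_lit 16476272800, nat_lit 19866151248, nat_lit 19990917632, nat_lit 22676638688], nat_lit 0, nat_lit 0, nat_lit 0, nat_lit 0, nat_lit 0, nat_lit 0, [], [nat_lit 6, nat_lit 40, nat_lit 40, nat_lit 80, nat_lit 3, nat_lit 317, nat_lit 100, nat_lit 12]⟩, C1.Rw.none,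
 ⟨nat_lit 3162, nat_lit 4473, ⟨.ofNat (nat_lit 415764), .ofNat (nat_lit 653959), .ofNat (nat_lit 458716), .ofNat (nat_lit 696911), .ofNat (nat_lit 435680), .ofNat (nat_lit 649288), .ofNat (nat_lit 479808), .ofNat (nat_lit 693416)⟩, ⟨.ofNat (nat_lit 166665), .ofNat (nat_lit 302621), .ofNat (nat_lit 200000), .ofNat (nat_lit 345754), .ofNat (nat_lit 184209), .ofNat (nat_lit 306116), .ofNat (nat_lit 200000), .ofNat (nat_lit 350426)⟩⟩, []⟩
noncomputable def b_V_800_700_20_1 : St := ⟨true, nat_lit 0, nat_lit 1, nat_lit 1, nat_lit 120, nat_lit 320, nat_lit 360, nat_lit 280, nat_lit 320, nat_lit 100, nat_lit 240, nat_lit 80, nat_lit 120, nat_lit 0, nat_lit 160, nat_lit 0, nat_lit 336, nat_lit 0, nat_lit 40, nat_lit 0, nat_lit 0, nat_lit 0, nat_lit 0⟩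
theorem d_V_800_700_20_1 (h : EB TB.env) : Dead b_V_800_700_20_1 := chkB_sound0 h (T :=
(.spl (nat_lit 4) (nat_lit 80)
(.spl (nat_lit 1) (nat_lit 300)
(.spl (nat_lit 5) (nat_lit 160)
(.spl (nat_lit 0) (nat_lit 340)
(.leaf p092_l104)
(.trZ (nat_lit 0) (nat_lit 99) (nat_lit 77) (nat_lit 100) (nat_lit 124) (.leaf p092_l105)))
(.spl (nat_lit 0) (nat_lit 340)
(.leaf p092_l106)
(.trZ (nat_lit 0) (nat_lit 99) (nat_lit 77) (nat_lit 100) (nat_lit 124) (.spl (nat_lit 0) (nat_lit 350)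
(.leaf p092_l107)
(.trZ (nat_lit 0) (nat_lit 96) (nat_lit 69) (nat_lit 100) (nat_lit 136) (.trZ (nat_lit 3) (nat_lit 100) (nat_lit 83) (nat_lit 25) (nat_lit 4) (.leaf p092_l108)))))))
(.trZ (nat_lit 0) (nat_lit 94) (nat_lit 87) (nat_lit 100) (nat_lit 120) (.trX (nat_lit 19) (nat_lit 94) (nat_lit 88) (nat_lit 100) (nat_lit 320) (.spl (nat_lit 0) (nat_lit 340)
(.leaf p092_l109)
(.trZ (nat_lit 0) (nat_lit 90) (nat_lit 74) (nat_lit 100) (nat_lit 144) (.leaf p092_l110))))))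
(.leaf p092_l111))) (by decide +kernel)
noncomputable def p092_l112 : Lf2 := ⟨nat_lit 0, nat_lit 10, [nat_lit 0, nat_lit 5, nat_lit 5, nat_lit 20], false, nat_lit 0, nat_lit 80, nat_lit 0, nat_lit 336, ⟨nat_lit 211, nat_lit 789, nat_lit 0, nat_lit 7, nat_lit 293, nat_lit 789, nat_lit 37, nat_lit 0, nat_lit 0, nat_lit 0, nat_lit 0, nat_lit 0, nat_lit 43645923, nat_lit 23354077, nat_lit 0, nat_lit 3232778, true, false⟩,
 nat_lit 0, nat_lit 0, nat_lit 2631, nat_lit 0, nat_lit 3487, nat_lit 1674, nat_lit 0, nat_lit 0, nat_lit 0, nat_lit 144, nat_lit 0, nat_lit 0, nat_lit 0, nat_lit 0, nat_lit 0, nat_lit 789000, nat_lit 0, nat_lit 0, [(nat_lit 18, [(nat_lit 2, nat_lit 789)])],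
 ⟨p092_k23, nat_lit 0, nat_lit 0, nat_lit 143, nat_lit 0, nat_lit 0, [nat_lit 1771524801, nat_lit 1813936001, nat_lit 969065200], [], [nat_lit 21727675591, nat_lit 22365828030, nat_lit 25469956955, nat_lit 26083644674, nat_lit 20713934383, nat_lit 21313458063, nat_lit 24257815435, nat_lit 24763082648], nat_lit 0, nat_lit 0, nat_lit 0, nat_lit 0, nat_lit 0, nat_lit 0, [], [nat_lit 6, nat_lit 40, nat_lit 40, nat_lit 80, nat_lit 3, nat_lit 226, nat_lit 20, nat_lit 8]⟩, ⟨p092_k24, nat_lit 0, nat_lit 0, nat_lit 712, nat_lit 0, nat_lit 1149803, [nat_lit 692502000, nat_lit 1318750000, nat_lit 2076662000], [], [nat_lit 7047235196, nat_lit 7157245592, nat_lit 7387675584, nat_lit 7472255088, nat_lit 6485928905, nat_lit 6549571132, nat_lit 6662561719, nat_lit 6721810140], nat_lit 1271250, nat_lit 1271250, nat_lit 1271250, nat_lit 1271250, nat_lit 0, nat_lit 2373000, [nat_lit 780000, nat_lit 1435000, nat_lit 1271250], [nat_lit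 8, nat_lit 40, nat_lit 40, nat_lit 80, nat_lit 1, nat_lit 401, nat_lit 175, nat_lit 11]⟩,
 ⟨nat_lit 4183, nat_lit 4473, ⟨.ofNat (nat_lit 654228), .ofNat (nat_lit 790187), .ofNat (nat_lit 675791), .ofNat (nat_lit 811750), .ofNat (nat_lit 652907), .ofNat (nat_lit 785420), .ofNat (nat_lit 674569), .ofNat (nat_lit 807083)⟩, ⟨.ofNat (nat_lit 0), .ofNat (nat_lit 166665), .ofNat (nat_lit 0), .ofNat (nat_lit 200000), .ofNat (nat_lit 0), .ofNat (nat_lit 171231), .ofNat (nat_lit 0), .ofNat (nat_lit 200000)⟩⟩, [⟨nat_lit 10, nat_lit 100, nat_lit 70, nat_lit 61, nat_lit 67157623⟩]⟩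
noncomputable def p092_l113 : Lf2 := ⟨nat_lit 0, nat_lit 10, [nat_lit 0, nat_lit 5, nat_lit 5, nat_lit 20], false, nat_lit 0, nat_lit 80, nat_lit 0, nat_lit 336, ⟨nat_lit 199, nat_lit 801, nat_lit 0, nat_lit 7, nat_lit 291, nat_lit 801, nat_lit 37, nat_lit 0, nat_lit 0, nat_lit 0, nat_lit 0, nat_lit 0, nat_lit 43768562, nat_lit 23231438, nat_lit 0, nat_lit 3227018, true, false⟩,
 nat_lit 0, nat_lit 0, nat_lit 2512, nat_lit 0, nat_lit 3298, nat_lit 1598, nat_lit 461, nat_lit 0, nat_lit 0, nat_lit 124, nat_lit 0, nat_lit 0, nat_lit 0, nat_lit 0, nat_lit 0, nat_lit 320400, nat_lit 0, nat_lit 0, [(nat_lit 18, [(nat_lit 1, nat_lit 801)])],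
 ⟨p092_k28, nat_lit 0, nat_lit 0, nat_lit 147, nat_lit 0, nat_lit 0, [nat_lit 1524272801, nat_lit 2508212000, nat_lit 2814350800], [], [nat_lit 22243080785, nat_lit 22864847491, nat_lit 25811878467, nat_lit 26350537573, nat_lit 21318104567, nat_lit 21902576287, nat_lit 24703194157, nat_lit 25197102659], nat_lit 0, nat_lit 0, nat_lit 0, nat_lit 0, nat_lit 0, nat_lit 0, [], [nat_lit 6, nat_lit 40, nat_lit 40, nat_lit 80, nat_lit 3, nat_lit 226, nat_lit 20, nat_lit 8]⟩, ⟨p092_k24, nat_lit 0, nat_lit 0, nat_lit 762, nat_lit 0, nat_lit 1281160, [nat_lit 653118000, nat_lit 1243750000, nat_lit 1958558000], [], [nat_lit 6956239668, nat_lit 7031022130, nat_lit 7176008856, nat_lit 7232345024, nat_lit 6255755621, nat_lit 6295073545, nat_lit 6349716316, nat_lit 6375099242], nat_lit 1271250, nat_lit 1271250, nat_lit 1271250, nat_lit 1271250, nat_lit 0, nat_lit 2373000, [nat_lit 780000, nat_lit 1435000, nat_lit 1271250], [nat_lit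 8, nat_lit 40, nat_lit 40, nat_lit 80, nat_lit 1, nat_lit 401, nat_lit 175, nat_lit 11]⟩,
 ⟨nat_lit 3872, nat_lit 4184, ⟨.ofNat (nat_lit 652906), .ofNat (nat_lit 785423), .ofNat (nat_lit 674568), .ofNat (nat_lit 807084), .ofNat (nat_lit 651678), .ofNat (nat_lit 780727), .ofNat (nat_lit 673466), .ofNat (nat_lit 802515)⟩, ⟨.ofNat (nat_lit 0), .ofNat (nat_lit 171231), .ofNat (nat_lit 0), .ofNat (nat_lit 200000), .ofNat (nat_lit 0), .ofNat (nat_lit 175674), .ofNat (nat_lit 0), .ofNat (nat_lit 200000)⟩⟩, [⟨nat_lit 10, nat_lit 100, nat_lit 70, nat_lit 61, nat_lit 58189063⟩]⟩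
noncomputable def p092_l114 : Lf2 := ⟨nat_lit 0, nat_lit 10, [nat_lit 0, nat_lit 5, nat_lit 5, nat_lit 20], false, nat_lit 0, nat_lit 80, nat_lit 0, nat_lit 336, ⟨nat_lit 141, nat_lit 859, nat_lit 0, nat_lit 7, nat_lit 277, nat_lit 859, nat_lit 38, nat_lit 0, nat_lit 0, nat_lit 0, nat_lit 0, nat_lit 0, nat_lit 45266554, nat_lit 21733446, nat_lit 0, nat_lit 3150633, true, false⟩,
 nat_lit 0, nat_lit 0, nat_lit 1872, nat_lit 0, nat_lit 3090, nat_lit 1191, nat_lit 245, nat_lit 0, nat_lit 0, nat_lit 86, nat_lit 0, nat_lit 0, nat_lit 0, nat_lit 0, nat_lit 0, nat_lit 343600, nat_lit 0, nat_lit 0, [(nat_lit 21, [(nat_lit 1, nat_lit 859)])],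
 ⟨p092_k25, nat_lit 0, nat_lit 0, nat_lit 145, nat_lit 0, nat_lit 0, [nat_lit 1450628800, nat_lit 1943323200, nat_lit 2162878000], [], [nat_lit 22368069275, nat_lit 23573791005, nat_lit 23972865305, nat_lit 25088357520, nat_lit 21545720725, nat_lit 22681533925, nat_lit 23074820685, nat_lit 24124650605], nat_lit 0, nat_lit 0, nat_lit 0, nat_lit 0, nat_lit 0, nat_lit 0, [], [nat_lit 6, nat_lit 40, nat_lit 40, nat_lit 80, nat_lit 3, nat_lit 226, nat_lit 20, nat_lit 8]⟩, ⟨p092_k24, nat_lit 0, nat_lit 0, nat_lit 892, nat_lit 0, nat_lit 1563961, [nat_lit 462762000, nat_lit 881250000, nat_lit 1387722000], [], [nat_lit 4808841014, nat_lit 4844516564, nat_lit 4850397936, nat_lit 4891353156, nat_lit 4198744872, nat_lit 4213264072, nat_lit 4195593627, nat_lit 4234460157], nat_lit 1271250, nat_lit 1271250, nat_lit 1271250, nat_lit 1271250, nat_lit 0, nat_lit 2373000, [nat_lit 780000, nat_lit 1435000, nat_lit 1271250], [nat_lit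 8, nat_lit 40, nat_lit 40, nat_lit 80, nat_lit 1, nat_lit 401, nat_lit 175, nat_lit 11]⟩,
 ⟨nat_lit 3162, nat_lit 3873, ⟨.ofNat (nat_lit 651611), .ofNat (nat_lit 716165), .ofNat (nat_lit 673376), .ofNat (nat_lit 737930), .ofNat (nat_lit 649490), .ofNat (nat_lit 710475), .ofNat (nat_lit 671616), .ofNat (nat_lit 732601)⟩, ⟨.ofNat (nat_lit 0), .ofNat (nat_lit 175674), .ofNat (nat_lit 0), .ofNat (nat_lit 200000), .ofNat (nat_lit 0), .ofNat (nat_lit 184209), .ofNat (nat_lit 0), .ofNat (nat_lit 200000)⟩⟩, [⟨nat_lit 3, nat_lit 100, nat_lit 65, nat_lit 54, nat_lit 23357321⟩, ⟨nat_lit 22, nat_lit 100, nat_lit 99, nat_lit 63, nat_lit 26385585⟩]⟩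
noncomputable def p092_l115 : Lf2 := ⟨nat_lit 0, nat_lit 10, [nat_lit 0, nat_lit 5, nat_lit 5, nat_lit 20], false, nat_lit 0, nat_lit 80, nat_lit 0, nat_lit 300, ⟨nat_lit 176, nat_lit 824, nat_lit 0, nat_lit 7, nat_lit 302, nat_lit 824, nat_lit 38, nat_lit 0, nat_lit 0, nat_lit 0, nat_lit 0, nat_lit 0, nat_lit 42646684, nat_lit 24353316, nat_lit 0, nat_lit 3276976, true, true⟩,
 nat_lit 0, nat_lit 0, nat_lit 2341, nat_lit 0, nat_lit 2843, nat_lit 1489, nat_lit 162, nat_lit 0, nat_lit 0, nat_lit 105, nat_lit 0, nat_lit 0, nat_lit 0, nat_lit 0, nat_lit 0, nat_lit 615800, nat_lit 0, nat_lit 0, [(nat_lit 21, [(nat_lit 1, nat_lit 347), (nat_lit 2, nat_lit 477)])],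
 ⟨p092_k25, nat_lit 0, nat_lit 0, nat_lit 155, nat_lit 0, nat_lit 0, [nat_lit 1496258801, nat_lit 1274210801, nat_lit 1077378400], [], [nat_lit 24134733612, nat_lit 25059221462, nat_lit 25652313948, nat_lit 26591503029, nat_lit 23410874398, nat_lit 24285120814, nat_lit 24869494145, nat_lit 25724252529], nat_lit 0, nat_lit 0, nat_lit 0, nat_lit 0, nat_lit 0, nat_lit 0, [], [nat_lit 6, nat_lit 40, nat_lit 40, nat_lit 80, nat_lit 3, nat_lit 226, nat_lit 20, nat_lit 7]⟩, ⟨p092_k24, nat_lit 0, nat_lit 0, nat_lit 883, nat_lit 0, nat_lit 1563961, [nat_lit 577632000, nat_lit 1100000000, nat_lit 1732192000], [], [nat_lit 6044375825, nat_lit 6091786272, nat_lit 6142890252, nat_lit 6185723886, nat_lit 5173716562, nat_lit 5192046214, nat_lit 5210375865, nat_lit 5289006283], nat_lit 1271250, nat_lit 1271250, nat_lit 1271250, nat_lit 1271250, nat_lit 0, nat_lit 2118750, [nat_lit 780000, nat_lit 1435000, nat_lit 1271250], [nat_lit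 8, nat_lit 40, nat_lit 40, nat_lit 80, nat_lit 1, nat_lit 336, nat_lit 75, nat_lit 9]⟩,
 ⟨nat_lit 3162, nat_lit 3873, ⟨.ofNat (nat_lit 716165), .ofNat (nat_lit 780717), .ofNat (nat_lit 737930), .ofNat (nat_lit 802484), .ofNat (nat_lit 710475), .ofNat (nat_lit 771459), .ofNat (nat_lit 732601), .ofNat (nat_lit 793588)⟩, ⟨.ofNat (nat_lit 0), .ofNat (nat_lit 175674), .ofNat (nat_lit 0), .ofNat (nat_lit 200000), .ofNat (nat_lit 0), .ofNat (nat_lit 184209), .ofNat (nat_lit 0), .ofNat (nat_lit 200000)⟩⟩, [⟨nat_lit 22, nat_lit 87, nat_lit 100, nat_lit 60, nat_lit 32194961⟩]⟩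
noncomputable def p092_l116 : Lf2 := ⟨nat_lit 0, nat_lit 10, [nat_lit 0, nat_lit 5, nat_lit 5, nat_lit 20], false, nat_lit 0, nat_lit 80, nat_lit 0, nat_lit 260, ⟨nat_lit 494, nat_lit 506, nat_lit 0, nat_lit 8, nat_lit 344, nat_lit 506, nat_lit 37, nat_lit 0, nat_lit 0, nat_lit 0, nat_lit 0, nat_lit 0, nat_lit 38502255, nat_lit 28497745, nat_lit 0, nat_lit 3409784, true, true⟩,
 nat_lit 0, nat_lit 0, nat_lit 5749, nat_lit 0, nat_lit 3900, nat_lit 3658, nat_lit 169, nat_lit 0, nat_lit 0, nat_lit 345, nat_lit 0, nat_lit 0, nat_lit 0, nat_lit 0, nat_lit 0, nat_lit 506000, nat_lit 0, nat_lit 0, [(nat_lit 18, [(nat_lit 2, nat_lit 506)])],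
 ⟨p092_k23, nat_lit 0, nat_lit 0, nat_lit 174, nat_lit 0, nat_lit 0, [nat_lit 1864952534, nat_lit 2844810667, nat_lit 2863240800], [], [nat_lit 27735366001, nat_lit 28214282101, nat_lit 32185176400, nat_lit 32739302000, nat_lit 26265904001, nat_lit 26718715568, nat_lit 30215115468, nat_lit 30605494768], nat_lit 0, nat_lit 0, nat_lit 0, nat_lit 0, nat_lit 0, nat_lit 0, [], [nat_lit 6, nat_lit 40, nat_lit 40, nat_lit 80, nat_lit 3, nat_lit 226, nat_lit 20, nat_lit 7]⟩, ⟨p092_k24, nat_lit 0, nat_lit 0, nat_lit 647, nat_lit 0, nat_lit 1065705, [nat_lit 1621308000, nat_lit 3087500000, nat_lit 4861948000], [], [nat_lit 18290313917, nat_lit 18391102110, nat_lit 19677216336, nat_lit 19781570862, nat_lit 16393197696, nat_lit 16468611034, nat_lit 17341801226, nat_lit 17392626779], nat_lit 1271250, nat_lit 1271250, nat_lit 1271250, nat_lit 1271250, nat_lit 0, nat_lit 1836250, [nat_lit 780000, nat_lit 1435000, nat_lit 1271250],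 [nat_lit 8, nat_lit 40, nat_lit 40, nat_lit 80, nat_lit 1, nat_lit 289, nat_lit 75, nat_lit 8]⟩,
 ⟨nat_lit 4183, nat_lit 4473, ⟨.ofNat (nat_lit 790187), .ofNat (nat_lit 926145), .ofNat (nat_lit 800968), .ofNat (nat_lit 936926), .ofNat (nat_lit 785420), .ofNat (nat_lit 917933), .ofNat (nat_lit 796251), .ofNat (nat_lit 928764)⟩, ⟨.ofNat (nat_lit 0), .ofNat (nat_lit 166665), .ofNat (nat_lit 0), .ofNat (nat_lit 200000), .ofNat (nat_lit 0), .ofNat (nat_lit 171231), .ofNat (nat_lit 0), .ofNat (nat_lit 200000)⟩⟩, [⟨nat_lit 10, nat_lit 100, nat_lit 58, nat_lit 64, nat_lit 104632236⟩]⟩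
noncomputable def p092_l117 : Lf2 := ⟨nat_lit 0, nat_lit 10, [nat_lit 0, nat_lit 5, nat_lit 5, nat_lit 20], false, nat_lit 0, nat_lit 80, nat_lit 0, nat_lit 260, ⟨nat_lit 404, nat_lit 596, nat_lit 0, nat_lit 8, nat_lit 340, nat_lit 596, nat_lit 37, nat_lit 0, nat_lit 0, nat_lit 0, nat_lit 0, nat_lit 0, nat_lit 38872845, nat_lit 28127155, nat_lit 0, nat_lit 3401149, true, true⟩,
 nat_lit 0, nat_lit 0, nat_lit 4841, nat_lit 0, nat_lit 3177, nat_lit 3080, nat_lit 1443, nat_lit 0, nat_lit 0, nat_lit 235, nat_lit 0, nat_lit 0, nat_lit 0, nat_lit 0, nat_lit 0, nat_lit 238400, nat_lit 0, nat_lit 0, [(nat_lit 18, [(nat_lit 1, nat_lit 596)])],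
 ⟨p092_k28, nat_lit 0, nat_lit 0, nat_lit 174, nat_lit 0, nat_lit 0, [nat_lit 1654215467, nat_lit 3066085334, nat_lit 3693636800], [], [nat_lit 26161084805, nat_lit 26647721328, nat_lit 30403494369, nat_lit 30921921276, nat_lit 25316929249, nat_lit 25776179736, nat_lit 28829487606, nat_lit 29212106760], nat_lit 0, nat_lit 0, nat_lit 0, nat_lit 0, nat_lit 0, nat_lit 0, [], [nat_lit 6, nat_lit 40, nat_lit 40, nat_lit 80, nat_lit 3, nat_lit 226, nat_lit 20, nat_lit 7]⟩, ⟨p092_k24, nat_lit 0, nat_lit 0, nat_lit 719, nat_lit 0, nat_lit 1200600, [nat_lit 1325928000, nat_lit 2525000000, nat_lit 3976168000], [], [nat_lit 15495312823, nat_lit 15552509855, nat_lit 16197652329, nat_lit 16235954616, nat_lit 13604393940, nat_lit 13645634461, nat_lit 14154873978, nat_lit 14180346929], nat_lit 1271250, nat_lit 1271250, nat_lit 1271250, nat_lit 1271250, nat_lit 0, nat_lit 1836250, [nat_lit 780000, nat_lit 1435000, nat_lit 1271250],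 [nat_lit 8, nat_lit 40, nat_lit 40, nat_lit 80, nat_lit 1, nat_lit 298, nat_lit 75, nat_lit 8]⟩,
 ⟨nat_lit 3872, nat_lit 4184, ⟨.ofNat (nat_lit 785423), .ofNat (nat_lit 911314), .ofNat (nat_lit 796254), .ofNat (nat_lit 922145), .ofNat (nat_lit 780727), .ofNat (nat_lit 903324), .ofNat (nat_lit 791621), .ofNat (nat_lit 914217)⟩, ⟨.ofNat (nat_lit 0), .ofNat (nat_lit 171231), .ofNat (nat_lit 0), .ofNat (nat_lit 200000), .ofNat (nat_lit 0), .ofNat (nat_lit 175674), .ofNat (nat_lit 0), .ofNat (nat_lit 200000)⟩⟩, [⟨nat_lit 13, nat_lit 82, nat_lit 33, nat_lit 100, nat_lit 18468788⟩, ⟨nat_lit 10, nat_lit 100, nat_lit 58, nat_lit 64, nat_lit 79306937⟩]⟩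
noncomputable def p092_l118 : Lf2 := ⟨nat_lit 0, nat_lit 10, [nat_lit 0, nat_lit 5, nat_lit 5, nat_lit 20], false, nat_lit 0, nat_lit 80, nat_lit 0, nat_lit 260, ⟨nat_lit 1000, nat_lit 0, nat_lit 0, nat_lit 0, nat_lit 0, nat_lit 0, nat_lit 0, nat_lit 0, nat_lit 0, nat_lit 0, nat_lit 0, nat_lit 0, nat_lit 0, nat_lit 0, nat_lit 0, nat_lit 0, false, false⟩,
 nat_lit 0, nat_lit 0, nat_lit 8790, nat_lit 0, nat_lit 7012, nat_lit 5837, nat_lit 0, nat_lit 0, nat_lit 0, nat_lit 3454, nat_lit 0, nat_lit 0, nat_lit 0, nat_lit 0, nat_lit 0, nat_lit 0, nat_lit 0, nat_lit 0, [],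
 ⟨p092_k21, nat_lit 0, nat_lit 0, nat_lit 180, nat_lit 0, nat_lit 0, [nat_lit 2032000001, nat_lit 6250000000], [], [nat_lit 33601911696, nat_lit 34857107920, nat_lit 40891793072, nat_lit 42368094288, nat_lit 29599953632, nat_lit 30782353448, nat_lit 34556094064, nat_lit 35908266712], nat_lit 0, nat_lit 0, nat_lit 0, nat_lit 0, nat_lit 0, nat_lit 0, [], [nat_lit 69, nat_lit 40, nat_lit 40, nat_lit 80, nat_lit 64, nat_lit 226, nat_lit 20, nat_lit 7]⟩, ⟨p092_k29, nat_lit 0, nat_lit 0, nat_lit 647, nat_lit 0, nat_lit 1204845, [nat_lit 3282000000, nat_lit 7968000000], [], [nat_lit 32059386840, nat_lit 32291082098, nat_lit 35870182137, nat_lit 36448264682, nat_lit 30649364868, nat_lit 30802448425, nat_lit 32665507092, nat_lit 32815185301], nat_lit 1271250, nat_lit 1271250, nat_lit 1271250, nat_lit 1271250, nat_lit 0, nat_lit 1836250, [nat_lit 780000, nat_lit 1762500], [nat_lit 74, nat_lit 40, nat_lit 40, nat_lit 80, nat_lit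 43, nat_lit 289, nat_lit 75, nat_lit 9]⟩,
 zbF0, [⟨nat_lit 22, nat_lit 63, nat_lit 100, nat_lit 62, nat_lit 258227248⟩]⟩
noncomputable def p092_l119 : Lf2 := ⟨nat_lit 0, nat_lit 10, [nat_lit 0, nat_lit 5, nat_lit 5, nat_lit 20], false, nat_lit 0, nat_lit 80, nat_lit 0, nat_lit 260, ⟨nat_lit 185, nat_lit 815, nat_lit 0, nat_lit 8, nat_lit 325, nat_lit 815, nat_lit 38, nat_lit 0, nat_lit 0, nat_lit 0, nat_lit 0, nat_lit 0, nat_lit 40339681, nat_lit 26660319, nat_lit 0, nat_lit 3360785, true, true⟩,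
 nat_lit 0, nat_lit 0, nat_lit 2394, nat_lit 0, nat_lit 2729, nat_lit 1523, nat_lit 452, nat_lit 0, nat_lit 0, nat_lit 115, nat_lit 0, nat_lit 0, nat_lit 0, nat_lit 0, nat_lit 0, nat_lit 326000, nat_lit 0, nat_lit 0, [(nat_lit 21, [(nat_lit 1, nat_lit 815)])],
 ⟨p092_k25, nat_lit 0, nat_lit 0, nat_lit 167, nat_lit 0, nat_lit 0, [nat_lit 1480408001, nat_lit 2083912000, nat_lit 2372230000], [], [nat_lit 25949684837, nat_lit 26837435053, nat_lit 27648336047, nat_lit 28514595659, nat_lit 25246189527, nat_lit 26087415225, nat_lit 26858269635, nat_lit 27629124045], nat_lit 0, nat_lit 0, nat_lit 0, nat_lit 0, nat_lit 0, nat_lit 0, [], [nat_lit 6, nat_lit 40, nat_lit 40, nat_lit 80, nat_lit 3, nat_lit 226, nat_lit 20, nat_lit 7]⟩, ⟨p092_k24, nat_lit 0, nat_lit 0, nat_lit 848, nat_lit 0, nat_lit 1490624, [nat_lit 607170000, nat_lit 1156250000, nat_lit 1820770000], [], [nat_lit 6702369176, nat_lit 6725133307, nat_lit 6843347124,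 nat_lit 6861734507, nat_lit 5749677515, nat_lit 5759659973, nat_lit 5831016098, nat_lit 5837745864], nat_lit 1271250, nat_lit 1271250, nat_lit 1271250, nat_lit 1271250, nat_lit 0, nat_lit 1836250, [nat_lit 780000, nat_lit 1435000, nat_lit 1271250], [nat_lit 8, nat_lit 40, nat_lit 40, nat_lit 80, nat_lit 1, nat_lit 326, nat_lit 75, nat_lit 9]⟩,
 ⟨nat_lit 3162, nat_lit 3873, ⟨.ofNat (nat_lit 780717), .ofNat (nat_lit 845258), .ofNat (nat_lit 791601), .ofNat (nat_lit 856147), .ofNat (nat_lit 771459), .ofNat (nat_lit 832432), .ofNat (nat_lit 782524), .ofNat (nat_lit 843501)⟩, ⟨.ofNat (nat_lit 0), .ofNat (nat_lit 175674), .ofNat (nat_lit 0), .ofNat (nat_lit 200000), .ofNat (nat_lit 0), .ofNat (nat_lit 184209), .ofNat (nat_lit 0), .ofNat (nat_lit 200000)⟩⟩, [⟨nat_lit 3, nat_lit 100, nat_lit 65, nat_lit 54, nat_lit 999307⟩, ⟨nat_lit 22, nat_lit 76, nat_lit 100, nat_lit 43, nat_lit 36223332⟩]⟩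
noncomputable def p092_l120 : Lf2 := ⟨nat_lit 0, nat_lit 5, [nat_lit 4, nat_lit 5, nat_lit 5, nat_lit 20], false, nat_lit 0, nat_lit 80, nat_lit 0, nat_lit 200, ⟨nat_lit 222, nat_lit 778, nat_lit 0, nat_lit 9, nat_lit 348, nat_lit 778, nat_lit 38, nat_lit 0, nat_lit 0, nat_lit 0, nat_lit 0, nat_lit 0, nat_lit 38126052, nat_lit 28873948, nat_lit 0, nat_lit 3417909, true, true⟩,
 nat_lit 0, nat_lit 0, nat_lit 2698, nat_lit 0, nat_lit 2842, nat_lit 1716, nat_lit 522, nat_lit 0, nat_lit 0, nat_lit 108, nat_lit 0, nat_lit 0, nat_lit 0, nat_lit 0, nat_lit 0, nat_lit 311200, nat_lit 0, nat_lit 0, [(nat_lit 21, [(nat_lit 1, nat_lit 778)])],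
 ⟨p092_k30, nat_lit 0, nat_lit 0, nat_lit 162, nat_lit 0, nat_lit 0, [nat_lit 1505449600, nat_lit 2195288000], [], [nat_lit 28135270868, nat_lit 28599674846, nat_lit 29786203403, nat_lit 30213660954, nat_lit 27379028166, nat_lit 27793836184, nat_lit 28915047458, nat_lit 29321424994], nat_lit 0, nat_lit 0, nat_lit 0, nat_lit 0, nat_lit 0, nat_lit 0, [], [nat_lit 24, nat_lit 40, nat_lit 40, nat_lit 80, nat_lit 33, nat_lit 226, nat_lit 20, nat_lit 8]⟩, ⟨p092_k31, nat_lit 0, nat_lit 0, nat_lit 681, nat_lit 0, nat_lit 1270301, [nat_lit 728604000, nat_lit 1387500000, nat_lit 1768896000], [], [nat_lit 8540963880, nat_lit 8557876230, nat_lit 8752723796, nat_lit 8780309766, nat_lit 7497674208, nat_lit 7509110462, nat_lit 7659000269, nat_lit 7668397092], nat_lit 1271250, nat_lit 1271250, nat_lit 1271250, nat_lit 1271250, nat_lit 0, nat_lit 1412500, [nat_lit 780000, nat_lit 1435000, nat_lit 1271250], [nat_lit 18, nat_lit 40,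 nat_lit 40, nat_lit 80, nat_lit 2, nat_lit 280, nat_lit 50, nat_lit 8]⟩,
 ⟨nat_lit 3535, nat_lit 3873, ⟨.ofNat (nat_lit 845257), .ofNat (nat_lit 896875), .ofNat (nat_lit 850704), .ofNat (nat_lit 902323), .ofNat (nat_lit 838854), .ofNat (nat_lit 889064), .ofNat (nat_lit 844341), .ofNat (nat_lit 894552)⟩, ⟨.ofNat (nat_lit 0), .ofNat (nat_lit 175674), .ofNat (nat_lit 0), .ofNat (nat_lit 200000), .ofNat (nat_lit 0), .ofNat (nat_lit 179999), .ofNat (nat_lit 0), .ofNat (nat_lit 200000)⟩⟩, [⟨nat_lit 13, nat_lit 72, nat_lit 46, nat_lit 100, nat_lit 201411350⟩, ⟨nat_lit 22, nat_lit 55, nat_lit 100, nat_lit 61, nat_lit 21670264⟩]⟩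
noncomputable def p092_l121 : Lf2 := ⟨nat_lit 0, nat_lit 5, [nat_lit 4, nat_lit 5, nat_lit 5, nat_lit 20], false, nat_lit 4, nat_lit 80, nat_lit 0, nat_lit 200, ⟨nat_lit 132, nat_lit 868, nat_lit 0, nat_lit 9, nat_lit 343, nat_lit 868, nat_lit 40, nat_lit 0, nat_lit 0, nat_lit 0, nat_lit 0, nat_lit 0, nat_lit 38013577, nat_lit 28000152, nat_lit 986271, nat_lit 3834922, true, true⟩,
 nat_lit 0, nat_lit 0, nat_lit 1651, nat_lit 0, nat_lit 2646, nat_lit 1050, nat_lit 284, nat_lit 0, nat_lit 0, nat_lit 57, nat_lit 0, nat_lit 0, nat_lit 0, nat_lit 0, nat_lit 0, nat_lit 347200, nat_lit 0, nat_lit 0, [(nat_lit 21, [(nat_lit 1, nat_lit 868)])],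
 ⟨p092_k32, nat_lit 0, nat_lit 0, nat_lit 159, nat_lit 0, nat_lit 0, [nat_lit 1444537601, nat_lit 1906928000], [], [nat_lit 27899916518, nat_lit 28375244476, nat_lit 29137827022, nat_lit 29584385445, nat_lit 27129209666, nat_lit 27553082715, nat_lit 28277867587, nat_lit 28704369195], nat_lit 0, nat_lit 0, nat_lit 0, nat_lit 0, nat_lit 0, nat_lit 0, [], [nat_lit 24, nat_lit 40, nat_lit 40, nat_lit 80, nat_lit 33, nat_lit 226, nat_lit 20, nat_lit 8]⟩, ⟨p092_k31, nat_lit 0, nat_lit 0, nat_lit 747, nat_lit 0, nat_lit 1416988, [nat_lit 433224000, nat_lit 825000000, nat_lit 1051776000], [], [nat_lit 5103188964, nat_lit 5108899551, nat_lit 5169600108, nat_lit 5174489745, nat_lit 4449093696, nat_lit 4452988020, nat_lit 4502837952, nat_lit 4505976311], nat_lit 1271250, nat_lit 1271250, nat_lit 1271250, nat_lit 1271250, nat_lit 0, nat_lit 1412500, [nat_lit 780000, nat_lit 1435000, nat_lit 1271250], [nat_lit 18, nat_lit 40,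 nat_lit 40, nat_lit 80, nat_lit 2, nat_lit 296, nat_lit 50, nat_lit 9]⟩,
 ⟨nat_lit 3162, nat_lit 3536, ⟨.ofNat (nat_lit 838855), .ofNat (nat_lit 876512), .ofNat (nat_lit 844343), .ofNat (nat_lit 882000), .ofNat (nat_lit 832432), .ofNat (nat_lit 869004), .ofNat (nat_lit 837970), .ofNat (nat_lit 874542)⟩, ⟨.ofNat (nat_lit 10000), .ofNat (nat_lit 179999), .ofNat (nat_lit 10000), .ofNat (nat_lit 200000), .ofNat (nat_lit 10000), .ofNat (nat_lit 184209), .ofNat (nat_lit 10000), .ofNat (nat_lit 200000)⟩⟩, [⟨nat_lit 13, nat_lit 69, nat_lit 49, nat_lit 100, nat_lit 188636458⟩, ⟨nat_lit 13, nat_lit 65, nat_lit 54, nat_lit 100, nat_lit 77899066⟩, ⟨nat_lit 3, nat_lit 100, nat_lit 65, nat_lit 54, nat_lit 200321376⟩, ⟨nat_lit 22, nat_lit 59, nat_lit 100, nat_lit 57, nat_lit 11476514⟩]⟩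
noncomputable def p092_l122 : Lf2 := ⟨nat_lit 0, nat_lit 10, [nat_lit 0, nat_lit 5, nat_lit 5, nat_lit 20], false, nat_lit 0, nat_lit 80, nat_lit 0, nat_lit 200, ⟨nat_lit 1000, nat_lit 0, nat_lit 0, nat_lit 0, nat_lit 0, nat_lit 0, nat_lit 0, nat_lit 0, nat_lit 0, nat_lit 0, nat_lit 0, nat_lit 0, nat_lit 0, nat_lit 0, nat_lit 0, nat_lit 0, false, false⟩,
 nat_lit 0, nat_lit 0, nat_lit 11896, nat_lit 0, nat_lit 3925, nat_lit 7570, nat_lit 909, nat_lit 0, nat_lit 0, nat_lit 612, nat_lit 0, nat_lit 0, nat_lit 0, nat_lit 0, nat_lit 0, nat_lit 0, nat_lit 0, nat_lit 0, [],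
 ⟨p092_k25, nat_lit 0, nat_lit 0, nat_lit 178, nat_lit 0, nat_lit 0, [nat_lit 2032000001, nat_lit 4688000000, nat_lit 6250000000], [], [nat_lit 30453590050, nat_lit 31729701600, nat_lit 32783780571, nat_lit 33927969201, nat_lit 28326014301, nat_lit 29199352928, nat_lit 29924729558, nat_lit 30756215728], nat_lit 0, nat_lit 0, nat_lit 0, nat_lit 0, nat_lit 0, nat_lit 0, [], [nat_lit 6, nat_lit 40, nat_lit 40, nat_lit 80, nat_lit 3, nat_lit 226, nat_lit 20, nat_lit 7]⟩, ⟨p092_k24, nat_lit 0, nat_lit 0, nat_lit 638, nat_lit 0, nat_lit 1042736, [nat_lit 3282000000, nat_lit 6250000000, nat_lit 9842000000], [], [nat_lit 38035647220, nat_lit 38120546980, nat_lit 39071513301, nat_lit 39144158519, nat_lit 33133297440, nat_lit 33194465968, nat_lit 34063660384, nat_lit 34129460756], nat_lit 1271250, nat_lit 1271250, nat_lit 1271250, nat_lit 1271250, nat_lit 0, nat_lit 1412500, [nat_lit 780000, nat_lit 1435000, nat_lit 1271250],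 [nat_lit 8, nat_lit 40, nat_lit 40, nat_lit 80, nat_lit 1, nat_lit 270, nat_lit 50, nat_lit 7]⟩,
 zbF0, [⟨nat_lit 22, nat_lit 52, nat_lit 100, nat_lit 66, nat_lit 89768306⟩]⟩
noncomputable def p092_l123 : Lf2 := ⟨nat_lit 0, nat_lit 10, [nat_lit 0, nat_lit 5, nat_lit 5, nat_lit 20], false, nat_lit 0, nat_lit 80, nat_lit 0, nat_lit 200, ⟨nat_lit 465, nat_lit 535, nat_lit 0, nat_lit 9, nat_lit 349, nat_lit 535, nat_lit 38, nat_lit 0, nat_lit 0, nat_lit 0, nat_lit 0, nat_lit 0, nat_lit 38053190, nat_lit 28946810, nat_lit 0, nat_lit 3419409, true, true⟩,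
 nat_lit 0, nat_lit 0, nat_lit 4802, nat_lit 0, nat_lit 3278, nat_lit 3122, nat_lit 357, nat_lit 0, nat_lit 0, nat_lit 1310, nat_lit 0, nat_lit 0, nat_lit 0, nat_lit 0, nat_lit 0, nat_lit 272800, nat_lit 0, nat_lit 0, [(nat_lit 21, [(nat_lit 1, nat_lit 437), (nat_lit 2, nat_lit 98)])],
 ⟨p092_k25, nat_lit 0, nat_lit 0, nat_lit 178, nat_lit 0, nat_lit 0, [nat_lit 1674420001, nat_lit 2818122401, nat_lit 3447239600], [], [nat_lit 29295951310, nat_lit 30110353450, nat_lit 30945642960, nat_lit 32009194944, nat_lit 28110779986, nat_lit 28884071602, nat_lit 29546192898, nat_lit 30327321505], nat_lit 0, nat_lit 0, nat_lit 0, nat_lit 0, nat_lit 0, nat_lit 0, [], [nat_lit 6, nat_lit 40, nat_lit 40, nat_lit 80, nat_lit 3, nat_lit 226, nat_lit 20, nat_lit 7]⟩, ⟨p092_k33, nat_lit 0, nat_lit 0, nat_lit 810, nat_lit 0, nat_lit 1444977, [nat_lit 1526130000, nat_lit 2906250000, nat_lit 4576530000], [], [nat_lit 17068443293, nat_lit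 17090249655, nat_lit 17355035078, nat_lit 17373425116, nat_lit 15361006873, nat_lit 15374754519, nat_lit 15577709818, nat_lit 15588667445], nat_lit 1271250, nat_lit 1271250, nat_lit 1271250, nat_lit 1271250, nat_lit 0, nat_lit 1412500, [nat_lit 780000, nat_lit 1435000, nat_lit 1271250], [nat_lit 8, nat_lit 40, nat_lit 40, nat_lit 80, nat_lit 1, nat_lit 313, nat_lit 50, nat_lit 8]⟩,
 ⟨nat_lit 3162, nat_lit 3873, ⟨.ofNat (nat_lit 850703), .ofNat (nat_lit 902323), .ofNat (nat_lit 856147), .ofNat (nat_lit 907772), .ofNat (nat_lit 837968), .ofNat (nat_lit 886733), .ofNat (nat_lit 843501), .ofNat (nat_lit 892272)⟩, ⟨.ofNat (nat_lit 0), .ofNat (nat_lit 175674), .ofNat (nat_lit 0), .ofNat (nat_lit 200000), .ofNat (nat_lit 0), .ofNat (nat_lit 184209), .ofNat (nat_lit 0), .ofNat (nat_lit 200000)⟩⟩, [⟨nat_lit 10, nat_lit 100, nat_lit 45, nat_lit 69, nat_lit 89947358⟩]⟩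
noncomputable def p092_l124 : Lf2 := ⟨nat_lit 0, nat_lit 10, [nat_lit 0, nat_lit 5, nat_lit 5, nat_lit 20], false, nat_lit 0, nat_lit 80, nat_lit 0, nat_lit 260, ⟨nat_lit 710, nat_lit 290, nat_lit 0, nat_lit 8, nat_lit 341, nat_lit 290, nat_lit 38, nat_lit 0, nat_lit 0, nat_lit 0, nat_lit 0, nat_lit 0, nat_lit 38813754, nat_lit 28186246, nat_lit 0, nat_lit 3402568, true, true⟩,
 nat_lit 0, nat_lit 0, nat_lit 6643, nat_lit 0, nat_lit 4061, nat_lit 4411, nat_lit 687, nat_lit 0, nat_lit 0, nat_lit 1714, nat_lit 0, nat_lit 0, nat_lit 0, nat_lit 0, nat_lit 0, nat_lit 290000, nat_lit 0, nat_lit 0, [(nat_lit 21, [(nat_lit 2, nat_lit 290)])],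
 ⟨p092_k34, nat_lit 0, nat_lit 0, nat_lit 185, nat_lit 0, nat_lit 0, [nat_lit 1880330000, nat_lit 4108988000], [], [nat_lit 28033454448, nat_lit 29502640900, nat_lit 33466533133, nat_lit 34610748570, nat_lit 25508536988, nat_lit 26376669184, nat_lit 30165903878, nat_lit 31272590552], nat_lit 0, nat_lit 0, nat_lit 0, nat_lit 0, nat_lit 0, nat_lit 0, [], [nat_lit 69, nat_lit 40, nat_lit 40, nat_lit 80, nat_lit 64, nat_lit 226, nat_lit 20, nat_lit 7]⟩, ⟨p092_k29, nat_lit 0, nat_lit 0, nat_lit 762, nat_lit 0, nat_lit 1470458, [nat_lit 2330220000, nat_lit 5657280000], [], [nat_lit 24327893768, nat_lit 24430054854, nat_lit 25867825391, nat_lit 26298815075, nat_lit 22398403241, nat_lit 22459672336, nat_lit 23202336186, nat_lit 23251805319], nat_lit 1271250, nat_lit 1271250, nat_lit 1271250, nat_lit 1271250, nat_lit 0, nat_lit 1836250, [nat_lit 780000, nat_lit 1762500], [nat_lit 74, nat_lit 40, nat_lit 40, nat_lit 80, nat_lit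 43, nat_lit 310, nat_lit 75, nat_lit 9]⟩,
 ⟨nat_lit 3162, nat_lit 3873, ⟨.ofNat (nat_lit 791601), .ofNat (nat_lit 914224), .ofNat (nat_lit 802484), .ofNat (nat_lit 925121), .ofNat (nat_lit 782524), .ofNat (nat_lit 898367), .ofNat (nat_lit 793588), .ofNat (nat_lit 909444)⟩, ⟨.ofNat (nat_lit 0), .ofNat (nat_lit 175674), .ofNat (nat_lit 0), .ofNat (nat_lit 200000), .ofNat (nat_lit 0), .ofNat (nat_lit 184209), .ofNat (nat_lit 0), .ofNat (nat_lit 200000)⟩⟩, [⟨nat_lit 22, nat_lit 64, nat_lit 100, nat_lit 62, nat_lit 159016768⟩]⟩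
noncomputable def p092_l125 : Lf2 := ⟨nat_lit 0, nat_lit 10, [nat_lit 0, nat_lit 5, nat_lit 5, nat_lit 20], false, nat_lit 0, nat_lit 80, nat_lit 0, nat_lit 320, ⟨nat_lit 420, nat_lit 580, nat_lit 0, nat_lit 7, nat_lit 301, nat_lit 580, nat_lit 37, nat_lit 0, nat_lit 0, nat_lit 0, nat_lit 0, nat_lit 0, nat_lit 42811803, nat_lit 24188197, nat_lit 0, nat_lit 3270007, true, false⟩,
 nat_lit 0, nat_lit 0, nat_lit 3706, nat_lit 0, nat_lit 4725, nat_lit 2565, nat_lit 0, nat_lit 0, nat_lit 0, nat_lit 784, nat_lit 0, nat_lit 0, nat_lit 0, nat_lit 0, nat_lit 0, nat_lit 580000, nat_lit 0, nat_lit 0, [(nat_lit 18, [(nat_lit 2, nat_lit 580)])],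
 ⟨p092_k21, nat_lit 0, nat_lit 0, nat_lit 134, nat_lit 0, nat_lit 0, [nat_lit 2177000001, nat_lit 2505260000], [], [nat_lit 23036798400, nat_lit 24604633100, nat_lit 27909423100, nat_lit 29499810800, nat_lit 20675404002, nat_lit 21980228552, nat_lit 24549866500, nat_lit 25769113850], nat_lit 0, nat_lit 0, nat_lit 0, nat_lit 0, nat_lit 0, nat_lit 0, [], [nat_lit 69, nat_lit 40, nat_lit 40, nat_lit 80, nat_lit 64, nat_lit 226, nat_lit 20, nat_lit 8]⟩, ⟨p092_k35, nat_lit 0, nat_lit 0, nat_lit 696, nat_lit 0, nat_lit 1290027, [nat_lit 1378440000, nat_lit 3346560000], [], [nat_lit 11957867650, nat_lit 12196740100, nat_lit 12715679920, nat_lit 12913445340, nat_lit 12071723280, nat_lit 12242695800, nat_lit 12596091150, nat_lit 12738551640], nat_lit 1271250, nat_lit 1271250, nat_lit 1271250, nat_lit 1271250, nat_lit 0, nat_lit 2260000, [nat_lit 780000, nat_lit 1762500], [nat_lit 74, nat_lit 40, nat_lit 40, nat_lit 80, nat_lit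 43, nat_lit 317, nat_lit 100, nat_lit 10]⟩,
 ⟨nat_lit 3872, nat_lit 4473, ⟨.ofNat (nat_lit 675730), .ofNat (nat_lit 811702), .ofNat (nat_lit 697279), .ofNat (nat_lit 833251), .ofNat (nat_lit 673407), .ofNat (nat_lit 802466), .ofNat (nat_lit 695183), .ofNat (nat_lit 824242)⟩, ⟨.ofNat (nat_lit 0), .ofNat (nat_lit 166665), .ofNat (nat_lit 0), .ofNat (nat_lit 200000), .ofNat (nat_lit 0), .ofNat (nat_lit 175674), .ofNat (nat_lit 0), .ofNat (nat_lit 200000)⟩⟩, [⟨nat_lit 22, nat_lit 94, nat_lit 100, nat_lit 62, nat_lit 128959648⟩]⟩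
noncomputable def p092_l126 : Lf2 := ⟨nat_lit 0, nat_lit 10, [nat_lit 0, nat_lit 5, nat_lit 5, nat_lit 20], false, nat_lit 0, nat_lit 80, nat_lit 0, nat_lit 320, ⟨nat_lit 290, nat_lit 710, nat_lit 0, nat_lit 7, nat_lit 298, nat_lit 710, nat_lit 38, nat_lit 0, nat_lit 0, nat_lit 0, nat_lit 0, nat_lit 0, nat_lit 43035011, nat_lit 23964989, nat_lit 0, nat_lit 3260376, true, false⟩,
 nat_lit 0, nat_lit 0, nat_lit 2614, nat_lit 0, nat_lit 3710, nat_lit 1809, nat_lit 0, nat_lit 0, nat_lit 0, nat_lit 471, nat_lit 0, nat_lit 0, nat_lit 0, nat_lit 0, nat_lit 0, nat_lit 495800, nat_lit 0, nat_lit 0, [(nat_lit 21, [(nat_lit 1, nat_lit 357), (nat_lit 2, nat_lit 353)])],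
 ⟨p092_k34, nat_lit 0, nat_lit 0, nat_lit 140, nat_lit 0, nat_lit 0, [nat_lit 1605763400, nat_lit 1945265600], [], [nat_lit 23682084760, nat_lit 25064284080, nat_lit 27390371520, nat_lit 28663435000, nat_lit 22213246180, nat_lit 23371425560, nat_lit 25426666000, nat_lit 26447578720], nat_lit 0, nat_lit 0, nat_lit 0, nat_lit 0, nat_lit 0, nat_lit 0, [], [nat_lit 69, nat_lit 40, nat_lit 40, nat_lit 80, nat_lit 64, nat_lit 226, nat_lit 20, nat_lit 8]⟩, ⟨p092_k35, nat_lit 0, nat_lit 0, nat_lit 797, nat_lit 0, nat_lit 1527098, [nat_lit 951780000, nat_lit 2310720000], [], [nat_lit 8769122560, nat_lit 8884199898, nat_lit 9120315054, nat_lit 9213166614, nat_lit 8428647311, nat_lit 8508359865, nat_lit 8713534778, nat_lit 8826290744], nat_lit 1271250, nat_lit 1271250, nat_lit 1271250, nat_lit 1271250, nat_lit 0, nat_lit 2260000, [nat_lit 780000, nat_lit 1762500], [nat_lit 74, nat_lit 40, nat_lit 40, nat_lit 80, nat_lit 43,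 nat_lit 320, nat_lit 100, nat_lit 10]⟩,
 ⟨nat_lit 3162, nat_lit 3873, ⟨.ofNat (nat_lit 673376), .ofNat (nat_lit 802484), .ofNat (nat_lit 695141), .ofNat (nat_lit 824248), .ofNat (nat_lit 671616), .ofNat (nat_lit 793588), .ofNat (nat_lit 693742), .ofNat (nat_lit 815713)⟩, ⟨.ofNat (nat_lit 0), .ofNat (nat_lit 175674), .ofNat (nat_lit 0), .ofNat (nat_lit 200000), .ofNat (nat_lit 0), .ofNat (nat_lit 184209), .ofNat (nat_lit 0), .ofNat (nat_lit 200000)⟩⟩, [⟨nat_lit 22, nat_lit 94, nat_lit 100, nat_lit 62, nat_lit 82183508⟩]⟩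
noncomputable def p092_l127 : Lf2 := ⟨nat_lit 0, nat_lit 10, [nat_lit 0, nat_lit 5, nat_lit 5, nat_lit 20], false, nat_lit 0, nat_lit 80, nat_lit 0, nat_lit 260, ⟨nat_lit 534, nat_lit 466, nat_lit 0, nat_lit 8, nat_lit 354, nat_lit 466, nat_lit 37, nat_lit 0, nat_lit 0, nat_lit 0, nat_lit 0, nat_lit 0, nat_lit 37603229, nat_lit 29396771, nat_lit 0, nat_lit 3428134, true, true⟩,
 nat_lit 0, nat_lit 0, nat_lit 4255, nat_lit 0, nat_lit 4798, nat_lit 2945, nat_lit 0, nat_lit 0, nat_lit 0, nat_lit 936, nat_lit 0, nat_lit 0, nat_lit 0, nat_lit 0, nat_lit 0, nat_lit 466000, nat_lit 0, nat_lit 0, [(nat_lit 18, [(nat_lit 2, nat_lit 466)])],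
 ⟨p092_k21, nat_lit 0, nat_lit 0, nat_lit 180, nat_lit 0, nat_lit 0, [nat_lit 2148500001, nat_lit 3195302000], [], [nat_lit 28988497784, nat_lit 30027049680, nat_lit 34697561288, nat_lit 35912017152, nat_lit 26665937169, nat_lit 27592385385, nat_lit 30700169256, nat_lit 31812973348], nat_lit 0, nat_lit 0, nat_lit 0, nat_lit 0, nat_lit 0, nat_lit 0, [], [nat_lit 69, nat_lit 40, nat_lit 40, nat_lit 80, nat_lit 64, nat_lit 226, nat_lit 20, nat_lit 7]⟩, ⟨p092_k35, nat_lit 0, nat_lit 0, nat_lit 682, nat_lit 0, nat_lit 1290027, [nat_lit 1752588000, nat_lit 4254912000], [], [nat_lit 18290693776, nat_lit 18488031908, nat_lit 19429203980, nat_lit 19622207460, nat_lit 17561239613, nat_lit 17767141941, nat_lit 18621488969, nat_lit 18782740392], nat_lit 1271250, nat_lit 1271250, nat_lit 1271250, nat_lit 1271250, nat_lit 0, nat_lit 1836250, [nat_lit 780000, nat_lit 1762500], [nat_lit 74, nat_lit 40, nat_lit 40, nat_lit 80, nat_lit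 43, nat_lit 293, nat_lit 75, nat_lit 9]⟩,
 ⟨nat_lit 3872, nat_lit 4473, ⟨.ofNat (nat_lit 811702), .ofNat (nat_lit 947674), .ofNat (nat_lit 833251), .ofNat (nat_lit 969223), .ofNat (nat_lit 802466), .ofNat (nat_lit 931525), .ofNat (nat_lit 824242), .ofNat (nat_lit 953301)⟩, ⟨.ofNat (nat_lit 0), .ofNat (nat_lit 166665), .ofNat (nat_lit 0), .ofNat (nat_lit 200000), .ofNat (nat_lit 0), .ofNat (nat_lit 175674), .ofNat (nat_lit 0), .ofNat (nat_lit 200000)⟩⟩, [⟨nat_lit 22, nat_lit 63, nat_lit 100, nat_lit 62, nat_lit 192168962⟩]⟩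
noncomputable def p092_l128 : Lf2 := ⟨nat_lit 0, nat_lit 10, [nat_lit 0, nat_lit 5, nat_lit 5, nat_lit 20], false, nat_lit 0, nat_lit 80, nat_lit 0, nat_lit 260, ⟨nat_lit 657, nat_lit 343, nat_lit 0, nat_lit 8, nat_lit 349, nat_lit 343, nat_lit 38, nat_lit 0, nat_lit 0, nat_lit 0, nat_lit 0, nat_lit 0, nat_lit 38068509, nat_lit 28931491, nat_lit 0, nat_lit 3419095, true, true⟩,
 nat_lit 0, nat_lit 0, nat_lit 5672, nat_lit 0, nat_lit 3766, nat_lit 3926, nat_lit 1048, nat_lit 0, nat_lit 0, nat_lit 1045, nat_lit 0, nat_lit 0, nat_lit 0, nat_lit 0, nat_lit 0, nat_lit 137200, nat_lit 0, nat_lit 0, [(nat_lit 21, [(nat_lit 1, nat_lit 343)])],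
 ⟨p092_k34, nat_lit 0, nat_lit 0, nat_lit 187, nat_lit 0, nat_lit 0, [nat_lit 1799857601, nat_lit 4618006000], [], [nat_lit 27381985888, nat_lit 28797325400, nat_lit 32902680384, nat_lit 33995083672, nat_lit 25016222559, nat_lit 25966216124, nat_lit 29904056116, nat_lit 30961438976], nat_lit 0, nat_lit 0, nat_lit 0, nat_lit 0, nat_lit 0, nat_lit 0, [], [nat_lit 69, nat_lit 40, nat_lit 40, nat_lit 80, nat_lit 64, nat_lit 226, nat_lit 20, nat_lit 7]⟩, ⟨p092_k35, nat_lit 0, nat_lit 0, nat_lit 780, nat_lit 0, nat_lit 1527098, [nat_lit 2156274000, nat_lit 5234976000], [], [nat_lit 22513214021, nat_lit 22745288311, nat_lit 24193110176, nat_lit 24960960752, nat_lit 21298152515, nat_lit 21445667989, nat_lit 22287650555, nat_lit 22432232466], nat_lit 1271250, nat_lit 1271250, nat_lit 1271250, nat_lit 1271250, nat_lit 0, nat_lit 1836250, [nat_lit 780000, nat_lit 1762500], [nat_lit 74, nat_lit 40, nat_lit 40, nat_lit 80, nat_lit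 43, nat_lit 318, nat_lit 75, nat_lit 10]⟩,
 ⟨nat_lit 3162, nat_lit 3873, ⟨.ofNat (nat_lit 802484), .ofNat (nat_lit 931573), .ofNat (nat_lit 824248), .ofNat (nat_lit 953347), .ofNat (nat_lit 793588), .ofNat (nat_lit 915540), .ofNat (nat_lit 815713), .ofNat (nat_lit 937676)⟩, ⟨.ofNat (nat_lit 0), .ofNat (nat_lit 175674), .ofNat (nat_lit 0), .ofNat (nat_lit 200000), .ofNat (nat_lit 0), .ofNat (nat_lit 184209), .ofNat (nat_lit 0), .ofNat (nat_lit 200000)⟩⟩, [⟨nat_lit 10, nat_lit 100, nat_lit 58, nat_lit 64, nat_lit 15172299⟩, ⟨nat_lit 22, nat_lit 63, nat_lit 100, nat_lit 62, nat_lit 148584241⟩]⟩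
noncomputable def b_V_800_700_20_2 : St := ⟨true, nat_lit 0, nat_lit 1, nat_lit 1, nat_lit 120, nat_lit 320, nat_lit 360, nat_lit 280, nat_lit 320, nat_lit 240, nat_lit 400, nat_lit 80, nat_lit 120, nat_lit 0, nat_lit 80, nat_lit 0, nat_lit 336, nat_lit 0, nat_lit 40, nat_lit 0, nat_lit 0, nat_lit 0, nat_lit 0⟩
theorem d_V_800_700_20_2 (h : EB TB.env) : Dead b_V_800_700_20_2 := chkB_sound0 h (T :=
(.spl (nat_lit 1) (nat_lit 300)
(.spl (nat_lit 2) (nat_lit 320)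
(.spl (nat_lit 0) (nat_lit 340)
(.spl (nat_lit 0) (nat_lit 330)
(.leaf p092_l112)
(.leaf p092_l113))
(.spl (nat_lit 2) (nat_lit 280)
(.leaf p092_l114)
(.trX (nat_lit 22) (nat_lit 100) (nat_lit 95) (nat_lit 87) (nat_lit 300) (.leaf p092_l115))))
(.trX (nat_lit 22) (nat_lit 83) (nat_lit 100) (nat_lit 83) (nat_lit 260) (.spl (nat_lit 0) (nat_lit 340)
(.spl (nat_lit 1) (nat_lit 290)
(.spl (nat_lit 0) (nat_lit 330)
(.leaf p092_l116)
(.trX (nat_lit 13) (nat_lit 85) (nat_lit 27) (nat_lit 100) (nat_lit 396) (.leaf p092_l117)))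
(.leaf p092_l118))
(.trX (nat_lit 13) (nat_lit 82) (nat_lit 29) (nat_lit 100) (nat_lit 396) (.spl (nat_lit 1) (nat_lit 290)
(.trX (nat_lit 13) (nat_lit 80) (nat_lit 34) (nat_lit 100) (nat_lit 392) (.spl (nat_lit 2) (nat_lit 360)
(.leaf p092_l119)
(.trX (nat_lit 22) (nat_lit 60) (nat_lit 100) (nat_lit 80) (nat_lit 200) (.spl (nat_lit 1) (nat_lit 285)
(.spl (nat_lit 6) (nat_lit 20)
(.spl (nat_lit 0) (nat_lit 350)
(.leaf p092_l120)
(.trX (nat_lit 13) (nat_lit 73) (nat_lit 44) (nat_lit 100) (nat_lit 384) (.trZ (nat_lit 3) (nat_lit 100) (nat_lit 83) (nat_lit 25) (nat_lit 4) (.leaf p092_l121))))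
(.leaf p092_l122))
(.leaf p092_l123)))))
(.leaf p092_l124))))))
(.trX (nat_lit 19) (nat_lit 94) (nat_lit 88) (nat_lit 100) (nat_lit 320) (.spl (nat_lit 2) (nat_lit 320)
(.spl (nat_lit 0) (nat_lit 340)
(.leaf p092_l125)
(.leaf p092_l126))
(.trX (nat_lit 22) (nat_lit 83) (nat_lit 100) (nat_lit 83) (nat_lit 260) (.spl (nat_lit 0) (nat_lit 340)
(.leaf p092_l127)
(.leaf p092_l128))))))) (by decide +kernel)
noncomputable def p092_l129 : Lf2 := ⟨nat_lit 0, nat_lit 10, [nat_lit 0, nat_lit 5, nat_lit 5, nat_lit 20], false, nat_lit 80, nat_lit 160, nat_lit 0, nat_lit 336, ⟨nat_lit 128, nat_lit 872, nat_lit 0, nat_lit 7, nat_lit 291, nat_lit 872, nat_lit 103, nat_lit 0, nat_lit 0, nat_lit 0, nat_lit 0, nat_lit 0, nat_lit 40675293, nat_lit 22060121, nat_lit 4264586, nat_lit 4466333, true, false⟩,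
 nat_lit 0, nat_lit 0, nat_lit 1641, nat_lit 0, nat_lit 4000, nat_lit 1044, nat_lit 0, nat_lit 0, nat_lit 0, nat_lit 69, nat_lit 0, nat_lit 0, nat_lit 0, nat_lit 0, nat_lit 0, nat_lit 529400, nat_lit 0, nat_lit 0, [(nat_lit 18, [(nat_lit 1, nat_lit 571), (nat_lit 2, nat_lit 301)]), (nat_lit 21, [(nat_lit 1, nat_lit 571), (nat_lit 2, nat_lit 301)])],
 ⟨p092_k23, nat_lit 0, nat_lit 0, nat_lit 95, nat_lit 0, nat_lit 0, [nat_lit 1570692001, nat_lit 2037676001, nat_lit 1786213600], [], [nat_lit 20150013600, nat_lit 22863581600, nat_lit 24028933600, nat_lit 26283037600, nat_lit 20769013600, nat_lit 23215617600, nat_lit 24274493600, nat_lit 26318569600], nat_lit 0, nat_lit 0, nat_lit 0, nat_lit 0, nat_lit 0, nat_lit 0, [], [nat_lit 6, nat_lit 40, nat_lit 40, nat_lit 80, nat_lit 3, nat_lit 249, nat_lit 40, nat_lit 8]⟩, ⟨p092_k24, nat_lit 0, nat_lit 0, nat_lit 892, nat_lit 0, nat_lit 1563961, [nat_lit 420096000, nat_lit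 800000000, nat_lit 1259776000], [], [nat_lit 4642257993, nat_lit 4675052001, nat_lit 4729610169, nat_lit 4752348337, nat_lit 4066134250, nat_lit 4080228967, nat_lit 4086959274, nat_lit 4101188874], nat_lit 1271250, nat_lit 1271250, nat_lit 1271250, nat_lit 1271250, nat_lit 0, nat_lit 2373000, [nat_lit 780000, nat_lit 1435000, nat_lit 1271250], [nat_lit 8, nat_lit 40, nat_lit 40, nat_lit 80, nat_lit 1, nat_lit 401, nat_lit 175, nat_lit 11]⟩,
 ⟨nat_lit 3162, nat_lit 4473, ⟨.ofNat (nat_lit 653959), .ofNat (nat_lit 790054), .ofNat (nat_lit 675435), .ofNat (nat_lit 811546), .ofNat (nat_lit 649288), .ofNat (nat_lit 771333), .ofNat (nat_lit 671352), .ofNat (nat_lit 793414)⟩, ⟨.ofNat (nat_lit 166665), .ofNat (nat_lit 302621), .ofNat (nat_lit 200000), .ofNat (nat_lit 345754), .ofNat (nat_lit 184209), .ofNat (nat_lit 306116), .ofNat (nat_lit 200000), .ofNat (nat_lit 350426)⟩⟩, [⟨nat_lit 10, nat_lit 80, nat_lit 100, nat_lit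 100, nat_lit 14453917⟩]⟩
noncomputable def p092_l130 : Lf2 := ⟨nat_lit 0, nat_lit 10, [nat_lit 0, nat_lit 5, nat_lit 5, nat_lit 20], false, nat_lit 80, nat_lit 160, nat_lit 0, nat_lit 336, ⟨nat_lit 168, nat_lit 832, nat_lit 0, nat_lit 8, nat_lit 332, nat_lit 832, nat_lit 102, nat_lit 0, nat_lit 0, nat_lit 0, nat_lit 0, nat_lit 0, nat_lit 37129226, nat_lit 25892852, nat_lit 3977922, nat_lit 4552248, true, true⟩,
 nat_lit 0, nat_lit 0, nat_lit 2040, nat_lit 0, nat_lit 3634, nat_lit 1298, nat_lit 10, nat_lit 0, nat_lit 0, nat_lit 85, nat_lit 0, nat_lit 0, nat_lit 0, nat_lit 0, nat_lit 0, nat_lit 642400, nat_lit 0, nat_lit 0, [(nat_lit 18, [(nat_lit 1, nat_lit 316), (nat_lit 2, nat_lit 516)])],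
 ⟨p092_k23, nat_lit 0, nat_lit 0, nat_lit 106, nat_lit 0, nat_lit 0, [nat_lit 1661349334, nat_lit 1948442667, nat_lit 1440921600], [], [nat_lit 23819995766, nat_lit 24844143582, nat_lit 25904673248, nat_lit 26973914800, nat_lit 24259982974, nat_lit 25191056106, nat_lit 26122129238, nat_lit 26966125658], nat_lit 0, nat_lit 0, nat_lit 0, nat_lit 0, nat_lit 0, nat_lit 0, [], [nat_lit 6, nat_lit 40, nat_lit 40, nat_lit 80, nat_lit 3, nat_lit 249, nat_lit 40, nat_lit 8]⟩, ⟨p092_k24, nat_lit 0, nat_lit 0, nat_lit 749, nat_lit 0, nat_lit 1281160, [nat_lit 551376000, nat_lit 1050000000, nat_lit 1653456000], [], [nat_lit 6439051529, nat_lit 6486452769, nat_lit 6580261705, nat_lit 6619389465, nat_lit 5695715632, nat_lit 5709488036, nat_lit 5759231389, nat_lit 5767609140], nat_lit 1271250, nat_lit 1271250, nat_lit 1271250, nat_lit 1271250, nat_lit 0, nat_lit 2373000, [nat_lit 780000, nat_lit 1435000, nat_lit 1271250], [nat_lit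 8, nat_lit 40, nat_lit 40, nat_lit 80, nat_lit 1, nat_lit 317, nat_lit 100, nat_lit 8]⟩,
 ⟨nat_lit 3872, nat_lit 4473, ⟨.ofNat (nat_lit 790153), .ofNat (nat_lit 858139), .ofNat (nat_lit 811702), .ofNat (nat_lit 879688), .ofNat (nat_lit 780691), .ofNat (nat_lit 845220), .ofNat (nat_lit 802466), .ofNat (nat_lit 866995)⟩, ⟨.ofNat (nat_lit 166665), .ofNat (nat_lit 302621), .ofNat (nat_lit 200000), .ofNat (nat_lit 345754), .ofNat (nat_lit 175674), .ofNat (nat_lit 304717), .ofNat (nat_lit 200000), .ofNat (nat_lit 348304)⟩⟩, [⟨nat_lit 7, nat_lit 94, nat_lit 100, nat_lit 97, nat_lit 17429128⟩, ⟨nat_lit 22, nat_lit 77, nat_lit 100, nat_lit 99, nat_lit 2799597⟩]⟩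
noncomputable def p092_l131 : Lf2 := ⟨nat_lit 0, nat_lit 10, [nat_lit 0, nat_lit 5, nat_lit 5, nat_lit 20], false, nat_lit 80, nat_lit 160, nat_lit 0, nat_lit 336, ⟨nat_lit 124, nat_lit 876, nat_lit 0, nat_lit 8, nat_lit 327, nat_lit 876, nat_lit 103, nat_lit 0, nat_lit 0, nat_lit 0, nat_lit 0, nat_lit 0, nat_lit 37452678, nat_lit 25468265, nat_lit 4079057, nat_lit 4560477, true, true⟩,
 nat_lit 0, nat_lit 0, nat_lit 1532, nat_lit 0, nat_lit 3407, nat_lit 974, nat_lit 221, nat_lit 0, nat_lit 0, nat_lit 57, nat_lit 0, nat_lit 0, nat_lit 0, nat_lit 0, nat_lit 0, nat_lit 254250, nat_lit 0, nat_lit 0, [(nat_lit 21, [(nat_lit 0, nat_lit 641), (nat_lit 1, nat_lit 235)])],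
 ⟨p092_k25, nat_lit 0, nat_lit 0, nat_lit 114, nat_lit 0, nat_lit 0, [nat_lit 1569374400, nat_lit 2307706001, nat_lit 2501206000], [], [nat_lit 24797783079, nat_lit 25795162147, nat_lit 26698192449, nat_lit 27788281924, nat_lit 25220040081, nat_lit 26128277467, nat_lit 26953403377, nat_lit 27779296846], nat_lit 0, nat_lit 0, nat_lit 0, nat_lit 0, nat_lit 0, nat_lit 0, [], [nat_lit 6, nat_lit 40, nat_lit 40, nat_lit 80, nat_lit 3, nat_lit 249, nat_lit 40, nat_lit 8]⟩, ⟨p092_k24, nat_lit 0, nat_lit 0, nat_lit 876, nat_lit 0, nat_lit 1563961, [nat_lit 406968000, nat_lit 775000000, nat_lit 1220408000], [], [nat_lit 4867625733, nat_lit 4890355161, nat_lit 4943108301, nat_lit 4960843101, nat_lit 4251127047, nat_lit 4253251885, nat_lit 4279087374, nat_lit 4277881417], nat_lit 1271250, nat_lit 1271250, nat_lit 1271250, nat_lit 1271250, nat_lit 0, nat_lit 2373000, [nat_lit 780000, nat_lit 1435000, nat_lit 1271250], [nat_lit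 8, nat_lit 40, nat_lit 40, nat_lit 80, nat_lit 1, nat_lit 344, nat_lit 100, nat_lit 9]⟩,
 ⟨nat_lit 3162, nat_lit 3873, ⟨.ofNat (nat_lit 780717), .ofNat (nat_lit 845258), .ofNat (nat_lit 802484), .ofNat (nat_lit 867032), .ofNat (nat_lit 771459), .ofNat (nat_lit 832432), .ofNat (nat_lit 793588), .ofNat (nat_lit 854567)⟩, ⟨.ofNat (nat_lit 175674), .ofNat (nat_lit 304717), .ofNat (nat_lit 200000), .ofNat (nat_lit 348304), .ofNat (nat_lit 184209), .ofNat (nat_lit 306116), .ofNat (nat_lit 200000), .ofNat (nat_lit 350426)⟩⟩, [⟨nat_lit 22, nat_lit 77, nat_lit 100, nat_lit 99, nat_lit 17379969⟩]⟩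
noncomputable def p092_l132 : Lf2 := ⟨nat_lit 0, nat_lit 10, [nat_lit 0, nat_lit 5, nat_lit 5, nat_lit 20], false, nat_lit 80, nat_lit 160, nat_lit 8, nat_lit 288, ⟨nat_lit 153, nat_lit 847, nat_lit 0, nat_lit 9, nat_lit 358, nat_lit 847, nat_lit 102, nat_lit 0, nat_lit 0, nat_lit 0, nat_lit 0, nat_lit 0, nat_lit 34944570, nat_lit 28247479, nat_lit 3807951, nat_lit 4569794, true, true⟩,
 nat_lit 0, nat_lit 0, nat_lit 1843, nat_lit 0, nat_lit 3517, nat_lit 1172, nat_lit 0, nat_lit 0, nat_lit 0, nat_lit 77, nat_lit 0, nat_lit 0, nat_lit 0, nat_lit 0, nat_lit 0, nat_lit 574000, nat_lit 0, nat_lit 0, [(nat_lit 18, [(nat_lit 1, nat_lit 455), (nat_lit 2, nat_lit 392)])],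
 ⟨p092_k23, nat_lit 0, nat_lit 0, nat_lit 124, nat_lit 0, nat_lit 0, [nat_lit 1614178401, nat_lit 2021868000, nat_lit 1674679600], [], [nat_lit 26188537433, nat_lit 27140933012, nat_lit 28451251564, nat_lit 29443474342, nat_lit 26536311954, nat_lit 27374374884, nat_lit 28500929570, nat_lit 29255600508], nat_lit 0, nat_lit 0, nat_lit 0, nat_lit 0, nat_lit 0, nat_lit 0, [], [nat_lit 6, nat_lit 40, nat_lit 40, nat_lit 80, nat_lit 3, nat_lit 249, nat_lit 40, nat_lit 8]⟩, ⟨p092_k24, nat_lit 0, nat_lit 0, nat_lit 741, nat_lit 0, nat_lit 1281160, [nat_lit 502146000, nat_lit 956250000, nat_lit 1505826000], [], [nat_lit 5997212233, nat_lit 6032654688, nat_lit 6149135734, nat_lit 6223583160, nat_lit 5272825309, nat_lit 5286178594, nat_lit 5365318660, nat_lit 5373221894], nat_lit 1271250, nat_lit 1271250, nat_lit 1271250, nat_lit 1271250, nat_lit 43600, nat_lit 2042100, [nat_lit 780000, nat_lit 1435000, nat_lit 1271250], [nat_lit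 8, nat_lit 40, nat_lit 40, nat_lit 80, nat_lit 1, nat_lit 309, nat_lit 75, nat_lit 8]⟩,
 ⟨nat_lit 3872, nat_lit 4473, ⟨.ofNat (nat_lit 858139), .ofNat (nat_lit 926124), .ofNat (nat_lit 879688), .ofNat (nat_lit 947674), .ofNat (nat_lit 845220), .ofNat (nat_lit 909748), .ofNat (nat_lit 866995), .ofNat (nat_lit 931525)⟩, ⟨.ofNat (nat_lit 166665), .ofNat (nat_lit 302621), .ofNat (nat_lit 200000), .ofNat (nat_lit 345754), .ofNat (nat_lit 175674), .ofNat (nat_lit 304717), .ofNat (nat_lit 200000), .ofNat (nat_lit 348304)⟩⟩, [⟨nat_lit 13, nat_lit 85, nat_lit 27, nat_lit 100, nat_lit 86870154⟩, ⟨nat_lit 10, nat_lit 100, nat_lit 15, nat_lit 95, nat_lit 82032274⟩]⟩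
noncomputable def p092_l133 : Lf2 := ⟨nat_lit 0, nat_lit 10, [nat_lit 0, nat_lit 5, nat_lit 5, nat_lit 20], false, nat_lit 80, nat_lit 160, nat_lit 8, nat_lit 288, ⟨nat_lit 127, nat_lit 873, nat_lit 0, nat_lit 9, nat_lit 351, nat_lit 873, nat_lit 103, nat_lit 0, nat_lit 0, nat_lit 0, nat_lit 0, nat_lit 0, nat_lit 35471496, nat_lit 27604444, nat_lit 3924060, nat_lit 4581807, true, true⟩,
 nat_lit 0, nat_lit 0, nat_lit 1559, nat_lit 0, nat_lit 3165, nat_lit 991, nat_lit 135, nat_lit 0, nat_lit 0, nat_lit 61, nat_lit 0, nat_lit 0, nat_lit 0, nat_lit 0, nat_lit 0, nat_lit 349200, nat_lit 0, nat_lit 0, [(nat_lit 21, [(nat_lit 1, nat_lit 873)])],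
 ⟨p092_k25, nat_lit 0, nat_lit 0, nat_lit 128, nat_lit 0, nat_lit 0, [nat_lit 1441153600, nat_lit 1898590400, nat_lit 2096266000], [], [nat_lit 26826584755, nat_lit 27705902445, nat_lit 28625788520, nat_lit 29542221375, nat_lit 27169906915, nat_lit 27974915365, nat_lit 28793175148, nat_lit 29527644577], nat_lit 0, nat_lit 0, nat_lit 0, nat_lit 0, nat_lit 0, nat_lit 0, [], [nat_lit 6, nat_lit 40, nat_lit 40, nat_lit 80, nat_lit 3, nat_lit 249, nat_lit 40, nat_lit 8]⟩, ⟨p092_k24, nat_lit 0, nat_lit 0, nat_lit 865, nat_lit 0, nat_lit 1563961, [nat_lit 416814000, nat_lit 793750000, nat_lit 1249934000], [], [nat_lit 5046129640, nat_lit 5064205379, nat_lit 5131938626, nat_lit 5150730720, nat_lit 4402371554, nat_lit 4405135071, nat_lit 4451236329, nat_lit 4450814721], nat_lit 1271250, nat_lit 1271250, nat_lit 1271250, nat_lit 1271250, nat_lit 43600, nat_lit 2042100, [nat_lit 780000, nat_lit 1435000, nat_lit 1271250], [nat_lit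 8, nat_lit 40, nat_lit 40, nat_lit 80, nat_lit 1, nat_lit 340, nat_lit 75, nat_lit 9]⟩,
 ⟨nat_lit 3162, nat_lit 3873, ⟨.ofNat (nat_lit 845258), .ofNat (nat_lit 903327), .ofNat (nat_lit 867032), .ofNat (nat_lit 925121), .ofNat (nat_lit 832432), .ofNat (nat_lit 887290), .ofNat (nat_lit 854567), .ofNat (nat_lit 909444)⟩, ⟨.ofNat (nat_lit 175674), .ofNat (nat_lit 304717), .ofNat (nat_lit 200000), .ofNat (nat_lit 348304), .ofNat (nat_lit 184209), .ofNat (nat_lit 306116), .ofNat (nat_lit 200000), .ofNat (nat_lit 350426)⟩⟩, [⟨nat_lit 13, nat_lit 74, nat_lit 42, nat_lit 100, nat_lit 181632844⟩, ⟨nat_lit 22, nat_lit 46, nat_lit 100, nat_lit 92, nat_lit 22589725⟩]⟩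
noncomputable def p092_l134 : Lf2 := ⟨nat_lit 0, nat_lit 10, [nat_lit 0, nat_lit 5, nat_lit 5, nat_lit 20], false, nat_lit 80, nat_lit 160, nat_lit 0, nat_lit 160, ⟨nat_lit 372, nat_lit 628, nat_lit 0, nat_lit 7, nat_lit 325, nat_lit 628, nat_lit 103, nat_lit 0, nat_lit 0, nat_lit 0, nat_lit 0, nat_lit 0, nat_lit 37651720, nat_lit 25295341, nat_lit 4052939, nat_lit 4549942, true, true⟩,
 nat_lit 0, nat_lit 0, nat_lit 3246, nat_lit 0, nat_lit 3731, nat_lit 2247, nat_lit 0, nat_lit 0, nat_lit 0, nat_lit 599, nat_lit 0, nat_lit 0, nat_lit 0, nat_lit 0, nat_lit 0, nat_lit 628000, nat_lit 0, nat_lit 0, [(nat_lit 18, [(nat_lit 2, nat_lit 628)]), (nat_lit 21, [(nat_lit 2, nat_lit 628)])],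
 ⟨p092_k23, nat_lit 0, nat_lit 0, nat_lit 129, nat_lit 0, nat_lit 0, [nat_lit 1824676267, nat_lit 2400405334, nat_lit 2046670400], [], [nat_lit 20936258227, nat_lit 23407131599, nat_lit 28880870852, nat_lit 30892701216, nat_lit 21783989360, nat_lit 24019326888, nat_lit 28970710892, nat_lit 30509205560], nat_lit 0, nat_lit 0, nat_lit 0, nat_lit 0, nat_lit 0, nat_lit 0, [], [nat_lit 6, nat_lit 40, nat_lit 40, nat_lit 80, nat_lit 3, nat_lit 249, nat_lit 40, nat_lit 8]⟩, ⟨p092_k27, nat_lit 0, nat_lit 0, nat_lit 803, nat_lit 0, nat_lit 1527098, [nat_lit 1220904000, nat_lit 2325000000, nat_lit 2964096000], [], [nat_lit 11818404447, nat_lit 11992864269, nat_lit 13763515182, nat_lit 14200458948, nat_lit 11144020041, nat_lit 11287756860, nat_lit 12339788394, nat_lit 12443568996], nat_lit 1271250, nat_lit 1271250, nat_lit 1271250, nat_lit 1271250, nat_lit 0, nat_lit 1100001, [nat_lit 780000, nat_lit 1435000, nat_lit 1271250],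 [nat_lit 18, nat_lit 40, nat_lit 40, nat_lit 80, nat_lit 2, nat_lit 311, nat_lit 40, nat_lit 10]⟩,
 ⟨nat_lit 3162, nat_lit 4473, ⟨.ofNat (nat_lit 675435), .ofNat (nat_lit 947591), .ofNat (nat_lit 696911), .ofNat (nat_lit 969090), .ofNat (nat_lit 671352), .ofNat (nat_lit 915409), .ofNat (nat_lit 693416), .ofNat (nat_lit 937496)⟩, ⟨.ofNat (nat_lit 166665), .ofNat (nat_lit 302621), .ofNat (nat_lit 200000), .ofNat (nat_lit 345754), .ofNat (nat_lit 184209), .ofNat (nat_lit 306116), .ofNat (nat_lit 200000), .ofNat (nat_lit 350426)⟩⟩, [⟨nat_lit 13, nat_lit 69, nat_lit 45, nat_lit 100, nat_lit 46182115⟩]⟩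
noncomputable def p092_l135 : Lf2 := ⟨nat_lit 0, nat_lit 10, [nat_lit 0, nat_lit 5, nat_lit 5, nat_lit 20], false, nat_lit 80, nat_lit 160, nat_lit 160, nat_lit 320, ⟨nat_lit 1000, nat_lit 0, nat_lit 0, nat_lit 0, nat_lit 0, nat_lit 0, nat_lit 0, nat_lit 0, nat_lit 0, nat_lit 0, nat_lit 0, nat_lit 0, nat_lit 0, nat_lit 0, nat_lit 0, nat_lit 0, false, false⟩,
 nat_lit 0, nat_lit 0, nat_lit 7919, nat_lit 0, nat_lit 5686, nat_lit 5482, nat_lit 598, nat_lit 0, nat_lit 0, nat_lit 1672, nat_lit 0, nat_lit 0, nat_lit 0, nat_lit 0, nat_lit 0, nat_lit 0, nat_lit 0, nat_lit 0, [],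
 ⟨p092_k23, nat_lit 0, nat_lit 0, nat_lit 124, nat_lit 0, nat_lit 0, [nat_lit 2032000001, nat_lit 4688000000, nat_lit 6250000000], [], [nat_lit 21130108256, nat_lit 22773923640, nat_lit 32178863976, nat_lit 33455530036, nat_lit 21280838616, nat_lit 22750997992, nat_lit 31041782384, nat_lit 32200698672], nat_lit 0, nat_lit 0, nat_lit 0, nat_lit 0, nat_lit 0, nat_lit 0, [], [nat_lit 6, nat_lit 40, nat_lit 40, nat_lit 80, nat_lit 3, nat_lit 249, nat_lit 40, nat_lit 8]⟩, ⟨p092_k27, nat_lit 0, nat_lit 0, nat_lit 562, nat_lit 0, nat_lit 1210937, [nat_lit 3282000000, nat_lit 6250000000, nat_lit 7968000000], [], [nat_lit 27566406940, nat_lit 27811979334, nat_lit 31885341020, nat_lit 32124183654, nat_lit 29888315844, nat_lit 30116205342, nat_lit 33722577940, nat_lit 33889785902], nat_lit 1271250, nat_lit 1271250, nat_lit 1271250, nat_lit 1271250, nat_lit 1100001, nat_lit 2470000, [nat_lit 780000, nat_lit 1435000, nat_lit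 1271250], [nat_lit 18, nat_lit 40, nat_lit 40, nat_lit 80, nat_lit 2, nat_lit 317, nat_lit 100, nat_lit 9]⟩,
 zbF0, [⟨nat_lit 7, nat_lit 100, nat_lit 97, nat_lit 98, nat_lit 294205940⟩]⟩
noncomputable def p092_l136 : Lf2 := ⟨nat_lit 0, nat_lit 10, [nat_lit 0, nat_lit 5, nat_lit 5, nat_lit 20], false, nat_lit 80, nat_lit 160, nat_lit 160, nat_lit 320, ⟨nat_lit 321, nat_lit 679, nat_lit 0, nat_lit 7, nat_lit 321, nat_lit 679, nat_lit 103, nat_lit 0, nat_lit 0, nat_lit 0, nat_lit 0, nat_lit 0, nat_lit 37961896, nat_lit 24920893, nat_lit 4117211, nat_lit 4551058, true, true⟩,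
 nat_lit 0, nat_lit 0, nat_lit 2668, nat_lit 0, nat_lit 3385, nat_lit 1847, nat_lit 243, nat_lit 0, nat_lit 0, nat_lit 466, nat_lit 0, nat_lit 0, nat_lit 0, nat_lit 0, nat_lit 0, nat_lit 271600, nat_lit 0, nat_lit 0, [(nat_lit 21, [(nat_lit 1, nat_lit 679)])],
 ⟨p092_k25, nat_lit 0, nat_lit 0, nat_lit 129, nat_lit 0, nat_lit 0, [nat_lit 1572452801, nat_lit 2518459201, nat_lit 3019318000], [], [nat_lit 21927395336, nat_lit 23108404146, nat_lit 29216483535, nat_lit 30213179360, nat_lit 22653936956, nat_lit 23723485946, nat_lit 29259444608, nat_lit 30005124498], nat_lit 0, nat_lit 0, nat_lit 0, nat_lit 0, nat_lit 0, nat_lit 0, [], [nat_lit 6, nat_lit 40, nat_lit 40, nat_lit 80, nat_lit 3, nat_lit 249, nat_lit 40, nat_lit 8]⟩, ⟨p092_k27, nat_lit 0, nat_lit 0, nat_lit 675, nat_lit 0, nat_lit 1454438, [nat_lit 1053522000, nat_lit 2006250000, nat_lit 2557728000], [], [nat_lit 9525324626, nat_lit 9595280559, nat_lit 10567935590,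 nat_lit 10613701371, nat_lit 10071970902, nat_lit 10120741659, nat_lit 10930287962, nat_lit 10980130264], nat_lit 1271250, nat_lit 1271250, nat_lit 1271250, nat_lit 1271250, nat_lit 1100001, nat_lit 2470000, [nat_lit 780000, nat_lit 1435000, nat_lit 1271250], [nat_lit 18, nat_lit 40, nat_lit 40, nat_lit 80, nat_lit 2, nat_lit 317, nat_lit 100, nat_lit 9]⟩,
 ⟨nat_lit 3162, nat_lit 3873, ⟨.ofNat (nat_lit 673376), .ofNat (nat_lit 931573), .ofNat (nat_lit 684258), .ofNat (nat_lit 942462), .ofNat (nat_lit 671616), .ofNat (nat_lit 915540), .ofNat (nat_lit 682679), .ofNat (nat_lit 926609)⟩, ⟨.ofNat (nat_lit 175674), .ofNat (nat_lit 304717), .ofNat (nat_lit 200000), .ofNat (nat_lit 348304), .ofNat (nat_lit 184209), .ofNat (nat_lit 306116), .ofNat (nat_lit 200000), .ofNat (nat_lit 350426)⟩⟩, [⟨nat_lit 7, nat_lit 100, nat_lit 97, nat_lit 98, nat_lit 65464847⟩, ⟨nat_lit 10, nat_lit 100, nat_lit 59, nat_lit 94, nat_lit 37938635⟩]⟩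
noncomputable def p092_l137 : Lf2 := ⟨nat_lit 0, nat_lit 10, [nat_lit 0, nat_lit 5, nat_lit 5, nat_lit 20], false, nat_lit 80, nat_lit 160, nat_lit 160, nat_lit 312, ⟨nat_lit 319, nat_lit 681, nat_lit 0, nat_lit 7, nat_lit 328, nat_lit 681, nat_lit 103, nat_lit 0, nat_lit 0, nat_lit 0, nat_lit 0, nat_lit 0, nat_lit 37466320, nat_lit 25494565, nat_lit 4039115, nat_lit 4553182, true, true⟩,
 nat_lit 0, nat_lit 0, nat_lit 2545, nat_lit 0, nat_lit 3668, nat_lit 1834, nat_lit 0, nat_lit 0, nat_lit 0, nat_lit 319, nat_lit 0, nat_lit 0, nat_lit 0, nat_lit 0, nat_lit 0, nat_lit 591600, nat_lit 0, nat_lit 0, [(nat_lit 18, [(nat_lit 1, nat_lit 149), (nat_lit 2, nat_lit 532)]), (nat_lit 21, [(nat_lit 1, nat_lit 149), (nat_lit 2, nat_lit 532)])],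
 ⟨p092_k23, nat_lit 0, nat_lit 0, nat_lit 129, nat_lit 0, nat_lit 0, [nat_lit 1761922934, nat_lit 2344622667, nat_lit 2050126800], [], [nat_lit 20964105414, nat_lit 23415158230, nat_lit 28867361856, nat_lit 30768973248, nat_lit 21746268711, nat_lit 23964389095, nat_lit 28886498007, nat_lit 30416644480], nat_lit 0, nat_lit 0, nat_lit 0, nat_lit 0, nat_lit 0, nat_lit 0, [], [nat_lit 6, nat_lit 40, nat_lit 40, nat_lit 80, nat_lit 3, nat_lit 249, nat_lit 40, nat_lit 8]⟩, ⟨p092_k36, nat_lit 0, nat_lit 0, nat_lit 669, nat_lit 0, nat_lit 1441751, [nat_lit 1046958000, nat_lit 1993750000, nat_lit 2541792000], [], [nat_lit 9378466088, nat_lit 9458035009, nat_lit 10532342340, nat_lit 10585519672, nat_lit 9970844801, nat_lit 10028160410, nat_lit 10883201067, nat_lit 10942003893], nat_lit 1271250, nat_lit 1271250, nat_lit 1271250, nat_lit 1271250, nat_lit 1100001, nat_lit 2401500, [nat_lit 780000, nat_lit 1435000, nat_lit 1271250],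 [nat_lit 18, nat_lit 40, nat_lit 40, nat_lit 80, nat_lit 2, nat_lit 317, nat_lit 100, nat_lit 9]⟩,
 ⟨nat_lit 3162, nat_lit 4473, ⟨.ofNat (nat_lit 686173), .ofNat (nat_lit 958341), .ofNat (nat_lit 696911), .ofNat (nat_lit 969090), .ofNat (nat_lit 682385), .ofNat (nat_lit 926454), .ofNat (nat_lit 693416), .ofNat (nat_lit 937496)⟩, ⟨.ofNat (nat_lit 166665), .ofNat (nat_lit 302621), .ofNat (nat_lit 200000), .ofNat (nat_lit 345754), .ofNat (nat_lit 184209), .ofNat (nat_lit 306116), .ofNat (nat_lit 200000), .ofNat (nat_lit 350426)⟩⟩, [⟨nat_lit 7, nat_lit 100, nat_lit 90, nat_lit 95, nat_lit 71075877⟩, ⟨nat_lit 10, nat_lit 100, nat_lit 57, nat_lit 93, nat_lit 40602566⟩]⟩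
noncomputable def b_V_800_700_20_3 : St := ⟨true, nat_lit 0, nat_lit 1, nat_lit 1, nat_lit 120, nat_lit 320, nat_lit 360, nat_lit 280, nat_lit 320, nat_lit 240, nat_lit 400, nat_lit 80, nat_lit 120, nat_lit 80, nat_lit 160, nat_lit 0, nat_lit 336, nat_lit 0, nat_lit 40, nat_lit 0, nat_lit 0, nat_lit 0, nat_lit 0⟩
theorem d_V_800_700_20_3 (h : EB TB.env) : Dead b_V_800_700_20_3 := chkB_sound0 h (T :=
(.spl (nat_lit 1) (nat_lit 300)
(.spl (nat_lit 2) (nat_lit 320)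
(.leaf p092_l129)
(.spl (nat_lit 2) (nat_lit 360)
(.spl (nat_lit 0) (nat_lit 340)
(.leaf p092_l130)
(.leaf p092_l131))
(.trZ (nat_lit 9) (nat_lit 100) (nat_lit 75) (nat_lit 35) (nat_lit 8) (.trX (nat_lit 22) (nat_lit 61) (nat_lit 92) (nat_lit 100) (nat_lit 288) (.spl (nat_lit 0) (nat_lit 340)
(.leaf p092_l132)
(.trX (nat_lit 13) (nat_lit 82) (nat_lit 29) (nat_lit 100) (nat_lit 396) (.leaf p092_l133)))))))
(.trX (nat_lit 19) (nat_lit 94) (nat_lit 88) (nat_lit 100) (nat_lit 320) (.spl (nat_lit 5) (nat_lit 160)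
(.leaf p092_l134)
(.spl (nat_lit 1) (nat_lit 310)
(.spl (nat_lit 0) (nat_lit 340)
(.leaf p092_l135)
(.leaf p092_l136))
(.trX (nat_lit 19) (nat_lit 91) (nat_lit 91) (nat_lit 100) (nat_lit 312) (.leaf p092_l137))))))) (by decide +kernel)

end B2
end Pool.Agent.Lib.MP_6947cd_al
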