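import Pool.Agent.Lib.MP_6947cd_al.ZB.P069
import Pool.Agent.Lib.MP_6947cd_al.ZB.P070
import Pool.Agent.Lib.MP_6947cd_al.ZB.P071
import Pool.Agent.Lib.MP_6947cd_al.ZB.P072
import Pool.Agent.Lib.MP_6947cd_al.ZB.P073
import Pool.Agent.Lib.MP_6947cd_al.ZB.P074
import Pool.Agent.Lib.MP_6947cd_al.ZB.P075
import Pool.Agent.Lib.MP_6947cd_al.ZB.P076
import Pool.Agent.Lib.MP_6947cd_al.ZB.P077
import Pool.Agent.Lib.MP_6947cd_al.ZB.P078
import Pool.Agent.Lib.MP_6947cd_al.ZB.P079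
import Pool.Agent.Lib.MP_6947cd_al.ZB.P080
import Pool.Agent.Lib.MP_6947cd_al.ZB.P081
import Pool.Agent.Lib.MP_6947cd_al.ZB.P082
import Pool.Agent.Lib.MP_6947cd_al.ZB.P083
import Pool.Agent.Lib.MP_6947cd_al.ZB.P084
import Pool.Agent.Lib.MP_6947cd_al.ZB.P085
import Pool.Agent.Lib.MP_6947cd_al.ZB.P086
import Pool.Agent.Lib.MP_6947cd_al.ZB.P087
import Pool.Agent.Lib.MP_6947cd_al.ZB.P088
import Pool.Agent.Lib.MP_6947cd_al.ZB.P089
import Pool.Agent.Lib.MP_6947cd_al.ZB.P090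
import Pool.Agent.Lib.MP_6947cd_al.ZB.P091
import Pool.Agent.Lib.MP_6947cd_al.ZB.P092

/-!
Problem MP_6947cd_al (Chollet).  Case B, second entry in [2/5, 17/20]: certificates of the tree, part T06 (generated).
-/

set_option autoImplicit false
set_option linter.all false

namespace Pool.Agent.Lib.MP_6947cd_al
namespace B2

open Ent Fr B1 PkA

noncomputable def t06_k0 : C1.Kn := ⟨[nat_lit 60, nat_lit 100, nat_lit 140], [nat_lit 0, nat_lit 0, nat_lit 2047], [(nat_lit 0, nat_lit 0, nat_lit 0), (nat_lit 0, nat_lit 0, nat_lit 0), (nat_lit 1000, nat_lit 993, nat_lit 781)], (nat_lit 94, nat_lit 100, nat_lit 62)⟩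
noncomputable def t06_k1 : C1.Kn := ⟨[nat_lit 60, nat_lit 100, nat_lit 120], [nat_lit 0, nat_lit 302, nat_lit 1376], [(nat_lit 0, nat_lit 0, nat_lit 0), (nat_lit 1000, nat_lit 953, nat_lit 118), (nat_lit 1000, nat_lit 911, nat_lit 628)], (nat_lit 91, nat_lit 100, nat_lit 61)⟩
noncomputable def t06_k2 : C1.Kn := ⟨[nat_lit 60, nat_lit 120], [nat_lit 0, nat_lit 453], [(nat_lit 0, nat_lit 0, nat_lit 0), (nat_lit 1000, nat_lit 953, nat_lit 118)], (nat_lit 91, nat_lit 100, nat_lit 61)⟩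
noncomputable def t06_k3 : C1.Kn := ⟨[nat_lit 60, nat_lit 100, nat_lit 120], [nat_lit 0, nat_lit 609, nat_lit 1609], [(nat_lit 0, nat_lit 0, nat_lit 0), (nat_lit 1000, nat_lit 905, nat_lit 238), (nat_lit 1000, nat_lit 882, nat_lit 668)], (nat_lit 87, nat_lit 100, nat_lit 60)⟩
noncomputable def t06_k4 : C1.Kn := ⟨[nat_lit 60, nat_lit 120], [nat_lit 0, nat_lit 913], [(nat_lit 0, nat_lit 0, nat_lit 0), (nat_lit 1000, nat_lit 905, nat_lit 238)], (nat_lit 87, nat_lit 100, nat_lit 60)⟩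
noncomputable def t06_k5 : C1.Kn := ⟨[nat_lit 60, nat_lit 80, nat_lit 120], [nat_lit 0, nat_lit 304, nat_lit 1346], [(nat_lit 0, nat_lit 0, nat_lit 0), (nat_lit 1000, nat_lit 905, nat_lit 238), (nat_lit 1000, nat_lit 871, nat_lit 407)], (nat_lit 87, nat_lit 100, nat_lit 60)⟩
noncomputable def t06_k6 : C1.Kn := ⟨[nat_lit 60, nat_lit 80, nat_lit 140], [nat_lit 0, nat_lit 0, nat_lit 1595], [(nat_lit 0, nat_lit 0, nat_lit 0), (nat_lit 0, nat_lit 0, nat_lit 0), (nat_lit 1000, nat_lit 917, nat_lit 415)], (nat_lit 94, nat_lit 100, nat_lit 62)⟩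
noncomputable def t06_k7 : C1.Kn := ⟨[nat_lit 60, nat_lit 100], [nat_lit 0, nat_lit 609], [(nat_lit 0, nat_lit 0, nat_lit 0), (nat_lit 1000, nat_lit 905, nat_lit 238)], (nat_lit 87, nat_lit 100, nat_lit 44)⟩
noncomputable def t06_k8 : C1.Kn := ⟨[nat_lit 60, nat_lit 80], [nat_lit 0, nat_lit 379], [(nat_lit 0, nat_lit 0, nat_lit 0), (nat_lit 1000, nat_lit 882, nat_lit 294)], (nat_lit 88, nat_lit 100, nat_lit 29)⟩
noncomputable def t06_k9 : C1.Kn := ⟨[nat_lit 60, nat_lit 80], [nat_lit 0, nat_lit 304], [(nat_lit 0, nat_lit 0, nat_lit 0), (nat_lit 1000, nat_lit 905, nat_lit 238)], (nat_lit 89, nat_lit 100, nat_lit 29)⟩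
noncomputable def t06_k10 : C1.Kn := ⟨[nat_lit 60, nat_lit 80, nat_lit 100], [nat_lit 0, nat_lit 304, nat_lit 825], [(nat_lit 0, nat_lit 0, nat_lit 0), (nat_lit 1000, nat_lit 905, nat_lit 238), (nat_lit 1000, nat_lit 871, nat_lit 407)], (nat_lit 87, nat_lit 100, nat_lit 44)⟩
noncomputable def t06_k11 : C1.Kn := ⟨[nat_lit 40, nat_lit 140], [nat_lit 0, nat_lit 0], [(nat_lit 0, nat_lit 0, nat_lit 0), (nat_lit 0, nat_lit 0, nat_lit 0)], (nat_lit 83, nat_lit 100, nat_lit 83)⟩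
noncomputable def t06_k12 : C1.Kn := ⟨[nat_lit 40, nat_lit 80, nat_lit 100], [nat_lit 0, nat_lit 0, nat_lit 1280], [(nat_lit 0, nat_lit 0, nat_lit 0), (nat_lit 0, nat_lit 0, nat_lit 0), (nat_lit 1000, nat_lit 800, nat_lit 600)], (nat_lit 80, nat_lit 100, nat_lit 60)⟩
noncomputable def t06_k13 : C1.Kn := ⟨[nat_lit 40, nat_lit 100], [nat_lit 0, nat_lit 0], [(nat_lit 0, nat_lit 0, nat_lit 0), (nat_lit 0, nat_lit 0, nat_lit 0)], (nat_lit 80, nat_lit 100, nat_lit 60)⟩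
noncomputable def t06_k14 : C1.Kn := ⟨[nat_lit 60, nat_lit 140], [nat_lit 0, nat_lit 0], [(nat_lit 0, nat_lit 0, nat_lit 0), (nat_lit 0, nat_lit 0, nat_lit 0)], (nat_lit 94, nat_lit 100, nat_lit 62)⟩
noncomputable def t06_k15 : C1.Kn := ⟨[nat_lit 40, nat_lit 80, nat_lit 100], [nat_lit 0, nat_lit 795, nat_lit 1829], [(nat_lit 0, nat_lit 0, nat_lit 0), (nat_lit 1000, nat_lit 814, nat_lit 310), (nat_lit 1000, nat_lit 714, nat_lit 692)], (nat_lit 72, nat_lit 100, nat_lit 61)⟩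
theorem t_V_700_700_20 (h : EB TB.env) : RC.Tail ⟨true, 120, 280, 320, 280, 320, 80, 120, [104]⟩ := RC.tail_chk h (b := ⟨nat_lit 60, nat_lit 52, nat_lit 5, nat_lit 5, nat_lit 20, nat_lit 238, nat_lit 30, nat_lit 12, nat_lit 15⟩) (by decide +kernel)
noncomputable def t06_l0 : Lf2 := ⟨nat_lit 0, nat_lit 10, [nat_lit 0, nat_lit 5, nat_lit 5, nat_lit 20], true, nat_lit 160, nat_lit 240, nat_lit 0, nat_lit 336, ⟨nat_lit 0, nat_lit 1000, nat_lit 0, nat_lit 7, nat_lit 159, nat_lit 1000, nat_lit 157, nat_lit 0, nat_lit 0, nat_lit 0, nat_lit 0, nat_lit 0, nat_lit 48798657, nat_lit 9201769, nat_lit 8999574, nat_lit 4144027, false, false⟩,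
 nat_lit 0, nat_lit 0, nat_lit 0, nat_lit 2840, nat_lit 4600, nat_lit 0, nat_lit 0, nat_lit 0, nat_lit 0, nat_lit 0, nat_lit 0, nat_lit 0, nat_lit 0, nat_lit 8617912901393, nat_lit 0, nat_lit 250000, nat_lit 0, nat_lit 0, [(nat_lit 12, [(nat_lit 0, nat_lit 1000)])],
 ⟨t06_k0, nat_lit 0, nat_lit 0, nat_lit 38, nat_lit 0, nat_lit 0, [nat_lit 2364000000, nat_lit 2954000000, nat_lit 3510800000], [], [nat_lit 11997847361, nat_lit 13876093121, nat_lit 12191691200, nat_lit 13916792400, nat_lit 15867923841, nat_lit 17606116960, nat_lit 15789078400, nat_lit 17254968400], nat_lit 0, nat_lit 0, nat_lit 0, nat_lit 0, nat_lit 0, nat_lit 0, [], [nat_lit 8, nat_lit 40, nat_lit 40, nat_lit 80, nat_lit 1, nat_lit 317, nat_lit 100, nat_lit 9]⟩, C1.Rw.none,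
 ⟨nat_lit 5000, nat_lit 5478, ⟨.ofNat (nat_lit 330654), .ofNat (nat_lit 435548), .ofNat (nat_lit 352005), .ofNat (nat_lit 456895), .ofNat (nat_lit 342856), .ofNat (nat_lit 442843), .ofNat (nat_lit 364277), .ofNat (nat_lit 464262)⟩, ⟨.ofNat (nat_lit 296923), .ofNat (nat_lit 446789), .ofNat (nat_lit 339637), .ofNat (nat_lit 489503), .ofNat (nat_lit 299999), .ofNat (nat_lit 442856), .ofNat (nat_lit 342856), .ofNat (nat_lit 485713)⟩⟩, [⟨nat_lit 0, nat_lit 100, nat_lit 100, nat_lit 100, nat_lit 140452202⟩]⟩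
noncomputable def t06_l1 : Lf2 := ⟨nat_lit 0, nat_lit 10, [nat_lit 0, nat_lit 5, nat_lit 5, nat_lit 20], true, nat_lit 280, nat_lit 328, nat_lit 0, nat_lit 336, ⟨nat_lit 0, nat_lit 1000, nat_lit 0, nat_lit 7, nat_lit 163, nat_lit 1000, nat_lit 232, nat_lit 0, nat_lit 0, nat_lit 0, nat_lit 0, nat_lit 0, nat_lit 42442407, nat_lit 8931084, nat_lit 15626509, nat_lit 4823145, false, false⟩,
 nat_lit 0, nat_lit 0, nat_lit 0, nat_lit 2792, nat_lit 0, nat_lit 0, nat_lit 0, nat_lit 0, nat_lit 374, nat_lit 0, nat_lit 0, nat_lit 0, nat_lit 0, nat_lit 14418957845001, nat_lit 0, nat_lit 250000, nat_lit 0, nat_lit 0, [(nat_lit 12, [(nat_lit 0, nat_lit 1000)])],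
 ⟨t06_k1, nat_lit 0, nat_lit 0, nat_lit 0, nat_lit 0, nat_lit 0, [nat_lit 2364000000, nat_lit 2875200000, nat_lit 3241600000], [], [nat_lit 16935960901, nat_lit 17275767400, nat_lit 17945603500, nat_lit 18276746000, nat_lit 18605490940, nat_lit 18945639880, nat_lit 19578190501, nat_lit 19908361400], nat_lit 0, nat_lit 0, nat_lit 0, nat_lit 0, nat_lit 0, nat_lit 0, [], [nat_lit 18, nat_lit 40, nat_lit 40, nat_lit 80]⟩, C1.Rw.none,
 ⟨nat_lit 5000, nat_lit 5245, ⟨.ofNat (nat_lit 351391), .ofNat (nat_lit 439194), .ofNat (nat_lit 372775), .ofNat (nat_lit 460577), .ofNat (nat_lit 357140), .ofNat (nat_lit 442852), .ofNat (nat_lit 378567), .ofNat (nat_lit 464278)⟩, ⟨.ofNat (nat_lit 518028), .ofNat (nat_lit 605833), .ofNat (nat_lit 560799), .ofNat (nat_lit 648604), .ofNat (nat_lit 514284), .ofNat (nat_lit 599999), .ofNat (nat_lit 557141), .ofNat (nat_lit 642856)⟩⟩, []⟩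
noncomputable def t06_l2 : Lf2 := ⟨nat_lit 2, nat_lit 10, [nat_lit 0, nat_lit 5, nat_lit 5, nat_lit 20], true, nat_lit 280, nat_lit 328, nat_lit 0, nat_lit 336, zbN0,
 nat_lit 0, nat_lit 0, nat_lit 0, nat_lit 0, nat_lit 0, nat_lit 0, nat_lit 0, nat_lit 0, nat_lit 0, nat_lit 0, nat_lit 0, nat_lit 0, nat_lit 0, nat_lit 0, nat_lit 0, nat_lit 0, nat_lit 0, nat_lit 0, [],
 ⟨t06_k2, nat_lit 0, nat_lit 0, nat_lit 0, nat_lit 0, nat_lit 0, [], [], [], nat_lit 0, nat_lit 0, nat_lit 0, nat_lit 0, nat_lit 0, nat_lit 0, [], [nat_lit 74, nat_lit 40, nat_lit 40, nat_lit 80]⟩, C1.Rw.none,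
 zbF0, []⟩
noncomputable def t06_l3 : Lf2 := ⟨nat_lit 2, nat_lit 10, [nat_lit 0, nat_lit 5, nat_lit 5, nat_lit 20], true, nat_lit 280, nat_lit 328, nat_lit 0, nat_lit 336, zbN0,
 nat_lit 0, nat_lit 0, nat_lit 0, nat_lit 0, nat_lit 0, nat_lit 0, nat_lit 0, nat_lit 0, nat_lit 0, nat_lit 0, nat_lit 0, nat_lit 0, nat_lit 0, nat_lit 0, nat_lit 0, nat_lit 0, nat_lit 0, nat_lit 0, [],
 ⟨t06_k2, nat_lit 0, nat_lit 0, nat_lit 55, nat_lit 0, nat_lit 0, [], [], [], nat_lit 0, nat_lit 0, nat_lit 0, nat_lit 0, nat_lit 0, nat_lit 0, [], [nat_lit 74, nat_lit 40, nat_lit 40, nat_lit 80, nat_lit 43, nat_lit 238, nat_lit 30, nat_lit 7]⟩, C1.Rw.none,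
 zbF0, []⟩
noncomputable def t06_l4 : Lf2 := ⟨nat_lit 0, nat_lit 10, [nat_lit 0, nat_lit 5, nat_lit 5, nat_lit 20], true, nat_lit 280, nat_lit 320, nat_lit 0, nat_lit 336, ⟨nat_lit 0, nat_lit 1000, nat_lit 0, nat_lit 7, nat_lit 187, nat_lit 1000, nat_lit 227, nat_lit 0, nat_lit 0, nat_lit 0, nat_lit 0, nat_lit 0, nat_lit 41345457, nat_lit 10885722, nat_lit 14768821, nat_lit 4992827, false, false⟩,
 nat_lit 0, nat_lit 0, nat_lit 0, nat_lit 0, nat_lit 0, nat_lit 0, nat_lit 0, nat_lit 0, nat_lit 364, nat_lit 0, nat_lit 0, nat_lit 0, nat_lit 0, nat_lit 10702479708947, nat_lit 0, nat_lit 250000, nat_lit 0, nat_lit 0, [(nat_lit 15, [(nat_lit 0, nat_lit 1000)])],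
 ⟨t06_k3, nat_lit 0, nat_lit 0, nat_lit 0, nat_lit 0, nat_lit 0, [nat_lit 2318400000, nat_lit 2724800000, nat_lit 3082400000], [], [nat_lit 17498190000, nat_lit 18174654000, nat_lit 19281237000, nat_lit 19923432000, nat_lit 18798010000, nat_lit 19479080000, nat_lit 20550318000, nat_lit 21198112000], nat_lit 0, nat_lit 0, nat_lit 0, nat_lit 0, nat_lit 0, nat_lit 0, [], [nat_lit 18, nat_lit 40, nat_lit 40, nat_lit 80]⟩, C1.Rw.none,
 ⟨nat_lit 4472, nat_lit 5000, ⟨.ofNat (nat_lit 371392), .ofNat (nat_lit 514240), .ofNat (nat_lit 414225), .ofNat (nat_lit 557072), .ofNat (nat_lit 382295), .ofNat (nat_lit 518242), .ofNat (nat_lit 425403), .ofNat (nat_lit 561349)⟩, ⟨.ofNat (nat_lit 514284), .ofNat (nat_lit 585713), .ofNat (nat_lit 557141), .ofNat (nat_lit 628570), .ofNat (nat_lit 506556), .ofNat (nat_lit 574534), .ofNat (nat_lit 549689), .ofNat (nat_lit 617667)⟩⟩, []⟩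
noncomputable def t06_l5 : Lf2 := ⟨nat_lit 2, nat_lit 10, [nat_lit 0, nat_lit 5, nat_lit 5, nat_lit 20], true, nat_lit 280, nat_lit 320, nat_lit 0, nat_lit 336, zbN0,
 nat_lit 0, nat_lit 0, nat_lit 0, nat_lit 0, nat_lit 0, nat_lit 0, nat_lit 0, nat_lit 0, nat_lit 0, nat_lit 0, nat_lit 0, nat_lit 0, nat_lit 0, nat_lit 0, nat_lit 0, nat_lit 0, nat_lit 0, nat_lit 0, [],
 ⟨t06_k4, nat_lit 0, nat_lit 0, nat_lit 0, nat_lit 0, nat_lit 0, [], [], [], nat_lit 0, nat_lit 0, nat_lit 0, nat_lit 0, nat_lit 0, nat_lit 0, [], [nat_lit 74, nat_lit 40, nat_lit 40, nat_lit 80]⟩, C1.Rw.none,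
 zbF0, []⟩
noncomputable def t06_l6 : Lf2 := ⟨nat_lit 2, nat_lit 10, [nat_lit 0, nat_lit 5, nat_lit 5, nat_lit 20], true, nat_lit 280, nat_lit 320, nat_lit 0, nat_lit 336, zbN0,
 nat_lit 0, nat_lit 0, nat_lit 0, nat_lit 0, nat_lit 0, nat_lit 0, nat_lit 0, nat_lit 0, nat_lit 0, nat_lit 0, nat_lit 0, nat_lit 0, nat_lit 0, nat_lit 0, nat_lit 0, nat_lit 0, nat_lit 0, nat_lit 0, [],
 ⟨t06_k5, nat_lit 0, nat_lit 0, nat_lit 66, nat_lit 0, nat_lit 0, [], [], [], nat_lit 0, nat_lit 0, nat_lit 0, nat_lit 0, nat_lit 0, nat_lit 0, [], [nat_lit 36, nat_lit 40, nat_lit 40, nat_lit 80, nat_lit 7, nat_lit 249, nat_lit 40, nat_lit 7]⟩, C1.Rw.none,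
 zbF0, []⟩
noncomputable def t06_l7 : Lf2 := ⟨nat_lit 0, nat_lit 10, [nat_lit 0, nat_lit 5, nat_lit 5, nat_lit 20], false, nat_lit 160, nat_lit 320, nat_lit 0, nat_lit 160, ⟨nat_lit 1000, nat_lit 0, nat_lit 0, nat_lit 0, nat_lit 0, nat_lit 0, nat_lit 0, nat_lit 0, nat_lit 0, nat_lit 0, nat_lit 0, nat_lit 0, nat_lit 0, nat_lit 0, nat_lit 0, nat_lit 0, false, false⟩,
 nat_lit 0, nat_lit 9633, nat_lit 0, nat_lit 0, nat_lit 6668, nat_lit 7059, nat_lit 1063, nat_lit 0, nat_lit 0, nat_lit 2293, nat_lit 0, nat_lit 0, nat_lit 0, nat_lit 0, nat_lit 0, nat_lit 0, nat_lit 0, nat_lit 0, [],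
 ⟨t06_k5, nat_lit 0, nat_lit 0, nat_lit 470, nat_lit 0, nat_lit 883896, [nat_lit 3282000000, nat_lit 4688000000, nat_lit 7968000000], [], [nat_lit 20571795938, nat_lit 21463120314, nat_lit 20446893970, nat_lit 21236410394, nat_lit 24966429506, nat_lit 26166470544, nat_lit 27170881856, nat_lit 25356977434], nat_lit 1271250, nat_lit 1271250, nat_lit 490000, nat_lit 1100001, nat_lit 1100001, nat_lit 2470000, [nat_lit 780000, nat_lit 1100000, nat_lit 1785000], [nat_lit 36, nat_lit 40, nat_lit 40, nat_lit 80, nat_lit 7, nat_lit 345, nat_lit 125, nat_lit 11]⟩, ⟨t06_k6, nat_lit 0, nat_lit 0, nat_lit 178, nat_lit 0, nat_lit 0, [nat_lit 3282000000, nat_lit 4688000000, nat_lit 9842000000], [], [nat_lit 17552404405, nat_lit 19531766511, nat_lit 17398328925, nat_lit 19320940680, nat_lit 12910288921, nat_lit 14573221159, nat_lit 12986563864, nat_lit 14945583240], nat_lit 0, nat_lit 0, nat_lit 0, nat_lit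 0, nat_lit 0, nat_lit 0, [], [nat_lit 42, nat_lit 40, nat_lit 40, nat_lit 80, nat_lit 13, nat_lit 317, nat_lit 100, nat_lit 9]⟩,
 zbF0, [⟨nat_lit 0, nat_lit 100, nat_lit 94, nat_lit 97, nat_lit 438550415⟩, ⟨nat_lit 4, nat_lit 100, nat_lit 93, nat_lit 97, nat_lit 401140671⟩]⟩
noncomputable def t06_l8 : Lf2 := ⟨nat_lit 0, nat_lit 10, [nat_lit 0, nat_lit 5, nat_lit 5, nat_lit 20], false, nat_lit 0, nat_lit 160, nat_lit 160, nat_lit 320, ⟨nat_lit 1000, nat_lit 0, nat_lit 0, nat_lit 0, nat_lit 0, nat_lit 0, nat_lit 0, nat_lit 0, nat_lit 0, nat_lit 0, nat_lit 0, nat_lit 0, nat_lit 0, nat_lit 0, nat_lit 0, nat_lit 0, false, false⟩,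
 nat_lit 0, nat_lit 9726, nat_lit 0, nat_lit 0, nat_lit 6733, nat_lit 4938, nat_lit 3171, nat_lit 0, nat_lit 0, nat_lit 0, nat_lit 0, nat_lit 0, nat_lit 0, nat_lit 4982676010184, nat_lit 0, nat_lit 0, nat_lit 0, nat_lit 0, [],
 ⟨t06_k4, nat_lit 0, nat_lit 0, nat_lit 641, nat_lit 0, nat_lit 1075315, [nat_lit 3282000000, nat_lit 7968000000], [], [nat_lit 25369578777, nat_lit 21836383163, nat_lit 19936402560, nat_lit 21712873224, nat_lit 18104154456, nat_lit 19117701054, nat_lit 21770914129, nat_lit 19357183168], nat_lit 1271250, nat_lit 1271250, nat_lit 631250, nat_lit 1100001, nat_lit 0, nat_lit 1100001, [nat_lit 780000, nat_lit 1762500], [nat_lit 74, nat_lit 40, nat_lit 40, nat_lit 80, nat_lit 43, nat_lit 317, nat_lit 100, nat_lit 10]⟩, ⟨t06_k4, nat_lit 0, nat_lit 0, nat_lit 49, nat_lit 0, nat_lit 0, [nat_lit 3282000000, nat_lit 7968000000], [], [nat_lit 14335250682, nat_lit 16180608312,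 nat_lit 15316161164, nat_lit 17000968384, nat_lit 22853414578, nat_lit 24237000560, nat_lit 23123544348, nat_lit 24279440096], nat_lit 0, nat_lit 0, nat_lit 0, nat_lit 0, nat_lit 0, nat_lit 0, [], [nat_lit 74, nat_lit 40, nat_lit 40, nat_lit 80, nat_lit 43, nat_lit 345, nat_lit 125, nat_lit 11]⟩,
 zbF0, [⟨nat_lit 0, nat_lit 91, nat_lit 91, nat_lit 100, nat_lit 525297500⟩, ⟨nat_lit 7, nat_lit 100, nat_lit 93, nat_lit 97, nat_lit 502842329⟩]⟩
noncomputable def t06_l9 : Lf2 := ⟨nat_lit 0, nat_lit 10, [nat_lit 0, nat_lit 5, nat_lit 5, nat_lit 20], false, nat_lit 160, nat_lit 240, nat_lit 160, nat_lit 320, ⟨nat_lit 1000, nat_lit 0, nat_lit 0, nat_lit 0, nat_lit 0, nat_lit 0, nat_lit 0, nat_lit 0, nat_lit 0, nat_lit 0, nat_lit 0, nat_lit 0, nat_lit 0, nat_lit 0, nat_lit 0, nat_lit 0, false, false⟩,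
 nat_lit 0, nat_lit 9580, nat_lit 0, nat_lit 0, nat_lit 6632, nat_lit 4879, nat_lit 3017, nat_lit 0, nat_lit 0, nat_lit 0, nat_lit 0, nat_lit 0, nat_lit 0, nat_lit 9537173657807, nat_lit 0, nat_lit 0, nat_lit 0, nat_lit 0, [],
 ⟨t06_k4, nat_lit 0, nat_lit 0, nat_lit 451, nat_lit 0, nat_lit 888935, [nat_lit 3282000000, nat_lit 7968000000], [], [nat_lit 15654999440, nat_lit 16314407720, nat_lit 16227218432, nat_lit 16827456848, nat_lit 18078762760, nat_lit 18639961916, nat_lit 22226205619, nat_lit 20724694291], nat_lit 1271250, nat_lit 1271250, nat_lit 631250, nat_lit 1100001, nat_lit 1100001, nat_lit 1785000, [nat_lit 780000, nat_lit 1762500], [nat_lit 74, nat_lit 40, nat_lit 40, nat_lit 80, nat_lit 43, nat_lit 317, nat_lit 100, nat_lit 10]⟩, ⟨t06_k4, nat_lit 0, nat_lit 0, nat_lit 45, nat_lit 0, nat_lit 0, [nat_lit 3282000000, nat_lit 7968000000], [], [nat_lit 14398292831, nat_lit 15314492414,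 nat_lit 15385422562, nat_lit 16222082817, nat_lit 22873546499, nat_lit 23498135135, nat_lit 23156027034, nat_lit 23730707901], nat_lit 0, nat_lit 0, nat_lit 0, nat_lit 0, nat_lit 0, nat_lit 0, [], [nat_lit 74, nat_lit 40, nat_lit 40, nat_lit 80, nat_lit 43, nat_lit 345, nat_lit 125, nat_lit 11]⟩,
 zbF0, [⟨nat_lit 0, nat_lit 95, nat_lit 95, nat_lit 100, nat_lit 341795483⟩, ⟨nat_lit 7, nat_lit 100, nat_lit 97, nat_lit 98, nat_lit 491637051⟩]⟩
noncomputable def t06_l10 : Lf2 := ⟨nat_lit 0, nat_lit 5, [nat_lit 4, nat_lit 5, nat_lit 5, nat_lit 20], false, nat_lit 240, nat_lit 320, nat_lit 160, nat_lit 320, ⟨nat_lit 1000, nat_lit 0, nat_lit 0, nat_lit 0, nat_lit 0, nat_lit 0, nat_lit 0, nat_lit 0, nat_lit 0, nat_lit 0, nat_lit 0, nat_lit 0, nat_lit 0, nat_lit 0, nat_lit 0, nat_lit 0, false, false⟩,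
 nat_lit 0, nat_lit 3474, nat_lit 0, nat_lit 0, nat_lit 2404, nat_lit 4938, nat_lit 1208, nat_lit 0, nat_lit 259, nat_lit 0, nat_lit 0, nat_lit 0, nat_lit 0, nat_lit 0, nat_lit 0, nat_lit 0, nat_lit 0, nat_lit 0, [],
 ⟨t06_k7, nat_lit 0, nat_lit 0, nat_lit 0, nat_lit 0, nat_lit 864027, [nat_lit 3282000000, nat_lit 6250000000], [], [nat_lit 18383684312, nat_lit 18756012492, nat_lit 19207596720, nat_lit 19555528260, nat_lit 21046449076, nat_lit 21493765190, nat_lit 21790969992, nat_lit 22219012600], nat_lit 1271250, nat_lit 1271250, nat_lit 631250, nat_lit 1100001, nat_lit 1271250, nat_lit 1271250, [nat_lit 780000, nat_lit 1435000], [nat_lit 49, nat_lit 40, nat_lit 40, nat_lit 80]⟩, ⟨t06_k7, nat_lit 0, nat_lit 0, nat_lit 45, nat_lit 0, nat_lit 0, [nat_lit 3282000000, nat_lit 6250000000], [], [nat_lit 14335250682, nat_lit 15257929497, nat_lit 15316161164, nat_lit 16158564774, nat_lit 22853414578,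 nat_lit 23544841805, nat_lit 23123544348, nat_lit 23701492222], nat_lit 0, nat_lit 0, nat_lit 0, nat_lit 0, nat_lit 0, nat_lit 0, [], [nat_lit 49, nat_lit 40, nat_lit 40, nat_lit 80, nat_lit 16, nat_lit 345, nat_lit 125, nat_lit 12]⟩,
 zbF0, [⟨nat_lit 0, nat_lit 100, nat_lit 100, nat_lit 100, nat_lit 209861308⟩, ⟨nat_lit 19, nat_lit 94, nat_lit 88, nat_lit 100, nat_lit 194442585⟩, ⟨nat_lit 11, nat_lit 88, nat_lit 88, nat_lit 100, nat_lit 319271368⟩]⟩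
noncomputable def t06_l11 : Lf2 := ⟨nat_lit 0, nat_lit 5, [nat_lit 4, nat_lit 5, nat_lit 5, nat_lit 20], false, nat_lit 240, nat_lit 320, nat_lit 160, nat_lit 240, ⟨nat_lit 1000, nat_lit 0, nat_lit 0, nat_lit 0, nat_lit 0, nat_lit 0, nat_lit 0, nat_lit 0, nat_lit 0, nat_lit 0, nat_lit 0, nat_lit 0, nat_lit 0, nat_lit 0, nat_lit 0, nat_lit 0, false, false⟩,
 nat_lit 0, nat_lit 9202, nat_lit 0, nat_lit 0, nat_lit 6370, nat_lit 5464, nat_lit 3878, nat_lit 0, nat_lit 0, nat_lit 0, nat_lit 0, nat_lit 0, nat_lit 0, nat_lit 6499594839505, nat_lit 0, nat_lit 0, nat_lit 0, nat_lit 0, [],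
 ⟨t06_k7, nat_lit 0, nat_lit 0, nat_lit 377, nat_lit 0, nat_lit 864027, [nat_lit 3282000000, nat_lit 6250000000], [], [nat_lit 19089184100, nat_lit 19638741810, nat_lit 19425588820, nat_lit 19926790510, nat_lit 22635977550, nat_lit 23084310385, nat_lit 22652319500, nat_lit 23061597210], nat_lit 1271250, nat_lit 1271250, nat_lit 631250, nat_lit 1100001, nat_lit 1271250, nat_lit 1271250, [nat_lit 780000, nat_lit 1435000], [nat_lit 49, nat_lit 40, nat_lit 40, nat_lit 80, nat_lit 16, nat_lit 249, nat_lit 40, nat_lit 8]⟩, ⟨t06_k7, nat_lit 0, nat_lit 0, nat_lit 16, nat_lit 0, nat_lit 0, [nat_lit 3282000000, nat_lit 6250000000], [], [nat_lit 13773213896, nat_lit 14753656716, nat_lit 14698678192, nat_lit 15592285272, nat_lit 17401834400, nat_lit 18324892464, nat_lit 17991793648, nat_lit 18747757144], nat_lit 0, nat_lit 0, nat_lit 0, nat_lit 0, nat_lit 0, nat_lit 0, [], [nat_lit 49, nat_lit 40, nat_lit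 40, nat_lit 80, nat_lit 16, nat_lit 317, nat_lit 100, nat_lit 11]⟩,
 zbF0, [⟨nat_lit 0, nat_lit 91, nat_lit 91, nat_lit 100, nat_lit 572855613⟩, ⟨nat_lit 4, nat_lit 100, nat_lit 97, nat_lit 98, nat_lit 483224153⟩]⟩
noncomputable def t06_l12 : Lf2 := ⟨nat_lit 0, nat_lit 2, [nat_lit 10, nat_lit 5, nat_lit 5, nat_lit 20], false, nat_lit 240, nat_lit 296, nat_lit 240, nat_lit 300, ⟨nat_lit 1000, nat_lit 0, nat_lit 0, nat_lit 0, nat_lit 0, nat_lit 0, nat_lit 0, nat_lit 0, nat_lit 0, nat_lit 0, nat_lit 0, nat_lit 0, nat_lit 0, nat_lit 0, nat_lit 0, nat_lit 0, false, false⟩,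
 nat_lit 0, nat_lit 9792, nat_lit 0, nat_lit 0, nat_lit 6918, nat_lit 5073, nat_lit 1395, nat_lit 0, nat_lit 0, nat_lit 0, nat_lit 0, nat_lit 0, nat_lit 0, nat_lit 0, nat_lit 0, nat_lit 0, nat_lit 0, nat_lit 0, [],
 ⟨t06_k8, nat_lit 0, nat_lit 0, nat_lit 298, nat_lit 0, nat_lit 801118, [nat_lit 3282000000, nat_lit 4688000000], [], [nat_lit 17325979923, nat_lit 17593137411, nat_lit 17500084131, nat_lit 17761216714, nat_lit 19772776587, nat_lit 20072675921, nat_lit 19807691033, nat_lit 20138009718], nat_lit 1271250, nat_lit 1271250, nat_lit 660400, nat_lit 1100001, nat_lit 1271250, nat_lit 1271250, [nat_lit 780000, nat_lit 1100000], [nat_lit 40, nat_lit 40, nat_lit 40, nat_lit 80, nat_lit 22, nat_lit 249, nat_lit 40, nat_lit 10]⟩, ⟨t06_k9, nat_lit 0, nat_lit 0, nat_lit 37, nat_lit 0, nat_lit 0, [nat_lit 3282000000, nat_lit 4688000000], [], [nat_lit 17718109738, nat_lit 18507250215, nat_lit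 18377619936, nat_lit 19103373208, nat_lit 21519825086, nat_lit 22262796219, nat_lit 21881319653, nat_lit 22501825393], nat_lit 0, nat_lit 0, nat_lit 0, nat_lit 0, nat_lit 0, nat_lit 0, [], [nat_lit 40, nat_lit 40, nat_lit 40, nat_lit 80, nat_lit 22, nat_lit 249, nat_lit 40, nat_lit 10]⟩,
 zbF0, [⟨nat_lit 0, nat_lit 95, nat_lit 94, nat_lit 100, nat_lit 444245278⟩, ⟨nat_lit 0, nat_lit 98, nat_lit 97, nat_lit 100, nat_lit 109978502⟩, ⟨nat_lit 16, nat_lit 97, nat_lit 100, nat_lit 98, nat_lit 473990928⟩, ⟨nat_lit 19, nat_lit 100, nat_lit 100, nat_lit 100, nat_lit 529976060⟩]⟩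
noncomputable def t06_l13 : Lf2 := ⟨nat_lit 0, nat_lit 2, [nat_lit 10, nat_lit 5, nat_lit 5, nat_lit 20], false, nat_lit 240, nat_lit 316, nat_lit 240, nat_lit 320, ⟨nat_lit 1000, nat_lit 0, nat_lit 0, nat_lit 0, nat_lit 0, nat_lit 0, nat_lit 0, nat_lit 0, nat_lit 0, nat_lit 0, nat_lit 0, nat_lit 0, nat_lit 0, nat_lit 0, nat_lit 0, nat_lit 0, false, false⟩,
 nat_lit 0, nat_lit 9207, nat_lit 0, nat_lit 0, nat_lit 6505, nat_lit 4893, nat_lit 1351, nat_lit 0, nat_lit 0, nat_lit 0, nat_lit 0, nat_lit 0, nat_lit 0, nat_lit 0, nat_lit 0, nat_lit 0, nat_lit 0, nat_lit 0, [],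
 ⟨t06_k8, nat_lit 0, nat_lit 0, nat_lit 245, nat_lit 0, nat_lit 619010, [nat_lit 3282000000, nat_lit 4688000000], [], [nat_lit 18069174583, nat_lit 18363981576, nat_lit 18366122233, nat_lit 18636284020, nat_lit 21630441051, nat_lit 21888469016, nat_lit 21683318880, nat_lit 21920068966], nat_lit 1271250, nat_lit 1271250, nat_lit 660400, nat_lit 1100001, nat_lit 1271250, nat_lit 1271250, [nat_lit 780000, nat_lit 1100000], [nat_lit 40, nat_lit 40, nat_lit 40, nat_lit 80, nat_lit 22, nat_lit 249, nat_lit 40, nat_lit 10]⟩, ⟨t06_k9, nat_lit 0, nat_lit 0, nat_lit 44, nat_lit 0, nat_lit 0, [nat_lit 3282000000, nat_lit 4688000000], [], [nat_lit 17872190386, nat_lit 18645706179, nat_lit 18555238176, nat_lit 19267083928, nat_lit 22852103367, nat_lit 23474594129, nat_lit 23148319278, nat_lit 23723775367], nat_lit 0, nat_lit 0, nat_lit 0, nat_lit 0, nat_lit 0, nat_lit 0, [], [nat_lit 40, nat_lit 40, nat_lit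 40, nat_lit 80, nat_lit 22, nat_lit 249, nat_lit 40, nat_lit 10]⟩,
 zbF0, [⟨nat_lit 0, nat_lit 91, nat_lit 91, nat_lit 100, nat_lit 504439086⟩, ⟨nat_lit 16, nat_lit 93, nat_lit 90, nat_lit 100, nat_lit 383145748⟩, ⟨nat_lit 7, nat_lit 95, nat_lit 95, nat_lit 100, nat_lit 441917828⟩, ⟨nat_lit 11, nat_lit 87, nat_lit 87, nat_lit 100, nat_lit 118092640⟩]⟩
noncomputable def t06_l14 : Lf2 := ⟨nat_lit 0, nat_lit 10, [nat_lit 0, nat_lit 5, nat_lit 5, nat_lit 20], false, nat_lit 240, nat_lit 320, nat_lit 160, nat_lit 320, ⟨nat_lit 1000, nat_lit 0, nat_lit 0, nat_lit 0, nat_lit 0, nat_lit 0, nat_lit 0, nat_lit 0, nat_lit 0, nat_lit 0, nat_lit 0, nat_lit 0, nat_lit 0, nat_lit 0, nat_lit 0, nat_lit 0, false, false⟩,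
 nat_lit 0, nat_lit 8666, nat_lit 0, nat_lit 0, nat_lit 5999, nat_lit 4879, nat_lit 1569, nat_lit 0, nat_lit 0, nat_lit 0, nat_lit 0, nat_lit 0, nat_lit 0, nat_lit 0, nat_lit 0, nat_lit 0, nat_lit 0, nat_lit 0, [],
 ⟨t06_k3, nat_lit 0, nat_lit 0, nat_lit 299, nat_lit 0, nat_lit 548981, [nat_lit 3282000000, nat_lit 6250000000, nat_lit 7968000000], [], [nat_lit 20649112729, nat_lit 21169842390, nat_lit 20809834450, nat_lit 21285606406, nat_lit 23983337490, nat_lit 24406778221, nat_lit 23849340428, nat_lit 24236829216], nat_lit 1271250, nat_lit 1271250, nat_lit 631250, nat_lit 1100001, nat_lit 1271250, nat_lit 1271250, [nat_lit 780000, nat_lit 1435000, nat_lit 1271250], [nat_lit 18, nat_lit 40, nat_lit 40, nat_lit 80, nat_lit 2, nat_lit 249, nat_lit 40, nat_lit 7]⟩, ⟨t06_k3, nat_lit 0, nat_lit 0, nat_lit 66, nat_lit 0, nat_lit 0, [nat_lit 3282000000, nat_lit 6250000000, nat_lit 7968000000],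 [], [nat_lit 14398292831, nat_lit 15314492414, nat_lit 15385422562, nat_lit 16222082817, nat_lit 22873546499, nat_lit 23498135135, nat_lit 23156027034, nat_lit 23730707901], nat_lit 0, nat_lit 0, nat_lit 0, nat_lit 0, nat_lit 0, nat_lit 0, [], [nat_lit 18, nat_lit 40, nat_lit 40, nat_lit 80, nat_lit 2, nat_lit 345, nat_lit 125, nat_lit 11]⟩,
 zbF0, [⟨nat_lit 0, nat_lit 91, nat_lit 91, nat_lit 100, nat_lit 508768097⟩, ⟨nat_lit 16, nat_lit 94, nat_lit 88, nat_lit 100, nat_lit 326280236⟩, ⟨nat_lit 19, nat_lit 94, nat_lit 88, nat_lit 100, nat_lit 358954377⟩, ⟨nat_lit 11, nat_lit 88, nat_lit 88, nat_lit 100, nat_lit 138346528⟩]⟩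
noncomputable def t06_l15 : Lf2 := ⟨nat_lit 0, nat_lit 10, [nat_lit 0, nat_lit 5, nat_lit 5, nat_lit 20], false, nat_lit 160, nat_lit 320, nat_lit 0, nat_lit 160, ⟨nat_lit 1000, nat_lit 0, nat_lit 0, nat_lit 0, nat_lit 0, nat_lit 0, nat_lit 0, nat_lit 0, nat_lit 0, nat_lit 0, nat_lit 0, nat_lit 0, nat_lit 0, nat_lit 0, nat_lit 0, nat_lit 0, false, false⟩,
 nat_lit 0, nat_lit 8945, nat_lit 0, nat_lit 0, nat_lit 6192, nat_lit 6303, nat_lit 1420, nat_lit 0, nat_lit 0, nat_lit 1863, nat_lit 0, nat_lit 0, nat_lit 0, nat_lit 0, nat_lit 0, nat_lit 0, nat_lit 0, nat_lit 0, [],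
 ⟨t06_k5, nat_lit 0, nat_lit 0, nat_lit 504, nat_lit 0, nat_lit 976706, [nat_lit 3282000000, nat_lit 4688000000, nat_lit 7968000000], [], [nat_lit 21039793800, nat_lit 21777480232, nat_lit 23241515264, nat_lit 23072806048, nat_lit 24743086608, nat_lit 25347894368, nat_lit 25672735136, nat_lit 26886567296], nat_lit 1271250, nat_lit 1271250, nat_lit 631250, nat_lit 1751250, nat_lit 1271250, nat_lit 1271250, [nat_lit 780000, nat_lit 1100000, nat_lit 1785000], [nat_lit 36, nat_lit 40, nat_lit 40, nat_lit 80, nat_lit 7, nat_lit 373, nat_lit 150, nat_lit 12]⟩, ⟨t06_k5, nat_lit 0, nat_lit 0, nat_lit 140, nat_lit 0, nat_lit 0, [nat_lit 3282000000, nat_lit 4688000000, nat_lit 7968000000], [], [nat_lit 18213456819, nat_lit 19636305523, nat_lit 22688203046, nat_lit 23774038243, nat_lit 14106402592, nat_lit 14949729650, nat_lit 17899125924, nat_lit 18817824832], nat_lit 0, nat_lit 0, nat_lit 0, nat_lit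 0, nat_lit 0, nat_lit 0, [], [nat_lit 36, nat_lit 40, nat_lit 40, nat_lit 80, nat_lit 7, nat_lit 317, nat_lit 100, nat_lit 10]⟩,
 zbF0, [⟨nat_lit 0, nat_lit 89, nat_lit 85, nat_lit 100, nat_lit 394382571⟩, ⟨nat_lit 4, nat_lit 100, nat_lit 93, nat_lit 97, nat_lit 372559281⟩]⟩
noncomputable def t06_l16 : Lf2 := ⟨nat_lit 0, nat_lit 5, [nat_lit 4, nat_lit 5, nat_lit 5, nat_lit 20], true, nat_lit 160, nat_lit 320, nat_lit 160, nat_lit 320, ⟨nat_lit 0, nat_lit 1000, nat_lit 0, nat_lit 7, nat_lit 182, nat_lit 1000, nat_lit 185, nat_lit 0, nat_lit 0, nat_lit 0, nat_lit 0, nat_lit 0, nat_lit 0, nat_lit 0, nat_lit 0, nat_lit 5000000, false, false⟩,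
 nat_lit 0, nat_lit 1140, nat_lit 0, nat_lit 0, nat_lit 789, nat_lit 0, nat_lit 0, nat_lit 0, nat_lit 275, nat_lit 0, nat_lit 0, nat_lit 0, nat_lit 0, nat_lit 15537829252199, nat_lit 0, nat_lit 400000, nat_lit 0, nat_lit 0, [(nat_lit 15, [(nat_lit 1, nat_lit 1000)])],
 ⟨t06_k10, nat_lit 0, nat_lit 0, nat_lit 0, nat_lit 0, nat_lit 864027, [nat_lit 2020200000, nat_lit 2216000000, nat_lit 2326400000], [], [nat_lit 15464111384, nat_lit 15822439450, nat_lit 15840034576, nat_lit 16192144412, nat_lit 19908096891, nat_lit 20201675826, nat_lit 20450643252, nat_lit 20506963995], nat_lit 1271250, nat_lit 1271250, nat_lit 631250, nat_lit 780000, nat_lit 1100001, nat_lit 2470000, [nat_lit 780000, nat_lit 1100000, nat_lit 1442500], [nat_lit 59, nat_lit 40, nat_lit 40, nat_lit 80]⟩, C1.Rw.none,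
 ⟨nat_lit 4743, nat_lit 5000, ⟨.ofNat (nat_lit 428561), .ofNat (nat_lit 464274), .ofNat (nat_lit 439274), .ofNat (nat_lit 474987), .ofNat (nat_lit 433181), .ofNat (nat_lit 468029), .ofNat (nat_lit 443923), .ofNat (nat_lit 478772)⟩, ⟨.ofNat (nat_lit 299999), .ofNat (nat_lit 585713), .ofNat (nat_lit 342856), .ofNat (nat_lit 628570), .ofNat (nat_lit 301370), .ofNat (nat_lit 580169), .ofNat (nat_lit 344346), .ofNat (nat_lit 623145)⟩⟩, [⟨nat_lit 0, nat_lit 91, nat_lit 91, nat_lit 100, nat_lit 80065751⟩, ⟨nat_lit 16, nat_lit 94, nat_lit 88, nat_lit 100, nat_lit 89394681⟩]⟩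
noncomputable def t06_l17 : Lf2 := ⟨nat_lit 0, nat_lit 2, [nat_lit 10, nat_lit 5, nat_lit 5, nat_lit 20], false, nat_lit 160, nat_lit 320, nat_lit 160, nat_lit 240, ⟨nat_lit 1000, nat_lit 0, nat_lit 0, nat_lit 0, nat_lit 0, nat_lit 0, nat_lit 0, nat_lit 0, nat_lit 0, nat_lit 0, nat_lit 0, nat_lit 0, nat_lit 0, nat_lit 0, nat_lit 0, nat_lit 0, false, false⟩,
 nat_lit 0, nat_lit 9252, nat_lit 0, nat_lit 0, nat_lit 6405, nat_lit 5430, nat_lit 2735, nat_lit 0, nat_lit 0, nat_lit 0, nat_lit 0, nat_lit 0, nat_lit 0, nat_lit 11888778659358, nat_lit 0, nat_lit 0, nat_lit 0, nat_lit 0, [],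
 ⟨t06_k9, nat_lit 0, nat_lit 0, nat_lit 330, nat_lit 0, nat_lit 849081, [nat_lit 3282000000, nat_lit 4688000000], [], [nat_lit 16549000350, nat_lit 17195574050, nat_lit 16600062670, nat_lit 17228624815, nat_lit 22509509075, nat_lit 23073457728, nat_lit 22383227730, nat_lit 22820549085], nat_lit 1271250, nat_lit 1271250, nat_lit 631250, nat_lit 780000, nat_lit 1100001, nat_lit 2470000, [nat_lit 780000, nat_lit 1100000], [nat_lit 40, nat_lit 40, nat_lit 40, nat_lit 80, nat_lit 22, nat_lit 238, nat_lit 30, nat_lit 10]⟩, ⟨t06_k9, nat_lit 0, nat_lit 0, nat_lit 16, nat_lit 0, nat_lit 0, [nat_lit 3282000000, nat_lit 4688000000], [], [nat_lit 13809543270, nat_lit 14786252295, nat_lit 13888230520, nat_lit 14838832500, nat_lit 17413728010, nat_lit 18315725180, nat_lit 17407670220, nat_lit 18210654770], nat_lit 0, nat_lit 0, nat_lit 0, nat_lit 0, nat_lit 0, nat_lit 0, [], [nat_lit 40, nat_lit 40, nat_lit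 40, nat_lit 80, nat_lit 22, nat_lit 238, nat_lit 30, nat_lit 10]⟩,
 zbF0, [⟨nat_lit 0, nat_lit 91, nat_lit 91, nat_lit 100, nat_lit 841207610⟩, ⟨nat_lit 4, nat_lit 100, nat_lit 97, nat_lit 98, nat_lit 419997409⟩]⟩
noncomputable def t06_l18 : Lf2 := ⟨nat_lit 0, nat_lit 2, [nat_lit 10, nat_lit 5, nat_lit 5, nat_lit 20], false, nat_lit 160, nat_lit 240, nat_lit 240, nat_lit 320, ⟨nat_lit 1000, nat_lit 0, nat_lit 0, nat_lit 0, nat_lit 0, nat_lit 0, nat_lit 0, nat_lit 0, nat_lit 0, nat_lit 0, nat_lit 0, nat_lit 0, nat_lit 0, nat_lit 0, nat_lit 0, nat_lit 0, false, false⟩,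
 nat_lit 0, nat_lit 10706, nat_lit 0, nat_lit 0, nat_lit 7411, nat_lit 5313, nat_lit 1945, nat_lit 0, nat_lit 0, nat_lit 0, nat_lit 0, nat_lit 0, nat_lit 0, nat_lit 0, nat_lit 0, nat_lit 0, nat_lit 0, nat_lit 0, [],
 ⟨t06_k9, nat_lit 0, nat_lit 0, nat_lit 308, nat_lit 0, nat_lit 849081, [nat_lit 3282000000, nat_lit 4688000000], [], [nat_lit 12670605306, nat_lit 13328185502, nat_lit 12637549686, nat_lit 13276241879, nat_lit 15074494730, nat_lit 15670307193, nat_lit 14983206648, nat_lit 15562020028], nat_lit 1271250, nat_lit 1271250, nat_lit 631250, nat_lit 780000, nat_lit 1100001, nat_lit 1785000, [nat_lit 780000, nat_lit 1100000], [nat_lit 40, nat_lit 40, nat_lit 40, nat_lit 80, nat_lit 22, nat_lit 238, nat_lit 30, nat_lit 10]⟩, ⟨t06_k9, nat_lit 0, nat_lit 0, nat_lit 45, nat_lit 0, nat_lit 0, [nat_lit 3282000000, nat_lit 4688000000], [], [nat_lit 17511948691, nat_lit 18326137552, nat_lit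 17515549602, nat_lit 18308661107, nat_lit 23129329925, nat_lit 23848375243, nat_lit 22922770426, nat_lit 23625040671], nat_lit 0, nat_lit 0, nat_lit 0, nat_lit 0, nat_lit 0, nat_lit 0, [], [nat_lit 40, nat_lit 40, nat_lit 40, nat_lit 80, nat_lit 22, nat_lit 238, nat_lit 30, nat_lit 9]⟩,
 zbF0, [⟨nat_lit 0, nat_lit 95, nat_lit 95, nat_lit 100, nat_lit 702842969⟩, ⟨nat_lit 7, nat_lit 100, nat_lit 97, nat_lit 98, nat_lit 612209591⟩]⟩
noncomputable def t06_l19 : Lf2 := ⟨nat_lit 0, nat_lit 10, [nat_lit 0, nat_lit 5, nat_lit 5, nat_lit 20], false, nat_lit 160, nat_lit 320, nat_lit 160, nat_lit 320, ⟨nat_lit 1000, nat_lit 0, nat_lit 0, nat_lit 0, nat_lit 0, nat_lit 0, nat_lit 0, nat_lit 0, nat_lit 0, nat_lit 0, nat_lit 0, nat_lit 0, nat_lit 0, nat_lit 0, nat_lit 0, nat_lit 0, false, false⟩,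
 nat_lit 0, nat_lit 8768, nat_lit 0, nat_lit 0, nat_lit 6070, nat_lit 4938, nat_lit 1303, nat_lit 0, nat_lit 0, nat_lit 0, nat_lit 0, nat_lit 0, nat_lit 0, nat_lit 6255661688152, nat_lit 0, nat_lit 0, nat_lit 0, nat_lit 0, [],
 ⟨t06_k5, nat_lit 0, nat_lit 0, nat_lit 291, nat_lit 0, nat_lit 548981, [nat_lit 3282000000, nat_lit 4688000000, nat_lit 7968000000], [], [nat_lit 19180721700, nat_lit 19717131945, nat_lit 19141233230, nat_lit 19663193280, nat_lit 23972802350, nat_lit 24461108075, nat_lit 24427062760, nat_lit 24187771560], nat_lit 1271250, nat_lit 1271250, nat_lit 631250, nat_lit 780000, nat_lit 1100001, nat_lit 2470000, [nat_lit 780000, nat_lit 1100000, nat_lit 1785000], [nat_lit 36, nat_lit 40, nat_lit 40, nat_lit 80, nat_lit 7, nat_lit 345, nat_lit 125, nat_lit 11]⟩, ⟨t06_k5, nat_lit 0, nat_lit 0, nat_lit 54, nat_lit 0, nat_lit 0, [nat_lit 3282000000, nat_lit 4688000000, nat_lit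 7968000000], [], [nat_lit 14335250682, nat_lit 15257929497, nat_lit 14449325032, nat_lit 15347732700, nat_lit 22853414578, nat_lit 23544841805, nat_lit 22765558732, nat_lit 23378866402], nat_lit 0, nat_lit 0, nat_lit 0, nat_lit 0, nat_lit 0, nat_lit 0, [], [nat_lit 36, nat_lit 40, nat_lit 40, nat_lit 80, nat_lit 7, nat_lit 345, nat_lit 125, nat_lit 11]⟩,
 zbF0, [⟨nat_lit 0, nat_lit 95, nat_lit 95, nat_lit 100, nat_lit 508248287⟩, ⟨nat_lit 16, nat_lit 97, nat_lit 100, nat_lit 98, nat_lit 177692973⟩, ⟨nat_lit 7, nat_lit 100, nat_lit 97, nat_lit 98, nat_lit 292950875⟩, ⟨nat_lit 11, nat_lit 95, nat_lit 95, nat_lit 100, nat_lit 207376493⟩]⟩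
noncomputable def t06_l20 : Lf2 := ⟨nat_lit 0, nat_lit 5, [nat_lit 4, nat_lit 5, nat_lit 5, nat_lit 20], false, nat_lit 160, nat_lit 300, nat_lit 160, nat_lit 300, ⟨nat_lit 1000, nat_lit 0, nat_lit 0, nat_lit 0, nat_lit 0, nat_lit 0, nat_lit 0, nat_lit 0, nat_lit 0, nat_lit 0, nat_lit 0, nat_lit 0, nat_lit 0, nat_lit 0, nat_lit 0, nat_lit 0, false, false⟩,
 nat_lit 0, nat_lit 8949, nat_lit 0, nat_lit 0, nat_lit 6195, nat_lit 5064, nat_lit 1799, nat_lit 0, nat_lit 0, nat_lit 0, nat_lit 0, nat_lit 0, nat_lit 0, nat_lit 17863658512868, nat_lit 0, nat_lit 0, nat_lit 0, nat_lit 0, [],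
 ⟨t06_k10, nat_lit 0, nat_lit 0, nat_lit 358, nat_lit 0, nat_lit 839118, [nat_lit 3282000000, nat_lit 4688000000, nat_lit 6250000000], [], [nat_lit 19822303250, nat_lit 18505420425, nat_lit 20138597470, nat_lit 20618351485, nat_lit 22305980093, nat_lit 22761006552, nat_lit 27003310918, nat_lit 25591372847], nat_lit 1271250, nat_lit 1271250, nat_lit 780000, nat_lit 1762500, nat_lit 1100001, nat_lit 2298750, [nat_lit 780000, nat_lit 1100000, nat_lit 1442500], [nat_lit 59, nat_lit 40, nat_lit 40, nat_lit 80, nat_lit 3, nat_lit 373, nat_lit 150, nat_lit 14]⟩, ⟨t06_k10, nat_lit 0, nat_lit 0, nat_lit 39, nat_lit 0, nat_lit 0, [nat_lit 3282000000, nat_lit 4688000000, nat_lit 6250000000], [], [nat_lit 14305630096, nat_lit 15217404600, nat_lit 18386500848, nat_lit 19111558744, nat_lit 21468705036, nat_lit 22127448266, nat_lit 24020379156, nat_lit 24605425078], nat_lit 0, nat_lit 0, nat_lit 0, nat_lit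 0, nat_lit 0, nat_lit 0, [], [nat_lit 59, nat_lit 40, nat_lit 40, nat_lit 80, nat_lit 3, nat_lit 373, nat_lit 150, nat_lit 14]⟩,
 zbF0, [⟨nat_lit 16, nat_lit 100, nat_lit 100, nat_lit 100, nat_lit 371599233⟩, ⟨nat_lit 19, nat_lit 100, nat_lit 100, nat_lit 100, nat_lit 466417985⟩]⟩
noncomputable def t06_l21 : Lf2 := ⟨nat_lit 0, nat_lit 5, [nat_lit 4, nat_lit 5, nat_lit 5, nat_lit 20], false, nat_lit 160, nat_lit 240, nat_lit 160, nat_lit 320, ⟨nat_lit 1000, nat_lit 0, nat_lit 0, nat_lit 0, nat_lit 0, nat_lit 0, nat_lit 0, nat_lit 0, nat_lit 0, nat_lit 0, nat_lit 0, nat_lit 0, nat_lit 0, nat_lit 0, nat_lit 0, nat_lit 0, false, false⟩,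
 nat_lit 0, nat_lit 9281, nat_lit 0, nat_lit 0, nat_lit 6425, nat_lit 4949, nat_lit 1890, nat_lit 0, nat_lit 0, nat_lit 0, nat_lit 0, nat_lit 0, nat_lit 0, nat_lit 5095332562167, nat_lit 0, nat_lit 0, nat_lit 0, nat_lit 0, [],
 ⟨t06_k10, nat_lit 0, nat_lit 0, nat_lit 312, nat_lit 0, nat_lit 728099, [nat_lit 3282000000, nat_lit 4688000000, nat_lit 6250000000], [], [nat_lit 19572005750, nat_lit 17923806925, nat_lit 18195830900, nat_lit 18828017200, nat_lit 17806330900, nat_lit 18379170550, nat_lit 22865918900, nat_lit 21676849575], nat_lit 1271250, nat_lit 1271250, nat_lit 780000, nat_lit 1762500, nat_lit 1100001, nat_lit 1785000, [nat_lit 780000, nat_lit 1100000, nat_lit 1442500], [nat_lit 59, nat_lit 40, nat_lit 40, nat_lit 80, nat_lit 3, nat_lit 345, nat_lit 125, nat_lit 12]⟩, ⟨t06_k10, nat_lit 0, nat_lit 0, nat_lit 47, nat_lit 0, nat_lit 0, [nat_lit 3282000000, nat_lit 4688000000, nat_lit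 6250000000], [], [nat_lit 14436780236, nat_lit 15336354850, nat_lit 18499979168, nat_lit 19216151704, nat_lit 22760699086, nat_lit 23374674621, nat_lit 25059874870, nat_lit 25602156552], nat_lit 0, nat_lit 0, nat_lit 0, nat_lit 0, nat_lit 0, nat_lit 0, [], [nat_lit 59, nat_lit 40, nat_lit 40, nat_lit 80, nat_lit 3, nat_lit 373, nat_lit 150, nat_lit 14]⟩,
 zbF0, [⟨nat_lit 0, nat_lit 91, nat_lit 91, nat_lit 100, nat_lit 243700978⟩, ⟨nat_lit 7, nat_lit 95, nat_lit 95, nat_lit 100, nat_lit 500749892⟩]⟩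
noncomputable def t06_l22 : Lf2 := ⟨nat_lit 0, nat_lit 10, [nat_lit 0, nat_lit 5, nat_lit 5, nat_lit 20], false, nat_lit 160, nat_lit 320, nat_lit 160, nat_lit 320, ⟨nat_lit 1000, nat_lit 0, nat_lit 0, nat_lit 0, nat_lit 0, nat_lit 0, nat_lit 0, nat_lit 0, nat_lit 0, nat_lit 0, nat_lit 0, nat_lit 0, nat_lit 0, nat_lit 0, nat_lit 0, nat_lit 0, false, false⟩,
 nat_lit 0, nat_lit 8531, nat_lit 0, nat_lit 0, nat_lit 5905, nat_lit 4949, nat_lit 1360, nat_lit 0, nat_lit 0, nat_lit 0, nat_lit 0, nat_lit 0, nat_lit 0, nat_lit 10097620632604, nat_lit 0, nat_lit 0, nat_lit 0, nat_lit 0, [],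
 ⟨t06_k5, nat_lit 0, nat_lit 0, nat_lit 283, nat_lit 0, nat_lit 548981, [nat_lit 3282000000, nat_lit 4688000000, nat_lit 7968000000], [], [nat_lit 18312367040, nat_lit 18895453940, nat_lit 24191235510, nat_lit 22818612355, nat_lit 23587842690, nat_lit 24036139015, nat_lit 25530438240, nat_lit 26123222440], nat_lit 1271250, nat_lit 1271250, nat_lit 780000, nat_lit 1762500, nat_lit 1271250, nat_lit 1271250, [nat_lit 780000, nat_lit 1100000, nat_lit 1785000], [nat_lit 36, nat_lit 40, nat_lit 40, nat_lit 80, nat_lit 7, nat_lit 373, nat_lit 150, nat_lit 12]⟩, ⟨t06_k5, nat_lit 0, nat_lit 0, nat_lit 47, nat_lit 0, nat_lit 0, [nat_lit 3282000000, nat_lit 4688000000, nat_lit 7968000000], [], [nat_lit 14436780236, nat_lit 15336354850, nat_lit 18499979168, nat_lit 19216151704, nat_lit 22760699086, nat_lit 23374674621, nat_lit 25059874870, nat_lit 25602156552], nat_lit 0, nat_lit 0, nat_lit 0, nat_lit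 0, nat_lit 0, nat_lit 0, [], [nat_lit 36, nat_lit 40, nat_lit 40, nat_lit 80, nat_lit 7, nat_lit 373, nat_lit 150, nat_lit 12]⟩,
 zbF0, [⟨nat_lit 0, nat_lit 91, nat_lit 91, nat_lit 100, nat_lit 179459401⟩, ⟨nat_lit 16, nat_lit 94, nat_lit 88, nat_lit 100, nat_lit 409650521⟩, ⟨nat_lit 19, nat_lit 94, nat_lit 88, nat_lit 100, nat_lit 506077018⟩]⟩
theorem r_V_700_700_20 (h : EB TB.env) : Dead (RC.box ⟨true, 120, 280, 320, 280, 320, 80, 120, [104]⟩ 0 104) := chkB_sound h (refs := [b_V_700_700_20_0, b_V_700_700_20_1, b_V_700_700_20_2, b_V_700_700_20_3, b_V_700_700_20_4, b_V_700_700_20_5, b_V_700_700_20_6, b_V_700_700_20_7, b_V_700_700_20_8, b_V_700_700_20_9, b_V_700_700_20_10, b_V_700_700_20_11, b_V_700_700_20_12, b_V_700_700_20_13, b_V_700_700_20_14, b_V_700_700_20_15, b_V_700_700_20_16, b_V_700_700_20_17, b_V_700_700_20_18, b_V_700_700_20_19, b_V_700_700_20_20, b_V_700_700_20_21, b_V_700_700_20_22,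 b_V_700_700_20_23, b_V_700_700_20_24, b_V_700_700_20_25, b_V_700_700_20_26, b_V_700_700_20_27, b_V_700_700_20_28, b_V_700_700_20_29, b_V_700_700_20_30, b_V_700_700_20_31, b_V_700_700_20_32, b_V_700_700_20_33, b_V_700_700_20_34, b_V_700_700_20_35, b_V_700_700_20_36, b_V_700_700_20_37, b_V_700_700_20_38, b_V_700_700_20_39, b_V_700_700_20_40, b_V_700_700_20_41, b_V_700_700_20_42, b_V_700_700_20_43, b_V_700_700_20_44, b_V_700_700_20_45, b_V_700_700_20_46, b_V_700_700_20_47, b_V_700_700_20_48, b_V_700_700_20_49, b_V_700_700_20_50, b_V_700_700_20_51, b_V_700_700_20_52, b_V_700_700_20_53, b_V_700_700_20_54, b_V_700_700_20_55, b_V_700_700_20_56, b_V_700_700_20_57, b_V_700_700_20_58, b_V_700_700_20_59, b_V_700_700_20_60, b_V_700_700_20_61, b_V_700_700_20_62, b_V_700_700_20_63, b_V_700_700_20_64, b_V_700_700_20_65, b_V_700_700_20_66, b_V_700_700_20_67, b_V_700_700_20_68, b_V_700_700_20_69, b_V_700_700_20_70,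 b_V_700_700_20_71, b_V_700_700_20_72, b_V_700_700_20_73]) (refs_cons (d_V_700_700_20_0 h) (refs_cons (d_V_700_700_20_1 h) (refs_cons (d_V_700_700_20_2 h) (refs_cons (d_V_700_700_20_3 h) (refs_cons (d_V_700_700_20_4 h) (refs_cons (d_V_700_700_20_5 h) (refs_cons (d_V_700_700_20_6 h) (refs_cons (d_V_700_700_20_7 h) (refs_cons (d_V_700_700_20_8 h) (refs_cons (d_V_700_700_20_9 h) (refs_cons (d_V_700_700_20_10 h) (refs_cons (d_V_700_700_20_11 h) (refs_cons (d_V_700_700_20_12 h) (refs_cons (d_V_700_700_20_13 h) (refs_cons (d_V_700_700_20_14 h) (refs_cons (d_V_700_700_20_15 h) (refs_cons (d_V_700_700_20_16 h) (refs_cons (d_V_700_700_20_17 h) (refs_cons (d_V_700_700_20_18 h) (refs_cons (d_V_700_700_20_19 h) (refs_cons (d_V_700_700_20_20 h) (refs_cons (d_V_700_700_20_21 h) (refs_cons (d_V_700_700_20_22 h) (refs_cons (d_V_700_700_20_23 h) (refs_cons (d_V_700_700_20_24 h) (refs_cons (d_V_700_700_20_25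 h) (refs_cons (d_V_700_700_20_26 h) (refs_cons (d_V_700_700_20_27 h) (refs_cons (d_V_700_700_20_28 h) (refs_cons (d_V_700_700_20_29 h) (refs_cons (d_V_700_700_20_30 h) (refs_cons (d_V_700_700_20_31 h) (refs_cons (d_V_700_700_20_32 h) (refs_cons (d_V_700_700_20_33 h) (refs_cons (d_V_700_700_20_34 h) (refs_cons (d_V_700_700_20_35 h) (refs_cons (d_V_700_700_20_36 h) (refs_cons (d_V_700_700_20_37 h) (refs_cons (d_V_700_700_20_38 h) (refs_cons (d_V_700_700_20_39 h) (refs_cons (d_V_700_700_20_40 h) (refs_cons (d_V_700_700_20_41 h) (refs_cons (d_V_700_700_20_42 h) (refs_cons (d_V_700_700_20_43 h) (refs_cons (d_V_700_700_20_44 h) (refs_cons (d_V_700_700_20_45 h) (refs_cons (d_V_700_700_20_46 h) (refs_cons (d_V_700_700_20_47 h) (refs_cons (d_V_700_700_20_48 h) (refs_cons (d_V_700_700_20_49 h) (refs_cons (d_V_700_700_20_50 h) (refs_cons (d_V_700_700_20_51 h) (refs_cons (d_V_700_700_20_52 h) (refs_cons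 (d_V_700_700_20_53 h) (refs_cons (d_V_700_700_20_54 h) (refs_cons (d_V_700_700_20_55 h) (refs_cons (d_V_700_700_20_56 h) (refs_cons (d_V_700_700_20_57 h) (refs_cons (d_V_700_700_20_58 h) (refs_cons (d_V_700_700_20_59 h) (refs_cons (d_V_700_700_20_60 h) (refs_cons (d_V_700_700_20_61 h) (refs_cons (d_V_700_700_20_62 h) (refs_cons (d_V_700_700_20_63 h) (refs_cons (d_V_700_700_20_64 h) (refs_cons (d_V_700_700_20_65 h) (refs_cons (d_V_700_700_20_66 h) (refs_cons (d_V_700_700_20_67 h) (refs_cons (d_V_700_700_20_68 h) (refs_cons (d_V_700_700_20_69 h) (refs_cons (d_V_700_700_20_70 h) (refs_cons (d_V_700_700_20_71 h) (refs_cons (d_V_700_700_20_72 h) (refs_cons (d_V_700_700_20_73 h) (refs_nil))))))))))))))))))))))))))))))))))))))))))))))))))))))))))))))))))))))))))) (T :=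
(.trZ (nat_lit 0) (nat_lit 100) (nat_lit 100) (nat_lit 80) (nat_lit 64) (.trX (nat_lit 16) (nat_lit 100) (nat_lit 80) (nat_lit 100) (nat_lit 336) (.trX (nat_lit 19) (nat_lit 100) (nat_lit 80) (nat_lit 100) (nat_lit 336) (.spl (nat_lit 6) (nat_lit 40)
(.st (nat_lit 0)
(.gv
(.st (nat_lit 1)
(.ref (nat_lit 0))
(.spl (nat_lit 2) (nat_lit 240)
(.spl (nat_lit 4) (nat_lit 160)
(.ref (nat_lit 1))
(.spl (nat_lit 0) (nat_lit 300)
(.ord (.spl (nat_lit 2) (nat_lit 120)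
(.spl (nat_lit 4) (nat_lit 240)
(.leaf t06_l0)
(.spl (nat_lit 0) (nat_lit 290)
(.ord (.spl (nat_lit 4) (nat_lit 280)
(.ref (nat_lit 2))
(.ref (nat_lit 3))))
(.trZ (nat_lit 0) (nat_lit 100) (nat_lit 97) (nat_lit 84) (nat_lit 72) (.trX (nat_lit 16) (nat_lit 97) (nat_lit 84) (nat_lit 100) (nat_lit 328) (.spl (nat_lit 4) (nat_lit 280)
(.ref (nat_lit 4))
(.spl (nat_lit 7) (nat_lit 600)
(.spl (nat_lit 7) (nat_lit 300)
(.leaf t06_l1)
(.spl (nat_lit 7) (nat_lit 460)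
(.spl (nat_lit 4) (nat_lit 300)
(.ref (nat_lit 5))
(.trX (nat_lit 23) (nat_lit 94) (nat_lit 88) (nat_lit 100) (nat_lit 320) (.spl (nat_lit 3) (nat_lit 100)
(.ref (nat_lit 6))
(.ref (nat_lit 7)))))
(.leaf t06_l2)))
(.leaf t06_l3)))))))
(.ref (nat_lit 8))))
(.trZ (nat_lit 0) (nat_lit 100) (nat_lit 94) (nat_lit 88) (nat_lit 80) (.trX (nat_lit 16) (nat_lit 94) (nat_lit 88) (nat_lit 100) (nat_lit 320) (.spl (nat_lit 4) (nat_lit 240)
(.ref (nat_lit 9))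
(.spl (nat_lit 2) (nat_lit 160)
(.spl (nat_lit 4) (nat_lit 280)
(.ref (nat_lit 10))
(.spl (nat_lit 7) (nat_lit 600)
(.spl (nat_lit 7) (nat_lit 300)
(.leaf t06_l4)
(.spl (nat_lit 7) (nat_lit 460)
(.spl (nat_lit 3) (nat_lit 100)
(.ref (nat_lit 11))
(.spl (nat_lit 2) (nat_lit 120)
(.spl (nat_lit 4) (nat_lit 300)
(.ref (nat_lit 12))
(.ref (nat_lit 13)))
(.ref (nat_lit 14))))
(.leaf t06_l5)))
(.leaf t06_l6)))
(.ref (nat_lit 15))))))))
(.ref (nat_lit 16))))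
(.ref (nat_lit 17)))
(.gv
(.st (nat_lit 1)
(.spl (nat_lit 2) (nat_lit 240)
(.spl (nat_lit 1) (nat_lit 300)
(.spl (nat_lit 4) (nat_lit 160)
(.ref (nat_lit 18))
(.spl (nat_lit 2) (nat_lit 160)
(.spl (nat_lit 0) (nat_lit 300)
(.spl (nat_lit 5) (nat_lit 160)
(.ref (nat_lit 19))
(.spl (nat_lit 0) (nat_lit 290)
(.ref (nat_lit 20))
(.ref (nat_lit 21))))
(.trZ (nat_lit 0) (nat_lit 100) (nat_lit 94) (nat_lit 88) (nat_lit 80) (.trX (nat_lit 16) (nat_lit 94) (nat_lit 88) (nat_lit 100) (nat_lit 320) (.spl (nat_lit 5) (nat_lit 160)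
(.leaf t06_l7)
(.spl (nat_lit 6) (nat_lit 20)
(.ref (nat_lit 22))
(.ref (nat_lit 23)))))))
(.ref (nat_lit 24))))
(.ord (.trZ (nat_lit 0) (nat_lit 100) (nat_lit 100) (nat_lit 100) (nat_lit 100) (.trX (nat_lit 16) (nat_lit 94) (nat_lit 88) (nat_lit 100) (nat_lit 320) (.trX (nat_lit 19) (nat_lit 94) (nat_lit 88) (nat_lit 100) (nat_lit 320) (.spl (nat_lit 5) (nat_lit 160)
(.ref (nat_lit 25))
(.spl (nat_lit 2) (nat_lit 160)
(.spl (nat_lit 4) (nat_lit 160)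
(.leaf t06_l8)
(.spl (nat_lit 0) (nat_lit 310)
(.ord (.spl (nat_lit 4) (nat_lit 240)
(.leaf t06_l9)
(.spl (nat_lit 6) (nat_lit 20)
(.spl (nat_lit 7) (nat_lit 600)
(.leaf t06_l10)
(.spl (nat_lit 5) (nat_lit 240)
(.leaf t06_l11)
(.spl (nat_lit 6) (nat_lit 8)
(.spl (nat_lit 0) (nat_lit 305)
(.ref (nat_lit 26))
(.trZ (nat_lit 0) (nat_lit 98) (nat_lit 97) (nat_lit 100) (nat_lit 104) (.trX (nat_lit 16) (nat_lit 93) (nat_lit 90) (nat_lit 100) (nat_lit 316) (.spl (nat_lit 3) (nat_lit 100)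
(.trX (nat_lit 16) (nat_lit 97) (nat_lit 100) (nat_lit 98) (nat_lit 296) (.trX (nat_lit 19) (nat_lit 100) (nat_lit 100) (nat_lit 100) (nat_lit 300) (.leaf t06_l12)))
(.spl (nat_lit 6) (nat_lit 4)
(.spl (nat_lit 2) (nat_lit 120)
(.ref (nat_lit 27))
(.ref (nat_lit 28)))
(.leaf t06_l13))))))
(.ref (nat_lit 29)))))
(.leaf t06_l14))))
(.ref (nat_lit 30))))
(.ref (nat_lit 31)))))))))
(.ref (nat_lit 32)))
(.spl (nat_lit 2) (nat_lit 240)
(.spl (nat_lit 4) (nat_lit 160)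
(.ref (nat_lit 33))
(.spl (nat_lit 1) (nat_lit 300)
(.spl (nat_lit 4) (nat_lit 240)
(.ref (nat_lit 34))
(.spl (nat_lit 2) (nat_lit 160)
(.spl (nat_lit 5) (nat_lit 160)
(.ref (nat_lit 35))
(.spl (nat_lit 1) (nat_lit 290)
(.spl (nat_lit 2) (nat_lit 120)
(.spl (nat_lit 5) (nat_lit 240)
(.ref (nat_lit 36))
(.spl (nat_lit 0) (nat_lit 300)
(.ref (nat_lit 37))
(.ref (nat_lit 38))))
(.ref (nat_lit 39)))
(.ref (nat_lit 40))))
(.ref (nat_lit 41))))
(.ref (nat_lit 42))))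
(.ref (nat_lit 43))))
(.st (nat_lit 1)
(.spl (nat_lit 2) (nat_lit 240)
(.spl (nat_lit 0) (nat_lit 300)
(.ord (.spl (nat_lit 4) (nat_lit 160)
(.ref (nat_lit 44))
(.ref (nat_lit 45))))
(.trZ (nat_lit 0) (nat_lit 100) (nat_lit 94) (nat_lit 88) (nat_lit 80) (.trX (nat_lit 16) (nat_lit 94) (nat_lit 88) (nat_lit 100) (nat_lit 320) (.spl (nat_lit 4) (nat_lit 160)
(.ref (nat_lit 46))
(.spl (nat_lit 1) (nat_lit 300)
(.ref (nat_lit 47))
(.trZ (nat_lit 0) (nat_lit 100) (nat_lit 100) (nat_lit 100) (nat_lit 100) (.trX (nat_lit 19) (nat_lit 94) (nat_lit 88) (nat_lit 100) (nat_lit 320) (.spl (nat_lit 1) (nat_lit 310)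
(.spl (nat_lit 5) (nat_lit 160)
(.leaf t06_l15)
(.spl (nat_lit 0) (nat_lit 310)
(.spl (nat_lit 2) (nat_lit 120)
(.spl (nat_lit 6) (nat_lit 20)
(.spl (nat_lit 7) (nat_lit 600)
(.leaf t06_l16)
(.spl (nat_lit 6) (nat_lit 8)
(.spl (nat_lit 5) (nat_lit 240)
(.leaf t06_l17)
(.spl (nat_lit 4) (nat_lit 240)
(.leaf t06_l18)
(.spl (nat_lit 0) (nat_lit 305)
(.ref (nat_lit 48))
(.ref (nat_lit 49)))))
(.ref (nat_lit 50))))
(.leaf t06_l19))
(.spl (nat_lit 6) (nat_lit 20)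
(.spl (nat_lit 3) (nat_lit 100)
(.trX (nat_lit 16) (nat_lit 100) (nat_lit 100) (nat_lit 100) (nat_lit 300) (.trX (nat_lit 19) (nat_lit 100) (nat_lit 100) (nat_lit 100) (nat_lit 300) (.leaf t06_l20)))
(.spl (nat_lit 4) (nat_lit 240)
(.leaf t06_l21)
(.spl (nat_lit 6) (nat_lit 8)
(.ref (nat_lit 51))
(.ref (nat_lit 52)))))
(.leaf t06_l22)))
(.ref (nat_lit 53))))
(.ref (nat_lit 54))))))))))
(.ref (nat_lit 55)))
(.ref (nat_lit 56)))))
(.spl (nat_lit 6) (nat_lit 80)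
(.st (nat_lit 0)
(.gv
(.st (nat_lit 1)
(.ref (nat_lit 57))
(.spl (nat_lit 2) (nat_lit 240)
(.spl (nat_lit 1) (nat_lit 300)
(.ref (nat_lit 58))
(.ref (nat_lit 59)))
(.ref (nat_lit 60))))
(.ref (nat_lit 61)))
(.gv
(.st (nat_lit 1)
(.ref (nat_lit 62))
(.spl (nat_lit 2) (nat_lit 240)
(.spl (nat_lit 4) (nat_lit 160)
(.ref (nat_lit 63))
(.spl (nat_lit 1) (nat_lit 300)
(.spl (nat_lit 4) (nat_lit 240)
(.ref (nat_lit 64))
(.spl (nat_lit 2) (nat_lit 160)
(.spl (nat_lit 0) (nat_lit 300)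
(.ref (nat_lit 65))
(.ref (nat_lit 66)))
(.ref (nat_lit 67))))
(.ref (nat_lit 68))))
(.ref (nat_lit 69))))
(.st (nat_lit 1)
(.ref (nat_lit 70))
(.ref (nat_lit 71)))))
(.st (nat_lit 0)
(.ref (nat_lit 72))
(.ref (nat_lit 73))))))))) (by decide +kernel)
theorem done_V_700_700_20 (h : EB TB.env) : RC.Done ⟨true, 120, 280, 320, 280, 320, 80, 120, [104]⟩ := RC.done1 (r_V_700_700_20 h) (t_V_700_700_20 h)
theorem t_V_800_400_10 (h : EB TB.env) : RC.Tail ⟨true, 80, 320, 360, 160, 200, 40, 80, [104]⟩ := RC.tail_chk h (b := ⟨nat_lit 40, nat_lit 52, nat_lit 5, nat_lit 5, nat_lit 20, nat_lit 226, nat_lit 20, nat_lit 18, nat_lit 5⟩) (by decide +kernel)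
noncomputable def t06_l23 : Lf2 := ⟨nat_lit 0, nat_lit 20, [nat_lit 5, nat_lit 5, nat_lit 5, nat_lit 20], true, nat_lit 0, nat_lit 260, nat_lit 0, nat_lit 384, ⟨nat_lit 0, nat_lit 1000, nat_lit 0, nat_lit 4, nat_lit 183, nat_lit 1000, nat_lit 89, nat_lit 0, nat_lit 0, nat_lit 0, nat_lit 0, nat_lit 0, nat_lit 0, nat_lit 0, nat_lit 0, nat_lit 5000000, false, true⟩,
 nat_lit 0, nat_lit 0, nat_lit 0, nat_lit 4648, nat_lit 4428, nat_lit 0, nat_lit 0, nat_lit 0, nat_lit 0, nat_lit 0, nat_lit 0, nat_lit 0, nat_lit 0, nat_lit 0, nat_lit 0, nat_lit 410200, nat_lit 0, nat_lit 0, [(nat_lit 19, [(nat_lit 1, nat_lit 983), (nat_lit 2, nat_lit 17)]), (nat_lit 22, [(nat_lit 1, nat_lit 983), (nat_lit 2, nat_lit 17)])],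
 ⟨t06_k11, nat_lit 0, nat_lit 0, nat_lit 307, nat_lit 0, nat_lit 0, [nat_lit 2054520001, nat_lit 1806933143], [], [nat_lit 28272814408, nat_lit 30590902920, nat_lit 31725560254, nat_lit 33083310816, nat_lit 28011898480, nat_lit 29535583521, nat_lit 30043206276, nat_lit 30927036267], nat_lit 0, nat_lit 0, nat_lit 0, nat_lit 0, nat_lit 0, nat_lit 0, [], [nat_lit 94, nat_lit 40, nat_lit 40, nat_lit 80, nat_lit 95, nat_lit 401, nat_lit 175, nat_lit 12]⟩, C1.Rw.none,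
 ⟨nat_lit 3162, nat_lit 4473, ⟨.ofNat (nat_lit 143971), .ofNat (nat_lit 728778), .ofNat (nat_lit 186943), .ofNat (nat_lit 771911), .ofNat (nat_lit 175109), .ofNat (nat_lit 699502), .ofNat (nat_lit 219258), .ofNat (nat_lit 743812)⟩, ⟨.negSucc (nat_lit 12437), .ofNat (nat_lit 429433), .ofNat (nat_lit 0), .ofNat (nat_lit 472567), .ofNat (nat_lit 0), .ofNat (nat_lit 414188), .ofNat (nat_lit 0), .ofNat (nat_lit 458499)⟩⟩, [⟨nat_lit 13, nat_lit 72, nat_lit 77, nat_lit 100, nat_lit 108468712⟩, ⟨nat_lit 4, nat_lit 100, nat_lit 71, nat_lit 71, nat_lit 45694707⟩]⟩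
theorem r_V_800_400_10 (h : EB TB.env) : Dead (RC.box ⟨true, 80, 320, 360, 160, 200, 40, 80, [104]⟩ 0 104) := chkB_sound h (refs := [b_V_800_400_10_0, b_V_800_400_10_1, b_V_800_400_10_2, b_V_800_400_10_3, b_V_800_400_10_4, b_V_800_400_10_5, b_V_800_400_10_6, b_V_800_400_10_7, b_V_800_400_10_8, b_V_800_400_10_9, b_V_800_400_10_10, b_V_800_400_10_11, b_V_800_400_10_12, b_V_800_400_10_13, b_V_800_400_10_14]) (refs_cons (d_V_800_400_10_0 h) (refs_cons (d_V_800_400_10_1 h) (refs_cons (d_V_800_400_10_2 h) (refs_cons (d_V_800_400_10_3 h) (refs_cons (d_V_800_400_10_4 h) (refs_cons (d_V_800_400_10_5 h) (refs_cons (d_V_800_400_10_6 h) (refs_cons (d_V_800_400_10_7 h) (refs_cons (d_V_800_400_10_8 h) (refs_cons (d_V_800_400_10_9 h) (refs_cons (d_V_800_400_10_10 h) (refs_cons (d_V_800_400_10_11 h) (refs_cons (d_V_800_400_10_12 h) (refs_cons (d_V_800_400_10_13 h) (refs_cons (d_V_800_400_10_14 h) (refs_nil))))))))))))))))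 (T :=
(.trZ (nat_lit 0) (nat_lit 100) (nat_lit 82) (nat_lit 44) (nat_lit 16) (.trX (nat_lit 13) (nat_lit 80) (nat_lit 60) (nat_lit 100) (nat_lit 360) (.trX (nat_lit 16) (nat_lit 83) (nat_lit 100) (nat_lit 83) (nat_lit 260) (.trX (nat_lit 19) (nat_lit 100) (nat_lit 44) (nat_lit 82) (nat_lit 384) (.spl (nat_lit 6) (nat_lit 40)
(.st (nat_lit 0)
(.ref (nat_lit 0))
(.gv
(.st (nat_lit 1)
(.ref (nat_lit 1))
(.spl (nat_lit 2) (nat_lit 160)
(.ref (nat_lit 2))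
(.spl (nat_lit 4) (nat_lit 160)
(.ref (nat_lit 3))
(.ref (nat_lit 4)))))
(.ref (nat_lit 5))))
(.spl (nat_lit 6) (nat_lit 80)
(.st (nat_lit 0)
(.gv
(.ref (nat_lit 6))
(.leaf t06_l23))
(.gv
(.st (nat_lit 1)
(.ref (nat_lit 7))
(.spl (nat_lit 4) (nat_lit 160)
(.ref (nat_lit 8))
(.ref (nat_lit 9))))
(.ref (nat_lit 10))))
(.st (nat_lit 0)
(.ref (nat_lit 11))
(.gv
(.st (nat_lit 1)
(.ref (nat_lit 12))
(.ref (nat_lit 13)))
(.ref (nat_lit 14))))))))))) (by decide +kernel)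
theorem done_V_800_400_10 (h : EB TB.env) : RC.Done ⟨true, 80, 320, 360, 160, 200, 40, 80, [104]⟩ := RC.done1 (r_V_800_400_10 h) (t_V_800_400_10 h)
theorem t_V_800_400_20 (h : EB TB.env) : RC.Tail ⟨true, 120, 320, 360, 160, 200, 80, 120, [76]⟩ := RC.tail_chk h (b := ⟨nat_lit 60, nat_lit 38, nat_lit 5, nat_lit 5, nat_lit 20, nat_lit 238, nat_lit 30, nat_lit 13, nat_lit 15⟩) (by decide +kernel)
theorem r_V_800_400_20 (h : EB TB.env) : Dead (RC.box ⟨true, 120, 320, 360, 160, 200, 80, 120, [76]⟩ 0 76) := chkB_sound h (refs := [b_V_800_400_20_0, b_V_800_400_20_1, b_V_800_400_20_2, b_V_800_400_20_3, b_V_800_400_20_4, b_V_800_400_20_5, b_V_800_400_20_6, b_V_800_400_20_7, b_V_800_400_20_8, b_V_800_400_20_9]) (refs_cons (d_V_800_400_20_0 h) (refs_cons (d_V_800_400_20_1 h) (refs_cons (d_V_800_400_20_2 h) (refs_cons (d_V_800_400_20_3 h) (refs_cons (d_V_800_400_20_4 h) (refs_cons (d_V_800_400_20_5 h)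 (refs_cons (d_V_800_400_20_6 h) (refs_cons (d_V_800_400_20_7 h) (refs_cons (d_V_800_400_20_8 h) (refs_cons (d_V_800_400_20_9 h) (refs_nil))))))))))) (T :=
(.trZ (nat_lit 0) (nat_lit 100) (nat_lit 82) (nat_lit 44) (nat_lit 16) (.trX (nat_lit 13) (nat_lit 80) (nat_lit 60) (nat_lit 100) (nat_lit 360) (.trX (nat_lit 16) (nat_lit 87) (nat_lit 95) (nat_lit 100) (nat_lit 300) (.trX (nat_lit 19) (nat_lit 100) (nat_lit 21) (nat_lit 94) (nat_lit 396) (.spl (nat_lit 6) (nat_lit 40)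
(.st (nat_lit 0)
(.ref (nat_lit 0))
(.gv
(.st (nat_lit 1)
(.spl (nat_lit 4) (nat_lit 160)
(.ref (nat_lit 1))
(.ref (nat_lit 2)))
(.spl (nat_lit 4) (nat_lit 160)
(.ref (nat_lit 3))
(.ref (nat_lit 4))))
(.ref (nat_lit 5))))
(.st (nat_lit 0)
(.ref (nat_lit 6))
(.gv
(.st (nat_lit 1)
(.ref (nat_lit 7))
(.ref (nat_lit 8)))
(.ref (nat_lit 9)))))))))) (by decide +kernel)
theorem done_V_800_400_20 (h : EB TB.env) : RC.Done ⟨true, 120, 320, 360, 160, 200, 80, 120, [76]⟩ := RC.done1 (r_V_800_400_20 h) (t_V_800_400_20 h)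
theorem t_V_800_500_10 (h : EB TB.env) : RC.Tail ⟨true, 80, 320, 360, 200, 240, 40, 80, [112]⟩ := RC.tail_chk h (b := ⟨nat_lit 40, nat_lit 56, nat_lit 5, nat_lit 5, nat_lit 20, nat_lit 226, nat_lit 20, nat_lit 17, nat_lit 5⟩) (by decide +kernel)
noncomputable def t06_l24 : Lf2 := ⟨nat_lit 0, nat_lit 20, [nat_lit 5, nat_lit 5, nat_lit 5, nat_lit 20], true, nat_lit 0, nat_lit 260, nat_lit 0, nat_lit 360, ⟨nat_lit 0, nat_lit 1000, nat_lit 0, nat_lit 5, nat_lit 216, nat_lit 1000, nat_lit 89, nat_lit 0, nat_lit 0, nat_lit 0, nat_lit 0, nat_lit 0, nat_lit 0, nat_lit 0, nat_lit 0, nat_lit 5000000, false, true⟩,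
 nat_lit 0, nat_lit 0, nat_lit 0, nat_lit 4346, nat_lit 4354, nat_lit 0, nat_lit 0, nat_lit 0, nat_lit 0, nat_lit 0, nat_lit 0, nat_lit 0, nat_lit 0, nat_lit 0, nat_lit 0, nat_lit 395800, nat_lit 0, nat_lit 0, [(nat_lit 19, [(nat_lit 0, nat_lit 28), (nat_lit 1, nat_lit 972)]), (nat_lit 22, [(nat_lit 0, nat_lit 28), (nat_lit 1, nat_lit 972)])],
 ⟨t06_k11, nat_lit 0, nat_lit 0, nat_lit 292, nat_lit 0, nat_lit 0, [nat_lit 2017214401, nat_lit 1931031543], [], [nat_lit 27433262430, nat_lit 29710967526, nat_lit 32980782819, nat_lit 34621217016, nat_lit 27374657217, nat_lit 28945410198, nat_lit 30933045195, nat_lit 31997384524], nat_lit 0, nat_lit 0, nat_lit 0, nat_lit 0, nat_lit 0, nat_lit 0, [], [nat_lit 94, nat_lit 40, nat_lit 40, nat_lit 80, nat_lit 95, nat_lit 401, nat_lit 175, nat_lit 12]⟩, C1.Rw.none,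
 ⟨nat_lit 3162, nat_lit 4473, ⟨.ofNat (nat_lit 227776), .ofNat (nat_lit 812698), .ofNat (nat_lit 270729), .ofNat (nat_lit 855831), .ofNat (nat_lit 255876), .ofNat (nat_lit 780384), .ofNat (nat_lit 300005), .ofNat (nat_lit 824694)⟩, ⟨.negSucc (nat_lit 12437), .ofNat (nat_lit 429433), .ofNat (nat_lit 0), .ofNat (nat_lit 472567), .ofNat (nat_lit 0), .ofNat (nat_lit 414188), .ofNat (nat_lit 0), .ofNat (nat_lit 458499)⟩⟩, [⟨nat_lit 13, nat_lit 72, nat_lit 63, nat_lit 100, nat_lit 135398814⟩, ⟨nat_lit 4, nat_lit 100, nat_lit 71, nat_lit 71, nat_lit 28736566⟩]⟩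
noncomputable def t06_l25 : Lf2 := ⟨nat_lit 0, nat_lit 20, [nat_lit 5, nat_lit 5, nat_lit 5, nat_lit 20], true, nat_lit 0, nat_lit 260, nat_lit 0, nat_lit 360, ⟨nat_lit 0, nat_lit 1000, nat_lit 0, nat_lit 5, nat_lit 216, nat_lit 1000, nat_lit 89, nat_lit 0, nat_lit 0, nat_lit 0, nat_lit 0, nat_lit 0, nat_lit 0, nat_lit 0, nat_lit 0, nat_lit 5000000, false, true⟩,
 nat_lit 0, nat_lit 0, nat_lit 0, nat_lit 4394, nat_lit 4349, nat_lit 0, nat_lit 0, nat_lit 0, nat_lit 0, nat_lit 0, nat_lit 0, nat_lit 0, nat_lit 0, nat_lit 0, nat_lit 0, nat_lit 394450, nat_lit 0, nat_lit 0, [(nat_lit 19, [(nat_lit 0, nat_lit 37), (nat_lit 1, nat_lit 963)]), (nat_lit 22, [(nat_lit 0, nat_lit 37), (nat_lit 1, nat_lit 963)])],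
 ⟨t06_k11, nat_lit 0, nat_lit 0, nat_lit 292, nat_lit 0, nat_lit 0, [nat_lit 2013747601, nat_lit 1942659029], [], [nat_lit 27456552722, nat_lit 29733048198, nat_lit 33006387275, nat_lit 34606731996, nat_lit 27403829164, nat_lit 28973868530, nat_lit 30965624470, nat_lit 32010856776], nat_lit 0, nat_lit 0, nat_lit 0, nat_lit 0, nat_lit 0, nat_lit 0, [], [nat_lit 94, nat_lit 40, nat_lit 40, nat_lit 80, nat_lit 95, nat_lit 401, nat_lit 175, nat_lit 12]⟩, C1.Rw.none,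
 ⟨nat_lit 3162, nat_lit 4473, ⟨.ofNat (nat_lit 227776), .ofNat (nat_lit 812698), .ofNat (nat_lit 270729), .ofNat (nat_lit 855831), .ofNat (nat_lit 255876), .ofNat (nat_lit 780384), .ofNat (nat_lit 300005), .ofNat (nat_lit 824694)⟩, ⟨.negSucc (nat_lit 12437), .ofNat (nat_lit 429433), .ofNat (nat_lit 0), .ofNat (nat_lit 472567), .ofNat (nat_lit 0), .ofNat (nat_lit 414188), .ofNat (nat_lit 0), .ofNat (nat_lit 458499)⟩⟩, [⟨nat_lit 13, nat_lit 72, nat_lit 63, nat_lit 100, nat_lit 135471828⟩, ⟨nat_lit 4, nat_lit 100, nat_lit 71, nat_lit 71, nat_lit 30187453⟩]⟩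
theorem r_V_800_500_10 (h : EB TB.env) : Dead (RC.box ⟨true, 80, 320, 360, 200, 240, 40, 80, [112]⟩ 0 112) := chkB_sound h (refs := [b_V_800_500_10_0, b_V_800_500_10_1, b_V_800_500_10_2, b_V_800_500_10_3, b_V_800_500_10_4, b_V_800_500_10_5, b_V_800_500_10_6, b_V_800_500_10_7, b_V_800_500_10_8, b_V_800_500_10_9, b_V_800_500_10_10, b_V_800_500_10_11, b_V_800_500_10_12, b_V_800_500_10_13, b_V_800_500_10_14, b_V_800_500_10_15, b_V_800_500_10_16, b_V_800_500_10_17, b_V_800_500_10_18, b_V_800_500_10_19, b_V_800_500_10_20, b_V_800_500_10_21, b_V_800_500_10_22]) (refs_cons (d_V_800_500_10_0 h) (refs_cons (d_V_800_500_10_1 h) (refs_cons (d_V_800_500_10_2 h) (refs_cons (d_V_800_500_10_3 h) (refs_cons (d_V_800_500_10_4 h) (refs_cons (d_V_800_500_10_5 h) (refs_cons (d_V_800_500_10_6 h) (refs_cons (d_V_800_500_10_7 h) (refs_cons (d_V_800_500_10_8 h) (refs_cons (d_V_800_500_10_9 h) (refs_cons (d_V_800_500_10_10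 h) (refs_cons (d_V_800_500_10_11 h) (refs_cons (d_V_800_500_10_12 h) (refs_cons (d_V_800_500_10_13 h) (refs_cons (d_V_800_500_10_14 h) (refs_cons (d_V_800_500_10_15 h) (refs_cons (d_V_800_500_10_16 h) (refs_cons (d_V_800_500_10_17 h) (refs_cons (d_V_800_500_10_18 h) (refs_cons (d_V_800_500_10_19 h) (refs_cons (d_V_800_500_10_20 h) (refs_cons (d_V_800_500_10_21 h) (refs_cons (d_V_800_500_10_22 h) (refs_nil)))))))))))))))))))))))) (T :=
(.trZ (nat_lit 0) (nat_lit 100) (nat_lit 80) (nat_lit 60) (nat_lit 40) (.trX (nat_lit 13) (nat_lit 82) (nat_lit 44) (nat_lit 100) (nat_lit 384) (.trX (nat_lit 16) (nat_lit 83) (nat_lit 100) (nat_lit 83) (nat_lit 260) (.trX (nat_lit 19) (nat_lit 100) (nat_lit 60) (nat_lit 80) (nat_lit 360) (.spl (nat_lit 6) (nat_lit 40)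
(.st (nat_lit 0)
(.ref (nat_lit 0))
(.gv
(.st (nat_lit 1)
(.spl (nat_lit 2) (nat_lit 240)
(.spl (nat_lit 4) (nat_lit 160)
(.ref (nat_lit 1))
(.ref (nat_lit 2)))
(.ref (nat_lit 3)))
(.spl (nat_lit 2) (nat_lit 240)
(.ref (nat_lit 4))
(.ref (nat_lit 5))))
(.ref (nat_lit 6))))
(.spl (nat_lit 6) (nat_lit 80)
(.st (nat_lit 0)
(.gv
(.st (nat_lit 1)
(.ref (nat_lit 7))
(.spl (nat_lit 2) (nat_lit 240)
(.ref (nat_lit 8))
(.spl (nat_lit 4) (nat_lit 160)
(.spl (nat_lit 2) (nat_lit 320)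
(.ref (nat_lit 9))
(.trX (nat_lit 22) (nat_lit 82) (nat_lit 76) (nat_lit 100) (nat_lit 336) (.spl (nat_lit 0) (nat_lit 340)
(.ref (nat_lit 10))
(.ref (nat_lit 11)))))
(.ref (nat_lit 12)))))
(.leaf t06_l24))
(.gv
(.st (nat_lit 1)
(.ref (nat_lit 13))
(.spl (nat_lit 2) (nat_lit 240)
(.ref (nat_lit 14))
(.spl (nat_lit 4) (nat_lit 160)
(.ref (nat_lit 15))
(.ref (nat_lit 16)))))
(.ref (nat_lit 17))))
(.st (nat_lit 0)
(.gv
(.st (nat_lit 1)
(.ref (nat_lit 18))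
(.spl (nat_lit 2) (nat_lit 240)
(.ref (nat_lit 19))
(.ref (nat_lit 20))))
(.leaf t06_l25))
(.gv
(.ref (nat_lit 21))
(.ref (nat_lit 22))))))))))) (by decide +kernel)
theorem done_V_800_500_10 (h : EB TB.env) : RC.Done ⟨true, 80, 320, 360, 200, 240, 40, 80, [112]⟩ := RC.done1 (r_V_800_500_10 h) (t_V_800_500_10 h)
theorem t_V_800_500_20 (h : EB TB.env) : RC.Tail ⟨true, 120, 320, 360, 200, 240, 80, 120, [92]⟩ := RC.tail_chk h (b := ⟨nat_lit 60, nat_lit 46, nat_lit 5, nat_lit 5, nat_lit 20, nat_lit 238, nat_lit 30, nat_lit 12, nat_lit 15⟩) (by decide +kernel)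
theorem r_V_800_500_20 (h : EB TB.env) : Dead (RC.box ⟨true, 120, 320, 360, 200, 240, 80, 120, [92]⟩ 0 92) := chkB_sound h (refs := [b_V_800_500_20_0, b_V_800_500_20_1, b_V_800_500_20_2, b_V_800_500_20_3, b_V_800_500_20_4, b_V_800_500_20_5, b_V_800_500_20_6, b_V_800_500_20_7, b_V_800_500_20_8, b_V_800_500_20_9, b_V_800_500_20_10, b_V_800_500_20_11, b_V_800_500_20_12, b_V_800_500_20_13, b_V_800_500_20_14, b_V_800_500_20_15, b_V_800_500_20_16, b_V_800_500_20_17, b_V_800_500_20_18, b_V_800_500_20_19, b_V_800_500_20_20, b_V_800_500_20_21, b_V_800_500_20_22]) (refs_cons (d_V_800_500_20_0 h) (refs_cons (d_V_800_500_20_1 h) (refs_cons (d_V_800_500_20_2 h) (refs_cons (d_V_800_500_20_3 h) (refs_cons (d_V_800_500_20_4 h) (refs_cons (d_V_800_500_20_5 h) (refs_cons (d_V_800_500_20_6 h) (refs_cons (d_V_800_500_20_7 h) (refs_cons (d_V_800_500_20_8 h) (refs_cons (d_V_800_500_20_9 h) (refs_cons (d_V_800_500_20_10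 h) (refs_cons (d_V_800_500_20_11 h) (refs_cons (d_V_800_500_20_12 h) (refs_cons (d_V_800_500_20_13 h) (refs_cons (d_V_800_500_20_14 h) (refs_cons (d_V_800_500_20_15 h) (refs_cons (d_V_800_500_20_16 h) (refs_cons (d_V_800_500_20_17 h) (refs_cons (d_V_800_500_20_18 h) (refs_cons (d_V_800_500_20_19 h) (refs_cons (d_V_800_500_20_20 h) (refs_cons (d_V_800_500_20_21 h) (refs_cons (d_V_800_500_20_22 h) (refs_nil)))))))))))))))))))))))) (T :=
(.trZ (nat_lit 0) (nat_lit 100) (nat_lit 80) (nat_lit 60) (nat_lit 40) (.trX (nat_lit 13) (nat_lit 82) (nat_lit 44) (nat_lit 100) (nat_lit 384) (.trX (nat_lit 16) (nat_lit 87) (nat_lit 95) (nat_lit 100) (nat_lit 300) (.trX (nat_lit 19) (nat_lit 100) (nat_lit 40) (nat_lit 92) (nat_lit 384) (.spl (nat_lit 6) (nat_lit 40)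
(.st (nat_lit 0)
(.gv
(.st (nat_lit 1)
(.ref (nat_lit 0))
(.spl (nat_lit 4) (nat_lit 160)
(.ref (nat_lit 1))
(.ref (nat_lit 2))))
(.ref (nat_lit 3)))
(.gv
(.st (nat_lit 1)
(.spl (nat_lit 2) (nat_lit 240)
(.spl (nat_lit 4) (nat_lit 160)
(.ref (nat_lit 4))
(.spl (nat_lit 2) (nat_lit 160)
(.ref (nat_lit 5))
(.ref (nat_lit 6))))
(.ref (nat_lit 7)))
(.spl (nat_lit 2) (nat_lit 240)
(.ref (nat_lit 8))
(.spl (nat_lit 4) (nat_lit 160)
(.ref (nat_lit 9))
(.spl (nat_lit 0) (nat_lit 340)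
(.ref (nat_lit 10))
(.ref (nat_lit 11))))))
(.ref (nat_lit 12))))
(.spl (nat_lit 6) (nat_lit 80)
(.st (nat_lit 0)
(.gv
(.st (nat_lit 1)
(.ref (nat_lit 13))
(.spl (nat_lit 4) (nat_lit 160)
(.ref (nat_lit 14))
(.ref (nat_lit 15))))
(.ref (nat_lit 16)))
(.gv
(.st (nat_lit 1)
(.ref (nat_lit 17))
(.spl (nat_lit 2) (nat_lit 240)
(.ref (nat_lit 18))
(.ref (nat_lit 19))))
(.ref (nat_lit 20))))
(.st (nat_lit 0)
(.ref (nat_lit 21))
(.ref (nat_lit 22)))))))))) (by decide +kernel)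
theorem done_V_800_500_20 (h : EB TB.env) : RC.Done ⟨true, 120, 320, 360, 200, 240, 80, 120, [92]⟩ := RC.done1 (r_V_800_500_20 h) (t_V_800_500_20 h)
theorem t_V_800_600_10 (h : EB TB.env) : RC.Tail ⟨true, 80, 320, 360, 240, 280, 40, 80, [124]⟩ := RC.tail_chk h (b := ⟨nat_lit 40, nat_lit 62, nat_lit 5, nat_lit 5, nat_lit 20, nat_lit 226, nat_lit 20, nat_lit 17, nat_lit 5⟩) (by decide +kernel)
theorem r_V_800_600_10 (h : EB TB.env) : Dead (RC.box ⟨true, 80, 320, 360, 240, 280, 40, 80, [124]⟩ 0 124) := chkB_sound h (refs := [b_V_800_600_10_0, b_V_800_600_10_1, b_V_800_600_10_2, b_V_800_600_10_3, b_V_800_600_10_4, b_V_800_600_10_5, b_V_800_600_10_6, b_V_800_600_10_7, b_V_800_600_10_8, b_V_800_600_10_9, b_V_800_600_10_10, b_V_800_600_10_11, b_V_800_600_10_12, b_V_800_600_10_13, b_V_800_600_10_14, b_V_800_600_10_15, b_V_800_600_10_16, b_V_800_600_10_17, b_V_800_600_10_18, b_V_800_600_10_19, b_V_800_600_10_20,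 b_V_800_600_10_21, b_V_800_600_10_22, b_V_800_600_10_23, b_V_800_600_10_24, b_V_800_600_10_25, b_V_800_600_10_26, b_V_800_600_10_27, b_V_800_600_10_28, b_V_800_600_10_29, b_V_800_600_10_30, b_V_800_600_10_31, b_V_800_600_10_32, b_V_800_600_10_33, b_V_800_600_10_34]) (refs_cons (d_V_800_600_10_0 h) (refs_cons (d_V_800_600_10_1 h) (refs_cons (d_V_800_600_10_2 h) (refs_cons (d_V_800_600_10_3 h) (refs_cons (d_V_800_600_10_4 h) (refs_cons (d_V_800_600_10_5 h) (refs_cons (d_V_800_600_10_6 h) (refs_cons (d_V_800_600_10_7 h) (refs_cons (d_V_800_600_10_8 h) (refs_cons (d_V_800_600_10_9 h) (refs_cons (d_V_800_600_10_10 h) (refs_cons (d_V_800_600_10_11 h) (refs_cons (d_V_800_600_10_12 h) (refs_cons (d_V_800_600_10_13 h) (refs_cons (d_V_800_600_10_14 h) (refs_cons (d_V_800_600_10_15 h) (refs_cons (d_V_800_600_10_16 h) (refs_cons (d_V_800_600_10_17 h) (refs_cons (d_V_800_600_10_18 h) (refs_cons (d_V_800_600_10_19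 h) (refs_cons (d_V_800_600_10_20 h) (refs_cons (d_V_800_600_10_21 h) (refs_cons (d_V_800_600_10_22 h) (refs_cons (d_V_800_600_10_23 h) (refs_cons (d_V_800_600_10_24 h) (refs_cons (d_V_800_600_10_25 h) (refs_cons (d_V_800_600_10_26 h) (refs_cons (d_V_800_600_10_27 h) (refs_cons (d_V_800_600_10_28 h) (refs_cons (d_V_800_600_10_29 h) (refs_cons (d_V_800_600_10_30 h) (refs_cons (d_V_800_600_10_31 h) (refs_cons (d_V_800_600_10_32 h) (refs_cons (d_V_800_600_10_33 h) (refs_cons (d_V_800_600_10_34 h) (refs_nil)))))))))))))))))))))))))))))))))))) (T :=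
(.trZ (nat_lit 0) (nat_lit 100) (nat_lit 82) (nat_lit 76) (nat_lit 64) (.trX (nat_lit 13) (nat_lit 87) (nat_lit 25) (nat_lit 100) (nat_lit 396) (.trX (nat_lit 16) (nat_lit 83) (nat_lit 100) (nat_lit 83) (nat_lit 260) (.trX (nat_lit 19) (nat_lit 100) (nat_lit 76) (nat_lit 82) (nat_lit 336) (.spl (nat_lit 6) (nat_lit 40)
(.st (nat_lit 0)
(.gv
(.st (nat_lit 1)
(.ref (nat_lit 0))
(.spl (nat_lit 2) (nat_lit 240)
(.ref (nat_lit 1))
(.spl (nat_lit 4) (nat_lit 160)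
(.ref (nat_lit 2))
(.ref (nat_lit 3)))))
(.ref (nat_lit 4)))
(.gv
(.st (nat_lit 1)
(.spl (nat_lit 2) (nat_lit 240)
(.spl (nat_lit 4) (nat_lit 160)
(.ref (nat_lit 5))
(.ref (nat_lit 6)))
(.ref (nat_lit 7)))
(.spl (nat_lit 2) (nat_lit 240)
(.ref (nat_lit 8))
(.ref (nat_lit 9))))
(.ref (nat_lit 10))))
(.spl (nat_lit 6) (nat_lit 80)
(.st (nat_lit 0)
(.gv
(.st (nat_lit 1)
(.ref (nat_lit 11))
(.spl (nat_lit 2) (nat_lit 240)
(.ref (nat_lit 12))
(.spl (nat_lit 4) (nat_lit 160)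
(.spl (nat_lit 2) (nat_lit 320)
(.ref (nat_lit 13))
(.spl (nat_lit 4) (nat_lit 80)
(.trX (nat_lit 22) (nat_lit 83) (nat_lit 100) (nat_lit 83) (nat_lit 260) (.spl (nat_lit 0) (nat_lit 340)
(.ref (nat_lit 14))
(.ref (nat_lit 15))))
(.spl (nat_lit 2) (nat_lit 360)
(.ref (nat_lit 16))
(.ref (nat_lit 17)))))
(.ref (nat_lit 18)))))
(.ref (nat_lit 19)))
(.gv
(.st (nat_lit 1)
(.ref (nat_lit 20))
(.spl (nat_lit 2) (nat_lit 240)
(.ref (nat_lit 21))
(.ref (nat_lit 22))))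
(.ref (nat_lit 23))))
(.spl (nat_lit 6) (nat_lit 120)
(.st (nat_lit 0)
(.gv
(.st (nat_lit 1)
(.ref (nat_lit 24))
(.spl (nat_lit 2) (nat_lit 240)
(.ref (nat_lit 25))
(.spl (nat_lit 4) (nat_lit 160)
(.spl (nat_lit 2) (nat_lit 320)
(.ref (nat_lit 26))
(.ref (nat_lit 27)))
(.ref (nat_lit 28)))))
(.ref (nat_lit 29)))
(.gv
(.st (nat_lit 1)
(.ref (nat_lit 30))
(.spl (nat_lit 2) (nat_lit 240)
(.ref (nat_lit 31))
(.ref (nat_lit 32))))
(.ref (nat_lit 33))))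
(.ref (nat_lit 34)))))))))) (by decide +kernel)
theorem done_V_800_600_10 (h : EB TB.env) : RC.Done ⟨true, 80, 320, 360, 240, 280, 40, 80, [124]⟩ := RC.done1 (r_V_800_600_10 h) (t_V_800_600_10 h)
theorem t_V_800_600_20 (h : EB TB.env) : RC.Tail ⟨true, 120, 320, 360, 240, 280, 80, 120, [120]⟩ := RC.tail_chk h (b := ⟨nat_lit 60, nat_lit 60, nat_lit 5, nat_lit 5, nat_lit 20, nat_lit 238, nat_lit 30, nat_lit 12, nat_lit 15⟩) (by decide +kernel)
noncomputable def t06_l26 : Lf2 := ⟨nat_lit 0, nat_lit 10, [nat_lit 0, nat_lit 5, nat_lit 5, nat_lit 20], true, nat_lit 240, nat_lit 300, nat_lit 112, nat_lit 352, ⟨nat_lit 0, nat_lit 1000, nat_lit 0, nat_lit 9, nat_lit 345, nat_lit 1000, nat_lit 201, nat_lit 0, nat_lit 0, nat_lit 0, nat_lit 0, nat_lit 0, nat_lit 32220552, nat_lit 24596923, nat_lit 10182525, nat_lit 5425688, true, true⟩,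
 nat_lit 0, nat_lit 0, nat_lit 0, nat_lit 1454, nat_lit 0, nat_lit 0, nat_lit 0, nat_lit 0, nat_lit 326, nat_lit 0, nat_lit 0, nat_lit 0, nat_lit 0, nat_lit 0, nat_lit 0, nat_lit 250000, nat_lit 0, nat_lit 0, [(nat_lit 18, [(nat_lit 0, nat_lit 1000)]), (nat_lit 21, [(nat_lit 0, nat_lit 1000)])],
 ⟨t06_k12, nat_lit 0, nat_lit 0, nat_lit 0, nat_lit 0, nat_lit 0, [nat_lit 1558400000, nat_lit 2168000000, nat_lit 2562000000], [], [nat_lit 24485120000, nat_lit 25626104000, nat_lit 25577792000, nat_lit 26705787600, nat_lit 26017047000, nat_lit 27132990000, nat_lit 27085980600, nat_lit 28157040600], nat_lit 0, nat_lit 0, nat_lit 0, nat_lit 0, nat_lit 0, nat_lit 0, [], [nat_lit 6, nat_lit 40, nat_lit 40, nat_lit 80]⟩, C1.Rw.none,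
 ⟨nat_lit 3162, nat_lit 4473, ⟨.ofNat (nat_lit 836574), .ofNat (nat_lit 897791), .ofNat (nat_lit 858073), .ofNat (nat_lit 919290), .ofNat (nat_lit 810240), .ofNat (nat_lit 865135), .ofNat (nat_lit 832328), .ofNat (nat_lit 887222)⟩, ⟨.ofNat (nat_lit 438578), .ofNat (nat_lit 540545), .ofNat (nat_lit 481711), .ofNat (nat_lit 583678), .ofNat (nat_lit 428022), .ofNat (nat_lit 519453), .ofNat (nat_lit 472332), .ofNat (nat_lit 563762)⟩⟩, [⟨nat_lit 13, nat_lit 87, nat_lit 25, nat_lit 100, nat_lit 132718706⟩]⟩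
noncomputable def t06_l27 : Lf2 := ⟨nat_lit 2, nat_lit 10, [nat_lit 0, nat_lit 5, nat_lit 5, nat_lit 20], true, nat_lit 240, nat_lit 300, nat_lit 112, nat_lit 352, zbN0,
 nat_lit 0, nat_lit 0, nat_lit 0, nat_lit 0, nat_lit 0, nat_lit 0, nat_lit 0, nat_lit 0, nat_lit 0, nat_lit 0, nat_lit 0, nat_lit 0, nat_lit 0, nat_lit 0, nat_lit 0, nat_lit 0, nat_lit 0, nat_lit 0, [],
 ⟨t06_k12, nat_lit 0, nat_lit 0, nat_lit 76, nat_lit 0, nat_lit 0, [], [], [], nat_lit 0, nat_lit 0, nat_lit 0, nat_lit 0, nat_lit 0, nat_lit 0, [], [nat_lit 6, nat_lit 40, nat_lit 40, nat_lit 80, nat_lit 3, nat_lit 203, nat_lit 0, nat_lit 5]⟩, C1.Rw.none,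
 zbF0, []⟩
theorem r_V_800_600_20 (h : EB TB.env) : Dead (RC.box ⟨true, 120, 320, 360, 240, 280, 80, 120, [120]⟩ 0 120) := chkB_sound h (refs := [b_V_800_600_20_0, b_V_800_600_20_1, b_V_800_600_20_2, b_V_800_600_20_3, b_V_800_600_20_4, b_V_800_600_20_5, b_V_800_600_20_6, b_V_800_600_20_7, b_V_800_600_20_8, b_V_800_600_20_9, b_V_800_600_20_10, b_V_800_600_20_11, b_V_800_600_20_12, b_V_800_600_20_13, b_V_800_600_20_14, b_V_800_600_20_15, b_V_800_600_20_16, b_V_800_600_20_17, b_V_800_600_20_18, b_V_800_600_20_19, b_V_800_600_20_20, b_V_800_600_20_21, b_V_800_600_20_22, b_V_800_600_20_23, b_V_800_600_20_24, b_V_800_600_20_25, b_V_800_600_20_26, b_V_800_600_20_27, b_V_800_600_20_28, b_V_800_600_20_29, b_V_800_600_20_30, b_V_800_600_20_31, b_V_800_600_20_32, b_V_800_600_20_33, b_V_800_600_20_34, b_V_800_600_20_35, b_V_800_600_20_36, b_V_800_600_20_37, b_V_800_600_20_38, b_V_800_600_20_39, b_V_800_600_20_40,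 b_V_800_600_20_41, b_V_800_600_20_42, b_V_800_600_20_43, b_V_800_600_20_44, b_V_800_600_20_45, b_V_800_600_20_46, b_V_800_600_20_47, b_V_800_600_20_48, b_V_800_600_20_49, b_V_800_600_20_50, b_V_800_600_20_51, b_V_800_600_20_52, b_V_800_600_20_53, b_V_800_600_20_54, b_V_800_600_20_55]) (refs_cons (d_V_800_600_20_0 h) (refs_cons (d_V_800_600_20_1 h) (refs_cons (d_V_800_600_20_2 h) (refs_cons (d_V_800_600_20_3 h) (refs_cons (d_V_800_600_20_4 h) (refs_cons (d_V_800_600_20_5 h) (refs_cons (d_V_800_600_20_6 h) (refs_cons (d_V_800_600_20_7 h) (refs_cons (d_V_800_600_20_8 h) (refs_cons (d_V_800_600_20_9 h) (refs_cons (d_V_800_600_20_10 h) (refs_cons (d_V_800_600_20_11 h) (refs_cons (d_V_800_600_20_12 h) (refs_cons (d_V_800_600_20_13 h) (refs_cons (d_V_800_600_20_14 h) (refs_cons (d_V_800_600_20_15 h) (refs_cons (d_V_800_600_20_16 h) (refs_cons (d_V_800_600_20_17 h) (refs_cons (d_V_800_600_20_18 h)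 (refs_cons (d_V_800_600_20_19 h) (refs_cons (d_V_800_600_20_20 h) (refs_cons (d_V_800_600_20_21 h) (refs_cons (d_V_800_600_20_22 h) (refs_cons (d_V_800_600_20_23 h) (refs_cons (d_V_800_600_20_24 h) (refs_cons (d_V_800_600_20_25 h) (refs_cons (d_V_800_600_20_26 h) (refs_cons (d_V_800_600_20_27 h) (refs_cons (d_V_800_600_20_28 h) (refs_cons (d_V_800_600_20_29 h) (refs_cons (d_V_800_600_20_30 h) (refs_cons (d_V_800_600_20_31 h) (refs_cons (d_V_800_600_20_32 h) (refs_cons (d_V_800_600_20_33 h) (refs_cons (d_V_800_600_20_34 h) (refs_cons (d_V_800_600_20_35 h) (refs_cons (d_V_800_600_20_36 h) (refs_cons (d_V_800_600_20_37 h) (refs_cons (d_V_800_600_20_38 h) (refs_cons (d_V_800_600_20_39 h) (refs_cons (d_V_800_600_20_40 h) (refs_cons (d_V_800_600_20_41 h) (refs_cons (d_V_800_600_20_42 h) (refs_cons (d_V_800_600_20_43 h) (refs_cons (d_V_800_600_20_44 h) (refs_cons (d_V_800_600_20_45 h) (refs_cons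 (d_V_800_600_20_46 h) (refs_cons (d_V_800_600_20_47 h) (refs_cons (d_V_800_600_20_48 h) (refs_cons (d_V_800_600_20_49 h) (refs_cons (d_V_800_600_20_50 h) (refs_cons (d_V_800_600_20_51 h) (refs_cons (d_V_800_600_20_52 h) (refs_cons (d_V_800_600_20_53 h) (refs_cons (d_V_800_600_20_54 h) (refs_cons (d_V_800_600_20_55 h) (refs_nil))))))))))))))))))))))))))))))))))))))))))))))))))))))))) (T :=
(.trZ (nat_lit 0) (nat_lit 100) (nat_lit 82) (nat_lit 76) (nat_lit 64) (.trX (nat_lit 13) (nat_lit 87) (nat_lit 25) (nat_lit 100) (nat_lit 396) (.trX (nat_lit 16) (nat_lit 87) (nat_lit 95) (nat_lit 100) (nat_lit 300) (.trX (nat_lit 19) (nat_lit 100) (nat_lit 59) (nat_lit 94) (nat_lit 364) (.spl (nat_lit 6) (nat_lit 40)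
(.st (nat_lit 0)
(.gv
(.st (nat_lit 1)
(.ref (nat_lit 0))
(.spl (nat_lit 2) (nat_lit 240)
(.ref (nat_lit 1))
(.spl (nat_lit 4) (nat_lit 160)
(.ref (nat_lit 2))
(.spl (nat_lit 2) (nat_lit 320)
(.ref (nat_lit 3))
(.trZ (nat_lit 9) (nat_lit 100) (nat_lit 82) (nat_lit 44) (nat_lit 16) (.spl (nat_lit 2) (nat_lit 360)
(.spl (nat_lit 4) (nat_lit 240)
(.ref (nat_lit 4))
(.trZ (nat_lit 9) (nat_lit 100) (nat_lit 82) (nat_lit 76) (nat_lit 64) (.spl (nat_lit 1) (nat_lit 260)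
(.ref (nat_lit 5))
(.ref (nat_lit 6)))))
(.trZ (nat_lit 9) (nat_lit 100) (nat_lit 61) (nat_lit 68) (nat_lit 48) (.spl (nat_lit 4) (nat_lit 240)
(.ref (nat_lit 7))
(.trZ (nat_lit 9) (nat_lit 100) (nat_lit 61) (nat_lit 92) (nat_lit 112) (.spl (nat_lit 1) (nat_lit 260)
(.trX (nat_lit 13) (nat_lit 84) (nat_lit 35) (nat_lit 100) (nat_lit 392) (.spl (nat_lit 3) (nat_lit 100)
(.ref (nat_lit 8))
(.spl (nat_lit 0) (nat_lit 340)
(.spl (nat_lit 6) (nat_lit 20)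
(.ref (nat_lit 9))
(.ref (nat_lit 10)))
(.ref (nat_lit 11)))))
(.trX (nat_lit 19) (nat_lit 100) (nat_lit 69) (nat_lit 96) (nat_lit 352) (.spl (nat_lit 7) (nat_lit 600)
(.spl (nat_lit 7) (nat_lit 300)
(.leaf t06_l26)
(.ref (nat_lit 12)))
(.leaf t06_l27)))))))))))))
(.ref (nat_lit 13)))
(.gv
(.st (nat_lit 1)
(.spl (nat_lit 2) (nat_lit 240)
(.spl (nat_lit 4) (nat_lit 160)
(.ref (nat_lit 14))
(.spl (nat_lit 2) (nat_lit 160)
(.spl (nat_lit 0) (nat_lit 340)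
(.spl (nat_lit 1) (nat_lit 260)
(.ref (nat_lit 15))
(.ref (nat_lit 16)))
(.ref (nat_lit 17)))
(.ref (nat_lit 18))))
(.ref (nat_lit 19)))
(.spl (nat_lit 2) (nat_lit 240)
(.spl (nat_lit 4) (nat_lit 160)
(.ref (nat_lit 20))
(.spl (nat_lit 2) (nat_lit 160)
(.spl (nat_lit 4) (nat_lit 240)
(.ref (nat_lit 21))
(.spl (nat_lit 0) (nat_lit 340)
(.spl (nat_lit 1) (nat_lit 260)
(.ref (nat_lit 22))
(.trZ (nat_lit 0) (nat_lit 100) (nat_lit 84) (nat_lit 85) (nat_lit 80) (.trX (nat_lit 19) (nat_lit 100) (nat_lit 69) (nat_lit 96) (nat_lit 352) (.spl (nat_lit 5) (nat_lit 160)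
(.ref (nat_lit 23))
(.ref (nat_lit 24))))))
(.ref (nat_lit 25))))
(.ref (nat_lit 26))))
(.spl (nat_lit 4) (nat_lit 160)
(.ref (nat_lit 27))
(.ref (nat_lit 28)))))
(.ref (nat_lit 29))))
(.spl (nat_lit 6) (nat_lit 80)
(.st (nat_lit 0)
(.gv
(.st (nat_lit 1)
(.ref (nat_lit 30))
(.spl (nat_lit 2) (nat_lit 240)
(.ref (nat_lit 31))
(.spl (nat_lit 4) (nat_lit 160)
(.ref (nat_lit 32))
(.spl (nat_lit 2) (nat_lit 320)
(.ref (nat_lit 33))
(.trZ (nat_lit 9) (nat_lit 100) (nat_lit 82) (nat_lit 44) (nat_lit 16) (.spl (nat_lit 1) (nat_lit 260)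
(.ref (nat_lit 34))
(.ref (nat_lit 35))))))))
(.ref (nat_lit 36)))
(.gv
(.st (nat_lit 1)
(.spl (nat_lit 2) (nat_lit 240)
(.spl (nat_lit 4) (nat_lit 160)
(.ref (nat_lit 37))
(.ref (nat_lit 38)))
(.ref (nat_lit 39)))
(.spl (nat_lit 2) (nat_lit 240)
(.spl (nat_lit 4) (nat_lit 160)
(.ref (nat_lit 40))
(.spl (nat_lit 2) (nat_lit 160)
(.spl (nat_lit 0) (nat_lit 340)
(.ref (nat_lit 41))
(.ref (nat_lit 42)))
(.ref (nat_lit 43))))
(.ref (nat_lit 44))))
(.ref (nat_lit 45))))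
(.st (nat_lit 0)
(.gv
(.st (nat_lit 1)
(.ref (nat_lit 46))
(.spl (nat_lit 2) (nat_lit 240)
(.ref (nat_lit 47))
(.ref (nat_lit 48))))
(.ref (nat_lit 49)))
(.gv
(.st (nat_lit 1)
(.spl (nat_lit 2) (nat_lit 240)
(.ref (nat_lit 50))
(.ref (nat_lit 51)))
(.spl (nat_lit 2) (nat_lit 240)
(.spl (nat_lit 4) (nat_lit 160)
(.ref (nat_lit 52))
(.ref (nat_lit 53)))
(.ref (nat_lit 54))))
(.ref (nat_lit 55))))))))))) (by decide +kernel)
theorem done_V_800_600_20 (h : EB TB.env) : RC.Done ⟨true, 120, 320, 360, 240, 280, 80, 120, [120]⟩ := RC.done1 (r_V_800_600_20 h) (t_V_800_600_20 h)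
theorem t_V_800_700_10 (h : EB TB.env) : RC.Tail ⟨true, 80, 320, 360, 280, 320, 40, 80, [152]⟩ := RC.tail_chk h (b := ⟨nat_lit 40, nat_lit 76, nat_lit 5, nat_lit 5, nat_lit 20, nat_lit 226, nat_lit 20, nat_lit 16, nat_lit 5⟩) (by decide +kernel)
noncomputable def t06_l28 : Lf2 := ⟨nat_lit 0, nat_lit 10, [nat_lit 0, nat_lit 5, nat_lit 5, nat_lit 20], false, nat_lit 0, nat_lit 260, nat_lit 0, nat_lit 300, ⟨nat_lit 1000, nat_lit 0, nat_lit 0, nat_lit 0, nat_lit 0, nat_lit 0, nat_lit 0, nat_lit 0, nat_lit 0, nat_lit 0, nat_lit 0, nat_lit 0, nat_lit 0, nat_lit 0, nat_lit 0, nat_lit 0, false, false⟩,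
 nat_lit 0, nat_lit 0, nat_lit 0, nat_lit 0, nat_lit 8470, nat_lit 11865, nat_lit 0, nat_lit 0, nat_lit 0, nat_lit 0, nat_lit 0, nat_lit 0, nat_lit 0, nat_lit 0, nat_lit 0, nat_lit 0, nat_lit 0, nat_lit 0, [],
 ⟨t06_k13, nat_lit 0, nat_lit 0, nat_lit 187, nat_lit 0, nat_lit 0, [nat_lit 2032000001, nat_lit 6250000000], [], [nat_lit 25682895400, nat_lit 31963923640, nat_lit 44970921320, nat_lit 48268393240, nat_lit 23995477220, nat_lit 27182041900, nat_lit 35781447100, nat_lit 38089681310], nat_lit 0, nat_lit 0, nat_lit 0, nat_lit 0, nat_lit 0, nat_lit 0, [], [nat_lit 69, nat_lit 40, nat_lit 40, nat_lit 80, nat_lit 64, nat_lit 401, nat_lit 175, nat_lit 15]⟩, ⟨t06_k14, nat_lit 0, nat_lit 0, nat_lit 200, nat_lit 0, nat_lit 0, [nat_lit 3282000000, nat_lit 9842000000], [], [nat_lit 29911423150, nat_lit 35427289450, nat_lit 51065060840, nat_lit 54469302940, nat_lit 27802535178, nat_lit 30900719963,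 nat_lit 39156207235, nat_lit 41089387570], nat_lit 0, nat_lit 0, nat_lit 0, nat_lit 0, nat_lit 0, nat_lit 0, [], [nat_lit 82, nat_lit 40, nat_lit 40, nat_lit 80, nat_lit 63, nat_lit 401, nat_lit 175, nat_lit 12]⟩,
 zbF0, [⟨nat_lit 0, nat_lit 90, nat_lit 74, nat_lit 100, nat_lit 27482356⟩]⟩
noncomputable def t06_l29 : Lf2 := ⟨nat_lit 0, nat_lit 10, [nat_lit 0, nat_lit 5, nat_lit 5, nat_lit 20], false, nat_lit 0, nat_lit 232, nat_lit 160, nat_lit 300, ⟨nat_lit 1000, nat_lit 0, nat_lit 0, nat_lit 0, nat_lit 0, nat_lit 0, nat_lit 0, nat_lit 0, nat_lit 0, nat_lit 0, nat_lit 0, nat_lit 0, nat_lit 0, nat_lit 0, nat_lit 0, nat_lit 0, false, false⟩,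
 nat_lit 0, nat_lit 7111, nat_lit 0, nat_lit 0, nat_lit 5756, nat_lit 5273, nat_lit 2281, nat_lit 0, nat_lit 0, nat_lit 0, nat_lit 0, nat_lit 0, nat_lit 0, nat_lit 0, nat_lit 0, nat_lit 0, nat_lit 0, nat_lit 0, [],
 ⟨t06_k15, nat_lit 0, nat_lit 0, nat_lit 726, nat_lit 0, nat_lit 1428878, [nat_lit 2032000001, nat_lit 4688000000, nat_lit 6250000000], [], [nat_lit 22780309085, nat_lit 25580864948, nat_lit 26283471864, nat_lit 28514704848, nat_lit 22175897451, nat_lit 22967490333, nat_lit 23664786483, nat_lit 25305468783], nat_lit 1271250, nat_lit 1271250, nat_lit 810650, nat_lit 1764750, nat_lit 0, nat_lit 1638500, [nat_lit 490000, nat_lit 1100000, nat_lit 1442500], [nat_lit 6, nat_lit 40, nat_lit 40, nat_lit 80, nat_lit 3, nat_lit 345, nat_lit 125, nat_lit 13]⟩, ⟨t06_k0, nat_lit 0, nat_lit 0, nat_lit 52, nat_lit 0, nat_lit 0, [nat_lit 3282000000, nat_lit 6250000000, nat_lit 9842000000], [],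 [nat_lit 12296734307, nat_lit 16008947302, nat_lit 16697854192, nat_lit 19662678480, nat_lit 20053750237, nat_lit 23015262144, nat_lit 22911149784, nat_lit 25296878125], nat_lit 0, nat_lit 0, nat_lit 0, nat_lit 0, nat_lit 0, nat_lit 0, [], [nat_lit 8, nat_lit 40, nat_lit 40, nat_lit 80, nat_lit 1, nat_lit 373, nat_lit 150, nat_lit 10]⟩,
 zbF0, [⟨nat_lit 0, nat_lit 88, nat_lit 67, nat_lit 100, nat_lit 446604539⟩, ⟨nat_lit 16, nat_lit 66, nat_lit 100, nat_lit 72, nat_lit 199644671⟩, ⟨nat_lit 19, nat_lit 90, nat_lit 100, nat_lit 74, nat_lit 487680340⟩, ⟨nat_lit 19, nat_lit 100, nat_lit 95, nat_lit 87, nat_lit 134206554⟩]⟩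
noncomputable def t06_l30 : Lf2 := ⟨nat_lit 0, nat_lit 10, [nat_lit 0, nat_lit 5, nat_lit 5, nat_lit 20], false, nat_lit 0, nat_lit 232, nat_lit 160, nat_lit 300, ⟨nat_lit 1000, nat_lit 0, nat_lit 0, nat_lit 0, nat_lit 0, nat_lit 0, nat_lit 0, nat_lit 0, nat_lit 0, nat_lit 0, nat_lit 0, nat_lit 0, nat_lit 0, nat_lit 0, nat_lit 0, nat_lit 0, false, false⟩,
 nat_lit 0, nat_lit 7111, nat_lit 0, nat_lit 0, nat_lit 5756, nat_lit 5273, nat_lit 2258, nat_lit 0, nat_lit 0, nat_lit 0, nat_lit 0, nat_lit 0, nat_lit 0, nat_lit 0, nat_lit 0, nat_lit 0, nat_lit 0, nat_lit 0, [],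
 ⟨t06_k15, nat_lit 0, nat_lit 0, nat_lit 726, nat_lit 0, nat_lit 1428878, [nat_lit 2032000001, nat_lit 4688000000, nat_lit 6250000000], [], [nat_lit 22780309085, nat_lit 25580864948, nat_lit 26283471864, nat_lit 28514704848, nat_lit 22175897451, nat_lit 22967490333, nat_lit 23664786483, nat_lit 25305468783], nat_lit 1271250, nat_lit 1271250, nat_lit 810650, nat_lit 1764750, nat_lit 0, nat_lit 1638500, [nat_lit 490000, nat_lit 1100000, nat_lit 1442500], [nat_lit 6, nat_lit 40, nat_lit 40, nat_lit 80, nat_lit 3, nat_lit 345, nat_lit 125, nat_lit 13]⟩, ⟨t06_k0, nat_lit 0, nat_lit 0, nat_lit 52, nat_lit 0, nat_lit 0, [nat_lit 3282000000, nat_lit 6250000000, nat_lit 9842000000], [], [nat_lit 12296734307, nat_lit 16008947302, nat_lit 16697854192, nat_lit 19662678480, nat_lit 20053750237, nat_lit 23015262144, nat_lit 22911149784, nat_lit 25296878125], nat_lit 0, nat_lit 0, nat_lit 0, nat_lit 0,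 nat_lit 0, nat_lit 0, [], [nat_lit 8, nat_lit 40, nat_lit 40, nat_lit 80, nat_lit 1, nat_lit 373, nat_lit 150, nat_lit 10]⟩,
 zbF0, [⟨nat_lit 0, nat_lit 88, nat_lit 67, nat_lit 100, nat_lit 446604539⟩, ⟨nat_lit 16, nat_lit 66, nat_lit 100, nat_lit 72, nat_lit 199644671⟩, ⟨nat_lit 19, nat_lit 100, nat_lit 95, nat_lit 87, nat_lit 134206554⟩, ⟨nat_lit 7, nat_lit 100, nat_lit 90, nat_lit 74, nat_lit 487680340⟩]⟩
theorem r_V_800_700_10 (h : EB TB.env) : Dead (RC.box ⟨true, 80, 320, 360, 280, 320, 40, 80, [152]⟩ 0 152) := chkB_sound h (refs := [b_V_800_700_10_0, b_V_800_700_10_1, b_V_800_700_10_2, b_V_800_700_10_3, b_V_800_700_10_4, b_V_800_700_10_5, b_V_800_700_10_6, b_V_800_700_10_7, b_V_800_700_10_8, b_V_800_700_10_9, b_V_800_700_10_10, b_V_800_700_10_11, b_V_800_700_10_12, b_V_800_700_10_13, b_V_800_700_10_14, b_V_800_700_10_15, b_V_800_700_10_16, b_V_800_700_10_17, b_V_800_700_10_18, b_V_800_700_10_19,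 b_V_800_700_10_20, b_V_800_700_10_21, b_V_800_700_10_22, b_V_800_700_10_23, b_V_800_700_10_24, b_V_800_700_10_25, b_V_800_700_10_26, b_V_800_700_10_27, b_V_800_700_10_28, b_V_800_700_10_29, b_V_800_700_10_30, b_V_800_700_10_31, b_V_800_700_10_32, b_V_800_700_10_33, b_V_800_700_10_34, b_V_800_700_10_35, b_V_800_700_10_36]) (refs_cons (d_V_800_700_10_0 h) (refs_cons (d_V_800_700_10_1 h) (refs_cons (d_V_800_700_10_2 h) (refs_cons (d_V_800_700_10_3 h) (refs_cons (d_V_800_700_10_4 h) (refs_cons (d_V_800_700_10_5 h) (refs_cons (d_V_800_700_10_6 h) (refs_cons (d_V_800_700_10_7 h) (refs_cons (d_V_800_700_10_8 h) (refs_cons (d_V_800_700_10_9 h) (refs_cons (d_V_800_700_10_10 h) (refs_cons (d_V_800_700_10_11 h) (refs_cons (d_V_800_700_10_12 h) (refs_cons (d_V_800_700_10_13 h) (refs_cons (d_V_800_700_10_14 h) (refs_cons (d_V_800_700_10_15 h) (refs_cons (d_V_800_700_10_16 h) (refs_cons (d_V_800_700_10_17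 h) (refs_cons (d_V_800_700_10_18 h) (refs_cons (d_V_800_700_10_19 h) (refs_cons (d_V_800_700_10_20 h) (refs_cons (d_V_800_700_10_21 h) (refs_cons (d_V_800_700_10_22 h) (refs_cons (d_V_800_700_10_23 h) (refs_cons (d_V_800_700_10_24 h) (refs_cons (d_V_800_700_10_25 h) (refs_cons (d_V_800_700_10_26 h) (refs_cons (d_V_800_700_10_27 h) (refs_cons (d_V_800_700_10_28 h) (refs_cons (d_V_800_700_10_29 h) (refs_cons (d_V_800_700_10_30 h) (refs_cons (d_V_800_700_10_31 h) (refs_cons (d_V_800_700_10_32 h) (refs_cons (d_V_800_700_10_33 h) (refs_cons (d_V_800_700_10_34 h) (refs_cons (d_V_800_700_10_35 h) (refs_cons (d_V_800_700_10_36 h) (refs_nil)))))))))))))))))))))))))))))))))))))) (T :=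
(.trZ (nat_lit 0) (nat_lit 100) (nat_lit 87) (nat_lit 95) (nat_lit 100) (.trX (nat_lit 16) (nat_lit 83) (nat_lit 100) (nat_lit 83) (nat_lit 260) (.trX (nat_lit 19) (nat_lit 100) (nat_lit 95) (nat_lit 87) (nat_lit 300) (.spl (nat_lit 6) (nat_lit 40)
(.st (nat_lit 0)
(.gv
(.st (nat_lit 1)
(.leaf t06_l28)
(.spl (nat_lit 2) (nat_lit 240)
(.ref (nat_lit 0))
(.spl (nat_lit 4) (nat_lit 160)
(.spl (nat_lit 4) (nat_lit 80)
(.ref (nat_lit 1))
(.ref (nat_lit 2)))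
(.ref (nat_lit 3)))))
(.ref (nat_lit 4)))
(.gv
(.st (nat_lit 1)
(.spl (nat_lit 2) (nat_lit 240)
(.spl (nat_lit 5) (nat_lit 160)
(.ref (nat_lit 5))
(.spl (nat_lit 0) (nat_lit 340)
(.spl (nat_lit 4) (nat_lit 160)
(.ref (nat_lit 6))
(.ref (nat_lit 7)))
(.trZ (nat_lit 0) (nat_lit 99) (nat_lit 77) (nat_lit 100) (nat_lit 124) (.trX (nat_lit 16) (nat_lit 72) (nat_lit 100) (nat_lit 81) (nat_lit 232) (.leaf t06_l29)))))
(.ref (nat_lit 8)))
(.ref (nat_lit 9)))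
(.st (nat_lit 1)
(.spl (nat_lit 2) (nat_lit 240)
(.spl (nat_lit 5) (nat_lit 160)
(.ref (nat_lit 10))
(.spl (nat_lit 0) (nat_lit 340)
(.spl (nat_lit 4) (nat_lit 160)
(.ref (nat_lit 11))
(.ref (nat_lit 12)))
(.trZ (nat_lit 0) (nat_lit 99) (nat_lit 77) (nat_lit 100) (nat_lit 124) (.trX (nat_lit 16) (nat_lit 72) (nat_lit 100) (nat_lit 81) (nat_lit 232) (.leaf t06_l30)))))
(.ref (nat_lit 13)))
(.ref (nat_lit 14)))))
(.spl (nat_lit 6) (nat_lit 80)
(.st (nat_lit 0)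
(.gv
(.st (nat_lit 1)
(.ref (nat_lit 15))
(.spl (nat_lit 2) (nat_lit 240)
(.ref (nat_lit 16))
(.spl (nat_lit 4) (nat_lit 160)
(.spl (nat_lit 2) (nat_lit 320)
(.ref (nat_lit 17))
(.spl (nat_lit 1) (nat_lit 300)
(.spl (nat_lit 0) (nat_lit 340)
(.ref (nat_lit 18))
(.trX (nat_lit 13) (nat_lit 82) (nat_lit 29) (nat_lit 100) (nat_lit 396) (.spl (nat_lit 4) (nat_lit 80)
(.ref (nat_lit 19))
(.ref (nat_lit 20)))))
(.ref (nat_lit 21))))
(.spl (nat_lit 1) (nat_lit 300)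
(.ref (nat_lit 22))
(.ref (nat_lit 23))))))
(.ref (nat_lit 24)))
(.gv
(.st (nat_lit 1)
(.ref (nat_lit 25))
(.ref (nat_lit 26)))
(.ref (nat_lit 27))))
(.spl (nat_lit 6) (nat_lit 120)
(.st (nat_lit 0)
(.gv
(.st (nat_lit 1)
(.ref (nat_lit 28))
(.spl (nat_lit 2) (nat_lit 240)
(.ref (nat_lit 29))
(.spl (nat_lit 4) (nat_lit 160)
(.ref (nat_lit 30))
(.ref (nat_lit 31)))))
(.ref (nat_lit 32)))
(.gv
(.st (nat_lit 1)
(.ref (nat_lit 33))
(.ref (nat_lit 34)))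
(.ref (nat_lit 35))))
(.ref (nat_lit 36))))))))) (by decide +kernel)
theorem done_V_800_700_10 (h : EB TB.env) : RC.Done ⟨true, 80, 320, 360, 280, 320, 40, 80, [152]⟩ := RC.done1 (r_V_800_700_10 h) (t_V_800_700_10 h)

end B2
end Pool.Agent.Lib.MP_6947cd_al
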