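import Pool.Agent.Lib.MP_6947cd_al.ZB.Pre

/-!
Problem MP_6947cd_al (Chollet).  Case B, second entry in [2/5, 17/20]: certificates of the tree, part P093 (generated).
-/

set_option autoImplicit false
set_option linter.all false

namespace Pool.Agent.Lib.MP_6947cd_al
namespace B2

open Ent Fr B1 PkA

noncomputable def p093_k0 : C1.Kn := ⟨[nat_lit 40, nat_lit 80, nat_lit 100], [nat_lit 0, nat_lit 0, nat_lit 1280], [(nat_lit 0, nat_lit 0, nat_lit 0), (nat_lit 0, nat_lit 0, nat_lit 0), (nat_lit 1000, nat_lit 800, nat_lit 600)], (nat_lit 80, nat_lit 100, nat_lit 60)⟩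
noncomputable def p093_k1 : C1.Kn := ⟨[nat_lit 60, nat_lit 100, nat_lit 140], [nat_lit 0, nat_lit 0, nat_lit 2047], [(nat_lit 0, nat_lit 0, nat_lit 0), (nat_lit 0, nat_lit 0, nat_lit 0), (nat_lit 1000, nat_lit 993, nat_lit 781)], (nat_lit 94, nat_lit 100, nat_lit 62)⟩
noncomputable def p093_k2 : C1.Kn := ⟨[nat_lit 40, nat_lit 80, nat_lit 100], [nat_lit 0, nat_lit 192, nat_lit 1404], [(nat_lit 0, nat_lit 0, nat_lit 0), (nat_lit 1000, nat_lit 955, nat_lit 75), (nat_lit 1000, nat_lit 781, nat_lit 625)], (nat_lit 78, nat_lit 100, nat_lit 60)⟩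
noncomputable def p093_k3 : C1.Kn := ⟨[nat_lit 40, nat_lit 80, nat_lit 100], [nat_lit 0, nat_lit 395, nat_lit 1536], [(nat_lit 0, nat_lit 0, nat_lit 0), (nat_lit 1000, nat_lit 908, nat_lit 154), (nat_lit 1000, nat_lit 760, nat_lit 642)], (nat_lit 76, nat_lit 100, nat_lit 60)⟩
noncomputable def p093_k4 : C1.Kn := ⟨[nat_lit 60, nat_lit 100, nat_lit 120], [nat_lit 0, nat_lit 302, nat_lit 1376], [(nat_lit 0, nat_lit 0, nat_lit 0), (nat_lit 1000, nat_lit 953, nat_lit 118), (nat_lit 1000, nat_lit 911, nat_lit 628)], (nat_lit 91, nat_lit 100, nat_lit 61)⟩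
noncomputable def p093_k5 : C1.Kn := ⟨[nat_lit 60, nat_lit 100, nat_lit 120], [nat_lit 0, nat_lit 609, nat_lit 1609], [(nat_lit 0, nat_lit 0, nat_lit 0), (nat_lit 1000, nat_lit 905, nat_lit 238), (nat_lit 1000, nat_lit 882, nat_lit 668)], (nat_lit 87, nat_lit 100, nat_lit 60)⟩
noncomputable def p093_k6 : C1.Kn := ⟨[nat_lit 60, nat_lit 100, nat_lit 120], [nat_lit 0, nat_lit 909, nat_lit 1866], [(nat_lit 0, nat_lit 0, nat_lit 0), (nat_lit 1000, nat_lit 858, nat_lit 354), (nat_lit 1000, nat_lit 849, nat_lit 705)], (nat_lit 84, nat_lit 100, nat_lit 60)⟩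
noncomputable def p093_k7 : C1.Kn := ⟨[nat_lit 60, nat_lit 100, nat_lit 120], [nat_lit 0, nat_lit 1063, nat_lit 2005], [(nat_lit 0, nat_lit 0, nat_lit 0), (nat_lit 1000, nat_lit 834, nat_lit 414), (nat_lit 1000, nat_lit 833, nat_lit 732)], (nat_lit 82, nat_lit 100, nat_lit 60)⟩
noncomputable def p093_k8 : C1.Kn := ⟨[nat_lit 40, nat_lit 80, nat_lit 100], [nat_lit 0, nat_lit 795, nat_lit 1829], [(nat_lit 0, nat_lit 0, nat_lit 0), (nat_lit 1000, nat_lit 814, nat_lit 310), (nat_lit 1000, nat_lit 714, nat_lit 692)], (nat_lit 72, nat_lit 100, nat_lit 61)⟩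
noncomputable def p093_k9 : C1.Kn := ⟨[nat_lit 40, nat_lit 100], [nat_lit 0, nat_lit 0], [(nat_lit 0, nat_lit 0, nat_lit 0), (nat_lit 0, nat_lit 0, nat_lit 0)], (nat_lit 80, nat_lit 100, nat_lit 60)⟩
noncomputable def p093_k10 : C1.Kn := ⟨[nat_lit 60, nat_lit 120], [nat_lit 0, nat_lit 453], [(nat_lit 0, nat_lit 0, nat_lit 0), (nat_lit 1000, nat_lit 953, nat_lit 118)], (nat_lit 91, nat_lit 100, nat_lit 61)⟩
noncomputable def p093_k11 : C1.Kn := ⟨[nat_lit 40, nat_lit 100], [nat_lit 0, nat_lit 1192], [(nat_lit 0, nat_lit 0, nat_lit 0), (nat_lit 1000, nat_lit 814, nat_lit 310)], (nat_lit 72, nat_lit 100, nat_lit 61)⟩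
noncomputable def p093_k12 : C1.Kn := ⟨[nat_lit 40, nat_lit 80], [nat_lit 0, nat_lit 1195], [(nat_lit 0, nat_lit 0, nat_lit 0), (nat_lit 1000, nat_lit 720, nat_lit 465)], (nat_lit 68, nat_lit 100, nat_lit 61)⟩
noncomputable def p093_k13 : C1.Kn := ⟨[nat_lit 60, nat_lit 100, nat_lit 120], [nat_lit 0, nat_lit 455, nat_lit 1489], [(nat_lit 0, nat_lit 0, nat_lit 0), (nat_lit 1000, nat_lit 929, nat_lit 178), (nat_lit 1000, nat_lit 895, nat_lit 641)], (nat_lit 89, nat_lit 100, nat_lit 61)⟩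
noncomputable def p093_k14 : C1.Kn := ⟨[nat_lit 60, nat_lit 120], [nat_lit 0, nat_lit 913], [(nat_lit 0, nat_lit 0, nat_lit 0), (nat_lit 1000, nat_lit 905, nat_lit 238)], (nat_lit 87, nat_lit 100, nat_lit 60)⟩
noncomputable def p093_k15 : C1.Kn := ⟨[nat_lit 60, nat_lit 120], [nat_lit 0, nat_lit 1362], [(nat_lit 0, nat_lit 0, nat_lit 0), (nat_lit 1000, nat_lit 858, nat_lit 354)], (nat_lit 84, nat_lit 100, nat_lit 60)⟩
noncomputable def p093_k16 : C1.Kn := ⟨[nat_lit 60, nat_lit 100, nat_lit 120], [nat_lit 0, nat_lit 755, nat_lit 1734], [(nat_lit 0, nat_lit 0, nat_lit 0), (nat_lit 1000, nat_lit 882, nat_lit 294), (nat_lit 1000, nat_lit 866, nat_lit 684)], (nat_lit 85, nat_lit 100, nat_lit 60)⟩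
noncomputable def p093_k17 : C1.Kn := ⟨[nat_lit 40, nat_lit 80, nat_lit 100], [nat_lit 0, nat_lit 0, nat_lit 1280], [(nat_lit 0, nat_lit 0, nat_lit 0), (nat_lit 0, nat_lit 0, nat_lit 0), (nat_lit 1000, nat_lit 800, nat_lit 600)], (nat_lit 82, nat_lit 100, nat_lit 44)⟩
noncomputable def p093_k18 : C1.Kn := ⟨[nat_lit 60, nat_lit 100, nat_lit 120], [nat_lit 0, nat_lit 0, nat_lit 1164], [(nat_lit 0, nat_lit 0, nat_lit 0), (nat_lit 0, nat_lit 0, nat_lit 0), (nat_lit 1000, nat_lit 933, nat_lit 572)], (nat_lit 92, nat_lit 100, nat_lit 44)⟩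
noncomputable def p093_k19 : C1.Kn := ⟨[nat_lit 60, nat_lit 100, nat_lit 140], [nat_lit 0, nat_lit 151, nat_lit 2175], [(nat_lit 0, nat_lit 0, nat_lit 0), (nat_lit 1000, nat_lit 977, nat_lit 59), (nat_lit 1000, nat_lit 974, nat_lit 785)], (nat_lit 92, nat_lit 100, nat_lit 61)⟩
noncomputable def p093_k20 : C1.Kn := ⟨[nat_lit 40, nat_lit 80], [nat_lit 0, nat_lit 395], [(nat_lit 0, nat_lit 0, nat_lit 0), (nat_lit 1000, nat_lit 908, nat_lit 154)], (nat_lit 79, nat_lit 100, nat_lit 45)⟩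
noncomputable def p093_k21 : C1.Kn := ⟨[nat_lit 40, nat_lit 80], [nat_lit 0, nat_lit 0], [(nat_lit 0, nat_lit 0, nat_lit 0), (nat_lit 0, nat_lit 0, nat_lit 0)], (nat_lit 85, nat_lit 100, nat_lit 30)⟩
noncomputable def p093_k22 : C1.Kn := ⟨[nat_lit 60, nat_lit 100], [nat_lit 0, nat_lit 0], [(nat_lit 0, nat_lit 0, nat_lit 0), (nat_lit 0, nat_lit 0, nat_lit 0)], (nat_lit 92, nat_lit 100, nat_lit 28)⟩
noncomputable def p093_k23 : C1.Kn := ⟨[nat_lit 40, nat_lit 60], [nat_lit 0, nat_lit 0], [(nat_lit 0, nat_lit 0, nat_lit 0), (nat_lit 0, nat_lit 0, nat_lit 0)], (nat_lit 89, nat_lit 100, nat_lit 22)⟩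
noncomputable def p093_k24 : C1.Kn := ⟨[nat_lit 60, nat_lit 80], [nat_lit 0, nat_lit 0], [(nat_lit 0, nat_lit 0, nat_lit 0), (nat_lit 0, nat_lit 0, nat_lit 0)], (nat_lit 94, nat_lit 100, nat_lit 20)⟩
noncomputable def p093_k25 : C1.Kn := ⟨[nat_lit 40, nat_lit 80], [nat_lit 0, nat_lit 192], [(nat_lit 0, nat_lit 0, nat_lit 0), (nat_lit 1000, nat_lit 955, nat_lit 75)], (nat_lit 84, nat_lit 100, nat_lit 30)⟩
noncomputable def p093_k26 : C1.Kn := ⟨[nat_lit 60, nat_lit 100], [nat_lit 0, nat_lit 20], [(nat_lit 0, nat_lit 0, nat_lit 0), (nat_lit 1000, nat_lit 997, nat_lit 8)], (nat_lit 92, nat_lit 100, nat_lit 28)⟩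
noncomputable def p093_k27 : C1.Kn := ⟨[nat_lit 40, nat_lit 80], [nat_lit 0, nat_lit 315], [(nat_lit 0, nat_lit 0, nat_lit 0), (nat_lit 1000, nat_lit 926, nat_lit 123)], (nat_lit 84, nat_lit 100, nat_lit 31)⟩
noncomputable def p093_k28 : C1.Kn := ⟨[nat_lit 60, nat_lit 100], [nat_lit 0, nat_lit 53], [(nat_lit 0, nat_lit 0, nat_lit 0), (nat_lit 1000, nat_lit 992, nat_lit 21)], (nat_lit 92, nat_lit 100, nat_lit 28)⟩
noncomputable def p093_k29 : C1.Kn := ⟨[nat_lit 40, nat_lit 60], [nat_lit 0, nat_lit 175], [(nat_lit 0, nat_lit 0, nat_lit 0), (nat_lit 1000, nat_lit 918, nat_lit 136)], (nat_lit 84, nat_lit 100, nat_lit 31)⟩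
noncomputable def p093_k30 : C1.Kn := ⟨[nat_lit 60, nat_lit 100], [nat_lit 0, nat_lit 84], [(nat_lit 0, nat_lit 0, nat_lit 0), (nat_lit 1000, nat_lit 987, nat_lit 33)], (nat_lit 92, nat_lit 100, nat_lit 28)⟩
noncomputable def p093_k31 : C1.Kn := ⟨[nat_lit 40, nat_lit 60], [nat_lit 0, nat_lit 197], [(nat_lit 0, nat_lit 0, nat_lit 0), (nat_lit 1000, nat_lit 908, nat_lit 154)], (nat_lit 83, nat_lit 100, nat_lit 31)⟩
noncomputable def p093_k32 : C1.Kn := ⟨[nat_lit 40, nat_lit 80], [nat_lit 0, nat_lit 0], [(nat_lit 0, nat_lit 0, nat_lit 0), (nat_lit 0, nat_lit 0, nat_lit 0)], (nat_lit 82, nat_lit 100, nat_lit 40)⟩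
noncomputable def p093_k33 : C1.Kn := ⟨[nat_lit 60, nat_lit 100], [nat_lit 0, nat_lit 0], [(nat_lit 0, nat_lit 0, nat_lit 0), (nat_lit 0, nat_lit 0, nat_lit 0)], (nat_lit 92, nat_lit 100, nat_lit 39)⟩
noncomputable def p093_k34 : C1.Kn := ⟨[nat_lit 40, nat_lit 80], [nat_lit 0, nat_lit 395], [(nat_lit 0, nat_lit 0, nat_lit 0), (nat_lit 1000, nat_lit 908, nat_lit 154)], (nat_lit 80, nat_lit 100, nat_lit 41)⟩
noncomputable def p093_k35 : C1.Kn := ⟨[nat_lit 40, nat_lit 80], [nat_lit 0, nat_lit 395], [(nat_lit 0, nat_lit 0, nat_lit 0), (nat_lit 1000, nat_lit 908, nat_lit 154)], (nat_lit 81, nat_lit 100, nat_lit 36)⟩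
noncomputable def p093_k36 : C1.Kn := ⟨[nat_lit 60, nat_lit 100], [nat_lit 0, nat_lit 0], [(nat_lit 0, nat_lit 0, nat_lit 0), (nat_lit 0, nat_lit 0, nat_lit 0)], (nat_lit 92, nat_lit 100, nat_lit 34)⟩
noncomputable def p093_k37 : C1.Kn := ⟨[nat_lit 40, nat_lit 80], [nat_lit 0, nat_lit 593], [(nat_lit 0, nat_lit 0, nat_lit 0), (nat_lit 1000, nat_lit 861, nat_lit 231)], (nat_lit 80, nat_lit 100, nat_lit 37)⟩
noncomputable def p093_k38 : C1.Kn := ⟨[nat_lit 40, nat_lit 80], [nat_lit 0, nat_lit 515], [(nat_lit 0, nat_lit 0, nat_lit 0), (nat_lit 1000, nat_lit 879, nat_lit 201)], (nat_lit 80, nat_lit 100, nat_lit 37)⟩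
noncomputable def p093_k39 : C1.Kn := ⟨[nat_lit 60, nat_lit 100], [nat_lit 0, nat_lit 53], [(nat_lit 0, nat_lit 0, nat_lit 0), (nat_lit 1000, nat_lit 992, nat_lit 21)], (nat_lit 91, nat_lit 100, nat_lit 34)⟩
noncomputable def p093_k40 : C1.Kn := ⟨[nat_lit 60, nat_lit 100], [nat_lit 0, nat_lit 84], [(nat_lit 0, nat_lit 0, nat_lit 0), (nat_lit 1000, nat_lit 987, nat_lit 33)], (nat_lit 91, nat_lit 100, nat_lit 34)⟩
noncomputable def p093_k41 : C1.Kn := ⟨[nat_lit 40, nat_lit 80], [nat_lit 0, nat_lit 678], [(nat_lit 0, nat_lit 0, nat_lit 0), (nat_lit 1000, nat_lit 841, nat_lit 265)], (nat_lit 79, nat_lit 100, nat_lit 37)⟩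
noncomputable def p093_k42 : C1.Kn := ⟨[nat_lit 40, nat_lit 60], [nat_lit 0, nat_lit 357], [(nat_lit 0, nat_lit 0, nat_lit 0), (nat_lit 1000, nat_lit 833, nat_lit 277)], (nat_lit 79, nat_lit 100, nat_lit 37)⟩
noncomputable def p093_k43 : C1.Kn := ⟨[nat_lit 40, nat_lit 80], [nat_lit 0, nat_lit 795], [(nat_lit 0, nat_lit 0, nat_lit 0), (nat_lit 1000, nat_lit 814, nat_lit 310)], (nat_lit 75, nat_lit 100, nat_lit 46)⟩
noncomputable def p093_k44 : C1.Kn := ⟨[nat_lit 60, nat_lit 100, nat_lit 120], [nat_lit 0, nat_lit 53, nat_lit 1205], [(nat_lit 0, nat_lit 0, nat_lit 0), (nat_lit 1000, nat_lit 992, nat_lit 21), (nat_lit 1000, nat_lit 929, nat_lit 586)], (nat_lit 91, nat_lit 100, nat_lit 44)⟩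
noncomputable def p093_k45 : C1.Kn := ⟨[nat_lit 40, nat_lit 60], [nat_lit 0, nat_lit 398], [(nat_lit 0, nat_lit 0, nat_lit 0), (nat_lit 1000, nat_lit 814, nat_lit 310)], (nat_lit 81, nat_lit 100, nat_lit 32)⟩
noncomputable def p093_k46 : C1.Kn := ⟨[nat_lit 60, nat_lit 100, nat_lit 120], [nat_lit 0, nat_lit 84, nat_lit 1225], [(nat_lit 0, nat_lit 0, nat_lit 0), (nat_lit 1000, nat_lit 987, nat_lit 33), (nat_lit 1000, nat_lit 925, nat_lit 584)], (nat_lit 91, nat_lit 100, nat_lit 44)⟩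
noncomputable def p093_k47 : C1.Kn := ⟨[nat_lit 40, nat_lit 80], [nat_lit 0, nat_lit 1195], [(nat_lit 0, nat_lit 0, nat_lit 0), (nat_lit 1000, nat_lit 720, nat_lit 465)], (nat_lit 72, nat_lit 100, nat_lit 47)⟩
noncomputable def p093_k48 : C1.Kn := ⟨[nat_lit 40, nat_lit 60], [nat_lit 0, nat_lit 709], [(nat_lit 0, nat_lit 0, nat_lit 0), (nat_lit 1000, nat_lit 692, nat_lit 494)], (nat_lit 70, nat_lit 100, nat_lit 48)⟩
noncomputable def p093_k49 : C1.Kn := ⟨[nat_lit 60, nat_lit 100], [nat_lit 0, nat_lit 151], [(nat_lit 0, nat_lit 0, nat_lit 0), (nat_lit 1000, nat_lit 977, nat_lit 59)], (nat_lit 92, nat_lit 100, nat_lit 28)⟩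
noncomputable def p093_k50 : C1.Kn := ⟨[nat_lit 60, nat_lit 100], [nat_lit 0, nat_lit 151], [(nat_lit 0, nat_lit 0, nat_lit 0), (nat_lit 1000, nat_lit 977, nat_lit 59)], (nat_lit 91, nat_lit 100, nat_lit 39)⟩
noncomputable def p093_k51 : C1.Kn := ⟨[nat_lit 60, nat_lit 100, nat_lit 120], [nat_lit 0, nat_lit 151, nat_lit 1267], [(nat_lit 0, nat_lit 0, nat_lit 0), (nat_lit 1000, nat_lit 977, nat_lit 59), (nat_lit 1000, nat_lit 921, nat_lit 595)], (nat_lit 91, nat_lit 100, nat_lit 44)⟩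
noncomputable def p093_k52 : C1.Kn := ⟨[nat_lit 60, nat_lit 100], [nat_lit 0, nat_lit 238], [(nat_lit 0, nat_lit 0, nat_lit 0), (nat_lit 1000, nat_lit 963, nat_lit 93)], (nat_lit 90, nat_lit 100, nat_lit 44)⟩
noncomputable def p093_k53 : C1.Kn := ⟨[nat_lit 60, nat_lit 100, nat_lit 120], [nat_lit 0, nat_lit 181, nat_lit 1289], [(nat_lit 0, nat_lit 0, nat_lit 0), (nat_lit 1000, nat_lit 971, nat_lit 71), (nat_lit 1000, nat_lit 921, nat_lit 614)], (nat_lit 90, nat_lit 100, nat_lit 44)⟩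
noncomputable def p093_k54 : C1.Kn := ⟨[nat_lit 60, nat_lit 100, nat_lit 120], [nat_lit 0, nat_lit 205, nat_lit 1310], [(nat_lit 0, nat_lit 0, nat_lit 0), (nat_lit 1000, nat_lit 968, nat_lit 80), (nat_lit 1000, nat_lit 917, nat_lit 609)], (nat_lit 90, nat_lit 100, nat_lit 44)⟩
noncomputable def p093_k55 : C1.Kn := ⟨[nat_lit 40, nat_lit 80], [nat_lit 0, nat_lit 795], [(nat_lit 0, nat_lit 0, nat_lit 0), (nat_lit 1000, nat_lit 814, nat_lit 310)], (nat_lit 73, nat_lit 100, nat_lit 55)⟩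
noncomputable def p093_k56 : C1.Kn := ⟨[nat_lit 60, nat_lit 100, nat_lit 120], [nat_lit 0, nat_lit 0, nat_lit 1164], [(nat_lit 0, nat_lit 0, nat_lit 0), (nat_lit 0, nat_lit 0, nat_lit 0), (nat_lit 1000, nat_lit 933, nat_lit 572)], (nat_lit 93, nat_lit 100, nat_lit 55)⟩
noncomputable def p093_k57 : C1.Kn := ⟨[nat_lit 40, nat_lit 80], [nat_lit 0, nat_lit 1195], [(nat_lit 0, nat_lit 0, nat_lit 0), (nat_lit 1000, nat_lit 720, nat_lit 465)], (nat_lit 69, nat_lit 100, nat_lit 56)⟩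
noncomputable def p093_k58 : C1.Kn := ⟨[nat_lit 60, nat_lit 100, nat_lit 120], [nat_lit 0, nat_lit 84, nat_lit 1225], [(nat_lit 0, nat_lit 0, nat_lit 0), (nat_lit 1000, nat_lit 987, nat_lit 33), (nat_lit 1000, nat_lit 925, nat_lit 584)], (nat_lit 92, nat_lit 100, nat_lit 55)⟩
noncomputable def p093_k59 : C1.Kn := ⟨[nat_lit 40, nat_lit 80], [nat_lit 0, nat_lit 1318], [(nat_lit 0, nat_lit 0, nat_lit 0), (nat_lit 1000, nat_lit 691, nat_lit 514)], (nat_lit 66, nat_lit 100, nat_lit 62)⟩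
noncomputable def p093_k60 : C1.Kn := ⟨[nat_lit 40, nat_lit 80], [nat_lit 0, nat_lit 1399], [(nat_lit 0, nat_lit 0, nat_lit 0), (nat_lit 1000, nat_lit 672, nat_lit 546)], (nat_lit 65, nat_lit 100, nat_lit 62)⟩
noncomputable def p093_k61 : C1.Kn := ⟨[nat_lit 60, nat_lit 100, nat_lit 120], [nat_lit 0, nat_lit 238, nat_lit 1332], [(nat_lit 0, nat_lit 0, nat_lit 0), (nat_lit 1000, nat_lit 963, nat_lit 93), (nat_lit 1000, nat_lit 916, nat_lit 621)], (nat_lit 91, nat_lit 100, nat_lit 61)⟩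
noncomputable def p093_k62 : C1.Kn := ⟨[nat_lit 60, nat_lit 100], [nat_lit 0, nat_lit 302], [(nat_lit 0, nat_lit 0, nat_lit 0), (nat_lit 1000, nat_lit 953, nat_lit 118)], (nat_lit 89, nat_lit 100, nat_lit 44)⟩
noncomputable def p093_k63 : C1.Kn := ⟨[nat_lit 60, nat_lit 100, nat_lit 140], [nat_lit 0, nat_lit 84, nat_lit 2124], [(nat_lit 0, nat_lit 0, nat_lit 0), (nat_lit 1000, nat_lit 987, nat_lit 33), (nat_lit 1000, nat_lit 984, nat_lit 790)], (nat_lit 93, nat_lit 100, nat_lit 61)⟩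
noncomputable def p093_k64 : C1.Kn := ⟨[nat_lit 40, nat_lit 60, nat_lit 100], [nat_lit 0, nat_lit 398, nat_lit 1586], [(nat_lit 0, nat_lit 0, nat_lit 0), (nat_lit 1000, nat_lit 814, nat_lit 310), (nat_lit 1000, nat_lit 752, nat_lit 464)], (nat_lit 72, nat_lit 100, nat_lit 61)⟩
noncomputable def p093_k65 : C1.Kn := ⟨[nat_lit 60, nat_lit 80, nat_lit 140], [nat_lit 0, nat_lit 0, nat_lit 1595], [(nat_lit 0, nat_lit 0, nat_lit 0), (nat_lit 0, nat_lit 0, nat_lit 0), (nat_lit 1000, nat_lit 917, nat_lit 415)], (nat_lit 94, nat_lit 100, nat_lit 62)⟩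
noncomputable def p093_k66 : C1.Kn := ⟨[nat_lit 40, nat_lit 60, nat_lit 80], [nat_lit 0, nat_lit 600, nat_lit 1195], [(nat_lit 0, nat_lit 0, nat_lit 0), (nat_lit 1000, nat_lit 725, nat_lit 454), (nat_lit 1000, nat_lit 720, nat_lit 465)], (nat_lit 68, nat_lit 100, nat_lit 61)⟩
noncomputable def p093_k67 : C1.Kn := ⟨[nat_lit 60, nat_lit 80, nat_lit 140], [nat_lit 0, nat_lit 75, nat_lit 1666], [(nat_lit 0, nat_lit 0, nat_lit 0), (nat_lit 1000, nat_lit 977, nat_lit 59), (nat_lit 1000, nat_lit 905, nat_lit 414)], (nat_lit 92, nat_lit 100, nat_lit 61)⟩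
noncomputable def p093_k68 : C1.Kn := ⟨[nat_lit 60, nat_lit 100], [nat_lit 0, nat_lit 455], [(nat_lit 0, nat_lit 0, nat_lit 0), (nat_lit 1000, nat_lit 929, nat_lit 178)], (nat_lit 88, nat_lit 100, nat_lit 44)⟩
noncomputable def p093_k69 : C1.Kn := ⟨[nat_lit 60, nat_lit 80, nat_lit 120], [nat_lit 0, nat_lit 151, nat_lit 1205], [(nat_lit 0, nat_lit 0, nat_lit 0), (nat_lit 1000, nat_lit 953, nat_lit 118), (nat_lit 1000, nat_lit 894, nat_lit 411)], (nat_lit 91, nat_lit 100, nat_lit 61)⟩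
noncomputable def p093_l0 : Lf2 := ⟨nat_lit 0, nat_lit 10, [nat_lit 0, nat_lit 5, nat_lit 5, nat_lit 20], true, nat_lit 160, nat_lit 240, nat_lit 0, nat_lit 336, ⟨nat_lit 0, nat_lit 1000, nat_lit 0, nat_lit 7, nat_lit 224, nat_lit 1000, nat_lit 156, nat_lit 0, nat_lit 0, nat_lit 0, nat_lit 0, nat_lit 0, nat_lit 43563572, nat_lit 14974011, nat_lit 8462417, nat_lit 4704318, false, false⟩,
 nat_lit 0, nat_lit 0, nat_lit 0, nat_lit 0, nat_lit 3361, nat_lit 0, nat_lit 0, nat_lit 0, nat_lit 0, nat_lit 0, nat_lit 0, nat_lit 0, nat_lit 0, nat_lit 0, nat_lit 0, nat_lit 250000, nat_lit 0, nat_lit 0, [(nat_lit 18, [(nat_lit 0, nat_lit 1000)]), (nat_lit 21, [(nat_lit 0, nat_lit 1000)])],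
 ⟨p093_k0, nat_lit 0, nat_lit 0, nat_lit 55, nat_lit 0, nat_lit 0, [nat_lit 1558400000, nat_lit 2168000000, nat_lit 2562000000], [], [nat_lit 15416279188, nat_lit 18927192128, nat_lit 19281562332, nat_lit 22044973460, nat_lit 18470046622, nat_lit 21519963880, nat_lit 21681536868, nat_lit 24127280976], nat_lit 0, nat_lit 0, nat_lit 0, nat_lit 0, nat_lit 0, nat_lit 0, [], [nat_lit 6, nat_lit 40, nat_lit 40, nat_lit 80, nat_lit 3, nat_lit 345, nat_lit 125, nat_lit 12]⟩, C1.Rw.none,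
 ⟨nat_lit 3162, nat_lit 4473, ⟨.ofNat (nat_lit 415764), .ofNat (nat_lit 653959), .ofNat (nat_lit 458716), .ofNat (nat_lit 696911), .ofNat (nat_lit 435680), .ofNat (nat_lit 649288), .ofNat (nat_lit 479808), .ofNat (nat_lit 693416)⟩, ⟨.ofNat (nat_lit 302621), .ofNat (nat_lit 438578), .ofNat (nat_lit 345754), .ofNat (nat_lit 481711), .ofNat (nat_lit 306116), .ofNat (nat_lit 428022), .ofNat (nat_lit 350426), .ofNat (nat_lit 472332)⟩⟩, []⟩
noncomputable def p093_l1 : Lf2 := ⟨nat_lit 0, nat_lit 10, [nat_lit 0, nat_lit 5, nat_lit 5, nat_lit 20], true, nat_lit 240, nat_lit 280, nat_lit 0, nat_lit 336, ⟨nat_lit 0, nat_lit 1000, nat_lit 0, nat_lit 7, nat_lit 185, nat_lit 1000, nat_lit 195, nat_lit 0, nat_lit 0, nat_lit 0, nat_lit 0, nat_lit 0, nat_lit 43869984, nat_lit 11107798, nat_lit 12022218, nat_lit 4755306, false, false⟩,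
 nat_lit 0, nat_lit 0, nat_lit 0, nat_lit 0, nat_lit 4491, nat_lit 0, nat_lit 0, nat_lit 0, nat_lit 0, nat_lit 0, nat_lit 0, nat_lit 0, nat_lit 0, nat_lit 0, nat_lit 0, nat_lit 250000, nat_lit 0, nat_lit 0, [(nat_lit 18, [(nat_lit 0, nat_lit 1000)]), (nat_lit 21, [(nat_lit 0, nat_lit 1000)])],
 ⟨p093_k0, nat_lit 0, nat_lit 0, nat_lit 66, nat_lit 0, nat_lit 0, [nat_lit 1558400000, nat_lit 2168000000, nat_lit 2562000000], [], [nat_lit 19175823026, nat_lit 22447784280, nat_lit 19199490160, nat_lit 22331073640, nat_lit 21365587901, nat_lit 24593586660, nat_lit 21280762216, nat_lit 24432588366], nat_lit 0, nat_lit 0, nat_lit 0, nat_lit 0, nat_lit 0, nat_lit 0, [], [nat_lit 6, nat_lit 40, nat_lit 40, nat_lit 80, nat_lit 3, nat_lit 238, nat_lit 30, nat_lit 8]⟩, C1.Rw.none,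
 ⟨nat_lit 3162, nat_lit 4473, ⟨.ofNat (nat_lit 415764), .ofNat (nat_lit 449792), .ofNat (nat_lit 458716), .ofNat (nat_lit 492744), .ofNat (nat_lit 435680), .ofNat (nat_lit 466195), .ofNat (nat_lit 479808), .ofNat (nat_lit 510324)⟩, ⟨.ofNat (nat_lit 438578), .ofNat (nat_lit 506556), .ofNat (nat_lit 481711), .ofNat (nat_lit 549689), .ofNat (nat_lit 428022), .ofNat (nat_lit 488976), .ofNat (nat_lit 472332), .ofNat (nat_lit 533286)⟩⟩, [⟨nat_lit 0, nat_lit 100, nat_lit 87, nat_lit 95, nat_lit 311668731⟩]⟩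
noncomputable def p093_l2 : Lf2 := ⟨nat_lit 0, nat_lit 10, [nat_lit 0, nat_lit 5, nat_lit 5, nat_lit 20], false, nat_lit 280, nat_lit 300, nat_lit 0, nat_lit 336, ⟨nat_lit 54, nat_lit 946, nat_lit 0, nat_lit 7, nat_lit 178, nat_lit 946, nat_lit 222, nat_lit 0, nat_lit 0, nat_lit 0, nat_lit 0, nat_lit 0, nat_lit 42315375, nat_lit 10204978, nat_lit 14479647, nat_lit 4888194, false, false⟩,
 nat_lit 0, nat_lit 0, nat_lit 954, nat_lit 0, nat_lit 3223, nat_lit 607, nat_lit 0, nat_lit 0, nat_lit 0, nat_lit 21, nat_lit 0, nat_lit 0, nat_lit 0, nat_lit 0, nat_lit 0, nat_lit 236500, nat_lit 0, nat_lit 0, [(nat_lit 18, [(nat_lit 0, nat_lit 946)])],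
 ⟨p093_k0, nat_lit 0, nat_lit 0, nat_lit 54, nat_lit 0, nat_lit 0, [nat_lit 1559756800, nat_lit 2304080001, nat_lit 2761152000], [], [nat_lit 20576192626, nat_lit 20913530582, nat_lit 20677780510, nat_lit 20994067496, nat_lit 21649159857, nat_lit 21974067381, nat_lit 21686352839, nat_lit 22003549981], nat_lit 0, nat_lit 0, nat_lit 0, nat_lit 0, nat_lit 0, nat_lit 0, [], [nat_lit 6, nat_lit 40, nat_lit 40, nat_lit 80, nat_lit 3, nat_lit 238, nat_lit 30, nat_lit 8]⟩, ⟨p093_k1, nat_lit 0, nat_lit 0, nat_lit 645, nat_lit 0, nat_lit 923876, [nat_lit 177228000, nat_lit 337500000, nat_lit 531468000], [], [nat_lit 1721971350, nat_lit 1615584571, nat_lit 1435016109, nat_lit 1574190207, nat_lit 1714437381, nat_lit 1617611628, nat_lit 1837757962, nat_lit 1571180558], nat_lit 1271250, nat_lit 1271250, nat_lit 631250, nat_lit 780000, nat_lit 0, nat_lit 2373000, [nat_lit 780000, nat_lit 1435000, nat_lit 1271250], [nat_lit 8, nat_lit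 40, nat_lit 40, nat_lit 80, nat_lit 1, nat_lit 345, nat_lit 125, nat_lit 10]⟩,
 ⟨nat_lit 4330, nat_lit 4473, ⟨.ofNat (nat_lit 416316), .ofNat (nat_lit 450305), .ofNat (nat_lit 437881), .ofNat (nat_lit 471870), .ofNat (nat_lit 418656), .ofNat (nat_lit 452215), .ofNat (nat_lit 440268), .ofNat (nat_lit 473827)⟩, ⟨.ofNat (nat_lit 528122), .ofNat (nat_lit 562111), .ofNat (nat_lit 549689), .ofNat (nat_lit 583678), .ofNat (nat_lit 526166), .ofNat (nat_lit 559724), .ofNat (nat_lit 547779), .ofNat (nat_lit 581338)⟩⟩, [⟨nat_lit 0, nat_lit 93, nat_lit 84, nat_lit 100, nat_lit 233085122⟩, ⟨nat_lit 16, nat_lit 87, nat_lit 95, nat_lit 100, nat_lit 275299174⟩, ⟨nat_lit 19, nat_lit 100, nat_lit 90, nat_lit 100, nat_lit 9988948⟩]⟩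
noncomputable def p093_l3 : Lf2 := ⟨nat_lit 0, nat_lit 10, [nat_lit 0, nat_lit 5, nat_lit 5, nat_lit 20], true, nat_lit 280, nat_lit 296, nat_lit 0, nat_lit 336, ⟨nat_lit 0, nat_lit 1000, nat_lit 0, nat_lit 7, nat_lit 180, nat_lit 1000, nat_lit 220, nat_lit 0, nat_lit 0, nat_lit 0, nat_lit 0, nat_lit 0, nat_lit 42338693, nat_lit 10407123, nat_lit 14254184, nat_lit 4892435, false, false⟩,
 nat_lit 0, nat_lit 0, nat_lit 0, nat_lit 0, nat_lit 3184, nat_lit 0, nat_lit 0, nat_lit 0, nat_lit 0, nat_lit 0, nat_lit 0, nat_lit 0, nat_lit 0, nat_lit 0, nat_lit 0, nat_lit 250000, nat_lit 0, nat_lit 0, [(nat_lit 18, [(nat_lit 0, nat_lit 1000)])],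
 ⟨p093_k2, nat_lit 0, nat_lit 0, nat_lit 54, nat_lit 0, nat_lit 0, [nat_lit 1532800000, nat_lit 2168000000, nat_lit 2562000000], [], [nat_lit 20900144792, nat_lit 21235997028, nat_lit 20978760512, nat_lit 21293311344, nat_lit 21739450556, nat_lit 22064373878, nat_lit 21770592479, nat_lit 22089442762], nat_lit 0, nat_lit 0, nat_lit 0, nat_lit 0, nat_lit 0, nat_lit 0, [], [nat_lit 6, nat_lit 40, nat_lit 40, nat_lit 80, nat_lit 3, nat_lit 238, nat_lit 30, nat_lit 7]⟩, C1.Rw.none,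
 ⟨nat_lit 4183, nat_lit 4331, ⟨.ofNat (nat_lit 425367), .ofNat (nat_lit 452214), .ofNat (nat_lit 446979), .ofNat (nat_lit 473827), .ofNat (nat_lit 427648), .ofNat (nat_lit 454150), .ofNat (nat_lit 449313), .ofNat (nat_lit 475816)⟩, ⟨.ofNat (nat_lit 526166), .ofNat (nat_lit 553013), .ofNat (nat_lit 547779), .ofNat (nat_lit 574626), .ofNat (nat_lit 524176), .ofNat (nat_lit 550678), .ofNat (nat_lit 545843), .ofNat (nat_lit 572345)⟩⟩, [⟨nat_lit 0, nat_lit 97, nat_lit 84, nat_lit 100, nat_lit 302482879⟩, ⟨nat_lit 16, nat_lit 85, nat_lit 97, nat_lit 100, nat_lit 263508977⟩]⟩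
noncomputable def p093_l4 : Lf2 := ⟨nat_lit 0, nat_lit 10, [nat_lit 0, nat_lit 5, nat_lit 5, nat_lit 20], true, nat_lit 280, nat_lit 288, nat_lit 0, nat_lit 336, ⟨nat_lit 0, nat_lit 1000, nat_lit 0, nat_lit 7, nat_lit 189, nat_lit 1000, nat_lit 211, nat_lit 0, nat_lit 0, nat_lit 0, nat_lit 0, nat_lit 0, nat_lit 42405048, nat_lit 11178372, nat_lit 13416580, nat_lit 4904310, false, false⟩,
 nat_lit 0, nat_lit 0, nat_lit 0, nat_lit 0, nat_lit 3185, nat_lit 0, nat_lit 0, nat_lit 0, nat_lit 0, nat_lit 0, nat_lit 0, nat_lit 0, nat_lit 0, nat_lit 0, nat_lit 0, nat_lit 250000, nat_lit 0, nat_lit 0, [(nat_lit 18, [(nat_lit 0, nat_lit 1000)])],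
 ⟨p093_k3, nat_lit 0, nat_lit 0, nat_lit 53, nat_lit 0, nat_lit 0, [nat_lit 1532800000, nat_lit 2168000000, nat_lit 2562000000], [], [nat_lit 21256666443, nat_lit 21925340804, nat_lit 21293057148, nat_lit 21938533460, nat_lit 21666763878, nat_lit 22323641145, nat_lit 21683320409, nat_lit 22333653632], nat_lit 0, nat_lit 0, nat_lit 0, nat_lit 0, nat_lit 0, nat_lit 0, [], [nat_lit 6, nat_lit 40, nat_lit 40, nat_lit 80, nat_lit 3, nat_lit 238, nat_lit 30, nat_lit 7]⟩, C1.Rw.none,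
 ⟨nat_lit 3872, nat_lit 4184, ⟨.ofNat (nat_lit 440878), .ofNat (nat_lit 454130), .ofNat (nat_lit 484202), .ofNat (nat_lit 497453), .ofNat (nat_lit 445199), .ofNat (nat_lit 458104), .ofNat (nat_lit 488776), .ofNat (nat_lit 501681)⟩, ⟨.ofNat (nat_lit 502509), .ofNat (nat_lit 515761), .ofNat (nat_lit 545843), .ofNat (nat_lit 559094), .ofNat (nat_lit 498282), .ofNat (nat_lit 511186), .ofNat (nat_lit 541869), .ofNat (nat_lit 554773)⟩⟩, [⟨nat_lit 0, nat_lit 100, nat_lit 83, nat_lit 98, nat_lit 311565197⟩, ⟨nat_lit 16, nat_lit 83, nat_lit 98, nat_lit 100, nat_lit 277629510⟩]⟩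
noncomputable def p093_l5 : Lf2 := ⟨nat_lit 0, nat_lit 10, [nat_lit 0, nat_lit 5, nat_lit 5, nat_lit 20], false, nat_lit 240, nat_lit 300, nat_lit 0, nat_lit 336, ⟨nat_lit 53, nat_lit 947, nat_lit 0, nat_lit 7, nat_lit 224, nat_lit 947, nat_lit 203, nat_lit 0, nat_lit 0, nat_lit 0, nat_lit 0, nat_lit 0, nat_lit 40527907, nat_lit 14254319, nat_lit 12217774, nat_lit 5091441, false, false⟩,
 nat_lit 0, nat_lit 0, nat_lit 930, nat_lit 0, nat_lit 3223, nat_lit 591, nat_lit 0, nat_lit 0, nat_lit 0, nat_lit 1, nat_lit 0, nat_lit 0, nat_lit 0, nat_lit 0, nat_lit 0, nat_lit 236750, nat_lit 0, nat_lit 0, [(nat_lit 18, [(nat_lit 0, nat_lit 947)])],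
 ⟨p093_k0, nat_lit 0, nat_lit 0, nat_lit 54, nat_lit 0, nat_lit 0, [nat_lit 1559257600, nat_lit 2301560001, nat_lit 2757464000], [], [nat_lit 18660136652, nat_lit 20040210692, nat_lit 21761166524, nat_lit 22900030948, nat_lit 21685853639, nat_lit 22957212462, nat_lit 24259075214, nat_lit 25308201290], nat_lit 0, nat_lit 0, nat_lit 0, nat_lit 0, nat_lit 0, nat_lit 0, [], [nat_lit 6, nat_lit 40, nat_lit 40, nat_lit 80, nat_lit 3, nat_lit 272, nat_lit 60, nat_lit 9]⟩, ⟨p093_k1, nat_lit 0, nat_lit 0, nat_lit 769, nat_lit 0, nat_lit 1200600, [nat_lit 173946000, nat_lit 331250000, nat_lit 521626000], [], [nat_lit 2465786076, nat_lit 2309543997, nat_lit 1707376777, nat_lit 1759527162, nat_lit 1599925583, nat_lit 1633350207, nat_lit 2156553673, nat_lit 2026778347], nat_lit 1271250, nat_lit 1271250, nat_lit 780000, nat_lit 1762500, nat_lit 0, nat_lit 2373000, [nat_lit 780000, nat_lit 1435000, nat_lit 1271250], [nat_lit 8,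 nat_lit 40, nat_lit 40, nat_lit 80, nat_lit 1, nat_lit 373, nat_lit 150, nat_lit 11]⟩,
 ⟨nat_lit 3872, nat_lit 4473, ⟨.ofNat (nat_lit 450223), .ofNat (nat_lit 654181), .ofNat (nat_lit 460997), .ofNat (nat_lit 664955), .ofNat (nat_lit 458043), .ofNat (nat_lit 651631), .ofNat (nat_lit 468931), .ofNat (nat_lit 662519)⟩, ⟨.ofNat (nat_lit 438578), .ofNat (nat_lit 540545), .ofNat (nat_lit 481711), .ofNat (nat_lit 583678), .ofNat (nat_lit 433760), .ofNat (nat_lit 530543), .ofNat (nat_lit 477347), .ofNat (nat_lit 574129)⟩⟩, [⟨nat_lit 16, nat_lit 87, nat_lit 95, nat_lit 100, nat_lit 234395810⟩]⟩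
noncomputable def p093_l6 : Lf2 := ⟨nat_lit 0, nat_lit 10, [nat_lit 0, nat_lit 5, nat_lit 5, nat_lit 20], true, nat_lit 240, nat_lit 280, nat_lit 0, nat_lit 328, ⟨nat_lit 0, nat_lit 1000, nat_lit 0, nat_lit 7, nat_lit 201, nat_lit 1000, nat_lit 196, nat_lit 0, nat_lit 0, nat_lit 0, nat_lit 0, nat_lit 0, nat_lit 42596038, nat_lit 12446255, nat_lit 11957707, nat_lit 4893608, false, false⟩,
 nat_lit 0, nat_lit 0, nat_lit 0, nat_lit 0, nat_lit 3246, nat_lit 0, nat_lit 0, nat_lit 0, nat_lit 0, nat_lit 0, nat_lit 0, nat_lit 0, nat_lit 0, nat_lit 0, nat_lit 0, nat_lit 250000, nat_lit 0, nat_lit 0, [(nat_lit 18, [(nat_lit 0, nat_lit 1000)])],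
 ⟨p093_k0, nat_lit 0, nat_lit 0, nat_lit 48, nat_lit 0, nat_lit 0, [nat_lit 1532800000, nat_lit 2168000000, nat_lit 2562000000], [], [nat_lit 18620429304, nat_lit 20005183384, nat_lit 19331170952, nat_lit 20641033312, nat_lit 20642929420, nat_lit 21981411336, nat_lit 21248450360, nat_lit 22482507708], nat_lit 0, nat_lit 0, nat_lit 0, nat_lit 0, nat_lit 0, nat_lit 0, [], [nat_lit 6, nat_lit 40, nat_lit 40, nat_lit 80, nat_lit 3, nat_lit 249, nat_lit 40, nat_lit 8]⟩, C1.Rw.none,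
 ⟨nat_lit 3872, nat_lit 4473, ⟨.ofNat (nat_lit 460997), .ofNat (nat_lit 528983), .ofNat (nat_lit 471772), .ofNat (nat_lit 539758), .ofNat (nat_lit 468931), .ofNat (nat_lit 533461), .ofNat (nat_lit 479819), .ofNat (nat_lit 544349)⟩, ⟨.ofNat (nat_lit 438578), .ofNat (nat_lit 506556), .ofNat (nat_lit 481711), .ofNat (nat_lit 549689), .ofNat (nat_lit 433760), .ofNat (nat_lit 498282), .ofNat (nat_lit 477347), .ofNat (nat_lit 541869)⟩⟩, [⟨nat_lit 0, nat_lit 100, nat_lit 89, nat_lit 100, nat_lit 32649019⟩]⟩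
noncomputable def p093_l7 : Lf2 := ⟨nat_lit 0, nat_lit 10, [nat_lit 0, nat_lit 5, nat_lit 5, nat_lit 20], false, nat_lit 280, nat_lit 300, nat_lit 0, nat_lit 328, ⟨nat_lit 52, nat_lit 948, nat_lit 0, nat_lit 7, nat_lit 201, nat_lit 948, nat_lit 216, nat_lit 0, nat_lit 0, nat_lit 0, nat_lit 0, nat_lit 0, nat_lit 41162899, nat_lit 12185803, nat_lit 13651298, nat_lit 5034341, false, false⟩,
 nat_lit 0, nat_lit 0, nat_lit 901, nat_lit 0, nat_lit 3222, nat_lit 598, nat_lit 0, nat_lit 0, nat_lit 0, nat_lit 0, nat_lit 0, nat_lit 0, nat_lit 0, nat_lit 0, nat_lit 0, nat_lit 237000, nat_lit 0, nat_lit 0, [(nat_lit 18, [(nat_lit 0, nat_lit 948)])],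
 ⟨p093_k0, nat_lit 0, nat_lit 0, nat_lit 54, nat_lit 0, nat_lit 0, [nat_lit 1558758401, nat_lit 2299040001, nat_lit 2753776000], [], [nat_lit 20677125341, nat_lit 21964541352, nat_lit 21285024921, nat_lit 22483696001, nat_lit 21685581247, nat_lit 22956399868, nat_lit 22241124849, nat_lit 23410675014], nat_lit 0, nat_lit 0, nat_lit 0, nat_lit 0, nat_lit 0, nat_lit 0, [], [nat_lit 6, nat_lit 40, nat_lit 40, nat_lit 80, nat_lit 3, nat_lit 249, nat_lit 40, nat_lit 8]⟩, ⟨p093_k4, nat_lit 0, nat_lit 0, nat_lit 694, nat_lit 0, nat_lit 1204845, [nat_lit 170664000, nat_lit 325000000, nat_lit 414336000], [], [nat_lit 1675165674, nat_lit 1519453052, nat_lit 1271772580, nat_lit 1343606368, nat_lit 1581523339, nat_lit 1450914281, nat_lit 1888613618, nat_lit 1758613621], nat_lit 1271250, nat_lit 1271250, nat_lit 780000, nat_lit 1100001, nat_lit 0, nat_lit 2316500, [nat_lit 780000, nat_lit 1435000, nat_lit 1271250], [nat_lit 18,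 nat_lit 40, nat_lit 40, nat_lit 80, nat_lit 2, nat_lit 345, nat_lit 125, nat_lit 11]⟩,
 ⟨nat_lit 3872, nat_lit 4473, ⟨.ofNat (nat_lit 460997), .ofNat (nat_lit 528983), .ofNat (nat_lit 471772), .ofNat (nat_lit 539758), .ofNat (nat_lit 468931), .ofNat (nat_lit 533461), .ofNat (nat_lit 479819), .ofNat (nat_lit 544349)⟩, ⟨.ofNat (nat_lit 506556), .ofNat (nat_lit 540545), .ofNat (nat_lit 549689), .ofNat (nat_lit 583678), .ofNat (nat_lit 498282), .ofNat (nat_lit 530543), .ofNat (nat_lit 541869), .ofNat (nat_lit 574129)⟩⟩, [⟨nat_lit 0, nat_lit 100, nat_lit 89, nat_lit 100, nat_lit 10806651⟩, ⟨nat_lit 16, nat_lit 87, nat_lit 95, nat_lit 100, nat_lit 285070038⟩, ⟨nat_lit 19, nat_lit 97, nat_lit 84, nat_lit 100, nat_lit 8981872⟩]⟩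
noncomputable def p093_l8 : Lf2 := ⟨nat_lit 0, nat_lit 10, [nat_lit 0, nat_lit 5, nat_lit 5, nat_lit 20], false, nat_lit 240, nat_lit 300, nat_lit 0, nat_lit 328, ⟨nat_lit 80, nat_lit 920, nat_lit 0, nat_lit 7, nat_lit 241, nat_lit 920, nat_lit 203, nat_lit 0, nat_lit 0, nat_lit 0, nat_lit 0, nat_lit 0, nat_lit 39269440, nat_lit 15767812, nat_lit 11962748, nat_lit 5188370, false, false⟩,
 nat_lit 0, nat_lit 0, nat_lit 900, nat_lit 0, nat_lit 3246, nat_lit 597, nat_lit 0, nat_lit 0, nat_lit 0, nat_lit 0, nat_lit 0, nat_lit 0, nat_lit 0, nat_lit 0, nat_lit 0, nat_lit 230000, nat_lit 0, nat_lit 0, [(nat_lit 18, [(nat_lit 0, nat_lit 920)])],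
 ⟨p093_k0, nat_lit 0, nat_lit 0, nat_lit 46, nat_lit 0, nat_lit 0, [nat_lit 1572736000, nat_lit 2369600000, nat_lit 2857040000], [], [nat_lit 19371106952, nat_lit 20680969312, nat_lit 21761516248, nat_lit 22903869496, nat_lit 22247026064, nat_lit 23426837502, nat_lit 24264945628, nat_lit 25322923279], nat_lit 0, nat_lit 0, nat_lit 0, nat_lit 0, nat_lit 0, nat_lit 0, [], [nat_lit 6, nat_lit 40, nat_lit 40, nat_lit 80, nat_lit 3, nat_lit 272, nat_lit 60, nat_lit 9]⟩, ⟨p093_k4, nat_lit 0, nat_lit 0, nat_lit 680, nat_lit 0, nat_lit 1204845, [nat_lit 262560000, nat_lit 500000000, nat_lit 637440000], [], [nat_lit 2922204938, nat_lit 2949733044, nat_lit 2980968061, nat_lit 3003994418, nat_lit 2792549806, nat_lit 2806505788, nat_lit 3055322621, nat_lit 2925540015], nat_lit 1271250, nat_lit 1271250, nat_lit 1100001, nat_lit 1785000, nat_lit 0, nat_lit 2316500, [nat_lit 780000, nat_lit 1435000, nat_lit 1271250], [nat_lit 18,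 nat_lit 40, nat_lit 40, nat_lit 80, nat_lit 2, nat_lit 373, nat_lit 150, nat_lit 12]⟩,
 ⟨nat_lit 3872, nat_lit 4473, ⟨.ofNat (nat_lit 528983), .ofNat (nat_lit 664955), .ofNat (nat_lit 539758), .ofNat (nat_lit 675730), .ofNat (nat_lit 533461), .ofNat (nat_lit 662519), .ofNat (nat_lit 544349), .ofNat (nat_lit 673407)⟩, ⟨.ofNat (nat_lit 438578), .ofNat (nat_lit 540545), .ofNat (nat_lit 481711), .ofNat (nat_lit 583678), .ofNat (nat_lit 433760), .ofNat (nat_lit 530543), .ofNat (nat_lit 477347), .ofNat (nat_lit 574129)⟩⟩, [⟨nat_lit 16, nat_lit 87, nat_lit 95, nat_lit 100, nat_lit 245435038⟩, ⟨nat_lit 19, nat_lit 97, nat_lit 84, nat_lit 100, nat_lit 13233240⟩]⟩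
noncomputable def p093_l9 : Lf2 := ⟨nat_lit 0, nat_lit 10, [nat_lit 0, nat_lit 5, nat_lit 5, nat_lit 20], false, nat_lit 240, nat_lit 300, nat_lit 0, nat_lit 160, ⟨nat_lit 736, nat_lit 264, nat_lit 0, nat_lit 7, nat_lit 234, nat_lit 264, nat_lit 203, nat_lit 0, nat_lit 0, nat_lit 0, nat_lit 0, nat_lit 0, nat_lit 39751918, nat_lit 15185926, nat_lit 12062156, nat_lit 5153258, false, false⟩,
 nat_lit 0, nat_lit 0, nat_lit 6872, nat_lit 0, nat_lit 3499, nat_lit 4757, nat_lit 0, nat_lit 0, nat_lit 0, nat_lit 2432, nat_lit 0, nat_lit 0, nat_lit 0, nat_lit 0, nat_lit 0, nat_lit 105600, nat_lit 0, nat_lit 0, [(nat_lit 18, [(nat_lit 1, nat_lit 264)])],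
 ⟨p093_k0, nat_lit 0, nat_lit 0, nat_lit 54, nat_lit 0, nat_lit 0, [nat_lit 1864659200, nat_lit 3969568000, nat_lit 5117651200], [], [nat_lit 18806541276, nat_lit 20242775796, nat_lit 21909024012, nat_lit 23089754324, nat_lit 21928656507, nat_lit 23181980897, nat_lit 24473180982, nat_lit 25511761568], nat_lit 0, nat_lit 0, nat_lit 0, nat_lit 0, nat_lit 0, nat_lit 0, [], [nat_lit 6, nat_lit 40, nat_lit 40, nat_lit 80, nat_lit 3, nat_lit 272, nat_lit 60, nat_lit 9]⟩, ⟨p093_k5, nat_lit 0, nat_lit 0, nat_lit 742, nat_lit 0, nat_lit 1290027, [nat_lit 2415552000, nat_lit 4600000000, nat_lit 5864448000], [], [nat_lit 21707817434, nat_lit 19230476488, nat_lit 19021012002, nat_lit 19552338736, nat_lit 16728515680, nat_lit 17269352872, nat_lit 17687858290, nat_lit 18121991356], nat_lit 1271250, nat_lit 1271250, nat_lit 780000, nat_lit 1762500, nat_lit 0, nat_lit 1100001, [nat_lit 780000, nat_lit 1435000, nat_lit 1271250],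 [nat_lit 18, nat_lit 40, nat_lit 40, nat_lit 80, nat_lit 2, nat_lit 317, nat_lit 100, nat_lit 10]⟩,
 ⟨nat_lit 3872, nat_lit 4473, ⟨.ofNat (nat_lit 471772), .ofNat (nat_lit 675730), .ofNat (nat_lit 493321), .ofNat (nat_lit 697279), .ofNat (nat_lit 479819), .ofNat (nat_lit 673407), .ofNat (nat_lit 501595), .ofNat (nat_lit 695183)⟩, ⟨.ofNat (nat_lit 438578), .ofNat (nat_lit 540545), .ofNat (nat_lit 481711), .ofNat (nat_lit 583678), .ofNat (nat_lit 433760), .ofNat (nat_lit 530543), .ofNat (nat_lit 477347), .ofNat (nat_lit 574129)⟩⟩, [⟨nat_lit 0, nat_lit 87, nat_lit 79, nat_lit 100, nat_lit 326503915⟩, ⟨nat_lit 4, nat_lit 100, nat_lit 81, nat_lit 92, nat_lit 563096220⟩]⟩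
noncomputable def p093_l10 : Lf2 := ⟨nat_lit 0, nat_lit 10, [nat_lit 0, nat_lit 5, nat_lit 5, nat_lit 20], false, nat_lit 240, nat_lit 300, nat_lit 160, nat_lit 320, ⟨nat_lit 157, nat_lit 843, nat_lit 0, nat_lit 7, nat_lit 205, nat_lit 843, nat_lit 204, nat_lit 0, nat_lit 0, nat_lit 0, nat_lit 0, nat_lit 0, nat_lit 41800383, nat_lit 12666906, nat_lit 12532711, nat_lit 4975369, false, false⟩,
 nat_lit 0, nat_lit 0, nat_lit 1476, nat_lit 0, nat_lit 3283, nat_lit 1021, nat_lit 0, nat_lit 0, nat_lit 0, nat_lit 225, nat_lit 0, nat_lit 0, nat_lit 0, nat_lit 0, nat_lit 0, nat_lit 210750, nat_lit 0, nat_lit 0, [(nat_lit 18, [(nat_lit 0, nat_lit 843)])],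
 ⟨p093_k0, nat_lit 0, nat_lit 0, nat_lit 49, nat_lit 0, nat_lit 0, [nat_lit 1611174400, nat_lit 2563640001, nat_lit 3141016000], [], [nat_lit 18677488892, nat_lit 19373630312, nat_lit 19385347796, nat_lit 20043750686, nat_lit 21724162019, nat_lit 22364888365, nat_lit 22273013372, nat_lit 22850324642], nat_lit 0, nat_lit 0, nat_lit 0, nat_lit 0, nat_lit 0, nat_lit 0, [], [nat_lit 6, nat_lit 40, nat_lit 40, nat_lit 80, nat_lit 3, nat_lit 249, nat_lit 40, nat_lit 8]⟩, ⟨p093_k5, nat_lit 0, nat_lit 0, nat_lit 547, nat_lit 0, nat_lit 1097686, [nat_lit 515274000, nat_lit 981250000, nat_lit 1250976000], [], [nat_lit 3338600429, nat_lit 3396009383, nat_lit 3352179573, nat_lit 3405959263, nat_lit 3814355127, nat_lit 3854058786, nat_lit 3797884029, nat_lit 3848399155], nat_lit 1271250, nat_lit 1271250, nat_lit 780000, nat_lit 1100001, nat_lit 1100001, nat_lit 2470000, [nat_lit 780000, nat_lit 1435000, nat_lit 1271250], [nat_lit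 18, nat_lit 40, nat_lit 40, nat_lit 80, nat_lit 2, nat_lit 345, nat_lit 125, nat_lit 11]⟩,
 ⟨nat_lit 4183, nat_lit 4473, ⟨.ofNat (nat_lit 471853), .ofNat (nat_lit 539833), .ofNat (nat_lit 482635), .ofNat (nat_lit 550614), .ofNat (nat_lit 475800), .ofNat (nat_lit 542057), .ofNat (nat_lit 486631), .ofNat (nat_lit 552888)⟩, ⟨.ofNat (nat_lit 438578), .ofNat (nat_lit 540545), .ofNat (nat_lit 481711), .ofNat (nat_lit 583678), .ofNat (nat_lit 436254), .ofNat (nat_lit 535637), .ofNat (nat_lit 479587), .ofNat (nat_lit 578971)⟩⟩, [⟨nat_lit 0, nat_lit 90, nat_lit 83, nat_lit 100, nat_lit 134706614⟩, ⟨nat_lit 16, nat_lit 87, nat_lit 95, nat_lit 100, nat_lit 299074448⟩, ⟨nat_lit 19, nat_lit 94, nat_lit 88, nat_lit 100, nat_lit 52644388⟩]⟩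
noncomputable def p093_l11 : Lf2 := ⟨nat_lit 0, nat_lit 10, [nat_lit 0, nat_lit 5, nat_lit 5, nat_lit 20], true, nat_lit 240, nat_lit 288, nat_lit 160, nat_lit 320, ⟨nat_lit 0, nat_lit 1000, nat_lit 0, nat_lit 7, nat_lit 210, nat_lit 1000, nat_lit 198, nat_lit 0, nat_lit 0, nat_lit 0, nat_lit 0, nat_lit 0, nat_lit 41803393, nat_lit 13183197, nat_lit 12013410, nat_lit 4972554, false, false⟩,
 nat_lit 0, nat_lit 0, nat_lit 0, nat_lit 0, nat_lit 3198, nat_lit 0, nat_lit 0, nat_lit 0, nat_lit 0, nat_lit 0, nat_lit 0, nat_lit 0, nat_lit 0, nat_lit 0, nat_lit 0, nat_lit 250000, nat_lit 0, nat_lit 0, [(nat_lit 18, [(nat_lit 0, nat_lit 1000)])],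
 ⟨p093_k3, nat_lit 0, nat_lit 0, nat_lit 48, nat_lit 0, nat_lit 0, [nat_lit 1532800000, nat_lit 2168000000, nat_lit 2562000000], [], [nat_lit 19538799046, nat_lit 20215172712, nat_lit 20012989716, nat_lit 20663417056, nat_lit 21847769844, nat_lit 22489589446, nat_lit 22237860305, nat_lit 22830787133], nat_lit 0, nat_lit 0, nat_lit 0, nat_lit 0, nat_lit 0, nat_lit 0, [], [nat_lit 6, nat_lit 40, nat_lit 40, nat_lit 80, nat_lit 3, nat_lit 249, nat_lit 40, nat_lit 8]⟩, C1.Rw.none,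
 ⟨nat_lit 3872, nat_lit 4184, ⟨.ofNat (nat_lit 495669), .ofNat (nat_lit 542050), .ofNat (nat_lit 506500), .ofNat (nat_lit 552881), .ofNat (nat_lit 499249), .ofNat (nat_lit 544417), .ofNat (nat_lit 510144), .ofNat (nat_lit 555311)⟩, ⟨.ofNat (nat_lit 436254), .ofNat (nat_lit 515761), .ofNat (nat_lit 479587), .ofNat (nat_lit 559094), .ofNat (nat_lit 433760), .ofNat (nat_lit 511186), .ofNat (nat_lit 477347), .ofNat (nat_lit 554773)⟩⟩, [⟨nat_lit 0, nat_lit 88, nat_lit 77, nat_lit 100, nat_lit 44714989⟩, ⟨nat_lit 16, nat_lit 83, nat_lit 98, nat_lit 100, nat_lit 262874342⟩]⟩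
noncomputable def p093_l12 : Lf2 := ⟨nat_lit 0, nat_lit 10, [nat_lit 0, nat_lit 5, nat_lit 5, nat_lit 20], false, nat_lit 240, nat_lit 300, nat_lit 160, nat_lit 312, ⟨nat_lit 151, nat_lit 849, nat_lit 0, nat_lit 7, nat_lit 213, nat_lit 849, nat_lit 203, nat_lit 0, nat_lit 0, nat_lit 0, nat_lit 0, nat_lit 0, nat_lit 41289593, nat_lit 13345204, nat_lit 12365203, nat_lit 5024161, false, false⟩,
 nat_lit 0, nat_lit 0, nat_lit 1349, nat_lit 0, nat_lit 3292, nat_lit 972, nat_lit 0, nat_lit 0, nat_lit 0, nat_lit 173, nat_lit 0, nat_lit 0, nat_lit 0, nat_lit 0, nat_lit 0, nat_lit 212250, nat_lit 0, nat_lit 0, [(nat_lit 18, [(nat_lit 0, nat_lit 849)])],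
 ⟨p093_k0, nat_lit 0, nat_lit 0, nat_lit 52, nat_lit 0, nat_lit 0, [nat_lit 1608179200, nat_lit 2548520000, nat_lit 3118888000], [], [nat_lit 18881456317, nat_lit 20252884645, nat_lit 19376466704, nat_lit 20694961424, nat_lit 21883484748, nat_lit 23146641695, nat_lit 22266989528, nat_lit 23457815604], nat_lit 0, nat_lit 0, nat_lit 0, nat_lit 0, nat_lit 0, nat_lit 0, [], [nat_lit 6, nat_lit 40, nat_lit 40, nat_lit 80, nat_lit 3, nat_lit 249, nat_lit 40, nat_lit 8]⟩, ⟨p093_k6, nat_lit 0, nat_lit 0, nat_lit 578, nat_lit 0, nat_lit 1180387, [nat_lit 495582000, nat_lit 943750000, nat_lit 1203168000], [], [nat_lit 3204699672, nat_lit 3231817262, nat_lit 3216363705, nat_lit 3242269440, nat_lit 3641016847, nat_lit 3663287543, nat_lit 3640647662, nat_lit 3667300758], nat_lit 1271250, nat_lit 1271250, nat_lit 872850, nat_lit 1100001, nat_lit 1100001, nat_lit 2401500, [nat_lit 780000, nat_lit 1435000, nat_lit 1271250], [nat_lit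 18, nat_lit 40, nat_lit 40, nat_lit 80, nat_lit 2, nat_lit 345, nat_lit 125, nat_lit 10]⟩,
 ⟨nat_lit 3872, nat_lit 4473, ⟨.ofNat (nat_lit 502943), .ofNat (nat_lit 550532), .ofNat (nat_lit 508330), .ofNat (nat_lit 555919), .ofNat (nat_lit 510066), .ofNat (nat_lit 555236), .ofNat (nat_lit 515510), .ofNat (nat_lit 560680)⟩, ⟨.ofNat (nat_lit 438578), .ofNat (nat_lit 540545), .ofNat (nat_lit 481711), .ofNat (nat_lit 583678), .ofNat (nat_lit 433760), .ofNat (nat_lit 530543), .ofNat (nat_lit 477347), .ofNat (nat_lit 574129)⟩⟩, [⟨nat_lit 0, nat_lit 89, nat_lit 85, nat_lit 100, nat_lit 131577196⟩, ⟨nat_lit 16, nat_lit 87, nat_lit 95, nat_lit 100, nat_lit 299499953⟩, ⟨nat_lit 19, nat_lit 91, nat_lit 91, nat_lit 100, nat_lit 52490959⟩]⟩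
noncomputable def p093_l13 : Lf2 := ⟨nat_lit 0, nat_lit 10, [nat_lit 0, nat_lit 5, nat_lit 5, nat_lit 20], false, nat_lit 240, nat_lit 300, nat_lit 160, nat_lit 304, ⟨nat_lit 146, nat_lit 854, nat_lit 0, nat_lit 7, nat_lit 216, nat_lit 854, nat_lit 203, nat_lit 0, nat_lit 0, nat_lit 0, nat_lit 0, nat_lit 0, nat_lit 41038980, nat_lit 13643728, nat_lit 12317292, nat_lit 5047034, false, false⟩,
 nat_lit 0, nat_lit 0, nat_lit 1282, nat_lit 0, nat_lit 3294, nat_lit 942, nat_lit 0, nat_lit 0, nat_lit 0, nat_lit 143, nat_lit 0, nat_lit 0, nat_lit 0, nat_lit 0, nat_lit 0, nat_lit 213500, nat_lit 0, nat_lit 0, [(nat_lit 18, [(nat_lit 0, nat_lit 854)])],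
 ⟨p093_k0, nat_lit 0, nat_lit 0, nat_lit 51, nat_lit 0, nat_lit 0, [nat_lit 1605683201, nat_lit 2535920001, nat_lit 3100448000], [], [nat_lit 18948461606, nat_lit 20312722294, nat_lit 19372662729, nat_lit 20691532769, nat_lit 21935233765, nat_lit 23192608973, nat_lit 22263820497, nat_lit 23459162478], nat_lit 0, nat_lit 0, nat_lit 0, nat_lit 0, nat_lit 0, nat_lit 0, [], [nat_lit 6, nat_lit 40, nat_lit 40, nat_lit 80, nat_lit 3, nat_lit 249, nat_lit 40, nat_lit 8]⟩, ⟨p093_k7, nat_lit 0, nat_lit 0, nat_lit 578, nat_lit 0, nat_lit 1184620, [nat_lit 479172000, nat_lit 912500000, nat_lit 1163328000], [], [nat_lit 3114783013, nat_lit 3140858390, nat_lit 3123322797, nat_lit 3148392014, nat_lit 3498711607, nat_lit 3520584507, nat_lit 3497904563, nat_lit 3522420581], nat_lit 1271250, nat_lit 1271250, nat_lit 904401, nat_lit 1100001, nat_lit 1100001, nat_lit 2333000, [nat_lit 780000, nat_lit 1435000, nat_lit 1271250], [nat_lit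 18, nat_lit 40, nat_lit 40, nat_lit 80, nat_lit 2, nat_lit 345, nat_lit 125, nat_lit 10]⟩,
 ⟨nat_lit 3872, nat_lit 4473, ⟨.ofNat (nat_lit 515128), .ofNat (nat_lit 555919), .ofNat (nat_lit 520515), .ofNat (nat_lit 561306), .ofNat (nat_lit 521962), .ofNat (nat_lit 560680), .ofNat (nat_lit 527406), .ofNat (nat_lit 566124)⟩, ⟨.ofNat (nat_lit 438578), .ofNat (nat_lit 540545), .ofNat (nat_lit 481711), .ofNat (nat_lit 583678), .ofNat (nat_lit 433760), .ofNat (nat_lit 530543), .ofNat (nat_lit 477347), .ofNat (nat_lit 574129)⟩⟩, [⟨nat_lit 0, nat_lit 86, nat_lit 84, nat_lit 100, nat_lit 135115925⟩, ⟨nat_lit 16, nat_lit 87, nat_lit 95, nat_lit 100, nat_lit 298530657⟩, ⟨nat_lit 19, nat_lit 89, nat_lit 93, nat_lit 100, nat_lit 51051447⟩]⟩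
noncomputable def p093_l14 : Lf2 := ⟨nat_lit 0, nat_lit 10, [nat_lit 0, nat_lit 5, nat_lit 5, nat_lit 20], false, nat_lit 240, nat_lit 300, nat_lit 160, nat_lit 320, ⟨nat_lit 202, nat_lit 798, nat_lit 0, nat_lit 7, nat_lit 245, nat_lit 798, nat_lit 203, nat_lit 0, nat_lit 0, nat_lit 0, nat_lit 0, nat_lit 0, nat_lit 38960605, nat_lit 16141314, nat_lit 11898081, nat_lit 5209535, false, false⟩,
 nat_lit 0, nat_lit 0, nat_lit 1872, nat_lit 0, nat_lit 3318, nat_lit 1295, nat_lit 0, nat_lit 0, nat_lit 0, nat_lit 397, nat_lit 0, nat_lit 0, nat_lit 0, nat_lit 0, nat_lit 0, nat_lit 199500, nat_lit 0, nat_lit 0, [(nat_lit 18, [(nat_lit 0, nat_lit 798)])],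
 ⟨p093_k0, nat_lit 0, nat_lit 0, nat_lit 46, nat_lit 0, nat_lit 0, [nat_lit 1633638400, nat_lit 2677040001, nat_lit 3306976000], [], [nat_lit 19384922216, nat_lit 20708296096, nat_lit 21781320184, nat_lit 22934594968, nat_lit 22283699312, nat_lit 23475324966, nat_lit 24302031724, nat_lit 25369009507], nat_lit 0, nat_lit 0, nat_lit 0, nat_lit 0, nat_lit 0, nat_lit 0, [], [nat_lit 6, nat_lit 40, nat_lit 40, nat_lit 80, nat_lit 3, nat_lit 272, nat_lit 60, nat_lit 9]⟩, ⟨p093_k5, nat_lit 0, nat_lit 0, nat_lit 580, nat_lit 0, nat_lit 1210937, [nat_lit 662964000, nat_lit 1262500000, nat_lit 1609536000], [], [nat_lit 4089354945, nat_lit 4168791544, nat_lit 4381559624, nat_lit 4459551618, nat_lit 4881949986, nat_lit 4945925591, nat_lit 6113535759, nat_lit 5820342579], nat_lit 1271250, nat_lit 1271250, nat_lit 1100001, nat_lit 1785000, nat_lit 1100001, nat_lit 2470000, [nat_lit 780000, nat_lit 1435000, nat_lit 1271250], [nat_lit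 18, nat_lit 40, nat_lit 40, nat_lit 80, nat_lit 2, nat_lit 373, nat_lit 150, nat_lit 11]⟩,
 ⟨nat_lit 3872, nat_lit 4473, ⟨.ofNat (nat_lit 539758), .ofNat (nat_lit 675730), .ofNat (nat_lit 550532), .ofNat (nat_lit 686505), .ofNat (nat_lit 544349), .ofNat (nat_lit 673407), .ofNat (nat_lit 555236), .ofNat (nat_lit 684295)⟩, ⟨.ofNat (nat_lit 438578), .ofNat (nat_lit 540545), .ofNat (nat_lit 481711), .ofNat (nat_lit 583678), .ofNat (nat_lit 433760), .ofNat (nat_lit 530543), .ofNat (nat_lit 477347), .ofNat (nat_lit 574129)⟩⟩, [⟨nat_lit 16, nat_lit 87, nat_lit 95, nat_lit 100, nat_lit 283323597⟩, ⟨nat_lit 19, nat_lit 94, nat_lit 88, nat_lit 100, nat_lit 74088201⟩]⟩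
noncomputable def p093_l15 : Lf2 := ⟨nat_lit 0, nat_lit 10, [nat_lit 0, nat_lit 5, nat_lit 5, nat_lit 20], false, nat_lit 240, nat_lit 300, nat_lit 160, nat_lit 312, ⟨nat_lit 150, nat_lit 850, nat_lit 0, nat_lit 7, nat_lit 250, nat_lit 850, nat_lit 203, nat_lit 0, nat_lit 0, nat_lit 0, nat_lit 0, nat_lit 0, nat_lit 38652432, nat_lit 16514803, nat_lit 11832765, nat_lit 5229649, false, false⟩,
 nat_lit 0, nat_lit 0, nat_lit 1335, nat_lit 0, nat_lit 3322, nat_lit 962, nat_lit 0, nat_lit 0, nat_lit 0, nat_lit 169, nat_lit 0, nat_lit 0, nat_lit 0, nat_lit 0, nat_lit 0, nat_lit 212500, nat_lit 0, nat_lit 0, [(nat_lit 18, [(nat_lit 0, nat_lit 850)])],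
 ⟨p093_k0, nat_lit 0, nat_lit 0, nat_lit 46, nat_lit 0, nat_lit 0, [nat_lit 1607680000, nat_lit 2546000000, nat_lit 3115200000], [], [nat_lit 19356347864, nat_lit 20680472384, nat_lit 21753078536, nat_lit 22906960072, nat_lit 22256394848, nat_lit 23478018714, nat_lit 24303575250, nat_lit 25371569853], nat_lit 0, nat_lit 0, nat_lit 0, nat_lit 0, nat_lit 0, nat_lit 0, [], [nat_lit 6, nat_lit 40, nat_lit 40, nat_lit 80, nat_lit 3, nat_lit 272, nat_lit 60, nat_lit 9]⟩, ⟨p093_k6, nat_lit 0, nat_lit 0, nat_lit 588, nat_lit 0, nat_lit 1218192, [nat_lit 492300000, nat_lit 937500000, nat_lit 1195200000], [], [nat_lit 3230619760, nat_lit 3282018694, nat_lit 3377078528, nat_lit 3420948566, nat_lit 3638968125, nat_lit 3697392343, nat_lit 4273953497, nat_lit 4055571127], nat_lit 1271250, nat_lit 1271250, nat_lit 1100001, nat_lit 1785000, nat_lit 1100001, nat_lit 2401500, [nat_lit 780000, nat_lit 1435000, nat_lit 1271250], [nat_lit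 18, nat_lit 40, nat_lit 40, nat_lit 80, nat_lit 2, nat_lit 373, nat_lit 150, nat_lit 11]⟩,
 ⟨nat_lit 3872, nat_lit 4473, ⟨.ofNat (nat_lit 550532), .ofNat (nat_lit 686505), .ofNat (nat_lit 561306), .ofNat (nat_lit 697279), .ofNat (nat_lit 555236), .ofNat (nat_lit 684295), .ofNat (nat_lit 566124), .ofNat (nat_lit 695183)⟩, ⟨.ofNat (nat_lit 438578), .ofNat (nat_lit 540545), .ofNat (nat_lit 481711), .ofNat (nat_lit 583678), .ofNat (nat_lit 433760), .ofNat (nat_lit 530543), .ofNat (nat_lit 477347), .ofNat (nat_lit 574129)⟩⟩, [⟨nat_lit 16, nat_lit 87, nat_lit 95, nat_lit 100, nat_lit 290010068⟩, ⟨nat_lit 19, nat_lit 91, nat_lit 91, nat_lit 100, nat_lit 51204136⟩]⟩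
noncomputable def p093_l16 : Lf2 := ⟨nat_lit 0, nat_lit 10, [nat_lit 0, nat_lit 5, nat_lit 5, nat_lit 20], true, nat_lit 240, nat_lit 276, nat_lit 0, nat_lit 336, ⟨nat_lit 0, nat_lit 1000, nat_lit 0, nat_lit 7, nat_lit 207, nat_lit 1000, nat_lit 192, nat_lit 0, nat_lit 0, nat_lit 0, nat_lit 0, nat_lit 0, nat_lit 42428799, nat_lit 13019538, nat_lit 11551663, nat_lit 4907313, false, false⟩,
 nat_lit 0, nat_lit 0, nat_lit 0, nat_lit 0, nat_lit 3248, nat_lit 0, nat_lit 0, nat_lit 0, nat_lit 0, nat_lit 0, nat_lit 0, nat_lit 0, nat_lit 0, nat_lit 0, nat_lit 0, nat_lit 250000, nat_lit 0, nat_lit 0, [(nat_lit 21, [(nat_lit 0, nat_lit 1000)])],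
 ⟨p093_k8, nat_lit 0, nat_lit 0, nat_lit 57, nat_lit 0, nat_lit 0, [nat_lit 1558400000, nat_lit 2146000001, nat_lit 2146000000], [], [nat_lit 20093604439, nat_lit 21510584257, nat_lit 20665700656, nat_lit 21979901280, nat_lit 21834962551, nat_lit 23179406050, nat_lit 22295064026, nat_lit 23574795255], nat_lit 0, nat_lit 0, nat_lit 0, nat_lit 0, nat_lit 0, nat_lit 0, [], [nat_lit 6, nat_lit 40, nat_lit 40, nat_lit 80, nat_lit 3, nat_lit 249, nat_lit 40, nat_lit 8]⟩, C1.Rw.none,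
 ⟨nat_lit 3162, nat_lit 3873, ⟨.ofNat (nat_lit 464406), .ofNat (nat_lit 522504), .ofNat (nat_lit 507934), .ofNat (nat_lit 566033), .ofNat (nat_lit 472632), .ofNat (nat_lit 527519), .ofNat (nat_lit 516884), .ofNat (nat_lit 571771)⟩, ⟨.ofNat (nat_lit 433760), .ofNat (nat_lit 491830), .ofNat (nat_lit 477347), .ofNat (nat_lit 535416), .ofNat (nat_lit 428022), .ofNat (nat_lit 482881), .ofNat (nat_lit 472332), .ofNat (nat_lit 527190)⟩⟩, [⟨nat_lit 0, nat_lit 88, nat_lit 67, nat_lit 100, nat_lit 366094581⟩, ⟨nat_lit 16, nat_lit 77, nat_lit 100, nat_lit 99, nat_lit 288430786⟩]⟩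
noncomputable def p093_l17 : Lf2 := ⟨nat_lit 0, nat_lit 10, [nat_lit 0, nat_lit 5, nat_lit 5, nat_lit 20], true, nat_lit 240, nat_lit 276, nat_lit 0, nat_lit 336, ⟨nat_lit 0, nat_lit 1000, nat_lit 0, nat_lit 7, nat_lit 240, nat_lit 1000, nat_lit 192, nat_lit 0, nat_lit 0, nat_lit 0, nat_lit 0, nat_lit 0, nat_lit 40054364, nat_lit 15806693, nat_lit 11138943, nat_lit 5104681, false, false⟩,
 nat_lit 0, nat_lit 0, nat_lit 0, nat_lit 0, nat_lit 3215, nat_lit 0, nat_lit 0, nat_lit 0, nat_lit 0, nat_lit 0, nat_lit 0, nat_lit 0, nat_lit 0, nat_lit 0, nat_lit 0, nat_lit 250000, nat_lit 0, nat_lit 0, [(nat_lit 21, [(nat_lit 0, nat_lit 1000)])],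
 ⟨p093_k8, nat_lit 0, nat_lit 0, nat_lit 49, nat_lit 0, nat_lit 0, [nat_lit 1558400000, nat_lit 2146000001, nat_lit 2146000000], [], [nat_lit 20681089480, nat_lit 21985134380, nat_lit 22902526340, nat_lit 24042715440, nat_lit 22304865449, nat_lit 23550630253, nat_lit 24319817865, nat_lit 25431323569], nat_lit 0, nat_lit 0, nat_lit 0, nat_lit 0, nat_lit 0, nat_lit 0, [], [nat_lit 6, nat_lit 40, nat_lit 40, nat_lit 80, nat_lit 3, nat_lit 272, nat_lit 60, nat_lit 9]⟩, C1.Rw.none,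
 ⟨nat_lit 3162, nat_lit 3873, ⟨.ofNat (nat_lit 522504), .ofNat (nat_lit 651611), .ofNat (nat_lit 544269), .ofNat (nat_lit 673376), .ofNat (nat_lit 527519), .ofNat (nat_lit 649490), .ofNat (nat_lit 549645), .ofNat (nat_lit 671616)⟩, ⟨.ofNat (nat_lit 433760), .ofNat (nat_lit 491830), .ofNat (nat_lit 477347), .ofNat (nat_lit 535416), .ofNat (nat_lit 428022), .ofNat (nat_lit 482881), .ofNat (nat_lit 472332), .ofNat (nat_lit 527190)⟩⟩, [⟨nat_lit 16, nat_lit 77, nat_lit 100, nat_lit 99, nat_lit 254949846⟩]⟩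
noncomputable def p093_l18 : Lf2 := ⟨nat_lit 0, nat_lit 10, [nat_lit 0, nat_lit 5, nat_lit 5, nat_lit 20], false, nat_lit 240, nat_lit 276, nat_lit 0, nat_lit 320, ⟨nat_lit 89, nat_lit 911, nat_lit 0, nat_lit 7, nat_lit 248, nat_lit 911, nat_lit 192, nat_lit 0, nat_lit 0, nat_lit 0, nat_lit 0, nat_lit 0, nat_lit 39407430, nat_lit 16574287, nat_lit 11018283, nat_lit 5148191, false, false⟩,
 nat_lit 0, nat_lit 0, nat_lit 885, nat_lit 0, nat_lit 3265, nat_lit 612, nat_lit 0, nat_lit 0, nat_lit 0, nat_lit 6, nat_lit 0, nat_lit 0, nat_lit 0, nat_lit 0, nat_lit 0, nat_lit 227750, nat_lit 0, nat_lit 0, [(nat_lit 21, [(nat_lit 0, nat_lit 911)])],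
 ⟨p093_k8, nat_lit 0, nat_lit 0, nat_lit 49, nat_lit 0, nat_lit 0, [nat_lit 1600550400, nat_lit 2372238001, nat_lit 2511256000], [], [nat_lit 20699923480, nat_lit 22013351380, nat_lit 22923720540, nat_lit 24071676240, nat_lit 22332165209, nat_lit 23587243893, nat_lit 24347334745, nat_lit 25466039329], nat_lit 0, nat_lit 0, nat_lit 0, nat_lit 0, nat_lit 0, nat_lit 0, [], [nat_lit 6, nat_lit 40, nat_lit 40, nat_lit 80, nat_lit 3, nat_lit 272, nat_lit 60, nat_lit 9]⟩, ⟨p093_k5, nat_lit 0, nat_lit 0, nat_lit 830, nat_lit 0, nat_lit 1527098, [nat_lit 292098000, nat_lit 556250000, nat_lit 709152000], [], [nat_lit 3117032064, nat_lit 3156888798, nat_lit 3152961192, nat_lit 3186367462, nat_lit 2977817588, nat_lit 2998181550, nat_lit 3244699470, nat_lit 2979822282], nat_lit 1271250, nat_lit 1271250, nat_lit 1100001, nat_lit 1785000, nat_lit 0, nat_lit 2260000, [nat_lit 780000, nat_lit 1435000, nat_lit 1271250], [nat_lit 18,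 nat_lit 40, nat_lit 40, nat_lit 80, nat_lit 2, nat_lit 373, nat_lit 150, nat_lit 12]⟩,
 ⟨nat_lit 3162, nat_lit 3873, ⟨.ofNat (nat_lit 544269), .ofNat (nat_lit 673376), .ofNat (nat_lit 566033), .ofNat (nat_lit 695141), .ofNat (nat_lit 549645), .ofNat (nat_lit 671616), .ofNat (nat_lit 571771), .ofNat (nat_lit 693742)⟩, ⟨.ofNat (nat_lit 433760), .ofNat (nat_lit 491830), .ofNat (nat_lit 477347), .ofNat (nat_lit 535416), .ofNat (nat_lit 428022), .ofNat (nat_lit 482881), .ofNat (nat_lit 472332), .ofNat (nat_lit 527190)⟩⟩, [⟨nat_lit 16, nat_lit 77, nat_lit 100, nat_lit 99, nat_lit 284950751⟩, ⟨nat_lit 7, nat_lit 100, nat_lit 93, nat_lit 97, nat_lit 14780114⟩]⟩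
noncomputable def b_V_800_700_20_4 : St := ⟨true, nat_lit 0, nat_lit 1, nat_lit 1, nat_lit 120, nat_lit 320, nat_lit 360, nat_lit 280, nat_lit 320, nat_lit 100, nat_lit 240, nat_lit 80, nat_lit 120, nat_lit 160, nat_lit 300, nat_lit 0, nat_lit 336, nat_lit 0, nat_lit 40, nat_lit 0, nat_lit 0, nat_lit 0, nat_lit 0⟩
theorem d_V_800_700_20_4 (h : EB TB.env) : Dead b_V_800_700_20_4 := chkB_sound0 h (T :=
(.spl (nat_lit 4) (nat_lit 240)
(.leaf p093_l0)
(.spl (nat_lit 2) (nat_lit 120)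
(.spl (nat_lit 4) (nat_lit 280)
(.leaf p093_l1)
(.spl (nat_lit 0) (nat_lit 340)
(.spl (nat_lit 0) (nat_lit 330)
(.spl (nat_lit 3) (nat_lit 100)
(.emL (nat_lit 16) (nat_lit 87) (nat_lit 100) (nat_lit 94))
(.spl (nat_lit 1) (nat_lit 300)
(.spl (nat_lit 0) (nat_lit 325)
(.leaf p093_l2)
(.trZ (nat_lit 0) (nat_lit 100) (nat_lit 85) (nat_lit 97) (nat_lit 104) (.trX (nat_lit 16) (nat_lit 85) (nat_lit 97) (nat_lit 100) (nat_lit 296) (.leaf p093_l3))))
(.emL (nat_lit 0) (nat_lit 94) (nat_lit 87) (nat_lit 100))))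
(.trZ (nat_lit 0) (nat_lit 100) (nat_lit 83) (nat_lit 98) (nat_lit 112) (.trX (nat_lit 16) (nat_lit 83) (nat_lit 98) (nat_lit 100) (nat_lit 288) (.leaf p093_l4))))
(.emL (nat_lit 0) (nat_lit 99) (nat_lit 77) (nat_lit 100))))
(.spl (nat_lit 0) (nat_lit 340)
(.spl (nat_lit 1) (nat_lit 300)
(.spl (nat_lit 1) (nat_lit 290)
(.leaf p093_l5)
(.trX (nat_lit 19) (nat_lit 97) (nat_lit 84) (nat_lit 100) (nat_lit 328) (.spl (nat_lit 2) (nat_lit 160)
(.spl (nat_lit 4) (nat_lit 280)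
(.leaf p093_l6)
(.leaf p093_l7))
(.leaf p093_l8))))
(.trX (nat_lit 19) (nat_lit 94) (nat_lit 88) (nat_lit 100) (nat_lit 320) (.spl (nat_lit 5) (nat_lit 160)
(.leaf p093_l9)
(.spl (nat_lit 2) (nat_lit 160)
(.spl (nat_lit 1) (nat_lit 310)
(.spl (nat_lit 0) (nat_lit 330)
(.leaf p093_l10)
(.trZ (nat_lit 0) (nat_lit 92) (nat_lit 81) (nat_lit 100) (nat_lit 132) (.trX (nat_lit 16) (nat_lit 83) (nat_lit 98) (nat_lit 100) (nat_lit 288) (.leaf p093_l11))))
(.trZ (nat_lit 0) (nat_lit 89) (nat_lit 85) (nat_lit 100) (nat_lit 132) (.trX (nat_lit 19) (nat_lit 91) (nat_lit 91) (nat_lit 100) (nat_lit 312) (.spl (nat_lit 1) (nat_lit 315)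
(.leaf p093_l12)
(.trZ (nat_lit 0) (nat_lit 86) (nat_lit 84) (nat_lit 100) (nat_lit 136) (.trX (nat_lit 19) (nat_lit 89) (nat_lit 93) (nat_lit 100) (nat_lit 304) (.leaf p093_l13)))))))
(.spl (nat_lit 1) (nat_lit 310)
(.leaf p093_l14)
(.trX (nat_lit 19) (nat_lit 91) (nat_lit 91) (nat_lit 100) (nat_lit 312) (.leaf p093_l15)))))))
(.trZ (nat_lit 0) (nat_lit 99) (nat_lit 77) (nat_lit 100) (nat_lit 124) (.trX (nat_lit 16) (nat_lit 77) (nat_lit 100) (nat_lit 99) (nat_lit 276) (.spl (nat_lit 2) (nat_lit 160)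
(.leaf p093_l16)
(.spl (nat_lit 1) (nat_lit 300)
(.leaf p093_l17)
(.trX (nat_lit 19) (nat_lit 94) (nat_lit 88) (nat_lit 100) (nat_lit 320) (.leaf p093_l18)))))))))) (by decide +kernel)
noncomputable def p093_l19 : Lf2 := ⟨nat_lit 0, nat_lit 10, [nat_lit 0, nat_lit 5, nat_lit 5, nat_lit 20], false, nat_lit 160, nat_lit 300, nat_lit 0, nat_lit 336, ⟨nat_lit 73, nat_lit 927, nat_lit 0, nat_lit 7, nat_lit 278, nat_lit 927, nat_lit 176, nat_lit 0, nat_lit 0, nat_lit 0, nat_lit 0, nat_lit 0, nat_lit 38157332, nat_lit 19507509, nat_lit 9335159, nat_lit 5136736, true, false⟩,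
 nat_lit 0, nat_lit 0, nat_lit 962, nat_lit 0, nat_lit 3211, nat_lit 612, nat_lit 0, nat_lit 0, nat_lit 0, nat_lit 44, nat_lit 0, nat_lit 0, nat_lit 0, nat_lit 0, nat_lit 0, nat_lit 231750, nat_lit 0, nat_lit 0, [(nat_lit 18, [(nat_lit 0, nat_lit 927)]), (nat_lit 21, [(nat_lit 0, nat_lit 927)])],
 ⟨p093_k0, nat_lit 0, nat_lit 0, nat_lit 54, nat_lit 0, nat_lit 0, [nat_lit 1592972801, nat_lit 2351960000, nat_lit 2831224000], [], [nat_lit 19414233333, nat_lit 22020821853, nat_lit 21220209689, nat_lit 23615324949, nat_lit 24296759799, nat_lit 26353978128, nat_lit 25659729680, nat_lit 27603883460], nat_lit 0, nat_lit 0, nat_lit 0, nat_lit 0, nat_lit 0, nat_lit 0, [], [nat_lit 6, nat_lit 40, nat_lit 40, nat_lit 80, nat_lit 3, nat_lit 289, nat_lit 75, nat_lit 9]⟩, ⟨p093_k1, nat_lit 0, nat_lit 0, nat_lit 892, nat_lit 0, nat_lit 1563961, [nat_lit 239586000, nat_lit 456250000, nat_lit 718466000], [], [nat_lit 2520198116, nat_lit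 2538719048, nat_lit 2538011396, nat_lit 2559249236, nat_lit 2205413331, nat_lit 2213043850, nat_lit 2204120384, nat_lit 2209643429], nat_lit 1271250, nat_lit 1271250, nat_lit 1271250, nat_lit 1271250, nat_lit 0, nat_lit 2373000, [nat_lit 780000, nat_lit 1435000, nat_lit 1271250], [nat_lit 8, nat_lit 40, nat_lit 40, nat_lit 80, nat_lit 1, nat_lit 401, nat_lit 175, nat_lit 11]⟩,
 ⟨nat_lit 3162, nat_lit 4473, ⟨.ofNat (nat_lit 653959), .ofNat (nat_lit 722015), .ofNat (nat_lit 675435), .ofNat (nat_lit 743491), .ofNat (nat_lit 649288), .ofNat (nat_lit 710319), .ofNat (nat_lit 671352), .ofNat (nat_lit 732383)⟩, ⟨.ofNat (nat_lit 302621), .ofNat (nat_lit 540545), .ofNat (nat_lit 345754), .ofNat (nat_lit 583678), .ofNat (nat_lit 306116), .ofNat (nat_lit 519453), .ofNat (nat_lit 350426), .ofNat (nat_lit 563762)⟩⟩, [⟨nat_lit 16, nat_lit 87, nat_lit 95, nat_lit 100, nat_lit 183543021⟩, ⟨nat_lit 7, nat_lit 94, nat_lit 100, nat_lit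 97, nat_lit 8806066⟩]⟩
noncomputable def p093_l20 : Lf2 := ⟨nat_lit 0, nat_lit 10, [nat_lit 0, nat_lit 5, nat_lit 5, nat_lit 20], false, nat_lit 160, nat_lit 300, nat_lit 4, nat_lit 336, ⟨nat_lit 85, nat_lit 915, nat_lit 0, nat_lit 7, nat_lit 304, nat_lit 915, nat_lit 177, nat_lit 0, nat_lit 0, nat_lit 0, nat_lit 0, nat_lit 0, nat_lit 36161020, nat_lit 21753994, nat_lit 9084986, nat_lit 5213109, true, true⟩,
 nat_lit 0, nat_lit 0, nat_lit 1064, nat_lit 0, nat_lit 3114, nat_lit 677, nat_lit 0, nat_lit 0, nat_lit 0, nat_lit 51, nat_lit 0, nat_lit 0, nat_lit 0, nat_lit 0, nat_lit 0, nat_lit 228750, nat_lit 0, nat_lit 0, [(nat_lit 18, [(nat_lit 0, nat_lit 915)])],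
 ⟨p093_k0, nat_lit 0, nat_lit 0, nat_lit 52, nat_lit 0, nat_lit 0, [nat_lit 1575232000, nat_lit 2382200000, nat_lit 2875480000], [], [nat_lit 21247941712, nat_lit 21838750522, nat_lit 23238613112, nat_lit 23777011452, nat_lit 25665153546, nat_lit 26124017219, nat_lit 27199780216, nat_lit 27639090182], nat_lit 0, nat_lit 0, nat_lit 0, nat_lit 0, nat_lit 0, nat_lit 0, [], [nat_lit 6, nat_lit 40, nat_lit 40, nat_lit 80, nat_lit 3, nat_lit 289, nat_lit 75, nat_lit 9]⟩, ⟨p093_k1, nat_lit 0, nat_lit 0, nat_lit 648, nat_lit 0, nat_lit 1065705, [nat_lit 278970000, nat_lit 531250000, nat_lit 836570000], [], [nat_lit 2917273204, nat_lit 2936852310, nat_lit 2995589627, nat_lit 3012559632, nat_lit 2626651972, nat_lit 2637676042, nat_lit 2670748252, nat_lit 2679905070], nat_lit 1271250, nat_lit 1271250, nat_lit 1271250, nat_lit 1271250, nat_lit 21650, nat_lit 2378850, [nat_lit 780000, nat_lit 1435000, nat_lit 1271250], [nat_lit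 8, nat_lit 40, nat_lit 40, nat_lit 80, nat_lit 1, nat_lit 317, nat_lit 100, nat_lit 9]⟩,
 ⟨nat_lit 4183, nat_lit 4473, ⟨.ofNat (nat_lit 722208), .ofNat (nat_lit 790187), .ofNat (nat_lit 732989), .ofNat (nat_lit 800968), .ofNat (nat_lit 719164), .ofNat (nat_lit 785420), .ofNat (nat_lit 729995), .ofNat (nat_lit 796251)⟩, ⟨.ofNat (nat_lit 302621), .ofNat (nat_lit 540545), .ofNat (nat_lit 345754), .ofNat (nat_lit 583678), .ofNat (nat_lit 303743), .ofNat (nat_lit 535637), .ofNat (nat_lit 347076), .ofNat (nat_lit 578971)⟩⟩, [⟨nat_lit 16, nat_lit 87, nat_lit 95, nat_lit 100, nat_lit 169763642⟩, ⟨nat_lit 19, nat_lit 100, nat_lit 80, nat_lit 100, nat_lit 11122423⟩]⟩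
noncomputable def p093_l21 : Lf2 := ⟨nat_lit 0, nat_lit 10, [nat_lit 0, nat_lit 5, nat_lit 5, nat_lit 20], false, nat_lit 160, nat_lit 288, nat_lit 4, nat_lit 336, ⟨nat_lit 77, nat_lit 923, nat_lit 0, nat_lit 7, nat_lit 302, nat_lit 923, nat_lit 172, nat_lit 0, nat_lit 0, nat_lit 0, nat_lit 0, nat_lit 0, nat_lit 36498775, nat_lit 21727977, nat_lit 8773248, nat_lit 5173451, true, true⟩,
 nat_lit 0, nat_lit 0, nat_lit 987, nat_lit 0, nat_lit 3105, nat_lit 627, nat_lit 0, nat_lit 0, nat_lit 0, nat_lit 45, nat_lit 0, nat_lit 0, nat_lit 0, nat_lit 0, nat_lit 0, nat_lit 230750, nat_lit 0, nat_lit 0, [(nat_lit 18, [(nat_lit 0, nat_lit 923)])],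
 ⟨p093_k3, nat_lit 0, nat_lit 0, nat_lit 53, nat_lit 0, nat_lit 0, [nat_lit 1571238401, nat_lit 2362040001, nat_lit 2845976000], [], [nat_lit 21838236566, nat_lit 22428305891, nat_lit 23774461291, nat_lit 24312226841, nat_lit 25679454682, nat_lit 26149627709, nat_lit 27215262195, nat_lit 27665921063], nat_lit 0, nat_lit 0, nat_lit 0, nat_lit 0, nat_lit 0, nat_lit 0, [], [nat_lit 6, nat_lit 40, nat_lit 40, nat_lit 80, nat_lit 3, nat_lit 289, nat_lit 75, nat_lit 9]⟩, ⟨p093_k1, nat_lit 0, nat_lit 0, nat_lit 722, nat_lit 0, nat_lit 1200600, [nat_lit 252714000, nat_lit 481250000, nat_lit 757834000], [], [nat_lit 2689171861, nat_lit 2701739030, nat_lit 2739440538, nat_lit 2750094733, nat_lit 2380013021, nat_lit 2386214917, nat_lit 2404820608, nat_lit 2426681145], nat_lit 1271250, nat_lit 1271250, nat_lit 1271250, nat_lit 1271250, nat_lit 21650, nat_lit 2378850, [nat_lit 780000, nat_lit 1435000, nat_lit 1271250], [nat_lit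 8, nat_lit 40, nat_lit 40, nat_lit 80, nat_lit 1, nat_lit 317, nat_lit 100, nat_lit 9]⟩,
 ⟨nat_lit 3872, nat_lit 4184, ⟨.ofNat (nat_lit 719164), .ofNat (nat_lit 785423), .ofNat (nat_lit 729995), .ofNat (nat_lit 796254), .ofNat (nat_lit 716202), .ofNat (nat_lit 780727), .ofNat (nat_lit 727096), .ofNat (nat_lit 791621)⟩, ⟨.ofNat (nat_lit 303743), .ofNat (nat_lit 515761), .ofNat (nat_lit 347076), .ofNat (nat_lit 559094), .ofNat (nat_lit 304717), .ofNat (nat_lit 511186), .ofNat (nat_lit 348304), .ofNat (nat_lit 554773)⟩⟩, [⟨nat_lit 16, nat_lit 83, nat_lit 98, nat_lit 100, nat_lit 173668480⟩, ⟨nat_lit 19, nat_lit 100, nat_lit 80, nat_lit 100, nat_lit 9557943⟩]⟩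
noncomputable def p093_l22 : Lf2 := ⟨nat_lit 0, nat_lit 10, [nat_lit 0, nat_lit 5, nat_lit 5, nat_lit 20], false, nat_lit 160, nat_lit 300, nat_lit 4, nat_lit 328, ⟨nat_lit 387, nat_lit 613, nat_lit 0, nat_lit 7, nat_lit 307, nat_lit 613, nat_lit 177, nat_lit 0, nat_lit 0, nat_lit 0, nat_lit 0, nat_lit 0, nat_lit 35919661, nat_lit 22070957, nat_lit 9009382, nat_lit 5216619, true, true⟩,
 nat_lit 0, nat_lit 0, nat_lit 3629, nat_lit 0, nat_lit 3246, nat_lit 2409, nat_lit 0, nat_lit 0, nat_lit 0, nat_lit 1158, nat_lit 0, nat_lit 0, nat_lit 0, nat_lit 0, nat_lit 0, nat_lit 153250, nat_lit 0, nat_lit 0, [(nat_lit 18, [(nat_lit 0, nat_lit 613)])],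
 ⟨p093_k9, nat_lit 0, nat_lit 0, nat_lit 40, nat_lit 0, nat_lit 0, [nat_lit 1725990400, nat_lit 3989256000], [], [nat_lit 21336819568, nat_lit 22540128748, nat_lit 23358920168, nat_lit 24454278688, nat_lit 25784388894, nat_lit 26716126588, nat_lit 27337384024, nat_lit 28191432210], nat_lit 0, nat_lit 0, nat_lit 0, nat_lit 0, nat_lit 0, nat_lit 0, [], [nat_lit 69, nat_lit 40, nat_lit 40, nat_lit 80, nat_lit 64, nat_lit 289, nat_lit 75, nat_lit 9]⟩, ⟨p093_k10, nat_lit 0, nat_lit 0, nat_lit 644, nat_lit 0, nat_lit 1204845, [nat_lit 1270134000, nat_lit 3083616000], [], [nat_lit 11687790539, nat_lit 11760011379, nat_lit 11968650144, nat_lit 12032847230, nat_lit 11043713134, nat_lit 11079541811, nat_lit 11409557602, nat_lit 11591651717], nat_lit 1271250, nat_lit 1271250, nat_lit 1271250, nat_lit 1271250, nat_lit 21650, nat_lit 2322050, [nat_lit 780000, nat_lit 1762500], [nat_lit 74, nat_lit 40, nat_lit 40, nat_lit 80,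 nat_lit 43, nat_lit 317, nat_lit 100, nat_lit 10]⟩,
 ⟨nat_lit 3872, nat_lit 4473, ⟨.ofNat (nat_lit 732941), .ofNat (nat_lit 800927), .ofNat (nat_lit 743716), .ofNat (nat_lit 811702), .ofNat (nat_lit 727049), .ofNat (nat_lit 791578), .ofNat (nat_lit 737937), .ofNat (nat_lit 802466)⟩, ⟨.ofNat (nat_lit 302621), .ofNat (nat_lit 540545), .ofNat (nat_lit 345754), .ofNat (nat_lit 583678), .ofNat (nat_lit 304717), .ofNat (nat_lit 530543), .ofNat (nat_lit 348304), .ofNat (nat_lit 574129)⟩⟩, [⟨nat_lit 4, nat_lit 100, nat_lit 81, nat_lit 92, nat_lit 291988911⟩, ⟨nat_lit 19, nat_lit 97, nat_lit 84, nat_lit 100, nat_lit 64326294⟩]⟩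
noncomputable def p093_l23 : Lf2 := ⟨nat_lit 0, nat_lit 10, [nat_lit 0, nat_lit 5, nat_lit 5, nat_lit 20], false, nat_lit 160, nat_lit 276, nat_lit 4, nat_lit 336, ⟨nat_lit 76, nat_lit 924, nat_lit 0, nat_lit 7, nat_lit 301, nat_lit 924, nat_lit 168, nat_lit 0, nat_lit 0, nat_lit 0, nat_lit 0, nat_lit 0, nat_lit 36829208, nat_lit 21698659, nat_lit 8472133, nat_lit 5133750, true, true⟩,
 nat_lit 0, nat_lit 0, nat_lit 964, nat_lit 0, nat_lit 3125, nat_lit 613, nat_lit 0, nat_lit 0, nat_lit 0, nat_lit 44, nat_lit 0, nat_lit 0, nat_lit 0, nat_lit 0, nat_lit 0, nat_lit 231000, nat_lit 0, nat_lit 0, [(nat_lit 21, [(nat_lit 0, nat_lit 924)])],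
 ⟨p093_k8, nat_lit 0, nat_lit 0, nat_lit 56, nat_lit 0, nat_lit 0, [nat_lit 1594393600, nat_lit 2339192000, nat_lit 2457904000], [], [nat_lit 22445371850, nat_lit 23037084475, nat_lit 24333580600, nat_lit 24872752350, nat_lit 25738313500, nat_lit 26221439863, nat_lit 27276841326, nat_lit 27739619169], nat_lit 0, nat_lit 0, nat_lit 0, nat_lit 0, nat_lit 0, nat_lit 0, [], [nat_lit 6, nat_lit 40, nat_lit 40, nat_lit 80, nat_lit 3, nat_lit 289, nat_lit 75, nat_lit 9]⟩, ⟨p093_k1, nat_lit 0, nat_lit 0, nat_lit 775, nat_lit 0, nat_lit 1342204, [nat_lit 249432000, nat_lit 475000000, nat_lit 747992000], [], [nat_lit 2686251565, nat_lit 2698669836, nat_lit 2735924649, nat_lit 2746469474, nat_lit 2384030086, nat_lit 2390211384, nat_lit 2408755279, nat_lit 2413569678], nat_lit 1271250, nat_lit 1271250, nat_lit 1271250, nat_lit 1271250, nat_lit 21650, nat_lit 2378850, [nat_lit 780000, nat_lit 1435000, nat_lit 1271250], [nat_lit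 8, nat_lit 40, nat_lit 40, nat_lit 80, nat_lit 1, nat_lit 317, nat_lit 100, nat_lit 9]⟩,
 ⟨nat_lit 3535, nat_lit 3873, ⟨.ofNat (nat_lit 716203), .ofNat (nat_lit 780730), .ofNat (nat_lit 727096), .ofNat (nat_lit 791624), .ofNat (nat_lit 713320), .ofNat (nat_lit 776087), .ofNat (nat_lit 724293), .ofNat (nat_lit 787061)⟩, ⟨.ofNat (nat_lit 304717), .ofNat (nat_lit 491830), .ofNat (nat_lit 348304), .ofNat (nat_lit 535416), .ofNat (nat_lit 305521), .ofNat (nat_lit 487529), .ofNat (nat_lit 349427), .ofNat (nat_lit 531435)⟩⟩, [⟨nat_lit 16, nat_lit 77, nat_lit 100, nat_lit 99, nat_lit 185016276⟩, ⟨nat_lit 19, nat_lit 100, nat_lit 80, nat_lit 100, nat_lit 9343683⟩]⟩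
noncomputable def p093_l24 : Lf2 := ⟨nat_lit 0, nat_lit 10, [nat_lit 0, nat_lit 5, nat_lit 5, nat_lit 20], false, nat_lit 160, nat_lit 276, nat_lit 4, nat_lit 328, ⟨nat_lit 227, nat_lit 773, nat_lit 0, nat_lit 7, nat_lit 305, nat_lit 773, nat_lit 168, nat_lit 0, nat_lit 0, nat_lit 0, nat_lit 0, nat_lit 0, nat_lit 36500512, nat_lit 22082162, nat_lit 8417326, nat_lit 5142536, true, true⟩,
 nat_lit 0, nat_lit 0, nat_lit 2183, nat_lit 0, nat_lit 3184, nat_lit 1449, nat_lit 0, nat_lit 0, nat_lit 0, nat_lit 564, nat_lit 0, nat_lit 0, nat_lit 0, nat_lit 0, nat_lit 0, nat_lit 193250, nat_lit 0, nat_lit 0, [(nat_lit 21, [(nat_lit 0, nat_lit 773)])],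
 ⟨p093_k11, nat_lit 0, nat_lit 0, nat_lit 40, nat_lit 0, nat_lit 0, [nat_lit 1665907201, nat_lit 3141891960], [], [nat_lit 22498922193, nat_lit 23095482553, nat_lit 24399779953, nat_lit 24943099993, nat_lit 25797980562, nat_lit 26284547669, nat_lit 27344732008, nat_lit 27790425932], nat_lit 0, nat_lit 0, nat_lit 0, nat_lit 0, nat_lit 0, nat_lit 0, [], [nat_lit 69, nat_lit 40, nat_lit 40, nat_lit 80, nat_lit 64, nat_lit 289, nat_lit 75, nat_lit 9]⟩, ⟨p093_k10, nat_lit 0, nat_lit 0, nat_lit 714, nat_lit 0, nat_lit 1334608, [nat_lit 745014000, nat_lit 1808736000], [], [nat_lit 7137387409, nat_lit 7179764377, nat_lit 7302094974, nat_lit 7339671636, nat_lit 6722793684, nat_lit 6743426585, nat_lit 6802168454, nat_lit 6827409061], nat_lit 1271250, nat_lit 1271250, nat_lit 1271250, nat_lit 1271250, nat_lit 21650, nat_lit 2322050, [nat_lit 780000, nat_lit 1762500], [nat_lit 74, nat_lit 40, nat_lit 40, nat_lit 80, nat_lit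 43, nat_lit 317, nat_lit 100, nat_lit 10]⟩,
 ⟨nat_lit 3535, nat_lit 3873, ⟨.ofNat (nat_lit 727096), .ofNat (nat_lit 791624), .ofNat (nat_lit 737990), .ofNat (nat_lit 802518), .ofNat (nat_lit 724293), .ofNat (nat_lit 787061), .ofNat (nat_lit 735266), .ofNat (nat_lit 798034)⟩, ⟨.ofNat (nat_lit 304717), .ofNat (nat_lit 491830), .ofNat (nat_lit 348304), .ofNat (nat_lit 535416), .ofNat (nat_lit 305521), .ofNat (nat_lit 487529), .ofNat (nat_lit 349427), .ofNat (nat_lit 531435)⟩⟩, [⟨nat_lit 16, nat_lit 77, nat_lit 100, nat_lit 99, nat_lit 228847523⟩, ⟨nat_lit 19, nat_lit 97, nat_lit 84, nat_lit 100, nat_lit 35859869⟩]⟩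
noncomputable def p093_l25 : Lf2 := ⟨nat_lit 0, nat_lit 10, [nat_lit 0, nat_lit 5, nat_lit 5, nat_lit 20], false, nat_lit 160, nat_lit 264, nat_lit 4, nat_lit 336, ⟨nat_lit 73, nat_lit 927, nat_lit 0, nat_lit 7, nat_lit 299, nat_lit 927, nat_lit 163, nat_lit 0, nat_lit 0, nat_lit 0, nat_lit 0, nat_lit 0, nat_lit 37153158, nat_lit 21666180, nat_lit 8180662, nat_lit 5093968, true, true⟩,
 nat_lit 0, nat_lit 0, nat_lit 938, nat_lit 0, nat_lit 3788, nat_lit 596, nat_lit 0, nat_lit 0, nat_lit 0, nat_lit 40, nat_lit 0, nat_lit 0, nat_lit 0, nat_lit 0, nat_lit 0, nat_lit 231750, nat_lit 0, nat_lit 0, [(nat_lit 21, [(nat_lit 0, nat_lit 927)])],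
 ⟨p093_k12, nat_lit 0, nat_lit 0, nat_lit 46, nat_lit 0, nat_lit 0, [nat_lit 1592972801, nat_lit 2162481200], [], [nat_lit 23866655748, nat_lit 24450802288, nat_lit 25655306176, nat_lit 26186651648, nat_lit 26409810082, nat_lit 26895912799, nat_lit 27892147258, nat_lit 28402340104], nat_lit 0, nat_lit 0, nat_lit 0, nat_lit 0, nat_lit 0, nat_lit 0, [], [nat_lit 24, nat_lit 40, nat_lit 40, nat_lit 80, nat_lit 33, nat_lit 203, nat_lit 0, nat_lit 7]⟩, ⟨p093_k1, nat_lit 0, nat_lit 0, nat_lit 852, nat_lit 0, nat_lit 1490624, [nat_lit 239586000, nat_lit 456250000, nat_lit 718466000], [], [nat_lit 2646395328, nat_lit 2654295134, nat_lit 2677994551, nat_lit 2684432823, nat_lit 2314784333, nat_lit 2317764460, nat_lit 2326704842, nat_lit 2328601363], nat_lit 1271250, nat_lit 1271250, nat_lit 1271250, nat_lit 1271250, nat_lit 21650, nat_lit 2378850, [nat_lit 780000, nat_lit 1435000, nat_lit 1271250], [nat_lit 8, nat_lit 40,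 nat_lit 40, nat_lit 80, nat_lit 1, nat_lit 332, nat_lit 100, nat_lit 9]⟩,
 ⟨nat_lit 3162, nat_lit 3536, ⟨.ofNat (nat_lit 713320), .ofNat (nat_lit 776092), .ofNat (nat_lit 724293), .ofNat (nat_lit 787064), .ofNat (nat_lit 710513), .ofNat (nat_lit 771477), .ofNat (nat_lit 721587), .ofNat (nat_lit 782550)⟩, ⟨.ofNat (nat_lit 305521), .ofNat (nat_lit 468701), .ofNat (nat_lit 349427), .ofNat (nat_lit 512606), .ofNat (nat_lit 306116), .ofNat (nat_lit 464594), .ofNat (nat_lit 350426), .ofNat (nat_lit 508904)⟩⟩, [⟨nat_lit 16, nat_lit 69, nat_lit 100, nat_lit 96, nat_lit 190418908⟩, ⟨nat_lit 19, nat_lit 100, nat_lit 80, nat_lit 100, nat_lit 8490703⟩]⟩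
noncomputable def p093_l26 : Lf2 := ⟨nat_lit 0, nat_lit 10, [nat_lit 0, nat_lit 5, nat_lit 5, nat_lit 20], false, nat_lit 160, nat_lit 264, nat_lit 4, nat_lit 328, ⟨nat_lit 96, nat_lit 904, nat_lit 0, nat_lit 7, nat_lit 303, nat_lit 904, nat_lit 163, nat_lit 0, nat_lit 0, nat_lit 0, nat_lit 0, nat_lit 0, nat_lit 36900947, nat_lit 21958191, nat_lit 8140862, nat_lit 5101040, true, true⟩,
 nat_lit 0, nat_lit 0, nat_lit 1055, nat_lit 0, nat_lit 3838, nat_lit 700, nat_lit 0, nat_lit 0, nat_lit 0, nat_lit 85, nat_lit 0, nat_lit 0, nat_lit 0, nat_lit 0, nat_lit 0, nat_lit 226000, nat_lit 0, nat_lit 0, [(nat_lit 21, [(nat_lit 0, nat_lit 904)])],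
 ⟨p093_k12, nat_lit 0, nat_lit 0, nat_lit 46, nat_lit 0, nat_lit 0, [nat_lit 1603865600, nat_lit 2225142400], [], [nat_lit 23901730498, nat_lit 24489412288, nat_lit 25698907476, nat_lit 26233272648, nat_lit 26445393527, nat_lit 26934098339, nat_lit 27933413633, nat_lit 28446283004], nat_lit 0, nat_lit 0, nat_lit 0, nat_lit 0, nat_lit 0, nat_lit 0, [], [nat_lit 24, nat_lit 40, nat_lit 40, nat_lit 80, nat_lit 33, nat_lit 203, nat_lit 0, nat_lit 7]⟩, ⟨p093_k4, nat_lit 0, nat_lit 0, nat_lit 757, nat_lit 0, nat_lit 1435395, [nat_lit 315072000, nat_lit 600000000, nat_lit 764928000], [], [nat_lit 3095971546, nat_lit 3109479136, nat_lit 3200859182, nat_lit 3212780229, nat_lit 2883344143, nat_lit 2889989879, nat_lit 2934514269, nat_lit 2940162127], nat_lit 1271250, nat_lit 1271250, nat_lit 1271250, nat_lit 1271250, nat_lit 21650, nat_lit 2322050, [nat_lit 780000, nat_lit 1435000, nat_lit 1271250], [nat_lit 18, nat_lit 40,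 nat_lit 40, nat_lit 80, nat_lit 2, nat_lit 317, nat_lit 100, nat_lit 10]⟩,
 ⟨nat_lit 3162, nat_lit 3536, ⟨.ofNat (nat_lit 724293), .ofNat (nat_lit 787064), .ofNat (nat_lit 729779), .ofNat (nat_lit 792551), .ofNat (nat_lit 721587), .ofNat (nat_lit 782550), .ofNat (nat_lit 727124), .ofNat (nat_lit 788087)⟩, ⟨.ofNat (nat_lit 305521), .ofNat (nat_lit 468701), .ofNat (nat_lit 349427), .ofNat (nat_lit 512606), .ofNat (nat_lit 306116), .ofNat (nat_lit 464594), .ofNat (nat_lit 350426), .ofNat (nat_lit 508904)⟩⟩, [⟨nat_lit 16, nat_lit 69, nat_lit 100, nat_lit 96, nat_lit 198113295⟩, ⟨nat_lit 19, nat_lit 97, nat_lit 84, nat_lit 100, nat_lit 14264013⟩]⟩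
noncomputable def p093_l27 : Lf2 := ⟨nat_lit 0, nat_lit 10, [nat_lit 0, nat_lit 5, nat_lit 5, nat_lit 20], false, nat_lit 160, nat_lit 264, nat_lit 4, nat_lit 324, ⟨nat_lit 141, nat_lit 859, nat_lit 0, nat_lit 7, nat_lit 305, nat_lit 859, nat_lit 163, nat_lit 0, nat_lit 0, nat_lit 0, nat_lit 0, nat_lit 0, nat_lit 36733403, nat_lit 22152362, nat_lit 8114235, nat_lit 5105457, true, true⟩,
 nat_lit 0, nat_lit 0, nat_lit 1386, nat_lit 0, nat_lit 3604, nat_lit 939, nat_lit 98, nat_lit 0, nat_lit 0, nat_lit 126, nat_lit 0, nat_lit 0, nat_lit 0, nat_lit 0, nat_lit 0, nat_lit 214750, nat_lit 0, nat_lit 0, [(nat_lit 21, [(nat_lit 0, nat_lit 859)])],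
 ⟨p093_k12, nat_lit 0, nat_lit 0, nat_lit 46, nat_lit 0, nat_lit 0, [nat_lit 1625177600, nat_lit 2347740400], [], [nat_lit 23933764722, nat_lit 24473121010, nat_lit 25605321194, nat_lit 26098066802, nat_lit 26396155228, nat_lit 26847896926, nat_lit 27790863268, nat_lit 28240630232], nat_lit 0, nat_lit 0, nat_lit 0, nat_lit 0, nat_lit 0, nat_lit 0, [], [nat_lit 24, nat_lit 40, nat_lit 40, nat_lit 80, nat_lit 33, nat_lit 203, nat_lit 0, nat_lit 7]⟩, ⟨p093_k13, nat_lit 0, nat_lit 0, nat_lit 753, nat_lit 0, nat_lit 1426986, [nat_lit 462762000, nat_lit 881250000, nat_lit 1123488000], [], [nat_lit 4401330392, nat_lit 4416426728, nat_lit 4517141102, nat_lit 4530584113, nat_lit 4186975327, nat_lit 4194611047, nat_lit 4244808002, nat_lit 4251359361], nat_lit 1271250, nat_lit 1271250, nat_lit 1271250, nat_lit 1271250, nat_lit 21650, nat_lit 2293650, [nat_lit 780000, nat_lit 1435000, nat_lit 1271250], [nat_lit 18, nat_lit 40,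 nat_lit 40, nat_lit 80, nat_lit 2, nat_lit 317, nat_lit 100, nat_lit 10]⟩,
 ⟨nat_lit 3162, nat_lit 3536, ⟨.ofNat (nat_lit 729779), .ofNat (nat_lit 792551), .ofNat (nat_lit 735265), .ofNat (nat_lit 798037), .ofNat (nat_lit 727124), .ofNat (nat_lit 788087), .ofNat (nat_lit 732660), .ofNat (nat_lit 793624)⟩, ⟨.ofNat (nat_lit 305521), .ofNat (nat_lit 468701), .ofNat (nat_lit 349427), .ofNat (nat_lit 512606), .ofNat (nat_lit 306116), .ofNat (nat_lit 464594), .ofNat (nat_lit 350426), .ofNat (nat_lit 508904)⟩⟩, [⟨nat_lit 16, nat_lit 69, nat_lit 100, nat_lit 96, nat_lit 208996300⟩, ⟨nat_lit 19, nat_lit 96, nat_lit 86, nat_lit 100, nat_lit 22941986⟩]⟩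
noncomputable def p093_l28 : Lf2 := ⟨nat_lit 0, nat_lit 10, [nat_lit 0, nat_lit 5, nat_lit 5, nat_lit 20], false, nat_lit 160, nat_lit 240, nat_lit 0, nat_lit 320, ⟨nat_lit 250, nat_lit 750, nat_lit 0, nat_lit 7, nat_lit 298, nat_lit 750, nat_lit 157, nat_lit 0, nat_lit 0, nat_lit 0, nat_lit 0, nat_lit 0, nat_lit 37539824, nat_lit 21736150, nat_lit 7724026, nat_lit 5034547, true, false⟩,
 nat_lit 0, nat_lit 0, nat_lit 2172, nat_lit 0, nat_lit 3129, nat_lit 1503, nat_lit 0, nat_lit 0, nat_lit 0, nat_lit 417, nat_lit 0, nat_lit 0, nat_lit 0, nat_lit 0, nat_lit 0, nat_lit 300000, nat_lit 0, nat_lit 0, [(nat_lit 18, [(nat_lit 1, nat_lit 750)])],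
 ⟨p093_k0, nat_lit 0, nat_lit 0, nat_lit 51, nat_lit 0, nat_lit 0, [nat_lit 1556600001, nat_lit 2647000000, nat_lit 3033100000], [], [nat_lit 19431487549, nat_lit 20719393689, nat_lit 23216520733, nat_lit 24295426713, nat_lit 21812165253, nat_lit 22936771005, nat_lit 25112626413, nat_lit 26062141037], nat_lit 0, nat_lit 0, nat_lit 0, nat_lit 0, nat_lit 0, nat_lit 0, [], [nat_lit 6, nat_lit 40, nat_lit 40, nat_lit 80, nat_lit 3, nat_lit 272, nat_lit 60, nat_lit 9]⟩, ⟨p093_k5, nat_lit 0, nat_lit 0, nat_lit 664, nat_lit 0, nat_lit 1210937, [nat_lit 820500000, nat_lit 1562500000, nat_lit 1992000000], [], [nat_lit 6965951103, nat_lit 7032667230, nat_lit 7414338766, nat_lit 7477203552, nat_lit 7047378512, nat_lit 7105583814, nat_lit 7409146856, nat_lit 7456569870], nat_lit 1271250, nat_lit 1271250, nat_lit 1271250, nat_lit 1271250, nat_lit 0, nat_lit 2260000, [nat_lit 780000, nat_lit 1435000, nat_lit 1271250], [nat_lit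 18, nat_lit 40, nat_lit 40, nat_lit 80, nat_lit 2, nat_lit 317, nat_lit 100, nat_lit 10]⟩,
 ⟨nat_lit 3872, nat_lit 4473, ⟨.ofNat (nat_lit 675730), .ofNat (nat_lit 811702), .ofNat (nat_lit 686505), .ofNat (nat_lit 822476), .ofNat (nat_lit 673407), .ofNat (nat_lit 802466), .ofNat (nat_lit 684295), .ofNat (nat_lit 813354)⟩, ⟨.ofNat (nat_lit 302621), .ofNat (nat_lit 438578), .ofNat (nat_lit 345754), .ofNat (nat_lit 481711), .ofNat (nat_lit 304717), .ofNat (nat_lit 433760), .ofNat (nat_lit 348304), .ofNat (nat_lit 477347)⟩⟩, [⟨nat_lit 16, nat_lit 81, nat_lit 100, nat_lit 92, nat_lit 5522951⟩, ⟨nat_lit 7, nat_lit 100, nat_lit 97, nat_lit 98, nat_lit 48410487⟩]⟩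
noncomputable def p093_l29 : Lf2 := ⟨nat_lit 0, nat_lit 10, [nat_lit 0, nat_lit 5, nat_lit 5, nat_lit 20], false, nat_lit 160, nat_lit 240, nat_lit 0, nat_lit 320, ⟨nat_lit 162, nat_lit 838, nat_lit 0, nat_lit 7, nat_lit 296, nat_lit 838, nat_lit 156, nat_lit 0, nat_lit 0, nat_lit 0, nat_lit 0, nat_lit 0, nat_lit 37739629, nat_lit 21552600, nat_lit 7707771, nat_lit 5024148, true, false⟩,
 nat_lit 0, nat_lit 0, nat_lit 1512, nat_lit 0, nat_lit 3687, nat_lit 1046, nat_lit 0, nat_lit 0, nat_lit 0, nat_lit 153, nat_lit 0, nat_lit 0, nat_lit 0, nat_lit 0, nat_lit 0, nat_lit 335200, nat_lit 0, nat_lit 0, [(nat_lit 21, [(nat_lit 1, nat_lit 838)])],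
 ⟨p093_k8, nat_lit 0, nat_lit 0, nat_lit 60, nat_lit 0, nat_lit 0, [nat_lit 1464841600, nat_lit 2010422400, nat_lit 2262796000], [], [nat_lit 21613566706, nat_lit 22837764144, nat_lit 25016502696, nat_lit 26066994052, nat_lit 23618558076, nat_lit 24713125980, nat_lit 26601799310, nat_lit 27523154164], nat_lit 0, nat_lit 0, nat_lit 0, nat_lit 0, nat_lit 0, nat_lit 0, [], [nat_lit 6, nat_lit 40, nat_lit 40, nat_lit 80, nat_lit 3, nat_lit 272, nat_lit 60, nat_lit 9]⟩, ⟨p093_k5, nat_lit 0, nat_lit 0, nat_lit 773, nat_lit 0, nat_lit 1454438, [nat_lit 531684000, nat_lit 1012500000, nat_lit 1290816000], [], [nat_lit 4934032017, nat_lit 4972337505, nat_lit 5170345285, nat_lit 5201323599, nat_lit 4743380593, nat_lit 4763815185, nat_lit 4856626010, nat_lit 4879607274], nat_lit 1271250, nat_lit 1271250, nat_lit 1271250, nat_lit 1271250, nat_lit 0, nat_lit 2260000, [nat_lit 780000, nat_lit 1435000, nat_lit 1271250], [nat_lit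 18, nat_lit 40, nat_lit 40, nat_lit 80, nat_lit 2, nat_lit 317, nat_lit 100, nat_lit 10]⟩,
 ⟨nat_lit 3162, nat_lit 3873, ⟨.ofNat (nat_lit 673376), .ofNat (nat_lit 802484), .ofNat (nat_lit 684258), .ofNat (nat_lit 813366), .ofNat (nat_lit 671616), .ofNat (nat_lit 793588), .ofNat (nat_lit 682679), .ofNat (nat_lit 804650)⟩, ⟨.ofNat (nat_lit 304717), .ofNat (nat_lit 433760), .ofNat (nat_lit 348304), .ofNat (nat_lit 477347), .ofNat (nat_lit 306116), .ofNat (nat_lit 428022), .ofNat (nat_lit 350426), .ofNat (nat_lit 472332)⟩⟩, [⟨nat_lit 19, nat_lit 94, nat_lit 88, nat_lit 100, nat_lit 26530189⟩]⟩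
noncomputable def p093_l30 : Lf2 := ⟨nat_lit 0, nat_lit 10, [nat_lit 0, nat_lit 5, nat_lit 5, nat_lit 20], false, nat_lit 160, nat_lit 240, nat_lit 0, nat_lit 312, ⟨nat_lit 134, nat_lit 866, nat_lit 0, nat_lit 7, nat_lit 302, nat_lit 866, nat_lit 156, nat_lit 0, nat_lit 0, nat_lit 0, nat_lit 0, nat_lit 0, nat_lit 37307438, nat_lit 22029856, nat_lit 7662706, nat_lit 5038553, true, false⟩,
 nat_lit 0, nat_lit 0, nat_lit 1166, nat_lit 0, nat_lit 4084, nat_lit 840, nat_lit 0, nat_lit 0, nat_lit 0, nat_lit 123, nat_lit 0, nat_lit 0, nat_lit 0, nat_lit 0, nat_lit 0, nat_lit 216500, nat_lit 0, nat_lit 0, [(nat_lit 18, [(nat_lit 0, nat_lit 866)]), (nat_lit 21, [(nat_lit 0, nat_lit 866)])],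
 ⟨p093_k0, nat_lit 0, nat_lit 0, nat_lit 60, nat_lit 0, nat_lit 0, [nat_lit 1621862400, nat_lit 2505680000, nat_lit 3056192000], [], [nat_lit 20456954112, nat_lit 23097407008, nat_lit 24238004080, nat_lit 26434892464, nat_lit 22673840304, nat_lit 24966348560, nat_lit 25934678592, nat_lit 27854119328], nat_lit 0, nat_lit 0, nat_lit 0, nat_lit 0, nat_lit 0, nat_lit 0, [], [nat_lit 6, nat_lit 40, nat_lit 40, nat_lit 80, nat_lit 3, nat_lit 272, nat_lit 60, nat_lit 9]⟩, ⟨p093_k6, nat_lit 0, nat_lit 0, nat_lit 767, nat_lit 0, nat_lit 1441751, [nat_lit 439788000, nat_lit 837500000, nat_lit 1067712000], [], [nat_lit 3955392591, nat_lit 3991776389, nat_lit 4179142599, nat_lit 4208972181, nat_lit 3887179126, nat_lit 3907935333, nat_lit 4004925673, nat_lit 4034401879], nat_lit 1271250, nat_lit 1271250, nat_lit 1271250, nat_lit 1271250, nat_lit 0, nat_lit 2203500, [nat_lit 780000, nat_lit 1435000, nat_lit 1271250], [nat_lit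 18, nat_lit 40, nat_lit 40, nat_lit 80, nat_lit 2, nat_lit 317, nat_lit 100, nat_lit 10]⟩,
 ⟨nat_lit 3162, nat_lit 4473, ⟨.ofNat (nat_lit 686173), .ofNat (nat_lit 822284), .ofNat (nat_lit 696911), .ofNat (nat_lit 833022), .ofNat (nat_lit 682385), .ofNat (nat_lit 804446), .ofNat (nat_lit 693416), .ofNat (nat_lit 815478)⟩, ⟨.ofNat (nat_lit 302621), .ofNat (nat_lit 438578), .ofNat (nat_lit 345754), .ofNat (nat_lit 481711), .ofNat (nat_lit 306116), .ofNat (nat_lit 428022), .ofNat (nat_lit 350426), .ofNat (nat_lit 472332)⟩⟩, [⟨nat_lit 19, nat_lit 91, nat_lit 91, nat_lit 100, nat_lit 23821110⟩]⟩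
noncomputable def p093_l31 : Lf2 := ⟨nat_lit 0, nat_lit 10, [nat_lit 0, nat_lit 5, nat_lit 5, nat_lit 20], false, nat_lit 240, nat_lit 300, nat_lit 16, nat_lit 320, ⟨nat_lit 427, nat_lit 573, nat_lit 0, nat_lit 7, nat_lit 298, nat_lit 573, nat_lit 203, nat_lit 0, nat_lit 0, nat_lit 0, nat_lit 0, nat_lit 0, nat_lit 35256553, nat_lit 20678935, nat_lit 11064512, nat_lit 5387670, true, false⟩,
 nat_lit 0, nat_lit 0, nat_lit 3712, nat_lit 0, nat_lit 3269, nat_lit 2569, nat_lit 0, nat_lit 0, nat_lit 0, nat_lit 834, nat_lit 0, nat_lit 0, nat_lit 0, nat_lit 0, nat_lit 0, nat_lit 143250, nat_lit 0, nat_lit 0, [(nat_lit 18, [(nat_lit 0, nat_lit 573)])],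
 ⟨p093_k9, nat_lit 0, nat_lit 0, nat_lit 40, nat_lit 0, nat_lit 0, [nat_lit 1745958400, nat_lit 4136776000], [], [nat_lit 21921609972, nat_lit 23067452044, nat_lit 25266876732, nat_lit 26232163196, nat_lit 24430560042, nat_lit 25440985408, nat_lit 27355059936, nat_lit 28211164115], nat_lit 0, nat_lit 0, nat_lit 0, nat_lit 0, nat_lit 0, nat_lit 0, [], [nat_lit 69, nat_lit 40, nat_lit 40, nat_lit 80, nat_lit 64, nat_lit 203, nat_lit 0, nat_lit 6]⟩, ⟨p093_k14, nat_lit 0, nat_lit 0, nat_lit 643, nat_lit 0, nat_lit 1210937, [nat_lit 1401414000, nat_lit 3402336000], [], [nat_lit 11580458251, nat_lit 11691510619, nat_lit 12423660817, nat_lit 12535460178, nat_lit 12025954472, nat_lit 12125381198, nat_lit 12643844388, nat_lit 12724844468], nat_lit 1271250, nat_lit 1271250, nat_lit 1271250, nat_lit 1271250, nat_lit 88400, nat_lit 2281000, [nat_lit 780000, nat_lit 1762500], [nat_lit 74, nat_lit 40, nat_lit 40, nat_lit 80, nat_lit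 43, nat_lit 317, nat_lit 100, nat_lit 10]⟩,
 ⟨nat_lit 3872, nat_lit 4473, ⟨.ofNat (nat_lit 675730), .ofNat (nat_lit 811702), .ofNat (nat_lit 686505), .ofNat (nat_lit 822476), .ofNat (nat_lit 673407), .ofNat (nat_lit 802466), .ofNat (nat_lit 684295), .ofNat (nat_lit 813354)⟩, ⟨.ofNat (nat_lit 438578), .ofNat (nat_lit 540545), .ofNat (nat_lit 481711), .ofNat (nat_lit 583678), .ofNat (nat_lit 433760), .ofNat (nat_lit 530543), .ofNat (nat_lit 477347), .ofNat (nat_lit 574129)⟩⟩, [⟨nat_lit 4, nat_lit 100, nat_lit 81, nat_lit 92, nat_lit 361597916⟩, ⟨nat_lit 19, nat_lit 94, nat_lit 88, nat_lit 100, nat_lit 89310175⟩]⟩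
noncomputable def p093_l32 : Lf2 := ⟨nat_lit 0, nat_lit 10, [nat_lit 0, nat_lit 5, nat_lit 5, nat_lit 20], false, nat_lit 240, nat_lit 300, nat_lit 16, nat_lit 312, ⟨nat_lit 390, nat_lit 610, nat_lit 0, nat_lit 7, nat_lit 303, nat_lit 610, nat_lit 203, nat_lit 0, nat_lit 0, nat_lit 0, nat_lit 0, nat_lit 0, nat_lit 34961842, nat_lit 21044223, nat_lit 10993935, nat_lit 5396091, true, false⟩,
 nat_lit 0, nat_lit 0, nat_lit 3251, nat_lit 0, nat_lit 3248, nat_lit 2343, nat_lit 0, nat_lit 0, nat_lit 0, nat_lit 505, nat_lit 0, nat_lit 0, nat_lit 0, nat_lit 0, nat_lit 0, nat_lit 152500, nat_lit 0, nat_lit 0, [(nat_lit 18, [(nat_lit 0, nat_lit 610)])],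
 ⟨p093_k9, nat_lit 0, nat_lit 0, nat_lit 40, nat_lit 0, nat_lit 0, [nat_lit 1727488000, nat_lit 4000320000], [], [nat_lit 21915126624, nat_lit 23057783248, nat_lit 25253672544, nat_lit 26216593232, nat_lit 24419036064, nat_lit 25426890736, nat_lit 27338682312, nat_lit 28192909280], nat_lit 0, nat_lit 0, nat_lit 0, nat_lit 0, nat_lit 0, nat_lit 0, [], [nat_lit 69, nat_lit 40, nat_lit 40, nat_lit 80, nat_lit 64, nat_lit 203, nat_lit 0, nat_lit 6]⟩, ⟨p093_k15, nat_lit 0, nat_lit 0, nat_lit 645, nat_lit 0, nat_lit 1218192, [nat_lit 1279980000, nat_lit 3107520000], [], [nat_lit 10720513446, nat_lit 10844580698, nat_lit 11491109291, nat_lit 11593494663, nat_lit 11026271144, nat_lit 11119021632, nat_lit 11587323333, nat_lit 11662982924], nat_lit 1271250, nat_lit 1271250, nat_lit 1271250, nat_lit 1271250, nat_lit 88400, nat_lit 2223300, [nat_lit 780000, nat_lit 1762500], [nat_lit 74, nat_lit 40, nat_lit 40, nat_lit 80, nat_lit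 43, nat_lit 317, nat_lit 100, nat_lit 10]⟩,
 ⟨nat_lit 3872, nat_lit 4473, ⟨.ofNat (nat_lit 686505), .ofNat (nat_lit 822476), .ofNat (nat_lit 697279), .ofNat (nat_lit 833251), .ofNat (nat_lit 684295), .ofNat (nat_lit 813354), .ofNat (nat_lit 695183), .ofNat (nat_lit 824242)⟩, ⟨.ofNat (nat_lit 438578), .ofNat (nat_lit 540545), .ofNat (nat_lit 481711), .ofNat (nat_lit 583678), .ofNat (nat_lit 433760), .ofNat (nat_lit 530543), .ofNat (nat_lit 477347), .ofNat (nat_lit 574129)⟩⟩, [⟨nat_lit 4, nat_lit 100, nat_lit 81, nat_lit 92, nat_lit 350242852⟩, ⟨nat_lit 19, nat_lit 91, nat_lit 91, nat_lit 100, nat_lit 81654260⟩]⟩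
noncomputable def p093_l33 : Lf2 := ⟨nat_lit 0, nat_lit 10, [nat_lit 0, nat_lit 5, nat_lit 5, nat_lit 20], false, nat_lit 240, nat_lit 276, nat_lit 16, nat_lit 320, ⟨nat_lit 282, nat_lit 718, nat_lit 0, nat_lit 7, nat_lit 297, nat_lit 718, nat_lit 193, nat_lit 0, nat_lit 0, nat_lit 0, nat_lit 0, nat_lit 0, nat_lit 35865636, nat_lit 20770556, nat_lit 10363808, nat_lit 5318207, true, false⟩,
 nat_lit 0, nat_lit 0, nat_lit 2505, nat_lit 0, nat_lit 3069, nat_lit 1734, nat_lit 0, nat_lit 0, nat_lit 0, nat_lit 529, nat_lit 0, nat_lit 0, nat_lit 0, nat_lit 0, nat_lit 0, nat_lit 287200, nat_lit 0, nat_lit 0, [(nat_lit 21, [(nat_lit 1, nat_lit 718)])],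
 ⟨p093_k11, nat_lit 0, nat_lit 0, nat_lit 40, nat_lit 0, nat_lit 0, [nat_lit 1546057600, nat_lit 2833756000], [], [nat_lit 22951376044, nat_lit 23509128280, nat_lit 26059885596, nat_lit 26531263228, nat_lit 24350205343, nat_lit 24869089007, nat_lit 27231944028, nat_lit 27692123209], nat_lit 0, nat_lit 0, nat_lit 0, nat_lit 0, nat_lit 0, nat_lit 0, [], [nat_lit 69, nat_lit 40, nat_lit 40, nat_lit 80, nat_lit 64, nat_lit 203, nat_lit 0, nat_lit 6]⟩, ⟨p093_k14, nat_lit 0, nat_lit 0, nat_lit 706, nat_lit 0, nat_lit 1329883, [nat_lit 925524000, nat_lit 2246976000], [], [nat_lit 7869643298, nat_lit 7935529294, nat_lit 8357651626, nat_lit 8422709344, nat_lit 8029113948, nat_lit 8086547694, nat_lit 8380870620, nat_lit 8427331266], nat_lit 1271250, nat_lit 1271250, nat_lit 1271250, nat_lit 1271250, nat_lit 88400, nat_lit 2281000, [nat_lit 780000, nat_lit 1762500], [nat_lit 74, nat_lit 40, nat_lit 40, nat_lit 80, nat_lit 43,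 nat_lit 317, nat_lit 100, nat_lit 10]⟩,
 ⟨nat_lit 3535, nat_lit 3873, ⟨.ofNat (nat_lit 673463), .ofNat (nat_lit 802518), .ofNat (nat_lit 684356), .ofNat (nat_lit 813411), .ofNat (nat_lit 672499), .ofNat (nat_lit 798034), .ofNat (nat_lit 683472), .ofNat (nat_lit 809007)⟩, ⟨.ofNat (nat_lit 433760), .ofNat (nat_lit 491830), .ofNat (nat_lit 477347), .ofNat (nat_lit 535416), .ofNat (nat_lit 431044), .ofNat (nat_lit 487529), .ofNat (nat_lit 474949), .ofNat (nat_lit 531435)⟩⟩, [⟨nat_lit 16, nat_lit 77, nat_lit 100, nat_lit 99, nat_lit 304158043⟩, ⟨nat_lit 19, nat_lit 94, nat_lit 88, nat_lit 100, nat_lit 56916602⟩]⟩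
noncomputable def p093_l34 : Lf2 := ⟨nat_lit 0, nat_lit 10, [nat_lit 0, nat_lit 5, nat_lit 5, nat_lit 20], false, nat_lit 240, nat_lit 264, nat_lit 16, nat_lit 320, ⟨nat_lit 293, nat_lit 707, nat_lit 0, nat_lit 7, nat_lit 295, nat_lit 707, nat_lit 188, nat_lit 0, nat_lit 0, nat_lit 0, nat_lit 0, nat_lit 0, nat_lit 36275436, nat_lit 20703790, nat_lit 10020774, nat_lit 5277246, true, false⟩,
 nat_lit 0, nat_lit 0, nat_lit 2609, nat_lit 0, nat_lit 3547, nat_lit 1805, nat_lit 170, nat_lit 0, nat_lit 0, nat_lit 467, nat_lit 0, nat_lit 0, nat_lit 0, nat_lit 0, nat_lit 0, nat_lit 282800, nat_lit 0, nat_lit 0, [(nat_lit 21, [(nat_lit 1, nat_lit 707)])],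
 ⟨p093_k12, nat_lit 0, nat_lit 0, nat_lit 42, nat_lit 0, nat_lit 0, [nat_lit 1553502400, nat_lit 2422772000], [], [nat_lit 24167494374, nat_lit 24676026502, nat_lit 26905541814, nat_lit 27405728624, nat_lit 24988908606, nat_lit 25474192003, nat_lit 27692678555, nat_lit 28190535326], nat_lit 0, nat_lit 0, nat_lit 0, nat_lit 0, nat_lit 0, nat_lit 0, [], [nat_lit 24, nat_lit 40, nat_lit 40, nat_lit 80, nat_lit 33, nat_lit 203, nat_lit 0, nat_lit 6]⟩, ⟨p093_k14, nat_lit 0, nat_lit 0, nat_lit 744, nat_lit 0, nat_lit 1419449, [nat_lit 961626000, nat_lit 2334624000], [], [nat_lit 8627332620, nat_lit 8660196660, nat_lit 9033863080, nat_lit 9060544757, nat_lit 8422548198, nat_lit 8440649372, nat_lit 8692919241, nat_lit 8711563912], nat_lit 1271250, nat_lit 1271250, nat_lit 1271250, nat_lit 1271250, nat_lit 88400, nat_lit 2281000, [nat_lit 780000, nat_lit 1762500], [nat_lit 74, nat_lit 40, nat_lit 40, nat_lit 80, nat_lit 43,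 nat_lit 317, nat_lit 100, nat_lit 10]⟩,
 ⟨nat_lit 3162, nat_lit 3536, ⟨.ofNat (nat_lit 672493), .ofNat (nat_lit 798037), .ofNat (nat_lit 677979), .ofNat (nat_lit 803523), .ofNat (nat_lit 671696), .ofNat (nat_lit 793624), .ofNat (nat_lit 677233), .ofNat (nat_lit 799161)⟩, ⟨.ofNat (nat_lit 431044), .ofNat (nat_lit 468701), .ofNat (nat_lit 474949), .ofNat (nat_lit 512606), .ofNat (nat_lit 428022), .ofNat (nat_lit 464594), .ofNat (nat_lit 472332), .ofNat (nat_lit 508904)⟩⟩, [⟨nat_lit 16, nat_lit 69, nat_lit 100, nat_lit 96, nat_lit 365709152⟩, ⟨nat_lit 19, nat_lit 94, nat_lit 88, nat_lit 100, nat_lit 52844084⟩]⟩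
noncomputable def p093_l35 : Lf2 := ⟨nat_lit 0, nat_lit 10, [nat_lit 0, nat_lit 5, nat_lit 5, nat_lit 20], false, nat_lit 240, nat_lit 264, nat_lit 16, nat_lit 316, ⟨nat_lit 320, nat_lit 680, nat_lit 0, nat_lit 7, nat_lit 297, nat_lit 680, nat_lit 188, nat_lit 0, nat_lit 0, nat_lit 0, nat_lit 0, nat_lit 0, nat_lit 36117741, nat_lit 20893680, nat_lit 9988579, nat_lit 5282174, true, false⟩,
 nat_lit 0, nat_lit 0, nat_lit 2790, nat_lit 0, nat_lit 3271, nat_lit 1971, nat_lit 344, nat_lit 0, nat_lit 0, nat_lit 366, nat_lit 0, nat_lit 0, nat_lit 0, nat_lit 0, nat_lit 0, nat_lit 272000, nat_lit 0, nat_lit 0, [(nat_lit 21, [(nat_lit 1, nat_lit 680)])],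
 ⟨p093_k12, nat_lit 0, nat_lit 0, nat_lit 42, nat_lit 0, nat_lit 0, [nat_lit 1571776000, nat_lit 2509280000], [], [nat_lit 24010746132, nat_lit 24502711636, nat_lit 26699310481, nat_lit 27175270832, nat_lit 24816054108, nat_lit 25286068854, nat_lit 27465337328, nat_lit 27947970518], nat_lit 0, nat_lit 0, nat_lit 0, nat_lit 0, nat_lit 0, nat_lit 0, [], [nat_lit 24, nat_lit 40, nat_lit 40, nat_lit 80, nat_lit 33, nat_lit 203, nat_lit 0, nat_lit 6]⟩, ⟨p093_k16, nat_lit 0, nat_lit 0, nat_lit 745, nat_lit 0, nat_lit 1412872, [nat_lit 1050240000, nat_lit 2000000000, nat_lit 2549760000], [], [nat_lit 9247157712, nat_lit 9289644309, nat_lit 9775533580, nat_lit 9810322478, nat_lit 9193212456, nat_lit 9217592398, nat_lit 9500124117, nat_lit 9522911127], nat_lit 1271250, nat_lit 1271250, nat_lit 1271250, nat_lit 1271250, nat_lit 88400, nat_lit 2252150, [nat_lit 780000, nat_lit 1435000, nat_lit 1271250], [nat_lit 18, nat_lit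 40, nat_lit 40, nat_lit 80, nat_lit 2, nat_lit 317, nat_lit 100, nat_lit 10]⟩,
 ⟨nat_lit 3162, nat_lit 3536, ⟨.ofNat (nat_lit 677979), .ofNat (nat_lit 803523), .ofNat (nat_lit 683465), .ofNat (nat_lit 809008), .ofNat (nat_lit 677233), .ofNat (nat_lit 799161), .ofNat (nat_lit 682769), .ofNat (nat_lit 804697)⟩, ⟨.ofNat (nat_lit 431044), .ofNat (nat_lit 468701), .ofNat (nat_lit 474949), .ofNat (nat_lit 512606), .ofNat (nat_lit 428022), .ofNat (nat_lit 464594), .ofNat (nat_lit 472332), .ofNat (nat_lit 508904)⟩⟩, [⟨nat_lit 16, nat_lit 69, nat_lit 100, nat_lit 96, nat_lit 370977990⟩, ⟨nat_lit 19, nat_lit 93, nat_lit 90, nat_lit 100, nat_lit 59624005⟩]⟩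
noncomputable def p093_l36 : Lf2 := ⟨nat_lit 0, nat_lit 10, [nat_lit 0, nat_lit 5, nat_lit 5, nat_lit 20], false, nat_lit 240, nat_lit 276, nat_lit 16, nat_lit 312, ⟨nat_lit 335, nat_lit 665, nat_lit 0, nat_lit 7, nat_lit 301, nat_lit 665, nat_lit 193, nat_lit 0, nat_lit 0, nat_lit 0, nat_lit 0, nat_lit 0, nat_lit 35558629, nat_lit 21144060, nat_lit 10297311, nat_lit 5327202, true, false⟩,
 nat_lit 0, nat_lit 0, nat_lit 2853, nat_lit 0, nat_lit 3087, nat_lit 2056, nat_lit 0, nat_lit 0, nat_lit 0, nat_lit 417, nat_lit 0, nat_lit 0, nat_lit 0, nat_lit 0, nat_lit 0, nat_lit 266000, nat_lit 0, nat_lit 0, [(nat_lit 21, [(nat_lit 1, nat_lit 665)])],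
 ⟨p093_k11, nat_lit 0, nat_lit 0, nat_lit 40, nat_lit 0, nat_lit 0, [nat_lit 1581928001, nat_lit 3085930000], [], [nat_lit 22979702213, nat_lit 23538819641, nat_lit 26093269909, nat_lit 26565661445, nat_lit 24380807677, nat_lit 24900898453, nat_lit 27266709132, nat_lit 27707616251], nat_lit 0, nat_lit 0, nat_lit 0, nat_lit 0, nat_lit 0, nat_lit 0, [], [nat_lit 69, nat_lit 40, nat_lit 40, nat_lit 80, nat_lit 64, nat_lit 203, nat_lit 0, nat_lit 6]⟩, ⟨p093_k15, nat_lit 0, nat_lit 0, nat_lit 703, nat_lit 0, nat_lit 1327381, [nat_lit 1099470000, nat_lit 2669280000], [], [nat_lit 9468291012, nat_lit 9562229838, nat_lit 10046720106, nat_lit 10124245605, nat_lit 9580589817, nat_lit 9650313871, nat_lit 9995977880, nat_lit 10052479483], nat_lit 1271250, nat_lit 1271250, nat_lit 1271250, nat_lit 1271250, nat_lit 88400, nat_lit 2223300, [nat_lit 780000, nat_lit 1762500], [nat_lit 74, nat_lit 40, nat_lit 40, nat_lit 80, nat_lit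 43, nat_lit 317, nat_lit 100, nat_lit 10]⟩,
 ⟨nat_lit 3535, nat_lit 3873, ⟨.ofNat (nat_lit 684356), .ofNat (nat_lit 813411), .ofNat (nat_lit 695250), .ofNat (nat_lit 824304), .ofNat (nat_lit 683472), .ofNat (nat_lit 809007), .ofNat (nat_lit 694446), .ofNat (nat_lit 819980)⟩, ⟨.ofNat (nat_lit 433760), .ofNat (nat_lit 491830), .ofNat (nat_lit 477347), .ofNat (nat_lit 535416), .ofNat (nat_lit 431044), .ofNat (nat_lit 487529), .ofNat (nat_lit 474949), .ofNat (nat_lit 531435)⟩⟩, [⟨nat_lit 16, nat_lit 77, nat_lit 100, nat_lit 99, nat_lit 320022975⟩, ⟨nat_lit 19, nat_lit 91, nat_lit 91, nat_lit 100, nat_lit 67683874⟩]⟩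
noncomputable def p093_l37 : Lf2 := ⟨nat_lit 0, nat_lit 10, [nat_lit 0, nat_lit 5, nat_lit 5, nat_lit 20], false, nat_lit 240, nat_lit 264, nat_lit 16, nat_lit 312, ⟨nat_lit 288, nat_lit 712, nat_lit 0, nat_lit 7, nat_lit 300, nat_lit 712, nat_lit 188, nat_lit 0, nat_lit 0, nat_lit 0, nat_lit 0, nat_lit 0, nat_lit 35881942, nat_lit 21177912, nat_lit 9940146, nat_lit 5289129, true, false⟩,
 nat_lit 0, nat_lit 0, nat_lit 2495, nat_lit 0, nat_lit 3228, nat_lit 1798, nat_lit 310, nat_lit 0, nat_lit 0, nat_lit 264, nat_lit 0, nat_lit 0, nat_lit 0, nat_lit 0, nat_lit 0, nat_lit 284800, nat_lit 0, nat_lit 0, [(nat_lit 21, [(nat_lit 1, nat_lit 712)])],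
 ⟨p093_k12, nat_lit 0, nat_lit 0, nat_lit 42, nat_lit 0, nat_lit 0, [nat_lit 1550118400, nat_lit 2406752000], [], [nat_lit 24074017726, nat_lit 24563402198, nat_lit 26750013286, nat_lit 27166902630, nat_lit 24876816394, nat_lit 25344452328, nat_lit 27431212105, nat_lit 27910179624], nat_lit 0, nat_lit 0, nat_lit 0, nat_lit 0, nat_lit 0, nat_lit 0, [], [nat_lit 24, nat_lit 40, nat_lit 40, nat_lit 80, nat_lit 33, nat_lit 203, nat_lit 0, nat_lit 6]⟩, ⟨p093_k6, nat_lit 0, nat_lit 0, nat_lit 757, nat_lit 0, nat_lit 1441751, [nat_lit 945216000, nat_lit 1800000000, nat_lit 2294784000], [], [nat_lit 8454613465, nat_lit 8531496943, nat_lit 8927409048, nat_lit 8990464562, nat_lit 8409212958, nat_lit 8453842119, nat_lit 8662779440, nat_lit 8698182239], nat_lit 1271250, nat_lit 1271250, nat_lit 1271250, nat_lit 1271250, nat_lit 88400, nat_lit 2223300, [nat_lit 780000, nat_lit 1435000, nat_lit 1271250], [nat_lit 18, nat_lit 40,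 nat_lit 40, nat_lit 80, nat_lit 2, nat_lit 317, nat_lit 100, nat_lit 10]⟩,
 ⟨nat_lit 3162, nat_lit 3536, ⟨.ofNat (nat_lit 683465), .ofNat (nat_lit 809008), .ofNat (nat_lit 694437), .ofNat (nat_lit 819981), .ofNat (nat_lit 682769), .ofNat (nat_lit 804697), .ofNat (nat_lit 693843), .ofNat (nat_lit 815770)⟩, ⟨.ofNat (nat_lit 431044), .ofNat (nat_lit 468701), .ofNat (nat_lit 474949), .ofNat (nat_lit 512606), .ofNat (nat_lit 428022), .ofNat (nat_lit 464594), .ofNat (nat_lit 472332), .ofNat (nat_lit 508904)⟩⟩, [⟨nat_lit 16, nat_lit 69, nat_lit 100, nat_lit 96, nat_lit 324744074⟩, ⟨nat_lit 19, nat_lit 91, nat_lit 91, nat_lit 100, nat_lit 53752325⟩]⟩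
noncomputable def b_V_800_700_20_5 : St := ⟨true, nat_lit 0, nat_lit 1, nat_lit 1, nat_lit 120, nat_lit 320, nat_lit 360, nat_lit 280, nat_lit 320, nat_lit 240, nat_lit 320, nat_lit 80, nat_lit 120, nat_lit 160, nat_lit 300, nat_lit 0, nat_lit 336, nat_lit 0, nat_lit 40, nat_lit 0, nat_lit 0, nat_lit 0, nat_lit 0⟩
theorem d_V_800_700_20_5 (h : EB TB.env) : Dead b_V_800_700_20_5 := chkB_sound0 h (T :=
(.spl (nat_lit 1) (nat_lit 300)
(.spl (nat_lit 2) (nat_lit 280)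
(.leaf p093_l19)
(.trZ (nat_lit 9) (nat_lit 100) (nat_lit 94) (nat_lit 21) (nat_lit 4) (.spl (nat_lit 0) (nat_lit 340)
(.spl (nat_lit 1) (nat_lit 290)
(.spl (nat_lit 0) (nat_lit 330)
(.leaf p093_l20)
(.trX (nat_lit 16) (nat_lit 83) (nat_lit 98) (nat_lit 100) (nat_lit 288) (.leaf p093_l21)))
(.trX (nat_lit 19) (nat_lit 97) (nat_lit 84) (nat_lit 100) (nat_lit 328) (.leaf p093_l22)))
(.trX (nat_lit 16) (nat_lit 77) (nat_lit 100) (nat_lit 99) (nat_lit 276) (.spl (nat_lit 0) (nat_lit 350)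
(.spl (nat_lit 1) (nat_lit 290)
(.leaf p093_l23)
(.trX (nat_lit 19) (nat_lit 97) (nat_lit 84) (nat_lit 100) (nat_lit 328) (.leaf p093_l24)))
(.trX (nat_lit 16) (nat_lit 69) (nat_lit 100) (nat_lit 96) (nat_lit 264) (.spl (nat_lit 1) (nat_lit 290)
(.leaf p093_l25)
(.trX (nat_lit 19) (nat_lit 97) (nat_lit 84) (nat_lit 100) (nat_lit 328) (.spl (nat_lit 1) (nat_lit 295)
(.leaf p093_l26)
(.trX (nat_lit 19) (nat_lit 96) (nat_lit 86) (nat_lit 100) (nat_lit 324) (.leaf p093_l27)))))))))))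
(.trX (nat_lit 19) (nat_lit 94) (nat_lit 88) (nat_lit 100) (nat_lit 320) (.spl (nat_lit 4) (nat_lit 240)
(.spl (nat_lit 1) (nat_lit 310)
(.spl (nat_lit 0) (nat_lit 340)
(.leaf p093_l28)
(.leaf p093_l29))
(.trX (nat_lit 19) (nat_lit 91) (nat_lit 91) (nat_lit 100) (nat_lit 312) (.leaf p093_l30)))
(.trZ (nat_lit 9) (nat_lit 100) (nat_lit 100) (nat_lit 40) (nat_lit 16) (.spl (nat_lit 0) (nat_lit 340)
(.spl (nat_lit 1) (nat_lit 310)
(.leaf p093_l31)
(.trX (nat_lit 19) (nat_lit 91) (nat_lit 91) (nat_lit 100) (nat_lit 312) (.leaf p093_l32)))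
(.trX (nat_lit 16) (nat_lit 77) (nat_lit 100) (nat_lit 99) (nat_lit 276) (.spl (nat_lit 1) (nat_lit 310)
(.spl (nat_lit 0) (nat_lit 350)
(.leaf p093_l33)
(.trX (nat_lit 16) (nat_lit 69) (nat_lit 100) (nat_lit 96) (nat_lit 264) (.spl (nat_lit 1) (nat_lit 305)
(.leaf p093_l34)
(.trX (nat_lit 19) (nat_lit 93) (nat_lit 90) (nat_lit 100) (nat_lit 316) (.leaf p093_l35)))))
(.trX (nat_lit 19) (nat_lit 91) (nat_lit 91) (nat_lit 100) (nat_lit 312) (.spl (nat_lit 0) (nat_lit 350)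
(.leaf p093_l36)
(.trX (nat_lit 16) (nat_lit 69) (nat_lit 100) (nat_lit 96) (nat_lit 264) (.leaf p093_l37)))))))))))) (by decide +kernel)
noncomputable def p093_l38 : Lf2 := ⟨nat_lit 0, nat_lit 10, [nat_lit 0, nat_lit 5, nat_lit 5, nat_lit 20], false, nat_lit 160, nat_lit 240, nat_lit 16, nat_lit 336, ⟨nat_lit 1000, nat_lit 0, nat_lit 0, nat_lit 0, nat_lit 0, nat_lit 0, nat_lit 0, nat_lit 0, nat_lit 0, nat_lit 0, nat_lit 0, nat_lit 0, nat_lit 0, nat_lit 0, nat_lit 0, nat_lit 0, false, false⟩,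
 nat_lit 0, nat_lit 0, nat_lit 2255, nat_lit 0, nat_lit 5701, nat_lit 1435, nat_lit 320, nat_lit 0, nat_lit 0, nat_lit 287, nat_lit 0, nat_lit 375, nat_lit 0, nat_lit 0, nat_lit 0, nat_lit 0, nat_lit 0, nat_lit 0, [],
 ⟨p093_k0, nat_lit 0, nat_lit 0, nat_lit 87, nat_lit 0, nat_lit 0, [nat_lit 2032000001, nat_lit 4688000000, nat_lit 6250000000], [], [nat_lit 26413219620, nat_lit 27620445490, nat_lit 31444314808, nat_lit 32384036266, nat_lit 27870537488, nat_lit 28911604870, nat_lit 32229849152, nat_lit 33042862706], nat_lit 0, nat_lit 0, nat_lit 0, nat_lit 0, nat_lit 0, nat_lit 0, [], [nat_lit 6, nat_lit 40, nat_lit 40, nat_lit 80, nat_lit 3, nat_lit 272, nat_lit 60, nat_lit 8]⟩, ⟨p093_k1, nat_lit 0, nat_lit 0, nat_lit 0, nat_lit 0, nat_lit 1281160, [nat_lit 3282000000, nat_lit 6250000000, nat_lit 9842000000], [], [nat_lit 22803525232, nat_lit 23248374393, nat_lit 24843438183, nat_lit 25238145313, nat_lit 26644635419,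 nat_lit 27084580371, nat_lit 28898097875, nat_lit 29366411769], nat_lit 1271250, nat_lit 1271250, nat_lit 1271250, nat_lit 1271250, nat_lit 88400, nat_lit 2396400, [nat_lit 780000, nat_lit 1435000, nat_lit 1271250], [nat_lit 8, nat_lit 40, nat_lit 40, nat_lit 80]⟩,
 zbF0, [⟨nat_lit 19, nat_lit 100, nat_lit 80, nat_lit 100, nat_lit 65601320⟩]⟩
noncomputable def p093_l39 : Lf2 := ⟨nat_lit 0, nat_lit 5, [nat_lit 4, nat_lit 5, nat_lit 5, nat_lit 20], false, nat_lit 240, nat_lit 300, nat_lit 64, nat_lit 336, ⟨nat_lit 832, nat_lit 168, nat_lit 0, nat_lit 8, nat_lit 332, nat_lit 168, nat_lit 203, nat_lit 0, nat_lit 0, nat_lit 0, nat_lit 0, nat_lit 0, nat_lit 33033961, nat_lit 23447735, nat_lit 10518304, nat_lit 5431244, true, true⟩,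
 nat_lit 0, nat_lit 0, nat_lit 1381, nat_lit 0, nat_lit 5319, nat_lit 878, nat_lit 0, nat_lit 0, nat_lit 0, nat_lit 200, nat_lit 0, nat_lit 333, nat_lit 0, nat_lit 0, nat_lit 0, nat_lit 168000, nat_lit 0, nat_lit 0, [(nat_lit 18, [(nat_lit 2, nat_lit 168)])],
 ⟨p093_k17, nat_lit 0, nat_lit 0, nat_lit 63, nat_lit 0, nat_lit 0, [nat_lit 1976537601, nat_lit 4076032001, nat_lit 5125542400], [], [nat_lit 26755247273, nat_lit 27833342671, nat_lit 28911438069, nat_lit 30000646164, nat_lit 28909613591, nat_lit 29951880165, nat_lit 31041677583, nat_lit 32008680183], nat_lit 0, nat_lit 0, nat_lit 0, nat_lit 0, nat_lit 0, nat_lit 0, [], [nat_lit 6, nat_lit 40, nat_lit 40, nat_lit 80, nat_lit 3, nat_lit 203, nat_lit 0, nat_lit 5]⟩, ⟨p093_k18, nat_lit 0, nat_lit 0, nat_lit 0, nat_lit 0, nat_lit 1246108, [nat_lit 2730624000, nat_lit 5200000000, nat_lit 6629376000], [], [nat_lit 18206136505, nat_lit 18593774261, nat_lit 19059519346,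 nat_lit 19427273372, nat_lit 21749711162, nat_lit 22094208746, nat_lit 22522691063, nat_lit 22894073238], nat_lit 1271250, nat_lit 1271250, nat_lit 1271250, nat_lit 1271250, nat_lit 382400, nat_lit 2466600, [nat_lit 780000, nat_lit 1435000, nat_lit 1271250], [nat_lit 18, nat_lit 40, nat_lit 40, nat_lit 80]⟩,
 ⟨nat_lit 3872, nat_lit 4473, ⟨.ofNat (nat_lit 790153), .ofNat (nat_lit 858139), .ofNat (nat_lit 811702), .ofNat (nat_lit 879688), .ofNat (nat_lit 780691), .ofNat (nat_lit 845220), .ofNat (nat_lit 802466), .ofNat (nat_lit 866995)⟩, ⟨.ofNat (nat_lit 438578), .ofNat (nat_lit 540545), .ofNat (nat_lit 481711), .ofNat (nat_lit 583678), .ofNat (nat_lit 433760), .ofNat (nat_lit 530543), .ofNat (nat_lit 477347), .ofNat (nat_lit 574129)⟩⟩, [⟨nat_lit 16, nat_lit 87, nat_lit 95, nat_lit 100, nat_lit 432398563⟩, ⟨nat_lit 19, nat_lit 100, nat_lit 80, nat_lit 100, nat_lit 67752285⟩]⟩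
noncomputable def p093_l40 : Lf2 := ⟨nat_lit 0, nat_lit 5, [nat_lit 4, nat_lit 5, nat_lit 5, nat_lit 20], false, nat_lit 240, nat_lit 300, nat_lit 112, nat_lit 336, ⟨nat_lit 1000, nat_lit 0, nat_lit 0, nat_lit 0, nat_lit 0, nat_lit 0, nat_lit 0, nat_lit 0, nat_lit 0, nat_lit 0, nat_lit 0, nat_lit 0, nat_lit 0, nat_lit 0, nat_lit 0, nat_lit 0, false, false⟩,
 nat_lit 0, nat_lit 0, nat_lit 1144, nat_lit 0, nat_lit 5412, nat_lit 728, nat_lit 0, nat_lit 0, nat_lit 0, nat_lit 216, nat_lit 0, nat_lit 419, nat_lit 0, nat_lit 0, nat_lit 0, nat_lit 0, nat_lit 0, nat_lit 0, [],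
 ⟨p093_k17, nat_lit 0, nat_lit 0, nat_lit 74, nat_lit 0, nat_lit 0, [nat_lit 2032000001, nat_lit 4688000000, nat_lit 6250000000], [], [nat_lit 29484808464, nat_lit 30453834728, nat_lit 31848976864, nat_lit 32700483864, nat_lit 31367897076, nat_lit 32211609692, nat_lit 33537970816, nat_lit 34387839326], nat_lit 0, nat_lit 0, nat_lit 0, nat_lit 0, nat_lit 0, nat_lit 0, [], [nat_lit 6, nat_lit 40, nat_lit 40, nat_lit 80, nat_lit 3, nat_lit 203, nat_lit 0, nat_lit 5]⟩, ⟨p093_k18, nat_lit 0, nat_lit 0, nat_lit 0, nat_lit 0, nat_lit 1246108, [nat_lit 3282000000, nat_lit 6250000000, nat_lit 7968000000], [], [nat_lit 22807049306, nat_lit 23269003213, nat_lit 23898994752, nat_lit 24349085370, nat_lit 26874043239, nat_lit 27314790573, nat_lit 27988411546, nat_lit 28509433879], nat_lit 1271250, nat_lit 1271250, nat_lit 1271250, nat_lit 1271250, nat_lit 719601, nat_lit 2536800, [nat_lit 780000, nat_lit 1435000, nat_lit 1271250],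 [nat_lit 18, nat_lit 40, nat_lit 40, nat_lit 80]⟩,
 zbF0, [⟨nat_lit 16, nat_lit 87, nat_lit 95, nat_lit 100, nat_lit 436715881⟩, ⟨nat_lit 19, nat_lit 100, nat_lit 80, nat_lit 100, nat_lit 97983760⟩]⟩
noncomputable def p093_l41 : Lf2 := ⟨nat_lit 0, nat_lit 10, [nat_lit 0, nat_lit 5, nat_lit 5, nat_lit 20], false, nat_lit 240, nat_lit 300, nat_lit 64, nat_lit 336, ⟨nat_lit 1000, nat_lit 0, nat_lit 0, nat_lit 0, nat_lit 0, nat_lit 0, nat_lit 0, nat_lit 0, nat_lit 0, nat_lit 0, nat_lit 0, nat_lit 0, nat_lit 0, nat_lit 0, nat_lit 0, nat_lit 0, false, false⟩,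
 nat_lit 0, nat_lit 0, nat_lit 3150, nat_lit 0, nat_lit 5417, nat_lit 2004, nat_lit 0, nat_lit 0, nat_lit 0, nat_lit 308, nat_lit 0, nat_lit 339, nat_lit 0, nat_lit 0, nat_lit 0, nat_lit 0, nat_lit 0, nat_lit 0, [],
 ⟨p093_k0, nat_lit 0, nat_lit 0, nat_lit 74, nat_lit 0, nat_lit 0, [nat_lit 2032000001, nat_lit 4688000000, nat_lit 6250000000], [], [nat_lit 27307718296, nat_lit 28395225810, nat_lit 31848020224, nat_lit 32702246824, nat_lit 29473719370, nat_lit 30419964656, nat_lit 33543821906, nat_lit 34393983129], nat_lit 0, nat_lit 0, nat_lit 0, nat_lit 0, nat_lit 0, nat_lit 0, [], [nat_lit 6, nat_lit 40, nat_lit 40, nat_lit 80, nat_lit 3, nat_lit 203, nat_lit 0, nat_lit 5]⟩, ⟨p093_k1, nat_lit 0, nat_lit 0, nat_lit 0, nat_lit 0, nat_lit 880691, [nat_lit 3282000000, nat_lit 6250000000, nat_lit 9842000000], [], [nat_lit 23976036334, nat_lit 24417859033, nat_lit 26055663153, nat_lit 26440312513, nat_lit 27271824961,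 nat_lit 27623492827, nat_lit 29551606020, nat_lit 30056115332], nat_lit 1271250, nat_lit 1271250, nat_lit 1271250, nat_lit 1271250, nat_lit 382400, nat_lit 2466600, [nat_lit 780000, nat_lit 1435000, nat_lit 1271250], [nat_lit 8, nat_lit 40, nat_lit 40, nat_lit 80]⟩,
 zbF0, [⟨nat_lit 16, nat_lit 87, nat_lit 95, nat_lit 100, nat_lit 436900753⟩, ⟨nat_lit 7, nat_lit 94, nat_lit 100, nat_lit 97, nat_lit 97283752⟩]⟩
noncomputable def p093_l42 : Lf2 := ⟨nat_lit 0, nat_lit 10, [nat_lit 0, nat_lit 5, nat_lit 5, nat_lit 20], false, nat_lit 160, nat_lit 276, nat_lit 16, nat_lit 336, ⟨nat_lit 1000, nat_lit 0, nat_lit 0, nat_lit 0, nat_lit 0, nat_lit 0, nat_lit 0, nat_lit 0, nat_lit 0, nat_lit 0, nat_lit 0, nat_lit 0, nat_lit 0, nat_lit 0, nat_lit 0, nat_lit 0, false, false⟩,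
 nat_lit 0, nat_lit 0, nat_lit 2775, nat_lit 0, nat_lit 4516, nat_lit 1765, nat_lit 590, nat_lit 0, nat_lit 0, nat_lit 299, nat_lit 0, nat_lit 353, nat_lit 0, nat_lit 0, nat_lit 0, nat_lit 0, nat_lit 0, nat_lit 0, [],
 ⟨p093_k8, nat_lit 0, nat_lit 0, nat_lit 96, nat_lit 0, nat_lit 0, [nat_lit 2032000001, nat_lit 4688000000, nat_lit 6250000000], [], [nat_lit 26127256090, nat_lit 27205471010, nat_lit 30337675429, nat_lit 31395806434, nat_lit 28608029070, nat_lit 29479027172, nat_lit 32403561633, nat_lit 33257860324], nat_lit 0, nat_lit 0, nat_lit 0, nat_lit 0, nat_lit 0, nat_lit 0, [], [nat_lit 6, nat_lit 40, nat_lit 40, nat_lit 80, nat_lit 3, nat_lit 289, nat_lit 75, nat_lit 9]⟩, ⟨p093_k1, nat_lit 0, nat_lit 0, nat_lit 0, nat_lit 0, nat_lit 1563961, [nat_lit 3282000000, nat_lit 6250000000, nat_lit 9842000000], [], [nat_lit 23643576740, nat_lit 24093357817, nat_lit 25632147637, nat_lit 26029045074, nat_lit 27088277272,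 nat_lit 27451267282, nat_lit 29186994081, nat_lit 29624404970], nat_lit 1271250, nat_lit 1271250, nat_lit 1271250, nat_lit 1271250, nat_lit 88400, nat_lit 2396400, [nat_lit 780000, nat_lit 1435000, nat_lit 1271250], [nat_lit 8, nat_lit 40, nat_lit 40, nat_lit 80]⟩,
 zbF0, [⟨nat_lit 16, nat_lit 77, nat_lit 100, nat_lit 99, nat_lit 385716187⟩, ⟨nat_lit 7, nat_lit 94, nat_lit 100, nat_lit 97, nat_lit 71278152⟩]⟩
noncomputable def b_V_800_700_20_6 : St := ⟨true, nat_lit 0, nat_lit 1, nat_lit 1, nat_lit 120, nat_lit 320, nat_lit 360, nat_lit 280, nat_lit 300, nat_lit 320, nat_lit 400, nat_lit 80, nat_lit 120, nat_lit 160, nat_lit 300, nat_lit 16, nat_lit 336, nat_lit 0, nat_lit 40, nat_lit 0, nat_lit 0, nat_lit 0, nat_lit 800⟩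
theorem d_V_800_700_20_6 (h : EB TB.env) : Dead b_V_800_700_20_6 := chkB_sound0 h (T :=
(.spl (nat_lit 0) (nat_lit 340)
(.spl (nat_lit 4) (nat_lit 240)
(.leaf p093_l38)
(.trZ (nat_lit 9) (nat_lit 100) (nat_lit 82) (nat_lit 76) (nat_lit 64) (.spl (nat_lit 6) (nat_lit 20)
(.spl (nat_lit 2) (nat_lit 360)
(.leaf p093_l39)
(.trZ (nat_lit 9) (nat_lit 100) (nat_lit 61) (nat_lit 92) (nat_lit 112) (.leaf p093_l40)))
(.leaf p093_l41))))
(.trX (nat_lit 13) (nat_lit 82) (nat_lit 29) (nat_lit 100) (nat_lit 396) (.trX (nat_lit 16) (nat_lit 77) (nat_lit 100) (nat_lit 99) (nat_lit 276) (.leaf p093_l42))))) (by decide +kernel)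
noncomputable def p093_l43 : Lf2 := ⟨nat_lit 0, nat_lit 10, [nat_lit 0, nat_lit 5, nat_lit 5, nat_lit 20], false, nat_lit 160, nat_lit 200, nat_lit 16, nat_lit 336, ⟨nat_lit 72, nat_lit 928, nat_lit 0, nat_lit 8, nat_lit 330, nat_lit 928, nat_lit 143, nat_lit 0, nat_lit 0, nat_lit 0, nat_lit 0, nat_lit 0, nat_lit 35719122, nat_lit 24780364, nat_lit 6500514, nat_lit 4965679, true, true⟩,
 nat_lit 0, nat_lit 0, nat_lit 943, nat_lit 0, nat_lit 3800, nat_lit 600, nat_lit 0, nat_lit 0, nat_lit 0, nat_lit 47, nat_lit 0, nat_lit 0, nat_lit 0, nat_lit 0, nat_lit 0, nat_lit 232000, nat_lit 0, nat_lit 0, [(nat_lit 18, [(nat_lit 0, nat_lit 928)]), (nat_lit 21, [(nat_lit 0, nat_lit 928)])],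
 ⟨p093_k0, nat_lit 0, nat_lit 0, nat_lit 73, nat_lit 0, nat_lit 0, [nat_lit 1592499201, nat_lit 2349440001, nat_lit 2827536000], [], [nat_lit 24241480001, nat_lit 26369760801, nat_lit 26369760801, nat_lit 28286116001, nat_lit 25096169201, nat_lit 27092517201, nat_lit 27092517201, nat_lit 28893178400], nat_lit 0, nat_lit 0, nat_lit 0, nat_lit 0, nat_lit 0, nat_lit 0, [], [nat_lit 6, nat_lit 40, nat_lit 40, nat_lit 80, nat_lit 3, nat_lit 260, nat_lit 50, nat_lit 8]⟩, ⟨p093_k1, nat_lit 0, nat_lit 0, nat_lit 866, nat_lit 0, nat_lit 1563961, [nat_lit 236304000, nat_lit 450000000, nat_lit 708624000], [], [nat_lit 2519814836, nat_lit 2537063223, nat_lit 2573751226, nat_lit 2587604045, nat_lit 2210032455, nat_lit 2213405780, nat_lit 2232141024, nat_lit 2252232327], nat_lit 1271250, nat_lit 1271250, nat_lit 1271250, nat_lit 1271250, nat_lit 88400, nat_lit 2396400, [nat_lit 780000, nat_lit 1435000, nat_lit 1271250], [nat_lit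 8, nat_lit 40, nat_lit 40, nat_lit 80, nat_lit 1, nat_lit 341, nat_lit 100, nat_lit 9]⟩,
 ⟨nat_lit 3162, nat_lit 4473, ⟨.ofNat (nat_lit 790054), .ofNat (nat_lit 858073), .ofNat (nat_lit 811546), .ofNat (nat_lit 879572), .ofNat (nat_lit 771333), .ofNat (nat_lit 832328), .ofNat (nat_lit 793414), .ofNat (nat_lit 854415)⟩, ⟨.ofNat (nat_lit 302621), .ofNat (nat_lit 370600), .ofNat (nat_lit 345754), .ofNat (nat_lit 413733), .ofNat (nat_lit 306116), .ofNat (nat_lit 367069), .ofNat (nat_lit 350426), .ofNat (nat_lit 411379)⟩⟩, [⟨nat_lit 7, nat_lit 94, nat_lit 100, nat_lit 97, nat_lit 8756808⟩]⟩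
noncomputable def p093_l44 : Lf2 := ⟨nat_lit 0, nat_lit 5, [nat_lit 4, nat_lit 5, nat_lit 5, nat_lit 20], true, nat_lit 200, nat_lit 240, nat_lit 40, nat_lit 336, ⟨nat_lit 0, nat_lit 1000, nat_lit 0, nat_lit 8, nat_lit 327, nat_lit 1000, nat_lit 169, nat_lit 0, nat_lit 0, nat_lit 0, nat_lit 0, nat_lit 0, nat_lit 34801642, nat_lit 23963072, nat_lit 8235286, nat_lit 5185071, true, true⟩,
 nat_lit 0, nat_lit 0, nat_lit 0, nat_lit 0, nat_lit 3656, nat_lit 0, nat_lit 0, nat_lit 0, nat_lit 0, nat_lit 0, nat_lit 0, nat_lit 0, nat_lit 0, nat_lit 0, nat_lit 0, nat_lit 250000, nat_lit 0, nat_lit 0, [(nat_lit 18, [(nat_lit 0, nat_lit 1000)]), (nat_lit 21, [(nat_lit 0, nat_lit 1000)])],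
 ⟨p093_k17, nat_lit 0, nat_lit 0, nat_lit 69, nat_lit 0, nat_lit 0, [nat_lit 1558400000, nat_lit 2168000000, nat_lit 2562000000], [], [nat_lit 25014795744, nat_lit 26964057104, nat_lit 26964057104, nat_lit 28738786048, nat_lit 25856842528, nat_lit 27693597632, nat_lit 27693597632, nat_lit 29398877120], nat_lit 0, nat_lit 0, nat_lit 0, nat_lit 0, nat_lit 0, nat_lit 0, [], [nat_lit 6, nat_lit 40, nat_lit 40, nat_lit 80, nat_lit 3, nat_lit 203, nat_lit 0, nat_lit 5]⟩, C1.Rw.none,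
 ⟨nat_lit 3162, nat_lit 4473, ⟨.ofNat (nat_lit 790054), .ofNat (nat_lit 858073), .ofNat (nat_lit 800803), .ofNat (nat_lit 868823), .ofNat (nat_lit 771333), .ofNat (nat_lit 832328), .ofNat (nat_lit 782377), .ofNat (nat_lit 843371)⟩, ⟨.ofNat (nat_lit 370600), .ofNat (nat_lit 438578), .ofNat (nat_lit 413733), .ofNat (nat_lit 481711), .ofNat (nat_lit 367069), .ofNat (nat_lit 428022), .ofNat (nat_lit 411379), .ofNat (nat_lit 472332)⟩⟩, []⟩
noncomputable def p093_l45 : Lf2 := ⟨nat_lit 0, nat_lit 10, [nat_lit 0, nat_lit 5, nat_lit 5, nat_lit 20], false, nat_lit 200, nat_lit 240, nat_lit 40, nat_lit 336, ⟨nat_lit 138, nat_lit 862, nat_lit 0, nat_lit 8, nat_lit 329, nat_lit 862, nat_lit 170, nat_lit 0, nat_lit 0, nat_lit 0, nat_lit 0, nat_lit 0, nat_lit 34688145, nat_lit 24042616, nat_lit 8269239, nat_lit 5191780, true, true⟩,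
 nat_lit 0, nat_lit 0, nat_lit 1739, nat_lit 0, nat_lit 3989, nat_lit 1106, nat_lit 0, nat_lit 0, nat_lit 0, nat_lit 92, nat_lit 0, nat_lit 0, nat_lit 0, nat_lit 0, nat_lit 0, nat_lit 215500, nat_lit 0, nat_lit 0, [(nat_lit 18, [(nat_lit 0, nat_lit 862)])],
 ⟨p093_k0, nat_lit 0, nat_lit 0, nat_lit 63, nat_lit 0, nat_lit 0, [nat_lit 1601689600, nat_lit 2515760000, nat_lit 3070944000], [], [nat_lit 25151972206, nat_lit 26170636641, nat_lit 27189301076, nat_lit 28106423094, nat_lit 26002434232, nat_lit 26952793770, nat_lit 27903153308, nat_lit 28760300466], nat_lit 0, nat_lit 0, nat_lit 0, nat_lit 0, nat_lit 0, nat_lit 0, [], [nat_lit 6, nat_lit 40, nat_lit 40, nat_lit 80, nat_lit 3, nat_lit 203, nat_lit 0, nat_lit 5]⟩, ⟨p093_k1, nat_lit 0, nat_lit 0, nat_lit 486, nat_lit 0, nat_lit 761311, [nat_lit 452916000, nat_lit 862500000, nat_lit 1358196000], [], [nat_lit 4404843572, nat_lit 4423180126, nat_lit 4604627436, nat_lit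 4620274581, nat_lit 4202835004, nat_lit 4213882110, nat_lit 4334802610, nat_lit 4343887879], nat_lit 1271250, nat_lit 1271250, nat_lit 1271250, nat_lit 1271250, nat_lit 230001, nat_lit 2431500, [nat_lit 780000, nat_lit 1435000, nat_lit 1271250], [nat_lit 8, nat_lit 40, nat_lit 40, nat_lit 80, nat_lit 1, nat_lit 317, nat_lit 100, nat_lit 8]⟩,
 ⟨nat_lit 3872, nat_lit 4473, ⟨.ofNat (nat_lit 790153), .ofNat (nat_lit 858139), .ofNat (nat_lit 795540), .ofNat (nat_lit 863526), .ofNat (nat_lit 780691), .ofNat (nat_lit 845220), .ofNat (nat_lit 786134), .ofNat (nat_lit 850663)⟩, ⟨.ofNat (nat_lit 370600), .ofNat (nat_lit 438578), .ofNat (nat_lit 413733), .ofNat (nat_lit 481711), .ofNat (nat_lit 369239), .ofNat (nat_lit 433760), .ofNat (nat_lit 412825), .ofNat (nat_lit 477347)⟩⟩, [⟨nat_lit 7, nat_lit 89, nat_lit 100, nat_lit 95, nat_lit 23965182⟩]⟩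
noncomputable def p093_l46 : Lf2 := ⟨nat_lit 0, nat_lit 10, [nat_lit 0, nat_lit 5, nat_lit 5, nat_lit 20], false, nat_lit 200, nat_lit 240, nat_lit 40, nat_lit 336, ⟨nat_lit 127, nat_lit 873, nat_lit 0, nat_lit 8, nat_lit 324, nat_lit 873, nat_lit 169, nat_lit 0, nat_lit 0, nat_lit 0, nat_lit 0, nat_lit 0, nat_lit 35064053, nat_lit 23697411, nat_lit 8238536, nat_lit 5177344, true, true⟩,
 nat_lit 0, nat_lit 0, nat_lit 1625, nat_lit 0, nat_lit 3412, nat_lit 1033, nat_lit 0, nat_lit 0, nat_lit 0, nat_lit 84, nat_lit 0, nat_lit 0, nat_lit 0, nat_lit 0, nat_lit 0, nat_lit 349200, nat_lit 0, nat_lit 0, [(nat_lit 21, [(nat_lit 1, nat_lit 873)])],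
 ⟨p093_k8, nat_lit 0, nat_lit 0, nat_lit 69, nat_lit 0, nat_lit 0, [nat_lit 1441153600, nat_lit 1898590400, nat_lit 2096266000], [], [nat_lit 25858200288, nat_lit 26784419008, nat_lit 27649979152, nat_lit 28515539296, nat_lit 26642451168, nat_lit 27525454864, nat_lit 28337237128, nat_lit 29149019392], nat_lit 0, nat_lit 0, nat_lit 0, nat_lit 0, nat_lit 0, nat_lit 0, [], [nat_lit 6, nat_lit 40, nat_lit 40, nat_lit 80, nat_lit 3, nat_lit 203, nat_lit 0, nat_lit 5]⟩, ⟨p093_k1, nat_lit 0, nat_lit 0, nat_lit 612, nat_lit 0, nat_lit 1042736, [nat_lit 416814000, nat_lit 793750000, nat_lit 1249934000], [], [nat_lit 4135313288, nat_lit 4147533868, nat_lit 4281877720, nat_lit 4295133224, nat_lit 3882812693, nat_lit 3889565339, nat_lit 3971722016, nat_lit 3977006139], nat_lit 1271250, nat_lit 1271250, nat_lit 1271250, nat_lit 1271250, nat_lit 230001, nat_lit 2431500, [nat_lit 780000, nat_lit 1435000, nat_lit 1271250], [nat_lit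 8, nat_lit 40, nat_lit 40, nat_lit 80, nat_lit 1, nat_lit 317, nat_lit 100, nat_lit 8]⟩,
 ⟨nat_lit 3162, nat_lit 3873, ⟨.ofNat (nat_lit 780717), .ofNat (nat_lit 845258), .ofNat (nat_lit 786160), .ofNat (nat_lit 850703), .ofNat (nat_lit 771459), .ofNat (nat_lit 832432), .ofNat (nat_lit 776992), .ofNat (nat_lit 837968)⟩, ⟨.ofNat (nat_lit 369239), .ofNat (nat_lit 433760), .ofNat (nat_lit 412825), .ofNat (nat_lit 477347), .ofNat (nat_lit 367069), .ofNat (nat_lit 428022), .ofNat (nat_lit 411379), .ofNat (nat_lit 472332)⟩⟩, [⟨nat_lit 16, nat_lit 67, nat_lit 100, nat_lit 88, nat_lit 20343607⟩, ⟨nat_lit 19, nat_lit 100, nat_lit 80, nat_lit 100, nat_lit 19825822⟩]⟩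
noncomputable def p093_l47 : Lf2 := ⟨nat_lit 0, nat_lit 10, [nat_lit 0, nat_lit 5, nat_lit 5, nat_lit 20], false, nat_lit 200, nat_lit 240, nat_lit 40, nat_lit 332, ⟨nat_lit 151, nat_lit 849, nat_lit 0, nat_lit 8, nat_lit 331, nat_lit 849, nat_lit 170, nat_lit 0, nat_lit 0, nat_lit 0, nat_lit 0, nat_lit 0, nat_lit 34532225, nat_lit 24226783, nat_lit 8240992, nat_lit 5193492, true, true⟩,
 nat_lit 0, nat_lit 0, nat_lit 1793, nat_lit 0, nat_lit 4015, nat_lit 1165, nat_lit 0, nat_lit 0, nat_lit 0, nat_lit 109, nat_lit 0, nat_lit 0, nat_lit 0, nat_lit 0, nat_lit 0, nat_lit 212250, nat_lit 0, nat_lit 0, [(nat_lit 18, [(nat_lit 0, nat_lit 849)])],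
 ⟨p093_k0, nat_lit 0, nat_lit 0, nat_lit 63, nat_lit 0, nat_lit 0, [nat_lit 1608179200, nat_lit 2548520000, nat_lit 3118888000], [], [nat_lit 25169528810, nat_lit 26191012035, nat_lit 27212495260, nat_lit 28131940690, nat_lit 26019409320, nat_lit 26972265950, nat_lit 27925122580, nat_lit 28784313910], nat_lit 0, nat_lit 0, nat_lit 0, nat_lit 0, nat_lit 0, nat_lit 0, [], [nat_lit 6, nat_lit 40, nat_lit 40, nat_lit 80, nat_lit 3, nat_lit 203, nat_lit 0, nat_lit 5]⟩, ⟨p093_k19, nat_lit 0, nat_lit 0, nat_lit 491, nat_lit 0, nat_lit 775544, [nat_lit 495582000, nat_lit 943750000, nat_lit 1486142000], [], [nat_lit 4736195371, nat_lit 4756101574, nat_lit 4948758386, nat_lit 4965813731, nat_lit 4568797859, nat_lit 4581180334, nat_lit 4712057385, nat_lit 4722341919], nat_lit 1271250, nat_lit 1271250, nat_lit 1271250, nat_lit 1271250, nat_lit 230001, nat_lit 2401750, [nat_lit 780000, nat_lit 1435000, nat_lit 1271250], [nat_lit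 8, nat_lit 40, nat_lit 40, nat_lit 80, nat_lit 1, nat_lit 317, nat_lit 100, nat_lit 8]⟩,
 ⟨nat_lit 3872, nat_lit 4473, ⟨.ofNat (nat_lit 795540), .ofNat (nat_lit 863526), .ofNat (nat_lit 800927), .ofNat (nat_lit 868913), .ofNat (nat_lit 786134), .ofNat (nat_lit 850663), .ofNat (nat_lit 791578), .ofNat (nat_lit 856107)⟩, ⟨.ofNat (nat_lit 370600), .ofNat (nat_lit 438578), .ofNat (nat_lit 413733), .ofNat (nat_lit 481711), .ofNat (nat_lit 369239), .ofNat (nat_lit 433760), .ofNat (nat_lit 412825), .ofNat (nat_lit 477347)⟩⟩, [⟨nat_lit 7, nat_lit 92, nat_lit 100, nat_lit 96, nat_lit 26736592⟩]⟩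
noncomputable def p093_l48 : Lf2 := ⟨nat_lit 0, nat_lit 10, [nat_lit 0, nat_lit 5, nat_lit 5, nat_lit 20], false, nat_lit 200, nat_lit 240, nat_lit 40, nat_lit 332, ⟨nat_lit 137, nat_lit 863, nat_lit 0, nat_lit 8, nat_lit 326, nat_lit 863, nat_lit 169, nat_lit 0, nat_lit 0, nat_lit 0, nat_lit 0, nat_lit 0, nat_lit 34904425, nat_lit 23885302, nat_lit 8210273, nat_lit 5179506, true, true⟩,
 nat_lit 0, nat_lit 0, nat_lit 1655, nat_lit 0, nat_lit 3437, nat_lit 1075, nat_lit 0, nat_lit 0, nat_lit 0, nat_lit 93, nat_lit 0, nat_lit 0, nat_lit 0, nat_lit 0, nat_lit 0, nat_lit 345200, nat_lit 0, nat_lit 0, [(nat_lit 21, [(nat_lit 1, nat_lit 863)])],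
 ⟨p093_k8, nat_lit 0, nat_lit 0, nat_lit 69, nat_lit 0, nat_lit 0, [nat_lit 1447921600, nat_lit 1930542401, nat_lit 2143846000], [], [nat_lit 25866332139, nat_lit 26807173109, nat_lit 27674967303, nat_lit 28542761497, nat_lit 26649757769, nat_lit 27547031165, nat_lit 28360778979, nat_lit 29174526793], nat_lit 0, nat_lit 0, nat_lit 0, nat_lit 0, nat_lit 0, nat_lit 0, [], [nat_lit 6, nat_lit 40, nat_lit 40, nat_lit 80, nat_lit 3, nat_lit 203, nat_lit 0, nat_lit 5]⟩, ⟨p093_k19, nat_lit 0, nat_lit 0, nat_lit 613, nat_lit 0, nat_lit 1044788, [nat_lit 449634000, nat_lit 856250000, nat_lit 1348354000], [], [nat_lit 4414394129, nat_lit 4427575552, nat_lit 4576603677, nat_lit 4590870948, nat_lit 4162489506, nat_lit 4170095754, nat_lit 4258373469, nat_lit 4264429475], nat_lit 1271250, nat_lit 1271250, nat_lit 1271250, nat_lit 1271250, nat_lit 230001, nat_lit 2401750, [nat_lit 780000, nat_lit 1435000, nat_lit 1271250], [nat_lit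 8, nat_lit 40, nat_lit 40, nat_lit 80, nat_lit 1, nat_lit 317, nat_lit 100, nat_lit 8]⟩,
 ⟨nat_lit 3162, nat_lit 3873, ⟨.ofNat (nat_lit 786160), .ofNat (nat_lit 850703), .ofNat (nat_lit 791601), .ofNat (nat_lit 856147), .ofNat (nat_lit 776992), .ofNat (nat_lit 837968), .ofNat (nat_lit 782524), .ofNat (nat_lit 843501)⟩, ⟨.ofNat (nat_lit 369239), .ofNat (nat_lit 433760), .ofNat (nat_lit 412825), .ofNat (nat_lit 477347), .ofNat (nat_lit 367069), .ofNat (nat_lit 428022), .ofNat (nat_lit 411379), .ofNat (nat_lit 472332)⟩⟩, [⟨nat_lit 4, nat_lit 100, nat_lit 67, nat_lit 88, nat_lit 19875935⟩, ⟨nat_lit 19, nat_lit 99, nat_lit 82, nat_lit 100, nat_lit 21674470⟩]⟩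
noncomputable def p093_l49 : Lf2 := ⟨nat_lit 0, nat_lit 5, [nat_lit 4, nat_lit 5, nat_lit 5, nat_lit 20], true, nat_lit 200, nat_lit 240, nat_lit 40, nat_lit 328, ⟨nat_lit 0, nat_lit 1000, nat_lit 0, nat_lit 8, nat_lit 331, nat_lit 1000, nat_lit 169, nat_lit 0, nat_lit 0, nat_lit 0, nat_lit 0, nat_lit 0, nat_lit 34565681, nat_lit 24241402, nat_lit 8192917, nat_lit 5187748, true, true⟩,
 nat_lit 0, nat_lit 0, nat_lit 0, nat_lit 0, nat_lit 3662, nat_lit 0, nat_lit 0, nat_lit 0, nat_lit 0, nat_lit 0, nat_lit 0, nat_lit 0, nat_lit 0, nat_lit 0, nat_lit 0, nat_lit 250000, nat_lit 0, nat_lit 0, [(nat_lit 18, [(nat_lit 0, nat_lit 1000)]), (nat_lit 21, [(nat_lit 0, nat_lit 1000)])],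
 ⟨p093_k17, nat_lit 0, nat_lit 0, nat_lit 69, nat_lit 0, nat_lit 0, [nat_lit 1558400000, nat_lit 2168000000, nat_lit 2562000000], [], [nat_lit 25006853388, nat_lit 26961849608, nat_lit 26961849608, nat_lit 28741055756, nat_lit 25853199856, nat_lit 27691107464, nat_lit 27691107464, nat_lit 29405072240], nat_lit 0, nat_lit 0, nat_lit 0, nat_lit 0, nat_lit 0, nat_lit 0, [], [nat_lit 6, nat_lit 40, nat_lit 40, nat_lit 80, nat_lit 3, nat_lit 203, nat_lit 0, nat_lit 5]⟩, C1.Rw.none,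
 ⟨nat_lit 3162, nat_lit 4473, ⟨.ofNat (nat_lit 800803), .ofNat (nat_lit 868823), .ofNat (nat_lit 806177), .ofNat (nat_lit 874197), .ofNat (nat_lit 782377), .ofNat (nat_lit 843371), .ofNat (nat_lit 787898), .ofNat (nat_lit 848892)⟩, ⟨.ofNat (nat_lit 370600), .ofNat (nat_lit 438578), .ofNat (nat_lit 413733), .ofNat (nat_lit 481711), .ofNat (nat_lit 367069), .ofNat (nat_lit 428022), .ofNat (nat_lit 411379), .ofNat (nat_lit 472332)⟩⟩, []⟩
noncomputable def p093_l50 : Lf2 := ⟨nat_lit 0, nat_lit 10, [nat_lit 0, nat_lit 5, nat_lit 5, nat_lit 20], false, nat_lit 200, nat_lit 240, nat_lit 40, nat_lit 328, ⟨nat_lit 1000, nat_lit 0, nat_lit 0, nat_lit 0, nat_lit 0, nat_lit 0, nat_lit 0, nat_lit 0, nat_lit 0, nat_lit 0, nat_lit 0, nat_lit 0, nat_lit 0, nat_lit 0, nat_lit 0, nat_lit 0, false, false⟩,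
 nat_lit 0, nat_lit 0, nat_lit 9054, nat_lit 0, nat_lit 5700, nat_lit 6012, nat_lit 0, nat_lit 0, nat_lit 0, nat_lit 2703, nat_lit 0, nat_lit 0, nat_lit 0, nat_lit 0, nat_lit 0, nat_lit 0, nat_lit 0, nat_lit 0, [],
 ⟨p093_k0, nat_lit 0, nat_lit 0, nat_lit 63, nat_lit 0, nat_lit 0, [nat_lit 2032000001, nat_lit 4688000000, nat_lit 6250000000], [], [nat_lit 26323711800, nat_lit 27527874300, nat_lit 28732036800, nat_lit 29802057200, nat_lit 27135905600, nat_lit 28250593000, nat_lit 29365280400, nat_lit 30356949800], nat_lit 0, nat_lit 0, nat_lit 0, nat_lit 0, nat_lit 0, nat_lit 0, [], [nat_lit 6, nat_lit 40, nat_lit 40, nat_lit 80, nat_lit 3, nat_lit 203, nat_lit 0, nat_lit 5]⟩, ⟨p093_k4, nat_lit 0, nat_lit 0, nat_lit 447, nat_lit 0, nat_lit 789703, [nat_lit 3282000000, nat_lit 6250000000, nat_lit 7968000000], [], [nat_lit 28300533322, nat_lit 28434993855, nat_lit 29639932758, nat_lit 29758655289, nat_lit 28430081928,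 nat_lit 28505373922, nat_lit 29550234420, nat_lit 29677219229], nat_lit 1271250, nat_lit 1271250, nat_lit 1271250, nat_lit 1271250, nat_lit 230001, nat_lit 2372000, [nat_lit 780000, nat_lit 1435000, nat_lit 1271250], [nat_lit 18, nat_lit 40, nat_lit 40, nat_lit 80, nat_lit 2, nat_lit 317, nat_lit 100, nat_lit 9]⟩,
 zbF0, [⟨nat_lit 4, nat_lit 100, nat_lit 81, nat_lit 92, nat_lit 381251323⟩, ⟨nat_lit 7, nat_lit 95, nat_lit 100, nat_lit 98, nat_lit 199840090⟩]⟩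
noncomputable def p093_l51 : Lf2 := ⟨nat_lit 0, nat_lit 10, [nat_lit 0, nat_lit 5, nat_lit 5, nat_lit 20], false, nat_lit 200, nat_lit 240, nat_lit 40, nat_lit 328, ⟨nat_lit 321, nat_lit 679, nat_lit 0, nat_lit 8, nat_lit 328, nat_lit 679, nat_lit 169, nat_lit 0, nat_lit 0, nat_lit 0, nat_lit 0, nat_lit 0, nat_lit 34745350, nat_lit 24072672, nat_lit 8181978, nat_lit 5181461, true, true⟩,
 nat_lit 0, nat_lit 0, nat_lit 3110, nat_lit 0, nat_lit 3894, nat_lit 2065, nat_lit 0, nat_lit 0, nat_lit 0, nat_lit 654, nat_lit 0, nat_lit 0, nat_lit 0, nat_lit 0, nat_lit 0, nat_lit 271600, nat_lit 0, nat_lit 0, [(nat_lit 21, [(nat_lit 1, nat_lit 679)])],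
 ⟨p093_k8, nat_lit 0, nat_lit 0, nat_lit 69, nat_lit 0, nat_lit 0, [nat_lit 1572452801, nat_lit 2518459201, nat_lit 3019318000], [], [nat_lit 26218587287, nat_lit 27226952297, nat_lit 28135584925, nat_lit 29044217553, nat_lit 27004044621, nat_lit 27945280169, nat_lit 28794958237, nat_lit 29644636305], nat_lit 0, nat_lit 0, nat_lit 0, nat_lit 0, nat_lit 0, nat_lit 0, [], [nat_lit 6, nat_lit 40, nat_lit 40, nat_lit 80, nat_lit 3, nat_lit 203, nat_lit 0, nat_lit 5]⟩, ⟨p093_k4, nat_lit 0, nat_lit 0, nat_lit 556, nat_lit 0, nat_lit 1047403, [nat_lit 1053522000, nat_lit 2006250000, nat_lit 2557728000], [], [nat_lit 9764398296, nat_lit 9797485630, nat_lit 10105438111, nat_lit 10134334973, nat_lit 9480777512, nat_lit 9497803015, nat_lit 9677959035, nat_lit 9699770711], nat_lit 1271250, nat_lit 1271250, nat_lit 1271250, nat_lit 1271250, nat_lit 230001, nat_lit 2372000, [nat_lit 780000, nat_lit 1435000, nat_lit 1271250], [nat_lit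 18, nat_lit 40, nat_lit 40, nat_lit 80, nat_lit 2, nat_lit 317, nat_lit 100, nat_lit 9]⟩,
 ⟨nat_lit 3162, nat_lit 3873, ⟨.ofNat (nat_lit 791601), .ofNat (nat_lit 856147), .ofNat (nat_lit 797043), .ofNat (nat_lit 861589), .ofNat (nat_lit 782524), .ofNat (nat_lit 843501), .ofNat (nat_lit 788056), .ofNat (nat_lit 849034)⟩, ⟨.ofNat (nat_lit 369239), .ofNat (nat_lit 433760), .ofNat (nat_lit 412825), .ofNat (nat_lit 477347), .ofNat (nat_lit 367069), .ofNat (nat_lit 428022), .ofNat (nat_lit 411379), .ofNat (nat_lit 472332)⟩⟩, [⟨nat_lit 16, nat_lit 67, nat_lit 100, nat_lit 88, nat_lit 149550333⟩, ⟨nat_lit 19, nat_lit 97, nat_lit 84, nat_lit 100, nat_lit 57415750⟩]⟩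
noncomputable def p093_l52 : Lf2 := ⟨nat_lit 0, nat_lit 10, [nat_lit 0, nat_lit 5, nat_lit 5, nat_lit 20], false, nat_lit 200, nat_lit 240, nat_lit 40, nat_lit 324, ⟨nat_lit 164, nat_lit 836, nat_lit 0, nat_lit 8, nat_lit 333, nat_lit 836, nat_lit 169, nat_lit 0, nat_lit 0, nat_lit 0, nat_lit 0, nat_lit 0, nat_lit 34409065, nat_lit 24426293, nat_lit 8164642, nat_lit 5189282, true, true⟩,
 nat_lit 0, nat_lit 0, nat_lit 1555, nat_lit 0, nat_lit 3943, nat_lit 1054, nat_lit 0, nat_lit 0, nat_lit 0, nat_lit 301, nat_lit 0, nat_lit 0, nat_lit 0, nat_lit 0, nat_lit 0, nat_lit 209000, nat_lit 0, nat_lit 0, [(nat_lit 18, [(nat_lit 0, nat_lit 836)]), (nat_lit 21, [(nat_lit 0, nat_lit 836)])],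
 ⟨p093_k0, nat_lit 0, nat_lit 0, nat_lit 69, nat_lit 0, nat_lit 0, [nat_lit 1636070400, nat_lit 2581280001, nat_lit 3166832000], [], [nat_lit 25244390523, nat_lit 27271745213, nat_lit 27271745213, nat_lit 29097767945, nat_lit 26095881385, nat_lit 27987764597, nat_lit 27987764597, nat_lit 29695210360], nat_lit 0, nat_lit 0, nat_lit 0, nat_lit 0, nat_lit 0, nat_lit 0, [], [nat_lit 6, nat_lit 40, nat_lit 40, nat_lit 80, nat_lit 3, nat_lit 203, nat_lit 0, nat_lit 5]⟩, ⟨p093_k13, nat_lit 0, nat_lit 0, nat_lit 725, nat_lit 0, nat_lit 1426986, [nat_lit 538248000, nat_lit 1025000000, nat_lit 1306752000], [], [nat_lit 4685546238, nat_lit 4700586263, nat_lit 4838238859, nat_lit 4851429287, nat_lit 4587105072, nat_lit 4598378275, nat_lit 4717315770, nat_lit 4730263082], nat_lit 1271250, nat_lit 1271250, nat_lit 1271250, nat_lit 1271250, nat_lit 230001, nat_lit 2342250, [nat_lit 780000, nat_lit 1435000, nat_lit 1271250], [nat_lit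 18, nat_lit 40, nat_lit 40, nat_lit 80, nat_lit 2, nat_lit 317, nat_lit 100, nat_lit 9]⟩,
 ⟨nat_lit 3162, nat_lit 4473, ⟨.ofNat (nat_lit 806177), .ofNat (nat_lit 874197), .ofNat (nat_lit 811546), .ofNat (nat_lit 879572), .ofNat (nat_lit 787898), .ofNat (nat_lit 848892), .ofNat (nat_lit 793414), .ofNat (nat_lit 854415)⟩, ⟨.ofNat (nat_lit 370600), .ofNat (nat_lit 438578), .ofNat (nat_lit 413733), .ofNat (nat_lit 481711), .ofNat (nat_lit 367069), .ofNat (nat_lit 428022), .ofNat (nat_lit 411379), .ofNat (nat_lit 472332)⟩⟩, [⟨nat_lit 19, nat_lit 96, nat_lit 86, nat_lit 100, nat_lit 31281565⟩]⟩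
noncomputable def b_V_800_700_20_7 : St := ⟨true, nat_lit 0, nat_lit 1, nat_lit 1, nat_lit 120, nat_lit 320, nat_lit 360, nat_lit 280, nat_lit 300, nat_lit 320, nat_lit 360, nat_lit 80, nat_lit 120, nat_lit 160, nat_lit 240, nat_lit 16, nat_lit 336, nat_lit 0, nat_lit 40, nat_lit 0, nat_lit 0, nat_lit 800, nat_lit 0⟩
theorem d_V_800_700_20_7 (h : EB TB.env) : Dead b_V_800_700_20_7 := chkB_sound0 h (T :=
(.spl (nat_lit 4) (nat_lit 200)
(.leaf p093_l43)
(.trZ (nat_lit 9) (nat_lit 100) (nat_lit 80) (nat_lit 60) (nat_lit 40) (.spl (nat_lit 1) (nat_lit 290)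
(.spl (nat_lit 6) (nat_lit 20)
(.leaf p093_l44)
(.spl (nat_lit 1) (nat_lit 285)
(.spl (nat_lit 0) (nat_lit 340)
(.leaf p093_l45)
(.leaf p093_l46))
(.trX (nat_lit 19) (nat_lit 99) (nat_lit 82) (nat_lit 100) (nat_lit 332) (.spl (nat_lit 0) (nat_lit 340)
(.leaf p093_l47)
(.leaf p093_l48)))))
(.trX (nat_lit 19) (nat_lit 97) (nat_lit 84) (nat_lit 100) (nat_lit 328) (.spl (nat_lit 1) (nat_lit 295)
(.spl (nat_lit 6) (nat_lit 20)
(.leaf p093_l49)
(.spl (nat_lit 0) (nat_lit 340)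
(.leaf p093_l50)
(.leaf p093_l51)))
(.trX (nat_lit 19) (nat_lit 96) (nat_lit 86) (nat_lit 100) (nat_lit 324) (.leaf p093_l52)))))))) (by decide +kernel)
noncomputable def p093_l53 : Lf2 := ⟨nat_lit 0, nat_lit 5, [nat_lit 4, nat_lit 5, nat_lit 5, nat_lit 20], false, nat_lit 240, nat_lit 300, nat_lit 240, nat_lit 280, ⟨nat_lit 175, nat_lit 825, nat_lit 0, nat_lit 8, nat_lit 336, nat_lit 825, nat_lit 208, nat_lit 0, nat_lit 0, nat_lit 0, nat_lit 0, nat_lit 0, nat_lit 32519167, nat_lit 23683329, nat_lit 10797504, nat_lit 5465329, true, true⟩,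
 nat_lit 0, nat_lit 0, nat_lit 2246, nat_lit 0, nat_lit 3387, nat_lit 1429, nat_lit 0, nat_lit 0, nat_lit 0, nat_lit 94, nat_lit 0, nat_lit 0, nat_lit 0, nat_lit 0, nat_lit 0, nat_lit 825000, nat_lit 0, nat_lit 0, [(nat_lit 18, [(nat_lit 2, nat_lit 825)])],
 ⟨p093_k17, nat_lit 0, nat_lit 0, nat_lit 61, nat_lit 0, nat_lit 0, [nat_lit 1759640001, nat_lit 1682800001, nat_lit 728110000], [], [nat_lit 26776560570, nat_lit 27181464440, nat_lit 27624441922, nat_lit 28010308985, nat_lit 28527575751, nat_lit 28888793243, nat_lit 29283213685, nat_lit 29627829701], nat_lit 0, nat_lit 0, nat_lit 0, nat_lit 0, nat_lit 0, nat_lit 0, [], [nat_lit 6, nat_lit 40, nat_lit 40, nat_lit 80, nat_lit 3, nat_lit 203, nat_lit 0, nat_lit 5]⟩, ⟨p093_k18, nat_lit 0, nat_lit 0, nat_lit 387, nat_lit 0, nat_lit 839552, [nat_lit 574350000, nat_lit 1093750000, nat_lit 1394400000], [], [nat_lit 4882983528, nat_lit 4905752136, nat_lit 5016654000,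 nat_lit 5037610835, nat_lit 5020265040, nat_lit 5040484419, nat_lit 5150033452, nat_lit 5170584519], nat_lit 1271250, nat_lit 1271250, nat_lit 1271250, nat_lit 1271250, nat_lit 1271250, nat_lit 1271250, [nat_lit 780000, nat_lit 1435000, nat_lit 1271250], [nat_lit 18, nat_lit 40, nat_lit 40, nat_lit 80, nat_lit 2, nat_lit 213, nat_lit 0, nat_lit 5]⟩,
 ⟨nat_lit 4183, nat_lit 4473, ⟨.ofNat (nat_lit 824176), .ofNat (nat_lit 858166), .ofNat (nat_lit 829567), .ofNat (nat_lit 863556), .ofNat (nat_lit 818548), .ofNat (nat_lit 851677), .ofNat (nat_lit 823965), .ofNat (nat_lit 857092)⟩, ⟨.ofNat (nat_lit 460144), .ofNat (nat_lit 562111), .ofNat (nat_lit 481711), .ofNat (nat_lit 583678), .ofNat (nat_lit 457921), .ofNat (nat_lit 557304), .ofNat (nat_lit 479587), .ofNat (nat_lit 578971)⟩⟩, [⟨nat_lit 4, nat_lit 100, nat_lit 86, nat_lit 98, nat_lit 209085830⟩]⟩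
noncomputable def p093_l54 : Lf2 := ⟨nat_lit 0, nat_lit 5, [nat_lit 4, nat_lit 5, nat_lit 5, nat_lit 20], false, nat_lit 240, nat_lit 288, nat_lit 240, nat_lit 280, ⟨nat_lit 161, nat_lit 839, nat_lit 0, nat_lit 8, nat_lit 334, nat_lit 839, nat_lit 203, nat_lit 0, nat_lit 0, nat_lit 0, nat_lit 0, nat_lit 0, nat_lit 32903657, nat_lit 23633795, nat_lit 10462548, nat_lit 5430699, true, true⟩,
 nat_lit 0, nat_lit 0, nat_lit 2131, nat_lit 0, nat_lit 3332, nat_lit 1356, nat_lit 459, nat_lit 0, nat_lit 0, nat_lit 91, nat_lit 0, nat_lit 0, nat_lit 0, nat_lit 0, nat_lit 0, nat_lit 335600, nat_lit 0, nat_lit 0, [(nat_lit 18, [(nat_lit 1, nat_lit 839)])],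
 ⟨p093_k20, nat_lit 0, nat_lit 0, nat_lit 53, nat_lit 0, nat_lit 0, [nat_lit 1500185867, nat_lit 2379685333], [], [nat_lit 27119207825, nat_lit 27521892527, nat_lit 27943394063, nat_lit 28327261931, nat_lit 28481528961, nat_lit 28849659026, nat_lit 29234681503, nat_lit 29612131738], nat_lit 0, nat_lit 0, nat_lit 0, nat_lit 0, nat_lit 0, nat_lit 0, [], [nat_lit 24, nat_lit 40, nat_lit 40, nat_lit 80, nat_lit 33, nat_lit 203, nat_lit 0, nat_lit 6]⟩, ⟨p093_k18, nat_lit 0, nat_lit 0, nat_lit 434, nat_lit 0, nat_lit 967213, [nat_lit 528402000, nat_lit 1006250000, nat_lit 1282848000], [], [nat_lit 4453880810, nat_lit 4470899247, nat_lit 4556984200, nat_lit 4572564751, nat_lit 4553030659, nat_lit 4567809967, nat_lit 4645629292, nat_lit 4665445476], nat_lit 1271250, nat_lit 1271250, nat_lit 1271250, nat_lit 1271250, nat_lit 1271250, nat_lit 1271250, [nat_lit 780000, nat_lit 1435000, nat_lit 1271250], [nat_lit 18, nat_lit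 40, nat_lit 40, nat_lit 80, nat_lit 2, nat_lit 225, nat_lit 0, nat_lit 5]⟩,
 ⟨nat_lit 3872, nat_lit 4184, ⟨.ofNat (nat_lit 818552), .ofNat (nat_lit 851681), .ofNat (nat_lit 823967), .ofNat (nat_lit 857097), .ofNat (nat_lit 812989), .ofNat (nat_lit 845251), .ofNat (nat_lit 818436), .ofNat (nat_lit 850699)⟩, ⟨.ofNat (nat_lit 457921), .ofNat (nat_lit 537427), .ofNat (nat_lit 479587), .ofNat (nat_lit 559094), .ofNat (nat_lit 455554), .ofNat (nat_lit 532980), .ofNat (nat_lit 477347), .ofNat (nat_lit 554773)⟩⟩, [⟨nat_lit 4, nat_lit 100, nat_lit 79, nat_lit 96, nat_lit 228872622⟩]⟩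
noncomputable def b_V_800_700_20_8 : St := ⟨true, nat_lit 0, nat_lit 1, nat_lit 1, nat_lit 120, nat_lit 320, nat_lit 340, nat_lit 280, nat_lit 285, nat_lit 340, nat_lit 360, nat_lit 100, nat_lit 120, nat_lit 240, nat_lit 300, nat_lit 240, nat_lit 280, nat_lit 0, nat_lit 20, nat_lit 0, nat_lit 0, nat_lit 800, nat_lit 0⟩
theorem d_V_800_700_20_8 (h : EB TB.env) : Dead b_V_800_700_20_8 := chkB_sound0 h (T :=
(.spl (nat_lit 0) (nat_lit 330)
(.leaf p093_l53)
(.trX (nat_lit 16) (nat_lit 83) (nat_lit 98) (nat_lit 100) (nat_lit 288) (.leaf p093_l54)))) (by decide +kernel)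
noncomputable def p093_l55 : Lf2 := ⟨nat_lit 0, nat_lit 2, [nat_lit 10, nat_lit 5, nat_lit 5, nat_lit 20], false, nat_lit 240, nat_lit 280, nat_lit 280, nat_lit 336, ⟨nat_lit 143, nat_lit 857, nat_lit 0, nat_lit 8, nat_lit 336, nat_lit 857, nat_lit 201, nat_lit 0, nat_lit 0, nat_lit 0, nat_lit 0, nat_lit 0, nat_lit 32833896, nat_lit 23832332, nat_lit 10333772, nat_lit 5422834, true, true⟩,
 nat_lit 0, nat_lit 0, nat_lit 1771, nat_lit 0, nat_lit 3383, nat_lit 1127, nat_lit 0, nat_lit 0, nat_lit 0, nat_lit 0, nat_lit 0, nat_lit 0, nat_lit 0, nat_lit 0, nat_lit 0, nat_lit 830000, nat_lit 0, nat_lit 0, [(nat_lit 18, [(nat_lit 1, nat_lit 45), (nat_lit 2, nat_lit 812)])],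
 ⟨p093_k21, nat_lit 0, nat_lit 0, nat_lit 49, nat_lit 0, nat_lit 0, [nat_lit 1735407734, nat_lit 1585386666], [], [nat_lit 26659941112, nat_lit 27064683588, nat_lit 27507467680, nat_lit 27893189347, nat_lit 27827045998, nat_lit 28202688129, nat_lit 28613127658, nat_lit 28992895590], nat_lit 0, nat_lit 0, nat_lit 0, nat_lit 0, nat_lit 0, nat_lit 0, [], [nat_lit 24, nat_lit 40, nat_lit 40, nat_lit 80, nat_lit 33, nat_lit 203, nat_lit 0, nat_lit 6]⟩, ⟨p093_k22, nat_lit 0, nat_lit 0, nat_lit 329, nat_lit 0, nat_lit 810566, [nat_lit 469326000, nat_lit 893750000], [], [nat_lit 4219183276, nat_lit 4230071858, nat_lit 4325437880, nat_lit 4335471092, nat_lit 4423194069, nat_lit 4432052043, nat_lit 4513533571, nat_lit 4521634933], nat_lit 1271250, nat_lit 1271250, nat_lit 1271250, nat_lit 1271250, nat_lit 1271250, nat_lit 1271250, [nat_lit 780000, nat_lit 1435000], [nat_lit 49, nat_lit 40, nat_lit 40, nat_lit 80, nat_lit 16,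 nat_lit 205, nat_lit 0, nat_lit 5]⟩,
 ⟨nat_lit 4183, nat_lit 4473, ⟨.ofNat (nat_lit 824176), .ofNat (nat_lit 858166), .ofNat (nat_lit 827411), .ofNat (nat_lit 861400), .ofNat (nat_lit 818548), .ofNat (nat_lit 851677), .ofNat (nat_lit 821798), .ofNat (nat_lit 854926)⟩, ⟨.ofNat (nat_lit 460144), .ofNat (nat_lit 528122), .ofNat (nat_lit 481711), .ofNat (nat_lit 549689), .ofNat (nat_lit 457921), .ofNat (nat_lit 524176), .ofNat (nat_lit 479587), .ofNat (nat_lit 545843)⟩⟩, [⟨nat_lit 19, nat_lit 100, nat_lit 80, nat_lit 100, nat_lit 53386158⟩]⟩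
noncomputable def p093_l56 : Lf2 := ⟨nat_lit 0, nat_lit 1, [nat_lit 19, nat_lit 5, nat_lit 5, nat_lit 20], false, nat_lit 280, nat_lit 300, nat_lit 280, nat_lit 336, ⟨nat_lit 1000, nat_lit 0, nat_lit 0, nat_lit 0, nat_lit 0, nat_lit 0, nat_lit 0, nat_lit 0, nat_lit 0, nat_lit 0, nat_lit 0, nat_lit 0, nat_lit 0, nat_lit 0, nat_lit 0, nat_lit 0, false, false⟩,
 nat_lit 0, nat_lit 0, nat_lit 9764, nat_lit 0, nat_lit 4519, nat_lit 6213, nat_lit 0, nat_lit 0, nat_lit 0, nat_lit 0, nat_lit 0, nat_lit 0, nat_lit 0, nat_lit 0, nat_lit 0, nat_lit 0, nat_lit 0, nat_lit 0, [],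
 ⟨p093_k23, nat_lit 0, nat_lit 0, nat_lit 50, nat_lit 0, nat_lit 0, [nat_lit 2032000001, nat_lit 3282000000], [], [nat_lit 28676920351, nat_lit 29137113060, nat_lit 29647105356, nat_lit 30082398271, nat_lit 29359683767, nat_lit 29799312106, nat_lit 30286248356, nat_lit 30738693283], nat_lit 0, nat_lit 0, nat_lit 0, nat_lit 0, nat_lit 0, nat_lit 0, [], [nat_lit 112, nat_lit 40, nat_lit 40, nat_lit 80, nat_lit 113, nat_lit 203, nat_lit 0, nat_lit 7]⟩, ⟨p093_k24, nat_lit 0, nat_lit 0, nat_lit 292, nat_lit 0, nat_lit 805860, [nat_lit 3282000000, nat_lit 4688000000], [], [nat_lit 29600084089, nat_lit 29672793358, nat_lit 30262623742, nat_lit 30330709308, nat_lit 30961709640, nat_lit 31023335623, nat_lit 31670963574, nat_lit 31744207931], nat_lit 1271250, nat_lit 1271250, nat_lit 1271250, nat_lit 1271250, nat_lit 1271250, nat_lit 1271250, [nat_lit 780000, nat_lit 1100000], [nat_lit 40, nat_lit 40, nat_lit 40, nat_lit 80,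 nat_lit 22, nat_lit 203, nat_lit 0, nat_lit 6]⟩,
 zbF0, [⟨nat_lit 16, nat_lit 86, nat_lit 100, nat_lit 98, nat_lit 490165694⟩, ⟨nat_lit 19, nat_lit 100, nat_lit 80, nat_lit 100, nat_lit 378235266⟩]⟩
noncomputable def p093_l57 : Lf2 := ⟨nat_lit 0, nat_lit 2, [nat_lit 10, nat_lit 5, nat_lit 5, nat_lit 20], false, nat_lit 280, nat_lit 300, nat_lit 280, nat_lit 336, ⟨nat_lit 851, nat_lit 149, nat_lit 0, nat_lit 8, nat_lit 337, nat_lit 149, nat_lit 222, nat_lit 0, nat_lit 0, nat_lit 0, nat_lit 0, nat_lit 0, nat_lit 31913244, nat_lit 23311842, nat_lit 11774914, nat_lit 5546316, true, true⟩,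
 nat_lit 0, nat_lit 0, nat_lit 10559, nat_lit 0, nat_lit 5150, nat_lit 6719, nat_lit 0, nat_lit 0, nat_lit 0, nat_lit 0, nat_lit 0, nat_lit 0, nat_lit 0, nat_lit 0, nat_lit 0, nat_lit 149000, nat_lit 0, nat_lit 0, [(nat_lit 18, [(nat_lit 2, nat_lit 149)])],
 ⟨p093_k21, nat_lit 0, nat_lit 0, nat_lit 50, nat_lit 0, nat_lit 0, [nat_lit 1982810134, nat_lit 4099152000], [], [nat_lit 29275186650, nat_lit 29505111732, nat_lit 30246535900, nat_lit 30463548750, nat_lit 29941363225, nat_lit 30160607622, nat_lit 30882030550, nat_lit 31120532175], nat_lit 0, nat_lit 0, nat_lit 0, nat_lit 0, nat_lit 0, nat_lit 0, [], [nat_lit 24, nat_lit 40, nat_lit 40, nat_lit 80, nat_lit 33, nat_lit 203, nat_lit 0, nat_lit 6]⟩, ⟨p093_k22, nat_lit 0, nat_lit 0, nat_lit 269, nat_lit 0, nat_lit 658971, [nat_lit 2792982000, nat_lit 5318750000], [], [nat_lit 25073091892, nat_lit 25137910846, nat_lit 25705874000, nat_lit 25765594894, nat_lit 26287560755,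 nat_lit 26340277351, nat_lit 26825487897, nat_lit 26875680372], nat_lit 1271250, nat_lit 1271250, nat_lit 1271250, nat_lit 1271250, nat_lit 1271250, nat_lit 1271250, [nat_lit 780000, nat_lit 1435000], [nat_lit 49, nat_lit 40, nat_lit 40, nat_lit 80, nat_lit 16, nat_lit 203, nat_lit 0, nat_lit 5]⟩,
 ⟨nat_lit 4330, nat_lit 4473, ⟨.ofNat (nat_lit 824185), .ofNat (nat_lit 858175), .ofNat (nat_lit 827420), .ofNat (nat_lit 861409), .ofNat (nat_lit 821362), .ofNat (nat_lit 854921), .ofNat (nat_lit 824604), .ofNat (nat_lit 858163)⟩, ⟨.ofNat (nat_lit 528122), .ofNat (nat_lit 562111), .ofNat (nat_lit 549689), .ofNat (nat_lit 583678), .ofNat (nat_lit 526166), .ofNat (nat_lit 559724), .ofNat (nat_lit 547779), .ofNat (nat_lit 581338)⟩⟩, [⟨nat_lit 16, nat_lit 87, nat_lit 95, nat_lit 100, nat_lit 418980817⟩, ⟨nat_lit 19, nat_lit 100, nat_lit 80, nat_lit 100, nat_lit 318285215⟩]⟩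
noncomputable def p093_l58 : Lf2 := ⟨nat_lit 0, nat_lit 2, [nat_lit 10, nat_lit 5, nat_lit 5, nat_lit 20], false, nat_lit 280, nat_lit 296, nat_lit 280, nat_lit 336, ⟨nat_lit 158, nat_lit 842, nat_lit 0, nat_lit 8, nat_lit 335, nat_lit 842, nat_lit 220, nat_lit 0, nat_lit 0, nat_lit 0, nat_lit 0, nat_lit 0, nat_lit 32109570, nat_lit 23241743, nat_lit 11648687, nat_lit 5533290, true, true⟩,
 nat_lit 0, nat_lit 0, nat_lit 1968, nat_lit 0, nat_lit 3403, nat_lit 1252, nat_lit 0, nat_lit 0, nat_lit 0, nat_lit 0, nat_lit 0, nat_lit 0, nat_lit 0, nat_lit 0, nat_lit 0, nat_lit 836600, nat_lit 0, nat_lit 0, [(nat_lit 18, [(nat_lit 1, nat_lit 9), (nat_lit 2, nat_lit 833)])],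
 ⟨p093_k25, nat_lit 0, nat_lit 0, nat_lit 51, nat_lit 0, nat_lit 0, [nat_lit 1751294134, nat_lit 1604518666], [], [nat_lit 28026291301, nat_lit 28214456084, nat_lit 28814800090, nat_lit 29010573070, nat_lit 28487766415, nat_lit 28670087222, nat_lit 29308655617, nat_lit 29515344795], nat_lit 0, nat_lit 0, nat_lit 0, nat_lit 0, nat_lit 0, nat_lit 0, [], [nat_lit 24, nat_lit 40, nat_lit 40, nat_lit 80, nat_lit 33, nat_lit 203, nat_lit 0, nat_lit 6]⟩, ⟨p093_k22, nat_lit 0, nat_lit 0, nat_lit 295, nat_lit 0, nat_lit 704594, [nat_lit 518556000, nat_lit 987500000], [], [nat_lit 4641979036, nat_lit 4645993087, nat_lit 4759633300, nat_lit 4763330887, nat_lit 4867607339, nat_lit 4870870155, nat_lit 4970020682, nat_lit 4974078737], nat_lit 1271250, nat_lit 1271250, nat_lit 1271250, nat_lit 1271250, nat_lit 1271250, nat_lit 1271250, [nat_lit 780000, nat_lit 1435000], [nat_lit 49, nat_lit 40, nat_lit 40, nat_lit 80, nat_lit 16,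 nat_lit 203, nat_lit 0, nat_lit 5]⟩,
 ⟨nat_lit 4183, nat_lit 4331, ⟨.ofNat (nat_lit 821362), .ofNat (nat_lit 854921), .ofNat (nat_lit 822443), .ofNat (nat_lit 856002), .ofNat (nat_lit 818558), .ofNat (nat_lit 851686), .ofNat (nat_lit 819641), .ofNat (nat_lit 852769)⟩, ⟨.ofNat (nat_lit 526166), .ofNat (nat_lit 553013), .ofNat (nat_lit 547779), .ofNat (nat_lit 574626), .ofNat (nat_lit 524176), .ofNat (nat_lit 550678), .ofNat (nat_lit 545843), .ofNat (nat_lit 572345)⟩⟩, [⟨nat_lit 16, nat_lit 85, nat_lit 97, nat_lit 100, nat_lit 234347033⟩, ⟨nat_lit 19, nat_lit 100, nat_lit 80, nat_lit 100, nat_lit 59360764⟩]⟩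
noncomputable def p093_l59 : Lf2 := ⟨nat_lit 0, nat_lit 2, [nat_lit 10, nat_lit 5, nat_lit 5, nat_lit 20], false, nat_lit 280, nat_lit 296, nat_lit 280, nat_lit 336, ⟨nat_lit 374, nat_lit 626, nat_lit 0, nat_lit 8, nat_lit 336, nat_lit 626, nat_lit 220, nat_lit 0, nat_lit 0, nat_lit 0, nat_lit 0, nat_lit 0, nat_lit 32060404, nat_lit 23291024, nat_lit 11648572, nat_lit 5534580, true, true⟩,
 nat_lit 0, nat_lit 0, nat_lit 4616, nat_lit 0, nat_lit 3797, nat_lit 2950, nat_lit 0, nat_lit 0, nat_lit 0, nat_lit 0, nat_lit 0, nat_lit 0, nat_lit 0, nat_lit 0, nat_lit 0, nat_lit 626000, nat_lit 0, nat_lit 0, [(nat_lit 18, [(nat_lit 2, nat_lit 626)])],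
 ⟨p093_k25, nat_lit 0, nat_lit 0, nat_lit 50, nat_lit 0, nat_lit 0, [nat_lit 1825336534, nat_lit 2349346666], [], [nat_lit 28380356700, nat_lit 28497318310, nat_lit 29188458172, nat_lit 29299748302, nat_lit 28850760426, nat_lit 28963933070, nat_lit 29685688164, nat_lit 29814332605], nat_lit 0, nat_lit 0, nat_lit 0, nat_lit 0, nat_lit 0, nat_lit 0, [], [nat_lit 24, nat_lit 40, nat_lit 40, nat_lit 80, nat_lit 33, nat_lit 203, nat_lit 0, nat_lit 6]⟩, ⟨p093_k26, nat_lit 0, nat_lit 0, nat_lit 283, nat_lit 0, nat_lit 683376, [nat_lit 1227468000, nat_lit 2337500000], [], [nat_lit 11037104607, nat_lit 11046598597, nat_lit 11314347235, nat_lit 11323094998, nat_lit 11568978828, nat_lit 11576701323, nat_lit 11804654491, nat_lit 11811716919], nat_lit 1271250, nat_lit 1271250, nat_lit 1271250, nat_lit 1271250, nat_lit 1271250, nat_lit 1271250, [nat_lit 780000, nat_lit 1435000], [nat_lit 49, nat_lit 40, nat_lit 40, nat_lit 80,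 nat_lit 16, nat_lit 203, nat_lit 0, nat_lit 5]⟩,
 ⟨nat_lit 4242, nat_lit 4331, ⟨.ofNat (nat_lit 822444), .ofNat (nat_lit 856003), .ofNat (nat_lit 823525), .ofNat (nat_lit 857084), .ofNat (nat_lit 820761), .ofNat (nat_lit 854061), .ofNat (nat_lit 821843), .ofNat (nat_lit 855144)⟩, ⟨.ofNat (nat_lit 526166), .ofNat (nat_lit 553013), .ofNat (nat_lit 547779), .ofNat (nat_lit 574626), .ofNat (nat_lit 524976), .ofNat (nat_lit 551616), .ofNat (nat_lit 546621), .ofNat (nat_lit 573261)⟩⟩, [⟨nat_lit 16, nat_lit 85, nat_lit 97, nat_lit 100, nat_lit 278573721⟩, ⟨nat_lit 19, nat_lit 100, nat_lit 80, nat_lit 100, nat_lit 139810239⟩]⟩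
noncomputable def p093_l60 : Lf2 := ⟨nat_lit 0, nat_lit 2, [nat_lit 10, nat_lit 5, nat_lit 5, nat_lit 20], false, nat_lit 280, nat_lit 292, nat_lit 280, nat_lit 336, ⟨nat_lit 303, nat_lit 697, nat_lit 0, nat_lit 8, nat_lit 335, nat_lit 697, nat_lit 218, nat_lit 0, nat_lit 0, nat_lit 0, nat_lit 0, nat_lit 0, nat_lit 32173737, nat_lit 23291525, nat_lit 11534738, nat_lit 5524360, true, true⟩,
 nat_lit 0, nat_lit 0, nat_lit 3742, nat_lit 0, nat_lit 3193, nat_lit 2391, nat_lit 1395, nat_lit 0, nat_lit 0, nat_lit 0, nat_lit 0, nat_lit 0, nat_lit 0, nat_lit 0, nat_lit 0, nat_lit 278800, nat_lit 0, nat_lit 0, [(nat_lit 18, [(nat_lit 1, nat_lit 697)])],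
 ⟨p093_k27, nat_lit 0, nat_lit 0, nat_lit 50, nat_lit 0, nat_lit 0, [nat_lit 1590194934, nat_lit 2746655689], [], [nat_lit 27992598155, nat_lit 28066420454, nat_lit 28759612778, nat_lit 28836375530, nat_lit 28332618483, nat_lit 28404762897, nat_lit 29110985840, nat_lit 29185979209], nat_lit 0, nat_lit 0, nat_lit 0, nat_lit 0, nat_lit 0, nat_lit 0, [], [nat_lit 24, nat_lit 40, nat_lit 40, nat_lit 80, nat_lit 33, nat_lit 203, nat_lit 0, nat_lit 6]⟩, ⟨p093_k26, nat_lit 0, nat_lit 0, nat_lit 297, nat_lit 0, nat_lit 707478, [nat_lit 994446000, nat_lit 1893750000], [], [nat_lit 8938832595, nat_lit 8946524826, nat_lit 9163481843, nat_lit 9170569293, nat_lit 9369768496, nat_lit 9376025023, nat_lit 9560729757, nat_lit 9566451333], nat_lit 1271250, nat_lit 1271250, nat_lit 1271250, nat_lit 1271250, nat_lit 1271250, nat_lit 1271250, [nat_lit 780000, nat_lit 1435000], [nat_lit 49, nat_lit 40, nat_lit 40, nat_lit 80, nat_lit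 16, nat_lit 203, nat_lit 0, nat_lit 5]⟩,
 ⟨nat_lit 4183, nat_lit 4243, ⟨.ofNat (nat_lit 820762), .ofNat (nat_lit 854062), .ofNat (nat_lit 821844), .ofNat (nat_lit 855144), .ofNat (nat_lit 819643), .ofNat (nat_lit 852771), .ofNat (nat_lit 820726), .ofNat (nat_lit 853854)⟩, ⟨.ofNat (nat_lit 524976), .ofNat (nat_lit 544956), .ofNat (nat_lit 546621), .ofNat (nat_lit 566601), .ofNat (nat_lit 524176), .ofNat (nat_lit 544053), .ofNat (nat_lit 545843), .ofNat (nat_lit 565720)⟩⟩, [⟨nat_lit 16, nat_lit 84, nat_lit 98, nat_lit 100, nat_lit 250467172⟩, ⟨nat_lit 19, nat_lit 100, nat_lit 80, nat_lit 100, nat_lit 113315548⟩]⟩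
noncomputable def p093_l61 : Lf2 := ⟨nat_lit 0, nat_lit 2, [nat_lit 10, nat_lit 5, nat_lit 5, nat_lit 20], false, nat_lit 280, nat_lit 296, nat_lit 280, nat_lit 336, ⟨nat_lit 374, nat_lit 626, nat_lit 0, nat_lit 8, nat_lit 336, nat_lit 626, nat_lit 220, nat_lit 0, nat_lit 0, nat_lit 0, nat_lit 0, nat_lit 0, nat_lit 32033639, nat_lit 23325701, nat_lit 11640660, nat_lit 5534779, true, true⟩,
 nat_lit 0, nat_lit 0, nat_lit 4306, nat_lit 0, nat_lit 3797, nat_lit 2763, nat_lit 0, nat_lit 0, nat_lit 0, nat_lit 1300, nat_lit 0, nat_lit 0, nat_lit 0, nat_lit 0, nat_lit 0, nat_lit 626000, nat_lit 0, nat_lit 0, [(nat_lit 18, [(nat_lit 2, nat_lit 626)])],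
 ⟨p093_k25, nat_lit 0, nat_lit 0, nat_lit 50, nat_lit 0, nat_lit 0, [nat_lit 1825336534, nat_lit 2349346666], [], [nat_lit 28380356700, nat_lit 28497318310, nat_lit 29188458172, nat_lit 29299748302, nat_lit 28850760426, nat_lit 28963933070, nat_lit 29685688164, nat_lit 29814332605], nat_lit 0, nat_lit 0, nat_lit 0, nat_lit 0, nat_lit 0, nat_lit 0, [], [nat_lit 24, nat_lit 40, nat_lit 40, nat_lit 80, nat_lit 33, nat_lit 203, nat_lit 0, nat_lit 6]⟩, ⟨p093_k28, nat_lit 0, nat_lit 0, nat_lit 284, nat_lit 0, nat_lit 686450, [nat_lit 1227468000, nat_lit 2337500000], [], [nat_lit 10945634533, nat_lit 10955023658, nat_lit 11215205642, nat_lit 11223888029, nat_lit 11469919149, nat_lit 11477629560, nat_lit 11700203981, nat_lit 11707289051], nat_lit 1271250, nat_lit 1271250, nat_lit 1271250, nat_lit 1271250, nat_lit 1271250, nat_lit 1271250, [nat_lit 780000, nat_lit 1435000], [nat_lit 49, nat_lit 40, nat_lit 40, nat_lit 80,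 nat_lit 16, nat_lit 203, nat_lit 0, nat_lit 5]⟩,
 ⟨nat_lit 4242, nat_lit 4331, ⟨.ofNat (nat_lit 823525), .ofNat (nat_lit 857084), .ofNat (nat_lit 824606), .ofNat (nat_lit 858165), .ofNat (nat_lit 821843), .ofNat (nat_lit 855144), .ofNat (nat_lit 822926), .ofNat (nat_lit 856226)⟩, ⟨.ofNat (nat_lit 526166), .ofNat (nat_lit 553013), .ofNat (nat_lit 547779), .ofNat (nat_lit 574626), .ofNat (nat_lit 524976), .ofNat (nat_lit 551616), .ofNat (nat_lit 546621), .ofNat (nat_lit 573261)⟩⟩, [⟨nat_lit 16, nat_lit 85, nat_lit 97, nat_lit 100, nat_lit 278625493⟩, ⟨nat_lit 19, nat_lit 100, nat_lit 81, nat_lit 100, nat_lit 139344622⟩]⟩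
noncomputable def p093_l62 : Lf2 := ⟨nat_lit 0, nat_lit 2, [nat_lit 10, nat_lit 5, nat_lit 5, nat_lit 20], false, nat_lit 280, nat_lit 292, nat_lit 280, nat_lit 336, ⟨nat_lit 700, nat_lit 300, nat_lit 0, nat_lit 8, nat_lit 335, nat_lit 300, nat_lit 218, nat_lit 0, nat_lit 0, nat_lit 0, nat_lit 0, nat_lit 0, nat_lit 32135661, nat_lit 23333641, nat_lit 11530698, nat_lit 5525105, true, true⟩,
 nat_lit 0, nat_lit 0, nat_lit 8271, nat_lit 0, nat_lit 3499, nat_lit 5308, nat_lit 2139, nat_lit 0, nat_lit 0, nat_lit 1541, nat_lit 0, nat_lit 0, nat_lit 0, nat_lit 0, nat_lit 0, nat_lit 120000, nat_lit 0, nat_lit 0, [(nat_lit 18, [(nat_lit 1, nat_lit 300)])],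
 ⟨p093_k27, nat_lit 0, nat_lit 0, nat_lit 50, nat_lit 0, nat_lit 0, [nat_lit 1841840001, nat_lit 3846320000], [], [nat_lit 28253697173, nat_lit 28291660098, nat_lit 29044991132, nat_lit 29084499200, nat_lit 28598753705, nat_lit 28635822821, nat_lit 29401837346, nat_lit 29440402779], nat_lit 0, nat_lit 0, nat_lit 0, nat_lit 0, nat_lit 0, nat_lit 0, [], [nat_lit 24, nat_lit 40, nat_lit 40, nat_lit 80, nat_lit 33, nat_lit 203, nat_lit 0, nat_lit 6]⟩, ⟨p093_k28, nat_lit 0, nat_lit 0, nat_lit 291, nat_lit 0, nat_lit 698368, [nat_lit 2297400000, nat_lit 4375000000], [], [nat_lit 20531650354, nat_lit 20549300190, nat_lit 21041254363, nat_lit 21057552580, nat_lit 21517182041, nat_lit 21531622120, nat_lit 21951652411, nat_lit 21966388307], nat_lit 1271250, nat_lit 1271250, nat_lit 1271250, nat_lit 1271250, nat_lit 1271250, nat_lit 1271250, [nat_lit 780000, nat_lit 1435000], [nat_lit 49, nat_lit 40, nat_lit 40, nat_lit 80,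 nat_lit 16, nat_lit 203, nat_lit 0, nat_lit 5]⟩,
 ⟨nat_lit 4213, nat_lit 4243, ⟨.ofNat (nat_lit 821844), .ofNat (nat_lit 855144), .ofNat (nat_lit 822926), .ofNat (nat_lit 856227), .ofNat (nat_lit 821285), .ofNat (nat_lit 854499), .ofNat (nat_lit 822368), .ofNat (nat_lit 855582)⟩, ⟨.ofNat (nat_lit 524976), .ofNat (nat_lit 544956), .ofNat (nat_lit 546621), .ofNat (nat_lit 566601), .ofNat (nat_lit 524577), .ofNat (nat_lit 544505), .ofNat (nat_lit 546233), .ofNat (nat_lit 566161)⟩⟩, [⟨nat_lit 16, nat_lit 84, nat_lit 98, nat_lit 100, nat_lit 377337150⟩, ⟨nat_lit 19, nat_lit 100, nat_lit 81, nat_lit 100, nat_lit 261472422⟩]⟩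
noncomputable def p093_l63 : Lf2 := ⟨nat_lit 0, nat_lit 2, [nat_lit 10, nat_lit 5, nat_lit 5, nat_lit 20], false, nat_lit 280, nat_lit 292, nat_lit 280, nat_lit 336, ⟨nat_lit 796, nat_lit 204, nat_lit 0, nat_lit 8, nat_lit 335, nat_lit 204, nat_lit 218, nat_lit 0, nat_lit 0, nat_lit 0, nat_lit 0, nat_lit 0, nat_lit 32157892, nat_lit 23318995, nat_lit 11523113, nat_lit 5524034, true, true⟩,
 nat_lit 0, nat_lit 0, nat_lit 9036, nat_lit 0, nat_lit 3881, nat_lit 5800, nat_lit 669, nat_lit 0, nat_lit 0, nat_lit 3413, nat_lit 0, nat_lit 0, nat_lit 0, nat_lit 0, nat_lit 0, nat_lit 81600, nat_lit 0, nat_lit 0, [(nat_lit 18, [(nat_lit 1, nat_lit 204)])],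
 ⟨p093_k29, nat_lit 0, nat_lit 0, nat_lit 49, nat_lit 0, nat_lit 0, [nat_lit 1894096000, nat_lit 2955681600], [], [nat_lit 28577002223, nat_lit 28618311089, nat_lit 29451198826, nat_lit 29492383755, nat_lit 28946262907, nat_lit 28986549005, nat_lit 29813494743, nat_lit 29853643774], nat_lit 0, nat_lit 0, nat_lit 0, nat_lit 0, nat_lit 0, nat_lit 0, [], [nat_lit 112, nat_lit 40, nat_lit 40, nat_lit 80, nat_lit 113, nat_lit 203, nat_lit 0, nat_lit 7]⟩, ⟨p093_k28, nat_lit 0, nat_lit 0, nat_lit 298, nat_lit 0, nat_lit 710317, [nat_lit 2612472000, nat_lit 4975000000], [], [nat_lit 23209918425, nat_lit 23229856493, nat_lit 23780672736, nat_lit 23799123647, nat_lit 24323267524, nat_lit 24339672709, nat_lit 24811353183, nat_lit 24827784861], nat_lit 1271250, nat_lit 1271250, nat_lit 1271250, nat_lit 1271250, nat_lit 1271250, nat_lit 1271250, [nat_lit 780000, nat_lit 1435000], [nat_lit 49, nat_lit 40, nat_lit 40, nat_lit 80,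 nat_lit 16, nat_lit 203, nat_lit 0, nat_lit 5]⟩,
 ⟨nat_lit 4183, nat_lit 4214, ⟨.ofNat (nat_lit 821285), .ofNat (nat_lit 854499), .ofNat (nat_lit 822368), .ofNat (nat_lit 855582), .ofNat (nat_lit 820727), .ofNat (nat_lit 853854), .ofNat (nat_lit 821810), .ofNat (nat_lit 854938)⟩, ⟨.ofNat (nat_lit 524577), .ofNat (nat_lit 544505), .ofNat (nat_lit 546233), .ofNat (nat_lit 566161), .ofNat (nat_lit 524176), .ofNat (nat_lit 544053), .ofNat (nat_lit 545843), .ofNat (nat_lit 565720)⟩⟩, [⟨nat_lit 16, nat_lit 83, nat_lit 98, nat_lit 100, nat_lit 418892116⟩, ⟨nat_lit 19, nat_lit 100, nat_lit 81, nat_lit 100, nat_lit 296865966⟩]⟩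
noncomputable def p093_l64 : Lf2 := ⟨nat_lit 0, nat_lit 2, [nat_lit 10, nat_lit 5, nat_lit 5, nat_lit 20], false, nat_lit 240, nat_lit 300, nat_lit 280, nat_lit 336, ⟨nat_lit 1000, nat_lit 0, nat_lit 0, nat_lit 0, nat_lit 0, nat_lit 0, nat_lit 0, nat_lit 0, nat_lit 0, nat_lit 0, nat_lit 0, nat_lit 0, nat_lit 0, nat_lit 0, nat_lit 0, nat_lit 0, false, false⟩,
 nat_lit 0, nat_lit 0, nat_lit 10553, nat_lit 0, nat_lit 5546, nat_lit 6802, nat_lit 0, nat_lit 0, nat_lit 0, nat_lit 5305, nat_lit 0, nat_lit 0, nat_lit 0, nat_lit 0, nat_lit 0, nat_lit 0, nat_lit 0, nat_lit 0, [],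
 ⟨p093_k21, nat_lit 0, nat_lit 0, nat_lit 51, nat_lit 0, nat_lit 0, [nat_lit 2032000001, nat_lit 4688000000], [], [nat_lit 28329297780, nat_lit 28849162416, nat_lit 29429194712, nat_lit 29918975518, nat_lit 30366699459, nat_lit 30818649729, nat_lit 31322681858, nat_lit 31748591197], nat_lit 0, nat_lit 0, nat_lit 0, nat_lit 0, nat_lit 0, nat_lit 0, [], [nat_lit 24, nat_lit 40, nat_lit 40, nat_lit 80, nat_lit 33, nat_lit 203, nat_lit 0, nat_lit 6]⟩, ⟨p093_k30, nat_lit 0, nat_lit 0, nat_lit 328, nat_lit 0, nat_lit 810057, [nat_lit 3282000000, nat_lit 6250000000], [], [nat_lit 28547501764, nat_lit 28597054097, nat_lit 29244823514, nat_lit 29290843872, nat_lit 29926911511, nat_lit 29968067961, nat_lit 30644947263, nat_lit 30695177873], nat_lit 1271250, nat_lit 1271250, nat_lit 1271250, nat_lit 1271250, nat_lit 1271250, nat_lit 1271250, [nat_lit 780000, nat_lit 1435000], [nat_lit 49, nat_lit 40, nat_lit 40, nat_lit 80,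 nat_lit 16, nat_lit 205, nat_lit 0, nat_lit 5]⟩,
 zbF0, [⟨nat_lit 4, nat_lit 100, nat_lit 86, nat_lit 98, nat_lit 464634631⟩, ⟨nat_lit 19, nat_lit 99, nat_lit 81, nat_lit 100, nat_lit 383903466⟩]⟩
noncomputable def p093_l65 : Lf2 := ⟨nat_lit 0, nat_lit 2, [nat_lit 10, nat_lit 5, nat_lit 5, nat_lit 20], false, nat_lit 240, nat_lit 288, nat_lit 280, nat_lit 336, ⟨nat_lit 69, nat_lit 931, nat_lit 0, nat_lit 8, nat_lit 334, nat_lit 931, nat_lit 203, nat_lit 0, nat_lit 0, nat_lit 0, nat_lit 0, nat_lit 0, nat_lit 32903657, nat_lit 23633795, nat_lit 10462548, nat_lit 5430699, true, true⟩,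
 nat_lit 0, nat_lit 0, nat_lit 872, nat_lit 0, nat_lit 3182, nat_lit 554, nat_lit 0, nat_lit 0, nat_lit 0, nat_lit 0, nat_lit 0, nat_lit 0, nat_lit 0, nat_lit 0, nat_lit 0, nat_lit 372400, nat_lit 0, nat_lit 0, [(nat_lit 18, [(nat_lit 1, nat_lit 931)])],
 ⟨p093_k31, nat_lit 0, nat_lit 0, nat_lit 51, nat_lit 0, nat_lit 0, [nat_lit 1402644001, nat_lit 1792772400], [], [nat_lit 26853743091, nat_lit 27269953465, nat_lit 27705612027, nat_lit 28102374213, nat_lit 28272937320, nat_lit 28653583021, nat_lit 29051643834, nat_lit 29461532218], nat_lit 0, nat_lit 0, nat_lit 0, nat_lit 0, nat_lit 0, nat_lit 0, [], [nat_lit 112, nat_lit 40, nat_lit 40, nat_lit 80, nat_lit 113, nat_lit 203, nat_lit 0, nat_lit 7]⟩, ⟨p093_k22, nat_lit 0, nat_lit 0, nat_lit 379, nat_lit 0, nat_lit 950889, [nat_lit 226458000, nat_lit 431250000], [], [nat_lit 2058909941, nat_lit 2065257261, nat_lit 2098055388, nat_lit 2103852828, nat_lit 2130440083,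 nat_lit 2135470733, nat_lit 2163442659, nat_lit 2167982118], nat_lit 1271250, nat_lit 1271250, nat_lit 1271250, nat_lit 1271250, nat_lit 1271250, nat_lit 1271250, [nat_lit 780000, nat_lit 1435000], [nat_lit 49, nat_lit 40, nat_lit 40, nat_lit 80, nat_lit 16, nat_lit 218, nat_lit 0, nat_lit 6]⟩,
 ⟨nat_lit 3872, nat_lit 4184, ⟨.ofNat (nat_lit 818552), .ofNat (nat_lit 851681), .ofNat (nat_lit 823967), .ofNat (nat_lit 857097), .ofNat (nat_lit 812989), .ofNat (nat_lit 845251), .ofNat (nat_lit 818436), .ofNat (nat_lit 850699)⟩, ⟨.ofNat (nat_lit 457921), .ofNat (nat_lit 537427), .ofNat (nat_lit 479587), .ofNat (nat_lit 559094), .ofNat (nat_lit 455554), .ofNat (nat_lit 532980), .ofNat (nat_lit 477347), .ofNat (nat_lit 554773)⟩⟩, [⟨nat_lit 16, nat_lit 83, nat_lit 98, nat_lit 100, nat_lit 188141379⟩, ⟨nat_lit 19, nat_lit 100, nat_lit 80, nat_lit 100, nat_lit 23522667⟩]⟩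
noncomputable def b_V_800_700_20_9 : St := ⟨true, nat_lit 0, nat_lit 1, nat_lit 1, nat_lit 120, nat_lit 320, nat_lit 340, nat_lit 280, nat_lit 285, nat_lit 340, nat_lit 360, nat_lit 100, nat_lit 120, nat_lit 240, nat_lit 300, nat_lit 280, nat_lit 336, nat_lit 0, nat_lit 8, nat_lit 0, nat_lit 0, nat_lit 800, nat_lit 0⟩
theorem d_V_800_700_20_9 (h : EB TB.env) : Dead b_V_800_700_20_9 := chkB_sound0 h (T :=
(.spl (nat_lit 0) (nat_lit 330)
(.spl (nat_lit 1) (nat_lit 283)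
(.spl (nat_lit 4) (nat_lit 280)
(.leaf p093_l55)
(.spl (nat_lit 6) (nat_lit 4)
(.leaf p093_l56)
(.spl (nat_lit 0) (nat_lit 325)
(.leaf p093_l57)
(.trX (nat_lit 16) (nat_lit 85) (nat_lit 97) (nat_lit 100) (nat_lit 296) (.spl (nat_lit 1) (nat_lit 282)
(.spl (nat_lit 1) (nat_lit 281)
(.leaf p093_l58)
(.spl (nat_lit 0) (nat_lit 328)
(.leaf p093_l59)
(.trX (nat_lit 16) (nat_lit 84) (nat_lit 98) (nat_lit 100) (nat_lit 292) (.leaf p093_l60))))
(.spl (nat_lit 0) (nat_lit 328)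
(.leaf p093_l61)
(.trX (nat_lit 16) (nat_lit 84) (nat_lit 98) (nat_lit 100) (nat_lit 292) (.spl (nat_lit 0) (nat_lit 329)
(.leaf p093_l62)
(.leaf p093_l63)))))))))
(.leaf p093_l64))
(.trX (nat_lit 16) (nat_lit 83) (nat_lit 98) (nat_lit 100) (nat_lit 288) (.leaf p093_l65)))) (by decide +kernel)
noncomputable def p093_l66 : Lf2 := ⟨nat_lit 0, nat_lit 4, [nat_lit 38, nat_lit 5, nat_lit 5, nat_lit 20], false, nat_lit 240, nat_lit 300, nat_lit 280, nat_lit 336, ⟨nat_lit 1000, nat_lit 0, nat_lit 0, nat_lit 0, nat_lit 0, nat_lit 0, nat_lit 0, nat_lit 0, nat_lit 0, nat_lit 0, nat_lit 0, nat_lit 0, nat_lit 0, nat_lit 0, nat_lit 0, nat_lit 0, false, false⟩,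
 nat_lit 0, nat_lit 0, nat_lit 12524, nat_lit 0, nat_lit 5546, nat_lit 7969, nat_lit 0, nat_lit 0, nat_lit 0, nat_lit 0, nat_lit 0, nat_lit 0, nat_lit 0, nat_lit 0, nat_lit 0, nat_lit 0, nat_lit 0, nat_lit 0, [],
 ⟨p093_k32, nat_lit 0, nat_lit 0, nat_lit 51, nat_lit 0, nat_lit 0, [nat_lit 2032000001, nat_lit 4688000000], [], [nat_lit 28329297780, nat_lit 28849162416, nat_lit 29429194712, nat_lit 29918975518, nat_lit 30366699459, nat_lit 30818649729, nat_lit 31322681858, nat_lit 31748591197], nat_lit 0, nat_lit 0, nat_lit 0, nat_lit 0, nat_lit 0, nat_lit 0, [], [nat_lit 24, nat_lit 40, nat_lit 40, nat_lit 80, nat_lit 33, nat_lit 203, nat_lit 0, nat_lit 6]⟩, ⟨p093_k33, nat_lit 0, nat_lit 0, nat_lit 271, nat_lit 0, nat_lit 662870, [nat_lit 3282000000, nat_lit 6250000000], [], [nat_lit 29248567958, nat_lit 29375720913, nat_lit 29994898822, nat_lit 30111989634, nat_lit 30678038297, nat_lit 30781306481, nat_lit 31379757164,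 nat_lit 31508290519], nat_lit 1271250, nat_lit 1271250, nat_lit 1271250, nat_lit 1271250, nat_lit 1271250, nat_lit 1271250, [nat_lit 780000, nat_lit 1435000], [nat_lit 49, nat_lit 40, nat_lit 40, nat_lit 80, nat_lit 16, nat_lit 203, nat_lit 0, nat_lit 5]⟩,
 zbF0, [⟨nat_lit 4, nat_lit 100, nat_lit 86, nat_lit 98, nat_lit 464634631⟩, ⟨nat_lit 19, nat_lit 100, nat_lit 80, nat_lit 100, nat_lit 382421924⟩]⟩
noncomputable def p093_l67 : Lf2 := ⟨nat_lit 0, nat_lit 4, [nat_lit 38, nat_lit 5, nat_lit 5, nat_lit 20], true, nat_lit 240, nat_lit 260, nat_lit 280, nat_lit 336, ⟨nat_lit 0, nat_lit 1000, nat_lit 0, nat_lit 8, nat_lit 334, nat_lit 1000, nat_lit 194, nat_lit 0, nat_lit 0, nat_lit 0, nat_lit 0, nat_lit 0, nat_lit 33296715, nat_lit 23880997, nat_lit 9822288, nat_lit 5370232, true, true⟩,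
 nat_lit 0, nat_lit 0, nat_lit 0, nat_lit 0, nat_lit 3663, nat_lit 0, nat_lit 0, nat_lit 0, nat_lit 0, nat_lit 0, nat_lit 0, nat_lit 0, nat_lit 0, nat_lit 0, nat_lit 0, nat_lit 250000, nat_lit 0, nat_lit 0, [(nat_lit 18, [(nat_lit 0, nat_lit 1000)])],
 ⟨p093_k34, nat_lit 0, nat_lit 0, nat_lit 50, nat_lit 0, nat_lit 0, [nat_lit 1532800000, nat_lit 2168000000], [], [nat_lit 27209284148, nat_lit 27646925706, nat_lit 28106450629, nat_lit 28522208822, nat_lit 27810238245, nat_lit 28231312708, nat_lit 28673304446, nat_lit 29075224749], nat_lit 0, nat_lit 0, nat_lit 0, nat_lit 0, nat_lit 0, nat_lit 0, [], [nat_lit 24, nat_lit 40, nat_lit 40, nat_lit 80, nat_lit 33, nat_lit 203, nat_lit 0, nat_lit 6]⟩, C1.Rw.none,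
 ⟨nat_lit 3872, nat_lit 4184, ⟨.ofNat (nat_lit 818552), .ofNat (nat_lit 851681), .ofNat (nat_lit 823967), .ofNat (nat_lit 857097), .ofNat (nat_lit 812989), .ofNat (nat_lit 845251), .ofNat (nat_lit 818436), .ofNat (nat_lit 850699)⟩, ⟨.ofNat (nat_lit 457921), .ofNat (nat_lit 491048), .ofNat (nat_lit 479587), .ofNat (nat_lit 512715), .ofNat (nat_lit 455554), .ofNat (nat_lit 487815), .ofNat (nat_lit 477347), .ofNat (nat_lit 509608)⟩⟩, []⟩
noncomputable def p093_l68 : Lf2 := ⟨nat_lit 0, nat_lit 3, [nat_lit 45, nat_lit 5, nat_lit 5, nat_lit 20], false, nat_lit 260, nat_lit 288, nat_lit 280, nat_lit 336, ⟨nat_lit 116, nat_lit 884, nat_lit 0, nat_lit 8, nat_lit 331, nat_lit 884, nat_lit 209, nat_lit 0, nat_lit 0, nat_lit 0, nat_lit 0, nat_lit 0, nat_lit 32789047, nat_lit 23242597, nat_lit 10968356, nat_lit 5470026, true, true⟩,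
 nat_lit 0, nat_lit 0, nat_lit 1454, nat_lit 0, nat_lit 3479, nat_lit 925, nat_lit 0, nat_lit 0, nat_lit 0, nat_lit 0, nat_lit 0, nat_lit 0, nat_lit 0, nat_lit 0, nat_lit 0, nat_lit 547400, nat_lit 0, nat_lit 0, [(nat_lit 18, [(nat_lit 1, nat_lit 561), (nat_lit 2, nat_lit 323)])],
 ⟨p093_k35, nat_lit 0, nat_lit 0, nat_lit 50, nat_lit 0, nat_lit 0, [nat_lit 1569767734, nat_lit 1966654666], [], [nat_lit 27735135790, nat_lit 28128914665, nat_lit 28218816260, nat_lit 28601449315, nat_lit 28535345274, nat_lit 28914475143, nat_lit 29004040839, nat_lit 29402478468], nat_lit 0, nat_lit 0, nat_lit 0, nat_lit 0, nat_lit 0, nat_lit 0, [], [nat_lit 24, nat_lit 40, nat_lit 40, nat_lit 80, nat_lit 33, nat_lit 203, nat_lit 0, nat_lit 6]⟩, ⟨p093_k36, nat_lit 0, nat_lit 0, nat_lit 320, nat_lit 0, nat_lit 784514, [nat_lit 380712000, nat_lit 725000000], [], [nat_lit 3391096294, nat_lit 3405847708, nat_lit 3443054317, nat_lit 3457105028,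 nat_lit 3556933988, nat_lit 3568913290, nat_lit 3601069613, nat_lit 3616123954], nat_lit 1271250, nat_lit 1271250, nat_lit 1271250, nat_lit 1271250, nat_lit 1271250, nat_lit 1271250, [nat_lit 780000, nat_lit 1435000], [nat_lit 49, nat_lit 40, nat_lit 40, nat_lit 80, nat_lit 16, nat_lit 203, nat_lit 0, nat_lit 5]⟩,
 ⟨nat_lit 3872, nat_lit 4184, ⟨.ofNat (nat_lit 818552), .ofNat (nat_lit 838430), .ofNat (nat_lit 823967), .ofNat (nat_lit 843845), .ofNat (nat_lit 812989), .ofNat (nat_lit 832346), .ofNat (nat_lit 818436), .ofNat (nat_lit 837794)⟩, ⟨.ofNat (nat_lit 491048), .ofNat (nat_lit 537427), .ofNat (nat_lit 512715), .ofNat (nat_lit 559094), .ofNat (nat_lit 487815), .ofNat (nat_lit 532980), .ofNat (nat_lit 509608), .ofNat (nat_lit 554773)⟩⟩, [⟨nat_lit 16, nat_lit 83, nat_lit 98, nat_lit 100, nat_lit 204042103⟩, ⟨nat_lit 19, nat_lit 100, nat_lit 80, nat_lit 100, nat_lit 43915428⟩]⟩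
noncomputable def p093_l69 : Lf2 := ⟨nat_lit 0, nat_lit 3, [nat_lit 45, nat_lit 5, nat_lit 5, nat_lit 20], false, nat_lit 260, nat_lit 288, nat_lit 280, nat_lit 320, ⟨nat_lit 468, nat_lit 532, nat_lit 0, nat_lit 8, nat_lit 338, nat_lit 532, nat_lit 210, nat_lit 0, nat_lit 0, nat_lit 0, nat_lit 0, nat_lit 0, nat_lit 32314934, nat_lit 23813019, nat_lit 10872047, nat_lit 5475853, true, true⟩,
 nat_lit 0, nat_lit 0, nat_lit 5892, nat_lit 0, nat_lit 3850, nat_lit 3749, nat_lit 218, nat_lit 0, nat_lit 0, nat_lit 0, nat_lit 0, nat_lit 0, nat_lit 0, nat_lit 0, nat_lit 0, nat_lit 532000, nat_lit 0, nat_lit 0, [(nat_lit 18, [(nat_lit 2, nat_lit 532)])],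
 ⟨p093_k35, nat_lit 0, nat_lit 0, nat_lit 51, nat_lit 0, nat_lit 0, [nat_lit 1856369067, nat_lit 2677093333], [], [nat_lit 28522994660, nat_lit 28720816450, nat_lit 28857103513, nat_lit 29050926669, nat_lit 29315098807, nat_lit 29537220893, nat_lit 29693564741, nat_lit 29912883410], nat_lit 0, nat_lit 0, nat_lit 0, nat_lit 0, nat_lit 0, nat_lit 0, [], [nat_lit 24, nat_lit 40, nat_lit 40, nat_lit 80, nat_lit 33, nat_lit 203, nat_lit 0, nat_lit 6]⟩, ⟨p093_k36, nat_lit 0, nat_lit 0, nat_lit 301, nat_lit 0, nat_lit 721639, [nat_lit 1535976000, nat_lit 2925000000], [], [nat_lit 13841463952, nat_lit 13898188424, nat_lit 13981469366, nat_lit 14036301966, nat_lit 14234821732, nat_lit 14283902771, nat_lit 14359922896, nat_lit 14409034571], nat_lit 1271250, nat_lit 1271250, nat_lit 1271250, nat_lit 1271250, nat_lit 1271250, nat_lit 1271250, [nat_lit 780000, nat_lit 1435000], [nat_lit 49, nat_lit 40, nat_lit 40, nat_lit 80,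 nat_lit 16, nat_lit 203, nat_lit 0, nat_lit 5]⟩,
 ⟨nat_lit 4031, nat_lit 4184, ⟨.ofNat (nat_lit 838435), .ofNat (nat_lit 851686), .ofNat (nat_lit 843851), .ofNat (nat_lit 857103), .ofNat (nat_lit 835387), .ofNat (nat_lit 848466), .ofNat (nat_lit 840819), .ofNat (nat_lit 853897)⟩, ⟨.ofNat (nat_lit 491048), .ofNat (nat_lit 537427), .ofNat (nat_lit 512715), .ofNat (nat_lit 559094), .ofNat (nat_lit 489453), .ofNat (nat_lit 535227), .ofNat (nat_lit 511179), .ofNat (nat_lit 556953)⟩⟩, [⟨nat_lit 16, nat_lit 81, nat_lit 100, nat_lit 96, nat_lit 329223821⟩]⟩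
noncomputable def p093_l70 : Lf2 := ⟨nat_lit 0, nat_lit 3, [nat_lit 45, nat_lit 5, nat_lit 5, nat_lit 20], false, nat_lit 260, nat_lit 284, nat_lit 280, nat_lit 320, ⟨nat_lit 186, nat_lit 814, nat_lit 0, nat_lit 8, nat_lit 337, nat_lit 814, nat_lit 208, nat_lit 0, nat_lit 0, nat_lit 0, nat_lit 0, nat_lit 0, nat_lit 32481868, nat_lit 23769032, nat_lit 10749100, nat_lit 5462800, true, true⟩,
 nat_lit 0, nat_lit 0, nat_lit 2340, nat_lit 0, nat_lit 3093, nat_lit 1488, nat_lit 624, nat_lit 0, nat_lit 0, nat_lit 0, nat_lit 0, nat_lit 0, nat_lit 0, nat_lit 0, nat_lit 0, nat_lit 325600, nat_lit 0, nat_lit 0, [(nat_lit 18, [(nat_lit 1, nat_lit 814)])],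
 ⟨p093_k37, nat_lit 0, nat_lit 0, nat_lit 53, nat_lit 0, nat_lit 0, [nat_lit 1516032534, nat_lit 2443818666], [], [nat_lit 28111344629, nat_lit 28295892879, nat_lit 28418251379, nat_lit 28599379172, nat_lit 28756622049, nat_lit 28935341020, nat_lit 29063101264, nat_lit 29251724218], nat_lit 0, nat_lit 0, nat_lit 0, nat_lit 0, nat_lit 0, nat_lit 0, [], [nat_lit 24, nat_lit 40, nat_lit 40, nat_lit 80, nat_lit 33, nat_lit 203, nat_lit 0, nat_lit 6]⟩, ⟨p093_k36, nat_lit 0, nat_lit 0, nat_lit 320, nat_lit 0, nat_lit 784514, [nat_lit 610452000, nat_lit 1162500000], [], [nat_lit 5506843448, nat_lit 5529383476, nat_lit 5562456852, nat_lit 5584245822, nat_lit 5663172951, nat_lit 5682678548, nat_lit 5712869472, nat_lit 5731686441], nat_lit 1271250, nat_lit 1271250, nat_lit 1271250, nat_lit 1271250, nat_lit 1271250, nat_lit 1271250, [nat_lit 780000, nat_lit 1435000], [nat_lit 49, nat_lit 40, nat_lit 40, nat_lit 80, nat_lit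 16, nat_lit 203, nat_lit 0, nat_lit 5]⟩,
 ⟨nat_lit 3872, nat_lit 4032, ⟨.ofNat (nat_lit 835388), .ofNat (nat_lit 848466), .ofNat (nat_lit 840819), .ofNat (nat_lit 853897), .ofNat (nat_lit 832352), .ofNat (nat_lit 845257), .ofNat (nat_lit 837800), .ofNat (nat_lit 850705)⟩, ⟨.ofNat (nat_lit 489453), .ofNat (nat_lit 528687), .ofNat (nat_lit 511179), .ofNat (nat_lit 550414), .ofNat (nat_lit 487815), .ofNat (nat_lit 526527), .ofNat (nat_lit 509608), .ofNat (nat_lit 548321)⟩⟩, [⟨nat_lit 16, nat_lit 81, nat_lit 100, nat_lit 100, nat_lit 223121274⟩]⟩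
noncomputable def p093_l71 : Lf2 := ⟨nat_lit 0, nat_lit 3, [nat_lit 45, nat_lit 5, nat_lit 5, nat_lit 20], false, nat_lit 260, nat_lit 288, nat_lit 320, nat_lit 336, ⟨nat_lit 1000, nat_lit 0, nat_lit 0, nat_lit 0, nat_lit 0, nat_lit 0, nat_lit 0, nat_lit 0, nat_lit 0, nat_lit 0, nat_lit 0, nat_lit 0, nat_lit 0, nat_lit 0, nat_lit 0, nat_lit 0, false, false⟩,
 nat_lit 0, nat_lit 0, nat_lit 12478, nat_lit 0, nat_lit 4066, nat_lit 7940, nat_lit 1572, nat_lit 0, nat_lit 0, nat_lit 0, nat_lit 0, nat_lit 0, nat_lit 0, nat_lit 0, nat_lit 0, nat_lit 0, nat_lit 0, nat_lit 0, [],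
 ⟨p093_k35, nat_lit 0, nat_lit 0, nat_lit 51, nat_lit 0, nat_lit 0, [nat_lit 2032000001, nat_lit 4688000000], [], [nat_lit 28791466529, nat_lit 28912432061, nat_lit 29132361162, nat_lit 29250828529, nat_lit 29585068879, nat_lit 29699301567, nat_lit 29917144506, nat_lit 30035875028], nat_lit 0, nat_lit 0, nat_lit 0, nat_lit 0, nat_lit 0, nat_lit 0, [], [nat_lit 24, nat_lit 40, nat_lit 40, nat_lit 80, nat_lit 33, nat_lit 203, nat_lit 0, nat_lit 6]⟩, ⟨p093_k36, nat_lit 0, nat_lit 0, nat_lit 291, nat_lit 0, nat_lit 697120, [nat_lit 3282000000, nat_lit 6250000000], [], [nat_lit 30620592128, nat_lit 30725431636, nat_lit 30887078080, nat_lit 30988238430, nat_lit 31141608103, nat_lit 31239543123, nat_lit 31428835233, nat_lit 31557295110], nat_lit 1271250, nat_lit 1271250, nat_lit 1271250, nat_lit 1271250, nat_lit 1271250, nat_lit 1271250, [nat_lit 780000, nat_lit 1435000], [nat_lit 49, nat_lit 40, nat_lit 40, nat_lit 80,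 nat_lit 16, nat_lit 203, nat_lit 0, nat_lit 5]⟩,
 zbF0, [⟨nat_lit 16, nat_lit 83, nat_lit 98, nat_lit 100, nat_lit 459749070⟩, ⟨nat_lit 19, nat_lit 100, nat_lit 80, nat_lit 100, nat_lit 428065131⟩]⟩
noncomputable def p093_l72 : Lf2 := ⟨nat_lit 0, nat_lit 3, [nat_lit 45, nat_lit 5, nat_lit 5, nat_lit 20], false, nat_lit 260, nat_lit 284, nat_lit 320, nat_lit 336, ⟨nat_lit 1000, nat_lit 0, nat_lit 0, nat_lit 0, nat_lit 0, nat_lit 0, nat_lit 0, nat_lit 0, nat_lit 0, nat_lit 0, nat_lit 0, nat_lit 0, nat_lit 0, nat_lit 0, nat_lit 0, nat_lit 0, false, false⟩,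
 nat_lit 0, nat_lit 0, nat_lit 12411, nat_lit 0, nat_lit 4067, nat_lit 7897, nat_lit 1237, nat_lit 0, nat_lit 0, nat_lit 0, nat_lit 0, nat_lit 0, nat_lit 0, nat_lit 0, nat_lit 0, nat_lit 0, nat_lit 0, nat_lit 0, [],
 ⟨p093_k38, nat_lit 0, nat_lit 0, nat_lit 51, nat_lit 0, nat_lit 0, [nat_lit 2032000001, nat_lit 4688000000], [], [nat_lit 28860940976, nat_lit 28941591677, nat_lit 29199368400, nat_lit 29278353353, nat_lit 29535427281, nat_lit 29612229953, nat_lit 29907488275, nat_lit 29997785599], nat_lit 0, nat_lit 0, nat_lit 0, nat_lit 0, nat_lit 0, nat_lit 0, [], [nat_lit 24, nat_lit 40, nat_lit 40, nat_lit 80, nat_lit 33, nat_lit 203, nat_lit 0, nat_lit 6]⟩, ⟨p093_k36, nat_lit 0, nat_lit 0, nat_lit 303, nat_lit 0, nat_lit 721639, [nat_lit 3282000000, nat_lit 6250000000], [], [nat_lit 30744880567, nat_lit 30849699082, nat_lit 31010865104, nat_lit 31112021047, nat_lit 31264928278, nat_lit 31362873360, nat_lit 31517789250,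 nat_lit 31629957091], nat_lit 1271250, nat_lit 1271250, nat_lit 1271250, nat_lit 1271250, nat_lit 1271250, nat_lit 1271250, [nat_lit 780000, nat_lit 1435000], [nat_lit 49, nat_lit 40, nat_lit 40, nat_lit 80, nat_lit 16, nat_lit 203, nat_lit 0, nat_lit 5]⟩,
 zbF0, [⟨nat_lit 16, nat_lit 81, nat_lit 99, nat_lit 100, nat_lit 468915276⟩, ⟨nat_lit 19, nat_lit 100, nat_lit 80, nat_lit 100, nat_lit 427774891⟩]⟩
noncomputable def p093_l73 : Lf2 := ⟨nat_lit 0, nat_lit 3, [nat_lit 45, nat_lit 5, nat_lit 5, nat_lit 20], false, nat_lit 260, nat_lit 284, nat_lit 320, nat_lit 336, ⟨nat_lit 190, nat_lit 810, nat_lit 0, nat_lit 8, nat_lit 337, nat_lit 810, nat_lit 208, nat_lit 0, nat_lit 0, nat_lit 0, nat_lit 0, nat_lit 0, nat_lit 32501267, nat_lit 23732210, nat_lit 10766523, nat_lit 5463563, true, true⟩,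
 nat_lit 0, nat_lit 0, nat_lit 2355, nat_lit 0, nat_lit 3100, nat_lit 1498, nat_lit 630, nat_lit 0, nat_lit 0, nat_lit 0, nat_lit 0, nat_lit 0, nat_lit 0, nat_lit 0, nat_lit 0, nat_lit 324000, nat_lit 0, nat_lit 0, [(nat_lit 18, [(nat_lit 1, nat_lit 810)])],
 ⟨p093_k37, nat_lit 0, nat_lit 0, nat_lit 52, nat_lit 0, nat_lit 0, [nat_lit 1518568001, nat_lit 2454079999], [], [nat_lit 28105149800, nat_lit 28215952394, nat_lit 28412271113, nat_lit 28521018225, nat_lit 28750609484, nat_lit 28858586474, nat_lit 29063406347, nat_lit 29176656117], nat_lit 0, nat_lit 0, nat_lit 0, nat_lit 0, nat_lit 0, nat_lit 0, [], [nat_lit 24, nat_lit 40, nat_lit 40, nat_lit 80, nat_lit 33, nat_lit 203, nat_lit 0, nat_lit 6]⟩, ⟨p093_k36, nat_lit 0, nat_lit 0, nat_lit 307, nat_lit 0, nat_lit 737929, [nat_lit 623580000, nat_lit 1187500000], [], [nat_lit 5848551050, nat_lit 5856516783, nat_lit 5899059776, nat_lit 5906747529, nat_lit 5947305397,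 nat_lit 5954749451, nat_lit 5995324031, nat_lit 6002499920], nat_lit 1271250, nat_lit 1271250, nat_lit 1271250, nat_lit 1271250, nat_lit 1271250, nat_lit 1271250, [nat_lit 780000, nat_lit 1435000], [nat_lit 49, nat_lit 40, nat_lit 40, nat_lit 80, nat_lit 16, nat_lit 203, nat_lit 0, nat_lit 5]⟩,
 ⟨nat_lit 3937, nat_lit 4032, ⟨.ofNat (nat_lit 835389), .ofNat (nat_lit 848467), .ofNat (nat_lit 837561), .ofNat (nat_lit 850639), .ofNat (nat_lit 833566), .ofNat (nat_lit 846540), .ofNat (nat_lit 835743), .ofNat (nat_lit 848717)⟩, ⟨.ofNat (nat_lit 489453), .ofNat (nat_lit 528687), .ofNat (nat_lit 511179), .ofNat (nat_lit 550414), .ofNat (nat_lit 488476), .ofNat (nat_lit 527397), .ofNat (nat_lit 510241), .ofNat (nat_lit 549163)⟩⟩, [⟨nat_lit 16, nat_lit 81, nat_lit 100, nat_lit 100, nat_lit 223767917⟩, ⟨nat_lit 19, nat_lit 100, nat_lit 80, nat_lit 100, nat_lit 80626917⟩]⟩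
noncomputable def p093_l74 : Lf2 := ⟨nat_lit 0, nat_lit 3, [nat_lit 45, nat_lit 5, nat_lit 5, nat_lit 20], false, nat_lit 260, nat_lit 284, nat_lit 320, nat_lit 336, ⟨nat_lit 193, nat_lit 807, nat_lit 0, nat_lit 8, nat_lit 337, nat_lit 807, nat_lit 208, nat_lit 0, nat_lit 0, nat_lit 0, nat_lit 0, nat_lit 0, nat_lit 32459517, nat_lit 23785070, nat_lit 10755413, nat_lit 5463825, true, true⟩,
 nat_lit 0, nat_lit 0, nat_lit 2370, nat_lit 0, nat_lit 3102, nat_lit 1521, nat_lit 633, nat_lit 0, nat_lit 0, nat_lit 0, nat_lit 0, nat_lit 0, nat_lit 0, nat_lit 0, nat_lit 0, nat_lit 322800, nat_lit 0, nat_lit 0, [(nat_lit 18, [(nat_lit 1, nat_lit 807)])],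
 ⟨p093_k37, nat_lit 0, nat_lit 0, nat_lit 52, nat_lit 0, nat_lit 0, [nat_lit 1520469601, nat_lit 2461775999], [], [nat_lit 28106938631, nat_lit 28217762267, nat_lit 28414121248, nat_lit 28522888485, nat_lit 28752450391, nat_lit 28860984631, nat_lit 29065847876, nat_lit 29179119358], nat_lit 0, nat_lit 0, nat_lit 0, nat_lit 0, nat_lit 0, nat_lit 0, [], [nat_lit 24, nat_lit 40, nat_lit 40, nat_lit 80, nat_lit 33, nat_lit 203, nat_lit 0, nat_lit 6]⟩, ⟨p093_k39, nat_lit 0, nat_lit 0, nat_lit 307, nat_lit 0, nat_lit 735870, [nat_lit 633426000, nat_lit 1206250000], [], [nat_lit 5950874358, nat_lit 5954920048, nat_lit 6001890711, nat_lit 6005795267, nat_lit 6050643561, nat_lit 6054424387, nat_lit 6099141381, nat_lit 6102786057], nat_lit 1271250, nat_lit 1271250, nat_lit 1271250, nat_lit 1271250, nat_lit 1271250, nat_lit 1271250, [nat_lit 780000, nat_lit 1435000], [nat_lit 49, nat_lit 40, nat_lit 40, nat_lit 80, nat_lit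 16, nat_lit 203, nat_lit 0, nat_lit 5]⟩,
 ⟨nat_lit 3937, nat_lit 4032, ⟨.ofNat (nat_lit 837561), .ofNat (nat_lit 850639), .ofNat (nat_lit 838647), .ofNat (nat_lit 851726), .ofNat (nat_lit 835743), .ofNat (nat_lit 848717), .ofNat (nat_lit 836831), .ofNat (nat_lit 849805)⟩, ⟨.ofNat (nat_lit 489453), .ofNat (nat_lit 528687), .ofNat (nat_lit 511179), .ofNat (nat_lit 550414), .ofNat (nat_lit 488476), .ofNat (nat_lit 527397), .ofNat (nat_lit 510241), .ofNat (nat_lit 549163)⟩⟩, [⟨nat_lit 16, nat_lit 81, nat_lit 100, nat_lit 100, nat_lit 224757737⟩, ⟨nat_lit 19, nat_lit 100, nat_lit 81, nat_lit 100, nat_lit 81826475⟩]⟩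
noncomputable def p093_l75 : Lf2 := ⟨nat_lit 0, nat_lit 3, [nat_lit 45, nat_lit 5, nat_lit 5, nat_lit 20], false, nat_lit 260, nat_lit 284, nat_lit 320, nat_lit 336, ⟨nat_lit 755, nat_lit 245, nat_lit 0, nat_lit 8, nat_lit 338, nat_lit 245, nat_lit 208, nat_lit 0, nat_lit 0, nat_lit 0, nat_lit 0, nat_lit 0, nat_lit 32406688, nat_lit 23845895, nat_lit 10747417, nat_lit 5464576, true, true⟩,
 nat_lit 0, nat_lit 0, nat_lit 9235, nat_lit 0, nat_lit 3534, nat_lit 5953, nat_lit 1185, nat_lit 0, nat_lit 0, nat_lit 0, nat_lit 0, nat_lit 0, nat_lit 0, nat_lit 0, nat_lit 0, nat_lit 98000, nat_lit 0, nat_lit 0, [(nat_lit 18, [(nat_lit 1, nat_lit 245)])],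
 ⟨p093_k37, nat_lit 0, nat_lit 0, nat_lit 52, nat_lit 0, nat_lit 0, [nat_lit 1876702667, nat_lit 4000628000], [], [nat_lit 28493229594, nat_lit 28570141962, nat_lit 28813653821, nat_lit 28889063276, nat_lit 29149989701, nat_lit 29229839624, nat_lit 29484192942, nat_lit 29562833976], nat_lit 0, nat_lit 0, nat_lit 0, nat_lit 0, nat_lit 0, nat_lit 0, [], [nat_lit 24, nat_lit 40, nat_lit 40, nat_lit 80, nat_lit 33, nat_lit 203, nat_lit 0, nat_lit 6]⟩, ⟨p093_k40, nat_lit 0, nat_lit 0, nat_lit 306, nat_lit 0, nat_lit 732974, [nat_lit 2477910000, nat_lit 4718750000], [], [nat_lit 23286558020, nat_lit 23318211409, nat_lit 23485611650, nat_lit 23516160366, nat_lit 23675876427, nat_lit 23705456706, nat_lit 23865093144, nat_lit 23896223031], nat_lit 1271250, nat_lit 1271250, nat_lit 1271250, nat_lit 1271250, nat_lit 1271250, nat_lit 1271250, [nat_lit 780000, nat_lit 1435000], [nat_lit 49, nat_lit 40, nat_lit 40, nat_lit 80,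 nat_lit 16, nat_lit 203, nat_lit 0, nat_lit 5]⟩,
 ⟨nat_lit 3968, nat_lit 4032, ⟨.ofNat (nat_lit 838648), .ofNat (nat_lit 851726), .ofNat (nat_lit 840820), .ofNat (nat_lit 853899), .ofNat (nat_lit 837436), .ofNat (nat_lit 850445), .ofNat (nat_lit 839611), .ofNat (nat_lit 852620)⟩, ⟨.ofNat (nat_lit 489453), .ofNat (nat_lit 528687), .ofNat (nat_lit 511179), .ofNat (nat_lit 550414), .ofNat (nat_lit 488803), .ofNat (nat_lit 527829), .ofNat (nat_lit 510555), .ofNat (nat_lit 549582)⟩⟩, [⟨nat_lit 16, nat_lit 81, nat_lit 100, nat_lit 100, nat_lit 393653863⟩, ⟨nat_lit 19, nat_lit 99, nat_lit 81, nat_lit 100, nat_lit 323186800⟩]⟩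
noncomputable def p093_l76 : Lf2 := ⟨nat_lit 0, nat_lit 3, [nat_lit 45, nat_lit 5, nat_lit 5, nat_lit 20], false, nat_lit 260, nat_lit 280, nat_lit 320, nat_lit 336, ⟨nat_lit 180, nat_lit 820, nat_lit 0, nat_lit 8, nat_lit 338, nat_lit 820, nat_lit 206, nat_lit 0, nat_lit 0, nat_lit 0, nat_lit 0, nat_lit 0, nat_lit 32495173, nat_lit 23857799, nat_lit 10647028, nat_lit 5455009, true, true⟩,
 nat_lit 0, nat_lit 0, nat_lit 2196, nat_lit 0, nat_lit 3097, nat_lit 1415, nat_lit 546, nat_lit 0, nat_lit 0, nat_lit 0, nat_lit 0, nat_lit 0, nat_lit 0, nat_lit 0, nat_lit 0, nat_lit 328000, nat_lit 0, nat_lit 0, [(nat_lit 18, [(nat_lit 1, nat_lit 820)])],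
 ⟨p093_k41, nat_lit 0, nat_lit 0, nat_lit 52, nat_lit 0, nat_lit 0, [nat_lit 1512229334, nat_lit 2428426666], [], [nat_lit 28161010496, nat_lit 28197934174, nat_lit 28466670449, nat_lit 28502909424, nat_lit 28696180500, nat_lit 28731884783, nat_lit 29014297194, nat_lit 29052325098], nat_lit 0, nat_lit 0, nat_lit 0, nat_lit 0, nat_lit 0, nat_lit 0, [], [nat_lit 24, nat_lit 40, nat_lit 40, nat_lit 80, nat_lit 33, nat_lit 203, nat_lit 0, nat_lit 6]⟩, ⟨p093_k40, nat_lit 0, nat_lit 0, nat_lit 310, nat_lit 0, nat_lit 745315, [nat_lit 590760000, nat_lit 1125000000], [], [nat_lit 5564069180, nat_lit 5571614851, nat_lit 5611477005, nat_lit 5618759968, nat_lit 5656792772, nat_lit 5663845422, nat_lit 5701861268, nat_lit 5708660485], nat_lit 1271250, nat_lit 1271250, nat_lit 1271250, nat_lit 1271250, nat_lit 1271250, nat_lit 1271250, [nat_lit 780000, nat_lit 1435000], [nat_lit 49, nat_lit 40, nat_lit 40, nat_lit 80, nat_lit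 16, nat_lit 203, nat_lit 0, nat_lit 5]⟩,
 ⟨nat_lit 3937, nat_lit 3969, ⟨.ofNat (nat_lit 837436), .ofNat (nat_lit 850445), .ofNat (nat_lit 839612), .ofNat (nat_lit 852620), .ofNat (nat_lit 836831), .ofNat (nat_lit 849805), .ofNat (nat_lit 839008), .ofNat (nat_lit 851982)⟩, ⟨.ofNat (nat_lit 488803), .ofNat (nat_lit 521325), .ofNat (nat_lit 510555), .ofNat (nat_lit 543077), .ofNat (nat_lit 488476), .ofNat (nat_lit 520910), .ofNat (nat_lit 510241), .ofNat (nat_lit 542676)⟩⟩, [⟨nat_lit 16, nat_lit 79, nat_lit 100, nat_lit 100, nat_lit 226358166⟩, ⟨nat_lit 19, nat_lit 99, nat_lit 81, nat_lit 100, nat_lit 76835499⟩]⟩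
noncomputable def p093_l77 : Lf2 := ⟨nat_lit 0, nat_lit 3, [nat_lit 45, nat_lit 5, nat_lit 5, nat_lit 20], true, nat_lit 260, nat_lit 280, nat_lit 320, nat_lit 336, ⟨nat_lit 0, nat_lit 1000, nat_lit 0, nat_lit 8, nat_lit 337, nat_lit 1000, nat_lit 206, nat_lit 0, nat_lit 0, nat_lit 0, nat_lit 0, nat_lit 0, nat_lit 32570471, nat_lit 23780596, nat_lit 10648933, nat_lit 5453235, true, true⟩,
 nat_lit 0, nat_lit 0, nat_lit 0, nat_lit 0, nat_lit 3227, nat_lit 0, nat_lit 0, nat_lit 0, nat_lit 0, nat_lit 0, nat_lit 0, nat_lit 0, nat_lit 0, nat_lit 0, nat_lit 0, nat_lit 250000, nat_lit 0, nat_lit 0, [(nat_lit 18, [(nat_lit 0, nat_lit 1000)])],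
 ⟨p093_k42, nat_lit 0, nat_lit 0, nat_lit 51, nat_lit 0, nat_lit 0, [nat_lit 1532800000, nat_lit 1762000000], [], [nat_lit 28306265173, nat_lit 28384659413, nat_lit 28630361707, nat_lit 28707253150, nat_lit 28869011337, nat_lit 28944515895, nat_lit 29181069776, nat_lit 29263464830], nat_lit 0, nat_lit 0, nat_lit 0, nat_lit 0, nat_lit 0, nat_lit 0, [], [nat_lit 112, nat_lit 40, nat_lit 40, nat_lit 80, nat_lit 113, nat_lit 203, nat_lit 0, nat_lit 7]⟩, C1.Rw.none,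
 ⟨nat_lit 3872, nat_lit 3938, ⟨.ofNat (nat_lit 833566), .ofNat (nat_lit 846540), .ofNat (nat_lit 839008), .ofNat (nat_lit 851982), .ofNat (nat_lit 832353), .ofNat (nat_lit 845258), .ofNat (nat_lit 837802), .ofNat (nat_lit 850706)⟩, ⟨.ofNat (nat_lit 488476), .ofNat (nat_lit 520910), .ofNat (nat_lit 510241), .ofNat (nat_lit 542676), .ofNat (nat_lit 487815), .ofNat (nat_lit 520075), .ofNat (nat_lit 509608), .ofNat (nat_lit 541869)⟩⟩, [⟨nat_lit 16, nat_lit 79, nat_lit 100, nat_lit 99, nat_lit 184084985⟩]⟩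
noncomputable def p093_l78 : Lf2 := ⟨nat_lit 0, nat_lit 4, [nat_lit 38, nat_lit 5, nat_lit 5, nat_lit 20], false, nat_lit 260, nat_lit 288, nat_lit 280, nat_lit 336, ⟨nat_lit 972, nat_lit 28, nat_lit 0, nat_lit 8, nat_lit 334, nat_lit 28, nat_lit 209, nat_lit 0, nat_lit 0, nat_lit 0, nat_lit 0, nat_lit 0, nat_lit 32621330, nat_lit 23455257, nat_lit 10923413, nat_lit 5471535, true, true⟩,
 nat_lit 0, nat_lit 0, nat_lit 12038, nat_lit 0, nat_lit 5529, nat_lit 7660, nat_lit 0, nat_lit 0, nat_lit 0, nat_lit 0, nat_lit 0, nat_lit 0, nat_lit 0, nat_lit 0, nat_lit 0, nat_lit 7000, nat_lit 0, nat_lit 0, [(nat_lit 18, [(nat_lit 0, nat_lit 28)])],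
 ⟨p093_k34, nat_lit 0, nat_lit 0, nat_lit 53, nat_lit 0, nat_lit 0, [nat_lit 2018022401, nat_lit 4617440000], [], [nat_lit 29442542617, nat_lit 29939081619, nat_lit 30464286227, nat_lit 30932159622, nat_lit 30360934682, nat_lit 30825857047, nat_lit 31317563154, nat_lit 31817912708], nat_lit 0, nat_lit 0, nat_lit 0, nat_lit 0, nat_lit 0, nat_lit 0, [], [nat_lit 24, nat_lit 40, nat_lit 40, nat_lit 80, nat_lit 33, nat_lit 203, nat_lit 0, nat_lit 6]⟩, ⟨p093_k33, nat_lit 0, nat_lit 0, nat_lit 301, nat_lit 0, nat_lit 716006, [nat_lit 3190104000, nat_lit 6075000000], [], [nat_lit 28679949168, nat_lit 28803301077, nat_lit 29402166496, nat_lit 29515828668, nat_lit 30066637528, nat_lit 30166986459, nat_lit 30680681956, nat_lit 30772459896], nat_lit 1271250, nat_lit 1271250, nat_lit 1271250, nat_lit 1271250, nat_lit 1271250, nat_lit 1271250, [nat_lit 780000, nat_lit 1435000], [nat_lit 49, nat_lit 40, nat_lit 40, nat_lit 80,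 nat_lit 16, nat_lit 203, nat_lit 0, nat_lit 5]⟩,
 ⟨nat_lit 3872, nat_lit 4184, ⟨.ofNat (nat_lit 818552), .ofNat (nat_lit 851681), .ofNat (nat_lit 823967), .ofNat (nat_lit 857097), .ofNat (nat_lit 812989), .ofNat (nat_lit 845251), .ofNat (nat_lit 818436), .ofNat (nat_lit 850699)⟩, ⟨.ofNat (nat_lit 491048), .ofNat (nat_lit 537427), .ofNat (nat_lit 512715), .ofNat (nat_lit 559094), .ofNat (nat_lit 487815), .ofNat (nat_lit 532980), .ofNat (nat_lit 509608), .ofNat (nat_lit 554773)⟩⟩, [⟨nat_lit 4, nat_lit 100, nat_lit 79, nat_lit 96, nat_lit 518024121⟩, ⟨nat_lit 19, nat_lit 100, nat_lit 80, nat_lit 100, nat_lit 362618993⟩]⟩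
noncomputable def p093_l79 : Lf2 := ⟨nat_lit 0, nat_lit 5, [nat_lit 4, nat_lit 5, nat_lit 5, nat_lit 20], false, nat_lit 240, nat_lit 300, nat_lit 280, nat_lit 336, ⟨nat_lit 1000, nat_lit 0, nat_lit 0, nat_lit 0, nat_lit 0, nat_lit 0, nat_lit 0, nat_lit 0, nat_lit 0, nat_lit 0, nat_lit 0, nat_lit 0, nat_lit 0, nat_lit 0, nat_lit 0, nat_lit 0, false, false⟩,
 nat_lit 0, nat_lit 0, nat_lit 12493, nat_lit 0, nat_lit 5521, nat_lit 7950, nat_lit 0, nat_lit 0, nat_lit 0, nat_lit 524, nat_lit 0, nat_lit 0, nat_lit 0, nat_lit 0, nat_lit 0, nat_lit 0, nat_lit 0, nat_lit 0, [],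
 ⟨p093_k17, nat_lit 0, nat_lit 0, nat_lit 63, nat_lit 0, nat_lit 0, [nat_lit 2032000001, nat_lit 4688000000, nat_lit 6250000000], [], [nat_lit 28342074530, nat_lit 29379620502, nat_lit 29439570412, nat_lit 30417166474, nat_lit 30377022172, nat_lit 31279223029, nat_lit 31331117533, nat_lit 32215034697], nat_lit 0, nat_lit 0, nat_lit 0, nat_lit 0, nat_lit 0, nat_lit 0, [], [nat_lit 6, nat_lit 40, nat_lit 40, nat_lit 80, nat_lit 3, nat_lit 203, nat_lit 0, nat_lit 5]⟩, ⟨p093_k18, nat_lit 0, nat_lit 0, nat_lit 305, nat_lit 0, nat_lit 651550, [nat_lit 3282000000, nat_lit 6250000000, nat_lit 7968000000], [], [nat_lit 29377301500, nat_lit 29491153532, nat_lit 30059150500, nat_lit 30166637700, nat_lit 30732821240, nat_lit 30836083286, nat_lit 31425665641, nat_lit 31540445470], nat_lit 1271250, nat_lit 1271250, nat_lit 1271250, nat_lit 1271250, nat_lit 1271250, nat_lit 1271250, [nat_lit 780000, nat_lit 1435000, nat_lit 1271250],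 [nat_lit 18, nat_lit 40, nat_lit 40, nat_lit 80, nat_lit 2, nat_lit 203, nat_lit 0, nat_lit 5]⟩,
 zbF0, [⟨nat_lit 4, nat_lit 100, nat_lit 82, nat_lit 97, nat_lit 489055907⟩, ⟨nat_lit 19, nat_lit 100, nat_lit 80, nat_lit 100, nat_lit 377737901⟩]⟩
noncomputable def b_V_800_700_20_10 : St := ⟨true, nat_lit 0, nat_lit 1, nat_lit 1, nat_lit 120, nat_lit 320, nat_lit 340, nat_lit 280, nat_lit 285, nat_lit 340, nat_lit 360, nat_lit 100, nat_lit 120, nat_lit 240, nat_lit 300, nat_lit 280, nat_lit 336, nat_lit 8, nat_lit 20, nat_lit 0, nat_lit 0, nat_lit 800, nat_lit 0⟩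
theorem d_V_800_700_20_10 (h : EB TB.env) : Dead b_V_800_700_20_10 := chkB_sound0 h (T :=
(.spl (nat_lit 6) (nat_lit 16)
(.spl (nat_lit 0) (nat_lit 330)
(.leaf p093_l66)
(.trX (nat_lit 16) (nat_lit 83) (nat_lit 98) (nat_lit 100) (nat_lit 288) (.spl (nat_lit 4) (nat_lit 260)
(.leaf p093_l67)
(.spl (nat_lit 6) (nat_lit 12)
(.spl (nat_lit 2) (nat_lit 352)
(.leaf p093_l68)
(.spl (nat_lit 5) (nat_lit 320)
(.spl (nat_lit 0) (nat_lit 335)
(.leaf p093_l69)
(.trX (nat_lit 16) (nat_lit 81) (nat_lit 100) (nat_lit 100) (nat_lit 284) (.leaf p093_l70)))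
(.spl (nat_lit 0) (nat_lit 335)
(.spl (nat_lit 0) (nat_lit 333)
(.leaf p093_l71)
(.trX (nat_lit 16) (nat_lit 81) (nat_lit 99) (nat_lit 100) (nat_lit 284) (.leaf p093_l72)))
(.trX (nat_lit 16) (nat_lit 81) (nat_lit 100) (nat_lit 100) (nat_lit 284) (.spl (nat_lit 0) (nat_lit 338)
(.spl (nat_lit 1) (nat_lit 283)
(.spl (nat_lit 1) (nat_lit 282)
(.leaf p093_l73)
(.leaf p093_l74))
(.spl (nat_lit 0) (nat_lit 337)
(.leaf p093_l75)
(.trX (nat_lit 16) (nat_lit 79) (nat_lit 100) (nat_lit 100) (nat_lit 280) (.leaf p093_l76))))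
(.trX (nat_lit 16) (nat_lit 79) (nat_lit 100) (nat_lit 99) (nat_lit 280) (.leaf p093_l77)))))))
(.leaf p093_l78)))))
(.leaf p093_l79))) (by decide +kernel)
noncomputable def p093_l80 : Lf2 := ⟨nat_lit 0, nat_lit 5, [nat_lit 4, nat_lit 5, nat_lit 5, nat_lit 20], false, nat_lit 240, nat_lit 276, nat_lit 64, nat_lit 336, ⟨nat_lit 92, nat_lit 908, nat_lit 0, nat_lit 8, nat_lit 325, nat_lit 908, nat_lit 193, nat_lit 0, nat_lit 0, nat_lit 0, nat_lit 0, nat_lit 0, nat_lit 33949280, nat_lit 23111657, nat_lit 9939063, nat_lit 5360536, true, true⟩,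
 nat_lit 0, nat_lit 0, nat_lit 1176, nat_lit 0, nat_lit 3242, nat_lit 748, nat_lit 0, nat_lit 0, nat_lit 0, nat_lit 48, nat_lit 0, nat_lit 0, nat_lit 0, nat_lit 0, nat_lit 0, nat_lit 400400, nat_lit 0, nat_lit 0, [(nat_lit 21, [(nat_lit 1, nat_lit 846), (nat_lit 2, nat_lit 62)])],
 ⟨p093_k43, nat_lit 0, nat_lit 0, nat_lit 55, nat_lit 0, nat_lit 0, [nat_lit 1420317600, nat_lit 1671594934], [], [nat_lit 26608230822, nat_lit 27025741038, nat_lit 28204444170, nat_lit 28585040628, nat_lit 27651056650, nat_lit 28041720950, nat_lit 29156637758, nat_lit 29580857925], nat_lit 0, nat_lit 0, nat_lit 0, nat_lit 0, nat_lit 0, nat_lit 0, [], [nat_lit 24, nat_lit 40, nat_lit 40, nat_lit 80, nat_lit 33, nat_lit 203, nat_lit 0, nat_lit 6]⟩, ⟨p093_k18, nat_lit 0, nat_lit 0, nat_lit 630, nat_lit 0, nat_lit 1249410, [nat_lit 301944000, nat_lit 575000000, nat_lit 733056000], [], [nat_lit 2892560919, nat_lit 2896494023, nat_lit 3004353527,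 nat_lit 3008099782, nat_lit 2814323757, nat_lit 2816280946, nat_lit 2878731364, nat_lit 2880263174], nat_lit 1271250, nat_lit 1271250, nat_lit 1271250, nat_lit 1271250, nat_lit 382400, nat_lit 2466600, [nat_lit 780000, nat_lit 1435000, nat_lit 1271250], [nat_lit 18, nat_lit 40, nat_lit 40, nat_lit 80, nat_lit 2, nat_lit 317, nat_lit 100, nat_lit 9]⟩,
 ⟨nat_lit 3535, nat_lit 3873, ⟨.ofNat (nat_lit 780730), .ofNat (nat_lit 845257), .ofNat (nat_lit 782909), .ofNat (nat_lit 847436), .ofNat (nat_lit 776087), .ofNat (nat_lit 838854), .ofNat (nat_lit 778282), .ofNat (nat_lit 841048)⟩, ⟨.ofNat (nat_lit 433760), .ofNat (nat_lit 491830), .ofNat (nat_lit 477347), .ofNat (nat_lit 535416), .ofNat (nat_lit 431044), .ofNat (nat_lit 487529), .ofNat (nat_lit 474949), .ofNat (nat_lit 531435)⟩⟩, [⟨nat_lit 16, nat_lit 77, nat_lit 100, nat_lit 99, nat_lit 209726578⟩, ⟨nat_lit 19, nat_lit 100, nat_lit 80, nat_lit 100, nat_lit 16373005⟩]⟩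
noncomputable def p093_l81 : Lf2 := ⟨nat_lit 0, nat_lit 5, [nat_lit 4, nat_lit 5, nat_lit 5, nat_lit 20], false, nat_lit 240, nat_lit 276, nat_lit 64, nat_lit 336, ⟨nat_lit 94, nat_lit 906, nat_lit 0, nat_lit 8, nat_lit 325, nat_lit 906, nat_lit 193, nat_lit 0, nat_lit 0, nat_lit 0, nat_lit 0, nat_lit 0, nat_lit 33904718, nat_lit 23166363, nat_lit 9928919, nat_lit 5361133, true, true⟩,
 nat_lit 0, nat_lit 0, nat_lit 1187, nat_lit 0, nat_lit 3245, nat_lit 761, nat_lit 0, nat_lit 0, nat_lit 0, nat_lit 50, nat_lit 0, nat_lit 0, nat_lit 0, nat_lit 0, nat_lit 0, nat_lit 401400, nat_lit 0, nat_lit 0, [(nat_lit 21, [(nat_lit 1, nat_lit 841), (nat_lit 2, nat_lit 65)])],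
 ⟨p093_k43, nat_lit 0, nat_lit 0, nat_lit 55, nat_lit 0, nat_lit 0, [nat_lit 1421809200, nat_lit 1672604134], [], [nat_lit 26606962014, nat_lit 27024605274, nat_lit 28203659544, nat_lit 28584365049, nat_lit 27649948875, nat_lit 28040729106, nat_lit 29159597067, nat_lit 29583945703], nat_lit 0, nat_lit 0, nat_lit 0, nat_lit 0, nat_lit 0, nat_lit 0, [], [nat_lit 24, nat_lit 40, nat_lit 40, nat_lit 80, nat_lit 33, nat_lit 203, nat_lit 0, nat_lit 6]⟩, ⟨p093_k44, nat_lit 0, nat_lit 0, nat_lit 626, nat_lit 0, nat_lit 1240845, [nat_lit 308508000, nat_lit 587500000, nat_lit 748992000], [], [nat_lit 2930858157, nat_lit 2932866705, nat_lit 3046125446, nat_lit 3048038902, nat_lit 2852436369, nat_lit 2853438910, nat_lit 2917819870, nat_lit 2920239442], nat_lit 1271250, nat_lit 1271250, nat_lit 1271250, nat_lit 1271250, nat_lit 382400, nat_lit 2466600, [nat_lit 780000, nat_lit 1435000, nat_lit 1271250], [nat_lit 18, nat_lit 40,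 nat_lit 40, nat_lit 80, nat_lit 2, nat_lit 317, nat_lit 100, nat_lit 9]⟩,
 ⟨nat_lit 3535, nat_lit 3873, ⟨.ofNat (nat_lit 782909), .ofNat (nat_lit 847436), .ofNat (nat_lit 783998), .ofNat (nat_lit 848525), .ofNat (nat_lit 778282), .ofNat (nat_lit 841048), .ofNat (nat_lit 779379), .ofNat (nat_lit 842146)⟩, ⟨.ofNat (nat_lit 433760), .ofNat (nat_lit 491830), .ofNat (nat_lit 477347), .ofNat (nat_lit 535416), .ofNat (nat_lit 431044), .ofNat (nat_lit 487529), .ofNat (nat_lit 474949), .ofNat (nat_lit 531435)⟩⟩, [⟨nat_lit 16, nat_lit 77, nat_lit 100, nat_lit 99, nat_lit 210643660⟩, ⟨nat_lit 19, nat_lit 100, nat_lit 81, nat_lit 100, nat_lit 16933388⟩]⟩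
noncomputable def p093_l82 : Lf2 := ⟨nat_lit 0, nat_lit 2, [nat_lit 10, nat_lit 5, nat_lit 5, nat_lit 20], true, nat_lit 240, nat_lit 276, nat_lit 64, nat_lit 336, ⟨nat_lit 0, nat_lit 1000, nat_lit 0, nat_lit 8, nat_lit 326, nat_lit 1000, nat_lit 193, nat_lit 0, nat_lit 0, nat_lit 0, nat_lit 0, nat_lit 0, nat_lit 33860193, nat_lit 23221034, nat_lit 9918773, nat_lit 5361712, true, true⟩,
 nat_lit 0, nat_lit 0, nat_lit 0, nat_lit 0, nat_lit 2942, nat_lit 0, nat_lit 0, nat_lit 0, nat_lit 0, nat_lit 0, nat_lit 0, nat_lit 0, nat_lit 0, nat_lit 0, nat_lit 0, nat_lit 400000, nat_lit 0, nat_lit 0, [(nat_lit 21, [(nat_lit 1, nat_lit 1000)])],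
 ⟨p093_k45, nat_lit 0, nat_lit 0, nat_lit 53, nat_lit 0, nat_lit 0, [nat_lit 1355200000, nat_lit 1398400000], [], [nat_lit 26264339196, nat_lit 26688335918, nat_lit 27886645972, nat_lit 28273802638, nat_lit 27340188580, nat_lit 27737449094, nat_lit 28861308043, nat_lit 29272080105], nat_lit 0, nat_lit 0, nat_lit 0, nat_lit 0, nat_lit 0, nat_lit 0, [], [nat_lit 112, nat_lit 40, nat_lit 40, nat_lit 80, nat_lit 113, nat_lit 203, nat_lit 0, nat_lit 8]⟩, C1.Rw.none,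
 ⟨nat_lit 3535, nat_lit 3873, ⟨.ofNat (nat_lit 783998), .ofNat (nat_lit 848525), .ofNat (nat_lit 786177), .ofNat (nat_lit 850704), .ofNat (nat_lit 779379), .ofNat (nat_lit 842146), .ofNat (nat_lit 781574), .ofNat (nat_lit 844341)⟩, ⟨.ofNat (nat_lit 433760), .ofNat (nat_lit 491830), .ofNat (nat_lit 477347), .ofNat (nat_lit 535416), .ofNat (nat_lit 431044), .ofNat (nat_lit 487529), .ofNat (nat_lit 474949), .ofNat (nat_lit 531435)⟩⟩, [⟨nat_lit 16, nat_lit 77, nat_lit 100, nat_lit 99, nat_lit 189114841⟩]⟩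
noncomputable def p093_l83 : Lf2 := ⟨nat_lit 0, nat_lit 5, [nat_lit 4, nat_lit 5, nat_lit 5, nat_lit 20], false, nat_lit 240, nat_lit 276, nat_lit 64, nat_lit 336, ⟨nat_lit 106, nat_lit 894, nat_lit 0, nat_lit 8, nat_lit 326, nat_lit 894, nat_lit 193, nat_lit 0, nat_lit 0, nat_lit 0, nat_lit 0, nat_lit 0, nat_lit 33860193, nat_lit 23221034, nat_lit 9918773, nat_lit 5361712, true, true⟩,
 nat_lit 0, nat_lit 0, nat_lit 1327, nat_lit 0, nat_lit 3256, nat_lit 855, nat_lit 0, nat_lit 0, nat_lit 0, nat_lit 57, nat_lit 0, nat_lit 0, nat_lit 0, nat_lit 0, nat_lit 0, nat_lit 401400, nat_lit 0, nat_lit 0, [(nat_lit 21, [(nat_lit 1, nat_lit 821), (nat_lit 2, nat_lit 73)])],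
 ⟨p093_k43, nat_lit 0, nat_lit 0, nat_lit 55, nat_lit 0, nat_lit 0, [nat_lit 1430298801, nat_lit 1696076667], [], [nat_lit 26625102252, nat_lit 27043233340, nat_lit 28223575116, nat_lit 28604680460, nat_lit 27668679569, nat_lit 28059884882, nat_lit 29170447870, nat_lit 29595267557], nat_lit 0, nat_lit 0, nat_lit 0, nat_lit 0, nat_lit 0, nat_lit 0, [], [nat_lit 24, nat_lit 40, nat_lit 40, nat_lit 80, nat_lit 33, nat_lit 203, nat_lit 0, nat_lit 6]⟩, ⟨p093_k46, nat_lit 0, nat_lit 0, nat_lit 551, nat_lit 0, nat_lit 1074631, [nat_lit 347892000, nat_lit 662500000, nat_lit 844608000], [], [nat_lit 3292805160, nat_lit 3297333621, nat_lit 3422586081, nat_lit 3426900777, nat_lit 3205367289, nat_lit 3207633500, nat_lit 3287112135, nat_lit 3292572374], nat_lit 1271250, nat_lit 1271250, nat_lit 1271250, nat_lit 1271250, nat_lit 382400, nat_lit 2466600, [nat_lit 780000, nat_lit 1435000, nat_lit 1271250], [nat_lit 18, nat_lit 40,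 nat_lit 40, nat_lit 80, nat_lit 2, nat_lit 317, nat_lit 100, nat_lit 9]⟩,
 ⟨nat_lit 3535, nat_lit 3873, ⟨.ofNat (nat_lit 783998), .ofNat (nat_lit 848525), .ofNat (nat_lit 786177), .ofNat (nat_lit 850704), .ofNat (nat_lit 779379), .ofNat (nat_lit 842146), .ofNat (nat_lit 781574), .ofNat (nat_lit 844341)⟩, ⟨.ofNat (nat_lit 433760), .ofNat (nat_lit 491830), .ofNat (nat_lit 477347), .ofNat (nat_lit 535416), .ofNat (nat_lit 431044), .ofNat (nat_lit 487529), .ofNat (nat_lit 474949), .ofNat (nat_lit 531435)⟩⟩, [⟨nat_lit 16, nat_lit 77, nat_lit 100, nat_lit 99, nat_lit 214429931⟩, ⟨nat_lit 19, nat_lit 99, nat_lit 81, nat_lit 100, nat_lit 19360921⟩]⟩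
noncomputable def p093_l84 : Lf2 := ⟨nat_lit 0, nat_lit 5, [nat_lit 4, nat_lit 5, nat_lit 5, nat_lit 20], false, nat_lit 240, nat_lit 264, nat_lit 64, nat_lit 336, ⟨nat_lit 87, nat_lit 913, nat_lit 0, nat_lit 8, nat_lit 324, nat_lit 913, nat_lit 188, nat_lit 0, nat_lit 0, nat_lit 0, nat_lit 0, nat_lit 0, nat_lit 34229607, nat_lit 23151651, nat_lit 9618742, nat_lit 5326398, true, true⟩,
 nat_lit 0, nat_lit 0, nat_lit 1135, nat_lit 0, nat_lit 3228, nat_lit 722, nat_lit 25, nat_lit 0, nat_lit 0, nat_lit 45, nat_lit 0, nat_lit 0, nat_lit 0, nat_lit 0, nat_lit 0, nat_lit 365200, nat_lit 0, nat_lit 0, [(nat_lit 21, [(nat_lit 1, nat_lit 913)])],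
 ⟨p093_k47, nat_lit 0, nat_lit 0, nat_lit 56, nat_lit 0, nat_lit 0, [nat_lit 1414081600, nat_lit 1763996400], [], [nat_lit 27035517761, nat_lit 27243962433, nat_lit 28592669821, nat_lit 28782713607, nat_lit 27712389949, nat_lit 27911912601, nat_lit 29211819017, nat_lit 29428758916], nat_lit 0, nat_lit 0, nat_lit 0, nat_lit 0, nat_lit 0, nat_lit 0, [], [nat_lit 24, nat_lit 40, nat_lit 40, nat_lit 80, nat_lit 33, nat_lit 203, nat_lit 0, nat_lit 6]⟩, ⟨p093_k18, nat_lit 0, nat_lit 0, nat_lit 667, nat_lit 0, nat_lit 1342725, [nat_lit 285534000, nat_lit 543750000, nat_lit 693216000], [], [nat_lit 2781861075, nat_lit 2789206176, nat_lit 2866957101, nat_lit 2873078395, nat_lit 2635652528, nat_lit 2638286145, nat_lit 2682622925, nat_lit 2692728698], nat_lit 1271250, nat_lit 1271250, nat_lit 1271250, nat_lit 1271250, nat_lit 382400, nat_lit 2466600, [nat_lit 780000, nat_lit 1435000, nat_lit 1271250], [nat_lit 18, nat_lit 40,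 nat_lit 40, nat_lit 80, nat_lit 2, nat_lit 317, nat_lit 100, nat_lit 9]⟩,
 ⟨nat_lit 3354, nat_lit 3536, ⟨.ofNat (nat_lit 776093), .ofNat (nat_lit 838855), .ofNat (nat_lit 781580), .ofNat (nat_lit 844343), .ofNat (nat_lit 773784), .ofNat (nat_lit 835649), .ofNat (nat_lit 779295), .ofNat (nat_lit 841161)⟩, ⟨.ofNat (nat_lit 431044), .ofNat (nat_lit 468701), .ofNat (nat_lit 474949), .ofNat (nat_lit 512606), .ofNat (nat_lit 429578), .ofNat (nat_lit 466697), .ofNat (nat_lit 473673), .ofNat (nat_lit 510793)⟩⟩, [⟨nat_lit 16, nat_lit 69, nat_lit 100, nat_lit 96, nat_lit 241997596⟩, ⟨nat_lit 19, nat_lit 100, nat_lit 80, nat_lit 100, nat_lit 14385869⟩]⟩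
noncomputable def p093_l85 : Lf2 := ⟨nat_lit 0, nat_lit 5, [nat_lit 4, nat_lit 5, nat_lit 5, nat_lit 20], true, nat_lit 240, nat_lit 256, nat_lit 64, nat_lit 336, ⟨nat_lit 0, nat_lit 1000, nat_lit 0, nat_lit 8, nat_lit 322, nat_lit 1000, nat_lit 185, nat_lit 0, nat_lit 0, nat_lit 0, nat_lit 0, nat_lit 0, nat_lit 34445461, nat_lit 23139162, nat_lit 9415377, nat_lit 5302893, true, true⟩,
 nat_lit 0, nat_lit 0, nat_lit 0, nat_lit 0, nat_lit 3144, nat_lit 0, nat_lit 0, nat_lit 0, nat_lit 0, nat_lit 0, nat_lit 0, nat_lit 0, nat_lit 0, nat_lit 0, nat_lit 0, nat_lit 250000, nat_lit 0, nat_lit 0, [(nat_lit 21, [(nat_lit 0, nat_lit 1000)])],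
 ⟨p093_k48, nat_lit 0, nat_lit 0, nat_lit 55, nat_lit 0, nat_lit 0, [nat_lit 1558400000, nat_lit 1595600000], [], [nat_lit 27089366428, nat_lit 27306272480, nat_lit 28689617072, nat_lit 28887237728, nat_lit 27554570498, nat_lit 27765261703, nat_lit 29109804130, nat_lit 29327910061], nat_lit 0, nat_lit 0, nat_lit 0, nat_lit 0, nat_lit 0, nat_lit 0, [], [nat_lit 112, nat_lit 40, nat_lit 40, nat_lit 80, nat_lit 113, nat_lit 203, nat_lit 0, nat_lit 7]⟩, C1.Rw.none,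
 ⟨nat_lit 3162, nat_lit 3355, ⟨.ofNat (nat_lit 773784), .ofNat (nat_lit 835649), .ofNat (nat_lit 779296), .ofNat (nat_lit 841161), .ofNat (nat_lit 771478), .ofNat (nat_lit 832432), .ofNat (nat_lit 777016), .ofNat (nat_lit 837970)⟩, ⟨.ofNat (nat_lit 429578), .ofNat (nat_lit 454324), .ofNat (nat_lit 473673), .ofNat (nat_lit 498420), .ofNat (nat_lit 428022), .ofNat (nat_lit 452404), .ofNat (nat_lit 472332), .ofNat (nat_lit 496714)⟩⟩, [⟨nat_lit 16, nat_lit 66, nat_lit 100, nat_lit 95, nat_lit 235962498⟩]⟩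
noncomputable def b_V_800_700_20_11 : St := ⟨true, nat_lit 0, nat_lit 1, nat_lit 1, nat_lit 120, nat_lit 340, nat_lit 360, nat_lit 280, nat_lit 285, nat_lit 320, nat_lit 360, nat_lit 80, nat_lit 120, nat_lit 240, nat_lit 300, nat_lit 64, nat_lit 336, nat_lit 0, nat_lit 20, nat_lit 0, nat_lit 0, nat_lit 800, nat_lit 0⟩
theorem d_V_800_700_20_11 (h : EB TB.env) : Dead b_V_800_700_20_11 := chkB_sound0 h (T :=
(.trX (nat_lit 16) (nat_lit 77) (nat_lit 100) (nat_lit 99) (nat_lit 276) (.spl (nat_lit 0) (nat_lit 350)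
(.spl (nat_lit 1) (nat_lit 283)
(.spl (nat_lit 1) (nat_lit 282)
(.leaf p093_l80)
(.leaf p093_l81))
(.spl (nat_lit 6) (nat_lit 8)
(.leaf p093_l82)
(.leaf p093_l83)))
(.trX (nat_lit 16) (nat_lit 69) (nat_lit 100) (nat_lit 96) (nat_lit 264) (.spl (nat_lit 0) (nat_lit 355)
(.leaf p093_l84)
(.trX (nat_lit 16) (nat_lit 66) (nat_lit 100) (nat_lit 95) (nat_lit 256) (.leaf p093_l85))))))) (by decide +kernel)
noncomputable def p093_l86 : Lf2 := ⟨nat_lit 0, nat_lit 2, [nat_lit 10, nat_lit 5, nat_lit 5, nat_lit 20], false, nat_lit 240, nat_lit 300, nat_lit 64, nat_lit 332, ⟨nat_lit 1000, nat_lit 0, nat_lit 0, nat_lit 0, nat_lit 0, nat_lit 0, nat_lit 0, nat_lit 0, nat_lit 0, nat_lit 0, nat_lit 0, nat_lit 0, nat_lit 0, nat_lit 0, nat_lit 0, nat_lit 0, false, false⟩,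
 nat_lit 0, nat_lit 0, nat_lit 9709, nat_lit 0, nat_lit 5504, nat_lit 6312, nat_lit 0, nat_lit 0, nat_lit 0, nat_lit 5593, nat_lit 0, nat_lit 0, nat_lit 0, nat_lit 0, nat_lit 0, nat_lit 0, nat_lit 0, nat_lit 0, [],
 ⟨p093_k21, nat_lit 0, nat_lit 0, nat_lit 55, nat_lit 0, nat_lit 0, [nat_lit 2032000001, nat_lit 4688000000], [], [nat_lit 27254899552, nat_lit 28350762720, nat_lit 29446625888, nat_lit 30422885376, nat_lit 29431229440, nat_lit 30384041616, nat_lit 31336853792, nat_lit 32197668228], nat_lit 0, nat_lit 0, nat_lit 0, nat_lit 0, nat_lit 0, nat_lit 0, [], [nat_lit 24, nat_lit 40, nat_lit 40, nat_lit 80, nat_lit 33, nat_lit 203, nat_lit 0, nat_lit 6]⟩, ⟨p093_k49, nat_lit 0, nat_lit 0, nat_lit 513, nat_lit 0, nat_lit 1113241, [nat_lit 3282000000, nat_lit 6250000000], [], [nat_lit 26228894160, nat_lit 26365404278, nat_lit 27594668082, nat_lit 27715532415, nat_lit 27448224764, nat_lit 27525136157, nat_lit 28882276924,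 nat_lit 29008384451], nat_lit 1271250, nat_lit 1271250, nat_lit 1271250, nat_lit 1271250, nat_lit 382400, nat_lit 2435950, [nat_lit 780000, nat_lit 1435000], [nat_lit 49, nat_lit 40, nat_lit 40, nat_lit 80, nat_lit 16, nat_lit 317, nat_lit 100, nat_lit 11]⟩,
 zbF0, [⟨nat_lit 4, nat_lit 100, nat_lit 81, nat_lit 92, nat_lit 519390069⟩, ⟨nat_lit 19, nat_lit 99, nat_lit 82, nat_lit 100, nat_lit 227935534⟩]⟩
noncomputable def p093_l87 : Lf2 := ⟨nat_lit 0, nat_lit 4, [nat_lit 38, nat_lit 5, nat_lit 5, nat_lit 20], false, nat_lit 240, nat_lit 300, nat_lit 64, nat_lit 332, ⟨nat_lit 1000, nat_lit 0, nat_lit 0, nat_lit 0, nat_lit 0, nat_lit 0, nat_lit 0, nat_lit 0, nat_lit 0, nat_lit 0, nat_lit 0, nat_lit 0, nat_lit 0, nat_lit 0, nat_lit 0, nat_lit 0, false, false⟩,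
 nat_lit 0, nat_lit 0, nat_lit 10147, nat_lit 0, nat_lit 5546, nat_lit 6597, nat_lit 0, nat_lit 0, nat_lit 0, nat_lit 4082, nat_lit 0, nat_lit 0, nat_lit 0, nat_lit 0, nat_lit 0, nat_lit 0, nat_lit 0, nat_lit 0, [],
 ⟨p093_k32, nat_lit 0, nat_lit 0, nat_lit 51, nat_lit 0, nat_lit 0, [nat_lit 2032000001, nat_lit 4688000000], [], [nat_lit 27229400848, nat_lit 27779349314, nat_lit 29429194712, nat_lit 29918975518, nat_lit 29410717060, nat_lit 29888708260, nat_lit 31322681858, nat_lit 31748591197], nat_lit 0, nat_lit 0, nat_lit 0, nat_lit 0, nat_lit 0, nat_lit 0, [], [nat_lit 24, nat_lit 40, nat_lit 40, nat_lit 80, nat_lit 33, nat_lit 203, nat_lit 0, nat_lit 6]⟩, ⟨p093_k50, nat_lit 0, nat_lit 0, nat_lit 393, nat_lit 0, nat_lit 814933, [nat_lit 3282000000, nat_lit 6250000000], [], [nat_lit 27553377807, nat_lit 27633989958, nat_lit 29009026564, nat_lit 29089281515, nat_lit 28371152934, nat_lit 28421400143, nat_lit 29824221932,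 nat_lit 29900358220], nat_lit 1271250, nat_lit 1271250, nat_lit 1271250, nat_lit 1271250, nat_lit 382400, nat_lit 2435950, [nat_lit 780000, nat_lit 1435000], [nat_lit 49, nat_lit 40, nat_lit 40, nat_lit 80, nat_lit 16, nat_lit 317, nat_lit 100, nat_lit 11]⟩,
 zbF0, [⟨nat_lit 4, nat_lit 100, nat_lit 84, nat_lit 93, nat_lit 501272487⟩, ⟨nat_lit 19, nat_lit 99, nat_lit 82, nat_lit 100, nat_lit 120575492⟩, ⟨nat_lit 7, nat_lit 92, nat_lit 100, nat_lit 96, nat_lit 103487247⟩]⟩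
noncomputable def p093_l88 : Lf2 := ⟨nat_lit 0, nat_lit 4, [nat_lit 38, nat_lit 5, nat_lit 5, nat_lit 20], false, nat_lit 240, nat_lit 288, nat_lit 64, nat_lit 332, ⟨nat_lit 747, nat_lit 253, nat_lit 0, nat_lit 8, nat_lit 329, nat_lit 253, nat_lit 198, nat_lit 0, nat_lit 0, nat_lit 0, nat_lit 0, nat_lit 0, nat_lit 33408875, nat_lit 23356288, nat_lit 10234837, nat_lit 5399457, true, true⟩,
 nat_lit 0, nat_lit 0, nat_lit 7414, nat_lit 0, nat_lit 5042, nat_lit 4820, nat_lit 0, nat_lit 0, nat_lit 0, nat_lit 2939, nat_lit 0, nat_lit 0, nat_lit 0, nat_lit 0, nat_lit 0, nat_lit 63250, nat_lit 0, nat_lit 0, [(nat_lit 18, [(nat_lit 0, nat_lit 253)])],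
 ⟨p093_k34, nat_lit 0, nat_lit 0, nat_lit 53, nat_lit 0, nat_lit 0, [nat_lit 1905702401, nat_lit 4050440000], [], [nat_lit 27423571178, nat_lit 27949317060, nat_lit 29470776886, nat_lit 29940744948, nat_lit 29067334621, nat_lit 29539659687, nat_lit 30906835513, nat_lit 31329361208], nat_lit 0, nat_lit 0, nat_lit 0, nat_lit 0, nat_lit 0, nat_lit 0, [], [nat_lit 24, nat_lit 40, nat_lit 40, nat_lit 80, nat_lit 33, nat_lit 203, nat_lit 0, nat_lit 6]⟩, ⟨p093_k50, nat_lit 0, nat_lit 0, nat_lit 436, nat_lit 0, nat_lit 940180, [nat_lit 2451654000, nat_lit 4668750000], [], [nat_lit 21237775038, nat_lit 21297695760, nat_lit 22254512443, nat_lit 22307143537, nat_lit 21831604605, nat_lit 21869240190, nat_lit 22566110093, nat_lit 22622805191], nat_lit 1271250, nat_lit 1271250, nat_lit 1271250, nat_lit 1271250, nat_lit 382400, nat_lit 2435950, [nat_lit 780000, nat_lit 1435000], [nat_lit 49, nat_lit 40, nat_lit 40, nat_lit 80,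 nat_lit 16, nat_lit 317, nat_lit 100, nat_lit 11]⟩,
 ⟨nat_lit 3872, nat_lit 4184, ⟨.ofNat (nat_lit 790838), .ofNat (nat_lit 857097), .ofNat (nat_lit 794088), .ofNat (nat_lit 860346), .ofNat (nat_lit 786174), .ofNat (nat_lit 850699), .ofNat (nat_lit 789442), .ofNat (nat_lit 853967)⟩, ⟨.ofNat (nat_lit 436254), .ofNat (nat_lit 515761), .ofNat (nat_lit 479587), .ofNat (nat_lit 559094), .ofNat (nat_lit 433760), .ofNat (nat_lit 511186), .ofNat (nat_lit 477347), .ofNat (nat_lit 554773)⟩⟩, [⟨nat_lit 16, nat_lit 83, nat_lit 98, nat_lit 100, nat_lit 389566420⟩, ⟨nat_lit 19, nat_lit 99, nat_lit 82, nat_lit 100, nat_lit 159905254⟩]⟩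
noncomputable def p093_l89 : Lf2 := ⟨nat_lit 0, nat_lit 5, [nat_lit 4, nat_lit 5, nat_lit 5, nat_lit 20], false, nat_lit 240, nat_lit 300, nat_lit 64, nat_lit 332, ⟨nat_lit 608, nat_lit 392, nat_lit 0, nat_lit 8, nat_lit 330, nat_lit 392, nat_lit 203, nat_lit 0, nat_lit 0, nat_lit 0, nat_lit 0, nat_lit 0, nat_lit 33133220, nat_lit 23323418, nat_lit 10543362, nat_lit 5430267, true, true⟩,
 nat_lit 0, nat_lit 0, nat_lit 7294, nat_lit 0, nat_lit 4922, nat_lit 4742, nat_lit 0, nat_lit 0, nat_lit 0, nat_lit 359, nat_lit 0, nat_lit 0, nat_lit 0, nat_lit 0, nat_lit 0, nat_lit 98000, nat_lit 0, nat_lit 0, [(nat_lit 18, [(nat_lit 0, nat_lit 392)])],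
 ⟨p093_k17, nat_lit 0, nat_lit 0, nat_lit 63, nat_lit 0, nat_lit 0, [nat_lit 1836313601, nat_lit 3700160000, nat_lit 4804304000], [], [nat_lit 26620398736, nat_lit 27660365460, nat_lit 28700332184, nat_lit 29630833668, nat_lit 28727632420, nat_lit 29636514363, nat_lit 30666648754, nat_lit 31603122054], nat_lit 0, nat_lit 0, nat_lit 0, nat_lit 0, nat_lit 0, nat_lit 0, [], [nat_lit 6, nat_lit 40, nat_lit 40, nat_lit 80, nat_lit 3, nat_lit 203, nat_lit 0, nat_lit 5]⟩, ⟨p093_k51, nat_lit 0, nat_lit 0, nat_lit 437, nat_lit 0, nat_lit 807036, [nat_lit 1995456000, nat_lit 3800000000, nat_lit 4844544000], [], [nat_lit 18302955132, nat_lit 18355948488, nat_lit 19231348613, nat_lit 19277838868, nat_lit 18343202175, nat_lit 18373069117, nat_lit 18921121410, nat_lit 18945874630], nat_lit 1271250, nat_lit 1271250, nat_lit 1271250, nat_lit 1271250, nat_lit 382400, nat_lit 2435950, [nat_lit 780000, nat_lit 1435000, nat_lit 1271250],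 [nat_lit 18, nat_lit 40, nat_lit 40, nat_lit 80, nat_lit 2, nat_lit 317, nat_lit 100, nat_lit 9]⟩,
 ⟨nat_lit 3872, nat_lit 4473, ⟨.ofNat (nat_lit 795540), .ofNat (nat_lit 863526), .ofNat (nat_lit 798773), .ofNat (nat_lit 866759), .ofNat (nat_lit 786134), .ofNat (nat_lit 850663), .ofNat (nat_lit 789401), .ofNat (nat_lit 853930)⟩, ⟨.ofNat (nat_lit 438578), .ofNat (nat_lit 540545), .ofNat (nat_lit 481711), .ofNat (nat_lit 583678), .ofNat (nat_lit 433760), .ofNat (nat_lit 530543), .ofNat (nat_lit 477347), .ofNat (nat_lit 574129)⟩⟩, [⟨nat_lit 4, nat_lit 100, nat_lit 81, nat_lit 92, nat_lit 420491711⟩, ⟨nat_lit 7, nat_lit 92, nat_lit 100, nat_lit 96, nat_lit 122717255⟩]⟩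
noncomputable def p093_l90 : Lf2 := ⟨nat_lit 0, nat_lit 5, [nat_lit 4, nat_lit 5, nat_lit 5, nat_lit 20], false, nat_lit 240, nat_lit 300, nat_lit 64, nat_lit 332, ⟨nat_lit 1000, nat_lit 0, nat_lit 0, nat_lit 0, nat_lit 0, nat_lit 0, nat_lit 0, nat_lit 0, nat_lit 0, nat_lit 0, nat_lit 0, nat_lit 0, nat_lit 0, nat_lit 0, nat_lit 0, nat_lit 0, false, false⟩,
 nat_lit 0, nat_lit 0, nat_lit 9271, nat_lit 0, nat_lit 5623, nat_lit 6105, nat_lit 0, nat_lit 0, nat_lit 0, nat_lit 3730, nat_lit 0, nat_lit 0, nat_lit 0, nat_lit 0, nat_lit 0, nat_lit 0, nat_lit 0, nat_lit 0, [],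
 ⟨p093_k17, nat_lit 0, nat_lit 0, nat_lit 63, nat_lit 0, nat_lit 0, [nat_lit 2032000001, nat_lit 4688000000, nat_lit 6250000000], [], [nat_lit 27182653224, nat_lit 28289945390, nat_lit 29397237556, nat_lit 30382853062, nat_lit 29373111030, nat_lit 30334905505, nat_lit 31328853311, nat_lit 32319233511], nat_lit 0, nat_lit 0, nat_lit 0, nat_lit 0, nat_lit 0, nat_lit 0, [], [nat_lit 6, nat_lit 40, nat_lit 40, nat_lit 80, nat_lit 3, nat_lit 203, nat_lit 0, nat_lit 5]⟩, ⟨p093_k52, nat_lit 0, nat_lit 0, nat_lit 439, nat_lit 0, nat_lit 947178, [nat_lit 3282000000, nat_lit 6250000000], [], [nat_lit 26613250003, nat_lit 26666849279, nat_lit 27947901200, nat_lit 27995335346, nat_lit 27818604885, nat_lit 27854102367, nat_lit 29108191774, nat_lit 29166117019], nat_lit 1271250, nat_lit 1271250, nat_lit 1271250, nat_lit 1271250, nat_lit 382400, nat_lit 2435950, [nat_lit 780000, nat_lit 1435000], [nat_lit 49, nat_lit 40, nat_lit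 40, nat_lit 80, nat_lit 16, nat_lit 317, nat_lit 100, nat_lit 11]⟩,
 zbF0, [⟨nat_lit 4, nat_lit 100, nat_lit 81, nat_lit 92, nat_lit 537519306⟩, ⟨nat_lit 19, nat_lit 98, nat_lit 83, nat_lit 100, nat_lit 230516328⟩]⟩
noncomputable def p093_l91 : Lf2 := ⟨nat_lit 0, nat_lit 5, [nat_lit 4, nat_lit 5, nat_lit 5, nat_lit 20], false, nat_lit 240, nat_lit 276, nat_lit 64, nat_lit 332, ⟨nat_lit 105, nat_lit 895, nat_lit 0, nat_lit 8, nat_lit 326, nat_lit 895, nat_lit 193, nat_lit 0, nat_lit 0, nat_lit 0, nat_lit 0, nat_lit 0, nat_lit 33815705, nat_lit 23275671, nat_lit 9908624, nat_lit 5362273, true, true⟩,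
 nat_lit 0, nat_lit 0, nat_lit 1286, nat_lit 0, nat_lit 3216, nat_lit 835, nat_lit 0, nat_lit 0, nat_lit 0, nat_lit 58, nat_lit 0, nat_lit 0, nat_lit 0, nat_lit 0, nat_lit 0, nat_lit 435400, nat_lit 0, nat_lit 0, [(nat_lit 21, [(nat_lit 1, nat_lit 766), (nat_lit 2, nat_lit 129)])],
 ⟨p093_k43, nat_lit 0, nat_lit 0, nat_lit 55, nat_lit 0, nat_lit 0, [nat_lit 1432198000, nat_lit 1595422400], [], [nat_lit 26576608624, nat_lit 26992965792, nat_lit 28168625728, nat_lit 28548277112, nat_lit 27618038829, nat_lit 28007698390, nat_lit 29130990406, nat_lit 29554097181], nat_lit 0, nat_lit 0, nat_lit 0, nat_lit 0, nat_lit 0, nat_lit 0, [], [nat_lit 24, nat_lit 40, nat_lit 40, nat_lit 80, nat_lit 33, nat_lit 203, nat_lit 0, nat_lit 6]⟩, ⟨p093_k51, nat_lit 0, nat_lit 0, nat_lit 625, nat_lit 0, nat_lit 1238538, [nat_lit 344610000, nat_lit 656250000, nat_lit 836640000], [], [nat_lit 3255257361, nat_lit 3257497469, nat_lit 3383207355,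 nat_lit 3385342916, nat_lit 3165927582, nat_lit 3167084681, nat_lit 3239590085, nat_lit 3242333381], nat_lit 1271250, nat_lit 1271250, nat_lit 1271250, nat_lit 1271250, nat_lit 382400, nat_lit 2435950, [nat_lit 780000, nat_lit 1435000, nat_lit 1271250], [nat_lit 18, nat_lit 40, nat_lit 40, nat_lit 80, nat_lit 2, nat_lit 317, nat_lit 100, nat_lit 9]⟩,
 ⟨nat_lit 3535, nat_lit 3873, ⟨.ofNat (nat_lit 786177), .ofNat (nat_lit 850704), .ofNat (nat_lit 787267), .ofNat (nat_lit 851794), .ofNat (nat_lit 781574), .ofNat (nat_lit 844341), .ofNat (nat_lit 782671), .ofNat (nat_lit 845438)⟩, ⟨.ofNat (nat_lit 433760), .ofNat (nat_lit 491830), .ofNat (nat_lit 477347), .ofNat (nat_lit 535416), .ofNat (nat_lit 431044), .ofNat (nat_lit 487529), .ofNat (nat_lit 474949), .ofNat (nat_lit 531435)⟩⟩, [⟨nat_lit 16, nat_lit 77, nat_lit 100, nat_lit 99, nat_lit 213933415⟩, ⟨nat_lit 19, nat_lit 99, nat_lit 82, nat_lit 100, nat_lit 18944795⟩]⟩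
noncomputable def p093_l92 : Lf2 := ⟨nat_lit 0, nat_lit 5, [nat_lit 4, nat_lit 5, nat_lit 5, nat_lit 20], false, nat_lit 240, nat_lit 276, nat_lit 64, nat_lit 332, ⟨nat_lit 148, nat_lit 852, nat_lit 0, nat_lit 8, nat_lit 327, nat_lit 852, nat_lit 193, nat_lit 0, nat_lit 0, nat_lit 0, nat_lit 0, nat_lit 0, nat_lit 33786070, nat_lit 23312074, nat_lit 9901856, nat_lit 5362637, true, true⟩,
 nat_lit 0, nat_lit 0, nat_lit 1636, nat_lit 0, nat_lit 3273, nat_lit 1068, nat_lit 0, nat_lit 0, nat_lit 0, nat_lit 244, nat_lit 0, nat_lit 0, nat_lit 0, nat_lit 0, nat_lit 0, nat_lit 410400, nat_lit 0, nat_lit 0, [(nat_lit 21, [(nat_lit 1, nat_lit 736), (nat_lit 2, nat_lit 116)])],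
 ⟨p093_k43, nat_lit 0, nat_lit 0, nat_lit 55, nat_lit 0, nat_lit 0, [nat_lit 1460702400, nat_lit 1752104534], [], [nat_lit 26690172606, nat_lit 27109057610, nat_lit 28291389168, nat_lit 28673112445, nat_lit 27734662446, nat_lit 28126524703, nat_lit 29233484558, nat_lit 29612764967], nat_lit 0, nat_lit 0, nat_lit 0, nat_lit 0, nat_lit 0, nat_lit 0, [], [nat_lit 24, nat_lit 40, nat_lit 40, nat_lit 80, nat_lit 33, nat_lit 203, nat_lit 0, nat_lit 6]⟩, ⟨p093_k53, nat_lit 0, nat_lit 0, nat_lit 624, nat_lit 0, nat_lit 1237860, [nat_lit 485736000, nat_lit 925000000, nat_lit 1179264000], [], [nat_lit 4345180471, nat_lit 4349817585, nat_lit 4582602296, nat_lit 4586638456, nat_lit 4424408862, nat_lit 4426859169, nat_lit 4562864102, nat_lit 4564924973], nat_lit 1271250, nat_lit 1271250, nat_lit 1271250, nat_lit 1271250, nat_lit 382400, nat_lit 2435950, [nat_lit 780000, nat_lit 1435000, nat_lit 1271250], [nat_lit 18, nat_lit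 40, nat_lit 40, nat_lit 80, nat_lit 2, nat_lit 317, nat_lit 100, nat_lit 9]⟩,
 ⟨nat_lit 3535, nat_lit 3873, ⟨.ofNat (nat_lit 787267), .ofNat (nat_lit 851794), .ofNat (nat_lit 788356), .ofNat (nat_lit 852883), .ofNat (nat_lit 782671), .ofNat (nat_lit 845438), .ofNat (nat_lit 783769), .ofNat (nat_lit 846536)⟩, ⟨.ofNat (nat_lit 433760), .ofNat (nat_lit 491830), .ofNat (nat_lit 477347), .ofNat (nat_lit 535416), .ofNat (nat_lit 431044), .ofNat (nat_lit 487529), .ofNat (nat_lit 474949), .ofNat (nat_lit 531435)⟩⟩, [⟨nat_lit 16, nat_lit 77, nat_lit 100, nat_lit 99, nat_lit 226870739⟩, ⟨nat_lit 19, nat_lit 99, nat_lit 82, nat_lit 100, nat_lit 30014744⟩]⟩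
noncomputable def p093_l93 : Lf2 := ⟨nat_lit 0, nat_lit 5, [nat_lit 4, nat_lit 5, nat_lit 5, nat_lit 20], false, nat_lit 240, nat_lit 276, nat_lit 64, nat_lit 332, ⟨nat_lit 333, nat_lit 667, nat_lit 0, nat_lit 8, nat_lit 327, nat_lit 667, nat_lit 193, nat_lit 0, nat_lit 0, nat_lit 0, nat_lit 0, nat_lit 0, nat_lit 33756459, nat_lit 23348452, nat_lit 9895089, nat_lit 5362994, true, true⟩,
 nat_lit 0, nat_lit 0, nat_lit 3265, nat_lit 0, nat_lit 3494, nat_lit 2140, nat_lit 0, nat_lit 0, nat_lit 0, nat_lit 950, nat_lit 0, nat_lit 0, nat_lit 0, nat_lit 0, nat_lit 0, nat_lit 448000, nat_lit 0, nat_lit 0, [(nat_lit 21, [(nat_lit 1, nat_lit 365), (nat_lit 2, nat_lit 302)])],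
 ⟨p093_k43, nat_lit 0, nat_lit 0, nat_lit 55, nat_lit 0, nat_lit 0, [nat_lit 1594466400, nat_lit 2004824134], [], [nat_lit 26798961750, nat_lit 27227647662, nat_lit 28435846386, nat_lit 28825602792, nat_lit 27855314384, nat_lit 28255716921, nat_lit 29405219781, nat_lit 29840231294], nat_lit 0, nat_lit 0, nat_lit 0, nat_lit 0, nat_lit 0, nat_lit 0, [], [nat_lit 24, nat_lit 40, nat_lit 40, nat_lit 80, nat_lit 33, nat_lit 203, nat_lit 0, nat_lit 6]⟩, ⟨p093_k54, nat_lit 0, nat_lit 0, nat_lit 624, nat_lit 0, nat_lit 1237171, [nat_lit 1092906000, nat_lit 2081250000, nat_lit 2653344000], [], [nat_lit 9882926961, nat_lit 9889731813, nat_lit 10233745497, nat_lit 10239710217, nat_lit 9922890135, nat_lit 9926465123, nat_lit 10129355297, nat_lit 10132358816], nat_lit 1271250, nat_lit 1271250, nat_lit 1271250, nat_lit 1271250, nat_lit 382400, nat_lit 2435950, [nat_lit 780000, nat_lit 1435000, nat_lit 1271250], [nat_lit 18, nat_lit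 40, nat_lit 40, nat_lit 80, nat_lit 2, nat_lit 317, nat_lit 100, nat_lit 9]⟩,
 ⟨nat_lit 3535, nat_lit 3873, ⟨.ofNat (nat_lit 788356), .ofNat (nat_lit 852883), .ofNat (nat_lit 789445), .ofNat (nat_lit 853972), .ofNat (nat_lit 783769), .ofNat (nat_lit 846536), .ofNat (nat_lit 784866), .ofNat (nat_lit 847633)⟩, ⟨.ofNat (nat_lit 433760), .ofNat (nat_lit 491830), .ofNat (nat_lit 477347), .ofNat (nat_lit 535416), .ofNat (nat_lit 431044), .ofNat (nat_lit 487529), .ofNat (nat_lit 474949), .ofNat (nat_lit 531435)⟩⟩, [⟨nat_lit 16, nat_lit 77, nat_lit 100, nat_lit 99, nat_lit 289290137⟩, ⟨nat_lit 19, nat_lit 98, nat_lit 83, nat_lit 100, nat_lit 67186454⟩]⟩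
noncomputable def p093_l94 : Lf2 := ⟨nat_lit 0, nat_lit 5, [nat_lit 4, nat_lit 5, nat_lit 5, nat_lit 20], false, nat_lit 240, nat_lit 264, nat_lit 64, nat_lit 332, ⟨nat_lit 117, nat_lit 883, nat_lit 0, nat_lit 8, nat_lit 325, nat_lit 883, nat_lit 188, nat_lit 0, nat_lit 0, nat_lit 0, nat_lit 0, nat_lit 0, nat_lit 34161201, nat_lit 23262366, nat_lit 9576433, nat_lit 5325112, true, true⟩,
 nat_lit 0, nat_lit 0, nat_lit 1425, nat_lit 0, nat_lit 3047, nat_lit 926, nat_lit 155, nat_lit 0, nat_lit 0, nat_lit 64, nat_lit 0, nat_lit 0, nat_lit 0, nat_lit 0, nat_lit 0, nat_lit 353200, nat_lit 0, nat_lit 0, [(nat_lit 21, [(nat_lit 1, nat_lit 883)])],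
 ⟨p093_k47, nat_lit 0, nat_lit 0, nat_lit 58, nat_lit 0, nat_lit 0, [nat_lit 1434385601, nat_lit 1858868000], [], [nat_lit 26884630640, nat_lit 27293492996, nat_lit 28414018205, nat_lit 28787526608, nat_lit 27555714013, nat_lit 27947420638, nat_lit 29028305724, nat_lit 29454038856], nat_lit 0, nat_lit 0, nat_lit 0, nat_lit 0, nat_lit 0, nat_lit 0, [], [nat_lit 24, nat_lit 40, nat_lit 40, nat_lit 80, nat_lit 33, nat_lit 203, nat_lit 0, nat_lit 6]⟩, ⟨p093_k51, nat_lit 0, nat_lit 0, nat_lit 687, nat_lit 0, nat_lit 1393382, [nat_lit 383994000, nat_lit 731250000, nat_lit 932256000], [], [nat_lit 3650525593, nat_lit 3658010879, nat_lit 3790406603, nat_lit 3797543880, nat_lit 3551435020, nat_lit 3555313601, nat_lit 3633299130, nat_lit 3636377757], nat_lit 1271250, nat_lit 1271250, nat_lit 1271250, nat_lit 1271250, nat_lit 382400, nat_lit 2435950, [nat_lit 780000, nat_lit 1435000, nat_lit 1271250], [nat_lit 18, nat_lit 40,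 nat_lit 40, nat_lit 80, nat_lit 2, nat_lit 317, nat_lit 100, nat_lit 9]⟩,
 ⟨nat_lit 3162, nat_lit 3536, ⟨.ofNat (nat_lit 781578), .ofNat (nat_lit 844343), .ofNat (nat_lit 784870), .ofNat (nat_lit 847636), .ofNat (nat_lit 777014), .ofNat (nat_lit 837970), .ofNat (nat_lit 780336), .ofNat (nat_lit 841293)⟩, ⟨.ofNat (nat_lit 431044), .ofNat (nat_lit 468701), .ofNat (nat_lit 474949), .ofNat (nat_lit 512606), .ofNat (nat_lit 428022), .ofNat (nat_lit 464594), .ofNat (nat_lit 472332), .ofNat (nat_lit 508904)⟩⟩, [⟨nat_lit 16, nat_lit 69, nat_lit 100, nat_lit 96, nat_lit 251076965⟩, ⟨nat_lit 19, nat_lit 99, nat_lit 82, nat_lit 100, nat_lit 20985709⟩]⟩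
noncomputable def p093_l95 : Lf2 := ⟨nat_lit 0, nat_lit 5, [nat_lit 4, nat_lit 5, nat_lit 5, nat_lit 20], false, nat_lit 240, nat_lit 276, nat_lit 64, nat_lit 332, ⟨nat_lit 204, nat_lit 796, nat_lit 0, nat_lit 8, nat_lit 327, nat_lit 796, nat_lit 192, nat_lit 0, nat_lit 0, nat_lit 0, nat_lit 0, nat_lit 0, nat_lit 33817938, nat_lit 23331304, nat_lit 9850758, nat_lit 5357650, true, true⟩,
 nat_lit 0, nat_lit 0, nat_lit 1986, nat_lit 0, nat_lit 3392, nat_lit 1307, nat_lit 0, nat_lit 0, nat_lit 0, nat_lit 470, nat_lit 0, nat_lit 0, nat_lit 0, nat_lit 0, nat_lit 0, nat_lit 377800, nat_lit 0, nat_lit 0, [(nat_lit 21, [(nat_lit 1, nat_lit 697), (nat_lit 2, nat_lit 99)])],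
 ⟨p093_k43, nat_lit 0, nat_lit 0, nat_lit 59, nat_lit 0, nat_lit 0, [nat_lit 1497821201, nat_lit 1956277200], [], [nat_lit 26781936289, nat_lit 27630261121, nat_lit 28402358737, nat_lit 29211861872, nat_lit 27832813787, nat_lit 28627242980, nat_lit 29384236963, nat_lit 30165890423], nat_lit 0, nat_lit 0, nat_lit 0, nat_lit 0, nat_lit 0, nat_lit 0, [], [nat_lit 24, nat_lit 40, nat_lit 40, nat_lit 80, nat_lit 33, nat_lit 203, nat_lit 0, nat_lit 6]⟩, ⟨p093_k52, nat_lit 0, nat_lit 0, nat_lit 622, nat_lit 0, nat_lit 1381121, [nat_lit 669528000, nat_lit 1275000000], [], [nat_lit 6081799004, nat_lit 6090223682, nat_lit 6296797439, nat_lit 6304207914, nat_lit 6139999193, nat_lit 6144486661, nat_lit 6267412702, nat_lit 6271209281], nat_lit 1271250, nat_lit 1271250, nat_lit 1271250, nat_lit 1271250, nat_lit 382400, nat_lit 2435950, [nat_lit 780000, nat_lit 1435000], [nat_lit 49, nat_lit 40, nat_lit 40, nat_lit 80, nat_lit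 16, nat_lit 317, nat_lit 100, nat_lit 11]⟩,
 ⟨nat_lit 3162, nat_lit 3873, ⟨.ofNat (nat_lit 789425), .ofNat (nat_lit 853969), .ofNat (nat_lit 791601), .ofNat (nat_lit 856147), .ofNat (nat_lit 780311), .ofNat (nat_lit 841287), .ofNat (nat_lit 782524), .ofNat (nat_lit 843501)⟩, ⟨.ofNat (nat_lit 433760), .ofNat (nat_lit 491830), .ofNat (nat_lit 477347), .ofNat (nat_lit 535416), .ofNat (nat_lit 428022), .ofNat (nat_lit 482881), .ofNat (nat_lit 472332), .ofNat (nat_lit 527190)⟩⟩, [⟨nat_lit 4, nat_lit 100, nat_lit 67, nat_lit 88, nat_lit 327871439⟩, ⟨nat_lit 19, nat_lit 98, nat_lit 83, nat_lit 100, nat_lit 41790739⟩]⟩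
noncomputable def b_V_800_700_20_12 : St := ⟨true, nat_lit 0, nat_lit 1, nat_lit 1, nat_lit 120, nat_lit 320, nat_lit 360, nat_lit 285, nat_lit 290, nat_lit 320, nat_lit 360, nat_lit 80, nat_lit 120, nat_lit 240, nat_lit 300, nat_lit 64, nat_lit 336, nat_lit 0, nat_lit 20, nat_lit 0, nat_lit 0, nat_lit 800, nat_lit 0⟩
theorem d_V_800_700_20_12 (h : EB TB.env) : Dead b_V_800_700_20_12 := chkB_sound0 h (T :=
(.trX (nat_lit 19) (nat_lit 99) (nat_lit 82) (nat_lit 100) (nat_lit 332) (.spl (nat_lit 0) (nat_lit 340)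
(.spl (nat_lit 6) (nat_lit 8)
(.leaf p093_l86)
(.spl (nat_lit 1) (nat_lit 288)
(.spl (nat_lit 6) (nat_lit 16)
(.spl (nat_lit 0) (nat_lit 330)
(.leaf p093_l87)
(.trX (nat_lit 16) (nat_lit 83) (nat_lit 98) (nat_lit 100) (nat_lit 288) (.leaf p093_l88)))
(.leaf p093_l89))
(.leaf p093_l90)))
(.trX (nat_lit 16) (nat_lit 77) (nat_lit 100) (nat_lit 99) (nat_lit 276) (.spl (nat_lit 1) (nat_lit 288)
(.spl (nat_lit 0) (nat_lit 350)
(.spl (nat_lit 1) (nat_lit 287)
(.spl (nat_lit 1) (nat_lit 286)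
(.leaf p093_l91)
(.leaf p093_l92))
(.leaf p093_l93))
(.trX (nat_lit 16) (nat_lit 69) (nat_lit 100) (nat_lit 96) (nat_lit 264) (.leaf p093_l94)))
(.leaf p093_l95)))))) (by decide +kernel)
noncomputable def p093_l96 : Lf2 := ⟨nat_lit 0, nat_lit 10, [nat_lit 0, nat_lit 5, nat_lit 5, nat_lit 20], false, nat_lit 240, nat_lit 300, nat_lit 64, nat_lit 336, ⟨nat_lit 459, nat_lit 541, nat_lit 0, nat_lit 8, nat_lit 330, nat_lit 541, nat_lit 203, nat_lit 0, nat_lit 0, nat_lit 0, nat_lit 0, nat_lit 0, nat_lit 33175825, nat_lit 23270075, nat_lit 10554100, nat_lit 5429820, true, true⟩,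
 nat_lit 0, nat_lit 0, nat_lit 5777, nat_lit 0, nat_lit 4445, nat_lit 3675, nat_lit 0, nat_lit 0, nat_lit 0, nat_lit 305, nat_lit 0, nat_lit 0, nat_lit 0, nat_lit 0, nat_lit 0, nat_lit 135250, nat_lit 0, nat_lit 0, [(nat_lit 18, [(nat_lit 0, nat_lit 541)])],
 ⟨p093_k0, nat_lit 0, nat_lit 0, nat_lit 63, nat_lit 0, nat_lit 0, [nat_lit 1761932800, nat_lit 3324680001, nat_lit 4254792000], [], [nat_lit 26534511161, nat_lit 27528665851, nat_lit 28522820541, nat_lit 29415819331, nat_lit 28585114451, nat_lit 29457991719, nat_lit 30330868986, nat_lit 31116084871], nat_lit 0, nat_lit 0, nat_lit 0, nat_lit 0, nat_lit 0, nat_lit 0, [], [nat_lit 6, nat_lit 40, nat_lit 40, nat_lit 80, nat_lit 3, nat_lit 203, nat_lit 0, nat_lit 5]⟩, ⟨p093_k1, nat_lit 0, nat_lit 0, nat_lit 483, nat_lit 0, nat_lit 799949, [nat_lit 1506438000, nat_lit 2868750000, nat_lit 4517478000], [], [nat_lit 14148781081, nat_lit 14268053241, nat_lit 14799031407,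 nat_lit 14900831470, nat_lit 13993530320, nat_lit 14067030094, nat_lit 14432388084, nat_lit 14492848065], nat_lit 1271250, nat_lit 1271250, nat_lit 1271250, nat_lit 1271250, nat_lit 382400, nat_lit 2466600, [nat_lit 780000, nat_lit 1435000, nat_lit 1271250], [nat_lit 8, nat_lit 40, nat_lit 40, nat_lit 80, nat_lit 1, nat_lit 317, nat_lit 100, nat_lit 8]⟩,
 ⟨nat_lit 3872, nat_lit 4473, ⟨.ofNat (nat_lit 790153), .ofNat (nat_lit 858139), .ofNat (nat_lit 800927), .ofNat (nat_lit 868913), .ofNat (nat_lit 780691), .ofNat (nat_lit 845220), .ofNat (nat_lit 791578), .ofNat (nat_lit 856107)⟩, ⟨.ofNat (nat_lit 438578), .ofNat (nat_lit 540545), .ofNat (nat_lit 481711), .ofNat (nat_lit 583678), .ofNat (nat_lit 433760), .ofNat (nat_lit 530543), .ofNat (nat_lit 477347), .ofNat (nat_lit 574129)⟩⟩, [⟨nat_lit 16, nat_lit 81, nat_lit 100, nat_lit 92, nat_lit 343969328⟩, ⟨nat_lit 19, nat_lit 100, nat_lit 91, nat_lit 96, nat_lit 90224843⟩]⟩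
noncomputable def p093_l97 : Lf2 := ⟨nat_lit 0, nat_lit 10, [nat_lit 0, nat_lit 5, nat_lit 5, nat_lit 20], false, nat_lit 240, nat_lit 256, nat_lit 64, nat_lit 320, ⟨nat_lit 130, nat_lit 870, nat_lit 0, nat_lit 8, nat_lit 325, nat_lit 870, nat_lit 182, nat_lit 0, nat_lit 0, nat_lit 0, nat_lit 0, nat_lit 0, nat_lit 34409002, nat_lit 23459752, nat_lit 9131246, nat_lit 5279963, true, true⟩,
 nat_lit 0, nat_lit 0, nat_lit 1679, nat_lit 0, nat_lit 3420, nat_lit 1068, nat_lit 0, nat_lit 0, nat_lit 0, nat_lit 88, nat_lit 0, nat_lit 0, nat_lit 0, nat_lit 0, nat_lit 0, nat_lit 348000, nat_lit 0, nat_lit 0, [(nat_lit 21, [(nat_lit 1, nat_lit 870)])],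
 ⟨p093_k8, nat_lit 0, nat_lit 0, nat_lit 65, nat_lit 0, nat_lit 0, [nat_lit 1443184001, nat_lit 1908176001, nat_lit 2110540000], [], [nat_lit 26644014882, nat_lit 27531720241, nat_lit 28344131481, nat_lit 29156542721, nat_lit 27123664690, nat_lit 27992655554, nat_lit 28781279945, nat_lit 29617738544], nat_lit 0, nat_lit 0, nat_lit 0, nat_lit 0, nat_lit 0, nat_lit 0, [], [nat_lit 6, nat_lit 40, nat_lit 40, nat_lit 80, nat_lit 3, nat_lit 203, nat_lit 0, nat_lit 5]⟩, ⟨p093_k1, nat_lit 0, nat_lit 0, nat_lit 598, nat_lit 0, nat_lit 1049090, [nat_lit 426660000, nat_lit 812500000, nat_lit 1279460000], [], [nat_lit 4033725823, nat_lit 4058672585, nat_lit 4197735981, nat_lit 4224217363, nat_lit 3878428632, nat_lit 3893432758, nat_lit 3974998512, nat_lit 3986877066], nat_lit 1271250, nat_lit 1271250, nat_lit 1271250, nat_lit 1271250, nat_lit 382400, nat_lit 2344000, [nat_lit 780000, nat_lit 1435000, nat_lit 1271250], [nat_lit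 8, nat_lit 40, nat_lit 40, nat_lit 80, nat_lit 1, nat_lit 317, nat_lit 100, nat_lit 8]⟩,
 ⟨nat_lit 3162, nat_lit 3873, ⟨.ofNat (nat_lit 780717), .ofNat (nat_lit 845258), .ofNat (nat_lit 791601), .ofNat (nat_lit 856147), .ofNat (nat_lit 771459), .ofNat (nat_lit 832432), .ofNat (nat_lit 782524), .ofNat (nat_lit 843501)⟩, ⟨.ofNat (nat_lit 433760), .ofNat (nat_lit 459569), .ofNat (nat_lit 455554), .ofNat (nat_lit 481362), .ofNat (nat_lit 428022), .ofNat (nat_lit 452404), .ofNat (nat_lit 450177), .ofNat (nat_lit 474559)⟩⟩, [⟨nat_lit 16, nat_lit 74, nat_lit 100, nat_lit 90, nat_lit 241144822⟩, ⟨nat_lit 4, nat_lit 100, nat_lit 67, nat_lit 84, nat_lit 53348980⟩, ⟨nat_lit 19, nat_lit 100, nat_lit 88, nat_lit 94, nat_lit 22756617⟩]⟩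
noncomputable def p093_l98 : Lf2 := ⟨nat_lit 0, nat_lit 8, [nat_lit 50, nat_lit 5, nat_lit 5, nat_lit 20], false, nat_lit 240, nat_lit 276, nat_lit 64, nat_lit 336, ⟨nat_lit 139, nat_lit 861, nat_lit 0, nat_lit 8, nat_lit 325, nat_lit 861, nat_lit 198, nat_lit 0, nat_lit 0, nat_lit 0, nat_lit 0, nat_lit 0, nat_lit 33739259, nat_lit 23015776, nat_lit 10244965, nat_lit 5390270, true, true⟩,
 nat_lit 0, nat_lit 0, nat_lit 1693, nat_lit 0, nat_lit 3308, nat_lit 1077, nat_lit 0, nat_lit 0, nat_lit 0, nat_lit 68, nat_lit 0, nat_lit 0, nat_lit 0, nat_lit 0, nat_lit 0, nat_lit 387000, nat_lit 0, nat_lit 0, [(nat_lit 21, [(nat_lit 1, nat_lit 790), (nat_lit 2, nat_lit 71)])],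
 ⟨p093_k55, nat_lit 0, nat_lit 0, nat_lit 55, nat_lit 0, nat_lit 0, [nat_lit 1452541201, nat_lit 1802427733], [], [nat_lit 26688355846, nat_lit 27108793030, nat_lit 28295221198, nat_lit 28678216690, nat_lit 27734724409, nat_lit 28127939199, nat_lit 29255648211, nat_lit 29648789046], nat_lit 0, nat_lit 0, nat_lit 0, nat_lit 0, nat_lit 0, nat_lit 0, [], [nat_lit 24, nat_lit 40, nat_lit 40, nat_lit 80, nat_lit 33, nat_lit 203, nat_lit 0, nat_lit 6]⟩, ⟨p093_k56, nat_lit 0, nat_lit 0, nat_lit 402, nat_lit 0, nat_lit 714439, [nat_lit 456198000, nat_lit 868750000, nat_lit 1107552000], [], [nat_lit 4146563625, nat_lit 4162672077, nat_lit 4425554591, nat_lit 4439499648, nat_lit 4282421475, nat_lit 4290753975, nat_lit 4441808354, nat_lit 4448785399], nat_lit 1271250, nat_lit 1271250, nat_lit 1271250, nat_lit 1271250, nat_lit 382400, nat_lit 2466600, [nat_lit 780000, nat_lit 1435000, nat_lit 1271250], [nat_lit 18, nat_lit 40,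 nat_lit 40, nat_lit 80, nat_lit 2, nat_lit 317, nat_lit 100, nat_lit 9]⟩,
 ⟨nat_lit 3535, nat_lit 3873, ⟨.ofNat (nat_lit 780730), .ofNat (nat_lit 845257), .ofNat (nat_lit 783998), .ofNat (nat_lit 848525), .ofNat (nat_lit 776087), .ofNat (nat_lit 838854), .ofNat (nat_lit 779379), .ofNat (nat_lit 842146)⟩, ⟨.ofNat (nat_lit 455554), .ofNat (nat_lit 513623), .ofNat (nat_lit 477347), .ofNat (nat_lit 535416), .ofNat (nat_lit 452997), .ofNat (nat_lit 509482), .ofNat (nat_lit 474949), .ofNat (nat_lit 531435)⟩⟩, [⟨nat_lit 4, nat_lit 100, nat_lit 72, nat_lit 93, nat_lit 258603094⟩, ⟨nat_lit 19, nat_lit 100, nat_lit 80, nat_lit 100, nat_lit 28540877⟩]⟩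
noncomputable def p093_l99 : Lf2 := ⟨nat_lit 0, nat_lit 8, [nat_lit 50, nat_lit 5, nat_lit 5, nat_lit 20], false, nat_lit 240, nat_lit 264, nat_lit 64, nat_lit 336, ⟨nat_lit 119, nat_lit 881, nat_lit 0, nat_lit 8, nat_lit 323, nat_lit 881, nat_lit 192, nat_lit 0, nat_lit 0, nat_lit 0, nat_lit 0, nat_lit 0, nat_lit 34115572, nat_lit 22964028, nat_lit 9920400, nat_lit 5353829, true, true⟩,
 nat_lit 0, nat_lit 0, nat_lit 1508, nat_lit 0, nat_lit 3292, nat_lit 959, nat_lit 19, nat_lit 0, nat_lit 0, nat_lit 62, nat_lit 0, nat_lit 0, nat_lit 0, nat_lit 0, nat_lit 0, nat_lit 349250, nat_lit 0, nat_lit 0, [(nat_lit 21, [(nat_lit 0, nat_lit 21), (nat_lit 1, nat_lit 860)])],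
 ⟨p093_k57, nat_lit 0, nat_lit 0, nat_lit 58, nat_lit 0, nat_lit 0, [nat_lit 1440006401, nat_lit 1875347600], [], [nat_lit 27117619980, nat_lit 27537347596, nat_lit 28684589320, nat_lit 29085757547, nat_lit 27796539041, nat_lit 28198179240, nat_lit 29319885431, nat_lit 29713468082], nat_lit 0, nat_lit 0, nat_lit 0, nat_lit 0, nat_lit 0, nat_lit 0, [], [nat_lit 24, nat_lit 40, nat_lit 40, nat_lit 80, nat_lit 33, nat_lit 203, nat_lit 0, nat_lit 6]⟩, ⟨p093_k56, nat_lit 0, nat_lit 0, nat_lit 453, nat_lit 0, nat_lit 851894, [nat_lit 390558000, nat_lit 743750000, nat_lit 948192000], [], [nat_lit 3610793159, nat_lit 3621256569, nat_lit 3797467356, nat_lit 3806452840, nat_lit 3603187891, nat_lit 3608898150, nat_lit 3718100482, nat_lit 3726304646], nat_lit 1271250, nat_lit 1271250, nat_lit 1271250, nat_lit 1271250, nat_lit 382400, nat_lit 2466600, [nat_lit 780000, nat_lit 1435000, nat_lit 1271250], [nat_lit 18, nat_lit 40,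 nat_lit 40, nat_lit 80, nat_lit 2, nat_lit 317, nat_lit 100, nat_lit 9]⟩,
 ⟨nat_lit 3162, nat_lit 3536, ⟨.ofNat (nat_lit 776092), .ofNat (nat_lit 838855), .ofNat (nat_lit 779384), .ofNat (nat_lit 842148), .ofNat (nat_lit 771477), .ofNat (nat_lit 832432), .ofNat (nat_lit 774799), .ofNat (nat_lit 835755)⟩, ⟨.ofNat (nat_lit 452997), .ofNat (nat_lit 490654), .ofNat (nat_lit 474949), .ofNat (nat_lit 512606), .ofNat (nat_lit 450177), .ofNat (nat_lit 486749), .ofNat (nat_lit 472332), .ofNat (nat_lit 508904)⟩⟩, [⟨nat_lit 16, nat_lit 69, nat_lit 100, nat_lit 96, nat_lit 254569289⟩, ⟨nat_lit 19, nat_lit 100, nat_lit 80, nat_lit 100, nat_lit 22926700⟩]⟩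
noncomputable def p093_l100 : Lf2 := ⟨nat_lit 0, nat_lit 8, [nat_lit 50, nat_lit 5, nat_lit 5, nat_lit 20], false, nat_lit 240, nat_lit 276, nat_lit 64, nat_lit 336, ⟨nat_lit 635, nat_lit 365, nat_lit 0, nat_lit 8, nat_lit 326, nat_lit 365, nat_lit 198, nat_lit 0, nat_lit 0, nat_lit 0, nat_lit 0, nat_lit 0, nat_lit 33665961, nat_lit 23106487, nat_lit 10227552, nat_lit 5391235, true, true⟩,
 nat_lit 0, nat_lit 0, nat_lit 7639, nat_lit 0, nat_lit 4158, nat_lit 4924, nat_lit 0, nat_lit 0, nat_lit 0, nat_lit 342, nat_lit 0, nat_lit 0, nat_lit 0, nat_lit 0, nat_lit 0, nat_lit 365000, nat_lit 0, nat_lit 0, [(nat_lit 21, [(nat_lit 2, nat_lit 365)])],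
 ⟨p093_k55, nat_lit 0, nat_lit 0, nat_lit 55, nat_lit 0, nat_lit 0, [nat_lit 1801758001, nat_lit 2836489333], [], [nat_lit 27187152273, nat_lit 27670447591, nat_lit 29024177185, nat_lit 29459394323, nat_lit 28327844384, nat_lit 28776526734, nat_lit 30060213683, nat_lit 30523659536], nat_lit 0, nat_lit 0, nat_lit 0, nat_lit 0, nat_lit 0, nat_lit 0, [], [nat_lit 24, nat_lit 40, nat_lit 40, nat_lit 80, nat_lit 33, nat_lit 203, nat_lit 0, nat_lit 6]⟩, ⟨p093_k58, nat_lit 0, nat_lit 0, nat_lit 403, nat_lit 0, nat_lit 714750, [nat_lit 2084070000, nat_lit 3968750000, nat_lit 5059680000], [], [nat_lit 18648252109, nat_lit 18697326546, nat_lit 19913397476, nat_lit 19955878774, nat_lit 19247810526, nat_lit 19276232979, nat_lit 20039363185, nat_lit 20063365735], nat_lit 1271250, nat_lit 1271250, nat_lit 1271250, nat_lit 1271250, nat_lit 382400, nat_lit 2466600, [nat_lit 780000, nat_lit 1435000, nat_lit 1271250], [nat_lit 18,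 nat_lit 40, nat_lit 40, nat_lit 80, nat_lit 2, nat_lit 317, nat_lit 100, nat_lit 9]⟩,
 ⟨nat_lit 3535, nat_lit 3873, ⟨.ofNat (nat_lit 783998), .ofNat (nat_lit 848525), .ofNat (nat_lit 786177), .ofNat (nat_lit 850704), .ofNat (nat_lit 779379), .ofNat (nat_lit 842146), .ofNat (nat_lit 781574), .ofNat (nat_lit 844341)⟩, ⟨.ofNat (nat_lit 455554), .ofNat (nat_lit 513623), .ofNat (nat_lit 477347), .ofNat (nat_lit 535416), .ofNat (nat_lit 452997), .ofNat (nat_lit 509482), .ofNat (nat_lit 474949), .ofNat (nat_lit 531435)⟩⟩, [⟨nat_lit 4, nat_lit 100, nat_lit 72, nat_lit 93, nat_lit 429565592⟩, ⟨nat_lit 19, nat_lit 99, nat_lit 81, nat_lit 100, nat_lit 133336776⟩]⟩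
noncomputable def p093_l101 : Lf2 := ⟨nat_lit 0, nat_lit 8, [nat_lit 50, nat_lit 5, nat_lit 5, nat_lit 20], false, nat_lit 240, nat_lit 264, nat_lit 64, nat_lit 336, ⟨nat_lit 126, nat_lit 874, nat_lit 0, nat_lit 8, nat_lit 324, nat_lit 874, nat_lit 192, nat_lit 0, nat_lit 0, nat_lit 0, nat_lit 0, nat_lit 0, nat_lit 34040351, nat_lit 23056203, nat_lit 9903446, nat_lit 5354915, true, true⟩,
 nat_lit 0, nat_lit 0, nat_lit 1542, nat_lit 0, nat_lit 3292, nat_lit 993, nat_lit 22, nat_lit 0, nat_lit 0, nat_lit 67, nat_lit 0, nat_lit 0, nat_lit 0, nat_lit 0, nat_lit 0, nat_lit 349600, nat_lit 0, nat_lit 0, [(nat_lit 21, [(nat_lit 1, nat_lit 874)])],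
 ⟨p093_k57, nat_lit 0, nat_lit 0, nat_lit 58, nat_lit 0, nat_lit 0, [nat_lit 1440476800, nat_lit 1887704000], [], [nat_lit 27119243654, nat_lit 27538971270, nat_lit 28686212994, nat_lit 29086910822, nat_lit 27798162715, nat_lit 28199802914, nat_lit 29321038706, nat_lit 29713468082], nat_lit 0, nat_lit 0, nat_lit 0, nat_lit 0, nat_lit 0, nat_lit 0, [], [nat_lit 24, nat_lit 40, nat_lit 40, nat_lit 80, nat_lit 33, nat_lit 203, nat_lit 0, nat_lit 6]⟩, ⟨p093_k58, nat_lit 0, nat_lit 0, nat_lit 452, nat_lit 0, nat_lit 848889, [nat_lit 413532000, nat_lit 787500000, nat_lit 1003968000], [], [nat_lit 3840968710, nat_lit 3848310442, nat_lit 4035223287, nat_lit 4041541108, nat_lit 3840058007, nat_lit 3844104122, nat_lit 3959130987, nat_lit 3962470458], nat_lit 1271250, nat_lit 1271250, nat_lit 1271250, nat_lit 1271250, nat_lit 382400, nat_lit 2466600, [nat_lit 780000, nat_lit 1435000, nat_lit 1271250], [nat_lit 18, nat_lit 40,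 nat_lit 40, nat_lit 80, nat_lit 2, nat_lit 317, nat_lit 100, nat_lit 9]⟩,
 ⟨nat_lit 3162, nat_lit 3536, ⟨.ofNat (nat_lit 779384), .ofNat (nat_lit 842148), .ofNat (nat_lit 781578), .ofNat (nat_lit 844343), .ofNat (nat_lit 774799), .ofNat (nat_lit 835755), .ofNat (nat_lit 777014), .ofNat (nat_lit 837970)⟩, ⟨.ofNat (nat_lit 452997), .ofNat (nat_lit 490654), .ofNat (nat_lit 474949), .ofNat (nat_lit 512606), .ofNat (nat_lit 450177), .ofNat (nat_lit 486749), .ofNat (nat_lit 472332), .ofNat (nat_lit 508904)⟩⟩, [⟨nat_lit 16, nat_lit 69, nat_lit 100, nat_lit 96, nat_lit 256905131⟩, ⟨nat_lit 19, nat_lit 99, nat_lit 81, nat_lit 100, nat_lit 24540766⟩]⟩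
noncomputable def p093_l102 : Lf2 := ⟨nat_lit 0, nat_lit 10, [nat_lit 0, nat_lit 5, nat_lit 5, nat_lit 20], false, nat_lit 240, nat_lit 276, nat_lit 64, nat_lit 336, ⟨nat_lit 839, nat_lit 161, nat_lit 0, nat_lit 8, nat_lit 324, nat_lit 161, nat_lit 197, nat_lit 0, nat_lit 0, nat_lit 0, nat_lit 0, nat_lit 0, nat_lit 33815500, nat_lit 22979050, nat_lit 10205450, nat_lit 5384950, true, true⟩,
 nat_lit 0, nat_lit 0, nat_lit 10033, nat_lit 0, nat_lit 5177, nat_lit 6384, nat_lit 0, nat_lit 0, nat_lit 0, nat_lit 525, nat_lit 0, nat_lit 0, nat_lit 0, nat_lit 0, nat_lit 0, nat_lit 64400, nat_lit 0, nat_lit 0, [(nat_lit 21, [(nat_lit 1, nat_lit 161)])],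
 ⟨p093_k8, nat_lit 0, nat_lit 0, nat_lit 66, nat_lit 0, nat_lit 0, [nat_lit 1923035200, nat_lit 4173572800, nat_lit 5483962000], [], [nat_lit 28003455410, nat_lit 29067912844, nat_lit 30018462938, nat_lit 30969340040, nat_lit 29204163462, nat_lit 30186824271, nat_lit 31065392579, nat_lit 32079557150], nat_lit 0, nat_lit 0, nat_lit 0, nat_lit 0, nat_lit 0, nat_lit 0, [], [nat_lit 6, nat_lit 40, nat_lit 40, nat_lit 80, nat_lit 3, nat_lit 203, nat_lit 0, nat_lit 5]⟩, ⟨p093_k1, nat_lit 0, nat_lit 0, nat_lit 444, nat_lit 0, nat_lit 689553, [nat_lit 2753598000, nat_lit 5243750000, nat_lit 8257438000], [], [nat_lit 25935517241, nat_lit 26079563953, nat_lit 27451178942, nat_lit 27575555270, nat_lit 26291038019, nat_lit 26364289711, nat_lit 27152507884, nat_lit 27215183790], nat_lit 1271250, nat_lit 1271250, nat_lit 1271250, nat_lit 1271250, nat_lit 382400, nat_lit 2466600, [nat_lit 780000, nat_lit 1435000, nat_lit 1271250],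 [nat_lit 8, nat_lit 40, nat_lit 40, nat_lit 80, nat_lit 1, nat_lit 317, nat_lit 100, nat_lit 8]⟩,
 ⟨nat_lit 3162, nat_lit 3873, ⟨.ofNat (nat_lit 780717), .ofNat (nat_lit 845258), .ofNat (nat_lit 786160), .ofNat (nat_lit 850703), .ofNat (nat_lit 771459), .ofNat (nat_lit 832432), .ofNat (nat_lit 776992), .ofNat (nat_lit 837968)⟩, ⟨.ofNat (nat_lit 455554), .ofNat (nat_lit 513623), .ofNat (nat_lit 477347), .ofNat (nat_lit 535416), .ofNat (nat_lit 450177), .ofNat (nat_lit 505035), .ofNat (nat_lit 472332), .ofNat (nat_lit 527190)⟩⟩, [⟨nat_lit 16, nat_lit 68, nat_lit 100, nat_lit 92, nat_lit 691131020⟩, ⟨nat_lit 7, nat_lit 85, nat_lit 100, nat_lit 98, nat_lit 168796003⟩]⟩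
noncomputable def p093_l103 : Lf2 := ⟨nat_lit 0, nat_lit 10, [nat_lit 0, nat_lit 5, nat_lit 5, nat_lit 20], false, nat_lit 240, nat_lit 276, nat_lit 64, nat_lit 332, ⟨nat_lit 649, nat_lit 351, nat_lit 0, nat_lit 8, nat_lit 327, nat_lit 351, nat_lit 198, nat_lit 0, nat_lit 0, nat_lit 0, nat_lit 0, nat_lit 0, nat_lit 33592774, nat_lit 23197094, nat_lit 10210132, nat_lit 5392151, true, true⟩,
 nat_lit 0, nat_lit 0, nat_lit 7608, nat_lit 0, nat_lit 4213, nat_lit 4946, nat_lit 0, nat_lit 0, nat_lit 0, nat_lit 445, nat_lit 0, nat_lit 0, nat_lit 0, nat_lit 0, nat_lit 0, nat_lit 351000, nat_lit 0, nat_lit 0, [(nat_lit 21, [(nat_lit 2, nat_lit 351)])],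
 ⟨p093_k8, nat_lit 0, nat_lit 0, nat_lit 64, nat_lit 0, nat_lit 0, [nat_lit 1810589201, nat_lit 2991827600, nat_lit 3658637200], [], [nat_lit 27314381690, nat_lit 27800318163, nat_lit 29161013122, nat_lit 29598392365, nat_lit 28458313130, nat_lit 28909297387, nat_lit 30172893944, nat_lit 30580268803], nat_lit 0, nat_lit 0, nat_lit 0, nat_lit 0, nat_lit 0, nat_lit 0, [], [nat_lit 6, nat_lit 40, nat_lit 40, nat_lit 80, nat_lit 3, nat_lit 203, nat_lit 0, nat_lit 5]⟩, ⟨p093_k19, nat_lit 0, nat_lit 0, nat_lit 458, nat_lit 0, nat_lit 729807, [nat_lit 2130018000, nat_lit 4056250000, nat_lit 6387458000], [], [nat_lit 19308234056, nat_lit 19375124481, nat_lit 20466276808, nat_lit 20524025813, nat_lit 19507752953, nat_lit 19551960136, nat_lit 20318189427, nat_lit 20357956444], nat_lit 1271250, nat_lit 1271250, nat_lit 1271250, nat_lit 1271250, nat_lit 382400, nat_lit 2435950, [nat_lit 780000, nat_lit 1435000, nat_lit 1271250],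 [nat_lit 8, nat_lit 40, nat_lit 40, nat_lit 80, nat_lit 1, nat_lit 317, nat_lit 100, nat_lit 8]⟩,
 ⟨nat_lit 3535, nat_lit 3873, ⟨.ofNat (nat_lit 786177), .ofNat (nat_lit 850704), .ofNat (nat_lit 789445), .ofNat (nat_lit 853972), .ofNat (nat_lit 781574), .ofNat (nat_lit 844341), .ofNat (nat_lit 784866), .ofNat (nat_lit 847633)⟩, ⟨.ofNat (nat_lit 455554), .ofNat (nat_lit 513623), .ofNat (nat_lit 477347), .ofNat (nat_lit 535416), .ofNat (nat_lit 452997), .ofNat (nat_lit 509482), .ofNat (nat_lit 474949), .ofNat (nat_lit 531435)⟩⟩, [⟨nat_lit 4, nat_lit 100, nat_lit 72, nat_lit 93, nat_lit 434941619⟩, ⟨nat_lit 19, nat_lit 99, nat_lit 82, nat_lit 100, nat_lit 130613390⟩]⟩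
noncomputable def p093_l104 : Lf2 := ⟨nat_lit 0, nat_lit 10, [nat_lit 0, nat_lit 5, nat_lit 5, nat_lit 20], false, nat_lit 240, nat_lit 264, nat_lit 64, nat_lit 332, ⟨nat_lit 162, nat_lit 838, nat_lit 0, nat_lit 8, nat_lit 326, nat_lit 838, nat_lit 193, nat_lit 0, nat_lit 0, nat_lit 0, nat_lit 0, nat_lit 0, nat_lit 33892712, nat_lit 23199977, nat_lit 9907311, nat_lit 5359819, true, true⟩,
 nat_lit 0, nat_lit 0, nat_lit 1895, nat_lit 0, nat_lit 3287, nat_lit 1232, nat_lit 64, nat_lit 0, nat_lit 0, nat_lit 111, nat_lit 0, nat_lit 0, nat_lit 0, nat_lit 0, nat_lit 0, nat_lit 335200, nat_lit 0, nat_lit 0, [(nat_lit 21, [(nat_lit 1, nat_lit 838)])],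
 ⟨p093_k12, nat_lit 0, nat_lit 0, nat_lit 55, nat_lit 0, nat_lit 0, [nat_lit 1464841600, nat_lit 2003048000], [], [nat_lit 27108169644, nat_lit 27234021407, nat_lit 28674372009, nat_lit 28789041658, nat_lit 27786928793, nat_lit 27907360035, nat_lit 29286572287, nat_lit 29402598870], nat_lit 0, nat_lit 0, nat_lit 0, nat_lit 0, nat_lit 0, nat_lit 0, [], [nat_lit 24, nat_lit 40, nat_lit 40, nat_lit 80, nat_lit 33, nat_lit 203, nat_lit 0, nat_lit 6]⟩, ⟨p093_k19, nat_lit 0, nat_lit 0, nat_lit 472, nat_lit 0, nat_lit 769000, [nat_lit 531684000, nat_lit 1012500000, nat_lit 1594404000], [], [nat_lit 4826478810, nat_lit 4843163923, nat_lit 5115263225, nat_lit 5129670511, nat_lit 4877097522, nat_lit 4888130037, nat_lit 5079261588, nat_lit 5088614464], nat_lit 1271250, nat_lit 1271250, nat_lit 1271250, nat_lit 1271250, nat_lit 382400, nat_lit 2435950, [nat_lit 780000, nat_lit 1435000, nat_lit 1271250], [nat_lit 8, nat_lit 40,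 nat_lit 40, nat_lit 80, nat_lit 1, nat_lit 317, nat_lit 100, nat_lit 8]⟩,
 ⟨nat_lit 3427, nat_lit 3536, ⟨.ofNat (nat_lit 781581), .ofNat (nat_lit 844343), .ofNat (nat_lit 784874), .ofNat (nat_lit 847636), .ofNat (nat_lit 780209), .ofNat (nat_lit 842435), .ofNat (nat_lit 783510), .ofNat (nat_lit 845736)⟩, ⟨.ofNat (nat_lit 452997), .ofNat (nat_lit 490654), .ofNat (nat_lit 474949), .ofNat (nat_lit 512606), .ofNat (nat_lit 452183), .ofNat (nat_lit 489518), .ofNat (nat_lit 474191), .ofNat (nat_lit 511526)⟩⟩, [⟨nat_lit 16, nat_lit 69, nat_lit 100, nat_lit 96, nat_lit 261857537⟩, ⟨nat_lit 19, nat_lit 99, nat_lit 82, nat_lit 100, nat_lit 32539857⟩]⟩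
noncomputable def p093_l105 : Lf2 := ⟨nat_lit 0, nat_lit 10, [nat_lit 0, nat_lit 5, nat_lit 5, nat_lit 20], false, nat_lit 240, nat_lit 260, nat_lit 64, nat_lit 332, ⟨nat_lit 155, nat_lit 845, nat_lit 0, nat_lit 8, nat_lit 325, nat_lit 845, nat_lit 191, nat_lit 0, nat_lit 0, nat_lit 0, nat_lit 0, nat_lit 0, nat_lit 33999081, nat_lit 23195007, nat_lit 9805912, nat_lit 5348570, true, true⟩,
 nat_lit 0, nat_lit 0, nat_lit 1853, nat_lit 0, nat_lit 3281, nat_lit 1204, nat_lit 55, nat_lit 0, nat_lit 0, nat_lit 106, nat_lit 0, nat_lit 0, nat_lit 0, nat_lit 0, nat_lit 0, nat_lit 338000, nat_lit 0, nat_lit 0, [(nat_lit 21, [(nat_lit 1, nat_lit 845)])],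
 ⟨p093_k59, nat_lit 0, nat_lit 0, nat_lit 56, nat_lit 0, nat_lit 0, [nat_lit 1460104001, nat_lit 1980620000], [], [nat_lit 27226517860, nat_lit 27310365817, nat_lit 28780632139, nat_lit 28857034953, nat_lit 27787479175, nat_lit 27868319535, nat_lit 29286672861, nat_lit 29366935405], nat_lit 0, nat_lit 0, nat_lit 0, nat_lit 0, nat_lit 0, nat_lit 0, [], [nat_lit 24, nat_lit 40, nat_lit 40, nat_lit 80, nat_lit 33, nat_lit 203, nat_lit 0, nat_lit 6]⟩, ⟨p093_k19, nat_lit 0, nat_lit 0, nat_lit 481, nat_lit 0, nat_lit 795423, [nat_lit 508710000, nat_lit 968750000, nat_lit 1525510000], [], [nat_lit 4713910484, nat_lit 4725921576, nat_lit 4928106535, nat_lit 4938391701, nat_lit 4668501475, nat_lit 4676120158, nat_lit 4815728826, nat_lit 4823727339], nat_lit 1271250, nat_lit 1271250, nat_lit 1271250, nat_lit 1271250, nat_lit 382400, nat_lit 2435950, [nat_lit 780000, nat_lit 1435000, nat_lit 1271250], [nat_lit 8, nat_lit 40,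 nat_lit 40, nat_lit 80, nat_lit 1, nat_lit 317, nat_lit 100, nat_lit 8]⟩,
 ⟨nat_lit 3354, nat_lit 3428, ⟨.ofNat (nat_lit 780209), .ofNat (nat_lit 842435), .ofNat (nat_lit 783510), .ofNat (nat_lit 845736), .ofNat (nat_lit 779296), .ofNat (nat_lit 841161), .ofNat (nat_lit 782603), .ofNat (nat_lit 844468)⟩, ⟨.ofNat (nat_lit 452183), .ofNat (nat_lit 483295), .ofNat (nat_lit 474191), .ofNat (nat_lit 505304), .ofNat (nat_lit 451626), .ofNat (nat_lit 482559), .ofNat (nat_lit 473673), .ofNat (nat_lit 504606)⟩⟩, [⟨nat_lit 16, nat_lit 67, nat_lit 100, nat_lit 96, nat_lit 267637149⟩, ⟨nat_lit 19, nat_lit 99, nat_lit 82, nat_lit 100, nat_lit 29766787⟩]⟩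
noncomputable def p093_l106 : Lf2 := ⟨nat_lit 0, nat_lit 10, [nat_lit 0, nat_lit 5, nat_lit 5, nat_lit 20], false, nat_lit 240, nat_lit 256, nat_lit 64, nat_lit 332, ⟨nat_lit 121, nat_lit 879, nat_lit 0, nat_lit 8, nat_lit 324, nat_lit 879, nat_lit 190, nat_lit 0, nat_lit 0, nat_lit 0, nat_lit 0, nat_lit 0, nat_lit 34125998, nat_lit 23174531, nat_lit 9699471, nat_lit 5336149, true, true⟩,
 nat_lit 0, nat_lit 0, nat_lit 1449, nat_lit 0, nat_lit 3490, nat_lit 941, nat_lit 60, nat_lit 0, nat_lit 0, nat_lit 83, nat_lit 0, nat_lit 0, nat_lit 0, nat_lit 0, nat_lit 0, nat_lit 219750, nat_lit 0, nat_lit 0, [(nat_lit 21, [(nat_lit 0, nat_lit 879)])],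
 ⟨p093_k60, nat_lit 0, nat_lit 0, nat_lit 57, nat_lit 0, nat_lit 0, [nat_lit 1615705600, nat_lit 2293252400], [], [nat_lit 27494105640, nat_lit 27708359900, nat_lit 29071998435, nat_lit 29266803940, nat_lit 27944659901, nat_lit 28152634036, nat_lit 29476961839, nat_lit 29691245768], nat_lit 0, nat_lit 0, nat_lit 0, nat_lit 0, nat_lit 0, nat_lit 0, [], [nat_lit 24, nat_lit 40, nat_lit 40, nat_lit 80, nat_lit 33, nat_lit 203, nat_lit 0, nat_lit 6]⟩, ⟨p093_k19, nat_lit 0, nat_lit 0, nat_lit 505, nat_lit 0, nat_lit 862483, [nat_lit 397122000, nat_lit 756250000, nat_lit 1190882000], [], [nat_lit 3674023657, nat_lit 3683402205, nat_lit 3841307415, nat_lit 3849337311, nat_lit 3639571482, nat_lit 3645517940, nat_lit 3754527234, nat_lit 3763509987], nat_lit 1271250, nat_lit 1271250, nat_lit 1271250, nat_lit 1271250, nat_lit 382400, nat_lit 2435950, [nat_lit 780000, nat_lit 1435000, nat_lit 1271250], [nat_lit 8, nat_lit 40,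 nat_lit 40, nat_lit 80, nat_lit 1, nat_lit 317, nat_lit 100, nat_lit 8]⟩,
 ⟨nat_lit 3162, nat_lit 3355, ⟨.ofNat (nat_lit 779296), .ofNat (nat_lit 841161), .ofNat (nat_lit 782602), .ofNat (nat_lit 844468), .ofNat (nat_lit 777016), .ofNat (nat_lit 837970), .ofNat (nat_lit 780339), .ofNat (nat_lit 841293)⟩, ⟨.ofNat (nat_lit 451626), .ofNat (nat_lit 476372), .ofNat (nat_lit 473673), .ofNat (nat_lit 498420), .ofNat (nat_lit 450177), .ofNat (nat_lit 474559), .ofNat (nat_lit 472332), .ofNat (nat_lit 496714)⟩⟩, [⟨nat_lit 16, nat_lit 66, nat_lit 100, nat_lit 95, nat_lit 263455420⟩, ⟨nat_lit 19, nat_lit 99, nat_lit 82, nat_lit 100, nat_lit 23273443⟩]⟩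
noncomputable def p093_l107 : Lf2 := ⟨nat_lit 0, nat_lit 10, [nat_lit 0, nat_lit 5, nat_lit 5, nat_lit 20], false, nat_lit 240, nat_lit 276, nat_lit 64, nat_lit 332, ⟨nat_lit 977, nat_lit 23, nat_lit 0, nat_lit 8, nat_lit 328, nat_lit 23, nat_lit 198, nat_lit 0, nat_lit 0, nat_lit 0, nat_lit 0, nat_lit 0, nat_lit 33519699, nat_lit 23287595, nat_lit 10192706, nat_lit 5393018, true, true⟩,
 nat_lit 0, nat_lit 0, nat_lit 10572, nat_lit 0, nat_lit 5579, nat_lit 6961, nat_lit 0, nat_lit 0, nat_lit 0, nat_lit 1161, nat_lit 0, nat_lit 0, nat_lit 0, nat_lit 0, nat_lit 0, nat_lit 9200, nat_lit 0, nat_lit 0, [(nat_lit 21, [(nat_lit 1, nat_lit 23)])],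
 ⟨p093_k8, nat_lit 0, nat_lit 0, nat_lit 64, nat_lit 0, nat_lit 0, [nat_lit 2016433601, nat_lit 4614510400, nat_lit 6140566000], [], [nat_lit 28238942870, nat_lit 28790476029, nat_lit 30324165326, nat_lit 30815243395, nat_lit 29463327476, nat_lit 29971482726, nat_lit 31461940092, nat_lit 31986237143], nat_lit 0, nat_lit 0, nat_lit 0, nat_lit 0, nat_lit 0, nat_lit 0, [], [nat_lit 6, nat_lit 40, nat_lit 40, nat_lit 80, nat_lit 3, nat_lit 203, nat_lit 0, nat_lit 5]⟩, ⟨p093_k61, nat_lit 0, nat_lit 0, nat_lit 408, nat_lit 0, nat_lit 730117, [nat_lit 3206514000, nat_lit 6106250000, nat_lit 7784736000], [], [nat_lit 27670383350, nat_lit 27750567311, nat_lit 29673020310, nat_lit 29742980181, nat_lit 29203416034, nat_lit 29247501731, nat_lit 30389021349, nat_lit 30426705676], nat_lit 1271250, nat_lit 1271250, nat_lit 1271250, nat_lit 1271250, nat_lit 382400, nat_lit 2435950, [nat_lit 780000, nat_lit 1435000, nat_lit 1271250],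 [nat_lit 18, nat_lit 40, nat_lit 40, nat_lit 80, nat_lit 2, nat_lit 317, nat_lit 100, nat_lit 9]⟩,
 ⟨nat_lit 3535, nat_lit 3873, ⟨.ofNat (nat_lit 789445), .ofNat (nat_lit 853972), .ofNat (nat_lit 791624), .ofNat (nat_lit 856151), .ofNat (nat_lit 784866), .ofNat (nat_lit 847633), .ofNat (nat_lit 787061), .ofNat (nat_lit 849828)⟩, ⟨.ofNat (nat_lit 455554), .ofNat (nat_lit 513623), .ofNat (nat_lit 477347), .ofNat (nat_lit 535416), .ofNat (nat_lit 452997), .ofNat (nat_lit 509482), .ofNat (nat_lit 474949), .ofNat (nat_lit 531435)⟩⟩, [⟨nat_lit 4, nat_lit 100, nat_lit 72, nat_lit 93, nat_lit 583832995⟩, ⟨nat_lit 7, nat_lit 89, nat_lit 100, nat_lit 100, nat_lit 212029824⟩]⟩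
noncomputable def p093_l108 : Lf2 := ⟨nat_lit 0, nat_lit 10, [nat_lit 0, nat_lit 5, nat_lit 5, nat_lit 20], false, nat_lit 240, nat_lit 264, nat_lit 64, nat_lit 332, ⟨nat_lit 641, nat_lit 359, nat_lit 0, nat_lit 8, nat_lit 326, nat_lit 359, nat_lit 193, nat_lit 0, nat_lit 0, nat_lit 0, nat_lit 0, nat_lit 0, nat_lit 33838574, nat_lit 23276808, nat_lit 9884618, nat_lit 5359696, true, true⟩,
 nat_lit 0, nat_lit 0, nat_lit 6289, nat_lit 0, nat_lit 3736, nat_lit 4141, nat_lit 315, nat_lit 0, nat_lit 0, nat_lit 1540, nat_lit 0, nat_lit 0, nat_lit 0, nat_lit 0, nat_lit 0, nat_lit 143600, nat_lit 0, nat_lit 0, [(nat_lit 21, [(nat_lit 1, nat_lit 359)])],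
 ⟨p093_k12, nat_lit 0, nat_lit 0, nat_lit 56, nat_lit 0, nat_lit 0, [nat_lit 1789028801, nat_lit 3537764000], [], [nat_lit 27485472308, nat_lit 27705181372, nat_lit 29120549028, nat_lit 29319825460, nat_lit 28178591555, nat_lit 28388412688, nat_lit 29753969023, nat_lit 29955245138], nat_lit 0, nat_lit 0, nat_lit 0, nat_lit 0, nat_lit 0, nat_lit 0, [], [nat_lit 24, nat_lit 40, nat_lit 40, nat_lit 80, nat_lit 33, nat_lit 203, nat_lit 0, nat_lit 6]⟩, ⟨p093_k61, nat_lit 0, nat_lit 0, nat_lit 432, nat_lit 0, nat_lit 794258, [nat_lit 2103762000, nat_lit 4006250000, nat_lit 5107488000], [], [nat_lit 18433672193, nat_lit 18467959891, nat_lit 19300248973, nat_lit 19330362486, nat_lit 18924879323, nat_lit 18946406271, nat_lit 19511303691, nat_lit 19529743585], nat_lit 1271250, nat_lit 1271250, nat_lit 1271250, nat_lit 1271250, nat_lit 382400, nat_lit 2435950, [nat_lit 780000, nat_lit 1435000, nat_lit 1271250], [nat_lit 18,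 nat_lit 40, nat_lit 40, nat_lit 80, nat_lit 2, nat_lit 317, nat_lit 100, nat_lit 9]⟩,
 ⟨nat_lit 3354, nat_lit 3536, ⟨.ofNat (nat_lit 784873), .ofNat (nat_lit 847636), .ofNat (nat_lit 787068), .ofNat (nat_lit 849831), .ofNat (nat_lit 782602), .ofNat (nat_lit 844468), .ofNat (nat_lit 784807), .ofNat (nat_lit 846673)⟩, ⟨.ofNat (nat_lit 452997), .ofNat (nat_lit 490654), .ofNat (nat_lit 474949), .ofNat (nat_lit 512606), .ofNat (nat_lit 451626), .ofNat (nat_lit 488745), .ofNat (nat_lit 473673), .ofNat (nat_lit 510793)⟩⟩, [⟨nat_lit 16, nat_lit 69, nat_lit 100, nat_lit 96, nat_lit 429502568⟩, ⟨nat_lit 19, nat_lit 98, nat_lit 83, nat_lit 100, nat_lit 137226924⟩]⟩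
noncomputable def p093_l109 : Lf2 := ⟨nat_lit 0, nat_lit 10, [nat_lit 0, nat_lit 5, nat_lit 5, nat_lit 20], false, nat_lit 240, nat_lit 256, nat_lit 64, nat_lit 332, ⟨nat_lit 145, nat_lit 855, nat_lit 0, nat_lit 8, nat_lit 325, nat_lit 855, nat_lit 190, nat_lit 0, nat_lit 0, nat_lit 0, nat_lit 0, nat_lit 0, nat_lit 34050172, nat_lit 23267038, nat_lit 9682790, nat_lit 5337169, true, true⟩,
 nat_lit 0, nat_lit 0, nat_lit 1692, nat_lit 0, nat_lit 3324, nat_lit 1114, nat_lit 52, nat_lit 0, nat_lit 0, nat_lit 82, nat_lit 0, nat_lit 0, nat_lit 0, nat_lit 0, nat_lit 0, nat_lit 309300, nat_lit 0, nat_lit 0, [(nat_lit 21, [(nat_lit 0, nat_lit 218), (nat_lit 1, nat_lit 637)])],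
 ⟨p093_k60, nat_lit 0, nat_lit 0, nat_lit 57, nat_lit 0, nat_lit 0, [nat_lit 1497633601, nat_lit 2053132800], [], [nat_lit 27368431365, nat_lit 27579004741, nat_lit 28921524507, nat_lit 29113313045, nat_lit 27815656662, nat_lit 28020160335, nat_lit 29324674410, nat_lit 29516928637], nat_lit 0, nat_lit 0, nat_lit 0, nat_lit 0, nat_lit 0, nat_lit 0, [], [nat_lit 24, nat_lit 40, nat_lit 40, nat_lit 80, nat_lit 33, nat_lit 203, nat_lit 0, nat_lit 6]⟩, ⟨p093_k61, nat_lit 0, nat_lit 0, nat_lit 456, nat_lit 0, nat_lit 859814, [nat_lit 475890000, nat_lit 906250000, nat_lit 1155360000], [], [nat_lit 4371665797, nat_lit 4380057934, nat_lit 4589975180, nat_lit 4597213792, nat_lit 4366772615, nat_lit 4371531732, nat_lit 4505036609, nat_lit 4512570190], nat_lit 1271250, nat_lit 1271250, nat_lit 1271250, nat_lit 1271250, nat_lit 382400, nat_lit 2435950, [nat_lit 780000, nat_lit 1435000, nat_lit 1271250], [nat_lit 18, nat_lit 40,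 nat_lit 40, nat_lit 80, nat_lit 2, nat_lit 317, nat_lit 100, nat_lit 9]⟩,
 ⟨nat_lit 3162, nat_lit 3355, ⟨.ofNat (nat_lit 782602), .ofNat (nat_lit 844468), .ofNat (nat_lit 784807), .ofNat (nat_lit 846673), .ofNat (nat_lit 780339), .ofNat (nat_lit 841293), .ofNat (nat_lit 782555), .ofNat (nat_lit 843509)⟩, ⟨.ofNat (nat_lit 451626), .ofNat (nat_lit 476372), .ofNat (nat_lit 473673), .ofNat (nat_lit 498420), .ofNat (nat_lit 450177), .ofNat (nat_lit 474559), .ofNat (nat_lit 472332), .ofNat (nat_lit 496714)⟩⟩, [⟨nat_lit 16, nat_lit 66, nat_lit 100, nat_lit 95, nat_lit 271024221⟩, ⟨nat_lit 19, nat_lit 98, nat_lit 83, nat_lit 100, nat_lit 28535612⟩]⟩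
noncomputable def b_V_800_700_20_13 : St := ⟨true, nat_lit 0, nat_lit 1, nat_lit 1, nat_lit 120, nat_lit 320, nat_lit 360, nat_lit 280, nat_lit 290, nat_lit 320, nat_lit 360, nat_lit 80, nat_lit 120, nat_lit 240, nat_lit 300, nat_lit 64, nat_lit 336, nat_lit 20, nat_lit 40, nat_lit 0, nat_lit 0, nat_lit 800, nat_lit 0⟩
theorem d_V_800_700_20_13 (h : EB TB.env) : Dead b_V_800_700_20_13 := chkB_sound0 h (T :=
(.spl (nat_lit 0) (nat_lit 340)
(.leaf p093_l96)
(.trX (nat_lit 16) (nat_lit 77) (nat_lit 100) (nat_lit 99) (nat_lit 276) (.spl (nat_lit 3) (nat_lit 100)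
(.trX (nat_lit 16) (nat_lit 74) (nat_lit 100) (nat_lit 90) (nat_lit 256) (.trX (nat_lit 19) (nat_lit 100) (nat_lit 88) (nat_lit 94) (nat_lit 320) (.leaf p093_l97)))
(.spl (nat_lit 1) (nat_lit 285)
(.spl (nat_lit 6) (nat_lit 32)
(.spl (nat_lit 1) (nat_lit 283)
(.spl (nat_lit 0) (nat_lit 350)
(.leaf p093_l98)
(.trX (nat_lit 16) (nat_lit 69) (nat_lit 100) (nat_lit 96) (nat_lit 264) (.leaf p093_l99)))
(.spl (nat_lit 0) (nat_lit 350)
(.leaf p093_l100)
(.trX (nat_lit 16) (nat_lit 69) (nat_lit 100) (nat_lit 96) (nat_lit 264) (.leaf p093_l101))))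
(.leaf p093_l102))
(.trX (nat_lit 19) (nat_lit 99) (nat_lit 82) (nat_lit 100) (nat_lit 332) (.spl (nat_lit 1) (nat_lit 288)
(.spl (nat_lit 0) (nat_lit 350)
(.leaf p093_l103)
(.trX (nat_lit 16) (nat_lit 69) (nat_lit 100) (nat_lit 96) (nat_lit 264) (.spl (nat_lit 0) (nat_lit 355)
(.spl (nat_lit 0) (nat_lit 353)
(.leaf p093_l104)
(.trX (nat_lit 16) (nat_lit 67) (nat_lit 100) (nat_lit 96) (nat_lit 260) (.leaf p093_l105)))
(.trX (nat_lit 16) (nat_lit 66) (nat_lit 100) (nat_lit 95) (nat_lit 256) (.leaf p093_l106)))))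
(.spl (nat_lit 0) (nat_lit 350)
(.leaf p093_l107)
(.trX (nat_lit 16) (nat_lit 69) (nat_lit 100) (nat_lit 96) (nat_lit 264) (.spl (nat_lit 0) (nat_lit 355)
(.leaf p093_l108)
(.trX (nat_lit 16) (nat_lit 66) (nat_lit 100) (nat_lit 95) (nat_lit 256) (.leaf p093_l109)))))))))))) (by decide +kernel)
noncomputable def p093_l110 : Lf2 := ⟨nat_lit 0, nat_lit 10, [nat_lit 0, nat_lit 5, nat_lit 5, nat_lit 20], false, nat_lit 240, nat_lit 300, nat_lit 64, nat_lit 328, ⟨nat_lit 670, nat_lit 330, nat_lit 0, nat_lit 8, nat_lit 334, nat_lit 330, nat_lit 203, nat_lit 0, nat_lit 0, nat_lit 0, nat_lit 0, nat_lit 0, nat_lit 32892540, nat_lit 23624962, nat_lit 10482498, nat_lit 5432482, true, true⟩,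
 nat_lit 0, nat_lit 0, nat_lit 6403, nat_lit 0, nat_lit 4568, nat_lit 4252, nat_lit 0, nat_lit 0, nat_lit 0, nat_lit 2082, nat_lit 0, nat_lit 0, nat_lit 0, nat_lit 0, nat_lit 0, nat_lit 330000, nat_lit 0, nat_lit 0, [(nat_lit 18, [(nat_lit 2, nat_lit 330)])],
 ⟨p093_k0, nat_lit 0, nat_lit 0, nat_lit 63, nat_lit 0, nat_lit 0, [nat_lit 1923056001, nat_lit 3485920000, nat_lit 4041244000], [], [nat_lit 26621076384, nat_lit 27627044240, nat_lit 28633012096, nat_lit 29535681392, nat_lit 28686282480, nat_lit 29568443972, nat_lit 30450605464, nat_lit 31243261988], nat_lit 0, nat_lit 0, nat_lit 0, nat_lit 0, nat_lit 0, nat_lit 0, [], [nat_lit 6, nat_lit 40, nat_lit 40, nat_lit 80, nat_lit 3, nat_lit 203, nat_lit 0, nat_lit 5]⟩, ⟨p093_k4, nat_lit 0, nat_lit 0, nat_lit 611, nat_lit 0, nat_lit 1204845, [nat_lit 2198940000, nat_lit 4187500000, nat_lit 5338560000], [], [nat_lit 17604689012, nat_lit 17789258526, nat_lit 18512675249,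 nat_lit 18676455793, nat_lit 18558510958, nat_lit 18682624911, nat_lit 19199775790, nat_lit 19308428600], nat_lit 1271250, nat_lit 1271250, nat_lit 1271250, nat_lit 1271250, nat_lit 382400, nat_lit 2405300, [nat_lit 780000, nat_lit 1435000, nat_lit 1271250], [nat_lit 18, nat_lit 40, nat_lit 40, nat_lit 80, nat_lit 2, nat_lit 317, nat_lit 100, nat_lit 9]⟩,
 ⟨nat_lit 3872, nat_lit 4473, ⟨.ofNat (nat_lit 800927), .ofNat (nat_lit 868913), .ofNat (nat_lit 811702), .ofNat (nat_lit 879688), .ofNat (nat_lit 791578), .ofNat (nat_lit 856107), .ofNat (nat_lit 802466), .ofNat (nat_lit 866995)⟩, ⟨.ofNat (nat_lit 438578), .ofNat (nat_lit 540545), .ofNat (nat_lit 481711), .ofNat (nat_lit 583678), .ofNat (nat_lit 433760), .ofNat (nat_lit 530543), .ofNat (nat_lit 477347), .ofNat (nat_lit 574129)⟩⟩, [⟨nat_lit 4, nat_lit 100, nat_lit 81, nat_lit 92, nat_lit 410075211⟩, ⟨nat_lit 19, nat_lit 97, nat_lit 84, nat_lit 100, nat_lit 152482815⟩]⟩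
noncomputable def p093_l111 : Lf2 := ⟨nat_lit 0, nat_lit 5, [nat_lit 4, nat_lit 5, nat_lit 5, nat_lit 20], false, nat_lit 240, nat_lit 276, nat_lit 64, nat_lit 328, ⟨nat_lit 246, nat_lit 754, nat_lit 0, nat_lit 8, nat_lit 328, nat_lit 754, nat_lit 192, nat_lit 0, nat_lit 0, nat_lit 0, nat_lit 0, nat_lit 0, nat_lit 33713762, nat_lit 23459143, nat_lit 9827095, nat_lit 5358870, true, true⟩,
 nat_lit 0, nat_lit 0, nat_lit 2366, nat_lit 0, nat_lit 3389, nat_lit 1571, nat_lit 0, nat_lit 0, nat_lit 0, nat_lit 544, nat_lit 0, nat_lit 0, nat_lit 0, nat_lit 0, nat_lit 0, nat_lit 452800, nat_lit 0, nat_lit 0, [(nat_lit 21, [(nat_lit 1, nat_lit 502), (nat_lit 2, nat_lit 252)])],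
 ⟨p093_k43, nat_lit 0, nat_lit 0, nat_lit 59, nat_lit 0, nat_lit 0, [nat_lit 1533284800, nat_lit 1820714400], [], [nat_lit 26685606696, nat_lit 27533665440, nat_lit 28305544962, nat_lit 29123194280, nat_lit 27736323161, nat_lit 28529013037, nat_lit 29301643938, nat_lit 30162674176], nat_lit 0, nat_lit 0, nat_lit 0, nat_lit 0, nat_lit 0, nat_lit 0, [], [nat_lit 24, nat_lit 40, nat_lit 40, nat_lit 80, nat_lit 33, nat_lit 203, nat_lit 0, nat_lit 6]⟩, ⟨p093_k62, nat_lit 0, nat_lit 0, nat_lit 628, nat_lit 0, nat_lit 1397494, [nat_lit 807372000, nat_lit 1537500000], [], [nat_lit 7110454578, nat_lit 7136032333, nat_lit 7368579789, nat_lit 7391148852, nat_lit 7196772694, nat_lit 7210777664, nat_lit 7352503019, nat_lit 7372279935], nat_lit 1271250, nat_lit 1271250, nat_lit 1271250, nat_lit 1271250, nat_lit 382400, nat_lit 2405300, [nat_lit 780000, nat_lit 1435000], [nat_lit 49, nat_lit 40, nat_lit 40, nat_lit 80, nat_lit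 16, nat_lit 317, nat_lit 100, nat_lit 11]⟩,
 ⟨nat_lit 3162, nat_lit 3873, ⟨.ofNat (nat_lit 791601), .ofNat (nat_lit 856147), .ofNat (nat_lit 797043), .ofNat (nat_lit 861589), .ofNat (nat_lit 782524), .ofNat (nat_lit 843501), .ofNat (nat_lit 788056), .ofNat (nat_lit 849034)⟩, ⟨.ofNat (nat_lit 433760), .ofNat (nat_lit 491830), .ofNat (nat_lit 477347), .ofNat (nat_lit 535416), .ofNat (nat_lit 428022), .ofNat (nat_lit 482881), .ofNat (nat_lit 472332), .ofNat (nat_lit 527190)⟩⟩, [⟨nat_lit 16, nat_lit 67, nat_lit 100, nat_lit 88, nat_lit 369363906⟩, ⟨nat_lit 19, nat_lit 97, nat_lit 84, nat_lit 100, nat_lit 51049410⟩]⟩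
noncomputable def p093_l112 : Lf2 := ⟨nat_lit 0, nat_lit 10, [nat_lit 0, nat_lit 5, nat_lit 5, nat_lit 20], false, nat_lit 240, nat_lit 276, nat_lit 64, nat_lit 328, ⟨nat_lit 1000, nat_lit 0, nat_lit 0, nat_lit 0, nat_lit 0, nat_lit 0, nat_lit 0, nat_lit 0, nat_lit 0, nat_lit 0, nat_lit 0, nat_lit 0, nat_lit 0, nat_lit 0, nat_lit 0, nat_lit 0, false, false⟩,
 nat_lit 0, nat_lit 0, nat_lit 9239, nat_lit 0, nat_lit 5563, nat_lit 6135, nat_lit 0, nat_lit 0, nat_lit 0, nat_lit 2812, nat_lit 0, nat_lit 0, nat_lit 0, nat_lit 0, nat_lit 0, nat_lit 0, nat_lit 0, nat_lit 0, [],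
 ⟨p093_k8, nat_lit 0, nat_lit 0, nat_lit 64, nat_lit 0, nat_lit 0, [nat_lit 2032000001, nat_lit 4688000000, nat_lit 6250000000], [], [nat_lit 28320609590, nat_lit 28871374413, nat_lit 30403037422, nat_lit 30893486515, nat_lit 29544051845, nat_lit 30051537450, nat_lit 31463090564, nat_lit 31969768993], nat_lit 0, nat_lit 0, nat_lit 0, nat_lit 0, nat_lit 0, nat_lit 0, [], [nat_lit 6, nat_lit 40, nat_lit 40, nat_lit 80, nat_lit 3, nat_lit 203, nat_lit 0, nat_lit 5]⟩, ⟨p093_k4, nat_lit 0, nat_lit 0, nat_lit 490, nat_lit 0, nat_lit 915468, [nat_lit 3282000000, nat_lit 6250000000, nat_lit 7968000000], [], [nat_lit 26888798087, nat_lit 27022946329, nat_lit 28219576802, nat_lit 28338251731, nat_lit 27856845868, nat_lit 27933661483, nat_lit 29134889741, nat_lit 29262241595], nat_lit 1271250, nat_lit 1271250, nat_lit 1271250, nat_lit 1271250, nat_lit 382400, nat_lit 2405300, [nat_lit 780000, nat_lit 1435000, nat_lit 1271250],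 [nat_lit 18, nat_lit 40, nat_lit 40, nat_lit 80, nat_lit 2, nat_lit 317, nat_lit 100, nat_lit 9]⟩,
 zbF0, [⟨nat_lit 4, nat_lit 100, nat_lit 71, nat_lit 89, nat_lit 605761096⟩, ⟨nat_lit 19, nat_lit 97, nat_lit 84, nat_lit 100, nat_lit 227104820⟩]⟩
noncomputable def p093_l113 : Lf2 := ⟨nat_lit 0, nat_lit 10, [nat_lit 0, nat_lit 5, nat_lit 5, nat_lit 20], false, nat_lit 240, nat_lit 264, nat_lit 64, nat_lit 328, ⟨nat_lit 630, nat_lit 370, nat_lit 0, nat_lit 8, nat_lit 327, nat_lit 370, nat_lit 188, nat_lit 0, nat_lit 0, nat_lit 0, nat_lit 0, nat_lit 0, nat_lit 33979132, nat_lit 23483939, nat_lit 9536929, nat_lit 5327420, true, true⟩,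
 nat_lit 0, nat_lit 0, nat_lit 5895, nat_lit 0, nat_lit 3920, nat_lit 3914, nat_lit 302, nat_lit 0, nat_lit 0, nat_lit 1481, nat_lit 0, nat_lit 0, nat_lit 0, nat_lit 0, nat_lit 0, nat_lit 92500, nat_lit 0, nat_lit 0, [(nat_lit 21, [(nat_lit 0, nat_lit 370)])],
 ⟨p093_k12, nat_lit 0, nat_lit 0, nat_lit 58, nat_lit 0, nat_lit 0, [nat_lit 1856768000, nat_lit 3679972000], [], [nat_lit 27520923790, nat_lit 27968501950, nat_lit 29245804350, nat_lit 29671665470, nat_lit 28225374470, nat_lit 28675144158, nat_lit 29913427852, nat_lit 30378454017], nat_lit 0, nat_lit 0, nat_lit 0, nat_lit 0, nat_lit 0, nat_lit 0, [], [nat_lit 24, nat_lit 40, nat_lit 40, nat_lit 80, nat_lit 33, nat_lit 203, nat_lit 0, nat_lit 6]⟩, ⟨p093_k4, nat_lit 0, nat_lit 0, nat_lit 540, nat_lit 0, nat_lit 1047403, [nat_lit 2067660000, nat_lit 3937500000, nat_lit 5019840000], [], [nat_lit 18484056785, nat_lit 18547384133, nat_lit 19133558607, nat_lit 19189065571,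 nat_lit 18471748111, nat_lit 18505817158, nat_lit 18860396453, nat_lit 18900373436], nat_lit 1271250, nat_lit 1271250, nat_lit 1271250, nat_lit 1271250, nat_lit 382400, nat_lit 2405300, [nat_lit 780000, nat_lit 1435000, nat_lit 1271250], [nat_lit 18, nat_lit 40, nat_lit 40, nat_lit 80, nat_lit 2, nat_lit 317, nat_lit 100, nat_lit 9]⟩,
 ⟨nat_lit 3162, nat_lit 3536, ⟨.ofNat (nat_lit 787064), .ofNat (nat_lit 849831), .ofNat (nat_lit 792551), .ofNat (nat_lit 855319), .ofNat (nat_lit 782550), .ofNat (nat_lit 843509), .ofNat (nat_lit 788087), .ofNat (nat_lit 849048)⟩, ⟨.ofNat (nat_lit 431044), .ofNat (nat_lit 468701), .ofNat (nat_lit 474949), .ofNat (nat_lit 512606), .ofNat (nat_lit 428022), .ofNat (nat_lit 464594), .ofNat (nat_lit 472332), .ofNat (nat_lit 508904)⟩⟩, [⟨nat_lit 16, nat_lit 69, nat_lit 100, nat_lit 96, nat_lit 453046153⟩, ⟨nat_lit 19, nat_lit 97, nat_lit 84, nat_lit 100, nat_lit 126145747⟩]⟩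
noncomputable def p093_l114 : Lf2 := ⟨nat_lit 0, nat_lit 10, [nat_lit 0, nat_lit 5, nat_lit 5, nat_lit 20], false, nat_lit 240, nat_lit 276, nat_lit 64, nat_lit 324, ⟨nat_lit 292, nat_lit 708, nat_lit 0, nat_lit 8, nat_lit 331, nat_lit 708, nat_lit 192, nat_lit 0, nat_lit 0, nat_lit 0, nat_lit 0, nat_lit 0, nat_lit 33565341, nat_lit 23641387, nat_lit 9793272, nat_lit 5360444, true, true⟩,
 nat_lit 0, nat_lit 0, nat_lit 2768, nat_lit 0, nat_lit 3433, nat_lit 1877, nat_lit 0, nat_lit 0, nat_lit 0, nat_lit 536, nat_lit 0, nat_lit 0, nat_lit 0, nat_lit 0, nat_lit 0, nat_lit 467400, nat_lit 0, nat_lit 0, [(nat_lit 21, [(nat_lit 1, nat_lit 401), (nat_lit 2, nat_lit 307)])],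
 ⟨p093_k8, nat_lit 0, nat_lit 0, nat_lit 66, nat_lit 0, nat_lit 0, [nat_lit 1566947601, nat_lit 1923178001, nat_lit 2075522400], [], [nat_lit 26766445514, nat_lit 27618406882, nat_lit 28393485116, nat_lit 29168625160, nat_lit 27819523802, nat_lit 28615614333, nat_lit 29345047148, nat_lit 30209845793], nat_lit 0, nat_lit 0, nat_lit 0, nat_lit 0, nat_lit 0, nat_lit 0, [], [nat_lit 6, nat_lit 40, nat_lit 40, nat_lit 80, nat_lit 3, nat_lit 203, nat_lit 0, nat_lit 5]⟩, ⟨p093_k13, nat_lit 0, nat_lit 0, nat_lit 699, nat_lit 0, nat_lit 1426986, [nat_lit 958344000, nat_lit 1825000000, nat_lit 2326656000], [], [nat_lit 8164836932, nat_lit 8190934689, nat_lit 8430347551, nat_lit 8453225823, nat_lit 8164722088, nat_lit 8184792974, nat_lit 8396756072, nat_lit 8421550074], nat_lit 1271250, nat_lit 1271250, nat_lit 1271250, nat_lit 1271250, nat_lit 382400, nat_lit 2374650, [nat_lit 780000, nat_lit 1435000, nat_lit 1271250], [nat_lit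 18, nat_lit 40, nat_lit 40, nat_lit 80, nat_lit 2, nat_lit 317, nat_lit 100, nat_lit 9]⟩,
 ⟨nat_lit 3162, nat_lit 3873, ⟨.ofNat (nat_lit 797043), .ofNat (nat_lit 861589), .ofNat (nat_lit 802484), .ofNat (nat_lit 867032), .ofNat (nat_lit 788056), .ofNat (nat_lit 849034), .ofNat (nat_lit 793588), .ofNat (nat_lit 854567)⟩, ⟨.ofNat (nat_lit 433760), .ofNat (nat_lit 491830), .ofNat (nat_lit 477347), .ofNat (nat_lit 535416), .ofNat (nat_lit 428022), .ofNat (nat_lit 482881), .ofNat (nat_lit 472332), .ofNat (nat_lit 527190)⟩⟩, [⟨nat_lit 4, nat_lit 100, nat_lit 67, nat_lit 88, nat_lit 386676791⟩, ⟨nat_lit 19, nat_lit 96, nat_lit 86, nat_lit 100, nat_lit 60728613⟩]⟩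
noncomputable def b_V_800_700_20_14 : St := ⟨true, nat_lit 0, nat_lit 1, nat_lit 1, nat_lit 120, nat_lit 320, nat_lit 360, nat_lit 290, nat_lit 300, nat_lit 320, nat_lit 360, nat_lit 80, nat_lit 120, nat_lit 240, nat_lit 300, nat_lit 64, nat_lit 336, nat_lit 0, nat_lit 40, nat_lit 0, nat_lit 0, nat_lit 800, nat_lit 0⟩
theorem d_V_800_700_20_14 (h : EB TB.env) : Dead b_V_800_700_20_14 := chkB_sound0 h (T :=
(.trX (nat_lit 19) (nat_lit 97) (nat_lit 84) (nat_lit 100) (nat_lit 328) (.spl (nat_lit 0) (nat_lit 340)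
(.leaf p093_l110)
(.trX (nat_lit 16) (nat_lit 77) (nat_lit 100) (nat_lit 99) (nat_lit 276) (.spl (nat_lit 1) (nat_lit 295)
(.spl (nat_lit 6) (nat_lit 20)
(.leaf p093_l111)
(.spl (nat_lit 0) (nat_lit 350)
(.leaf p093_l112)
(.trX (nat_lit 16) (nat_lit 69) (nat_lit 100) (nat_lit 96) (nat_lit 264) (.leaf p093_l113))))
(.trX (nat_lit 19) (nat_lit 96) (nat_lit 86) (nat_lit 100) (nat_lit 324) (.leaf p093_l114))))))) (by decide +kernel)
noncomputable def p093_l115 : Lf2 := ⟨nat_lit 0, nat_lit 10, [nat_lit 0, nat_lit 5, nat_lit 5, nat_lit 20], false, nat_lit 160, nat_lit 200, nat_lit 48, nat_lit 320, ⟨nat_lit 154, nat_lit 846, nat_lit 0, nat_lit 9, nat_lit 354, nat_lit 846, nat_lit 143, nat_lit 0, nat_lit 0, nat_lit 0, nat_lit 0, nat_lit 0, nat_lit 33894614, nat_lit 26855009, nat_lit 6250377, nat_lit 4976367, true, true⟩,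
 nat_lit 0, nat_lit 0, nat_lit 1932, nat_lit 0, nat_lit 3449, nat_lit 1229, nat_lit 22, nat_lit 0, nat_lit 0, nat_lit 99, nat_lit 0, nat_lit 0, nat_lit 0, nat_lit 0, nat_lit 0, nat_lit 568800, nat_lit 0, nat_lit 0, [(nat_lit 18, [(nat_lit 1, nat_lit 462), (nat_lit 2, nat_lit 384)])],
 ⟨p093_k0, nat_lit 0, nat_lit 0, nat_lit 82, nat_lit 0, nat_lit 0, [nat_lit 1612382401, nat_lit 2031960000, nat_lit 1698200800], [], [nat_lit 26495144145, nat_lit 27323761515, nat_lit 28248139158, nat_lit 29001773645, nat_lit 27170704695, nat_lit 27951913548, nat_lit 28825639347, nat_lit 29537102037], nat_lit 0, nat_lit 0, nat_lit 0, nat_lit 0, nat_lit 0, nat_lit 0, [], [nat_lit 6, nat_lit 40, nat_lit 40, nat_lit 80, nat_lit 3, nat_lit 260, nat_lit 50, nat_lit 8]⟩, ⟨p093_k1, nat_lit 0, nat_lit 0, nat_lit 650, nat_lit 0, nat_lit 1161983, [nat_lit 505428000, nat_lit 962500000, nat_lit 1515668000], [], [nat_lit 5247209175, nat_lit 5259563384,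 nat_lit 5444148984, nat_lit 5457613889, nat_lit 4890109240, nat_lit 4897319100, nat_lit 5015801066, nat_lit 5021341305], nat_lit 1271250, nat_lit 1271250, nat_lit 1271250, nat_lit 1271250, nat_lit 279600, nat_lit 2323000, [nat_lit 780000, nat_lit 1435000, nat_lit 1271250], [nat_lit 8, nat_lit 40, nat_lit 40, nat_lit 80, nat_lit 1, nat_lit 317, nat_lit 100, nat_lit 8]⟩,
 ⟨nat_lit 3872, nat_lit 4473, ⟨.ofNat (nat_lit 858139), .ofNat (nat_lit 919326), .ofNat (nat_lit 863526), .ofNat (nat_lit 924713), .ofNat (nat_lit 845220), .ofNat (nat_lit 903295), .ofNat (nat_lit 850663), .ofNat (nat_lit 908740)⟩, ⟨.ofNat (nat_lit 302621), .ofNat (nat_lit 370600), .ofNat (nat_lit 345754), .ofNat (nat_lit 413733), .ofNat (nat_lit 304717), .ofNat (nat_lit 369239), .ofNat (nat_lit 348304), .ofNat (nat_lit 412825)⟩⟩, [⟨nat_lit 13, nat_lit 78, nat_lit 39, nat_lit 100, nat_lit 128018728⟩, ⟨nat_lit 22, nat_lit 46, nat_lit 94, nat_lit 100,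 nat_lit 48560928⟩]⟩
noncomputable def p093_l116 : Lf2 := ⟨nat_lit 0, nat_lit 10, [nat_lit 0, nat_lit 5, nat_lit 5, nat_lit 20], false, nat_lit 200, nat_lit 240, nat_lit 80, nat_lit 336, ⟨nat_lit 112, nat_lit 888, nat_lit 0, nat_lit 9, nat_lit 353, nat_lit 888, nat_lit 170, nat_lit 0, nat_lit 0, nat_lit 0, nat_lit 0, nat_lit 0, nat_lit 32938387, nat_lit 26116216, nat_lit 7945397, nat_lit 5200021, true, true⟩,
 nat_lit 0, nat_lit 0, nat_lit 1410, nat_lit 0, nat_lit 3559, nat_lit 897, nat_lit 0, nat_lit 0, nat_lit 0, nat_lit 70, nat_lit 0, nat_lit 0, nat_lit 0, nat_lit 0, nat_lit 0, nat_lit 379500, nat_lit 0, nat_lit 0, [(nat_lit 18, [(nat_lit 0, nat_lit 678), (nat_lit 2, nat_lit 210)])],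
 ⟨p093_k0, nat_lit 0, nat_lit 0, nat_lit 76, nat_lit 0, nat_lit 0, [nat_lit 1624214400, nat_lit 2214480001, nat_lit 2343964000], [], [nat_lit 27099093167, nat_lit 27935168945, nat_lit 28916309919, nat_lit 29711622267, nat_lit 27819827841, nat_lit 28604066023, nat_lit 29535022419, nat_lit 30281566064], nat_lit 0, nat_lit 0, nat_lit 0, nat_lit 0, nat_lit 0, nat_lit 0, [], [nat_lit 6, nat_lit 40, nat_lit 40, nat_lit 80, nat_lit 3, nat_lit 203, nat_lit 0, nat_lit 5]⟩, ⟨p093_k1, nat_lit 0, nat_lit 0, nat_lit 623, nat_lit 0, nat_lit 1146990, [nat_lit 367584000, nat_lit 700000000, nat_lit 1102304000], [], [nat_lit 3654710798, nat_lit 3659912260, nat_lit 3784631766, nat_lit 3790310084, nat_lit 3572741735, nat_lit 3575581936, nat_lit 3701662262, nat_lit 3707178500], nat_lit 1271250, nat_lit 1271250, nat_lit 1271250, nat_lit 1271250, nat_lit 490000, nat_lit 2490000, [nat_lit 780000, nat_lit 1435000, nat_lit 1271250], [nat_lit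 8, nat_lit 40, nat_lit 40, nat_lit 80, nat_lit 1, nat_lit 317, nat_lit 100, nat_lit 8]⟩,
 ⟨nat_lit 3872, nat_lit 4473, ⟨.ofNat (nat_lit 858139), .ofNat (nat_lit 919326), .ofNat (nat_lit 861371), .ofNat (nat_lit 922559), .ofNat (nat_lit 845220), .ofNat (nat_lit 903295), .ofNat (nat_lit 848486), .ofNat (nat_lit 906562)⟩, ⟨.ofNat (nat_lit 370600), .ofNat (nat_lit 438578), .ofNat (nat_lit 413733), .ofNat (nat_lit 481711), .ofNat (nat_lit 369239), .ofNat (nat_lit 433760), .ofNat (nat_lit 412825), .ofNat (nat_lit 477347)⟩⟩, [⟨nat_lit 13, nat_lit 78, nat_lit 39, nat_lit 100, nat_lit 177744127⟩, ⟨nat_lit 22, nat_lit 46, nat_lit 84, nat_lit 100, nat_lit 47315146⟩]⟩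
noncomputable def p093_l117 : Lf2 := ⟨nat_lit 0, nat_lit 10, [nat_lit 0, nat_lit 5, nat_lit 5, nat_lit 20], false, nat_lit 200, nat_lit 240, nat_lit 80, nat_lit 336, ⟨nat_lit 121, nat_lit 879, nat_lit 0, nat_lit 9, nat_lit 354, nat_lit 879, nat_lit 170, nat_lit 0, nat_lit 0, nat_lit 0, nat_lit 0, nat_lit 0, nat_lit 32863411, nat_lit 26205396, nat_lit 7931193, nat_lit 5199840, true, true⟩,
 nat_lit 0, nat_lit 0, nat_lit 1453, nat_lit 0, nat_lit 3567, nat_lit 936, nat_lit 0, nat_lit 0, nat_lit 0, nat_lit 77, nat_lit 0, nat_lit 0, nat_lit 0, nat_lit 0, nat_lit 0, nat_lit 386100, nat_lit 0, nat_lit 0, [(nat_lit 18, [(nat_lit 0, nat_lit 654), (nat_lit 1, nat_lit 4), (nat_lit 2, nat_lit 221)])],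
 ⟨p093_k0, nat_lit 0, nat_lit 0, nat_lit 76, nat_lit 0, nat_lit 0, [nat_lit 1630028267, nat_lit 2224005334, nat_lit 2341694000], [], [nat_lit 27105445759, nat_lit 27942183473, nat_lit 28924684868, nat_lit 29720575751, nat_lit 27825824321, nat_lit 28610644087, nat_lit 29542838168, nat_lit 30289885711], nat_lit 0, nat_lit 0, nat_lit 0, nat_lit 0, nat_lit 0, nat_lit 0, [], [nat_lit 6, nat_lit 40, nat_lit 40, nat_lit 80, nat_lit 3, nat_lit 203, nat_lit 0, nat_lit 5]⟩, ⟨p093_k63, nat_lit 0, nat_lit 0, nat_lit 621, nat_lit 0, nat_lit 1140503, [nat_lit 397122000, nat_lit 756250000, nat_lit 1190882000], [], [nat_lit 3995566823, nat_lit 3999337275, nat_lit 4137704468, nat_lit 4141809576, nat_lit 3927727796, nat_lit 3929843072, nat_lit 4020649534, nat_lit 4022268206], nat_lit 1271250, nat_lit 1271250, nat_lit 1271250, nat_lit 1271250, nat_lit 490000, nat_lit 2490000, [nat_lit 780000, nat_lit 1435000, nat_lit 1271250], [nat_lit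 8, nat_lit 40, nat_lit 40, nat_lit 80, nat_lit 1, nat_lit 317, nat_lit 100, nat_lit 8]⟩,
 ⟨nat_lit 3872, nat_lit 4473, ⟨.ofNat (nat_lit 861371), .ofNat (nat_lit 922559), .ofNat (nat_lit 863526), .ofNat (nat_lit 924713), .ofNat (nat_lit 848486), .ofNat (nat_lit 906562), .ofNat (nat_lit 850663), .ofNat (nat_lit 908740)⟩, ⟨.ofNat (nat_lit 370600), .ofNat (nat_lit 438578), .ofNat (nat_lit 413733), .ofNat (nat_lit 481711), .ofNat (nat_lit 369239), .ofNat (nat_lit 433760), .ofNat (nat_lit 412825), .ofNat (nat_lit 477347)⟩⟩, [⟨nat_lit 13, nat_lit 78, nat_lit 37, nat_lit 100, nat_lit 163389299⟩, ⟨nat_lit 22, nat_lit 46, nat_lit 84, nat_lit 100, nat_lit 49831870⟩]⟩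
noncomputable def p093_l118 : Lf2 := ⟨nat_lit 0, nat_lit 10, [nat_lit 0, nat_lit 5, nat_lit 5, nat_lit 20], false, nat_lit 160, nat_lit 200, nat_lit 48, nat_lit 320, ⟨nat_lit 168, nat_lit 832, nat_lit 0, nat_lit 9, nat_lit 357, nat_lit 832, nat_lit 143, nat_lit 0, nat_lit 0, nat_lit 0, nat_lit 0, nat_lit 0, nat_lit 33637136, nat_lit 27148873, nat_lit 6213991, nat_lit 4975978, true, true⟩,
 nat_lit 0, nat_lit 0, nat_lit 1974, nat_lit 0, nat_lit 3450, nat_lit 1283, nat_lit 22, nat_lit 0, nat_lit 0, nat_lit 109, nat_lit 0, nat_lit 0, nat_lit 0, nat_lit 0, nat_lit 0, nat_lit 566800, nat_lit 0, nat_lit 0, [(nat_lit 18, [(nat_lit 1, nat_lit 442), (nat_lit 2, nat_lit 390)])],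
 ⟨p093_k0, nat_lit 0, nat_lit 0, nat_lit 87, nat_lit 0, nat_lit 0, [nat_lit 1623078934, nat_lit 2064530667, nat_lit 1743825600], [], [nat_lit 26550315734, nat_lit 27379016234, nat_lit 28498319534, nat_lit 29243688334, nat_lit 27225823234, nat_lit 28007105884, nat_lit 29064849234, nat_lit 29768620034], nat_lit 0, nat_lit 0, nat_lit 0, nat_lit 0, nat_lit 0, nat_lit 0, [], [nat_lit 6, nat_lit 40, nat_lit 40, nat_lit 80, nat_lit 3, nat_lit 260, nat_lit 50, nat_lit 8]⟩, ⟨p093_k19, nat_lit 0, nat_lit 0, nat_lit 650, nat_lit 0, nat_lit 1163970, [nat_lit 551376000, nat_lit 1050000000, nat_lit 1653456000], [], [nat_lit 5730188732, nat_lit 5743758899, nat_lit 5958940783, nat_lit 5973396165, nat_lit 5374940537, nat_lit 5383083708, nat_lit 5524143242, nat_lit 5530334270], nat_lit 1271250, nat_lit 1271250, nat_lit 1271250, nat_lit 1271250, nat_lit 279600, nat_lit 2323000, [nat_lit 780000, nat_lit 1435000, nat_lit 1271250], [nat_lit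 8, nat_lit 40, nat_lit 40, nat_lit 80, nat_lit 1, nat_lit 317, nat_lit 100, nat_lit 8]⟩,
 ⟨nat_lit 3872, nat_lit 4473, ⟨.ofNat (nat_lit 863526), .ofNat (nat_lit 931512), .ofNat (nat_lit 868913), .ofNat (nat_lit 936900), .ofNat (nat_lit 850663), .ofNat (nat_lit 915193), .ofNat (nat_lit 856107), .ofNat (nat_lit 920637)⟩, ⟨.ofNat (nat_lit 302621), .ofNat (nat_lit 370600), .ofNat (nat_lit 345754), .ofNat (nat_lit 413733), .ofNat (nat_lit 304717), .ofNat (nat_lit 369239), .ofNat (nat_lit 348304), .ofNat (nat_lit 412825)⟩⟩, [⟨nat_lit 13, nat_lit 79, nat_lit 36, nat_lit 100, nat_lit 112673234⟩, ⟨nat_lit 22, nat_lit 44, nat_lit 94, nat_lit 100, nat_lit 56486140⟩]⟩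
noncomputable def p093_l119 : Lf2 := ⟨nat_lit 0, nat_lit 10, [nat_lit 0, nat_lit 5, nat_lit 5, nat_lit 20], false, nat_lit 200, nat_lit 240, nat_lit 80, nat_lit 316, ⟨nat_lit 108, nat_lit 892, nat_lit 0, nat_lit 9, nat_lit 357, nat_lit 892, nat_lit 166, nat_lit 0, nat_lit 0, nat_lit 0, nat_lit 0, nat_lit 0, nat_lit 32829056, nat_lit 26557725, nat_lit 7613219, nat_lit 5164756, true, true⟩,
 nat_lit 0, nat_lit 0, nat_lit 1235, nat_lit 0, nat_lit 3711, nat_lit 802, nat_lit 0, nat_lit 0, nat_lit 0, nat_lit 142, nat_lit 0, nat_lit 0, nat_lit 0, nat_lit 0, nat_lit 0, nat_lit 223000, nat_lit 0, nat_lit 0, [(nat_lit 18, [(nat_lit 0, nat_lit 892)])],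
 ⟨p093_k0, nat_lit 0, nat_lit 0, nat_lit 78, nat_lit 0, nat_lit 0, [nat_lit 1586713600, nat_lit 2440160000, nat_lit 2960304000], [], [nat_lit 27215981724, nat_lit 28108261106, nat_lit 29331704944, nat_lit 30128456697, nat_lit 27942931092, nat_lit 28778221334, nat_lit 29926585792, nat_lit 30674713592], nat_lit 0, nat_lit 0, nat_lit 0, nat_lit 0, nat_lit 0, nat_lit 0, [], [nat_lit 6, nat_lit 40, nat_lit 40, nat_lit 80, nat_lit 3, nat_lit 203, nat_lit 0, nat_lit 5]⟩, ⟨p093_k19, nat_lit 0, nat_lit 0, nat_lit 617, nat_lit 0, nat_lit 1132265, [nat_lit 354456000, nat_lit 675000000, nat_lit 1062936000], [], [nat_lit 3461431628, nat_lit 3472205970, nat_lit 3612557135, nat_lit 3621581088, nat_lit 3395905471, nat_lit 3401354177, nat_lit 3493330179, nat_lit 3505687531], nat_lit 1271250, nat_lit 1271250, nat_lit 1271250, nat_lit 1271250, nat_lit 490000, nat_lit 2333750, [nat_lit 780000, nat_lit 1435000, nat_lit 1271250], [nat_lit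 8, nat_lit 40, nat_lit 40, nat_lit 80, nat_lit 1, nat_lit 317, nat_lit 100, nat_lit 8]⟩,
 ⟨nat_lit 3872, nat_lit 4473, ⟨.ofNat (nat_lit 863526), .ofNat (nat_lit 931512), .ofNat (nat_lit 868913), .ofNat (nat_lit 936900), .ofNat (nat_lit 850663), .ofNat (nat_lit 915193), .ofNat (nat_lit 856107), .ofNat (nat_lit 920637)⟩, ⟨.ofNat (nat_lit 370600), .ofNat (nat_lit 438578), .ofNat (nat_lit 392166), .ofNat (nat_lit 460144), .ofNat (nat_lit 369239), .ofNat (nat_lit 433760), .ofNat (nat_lit 391032), .ofNat (nat_lit 455554)⟩⟩, [⟨nat_lit 13, nat_lit 79, nat_lit 36, nat_lit 100, nat_lit 175292702⟩, ⟨nat_lit 22, nat_lit 44, nat_lit 86, nat_lit 100, nat_lit 44310330⟩]⟩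
noncomputable def p093_l120 : Lf2 := ⟨nat_lit 0, nat_lit 10, [nat_lit 0, nat_lit 5, nat_lit 5, nat_lit 20], false, nat_lit 200, nat_lit 240, nat_lit 80, nat_lit 332, ⟨nat_lit 194, nat_lit 806, nat_lit 0, nat_lit 9, nat_lit 357, nat_lit 806, nat_lit 174, nat_lit 0, nat_lit 0, nat_lit 0, nat_lit 0, nat_lit 0, nat_lit 32504657, nat_lit 26318677, nat_lit 8176666, nat_lit 5232733, true, true⟩,
 nat_lit 0, nat_lit 0, nat_lit 2001, nat_lit 0, nat_lit 3874, nat_lit 1301, nat_lit 0, nat_lit 0, nat_lit 0, nat_lit 487, nat_lit 0, nat_lit 0, nat_lit 0, nat_lit 0, nat_lit 0, nat_lit 201500, nat_lit 0, nat_lit 0, [(nat_lit 18, [(nat_lit 0, nat_lit 806)])],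
 ⟨p093_k0, nat_lit 0, nat_lit 0, nat_lit 78, nat_lit 0, nat_lit 0, [nat_lit 1629644800, nat_lit 2656880001, nat_lit 3277472000], [], [nat_lit 27372731417, nat_lit 28279576805, nat_lit 29529044897, nat_lit 30337275599, nat_lit 28092001529, nat_lit 28940107157, nat_lit 30112119329, nat_lit 30869423829], nat_lit 0, nat_lit 0, nat_lit 0, nat_lit 0, nat_lit 0, nat_lit 0, [], [nat_lit 6, nat_lit 40, nat_lit 40, nat_lit 80, nat_lit 3, nat_lit 203, nat_lit 0, nat_lit 5]⟩, ⟨p093_k19, nat_lit 0, nat_lit 0, nat_lit 570, nat_lit 0, nat_lit 1000379, [nat_lit 636708000, nat_lit 1212500000, nat_lit 1909348000], [], [nat_lit 6016092364, nat_lit 6041776660, nat_lit 6348072317, nat_lit 6370071618, nat_lit 6174998436, nat_lit 6188805795, nat_lit 6384970436, nat_lit 6396318172], nat_lit 1271250, nat_lit 1271250, nat_lit 1271250, nat_lit 1271250, nat_lit 490000, nat_lit 2458750, [nat_lit 780000, nat_lit 1435000, nat_lit 1271250], [nat_lit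 8, nat_lit 40, nat_lit 40, nat_lit 80, nat_lit 1, nat_lit 317, nat_lit 100, nat_lit 8]⟩,
 ⟨nat_lit 3872, nat_lit 4473, ⟨.ofNat (nat_lit 863526), .ofNat (nat_lit 931512), .ofNat (nat_lit 868913), .ofNat (nat_lit 936900), .ofNat (nat_lit 850663), .ofNat (nat_lit 915193), .ofNat (nat_lit 856107), .ofNat (nat_lit 920637)⟩, ⟨.ofNat (nat_lit 392166), .ofNat (nat_lit 460144), .ofNat (nat_lit 413733), .ofNat (nat_lit 481711), .ofNat (nat_lit 391032), .ofNat (nat_lit 455554), .ofNat (nat_lit 412825), .ofNat (nat_lit 477347)⟩⟩, [⟨nat_lit 13, nat_lit 79, nat_lit 36, nat_lit 100, nat_lit 107503029⟩, ⟨nat_lit 22, nat_lit 44, nat_lit 86, nat_lit 100, nat_lit 92841033⟩]⟩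
noncomputable def p093_l121 : Lf2 := ⟨nat_lit 0, nat_lit 10, [nat_lit 0, nat_lit 5, nat_lit 5, nat_lit 20], false, nat_lit 160, nat_lit 240, nat_lit 48, nat_lit 328, ⟨nat_lit 1000, nat_lit 0, nat_lit 0, nat_lit 0, nat_lit 0, nat_lit 0, nat_lit 0, nat_lit 0, nat_lit 0, nat_lit 0, nat_lit 0, nat_lit 0, nat_lit 0, nat_lit 0, nat_lit 0, nat_lit 0, false, false⟩,
 nat_lit 0, nat_lit 0, nat_lit 9274, nat_lit 0, nat_lit 5464, nat_lit 6159, nat_lit 0, nat_lit 0, nat_lit 0, nat_lit 3596, nat_lit 0, nat_lit 0, nat_lit 0, nat_lit 0, nat_lit 0, nat_lit 0, nat_lit 0, nat_lit 0, [],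
 ⟨p093_k0, nat_lit 0, nat_lit 0, nat_lit 80, nat_lit 0, nat_lit 0, [nat_lit 2032000001, nat_lit 4688000000, nat_lit 6250000000], [], [nat_lit 28174502944, nat_lit 28736876608, nat_lit 30903212704, nat_lit 31396069976, nat_lit 29463227008, nat_lit 29949784312, nat_lit 31839027808, nat_lit 32266373808], nat_lit 0, nat_lit 0, nat_lit 0, nat_lit 0, nat_lit 0, nat_lit 0, [], [nat_lit 6, nat_lit 40, nat_lit 40, nat_lit 80, nat_lit 3, nat_lit 272, nat_lit 60, nat_lit 8]⟩, ⟨p093_k4, nat_lit 0, nat_lit 0, nat_lit 567, nat_lit 0, nat_lit 1081444, [nat_lit 3282000000, nat_lit 6250000000, nat_lit 7968000000], [], [nat_lit 27780705425, nat_lit 28103395160, nat_lit 29683253965, nat_lit 29965811849, nat_lit 29090489991, nat_lit 29277238566, nat_lit 30307067729, nat_lit 30467953988], nat_lit 1271250, nat_lit 1271250, nat_lit 1271250, nat_lit 1271250, nat_lit 279600, nat_lit 2383100, [nat_lit 780000, nat_lit 1435000, nat_lit 1271250],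 [nat_lit 18, nat_lit 40, nat_lit 40, nat_lit 80, nat_lit 2, nat_lit 317, nat_lit 100, nat_lit 9]⟩,
 zbF0, [⟨nat_lit 13, nat_lit 89, nat_lit 20, nat_lit 100, nat_lit 47563699⟩, ⟨nat_lit 19, nat_lit 100, nat_lit 97, nat_lit 98, nat_lit 212361223⟩]⟩
noncomputable def p093_l122 : Lf2 := ⟨nat_lit 0, nat_lit 10, [nat_lit 0, nat_lit 5, nat_lit 5, nat_lit 20], false, nat_lit 160, nat_lit 240, nat_lit 48, nat_lit 328, ⟨nat_lit 649, nat_lit 351, nat_lit 0, nat_lit 9, nat_lit 359, nat_lit 351, nat_lit 157, nat_lit 0, nat_lit 0, nat_lit 0, nat_lit 0, nat_lit 0, nat_lit 33032992, nat_lit 26951685, nat_lit 7015323, nat_lit 5090077, true, true⟩,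
 nat_lit 0, nat_lit 0, nat_lit 5945, nat_lit 0, nat_lit 4213, nat_lit 3948, nat_lit 248, nat_lit 0, nat_lit 0, nat_lit 1703, nat_lit 0, nat_lit 0, nat_lit 0, nat_lit 0, nat_lit 0, nat_lit 351000, nat_lit 0, nat_lit 0, [(nat_lit 18, [(nat_lit 2, nat_lit 351)])],
 ⟨p093_k3, nat_lit 0, nat_lit 0, nat_lit 87, nat_lit 0, nat_lit 0, [nat_lit 1916123200, nat_lit 3409424001, nat_lit 3900686800], [], [nat_lit 27627840819, nat_lit 28097523158, nat_lit 29820170481, nat_lit 30262778117, nat_lit 28860569792, nat_lit 29272484523, nat_lit 30882712262, nat_lit 31271746387], nat_lit 0, nat_lit 0, nat_lit 0, nat_lit 0, nat_lit 0, nat_lit 0, [], [nat_lit 6, nat_lit 40, nat_lit 40, nat_lit 80, nat_lit 3, nat_lit 272, nat_lit 60, nat_lit 8]⟩, ⟨p093_k4, nat_lit 0, nat_lit 0, nat_lit 624, nat_lit 0, nat_lit 1204845, [nat_lit 2130018000, nat_lit 4056250000, nat_lit 5171232000], [], [nat_lit 19961037237, nat_lit 20062347508, nat_lit 20648804587,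 nat_lit 20769694835, nat_lit 19791911200, nat_lit 19868150825, nat_lit 20342109978, nat_lit 20419035842], nat_lit 1271250, nat_lit 1271250, nat_lit 1271250, nat_lit 1271250, nat_lit 279600, nat_lit 2383100, [nat_lit 780000, nat_lit 1435000, nat_lit 1271250], [nat_lit 18, nat_lit 40, nat_lit 40, nat_lit 80, nat_lit 2, nat_lit 317, nat_lit 100, nat_lit 9]⟩,
 ⟨nat_lit 3872, nat_lit 4184, ⟨.ofNat (nat_lit 862512), .ofNat (nat_lit 928771), .ofNat (nat_lit 873343), .ofNat (nat_lit 939602), .ofNat (nat_lit 856145), .ofNat (nat_lit 920670), .ofNat (nat_lit 867040), .ofNat (nat_lit 931565)⟩, ⟨.ofNat (nat_lit 303743), .ofNat (nat_lit 436254), .ofNat (nat_lit 347076), .ofNat (nat_lit 479587), .ofNat (nat_lit 304717), .ofNat (nat_lit 433760), .ofNat (nat_lit 348304), .ofNat (nat_lit 477347)⟩⟩, [⟨nat_lit 13, nat_lit 84, nat_lit 28, nat_lit 100, nat_lit 62428899⟩, ⟨nat_lit 16, nat_lit 77, nat_lit 100, nat_lit 91, nat_lit 250610870⟩,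 ⟨nat_lit 19, nat_lit 100, nat_lit 97, nat_lit 98, nat_lit 125463248⟩]⟩
noncomputable def p093_l123 : Lf2 := ⟨nat_lit 0, nat_lit 5, [nat_lit 4, nat_lit 5, nat_lit 5, nat_lit 20], false, nat_lit 160, nat_lit 240, nat_lit 48, nat_lit 336, ⟨nat_lit 57, nat_lit 943, nat_lit 0, nat_lit 9, nat_lit 347, nat_lit 943, nat_lit 156, nat_lit 0, nat_lit 0, nat_lit 0, nat_lit 0, nat_lit 0, nat_lit 33934749, nat_lit 25936834, nat_lit 7128417, nat_lit 5086916, true, true⟩,
 nat_lit 0, nat_lit 0, nat_lit 736, nat_lit 0, nat_lit 3105, nat_lit 468, nat_lit 0, nat_lit 0, nat_lit 0, nat_lit 28, nat_lit 0, nat_lit 0, nat_lit 0, nat_lit 0, nat_lit 0, nat_lit 377200, nat_lit 0, nat_lit 0, [(nat_lit 21, [(nat_lit 1, nat_lit 943)])],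
 ⟨p093_k43, nat_lit 0, nat_lit 0, nat_lit 84, nat_lit 0, nat_lit 0, [nat_lit 1393777600, nat_lit 1670480400], [], [nat_lit 26939491270, nat_lit 27785279800, nat_lit 28452114599, nat_lit 29231325609, nat_lit 28326824090, nat_lit 29078057380, nat_lit 29674998210, nat_lit 30371049192], nat_lit 0, nat_lit 0, nat_lit 0, nat_lit 0, nat_lit 0, nat_lit 0, [], [nat_lit 24, nat_lit 40, nat_lit 40, nat_lit 80, nat_lit 33, nat_lit 203, nat_lit 0, nat_lit 6]⟩, ⟨p093_k18, nat_lit 0, nat_lit 0, nat_lit 711, nat_lit 0, nat_lit 1416988, [nat_lit 187074000, nat_lit 356250000, nat_lit 454176000], [], [nat_lit 1943674433, nat_lit 1947777061, nat_lit 1996781011, nat_lit 2000225916, nat_lit 1784779378, nat_lit 1785995491, nat_lit 1852479776, nat_lit 1858765255], nat_lit 1271250, nat_lit 1271250, nat_lit 1271250, nat_lit 1271250, nat_lit 279600, nat_lit 2443200, [nat_lit 780000, nat_lit 1435000, nat_lit 1271250], [nat_lit 18, nat_lit 40,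 nat_lit 40, nat_lit 80, nat_lit 2, nat_lit 317, nat_lit 100, nat_lit 9]⟩,
 ⟨nat_lit 3162, nat_lit 3873, ⟨.ofNat (nat_lit 845258), .ofNat (nat_lit 896875), .ofNat (nat_lit 850703), .ofNat (nat_lit 902323), .ofNat (nat_lit 832432), .ofNat (nat_lit 881194), .ofNat (nat_lit 837968), .ofNat (nat_lit 886733)⟩, ⟨.ofNat (nat_lit 304717), .ofNat (nat_lit 433760), .ofNat (nat_lit 348304), .ofNat (nat_lit 477347), .ofNat (nat_lit 306116), .ofNat (nat_lit 428022), .ofNat (nat_lit 350426), .ofNat (nat_lit 472332)⟩⟩, [⟨nat_lit 13, nat_lit 73, nat_lit 45, nat_lit 100, nat_lit 225509752⟩, ⟨nat_lit 10, nat_lit 76, nat_lit 49, nat_lit 100, nat_lit 17580762⟩]⟩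
noncomputable def p093_l124 : Lf2 := ⟨nat_lit 0, nat_lit 5, [nat_lit 4, nat_lit 5, nat_lit 5, nat_lit 20], true, nat_lit 160, nat_lit 200, nat_lit 48, nat_lit 320, ⟨nat_lit 0, nat_lit 1000, nat_lit 0, nat_lit 9, nat_lit 349, nat_lit 1000, nat_lit 144, nat_lit 0, nat_lit 0, nat_lit 0, nat_lit 0, nat_lit 0, nat_lit 34247766, nat_lit 26444639, nat_lit 6307595, nat_lit 4977168, true, true⟩,
 nat_lit 0, nat_lit 0, nat_lit 0, nat_lit 0, nat_lit 3083, nat_lit 0, nat_lit 0, nat_lit 0, nat_lit 0, nat_lit 0, nat_lit 0, nat_lit 0, nat_lit 0, nat_lit 0, nat_lit 0, nat_lit 400000, nat_lit 0, nat_lit 0, [(nat_lit 21, [(nat_lit 1, nat_lit 1000)])],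
 ⟨p093_k43, nat_lit 0, nat_lit 0, nat_lit 84, nat_lit 0, nat_lit 0, [nat_lit 1355200000, nat_lit 1492800000], [], [nat_lit 26744925842, nat_lit 27588673080, nat_lit 28253402751, nat_lit 29130475294, nat_lit 27439792528, nat_lit 28236483114, nat_lit 28866434339, nat_lit 29737351589], nat_lit 0, nat_lit 0, nat_lit 0, nat_lit 0, nat_lit 0, nat_lit 0, [], [nat_lit 24, nat_lit 40, nat_lit 40, nat_lit 80, nat_lit 33, nat_lit 203, nat_lit 0, nat_lit 6]⟩, C1.Rw.none,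
 ⟨nat_lit 3162, nat_lit 3873, ⟨.ofNat (nat_lit 850703), .ofNat (nat_lit 902323), .ofNat (nat_lit 856147), .ofNat (nat_lit 907772), .ofNat (nat_lit 837968), .ofNat (nat_lit 886733), .ofNat (nat_lit 843501), .ofNat (nat_lit 892272)⟩, ⟨.ofNat (nat_lit 304717), .ofNat (nat_lit 369239), .ofNat (nat_lit 348304), .ofNat (nat_lit 412825), .ofNat (nat_lit 306116), .ofNat (nat_lit 367069), .ofNat (nat_lit 350426), .ofNat (nat_lit 411379)⟩⟩, [⟨nat_lit 13, nat_lit 80, nat_lit 34, nat_lit 100, nat_lit 237650536⟩]⟩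
noncomputable def p093_l125 : Lf2 := ⟨nat_lit 0, nat_lit 5, [nat_lit 4, nat_lit 5, nat_lit 5, nat_lit 20], false, nat_lit 200, nat_lit 240, nat_lit 80, nat_lit 332, ⟨nat_lit 98, nat_lit 902, nat_lit 0, nat_lit 9, nat_lit 350, nat_lit 902, nat_lit 169, nat_lit 0, nat_lit 0, nat_lit 0, nat_lit 0, nat_lit 0, nat_lit 33179223, nat_lit 25896124, nat_lit 7924653, nat_lit 5193140, true, true⟩,
 nat_lit 0, nat_lit 0, nat_lit 1158, nat_lit 0, nat_lit 3182, nat_lit 752, nat_lit 0, nat_lit 0, nat_lit 0, nat_lit 51, nat_lit 0, nat_lit 0, nat_lit 0, nat_lit 0, nat_lit 0, nat_lit 384200, nat_lit 0, nat_lit 0, [(nat_lit 21, [(nat_lit 1, nat_lit 863), (nat_lit 2, nat_lit 39)])],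
 ⟨p093_k43, nat_lit 0, nat_lit 0, nat_lit 75, nat_lit 0, nat_lit 0, [nat_lit 1423320400, nat_lit 1730358000], [], [nat_lit 27642453112, nat_lit 28044894134, nat_lit 29086001034, nat_lit 29456986211, nat_lit 28331918556, nat_lit 28710334074, nat_lit 29691878604, nat_lit 30051387608], nat_lit 0, nat_lit 0, nat_lit 0, nat_lit 0, nat_lit 0, nat_lit 0, [], [nat_lit 24, nat_lit 40, nat_lit 40, nat_lit 80, nat_lit 33, nat_lit 203, nat_lit 0, nat_lit 6]⟩, ⟨p093_k51, nat_lit 0, nat_lit 0, nat_lit 626, nat_lit 0, nat_lit 1266210, [nat_lit 321636000, nat_lit 612500000, nat_lit 780864000], [], [nat_lit 3224635705, nat_lit 3233383163, nat_lit 3328610486, nat_lit 3337092748, nat_lit 3167939174, nat_lit 3172358668, nat_lit 3235209438, nat_lit 3238734337], nat_lit 1271250, nat_lit 1271250, nat_lit 1271250, nat_lit 1271250, nat_lit 490000, nat_lit 2458750, [nat_lit 780000, nat_lit 1435000, nat_lit 1271250], [nat_lit 18, nat_lit 40,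 nat_lit 40, nat_lit 80, nat_lit 2, nat_lit 317, nat_lit 100, nat_lit 9]⟩,
 ⟨nat_lit 3535, nat_lit 3873, ⟨.ofNat (nat_lit 850704), .ofNat (nat_lit 902323), .ofNat (nat_lit 856151), .ofNat (nat_lit 907772), .ofNat (nat_lit 844341), .ofNat (nat_lit 894552), .ofNat (nat_lit 849828), .ofNat (nat_lit 900040)⟩, ⟨.ofNat (nat_lit 369239), .ofNat (nat_lit 433760), .ofNat (nat_lit 412825), .ofNat (nat_lit 477347), .ofNat (nat_lit 368283), .ofNat (nat_lit 431044), .ofNat (nat_lit 412188), .ofNat (nat_lit 474949)⟩⟩, [⟨nat_lit 13, nat_lit 73, nat_lit 44, nat_lit 100, nat_lit 175168534⟩, ⟨nat_lit 22, nat_lit 48, nat_lit 83, nat_lit 100, nat_lit 38202514⟩]⟩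
noncomputable def p093_l126 : Lf2 := ⟨nat_lit 0, nat_lit 5, [nat_lit 4, nat_lit 5, nat_lit 5, nat_lit 20], false, nat_lit 200, nat_lit 240, nat_lit 80, nat_lit 332, ⟨nat_lit 56, nat_lit 944, nat_lit 0, nat_lit 9, nat_lit 346, nat_lit 944, nat_lit 168, nat_lit 0, nat_lit 0, nat_lit 0, nat_lit 0, nat_lit 0, nat_lit 33491844, nat_lit 25578045, nat_lit 7930111, nat_lit 5187267, true, true⟩,
 nat_lit 0, nat_lit 0, nat_lit 668, nat_lit 0, nat_lit 2881, nat_lit 434, nat_lit 133, nat_lit 0, nat_lit 0, nat_lit 29, nat_lit 0, nat_lit 0, nat_lit 0, nat_lit 0, nat_lit 0, nat_lit 377600, nat_lit 0, nat_lit 0, [(nat_lit 21, [(nat_lit 1, nat_lit 944)])],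
 ⟨p093_k47, nat_lit 0, nat_lit 0, nat_lit 77, nat_lit 0, nat_lit 0, [nat_lit 1393100800, nat_lit 1667363200], [], [nat_lit 27755770972, nat_lit 28145759323, nat_lit 28948205973, nat_lit 29312501126, nat_lit 28439144492, nat_lit 28806618961, nat_lit 29565065221, nat_lit 29911560506], nat_lit 0, nat_lit 0, nat_lit 0, nat_lit 0, nat_lit 0, nat_lit 0, [], [nat_lit 24, nat_lit 40, nat_lit 40, nat_lit 80, nat_lit 33, nat_lit 203, nat_lit 0, nat_lit 6]⟩, ⟨p093_k51, nat_lit 0, nat_lit 0, nat_lit 681, nat_lit 0, nat_lit 1406661, [nat_lit 183792000, nat_lit 350000000, nat_lit 446208000], [], [nat_lit 1824257870, nat_lit 1829253651, nat_lit 1875811236, nat_lit 1880690176, nat_lit 1789088177, nat_lit 1791591525, nat_lit 1823158292, nat_lit 1828853852], nat_lit 1271250, nat_lit 1271250, nat_lit 1271250, nat_lit 1271250, nat_lit 490000, nat_lit 2458750, [nat_lit 780000, nat_lit 1435000, nat_lit 1271250], [nat_lit 18, nat_lit 40,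 nat_lit 40, nat_lit 80, nat_lit 2, nat_lit 317, nat_lit 100, nat_lit 9]⟩,
 ⟨nat_lit 3162, nat_lit 3536, ⟨.ofNat (nat_lit 844343), .ofNat (nat_lit 888276), .ofNat (nat_lit 849831), .ofNat (nat_lit 893764), .ofNat (nat_lit 837970), .ofNat (nat_lit 880638), .ofNat (nat_lit 843509), .ofNat (nat_lit 886176)⟩, ⟨.ofNat (nat_lit 368283), .ofNat (nat_lit 431044), .ofNat (nat_lit 412188), .ofNat (nat_lit 474949), .ofNat (nat_lit 367069), .ofNat (nat_lit 428022), .ofNat (nat_lit 411379), .ofNat (nat_lit 472332)⟩⟩, [⟨nat_lit 13, nat_lit 70, nat_lit 47, nat_lit 100, nat_lit 211040768⟩, ⟨nat_lit 22, nat_lit 50, nat_lit 82, nat_lit 100, nat_lit 21167676⟩]⟩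
noncomputable def p093_l127 : Lf2 := ⟨nat_lit 0, nat_lit 10, [nat_lit 0, nat_lit 5, nat_lit 5, nat_lit 20], false, nat_lit 160, nat_lit 240, nat_lit 48, nat_lit 336, ⟨nat_lit 322, nat_lit 678, nat_lit 0, nat_lit 9, nat_lit 349, nat_lit 678, nat_lit 156, nat_lit 0, nat_lit 0, nat_lit 0, nat_lit 0, nat_lit 0, nat_lit 33744671, nat_lit 26143359, nat_lit 7111970, nat_lit 5088905, true, true⟩,
 nat_lit 0, nat_lit 0, nat_lit 3467, nat_lit 0, nat_lit 3104, nat_lit 2206, nat_lit 410, nat_lit 0, nat_lit 0, nat_lit 370, nat_lit 0, nat_lit 0, nat_lit 0, nat_lit 0, nat_lit 0, nat_lit 271200, nat_lit 0, nat_lit 0, [(nat_lit 21, [(nat_lit 1, nat_lit 678)])],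
 ⟨p093_k64, nat_lit 0, nat_lit 0, nat_lit 89, nat_lit 0, nat_lit 0, [nat_lit 1573129600, nat_lit 2038005601, nat_lit 3024076000], [], [nat_lit 27034303244, nat_lit 27434272004, nat_lit 28466756454, nat_lit 28835798757, nat_lit 28333651580, nat_lit 28689431708, nat_lit 29612440176, nat_lit 29960468290], nat_lit 0, nat_lit 0, nat_lit 0, nat_lit 0, nat_lit 0, nat_lit 0, [], [nat_lit 85, nat_lit 40, nat_lit 40, nat_lit 80, nat_lit 16, nat_lit 272, nat_lit 60, nat_lit 8]⟩, ⟨p093_k65, nat_lit 0, nat_lit 0, nat_lit 568, nat_lit 0, nat_lit 935601, [nat_lit 1056804000, nat_lit 1509536000, nat_lit 3169124000], [], [nat_lit 10066193569, nat_lit 10141603472, nat_lit 10470675728, nat_lit 10537162489, nat_lit 9962459973, nat_lit 10015252677, nat_lit 10271447017, nat_lit 10319344251], nat_lit 1271250, nat_lit 1271250, nat_lit 1271250, nat_lit 1271250, nat_lit 279600, nat_lit 2443200, [nat_lit 780000, nat_lit 1100000, nat_lit 2127500],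 [nat_lit 42, nat_lit 40, nat_lit 40, nat_lit 80, nat_lit 13, nat_lit 317, nat_lit 100, nat_lit 8]⟩,
 ⟨nat_lit 3535, nat_lit 3873, ⟨.ofNat (nat_lit 845257), .ofNat (nat_lit 896875), .ofNat (nat_lit 856151), .ofNat (nat_lit 907772), .ofNat (nat_lit 838854), .ofNat (nat_lit 889064), .ofNat (nat_lit 849828), .ofNat (nat_lit 900040)⟩, ⟨.ofNat (nat_lit 304717), .ofNat (nat_lit 433760), .ofNat (nat_lit 348304), .ofNat (nat_lit 477347), .ofNat (nat_lit 305521), .ofNat (nat_lit 431044), .ofNat (nat_lit 349427), .ofNat (nat_lit 474949)⟩⟩, [⟨nat_lit 13, nat_lit 76, nat_lit 40, nat_lit 100, nat_lit 131761233⟩, ⟨nat_lit 4, nat_lit 100, nat_lit 71, nat_lit 89, nat_lit 147838446⟩, ⟨nat_lit 19, nat_lit 100, nat_lit 91, nat_lit 96, nat_lit 63521847⟩]⟩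
noncomputable def p093_l128 : Lf2 := ⟨nat_lit 0, nat_lit 10, [nat_lit 0, nat_lit 5, nat_lit 5, nat_lit 20], false, nat_lit 160, nat_lit 240, nat_lit 48, nat_lit 336, ⟨nat_lit 164, nat_lit 836, nat_lit 0, nat_lit 9, nat_lit 343, nat_lit 836, nat_lit 156, nat_lit 0, nat_lit 0, nat_lit 0, nat_lit 0, nat_lit 0, nat_lit 34224433, nat_lit 25612031, nat_lit 7163536, nat_lit 5084643, true, true⟩,
 nat_lit 0, nat_lit 0, nat_lit 1782, nat_lit 0, nat_lit 3457, nat_lit 1134, nat_lit 83, nat_lit 0, nat_lit 0, nat_lit 192, nat_lit 0, nat_lit 0, nat_lit 0, nat_lit 0, nat_lit 0, nat_lit 209000, nat_lit 0, nat_lit 0, [(nat_lit 21, [(nat_lit 0, nat_lit 836)])],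
 ⟨p093_k66, nat_lit 0, nat_lit 0, nat_lit 82, nat_lit 0, nat_lit 0, [nat_lit 1636070400, nat_lit 1872169601, nat_lit 2410401600], [], [nat_lit 27703895594, nat_lit 28143120195, nat_lit 28861170383, nat_lit 29273445246, nat_lit 29002006474, nat_lit 29390417967, nat_lit 30030444725, nat_lit 30398494010], nat_lit 0, nat_lit 0, nat_lit 0, nat_lit 0, nat_lit 0, nat_lit 0, [], [nat_lit 78, nat_lit 40, nat_lit 40, nat_lit 80, nat_lit 22, nat_lit 203, nat_lit 0, nat_lit 6]⟩, ⟨p093_k65, nat_lit 0, nat_lit 0, nat_lit 603, nat_lit 0, nat_lit 1042736, [nat_lit 538248000, nat_lit 768832000, nat_lit 1614088000], [], [nat_lit 5068672548, nat_lit 5087900517, nat_lit 5223801631, nat_lit 5241312383, nat_lit 5028009194, nat_lit 5041436686, nat_lit 5146392742, nat_lit 5158473732], nat_lit 1271250, nat_lit 1271250, nat_lit 1271250, nat_lit 1271250, nat_lit 279600, nat_lit 2443200, [nat_lit 780000, nat_lit 1100000, nat_lit 2127500], [nat_lit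 42, nat_lit 40, nat_lit 40, nat_lit 80, nat_lit 13, nat_lit 317, nat_lit 100, nat_lit 8]⟩,
 ⟨nat_lit 3162, nat_lit 3536, ⟨.ofNat (nat_lit 838855), .ofNat (nat_lit 876512), .ofNat (nat_lit 844343), .ofNat (nat_lit 882000), .ofNat (nat_lit 832432), .ofNat (nat_lit 869004), .ofNat (nat_lit 837970), .ofNat (nat_lit 874542)⟩, ⟨.ofNat (nat_lit 305521), .ofNat (nat_lit 431044), .ofNat (nat_lit 349427), .ofNat (nat_lit 474949), .ofNat (nat_lit 306116), .ofNat (nat_lit 428022), .ofNat (nat_lit 350426), .ofNat (nat_lit 472332)⟩⟩, [⟨nat_lit 13, nat_lit 65, nat_lit 54, nat_lit 100, nat_lit 241716034⟩, ⟨nat_lit 4, nat_lit 100, nat_lit 64, nat_lit 88, nat_lit 8562126⟩, ⟨nat_lit 19, nat_lit 100, nat_lit 80, nat_lit 100, nat_lit 31481978⟩]⟩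
noncomputable def p093_l129 : Lf2 := ⟨nat_lit 0, nat_lit 10, [nat_lit 0, nat_lit 5, nat_lit 5, nat_lit 20], false, nat_lit 160, nat_lit 240, nat_lit 48, nat_lit 332, ⟨nat_lit 433, nat_lit 567, nat_lit 0, nat_lit 9, nat_lit 346, nat_lit 567, nat_lit 156, nat_lit 0, nat_lit 0, nat_lit 0, nat_lit 0, nat_lit 0, nat_lit 33973496, nat_lit 25903114, nat_lit 7123390, nat_lit 5085486, true, true⟩,
 nat_lit 0, nat_lit 0, nat_lit 4413, nat_lit 0, nat_lit 3184, nat_lit 2869, nat_lit 359, nat_lit 0, nat_lit 0, nat_lit 511, nat_lit 0, nat_lit 0, nat_lit 0, nat_lit 0, nat_lit 0, nat_lit 226800, nat_lit 0, nat_lit 0, [(nat_lit 21, [(nat_lit 1, nat_lit 567)])],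
 ⟨p093_k66, nat_lit 0, nat_lit 0, nat_lit 83, nat_lit 0, nat_lit 0, [nat_lit 1648254401, nat_lit 2213998800, nat_lit 2873949800], [], [nat_lit 27405460104, nat_lit 27832019416, nat_lit 28712386822, nat_lit 29109299202, nat_lit 28736101664, nat_lit 29114589880, nat_lit 29900909443, nat_lit 30273163187], nat_lit 0, nat_lit 0, nat_lit 0, nat_lit 0, nat_lit 0, nat_lit 0, [], [nat_lit 78, nat_lit 40, nat_lit 40, nat_lit 80, nat_lit 22, nat_lit 203, nat_lit 0, nat_lit 6]⟩, ⟨p093_k67, nat_lit 0, nat_lit 0, nat_lit 603, nat_lit 0, nat_lit 1044788, [nat_lit 1421106000, nat_lit 2029904000, nat_lit 4261586000], [], [nat_lit 13315364208, nat_lit 13359562629, nat_lit 13769038263, nat_lit 13814406438, nat_lit 13218535021, nat_lit 13254724223, nat_lit 13577862289, nat_lit 13615850029], nat_lit 1271250, nat_lit 1271250, nat_lit 1271250, nat_lit 1271250, nat_lit 279600, nat_lit 2413150, [nat_lit 780000, nat_lit 1100000, nat_lit 2127500],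 [nat_lit 42, nat_lit 40, nat_lit 40, nat_lit 80, nat_lit 13, nat_lit 317, nat_lit 100, nat_lit 8]⟩,
 ⟨nat_lit 3162, nat_lit 3536, ⟨.ofNat (nat_lit 844343), .ofNat (nat_lit 888276), .ofNat (nat_lit 849831), .ofNat (nat_lit 893764), .ofNat (nat_lit 837970), .ofNat (nat_lit 880638), .ofNat (nat_lit 843509), .ofNat (nat_lit 886176)⟩, ⟨.ofNat (nat_lit 305521), .ofNat (nat_lit 431044), .ofNat (nat_lit 349427), .ofNat (nat_lit 474949), .ofNat (nat_lit 306116), .ofNat (nat_lit 428022), .ofNat (nat_lit 350426), .ofNat (nat_lit 472332)⟩⟩, [⟨nat_lit 13, nat_lit 66, nat_lit 52, nat_lit 100, nat_lit 135291668⟩, ⟨nat_lit 4, nat_lit 100, nat_lit 64, nat_lit 88, nat_lit 288801454⟩, ⟨nat_lit 19, nat_lit 99, nat_lit 82, nat_lit 100, nat_lit 83927071⟩]⟩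
noncomputable def p093_l130 : Lf2 := ⟨nat_lit 0, nat_lit 5, [nat_lit 4, nat_lit 5, nat_lit 5, nat_lit 20], false, nat_lit 160, nat_lit 240, nat_lit 48, nat_lit 328, ⟨nat_lit 614, nat_lit 386, nat_lit 0, nat_lit 9, nat_lit 354, nat_lit 386, nat_lit 156, nat_lit 0, nat_lit 0, nat_lit 0, nat_lit 0, nat_lit 0, nat_lit 33417000, nat_lit 26524375, nat_lit 7058625, nat_lit 5088778, true, true⟩,
 nat_lit 0, nat_lit 0, nat_lit 5659, nat_lit 0, nat_lit 3349, nat_lit 3758, nat_lit 428, nat_lit 0, nat_lit 0, nat_lit 1668, nat_lit 0, nat_lit 0, nat_lit 0, nat_lit 0, nat_lit 0, nat_lit 386000, nat_lit 0, nat_lit 0, [(nat_lit 21, [(nat_lit 2, nat_lit 386)])],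
 ⟨p093_k43, nat_lit 0, nat_lit 0, nat_lit 83, nat_lit 0, nat_lit 0, [nat_lit 1788511201, nat_lit 2734451733], [], [nat_lit 27094293360, nat_lit 27528507517, nat_lit 28847730608, nat_lit 29257380012, nat_lit 28455001876, nat_lit 28839487677, nat_lit 30070199132, nat_lit 30452018782], nat_lit 0, nat_lit 0, nat_lit 0, nat_lit 0, nat_lit 0, nat_lit 0, [], [nat_lit 24, nat_lit 40, nat_lit 40, nat_lit 80, nat_lit 33, nat_lit 203, nat_lit 0, nat_lit 6]⟩, ⟨p093_k62, nat_lit 0, nat_lit 0, nat_lit 589, nat_lit 0, nat_lit 1263145, [nat_lit 2015148000, nat_lit 3837500000], [], [nat_lit 18694501147, nat_lit 18751174898, nat_lit 19347613940, nat_lit 19397464394, nat_lit 18472648895, nat_lit 18508885279, nat_lit 18996957690, nat_lit 19040621914], nat_lit 1271250, nat_lit 1271250, nat_lit 1271250, nat_lit 1271250, nat_lit 279600, nat_lit 2383100, [nat_lit 780000, nat_lit 1435000], [nat_lit 49, nat_lit 40, nat_lit 40, nat_lit 80,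 nat_lit 16, nat_lit 317, nat_lit 100, nat_lit 11]⟩,
 ⟨nat_lit 3535, nat_lit 3873, ⟨.ofNat (nat_lit 856151), .ofNat (nat_lit 914224), .ofNat (nat_lit 861598), .ofNat (nat_lit 919672), .ofNat (nat_lit 849828), .ofNat (nat_lit 906316), .ofNat (nat_lit 855315), .ofNat (nat_lit 911804)⟩, ⟨.ofNat (nat_lit 304717), .ofNat (nat_lit 433760), .ofNat (nat_lit 348304), .ofNat (nat_lit 477347), .ofNat (nat_lit 305521), .ofNat (nat_lit 431044), .ofNat (nat_lit 349427), .ofNat (nat_lit 474949)⟩⟩, [⟨nat_lit 13, nat_lit 74, nat_lit 42, nat_lit 100, nat_lit 48606464⟩, ⟨nat_lit 4, nat_lit 100, nat_lit 71, nat_lit 89, nat_lit 309644208⟩, ⟨nat_lit 7, nat_lit 95, nat_lit 100, nat_lit 98, nat_lit 118262228⟩]⟩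
noncomputable def p093_l131 : Lf2 := ⟨nat_lit 0, nat_lit 5, [nat_lit 4, nat_lit 5, nat_lit 5, nat_lit 20], false, nat_lit 160, nat_lit 240, nat_lit 48, nat_lit 328, ⟨nat_lit 344, nat_lit 656, nat_lit 0, nat_lit 9, nat_lit 348, nat_lit 656, nat_lit 156, nat_lit 0, nat_lit 0, nat_lit 0, nat_lit 0, nat_lit 0, nat_lit 33813508, nat_lit 26088839, nat_lit 7097653, nat_lit 5085780, true, true⟩,
 nat_lit 0, nat_lit 0, nat_lit 3239, nat_lit 0, nat_lit 3112, nat_lit 2151, nat_lit 302, nat_lit 0, nat_lit 0, nat_lit 881, nat_lit 0, nat_lit 0, nat_lit 0, nat_lit 0, nat_lit 0, nat_lit 262400, nat_lit 0, nat_lit 0, [(nat_lit 21, [(nat_lit 1, nat_lit 656)])],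
 ⟨p093_k47, nat_lit 0, nat_lit 0, nat_lit 83, nat_lit 0, nat_lit 0, [nat_lit 1588019201, nat_lit 2586176000], [], [nat_lit 27337964055, nat_lit 27761183071, nat_lit 28633490192, nat_lit 29027535532, nat_lit 28677185135, nat_lit 29053056223, nat_lit 29832752427, nat_lit 30188028514], nat_lit 0, nat_lit 0, nat_lit 0, nat_lit 0, nat_lit 0, nat_lit 0, [], [nat_lit 24, nat_lit 40, nat_lit 40, nat_lit 80, nat_lit 33, nat_lit 203, nat_lit 0, nat_lit 6]⟩, ⟨p093_k62, nat_lit 0, nat_lit 0, nat_lit 639, nat_lit 0, nat_lit 1397494, [nat_lit 1129008000, nat_lit 2150000000], [], [nat_lit 10634939860, nat_lit 10662443782, nat_lit 10888730019, nat_lit 10913551883, nat_lit 10374613196, nat_lit 10390735215, nat_lit 10554009534, nat_lit 10568885206], nat_lit 1271250, nat_lit 1271250, nat_lit 1271250, nat_lit 1271250, nat_lit 279600, nat_lit 2383100, [nat_lit 780000, nat_lit 1435000], [nat_lit 49, nat_lit 40, nat_lit 40, nat_lit 80,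 nat_lit 16, nat_lit 317, nat_lit 100, nat_lit 11]⟩,
 ⟨nat_lit 3162, nat_lit 3536, ⟨.ofNat (nat_lit 849831), .ofNat (nat_lit 893764), .ofNat (nat_lit 855319), .ofNat (nat_lit 899252), .ofNat (nat_lit 843509), .ofNat (nat_lit 886176), .ofNat (nat_lit 849048), .ofNat (nat_lit 891715)⟩, ⟨.ofNat (nat_lit 305521), .ofNat (nat_lit 431044), .ofNat (nat_lit 349427), .ofNat (nat_lit 474949), .ofNat (nat_lit 306116), .ofNat (nat_lit 428022), .ofNat (nat_lit 350426), .ofNat (nat_lit 472332)⟩⟩, [⟨nat_lit 13, nat_lit 67, nat_lit 50, nat_lit 100, nat_lit 134171443⟩, ⟨nat_lit 16, nat_lit 64, nat_lit 100, nat_lit 88, nat_lit 138387131⟩, ⟨nat_lit 19, nat_lit 97, nat_lit 84, nat_lit 100, nat_lit 64229470⟩]⟩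
noncomputable def p093_l132 : Lf2 := ⟨nat_lit 0, nat_lit 5, [nat_lit 4, nat_lit 5, nat_lit 5, nat_lit 20], false, nat_lit 160, nat_lit 240, nat_lit 48, nat_lit 324, ⟨nat_lit 306, nat_lit 694, nat_lit 0, nat_lit 9, nat_lit 355, nat_lit 694, nat_lit 156, nat_lit 0, nat_lit 0, nat_lit 0, nat_lit 0, nat_lit 0, nat_lit 33369138, nat_lit 26594166, nat_lit 7036696, nat_lit 5086968, true, true⟩,
 nat_lit 0, nat_lit 0, nat_lit 2820, nat_lit 0, nat_lit 3094, nat_lit 1912, nat_lit 0, nat_lit 0, nat_lit 0, nat_lit 554, nat_lit 0, nat_lit 0, nat_lit 0, nat_lit 0, nat_lit 0, nat_lit 638200, nat_lit 0, nat_lit 0, [(nat_lit 21, [(nat_lit 1, nat_lit 93), (nat_lit 2, nat_lit 601)])],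
 ⟨p093_k43, nat_lit 0, nat_lit 0, nat_lit 85, nat_lit 0, nat_lit 0, [nat_lit 1589946800, nat_lit 1434076400], [], [nat_lit 26910102756, nat_lit 27754870640, nat_lit 28609471640, nat_lit 29379525736, nat_lit 28298635852, nat_lit 29049069464, nat_lit 29813437570, nat_lit 30551441780], nat_lit 0, nat_lit 0, nat_lit 0, nat_lit 0, nat_lit 0, nat_lit 0, [], [nat_lit 24, nat_lit 40, nat_lit 40, nat_lit 80, nat_lit 33, nat_lit 203, nat_lit 0, nat_lit 6]⟩, ⟨p093_k68, nat_lit 0, nat_lit 0, nat_lit 636, nat_lit 0, nat_lit 1389463, [nat_lit 1004292000, nat_lit 1912500000], [], [nat_lit 9282294040, nat_lit 9310830404, nat_lit 9606070559, nat_lit 9631197653, nat_lit 9159901948, nat_lit 9178257364, nat_lit 9419383108, nat_lit 9438262226], nat_lit 1271250, nat_lit 1271250, nat_lit 1271250, nat_lit 1271250, nat_lit 279600, nat_lit 2353050, [nat_lit 780000, nat_lit 1435000], [nat_lit 49, nat_lit 40, nat_lit 40, nat_lit 80, nat_lit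 16, nat_lit 317, nat_lit 100, nat_lit 11]⟩,
 ⟨nat_lit 3162, nat_lit 3873, ⟨.ofNat (nat_lit 861589), .ofNat (nat_lit 919672), .ofNat (nat_lit 867032), .ofNat (nat_lit 925121), .ofNat (nat_lit 849034), .ofNat (nat_lit 903906), .ofNat (nat_lit 854567), .ofNat (nat_lit 909444)⟩, ⟨.ofNat (nat_lit 304717), .ofNat (nat_lit 433760), .ofNat (nat_lit 348304), .ofNat (nat_lit 477347), .ofNat (nat_lit 306116), .ofNat (nat_lit 428022), .ofNat (nat_lit 350426), .ofNat (nat_lit 472332)⟩⟩, [⟨nat_lit 13, nat_lit 68, nat_lit 48, nat_lit 100, nat_lit 159510380⟩, ⟨nat_lit 4, nat_lit 100, nat_lit 67, nat_lit 88, nat_lit 99079101⟩, ⟨nat_lit 19, nat_lit 96, nat_lit 86, nat_lit 100, nat_lit 59500890⟩]⟩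
noncomputable def p093_l133 : Lf2 := ⟨nat_lit 0, nat_lit 10, [nat_lit 0, nat_lit 5, nat_lit 5, nat_lit 20], false, nat_lit 160, nat_lit 240, nat_lit 48, nat_lit 328, ⟨nat_lit 714, nat_lit 286, nat_lit 0, nat_lit 9, nat_lit 355, nat_lit 286, nat_lit 156, nat_lit 0, nat_lit 0, nat_lit 0, nat_lit 0, nat_lit 0, nat_lit 33338709, nat_lit 26615480, nat_lit 7045811, nat_lit 5088630, true, true⟩,
 nat_lit 0, nat_lit 0, nat_lit 6513, nat_lit 0, nat_lit 3820, nat_lit 4325, nat_lit 468, nat_lit 0, nat_lit 0, nat_lit 1538, nat_lit 0, nat_lit 0, nat_lit 0, nat_lit 0, nat_lit 0, nat_lit 114400, nat_lit 0, nat_lit 0, [(nat_lit 21, [(nat_lit 1, nat_lit 286)])],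
 ⟨p093_k8, nat_lit 0, nat_lit 0, nat_lit 89, nat_lit 0, nat_lit 0, [nat_lit 1838435200, nat_lit 3774172800, nat_lit 4889212000], [], [nat_lit 27758199220, nat_lit 28187928520, nat_lit 29566263020, nat_lit 29974363468, nat_lit 28968215100, nat_lit 29347073340, nat_lit 30639235845, nat_lit 31020727496], nat_lit 0, nat_lit 0, nat_lit 0, nat_lit 0, nat_lit 0, nat_lit 0, [], [nat_lit 6, nat_lit 40, nat_lit 40, nat_lit 80, nat_lit 3, nat_lit 272, nat_lit 60, nat_lit 8]⟩, ⟨p093_k4, nat_lit 0, nat_lit 0, nat_lit 520, nat_lit 0, nat_lit 952312, [nat_lit 2343348000, nat_lit 4462500000, nat_lit 5689152000], [], [nat_lit 22684242015, nat_lit 22832755902, nat_lit 23534525810, nat_lit 23665020750, nat_lit 22412704290, nat_lit 22492825763, nat_lit 22950967636, nat_lit 23018971404], nat_lit 1271250, nat_lit 1271250, nat_lit 1271250, nat_lit 1271250, nat_lit 279600, nat_lit 2383100, [nat_lit 780000, nat_lit 1435000, nat_lit 1271250],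 [nat_lit 18, nat_lit 40, nat_lit 40, nat_lit 80, nat_lit 2, nat_lit 317, nat_lit 100, nat_lit 9]⟩,
 ⟨nat_lit 3535, nat_lit 3873, ⟨.ofNat (nat_lit 856151), .ofNat (nat_lit 914224), .ofNat (nat_lit 867045), .ofNat (nat_lit 925119), .ofNat (nat_lit 849828), .ofNat (nat_lit 906316), .ofNat (nat_lit 860801), .ofNat (nat_lit 917291)⟩, ⟨.ofNat (nat_lit 304717), .ofNat (nat_lit 433760), .ofNat (nat_lit 348304), .ofNat (nat_lit 477347), .ofNat (nat_lit 305521), .ofNat (nat_lit 431044), .ofNat (nat_lit 349427), .ofNat (nat_lit 474949)⟩⟩, [⟨nat_lit 13, nat_lit 78, nat_lit 35, nat_lit 100, nat_lit 26987455⟩, ⟨nat_lit 4, nat_lit 100, nat_lit 71, nat_lit 89, nat_lit 334764547⟩, ⟨nat_lit 7, nat_lit 97, nat_lit 100, nat_lit 98, nat_lit 133203232⟩]⟩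
noncomputable def p093_l134 : Lf2 := ⟨nat_lit 0, nat_lit 10, [nat_lit 0, nat_lit 5, nat_lit 5, nat_lit 20], false, nat_lit 160, nat_lit 240, nat_lit 48, nat_lit 328, ⟨nat_lit 510, nat_lit 490, nat_lit 0, nat_lit 9, nat_lit 351, nat_lit 490, nat_lit 156, nat_lit 0, nat_lit 0, nat_lit 0, nat_lit 0, nat_lit 0, nat_lit 33644430, nat_lit 26285236, nat_lit 7070334, nat_lit 5085886, true, true⟩,
 nat_lit 0, nat_lit 0, nat_lit 4918, nat_lit 0, nat_lit 3235, nat_lit 3265, nat_lit 400, nat_lit 0, nat_lit 0, nat_lit 548, nat_lit 0, nat_lit 0, nat_lit 0, nat_lit 0, nat_lit 0, nat_lit 196000, nat_lit 0, nat_lit 0, [(nat_lit 21, [(nat_lit 1, nat_lit 490)])],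
 ⟨p093_k66, nat_lit 0, nat_lit 0, nat_lit 84, nat_lit 0, nat_lit 0, [nat_lit 1700368001, nat_lit 2359036000, nat_lit 3118040000], [], [nat_lit 27500633246, nat_lit 27929558601, nat_lit 29003492823, nat_lit 29398152858, nat_lit 28825197646, nat_lit 29205539661, nat_lit 30163886930, nat_lit 30530602482], nat_lit 0, nat_lit 0, nat_lit 0, nat_lit 0, nat_lit 0, nat_lit 0, [], [nat_lit 78, nat_lit 40, nat_lit 40, nat_lit 80, nat_lit 22, nat_lit 203, nat_lit 0, nat_lit 6]⟩, ⟨p093_k69, nat_lit 0, nat_lit 0, nat_lit 559, nat_lit 0, nat_lit 1082415, [nat_lit 1673820000, nat_lit 2390880000, nat_lit 4063680000], [], [nat_lit 15820255025, nat_lit 15921114219, nat_lit 16341905169, nat_lit 16431560063, nat_lit 15694164769, nat_lit 15759091363, nat_lit 16070613272, nat_lit 16127077315], nat_lit 1271250, nat_lit 1271250, nat_lit 1271250, nat_lit 1271250, nat_lit 279600, nat_lit 2383100, [nat_lit 780000, nat_lit 1100000, nat_lit 1785000],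 [nat_lit 36, nat_lit 40, nat_lit 40, nat_lit 80, nat_lit 7, nat_lit 317, nat_lit 100, nat_lit 9]⟩,
 ⟨nat_lit 3162, nat_lit 3536, ⟨.ofNat (nat_lit 849831), .ofNat (nat_lit 900040), .ofNat (nat_lit 860807), .ofNat (nat_lit 911016), .ofNat (nat_lit 843509), .ofNat (nat_lit 892272), .ofNat (nat_lit 854586), .ofNat (nat_lit 903349)⟩, ⟨.ofNat (nat_lit 305521), .ofNat (nat_lit 431044), .ofNat (nat_lit 349427), .ofNat (nat_lit 474949), .ofNat (nat_lit 306116), .ofNat (nat_lit 428022), .ofNat (nat_lit 350426), .ofNat (nat_lit 472332)⟩⟩, [⟨nat_lit 13, nat_lit 72, nat_lit 43, nat_lit 100, nat_lit 80349140⟩, ⟨nat_lit 16, nat_lit 64, nat_lit 100, nat_lit 88, nat_lit 313521481⟩, ⟨nat_lit 7, nat_lit 97, nat_lit 100, nat_lit 98, nat_lit 98039193⟩]⟩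
noncomputable def b_V_800_700_20_15 : St := ⟨true, nat_lit 0, nat_lit 1, nat_lit 1, nat_lit 120, nat_lit 320, nat_lit 360, nat_lit 280, nat_lit 300, nat_lit 360, nat_lit 400, nat_lit 80, nat_lit 120, nat_lit 160, nat_lit 240, nat_lit 48, nat_lit 336, nat_lit 0, nat_lit 40, nat_lit 0, nat_lit 0, nat_lit 800, nat_lit 0⟩
theorem d_V_800_700_20_15 (h : EB TB.env) : Dead b_V_800_700_20_15 := chkB_sound0 h (T :=
(.spl (nat_lit 0) (nat_lit 340)
(.spl (nat_lit 1) (nat_lit 290)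
(.spl (nat_lit 1) (nat_lit 285)
(.trX (nat_lit 13) (nat_lit 88) (nat_lit 22) (nat_lit 100) (nat_lit 396) (.spl (nat_lit 4) (nat_lit 200)
(.trX (nat_lit 22) (nat_lit 60) (nat_lit 80) (nat_lit 100) (nat_lit 320) (.leaf p093_l115))
(.trZ (nat_lit 9) (nat_lit 100) (nat_lit 60) (nat_lit 80) (nat_lit 80) (.spl (nat_lit 1) (nat_lit 283)
(.leaf p093_l116)
(.leaf p093_l117)))))
(.trX (nat_lit 19) (nat_lit 99) (nat_lit 82) (nat_lit 100) (nat_lit 332) (.spl (nat_lit 4) (nat_lit 200)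
(.trX (nat_lit 22) (nat_lit 60) (nat_lit 80) (nat_lit 100) (nat_lit 320) (.leaf p093_l118))
(.trZ (nat_lit 9) (nat_lit 100) (nat_lit 60) (nat_lit 80) (nat_lit 80) (.spl (nat_lit 3) (nat_lit 100)
(.trX (nat_lit 19) (nat_lit 100) (nat_lit 91) (nat_lit 96) (nat_lit 316) (.leaf p093_l119))
(.leaf p093_l120))))))
(.trX (nat_lit 19) (nat_lit 97) (nat_lit 84) (nat_lit 100) (nat_lit 328) (.spl (nat_lit 0) (nat_lit 330)
(.leaf p093_l121)
(.leaf p093_l122))))
(.trX (nat_lit 13) (nat_lit 82) (nat_lit 29) (nat_lit 100) (nat_lit 396) (.spl (nat_lit 1) (nat_lit 290)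
(.trX (nat_lit 13) (nat_lit 80) (nat_lit 34) (nat_lit 100) (nat_lit 392) (.spl (nat_lit 6) (nat_lit 20)
(.spl (nat_lit 1) (nat_lit 285)
(.leaf p093_l123)
(.trX (nat_lit 19) (nat_lit 99) (nat_lit 82) (nat_lit 100) (nat_lit 332) (.spl (nat_lit 4) (nat_lit 200)
(.trX (nat_lit 22) (nat_lit 60) (nat_lit 80) (nat_lit 100) (nat_lit 320) (.leaf p093_l124))
(.trZ (nat_lit 9) (nat_lit 100) (nat_lit 60) (nat_lit 80) (nat_lit 80) (.spl (nat_lit 0) (nat_lit 350)
(.leaf p093_l125)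
(.trX (nat_lit 13) (nat_lit 74) (nat_lit 42) (nat_lit 100) (nat_lit 388) (.leaf p093_l126)))))))
(.spl (nat_lit 0) (nat_lit 350)
(.leaf p093_l127)
(.trX (nat_lit 13) (nat_lit 74) (nat_lit 42) (nat_lit 100) (nat_lit 388) (.spl (nat_lit 1) (nat_lit 285)
(.trX (nat_lit 13) (nat_lit 73) (nat_lit 44) (nat_lit 100) (nat_lit 384) (.leaf p093_l128))
(.trX (nat_lit 19) (nat_lit 99) (nat_lit 82) (nat_lit 100) (nat_lit 332) (.leaf p093_l129)))))))
(.trX (nat_lit 19) (nat_lit 97) (nat_lit 84) (nat_lit 100) (nat_lit 328) (.spl (nat_lit 6) (nat_lit 20)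
(.spl (nat_lit 1) (nat_lit 295)
(.spl (nat_lit 0) (nat_lit 350)
(.leaf p093_l130)
(.trX (nat_lit 13) (nat_lit 75) (nat_lit 39) (nat_lit 100) (nat_lit 388) (.leaf p093_l131)))
(.trX (nat_lit 19) (nat_lit 96) (nat_lit 86) (nat_lit 100) (nat_lit 324) (.leaf p093_l132)))
(.spl (nat_lit 0) (nat_lit 350)
(.leaf p093_l133)
(.trX (nat_lit 13) (nat_lit 76) (nat_lit 37) (nat_lit 100) (nat_lit 392) (.leaf p093_l134))))))))) (by decide +kernel)

end B2
end Pool.Agent.Lib.MP_6947cd_al
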