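import Pool.Agent.Lib.MP_6947cd_al.ZB.Pre

/-!
Problem MP_6947cd_al (Chollet).  Case B, second entry in [2/5, 17/20]: certificates of the tree, part P094 (generated).
-/

set_option autoImplicit false
set_option linter.all false

namespace Pool.Agent.Lib.MP_6947cd_al
namespace B2

open Ent Fr B1 PkA

noncomputable def p094_k0 : C1.Kn := ⟨[nat_lit 40, nat_lit 60, nat_lit 80], [nat_lit 0, nat_lit 0, nat_lit 615], [(nat_lit 0, nat_lit 0, nat_lit 0), (nat_lit 0, nat_lit 0, nat_lit 0), (nat_lit 1000, nat_lit 819, nat_lit 426)], (nat_lit 85, nat_lit 100, nat_lit 30)⟩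
noncomputable def p094_k1 : C1.Kn := ⟨[nat_lit 60, nat_lit 80, nat_lit 100], [nat_lit 0, nat_lit 0, nat_lit 534], [(nat_lit 0, nat_lit 0, nat_lit 0), (nat_lit 0, nat_lit 0, nat_lit 0), (nat_lit 1000, nat_lit 917, nat_lit 393)], (nat_lit 92, nat_lit 100, nat_lit 28)⟩
noncomputable def p094_k2 : C1.Kn := ⟨[nat_lit 40, nat_lit 60], [nat_lit 0, nat_lit 197], [(nat_lit 0, nat_lit 0, nat_lit 0), (nat_lit 1000, nat_lit 908, nat_lit 154)], (nat_lit 87, nat_lit 100, nat_lit 23)⟩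
noncomputable def p094_k3 : C1.Kn := ⟨[nat_lit 60, nat_lit 80], [nat_lit 0, nat_lit 0], [(nat_lit 0, nat_lit 0, nat_lit 0), (nat_lit 0, nat_lit 0, nat_lit 0)], (nat_lit 94, nat_lit 100, nat_lit 20)⟩
noncomputable def p094_k4 : C1.Kn := ⟨[nat_lit 40, nat_lit 60], [nat_lit 0, nat_lit 197], [(nat_lit 0, nat_lit 0, nat_lit 0), (nat_lit 1000, nat_lit 908, nat_lit 154)], (nat_lit 83, nat_lit 100, nat_lit 31)⟩
noncomputable def p094_k5 : C1.Kn := ⟨[nat_lit 40, nat_lit 60, nat_lit 100], [nat_lit 0, nat_lit 0, nat_lit 1216], [(nat_lit 0, nat_lit 0, nat_lit 0), (nat_lit 0, nat_lit 0, nat_lit 0), (nat_lit 1000, nat_lit 810, nat_lit 474)], (nat_lit 82, nat_lit 100, nat_lit 44)⟩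
noncomputable def p094_k6 : C1.Kn := ⟨[nat_lit 60, nat_lit 80, nat_lit 120], [nat_lit 0, nat_lit 0, nat_lit 1064], [(nat_lit 0, nat_lit 0, nat_lit 0), (nat_lit 0, nat_lit 0, nat_lit 0), (nat_lit 1000, nat_lit 917, nat_lit 415)], (nat_lit 92, nat_lit 100, nat_lit 44)⟩
noncomputable def p094_k7 : C1.Kn := ⟨[nat_lit 60, nat_lit 80, nat_lit 120], [nat_lit 0, nat_lit 75, nat_lit 1136], [(nat_lit 0, nat_lit 0, nat_lit 0), (nat_lit 1000, nat_lit 977, nat_lit 59), (nat_lit 1000, nat_lit 905, nat_lit 414)], (nat_lit 91, nat_lit 100, nat_lit 44)⟩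
noncomputable def p094_k8 : C1.Kn := ⟨[nat_lit 40, nat_lit 60, nat_lit 100], [nat_lit 0, nat_lit 0, nat_lit 1216], [(nat_lit 0, nat_lit 0, nat_lit 0), (nat_lit 0, nat_lit 0, nat_lit 0), (nat_lit 1000, nat_lit 810, nat_lit 474)], (nat_lit 80, nat_lit 100, nat_lit 60)⟩
noncomputable def p094_k9 : C1.Kn := ⟨[nat_lit 60, nat_lit 80, nat_lit 140], [nat_lit 0, nat_lit 0, nat_lit 1595], [(nat_lit 0, nat_lit 0, nat_lit 0), (nat_lit 0, nat_lit 0, nat_lit 0), (nat_lit 1000, nat_lit 917, nat_lit 415)], (nat_lit 94, nat_lit 100, nat_lit 62)⟩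
noncomputable def p094_k10 : C1.Kn := ⟨[nat_lit 40, nat_lit 60], [nat_lit 0, nat_lit 398], [(nat_lit 0, nat_lit 0, nat_lit 0), (nat_lit 1000, nat_lit 814, nat_lit 310)], (nat_lit 81, nat_lit 100, nat_lit 32)⟩
noncomputable def p094_k11 : C1.Kn := ⟨[nat_lit 40, nat_lit 60, nat_lit 80], [nat_lit 0, nat_lit 398, nat_lit 992], [(nat_lit 0, nat_lit 0, nat_lit 0), (nat_lit 1000, nat_lit 814, nat_lit 310), (nat_lit 1000, nat_lit 752, nat_lit 464)], (nat_lit 75, nat_lit 100, nat_lit 46)⟩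
noncomputable def p094_k12 : C1.Kn := ⟨[nat_lit 40, nat_lit 60, nat_lit 80], [nat_lit 0, nat_lit 499, nat_lit 1089], [(nat_lit 0, nat_lit 0, nat_lit 0), (nat_lit 1000, nat_lit 767, nat_lit 387), (nat_lit 1000, nat_lit 738, nat_lit 461)], (nat_lit 74, nat_lit 100, nat_lit 47)⟩
noncomputable def p094_k13 : C1.Kn := ⟨[nat_lit 40, nat_lit 60, nat_lit 80], [nat_lit 0, nat_lit 600, nat_lit 1195], [(nat_lit 0, nat_lit 0, nat_lit 0), (nat_lit 1000, nat_lit 725, nat_lit 454), (nat_lit 1000, nat_lit 720, nat_lit 465)], (nat_lit 72, nat_lit 100, nat_lit 47)⟩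
noncomputable def p094_k14 : C1.Kn := ⟨[nat_lit 40, nat_lit 60], [nat_lit 0, nat_lit 709], [(nat_lit 0, nat_lit 0, nat_lit 0), (nat_lit 1000, nat_lit 692, nat_lit 494)], (nat_lit 70, nat_lit 100, nat_lit 48)⟩
noncomputable def p094_k15 : C1.Kn := ⟨[nat_lit 60, nat_lit 80, nat_lit 100], [nat_lit 0, nat_lit 75, nat_lit 606], [(nat_lit 0, nat_lit 0, nat_lit 0), (nat_lit 1000, nat_lit 977, nat_lit 59), (nat_lit 1000, nat_lit 905, nat_lit 411)], (nat_lit 92, nat_lit 100, nat_lit 28)⟩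
noncomputable def p094_k16 : C1.Kn := ⟨[nat_lit 40, nat_lit 60, nat_lit 100], [nat_lit 0, nat_lit 398, nat_lit 1586], [(nat_lit 0, nat_lit 0, nat_lit 0), (nat_lit 1000, nat_lit 814, nat_lit 310), (nat_lit 1000, nat_lit 752, nat_lit 464)], (nat_lit 72, nat_lit 100, nat_lit 61)⟩
noncomputable def p094_k17 : C1.Kn := ⟨[nat_lit 40, nat_lit 60, nat_lit 80], [nat_lit 0, nat_lit 600, nat_lit 1195], [(nat_lit 0, nat_lit 0, nat_lit 0), (nat_lit 1000, nat_lit 725, nat_lit 454), (nat_lit 1000, nat_lit 720, nat_lit 465)], (nat_lit 68, nat_lit 100, nat_lit 61)⟩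
noncomputable def p094_k18 : C1.Kn := ⟨[nat_lit 40, nat_lit 60, nat_lit 80], [nat_lit 0, nat_lit 709, nat_lit 1350], [(nat_lit 0, nat_lit 0, nat_lit 0), (nat_lit 1000, nat_lit 692, nat_lit 494), (nat_lit 1000, nat_lit 689, nat_lit 501)], (nat_lit 65, nat_lit 100, nat_lit 62)⟩
noncomputable def p094_k19 : C1.Kn := ⟨[nat_lit 60, nat_lit 80, nat_lit 140], [nat_lit 0, nat_lit 75, nat_lit 1666], [(nat_lit 0, nat_lit 0, nat_lit 0), (nat_lit 1000, nat_lit 977, nat_lit 59), (nat_lit 1000, nat_lit 905, nat_lit 414)], (nat_lit 92, nat_lit 100, nat_lit 61)⟩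
noncomputable def p094_k20 : C1.Kn := ⟨[nat_lit 60, nat_lit 80, nat_lit 120], [nat_lit 0, nat_lit 151, nat_lit 1205], [(nat_lit 0, nat_lit 0, nat_lit 0), (nat_lit 1000, nat_lit 953, nat_lit 118), (nat_lit 1000, nat_lit 894, nat_lit 411)], (nat_lit 91, nat_lit 100, nat_lit 61)⟩
noncomputable def p094_k21 : C1.Kn := ⟨[nat_lit 60, nat_lit 80, nat_lit 100], [nat_lit 0, nat_lit 151, nat_lit 679], [(nat_lit 0, nat_lit 0, nat_lit 0), (nat_lit 1000, nat_lit 953, nat_lit 118), (nat_lit 1000, nat_lit 894, nat_lit 411)], (nat_lit 89, nat_lit 100, nat_lit 44)⟩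
noncomputable def p094_k22 : C1.Kn := ⟨[nat_lit 60, nat_lit 80, nat_lit 100], [nat_lit 0, nat_lit 228, nat_lit 751], [(nat_lit 0, nat_lit 0, nat_lit 0), (nat_lit 1000, nat_lit 929, nat_lit 178), (nat_lit 1000, nat_lit 883, nat_lit 407)], (nat_lit 88, nat_lit 100, nat_lit 44)⟩
noncomputable def p094_k23 : C1.Kn := ⟨[nat_lit 40, nat_lit 80, nat_lit 100], [nat_lit 0, nat_lit 0, nat_lit 1280], [(nat_lit 0, nat_lit 0, nat_lit 0), (nat_lit 0, nat_lit 0, nat_lit 0), (nat_lit 1000, nat_lit 800, nat_lit 600)], (nat_lit 80, nat_lit 100, nat_lit 60)⟩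
noncomputable def p094_k24 : C1.Kn := ⟨[nat_lit 60, nat_lit 100, nat_lit 120], [nat_lit 0, nat_lit 609, nat_lit 1609], [(nat_lit 0, nat_lit 0, nat_lit 0), (nat_lit 1000, nat_lit 905, nat_lit 238), (nat_lit 1000, nat_lit 882, nat_lit 668)], (nat_lit 87, nat_lit 100, nat_lit 60)⟩
noncomputable def p094_k25 : C1.Kn := ⟨[nat_lit 40, nat_lit 80, nat_lit 100], [nat_lit 0, nat_lit 395, nat_lit 1536], [(nat_lit 0, nat_lit 0, nat_lit 0), (nat_lit 1000, nat_lit 908, nat_lit 154), (nat_lit 1000, nat_lit 760, nat_lit 642)], (nat_lit 76, nat_lit 100, nat_lit 60)⟩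
noncomputable def p094_k26 : C1.Kn := ⟨[nat_lit 60, nat_lit 100, nat_lit 120], [nat_lit 0, nat_lit 909, nat_lit 1866], [(nat_lit 0, nat_lit 0, nat_lit 0), (nat_lit 1000, nat_lit 858, nat_lit 354), (nat_lit 1000, nat_lit 849, nat_lit 705)], (nat_lit 84, nat_lit 100, nat_lit 60)⟩
noncomputable def p094_k27 : C1.Kn := ⟨[nat_lit 40, nat_lit 80], [nat_lit 0, nat_lit 795], [(nat_lit 0, nat_lit 0, nat_lit 0), (nat_lit 1000, nat_lit 814, nat_lit 310)], (nat_lit 75, nat_lit 100, nat_lit 46)⟩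
noncomputable def p094_k28 : C1.Kn := ⟨[nat_lit 60, nat_lit 100], [nat_lit 0, nat_lit 609], [(nat_lit 0, nat_lit 0, nat_lit 0), (nat_lit 1000, nat_lit 905, nat_lit 238)], (nat_lit 87, nat_lit 100, nat_lit 44)⟩
noncomputable def p094_k29 : C1.Kn := ⟨[nat_lit 40, nat_lit 80], [nat_lit 0, nat_lit 1195], [(nat_lit 0, nat_lit 0, nat_lit 0), (nat_lit 1000, nat_lit 720, nat_lit 465)], (nat_lit 72, nat_lit 100, nat_lit 47)⟩
noncomputable def p094_k30 : C1.Kn := ⟨[nat_lit 60, nat_lit 100], [nat_lit 0, nat_lit 909], [(nat_lit 0, nat_lit 0, nat_lit 0), (nat_lit 1000, nat_lit 858, nat_lit 354)], (nat_lit 84, nat_lit 100, nat_lit 44)⟩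
noncomputable def p094_k31 : C1.Kn := ⟨[nat_lit 60, nat_lit 80, nat_lit 100], [nat_lit 0, nat_lit 304, nat_lit 825], [(nat_lit 0, nat_lit 0, nat_lit 0), (nat_lit 1000, nat_lit 905, nat_lit 238), (nat_lit 1000, nat_lit 871, nat_lit 407)], (nat_lit 87, nat_lit 100, nat_lit 44)⟩
noncomputable def p094_k32 : C1.Kn := ⟨[nat_lit 60, nat_lit 80, nat_lit 100], [nat_lit 0, nat_lit 456, nat_lit 976], [(nat_lit 0, nat_lit 0, nat_lit 0), (nat_lit 1000, nat_lit 859, nat_lit 351), (nat_lit 1000, nat_lit 848, nat_lit 406)], (nat_lit 84, nat_lit 100, nat_lit 44)⟩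
noncomputable def p094_k33 : C1.Kn := ⟨[nat_lit 60, nat_lit 80, nat_lit 100], [nat_lit 0, nat_lit 533, nat_lit 1067], [(nat_lit 0, nat_lit 0, nat_lit 0), (nat_lit 1000, nat_lit 837, nat_lit 397), (nat_lit 1000, nat_lit 833, nat_lit 417)], (nat_lit 83, nat_lit 100, nat_lit 44)⟩
noncomputable def p094_k34 : C1.Kn := ⟨[nat_lit 40, nat_lit 80, nat_lit 100], [nat_lit 0, nat_lit 795, nat_lit 1829], [(nat_lit 0, nat_lit 0, nat_lit 0), (nat_lit 1000, nat_lit 814, nat_lit 310), (nat_lit 1000, nat_lit 714, nat_lit 692)], (nat_lit 72, nat_lit 100, nat_lit 61)⟩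
noncomputable def p094_k35 : C1.Kn := ⟨[nat_lit 40, nat_lit 80], [nat_lit 0, nat_lit 1195], [(nat_lit 0, nat_lit 0, nat_lit 0), (nat_lit 1000, nat_lit 720, nat_lit 465)], (nat_lit 68, nat_lit 100, nat_lit 61)⟩
noncomputable def p094_k36 : C1.Kn := ⟨[nat_lit 40, nat_lit 80], [nat_lit 0, nat_lit 1399], [(nat_lit 0, nat_lit 0, nat_lit 0), (nat_lit 1000, nat_lit 672, nat_lit 546)], (nat_lit 65, nat_lit 100, nat_lit 62)⟩
noncomputable def p094_k37 : C1.Kn := ⟨[nat_lit 60, nat_lit 100, nat_lit 140], [nat_lit 0, nat_lit 0, nat_lit 2047], [(nat_lit 0, nat_lit 0, nat_lit 0), (nat_lit 0, nat_lit 0, nat_lit 0), (nat_lit 1000, nat_lit 993, nat_lit 781)], (nat_lit 94, nat_lit 100, nat_lit 62)⟩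
noncomputable def p094_k38 : C1.Kn := ⟨[nat_lit 60, nat_lit 100, nat_lit 120], [nat_lit 0, nat_lit 302, nat_lit 1376], [(nat_lit 0, nat_lit 0, nat_lit 0), (nat_lit 1000, nat_lit 953, nat_lit 118), (nat_lit 1000, nat_lit 911, nat_lit 628)], (nat_lit 91, nat_lit 100, nat_lit 61)⟩
noncomputable def p094_k39 : C1.Kn := ⟨[nat_lit 40, nat_lit 100], [nat_lit 0, nat_lit 0], [(nat_lit 0, nat_lit 0, nat_lit 0), (nat_lit 0, nat_lit 0, nat_lit 0)], (nat_lit 80, nat_lit 100, nat_lit 60)⟩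
noncomputable def p094_k40 : C1.Kn := ⟨[nat_lit 40, nat_lit 80, nat_lit 100], [nat_lit 0, nat_lit 192, nat_lit 1404], [(nat_lit 0, nat_lit 0, nat_lit 0), (nat_lit 1000, nat_lit 955, nat_lit 75), (nat_lit 1000, nat_lit 781, nat_lit 625)], (nat_lit 78, nat_lit 100, nat_lit 60)⟩
noncomputable def p094_k41 : C1.Kn := ⟨[nat_lit 40, nat_lit 60, nat_lit 80], [nat_lit 0, nat_lit 56, nat_lit 668], [(nat_lit 0, nat_lit 0, nat_lit 0), (nat_lit 1000, nat_lit 974, nat_lit 44), (nat_lit 1000, nat_lit 806, nat_lit 448)], (nat_lit 81, nat_lit 100, nat_lit 45)⟩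
noncomputable def p094_k42 : C1.Kn := ⟨[nat_lit 40, nat_lit 80], [nat_lit 0, nat_lit 192], [(nat_lit 0, nat_lit 0, nat_lit 0), (nat_lit 1000, nat_lit 955, nat_lit 75)], (nat_lit 80, nat_lit 100, nat_lit 45)⟩
noncomputable def p094_k43 : C1.Kn := ⟨[nat_lit 60, nat_lit 100, nat_lit 120], [nat_lit 0, nat_lit 0, nat_lit 1164], [(nat_lit 0, nat_lit 0, nat_lit 0), (nat_lit 0, nat_lit 0, nat_lit 0), (nat_lit 1000, nat_lit 933, nat_lit 572)], (nat_lit 92, nat_lit 100, nat_lit 44)⟩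
noncomputable def p094_k44 : C1.Kn := ⟨[nat_lit 60, nat_lit 80, nat_lit 120], [nat_lit 0, nat_lit 304, nat_lit 1346], [(nat_lit 0, nat_lit 0, nat_lit 0), (nat_lit 1000, nat_lit 905, nat_lit 238), (nat_lit 1000, nat_lit 871, nat_lit 407)], (nat_lit 87, nat_lit 100, nat_lit 60)⟩
noncomputable def p094_k45 : C1.Kn := ⟨[nat_lit 40, nat_lit 60, nat_lit 100], [nat_lit 0, nat_lit 197, nat_lit 1403], [(nat_lit 0, nat_lit 0, nat_lit 0), (nat_lit 1000, nat_lit 908, nat_lit 154), (nat_lit 1000, nat_lit 781, nat_lit 471)], (nat_lit 76, nat_lit 100, nat_lit 60)⟩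
noncomputable def p094_k46 : C1.Kn := ⟨[nat_lit 40, nat_lit 60, nat_lit 100], [nat_lit 0, nat_lit 96, nat_lit 1311], [(nat_lit 0, nat_lit 0, nat_lit 0), (nat_lit 1000, nat_lit 955, nat_lit 75), (nat_lit 1000, nat_lit 795, nat_lit 474)], (nat_lit 78, nat_lit 100, nat_lit 60)⟩
noncomputable def p094_k47 : C1.Kn := ⟨[nat_lit 40, nat_lit 60, nat_lit 80], [nat_lit 0, nat_lit 197, nat_lit 800], [(nat_lit 0, nat_lit 0, nat_lit 0), (nat_lit 1000, nat_lit 908, nat_lit 154), (nat_lit 1000, nat_lit 781, nat_lit 471)], (nat_lit 79, nat_lit 100, nat_lit 45)⟩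
noncomputable def p094_k48 : C1.Kn := ⟨[nat_lit 40, nat_lit 60, nat_lit 100], [nat_lit 0, nat_lit 0, nat_lit 1216], [(nat_lit 0, nat_lit 0, nat_lit 0), (nat_lit 0, nat_lit 0, nat_lit 0), (nat_lit 1000, nat_lit 810, nat_lit 474)], (nat_lit 80, nat_lit 100, nat_lit 54)⟩
noncomputable def p094_k49 : C1.Kn := ⟨[nat_lit 60, nat_lit 80, nat_lit 120], [nat_lit 0, nat_lit 0, nat_lit 1064], [(nat_lit 0, nat_lit 0, nat_lit 0), (nat_lit 0, nat_lit 0, nat_lit 0), (nat_lit 1000, nat_lit 917, nat_lit 415)], (nat_lit 93, nat_lit 100, nat_lit 55)⟩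
noncomputable def p094_l0 : Lf2 := ⟨nat_lit 0, nat_lit 2, [nat_lit 10, nat_lit 5, nat_lit 5, nat_lit 20], false, nat_lit 240, nat_lit 300, nat_lit 112, nat_lit 336, ⟨nat_lit 853, nat_lit 147, nat_lit 0, nat_lit 9, nat_lit 355, nat_lit 147, nat_lit 204, nat_lit 0, nat_lit 0, nat_lit 0, nat_lit 0, nat_lit 0, nat_lit 31502419, nat_lit 25315846, nat_lit 10181735, nat_lit 5439873, true, true⟩,
 nat_lit 0, nat_lit 0, nat_lit 9169, nat_lit 0, nat_lit 3901, nat_lit 5834, nat_lit 637, nat_lit 0, nat_lit 0, nat_lit 826, nat_lit 0, nat_lit 0, nat_lit 0, nat_lit 0, nat_lit 0, nat_lit 147000, nat_lit 0, nat_lit 0, [(nat_lit 18, [(nat_lit 2, nat_lit 147)])],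
 ⟨p094_k0, nat_lit 0, nat_lit 0, nat_lit 65, nat_lit 0, nat_lit 0, [nat_lit 1960734400, nat_lit 3001465200, nat_lit 4107056000], [], [nat_lit 28425288185, nat_lit 28829838634, nat_lit 30166189836, nat_lit 30569601014, nat_lit 30126604306, nat_lit 30503781262, nat_lit 31813687001, nat_lit 32170832255], nat_lit 0, nat_lit 0, nat_lit 0, nat_lit 0, nat_lit 0, nat_lit 0, [], [nat_lit 78, nat_lit 40, nat_lit 40, nat_lit 80, nat_lit 22, nat_lit 203, nat_lit 0, nat_lit 6]⟩, ⟨p094_k1, nat_lit 0, nat_lit 0, nat_lit 441, nat_lit 0, nat_lit 979793, [nat_lit 2799546000, nat_lit 3998864000, nat_lit 5331250000], [], [nat_lit 25026074580, nat_lit 25124670619, nat_lit 26222068292, nat_lit 26320693735, nat_lit 26434620848, nat_lit 26504562243, nat_lit 27354963759, nat_lit 27414492576], nat_lit 1271250, nat_lit 1271250, nat_lit 1271250, nat_lit 1271250, nat_lit 719601, nat_lit 2536800, [nat_lit 780000, nat_lit 1100000, nat_lit 1442500],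 [nat_lit 59, nat_lit 40, nat_lit 40, nat_lit 80, nat_lit 3, nat_lit 317, nat_lit 100, nat_lit 10]⟩,
 ⟨nat_lit 4183, nat_lit 4473, ⟨.ofNat (nat_lit 858166), .ofNat (nat_lit 919347), .ofNat (nat_lit 863556), .ofNat (nat_lit 924738), .ofNat (nat_lit 851677), .ofNat (nat_lit 911307), .ofNat (nat_lit 857092), .ofNat (nat_lit 916723)⟩, ⟨.ofNat (nat_lit 438578), .ofNat (nat_lit 540545), .ofNat (nat_lit 481711), .ofNat (nat_lit 583678), .ofNat (nat_lit 436254), .ofNat (nat_lit 535637), .ofNat (nat_lit 479587), .ofNat (nat_lit 578971)⟩⟩, [⟨nat_lit 13, nat_lit 86, nat_lit 27, nat_lit 100, nat_lit 10725800⟩, ⟨nat_lit 4, nat_lit 100, nat_lit 84, nat_lit 93, nat_lit 433054611⟩, ⟨nat_lit 19, nat_lit 100, nat_lit 89, nat_lit 95, nat_lit 220174735⟩]⟩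
noncomputable def p094_l1 : Lf2 := ⟨nat_lit 0, nat_lit 1, [nat_lit 19, nat_lit 5, nat_lit 5, nat_lit 20], false, nat_lit 240, nat_lit 288, nat_lit 112, nat_lit 336, ⟨nat_lit 190, nat_lit 810, nat_lit 0, nat_lit 9, nat_lit 352, nat_lit 810, nat_lit 198, nat_lit 0, nat_lit 0, nat_lit 0, nat_lit 0, nat_lit 0, nat_lit 31897300, nat_lit 25238891, nat_lit 9863809, nat_lit 5405820, true, true⟩,
 nat_lit 0, nat_lit 0, nat_lit 2105, nat_lit 0, nat_lit 2965, nat_lit 1339, nat_lit 784, nat_lit 0, nat_lit 0, nat_lit 0, nat_lit 0, nat_lit 0, nat_lit 0, nat_lit 0, nat_lit 0, nat_lit 324000, nat_lit 0, nat_lit 0, [(nat_lit 18, [(nat_lit 1, nat_lit 810)])],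
 ⟨p094_k2, nat_lit 0, nat_lit 0, nat_lit 63, nat_lit 0, nat_lit 0, [nat_lit 1484440001, nat_lit 1986324000], [], [nat_lit 27711415996, nat_lit 28099493191, nat_lit 29307023539, nat_lit 29661949082, nat_lit 29044181465, nat_lit 29400283736, nat_lit 30542416238, nat_lit 30880732729], nat_lit 0, nat_lit 0, nat_lit 0, nat_lit 0, nat_lit 0, nat_lit 0, [], [nat_lit 112, nat_lit 40, nat_lit 40, nat_lit 80, nat_lit 113, nat_lit 203, nat_lit 0, nat_lit 7]⟩, ⟨p094_k3, nat_lit 0, nat_lit 0, nat_lit 438, nat_lit 0, nat_lit 1104758, [nat_lit 623580000, nat_lit 890720000], [], [nat_lit 5373735376, nat_lit 5397718233, nat_lit 5681746554, nat_lit 5705744933, nat_lit 5713995257, nat_lit 5729511393, nat_lit 5921005812, nat_lit 5934145607], nat_lit 1271250, nat_lit 1271250, nat_lit 1271250, nat_lit 1271250, nat_lit 719601, nat_lit 2536800, [nat_lit 780000, nat_lit 1100000], [nat_lit 40, nat_lit 40, nat_lit 40, nat_lit 80, nat_lit 22,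 nat_lit 317, nat_lit 100, nat_lit 13]⟩,
 ⟨nat_lit 3872, nat_lit 4184, ⟨.ofNat (nat_lit 851681), .ofNat (nat_lit 911314), .ofNat (nat_lit 857097), .ofNat (nat_lit 916730), .ofNat (nat_lit 845251), .ofNat (nat_lit 903324), .ofNat (nat_lit 850699), .ofNat (nat_lit 908771)⟩, ⟨.ofNat (nat_lit 436254), .ofNat (nat_lit 515761), .ofNat (nat_lit 479587), .ofNat (nat_lit 559094), .ofNat (nat_lit 433760), .ofNat (nat_lit 511186), .ofNat (nat_lit 477347), .ofNat (nat_lit 554773)⟩⟩, [⟨nat_lit 13, nat_lit 81, nat_lit 34, nat_lit 100, nat_lit 22895697⟩, ⟨nat_lit 13, nat_lit 78, nat_lit 39, nat_lit 100, nat_lit 151641934⟩, ⟨nat_lit 16, nat_lit 83, nat_lit 98, nat_lit 100, nat_lit 219119291⟩, ⟨nat_lit 19, nat_lit 100, nat_lit 80, nat_lit 100, nat_lit 46268037⟩]⟩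
noncomputable def p094_l2 : Lf2 := ⟨nat_lit 0, nat_lit 2, [nat_lit 10, nat_lit 5, nat_lit 5, nat_lit 20], false, nat_lit 240, nat_lit 288, nat_lit 112, nat_lit 336, ⟨nat_lit 697, nat_lit 303, nat_lit 0, nat_lit 9, nat_lit 352, nat_lit 303, nat_lit 198, nat_lit 0, nat_lit 0, nat_lit 0, nat_lit 0, nat_lit 0, nat_lit 31897300, nat_lit 25238891, nat_lit 9863809, nat_lit 5405820, true, true⟩,
 nat_lit 0, nat_lit 0, nat_lit 7492, nat_lit 0, nat_lit 3674, nat_lit 4767, nat_lit 435, nat_lit 0, nat_lit 0, nat_lit 603, nat_lit 0, nat_lit 0, nat_lit 0, nat_lit 0, nat_lit 0, nat_lit 121200, nat_lit 0, nat_lit 0, [(nat_lit 18, [(nat_lit 1, nat_lit 303)])],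
 ⟨p094_k4, nat_lit 0, nat_lit 0, nat_lit 63, nat_lit 0, nat_lit 0, [nat_lit 1827172001, nat_lit 2797321200], [], [nat_lit 28383719908, nat_lit 28800173410, nat_lit 30117462063, nat_lit 30495315815, nat_lit 29759830233, nat_lit 30139222729, nat_lit 31371865918, nat_lit 31731906381], nat_lit 0, nat_lit 0, nat_lit 0, nat_lit 0, nat_lit 0, nat_lit 0, [], [nat_lit 112, nat_lit 40, nat_lit 40, nat_lit 80, nat_lit 113, nat_lit 203, nat_lit 0, nat_lit 7]⟩, ⟨p094_k1, nat_lit 0, nat_lit 0, nat_lit 454, nat_lit 0, nat_lit 1017343, [nat_lit 2287554000, nat_lit 3267536000, nat_lit 4356250000], [], [nat_lit 20569522277, nat_lit 20650086547, nat_lit 21546743480, nat_lit 21627331791, nat_lit 21600396073, nat_lit 21657546398, nat_lit 22352420245, nat_lit 22401062364], nat_lit 1271250, nat_lit 1271250, nat_lit 1271250, nat_lit 1271250, nat_lit 719601, nat_lit 2536800, [nat_lit 780000, nat_lit 1100000, nat_lit 1442500], [nat_lit 59,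 nat_lit 40, nat_lit 40, nat_lit 80, nat_lit 3, nat_lit 317, nat_lit 100, nat_lit 10]⟩,
 ⟨nat_lit 3872, nat_lit 4184, ⟨.ofNat (nat_lit 851681), .ofNat (nat_lit 911314), .ofNat (nat_lit 857097), .ofNat (nat_lit 916730), .ofNat (nat_lit 845251), .ofNat (nat_lit 903324), .ofNat (nat_lit 850699), .ofNat (nat_lit 908771)⟩, ⟨.ofNat (nat_lit 436254), .ofNat (nat_lit 515761), .ofNat (nat_lit 479587), .ofNat (nat_lit 559094), .ofNat (nat_lit 433760), .ofNat (nat_lit 511186), .ofNat (nat_lit 477347), .ofNat (nat_lit 554773)⟩⟩, [⟨nat_lit 13, nat_lit 78, nat_lit 39, nat_lit 100, nat_lit 49576075⟩, ⟨nat_lit 4, nat_lit 100, nat_lit 77, nat_lit 91, nat_lit 424149819⟩, ⟨nat_lit 19, nat_lit 100, nat_lit 80, nat_lit 100, nat_lit 168217293⟩]⟩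
noncomputable def p094_l3 : Lf2 := ⟨nat_lit 0, nat_lit 5, [nat_lit 4, nat_lit 5, nat_lit 5, nat_lit 20], false, nat_lit 240, nat_lit 300, nat_lit 112, nat_lit 336, ⟨nat_lit 830, nat_lit 170, nat_lit 0, nat_lit 9, nat_lit 354, nat_lit 170, nat_lit 203, nat_lit 0, nat_lit 0, nat_lit 0, nat_lit 0, nat_lit 0, nat_lit 31622800, nat_lit 25221491, nat_lit 10155709, nat_lit 5435542, true, true⟩,
 nat_lit 0, nat_lit 0, nat_lit 8680, nat_lit 0, nat_lit 4090, nat_lit 5523, nat_lit 648, nat_lit 0, nat_lit 0, nat_lit 842, nat_lit 0, nat_lit 0, nat_lit 0, nat_lit 0, nat_lit 0, nat_lit 170000, nat_lit 0, nat_lit 0, [(nat_lit 18, [(nat_lit 2, nat_lit 170)])],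
 ⟨p094_k5, nat_lit 0, nat_lit 0, nat_lit 68, nat_lit 0, nat_lit 0, [nat_lit 1949584001, nat_lit 3007574667, nat_lit 5112156000], [], [nat_lit 28451054680, nat_lit 29265434440, nat_lit 30206329181, nat_lit 30984608784, nat_lit 30119289490, nat_lit 30886166642, nat_lit 31822153431, nat_lit 32562394814], nat_lit 0, nat_lit 0, nat_lit 0, nat_lit 0, nat_lit 0, nat_lit 0, [], [nat_lit 85, nat_lit 40, nat_lit 40, nat_lit 80, nat_lit 16, nat_lit 203, nat_lit 0, nat_lit 5]⟩, ⟨p094_k6, nat_lit 0, nat_lit 0, nat_lit 485, nat_lit 0, nat_lit 957187, [nat_lit 2724060000, nat_lit 3891040000, nat_lit 6613440000], [], [nat_lit 24388641789, nat_lit 24482058334, nat_lit 25611785424, nat_lit 25717698496, nat_lit 25782463958, nat_lit 25853286435, nat_lit 26825392485, nat_lit 26898626594], nat_lit 1271250, nat_lit 1271250, nat_lit 1271250, nat_lit 1271250, nat_lit 719601, nat_lit 2536800, [nat_lit 780000, nat_lit 1100000, nat_lit 1785000],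 [nat_lit 36, nat_lit 40, nat_lit 40, nat_lit 80, nat_lit 7, nat_lit 317, nat_lit 100, nat_lit 9]⟩,
 ⟨nat_lit 3872, nat_lit 4473, ⟨.ofNat (nat_lit 858139), .ofNat (nat_lit 919326), .ofNat (nat_lit 863526), .ofNat (nat_lit 924713), .ofNat (nat_lit 845220), .ofNat (nat_lit 903295), .ofNat (nat_lit 850663), .ofNat (nat_lit 908740)⟩, ⟨.ofNat (nat_lit 438578), .ofNat (nat_lit 540545), .ofNat (nat_lit 481711), .ofNat (nat_lit 583678), .ofNat (nat_lit 433760), .ofNat (nat_lit 530543), .ofNat (nat_lit 477347), .ofNat (nat_lit 574129)⟩⟩, [⟨nat_lit 13, nat_lit 78, nat_lit 39, nat_lit 100, nat_lit 54068680⟩, ⟨nat_lit 4, nat_lit 100, nat_lit 81, nat_lit 92, nat_lit 445720986⟩, ⟨nat_lit 7, nat_lit 89, nat_lit 100, nat_lit 95, nat_lit 217099289⟩]⟩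
noncomputable def p094_l4 : Lf2 := ⟨nat_lit 0, nat_lit 5, [nat_lit 4, nat_lit 5, nat_lit 5, nat_lit 20], false, nat_lit 240, nat_lit 300, nat_lit 112, nat_lit 332, ⟨nat_lit 1000, nat_lit 0, nat_lit 0, nat_lit 0, nat_lit 0, nat_lit 0, nat_lit 0, nat_lit 0, nat_lit 0, nat_lit 0, nat_lit 0, nat_lit 0, nat_lit 0, nat_lit 0, nat_lit 0, nat_lit 0, false, false⟩,
 nat_lit 0, nat_lit 0, nat_lit 9549, nat_lit 0, nat_lit 4301, nat_lit 6208, nat_lit 846, nat_lit 0, nat_lit 0, nat_lit 3385, nat_lit 0, nat_lit 0, nat_lit 0, nat_lit 0, nat_lit 0, nat_lit 0, nat_lit 0, nat_lit 0, [],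
 ⟨p094_k5, nat_lit 0, nat_lit 0, nat_lit 71, nat_lit 0, nat_lit 0, [nat_lit 2032000001, nat_lit 3282000000, nat_lit 6250000000], [], [nat_lit 28729279452, nat_lit 29558400516, nat_lit 30722396352, nat_lit 31477479226, nat_lit 30409986261, nat_lit 31140871659, nat_lit 32296632387, nat_lit 33022857295], nat_lit 0, nat_lit 0, nat_lit 0, nat_lit 0, nat_lit 0, nat_lit 0, [], [nat_lit 85, nat_lit 40, nat_lit 40, nat_lit 80, nat_lit 16, nat_lit 203, nat_lit 0, nat_lit 5]⟩, ⟨p094_k7, nat_lit 0, nat_lit 0, nat_lit 545, nat_lit 0, nat_lit 1132265, [nat_lit 3282000000, nat_lit 4688000000, nat_lit 7968000000], [], [nat_lit 28723384821, nat_lit 28838817638, nat_lit 30164353485, nat_lit 30264880720, nat_lit 30199284988, nat_lit 30267872445, nat_lit 31425003713, nat_lit 31550720404], nat_lit 1271250, nat_lit 1271250, nat_lit 1271250, nat_lit 1271250, nat_lit 719601, nat_lit 2504350, [nat_lit 780000, nat_lit 1100000, nat_lit 1785000],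 [nat_lit 36, nat_lit 40, nat_lit 40, nat_lit 80, nat_lit 7, nat_lit 317, nat_lit 100, nat_lit 9]⟩,
 zbF0, [⟨nat_lit 4, nat_lit 100, nat_lit 81, nat_lit 92, nat_lit 493702230⟩, ⟨nat_lit 19, nat_lit 99, nat_lit 82, nat_lit 100, nat_lit 119805459⟩, ⟨nat_lit 7, nat_lit 92, nat_lit 100, nat_lit 96, nat_lit 131663059⟩]⟩
noncomputable def p094_l5 : Lf2 := ⟨nat_lit 0, nat_lit 10, [nat_lit 0, nat_lit 5, nat_lit 5, nat_lit 20], false, nat_lit 240, nat_lit 300, nat_lit 112, nat_lit 336, ⟨nat_lit 1000, nat_lit 0, nat_lit 0, nat_lit 0, nat_lit 0, nat_lit 0, nat_lit 0, nat_lit 0, nat_lit 0, nat_lit 0, nat_lit 0, nat_lit 0, nat_lit 0, nat_lit 0, nat_lit 0, nat_lit 0, false, false⟩,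
 nat_lit 0, nat_lit 0, nat_lit 10336, nat_lit 0, nat_lit 4390, nat_lit 6577, nat_lit 834, nat_lit 0, nat_lit 0, nat_lit 1128, nat_lit 0, nat_lit 0, nat_lit 0, nat_lit 0, nat_lit 0, nat_lit 0, nat_lit 0, nat_lit 0, [],
 ⟨p094_k8, nat_lit 0, nat_lit 0, nat_lit 71, nat_lit 0, nat_lit 0, [nat_lit 2032000001, nat_lit 3282000000, nat_lit 6250000000], [], [nat_lit 28729654280, nat_lit 29564993240, nat_lit 30740829280, nat_lit 31483371340, nat_lit 30415621790, nat_lit 31151224010, nat_lit 32342008020, nat_lit 33132046095], nat_lit 0, nat_lit 0, nat_lit 0, nat_lit 0, nat_lit 0, nat_lit 0, [], [nat_lit 85, nat_lit 40, nat_lit 40, nat_lit 80, nat_lit 16, nat_lit 203, nat_lit 0, nat_lit 5]⟩, ⟨p094_k9, nat_lit 0, nat_lit 0, nat_lit 459, nat_lit 0, nat_lit 799949, [nat_lit 3282000000, nat_lit 4688000000, nat_lit 9842000000], [], [nat_lit 29886414915, nat_lit 30148677275, nat_lit 31599452020, nat_lit 31824273385, nat_lit 31372412260,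 nat_lit 31520401178, nat_lit 32724168271, nat_lit 32896162364], nat_lit 1271250, nat_lit 1271250, nat_lit 1271250, nat_lit 1271250, nat_lit 719601, nat_lit 2536800, [nat_lit 780000, nat_lit 1100000, nat_lit 2127500], [nat_lit 42, nat_lit 40, nat_lit 40, nat_lit 80, nat_lit 13, nat_lit 317, nat_lit 100, nat_lit 8]⟩,
 zbF0, [⟨nat_lit 13, nat_lit 78, nat_lit 39, nat_lit 100, nat_lit 20247303⟩, ⟨nat_lit 4, nat_lit 100, nat_lit 81, nat_lit 92, nat_lit 569886830⟩, ⟨nat_lit 19, nat_lit 100, nat_lit 91, nat_lit 96, nat_lit 250667627⟩]⟩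
noncomputable def p094_l6 : Lf2 := ⟨nat_lit 0, nat_lit 2, [nat_lit 10, nat_lit 5, nat_lit 5, nat_lit 20], false, nat_lit 240, nat_lit 276, nat_lit 112, nat_lit 336, ⟨nat_lit 112, nat_lit 888, nat_lit 0, nat_lit 9, nat_lit 348, nat_lit 888, nat_lit 193, nat_lit 0, nat_lit 0, nat_lit 0, nat_lit 0, nat_lit 0, nat_lit 32374581, nat_lit 25051725, nat_lit 9573694, nat_lit 5371162, true, true⟩,
 nat_lit 0, nat_lit 0, nat_lit 1238, nat_lit 0, nat_lit 2913, nat_lit 787, nat_lit 0, nat_lit 0, nat_lit 0, nat_lit 97, nat_lit 0, nat_lit 0, nat_lit 0, nat_lit 0, nat_lit 0, nat_lit 475800, nat_lit 0, nat_lit 0, [(nat_lit 21, [(nat_lit 1, nat_lit 687), (nat_lit 2, nat_lit 201)])],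
 ⟨p094_k10, nat_lit 0, nat_lit 0, nat_lit 64, nat_lit 0, nat_lit 0, [nat_lit 1423712001, nat_lit 1454593200], [], [nat_lit 28038670159, nat_lit 28424666158, nat_lit 29418869535, nat_lit 29775752579, nat_lit 29012158565, nat_lit 29374453141, nat_lit 30311582305, nat_lit 30687879333], nat_lit 0, nat_lit 0, nat_lit 0, nat_lit 0, nat_lit 0, nat_lit 0, [], [nat_lit 112, nat_lit 40, nat_lit 40, nat_lit 80, nat_lit 113, nat_lit 203, nat_lit 0, nat_lit 7]⟩, ⟨p094_k1, nat_lit 0, nat_lit 0, nat_lit 547, nat_lit 0, nat_lit 1249158, [nat_lit 367584000, nat_lit 525056000, nat_lit 700000000], [], [nat_lit 3348344359, nat_lit 3358769571, nat_lit 3462795855, nat_lit 3472081782, nat_lit 3448725557, nat_lit 3455917687, nat_lit 3538898535, nat_lit 3547798804], nat_lit 1271250, nat_lit 1271250, nat_lit 1271250, nat_lit 1271250, nat_lit 719601, nat_lit 2536800, [nat_lit 780000, nat_lit 1100000, nat_lit 1442500], [nat_lit 59, nat_lit 40,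 nat_lit 40, nat_lit 80, nat_lit 3, nat_lit 317, nat_lit 100, nat_lit 10]⟩,
 ⟨nat_lit 3535, nat_lit 3873, ⟨.ofNat (nat_lit 845257), .ofNat (nat_lit 896875), .ofNat (nat_lit 850704), .ofNat (nat_lit 902323), .ofNat (nat_lit 838854), .ofNat (nat_lit 889064), .ofNat (nat_lit 844341), .ofNat (nat_lit 894552)⟩, ⟨.ofNat (nat_lit 433760), .ofNat (nat_lit 491830), .ofNat (nat_lit 477347), .ofNat (nat_lit 535416), .ofNat (nat_lit 431044), .ofNat (nat_lit 487529), .ofNat (nat_lit 474949), .ofNat (nat_lit 531435)⟩⟩, [⟨nat_lit 13, nat_lit 79, nat_lit 36, nat_lit 100, nat_lit 188959210⟩, ⟨nat_lit 16, nat_lit 77, nat_lit 100, nat_lit 99, nat_lit 210997051⟩, ⟨nat_lit 19, nat_lit 100, nat_lit 80, nat_lit 100, nat_lit 25926496⟩]⟩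
noncomputable def p094_l7 : Lf2 := ⟨nat_lit 0, nat_lit 5, [nat_lit 4, nat_lit 5, nat_lit 5, nat_lit 20], false, nat_lit 240, nat_lit 276, nat_lit 112, nat_lit 336, ⟨nat_lit 575, nat_lit 425, nat_lit 0, nat_lit 9, nat_lit 349, nat_lit 425, nat_lit 194, nat_lit 0, nat_lit 0, nat_lit 0, nat_lit 0, nat_lit 0, nat_lit 32314447, nat_lit 25099675, nat_lit 9585878, nat_lit 5373471, true, true⟩,
 nat_lit 0, nat_lit 0, nat_lit 6205, nat_lit 0, nat_lit 3266, nat_lit 3948, nat_lit 301, nat_lit 0, nat_lit 0, nat_lit 586, nat_lit 0, nat_lit 0, nat_lit 0, nat_lit 0, nat_lit 0, nat_lit 425000, nat_lit 0, nat_lit 0, [(nat_lit 21, [(nat_lit 2, nat_lit 425)])],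
 ⟨p094_k11, nat_lit 0, nat_lit 0, nat_lit 65, nat_lit 0, nat_lit 0, [nat_lit 1728946667, nat_lit 2154220001, nat_lit 2545164999], [], [nat_lit 28427259894, nat_lit 28617994311, nat_lit 29807004963, nat_lit 29998548448, nat_lit 29369130154, nat_lit 29547795020, nat_lit 30740281135, nat_lit 30919632130], nat_lit 0, nat_lit 0, nat_lit 0, nat_lit 0, nat_lit 0, nat_lit 0, [], [nat_lit 78, nat_lit 40, nat_lit 40, nat_lit 80, nat_lit 22, nat_lit 203, nat_lit 0, nat_lit 6]⟩, ⟨p094_k6, nat_lit 0, nat_lit 0, nat_lit 508, nat_lit 0, nat_lit 1025183, [nat_lit 1887150000, nat_lit 2695600000, nat_lit 4581600000], [], [nat_lit 16965698600, nat_lit 17026105772, nat_lit 17674543937, nat_lit 17735852965, nat_lit 17751704981, nat_lit 17798827466, nat_lit 18303861640, nat_lit 18344725302], nat_lit 1271250, nat_lit 1271250, nat_lit 1271250, nat_lit 1271250, nat_lit 719601, nat_lit 2536800, [nat_lit 780000, nat_lit 1100000, nat_lit 1785000],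 [nat_lit 36, nat_lit 40, nat_lit 40, nat_lit 80, nat_lit 7, nat_lit 317, nat_lit 100, nat_lit 9]⟩,
 ⟨nat_lit 3708, nat_lit 3873, ⟨.ofNat (nat_lit 845257), .ofNat (nat_lit 896875), .ofNat (nat_lit 850705), .ofNat (nat_lit 902323), .ofNat (nat_lit 842055), .ofNat (nat_lit 892972), .ofNat (nat_lit 847522), .ofNat (nat_lit 898439)⟩, ⟨.ofNat (nat_lit 433760), .ofNat (nat_lit 491830), .ofNat (nat_lit 477347), .ofNat (nat_lit 535416), .ofNat (nat_lit 432434), .ofNat (nat_lit 489716), .ofNat (nat_lit 476171), .ofNat (nat_lit 533452)⟩⟩, [⟨nat_lit 13, nat_lit 77, nat_lit 39, nat_lit 100, nat_lit 75304830⟩, ⟨nat_lit 16, nat_lit 77, nat_lit 100, nat_lit 99, nat_lit 351750352⟩, ⟨nat_lit 19, nat_lit 100, nat_lit 80, nat_lit 100, nat_lit 138139923⟩]⟩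
noncomputable def p094_l8 : Lf2 := ⟨nat_lit 0, nat_lit 5, [nat_lit 4, nat_lit 5, nat_lit 5, nat_lit 20], false, nat_lit 240, nat_lit 272, nat_lit 112, nat_lit 336, ⟨nat_lit 189, nat_lit 811, nat_lit 0, nat_lit 9, nat_lit 346, nat_lit 811, nat_lit 192, nat_lit 0, nat_lit 0, nat_lit 0, nat_lit 0, nat_lit 0, nat_lit 32568680, nat_lit 24935709, nat_lit 9495611, nat_lit 5360175, true, true⟩,
 nat_lit 0, nat_lit 0, nat_lit 2051, nat_lit 0, nat_lit 2988, nat_lit 1305, nat_lit 251, nat_lit 0, nat_lit 0, nat_lit 194, nat_lit 0, nat_lit 0, nat_lit 0, nat_lit 0, nat_lit 0, nat_lit 324400, nat_lit 0, nat_lit 0, [(nat_lit 21, [(nat_lit 1, nat_lit 811)])],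
 ⟨p094_k12, nat_lit 0, nat_lit 0, nat_lit 65, nat_lit 0, nat_lit 0, [nat_lit 1483115201, nat_lit 1754400401, nat_lit 2110083399], [], [nat_lit 28315393835, nat_lit 28501075741, nat_lit 29473532086, nat_lit 29662046887, nat_lit 29134560334, nat_lit 29310138194, nat_lit 30295710202, nat_lit 30488233784], nat_lit 0, nat_lit 0, nat_lit 0, nat_lit 0, nat_lit 0, nat_lit 0, [], [nat_lit 78, nat_lit 40, nat_lit 40, nat_lit 80, nat_lit 22, nat_lit 203, nat_lit 0, nat_lit 6]⟩, ⟨p094_k6, nat_lit 0, nat_lit 0, nat_lit 532, nat_lit 0, nat_lit 1094830, [nat_lit 620298000, nat_lit 886032000, nat_lit 1505952000], [], [nat_lit 5535943684, nat_lit 5556208930, nat_lit 5744552494, nat_lit 5765043371, nat_lit 5802696454, nat_lit 5818173787, nat_lit 5961790747, nat_lit 5980452180], nat_lit 1271250, nat_lit 1271250, nat_lit 1271250, nat_lit 1271250, nat_lit 719601, nat_lit 2536800, [nat_lit 780000, nat_lit 1100000, nat_lit 1785000], [nat_lit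 36, nat_lit 40, nat_lit 40, nat_lit 80, nat_lit 7, nat_lit 317, nat_lit 100, nat_lit 9]⟩,
 ⟨nat_lit 3535, nat_lit 3709, ⟨.ofNat (nat_lit 842055), .ofNat (nat_lit 886608), .ofNat (nat_lit 847522), .ofNat (nat_lit 892075), .ofNat (nat_lit 838855), .ofNat (nat_lit 882788), .ofNat (nat_lit 844343), .ofNat (nat_lit 888276)⟩, ⟨.ofNat (nat_lit 432434), .ofNat (nat_lit 483351), .ofNat (nat_lit 476171), .ofNat (nat_lit 527088), .ofNat (nat_lit 431044), .ofNat (nat_lit 481253), .ofNat (nat_lit 474949), .ofNat (nat_lit 525159)⟩⟩, [⟨nat_lit 13, nat_lit 74, nat_lit 43, nat_lit 100, nat_lit 174964612⟩, ⟨nat_lit 13, nat_lit 76, nat_lit 40, nat_lit 100, nat_lit 14429790⟩, ⟨nat_lit 16, nat_lit 73, nat_lit 100, nat_lit 98, nat_lit 256608826⟩, ⟨nat_lit 19, nat_lit 100, nat_lit 80, nat_lit 100, nat_lit 45715037⟩]⟩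
noncomputable def p094_l9 : Lf2 := ⟨nat_lit 0, nat_lit 5, [nat_lit 4, nat_lit 5, nat_lit 5, nat_lit 20], false, nat_lit 240, nat_lit 264, nat_lit 112, nat_lit 336, ⟨nat_lit 151, nat_lit 849, nat_lit 0, nat_lit 9, nat_lit 343, nat_lit 849, nat_lit 188, nat_lit 0, nat_lit 0, nat_lit 0, nat_lit 0, nat_lit 0, nat_lit 32873635, nat_lit 24806668, nat_lit 9319697, nat_lit 5337766, true, true⟩,
 nat_lit 0, nat_lit 0, nat_lit 1674, nat_lit 0, nat_lit 2965, nat_lit 1065, nat_lit 193, nat_lit 0, nat_lit 0, nat_lit 154, nat_lit 0, nat_lit 0, nat_lit 0, nat_lit 0, nat_lit 0, nat_lit 339600, nat_lit 0, nat_lit 0, [(nat_lit 21, [(nat_lit 1, nat_lit 849)])],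
 ⟨p094_k13, nat_lit 0, nat_lit 0, nat_lit 64, nat_lit 0, nat_lit 0, [nat_lit 1457396800, nat_lit 1682823601, nat_lit 1991120599], [], [nat_lit 28514196779, nat_lit 28699460672, nat_lit 29488512177, nat_lit 29663404332, nat_lit 29120577970, nat_lit 29298302575, nat_lit 30061628716, nat_lit 30258410559], nat_lit 0, nat_lit 0, nat_lit 0, nat_lit 0, nat_lit 0, nat_lit 0, [], [nat_lit 78, nat_lit 40, nat_lit 40, nat_lit 80, nat_lit 22, nat_lit 203, nat_lit 0, nat_lit 6]⟩, ⟨p094_k6, nat_lit 0, nat_lit 0, nat_lit 639, nat_lit 0, nat_lit 1342725, [nat_lit 495582000, nat_lit 707888000, nat_lit 1203168000], [], [nat_lit 4491428611, nat_lit 4504101010, nat_lit 4604197071, nat_lit 4617587217, nat_lit 4628723583, nat_lit 4638407113, nat_lit 4719986208, nat_lit 4728602553], nat_lit 1271250, nat_lit 1271250, nat_lit 1271250, nat_lit 1271250, nat_lit 719601, nat_lit 2536800, [nat_lit 780000, nat_lit 1100000, nat_lit 1785000], [nat_lit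 36, nat_lit 40, nat_lit 40, nat_lit 80, nat_lit 7, nat_lit 317, nat_lit 100, nat_lit 9]⟩,
 ⟨nat_lit 3354, nat_lit 3536, ⟨.ofNat (nat_lit 838855), .ofNat (nat_lit 876512), .ofNat (nat_lit 844343), .ofNat (nat_lit 882000), .ofNat (nat_lit 835649), .ofNat (nat_lit 872768), .ofNat (nat_lit 841161), .ofNat (nat_lit 878280)⟩, ⟨.ofNat (nat_lit 431044), .ofNat (nat_lit 468701), .ofNat (nat_lit 474949), .ofNat (nat_lit 512606), .ofNat (nat_lit 429578), .ofNat (nat_lit 466697), .ofNat (nat_lit 473673), .ofNat (nat_lit 510793)⟩⟩, [⟨nat_lit 13, nat_lit 73, nat_lit 44, nat_lit 100, nat_lit 189878107⟩, ⟨nat_lit 16, nat_lit 69, nat_lit 100, nat_lit 96, nat_lit 252938739⟩, ⟨nat_lit 19, nat_lit 100, nat_lit 80, nat_lit 100, nat_lit 35132170⟩]⟩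
noncomputable def p094_l10 : Lf2 := ⟨nat_lit 0, nat_lit 5, [nat_lit 4, nat_lit 5, nat_lit 5, nat_lit 20], true, nat_lit 240, nat_lit 256, nat_lit 112, nat_lit 336, ⟨nat_lit 0, nat_lit 1000, nat_lit 0, nat_lit 9, nat_lit 342, nat_lit 1000, nat_lit 185, nat_lit 0, nat_lit 0, nat_lit 0, nat_lit 0, nat_lit 0, nat_lit 33094928, nat_lit 24777853, nat_lit 9127219, nat_lit 5315233, true, true⟩,
 nat_lit 0, nat_lit 0, nat_lit 0, nat_lit 0, nat_lit 3083, nat_lit 0, nat_lit 0, nat_lit 0, nat_lit 0, nat_lit 0, nat_lit 0, nat_lit 0, nat_lit 0, nat_lit 0, nat_lit 0, nat_lit 250000, nat_lit 0, nat_lit 0, [(nat_lit 21, [(nat_lit 0, nat_lit 1000)])],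
 ⟨p094_k14, nat_lit 0, nat_lit 0, nat_lit 63, nat_lit 0, nat_lit 0, [nat_lit 1558400000, nat_lit 1595600000], [], [nat_lit 28743419042, nat_lit 28939818996, nat_lit 29775620299, nat_lit 29967885132, nat_lit 29162727675, nat_lit 29353657395, nat_lit 30182020793, nat_lit 30384402759], nat_lit 0, nat_lit 0, nat_lit 0, nat_lit 0, nat_lit 0, nat_lit 0, [], [nat_lit 112, nat_lit 40, nat_lit 40, nat_lit 80, nat_lit 113, nat_lit 203, nat_lit 0, nat_lit 7]⟩, C1.Rw.none,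
 ⟨nat_lit 3162, nat_lit 3355, ⟨.ofNat (nat_lit 835649), .ofNat (nat_lit 872768), .ofNat (nat_lit 841161), .ofNat (nat_lit 878280), .ofNat (nat_lit 832432), .ofNat (nat_lit 869004), .ofNat (nat_lit 837970), .ofNat (nat_lit 874542)⟩, ⟨.ofNat (nat_lit 429578), .ofNat (nat_lit 454324), .ofNat (nat_lit 473673), .ofNat (nat_lit 498420), .ofNat (nat_lit 428022), .ofNat (nat_lit 452404), .ofNat (nat_lit 472332), .ofNat (nat_lit 496714)⟩⟩, [⟨nat_lit 13, nat_lit 70, nat_lit 48, nat_lit 100, nat_lit 283592706⟩, ⟨nat_lit 16, nat_lit 66, nat_lit 100, nat_lit 95, nat_lit 233459685⟩]⟩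
noncomputable def p094_l11 : Lf2 := ⟨nat_lit 0, nat_lit 2, [nat_lit 10, nat_lit 5, nat_lit 5, nat_lit 20], false, nat_lit 240, nat_lit 276, nat_lit 112, nat_lit 332, ⟨nat_lit 221, nat_lit 779, nat_lit 0, nat_lit 9, nat_lit 349, nat_lit 779, nat_lit 192, nat_lit 0, nat_lit 0, nat_lit 0, nat_lit 0, nat_lit 0, nat_lit 32352956, nat_lit 25134732, nat_lit 9512312, nat_lit 5366184, true, true⟩,
 nat_lit 0, nat_lit 0, nat_lit 2166, nat_lit 0, nat_lit 2957, nat_lit 1408, nat_lit 0, nat_lit 0, nat_lit 0, nat_lit 509, nat_lit 0, nat_lit 0, nat_lit 0, nat_lit 0, nat_lit 0, nat_lit 556400, nat_lit 0, nat_lit 0, [(nat_lit 21, [(nat_lit 1, nat_lit 371), (nat_lit 2, nat_lit 408)])],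
 ⟨p094_k10, nat_lit 0, nat_lit 0, nat_lit 65, nat_lit 0, nat_lit 0, [nat_lit 1489976000, nat_lit 1500515600], [], [nat_lit 28109407062, nat_lit 28884921084, nat_lit 29496925926, nat_lit 30240576337, nat_lit 29084676201, nat_lit 29820877873, nat_lit 30421453356, nat_lit 31119826793], nat_lit 0, nat_lit 0, nat_lit 0, nat_lit 0, nat_lit 0, nat_lit 0, [], [nat_lit 112, nat_lit 40, nat_lit 40, nat_lit 80, nat_lit 113, nat_lit 203, nat_lit 0, nat_lit 7]⟩, ⟨p094_k15, nat_lit 0, nat_lit 0, nat_lit 606, nat_lit 0, nat_lit 1383671, [nat_lit 725322000, nat_lit 1036048000, nat_lit 1381250000], [], [nat_lit 6554075105, nat_lit 6576384928, nat_lit 6782150311, nat_lit 6802089857, nat_lit 6794369351, nat_lit 6807238141, nat_lit 6947355232, nat_lit 6958523352], nat_lit 1271250, nat_lit 1271250, nat_lit 1271250, nat_lit 1271250, nat_lit 719601, nat_lit 2504350, [nat_lit 780000, nat_lit 1100000, nat_lit 1442500], [nat_lit 59, nat_lit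 40, nat_lit 40, nat_lit 80, nat_lit 3, nat_lit 317, nat_lit 100, nat_lit 10]⟩,
 ⟨nat_lit 3162, nat_lit 3873, ⟨.ofNat (nat_lit 850703), .ofNat (nat_lit 902323), .ofNat (nat_lit 856147), .ofNat (nat_lit 907772), .ofNat (nat_lit 837968), .ofNat (nat_lit 886733), .ofNat (nat_lit 843501), .ofNat (nat_lit 892272)⟩, ⟨.ofNat (nat_lit 433760), .ofNat (nat_lit 491830), .ofNat (nat_lit 477347), .ofNat (nat_lit 535416), .ofNat (nat_lit 428022), .ofNat (nat_lit 482881), .ofNat (nat_lit 472332), .ofNat (nat_lit 527190)⟩⟩, [⟨nat_lit 13, nat_lit 74, nat_lit 43, nat_lit 100, nat_lit 172051896⟩, ⟨nat_lit 16, nat_lit 77, nat_lit 100, nat_lit 99, nat_lit 252343227⟩, ⟨nat_lit 19, nat_lit 99, nat_lit 82, nat_lit 100, nat_lit 51700668⟩]⟩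
noncomputable def p094_l12 : Lf2 := ⟨nat_lit 0, nat_lit 5, [nat_lit 4, nat_lit 5, nat_lit 5, nat_lit 20], false, nat_lit 240, nat_lit 276, nat_lit 112, nat_lit 332, ⟨nat_lit 791, nat_lit 209, nat_lit 0, nat_lit 9, nat_lit 350, nat_lit 209, nat_lit 193, nat_lit 0, nat_lit 0, nat_lit 0, nat_lit 0, nat_lit 0, nat_lit 32231286, nat_lit 25228958, nat_lit 9539756, nat_lit 5371068, true, true⟩,
 nat_lit 0, nat_lit 0, nat_lit 7577, nat_lit 0, nat_lit 3446, nat_lit 4926, nat_lit 570, nat_lit 0, nat_lit 0, nat_lit 2328, nat_lit 0, nat_lit 0, nat_lit 0, nat_lit 0, nat_lit 0, nat_lit 209000, nat_lit 0, nat_lit 0, [(nat_lit 21, [(nat_lit 2, nat_lit 209)])],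
 ⟨p094_k11, nat_lit 0, nat_lit 0, nat_lit 67, nat_lit 0, nat_lit 0, [nat_lit 1882969067, nat_lit 2727397600, nat_lit 3619174000], [], [nat_lit 28624265735, nat_lit 29012277389, nat_lit 30028554995, nat_lit 30407013965, nat_lit 29571925065, nat_lit 29935508747, nat_lit 30955638427, nat_lit 31328754227], nat_lit 0, nat_lit 0, nat_lit 0, nat_lit 0, nat_lit 0, nat_lit 0, [], [nat_lit 78, nat_lit 40, nat_lit 40, nat_lit 80, nat_lit 22, nat_lit 203, nat_lit 0, nat_lit 6]⟩, ⟨p094_k7, nat_lit 0, nat_lit 0, nat_lit 532, nat_lit 0, nat_lit 1096197, [nat_lit 2596062000, nat_lit 3708208000, nat_lit 6302688000], [], [nat_lit 22845983804, nat_lit 22943486348, nat_lit 23818423254, nat_lit 23905745797, nat_lit 24107072262, nat_lit 24165079289, nat_lit 24762265142, nat_lit 24813125987], nat_lit 1271250, nat_lit 1271250, nat_lit 1271250, nat_lit 1271250, nat_lit 719601, nat_lit 2504350, [nat_lit 780000, nat_lit 1100000, nat_lit 1785000],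 [nat_lit 36, nat_lit 40, nat_lit 40, nat_lit 80, nat_lit 7, nat_lit 317, nat_lit 100, nat_lit 9]⟩,
 ⟨nat_lit 3535, nat_lit 3873, ⟨.ofNat (nat_lit 850704), .ofNat (nat_lit 902323), .ofNat (nat_lit 856151), .ofNat (nat_lit 907772), .ofNat (nat_lit 844341), .ofNat (nat_lit 894552), .ofNat (nat_lit 849828), .ofNat (nat_lit 900040)⟩, ⟨.ofNat (nat_lit 433760), .ofNat (nat_lit 491830), .ofNat (nat_lit 477347), .ofNat (nat_lit 535416), .ofNat (nat_lit 431044), .ofNat (nat_lit 487529), .ofNat (nat_lit 474949), .ofNat (nat_lit 531435)⟩⟩, [⟨nat_lit 16, nat_lit 71, nat_lit 100, nat_lit 89, nat_lit 164790298⟩, ⟨nat_lit 16, nat_lit 77, nat_lit 100, nat_lit 99, nat_lit 278334040⟩, ⟨nat_lit 19, nat_lit 99, nat_lit 82, nat_lit 100, nat_lit 193060938⟩]⟩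
noncomputable def p094_l13 : Lf2 := ⟨nat_lit 0, nat_lit 5, [nat_lit 4, nat_lit 5, nat_lit 5, nat_lit 20], false, nat_lit 240, nat_lit 264, nat_lit 112, nat_lit 332, ⟨nat_lit 188, nat_lit 812, nat_lit 0, nat_lit 9, nat_lit 346, nat_lit 812, nat_lit 188, nat_lit 0, nat_lit 0, nat_lit 0, nat_lit 0, nat_lit 0, nat_lit 32703890, nat_lit 25041067, nat_lit 9255043, nat_lit 5335682, true, true⟩,
 nat_lit 0, nat_lit 0, nat_lit 1964, nat_lit 0, nat_lit 2985, nat_lit 1276, nat_lit 212, nat_lit 0, nat_lit 0, nat_lit 199, nat_lit 0, nat_lit 0, nat_lit 0, nat_lit 0, nat_lit 0, nat_lit 324800, nat_lit 0, nat_lit 0, [(nat_lit 21, [(nat_lit 1, nat_lit 812)])],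
 ⟨p094_k13, nat_lit 0, nat_lit 0, nat_lit 68, nat_lit 0, nat_lit 0, [nat_lit 1482438401, nat_lit 1752516801, nat_lit 2106952799], [], [nat_lit 28562941595, nat_lit 28934196360, nat_lit 29702209694, nat_lit 30049151922, nat_lit 29169684220, nat_lit 29525793024, nat_lit 30271103841, nat_lit 30662133231], nat_lit 0, nat_lit 0, nat_lit 0, nat_lit 0, nat_lit 0, nat_lit 0, [], [nat_lit 78, nat_lit 40, nat_lit 40, nat_lit 80, nat_lit 22, nat_lit 203, nat_lit 0, nat_lit 6]⟩, ⟨p094_k7, nat_lit 0, nat_lit 0, nat_lit 599, nat_lit 0, nat_lit 1234260, [nat_lit 617016000, nat_lit 881344000, nat_lit 1497984000], [], [nat_lit 5592208197, nat_lit 5608030667, nat_lit 5762803337, nat_lit 5779969548, nat_lit 5746918791, nat_lit 5757453820, nat_lit 5874368103, nat_lit 5885276684], nat_lit 1271250, nat_lit 1271250, nat_lit 1271250, nat_lit 1271250, nat_lit 719601, nat_lit 2504350, [nat_lit 780000, nat_lit 1100000, nat_lit 1785000], [nat_lit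 36, nat_lit 40, nat_lit 40, nat_lit 80, nat_lit 7, nat_lit 317, nat_lit 100, nat_lit 9]⟩,
 ⟨nat_lit 3162, nat_lit 3536, ⟨.ofNat (nat_lit 844343), .ofNat (nat_lit 888276), .ofNat (nat_lit 849831), .ofNat (nat_lit 893764), .ofNat (nat_lit 837970), .ofNat (nat_lit 880638), .ofNat (nat_lit 843509), .ofNat (nat_lit 886176)⟩, ⟨.ofNat (nat_lit 431044), .ofNat (nat_lit 468701), .ofNat (nat_lit 474949), .ofNat (nat_lit 512606), .ofNat (nat_lit 428022), .ofNat (nat_lit 464594), .ofNat (nat_lit 472332), .ofNat (nat_lit 508904)⟩⟩, [⟨nat_lit 13, nat_lit 74, nat_lit 42, nat_lit 100, nat_lit 175312491⟩, ⟨nat_lit 16, nat_lit 69, nat_lit 100, nat_lit 96, nat_lit 263789252⟩, ⟨nat_lit 19, nat_lit 99, nat_lit 82, nat_lit 100, nat_lit 43377580⟩]⟩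
noncomputable def p094_l14 : Lf2 := ⟨nat_lit 0, nat_lit 10, [nat_lit 0, nat_lit 5, nat_lit 5, nat_lit 20], false, nat_lit 240, nat_lit 276, nat_lit 112, nat_lit 336, ⟨nat_lit 1000, nat_lit 0, nat_lit 0, nat_lit 0, nat_lit 0, nat_lit 0, nat_lit 0, nat_lit 0, nat_lit 0, nat_lit 0, nat_lit 0, nat_lit 0, nat_lit 0, nat_lit 0, nat_lit 0, nat_lit 0, false, false⟩,
 nat_lit 0, nat_lit 0, nat_lit 10359, nat_lit 0, nat_lit 3649, nat_lit 6592, nat_lit 926, nat_lit 0, nat_lit 0, nat_lit 1127, nat_lit 0, nat_lit 0, nat_lit 0, nat_lit 0, nat_lit 0, nat_lit 0, nat_lit 0, nat_lit 0, [],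
 ⟨p094_k16, nat_lit 0, nat_lit 0, nat_lit 68, nat_lit 0, nat_lit 0, [nat_lit 2032000001, nat_lit 3282000000, nat_lit 6250000000], [], [nat_lit 28811718881, nat_lit 29185065449, nat_lit 30205478446, nat_lit 30602309600, nat_lit 29709694527, nat_lit 30087097642, nat_lit 31170289147, nat_lit 31572839787], nat_lit 0, nat_lit 0, nat_lit 0, nat_lit 0, nat_lit 0, nat_lit 0, [], [nat_lit 85, nat_lit 40, nat_lit 40, nat_lit 80, nat_lit 16, nat_lit 203, nat_lit 0, nat_lit 5]⟩, ⟨p094_k9, nat_lit 0, nat_lit 0, nat_lit 502, nat_lit 0, nat_lit 935601, [nat_lit 3282000000, nat_lit 4688000000, nat_lit 9842000000], [], [nat_lit 29934119244, nat_lit 30136171219, nat_lit 31213185431, nat_lit 31445556114, nat_lit 31321482335, nat_lit 31469386185, nat_lit 32391270328, nat_lit 32571101983], nat_lit 1271250, nat_lit 1271250, nat_lit 1271250, nat_lit 1271250, nat_lit 719601, nat_lit 2536800, [nat_lit 780000, nat_lit 1100000, nat_lit 2127500],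 [nat_lit 42, nat_lit 40, nat_lit 40, nat_lit 80, nat_lit 13, nat_lit 317, nat_lit 100, nat_lit 8]⟩,
 zbF0, [⟨nat_lit 4, nat_lit 100, nat_lit 71, nat_lit 89, nat_lit 706750099⟩, ⟨nat_lit 19, nat_lit 100, nat_lit 91, nat_lit 96, nat_lit 251908997⟩]⟩
noncomputable def p094_l15 : Lf2 := ⟨nat_lit 0, nat_lit 10, [nat_lit 0, nat_lit 5, nat_lit 5, nat_lit 20], false, nat_lit 240, nat_lit 264, nat_lit 112, nat_lit 336, ⟨nat_lit 649, nat_lit 351, nat_lit 0, nat_lit 9, nat_lit 343, nat_lit 351, nat_lit 188, nat_lit 0, nat_lit 0, nat_lit 0, nat_lit 0, nat_lit 0, nat_lit 32873635, nat_lit 24806668, nat_lit 9319697, nat_lit 5337766, true, true⟩,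
 nat_lit 0, nat_lit 0, nat_lit 7057, nat_lit 0, nat_lit 3378, nat_lit 4490, nat_lit 489, nat_lit 0, nat_lit 0, nat_lit 759, nat_lit 0, nat_lit 0, nat_lit 0, nat_lit 0, nat_lit 0, nat_lit 140400, nat_lit 0, nat_lit 0, [(nat_lit 21, [(nat_lit 1, nat_lit 351)])],
 ⟨p094_k17, nat_lit 0, nat_lit 0, nat_lit 64, nat_lit 0, nat_lit 0, [nat_lit 1794443200, nat_lit 2620856400, nat_lit 3563396000], [], [nat_lit 28880862071, nat_lit 29073632032, nat_lit 29900609864, nat_lit 30091343542, nat_lit 29494706874, nat_lit 29679241787, nat_lit 30535056795, nat_lit 30741094765], nat_lit 0, nat_lit 0, nat_lit 0, nat_lit 0, nat_lit 0, nat_lit 0, [], [nat_lit 78, nat_lit 40, nat_lit 40, nat_lit 80, nat_lit 22, nat_lit 203, nat_lit 0, nat_lit 6]⟩, ⟨p094_k9, nat_lit 0, nat_lit 0, nat_lit 527, nat_lit 0, nat_lit 969938, [nat_lit 2130018000, nat_lit 3042512000, nat_lit 6387458000], [], [nat_lit 19039648795, nat_lit 19109781611, nat_lit 19612267544,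 nat_lit 19676068097, nat_lit 19886839558, nat_lit 19939972580, nat_lit 20355402277, nat_lit 20403204455], nat_lit 1271250, nat_lit 1271250, nat_lit 1271250, nat_lit 1271250, nat_lit 719601, nat_lit 2536800, [nat_lit 780000, nat_lit 1100000, nat_lit 2127500], [nat_lit 42, nat_lit 40, nat_lit 40, nat_lit 80, nat_lit 13, nat_lit 317, nat_lit 100, nat_lit 8]⟩,
 ⟨nat_lit 3354, nat_lit 3536, ⟨.ofNat (nat_lit 838855), .ofNat (nat_lit 876512), .ofNat (nat_lit 844343), .ofNat (nat_lit 882000), .ofNat (nat_lit 835649), .ofNat (nat_lit 872768), .ofNat (nat_lit 841161), .ofNat (nat_lit 878280)⟩, ⟨.ofNat (nat_lit 431044), .ofNat (nat_lit 468701), .ofNat (nat_lit 474949), .ofNat (nat_lit 512606), .ofNat (nat_lit 429578), .ofNat (nat_lit 466697), .ofNat (nat_lit 473673), .ofNat (nat_lit 510793)⟩⟩, [⟨nat_lit 13, nat_lit 71, nat_lit 47, nat_lit 100, nat_lit 63560933⟩, ⟨nat_lit 4, nat_lit 100, nat_lit 66, nat_lit 88, nat_lit 502704205⟩,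 ⟨nat_lit 7, nat_lit 89, nat_lit 100, nat_lit 95, nat_lit 165046050⟩]⟩
noncomputable def p094_l16 : Lf2 := ⟨nat_lit 0, nat_lit 10, [nat_lit 0, nat_lit 5, nat_lit 5, nat_lit 20], false, nat_lit 240, nat_lit 256, nat_lit 112, nat_lit 336, ⟨nat_lit 252, nat_lit 748, nat_lit 0, nat_lit 9, nat_lit 342, nat_lit 748, nat_lit 185, nat_lit 0, nat_lit 0, nat_lit 0, nat_lit 0, nat_lit 0, nat_lit 33094928, nat_lit 24777853, nat_lit 9127219, nat_lit 5315233, true, true⟩,
 nat_lit 0, nat_lit 0, nat_lit 2739, nat_lit 0, nat_lit 3048, nat_lit 1742, nat_lit 227, nat_lit 0, nat_lit 0, nat_lit 294, nat_lit 0, nat_lit 0, nat_lit 0, nat_lit 0, nat_lit 0, nat_lit 299200, nat_lit 0, nat_lit 0, [(nat_lit 21, [(nat_lit 1, nat_lit 748)])],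
 ⟨p094_k18, nat_lit 0, nat_lit 0, nat_lit 65, nat_lit 0, nat_lit 0, [nat_lit 1525753600, nat_lit 1873067201, nat_lit 2307311199], [], [nat_lit 28760714861, nat_lit 28947487237, nat_lit 29733590127, nat_lit 29920484192, nat_lit 29160849547, nat_lit 29342502514, nat_lit 30140353417, nat_lit 30342998974], nat_lit 0, nat_lit 0, nat_lit 0, nat_lit 0, nat_lit 0, nat_lit 0, [], [nat_lit 78, nat_lit 40, nat_lit 40, nat_lit 80, nat_lit 22, nat_lit 203, nat_lit 0, nat_lit 6]⟩, ⟨p094_k9, nat_lit 0, nat_lit 0, nat_lit 570, nat_lit 0, nat_lit 1042736, [nat_lit 827064000, nat_lit 1181376000, nat_lit 2480184000], [], [nat_lit 7402461155, nat_lit 7429691048, nat_lit 7624728482, nat_lit 7649501259, nat_lit 7728115005, nat_lit 7748748268, nat_lit 7910004888, nat_lit 7928569606], nat_lit 1271250, nat_lit 1271250, nat_lit 1271250, nat_lit 1271250, nat_lit 719601, nat_lit 2536800, [nat_lit 780000, nat_lit 1100000, nat_lit 2127500], [nat_lit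 42, nat_lit 40, nat_lit 40, nat_lit 80, nat_lit 13, nat_lit 317, nat_lit 100, nat_lit 8]⟩,
 ⟨nat_lit 3162, nat_lit 3355, ⟨.ofNat (nat_lit 835649), .ofNat (nat_lit 872768), .ofNat (nat_lit 841161), .ofNat (nat_lit 878280), .ofNat (nat_lit 832432), .ofNat (nat_lit 869004), .ofNat (nat_lit 837970), .ofNat (nat_lit 874542)⟩, ⟨.ofNat (nat_lit 429578), .ofNat (nat_lit 454324), .ofNat (nat_lit 473673), .ofNat (nat_lit 498420), .ofNat (nat_lit 428022), .ofNat (nat_lit 452404), .ofNat (nat_lit 472332), .ofNat (nat_lit 496714)⟩⟩, [⟨nat_lit 13, nat_lit 68, nat_lit 51, nat_lit 100, nat_lit 193339862⟩, ⟨nat_lit 16, nat_lit 66, nat_lit 100, nat_lit 95, nat_lit 329547174⟩, ⟨nat_lit 19, nat_lit 100, nat_lit 80, nat_lit 100, nat_lit 60854231⟩]⟩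
noncomputable def p094_l17 : Lf2 := ⟨nat_lit 0, nat_lit 10, [nat_lit 0, nat_lit 5, nat_lit 5, nat_lit 20], false, nat_lit 240, nat_lit 264, nat_lit 112, nat_lit 332, ⟨nat_lit 858, nat_lit 142, nat_lit 0, nat_lit 9, nat_lit 346, nat_lit 142, nat_lit 188, nat_lit 0, nat_lit 0, nat_lit 0, nat_lit 0, nat_lit 0, nat_lit 32703890, nat_lit 25041067, nat_lit 9255043, nat_lit 5335682, true, true⟩,
 nat_lit 0, nat_lit 0, nat_lit 8738, nat_lit 0, nat_lit 3525, nat_lit 5681, nat_lit 605, nat_lit 0, nat_lit 0, nat_lit 1011, nat_lit 0, nat_lit 0, nat_lit 0, nat_lit 0, nat_lit 0, nat_lit 56800, nat_lit 0, nat_lit 0, [(nat_lit 21, [(nat_lit 1, nat_lit 142)])],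
 ⟨p094_k17, nat_lit 0, nat_lit 0, nat_lit 68, nat_lit 0, nat_lit 0, [nat_lit 1935894401, nat_lit 3014528801, nat_lit 4233032000], [], [nat_lit 29103119201, nat_lit 29494002426, nat_lit 30311690954, nat_lit 30681089253, nat_lit 29719620544, nat_lit 30093538387, nat_lit 30902505850, nat_lit 31315399657], nat_lit 0, nat_lit 0, nat_lit 0, nat_lit 0, nat_lit 0, nat_lit 0, [], [nat_lit 78, nat_lit 40, nat_lit 40, nat_lit 80, nat_lit 22, nat_lit 203, nat_lit 0, nat_lit 6]⟩, ⟨p094_k19, nat_lit 0, nat_lit 0, nat_lit 571, nat_lit 0, nat_lit 1044788, [nat_lit 2815956000, nat_lit 4022304000, nat_lit 8444436000], [], [nat_lit 25223538812, nat_lit 25304103709, nat_lit 25990861465, nat_lit 26073804465, nat_lit 26212291832, nat_lit 26284007364, nat_lit 26924149908, nat_lit 26988307911], nat_lit 1271250, nat_lit 1271250, nat_lit 1271250, nat_lit 1271250, nat_lit 719601, nat_lit 2504350, [nat_lit 780000, nat_lit 1100000, nat_lit 2127500],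 [nat_lit 42, nat_lit 40, nat_lit 40, nat_lit 80, nat_lit 13, nat_lit 317, nat_lit 100, nat_lit 8]⟩,
 ⟨nat_lit 3162, nat_lit 3536, ⟨.ofNat (nat_lit 844343), .ofNat (nat_lit 888276), .ofNat (nat_lit 849831), .ofNat (nat_lit 893764), .ofNat (nat_lit 837970), .ofNat (nat_lit 880638), .ofNat (nat_lit 843509), .ofNat (nat_lit 886176)⟩, ⟨.ofNat (nat_lit 431044), .ofNat (nat_lit 468701), .ofNat (nat_lit 474949), .ofNat (nat_lit 512606), .ofNat (nat_lit 428022), .ofNat (nat_lit 464594), .ofNat (nat_lit 472332), .ofNat (nat_lit 508904)⟩⟩, [⟨nat_lit 4, nat_lit 100, nat_lit 64, nat_lit 88, nat_lit 711698592⟩, ⟨nat_lit 19, nat_lit 99, nat_lit 82, nat_lit 100, nat_lit 207987994⟩]⟩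
noncomputable def p094_l18 : Lf2 := ⟨nat_lit 0, nat_lit 10, [nat_lit 0, nat_lit 5, nat_lit 5, nat_lit 20], false, nat_lit 240, nat_lit 300, nat_lit 112, nat_lit 328, ⟨nat_lit 1000, nat_lit 0, nat_lit 0, nat_lit 0, nat_lit 0, nat_lit 0, nat_lit 0, nat_lit 0, nat_lit 0, nat_lit 0, nat_lit 0, nat_lit 0, nat_lit 0, nat_lit 0, nat_lit 0, nat_lit 0, false, false⟩,
 nat_lit 0, nat_lit 0, nat_lit 9305, nat_lit 0, nat_lit 4333, nat_lit 6179, nat_lit 844, nat_lit 0, nat_lit 0, nat_lit 2712, nat_lit 0, nat_lit 0, nat_lit 0, nat_lit 0, nat_lit 0, nat_lit 0, nat_lit 0, nat_lit 0, [],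
 ⟨p094_k8, nat_lit 0, nat_lit 0, nat_lit 71, nat_lit 0, nat_lit 0, [nat_lit 2032000001, nat_lit 3282000000, nat_lit 6250000000], [], [nat_lit 28720618716, nat_lit 29551975428, nat_lit 30720228416, nat_lit 31479124858, nat_lit 30403217013, nat_lit 31136578108, nat_lit 32297665571, nat_lit 33062006747], nat_lit 0, nat_lit 0, nat_lit 0, nat_lit 0, nat_lit 0, nat_lit 0, [], [nat_lit 85, nat_lit 40, nat_lit 40, nat_lit 80, nat_lit 16, nat_lit 203, nat_lit 0, nat_lit 5]⟩, ⟨p094_k20, nat_lit 0, nat_lit 0, nat_lit 579, nat_lit 0, nat_lit 1204845, [nat_lit 3282000000, nat_lit 4688000000, nat_lit 7968000000], [], [nat_lit 27864465107, nat_lit 28110699398, nat_lit 29356054624, nat_lit 29586177034, nat_lit 29628826414, nat_lit 29791436510, nat_lit 30727704541, nat_lit 30999504046], nat_lit 1271250, nat_lit 1271250, nat_lit 1271250, nat_lit 1271250, nat_lit 719601, nat_lit 2471900, [nat_lit 780000, nat_lit 1100000, nat_lit 1785000],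 [nat_lit 36, nat_lit 40, nat_lit 40, nat_lit 80, nat_lit 7, nat_lit 317, nat_lit 100, nat_lit 9]⟩,
 zbF0, [⟨nat_lit 4, nat_lit 100, nat_lit 81, nat_lit 92, nat_lit 498004779⟩, ⟨nat_lit 19, nat_lit 97, nat_lit 84, nat_lit 100, nat_lit 143117141⟩, ⟨nat_lit 7, nat_lit 97, nat_lit 100, nat_lit 98, nat_lit 110925613⟩]⟩
noncomputable def p094_l19 : Lf2 := ⟨nat_lit 0, nat_lit 5, [nat_lit 4, nat_lit 5, nat_lit 5, nat_lit 20], false, nat_lit 240, nat_lit 276, nat_lit 112, nat_lit 328, ⟨nat_lit 297, nat_lit 703, nat_lit 0, nat_lit 9, nat_lit 352, nat_lit 703, nat_lit 192, nat_lit 0, nat_lit 0, nat_lit 0, nat_lit 0, nat_lit 0, nat_lit 32126891, nat_lit 25414084, nat_lit 9459025, nat_lit 5365861, true, true⟩,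
 nat_lit 0, nat_lit 0, nat_lit 2801, nat_lit 0, nat_lit 3027, nat_lit 1859, nat_lit 0, nat_lit 0, nat_lit 0, nat_lit 540, nat_lit 0, nat_lit 0, nat_lit 0, nat_lit 0, nat_lit 0, nat_lit 656200, nat_lit 0, nat_lit 0, [(nat_lit 21, [(nat_lit 1, nat_lit 78), (nat_lit 2, nat_lit 625)])],
 ⟨p094_k11, nat_lit 0, nat_lit 0, nat_lit 72, nat_lit 0, nat_lit 0, [nat_lit 1533542934, nat_lit 1476579200, nat_lit 1310938200], [], [nat_lit 28192468300, nat_lit 28938031146, nat_lit 29727667049, nat_lit 30468779359, nat_lit 29126651961, nat_lit 29866134367, nat_lit 30643479505, nat_lit 31384634714], nat_lit 0, nat_lit 0, nat_lit 0, nat_lit 0, nat_lit 0, nat_lit 0, [], [nat_lit 78, nat_lit 40, nat_lit 40, nat_lit 80, nat_lit 22, nat_lit 203, nat_lit 0, nat_lit 6]⟩, ⟨p094_k21, nat_lit 0, nat_lit 0, nat_lit 611, nat_lit 0, nat_lit 1397494, [nat_lit 974754000, nat_lit 1392336000, nat_lit 1856250000], [], [nat_lit 8772863295, nat_lit 8800790913,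 nat_lit 9093373797, nat_lit 9117948031, nat_lit 9021552679, nat_lit 9037819225, nat_lit 9248149364, nat_lit 9263405322], nat_lit 1271250, nat_lit 1271250, nat_lit 1271250, nat_lit 1271250, nat_lit 719601, nat_lit 2471900, [nat_lit 780000, nat_lit 1100000, nat_lit 1442500], [nat_lit 59, nat_lit 40, nat_lit 40, nat_lit 80, nat_lit 3, nat_lit 317, nat_lit 100, nat_lit 10]⟩,
 ⟨nat_lit 3162, nat_lit 3873, ⟨.ofNat (nat_lit 856147), .ofNat (nat_lit 914224), .ofNat (nat_lit 861589), .ofNat (nat_lit 919672), .ofNat (nat_lit 843501), .ofNat (nat_lit 898367), .ofNat (nat_lit 849034), .ofNat (nat_lit 903906)⟩, ⟨.ofNat (nat_lit 433760), .ofNat (nat_lit 491830), .ofNat (nat_lit 477347), .ofNat (nat_lit 535416), .ofNat (nat_lit 428022), .ofNat (nat_lit 482881), .ofNat (nat_lit 472332), .ofNat (nat_lit 527190)⟩⟩, [⟨nat_lit 13, nat_lit 75, nat_lit 40, nat_lit 100, nat_lit 153959853⟩, ⟨nat_lit 13, nat_lit 67, nat_lit 50, nat_lit 100,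 nat_lit 7354611⟩, ⟨nat_lit 4, nat_lit 100, nat_lit 67, nat_lit 88, nat_lit 362870617⟩, ⟨nat_lit 19, nat_lit 97, nat_lit 84, nat_lit 100, nat_lit 69154322⟩]⟩
noncomputable def p094_l20 : Lf2 := ⟨nat_lit 0, nat_lit 5, [nat_lit 4, nat_lit 5, nat_lit 5, nat_lit 20], false, nat_lit 240, nat_lit 276, nat_lit 112, nat_lit 324, ⟨nat_lit 294, nat_lit 706, nat_lit 0, nat_lit 9, nat_lit 355, nat_lit 706, nat_lit 192, nat_lit 0, nat_lit 0, nat_lit 0, nat_lit 0, nat_lit 0, nat_lit 31983672, nat_lit 25591205, nat_lit 9425123, nat_lit 5365432, true, true⟩,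
 nat_lit 0, nat_lit 0, nat_lit 2714, nat_lit 0, nat_lit 3023, nat_lit 1840, nat_lit 0, nat_lit 0, nat_lit 0, nat_lit 459, nat_lit 0, nat_lit 0, nat_lit 0, nat_lit 0, nat_lit 0, nat_lit 679600, nat_lit 0, nat_lit 0, [(nat_lit 21, [(nat_lit 1, nat_lit 44), (nat_lit 2, nat_lit 662)])],
 ⟨p094_k11, nat_lit 0, nat_lit 0, nat_lit 72, nat_lit 0, nat_lit 0, [nat_lit 1530170667, nat_lit 1442438400, nat_lit 1234221200], [], [nat_lit 28116759601, nat_lit 28898625590, nat_lit 29723002074, nat_lit 30463834545, nat_lit 29100990771, nat_lit 29861782826, nat_lit 30638715583, nat_lit 31379602543], nat_lit 0, nat_lit 0, nat_lit 0, nat_lit 0, nat_lit 0, nat_lit 0, [], [nat_lit 78, nat_lit 40, nat_lit 40, nat_lit 80, nat_lit 22, nat_lit 203, nat_lit 0, nat_lit 6]⟩, ⟨p094_k22, nat_lit 0, nat_lit 0, nat_lit 607, nat_lit 0, nat_lit 1389463, [nat_lit 964908000, nat_lit 1378272000, nat_lit 1837500000], [], [nat_lit 8494051037, nat_lit 8523619204,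 nat_lit 8822962951, nat_lit 8849103221, nat_lit 8779344456, nat_lit 8798670770, nat_lit 9030806929, nat_lit 9048935122], nat_lit 1271250, nat_lit 1271250, nat_lit 1271250, nat_lit 1271250, nat_lit 719601, nat_lit 2439450, [nat_lit 780000, nat_lit 1100000, nat_lit 1442500], [nat_lit 59, nat_lit 40, nat_lit 40, nat_lit 80, nat_lit 3, nat_lit 317, nat_lit 100, nat_lit 10]⟩,
 ⟨nat_lit 3162, nat_lit 3873, ⟨.ofNat (nat_lit 861589), .ofNat (nat_lit 919672), .ofNat (nat_lit 867032), .ofNat (nat_lit 925121), .ofNat (nat_lit 849034), .ofNat (nat_lit 903906), .ofNat (nat_lit 854567), .ofNat (nat_lit 909444)⟩, ⟨.ofNat (nat_lit 433760), .ofNat (nat_lit 491830), .ofNat (nat_lit 477347), .ofNat (nat_lit 535416), .ofNat (nat_lit 428022), .ofNat (nat_lit 482881), .ofNat (nat_lit 472332), .ofNat (nat_lit 527190)⟩⟩, [⟨nat_lit 13, nat_lit 76, nat_lit 38, nat_lit 100, nat_lit 164182681⟩, ⟨nat_lit 4, nat_lit 100, nat_lit 67, nat_lit 88,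 nat_lit 362120922⟩, ⟨nat_lit 19, nat_lit 96, nat_lit 86, nat_lit 100, nat_lit 70302606⟩]⟩
noncomputable def p094_l21 : Lf2 := ⟨nat_lit 0, nat_lit 10, [nat_lit 0, nat_lit 5, nat_lit 5, nat_lit 20], false, nat_lit 240, nat_lit 276, nat_lit 112, nat_lit 328, ⟨nat_lit 1000, nat_lit 0, nat_lit 0, nat_lit 0, nat_lit 0, nat_lit 0, nat_lit 0, nat_lit 0, nat_lit 0, nat_lit 0, nat_lit 0, nat_lit 0, nat_lit 0, nat_lit 0, nat_lit 0, nat_lit 0, false, false⟩,
 nat_lit 0, nat_lit 0, nat_lit 9634, nat_lit 0, nat_lit 3617, nat_lit 6398, nat_lit 940, nat_lit 0, nat_lit 0, nat_lit 1043, nat_lit 0, nat_lit 0, nat_lit 0, nat_lit 0, nat_lit 0, nat_lit 0, nat_lit 0, nat_lit 0, [],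
 ⟨p094_k16, nat_lit 0, nat_lit 0, nat_lit 74, nat_lit 0, nat_lit 0, [nat_lit 2032000001, nat_lit 3282000000, nat_lit 6250000000], [], [nat_lit 28780455541, nat_lit 29525849826, nat_lit 30417846319, nat_lit 31200234792, nat_lit 29704797982, nat_lit 30510082063, nat_lit 31348253310, nat_lit 32126879919], nat_lit 0, nat_lit 0, nat_lit 0, nat_lit 0, nat_lit 0, nat_lit 0, [], [nat_lit 85, nat_lit 40, nat_lit 40, nat_lit 80, nat_lit 16, nat_lit 203, nat_lit 0, nat_lit 5]⟩, ⟨p094_k20, nat_lit 0, nat_lit 0, nat_lit 527, nat_lit 0, nat_lit 1082415, [nat_lit 3282000000, nat_lit 4688000000, nat_lit 7968000000], [], [nat_lit 29512541829, nat_lit 29721465633, nat_lit 30721606160, nat_lit 30904456141, nat_lit 30572374020, nat_lit 30720336612, nat_lit 31602803913, nat_lit 31820514435], nat_lit 1271250, nat_lit 1271250, nat_lit 1271250, nat_lit 1271250, nat_lit 719601, nat_lit 2471900, [nat_lit 780000, nat_lit 1100000, nat_lit 1785000],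 [nat_lit 36, nat_lit 40, nat_lit 40, nat_lit 80, nat_lit 7, nat_lit 317, nat_lit 100, nat_lit 9]⟩,
 zbF0, [⟨nat_lit 16, nat_lit 67, nat_lit 100, nat_lit 88, nat_lit 690782183⟩, ⟨nat_lit 7, nat_lit 97, nat_lit 100, nat_lit 98, nat_lit 240789820⟩]⟩
noncomputable def b_V_800_700_20_16 : St := ⟨true, nat_lit 0, nat_lit 1, nat_lit 1, nat_lit 120, nat_lit 320, nat_lit 360, nat_lit 280, nat_lit 300, nat_lit 360, nat_lit 400, nat_lit 80, nat_lit 120, nat_lit 240, nat_lit 300, nat_lit 48, nat_lit 336, nat_lit 0, nat_lit 40, nat_lit 0, nat_lit 0, nat_lit 800, nat_lit 0⟩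
theorem d_V_800_700_20_16 (h : EB TB.env) : Dead b_V_800_700_20_16 := chkB_sound0 h (T :=
(.trZ (nat_lit 9) (nat_lit 100) (nat_lit 61) (nat_lit 92) (nat_lit 112) (.spl (nat_lit 1) (nat_lit 290)
(.spl (nat_lit 0) (nat_lit 340)
(.spl (nat_lit 6) (nat_lit 20)
(.spl (nat_lit 1) (nat_lit 285)
(.trX (nat_lit 13) (nat_lit 88) (nat_lit 22) (nat_lit 100) (nat_lit 396) (.spl (nat_lit 6) (nat_lit 8)
(.spl (nat_lit 0) (nat_lit 330)
(.leaf p094_l0)
(.trX (nat_lit 16) (nat_lit 83) (nat_lit 98) (nat_lit 100) (nat_lit 288) (.spl (nat_lit 6) (nat_lit 4)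
(.leaf p094_l1)
(.leaf p094_l2))))
(.leaf p094_l3)))
(.trX (nat_lit 19) (nat_lit 99) (nat_lit 82) (nat_lit 100) (nat_lit 332) (.leaf p094_l4)))
(.leaf p094_l5))
(.trX (nat_lit 13) (nat_lit 80) (nat_lit 34) (nat_lit 100) (nat_lit 392) (.trX (nat_lit 16) (nat_lit 77) (nat_lit 100) (nat_lit 99) (nat_lit 276) (.spl (nat_lit 6) (nat_lit 20)
(.spl (nat_lit 1) (nat_lit 285)
(.spl (nat_lit 0) (nat_lit 350)
(.spl (nat_lit 6) (nat_lit 8)
(.leaf p094_l6)
(.spl (nat_lit 0) (nat_lit 345)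
(.leaf p094_l7)
(.trX (nat_lit 13) (nat_lit 76) (nat_lit 40) (nat_lit 100) (nat_lit 388) (.trX (nat_lit 16) (nat_lit 73) (nat_lit 100) (nat_lit 98) (nat_lit 272) (.leaf p094_l8)))))
(.trX (nat_lit 13) (nat_lit 73) (nat_lit 44) (nat_lit 100) (nat_lit 384) (.trX (nat_lit 16) (nat_lit 69) (nat_lit 100) (nat_lit 96) (nat_lit 264) (.spl (nat_lit 0) (nat_lit 355)
(.leaf p094_l9)
(.trX (nat_lit 16) (nat_lit 66) (nat_lit 100) (nat_lit 95) (nat_lit 256) (.leaf p094_l10))))))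
(.trX (nat_lit 19) (nat_lit 99) (nat_lit 82) (nat_lit 100) (nat_lit 332) (.spl (nat_lit 6) (nat_lit 8)
(.leaf p094_l11)
(.spl (nat_lit 0) (nat_lit 350)
(.leaf p094_l12)
(.trX (nat_lit 13) (nat_lit 74) (nat_lit 42) (nat_lit 100) (nat_lit 388) (.trX (nat_lit 16) (nat_lit 69) (nat_lit 100) (nat_lit 96) (nat_lit 264) (.leaf p094_l13)))))))
(.spl (nat_lit 0) (nat_lit 350)
(.leaf p094_l14)
(.trX (nat_lit 13) (nat_lit 74) (nat_lit 42) (nat_lit 100) (nat_lit 388) (.trX (nat_lit 16) (nat_lit 69) (nat_lit 100) (nat_lit 96) (nat_lit 264) (.spl (nat_lit 1) (nat_lit 285)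
(.trX (nat_lit 13) (nat_lit 73) (nat_lit 44) (nat_lit 100) (nat_lit 384) (.spl (nat_lit 0) (nat_lit 355)
(.leaf p094_l15)
(.trX (nat_lit 16) (nat_lit 66) (nat_lit 100) (nat_lit 95) (nat_lit 256) (.leaf p094_l16))))
(.trX (nat_lit 19) (nat_lit 99) (nat_lit 82) (nat_lit 100) (nat_lit 332) (.leaf p094_l17))))))))))
(.trX (nat_lit 19) (nat_lit 97) (nat_lit 84) (nat_lit 100) (nat_lit 328) (.spl (nat_lit 0) (nat_lit 340)
(.leaf p094_l18)
(.trX (nat_lit 13) (nat_lit 82) (nat_lit 29) (nat_lit 100) (nat_lit 396) (.trX (nat_lit 16) (nat_lit 77) (nat_lit 100) (nat_lit 99) (nat_lit 276) (.spl (nat_lit 6) (nat_lit 20)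
(.spl (nat_lit 1) (nat_lit 295)
(.leaf p094_l19)
(.trX (nat_lit 19) (nat_lit 96) (nat_lit 86) (nat_lit 100) (nat_lit 324) (.leaf p094_l20)))
(.leaf p094_l21))))))))) (by decide +kernel)
noncomputable def p094_l22 : Lf2 := ⟨nat_lit 0, nat_lit 10, [nat_lit 0, nat_lit 5, nat_lit 5, nat_lit 20], false, nat_lit 160, nat_lit 300, nat_lit 16, nat_lit 320, ⟨nat_lit 1000, nat_lit 0, nat_lit 0, nat_lit 0, nat_lit 0, nat_lit 0, nat_lit 0, nat_lit 0, nat_lit 0, nat_lit 0, nat_lit 0, nat_lit 0, nat_lit 0, nat_lit 0, nat_lit 0, nat_lit 0, false, false⟩,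
 nat_lit 0, nat_lit 0, nat_lit 2396, nat_lit 0, nat_lit 6471, nat_lit 1658, nat_lit 0, nat_lit 0, nat_lit 0, nat_lit 669, nat_lit 0, nat_lit 295, nat_lit 0, nat_lit 0, nat_lit 0, nat_lit 0, nat_lit 0, nat_lit 0, [],
 ⟨p094_k23, nat_lit 0, nat_lit 0, nat_lit 100, nat_lit 0, nat_lit 0, [nat_lit 2032000001, nat_lit 4688000000, nat_lit 6250000000], [], [nat_lit 27220147020, nat_lit 29802258560, nat_lit 32611284968, nat_lit 34599849204, nat_lit 30738879643, nat_lit 32650371631, nat_lit 34777466504, nat_lit 36600961713], nat_lit 0, nat_lit 0, nat_lit 0, nat_lit 0, nat_lit 0, nat_lit 0, [], [nat_lit 6, nat_lit 40, nat_lit 40, nat_lit 80, nat_lit 3, nat_lit 289, nat_lit 75, nat_lit 9]⟩, ⟨p094_k24, nat_lit 0, nat_lit 0, nat_lit 0, nat_lit 0, nat_lit 1527098, [nat_lit 3282000000, nat_lit 6250000000, nat_lit 7968000000], [], [nat_lit 23592159884, nat_lit 24051414578, nat_lit 25648699869, nat_lit 26053806306, nat_lit 27007612921,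 nat_lit 27355910629, nat_lit 29116246648, nat_lit 29678342096], nat_lit 1271250, nat_lit 1271250, nat_lit 1271250, nat_lit 1271250, nat_lit 88400, nat_lit 2281000, [nat_lit 780000, nat_lit 1435000, nat_lit 1271250], [nat_lit 18, nat_lit 40, nat_lit 40, nat_lit 80]⟩,
 zbF0, [⟨nat_lit 16, nat_lit 74, nat_lit 100, nat_lit 90, nat_lit 15041764⟩, ⟨nat_lit 16, nat_lit 87, nat_lit 95, nat_lit 100, nat_lit 323083837⟩, ⟨nat_lit 19, nat_lit 93, nat_lit 100, nat_lit 97, nat_lit 80603811⟩, ⟨nat_lit 19, nat_lit 94, nat_lit 88, nat_lit 100, nat_lit 24816284⟩]⟩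
noncomputable def p094_l23 : Lf2 := ⟨nat_lit 0, nat_lit 10, [nat_lit 0, nat_lit 5, nat_lit 5, nat_lit 20], false, nat_lit 160, nat_lit 300, nat_lit 16, nat_lit 320, ⟨nat_lit 1000, nat_lit 0, nat_lit 0, nat_lit 0, nat_lit 0, nat_lit 0, nat_lit 0, nat_lit 0, nat_lit 0, nat_lit 0, nat_lit 0, nat_lit 0, nat_lit 0, nat_lit 0, nat_lit 0, nat_lit 0, false, false⟩,
 nat_lit 0, nat_lit 0, nat_lit 9168, nat_lit 0, nat_lit 5513, nat_lit 6347, nat_lit 0, nat_lit 0, nat_lit 0, nat_lit 3490, nat_lit 0, nat_lit 0, nat_lit 0, nat_lit 0, nat_lit 0, nat_lit 0, nat_lit 0, nat_lit 0, [],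
 ⟨p094_k23, nat_lit 0, nat_lit 0, nat_lit 80, nat_lit 0, nat_lit 0, [nat_lit 2032000001, nat_lit 4688000000, nat_lit 6250000000], [], [nat_lit 25616683060, nat_lit 26252208182, nat_lit 30900935968, nat_lit 31395743342, nat_lit 29426833930, nat_lit 29903579685, nat_lit 33656162834, nat_lit 34084053486], nat_lit 0, nat_lit 0, nat_lit 0, nat_lit 0, nat_lit 0, nat_lit 0, [], [nat_lit 6, nat_lit 40, nat_lit 40, nat_lit 80, nat_lit 3, nat_lit 289, nat_lit 75, nat_lit 9]⟩, ⟨p094_k24, nat_lit 0, nat_lit 0, nat_lit 604, nat_lit 0, nat_lit 1097686, [nat_lit 3282000000, nat_lit 6250000000, nat_lit 7968000000], [], [nat_lit 27343666631, nat_lit 27675367768, nat_lit 30640740148, nat_lit 30898545246, nat_lit 27676151344, nat_lit 27866124130, nat_lit 29815956402, nat_lit 30085982513], nat_lit 1271250, nat_lit 1271250, nat_lit 1271250, nat_lit 1271250, nat_lit 88400, nat_lit 2281000, [nat_lit 780000, nat_lit 1435000, nat_lit 1271250],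 [nat_lit 18, nat_lit 40, nat_lit 40, nat_lit 80, nat_lit 2, nat_lit 317, nat_lit 100, nat_lit 9]⟩,
 zbF0, [⟨nat_lit 4, nat_lit 100, nat_lit 84, nat_lit 93, nat_lit 404088546⟩, ⟨nat_lit 7, nat_lit 100, nat_lit 97, nat_lit 98, nat_lit 185204690⟩]⟩
noncomputable def p094_l24 : Lf2 := ⟨nat_lit 0, nat_lit 10, [nat_lit 0, nat_lit 5, nat_lit 5, nat_lit 20], false, nat_lit 160, nat_lit 288, nat_lit 16, nat_lit 320, ⟨nat_lit 1000, nat_lit 0, nat_lit 0, nat_lit 0, nat_lit 0, nat_lit 0, nat_lit 0, nat_lit 0, nat_lit 0, nat_lit 0, nat_lit 0, nat_lit 0, nat_lit 0, nat_lit 0, nat_lit 0, nat_lit 0, false, false⟩,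
 nat_lit 0, nat_lit 0, nat_lit 8919, nat_lit 0, nat_lit 3986, nat_lit 6174, nat_lit 1906, nat_lit 0, nat_lit 0, nat_lit 1543, nat_lit 0, nat_lit 0, nat_lit 0, nat_lit 0, nat_lit 0, nat_lit 0, nat_lit 0, nat_lit 0, [],
 ⟨p094_k25, nat_lit 0, nat_lit 0, nat_lit 87, nat_lit 0, nat_lit 0, [nat_lit 2032000001, nat_lit 4688000000, nat_lit 6250000000], [], [nat_lit 24904049403, nat_lit 25418130475, nat_lit 29393988928, nat_lit 29889460272, nat_lit 27983367563, nat_lit 28392419570, nat_lit 31915259870, nat_lit 32308810161], nat_lit 0, nat_lit 0, nat_lit 0, nat_lit 0, nat_lit 0, nat_lit 0, [], [nat_lit 6, nat_lit 40, nat_lit 40, nat_lit 80, nat_lit 3, nat_lit 289, nat_lit 75, nat_lit 9]⟩, ⟨p094_k24, nat_lit 0, nat_lit 0, nat_lit 646, nat_lit 0, nat_lit 1210937, [nat_lit 3282000000, nat_lit 6250000000, nat_lit 7968000000], [], [nat_lit 28962033316, nat_lit 29177823753, nat_lit 31694410947, nat_lit 32081392264, nat_lit 28688555648,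 nat_lit 28878383460, nat_lit 30715666576, nat_lit 30859240916], nat_lit 1271250, nat_lit 1271250, nat_lit 1271250, nat_lit 1271250, nat_lit 88400, nat_lit 2281000, [nat_lit 780000, nat_lit 1435000, nat_lit 1271250], [nat_lit 18, nat_lit 40, nat_lit 40, nat_lit 80, nat_lit 2, nat_lit 317, nat_lit 100, nat_lit 9]⟩,
 zbF0, [⟨nat_lit 4, nat_lit 100, nat_lit 77, nat_lit 91, nat_lit 468675059⟩, ⟨nat_lit 7, nat_lit 100, nat_lit 97, nat_lit 98, nat_lit 178005485⟩]⟩
noncomputable def p094_l25 : Lf2 := ⟨nat_lit 0, nat_lit 10, [nat_lit 0, nat_lit 5, nat_lit 5, nat_lit 20], false, nat_lit 160, nat_lit 300, nat_lit 16, nat_lit 312, ⟨nat_lit 1000, nat_lit 0, nat_lit 0, nat_lit 0, nat_lit 0, nat_lit 0, nat_lit 0, nat_lit 0, nat_lit 0, nat_lit 0, nat_lit 0, nat_lit 0, nat_lit 0, nat_lit 0, nat_lit 0, nat_lit 0, false, false⟩,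
 nat_lit 0, nat_lit 0, nat_lit 8774, nat_lit 0, nat_lit 5513, nat_lit 6325, nat_lit 0, nat_lit 0, nat_lit 0, nat_lit 3228, nat_lit 0, nat_lit 0, nat_lit 0, nat_lit 0, nat_lit 0, nat_lit 0, nat_lit 0, nat_lit 0, [],
 ⟨p094_k23, nat_lit 0, nat_lit 0, nat_lit 80, nat_lit 0, nat_lit 0, [nat_lit 2032000001, nat_lit 4688000000, nat_lit 6250000000], [], [nat_lit 25616683060, nat_lit 26252208182, nat_lit 30900935968, nat_lit 31395743342, nat_lit 29426833930, nat_lit 29903579685, nat_lit 33656162834, nat_lit 34084053486], nat_lit 0, nat_lit 0, nat_lit 0, nat_lit 0, nat_lit 0, nat_lit 0, [], [nat_lit 6, nat_lit 40, nat_lit 40, nat_lit 80, nat_lit 3, nat_lit 289, nat_lit 75, nat_lit 9]⟩, ⟨p094_k26, nat_lit 0, nat_lit 0, nat_lit 609, nat_lit 0, nat_lit 1114264, [nat_lit 3282000000, nat_lit 6250000000, nat_lit 7968000000], [], [nat_lit 27787274201, nat_lit 28118579761, nat_lit 31005515076, nat_lit 31263132641, nat_lit 27854805261,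 nat_lit 28049247680, nat_lit 29930077431, nat_lit 30206656840], nat_lit 1271250, nat_lit 1271250, nat_lit 1271250, nat_lit 1271250, nat_lit 88400, nat_lit 2223300, [nat_lit 780000, nat_lit 1435000, nat_lit 1271250], [nat_lit 18, nat_lit 40, nat_lit 40, nat_lit 80, nat_lit 2, nat_lit 317, nat_lit 100, nat_lit 9]⟩,
 zbF0, [⟨nat_lit 16, nat_lit 84, nat_lit 100, nat_lit 93, nat_lit 404088546⟩, ⟨nat_lit 7, nat_lit 100, nat_lit 90, nat_lit 95, nat_lit 198376476⟩]⟩
noncomputable def p094_l26 : Lf2 := ⟨nat_lit 0, nat_lit 10, [nat_lit 0, nat_lit 5, nat_lit 5, nat_lit 20], false, nat_lit 160, nat_lit 288, nat_lit 16, nat_lit 312, ⟨nat_lit 1000, nat_lit 0, nat_lit 0, nat_lit 0, nat_lit 0, nat_lit 0, nat_lit 0, nat_lit 0, nat_lit 0, nat_lit 0, nat_lit 0, nat_lit 0, nat_lit 0, nat_lit 0, nat_lit 0, nat_lit 0, false, false⟩,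
 nat_lit 0, nat_lit 0, nat_lit 8915, nat_lit 0, nat_lit 3838, nat_lit 6427, nat_lit 2148, nat_lit 0, nat_lit 0, nat_lit 1243, nat_lit 0, nat_lit 0, nat_lit 0, nat_lit 0, nat_lit 0, nat_lit 0, nat_lit 0, nat_lit 0, [],
 ⟨p094_k25, nat_lit 0, nat_lit 0, nat_lit 87, nat_lit 0, nat_lit 0, [nat_lit 2032000001, nat_lit 4688000000, nat_lit 6250000000], [], [nat_lit 24789793117, nat_lit 25295608093, nat_lit 29200087024, nat_lit 29688246576, nat_lit 27865461597, nat_lit 28269075729, nat_lit 31739206144, nat_lit 32128146147], nat_lit 0, nat_lit 0, nat_lit 0, nat_lit 0, nat_lit 0, nat_lit 0, [], [nat_lit 6, nat_lit 40, nat_lit 40, nat_lit 80, nat_lit 3, nat_lit 289, nat_lit 75, nat_lit 9]⟩, ⟨p094_k26, nat_lit 0, nat_lit 0, nat_lit 648, nat_lit 0, nat_lit 1218192, [nat_lit 3282000000, nat_lit 6250000000, nat_lit 7968000000], [], [nat_lit 28280418629, nat_lit 28571768886, nat_lit 31445878503, nat_lit 31895682311, nat_lit 27958669511,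 nat_lit 28126925539, nat_lit 29752693048, nat_lit 30012119693], nat_lit 1271250, nat_lit 1271250, nat_lit 1271250, nat_lit 1271250, nat_lit 88400, nat_lit 2223300, [nat_lit 780000, nat_lit 1435000, nat_lit 1271250], [nat_lit 18, nat_lit 40, nat_lit 40, nat_lit 80, nat_lit 2, nat_lit 317, nat_lit 100, nat_lit 9]⟩,
 zbF0, [⟨nat_lit 4, nat_lit 100, nat_lit 77, nat_lit 91, nat_lit 475026580⟩, ⟨nat_lit 7, nat_lit 100, nat_lit 90, nat_lit 95, nat_lit 182024813⟩]⟩
noncomputable def p094_l27 : Lf2 := ⟨nat_lit 0, nat_lit 5, [nat_lit 4, nat_lit 5, nat_lit 5, nat_lit 20], false, nat_lit 160, nat_lit 276, nat_lit 16, nat_lit 320, ⟨nat_lit 601, nat_lit 399, nat_lit 0, nat_lit 8, nat_lit 335, nat_lit 399, nat_lit 168, nat_lit 0, nat_lit 0, nat_lit 0, nat_lit 0, nat_lit 0, nat_lit 34310509, nat_lit 24651826, nat_lit 8037665, nat_lit 5178969, true, true⟩,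
 nat_lit 0, nat_lit 0, nat_lit 5754, nat_lit 0, nat_lit 3377, nat_lit 3983, nat_lit 777, nat_lit 0, nat_lit 0, nat_lit 1165, nat_lit 0, nat_lit 0, nat_lit 0, nat_lit 0, nat_lit 0, nat_lit 159600, nat_lit 0, nat_lit 0, [(nat_lit 21, [(nat_lit 1, nat_lit 399)])],
 ⟨p094_k27, nat_lit 0, nat_lit 0, nat_lit 63, nat_lit 0, nat_lit 0, [nat_lit 1761956801, nat_lit 3409604000], [], [nat_lit 25017074894, nat_lit 25497142098, nat_lit 26848235624, nat_lit 27288459583, nat_lit 27672555948, nat_lit 28105758085, nat_lit 29326267726, nat_lit 29719921479], nat_lit 0, nat_lit 0, nat_lit 0, nat_lit 0, nat_lit 0, nat_lit 0, [], [nat_lit 24, nat_lit 40, nat_lit 40, nat_lit 80, nat_lit 33, nat_lit 203, nat_lit 0, nat_lit 7]⟩, ⟨p094_k28, nat_lit 0, nat_lit 0, nat_lit 619, nat_lit 0, nat_lit 1294596, [nat_lit 1972482000, nat_lit 3756250000], [], [nat_lit 16132679908, nat_lit 16309374694, nat_lit 16979633984, nat_lit 17136322301, nat_lit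 15995172998, nat_lit 16093645973, nat_lit 16500962178, nat_lit 16600055426], nat_lit 1271250, nat_lit 1271250, nat_lit 1271250, nat_lit 1271250, nat_lit 88400, nat_lit 2281000, [nat_lit 780000, nat_lit 1435000], [nat_lit 49, nat_lit 40, nat_lit 40, nat_lit 80, nat_lit 16, nat_lit 317, nat_lit 100, nat_lit 11]⟩,
 ⟨nat_lit 3535, nat_lit 3873, ⟨.ofNat (nat_lit 802518), .ofNat (nat_lit 867045), .ofNat (nat_lit 813411), .ofNat (nat_lit 877938), .ofNat (nat_lit 798034), .ofNat (nat_lit 860801), .ofNat (nat_lit 809007), .ofNat (nat_lit 871774)⟩, ⟨.ofNat (nat_lit 304717), .ofNat (nat_lit 491830), .ofNat (nat_lit 348304), .ofNat (nat_lit 535416), .ofNat (nat_lit 305521), .ofNat (nat_lit 487529), .ofNat (nat_lit 349427), .ofNat (nat_lit 531435)⟩⟩, [⟨nat_lit 4, nat_lit 100, nat_lit 71, nat_lit 89, nat_lit 374502899⟩, ⟨nat_lit 19, nat_lit 94, nat_lit 88, nat_lit 100, nat_lit 86735228⟩, ⟨nat_lit 7, nat_lit 100, nat_lit 97, nat_lit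 98, nat_lit 24599262⟩]⟩
noncomputable def p094_l28 : Lf2 := ⟨nat_lit 0, nat_lit 5, [nat_lit 4, nat_lit 5, nat_lit 5, nat_lit 20], false, nat_lit 160, nat_lit 264, nat_lit 16, nat_lit 320, ⟨nat_lit 268, nat_lit 732, nat_lit 0, nat_lit 8, nat_lit 333, nat_lit 732, nat_lit 163, nat_lit 0, nat_lit 0, nat_lit 0, nat_lit 0, nat_lit 0, nat_lit 34645707, nat_lit 24583848, nat_lit 7770445, nat_lit 5141943, true, true⟩,
 nat_lit 0, nat_lit 0, nat_lit 2608, nat_lit 0, nat_lit 3098, nat_lit 1805, nat_lit 266, nat_lit 0, nat_lit 0, nat_lit 529, nat_lit 0, nat_lit 0, nat_lit 0, nat_lit 0, nat_lit 0, nat_lit 292800, nat_lit 0, nat_lit 0, [(nat_lit 21, [(nat_lit 1, nat_lit 732)])],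
 ⟨p094_k29, nat_lit 0, nat_lit 0, nat_lit 69, nat_lit 0, nat_lit 0, [nat_lit 1536582400, nat_lit 2342672000], [], [nat_lit 25458422578, nat_lit 25922907074, nat_lit 27190615616, nat_lit 27613185130, nat_lit 27667008702, nat_lit 28060783131, nat_lit 29140289663, nat_lit 29508042491], nat_lit 0, nat_lit 0, nat_lit 0, nat_lit 0, nat_lit 0, nat_lit 0, [], [nat_lit 24, nat_lit 40, nat_lit 40, nat_lit 80, nat_lit 33, nat_lit 203, nat_lit 0, nat_lit 6]⟩, ⟨p094_k28, nat_lit 0, nat_lit 0, nat_lit 660, nat_lit 0, nat_lit 1416352, [nat_lit 879576000, nat_lit 1675000000], [], [nat_lit 7278746140, nat_lit 7347551669, nat_lit 7612050313, nat_lit 7672939426, nat_lit 7105080526, nat_lit 7142462533, nat_lit 7301454766, nat_lit 7343132399], nat_lit 1271250, nat_lit 1271250, nat_lit 1271250, nat_lit 1271250, nat_lit 88400, nat_lit 2281000, [nat_lit 780000, nat_lit 1435000], [nat_lit 49, nat_lit 40, nat_lit 40, nat_lit 80, nat_lit 16,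 nat_lit 317, nat_lit 100, nat_lit 11]⟩,
 ⟨nat_lit 3162, nat_lit 3536, ⟨.ofNat (nat_lit 798037), .ofNat (nat_lit 860807), .ofNat (nat_lit 809008), .ofNat (nat_lit 871780), .ofNat (nat_lit 793624), .ofNat (nat_lit 854586), .ofNat (nat_lit 804697), .ofNat (nat_lit 865661)⟩, ⟨.ofNat (nat_lit 305521), .ofNat (nat_lit 468701), .ofNat (nat_lit 349427), .ofNat (nat_lit 512606), .ofNat (nat_lit 306116), .ofNat (nat_lit 464594), .ofNat (nat_lit 350426), .ofNat (nat_lit 508904)⟩⟩, [⟨nat_lit 16, nat_lit 69, nat_lit 100, nat_lit 96, nat_lit 237467997⟩, ⟨nat_lit 19, nat_lit 94, nat_lit 88, nat_lit 100, nat_lit 48146811⟩]⟩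
noncomputable def p094_l29 : Lf2 := ⟨nat_lit 0, nat_lit 5, [nat_lit 4, nat_lit 5, nat_lit 5, nat_lit 20], false, nat_lit 160, nat_lit 276, nat_lit 16, nat_lit 312, ⟨nat_lit 282, nat_lit 718, nat_lit 0, nat_lit 8, nat_lit 338, nat_lit 718, nat_lit 167, nat_lit 0, nat_lit 0, nat_lit 0, nat_lit 0, nat_lit 0, nat_lit 34087267, nat_lit 24942128, nat_lit 7970605, nat_lit 5177724, true, true⟩,
 nat_lit 0, nat_lit 0, nat_lit 2589, nat_lit 0, nat_lit 3097, nat_lit 1866, nat_lit 479, nat_lit 0, nat_lit 0, nat_lit 290, nat_lit 0, nat_lit 0, nat_lit 0, nat_lit 0, nat_lit 0, nat_lit 287200, nat_lit 0, nat_lit 0, [(nat_lit 21, [(nat_lit 1, nat_lit 718)])],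
 ⟨p094_k27, nat_lit 0, nat_lit 0, nat_lit 69, nat_lit 0, nat_lit 0, [nat_lit 1546057600, nat_lit 2387528000], [], [nat_lit 24852787923, nat_lit 25781645211, nat_lit 26626691453, nat_lit 27479115820, nat_lit 27477128530, nat_lit 28316616659, nat_lit 29082951492, nat_lit 29849626174], nat_lit 0, nat_lit 0, nat_lit 0, nat_lit 0, nat_lit 0, nat_lit 0, [], [nat_lit 24, nat_lit 40, nat_lit 40, nat_lit 80, nat_lit 33, nat_lit 203, nat_lit 0, nat_lit 7]⟩, ⟨p094_k30, nat_lit 0, nat_lit 0, nat_lit 655, nat_lit 0, nat_lit 1404300, [nat_lit 925524000, nat_lit 1762500000], [], [nat_lit 7724352146, nat_lit 7796127472, nat_lit 8064762969, nat_lit 8130460594, nat_lit 7536570810, nat_lit 7583944006, nat_lit 7772657388, nat_lit 7820160656], nat_lit 1271250, nat_lit 1271250, nat_lit 1271250, nat_lit 1271250, nat_lit 88400, nat_lit 2223300, [nat_lit 780000, nat_lit 1435000], [nat_lit 49, nat_lit 40, nat_lit 40, nat_lit 80, nat_lit 16,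 nat_lit 317, nat_lit 100, nat_lit 11]⟩,
 ⟨nat_lit 3162, nat_lit 3873, ⟨.ofNat (nat_lit 813366), .ofNat (nat_lit 877918), .ofNat (nat_lit 824248), .ofNat (nat_lit 888802), .ofNat (nat_lit 804650), .ofNat (nat_lit 865634), .ofNat (nat_lit 815713), .ofNat (nat_lit 876699)⟩, ⟨.ofNat (nat_lit 304717), .ofNat (nat_lit 491830), .ofNat (nat_lit 348304), .ofNat (nat_lit 535416), .ofNat (nat_lit 306116), .ofNat (nat_lit 482881), .ofNat (nat_lit 350426), .ofNat (nat_lit 527190)⟩⟩, [⟨nat_lit 4, nat_lit 100, nat_lit 67, nat_lit 88, nat_lit 293699654⟩, ⟨nat_lit 19, nat_lit 91, nat_lit 91, nat_lit 100, nat_lit 52282145⟩]⟩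
noncomputable def p094_l30 : Lf2 := ⟨nat_lit 0, nat_lit 5, [nat_lit 4, nat_lit 5, nat_lit 5, nat_lit 20], false, nat_lit 160, nat_lit 240, nat_lit 48, nat_lit 320, ⟨nat_lit 261, nat_lit 739, nat_lit 0, nat_lit 9, nat_lit 359, nat_lit 739, nat_lit 156, nat_lit 0, nat_lit 0, nat_lit 0, nat_lit 0, nat_lit 0, nat_lit 33044710, nat_lit 26971812, nat_lit 6983478, nat_lit 5085935, true, true⟩,
 nat_lit 0, nat_lit 0, nat_lit 2352, nat_lit 0, nat_lit 2990, nat_lit 1628, nat_lit 0, nat_lit 0, nat_lit 0, nat_lit 306, nat_lit 0, nat_lit 0, nat_lit 0, nat_lit 0, nat_lit 0, nat_lit 661000, nat_lit 0, nat_lit 0, [(nat_lit 21, [(nat_lit 1, nat_lit 130), (nat_lit 2, nat_lit 609)])],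
 ⟨p094_k11, nat_lit 0, nat_lit 0, nat_lit 87, nat_lit 0, nat_lit 0, [nat_lit 1509758400, nat_lit 1421089600, nat_lit 1227350200], [], [nat_lit 26725734860, nat_lit 27560853000, nat_lit 28589420940, nat_lit 29427876400, nat_lit 28125616020, nat_lit 28878714080, nat_lit 29880413360, nat_lit 30611095880], nat_lit 0, nat_lit 0, nat_lit 0, nat_lit 0, nat_lit 0, nat_lit 0, [], [nat_lit 78, nat_lit 40, nat_lit 40, nat_lit 80, nat_lit 22, nat_lit 203, nat_lit 0, nat_lit 6]⟩, ⟨p094_k31, nat_lit 0, nat_lit 0, nat_lit 650, nat_lit 0, nat_lit 1416352, [nat_lit 856602000, nat_lit 1223568000, nat_lit 1631250000], [], [nat_lit 7899227367, nat_lit 7952450289, nat_lit 8224576059, nat_lit 8270931860, nat_lit 7827002896, nat_lit 7862131319, nat_lit 8074451048, nat_lit 8110478364], nat_lit 1271250, nat_lit 1271250, nat_lit 1271250, nat_lit 1271250, nat_lit 279600, nat_lit 2323000, [nat_lit 780000, nat_lit 1100000, nat_lit 1442500], [nat_lit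 59, nat_lit 40, nat_lit 40, nat_lit 80, nat_lit 3, nat_lit 317, nat_lit 100, nat_lit 11]⟩,
 ⟨nat_lit 3162, nat_lit 3873, ⟨.ofNat (nat_lit 867032), .ofNat (nat_lit 931573), .ofNat (nat_lit 877918), .ofNat (nat_lit 942462), .ofNat (nat_lit 854567), .ofNat (nat_lit 915540), .ofNat (nat_lit 865634), .ofNat (nat_lit 926609)⟩, ⟨.ofNat (nat_lit 304717), .ofNat (nat_lit 433760), .ofNat (nat_lit 348304), .ofNat (nat_lit 477347), .ofNat (nat_lit 306116), .ofNat (nat_lit 428022), .ofNat (nat_lit 350426), .ofNat (nat_lit 472332)⟩⟩, [⟨nat_lit 13, nat_lit 69, nat_lit 45, nat_lit 100, nat_lit 196239216⟩, ⟨nat_lit 4, nat_lit 100, nat_lit 67, nat_lit 88, nat_lit 41645124⟩, ⟨nat_lit 19, nat_lit 97, nat_lit 100, nat_lit 98, nat_lit 51003513⟩]⟩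
noncomputable def p094_l31 : Lf2 := ⟨nat_lit 0, nat_lit 5, [nat_lit 4, nat_lit 5, nat_lit 5, nat_lit 20], false, nat_lit 240, nat_lit 276, nat_lit 112, nat_lit 320, ⟨nat_lit 1000, nat_lit 0, nat_lit 0, nat_lit 0, nat_lit 0, nat_lit 0, nat_lit 0, nat_lit 0, nat_lit 0, nat_lit 0, nat_lit 0, nat_lit 0, nat_lit 0, nat_lit 0, nat_lit 0, nat_lit 0, false, false⟩,
 nat_lit 0, nat_lit 0, nat_lit 9147, nat_lit 0, nat_lit 3626, nat_lit 6332, nat_lit 877, nat_lit 0, nat_lit 0, nat_lit 3115, nat_lit 0, nat_lit 0, nat_lit 0, nat_lit 0, nat_lit 0, nat_lit 0, nat_lit 0, nat_lit 0, [],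
 ⟨p094_k11, nat_lit 0, nat_lit 0, nat_lit 71, nat_lit 0, nat_lit 0, [nat_lit 2032000001, nat_lit 3282000000, nat_lit 4688000000], [], [nat_lit 28711925967, nat_lit 29126458365, nat_lit 30608387346, nat_lit 30995399670, nat_lit 29714270339, nat_lit 30101718728, nat_lit 31545441233, nat_lit 31937457582], nat_lit 0, nat_lit 0, nat_lit 0, nat_lit 0, nat_lit 0, nat_lit 0, [], [nat_lit 78, nat_lit 40, nat_lit 40, nat_lit 80, nat_lit 22, nat_lit 203, nat_lit 0, nat_lit 6]⟩, ⟨p094_k31, nat_lit 0, nat_lit 0, nat_lit 563, nat_lit 0, nat_lit 1294596, [nat_lit 3282000000, nat_lit 4688000000, nat_lit 6250000000], [], [nat_lit 27200989528, nat_lit 27465327412, nat_lit 28761646386, nat_lit 28992815126, nat_lit 28717560336, nat_lit 28884125464, nat_lit 29844897912, nat_lit 30114806828], nat_lit 1271250, nat_lit 1271250, nat_lit 1271250, nat_lit 1271250, nat_lit 719601, nat_lit 2407000, [nat_lit 780000, nat_lit 1100000, nat_lit 1442500],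 [nat_lit 59, nat_lit 40, nat_lit 40, nat_lit 80, nat_lit 3, nat_lit 317, nat_lit 100, nat_lit 10]⟩,
 zbF0, [⟨nat_lit 4, nat_lit 100, nat_lit 71, nat_lit 89, nat_lit 578419395⟩, ⟨nat_lit 19, nat_lit 94, nat_lit 88, nat_lit 100, nat_lit 255094335⟩]⟩
noncomputable def p094_l32 : Lf2 := ⟨nat_lit 0, nat_lit 5, [nat_lit 4, nat_lit 5, nat_lit 5, nat_lit 20], false, nat_lit 240, nat_lit 264, nat_lit 112, nat_lit 320, ⟨nat_lit 305, nat_lit 695, nat_lit 0, nat_lit 9, nat_lit 356, nat_lit 695, nat_lit 188, nat_lit 0, nat_lit 0, nat_lit 0, nat_lit 0, nat_lit 0, nat_lit 32028914, nat_lit 25868800, nat_lit 9102286, nat_lit 5334514, true, true⟩,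
 nat_lit 0, nat_lit 0, nat_lit 2788, nat_lit 0, nat_lit 3032, nat_lit 1930, nat_lit 0, nat_lit 0, nat_lit 0, nat_lit 490, nat_lit 0, nat_lit 0, nat_lit 0, nat_lit 0, nat_lit 0, nat_lit 675800, nat_lit 0, nat_lit 0, [(nat_lit 21, [(nat_lit 1, nat_lit 32), (nat_lit 2, nat_lit 663)])],
 ⟨p094_k13, nat_lit 0, nat_lit 0, nat_lit 72, nat_lit 0, nat_lit 0, [nat_lit 1537579200, nat_lit 1462388000, nat_lit 1266838200], [], [nat_lit 28519892024, nat_lit 28907739104, nat_lit 30103871187, nat_lit 30474602241, nat_lit 29160781673, nat_lit 29550056807, nat_lit 30699574549, nat_lit 31084944797], nat_lit 0, nat_lit 0, nat_lit 0, nat_lit 0, nat_lit 0, nat_lit 0, [], [nat_lit 78, nat_lit 40, nat_lit 40, nat_lit 80, nat_lit 22, nat_lit 203, nat_lit 0, nat_lit 6]⟩, ⟨p094_k31, nat_lit 0, nat_lit 0, nat_lit 617, nat_lit 0, nat_lit 1416352, [nat_lit 1001010000, nat_lit 1429840000, nat_lit 1906250000], [], [nat_lit 8604398480, nat_lit 8674757667,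 nat_lit 8983589886, nat_lit 9045966313, nat_lit 8965257990, nat_lit 9009079015, nat_lit 9228983182, nat_lit 9266996835], nat_lit 1271250, nat_lit 1271250, nat_lit 1271250, nat_lit 1271250, nat_lit 719601, nat_lit 2407000, [nat_lit 780000, nat_lit 1100000, nat_lit 1442500], [nat_lit 59, nat_lit 40, nat_lit 40, nat_lit 80, nat_lit 3, nat_lit 317, nat_lit 100, nat_lit 10]⟩,
 ⟨nat_lit 3162, nat_lit 3536, ⟨.ofNat (nat_lit 860807), .ofNat (nat_lit 917293), .ofNat (nat_lit 871780), .ofNat (nat_lit 928269), .ofNat (nat_lit 854586), .ofNat (nat_lit 909444), .ofNat (nat_lit 865661), .ofNat (nat_lit 920522)⟩, ⟨.ofNat (nat_lit 431044), .ofNat (nat_lit 468701), .ofNat (nat_lit 474949), .ofNat (nat_lit 512606), .ofNat (nat_lit 428022), .ofNat (nat_lit 464594), .ofNat (nat_lit 472332), .ofNat (nat_lit 508904)⟩⟩, [⟨nat_lit 13, nat_lit 74, nat_lit 39, nat_lit 100, nat_lit 168903277⟩, ⟨nat_lit 16, nat_lit 69, nat_lit 100, nat_lit 96,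 nat_lit 324212638⟩, ⟨nat_lit 19, nat_lit 94, nat_lit 88, nat_lit 100, nat_lit 74635598⟩]⟩
noncomputable def p094_l33 : Lf2 := ⟨nat_lit 0, nat_lit 5, [nat_lit 4, nat_lit 5, nat_lit 5, nat_lit 20], false, nat_lit 160, nat_lit 276, nat_lit 48, nat_lit 312, ⟨nat_lit 654, nat_lit 346, nat_lit 0, nat_lit 9, nat_lit 362, nat_lit 346, nat_lit 167, nat_lit 0, nat_lit 0, nat_lit 0, nat_lit 0, nat_lit 0, nat_lit 32404696, nat_lit 26933083, nat_lit 7662221, nat_lit 5177109, true, true⟩,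
 nat_lit 0, nat_lit 0, nat_lit 5817, nat_lit 0, nat_lit 3287, nat_lit 4193, nat_lit 411, nat_lit 0, nat_lit 0, nat_lit 637, nat_lit 0, nat_lit 0, nat_lit 0, nat_lit 0, nat_lit 0, nat_lit 346000, nat_lit 0, nat_lit 0, [(nat_lit 21, [(nat_lit 2, nat_lit 346)])],
 ⟨p094_k11, nat_lit 0, nat_lit 0, nat_lit 87, nat_lit 0, nat_lit 0, [nat_lit 1785278934, nat_lit 2363854401, nat_lit 2936230799], [], [nat_lit 27143186271, nat_lit 28005861853, nat_lit 29076843175, nat_lit 29875940196, nat_lit 29453205630, nat_lit 30214061835, nat_lit 31194291271, nat_lit 31897521347], nat_lit 0, nat_lit 0, nat_lit 0, nat_lit 0, nat_lit 0, nat_lit 0, [], [nat_lit 78, nat_lit 40, nat_lit 40, nat_lit 80, nat_lit 22, nat_lit 203, nat_lit 0, nat_lit 6]⟩, ⟨p094_k32, nat_lit 0, nat_lit 0, nat_lit 632, nat_lit 0, nat_lit 1370513, [nat_lit 2146428000, nat_lit 3065952000, nat_lit 4087500000], [], [nat_lit 18925820289, nat_lit 19005681524, nat_lit 19877789623,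 nat_lit 19949430038, nat_lit 18896805292, nat_lit 18944875375, nat_lit 19524307604, nat_lit 19565285286], nat_lit 1271250, nat_lit 1271250, nat_lit 1271250, nat_lit 1271250, nat_lit 279600, nat_lit 2262900, [nat_lit 780000, nat_lit 1100000, nat_lit 1442500], [nat_lit 59, nat_lit 40, nat_lit 40, nat_lit 80, nat_lit 3, nat_lit 317, nat_lit 100, nat_lit 11]⟩,
 ⟨nat_lit 3162, nat_lit 3873, ⟨.ofNat (nat_lit 877918), .ofNat (nat_lit 942462), .ofNat (nat_lit 883361), .ofNat (nat_lit 947904), .ofNat (nat_lit 865634), .ofNat (nat_lit 926609), .ofNat (nat_lit 871168), .ofNat (nat_lit 932143)⟩, ⟨.ofNat (nat_lit 304717), .ofNat (nat_lit 491830), .ofNat (nat_lit 348304), .ofNat (nat_lit 535416), .ofNat (nat_lit 306116), .ofNat (nat_lit 482881), .ofNat (nat_lit 350426), .ofNat (nat_lit 527190)⟩⟩, [⟨nat_lit 13, nat_lit 72, nat_lit 40, nat_lit 100, nat_lit 47778152⟩, ⟨nat_lit 4, nat_lit 100, nat_lit 67, nat_lit 88, nat_lit 395459444⟩,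 ⟨nat_lit 19, nat_lit 91, nat_lit 91, nat_lit 100, nat_lit 132255701⟩]⟩
noncomputable def p094_l34 : Lf2 := ⟨nat_lit 0, nat_lit 5, [nat_lit 4, nat_lit 5, nat_lit 5, nat_lit 20], false, nat_lit 160, nat_lit 276, nat_lit 48, nat_lit 304, ⟨nat_lit 751, nat_lit 249, nat_lit 0, nat_lit 9, nat_lit 365, nat_lit 249, nat_lit 167, nat_lit 0, nat_lit 0, nat_lit 0, nat_lit 0, nat_lit 0, nat_lit 32254310, nat_lit 27111660, nat_lit 7634030, nat_lit 5175996, true, true⟩,
 nat_lit 0, nat_lit 0, nat_lit 6555, nat_lit 0, nat_lit 3369, nat_lit 4820, nat_lit 534, nat_lit 0, nat_lit 0, nat_lit 625, nat_lit 0, nat_lit 0, nat_lit 0, nat_lit 0, nat_lit 0, nat_lit 249000, nat_lit 0, nat_lit 0, [(nat_lit 21, [(nat_lit 2, nat_lit 249)])],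
 ⟨p094_k11, nat_lit 0, nat_lit 0, nat_lit 87, nat_lit 0, nat_lit 0, [nat_lit 1854446400, nat_lit 2621253601, nat_lit 3416400199], [], [nat_lit 27230369005, nat_lit 28100653039, nat_lit 29183344453, nat_lit 29992228936, nat_lit 29534278228, nat_lit 30303340415, nat_lit 31293645404, nat_lit 32001652701], nat_lit 0, nat_lit 0, nat_lit 0, nat_lit 0, nat_lit 0, nat_lit 0, [], [nat_lit 78, nat_lit 40, nat_lit 40, nat_lit 80, nat_lit 22, nat_lit 203, nat_lit 0, nat_lit 6]⟩, ⟨p094_k33, nat_lit 0, nat_lit 0, nat_lit 630, nat_lit 0, nat_lit 1365598, [nat_lit 2464782000, nat_lit 3520688000, nat_lit 4693750000], [], [nat_lit 21930623666, nat_lit 22012068669, nat_lit 22892785340, nat_lit 22963626743, nat_lit 21645647343, nat_lit 21702227991, nat_lit 22371036796, nat_lit 22419349018], nat_lit 1271250, nat_lit 1271250, nat_lit 1271250, nat_lit 1271250, nat_lit 279600, nat_lit 2202800, [nat_lit 780000, nat_lit 1100000, nat_lit 1442500],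 [nat_lit 59, nat_lit 40, nat_lit 40, nat_lit 80, nat_lit 3, nat_lit 317, nat_lit 100, nat_lit 11]⟩,
 ⟨nat_lit 3162, nat_lit 3873, ⟨.ofNat (nat_lit 883361), .ofNat (nat_lit 947904), .ofNat (nat_lit 888802), .ofNat (nat_lit 953347), .ofNat (nat_lit 871168), .ofNat (nat_lit 932143), .ofNat (nat_lit 876699), .ofNat (nat_lit 937676)⟩, ⟨.ofNat (nat_lit 304717), .ofNat (nat_lit 491830), .ofNat (nat_lit 348304), .ofNat (nat_lit 535416), .ofNat (nat_lit 306116), .ofNat (nat_lit 482881), .ofNat (nat_lit 350426), .ofNat (nat_lit 527190)⟩⟩, [⟨nat_lit 13, nat_lit 73, nat_lit 38, nat_lit 100, nat_lit 19540966⟩, ⟨nat_lit 16, nat_lit 67, nat_lit 100, nat_lit 88, nat_lit 422931619⟩, ⟨nat_lit 7, nat_lit 100, nat_lit 89, nat_lit 95, nat_lit 159069485⟩]⟩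
noncomputable def p094_l35 : Lf2 := ⟨nat_lit 0, nat_lit 10, [nat_lit 0, nat_lit 5, nat_lit 5, nat_lit 20], false, nat_lit 160, nat_lit 276, nat_lit 16, nat_lit 320, ⟨nat_lit 1000, nat_lit 0, nat_lit 0, nat_lit 0, nat_lit 0, nat_lit 0, nat_lit 0, nat_lit 0, nat_lit 0, nat_lit 0, nat_lit 0, nat_lit 0, nat_lit 0, nat_lit 0, nat_lit 0, nat_lit 0, false, false⟩,
 nat_lit 0, nat_lit 0, nat_lit 8845, nat_lit 0, nat_lit 4158, nat_lit 6123, nat_lit 668, nat_lit 0, nat_lit 0, nat_lit 1435, nat_lit 0, nat_lit 0, nat_lit 0, nat_lit 0, nat_lit 0, nat_lit 0, nat_lit 0, nat_lit 0, [],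
 ⟨p094_k34, nat_lit 0, nat_lit 0, nat_lit 93, nat_lit 0, nat_lit 0, [nat_lit 2032000001, nat_lit 4688000000, nat_lit 6250000000], [], [nat_lit 25937568465, nat_lit 26430205589, nat_lit 30186094356, nat_lit 30627272048, nat_lit 28519792551, nat_lit 28968474901, nat_lit 32190568426, nat_lit 32600156708], nat_lit 0, nat_lit 0, nat_lit 0, nat_lit 0, nat_lit 0, nat_lit 0, [], [nat_lit 6, nat_lit 40, nat_lit 40, nat_lit 80, nat_lit 3, nat_lit 289, nat_lit 75, nat_lit 9]⟩, ⟨p094_k24, nat_lit 0, nat_lit 0, nat_lit 574, nat_lit 0, nat_lit 1045609, [nat_lit 3282000000, nat_lit 6250000000, nat_lit 7968000000], [], [nat_lit 29113218949, nat_lit 29684809312, nat_lit 32128394474, nat_lit 32899676819, nat_lit 29041194245, nat_lit 29367383289, nat_lit 31010057752, nat_lit 31384176145], nat_lit 1271250, nat_lit 1271250, nat_lit 1271250, nat_lit 1271250, nat_lit 88400, nat_lit 2281000, [nat_lit 780000, nat_lit 1435000, nat_lit 1271250],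 [nat_lit 18, nat_lit 40, nat_lit 40, nat_lit 80, nat_lit 2, nat_lit 317, nat_lit 100, nat_lit 9]⟩,
 zbF0, [⟨nat_lit 4, nat_lit 100, nat_lit 71, nat_lit 89, nat_lit 511457265⟩, ⟨nat_lit 7, nat_lit 100, nat_lit 93, nat_lit 97, nat_lit 182325868⟩]⟩
noncomputable def p094_l36 : Lf2 := ⟨nat_lit 0, nat_lit 10, [nat_lit 0, nat_lit 5, nat_lit 5, nat_lit 20], false, nat_lit 160, nat_lit 264, nat_lit 16, nat_lit 320, ⟨nat_lit 1000, nat_lit 0, nat_lit 0, nat_lit 0, nat_lit 0, nat_lit 0, nat_lit 0, nat_lit 0, nat_lit 0, nat_lit 0, nat_lit 0, nat_lit 0, nat_lit 0, nat_lit 0, nat_lit 0, nat_lit 0, false, false⟩,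
 nat_lit 0, nat_lit 0, nat_lit 8841, nat_lit 0, nat_lit 3780, nat_lit 6120, nat_lit 731, nat_lit 0, nat_lit 0, nat_lit 1436, nat_lit 0, nat_lit 0, nat_lit 0, nat_lit 0, nat_lit 0, nat_lit 0, nat_lit 0, nat_lit 0, [],
 ⟨p094_k35, nat_lit 0, nat_lit 0, nat_lit 84, nat_lit 0, nat_lit 0, [nat_lit 2032000001, nat_lit 4688000000], [], [nat_lit 25788842956, nat_lit 26040130736, nat_lit 29851754096, nat_lit 30097636093, nat_lit 27966369708, nat_lit 28177082836, nat_lit 31609842371, nat_lit 31815961309], nat_lit 0, nat_lit 0, nat_lit 0, nat_lit 0, nat_lit 0, nat_lit 0, [], [nat_lit 24, nat_lit 40, nat_lit 40, nat_lit 80, nat_lit 33, nat_lit 203, nat_lit 0, nat_lit 6]⟩, ⟨p094_k24, nat_lit 0, nat_lit 0, nat_lit 606, nat_lit 0, nat_lit 1102997, [nat_lit 3282000000, nat_lit 6250000000, nat_lit 7968000000], [], [nat_lit 29579293800, nat_lit 30076534217, nat_lit 31988538892, nat_lit 32645244693, nat_lit 29057537300, nat_lit 29384131360,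 nat_lit 30919814568, nat_lit 31212145025], nat_lit 1271250, nat_lit 1271250, nat_lit 1271250, nat_lit 1271250, nat_lit 88400, nat_lit 2281000, [nat_lit 780000, nat_lit 1435000, nat_lit 1271250], [nat_lit 18, nat_lit 40, nat_lit 40, nat_lit 80, nat_lit 2, nat_lit 317, nat_lit 100, nat_lit 9]⟩,
 zbF0, [⟨nat_lit 4, nat_lit 100, nat_lit 66, nat_lit 88, nat_lit 539920107⟩, ⟨nat_lit 7, nat_lit 100, nat_lit 93, nat_lit 97, nat_lit 183718217⟩]⟩
noncomputable def p094_l37 : Lf2 := ⟨nat_lit 0, nat_lit 10, [nat_lit 0, nat_lit 5, nat_lit 5, nat_lit 20], false, nat_lit 160, nat_lit 256, nat_lit 16, nat_lit 320, ⟨nat_lit 677, nat_lit 323, nat_lit 0, nat_lit 8, nat_lit 346, nat_lit 323, nat_lit 161, nat_lit 0, nat_lit 0, nat_lit 0, nat_lit 0, nat_lit 0, nat_lit 33828503, nat_lit 25729095, nat_lit 7442402, nat_lit 5125851, true, true⟩,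
 nat_lit 0, nat_lit 0, nat_lit 5953, nat_lit 0, nat_lit 3340, nat_lit 4121, nat_lit 443, nat_lit 0, nat_lit 0, nat_lit 921, nat_lit 0, nat_lit 0, nat_lit 0, nat_lit 0, nat_lit 0, nat_lit 129200, nat_lit 0, nat_lit 0, [(nat_lit 21, [(nat_lit 1, nat_lit 323)])],
 ⟨p094_k36, nat_lit 0, nat_lit 0, nat_lit 85, nat_lit 0, nat_lit 0, [nat_lit 1813393601, nat_lit 3653108000], [], [nat_lit 26066684556, nat_lit 26305684896, nat_lit 29516348258, nat_lit 29714882106, nat_lit 28003269377, nat_lit 28208107552, nat_lit 31091079053, nat_lit 31276401465], nat_lit 0, nat_lit 0, nat_lit 0, nat_lit 0, nat_lit 0, nat_lit 0, [], [nat_lit 24, nat_lit 40, nat_lit 40, nat_lit 80, nat_lit 33, nat_lit 203, nat_lit 0, nat_lit 6]⟩, ⟨p094_k24, nat_lit 0, nat_lit 0, nat_lit 628, nat_lit 0, nat_lit 1161831, [nat_lit 2221914000, nat_lit 4231250000, nat_lit 5394336000], [], [nat_lit 20645915977, nat_lit 20937623116, nat_lit 22085566019, nat_lit 22312559908,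 nat_lit 19971061157, nat_lit 20158891558, nat_lit 21061201917, nat_lit 21259322722], nat_lit 1271250, nat_lit 1271250, nat_lit 1271250, nat_lit 1271250, nat_lit 88400, nat_lit 2281000, [nat_lit 780000, nat_lit 1435000, nat_lit 1271250], [nat_lit 18, nat_lit 40, nat_lit 40, nat_lit 80, nat_lit 2, nat_lit 317, nat_lit 100, nat_lit 9]⟩,
 ⟨nat_lit 3162, nat_lit 3355, ⟨.ofNat (nat_lit 795830), .ofNat (nat_lit 913376), .ofNat (nat_lit 817876), .ofNat (nat_lit 935423), .ofNat (nat_lit 793631), .ofNat (nat_lit 909444), .ofNat (nat_lit 815785), .ofNat (nat_lit 931599)⟩, ⟨.ofNat (nat_lit 305848), .ofNat (nat_lit 454324), .ofNat (nat_lit 349943), .ofNat (nat_lit 498420), .ofNat (nat_lit 306116), .ofNat (nat_lit 452404), .ofNat (nat_lit 350426), .ofNat (nat_lit 496714)⟩⟩, [⟨nat_lit 4, nat_lit 100, nat_lit 62, nat_lit 87, nat_lit 415978463⟩, ⟨nat_lit 7, nat_lit 100, nat_lit 93, nat_lit 97, nat_lit 122926794⟩]⟩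
noncomputable def b_V_800_700_20_17 : St := ⟨true, nat_lit 0, nat_lit 1, nat_lit 1, nat_lit 120, nat_lit 320, nat_lit 360, nat_lit 300, nat_lit 320, nat_lit 320, nat_lit 400, nat_lit 80, nat_lit 120, nat_lit 160, nat_lit 300, nat_lit 16, nat_lit 336, nat_lit 0, nat_lit 40, nat_lit 0, nat_lit 0, nat_lit 0, nat_lit 0⟩
theorem d_V_800_700_20_17 (h : EB TB.env) : Dead b_V_800_700_20_17 := chkB_sound0 h (T :=
(.trX (nat_lit 19) (nat_lit 94) (nat_lit 88) (nat_lit 100) (nat_lit 320) (.spl (nat_lit 8) (nat_lit 800)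
(.leaf p094_l22)
(.spl (nat_lit 0) (nat_lit 340)
(.spl (nat_lit 1) (nat_lit 310)
(.spl (nat_lit 0) (nat_lit 330)
(.leaf p094_l23)
(.trX (nat_lit 16) (nat_lit 83) (nat_lit 98) (nat_lit 100) (nat_lit 288) (.leaf p094_l24)))
(.trX (nat_lit 19) (nat_lit 91) (nat_lit 91) (nat_lit 100) (nat_lit 312) (.spl (nat_lit 0) (nat_lit 330)
(.leaf p094_l25)
(.trX (nat_lit 16) (nat_lit 83) (nat_lit 98) (nat_lit 100) (nat_lit 288) (.leaf p094_l26)))))
(.trX (nat_lit 16) (nat_lit 77) (nat_lit 100) (nat_lit 99) (nat_lit 276) (.spl (nat_lit 6) (nat_lit 20)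
(.spl (nat_lit 2) (nat_lit 360)
(.spl (nat_lit 1) (nat_lit 310)
(.spl (nat_lit 0) (nat_lit 350)
(.leaf p094_l27)
(.trX (nat_lit 16) (nat_lit 69) (nat_lit 100) (nat_lit 96) (nat_lit 264) (.leaf p094_l28)))
(.trX (nat_lit 19) (nat_lit 91) (nat_lit 91) (nat_lit 100) (nat_lit 312) (.leaf p094_l29)))
(.trZ (nat_lit 9) (nat_lit 100) (nat_lit 61) (nat_lit 68) (nat_lit 48) (.spl (nat_lit 1) (nat_lit 310)
(.spl (nat_lit 4) (nat_lit 240)
(.leaf p094_l30)
(.trZ (nat_lit 9) (nat_lit 100) (nat_lit 61) (nat_lit 92) (nat_lit 112) (.spl (nat_lit 0) (nat_lit 350)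
(.leaf p094_l31)
(.trX (nat_lit 13) (nat_lit 79) (nat_lit 31) (nat_lit 100) (nat_lit 396) (.trX (nat_lit 16) (nat_lit 69) (nat_lit 100) (nat_lit 96) (nat_lit 264) (.leaf p094_l32))))))
(.trX (nat_lit 19) (nat_lit 91) (nat_lit 91) (nat_lit 100) (nat_lit 312) (.spl (nat_lit 1) (nat_lit 315)
(.leaf p094_l33)
(.trX (nat_lit 19) (nat_lit 89) (nat_lit 93) (nat_lit 100) (nat_lit 304) (.leaf p094_l34)))))))
(.spl (nat_lit 0) (nat_lit 350)
(.leaf p094_l35)
(.trX (nat_lit 13) (nat_lit 83) (nat_lit 25) (nat_lit 100) (nat_lit 396) (.trX (nat_lit 16) (nat_lit 69) (nat_lit 100) (nat_lit 96) (nat_lit 264) (.spl (nat_lit 0) (nat_lit 355)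
(.leaf p094_l36)
(.trX (nat_lit 16) (nat_lit 66) (nat_lit 100) (nat_lit 95) (nat_lit 256) (.leaf p094_l37)))))))))))) (by decide +kernel)
noncomputable def p094_l38 : Lf2 := ⟨nat_lit 0, nat_lit 10, [nat_lit 0, nat_lit 5, nat_lit 5, nat_lit 20], false, nat_lit 0, nat_lit 300, nat_lit 0, nat_lit 336, ⟨nat_lit 551, nat_lit 449, nat_lit 0, nat_lit 7, nat_lit 276, nat_lit 449, nat_lit 110, nat_lit 0, nat_lit 0, nat_lit 0, nat_lit 0, nat_lit 0, nat_lit 0, nat_lit 0, nat_lit 0, nat_lit 5000000, false, false⟩,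
 nat_lit 0, nat_lit 0, nat_lit 0, nat_lit 0, nat_lit 6076, nat_lit 4401, nat_lit 0, nat_lit 0, nat_lit 0, nat_lit 181, nat_lit 0, nat_lit 0, nat_lit 0, nat_lit 0, nat_lit 0, nat_lit 112250, nat_lit 0, nat_lit 0, [(nat_lit 18, [(nat_lit 0, nat_lit 449)]), (nat_lit 21, [(nat_lit 0, nat_lit 449)])],
 ⟨p094_k23, nat_lit 0, nat_lit 0, nat_lit 180, nat_lit 0, nat_lit 0, [nat_lit 1819353601, nat_lit 3556520000, nat_lit 4594088000], [], [nat_lit 22129141688, nat_lit 26709064912, nat_lit 38273093456, nat_lit 41004298192, nat_lit 24875333458, nat_lit 27745546334, nat_lit 34314995568, nat_lit 36092477028], nat_lit 0, nat_lit 0, nat_lit 0, nat_lit 0, nat_lit 0, nat_lit 0, [], [nat_lit 6, nat_lit 40, nat_lit 40, nat_lit 80, nat_lit 3, nat_lit 401, nat_lit 175, nat_lit 15]⟩, ⟨p094_k37, nat_lit 0, nat_lit 0, nat_lit 219, nat_lit 0, nat_lit 0, [nat_lit 1808382000, nat_lit 3443750000, nat_lit 5422942000], [], [nat_lit 15774826885,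 nat_lit 17549864139, nat_lit 22956210305, nat_lit 24034858484, nat_lit 16834634284, nat_lit 17804902600, nat_lit 20165197097, nat_lit 20950384420], nat_lit 0, nat_lit 0, nat_lit 0, nat_lit 0, nat_lit 0, nat_lit 0, [], [nat_lit 8, nat_lit 40, nat_lit 40, nat_lit 80, nat_lit 1, nat_lit 428, nat_lit 200, nat_lit 12]⟩,
 ⟨nat_lit 3162, nat_lit 4473, ⟨.ofNat (nat_lit 415764), .ofNat (nat_lit 926092), .ofNat (nat_lit 458716), .ofNat (nat_lit 969090), .ofNat (nat_lit 435680), .ofNat (nat_lit 893321), .ofNat (nat_lit 479808), .ofNat (nat_lit 937496)⟩, ⟨.ofNat (nat_lit 0), .ofNat (nat_lit 540545), .ofNat (nat_lit 0), .ofNat (nat_lit 583678), .ofNat (nat_lit 0), .ofNat (nat_lit 519453), .ofNat (nat_lit 0), .ofNat (nat_lit 563762)⟩⟩, [⟨nat_lit 16, nat_lit 87, nat_lit 95, nat_lit 100, nat_lit 67063350⟩, ⟨nat_lit 19, nat_lit 100, nat_lit 80, nat_lit 100, nat_lit 58470935⟩]⟩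
noncomputable def p094_l39 : Lf2 := ⟨nat_lit 0, nat_lit 10, [nat_lit 0, nat_lit 5, nat_lit 5, nat_lit 20], true, nat_lit 0, nat_lit 300, nat_lit 0, nat_lit 336, ⟨nat_lit 0, nat_lit 1000, nat_lit 0, nat_lit 7, nat_lit 224, nat_lit 1000, nat_lit 110, nat_lit 0, nat_lit 0, nat_lit 0, nat_lit 0, nat_lit 0, nat_lit 0, nat_lit 0, nat_lit 0, nat_lit 5000000, false, false⟩,
 nat_lit 0, nat_lit 0, nat_lit 0, nat_lit 0, nat_lit 4973, nat_lit 0, nat_lit 0, nat_lit 0, nat_lit 0, nat_lit 0, nat_lit 0, nat_lit 0, nat_lit 0, nat_lit 0, nat_lit 0, nat_lit 250000, nat_lit 0, nat_lit 0, [(nat_lit 18, [(nat_lit 0, nat_lit 1000)]), (nat_lit 21, [(nat_lit 0, nat_lit 1000)])],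
 ⟨p094_k23, nat_lit 0, nat_lit 0, nat_lit 150, nat_lit 0, nat_lit 0, [nat_lit 1558400000, nat_lit 2168000000, nat_lit 2562000000], [], [nat_lit 19649523424, nat_lit 24287966676, nat_lit 23136765792, nat_lit 26971953684, nat_lit 23360591424, nat_lit 26205532550, nat_lit 25145086467, nat_lit 27712564704], nat_lit 0, nat_lit 0, nat_lit 0, nat_lit 0, nat_lit 0, nat_lit 0, [], [nat_lit 6, nat_lit 40, nat_lit 40, nat_lit 80, nat_lit 3, nat_lit 373, nat_lit 150, nat_lit 14]⟩, C1.Rw.none,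
 ⟨nat_lit 3162, nat_lit 4473, ⟨.ofNat (nat_lit 415764), .ofNat (nat_lit 653959), .ofNat (nat_lit 458716), .ofNat (nat_lit 696911), .ofNat (nat_lit 435680), .ofNat (nat_lit 649288), .ofNat (nat_lit 479808), .ofNat (nat_lit 693416)⟩, ⟨.ofNat (nat_lit 0), .ofNat (nat_lit 540545), .ofNat (nat_lit 0), .ofNat (nat_lit 583678), .ofNat (nat_lit 0), .ofNat (nat_lit 519453), .ofNat (nat_lit 0), .ofNat (nat_lit 563762)⟩⟩, [⟨nat_lit 16, nat_lit 87, nat_lit 95, nat_lit 100, nat_lit 98736516⟩]⟩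
noncomputable def p094_l40 : Lf2 := ⟨nat_lit 0, nat_lit 10, [nat_lit 0, nat_lit 5, nat_lit 5, nat_lit 20], false, nat_lit 0, nat_lit 160, nat_lit 0, nat_lit 336, ⟨nat_lit 111, nat_lit 889, nat_lit 0, nat_lit 7, nat_lit 321, nat_lit 889, nat_lit 65, nat_lit 0, nat_lit 0, nat_lit 0, nat_lit 0, nat_lit 0, nat_lit 0, nat_lit 0, nat_lit 0, nat_lit 5000000, true, true⟩,
 nat_lit 0, nat_lit 0, nat_lit 1337, nat_lit 0, nat_lit 3445, nat_lit 850, nat_lit 0, nat_lit 0, nat_lit 0, nat_lit 56, nat_lit 0, nat_lit 0, nat_lit 0, nat_lit 0, nat_lit 0, nat_lit 392800, nat_lit 0, nat_lit 0, [(nat_lit 18, [(nat_lit 1, nat_lit 827), (nat_lit 2, nat_lit 62)]), (nat_lit 21, [(nat_lit 1, nat_lit 827), (nat_lit 2, nat_lit 62)])],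
 ⟨p094_k23, nat_lit 0, nat_lit 0, nat_lit 180, nat_lit 0, nat_lit 0, [nat_lit 1487324001, nat_lit 2211612001, nat_lit 2287853200], [], [nat_lit 24270077482, nat_lit 26425372342, nat_lit 31304942761, nat_lit 33021075940, nat_lit 24017967222, nat_lit 25859949142, nat_lit 30004778842, nat_lit 31306497042], nat_lit 0, nat_lit 0, nat_lit 0, nat_lit 0, nat_lit 0, nat_lit 0, [], [nat_lit 6, nat_lit 40, nat_lit 40, nat_lit 80, nat_lit 3, nat_lit 249, nat_lit 40, nat_lit 9]⟩, ⟨p094_k37, nat_lit 0, nat_lit 0, nat_lit 966, nat_lit 0, nat_lit 1723781, [nat_lit 364302000, nat_lit 693750000, nat_lit 1092462000], [], [nat_lit 4576972648, nat_lit 4614540664, nat_lit 4729950960, nat_lit 4742231964, nat_lit 4077337118, nat_lit 4089642741, nat_lit 4132863129, nat_lit 4175171386], nat_lit 1271250, nat_lit 1271250, nat_lit 1271250, nat_lit 1271250, nat_lit 0, nat_lit 2373000, [nat_lit 780000, nat_lit 1435000, nat_lit 1271250], [nat_lit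 8, nat_lit 40, nat_lit 40, nat_lit 80, nat_lit 1, nat_lit 428, nat_lit 200, nat_lit 12]⟩,
 ⟨nat_lit 3162, nat_lit 4473, ⟨.ofNat (nat_lit 653959), .ofNat (nat_lit 926092), .ofNat (nat_lit 696911), .ofNat (nat_lit 969090), .ofNat (nat_lit 649288), .ofNat (nat_lit 893321), .ofNat (nat_lit 693416), .ofNat (nat_lit 937496)⟩, ⟨.ofNat (nat_lit 0), .ofNat (nat_lit 302621), .ofNat (nat_lit 0), .ofNat (nat_lit 345754), .ofNat (nat_lit 0), .ofNat (nat_lit 306116), .ofNat (nat_lit 0), .ofNat (nat_lit 350426)⟩⟩, [⟨nat_lit 13, nat_lit 82, nat_lit 29, nat_lit 100, nat_lit 174639109⟩, ⟨nat_lit 10, nat_lit 100, nat_lit 47, nat_lit 81, nat_lit 33162418⟩]⟩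
noncomputable def p094_l41 : Lf2 := ⟨nat_lit 0, nat_lit 10, [nat_lit 0, nat_lit 5, nat_lit 5, nat_lit 20], true, nat_lit 160, nat_lit 300, nat_lit 0, nat_lit 336, ⟨nat_lit 0, nat_lit 1000, nat_lit 0, nat_lit 7, nat_lit 291, nat_lit 1000, nat_lit 176, nat_lit 0, nat_lit 0, nat_lit 0, nat_lit 0, nat_lit 0, nat_lit 0, nat_lit 0, nat_lit 0, nat_lit 5000000, true, false⟩,
 nat_lit 0, nat_lit 0, nat_lit 0, nat_lit 0, nat_lit 3821, nat_lit 0, nat_lit 0, nat_lit 0, nat_lit 0, nat_lit 0, nat_lit 0, nat_lit 0, nat_lit 0, nat_lit 0, nat_lit 0, nat_lit 250000, nat_lit 0, nat_lit 0, [(nat_lit 18, [(nat_lit 0, nat_lit 1000)]), (nat_lit 21, [(nat_lit 0, nat_lit 1000)])],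
 ⟨p094_k23, nat_lit 0, nat_lit 0, nat_lit 60, nat_lit 0, nat_lit 0, [nat_lit 1558400000, nat_lit 2168000000, nat_lit 2562000000], [], [nat_lit 20463375096, nat_lit 22915814352, nat_lit 24048230020, nat_lit 26181583916, nat_lit 24958747255, nat_lit 26916090794, nat_lit 27733189810, nat_lit 29626581397], nat_lit 0, nat_lit 0, nat_lit 0, nat_lit 0, nat_lit 0, nat_lit 0, [], [nat_lit 6, nat_lit 40, nat_lit 40, nat_lit 80, nat_lit 3, nat_lit 289, nat_lit 75, nat_lit 9]⟩, C1.Rw.none,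
 ⟨nat_lit 3162, nat_lit 4473, ⟨.ofNat (nat_lit 653959), .ofNat (nat_lit 790054), .ofNat (nat_lit 675435), .ofNat (nat_lit 811546), .ofNat (nat_lit 649288), .ofNat (nat_lit 771333), .ofNat (nat_lit 671352), .ofNat (nat_lit 793414)⟩, ⟨.ofNat (nat_lit 302621), .ofNat (nat_lit 540545), .ofNat (nat_lit 345754), .ofNat (nat_lit 583678), .ofNat (nat_lit 306116), .ofNat (nat_lit 519453), .ofNat (nat_lit 350426), .ofNat (nat_lit 563762)⟩⟩, [⟨nat_lit 16, nat_lit 87, nat_lit 95, nat_lit 100, nat_lit 252678600⟩]⟩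
noncomputable def p094_l42 : Lf2 := ⟨nat_lit 0, nat_lit 10, [nat_lit 0, nat_lit 5, nat_lit 5, nat_lit 20], true, nat_lit 160, nat_lit 300, nat_lit 16, nat_lit 336, ⟨nat_lit 0, nat_lit 1000, nat_lit 0, nat_lit 8, nat_lit 330, nat_lit 1000, nat_lit 176, nat_lit 0, nat_lit 0, nat_lit 0, nat_lit 0, nat_lit 0, nat_lit 0, nat_lit 0, nat_lit 0, nat_lit 5000000, true, true⟩,
 nat_lit 0, nat_lit 0, nat_lit 0, nat_lit 0, nat_lit 3632, nat_lit 0, nat_lit 0, nat_lit 0, nat_lit 0, nat_lit 0, nat_lit 0, nat_lit 0, nat_lit 0, nat_lit 0, nat_lit 0, nat_lit 250000, nat_lit 0, nat_lit 0, [(nat_lit 18, [(nat_lit 0, nat_lit 1000)]), (nat_lit 21, [(nat_lit 0, nat_lit 1000)])],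
 ⟨p094_k23, nat_lit 0, nat_lit 0, nat_lit 73, nat_lit 0, nat_lit 0, [nat_lit 1558400000, nat_lit 2168000000, nat_lit 2562000000], [], [nat_lit 24210072960, nat_lit 26242215872, nat_lit 26242215872, nat_lit 28124936800, nat_lit 27825495520, nat_lit 29448517136, nat_lit 29448517136, nat_lit 31122585824], nat_lit 0, nat_lit 0, nat_lit 0, nat_lit 0, nat_lit 0, nat_lit 0, [], [nat_lit 6, nat_lit 40, nat_lit 40, nat_lit 80, nat_lit 3, nat_lit 289, nat_lit 75, nat_lit 9]⟩, C1.Rw.none,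
 ⟨nat_lit 3162, nat_lit 4473, ⟨.ofNat (nat_lit 790054), .ofNat (nat_lit 858073), .ofNat (nat_lit 811546), .ofNat (nat_lit 879572), .ofNat (nat_lit 771333), .ofNat (nat_lit 832328), .ofNat (nat_lit 793414), .ofNat (nat_lit 854415)⟩, ⟨.ofNat (nat_lit 302621), .ofNat (nat_lit 540545), .ofNat (nat_lit 345754), .ofNat (nat_lit 583678), .ofNat (nat_lit 306116), .ofNat (nat_lit 519453), .ofNat (nat_lit 350426), .ofNat (nat_lit 563762)⟩⟩, [⟨nat_lit 16, nat_lit 87, nat_lit 95, nat_lit 100, nat_lit 233027027⟩]⟩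
noncomputable def p094_l43 : Lf2 := ⟨nat_lit 0, nat_lit 10, [nat_lit 0, nat_lit 5, nat_lit 5, nat_lit 20], false, nat_lit 160, nat_lit 300, nat_lit 48, nat_lit 336, ⟨nat_lit 175, nat_lit 825, nat_lit 0, nat_lit 9, nat_lit 356, nat_lit 825, nat_lit 177, nat_lit 0, nat_lit 0, nat_lit 0, nat_lit 0, nat_lit 0, nat_lit 0, nat_lit 0, nat_lit 0, nat_lit 5000000, true, true⟩,
 nat_lit 0, nat_lit 0, nat_lit 2023, nat_lit 0, nat_lit 3404, nat_lit 1287, nat_lit 20, nat_lit 0, nat_lit 0, nat_lit 93, nat_lit 0, nat_lit 0, nat_lit 0, nat_lit 0, nat_lit 0, nat_lit 543000, nat_lit 0, nat_lit 0, [(nat_lit 18, [(nat_lit 1, nat_lit 470), (nat_lit 2, nat_lit 355)])],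
 ⟨p094_k23, nat_lit 0, nat_lit 0, nat_lit 87, nat_lit 0, nat_lit 0, [nat_lit 1616885334, nat_lit 2115826667, nat_lit 1857990000], [], [nat_lit 26719174758, nat_lit 27544051278, nat_lit 28656526614, nat_lit 29398871190, nat_lit 29640094134, nat_lit 30293506512, nat_lit 31188173072, nat_lit 31920488242], nat_lit 0, nat_lit 0, nat_lit 0, nat_lit 0, nat_lit 0, nat_lit 0, [], [nat_lit 6, nat_lit 40, nat_lit 40, nat_lit 80, nat_lit 3, nat_lit 289, nat_lit 75, nat_lit 9]⟩, ⟨p094_k37, nat_lit 0, nat_lit 0, nat_lit 667, nat_lit 0, nat_lit 1200600, [nat_lit 574350000, nat_lit 1093750000, nat_lit 1722350000], [], [nat_lit 6558523037, nat_lit 6586953316, nat_lit 6773791162, nat_lit 6797154386, nat_lit 6183375935, nat_lit 6194365440, nat_lit 6307291321, nat_lit 6333752573], nat_lit 1271250, nat_lit 1271250, nat_lit 1271250, nat_lit 1271250, nat_lit 279600, nat_lit 2443200, [nat_lit 780000, nat_lit 1435000, nat_lit 1271250], [nat_lit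 8, nat_lit 40, nat_lit 40, nat_lit 80, nat_lit 1, nat_lit 317, nat_lit 100, nat_lit 8]⟩,
 ⟨nat_lit 3872, nat_lit 4473, ⟨.ofNat (nat_lit 858139), .ofNat (nat_lit 926124), .ofNat (nat_lit 868913), .ofNat (nat_lit 936900), .ofNat (nat_lit 845220), .ofNat (nat_lit 909748), .ofNat (nat_lit 856107), .ofNat (nat_lit 920637)⟩, ⟨.ofNat (nat_lit 302621), .ofNat (nat_lit 540545), .ofNat (nat_lit 345754), .ofNat (nat_lit 583678), .ofNat (nat_lit 304717), .ofNat (nat_lit 530543), .ofNat (nat_lit 348304), .ofNat (nat_lit 574129)⟩⟩, [⟨nat_lit 13, nat_lit 90, nat_lit 20, nat_lit 100, nat_lit 246039326⟩, ⟨nat_lit 16, nat_lit 87, nat_lit 95, nat_lit 100, nat_lit 231463118⟩, ⟨nat_lit 19, nat_lit 100, nat_lit 80, nat_lit 100, nat_lit 26921603⟩]⟩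
noncomputable def p094_l44 : Lf2 := ⟨nat_lit 0, nat_lit 10, [nat_lit 0, nat_lit 5, nat_lit 5, nat_lit 20], true, nat_lit 160, nat_lit 276, nat_lit 48, nat_lit 336, ⟨nat_lit 0, nat_lit 1000, nat_lit 0, nat_lit 9, nat_lit 348, nat_lit 1000, nat_lit 167, nat_lit 0, nat_lit 0, nat_lit 0, nat_lit 0, nat_lit 0, nat_lit 0, nat_lit 0, nat_lit 0, nat_lit 5000000, true, true⟩,
 nat_lit 0, nat_lit 0, nat_lit 0, nat_lit 0, nat_lit 3348, nat_lit 0, nat_lit 85, nat_lit 0, nat_lit 0, nat_lit 0, nat_lit 0, nat_lit 0, nat_lit 0, nat_lit 0, nat_lit 0, nat_lit 250000, nat_lit 0, nat_lit 0, [(nat_lit 21, [(nat_lit 0, nat_lit 1000)])],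
 ⟨p094_k34, nat_lit 0, nat_lit 0, nat_lit 92, nat_lit 0, nat_lit 0, [nat_lit 1558400000, nat_lit 2146000001, nat_lit 2146000000], [], [nat_lit 27427478203, nat_lit 28247699443, nat_lit 28901738959, nat_lit 29656713536, nat_lit 29587659111, nat_lit 30268983672, nat_lit 30821521684, nat_lit 31602938914], nat_lit 0, nat_lit 0, nat_lit 0, nat_lit 0, nat_lit 0, nat_lit 0, [], [nat_lit 6, nat_lit 40, nat_lit 40, nat_lit 80, nat_lit 3, nat_lit 289, nat_lit 75, nat_lit 9]⟩, C1.Rw.none,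
 ⟨nat_lit 3162, nat_lit 3873, ⟨.ofNat (nat_lit 845258), .ofNat (nat_lit 896875), .ofNat (nat_lit 856147), .ofNat (nat_lit 907772), .ofNat (nat_lit 832432), .ofNat (nat_lit 881194), .ofNat (nat_lit 843501), .ofNat (nat_lit 892272)⟩, ⟨.ofNat (nat_lit 304717), .ofNat (nat_lit 491830), .ofNat (nat_lit 348304), .ofNat (nat_lit 535416), .ofNat (nat_lit 306116), .ofNat (nat_lit 482881), .ofNat (nat_lit 350426), .ofNat (nat_lit 527190)⟩⟩, [⟨nat_lit 13, nat_lit 80, nat_lit 34, nat_lit 100, nat_lit 380950855⟩, ⟨nat_lit 16, nat_lit 77, nat_lit 100, nat_lit 99, nat_lit 229081900⟩]⟩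
noncomputable def p094_l45 : Lf2 := ⟨nat_lit 0, nat_lit 10, [nat_lit 0, nat_lit 5, nat_lit 5, nat_lit 20], false, nat_lit 160, nat_lit 300, nat_lit 48, nat_lit 328, ⟨nat_lit 297, nat_lit 703, nat_lit 0, nat_lit 9, nat_lit 360, nat_lit 703, nat_lit 177, nat_lit 0, nat_lit 0, nat_lit 0, nat_lit 0, nat_lit 0, nat_lit 0, nat_lit 0, nat_lit 0, nat_lit 5000000, true, true⟩,
 nat_lit 0, nat_lit 0, nat_lit 2813, nat_lit 0, nat_lit 3543, nat_lit 1868, nat_lit 27, nat_lit 0, nat_lit 0, nat_lit 426, nat_lit 0, nat_lit 0, nat_lit 0, nat_lit 0, nat_lit 0, nat_lit 535600, nat_lit 0, nat_lit 0, [(nat_lit 18, [(nat_lit 1, nat_lit 279), (nat_lit 2, nat_lit 424)])],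
 ⟨p094_k23, nat_lit 0, nat_lit 0, nat_lit 87, nat_lit 0, nat_lit 0, [nat_lit 1715174667, nat_lit 2384257334, nat_lit 2215396400], [], [nat_lit 26987056075, nat_lit 27823487665, nat_lit 28956595327, nat_lit 29708078319, nat_lit 29900565917, nat_lit 30560757256, nat_lit 31468687032, nat_lit 32091285952], nat_lit 0, nat_lit 0, nat_lit 0, nat_lit 0, nat_lit 0, nat_lit 0, [], [nat_lit 6, nat_lit 40, nat_lit 40, nat_lit 80, nat_lit 3, nat_lit 289, nat_lit 75, nat_lit 9]⟩, ⟨p094_k38, nat_lit 0, nat_lit 0, nat_lit 624, nat_lit 0, nat_lit 1204845, [nat_lit 974754000, nat_lit 1856250000, nat_lit 2366496000], [], [nat_lit 10457811585, nat_lit 10503953459, nat_lit 10771259085, nat_lit 10810578762, nat_lit 10123545065, nat_lit 10145922863, nat_lit 10317016913, nat_lit 10355068982], nat_lit 1271250, nat_lit 1271250, nat_lit 1271250, nat_lit 1271250, nat_lit 279600, nat_lit 2383100, [nat_lit 780000, nat_lit 1435000, nat_lit 1271250],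 [nat_lit 18, nat_lit 40, nat_lit 40, nat_lit 80, nat_lit 2, nat_lit 317, nat_lit 100, nat_lit 9]⟩,
 ⟨nat_lit 3872, nat_lit 4473, ⟨.ofNat (nat_lit 868913), .ofNat (nat_lit 936900), .ofNat (nat_lit 879688), .ofNat (nat_lit 947674), .ofNat (nat_lit 856107), .ofNat (nat_lit 920637), .ofNat (nat_lit 866995), .ofNat (nat_lit 931525)⟩, ⟨.ofNat (nat_lit 302621), .ofNat (nat_lit 540545), .ofNat (nat_lit 345754), .ofNat (nat_lit 583678), .ofNat (nat_lit 304717), .ofNat (nat_lit 530543), .ofNat (nat_lit 348304), .ofNat (nat_lit 574129)⟩⟩, [⟨nat_lit 13, nat_lit 86, nat_lit 24, nat_lit 100, nat_lit 199029163⟩, ⟨nat_lit 16, nat_lit 87, nat_lit 95, nat_lit 100, nat_lit 249182748⟩, ⟨nat_lit 19, nat_lit 97, nat_lit 84, nat_lit 100, nat_lit 52332392⟩]⟩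
noncomputable def p094_l46 : Lf2 := ⟨nat_lit 0, nat_lit 10, [nat_lit 0, nat_lit 5, nat_lit 5, nat_lit 20], true, nat_lit 160, nat_lit 276, nat_lit 48, nat_lit 328, ⟨nat_lit 0, nat_lit 1000, nat_lit 0, nat_lit 9, nat_lit 353, nat_lit 1000, nat_lit 167, nat_lit 0, nat_lit 0, nat_lit 0, nat_lit 0, nat_lit 0, nat_lit 0, nat_lit 0, nat_lit 0, nat_lit 5000000, true, true⟩,
 nat_lit 0, nat_lit 0, nat_lit 0, nat_lit 0, nat_lit 3339, nat_lit 0, nat_lit 82, nat_lit 0, nat_lit 0, nat_lit 0, nat_lit 0, nat_lit 0, nat_lit 0, nat_lit 0, nat_lit 0, nat_lit 250000, nat_lit 0, nat_lit 0, [(nat_lit 21, [(nat_lit 0, nat_lit 1000)])],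
 ⟨p094_k34, nat_lit 0, nat_lit 0, nat_lit 96, nat_lit 0, nat_lit 0, [nat_lit 1558400000, nat_lit 2146000001, nat_lit 2146000000], [], [nat_lit 27454224604, nat_lit 28273697674, nat_lit 29111033112, nat_lit 29858119614, nat_lit 29615328069, nat_lit 30296157204, nat_lit 31002903091, nat_lit 31777144043], nat_lit 0, nat_lit 0, nat_lit 0, nat_lit 0, nat_lit 0, nat_lit 0, [], [nat_lit 6, nat_lit 40, nat_lit 40, nat_lit 80, nat_lit 3, nat_lit 289, nat_lit 75, nat_lit 9]⟩, C1.Rw.none,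
 ⟨nat_lit 3162, nat_lit 3873, ⟨.ofNat (nat_lit 856147), .ofNat (nat_lit 914224), .ofNat (nat_lit 867032), .ofNat (nat_lit 925121), .ofNat (nat_lit 843501), .ofNat (nat_lit 898367), .ofNat (nat_lit 854567), .ofNat (nat_lit 909444)⟩, ⟨.ofNat (nat_lit 304717), .ofNat (nat_lit 491830), .ofNat (nat_lit 348304), .ofNat (nat_lit 535416), .ofNat (nat_lit 306116), .ofNat (nat_lit 482881), .ofNat (nat_lit 350426), .ofNat (nat_lit 527190)⟩⟩, [⟨nat_lit 13, nat_lit 82, nat_lit 29, nat_lit 100, nat_lit 370659286⟩, ⟨nat_lit 16, nat_lit 77, nat_lit 100, nat_lit 99, nat_lit 227470511⟩]⟩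
noncomputable def p094_l47 : Lf2 := ⟨nat_lit 0, nat_lit 10, [nat_lit 0, nat_lit 5, nat_lit 5, nat_lit 20], true, nat_lit 160, nat_lit 300, nat_lit 0, nat_lit 320, ⟨nat_lit 0, nat_lit 1000, nat_lit 0, nat_lit 7, nat_lit 300, nat_lit 1000, nat_lit 176, nat_lit 0, nat_lit 0, nat_lit 0, nat_lit 0, nat_lit 0, nat_lit 0, nat_lit 0, nat_lit 0, nat_lit 5000000, true, false⟩,
 nat_lit 0, nat_lit 0, nat_lit 0, nat_lit 0, nat_lit 4466, nat_lit 0, nat_lit 0, nat_lit 0, nat_lit 0, nat_lit 0, nat_lit 0, nat_lit 0, nat_lit 0, nat_lit 0, nat_lit 0, nat_lit 250000, nat_lit 0, nat_lit 0, [(nat_lit 18, [(nat_lit 0, nat_lit 1000)]), (nat_lit 21, [(nat_lit 0, nat_lit 1000)])],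
 ⟨p094_k39, nat_lit 0, nat_lit 0, nat_lit 49, nat_lit 0, nat_lit 0, [nat_lit 1558400000, nat_lit 2562000000], [], [nat_lit 21113636296, nat_lit 23696700008, nat_lit 24763978920, nat_lit 26909521760, nat_lit 25518604014, nat_lit 27480834806, nat_lit 28219527978, nat_lit 30235885162], nat_lit 0, nat_lit 0, nat_lit 0, nat_lit 0, nat_lit 0, nat_lit 0, [], [nat_lit 69, nat_lit 40, nat_lit 40, nat_lit 80, nat_lit 64, nat_lit 289, nat_lit 75, nat_lit 9]⟩, C1.Rw.none,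
 ⟨nat_lit 3162, nat_lit 4473, ⟨.ofNat (nat_lit 675435), .ofNat (nat_lit 811546), .ofNat (nat_lit 696911), .ofNat (nat_lit 833022), .ofNat (nat_lit 671352), .ofNat (nat_lit 793414), .ofNat (nat_lit 693416), .ofNat (nat_lit 815478)⟩, ⟨.ofNat (nat_lit 302621), .ofNat (nat_lit 540545), .ofNat (nat_lit 345754), .ofNat (nat_lit 583678), .ofNat (nat_lit 306116), .ofNat (nat_lit 519453), .ofNat (nat_lit 350426), .ofNat (nat_lit 563762)⟩⟩, [⟨nat_lit 16, nat_lit 87, nat_lit 95, nat_lit 100, nat_lit 243259825⟩]⟩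
noncomputable def p094_l48 : Lf2 := ⟨nat_lit 0, nat_lit 10, [nat_lit 0, nat_lit 5, nat_lit 5, nat_lit 20], false, nat_lit 160, nat_lit 300, nat_lit 16, nat_lit 320, ⟨nat_lit 415, nat_lit 585, nat_lit 0, nat_lit 8, nat_lit 352, nat_lit 585, nat_lit 177, nat_lit 0, nat_lit 0, nat_lit 0, nat_lit 0, nat_lit 0, nat_lit 0, nat_lit 0, nat_lit 0, nat_lit 5000000, true, true⟩,
 nat_lit 0, nat_lit 0, nat_lit 3366, nat_lit 0, nat_lit 3670, nat_lit 2330, nat_lit 9, nat_lit 0, nat_lit 0, nat_lit 578, nat_lit 0, nat_lit 0, nat_lit 0, nat_lit 0, nat_lit 0, nat_lit 585000, nat_lit 0, nat_lit 0, [(nat_lit 18, [(nat_lit 2, nat_lit 585)])],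
 ⟨p094_k23, nat_lit 0, nat_lit 0, nat_lit 87, nat_lit 0, nat_lit 0, [nat_lit 1838872001, nat_lit 2557040001, nat_lit 2334478000], [], [nat_lit 25286428201, nat_lit 26221122861, nat_lit 29154765401, nat_lit 29914597881, nat_lit 28598505631, nat_lit 29330531566, nat_lit 31649978061, nat_lit 32250483651], nat_lit 0, nat_lit 0, nat_lit 0, nat_lit 0, nat_lit 0, nat_lit 0, [], [nat_lit 6, nat_lit 40, nat_lit 40, nat_lit 80, nat_lit 3, nat_lit 289, nat_lit 75, nat_lit 9]⟩, ⟨p094_k24, nat_lit 0, nat_lit 0, nat_lit 646, nat_lit 0, nat_lit 1210937, [nat_lit 1362030000, nat_lit 2593750000, nat_lit 3306720000], [], [nat_lit 13689824046, nat_lit 13778442850, nat_lit 14600439841, nat_lit 14703954158, nat_lit 13455110980, nat_lit 13505503795, nat_lit 14098606930, nat_lit 14150750520], nat_lit 1271250, nat_lit 1271250, nat_lit 1271250, nat_lit 1271250, nat_lit 88400, nat_lit 2281000, [nat_lit 780000, nat_lit 1435000, nat_lit 1271250],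 [nat_lit 18, nat_lit 40, nat_lit 40, nat_lit 80, nat_lit 2, nat_lit 317, nat_lit 100, nat_lit 9]⟩,
 ⟨nat_lit 3872, nat_lit 4473, ⟨.ofNat (nat_lit 811702), .ofNat (nat_lit 947674), .ofNat (nat_lit 822476), .ofNat (nat_lit 958448), .ofNat (nat_lit 802466), .ofNat (nat_lit 931525), .ofNat (nat_lit 813354), .ofNat (nat_lit 942413)⟩, ⟨.ofNat (nat_lit 302621), .ofNat (nat_lit 540545), .ofNat (nat_lit 345754), .ofNat (nat_lit 583678), .ofNat (nat_lit 304717), .ofNat (nat_lit 530543), .ofNat (nat_lit 348304), .ofNat (nat_lit 574129)⟩⟩, [⟨nat_lit 13, nat_lit 89, nat_lit 18, nat_lit 100, nat_lit 120839575⟩, ⟨nat_lit 4, nat_lit 100, nat_lit 81, nat_lit 92, nat_lit 308442155⟩, ⟨nat_lit 19, nat_lit 94, nat_lit 88, nat_lit 100, nat_lit 73388276⟩]⟩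
noncomputable def p094_l49 : Lf2 := ⟨nat_lit 0, nat_lit 10, [nat_lit 0, nat_lit 5, nat_lit 5, nat_lit 20], false, nat_lit 160, nat_lit 276, nat_lit 16, nat_lit 320, ⟨nat_lit 300, nat_lit 700, nat_lit 0, nat_lit 8, nat_lit 347, nat_lit 700, nat_lit 167, nat_lit 0, nat_lit 0, nat_lit 0, nat_lit 0, nat_lit 0, nat_lit 0, nat_lit 0, nat_lit 0, nat_lit 5000000, true, true⟩,
 nat_lit 0, nat_lit 0, nat_lit 2562, nat_lit 0, nat_lit 3220, nat_lit 1773, nat_lit 256, nat_lit 0, nat_lit 0, nat_lit 359, nat_lit 0, nat_lit 0, nat_lit 0, nat_lit 0, nat_lit 0, nat_lit 280000, nat_lit 0, nat_lit 0, [(nat_lit 21, [(nat_lit 1, nat_lit 700)])],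
 ⟨p094_k34, nat_lit 0, nat_lit 0, nat_lit 100, nat_lit 0, nat_lit 0, [nat_lit 1558240001, nat_lit 2451360000, nat_lit 2919400000], [], [nat_lit 25660866761, nat_lit 26550292321, nat_lit 29175284081, nat_lit 29905531761, nat_lit 28121356083, nat_lit 28858896130, nat_lit 31055958569, nat_lit 31810319701], nat_lit 0, nat_lit 0, nat_lit 0, nat_lit 0, nat_lit 0, nat_lit 0, [], [nat_lit 6, nat_lit 40, nat_lit 40, nat_lit 80, nat_lit 3, nat_lit 289, nat_lit 75, nat_lit 9]⟩, ⟨p094_k24, nat_lit 0, nat_lit 0, nat_lit 751, nat_lit 0, nat_lit 1454438, [nat_lit 984600000, nat_lit 1875000000, nat_lit 2390400000], [], [nat_lit 10209524951, nat_lit 10266135412, nat_lit 10800343619, nat_lit 10854585902, nat_lit 9950735880, nat_lit 9981659253, nat_lit 10313084562, nat_lit 10335265914], nat_lit 1271250, nat_lit 1271250, nat_lit 1271250, nat_lit 1271250, nat_lit 88400, nat_lit 2281000, [nat_lit 780000, nat_lit 1435000, nat_lit 1271250],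 [nat_lit 18, nat_lit 40, nat_lit 40, nat_lit 80, nat_lit 2, nat_lit 317, nat_lit 100, nat_lit 9]⟩,
 ⟨nat_lit 3162, nat_lit 3873, ⟨.ofNat (nat_lit 802484), .ofNat (nat_lit 931573), .ofNat (nat_lit 813366), .ofNat (nat_lit 942462), .ofNat (nat_lit 793588), .ofNat (nat_lit 915540), .ofNat (nat_lit 804650), .ofNat (nat_lit 926609)⟩, ⟨.ofNat (nat_lit 304717), .ofNat (nat_lit 491830), .ofNat (nat_lit 348304), .ofNat (nat_lit 535416), .ofNat (nat_lit 306116), .ofNat (nat_lit 482881), .ofNat (nat_lit 350426), .ofNat (nat_lit 527190)⟩⟩, [⟨nat_lit 13, nat_lit 86, nat_lit 23, nat_lit 100, nat_lit 172592011⟩, ⟨nat_lit 16, nat_lit 77, nat_lit 100, nat_lit 99, nat_lit 274811888⟩, ⟨nat_lit 19, nat_lit 94, nat_lit 88, nat_lit 100, nat_lit 50960349⟩]⟩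
noncomputable def p094_l50 : Lf2 := ⟨nat_lit 0, nat_lit 10, [nat_lit 0, nat_lit 5, nat_lit 5, nat_lit 20], false, nat_lit 160, nat_lit 300, nat_lit 16, nat_lit 312, ⟨nat_lit 433, nat_lit 567, nat_lit 0, nat_lit 8, nat_lit 357, nat_lit 567, nat_lit 177, nat_lit 0, nat_lit 0, nat_lit 0, nat_lit 0, nat_lit 0, nat_lit 0, nat_lit 0, nat_lit 0, nat_lit 5000000, true, true⟩,
 nat_lit 0, nat_lit 0, nat_lit 3372, nat_lit 0, nat_lit 3752, nat_lit 2430, nat_lit 0, nat_lit 0, nat_lit 0, nat_lit 438, nat_lit 0, nat_lit 0, nat_lit 0, nat_lit 0, nat_lit 0, nat_lit 567000, nat_lit 0, nat_lit 0, [(nat_lit 18, [(nat_lit 2, nat_lit 567)])],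
 ⟨p094_k23, nat_lit 0, nat_lit 0, nat_lit 80, nat_lit 0, nat_lit 0, [nat_lit 1844814401, nat_lit 2622608001, nat_lit 2454955600], [], [nat_lit 24794828962, nat_lit 25295840666, nat_lit 28937455522, nat_lit 29342679778, nat_lit 28345504642, nat_lit 28736040574, nat_lit 31639759649, nat_lit 31972728665], nat_lit 0, nat_lit 0, nat_lit 0, nat_lit 0, nat_lit 0, nat_lit 0, [], [nat_lit 6, nat_lit 40, nat_lit 40, nat_lit 80, nat_lit 3, nat_lit 289, nat_lit 75, nat_lit 9]⟩, ⟨p094_k26, nat_lit 0, nat_lit 0, nat_lit 609, nat_lit 0, nat_lit 1114264, [nat_lit 1421106000, nat_lit 2706250000, nat_lit 3450144000], [], [nat_lit 13992566592, nat_lit 14098437818, nat_lit 15339022794, nat_lit 15583695452, nat_lit 13877603616, nat_lit 13950963412, nat_lit 14721922742, nat_lit 14786811366], nat_lit 1271250, nat_lit 1271250, nat_lit 1271250, nat_lit 1271250, nat_lit 88400, nat_lit 2223300, [nat_lit 780000, nat_lit 1435000, nat_lit 1271250],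 [nat_lit 18, nat_lit 40, nat_lit 40, nat_lit 80, nat_lit 2, nat_lit 317, nat_lit 100, nat_lit 9]⟩,
 ⟨nat_lit 4183, nat_lit 4473, ⟨.ofNat (nat_lit 822530), .ofNat (nat_lit 958489), .ofNat (nat_lit 833312), .ofNat (nat_lit 969270), .ofNat (nat_lit 817914), .ofNat (nat_lit 950428), .ofNat (nat_lit 828746), .ofNat (nat_lit 961259)⟩, ⟨.ofNat (nat_lit 302621), .ofNat (nat_lit 540545), .ofNat (nat_lit 345754), .ofNat (nat_lit 583678), .ofNat (nat_lit 303743), .ofNat (nat_lit 535637), .ofNat (nat_lit 347076), .ofNat (nat_lit 578971)⟩⟩, [⟨nat_lit 13, nat_lit 95, nat_lit 8, nat_lit 100, nat_lit 123289164⟩, ⟨nat_lit 16, nat_lit 87, nat_lit 95, nat_lit 100, nat_lit 276751825⟩, ⟨nat_lit 19, nat_lit 91, nat_lit 91, nat_lit 100, nat_lit 74297367⟩]⟩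
noncomputable def p094_l51 : Lf2 := ⟨nat_lit 0, nat_lit 10, [nat_lit 0, nat_lit 5, nat_lit 5, nat_lit 20], false, nat_lit 160, nat_lit 288, nat_lit 16, nat_lit 312, ⟨nat_lit 726, nat_lit 274, nat_lit 0, nat_lit 8, nat_lit 355, nat_lit 274, nat_lit 172, nat_lit 0, nat_lit 0, nat_lit 0, nat_lit 0, nat_lit 0, nat_lit 0, nat_lit 0, nat_lit 0, nat_lit 5000000, true, true⟩,
 nat_lit 0, nat_lit 0, nat_lit 5780, nat_lit 0, nat_lit 3593, nat_lit 4166, nat_lit 1294, nat_lit 0, nat_lit 0, nat_lit 660, nat_lit 0, nat_lit 0, nat_lit 0, nat_lit 0, nat_lit 0, nat_lit 109600, nat_lit 0, nat_lit 0, [(nat_lit 18, [(nat_lit 1, nat_lit 274)])],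
 ⟨p094_k25, nat_lit 0, nat_lit 0, nat_lit 87, nat_lit 0, nat_lit 0, [nat_lit 1858320534, nat_lit 3942354667, nat_lit 5074759200], [], [nat_lit 25229984727, nat_lit 25722115963, nat_lit 29203853810, nat_lit 29603194589, nat_lit 28299611507, nat_lit 28694223751, nat_lit 31509400542, nat_lit 31832694469], nat_lit 0, nat_lit 0, nat_lit 0, nat_lit 0, nat_lit 0, nat_lit 0, [], [nat_lit 6, nat_lit 40, nat_lit 40, nat_lit 80, nat_lit 3, nat_lit 289, nat_lit 75, nat_lit 9]⟩, ⟨p094_k26, nat_lit 0, nat_lit 0, nat_lit 648, nat_lit 0, nat_lit 1218192, [nat_lit 2382732000, nat_lit 4537500000, nat_lit 5784768000], [], [nat_lit 23889048947, nat_lit 24068337889, nat_lit 25951435728, nat_lit 26365807055, nat_lit 23707751629, nat_lit 23813741563, nat_lit 24836371646, nat_lit 24916549480], nat_lit 1271250, nat_lit 1271250, nat_lit 1271250, nat_lit 1271250, nat_lit 88400, nat_lit 2223300, [nat_lit 780000, nat_lit 1435000, nat_lit 1271250],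 [nat_lit 18, nat_lit 40, nat_lit 40, nat_lit 80, nat_lit 2, nat_lit 317, nat_lit 100, nat_lit 9]⟩,
 ⟨nat_lit 3872, nat_lit 4184, ⟨.ofNat (nat_lit 817915), .ofNat (nat_lit 950433), .ofNat (nat_lit 828747), .ofNat (nat_lit 961264), .ofNat (nat_lit 813409), .ofNat (nat_lit 942458), .ofNat (nat_lit 824304), .ofNat (nat_lit 953353)⟩, ⟨.ofNat (nat_lit 303743), .ofNat (nat_lit 515761), .ofNat (nat_lit 347076), .ofNat (nat_lit 559094), .ofNat (nat_lit 304717), .ofNat (nat_lit 511186), .ofNat (nat_lit 348304), .ofNat (nat_lit 554773)⟩⟩, [⟨nat_lit 16, nat_lit 83, nat_lit 98, nat_lit 100, nat_lit 325195555⟩, ⟨nat_lit 19, nat_lit 91, nat_lit 91, nat_lit 100, nat_lit 122080082⟩]⟩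
noncomputable def p094_l52 : Lf2 := ⟨nat_lit 0, nat_lit 10, [nat_lit 0, nat_lit 5, nat_lit 5, nat_lit 20], false, nat_lit 160, nat_lit 276, nat_lit 16, nat_lit 312, ⟨nat_lit 344, nat_lit 656, nat_lit 0, nat_lit 8, nat_lit 351, nat_lit 656, nat_lit 167, nat_lit 0, nat_lit 0, nat_lit 0, nat_lit 0, nat_lit 0, nat_lit 0, nat_lit 0, nat_lit 0, nat_lit 5000000, true, true⟩,
 nat_lit 0, nat_lit 0, nat_lit 2798, nat_lit 0, nat_lit 3105, nat_lit 2017, nat_lit 224, nat_lit 0, nat_lit 0, nat_lit 296, nat_lit 0, nat_lit 0, nat_lit 0, nat_lit 0, nat_lit 0, nat_lit 448400, nat_lit 0, nat_lit 0, [(nat_lit 21, [(nat_lit 1, nat_lit 346), (nat_lit 2, nat_lit 310)])],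
 ⟨p094_k34, nat_lit 0, nat_lit 0, nat_lit 100, nat_lit 0, nat_lit 0, [nat_lit 1602279201, nat_lit 2084416801, nat_lit 2315064000], [], [nat_lit 25427259291, nat_lit 26305116081, nat_lit 28896208432, nat_lit 29658775062, nat_lit 27892638402, nat_lit 28624871890, nat_lit 30914871819, nat_lit 31663268626], nat_lit 0, nat_lit 0, nat_lit 0, nat_lit 0, nat_lit 0, nat_lit 0, [], [nat_lit 6, nat_lit 40, nat_lit 40, nat_lit 80, nat_lit 3, nat_lit 289, nat_lit 75, nat_lit 9]⟩, ⟨p094_k26, nat_lit 0, nat_lit 0, nat_lit 745, nat_lit 0, nat_lit 1441751, [nat_lit 1129008000, nat_lit 2150000000, nat_lit 2740992000], [], [nat_lit 11764553056, nat_lit 11829444736, nat_lit 12426083092, nat_lit 12604128758, nat_lit 11427499623, nat_lit 11464042954, nat_lit 11841265509, nat_lit 11867713616], nat_lit 1271250, nat_lit 1271250, nat_lit 1271250, nat_lit 1271250, nat_lit 88400, nat_lit 2223300, [nat_lit 780000, nat_lit 1435000, nat_lit 1271250],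 [nat_lit 18, nat_lit 40, nat_lit 40, nat_lit 80, nat_lit 2, nat_lit 317, nat_lit 100, nat_lit 9]⟩,
 ⟨nat_lit 3162, nat_lit 3873, ⟨.ofNat (nat_lit 813366), .ofNat (nat_lit 942462), .ofNat (nat_lit 824248), .ofNat (nat_lit 953347), .ofNat (nat_lit 804650), .ofNat (nat_lit 926609), .ofNat (nat_lit 815713), .ofNat (nat_lit 937676)⟩, ⟨.ofNat (nat_lit 304717), .ofNat (nat_lit 491830), .ofNat (nat_lit 348304), .ofNat (nat_lit 535416), .ofNat (nat_lit 306116), .ofNat (nat_lit 482881), .ofNat (nat_lit 350426), .ofNat (nat_lit 527190)⟩⟩, [⟨nat_lit 13, nat_lit 81, nat_lit 29, nat_lit 100, nat_lit 78617470⟩, ⟨nat_lit 13, nat_lit 89, nat_lit 16, nat_lit 100, nat_lit 70790349⟩, ⟨nat_lit 16, nat_lit 77, nat_lit 100, nat_lit 99, nat_lit 289634607⟩, ⟨nat_lit 19, nat_lit 91, nat_lit 91, nat_lit 100, nat_lit 56683431⟩]⟩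
noncomputable def b_V_800_700_20_18 : St := ⟨true, nat_lit 0, nat_lit 2, nat_lit 2, nat_lit 120, nat_lit 320, nat_lit 360, nat_lit 280, nat_lit 320, nat_lit 100, nat_lit 400, nat_lit 80, nat_lit 120, nat_lit 0, nat_lit 300, nat_lit 0, nat_lit 336, nat_lit 0, nat_lit 40, nat_lit 0, nat_lit 0, nat_lit 0, nat_lit 0⟩
theorem d_V_800_700_20_18 (h : EB TB.env) : Dead b_V_800_700_20_18 := chkB_sound0 h (T :=
(.st (nat_lit 1)
(.leaf p094_l38)
(.spl (nat_lit 2) (nat_lit 240)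
(.leaf p094_l39)
(.spl (nat_lit 4) (nat_lit 160)
(.leaf p094_l40)
(.spl (nat_lit 1) (nat_lit 300)
(.spl (nat_lit 2) (nat_lit 320)
(.leaf p094_l41)
(.trZ (nat_lit 9) (nat_lit 100) (nat_lit 82) (nat_lit 44) (nat_lit 16) (.spl (nat_lit 2) (nat_lit 360)
(.leaf p094_l42)
(.trZ (nat_lit 9) (nat_lit 100) (nat_lit 61) (nat_lit 68) (nat_lit 48) (.spl (nat_lit 1) (nat_lit 290)
(.spl (nat_lit 0) (nat_lit 340)
(.leaf p094_l43)
(.trX (nat_lit 13) (nat_lit 80) (nat_lit 34) (nat_lit 100) (nat_lit 392) (.trX (nat_lit 16) (nat_lit 77) (nat_lit 100) (nat_lit 99) (nat_lit 276) (.leaf p094_l44))))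
(.trX (nat_lit 19) (nat_lit 97) (nat_lit 84) (nat_lit 100) (nat_lit 328) (.spl (nat_lit 0) (nat_lit 340)
(.leaf p094_l45)
(.trX (nat_lit 13) (nat_lit 82) (nat_lit 29) (nat_lit 100) (nat_lit 396) (.trX (nat_lit 16) (nat_lit 77) (nat_lit 100) (nat_lit 99) (nat_lit 276) (.leaf p094_l46))))))))))
(.trX (nat_lit 19) (nat_lit 94) (nat_lit 88) (nat_lit 100) (nat_lit 320) (.spl (nat_lit 2) (nat_lit 320)
(.leaf p094_l47)
(.trZ (nat_lit 9) (nat_lit 100) (nat_lit 82) (nat_lit 44) (nat_lit 16) (.spl (nat_lit 1) (nat_lit 310)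
(.spl (nat_lit 0) (nat_lit 340)
(.leaf p094_l48)
(.trX (nat_lit 16) (nat_lit 77) (nat_lit 100) (nat_lit 99) (nat_lit 276) (.leaf p094_l49)))
(.trX (nat_lit 19) (nat_lit 91) (nat_lit 91) (nat_lit 100) (nat_lit 312) (.spl (nat_lit 0) (nat_lit 340)
(.spl (nat_lit 0) (nat_lit 330)
(.leaf p094_l50)
(.trX (nat_lit 16) (nat_lit 83) (nat_lit 98) (nat_lit 100) (nat_lit 288) (.leaf p094_l51)))
(.trX (nat_lit 16) (nat_lit 77) (nat_lit 100) (nat_lit 99) (nat_lit 276) (.leaf p094_l52))))))))))))) (by decide +kernel)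
noncomputable def p094_l53 : Lf2 := ⟨nat_lit 0, nat_lit 10, [nat_lit 0, nat_lit 5, nat_lit 5, nat_lit 20], false, nat_lit 0, nat_lit 160, nat_lit 0, nat_lit 160, ⟨nat_lit 1000, nat_lit 0, nat_lit 0, nat_lit 0, nat_lit 0, nat_lit 0, nat_lit 0, nat_lit 0, nat_lit 0, nat_lit 0, nat_lit 0, nat_lit 0, nat_lit 0, nat_lit 0, nat_lit 0, nat_lit 0, false, false⟩,
 nat_lit 0, nat_lit 10135, nat_lit 0, nat_lit 0, nat_lit 7601, nat_lit 7309, nat_lit 503, nat_lit 0, nat_lit 0, nat_lit 1385, nat_lit 0, nat_lit 0, nat_lit 0, nat_lit 0, nat_lit 0, nat_lit 0, nat_lit 0, nat_lit 0, [],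
 ⟨p094_k23, nat_lit 0, nat_lit 0, nat_lit 602, nat_lit 0, nat_lit 1121998, [nat_lit 2032000001, nat_lit 4688000000, nat_lit 6250000000], [], [nat_lit 26490020842, nat_lit 27543506166, nat_lit 27490099992, nat_lit 29463133794, nat_lit 23451387272, nat_lit 24382645657, nat_lit 24051054040, nat_lit 24778650752], nat_lit 1271250, nat_lit 1271250, nat_lit 631250, nat_lit 1751250, nat_lit 0, nat_lit 1100001, [nat_lit 490000, nat_lit 1100000, nat_lit 1442500], [nat_lit 6, nat_lit 40, nat_lit 40, nat_lit 80, nat_lit 3, nat_lit 317, nat_lit 100, nat_lit 12]⟩, ⟨p094_k37, nat_lit 0, nat_lit 0, nat_lit 191, nat_lit 0, nat_lit 0, [nat_lit 3282000000, nat_lit 6250000000, nat_lit 9842000000], [], [nat_lit 19914072515, nat_lit 23859850095, nat_lit 23515484228, nat_lit 27231939936, nat_lit 15101943484, nat_lit 19169803442, nat_lit 19071787120, nat_lit 22171167604], nat_lit 0, nat_lit 0, nat_lit 0, nat_lit 0, nat_lit 0, nat_lit 0,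 [], [nat_lit 8, nat_lit 40, nat_lit 40, nat_lit 80, nat_lit 1, nat_lit 317, nat_lit 100, nat_lit 9]⟩,
 zbF0, [⟨nat_lit 0, nat_lit 81, nat_lit 72, nat_lit 100, nat_lit 597444486⟩]⟩
noncomputable def p094_l54 : Lf2 := ⟨nat_lit 0, nat_lit 10, [nat_lit 0, nat_lit 5, nat_lit 5, nat_lit 20], false, nat_lit 0, nat_lit 160, nat_lit 0, nat_lit 160, ⟨nat_lit 1000, nat_lit 0, nat_lit 0, nat_lit 0, nat_lit 0, nat_lit 0, nat_lit 0, nat_lit 0, nat_lit 0, nat_lit 0, nat_lit 0, nat_lit 0, nat_lit 0, nat_lit 0, nat_lit 0, nat_lit 0, false, false⟩,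
 nat_lit 0, nat_lit 6666, nat_lit 0, nat_lit 0, nat_lit 5395, nat_lit 6969, nat_lit 1106, nat_lit 0, nat_lit 0, nat_lit 1163, nat_lit 0, nat_lit 0, nat_lit 0, nat_lit 0, nat_lit 0, nat_lit 0, nat_lit 0, nat_lit 0, [],
 ⟨p094_k34, nat_lit 0, nat_lit 0, nat_lit 613, nat_lit 0, nat_lit 1164010, [nat_lit 2032000001, nat_lit 4688000000, nat_lit 6250000000], [], [nat_lit 22166576955, nat_lit 24849048925, nat_lit 25661326630, nat_lit 27803423660, nat_lit 20934871939, nat_lit 21815276460, nat_lit 22462447228, nat_lit 23222470019], nat_lit 1271250, nat_lit 1271250, nat_lit 810650, nat_lit 1764750, nat_lit 0, nat_lit 1100001, [nat_lit 490000, nat_lit 1100000, nat_lit 1442500], [nat_lit 6, nat_lit 40, nat_lit 40, nat_lit 80, nat_lit 3, nat_lit 317, nat_lit 100, nat_lit 12]⟩, ⟨p094_k37, nat_lit 0, nat_lit 0, nat_lit 181, nat_lit 0, nat_lit 0, [nat_lit 3282000000, nat_lit 6250000000, nat_lit 9842000000], [], [nat_lit 21027538906,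 nat_lit 24734345431, nat_lit 24235624715, nat_lit 27172676576, nat_lit 16654148622, nat_lit 19762922562, nat_lit 19472415920, nat_lit 22485750564], nat_lit 0, nat_lit 0, nat_lit 0, nat_lit 0, nat_lit 0, nat_lit 0, [], [nat_lit 8, nat_lit 40, nat_lit 40, nat_lit 80, nat_lit 1, nat_lit 317, nat_lit 100, nat_lit 9]⟩,
 zbF0, [⟨nat_lit 0, nat_lit 80, nat_lit 60, nat_lit 100, nat_lit 623059064⟩]⟩
noncomputable def p094_l55 : Lf2 := ⟨nat_lit 0, nat_lit 10, [nat_lit 0, nat_lit 5, nat_lit 5, nat_lit 20], false, nat_lit 160, nat_lit 300, nat_lit 0, nat_lit 160, ⟨nat_lit 1000, nat_lit 0, nat_lit 0, nat_lit 0, nat_lit 0, nat_lit 0, nat_lit 0, nat_lit 0, nat_lit 0, nat_lit 0, nat_lit 0, nat_lit 0, nat_lit 0, nat_lit 0, nat_lit 0, nat_lit 0, false, false⟩,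
 nat_lit 0, nat_lit 9642, nat_lit 0, nat_lit 0, nat_lit 7231, nat_lit 7708, nat_lit 455, nat_lit 0, nat_lit 0, nat_lit 1486, nat_lit 0, nat_lit 0, nat_lit 0, nat_lit 0, nat_lit 0, nat_lit 0, nat_lit 0, nat_lit 0, [],
 ⟨p094_k23, nat_lit 0, nat_lit 0, nat_lit 522, nat_lit 0, nat_lit 1141603, [nat_lit 2032000001, nat_lit 4688000000, nat_lit 6250000000], [], [nat_lit 25388196570, nat_lit 27081452502, nat_lit 25958019240, nat_lit 27383973784, nat_lit 27795811733, nat_lit 29152933768, nat_lit 27637636875, nat_lit 29453591088], nat_lit 1271250, nat_lit 1271250, nat_lit 631250, nat_lit 1751250, nat_lit 1100001, nat_lit 2298750, [nat_lit 490000, nat_lit 1100000, nat_lit 1442500], [nat_lit 6, nat_lit 40, nat_lit 40, nat_lit 80, nat_lit 3, nat_lit 373, nat_lit 150, nat_lit 14]⟩, ⟨p094_k37, nat_lit 0, nat_lit 0, nat_lit 178, nat_lit 0, nat_lit 0, [nat_lit 3282000000, nat_lit 6250000000, nat_lit 9842000000], [], [nat_lit 19367622430,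 nat_lit 21409262910, nat_lit 23457346736, nat_lit 25379416984, nat_lit 14614395808, nat_lit 16720796556, nat_lit 18601637440, nat_lit 20201816344], nat_lit 0, nat_lit 0, nat_lit 0, nat_lit 0, nat_lit 0, nat_lit 0, [], [nat_lit 8, nat_lit 40, nat_lit 40, nat_lit 80, nat_lit 1, nat_lit 317, nat_lit 100, nat_lit 9]⟩,
 zbF0, [⟨nat_lit 0, nat_lit 87, nat_lit 60, nat_lit 100, nat_lit 633015810⟩, ⟨nat_lit 4, nat_lit 100, nat_lit 74, nat_lit 90, nat_lit 440849173⟩]⟩
noncomputable def p094_l56 : Lf2 := ⟨nat_lit 0, nat_lit 10, [nat_lit 0, nat_lit 5, nat_lit 5, nat_lit 20], false, nat_lit 160, nat_lit 300, nat_lit 0, nat_lit 160, ⟨nat_lit 1000, nat_lit 0, nat_lit 0, nat_lit 0, nat_lit 0, nat_lit 0, nat_lit 0, nat_lit 0, nat_lit 0, nat_lit 0, nat_lit 0, nat_lit 0, nat_lit 0, nat_lit 0, nat_lit 0, nat_lit 0, false, false⟩,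
 nat_lit 0, nat_lit 8343, nat_lit 0, nat_lit 0, nat_lit 6257, nat_lit 5969, nat_lit 449, nat_lit 0, nat_lit 0, nat_lit 2550, nat_lit 0, nat_lit 0, nat_lit 0, nat_lit 0, nat_lit 0, nat_lit 0, nat_lit 0, nat_lit 0, [],
 ⟨p094_k23, nat_lit 0, nat_lit 0, nat_lit 573, nat_lit 0, nat_lit 1293409, [nat_lit 2032000001, nat_lit 4688000000, nat_lit 6250000000], [], [nat_lit 30478282670, nat_lit 31768147142, nat_lit 31164878290, nat_lit 32326973582, nat_lit 32412902939, nat_lit 33656835292, nat_lit 32775365125, nat_lit 33793830037], nat_lit 1271250, nat_lit 1271250, nat_lit 780000, nat_lit 1762500, nat_lit 1100001, nat_lit 2298750, [nat_lit 490000, nat_lit 1100000, nat_lit 1442500], [nat_lit 6, nat_lit 40, nat_lit 40, nat_lit 80, nat_lit 3, nat_lit 373, nat_lit 150, nat_lit 13]⟩, ⟨p094_k24, nat_lit 0, nat_lit 0, nat_lit 145, nat_lit 0, nat_lit 0, [nat_lit 3282000000, nat_lit 6250000000, nat_lit 7968000000], [], [nat_lit 17542996858,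 nat_lit 20221285540, nat_lit 22268204058, nat_lit 24366729120, nat_lit 14172854956, nat_lit 15718239984, nat_lit 17900960252, nat_lit 19678882020], nat_lit 0, nat_lit 0, nat_lit 0, nat_lit 0, nat_lit 0, nat_lit 0, [], [nat_lit 18, nat_lit 40, nat_lit 40, nat_lit 80, nat_lit 2, nat_lit 317, nat_lit 100, nat_lit 10]⟩,
 zbF0, [⟨nat_lit 0, nat_lit 80, nat_lit 60, nat_lit 100, nat_lit 578082092⟩, ⟨nat_lit 4, nat_lit 100, nat_lit 74, nat_lit 90, nat_lit 431142934⟩]⟩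
noncomputable def b_V_800_700_20_19 : St := ⟨true, nat_lit 1, nat_lit 0, nat_lit 1, nat_lit 120, nat_lit 320, nat_lit 360, nat_lit 280, nat_lit 320, nat_lit 100, nat_lit 240, nat_lit 80, nat_lit 120, nat_lit 0, nat_lit 300, nat_lit 0, nat_lit 160, nat_lit 0, nat_lit 40, nat_lit 0, nat_lit 0, nat_lit 0, nat_lit 0⟩
theorem d_V_800_700_20_19 (h : EB TB.env) : Dead b_V_800_700_20_19 := chkB_sound0 h (T :=
(.spl (nat_lit 4) (nat_lit 160)
(.spl (nat_lit 0) (nat_lit 340)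
(.leaf p094_l53)
(.trZ (nat_lit 0) (nat_lit 99) (nat_lit 77) (nat_lit 100) (nat_lit 124) (.leaf p094_l54)))
(.spl (nat_lit 1) (nat_lit 300)
(.leaf p094_l55)
(.trZ (nat_lit 0) (nat_lit 94) (nat_lit 87) (nat_lit 100) (nat_lit 120) (.leaf p094_l56))))) (by decide +kernel)
noncomputable def p094_l57 : Lf2 := ⟨nat_lit 0, nat_lit 10, [nat_lit 0, nat_lit 5, nat_lit 5, nat_lit 20], false, nat_lit 0, nat_lit 160, nat_lit 160, nat_lit 320, ⟨nat_lit 976, nat_lit 0, nat_lit 24, nat_lit 7, nat_lit 196, nat_lit 24, nat_lit 63, nat_lit 24, nat_lit 36817, nat_lit 262, nat_lit 2755, nat_lit 226, nat_lit 54002008, nat_lit 0, nat_lit 0, nat_lit 2459854, false, false⟩,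
 nat_lit 0, nat_lit 10708, nat_lit 0, nat_lit 0, nat_lit 8030, nat_lit 4938, nat_lit 451, nat_lit 0, nat_lit 0, nat_lit 0, nat_lit 0, nat_lit 0, nat_lit 0, nat_lit 0, nat_lit 0, nat_lit 24000, nat_lit 0, nat_lit 0, [(nat_lit 18, [(nat_lit 6, nat_lit 24)])],
 ⟨p094_k23, nat_lit 0, nat_lit 0, nat_lit 545, nat_lit 0, nat_lit 1011881, [nat_lit 2008665600, nat_lit 4545734400, nat_lit 6006380800], [], [nat_lit 24020777180, nat_lit 25508196285, nat_lit 23673767880, nat_lit 25049695080, nat_lit 20495724560, nat_lit 20974520835, nat_lit 20188688720, nat_lit 20624826100], nat_lit 1271250, nat_lit 1271250, nat_lit 631250, nat_lit 1100001, nat_lit 0, nat_lit 1100001, [nat_lit 490000, nat_lit 1100000, nat_lit 1442500], [nat_lit 6, nat_lit 40, nat_lit 40, nat_lit 80, nat_lit 3, nat_lit 317, nat_lit 100, nat_lit 12]⟩, ⟨p094_k37, nat_lit 0, nat_lit 0, nat_lit 70, nat_lit 0, nat_lit 0, [nat_lit 3203232000, nat_lit 6100000000, nat_lit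 9605792000], [], [nat_lit 12037474860, nat_lit 15691671720, nat_lit 13142004504, nat_lit 16476894400, nat_lit 21023560004, nat_lit 23759735840, nat_lit 21362053048, nat_lit 23765277016], nat_lit 0, nat_lit 0, nat_lit 0, nat_lit 0, nat_lit 0, nat_lit 0, [], [nat_lit 8, nat_lit 40, nat_lit 40, nat_lit 80, nat_lit 1, nat_lit 345, nat_lit 125, nat_lit 9]⟩,
 ⟨nat_lit 4183, nat_lit 4473, ⟨.ofNat (nat_lit 416301), .ofNat (nat_lit 518271), .ofNat (nat_lit 459427), .ofNat (nat_lit 561395), .ofNat (nat_lit 421009), .ofNat (nat_lit 520394), .ofNat (nat_lit 464335), .ofNat (nat_lit 563719)⟩, ⟨.ofNat (nat_lit 0), .ofNat (nat_lit 302621), .ofNat (nat_lit 0), .ofNat (nat_lit 324188), .ofNat (nat_lit 0), .ofNat (nat_lit 303743), .ofNat (nat_lit 0), .ofNat (nat_lit 325409)⟩⟩, [⟨nat_lit 0, nat_lit 93, nat_lit 84, nat_lit 100, nat_lit 678611824⟩, ⟨nat_lit 7, nat_lit 100, nat_lit 97, nat_lit 93, nat_lit 495736482⟩]⟩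
noncomputable def p094_l58 : Lf2 := ⟨nat_lit 0, nat_lit 10, [nat_lit 0, nat_lit 5, nat_lit 5, nat_lit 20], false, nat_lit 0, nat_lit 160, nat_lit 160, nat_lit 336, ⟨nat_lit 931, nat_lit 0, nat_lit 69, nat_lit 7, nat_lit 196, nat_lit 69, nat_lit 67, nat_lit 69, nat_lit 41667, nat_lit 265, nat_lit 2755, nat_lit 226, nat_lit 54002008, nat_lit 0, nat_lit 0, nat_lit 2459854, false, false⟩,
 nat_lit 0, nat_lit 10054, nat_lit 0, nat_lit 0, nat_lit 7540, nat_lit 4587, nat_lit 451, nat_lit 0, nat_lit 0, nat_lit 0, nat_lit 0, nat_lit 0, nat_lit 0, nat_lit 0, nat_lit 0, nat_lit 69000, nat_lit 0, nat_lit 0, [(nat_lit 18, [(nat_lit 6, nat_lit 69)])],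
 ⟨p094_k23, nat_lit 0, nat_lit 0, nat_lit 505, nat_lit 0, nat_lit 906718, [nat_lit 1964913601, nat_lit 4278986401, nat_lit 5549594800], [], [nat_lit 23117644003, nat_lit 24681978130, nat_lit 22977053364, nat_lit 24344812440, nat_lit 19930757925, nat_lit 20494480635, nat_lit 19843160005, nat_lit 20357839865], nat_lit 1271250, nat_lit 1271250, nat_lit 631250, nat_lit 1100001, nat_lit 0, nat_lit 1100001, [nat_lit 490000, nat_lit 1100000, nat_lit 1442500], [nat_lit 6, nat_lit 40, nat_lit 40, nat_lit 80, nat_lit 3, nat_lit 317, nat_lit 100, nat_lit 12]⟩, ⟨p094_k37, nat_lit 0, nat_lit 0, nat_lit 79, nat_lit 0, nat_lit 0, [nat_lit 3055542000, nat_lit 5818750000, nat_lit 9162902000], [], [nat_lit 11641329996, nat_lit 15072871086, nat_lit 12704857116, nat_lit 15837966112, nat_lit 21287787076, nat_lit 23728263815, nat_lit 21542356241, nat_lit 23675971911], nat_lit 0, nat_lit 0, nat_lit 0, nat_lit 0, nat_lit 0, nat_lit 0, [],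 [nat_lit 8, nat_lit 40, nat_lit 40, nat_lit 80, nat_lit 1, nat_lit 345, nat_lit 125, nat_lit 9]⟩,
 ⟨nat_lit 4183, nat_lit 4473, ⟨.ofNat (nat_lit 416301), .ofNat (nat_lit 518271), .ofNat (nat_lit 459427), .ofNat (nat_lit 561395), .ofNat (nat_lit 421009), .ofNat (nat_lit 520394), .ofNat (nat_lit 464335), .ofNat (nat_lit 563719)⟩, ⟨.ofNat (nat_lit 0), .ofNat (nat_lit 324188), .ofNat (nat_lit 0), .ofNat (nat_lit 345754), .ofNat (nat_lit 0), .ofNat (nat_lit 325409), .ofNat (nat_lit 0), .ofNat (nat_lit 347076)⟩⟩, [⟨nat_lit 0, nat_lit 93, nat_lit 84, nat_lit 100, nat_lit 636560837⟩, ⟨nat_lit 7, nat_lit 94, nat_lit 97, nat_lit 100, nat_lit 448730747⟩]⟩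
noncomputable def p094_l59 : Lf2 := ⟨nat_lit 0, nat_lit 10, [nat_lit 0, nat_lit 5, nat_lit 5, nat_lit 20], false, nat_lit 0, nat_lit 160, nat_lit 160, nat_lit 336, ⟨nat_lit 1000, nat_lit 0, nat_lit 0, nat_lit 0, nat_lit 0, nat_lit 0, nat_lit 0, nat_lit 0, nat_lit 0, nat_lit 0, nat_lit 0, nat_lit 0, nat_lit 0, nat_lit 0, nat_lit 0, nat_lit 0, false, false⟩,
 nat_lit 0, nat_lit 10826, nat_lit 0, nat_lit 0, nat_lit 8119, nat_lit 4840, nat_lit 489, nat_lit 0, nat_lit 0, nat_lit 0, nat_lit 0, nat_lit 0, nat_lit 0, nat_lit 0, nat_lit 0, nat_lit 0, nat_lit 0, nat_lit 0, [],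
 ⟨p094_k23, nat_lit 0, nat_lit 0, nat_lit 520, nat_lit 0, nat_lit 1000298, [nat_lit 2032000001, nat_lit 4688000000, nat_lit 6250000000], [], [nat_lit 24082028154, nat_lit 24336447108, nat_lit 27541161120, nat_lit 28244833812, nat_lit 19399414484, nat_lit 19649950261, nat_lit 20531598248, nat_lit 20760307607], nat_lit 1271250, nat_lit 1271250, nat_lit 1100001, nat_lit 1785000, nat_lit 0, nat_lit 1100001, [nat_lit 490000, nat_lit 1100000, nat_lit 1442500], [nat_lit 6, nat_lit 40, nat_lit 40, nat_lit 80, nat_lit 3, nat_lit 317, nat_lit 100, nat_lit 12]⟩, ⟨p094_k37, nat_lit 0, nat_lit 0, nat_lit 60, nat_lit 0, nat_lit 0, [nat_lit 3282000000, nat_lit 6250000000, nat_lit 9842000000], [], [nat_lit 13765477920, nat_lit 17096933120, nat_lit 17192035360, nat_lit 20023038400, nat_lit 23185179265, nat_lit 25366376736, nat_lit 25137138784, nat_lit 27082571585], nat_lit 0, nat_lit 0, nat_lit 0, nat_lit 0, nat_lit 0, nat_lit 0,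 [], [nat_lit 8, nat_lit 40, nat_lit 40, nat_lit 80, nat_lit 1, nat_lit 373, nat_lit 150, nat_lit 10]⟩,
 zbF0, [⟨nat_lit 19, nat_lit 100, nat_lit 100, nat_lit 100, nat_lit 463343655⟩]⟩
noncomputable def p094_l60 : Lf2 := ⟨nat_lit 0, nat_lit 10, [nat_lit 0, nat_lit 5, nat_lit 5, nat_lit 20], false, nat_lit 0, nat_lit 160, nat_lit 160, nat_lit 336, ⟨nat_lit 1000, nat_lit 0, nat_lit 0, nat_lit 0, nat_lit 0, nat_lit 0, nat_lit 0, nat_lit 0, nat_lit 0, nat_lit 0, nat_lit 0, nat_lit 0, nat_lit 0, nat_lit 0, nat_lit 0, nat_lit 0, false, false⟩,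
 nat_lit 0, nat_lit 8453, nat_lit 0, nat_lit 0, nat_lit 6464, nat_lit 4840, nat_lit 2970, nat_lit 0, nat_lit 0, nat_lit 0, nat_lit 0, nat_lit 0, nat_lit 0, nat_lit 0, nat_lit 0, nat_lit 0, nat_lit 0, nat_lit 0, [],
 ⟨p094_k40, nat_lit 0, nat_lit 0, nat_lit 526, nat_lit 0, nat_lit 1012476, [nat_lit 2032000001, nat_lit 4688000000, nat_lit 6250000000], [], [nat_lit 22422869186, nat_lit 22796947704, nat_lit 25699098744, nat_lit 26300610768, nat_lit 17873365188, nat_lit 18111359176, nat_lit 20272753860, nat_lit 20781198600], nat_lit 1271250, nat_lit 1271250, nat_lit 1100001, nat_lit 1785000, nat_lit 0, nat_lit 1100001, [nat_lit 490000, nat_lit 1100000, nat_lit 1442500], [nat_lit 6, nat_lit 40, nat_lit 40, nat_lit 80, nat_lit 3, nat_lit 317, nat_lit 100, nat_lit 12]⟩, ⟨p094_k37, nat_lit 0, nat_lit 0, nat_lit 60, nat_lit 0, nat_lit 0, [nat_lit 3282000000, nat_lit 6250000000, nat_lit 9842000000], [], [nat_lit 13765477920,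 nat_lit 17096933120, nat_lit 17192035360, nat_lit 20023038400, nat_lit 23185179265, nat_lit 25366376736, nat_lit 25137138784, nat_lit 27082571585], nat_lit 0, nat_lit 0, nat_lit 0, nat_lit 0, nat_lit 0, nat_lit 0, [], [nat_lit 8, nat_lit 40, nat_lit 40, nat_lit 80, nat_lit 1, nat_lit 373, nat_lit 150, nat_lit 10]⟩,
 zbF0, [⟨nat_lit 19, nat_lit 100, nat_lit 100, nat_lit 100, nat_lit 463343655⟩]⟩
noncomputable def p094_l61 : Lf2 := ⟨nat_lit 0, nat_lit 10, [nat_lit 0, nat_lit 5, nat_lit 5, nat_lit 20], false, nat_lit 0, nat_lit 160, nat_lit 160, nat_lit 336, ⟨nat_lit 1000, nat_lit 0, nat_lit 0, nat_lit 0, nat_lit 0, nat_lit 0, nat_lit 0, nat_lit 0, nat_lit 0, nat_lit 0, nat_lit 0, nat_lit 0, nat_lit 0, nat_lit 0, nat_lit 0, nat_lit 0, false, false⟩,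
 nat_lit 0, nat_lit 7264, nat_lit 0, nat_lit 0, nat_lit 5662, nat_lit 4970, nat_lit 2419, nat_lit 0, nat_lit 0, nat_lit 0, nat_lit 0, nat_lit 0, nat_lit 0, nat_lit 0, nat_lit 0, nat_lit 0, nat_lit 0, nat_lit 0, [],
 ⟨p094_k25, nat_lit 0, nat_lit 0, nat_lit 563, nat_lit 0, nat_lit 1063540, [nat_lit 2032000001, nat_lit 4688000000, nat_lit 6250000000], [], [nat_lit 21320329840, nat_lit 22727754007, nat_lit 25017461294, nat_lit 26121472828, nat_lit 17604581913, nat_lit 18098221378, nat_lit 21359971682, nat_lit 21497963640], nat_lit 1271250, nat_lit 1271250, nat_lit 719601, nat_lit 1758000, nat_lit 0, nat_lit 1100001, [nat_lit 490000, nat_lit 1100000, nat_lit 1442500], [nat_lit 6, nat_lit 40, nat_lit 40, nat_lit 80, nat_lit 3, nat_lit 317, nat_lit 100, nat_lit 12]⟩, ⟨p094_k37, nat_lit 0, nat_lit 0, nat_lit 74, nat_lit 0, nat_lit 0, [nat_lit 3282000000, nat_lit 6250000000, nat_lit 9842000000], [], [nat_lit 12545004696,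 nat_lit 16191239264, nat_lit 17043666880, nat_lit 19914847200, nat_lit 22796716620, nat_lit 25394597887, nat_lit 25094207193, nat_lit 27173267073], nat_lit 0, nat_lit 0, nat_lit 0, nat_lit 0, nat_lit 0, nat_lit 0, [], [nat_lit 8, nat_lit 40, nat_lit 40, nat_lit 80, nat_lit 1, nat_lit 373, nat_lit 150, nat_lit 10]⟩,
 zbF0, [⟨nat_lit 0, nat_lit 91, nat_lit 77, nat_lit 100, nat_lit 401009387⟩, ⟨nat_lit 19, nat_lit 100, nat_lit 100, nat_lit 100, nat_lit 8718622⟩, ⟨nat_lit 19, nat_lit 100, nat_lit 80, nat_lit 100, nat_lit 426480431⟩]⟩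
noncomputable def p094_l62 : Lf2 := ⟨nat_lit 0, nat_lit 10, [nat_lit 0, nat_lit 5, nat_lit 5, nat_lit 20], false, nat_lit 0, nat_lit 160, nat_lit 160, nat_lit 336, ⟨nat_lit 1000, nat_lit 0, nat_lit 0, nat_lit 0, nat_lit 0, nat_lit 0, nat_lit 0, nat_lit 0, nat_lit 0, nat_lit 0, nat_lit 0, nat_lit 0, nat_lit 0, nat_lit 0, nat_lit 0, nat_lit 0, false, false⟩,
 nat_lit 0, nat_lit 6842, nat_lit 0, nat_lit 0, nat_lit 5538, nat_lit 5004, nat_lit 1241, nat_lit 0, nat_lit 0, nat_lit 0, nat_lit 0, nat_lit 0, nat_lit 0, nat_lit 0, nat_lit 0, nat_lit 0, nat_lit 0, nat_lit 0, [],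
 ⟨p094_k34, nat_lit 0, nat_lit 0, nat_lit 613, nat_lit 0, nat_lit 1164010, [nat_lit 2032000001, nat_lit 4688000000, nat_lit 6250000000], [], [nat_lit 22409689683, nat_lit 25138937266, nat_lit 25907771972, nat_lit 28085177704, nat_lit 19462498542, nat_lit 20454708693, nat_lit 21451560360, nat_lit 23298620680], nat_lit 1271250, nat_lit 1271250, nat_lit 810650, nat_lit 1764750, nat_lit 0, nat_lit 1100001, [nat_lit 490000, nat_lit 1100000, nat_lit 1442500], [nat_lit 6, nat_lit 40, nat_lit 40, nat_lit 80, nat_lit 3, nat_lit 317, nat_lit 100, nat_lit 12]⟩, ⟨p094_k37, nat_lit 0, nat_lit 0, nat_lit 69, nat_lit 0, nat_lit 0, [nat_lit 3282000000, nat_lit 6250000000, nat_lit 9842000000], [], [nat_lit 12661016367, nat_lit 16260021357, nat_lit 17004862816, nat_lit 19886551040, nat_lit 22780946536, nat_lit 25349662429, nat_lit 25111812855, nat_lit 27196987431], nat_lit 0, nat_lit 0, nat_lit 0, nat_lit 0, nat_lit 0, nat_lit 0, [],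 [nat_lit 8, nat_lit 40, nat_lit 40, nat_lit 80, nat_lit 1, nat_lit 373, nat_lit 150, nat_lit 10]⟩,
 zbF0, [⟨nat_lit 0, nat_lit 88, nat_lit 67, nat_lit 100, nat_lit 440908061⟩, ⟨nat_lit 19, nat_lit 100, nat_lit 80, nat_lit 100, nat_lit 458720651⟩]⟩
noncomputable def p094_l63 : Lf2 := ⟨nat_lit 0, nat_lit 10, [nat_lit 0, nat_lit 5, nat_lit 5, nat_lit 20], false, nat_lit 160, nat_lit 300, nat_lit 160, nat_lit 336, ⟨nat_lit 1000, nat_lit 0, nat_lit 0, nat_lit 0, nat_lit 0, nat_lit 0, nat_lit 0, nat_lit 0, nat_lit 0, nat_lit 0, nat_lit 0, nat_lit 0, nat_lit 0, nat_lit 0, nat_lit 0, nat_lit 0, false, false⟩,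
 nat_lit 0, nat_lit 3202, nat_lit 0, nat_lit 0, nat_lit 2401, nat_lit 4928, nat_lit 701, nat_lit 0, nat_lit 260, nat_lit 0, nat_lit 0, nat_lit 0, nat_lit 0, nat_lit 0, nat_lit 0, nat_lit 0, nat_lit 0, nat_lit 0, [],
 ⟨p094_k8, nat_lit 0, nat_lit 0, nat_lit 0, nat_lit 0, nat_lit 960761, [nat_lit 2032000001, nat_lit 3282000000, nat_lit 6250000000], [], [nat_lit 16834724533, nat_lit 17810233660, nat_lit 17096701069, nat_lit 18055216070, nat_lit 21036462407, nat_lit 22179535433, nat_lit 21219256857, nat_lit 22289260194], nat_lit 1271250, nat_lit 1271250, nat_lit 631250, nat_lit 780000, nat_lit 1100001, nat_lit 2298750, [nat_lit 490000, nat_lit 780000, nat_lit 1435000], [nat_lit 85, nat_lit 40, nat_lit 40, nat_lit 80]⟩, ⟨p094_k9, nat_lit 0, nat_lit 0, nat_lit 59, nat_lit 0, nat_lit 0, [nat_lit 3282000000, nat_lit 4688000000, nat_lit 9842000000], [], [nat_lit 12502774512, nat_lit 14345935792, nat_lit 12666035776, nat_lit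 14460729392, nat_lit 22865172132, nat_lit 24176338853, nat_lit 22777861376, nat_lit 23983949412], nat_lit 0, nat_lit 0, nat_lit 0, nat_lit 0, nat_lit 0, nat_lit 0, [], [nat_lit 42, nat_lit 40, nat_lit 40, nat_lit 80, nat_lit 13, nat_lit 345, nat_lit 125, nat_lit 9]⟩,
 zbF0, [⟨nat_lit 0, nat_lit 100, nat_lit 87, nat_lit 95, nat_lit 335713389⟩, ⟨nat_lit 19, nat_lit 100, nat_lit 80, nat_lit 100, nat_lit 275996139⟩, ⟨nat_lit 11, nat_lit 95, nat_lit 95, nat_lit 100, nat_lit 252296606⟩]⟩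
noncomputable def p094_l64 : Lf2 := ⟨nat_lit 0, nat_lit 10, [nat_lit 0, nat_lit 5, nat_lit 5, nat_lit 20], false, nat_lit 160, nat_lit 300, nat_lit 160, nat_lit 336, ⟨nat_lit 1000, nat_lit 0, nat_lit 0, nat_lit 0, nat_lit 0, nat_lit 0, nat_lit 0, nat_lit 0, nat_lit 0, nat_lit 0, nat_lit 0, nat_lit 0, nat_lit 0, nat_lit 0, nat_lit 0, nat_lit 0, false, false⟩,
 nat_lit 0, nat_lit 2557, nat_lit 0, nat_lit 0, nat_lit 1917, nat_lit 4999, nat_lit 508, nat_lit 0, nat_lit 291, nat_lit 0, nat_lit 0, nat_lit 0, nat_lit 0, nat_lit 0, nat_lit 0, nat_lit 0, nat_lit 0, nat_lit 0, [],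
 ⟨p094_k8, nat_lit 0, nat_lit 0, nat_lit 0, nat_lit 0, nat_lit 1121998, [nat_lit 2032000001, nat_lit 3282000000, nat_lit 6250000000], [], [nat_lit 18391368937, nat_lit 18400267054, nat_lit 20107734900, nat_lit 20805751026, nat_lit 21227702558, nat_lit 21895964698, nat_lit 23939136330, nat_lit 24472248321], nat_lit 1271250, nat_lit 1271250, nat_lit 780000, nat_lit 1762500, nat_lit 1100001, nat_lit 2298750, [nat_lit 490000, nat_lit 780000, nat_lit 1435000], [nat_lit 85, nat_lit 40, nat_lit 40, nat_lit 80]⟩, ⟨p094_k9, nat_lit 0, nat_lit 0, nat_lit 59, nat_lit 0, nat_lit 0, [nat_lit 3282000000, nat_lit 4688000000, nat_lit 9842000000], [], [nat_lit 12570000608, nat_lit 16189516264, nat_lit 17010569296, nat_lit 19890712240, nat_lit 22747834908, nat_lit 25329749157, nat_lit 25109223787, nat_lit 27193499143], nat_lit 0, nat_lit 0, nat_lit 0, nat_lit 0, nat_lit 0, nat_lit 0, [], [nat_lit 42, nat_lit 40, nat_lit 40, nat_lit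 80, nat_lit 13, nat_lit 373, nat_lit 150, nat_lit 10]⟩,
 zbF0, [⟨nat_lit 16, nat_lit 87, nat_lit 95, nat_lit 100, nat_lit 145777268⟩, ⟨nat_lit 19, nat_lit 100, nat_lit 80, nat_lit 100, nat_lit 468809881⟩, ⟨nat_lit 11, nat_lit 75, nat_lit 75, nat_lit 100, nat_lit 64990671⟩]⟩
noncomputable def p094_l65 : Lf2 := ⟨nat_lit 0, nat_lit 5, [nat_lit 4, nat_lit 5, nat_lit 5, nat_lit 20], false, nat_lit 160, nat_lit 300, nat_lit 160, nat_lit 336, ⟨nat_lit 1000, nat_lit 0, nat_lit 0, nat_lit 0, nat_lit 0, nat_lit 0, nat_lit 0, nat_lit 0, nat_lit 0, nat_lit 0, nat_lit 0, nat_lit 0, nat_lit 0, nat_lit 0, nat_lit 0, nat_lit 0, false, false⟩,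
 nat_lit 0, nat_lit 8722, nat_lit 0, nat_lit 0, nat_lit 6541, nat_lit 4890, nat_lit 1166, nat_lit 0, nat_lit 0, nat_lit 0, nat_lit 0, nat_lit 0, nat_lit 0, nat_lit 0, nat_lit 0, nat_lit 0, nat_lit 0, nat_lit 0, [],
 ⟨p094_k5, nat_lit 0, nat_lit 0, nat_lit 322, nat_lit 0, nat_lit 717506, [nat_lit 2032000001, nat_lit 3282000000, nat_lit 6250000000], [], [nat_lit 16234293846, nat_lit 16446380610, nat_lit 16192328364, nat_lit 16398767931, nat_lit 21567622779, nat_lit 21797077863, nat_lit 21424392837, nat_lit 21600519882], nat_lit 1271250, nat_lit 1271250, nat_lit 631250, nat_lit 780000, nat_lit 1100001, nat_lit 2298750, [nat_lit 490000, nat_lit 780000, nat_lit 1435000], [nat_lit 85, nat_lit 40, nat_lit 40, nat_lit 80, nat_lit 16, nat_lit 345, nat_lit 125, nat_lit 12]⟩, ⟨p094_k6, nat_lit 0, nat_lit 0, nat_lit 55, nat_lit 0, nat_lit 0, [nat_lit 3282000000, nat_lit 4688000000, nat_lit 7968000000], [], [nat_lit 12551724060,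 nat_lit 13469131635, nat_lit 12717434880, nat_lit 13610750420, nat_lit 22877413056, nat_lit 23489179545, nat_lit 22793931880, nat_lit 23374813401], nat_lit 0, nat_lit 0, nat_lit 0, nat_lit 0, nat_lit 0, nat_lit 0, [], [nat_lit 36, nat_lit 40, nat_lit 40, nat_lit 80, nat_lit 7, nat_lit 345, nat_lit 125, nat_lit 11]⟩,
 zbF0, [⟨nat_lit 0, nat_lit 99, nat_lit 87, nat_lit 100, nat_lit 464621662⟩, ⟨nat_lit 16, nat_lit 87, nat_lit 95, nat_lit 100, nat_lit 75080168⟩, ⟨nat_lit 4, nat_lit 100, nat_lit 86, nat_lit 94, nat_lit 119892650⟩, ⟨nat_lit 19, nat_lit 100, nat_lit 91, nat_lit 96, nat_lit 273502531⟩, ⟨nat_lit 11, nat_lit 95, nat_lit 95, nat_lit 100, nat_lit 256030906⟩]⟩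
noncomputable def p094_l66 : Lf2 := ⟨nat_lit 0, nat_lit 5, [nat_lit 4, nat_lit 5, nat_lit 5, nat_lit 20], false, nat_lit 160, nat_lit 296, nat_lit 160, nat_lit 336, ⟨nat_lit 1000, nat_lit 0, nat_lit 0, nat_lit 0, nat_lit 0, nat_lit 0, nat_lit 0, nat_lit 0, nat_lit 0, nat_lit 0, nat_lit 0, nat_lit 0, nat_lit 0, nat_lit 0, nat_lit 0, nat_lit 0, false, false⟩,
 nat_lit 0, nat_lit 7798, nat_lit 0, nat_lit 0, nat_lit 5917, nat_lit 4942, nat_lit 2920, nat_lit 0, nat_lit 0, nat_lit 0, nat_lit 0, nat_lit 0, nat_lit 0, nat_lit 0, nat_lit 0, nat_lit 0, nat_lit 0, nat_lit 0, [],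
 ⟨p094_k41, nat_lit 0, nat_lit 0, nat_lit 277, nat_lit 0, nat_lit 722408, [nat_lit 2032000001, nat_lit 3282000000, nat_lit 4688000000], [], [nat_lit 16534947780, nat_lit 16675473242, nat_lit 16577296802, nat_lit 16714840698, nat_lit 21298405012, nat_lit 21443512119, nat_lit 21220528159, nat_lit 21332990769], nat_lit 1271250, nat_lit 1271250, nat_lit 660400, nat_lit 780000, nat_lit 1100001, nat_lit 2264500, [nat_lit 490000, nat_lit 780000, nat_lit 1100000], [nat_lit 78, nat_lit 40, nat_lit 40, nat_lit 80, nat_lit 22, nat_lit 238, nat_lit 30, nat_lit 10]⟩, ⟨p094_k6, nat_lit 0, nat_lit 0, nat_lit 54, nat_lit 0, nat_lit 0, [nat_lit 3282000000, nat_lit 4688000000, nat_lit 7968000000], [], [nat_lit 12517212228, nat_lit 13435473098, nat_lit 12647099264, nat_lit 13545931276, nat_lit 22842917987, nat_lit 23496240272, nat_lit 22771940664, nat_lit 23355731481], nat_lit 0, nat_lit 0, nat_lit 0, nat_lit 0, nat_lit 0, nat_lit 0,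 [], [nat_lit 36, nat_lit 40, nat_lit 40, nat_lit 80, nat_lit 7, nat_lit 345, nat_lit 125, nat_lit 11]⟩,
 zbF0, [⟨nat_lit 0, nat_lit 100, nat_lit 87, nat_lit 99, nat_lit 434596855⟩, ⟨nat_lit 16, nat_lit 86, nat_lit 96, nat_lit 100, nat_lit 93373924⟩, ⟨nat_lit 4, nat_lit 100, nat_lit 84, nat_lit 93, nat_lit 72246091⟩, ⟨nat_lit 19, nat_lit 100, nat_lit 80, nat_lit 100, nat_lit 256690737⟩, ⟨nat_lit 11, nat_lit 94, nat_lit 94, nat_lit 100, nat_lit 267762841⟩]⟩
noncomputable def p094_l67 : Lf2 := ⟨nat_lit 0, nat_lit 5, [nat_lit 4, nat_lit 5, nat_lit 5, nat_lit 20], false, nat_lit 160, nat_lit 300, nat_lit 160, nat_lit 328, ⟨nat_lit 1000, nat_lit 0, nat_lit 0, nat_lit 0, nat_lit 0, nat_lit 0, nat_lit 0, nat_lit 0, nat_lit 0, nat_lit 0, nat_lit 0, nat_lit 0, nat_lit 0, nat_lit 0, nat_lit 0, nat_lit 0, false, false⟩,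
 nat_lit 0, nat_lit 8696, nat_lit 0, nat_lit 0, nat_lit 6521, nat_lit 5006, nat_lit 1162, nat_lit 0, nat_lit 0, nat_lit 0, nat_lit 0, nat_lit 0, nat_lit 0, nat_lit 0, nat_lit 0, nat_lit 0, nat_lit 0, nat_lit 0, [],
 ⟨p094_k5, nat_lit 0, nat_lit 0, nat_lit 348, nat_lit 0, nat_lit 808670, [nat_lit 2032000001, nat_lit 3282000000, nat_lit 6250000000], [], [nat_lit 16297626750, nat_lit 16646713810, nat_lit 16273244284, nat_lit 16618383372, nat_lit 21568190627, nat_lit 21895018920, nat_lit 21483691697, nat_lit 21776752772], nat_lit 1271250, nat_lit 1271250, nat_lit 689850, nat_lit 780000, nat_lit 1100001, nat_lit 2298750, [nat_lit 490000, nat_lit 780000, nat_lit 1435000], [nat_lit 85, nat_lit 40, nat_lit 40, nat_lit 80, nat_lit 16, nat_lit 345, nat_lit 125, nat_lit 12]⟩, ⟨p094_k21, nat_lit 0, nat_lit 0, nat_lit 52, nat_lit 0, nat_lit 0, [nat_lit 3282000000, nat_lit 4688000000, nat_lit 6250000000], [], [nat_lit 13385928865,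 nat_lit 14306265314, nat_lit 13466153868, nat_lit 14371775384, nat_lit 22827070108, nat_lit 23499860923, nat_lit 22725163518, nat_lit 23388113098], nat_lit 0, nat_lit 0, nat_lit 0, nat_lit 0, nat_lit 0, nat_lit 0, [], [nat_lit 59, nat_lit 40, nat_lit 40, nat_lit 80, nat_lit 3, nat_lit 345, nat_lit 125, nat_lit 13]⟩,
 zbF0, [⟨nat_lit 0, nat_lit 96, nat_lit 86, nat_lit 100, nat_lit 554752559⟩, ⟨nat_lit 16, nat_lit 87, nat_lit 95, nat_lit 100, nat_lit 240104078⟩, ⟨nat_lit 19, nat_lit 97, nat_lit 84, nat_lit 100, nat_lit 309125668⟩, ⟨nat_lit 11, nat_lit 94, nat_lit 94, nat_lit 100, nat_lit 207414640⟩]⟩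
noncomputable def p094_l68 : Lf2 := ⟨nat_lit 0, nat_lit 5, [nat_lit 4, nat_lit 5, nat_lit 5, nat_lit 20], false, nat_lit 160, nat_lit 300, nat_lit 160, nat_lit 336, ⟨nat_lit 1000, nat_lit 0, nat_lit 0, nat_lit 0, nat_lit 0, nat_lit 0, nat_lit 0, nat_lit 0, nat_lit 0, nat_lit 0, nat_lit 0, nat_lit 0, nat_lit 0, nat_lit 0, nat_lit 0, nat_lit 0, false, false⟩,
 nat_lit 0, nat_lit 8696, nat_lit 0, nat_lit 0, nat_lit 6521, nat_lit 4944, nat_lit 1162, nat_lit 0, nat_lit 0, nat_lit 0, nat_lit 0, nat_lit 0, nat_lit 0, nat_lit 0, nat_lit 0, nat_lit 0, nat_lit 0, nat_lit 0, [],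
 ⟨p094_k5, nat_lit 0, nat_lit 0, nat_lit 321, nat_lit 0, nat_lit 734097, [nat_lit 2032000001, nat_lit 3282000000, nat_lit 6250000000], [], [nat_lit 16273244284, nat_lit 16618383372, nat_lit 16764792764, nat_lit 17133627875, nat_lit 21483691697, nat_lit 21776752772, nat_lit 21647616767, nat_lit 21957182383], nat_lit 1271250, nat_lit 1271250, nat_lit 780000, nat_lit 1100001, nat_lit 1100001, nat_lit 2298750, [nat_lit 490000, nat_lit 780000, nat_lit 1435000], [nat_lit 85, nat_lit 40, nat_lit 40, nat_lit 80, nat_lit 16, nat_lit 345, nat_lit 125, nat_lit 12]⟩, ⟨p094_k6, nat_lit 0, nat_lit 0, nat_lit 48, nat_lit 0, nat_lit 0, [nat_lit 3282000000, nat_lit 4688000000, nat_lit 7968000000], [], [nat_lit 12644394048, nat_lit 13543438232, nat_lit 13623142272, nat_lit 14466129952, nat_lit 22771094848, nat_lit 23354997560, nat_lit 23129883463, nat_lit 23680481652], nat_lit 0, nat_lit 0, nat_lit 0, nat_lit 0, nat_lit 0, nat_lit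 0, [], [nat_lit 36, nat_lit 40, nat_lit 40, nat_lit 80, nat_lit 7, nat_lit 345, nat_lit 125, nat_lit 11]⟩,
 zbF0, [⟨nat_lit 16, nat_lit 87, nat_lit 95, nat_lit 100, nat_lit 218708037⟩, ⟨nat_lit 19, nat_lit 100, nat_lit 80, nat_lit 100, nat_lit 293571860⟩, ⟨nat_lit 11, nat_lit 85, nat_lit 85, nat_lit 100, nat_lit 251275667⟩]⟩
noncomputable def p094_l69 : Lf2 := ⟨nat_lit 0, nat_lit 5, [nat_lit 4, nat_lit 5, nat_lit 5, nat_lit 20], false, nat_lit 160, nat_lit 300, nat_lit 160, nat_lit 328, ⟨nat_lit 1000, nat_lit 0, nat_lit 0, nat_lit 0, nat_lit 0, nat_lit 0, nat_lit 0, nat_lit 0, nat_lit 0, nat_lit 0, nat_lit 0, nat_lit 0, nat_lit 0, nat_lit 0, nat_lit 0, nat_lit 0, false, false⟩,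
 nat_lit 0, nat_lit 8696, nat_lit 0, nat_lit 0, nat_lit 6521, nat_lit 5006, nat_lit 1162, nat_lit 0, nat_lit 0, nat_lit 0, nat_lit 0, nat_lit 0, nat_lit 0, nat_lit 0, nat_lit 0, nat_lit 0, nat_lit 0, nat_lit 0, [],
 ⟨p094_k5, nat_lit 0, nat_lit 0, nat_lit 344, nat_lit 0, nat_lit 808670, [nat_lit 2032000001, nat_lit 3282000000, nat_lit 6250000000], [], [nat_lit 16273244284, nat_lit 16618383372, nat_lit 16764792764, nat_lit 17133627875, nat_lit 21483691697, nat_lit 21776752772, nat_lit 21647616767, nat_lit 21957182383], nat_lit 1271250, nat_lit 1271250, nat_lit 780000, nat_lit 1100001, nat_lit 1100001, nat_lit 2298750, [nat_lit 490000, nat_lit 780000, nat_lit 1435000], [nat_lit 85, nat_lit 40, nat_lit 40, nat_lit 80, nat_lit 16, nat_lit 345, nat_lit 125, nat_lit 12]⟩, ⟨p094_k21, nat_lit 0, nat_lit 0, nat_lit 47, nat_lit 0, nat_lit 0, [nat_lit 3282000000, nat_lit 4688000000, nat_lit 6250000000], [], [nat_lit 13466153868,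 nat_lit 14371775384, nat_lit 14387311398, nat_lit 15236334468, nat_lit 22725163518, nat_lit 23388113098, nat_lit 23077534599, nat_lit 23652007147], nat_lit 0, nat_lit 0, nat_lit 0, nat_lit 0, nat_lit 0, nat_lit 0, [], [nat_lit 59, nat_lit 40, nat_lit 40, nat_lit 80, nat_lit 3, nat_lit 345, nat_lit 125, nat_lit 12]⟩,
 zbF0, [⟨nat_lit 0, nat_lit 96, nat_lit 86, nat_lit 100, nat_lit 358427217⟩, ⟨nat_lit 16, nat_lit 87, nat_lit 95, nat_lit 100, nat_lit 464207252⟩, ⟨nat_lit 19, nat_lit 97, nat_lit 84, nat_lit 100, nat_lit 510125423⟩]⟩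
noncomputable def p094_l70 : Lf2 := ⟨nat_lit 0, nat_lit 5, [nat_lit 4, nat_lit 5, nat_lit 5, nat_lit 20], false, nat_lit 160, nat_lit 296, nat_lit 160, nat_lit 336, ⟨nat_lit 1000, nat_lit 0, nat_lit 0, nat_lit 0, nat_lit 0, nat_lit 0, nat_lit 0, nat_lit 0, nat_lit 0, nat_lit 0, nat_lit 0, nat_lit 0, nat_lit 0, nat_lit 0, nat_lit 0, nat_lit 0, false, false⟩,
 nat_lit 0, nat_lit 9215, nat_lit 0, nat_lit 0, nat_lit 7046, nat_lit 4942, nat_lit 3559, nat_lit 0, nat_lit 0, nat_lit 0, nat_lit 0, nat_lit 0, nat_lit 0, nat_lit 0, nat_lit 0, nat_lit 0, nat_lit 0, nat_lit 0, [],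
 ⟨p094_k42, nat_lit 0, nat_lit 0, nat_lit 322, nat_lit 0, nat_lit 827380, [nat_lit 2032000001, nat_lit 4688000000], [], [nat_lit 14080398972, nat_lit 14559261658, nat_lit 14457927431, nat_lit 14897014966, nat_lit 19825820629, nat_lit 20180694090, nat_lit 19661595081, nat_lit 19988020199], nat_lit 1271250, nat_lit 1271250, nat_lit 660400, nat_lit 1100001, nat_lit 1100001, nat_lit 2264500, [nat_lit 490000, nat_lit 1100000], [nat_lit 24, nat_lit 40, nat_lit 40, nat_lit 80, nat_lit 33, nat_lit 249, nat_lit 40, nat_lit 10]⟩, ⟨p094_k43, nat_lit 0, nat_lit 0, nat_lit 70, nat_lit 0, nat_lit 0, [nat_lit 3282000000, nat_lit 6250000000, nat_lit 7968000000], [], [nat_lit 12517212228, nat_lit 14353733968, nat_lit 13625879496, nat_lit 15311465476, nat_lit 22842917987, nat_lit 24149999975, nat_lit 23130946844, nat_lit 24231939420], nat_lit 0, nat_lit 0, nat_lit 0, nat_lit 0, nat_lit 0, nat_lit 0, [], [nat_lit 18, nat_lit 40, nat_lit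 40, nat_lit 80, nat_lit 2, nat_lit 345, nat_lit 125, nat_lit 11]⟩,
 zbF0, [⟨nat_lit 0, nat_lit 97, nat_lit 84, nat_lit 100, nat_lit 513615220⟩, ⟨nat_lit 16, nat_lit 85, nat_lit 97, nat_lit 100, nat_lit 325514928⟩, ⟨nat_lit 19, nat_lit 100, nat_lit 80, nat_lit 100, nat_lit 354053763⟩, ⟨nat_lit 11, nat_lit 87, nat_lit 87, nat_lit 100, nat_lit 148432965⟩]⟩
noncomputable def p094_l71 : Lf2 := ⟨nat_lit 0, nat_lit 10, [nat_lit 0, nat_lit 5, nat_lit 5, nat_lit 20], false, nat_lit 160, nat_lit 300, nat_lit 160, nat_lit 336, ⟨nat_lit 1000, nat_lit 0, nat_lit 0, nat_lit 0, nat_lit 0, nat_lit 0, nat_lit 0, nat_lit 0, nat_lit 0, nat_lit 0, nat_lit 0, nat_lit 0, nat_lit 0, nat_lit 0, nat_lit 0, nat_lit 0, false, false⟩,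
 nat_lit 0, nat_lit 17859, nat_lit 0, nat_lit 0, nat_lit 13393, nat_lit 4821, nat_lit 1796, nat_lit 504, nat_lit 0, nat_lit 0, nat_lit 0, nat_lit 0, nat_lit 0, nat_lit 0, nat_lit 0, nat_lit 0, nat_lit 0, nat_lit 0, [],
 ⟨p094_k8, nat_lit 0, nat_lit 0, nat_lit 255, nat_lit 0, nat_lit 574159, [nat_lit 6064000001, nat_lit 9330000000, nat_lit 16330000000], [], [nat_lit 19213442692, nat_lit 20341685581, nat_lit 18341023740, nat_lit 19359863141, nat_lit 25137102685, nat_lit 26200628974, nat_lit 23806970161, nat_lit 24789169068], nat_lit 1271250, nat_lit 1271250, nat_lit 631250, nat_lit 1100001, nat_lit 1100001, nat_lit 2298750, [nat_lit 490000, nat_lit 780000, nat_lit 1435000], [nat_lit 85, nat_lit 40, nat_lit 40, nat_lit 80, nat_lit 16, nat_lit 345, nat_lit 125, nat_lit 12]⟩, ⟨p094_k9, nat_lit 0, nat_lit 0, nat_lit 59, nat_lit 0, nat_lit 0, [nat_lit 3282000000, nat_lit 4688000000, nat_lit 9842000000], [], [nat_lit 12640606134,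 nat_lit 14460266469, nat_lit 13791481548, nat_lit 15453510038, nat_lit 22899639999, nat_lit 24081248822, nat_lit 23195281382, nat_lit 24283944011], nat_lit 0, nat_lit 0, nat_lit 0, nat_lit 0, nat_lit 0, nat_lit 0, [], [nat_lit 42, nat_lit 40, nat_lit 40, nat_lit 80, nat_lit 13, nat_lit 345, nat_lit 125, nat_lit 9]⟩,
 zbF0, [⟨nat_lit 0, nat_lit 92, nat_lit 81, nat_lit 100, nat_lit 842255034⟩, ⟨nat_lit 4, nat_lit 100, nat_lit 84, nat_lit 93, nat_lit 851892100⟩, ⟨nat_lit 7, nat_lit 94, nat_lit 100, nat_lit 97, nat_lit 494093041⟩]⟩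
noncomputable def p094_l72 : Lf2 := ⟨nat_lit 0, nat_lit 10, [nat_lit 0, nat_lit 5, nat_lit 5, nat_lit 20], false, nat_lit 160, nat_lit 288, nat_lit 160, nat_lit 336, ⟨nat_lit 1000, nat_lit 0, nat_lit 0, nat_lit 0, nat_lit 0, nat_lit 0, nat_lit 0, nat_lit 0, nat_lit 0, nat_lit 0, nat_lit 0, nat_lit 0, nat_lit 0, nat_lit 0, nat_lit 0, nat_lit 0, false, false⟩,
 nat_lit 0, nat_lit 7434, nat_lit 0, nat_lit 0, nat_lit 5795, nat_lit 4970, nat_lit 2378, nat_lit 23, nat_lit 0, nat_lit 0, nat_lit 0, nat_lit 0, nat_lit 0, nat_lit 0, nat_lit 0, nat_lit 0, nat_lit 0, nat_lit 0, [],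
 ⟨p094_k25, nat_lit 0, nat_lit 0, nat_lit 411, nat_lit 0, nat_lit 910907, [nat_lit 2216000000, nat_lit 5056000001, nat_lit 6710000000], [], [nat_lit 17373874041, nat_lit 17955362337, nat_lit 17793665867, nat_lit 18336030832, nat_lit 20861614775, nat_lit 21663038456, nat_lit 21128209089, nat_lit 21874775153], nat_lit 1271250, nat_lit 1271250, nat_lit 719601, nat_lit 1100001, nat_lit 1100001, nat_lit 2196000, [nat_lit 490000, nat_lit 1100000, nat_lit 1442500], [nat_lit 6, nat_lit 40, nat_lit 40, nat_lit 80, nat_lit 3, nat_lit 345, nat_lit 125, nat_lit 12]⟩, ⟨p094_k37, nat_lit 0, nat_lit 0, nat_lit 66, nat_lit 0, nat_lit 0, [nat_lit 3282000000, nat_lit 6250000000, nat_lit 9842000000], [], [nat_lit 12545004696, nat_lit 14368121980, nat_lit 13587558360, nat_lit 15278595660, nat_lit 22796716620, nat_lit 24095275942, nat_lit 23116059513, nat_lit 24248445697], nat_lit 0, nat_lit 0, nat_lit 0, nat_lit 0, nat_lit 0, nat_lit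 0, [], [nat_lit 8, nat_lit 40, nat_lit 40, nat_lit 80, nat_lit 1, nat_lit 345, nat_lit 125, nat_lit 9]⟩,
 zbF0, [⟨nat_lit 0, nat_lit 96, nat_lit 79, nat_lit 100, nat_lit 193122475⟩, ⟨nat_lit 0, nat_lit 100, nat_lit 83, nat_lit 98, nat_lit 394584064⟩, ⟨nat_lit 16, nat_lit 83, nat_lit 98, nat_lit 100, nat_lit 432252180⟩, ⟨nat_lit 19, nat_lit 100, nat_lit 80, nat_lit 100, nat_lit 484260645⟩]⟩
noncomputable def p094_l73 : Lf2 := ⟨nat_lit 0, nat_lit 5, [nat_lit 4, nat_lit 5, nat_lit 5, nat_lit 20], false, nat_lit 160, nat_lit 300, nat_lit 160, nat_lit 320, ⟨nat_lit 1000, nat_lit 0, nat_lit 0, nat_lit 0, nat_lit 0, nat_lit 0, nat_lit 0, nat_lit 0, nat_lit 0, nat_lit 0, nat_lit 0, nat_lit 0, nat_lit 0, nat_lit 0, nat_lit 0, nat_lit 0, false, false⟩,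
 nat_lit 0, nat_lit 8935, nat_lit 0, nat_lit 0, nat_lit 6701, nat_lit 5009, nat_lit 1057, nat_lit 0, nat_lit 0, nat_lit 0, nat_lit 0, nat_lit 0, nat_lit 0, nat_lit 0, nat_lit 0, nat_lit 0, nat_lit 0, nat_lit 0, [],
 ⟨p094_k5, nat_lit 0, nat_lit 0, nat_lit 410, nat_lit 0, nat_lit 928277, [nat_lit 2032000001, nat_lit 3282000000, nat_lit 6250000000], [], [nat_lit 16933678068, nat_lit 17547761611, nat_lit 17237736760, nat_lit 17815168192, nat_lit 21353709118, nat_lit 21914480894, nat_lit 21459686552, nat_lit 22054951800], nat_lit 1271250, nat_lit 1271250, nat_lit 780000, nat_lit 1100001, nat_lit 1100001, nat_lit 2298750, [nat_lit 490000, nat_lit 780000, nat_lit 1435000], [nat_lit 85, nat_lit 40, nat_lit 40, nat_lit 80, nat_lit 16, nat_lit 345, nat_lit 125, nat_lit 12]⟩, ⟨p094_k31, nat_lit 0, nat_lit 0, nat_lit 47, nat_lit 0, nat_lit 0, [nat_lit 3282000000, nat_lit 4688000000, nat_lit 6250000000], [], [nat_lit 14368354076,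 nat_lit 15274293850, nat_lit 15232812702, nat_lit 16082127807, nat_lit 22734191926, nat_lit 23415290703, nat_lit 23084455014, nat_lit 23676249600], nat_lit 0, nat_lit 0, nat_lit 0, nat_lit 0, nat_lit 0, nat_lit 0, [], [nat_lit 59, nat_lit 40, nat_lit 40, nat_lit 80, nat_lit 3, nat_lit 345, nat_lit 125, nat_lit 12]⟩,
 zbF0, [⟨nat_lit 0, nat_lit 90, nat_lit 83, nat_lit 100, nat_lit 613464108⟩, ⟨nat_lit 16, nat_lit 87, nat_lit 95, nat_lit 100, nat_lit 426520160⟩, ⟨nat_lit 19, nat_lit 94, nat_lit 88, nat_lit 100, nat_lit 499856778⟩]⟩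
noncomputable def p094_l74 : Lf2 := ⟨nat_lit 0, nat_lit 5, [nat_lit 4, nat_lit 5, nat_lit 5, nat_lit 20], false, nat_lit 160, nat_lit 300, nat_lit 160, nat_lit 312, ⟨nat_lit 1000, nat_lit 0, nat_lit 0, nat_lit 0, nat_lit 0, nat_lit 0, nat_lit 0, nat_lit 0, nat_lit 0, nat_lit 0, nat_lit 0, nat_lit 0, nat_lit 0, nat_lit 0, nat_lit 0, nat_lit 0, false, false⟩,
 nat_lit 0, nat_lit 8921, nat_lit 0, nat_lit 0, nat_lit 6690, nat_lit 5009, nat_lit 1057, nat_lit 0, nat_lit 0, nat_lit 0, nat_lit 0, nat_lit 0, nat_lit 0, nat_lit 0, nat_lit 0, nat_lit 0, nat_lit 0, nat_lit 0, [],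
 ⟨p094_k5, nat_lit 0, nat_lit 0, nat_lit 435, nat_lit 0, nat_lit 1011881, [nat_lit 2032000001, nat_lit 3282000000, nat_lit 6250000000], [], [nat_lit 17068583765, nat_lit 17671120357, nat_lit 17281992400, nat_lit 17858906480, nat_lit 21426308958, nat_lit 21971203072, nat_lit 21501242880, nat_lit 22070350983], nat_lit 1271250, nat_lit 1271250, nat_lit 872850, nat_lit 1100001, nat_lit 1100001, nat_lit 2298750, [nat_lit 490000, nat_lit 780000, nat_lit 1435000], [nat_lit 85, nat_lit 40, nat_lit 40, nat_lit 80, nat_lit 16, nat_lit 345, nat_lit 125, nat_lit 12]⟩, ⟨p094_k32, nat_lit 0, nat_lit 0, nat_lit 46, nat_lit 0, nat_lit 0, [nat_lit 3282000000, nat_lit 4688000000, nat_lit 6250000000], [], [nat_lit 15516644038, nat_lit 16405596411, nat_lit 16082127807, nat_lit 16931442912, nat_lit 22975829956, nat_lit 23661765796, nat_lit 23215859081, nat_lit 23837752877], nat_lit 0, nat_lit 0, nat_lit 0, nat_lit 0, nat_lit 0, nat_lit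 0, [], [nat_lit 59, nat_lit 40, nat_lit 40, nat_lit 80, nat_lit 3, nat_lit 345, nat_lit 125, nat_lit 12]⟩,
 zbF0, [⟨nat_lit 0, nat_lit 89, nat_lit 85, nat_lit 100, nat_lit 592738174⟩, ⟨nat_lit 16, nat_lit 87, nat_lit 95, nat_lit 100, nat_lit 425444056⟩, ⟨nat_lit 19, nat_lit 91, nat_lit 91, nat_lit 100, nat_lit 500474622⟩]⟩
noncomputable def p094_l75 : Lf2 := ⟨nat_lit 0, nat_lit 10, [nat_lit 0, nat_lit 5, nat_lit 5, nat_lit 20], false, nat_lit 160, nat_lit 300, nat_lit 160, nat_lit 320, ⟨nat_lit 1000, nat_lit 0, nat_lit 0, nat_lit 0, nat_lit 0, nat_lit 0, nat_lit 0, nat_lit 0, nat_lit 0, nat_lit 0, nat_lit 0, nat_lit 0, nat_lit 0, nat_lit 0, nat_lit 0, nat_lit 0, false, false⟩,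
 nat_lit 0, nat_lit 9852, nat_lit 0, nat_lit 0, nat_lit 7388, nat_lit 5009, nat_lit 1086, nat_lit 62, nat_lit 0, nat_lit 0, nat_lit 0, nat_lit 0, nat_lit 0, nat_lit 0, nat_lit 0, nat_lit 0, nat_lit 0, nat_lit 0, [],
 ⟨p094_k8, nat_lit 0, nat_lit 0, nat_lit 321, nat_lit 0, nat_lit 731565, [nat_lit 2528000001, nat_lit 4026000000, nat_lit 7490000000], [], [nat_lit 17604498528, nat_lit 18250266980, nat_lit 17781826832, nat_lit 18388036740, nat_lit 21889086116, nat_lit 22517171066, nat_lit 21969493076, nat_lit 22581202809], nat_lit 1271250, nat_lit 1271250, nat_lit 780000, nat_lit 1100001, nat_lit 1100001, nat_lit 2298750, [nat_lit 490000, nat_lit 780000, nat_lit 1435000], [nat_lit 85, nat_lit 40, nat_lit 40, nat_lit 80, nat_lit 16, nat_lit 345, nat_lit 125, nat_lit 12]⟩, ⟨p094_k44, nat_lit 0, nat_lit 0, nat_lit 51, nat_lit 0, nat_lit 0, [nat_lit 3282000000, nat_lit 4688000000, nat_lit 7968000000], [], [nat_lit 14368354076,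 nat_lit 16180233624, nat_lit 15232812702, nat_lit 16931442912, nat_lit 22734191926, nat_lit 24096473988, nat_lit 23084455014, nat_lit 24318258172], nat_lit 0, nat_lit 0, nat_lit 0, nat_lit 0, nat_lit 0, nat_lit 0, [], [nat_lit 36, nat_lit 40, nat_lit 40, nat_lit 80, nat_lit 7, nat_lit 345, nat_lit 125, nat_lit 11]⟩,
 zbF0, [⟨nat_lit 0, nat_lit 88, nat_lit 82, nat_lit 100, nat_lit 647720663⟩, ⟨nat_lit 16, nat_lit 87, nat_lit 95, nat_lit 100, nat_lit 460523036⟩, ⟨nat_lit 19, nat_lit 94, nat_lit 88, nat_lit 100, nat_lit 485177637⟩]⟩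
noncomputable def p094_l76 : Lf2 := ⟨nat_lit 0, nat_lit 10, [nat_lit 0, nat_lit 5, nat_lit 5, nat_lit 20], false, nat_lit 160, nat_lit 288, nat_lit 160, nat_lit 320, ⟨nat_lit 1000, nat_lit 0, nat_lit 0, nat_lit 0, nat_lit 0, nat_lit 0, nat_lit 0, nat_lit 0, nat_lit 0, nat_lit 0, nat_lit 0, nat_lit 0, nat_lit 0, nat_lit 0, nat_lit 0, nat_lit 0, false, false⟩,
 nat_lit 0, nat_lit 7388, nat_lit 0, nat_lit 0, nat_lit 5759, nat_lit 5023, nat_lit 2465, nat_lit 0, nat_lit 0, nat_lit 0, nat_lit 0, nat_lit 0, nat_lit 0, nat_lit 0, nat_lit 0, nat_lit 0, nat_lit 0, nat_lit 0, [],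
 ⟨p094_k45, nat_lit 0, nat_lit 0, nat_lit 455, nat_lit 0, nat_lit 1063540, [nat_lit 2032000001, nat_lit 3282000000, nat_lit 6250000000], [], [nat_lit 16007996788, nat_lit 16660280277, nat_lit 16410786066, nat_lit 17036071996, nat_lit 20053645846, nat_lit 20791058815, nat_lit 20264319136, nat_lit 20971777269], nat_lit 1271250, nat_lit 1271250, nat_lit 872850, nat_lit 1100001, nat_lit 1100001, nat_lit 2196000, [nat_lit 490000, nat_lit 780000, nat_lit 1435000], [nat_lit 85, nat_lit 40, nat_lit 40, nat_lit 80, nat_lit 16, nat_lit 345, nat_lit 125, nat_lit 12]⟩, ⟨p094_k44, nat_lit 0, nat_lit 0, nat_lit 49, nat_lit 0, nat_lit 0, [nat_lit 3282000000, nat_lit 4688000000, nat_lit 7968000000], [], [nat_lit 14611584919, nat_lit 16392386649, nat_lit 15216377794, nat_lit 16917733664, nat_lit 22832629023, nat_lit 24173066911, nat_lit 23076747258, nat_lit 24326978884], nat_lit 0, nat_lit 0, nat_lit 0, nat_lit 0, nat_lit 0, nat_lit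 0, [], [nat_lit 36, nat_lit 40, nat_lit 40, nat_lit 80, nat_lit 7, nat_lit 345, nat_lit 125, nat_lit 11]⟩,
 zbF0, [⟨nat_lit 0, nat_lit 92, nat_lit 81, nat_lit 100, nat_lit 582612693⟩, ⟨nat_lit 16, nat_lit 83, nat_lit 98, nat_lit 100, nat_lit 442486217⟩, ⟨nat_lit 19, nat_lit 94, nat_lit 88, nat_lit 100, nat_lit 500151470⟩]⟩
noncomputable def p094_l77 : Lf2 := ⟨nat_lit 0, nat_lit 10, [nat_lit 0, nat_lit 5, nat_lit 5, nat_lit 20], false, nat_lit 160, nat_lit 300, nat_lit 160, nat_lit 336, ⟨nat_lit 1000, nat_lit 0, nat_lit 0, nat_lit 0, nat_lit 0, nat_lit 0, nat_lit 0, nat_lit 0, nat_lit 0, nat_lit 0, nat_lit 0, nat_lit 0, nat_lit 0, nat_lit 0, nat_lit 0, nat_lit 0, false, false⟩,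
 nat_lit 0, nat_lit 8939, nat_lit 0, nat_lit 0, nat_lit 6704, nat_lit 4840, nat_lit 1068, nat_lit 0, nat_lit 0, nat_lit 0, nat_lit 0, nat_lit 0, nat_lit 0, nat_lit 0, nat_lit 0, nat_lit 0, nat_lit 0, nat_lit 0, [],
 ⟨p094_k8, nat_lit 0, nat_lit 0, nat_lit 424, nat_lit 0, nat_lit 1000298, [nat_lit 2032000001, nat_lit 3282000000, nat_lit 6250000000], [], [nat_lit 17183867040, nat_lit 17473399524, nat_lit 19120936640, nat_lit 19404688340, nat_lit 21448353008, nat_lit 21695728814, nat_lit 23104347608, nat_lit 23408860411], nat_lit 1271250, nat_lit 1271250, nat_lit 1100001, nat_lit 1785000, nat_lit 1100001, nat_lit 2298750, [nat_lit 490000, nat_lit 780000, nat_lit 1435000], [nat_lit 85, nat_lit 40, nat_lit 40, nat_lit 80, nat_lit 16, nat_lit 373, nat_lit 150, nat_lit 13]⟩, ⟨p094_k9, nat_lit 0, nat_lit 0, nat_lit 50, nat_lit 0, nat_lit 0, [nat_lit 3282000000, nat_lit 4688000000, nat_lit 9842000000], [], [nat_lit 13765477920,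 nat_lit 17096933120, nat_lit 17192035360, nat_lit 20023038400, nat_lit 23185179265, nat_lit 25366376736, nat_lit 25137138784, nat_lit 27082571585], nat_lit 0, nat_lit 0, nat_lit 0, nat_lit 0, nat_lit 0, nat_lit 0, [], [nat_lit 42, nat_lit 40, nat_lit 40, nat_lit 80, nat_lit 13, nat_lit 373, nat_lit 150, nat_lit 10]⟩,
 zbF0, [⟨nat_lit 16, nat_lit 87, nat_lit 95, nat_lit 100, nat_lit 425773930⟩, ⟨nat_lit 19, nat_lit 100, nat_lit 100, nat_lit 100, nat_lit 463343655⟩]⟩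
noncomputable def p094_l78 : Lf2 := ⟨nat_lit 0, nat_lit 10, [nat_lit 0, nat_lit 5, nat_lit 5, nat_lit 20], false, nat_lit 160, nat_lit 296, nat_lit 160, nat_lit 336, ⟨nat_lit 1000, nat_lit 0, nat_lit 0, nat_lit 0, nat_lit 0, nat_lit 0, nat_lit 0, nat_lit 0, nat_lit 0, nat_lit 0, nat_lit 0, nat_lit 0, nat_lit 0, nat_lit 0, nat_lit 0, nat_lit 0, false, false⟩,
 nat_lit 0, nat_lit 7527, nat_lit 0, nat_lit 0, nat_lit 5755, nat_lit 4840, nat_lit 2553, nat_lit 0, nat_lit 0, nat_lit 0, nat_lit 0, nat_lit 0, nat_lit 0, nat_lit 0, nat_lit 0, nat_lit 0, nat_lit 0, nat_lit 0, [],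
 ⟨p094_k46, nat_lit 0, nat_lit 0, nat_lit 429, nat_lit 0, nat_lit 1012476, [nat_lit 2032000001, nat_lit 3282000000, nat_lit 6250000000], [], [nat_lit 17791723323, nat_lit 18066072703, nat_lit 19549595141, nat_lit 19793407361, nat_lit 21432557016, nat_lit 21648894247, nat_lit 23080991395, nat_lit 23365045440], nat_lit 1271250, nat_lit 1271250, nat_lit 1100001, nat_lit 1785000, nat_lit 1100001, nat_lit 2264500, [nat_lit 490000, nat_lit 780000, nat_lit 1435000], [nat_lit 85, nat_lit 40, nat_lit 40, nat_lit 80, nat_lit 16, nat_lit 373, nat_lit 150, nat_lit 13]⟩, ⟨p094_k9, nat_lit 0, nat_lit 0, nat_lit 50, nat_lit 0, nat_lit 0, [nat_lit 3282000000, nat_lit 4688000000, nat_lit 9842000000], [], [nat_lit 13765477920, nat_lit 17096933120, nat_lit 17192035360, nat_lit 20023038400, nat_lit 23185179265, nat_lit 25366376736, nat_lit 25137138784, nat_lit 27082571585], nat_lit 0, nat_lit 0, nat_lit 0, nat_lit 0, nat_lit 0, nat_lit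 0, [], [nat_lit 42, nat_lit 40, nat_lit 40, nat_lit 80, nat_lit 13, nat_lit 373, nat_lit 150, nat_lit 10]⟩,
 zbF0, [⟨nat_lit 16, nat_lit 85, nat_lit 97, nat_lit 100, nat_lit 412221413⟩, ⟨nat_lit 19, nat_lit 100, nat_lit 100, nat_lit 100, nat_lit 463343655⟩]⟩
noncomputable def p094_l79 : Lf2 := ⟨nat_lit 0, nat_lit 10, [nat_lit 0, nat_lit 5, nat_lit 5, nat_lit 20], false, nat_lit 160, nat_lit 288, nat_lit 160, nat_lit 336, ⟨nat_lit 1000, nat_lit 0, nat_lit 0, nat_lit 0, nat_lit 0, nat_lit 0, nat_lit 0, nat_lit 0, nat_lit 0, nat_lit 0, nat_lit 0, nat_lit 0, nat_lit 0, nat_lit 0, nat_lit 0, nat_lit 0, false, false⟩,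
 nat_lit 0, nat_lit 7294, nat_lit 0, nat_lit 0, nat_lit 5685, nat_lit 4840, nat_lit 2430, nat_lit 0, nat_lit 0, nat_lit 0, nat_lit 0, nat_lit 0, nat_lit 0, nat_lit 0, nat_lit 0, nat_lit 0, nat_lit 0, nat_lit 0, [],
 ⟨p094_k45, nat_lit 0, nat_lit 0, nat_lit 449, nat_lit 0, nat_lit 1063540, [nat_lit 2032000001, nat_lit 3282000000, nat_lit 6250000000], [], [nat_lit 16761689478, nat_lit 17382515428, nat_lit 18809273403, nat_lit 19348118718, nat_lit 20598768339, nat_lit 21085867626, nat_lit 22263430333, nat_lit 22868248721], nat_lit 1271250, nat_lit 1271250, nat_lit 1100001, nat_lit 1785000, nat_lit 1100001, nat_lit 2196000, [nat_lit 490000, nat_lit 780000, nat_lit 1435000], [nat_lit 85, nat_lit 40, nat_lit 40, nat_lit 80, nat_lit 16, nat_lit 373, nat_lit 150, nat_lit 13]⟩, ⟨p094_k9, nat_lit 0, nat_lit 0, nat_lit 50, nat_lit 0, nat_lit 0, [nat_lit 3282000000, nat_lit 4688000000, nat_lit 9842000000], [], [nat_lit 13765477920,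 nat_lit 17096933120, nat_lit 17192035360, nat_lit 20023038400, nat_lit 23185179265, nat_lit 25366376736, nat_lit 25137138784, nat_lit 27082571585], nat_lit 0, nat_lit 0, nat_lit 0, nat_lit 0, nat_lit 0, nat_lit 0, [], [nat_lit 42, nat_lit 40, nat_lit 40, nat_lit 80, nat_lit 13, nat_lit 373, nat_lit 150, nat_lit 10]⟩,
 zbF0, [⟨nat_lit 0, nat_lit 81, nat_lit 72, nat_lit 100, nat_lit 160710255⟩, ⟨nat_lit 16, nat_lit 83, nat_lit 98, nat_lit 100, nat_lit 435384631⟩, ⟨nat_lit 7, nat_lit 100, nat_lit 100, nat_lit 100, nat_lit 463343655⟩]⟩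
noncomputable def p094_l80 : Lf2 := ⟨nat_lit 0, nat_lit 10, [nat_lit 0, nat_lit 5, nat_lit 5, nat_lit 20], false, nat_lit 160, nat_lit 276, nat_lit 160, nat_lit 336, ⟨nat_lit 1000, nat_lit 0, nat_lit 0, nat_lit 0, nat_lit 0, nat_lit 0, nat_lit 0, nat_lit 0, nat_lit 0, nat_lit 0, nat_lit 0, nat_lit 0, nat_lit 0, nat_lit 0, nat_lit 0, nat_lit 0, false, false⟩,
 nat_lit 0, nat_lit 6371, nat_lit 0, nat_lit 0, nat_lit 5157, nat_lit 5004, nat_lit 1337, nat_lit 0, nat_lit 0, nat_lit 0, nat_lit 0, nat_lit 0, nat_lit 0, nat_lit 0, nat_lit 0, nat_lit 0, nat_lit 0, nat_lit 0, [],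
 ⟨p094_k34, nat_lit 0, nat_lit 0, nat_lit 521, nat_lit 0, nat_lit 1164010, [nat_lit 2032000001, nat_lit 4688000000, nat_lit 6250000000], [], [nat_lit 20363445268, nat_lit 21513948484, nat_lit 22644860831, nat_lit 23598396597, nat_lit 23532430681, nat_lit 24821619367, nat_lit 25388555902, nat_lit 26779683687], nat_lit 1271250, nat_lit 1271250, nat_lit 810650, nat_lit 1764750, nat_lit 1100001, nat_lit 2093250, [nat_lit 490000, nat_lit 1100000, nat_lit 1442500], [nat_lit 6, nat_lit 40, nat_lit 40, nat_lit 80, nat_lit 3, nat_lit 373, nat_lit 150, nat_lit 13]⟩, ⟨p094_k37, nat_lit 0, nat_lit 0, nat_lit 69, nat_lit 0, nat_lit 0, [nat_lit 3282000000, nat_lit 6250000000, nat_lit 9842000000], [], [nat_lit 12661016367, nat_lit 16260021357, nat_lit 17004862816, nat_lit 19886551040, nat_lit 22780946536, nat_lit 25349662429, nat_lit 25111812855, nat_lit 27196987431], nat_lit 0, nat_lit 0, nat_lit 0, nat_lit 0, nat_lit 0, nat_lit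 0, [], [nat_lit 8, nat_lit 40, nat_lit 40, nat_lit 80, nat_lit 1, nat_lit 373, nat_lit 150, nat_lit 10]⟩,
 zbF0, [⟨nat_lit 0, nat_lit 99, nat_lit 77, nat_lit 100, nat_lit 394611437⟩, ⟨nat_lit 16, nat_lit 77, nat_lit 100, nat_lit 99, nat_lit 459624061⟩, ⟨nat_lit 19, nat_lit 100, nat_lit 80, nat_lit 100, nat_lit 458720651⟩]⟩
noncomputable def b_V_800_700_20_20 : St := ⟨true, nat_lit 1, nat_lit 0, nat_lit 1, nat_lit 120, nat_lit 320, nat_lit 360, nat_lit 280, nat_lit 320, nat_lit 100, nat_lit 240, nat_lit 80, nat_lit 120, nat_lit 0, nat_lit 300, nat_lit 160, nat_lit 336, nat_lit 0, nat_lit 40, nat_lit 0, nat_lit 0, nat_lit 0, nat_lit 0⟩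
theorem d_V_800_700_20_20 (h : EB TB.env) : Dead b_V_800_700_20_20 := chkB_sound0 h (T :=
(.spl (nat_lit 4) (nat_lit 160)
(.spl (nat_lit 0) (nat_lit 340)
(.spl (nat_lit 0) (nat_lit 330)
(.spl (nat_lit 2) (nat_lit 160)
(.spl (nat_lit 3) (nat_lit 100)
(.trX (nat_lit 19) (nat_lit 100) (nat_lit 88) (nat_lit 94) (nat_lit 320) (.leaf p094_l57))
(.leaf p094_l58))
(.spl (nat_lit 0) (nat_lit 325)
(.leaf p094_l59)
(.leaf p094_l60)))
(.trZ (nat_lit 0) (nat_lit 100) (nat_lit 83) (nat_lit 98) (nat_lit 112) (.leaf p094_l61)))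
(.trZ (nat_lit 0) (nat_lit 99) (nat_lit 77) (nat_lit 100) (nat_lit 124) (.leaf p094_l62)))
(.spl (nat_lit 0) (nat_lit 340)
(.spl (nat_lit 7) (nat_lit 600)
(.spl (nat_lit 2) (nat_lit 120)
(.spl (nat_lit 1) (nat_lit 300)
(.leaf p094_l63)
(.emL (nat_lit 0) (nat_lit 94) (nat_lit 87) (nat_lit 100)))
(.leaf p094_l64))
(.spl (nat_lit 2) (nat_lit 160)
(.spl (nat_lit 1) (nat_lit 300)
(.spl (nat_lit 0) (nat_lit 330)
(.spl (nat_lit 6) (nat_lit 20)
(.spl (nat_lit 0) (nat_lit 325)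
(.spl (nat_lit 2) (nat_lit 120)
(.spl (nat_lit 1) (nat_lit 290)
(.spl (nat_lit 0) (nat_lit 323)
(.leaf p094_l65)
(.trZ (nat_lit 0) (nat_lit 100) (nat_lit 86) (nat_lit 96) (nat_lit 104) (.trX (nat_lit 16) (nat_lit 86) (nat_lit 96) (nat_lit 100) (nat_lit 296) (.leaf p094_l66))))
(.trZ (nat_lit 0) (nat_lit 100) (nat_lit 89) (nat_lit 100) (nat_lit 108) (.trX (nat_lit 19) (nat_lit 97) (nat_lit 84) (nat_lit 100) (nat_lit 328) (.leaf p094_l67))))
(.spl (nat_lit 1) (nat_lit 290)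
(.leaf p094_l68)
(.trX (nat_lit 19) (nat_lit 97) (nat_lit 84) (nat_lit 100) (nat_lit 328) (.leaf p094_l69))))
(.trZ (nat_lit 0) (nat_lit 100) (nat_lit 85) (nat_lit 97) (nat_lit 104) (.trX (nat_lit 16) (nat_lit 85) (nat_lit 97) (nat_lit 100) (nat_lit 296) (.leaf p094_l70))))
(.leaf p094_l71))
(.trZ (nat_lit 0) (nat_lit 100) (nat_lit 83) (nat_lit 98) (nat_lit 112) (.trX (nat_lit 16) (nat_lit 83) (nat_lit 98) (nat_lit 100) (nat_lit 288) (.leaf p094_l72))))
(.trZ (nat_lit 0) (nat_lit 94) (nat_lit 87) (nat_lit 100) (nat_lit 120) (.trX (nat_lit 19) (nat_lit 94) (nat_lit 88) (nat_lit 100) (nat_lit 320) (.spl (nat_lit 0) (nat_lit 330)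
(.spl (nat_lit 6) (nat_lit 20)
(.spl (nat_lit 1) (nat_lit 310)
(.leaf p094_l73)
(.trZ (nat_lit 0) (nat_lit 89) (nat_lit 85) (nat_lit 100) (nat_lit 132) (.trX (nat_lit 19) (nat_lit 91) (nat_lit 91) (nat_lit 100) (nat_lit 312) (.leaf p094_l74))))
(.leaf p094_l75))
(.trZ (nat_lit 0) (nat_lit 92) (nat_lit 81) (nat_lit 100) (nat_lit 132) (.trX (nat_lit 16) (nat_lit 83) (nat_lit 98) (nat_lit 100) (nat_lit 288) (.leaf p094_l76)))))))
(.spl (nat_lit 0) (nat_lit 330)
(.spl (nat_lit 0) (nat_lit 325)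
(.leaf p094_l77)
(.trX (nat_lit 16) (nat_lit 85) (nat_lit 97) (nat_lit 100) (nat_lit 296) (.leaf p094_l78)))
(.trX (nat_lit 16) (nat_lit 83) (nat_lit 98) (nat_lit 100) (nat_lit 288) (.leaf p094_l79)))))
(.trZ (nat_lit 0) (nat_lit 99) (nat_lit 77) (nat_lit 100) (nat_lit 124) (.trX (nat_lit 16) (nat_lit 77) (nat_lit 100) (nat_lit 99) (nat_lit 276) (.leaf p094_l80)))))) (by decide +kernel)
noncomputable def p094_l81 : Lf2 := ⟨nat_lit 0, nat_lit 10, [nat_lit 0, nat_lit 5, nat_lit 5, nat_lit 20], false, nat_lit 0, nat_lit 160, nat_lit 0, nat_lit 160, ⟨nat_lit 1000, nat_lit 0, nat_lit 0, nat_lit 0, nat_lit 0, nat_lit 0, nat_lit 0, nat_lit 0, nat_lit 0, nat_lit 0, nat_lit 0, nat_lit 0, nat_lit 0, nat_lit 0, nat_lit 0, nat_lit 0, false, false⟩,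
 nat_lit 0, nat_lit 8359, nat_lit 0, nat_lit 0, nat_lit 6268, nat_lit 6683, nat_lit 479, nat_lit 0, nat_lit 0, nat_lit 942, nat_lit 0, nat_lit 0, nat_lit 0, nat_lit 0, nat_lit 0, nat_lit 0, nat_lit 0, nat_lit 0, [],
 ⟨p094_k23, nat_lit 0, nat_lit 0, nat_lit 562, nat_lit 0, nat_lit 1121998, [nat_lit 2032000001, nat_lit 4688000000, nat_lit 6250000000], [], [nat_lit 33332916256, nat_lit 34144386448, nat_lit 38810262608, nat_lit 40198572432, nat_lit 31097681314, nat_lit 31679046618, nat_lit 35070722928, nat_lit 35517601160], nat_lit 1271250, nat_lit 1271250, nat_lit 1271250, nat_lit 1271250, nat_lit 0, nat_lit 1100001, [nat_lit 490000, nat_lit 1100000, nat_lit 1442500], [nat_lit 6, nat_lit 40, nat_lit 40, nat_lit 80, nat_lit 3, nat_lit 253, nat_lit 40, nat_lit 9]⟩, ⟨p094_k37, nat_lit 0, nat_lit 0, nat_lit 219, nat_lit 0, nat_lit 0, [nat_lit 3282000000, nat_lit 6250000000, nat_lit 9842000000], [], [nat_lit 28084199238,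 nat_lit 30318733274, nat_lit 37505756728, nat_lit 39971331348, nat_lit 24167970566, nat_lit 26036450858, nat_lit 32350320424, nat_lit 33711694056], nat_lit 0, nat_lit 0, nat_lit 0, nat_lit 0, nat_lit 0, nat_lit 0, [], [nat_lit 8, nat_lit 40, nat_lit 40, nat_lit 80, nat_lit 1, nat_lit 373, nat_lit 150, nat_lit 10]⟩,
 zbF0, []⟩
noncomputable def p094_l82 : Lf2 := ⟨nat_lit 0, nat_lit 10, [nat_lit 0, nat_lit 5, nat_lit 5, nat_lit 20], false, nat_lit 0, nat_lit 160, nat_lit 160, nat_lit 336, ⟨nat_lit 1000, nat_lit 0, nat_lit 0, nat_lit 0, nat_lit 0, nat_lit 0, nat_lit 0, nat_lit 0, nat_lit 0, nat_lit 0, nat_lit 0, nat_lit 0, nat_lit 0, nat_lit 0, nat_lit 0, nat_lit 0, false, false⟩,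
 nat_lit 0, nat_lit 8359, nat_lit 0, nat_lit 0, nat_lit 6268, nat_lit 7715, nat_lit 2896, nat_lit 0, nat_lit 0, nat_lit 0, nat_lit 0, nat_lit 0, nat_lit 0, nat_lit 0, nat_lit 0, nat_lit 0, nat_lit 0, nat_lit 0, [],
 ⟨p094_k23, nat_lit 0, nat_lit 0, nat_lit 507, nat_lit 0, nat_lit 960761, [nat_lit 2032000001, nat_lit 4688000000, nat_lit 6250000000], [], [nat_lit 33332916256, nat_lit 34144386448, nat_lit 38810262608, nat_lit 40198572432, nat_lit 30962878849, nat_lit 31596209936, nat_lit 35070722928, nat_lit 35517601160], nat_lit 1271250, nat_lit 1271250, nat_lit 1271250, nat_lit 1271250, nat_lit 0, nat_lit 1100001, [nat_lit 490000, nat_lit 1100000, nat_lit 1442500], [nat_lit 6, nat_lit 40, nat_lit 40, nat_lit 80, nat_lit 3, nat_lit 249, nat_lit 40, nat_lit 9]⟩, ⟨p094_k37, nat_lit 0, nat_lit 0, nat_lit 86, nat_lit 0, nat_lit 0, [nat_lit 3282000000, nat_lit 6250000000, nat_lit 9842000000], [], [nat_lit 18593389200, nat_lit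 20194453870, nat_lit 31272250920, nat_lit 32436041440, nat_lit 26800387488, nat_lit 27802018481, nat_lit 36272025469, nat_lit 36978605753], nat_lit 0, nat_lit 0, nat_lit 0, nat_lit 0, nat_lit 0, nat_lit 0, [], [nat_lit 8, nat_lit 40, nat_lit 40, nat_lit 80, nat_lit 1, nat_lit 428, nat_lit 200, nat_lit 11]⟩,
 zbF0, [⟨nat_lit 19, nat_lit 100, nat_lit 94, nat_lit 97, nat_lit 376300839⟩]⟩
noncomputable def p094_l83 : Lf2 := ⟨nat_lit 0, nat_lit 10, [nat_lit 0, nat_lit 5, nat_lit 5, nat_lit 20], false, nat_lit 0, nat_lit 160, nat_lit 160, nat_lit 320, ⟨nat_lit 1000, nat_lit 0, nat_lit 0, nat_lit 0, nat_lit 0, nat_lit 0, nat_lit 0, nat_lit 0, nat_lit 0, nat_lit 0, nat_lit 0, nat_lit 0, nat_lit 0, nat_lit 0, nat_lit 0, nat_lit 0, false, false⟩,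
 nat_lit 0, nat_lit 8359, nat_lit 0, nat_lit 0, nat_lit 6268, nat_lit 5140, nat_lit 425, nat_lit 0, nat_lit 0, nat_lit 2585, nat_lit 0, nat_lit 0, nat_lit 0, nat_lit 0, nat_lit 0, nat_lit 0, nat_lit 0, nat_lit 0, [],
 ⟨p094_k23, nat_lit 0, nat_lit 0, nat_lit 562, nat_lit 0, nat_lit 1121998, [nat_lit 2032000001, nat_lit 4688000000, nat_lit 6250000000], [], [nat_lit 33704608208, nat_lit 34412406256, nat_lit 38810262608, nat_lit 40198572432, nat_lit 31136725762, nat_lit 31679647386, nat_lit 35070722928, nat_lit 35517601160], nat_lit 1271250, nat_lit 1271250, nat_lit 1271250, nat_lit 1271250, nat_lit 0, nat_lit 1100001, [nat_lit 490000, nat_lit 1100000, nat_lit 1442500], [nat_lit 6, nat_lit 40, nat_lit 40, nat_lit 80, nat_lit 3, nat_lit 253, nat_lit 40, nat_lit 9]⟩, ⟨p094_k24, nat_lit 0, nat_lit 0, nat_lit 90, nat_lit 0, nat_lit 0, [nat_lit 3282000000, nat_lit 6250000000, nat_lit 7968000000], [], [nat_lit 19339343560,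 nat_lit 20642457760, nat_lit 29384110240, nat_lit 30353416160, nat_lit 25353227040, nat_lit 26263131680, nat_lit 33148945840, nat_lit 33821615680], nat_lit 0, nat_lit 0, nat_lit 0, nat_lit 0, nat_lit 0, nat_lit 0, [], [nat_lit 18, nat_lit 40, nat_lit 40, nat_lit 80, nat_lit 2, nat_lit 317, nat_lit 100, nat_lit 9]⟩,
 zbF0, [⟨nat_lit 7, nat_lit 100, nat_lit 93, nat_lit 97, nat_lit 427551373⟩]⟩
noncomputable def p094_l84 : Lf2 := ⟨nat_lit 0, nat_lit 10, [nat_lit 0, nat_lit 5, nat_lit 5, nat_lit 20], false, nat_lit 160, nat_lit 300, nat_lit 0, nat_lit 336, ⟨nat_lit 1000, nat_lit 0, nat_lit 0, nat_lit 0, nat_lit 0, nat_lit 0, nat_lit 0, nat_lit 0, nat_lit 0, nat_lit 0, nat_lit 0, nat_lit 0, nat_lit 0, nat_lit 0, nat_lit 0, nat_lit 0, false, false⟩,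
 nat_lit 0, nat_lit 9141, nat_lit 0, nat_lit 0, nat_lit 6855, nat_lit 7828, nat_lit 495, nat_lit 0, nat_lit 0, nat_lit 979, nat_lit 0, nat_lit 0, nat_lit 0, nat_lit 0, nat_lit 0, nat_lit 0, nat_lit 0, nat_lit 0, [],
 ⟨p094_k23, nat_lit 0, nat_lit 0, nat_lit 338, nat_lit 0, nat_lit 798955, [nat_lit 2032000001, nat_lit 4688000000, nat_lit 6250000000], [], [nat_lit 24322107680, nat_lit 24797356050, nat_lit 26993836380, nat_lit 27414493255, nat_lit 27188758005, nat_lit 27569141958, nat_lit 30020432570, nat_lit 30638492112], nat_lit 1271250, nat_lit 1271250, nat_lit 1271250, nat_lit 1271250, nat_lit 1100001, nat_lit 2298750, [nat_lit 490000, nat_lit 1100000, nat_lit 1442500], [nat_lit 6, nat_lit 40, nat_lit 40, nat_lit 80, nat_lit 3, nat_lit 289, nat_lit 75, nat_lit 9]⟩, ⟨p094_k37, nat_lit 0, nat_lit 0, nat_lit 184, nat_lit 0, nat_lit 0, [nat_lit 3282000000, nat_lit 6250000000, nat_lit 9842000000], [], [nat_lit 25548251455,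 nat_lit 26333286331, nat_lit 30700261039, nat_lit 31313576695, nat_lit 26718187130, nat_lit 27222457533, nat_lit 30760059271, nat_lit 31264915900], nat_lit 0, nat_lit 0, nat_lit 0, nat_lit 0, nat_lit 0, nat_lit 0, [], [nat_lit 8, nat_lit 40, nat_lit 40, nat_lit 80, nat_lit 1, nat_lit 401, nat_lit 175, nat_lit 11]⟩,
 zbF0, [⟨nat_lit 16, nat_lit 84, nat_lit 100, nat_lit 93, nat_lit 277134364⟩, ⟨nat_lit 16, nat_lit 87, nat_lit 95, nat_lit 100, nat_lit 117378604⟩, ⟨nat_lit 19, nat_lit 100, nat_lit 80, nat_lit 100, nat_lit 188698763⟩]⟩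
noncomputable def p094_l85 : Lf2 := ⟨nat_lit 0, nat_lit 10, [nat_lit 0, nat_lit 5, nat_lit 5, nat_lit 20], false, nat_lit 160, nat_lit 300, nat_lit 16, nat_lit 336, ⟨nat_lit 1000, nat_lit 0, nat_lit 0, nat_lit 0, nat_lit 0, nat_lit 0, nat_lit 0, nat_lit 0, nat_lit 0, nat_lit 0, nat_lit 0, nat_lit 0, nat_lit 0, nat_lit 0, nat_lit 0, nat_lit 0, false, false⟩,
 nat_lit 0, nat_lit 8094, nat_lit 0, nat_lit 0, nat_lit 6070, nat_lit 6425, nat_lit 406, nat_lit 0, nat_lit 0, nat_lit 1049, nat_lit 0, nat_lit 0, nat_lit 0, nat_lit 0, nat_lit 0, nat_lit 0, nat_lit 0, nat_lit 0, [],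
 ⟨p094_k23, nat_lit 0, nat_lit 0, nat_lit 353, nat_lit 0, nat_lit 798955, [nat_lit 2032000001, nat_lit 4688000000, nat_lit 6250000000], [], [nat_lit 30123198640, nat_lit 30471765900, nat_lit 33087300720, nat_lit 33383594290, nat_lit 31882520000, nat_lit 32171924033, nat_lit 34434624830, nat_lit 34752168998], nat_lit 1271250, nat_lit 1271250, nat_lit 1271250, nat_lit 1271250, nat_lit 1100001, nat_lit 2298750, [nat_lit 490000, nat_lit 1100000, nat_lit 1442500], [nat_lit 6, nat_lit 40, nat_lit 40, nat_lit 80, nat_lit 3, nat_lit 289, nat_lit 75, nat_lit 9]⟩, ⟨p094_k37, nat_lit 0, nat_lit 0, nat_lit 204, nat_lit 0, nat_lit 0, [nat_lit 3282000000, nat_lit 6250000000, nat_lit 9842000000], [], [nat_lit 28686080625, nat_lit 29236954411, nat_lit 35684966720, nat_lit 36286697616, nat_lit 30761671680, nat_lit 31129452660, nat_lit 34810451201, nat_lit 35080062856], nat_lit 0, nat_lit 0, nat_lit 0, nat_lit 0, nat_lit 0, nat_lit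 0, [], [nat_lit 8, nat_lit 40, nat_lit 40, nat_lit 80, nat_lit 1, nat_lit 317, nat_lit 100, nat_lit 8]⟩,
 zbF0, [⟨nat_lit 16, nat_lit 87, nat_lit 95, nat_lit 100, nat_lit 297761411⟩, ⟨nat_lit 4, nat_lit 100, nat_lit 84, nat_lit 93, nat_lit 12247292⟩, ⟨nat_lit 19, nat_lit 100, nat_lit 80, nat_lit 100, nat_lit 174409546⟩]⟩
noncomputable def p094_l86 : Lf2 := ⟨nat_lit 0, nat_lit 10, [nat_lit 0, nat_lit 5, nat_lit 5, nat_lit 20], false, nat_lit 160, nat_lit 300, nat_lit 0, nat_lit 328, ⟨nat_lit 1000, nat_lit 0, nat_lit 0, nat_lit 0, nat_lit 0, nat_lit 0, nat_lit 0, nat_lit 0, nat_lit 0, nat_lit 0, nat_lit 0, nat_lit 0, nat_lit 0, nat_lit 0, nat_lit 0, nat_lit 0, false, false⟩,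
 nat_lit 0, nat_lit 8414, nat_lit 0, nat_lit 0, nat_lit 6310, nat_lit 5894, nat_lit 438, nat_lit 0, nat_lit 0, nat_lit 2374, nat_lit 0, nat_lit 0, nat_lit 0, nat_lit 0, nat_lit 0, nat_lit 0, nat_lit 0, nat_lit 0, [],
 ⟨p094_k23, nat_lit 0, nat_lit 0, nat_lit 364, nat_lit 0, nat_lit 831907, [nat_lit 2032000001, nat_lit 4688000000, nat_lit 6250000000], [], [nat_lit 26753746200, nat_lit 26966595435, nat_lit 32293649920, nat_lit 32454270885, nat_lit 29158424770, nat_lit 29330290463, nat_lit 34588826580, nat_lit 34814436499], nat_lit 1271250, nat_lit 1271250, nat_lit 1271250, nat_lit 1271250, nat_lit 1100001, nat_lit 2298750, [nat_lit 490000, nat_lit 1100000, nat_lit 1442500], [nat_lit 6, nat_lit 40, nat_lit 40, nat_lit 80, nat_lit 3, nat_lit 289, nat_lit 75, nat_lit 9]⟩, ⟨p094_k38, nat_lit 0, nat_lit 0, nat_lit 196, nat_lit 0, nat_lit 0, [nat_lit 3282000000, nat_lit 6250000000, nat_lit 7968000000], [], [nat_lit 22347903876,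 nat_lit 23113017912, nat_lit 36021910494, nat_lit 36602574284, nat_lit 25851701779, nat_lit 26308460990, nat_lit 34058045504, nat_lit 34396753694], nat_lit 0, nat_lit 0, nat_lit 0, nat_lit 0, nat_lit 0, nat_lit 0, [], [nat_lit 18, nat_lit 40, nat_lit 40, nat_lit 80, nat_lit 2, nat_lit 317, nat_lit 100, nat_lit 10]⟩,
 zbF0, [⟨nat_lit 16, nat_lit 87, nat_lit 95, nat_lit 100, nat_lit 349460849⟩, ⟨nat_lit 19, nat_lit 97, nat_lit 84, nat_lit 100, nat_lit 31056476⟩, ⟨nat_lit 7, nat_lit 97, nat_lit 100, nat_lit 98, nat_lit 126202700⟩]⟩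
noncomputable def p094_l87 : Lf2 := ⟨nat_lit 0, nat_lit 10, [nat_lit 0, nat_lit 5, nat_lit 5, nat_lit 20], false, nat_lit 160, nat_lit 296, nat_lit 0, nat_lit 328, ⟨nat_lit 1000, nat_lit 0, nat_lit 0, nat_lit 0, nat_lit 0, nat_lit 0, nat_lit 0, nat_lit 0, nat_lit 0, nat_lit 0, nat_lit 0, nat_lit 0, nat_lit 0, nat_lit 0, nat_lit 0, nat_lit 0, false, false⟩,
 nat_lit 0, nat_lit 7508, nat_lit 0, nat_lit 0, nat_lit 5741, nat_lit 5937, nat_lit 1689, nat_lit 0, nat_lit 0, nat_lit 764, nat_lit 0, nat_lit 0, nat_lit 0, nat_lit 0, nat_lit 0, nat_lit 0, nat_lit 0, nat_lit 0, [],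
 ⟨p094_k40, nat_lit 0, nat_lit 0, nat_lit 370, nat_lit 0, nat_lit 851054, [nat_lit 2032000001, nat_lit 4688000000, nat_lit 6250000000], [], [nat_lit 24528618351, nat_lit 24746484553, nat_lit 31402210986, nat_lit 31693298668, nat_lit 27206931614, nat_lit 27386277006, nat_lit 34019774586, nat_lit 34239332683], nat_lit 1271250, nat_lit 1271250, nat_lit 1271250, nat_lit 1271250, nat_lit 1100001, nat_lit 2264500, [nat_lit 490000, nat_lit 1100000, nat_lit 1442500], [nat_lit 6, nat_lit 40, nat_lit 40, nat_lit 80, nat_lit 3, nat_lit 289, nat_lit 75, nat_lit 9]⟩, ⟨p094_k38, nat_lit 0, nat_lit 0, nat_lit 196, nat_lit 0, nat_lit 0, [nat_lit 3282000000, nat_lit 6250000000, nat_lit 7968000000], [], [nat_lit 24775440165, nat_lit 25522785754, nat_lit 36136372237, nat_lit 36718983282, nat_lit 27378902186, nat_lit 27798723150, nat_lit 34174102866, nat_lit 34448242107], nat_lit 0, nat_lit 0, nat_lit 0, nat_lit 0, nat_lit 0, nat_lit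 0, [], [nat_lit 18, nat_lit 40, nat_lit 40, nat_lit 80, nat_lit 2, nat_lit 317, nat_lit 100, nat_lit 10]⟩,
 zbF0, [⟨nat_lit 16, nat_lit 85, nat_lit 97, nat_lit 100, nat_lit 367357046⟩, ⟨nat_lit 19, nat_lit 97, nat_lit 84, nat_lit 100, nat_lit 157550613⟩]⟩
noncomputable def p094_l88 : Lf2 := ⟨nat_lit 0, nat_lit 10, [nat_lit 0, nat_lit 5, nat_lit 5, nat_lit 20], false, nat_lit 160, nat_lit 288, nat_lit 0, nat_lit 336, ⟨nat_lit 1000, nat_lit 0, nat_lit 0, nat_lit 0, nat_lit 0, nat_lit 0, nat_lit 0, nat_lit 0, nat_lit 0, nat_lit 0, nat_lit 0, nat_lit 0, nat_lit 0, nat_lit 0, nat_lit 0, nat_lit 0, false, false⟩,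
 nat_lit 0, nat_lit 6768, nat_lit 0, nat_lit 0, nat_lit 5275, nat_lit 6380, nat_lit 1302, nat_lit 0, nat_lit 0, nat_lit 866, nat_lit 0, nat_lit 0, nat_lit 0, nat_lit 0, nat_lit 0, nat_lit 0, nat_lit 0, nat_lit 0, [],
 ⟨p094_k25, nat_lit 0, nat_lit 0, nat_lit 401, nat_lit 0, nat_lit 910907, [nat_lit 2032000001, nat_lit 4688000000, nat_lit 6250000000], [], [nat_lit 24709598152, nat_lit 25101537202, nat_lit 31082769700, nat_lit 31641922800, nat_lit 26879112732, nat_lit 27189697662, nat_lit 33448592655, nat_lit 33882296071], nat_lit 1271250, nat_lit 1271250, nat_lit 1271250, nat_lit 1271250, nat_lit 1100001, nat_lit 2196000, [nat_lit 490000, nat_lit 1100000, nat_lit 1442500], [nat_lit 6, nat_lit 40, nat_lit 40, nat_lit 80, nat_lit 3, nat_lit 289, nat_lit 75, nat_lit 9]⟩, ⟨p094_k37, nat_lit 0, nat_lit 0, nat_lit 217, nat_lit 0, nat_lit 0, [nat_lit 3282000000, nat_lit 6250000000, nat_lit 9842000000], [], [nat_lit 26042517050,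 nat_lit 27439211970, nat_lit 36712922080, nat_lit 37918266680, nat_lit 27931892106, nat_lit 28691512961, nat_lit 34822607681, nat_lit 35361258536], nat_lit 0, nat_lit 0, nat_lit 0, nat_lit 0, nat_lit 0, nat_lit 0, [], [nat_lit 8, nat_lit 40, nat_lit 40, nat_lit 80, nat_lit 1, nat_lit 428, nat_lit 200, nat_lit 12]⟩,
 zbF0, [⟨nat_lit 16, nat_lit 83, nat_lit 98, nat_lit 100, nat_lit 359357993⟩, ⟨nat_lit 7, nat_lit 94, nat_lit 100, nat_lit 97, nat_lit 156003881⟩]⟩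
noncomputable def p094_l89 : Lf2 := ⟨nat_lit 0, nat_lit 10, [nat_lit 0, nat_lit 5, nat_lit 5, nat_lit 20], false, nat_lit 160, nat_lit 300, nat_lit 0, nat_lit 160, ⟨nat_lit 1000, nat_lit 0, nat_lit 0, nat_lit 0, nat_lit 0, nat_lit 0, nat_lit 0, nat_lit 0, nat_lit 0, nat_lit 0, nat_lit 0, nat_lit 0, nat_lit 0, nat_lit 0, nat_lit 0, nat_lit 0, false, false⟩,
 nat_lit 0, nat_lit 7777, nat_lit 0, nat_lit 0, nat_lit 5832, nat_lit 5088, nat_lit 458, nat_lit 0, nat_lit 0, nat_lit 2318, nat_lit 0, nat_lit 0, nat_lit 0, nat_lit 0, nat_lit 0, nat_lit 0, nat_lit 0, nat_lit 0, [],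
 ⟨p094_k23, nat_lit 0, nat_lit 0, nat_lit 473, nat_lit 0, nat_lit 1121998, [nat_lit 2032000001, nat_lit 4688000000, nat_lit 6250000000], [], [nat_lit 31027235362, nat_lit 31667286802, nat_lit 35463177856, nat_lit 35991329456, nat_lit 32973558890, nat_lit 33495175894, nat_lit 36555202264, nat_lit 36951575044], nat_lit 1271250, nat_lit 1271250, nat_lit 1271250, nat_lit 1271250, nat_lit 1100001, nat_lit 2298750, [nat_lit 490000, nat_lit 1100000, nat_lit 1442500], [nat_lit 6, nat_lit 40, nat_lit 40, nat_lit 80, nat_lit 3, nat_lit 289, nat_lit 75, nat_lit 9]⟩, ⟨p094_k24, nat_lit 0, nat_lit 0, nat_lit 199, nat_lit 0, nat_lit 0, [nat_lit 3282000000, nat_lit 6250000000, nat_lit 7968000000], [], [nat_lit 22306386858, nat_lit 23511710170, nat_lit 34420582368, nat_lit 35508910528, nat_lit 20908599568, nat_lit 22060224800, nat_lit 29322479008, nat_lit 30287857472], nat_lit 0, nat_lit 0, nat_lit 0, nat_lit 0, nat_lit 0, nat_lit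 0, [], [nat_lit 18, nat_lit 40, nat_lit 40, nat_lit 80, nat_lit 2, nat_lit 249, nat_lit 40, nat_lit 8]⟩,
 zbF0, [⟨nat_lit 4, nat_lit 100, nat_lit 81, nat_lit 92, nat_lit 382318233⟩]⟩
noncomputable def p094_l90 : Lf2 := ⟨nat_lit 0, nat_lit 10, [nat_lit 0, nat_lit 5, nat_lit 5, nat_lit 20], false, nat_lit 160, nat_lit 280, nat_lit 160, nat_lit 300, ⟨nat_lit 1000, nat_lit 0, nat_lit 0, nat_lit 0, nat_lit 0, nat_lit 0, nat_lit 0, nat_lit 0, nat_lit 0, nat_lit 0, nat_lit 0, nat_lit 0, nat_lit 0, nat_lit 0, nat_lit 0, nat_lit 0, false, false⟩,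
 nat_lit 0, nat_lit 8773, nat_lit 0, nat_lit 0, nat_lit 6579, nat_lit 5233, nat_lit 470, nat_lit 0, nat_lit 0, nat_lit 2538, nat_lit 0, nat_lit 0, nat_lit 0, nat_lit 0, nat_lit 0, nat_lit 0, nat_lit 0, nat_lit 0, [],
 ⟨p094_k23, nat_lit 0, nat_lit 0, nat_lit 421, nat_lit 0, nat_lit 973116, [nat_lit 2032000001, nat_lit 4688000000, nat_lit 6250000000], [], [nat_lit 27297211040, nat_lit 27490513792, nat_lit 32376654532, nat_lit 32512530145, nat_lit 29114951252, nat_lit 29278290785, nat_lit 34273331396, nat_lit 34515569960], nat_lit 1271250, nat_lit 1271250, nat_lit 1271250, nat_lit 1271250, nat_lit 1100001, nat_lit 2127500, [nat_lit 490000, nat_lit 1100000, nat_lit 1442500], [nat_lit 6, nat_lit 40, nat_lit 40, nat_lit 80, nat_lit 3, nat_lit 289, nat_lit 75, nat_lit 9]⟩, ⟨p094_k24, nat_lit 0, nat_lit 0, nat_lit 90, nat_lit 0, nat_lit 0, [nat_lit 3282000000, nat_lit 6250000000, nat_lit 7968000000], [], [nat_lit 19167810082,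 nat_lit 20483221672, nat_lit 29494335328, nat_lit 30470665352, nat_lit 24308653834, nat_lit 25277121991, nat_lit 32612199991, nat_lit 33328501794], nat_lit 0, nat_lit 0, nat_lit 0, nat_lit 0, nat_lit 0, nat_lit 0, [], [nat_lit 18, nat_lit 40, nat_lit 40, nat_lit 80, nat_lit 2, nat_lit 289, nat_lit 75, nat_lit 8]⟩,
 zbF0, [⟨nat_lit 16, nat_lit 87, nat_lit 100, nat_lit 94, nat_lit 353757393⟩, ⟨nat_lit 7, nat_lit 100, nat_lit 91, nat_lit 91, nat_lit 388467089⟩]⟩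
noncomputable def p094_l91 : Lf2 := ⟨nat_lit 0, nat_lit 10, [nat_lit 0, nat_lit 5, nat_lit 5, nat_lit 20], false, nat_lit 160, nat_lit 276, nat_lit 160, nat_lit 300, ⟨nat_lit 1000, nat_lit 0, nat_lit 0, nat_lit 0, nat_lit 0, nat_lit 0, nat_lit 0, nat_lit 0, nat_lit 0, nat_lit 0, nat_lit 0, nat_lit 0, nat_lit 0, nat_lit 0, nat_lit 0, nat_lit 0, false, false⟩,
 nat_lit 0, nat_lit 7054, nat_lit 0, nat_lit 0, nat_lit 5394, nat_lit 6882, nat_lit 2333, nat_lit 0, nat_lit 0, nat_lit 0, nat_lit 0, nat_lit 0, nat_lit 0, nat_lit 0, nat_lit 0, nat_lit 0, nat_lit 0, nat_lit 0, [],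
 ⟨p094_k40, nat_lit 0, nat_lit 0, nat_lit 426, nat_lit 0, nat_lit 985075, [nat_lit 2032000001, nat_lit 4688000000, nat_lit 6250000000], [], [nat_lit 26038256865, nat_lit 26216185809, nat_lit 30956161224, nat_lit 31238677312, nat_lit 27704320208, nat_lit 27848700192, nat_lit 33013777819, nat_lit 33238984470], nat_lit 1271250, nat_lit 1271250, nat_lit 1271250, nat_lit 1271250, nat_lit 1100001, nat_lit 2093250, [nat_lit 490000, nat_lit 1100000, nat_lit 1442500], [nat_lit 6, nat_lit 40, nat_lit 40, nat_lit 80, nat_lit 3, nat_lit 289, nat_lit 75, nat_lit 9]⟩, ⟨p094_k24, nat_lit 0, nat_lit 0, nat_lit 90, nat_lit 0, nat_lit 0, [nat_lit 3282000000, nat_lit 6250000000, nat_lit 7968000000], [], [nat_lit 21070588276, nat_lit 22566246792, nat_lit 31673256952, nat_lit 32550953456, nat_lit 26358894233, nat_lit 27426686078, nat_lit 34479657037, nat_lit 35258191276], nat_lit 0, nat_lit 0, nat_lit 0, nat_lit 0, nat_lit 0, nat_lit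 0, [], [nat_lit 18, nat_lit 40, nat_lit 40, nat_lit 80, nat_lit 2, nat_lit 289, nat_lit 75, nat_lit 8]⟩,
 zbF0, [⟨nat_lit 16, nat_lit 84, nat_lit 100, nat_lit 93, nat_lit 363722763⟩, ⟨nat_lit 7, nat_lit 100, nat_lit 91, nat_lit 91, nat_lit 382026588⟩]⟩
noncomputable def p094_l92 : Lf2 := ⟨nat_lit 0, nat_lit 10, [nat_lit 0, nat_lit 5, nat_lit 5, nat_lit 20], false, nat_lit 160, nat_lit 300, nat_lit 160, nat_lit 320, ⟨nat_lit 1000, nat_lit 0, nat_lit 0, nat_lit 0, nat_lit 0, nat_lit 0, nat_lit 0, nat_lit 0, nat_lit 0, nat_lit 0, nat_lit 0, nat_lit 0, nat_lit 0, nat_lit 0, nat_lit 0, nat_lit 0, false, false⟩,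
 nat_lit 0, nat_lit 9049, nat_lit 0, nat_lit 0, nat_lit 6786, nat_lit 4859, nat_lit 500, nat_lit 0, nat_lit 0, nat_lit 0, nat_lit 0, nat_lit 0, nat_lit 0, nat_lit 0, nat_lit 0, nat_lit 0, nat_lit 0, nat_lit 0, [],
 ⟨p094_k23, nat_lit 0, nat_lit 0, nat_lit 361, nat_lit 0, nat_lit 867971, [nat_lit 2032000001, nat_lit 4688000000, nat_lit 6250000000], [], [nat_lit 24553183776, nat_lit 24789212940, nat_lit 27232496616, nat_lit 27441889241, nat_lit 27436583166, nat_lit 27626000428, nat_lit 29968397324, nat_lit 30275783834], nat_lit 1271250, nat_lit 1271250, nat_lit 1271250, nat_lit 1271250, nat_lit 1100001, nat_lit 2298750, [nat_lit 490000, nat_lit 1100000, nat_lit 1442500], [nat_lit 6, nat_lit 40, nat_lit 40, nat_lit 80, nat_lit 3, nat_lit 289, nat_lit 75, nat_lit 9]⟩, ⟨p094_k24, nat_lit 0, nat_lit 0, nat_lit 60, nat_lit 0, nat_lit 0, [nat_lit 3282000000, nat_lit 6250000000, nat_lit 7968000000], [], [nat_lit 18588788288,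 nat_lit 20007225840, nat_lit 23167038114, nat_lit 24314184928, nat_lit 25109768170, nat_lit 26094519924, nat_lit 28445018604, nat_lit 29322114344], nat_lit 0, nat_lit 0, nat_lit 0, nat_lit 0, nat_lit 0, nat_lit 0, [], [nat_lit 18, nat_lit 40, nat_lit 40, nat_lit 80, nat_lit 2, nat_lit 317, nat_lit 100, nat_lit 9]⟩,
 zbF0, [⟨nat_lit 16, nat_lit 87, nat_lit 95, nat_lit 100, nat_lit 368900799⟩, ⟨nat_lit 7, nat_lit 97, nat_lit 94, nat_lit 100, nat_lit 439981998⟩]⟩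
noncomputable def p094_l93 : Lf2 := ⟨nat_lit 0, nat_lit 10, [nat_lit 0, nat_lit 5, nat_lit 5, nat_lit 20], false, nat_lit 160, nat_lit 296, nat_lit 160, nat_lit 320, ⟨nat_lit 1000, nat_lit 0, nat_lit 0, nat_lit 0, nat_lit 0, nat_lit 0, nat_lit 0, nat_lit 0, nat_lit 0, nat_lit 0, nat_lit 0, nat_lit 0, nat_lit 0, nat_lit 0, nat_lit 0, nat_lit 0, false, false⟩,
 nat_lit 0, nat_lit 7339, nat_lit 0, nat_lit 0, nat_lit 5612, nat_lit 4859, nat_lit 2481, nat_lit 0, nat_lit 0, nat_lit 0, nat_lit 0, nat_lit 0, nat_lit 0, nat_lit 0, nat_lit 0, nat_lit 0, nat_lit 0, nat_lit 0, [],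
 ⟨p094_k40, nat_lit 0, nat_lit 0, nat_lit 367, nat_lit 0, nat_lit 882598, [nat_lit 2032000001, nat_lit 4688000000, nat_lit 6250000000], [], [nat_lit 23158221201, nat_lit 23373904465, nat_lit 25532249722, nat_lit 25725719972, nat_lit 25768479276, nat_lit 25946346793, nat_lit 29195999424, nat_lit 29478365757], nat_lit 1271250, nat_lit 1271250, nat_lit 1271250, nat_lit 1271250, nat_lit 1100001, nat_lit 2264500, [nat_lit 490000, nat_lit 1100000, nat_lit 1442500], [nat_lit 6, nat_lit 40, nat_lit 40, nat_lit 80, nat_lit 3, nat_lit 289, nat_lit 75, nat_lit 9]⟩, ⟨p094_k24, nat_lit 0, nat_lit 0, nat_lit 60, nat_lit 0, nat_lit 0, [nat_lit 3282000000, nat_lit 6250000000, nat_lit 7968000000], [], [nat_lit 18588788288, nat_lit 20007225840, nat_lit 23167038114, nat_lit 24314184928, nat_lit 25109768170, nat_lit 26094519924, nat_lit 28445018604, nat_lit 29322114344], nat_lit 0, nat_lit 0, nat_lit 0, nat_lit 0, nat_lit 0, nat_lit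 0, [], [nat_lit 18, nat_lit 40, nat_lit 40, nat_lit 80, nat_lit 2, nat_lit 317, nat_lit 100, nat_lit 9]⟩,
 zbF0, [⟨nat_lit 16, nat_lit 85, nat_lit 97, nat_lit 100, nat_lit 368506145⟩, ⟨nat_lit 7, nat_lit 97, nat_lit 94, nat_lit 100, nat_lit 409514427⟩]⟩
noncomputable def p094_l94 : Lf2 := ⟨nat_lit 0, nat_lit 10, [nat_lit 0, nat_lit 5, nat_lit 5, nat_lit 20], false, nat_lit 160, nat_lit 300, nat_lit 160, nat_lit 320, ⟨nat_lit 1000, nat_lit 0, nat_lit 0, nat_lit 0, nat_lit 0, nat_lit 0, nat_lit 0, nat_lit 0, nat_lit 0, nat_lit 0, nat_lit 0, nat_lit 0, nat_lit 0, nat_lit 0, nat_lit 0, nat_lit 0, false, false⟩,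
 nat_lit 0, nat_lit 8070, nat_lit 0, nat_lit 0, nat_lit 6052, nat_lit 4744, nat_lit 407, nat_lit 0, nat_lit 0, nat_lit 2371, nat_lit 0, nat_lit 0, nat_lit 0, nat_lit 0, nat_lit 0, nat_lit 0, nat_lit 0, nat_lit 0, [],
 ⟨p094_k23, nat_lit 0, nat_lit 0, nat_lit 397, nat_lit 0, nat_lit 906718, [nat_lit 2032000001, nat_lit 4688000000, nat_lit 6250000000], [], [nat_lit 30180291104, nat_lit 30528487240, nat_lit 33143069792, nat_lit 33440844020, nat_lit 31944401800, nat_lit 32235704067, nat_lit 34496174588, nat_lit 34733554842], nat_lit 1271250, nat_lit 1271250, nat_lit 1271250, nat_lit 1271250, nat_lit 1100001, nat_lit 2298750, [nat_lit 490000, nat_lit 1100000, nat_lit 1442500], [nat_lit 6, nat_lit 40, nat_lit 40, nat_lit 80, nat_lit 3, nat_lit 289, nat_lit 75, nat_lit 9]⟩, ⟨p094_k24, nat_lit 0, nat_lit 0, nat_lit 90, nat_lit 0, nat_lit 0, [nat_lit 3282000000, nat_lit 6250000000, nat_lit 7968000000], [], [nat_lit 24143379968,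 nat_lit 25165587680, nat_lit 29031138384, nat_lit 29854161536, nat_lit 28782848288, nat_lit 29508542240, nat_lit 32690316064, nat_lit 33350410528], nat_lit 0, nat_lit 0, nat_lit 0, nat_lit 0, nat_lit 0, nat_lit 0, [], [nat_lit 18, nat_lit 40, nat_lit 40, nat_lit 80, nat_lit 2, nat_lit 317, nat_lit 100, nat_lit 9]⟩,
 zbF0, [⟨nat_lit 4, nat_lit 100, nat_lit 86, nat_lit 98, nat_lit 315363499⟩, ⟨nat_lit 7, nat_lit 97, nat_lit 94, nat_lit 100, nat_lit 355061328⟩]⟩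
noncomputable def p094_l95 : Lf2 := ⟨nat_lit 0, nat_lit 10, [nat_lit 0, nat_lit 5, nat_lit 5, nat_lit 20], false, nat_lit 160, nat_lit 288, nat_lit 160, nat_lit 320, ⟨nat_lit 1000, nat_lit 0, nat_lit 0, nat_lit 0, nat_lit 0, nat_lit 0, nat_lit 0, nat_lit 0, nat_lit 0, nat_lit 0, nat_lit 0, nat_lit 0, nat_lit 0, nat_lit 0, nat_lit 0, nat_lit 0, false, false⟩,
 nat_lit 0, nat_lit 6189, nat_lit 0, nat_lit 0, nat_lit 4824, nat_lit 6616, nat_lit 1829, nat_lit 0, nat_lit 0, nat_lit 197, nat_lit 0, nat_lit 0, nat_lit 0, nat_lit 0, nat_lit 0, nat_lit 0, nat_lit 0, nat_lit 0, [],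
 ⟨p094_k25, nat_lit 0, nat_lit 0, nat_lit 453, nat_lit 0, nat_lit 1063540, [nat_lit 2032000001, nat_lit 4688000000, nat_lit 6250000000], [], [nat_lit 25212561316, nat_lit 25577576204, nat_lit 30491892952, nat_lit 31028764848, nat_lit 27377163512, nat_lit 27670351817, nat_lit 32912104613, nat_lit 33331759108], nat_lit 1271250, nat_lit 1271250, nat_lit 1271250, nat_lit 1271250, nat_lit 1100001, nat_lit 2196000, [nat_lit 490000, nat_lit 1100000, nat_lit 1442500], [nat_lit 6, nat_lit 40, nat_lit 40, nat_lit 80, nat_lit 3, nat_lit 289, nat_lit 75, nat_lit 9]⟩, ⟨p094_k24, nat_lit 0, nat_lit 0, nat_lit 90, nat_lit 0, nat_lit 0, [nat_lit 3282000000, nat_lit 6250000000, nat_lit 7968000000], [], [nat_lit 20975446663, nat_lit 22437446071, nat_lit 31351106151, nat_lit 32215084503, nat_lit 27167804903, nat_lit 28153319383, nat_lit 34858384096, nat_lit 35577925792], nat_lit 0, nat_lit 0, nat_lit 0, nat_lit 0, nat_lit 0, nat_lit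 0, [], [nat_lit 18, nat_lit 40, nat_lit 40, nat_lit 80, nat_lit 2, nat_lit 317, nat_lit 100, nat_lit 9]⟩,
 zbF0, [⟨nat_lit 16, nat_lit 83, nat_lit 98, nat_lit 100, nat_lit 359554233⟩, ⟨nat_lit 7, nat_lit 100, nat_lit 93, nat_lit 97, nat_lit 365383802⟩]⟩
noncomputable def p094_l96 : Lf2 := ⟨nat_lit 0, nat_lit 10, [nat_lit 0, nat_lit 5, nat_lit 5, nat_lit 20], false, nat_lit 0, nat_lit 276, nat_lit 0, nat_lit 336, ⟨nat_lit 1000, nat_lit 0, nat_lit 0, nat_lit 0, nat_lit 0, nat_lit 0, nat_lit 0, nat_lit 0, nat_lit 0, nat_lit 0, nat_lit 0, nat_lit 0, nat_lit 0, nat_lit 0, nat_lit 0, nat_lit 0, false, false⟩,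
 nat_lit 0, nat_lit 5777, nat_lit 0, nat_lit 0, nat_lit 4676, nat_lit 7789, nat_lit 1105, nat_lit 0, nat_lit 0, nat_lit 779, nat_lit 0, nat_lit 0, nat_lit 0, nat_lit 0, nat_lit 0, nat_lit 0, nat_lit 0, nat_lit 0, [],
 ⟨p094_k34, nat_lit 0, nat_lit 0, nat_lit 550, nat_lit 0, nat_lit 1085775, [nat_lit 2032000001, nat_lit 4688000000, nat_lit 6250000000], [], [nat_lit 27412425178, nat_lit 27823986458, nat_lit 35556262224, nat_lit 36156275808, nat_lit 28609671824, nat_lit 28925793916, nat_lit 32844366609, nat_lit 33245416384], nat_lit 1271250, nat_lit 1271250, nat_lit 1271250, nat_lit 1271250, nat_lit 0, nat_lit 1949250, [nat_lit 490000, nat_lit 1100000, nat_lit 1442500], [nat_lit 6, nat_lit 40, nat_lit 40, nat_lit 80, nat_lit 3, nat_lit 289, nat_lit 75, nat_lit 10]⟩, ⟨p094_k37, nat_lit 0, nat_lit 0, nat_lit 219, nat_lit 0, nat_lit 0, [nat_lit 3282000000, nat_lit 6250000000, nat_lit 9842000000], [], [nat_lit 28041169479,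 nat_lit 30459843667, nat_lit 40399734024, nat_lit 43065649484, nat_lit 27766299623, nat_lit 29140414364, nat_lit 36359758033, nat_lit 37776849126], nat_lit 0, nat_lit 0, nat_lit 0, nat_lit 0, nat_lit 0, nat_lit 0, [], [nat_lit 8, nat_lit 40, nat_lit 40, nat_lit 80, nat_lit 1, nat_lit 428, nat_lit 200, nat_lit 12]⟩,
 zbF0, [⟨nat_lit 4, nat_lit 100, nat_lit 71, nat_lit 89, nat_lit 193122026⟩, ⟨nat_lit 7, nat_lit 100, nat_lit 100, nat_lit 100, nat_lit 110693405⟩]⟩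
noncomputable def p094_l97 : Lf2 := ⟨nat_lit 0, nat_lit 10, [nat_lit 0, nat_lit 5, nat_lit 5, nat_lit 20], false, nat_lit 4, nat_lit 264, nat_lit 0, nat_lit 336, ⟨nat_lit 1000, nat_lit 0, nat_lit 0, nat_lit 0, nat_lit 0, nat_lit 0, nat_lit 0, nat_lit 0, nat_lit 0, nat_lit 0, nat_lit 0, nat_lit 0, nat_lit 0, nat_lit 0, nat_lit 0, nat_lit 0, false, false⟩,
 nat_lit 0, nat_lit 6005, nat_lit 0, nat_lit 0, nat_lit 5044, nat_lit 5965, nat_lit 710, nat_lit 0, nat_lit 0, nat_lit 846, nat_lit 0, nat_lit 0, nat_lit 0, nat_lit 0, nat_lit 0, nat_lit 0, nat_lit 0, nat_lit 0, [],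
 ⟨p094_k35, nat_lit 0, nat_lit 0, nat_lit 502, nat_lit 0, nat_lit 1106800, [nat_lit 2032000001, nat_lit 4688000000], [], [nat_lit 26609991125, nat_lit 27046945986, nat_lit 36709525684, nat_lit 37340281901, nat_lit 27437396765, nat_lit 27746494234, nat_lit 33148048956, nat_lit 33605688815], nat_lit 1271250, nat_lit 1271250, nat_lit 1271250, nat_lit 1271250, nat_lit 21650, nat_lit 1867650, [nat_lit 490000, nat_lit 1100000], [nat_lit 24, nat_lit 40, nat_lit 40, nat_lit 80, nat_lit 33, nat_lit 289, nat_lit 75, nat_lit 12]⟩, ⟨p094_k37, nat_lit 0, nat_lit 0, nat_lit 217, nat_lit 0, nat_lit 0, [nat_lit 3282000000, nat_lit 6250000000, nat_lit 9842000000], [], [nat_lit 26104942650, nat_lit 28798953270, nat_lit 35958659406, nat_lit 37572279114, nat_lit 28347901358, nat_lit 29862643073, nat_lit 34729162480, nat_lit 35814494282], nat_lit 0, nat_lit 0, nat_lit 0, nat_lit 0, nat_lit 0, nat_lit 0, [], [nat_lit 8, nat_lit 40, nat_lit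 40, nat_lit 80, nat_lit 1, nat_lit 428, nat_lit 200, nat_lit 12]⟩,
 zbF0, [⟨nat_lit 4, nat_lit 100, nat_lit 64, nat_lit 88, nat_lit 203720202⟩, ⟨nat_lit 7, nat_lit 100, nat_lit 100, nat_lit 100, nat_lit 163236215⟩]⟩
noncomputable def b_V_800_700_20_21 : St := ⟨true, nat_lit 1, nat_lit 0, nat_lit 1, nat_lit 120, nat_lit 320, nat_lit 360, nat_lit 280, nat_lit 320, nat_lit 240, nat_lit 400, nat_lit 80, nat_lit 120, nat_lit 0, nat_lit 300, nat_lit 0, nat_lit 336, nat_lit 0, nat_lit 40, nat_lit 0, nat_lit 0, nat_lit 0, nat_lit 0⟩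
theorem d_V_800_700_20_21 (h : EB TB.env) : Dead b_V_800_700_20_21 := chkB_sound0 h (T :=
(.spl (nat_lit 0) (nat_lit 340)
(.spl (nat_lit 4) (nat_lit 160)
(.spl (nat_lit 5) (nat_lit 160)
(.leaf p094_l81)
(.spl (nat_lit 1) (nat_lit 300)
(.leaf p094_l82)
(.trX (nat_lit 19) (nat_lit 94) (nat_lit 88) (nat_lit 100) (nat_lit 320) (.leaf p094_l83))))
(.spl (nat_lit 1) (nat_lit 300)
(.spl (nat_lit 0) (nat_lit 330)
(.spl (nat_lit 1) (nat_lit 290)
(.spl (nat_lit 2) (nat_lit 320)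
(.leaf p094_l84)
(.trZ (nat_lit 9) (nat_lit 100) (nat_lit 82) (nat_lit 44) (nat_lit 16) (.leaf p094_l85)))
(.trX (nat_lit 19) (nat_lit 97) (nat_lit 84) (nat_lit 100) (nat_lit 328) (.spl (nat_lit 0) (nat_lit 325)
(.leaf p094_l86)
(.trX (nat_lit 16) (nat_lit 85) (nat_lit 97) (nat_lit 100) (nat_lit 296) (.leaf p094_l87)))))
(.trX (nat_lit 16) (nat_lit 83) (nat_lit 98) (nat_lit 100) (nat_lit 288) (.leaf p094_l88)))
(.trX (nat_lit 19) (nat_lit 94) (nat_lit 88) (nat_lit 100) (nat_lit 320) (.spl (nat_lit 5) (nat_lit 160)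
(.leaf p094_l89)
(.spl (nat_lit 0) (nat_lit 330)
(.spl (nat_lit 3) (nat_lit 100)
(.trX (nat_lit 16) (nat_lit 87) (nat_lit 100) (nat_lit 94) (nat_lit 280) (.trX (nat_lit 19) (nat_lit 100) (nat_lit 100) (nat_lit 100) (nat_lit 300) (.spl (nat_lit 0) (nat_lit 325)
(.leaf p094_l90)
(.trX (nat_lit 16) (nat_lit 84) (nat_lit 100) (nat_lit 93) (nat_lit 276) (.leaf p094_l91)))))
(.spl (nat_lit 2) (nat_lit 320)
(.spl (nat_lit 0) (nat_lit 325)
(.leaf p094_l92)
(.trX (nat_lit 16) (nat_lit 85) (nat_lit 97) (nat_lit 100) (nat_lit 296) (.leaf p094_l93)))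
(.leaf p094_l94)))
(.trX (nat_lit 16) (nat_lit 83) (nat_lit 98) (nat_lit 100) (nat_lit 288) (.leaf p094_l95)))))))
(.trX (nat_lit 16) (nat_lit 77) (nat_lit 100) (nat_lit 99) (nat_lit 276) (.spl (nat_lit 0) (nat_lit 350)
(.leaf p094_l96)
(.trX (nat_lit 13) (nat_lit 83) (nat_lit 25) (nat_lit 100) (nat_lit 396) (.trZ (nat_lit 3) (nat_lit 100) (nat_lit 83) (nat_lit 25) (nat_lit 4) (.trX (nat_lit 16) (nat_lit 69) (nat_lit 100) (nat_lit 96) (nat_lit 264) (.leaf p094_l97)))))))) (by decide +kernel)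
noncomputable def p094_l98 : Lf2 := ⟨nat_lit 0, nat_lit 10, [nat_lit 0, nat_lit 5, nat_lit 5, nat_lit 20], false, nat_lit 0, nat_lit 160, nat_lit 0, nat_lit 160, ⟨nat_lit 435, nat_lit 0, nat_lit 565, nat_lit 7, nat_lit 224, nat_lit 565, nat_lit 65, nat_lit 565, nat_lit 40017, nat_lit 264, nat_lit 122572, nat_lit 200, nat_lit 50985618, nat_lit 0, nat_lit 0, nat_lit 2749741, false, false⟩,
 nat_lit 5430, nat_lit 0, nat_lit 0, nat_lit 0, nat_lit 4072, nat_lit 3455, nat_lit 0, nat_lit 0, nat_lit 0, nat_lit 348, nat_lit 0, nat_lit 0, nat_lit 0, nat_lit 0, nat_lit 0, nat_lit 565000, nat_lit 0, nat_lit 0, [(nat_lit 18, [(nat_lit 6, nat_lit 565)]), (nat_lit 21, [(nat_lit 6, nat_lit 565)])],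
 ⟨p094_k23, nat_lit 0, nat_lit 0, nat_lit 436, nat_lit 0, nat_lit 731058, [nat_lit 1482669334, nat_lit 1338830667, nat_lit 514798000], [], [nat_lit 21355496669, nat_lit 22310260864, nat_lit 22335633272, nat_lit 25196706176, nat_lit 19858865464, nat_lit 21596793448, nat_lit 24420093561, nat_lit 23422260868], nat_lit 1271250, nat_lit 1271250, nat_lit 631250, nat_lit 1751250, nat_lit 0, nat_lit 1100001, [nat_lit 490000, nat_lit 1100000, nat_lit 1442500], [nat_lit 6, nat_lit 40, nat_lit 40, nat_lit 80, nat_lit 3, nat_lit 317, nat_lit 100, nat_lit 12]⟩, ⟨p094_k37, nat_lit 0, nat_lit 0, nat_lit 635, nat_lit 0, nat_lit 897468, [nat_lit 1427670000, nat_lit 2718750000, nat_lit 4281270000], [], [nat_lit 16421092630, nat_lit 14810460340, nat_lit 14270988680, nat_lit 14833559320, nat_lit 12389994160, nat_lit 12994208680, nat_lit 15957762180, nat_lit 12919171540], nat_lit 1271250, nat_lit 1271250, nat_lit 631250, nat_lit 1751250,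 nat_lit 0, nat_lit 1100001, [nat_lit 780000, nat_lit 1435000, nat_lit 1271250], [nat_lit 8, nat_lit 40, nat_lit 40, nat_lit 80, nat_lit 1, nat_lit 317, nat_lit 100, nat_lit 9]⟩,
 ⟨nat_lit 3162, nat_lit 4473, ⟨.ofNat (nat_lit 415764), .ofNat (nat_lit 653959), .ofNat (nat_lit 458716), .ofNat (nat_lit 696911), .ofNat (nat_lit 435680), .ofNat (nat_lit 649288), .ofNat (nat_lit 479808), .ofNat (nat_lit 693416)⟩, ⟨.ofNat (nat_lit 0), .ofNat (nat_lit 302621), .ofNat (nat_lit 0), .ofNat (nat_lit 345754), .ofNat (nat_lit 0), .ofNat (nat_lit 306116), .ofNat (nat_lit 0), .ofNat (nat_lit 350426)⟩⟩, [⟨nat_lit 0, nat_lit 80, nat_lit 60, nat_lit 100, nat_lit 159261762⟩]⟩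
noncomputable def p094_l99 : Lf2 := ⟨nat_lit 0, nat_lit 10, [nat_lit 0, nat_lit 5, nat_lit 5, nat_lit 20], false, nat_lit 0, nat_lit 160, nat_lit 160, nat_lit 336, ⟨nat_lit 625, nat_lit 0, nat_lit 375, nat_lit 7, nat_lit 223, nat_lit 375, nat_lit 65, nat_lit 375, nat_lit 40017, nat_lit 264, nat_lit 123308, nat_lit 200, nat_lit 51064996, nat_lit 0, nat_lit 0, nat_lit 2742861, false, false⟩,
 nat_lit 7747, nat_lit 0, nat_lit 0, nat_lit 0, nat_lit 5241, nat_lit 4929, nat_lit 198, nat_lit 0, nat_lit 0, nat_lit 510, nat_lit 0, nat_lit 0, nat_lit 0, nat_lit 0, nat_lit 0, nat_lit 375000, nat_lit 0, nat_lit 0, [(nat_lit 18, [(nat_lit 6, nat_lit 375)])],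
 ⟨p094_k23, nat_lit 0, nat_lit 0, nat_lit 377, nat_lit 0, nat_lit 634173, [nat_lit 1667400000, nat_lit 2465100000, nat_lit 2443450000], [], [nat_lit 21763793750, nat_lit 22162408257, nat_lit 23291851680, nat_lit 25395923954, nat_lit 19278995304, nat_lit 20322673888, nat_lit 23297561244, nat_lit 22084120896], nat_lit 1271250, nat_lit 1271250, nat_lit 631250, nat_lit 1751250, nat_lit 0, nat_lit 1100001, [nat_lit 490000, nat_lit 1100000, nat_lit 1442500], [nat_lit 6, nat_lit 40, nat_lit 40, nat_lit 80, nat_lit 3, nat_lit 317, nat_lit 100, nat_lit 12]⟩, ⟨p094_k37, nat_lit 0, nat_lit 0, nat_lit 471, nat_lit 0, nat_lit 778529, [nat_lit 2051250000, nat_lit 3906250000, nat_lit 6151250000], [], [nat_lit 16334300894, nat_lit 16045926076, nat_lit 15328712922, nat_lit 16283554370, nat_lit 17834821172, nat_lit 18806622546, nat_lit 17799514826, nat_lit 18527758988], nat_lit 1271250, nat_lit 1271250, nat_lit 631250, nat_lit 1751250,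 nat_lit 1271250, nat_lit 1271250, [nat_lit 780000, nat_lit 1435000, nat_lit 1271250], [nat_lit 8, nat_lit 40, nat_lit 40, nat_lit 80, nat_lit 1, nat_lit 373, nat_lit 150, nat_lit 10]⟩,
 ⟨nat_lit 3872, nat_lit 4473, ⟨.ofNat (nat_lit 416230), .ofNat (nat_lit 654181), .ofNat (nat_lit 459327), .ofNat (nat_lit 697279), .ofNat (nat_lit 425778), .ofNat (nat_lit 651631), .ofNat (nat_lit 469330), .ofNat (nat_lit 695183)⟩, ⟨.ofNat (nat_lit 0), .ofNat (nat_lit 302621), .ofNat (nat_lit 0), .ofNat (nat_lit 345754), .ofNat (nat_lit 0), .ofNat (nat_lit 304717), .ofNat (nat_lit 0), .ofNat (nat_lit 348304)⟩⟩, [⟨nat_lit 0, nat_lit 92, nat_lit 81, nat_lit 100, nat_lit 287442074⟩, ⟨nat_lit 19, nat_lit 100, nat_lit 100, nat_lit 100, nat_lit 185090420⟩]⟩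
noncomputable def p094_l100 : Lf2 := ⟨nat_lit 0, nat_lit 10, [nat_lit 0, nat_lit 5, nat_lit 5, nat_lit 20], false, nat_lit 0, nat_lit 160, nat_lit 160, nat_lit 336, ⟨nat_lit 592, nat_lit 392, nat_lit 16, nat_lit 7, nat_lit 233, nat_lit 407, nat_lit 65, nat_lit 16, nat_lit 40017, nat_lit 264, nat_lit 119032, nat_lit 200, nat_lit 50070286, nat_lit 16929714, nat_lit 0, nat_lit 2826313, false, false⟩,
 nat_lit 7862, nat_lit 0, nat_lit 0, nat_lit 0, nat_lit 4435, nat_lit 5003, nat_lit 951, nat_lit 0, nat_lit 0, nat_lit 425, nat_lit 0, nat_lit 0, nat_lit 0, nat_lit 0, nat_lit 0, nat_lit 172800, nat_lit 0, nat_lit 0, [(nat_lit 21, [(nat_lit 1, nat_lit 392), (nat_lit 6, nat_lit 16)])],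
 ⟨p094_k34, nat_lit 0, nat_lit 0, nat_lit 404, nat_lit 0, nat_lit 665872, [nat_lit 1746304000, nat_lit 3317209600, nat_lit 4217369600], [], [nat_lit 20534491516, nat_lit 22902945373, nat_lit 24006868390, nat_lit 25911927980, nat_lit 18663504633, nat_lit 19861214846, nat_lit 21319659040, nat_lit 22663447100], nat_lit 1271250, nat_lit 1271250, nat_lit 810650, nat_lit 1764750, nat_lit 0, nat_lit 1100001, [nat_lit 490000, nat_lit 1100000, nat_lit 1442500], [nat_lit 6, nat_lit 40, nat_lit 40, nat_lit 80, nat_lit 3, nat_lit 317, nat_lit 100, nat_lit 12]⟩, ⟨p094_k37, nat_lit 0, nat_lit 0, nat_lit 505, nat_lit 0, nat_lit 897468, [nat_lit 1942944000, nat_lit 3700000000, nat_lit 5826464000], [], [nat_lit 14471219186, nat_lit 15360369219, nat_lit 14714805533, nat_lit 15401499717, nat_lit 16405550788, nat_lit 17198400883, nat_lit 16257614374, nat_lit 17524278983], nat_lit 1271250, nat_lit 1271250, nat_lit 810650, nat_lit 1764750,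 nat_lit 1271250, nat_lit 1271250, [nat_lit 780000, nat_lit 1435000, nat_lit 1271250], [nat_lit 8, nat_lit 40, nat_lit 40, nat_lit 80, nat_lit 1, nat_lit 373, nat_lit 150, nat_lit 10]⟩,
 ⟨nat_lit 3162, nat_lit 3873, ⟨.ofNat (nat_lit 464406), .ofNat (nat_lit 651611), .ofNat (nat_lit 507934), .ofNat (nat_lit 695141), .ofNat (nat_lit 472632), .ofNat (nat_lit 649490), .ofNat (nat_lit 516884), .ofNat (nat_lit 693742)⟩, ⟨.ofNat (nat_lit 0), .ofNat (nat_lit 304717), .ofNat (nat_lit 0), .ofNat (nat_lit 348304), .ofNat (nat_lit 0), .ofNat (nat_lit 306116), .ofNat (nat_lit 0), .ofNat (nat_lit 350426)⟩⟩, [⟨nat_lit 0, nat_lit 88, nat_lit 67, nat_lit 100, nat_lit 317472329⟩, ⟨nat_lit 19, nat_lit 100, nat_lit 80, nat_lit 100, nat_lit 19132131⟩, ⟨nat_lit 7, nat_lit 100, nat_lit 100, nat_lit 100, nat_lit 171240696⟩]⟩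
noncomputable def p094_l101 : Lf2 := ⟨nat_lit 0, nat_lit 10, [nat_lit 0, nat_lit 5, nat_lit 5, nat_lit 20], false, nat_lit 160, nat_lit 300, nat_lit 0, nat_lit 160, ⟨nat_lit 610, nat_lit 390, nat_lit 0, nat_lit 7, nat_lit 198, nat_lit 390, nat_lit 176, nat_lit 0, nat_lit 0, nat_lit 0, nat_lit 0, nat_lit 0, nat_lit 44321466, nat_lit 12426923, nat_lit 10251611, nat_lit 4696527, false, false⟩,
 nat_lit 7995, nat_lit 0, nat_lit 0, nat_lit 0, nat_lit 5995, nat_lit 5087, nat_lit 551, nat_lit 0, nat_lit 0, nat_lit 470, nat_lit 0, nat_lit 0, nat_lit 0, nat_lit 0, nat_lit 0, nat_lit 390000, nat_lit 0, nat_lit 0, [(nat_lit 18, [(nat_lit 2, nat_lit 390)]), (nat_lit 21, [(nat_lit 2, nat_lit 390)])],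
 ⟨p094_k23, nat_lit 0, nat_lit 0, nat_lit 342, nat_lit 0, nat_lit 731058, [nat_lit 1903248001, nat_lit 3267360001, nat_lit 3639652000], [], [nat_lit 19797169224, nat_lit 22200072624, nat_lit 20086928564, nat_lit 22291104104, nat_lit 23741211217, nat_lit 27348486250, nat_lit 23637258714, nat_lit 26936055260], nat_lit 1271250, nat_lit 1271250, nat_lit 631250, nat_lit 1100001, nat_lit 1100001, nat_lit 2298750, [nat_lit 490000, nat_lit 1100000, nat_lit 1442500], [nat_lit 6, nat_lit 40, nat_lit 40, nat_lit 80, nat_lit 3, nat_lit 345, nat_lit 125, nat_lit 12]⟩, ⟨p094_k37, nat_lit 0, nat_lit 0, nat_lit 635, nat_lit 0, nat_lit 897468, [nat_lit 2002020000, nat_lit 3812500000, nat_lit 6003620000], [], [nat_lit 19548203302, nat_lit 20008744250, nat_lit 18740953346, nat_lit 19522180050, nat_lit 16393862138, nat_lit 17148445244, nat_lit 16559342776, nat_lit 16747333056], nat_lit 1271250, nat_lit 1271250, nat_lit 631250, nat_lit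 1100001, nat_lit 0, nat_lit 1100001, [nat_lit 780000, nat_lit 1435000, nat_lit 1271250], [nat_lit 8, nat_lit 40, nat_lit 40, nat_lit 80, nat_lit 1, nat_lit 317, nat_lit 100, nat_lit 9]⟩,
 ⟨nat_lit 3162, nat_lit 4473, ⟨.ofNat (nat_lit 415764), .ofNat (nat_lit 517847), .ofNat (nat_lit 458716), .ofNat (nat_lit 560799), .ofNat (nat_lit 435680), .ofNat (nat_lit 527226), .ofNat (nat_lit 479808), .ofNat (nat_lit 571355)⟩, ⟨.ofNat (nat_lit 302621), .ofNat (nat_lit 540545), .ofNat (nat_lit 345754), .ofNat (nat_lit 583678), .ofNat (nat_lit 306116), .ofNat (nat_lit 519453), .ofNat (nat_lit 350426), .ofNat (nat_lit 563762)⟩⟩, [⟨nat_lit 0, nat_lit 90, nat_lit 74, nat_lit 100, nat_lit 70902652⟩, ⟨nat_lit 0, nat_lit 100, nat_lit 87, nat_lit 95, nat_lit 400756705⟩, ⟨nat_lit 16, nat_lit 87, nat_lit 95, nat_lit 100, nat_lit 290059732⟩]⟩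
noncomputable def p094_l102 : Lf2 := ⟨nat_lit 0, nat_lit 10, [nat_lit 0, nat_lit 5, nat_lit 5, nat_lit 20], false, nat_lit 160, nat_lit 300, nat_lit 0, nat_lit 160, ⟨nat_lit 1000, nat_lit 0, nat_lit 0, nat_lit 0, nat_lit 0, nat_lit 0, nat_lit 0, nat_lit 0, nat_lit 0, nat_lit 0, nat_lit 0, nat_lit 0, nat_lit 0, nat_lit 0, nat_lit 0, nat_lit 0, false, false⟩,
 nat_lit 11544, nat_lit 0, nat_lit 0, nat_lit 0, nat_lit 7482, nat_lit 7346, nat_lit 1252, nat_lit 0, nat_lit 0, nat_lit 815, nat_lit 0, nat_lit 0, nat_lit 0, nat_lit 0, nat_lit 0, nat_lit 0, nat_lit 0, nat_lit 0, [],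
 ⟨p094_k23, nat_lit 0, nat_lit 0, nat_lit 323, nat_lit 0, nat_lit 731058, [nat_lit 2032000001, nat_lit 4688000000, nat_lit 6250000000], [], [nat_lit 18852065904, nat_lit 21866699584, nat_lit 20878115344, nat_lit 24418092520, nat_lit 24379031132, nat_lit 28180002136, nat_lit 26421535250, nat_lit 29647124136], nat_lit 1271250, nat_lit 1271250, nat_lit 1100001, nat_lit 1785000, nat_lit 1100001, nat_lit 2298750, [nat_lit 490000, nat_lit 1100000, nat_lit 1442500], [nat_lit 6, nat_lit 40, nat_lit 40, nat_lit 80, nat_lit 3, nat_lit 373, nat_lit 150, nat_lit 13]⟩, ⟨p094_k37, nat_lit 0, nat_lit 0, nat_lit 612, nat_lit 0, nat_lit 897468, [nat_lit 3282000000, nat_lit 6250000000, nat_lit 9842000000], [], [nat_lit 32957921944, nat_lit 33237158883, nat_lit 32643195971, nat_lit 34013032979, nat_lit 27911270408, nat_lit 29154269131, nat_lit 29333910608, nat_lit 30038870608], nat_lit 1271250, nat_lit 1271250, nat_lit 1100001, nat_lit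 1785000, nat_lit 0, nat_lit 1100001, [nat_lit 780000, nat_lit 1435000, nat_lit 1271250], [nat_lit 8, nat_lit 40, nat_lit 40, nat_lit 80, nat_lit 1, nat_lit 317, nat_lit 100, nat_lit 9]⟩,
 zbF0, [⟨nat_lit 0, nat_lit 90, nat_lit 74, nat_lit 100, nat_lit 433839060⟩, ⟨nat_lit 4, nat_lit 100, nat_lit 74, nat_lit 90, nat_lit 626319406⟩]⟩
noncomputable def p094_l103 : Lf2 := ⟨nat_lit 0, nat_lit 10, [nat_lit 0, nat_lit 5, nat_lit 5, nat_lit 20], false, nat_lit 160, nat_lit 240, nat_lit 160, nat_lit 336, ⟨nat_lit 369, nat_lit 0, nat_lit 631, nat_lit 7, nat_lit 194, nat_lit 631, nat_lit 156, nat_lit 631, nat_lit 67907, nat_lit 278, nat_lit 8596, nat_lit 233, nat_lit 46058193, nat_lit 0, nat_lit 0, nat_lit 4473201, false, false⟩,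
 nat_lit 5099, nat_lit 0, nat_lit 0, nat_lit 0, nat_lit 3824, nat_lit 3244, nat_lit 0, nat_lit 0, nat_lit 0, nat_lit 317, nat_lit 0, nat_lit 0, nat_lit 0, nat_lit 0, nat_lit 8, nat_lit 631000, nat_lit 0, nat_lit 0, [(nat_lit 18, [(nat_lit 6, nat_lit 631)]), (nat_lit 21, [(nat_lit 6, nat_lit 631)])],
 ⟨p094_k23, nat_lit 0, nat_lit 0, nat_lit 317, nat_lit 0, nat_lit 663278, [nat_lit 1482499734, nat_lit 1075600267, nat_lit 4845200], [], [nat_lit 17776210152, nat_lit 19989517608, nat_lit 18567497304, nat_lit 20613757944, nat_lit 19894472088, nat_lit 21900123920, nat_lit 20510462936, nat_lit 22311596640], nat_lit 1271250, nat_lit 1271250, nat_lit 631250, nat_lit 1100001, nat_lit 1100001, nat_lit 1785000, [nat_lit 490000, nat_lit 1100000, nat_lit 1442500], [nat_lit 6, nat_lit 40, nat_lit 40, nat_lit 80, nat_lit 3, nat_lit 317, nat_lit 100, nat_lit 11]⟩, ⟨p094_k37, nat_lit 0, nat_lit 0, nat_lit 482, nat_lit 0, nat_lit 814259,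 [nat_lit 1211058000, nat_lit 2306250000, nat_lit 3631698000], [], [nat_lit 9625601412, nat_lit 8114995144, nat_lit 7547165629, nat_lit 7901778195, nat_lit 9769568253, nat_lit 10191866826, nat_lit 10265047234, nat_lit 9841317913], nat_lit 1271250, nat_lit 1271250, nat_lit 631250, nat_lit 1100001, nat_lit 1100001, nat_lit 2607000, [nat_lit 780000, nat_lit 1435000, nat_lit 1271250], [nat_lit 8, nat_lit 40, nat_lit 40, nat_lit 80, nat_lit 1, nat_lit 345, nat_lit 125, nat_lit 9]⟩,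
 ⟨nat_lit 3162, nat_lit 4473, ⟨.ofNat (nat_lit 415764), .ofNat (nat_lit 517847), .ofNat (nat_lit 437240), .ofNat (nat_lit 539323), .ofNat (nat_lit 435680), .ofNat (nat_lit 527226), .ofNat (nat_lit 457744), .ofNat (nat_lit 549290)⟩, ⟨.ofNat (nat_lit 302621), .ofNat (nat_lit 438578), .ofNat (nat_lit 345754), .ofNat (nat_lit 481711), .ofNat (nat_lit 306116), .ofNat (nat_lit 428022), .ofNat (nat_lit 350426), .ofNat (nat_lit 472332)⟩⟩, [⟨nat_lit 0, nat_lit 94, nat_lit 75, nat_lit 100, nat_lit 246570252⟩, ⟨nat_lit 16, nat_lit 74, nat_lit 100, nat_lit 90, nat_lit 10761792⟩, ⟨nat_lit 19, nat_lit 100, nat_lit 94, nat_lit 97, nat_lit 100284444⟩]⟩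
noncomputable def p094_l104 : Lf2 := ⟨nat_lit 0, nat_lit 10, [nat_lit 0, nat_lit 5, nat_lit 5, nat_lit 20], false, nat_lit 240, nat_lit 300, nat_lit 160, nat_lit 240, ⟨nat_lit 448, nat_lit 552, nat_lit 0, nat_lit 7, nat_lit 193, nat_lit 552, nat_lit 203, nat_lit 0, nat_lit 0, nat_lit 0, nat_lit 0, nat_lit 0, nat_lit 42748284, nat_lit 11619805, nat_lit 12631911, nat_lit 4876146, false, false⟩,
 nat_lit 7345, nat_lit 0, nat_lit 0, nat_lit 0, nat_lit 5247, nat_lit 4673, nat_lit 147, nat_lit 0, nat_lit 0, nat_lit 549, nat_lit 0, nat_lit 0, nat_lit 0, nat_lit 0, nat_lit 0, nat_lit 552000, nat_lit 0, nat_lit 0, [(nat_lit 18, [(nat_lit 2, nat_lit 552)])],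
 ⟨p094_k23, nat_lit 0, nat_lit 0, nat_lit 262, nat_lit 0, nat_lit 558207, [nat_lit 1849766401, nat_lit 2677248001, nat_lit 2555353600], [], [nat_lit 20733098870, nat_lit 21856604508, nat_lit 21011001116, nat_lit 22077416217, nat_lit 23173870429, nat_lit 24842915440, nat_lit 23248404376, nat_lit 24774384939], nat_lit 1271250, nat_lit 1271250, nat_lit 631250, nat_lit 1100001, nat_lit 1271250, nat_lit 1271250, [nat_lit 490000, nat_lit 1100000, nat_lit 1442500], [nat_lit 6, nat_lit 40, nat_lit 40, nat_lit 80, nat_lit 3, nat_lit 249, nat_lit 40, nat_lit 8]⟩, ⟨p094_k37, nat_lit 0, nat_lit 0, nat_lit 433, nat_lit 0, nat_lit 685272, [nat_lit 1470336000, nat_lit 2800000000, nat_lit 4409216000], [], [nat_lit 6717709064, nat_lit 7366984457, nat_lit 6555540500, nat_lit 7139840774, nat_lit 7627892558, nat_lit 8172847238, nat_lit 9738580380, nat_lit 8008652300], nat_lit 1271250, nat_lit 1271250, nat_lit 631250, nat_lit 1100001,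 nat_lit 1100001, nat_lit 1785000, [nat_lit 780000, nat_lit 1435000, nat_lit 1271250], [nat_lit 8, nat_lit 40, nat_lit 40, nat_lit 80, nat_lit 1, nat_lit 317, nat_lit 100, nat_lit 9]⟩,
 ⟨nat_lit 3872, nat_lit 4473, ⟨.ofNat (nat_lit 416230), .ofNat (nat_lit 518209), .ofNat (nat_lit 437779), .ofNat (nat_lit 539758), .ofNat (nat_lit 425778), .ofNat (nat_lit 522572), .ofNat (nat_lit 447554), .ofNat (nat_lit 544349)⟩, ⟨.ofNat (nat_lit 438578), .ofNat (nat_lit 540545), .ofNat (nat_lit 481711), .ofNat (nat_lit 583678), .ofNat (nat_lit 433760), .ofNat (nat_lit 530543), .ofNat (nat_lit 477347), .ofNat (nat_lit 574129)⟩⟩, [⟨nat_lit 0, nat_lit 97, nat_lit 82, nat_lit 100, nat_lit 255047575⟩, ⟨nat_lit 16, nat_lit 87, nat_lit 95, nat_lit 100, nat_lit 342868438⟩]⟩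
noncomputable def p094_l105 : Lf2 := ⟨nat_lit 0, nat_lit 5, [nat_lit 4, nat_lit 5, nat_lit 5, nat_lit 20], false, nat_lit 240, nat_lit 300, nat_lit 240, nat_lit 336, ⟨nat_lit 680, nat_lit 320, nat_lit 0, nat_lit 7, nat_lit 190, nat_lit 320, nat_lit 204, nat_lit 0, nat_lit 0, nat_lit 0, nat_lit 0, nat_lit 0, nat_lit 42897192, nat_lit 11371948, nat_lit 12730860, nat_lit 4858826, false, false⟩,
 nat_lit 7321, nat_lit 0, nat_lit 0, nat_lit 0, nat_lit 5394, nat_lit 4658, nat_lit 581, nat_lit 0, nat_lit 0, nat_lit 934, nat_lit 0, nat_lit 0, nat_lit 0, nat_lit 0, nat_lit 0, nat_lit 80000, nat_lit 0, nat_lit 0, [(nat_lit 18, [(nat_lit 0, nat_lit 320)])],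
 ⟨p094_k5, nat_lit 0, nat_lit 0, nat_lit 220, nat_lit 0, nat_lit 448139, [nat_lit 1872256001, nat_lit 2799525334, nat_lit 5069840000], [], [nat_lit 20292059418, nat_lit 21018951772, nat_lit 20632421846, nat_lit 21270047596, nat_lit 23463043283, nat_lit 24135188155, nat_lit 23509168176, nat_lit 24127769957], nat_lit 1271250, nat_lit 1271250, nat_lit 631250, nat_lit 1100001, nat_lit 1271250, nat_lit 1271250, [nat_lit 490000, nat_lit 780000, nat_lit 1435000], [nat_lit 85, nat_lit 40, nat_lit 40, nat_lit 80, nat_lit 16, nat_lit 249, nat_lit 40, nat_lit 8]⟩, ⟨p094_k6, nat_lit 0, nat_lit 0, nat_lit 292, nat_lit 0, nat_lit 548373, [nat_lit 2231760000, nat_lit 3187840000, nat_lit 5418240000], [], [nat_lit 13352954780, nat_lit 13682469112, nat_lit 13379553864, nat_lit 13679468612, nat_lit 16762533328, nat_lit 17083596182, nat_lit 16514622709, nat_lit 16811586389], nat_lit 1271250, nat_lit 1271250, nat_lit 631250, nat_lit 1100001,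 nat_lit 1271250, nat_lit 1271250, [nat_lit 780000, nat_lit 1100000, nat_lit 1785000], [nat_lit 36, nat_lit 40, nat_lit 40, nat_lit 80, nat_lit 7, nat_lit 249, nat_lit 40, nat_lit 7]⟩,
 ⟨nat_lit 4183, nat_lit 4473, ⟨.ofNat (nat_lit 416301), .ofNat (nat_lit 518271), .ofNat (nat_lit 427083), .ofNat (nat_lit 529051), .ofNat (nat_lit 421009), .ofNat (nat_lit 520394), .ofNat (nat_lit 431840), .ofNat (nat_lit 531225)⟩, ⟨.ofNat (nat_lit 438578), .ofNat (nat_lit 540545), .ofNat (nat_lit 481711), .ofNat (nat_lit 583678), .ofNat (nat_lit 436254), .ofNat (nat_lit 535637), .ofNat (nat_lit 479587), .ofNat (nat_lit 578971)⟩⟩, [⟨nat_lit 0, nat_lit 97, nat_lit 82, nat_lit 100, nat_lit 281092157⟩, ⟨nat_lit 16, nat_lit 87, nat_lit 95, nat_lit 100, nat_lit 204185146⟩, ⟨nat_lit 19, nat_lit 100, nat_lit 80, nat_lit 100, nat_lit 114824190⟩, ⟨nat_lit 11, nat_lit 88, nat_lit 88, nat_lit 100, nat_lit 247244414⟩]⟩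
noncomputable def p094_l106 : Lf2 := ⟨nat_lit 0, nat_lit 5, [nat_lit 4, nat_lit 5, nat_lit 5, nat_lit 20], false, nat_lit 240, nat_lit 288, nat_lit 240, nat_lit 336, ⟨nat_lit 533, nat_lit 467, nat_lit 0, nat_lit 7, nat_lit 195, nat_lit 467, nat_lit 198, nat_lit 0, nat_lit 0, nat_lit 0, nat_lit 0, nat_lit 0, nat_lit 42911874, nat_lit 11883464, nat_lit 12204662, nat_lit 4860675, false, false⟩,
 nat_lit 5941, nat_lit 0, nat_lit 0, nat_lit 0, nat_lit 4631, nat_lit 3780, nat_lit 371, nat_lit 0, nat_lit 0, nat_lit 735, nat_lit 0, nat_lit 0, nat_lit 0, nat_lit 0, nat_lit 0, nat_lit 160550, nat_lit 0, nat_lit 0, [(nat_lit 18, [(nat_lit 0, nat_lit 175), (nat_lit 1, nat_lit 292)])],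
 ⟨p094_k47, nat_lit 0, nat_lit 0, nat_lit 192, nat_lit 0, nat_lit 475256, [nat_lit 1747248001, nat_lit 2548916800, nat_lit 3427764800], [], [nat_lit 20662079739, nat_lit 21253024713, nat_lit 21155404704, nat_lit 21708130785, nat_lit 22680995450, nat_lit 23473468649, nat_lit 23011354412, nat_lit 23710066762], nat_lit 1271250, nat_lit 1271250, nat_lit 719601, nat_lit 1100001, nat_lit 1271250, nat_lit 1271250, [nat_lit 490000, nat_lit 780000, nat_lit 1100000], [nat_lit 78, nat_lit 40, nat_lit 40, nat_lit 80, nat_lit 22, nat_lit 249, nat_lit 40, nat_lit 10]⟩, ⟨p094_k6, nat_lit 0, nat_lit 0, nat_lit 307, nat_lit 0, nat_lit 609333, [nat_lit 1749306000, nat_lit 2498704000, nat_lit 4246944000], [], [nat_lit 10805864342, nat_lit 11050844860, nat_lit 10821774396, nat_lit 11069218477, nat_lit 13077598347, nat_lit 13348924515, nat_lit 13023887063, nat_lit 13253153249], nat_lit 1271250, nat_lit 1271250, nat_lit 719601, nat_lit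 1100001, nat_lit 1271250, nat_lit 1271250, [nat_lit 780000, nat_lit 1100000, nat_lit 1785000], [nat_lit 36, nat_lit 40, nat_lit 40, nat_lit 80, nat_lit 7, nat_lit 249, nat_lit 40, nat_lit 7]⟩,
 ⟨nat_lit 3872, nat_lit 4184, ⟨.ofNat (nat_lit 440878), .ofNat (nat_lit 520388), .ofNat (nat_lit 451709), .ofNat (nat_lit 531219), .ofNat (nat_lit 445199), .ofNat (nat_lit 522628), .ofNat (nat_lit 456093), .ofNat (nat_lit 533523)⟩, ⟨.ofNat (nat_lit 436254), .ofNat (nat_lit 515761), .ofNat (nat_lit 479587), .ofNat (nat_lit 559094), .ofNat (nat_lit 433760), .ofNat (nat_lit 511186), .ofNat (nat_lit 477347), .ofNat (nat_lit 554773)⟩⟩, [⟨nat_lit 0, nat_lit 100, nat_lit 83, nat_lit 98, nat_lit 259797487⟩, ⟨nat_lit 16, nat_lit 83, nat_lit 98, nat_lit 100, nat_lit 256190935⟩, ⟨nat_lit 19, nat_lit 100, nat_lit 80, nat_lit 100, nat_lit 146511285⟩, ⟨nat_lit 11, nat_lit 86, nat_lit 86, nat_lit 100, nat_lit 115589831⟩]⟩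
noncomputable def p094_l107 : Lf2 := ⟨nat_lit 0, nat_lit 8, [nat_lit 50, nat_lit 5, nat_lit 5, nat_lit 20], false, nat_lit 240, nat_lit 300, nat_lit 240, nat_lit 336, ⟨nat_lit 716, nat_lit 0, nat_lit 284, nat_lit 7, nat_lit 177, nat_lit 284, nat_lit 203, nat_lit 284, nat_lit 1169, nat_lit 218, nat_lit 102718, nat_lit 293, nat_lit 43846122, nat_lit 0, nat_lit 0, nat_lit 4747081, false, false⟩,
 nat_lit 7821, nat_lit 0, nat_lit 0, nat_lit 0, nat_lit 5865, nat_lit 4977, nat_lit 232, nat_lit 0, nat_lit 0, nat_lit 962, nat_lit 0, nat_lit 0, nat_lit 0, nat_lit 0, nat_lit 0, nat_lit 65525, nat_lit 0, nat_lit 0, [(nat_lit 18, [(nat_lit 3, nat_lit 73), (nat_lit 4, nat_lit 211)])],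
 ⟨p094_k48, nat_lit 0, nat_lit 0, nat_lit 179, nat_lit 0, nat_lit 343878, [nat_lit 2771945600, nat_lit 2466540934, nat_lit 4241092400], [], [nat_lit 20390615080, nat_lit 22023287960, nat_lit 20272085980, nat_lit 21856589420, nat_lit 23739441018, nat_lit 25421260079, nat_lit 23530520800, nat_lit 25104085810], nat_lit 1271250, nat_lit 1271250, nat_lit 631250, nat_lit 780000, nat_lit 1271250, nat_lit 1271250, [nat_lit 490000, nat_lit 780000, nat_lit 1435000], [nat_lit 85, nat_lit 40, nat_lit 40, nat_lit 80, nat_lit 16, nat_lit 238, nat_lit 30, nat_lit 8]⟩, ⟨p094_k49, nat_lit 0, nat_lit 0, nat_lit 252, nat_lit 0, nat_lit 421625, [nat_lit 2349912000, nat_lit 3356608000, nat_lit 5705088000], [], [nat_lit 13854670348, nat_lit 14303191878, nat_lit 13737702524, nat_lit 14173993737, nat_lit 17613105117, nat_lit 18036463657, nat_lit 17394144439, nat_lit 17741362235], nat_lit 1271250, nat_lit 1271250, nat_lit 631250, nat_lit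 780000, nat_lit 1271250, nat_lit 1271250, [nat_lit 780000, nat_lit 1100000, nat_lit 1785000], [nat_lit 36, nat_lit 40, nat_lit 40, nat_lit 80, nat_lit 7, nat_lit 238, nat_lit 30, nat_lit 7]⟩,
 ⟨nat_lit 3872, nat_lit 4473, ⟨.ofNat (nat_lit 416230), .ofNat (nat_lit 450223), .ofNat (nat_lit 427005), .ofNat (nat_lit 460997), .ofNat (nat_lit 425778), .ofNat (nat_lit 458043), .ofNat (nat_lit 436667), .ofNat (nat_lit 468931)⟩, ⟨.ofNat (nat_lit 438578), .ofNat (nat_lit 540545), .ofNat (nat_lit 481711), .ofNat (nat_lit 583678), .ofNat (nat_lit 433760), .ofNat (nat_lit 530543), .ofNat (nat_lit 477347), .ofNat (nat_lit 574129)⟩⟩, [⟨nat_lit 0, nat_lit 99, nat_lit 83, nat_lit 100, nat_lit 421567269⟩, ⟨nat_lit 16, nat_lit 87, nat_lit 95, nat_lit 100, nat_lit 191798602⟩, ⟨nat_lit 23, nat_lit 100, nat_lit 78, nat_lit 95, nat_lit 382437093⟩]⟩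
noncomputable def p094_l108 : Lf2 := ⟨nat_lit 0, nat_lit 10, [nat_lit 0, nat_lit 5, nat_lit 5, nat_lit 20], false, nat_lit 240, nat_lit 300, nat_lit 240, nat_lit 336, ⟨nat_lit 944, nat_lit 0, nat_lit 56, nat_lit 7, nat_lit 176, nat_lit 56, nat_lit 204, nat_lit 56, nat_lit 1169, nat_lit 218, nat_lit 119008, nat_lit 299, nat_lit 43849718, nat_lit 0, nat_lit 0, nat_lit 4745083, false, false⟩,
 nat_lit 12236, nat_lit 0, nat_lit 0, nat_lit 0, nat_lit 7886, nat_lit 7786, nat_lit 0, nat_lit 0, nat_lit 0, nat_lit 973, nat_lit 0, nat_lit 0, nat_lit 0, nat_lit 0, nat_lit 0, nat_lit 9800, nat_lit 0, nat_lit 0, [(nat_lit 18, [(nat_lit 3, nat_lit 56)])],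
 ⟨p094_k23, nat_lit 0, nat_lit 0, nat_lit 137, nat_lit 0, nat_lit 220024, [nat_lit 2687424001, nat_lit 4423993600, nat_lit 5866176000], [], [nat_lit 21403035952, nat_lit 22385813868, nat_lit 21092296448, nat_lit 22048676188, nat_lit 25297607677, nat_lit 26237224050, nat_lit 24881515760, nat_lit 25698295809], nat_lit 1271250, nat_lit 1271250, nat_lit 631250, nat_lit 780000, nat_lit 1271250, nat_lit 1271250, [nat_lit 490000, nat_lit 1100000, nat_lit 1442500], [nat_lit 6, nat_lit 40, nat_lit 40, nat_lit 80, nat_lit 3, nat_lit 238, nat_lit 30, nat_lit 8]⟩, ⟨p094_k37, nat_lit 0, nat_lit 0, nat_lit 206, nat_lit 0, nat_lit 270107, [nat_lit 3098208000, nat_lit 5900000000, nat_lit 9290848000], [], [nat_lit 18308344241, nat_lit 19012362749, nat_lit 17956849105, nat_lit 18641583369, nat_lit 24131077045, nat_lit 24790426599, nat_lit 23624862264, nat_lit 24250444257], nat_lit 1271250, nat_lit 1271250, nat_lit 631250, nat_lit 780000,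 nat_lit 1271250, nat_lit 1271250, [nat_lit 780000, nat_lit 1435000, nat_lit 1271250], [nat_lit 8, nat_lit 40, nat_lit 40, nat_lit 80, nat_lit 1, nat_lit 345, nat_lit 125, nat_lit 9]⟩,
 ⟨nat_lit 4183, nat_lit 4473, ⟨.ofNat (nat_lit 416301), .ofNat (nat_lit 450291), .ofNat (nat_lit 427083), .ofNat (nat_lit 461073), .ofNat (nat_lit 421009), .ofNat (nat_lit 454137), .ofNat (nat_lit 431840), .ofNat (nat_lit 464969)⟩, ⟨.ofNat (nat_lit 438578), .ofNat (nat_lit 540545), .ofNat (nat_lit 481711), .ofNat (nat_lit 583678), .ofNat (nat_lit 436254), .ofNat (nat_lit 535637), .ofNat (nat_lit 479587), .ofNat (nat_lit 578971)⟩⟩, [⟨nat_lit 0, nat_lit 97, nat_lit 82, nat_lit 100, nat_lit 589326722⟩, ⟨nat_lit 16, nat_lit 87, nat_lit 95, nat_lit 100, nat_lit 258898527⟩, ⟨nat_lit 19, nat_lit 100, nat_lit 80, nat_lit 100, nat_lit 133307222⟩, ⟨nat_lit 23, nat_lit 100, nat_lit 78, nat_lit 95, nat_lit 413389835⟩]⟩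
noncomputable def p094_l109 : Lf2 := ⟨nat_lit 0, nat_lit 10, [nat_lit 0, nat_lit 5, nat_lit 5, nat_lit 20], false, nat_lit 240, nat_lit 288, nat_lit 240, nat_lit 336, ⟨nat_lit 539, nat_lit 0, nat_lit 461, nat_lit 7, nat_lit 182, nat_lit 461, nat_lit 198, nat_lit 461, nat_lit 3485, nat_lit 228, nat_lit 102915, nat_lit 293, nat_lit 43859266, nat_lit 0, nat_lit 0, nat_lit 4753135, false, false⟩,
 nat_lit 7280, nat_lit 0, nat_lit 0, nat_lit 0, nat_lit 5674, nat_lit 4632, nat_lit 0, nat_lit 0, nat_lit 0, nat_lit 512, nat_lit 0, nat_lit 0, nat_lit 0, nat_lit 0, nat_lit 0, nat_lit 108575, nat_lit 0, nat_lit 0, [(nat_lit 18, [(nat_lit 3, nat_lit 89), (nat_lit 4, nat_lit 372)])],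
 ⟨p094_k25, nat_lit 0, nat_lit 0, nat_lit 145, nat_lit 0, nat_lit 259108, [nat_lit 2871883200, nat_lit 2464516000, nat_lit 2980342800], [], [nat_lit 20876601540, nat_lit 21665040114, nat_lit 20827456662, nat_lit 21605801752, nat_lit 23412560824, nat_lit 24302839386, nat_lit 23312727139, nat_lit 24192406973], nat_lit 1271250, nat_lit 1271250, nat_lit 719601, nat_lit 780000, nat_lit 1271250, nat_lit 1271250, [nat_lit 490000, nat_lit 1100000, nat_lit 1442500], [nat_lit 6, nat_lit 40, nat_lit 40, nat_lit 80, nat_lit 3, nat_lit 238, nat_lit 30, nat_lit 8]⟩, ⟨p094_k37, nat_lit 0, nat_lit 0, nat_lit 222, nat_lit 0, nat_lit 333519, [nat_lit 1768998000, nat_lit 3368750000, nat_lit 5304838000], [], [nat_lit 11116390008, nat_lit 11424863851, nat_lit 11032253976, nat_lit 11337126238, nat_lit 13806432145, nat_lit 14109264057, nat_lit 13684524228, nat_lit 13977052019], nat_lit 1271250, nat_lit 1271250, nat_lit 719601, nat_lit 780000,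 nat_lit 1271250, nat_lit 1271250, [nat_lit 780000, nat_lit 1435000, nat_lit 1271250], [nat_lit 8, nat_lit 40, nat_lit 40, nat_lit 80, nat_lit 1, nat_lit 345, nat_lit 125, nat_lit 9]⟩,
 ⟨nat_lit 3872, nat_lit 4184, ⟨.ofNat (nat_lit 440878), .ofNat (nat_lit 454130), .ofNat (nat_lit 451709), .ofNat (nat_lit 464961), .ofNat (nat_lit 445199), .ofNat (nat_lit 458104), .ofNat (nat_lit 456093), .ofNat (nat_lit 468998)⟩, ⟨.ofNat (nat_lit 436254), .ofNat (nat_lit 515761), .ofNat (nat_lit 479587), .ofNat (nat_lit 559094), .ofNat (nat_lit 433760), .ofNat (nat_lit 511186), .ofNat (nat_lit 477347), .ofNat (nat_lit 554773)⟩⟩, [⟨nat_lit 0, nat_lit 98, nat_lit 80, nat_lit 100, nat_lit 439694935⟩, ⟨nat_lit 16, nat_lit 83, nat_lit 98, nat_lit 100, nat_lit 329480938⟩, ⟨nat_lit 19, nat_lit 100, nat_lit 80, nat_lit 100, nat_lit 100380877⟩, ⟨nat_lit 23, nat_lit 100, nat_lit 73, nat_lit 96, nat_lit 177913475⟩]⟩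
noncomputable def p094_l110 : Lf2 := ⟨nat_lit 0, nat_lit 8, [nat_lit 50, nat_lit 5, nat_lit 5, nat_lit 20], false, nat_lit 240, nat_lit 300, nat_lit 240, nat_lit 336, ⟨nat_lit 783, nat_lit 217, nat_lit 0, nat_lit 7, nat_lit 197, nat_lit 217, nat_lit 203, nat_lit 0, nat_lit 0, nat_lit 0, nat_lit 0, nat_lit 0, nat_lit 42429224, nat_lit 11995378, nat_lit 12575398, nat_lit 4910747, false, false⟩,
 nat_lit 8625, nat_lit 0, nat_lit 0, nat_lit 0, nat_lit 6468, nat_lit 5488, nat_lit 297, nat_lit 0, nat_lit 0, nat_lit 1067, nat_lit 0, nat_lit 0, nat_lit 0, nat_lit 0, nat_lit 0, nat_lit 54250, nat_lit 0, nat_lit 0, [(nat_lit 18, [(nat_lit 0, nat_lit 217)])],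
 ⟨p094_k48, nat_lit 0, nat_lit 0, nat_lit 160, nat_lit 0, nat_lit 343878, [nat_lit 1923673601, nat_lit 2954821867, nat_lit 5449704000], [], [nat_lit 20725911424, nat_lit 22412953664, nat_lit 21020401808, nat_lit 22605058496, nat_lit 24147312880, nat_lit 25597527902, nat_lit 24224921072, nat_lit 25596651516], nat_lit 1271250, nat_lit 1271250, nat_lit 780000, nat_lit 1100001, nat_lit 1271250, nat_lit 1271250, [nat_lit 490000, nat_lit 780000, nat_lit 1435000], [nat_lit 85, nat_lit 40, nat_lit 40, nat_lit 80, nat_lit 16, nat_lit 249, nat_lit 40, nat_lit 8]⟩, ⟨p094_k49, nat_lit 0, nat_lit 0, nat_lit 244, nat_lit 0, nat_lit 421625, [nat_lit 2569806000, nat_lit 3670704000, nat_lit 6238944000], [], [nat_lit 14885044664, nat_lit 15364290168, nat_lit 15075795968, nat_lit 15524278704, nat_lit 18899981489, nat_lit 19427544066, nat_lit 18860991626, nat_lit 19429655500], nat_lit 1271250, nat_lit 1271250, nat_lit 780000, nat_lit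 1100001, nat_lit 1271250, nat_lit 1271250, [nat_lit 780000, nat_lit 1100000, nat_lit 1785000], [nat_lit 36, nat_lit 40, nat_lit 40, nat_lit 80, nat_lit 7, nat_lit 249, nat_lit 40, nat_lit 7]⟩,
 ⟨nat_lit 3872, nat_lit 4473, ⟨.ofNat (nat_lit 450223), .ofNat (nat_lit 518209), .ofNat (nat_lit 460997), .ofNat (nat_lit 528983), .ofNat (nat_lit 458043), .ofNat (nat_lit 522572), .ofNat (nat_lit 468931), .ofNat (nat_lit 533461)⟩, ⟨.ofNat (nat_lit 438578), .ofNat (nat_lit 540545), .ofNat (nat_lit 481711), .ofNat (nat_lit 583678), .ofNat (nat_lit 433760), .ofNat (nat_lit 530543), .ofNat (nat_lit 477347), .ofNat (nat_lit 574129)⟩⟩, [⟨nat_lit 0, nat_lit 99, nat_lit 83, nat_lit 100, nat_lit 140927348⟩, ⟨nat_lit 16, nat_lit 87, nat_lit 95, nat_lit 100, nat_lit 517746437⟩, ⟨nat_lit 19, nat_lit 100, nat_lit 80, nat_lit 100, nat_lit 403059520⟩]⟩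
noncomputable def p094_l111 : Lf2 := ⟨nat_lit 0, nat_lit 10, [nat_lit 0, nat_lit 5, nat_lit 5, nat_lit 20], false, nat_lit 240, nat_lit 300, nat_lit 240, nat_lit 336, ⟨nat_lit 1000, nat_lit 0, nat_lit 0, nat_lit 0, nat_lit 0, nat_lit 0, nat_lit 0, nat_lit 0, nat_lit 0, nat_lit 0, nat_lit 0, nat_lit 0, nat_lit 0, nat_lit 0, nat_lit 0, nat_lit 0, false, false⟩,
 nat_lit 12965, nat_lit 0, nat_lit 0, nat_lit 0, nat_lit 8197, nat_lit 8250, nat_lit 0, nat_lit 0, nat_lit 0, nat_lit 1010, nat_lit 0, nat_lit 0, nat_lit 0, nat_lit 0, nat_lit 0, nat_lit 0, nat_lit 0, nat_lit 0, [],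
 ⟨p094_k23, nat_lit 0, nat_lit 0, nat_lit 129, nat_lit 0, nat_lit 220024, [nat_lit 2032000001, nat_lit 4688000000, nat_lit 6250000000], [], [nat_lit 21217607296, nat_lit 22198739526, nat_lit 21349550932, nat_lit 22268455908, nat_lit 25087497520, nat_lit 25924010121, nat_lit 24957183088, nat_lit 25752469156], nat_lit 1271250, nat_lit 1271250, nat_lit 780000, nat_lit 1100001, nat_lit 1271250, nat_lit 1271250, [nat_lit 490000, nat_lit 1100000, nat_lit 1442500], [nat_lit 6, nat_lit 40, nat_lit 40, nat_lit 80, nat_lit 3, nat_lit 249, nat_lit 40, nat_lit 8]⟩, ⟨p094_k37, nat_lit 0, nat_lit 0, nat_lit 197, nat_lit 0, nat_lit 270107, [nat_lit 3282000000, nat_lit 6250000000, nat_lit 9842000000], [], [nat_lit 19152836250, nat_lit 19878300250, nat_lit 19190522250, nat_lit 19867941500, nat_lit 25153946451, nat_lit 25690753050, nat_lit 24894428000, nat_lit 25528477801], nat_lit 1271250, nat_lit 1271250, nat_lit 780000, nat_lit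 1100001, nat_lit 1271250, nat_lit 1271250, [nat_lit 780000, nat_lit 1435000, nat_lit 1271250], [nat_lit 8, nat_lit 40, nat_lit 40, nat_lit 80, nat_lit 1, nat_lit 345, nat_lit 125, nat_lit 9]⟩,
 zbF0, [⟨nat_lit 0, nat_lit 97, nat_lit 82, nat_lit 100, nat_lit 129653672⟩, ⟨nat_lit 16, nat_lit 87, nat_lit 95, nat_lit 100, nat_lit 631692388⟩, ⟨nat_lit 19, nat_lit 100, nat_lit 80, nat_lit 100, nat_lit 550636431⟩]⟩
noncomputable def p094_l112 : Lf2 := ⟨nat_lit 0, nat_lit 10, [nat_lit 0, nat_lit 5, nat_lit 5, nat_lit 20], false, nat_lit 240, nat_lit 288, nat_lit 240, nat_lit 336, ⟨nat_lit 685, nat_lit 167, nat_lit 148, nat_lit 7, nat_lit 198, nat_lit 315, nat_lit 198, nat_lit 148, nat_lit 3485, nat_lit 228, nat_lit 14541, nat_lit 241, nat_lit 42721763, nat_lit 12105514, nat_lit 12172723, nat_lit 4880908, false, false⟩,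
 nat_lit 8871, nat_lit 0, nat_lit 0, nat_lit 0, nat_lit 6915, nat_lit 5645, nat_lit 0, nat_lit 0, nat_lit 0, nat_lit 705, nat_lit 0, nat_lit 0, nat_lit 0, nat_lit 0, nat_lit 0, nat_lit 67650, nat_lit 0, nat_lit 0, [(nat_lit 18, [(nat_lit 0, nat_lit 167), (nat_lit 3, nat_lit 148)])],
 ⟨p094_k25, nat_lit 0, nat_lit 0, nat_lit 142, nat_lit 0, nat_lit 259108, [nat_lit 3680825601, nat_lit 3569428800, nat_lit 4619712000], [], [nat_lit 21532056570, nat_lit 22411154420, nat_lit 21730478060, nat_lit 22555530380, nat_lit 24261785373, nat_lit 25119169888, nat_lit 24284254020, nat_lit 25111514545], nat_lit 1271250, nat_lit 1271250, nat_lit 780000, nat_lit 1100001, nat_lit 1271250, nat_lit 1271250, [nat_lit 490000, nat_lit 1100000, nat_lit 1442500], [nat_lit 6, nat_lit 40, nat_lit 40, nat_lit 80, nat_lit 3, nat_lit 249, nat_lit 40, nat_lit 8]⟩, ⟨p094_k37, nat_lit 0, nat_lit 0, nat_lit 219, nat_lit 0, nat_lit 333519, [nat_lit 2248170000,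 nat_lit 4281250000, nat_lit 6741770000], [], [nat_lit 13040869425, nat_lit 13537488040, nat_lit 13067322685, nat_lit 13531060790, nat_lit 17149149918, nat_lit 17599478550, nat_lit 17056961461, nat_lit 17483411059], nat_lit 1271250, nat_lit 1271250, nat_lit 780000, nat_lit 1100001, nat_lit 1271250, nat_lit 1271250, [nat_lit 780000, nat_lit 1435000, nat_lit 1271250], [nat_lit 8, nat_lit 40, nat_lit 40, nat_lit 80, nat_lit 1, nat_lit 345, nat_lit 125, nat_lit 9]⟩,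
 ⟨nat_lit 3872, nat_lit 4184, ⟨.ofNat (nat_lit 454130), .ofNat (nat_lit 520388), .ofNat (nat_lit 464961), .ofNat (nat_lit 531219), .ofNat (nat_lit 458104), .ofNat (nat_lit 522628), .ofNat (nat_lit 468998), .ofNat (nat_lit 533523)⟩, ⟨.ofNat (nat_lit 436254), .ofNat (nat_lit 515761), .ofNat (nat_lit 479587), .ofNat (nat_lit 559094), .ofNat (nat_lit 433760), .ofNat (nat_lit 511186), .ofNat (nat_lit 477347), .ofNat (nat_lit 554773)⟩⟩, [⟨nat_lit 0, nat_lit 98, nat_lit 80, nat_lit 100, nat_lit 238737297⟩, ⟨nat_lit 16, nat_lit 83, nat_lit 98, nat_lit 100, nat_lit 538825699⟩, ⟨nat_lit 19, nat_lit 100, nat_lit 80, nat_lit 100, nat_lit 381257180⟩]⟩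
noncomputable def p094_l113 : Lf2 := ⟨nat_lit 0, nat_lit 10, [nat_lit 0, nat_lit 5, nat_lit 5, nat_lit 20], false, nat_lit 240, nat_lit 280, nat_lit 240, nat_lit 328, ⟨nat_lit 1000, nat_lit 0, nat_lit 0, nat_lit 0, nat_lit 0, nat_lit 0, nat_lit 0, nat_lit 0, nat_lit 0, nat_lit 0, nat_lit 0, nat_lit 0, nat_lit 0, nat_lit 0, nat_lit 0, nat_lit 0, false, false⟩,
 nat_lit 9940, nat_lit 0, nat_lit 0, nat_lit 0, nat_lit 6996, nat_lit 6601, nat_lit 524, nat_lit 0, nat_lit 0, nat_lit 1366, nat_lit 0, nat_lit 0, nat_lit 0, nat_lit 0, nat_lit 0, nat_lit 0, nat_lit 0, nat_lit 0, [],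
 ⟨p094_k8, nat_lit 0, nat_lit 0, nat_lit 248, nat_lit 0, nat_lit 558207, [nat_lit 2032000001, nat_lit 3282000000, nat_lit 6250000000], [], [nat_lit 21468347407, nat_lit 22863273109, nat_lit 21445713696, nat_lit 22735046208, nat_lit 23325571265, nat_lit 24870736310, nat_lit 23150656816, nat_lit 24633875208], nat_lit 1271250, nat_lit 1271250, nat_lit 689850, nat_lit 1100001, nat_lit 1271250, nat_lit 1271250, [nat_lit 490000, nat_lit 780000, nat_lit 1435000], [nat_lit 85, nat_lit 40, nat_lit 40, nat_lit 80, nat_lit 16, nat_lit 249, nat_lit 40, nat_lit 8]⟩, ⟨p094_k20, nat_lit 0, nat_lit 0, nat_lit 322, nat_lit 0, nat_lit 649344, [nat_lit 3282000000, nat_lit 4688000000, nat_lit 7968000000], [], [nat_lit 20619812890, nat_lit 21061055178, nat_lit 20649228077, nat_lit 21055639572, nat_lit 23942458417, nat_lit 24722896970, nat_lit 23831969198, nat_lit 24552902065], nat_lit 1271250, nat_lit 1271250, nat_lit 689850, nat_lit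 1100001, nat_lit 1271250, nat_lit 1271250, [nat_lit 780000, nat_lit 1100000, nat_lit 1785000], [nat_lit 36, nat_lit 40, nat_lit 40, nat_lit 80, nat_lit 7, nat_lit 249, nat_lit 40, nat_lit 7]⟩,
 zbF0, [⟨nat_lit 0, nat_lit 94, nat_lit 81, nat_lit 100, nat_lit 731941927⟩, ⟨nat_lit 19, nat_lit 97, nat_lit 84, nat_lit 100, nat_lit 439949643⟩]⟩
noncomputable def p094_l114 : Lf2 := ⟨nat_lit 0, nat_lit 10, [nat_lit 0, nat_lit 5, nat_lit 5, nat_lit 20], false, nat_lit 280, nat_lit 300, nat_lit 240, nat_lit 328, ⟨nat_lit 1000, nat_lit 0, nat_lit 0, nat_lit 0, nat_lit 0, nat_lit 0, nat_lit 0, nat_lit 0, nat_lit 0, nat_lit 0, nat_lit 0, nat_lit 0, nat_lit 0, nat_lit 0, nat_lit 0, nat_lit 0, false, false⟩,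
 nat_lit 10000, nat_lit 0, nat_lit 0, nat_lit 0, nat_lit 7182, nat_lit 6641, nat_lit 516, nat_lit 0, nat_lit 0, nat_lit 1339, nat_lit 0, nat_lit 0, nat_lit 0, nat_lit 0, nat_lit 0, nat_lit 0, nat_lit 0, nat_lit 0, [],
 ⟨p094_k8, nat_lit 0, nat_lit 0, nat_lit 251, nat_lit 0, nat_lit 558207, [nat_lit 2032000001, nat_lit 3282000000, nat_lit 6250000000], [], [nat_lit 23077115388, nat_lit 25014811482, nat_lit 22870294872, nat_lit 24740583036, nat_lit 24459990336, nat_lit 26461959930, nat_lit 24225933332, nat_lit 26077485534], nat_lit 1271250, nat_lit 1271250, nat_lit 689850, nat_lit 1100001, nat_lit 1271250, nat_lit 1271250, [nat_lit 490000, nat_lit 780000, nat_lit 1435000], [nat_lit 85, nat_lit 40, nat_lit 40, nat_lit 80, nat_lit 16, nat_lit 249, nat_lit 40, nat_lit 8]⟩, ⟨p094_k20, nat_lit 0, nat_lit 0, nat_lit 322, nat_lit 0, nat_lit 649344, [nat_lit 3282000000, nat_lit 4688000000, nat_lit 7968000000], [], [nat_lit 20608105199,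 nat_lit 21050532591, nat_lit 20631786282, nat_lit 21039217577, nat_lit 23969713598, nat_lit 24753568721, nat_lit 23850273103, nat_lit 24575495041], nat_lit 1271250, nat_lit 1271250, nat_lit 689850, nat_lit 1100001, nat_lit 1271250, nat_lit 1271250, [nat_lit 780000, nat_lit 1100000, nat_lit 1785000], [nat_lit 36, nat_lit 40, nat_lit 40, nat_lit 80, nat_lit 7, nat_lit 249, nat_lit 40, nat_lit 7]⟩,
 zbF0, [⟨nat_lit 0, nat_lit 94, nat_lit 81, nat_lit 100, nat_lit 60013654⟩, ⟨nat_lit 0, nat_lit 100, nat_lit 89, nat_lit 100, nat_lit 369789775⟩, ⟨nat_lit 16, nat_lit 87, nat_lit 95, nat_lit 100, nat_lit 450239884⟩, ⟨nat_lit 19, nat_lit 97, nat_lit 84, nat_lit 100, nat_lit 180365213⟩, ⟨nat_lit 23, nat_lit 95, nat_lit 76, nat_lit 100, nat_lit 267210255⟩]⟩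
noncomputable def p094_l115 : Lf2 := ⟨nat_lit 0, nat_lit 10, [nat_lit 0, nat_lit 5, nat_lit 5, nat_lit 20], false, nat_lit 240, nat_lit 276, nat_lit 160, nat_lit 336, ⟨nat_lit 377, nat_lit 605, nat_lit 18, nat_lit 7, nat_lit 201, nat_lit 623, nat_lit 192, nat_lit 18, nat_lit 13749, nat_lit 240, nat_lit 10576, nat_lit 238, nat_lit 42917468, nat_lit 12452233, nat_lit 11630299, nat_lit 4858964, false, false⟩,
 nat_lit 5220, nat_lit 0, nat_lit 0, nat_lit 0, nat_lit 4225, nat_lit 3321, nat_lit 377, nat_lit 0, nat_lit 0, nat_lit 343, nat_lit 0, nat_lit 0, nat_lit 0, nat_lit 0, nat_lit 0, nat_lit 260000, nat_lit 0, nat_lit 0, [(nat_lit 21, [(nat_lit 1, nat_lit 605), (nat_lit 6, nat_lit 18)])],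
 ⟨p094_k34, nat_lit 0, nat_lit 0, nat_lit 262, nat_lit 0, nat_lit 575807, [nat_lit 1599596801, nat_lit 2621848001, nat_lit 3182978800], [], [nat_lit 21270040888, nat_lit 22258704043, nat_lit 21613438003, nat_lit 22576526454, nat_lit 22492427209, nat_lit 24019868287, nat_lit 22835763196, nat_lit 24290225780], nat_lit 1271250, nat_lit 1271250, nat_lit 810650, nat_lit 1100001, nat_lit 1271250, nat_lit 1271250, [nat_lit 490000, nat_lit 1100000, nat_lit 1442500], [nat_lit 6, nat_lit 40, nat_lit 40, nat_lit 80, nat_lit 3, nat_lit 249, nat_lit 40, nat_lit 8]⟩, ⟨p094_k37, nat_lit 0, nat_lit 0, nat_lit 456, nat_lit 0, nat_lit 776078, [nat_lit 1237314000, nat_lit 2356250000, nat_lit 3710434000], [], [nat_lit 7763646769, nat_lit 7804950152, nat_lit 7569102531, nat_lit 7750431712, nat_lit 9667880779, nat_lit 9824246074, nat_lit 10481096899, nat_lit 9745501175], nat_lit 1271250, nat_lit 1271250, nat_lit 810650, nat_lit 1100001,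 nat_lit 1100001, nat_lit 2607000, [nat_lit 780000, nat_lit 1435000, nat_lit 1271250], [nat_lit 8, nat_lit 40, nat_lit 40, nat_lit 80, nat_lit 1, nat_lit 345, nat_lit 125, nat_lit 9]⟩,
 ⟨nat_lit 3162, nat_lit 3873, ⟨.ofNat (nat_lit 464406), .ofNat (nat_lit 522504), .ofNat (nat_lit 475288), .ofNat (nat_lit 533387), .ofNat (nat_lit 472632), .ofNat (nat_lit 527519), .ofNat (nat_lit 483694), .ofNat (nat_lit 538582)⟩, ⟨.ofNat (nat_lit 433760), .ofNat (nat_lit 491830), .ofNat (nat_lit 477347), .ofNat (nat_lit 535416), .ofNat (nat_lit 428022), .ofNat (nat_lit 482881), .ofNat (nat_lit 472332), .ofNat (nat_lit 527190)⟩⟩, [⟨nat_lit 0, nat_lit 99, nat_lit 77, nat_lit 100, nat_lit 157094412⟩, ⟨nat_lit 16, nat_lit 77, nat_lit 100, nat_lit 99, nat_lit 333136540⟩, ⟨nat_lit 19, nat_lit 100, nat_lit 80, nat_lit 100, nat_lit 143346518⟩]⟩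
noncomputable def p094_l116 : Lf2 := ⟨nat_lit 0, nat_lit 10, [nat_lit 0, nat_lit 5, nat_lit 5, nat_lit 20], false, nat_lit 240, nat_lit 276, nat_lit 160, nat_lit 328, ⟨nat_lit 441, nat_lit 559, nat_lit 0, nat_lit 7, nat_lit 208, nat_lit 559, nat_lit 192, nat_lit 0, nat_lit 0, nat_lit 0, nat_lit 0, nat_lit 0, nat_lit 42405305, nat_lit 13046869, nat_lit 11547826, nat_lit 4909569, false, false⟩,
 nat_lit 5428, nat_lit 0, nat_lit 0, nat_lit 0, nat_lit 4394, nat_lit 3604, nat_lit 401, nat_lit 0, nat_lit 0, nat_lit 376, nat_lit 0, nat_lit 0, nat_lit 0, nat_lit 0, nat_lit 0, nat_lit 223600, nat_lit 0, nat_lit 0, [(nat_lit 21, [(nat_lit 1, nat_lit 559)])],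
 ⟨p094_k34, nat_lit 0, nat_lit 0, nat_lit 270, nat_lit 0, nat_lit 604135, [nat_lit 1653668800, nat_lit 2901883201, nat_lit 3590278000], [], [nat_lit 21443990691, nat_lit 22439371374, nat_lit 21699602945, nat_lit 22657111593, nat_lit 22673799168, nat_lit 24220523454, nat_lit 22929346979, nat_lit 24413979884], nat_lit 1271250, nat_lit 1271250, nat_lit 872850, nat_lit 1100001, nat_lit 1271250, nat_lit 1271250, [nat_lit 490000, nat_lit 1100000, nat_lit 1442500], [nat_lit 6, nat_lit 40, nat_lit 40, nat_lit 80, nat_lit 3, nat_lit 249, nat_lit 40, nat_lit 8]⟩, ⟨p094_k38, nat_lit 0, nat_lit 0, nat_lit 388, nat_lit 0, nat_lit 771569, [nat_lit 1447362000, nat_lit 2756250000, nat_lit 3513888000], [], [nat_lit 8618300445, nat_lit 8857714231, nat_lit 8629855657, nat_lit 8880094522, nat_lit 10950945303, nat_lit 11265119303, nat_lit 10901006764, nat_lit 11219229962], nat_lit 1271250, nat_lit 1271250, nat_lit 872850, nat_lit 1100001,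 nat_lit 1100001, nat_lit 2538500, [nat_lit 780000, nat_lit 1435000, nat_lit 1271250], [nat_lit 18, nat_lit 40, nat_lit 40, nat_lit 80, nat_lit 2, nat_lit 345, nat_lit 125, nat_lit 11]⟩,
 ⟨nat_lit 3162, nat_lit 3873, ⟨.ofNat (nat_lit 488199), .ofNat (nat_lit 533387), .ofNat (nat_lit 499081), .ofNat (nat_lit 544269), .ofNat (nat_lit 495892), .ofNat (nat_lit 538582), .ofNat (nat_lit 506955), .ofNat (nat_lit 549645)⟩, ⟨.ofNat (nat_lit 433760), .ofNat (nat_lit 491830), .ofNat (nat_lit 477347), .ofNat (nat_lit 535416), .ofNat (nat_lit 428022), .ofNat (nat_lit 482881), .ofNat (nat_lit 472332), .ofNat (nat_lit 527190)⟩⟩, [⟨nat_lit 0, nat_lit 94, nat_lit 75, nat_lit 100, nat_lit 339357236⟩, ⟨nat_lit 16, nat_lit 77, nat_lit 100, nat_lit 99, nat_lit 353124146⟩, ⟨nat_lit 19, nat_lit 97, nat_lit 84, nat_lit 100, nat_lit 173671596⟩]⟩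
noncomputable def p094_l117 : Lf2 := ⟨nat_lit 0, nat_lit 10, [nat_lit 0, nat_lit 5, nat_lit 5, nat_lit 20], false, nat_lit 160, nat_lit 300, nat_lit 160, nat_lit 320, ⟨nat_lit 1000, nat_lit 0, nat_lit 0, nat_lit 0, nat_lit 0, nat_lit 0, nat_lit 0, nat_lit 0, nat_lit 0, nat_lit 0, nat_lit 0, nat_lit 0, nat_lit 0, nat_lit 0, nat_lit 0, nat_lit 0, false, false⟩,
 nat_lit 9661, nat_lit 0, nat_lit 0, nat_lit 0, nat_lit 7245, nat_lit 6688, nat_lit 472, nat_lit 0, nat_lit 0, nat_lit 1320, nat_lit 0, nat_lit 0, nat_lit 0, nat_lit 0, nat_lit 0, nat_lit 0, nat_lit 0, nat_lit 0, [],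
 ⟨p094_k23, nat_lit 0, nat_lit 0, nat_lit 334, nat_lit 0, nat_lit 731058, [nat_lit 2032000001, nat_lit 4688000000, nat_lit 6250000000], [], [nat_lit 20201705100, nat_lit 22923100960, nat_lit 20382618580, nat_lit 22937392440, nat_lit 24248458300, nat_lit 28208205655, nat_lit 24258083870, nat_lit 27981740260], nat_lit 1271250, nat_lit 1271250, nat_lit 780000, nat_lit 1100001, nat_lit 1100001, nat_lit 2298750, [nat_lit 490000, nat_lit 1100000, nat_lit 1442500], [nat_lit 6, nat_lit 40, nat_lit 40, nat_lit 80, nat_lit 3, nat_lit 345, nat_lit 125, nat_lit 12]⟩, ⟨p094_k24, nat_lit 0, nat_lit 0, nat_lit 411, nat_lit 0, nat_lit 807288, [nat_lit 3282000000, nat_lit 6250000000, nat_lit 7968000000], [], [nat_lit 19560343560, nat_lit 20522459912, nat_lit 19738032024, nat_lit 20639090504, nat_lit 23777744952, nat_lit 25371392416, nat_lit 23866843696, nat_lit 25364120704], nat_lit 1271250, nat_lit 1271250, nat_lit 780000, nat_lit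 1100001, nat_lit 1100001, nat_lit 2470000, [nat_lit 780000, nat_lit 1435000, nat_lit 1271250], [nat_lit 18, nat_lit 40, nat_lit 40, nat_lit 80, nat_lit 2, nat_lit 345, nat_lit 125, nat_lit 11]⟩,
 zbF0, [⟨nat_lit 0, nat_lit 94, nat_lit 87, nat_lit 100, nat_lit 627528227⟩, ⟨nat_lit 16, nat_lit 87, nat_lit 95, nat_lit 100, nat_lit 411771592⟩, ⟨nat_lit 19, nat_lit 94, nat_lit 88, nat_lit 100, nat_lit 376156558⟩]⟩
noncomputable def p094_l118 : Lf2 := ⟨nat_lit 0, nat_lit 5, [nat_lit 4, nat_lit 5, nat_lit 5, nat_lit 20], false, nat_lit 160, nat_lit 300, nat_lit 160, nat_lit 336, ⟨nat_lit 683, nat_lit 317, nat_lit 0, nat_lit 7, nat_lit 244, nat_lit 317, nat_lit 176, nat_lit 0, nat_lit 0, nat_lit 0, nat_lit 0, nat_lit 0, nat_lit 40793682, nat_lit 16444386, nat_lit 9761932, nat_lit 4993113, false, false⟩,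
 nat_lit 7570, nat_lit 0, nat_lit 0, nat_lit 0, nat_lit 5677, nat_lit 4817, nat_lit 676, nat_lit 0, nat_lit 0, nat_lit 851, nat_lit 0, nat_lit 0, nat_lit 0, nat_lit 0, nat_lit 0, nat_lit 126800, nat_lit 0, nat_lit 0, [(nat_lit 18, [(nat_lit 1, nat_lit 317)]), (nat_lit 21, [(nat_lit 1, nat_lit 317)])],
 ⟨p094_k5, nat_lit 0, nat_lit 0, nat_lit 309, nat_lit 0, nat_lit 695911, [nat_lit 1817708001, nat_lit 2796060134, nat_lit 4890323600], [], [nat_lit 18547515303, nat_lit 20912314210, nat_lit 20380790902, nat_lit 23378665220, nat_lit 23457892702, nat_lit 26670032996, nat_lit 25502564625, nat_lit 28255382496], nat_lit 1271250, nat_lit 1271250, nat_lit 1100001, nat_lit 1785000, nat_lit 1100001, nat_lit 2298750, [nat_lit 490000, nat_lit 780000, nat_lit 1435000], [nat_lit 85, nat_lit 40, nat_lit 40, nat_lit 80, nat_lit 16, nat_lit 373, nat_lit 150, nat_lit 13]⟩, ⟨p094_k6, nat_lit 0, nat_lit 0, nat_lit 410, nat_lit 0, nat_lit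 851562, [nat_lit 2241606000, nat_lit 3201904000, nat_lit 5442144000], [], [nat_lit 14569234248, nat_lit 15673368128, nat_lit 18203807748, nat_lit 16354234312, nat_lit 17493967365, nat_lit 18460657634, nat_lit 18083302365, nat_lit 19551752370], nat_lit 1271250, nat_lit 1271250, nat_lit 1100001, nat_lit 1785000, nat_lit 1271250, nat_lit 1271250, [nat_lit 780000, nat_lit 1100000, nat_lit 1785000], [nat_lit 36, nat_lit 40, nat_lit 40, nat_lit 80, nat_lit 7, nat_lit 373, nat_lit 150, nat_lit 11]⟩,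
 ⟨nat_lit 3162, nat_lit 4473, ⟨.ofNat (nat_lit 517847), .ofNat (nat_lit 653959), .ofNat (nat_lit 560799), .ofNat (nat_lit 696911), .ofNat (nat_lit 527226), .ofNat (nat_lit 649288), .ofNat (nat_lit 571355), .ofNat (nat_lit 693416)⟩, ⟨.ofNat (nat_lit 302621), .ofNat (nat_lit 540545), .ofNat (nat_lit 345754), .ofNat (nat_lit 583678), .ofNat (nat_lit 306116), .ofNat (nat_lit 519453), .ofNat (nat_lit 350426), .ofNat (nat_lit 563762)⟩⟩, [⟨nat_lit 0, nat_lit 80, nat_lit 60, nat_lit 100, nat_lit 127959791⟩, ⟨nat_lit 4, nat_lit 100, nat_lit 74, nat_lit 90, nat_lit 488075165⟩, ⟨nat_lit 7, nat_lit 100, nat_lit 100, nat_lit 100, nat_lit 222792202⟩]⟩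
noncomputable def p094_l119 : Lf2 := ⟨nat_lit 0, nat_lit 10, [nat_lit 0, nat_lit 5, nat_lit 5, nat_lit 20], false, nat_lit 160, nat_lit 300, nat_lit 160, nat_lit 336, ⟨nat_lit 1000, nat_lit 0, nat_lit 0, nat_lit 0, nat_lit 0, nat_lit 0, nat_lit 0, nat_lit 0, nat_lit 0, nat_lit 0, nat_lit 0, nat_lit 0, nat_lit 0, nat_lit 0, nat_lit 0, nat_lit 0, false, false⟩,
 nat_lit 10391, nat_lit 0, nat_lit 0, nat_lit 0, nat_lit 7792, nat_lit 6612, nat_lit 165, nat_lit 0, nat_lit 0, nat_lit 1473, nat_lit 0, nat_lit 0, nat_lit 0, nat_lit 0, nat_lit 0, nat_lit 0, nat_lit 0, nat_lit 0, [],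
 ⟨p094_k8, nat_lit 0, nat_lit 0, nat_lit 210, nat_lit 0, nat_lit 459572, [nat_lit 2032000001, nat_lit 3282000000, nat_lit 6250000000], [], [nat_lit 20629886816, nat_lit 22241045952, nat_lit 22635108192, nat_lit 24007122816, nat_lit 25310991552, nat_lit 26490547464, nat_lit 26579364000, nat_lit 28232756508], nat_lit 1271250, nat_lit 1271250, nat_lit 1100001, nat_lit 1785000, nat_lit 1100001, nat_lit 2298750, [nat_lit 490000, nat_lit 780000, nat_lit 1435000], [nat_lit 85, nat_lit 40, nat_lit 40, nat_lit 80, nat_lit 16, nat_lit 373, nat_lit 150, nat_lit 13]⟩, ⟨p094_k9, nat_lit 0, nat_lit 0, nat_lit 323, nat_lit 0, nat_lit 564184, [nat_lit 3282000000, nat_lit 4688000000, nat_lit 9842000000], [], [nat_lit 26811776809, nat_lit 21216740985, nat_lit 20842883417, nat_lit 22850892089, nat_lit 25046478297, nat_lit 26695286947, nat_lit 25981525668, nat_lit 28318820852], nat_lit 1271250, nat_lit 1271250, nat_lit 1271250, nat_lit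 1271250, nat_lit 1271250, nat_lit 1271250, [nat_lit 780000, nat_lit 1100000, nat_lit 2127500], [nat_lit 42, nat_lit 40, nat_lit 40, nat_lit 80, nat_lit 13, nat_lit 373, nat_lit 150, nat_lit 10]⟩,
 zbF0, [⟨nat_lit 0, nat_lit 81, nat_lit 72, nat_lit 100, nat_lit 151103656⟩, ⟨nat_lit 4, nat_lit 100, nat_lit 81, nat_lit 92, nat_lit 498385373⟩, ⟨nat_lit 7, nat_lit 100, nat_lit 100, nat_lit 100, nat_lit 200520631⟩]⟩
noncomputable def p094_l120 : Lf2 := ⟨nat_lit 0, nat_lit 10, [nat_lit 0, nat_lit 5, nat_lit 5, nat_lit 20], false, nat_lit 160, nat_lit 276, nat_lit 160, nat_lit 336, ⟨nat_lit 1000, nat_lit 0, nat_lit 0, nat_lit 0, nat_lit 0, nat_lit 0, nat_lit 0, nat_lit 0, nat_lit 0, nat_lit 0, nat_lit 0, nat_lit 0, nat_lit 0, nat_lit 0, nat_lit 0, nat_lit 0, false, false⟩,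
 nat_lit 10710, nat_lit 0, nat_lit 0, nat_lit 0, nat_lit 7230, nat_lit 6815, nat_lit 221, nat_lit 0, nat_lit 0, nat_lit 1477, nat_lit 0, nat_lit 0, nat_lit 0, nat_lit 0, nat_lit 0, nat_lit 0, nat_lit 0, nat_lit 0, [],
 ⟨p094_k16, nat_lit 0, nat_lit 0, nat_lit 226, nat_lit 0, nat_lit 506602, [nat_lit 2032000001, nat_lit 3282000000, nat_lit 6250000000], [], [nat_lit 20426669430, nat_lit 22423772790, nat_lit 22845156310, nat_lit 24541381990, nat_lit 24729321224, nat_lit 26490705544, nat_lit 26529995929, nat_lit 28218999097], nat_lit 1271250, nat_lit 1271250, nat_lit 1100001, nat_lit 1785000, nat_lit 1100001, nat_lit 2093250, [nat_lit 490000, nat_lit 780000, nat_lit 1435000], [nat_lit 85, nat_lit 40, nat_lit 40, nat_lit 80, nat_lit 16, nat_lit 373, nat_lit 150, nat_lit 13]⟩, ⟨p094_k9, nat_lit 0, nat_lit 0, nat_lit 372, nat_lit 0, nat_lit 682802, [nat_lit 3282000000, nat_lit 4688000000, nat_lit 9842000000], [], [nat_lit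 26671020205, nat_lit 22038195925, nat_lit 21660799125, nat_lit 23313821065, nat_lit 25156656941, nat_lit 26848397280, nat_lit 26326261656, nat_lit 28460445345], nat_lit 1271250, nat_lit 1271250, nat_lit 1271250, nat_lit 1271250, nat_lit 1271250, nat_lit 1271250, [nat_lit 780000, nat_lit 1100000, nat_lit 2127500], [nat_lit 42, nat_lit 40, nat_lit 40, nat_lit 80, nat_lit 13, nat_lit 373, nat_lit 150, nat_lit 10]⟩,
 zbF0, [⟨nat_lit 0, nat_lit 88, nat_lit 67, nat_lit 100, nat_lit 350655110⟩, ⟨nat_lit 16, nat_lit 67, nat_lit 100, nat_lit 88, nat_lit 659985736⟩, ⟨nat_lit 19, nat_lit 100, nat_lit 80, nat_lit 100, nat_lit 185364259⟩]⟩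
noncomputable def b_V_800_700_20_22 : St := ⟨true, nat_lit 1, nat_lit 1, nat_lit 1, nat_lit 120, nat_lit 320, nat_lit 360, nat_lit 280, nat_lit 320, nat_lit 100, nat_lit 240, nat_lit 80, nat_lit 120, nat_lit 0, nat_lit 300, nat_lit 0, nat_lit 336, nat_lit 0, nat_lit 40, nat_lit 0, nat_lit 0, nat_lit 0, nat_lit 0⟩
theorem d_V_800_700_20_22 (h : EB TB.env) : Dead b_V_800_700_20_22 := chkB_sound0 h (T :=
(.spl (nat_lit 4) (nat_lit 160)
(.spl (nat_lit 5) (nat_lit 160)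
(.leaf p094_l98)
(.spl (nat_lit 0) (nat_lit 340)
(.leaf p094_l99)
(.trZ (nat_lit 0) (nat_lit 99) (nat_lit 77) (nat_lit 100) (nat_lit 124) (.leaf p094_l100))))
(.spl (nat_lit 5) (nat_lit 160)
(.spl (nat_lit 2) (nat_lit 160)
(.leaf p094_l101)
(.leaf p094_l102))
(.spl (nat_lit 2) (nat_lit 160)
(.spl (nat_lit 1) (nat_lit 300)
(.spl (nat_lit 4) (nat_lit 240)
(.leaf p094_l103)
(.spl (nat_lit 0) (nat_lit 340)
(.spl (nat_lit 5) (nat_lit 240)
(.leaf p094_l104)
(.spl (nat_lit 1) (nat_lit 290)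
(.spl (nat_lit 6) (nat_lit 20)
(.spl (nat_lit 0) (nat_lit 330)
(.leaf p094_l105)
(.trZ (nat_lit 0) (nat_lit 100) (nat_lit 83) (nat_lit 98) (nat_lit 112) (.trX (nat_lit 16) (nat_lit 83) (nat_lit 98) (nat_lit 100) (nat_lit 288) (.leaf p094_l106))))
(.spl (nat_lit 2) (nat_lit 120)
(.spl (nat_lit 6) (nat_lit 32)
(.leaf p094_l107)
(.spl (nat_lit 0) (nat_lit 330)
(.leaf p094_l108)
(.trZ (nat_lit 0) (nat_lit 100) (nat_lit 83) (nat_lit 98) (nat_lit 112) (.trX (nat_lit 16) (nat_lit 83) (nat_lit 98) (nat_lit 100) (nat_lit 288) (.leaf p094_l109)))))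
(.spl (nat_lit 6) (nat_lit 32)
(.leaf p094_l110)
(.spl (nat_lit 0) (nat_lit 330)
(.leaf p094_l111)
(.trX (nat_lit 16) (nat_lit 83) (nat_lit 98) (nat_lit 100) (nat_lit 288) (.leaf p094_l112))))))
(.trZ (nat_lit 0) (nat_lit 100) (nat_lit 89) (nat_lit 100) (nat_lit 108) (.trX (nat_lit 19) (nat_lit 97) (nat_lit 84) (nat_lit 100) (nat_lit 328) (.spl (nat_lit 4) (nat_lit 280)
(.leaf p094_l113)
(.leaf p094_l114))))))
(.trZ (nat_lit 0) (nat_lit 99) (nat_lit 77) (nat_lit 100) (nat_lit 124) (.trX (nat_lit 16) (nat_lit 77) (nat_lit 100) (nat_lit 99) (nat_lit 276) (.spl (nat_lit 1) (nat_lit 290)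
(.leaf p094_l115)
(.trZ (nat_lit 0) (nat_lit 94) (nat_lit 75) (nat_lit 100) (nat_lit 132) (.trX (nat_lit 19) (nat_lit 97) (nat_lit 84) (nat_lit 100) (nat_lit 328) (.leaf p094_l116))))))))
(.trZ (nat_lit 0) (nat_lit 94) (nat_lit 87) (nat_lit 100) (nat_lit 120) (.trX (nat_lit 19) (nat_lit 94) (nat_lit 88) (nat_lit 100) (nat_lit 320) (.leaf p094_l117))))
(.spl (nat_lit 6) (nat_lit 20)
(.leaf p094_l118)
(.spl (nat_lit 0) (nat_lit 340)
(.leaf p094_l119)
(.trX (nat_lit 16) (nat_lit 77) (nat_lit 100) (nat_lit 99) (nat_lit 276) (.leaf p094_l120)))))))) (by decide +kernel)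
noncomputable def p094_l121 : Lf2 := ⟨nat_lit 0, nat_lit 10, [nat_lit 0, nat_lit 5, nat_lit 5, nat_lit 20], false, nat_lit 0, nat_lit 160, nat_lit 0, nat_lit 336, ⟨nat_lit 1000, nat_lit 0, nat_lit 0, nat_lit 0, nat_lit 0, nat_lit 0, nat_lit 0, nat_lit 0, nat_lit 0, nat_lit 0, nat_lit 0, nat_lit 0, nat_lit 0, nat_lit 0, nat_lit 0, nat_lit 0, false, false⟩,
 nat_lit 10942, nat_lit 0, nat_lit 0, nat_lit 0, nat_lit 7720, nat_lit 6962, nat_lit 473, nat_lit 0, nat_lit 0, nat_lit 676, nat_lit 0, nat_lit 0, nat_lit 0, nat_lit 0, nat_lit 0, nat_lit 0, nat_lit 0, nat_lit 0, [],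
 ⟨p094_k23, nat_lit 0, nat_lit 0, nat_lit 381, nat_lit 0, nat_lit 634173, [nat_lit 2032000001, nat_lit 4688000000, nat_lit 6250000000], [], [nat_lit 26952045600, nat_lit 29668217680, nat_lit 42872604320, nat_lit 44432639280, nat_lit 21262559520, nat_lit 22269530640, nat_lit 33606135680, nat_lit 34966027440], nat_lit 1271250, nat_lit 1271250, nat_lit 1271250, nat_lit 1271250, nat_lit 0, nat_lit 1100001, [nat_lit 490000, nat_lit 1100000, nat_lit 1442500], [nat_lit 6, nat_lit 40, nat_lit 40, nat_lit 80, nat_lit 3, nat_lit 249, nat_lit 40, nat_lit 9]⟩, ⟨p094_k37, nat_lit 0, nat_lit 0, nat_lit 527, nat_lit 0, nat_lit 778529, [nat_lit 3282000000, nat_lit 6250000000, nat_lit 9842000000], [], [nat_lit 34696697212, nat_lit 36042170188, nat_lit 39897123076, nat_lit 40756874680, nat_lit 33341644450, nat_lit 34188898861, nat_lit 36672430535, nat_lit 37122153538], nat_lit 1271250, nat_lit 1271250, nat_lit 1271250, nat_lit 1271250,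 nat_lit 0, nat_lit 2373000, [nat_lit 780000, nat_lit 1435000, nat_lit 1271250], [nat_lit 8, nat_lit 40, nat_lit 40, nat_lit 80, nat_lit 1, nat_lit 428, nat_lit 200, nat_lit 12]⟩,
 zbF0, [⟨nat_lit 7, nat_lit 100, nat_lit 100, nat_lit 100, nat_lit 40370770⟩, ⟨nat_lit 22, nat_lit 83, nat_lit 100, nat_lit 83, nat_lit 137790473⟩]⟩
noncomputable def p094_l122 : Lf2 := ⟨nat_lit 0, nat_lit 10, [nat_lit 0, nat_lit 5, nat_lit 5, nat_lit 20], false, nat_lit 0, nat_lit 160, nat_lit 0, nat_lit 336, ⟨nat_lit 1000, nat_lit 0, nat_lit 0, nat_lit 0, nat_lit 0, nat_lit 0, nat_lit 0, nat_lit 0, nat_lit 0, nat_lit 0, nat_lit 0, nat_lit 0, nat_lit 0, nat_lit 0, nat_lit 0, nat_lit 0, false, false⟩,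
 nat_lit 6209, nat_lit 0, nat_lit 4732, nat_lit 0, nat_lit 5026, nat_lit 6962, nat_lit 1228, nat_lit 0, nat_lit 0, nat_lit 1010, nat_lit 0, nat_lit 0, nat_lit 0, nat_lit 0, nat_lit 0, nat_lit 0, nat_lit 0, nat_lit 0, [],
 ⟨p094_k34, nat_lit 0, nat_lit 0, nat_lit 378, nat_lit 0, nat_lit 621117, [nat_lit 2032000001, nat_lit 4688000000, nat_lit 6250000000], [], [nat_lit 25025394244, nat_lit 26050887126, nat_lit 36576870624, nat_lit 37197581108, nat_lit 21644606742, nat_lit 22134743267, nat_lit 31303394352, nat_lit 31850245856], nat_lit 1271250, nat_lit 1271250, nat_lit 1271250, nat_lit 1271250, nat_lit 0, nat_lit 1100001, [nat_lit 490000, nat_lit 1100000, nat_lit 1442500], [nat_lit 6, nat_lit 40, nat_lit 40, nat_lit 80, nat_lit 3, nat_lit 249, nat_lit 40, nat_lit 9]⟩, ⟨p094_k37, nat_lit 0, nat_lit 0, nat_lit 571, nat_lit 0, nat_lit 837147, [nat_lit 3282000000, nat_lit 6250000000, nat_lit 9842000000], [], [nat_lit 33704476808,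 nat_lit 35147485080, nat_lit 39784176328, nat_lit 40756874680, nat_lit 33341644450, nat_lit 34188898861, nat_lit 36672430535, nat_lit 37122153538], nat_lit 1271250, nat_lit 1271250, nat_lit 1271250, nat_lit 1271250, nat_lit 0, nat_lit 2373000, [nat_lit 780000, nat_lit 1435000, nat_lit 1271250], [nat_lit 8, nat_lit 40, nat_lit 40, nat_lit 80, nat_lit 1, nat_lit 428, nat_lit 200, nat_lit 12]⟩,
 zbF0, [⟨nat_lit 7, nat_lit 100, nat_lit 100, nat_lit 100, nat_lit 130691030⟩, ⟨nat_lit 22, nat_lit 83, nat_lit 100, nat_lit 83, nat_lit 6682533⟩]⟩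
noncomputable def p094_l123 : Lf2 := ⟨nat_lit 0, nat_lit 10, [nat_lit 0, nat_lit 5, nat_lit 5, nat_lit 20], false, nat_lit 4, nat_lit 160, nat_lit 0, nat_lit 336, ⟨nat_lit 925, nat_lit 75, nat_lit 0, nat_lit 7, nat_lit 317, nat_lit 75, nat_lit 68, nat_lit 0, nat_lit 0, nat_lit 0, nat_lit 0, nat_lit 0, nat_lit 39627813, nat_lit 25153741, nat_lit 2218446, nat_lit 4121257, true, true⟩,
 nat_lit 5808, nat_lit 0, nat_lit 4704, nat_lit 0, nat_lit 4878, nat_lit 6689, nat_lit 761, nat_lit 0, nat_lit 0, nat_lit 681, nat_lit 0, nat_lit 0, nat_lit 0, nat_lit 0, nat_lit 0, nat_lit 30000, nat_lit 0, nat_lit 0, [(nat_lit 21, [(nat_lit 1, nat_lit 75)])],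
 ⟨p094_k35, nat_lit 0, nat_lit 0, nat_lit 342, nat_lit 0, nat_lit 636720, [nat_lit 1981240001, nat_lit 4447700000], [], [nat_lit 25587261816, nat_lit 26591951771, nat_lit 36230463782, nat_lit 36851157542, nat_lit 22438590869, nat_lit 22923592775, nat_lit 31365960000, nat_lit 31913372169], nat_lit 1271250, nat_lit 1271250, nat_lit 1271250, nat_lit 1271250, nat_lit 21650, nat_lit 1100001, [nat_lit 490000, nat_lit 1100000], [nat_lit 24, nat_lit 40, nat_lit 40, nat_lit 80, nat_lit 33, nat_lit 249, nat_lit 40, nat_lit 10]⟩, ⟨p094_k37, nat_lit 0, nat_lit 0, nat_lit 593, nat_lit 0, nat_lit 897468, [nat_lit 3035850000, nat_lit 5781250000, nat_lit 9103850000], [], [nat_lit 33176016293, nat_lit 34122396289, nat_lit 37310907244, nat_lit 37993387454, nat_lit 31641196051, nat_lit 32209134853, nat_lit 33820738276, nat_lit 34091899620], nat_lit 1271250, nat_lit 1271250, nat_lit 1271250, nat_lit 1271250, nat_lit 0, nat_lit 2373000,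 [nat_lit 780000, nat_lit 1435000, nat_lit 1271250], [nat_lit 8, nat_lit 40, nat_lit 40, nat_lit 80, nat_lit 1, nat_lit 428, nat_lit 200, nat_lit 12]⟩,
 ⟨nat_lit 3162, nat_lit 3536, ⟨.ofNat (nat_lit 650549), .ofNat (nat_lit 895340), .ofNat (nat_lit 694437), .ofNat (nat_lit 939245), .ofNat (nat_lit 649550), .ofNat (nat_lit 887290), .ofNat (nat_lit 693843), .ofNat (nat_lit 931599)⟩, ⟨.ofNat (nat_lit 10000), .ofNat (nat_lit 305521), .ofNat (nat_lit 10000), .ofNat (nat_lit 349427), .ofNat (nat_lit 10000), .ofNat (nat_lit 306116), .ofNat (nat_lit 10000), .ofNat (nat_lit 350426)⟩⟩, [⟨nat_lit 7, nat_lit 100, nat_lit 100, nat_lit 100, nat_lit 117092366⟩]⟩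
noncomputable def p094_l124 : Lf2 := ⟨nat_lit 0, nat_lit 10, [nat_lit 0, nat_lit 5, nat_lit 5, nat_lit 20], false, nat_lit 160, nat_lit 300, nat_lit 0, nat_lit 160, ⟨nat_lit 1000, nat_lit 0, nat_lit 0, nat_lit 0, nat_lit 0, nat_lit 0, nat_lit 0, nat_lit 0, nat_lit 0, nat_lit 0, nat_lit 0, nat_lit 0, nat_lit 0, nat_lit 0, nat_lit 0, nat_lit 0, false, false⟩,
 nat_lit 10961, nat_lit 0, nat_lit 0, nat_lit 0, nat_lit 6705, nat_lit 6975, nat_lit 441, nat_lit 0, nat_lit 0, nat_lit 773, nat_lit 0, nat_lit 0, nat_lit 0, nat_lit 0, nat_lit 0, nat_lit 0, nat_lit 0, nat_lit 0, [],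
 ⟨p094_k23, nat_lit 0, nat_lit 0, nat_lit 301, nat_lit 0, nat_lit 634173, [nat_lit 2032000001, nat_lit 4688000000, nat_lit 6250000000], [], [nat_lit 23750537940, nat_lit 24801393040, nat_lit 32326480520, nat_lit 33586082160, nat_lit 26699624325, nat_lit 27539305008, nat_lit 35051062690, nat_lit 35976626653], nat_lit 1271250, nat_lit 1271250, nat_lit 1271250, nat_lit 1271250, nat_lit 1100001, nat_lit 2298750, [nat_lit 490000, nat_lit 1100000, nat_lit 1442500], [nat_lit 6, nat_lit 40, nat_lit 40, nat_lit 80, nat_lit 3, nat_lit 289, nat_lit 75, nat_lit 9]⟩, ⟨p094_k37, nat_lit 0, nat_lit 0, nat_lit 527, nat_lit 0, nat_lit 778529, [nat_lit 3282000000, nat_lit 6250000000, nat_lit 9842000000], [], [nat_lit 34036782725, nat_lit 35383080525, nat_lit 39749141900, nat_lit 40788276100, nat_lit 30284765225, nat_lit 31462379800, nat_lit 35307432900, nat_lit 36102682000], nat_lit 1271250, nat_lit 1271250, nat_lit 1271250, nat_lit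 1271250, nat_lit 0, nat_lit 1100001, [nat_lit 780000, nat_lit 1435000, nat_lit 1271250], [nat_lit 8, nat_lit 40, nat_lit 40, nat_lit 80, nat_lit 1, nat_lit 373, nat_lit 150, nat_lit 10]⟩,
 zbF0, [⟨nat_lit 4, nat_lit 100, nat_lit 81, nat_lit 92, nat_lit 409772899⟩]⟩
noncomputable def p094_l125 : Lf2 := ⟨nat_lit 0, nat_lit 10, [nat_lit 0, nat_lit 5, nat_lit 5, nat_lit 20], false, nat_lit 160, nat_lit 300, nat_lit 160, nat_lit 336, ⟨nat_lit 1000, nat_lit 0, nat_lit 0, nat_lit 0, nat_lit 0, nat_lit 0, nat_lit 0, nat_lit 0, nat_lit 0, nat_lit 0, nat_lit 0, nat_lit 0, nat_lit 0, nat_lit 0, nat_lit 0, nat_lit 0, false, false⟩,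
 nat_lit 10939, nat_lit 0, nat_lit 0, nat_lit 0, nat_lit 6799, nat_lit 6961, nat_lit 447, nat_lit 0, nat_lit 0, nat_lit 702, nat_lit 0, nat_lit 0, nat_lit 0, nat_lit 0, nat_lit 0, nat_lit 0, nat_lit 0, nat_lit 0, [],
 ⟨p094_k23, nat_lit 0, nat_lit 0, nat_lit 274, nat_lit 0, nat_lit 587909, [nat_lit 2032000001, nat_lit 4688000000, nat_lit 6250000000], [], [nat_lit 23435396332, nat_lit 23964575422, nat_lit 32444990456, nat_lit 33079435252, nat_lit 26413843561, nat_lit 26837156885, nat_lit 35161063182, nat_lit 35626596661], nat_lit 1271250, nat_lit 1271250, nat_lit 1271250, nat_lit 1271250, nat_lit 1100001, nat_lit 2298750, [nat_lit 490000, nat_lit 1100000, nat_lit 1442500], [nat_lit 6, nat_lit 40, nat_lit 40, nat_lit 80, nat_lit 3, nat_lit 289, nat_lit 75, nat_lit 9]⟩, ⟨p094_k37, nat_lit 0, nat_lit 0, nat_lit 405, nat_lit 0, nat_lit 721734, [nat_lit 3282000000, nat_lit 6250000000, nat_lit 9842000000], [], [nat_lit 27995693598,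 nat_lit 29452913330, nat_lit 33612568334, nat_lit 34597690456, nat_lit 31403070524, nat_lit 32317953465, nat_lit 35588710022, nat_lit 36751213475], nat_lit 1271250, nat_lit 1271250, nat_lit 1271250, nat_lit 1271250, nat_lit 1100001, nat_lit 2607000, [nat_lit 780000, nat_lit 1435000, nat_lit 1271250], [nat_lit 8, nat_lit 40, nat_lit 40, nat_lit 80, nat_lit 1, nat_lit 428, nat_lit 200, nat_lit 11]⟩,
 zbF0, [⟨nat_lit 16, nat_lit 87, nat_lit 95, nat_lit 100, nat_lit 357004407⟩, ⟨nat_lit 7, nat_lit 100, nat_lit 100, nat_lit 100, nat_lit 289614844⟩]⟩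
noncomputable def p094_l126 : Lf2 := ⟨nat_lit 0, nat_lit 10, [nat_lit 0, nat_lit 5, nat_lit 5, nat_lit 20], false, nat_lit 160, nat_lit 288, nat_lit 160, nat_lit 336, ⟨nat_lit 1000, nat_lit 0, nat_lit 0, nat_lit 0, nat_lit 0, nat_lit 0, nat_lit 0, nat_lit 0, nat_lit 0, nat_lit 0, nat_lit 0, nat_lit 0, nat_lit 0, nat_lit 0, nat_lit 0, nat_lit 0, false, false⟩,
 nat_lit 11297, nat_lit 0, nat_lit 0, nat_lit 0, nat_lit 5070, nat_lit 7188, nat_lit 1516, nat_lit 0, nat_lit 0, nat_lit 726, nat_lit 0, nat_lit 0, nat_lit 0, nat_lit 0, nat_lit 0, nat_lit 0, nat_lit 0, nat_lit 0, [],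
 ⟨p094_k25, nat_lit 0, nat_lit 0, nat_lit 281, nat_lit 0, nat_lit 604832, [nat_lit 2032000001, nat_lit 4688000000, nat_lit 6250000000], [], [nat_lit 22693288511, nat_lit 23184037801, nat_lit 30814189360, nat_lit 31363214640, nat_lit 25528611066, nat_lit 25915820437, nat_lit 33204734454, nat_lit 33632051997], nat_lit 1271250, nat_lit 1271250, nat_lit 1271250, nat_lit 1271250, nat_lit 1100001, nat_lit 2196000, [nat_lit 490000, nat_lit 1100000, nat_lit 1442500], [nat_lit 6, nat_lit 40, nat_lit 40, nat_lit 80, nat_lit 3, nat_lit 289, nat_lit 75, nat_lit 9]⟩, ⟨p094_k37, nat_lit 0, nat_lit 0, nat_lit 435, nat_lit 0, nat_lit 778529, [nat_lit 3282000000, nat_lit 6250000000, nat_lit 9842000000], [], [nat_lit 27169923534, nat_lit 28644443390, nat_lit 32951090064, nat_lit 34016183648, nat_lit 30569970539, nat_lit 31662136119, nat_lit 35647227338, nat_lit 37032396196], nat_lit 1271250, nat_lit 1271250, nat_lit 1271250, nat_lit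 1271250, nat_lit 1100001, nat_lit 2607000, [nat_lit 780000, nat_lit 1435000, nat_lit 1271250], [nat_lit 8, nat_lit 40, nat_lit 40, nat_lit 80, nat_lit 1, nat_lit 428, nat_lit 200, nat_lit 11]⟩,
 zbF0, [⟨nat_lit 16, nat_lit 83, nat_lit 98, nat_lit 100, nat_lit 367861118⟩, ⟨nat_lit 19, nat_lit 100, nat_lit 100, nat_lit 100, nat_lit 314176490⟩]⟩
noncomputable def p094_l127 : Lf2 := ⟨nat_lit 0, nat_lit 10, [nat_lit 0, nat_lit 5, nat_lit 5, nat_lit 20], false, nat_lit 160, nat_lit 276, nat_lit 0, nat_lit 336, ⟨nat_lit 477, nat_lit 523, nat_lit 0, nat_lit 7, nat_lit 295, nat_lit 523, nat_lit 168, nat_lit 0, nat_lit 0, nat_lit 0, nat_lit 0, nat_lit 0, nat_lit 37295959, nat_lit 21155108, nat_lit 8548933, nat_lit 5119758, true, false⟩,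
 nat_lit 5753, nat_lit 0, nat_lit 0, nat_lit 0, nat_lit 4067, nat_lit 3661, nat_lit 268, nat_lit 0, nat_lit 0, nat_lit 303, nat_lit 0, nat_lit 0, nat_lit 0, nat_lit 0, nat_lit 0, nat_lit 523000, nat_lit 0, nat_lit 0, [(nat_lit 21, [(nat_lit 2, nat_lit 523)])],
 ⟨p094_k34, nat_lit 0, nat_lit 0, nat_lit 270, nat_lit 0, nat_lit 621117, [nat_lit 1702091601, nat_lit 2160654801, nat_lit 2388795600], [], [nat_lit 22519842868, nat_lit 22954137412, nat_lit 25059533889, nat_lit 25643177770, nat_lit 25034527049, nat_lit 25413944178, nat_lit 28025788152, nat_lit 28538569075], nat_lit 1271250, nat_lit 1271250, nat_lit 1271250, nat_lit 1271250, nat_lit 1100001, nat_lit 2093250, [nat_lit 490000, nat_lit 1100000, nat_lit 1442500], [nat_lit 6, nat_lit 40, nat_lit 40, nat_lit 80, nat_lit 3, nat_lit 289, nat_lit 75, nat_lit 9]⟩, ⟨p094_k37, nat_lit 0, nat_lit 0, nat_lit 571, nat_lit 0, nat_lit 837147, [nat_lit 1565514000, nat_lit 2981250000,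 nat_lit 4694634000], [], [nat_lit 15643452375, nat_lit 16306823299, nat_lit 16704560219, nat_lit 17225135283, nat_lit 14649122985, nat_lit 14967939748, nat_lit 15171603691, nat_lit 15571327803], nat_lit 1271250, nat_lit 1271250, nat_lit 1271250, nat_lit 1271250, nat_lit 0, nat_lit 2373000, [nat_lit 780000, nat_lit 1435000, nat_lit 1271250], [nat_lit 8, nat_lit 40, nat_lit 40, nat_lit 80, nat_lit 1, nat_lit 401, nat_lit 175, nat_lit 11]⟩,
 ⟨nat_lit 3535, nat_lit 3873, ⟨.ofNat (nat_lit 651675), .ofNat (nat_lit 780730), .ofNat (nat_lit 695250), .ofNat (nat_lit 824304), .ofNat (nat_lit 650552), .ofNat (nat_lit 776087), .ofNat (nat_lit 694446), .ofNat (nat_lit 819980)⟩, ⟨.ofNat (nat_lit 304717), .ofNat (nat_lit 491830), .ofNat (nat_lit 348304), .ofNat (nat_lit 535416), .ofNat (nat_lit 305521), .ofNat (nat_lit 487529), .ofNat (nat_lit 349427), .ofNat (nat_lit 531435)⟩⟩, [⟨nat_lit 16, nat_lit 77, nat_lit 100, nat_lit 99,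 nat_lit 274709924⟩, ⟨nat_lit 7, nat_lit 100, nat_lit 100, nat_lit 100, nat_lit 65848886⟩]⟩
noncomputable def p094_l128 : Lf2 := ⟨nat_lit 0, nat_lit 10, [nat_lit 0, nat_lit 5, nat_lit 5, nat_lit 20], false, nat_lit 160, nat_lit 264, nat_lit 0, nat_lit 336, ⟨nat_lit 449, nat_lit 551, nat_lit 0, nat_lit 7, nat_lit 294, nat_lit 551, nat_lit 163, nat_lit 0, nat_lit 0, nat_lit 0, nat_lit 0, nat_lit 0, nat_lit 37594929, nat_lit 21155523, nat_lit 8249548, nat_lit 5080346, true, false⟩,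
 nat_lit 5391, nat_lit 0, nat_lit 0, nat_lit 0, nat_lit 3941, nat_lit 3430, nat_lit 471, nat_lit 0, nat_lit 0, nat_lit 331, nat_lit 0, nat_lit 0, nat_lit 0, nat_lit 0, nat_lit 0, nat_lit 220400, nat_lit 0, nat_lit 0, [(nat_lit 21, [(nat_lit 1, nat_lit 551)])],
 ⟨p094_k35, nat_lit 0, nat_lit 0, nat_lit 249, nat_lit 0, nat_lit 636720, [nat_lit 1659083200, nat_lit 2922596000], [], [nat_lit 22602875477, nat_lit 23058206586, nat_lit 25536290710, nat_lit 26164056804, nat_lit 25014287393, nat_lit 25480228245, nat_lit 28017216395, nat_lit 28536805378], nat_lit 1271250, nat_lit 1271250, nat_lit 1271250, nat_lit 1271250, nat_lit 1100001, nat_lit 1990500, [nat_lit 490000, nat_lit 1100000], [nat_lit 24, nat_lit 40, nat_lit 40, nat_lit 80, nat_lit 33, nat_lit 203, nat_lit 0, nat_lit 7]⟩, ⟨p094_k37, nat_lit 0, nat_lit 0, nat_lit 593, nat_lit 0, nat_lit 897468, [nat_lit 1473618000, nat_lit 2806250000, nat_lit 4419058000], [], [nat_lit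 14481102823, nat_lit 15104512315, nat_lit 15478895555, nat_lit 15972423628, nat_lit 13769791551, nat_lit 14152750010, nat_lit 14345099456, nat_lit 14643057859], nat_lit 1271250, nat_lit 1271250, nat_lit 1271250, nat_lit 1271250, nat_lit 0, nat_lit 2373000, [nat_lit 780000, nat_lit 1435000, nat_lit 1271250], [nat_lit 8, nat_lit 40, nat_lit 40, nat_lit 80, nat_lit 1, nat_lit 401, nat_lit 175, nat_lit 11]⟩,
 ⟨nat_lit 3162, nat_lit 3536, ⟨.ofNat (nat_lit 650549), .ofNat (nat_lit 776092), .ofNat (nat_lit 694437), .ofNat (nat_lit 819981), .ofNat (nat_lit 649550), .ofNat (nat_lit 771477), .ofNat (nat_lit 693843), .ofNat (nat_lit 815770)⟩, ⟨.ofNat (nat_lit 305521), .ofNat (nat_lit 468701), .ofNat (nat_lit 349427), .ofNat (nat_lit 512606), .ofNat (nat_lit 306116), .ofNat (nat_lit 464594), .ofNat (nat_lit 350426), .ofNat (nat_lit 508904)⟩⟩, [⟨nat_lit 16, nat_lit 69, nat_lit 100, nat_lit 96, nat_lit 322325954⟩, ⟨nat_lit 7, nat_lit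 100, nat_lit 100, nat_lit 100, nat_lit 65204852⟩]⟩
noncomputable def p094_l129 : Lf2 := ⟨nat_lit 0, nat_lit 10, [nat_lit 0, nat_lit 5, nat_lit 5, nat_lit 20], false, nat_lit 160, nat_lit 276, nat_lit 16, nat_lit 336, ⟨nat_lit 1000, nat_lit 0, nat_lit 0, nat_lit 0, nat_lit 0, nat_lit 0, nat_lit 0, nat_lit 0, nat_lit 0, nat_lit 0, nat_lit 0, nat_lit 0, nat_lit 0, nat_lit 0, nat_lit 0, nat_lit 0, false, false⟩,
 nat_lit 11360, nat_lit 0, nat_lit 0, nat_lit 0, nat_lit 4404, nat_lit 7229, nat_lit 1057, nat_lit 0, nat_lit 0, nat_lit 775, nat_lit 0, nat_lit 0, nat_lit 0, nat_lit 0, nat_lit 0, nat_lit 0, nat_lit 0, nat_lit 0, [],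
 ⟨p094_k34, nat_lit 0, nat_lit 0, nat_lit 284, nat_lit 0, nat_lit 604135, [nat_lit 2032000001, nat_lit 4688000000, nat_lit 6250000000], [], [nat_lit 26517972342, nat_lit 27356637150, nat_lit 30188897228, nat_lit 31235675599, nat_lit 28669227984, nat_lit 29358228797, nat_lit 32270278917, nat_lit 33116959539], nat_lit 1271250, nat_lit 1271250, nat_lit 1271250, nat_lit 1271250, nat_lit 1100001, nat_lit 2093250, [nat_lit 490000, nat_lit 1100000, nat_lit 1442500], [nat_lit 6, nat_lit 40, nat_lit 40, nat_lit 80, nat_lit 3, nat_lit 289, nat_lit 75, nat_lit 9]⟩, ⟨p094_k37, nat_lit 0, nat_lit 0, nat_lit 530, nat_lit 0, nat_lit 814259, [nat_lit 3282000000, nat_lit 6250000000, nat_lit 9842000000], [], [nat_lit 34787414966, nat_lit 35438531518, nat_lit 38185557502, nat_lit 38676715222, nat_lit 33581583500, nat_lit 33907166966, nat_lit 35516256654, nat_lit 36120080216], nat_lit 1271250, nat_lit 1271250, nat_lit 1271250, nat_lit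 1271250, nat_lit 88400, nat_lit 2396400, [nat_lit 780000, nat_lit 1435000, nat_lit 1271250], [nat_lit 8, nat_lit 40, nat_lit 40, nat_lit 80, nat_lit 1, nat_lit 317, nat_lit 100, nat_lit 8]⟩,
 zbF0, [⟨nat_lit 4, nat_lit 100, nat_lit 67, nat_lit 88, nat_lit 500102703⟩, ⟨nat_lit 7, nat_lit 94, nat_lit 100, nat_lit 97, nat_lit 158096802⟩]⟩
noncomputable def p094_l130 : Lf2 := ⟨nat_lit 0, nat_lit 10, [nat_lit 0, nat_lit 5, nat_lit 5, nat_lit 20], false, nat_lit 160, nat_lit 276, nat_lit 16, nat_lit 320, ⟨nat_lit 1000, nat_lit 0, nat_lit 0, nat_lit 0, nat_lit 0, nat_lit 0, nat_lit 0, nat_lit 0, nat_lit 0, nat_lit 0, nat_lit 0, nat_lit 0, nat_lit 0, nat_lit 0, nat_lit 0, nat_lit 0, false, false⟩,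
 nat_lit 8314, nat_lit 0, nat_lit 0, nat_lit 0, nat_lit 4857, nat_lit 5755, nat_lit 555, nat_lit 0, nat_lit 0, nat_lit 973, nat_lit 0, nat_lit 0, nat_lit 0, nat_lit 0, nat_lit 0, nat_lit 0, nat_lit 0, nat_lit 0, [],
 ⟨p094_k34, nat_lit 0, nat_lit 0, nat_lit 313, nat_lit 0, nat_lit 665872, [nat_lit 2032000001, nat_lit 4688000000, nat_lit 6250000000], [], [nat_lit 27222977083, nat_lit 28014179747, nat_lit 31073630064, nat_lit 32150634520, nat_lit 29049886927, nat_lit 29765711396, nat_lit 33038207351, nat_lit 33903559785], nat_lit 1271250, nat_lit 1271250, nat_lit 1271250, nat_lit 1271250, nat_lit 1100001, nat_lit 2093250, [nat_lit 490000, nat_lit 1100000, nat_lit 1442500], [nat_lit 6, nat_lit 40, nat_lit 40, nat_lit 80, nat_lit 3, nat_lit 289, nat_lit 75, nat_lit 9]⟩, ⟨p094_k24, nat_lit 0, nat_lit 0, nat_lit 489, nat_lit 0, nat_lit 807288, [nat_lit 3282000000, nat_lit 6250000000, nat_lit 7968000000], [], [nat_lit 32518869249,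 nat_lit 33070703034, nat_lit 35311489365, nat_lit 36359733940, nat_lit 32222264935, nat_lit 32540761065, nat_lit 33970989445, nat_lit 34553411560], nat_lit 1271250, nat_lit 1271250, nat_lit 1271250, nat_lit 1271250, nat_lit 88400, nat_lit 2281000, [nat_lit 780000, nat_lit 1435000, nat_lit 1271250], [nat_lit 18, nat_lit 40, nat_lit 40, nat_lit 80, nat_lit 2, nat_lit 317, nat_lit 100, nat_lit 9]⟩,
 zbF0, [⟨nat_lit 16, nat_lit 67, nat_lit 100, nat_lit 88, nat_lit 490716839⟩, ⟨nat_lit 7, nat_lit 100, nat_lit 93, nat_lit 97, nat_lit 177008199⟩]⟩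
noncomputable def b_V_800_700_20_23 : St := ⟨true, nat_lit 1, nat_lit 1, nat_lit 1, nat_lit 120, nat_lit 320, nat_lit 360, nat_lit 280, nat_lit 320, nat_lit 240, nat_lit 400, nat_lit 80, nat_lit 120, nat_lit 0, nat_lit 300, nat_lit 0, nat_lit 336, nat_lit 0, nat_lit 40, nat_lit 0, nat_lit 0, nat_lit 0, nat_lit 0⟩
theorem d_V_800_700_20_23 (h : EB TB.env) : Dead b_V_800_700_20_23 := chkB_sound0 h (T :=
(.spl (nat_lit 4) (nat_lit 160)
(.spl (nat_lit 0) (nat_lit 340)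
(.leaf p094_l121)
(.spl (nat_lit 0) (nat_lit 350)
(.leaf p094_l122)
(.trX (nat_lit 13) (nat_lit 83) (nat_lit 25) (nat_lit 100) (nat_lit 396) (.trZ (nat_lit 3) (nat_lit 100) (nat_lit 83) (nat_lit 25) (nat_lit 4) (.leaf p094_l123)))))
(.spl (nat_lit 0) (nat_lit 340)
(.spl (nat_lit 5) (nat_lit 160)
(.leaf p094_l124)
(.spl (nat_lit 0) (nat_lit 330)
(.leaf p094_l125)
(.trX (nat_lit 16) (nat_lit 83) (nat_lit 98) (nat_lit 100) (nat_lit 288) (.leaf p094_l126))))
(.trX (nat_lit 16) (nat_lit 77) (nat_lit 100) (nat_lit 99) (nat_lit 276) (.spl (nat_lit 2) (nat_lit 320)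
(.spl (nat_lit 0) (nat_lit 350)
(.leaf p094_l127)
(.trX (nat_lit 16) (nat_lit 69) (nat_lit 100) (nat_lit 96) (nat_lit 264) (.leaf p094_l128)))
(.trZ (nat_lit 9) (nat_lit 100) (nat_lit 82) (nat_lit 44) (nat_lit 16) (.spl (nat_lit 1) (nat_lit 300)
(.trX (nat_lit 13) (nat_lit 82) (nat_lit 29) (nat_lit 100) (nat_lit 396) (.leaf p094_l129))
(.trX (nat_lit 19) (nat_lit 94) (nat_lit 88) (nat_lit 100) (nat_lit 320) (.leaf p094_l130))))))))) (by decide +kernel)

end B2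
end Pool.Agent.Lib.MP_6947cd_al
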