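import Pool.Agent.Lib.MP_6947cd_al.ZB.Pre

/-!
Problem MP_6947cd_al (Chollet).  Case B, second entry in [2/5, 17/20]: certificates of the tree, part P095 (generated).
-/

set_option autoImplicit false
set_option linter.all false

namespace Pool.Agent.Lib.MP_6947cd_al
namespace B2

open Ent Fr B1 PkA

noncomputable def p095_k0 : C1.Kn := ⟨[nat_lit 40, nat_lit 80, nat_lit 100], [nat_lit 0, nat_lit 0, nat_lit 1280], [(nat_lit 0, nat_lit 0, nat_lit 0), (nat_lit 0, nat_lit 0, nat_lit 0), (nat_lit 1000, nat_lit 800, nat_lit 600)], (nat_lit 80, nat_lit 100, nat_lit 60)⟩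
noncomputable def p095_k1 : C1.Kn := ⟨[nat_lit 60, nat_lit 100, nat_lit 140], [nat_lit 0, nat_lit 0, nat_lit 2047], [(nat_lit 0, nat_lit 0, nat_lit 0), (nat_lit 0, nat_lit 0, nat_lit 0), (nat_lit 1000, nat_lit 993, nat_lit 781)], (nat_lit 94, nat_lit 100, nat_lit 62)⟩
noncomputable def p095_k2 : C1.Kn := ⟨[nat_lit 40, nat_lit 80, nat_lit 100], [nat_lit 0, nat_lit 795, nat_lit 1829], [(nat_lit 0, nat_lit 0, nat_lit 0), (nat_lit 1000, nat_lit 814, nat_lit 310), (nat_lit 1000, nat_lit 714, nat_lit 692)], (nat_lit 72, nat_lit 100, nat_lit 61)⟩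
noncomputable def p095_k3 : C1.Kn := ⟨[nat_lit 60, nat_lit 100, nat_lit 120], [nat_lit 0, nat_lit 609, nat_lit 1609], [(nat_lit 0, nat_lit 0, nat_lit 0), (nat_lit 1000, nat_lit 905, nat_lit 238), (nat_lit 1000, nat_lit 882, nat_lit 668)], (nat_lit 87, nat_lit 100, nat_lit 60)⟩
noncomputable def p095_k4 : C1.Kn := ⟨[nat_lit 40, nat_lit 80, nat_lit 100], [nat_lit 0, nat_lit 192, nat_lit 1404], [(nat_lit 0, nat_lit 0, nat_lit 0), (nat_lit 1000, nat_lit 955, nat_lit 75), (nat_lit 1000, nat_lit 781, nat_lit 625)], (nat_lit 78, nat_lit 100, nat_lit 60)⟩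
noncomputable def p095_k5 : C1.Kn := ⟨[nat_lit 40, nat_lit 80, nat_lit 100], [nat_lit 0, nat_lit 395, nat_lit 1536], [(nat_lit 0, nat_lit 0, nat_lit 0), (nat_lit 1000, nat_lit 908, nat_lit 154), (nat_lit 1000, nat_lit 760, nat_lit 642)], (nat_lit 76, nat_lit 100, nat_lit 60)⟩
noncomputable def p095_k6 : C1.Kn := ⟨[nat_lit 40, nat_lit 60, nat_lit 100], [nat_lit 0, nat_lit 0, nat_lit 1216], [(nat_lit 0, nat_lit 0, nat_lit 0), (nat_lit 0, nat_lit 0, nat_lit 0), (nat_lit 1000, nat_lit 810, nat_lit 474)], (nat_lit 80, nat_lit 100, nat_lit 60)⟩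
noncomputable def p095_k7 : C1.Kn := ⟨[nat_lit 60, nat_lit 80, nat_lit 140], [nat_lit 0, nat_lit 0, nat_lit 1595], [(nat_lit 0, nat_lit 0, nat_lit 0), (nat_lit 0, nat_lit 0, nat_lit 0), (nat_lit 1000, nat_lit 917, nat_lit 415)], (nat_lit 94, nat_lit 100, nat_lit 62)⟩
noncomputable def p095_k8 : C1.Kn := ⟨[nat_lit 40, nat_lit 60, nat_lit 100], [nat_lit 0, nat_lit 56, nat_lit 1274], [(nat_lit 0, nat_lit 0, nat_lit 0), (nat_lit 1000, nat_lit 974, nat_lit 44), (nat_lit 1000, nat_lit 801, nat_lit 475)], (nat_lit 79, nat_lit 100, nat_lit 60)⟩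
noncomputable def p095_k9 : C1.Kn := ⟨[nat_lit 40, nat_lit 60], [nat_lit 0, nat_lit 0], [(nat_lit 0, nat_lit 0, nat_lit 0), (nat_lit 0, nat_lit 0, nat_lit 0)], (nat_lit 89, nat_lit 100, nat_lit 22)⟩
noncomputable def p095_k10 : C1.Kn := ⟨[nat_lit 60, nat_lit 80], [nat_lit 0, nat_lit 304], [(nat_lit 0, nat_lit 0, nat_lit 0), (nat_lit 1000, nat_lit 905, nat_lit 238)], (nat_lit 91, nat_lit 100, nat_lit 21)⟩
noncomputable def p095_k11 : C1.Kn := ⟨[nat_lit 40, nat_lit 80], [nat_lit 0, nat_lit 0], [(nat_lit 0, nat_lit 0, nat_lit 0), (nat_lit 0, nat_lit 0, nat_lit 0)], (nat_lit 85, nat_lit 100, nat_lit 30)⟩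
noncomputable def p095_k12 : C1.Kn := ⟨[nat_lit 60, nat_lit 80], [nat_lit 0, nat_lit 304], [(nat_lit 0, nat_lit 0, nat_lit 0), (nat_lit 1000, nat_lit 905, nat_lit 238)], (nat_lit 89, nat_lit 100, nat_lit 29)⟩
noncomputable def p095_k13 : C1.Kn := ⟨[nat_lit 40, nat_lit 60, nat_lit 80], [nat_lit 0, nat_lit 0, nat_lit 615], [(nat_lit 0, nat_lit 0, nat_lit 0), (nat_lit 0, nat_lit 0, nat_lit 0), (nat_lit 1000, nat_lit 819, nat_lit 426)], (nat_lit 85, nat_lit 100, nat_lit 30)⟩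
noncomputable def p095_k14 : C1.Kn := ⟨[nat_lit 60, nat_lit 80], [nat_lit 0, nat_lit 456], [(nat_lit 0, nat_lit 0, nat_lit 0), (nat_lit 1000, nat_lit 859, nat_lit 351)], (nat_lit 87, nat_lit 100, nat_lit 29)⟩
noncomputable def p095_k15 : C1.Kn := ⟨[nat_lit 40, nat_lit 60, nat_lit 100], [nat_lit 0, nat_lit 0, nat_lit 1216], [(nat_lit 0, nat_lit 0, nat_lit 0), (nat_lit 0, nat_lit 0, nat_lit 0), (nat_lit 1000, nat_lit 810, nat_lit 474)], (nat_lit 82, nat_lit 100, nat_lit 44)⟩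
noncomputable def p095_k16 : C1.Kn := ⟨[nat_lit 60, nat_lit 80, nat_lit 100], [nat_lit 0, nat_lit 304, nat_lit 825], [(nat_lit 0, nat_lit 0, nat_lit 0), (nat_lit 1000, nat_lit 905, nat_lit 238), (nat_lit 1000, nat_lit 871, nat_lit 407)], (nat_lit 87, nat_lit 100, nat_lit 44)⟩
noncomputable def p095_k17 : C1.Kn := ⟨[nat_lit 60, nat_lit 80, nat_lit 120], [nat_lit 0, nat_lit 304, nat_lit 1346], [(nat_lit 0, nat_lit 0, nat_lit 0), (nat_lit 1000, nat_lit 905, nat_lit 238), (nat_lit 1000, nat_lit 871, nat_lit 407)], (nat_lit 87, nat_lit 100, nat_lit 60)⟩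
noncomputable def p095_k18 : C1.Kn := ⟨[nat_lit 40, nat_lit 60, nat_lit 100], [nat_lit 0, nat_lit 197, nat_lit 1403], [(nat_lit 0, nat_lit 0, nat_lit 0), (nat_lit 1000, nat_lit 908, nat_lit 154), (nat_lit 1000, nat_lit 781, nat_lit 471)], (nat_lit 76, nat_lit 100, nat_lit 60)⟩
noncomputable def p095_k19 : C1.Kn := ⟨[nat_lit 60, nat_lit 100, nat_lit 120], [nat_lit 0, nat_lit 302, nat_lit 1376], [(nat_lit 0, nat_lit 0, nat_lit 0), (nat_lit 1000, nat_lit 953, nat_lit 118), (nat_lit 1000, nat_lit 911, nat_lit 628)], (nat_lit 91, nat_lit 100, nat_lit 61)⟩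
noncomputable def p095_k20 : C1.Kn := ⟨[nat_lit 40, nat_lit 80], [nat_lit 0, nat_lit 1195], [(nat_lit 0, nat_lit 0, nat_lit 0), (nat_lit 1000, nat_lit 720, nat_lit 465)], (nat_lit 68, nat_lit 100, nat_lit 61)⟩
noncomputable def p095_k21 : C1.Kn := ⟨[nat_lit 40, nat_lit 80, nat_lit 140], [nat_lit 0, nat_lit 0, nat_lit 3199], [(nat_lit 0, nat_lit 0, nat_lit 0), (nat_lit 0, nat_lit 0, nat_lit 0), (nat_lit 1000, nat_lit 833, nat_lit 833)], (nat_lit 83, nat_lit 100, nat_lit 83)⟩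
noncomputable def p095_k22 : C1.Kn := ⟨[nat_lit 60, nat_lit 100, nat_lit 160], [nat_lit 0, nat_lit 0, nat_lit 3069], [(nat_lit 0, nat_lit 0, nat_lit 0), (nat_lit 0, nat_lit 0, nat_lit 0), (nat_lit 1000, nat_lit 999, nat_lit 798)], (nat_lit 100, nat_lit 95, nat_lit 87)⟩
noncomputable def p095_k23 : C1.Kn := ⟨[nat_lit 60, nat_lit 100, nat_lit 140], [nat_lit 0, nat_lit 609, nat_lit 2558], [(nat_lit 0, nat_lit 0, nat_lit 0), (nat_lit 1000, nat_lit 905, nat_lit 238), (nat_lit 1000, nat_lit 904, nat_lit 760)], (nat_lit 94, nat_lit 100, nat_lit 87)⟩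
noncomputable def p095_k24 : C1.Kn := ⟨[nat_lit 40, nat_lit 80, nat_lit 120], [nat_lit 0, nat_lit 795, nat_lit 2800], [(nat_lit 0, nat_lit 0, nat_lit 0), (nat_lit 1000, nat_lit 814, nat_lit 310), (nat_lit 1000, nat_lit 719, nat_lit 783)], (nat_lit 72, nat_lit 100, nat_lit 81)⟩
noncomputable def p095_k25 : C1.Kn := ⟨[nat_lit 60, nat_lit 100, nat_lit 160], [nat_lit 0, nat_lit 302, nat_lit 3303], [(nat_lit 0, nat_lit 0, nat_lit 0), (nat_lit 1000, nat_lit 953, nat_lit 118), (nat_lit 1000, nat_lit 952, nat_lit 781)], (nat_lit 100, nat_lit 100, nat_lit 89)⟩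
noncomputable def p095_k26 : C1.Kn := ⟨[nat_lit 40, nat_lit 80, nat_lit 140], [nat_lit 0, nat_lit 395, nat_lit 3500], [(nat_lit 0, nat_lit 0, nat_lit 0), (nat_lit 1000, nat_lit 908, nat_lit 154), (nat_lit 1000, nat_lit 776, nat_lit 808)], (nat_lit 78, nat_lit 100, nat_lit 82)⟩
noncomputable def p095_k27 : C1.Kn := ⟨[nat_lit 40, nat_lit 80, nat_lit 140], [nat_lit 0, nat_lit 0, nat_lit 3199], [(nat_lit 0, nat_lit 0, nat_lit 0), (nat_lit 0, nat_lit 0, nat_lit 0), (nat_lit 1000, nat_lit 833, nat_lit 833)], (nat_lit 82, nat_lit 100, nat_lit 79)⟩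
noncomputable def p095_k28 : C1.Kn := ⟨[nat_lit 60, nat_lit 100, nat_lit 160], [nat_lit 0, nat_lit 0, nat_lit 3069], [(nat_lit 0, nat_lit 0, nat_lit 0), (nat_lit 0, nat_lit 0, nat_lit 0), (nat_lit 1000, nat_lit 999, nat_lit 798)], (nat_lit 100, nat_lit 98, nat_lit 84)⟩
noncomputable def p095_k29 : C1.Kn := ⟨[nat_lit 60, nat_lit 100, nat_lit 140], [nat_lit 0, nat_lit 302, nat_lit 2304], [(nat_lit 0, nat_lit 0, nat_lit 0), (nat_lit 1000, nat_lit 953, nat_lit 118), (nat_lit 1000, nat_lit 952, nat_lit 781)], (nat_lit 97, nat_lit 100, nat_lit 84)⟩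
noncomputable def p095_k30 : C1.Kn := ⟨[nat_lit 40, nat_lit 100, nat_lit 140], [nat_lit 0, nat_lit 592, nat_lit 3606], [(nat_lit 0, nat_lit 0, nat_lit 0), (nat_lit 1000, nat_lit 908, nat_lit 154), (nat_lit 1000, nat_lit 825, nat_lit 971)], (nat_lit 78, nat_lit 100, nat_lit 82)⟩
noncomputable def p095_k31 : C1.Kn := ⟨[nat_lit 60, nat_lit 120, nat_lit 160], [nat_lit 0, nat_lit 453, nat_lit 3555], [(nat_lit 0, nat_lit 0, nat_lit 0), (nat_lit 1000, nat_lit 953, nat_lit 118), (nat_lit 904, nat_lit 1000, nat_lit 997)], (nat_lit 100, nat_lit 100, nat_lit 89)⟩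
noncomputable def p095_k32 : C1.Kn := ⟨[nat_lit 60, nat_lit 100, nat_lit 140], [nat_lit 0, nat_lit 909, nat_lit 2819], [(nat_lit 0, nat_lit 0, nat_lit 0), (nat_lit 1000, nat_lit 858, nat_lit 354), (nat_lit 1000, nat_lit 858, nat_lit 746)], (nat_lit 89, nat_lit 100, nat_lit 85)⟩
noncomputable def p095_k33 : C1.Kn := ⟨[nat_lit 40, nat_lit 80, nat_lit 120], [nat_lit 0, nat_lit 1195, nat_lit 3135], [(nat_lit 0, nat_lit 0, nat_lit 0), (nat_lit 1000, nat_lit 720, nat_lit 465), (nat_lit 1000, nat_lit 661, nat_lit 757)], (nat_lit 66, nat_lit 100, nat_lit 80)⟩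
noncomputable def p095_k34 : C1.Kn := ⟨[nat_lit 60, nat_lit 100, nat_lit 160], [nat_lit 0, nat_lit 151, nat_lit 3185], [(nat_lit 0, nat_lit 0, nat_lit 0), (nat_lit 1000, nat_lit 977, nat_lit 59), (nat_lit 1000, nat_lit 976, nat_lit 789)], (nat_lit 100, nat_lit 98, nat_lit 88)⟩
noncomputable def p095_k35 : C1.Kn := ⟨[nat_lit 40, nat_lit 80, nat_lit 120], [nat_lit 0, nat_lit 795, nat_lit 2800], [(nat_lit 0, nat_lit 0, nat_lit 0), (nat_lit 1000, nat_lit 814, nat_lit 310), (nat_lit 1000, nat_lit 719, nat_lit 783)], (nat_lit 71, nat_lit 100, nat_lit 71)⟩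
noncomputable def p095_k36 : C1.Kn := ⟨[nat_lit 60, nat_lit 100, nat_lit 140], [nat_lit 0, nat_lit 0, nat_lit 2047], [(nat_lit 0, nat_lit 0, nat_lit 0), (nat_lit 0, nat_lit 0, nat_lit 0), (nat_lit 1000, nat_lit 993, nat_lit 781)], (nat_lit 99, nat_lit 100, nat_lit 77)⟩
noncomputable def p095_k37 : C1.Kn := ⟨[nat_lit 40, nat_lit 60, nat_lit 100], [nat_lit 0, nat_lit 600, nat_lit 1790], [(nat_lit 0, nat_lit 0, nat_lit 0), (nat_lit 1000, nat_lit 725, nat_lit 454), (nat_lit 1000, nat_lit 720, nat_lit 465)], (nat_lit 66, nat_lit 100, nat_lit 72)⟩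
noncomputable def p095_k38 : C1.Kn := ⟨[nat_lit 60, nat_lit 80, nat_lit 140], [nat_lit 0, nat_lit 0, nat_lit 1595], [(nat_lit 0, nat_lit 0, nat_lit 0), (nat_lit 0, nat_lit 0, nat_lit 0), (nat_lit 1000, nat_lit 917, nat_lit 415)], (nat_lit 99, nat_lit 100, nat_lit 77)⟩
noncomputable def p095_k39 : C1.Kn := ⟨[nat_lit 40, nat_lit 100, nat_lit 140], [nat_lit 0, nat_lit 0, nat_lit 3243], [(nat_lit 0, nat_lit 0, nat_lit 0), (nat_lit 0, nat_lit 0, nat_lit 0), (nat_lit 1000, nat_lit 870, nat_lit 941)], (nat_lit 83, nat_lit 100, nat_lit 83)⟩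
noncomputable def p095_k40 : C1.Kn := ⟨[nat_lit 60, nat_lit 120, nat_lit 140], [nat_lit 0, nat_lit 913, nat_lit 2600], [(nat_lit 0, nat_lit 0, nat_lit 0), (nat_lit 1000, nat_lit 905, nat_lit 238), (nat_lit 1000, nat_lit 943, nat_lit 874)], (nat_lit 94, nat_lit 100, nat_lit 87)⟩
noncomputable def p095_k41 : C1.Kn := ⟨[nat_lit 60, nat_lit 120, nat_lit 140], [nat_lit 0, nat_lit 1362, nat_lit 2909], [(nat_lit 0, nat_lit 0, nat_lit 0), (nat_lit 1000, nat_lit 858, nat_lit 354), (nat_lit 1000, nat_lit 909, nat_lit 910)], (nat_lit 89, nat_lit 100, nat_lit 85)⟩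
noncomputable def p095_k42 : C1.Kn := ⟨[nat_lit 60, nat_lit 120, nat_lit 140], [nat_lit 0, nat_lit 1593, nat_lit 3072], [(nat_lit 0, nat_lit 0, nat_lit 0), (nat_lit 1000, nat_lit 834, nat_lit 414), (nat_lit 1000, nat_lit 887, nat_lit 917)], (nat_lit 86, nat_lit 100, nat_lit 84)⟩
noncomputable def p095_k43 : C1.Kn := ⟨[nat_lit 40, nat_lit 100, nat_lit 120], [nat_lit 0, nat_lit 1192, nat_lit 2817], [(nat_lit 0, nat_lit 0, nat_lit 0), (nat_lit 1000, nat_lit 814, nat_lit 310), (nat_lit 1000, nat_lit 727, nat_lit 834)], (nat_lit 72, nat_lit 100, nat_lit 81)⟩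
noncomputable def p095_k44 : C1.Kn := ⟨[nat_lit 40, nat_lit 120], [nat_lit 0, nat_lit 1589], [(nat_lit 0, nat_lit 0, nat_lit 0), (nat_lit 1000, nat_lit 814, nat_lit 310)], (nat_lit 72, nat_lit 100, nat_lit 81)⟩
noncomputable def p095_k45 : C1.Kn := ⟨[nat_lit 60, nat_lit 160], [nat_lit 0, nat_lit 0], [(nat_lit 0, nat_lit 0, nat_lit 0), (nat_lit 0, nat_lit 0, nat_lit 0)], (nat_lit 100, nat_lit 95, nat_lit 87)⟩
noncomputable def p095_l0 : Lf2 := ⟨nat_lit 0, nat_lit 10, [nat_lit 0, nat_lit 5, nat_lit 5, nat_lit 20], false, nat_lit 0, nat_lit 160, nat_lit 0, nat_lit 160, ⟨nat_lit 1000, nat_lit 0, nat_lit 0, nat_lit 0, nat_lit 0, nat_lit 0, nat_lit 0, nat_lit 0, nat_lit 0, nat_lit 0, nat_lit 0, nat_lit 0, nat_lit 0, nat_lit 0, nat_lit 0, nat_lit 0, false, false⟩,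
 nat_lit 0, nat_lit 10135, nat_lit 0, nat_lit 0, nat_lit 7601, nat_lit 7309, nat_lit 523, nat_lit 0, nat_lit 0, nat_lit 1385, nat_lit 0, nat_lit 0, nat_lit 0, nat_lit 0, nat_lit 0, nat_lit 0, nat_lit 0, nat_lit 0, [],
 ⟨p095_k0, nat_lit 0, nat_lit 0, nat_lit 602, nat_lit 0, nat_lit 1121998, [nat_lit 2032000001, nat_lit 4688000000, nat_lit 6250000000], [], [nat_lit 26410020842, nat_lit 27541950371, nat_lit 27490099992, nat_lit 29463133794, nat_lit 23451387272, nat_lit 24382645657, nat_lit 24051054040, nat_lit 24778650752], nat_lit 1271250, nat_lit 1271250, nat_lit 631250, nat_lit 1751250, nat_lit 0, nat_lit 1100001, [nat_lit 490000, nat_lit 1100000, nat_lit 1442500], [nat_lit 6, nat_lit 40, nat_lit 40, nat_lit 80, nat_lit 3, nat_lit 317, nat_lit 100, nat_lit 12]⟩, ⟨p095_k1, nat_lit 0, nat_lit 0, nat_lit 191, nat_lit 0, nat_lit 0, [nat_lit 3282000000, nat_lit 6250000000, nat_lit 9842000000], [], [nat_lit 19914072515,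 nat_lit 23859850095, nat_lit 23515484228, nat_lit 27231939936, nat_lit 15101943484, nat_lit 19169803442, nat_lit 19071787120, nat_lit 22171167604], nat_lit 0, nat_lit 0, nat_lit 0, nat_lit 0, nat_lit 0, nat_lit 0, [], [nat_lit 8, nat_lit 40, nat_lit 40, nat_lit 80, nat_lit 1, nat_lit 317, nat_lit 100, nat_lit 9]⟩,
 zbF0, [⟨nat_lit 0, nat_lit 81, nat_lit 72, nat_lit 100, nat_lit 597444486⟩]⟩
noncomputable def p095_l1 : Lf2 := ⟨nat_lit 0, nat_lit 10, [nat_lit 0, nat_lit 5, nat_lit 5, nat_lit 20], false, nat_lit 0, nat_lit 160, nat_lit 0, nat_lit 160, ⟨nat_lit 1000, nat_lit 0, nat_lit 0, nat_lit 0, nat_lit 0, nat_lit 0, nat_lit 0, nat_lit 0, nat_lit 0, nat_lit 0, nat_lit 0, nat_lit 0, nat_lit 0, nat_lit 0, nat_lit 0, nat_lit 0, false, false⟩,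
 nat_lit 0, nat_lit 6666, nat_lit 0, nat_lit 0, nat_lit 5395, nat_lit 6969, nat_lit 1106, nat_lit 0, nat_lit 0, nat_lit 1163, nat_lit 0, nat_lit 0, nat_lit 0, nat_lit 0, nat_lit 0, nat_lit 0, nat_lit 0, nat_lit 0, [],
 ⟨p095_k2, nat_lit 0, nat_lit 0, nat_lit 613, nat_lit 0, nat_lit 1164010, [nat_lit 2032000001, nat_lit 4688000000, nat_lit 6250000000], [], [nat_lit 22166576955, nat_lit 24849048925, nat_lit 25661326630, nat_lit 27803423660, nat_lit 20934871939, nat_lit 21815276460, nat_lit 22462447228, nat_lit 23222470019], nat_lit 1271250, nat_lit 1271250, nat_lit 810650, nat_lit 1764750, nat_lit 0, nat_lit 1100001, [nat_lit 490000, nat_lit 1100000, nat_lit 1442500], [nat_lit 6, nat_lit 40, nat_lit 40, nat_lit 80, nat_lit 3, nat_lit 317, nat_lit 100, nat_lit 12]⟩, ⟨p095_k1, nat_lit 0, nat_lit 0, nat_lit 181, nat_lit 0, nat_lit 0, [nat_lit 3282000000, nat_lit 6250000000, nat_lit 9842000000], [], [nat_lit 21027538906,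 nat_lit 24734345431, nat_lit 24235624715, nat_lit 27172676576, nat_lit 16654148622, nat_lit 19762922562, nat_lit 19472415920, nat_lit 22485750564], nat_lit 0, nat_lit 0, nat_lit 0, nat_lit 0, nat_lit 0, nat_lit 0, [], [nat_lit 8, nat_lit 40, nat_lit 40, nat_lit 80, nat_lit 1, nat_lit 317, nat_lit 100, nat_lit 9]⟩,
 zbF0, [⟨nat_lit 0, nat_lit 80, nat_lit 60, nat_lit 100, nat_lit 623059064⟩]⟩
noncomputable def p095_l2 : Lf2 := ⟨nat_lit 0, nat_lit 10, [nat_lit 0, nat_lit 5, nat_lit 5, nat_lit 20], false, nat_lit 160, nat_lit 300, nat_lit 0, nat_lit 160, ⟨nat_lit 1000, nat_lit 0, nat_lit 0, nat_lit 0, nat_lit 0, nat_lit 0, nat_lit 0, nat_lit 0, nat_lit 0, nat_lit 0, nat_lit 0, nat_lit 0, nat_lit 0, nat_lit 0, nat_lit 0, nat_lit 0, false, false⟩,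
 nat_lit 0, nat_lit 9642, nat_lit 0, nat_lit 0, nat_lit 7231, nat_lit 7708, nat_lit 1896, nat_lit 0, nat_lit 0, nat_lit 1486, nat_lit 0, nat_lit 0, nat_lit 0, nat_lit 0, nat_lit 0, nat_lit 0, nat_lit 0, nat_lit 0, [],
 ⟨p095_k0, nat_lit 0, nat_lit 0, nat_lit 522, nat_lit 0, nat_lit 1141603, [nat_lit 2032000001, nat_lit 4688000000, nat_lit 6250000000], [], [nat_lit 25264360632, nat_lit 27081452502, nat_lit 25958019240, nat_lit 27383973784, nat_lit 27795811733, nat_lit 29152933768, nat_lit 27637636875, nat_lit 29453591088], nat_lit 1271250, nat_lit 1271250, nat_lit 631250, nat_lit 1751250, nat_lit 1100001, nat_lit 2298750, [nat_lit 490000, nat_lit 1100000, nat_lit 1442500], [nat_lit 6, nat_lit 40, nat_lit 40, nat_lit 80, nat_lit 3, nat_lit 373, nat_lit 150, nat_lit 14]⟩, ⟨p095_k1, nat_lit 0, nat_lit 0, nat_lit 178, nat_lit 0, nat_lit 0, [nat_lit 3282000000, nat_lit 6250000000, nat_lit 9842000000], [], [nat_lit 19367622430,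 nat_lit 21409262910, nat_lit 23457346736, nat_lit 25379416984, nat_lit 14614395808, nat_lit 16720796556, nat_lit 18601637440, nat_lit 20201816344], nat_lit 0, nat_lit 0, nat_lit 0, nat_lit 0, nat_lit 0, nat_lit 0, [], [nat_lit 8, nat_lit 40, nat_lit 40, nat_lit 80, nat_lit 1, nat_lit 317, nat_lit 100, nat_lit 9]⟩,
 zbF0, [⟨nat_lit 0, nat_lit 87, nat_lit 60, nat_lit 100, nat_lit 633015810⟩, ⟨nat_lit 4, nat_lit 100, nat_lit 74, nat_lit 90, nat_lit 440849173⟩]⟩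
noncomputable def p095_l3 : Lf2 := ⟨nat_lit 0, nat_lit 10, [nat_lit 0, nat_lit 5, nat_lit 5, nat_lit 20], false, nat_lit 160, nat_lit 300, nat_lit 0, nat_lit 160, ⟨nat_lit 1000, nat_lit 0, nat_lit 0, nat_lit 0, nat_lit 0, nat_lit 0, nat_lit 0, nat_lit 0, nat_lit 0, nat_lit 0, nat_lit 0, nat_lit 0, nat_lit 0, nat_lit 0, nat_lit 0, nat_lit 0, false, false⟩,
 nat_lit 0, nat_lit 8343, nat_lit 0, nat_lit 0, nat_lit 6257, nat_lit 5969, nat_lit 449, nat_lit 0, nat_lit 0, nat_lit 2550, nat_lit 0, nat_lit 0, nat_lit 0, nat_lit 0, nat_lit 0, nat_lit 0, nat_lit 0, nat_lit 0, [],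
 ⟨p095_k0, nat_lit 0, nat_lit 0, nat_lit 573, nat_lit 0, nat_lit 1293409, [nat_lit 2032000001, nat_lit 4688000000, nat_lit 6250000000], [], [nat_lit 30478282670, nat_lit 31768147142, nat_lit 31164878290, nat_lit 32326973582, nat_lit 32412902939, nat_lit 33656835292, nat_lit 32775365125, nat_lit 33793830037], nat_lit 1271250, nat_lit 1271250, nat_lit 780000, nat_lit 1762500, nat_lit 1100001, nat_lit 2298750, [nat_lit 490000, nat_lit 1100000, nat_lit 1442500], [nat_lit 6, nat_lit 40, nat_lit 40, nat_lit 80, nat_lit 3, nat_lit 373, nat_lit 150, nat_lit 13]⟩, ⟨p095_k3, nat_lit 0, nat_lit 0, nat_lit 145, nat_lit 0, nat_lit 0, [nat_lit 3282000000, nat_lit 6250000000, nat_lit 7968000000], [], [nat_lit 17542996858, nat_lit 20221285540, nat_lit 22268204058, nat_lit 24366729120, nat_lit 14172854956, nat_lit 15718239984, nat_lit 17900960252, nat_lit 19678882020], nat_lit 0, nat_lit 0, nat_lit 0, nat_lit 0, nat_lit 0, nat_lit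 0, [], [nat_lit 18, nat_lit 40, nat_lit 40, nat_lit 80, nat_lit 2, nat_lit 317, nat_lit 100, nat_lit 10]⟩,
 zbF0, [⟨nat_lit 0, nat_lit 80, nat_lit 60, nat_lit 100, nat_lit 578082092⟩, ⟨nat_lit 4, nat_lit 100, nat_lit 74, nat_lit 90, nat_lit 431142934⟩]⟩
noncomputable def p095_l4 : Lf2 := ⟨nat_lit 0, nat_lit 10, [nat_lit 0, nat_lit 5, nat_lit 5, nat_lit 20], false, nat_lit 0, nat_lit 160, nat_lit 160, nat_lit 320, ⟨nat_lit 905, nat_lit 95, nat_lit 0, nat_lit 7, nat_lit 196, nat_lit 95, nat_lit 63, nat_lit 0, nat_lit 0, nat_lit 0, nat_lit 0, nat_lit 0, nat_lit 0, nat_lit 0, nat_lit 0, nat_lit 5000000, false, false⟩,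
 nat_lit 0, nat_lit 10443, nat_lit 0, nat_lit 0, nat_lit 7831, nat_lit 4585, nat_lit 379, nat_lit 0, nat_lit 0, nat_lit 0, nat_lit 0, nat_lit 0, nat_lit 0, nat_lit 0, nat_lit 0, nat_lit 95000, nat_lit 0, nat_lit 0, [(nat_lit 18, [(nat_lit 2, nat_lit 95)])],
 ⟨p095_k0, nat_lit 0, nat_lit 0, nat_lit 545, nat_lit 0, nat_lit 1011881, [nat_lit 2000637334, nat_lit 4341946667, nat_lit 5614146000], [], [nat_lit 23843251714, nat_lit 25172650545, nat_lit 23521316976, nat_lit 24763426416, nat_lit 20388565028, nat_lit 20796876147, nat_lit 19998253995, nat_lit 20405320392], nat_lit 1271250, nat_lit 1271250, nat_lit 631250, nat_lit 1100001, nat_lit 0, nat_lit 1100001, [nat_lit 490000, nat_lit 1100000, nat_lit 1442500], [nat_lit 6, nat_lit 40, nat_lit 40, nat_lit 80, nat_lit 3, nat_lit 317, nat_lit 100, nat_lit 12]⟩, ⟨p095_k1, nat_lit 0, nat_lit 0, nat_lit 70, nat_lit 0, nat_lit 0, [nat_lit 2970210000, nat_lit 5656250000, nat_lit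 8907010000], [], [nat_lit 11153786580, nat_lit 14544887530, nat_lit 12177465780, nat_lit 15272177760, nat_lit 19497878470, nat_lit 22036792350, nat_lit 19803938440, nat_lit 22040324540], nat_lit 0, nat_lit 0, nat_lit 0, nat_lit 0, nat_lit 0, nat_lit 0, [], [nat_lit 8, nat_lit 40, nat_lit 40, nat_lit 80, nat_lit 1, nat_lit 345, nat_lit 125, nat_lit 9]⟩,
 ⟨nat_lit 4183, nat_lit 4473, ⟨.ofNat (nat_lit 416301), .ofNat (nat_lit 518271), .ofNat (nat_lit 459427), .ofNat (nat_lit 561395), .ofNat (nat_lit 421009), .ofNat (nat_lit 520394), .ofNat (nat_lit 464335), .ofNat (nat_lit 563719)⟩, ⟨.ofNat (nat_lit 0), .ofNat (nat_lit 302621), .ofNat (nat_lit 0), .ofNat (nat_lit 324188), .ofNat (nat_lit 0), .ofNat (nat_lit 303743), .ofNat (nat_lit 0), .ofNat (nat_lit 325409)⟩⟩, [⟨nat_lit 0, nat_lit 82, nat_lit 78, nat_lit 100, nat_lit 775525065⟩, ⟨nat_lit 7, nat_lit 100, nat_lit 97, nat_lit 93, nat_lit 459648072⟩]⟩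
noncomputable def p095_l5 : Lf2 := ⟨nat_lit 0, nat_lit 10, [nat_lit 0, nat_lit 5, nat_lit 5, nat_lit 20], false, nat_lit 0, nat_lit 160, nat_lit 160, nat_lit 336, ⟨nat_lit 870, nat_lit 130, nat_lit 0, nat_lit 7, nat_lit 196, nat_lit 130, nat_lit 67, nat_lit 0, nat_lit 0, nat_lit 0, nat_lit 0, nat_lit 0, nat_lit 0, nat_lit 0, nat_lit 0, nat_lit 5000000, false, false⟩,
 nat_lit 0, nat_lit 10029, nat_lit 0, nat_lit 0, nat_lit 7521, nat_lit 4209, nat_lit 417, nat_lit 0, nat_lit 0, nat_lit 0, nat_lit 0, nat_lit 0, nat_lit 0, nat_lit 0, nat_lit 0, nat_lit 130000, nat_lit 0, nat_lit 0, [(nat_lit 18, [(nat_lit 2, nat_lit 130)])],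
 ⟨p095_k0, nat_lit 0, nat_lit 0, nat_lit 505, nat_lit 0, nat_lit 906718, [nat_lit 1989082667, nat_lit 4214453334, nat_lit 5379884000], [], [nat_lit 22922553582, nat_lit 24649941100, nat_lit 22772481782, nat_lit 24317480256, nat_lit 19718226818, nat_lit 20250256620, nat_lit 19602730470, nat_lit 20116727109], nat_lit 1271250, nat_lit 1271250, nat_lit 631250, nat_lit 1100001, nat_lit 0, nat_lit 1100001, [nat_lit 490000, nat_lit 1100000, nat_lit 1442500], [nat_lit 6, nat_lit 40, nat_lit 40, nat_lit 80, nat_lit 3, nat_lit 317, nat_lit 100, nat_lit 12]⟩, ⟨p095_k1, nat_lit 0, nat_lit 0, nat_lit 79, nat_lit 0, nat_lit 0, [nat_lit 2855340000, nat_lit 5437500000, nat_lit 8562540000], [], [nat_lit 10978352946, nat_lit 14151032376, nat_lit 11978429292, nat_lit 14876094432, nat_lit 19917941830, nat_lit 22094302556, nat_lit 20172063003, nat_lit 22069337962], nat_lit 0, nat_lit 0, nat_lit 0, nat_lit 0, nat_lit 0, nat_lit 0, [],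 [nat_lit 8, nat_lit 40, nat_lit 40, nat_lit 80, nat_lit 1, nat_lit 345, nat_lit 125, nat_lit 9]⟩,
 ⟨nat_lit 4183, nat_lit 4473, ⟨.ofNat (nat_lit 416301), .ofNat (nat_lit 518271), .ofNat (nat_lit 459427), .ofNat (nat_lit 561395), .ofNat (nat_lit 421009), .ofNat (nat_lit 520394), .ofNat (nat_lit 464335), .ofNat (nat_lit 563719)⟩, ⟨.ofNat (nat_lit 0), .ofNat (nat_lit 324188), .ofNat (nat_lit 0), .ofNat (nat_lit 345754), .ofNat (nat_lit 0), .ofNat (nat_lit 325409), .ofNat (nat_lit 0), .ofNat (nat_lit 347076)⟩⟩, [⟨nat_lit 0, nat_lit 82, nat_lit 78, nat_lit 100, nat_lit 740244815⟩, ⟨nat_lit 7, nat_lit 94, nat_lit 97, nat_lit 100, nat_lit 415412710⟩]⟩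
noncomputable def p095_l6 : Lf2 := ⟨nat_lit 0, nat_lit 10, [nat_lit 0, nat_lit 5, nat_lit 5, nat_lit 20], false, nat_lit 0, nat_lit 160, nat_lit 160, nat_lit 336, ⟨nat_lit 1000, nat_lit 0, nat_lit 0, nat_lit 0, nat_lit 0, nat_lit 0, nat_lit 0, nat_lit 0, nat_lit 0, nat_lit 0, nat_lit 0, nat_lit 0, nat_lit 0, nat_lit 0, nat_lit 0, nat_lit 0, false, false⟩,
 nat_lit 0, nat_lit 10826, nat_lit 0, nat_lit 0, nat_lit 8119, nat_lit 4840, nat_lit 490, nat_lit 0, nat_lit 0, nat_lit 0, nat_lit 0, nat_lit 0, nat_lit 0, nat_lit 0, nat_lit 0, nat_lit 0, nat_lit 0, nat_lit 0, [],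
 ⟨p095_k0, nat_lit 0, nat_lit 0, nat_lit 520, nat_lit 0, nat_lit 1000298, [nat_lit 2032000001, nat_lit 4688000000, nat_lit 6250000000], [], [nat_lit 24082028154, nat_lit 24336447108, nat_lit 27541161120, nat_lit 28244833812, nat_lit 19395414484, nat_lit 19649950261, nat_lit 20531598248, nat_lit 20760307607], nat_lit 1271250, nat_lit 1271250, nat_lit 1100001, nat_lit 1785000, nat_lit 0, nat_lit 1100001, [nat_lit 490000, nat_lit 1100000, nat_lit 1442500], [nat_lit 6, nat_lit 40, nat_lit 40, nat_lit 80, nat_lit 3, nat_lit 317, nat_lit 100, nat_lit 12]⟩, ⟨p095_k1, nat_lit 0, nat_lit 0, nat_lit 60, nat_lit 0, nat_lit 0, [nat_lit 3282000000, nat_lit 6250000000, nat_lit 9842000000], [], [nat_lit 13765477920, nat_lit 17096933120, nat_lit 17192035360, nat_lit 20023038400, nat_lit 23185179265, nat_lit 25366376736, nat_lit 25137138784, nat_lit 27082571585], nat_lit 0, nat_lit 0, nat_lit 0, nat_lit 0, nat_lit 0, nat_lit 0,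 [], [nat_lit 8, nat_lit 40, nat_lit 40, nat_lit 80, nat_lit 1, nat_lit 373, nat_lit 150, nat_lit 10]⟩,
 zbF0, [⟨nat_lit 7, nat_lit 100, nat_lit 100, nat_lit 100, nat_lit 463343655⟩]⟩
noncomputable def p095_l7 : Lf2 := ⟨nat_lit 0, nat_lit 10, [nat_lit 0, nat_lit 5, nat_lit 5, nat_lit 20], false, nat_lit 0, nat_lit 160, nat_lit 160, nat_lit 336, ⟨nat_lit 1000, nat_lit 0, nat_lit 0, nat_lit 0, nat_lit 0, nat_lit 0, nat_lit 0, nat_lit 0, nat_lit 0, nat_lit 0, nat_lit 0, nat_lit 0, nat_lit 0, nat_lit 0, nat_lit 0, nat_lit 0, false, false⟩,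
 nat_lit 0, nat_lit 8453, nat_lit 0, nat_lit 0, nat_lit 6464, nat_lit 4840, nat_lit 2970, nat_lit 0, nat_lit 0, nat_lit 0, nat_lit 0, nat_lit 0, nat_lit 0, nat_lit 0, nat_lit 0, nat_lit 0, nat_lit 0, nat_lit 0, [],
 ⟨p095_k4, nat_lit 0, nat_lit 0, nat_lit 526, nat_lit 0, nat_lit 1012476, [nat_lit 2032000001, nat_lit 4688000000, nat_lit 6250000000], [], [nat_lit 22422869186, nat_lit 22796947704, nat_lit 25699098744, nat_lit 26300610768, nat_lit 17873365188, nat_lit 18111359176, nat_lit 20272753860, nat_lit 20781198600], nat_lit 1271250, nat_lit 1271250, nat_lit 1100001, nat_lit 1785000, nat_lit 0, nat_lit 1100001, [nat_lit 490000, nat_lit 1100000, nat_lit 1442500], [nat_lit 6, nat_lit 40, nat_lit 40, nat_lit 80, nat_lit 3, nat_lit 317, nat_lit 100, nat_lit 12]⟩, ⟨p095_k1, nat_lit 0, nat_lit 0, nat_lit 60, nat_lit 0, nat_lit 0, [nat_lit 3282000000, nat_lit 6250000000, nat_lit 9842000000], [], [nat_lit 13765477920,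 nat_lit 17096933120, nat_lit 17192035360, nat_lit 20023038400, nat_lit 23185179265, nat_lit 25366376736, nat_lit 25137138784, nat_lit 27082571585], nat_lit 0, nat_lit 0, nat_lit 0, nat_lit 0, nat_lit 0, nat_lit 0, [], [nat_lit 8, nat_lit 40, nat_lit 40, nat_lit 80, nat_lit 1, nat_lit 373, nat_lit 150, nat_lit 10]⟩,
 zbF0, [⟨nat_lit 19, nat_lit 100, nat_lit 100, nat_lit 100, nat_lit 463343655⟩]⟩
noncomputable def p095_l8 : Lf2 := ⟨nat_lit 0, nat_lit 10, [nat_lit 0, nat_lit 5, nat_lit 5, nat_lit 20], false, nat_lit 0, nat_lit 160, nat_lit 160, nat_lit 336, ⟨nat_lit 1000, nat_lit 0, nat_lit 0, nat_lit 0, nat_lit 0, nat_lit 0, nat_lit 0, nat_lit 0, nat_lit 0, nat_lit 0, nat_lit 0, nat_lit 0, nat_lit 0, nat_lit 0, nat_lit 0, nat_lit 0, false, false⟩,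
 nat_lit 0, nat_lit 7264, nat_lit 0, nat_lit 0, nat_lit 5662, nat_lit 4970, nat_lit 2419, nat_lit 0, nat_lit 0, nat_lit 0, nat_lit 0, nat_lit 0, nat_lit 0, nat_lit 0, nat_lit 0, nat_lit 0, nat_lit 0, nat_lit 0, [],
 ⟨p095_k5, nat_lit 0, nat_lit 0, nat_lit 563, nat_lit 0, nat_lit 1063540, [nat_lit 2032000001, nat_lit 4688000000, nat_lit 6250000000], [], [nat_lit 21320329840, nat_lit 22727754007, nat_lit 25017461294, nat_lit 26121472828, nat_lit 17604581913, nat_lit 18098221378, nat_lit 21359971682, nat_lit 21497963640], nat_lit 1271250, nat_lit 1271250, nat_lit 719601, nat_lit 1758000, nat_lit 0, nat_lit 1100001, [nat_lit 490000, nat_lit 1100000, nat_lit 1442500], [nat_lit 6, nat_lit 40, nat_lit 40, nat_lit 80, nat_lit 3, nat_lit 317, nat_lit 100, nat_lit 12]⟩, ⟨p095_k1, nat_lit 0, nat_lit 0, nat_lit 74, nat_lit 0, nat_lit 0, [nat_lit 3282000000, nat_lit 6250000000, nat_lit 9842000000], [], [nat_lit 12545004696,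 nat_lit 16191239264, nat_lit 17043666880, nat_lit 19914847200, nat_lit 22796716620, nat_lit 25394597887, nat_lit 25094207193, nat_lit 27173267073], nat_lit 0, nat_lit 0, nat_lit 0, nat_lit 0, nat_lit 0, nat_lit 0, [], [nat_lit 8, nat_lit 40, nat_lit 40, nat_lit 80, nat_lit 1, nat_lit 373, nat_lit 150, nat_lit 10]⟩,
 zbF0, [⟨nat_lit 0, nat_lit 91, nat_lit 77, nat_lit 100, nat_lit 401009387⟩, ⟨nat_lit 19, nat_lit 100, nat_lit 100, nat_lit 100, nat_lit 8718622⟩, ⟨nat_lit 19, nat_lit 100, nat_lit 80, nat_lit 100, nat_lit 426480431⟩]⟩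
noncomputable def p095_l9 : Lf2 := ⟨nat_lit 0, nat_lit 10, [nat_lit 0, nat_lit 5, nat_lit 5, nat_lit 20], false, nat_lit 0, nat_lit 160, nat_lit 160, nat_lit 336, ⟨nat_lit 1000, nat_lit 0, nat_lit 0, nat_lit 0, nat_lit 0, nat_lit 0, nat_lit 0, nat_lit 0, nat_lit 0, nat_lit 0, nat_lit 0, nat_lit 0, nat_lit 0, nat_lit 0, nat_lit 0, nat_lit 0, false, false⟩,
 nat_lit 0, nat_lit 6842, nat_lit 0, nat_lit 0, nat_lit 5538, nat_lit 5004, nat_lit 1241, nat_lit 0, nat_lit 0, nat_lit 0, nat_lit 0, nat_lit 0, nat_lit 0, nat_lit 0, nat_lit 0, nat_lit 0, nat_lit 0, nat_lit 0, [],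
 ⟨p095_k2, nat_lit 0, nat_lit 0, nat_lit 613, nat_lit 0, nat_lit 1164010, [nat_lit 2032000001, nat_lit 4688000000, nat_lit 6250000000], [], [nat_lit 22409689683, nat_lit 25138937266, nat_lit 25907771972, nat_lit 28085177704, nat_lit 19462498542, nat_lit 20454708693, nat_lit 21451560360, nat_lit 23298620680], nat_lit 1271250, nat_lit 1271250, nat_lit 810650, nat_lit 1764750, nat_lit 0, nat_lit 1100001, [nat_lit 490000, nat_lit 1100000, nat_lit 1442500], [nat_lit 6, nat_lit 40, nat_lit 40, nat_lit 80, nat_lit 3, nat_lit 317, nat_lit 100, nat_lit 12]⟩, ⟨p095_k1, nat_lit 0, nat_lit 0, nat_lit 69, nat_lit 0, nat_lit 0, [nat_lit 3282000000, nat_lit 6250000000, nat_lit 9842000000], [], [nat_lit 12661016367, nat_lit 16260021357, nat_lit 17004862816, nat_lit 19886551040, nat_lit 22780946536, nat_lit 25349662429, nat_lit 25111812855, nat_lit 27196987431], nat_lit 0, nat_lit 0, nat_lit 0, nat_lit 0, nat_lit 0, nat_lit 0, [],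 [nat_lit 8, nat_lit 40, nat_lit 40, nat_lit 80, nat_lit 1, nat_lit 373, nat_lit 150, nat_lit 10]⟩,
 zbF0, [⟨nat_lit 0, nat_lit 88, nat_lit 67, nat_lit 100, nat_lit 440908061⟩, ⟨nat_lit 19, nat_lit 100, nat_lit 80, nat_lit 100, nat_lit 458720651⟩]⟩
noncomputable def p095_l10 : Lf2 := ⟨nat_lit 0, nat_lit 10, [nat_lit 0, nat_lit 5, nat_lit 5, nat_lit 20], false, nat_lit 160, nat_lit 300, nat_lit 160, nat_lit 336, ⟨nat_lit 100, nat_lit 900, nat_lit 0, nat_lit 7, nat_lit 191, nat_lit 900, nat_lit 177, nat_lit 0, nat_lit 0, nat_lit 0, nat_lit 0, nat_lit 0, nat_lit 0, nat_lit 0, nat_lit 0, nat_lit 5000000, false, false⟩,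
 nat_lit 0, nat_lit 5762, nat_lit 0, nat_lit 0, nat_lit 4321, nat_lit 481, nat_lit 212, nat_lit 0, nat_lit 0, nat_lit 0, nat_lit 0, nat_lit 0, nat_lit 0, nat_lit 0, nat_lit 0, nat_lit 674400, nat_lit 0, nat_lit 0, [(nat_lit 18, [(nat_lit 1, nat_lit 376), (nat_lit 2, nat_lit 524)])],
 ⟨p095_k6, nat_lit 0, nat_lit 0, nat_lit 352, nat_lit 0, nat_lit 815252, [nat_lit 1523788801, nat_lit 1859741334, nat_lit 1264751466], [], [nat_lit 18279747109, nat_lit 18434924221, nat_lit 18913136421, nat_lit 19070954476, nat_lit 22567126930, nat_lit 22705221678, nat_lit 22970550648, nat_lit 23095981417], nat_lit 1271250, nat_lit 1271250, nat_lit 631250, nat_lit 1100001, nat_lit 1100001, nat_lit 2298750, [nat_lit 490000, nat_lit 780000, nat_lit 1435000], [nat_lit 85, nat_lit 40, nat_lit 40, nat_lit 80, nat_lit 16, nat_lit 345, nat_lit 125, nat_lit 12]⟩, ⟨p095_k7, nat_lit 0, nat_lit 0, nat_lit 59, nat_lit 0, nat_lit 0, [nat_lit 328200000,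 nat_lit 468800000, nat_lit 984200000], [], [nat_lit 1265477574, nat_lit 1447202009, nat_lit 1380653628, nat_lit 1546642318, nat_lit 2290318343, nat_lit 2408351630, nat_lit 2320112998, nat_lit 2428867171], nat_lit 0, nat_lit 0, nat_lit 0, nat_lit 0, nat_lit 0, nat_lit 0, [], [nat_lit 42, nat_lit 40, nat_lit 40, nat_lit 80, nat_lit 13, nat_lit 345, nat_lit 125, nat_lit 9]⟩,
 ⟨nat_lit 4387, nat_lit 4473, ⟨.ofNat (nat_lit 416318), .ofNat (nat_lit 518285), .ofNat (nat_lit 437884), .ofNat (nat_lit 539851), .ofNat (nat_lit 417719), .ofNat (nat_lit 518912), .ofNat (nat_lit 439313), .ofNat (nat_lit 540506)⟩, ⟨.ofNat (nat_lit 302621), .ofNat (nat_lit 540545), .ofNat (nat_lit 345754), .ofNat (nat_lit 583678), .ofNat (nat_lit 302972), .ofNat (nat_lit 539089), .ofNat (nat_lit 346160), .ofNat (nat_lit 582277)⟩⟩, [⟨nat_lit 16, nat_lit 86, nat_lit 100, nat_lit 94, nat_lit 111140291⟩, ⟨nat_lit 16, nat_lit 87, nat_lit 95, nat_lit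 100, nat_lit 179141042⟩, ⟨nat_lit 7, nat_lit 94, nat_lit 100, nat_lit 97, nat_lit 49325782⟩]⟩
noncomputable def p095_l11 : Lf2 := ⟨nat_lit 0, nat_lit 10, [nat_lit 0, nat_lit 5, nat_lit 5, nat_lit 20], true, nat_lit 160, nat_lit 296, nat_lit 160, nat_lit 336, ⟨nat_lit 0, nat_lit 1000, nat_lit 0, nat_lit 7, nat_lit 193, nat_lit 1000, nat_lit 176, nat_lit 0, nat_lit 0, nat_lit 0, nat_lit 0, nat_lit 0, nat_lit 0, nat_lit 0, nat_lit 0, nat_lit 5000000, false, false⟩,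
 nat_lit 0, nat_lit 5270, nat_lit 0, nat_lit 0, nat_lit 3998, nat_lit 0, nat_lit 1475, nat_lit 0, nat_lit 0, nat_lit 0, nat_lit 0, nat_lit 0, nat_lit 0, nat_lit 0, nat_lit 0, nat_lit 400000, nat_lit 0, nat_lit 0, [(nat_lit 18, [(nat_lit 1, nat_lit 1000)])],
 ⟨p095_k8, nat_lit 0, nat_lit 0, nat_lit 352, nat_lit 0, nat_lit 818572, [nat_lit 1356000001, nat_lit 1749066667, nat_lit 2015733333], [], [nat_lit 18036534803, nat_lit 18148220611, nat_lit 18811874783, nat_lit 18915540561, nat_lit 22205369653, nat_lit 22350335415, nat_lit 22643108189, nat_lit 22724882383], nat_lit 1271250, nat_lit 1271250, nat_lit 660400, nat_lit 1100001, nat_lit 1100001, nat_lit 2264500, [nat_lit 490000, nat_lit 780000, nat_lit 1435000], [nat_lit 85, nat_lit 40, nat_lit 40, nat_lit 80, nat_lit 16, nat_lit 345, nat_lit 125, nat_lit 12]⟩, C1.Rw.none,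
 ⟨nat_lit 4330, nat_lit 4388, ⟨.ofNat (nat_lit 424466), .ofNat (nat_lit 518912), .ofNat (nat_lit 446060), .ofNat (nat_lit 540506), .ofNat (nat_lit 425370), .ofNat (nat_lit 519335), .ofNat (nat_lit 446984), .ofNat (nat_lit 540948)⟩, ⟨.ofNat (nat_lit 302972), .ofNat (nat_lit 532343), .ofNat (nat_lit 346160), .ofNat (nat_lit 575531), .ofNat (nat_lit 303199), .ofNat (nat_lit 531399), .ofNat (nat_lit 346426), .ofNat (nat_lit 574626)⟩⟩, [⟨nat_lit 4, nat_lit 100, nat_lit 84, nat_lit 93, nat_lit 293097191⟩]⟩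
noncomputable def p095_l12 : Lf2 := ⟨nat_lit 0, nat_lit 10, [nat_lit 0, nat_lit 5, nat_lit 5, nat_lit 20], true, nat_lit 160, nat_lit 296, nat_lit 160, nat_lit 336, ⟨nat_lit 0, nat_lit 1000, nat_lit 0, nat_lit 7, nat_lit 194, nat_lit 1000, nat_lit 175, nat_lit 0, nat_lit 0, nat_lit 0, nat_lit 0, nat_lit 0, nat_lit 0, nat_lit 0, nat_lit 0, nat_lit 5000000, false, false⟩,
 nat_lit 0, nat_lit 5246, nat_lit 0, nat_lit 0, nat_lit 4011, nat_lit 0, nat_lit 1485, nat_lit 0, nat_lit 0, nat_lit 0, nat_lit 0, nat_lit 0, nat_lit 0, nat_lit 0, nat_lit 0, nat_lit 400000, nat_lit 0, nat_lit 0, [(nat_lit 18, [(nat_lit 1, nat_lit 1000)])],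
 ⟨p095_k4, nat_lit 0, nat_lit 0, nat_lit 373, nat_lit 0, nat_lit 851054, [nat_lit 1398133334, nat_lit 1966666667, nat_lit 1960800000], [], [nat_lit 18766569777, nat_lit 19003976105, nat_lit 19355394059, nat_lit 19576257519, nat_lit 22415016549, nat_lit 22723104718, nat_lit 22866617640, nat_lit 23065886664], nat_lit 1271250, nat_lit 1271250, nat_lit 660400, nat_lit 1100001, nat_lit 1100001, nat_lit 2264500, [nat_lit 490000, nat_lit 1100000, nat_lit 1442500], [nat_lit 6, nat_lit 40, nat_lit 40, nat_lit 80, nat_lit 3, nat_lit 345, nat_lit 125, nat_lit 12]⟩, C1.Rw.none,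
 ⟨nat_lit 4183, nat_lit 4331, ⟨.ofNat (nat_lit 425367), .ofNat (nat_lit 519332), .ofNat (nat_lit 446979), .ofNat (nat_lit 540945), .ofNat (nat_lit 427648), .ofNat (nat_lit 520406), .ofNat (nat_lit 449313), .ofNat (nat_lit 542072)⟩, ⟨.ofNat (nat_lit 303199), .ofNat (nat_lit 531399), .ofNat (nat_lit 346426), .ofNat (nat_lit 574626), .ofNat (nat_lit 303743), .ofNat (nat_lit 529012), .ofNat (nat_lit 347076), .ofNat (nat_lit 572345)⟩⟩, [⟨nat_lit 4, nat_lit 100, nat_lit 82, nat_lit 92, nat_lit 290536679⟩]⟩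
noncomputable def p095_l13 : Lf2 := ⟨nat_lit 0, nat_lit 10, [nat_lit 0, nat_lit 5, nat_lit 5, nat_lit 20], true, nat_lit 160, nat_lit 288, nat_lit 160, nat_lit 336, ⟨nat_lit 0, nat_lit 1000, nat_lit 0, nat_lit 7, nat_lit 197, nat_lit 1000, nat_lit 172, nat_lit 0, nat_lit 0, nat_lit 0, nat_lit 0, nat_lit 0, nat_lit 0, nat_lit 0, nat_lit 0, nat_lit 5000000, false, false⟩,
 nat_lit 0, nat_lit 5063, nat_lit 0, nat_lit 0, nat_lit 3946, nat_lit 0, nat_lit 1359, nat_lit 0, nat_lit 0, nat_lit 0, nat_lit 0, nat_lit 0, nat_lit 0, nat_lit 0, nat_lit 0, nat_lit 400000, nat_lit 0, nat_lit 0, [(nat_lit 18, [(nat_lit 1, nat_lit 1000)])],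
 ⟨p095_k5, nat_lit 0, nat_lit 0, nat_lit 411, nat_lit 0, nat_lit 910907, [nat_lit 1398133334, nat_lit 1966666667, nat_lit 1960800000], [], [nat_lit 18289161093, nat_lit 18880815235, nat_lit 19064652498, nat_lit 19618802490, nat_lit 22345044621, nat_lit 22928771664, nat_lit 22851337421, nat_lit 23294766445], nat_lit 1271250, nat_lit 1271250, nat_lit 719601, nat_lit 1100001, nat_lit 1100001, nat_lit 2196000, [nat_lit 490000, nat_lit 1100000, nat_lit 1442500], [nat_lit 6, nat_lit 40, nat_lit 40, nat_lit 80, nat_lit 3, nat_lit 345, nat_lit 125, nat_lit 12]⟩, C1.Rw.none,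
 ⟨nat_lit 3872, nat_lit 4184, ⟨.ofNat (nat_lit 440878), .ofNat (nat_lit 520388), .ofNat (nat_lit 462540), .ofNat (nat_lit 542050), .ofNat (nat_lit 445199), .ofNat (nat_lit 522628), .ofNat (nat_lit 466987), .ofNat (nat_lit 544417)⟩, ⟨.ofNat (nat_lit 303743), .ofNat (nat_lit 515761), .ofNat (nat_lit 347076), .ofNat (nat_lit 559094), .ofNat (nat_lit 304717), .ofNat (nat_lit 511186), .ofNat (nat_lit 348304), .ofNat (nat_lit 554773)⟩⟩, [⟨nat_lit 16, nat_lit 77, nat_lit 100, nat_lit 91, nat_lit 252786077⟩, ⟨nat_lit 16, nat_lit 83, nat_lit 98, nat_lit 100, nat_lit 71940481⟩]⟩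
noncomputable def p095_l14 : Lf2 := ⟨nat_lit 0, nat_lit 10, [nat_lit 0, nat_lit 5, nat_lit 5, nat_lit 20], false, nat_lit 160, nat_lit 300, nat_lit 160, nat_lit 336, ⟨nat_lit 1000, nat_lit 0, nat_lit 0, nat_lit 0, nat_lit 0, nat_lit 0, nat_lit 0, nat_lit 0, nat_lit 0, nat_lit 0, nat_lit 0, nat_lit 0, nat_lit 0, nat_lit 0, nat_lit 0, nat_lit 0, false, false⟩,
 nat_lit 0, nat_lit 7928, nat_lit 0, nat_lit 0, nat_lit 5946, nat_lit 4943, nat_lit 1035, nat_lit 0, nat_lit 0, nat_lit 0, nat_lit 0, nat_lit 0, nat_lit 0, nat_lit 0, nat_lit 0, nat_lit 0, nat_lit 0, nat_lit 0, [],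
 ⟨p095_k6, nat_lit 0, nat_lit 0, nat_lit 414, nat_lit 0, nat_lit 960761, [nat_lit 2032000001, nat_lit 3282000000, nat_lit 6250000000], [], [nat_lit 20614021977, nat_lit 21621206221, nat_lit 22290486865, nat_lit 23281431361, nat_lit 24359831353, nat_lit 25245700093, nat_lit 25639519250, nat_lit 27051156829], nat_lit 1271250, nat_lit 1271250, nat_lit 1100001, nat_lit 1785000, nat_lit 1100001, nat_lit 2298750, [nat_lit 490000, nat_lit 780000, nat_lit 1435000], [nat_lit 85, nat_lit 40, nat_lit 40, nat_lit 80, nat_lit 16, nat_lit 373, nat_lit 150, nat_lit 13]⟩, ⟨p095_k7, nat_lit 0, nat_lit 0, nat_lit 43, nat_lit 0, nat_lit 0, [nat_lit 3282000000, nat_lit 4688000000, nat_lit 9842000000], [], [nat_lit 13624510884, nat_lit 15310291554, nat_lit 17074481872, nat_lit 18505899776, nat_lit 23130415153, nat_lit 24231509631, nat_lit 25082091217, nat_lit 26117328271], nat_lit 0, nat_lit 0, nat_lit 0, nat_lit 0, nat_lit 0, nat_lit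 0, [], [nat_lit 42, nat_lit 40, nat_lit 40, nat_lit 80, nat_lit 13, nat_lit 373, nat_lit 150, nat_lit 10]⟩,
 zbF0, [⟨nat_lit 4, nat_lit 100, nat_lit 81, nat_lit 92, nat_lit 468472785⟩, ⟨nat_lit 7, nat_lit 94, nat_lit 100, nat_lit 97, nat_lit 496749671⟩]⟩
noncomputable def p095_l15 : Lf2 := ⟨nat_lit 0, nat_lit 1, [nat_lit 19, nat_lit 5, nat_lit 5, nat_lit 20], false, nat_lit 160, nat_lit 280, nat_lit 160, nat_lit 300, ⟨nat_lit 1000, nat_lit 0, nat_lit 0, nat_lit 0, nat_lit 0, nat_lit 0, nat_lit 0, nat_lit 0, nat_lit 0, nat_lit 0, nat_lit 0, nat_lit 0, nat_lit 0, nat_lit 0, nat_lit 0, nat_lit 0, false, false⟩,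
 nat_lit 0, nat_lit 8187, nat_lit 0, nat_lit 0, nat_lit 6140, nat_lit 5128, nat_lit 0, nat_lit 0, nat_lit 0, nat_lit 0, nat_lit 0, nat_lit 0, nat_lit 0, nat_lit 0, nat_lit 0, nat_lit 0, nat_lit 0, nat_lit 0, [],
 ⟨p095_k9, nat_lit 0, nat_lit 0, nat_lit 312, nat_lit 0, nat_lit 961004, [nat_lit 2032000001, nat_lit 3282000000], [], [nat_lit 19171560801, nat_lit 19789307521, nat_lit 21432421761, nat_lit 21935865081, nat_lit 22634840561, nat_lit 23144438340, nat_lit 24620914680, nat_lit 25379159150], nat_lit 1271250, nat_lit 1271250, nat_lit 780000, nat_lit 1762500, nat_lit 1100001, nat_lit 2127500, [nat_lit 490000, nat_lit 780000], [nat_lit 112, nat_lit 40, nat_lit 40, nat_lit 80, nat_lit 113, nat_lit 203, nat_lit 0, nat_lit 10]⟩, ⟨p095_k10, nat_lit 0, nat_lit 0, nat_lit 36, nat_lit 0, nat_lit 0, [nat_lit 3282000000, nat_lit 4688000000], [], [nat_lit 14232642192, nat_lit 16069770208, nat_lit 18323347696, nat_lit 19783353280,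 nat_lit 21432746572, nat_lit 22896802432, nat_lit 24045989812, nat_lit 25223055000], nat_lit 0, nat_lit 0, nat_lit 0, nat_lit 0, nat_lit 0, nat_lit 0, [], [nat_lit 40, nat_lit 40, nat_lit 40, nat_lit 80, nat_lit 22, nat_lit 272, nat_lit 60, nat_lit 11]⟩,
 zbF0, [⟨nat_lit 0, nat_lit 88, nat_lit 82, nat_lit 100, nat_lit 405541492⟩, ⟨nat_lit 16, nat_lit 87, nat_lit 100, nat_lit 94, nat_lit 259197576⟩, ⟨nat_lit 4, nat_lit 100, nat_lit 82, nat_lit 88, nat_lit 197601371⟩, ⟨nat_lit 7, nat_lit 100, nat_lit 91, nat_lit 91, nat_lit 499826052⟩]⟩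
noncomputable def p095_l16 : Lf2 := ⟨nat_lit 0, nat_lit 2, [nat_lit 10, nat_lit 5, nat_lit 5, nat_lit 20], false, nat_lit 160, nat_lit 280, nat_lit 160, nat_lit 300, ⟨nat_lit 866, nat_lit 134, nat_lit 0, nat_lit 7, nat_lit 207, nat_lit 134, nat_lit 166, nat_lit 0, nat_lit 0, nat_lit 0, nat_lit 0, nat_lit 0, nat_lit 0, nat_lit 0, nat_lit 0, nat_lit 5000000, false, false⟩,
 nat_lit 0, nat_lit 9323, nat_lit 0, nat_lit 0, nat_lit 6992, nat_lit 4368, nat_lit 0, nat_lit 0, nat_lit 0, nat_lit 0, nat_lit 0, nat_lit 0, nat_lit 0, nat_lit 0, nat_lit 0, nat_lit 134000, nat_lit 0, nat_lit 0, [(nat_lit 18, [(nat_lit 2, nat_lit 134)])],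
 ⟨p095_k11, nat_lit 0, nat_lit 0, nat_lit 335, nat_lit 0, nat_lit 896716, [nat_lit 1987762134, nat_lit 4158432000], [], [nat_lit 19844406176, nat_lit 20481518320, nat_lit 20092213696, nat_lit 20690737712, nat_lit 23052819264, nat_lit 23588028512, nat_lit 23040053520, nat_lit 23668019232], nat_lit 1271250, nat_lit 1271250, nat_lit 780000, nat_lit 1100001, nat_lit 1100001, nat_lit 2127500, [nat_lit 490000, nat_lit 1100000], [nat_lit 24, nat_lit 40, nat_lit 40, nat_lit 80, nat_lit 33, nat_lit 249, nat_lit 40, nat_lit 10]⟩, ⟨p095_k12, nat_lit 0, nat_lit 0, nat_lit 36, nat_lit 0, nat_lit 0, [nat_lit 2842212000, nat_lit 4059808000], [], [nat_lit 12408546620, nat_lit 13984043176, nat_lit 13156156312, nat_lit 14633050880, nat_lit 18601688253, nat_lit 19782316406, nat_lit 18965856801, nat_lit 20037503926], nat_lit 0, nat_lit 0, nat_lit 0, nat_lit 0, nat_lit 0, nat_lit 0, [], [nat_lit 40, nat_lit 40, nat_lit 40, nat_lit 80,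 nat_lit 22, nat_lit 249, nat_lit 40, nat_lit 10]⟩,
 ⟨nat_lit 4183, nat_lit 4473, ⟨.ofNat (nat_lit 471853), .ofNat (nat_lit 539833), .ofNat (nat_lit 493417), .ofNat (nat_lit 561395), .ofNat (nat_lit 475800), .ofNat (nat_lit 542057), .ofNat (nat_lit 497463), .ofNat (nat_lit 563719)⟩, ⟨.ofNat (nat_lit 302621), .ofNat (nat_lit 506556), .ofNat (nat_lit 324188), .ofNat (nat_lit 528122), .ofNat (nat_lit 303743), .ofNat (nat_lit 502509), .ofNat (nat_lit 325409), .ofNat (nat_lit 524176)⟩⟩, [⟨nat_lit 0, nat_lit 82, nat_lit 78, nat_lit 100, nat_lit 639932175⟩, ⟨nat_lit 16, nat_lit 87, nat_lit 100, nat_lit 94, nat_lit 277770076⟩, ⟨nat_lit 4, nat_lit 100, nat_lit 82, nat_lit 88, nat_lit 122308471⟩, ⟨nat_lit 7, nat_lit 100, nat_lit 91, nat_lit 91, nat_lit 462608290⟩]⟩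
noncomputable def p095_l17 : Lf2 := ⟨nat_lit 0, nat_lit 2, [nat_lit 10, nat_lit 5, nat_lit 5, nat_lit 20], false, nat_lit 160, nat_lit 280, nat_lit 160, nat_lit 300, ⟨nat_lit 1000, nat_lit 0, nat_lit 0, nat_lit 0, nat_lit 0, nat_lit 0, nat_lit 0, nat_lit 0, nat_lit 0, nat_lit 0, nat_lit 0, nat_lit 0, nat_lit 0, nat_lit 0, nat_lit 0, nat_lit 0, false, false⟩,
 nat_lit 0, nat_lit 9980, nat_lit 0, nat_lit 0, nat_lit 7484, nat_lit 5046, nat_lit 0, nat_lit 0, nat_lit 0, nat_lit 0, nat_lit 0, nat_lit 0, nat_lit 0, nat_lit 0, nat_lit 0, nat_lit 0, nat_lit 0, nat_lit 0, [],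
 ⟨p095_k11, nat_lit 0, nat_lit 0, nat_lit 327, nat_lit 0, nat_lit 896716, [nat_lit 2032000001, nat_lit 4688000000], [], [nat_lit 20454187392, nat_lit 21076141924, nat_lit 22031362576, nat_lit 22564223640, nat_lit 23424793040, nat_lit 23910082822, nat_lit 25190719608, nat_lit 26044099790], nat_lit 1271250, nat_lit 1271250, nat_lit 1100001, nat_lit 1785000, nat_lit 1100001, nat_lit 2127500, [nat_lit 490000, nat_lit 1100000], [nat_lit 24, nat_lit 40, nat_lit 40, nat_lit 80, nat_lit 33, nat_lit 203, nat_lit 0, nat_lit 8]⟩, ⟨p095_k12, nat_lit 0, nat_lit 0, nat_lit 30, nat_lit 0, nat_lit 0, [nat_lit 3282000000, nat_lit 4688000000], [], [nat_lit 15189377588, nat_lit 16895211328, nat_lit 18404262672, nat_lit 19851596960, nat_lit 21899129055, nat_lit 23136854864, nat_lit 24014867102, nat_lit 25181306750], nat_lit 0, nat_lit 0, nat_lit 0, nat_lit 0, nat_lit 0, nat_lit 0, [], [nat_lit 40, nat_lit 40, nat_lit 40, nat_lit 80,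 nat_lit 22, nat_lit 203, nat_lit 0, nat_lit 8]⟩,
 zbF0, [⟨nat_lit 16, nat_lit 82, nat_lit 100, nat_lit 88, nat_lit 461241514⟩, ⟨nat_lit 7, nat_lit 100, nat_lit 91, nat_lit 91, nat_lit 534422828⟩]⟩
noncomputable def p095_l18 : Lf2 := ⟨nat_lit 0, nat_lit 2, [nat_lit 10, nat_lit 5, nat_lit 5, nat_lit 20], false, nat_lit 160, nat_lit 300, nat_lit 160, nat_lit 320, ⟨nat_lit 910, nat_lit 90, nat_lit 0, nat_lit 7, nat_lit 232, nat_lit 90, nat_lit 181, nat_lit 0, nat_lit 0, nat_lit 0, nat_lit 0, nat_lit 0, nat_lit 0, nat_lit 0, nat_lit 0, nat_lit 5000000, false, false⟩,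
 nat_lit 0, nat_lit 7477, nat_lit 0, nat_lit 0, nat_lit 5607, nat_lit 4506, nat_lit 1387, nat_lit 0, nat_lit 0, nat_lit 0, nat_lit 0, nat_lit 0, nat_lit 0, nat_lit 0, nat_lit 0, nat_lit 90000, nat_lit 0, nat_lit 0, [(nat_lit 18, [(nat_lit 2, nat_lit 90)])],
 ⟨p095_k13, nat_lit 0, nat_lit 0, nat_lit 295, nat_lit 0, nat_lit 788724, [nat_lit 1988368001, nat_lit 3110244001, nat_lit 4332320000], [], [nat_lit 18851825881, nat_lit 19518870532, nat_lit 21476996545, nat_lit 22021138170, nat_lit 23533221628, nat_lit 24048510153, nat_lit 25758858665, nat_lit 26150546691], nat_lit 1271250, nat_lit 1271250, nat_lit 780000, nat_lit 1762500, nat_lit 1100001, nat_lit 2298750, [nat_lit 490000, nat_lit 780000, nat_lit 1100000], [nat_lit 78, nat_lit 40, nat_lit 40, nat_lit 80, nat_lit 22, nat_lit 272, nat_lit 60, nat_lit 11]⟩, ⟨p095_k12, nat_lit 0, nat_lit 0, nat_lit 39, nat_lit 0, nat_lit 0, [nat_lit 2986620000, nat_lit 4266080000],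 [], [nat_lit 13134721564, nat_lit 13953590130, nat_lit 16832602932, nat_lit 17484506146, nat_lit 20711171464, nat_lit 21271905162, nat_lit 22803150100, nat_lit 23299276028], nat_lit 0, nat_lit 0, nat_lit 0, nat_lit 0, nat_lit 0, nat_lit 0, [], [nat_lit 40, nat_lit 40, nat_lit 40, nat_lit 80, nat_lit 22, nat_lit 272, nat_lit 60, nat_lit 11]⟩,
 ⟨nat_lit 4183, nat_lit 4473, ⟨.ofNat (nat_lit 471853), .ofNat (nat_lit 675791), .ofNat (nat_lit 482635), .ofNat (nat_lit 686573), .ofNat (nat_lit 475800), .ofNat (nat_lit 674569), .ofNat (nat_lit 486631), .ofNat (nat_lit 685401)⟩, ⟨.ofNat (nat_lit 324188), .ofNat (nat_lit 562111), .ofNat (nat_lit 345754), .ofNat (nat_lit 583678), .ofNat (nat_lit 325409), .ofNat (nat_lit 557304), .ofNat (nat_lit 347076), .ofNat (nat_lit 578971)⟩⟩, [⟨nat_lit 0, nat_lit 90, nat_lit 83, nat_lit 100, nat_lit 361720034⟩, ⟨nat_lit 16, nat_lit 87, nat_lit 95, nat_lit 100, nat_lit 351229462⟩, ⟨nat_lit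 4, nat_lit 100, nat_lit 86, nat_lit 98, nat_lit 59280451⟩, ⟨nat_lit 19, nat_lit 94, nat_lit 88, nat_lit 100, nat_lit 410764084⟩]⟩
noncomputable def p095_l19 : Lf2 := ⟨nat_lit 0, nat_lit 2, [nat_lit 10, nat_lit 5, nat_lit 5, nat_lit 20], false, nat_lit 160, nat_lit 300, nat_lit 160, nat_lit 312, ⟨nat_lit 1000, nat_lit 0, nat_lit 0, nat_lit 0, nat_lit 0, nat_lit 0, nat_lit 0, nat_lit 0, nat_lit 0, nat_lit 0, nat_lit 0, nat_lit 0, nat_lit 0, nat_lit 0, nat_lit 0, nat_lit 0, false, false⟩,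
 nat_lit 0, nat_lit 7742, nat_lit 0, nat_lit 0, nat_lit 5806, nat_lit 4963, nat_lit 1554, nat_lit 0, nat_lit 0, nat_lit 0, nat_lit 0, nat_lit 0, nat_lit 0, nat_lit 0, nat_lit 0, nat_lit 0, nat_lit 0, nat_lit 0, [],
 ⟨p095_k13, nat_lit 0, nat_lit 0, nat_lit 328, nat_lit 0, nat_lit 867295, [nat_lit 2032000001, nat_lit 3282000000, nat_lit 4688000000], [], [nat_lit 19439606095, nat_lit 20059621794, nat_lit 21728104778, nat_lit 22243350762, nat_lit 23750449982, nat_lit 24235582949, nat_lit 25841497355, nat_lit 26264893235], nat_lit 1271250, nat_lit 1271250, nat_lit 872850, nat_lit 1769250, nat_lit 1100001, nat_lit 2298750, [nat_lit 490000, nat_lit 780000, nat_lit 1100000], [nat_lit 78, nat_lit 40, nat_lit 40, nat_lit 80, nat_lit 22, nat_lit 272, nat_lit 60, nat_lit 11]⟩, ⟨p095_k14, nat_lit 0, nat_lit 0, nat_lit 38, nat_lit 0, nat_lit 0, [nat_lit 3282000000, nat_lit 4688000000], [], [nat_lit 15564806870, nat_lit 16448999913,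 nat_lit 19203418648, nat_lit 19920672880, nat_lit 22996975925, nat_lit 23630932120, nat_lit 25189674678, nat_lit 25749332157], nat_lit 0, nat_lit 0, nat_lit 0, nat_lit 0, nat_lit 0, nat_lit 0, [], [nat_lit 40, nat_lit 40, nat_lit 40, nat_lit 80, nat_lit 22, nat_lit 272, nat_lit 60, nat_lit 11]⟩,
 zbF0, [⟨nat_lit 0, nat_lit 85, nat_lit 81, nat_lit 100, nat_lit 420423623⟩, ⟨nat_lit 16, nat_lit 87, nat_lit 95, nat_lit 100, nat_lit 417596003⟩, ⟨nat_lit 19, nat_lit 91, nat_lit 91, nat_lit 100, nat_lit 455748111⟩]⟩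
noncomputable def p095_l20 : Lf2 := ⟨nat_lit 0, nat_lit 5, [nat_lit 4, nat_lit 5, nat_lit 5, nat_lit 20], false, nat_lit 160, nat_lit 300, nat_lit 160, nat_lit 320, ⟨nat_lit 1000, nat_lit 0, nat_lit 0, nat_lit 0, nat_lit 0, nat_lit 0, nat_lit 0, nat_lit 0, nat_lit 0, nat_lit 0, nat_lit 0, nat_lit 0, nat_lit 0, nat_lit 0, nat_lit 0, nat_lit 0, false, false⟩,
 nat_lit 0, nat_lit 8030, nat_lit 0, nat_lit 0, nat_lit 6022, nat_lit 4946, nat_lit 937, nat_lit 0, nat_lit 0, nat_lit 0, nat_lit 0, nat_lit 0, nat_lit 0, nat_lit 0, nat_lit 0, nat_lit 0, nat_lit 0, nat_lit 0, [],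
 ⟨p095_k15, nat_lit 0, nat_lit 0, nat_lit 378, nat_lit 0, nat_lit 878915, [nat_lit 2032000001, nat_lit 3282000000, nat_lit 6250000000], [], [nat_lit 21850205777, nat_lit 20855345577, nat_lit 22146024633, nat_lit 22585590015, nat_lit 23912887356, nat_lit 24351966170, nat_lit 26278445650, nat_lit 26389008077], nat_lit 1271250, nat_lit 1271250, nat_lit 780000, nat_lit 1762500, nat_lit 1100001, nat_lit 2298750, [nat_lit 490000, nat_lit 780000, nat_lit 1435000], [nat_lit 85, nat_lit 40, nat_lit 40, nat_lit 80, nat_lit 16, nat_lit 373, nat_lit 150, nat_lit 13]⟩, ⟨p095_k16, nat_lit 0, nat_lit 0, nat_lit 51, nat_lit 0, nat_lit 0, [nat_lit 3282000000, nat_lit 4688000000, nat_lit 6250000000], [], [nat_lit 14440201544, nat_lit 16238714256, nat_lit 18502939472, nat_lit 19934820960, nat_lit 22762024444, nat_lit 24048636072, nat_lit 25061537980, nat_lit 26146084448], nat_lit 0, nat_lit 0, nat_lit 0, nat_lit 0, nat_lit 0, nat_lit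 0, [], [nat_lit 59, nat_lit 40, nat_lit 40, nat_lit 80, nat_lit 3, nat_lit 373, nat_lit 150, nat_lit 14]⟩,
 zbF0, [⟨nat_lit 0, nat_lit 88, nat_lit 82, nat_lit 100, nat_lit 424021881⟩, ⟨nat_lit 16, nat_lit 87, nat_lit 95, nat_lit 100, nat_lit 340256344⟩, ⟨nat_lit 19, nat_lit 94, nat_lit 88, nat_lit 100, nat_lit 445363991⟩]⟩
noncomputable def p095_l21 : Lf2 := ⟨nat_lit 0, nat_lit 10, [nat_lit 0, nat_lit 5, nat_lit 5, nat_lit 20], false, nat_lit 160, nat_lit 300, nat_lit 160, nat_lit 320, ⟨nat_lit 1000, nat_lit 0, nat_lit 0, nat_lit 0, nat_lit 0, nat_lit 0, nat_lit 0, nat_lit 0, nat_lit 0, nat_lit 0, nat_lit 0, nat_lit 0, nat_lit 0, nat_lit 0, nat_lit 0, nat_lit 0, false, false⟩,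
 nat_lit 0, nat_lit 7728, nat_lit 0, nat_lit 0, nat_lit 5795, nat_lit 4925, nat_lit 975, nat_lit 0, nat_lit 0, nat_lit 0, nat_lit 0, nat_lit 0, nat_lit 0, nat_lit 0, nat_lit 0, nat_lit 0, nat_lit 0, nat_lit 0, [],
 ⟨p095_k6, nat_lit 0, nat_lit 0, nat_lit 321, nat_lit 0, nat_lit 731565, [nat_lit 2032000001, nat_lit 3282000000, nat_lit 6250000000], [], [nat_lit 21980774361, nat_lit 20505080496, nat_lit 21723267161, nat_lit 22211156611, nat_lit 23700831330, nat_lit 24187224065, nat_lit 26493844282, nat_lit 26258572572], nat_lit 1271250, nat_lit 1271250, nat_lit 780000, nat_lit 1762500, nat_lit 1100001, nat_lit 2298750, [nat_lit 490000, nat_lit 780000, nat_lit 1435000], [nat_lit 85, nat_lit 40, nat_lit 40, nat_lit 80, nat_lit 16, nat_lit 373, nat_lit 150, nat_lit 13]⟩, ⟨p095_k17, nat_lit 0, nat_lit 0, nat_lit 51, nat_lit 0, nat_lit 0, [nat_lit 3282000000, nat_lit 4688000000, nat_lit 7968000000], [], [nat_lit 14464150700,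 nat_lit 16258207800, nat_lit 18523661600, nat_lit 19952298000, nat_lit 22771301950, nat_lit 24032690100, nat_lit 25073179750, nat_lit 26133604400], nat_lit 0, nat_lit 0, nat_lit 0, nat_lit 0, nat_lit 0, nat_lit 0, [], [nat_lit 36, nat_lit 40, nat_lit 40, nat_lit 80, nat_lit 7, nat_lit 373, nat_lit 150, nat_lit 12]⟩,
 zbF0, [⟨nat_lit 0, nat_lit 88, nat_lit 82, nat_lit 100, nat_lit 403484207⟩, ⟨nat_lit 16, nat_lit 87, nat_lit 95, nat_lit 100, nat_lit 329341992⟩, ⟨nat_lit 19, nat_lit 94, nat_lit 88, nat_lit 100, nat_lit 444346398⟩]⟩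
noncomputable def p095_l22 : Lf2 := ⟨nat_lit 0, nat_lit 10, [nat_lit 0, nat_lit 5, nat_lit 5, nat_lit 20], false, nat_lit 160, nat_lit 288, nat_lit 160, nat_lit 320, ⟨nat_lit 1000, nat_lit 0, nat_lit 0, nat_lit 0, nat_lit 0, nat_lit 0, nat_lit 0, nat_lit 0, nat_lit 0, nat_lit 0, nat_lit 0, nat_lit 0, nat_lit 0, nat_lit 0, nat_lit 0, nat_lit 0, false, false⟩,
 nat_lit 0, nat_lit 6500, nat_lit 0, nat_lit 0, nat_lit 5066, nat_lit 5023, nat_lit 2126, nat_lit 0, nat_lit 0, nat_lit 0, nat_lit 0, nat_lit 0, nat_lit 0, nat_lit 0, nat_lit 0, nat_lit 0, nat_lit 0, nat_lit 0, [],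
 ⟨p095_k18, nat_lit 0, nat_lit 0, nat_lit 455, nat_lit 0, nat_lit 1063540, [nat_lit 2032000001, nat_lit 3282000000, nat_lit 6250000000], [], [nat_lit 19585540872, nat_lit 20135132073, nat_lit 21744842642, nat_lit 22225448581, nat_lit 23186395298, nat_lit 23809946242, nat_lit 25244554193, nat_lit 25913164991], nat_lit 1271250, nat_lit 1271250, nat_lit 872850, nat_lit 1769250, nat_lit 1100001, nat_lit 2196000, [nat_lit 490000, nat_lit 780000, nat_lit 1435000], [nat_lit 85, nat_lit 40, nat_lit 40, nat_lit 80, nat_lit 16, nat_lit 373, nat_lit 150, nat_lit 13]⟩, ⟨p095_k17, nat_lit 0, nat_lit 0, nat_lit 49, nat_lit 0, nat_lit 0, [nat_lit 3282000000, nat_lit 4688000000, nat_lit 7968000000], [], [nat_lit 14611584919, nat_lit 16392386649, nat_lit 18426958336, nat_lit 19870738480, nat_lit 22832629023, nat_lit 24173066911, nat_lit 25093135584, nat_lit 26191844624], nat_lit 0, nat_lit 0, nat_lit 0, nat_lit 0, nat_lit 0, nat_lit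 0, [], [nat_lit 36, nat_lit 40, nat_lit 40, nat_lit 80, nat_lit 7, nat_lit 373, nat_lit 150, nat_lit 11]⟩,
 zbF0, [⟨nat_lit 0, nat_lit 92, nat_lit 81, nat_lit 100, nat_lit 379659199⟩, ⟨nat_lit 16, nat_lit 83, nat_lit 98, nat_lit 100, nat_lit 430555339⟩, ⟨nat_lit 19, nat_lit 94, nat_lit 88, nat_lit 100, nat_lit 460459490⟩]⟩
noncomputable def p095_l23 : Lf2 := ⟨nat_lit 0, nat_lit 10, [nat_lit 0, nat_lit 5, nat_lit 5, nat_lit 20], false, nat_lit 160, nat_lit 276, nat_lit 160, nat_lit 336, ⟨nat_lit 834, nat_lit 166, nat_lit 0, nat_lit 7, nat_lit 233, nat_lit 166, nat_lit 167, nat_lit 0, nat_lit 0, nat_lit 0, nat_lit 0, nat_lit 0, nat_lit 0, nat_lit 0, nat_lit 0, nat_lit 5000000, false, false⟩,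
 nat_lit 0, nat_lit 6119, nat_lit 0, nat_lit 0, nat_lit 4953, nat_lit 4172, nat_lit 1146, nat_lit 0, nat_lit 0, nat_lit 0, nat_lit 0, nat_lit 0, nat_lit 0, nat_lit 0, nat_lit 0, nat_lit 66400, nat_lit 0, nat_lit 0, [(nat_lit 21, [(nat_lit 1, nat_lit 166)])],
 ⟨p095_k2, nat_lit 0, nat_lit 0, nat_lit 521, nat_lit 0, nat_lit 1164010, [nat_lit 1919651200, nat_lit 4157596800, nat_lit 5460172000], [], [nat_lit 20478951806, nat_lit 21515995838, nat_lit 22676397038, nat_lit 23612095452, nat_lit 23534383640, nat_lit 24646128787, nat_lit 25276228952, nat_lit 26638043386], nat_lit 1271250, nat_lit 1271250, nat_lit 810650, nat_lit 1764750, nat_lit 1100001, nat_lit 2093250, [nat_lit 490000, nat_lit 1100000, nat_lit 1442500], [nat_lit 6, nat_lit 40, nat_lit 40, nat_lit 80, nat_lit 3, nat_lit 373, nat_lit 150, nat_lit 13]⟩, ⟨p095_k1, nat_lit 0, nat_lit 0, nat_lit 69, nat_lit 0, nat_lit 0, [nat_lit 2737188000, nat_lit 5212500000,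 nat_lit 8208228000], [], [nat_lit 10561096872, nat_lit 13562104782, nat_lit 14183580360, nat_lit 16586495440, nat_lit 18999888949, nat_lit 21140439356, nat_lit 20942560122, nat_lit 22681355447], nat_lit 0, nat_lit 0, nat_lit 0, nat_lit 0, nat_lit 0, nat_lit 0, [], [nat_lit 8, nat_lit 40, nat_lit 40, nat_lit 80, nat_lit 1, nat_lit 373, nat_lit 150, nat_lit 10]⟩,
 ⟨nat_lit 3162, nat_lit 3873, ⟨.ofNat (nat_lit 464406), .ofNat (nat_lit 651611), .ofNat (nat_lit 507934), .ofNat (nat_lit 695141), .ofNat (nat_lit 472632), .ofNat (nat_lit 649490), .ofNat (nat_lit 516884), .ofNat (nat_lit 693742)⟩, ⟨.ofNat (nat_lit 304717), .ofNat (nat_lit 491830), .ofNat (nat_lit 348304), .ofNat (nat_lit 535416), .ofNat (nat_lit 306116), .ofNat (nat_lit 482881), .ofNat (nat_lit 350426), .ofNat (nat_lit 527190)⟩⟩, [⟨nat_lit 0, nat_lit 88, nat_lit 67, nat_lit 100, nat_lit 390101300⟩, ⟨nat_lit 16, nat_lit 77, nat_lit 100, nat_lit 99, nat_lit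 426617540⟩, ⟨nat_lit 19, nat_lit 100, nat_lit 80, nat_lit 100, nat_lit 363742764⟩]⟩
noncomputable def b_V_800_700_20_24 : St := ⟨true, nat_lit 1, nat_lit 0, nat_lit 2, nat_lit 120, nat_lit 320, nat_lit 360, nat_lit 280, nat_lit 320, nat_lit 100, nat_lit 240, nat_lit 80, nat_lit 120, nat_lit 0, nat_lit 300, nat_lit 0, nat_lit 336, nat_lit 0, nat_lit 40, nat_lit 0, nat_lit 0, nat_lit 0, nat_lit 0⟩
theorem d_V_800_700_20_24 (h : EB TB.env) : Dead b_V_800_700_20_24 := chkB_sound0 h (T :=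
(.spl (nat_lit 5) (nat_lit 160)
(.spl (nat_lit 4) (nat_lit 160)
(.spl (nat_lit 0) (nat_lit 340)
(.leaf p095_l0)
(.trZ (nat_lit 0) (nat_lit 99) (nat_lit 77) (nat_lit 100) (nat_lit 124) (.leaf p095_l1)))
(.spl (nat_lit 1) (nat_lit 300)
(.leaf p095_l2)
(.trZ (nat_lit 0) (nat_lit 94) (nat_lit 87) (nat_lit 100) (nat_lit 120) (.leaf p095_l3))))
(.spl (nat_lit 4) (nat_lit 160)
(.spl (nat_lit 0) (nat_lit 340)
(.spl (nat_lit 0) (nat_lit 330)
(.spl (nat_lit 2) (nat_lit 160)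
(.spl (nat_lit 3) (nat_lit 100)
(.trX (nat_lit 19) (nat_lit 100) (nat_lit 88) (nat_lit 94) (nat_lit 320) (.leaf p095_l4))
(.leaf p095_l5))
(.spl (nat_lit 0) (nat_lit 325)
(.leaf p095_l6)
(.leaf p095_l7)))
(.trZ (nat_lit 0) (nat_lit 100) (nat_lit 83) (nat_lit 98) (nat_lit 112) (.leaf p095_l8)))
(.trZ (nat_lit 0) (nat_lit 99) (nat_lit 77) (nat_lit 100) (nat_lit 124) (.leaf p095_l9)))
(.spl (nat_lit 0) (nat_lit 340)
(.spl (nat_lit 1) (nat_lit 300)
(.spl (nat_lit 2) (nat_lit 160)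
(.spl (nat_lit 0) (nat_lit 330)
(.spl (nat_lit 0) (nat_lit 325)
(.spl (nat_lit 0) (nat_lit 323)
(.leaf p095_l10)
(.trZ (nat_lit 0) (nat_lit 100) (nat_lit 86) (nat_lit 96) (nat_lit 104) (.trX (nat_lit 16) (nat_lit 86) (nat_lit 96) (nat_lit 100) (nat_lit 296) (.leaf p095_l11))))
(.trZ (nat_lit 0) (nat_lit 100) (nat_lit 85) (nat_lit 97) (nat_lit 104) (.trX (nat_lit 16) (nat_lit 85) (nat_lit 97) (nat_lit 100) (nat_lit 296) (.leaf p095_l12))))
(.trZ (nat_lit 0) (nat_lit 100) (nat_lit 83) (nat_lit 98) (nat_lit 112) (.trX (nat_lit 16) (nat_lit 83) (nat_lit 98) (nat_lit 100) (nat_lit 288) (.leaf p095_l13))))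
(.leaf p095_l14))
(.trZ (nat_lit 0) (nat_lit 94) (nat_lit 87) (nat_lit 100) (nat_lit 120) (.trX (nat_lit 19) (nat_lit 94) (nat_lit 88) (nat_lit 100) (nat_lit 320) (.spl (nat_lit 0) (nat_lit 330)
(.spl (nat_lit 6) (nat_lit 20)
(.spl (nat_lit 6) (nat_lit 8)
(.spl (nat_lit 3) (nat_lit 100)
(.trX (nat_lit 16) (nat_lit 87) (nat_lit 100) (nat_lit 94) (nat_lit 280) (.trX (nat_lit 19) (nat_lit 100) (nat_lit 100) (nat_lit 100) (nat_lit 300) (.spl (nat_lit 6) (nat_lit 4)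
(.leaf p095_l15)
(.spl (nat_lit 2) (nat_lit 160)
(.leaf p095_l16)
(.leaf p095_l17)))))
(.spl (nat_lit 1) (nat_lit 310)
(.leaf p095_l18)
(.trZ (nat_lit 0) (nat_lit 89) (nat_lit 85) (nat_lit 100) (nat_lit 132) (.trX (nat_lit 19) (nat_lit 91) (nat_lit 91) (nat_lit 100) (nat_lit 312) (.leaf p095_l19)))))
(.leaf p095_l20))
(.leaf p095_l21))
(.trZ (nat_lit 0) (nat_lit 92) (nat_lit 81) (nat_lit 100) (nat_lit 132) (.trX (nat_lit 16) (nat_lit 83) (nat_lit 98) (nat_lit 100) (nat_lit 288) (.leaf p095_l22)))))))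
(.trZ (nat_lit 0) (nat_lit 99) (nat_lit 77) (nat_lit 100) (nat_lit 124) (.trX (nat_lit 16) (nat_lit 77) (nat_lit 100) (nat_lit 99) (nat_lit 276) (.leaf p095_l23))))))) (by decide +kernel)
noncomputable def p095_l24 : Lf2 := ⟨nat_lit 0, nat_lit 10, [nat_lit 0, nat_lit 5, nat_lit 5, nat_lit 20], false, nat_lit 0, nat_lit 160, nat_lit 0, nat_lit 160, ⟨nat_lit 1000, nat_lit 0, nat_lit 0, nat_lit 0, nat_lit 0, nat_lit 0, nat_lit 0, nat_lit 0, nat_lit 0, nat_lit 0, nat_lit 0, nat_lit 0, nat_lit 0, nat_lit 0, nat_lit 0, nat_lit 0, false, false⟩,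
 nat_lit 0, nat_lit 8359, nat_lit 0, nat_lit 0, nat_lit 6268, nat_lit 6683, nat_lit 425, nat_lit 0, nat_lit 0, nat_lit 990, nat_lit 0, nat_lit 0, nat_lit 0, nat_lit 0, nat_lit 0, nat_lit 0, nat_lit 0, nat_lit 0, [],
 ⟨p095_k0, nat_lit 0, nat_lit 0, nat_lit 562, nat_lit 0, nat_lit 1121998, [nat_lit 2032000001, nat_lit 4688000000, nat_lit 6250000000], [], [nat_lit 33704608208, nat_lit 34412406256, nat_lit 38810262608, nat_lit 40198572432, nat_lit 31136725762, nat_lit 31679647386, nat_lit 35070722928, nat_lit 35517601160], nat_lit 1271250, nat_lit 1271250, nat_lit 1271250, nat_lit 1271250, nat_lit 0, nat_lit 1100001, [nat_lit 490000, nat_lit 1100000, nat_lit 1442500], [nat_lit 6, nat_lit 40, nat_lit 40, nat_lit 80, nat_lit 3, nat_lit 253, nat_lit 40, nat_lit 9]⟩, ⟨p095_k1, nat_lit 0, nat_lit 0, nat_lit 219, nat_lit 0, nat_lit 0, [nat_lit 3282000000, nat_lit 6250000000, nat_lit 9842000000], [], [nat_lit 27777149238,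 nat_lit 30011683274, nat_lit 37505756728, nat_lit 39971331348, nat_lit 23860920566, nat_lit 26033275408, nat_lit 32350320424, nat_lit 33711694056], nat_lit 0, nat_lit 0, nat_lit 0, nat_lit 0, nat_lit 0, nat_lit 0, [], [nat_lit 8, nat_lit 40, nat_lit 40, nat_lit 80, nat_lit 1, nat_lit 373, nat_lit 150, nat_lit 10]⟩,
 zbF0, []⟩
noncomputable def p095_l25 : Lf2 := ⟨nat_lit 0, nat_lit 10, [nat_lit 0, nat_lit 5, nat_lit 5, nat_lit 20], false, nat_lit 0, nat_lit 160, nat_lit 160, nat_lit 336, ⟨nat_lit 1000, nat_lit 0, nat_lit 0, nat_lit 0, nat_lit 0, nat_lit 0, nat_lit 0, nat_lit 0, nat_lit 0, nat_lit 0, nat_lit 0, nat_lit 0, nat_lit 0, nat_lit 0, nat_lit 0, nat_lit 0, false, false⟩,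
 nat_lit 0, nat_lit 8359, nat_lit 0, nat_lit 0, nat_lit 6268, nat_lit 7715, nat_lit 439, nat_lit 0, nat_lit 0, nat_lit 0, nat_lit 0, nat_lit 0, nat_lit 0, nat_lit 0, nat_lit 0, nat_lit 0, nat_lit 0, nat_lit 0, [],
 ⟨p095_k0, nat_lit 0, nat_lit 0, nat_lit 507, nat_lit 0, nat_lit 960761, [nat_lit 2032000001, nat_lit 4688000000, nat_lit 6250000000], [], [nat_lit 33491991680, nat_lit 34249928232, nat_lit 38810262608, nat_lit 40198572432, nat_lit 30977239457, nat_lit 31597433720, nat_lit 35070722928, nat_lit 35517601160], nat_lit 1271250, nat_lit 1271250, nat_lit 1271250, nat_lit 1271250, nat_lit 0, nat_lit 1100001, [nat_lit 490000, nat_lit 1100000, nat_lit 1442500], [nat_lit 6, nat_lit 40, nat_lit 40, nat_lit 80, nat_lit 3, nat_lit 249, nat_lit 40, nat_lit 9]⟩, ⟨p095_k1, nat_lit 0, nat_lit 0, nat_lit 86, nat_lit 0, nat_lit 0, [nat_lit 3282000000, nat_lit 6250000000, nat_lit 9842000000], [], [nat_lit 18593389200, nat_lit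 20194453870, nat_lit 31272250920, nat_lit 32436041440, nat_lit 26800387488, nat_lit 27802018481, nat_lit 36272025469, nat_lit 36978605753], nat_lit 0, nat_lit 0, nat_lit 0, nat_lit 0, nat_lit 0, nat_lit 0, [], [nat_lit 8, nat_lit 40, nat_lit 40, nat_lit 80, nat_lit 1, nat_lit 428, nat_lit 200, nat_lit 11]⟩,
 zbF0, [⟨nat_lit 7, nat_lit 94, nat_lit 100, nat_lit 97, nat_lit 376300839⟩]⟩
noncomputable def p095_l26 : Lf2 := ⟨nat_lit 0, nat_lit 10, [nat_lit 0, nat_lit 5, nat_lit 5, nat_lit 20], false, nat_lit 0, nat_lit 160, nat_lit 160, nat_lit 320, ⟨nat_lit 1000, nat_lit 0, nat_lit 0, nat_lit 0, nat_lit 0, nat_lit 0, nat_lit 0, nat_lit 0, nat_lit 0, nat_lit 0, nat_lit 0, nat_lit 0, nat_lit 0, nat_lit 0, nat_lit 0, nat_lit 0, false, false⟩,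
 nat_lit 0, nat_lit 8359, nat_lit 0, nat_lit 0, nat_lit 6268, nat_lit 5140, nat_lit 425, nat_lit 0, nat_lit 0, nat_lit 2566, nat_lit 0, nat_lit 0, nat_lit 0, nat_lit 0, nat_lit 0, nat_lit 0, nat_lit 0, nat_lit 0, [],
 ⟨p095_k0, nat_lit 0, nat_lit 0, nat_lit 562, nat_lit 0, nat_lit 1121998, [nat_lit 2032000001, nat_lit 4688000000, nat_lit 6250000000], [], [nat_lit 33704608208, nat_lit 34412406256, nat_lit 38810262608, nat_lit 40198572432, nat_lit 31136725762, nat_lit 31679647386, nat_lit 35070722928, nat_lit 35517601160], nat_lit 1271250, nat_lit 1271250, nat_lit 1271250, nat_lit 1271250, nat_lit 0, nat_lit 1100001, [nat_lit 490000, nat_lit 1100000, nat_lit 1442500], [nat_lit 6, nat_lit 40, nat_lit 40, nat_lit 80, nat_lit 3, nat_lit 253, nat_lit 40, nat_lit 9]⟩, ⟨p095_k3, nat_lit 0, nat_lit 0, nat_lit 90, nat_lit 0, nat_lit 0, [nat_lit 3282000000, nat_lit 6250000000, nat_lit 7968000000], [], [nat_lit 19339343560,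 nat_lit 20642457760, nat_lit 29384110240, nat_lit 30353416160, nat_lit 25353227040, nat_lit 26263131680, nat_lit 33148945840, nat_lit 33821615680], nat_lit 0, nat_lit 0, nat_lit 0, nat_lit 0, nat_lit 0, nat_lit 0, [], [nat_lit 18, nat_lit 40, nat_lit 40, nat_lit 80, nat_lit 2, nat_lit 317, nat_lit 100, nat_lit 9]⟩,
 zbF0, [⟨nat_lit 7, nat_lit 100, nat_lit 93, nat_lit 97, nat_lit 427551373⟩]⟩
noncomputable def p095_l27 : Lf2 := ⟨nat_lit 0, nat_lit 10, [nat_lit 0, nat_lit 5, nat_lit 5, nat_lit 20], false, nat_lit 160, nat_lit 300, nat_lit 0, nat_lit 336, ⟨nat_lit 1000, nat_lit 0, nat_lit 0, nat_lit 0, nat_lit 0, nat_lit 0, nat_lit 0, nat_lit 0, nat_lit 0, nat_lit 0, nat_lit 0, nat_lit 0, nat_lit 0, nat_lit 0, nat_lit 0, nat_lit 0, false, false⟩,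
 nat_lit 0, nat_lit 9141, nat_lit 0, nat_lit 0, nat_lit 6855, nat_lit 7828, nat_lit 495, nat_lit 0, nat_lit 0, nat_lit 979, nat_lit 0, nat_lit 0, nat_lit 0, nat_lit 0, nat_lit 0, nat_lit 0, nat_lit 0, nat_lit 0, [],
 ⟨p095_k0, nat_lit 0, nat_lit 0, nat_lit 338, nat_lit 0, nat_lit 798955, [nat_lit 2032000001, nat_lit 4688000000, nat_lit 6250000000], [], [nat_lit 24322107680, nat_lit 24797356050, nat_lit 26993836380, nat_lit 27414493255, nat_lit 27188758005, nat_lit 27569141958, nat_lit 30020432570, nat_lit 30638492112], nat_lit 1271250, nat_lit 1271250, nat_lit 1271250, nat_lit 1271250, nat_lit 1100001, nat_lit 2298750, [nat_lit 490000, nat_lit 1100000, nat_lit 1442500], [nat_lit 6, nat_lit 40, nat_lit 40, nat_lit 80, nat_lit 3, nat_lit 289, nat_lit 75, nat_lit 9]⟩, ⟨p095_k1, nat_lit 0, nat_lit 0, nat_lit 184, nat_lit 0, nat_lit 0, [nat_lit 3282000000, nat_lit 6250000000, nat_lit 9842000000], [], [nat_lit 25548251455,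 nat_lit 26333286331, nat_lit 30700261039, nat_lit 31313576695, nat_lit 26718187130, nat_lit 27222457533, nat_lit 30760059271, nat_lit 31264915900], nat_lit 0, nat_lit 0, nat_lit 0, nat_lit 0, nat_lit 0, nat_lit 0, [], [nat_lit 8, nat_lit 40, nat_lit 40, nat_lit 80, nat_lit 1, nat_lit 401, nat_lit 175, nat_lit 11]⟩,
 zbF0, [⟨nat_lit 16, nat_lit 84, nat_lit 100, nat_lit 93, nat_lit 277134364⟩, ⟨nat_lit 16, nat_lit 87, nat_lit 95, nat_lit 100, nat_lit 117378604⟩, ⟨nat_lit 19, nat_lit 100, nat_lit 80, nat_lit 100, nat_lit 188698763⟩]⟩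
noncomputable def p095_l28 : Lf2 := ⟨nat_lit 0, nat_lit 10, [nat_lit 0, nat_lit 5, nat_lit 5, nat_lit 20], false, nat_lit 160, nat_lit 300, nat_lit 16, nat_lit 336, ⟨nat_lit 1000, nat_lit 0, nat_lit 0, nat_lit 0, nat_lit 0, nat_lit 0, nat_lit 0, nat_lit 0, nat_lit 0, nat_lit 0, nat_lit 0, nat_lit 0, nat_lit 0, nat_lit 0, nat_lit 0, nat_lit 0, false, false⟩,
 nat_lit 0, nat_lit 8094, nat_lit 0, nat_lit 0, nat_lit 6070, nat_lit 6425, nat_lit 406, nat_lit 0, nat_lit 0, nat_lit 867, nat_lit 0, nat_lit 0, nat_lit 0, nat_lit 0, nat_lit 0, nat_lit 0, nat_lit 0, nat_lit 0, [],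
 ⟨p095_k0, nat_lit 0, nat_lit 0, nat_lit 353, nat_lit 0, nat_lit 798955, [nat_lit 2032000001, nat_lit 4688000000, nat_lit 6250000000], [], [nat_lit 30123198640, nat_lit 30471765900, nat_lit 33087300720, nat_lit 33383594290, nat_lit 31882520000, nat_lit 32171924033, nat_lit 34434624830, nat_lit 34752168998], nat_lit 1271250, nat_lit 1271250, nat_lit 1271250, nat_lit 1271250, nat_lit 1100001, nat_lit 2298750, [nat_lit 490000, nat_lit 1100000, nat_lit 1442500], [nat_lit 6, nat_lit 40, nat_lit 40, nat_lit 80, nat_lit 3, nat_lit 289, nat_lit 75, nat_lit 9]⟩, ⟨p095_k1, nat_lit 0, nat_lit 0, nat_lit 204, nat_lit 0, nat_lit 0, [nat_lit 3282000000, nat_lit 6250000000, nat_lit 9842000000], [], [nat_lit 29850311875, nat_lit 30400595186, nat_lit 35684966720, nat_lit 36286697616, nat_lit 30761671680, nat_lit 31129452660, nat_lit 34810451201, nat_lit 35080062856], nat_lit 0, nat_lit 0, nat_lit 0, nat_lit 0, nat_lit 0, nat_lit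 0, [], [nat_lit 8, nat_lit 40, nat_lit 40, nat_lit 80, nat_lit 1, nat_lit 317, nat_lit 100, nat_lit 8]⟩,
 zbF0, [⟨nat_lit 16, nat_lit 84, nat_lit 100, nat_lit 93, nat_lit 12247292⟩, ⟨nat_lit 16, nat_lit 87, nat_lit 95, nat_lit 100, nat_lit 297761411⟩, ⟨nat_lit 19, nat_lit 100, nat_lit 80, nat_lit 100, nat_lit 174409546⟩]⟩
noncomputable def p095_l29 : Lf2 := ⟨nat_lit 0, nat_lit 10, [nat_lit 0, nat_lit 5, nat_lit 5, nat_lit 20], false, nat_lit 160, nat_lit 300, nat_lit 0, nat_lit 328, ⟨nat_lit 1000, nat_lit 0, nat_lit 0, nat_lit 0, nat_lit 0, nat_lit 0, nat_lit 0, nat_lit 0, nat_lit 0, nat_lit 0, nat_lit 0, nat_lit 0, nat_lit 0, nat_lit 0, nat_lit 0, nat_lit 0, false, false⟩,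
 nat_lit 0, nat_lit 8414, nat_lit 0, nat_lit 0, nat_lit 6310, nat_lit 5894, nat_lit 438, nat_lit 0, nat_lit 0, nat_lit 2374, nat_lit 0, nat_lit 0, nat_lit 0, nat_lit 0, nat_lit 0, nat_lit 0, nat_lit 0, nat_lit 0, [],
 ⟨p095_k0, nat_lit 0, nat_lit 0, nat_lit 364, nat_lit 0, nat_lit 831907, [nat_lit 2032000001, nat_lit 4688000000, nat_lit 6250000000], [], [nat_lit 26753746200, nat_lit 26966595435, nat_lit 32293649920, nat_lit 32454270885, nat_lit 29158424770, nat_lit 29330290463, nat_lit 34588826580, nat_lit 34814436499], nat_lit 1271250, nat_lit 1271250, nat_lit 1271250, nat_lit 1271250, nat_lit 1100001, nat_lit 2298750, [nat_lit 490000, nat_lit 1100000, nat_lit 1442500], [nat_lit 6, nat_lit 40, nat_lit 40, nat_lit 80, nat_lit 3, nat_lit 289, nat_lit 75, nat_lit 9]⟩, ⟨p095_k19, nat_lit 0, nat_lit 0, nat_lit 196, nat_lit 0, nat_lit 0, [nat_lit 3282000000, nat_lit 6250000000, nat_lit 7968000000], [], [nat_lit 22347903876,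 nat_lit 23113017912, nat_lit 36021910494, nat_lit 36602574284, nat_lit 25851701779, nat_lit 26308460990, nat_lit 34058045504, nat_lit 34396753694], nat_lit 0, nat_lit 0, nat_lit 0, nat_lit 0, nat_lit 0, nat_lit 0, [], [nat_lit 18, nat_lit 40, nat_lit 40, nat_lit 80, nat_lit 2, nat_lit 317, nat_lit 100, nat_lit 10]⟩,
 zbF0, [⟨nat_lit 16, nat_lit 87, nat_lit 95, nat_lit 100, nat_lit 349460849⟩, ⟨nat_lit 19, nat_lit 97, nat_lit 84, nat_lit 100, nat_lit 31056476⟩, ⟨nat_lit 7, nat_lit 97, nat_lit 100, nat_lit 98, nat_lit 126202700⟩]⟩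
noncomputable def p095_l30 : Lf2 := ⟨nat_lit 0, nat_lit 10, [nat_lit 0, nat_lit 5, nat_lit 5, nat_lit 20], false, nat_lit 160, nat_lit 296, nat_lit 0, nat_lit 328, ⟨nat_lit 1000, nat_lit 0, nat_lit 0, nat_lit 0, nat_lit 0, nat_lit 0, nat_lit 0, nat_lit 0, nat_lit 0, nat_lit 0, nat_lit 0, nat_lit 0, nat_lit 0, nat_lit 0, nat_lit 0, nat_lit 0, false, false⟩,
 nat_lit 0, nat_lit 7508, nat_lit 0, nat_lit 0, nat_lit 5741, nat_lit 5937, nat_lit 1689, nat_lit 0, nat_lit 0, nat_lit 764, nat_lit 0, nat_lit 0, nat_lit 0, nat_lit 0, nat_lit 0, nat_lit 0, nat_lit 0, nat_lit 0, [],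
 ⟨p095_k4, nat_lit 0, nat_lit 0, nat_lit 370, nat_lit 0, nat_lit 851054, [nat_lit 2032000001, nat_lit 4688000000, nat_lit 6250000000], [], [nat_lit 24528618351, nat_lit 24746484553, nat_lit 31402210986, nat_lit 31693298668, nat_lit 27206931614, nat_lit 27386277006, nat_lit 34019774586, nat_lit 34239332683], nat_lit 1271250, nat_lit 1271250, nat_lit 1271250, nat_lit 1271250, nat_lit 1100001, nat_lit 2264500, [nat_lit 490000, nat_lit 1100000, nat_lit 1442500], [nat_lit 6, nat_lit 40, nat_lit 40, nat_lit 80, nat_lit 3, nat_lit 289, nat_lit 75, nat_lit 9]⟩, ⟨p095_k19, nat_lit 0, nat_lit 0, nat_lit 196, nat_lit 0, nat_lit 0, [nat_lit 3282000000, nat_lit 6250000000, nat_lit 7968000000], [], [nat_lit 24775440165, nat_lit 25522785754, nat_lit 36136372237, nat_lit 36718983282, nat_lit 27378902186, nat_lit 27798723150, nat_lit 34174102866, nat_lit 34448242107], nat_lit 0, nat_lit 0, nat_lit 0, nat_lit 0, nat_lit 0, nat_lit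 0, [], [nat_lit 18, nat_lit 40, nat_lit 40, nat_lit 80, nat_lit 2, nat_lit 317, nat_lit 100, nat_lit 10]⟩,
 zbF0, [⟨nat_lit 16, nat_lit 85, nat_lit 97, nat_lit 100, nat_lit 367357046⟩, ⟨nat_lit 19, nat_lit 97, nat_lit 84, nat_lit 100, nat_lit 157550613⟩]⟩
noncomputable def p095_l31 : Lf2 := ⟨nat_lit 0, nat_lit 10, [nat_lit 0, nat_lit 5, nat_lit 5, nat_lit 20], false, nat_lit 160, nat_lit 288, nat_lit 0, nat_lit 336, ⟨nat_lit 1000, nat_lit 0, nat_lit 0, nat_lit 0, nat_lit 0, nat_lit 0, nat_lit 0, nat_lit 0, nat_lit 0, nat_lit 0, nat_lit 0, nat_lit 0, nat_lit 0, nat_lit 0, nat_lit 0, nat_lit 0, false, false⟩,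
 nat_lit 0, nat_lit 6768, nat_lit 0, nat_lit 0, nat_lit 5275, nat_lit 6380, nat_lit 1302, nat_lit 0, nat_lit 0, nat_lit 866, nat_lit 0, nat_lit 0, nat_lit 0, nat_lit 0, nat_lit 0, nat_lit 0, nat_lit 0, nat_lit 0, [],
 ⟨p095_k5, nat_lit 0, nat_lit 0, nat_lit 401, nat_lit 0, nat_lit 910907, [nat_lit 2032000001, nat_lit 4688000000, nat_lit 6250000000], [], [nat_lit 24709598152, nat_lit 25101537202, nat_lit 31082769700, nat_lit 31641922800, nat_lit 26879112732, nat_lit 27189697662, nat_lit 33448592655, nat_lit 33882296071], nat_lit 1271250, nat_lit 1271250, nat_lit 1271250, nat_lit 1271250, nat_lit 1100001, nat_lit 2196000, [nat_lit 490000, nat_lit 1100000, nat_lit 1442500], [nat_lit 6, nat_lit 40, nat_lit 40, nat_lit 80, nat_lit 3, nat_lit 289, nat_lit 75, nat_lit 9]⟩, ⟨p095_k1, nat_lit 0, nat_lit 0, nat_lit 217, nat_lit 0, nat_lit 0, [nat_lit 3282000000, nat_lit 6250000000, nat_lit 9842000000], [], [nat_lit 26042517050,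 nat_lit 27439211970, nat_lit 36712922080, nat_lit 37918266680, nat_lit 27931892106, nat_lit 28691512961, nat_lit 34822607681, nat_lit 35361258536], nat_lit 0, nat_lit 0, nat_lit 0, nat_lit 0, nat_lit 0, nat_lit 0, [], [nat_lit 8, nat_lit 40, nat_lit 40, nat_lit 80, nat_lit 1, nat_lit 428, nat_lit 200, nat_lit 12]⟩,
 zbF0, [⟨nat_lit 16, nat_lit 83, nat_lit 98, nat_lit 100, nat_lit 359357993⟩, ⟨nat_lit 19, nat_lit 100, nat_lit 94, nat_lit 97, nat_lit 156003881⟩]⟩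
noncomputable def p095_l32 : Lf2 := ⟨nat_lit 0, nat_lit 10, [nat_lit 0, nat_lit 5, nat_lit 5, nat_lit 20], false, nat_lit 160, nat_lit 300, nat_lit 0, nat_lit 160, ⟨nat_lit 1000, nat_lit 0, nat_lit 0, nat_lit 0, nat_lit 0, nat_lit 0, nat_lit 0, nat_lit 0, nat_lit 0, nat_lit 0, nat_lit 0, nat_lit 0, nat_lit 0, nat_lit 0, nat_lit 0, nat_lit 0, false, false⟩,
 nat_lit 0, nat_lit 7777, nat_lit 0, nat_lit 0, nat_lit 5832, nat_lit 5088, nat_lit 458, nat_lit 0, nat_lit 0, nat_lit 2210, nat_lit 0, nat_lit 0, nat_lit 0, nat_lit 0, nat_lit 0, nat_lit 0, nat_lit 0, nat_lit 0, [],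
 ⟨p095_k0, nat_lit 0, nat_lit 0, nat_lit 473, nat_lit 0, nat_lit 1121998, [nat_lit 2032000001, nat_lit 4688000000, nat_lit 6250000000], [], [nat_lit 31027235362, nat_lit 31667286802, nat_lit 35463177856, nat_lit 35991329456, nat_lit 32973558890, nat_lit 33495175894, nat_lit 36555202264, nat_lit 36951575044], nat_lit 1271250, nat_lit 1271250, nat_lit 1271250, nat_lit 1271250, nat_lit 1100001, nat_lit 2298750, [nat_lit 490000, nat_lit 1100000, nat_lit 1442500], [nat_lit 6, nat_lit 40, nat_lit 40, nat_lit 80, nat_lit 3, nat_lit 289, nat_lit 75, nat_lit 9]⟩, ⟨p095_k3, nat_lit 0, nat_lit 0, nat_lit 199, nat_lit 0, nat_lit 0, [nat_lit 3282000000, nat_lit 6250000000, nat_lit 7968000000], [], [nat_lit 22625336972, nat_lit 23717247670, nat_lit 34420582368, nat_lit 35508910528, nat_lit 21050996614, nat_lit 22060233398, nat_lit 29322479008, nat_lit 30287857472], nat_lit 0, nat_lit 0, nat_lit 0, nat_lit 0, nat_lit 0, nat_lit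 0, [], [nat_lit 18, nat_lit 40, nat_lit 40, nat_lit 80, nat_lit 2, nat_lit 249, nat_lit 40, nat_lit 8]⟩,
 zbF0, [⟨nat_lit 4, nat_lit 100, nat_lit 81, nat_lit 92, nat_lit 382318233⟩]⟩
noncomputable def p095_l33 : Lf2 := ⟨nat_lit 0, nat_lit 10, [nat_lit 0, nat_lit 5, nat_lit 5, nat_lit 20], false, nat_lit 160, nat_lit 280, nat_lit 160, nat_lit 300, ⟨nat_lit 1000, nat_lit 0, nat_lit 0, nat_lit 0, nat_lit 0, nat_lit 0, nat_lit 0, nat_lit 0, nat_lit 0, nat_lit 0, nat_lit 0, nat_lit 0, nat_lit 0, nat_lit 0, nat_lit 0, nat_lit 0, false, false⟩,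
 nat_lit 0, nat_lit 8773, nat_lit 0, nat_lit 0, nat_lit 6579, nat_lit 5233, nat_lit 470, nat_lit 0, nat_lit 0, nat_lit 2538, nat_lit 0, nat_lit 0, nat_lit 0, nat_lit 0, nat_lit 0, nat_lit 0, nat_lit 0, nat_lit 0, [],
 ⟨p095_k0, nat_lit 0, nat_lit 0, nat_lit 421, nat_lit 0, nat_lit 973116, [nat_lit 2032000001, nat_lit 4688000000, nat_lit 6250000000], [], [nat_lit 27297211040, nat_lit 27490513792, nat_lit 32376654532, nat_lit 32512530145, nat_lit 29114951252, nat_lit 29278290785, nat_lit 34273331396, nat_lit 34515569960], nat_lit 1271250, nat_lit 1271250, nat_lit 1271250, nat_lit 1271250, nat_lit 1100001, nat_lit 2127500, [nat_lit 490000, nat_lit 1100000, nat_lit 1442500], [nat_lit 6, nat_lit 40, nat_lit 40, nat_lit 80, nat_lit 3, nat_lit 289, nat_lit 75, nat_lit 9]⟩, ⟨p095_k3, nat_lit 0, nat_lit 0, nat_lit 90, nat_lit 0, nat_lit 0, [nat_lit 3282000000, nat_lit 6250000000, nat_lit 7968000000], [], [nat_lit 19167810082,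 nat_lit 20483221672, nat_lit 29494335328, nat_lit 30470665352, nat_lit 24308653834, nat_lit 25277121991, nat_lit 32612199991, nat_lit 33328501794], nat_lit 0, nat_lit 0, nat_lit 0, nat_lit 0, nat_lit 0, nat_lit 0, [], [nat_lit 18, nat_lit 40, nat_lit 40, nat_lit 80, nat_lit 2, nat_lit 289, nat_lit 75, nat_lit 8]⟩,
 zbF0, [⟨nat_lit 16, nat_lit 87, nat_lit 100, nat_lit 94, nat_lit 353757393⟩, ⟨nat_lit 7, nat_lit 100, nat_lit 91, nat_lit 91, nat_lit 388467089⟩]⟩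
noncomputable def p095_l34 : Lf2 := ⟨nat_lit 0, nat_lit 10, [nat_lit 0, nat_lit 5, nat_lit 5, nat_lit 20], false, nat_lit 160, nat_lit 276, nat_lit 160, nat_lit 300, ⟨nat_lit 1000, nat_lit 0, nat_lit 0, nat_lit 0, nat_lit 0, nat_lit 0, nat_lit 0, nat_lit 0, nat_lit 0, nat_lit 0, nat_lit 0, nat_lit 0, nat_lit 0, nat_lit 0, nat_lit 0, nat_lit 0, false, false⟩,
 nat_lit 0, nat_lit 7054, nat_lit 0, nat_lit 0, nat_lit 5394, nat_lit 6882, nat_lit 2333, nat_lit 0, nat_lit 0, nat_lit 0, nat_lit 0, nat_lit 0, nat_lit 0, nat_lit 0, nat_lit 0, nat_lit 0, nat_lit 0, nat_lit 0, [],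
 ⟨p095_k4, nat_lit 0, nat_lit 0, nat_lit 426, nat_lit 0, nat_lit 985075, [nat_lit 2032000001, nat_lit 4688000000, nat_lit 6250000000], [], [nat_lit 26038256865, nat_lit 26216185809, nat_lit 30956161224, nat_lit 31238677312, nat_lit 27704320208, nat_lit 27848700192, nat_lit 33013777819, nat_lit 33238984470], nat_lit 1271250, nat_lit 1271250, nat_lit 1271250, nat_lit 1271250, nat_lit 1100001, nat_lit 2093250, [nat_lit 490000, nat_lit 1100000, nat_lit 1442500], [nat_lit 6, nat_lit 40, nat_lit 40, nat_lit 80, nat_lit 3, nat_lit 289, nat_lit 75, nat_lit 9]⟩, ⟨p095_k3, nat_lit 0, nat_lit 0, nat_lit 90, nat_lit 0, nat_lit 0, [nat_lit 3282000000, nat_lit 6250000000, nat_lit 7968000000], [], [nat_lit 21070588276, nat_lit 22566246792, nat_lit 31673256952, nat_lit 32550953456, nat_lit 26358894233, nat_lit 27426686078, nat_lit 34479657037, nat_lit 35258191276], nat_lit 0, nat_lit 0, nat_lit 0, nat_lit 0, nat_lit 0, nat_lit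 0, [], [nat_lit 18, nat_lit 40, nat_lit 40, nat_lit 80, nat_lit 2, nat_lit 289, nat_lit 75, nat_lit 8]⟩,
 zbF0, [⟨nat_lit 16, nat_lit 84, nat_lit 100, nat_lit 93, nat_lit 363722763⟩, ⟨nat_lit 7, nat_lit 100, nat_lit 91, nat_lit 91, nat_lit 382026588⟩]⟩
noncomputable def p095_l35 : Lf2 := ⟨nat_lit 0, nat_lit 10, [nat_lit 0, nat_lit 5, nat_lit 5, nat_lit 20], false, nat_lit 160, nat_lit 300, nat_lit 160, nat_lit 320, ⟨nat_lit 1000, nat_lit 0, nat_lit 0, nat_lit 0, nat_lit 0, nat_lit 0, nat_lit 0, nat_lit 0, nat_lit 0, nat_lit 0, nat_lit 0, nat_lit 0, nat_lit 0, nat_lit 0, nat_lit 0, nat_lit 0, false, false⟩,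
 nat_lit 0, nat_lit 9049, nat_lit 0, nat_lit 0, nat_lit 6786, nat_lit 4859, nat_lit 500, nat_lit 0, nat_lit 0, nat_lit 0, nat_lit 0, nat_lit 0, nat_lit 0, nat_lit 0, nat_lit 0, nat_lit 0, nat_lit 0, nat_lit 0, [],
 ⟨p095_k0, nat_lit 0, nat_lit 0, nat_lit 361, nat_lit 0, nat_lit 867971, [nat_lit 2032000001, nat_lit 4688000000, nat_lit 6250000000], [], [nat_lit 24553183776, nat_lit 24789212940, nat_lit 27232496616, nat_lit 27441889241, nat_lit 27436583166, nat_lit 27626000428, nat_lit 29968397324, nat_lit 30275783834], nat_lit 1271250, nat_lit 1271250, nat_lit 1271250, nat_lit 1271250, nat_lit 1100001, nat_lit 2298750, [nat_lit 490000, nat_lit 1100000, nat_lit 1442500], [nat_lit 6, nat_lit 40, nat_lit 40, nat_lit 80, nat_lit 3, nat_lit 289, nat_lit 75, nat_lit 9]⟩, ⟨p095_k3, nat_lit 0, nat_lit 0, nat_lit 60, nat_lit 0, nat_lit 0, [nat_lit 3282000000, nat_lit 6250000000, nat_lit 7968000000], [], [nat_lit 18588788288,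 nat_lit 20007225840, nat_lit 23167038114, nat_lit 24314184928, nat_lit 25109768170, nat_lit 26094519924, nat_lit 28445018604, nat_lit 29322114344], nat_lit 0, nat_lit 0, nat_lit 0, nat_lit 0, nat_lit 0, nat_lit 0, [], [nat_lit 18, nat_lit 40, nat_lit 40, nat_lit 80, nat_lit 2, nat_lit 317, nat_lit 100, nat_lit 9]⟩,
 zbF0, [⟨nat_lit 16, nat_lit 87, nat_lit 95, nat_lit 100, nat_lit 368900799⟩, ⟨nat_lit 7, nat_lit 97, nat_lit 94, nat_lit 100, nat_lit 439981998⟩]⟩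
noncomputable def p095_l36 : Lf2 := ⟨nat_lit 0, nat_lit 10, [nat_lit 0, nat_lit 5, nat_lit 5, nat_lit 20], false, nat_lit 160, nat_lit 296, nat_lit 160, nat_lit 320, ⟨nat_lit 1000, nat_lit 0, nat_lit 0, nat_lit 0, nat_lit 0, nat_lit 0, nat_lit 0, nat_lit 0, nat_lit 0, nat_lit 0, nat_lit 0, nat_lit 0, nat_lit 0, nat_lit 0, nat_lit 0, nat_lit 0, false, false⟩,
 nat_lit 0, nat_lit 7339, nat_lit 0, nat_lit 0, nat_lit 5612, nat_lit 4859, nat_lit 2481, nat_lit 0, nat_lit 0, nat_lit 0, nat_lit 0, nat_lit 0, nat_lit 0, nat_lit 0, nat_lit 0, nat_lit 0, nat_lit 0, nat_lit 0, [],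
 ⟨p095_k4, nat_lit 0, nat_lit 0, nat_lit 367, nat_lit 0, nat_lit 882598, [nat_lit 2032000001, nat_lit 4688000000, nat_lit 6250000000], [], [nat_lit 23158221201, nat_lit 23373904465, nat_lit 25532249722, nat_lit 25725719972, nat_lit 25768479276, nat_lit 25946346793, nat_lit 29195999424, nat_lit 29478365757], nat_lit 1271250, nat_lit 1271250, nat_lit 1271250, nat_lit 1271250, nat_lit 1100001, nat_lit 2264500, [nat_lit 490000, nat_lit 1100000, nat_lit 1442500], [nat_lit 6, nat_lit 40, nat_lit 40, nat_lit 80, nat_lit 3, nat_lit 289, nat_lit 75, nat_lit 9]⟩, ⟨p095_k3, nat_lit 0, nat_lit 0, nat_lit 60, nat_lit 0, nat_lit 0, [nat_lit 3282000000, nat_lit 6250000000, nat_lit 7968000000], [], [nat_lit 18588788288, nat_lit 20007225840, nat_lit 23167038114, nat_lit 24314184928, nat_lit 25109768170, nat_lit 26094519924, nat_lit 28445018604, nat_lit 29322114344], nat_lit 0, nat_lit 0, nat_lit 0, nat_lit 0, nat_lit 0, nat_lit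 0, [], [nat_lit 18, nat_lit 40, nat_lit 40, nat_lit 80, nat_lit 2, nat_lit 317, nat_lit 100, nat_lit 9]⟩,
 zbF0, [⟨nat_lit 16, nat_lit 85, nat_lit 97, nat_lit 100, nat_lit 368506145⟩, ⟨nat_lit 7, nat_lit 97, nat_lit 94, nat_lit 100, nat_lit 409514427⟩]⟩
noncomputable def p095_l37 : Lf2 := ⟨nat_lit 0, nat_lit 10, [nat_lit 0, nat_lit 5, nat_lit 5, nat_lit 20], false, nat_lit 160, nat_lit 300, nat_lit 160, nat_lit 320, ⟨nat_lit 1000, nat_lit 0, nat_lit 0, nat_lit 0, nat_lit 0, nat_lit 0, nat_lit 0, nat_lit 0, nat_lit 0, nat_lit 0, nat_lit 0, nat_lit 0, nat_lit 0, nat_lit 0, nat_lit 0, nat_lit 0, false, false⟩,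
 nat_lit 0, nat_lit 8070, nat_lit 0, nat_lit 0, nat_lit 6052, nat_lit 4744, nat_lit 465, nat_lit 0, nat_lit 0, nat_lit 2322, nat_lit 0, nat_lit 0, nat_lit 0, nat_lit 0, nat_lit 0, nat_lit 0, nat_lit 0, nat_lit 0, [],
 ⟨p095_k0, nat_lit 0, nat_lit 0, nat_lit 397, nat_lit 0, nat_lit 906718, [nat_lit 2032000001, nat_lit 4688000000, nat_lit 6250000000], [], [nat_lit 29771288112, nat_lit 30170163612, nat_lit 33123782464, nat_lit 33440844020, nat_lit 31934627636, nat_lit 32235704067, nat_lit 34496174588, nat_lit 34733554842], nat_lit 1271250, nat_lit 1271250, nat_lit 1271250, nat_lit 1271250, nat_lit 1100001, nat_lit 2298750, [nat_lit 490000, nat_lit 1100000, nat_lit 1442500], [nat_lit 6, nat_lit 40, nat_lit 40, nat_lit 80, nat_lit 3, nat_lit 289, nat_lit 75, nat_lit 9]⟩, ⟨p095_k3, nat_lit 0, nat_lit 0, nat_lit 90, nat_lit 0, nat_lit 0, [nat_lit 3282000000, nat_lit 6250000000, nat_lit 7968000000], [], [nat_lit 24143379968,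 nat_lit 25165587680, nat_lit 29031138384, nat_lit 29854161536, nat_lit 28782848288, nat_lit 29508542240, nat_lit 32690316064, nat_lit 33350410528], nat_lit 0, nat_lit 0, nat_lit 0, nat_lit 0, nat_lit 0, nat_lit 0, [], [nat_lit 18, nat_lit 40, nat_lit 40, nat_lit 80, nat_lit 2, nat_lit 317, nat_lit 100, nat_lit 9]⟩,
 zbF0, [⟨nat_lit 4, nat_lit 100, nat_lit 86, nat_lit 98, nat_lit 315363499⟩, ⟨nat_lit 7, nat_lit 97, nat_lit 94, nat_lit 100, nat_lit 355061328⟩]⟩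
noncomputable def p095_l38 : Lf2 := ⟨nat_lit 0, nat_lit 10, [nat_lit 0, nat_lit 5, nat_lit 5, nat_lit 20], false, nat_lit 160, nat_lit 288, nat_lit 160, nat_lit 320, ⟨nat_lit 1000, nat_lit 0, nat_lit 0, nat_lit 0, nat_lit 0, nat_lit 0, nat_lit 0, nat_lit 0, nat_lit 0, nat_lit 0, nat_lit 0, nat_lit 0, nat_lit 0, nat_lit 0, nat_lit 0, nat_lit 0, false, false⟩,
 nat_lit 0, nat_lit 6189, nat_lit 0, nat_lit 0, nat_lit 4824, nat_lit 6616, nat_lit 1829, nat_lit 0, nat_lit 0, nat_lit 197, nat_lit 0, nat_lit 0, nat_lit 0, nat_lit 0, nat_lit 0, nat_lit 0, nat_lit 0, nat_lit 0, [],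
 ⟨p095_k5, nat_lit 0, nat_lit 0, nat_lit 453, nat_lit 0, nat_lit 1063540, [nat_lit 2032000001, nat_lit 4688000000, nat_lit 6250000000], [], [nat_lit 25212561316, nat_lit 25577576204, nat_lit 30491892952, nat_lit 31028764848, nat_lit 27377163512, nat_lit 27670351817, nat_lit 32912104613, nat_lit 33331759108], nat_lit 1271250, nat_lit 1271250, nat_lit 1271250, nat_lit 1271250, nat_lit 1100001, nat_lit 2196000, [nat_lit 490000, nat_lit 1100000, nat_lit 1442500], [nat_lit 6, nat_lit 40, nat_lit 40, nat_lit 80, nat_lit 3, nat_lit 289, nat_lit 75, nat_lit 9]⟩, ⟨p095_k3, nat_lit 0, nat_lit 0, nat_lit 90, nat_lit 0, nat_lit 0, [nat_lit 3282000000, nat_lit 6250000000, nat_lit 7968000000], [], [nat_lit 20975446663, nat_lit 22437446071, nat_lit 31351106151, nat_lit 32215084503, nat_lit 27167804903, nat_lit 28153319383, nat_lit 34858384096, nat_lit 35577925792], nat_lit 0, nat_lit 0, nat_lit 0, nat_lit 0, nat_lit 0, nat_lit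 0, [], [nat_lit 18, nat_lit 40, nat_lit 40, nat_lit 80, nat_lit 2, nat_lit 317, nat_lit 100, nat_lit 9]⟩,
 zbF0, [⟨nat_lit 16, nat_lit 83, nat_lit 98, nat_lit 100, nat_lit 359554233⟩, ⟨nat_lit 19, nat_lit 93, nat_lit 100, nat_lit 97, nat_lit 365383802⟩]⟩
noncomputable def p095_l39 : Lf2 := ⟨nat_lit 0, nat_lit 10, [nat_lit 0, nat_lit 5, nat_lit 5, nat_lit 20], false, nat_lit 0, nat_lit 276, nat_lit 0, nat_lit 336, ⟨nat_lit 1000, nat_lit 0, nat_lit 0, nat_lit 0, nat_lit 0, nat_lit 0, nat_lit 0, nat_lit 0, nat_lit 0, nat_lit 0, nat_lit 0, nat_lit 0, nat_lit 0, nat_lit 0, nat_lit 0, nat_lit 0, false, false⟩,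
 nat_lit 0, nat_lit 5777, nat_lit 0, nat_lit 0, nat_lit 4676, nat_lit 7789, nat_lit 1105, nat_lit 0, nat_lit 0, nat_lit 779, nat_lit 0, nat_lit 0, nat_lit 0, nat_lit 0, nat_lit 0, nat_lit 0, nat_lit 0, nat_lit 0, [],
 ⟨p095_k2, nat_lit 0, nat_lit 0, nat_lit 550, nat_lit 0, nat_lit 1085775, [nat_lit 2032000001, nat_lit 4688000000, nat_lit 6250000000], [], [nat_lit 27412425178, nat_lit 27823986458, nat_lit 35556262224, nat_lit 36156275808, nat_lit 28609671824, nat_lit 28925793916, nat_lit 32844366609, nat_lit 33245416384], nat_lit 1271250, nat_lit 1271250, nat_lit 1271250, nat_lit 1271250, nat_lit 0, nat_lit 1949250, [nat_lit 490000, nat_lit 1100000, nat_lit 1442500], [nat_lit 6, nat_lit 40, nat_lit 40, nat_lit 80, nat_lit 3, nat_lit 289, nat_lit 75, nat_lit 10]⟩, ⟨p095_k1, nat_lit 0, nat_lit 0, nat_lit 219, nat_lit 0, nat_lit 0, [nat_lit 3282000000, nat_lit 6250000000, nat_lit 9842000000], [], [nat_lit 28041169479,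 nat_lit 30459843667, nat_lit 40399734024, nat_lit 43065649484, nat_lit 27766299623, nat_lit 29140414364, nat_lit 36359758033, nat_lit 37776849126], nat_lit 0, nat_lit 0, nat_lit 0, nat_lit 0, nat_lit 0, nat_lit 0, [], [nat_lit 8, nat_lit 40, nat_lit 40, nat_lit 80, nat_lit 1, nat_lit 428, nat_lit 200, nat_lit 12]⟩,
 zbF0, [⟨nat_lit 16, nat_lit 71, nat_lit 100, nat_lit 89, nat_lit 193122026⟩, ⟨nat_lit 7, nat_lit 100, nat_lit 100, nat_lit 100, nat_lit 110693405⟩]⟩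
noncomputable def p095_l40 : Lf2 := ⟨nat_lit 0, nat_lit 10, [nat_lit 0, nat_lit 5, nat_lit 5, nat_lit 20], false, nat_lit 4, nat_lit 264, nat_lit 0, nat_lit 336, ⟨nat_lit 1000, nat_lit 0, nat_lit 0, nat_lit 0, nat_lit 0, nat_lit 0, nat_lit 0, nat_lit 0, nat_lit 0, nat_lit 0, nat_lit 0, nat_lit 0, nat_lit 0, nat_lit 0, nat_lit 0, nat_lit 0, false, false⟩,
 nat_lit 0, nat_lit 6005, nat_lit 0, nat_lit 0, nat_lit 5044, nat_lit 5965, nat_lit 710, nat_lit 0, nat_lit 0, nat_lit 846, nat_lit 0, nat_lit 0, nat_lit 0, nat_lit 0, nat_lit 0, nat_lit 0, nat_lit 0, nat_lit 0, [],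
 ⟨p095_k20, nat_lit 0, nat_lit 0, nat_lit 502, nat_lit 0, nat_lit 1106800, [nat_lit 2032000001, nat_lit 4688000000], [], [nat_lit 26609991125, nat_lit 27046945986, nat_lit 36709525684, nat_lit 37340281901, nat_lit 27437396765, nat_lit 27746494234, nat_lit 33148048956, nat_lit 33605688815], nat_lit 1271250, nat_lit 1271250, nat_lit 1271250, nat_lit 1271250, nat_lit 21650, nat_lit 1867650, [nat_lit 490000, nat_lit 1100000], [nat_lit 24, nat_lit 40, nat_lit 40, nat_lit 80, nat_lit 33, nat_lit 289, nat_lit 75, nat_lit 12]⟩, ⟨p095_k1, nat_lit 0, nat_lit 0, nat_lit 217, nat_lit 0, nat_lit 0, [nat_lit 3282000000, nat_lit 6250000000, nat_lit 9842000000], [], [nat_lit 26104942650, nat_lit 28798953270, nat_lit 35958659406, nat_lit 37572279114, nat_lit 28347901358, nat_lit 29862643073, nat_lit 34729162480, nat_lit 35814494282], nat_lit 0, nat_lit 0, nat_lit 0, nat_lit 0, nat_lit 0, nat_lit 0, [], [nat_lit 8, nat_lit 40, nat_lit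 40, nat_lit 80, nat_lit 1, nat_lit 428, nat_lit 200, nat_lit 12]⟩,
 zbF0, [⟨nat_lit 4, nat_lit 100, nat_lit 64, nat_lit 88, nat_lit 203720202⟩, ⟨nat_lit 7, nat_lit 100, nat_lit 100, nat_lit 100, nat_lit 163236215⟩]⟩
noncomputable def b_V_800_700_20_25 : St := ⟨true, nat_lit 1, nat_lit 0, nat_lit 2, nat_lit 120, nat_lit 320, nat_lit 360, nat_lit 280, nat_lit 320, nat_lit 240, nat_lit 400, nat_lit 80, nat_lit 120, nat_lit 0, nat_lit 300, nat_lit 0, nat_lit 336, nat_lit 0, nat_lit 40, nat_lit 0, nat_lit 0, nat_lit 0, nat_lit 0⟩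
theorem d_V_800_700_20_25 (h : EB TB.env) : Dead b_V_800_700_20_25 := chkB_sound0 h (T :=
(.spl (nat_lit 0) (nat_lit 340)
(.spl (nat_lit 4) (nat_lit 160)
(.spl (nat_lit 5) (nat_lit 160)
(.leaf p095_l24)
(.spl (nat_lit 1) (nat_lit 300)
(.leaf p095_l25)
(.trX (nat_lit 19) (nat_lit 94) (nat_lit 88) (nat_lit 100) (nat_lit 320) (.leaf p095_l26))))
(.spl (nat_lit 1) (nat_lit 300)
(.spl (nat_lit 0) (nat_lit 330)
(.spl (nat_lit 1) (nat_lit 290)
(.spl (nat_lit 2) (nat_lit 320)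
(.leaf p095_l27)
(.trZ (nat_lit 9) (nat_lit 100) (nat_lit 82) (nat_lit 44) (nat_lit 16) (.leaf p095_l28)))
(.trX (nat_lit 19) (nat_lit 97) (nat_lit 84) (nat_lit 100) (nat_lit 328) (.spl (nat_lit 0) (nat_lit 325)
(.leaf p095_l29)
(.trX (nat_lit 16) (nat_lit 85) (nat_lit 97) (nat_lit 100) (nat_lit 296) (.leaf p095_l30)))))
(.trX (nat_lit 16) (nat_lit 83) (nat_lit 98) (nat_lit 100) (nat_lit 288) (.leaf p095_l31)))
(.trX (nat_lit 19) (nat_lit 94) (nat_lit 88) (nat_lit 100) (nat_lit 320) (.spl (nat_lit 5) (nat_lit 160)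
(.leaf p095_l32)
(.spl (nat_lit 0) (nat_lit 330)
(.spl (nat_lit 3) (nat_lit 100)
(.trX (nat_lit 16) (nat_lit 87) (nat_lit 100) (nat_lit 94) (nat_lit 280) (.trX (nat_lit 19) (nat_lit 100) (nat_lit 100) (nat_lit 100) (nat_lit 300) (.spl (nat_lit 0) (nat_lit 325)
(.leaf p095_l33)
(.trX (nat_lit 16) (nat_lit 84) (nat_lit 100) (nat_lit 93) (nat_lit 276) (.leaf p095_l34)))))
(.spl (nat_lit 2) (nat_lit 320)
(.spl (nat_lit 0) (nat_lit 325)
(.leaf p095_l35)
(.trX (nat_lit 16) (nat_lit 85) (nat_lit 97) (nat_lit 100) (nat_lit 296) (.leaf p095_l36)))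
(.leaf p095_l37)))
(.trX (nat_lit 16) (nat_lit 83) (nat_lit 98) (nat_lit 100) (nat_lit 288) (.leaf p095_l38)))))))
(.trX (nat_lit 16) (nat_lit 77) (nat_lit 100) (nat_lit 99) (nat_lit 276) (.spl (nat_lit 0) (nat_lit 350)
(.leaf p095_l39)
(.trX (nat_lit 13) (nat_lit 83) (nat_lit 25) (nat_lit 100) (nat_lit 396) (.trZ (nat_lit 3) (nat_lit 100) (nat_lit 83) (nat_lit 25) (nat_lit 4) (.trX (nat_lit 16) (nat_lit 69) (nat_lit 100) (nat_lit 96) (nat_lit 264) (.leaf p095_l40)))))))) (by decide +kernel)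
noncomputable def p095_l41 : Lf2 := ⟨nat_lit 0, nat_lit 10, [nat_lit 0, nat_lit 5, nat_lit 5, nat_lit 20], false, nat_lit 0, nat_lit 160, nat_lit 0, nat_lit 336, ⟨nat_lit 213, nat_lit 787, nat_lit 0, nat_lit 7, nat_lit 224, nat_lit 787, nat_lit 65, nat_lit 0, nat_lit 0, nat_lit 0, nat_lit 0, nat_lit 0, nat_lit 0, nat_lit 0, nat_lit 0, nat_lit 5000000, false, false⟩,
 nat_lit 3529, nat_lit 2519, nat_lit 0, nat_lit 0, nat_lit 4536, nat_lit 2245, nat_lit 0, nat_lit 0, nat_lit 0, nat_lit 163, nat_lit 0, nat_lit 0, nat_lit 0, nat_lit 0, nat_lit 0, nat_lit 787000, nat_lit 0, nat_lit 0, [(nat_lit 18, [(nat_lit 2, nat_lit 787)]), (nat_lit 21, [(nat_lit 2, nat_lit 787)])],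
 ⟨p095_k0, nat_lit 0, nat_lit 0, nat_lit 436, nat_lit 0, nat_lit 731058, [nat_lit 1772185067, nat_lit 1821221334, nat_lit 982451600], [], [nat_lit 22201486535, nat_lit 23328746432, nat_lit 23041535438, nat_lit 26110929088, nat_lit 20299283534, nat_lit 22118862526, nat_lit 24857092781, nat_lit 23738738435], nat_lit 1271250, nat_lit 1271250, nat_lit 631250, nat_lit 1751250, nat_lit 0, nat_lit 1100001, [nat_lit 490000, nat_lit 1100000, nat_lit 1442500], [nat_lit 6, nat_lit 40, nat_lit 40, nat_lit 80, nat_lit 3, nat_lit 317, nat_lit 100, nat_lit 12]⟩, ⟨p095_k1, nat_lit 0, nat_lit 0, nat_lit 635, nat_lit 0, nat_lit 897468, [nat_lit 699066000, nat_lit 1331250000, nat_lit 2096346000], [], [nat_lit 10916765166, nat_lit 8524322546, nat_lit 5824193707, nat_lit 6631368759, nat_lit 5778084829, nat_lit 6652158480, nat_lit 8591278332, nat_lit 6619396052], nat_lit 1271250, nat_lit 1271250, nat_lit 631250, nat_lit 1751250, nat_lit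 0, nat_lit 2373000, [nat_lit 780000, nat_lit 1435000, nat_lit 1271250], [nat_lit 8, nat_lit 40, nat_lit 40, nat_lit 80, nat_lit 1, nat_lit 373, nat_lit 150, nat_lit 11]⟩,
 ⟨nat_lit 3162, nat_lit 4473, ⟨.ofNat (nat_lit 415764), .ofNat (nat_lit 653959), .ofNat (nat_lit 458716), .ofNat (nat_lit 696911), .ofNat (nat_lit 435680), .ofNat (nat_lit 649288), .ofNat (nat_lit 479808), .ofNat (nat_lit 693416)⟩, ⟨.ofNat (nat_lit 0), .ofNat (nat_lit 302621), .ofNat (nat_lit 0), .ofNat (nat_lit 345754), .ofNat (nat_lit 0), .ofNat (nat_lit 306116), .ofNat (nat_lit 0), .ofNat (nat_lit 350426)⟩⟩, [⟨nat_lit 7, nat_lit 100, nat_lit 100, nat_lit 100, nat_lit 12476220⟩]⟩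
noncomputable def p095_l42 : Lf2 := ⟨nat_lit 0, nat_lit 10, [nat_lit 0, nat_lit 5, nat_lit 5, nat_lit 20], false, nat_lit 160, nat_lit 300, nat_lit 0, nat_lit 336, ⟨nat_lit 0, nat_lit 1000, nat_lit 0, nat_lit 7, nat_lit 194, nat_lit 1000, nat_lit 176, nat_lit 0, nat_lit 0, nat_lit 0, nat_lit 0, nat_lit 0, nat_lit 0, nat_lit 0, nat_lit 0, nat_lit 5000000, false, false⟩,
 nat_lit 0, nat_lit 5510, nat_lit 0, nat_lit 0, nat_lit 4132, nat_lit 0, nat_lit 0, nat_lit 0, nat_lit 0, nat_lit 0, nat_lit 0, nat_lit 0, nat_lit 0, nat_lit 0, nat_lit 0, nat_lit 878800, nat_lit 0, nat_lit 0, [(nat_lit 18, [(nat_lit 1, nat_lit 202), (nat_lit 2, nat_lit 798)]), (nat_lit 21, [(nat_lit 1, nat_lit 202), (nat_lit 2, nat_lit 798)])],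
 ⟨p095_k0, nat_lit 0, nat_lit 0, nat_lit 317, nat_lit 0, nat_lit 663278, [nat_lit 1640512534, nat_lit 1231442667, nat_lit 42408000], [], [nat_lit 18375318201, nat_lit 20555250809, nat_lit 19019019197, nat_lit 21211845865, nat_lit 22734435175, nat_lit 25265000200, nat_lit 23204177053, nat_lit 25377566336], nat_lit 1271250, nat_lit 1271250, nat_lit 631250, nat_lit 1100001, nat_lit 1100001, nat_lit 2298750, [nat_lit 490000, nat_lit 1100000, nat_lit 1442500], [nat_lit 6, nat_lit 40, nat_lit 40, nat_lit 80, nat_lit 3, nat_lit 345, nat_lit 125, nat_lit 12]⟩, ⟨p095_k1, nat_lit 0, nat_lit 0, nat_lit 605, nat_lit 0, nat_lit 814259, [nat_lit 0, nat_lit 0, nat_lit 0], [], [nat_lit 0, nat_lit 0, nat_lit 0, nat_lit 0, nat_lit 0, nat_lit 0, nat_lit 0, nat_lit 0], nat_lit 1271250, nat_lit 1271250, nat_lit 631250, nat_lit 1100001, nat_lit 0, nat_lit 2373000, [nat_lit 780000, nat_lit 1435000, nat_lit 1271250], [nat_lit 8, nat_lit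 40, nat_lit 40, nat_lit 80, nat_lit 1, nat_lit 345, nat_lit 125, nat_lit 10]⟩,
 ⟨nat_lit 3162, nat_lit 4473, ⟨.ofNat (nat_lit 415764), .ofNat (nat_lit 517847), .ofNat (nat_lit 437240), .ofNat (nat_lit 539323), .ofNat (nat_lit 435680), .ofNat (nat_lit 527226), .ofNat (nat_lit 457744), .ofNat (nat_lit 549290)⟩, ⟨.ofNat (nat_lit 302621), .ofNat (nat_lit 540545), .ofNat (nat_lit 345754), .ofNat (nat_lit 583678), .ofNat (nat_lit 306116), .ofNat (nat_lit 519453), .ofNat (nat_lit 350426), .ofNat (nat_lit 563762)⟩⟩, [⟨nat_lit 4, nat_lit 100, nat_lit 74, nat_lit 90, nat_lit 356910163⟩]⟩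
noncomputable def p095_l43 : Lf2 := ⟨nat_lit 0, nat_lit 10, [nat_lit 0, nat_lit 5, nat_lit 5, nat_lit 20], false, nat_lit 160, nat_lit 300, nat_lit 0, nat_lit 336, ⟨nat_lit 252, nat_lit 748, nat_lit 0, nat_lit 7, nat_lit 239, nat_lit 748, nat_lit 176, nat_lit 0, nat_lit 0, nat_lit 0, nat_lit 0, nat_lit 0, nat_lit 0, nat_lit 0, nat_lit 0, nat_lit 5000000, false, false⟩,
 nat_lit 5331, nat_lit 351, nat_lit 0, nat_lit 0, nat_lit 4261, nat_lit 3392, nat_lit 0, nat_lit 0, nat_lit 0, nat_lit 129, nat_lit 0, nat_lit 0, nat_lit 0, nat_lit 0, nat_lit 0, nat_lit 748000, nat_lit 0, nat_lit 0, [(nat_lit 18, [(nat_lit 2, nat_lit 748)]), (nat_lit 21, [(nat_lit 2, nat_lit 748)])],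
 ⟨p095_k0, nat_lit 0, nat_lit 0, nat_lit 294, nat_lit 0, nat_lit 663278, [nat_lit 1785060267, nat_lit 1963285334, nat_lit 1243486400], [], [nat_lit 20361889489, nat_lit 22327628025, nat_lit 22096566325, nat_lit 23927456425, nat_lit 24101895448, nat_lit 25772349037, nat_lit 25475717330, nat_lit 27163578528], nat_lit 1271250, nat_lit 1271250, nat_lit 1100001, nat_lit 1785000, nat_lit 1100001, nat_lit 2298750, [nat_lit 490000, nat_lit 1100000, nat_lit 1442500], [nat_lit 6, nat_lit 40, nat_lit 40, nat_lit 80, nat_lit 3, nat_lit 373, nat_lit 150, nat_lit 13]⟩, ⟨p095_k1, nat_lit 0, nat_lit 0, nat_lit 581, nat_lit 0, nat_lit 814259, [nat_lit 827064000, nat_lit 1575000000, nat_lit 2480184000], [], [nat_lit 9023973712, nat_lit 7257494736, nat_lit 7415180373, nat_lit 7985477032, nat_lit 6910777895, nat_lit 7466569015, nat_lit 9347118858, nat_lit 7885988538], nat_lit 1271250, nat_lit 1271250, nat_lit 1100001, nat_lit 1785000,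 nat_lit 0, nat_lit 2373000, [nat_lit 780000, nat_lit 1435000, nat_lit 1271250], [nat_lit 8, nat_lit 40, nat_lit 40, nat_lit 80, nat_lit 1, nat_lit 373, nat_lit 150, nat_lit 11]⟩,
 ⟨nat_lit 3162, nat_lit 4473, ⟨.ofNat (nat_lit 517847), .ofNat (nat_lit 653959), .ofNat (nat_lit 539323), .ofNat (nat_lit 675435), .ofNat (nat_lit 527226), .ofNat (nat_lit 649288), .ofNat (nat_lit 549290), .ofNat (nat_lit 671352)⟩, ⟨.ofNat (nat_lit 302621), .ofNat (nat_lit 540545), .ofNat (nat_lit 345754), .ofNat (nat_lit 583678), .ofNat (nat_lit 306116), .ofNat (nat_lit 519453), .ofNat (nat_lit 350426), .ofNat (nat_lit 563762)⟩⟩, [⟨nat_lit 4, nat_lit 100, nat_lit 74, nat_lit 90, nat_lit 363410125⟩, ⟨nat_lit 19, nat_lit 100, nat_lit 80, nat_lit 100, nat_lit 46399480⟩]⟩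
noncomputable def p095_l44 : Lf2 := ⟨nat_lit 0, nat_lit 10, [nat_lit 0, nat_lit 5, nat_lit 5, nat_lit 20], false, nat_lit 160, nat_lit 300, nat_lit 0, nat_lit 320, ⟨nat_lit 311, nat_lit 689, nat_lit 0, nat_lit 7, nat_lit 235, nat_lit 689, nat_lit 176, nat_lit 0, nat_lit 0, nat_lit 0, nat_lit 0, nat_lit 0, nat_lit 0, nat_lit 0, nat_lit 0, nat_lit 5000000, false, false⟩,
 nat_lit 3776, nat_lit 2443, nat_lit 0, nat_lit 0, nat_lit 4664, nat_lit 2614, nat_lit 69, nat_lit 0, nat_lit 0, nat_lit 427, nat_lit 0, nat_lit 0, nat_lit 0, nat_lit 0, nat_lit 0, nat_lit 689000, nat_lit 0, nat_lit 0, [(nat_lit 18, [(nat_lit 2, nat_lit 689)]), (nat_lit 21, [(nat_lit 2, nat_lit 689)])],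
 ⟨p095_k0, nat_lit 0, nat_lit 0, nat_lit 334, nat_lit 0, nat_lit 731058, [nat_lit 1804538134, nat_lit 2178202667, nat_lit 1638385200], [], [nat_lit 19630986061, nat_lit 21770315757, nat_lit 21858669901, nat_lit 23627119053, nat_lit 23509910461, nat_lit 25654515216, nat_lit 24986821000, nat_lit 27474310872], nat_lit 1271250, nat_lit 1271250, nat_lit 780000, nat_lit 1762500, nat_lit 1100001, nat_lit 2298750, [nat_lit 490000, nat_lit 1100000, nat_lit 1442500], [nat_lit 6, nat_lit 40, nat_lit 40, nat_lit 80, nat_lit 3, nat_lit 373, nat_lit 150, nat_lit 13]⟩, ⟨p095_k3, nat_lit 0, nat_lit 0, nat_lit 520, nat_lit 0, nat_lit 807288, [nat_lit 1020702000, nat_lit 1943750000, nat_lit 2478048000], [], [nat_lit 10973017985, nat_lit 9590896853, nat_lit 7878131382, nat_lit 8696694540, nat_lit 7725787860, nat_lit 8296010628, nat_lit 9888222724, nat_lit 8770763728], nat_lit 1271250, nat_lit 1271250, nat_lit 780000, nat_lit 1762500,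 nat_lit 0, nat_lit 2260000, [nat_lit 780000, nat_lit 1435000, nat_lit 1271250], [nat_lit 18, nat_lit 40, nat_lit 40, nat_lit 80, nat_lit 2, nat_lit 373, nat_lit 150, nat_lit 12]⟩,
 ⟨nat_lit 3162, nat_lit 4473, ⟨.ofNat (nat_lit 471268), .ofNat (nat_lit 675435), .ofNat (nat_lit 492744), .ofNat (nat_lit 696911), .ofNat (nat_lit 488260), .ofNat (nat_lit 671352), .ofNat (nat_lit 510324), .ofNat (nat_lit 693416)⟩, ⟨.ofNat (nat_lit 302621), .ofNat (nat_lit 540545), .ofNat (nat_lit 345754), .ofNat (nat_lit 583678), .ofNat (nat_lit 306116), .ofNat (nat_lit 519453), .ofNat (nat_lit 350426), .ofNat (nat_lit 563762)⟩⟩, [⟨nat_lit 0, nat_lit 85, nat_lit 73, nat_lit 100, nat_lit 35845123⟩, ⟨nat_lit 16, nat_lit 87, nat_lit 95, nat_lit 100, nat_lit 307674180⟩, ⟨nat_lit 7, nat_lit 100, nat_lit 93, nat_lit 97, nat_lit 41539318⟩]⟩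
noncomputable def p095_l45 : Lf2 := ⟨nat_lit 0, nat_lit 10, [nat_lit 0, nat_lit 5, nat_lit 5, nat_lit 20], false, nat_lit 0, nat_lit 160, nat_lit 0, nat_lit 336, ⟨nat_lit 578, nat_lit 422, nat_lit 0, nat_lit 7, nat_lit 323, nat_lit 422, nat_lit 65, nat_lit 0, nat_lit 0, nat_lit 0, nat_lit 0, nat_lit 0, nat_lit 0, nat_lit 0, nat_lit 0, nat_lit 5000000, true, true⟩,
 nat_lit 6394, nat_lit 0, nat_lit 0, nat_lit 0, nat_lit 4795, nat_lit 4068, nat_lit 180, nat_lit 0, nat_lit 0, nat_lit 401, nat_lit 0, nat_lit 0, nat_lit 0, nat_lit 0, nat_lit 0, nat_lit 422000, nat_lit 0, nat_lit 0, [(nat_lit 18, [(nat_lit 2, nat_lit 422)])],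
 ⟨p095_k0, nat_lit 0, nat_lit 0, nat_lit 381, nat_lit 0, nat_lit 634173, [nat_lit 1892683734, nat_lit 3150794667, nat_lit 3425469600], [], [nat_lit 27755876249, nat_lit 28596233289, nat_lit 34689168020, nat_lit 35903269080, nat_lit 26589094809, nat_lit 27302179696, nat_lit 31374331976, nat_lit 31900656016], nat_lit 1271250, nat_lit 1271250, nat_lit 1271250, nat_lit 1271250, nat_lit 0, nat_lit 1100001, [nat_lit 490000, nat_lit 1100000, nat_lit 1442500], [nat_lit 6, nat_lit 40, nat_lit 40, nat_lit 80, nat_lit 3, nat_lit 249, nat_lit 40, nat_lit 9]⟩, ⟨p095_k1, nat_lit 0, nat_lit 0, nat_lit 527, nat_lit 0, nat_lit 778529, [nat_lit 1896996000, nat_lit 3612500000, nat_lit 5688676000], [], [nat_lit 19855677989, nat_lit 20636150797, nat_lit 22876772872, nat_lit 23677601792, nat_lit 19097876036, nat_lit 19587956519, nat_lit 21024497042, nat_lit 21297375136], nat_lit 1271250, nat_lit 1271250, nat_lit 1271250, nat_lit 1271250,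 nat_lit 0, nat_lit 2373000, [nat_lit 780000, nat_lit 1435000, nat_lit 1271250], [nat_lit 8, nat_lit 40, nat_lit 40, nat_lit 80, nat_lit 1, nat_lit 428, nat_lit 200, nat_lit 12]⟩,
 ⟨nat_lit 3872, nat_lit 4473, ⟨.ofNat (nat_lit 654181), .ofNat (nat_lit 926124), .ofNat (nat_lit 697279), .ofNat (nat_lit 969223), .ofNat (nat_lit 651631), .ofNat (nat_lit 909748), .ofNat (nat_lit 695183), .ofNat (nat_lit 953301)⟩, ⟨.ofNat (nat_lit 0), .ofNat (nat_lit 302621), .ofNat (nat_lit 0), .ofNat (nat_lit 345754), .ofNat (nat_lit 0), .ofNat (nat_lit 304717), .ofNat (nat_lit 0), .ofNat (nat_lit 348304)⟩⟩, [⟨nat_lit 7, nat_lit 100, nat_lit 100, nat_lit 100, nat_lit 74181495⟩]⟩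
noncomputable def p095_l46 : Lf2 := ⟨nat_lit 0, nat_lit 10, [nat_lit 0, nat_lit 5, nat_lit 5, nat_lit 20], false, nat_lit 160, nat_lit 300, nat_lit 0, nat_lit 336, ⟨nat_lit 528, nat_lit 472, nat_lit 0, nat_lit 7, nat_lit 319, nat_lit 472, nat_lit 177, nat_lit 0, nat_lit 0, nat_lit 0, nat_lit 0, nat_lit 0, nat_lit 0, nat_lit 0, nat_lit 0, nat_lit 5000000, true, true⟩,
 nat_lit 5910, nat_lit 0, nat_lit 0, nat_lit 0, nat_lit 4432, nat_lit 3760, nat_lit 125, nat_lit 0, nat_lit 0, nat_lit 349, nat_lit 0, nat_lit 0, nat_lit 0, nat_lit 0, nat_lit 0, nat_lit 472000, nat_lit 0, nat_lit 0, [(nat_lit 18, [(nat_lit 2, nat_lit 472)])],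
 ⟨p095_k0, nat_lit 0, nat_lit 0, nat_lit 267, nat_lit 0, nat_lit 558207, [nat_lit 1876177067, nat_lit 2968661334, nat_lit 3090809600], [], [nat_lit 25134556257, nat_lit 25951179857, nat_lit 30552294541, nat_lit 31191794413, nat_lit 27939303975, nat_lit 28616033787, nat_lit 32470732837, nat_lit 33183654036], nat_lit 1271250, nat_lit 1271250, nat_lit 1271250, nat_lit 1271250, nat_lit 1100001, nat_lit 2298750, [nat_lit 490000, nat_lit 1100000, nat_lit 1442500], [nat_lit 6, nat_lit 40, nat_lit 40, nat_lit 80, nat_lit 3, nat_lit 289, nat_lit 75, nat_lit 9]⟩, ⟨p095_k1, nat_lit 0, nat_lit 0, nat_lit 492, nat_lit 0, nat_lit 685272, [nat_lit 1732896000, nat_lit 3300000000, nat_lit 5196576000], [], [nat_lit 18115678081, nat_lit 18473549793, nat_lit 20881541441, nat_lit 21087099201, nat_lit 17313252379, nat_lit 17496483040, nat_lit 19033839552, nat_lit 19150993319], nat_lit 1271250, nat_lit 1271250, nat_lit 1271250, nat_lit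 1271250, nat_lit 0, nat_lit 2373000, [nat_lit 780000, nat_lit 1435000, nat_lit 1271250], [nat_lit 8, nat_lit 40, nat_lit 40, nat_lit 80, nat_lit 1, nat_lit 428, nat_lit 200, nat_lit 12]⟩,
 ⟨nat_lit 3872, nat_lit 4473, ⟨.ofNat (nat_lit 654181), .ofNat (nat_lit 926124), .ofNat (nat_lit 675730), .ofNat (nat_lit 947674), .ofNat (nat_lit 651631), .ofNat (nat_lit 909748), .ofNat (nat_lit 673407), .ofNat (nat_lit 931525)⟩, ⟨.ofNat (nat_lit 302621), .ofNat (nat_lit 540545), .ofNat (nat_lit 345754), .ofNat (nat_lit 583678), .ofNat (nat_lit 304717), .ofNat (nat_lit 530543), .ofNat (nat_lit 348304), .ofNat (nat_lit 574129)⟩⟩, [⟨nat_lit 4, nat_lit 100, nat_lit 81, nat_lit 92, nat_lit 311068869⟩, ⟨nat_lit 7, nat_lit 94, nat_lit 100, nat_lit 97, nat_lit 73363103⟩]⟩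
noncomputable def p095_l47 : Lf2 := ⟨nat_lit 0, nat_lit 10, [nat_lit 0, nat_lit 5, nat_lit 5, nat_lit 20], false, nat_lit 160, nat_lit 300, nat_lit 0, nat_lit 320, ⟨nat_lit 1000, nat_lit 0, nat_lit 0, nat_lit 0, nat_lit 0, nat_lit 0, nat_lit 0, nat_lit 0, nat_lit 0, nat_lit 0, nat_lit 0, nat_lit 0, nat_lit 0, nat_lit 0, nat_lit 0, nat_lit 0, false, false⟩,
 nat_lit 8561, nat_lit 0, nat_lit 0, nat_lit 0, nat_lit 6420, nat_lit 5926, nat_lit 433, nat_lit 0, nat_lit 0, nat_lit 1137, nat_lit 0, nat_lit 0, nat_lit 0, nat_lit 0, nat_lit 0, nat_lit 0, nat_lit 0, nat_lit 0, [],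
 ⟨p095_k0, nat_lit 0, nat_lit 0, nat_lit 301, nat_lit 0, nat_lit 634173, [nat_lit 2032000001, nat_lit 4688000000, nat_lit 6250000000], [], [nat_lit 24624488560, nat_lit 25652594960, nat_lit 31967168480, nat_lit 33198609840, nat_lit 27575485300, nat_lit 28345587780, nat_lit 34717550560, nat_lit 35626429910], nat_lit 1271250, nat_lit 1271250, nat_lit 1271250, nat_lit 1271250, nat_lit 1100001, nat_lit 2298750, [nat_lit 490000, nat_lit 1100000, nat_lit 1442500], [nat_lit 6, nat_lit 40, nat_lit 40, nat_lit 80, nat_lit 3, nat_lit 289, nat_lit 75, nat_lit 9]⟩, ⟨p095_k3, nat_lit 0, nat_lit 0, nat_lit 450, nat_lit 0, nat_lit 700300, [nat_lit 3282000000, nat_lit 6250000000, nat_lit 7968000000], [], [nat_lit 28115618309, nat_lit 28894355497, nat_lit 36689204236, nat_lit 37853430056, nat_lit 28509610545, nat_lit 28959033649, nat_lit 34059256456, nat_lit 34756886512], nat_lit 1271250, nat_lit 1271250, nat_lit 1271250, nat_lit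 1271250, nat_lit 0, nat_lit 2260000, [nat_lit 780000, nat_lit 1435000, nat_lit 1271250], [nat_lit 18, nat_lit 40, nat_lit 40, nat_lit 80, nat_lit 2, nat_lit 317, nat_lit 100, nat_lit 10]⟩,
 zbF0, [⟨nat_lit 4, nat_lit 100, nat_lit 81, nat_lit 92, nat_lit 411069727⟩, ⟨nat_lit 19, nat_lit 93, nat_lit 100, nat_lit 97, nat_lit 151972372⟩]⟩
noncomputable def p095_l48 : Lf2 := ⟨nat_lit 0, nat_lit 10, [nat_lit 0, nat_lit 5, nat_lit 5, nat_lit 20], false, nat_lit 0, nat_lit 276, nat_lit 0, nat_lit 336, ⟨nat_lit 438, nat_lit 562, nat_lit 0, nat_lit 7, nat_lit 314, nat_lit 562, nat_lit 102, nat_lit 0, nat_lit 0, nat_lit 0, nat_lit 0, nat_lit 0, nat_lit 0, nat_lit 0, nat_lit 0, nat_lit 5000000, true, true⟩,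
 nat_lit 4930, nat_lit 0, nat_lit 0, nat_lit 0, nat_lit 3794, nat_lit 3136, nat_lit 238, nat_lit 0, nat_lit 0, nat_lit 246, nat_lit 0, nat_lit 0, nat_lit 0, nat_lit 0, nat_lit 0, nat_lit 428800, nat_lit 0, nat_lit 0, [(nat_lit 21, [(nat_lit 1, nat_lit 222), (nat_lit 2, nat_lit 340)])],
 ⟨p095_k2, nat_lit 0, nat_lit 0, nat_lit 373, nat_lit 0, nat_lit 604135, [nat_lit 1667278401, nat_lit 2335649600, nat_lit 2683572000], [], [nat_lit 26040746301, nat_lit 26913574269, nat_lit 32697968239, nat_lit 33809756581, nat_lit 27922274778, nat_lit 28542049358, nat_lit 31866207420, nat_lit 32349553480], nat_lit 1271250, nat_lit 1271250, nat_lit 1271250, nat_lit 1271250, nat_lit 0, nat_lit 1949250, [nat_lit 490000, nat_lit 1100000, nat_lit 1442500], [nat_lit 6, nat_lit 40, nat_lit 40, nat_lit 80, nat_lit 3, nat_lit 289, nat_lit 75, nat_lit 10]⟩, ⟨p095_k1, nat_lit 0, nat_lit 0, nat_lit 563, nat_lit 0, nat_lit 814259, [nat_lit 1437516000,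 nat_lit 2737500000, nat_lit 4310796000], [], [nat_lit 15254844702, nat_lit 15552251978, nat_lit 17482256127, nat_lit 17656023773, nat_lit 14571952339, nat_lit 14719503039, nat_lit 15703166724, nat_lit 15784504869], nat_lit 1271250, nat_lit 1271250, nat_lit 1271250, nat_lit 1271250, nat_lit 0, nat_lit 2373000, [nat_lit 780000, nat_lit 1435000, nat_lit 1271250], [nat_lit 8, nat_lit 40, nat_lit 40, nat_lit 80, nat_lit 1, nat_lit 428, nat_lit 200, nat_lit 12]⟩,
 ⟨nat_lit 3162, nat_lit 3873, ⟨.ofNat (nat_lit 651611), .ofNat (nat_lit 903327), .ofNat (nat_lit 673376), .ofNat (nat_lit 925121), .ofNat (nat_lit 649490), .ofNat (nat_lit 887290), .ofNat (nat_lit 671616), .ofNat (nat_lit 909444)⟩, ⟨.ofNat (nat_lit 0), .ofNat (nat_lit 491830), .ofNat (nat_lit 0), .ofNat (nat_lit 535416), .ofNat (nat_lit 0), .ofNat (nat_lit 482881), .ofNat (nat_lit 0), .ofNat (nat_lit 527190)⟩⟩, [⟨nat_lit 13, nat_lit 74, nat_lit 42, nat_lit 100,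 nat_lit 16477164⟩, ⟨nat_lit 4, nat_lit 100, nat_lit 67, nat_lit 88, nat_lit 137140442⟩, ⟨nat_lit 7, nat_lit 94, nat_lit 100, nat_lit 97, nat_lit 56758013⟩]⟩
noncomputable def p095_l49 : Lf2 := ⟨nat_lit 0, nat_lit 10, [nat_lit 0, nat_lit 5, nat_lit 5, nat_lit 20], false, nat_lit 0, nat_lit 276, nat_lit 0, nat_lit 320, ⟨nat_lit 1000, nat_lit 0, nat_lit 0, nat_lit 0, nat_lit 0, nat_lit 0, nat_lit 0, nat_lit 0, nat_lit 0, nat_lit 0, nat_lit 0, nat_lit 0, nat_lit 0, nat_lit 0, nat_lit 0, nat_lit 0, false, false⟩,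
 nat_lit 8686, nat_lit 0, nat_lit 0, nat_lit 0, nat_lit 5264, nat_lit 6013, nat_lit 556, nat_lit 0, nat_lit 0, nat_lit 1057, nat_lit 0, nat_lit 0, nat_lit 0, nat_lit 0, nat_lit 0, nat_lit 0, nat_lit 0, nat_lit 0, [],
 ⟨p095_k2, nat_lit 0, nat_lit 0, nat_lit 403, nat_lit 0, nat_lit 665872, [nat_lit 2032000001, nat_lit 4688000000, nat_lit 6250000000], [], [nat_lit 25600463408, nat_lit 27545313312, nat_lit 37270884336, nat_lit 38540453088, nat_lit 26167114289, nat_lit 26854533231, nat_lit 33531753907, nat_lit 34423992721], nat_lit 1271250, nat_lit 1271250, nat_lit 1271250, nat_lit 1271250, nat_lit 0, nat_lit 1949250, [nat_lit 490000, nat_lit 1100000, nat_lit 1442500], [nat_lit 6, nat_lit 40, nat_lit 40, nat_lit 80, nat_lit 3, nat_lit 289, nat_lit 75, nat_lit 10]⟩, ⟨p095_k3, nat_lit 0, nat_lit 0, nat_lit 500, nat_lit 0, nat_lit 807288, [nat_lit 3282000000, nat_lit 6250000000, nat_lit 7968000000], [], [nat_lit 29157727279,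 nat_lit 29848897877, nat_lit 36924729418, nat_lit 38096834828, nat_lit 29209925621, nat_lit 29605198437, nat_lit 34160016028, nat_lit 34860408856], nat_lit 1271250, nat_lit 1271250, nat_lit 1271250, nat_lit 1271250, nat_lit 0, nat_lit 2260000, [nat_lit 780000, nat_lit 1435000, nat_lit 1271250], [nat_lit 18, nat_lit 40, nat_lit 40, nat_lit 80, nat_lit 2, nat_lit 317, nat_lit 100, nat_lit 10]⟩,
 zbF0, [⟨nat_lit 4, nat_lit 100, nat_lit 67, nat_lit 88, nat_lit 169911813⟩, ⟨nat_lit 7, nat_lit 100, nat_lit 93, nat_lit 97, nat_lit 149562850⟩]⟩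
noncomputable def b_V_800_700_20_26 : St := ⟨true, nat_lit 1, nat_lit 1, nat_lit 2, nat_lit 120, nat_lit 320, nat_lit 360, nat_lit 280, nat_lit 320, nat_lit 100, nat_lit 400, nat_lit 80, nat_lit 120, nat_lit 0, nat_lit 300, nat_lit 0, nat_lit 336, nat_lit 0, nat_lit 40, nat_lit 0, nat_lit 0, nat_lit 0, nat_lit 0⟩
theorem d_V_800_700_20_26 (h : EB TB.env) : Dead b_V_800_700_20_26 := chkB_sound0 h (T :=
(.spl (nat_lit 2) (nat_lit 240)
(.spl (nat_lit 4) (nat_lit 160)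
(.leaf p095_l41)
(.spl (nat_lit 1) (nat_lit 300)
(.spl (nat_lit 2) (nat_lit 160)
(.leaf p095_l42)
(.leaf p095_l43))
(.trZ (nat_lit 0) (nat_lit 94) (nat_lit 87) (nat_lit 100) (nat_lit 120) (.trX (nat_lit 19) (nat_lit 94) (nat_lit 88) (nat_lit 100) (nat_lit 320) (.leaf p095_l44)))))
(.spl (nat_lit 0) (nat_lit 340)
(.spl (nat_lit 4) (nat_lit 160)
(.leaf p095_l45)
(.spl (nat_lit 1) (nat_lit 300)
(.leaf p095_l46)
(.trX (nat_lit 19) (nat_lit 94) (nat_lit 88) (nat_lit 100) (nat_lit 320) (.leaf p095_l47))))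
(.trX (nat_lit 16) (nat_lit 77) (nat_lit 100) (nat_lit 99) (nat_lit 276) (.spl (nat_lit 1) (nat_lit 300)
(.trX (nat_lit 13) (nat_lit 82) (nat_lit 29) (nat_lit 100) (nat_lit 396) (.leaf p095_l48))
(.trX (nat_lit 19) (nat_lit 94) (nat_lit 88) (nat_lit 100) (nat_lit 320) (.leaf p095_l49))))))) (by decide +kernel)
noncomputable def p095_l50 : Lf2 := ⟨nat_lit 0, nat_lit 20, [nat_lit 5, nat_lit 5, nat_lit 5, nat_lit 20], false, nat_lit 0, nat_lit 300, nat_lit 0, nat_lit 160, ⟨nat_lit 1000, nat_lit 0, nat_lit 0, nat_lit 0, nat_lit 0, nat_lit 0, nat_lit 0, nat_lit 0, nat_lit 0, nat_lit 0, nat_lit 0, nat_lit 0, nat_lit 0, nat_lit 0, nat_lit 0, nat_lit 0, false, false⟩,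
 nat_lit 0, nat_lit 0, nat_lit 0, nat_lit 10253, nat_lit 6369, nat_lit 7171, nat_lit 752, nat_lit 0, nat_lit 0, nat_lit 763, nat_lit 0, nat_lit 0, nat_lit 0, nat_lit 0, nat_lit 0, nat_lit 0, nat_lit 0, nat_lit 0, [],
 ⟨p095_k21, nat_lit 0, nat_lit 0, nat_lit 215, nat_lit 0, nat_lit 0, [nat_lit 2032000001, nat_lit 4688000000, nat_lit 9842000000], [], [nat_lit 24955410026, nat_lit 28614047068, nat_lit 39092835964, nat_lit 41893345748, nat_lit 25682614900, nat_lit 27770111716, nat_lit 34657869442, nat_lit 36469656807], nat_lit 0, nat_lit 0, nat_lit 0, nat_lit 0, nat_lit 0, nat_lit 0, [], [nat_lit 27, nat_lit 40, nat_lit 40, nat_lit 80, nat_lit 13, nat_lit 401, nat_lit 175, nat_lit 11]⟩, ⟨p095_k22, nat_lit 0, nat_lit 0, nat_lit 240, nat_lit 0, nat_lit 0, [nat_lit 3282000000, nat_lit 6250000000, nat_lit 11872000000], [], [nat_lit 29141507215, nat_lit 30473347481, nat_lit 39318347525, nat_lit 40059650806, nat_lit 24671201897,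 nat_lit 25785459432, nat_lit 32437154773, nat_lit 32959081711], nat_lit 0, nat_lit 0, nat_lit 0, nat_lit 0, nat_lit 0, nat_lit 0, [], [nat_lit 23, nat_lit 40, nat_lit 40, nat_lit 80, nat_lit 12, nat_lit 456, nat_lit 225, nat_lit 12]⟩,
 zbF0, [⟨nat_lit 0, nat_lit 94, nat_lit 75, nat_lit 100, nat_lit 171008545⟩, ⟨nat_lit 0, nat_lit 87, nat_lit 60, nat_lit 100, nat_lit 35040157⟩, ⟨nat_lit 16, nat_lit 74, nat_lit 100, nat_lit 90, nat_lit 135457099⟩]⟩
noncomputable def p095_l51 : Lf2 := ⟨nat_lit 0, nat_lit 20, [nat_lit 5, nat_lit 5, nat_lit 5, nat_lit 20], false, nat_lit 0, nat_lit 300, nat_lit 0, nat_lit 160, ⟨nat_lit 1000, nat_lit 0, nat_lit 0, nat_lit 0, nat_lit 0, nat_lit 0, nat_lit 0, nat_lit 0, nat_lit 0, nat_lit 0, nat_lit 0, nat_lit 0, nat_lit 0, nat_lit 0, nat_lit 0, nat_lit 0, false, false⟩,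
 nat_lit 0, nat_lit 0, nat_lit 0, nat_lit 3249, nat_lit 6761, nat_lit 8010, nat_lit 706, nat_lit 0, nat_lit 0, nat_lit 468, nat_lit 0, nat_lit 0, nat_lit 0, nat_lit 0, nat_lit 0, nat_lit 0, nat_lit 0, nat_lit 0, [],
 ⟨p095_k21, nat_lit 0, nat_lit 0, nat_lit 215, nat_lit 0, nat_lit 0, [nat_lit 2032000001, nat_lit 4688000000, nat_lit 9842000000], [], [nat_lit 25000186842, nat_lit 29021495610, nat_lit 40189556316, nat_lit 43082788212, nat_lit 25249455466, nat_lit 27732699918, nat_lit 35116594898, nat_lit 36974279583], nat_lit 0, nat_lit 0, nat_lit 0, nat_lit 0, nat_lit 0, nat_lit 0, [], [nat_lit 27, nat_lit 40, nat_lit 40, nat_lit 80, nat_lit 13, nat_lit 401, nat_lit 175, nat_lit 11]⟩, ⟨p095_k23, nat_lit 0, nat_lit 0, nat_lit 219, nat_lit 0, nat_lit 0, [nat_lit 3282000000, nat_lit 6250000000, nat_lit 9842000000], [], [nat_lit 27349445460, nat_lit 28918840260, nat_lit 42330979860, nat_lit 43683953560, nat_lit 22340676420,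 nat_lit 23640369940, nat_lit 32958998040, nat_lit 33971751440], nat_lit 0, nat_lit 0, nat_lit 0, nat_lit 0, nat_lit 0, nat_lit 0, [], [nat_lit 8, nat_lit 40, nat_lit 40, nat_lit 80, nat_lit 1, nat_lit 373, nat_lit 150, nat_lit 11]⟩,
 zbF0, [⟨nat_lit 16, nat_lit 87, nat_lit 95, nat_lit 100, nat_lit 90583153⟩, ⟨nat_lit 6, nat_lit 100, nat_lit 87, nat_lit 25, nat_lit 21240372⟩]⟩
noncomputable def p095_l52 : Lf2 := ⟨nat_lit 0, nat_lit 20, [nat_lit 5, nat_lit 5, nat_lit 5, nat_lit 20], false, nat_lit 0, nat_lit 300, nat_lit 160, nat_lit 336, ⟨nat_lit 1000, nat_lit 0, nat_lit 0, nat_lit 0, nat_lit 0, nat_lit 0, nat_lit 0, nat_lit 0, nat_lit 0, nat_lit 0, nat_lit 0, nat_lit 0, nat_lit 0, nat_lit 0, nat_lit 0, nat_lit 0, false, false⟩,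
 nat_lit 0, nat_lit 0, nat_lit 0, nat_lit 15445, nat_lit 6716, nat_lit 4928, nat_lit 765, nat_lit 0, nat_lit 0, nat_lit 0, nat_lit 0, nat_lit 0, nat_lit 0, nat_lit 0, nat_lit 0, nat_lit 0, nat_lit 0, nat_lit 0, [],
 ⟨p095_k21, nat_lit 0, nat_lit 0, nat_lit 205, nat_lit 0, nat_lit 0, [nat_lit 2032000001, nat_lit 4688000000, nat_lit 9842000000], [], [nat_lit 24719474905, nat_lit 28827122177, nat_lit 26861493473, nat_lit 30406200528, nat_lit 25052142725, nat_lit 28154816600, nat_lit 26031545500, nat_lit 29056501368], nat_lit 0, nat_lit 0, nat_lit 0, nat_lit 0, nat_lit 0, nat_lit 0, [], [nat_lit 27, nat_lit 40, nat_lit 40, nat_lit 80, nat_lit 13, nat_lit 373, nat_lit 150, nat_lit 11]⟩, ⟨p095_k22, nat_lit 0, nat_lit 0, nat_lit 79, nat_lit 0, nat_lit 0, [nat_lit 3282000000, nat_lit 6250000000, nat_lit 11872000000], [], [nat_lit 12502774512, nat_lit 16189097072, nat_lit 17091601312, nat_lit 19949801280, nat_lit 22865172132,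 nat_lit 25487920951, nat_lit 25090107853, nat_lit 27143965453], nat_lit 0, nat_lit 0, nat_lit 0, nat_lit 0, nat_lit 0, nat_lit 0, [], [nat_lit 23, nat_lit 40, nat_lit 40, nat_lit 80, nat_lit 12, nat_lit 456, nat_lit 225, nat_lit 11]⟩,
 zbF0, [⟨nat_lit 0, nat_lit 90, nat_lit 74, nat_lit 100, nat_lit 575677097⟩, ⟨nat_lit 16, nat_lit 74, nat_lit 100, nat_lit 90, nat_lit 237430054⟩, ⟨nat_lit 19, nat_lit 100, nat_lit 80, nat_lit 100, nat_lit 455636920⟩]⟩
noncomputable def p095_l53 : Lf2 := ⟨nat_lit 0, nat_lit 20, [nat_lit 5, nat_lit 5, nat_lit 5, nat_lit 20], false, nat_lit 0, nat_lit 300, nat_lit 160, nat_lit 336, ⟨nat_lit 1000, nat_lit 0, nat_lit 0, nat_lit 0, nat_lit 0, nat_lit 0, nat_lit 0, nat_lit 0, nat_lit 0, nat_lit 0, nat_lit 0, nat_lit 0, nat_lit 0, nat_lit 0, nat_lit 0, nat_lit 0, false, false⟩,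
 nat_lit 0, nat_lit 0, nat_lit 0, nat_lit 10347, nat_lit 6300, nat_lit 7099, nat_lit 416, nat_lit 0, nat_lit 0, nat_lit 0, nat_lit 0, nat_lit 0, nat_lit 0, nat_lit 0, nat_lit 0, nat_lit 0, nat_lit 0, nat_lit 0, [],
 ⟨p095_k21, nat_lit 0, nat_lit 0, nat_lit 215, nat_lit 0, nat_lit 0, [nat_lit 2032000001, nat_lit 4688000000, nat_lit 9842000000], [], [nat_lit 30374690800, nat_lit 33266610000, nat_lit 39466200000, nat_lit 41683979600, nat_lit 29672738700, nat_lit 31314174000, nat_lit 35165077800, nat_lit 36383317500], nat_lit 0, nat_lit 0, nat_lit 0, nat_lit 0, nat_lit 0, nat_lit 0, [], [nat_lit 27, nat_lit 40, nat_lit 40, nat_lit 80, nat_lit 13, nat_lit 401, nat_lit 175, nat_lit 11]⟩, ⟨p095_k22, nat_lit 0, nat_lit 0, nat_lit 90, nat_lit 0, nat_lit 0, [nat_lit 3282000000, nat_lit 6250000000, nat_lit 11872000000], [], [nat_lit 19319234320, nat_lit 22365468844, nat_lit 30741324336, nat_lit 32823213656, nat_lit 27248488557,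 nat_lit 29176415220, nat_lit 35541711145, nat_lit 36922152750], nat_lit 0, nat_lit 0, nat_lit 0, nat_lit 0, nat_lit 0, nat_lit 0, [], [nat_lit 23, nat_lit 40, nat_lit 40, nat_lit 80, nat_lit 12, nat_lit 538, nat_lit 300, nat_lit 13]⟩,
 zbF0, [⟨nat_lit 4, nat_lit 100, nat_lit 74, nat_lit 90, nat_lit 138473016⟩, ⟨nat_lit 19, nat_lit 100, nat_lit 80, nat_lit 100, nat_lit 344846735⟩]⟩
noncomputable def b_V_800_700_20_27 : St := ⟨true, nat_lit 0, nat_lit 0, nat_lit 1, nat_lit 120, nat_lit 320, nat_lit 360, nat_lit 280, nat_lit 320, nat_lit 100, nat_lit 400, nat_lit 80, nat_lit 120, nat_lit 0, nat_lit 300, nat_lit 0, nat_lit 336, nat_lit 40, nat_lit 80, nat_lit 0, nat_lit 0, nat_lit 0, nat_lit 0⟩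
theorem d_V_800_700_20_27 (h : EB TB.env) : Dead b_V_800_700_20_27 := chkB_sound0 h (T :=
(.spl (nat_lit 5) (nat_lit 160)
(.spl (nat_lit 1) (nat_lit 300)
(.leaf p095_l50)
(.trZ (nat_lit 0) (nat_lit 94) (nat_lit 87) (nat_lit 100) (nat_lit 120) (.leaf p095_l51)))
(.spl (nat_lit 2) (nat_lit 240)
(.leaf p095_l52)
(.leaf p095_l53)))) (by decide +kernel)
noncomputable def p095_l54 : Lf2 := ⟨nat_lit 0, nat_lit 20, [nat_lit 5, nat_lit 5, nat_lit 5, nat_lit 20], false, nat_lit 0, nat_lit 160, nat_lit 0, nat_lit 336, ⟨nat_lit 60, nat_lit 0, nat_lit 940, nat_lit 7, nat_lit 179, nat_lit 769, nat_lit 65, nat_lit 940, nat_lit 40017, nat_lit 264, nat_lit 72244, nat_lit 280, nat_lit 55783949, nat_lit 0, nat_lit 0, nat_lit 2258726, false, false⟩,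
 nat_lit 0, nat_lit 0, nat_lit 847, nat_lit 8272, nat_lit 2571, nat_lit 538, nat_lit 217, nat_lit 0, nat_lit 0, nat_lit 25, nat_lit 0, nat_lit 0, nat_lit 0, nat_lit 0, nat_lit 101, nat_lit 376000, nat_lit 0, nat_lit 0, [(nat_lit 19, [(nat_lit 5, nat_lit 940)])],
 ⟨p095_k21, nat_lit 0, nat_lit 0, nat_lit 193, nat_lit 0, nat_lit 0, [nat_lit 1802992001, nat_lit 1488944001, nat_lit 275160000], [], [nat_lit 15399419482, nat_lit 17207483667, nat_lit 15523478806, nat_lit 17291404774, nat_lit 16171327984, nat_lit 17418321880, nat_lit 16430437890, nat_lit 17648902046], nat_lit 0, nat_lit 0, nat_lit 0, nat_lit 0, nat_lit 0, nat_lit 0, [], [nat_lit 27, nat_lit 40, nat_lit 40, nat_lit 80, nat_lit 13, nat_lit 289, nat_lit 75, nat_lit 8]⟩, ⟨p095_k22, nat_lit 0, nat_lit 0, nat_lit 566, nat_lit 0, nat_lit 618725, [nat_lit 196920000, nat_lit 375000000, nat_lit 712320000], [], [nat_lit 1959579131, nat_lit 2022038245, nat_lit 1932307919,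 nat_lit 1983968971, nat_lit 2072624302, nat_lit 1995067864, nat_lit 2189148903, nat_lit 1952874367], nat_lit 1271250, nat_lit 1271250, nat_lit 631250, nat_lit 780000, nat_lit 0, nat_lit 2373000, [nat_lit 780000, nat_lit 1435000, nat_lit 1271250], [nat_lit 23, nat_lit 40, nat_lit 40, nat_lit 80, nat_lit 12, nat_lit 428, nat_lit 200, nat_lit 11]⟩,
 ⟨nat_lit 3872, nat_lit 4473, ⟨.ofNat (nat_lit 416230), .ofNat (nat_lit 450223), .ofNat (nat_lit 437779), .ofNat (nat_lit 471772), .ofNat (nat_lit 425778), .ofNat (nat_lit 458043), .ofNat (nat_lit 447554), .ofNat (nat_lit 479819)⟩, ⟨.ofNat (nat_lit 0), .ofNat (nat_lit 302621), .ofNat (nat_lit 0), .ofNat (nat_lit 345754), .ofNat (nat_lit 0), .ofNat (nat_lit 304717), .ofNat (nat_lit 0), .ofNat (nat_lit 348304)⟩⟩, [⟨nat_lit 0, nat_lit 97, nat_lit 82, nat_lit 100, nat_lit 534896672⟩, ⟨nat_lit 7, nat_lit 94, nat_lit 100, nat_lit 97, nat_lit 11262937⟩]⟩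
noncomputable def p095_l55 : Lf2 := ⟨nat_lit 0, nat_lit 20, [nat_lit 5, nat_lit 5, nat_lit 5, nat_lit 20], false, nat_lit 0, nat_lit 160, nat_lit 0, nat_lit 160, ⟨nat_lit 1000, nat_lit 0, nat_lit 0, nat_lit 0, nat_lit 0, nat_lit 0, nat_lit 0, nat_lit 0, nat_lit 0, nat_lit 0, nat_lit 0, nat_lit 0, nat_lit 0, nat_lit 0, nat_lit 0, nat_lit 0, false, false⟩,
 nat_lit 0, nat_lit 0, nat_lit 8950, nat_lit 0, nat_lit 6375, nat_lit 5695, nat_lit 1009, nat_lit 0, nat_lit 0, nat_lit 846, nat_lit 0, nat_lit 0, nat_lit 0, nat_lit 0, nat_lit 0, nat_lit 0, nat_lit 0, nat_lit 0, [],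
 ⟨p095_k21, nat_lit 0, nat_lit 0, nat_lit 186, nat_lit 0, nat_lit 0, [nat_lit 2032000001, nat_lit 4688000000, nat_lit 9842000000], [], [nat_lit 21785131125, nat_lit 23804590750, nat_lit 24966180000, nat_lit 27350252750, nat_lit 17490513625, nat_lit 19122514125, nat_lit 20538812000, nat_lit 22229429000], nat_lit 0, nat_lit 0, nat_lit 0, nat_lit 0, nat_lit 0, nat_lit 0, [], [nat_lit 27, nat_lit 40, nat_lit 40, nat_lit 80, nat_lit 13, nat_lit 317, nat_lit 100, nat_lit 9]⟩, ⟨p095_k22, nat_lit 0, nat_lit 0, nat_lit 557, nat_lit 0, nat_lit 618725, [nat_lit 3282000000, nat_lit 6250000000, nat_lit 11872000000], [], [nat_lit 38210280800, nat_lit 35199117890, nat_lit 35415962830, nat_lit 35995031610, nat_lit 32058537130, nat_lit 32658328300, nat_lit 32904437110, nat_lit 33386368790], nat_lit 1271250, nat_lit 1271250, nat_lit 780000, nat_lit 1762500, nat_lit 0, nat_lit 1100001, [nat_lit 780000, nat_lit 1435000, nat_lit 1271250],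 [nat_lit 23, nat_lit 40, nat_lit 40, nat_lit 80, nat_lit 12, nat_lit 401, nat_lit 175, nat_lit 10]⟩,
 zbF0, [⟨nat_lit 0, nat_lit 90, nat_lit 74, nat_lit 100, nat_lit 466381167⟩]⟩
noncomputable def p095_l56 : Lf2 := ⟨nat_lit 0, nat_lit 20, [nat_lit 5, nat_lit 5, nat_lit 5, nat_lit 20], false, nat_lit 0, nat_lit 160, nat_lit 0, nat_lit 160, ⟨nat_lit 222, nat_lit 0, nat_lit 778, nat_lit 7, nat_lit 228, nat_lit 776, nat_lit 65, nat_lit 778, nat_lit 40017, nat_lit 264, nat_lit 75502, nat_lit 200, nat_lit 50547777, nat_lit 0, nat_lit 0, nat_lit 2786996, false, false⟩,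
 nat_lit 0, nat_lit 0, nat_lit 2612, nat_lit 0, nat_lit 2649, nat_lit 1662, nat_lit 0, nat_lit 0, nat_lit 0, nat_lit 169, nat_lit 0, nat_lit 0, nat_lit 0, nat_lit 0, nat_lit 69, nat_lit 382000, nat_lit 0, nat_lit 0, [(nat_lit 22, [(nat_lit 5, nat_lit 660), (nat_lit 6, nat_lit 118)])],
 ⟨p095_k24, nat_lit 0, nat_lit 0, nat_lit 167, nat_lit 0, nat_lit 0, [nat_lit 1736566400, nat_lit 1333229600, nat_lit 42230400], [], [nat_lit 18334800790, nat_lit 19591532592, nat_lit 21265774782, nat_lit 22396775488, nat_lit 18927948496, nat_lit 20081073165, nat_lit 21768149024, nat_lit 22766443700], nat_lit 0, nat_lit 0, nat_lit 0, nat_lit 0, nat_lit 0, nat_lit 0, [], [nat_lit 34, nat_lit 40, nat_lit 40, nat_lit 80, nat_lit 7, nat_lit 317, nat_lit 100, nat_lit 10]⟩, ⟨p095_k22, nat_lit 0, nat_lit 0, nat_lit 696, nat_lit 0, nat_lit 890782, [nat_lit 728604000, nat_lit 1387500000, nat_lit 2635584000], [], [nat_lit 8912976233, nat_lit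 8035536629, nat_lit 7839636015, nat_lit 7939966395, nat_lit 6908771936, nat_lit 7013468780, nat_lit 6882337791, nat_lit 6962216463], nat_lit 1271250, nat_lit 1271250, nat_lit 810650, nat_lit 1764750, nat_lit 0, nat_lit 1100001, [nat_lit 780000, nat_lit 1435000, nat_lit 1271250], [nat_lit 23, nat_lit 40, nat_lit 40, nat_lit 80, nat_lit 12, nat_lit 401, nat_lit 175, nat_lit 10]⟩,
 ⟨nat_lit 3162, nat_lit 3873, ⟨.ofNat (nat_lit 464406), .ofNat (nat_lit 651611), .ofNat (nat_lit 486170), .ofNat (nat_lit 673376), .ofNat (nat_lit 472632), .ofNat (nat_lit 649490), .ofNat (nat_lit 494758), .ofNat (nat_lit 671616)⟩, ⟨.ofNat (nat_lit 0), .ofNat (nat_lit 304717), .ofNat (nat_lit 0), .ofNat (nat_lit 348304), .ofNat (nat_lit 0), .ofNat (nat_lit 306116), .ofNat (nat_lit 0), .ofNat (nat_lit 350426)⟩⟩, [⟨nat_lit 0, nat_lit 87, nat_lit 60, nat_lit 100, nat_lit 3673081⟩]⟩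
noncomputable def p095_l57 : Lf2 := ⟨nat_lit 0, nat_lit 20, [nat_lit 5, nat_lit 5, nat_lit 5, nat_lit 20], false, nat_lit 0, nat_lit 160, nat_lit 160, nat_lit 336, ⟨nat_lit 629, nat_lit 0, nat_lit 371, nat_lit 7, nat_lit 224, nat_lit 371, nat_lit 65, nat_lit 371, nat_lit 40017, nat_lit 264, nat_lit 58660, nat_lit 200, nat_lit 51051184, nat_lit 0, nat_lit 0, nat_lit 2744061, false, false⟩,
 nat_lit 0, nat_lit 0, nat_lit 7863, nat_lit 0, nat_lit 4342, nat_lit 5003, nat_lit 696, nat_lit 0, nat_lit 0, nat_lit 617, nat_lit 0, nat_lit 0, nat_lit 0, nat_lit 0, nat_lit 0, nat_lit 92750, nat_lit 0, nat_lit 0, [(nat_lit 19, [(nat_lit 4, nat_lit 371)])],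
 ⟨p095_k21, nat_lit 0, nat_lit 0, nat_lit 186, nat_lit 0, nat_lit 0, [nat_lit 1841454400, nat_lit 2873810000, nat_lit 5413298800], [], [nat_lit 19505806024, nat_lit 21054566872, nat_lit 22271904360, nat_lit 23877803240, nat_lit 17535257200, nat_lit 18854897288, nat_lit 20603413792, nat_lit 21950479280], nat_lit 0, nat_lit 0, nat_lit 0, nat_lit 0, nat_lit 0, nat_lit 0, [], [nat_lit 27, nat_lit 40, nat_lit 40, nat_lit 80, nat_lit 13, nat_lit 317, nat_lit 100, nat_lit 9]⟩, ⟨p095_k22, nat_lit 0, nat_lit 0, nat_lit 380, nat_lit 0, nat_lit 534665, [nat_lit 2064378000, nat_lit 3931250000, nat_lit 7467488000], [], [nat_lit 13831077972, nat_lit 13562114134, nat_lit 14187235044, nat_lit 14326192135, nat_lit 16657729130, nat_lit 16948851692, nat_lit 17166284777, nat_lit 17410743290], nat_lit 1271250, nat_lit 1271250, nat_lit 780000, nat_lit 1762500, nat_lit 1271250, nat_lit 1271250, [nat_lit 780000, nat_lit 1435000, nat_lit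 1271250], [nat_lit 23, nat_lit 40, nat_lit 40, nat_lit 80, nat_lit 12, nat_lit 456, nat_lit 225, nat_lit 11]⟩,
 ⟨nat_lit 3872, nat_lit 4473, ⟨.ofNat (nat_lit 450223), .ofNat (nat_lit 654181), .ofNat (nat_lit 460997), .ofNat (nat_lit 664955), .ofNat (nat_lit 458043), .ofNat (nat_lit 651631), .ofNat (nat_lit 468931), .ofNat (nat_lit 662519)⟩, ⟨.ofNat (nat_lit 0), .ofNat (nat_lit 302621), .ofNat (nat_lit 0), .ofNat (nat_lit 345754), .ofNat (nat_lit 0), .ofNat (nat_lit 304717), .ofNat (nat_lit 0), .ofNat (nat_lit 348304)⟩⟩, [⟨nat_lit 0, nat_lit 94, nat_lit 75, nat_lit 100, nat_lit 246519943⟩, ⟨nat_lit 7, nat_lit 91, nat_lit 100, nat_lit 96, nat_lit 233214195⟩]⟩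
noncomputable def p095_l58 : Lf2 := ⟨nat_lit 0, nat_lit 20, [nat_lit 5, nat_lit 5, nat_lit 5, nat_lit 20], false, nat_lit 0, nat_lit 160, nat_lit 160, nat_lit 328, ⟨nat_lit 948, nat_lit 0, nat_lit 52, nat_lit 7, nat_lit 228, nat_lit 52, nat_lit 65, nat_lit 52, nat_lit 40017, nat_lit 264, nat_lit 80210, nat_lit 200, nat_lit 50580025, nat_lit 0, nat_lit 0, nat_lit 2784292, false, false⟩,
 nat_lit 0, nat_lit 0, nat_lit 9464, nat_lit 0, nat_lit 6115, nat_lit 6285, nat_lit 968, nat_lit 0, nat_lit 0, nat_lit 924, nat_lit 0, nat_lit 0, nat_lit 0, nat_lit 0, nat_lit 0, nat_lit 9880, nat_lit 0, nat_lit 0, [(nat_lit 19, [(nat_lit 3, nat_lit 52)])],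
 ⟨p095_k21, nat_lit 0, nat_lit 0, nat_lit 186, nat_lit 0, nat_lit 0, [nat_lit 2707084801, nat_lit 4439918400, nat_lit 9247244800], [], [nat_lit 21474961080, nat_lit 23362265640, nat_lit 24582295200, nat_lit 26902170310, nat_lit 17477568300, nat_lit 19069600560, nat_lit 20529106720, nat_lit 22177689000], nat_lit 0, nat_lit 0, nat_lit 0, nat_lit 0, nat_lit 0, nat_lit 0, [], [nat_lit 27, nat_lit 40, nat_lit 40, nat_lit 80, nat_lit 13, nat_lit 317, nat_lit 100, nat_lit 9]⟩, ⟨p095_k25, nat_lit 0, nat_lit 0, nat_lit 399, nat_lit 0, nat_lit 581606, [nat_lit 3111336000, nat_lit 5925000000, nat_lit 11254656000], [], [nat_lit 21030186564, nat_lit 21524680812, nat_lit 22396165119, nat_lit 22788687294, nat_lit 25493063721, nat_lit 25819368810, nat_lit 32843437874, nat_lit 31424090667], nat_lit 1271250, nat_lit 1271250, nat_lit 780000, nat_lit 1762500, nat_lit 1100001, nat_lit 2538500, [nat_lit 780000, nat_lit 1435000, nat_lit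 1271250], [nat_lit 23, nat_lit 40, nat_lit 40, nat_lit 80, nat_lit 12, nat_lit 456, nat_lit 225, nat_lit 11]⟩,
 ⟨nat_lit 3872, nat_lit 4473, ⟨.ofNat (nat_lit 460997), .ofNat (nat_lit 664955), .ofNat (nat_lit 471772), .ofNat (nat_lit 675730), .ofNat (nat_lit 468931), .ofNat (nat_lit 662519), .ofNat (nat_lit 479819), .ofNat (nat_lit 673407)⟩, ⟨.ofNat (nat_lit 0), .ofNat (nat_lit 302621), .ofNat (nat_lit 0), .ofNat (nat_lit 345754), .ofNat (nat_lit 0), .ofNat (nat_lit 304717), .ofNat (nat_lit 0), .ofNat (nat_lit 348304)⟩⟩, [⟨nat_lit 0, nat_lit 90, nat_lit 74, nat_lit 100, nat_lit 24690832⟩, ⟨nat_lit 19, nat_lit 100, nat_lit 97, nat_lit 98, nat_lit 349379764⟩]⟩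
noncomputable def p095_l59 : Lf2 := ⟨nat_lit 0, nat_lit 20, [nat_lit 5, nat_lit 5, nat_lit 5, nat_lit 20], false, nat_lit 0, nat_lit 80, nat_lit 160, nat_lit 336, ⟨nat_lit 232, nat_lit 0, nat_lit 768, nat_lit 7, nat_lit 226, nat_lit 768, nat_lit 38, nat_lit 768, nat_lit 13067, nat_lit 243, nat_lit 53738, nat_lit 200, nat_lit 50786481, nat_lit 0, nat_lit 0, nat_lit 2766829, false, false⟩,
 nat_lit 0, nat_lit 0, nat_lit 2950, nat_lit 0, nat_lit 2646, nat_lit 1877, nat_lit 0, nat_lit 0, nat_lit 0, nat_lit 200, nat_lit 0, nat_lit 0, nat_lit 0, nat_lit 0, nat_lit 74, nat_lit 405000, nat_lit 0, nat_lit 0, [(nat_lit 22, [(nat_lit 5, nat_lit 605), (nat_lit 6, nat_lit 163)])],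
 ⟨p095_k24, nat_lit 0, nat_lit 0, nat_lit 167, nat_lit 0, nat_lit 0, [nat_lit 1777262401, nat_lit 1397955601, nat_lit 41389733], [], [nat_lit 18215802031, nat_lit 19471928139, nat_lit 21255545831, nat_lit 22387046968, nat_lit 17636103241, nat_lit 18909763440, nat_lit 20737350523, nat_lit 21802443403], nat_lit 0, nat_lit 0, nat_lit 0, nat_lit 0, nat_lit 0, nat_lit 0, [], [nat_lit 34, nat_lit 40, nat_lit 40, nat_lit 80, nat_lit 7, nat_lit 317, nat_lit 100, nat_lit 10]⟩, ⟨p095_k22, nat_lit 0, nat_lit 0, nat_lit 535, nat_lit 0, nat_lit 814120, [nat_lit 761424000, nat_lit 1450000000, nat_lit 2754304000], [], [nat_lit 5511269570, nat_lit 5612172206, nat_lit 5671665412, nat_lit 5750439190, nat_lit 6426134948, nat_lit 6493600663, nat_lit 6468563012, nat_lit 6536595252], nat_lit 1271250, nat_lit 1271250, nat_lit 810650, nat_lit 1764750, nat_lit 1271250, nat_lit 1271250, [nat_lit 780000, nat_lit 1435000, nat_lit 1271250],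 [nat_lit 23, nat_lit 40, nat_lit 40, nat_lit 80, nat_lit 12, nat_lit 456, nat_lit 225, nat_lit 11]⟩,
 ⟨nat_lit 3162, nat_lit 3873, ⟨.ofNat (nat_lit 464406), .ofNat (nat_lit 651611), .ofNat (nat_lit 475288), .ofNat (nat_lit 662494), .ofNat (nat_lit 472632), .ofNat (nat_lit 649490), .ofNat (nat_lit 483694), .ofNat (nat_lit 660553)⟩, ⟨.ofNat (nat_lit 0), .ofNat (nat_lit 175674), .ofNat (nat_lit 0), .ofNat (nat_lit 200000), .ofNat (nat_lit 0), .ofNat (nat_lit 184209), .ofNat (nat_lit 0), .ofNat (nat_lit 200000)⟩⟩, [⟨nat_lit 3, nat_lit 100, nat_lit 76, nat_lit 37, nat_lit 108538819⟩, ⟨nat_lit 19, nat_lit 100, nat_lit 91, nat_lit 96, nat_lit 76941939⟩, ⟨nat_lit 22, nat_lit 100, nat_lit 75, nat_lit 60, nat_lit 2706300⟩]⟩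
noncomputable def p095_l60 : Lf2 := ⟨nat_lit 0, nat_lit 20, [nat_lit 5, nat_lit 5, nat_lit 5, nat_lit 20], false, nat_lit 0, nat_lit 80, nat_lit 160, nat_lit 328, ⟨nat_lit 367, nat_lit 0, nat_lit 633, nat_lit 7, nat_lit 233, nat_lit 633, nat_lit 38, nat_lit 633, nat_lit 13067, nat_lit 243, nat_lit 75502, nat_lit 200, nat_lit 50035875, nat_lit 0, nat_lit 0, nat_lit 2829094, false, false⟩,
 nat_lit 0, nat_lit 0, nat_lit 3588, nat_lit 0, nat_lit 2858, nat_lit 2382, nat_lit 0, nat_lit 0, nat_lit 0, nat_lit 315, nat_lit 0, nat_lit 0, nat_lit 0, nat_lit 0, nat_lit 52, nat_lit 468600, nat_lit 0, nat_lit 0, [(nat_lit 22, [(nat_lit 5, nat_lit 274), (nat_lit 6, nat_lit 359)])],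
 ⟨p095_k24, nat_lit 0, nat_lit 0, nat_lit 166, nat_lit 0, nat_lit 0, [nat_lit 1700859200, nat_lit 1481861200, nat_lit 31661867], [], [nat_lit 18887137083, nat_lit 20172314855, nat_lit 21632496444, nat_lit 22804752264, nat_lit 18016967463, nat_lit 19321096796, nat_lit 20969908360, nat_lit 22068768600], nat_lit 0, nat_lit 0, nat_lit 0, nat_lit 0, nat_lit 0, nat_lit 0, [], [nat_lit 34, nat_lit 40, nat_lit 40, nat_lit 80, nat_lit 7, nat_lit 317, nat_lit 100, nat_lit 10]⟩, ⟨p095_k25, nat_lit 0, nat_lit 0, nat_lit 541, nat_lit 0, nat_lit 837166, [nat_lit 1204494000, nat_lit 2293750000, nat_lit 4357024000], [], [nat_lit 9790233205, nat_lit 9902324072, nat_lit 10016709374, nat_lit 10107103305, nat_lit 10882516589, nat_lit 10980641515, nat_lit 12853879291, nat_lit 12315950088], nat_lit 1271250, nat_lit 1271250, nat_lit 872850, nat_lit 1769250, nat_lit 1100001, nat_lit 2538500, [nat_lit 780000, nat_lit 1435000, nat_lit 1271250],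 [nat_lit 23, nat_lit 40, nat_lit 40, nat_lit 80, nat_lit 12, nat_lit 456, nat_lit 225, nat_lit 11]⟩,
 ⟨nat_lit 3162, nat_lit 3873, ⟨.ofNat (nat_lit 488199), .ofNat (nat_lit 662494), .ofNat (nat_lit 499081), .ofNat (nat_lit 673376), .ofNat (nat_lit 495892), .ofNat (nat_lit 660553), .ofNat (nat_lit 506955), .ofNat (nat_lit 671616)⟩, ⟨.ofNat (nat_lit 0), .ofNat (nat_lit 175674), .ofNat (nat_lit 0), .ofNat (nat_lit 200000), .ofNat (nat_lit 0), .ofNat (nat_lit 184209), .ofNat (nat_lit 0), .ofNat (nat_lit 200000)⟩⟩, [⟨nat_lit 3, nat_lit 100, nat_lit 76, nat_lit 37, nat_lit 90303806⟩, ⟨nat_lit 19, nat_lit 100, nat_lit 97, nat_lit 98, nat_lit 117499080⟩]⟩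
noncomputable def p095_l61 : Lf2 := ⟨nat_lit 0, nat_lit 20, [nat_lit 5, nat_lit 5, nat_lit 5, nat_lit 20], true, nat_lit 80, nat_lit 160, nat_lit 160, nat_lit 336, ⟨nat_lit 0, nat_lit 1000, nat_lit 0, nat_lit 7, nat_lit 228, nat_lit 1000, nat_lit 103, nat_lit 0, nat_lit 0, nat_lit 0, nat_lit 0, nat_lit 0, nat_lit 46430952, nat_lit 15939782, nat_lit 4629266, nat_lit 4142157, false, false⟩,
 nat_lit 0, nat_lit 0, nat_lit 0, nat_lit 0, nat_lit 4062, nat_lit 0, nat_lit 0, nat_lit 0, nat_lit 0, nat_lit 0, nat_lit 0, nat_lit 0, nat_lit 0, nat_lit 0, nat_lit 0, nat_lit 250000, nat_lit 0, nat_lit 0, [(nat_lit 22, [(nat_lit 0, nat_lit 1000)])],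
 ⟨p095_k24, nat_lit 0, nat_lit 0, nat_lit 62, nat_lit 0, nat_lit 0, [nat_lit 1568000001, nat_lit 1970800000, nat_lit 2712400000], [], [nat_lit 17355759276, nat_lit 19151179363, nat_lit 20698509664, nat_lit 22161502584, nat_lit 18230362388, nat_lit 19838324812, nat_lit 21258914080, nat_lit 22575583744], nat_lit 0, nat_lit 0, nat_lit 0, nat_lit 0, nat_lit 0, nat_lit 0, [], [nat_lit 34, nat_lit 40, nat_lit 40, nat_lit 80, nat_lit 7, nat_lit 317, nat_lit 100, nat_lit 10]⟩, C1.Rw.none,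
 ⟨nat_lit 3162, nat_lit 3873, ⟨.ofNat (nat_lit 464406), .ofNat (nat_lit 651611), .ofNat (nat_lit 486170), .ofNat (nat_lit 673376), .ofNat (nat_lit 472632), .ofNat (nat_lit 649490), .ofNat (nat_lit 494758), .ofNat (nat_lit 671616)⟩, ⟨.ofNat (nat_lit 175674), .ofNat (nat_lit 304717), .ofNat (nat_lit 200000), .ofNat (nat_lit 348304), .ofNat (nat_lit 184209), .ofNat (nat_lit 306116), .ofNat (nat_lit 200000), .ofNat (nat_lit 350426)⟩⟩, []⟩
noncomputable def p095_l62 : Lf2 := ⟨nat_lit 0, nat_lit 20, [nat_lit 5, nat_lit 5, nat_lit 5, nat_lit 20], false, nat_lit 0, nat_lit 160, nat_lit 0, nat_lit 320, ⟨nat_lit 1000, nat_lit 0, nat_lit 0, nat_lit 0, nat_lit 0, nat_lit 0, nat_lit 0, nat_lit 0, nat_lit 0, nat_lit 0, nat_lit 0, nat_lit 0, nat_lit 0, nat_lit 0, nat_lit 0, nat_lit 0, false, false⟩,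
 nat_lit 0, nat_lit 0, nat_lit 9488, nat_lit 0, nat_lit 6562, nat_lit 6568, nat_lit 1039, nat_lit 0, nat_lit 0, nat_lit 827, nat_lit 0, nat_lit 0, nat_lit 0, nat_lit 0, nat_lit 0, nat_lit 0, nat_lit 0, nat_lit 0, [],
 ⟨p095_k21, nat_lit 0, nat_lit 0, nat_lit 180, nat_lit 0, nat_lit 0, [nat_lit 2032000001, nat_lit 4688000000, nat_lit 9842000000], [], [nat_lit 21575334939, nat_lit 22582986974, nat_lit 25242281760, nat_lit 26457404594, nat_lit 17066944275, nat_lit 17897317719, nat_lit 20367364416, nat_lit 21227789248], nat_lit 0, nat_lit 0, nat_lit 0, nat_lit 0, nat_lit 0, nat_lit 0, [], [nat_lit 27, nat_lit 40, nat_lit 40, nat_lit 80, nat_lit 13, nat_lit 317, nat_lit 100, nat_lit 9]⟩, ⟨p095_k23, nat_lit 0, nat_lit 0, nat_lit 487, nat_lit 0, nat_lit 603354, [nat_lit 3282000000, nat_lit 6250000000, nat_lit 9842000000], [], [nat_lit 34493957561, nat_lit 31021206377, nat_lit 28276686656, nat_lit 29135128544, nat_lit 27046393584,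 nat_lit 27659118912, nat_lit 34758848162, nat_lit 31860087634], nat_lit 1271250, nat_lit 1271250, nat_lit 780000, nat_lit 1762500, nat_lit 0, nat_lit 2260000, [nat_lit 780000, nat_lit 1435000, nat_lit 1271250], [nat_lit 8, nat_lit 40, nat_lit 40, nat_lit 80, nat_lit 1, nat_lit 373, nat_lit 150, nat_lit 11]⟩,
 zbF0, [⟨nat_lit 0, nat_lit 88, nat_lit 82, nat_lit 100, nat_lit 164080742⟩, ⟨nat_lit 7, nat_lit 100, nat_lit 93, nat_lit 97, nat_lit 120871426⟩]⟩
noncomputable def p095_l63 : Lf2 := ⟨nat_lit 0, nat_lit 20, [nat_lit 5, nat_lit 5, nat_lit 5, nat_lit 20], false, nat_lit 0, nat_lit 160, nat_lit 0, nat_lit 320, ⟨nat_lit 657, nat_lit 0, nat_lit 343, nat_lit 7, nat_lit 239, nat_lit 343, nat_lit 65, nat_lit 343, nat_lit 40017, nat_lit 264, nat_lit 121208, nat_lit 200, nat_lit 49412502, nat_lit 0, nat_lit 0, nat_lit 2878277, false, false⟩,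
 nat_lit 0, nat_lit 0, nat_lit 6597, nat_lit 0, nat_lit 4369, nat_lit 4567, nat_lit 730, nat_lit 0, nat_lit 0, nat_lit 675, nat_lit 0, nat_lit 0, nat_lit 0, nat_lit 0, nat_lit 0, nat_lit 85750, nat_lit 0, nat_lit 0, [(nat_lit 19, [(nat_lit 4, nat_lit 343)])],
 ⟨p095_k26, nat_lit 0, nat_lit 0, nat_lit 184, nat_lit 0, nat_lit 0, [nat_lit 1855835201, nat_lit 3010730001, nat_lit 5747540400], [], [nat_lit 19725623903, nat_lit 20526997752, nat_lit 22948742753, nat_lit 23893124386, nat_lit 17609736078, nat_lit 18260574476, nat_lit 20482764727, nat_lit 21165916211], nat_lit 0, nat_lit 0, nat_lit 0, nat_lit 0, nat_lit 0, nat_lit 0, [], [nat_lit 27, nat_lit 40, nat_lit 40, nat_lit 80, nat_lit 13, nat_lit 317, nat_lit 100, nat_lit 9]⟩, ⟨p095_k23, nat_lit 0, nat_lit 0, nat_lit 522, nat_lit 0, nat_lit 708648, [nat_lit 2156274000, nat_lit 4106250000, nat_lit 6466194000], [], [nat_lit 21224611472, nat_lit 18820771022, nat_lit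 17437576348, nat_lit 17974285480, nat_lit 16620963903, nat_lit 16992073480, nat_lit 22368970091, nat_lit 20378479677], nat_lit 1271250, nat_lit 1271250, nat_lit 872850, nat_lit 1769250, nat_lit 0, nat_lit 2260000, [nat_lit 780000, nat_lit 1435000, nat_lit 1271250], [nat_lit 8, nat_lit 40, nat_lit 40, nat_lit 80, nat_lit 1, nat_lit 373, nat_lit 150, nat_lit 11]⟩,
 ⟨nat_lit 3872, nat_lit 4184, ⟨.ofNat (nat_lit 495669), .ofNat (nat_lit 674568), .ofNat (nat_lit 517331), .ofNat (nat_lit 696229), .ofNat (nat_lit 499249), .ofNat (nat_lit 673466), .ofNat (nat_lit 521038), .ofNat (nat_lit 695254)⟩, ⟨.ofNat (nat_lit 0), .ofNat (nat_lit 303743), .ofNat (nat_lit 0), .ofNat (nat_lit 347076), .ofNat (nat_lit 0), .ofNat (nat_lit 304717), .ofNat (nat_lit 0), .ofNat (nat_lit 348304)⟩⟩, [⟨nat_lit 0, nat_lit 81, nat_lit 72, nat_lit 100, nat_lit 28142299⟩, ⟨nat_lit 7, nat_lit 100, nat_lit 93, nat_lit 97, nat_lit 93443087⟩]⟩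
noncomputable def p095_l64 : Lf2 := ⟨nat_lit 0, nat_lit 20, [nat_lit 5, nat_lit 5, nat_lit 5, nat_lit 20], false, nat_lit 0, nat_lit 160, nat_lit 0, nat_lit 320, ⟨nat_lit 322, nat_lit 0, nat_lit 678, nat_lit 7, nat_lit 231, nat_lit 678, nat_lit 65, nat_lit 678, nat_lit 40017, nat_lit 264, nat_lit 6920, nat_lit 202, nat_lit 50275671, nat_lit 0, nat_lit 0, nat_lit 2809568, false, false⟩,
 nat_lit 0, nat_lit 0, nat_lit 3312, nat_lit 0, nat_lit 2853, nat_lit 2292, nat_lit 0, nat_lit 0, nat_lit 0, nat_lit 268, nat_lit 0, nat_lit 0, nat_lit 0, nat_lit 0, nat_lit 59, nat_lit 445800, nat_lit 0, nat_lit 0, [(nat_lit 22, [(nat_lit 5, nat_lit 387), (nat_lit 6, nat_lit 291)])],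
 ⟨p095_k24, nat_lit 0, nat_lit 0, nat_lit 163, nat_lit 0, nat_lit 0, [nat_lit 1724244801, nat_lit 1452720400, nat_lit 40834800], [], [nat_lit 18899505176, nat_lit 20163086940, nat_lit 20145080821, nat_lit 21322999328, nat_lit 18998202449, nat_lit 20079585063, nat_lit 20127271535, nat_lit 21125014357], nat_lit 0, nat_lit 0, nat_lit 0, nat_lit 0, nat_lit 0, nat_lit 0, [], [nat_lit 34, nat_lit 40, nat_lit 40, nat_lit 80, nat_lit 7, nat_lit 317, nat_lit 100, nat_lit 10]⟩, ⟨p095_k23, nat_lit 0, nat_lit 0, nat_lit 632, nat_lit 0, nat_lit 935966, [nat_lit 1056804000, nat_lit 2012500000, nat_lit 3169124000], [], [nat_lit 9836749745, nat_lit 9246118525, nat_lit 9084533500, nat_lit 9300675588, nat_lit 8645425786, nat_lit 8778430229, nat_lit 9700978224, nat_lit 8691443788], nat_lit 1271250, nat_lit 1271250, nat_lit 968401, nat_lit 1439500, nat_lit 0, nat_lit 2260000, [nat_lit 780000, nat_lit 1435000, nat_lit 1271250], [nat_lit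 8, nat_lit 40, nat_lit 40, nat_lit 80, nat_lit 1, nat_lit 373, nat_lit 150, nat_lit 11]⟩,
 ⟨nat_lit 3162, nat_lit 3873, ⟨.ofNat (nat_lit 518447), .ofNat (nat_lit 608822), .ofNat (nat_lit 540212), .ofNat (nat_lit 630587), .ofNat (nat_lit 525251), .ofNat (nat_lit 610630), .ofNat (nat_lit 547377), .ofNat (nat_lit 632757)⟩, ⟨.ofNat (nat_lit 0), .ofNat (nat_lit 304717), .ofNat (nat_lit 0), .ofNat (nat_lit 348304), .ofNat (nat_lit 0), .ofNat (nat_lit 306116), .ofNat (nat_lit 0), .ofNat (nat_lit 350426)⟩⟩, [⟨nat_lit 0, nat_lit 80, nat_lit 60, nat_lit 100, nat_lit 170181985⟩, ⟨nat_lit 7, nat_lit 100, nat_lit 93, nat_lit 97, nat_lit 55525759⟩]⟩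
noncomputable def p095_l65 : Lf2 := ⟨nat_lit 0, nat_lit 20, [nat_lit 5, nat_lit 5, nat_lit 5, nat_lit 20], false, nat_lit 0, nat_lit 160, nat_lit 0, nat_lit 320, ⟨nat_lit 540, nat_lit 0, nat_lit 460, nat_lit 7, nat_lit 261, nat_lit 460, nat_lit 65, nat_lit 460, nat_lit 40017, nat_lit 264, nat_lit 119032, nat_lit 200, nat_lit 47010504, nat_lit 0, nat_lit 0, nat_lit 3047300, true, false⟩,
 nat_lit 0, nat_lit 0, nat_lit 5159, nat_lit 0, nat_lit 3585, nat_lit 3571, nat_lit 83, nat_lit 0, nat_lit 0, nat_lit 651, nat_lit 0, nat_lit 0, nat_lit 0, nat_lit 0, nat_lit 0, nat_lit 460000, nat_lit 0, nat_lit 0, [(nat_lit 22, [(nat_lit 6, nat_lit 460)])],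
 ⟨p095_k24, nat_lit 0, nat_lit 0, nat_lit 159, nat_lit 0, nat_lit 0, [nat_lit 1445408001, nat_lit 1442792000, nat_lit 233560000], [], [nat_lit 21199479660, nat_lit 22699580960, nat_lit 22541983490, nat_lit 24237166180, nat_lit 20103356631, nat_lit 21233660557, nat_lit 21292069837, nat_lit 22389788577], nat_lit 0, nat_lit 0, nat_lit 0, nat_lit 0, nat_lit 0, nat_lit 0, [], [nat_lit 34, nat_lit 40, nat_lit 40, nat_lit 80, nat_lit 7, nat_lit 317, nat_lit 100, nat_lit 10]⟩, ⟨p095_k23, nat_lit 0, nat_lit 0, nat_lit 615, nat_lit 0, nat_lit 935966, [nat_lit 1772280000, nat_lit 3375000000, nat_lit 5314680000], [], [nat_lit 14575820159, nat_lit 14892020817, nat_lit 14849401011, nat_lit 15138588237, nat_lit 13881588591, nat_lit 14052431813, nat_lit 13975984048, nat_lit 14653839888], nat_lit 1271250, nat_lit 1271250, nat_lit 1271250, nat_lit 1271250, nat_lit 0, nat_lit 2260000, [nat_lit 780000, nat_lit 1435000, nat_lit 1271250],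 [nat_lit 8, nat_lit 40, nat_lit 40, nat_lit 80, nat_lit 1, nat_lit 373, nat_lit 150, nat_lit 10]⟩,
 ⟨nat_lit 3162, nat_lit 3873, ⟨.ofNat (nat_lit 608822), .ofNat (nat_lit 673376), .ofNat (nat_lit 630587), .ofNat (nat_lit 695141), .ofNat (nat_lit 610630), .ofNat (nat_lit 671616), .ofNat (nat_lit 632757), .ofNat (nat_lit 693742)⟩, ⟨.ofNat (nat_lit 0), .ofNat (nat_lit 304717), .ofNat (nat_lit 0), .ofNat (nat_lit 348304), .ofNat (nat_lit 0), .ofNat (nat_lit 306116), .ofNat (nat_lit 0), .ofNat (nat_lit 350426)⟩⟩, [⟨nat_lit 19, nat_lit 93, nat_lit 100, nat_lit 97, nat_lit 96348213⟩]⟩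
noncomputable def b_V_800_700_20_28 : St := ⟨true, nat_lit 0, nat_lit 1, nat_lit 1, nat_lit 120, nat_lit 320, nat_lit 360, nat_lit 280, nat_lit 320, nat_lit 100, nat_lit 240, nat_lit 80, nat_lit 120, nat_lit 0, nat_lit 160, nat_lit 0, nat_lit 336, nat_lit 40, nat_lit 80, nat_lit 0, nat_lit 0, nat_lit 0, nat_lit 0⟩
theorem d_V_800_700_20_28 (h : EB TB.env) : Dead b_V_800_700_20_28 := chkB_sound0 h (T :=
(.spl (nat_lit 1) (nat_lit 300)
(.spl (nat_lit 2) (nat_lit 120)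
(.spl (nat_lit 0) (nat_lit 340)
(.leaf p095_l54)
(.emL (nat_lit 0) (nat_lit 99) (nat_lit 77) (nat_lit 100)))
(.spl (nat_lit 5) (nat_lit 160)
(.spl (nat_lit 0) (nat_lit 340)
(.leaf p095_l55)
(.trZ (nat_lit 0) (nat_lit 99) (nat_lit 77) (nat_lit 100) (nat_lit 124) (.leaf p095_l56)))
(.spl (nat_lit 0) (nat_lit 340)
(.spl (nat_lit 1) (nat_lit 290)
(.leaf p095_l57)
(.trX (nat_lit 19) (nat_lit 97) (nat_lit 84) (nat_lit 100) (nat_lit 328) (.leaf p095_l58)))
(.trZ (nat_lit 0) (nat_lit 99) (nat_lit 77) (nat_lit 100) (nat_lit 124) (.spl (nat_lit 4) (nat_lit 80)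
(.spl (nat_lit 1) (nat_lit 290)
(.leaf p095_l59)
(.trZ (nat_lit 0) (nat_lit 94) (nat_lit 75) (nat_lit 100) (nat_lit 132) (.trX (nat_lit 19) (nat_lit 97) (nat_lit 84) (nat_lit 100) (nat_lit 328) (.leaf p095_l60))))
(.leaf p095_l61))))))
(.trZ (nat_lit 0) (nat_lit 94) (nat_lit 87) (nat_lit 100) (nat_lit 120) (.trX (nat_lit 19) (nat_lit 94) (nat_lit 88) (nat_lit 100) (nat_lit 320) (.spl (nat_lit 0) (nat_lit 340)
(.spl (nat_lit 0) (nat_lit 330)
(.leaf p095_l62)
(.trZ (nat_lit 0) (nat_lit 92) (nat_lit 81) (nat_lit 100) (nat_lit 132) (.leaf p095_l63)))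
(.trZ (nat_lit 0) (nat_lit 90) (nat_lit 74) (nat_lit 100) (nat_lit 144) (.spl (nat_lit 2) (nat_lit 200)
(.leaf p095_l64)
(.leaf p095_l65)))))))) (by decide +kernel)
noncomputable def p095_l66 : Lf2 := ⟨nat_lit 0, nat_lit 20, [nat_lit 5, nat_lit 5, nat_lit 5, nat_lit 20], true, nat_lit 160, nat_lit 240, nat_lit 0, nat_lit 336, ⟨nat_lit 0, nat_lit 1000, nat_lit 0, nat_lit 7, nat_lit 219, nat_lit 1000, nat_lit 157, nat_lit 0, nat_lit 0, nat_lit 0, nat_lit 0, nat_lit 0, nat_lit 43958465, nat_lit 14506429, nat_lit 8535106, nat_lit 4673299, false, false⟩,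
 nat_lit 0, nat_lit 0, nat_lit 0, nat_lit 4285, nat_lit 3266, nat_lit 0, nat_lit 0, nat_lit 0, nat_lit 0, nat_lit 0, nat_lit 0, nat_lit 0, nat_lit 0, nat_lit 0, nat_lit 0, nat_lit 250000, nat_lit 0, nat_lit 0, [(nat_lit 19, [(nat_lit 0, nat_lit 1000)])],
 ⟨p095_k21, nat_lit 0, nat_lit 0, nat_lit 42, nat_lit 0, nat_lit 0, [nat_lit 1542400001, nat_lit 2368400000, nat_lit 3220880000], [], [nat_lit 15465609929, nat_lit 17111984613, nat_lit 19327691193, nat_lit 20641306753, nat_lit 18477122585, nat_lit 19938433606, nat_lit 21719764009, nat_lit 22865151017], nat_lit 0, nat_lit 0, nat_lit 0, nat_lit 0, nat_lit 0, nat_lit 0, [], [nat_lit 27, nat_lit 40, nat_lit 40, nat_lit 80, nat_lit 13, nat_lit 345, nat_lit 125, nat_lit 9]⟩, C1.Rw.none,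
 ⟨nat_lit 3872, nat_lit 4473, ⟨.ofNat (nat_lit 416230), .ofNat (nat_lit 654181), .ofNat (nat_lit 437779), .ofNat (nat_lit 675730), .ofNat (nat_lit 425778), .ofNat (nat_lit 651631), .ofNat (nat_lit 447554), .ofNat (nat_lit 673407)⟩, ⟨.ofNat (nat_lit 302621), .ofNat (nat_lit 438578), .ofNat (nat_lit 345754), .ofNat (nat_lit 481711), .ofNat (nat_lit 304717), .ofNat (nat_lit 433760), .ofNat (nat_lit 348304), .ofNat (nat_lit 477347)⟩⟩, []⟩
noncomputable def p095_l67 : Lf2 := ⟨nat_lit 0, nat_lit 20, [nat_lit 5, nat_lit 5, nat_lit 5, nat_lit 20], true, nat_lit 160, nat_lit 240, nat_lit 0, nat_lit 336, ⟨nat_lit 0, nat_lit 1000, nat_lit 0, nat_lit 7, nat_lit 228, nat_lit 1000, nat_lit 156, nat_lit 0, nat_lit 0, nat_lit 0, nat_lit 0, nat_lit 0, nat_lit 43245388, nat_lit 15345905, nat_lit 8408707, nat_lit 4728422, false, false⟩,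
 nat_lit 0, nat_lit 0, nat_lit 0, nat_lit 793, nat_lit 3223, nat_lit 0, nat_lit 0, nat_lit 0, nat_lit 0, nat_lit 0, nat_lit 0, nat_lit 0, nat_lit 0, nat_lit 0, nat_lit 0, nat_lit 250000, nat_lit 0, nat_lit 0, [(nat_lit 22, [(nat_lit 0, nat_lit 1000)])],
 ⟨p095_k24, nat_lit 0, nat_lit 0, nat_lit 47, nat_lit 0, nat_lit 0, [nat_lit 1568000001, nat_lit 1970800000, nat_lit 2712400000], [], [nat_lit 17393979962, nat_lit 18980677321, nat_lit 20686958857, nat_lit 21992505037, nat_lit 20112753670, nat_lit 21493348707, nat_lit 22908773349, nat_lit 24047637773], nat_lit 0, nat_lit 0, nat_lit 0, nat_lit 0, nat_lit 0, nat_lit 0, [], [nat_lit 34, nat_lit 40, nat_lit 40, nat_lit 80, nat_lit 7, nat_lit 345, nat_lit 125, nat_lit 10]⟩, C1.Rw.none,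
 ⟨nat_lit 3162, nat_lit 3873, ⟨.ofNat (nat_lit 464406), .ofNat (nat_lit 651611), .ofNat (nat_lit 486170), .ofNat (nat_lit 673376), .ofNat (nat_lit 472632), .ofNat (nat_lit 649490), .ofNat (nat_lit 494758), .ofNat (nat_lit 671616)⟩, ⟨.ofNat (nat_lit 304717), .ofNat (nat_lit 433760), .ofNat (nat_lit 348304), .ofNat (nat_lit 477347), .ofNat (nat_lit 306116), .ofNat (nat_lit 428022), .ofNat (nat_lit 350426), .ofNat (nat_lit 472332)⟩⟩, []⟩
noncomputable def p095_l68 : Lf2 := ⟨nat_lit 0, nat_lit 20, [nat_lit 5, nat_lit 5, nat_lit 5, nat_lit 20], true, nat_lit 240, nat_lit 280, nat_lit 0, nat_lit 320, ⟨nat_lit 0, nat_lit 1000, nat_lit 0, nat_lit 7, nat_lit 192, nat_lit 1000, nat_lit 193, nat_lit 0, nat_lit 0, nat_lit 0, nat_lit 0, nat_lit 0, nat_lit 43562464, nat_lit 11680504, nat_lit 11757032, nat_lit 4790860, false, false⟩,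
 nat_lit 0, nat_lit 0, nat_lit 0, nat_lit 5247, nat_lit 3207, nat_lit 0, nat_lit 0, nat_lit 0, nat_lit 0, nat_lit 0, nat_lit 0, nat_lit 0, nat_lit 0, nat_lit 0, nat_lit 0, nat_lit 250000, nat_lit 0, nat_lit 0, [(nat_lit 19, [(nat_lit 0, nat_lit 1000)])],
 ⟨p095_k21, nat_lit 0, nat_lit 0, nat_lit 49, nat_lit 0, nat_lit 0, [nat_lit 1542400001, nat_lit 2368400000, nat_lit 3220880000], [], [nat_lit 18505753869, nat_lit 19210498919, nat_lit 19366276485, nat_lit 20017548295, nat_lit 20562738835, nat_lit 21243038038, nat_lit 21275301621, nat_lit 21873406111], nat_lit 0, nat_lit 0, nat_lit 0, nat_lit 0, nat_lit 0, nat_lit 0, [], [nat_lit 27, nat_lit 40, nat_lit 40, nat_lit 80, nat_lit 13, nat_lit 345, nat_lit 125, nat_lit 9]⟩, C1.Rw.none,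
 ⟨nat_lit 4183, nat_lit 4473, ⟨.ofNat (nat_lit 416301), .ofNat (nat_lit 518271), .ofNat (nat_lit 437865), .ofNat (nat_lit 539833), .ofNat (nat_lit 421009), .ofNat (nat_lit 520394), .ofNat (nat_lit 442672), .ofNat (nat_lit 542057)⟩, ⟨.ofNat (nat_lit 438578), .ofNat (nat_lit 506556), .ofNat (nat_lit 460144), .ofNat (nat_lit 528122), .ofNat (nat_lit 436254), .ofNat (nat_lit 502509), .ofNat (nat_lit 457921), .ofNat (nat_lit 524176)⟩⟩, [⟨nat_lit 0, nat_lit 98, nat_lit 86, nat_lit 100, nat_lit 50709088⟩, ⟨nat_lit 16, nat_lit 87, nat_lit 100, nat_lit 94, nat_lit 262849857⟩]⟩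
noncomputable def p095_l69 : Lf2 := ⟨nat_lit 0, nat_lit 18, [nat_lit 100, nat_lit 5, nat_lit 5, nat_lit 20], false, nat_lit 240, nat_lit 300, nat_lit 0, nat_lit 160, ⟨nat_lit 1000, nat_lit 0, nat_lit 0, nat_lit 0, nat_lit 0, nat_lit 0, nat_lit 0, nat_lit 0, nat_lit 0, nat_lit 0, nat_lit 0, nat_lit 0, nat_lit 0, nat_lit 0, nat_lit 0, nat_lit 0, false, false⟩,
 nat_lit 0, nat_lit 0, nat_lit 13097, nat_lit 0, nat_lit 3673, nat_lit 8334, nat_lit 0, nat_lit 0, nat_lit 0, nat_lit 676, nat_lit 0, nat_lit 0, nat_lit 0, nat_lit 0, nat_lit 0, nat_lit 0, nat_lit 0, nat_lit 0, [],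
 ⟨p095_k27, nat_lit 0, nat_lit 0, nat_lit 56, nat_lit 0, nat_lit 0, [nat_lit 2032000001, nat_lit 4688000000, nat_lit 9842000000], [], [nat_lit 18769215253, nat_lit 19522960203, nat_lit 19551118077, nat_lit 20246114667, nat_lit 22023387964, nat_lit 22679228450, nat_lit 22562597733, nat_lit 23169623103], nat_lit 0, nat_lit 0, nat_lit 0, nat_lit 0, nat_lit 0, nat_lit 0, [], [nat_lit 27, nat_lit 40, nat_lit 40, nat_lit 80, nat_lit 13, nat_lit 345, nat_lit 125, nat_lit 9]⟩, ⟨p095_k28, nat_lit 0, nat_lit 0, nat_lit 412, nat_lit 0, nat_lit 334306, [nat_lit 3282000000, nat_lit 6250000000, nat_lit 11872000000], [], [nat_lit 32046525724, nat_lit 30747440324, nat_lit 28826734052, nat_lit 30145514316, nat_lit 23638194388, nat_lit 24844427778, nat_lit 27156204832, nat_lit 24281252152], nat_lit 1271250, nat_lit 1271250, nat_lit 631250, nat_lit 1100001, nat_lit 0, nat_lit 1100001, [nat_lit 780000, nat_lit 1435000, nat_lit 1271250],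 [nat_lit 23, nat_lit 40, nat_lit 40, nat_lit 80, nat_lit 12, nat_lit 401, nat_lit 175, nat_lit 10]⟩,
 zbF0, [⟨nat_lit 0, nat_lit 98, nat_lit 86, nat_lit 100, nat_lit 617310296⟩, ⟨nat_lit 4, nat_lit 100, nat_lit 86, nat_lit 98, nat_lit 581499157⟩]⟩
noncomputable def p095_l70 : Lf2 := ⟨nat_lit 0, nat_lit 18, [nat_lit 100, nat_lit 5, nat_lit 5, nat_lit 20], false, nat_lit 240, nat_lit 300, nat_lit 160, nat_lit 336, ⟨nat_lit 234, nat_lit 766, nat_lit 0, nat_lit 7, nat_lit 190, nat_lit 766, nat_lit 208, nat_lit 0, nat_lit 0, nat_lit 0, nat_lit 0, nat_lit 0, nat_lit 42573462, nat_lit 11321257, nat_lit 13105281, nat_lit 4890293, false, false⟩,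
 nat_lit 0, nat_lit 0, nat_lit 3222, nat_lit 4071, nat_lit 3248, nat_lit 2050, nat_lit 0, nat_lit 0, nat_lit 0, nat_lit 246, nat_lit 0, nat_lit 0, nat_lit 0, nat_lit 0, nat_lit 0, nat_lit 191500, nat_lit 0, nat_lit 0, [(nat_lit 19, [(nat_lit 0, nat_lit 766)])],
 ⟨p095_k27, nat_lit 0, nat_lit 0, nat_lit 56, nat_lit 0, nat_lit 0, [nat_lit 1656966401, nat_lit 2911186400, nat_lit 4742844080], [], [nat_lit 18600423953, nat_lit 19309480153, nat_lit 19454029377, nat_lit 20109148217, nat_lit 21700743689, nat_lit 22320272812, nat_lit 22330583433, nat_lit 22905228053], nat_lit 0, nat_lit 0, nat_lit 0, nat_lit 0, nat_lit 0, nat_lit 0, [], [nat_lit 27, nat_lit 40, nat_lit 40, nat_lit 80, nat_lit 13, nat_lit 345, nat_lit 125, nat_lit 9]⟩, ⟨p095_k28, nat_lit 0, nat_lit 0, nat_lit 227, nat_lit 0, nat_lit 250112, [nat_lit 767988000, nat_lit 1462500000, nat_lit 2778048000], [], [nat_lit 6104430108, nat_lit 5574589158, nat_lit 4198645234,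 nat_lit 4371154152, nat_lit 6131780645, nat_lit 6247823815, nat_lit 6516529464, nat_lit 6042484184], nat_lit 1271250, nat_lit 1271250, nat_lit 631250, nat_lit 1100001, nat_lit 1100001, nat_lit 2607000, [nat_lit 780000, nat_lit 1435000, nat_lit 1271250], [nat_lit 23, nat_lit 40, nat_lit 40, nat_lit 80, nat_lit 12, nat_lit 428, nat_lit 200, nat_lit 11]⟩,
 ⟨nat_lit 4183, nat_lit 4473, ⟨.ofNat (nat_lit 416301), .ofNat (nat_lit 518271), .ofNat (nat_lit 427083), .ofNat (nat_lit 529051), .ofNat (nat_lit 421009), .ofNat (nat_lit 520394), .ofNat (nat_lit 431840), .ofNat (nat_lit 531225)⟩, ⟨.ofNat (nat_lit 460144), .ofNat (nat_lit 562111), .ofNat (nat_lit 481711), .ofNat (nat_lit 583678), .ofNat (nat_lit 457921), .ofNat (nat_lit 557304), .ofNat (nat_lit 479587), .ofNat (nat_lit 578971)⟩⟩, [⟨nat_lit 0, nat_lit 97, nat_lit 82, nat_lit 100, nat_lit 135281973⟩, ⟨nat_lit 16, nat_lit 86, nat_lit 100, nat_lit 98, nat_lit 246512192⟩,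 ⟨nat_lit 7, nat_lit 87, nat_lit 100, nat_lit 99, nat_lit 4073914⟩, ⟨nat_lit 11, nat_lit 88, nat_lit 88, nat_lit 100, nat_lit 73070608⟩]⟩
noncomputable def p095_l71 : Lf2 := ⟨nat_lit 0, nat_lit 18, [nat_lit 100, nat_lit 5, nat_lit 5, nat_lit 20], false, nat_lit 240, nat_lit 300, nat_lit 160, nat_lit 328, ⟨nat_lit 1000, nat_lit 0, nat_lit 0, nat_lit 0, nat_lit 0, nat_lit 0, nat_lit 0, nat_lit 0, nat_lit 0, nat_lit 0, nat_lit 0, nat_lit 0, nat_lit 0, nat_lit 0, nat_lit 0, nat_lit 0, false, false⟩,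
 nat_lit 0, nat_lit 0, nat_lit 12047, nat_lit 681, nat_lit 3696, nat_lit 8000, nat_lit 0, nat_lit 0, nat_lit 0, nat_lit 903, nat_lit 0, nat_lit 0, nat_lit 0, nat_lit 0, nat_lit 0, nat_lit 0, nat_lit 0, nat_lit 0, [],
 ⟨p095_k27, nat_lit 0, nat_lit 0, nat_lit 54, nat_lit 0, nat_lit 0, [nat_lit 2032000001, nat_lit 4688000000, nat_lit 9842000000], [], [nat_lit 18798990385, nat_lit 19547952441, nat_lit 19536076353, nat_lit 20233231033, nat_lit 22032858198, nat_lit 22684721622, nat_lit 22554857865, nat_lit 23163635605], nat_lit 0, nat_lit 0, nat_lit 0, nat_lit 0, nat_lit 0, nat_lit 0, [], [nat_lit 27, nat_lit 40, nat_lit 40, nat_lit 80, nat_lit 13, nat_lit 345, nat_lit 125, nat_lit 9]⟩, ⟨p095_k29, nat_lit 0, nat_lit 0, nat_lit 217, nat_lit 0, nat_lit 314313, [nat_lit 3282000000, nat_lit 6250000000, nat_lit 9842000000], [], [nat_lit 22400714400, nat_lit 20339218400, nat_lit 17690790000, nat_lit 18485468000, nat_lit 25472272870,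 nat_lit 26025559261, nat_lit 24894544950, nat_lit 25345957601], nat_lit 1271250, nat_lit 1271250, nat_lit 689850, nat_lit 1100001, nat_lit 1100001, nat_lit 2538500, [nat_lit 780000, nat_lit 1435000, nat_lit 1271250], [nat_lit 8, nat_lit 40, nat_lit 40, nat_lit 80, nat_lit 1, nat_lit 345, nat_lit 125, nat_lit 9]⟩,
 zbF0, [⟨nat_lit 0, nat_lit 96, nat_lit 85, nat_lit 100, nat_lit 665528807⟩, ⟨nat_lit 16, nat_lit 87, nat_lit 95, nat_lit 100, nat_lit 555548263⟩, ⟨nat_lit 19, nat_lit 97, nat_lit 84, nat_lit 100, nat_lit 327629289⟩]⟩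
noncomputable def p095_l72 : Lf2 := ⟨nat_lit 1, nat_lit 20, [nat_lit 5, nat_lit 5, nat_lit 5, nat_lit 20], false, nat_lit 240, nat_lit 300, nat_lit 0, nat_lit 336, zbN0,
 nat_lit 0, nat_lit 0, nat_lit 0, nat_lit 0, nat_lit 0, nat_lit 0, nat_lit 0, nat_lit 0, nat_lit 0, nat_lit 0, nat_lit 0, nat_lit 0, nat_lit 0, nat_lit 0, nat_lit 0, nat_lit 0, nat_lit 0, nat_lit 0, [],
 C1.Rw.none, C1.Rw.none,
 zbF0, []⟩
noncomputable def p095_l73 : Lf2 := ⟨nat_lit 0, nat_lit 20, [nat_lit 5, nat_lit 5, nat_lit 5, nat_lit 20], true, nat_lit 240, nat_lit 288, nat_lit 0, nat_lit 336, ⟨nat_lit 0, nat_lit 1000, nat_lit 0, nat_lit 7, nat_lit 195, nat_lit 1000, nat_lit 198, nat_lit 0, nat_lit 0, nat_lit 0, nat_lit 0, nat_lit 0, nat_lit 42911874, nat_lit 11883464, nat_lit 12204662, nat_lit 4860675, false, false⟩,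
 nat_lit 0, nat_lit 0, nat_lit 0, nat_lit 5295, nat_lit 3177, nat_lit 0, nat_lit 0, nat_lit 0, nat_lit 0, nat_lit 0, nat_lit 0, nat_lit 0, nat_lit 0, nat_lit 0, nat_lit 0, nat_lit 250000, nat_lit 0, nat_lit 0, [(nat_lit 19, [(nat_lit 0, nat_lit 1000)])],
 ⟨p095_k26, nat_lit 0, nat_lit 0, nat_lit 53, nat_lit 0, nat_lit 0, [nat_lit 1542400001, nat_lit 2368400000, nat_lit 3220880000], [], [nat_lit 19301842397, nat_lit 19993692805, nat_lit 20034353035, nat_lit 20682809945, nat_lit 21661198832, nat_lit 22317279721, nat_lit 22254186447, nat_lit 22839265933], nat_lit 0, nat_lit 0, nat_lit 0, nat_lit 0, nat_lit 0, nat_lit 0, [], [nat_lit 27, nat_lit 40, nat_lit 40, nat_lit 80, nat_lit 13, nat_lit 345, nat_lit 125, nat_lit 9]⟩, C1.Rw.none,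
 ⟨nat_lit 3872, nat_lit 4184, ⟨.ofNat (nat_lit 440878), .ofNat (nat_lit 520388), .ofNat (nat_lit 451709), .ofNat (nat_lit 531219), .ofNat (nat_lit 445199), .ofNat (nat_lit 522628), .ofNat (nat_lit 456093), .ofNat (nat_lit 533523)⟩, ⟨.ofNat (nat_lit 436254), .ofNat (nat_lit 515761), .ofNat (nat_lit 479587), .ofNat (nat_lit 559094), .ofNat (nat_lit 433760), .ofNat (nat_lit 511186), .ofNat (nat_lit 477347), .ofNat (nat_lit 554773)⟩⟩, [⟨nat_lit 0, nat_lit 98, nat_lit 80, nat_lit 100, nat_lit 43071411⟩, ⟨nat_lit 16, nat_lit 83, nat_lit 98, nat_lit 100, nat_lit 260037702⟩]⟩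
noncomputable def p095_l74 : Lf2 := ⟨nat_lit 0, nat_lit 20, [nat_lit 5, nat_lit 5, nat_lit 5, nat_lit 20], false, nat_lit 240, nat_lit 288, nat_lit 0, nat_lit 328, ⟨nat_lit 226, nat_lit 774, nat_lit 0, nat_lit 7, nat_lit 202, nat_lit 774, nat_lit 198, nat_lit 0, nat_lit 0, nat_lit 0, nat_lit 0, nat_lit 0, nat_lit 42405655, nat_lit 12475530, nat_lit 12118815, nat_lit 4913583, false, false⟩,
 nat_lit 0, nat_lit 0, nat_lit 3903, nat_lit 0, nat_lit 3319, nat_lit 2591, nat_lit 0, nat_lit 0, nat_lit 0, nat_lit 149, nat_lit 0, nat_lit 0, nat_lit 0, nat_lit 0, nat_lit 0, nat_lit 193500, nat_lit 0, nat_lit 0, [(nat_lit 19, [(nat_lit 0, nat_lit 774)])],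
 ⟨p095_k30, nat_lit 0, nat_lit 0, nat_lit 61, nat_lit 0, nat_lit 0, [nat_lit 1653049601, nat_lit 3428924801, nat_lit 4711844000], [], [nat_lit 19398429417, nat_lit 20098233477, nat_lit 20065460199, nat_lit 20727240969, nat_lit 21775407418, nat_lit 22433723117, nat_lit 22319354526, nat_lit 22915753968], nat_lit 0, nat_lit 0, nat_lit 0, nat_lit 0, nat_lit 0, nat_lit 0, [], [nat_lit 61, nat_lit 40, nat_lit 40, nat_lit 80, nat_lit 1, nat_lit 345, nat_lit 125, nat_lit 9]⟩, ⟨p095_k31, nat_lit 0, nat_lit 0, nat_lit 552, nat_lit 0, nat_lit 581606, [nat_lit 741732000, nat_lit 1800768000, nat_lit 2683072000], [], [nat_lit 7385255812, nat_lit 7071120619, nat_lit 6719253215, nat_lit 6957003165, nat_lit 6175887012, nat_lit 6304811214, nat_lit 6306412779, nat_lit 6169796162], nat_lit 1271250, nat_lit 1271250, nat_lit 780000, nat_lit 1100001, nat_lit 0, nat_lit 2316500, [nat_lit 780000, nat_lit 1762500, nat_lit 1271250], [nat_lit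 79, nat_lit 40, nat_lit 40, nat_lit 80, nat_lit 14, nat_lit 428, nat_lit 200, nat_lit 11]⟩,
 ⟨nat_lit 3872, nat_lit 4184, ⟨.ofNat (nat_lit 464961), .ofNat (nat_lit 531219), .ofNat (nat_lit 475791), .ofNat (nat_lit 542050), .ofNat (nat_lit 468998), .ofNat (nat_lit 533523), .ofNat (nat_lit 479892), .ofNat (nat_lit 544417)⟩, ⟨.ofNat (nat_lit 436254), .ofNat (nat_lit 515761), .ofNat (nat_lit 479587), .ofNat (nat_lit 559094), .ofNat (nat_lit 433760), .ofNat (nat_lit 511186), .ofNat (nat_lit 477347), .ofNat (nat_lit 554773)⟩⟩, [⟨nat_lit 0, nat_lit 93, nat_lit 78, nat_lit 100, nat_lit 191943929⟩, ⟨nat_lit 16, nat_lit 83, nat_lit 98, nat_lit 100, nat_lit 333518904⟩, ⟨nat_lit 19, nat_lit 97, nat_lit 84, nat_lit 100, nat_lit 27908959⟩]⟩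
noncomputable def p095_l75 : Lf2 := ⟨nat_lit 0, nat_lit 20, [nat_lit 5, nat_lit 5, nat_lit 5, nat_lit 20], false, nat_lit 240, nat_lit 276, nat_lit 0, nat_lit 160, ⟨nat_lit 1000, nat_lit 0, nat_lit 0, nat_lit 0, nat_lit 0, nat_lit 0, nat_lit 0, nat_lit 0, nat_lit 0, nat_lit 0, nat_lit 0, nat_lit 0, nat_lit 0, nat_lit 0, nat_lit 0, nat_lit 0, false, false⟩,
 nat_lit 0, nat_lit 0, nat_lit 14186, nat_lit 0, nat_lit 3797, nat_lit 9027, nat_lit 0, nat_lit 0, nat_lit 0, nat_lit 840, nat_lit 0, nat_lit 0, nat_lit 0, nat_lit 0, nat_lit 0, nat_lit 0, nat_lit 0, nat_lit 0, [],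
 ⟨p095_k24, nat_lit 0, nat_lit 0, nat_lit 57, nat_lit 0, nat_lit 0, [nat_lit 2032000001, nat_lit 4688000000, nat_lit 7968000000], [], [nat_lit 20357503349, nat_lit 21889076934, nat_lit 20883286585, nat_lit 22296549605, nat_lit 22201835852, nat_lit 23651682169, nat_lit 22605604000, nat_lit 23976813022], nat_lit 0, nat_lit 0, nat_lit 0, nat_lit 0, nat_lit 0, nat_lit 0, [], [nat_lit 34, nat_lit 40, nat_lit 40, nat_lit 80, nat_lit 7, nat_lit 249, nat_lit 40, nat_lit 7]⟩, ⟨p095_k22, nat_lit 0, nat_lit 0, nat_lit 696, nat_lit 0, nat_lit 890782, [nat_lit 3282000000, nat_lit 6250000000, nat_lit 11872000000], [], [nat_lit 28698730190, nat_lit 29315165166, nat_lit 28271490660, nat_lit 28844529980, nat_lit 23325837326, nat_lit 23914767493, nat_lit 25893037696, nat_lit 23615715460], nat_lit 1271250, nat_lit 1271250, nat_lit 810650, nat_lit 1100001, nat_lit 0, nat_lit 1100001, [nat_lit 780000, nat_lit 1435000, nat_lit 1271250],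 [nat_lit 23, nat_lit 40, nat_lit 40, nat_lit 80, nat_lit 12, nat_lit 401, nat_lit 175, nat_lit 10]⟩,
 zbF0, [⟨nat_lit 0, nat_lit 92, nat_lit 68, nat_lit 100, nat_lit 811534049⟩, ⟨nat_lit 4, nat_lit 100, nat_lit 67, nat_lit 88, nat_lit 1738035290⟩]⟩
noncomputable def p095_l76 : Lf2 := ⟨nat_lit 0, nat_lit 20, [nat_lit 5, nat_lit 5, nat_lit 5, nat_lit 20], false, nat_lit 240, nat_lit 276, nat_lit 160, nat_lit 336, ⟨nat_lit 200, nat_lit 800, nat_lit 0, nat_lit 7, nat_lit 203, nat_lit 800, nat_lit 192, nat_lit 0, nat_lit 0, nat_lit 0, nat_lit 0, nat_lit 0, nat_lit 42754637, nat_lit 12641014, nat_lit 11604349, nat_lit 4875381, false, false⟩,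
 nat_lit 0, nat_lit 0, nat_lit 2955, nat_lit 0, nat_lit 3327, nat_lit 1880, nat_lit 0, nat_lit 0, nat_lit 0, nat_lit 180, nat_lit 0, nat_lit 0, nat_lit 0, nat_lit 0, nat_lit 0, nat_lit 200000, nat_lit 0, nat_lit 0, [(nat_lit 22, [(nat_lit 0, nat_lit 800)])],
 ⟨p095_k24, nat_lit 0, nat_lit 0, nat_lit 57, nat_lit 0, nat_lit 0, [nat_lit 1660800001, nat_lit 2514240001, nat_lit 3763520000], [], [nat_lit 20165828873, nat_lit 21565048594, nat_lit 20731260745, nat_lit 22056323565, nat_lit 21888373989, nat_lit 23247365637, nat_lit 22374000016, nat_lit 23632644806], nat_lit 0, nat_lit 0, nat_lit 0, nat_lit 0, nat_lit 0, nat_lit 0, [], [nat_lit 34, nat_lit 40, nat_lit 40, nat_lit 80, nat_lit 7, nat_lit 249, nat_lit 40, nat_lit 7]⟩, ⟨p095_k22, nat_lit 0, nat_lit 0, nat_lit 563, nat_lit 0, nat_lit 890782, [nat_lit 656400000, nat_lit 1250000000, nat_lit 2374400000], [], [nat_lit 4097114125, nat_lit 4234315740, nat_lit 4013280780,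 nat_lit 4140892140, nat_lit 5344525901, nat_lit 5542625001, nat_lit 5445090592, nat_lit 5411197665], nat_lit 1271250, nat_lit 1271250, nat_lit 810650, nat_lit 1100001, nat_lit 1100001, nat_lit 2607000, [nat_lit 780000, nat_lit 1435000, nat_lit 1271250], [nat_lit 23, nat_lit 40, nat_lit 40, nat_lit 80, nat_lit 12, nat_lit 428, nat_lit 200, nat_lit 10]⟩,
 ⟨nat_lit 3162, nat_lit 3873, ⟨.ofNat (nat_lit 464406), .ofNat (nat_lit 522504), .ofNat (nat_lit 486170), .ofNat (nat_lit 544269), .ofNat (nat_lit 472632), .ofNat (nat_lit 527519), .ofNat (nat_lit 494758), .ofNat (nat_lit 549645)⟩, ⟨.ofNat (nat_lit 433760), .ofNat (nat_lit 491830), .ofNat (nat_lit 477347), .ofNat (nat_lit 535416), .ofNat (nat_lit 428022), .ofNat (nat_lit 482881), .ofNat (nat_lit 472332), .ofNat (nat_lit 527190)⟩⟩, [⟨nat_lit 0, nat_lit 99, nat_lit 77, nat_lit 100, nat_lit 165988088⟩, ⟨nat_lit 16, nat_lit 77, nat_lit 100, nat_lit 99, nat_lit 353303989⟩,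 ⟨nat_lit 19, nat_lit 100, nat_lit 80, nat_lit 100, nat_lit 81624925⟩]⟩
noncomputable def p095_l77 : Lf2 := ⟨nat_lit 0, nat_lit 20, [nat_lit 5, nat_lit 5, nat_lit 5, nat_lit 20], false, nat_lit 240, nat_lit 300, nat_lit 0, nat_lit 160, ⟨nat_lit 1000, nat_lit 0, nat_lit 0, nat_lit 0, nat_lit 0, nat_lit 0, nat_lit 0, nat_lit 0, nat_lit 0, nat_lit 0, nat_lit 0, nat_lit 0, nat_lit 0, nat_lit 0, nat_lit 0, nat_lit 0, false, false⟩,
 nat_lit 0, nat_lit 0, nat_lit 12473, nat_lit 0, nat_lit 3797, nat_lit 7937, nat_lit 0, nat_lit 0, nat_lit 0, nat_lit 912, nat_lit 0, nat_lit 0, nat_lit 0, nat_lit 0, nat_lit 0, nat_lit 0, nat_lit 0, nat_lit 0, [],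
 ⟨p095_k21, nat_lit 0, nat_lit 0, nat_lit 55, nat_lit 0, nat_lit 0, [nat_lit 2032000001, nat_lit 4688000000, nat_lit 9842000000], [], [nat_lit 19470023565, nat_lit 22296549605, nat_lit 21906262837, nat_lit 24379819152, nat_lit 22520869749, nat_lit 25097322756, nat_lit 24545409625, nat_lit 26805812256], nat_lit 0, nat_lit 0, nat_lit 0, nat_lit 0, nat_lit 0, nat_lit 0, [], [nat_lit 27, nat_lit 40, nat_lit 40, nat_lit 80, nat_lit 13, nat_lit 373, nat_lit 150, nat_lit 10]⟩, ⟨p095_k22, nat_lit 0, nat_lit 0, nat_lit 682, nat_lit 0, nat_lit 890782, [nat_lit 3282000000, nat_lit 6250000000, nat_lit 11872000000], [], [nat_lit 33233543068, nat_lit 30788704168, nat_lit 30755348588, nat_lit 31396027380, nat_lit 25435611832, nat_lit 26098030586, nat_lit 28581595976, nat_lit 27067448644], nat_lit 1271250, nat_lit 1271250, nat_lit 1100001, nat_lit 1785000, nat_lit 0, nat_lit 1100001, [nat_lit 780000, nat_lit 1435000, nat_lit 1271250],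 [nat_lit 23, nat_lit 40, nat_lit 40, nat_lit 80, nat_lit 12, nat_lit 401, nat_lit 175, nat_lit 10]⟩,
 zbF0, [⟨nat_lit 0, nat_lit 87, nat_lit 60, nat_lit 100, nat_lit 250959724⟩, ⟨nat_lit 4, nat_lit 100, nat_lit 74, nat_lit 90, nat_lit 1384898554⟩]⟩
noncomputable def p095_l78 : Lf2 := ⟨nat_lit 0, nat_lit 20, [nat_lit 5, nat_lit 5, nat_lit 5, nat_lit 20], false, nat_lit 240, nat_lit 300, nat_lit 160, nat_lit 336, ⟨nat_lit 289, nat_lit 711, nat_lit 0, nat_lit 7, nat_lit 239, nat_lit 711, nat_lit 201, nat_lit 0, nat_lit 0, nat_lit 0, nat_lit 0, nat_lit 0, nat_lit 39512012, nat_lit 15625800, nat_lit 11862188, nat_lit 5167319, false, false⟩,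
 nat_lit 0, nat_lit 0, nat_lit 3976, nat_lit 0, nat_lit 3411, nat_lit 2530, nat_lit 0, nat_lit 0, nat_lit 0, nat_lit 279, nat_lit 0, nat_lit 0, nat_lit 0, nat_lit 0, nat_lit 0, nat_lit 177750, nat_lit 0, nat_lit 0, [(nat_lit 19, [(nat_lit 0, nat_lit 711)]), (nat_lit 22, [(nat_lit 0, nat_lit 711)])],
 ⟨p095_k21, nat_lit 0, nat_lit 0, nat_lit 55, nat_lit 0, nat_lit 0, [nat_lit 1702096001, nat_lit 3038764401, nat_lit 5100570680], [], [nat_lit 19392558933, nat_lit 22074211453, nat_lit 21796692269, nat_lit 24156241776, nat_lit 22320860925, nat_lit 24774415228, nat_lit 24348887375, nat_lit 26508187728], nat_lit 0, nat_lit 0, nat_lit 0, nat_lit 0, nat_lit 0, nat_lit 0, [], [nat_lit 27, nat_lit 40, nat_lit 40, nat_lit 80, nat_lit 13, nat_lit 373, nat_lit 150, nat_lit 10]⟩, ⟨p095_k22, nat_lit 0, nat_lit 0, nat_lit 550, nat_lit 0, nat_lit 890782, [nat_lit 948498000, nat_lit 1806250000, nat_lit 3431008000], [], [nat_lit 6392522020,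 nat_lit 6646534216, nat_lit 6697272168, nat_lit 6908421644, nat_lit 7560395487, nat_lit 7714854855, nat_lit 7818543079, nat_lit 8217312225], nat_lit 1271250, nat_lit 1271250, nat_lit 1100001, nat_lit 1785000, nat_lit 1271250, nat_lit 1271250, [nat_lit 780000, nat_lit 1435000, nat_lit 1271250], [nat_lit 23, nat_lit 40, nat_lit 40, nat_lit 80, nat_lit 12, nat_lit 456, nat_lit 225, nat_lit 11]⟩,
 ⟨nat_lit 3162, nat_lit 4473, ⟨.ofNat (nat_lit 517847), .ofNat (nat_lit 653959), .ofNat (nat_lit 539323), .ofNat (nat_lit 675435), .ofNat (nat_lit 527226), .ofNat (nat_lit 649288), .ofNat (nat_lit 549290), .ofNat (nat_lit 671352)⟩, ⟨.ofNat (nat_lit 438578), .ofNat (nat_lit 540545), .ofNat (nat_lit 481711), .ofNat (nat_lit 583678), .ofNat (nat_lit 428022), .ofNat (nat_lit 519453), .ofNat (nat_lit 472332), .ofNat (nat_lit 563762)⟩⟩, [⟨nat_lit 16, nat_lit 74, nat_lit 100, nat_lit 90, nat_lit 451659490⟩, ⟨nat_lit 19, nat_lit 100,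 nat_lit 94, nat_lit 97, nat_lit 99221079⟩]⟩
noncomputable def p095_l79 : Lf2 := ⟨nat_lit 0, nat_lit 20, [nat_lit 5, nat_lit 5, nat_lit 5, nat_lit 20], false, nat_lit 160, nat_lit 300, nat_lit 0, nat_lit 160, ⟨nat_lit 1000, nat_lit 0, nat_lit 0, nat_lit 0, nat_lit 0, nat_lit 0, nat_lit 0, nat_lit 0, nat_lit 0, nat_lit 0, nat_lit 0, nat_lit 0, nat_lit 0, nat_lit 0, nat_lit 0, nat_lit 0, false, false⟩,
 nat_lit 0, nat_lit 0, nat_lit 9414, nat_lit 0, nat_lit 3691, nat_lit 6517, nat_lit 0, nat_lit 0, nat_lit 0, nat_lit 1341, nat_lit 0, nat_lit 0, nat_lit 0, nat_lit 0, nat_lit 0, nat_lit 0, nat_lit 0, nat_lit 0, [],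
 ⟨p095_k21, nat_lit 0, nat_lit 0, nat_lit 54, nat_lit 0, nat_lit 0, [nat_lit 2032000001, nat_lit 4688000000, nat_lit 9842000000], [], [nat_lit 15824627793, nat_lit 17537637021, nat_lit 19539346293, nat_lit 20932717353, nat_lit 22052450364, nat_lit 23337523970, nat_lit 24577011639, nat_lit 25639095713], nat_lit 0, nat_lit 0, nat_lit 0, nat_lit 0, nat_lit 0, nat_lit 0, [], [nat_lit 27, nat_lit 40, nat_lit 40, nat_lit 80, nat_lit 13, nat_lit 373, nat_lit 150, nat_lit 10]⟩, ⟨p095_k23, nat_lit 0, nat_lit 0, nat_lit 542, nat_lit 0, nat_lit 708648, [nat_lit 3282000000, nat_lit 6250000000, nat_lit 9842000000], [], [nat_lit 29491395962, nat_lit 26097485736, nat_lit 25675237342, nat_lit 26377371300, nat_lit 21814211556, nat_lit 22540073148, nat_lit 30489351178, nat_lit 27576252178], nat_lit 1271250, nat_lit 1271250, nat_lit 780000, nat_lit 1762500, nat_lit 0, nat_lit 1100001, [nat_lit 780000, nat_lit 1435000, nat_lit 1271250],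 [nat_lit 8, nat_lit 40, nat_lit 40, nat_lit 80, nat_lit 1, nat_lit 317, nat_lit 100, nat_lit 9]⟩,
 zbF0, [⟨nat_lit 0, nat_lit 87, nat_lit 79, nat_lit 100, nat_lit 160567646⟩, ⟨nat_lit 4, nat_lit 100, nat_lit 81, nat_lit 92, nat_lit 572684040⟩]⟩
noncomputable def p095_l80 : Lf2 := ⟨nat_lit 0, nat_lit 20, [nat_lit 5, nat_lit 5, nat_lit 5, nat_lit 20], false, nat_lit 160, nat_lit 300, nat_lit 160, nat_lit 320, ⟨nat_lit 1000, nat_lit 0, nat_lit 0, nat_lit 0, nat_lit 0, nat_lit 0, nat_lit 0, nat_lit 0, nat_lit 0, nat_lit 0, nat_lit 0, nat_lit 0, nat_lit 0, nat_lit 0, nat_lit 0, nat_lit 0, false, false⟩,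
 nat_lit 0, nat_lit 0, nat_lit 10125, nat_lit 0, nat_lit 3691, nat_lit 7009, nat_lit 0, nat_lit 0, nat_lit 0, nat_lit 980, nat_lit 0, nat_lit 0, nat_lit 0, nat_lit 0, nat_lit 0, nat_lit 0, nat_lit 0, nat_lit 0, [],
 ⟨p095_k21, nat_lit 0, nat_lit 0, nat_lit 54, nat_lit 0, nat_lit 0, [nat_lit 2032000001, nat_lit 4688000000, nat_lit 9842000000], [], [nat_lit 15824627793, nat_lit 17537637021, nat_lit 19539346293, nat_lit 20932717353, nat_lit 22052450364, nat_lit 23337523970, nat_lit 24577011639, nat_lit 25639095713], nat_lit 0, nat_lit 0, nat_lit 0, nat_lit 0, nat_lit 0, nat_lit 0, [], [nat_lit 27, nat_lit 40, nat_lit 40, nat_lit 80, nat_lit 13, nat_lit 373, nat_lit 150, nat_lit 10]⟩, ⟨p095_k23, nat_lit 0, nat_lit 0, nat_lit 435, nat_lit 0, nat_lit 708648, [nat_lit 3282000000, nat_lit 6250000000, nat_lit 9842000000], [], [nat_lit 20415722572, nat_lit 21343300916, nat_lit 21923632928, nat_lit 22810125340, nat_lit 24853565886,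 nat_lit 25615137988, nat_lit 30992937492, nat_lit 27819206220], nat_lit 1271250, nat_lit 1271250, nat_lit 780000, nat_lit 1762500, nat_lit 1100001, nat_lit 2470000, [nat_lit 780000, nat_lit 1435000, nat_lit 1271250], [nat_lit 8, nat_lit 40, nat_lit 40, nat_lit 80, nat_lit 1, nat_lit 373, nat_lit 150, nat_lit 10]⟩,
 zbF0, [⟨nat_lit 0, nat_lit 81, nat_lit 72, nat_lit 100, nat_lit 325687432⟩, ⟨nat_lit 4, nat_lit 100, nat_lit 81, nat_lit 92, nat_lit 520276605⟩, ⟨nat_lit 19, nat_lit 94, nat_lit 88, nat_lit 100, nat_lit 380843146⟩]⟩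
noncomputable def p095_l81 : Lf2 := ⟨nat_lit 0, nat_lit 20, [nat_lit 5, nat_lit 5, nat_lit 5, nat_lit 20], false, nat_lit 160, nat_lit 276, nat_lit 0, nat_lit 320, ⟨nat_lit 268, nat_lit 732, nat_lit 0, nat_lit 7, nat_lit 241, nat_lit 732, nat_lit 167, nat_lit 0, nat_lit 0, nat_lit 0, nat_lit 0, nat_lit 0, nat_lit 41496057, nat_lit 16354229, nat_lit 9149714, nat_lit 4908964, false, false⟩,
 nat_lit 0, nat_lit 0, nat_lit 2624, nat_lit 0, nat_lit 3308, nat_lit 1816, nat_lit 0, nat_lit 0, nat_lit 0, nat_lit 200, nat_lit 0, nat_lit 0, nat_lit 0, nat_lit 0, nat_lit 0, nat_lit 183000, nat_lit 0, nat_lit 0, [(nat_lit 22, [(nat_lit 0, nat_lit 732)])],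
 ⟨p095_k24, nat_lit 0, nat_lit 0, nat_lit 53, nat_lit 0, nat_lit 0, [nat_lit 1692352001, nat_lit 2699009600, nat_lit 4120900800], [], [nat_lit 17858501262, nat_lit 19420620651, nat_lit 20771672977, nat_lit 22093170257, nat_lit 22194517060, nat_lit 23446415758, nat_lit 24426551518, nat_lit 25496374387], nat_lit 0, nat_lit 0, nat_lit 0, nat_lit 0, nat_lit 0, nat_lit 0, [], [nat_lit 34, nat_lit 40, nat_lit 40, nat_lit 80, nat_lit 7, nat_lit 373, nat_lit 150, nat_lit 11]⟩, ⟨p095_k23, nat_lit 0, nat_lit 0, nat_lit 604, nat_lit 0, nat_lit 860326, [nat_lit 879576000, nat_lit 1675000000, nat_lit 2637656000], [], [nat_lit 8197506815, nat_lit 7916096057, nat_lit 8046760208, nat_lit 8136116716, nat_lit 7541194453, nat_lit 7597364964, nat_lit 9465010160, nat_lit 9064267992], nat_lit 1271250, nat_lit 1271250, nat_lit 968401, nat_lit 1776000, nat_lit 0, nat_lit 2260000, [nat_lit 780000, nat_lit 1435000, nat_lit 1271250], [nat_lit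 8, nat_lit 40, nat_lit 40, nat_lit 80, nat_lit 1, nat_lit 373, nat_lit 150, nat_lit 11]⟩,
 ⟨nat_lit 3162, nat_lit 3873, ⟨.ofNat (nat_lit 518447), .ofNat (nat_lit 673376), .ofNat (nat_lit 529329), .ofNat (nat_lit 684258), .ofNat (nat_lit 525251), .ofNat (nat_lit 671616), .ofNat (nat_lit 536314), .ofNat (nat_lit 682679)⟩, ⟨.ofNat (nat_lit 304717), .ofNat (nat_lit 491830), .ofNat (nat_lit 348304), .ofNat (nat_lit 535416), .ofNat (nat_lit 306116), .ofNat (nat_lit 482881), .ofNat (nat_lit 350426), .ofNat (nat_lit 527190)⟩⟩, [⟨nat_lit 16, nat_lit 67, nat_lit 100, nat_lit 88, nat_lit 349001521⟩, ⟨nat_lit 19, nat_lit 94, nat_lit 88, nat_lit 100, nat_lit 46805616⟩]⟩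
noncomputable def p095_l82 : Lf2 := ⟨nat_lit 0, nat_lit 20, [nat_lit 5, nat_lit 5, nat_lit 5, nat_lit 20], false, nat_lit 160, nat_lit 276, nat_lit 0, nat_lit 312, ⟨nat_lit 419, nat_lit 581, nat_lit 0, nat_lit 7, nat_lit 249, nat_lit 581, nat_lit 167, nat_lit 0, nat_lit 0, nat_lit 0, nat_lit 0, nat_lit 0, nat_lit 40848231, nat_lit 17091749, nat_lit 9060020, nat_lit 4951201, false, false⟩,
 nat_lit 0, nat_lit 0, nat_lit 3434, nat_lit 0, nat_lit 3390, nat_lit 2475, nat_lit 0, nat_lit 0, nat_lit 0, nat_lit 452, nat_lit 0, nat_lit 0, nat_lit 0, nat_lit 0, nat_lit 0, nat_lit 145250, nat_lit 0, nat_lit 0, [(nat_lit 22, [(nat_lit 0, nat_lit 581)])],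
 ⟨p095_k24, nat_lit 0, nat_lit 0, nat_lit 50, nat_lit 0, nat_lit 0, [nat_lit 1762416000, nat_lit 3109306800, nat_lit 4914496400], [], [nat_lit 18111864697, nat_lit 19665681693, nat_lit 20803498080, nat_lit 22140383480, nat_lit 22403645732, nat_lit 23647905378, nat_lit 24472616545, nat_lit 25553437549], nat_lit 0, nat_lit 0, nat_lit 0, nat_lit 0, nat_lit 0, nat_lit 0, [], [nat_lit 34, nat_lit 40, nat_lit 40, nat_lit 80, nat_lit 7, nat_lit 373, nat_lit 150, nat_lit 11]⟩, ⟨p095_k32, nat_lit 0, nat_lit 0, nat_lit 608, nat_lit 0, nat_lit 883303, [nat_lit 1375158000, nat_lit 2618750000, nat_lit 4123798000], [], [nat_lit 10693206026, nat_lit 10862187983, nat_lit 11228179566, nat_lit 11372089844, nat_lit 10971626559, nat_lit 11071895365, nat_lit 13707754266, nat_lit 13167018988], nat_lit 1271250, nat_lit 1271250, nat_lit 1066650, nat_lit 1782750, nat_lit 0, nat_lit 2203500, [nat_lit 780000, nat_lit 1435000, nat_lit 1271250],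 [nat_lit 8, nat_lit 40, nat_lit 40, nat_lit 80, nat_lit 1, nat_lit 373, nat_lit 150, nat_lit 10]⟩,
 ⟨nat_lit 3162, nat_lit 3873, ⟨.ofNat (nat_lit 548695), .ofNat (nat_lit 684258), .ofNat (nat_lit 559578), .ofNat (nat_lit 695141), .ofNat (nat_lit 554609), .ofNat (nat_lit 682679), .ofNat (nat_lit 565673), .ofNat (nat_lit 693742)⟩, ⟨.ofNat (nat_lit 304717), .ofNat (nat_lit 491830), .ofNat (nat_lit 348304), .ofNat (nat_lit 535416), .ofNat (nat_lit 306116), .ofNat (nat_lit 482881), .ofNat (nat_lit 350426), .ofNat (nat_lit 527190)⟩⟩, [⟨nat_lit 4, nat_lit 100, nat_lit 67, nat_lit 88, nat_lit 404740013⟩, ⟨nat_lit 19, nat_lit 91, nat_lit 91, nat_lit 100, nat_lit 88144095⟩]⟩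
noncomputable def b_V_800_700_20_29 : St := ⟨true, nat_lit 0, nat_lit 1, nat_lit 1, nat_lit 120, nat_lit 320, nat_lit 360, nat_lit 280, nat_lit 320, nat_lit 100, nat_lit 240, nat_lit 80, nat_lit 120, nat_lit 160, nat_lit 300, nat_lit 0, nat_lit 336, nat_lit 40, nat_lit 80, nat_lit 0, nat_lit 0, nat_lit 0, nat_lit 0⟩
theorem d_V_800_700_20_29 (h : EB TB.env) : Dead b_V_800_700_20_29 := chkB_sound0 h (T :=
(.spl (nat_lit 1) (nat_lit 300)
(.spl (nat_lit 4) (nat_lit 240)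
(.spl (nat_lit 0) (nat_lit 340)
(.leaf p095_l66)
(.trZ (nat_lit 0) (nat_lit 99) (nat_lit 77) (nat_lit 100) (nat_lit 124) (.leaf p095_l67)))
(.spl (nat_lit 2) (nat_lit 160)
(.spl (nat_lit 0) (nat_lit 340)
(.spl (nat_lit 0) (nat_lit 330)
(.spl (nat_lit 3) (nat_lit 100)
(.trX (nat_lit 16) (nat_lit 87) (nat_lit 100) (nat_lit 94) (nat_lit 280) (.trX (nat_lit 19) (nat_lit 100) (nat_lit 88) (nat_lit 94) (nat_lit 320) (.leaf p095_l68)))
(.spl (nat_lit 6) (nat_lit 72)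
(.spl (nat_lit 5) (nat_lit 160)
(.leaf p095_l69)
(.spl (nat_lit 1) (nat_lit 290)
(.leaf p095_l70)
(.trZ (nat_lit 0) (nat_lit 100) (nat_lit 89) (nat_lit 100) (nat_lit 108) (.trX (nat_lit 19) (nat_lit 97) (nat_lit 84) (nat_lit 100) (nat_lit 328) (.leaf p095_l71)))))
(.leaf p095_l72)))
(.trZ (nat_lit 0) (nat_lit 100) (nat_lit 83) (nat_lit 98) (nat_lit 112) (.trX (nat_lit 16) (nat_lit 83) (nat_lit 98) (nat_lit 100) (nat_lit 288) (.spl (nat_lit 1) (nat_lit 290)
(.leaf p095_l73)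
(.trZ (nat_lit 0) (nat_lit 97) (nat_lit 82) (nat_lit 100) (nat_lit 120) (.trX (nat_lit 19) (nat_lit 97) (nat_lit 84) (nat_lit 100) (nat_lit 328) (.leaf p095_l74)))))))
(.trZ (nat_lit 0) (nat_lit 99) (nat_lit 77) (nat_lit 100) (nat_lit 124) (.trX (nat_lit 16) (nat_lit 77) (nat_lit 100) (nat_lit 99) (nat_lit 276) (.spl (nat_lit 5) (nat_lit 160)
(.leaf p095_l75)
(.leaf p095_l76)))))
(.spl (nat_lit 5) (nat_lit 160)
(.leaf p095_l77)
(.leaf p095_l78))))
(.trZ (nat_lit 0) (nat_lit 94) (nat_lit 87) (nat_lit 100) (nat_lit 120) (.trX (nat_lit 19) (nat_lit 94) (nat_lit 88) (nat_lit 100) (nat_lit 320) (.spl (nat_lit 0) (nat_lit 340)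
(.spl (nat_lit 5) (nat_lit 160)
(.leaf p095_l79)
(.leaf p095_l80))
(.trZ (nat_lit 0) (nat_lit 90) (nat_lit 74) (nat_lit 100) (nat_lit 144) (.trX (nat_lit 16) (nat_lit 77) (nat_lit 100) (nat_lit 99) (nat_lit 276) (.spl (nat_lit 1) (nat_lit 310)
(.leaf p095_l81)
(.trZ (nat_lit 0) (nat_lit 85) (nat_lit 73) (nat_lit 100) (nat_lit 156) (.trX (nat_lit 19) (nat_lit 91) (nat_lit 91) (nat_lit 100) (nat_lit 312) (.leaf p095_l82))))))))))) (by decide +kernel)
noncomputable def p095_l83 : Lf2 := ⟨nat_lit 0, nat_lit 20, [nat_lit 5, nat_lit 5, nat_lit 5, nat_lit 20], false, nat_lit 0, nat_lit 160, nat_lit 0, nat_lit 336, ⟨nat_lit 1000, nat_lit 0, nat_lit 0, nat_lit 0, nat_lit 0, nat_lit 0, nat_lit 0, nat_lit 0, nat_lit 0, nat_lit 0, nat_lit 0, nat_lit 0, nat_lit 0, nat_lit 0, nat_lit 0, nat_lit 0, false, false⟩,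
 nat_lit 0, nat_lit 0, nat_lit 10948, nat_lit 0, nat_lit 5702, nat_lit 6966, nat_lit 824, nat_lit 0, nat_lit 0, nat_lit 789, nat_lit 0, nat_lit 0, nat_lit 0, nat_lit 0, nat_lit 0, nat_lit 0, nat_lit 0, nat_lit 0, [],
 ⟨p095_k21, nat_lit 0, nat_lit 0, nat_lit 212, nat_lit 0, nat_lit 0, [nat_lit 2032000001, nat_lit 4688000000, nat_lit 9842000000], [], [nat_lit 26751165792, nat_lit 27988257412, nat_lit 37226732712, nat_lit 38548102848, nat_lit 23586378944, nat_lit 24635280704, nat_lit 31545309432, nat_lit 32407109616], nat_lit 0, nat_lit 0, nat_lit 0, nat_lit 0, nat_lit 0, nat_lit 0, [], [nat_lit 27, nat_lit 40, nat_lit 40, nat_lit 80, nat_lit 13, nat_lit 373, nat_lit 150, nat_lit 10]⟩, ⟨p095_k22, nat_lit 0, nat_lit 0, nat_lit 496, nat_lit 0, nat_lit 534665, [nat_lit 3282000000, nat_lit 6250000000, nat_lit 11872000000], [], [nat_lit 32591374603, nat_lit 32981667641, nat_lit 38838079275, nat_lit 39203407423, nat_lit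 31256448279, nat_lit 31456248408, nat_lit 35574797250, nat_lit 35732265322], nat_lit 1271250, nat_lit 1271250, nat_lit 1271250, nat_lit 1271250, nat_lit 0, nat_lit 2373000, [nat_lit 780000, nat_lit 1435000, nat_lit 1271250], [nat_lit 23, nat_lit 40, nat_lit 40, nat_lit 80, nat_lit 12, nat_lit 538, nat_lit 300, nat_lit 13]⟩,
 zbF0, [⟨nat_lit 19, nat_lit 100, nat_lit 91, nat_lit 96, nat_lit 143414633⟩]⟩
noncomputable def p095_l84 : Lf2 := ⟨nat_lit 0, nat_lit 20, [nat_lit 5, nat_lit 5, nat_lit 5, nat_lit 20], false, nat_lit 0, nat_lit 160, nat_lit 0, nat_lit 328, ⟨nat_lit 1000, nat_lit 0, nat_lit 0, nat_lit 0, nat_lit 0, nat_lit 0, nat_lit 0, nat_lit 0, nat_lit 0, nat_lit 0, nat_lit 0, nat_lit 0, nat_lit 0, nat_lit 0, nat_lit 0, nat_lit 0, false, false⟩,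
 nat_lit 0, nat_lit 0, nat_lit 9635, nat_lit 0, nat_lit 5700, nat_lit 6398, nat_lit 824, nat_lit 0, nat_lit 0, nat_lit 805, nat_lit 0, nat_lit 0, nat_lit 0, nat_lit 0, nat_lit 0, nat_lit 0, nat_lit 0, nat_lit 0, [],
 ⟨p095_k21, nat_lit 0, nat_lit 0, nat_lit 212, nat_lit 0, nat_lit 0, [nat_lit 2032000001, nat_lit 4688000000, nat_lit 9842000000], [], [nat_lit 26752688200, nat_lit 27989553200, nat_lit 37221137200, nat_lit 38542270800, nat_lit 23589963400, nat_lit 24638780400, nat_lit 31547709200, nat_lit 32409385600], nat_lit 0, nat_lit 0, nat_lit 0, nat_lit 0, nat_lit 0, nat_lit 0, [], [nat_lit 27, nat_lit 40, nat_lit 40, nat_lit 80, nat_lit 13, nat_lit 373, nat_lit 150, nat_lit 10]⟩, ⟨p095_k25, nat_lit 0, nat_lit 0, nat_lit 512, nat_lit 0, nat_lit 581606, [nat_lit 3282000000, nat_lit 6250000000, nat_lit 11872000000], [], [nat_lit 31800288923, nat_lit 32178487537, nat_lit 37812487269, nat_lit 38168796713, nat_lit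 30647996611, nat_lit 30853600527, nat_lit 34831851789, nat_lit 34997319929], nat_lit 1271250, nat_lit 1271250, nat_lit 1271250, nat_lit 1271250, nat_lit 0, nat_lit 2316500, [nat_lit 780000, nat_lit 1435000, nat_lit 1271250], [nat_lit 23, nat_lit 40, nat_lit 40, nat_lit 80, nat_lit 12, nat_lit 538, nat_lit 300, nat_lit 13]⟩,
 zbF0, [⟨nat_lit 19, nat_lit 100, nat_lit 97, nat_lit 98, nat_lit 141912030⟩]⟩
noncomputable def p095_l85 : Lf2 := ⟨nat_lit 0, nat_lit 20, [nat_lit 5, nat_lit 5, nat_lit 5, nat_lit 20], false, nat_lit 0, nat_lit 160, nat_lit 0, nat_lit 160, ⟨nat_lit 1000, nat_lit 0, nat_lit 0, nat_lit 0, nat_lit 0, nat_lit 0, nat_lit 0, nat_lit 0, nat_lit 0, nat_lit 0, nat_lit 0, nat_lit 0, nat_lit 0, nat_lit 0, nat_lit 0, nat_lit 0, false, false⟩,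
 nat_lit 0, nat_lit 0, nat_lit 11252, nat_lit 0, nat_lit 4732, nat_lit 7160, nat_lit 781, nat_lit 0, nat_lit 0, nat_lit 841, nat_lit 0, nat_lit 0, nat_lit 0, nat_lit 0, nat_lit 0, nat_lit 0, nat_lit 0, nat_lit 0, [],
 ⟨p095_k24, nat_lit 0, nat_lit 0, nat_lit 193, nat_lit 0, nat_lit 0, [nat_lit 2032000001, nat_lit 4688000000, nat_lit 7968000000], [], [nat_lit 24716943461, nat_lit 25507912932, nat_lit 35398020187, nat_lit 36010874314, nat_lit 22714098750, nat_lit 23205176027, nat_lit 30624604818, nat_lit 31164617503], nat_lit 0, nat_lit 0, nat_lit 0, nat_lit 0, nat_lit 0, nat_lit 0, [], [nat_lit 34, nat_lit 40, nat_lit 40, nat_lit 80, nat_lit 7, nat_lit 249, nat_lit 40, nat_lit 7]⟩, ⟨p095_k22, nat_lit 0, nat_lit 0, nat_lit 570, nat_lit 0, nat_lit 751500, [nat_lit 3282000000, nat_lit 6250000000, nat_lit 11872000000], [], [nat_lit 33742944215, nat_lit 34343796855, nat_lit 39059866209, nat_lit 39563600809, nat_lit 29580296535,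 nat_lit 30074273920, nat_lit 34471060176, nat_lit 34876020928], nat_lit 1271250, nat_lit 1271250, nat_lit 1271250, nat_lit 1271250, nat_lit 0, nat_lit 1100001, [nat_lit 780000, nat_lit 1435000, nat_lit 1271250], [nat_lit 23, nat_lit 40, nat_lit 40, nat_lit 80, nat_lit 12, nat_lit 456, nat_lit 225, nat_lit 11]⟩,
 zbF0, []⟩
noncomputable def p095_l86 : Lf2 := ⟨nat_lit 0, nat_lit 20, [nat_lit 5, nat_lit 5, nat_lit 5, nat_lit 20], false, nat_lit 4, nat_lit 160, nat_lit 0, nat_lit 160, ⟨nat_lit 938, nat_lit 62, nat_lit 0, nat_lit 7, nat_lit 311, nat_lit 62, nat_lit 68, nat_lit 0, nat_lit 0, nat_lit 0, nat_lit 0, nat_lit 0, nat_lit 40153004, nat_lit 24609848, nat_lit 2237148, nat_lit 4106637, true, true⟩,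
 nat_lit 0, nat_lit 0, nat_lit 10954, nat_lit 0, nat_lit 4468, nat_lit 6970, nat_lit 725, nat_lit 0, nat_lit 0, nat_lit 715, nat_lit 0, nat_lit 0, nat_lit 0, nat_lit 0, nat_lit 0, nat_lit 24800, nat_lit 0, nat_lit 0, [(nat_lit 22, [(nat_lit 1, nat_lit 62)])],
 ⟨p095_k33, nat_lit 0, nat_lit 0, nat_lit 192, nat_lit 0, nat_lit 0, [nat_lit 1990236800, nat_lit 4493741600, nat_lit 7560461600], [], [nat_lit 24851026046, nat_lit 25805244345, nat_lit 34745339264, nat_lit 35350253689, nat_lit 22151224450, nat_lit 22686383581, nat_lit 30537043868, nat_lit 31071025386], nat_lit 0, nat_lit 0, nat_lit 0, nat_lit 0, nat_lit 0, nat_lit 0, [], [nat_lit 34, nat_lit 40, nat_lit 40, nat_lit 80, nat_lit 7, nat_lit 249, nat_lit 40, nat_lit 7]⟩, ⟨p095_k22, nat_lit 0, nat_lit 0, nat_lit 660, nat_lit 0, nat_lit 890782, [nat_lit 3078516000, nat_lit 5862500000, nat_lit 11135936000], [], [nat_lit 33323180157, nat_lit 33746729409, nat_lit 36986643749,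 nat_lit 37338799483, nat_lit 29323991085, nat_lit 29663770220, nat_lit 32684338511, nat_lit 32962437801], nat_lit 1271250, nat_lit 1271250, nat_lit 1271250, nat_lit 1271250, nat_lit 0, nat_lit 1100001, [nat_lit 780000, nat_lit 1435000, nat_lit 1271250], [nat_lit 23, nat_lit 40, nat_lit 40, nat_lit 80, nat_lit 12, nat_lit 456, nat_lit 225, nat_lit 11]⟩,
 ⟨nat_lit 3162, nat_lit 3536, ⟨.ofNat (nat_lit 650549), .ofNat (nat_lit 889064), .ofNat (nat_lit 672493), .ofNat (nat_lit 911016), .ofNat (nat_lit 649550), .ofNat (nat_lit 881194), .ofNat (nat_lit 671696), .ofNat (nat_lit 903349)⟩, ⟨.ofNat (nat_lit 10000), .ofNat (nat_lit 305521), .ofNat (nat_lit 10000), .ofNat (nat_lit 349427), .ofNat (nat_lit 10000), .ofNat (nat_lit 306116), .ofNat (nat_lit 10000), .ofNat (nat_lit 350426)⟩⟩, []⟩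
noncomputable def p095_l87 : Lf2 := ⟨nat_lit 0, nat_lit 20, [nat_lit 5, nat_lit 5, nat_lit 5, nat_lit 20], false, nat_lit 0, nat_lit 80, nat_lit 160, nat_lit 336, ⟨nat_lit 467, nat_lit 533, nat_lit 0, nat_lit 7, nat_lit 308, nat_lit 533, nat_lit 38, nat_lit 0, nat_lit 0, nat_lit 0, nat_lit 0, nat_lit 0, nat_lit 42101965, nat_lit 24898035, nat_lit 0, nat_lit 3299040, true, true⟩,
 nat_lit 0, nat_lit 0, nat_lit 4721, nat_lit 0, nat_lit 4135, nat_lit 3004, nat_lit 201, nat_lit 0, nat_lit 0, nat_lit 370, nat_lit 0, nat_lit 0, nat_lit 0, nat_lit 0, nat_lit 0, nat_lit 533000, nat_lit 0, nat_lit 0, [(nat_lit 22, [(nat_lit 2, nat_lit 533)])],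
 ⟨p095_k24, nat_lit 0, nat_lit 0, nat_lit 192, nat_lit 0, nat_lit 0, [nat_lit 1692301334, nat_lit 2186311200, nat_lit 1658132800], [], [nat_lit 23489850190, nat_lit 25320835580, nat_lit 32782094788, nat_lit 33986773141, nat_lit 21167059149, nat_lit 22229812200, nat_lit 29440766207, nat_lit 30603607944], nat_lit 0, nat_lit 0, nat_lit 0, nat_lit 0, nat_lit 0, nat_lit 0, [], [nat_lit 34, nat_lit 40, nat_lit 40, nat_lit 80, nat_lit 7, nat_lit 226, nat_lit 20, nat_lit 7]⟩, ⟨p095_k22, nat_lit 0, nat_lit 0, nat_lit 503, nat_lit 0, nat_lit 814120, [nat_lit 1532694000, nat_lit 2918750000, nat_lit 5544224000], [], [nat_lit 14095112174, nat_lit 14209955069, nat_lit 15969266615, nat_lit 16070693533, nat_lit 15324470083, nat_lit 15417770366, nat_lit 17053234263, nat_lit 17133708874], nat_lit 1271250, nat_lit 1271250, nat_lit 1271250, nat_lit 1271250, nat_lit 1100001, nat_lit 2607000, [nat_lit 780000, nat_lit 1435000, nat_lit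 1271250], [nat_lit 23, nat_lit 40, nat_lit 40, nat_lit 80, nat_lit 12, nat_lit 538, nat_lit 300, nat_lit 13]⟩,
 ⟨nat_lit 3162, nat_lit 3873, ⟨.ofNat (nat_lit 651611), .ofNat (nat_lit 883971), .ofNat (nat_lit 662494), .ofNat (nat_lit 894867), .ofNat (nat_lit 649490), .ofNat (nat_lit 869004), .ofNat (nat_lit 660553), .ofNat (nat_lit 880081)⟩, ⟨.ofNat (nat_lit 0), .ofNat (nat_lit 175674), .ofNat (nat_lit 0), .ofNat (nat_lit 200000), .ofNat (nat_lit 0), .ofNat (nat_lit 184209), .ofNat (nat_lit 0), .ofNat (nat_lit 200000)⟩⟩, [⟨nat_lit 19, nat_lit 100, nat_lit 91, nat_lit 96, nat_lit 38389352⟩, ⟨nat_lit 22, nat_lit 85, nat_lit 100, nat_lit 76, nat_lit 161233791⟩]⟩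
noncomputable def p095_l88 : Lf2 := ⟨nat_lit 0, nat_lit 20, [nat_lit 5, nat_lit 5, nat_lit 5, nat_lit 20], false, nat_lit 0, nat_lit 80, nat_lit 160, nat_lit 328, ⟨nat_lit 1000, nat_lit 0, nat_lit 0, nat_lit 0, nat_lit 0, nat_lit 0, nat_lit 0, nat_lit 0, nat_lit 0, nat_lit 0, nat_lit 0, nat_lit 0, nat_lit 0, nat_lit 0, nat_lit 0, nat_lit 0, false, false⟩,
 nat_lit 0, nat_lit 0, nat_lit 9679, nat_lit 0, nat_lit 4826, nat_lit 6428, nat_lit 812, nat_lit 0, nat_lit 0, nat_lit 847, nat_lit 0, nat_lit 0, nat_lit 0, nat_lit 0, nat_lit 0, nat_lit 0, nat_lit 0, nat_lit 0, [],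
 ⟨p095_k24, nat_lit 0, nat_lit 0, nat_lit 192, nat_lit 0, nat_lit 0, [nat_lit 2032000001, nat_lit 4688000000, nat_lit 7968000000], [], [nat_lit 24680715444, nat_lit 26682318408, nat_lit 34693406869, nat_lit 35988602904, nat_lit 21979512545, nat_lit 23146833921, nat_lit 30620383086, nat_lit 31870248535], nat_lit 0, nat_lit 0, nat_lit 0, nat_lit 0, nat_lit 0, nat_lit 0, [], [nat_lit 34, nat_lit 40, nat_lit 40, nat_lit 80, nat_lit 7, nat_lit 226, nat_lit 20, nat_lit 7]⟩, ⟨p095_k25, nat_lit 0, nat_lit 0, nat_lit 511, nat_lit 0, nat_lit 837166, [nat_lit 3282000000, nat_lit 6250000000, nat_lit 11872000000], [], [nat_lit 27705329255, nat_lit 27951214991, nat_lit 32026557800, nat_lit 32304333620, nat_lit 30379698129, nat_lit 30600925736, nat_lit 34087855913, nat_lit 34265580760], nat_lit 1271250, nat_lit 1271250, nat_lit 1271250, nat_lit 1271250, nat_lit 1100001, nat_lit 2538500, [nat_lit 780000, nat_lit 1435000, nat_lit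 1271250], [nat_lit 23, nat_lit 40, nat_lit 40, nat_lit 80, nat_lit 12, nat_lit 538, nat_lit 300, nat_lit 13]⟩,
 zbF0, [⟨nat_lit 7, nat_lit 97, nat_lit 100, nat_lit 98, nat_lit 252033888⟩, ⟨nat_lit 10, nat_lit 100, nat_lit 94, nat_lit 62, nat_lit 100033767⟩]⟩
noncomputable def p095_l89 : Lf2 := ⟨nat_lit 0, nat_lit 20, [nat_lit 5, nat_lit 5, nat_lit 5, nat_lit 20], false, nat_lit 80, nat_lit 160, nat_lit 160, nat_lit 336, ⟨nat_lit 1000, nat_lit 0, nat_lit 0, nat_lit 0, nat_lit 0, nat_lit 0, nat_lit 0, nat_lit 0, nat_lit 0, nat_lit 0, nat_lit 0, nat_lit 0, nat_lit 0, nat_lit 0, nat_lit 0, nat_lit 0, false, false⟩,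
 nat_lit 0, nat_lit 0, nat_lit 11094, nat_lit 0, nat_lit 4708, nat_lit 7059, nat_lit 836, nat_lit 0, nat_lit 0, nat_lit 793, nat_lit 0, nat_lit 0, nat_lit 0, nat_lit 0, nat_lit 0, nat_lit 0, nat_lit 0, nat_lit 0, [],
 ⟨p095_k24, nat_lit 0, nat_lit 0, nat_lit 140, nat_lit 0, nat_lit 0, [nat_lit 2032000001, nat_lit 4688000000, nat_lit 7968000000], [], [nat_lit 21371374208, nat_lit 22053434760, nat_lit 31032720727, nat_lit 31632714065, nat_lit 21505746784, nat_lit 22121898108, nat_lit 30314390733, nat_lit 30860842364], nat_lit 0, nat_lit 0, nat_lit 0, nat_lit 0, nat_lit 0, nat_lit 0, [], [nat_lit 34, nat_lit 40, nat_lit 40, nat_lit 80, nat_lit 7, nat_lit 249, nat_lit 40, nat_lit 7]⟩, ⟨p095_k22, nat_lit 0, nat_lit 0, nat_lit 395, nat_lit 0, nat_lit 632632, [nat_lit 3282000000, nat_lit 6250000000, nat_lit 11872000000], [], [nat_lit 28085402395, nat_lit 28247828034, nat_lit 32880234111, nat_lit 33017484720, nat_lit 30940921152,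 nat_lit 31042874422, nat_lit 35035314603, nat_lit 35117099371], nat_lit 1271250, nat_lit 1271250, nat_lit 1271250, nat_lit 1271250, nat_lit 1100001, nat_lit 2607000, [nat_lit 780000, nat_lit 1435000, nat_lit 1271250], [nat_lit 23, nat_lit 40, nat_lit 40, nat_lit 80, nat_lit 12, nat_lit 538, nat_lit 300, nat_lit 13]⟩,
 zbF0, [⟨nat_lit 7, nat_lit 89, nat_lit 100, nat_lit 95, nat_lit 303204522⟩]⟩
noncomputable def p095_l90 : Lf2 := ⟨nat_lit 0, nat_lit 20, [nat_lit 5, nat_lit 5, nat_lit 5, nat_lit 20], false, nat_lit 80, nat_lit 160, nat_lit 160, nat_lit 336, ⟨nat_lit 438, nat_lit 562, nat_lit 0, nat_lit 7, nat_lit 306, nat_lit 562, nat_lit 104, nat_lit 0, nat_lit 0, nat_lit 0, nat_lit 0, nat_lit 0, nat_lit 39315100, nat_lit 23450410, nat_lit 4234490, nat_lit 4521205, true, true⟩,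
 nat_lit 0, nat_lit 0, nat_lit 4027, nat_lit 0, nat_lit 3390, nat_lit 2562, nat_lit 361, nat_lit 0, nat_lit 0, nat_lit 315, nat_lit 0, nat_lit 0, nat_lit 0, nat_lit 0, nat_lit 0, nat_lit 224800, nat_lit 0, nat_lit 0, [(nat_lit 22, [(nat_lit 1, nat_lit 562)])],
 ⟨p095_k33, nat_lit 0, nat_lit 0, nat_lit 140, nat_lit 0, nat_lit 0, [nat_lit 1653436801, nat_lit 2927141600, nat_lit 4273861600], [], [nat_lit 22874240996, nat_lit 23424259966, nat_lit 28703473751, nat_lit 29237982416, nat_lit 23437543406, nat_lit 23936651766, nat_lit 28748121119, nat_lit 29115376732], nat_lit 0, nat_lit 0, nat_lit 0, nat_lit 0, nat_lit 0, nat_lit 0, [], [nat_lit 34, nat_lit 40, nat_lit 40, nat_lit 80, nat_lit 7, nat_lit 249, nat_lit 40, nat_lit 7]⟩, ⟨p095_k22, nat_lit 0, nat_lit 0, nat_lit 490, nat_lit 0, nat_lit 777613, [nat_lit 1437516000, nat_lit 2737500000, nat_lit 5199936000], [], [nat_lit 14347388661, nat_lit 14407281423, nat_lit 15984175634,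 nat_lit 16023176712, nat_lit 15490676517, nat_lit 15529532773, nat_lit 16712747236, nat_lit 16750931524], nat_lit 1271250, nat_lit 1271250, nat_lit 1271250, nat_lit 1271250, nat_lit 1100001, nat_lit 2607000, [nat_lit 780000, nat_lit 1435000, nat_lit 1271250], [nat_lit 23, nat_lit 40, nat_lit 40, nat_lit 80, nat_lit 12, nat_lit 538, nat_lit 300, nat_lit 13]⟩,
 ⟨nat_lit 3162, nat_lit 3536, ⟨.ofNat (nat_lit 650549), .ofNat (nat_lit 876512), .ofNat (nat_lit 656035), .ofNat (nat_lit 882000), .ofNat (nat_lit 649550), .ofNat (nat_lit 869004), .ofNat (nat_lit 655087), .ofNat (nat_lit 874542)⟩, ⟨.ofNat (nat_lit 179999), .ofNat (nat_lit 305521), .ofNat (nat_lit 200000), .ofNat (nat_lit 349427), .ofNat (nat_lit 184209), .ofNat (nat_lit 306116), .ofNat (nat_lit 200000), .ofNat (nat_lit 350426)⟩⟩, [⟨nat_lit 7, nat_lit 89, nat_lit 100, nat_lit 95, nat_lit 126995397⟩]⟩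
noncomputable def p095_l91 : Lf2 := ⟨nat_lit 0, nat_lit 20, [nat_lit 5, nat_lit 5, nat_lit 5, nat_lit 20], false, nat_lit 80, nat_lit 160, nat_lit 160, nat_lit 332, ⟨nat_lit 514, nat_lit 486, nat_lit 0, nat_lit 7, nat_lit 311, nat_lit 486, nat_lit 103, nat_lit 0, nat_lit 0, nat_lit 0, nat_lit 0, nat_lit 0, nat_lit 38842768, nat_lit 23975734, nat_lit 4181498, nat_lit 4530906, true, true⟩,
 nat_lit 0, nat_lit 0, nat_lit 4694, nat_lit 0, nat_lit 3596, nat_lit 3051, nat_lit 407, nat_lit 0, nat_lit 0, nat_lit 402, nat_lit 0, nat_lit 0, nat_lit 0, nat_lit 0, nat_lit 0, nat_lit 194400, nat_lit 0, nat_lit 0, [(nat_lit 22, [(nat_lit 1, nat_lit 486)])],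
 ⟨p095_k24, nat_lit 0, nat_lit 0, nat_lit 143, nat_lit 0, nat_lit 0, [nat_lit 1704630400, nat_lit 3165264800, nat_lit 4773424800], [], [nat_lit 22609102600, nat_lit 23738031216, nat_lit 29197330628, nat_lit 30121580740, nat_lit 23162466928, nat_lit 24185413536, nat_lit 29086488815, nat_lit 29849734604], nat_lit 0, nat_lit 0, nat_lit 0, nat_lit 0, nat_lit 0, nat_lit 0, [], [nat_lit 34, nat_lit 40, nat_lit 40, nat_lit 80, nat_lit 7, nat_lit 249, nat_lit 40, nat_lit 7]⟩, ⟨p095_k34, nat_lit 0, nat_lit 0, nat_lit 494, nat_lit 0, nat_lit 789018, [nat_lit 1686948000, nat_lit 3212500000, nat_lit 6102208000], [], [nat_lit 15909454324, nat_lit 15979968810, nat_lit 17992983294, nat_lit 18042736212, nat_lit 17165777042, nat_lit 17211951948, nat_lit 19043663759, nat_lit 19087564848], nat_lit 1271250, nat_lit 1271250, nat_lit 1271250, nat_lit 1271250, nat_lit 1100001, nat_lit 2572750, [nat_lit 780000, nat_lit 1435000, nat_lit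 1271250], [nat_lit 23, nat_lit 40, nat_lit 40, nat_lit 80, nat_lit 12, nat_lit 538, nat_lit 300, nat_lit 13]⟩,
 ⟨nat_lit 3162, nat_lit 3873, ⟨.ofNat (nat_lit 657053), .ofNat (nat_lit 902323), .ofNat (nat_lit 662494), .ofNat (nat_lit 907772), .ofNat (nat_lit 655022), .ofNat (nat_lit 886733), .ofNat (nat_lit 660553), .ofNat (nat_lit 892272)⟩, ⟨.ofNat (nat_lit 175674), .ofNat (nat_lit 304717), .ofNat (nat_lit 200000), .ofNat (nat_lit 348304), .ofNat (nat_lit 184209), .ofNat (nat_lit 306116), .ofNat (nat_lit 200000), .ofNat (nat_lit 350426)⟩⟩, [⟨nat_lit 7, nat_lit 92, nat_lit 100, nat_lit 96, nat_lit 153448978⟩]⟩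
noncomputable def p095_l92 : Lf2 := ⟨nat_lit 0, nat_lit 20, [nat_lit 5, nat_lit 5, nat_lit 5, nat_lit 20], false, nat_lit 80, nat_lit 160, nat_lit 160, nat_lit 328, ⟨nat_lit 977, nat_lit 23, nat_lit 0, nat_lit 7, nat_lit 316, nat_lit 23, nat_lit 103, nat_lit 0, nat_lit 0, nat_lit 0, nat_lit 0, nat_lit 0, nat_lit 38447980, nat_lit 24399061, nat_lit 4152959, nat_lit 4540546, true, true⟩,
 nat_lit 0, nat_lit 0, nat_lit 9458, nat_lit 0, nat_lit 4582, nat_lit 6281, nat_lit 808, nat_lit 0, nat_lit 0, nat_lit 791, nat_lit 0, nat_lit 0, nat_lit 0, nat_lit 0, nat_lit 0, nat_lit 9200, nat_lit 0, nat_lit 0, [(nat_lit 22, [(nat_lit 1, nat_lit 23)])],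
 ⟨p095_k24, nat_lit 0, nat_lit 0, nat_lit 144, nat_lit 0, nat_lit 0, [nat_lit 2016507201, nat_lit 4615936400, nat_lit 7816816400], [], [nat_lit 21518000232, nat_lit 22863008648, nat_lit 31111036119, nat_lit 32278753880, nat_lit 21692784536, nat_lit 22904731384, nat_lit 30425348298, nat_lit 31490169248], nat_lit 0, nat_lit 0, nat_lit 0, nat_lit 0, nat_lit 0, nat_lit 0, [], [nat_lit 34, nat_lit 40, nat_lit 40, nat_lit 80, nat_lit 7, nat_lit 249, nat_lit 40, nat_lit 7]⟩, ⟨p095_k25, nat_lit 0, nat_lit 0, nat_lit 511, nat_lit 0, nat_lit 837166, [nat_lit 3206514000, nat_lit 6106250000, nat_lit 11598944000], [], [nat_lit 27510281984, nat_lit 27750518013, nat_lit 31945088213, nat_lit 32204062060, nat_lit 29797773351, nat_lit 29998671047, nat_lit 33801476871, nat_lit 33972637523], nat_lit 1271250, nat_lit 1271250, nat_lit 1271250, nat_lit 1271250, nat_lit 1100001, nat_lit 2538500, [nat_lit 780000, nat_lit 1435000, nat_lit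 1271250], [nat_lit 23, nat_lit 40, nat_lit 40, nat_lit 80, nat_lit 12, nat_lit 538, nat_lit 300, nat_lit 13]⟩,
 ⟨nat_lit 3162, nat_lit 3873, ⟨.ofNat (nat_lit 662494), .ofNat (nat_lit 914224), .ofNat (nat_lit 673376), .ofNat (nat_lit 925121), .ofNat (nat_lit 660553), .ofNat (nat_lit 898367), .ofNat (nat_lit 671616), .ofNat (nat_lit 909444)⟩, ⟨.ofNat (nat_lit 175674), .ofNat (nat_lit 304717), .ofNat (nat_lit 200000), .ofNat (nat_lit 348304), .ofNat (nat_lit 184209), .ofNat (nat_lit 306116), .ofNat (nat_lit 200000), .ofNat (nat_lit 350426)⟩⟩, [⟨nat_lit 7, nat_lit 97, nat_lit 100, nat_lit 98, nat_lit 279366957⟩]⟩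
noncomputable def p095_l93 : Lf2 := ⟨nat_lit 0, nat_lit 20, [nat_lit 5, nat_lit 5, nat_lit 5, nat_lit 20], false, nat_lit 0, nat_lit 160, nat_lit 0, nat_lit 320, ⟨nat_lit 1000, nat_lit 0, nat_lit 0, nat_lit 0, nat_lit 0, nat_lit 0, nat_lit 0, nat_lit 0, nat_lit 0, nat_lit 0, nat_lit 0, nat_lit 0, nat_lit 0, nat_lit 0, nat_lit 0, nat_lit 0, false, false⟩,
 nat_lit 0, nat_lit 0, nat_lit 8190, nat_lit 0, nat_lit 5942, nat_lit 5670, nat_lit 825, nat_lit 0, nat_lit 0, nat_lit 1017, nat_lit 0, nat_lit 0, nat_lit 0, nat_lit 0, nat_lit 0, nat_lit 0, nat_lit 0, nat_lit 0, [],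
 ⟨p095_k21, nat_lit 0, nat_lit 0, nat_lit 212, nat_lit 0, nat_lit 0, [nat_lit 2032000001, nat_lit 4688000000, nat_lit 9842000000], [], [nat_lit 26558479957, nat_lit 27822765977, nat_lit 37898194152, nat_lit 39247948608, nat_lit 23146247349, nat_lit 24215317184, nat_lit 31364532848, nat_lit 32548743984], nat_lit 0, nat_lit 0, nat_lit 0, nat_lit 0, nat_lit 0, nat_lit 0, [], [nat_lit 27, nat_lit 40, nat_lit 40, nat_lit 80, nat_lit 13, nat_lit 373, nat_lit 150, nat_lit 10]⟩, ⟨p095_k23, nat_lit 0, nat_lit 0, nat_lit 498, nat_lit 0, nat_lit 708648, [nat_lit 3282000000, nat_lit 6250000000, nat_lit 9842000000], [], [nat_lit 31321980920, nat_lit 31991781500, nat_lit 36246305940, nat_lit 37137204520, nat_lit 31322897600, nat_lit 31711176020, nat_lit 34224663660, nat_lit 34456890540], nat_lit 1271250, nat_lit 1271250, nat_lit 1271250, nat_lit 1271250, nat_lit 0, nat_lit 2260000, [nat_lit 780000, nat_lit 1435000, nat_lit 1271250],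 [nat_lit 8, nat_lit 40, nat_lit 40, nat_lit 80, nat_lit 1, nat_lit 428, nat_lit 200, nat_lit 12]⟩,
 zbF0, [⟨nat_lit 7, nat_lit 100, nat_lit 93, nat_lit 97, nat_lit 159122287⟩]⟩
noncomputable def p095_l94 : Lf2 := ⟨nat_lit 0, nat_lit 20, [nat_lit 5, nat_lit 5, nat_lit 5, nat_lit 20], false, nat_lit 0, nat_lit 160, nat_lit 0, nat_lit 320, ⟨nat_lit 1000, nat_lit 0, nat_lit 0, nat_lit 0, nat_lit 0, nat_lit 0, nat_lit 0, nat_lit 0, nat_lit 0, nat_lit 0, nat_lit 0, nat_lit 0, nat_lit 0, nat_lit 0, nat_lit 0, nat_lit 0, false, false⟩,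
 nat_lit 0, nat_lit 0, nat_lit 8151, nat_lit 0, nat_lit 5114, nat_lit 5642, nat_lit 777, nat_lit 0, nat_lit 0, nat_lit 1149, nat_lit 0, nat_lit 0, nat_lit 0, nat_lit 0, nat_lit 0, nat_lit 0, nat_lit 0, nat_lit 0, [],
 ⟨p095_k24, nat_lit 0, nat_lit 0, nat_lit 196, nat_lit 0, nat_lit 0, [nat_lit 2032000001, nat_lit 4688000000, nat_lit 7968000000], [], [nat_lit 25177052916, nat_lit 27249767112, nat_lit 36833480736, nat_lit 38085309288, nat_lit 21971794141, nat_lit 23055282433, nat_lit 31423034928, nat_lit 32525433040], nat_lit 0, nat_lit 0, nat_lit 0, nat_lit 0, nat_lit 0, nat_lit 0, [], [nat_lit 34, nat_lit 40, nat_lit 40, nat_lit 80, nat_lit 7, nat_lit 249, nat_lit 40, nat_lit 7]⟩, ⟨p095_k23, nat_lit 0, nat_lit 0, nat_lit 579, nat_lit 0, nat_lit 860326, [nat_lit 3282000000, nat_lit 6250000000, nat_lit 9842000000], [], [nat_lit 31473643792, nat_lit 31769583974, nat_lit 35920363412, nat_lit 36489615382, nat_lit 31290637172,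 nat_lit 31461408284, nat_lit 33851964400, nat_lit 34074645828], nat_lit 1271250, nat_lit 1271250, nat_lit 1271250, nat_lit 1271250, nat_lit 0, nat_lit 2260000, [nat_lit 780000, nat_lit 1435000, nat_lit 1271250], [nat_lit 8, nat_lit 40, nat_lit 40, nat_lit 80, nat_lit 1, nat_lit 428, nat_lit 200, nat_lit 12]⟩,
 zbF0, [⟨nat_lit 7, nat_lit 100, nat_lit 97, nat_lit 98, nat_lit 155427483⟩]⟩
noncomputable def p095_l95 : Lf2 := ⟨nat_lit 0, nat_lit 20, [nat_lit 5, nat_lit 5, nat_lit 5, nat_lit 20], false, nat_lit 0, nat_lit 160, nat_lit 0, nat_lit 312, ⟨nat_lit 1000, nat_lit 0, nat_lit 0, nat_lit 0, nat_lit 0, nat_lit 0, nat_lit 0, nat_lit 0, nat_lit 0, nat_lit 0, nat_lit 0, nat_lit 0, nat_lit 0, nat_lit 0, nat_lit 0, nat_lit 0, false, false⟩,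
 nat_lit 0, nat_lit 0, nat_lit 7612, nat_lit 0, nat_lit 5026, nat_lit 5487, nat_lit 778, nat_lit 0, nat_lit 0, nat_lit 928, nat_lit 0, nat_lit 0, nat_lit 0, nat_lit 0, nat_lit 0, nat_lit 0, nat_lit 0, nat_lit 0, [],
 ⟨p095_k24, nat_lit 0, nat_lit 0, nat_lit 196, nat_lit 0, nat_lit 0, [nat_lit 2032000001, nat_lit 4688000000, nat_lit 7968000000], [], [nat_lit 25025394244, nat_lit 27076380008, nat_lit 36576870624, nat_lit 37818291592, nat_lit 22116029894, nat_lit 23192903300, nat_lit 31303394352, nat_lit 32397097360], nat_lit 0, nat_lit 0, nat_lit 0, nat_lit 0, nat_lit 0, nat_lit 0, [], [nat_lit 34, nat_lit 40, nat_lit 40, nat_lit 80, nat_lit 7, nat_lit 249, nat_lit 40, nat_lit 7]⟩, ⟨p095_k32, nat_lit 0, nat_lit 0, nat_lit 587, nat_lit 0, nat_lit 883303, [nat_lit 3282000000, nat_lit 6250000000, nat_lit 9842000000], [], [nat_lit 30369946640, nat_lit 30707492604, nat_lit 36062982377, nat_lit 36625215172, nat_lit 30902376978,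 nat_lit 31105664360, nat_lit 33866707734, nat_lit 33994525954], nat_lit 1271250, nat_lit 1271250, nat_lit 1271250, nat_lit 1271250, nat_lit 0, nat_lit 2203500, [nat_lit 780000, nat_lit 1435000, nat_lit 1271250], [nat_lit 8, nat_lit 40, nat_lit 40, nat_lit 80, nat_lit 1, nat_lit 428, nat_lit 200, nat_lit 12]⟩,
 zbF0, [⟨nat_lit 7, nat_lit 100, nat_lit 90, nat_lit 95, nat_lit 165284709⟩]⟩
noncomputable def b_V_800_700_20_30 : St := ⟨true, nat_lit 0, nat_lit 1, nat_lit 1, nat_lit 120, nat_lit 320, nat_lit 360, nat_lit 280, nat_lit 320, nat_lit 240, nat_lit 400, nat_lit 80, nat_lit 120, nat_lit 0, nat_lit 160, nat_lit 0, nat_lit 336, nat_lit 40, nat_lit 80, nat_lit 0, nat_lit 0, nat_lit 0, nat_lit 0⟩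
theorem d_V_800_700_20_30 (h : EB TB.env) : Dead b_V_800_700_20_30 := chkB_sound0 h (T :=
(.spl (nat_lit 1) (nat_lit 300)
(.spl (nat_lit 0) (nat_lit 340)
(.spl (nat_lit 1) (nat_lit 290)
(.leaf p095_l83)
(.trX (nat_lit 19) (nat_lit 97) (nat_lit 84) (nat_lit 100) (nat_lit 328) (.leaf p095_l84)))
(.trX (nat_lit 13) (nat_lit 82) (nat_lit 29) (nat_lit 100) (nat_lit 396) (.spl (nat_lit 5) (nat_lit 160)
(.spl (nat_lit 0) (nat_lit 350)
(.leaf p095_l85)
(.trX (nat_lit 13) (nat_lit 76) (nat_lit 37) (nat_lit 100) (nat_lit 392) (.trZ (nat_lit 3) (nat_lit 100) (nat_lit 83) (nat_lit 25) (nat_lit 4) (.leaf p095_l86))))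
(.spl (nat_lit 4) (nat_lit 80)
(.trX (nat_lit 10) (nat_lit 100) (nat_lit 44) (nat_lit 82) (nat_lit 384) (.spl (nat_lit 1) (nat_lit 290)
(.leaf p095_l87)
(.trX (nat_lit 19) (nat_lit 97) (nat_lit 84) (nat_lit 100) (nat_lit 328) (.leaf p095_l88))))
(.spl (nat_lit 1) (nat_lit 290)
(.trX (nat_lit 13) (nat_lit 80) (nat_lit 34) (nat_lit 100) (nat_lit 392) (.spl (nat_lit 1) (nat_lit 285)
(.spl (nat_lit 0) (nat_lit 350)
(.leaf p095_l89)
(.trX (nat_lit 13) (nat_lit 73) (nat_lit 44) (nat_lit 100) (nat_lit 384) (.leaf p095_l90)))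
(.trX (nat_lit 19) (nat_lit 99) (nat_lit 82) (nat_lit 100) (nat_lit 332) (.leaf p095_l91))))
(.trX (nat_lit 19) (nat_lit 97) (nat_lit 84) (nat_lit 100) (nat_lit 328) (.leaf p095_l92)))))))
(.trX (nat_lit 19) (nat_lit 94) (nat_lit 88) (nat_lit 100) (nat_lit 320) (.spl (nat_lit 0) (nat_lit 340)
(.leaf p095_l93)
(.spl (nat_lit 1) (nat_lit 310)
(.leaf p095_l94)
(.trX (nat_lit 19) (nat_lit 91) (nat_lit 91) (nat_lit 100) (nat_lit 312) (.leaf p095_l95))))))) (by decide +kernel)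
noncomputable def p095_l96 : Lf2 := ⟨nat_lit 0, nat_lit 20, [nat_lit 5, nat_lit 5, nat_lit 5, nat_lit 20], false, nat_lit 160, nat_lit 300, nat_lit 0, nat_lit 336, ⟨nat_lit 267, nat_lit 733, nat_lit 0, nat_lit 7, nat_lit 276, nat_lit 733, nat_lit 176, nat_lit 0, nat_lit 0, nat_lit 0, nat_lit 0, nat_lit 0, nat_lit 38322107, nat_lit 19314703, nat_lit 9363190, nat_lit 5129587, true, false⟩,
 nat_lit 0, nat_lit 0, nat_lit 3456, nat_lit 0, nat_lit 3223, nat_lit 2199, nat_lit 0, nat_lit 0, nat_lit 0, nat_lit 218, nat_lit 0, nat_lit 0, nat_lit 0, nat_lit 0, nat_lit 0, nat_lit 183250, nat_lit 0, nat_lit 0, [(nat_lit 19, [(nat_lit 0, nat_lit 733)]), (nat_lit 22, [(nat_lit 0, nat_lit 733)])],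
 ⟨p095_k21, nat_lit 0, nat_lit 0, nat_lit 54, nat_lit 0, nat_lit 0, [nat_lit 1691888001, nat_lit 2987733200, nat_lit 4957480040], [], [nat_lit 19505300677, nat_lit 22116393037, nat_lit 21313499385, nat_lit 23712558565, nat_lit 24391705615, nat_lit 26401294259, nat_lit 25755779148, nat_lit 27614372142], nat_lit 0, nat_lit 0, nat_lit 0, nat_lit 0, nat_lit 0, nat_lit 0, [], [nat_lit 27, nat_lit 40, nat_lit 40, nat_lit 80, nat_lit 13, nat_lit 373, nat_lit 150, nat_lit 10]⟩, ⟨p095_k22, nat_lit 0, nat_lit 0, nat_lit 617, nat_lit 0, nat_lit 814120, [nat_lit 876294000, nat_lit 1668750000, nat_lit 3169824000], [], [nat_lit 8219314686, nat_lit 8302796898, nat_lit 8442007206, nat_lit 8544196587, nat_lit 7559132451, nat_lit 7616397384, nat_lit 7737495357, nat_lit 7822858646], nat_lit 1271250, nat_lit 1271250, nat_lit 1271250, nat_lit 1271250, nat_lit 0, nat_lit 2373000, [nat_lit 780000, nat_lit 1435000, nat_lit 1271250], [nat_lit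 23, nat_lit 40, nat_lit 40, nat_lit 80, nat_lit 12, nat_lit 483, nat_lit 250, nat_lit 12]⟩,
 ⟨nat_lit 3162, nat_lit 4473, ⟨.ofNat (nat_lit 653959), .ofNat (nat_lit 722015), .ofNat (nat_lit 664697), .ofNat (nat_lit 732752), .ofNat (nat_lit 649288), .ofNat (nat_lit 710319), .ofNat (nat_lit 660320), .ofNat (nat_lit 721351)⟩, ⟨.ofNat (nat_lit 302621), .ofNat (nat_lit 540545), .ofNat (nat_lit 345754), .ofNat (nat_lit 583678), .ofNat (nat_lit 306116), .ofNat (nat_lit 519453), .ofNat (nat_lit 350426), .ofNat (nat_lit 563762)⟩⟩, [⟨nat_lit 4, nat_lit 100, nat_lit 74, nat_lit 90, nat_lit 304869112⟩, ⟨nat_lit 19, nat_lit 100, nat_lit 80, nat_lit 100, nat_lit 39847526⟩]⟩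
noncomputable def p095_l97 : Lf2 := ⟨nat_lit 0, nat_lit 20, [nat_lit 5, nat_lit 5, nat_lit 5, nat_lit 20], false, nat_lit 160, nat_lit 240, nat_lit 4, nat_lit 336, ⟨nat_lit 156, nat_lit 844, nat_lit 0, nat_lit 7, nat_lit 302, nat_lit 844, nat_lit 156, nat_lit 0, nat_lit 0, nat_lit 0, nat_lit 0, nat_lit 0, nat_lit 37319519, nat_lit 22016016, nat_lit 7664465, nat_lit 5038217, true, true⟩,
 nat_lit 0, nat_lit 0, nat_lit 1919, nat_lit 0, nat_lit 4262, nat_lit 1220, nat_lit 0, nat_lit 0, nat_lit 0, nat_lit 118, nat_lit 0, nat_lit 0, nat_lit 0, nat_lit 0, nat_lit 0, nat_lit 211000, nat_lit 0, nat_lit 0, [(nat_lit 19, [(nat_lit 0, nat_lit 844)]), (nat_lit 22, [(nat_lit 0, nat_lit 844)])],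
 ⟨p095_k21, nat_lit 0, nat_lit 0, nat_lit 60, nat_lit 0, nat_lit 0, [nat_lit 1640384001, nat_lit 2730257600, nat_lit 4235522720], [], [nat_lit 22319930472, nat_lit 24790573312, nat_lit 24362478040, nat_lit 26602366952, nat_lit 24284982152, nat_lit 26432832592, nat_lit 26051190256, nat_lit 28004348264], nat_lit 0, nat_lit 0, nat_lit 0, nat_lit 0, nat_lit 0, nat_lit 0, [], [nat_lit 27, nat_lit 40, nat_lit 40, nat_lit 80, nat_lit 13, nat_lit 272, nat_lit 60, nat_lit 7]⟩, ⟨p095_k22, nat_lit 0, nat_lit 0, nat_lit 589, nat_lit 0, nat_lit 814120, [nat_lit 511992000, nat_lit 975000000, nat_lit 1852032000], [], [nat_lit 5186042543, nat_lit 5228632861, nat_lit 5356403814, nat_lit 5393499476, nat_lit 4754312410, nat_lit 4783601555, nat_lit 4871468989, nat_lit 4896548639], nat_lit 1271250, nat_lit 1271250, nat_lit 1271250, nat_lit 1271250, nat_lit 21650, nat_lit 2378850, [nat_lit 780000, nat_lit 1435000, nat_lit 1271250], [nat_lit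 23, nat_lit 40, nat_lit 40, nat_lit 80, nat_lit 12, nat_lit 483, nat_lit 250, nat_lit 12]⟩,
 ⟨nat_lit 3162, nat_lit 4473, ⟨.ofNat (nat_lit 722015), .ofNat (nat_lit 790054), .ofNat (nat_lit 732752), .ofNat (nat_lit 800803), .ofNat (nat_lit 710319), .ofNat (nat_lit 771333), .ofNat (nat_lit 721351), .ofNat (nat_lit 782377)⟩, ⟨.ofNat (nat_lit 302621), .ofNat (nat_lit 438578), .ofNat (nat_lit 345754), .ofNat (nat_lit 481711), .ofNat (nat_lit 306116), .ofNat (nat_lit 428022), .ofNat (nat_lit 350426), .ofNat (nat_lit 472332)⟩⟩, [⟨nat_lit 16, nat_lit 74, nat_lit 100, nat_lit 90, nat_lit 44165790⟩, ⟨nat_lit 7, nat_lit 91, nat_lit 100, nat_lit 96, nat_lit 23126005⟩]⟩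
noncomputable def p095_l98 : Lf2 := ⟨nat_lit 0, nat_lit 20, [nat_lit 5, nat_lit 5, nat_lit 5, nat_lit 20], false, nat_lit 240, nat_lit 300, nat_lit 36, nat_lit 336, ⟨nat_lit 432, nat_lit 568, nat_lit 0, nat_lit 7, nat_lit 302, nat_lit 568, nat_lit 201, nat_lit 0, nat_lit 0, nat_lit 0, nat_lit 0, nat_lit 0, nat_lit 35128390, nat_lit 20975451, nat_lit 10896159, nat_lit 5383258, true, true⟩,
 nat_lit 0, nat_lit 0, nat_lit 5328, nat_lit 0, nat_lit 4775, nat_lit 3390, nat_lit 0, nat_lit 0, nat_lit 0, nat_lit 329, nat_lit 0, nat_lit 0, nat_lit 0, nat_lit 0, nat_lit 0, nat_lit 142000, nat_lit 0, nat_lit 0, [(nat_lit 19, [(nat_lit 0, nat_lit 568)]), (nat_lit 22, [(nat_lit 0, nat_lit 568)])],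
 ⟨p095_k21, nat_lit 0, nat_lit 0, nat_lit 59, nat_lit 0, nat_lit 0, [nat_lit 1768448001, nat_lit 3370467200, nat_lit 6030659840], [], [nat_lit 24534694100, nat_lit 26798800600, nat_lit 26379951400, nat_lit 28431648500, nat_lit 26875151300, nat_lit 28906476500, nat_lit 28469732950, nat_lit 30527784175], nat_lit 0, nat_lit 0, nat_lit 0, nat_lit 0, nat_lit 0, nat_lit 0, [], [nat_lit 27, nat_lit 40, nat_lit 40, nat_lit 80, nat_lit 13, nat_lit 289, nat_lit 75, nat_lit 7]⟩, ⟨p095_k22, nat_lit 0, nat_lit 0, nat_lit 562, nat_lit 0, nat_lit 814120, [nat_lit 1417824000, nat_lit 2700000000, nat_lit 5128704000], [], [nat_lit 13668789510, nat_lit 13783502690, nat_lit 14127642229, nat_lit 14227525351, nat_lit 13119892892, nat_lit 13200994367, nat_lit 13444298794, nat_lit 13513710635], nat_lit 1271250, nat_lit 1271250, nat_lit 1271250, nat_lit 1271250, nat_lit 205650, nat_lit 2425650, [nat_lit 780000, nat_lit 1435000, nat_lit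 1271250], [nat_lit 23, nat_lit 40, nat_lit 40, nat_lit 80, nat_lit 12, nat_lit 483, nat_lit 250, nat_lit 12]⟩,
 ⟨nat_lit 3162, nat_lit 4473, ⟨.ofNat (nat_lit 722015), .ofNat (nat_lit 790054), .ofNat (nat_lit 732752), .ofNat (nat_lit 800803), .ofNat (nat_lit 710319), .ofNat (nat_lit 771333), .ofNat (nat_lit 721351), .ofNat (nat_lit 782377)⟩, ⟨.ofNat (nat_lit 438578), .ofNat (nat_lit 540545), .ofNat (nat_lit 481711), .ofNat (nat_lit 583678), .ofNat (nat_lit 428022), .ofNat (nat_lit 519453), .ofNat (nat_lit 472332), .ofNat (nat_lit 563762)⟩⟩, [⟨nat_lit 16, nat_lit 74, nat_lit 100, nat_lit 90, nat_lit 432778209⟩, ⟨nat_lit 19, nat_lit 100, nat_lit 80, nat_lit 100, nat_lit 73697933⟩]⟩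
noncomputable def p095_l99 : Lf2 := ⟨nat_lit 0, nat_lit 20, [nat_lit 5, nat_lit 5, nat_lit 5, nat_lit 20], false, nat_lit 160, nat_lit 240, nat_lit 0, nat_lit 328, ⟨nat_lit 353, nat_lit 647, nat_lit 0, nat_lit 7, nat_lit 293, nat_lit 647, nat_lit 156, nat_lit 0, nat_lit 0, nat_lit 0, nat_lit 0, nat_lit 0, nat_lit 37987507, nat_lit 21251969, nat_lit 7760524, nat_lit 5017838, true, false⟩,
 nat_lit 0, nat_lit 0, nat_lit 3846, nat_lit 0, nat_lit 4629, nat_lit 2554, nat_lit 0, nat_lit 0, nat_lit 0, nat_lit 279, nat_lit 0, nat_lit 0, nat_lit 0, nat_lit 0, nat_lit 0, nat_lit 161750, nat_lit 0, nat_lit 0, [(nat_lit 19, [(nat_lit 0, nat_lit 647)]), (nat_lit 22, [(nat_lit 0, nat_lit 647)])],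
 ⟨p095_k21, nat_lit 0, nat_lit 0, nat_lit 60, nat_lit 0, nat_lit 0, [nat_lit 1731792000, nat_lit 3187218800, nat_lit 5516834360], [], [nat_lit 20638819472, nat_lit 23455494848, nat_lit 24613045780, nat_lit 26941593084, nat_lit 22881205124, nat_lit 25315622660, nat_lit 26285341352, nat_lit 28309189968], nat_lit 0, nat_lit 0, nat_lit 0, nat_lit 0, nat_lit 0, nat_lit 0, [], [nat_lit 27, nat_lit 40, nat_lit 40, nat_lit 80, nat_lit 13, nat_lit 373, nat_lit 150, nat_lit 10]⟩, ⟨p095_k25, nat_lit 0, nat_lit 0, nat_lit 640, nat_lit 0, nat_lit 837166, [nat_lit 1158546000, nat_lit 2206250000, nat_lit 4190816000], [], [nat_lit 11116357970, nat_lit 11222710179, nat_lit 11791673400, nat_lit 11974101593, nat_lit 10320824182, nat_lit 10398037073, nat_lit 10776204992, nat_lit 10852592536], nat_lit 1271250, nat_lit 1271250, nat_lit 1271250, nat_lit 1271250, nat_lit 0, nat_lit 2316500, [nat_lit 780000, nat_lit 1435000, nat_lit 1271250],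 [nat_lit 23, nat_lit 40, nat_lit 40, nat_lit 80, nat_lit 12, nat_lit 483, nat_lit 250, nat_lit 12]⟩,
 ⟨nat_lit 3162, nat_lit 4473, ⟨.ofNat (nat_lit 664697), .ofNat (nat_lit 800803), .ofNat (nat_lit 675435), .ofNat (nat_lit 811546), .ofNat (nat_lit 660320), .ofNat (nat_lit 782377), .ofNat (nat_lit 671352), .ofNat (nat_lit 793414)⟩, ⟨.ofNat (nat_lit 302621), .ofNat (nat_lit 438578), .ofNat (nat_lit 345754), .ofNat (nat_lit 481711), .ofNat (nat_lit 306116), .ofNat (nat_lit 428022), .ofNat (nat_lit 350426), .ofNat (nat_lit 472332)⟩⟩, [⟨nat_lit 4, nat_lit 100, nat_lit 74, nat_lit 90, nat_lit 233280854⟩, ⟨nat_lit 7, nat_lit 97, nat_lit 100, nat_lit 98, nat_lit 50044424⟩]⟩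
noncomputable def p095_l100 : Lf2 := ⟨nat_lit 0, nat_lit 20, [nat_lit 5, nat_lit 5, nat_lit 5, nat_lit 20], false, nat_lit 240, nat_lit 300, nat_lit 16, nat_lit 328, ⟨nat_lit 562, nat_lit 438, nat_lit 0, nat_lit 7, nat_lit 293, nat_lit 438, nat_lit 201, nat_lit 0, nat_lit 0, nat_lit 0, nat_lit 0, nat_lit 0, nat_lit 35715259, nat_lit 20251136, nat_lit 11033605, nat_lit 5365241, true, false⟩,
 nat_lit 0, nat_lit 0, nat_lit 6195, nat_lit 0, nat_lit 5016, nat_lit 4114, nat_lit 0, nat_lit 0, nat_lit 0, nat_lit 436, nat_lit 0, nat_lit 0, nat_lit 0, nat_lit 0, nat_lit 0, nat_lit 109500, nat_lit 0, nat_lit 0, [(nat_lit 19, [(nat_lit 0, nat_lit 438)]), (nat_lit 22, [(nat_lit 0, nat_lit 438)])],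
 ⟨p095_k21, nat_lit 0, nat_lit 0, nat_lit 59, nat_lit 0, nat_lit 0, [nat_lit 1828768001, nat_lit 3672015200, nat_lit 6879718400], [], [nat_lit 23029294496, nat_lit 25564480640, nat_lit 26535185408, nat_lit 28633174752, nat_lit 25658712680, nat_lit 27866001224, nat_lit 28653578960, nat_lit 30755446512], nat_lit 0, nat_lit 0, nat_lit 0, nat_lit 0, nat_lit 0, nat_lit 0, [], [nat_lit 27, nat_lit 40, nat_lit 40, nat_lit 80, nat_lit 13, nat_lit 401, nat_lit 175, nat_lit 10]⟩, ⟨p095_k25, nat_lit 0, nat_lit 0, nat_lit 605, nat_lit 0, nat_lit 837166, [nat_lit 1844484000, nat_lit 3512500000, nat_lit 6672064000], [], [nat_lit 17290043019, nat_lit 17457597561, nat_lit 18314382515, nat_lit 18603784073, nat_lit 16272913116, nat_lit 16395975708, nat_lit 17162474358, nat_lit 17318911655], nat_lit 1271250, nat_lit 1271250, nat_lit 1271250, nat_lit 1271250, nat_lit 88400, nat_lit 2338700, [nat_lit 780000, nat_lit 1435000, nat_lit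 1271250], [nat_lit 23, nat_lit 40, nat_lit 40, nat_lit 80, nat_lit 12, nat_lit 483, nat_lit 250, nat_lit 12]⟩,
 ⟨nat_lit 3162, nat_lit 4473, ⟨.ofNat (nat_lit 664697), .ofNat (nat_lit 800803), .ofNat (nat_lit 675435), .ofNat (nat_lit 811546), .ofNat (nat_lit 660320), .ofNat (nat_lit 782377), .ofNat (nat_lit 671352), .ofNat (nat_lit 793414)⟩, ⟨.ofNat (nat_lit 438578), .ofNat (nat_lit 540545), .ofNat (nat_lit 481711), .ofNat (nat_lit 583678), .ofNat (nat_lit 428022), .ofNat (nat_lit 519453), .ofNat (nat_lit 472332), .ofNat (nat_lit 563762)⟩⟩, [⟨nat_lit 4, nat_lit 100, nat_lit 74, nat_lit 90, nat_lit 500757751⟩, ⟨nat_lit 19, nat_lit 97, nat_lit 84, nat_lit 100, nat_lit 89616018⟩]⟩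
noncomputable def p095_l101 : Lf2 := ⟨nat_lit 0, nat_lit 20, [nat_lit 5, nat_lit 5, nat_lit 5, nat_lit 20], false, nat_lit 160, nat_lit 300, nat_lit 16, nat_lit 336, ⟨nat_lit 1000, nat_lit 0, nat_lit 0, nat_lit 0, nat_lit 0, nat_lit 0, nat_lit 0, nat_lit 0, nat_lit 0, nat_lit 0, nat_lit 0, nat_lit 0, nat_lit 0, nat_lit 0, nat_lit 0, nat_lit 0, false, false⟩,
 nat_lit 0, nat_lit 0, nat_lit 10948, nat_lit 0, nat_lit 5394, nat_lit 6966, nat_lit 0, nat_lit 0, nat_lit 0, nat_lit 728, nat_lit 0, nat_lit 0, nat_lit 0, nat_lit 0, nat_lit 0, nat_lit 0, nat_lit 0, nat_lit 0, [],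
 ⟨p095_k21, nat_lit 0, nat_lit 0, nat_lit 80, nat_lit 0, nat_lit 0, [nat_lit 2032000001, nat_lit 4688000000, nat_lit 9842000000], [], [nat_lit 25683606280, nat_lit 26311944516, nat_lit 30906465184, nat_lit 31396536596, nat_lit 29484952340, nat_lit 29957206946, nat_lit 33516906892, nat_lit 33941314265], nat_lit 0, nat_lit 0, nat_lit 0, nat_lit 0, nat_lit 0, nat_lit 0, [], [nat_lit 27, nat_lit 40, nat_lit 40, nat_lit 80, nat_lit 13, nat_lit 289, nat_lit 75, nat_lit 7]⟩, ⟨p095_k22, nat_lit 0, nat_lit 0, nat_lit 401, nat_lit 0, nat_lit 405049, [nat_lit 3282000000, nat_lit 6250000000, nat_lit 11872000000], [], [nat_lit 34993072988, nat_lit 35298924031, nat_lit 38434468114, nat_lit 38768283248, nat_lit 33033869791, nat_lit 33185527740, nat_lit 35574797250, nat_lit 35732265322], nat_lit 1271250, nat_lit 1271250, nat_lit 1271250, nat_lit 1271250, nat_lit 88400, nat_lit 2396400, [nat_lit 780000, nat_lit 1435000, nat_lit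 1271250], [nat_lit 23, nat_lit 40, nat_lit 40, nat_lit 80, nat_lit 12, nat_lit 401, nat_lit 175, nat_lit 10]⟩,
 zbF0, [⟨nat_lit 4, nat_lit 100, nat_lit 84, nat_lit 93, nat_lit 397521454⟩, ⟨nat_lit 19, nat_lit 100, nat_lit 91, nat_lit 96, nat_lit 151894086⟩]⟩
noncomputable def p095_l102 : Lf2 := ⟨nat_lit 0, nat_lit 20, [nat_lit 5, nat_lit 5, nat_lit 5, nat_lit 20], false, nat_lit 160, nat_lit 288, nat_lit 16, nat_lit 336, ⟨nat_lit 1000, nat_lit 0, nat_lit 0, nat_lit 0, nat_lit 0, nat_lit 0, nat_lit 0, nat_lit 0, nat_lit 0, nat_lit 0, nat_lit 0, nat_lit 0, nat_lit 0, nat_lit 0, nat_lit 0, nat_lit 0, false, false⟩,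
 nat_lit 0, nat_lit 0, nat_lit 11002, nat_lit 0, nat_lit 4820, nat_lit 7001, nat_lit 736, nat_lit 0, nat_lit 0, nat_lit 728, nat_lit 0, nat_lit 0, nat_lit 0, nat_lit 0, nat_lit 0, nat_lit 0, nat_lit 0, nat_lit 0, [],
 ⟨p095_k26, nat_lit 0, nat_lit 0, nat_lit 83, nat_lit 0, nat_lit 0, [nat_lit 2032000001, nat_lit 4688000000, nat_lit 9842000000], [], [nat_lit 26524799760, nat_lit 26997488720, nat_lit 30242950747, nat_lit 30741501977, nat_lit 28901253569, nat_lit 29364743744, nat_lit 32679414197, nat_lit 33104796565], nat_lit 0, nat_lit 0, nat_lit 0, nat_lit 0, nat_lit 0, nat_lit 0, [], [nat_lit 27, nat_lit 40, nat_lit 40, nat_lit 80, nat_lit 13, nat_lit 289, nat_lit 75, nat_lit 7]⟩, ⟨p095_k22, nat_lit 0, nat_lit 0, nat_lit 483, nat_lit 0, nat_lit 534665, [nat_lit 3282000000, nat_lit 6250000000, nat_lit 11872000000], [], [nat_lit 34924538060, nat_lit 35230791764, nat_lit 38190990730, nat_lit 38520909022, nat_lit 32927823095,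 nat_lit 33081845721, nat_lit 35337490817, nat_lit 35498045189], nat_lit 1271250, nat_lit 1271250, nat_lit 1271250, nat_lit 1271250, nat_lit 88400, nat_lit 2396400, [nat_lit 780000, nat_lit 1435000, nat_lit 1271250], [nat_lit 23, nat_lit 40, nat_lit 40, nat_lit 80, nat_lit 12, nat_lit 401, nat_lit 175, nat_lit 10]⟩,
 zbF0, [⟨nat_lit 4, nat_lit 100, nat_lit 77, nat_lit 91, nat_lit 441005639⟩, ⟨nat_lit 7, nat_lit 91, nat_lit 100, nat_lit 96, nat_lit 152109452⟩]⟩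
noncomputable def p095_l103 : Lf2 := ⟨nat_lit 0, nat_lit 20, [nat_lit 5, nat_lit 5, nat_lit 5, nat_lit 20], false, nat_lit 160, nat_lit 300, nat_lit 16, nat_lit 328, ⟨nat_lit 1000, nat_lit 0, nat_lit 0, nat_lit 0, nat_lit 0, nat_lit 0, nat_lit 0, nat_lit 0, nat_lit 0, nat_lit 0, nat_lit 0, nat_lit 0, nat_lit 0, nat_lit 0, nat_lit 0, nat_lit 0, false, false⟩,
 nat_lit 0, nat_lit 0, nat_lit 9490, nat_lit 0, nat_lit 5396, nat_lit 6302, nat_lit 684, nat_lit 0, nat_lit 0, nat_lit 822, nat_lit 0, nat_lit 0, nat_lit 0, nat_lit 0, nat_lit 0, nat_lit 0, nat_lit 0, nat_lit 0, [],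
 ⟨p095_k21, nat_lit 0, nat_lit 0, nat_lit 92, nat_lit 0, nat_lit 0, [nat_lit 2032000001, nat_lit 4688000000, nat_lit 9842000000], [], [nat_lit 26947759340, nat_lit 27940689516, nat_lit 31107159004, nat_lit 31886674272, nat_lit 29676887980, nat_lit 30428635734, nat_lit 33519247328, nat_lit 34368179158], nat_lit 0, nat_lit 0, nat_lit 0, nat_lit 0, nat_lit 0, nat_lit 0, [], [nat_lit 27, nat_lit 40, nat_lit 40, nat_lit 80, nat_lit 13, nat_lit 289, nat_lit 75, nat_lit 7]⟩, ⟨p095_k25, nat_lit 0, nat_lit 0, nat_lit 497, nat_lit 0, nat_lit 581606, [nat_lit 3282000000, nat_lit 6250000000, nat_lit 11872000000], [], [nat_lit 33537359218, nat_lit 33835571207, nat_lit 36756759757, nat_lit 36977855585, nat_lit 32528465331, nat_lit 32754776376, nat_lit 35051940622, nat_lit 35217828282], nat_lit 1271250, nat_lit 1271250, nat_lit 1271250, nat_lit 1271250, nat_lit 88400, nat_lit 2338700, [nat_lit 780000, nat_lit 1435000, nat_lit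 1271250], [nat_lit 23, nat_lit 40, nat_lit 40, nat_lit 80, nat_lit 12, nat_lit 401, nat_lit 175, nat_lit 10]⟩,
 zbF0, [⟨nat_lit 4, nat_lit 100, nat_lit 81, nat_lit 92, nat_lit 413674655⟩, ⟨nat_lit 7, nat_lit 97, nat_lit 100, nat_lit 98, nat_lit 166509633⟩]⟩
noncomputable def p095_l104 : Lf2 := ⟨nat_lit 0, nat_lit 20, [nat_lit 5, nat_lit 5, nat_lit 5, nat_lit 20], false, nat_lit 160, nat_lit 276, nat_lit 16, nat_lit 160, ⟨nat_lit 1000, nat_lit 0, nat_lit 0, nat_lit 0, nat_lit 0, nat_lit 0, nat_lit 0, nat_lit 0, nat_lit 0, nat_lit 0, nat_lit 0, nat_lit 0, nat_lit 0, nat_lit 0, nat_lit 0, nat_lit 0, false, false⟩,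
 nat_lit 0, nat_lit 0, nat_lit 11375, nat_lit 0, nat_lit 4099, nat_lit 7238, nat_lit 687, nat_lit 0, nat_lit 0, nat_lit 749, nat_lit 0, nat_lit 0, nat_lit 0, nat_lit 0, nat_lit 0, nat_lit 0, nat_lit 0, nat_lit 0, [],
 ⟨p095_k24, nat_lit 0, nat_lit 0, nat_lit 101, nat_lit 0, nat_lit 0, [nat_lit 2032000001, nat_lit 4688000000, nat_lit 7968000000], [], [nat_lit 26428216937, nat_lit 27339249841, nat_lit 29942452231, nat_lit 30800787300, nat_lit 28637132988, nat_lit 29393875965, nat_lit 31907321521, nat_lit 32733256510], nat_lit 0, nat_lit 0, nat_lit 0, nat_lit 0, nat_lit 0, nat_lit 0, [], [nat_lit 34, nat_lit 40, nat_lit 40, nat_lit 80, nat_lit 7, nat_lit 289, nat_lit 75, nat_lit 8]⟩, ⟨p095_k22, nat_lit 0, nat_lit 0, nat_lit 632, nat_lit 0, nat_lit 890782, [nat_lit 3282000000, nat_lit 6250000000, nat_lit 11872000000], [], [nat_lit 35626971300, nat_lit 36093139207, nat_lit 38215855839, nat_lit 38917656557, nat_lit 31694427971,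 nat_lit 32076761367, nat_lit 34185081257, nat_lit 34590161131], nat_lit 1271250, nat_lit 1271250, nat_lit 1271250, nat_lit 1271250, nat_lit 88400, nat_lit 1100001, [nat_lit 780000, nat_lit 1435000, nat_lit 1271250], [nat_lit 23, nat_lit 40, nat_lit 40, nat_lit 80, nat_lit 12, nat_lit 345, nat_lit 125, nat_lit 8]⟩,
 zbF0, [⟨nat_lit 4, nat_lit 100, nat_lit 67, nat_lit 88, nat_lit 512793997⟩]⟩
noncomputable def p095_l105 : Lf2 := ⟨nat_lit 0, nat_lit 20, [nat_lit 5, nat_lit 5, nat_lit 5, nat_lit 20], false, nat_lit 160, nat_lit 276, nat_lit 160, nat_lit 240, ⟨nat_lit 1000, nat_lit 0, nat_lit 0, nat_lit 0, nat_lit 0, nat_lit 0, nat_lit 0, nat_lit 0, nat_lit 0, nat_lit 0, nat_lit 0, nat_lit 0, nat_lit 0, nat_lit 0, nat_lit 0, nat_lit 0, false, false⟩,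
 nat_lit 0, nat_lit 0, nat_lit 9905, nat_lit 0, nat_lit 4124, nat_lit 6303, nat_lit 687, nat_lit 0, nat_lit 0, nat_lit 775, nat_lit 0, nat_lit 0, nat_lit 0, nat_lit 0, nat_lit 0, nat_lit 0, nat_lit 0, nat_lit 0, [],
 ⟨p095_k24, nat_lit 0, nat_lit 0, nat_lit 96, nat_lit 0, nat_lit 0, [nat_lit 2032000001, nat_lit 4688000000, nat_lit 7968000000], [], [nat_lit 26396803537, nat_lit 27310053841, nat_lit 29740594594, nat_lit 30589223713, nat_lit 28603773313, nat_lit 29382482018, nat_lit 31724805762, nat_lit 32563146135], nat_lit 0, nat_lit 0, nat_lit 0, nat_lit 0, nat_lit 0, nat_lit 0, [], [nat_lit 34, nat_lit 40, nat_lit 40, nat_lit 80, nat_lit 7, nat_lit 289, nat_lit 75, nat_lit 8]⟩, ⟨p095_k22, nat_lit 0, nat_lit 0, nat_lit 496, nat_lit 0, nat_lit 814120, [nat_lit 3282000000, nat_lit 6250000000, nat_lit 11872000000], [], [nat_lit 32499641445, nat_lit 32738869752, nat_lit 35011262267, nat_lit 35204463784, nat_lit 32878232033,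 nat_lit 33089936804, nat_lit 35313742193, nat_lit 35539370797], nat_lit 1271250, nat_lit 1271250, nat_lit 1271250, nat_lit 1271250, nat_lit 1100001, nat_lit 1785000, [nat_lit 780000, nat_lit 1435000, nat_lit 1271250], [nat_lit 23, nat_lit 40, nat_lit 40, nat_lit 80, nat_lit 12, nat_lit 373, nat_lit 150, nat_lit 8]⟩,
 zbF0, [⟨nat_lit 4, nat_lit 100, nat_lit 67, nat_lit 88, nat_lit 513989037⟩]⟩
noncomputable def p095_l106 : Lf2 := ⟨nat_lit 0, nat_lit 15, [nat_lit 30, nat_lit 5, nat_lit 5, nat_lit 20], false, nat_lit 160, nat_lit 276, nat_lit 240, nat_lit 336, ⟨nat_lit 1000, nat_lit 0, nat_lit 0, nat_lit 0, nat_lit 0, nat_lit 0, nat_lit 0, nat_lit 0, nat_lit 0, nat_lit 0, nat_lit 0, nat_lit 0, nat_lit 0, nat_lit 0, nat_lit 0, nat_lit 0, false, false⟩,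
 nat_lit 0, nat_lit 0, nat_lit 11118, nat_lit 0, nat_lit 4159, nat_lit 7075, nat_lit 695, nat_lit 0, nat_lit 0, nat_lit 666, nat_lit 0, nat_lit 0, nat_lit 0, nat_lit 0, nat_lit 0, nat_lit 0, nat_lit 0, nat_lit 0, [],
 ⟨p095_k35, nat_lit 0, nat_lit 0, nat_lit 86, nat_lit 0, nat_lit 0, [nat_lit 2032000001, nat_lit 4688000000, nat_lit 7968000000], [], [nat_lit 26282824777, nat_lit 26741002109, nat_lit 29667364642, nat_lit 30120153304, nat_lit 28505641948, nat_lit 28900986456, nat_lit 31765664881, nat_lit 32186059666], nat_lit 0, nat_lit 0, nat_lit 0, nat_lit 0, nat_lit 0, nat_lit 0, [], [nat_lit 34, nat_lit 40, nat_lit 40, nat_lit 80, nat_lit 7, nat_lit 289, nat_lit 75, nat_lit 8]⟩, ⟨p095_k36, nat_lit 0, nat_lit 0, nat_lit 350, nat_lit 0, nat_lit 666934, [nat_lit 3282000000, nat_lit 6250000000, nat_lit 9842000000], [], [nat_lit 30730928750, nat_lit 30973689925, nat_lit 33237870371, nat_lit 33418999321, nat_lit 32691155730,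 nat_lit 32867183380, nat_lit 34990553448, nat_lit 35311865633], nat_lit 1271250, nat_lit 1271250, nat_lit 1271250, nat_lit 1271250, nat_lit 1271250, nat_lit 1271250, [nat_lit 780000, nat_lit 1435000, nat_lit 1271250], [nat_lit 8, nat_lit 40, nat_lit 40, nat_lit 80, nat_lit 1, nat_lit 317, nat_lit 100, nat_lit 8]⟩,
 zbF0, [⟨nat_lit 4, nat_lit 100, nat_lit 71, nat_lit 89, nat_lit 483035601⟩, ⟨nat_lit 19, nat_lit 100, nat_lit 91, nat_lit 96, nat_lit 360957751⟩]⟩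
noncomputable def p095_l107 : Lf2 := ⟨nat_lit 0, nat_lit 15, [nat_lit 30, nat_lit 5, nat_lit 5, nat_lit 20], false, nat_lit 160, nat_lit 264, nat_lit 240, nat_lit 336, ⟨nat_lit 989, nat_lit 11, nat_lit 0, nat_lit 8, nat_lit 333, nat_lit 11, nat_lit 163, nat_lit 0, nat_lit 0, nat_lit 0, nat_lit 0, nat_lit 0, nat_lit 34657332, nat_lit 24570249, nat_lit 7772419, nat_lit 5141834, true, true⟩,
 nat_lit 0, nat_lit 0, nat_lit 9296, nat_lit 0, nat_lit 4174, nat_lit 5915, nat_lit 653, nat_lit 0, nat_lit 0, nat_lit 1136, nat_lit 0, nat_lit 0, nat_lit 0, nat_lit 0, nat_lit 0, nat_lit 4400, nat_lit 0, nat_lit 0, [(nat_lit 22, [(nat_lit 1, nat_lit 11)])],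
 ⟨p095_k37, nat_lit 0, nat_lit 0, nat_lit 91, nat_lit 0, nat_lit 0, [nat_lit 2024590400, nat_lit 3261868534, nat_lit 6197472800], [], [nat_lit 26515642968, nat_lit 27008340994, nat_lit 29885678393, nat_lit 30411357192, nat_lit 28539307517, nat_lit 28972648285, nat_lit 31663012727, nat_lit 32100529120], nat_lit 0, nat_lit 0, nat_lit 0, nat_lit 0, nat_lit 0, nat_lit 0, [], [nat_lit 85, nat_lit 40, nat_lit 40, nat_lit 80, nat_lit 16, nat_lit 289, nat_lit 75, nat_lit 9]⟩, ⟨p095_k38, nat_lit 0, nat_lit 0, nat_lit 422, nat_lit 0, nat_lit 806689, [nat_lit 3245898000, nat_lit 4636432000, nat_lit 9733738000], [], [nat_lit 29558392024, nat_lit 29743508537, nat_lit 31530171714, nat_lit 31700805952, nat_lit 31308209555, nat_lit 31471655361, nat_lit 33123504482, nat_lit 33427170370], nat_lit 1271250, nat_lit 1271250, nat_lit 1271250, nat_lit 1271250, nat_lit 1271250, nat_lit 1271250, [nat_lit 780000, nat_lit 1100000, nat_lit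 2127500], [nat_lit 42, nat_lit 40, nat_lit 40, nat_lit 80, nat_lit 13, nat_lit 317, nat_lit 100, nat_lit 8]⟩,
 ⟨nat_lit 3162, nat_lit 3536, ⟨.ofNat (nat_lit 776092), .ofNat (nat_lit 882788), .ofNat (nat_lit 787064), .ofNat (nat_lit 893764), .ofNat (nat_lit 771477), .ofNat (nat_lit 875099), .ofNat (nat_lit 782550), .ofNat (nat_lit 886176)⟩, ⟨.ofNat (nat_lit 305521), .ofNat (nat_lit 468701), .ofNat (nat_lit 349427), .ofNat (nat_lit 512606), .ofNat (nat_lit 306116), .ofNat (nat_lit 464594), .ofNat (nat_lit 350426), .ofNat (nat_lit 508904)⟩⟩, [⟨nat_lit 16, nat_lit 64, nat_lit 100, nat_lit 88, nat_lit 538040951⟩, ⟨nat_lit 7, nat_lit 91, nat_lit 100, nat_lit 96, nat_lit 349203045⟩]⟩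
noncomputable def p095_l108 : Lf2 := ⟨nat_lit 0, nat_lit 20, [nat_lit 5, nat_lit 5, nat_lit 5, nat_lit 20], false, nat_lit 160, nat_lit 276, nat_lit 240, nat_lit 336, ⟨nat_lit 1000, nat_lit 0, nat_lit 0, nat_lit 0, nat_lit 0, nat_lit 0, nat_lit 0, nat_lit 0, nat_lit 0, nat_lit 0, nat_lit 0, nat_lit 0, nat_lit 0, nat_lit 0, nat_lit 0, nat_lit 0, false, false⟩,
 nat_lit 0, nat_lit 0, nat_lit 9500, nat_lit 0, nat_lit 4105, nat_lit 6045, nat_lit 678, nat_lit 0, nat_lit 0, nat_lit 786, nat_lit 0, nat_lit 0, nat_lit 0, nat_lit 0, nat_lit 0, nat_lit 0, nat_lit 0, nat_lit 0, [],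
 ⟨p095_k24, nat_lit 0, nat_lit 0, nat_lit 96, nat_lit 0, nat_lit 0, [nat_lit 2032000001, nat_lit 4688000000, nat_lit 7968000000], [], [nat_lit 26499427721, nat_lit 27410992801, nat_lit 29822600122, nat_lit 30613016184, nat_lit 28707876666, nat_lit 29469474739, nat_lit 31702625097, nat_lit 32539635907], nat_lit 0, nat_lit 0, nat_lit 0, nat_lit 0, nat_lit 0, nat_lit 0, [], [nat_lit 34, nat_lit 40, nat_lit 40, nat_lit 80, nat_lit 7, nat_lit 289, nat_lit 75, nat_lit 8]⟩, ⟨p095_k22, nat_lit 0, nat_lit 0, nat_lit 357, nat_lit 0, nat_lit 577803, [nat_lit 3282000000, nat_lit 6250000000, nat_lit 11872000000], [], [nat_lit 31082620890, nat_lit 31355521910, nat_lit 33799106778, nat_lit 34008705635, nat_lit 33328163966, nat_lit 33533144218, nat_lit 35964277324, nat_lit 36182247000], nat_lit 1271250, nat_lit 1271250, nat_lit 1271250, nat_lit 1271250, nat_lit 1271250, nat_lit 1271250, [nat_lit 780000, nat_lit 1435000, nat_lit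 1271250], [nat_lit 23, nat_lit 40, nat_lit 40, nat_lit 80, nat_lit 12, nat_lit 401, nat_lit 175, nat_lit 9]⟩,
 zbF0, [⟨nat_lit 4, nat_lit 100, nat_lit 67, nat_lit 88, nat_lit 503749247⟩, ⟨nat_lit 7, nat_lit 91, nat_lit 100, nat_lit 96, nat_lit 376373047⟩]⟩
noncomputable def p095_l109 : Lf2 := ⟨nat_lit 0, nat_lit 20, [nat_lit 5, nat_lit 5, nat_lit 5, nat_lit 20], false, nat_lit 160, nat_lit 276, nat_lit 160, nat_lit 328, ⟨nat_lit 1000, nat_lit 0, nat_lit 0, nat_lit 0, nat_lit 0, nat_lit 0, nat_lit 0, nat_lit 0, nat_lit 0, nat_lit 0, nat_lit 0, nat_lit 0, nat_lit 0, nat_lit 0, nat_lit 0, nat_lit 0, false, false⟩,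
 nat_lit 0, nat_lit 0, nat_lit 9702, nat_lit 0, nat_lit 4182, nat_lit 6443, nat_lit 694, nat_lit 0, nat_lit 0, nat_lit 787, nat_lit 0, nat_lit 0, nat_lit 0, nat_lit 0, nat_lit 0, nat_lit 0, nat_lit 0, nat_lit 0, [],
 ⟨p095_k24, nat_lit 0, nat_lit 0, nat_lit 92, nat_lit 0, nat_lit 0, [nat_lit 2032000001, nat_lit 4688000000, nat_lit 7968000000], [], [nat_lit 26262674449, nat_lit 26721871785, nat_lit 29895869596, nat_lit 30406135493, nat_lit 28500826555, nat_lit 28894930277, nat_lit 32006093534, nat_lit 32421883795], nat_lit 0, nat_lit 0, nat_lit 0, nat_lit 0, nat_lit 0, nat_lit 0, [], [nat_lit 34, nat_lit 40, nat_lit 40, nat_lit 80, nat_lit 7, nat_lit 289, nat_lit 75, nat_lit 8]⟩, ⟨p095_k25, nat_lit 0, nat_lit 0, nat_lit 418, nat_lit 0, nat_lit 706341, [nat_lit 3282000000, nat_lit 6250000000, nat_lit 11872000000], [], [nat_lit 30167019262, nat_lit 30419915221, nat_lit 32799341709, nat_lit 32989631167, nat_lit 32215875093,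 nat_lit 32442648985, nat_lit 34621657851, nat_lit 34790032093], nat_lit 1271250, nat_lit 1271250, nat_lit 1271250, nat_lit 1271250, nat_lit 1100001, nat_lit 2538500, [nat_lit 780000, nat_lit 1435000, nat_lit 1271250], [nat_lit 23, nat_lit 40, nat_lit 40, nat_lit 80, nat_lit 12, nat_lit 401, nat_lit 175, nat_lit 9]⟩,
 zbF0, [⟨nat_lit 4, nat_lit 100, nat_lit 71, nat_lit 89, nat_lit 486565987⟩, ⟨nat_lit 7, nat_lit 97, nat_lit 100, nat_lit 98, nat_lit 285746061⟩]⟩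
noncomputable def p095_l110 : Lf2 := ⟨nat_lit 0, nat_lit 20, [nat_lit 5, nat_lit 5, nat_lit 5, nat_lit 20], false, nat_lit 160, nat_lit 264, nat_lit 160, nat_lit 328, ⟨nat_lit 1000, nat_lit 0, nat_lit 0, nat_lit 0, nat_lit 0, nat_lit 0, nat_lit 0, nat_lit 0, nat_lit 0, nat_lit 0, nat_lit 0, nat_lit 0, nat_lit 0, nat_lit 0, nat_lit 0, nat_lit 0, false, false⟩,
 nat_lit 0, nat_lit 0, nat_lit 9294, nat_lit 0, nat_lit 3784, nat_lit 6172, nat_lit 724, nat_lit 0, nat_lit 0, nat_lit 788, nat_lit 0, nat_lit 0, nat_lit 0, nat_lit 0, nat_lit 0, nat_lit 0, nat_lit 0, nat_lit 0, [],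
 ⟨p095_k33, nat_lit 0, nat_lit 0, nat_lit 96, nat_lit 0, nat_lit 0, [nat_lit 2032000001, nat_lit 4688000000, nat_lit 7968000000], [], [nat_lit 26183885109, nat_lit 26625431941, nat_lit 29614218154, nat_lit 30112659853, nat_lit 28035611414, nat_lit 28409377948, nat_lit 31410357813, nat_lit 31827908628], nat_lit 0, nat_lit 0, nat_lit 0, nat_lit 0, nat_lit 0, nat_lit 0, [], [nat_lit 34, nat_lit 40, nat_lit 40, nat_lit 80, nat_lit 7, nat_lit 289, nat_lit 75, nat_lit 8]⟩, ⟨p095_k25, nat_lit 0, nat_lit 0, nat_lit 503, nat_lit 0, nat_lit 837166, [nat_lit 3282000000, nat_lit 6250000000, nat_lit 11872000000], [], [nat_lit 31082246368, nat_lit 31278530556, nat_lit 33368631287, nat_lit 33565315279, nat_lit 33054906212, nat_lit 33230833954, nat_lit 35244612682, nat_lit 35417064350], nat_lit 1271250, nat_lit 1271250, nat_lit 1271250, nat_lit 1271250, nat_lit 1100001, nat_lit 2538500, [nat_lit 780000, nat_lit 1435000, nat_lit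 1271250], [nat_lit 23, nat_lit 40, nat_lit 40, nat_lit 80, nat_lit 12, nat_lit 401, nat_lit 175, nat_lit 9]⟩,
 zbF0, [⟨nat_lit 4, nat_lit 100, nat_lit 64, nat_lit 88, nat_lit 526485371⟩, ⟨nat_lit 19, nat_lit 100, nat_lit 97, nat_lit 98, nat_lit 287325102⟩]⟩
noncomputable def p095_l111 : Lf2 := ⟨nat_lit 0, nat_lit 20, [nat_lit 5, nat_lit 5, nat_lit 5, nat_lit 20], false, nat_lit 160, nat_lit 300, nat_lit 0, nat_lit 320, ⟨nat_lit 963, nat_lit 37, nat_lit 0, nat_lit 7, nat_lit 297, nat_lit 37, nat_lit 176, nat_lit 0, nat_lit 0, nat_lit 0, nat_lit 0, nat_lit 0, nat_lit 36702476, nat_lit 21217159, nat_lit 9080365, nat_lit 5189652, true, false⟩,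
 nat_lit 0, nat_lit 0, nat_lit 8320, nat_lit 0, nat_lit 5880, nat_lit 5760, nat_lit 0, nat_lit 0, nat_lit 0, nat_lit 1459, nat_lit 0, nat_lit 0, nat_lit 0, nat_lit 0, nat_lit 0, nat_lit 9250, nat_lit 0, nat_lit 0, [(nat_lit 19, [(nat_lit 0, nat_lit 37)]), (nat_lit 22, [(nat_lit 0, nat_lit 37)])],
 ⟨p095_k21, nat_lit 0, nat_lit 0, nat_lit 60, nat_lit 0, nat_lit 0, [nat_lit 2014832000, nat_lit 4602174800, nat_lit 9591761600], [], [nat_lit 20906818640, nat_lit 24127997360, nat_lit 25324464400, nat_lit 27955223280, nat_lit 26007534200, nat_lit 28411905240, nat_lit 29285151920, nat_lit 31571630160], nat_lit 0, nat_lit 0, nat_lit 0, nat_lit 0, nat_lit 0, nat_lit 0, [], [nat_lit 27, nat_lit 40, nat_lit 40, nat_lit 80, nat_lit 13, nat_lit 401, nat_lit 175, nat_lit 10]⟩, ⟨p095_k23, nat_lit 0, nat_lit 0, nat_lit 579, nat_lit 0, nat_lit 860326, [nat_lit 3160566000, nat_lit 6018750000, nat_lit 9477846000], [], [nat_lit 25691228181,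 nat_lit 26023415742, nat_lit 27803404647, nat_lit 28539861354, nat_lit 25768585863, nat_lit 25958866509, nat_lit 28194014034, nat_lit 28651925817], nat_lit 1271250, nat_lit 1271250, nat_lit 1271250, nat_lit 1271250, nat_lit 0, nat_lit 2260000, [nat_lit 780000, nat_lit 1435000, nat_lit 1271250], [nat_lit 8, nat_lit 40, nat_lit 40, nat_lit 80, nat_lit 1, nat_lit 401, nat_lit 175, nat_lit 11]⟩,
 ⟨nat_lit 3162, nat_lit 4473, ⟨.ofNat (nat_lit 675435), .ofNat (nat_lit 811546), .ofNat (nat_lit 686173), .ofNat (nat_lit 822284), .ofNat (nat_lit 671352), .ofNat (nat_lit 793414), .ofNat (nat_lit 682385), .ofNat (nat_lit 804446)⟩, ⟨.ofNat (nat_lit 302621), .ofNat (nat_lit 540545), .ofNat (nat_lit 345754), .ofNat (nat_lit 583678), .ofNat (nat_lit 306116), .ofNat (nat_lit 519453), .ofNat (nat_lit 350426), .ofNat (nat_lit 563762)⟩⟩, [⟨nat_lit 16, nat_lit 74, nat_lit 100, nat_lit 90, nat_lit 547320164⟩, ⟨nat_lit 7, nat_lit 100,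 nat_lit 97, nat_lit 98, nat_lit 186878082⟩]⟩
noncomputable def p095_l112 : Lf2 := ⟨nat_lit 0, nat_lit 20, [nat_lit 5, nat_lit 5, nat_lit 5, nat_lit 20], false, nat_lit 160, nat_lit 300, nat_lit 16, nat_lit 160, ⟨nat_lit 1000, nat_lit 0, nat_lit 0, nat_lit 0, nat_lit 0, nat_lit 0, nat_lit 0, nat_lit 0, nat_lit 0, nat_lit 0, nat_lit 0, nat_lit 0, nat_lit 0, nat_lit 0, nat_lit 0, nat_lit 0, false, false⟩,
 nat_lit 0, nat_lit 0, nat_lit 8359, nat_lit 0, nat_lit 5344, nat_lit 5786, nat_lit 669, nat_lit 0, nat_lit 0, nat_lit 1317, nat_lit 0, nat_lit 0, nat_lit 0, nat_lit 0, nat_lit 0, nat_lit 0, nat_lit 0, nat_lit 0, [],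
 ⟨p095_k21, nat_lit 0, nat_lit 0, nat_lit 115, nat_lit 0, nat_lit 0, [nat_lit 2032000001, nat_lit 4688000000, nat_lit 9842000000], [], [nat_lit 27126284385, nat_lit 29103558913, nat_lit 31266886881, nat_lit 32861114432, nat_lit 29859217345, nat_lit 31390842112, nat_lit 33458395992, nat_lit 35150171232], nat_lit 0, nat_lit 0, nat_lit 0, nat_lit 0, nat_lit 0, nat_lit 0, [], [nat_lit 27, nat_lit 40, nat_lit 40, nat_lit 80, nat_lit 13, nat_lit 289, nat_lit 75, nat_lit 7]⟩, ⟨p095_k23, nat_lit 0, nat_lit 0, nat_lit 562, nat_lit 0, nat_lit 860326, [nat_lit 3282000000, nat_lit 6250000000, nat_lit 9842000000], [], [nat_lit 31029561199, nat_lit 31270323275, nat_lit 35294056288, nat_lit 35866967388, nat_lit 28882091088, nat_lit 29083511594, nat_lit 30995569364, nat_lit 31149866264], nat_lit 1271250, nat_lit 1271250, nat_lit 1271250, nat_lit 1271250, nat_lit 88400, nat_lit 1100001, [nat_lit 780000, nat_lit 1435000, nat_lit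 1271250], [nat_lit 8, nat_lit 40, nat_lit 40, nat_lit 80, nat_lit 1, nat_lit 250, nat_lit 40, nat_lit 6]⟩,
 zbF0, [⟨nat_lit 4, nat_lit 100, nat_lit 74, nat_lit 90, nat_lit 452530165⟩]⟩
noncomputable def p095_l113 : Lf2 := ⟨nat_lit 0, nat_lit 20, [nat_lit 5, nat_lit 5, nat_lit 5, nat_lit 20], false, nat_lit 160, nat_lit 300, nat_lit 160, nat_lit 320, ⟨nat_lit 1000, nat_lit 0, nat_lit 0, nat_lit 0, nat_lit 0, nat_lit 0, nat_lit 0, nat_lit 0, nat_lit 0, nat_lit 0, nat_lit 0, nat_lit 0, nat_lit 0, nat_lit 0, nat_lit 0, nat_lit 0, false, false⟩,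
 nat_lit 0, nat_lit 0, nat_lit 7568, nat_lit 0, nat_lit 6536, nat_lit 5239, nat_lit 0, nat_lit 0, nat_lit 0, nat_lit 1633, nat_lit 0, nat_lit 0, nat_lit 0, nat_lit 0, nat_lit 0, nat_lit 0, nat_lit 0, nat_lit 0, [],
 ⟨p095_k39, nat_lit 0, nat_lit 0, nat_lit 100, nat_lit 0, nat_lit 0, [nat_lit 2032000001, nat_lit 6250000000, nat_lit 9842000000], [], [nat_lit 27180212320, nat_lit 29776476960, nat_lit 32601743488, nat_lit 34599519264, nat_lit 30700993288, nat_lit 32621184096, nat_lit 34853295848, nat_lit 36684636408], nat_lit 0, nat_lit 0, nat_lit 0, nat_lit 0, nat_lit 0, nat_lit 0, [], [nat_lit 61, nat_lit 40, nat_lit 40, nat_lit 80, nat_lit 1, nat_lit 289, nat_lit 75, nat_lit 7]⟩, ⟨p095_k40, nat_lit 0, nat_lit 0, nat_lit 466, nat_lit 0, nat_lit 860326, [nat_lit 3282000000, nat_lit 7968000000, nat_lit 9842000000], [], [nat_lit 29865726715, nat_lit 30067950040, nat_lit 31969007997, nat_lit 32125843425, nat_lit 31310068753,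 nat_lit 31450658561, nat_lit 33263603284, nat_lit 33601510126], nat_lit 1271250, nat_lit 1271250, nat_lit 1271250, nat_lit 1271250, nat_lit 1100001, nat_lit 2470000, [nat_lit 780000, nat_lit 1762500, nat_lit 1271250], [nat_lit 99, nat_lit 40, nat_lit 40, nat_lit 80, nat_lit 17, nat_lit 317, nat_lit 100, nat_lit 8]⟩,
 zbF0, [⟨nat_lit 4, nat_lit 100, nat_lit 74, nat_lit 90, nat_lit 441595913⟩, ⟨nat_lit 19, nat_lit 94, nat_lit 88, nat_lit 100, nat_lit 284770037⟩]⟩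
noncomputable def p095_l114 : Lf2 := ⟨nat_lit 0, nat_lit 20, [nat_lit 5, nat_lit 5, nat_lit 5, nat_lit 20], false, nat_lit 160, nat_lit 300, nat_lit 0, nat_lit 312, ⟨nat_lit 1000, nat_lit 0, nat_lit 0, nat_lit 0, nat_lit 0, nat_lit 0, nat_lit 0, nat_lit 0, nat_lit 0, nat_lit 0, nat_lit 0, nat_lit 0, nat_lit 0, nat_lit 0, nat_lit 0, nat_lit 0, false, false⟩,
 nat_lit 0, nat_lit 0, nat_lit 7999, nat_lit 0, nat_lit 6536, nat_lit 5766, nat_lit 0, nat_lit 0, nat_lit 0, nat_lit 948, nat_lit 0, nat_lit 0, nat_lit 0, nat_lit 0, nat_lit 0, nat_lit 0, nat_lit 0, nat_lit 0, [],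
 ⟨p095_k39, nat_lit 0, nat_lit 0, nat_lit 100, nat_lit 0, nat_lit 0, [nat_lit 2032000001, nat_lit 6250000000, nat_lit 9842000000], [], [nat_lit 22886381216, nat_lit 26075607168, nat_lit 32601743488, nat_lit 34599519264, nat_lit 27681591544, nat_lit 30032386176, nat_lit 34853295848, nat_lit 36684636408], nat_lit 0, nat_lit 0, nat_lit 0, nat_lit 0, nat_lit 0, nat_lit 0, [], [nat_lit 61, nat_lit 40, nat_lit 40, nat_lit 80, nat_lit 1, nat_lit 401, nat_lit 175, nat_lit 10]⟩, ⟨p095_k41, nat_lit 0, nat_lit 0, nat_lit 575, nat_lit 0, nat_lit 847218, [nat_lit 3282000000, nat_lit 7968000000, nat_lit 9842000000], [], [nat_lit 29913695954, nat_lit 30079137477, nat_lit 36830921786, nat_lit 37118355441, nat_lit 29682188521, nat_lit 29780152980, nat_lit 33965743431, nat_lit 34143267491], nat_lit 1271250, nat_lit 1271250, nat_lit 1271250, nat_lit 1271250, nat_lit 0, nat_lit 2203500, [nat_lit 780000, nat_lit 1762500, nat_lit 1271250],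 [nat_lit 99, nat_lit 40, nat_lit 40, nat_lit 80, nat_lit 17, nat_lit 428, nat_lit 200, nat_lit 12]⟩,
 zbF0, [⟨nat_lit 4, nat_lit 100, nat_lit 74, nat_lit 90, nat_lit 541950665⟩, ⟨nat_lit 19, nat_lit 91, nat_lit 91, nat_lit 100, nat_lit 5778991⟩, ⟨nat_lit 7, nat_lit 100, nat_lit 92, nat_lit 96, nat_lit 147865032⟩]⟩
noncomputable def p095_l115 : Lf2 := ⟨nat_lit 0, nat_lit 20, [nat_lit 5, nat_lit 5, nat_lit 5, nat_lit 20], false, nat_lit 160, nat_lit 300, nat_lit 0, nat_lit 304, ⟨nat_lit 1000, nat_lit 0, nat_lit 0, nat_lit 0, nat_lit 0, nat_lit 0, nat_lit 0, nat_lit 0, nat_lit 0, nat_lit 0, nat_lit 0, nat_lit 0, nat_lit 0, nat_lit 0, nat_lit 0, nat_lit 0, false, false⟩,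
 nat_lit 0, nat_lit 0, nat_lit 7832, nat_lit 0, nat_lit 6536, nat_lit 5759, nat_lit 0, nat_lit 0, nat_lit 0, nat_lit 811, nat_lit 0, nat_lit 0, nat_lit 0, nat_lit 0, nat_lit 0, nat_lit 0, nat_lit 0, nat_lit 0, [],
 ⟨p095_k39, nat_lit 0, nat_lit 0, nat_lit 100, nat_lit 0, nat_lit 0, [nat_lit 2032000001, nat_lit 6250000000, nat_lit 9842000000], [], [nat_lit 22886381216, nat_lit 26075607168, nat_lit 32601743488, nat_lit 34599519264, nat_lit 27681591544, nat_lit 30032386176, nat_lit 34853295848, nat_lit 36684636408], nat_lit 0, nat_lit 0, nat_lit 0, nat_lit 0, nat_lit 0, nat_lit 0, [], [nat_lit 61, nat_lit 40, nat_lit 40, nat_lit 80, nat_lit 1, nat_lit 401, nat_lit 175, nat_lit 10]⟩, ⟨p095_k42, nat_lit 0, nat_lit 0, nat_lit 580, nat_lit 0, nat_lit 858702, [nat_lit 3282000000, nat_lit 7968000000, nat_lit 9842000000], [], [nat_lit 30103307261, nat_lit 30268683750, nat_lit 37098929647, nat_lit 37386204804, nat_lit 29671520324,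 nat_lit 29771444067, nat_lit 33885016515, nat_lit 34066863412], nat_lit 1271250, nat_lit 1271250, nat_lit 1271250, nat_lit 1271250, nat_lit 0, nat_lit 2147000, [nat_lit 780000, nat_lit 1762500, nat_lit 1271250], [nat_lit 99, nat_lit 40, nat_lit 40, nat_lit 80, nat_lit 17, nat_lit 428, nat_lit 200, nat_lit 12]⟩,
 zbF0, [⟨nat_lit 4, nat_lit 100, nat_lit 74, nat_lit 90, nat_lit 541950665⟩, ⟨nat_lit 19, nat_lit 89, nat_lit 100, nat_lit 95, nat_lit 62545756⟩, ⟨nat_lit 19, nat_lit 89, nat_lit 93, nat_lit 100, nat_lit 83256224⟩]⟩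
noncomputable def b_V_800_700_20_31 : St := ⟨true, nat_lit 0, nat_lit 1, nat_lit 1, nat_lit 120, nat_lit 320, nat_lit 360, nat_lit 280, nat_lit 320, nat_lit 240, nat_lit 400, nat_lit 80, nat_lit 120, nat_lit 160, nat_lit 300, nat_lit 0, nat_lit 336, nat_lit 40, nat_lit 80, nat_lit 0, nat_lit 0, nat_lit 0, nat_lit 0⟩
theorem d_V_800_700_20_31 (h : EB TB.env) : Dead b_V_800_700_20_31 := chkB_sound0 h (T :=
(.spl (nat_lit 1) (nat_lit 300)
(.spl (nat_lit 2) (nat_lit 320)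
(.spl (nat_lit 1) (nat_lit 290)
(.spl (nat_lit 2) (nat_lit 280)
(.leaf p095_l96)
(.trZ (nat_lit 9) (nat_lit 100) (nat_lit 94) (nat_lit 21) (nat_lit 4) (.spl (nat_lit 4) (nat_lit 240)
(.leaf p095_l97)
(.trZ (nat_lit 9) (nat_lit 100) (nat_lit 94) (nat_lit 59) (nat_lit 36) (.leaf p095_l98)))))
(.trX (nat_lit 19) (nat_lit 97) (nat_lit 84) (nat_lit 100) (nat_lit 328) (.spl (nat_lit 4) (nat_lit 240)
(.leaf p095_l99)
(.trZ (nat_lit 9) (nat_lit 100) (nat_lit 100) (nat_lit 40) (nat_lit 16) (.leaf p095_l100)))))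
(.trZ (nat_lit 9) (nat_lit 100) (nat_lit 82) (nat_lit 44) (nat_lit 16) (.spl (nat_lit 0) (nat_lit 340)
(.spl (nat_lit 1) (nat_lit 290)
(.spl (nat_lit 0) (nat_lit 330)
(.leaf p095_l101)
(.trX (nat_lit 13) (nat_lit 85) (nat_lit 27) (nat_lit 100) (nat_lit 396) (.trX (nat_lit 16) (nat_lit 83) (nat_lit 98) (nat_lit 100) (nat_lit 288) (.leaf p095_l102))))
(.trX (nat_lit 19) (nat_lit 97) (nat_lit 84) (nat_lit 100) (nat_lit 328) (.leaf p095_l103)))
(.trX (nat_lit 13) (nat_lit 82) (nat_lit 29) (nat_lit 100) (nat_lit 396) (.trX (nat_lit 16) (nat_lit 77) (nat_lit 100) (nat_lit 99) (nat_lit 276) (.spl (nat_lit 5) (nat_lit 160)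
(.leaf p095_l104)
(.spl (nat_lit 1) (nat_lit 290)
(.trX (nat_lit 13) (nat_lit 80) (nat_lit 34) (nat_lit 100) (nat_lit 392) (.spl (nat_lit 5) (nat_lit 240)
(.leaf p095_l105)
(.spl (nat_lit 6) (nat_lit 60)
(.spl (nat_lit 0) (nat_lit 350)
(.leaf p095_l106)
(.trX (nat_lit 13) (nat_lit 74) (nat_lit 42) (nat_lit 100) (nat_lit 388) (.trX (nat_lit 16) (nat_lit 69) (nat_lit 100) (nat_lit 96) (nat_lit 264) (.leaf p095_l107))))
(.leaf p095_l108))))
(.trX (nat_lit 19) (nat_lit 97) (nat_lit 84) (nat_lit 100) (nat_lit 328) (.spl (nat_lit 0) (nat_lit 350)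
(.leaf p095_l109)
(.trX (nat_lit 13) (nat_lit 76) (nat_lit 37) (nat_lit 100) (nat_lit 392) (.trX (nat_lit 16) (nat_lit 69) (nat_lit 100) (nat_lit 96) (nat_lit 264) (.leaf p095_l110))))))))))))
(.trX (nat_lit 19) (nat_lit 94) (nat_lit 88) (nat_lit 100) (nat_lit 320) (.spl (nat_lit 1) (nat_lit 310)
(.spl (nat_lit 2) (nat_lit 320)
(.leaf p095_l111)
(.trZ (nat_lit 9) (nat_lit 100) (nat_lit 82) (nat_lit 44) (nat_lit 16) (.spl (nat_lit 5) (nat_lit 160)
(.leaf p095_l112)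
(.leaf p095_l113))))
(.trX (nat_lit 19) (nat_lit 91) (nat_lit 91) (nat_lit 100) (nat_lit 312) (.spl (nat_lit 1) (nat_lit 315)
(.leaf p095_l114)
(.trX (nat_lit 19) (nat_lit 89) (nat_lit 93) (nat_lit 100) (nat_lit 304) (.leaf p095_l115)))))))) (by decide +kernel)
noncomputable def p095_l116 : Lf2 := ⟨nat_lit 0, nat_lit 20, [nat_lit 5, nat_lit 5, nat_lit 5, nat_lit 20], true, nat_lit 0, nat_lit 300, nat_lit 0, nat_lit 336, ⟨nat_lit 0, nat_lit 1000, nat_lit 0, nat_lit 7, nat_lit 224, nat_lit 1000, nat_lit 110, nat_lit 0, nat_lit 0, nat_lit 0, nat_lit 0, nat_lit 0, nat_lit 0, nat_lit 0, nat_lit 0, nat_lit 5000000, false, false⟩,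
 nat_lit 0, nat_lit 0, nat_lit 0, nat_lit 0, nat_lit 7081, nat_lit 0, nat_lit 0, nat_lit 0, nat_lit 0, nat_lit 0, nat_lit 0, nat_lit 0, nat_lit 0, nat_lit 0, nat_lit 0, nat_lit 250000, nat_lit 0, nat_lit 0, [(nat_lit 19, [(nat_lit 0, nat_lit 1000)]), (nat_lit 22, [(nat_lit 0, nat_lit 1000)])],
 ⟨p095_k21, nat_lit 0, nat_lit 0, nat_lit 205, nat_lit 0, nat_lit 0, [nat_lit 1568000001, nat_lit 2368400000, nat_lit 3220880000], [], [nat_lit 25962894730, nat_lit 30214440332, nat_lit 28033007568, nat_lit 31336004140, nat_lit 25951021923, nat_lit 28563232828, nat_lit 26364352921, nat_lit 29337933888], nat_lit 0, nat_lit 0, nat_lit 0, nat_lit 0, nat_lit 0, nat_lit 0, [], [nat_lit 27, nat_lit 40, nat_lit 40, nat_lit 80, nat_lit 13, nat_lit 373, nat_lit 150, nat_lit 11]⟩, C1.Rw.none,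
 ⟨nat_lit 3162, nat_lit 4473, ⟨.ofNat (nat_lit 415764), .ofNat (nat_lit 653959), .ofNat (nat_lit 458716), .ofNat (nat_lit 696911), .ofNat (nat_lit 435680), .ofNat (nat_lit 649288), .ofNat (nat_lit 479808), .ofNat (nat_lit 693416)⟩, ⟨.ofNat (nat_lit 0), .ofNat (nat_lit 540545), .ofNat (nat_lit 0), .ofNat (nat_lit 583678), .ofNat (nat_lit 0), .ofNat (nat_lit 519453), .ofNat (nat_lit 0), .ofNat (nat_lit 563762)⟩⟩, [⟨nat_lit 4, nat_lit 100, nat_lit 74, nat_lit 90, nat_lit 39354946⟩]⟩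
noncomputable def p095_l117 : Lf2 := ⟨nat_lit 0, nat_lit 20, [nat_lit 5, nat_lit 5, nat_lit 5, nat_lit 20], false, nat_lit 0, nat_lit 300, nat_lit 0, nat_lit 336, ⟨nat_lit 1000, nat_lit 0, nat_lit 0, nat_lit 0, nat_lit 0, nat_lit 0, nat_lit 0, nat_lit 0, nat_lit 0, nat_lit 0, nat_lit 0, nat_lit 0, nat_lit 0, nat_lit 0, nat_lit 0, nat_lit 0, false, false⟩,
 nat_lit 0, nat_lit 0, nat_lit 0, nat_lit 3382, nat_lit 6727, nat_lit 11831, nat_lit 375, nat_lit 0, nat_lit 0, nat_lit 0, nat_lit 0, nat_lit 0, nat_lit 0, nat_lit 0, nat_lit 0, nat_lit 0, nat_lit 0, nat_lit 0, [],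
 ⟨p095_k21, nat_lit 0, nat_lit 0, nat_lit 215, nat_lit 0, nat_lit 0, [nat_lit 2032000001, nat_lit 4688000000, nat_lit 9842000000], [], [nat_lit 30764645331, nat_lit 33967243255, nat_lit 40357044675, nat_lit 42979622284, nat_lit 29486341882, nat_lit 31482141617, nat_lit 35403042037, nat_lit 36930511281], nat_lit 0, nat_lit 0, nat_lit 0, nat_lit 0, nat_lit 0, nat_lit 0, [], [nat_lit 27, nat_lit 40, nat_lit 40, nat_lit 80, nat_lit 13, nat_lit 401, nat_lit 175, nat_lit 11]⟩, ⟨p095_k22, nat_lit 0, nat_lit 0, nat_lit 242, nat_lit 0, nat_lit 0, [nat_lit 3282000000, nat_lit 6250000000, nat_lit 11872000000], [], [nat_lit 38571435568, nat_lit 42109757328, nat_lit 51885018400, nat_lit 54374179236, nat_lit 33675274909, nat_lit 35337266527, nat_lit 41151852992, nat_lit 42783635723], nat_lit 0, nat_lit 0, nat_lit 0, nat_lit 0, nat_lit 0, nat_lit 0, [], [nat_lit 23, nat_lit 40, nat_lit 40, nat_lit 80, nat_lit 12, nat_lit 538,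 nat_lit 300, nat_lit 13]⟩,
 zbF0, [⟨nat_lit 16, nat_lit 74, nat_lit 100, nat_lit 90, nat_lit 119812131⟩, ⟨nat_lit 19, nat_lit 100, nat_lit 80, nat_lit 100, nat_lit 16906958⟩]⟩
noncomputable def p095_l118 : Lf2 := ⟨nat_lit 0, nat_lit 20, [nat_lit 5, nat_lit 5, nat_lit 5, nat_lit 20], true, nat_lit 0, nat_lit 300, nat_lit 0, nat_lit 336, ⟨nat_lit 0, nat_lit 1000, nat_lit 0, nat_lit 7, nat_lit 224, nat_lit 1000, nat_lit 110, nat_lit 0, nat_lit 0, nat_lit 0, nat_lit 0, nat_lit 0, nat_lit 0, nat_lit 0, nat_lit 0, nat_lit 5000000, false, false⟩,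
 nat_lit 0, nat_lit 0, nat_lit 0, nat_lit 0, nat_lit 7081, nat_lit 0, nat_lit 0, nat_lit 0, nat_lit 0, nat_lit 0, nat_lit 0, nat_lit 0, nat_lit 0, nat_lit 0, nat_lit 0, nat_lit 250000, nat_lit 0, nat_lit 0, [(nat_lit 19, [(nat_lit 0, nat_lit 1000)]), (nat_lit 22, [(nat_lit 0, nat_lit 1000)])],
 ⟨p095_k21, nat_lit 0, nat_lit 0, nat_lit 205, nat_lit 0, nat_lit 0, [nat_lit 1568000001, nat_lit 2368400000, nat_lit 3220880000], [], [nat_lit 25962894730, nat_lit 30214440332, nat_lit 28033007568, nat_lit 31336004140, nat_lit 25951021923, nat_lit 28563232828, nat_lit 26364352921, nat_lit 29337933888], nat_lit 0, nat_lit 0, nat_lit 0, nat_lit 0, nat_lit 0, nat_lit 0, [], [nat_lit 27, nat_lit 40, nat_lit 40, nat_lit 80, nat_lit 13, nat_lit 373, nat_lit 150, nat_lit 11]⟩, C1.Rw.none,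
 ⟨nat_lit 3162, nat_lit 4473, ⟨.ofNat (nat_lit 415764), .ofNat (nat_lit 653959), .ofNat (nat_lit 458716), .ofNat (nat_lit 696911), .ofNat (nat_lit 435680), .ofNat (nat_lit 649288), .ofNat (nat_lit 479808), .ofNat (nat_lit 693416)⟩, ⟨.ofNat (nat_lit 0), .ofNat (nat_lit 540545), .ofNat (nat_lit 0), .ofNat (nat_lit 583678), .ofNat (nat_lit 0), .ofNat (nat_lit 519453), .ofNat (nat_lit 0), .ofNat (nat_lit 563762)⟩⟩, [⟨nat_lit 4, nat_lit 100, nat_lit 74, nat_lit 90, nat_lit 39354946⟩]⟩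
noncomputable def p095_l119 : Lf2 := ⟨nat_lit 0, nat_lit 20, [nat_lit 5, nat_lit 5, nat_lit 5, nat_lit 20], false, nat_lit 0, nat_lit 160, nat_lit 0, nat_lit 336, ⟨nat_lit 341, nat_lit 659, nat_lit 0, nat_lit 7, nat_lit 323, nat_lit 659, nat_lit 65, nat_lit 0, nat_lit 0, nat_lit 0, nat_lit 0, nat_lit 0, nat_lit 0, nat_lit 0, nat_lit 0, nat_lit 5000000, true, true⟩,
 nat_lit 0, nat_lit 0, nat_lit 3763, nat_lit 0, nat_lit 4238, nat_lit 2394, nat_lit 277, nat_lit 0, nat_lit 0, nat_lit 207, nat_lit 0, nat_lit 0, nat_lit 0, nat_lit 0, nat_lit 0, nat_lit 341600, nat_lit 0, nat_lit 0, [(nat_lit 19, [(nat_lit 1, nat_lit 529), (nat_lit 2, nat_lit 130)])],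
 ⟨p095_k21, nat_lit 0, nat_lit 0, nat_lit 212, nat_lit 0, nat_lit 0, [nat_lit 1653351201, nat_lit 2813119734, nat_lit 3915386000], [], [nat_lit 25532364807, nat_lit 26603570587, nat_lit 33130817928, nat_lit 34279043712, nat_lit 23921011040, nat_lit 24793671899, nat_lit 29697576455, nat_lit 30325713623], nat_lit 0, nat_lit 0, nat_lit 0, nat_lit 0, nat_lit 0, nat_lit 0, [], [nat_lit 27, nat_lit 40, nat_lit 40, nat_lit 80, nat_lit 13, nat_lit 373, nat_lit 150, nat_lit 10]⟩, ⟨p095_k22, nat_lit 0, nat_lit 0, nat_lit 601, nat_lit 0, nat_lit 800264, [nat_lit 1119162000, nat_lit 2131250000, nat_lit 4048352000], [], [nat_lit 12412683861, nat_lit 12820301001, nat_lit 13996324641, nat_lit 14359306541, nat_lit 11699663208, nat_lit 11898315654, nat_lit 12494436504, nat_lit 12582266139], nat_lit 1271250, nat_lit 1271250, nat_lit 1271250, nat_lit 1271250, nat_lit 0, nat_lit 2373000, [nat_lit 780000, nat_lit 1435000, nat_lit 1271250],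 [nat_lit 23, nat_lit 40, nat_lit 40, nat_lit 80, nat_lit 12, nat_lit 538, nat_lit 300, nat_lit 13]⟩,
 ⟨nat_lit 3872, nat_lit 4473, ⟨.ofNat (nat_lit 654181), .ofNat (nat_lit 926124), .ofNat (nat_lit 697279), .ofNat (nat_lit 969223), .ofNat (nat_lit 651631), .ofNat (nat_lit 909748), .ofNat (nat_lit 695183), .ofNat (nat_lit 953301)⟩, ⟨.ofNat (nat_lit 0), .ofNat (nat_lit 302621), .ofNat (nat_lit 0), .ofNat (nat_lit 345754), .ofNat (nat_lit 0), .ofNat (nat_lit 304717), .ofNat (nat_lit 0), .ofNat (nat_lit 348304)⟩⟩, [⟨nat_lit 10, nat_lit 100, nat_lit 47, nat_lit 81, nat_lit 100108117⟩]⟩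
noncomputable def p095_l120 : Lf2 := ⟨nat_lit 0, nat_lit 20, [nat_lit 5, nat_lit 5, nat_lit 5, nat_lit 20], false, nat_lit 0, nat_lit 160, nat_lit 0, nat_lit 336, ⟨nat_lit 211, nat_lit 789, nat_lit 0, nat_lit 7, nat_lit 319, nat_lit 789, nat_lit 65, nat_lit 0, nat_lit 0, nat_lit 0, nat_lit 0, nat_lit 0, nat_lit 0, nat_lit 0, nat_lit 0, nat_lit 5000000, true, true⟩,
 nat_lit 0, nat_lit 0, nat_lit 2378, nat_lit 0, nat_lit 3595, nat_lit 1512, nat_lit 124, nat_lit 0, nat_lit 0, nat_lit 121, nat_lit 0, nat_lit 0, nat_lit 0, nat_lit 0, nat_lit 0, nat_lit 315600, nat_lit 0, nat_lit 0, [(nat_lit 22, [(nat_lit 1, nat_lit 789)])],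
 ⟨p095_k24, nat_lit 0, nat_lit 0, nat_lit 196, nat_lit 0, nat_lit 0, [nat_lit 1500529601, nat_lit 2215905200, nat_lit 2781745200], [], [nat_lit 25352245961, nat_lit 26375072521, nat_lit 32404040280, nat_lit 33476219740, nat_lit 24654094791, nat_lit 25529743961, nat_lit 30071148051, nat_lit 30689376861], nat_lit 0, nat_lit 0, nat_lit 0, nat_lit 0, nat_lit 0, nat_lit 0, [], [nat_lit 34, nat_lit 40, nat_lit 40, nat_lit 80, nat_lit 7, nat_lit 249, nat_lit 40, nat_lit 7]⟩, ⟨p095_k22, nat_lit 0, nat_lit 0, nat_lit 718, nat_lit 0, nat_lit 1057406, [nat_lit 692502000, nat_lit 1318750000, nat_lit 2504992000], [], [nat_lit 8100062251, nat_lit 8289825703, nat_lit 8844107339, nat_lit 8989527067, nat_lit 7493296411, nat_lit 7577305124, nat_lit 7835241399, nat_lit 7862514393], nat_lit 1271250, nat_lit 1271250, nat_lit 1271250, nat_lit 1271250, nat_lit 0, nat_lit 2373000, [nat_lit 780000, nat_lit 1435000, nat_lit 1271250], [nat_lit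 23, nat_lit 40, nat_lit 40, nat_lit 80, nat_lit 12, nat_lit 538, nat_lit 300, nat_lit 13]⟩,
 ⟨nat_lit 3162, nat_lit 3873, ⟨.ofNat (nat_lit 651611), .ofNat (nat_lit 909779), .ofNat (nat_lit 695141), .ofNat (nat_lit 953347), .ofNat (nat_lit 649490), .ofNat (nat_lit 893385), .ofNat (nat_lit 693742), .ofNat (nat_lit 937676)⟩, ⟨.ofNat (nat_lit 0), .ofNat (nat_lit 304717), .ofNat (nat_lit 0), .ofNat (nat_lit 348304), .ofNat (nat_lit 0), .ofNat (nat_lit 306116), .ofNat (nat_lit 0), .ofNat (nat_lit 350426)⟩⟩, [⟨nat_lit 13, nat_lit 76, nat_lit 37, nat_lit 100, nat_lit 102202085⟩, ⟨nat_lit 10, nat_lit 100, nat_lit 47, nat_lit 81, nat_lit 59626111⟩]⟩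
noncomputable def p095_l121 : Lf2 := ⟨nat_lit 0, nat_lit 20, [nat_lit 5, nat_lit 5, nat_lit 5, nat_lit 20], true, nat_lit 160, nat_lit 300, nat_lit 0, nat_lit 336, ⟨nat_lit 0, nat_lit 1000, nat_lit 0, nat_lit 7, nat_lit 291, nat_lit 1000, nat_lit 176, nat_lit 0, nat_lit 0, nat_lit 0, nat_lit 0, nat_lit 0, nat_lit 0, nat_lit 0, nat_lit 0, nat_lit 5000000, true, false⟩,
 nat_lit 0, nat_lit 0, nat_lit 0, nat_lit 5314, nat_lit 3982, nat_lit 0, nat_lit 0, nat_lit 0, nat_lit 0, nat_lit 0, nat_lit 0, nat_lit 0, nat_lit 0, nat_lit 0, nat_lit 0, nat_lit 250000, nat_lit 0, nat_lit 0, [(nat_lit 19, [(nat_lit 0, nat_lit 1000)]), (nat_lit 22, [(nat_lit 0, nat_lit 1000)])],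
 ⟨p095_k21, nat_lit 0, nat_lit 0, nat_lit 60, nat_lit 0, nat_lit 0, [nat_lit 1568000001, nat_lit 2368400000, nat_lit 3220880000], [], [nat_lit 20413190976, nat_lit 23020662784, nat_lit 24158086840, nat_lit 26330334472, nat_lit 25050819210, nat_lit 27041837348, nat_lit 27854959020, nat_lit 29778671174], nat_lit 0, nat_lit 0, nat_lit 0, nat_lit 0, nat_lit 0, nat_lit 0, [], [nat_lit 27, nat_lit 40, nat_lit 40, nat_lit 80, nat_lit 13, nat_lit 401, nat_lit 175, nat_lit 10]⟩, C1.Rw.none,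
 ⟨nat_lit 3162, nat_lit 4473, ⟨.ofNat (nat_lit 653959), .ofNat (nat_lit 790054), .ofNat (nat_lit 675435), .ofNat (nat_lit 811546), .ofNat (nat_lit 649288), .ofNat (nat_lit 771333), .ofNat (nat_lit 671352), .ofNat (nat_lit 793414)⟩, ⟨.ofNat (nat_lit 302621), .ofNat (nat_lit 540545), .ofNat (nat_lit 345754), .ofNat (nat_lit 583678), .ofNat (nat_lit 306116), .ofNat (nat_lit 519453), .ofNat (nat_lit 350426), .ofNat (nat_lit 563762)⟩⟩, [⟨nat_lit 16, nat_lit 87, nat_lit 95, nat_lit 100, nat_lit 253168479⟩]⟩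
noncomputable def p095_l122 : Lf2 := ⟨nat_lit 0, nat_lit 20, [nat_lit 5, nat_lit 5, nat_lit 5, nat_lit 20], false, nat_lit 160, nat_lit 300, nat_lit 16, nat_lit 336, ⟨nat_lit 690, nat_lit 310, nat_lit 0, nat_lit 8, nat_lit 343, nat_lit 310, nat_lit 177, nat_lit 0, nat_lit 0, nat_lit 0, nat_lit 0, nat_lit 0, nat_lit 0, nat_lit 0, nat_lit 0, nat_lit 5000000, true, true⟩,
 nat_lit 0, nat_lit 0, nat_lit 7554, nat_lit 0, nat_lit 4649, nat_lit 4807, nat_lit 474, nat_lit 0, nat_lit 0, nat_lit 464, nat_lit 0, nat_lit 0, nat_lit 0, nat_lit 0, nat_lit 0, nat_lit 124000, nat_lit 0, nat_lit 0, [(nat_lit 19, [(nat_lit 1, nat_lit 310)])],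
 ⟨p095_k21, nat_lit 0, nat_lit 0, nat_lit 92, nat_lit 0, nat_lit 0, [nat_lit 1835501334, nat_lit 3866376000, nat_lit 7358900000], [], [nat_lit 26974449710, nat_lit 27905710554, nat_lit 30863820826, nat_lit 31604547058, nat_lit 29758228870, nat_lit 30471753621, nat_lit 32766841744, nat_lit 33450932473], nat_lit 0, nat_lit 0, nat_lit 0, nat_lit 0, nat_lit 0, nat_lit 0, [], [nat_lit 27, nat_lit 40, nat_lit 40, nat_lit 80, nat_lit 13, nat_lit 289, nat_lit 75, nat_lit 7]⟩, ⟨p095_k22, nat_lit 0, nat_lit 0, nat_lit 483, nat_lit 0, nat_lit 534665, [nat_lit 2264580000, nat_lit 4312500000, nat_lit 8191680000], [], [nat_lit 24511832367, nat_lit 24722874879, nat_lit 26886495372, nat_lit 27118072886, nat_lit 23159489149, nat_lit 23264130621, nat_lit 24545330128, nat_lit 24653980794], nat_lit 1271250, nat_lit 1271250, nat_lit 1271250, nat_lit 1271250, nat_lit 88400, nat_lit 2396400, [nat_lit 780000, nat_lit 1435000, nat_lit 1271250],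 [nat_lit 23, nat_lit 40, nat_lit 40, nat_lit 80, nat_lit 12, nat_lit 401, nat_lit 175, nat_lit 10]⟩,
 ⟨nat_lit 3872, nat_lit 4473, ⟨.ofNat (nat_lit 790153), .ofNat (nat_lit 926124), .ofNat (nat_lit 800927), .ofNat (nat_lit 936900), .ofNat (nat_lit 780691), .ofNat (nat_lit 909748), .ofNat (nat_lit 791578), .ofNat (nat_lit 920637)⟩, ⟨.ofNat (nat_lit 302621), .ofNat (nat_lit 540545), .ofNat (nat_lit 345754), .ofNat (nat_lit 583678), .ofNat (nat_lit 304717), .ofNat (nat_lit 530543), .ofNat (nat_lit 348304), .ofNat (nat_lit 574129)⟩⟩, [⟨nat_lit 13, nat_lit 84, nat_lit 29, nat_lit 100, nat_lit 23877109⟩, ⟨nat_lit 4, nat_lit 100, nat_lit 81, nat_lit 92, nat_lit 331117024⟩, ⟨nat_lit 7, nat_lit 91, nat_lit 100, nat_lit 96, nat_lit 98805329⟩]⟩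
noncomputable def p095_l123 : Lf2 := ⟨nat_lit 0, nat_lit 20, [nat_lit 5, nat_lit 5, nat_lit 5, nat_lit 20], false, nat_lit 160, nat_lit 300, nat_lit 16, nat_lit 328, ⟨nat_lit 869, nat_lit 131, nat_lit 0, nat_lit 8, nat_lit 347, nat_lit 131, nat_lit 177, nat_lit 0, nat_lit 0, nat_lit 0, nat_lit 0, nat_lit 0, nat_lit 0, nat_lit 0, nat_lit 0, nat_lit 5000000, true, true⟩,
 nat_lit 0, nat_lit 0, nat_lit 8425, nat_lit 0, nat_lit 4907, nat_lit 5595, nat_lit 570, nat_lit 0, nat_lit 0, nat_lit 653, nat_lit 0, nat_lit 0, nat_lit 0, nat_lit 0, nat_lit 0, nat_lit 131000, nat_lit 0, nat_lit 0, [(nat_lit 19, [(nat_lit 2, nat_lit 131)])],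
 ⟨p095_k21, nat_lit 0, nat_lit 0, nat_lit 92, nat_lit 0, nat_lit 0, [nat_lit 1988333334, nat_lit 4211544267, nat_lit 8139681200], [], [nat_lit 26653770230, nat_lit 27606330522, nat_lit 30636404218, nat_lit 31394016991, nat_lit 29418674110, nat_lit 30154092258, nat_lit 33049323260, nat_lit 33767760085], nat_lit 0, nat_lit 0, nat_lit 0, nat_lit 0, nat_lit 0, nat_lit 0, [], [nat_lit 27, nat_lit 40, nat_lit 40, nat_lit 80, nat_lit 13, nat_lit 289, nat_lit 75, nat_lit 7]⟩, ⟨p095_k25, nat_lit 0, nat_lit 0, nat_lit 497, nat_lit 0, nat_lit 581606, [nat_lit 2852058000, nat_lit 5431250000, nat_lit 10316768000], [], [nat_lit 29661822536, nat_lit 29922332763, nat_lit 32573589724, nat_lit 32881792931, nat_lit 28152353104, nat_lit 28291725691, nat_lit 30302485597, nat_lit 30451487368], nat_lit 1271250, nat_lit 1271250, nat_lit 1271250, nat_lit 1271250, nat_lit 88400, nat_lit 2338700, [nat_lit 780000, nat_lit 1435000, nat_lit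 1271250], [nat_lit 23, nat_lit 40, nat_lit 40, nat_lit 80, nat_lit 12, nat_lit 401, nat_lit 175, nat_lit 10]⟩,
 ⟨nat_lit 3872, nat_lit 4473, ⟨.ofNat (nat_lit 800927), .ofNat (nat_lit 936900), .ofNat (nat_lit 811702), .ofNat (nat_lit 947674), .ofNat (nat_lit 791578), .ofNat (nat_lit 920637), .ofNat (nat_lit 802466), .ofNat (nat_lit 931525)⟩, ⟨.ofNat (nat_lit 302621), .ofNat (nat_lit 540545), .ofNat (nat_lit 345754), .ofNat (nat_lit 583678), .ofNat (nat_lit 304717), .ofNat (nat_lit 530543), .ofNat (nat_lit 348304), .ofNat (nat_lit 574129)⟩⟩, [⟨nat_lit 13, nat_lit 86, nat_lit 24, nat_lit 100, nat_lit 30445971⟩, ⟨nat_lit 4, nat_lit 100, nat_lit 81, nat_lit 92, nat_lit 386531484⟩, ⟨nat_lit 19, nat_lit 100, nat_lit 97, nat_lit 98, nat_lit 129951541⟩]⟩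
noncomputable def p095_l124 : Lf2 := ⟨nat_lit 0, nat_lit 20, [nat_lit 5, nat_lit 5, nat_lit 5, nat_lit 20], false, nat_lit 160, nat_lit 276, nat_lit 16, nat_lit 336, ⟨nat_lit 425, nat_lit 575, nat_lit 0, nat_lit 8, nat_lit 335, nat_lit 575, nat_lit 167, nat_lit 0, nat_lit 0, nat_lit 0, nat_lit 0, nat_lit 0, nat_lit 0, nat_lit 0, nat_lit 0, nat_lit 5000000, true, true⟩,
 nat_lit 0, nat_lit 0, nat_lit 4836, nat_lit 0, nat_lit 3447, nat_lit 3077, nat_lit 317, nat_lit 0, nat_lit 0, nat_lit 277, nat_lit 0, nat_lit 0, nat_lit 0, nat_lit 0, nat_lit 0, nat_lit 230000, nat_lit 0, nat_lit 0, [(nat_lit 22, [(nat_lit 1, nat_lit 575)])],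
 ⟨p095_k24, nat_lit 0, nat_lit 0, nat_lit 96, nat_lit 0, nat_lit 0, [nat_lit 1644680001, nat_lit 2886410001, nat_lit 4188410000], [], [nat_lit 26318068409, nat_lit 27171271521, nat_lit 29347889535, nat_lit 30062510039, nat_lit 28577743312, nat_lit 29283930045, nat_lit 31101640703, nat_lit 31725439577], nat_lit 0, nat_lit 0, nat_lit 0, nat_lit 0, nat_lit 0, nat_lit 0, [], [nat_lit 34, nat_lit 40, nat_lit 40, nat_lit 80, nat_lit 7, nat_lit 289, nat_lit 75, nat_lit 8]⟩, ⟨p095_k22, nat_lit 0, nat_lit 0, nat_lit 573, nat_lit 0, nat_lit 814120, [nat_lit 1394850000, nat_lit 2656250000, nat_lit 5045600000], [], [nat_lit 15535195611, nat_lit 15634259511, nat_lit 16573517861, nat_lit 16656101673, nat_lit 14361284071, nat_lit 14405669327, nat_lit 15029068044, nat_lit 15088537000], nat_lit 1271250, nat_lit 1271250, nat_lit 1271250, nat_lit 1271250, nat_lit 88400, nat_lit 2396400, [nat_lit 780000, nat_lit 1435000, nat_lit 1271250],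 [nat_lit 23, nat_lit 40, nat_lit 40, nat_lit 80, nat_lit 12, nat_lit 401, nat_lit 175, nat_lit 10]⟩,
 ⟨nat_lit 3162, nat_lit 3873, ⟨.ofNat (nat_lit 780717), .ofNat (nat_lit 896875), .ofNat (nat_lit 791601), .ofNat (nat_lit 907772), .ofNat (nat_lit 771459), .ofNat (nat_lit 881194), .ofNat (nat_lit 782524), .ofNat (nat_lit 892272)⟩, ⟨.ofNat (nat_lit 304717), .ofNat (nat_lit 491830), .ofNat (nat_lit 348304), .ofNat (nat_lit 535416), .ofNat (nat_lit 306116), .ofNat (nat_lit 482881), .ofNat (nat_lit 350426), .ofNat (nat_lit 527190)⟩⟩, [⟨nat_lit 13, nat_lit 73, nat_lit 44, nat_lit 100, nat_lit 150784116⟩, ⟨nat_lit 4, nat_lit 100, nat_lit 67, nat_lit 88, nat_lit 371474369⟩, ⟨nat_lit 19, nat_lit 100, nat_lit 80, nat_lit 100, nat_lit 57623004⟩]⟩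
noncomputable def p095_l125 : Lf2 := ⟨nat_lit 0, nat_lit 20, [nat_lit 5, nat_lit 5, nat_lit 5, nat_lit 20], false, nat_lit 160, nat_lit 276, nat_lit 16, nat_lit 328, ⟨nat_lit 463, nat_lit 537, nat_lit 0, nat_lit 8, nat_lit 341, nat_lit 537, nat_lit 167, nat_lit 0, nat_lit 0, nat_lit 0, nat_lit 0, nat_lit 0, nat_lit 0, nat_lit 0, nat_lit 0, nat_lit 5000000, true, true⟩,
 nat_lit 0, nat_lit 0, nat_lit 4676, nat_lit 0, nat_lit 3374, nat_lit 3105, nat_lit 360, nat_lit 0, nat_lit 0, nat_lit 313, nat_lit 0, nat_lit 0, nat_lit 0, nat_lit 0, nat_lit 0, nat_lit 214800, nat_lit 0, nat_lit 0, [(nat_lit 22, [(nat_lit 1, nat_lit 537)])],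
 ⟨p095_k24, nat_lit 0, nat_lit 0, nat_lit 101, nat_lit 0, nat_lit 0, [nat_lit 1670276800, nat_lit 3005471601, nat_lit 4438191600], [], [nat_lit 26308923936, nat_lit 27155652240, nat_lit 29489458170, nat_lit 30192136774, nat_lit 28574281962, nat_lit 29276131575, nat_lit 31228200960, nat_lit 31821175538], nat_lit 0, nat_lit 0, nat_lit 0, nat_lit 0, nat_lit 0, nat_lit 0, [], [nat_lit 34, nat_lit 40, nat_lit 40, nat_lit 80, nat_lit 7, nat_lit 289, nat_lit 75, nat_lit 8]⟩, ⟨p095_k25, nat_lit 0, nat_lit 0, nat_lit 579, nat_lit 0, nat_lit 837166, [nat_lit 1519566000, nat_lit 2893750000, nat_lit 5496736000], [], [nat_lit 16564246294, nat_lit 16671231779, nat_lit 17708324446, nat_lit 17877644937, nat_lit 15427025320, nat_lit 15479736350, nat_lit 16190364046, nat_lit 16249031820], nat_lit 1271250, nat_lit 1271250, nat_lit 1271250, nat_lit 1271250, nat_lit 88400, nat_lit 2338700, [nat_lit 780000, nat_lit 1435000, nat_lit 1271250],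 [nat_lit 23, nat_lit 40, nat_lit 40, nat_lit 80, nat_lit 12, nat_lit 401, nat_lit 175, nat_lit 10]⟩,
 ⟨nat_lit 3162, nat_lit 3873, ⟨.ofNat (nat_lit 791601), .ofNat (nat_lit 914224), .ofNat (nat_lit 802484), .ofNat (nat_lit 925121), .ofNat (nat_lit 782524), .ofNat (nat_lit 898367), .ofNat (nat_lit 793588), .ofNat (nat_lit 909444)⟩, ⟨.ofNat (nat_lit 304717), .ofNat (nat_lit 491830), .ofNat (nat_lit 348304), .ofNat (nat_lit 535416), .ofNat (nat_lit 306116), .ofNat (nat_lit 482881), .ofNat (nat_lit 350426), .ofNat (nat_lit 527190)⟩⟩, [⟨nat_lit 13, nat_lit 75, nat_lit 39, nat_lit 100, nat_lit 125977387⟩, ⟨nat_lit 4, nat_lit 100, nat_lit 67, nat_lit 88, nat_lit 376352756⟩, ⟨nat_lit 19, nat_lit 97, nat_lit 84, nat_lit 100, nat_lit 64371800⟩]⟩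
noncomputable def p095_l126 : Lf2 := ⟨nat_lit 0, nat_lit 20, [nat_lit 5, nat_lit 5, nat_lit 5, nat_lit 20], false, nat_lit 160, nat_lit 300, nat_lit 0, nat_lit 320, ⟨nat_lit 789, nat_lit 211, nat_lit 0, nat_lit 7, nat_lit 325, nat_lit 211, nat_lit 177, nat_lit 0, nat_lit 0, nat_lit 0, nat_lit 0, nat_lit 0, nat_lit 0, nat_lit 0, nat_lit 0, nat_lit 5000000, true, true⟩,
 nat_lit 0, nat_lit 0, nat_lit 6838, nat_lit 0, nat_lit 5829, nat_lit 4733, nat_lit 0, nat_lit 0, nat_lit 0, nat_lit 1025, nat_lit 0, nat_lit 0, nat_lit 0, nat_lit 0, nat_lit 0, nat_lit 52750, nat_lit 0, nat_lit 0, [(nat_lit 19, [(nat_lit 0, nat_lit 211)])],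
 ⟨p095_k39, nat_lit 0, nat_lit 0, nat_lit 95, nat_lit 0, nat_lit 0, [nat_lit 1928694400, nat_lit 5480947200, nat_lit 8414964800], [], [nat_lit 22771475924, nat_lit 24262572788, nat_lit 31936472632, nat_lit 32885263914, nat_lit 27433400491, nat_lit 28542441615, nat_lit 34191239896, nat_lit 34901823370], nat_lit 0, nat_lit 0, nat_lit 0, nat_lit 0, nat_lit 0, nat_lit 0, [], [nat_lit 61, nat_lit 40, nat_lit 40, nat_lit 80, nat_lit 1, nat_lit 401, nat_lit 175, nat_lit 10]⟩, ⟨p095_k40, nat_lit 0, nat_lit 0, nat_lit 477, nat_lit 0, nat_lit 626422, [nat_lit 2589498000, nat_lit 6286752000, nat_lit 7765338000], [], [nat_lit 24075070913, nat_lit 24314794465, nat_lit 29103136718, nat_lit 29565022529, nat_lit 23333631025, nat_lit 23468544523, nat_lit 26939215284, nat_lit 27215341516], nat_lit 1271250, nat_lit 1271250, nat_lit 1271250, nat_lit 1271250, nat_lit 0, nat_lit 2260000, [nat_lit 780000, nat_lit 1762500, nat_lit 1271250],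 [nat_lit 99, nat_lit 40, nat_lit 40, nat_lit 80, nat_lit 17, nat_lit 428, nat_lit 200, nat_lit 12]⟩,
 ⟨nat_lit 3872, nat_lit 4473, ⟨.ofNat (nat_lit 675730), .ofNat (nat_lit 947674), .ofNat (nat_lit 686505), .ofNat (nat_lit 958448), .ofNat (nat_lit 673407), .ofNat (nat_lit 931525), .ofNat (nat_lit 684295), .ofNat (nat_lit 942413)⟩, ⟨.ofNat (nat_lit 302621), .ofNat (nat_lit 540545), .ofNat (nat_lit 345754), .ofNat (nat_lit 583678), .ofNat (nat_lit 304717), .ofNat (nat_lit 530543), .ofNat (nat_lit 348304), .ofNat (nat_lit 574129)⟩⟩, [⟨nat_lit 4, nat_lit 100, nat_lit 81, nat_lit 92, nat_lit 355939204⟩, ⟨nat_lit 7, nat_lit 100, nat_lit 97, nat_lit 98, nat_lit 115292081⟩]⟩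
noncomputable def p095_l127 : Lf2 := ⟨nat_lit 0, nat_lit 20, [nat_lit 5, nat_lit 5, nat_lit 5, nat_lit 20], false, nat_lit 160, nat_lit 276, nat_lit 0, nat_lit 320, ⟨nat_lit 599, nat_lit 401, nat_lit 0, nat_lit 7, nat_lit 321, nat_lit 401, nat_lit 167, nat_lit 0, nat_lit 0, nat_lit 0, nat_lit 0, nat_lit 0, nat_lit 0, nat_lit 0, nat_lit 0, nat_lit 5000000, true, true⟩,
 nat_lit 0, nat_lit 0, nat_lit 5072, nat_lit 0, nat_lit 4194, nat_lit 3511, nat_lit 0, nat_lit 0, nat_lit 0, nat_lit 691, nat_lit 0, nat_lit 0, nat_lit 0, nat_lit 0, nat_lit 0, nat_lit 401000, nat_lit 0, nat_lit 0, [(nat_lit 22, [(nat_lit 2, nat_lit 401)])],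
 ⟨p095_k43, nat_lit 0, nat_lit 0, nat_lit 100, nat_lit 0, nat_lit 0, [nat_lit 1986125601, nat_lit 3105197601, nat_lit 3220801600], [], [nat_lit 23327169534, nat_lit 24505912490, nat_lit 30633666405, nat_lit 31466604857, nat_lit 26396101884, nat_lit 27357019615, nat_lit 32379569339, nat_lit 33060457048], nat_lit 0, nat_lit 0, nat_lit 0, nat_lit 0, nat_lit 0, nat_lit 0, [], [nat_lit 102, nat_lit 40, nat_lit 40, nat_lit 80, nat_lit 2, nat_lit 289, nat_lit 75, nat_lit 8]⟩, ⟨p095_k40, nat_lit 0, nat_lit 0, nat_lit 581, nat_lit 0, nat_lit 860326, [nat_lit 1965918000, nat_lit 4772832000, nat_lit 5895358000], [], [nat_lit 19753910973, nat_lit 19913847070, nat_lit 22224853349, nat_lit 22364247164, nat_lit 19189426989, nat_lit 19279227596, nat_lit 20538379421, nat_lit 20588452022], nat_lit 1271250, nat_lit 1271250, nat_lit 1271250, nat_lit 1271250, nat_lit 0, nat_lit 2260000, [nat_lit 780000, nat_lit 1762500, nat_lit 1271250],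 [nat_lit 99, nat_lit 40, nat_lit 40, nat_lit 80, nat_lit 17, nat_lit 428, nat_lit 200, nat_lit 12]⟩,
 ⟨nat_lit 3162, nat_lit 3873, ⟨.ofNat (nat_lit 673376), .ofNat (nat_lit 931573), .ofNat (nat_lit 684258), .ofNat (nat_lit 942462), .ofNat (nat_lit 671616), .ofNat (nat_lit 915540), .ofNat (nat_lit 682679), .ofNat (nat_lit 926609)⟩, ⟨.ofNat (nat_lit 304717), .ofNat (nat_lit 491830), .ofNat (nat_lit 348304), .ofNat (nat_lit 535416), .ofNat (nat_lit 306116), .ofNat (nat_lit 482881), .ofNat (nat_lit 350426), .ofNat (nat_lit 527190)⟩⟩, [⟨nat_lit 4, nat_lit 100, nat_lit 67, nat_lit 88, nat_lit 400687049⟩, ⟨nat_lit 19, nat_lit 94, nat_lit 88, nat_lit 100, nat_lit 88461250⟩]⟩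
noncomputable def p095_l128 : Lf2 := ⟨nat_lit 0, nat_lit 20, [nat_lit 5, nat_lit 5, nat_lit 5, nat_lit 20], false, nat_lit 160, nat_lit 300, nat_lit 0, nat_lit 312, ⟨nat_lit 634, nat_lit 366, nat_lit 0, nat_lit 7, nat_lit 328, nat_lit 366, nat_lit 176, nat_lit 0, nat_lit 0, nat_lit 0, nat_lit 0, nat_lit 0, nat_lit 0, nat_lit 0, nat_lit 0, nat_lit 5000000, true, true⟩,
 nat_lit 0, nat_lit 0, nat_lit 4933, nat_lit 0, nat_lit 5342, nat_lit 3556, nat_lit 0, nat_lit 0, nat_lit 0, nat_lit 549, nat_lit 0, nat_lit 0, nat_lit 0, nat_lit 0, nat_lit 0, nat_lit 91500, nat_lit 0, nat_lit 0, [(nat_lit 19, [(nat_lit 0, nat_lit 366)]), (nat_lit 22, [(nat_lit 0, nat_lit 366)])],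
 ⟨p095_k39, nat_lit 0, nat_lit 0, nat_lit 100, nat_lit 0, nat_lit 0, [nat_lit 1862176000, nat_lit 4916003200, nat_lit 7374996000], [], [nat_lit 22657125752, nat_lit 25496710296, nat_lit 31443016336, nat_lit 33271583208, nat_lit 27227239618, nat_lit 29353906122, nat_lit 33764981808, nat_lit 35148156912], nat_lit 0, nat_lit 0, nat_lit 0, nat_lit 0, nat_lit 0, nat_lit 0, [], [nat_lit 61, nat_lit 40, nat_lit 40, nat_lit 80, nat_lit 1, nat_lit 401, nat_lit 175, nat_lit 10]⟩, ⟨p095_k41, nat_lit 0, nat_lit 0, nat_lit 590, nat_lit 0, nat_lit 883303, [nat_lit 2080788000, nat_lit 5051712000, nat_lit 6239828000], [], [nat_lit 19819643782, nat_lit 20027572148, nat_lit 23076537192, nat_lit 23436490688, nat_lit 19766239380, nat_lit 19890086692, nat_lit 21570149894, nat_lit 21645828434], nat_lit 1271250, nat_lit 1271250, nat_lit 1271250, nat_lit 1271250, nat_lit 0, nat_lit 2203500, [nat_lit 780000, nat_lit 1762500, nat_lit 1271250],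 [nat_lit 99, nat_lit 40, nat_lit 40, nat_lit 80, nat_lit 17, nat_lit 428, nat_lit 200, nat_lit 12]⟩,
 ⟨nat_lit 3162, nat_lit 4473, ⟨.ofNat (nat_lit 686173), .ofNat (nat_lit 958341), .ofNat (nat_lit 696911), .ofNat (nat_lit 969090), .ofNat (nat_lit 682385), .ofNat (nat_lit 926454), .ofNat (nat_lit 693416), .ofNat (nat_lit 937496)⟩, ⟨.ofNat (nat_lit 302621), .ofNat (nat_lit 540545), .ofNat (nat_lit 345754), .ofNat (nat_lit 583678), .ofNat (nat_lit 306116), .ofNat (nat_lit 519453), .ofNat (nat_lit 350426), .ofNat (nat_lit 563762)⟩⟩, [⟨nat_lit 4, nat_lit 100, nat_lit 74, nat_lit 90, nat_lit 365630888⟩, ⟨nat_lit 19, nat_lit 91, nat_lit 91, nat_lit 100, nat_lit 96237188⟩]⟩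
noncomputable def b_V_800_700_20_32 : St := ⟨true, nat_lit 0, nat_lit 2, nat_lit 2, nat_lit 120, nat_lit 320, nat_lit 360, nat_lit 280, nat_lit 320, nat_lit 100, nat_lit 400, nat_lit 80, nat_lit 120, nat_lit 0, nat_lit 300, nat_lit 0, nat_lit 336, nat_lit 40, nat_lit 80, nat_lit 0, nat_lit 0, nat_lit 0, nat_lit 0⟩
theorem d_V_800_700_20_32 (h : EB TB.env) : Dead b_V_800_700_20_32 := chkB_sound0 h (T :=
(.st (nat_lit 1)
(.spl (nat_lit 2) (nat_lit 240)
(.leaf p095_l116)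
(.leaf p095_l117))
(.spl (nat_lit 2) (nat_lit 240)
(.leaf p095_l118)
(.spl (nat_lit 4) (nat_lit 160)
(.spl (nat_lit 0) (nat_lit 340)
(.leaf p095_l119)
(.leaf p095_l120))
(.spl (nat_lit 1) (nat_lit 300)
(.spl (nat_lit 2) (nat_lit 320)
(.leaf p095_l121)
(.trZ (nat_lit 9) (nat_lit 100) (nat_lit 82) (nat_lit 44) (nat_lit 16) (.spl (nat_lit 0) (nat_lit 340)
(.spl (nat_lit 1) (nat_lit 290)
(.leaf p095_l122)
(.trX (nat_lit 19) (nat_lit 97) (nat_lit 84) (nat_lit 100) (nat_lit 328) (.leaf p095_l123)))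
(.trX (nat_lit 13) (nat_lit 82) (nat_lit 29) (nat_lit 100) (nat_lit 396) (.trX (nat_lit 16) (nat_lit 77) (nat_lit 100) (nat_lit 99) (nat_lit 276) (.spl (nat_lit 1) (nat_lit 290)
(.trX (nat_lit 13) (nat_lit 80) (nat_lit 34) (nat_lit 100) (nat_lit 392) (.leaf p095_l124))
(.trX (nat_lit 19) (nat_lit 97) (nat_lit 84) (nat_lit 100) (nat_lit 328) (.leaf p095_l125))))))))
(.trX (nat_lit 19) (nat_lit 94) (nat_lit 88) (nat_lit 100) (nat_lit 320) (.spl (nat_lit 1) (nat_lit 310)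
(.spl (nat_lit 0) (nat_lit 340)
(.leaf p095_l126)
(.trX (nat_lit 16) (nat_lit 77) (nat_lit 100) (nat_lit 99) (nat_lit 276) (.leaf p095_l127)))
(.trX (nat_lit 19) (nat_lit 91) (nat_lit 91) (nat_lit 100) (nat_lit 312) (.leaf p095_l128))))))))) (by decide +kernel)
noncomputable def p095_l129 : Lf2 := ⟨nat_lit 0, nat_lit 20, [nat_lit 5, nat_lit 5, nat_lit 5, nat_lit 20], false, nat_lit 0, nat_lit 160, nat_lit 0, nat_lit 160, ⟨nat_lit 1000, nat_lit 0, nat_lit 0, nat_lit 0, nat_lit 0, nat_lit 0, nat_lit 0, nat_lit 0, nat_lit 0, nat_lit 0, nat_lit 0, nat_lit 0, nat_lit 0, nat_lit 0, nat_lit 0, nat_lit 0, false, false⟩,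
 nat_lit 0, nat_lit 9837, nat_lit 0, nat_lit 0, nat_lit 7377, nat_lit 6969, nat_lit 779, nat_lit 0, nat_lit 0, nat_lit 1307, nat_lit 0, nat_lit 0, nat_lit 0, nat_lit 0, nat_lit 0, nat_lit 0, nat_lit 0, nat_lit 0, [],
 ⟨p095_k21, nat_lit 0, nat_lit 0, nat_lit 597, nat_lit 0, nat_lit 794224, [nat_lit 2032000001, nat_lit 4688000000, nat_lit 9842000000], [], [nat_lit 26022897649, nat_lit 29564775524, nat_lit 27103282428, nat_lit 31708574116, nat_lit 22655495496, nat_lit 24883483838, nat_lit 31441253293, nat_lit 25530740960], nat_lit 1271250, nat_lit 1271250, nat_lit 631250, nat_lit 1751250, nat_lit 0, nat_lit 1100001, [nat_lit 490000, nat_lit 1100000, nat_lit 2127500], [nat_lit 27, nat_lit 40, nat_lit 40, nat_lit 80, nat_lit 13, nat_lit 317, nat_lit 100, nat_lit 9]⟩, ⟨p095_k22, nat_lit 0, nat_lit 0, nat_lit 230, nat_lit 0, nat_lit 0, [nat_lit 3282000000, nat_lit 6250000000, nat_lit 11872000000], [], [nat_lit 22012502895,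 nat_lit 25363608405, nat_lit 24104679957, nat_lit 27172676576, nat_lit 16941085551, nat_lit 19776179875, nat_lit 19472415920, nat_lit 22485750564], nat_lit 0, nat_lit 0, nat_lit 0, nat_lit 0, nat_lit 0, nat_lit 0, [], [nat_lit 23, nat_lit 40, nat_lit 40, nat_lit 80, nat_lit 12, nat_lit 428, nat_lit 200, nat_lit 11]⟩,
 zbF0, [⟨nat_lit 0, nat_lit 90, nat_lit 74, nat_lit 100, nat_lit 496193113⟩]⟩
noncomputable def p095_l130 : Lf2 := ⟨nat_lit 0, nat_lit 20, [nat_lit 5, nat_lit 5, nat_lit 5, nat_lit 20], false, nat_lit 160, nat_lit 300, nat_lit 0, nat_lit 160, ⟨nat_lit 1000, nat_lit 0, nat_lit 0, nat_lit 0, nat_lit 0, nat_lit 0, nat_lit 0, nat_lit 0, nat_lit 0, nat_lit 0, nat_lit 0, nat_lit 0, nat_lit 0, nat_lit 0, nat_lit 0, nat_lit 0, false, false⟩,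
 nat_lit 0, nat_lit 9391, nat_lit 0, nat_lit 0, nat_lit 7043, nat_lit 6638, nat_lit 667, nat_lit 0, nat_lit 0, nat_lit 1279, nat_lit 0, nat_lit 0, nat_lit 0, nat_lit 0, nat_lit 0, nat_lit 0, nat_lit 0, nat_lit 0, [],
 ⟨p095_k21, nat_lit 0, nat_lit 0, nat_lit 476, nat_lit 0, nat_lit 794224, [nat_lit 2032000001, nat_lit 4688000000, nat_lit 9842000000], [], [nat_lit 23573861141, nat_lit 25635198669, nat_lit 24313523367, nat_lit 25932270171, nat_lit 26408830027, nat_lit 28521923358, nat_lit 29265723688, nat_lit 29308634064], nat_lit 1271250, nat_lit 1271250, nat_lit 631250, nat_lit 1751250, nat_lit 1100001, nat_lit 2298750, [nat_lit 490000, nat_lit 1100000, nat_lit 2127500], [nat_lit 27, nat_lit 40, nat_lit 40, nat_lit 80, nat_lit 13, nat_lit 373, nat_lit 150, nat_lit 10]⟩, ⟨p095_k22, nat_lit 0, nat_lit 0, nat_lit 230, nat_lit 0, nat_lit 0, [nat_lit 3282000000, nat_lit 6250000000, nat_lit 11872000000], [], [nat_lit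 22084317165, nat_lit 25340495185, nat_lit 24241701889, nat_lit 27114981952, nat_lit 17396653277, nat_lit 20155685125, nat_lit 19862439840, nat_lit 22792006328], nat_lit 0, nat_lit 0, nat_lit 0, nat_lit 0, nat_lit 0, nat_lit 0, [], [nat_lit 23, nat_lit 40, nat_lit 40, nat_lit 80, nat_lit 12, nat_lit 428, nat_lit 200, nat_lit 11]⟩,
 zbF0, [⟨nat_lit 0, nat_lit 90, nat_lit 74, nat_lit 100, nat_lit 496862005⟩, ⟨nat_lit 4, nat_lit 100, nat_lit 74, nat_lit 90, nat_lit 481792356⟩]⟩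
noncomputable def p095_l131 : Lf2 := ⟨nat_lit 0, nat_lit 20, [nat_lit 5, nat_lit 5, nat_lit 5, nat_lit 20], false, nat_lit 0, nat_lit 160, nat_lit 160, nat_lit 336, ⟨nat_lit 1000, nat_lit 0, nat_lit 0, nat_lit 0, nat_lit 0, nat_lit 0, nat_lit 0, nat_lit 0, nat_lit 0, nat_lit 0, nat_lit 0, nat_lit 0, nat_lit 0, nat_lit 0, nat_lit 0, nat_lit 0, false, false⟩,
 nat_lit 0, nat_lit 9837, nat_lit 0, nat_lit 0, nat_lit 7377, nat_lit 4717, nat_lit 756, nat_lit 0, nat_lit 0, nat_lit 0, nat_lit 0, nat_lit 0, nat_lit 0, nat_lit 0, nat_lit 0, nat_lit 0, nat_lit 0, nat_lit 0, [],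
 ⟨p095_k21, nat_lit 0, nat_lit 0, nat_lit 597, nat_lit 0, nat_lit 794224, [nat_lit 2032000001, nat_lit 4688000000, nat_lit 9842000000], [], [nat_lit 26252825774, nat_lit 29570540144, nat_lit 27214099156, nat_lit 31708574116, nat_lit 22770625988, nat_lit 24883483838, nat_lit 31671181418, nat_lit 25530740960], nat_lit 1271250, nat_lit 1271250, nat_lit 631250, nat_lit 1751250, nat_lit 0, nat_lit 1100001, [nat_lit 490000, nat_lit 1100000, nat_lit 2127500], [nat_lit 27, nat_lit 40, nat_lit 40, nat_lit 80, nat_lit 13, nat_lit 317, nat_lit 100, nat_lit 9]⟩, ⟨p095_k22, nat_lit 0, nat_lit 0, nat_lit 79, nat_lit 0, nat_lit 0, [nat_lit 3282000000, nat_lit 6250000000, nat_lit 11872000000], [], [nat_lit 12774573318, nat_lit 16368209908, nat_lit 17332414768, nat_lit 20125403920, nat_lit 22933141477, nat_lit 25272232081, nat_lit 25202875200, nat_lit 27058186973], nat_lit 0, nat_lit 0, nat_lit 0, nat_lit 0, nat_lit 0, nat_lit 0,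 [], [nat_lit 23, nat_lit 40, nat_lit 40, nat_lit 80, nat_lit 12, nat_lit 456, nat_lit 225, nat_lit 11]⟩,
 zbF0, [⟨nat_lit 0, nat_lit 90, nat_lit 74, nat_lit 100, nat_lit 442476551⟩, ⟨nat_lit 7, nat_lit 100, nat_lit 100, nat_lit 100, nat_lit 451996267⟩]⟩
noncomputable def p095_l132 : Lf2 := ⟨nat_lit 0, nat_lit 20, [nat_lit 5, nat_lit 5, nat_lit 5, nat_lit 20], false, nat_lit 160, nat_lit 300, nat_lit 160, nat_lit 336, ⟨nat_lit 1000, nat_lit 0, nat_lit 0, nat_lit 0, nat_lit 0, nat_lit 0, nat_lit 0, nat_lit 0, nat_lit 0, nat_lit 0, nat_lit 0, nat_lit 0, nat_lit 0, nat_lit 0, nat_lit 0, nat_lit 0, false, false⟩,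
 nat_lit 0, nat_lit 9274, nat_lit 0, nat_lit 1924, nat_lit 6955, nat_lit 4717, nat_lit 747, nat_lit 0, nat_lit 0, nat_lit 0, nat_lit 0, nat_lit 0, nat_lit 0, nat_lit 0, nat_lit 0, nat_lit 0, nat_lit 0, nat_lit 0, [],
 ⟨p095_k21, nat_lit 0, nat_lit 0, nat_lit 383, nat_lit 0, nat_lit 616676, [nat_lit 2032000001, nat_lit 4688000000, nat_lit 9842000000], [], [nat_lit 21672124935, nat_lit 22903599730, nat_lit 22824683955, nat_lit 23791772435, nat_lit 25211200810, nat_lit 26441688000, nat_lit 28538135096, nat_lit 27697004108], nat_lit 1271250, nat_lit 1271250, nat_lit 631250, nat_lit 1751250, nat_lit 1100001, nat_lit 2298750, [nat_lit 490000, nat_lit 1100000, nat_lit 2127500], [nat_lit 27, nat_lit 40, nat_lit 40, nat_lit 80, nat_lit 13, nat_lit 373, nat_lit 150, nat_lit 10]⟩, ⟨p095_k22, nat_lit 0, nat_lit 0, nat_lit 79, nat_lit 0, nat_lit 0, [nat_lit 3282000000, nat_lit 6250000000, nat_lit 11872000000], [], [nat_lit 12774573318,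 nat_lit 16368209908, nat_lit 17332414768, nat_lit 20125403920, nat_lit 22933141477, nat_lit 25272232081, nat_lit 25202875200, nat_lit 27058186973], nat_lit 0, nat_lit 0, nat_lit 0, nat_lit 0, nat_lit 0, nat_lit 0, [], [nat_lit 23, nat_lit 40, nat_lit 40, nat_lit 80, nat_lit 12, nat_lit 456, nat_lit 225, nat_lit 11]⟩,
 zbF0, [⟨nat_lit 0, nat_lit 92, nat_lit 81, nat_lit 100, nat_lit 430773037⟩, ⟨nat_lit 16, nat_lit 87, nat_lit 95, nat_lit 100, nat_lit 397725869⟩, ⟨nat_lit 19, nat_lit 100, nat_lit 80, nat_lit 100, nat_lit 451996267⟩]⟩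
noncomputable def p095_l133 : Lf2 := ⟨nat_lit 0, nat_lit 20, [nat_lit 5, nat_lit 5, nat_lit 5, nat_lit 20], false, nat_lit 160, nat_lit 276, nat_lit 160, nat_lit 336, ⟨nat_lit 1000, nat_lit 0, nat_lit 0, nat_lit 0, nat_lit 0, nat_lit 0, nat_lit 0, nat_lit 0, nat_lit 0, nat_lit 0, nat_lit 0, nat_lit 0, nat_lit 0, nat_lit 0, nat_lit 0, nat_lit 0, false, false⟩,
 nat_lit 0, nat_lit 8378, nat_lit 0, nat_lit 0, nat_lit 6781, nat_lit 5004, nat_lit 856, nat_lit 0, nat_lit 0, nat_lit 0, nat_lit 0, nat_lit 0, nat_lit 0, nat_lit 0, nat_lit 0, nat_lit 0, nat_lit 0, nat_lit 0, [],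
 ⟨p095_k44, nat_lit 0, nat_lit 0, nat_lit 376, nat_lit 0, nat_lit 714187, [nat_lit 2032000001, nat_lit 7968000000], [], [nat_lit 22507449004, nat_lit 23833480642, nat_lit 23840013060, nat_lit 24914877512, nat_lit 25175162922, nat_lit 26219172943, nat_lit 26282766517, nat_lit 27907251572], nat_lit 1271250, nat_lit 1271250, nat_lit 810650, nat_lit 1764750, nat_lit 1100001, nat_lit 2093250, [nat_lit 490000, nat_lit 1740000], [nat_lit 110, nat_lit 40, nat_lit 40, nat_lit 80, nat_lit 109, nat_lit 373, nat_lit 150, nat_lit 11]⟩, ⟨p095_k45, nat_lit 0, nat_lit 0, nat_lit 49, nat_lit 0, nat_lit 0, [nat_lit 3282000000, nat_lit 11872000000], [], [nat_lit 12661016367, nat_lit 16260021357, nat_lit 17004862816, nat_lit 19886551040, nat_lit 22780946536, nat_lit 25349662429, nat_lit 25111812855, nat_lit 27196987431], nat_lit 0, nat_lit 0, nat_lit 0, nat_lit 0, nat_lit 0, nat_lit 0, [], [nat_lit 135, nat_lit 40, nat_lit 40, nat_lit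 80, nat_lit 134, nat_lit 456, nat_lit 225, nat_lit 11]⟩,
 zbF0, [⟨nat_lit 0, nat_lit 99, nat_lit 77, nat_lit 100, nat_lit 412139504⟩, ⟨nat_lit 16, nat_lit 77, nat_lit 100, nat_lit 99, nat_lit 415329076⟩, ⟨nat_lit 19, nat_lit 100, nat_lit 80, nat_lit 100, nat_lit 436091677⟩]⟩
noncomputable def p095_l134 : Lf2 := ⟨nat_lit 0, nat_lit 20, [nat_lit 5, nat_lit 5, nat_lit 5, nat_lit 20], false, nat_lit 0, nat_lit 300, nat_lit 0, nat_lit 160, ⟨nat_lit 1000, nat_lit 0, nat_lit 0, nat_lit 0, nat_lit 0, nat_lit 0, nat_lit 0, nat_lit 0, nat_lit 0, nat_lit 0, nat_lit 0, nat_lit 0, nat_lit 0, nat_lit 0, nat_lit 0, nat_lit 0, false, false⟩,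
 nat_lit 0, nat_lit 7963, nat_lit 0, nat_lit 0, nat_lit 5972, nat_lit 6614, nat_lit 639, nat_lit 0, nat_lit 0, nat_lit 1012, nat_lit 0, nat_lit 0, nat_lit 0, nat_lit 0, nat_lit 0, nat_lit 0, nat_lit 0, nat_lit 0, [],
 ⟨p095_k21, nat_lit 0, nat_lit 0, nat_lit 463, nat_lit 0, nat_lit 616676, [nat_lit 2032000001, nat_lit 4688000000, nat_lit 9842000000], [], [nat_lit 31284315547, nat_lit 32185094779, nat_lit 37982126832, nat_lit 39335429328, nat_lit 30512938683, nat_lit 31084269665, nat_lit 34769729068, nat_lit 35243527256], nat_lit 1271250, nat_lit 1271250, nat_lit 1271250, nat_lit 1271250, nat_lit 0, nat_lit 2118750, [nat_lit 490000, nat_lit 1100000, nat_lit 2127500], [nat_lit 27, nat_lit 40, nat_lit 40, nat_lit 80, nat_lit 13, nat_lit 401, nat_lit 175, nat_lit 11]⟩, ⟨p095_k22, nat_lit 0, nat_lit 0, nat_lit 242, nat_lit 0, nat_lit 0, [nat_lit 3282000000, nat_lit 6250000000, nat_lit 11872000000], [], [nat_lit 28725123892,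 nat_lit 30695882732, nat_lit 37362081296, nat_lit 39778286184, nat_lit 24514487764, nat_lit 26169126364, nat_lit 32451396592, nat_lit 33808471248], nat_lit 0, nat_lit 0, nat_lit 0, nat_lit 0, nat_lit 0, nat_lit 0, [], [nat_lit 23, nat_lit 40, nat_lit 40, nat_lit 80, nat_lit 12, nat_lit 456, nat_lit 225, nat_lit 11]⟩,
 zbF0, [⟨nat_lit 16, nat_lit 81, nat_lit 100, nat_lit 92, nat_lit 150818102⟩]⟩
noncomputable def p095_l135 : Lf2 := ⟨nat_lit 0, nat_lit 20, [nat_lit 5, nat_lit 5, nat_lit 5, nat_lit 20], false, nat_lit 0, nat_lit 276, nat_lit 0, nat_lit 160, ⟨nat_lit 1000, nat_lit 0, nat_lit 0, nat_lit 0, nat_lit 0, nat_lit 0, nat_lit 0, nat_lit 0, nat_lit 0, nat_lit 0, nat_lit 0, nat_lit 0, nat_lit 0, nat_lit 0, nat_lit 0, nat_lit 0, false, false⟩,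
 nat_lit 0, nat_lit 6274, nat_lit 0, nat_lit 0, nat_lit 5078, nat_lit 6764, nat_lit 625, nat_lit 0, nat_lit 0, nat_lit 774, nat_lit 0, nat_lit 0, nat_lit 0, nat_lit 0, nat_lit 0, nat_lit 0, nat_lit 0, nat_lit 0, [],
 ⟨p095_k24, nat_lit 0, nat_lit 0, nat_lit 454, nat_lit 0, nat_lit 714187, [nat_lit 2032000001, nat_lit 4688000000, nat_lit 7968000000], [], [nat_lit 28297029829, nat_lit 29098308701, nat_lit 36728503872, nat_lit 37976074776, nat_lit 28139165094, nat_lit 28690478973, nat_lit 33306201918, nat_lit 34186153591], nat_lit 1271250, nat_lit 1271250, nat_lit 1271250, nat_lit 1271250, nat_lit 0, nat_lit 1949250, [nat_lit 490000, nat_lit 1100000, nat_lit 1785000], [nat_lit 34, nat_lit 40, nat_lit 40, nat_lit 80, nat_lit 7, nat_lit 289, nat_lit 75, nat_lit 9]⟩, ⟨p095_k22, nat_lit 0, nat_lit 0, nat_lit 242, nat_lit 0, nat_lit 0, [nat_lit 3282000000, nat_lit 6250000000, nat_lit 11872000000], [], [nat_lit 30885416842,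 nat_lit 32876434682, nat_lit 38754405850, nat_lit 40202889018, nat_lit 26519027914, nat_lit 28188651514, nat_lit 32933737882, nat_lit 33911128698], nat_lit 0, nat_lit 0, nat_lit 0, nat_lit 0, nat_lit 0, nat_lit 0, [], [nat_lit 23, nat_lit 40, nat_lit 40, nat_lit 80, nat_lit 12, nat_lit 456, nat_lit 225, nat_lit 11]⟩,
 zbF0, [⟨nat_lit 16, nat_lit 67, nat_lit 100, nat_lit 88, nat_lit 179929397⟩]⟩
noncomputable def p095_l136 : Lf2 := ⟨nat_lit 0, nat_lit 20, [nat_lit 5, nat_lit 5, nat_lit 5, nat_lit 20], false, nat_lit 0, nat_lit 300, nat_lit 160, nat_lit 336, ⟨nat_lit 1000, nat_lit 0, nat_lit 0, nat_lit 0, nat_lit 0, nat_lit 0, nat_lit 0, nat_lit 0, nat_lit 0, nat_lit 0, nat_lit 0, nat_lit 0, nat_lit 0, nat_lit 0, nat_lit 0, nat_lit 0, false, false⟩,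
 nat_lit 0, nat_lit 8065, nat_lit 0, nat_lit 0, nat_lit 6048, nat_lit 7496, nat_lit 638, nat_lit 0, nat_lit 0, nat_lit 0, nat_lit 0, nat_lit 0, nat_lit 0, nat_lit 0, nat_lit 0, nat_lit 0, nat_lit 0, nat_lit 0, [],
 ⟨p095_k21, nat_lit 0, nat_lit 0, nat_lit 463, nat_lit 0, nat_lit 616676, [nat_lit 2032000001, nat_lit 4688000000, nat_lit 9842000000], [], [nat_lit 31086184598, nat_lit 31992090486, nat_lit 38194756288, nat_lit 39557047152, nat_lit 30238704222, nat_lit 30811965110, nat_lit 34509852312, nat_lit 35169331004], nat_lit 1271250, nat_lit 1271250, nat_lit 1271250, nat_lit 1271250, nat_lit 0, nat_lit 2118750, [nat_lit 490000, nat_lit 1100000, nat_lit 2127500], [nat_lit 27, nat_lit 40, nat_lit 40, nat_lit 80, nat_lit 13, nat_lit 401, nat_lit 175, nat_lit 11]⟩, ⟨p095_k22, nat_lit 0, nat_lit 0, nat_lit 90, nat_lit 0, nat_lit 0, [nat_lit 3282000000, nat_lit 6250000000, nat_lit 11872000000], [], [nat_lit 18851441280,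 nat_lit 21998146976, nat_lit 31029229248, nat_lit 33323729024, nat_lit 26959696148, nat_lit 28936174957, nat_lit 36012384500, nat_lit 37413912839], nat_lit 0, nat_lit 0, nat_lit 0, nat_lit 0, nat_lit 0, nat_lit 0, [], [nat_lit 23, nat_lit 40, nat_lit 40, nat_lit 80, nat_lit 12, nat_lit 538, nat_lit 300, nat_lit 13]⟩,
 zbF0, [⟨nat_lit 16, nat_lit 81, nat_lit 100, nat_lit 92, nat_lit 144219746⟩, ⟨nat_lit 7, nat_lit 100, nat_lit 100, nat_lit 100, nat_lit 351703538⟩]⟩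
noncomputable def p095_l137 : Lf2 := ⟨nat_lit 0, nat_lit 20, [nat_lit 5, nat_lit 5, nat_lit 5, nat_lit 20], false, nat_lit 0, nat_lit 276, nat_lit 160, nat_lit 336, ⟨nat_lit 1000, nat_lit 0, nat_lit 0, nat_lit 0, nat_lit 0, nat_lit 0, nat_lit 0, nat_lit 0, nat_lit 0, nat_lit 0, nat_lit 0, nat_lit 0, nat_lit 0, nat_lit 0, nat_lit 0, nat_lit 0, false, false⟩,
 nat_lit 0, nat_lit 5756, nat_lit 0, nat_lit 0, nat_lit 4659, nat_lit 6882, nat_lit 907, nat_lit 0, nat_lit 0, nat_lit 0, nat_lit 0, nat_lit 0, nat_lit 0, nat_lit 0, nat_lit 0, nat_lit 0, nat_lit 0, nat_lit 0, [],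
 ⟨p095_k24, nat_lit 0, nat_lit 0, nat_lit 454, nat_lit 0, nat_lit 714187, [nat_lit 2032000001, nat_lit 4688000000, nat_lit 7968000000], [], [nat_lit 26436027795, nat_lit 27351084881, nat_lit 35506689816, nat_lit 36704706428, nat_lit 27537896332, nat_lit 28172069914, nat_lit 32798103621, nat_lit 33650376195], nat_lit 1271250, nat_lit 1271250, nat_lit 1271250, nat_lit 1271250, nat_lit 0, nat_lit 1949250, [nat_lit 490000, nat_lit 1100000, nat_lit 1785000], [nat_lit 34, nat_lit 40, nat_lit 40, nat_lit 80, nat_lit 7, nat_lit 289, nat_lit 75, nat_lit 9]⟩, ⟨p095_k22, nat_lit 0, nat_lit 0, nat_lit 90, nat_lit 0, nat_lit 0, [nat_lit 3282000000, nat_lit 6250000000, nat_lit 11872000000], [], [nat_lit 19574929760, nat_lit 22566246792, nat_lit 30795560448, nat_lit 32550953456, nat_lit 27406342343, nat_lit 29307730426, nat_lit 35284441327, nat_lit 36653356933], nat_lit 0, nat_lit 0, nat_lit 0, nat_lit 0, nat_lit 0, nat_lit 0,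 [], [nat_lit 23, nat_lit 40, nat_lit 40, nat_lit 80, nat_lit 12, nat_lit 538, nat_lit 300, nat_lit 13]⟩,
 zbF0, [⟨nat_lit 4, nat_lit 100, nat_lit 67, nat_lit 88, nat_lit 202560590⟩, ⟨nat_lit 7, nat_lit 100, nat_lit 100, nat_lit 100, nat_lit 344982501⟩]⟩
noncomputable def b_V_800_700_20_33 : St := ⟨true, nat_lit 1, nat_lit 0, nat_lit 1, nat_lit 120, nat_lit 320, nat_lit 360, nat_lit 280, nat_lit 320, nat_lit 100, nat_lit 400, nat_lit 80, nat_lit 120, nat_lit 0, nat_lit 300, nat_lit 0, nat_lit 336, nat_lit 40, nat_lit 80, nat_lit 0, nat_lit 0, nat_lit 0, nat_lit 0⟩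
theorem d_V_800_700_20_33 (h : EB TB.env) : Dead b_V_800_700_20_33 := chkB_sound0 h (T :=
(.spl (nat_lit 2) (nat_lit 240)
(.spl (nat_lit 5) (nat_lit 160)
(.spl (nat_lit 4) (nat_lit 160)
(.leaf p095_l129)
(.leaf p095_l130))
(.spl (nat_lit 4) (nat_lit 160)
(.leaf p095_l131)
(.spl (nat_lit 0) (nat_lit 340)
(.leaf p095_l132)
(.trZ (nat_lit 0) (nat_lit 99) (nat_lit 77) (nat_lit 100) (nat_lit 124) (.trX (nat_lit 16) (nat_lit 77) (nat_lit 100) (nat_lit 99) (nat_lit 276) (.leaf p095_l133))))))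
(.spl (nat_lit 5) (nat_lit 160)
(.spl (nat_lit 0) (nat_lit 340)
(.leaf p095_l134)
(.trX (nat_lit 16) (nat_lit 77) (nat_lit 100) (nat_lit 99) (nat_lit 276) (.leaf p095_l135)))
(.spl (nat_lit 0) (nat_lit 340)
(.leaf p095_l136)
(.trX (nat_lit 16) (nat_lit 77) (nat_lit 100) (nat_lit 99) (nat_lit 276) (.leaf p095_l137)))))) (by decide +kernel)
noncomputable def p095_l138 : Lf2 := ⟨nat_lit 0, nat_lit 20, [nat_lit 5, nat_lit 5, nat_lit 5, nat_lit 20], false, nat_lit 0, nat_lit 160, nat_lit 0, nat_lit 160, ⟨nat_lit 1000, nat_lit 0, nat_lit 0, nat_lit 0, nat_lit 0, nat_lit 0, nat_lit 0, nat_lit 0, nat_lit 0, nat_lit 0, nat_lit 0, nat_lit 0, nat_lit 0, nat_lit 0, nat_lit 0, nat_lit 0, false, false⟩,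
 nat_lit 11700, nat_lit 0, nat_lit 0, nat_lit 0, nat_lit 6787, nat_lit 7445, nat_lit 841, nat_lit 0, nat_lit 0, nat_lit 430, nat_lit 0, nat_lit 0, nat_lit 0, nat_lit 0, nat_lit 0, nat_lit 0, nat_lit 0, nat_lit 0, [],
 ⟨p095_k21, nat_lit 0, nat_lit 0, nat_lit 452, nat_lit 0, nat_lit 466709, [nat_lit 2032000001, nat_lit 4688000000, nat_lit 9842000000], [], [nat_lit 24578224319, nat_lit 28269718444, nat_lit 26159864689, nat_lit 30546092396, nat_lit 21151338109, nat_lit 23583681586, nat_lit 31682429323, nat_lit 25839148099], nat_lit 1271250, nat_lit 1271250, nat_lit 631250, nat_lit 1751250, nat_lit 0, nat_lit 1100001, [nat_lit 490000, nat_lit 1100000, nat_lit 2127500], [nat_lit 27, nat_lit 40, nat_lit 40, nat_lit 80, nat_lit 13, nat_lit 317, nat_lit 100, nat_lit 9]⟩, ⟨p095_k22, nat_lit 0, nat_lit 0, nat_lit 552, nat_lit 0, nat_lit 576160, [nat_lit 3282000000, nat_lit 6250000000, nat_lit 11872000000], [], [nat_lit 37254546390,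 nat_lit 36367200200, nat_lit 35113295810, nat_lit 36715265350, nat_lit 29941554330, nat_lit 31679676300, nat_lit 37202396380, nat_lit 31774499110], nat_lit 1271250, nat_lit 1271250, nat_lit 631250, nat_lit 1751250, nat_lit 0, nat_lit 1100001, [nat_lit 780000, nat_lit 1435000, nat_lit 1271250], [nat_lit 23, nat_lit 40, nat_lit 40, nat_lit 80, nat_lit 12, nat_lit 428, nat_lit 200, nat_lit 11]⟩,
 zbF0, [⟨nat_lit 0, nat_lit 90, nat_lit 74, nat_lit 100, nat_lit 217577231⟩]⟩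
noncomputable def p095_l139 : Lf2 := ⟨nat_lit 0, nat_lit 20, [nat_lit 5, nat_lit 5, nat_lit 5, nat_lit 20], false, nat_lit 0, nat_lit 80, nat_lit 160, nat_lit 336, ⟨nat_lit 1000, nat_lit 0, nat_lit 0, nat_lit 0, nat_lit 0, nat_lit 0, nat_lit 0, nat_lit 0, nat_lit 0, nat_lit 0, nat_lit 0, nat_lit 0, nat_lit 0, nat_lit 0, nat_lit 0, nat_lit 0, false, false⟩,
 nat_lit 12434, nat_lit 0, nat_lit 0, nat_lit 3498, nat_lit 6771, nat_lit 7912, nat_lit 928, nat_lit 0, nat_lit 0, nat_lit 863, nat_lit 0, nat_lit 0, nat_lit 0, nat_lit 0, nat_lit 0, nat_lit 0, nat_lit 0, nat_lit 0, [],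
 ⟨p095_k21, nat_lit 0, nat_lit 0, nat_lit 379, nat_lit 0, nat_lit 362377, [nat_lit 2032000001, nat_lit 4688000000, nat_lit 9842000000], [], [nat_lit 24039471251, nat_lit 25188015934, nat_lit 25989534584, nat_lit 28032716774, nat_lit 20515649722, nat_lit 21875581192, nat_lit 23753658682, nat_lit 24292813284], nat_lit 1271250, nat_lit 1271250, nat_lit 631250, nat_lit 1751250, nat_lit 0, nat_lit 490000, [nat_lit 490000, nat_lit 1100000, nat_lit 2127500], [nat_lit 27, nat_lit 40, nat_lit 40, nat_lit 80, nat_lit 13, nat_lit 317, nat_lit 100, nat_lit 9]⟩, ⟨p095_k22, nat_lit 0, nat_lit 0, nat_lit 363, nat_lit 0, nat_lit 447359, [nat_lit 3282000000, nat_lit 6250000000, nat_lit 11872000000], [], [nat_lit 26133488432, nat_lit 24868058449, nat_lit 23537616737, nat_lit 25321925537, nat_lit 28184634680, nat_lit 30077086050, nat_lit 27799862242, nat_lit 29229432078], nat_lit 1271250, nat_lit 1271250, nat_lit 631250, nat_lit 1751250,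 nat_lit 1271250, nat_lit 1271250, [nat_lit 780000, nat_lit 1435000, nat_lit 1271250], [nat_lit 23, nat_lit 40, nat_lit 40, nat_lit 80, nat_lit 12, nat_lit 456, nat_lit 225, nat_lit 11]⟩,
 zbF0, [⟨nat_lit 0, nat_lit 92, nat_lit 81, nat_lit 100, nat_lit 563066856⟩, ⟨nat_lit 3, nat_lit 100, nat_lit 78, nat_lit 39, nat_lit 102615116⟩, ⟨nat_lit 19, nat_lit 100, nat_lit 80, nat_lit 100, nat_lit 286565199⟩]⟩
noncomputable def p095_l140 : Lf2 := ⟨nat_lit 0, nat_lit 20, [nat_lit 5, nat_lit 5, nat_lit 5, nat_lit 20], false, nat_lit 0, nat_lit 80, nat_lit 160, nat_lit 336, ⟨nat_lit 1000, nat_lit 0, nat_lit 0, nat_lit 0, nat_lit 0, nat_lit 0, nat_lit 0, nat_lit 0, nat_lit 0, nat_lit 0, nat_lit 0, nat_lit 0, nat_lit 0, nat_lit 0, nat_lit 0, nat_lit 0, false, false⟩,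
 nat_lit 12956, nat_lit 0, nat_lit 0, nat_lit 0, nat_lit 5240, nat_lit 8244, nat_lit 722, nat_lit 0, nat_lit 0, nat_lit 947, nat_lit 0, nat_lit 0, nat_lit 0, nat_lit 0, nat_lit 0, nat_lit 0, nat_lit 0, nat_lit 0, [],
 ⟨p095_k24, nat_lit 0, nat_lit 0, nat_lit 366, nat_lit 0, nat_lit 424070, [nat_lit 2032000001, nat_lit 4688000000, nat_lit 7968000000], [], [nat_lit 23197520381, nat_lit 24534971317, nat_lit 25394200560, nat_lit 27498025920, nat_lit 21128133349, nat_lit 22297520006, nat_lit 23022297461, nat_lit 24040162820], nat_lit 1271250, nat_lit 1271250, nat_lit 810650, nat_lit 1764750, nat_lit 0, nat_lit 490000, [nat_lit 490000, nat_lit 1100000, nat_lit 1785000], [nat_lit 34, nat_lit 40, nat_lit 40, nat_lit 80, nat_lit 7, nat_lit 317, nat_lit 100, nat_lit 10]⟩, ⟨p095_k22, nat_lit 0, nat_lit 0, nat_lit 398, nat_lit 0, nat_lit 576160, [nat_lit 3282000000, nat_lit 6250000000, nat_lit 11872000000], [], [nat_lit 20976199122,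 nat_lit 23131395516, nat_lit 22232223008, nat_lit 23934109869, nat_lit 26661080991, nat_lit 28525938482, nat_lit 26790822718, nat_lit 29457398055], nat_lit 1271250, nat_lit 1271250, nat_lit 810650, nat_lit 1764750, nat_lit 1271250, nat_lit 1271250, [nat_lit 780000, nat_lit 1435000, nat_lit 1271250], [nat_lit 23, nat_lit 40, nat_lit 40, nat_lit 80, nat_lit 12, nat_lit 456, nat_lit 225, nat_lit 11]⟩,
 zbF0, [⟨nat_lit 0, nat_lit 88, nat_lit 67, nat_lit 100, nat_lit 600619235⟩, ⟨nat_lit 3, nat_lit 100, nat_lit 76, nat_lit 37, nat_lit 15132416⟩, ⟨nat_lit 19, nat_lit 100, nat_lit 80, nat_lit 100, nat_lit 95468064⟩, ⟨nat_lit 7, nat_lit 100, nat_lit 100, nat_lit 100, nat_lit 262454889⟩]⟩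
noncomputable def p095_l141 : Lf2 := ⟨nat_lit 0, nat_lit 20, [nat_lit 5, nat_lit 5, nat_lit 5, nat_lit 20], false, nat_lit 80, nat_lit 160, nat_lit 160, nat_lit 336, ⟨nat_lit 1000, nat_lit 0, nat_lit 0, nat_lit 0, nat_lit 0, nat_lit 0, nat_lit 0, nat_lit 0, nat_lit 0, nat_lit 0, nat_lit 0, nat_lit 0, nat_lit 0, nat_lit 0, nat_lit 0, nat_lit 0, false, false⟩,
 nat_lit 14208, nat_lit 0, nat_lit 0, nat_lit 0, nat_lit 10655, nat_lit 9041, nat_lit 729, nat_lit 0, nat_lit 0, nat_lit 716, nat_lit 0, nat_lit 0, nat_lit 0, nat_lit 0, nat_lit 0, nat_lit 0, nat_lit 0, nat_lit 0, [],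
 ⟨p095_k21, nat_lit 0, nat_lit 0, nat_lit 309, nat_lit 0, nat_lit 362377, [nat_lit 2032000001, nat_lit 4688000000, nat_lit 9842000000], [], [nat_lit 19434511495, nat_lit 22098536905, nat_lit 21844420220, nat_lit 25101907410, nat_lit 18075550995, nat_lit 20430935680, nat_lit 20974614146, nat_lit 23366444100], nat_lit 1271250, nat_lit 1271250, nat_lit 631250, nat_lit 1751250, nat_lit 490000, nat_lit 1100001, [nat_lit 490000, nat_lit 1100000, nat_lit 2127500], [nat_lit 27, nat_lit 40, nat_lit 40, nat_lit 80, nat_lit 13, nat_lit 317, nat_lit 100, nat_lit 9]⟩, ⟨p095_k22, nat_lit 0, nat_lit 0, nat_lit 363, nat_lit 0, nat_lit 447359, [nat_lit 3282000000, nat_lit 6250000000, nat_lit 11872000000], [], [nat_lit 26072055026, nat_lit 24749601250, nat_lit 22922043136, nat_lit 25424656908, nat_lit 29362310902, nat_lit 31375816583, nat_lit 28517909689, nat_lit 30014436451], nat_lit 1271250, nat_lit 1271250, nat_lit 631250, nat_lit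 1751250, nat_lit 1271250, nat_lit 1271250, [nat_lit 780000, nat_lit 1435000, nat_lit 1271250], [nat_lit 23, nat_lit 40, nat_lit 40, nat_lit 80, nat_lit 12, nat_lit 456, nat_lit 225, nat_lit 11]⟩,
 zbF0, [⟨nat_lit 0, nat_lit 92, nat_lit 81, nat_lit 100, nat_lit 572568387⟩, ⟨nat_lit 19, nat_lit 100, nat_lit 80, nat_lit 100, nat_lit 321856615⟩]⟩
noncomputable def p095_l142 : Lf2 := ⟨nat_lit 0, nat_lit 20, [nat_lit 5, nat_lit 5, nat_lit 5, nat_lit 20], false, nat_lit 80, nat_lit 160, nat_lit 160, nat_lit 336, ⟨nat_lit 817, nat_lit 0, nat_lit 183, nat_lit 7, nat_lit 233, nat_lit 183, nat_lit 103, nat_lit 183, nat_lit 101400, nat_lit 293, nat_lit 119032, nat_lit 200, nat_lit 46017767, nat_lit 0, nat_lit 0, nat_lit 4173948, false, false⟩,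
 nat_lit 10213, nat_lit 0, nat_lit 0, nat_lit 0, nat_lit 8108, nat_lit 6499, nat_lit 290, nat_lit 0, nat_lit 0, nat_lit 802, nat_lit 0, nat_lit 0, nat_lit 0, nat_lit 0, nat_lit 0, nat_lit 33855, nat_lit 0, nat_lit 0, [(nat_lit 22, [(nat_lit 3, nat_lit 183)])],
 ⟨p095_k24, nat_lit 0, nat_lit 0, nat_lit 278, nat_lit 0, nat_lit 424070, [nat_lit 2605595200, nat_lit 3785517200, nat_lit 6200586000], [], [nat_lit 20341920127, nat_lit 22770658225, nat_lit 23300103576, nat_lit 25964908960, nat_lit 19799781920, nat_lit 21897172509, nat_lit 22413305760, nat_lit 24778580880], nat_lit 1271250, nat_lit 1271250, nat_lit 810650, nat_lit 1764750, nat_lit 490000, nat_lit 1100001, [nat_lit 490000, nat_lit 1100000, nat_lit 1785000], [nat_lit 34, nat_lit 40, nat_lit 40, nat_lit 80, nat_lit 7, nat_lit 317, nat_lit 100, nat_lit 10]⟩, ⟨p095_k22, nat_lit 0, nat_lit 0, nat_lit 398, nat_lit 0, nat_lit 576160, [nat_lit 2681394000, nat_lit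 5106250000, nat_lit 9699424000], [], [nat_lit 17297752208, nat_lit 18994789325, nat_lit 18492525972, nat_lit 19697209010, nat_lit 21590866041, nat_lit 23210940892, nat_lit 22295823507, nat_lit 23901804233], nat_lit 1271250, nat_lit 1271250, nat_lit 810650, nat_lit 1764750, nat_lit 1271250, nat_lit 1271250, [nat_lit 780000, nat_lit 1435000, nat_lit 1271250], [nat_lit 23, nat_lit 40, nat_lit 40, nat_lit 80, nat_lit 12, nat_lit 456, nat_lit 225, nat_lit 11]⟩,
 ⟨nat_lit 3162, nat_lit 3873, ⟨.ofNat (nat_lit 464406), .ofNat (nat_lit 651611), .ofNat (nat_lit 507934), .ofNat (nat_lit 695141), .ofNat (nat_lit 472632), .ofNat (nat_lit 649490), .ofNat (nat_lit 516884), .ofNat (nat_lit 693742)⟩, ⟨.ofNat (nat_lit 175674), .ofNat (nat_lit 304717), .ofNat (nat_lit 200000), .ofNat (nat_lit 348304), .ofNat (nat_lit 184209), .ofNat (nat_lit 306116), .ofNat (nat_lit 200000), .ofNat (nat_lit 350426)⟩⟩, [⟨nat_lit 0, nat_lit 88, nat_lit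 67, nat_lit 100, nat_lit 419464790⟩, ⟨nat_lit 7, nat_lit 100, nat_lit 100, nat_lit 100, nat_lit 294644097⟩]⟩
noncomputable def b_V_800_700_20_34 : St := ⟨true, nat_lit 1, nat_lit 1, nat_lit 1, nat_lit 120, nat_lit 320, nat_lit 360, nat_lit 280, nat_lit 320, nat_lit 100, nat_lit 240, nat_lit 80, nat_lit 120, nat_lit 0, nat_lit 160, nat_lit 0, nat_lit 336, nat_lit 40, nat_lit 80, nat_lit 0, nat_lit 0, nat_lit 0, nat_lit 0⟩
theorem d_V_800_700_20_34 (h : EB TB.env) : Dead b_V_800_700_20_34 := chkB_sound0 h (T :=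
(.spl (nat_lit 5) (nat_lit 160)
(.leaf p095_l138)
(.spl (nat_lit 4) (nat_lit 80)
(.spl (nat_lit 0) (nat_lit 340)
(.leaf p095_l139)
(.trZ (nat_lit 0) (nat_lit 99) (nat_lit 77) (nat_lit 100) (nat_lit 124) (.leaf p095_l140)))
(.spl (nat_lit 0) (nat_lit 340)
(.leaf p095_l141)
(.trZ (nat_lit 0) (nat_lit 99) (nat_lit 77) (nat_lit 100) (nat_lit 124) (.leaf p095_l142)))))) (by decide +kernel)
noncomputable def p095_l143 : Lf2 := ⟨nat_lit 0, nat_lit 20, [nat_lit 5, nat_lit 5, nat_lit 5, nat_lit 20], false, nat_lit 160, nat_lit 300, nat_lit 0, nat_lit 160, ⟨nat_lit 1000, nat_lit 0, nat_lit 0, nat_lit 0, nat_lit 0, nat_lit 0, nat_lit 0, nat_lit 0, nat_lit 0, nat_lit 0, nat_lit 0, nat_lit 0, nat_lit 0, nat_lit 0, nat_lit 0, nat_lit 0, false, false⟩,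
 nat_lit 13451, nat_lit 0, nat_lit 0, nat_lit 2161, nat_lit 10087, nat_lit 8559, nat_lit 460, nat_lit 0, nat_lit 0, nat_lit 472, nat_lit 0, nat_lit 0, nat_lit 0, nat_lit 0, nat_lit 0, nat_lit 0, nat_lit 0, nat_lit 0, [],
 ⟨p095_k21, nat_lit 0, nat_lit 0, nat_lit 322, nat_lit 0, nat_lit 466709, [nat_lit 2032000001, nat_lit 4688000000, nat_lit 9842000000], [], [nat_lit 21085656498, nat_lit 25615771196, nat_lit 20383719072, nat_lit 24501788412, nat_lit 26923350658, nat_lit 31924774450, nat_lit 25708430362, nat_lit 30359209676], nat_lit 1271250, nat_lit 1271250, nat_lit 631250, nat_lit 1100001, nat_lit 1100001, nat_lit 2298750, [nat_lit 490000, nat_lit 1100000, nat_lit 2127500], [nat_lit 27, nat_lit 40, nat_lit 40, nat_lit 80, nat_lit 13, nat_lit 345, nat_lit 125, nat_lit 9]⟩, ⟨p095_k22, nat_lit 0, nat_lit 0, nat_lit 552, nat_lit 0, nat_lit 576160, [nat_lit 3282000000, nat_lit 6250000000, nat_lit 11872000000], [], [nat_lit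 32034282574, nat_lit 34772761080, nat_lit 31431022700, nat_lit 33874806572, nat_lit 26656099296, nat_lit 28507789110, nat_lit 26746085632, nat_lit 27693783848], nat_lit 1271250, nat_lit 1271250, nat_lit 631250, nat_lit 1100001, nat_lit 0, nat_lit 1100001, [nat_lit 780000, nat_lit 1435000, nat_lit 1271250], [nat_lit 23, nat_lit 40, nat_lit 40, nat_lit 80, nat_lit 12, nat_lit 401, nat_lit 175, nat_lit 10]⟩,
 zbF0, [⟨nat_lit 0, nat_lit 90, nat_lit 74, nat_lit 100, nat_lit 1022110443⟩, ⟨nat_lit 0, nat_lit 100, nat_lit 87, nat_lit 95, nat_lit 21441905⟩, ⟨nat_lit 16, nat_lit 74, nat_lit 100, nat_lit 90, nat_lit 229801630⟩, ⟨nat_lit 16, nat_lit 87, nat_lit 95, nat_lit 100, nat_lit 295228081⟩]⟩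
noncomputable def p095_l144 : Lf2 := ⟨nat_lit 0, nat_lit 20, [nat_lit 5, nat_lit 5, nat_lit 5, nat_lit 20], false, nat_lit 160, nat_lit 300, nat_lit 0, nat_lit 160, ⟨nat_lit 1000, nat_lit 0, nat_lit 0, nat_lit 0, nat_lit 0, nat_lit 0, nat_lit 0, nat_lit 0, nat_lit 0, nat_lit 0, nat_lit 0, nat_lit 0, nat_lit 0, nat_lit 0, nat_lit 0, nat_lit 0, false, false⟩,
 nat_lit 11828, nat_lit 0, nat_lit 0, nat_lit 0, nat_lit 7651, nat_lit 7526, nat_lit 664, nat_lit 0, nat_lit 0, nat_lit 791, nat_lit 0, nat_lit 0, nat_lit 0, nat_lit 0, nat_lit 0, nat_lit 0, nat_lit 0, nat_lit 0, [],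
 ⟨p095_k21, nat_lit 0, nat_lit 0, nat_lit 303, nat_lit 0, nat_lit 466709, [nat_lit 2032000001, nat_lit 4688000000, nat_lit 9842000000], [], [nat_lit 20287218008, nat_lit 23634200376, nat_lit 22179079196, nat_lit 25094944816, nat_lit 24976268204, nat_lit 28321378748, nat_lit 26507577375, nat_lit 29777431248], nat_lit 1271250, nat_lit 1271250, nat_lit 1100001, nat_lit 1785000, nat_lit 1100001, nat_lit 2298750, [nat_lit 490000, nat_lit 1100000, nat_lit 2127500], [nat_lit 27, nat_lit 40, nat_lit 40, nat_lit 80, nat_lit 13, nat_lit 373, nat_lit 150, nat_lit 10]⟩, ⟨p095_k22, nat_lit 0, nat_lit 0, nat_lit 528, nat_lit 0, nat_lit 576160, [nat_lit 3282000000, nat_lit 6250000000, nat_lit 11872000000], [], [nat_lit 33041867464, nat_lit 32204274041, nat_lit 31495317833, nat_lit 33104186305, nat_lit 25846226993, nat_lit 27430217897, nat_lit 29104779248, nat_lit 28083195073], nat_lit 1271250, nat_lit 1271250, nat_lit 1100001,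 nat_lit 1785000, nat_lit 0, nat_lit 1100001, [nat_lit 780000, nat_lit 1435000, nat_lit 1271250], [nat_lit 23, nat_lit 40, nat_lit 40, nat_lit 80, nat_lit 12, nat_lit 428, nat_lit 200, nat_lit 11]⟩,
 zbF0, [⟨nat_lit 0, nat_lit 90, nat_lit 74, nat_lit 100, nat_lit 91983545⟩, ⟨nat_lit 4, nat_lit 100, nat_lit 74, nat_lit 90, nat_lit 580558132⟩, ⟨nat_lit 9, nat_lit 99, nat_lit 100, nat_lit 15, nat_lit 2740919⟩]⟩
noncomputable def b_V_800_700_20_35 : St := ⟨true, nat_lit 1, nat_lit 1, nat_lit 1, nat_lit 120, nat_lit 320, nat_lit 360, nat_lit 280, nat_lit 320, nat_lit 100, nat_lit 240, nat_lit 80, nat_lit 120, nat_lit 160, nat_lit 300, nat_lit 0, nat_lit 160, nat_lit 40, nat_lit 80, nat_lit 0, nat_lit 0, nat_lit 0, nat_lit 0⟩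
theorem d_V_800_700_20_35 (h : EB TB.env) : Dead b_V_800_700_20_35 := chkB_sound0 h (T :=
(.spl (nat_lit 2) (nat_lit 160)
(.leaf p095_l143)
(.leaf p095_l144))) (by decide +kernel)

end B2
end Pool.Agent.Lib.MP_6947cd_al
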