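import Pool.Agent.Lib.MP_6947cd_al.ZB.Pre

/-!
Problem MP_6947cd_al (Chollet).  Case B, second entry in [2/5, 17/20]: certificates of the tree, part P096 (generated).
-/

set_option autoImplicit false
set_option linter.all false

namespace Pool.Agent.Lib.MP_6947cd_al
namespace B2

open Ent Fr B1 PkA

noncomputable def p096_k0 : C1.Kn := ⟨[nat_lit 40, nat_lit 80, nat_lit 120], [nat_lit 0, nat_lit 0, nat_lit 2151], [(nat_lit 0, nat_lit 0, nat_lit 0), (nat_lit 0, nat_lit 0, nat_lit 0), (nat_lit 1000, nat_lit 815, nat_lit 753)], (nat_lit 81, nat_lit 100, nat_lit 72)⟩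
noncomputable def p096_k1 : C1.Kn := ⟨[nat_lit 60, nat_lit 100, nat_lit 140], [nat_lit 0, nat_lit 0, nat_lit 2047], [(nat_lit 0, nat_lit 0, nat_lit 0), (nat_lit 0, nat_lit 0, nat_lit 0), (nat_lit 1000, nat_lit 993, nat_lit 781)], (nat_lit 99, nat_lit 100, nat_lit 77)⟩
noncomputable def p096_k2 : C1.Kn := ⟨[nat_lit 40, nat_lit 80, nat_lit 120], [nat_lit 0, nat_lit 192, nat_lit 2304], [(nat_lit 0, nat_lit 0, nat_lit 0), (nat_lit 1000, nat_lit 955, nat_lit 75), (nat_lit 1000, nat_lit 794, nat_lit 771)], (nat_lit 79, nat_lit 100, nat_lit 72)⟩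
noncomputable def p096_k3 : C1.Kn := ⟨[nat_lit 40, nat_lit 80, nat_lit 120], [nat_lit 0, nat_lit 395, nat_lit 2466], [(nat_lit 0, nat_lit 0, nat_lit 0), (nat_lit 1000, nat_lit 908, nat_lit 154), (nat_lit 1000, nat_lit 773, nat_lit 792)], (nat_lit 76, nat_lit 100, nat_lit 72)⟩
noncomputable def p096_k4 : C1.Kn := ⟨[nat_lit 40, nat_lit 80, nat_lit 120], [nat_lit 0, nat_lit 0, nat_lit 2151], [(nat_lit 0, nat_lit 0, nat_lit 0), (nat_lit 0, nat_lit 0, nat_lit 0), (nat_lit 1000, nat_lit 815, nat_lit 753)], (nat_lit 80, nat_lit 100, nat_lit 65)⟩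
noncomputable def p096_k5 : C1.Kn := ⟨[nat_lit 60, nat_lit 100, nat_lit 140], [nat_lit 0, nat_lit 0, nat_lit 2047], [(nat_lit 0, nat_lit 0, nat_lit 0), (nat_lit 0, nat_lit 0, nat_lit 0), (nat_lit 1000, nat_lit 993, nat_lit 781)], (nat_lit 96, nat_lit 100, nat_lit 68)⟩
noncomputable def p096_k6 : C1.Kn := ⟨[nat_lit 40, nat_lit 80, nat_lit 120], [nat_lit 0, nat_lit 192, nat_lit 2304], [(nat_lit 0, nat_lit 0, nat_lit 0), (nat_lit 1000, nat_lit 955, nat_lit 75), (nat_lit 1000, nat_lit 794, nat_lit 771)], (nat_lit 78, nat_lit 100, nat_lit 65)⟩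
noncomputable def p096_k7 : C1.Kn := ⟨[nat_lit 40, nat_lit 80, nat_lit 120], [nat_lit 0, nat_lit 315, nat_lit 2400], [(nat_lit 0, nat_lit 0, nat_lit 0), (nat_lit 1000, nat_lit 926, nat_lit 123), (nat_lit 1000, nat_lit 782, nat_lit 784)], (nat_lit 77, nat_lit 100, nat_lit 65)⟩
noncomputable def p096_k8 : C1.Kn := ⟨[nat_lit 40, nat_lit 80, nat_lit 100], [nat_lit 0, nat_lit 395, nat_lit 1536], [(nat_lit 0, nat_lit 0, nat_lit 0), (nat_lit 1000, nat_lit 908, nat_lit 154), (nat_lit 1000, nat_lit 760, nat_lit 642)], (nat_lit 76, nat_lit 100, nat_lit 65)⟩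
noncomputable def p096_k9 : C1.Kn := ⟨[nat_lit 40, nat_lit 80, nat_lit 120], [nat_lit 0, nat_lit 593, nat_lit 2634], [(nat_lit 0, nat_lit 0, nat_lit 0), (nat_lit 1000, nat_lit 861, nat_lit 231), (nat_lit 1000, nat_lit 748, nat_lit 797)], (nat_lit 74, nat_lit 100, nat_lit 72)⟩
noncomputable def p096_k10 : C1.Kn := ⟨[nat_lit 40, nat_lit 100, nat_lit 120], [nat_lit 0, nat_lit 592, nat_lit 2466], [(nat_lit 0, nat_lit 0, nat_lit 0), (nat_lit 1000, nat_lit 908, nat_lit 154), (nat_lit 1000, nat_lit 773, nat_lit 792)], (nat_lit 76, nat_lit 100, nat_lit 72)⟩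
noncomputable def p096_k11 : C1.Kn := ⟨[nat_lit 60, nat_lit 120, nat_lit 140], [nat_lit 0, nat_lit 0, nat_lit 2047], [(nat_lit 0, nat_lit 0, nat_lit 0), (nat_lit 0, nat_lit 0, nat_lit 0), (nat_lit 1000, nat_lit 993, nat_lit 781)], (nat_lit 99, nat_lit 100, nat_lit 77)⟩
noncomputable def p096_k12 : C1.Kn := ⟨[nat_lit 60, nat_lit 100, nat_lit 140], [nat_lit 0, nat_lit 302, nat_lit 2304], [(nat_lit 0, nat_lit 0, nat_lit 0), (nat_lit 1000, nat_lit 953, nat_lit 118), (nat_lit 1000, nat_lit 952, nat_lit 781)], (nat_lit 92, nat_lit 100, nat_lit 67)⟩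
noncomputable def p096_k13 : C1.Kn := ⟨[nat_lit 60, nat_lit 100, nat_lit 140], [nat_lit 0, nat_lit 302, nat_lit 2304], [(nat_lit 0, nat_lit 0, nat_lit 0), (nat_lit 1000, nat_lit 953, nat_lit 118), (nat_lit 1000, nat_lit 952, nat_lit 781)], (nat_lit 94, nat_lit 100, nat_lit 75)⟩
noncomputable def p096_k14 : C1.Kn := ⟨[nat_lit 40, nat_lit 80, nat_lit 140], [nat_lit 0, nat_lit 0, nat_lit 3199], [(nat_lit 0, nat_lit 0, nat_lit 0), (nat_lit 0, nat_lit 0, nat_lit 0), (nat_lit 1000, nat_lit 833, nat_lit 833)], (nat_lit 83, nat_lit 100, nat_lit 83)⟩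
noncomputable def p096_k15 : C1.Kn := ⟨[nat_lit 60, nat_lit 100, nat_lit 160], [nat_lit 0, nat_lit 0, nat_lit 3069], [(nat_lit 0, nat_lit 0, nat_lit 0), (nat_lit 0, nat_lit 0, nat_lit 0), (nat_lit 1000, nat_lit 999, nat_lit 798)], (nat_lit 100, nat_lit 95, nat_lit 87)⟩
noncomputable def p096_k16 : C1.Kn := ⟨[nat_lit 40, nat_lit 100, nat_lit 140], [nat_lit 0, nat_lit 0, nat_lit 3243], [(nat_lit 0, nat_lit 0, nat_lit 0), (nat_lit 0, nat_lit 0, nat_lit 0), (nat_lit 1000, nat_lit 870, nat_lit 941)], (nat_lit 82, nat_lit 100, nat_lit 79)⟩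
noncomputable def p096_k17 : C1.Kn := ⟨[nat_lit 60, nat_lit 120, nat_lit 160], [nat_lit 0, nat_lit 0, nat_lit 3243], [(nat_lit 0, nat_lit 0, nat_lit 0), (nat_lit 0, nat_lit 0, nat_lit 0), (nat_lit 878, nat_lit 1000, nat_lit 945)], (nat_lit 100, nat_lit 98, nat_lit 84)⟩
noncomputable def p096_k18 : C1.Kn := ⟨[nat_lit 40, nat_lit 100, nat_lit 120], [nat_lit 0, nat_lit 288, nat_lit 2304], [(nat_lit 0, nat_lit 0, nat_lit 0), (nat_lit 1000, nat_lit 955, nat_lit 75), (nat_lit 1000, nat_lit 794, nat_lit 771)], (nat_lit 80, nat_lit 100, nat_lit 78)⟩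
noncomputable def p096_k19 : C1.Kn := ⟨[nat_lit 40, nat_lit 100, nat_lit 120], [nat_lit 0, nat_lit 592, nat_lit 2466], [(nat_lit 0, nat_lit 0, nat_lit 0), (nat_lit 1000, nat_lit 908, nat_lit 154), (nat_lit 1000, nat_lit 773, nat_lit 792)], (nat_lit 77, nat_lit 100, nat_lit 78)⟩
noncomputable def p096_k20 : C1.Kn := ⟨[nat_lit 40, nat_lit 100, nat_lit 140], [nat_lit 0, nat_lit 0, nat_lit 3243], [(nat_lit 0, nat_lit 0, nat_lit 0), (nat_lit 0, nat_lit 0, nat_lit 0), (nat_lit 1000, nat_lit 870, nat_lit 941)], (nat_lit 83, nat_lit 100, nat_lit 83)⟩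
noncomputable def p096_k21 : C1.Kn := ⟨[nat_lit 60, nat_lit 120, nat_lit 160], [nat_lit 0, nat_lit 0, nat_lit 3243], [(nat_lit 0, nat_lit 0, nat_lit 0), (nat_lit 0, nat_lit 0, nat_lit 0), (nat_lit 878, nat_lit 1000, nat_lit 945)], (nat_lit 100, nat_lit 95, nat_lit 87)⟩
noncomputable def p096_k22 : C1.Kn := ⟨[nat_lit 40, nat_lit 100, nat_lit 140], [nat_lit 0, nat_lit 592, nat_lit 3606], [(nat_lit 0, nat_lit 0, nat_lit 0), (nat_lit 1000, nat_lit 908, nat_lit 154), (nat_lit 1000, nat_lit 825, nat_lit 971)], (nat_lit 78, nat_lit 100, nat_lit 82)⟩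
noncomputable def p096_k23 : C1.Kn := ⟨[nat_lit 40, nat_lit 80, nat_lit 140], [nat_lit 0, nat_lit 0, nat_lit 3199], [(nat_lit 0, nat_lit 0, nat_lit 0), (nat_lit 0, nat_lit 0, nat_lit 0), (nat_lit 1000, nat_lit 833, nat_lit 833)], (nat_lit 82, nat_lit 100, nat_lit 79)⟩
noncomputable def p096_k24 : C1.Kn := ⟨[nat_lit 60, nat_lit 100, nat_lit 140], [nat_lit 0, nat_lit 302, nat_lit 2304], [(nat_lit 0, nat_lit 0, nat_lit 0), (nat_lit 1000, nat_lit 953, nat_lit 118), (nat_lit 1000, nat_lit 952, nat_lit 781)], (nat_lit 97, nat_lit 100, nat_lit 84)⟩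
noncomputable def p096_k25 : C1.Kn := ⟨[nat_lit 60, nat_lit 120, nat_lit 140], [nat_lit 0, nat_lit 453, nat_lit 2313], [(nat_lit 0, nat_lit 0, nat_lit 0), (nat_lit 1000, nat_lit 953, nat_lit 118), (nat_lit 1000, nat_lit 969, nat_lit 825)], (nat_lit 97, nat_lit 100, nat_lit 84)⟩
noncomputable def p096_k26 : C1.Kn := ⟨[nat_lit 60, nat_lit 120, nat_lit 160], [nat_lit 0, nat_lit 453, nat_lit 3555], [(nat_lit 0, nat_lit 0, nat_lit 0), (nat_lit 1000, nat_lit 953, nat_lit 118), (nat_lit 904, nat_lit 1000, nat_lit 997)], (nat_lit 100, nat_lit 100, nat_lit 89)⟩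
noncomputable def p096_k27 : C1.Kn := ⟨[nat_lit 40, nat_lit 80, nat_lit 120], [nat_lit 0, nat_lit 795, nat_lit 2800], [(nat_lit 0, nat_lit 0, nat_lit 0), (nat_lit 1000, nat_lit 814, nat_lit 310), (nat_lit 1000, nat_lit 719, nat_lit 783)], (nat_lit 71, nat_lit 100, nat_lit 71)⟩
noncomputable def p096_k28 : C1.Kn := ⟨[nat_lit 60, nat_lit 100, nat_lit 140], [nat_lit 0, nat_lit 151, nat_lit 2175], [(nat_lit 0, nat_lit 0, nat_lit 0), (nat_lit 1000, nat_lit 977, nat_lit 59), (nat_lit 1000, nat_lit 974, nat_lit 785)], (nat_lit 97, nat_lit 100, nat_lit 76)⟩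
noncomputable def p096_k29 : C1.Kn := ⟨[nat_lit 40, nat_lit 80, nat_lit 120], [nat_lit 0, nat_lit 795, nat_lit 2800], [(nat_lit 0, nat_lit 0, nat_lit 0), (nat_lit 1000, nat_lit 814, nat_lit 310), (nat_lit 1000, nat_lit 719, nat_lit 783)], (nat_lit 72, nat_lit 100, nat_lit 81)⟩
noncomputable def p096_k30 : C1.Kn := ⟨[nat_lit 40, nat_lit 100, nat_lit 120], [nat_lit 0, nat_lit 1192, nat_lit 2817], [(nat_lit 0, nat_lit 0, nat_lit 0), (nat_lit 1000, nat_lit 814, nat_lit 310), (nat_lit 1000, nat_lit 727, nat_lit 834)], (nat_lit 72, nat_lit 100, nat_lit 81)⟩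
noncomputable def p096_k31 : C1.Kn := ⟨[nat_lit 40, nat_lit 100, nat_lit 120], [nat_lit 0, nat_lit 1790, nat_lit 3212], [(nat_lit 0, nat_lit 0, nat_lit 0), (nat_lit 1000, nat_lit 720, nat_lit 465), (nat_lit 1000, nat_lit 674, nat_lit 878)], (nat_lit 66, nat_lit 100, nat_lit 80)⟩
noncomputable def p096_k32 : C1.Kn := ⟨[nat_lit 40, nat_lit 80, nat_lit 120], [nat_lit 0, nat_lit 1195, nat_lit 3135], [(nat_lit 0, nat_lit 0, nat_lit 0), (nat_lit 1000, nat_lit 720, nat_lit 465), (nat_lit 1000, nat_lit 661, nat_lit 757)], (nat_lit 66, nat_lit 100, nat_lit 80)⟩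
noncomputable def p096_k33 : C1.Kn := ⟨[nat_lit 60, nat_lit 100, nat_lit 160], [nat_lit 0, nat_lit 151, nat_lit 3185], [(nat_lit 0, nat_lit 0, nat_lit 0), (nat_lit 1000, nat_lit 977, nat_lit 59), (nat_lit 1000, nat_lit 976, nat_lit 789)], (nat_lit 100, nat_lit 98, nat_lit 88)⟩
noncomputable def p096_k34 : C1.Kn := ⟨[nat_lit 60, nat_lit 100, nat_lit 160], [nat_lit 0, nat_lit 302, nat_lit 3303], [(nat_lit 0, nat_lit 0, nat_lit 0), (nat_lit 1000, nat_lit 953, nat_lit 118), (nat_lit 1000, nat_lit 952, nat_lit 781)], (nat_lit 100, nat_lit 100, nat_lit 89)⟩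
noncomputable def p096_k35 : C1.Kn := ⟨[nat_lit 60, nat_lit 100, nat_lit 140], [nat_lit 0, nat_lit 609, nat_lit 2558], [(nat_lit 0, nat_lit 0, nat_lit 0), (nat_lit 1000, nat_lit 905, nat_lit 238), (nat_lit 1000, nat_lit 904, nat_lit 760)], (nat_lit 90, nat_lit 100, nat_lit 74)⟩
noncomputable def p096_k36 : C1.Kn := ⟨[nat_lit 60, nat_lit 100, nat_lit 140], [nat_lit 0, nat_lit 609, nat_lit 2558], [(nat_lit 0, nat_lit 0, nat_lit 0), (nat_lit 1000, nat_lit 905, nat_lit 238), (nat_lit 1000, nat_lit 904, nat_lit 760)], (nat_lit 94, nat_lit 100, nat_lit 87)⟩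
noncomputable def p096_k37 : C1.Kn := ⟨[nat_lit 40, nat_lit 120], [nat_lit 0, nat_lit 1589], [(nat_lit 0, nat_lit 0, nat_lit 0), (nat_lit 1000, nat_lit 814, nat_lit 310)], (nat_lit 72, nat_lit 100, nat_lit 81)⟩
noncomputable def p096_k38 : C1.Kn := ⟨[nat_lit 60, nat_lit 160], [nat_lit 0, nat_lit 0], [(nat_lit 0, nat_lit 0, nat_lit 0), (nat_lit 0, nat_lit 0, nat_lit 0)], (nat_lit 100, nat_lit 95, nat_lit 87)⟩
noncomputable def p096_k39 : C1.Kn := ⟨[nat_lit 60, nat_lit 120, nat_lit 140], [nat_lit 0, nat_lit 913, nat_lit 2600], [(nat_lit 0, nat_lit 0, nat_lit 0), (nat_lit 1000, nat_lit 905, nat_lit 238), (nat_lit 1000, nat_lit 943, nat_lit 874)], (nat_lit 94, nat_lit 100, nat_lit 87)⟩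
noncomputable def p096_k40 : C1.Kn := ⟨[nat_lit 40, nat_lit 100, nat_lit 160], [nat_lit 0, nat_lit 0, nat_lit 4607], [(nat_lit 0, nat_lit 0, nat_lit 0), (nat_lit 0, nat_lit 0, nat_lit 0), (nat_lit 846, nat_lit 837, nat_lit 1000)], (nat_lit 87, nat_lit 95, nat_lit 100)⟩
noncomputable def p096_k41 : C1.Kn := ⟨[nat_lit 60, nat_lit 120, nat_lit 180], [nat_lit 0, nat_lit 0, nat_lit 4796], [(nat_lit 0, nat_lit 0, nat_lit 0), (nat_lit 0, nat_lit 0, nat_lit 0), (nat_lit 802, nat_lit 1000, nat_lit 999)], (nat_lit 100, nat_lit 80, nat_lit 100)⟩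
noncomputable def p096_k42 : C1.Kn := ⟨[nat_lit 40, nat_lit 80, nat_lit 160], [nat_lit 0, nat_lit 0, nat_lit 4265], [(nat_lit 0, nat_lit 0, nat_lit 0), (nat_lit 0, nat_lit 0, nat_lit 0), (nat_lit 1000, nat_lit 833, nat_lit 833)], (nat_lit 89, nat_lit 100, nat_lit 99)⟩
noncomputable def p096_k43 : C1.Kn := ⟨[nat_lit 60, nat_lit 100, nat_lit 180], [nat_lit 0, nat_lit 0, nat_lit 4090], [(nat_lit 0, nat_lit 0, nat_lit 0), (nat_lit 0, nat_lit 0, nat_lit 0), (nat_lit 1000, nat_lit 999, nat_lit 798)], (nat_lit 100, nat_lit 85, nat_lit 97)⟩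
noncomputable def p096_k44 : C1.Kn := ⟨[nat_lit 40, nat_lit 80, nat_lit 140], [nat_lit 0, nat_lit 0, nat_lit 3199], [(nat_lit 0, nat_lit 0, nat_lit 0), (nat_lit 0, nat_lit 0, nat_lit 0), (nat_lit 1000, nat_lit 833, nat_lit 833)], (nat_lit 87, nat_lit 100, nat_lit 94)⟩
noncomputable def p096_k45 : C1.Kn := ⟨[nat_lit 60, nat_lit 100, nat_lit 160], [nat_lit 0, nat_lit 0, nat_lit 3069], [(nat_lit 0, nat_lit 0, nat_lit 0), (nat_lit 0, nat_lit 0, nat_lit 0), (nat_lit 1000, nat_lit 999, nat_lit 798)], (nat_lit 100, nat_lit 88, nat_lit 94)⟩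
noncomputable def p096_k46 : C1.Kn := ⟨[nat_lit 40, nat_lit 80, nat_lit 140], [nat_lit 0, nat_lit 0, nat_lit 3199], [(nat_lit 0, nat_lit 0, nat_lit 0), (nat_lit 0, nat_lit 0, nat_lit 0), (nat_lit 1000, nat_lit 833, nat_lit 833)], (nat_lit 85, nat_lit 100, nat_lit 88)⟩
noncomputable def p096_k47 : C1.Kn := ⟨[nat_lit 60, nat_lit 100, nat_lit 160], [nat_lit 0, nat_lit 0, nat_lit 3069], [(nat_lit 0, nat_lit 0, nat_lit 0), (nat_lit 0, nat_lit 0, nat_lit 0), (nat_lit 1000, nat_lit 999, nat_lit 798)], (nat_lit 100, nat_lit 92, nat_lit 90)⟩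
noncomputable def p096_k48 : C1.Kn := ⟨[nat_lit 40, nat_lit 100, nat_lit 140], [nat_lit 0, nat_lit 1192, nat_lit 4003], [(nat_lit 0, nat_lit 0, nat_lit 0), (nat_lit 1000, nat_lit 814, nat_lit 310), (nat_lit 992, nat_lit 771, nat_lit 1000)], (nat_lit 77, nat_lit 100, nat_lit 99)⟩
noncomputable def p096_k49 : C1.Kn := ⟨[nat_lit 40, nat_lit 80, nat_lit 140], [nat_lit 0, nat_lit 1195, nat_lit 4104], [(nat_lit 0, nat_lit 0, nat_lit 0), (nat_lit 1000, nat_lit 720, nat_lit 465), (nat_lit 1000, nat_lit 661, nat_lit 757)], (nat_lit 69, nat_lit 100, nat_lit 96)⟩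
noncomputable def p096_k50 : C1.Kn := ⟨[nat_lit 60, nat_lit 100, nat_lit 180], [nat_lit 0, nat_lit 0, nat_lit 4090], [(nat_lit 0, nat_lit 0, nat_lit 0), (nat_lit 0, nat_lit 0, nat_lit 0), (nat_lit 1000, nat_lit 999, nat_lit 798)], (nat_lit 100, nat_lit 80, nat_lit 100)⟩
noncomputable def p096_k51 : C1.Kn := ⟨[nat_lit 40, nat_lit 80, nat_lit 140], [nat_lit 0, nat_lit 795, nat_lit 3803], [(nat_lit 0, nat_lit 0, nat_lit 0), (nat_lit 1000, nat_lit 814, nat_lit 310), (nat_lit 1000, nat_lit 719, nat_lit 783)], (nat_lit 74, nat_lit 100, nat_lit 90)⟩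
noncomputable def p096_k52 : C1.Kn := ⟨[nat_lit 40, nat_lit 80, nat_lit 120], [nat_lit 0, nat_lit 1195, nat_lit 3135], [(nat_lit 0, nat_lit 0, nat_lit 0), (nat_lit 1000, nat_lit 720, nat_lit 465), (nat_lit 1000, nat_lit 661, nat_lit 757)], (nat_lit 67, nat_lit 100, nat_lit 88)⟩
noncomputable def p096_k53 : C1.Kn := ⟨[nat_lit 40, nat_lit 100, nat_lit 140], [nat_lit 0, nat_lit 1790, nat_lit 4440], [(nat_lit 0, nat_lit 0, nat_lit 0), (nat_lit 1000, nat_lit 720, nat_lit 465), (nat_lit 969, nat_lit 697, nat_lit 1000)], (nat_lit 69, nat_lit 100, nat_lit 96)⟩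
noncomputable def p096_k54 : C1.Kn := ⟨[nat_lit 40, nat_lit 80, nat_lit 160], [nat_lit 0, nat_lit 0, nat_lit 4265], [(nat_lit 0, nat_lit 0, nat_lit 0), (nat_lit 0, nat_lit 0, nat_lit 0), (nat_lit 1000, nat_lit 833, nat_lit 833)], (nat_lit 87, nat_lit 95, nat_lit 100)⟩
noncomputable def p096_k55 : C1.Kn := ⟨[nat_lit 60, nat_lit 100, nat_lit 160], [nat_lit 0, nat_lit 609, nat_lit 3531], [(nat_lit 0, nat_lit 0, nat_lit 0), (nat_lit 1000, nat_lit 905, nat_lit 238), (nat_lit 1000, nat_lit 904, nat_lit 760)], (nat_lit 94, nat_lit 88, nat_lit 100)⟩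
noncomputable def p096_k56 : C1.Kn := ⟨[nat_lit 40, nat_lit 80, nat_lit 140], [nat_lit 0, nat_lit 795, nat_lit 3803], [(nat_lit 0, nat_lit 0, nat_lit 0), (nat_lit 1000, nat_lit 814, nat_lit 310), (nat_lit 1000, nat_lit 719, nat_lit 783)], (nat_lit 77, nat_lit 100, nat_lit 99)⟩
noncomputable def p096_k57 : C1.Kn := ⟨[nat_lit 60, nat_lit 120, nat_lit 160], [nat_lit 0, nat_lit 913, nat_lit 3885], [(nat_lit 0, nat_lit 0, nat_lit 0), (nat_lit 1000, nat_lit 905, nat_lit 238), (nat_lit 886, nat_lit 948, nat_lit 1000)], (nat_lit 94, nat_lit 88, nat_lit 100)⟩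
noncomputable def p096_k58 : C1.Kn := ⟨[nat_lit 60, nat_lit 100, nat_lit 180], [nat_lit 0, nat_lit 302, nat_lit 4303], [(nat_lit 0, nat_lit 0, nat_lit 0), (nat_lit 1000, nat_lit 953, nat_lit 118), (nat_lit 1000, nat_lit 952, nat_lit 781)], (nat_lit 97, nat_lit 84, nat_lit 100)⟩
noncomputable def p096_k59 : C1.Kn := ⟨[nat_lit 60, nat_lit 120, nat_lit 180], [nat_lit 0, nat_lit 453, nat_lit 5083], [(nat_lit 0, nat_lit 0, nat_lit 0), (nat_lit 1000, nat_lit 953, nat_lit 118), (nat_lit 831, nat_lit 971, nat_lit 1000)], (nat_lit 97, nat_lit 84, nat_lit 100)⟩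
noncomputable def p096_k60 : C1.Kn := ⟨[nat_lit 60, nat_lit 120, nat_lit 160], [nat_lit 0, nat_lit 1362, nat_lit 4228], [(nat_lit 0, nat_lit 0, nat_lit 0), (nat_lit 1000, nat_lit 858, nat_lit 354), (nat_lit 895, nat_lit 904, nat_lit 1000)], (nat_lit 91, nat_lit 91, nat_lit 100)⟩
noncomputable def p096_l0 : Lf2 := ⟨nat_lit 0, nat_lit 15, [nat_lit 30, nat_lit 5, nat_lit 5, nat_lit 20], false, nat_lit 160, nat_lit 240, nat_lit 240, nat_lit 336, ⟨nat_lit 1000, nat_lit 0, nat_lit 0, nat_lit 0, nat_lit 0, nat_lit 0, nat_lit 0, nat_lit 0, nat_lit 0, nat_lit 0, nat_lit 0, nat_lit 0, nat_lit 0, nat_lit 0, nat_lit 0, nat_lit 0, false, false⟩,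
 nat_lit 13655, nat_lit 0, nat_lit 0, nat_lit 0, nat_lit 10241, nat_lit 8689, nat_lit 225, nat_lit 0, nat_lit 0, nat_lit 982, nat_lit 0, nat_lit 0, nat_lit 0, nat_lit 0, nat_lit 0, nat_lit 0, nat_lit 0, nat_lit 0, [],
 ⟨p096_k0, nat_lit 0, nat_lit 0, nat_lit 165, nat_lit 0, nat_lit 273654, [nat_lit 2032000001, nat_lit 4688000000, nat_lit 7968000000], [], [nat_lit 19190495651, nat_lit 21741397071, nat_lit 18761917613, nat_lit 21077558565, nat_lit 22066676637, nat_lit 24210586506, nat_lit 21266877521, nat_lit 23214723793], nat_lit 1271250, nat_lit 1271250, nat_lit 631250, nat_lit 1100001, nat_lit 1100001, nat_lit 1785000, [nat_lit 490000, nat_lit 1100000, nat_lit 1785000], [nat_lit 34, nat_lit 40, nat_lit 40, nat_lit 80, nat_lit 7, nat_lit 317, nat_lit 100, nat_lit 10]⟩, ⟨p096_k1, nat_lit 0, nat_lit 0, nat_lit 231, nat_lit 0, nat_lit 336931, [nat_lit 3282000000, nat_lit 6250000000, nat_lit 9842000000], [], [nat_lit 20483269466,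 nat_lit 21654912917, nat_lit 19942526478, nat_lit 21002466596, nat_lit 25724270664, nat_lit 27529016862, nat_lit 24958210799, nat_lit 26605387236], nat_lit 1271250, nat_lit 1271250, nat_lit 631250, nat_lit 1100001, nat_lit 1271250, nat_lit 1271250, [nat_lit 780000, nat_lit 1435000, nat_lit 1271250], [nat_lit 8, nat_lit 40, nat_lit 40, nat_lit 80, nat_lit 1, nat_lit 345, nat_lit 125, nat_lit 9]⟩,
 zbF0, [⟨nat_lit 0, nat_lit 97, nat_lit 82, nat_lit 100, nat_lit 855343657⟩, ⟨nat_lit 19, nat_lit 100, nat_lit 80, nat_lit 100, nat_lit 495176433⟩, ⟨nat_lit 7, nat_lit 94, nat_lit 100, nat_lit 97, nat_lit 14515680⟩]⟩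
noncomputable def p096_l1 : Lf2 := ⟨nat_lit 0, nat_lit 15, [nat_lit 30, nat_lit 5, nat_lit 5, nat_lit 20], false, nat_lit 240, nat_lit 300, nat_lit 240, nat_lit 280, ⟨nat_lit 1000, nat_lit 0, nat_lit 0, nat_lit 0, nat_lit 0, nat_lit 0, nat_lit 0, nat_lit 0, nat_lit 0, nat_lit 0, nat_lit 0, nat_lit 0, nat_lit 0, nat_lit 0, nat_lit 0, nat_lit 0, false, false⟩,
 nat_lit 18847, nat_lit 0, nat_lit 0, nat_lit 0, nat_lit 10835, nat_lit 11993, nat_lit 0, nat_lit 0, nat_lit 0, nat_lit 886, nat_lit 0, nat_lit 0, nat_lit 0, nat_lit 0, nat_lit 0, nat_lit 0, nat_lit 0, nat_lit 0, [],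
 ⟨p096_k0, nat_lit 0, nat_lit 0, nat_lit 167, nat_lit 0, nat_lit 237318, [nat_lit 2032000001, nat_lit 4688000000, nat_lit 7968000000], [], [nat_lit 23182800720, nat_lit 25413855735, nat_lit 22540713460, nat_lit 24709310010, nat_lit 27384288345, nat_lit 30072348847, nat_lit 26618671660, nat_lit 29142677990], nat_lit 1271250, nat_lit 1271250, nat_lit 631250, nat_lit 780000, nat_lit 1271250, nat_lit 1271250, [nat_lit 490000, nat_lit 1100000, nat_lit 1785000], [nat_lit 34, nat_lit 40, nat_lit 40, nat_lit 80, nat_lit 7, nat_lit 238, nat_lit 30, nat_lit 7]⟩, ⟨p096_k1, nat_lit 0, nat_lit 0, nat_lit 197, nat_lit 0, nat_lit 292194, [nat_lit 3282000000, nat_lit 6250000000, nat_lit 9842000000], [], [nat_lit 17499606702, nat_lit 18447228444, nat_lit 16774679710, nat_lit 17694315578, nat_lit 20545867871, nat_lit 21894554395, nat_lit 19728521918, nat_lit 21075057412], nat_lit 1271250, nat_lit 1271250, nat_lit 631250, nat_lit 780000,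 nat_lit 1271250, nat_lit 1271250, [nat_lit 780000, nat_lit 1435000, nat_lit 1271250], [nat_lit 8, nat_lit 40, nat_lit 40, nat_lit 80, nat_lit 1, nat_lit 317, nat_lit 100, nat_lit 8]⟩,
 zbF0, [⟨nat_lit 0, nat_lit 100, nat_lit 87, nat_lit 95, nat_lit 1102521061⟩, ⟨nat_lit 4, nat_lit 100, nat_lit 81, nat_lit 92, nat_lit 776930532⟩]⟩
noncomputable def p096_l2 : Lf2 := ⟨nat_lit 0, nat_lit 15, [nat_lit 30, nat_lit 5, nat_lit 5, nat_lit 20], false, nat_lit 240, nat_lit 280, nat_lit 280, nat_lit 320, ⟨nat_lit 1000, nat_lit 0, nat_lit 0, nat_lit 0, nat_lit 0, nat_lit 0, nat_lit 0, nat_lit 0, nat_lit 0, nat_lit 0, nat_lit 0, nat_lit 0, nat_lit 0, nat_lit 0, nat_lit 0, nat_lit 0, false, false⟩,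
 nat_lit 15208, nat_lit 0, nat_lit 0, nat_lit 0, nat_lit 11405, nat_lit 9677, nat_lit 0, nat_lit 0, nat_lit 0, nat_lit 935, nat_lit 0, nat_lit 0, nat_lit 0, nat_lit 0, nat_lit 0, nat_lit 0, nat_lit 0, nat_lit 0, [],
 ⟨p096_k0, nat_lit 0, nat_lit 0, nat_lit 159, nat_lit 0, nat_lit 226432, [nat_lit 2032000001, nat_lit 4688000000, nat_lit 7968000000], [], [nat_lit 22802514960, nat_lit 25117194105, nat_lit 22105504780, nat_lit 24354887430, nat_lit 25691087210, nat_lit 28665560628, nat_lit 24908093180, nat_lit 27716502980], nat_lit 1271250, nat_lit 1271250, nat_lit 631250, nat_lit 780000, nat_lit 1271250, nat_lit 1271250, [nat_lit 490000, nat_lit 1100000, nat_lit 1785000], [nat_lit 34, nat_lit 40, nat_lit 40, nat_lit 80, nat_lit 7, nat_lit 238, nat_lit 30, nat_lit 7]⟩, ⟨p096_k1, nat_lit 0, nat_lit 0, nat_lit 202, nat_lit 0, nat_lit 277975, [nat_lit 3282000000, nat_lit 6250000000, nat_lit 9842000000], [], [nat_lit 21608826744,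 nat_lit 22339103006, nat_lit 21024750627, nat_lit 21734459895, nat_lit 24287230685, nat_lit 25316828618, nat_lit 23625967939, nat_lit 24626098449], nat_lit 1271250, nat_lit 1271250, nat_lit 631250, nat_lit 780000, nat_lit 1271250, nat_lit 1271250, [nat_lit 780000, nat_lit 1435000, nat_lit 1271250], [nat_lit 8, nat_lit 40, nat_lit 40, nat_lit 80, nat_lit 1, nat_lit 238, nat_lit 30, nat_lit 6]⟩,
 zbF0, [⟨nat_lit 0, nat_lit 100, nat_lit 87, nat_lit 95, nat_lit 1062656760⟩, ⟨nat_lit 16, nat_lit 87, nat_lit 100, nat_lit 94, nat_lit 714826518⟩, ⟨nat_lit 19, nat_lit 100, nat_lit 88, nat_lit 94, nat_lit 615863555⟩]⟩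
noncomputable def p096_l3 : Lf2 := ⟨nat_lit 0, nat_lit 15, [nat_lit 30, nat_lit 5, nat_lit 5, nat_lit 20], false, nat_lit 240, nat_lit 280, nat_lit 280, nat_lit 336, ⟨nat_lit 1000, nat_lit 0, nat_lit 0, nat_lit 0, nat_lit 0, nat_lit 0, nat_lit 0, nat_lit 0, nat_lit 0, nat_lit 0, nat_lit 0, nat_lit 0, nat_lit 0, nat_lit 0, nat_lit 0, nat_lit 0, false, false⟩,
 nat_lit 12960, nat_lit 0, nat_lit 0, nat_lit 2600, nat_lit 6536, nat_lit 8247, nat_lit 0, nat_lit 0, nat_lit 0, nat_lit 1028, nat_lit 0, nat_lit 0, nat_lit 0, nat_lit 0, nat_lit 0, nat_lit 0, nat_lit 0, nat_lit 0, [],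
 ⟨p096_k0, nat_lit 0, nat_lit 0, nat_lit 70, nat_lit 0, nat_lit 87805, [nat_lit 2032000001, nat_lit 4688000000, nat_lit 7968000000], [], [nat_lit 20176154896, nat_lit 20645654726, nat_lit 20017559360, nat_lit 20474743080, nat_lit 22724222448, nat_lit 23148985133, nat_lit 22500093136, nat_lit 22913960746], nat_lit 1271250, nat_lit 1271250, nat_lit 631250, nat_lit 780000, nat_lit 1271250, nat_lit 1271250, [nat_lit 490000, nat_lit 1100000, nat_lit 1785000], [nat_lit 34, nat_lit 40, nat_lit 40, nat_lit 80, nat_lit 7, nat_lit 238, nat_lit 30, nat_lit 7]⟩, ⟨p096_k1, nat_lit 0, nat_lit 0, nat_lit 151, nat_lit 0, nat_lit 108107, [nat_lit 3282000000, nat_lit 6250000000, nat_lit 9842000000], [], [nat_lit 21863770659, nat_lit 22528911136, nat_lit 21423725572, nat_lit 22070823720, nat_lit 25580282922, nat_lit 26260317584, nat_lit 25040154143, nat_lit 25689487817], nat_lit 1271250, nat_lit 1271250, nat_lit 631250, nat_lit 780000,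 nat_lit 1271250, nat_lit 1271250, [nat_lit 780000, nat_lit 1435000, nat_lit 1271250], [nat_lit 8, nat_lit 40, nat_lit 40, nat_lit 80, nat_lit 1, nat_lit 238, nat_lit 30, nat_lit 6]⟩,
 zbF0, [⟨nat_lit 0, nat_lit 100, nat_lit 87, nat_lit 98, nat_lit 581322979⟩, ⟨nat_lit 7, nat_lit 87, nat_lit 100, nat_lit 99, nat_lit 264469077⟩, ⟨nat_lit 23, nat_lit 100, nat_lit 73, nat_lit 94, nat_lit 339068127⟩]⟩
noncomputable def p096_l4 : Lf2 := ⟨nat_lit 0, nat_lit 15, [nat_lit 30, nat_lit 5, nat_lit 5, nat_lit 20], false, nat_lit 240, nat_lit 280, nat_lit 280, nat_lit 336, ⟨nat_lit 1000, nat_lit 0, nat_lit 0, nat_lit 0, nat_lit 0, nat_lit 0, nat_lit 0, nat_lit 0, nat_lit 0, nat_lit 0, nat_lit 0, nat_lit 0, nat_lit 0, nat_lit 0, nat_lit 0, nat_lit 0, false, false⟩,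
 nat_lit 14169, nat_lit 0, nat_lit 0, nat_lit 0, nat_lit 6488, nat_lit 9016, nat_lit 0, nat_lit 0, nat_lit 0, nat_lit 927, nat_lit 0, nat_lit 0, nat_lit 0, nat_lit 0, nat_lit 0, nat_lit 0, nat_lit 0, nat_lit 0, [],
 ⟨p096_k2, nat_lit 0, nat_lit 0, nat_lit 78, nat_lit 0, nat_lit 110559, [nat_lit 2032000001, nat_lit 4688000000, nat_lit 7968000000], [], [nat_lit 20645832535, nat_lit 21110704199, nat_lit 20512583640, nat_lit 20967660400, nat_lit 23126897315, nat_lit 23551013351, nat_lit 22942647418, nat_lit 23354672548], nat_lit 1271250, nat_lit 1271250, nat_lit 660400, nat_lit 780000, nat_lit 1271250, nat_lit 1271250, [nat_lit 490000, nat_lit 1100000, nat_lit 1785000], [nat_lit 34, nat_lit 40, nat_lit 40, nat_lit 80, nat_lit 7, nat_lit 238, nat_lit 30, nat_lit 7]⟩, ⟨p096_k1, nat_lit 0, nat_lit 0, nat_lit 160, nat_lit 0, nat_lit 139456, [nat_lit 3282000000, nat_lit 6250000000, nat_lit 9842000000], [], [nat_lit 21949336120,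 nat_lit 22645624163, nat_lit 21535336491, nat_lit 22216104535, nat_lit 25841050818, nat_lit 26761751386, nat_lit 25339818783, nat_lit 26228308578], nat_lit 1271250, nat_lit 1271250, nat_lit 660400, nat_lit 780000, nat_lit 1271250, nat_lit 1271250, [nat_lit 780000, nat_lit 1435000, nat_lit 1271250], [nat_lit 8, nat_lit 40, nat_lit 40, nat_lit 80, nat_lit 1, nat_lit 238, nat_lit 30, nat_lit 6]⟩,
 zbF0, [⟨nat_lit 0, nat_lit 100, nat_lit 85, nat_lit 97, nat_lit 692094315⟩, ⟨nat_lit 7, nat_lit 87, nat_lit 100, nat_lit 99, nat_lit 361392352⟩, ⟨nat_lit 23, nat_lit 100, nat_lit 72, nat_lit 94, nat_lit 254863093⟩]⟩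
noncomputable def p096_l5 : Lf2 := ⟨nat_lit 0, nat_lit 15, [nat_lit 30, nat_lit 5, nat_lit 5, nat_lit 20], false, nat_lit 240, nat_lit 280, nat_lit 280, nat_lit 336, ⟨nat_lit 233, nat_lit 0, nat_lit 767, nat_lit 7, nat_lit 182, nat_lit 767, nat_lit 200, nat_lit 767, nat_lit 6023, nat_lit 234, nat_lit 102915, nat_lit 293, nat_lit 43726686, nat_lit 0, nat_lit 0, nat_lit 4766680, false, false⟩,
 nat_lit 5174, nat_lit 0, nat_lit 0, nat_lit 0, nat_lit 4033, nat_lit 3292, nat_lit 95, nat_lit 0, nat_lit 0, nat_lit 0, nat_lit 0, nat_lit 0, nat_lit 0, nat_lit 0, nat_lit 0, nat_lit 190970, nat_lit 0, nat_lit 0, [(nat_lit 19, [(nat_lit 3, nat_lit 13), (nat_lit 4, nat_lit 754)])],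
 ⟨p096_k3, nat_lit 0, nat_lit 0, nat_lit 134, nat_lit 0, nat_lit 157725, [nat_lit 1813516801, nat_lit 1103348800, nat_lit 466547600], [], [nat_lit 20176037400, nat_lit 20749509089, nat_lit 20186726739, nat_lit 20754789335, nat_lit 21810561025, nat_lit 22561937626, nat_lit 21790255513, nat_lit 22534606228], nat_lit 1271250, nat_lit 1271250, nat_lit 719601, nat_lit 780000, nat_lit 1271250, nat_lit 1271250, [nat_lit 490000, nat_lit 1100000, nat_lit 1785000], [nat_lit 34, nat_lit 40, nat_lit 40, nat_lit 80, nat_lit 7, nat_lit 238, nat_lit 30, nat_lit 7]⟩, ⟨p096_k1, nat_lit 0, nat_lit 0, nat_lit 178, nat_lit 0, nat_lit 203748, [nat_lit 764706000, nat_lit 1456250000, nat_lit 2293186000], [], [nat_lit 5667663600, nat_lit 5881090564, nat_lit 5571438200, nat_lit 5782215808, nat_lit 6860117617, nat_lit 7071187444, nat_lit 6749200041, nat_lit 6952023791], nat_lit 1271250, nat_lit 1271250, nat_lit 719601, nat_lit 780000, nat_lit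 1271250, nat_lit 1271250, [nat_lit 780000, nat_lit 1435000, nat_lit 1271250], [nat_lit 8, nat_lit 40, nat_lit 40, nat_lit 80, nat_lit 1, nat_lit 238, nat_lit 30, nat_lit 6]⟩,
 ⟨nat_lit 3872, nat_lit 4184, ⟨.ofNat (nat_lit 440878), .ofNat (nat_lit 454130), .ofNat (nat_lit 451709), .ofNat (nat_lit 464961), .ofNat (nat_lit 445199), .ofNat (nat_lit 458104), .ofNat (nat_lit 456093), .ofNat (nat_lit 468998)⟩, ⟨.ofNat (nat_lit 457921), .ofNat (nat_lit 524176), .ofNat (nat_lit 479587), .ofNat (nat_lit 545843), .ofNat (nat_lit 455554), .ofNat (nat_lit 520075), .ofNat (nat_lit 477347), .ofNat (nat_lit 541869)⟩⟩, [⟨nat_lit 0, nat_lit 98, nat_lit 80, nat_lit 100, nat_lit 418006277⟩, ⟨nat_lit 19, nat_lit 100, nat_lit 80, nat_lit 100, nat_lit 164122121⟩]⟩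
noncomputable def p096_l6 : Lf2 := ⟨nat_lit 0, nat_lit 12, [nat_lit 126, nat_lit 5, nat_lit 5, nat_lit 20], false, nat_lit 280, nat_lit 300, nat_lit 280, nat_lit 336, ⟨nat_lit 1000, nat_lit 0, nat_lit 0, nat_lit 0, nat_lit 0, nat_lit 0, nat_lit 0, nat_lit 0, nat_lit 0, nat_lit 0, nat_lit 0, nat_lit 0, nat_lit 0, nat_lit 0, nat_lit 0, nat_lit 0, false, false⟩,
 nat_lit 12960, nat_lit 0, nat_lit 0, nat_lit 0, nat_lit 6617, nat_lit 8247, nat_lit 0, nat_lit 0, nat_lit 0, nat_lit 1028, nat_lit 0, nat_lit 0, nat_lit 0, nat_lit 0, nat_lit 0, nat_lit 0, nat_lit 0, nat_lit 0, [],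
 ⟨p096_k4, nat_lit 0, nat_lit 0, nat_lit 76, nat_lit 0, nat_lit 83739, [nat_lit 2032000001, nat_lit 4688000000, nat_lit 7968000000], [], [nat_lit 22695424287, nat_lit 23203562929, nat_lit 22448575192, nat_lit 22865551987, nat_lit 24205912664, nat_lit 24685686075, nat_lit 23843462473, nat_lit 24311385980], nat_lit 1271250, nat_lit 1271250, nat_lit 631250, nat_lit 780000, nat_lit 1271250, nat_lit 1271250, [nat_lit 490000, nat_lit 1100000, nat_lit 1785000], [nat_lit 34, nat_lit 40, nat_lit 40, nat_lit 80, nat_lit 7, nat_lit 238, nat_lit 30, nat_lit 7]⟩, ⟨p096_k5, nat_lit 0, nat_lit 0, nat_lit 149, nat_lit 0, nat_lit 102925, [nat_lit 3282000000, nat_lit 6250000000, nat_lit 9842000000], [], [nat_lit 21863770659, nat_lit 22528911136, nat_lit 21423725572, nat_lit 22070823720, nat_lit 25580282922, nat_lit 26260317584, nat_lit 25040154143, nat_lit 25689487817], nat_lit 1271250, nat_lit 1271250, nat_lit 631250, nat_lit 780000,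 nat_lit 1271250, nat_lit 1271250, [nat_lit 780000, nat_lit 1435000, nat_lit 1271250], [nat_lit 8, nat_lit 40, nat_lit 40, nat_lit 80, nat_lit 1, nat_lit 238, nat_lit 30, nat_lit 6]⟩,
 zbF0, [⟨nat_lit 0, nat_lit 100, nat_lit 87, nat_lit 98, nat_lit 381031599⟩, ⟨nat_lit 4, nat_lit 100, nat_lit 88, nat_lit 99, nat_lit 197091086⟩, ⟨nat_lit 19, nat_lit 100, nat_lit 87, nat_lit 99, nat_lit 83921314⟩, ⟨nat_lit 23, nat_lit 100, nat_lit 90, nat_lit 100, nat_lit 497466326⟩]⟩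
noncomputable def p096_l7 : Lf2 := ⟨nat_lit 0, nat_lit 12, [nat_lit 126, nat_lit 5, nat_lit 5, nat_lit 20], false, nat_lit 280, nat_lit 296, nat_lit 280, nat_lit 336, ⟨nat_lit 1000, nat_lit 0, nat_lit 0, nat_lit 0, nat_lit 0, nat_lit 0, nat_lit 0, nat_lit 0, nat_lit 0, nat_lit 0, nat_lit 0, nat_lit 0, nat_lit 0, nat_lit 0, nat_lit 0, nat_lit 0, false, false⟩,
 nat_lit 12965, nat_lit 0, nat_lit 0, nat_lit 0, nat_lit 6554, nat_lit 8250, nat_lit 0, nat_lit 0, nat_lit 0, nat_lit 1010, nat_lit 0, nat_lit 0, nat_lit 0, nat_lit 0, nat_lit 0, nat_lit 0, nat_lit 0, nat_lit 0, [],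
 ⟨p096_k6, nat_lit 0, nat_lit 0, nat_lit 78, nat_lit 0, nat_lit 96263, [nat_lit 2032000001, nat_lit 4688000000, nat_lit 7968000000], [], [nat_lit 23094753262, nat_lit 23396255879, nat_lit 22903203244, nat_lit 23151938369, nat_lit 24268543892, nat_lit 24556626838, nat_lit 23980747323, nat_lit 24263098249], nat_lit 1271250, nat_lit 1271250, nat_lit 660400, nat_lit 780000, nat_lit 1271250, nat_lit 1271250, [nat_lit 490000, nat_lit 1100000, nat_lit 1785000], [nat_lit 34, nat_lit 40, nat_lit 40, nat_lit 80, nat_lit 7, nat_lit 238, nat_lit 30, nat_lit 6]⟩, ⟨p096_k5, nat_lit 0, nat_lit 0, nat_lit 154, nat_lit 0, nat_lit 121191, [nat_lit 3282000000, nat_lit 6250000000, nat_lit 9842000000], [], [nat_lit 21889062050, nat_lit 22550729650, nat_lit 21536784250, nat_lit 22184013750, nat_lit 25586314691, nat_lit 26147764761, nat_lit 25153946451, nat_lit 25690753050], nat_lit 1271250, nat_lit 1271250, nat_lit 660400, nat_lit 780000,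 nat_lit 1271250, nat_lit 1271250, [nat_lit 780000, nat_lit 1435000, nat_lit 1271250], [nat_lit 8, nat_lit 40, nat_lit 40, nat_lit 80, nat_lit 1, nat_lit 238, nat_lit 30, nat_lit 6]⟩,
 zbF0, [⟨nat_lit 0, nat_lit 100, nat_lit 86, nat_lit 100, nat_lit 426514412⟩, ⟨nat_lit 16, nat_lit 85, nat_lit 97, nat_lit 100, nat_lit 210350826⟩, ⟨nat_lit 19, nat_lit 100, nat_lit 87, nat_lit 99, nat_lit 98199546⟩, ⟨nat_lit 23, nat_lit 100, nat_lit 88, nat_lit 100, nat_lit 473538954⟩]⟩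
noncomputable def p096_l8 : Lf2 := ⟨nat_lit 0, nat_lit 12, [nat_lit 126, nat_lit 5, nat_lit 5, nat_lit 20], false, nat_lit 280, nat_lit 292, nat_lit 280, nat_lit 336, ⟨nat_lit 1000, nat_lit 0, nat_lit 0, nat_lit 0, nat_lit 0, nat_lit 0, nat_lit 0, nat_lit 0, nat_lit 0, nat_lit 0, nat_lit 0, nat_lit 0, nat_lit 0, nat_lit 0, nat_lit 0, nat_lit 0, false, false⟩,
 nat_lit 12965, nat_lit 0, nat_lit 0, nat_lit 0, nat_lit 6447, nat_lit 8250, nat_lit 0, nat_lit 0, nat_lit 0, nat_lit 1010, nat_lit 0, nat_lit 0, nat_lit 0, nat_lit 0, nat_lit 0, nat_lit 0, nat_lit 0, nat_lit 0, [],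
 ⟨p096_k7, nat_lit 0, nat_lit 0, nat_lit 79, nat_lit 0, nat_lit 104439, [nat_lit 2032000001, nat_lit 4688000000, nat_lit 7968000000], [], [nat_lit 23353073713, nat_lit 23519840767, nat_lit 23213421424, nat_lit 23377601962, nat_lit 24116408837, nat_lit 24307741681, nat_lit 23932386245, nat_lit 24096482286], nat_lit 1271250, nat_lit 1271250, nat_lit 689850, nat_lit 780000, nat_lit 1271250, nat_lit 1271250, [nat_lit 490000, nat_lit 1100000, nat_lit 1785000], [nat_lit 34, nat_lit 40, nat_lit 40, nat_lit 80, nat_lit 7, nat_lit 238, nat_lit 30, nat_lit 6]⟩, ⟨p096_k5, nat_lit 0, nat_lit 0, nat_lit 156, nat_lit 0, nat_lit 133368, [nat_lit 3282000000, nat_lit 6250000000, nat_lit 9842000000], [], [nat_lit 21800992601, nat_lit 22459050676, nat_lit 21536784250, nat_lit 22184013750, nat_lit 25478222631, nat_lit 26032735496, nat_lit 25153946451, nat_lit 25690753050], nat_lit 1271250, nat_lit 1271250, nat_lit 689850, nat_lit 780000,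 nat_lit 1271250, nat_lit 1271250, [nat_lit 780000, nat_lit 1435000, nat_lit 1271250], [nat_lit 8, nat_lit 40, nat_lit 40, nat_lit 80, nat_lit 1, nat_lit 238, nat_lit 30, nat_lit 6]⟩,
 zbF0, [⟨nat_lit 0, nat_lit 97, nat_lit 82, nat_lit 100, nat_lit 512271692⟩, ⟨nat_lit 16, nat_lit 84, nat_lit 98, nat_lit 100, nat_lit 195593744⟩, ⟨nat_lit 19, nat_lit 100, nat_lit 80, nat_lit 100, nat_lit 126341847⟩, ⟨nat_lit 23, nat_lit 100, nat_lit 86, nat_lit 100, nat_lit 444414659⟩]⟩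
noncomputable def p096_l9 : Lf2 := ⟨nat_lit 0, nat_lit 15, [nat_lit 30, nat_lit 5, nat_lit 5, nat_lit 20], false, nat_lit 280, nat_lit 300, nat_lit 280, nat_lit 336, ⟨nat_lit 1000, nat_lit 0, nat_lit 0, nat_lit 0, nat_lit 0, nat_lit 0, nat_lit 0, nat_lit 0, nat_lit 0, nat_lit 0, nat_lit 0, nat_lit 0, nat_lit 0, nat_lit 0, nat_lit 0, nat_lit 0, false, false⟩,
 nat_lit 8734, nat_lit 0, nat_lit 13443, nat_lit 0, nat_lit 6550, nat_lit 14112, nat_lit 0, nat_lit 0, nat_lit 0, nat_lit 0, nat_lit 0, nat_lit 0, nat_lit 0, nat_lit 0, nat_lit 0, nat_lit 0, nat_lit 0, nat_lit 0, [],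
 ⟨p096_k0, nat_lit 0, nat_lit 0, nat_lit 75, nat_lit 0, nat_lit 69320, [nat_lit 2032000001, nat_lit 4688000000, nat_lit 7968000000], [], [nat_lit 22716673900, nat_lit 23663197038, nat_lit 22491188800, nat_lit 23319998800, nat_lit 24155440525, nat_lit 25108873019, nat_lit 23800865950, nat_lit 24730789325], nat_lit 1271250, nat_lit 1271250, nat_lit 631250, nat_lit 780000, nat_lit 1271250, nat_lit 1271250, [nat_lit 490000, nat_lit 1100000, nat_lit 1785000], [nat_lit 34, nat_lit 40, nat_lit 40, nat_lit 80, nat_lit 7, nat_lit 238, nat_lit 30, nat_lit 7]⟩, ⟨p096_k1, nat_lit 0, nat_lit 0, nat_lit 143, nat_lit 0, nat_lit 85348, [nat_lit 3282000000, nat_lit 6250000000, nat_lit 9842000000], [], [nat_lit 24954171064, nat_lit 25886459358, nat_lit 23923397312, nat_lit 24827288620, nat_lit 30162322912, nat_lit 31101760717, nat_lit 28974071751, nat_lit 29825185644], nat_lit 1271250, nat_lit 1271250, nat_lit 631250, nat_lit 780000,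 nat_lit 1271250, nat_lit 1271250, [nat_lit 780000, nat_lit 1435000, nat_lit 1271250], [nat_lit 8, nat_lit 40, nat_lit 40, nat_lit 80, nat_lit 1, nat_lit 238, nat_lit 30, nat_lit 6]⟩,
 zbF0, [⟨nat_lit 0, nat_lit 100, nat_lit 86, nat_lit 99, nat_lit 705572331⟩, ⟨nat_lit 4, nat_lit 100, nat_lit 86, nat_lit 98, nat_lit 330426230⟩, ⟨nat_lit 19, nat_lit 100, nat_lit 87, nat_lit 99, nat_lit 296808334⟩, ⟨nat_lit 23, nat_lit 100, nat_lit 80, nat_lit 100, nat_lit 414780010⟩]⟩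
noncomputable def p096_l10 : Lf2 := ⟨nat_lit 0, nat_lit 12, [nat_lit 126, nat_lit 5, nat_lit 5, nat_lit 20], false, nat_lit 280, nat_lit 288, nat_lit 280, nat_lit 336, ⟨nat_lit 965, nat_lit 0, nat_lit 35, nat_lit 7, nat_lit 182, nat_lit 35, nat_lit 216, nat_lit 35, nat_lit 3485, nat_lit 228, nat_lit 102915, nat_lit 293, nat_lit 42522774, nat_lit 0, nat_lit 0, nat_lit 4880833, false, false⟩,
 nat_lit 12746, nat_lit 0, nat_lit 0, nat_lit 0, nat_lit 8083, nat_lit 8111, nat_lit 0, nat_lit 0, nat_lit 0, nat_lit 997, nat_lit 0, nat_lit 0, nat_lit 0, nat_lit 0, nat_lit 0, nat_lit 6650, nat_lit 0, nat_lit 0, [(nat_lit 19, [(nat_lit 3, nat_lit 35)])],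
 ⟨p096_k8, nat_lit 0, nat_lit 0, nat_lit 113, nat_lit 0, nat_lit 151895, [nat_lit 2486384001, nat_lit 4522492000, nat_lit 6007758000], [], [nat_lit 24676872962, nat_lit 25602288016, nat_lit 24507136565, nat_lit 25383934361, nat_lit 25175348229, nat_lit 26218423381, nat_lit 25000126935, nat_lit 25991417338], nat_lit 1271250, nat_lit 1271250, nat_lit 719601, nat_lit 780000, nat_lit 1271250, nat_lit 1271250, [nat_lit 490000, nat_lit 1100000, nat_lit 1442500], [nat_lit 6, nat_lit 40, nat_lit 40, nat_lit 80, nat_lit 3, nat_lit 238, nat_lit 30, nat_lit 7]⟩, ⟨p096_k5, nat_lit 0, nat_lit 0, nat_lit 175, nat_lit 0, nat_lit 195805, [nat_lit 3167130000, nat_lit 6031250000, nat_lit 9497530000], [], [nat_lit 20711954028, nat_lit 21350159286, nat_lit 20535946801, nat_lit 21167079923, nat_lit 24282167230, nat_lit 25123451045, nat_lit 24064686552, nat_lit 24894277115], nat_lit 1271250, nat_lit 1271250, nat_lit 719601, nat_lit 780000,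 nat_lit 1271250, nat_lit 1271250, [nat_lit 780000, nat_lit 1435000, nat_lit 1271250], [nat_lit 8, nat_lit 40, nat_lit 40, nat_lit 80, nat_lit 1, nat_lit 238, nat_lit 30, nat_lit 6]⟩,
 ⟨nat_lit 3872, nat_lit 4184, ⟨.ofNat (nat_lit 440878), .ofNat (nat_lit 454130), .ofNat (nat_lit 451709), .ofNat (nat_lit 464961), .ofNat (nat_lit 445199), .ofNat (nat_lit 458104), .ofNat (nat_lit 456093), .ofNat (nat_lit 468998)⟩, ⟨.ofNat (nat_lit 524176), .ofNat (nat_lit 537427), .ofNat (nat_lit 545843), .ofNat (nat_lit 559094), .ofNat (nat_lit 520075), .ofNat (nat_lit 532980), .ofNat (nat_lit 541869), .ofNat (nat_lit 554773)⟩⟩, [⟨nat_lit 0, nat_lit 98, nat_lit 80, nat_lit 100, nat_lit 805238918⟩, ⟨nat_lit 4, nat_lit 100, nat_lit 79, nat_lit 96, nat_lit 284997334⟩, ⟨nat_lit 19, nat_lit 100, nat_lit 80, nat_lit 100, nat_lit 58912191⟩, ⟨nat_lit 23, nat_lit 100, nat_lit 80, nat_lit 100, nat_lit 504545998⟩]⟩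
noncomputable def p096_l11 : Lf2 := ⟨nat_lit 0, nat_lit 15, [nat_lit 30, nat_lit 5, nat_lit 5, nat_lit 20], false, nat_lit 280, nat_lit 288, nat_lit 280, nat_lit 336, ⟨nat_lit 1000, nat_lit 0, nat_lit 0, nat_lit 0, nat_lit 0, nat_lit 0, nat_lit 0, nat_lit 0, nat_lit 0, nat_lit 0, nat_lit 0, nat_lit 0, nat_lit 0, nat_lit 0, nat_lit 0, nat_lit 0, false, false⟩,
 nat_lit 22614, nat_lit 0, nat_lit 0, nat_lit 0, nat_lit 6545, nat_lit 14390, nat_lit 0, nat_lit 0, nat_lit 0, nat_lit 0, nat_lit 0, nat_lit 0, nat_lit 0, nat_lit 0, nat_lit 0, nat_lit 0, nat_lit 0, nat_lit 0, [],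
 ⟨p096_k3, nat_lit 0, nat_lit 0, nat_lit 75, nat_lit 0, nat_lit 90602, [nat_lit 2032000001, nat_lit 4688000000, nat_lit 7968000000], [], [nat_lit 23453700166, nat_lit 23950702869, nat_lit 23322795070, nat_lit 23808389983, nat_lit 24023484544, nat_lit 24509462019, nat_lit 23880736614, nat_lit 24361797619], nat_lit 1271250, nat_lit 1271250, nat_lit 719601, nat_lit 780000, nat_lit 1271250, nat_lit 1271250, [nat_lit 490000, nat_lit 1100000, nat_lit 1785000], [nat_lit 34, nat_lit 40, nat_lit 40, nat_lit 80, nat_lit 7, nat_lit 238, nat_lit 30, nat_lit 6]⟩, ⟨p096_k1, nat_lit 0, nat_lit 0, nat_lit 149, nat_lit 0, nat_lit 117039, [nat_lit 3282000000, nat_lit 6250000000, nat_lit 9842000000], [], [nat_lit 24153690316, nat_lit 25081308694, nat_lit 23730180640, nat_lit 24646243900, nat_lit 29336426909, nat_lit 30545340481, nat_lit 28848838089, nat_lit 30021404604], nat_lit 1271250, nat_lit 1271250, nat_lit 719601, nat_lit 780000,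 nat_lit 1271250, nat_lit 1271250, [nat_lit 780000, nat_lit 1435000, nat_lit 1271250], [nat_lit 8, nat_lit 40, nat_lit 40, nat_lit 80, nat_lit 1, nat_lit 238, nat_lit 30, nat_lit 6]⟩,
 zbF0, [⟨nat_lit 0, nat_lit 99, nat_lit 82, nat_lit 100, nat_lit 882024104⟩, ⟨nat_lit 16, nat_lit 83, nat_lit 98, nat_lit 100, nat_lit 427668086⟩, ⟨nat_lit 19, nat_lit 100, nat_lit 80, nat_lit 100, nat_lit 428695630⟩, ⟨nat_lit 23, nat_lit 100, nat_lit 84, nat_lit 100, nat_lit 285988140⟩]⟩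
noncomputable def p096_l12 : Lf2 := ⟨nat_lit 0, nat_lit 15, [nat_lit 30, nat_lit 5, nat_lit 5, nat_lit 20], false, nat_lit 280, nat_lit 284, nat_lit 280, nat_lit 336, ⟨nat_lit 225, nat_lit 0, nat_lit 775, nat_lit 7, nat_lit 184, nat_lit 775, nat_lit 214, nat_lit 775, nat_lit 5711, nat_lit 232, nat_lit 102973, nat_lit 293, nat_lit 42536556, nat_lit 0, nat_lit 0, nat_lit 4883421, false, false⟩,
 nat_lit 5114, nat_lit 0, nat_lit 0, nat_lit 0, nat_lit 4062, nat_lit 3254, nat_lit 64, nat_lit 0, nat_lit 0, nat_lit 0, nat_lit 0, nat_lit 0, nat_lit 0, nat_lit 0, nat_lit 0, nat_lit 192790, nat_lit 0, nat_lit 0, [(nat_lit 19, [(nat_lit 3, nat_lit 16), (nat_lit 4, nat_lit 759)])],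
 ⟨p096_k9, nat_lit 0, nat_lit 0, nat_lit 99, nat_lit 0, nat_lit 112768, [nat_lit 1849896000, nat_lit 1066162801, nat_lit 390264533], [], [nat_lit 22194025999, nat_lit 22569349414, nat_lit 22181432787, nat_lit 22554990792, nat_lit 22415491691, nat_lit 22787074289, nat_lit 22401946688, nat_lit 22771788400], nat_lit 1271250, nat_lit 1271250, nat_lit 749650, nat_lit 780000, nat_lit 1271250, nat_lit 1271250, [nat_lit 490000, nat_lit 1100000, nat_lit 1785000], [nat_lit 34, nat_lit 40, nat_lit 40, nat_lit 80, nat_lit 7, nat_lit 238, nat_lit 30, nat_lit 6]⟩, ⟨p096_k1, nat_lit 0, nat_lit 0, nat_lit 158, nat_lit 0, nat_lit 149134, [nat_lit 738450000, nat_lit 1406250000, nat_lit 2214450000], [], [nat_lit 5375968686, nat_lit 5584100098, nat_lit 5327996504, nat_lit 5534822228, nat_lit 6542919389, nat_lit 6825617341, nat_lit 6485171588, nat_lit 6766285670], nat_lit 1271250, nat_lit 1271250, nat_lit 749650, nat_lit 780000, nat_lit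 1271250, nat_lit 1271250, [nat_lit 780000, nat_lit 1435000, nat_lit 1271250], [nat_lit 8, nat_lit 40, nat_lit 40, nat_lit 80, nat_lit 1, nat_lit 238, nat_lit 30, nat_lit 6]⟩,
 ⟨nat_lit 3872, nat_lit 4032, ⟨.ofNat (nat_lit 449577), .ofNat (nat_lit 456116), .ofNat (nat_lit 460440), .ofNat (nat_lit 466979), .ofNat (nat_lit 451670), .ofNat (nat_lit 458122), .ofNat (nat_lit 462566), .ofNat (nat_lit 469018)⟩, ⟨.ofNat (nat_lit 522148), .ofNat (nat_lit 528687), .ofNat (nat_lit 543875), .ofNat (nat_lit 550414), .ofNat (nat_lit 520075), .ofNat (nat_lit 526527), .ofNat (nat_lit 541869), .ofNat (nat_lit 548321)⟩⟩, [⟨nat_lit 0, nat_lit 100, nat_lit 81, nat_lit 100, nat_lit 573640602⟩, ⟨nat_lit 16, nat_lit 81, nat_lit 100, nat_lit 100, nat_lit 278480659⟩, ⟨nat_lit 23, nat_lit 100, nat_lit 80, nat_lit 100, nat_lit 161227693⟩]⟩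
noncomputable def p096_l13 : Lf2 := ⟨nat_lit 0, nat_lit 15, [nat_lit 30, nat_lit 5, nat_lit 5, nat_lit 20], false, nat_lit 240, nat_lit 280, nat_lit 240, nat_lit 320, ⟨nat_lit 1000, nat_lit 0, nat_lit 0, nat_lit 0, nat_lit 0, nat_lit 0, nat_lit 0, nat_lit 0, nat_lit 0, nat_lit 0, nat_lit 0, nat_lit 0, nat_lit 0, nat_lit 0, nat_lit 0, nat_lit 0, false, false⟩,
 nat_lit 13789, nat_lit 0, nat_lit 0, nat_lit 0, nat_lit 10341, nat_lit 8774, nat_lit 103, nat_lit 0, nat_lit 0, nat_lit 1080, nat_lit 0, nat_lit 0, nat_lit 0, nat_lit 0, nat_lit 0, nat_lit 0, nat_lit 0, nat_lit 0, [],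
 ⟨p096_k0, nat_lit 0, nat_lit 0, nat_lit 152, nat_lit 0, nat_lit 226432, [nat_lit 2032000001, nat_lit 4688000000, nat_lit 7968000000], [], [nat_lit 22225541191, nat_lit 24324123121, nat_lit 21999941871, nat_lit 23960807343, nat_lit 24871423671, nat_lit 26968600356, nat_lit 24452943777, nat_lit 26552895018], nat_lit 1271250, nat_lit 1271250, nat_lit 780000, nat_lit 1100001, nat_lit 1271250, nat_lit 1271250, [nat_lit 490000, nat_lit 1100000, nat_lit 1785000], [nat_lit 34, nat_lit 40, nat_lit 40, nat_lit 80, nat_lit 7, nat_lit 249, nat_lit 40, nat_lit 7]⟩, ⟨p096_k1, nat_lit 0, nat_lit 0, nat_lit 193, nat_lit 0, nat_lit 277975, [nat_lit 3282000000, nat_lit 6250000000, nat_lit 9842000000], [], [nat_lit 18261080280, nat_lit 19013727304, nat_lit 18245247016, nat_lit 18947322038, nat_lit 23188540568, nat_lit 24128331438, nat_lit 23139042024, nat_lit 24020158216], nat_lit 1271250, nat_lit 1271250, nat_lit 780000, nat_lit 1100001,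 nat_lit 1271250, nat_lit 1271250, [nat_lit 780000, nat_lit 1435000, nat_lit 1271250], [nat_lit 8, nat_lit 40, nat_lit 40, nat_lit 80, nat_lit 1, nat_lit 345, nat_lit 125, nat_lit 9]⟩,
 zbF0, [⟨nat_lit 0, nat_lit 99, nat_lit 83, nat_lit 100, nat_lit 397622177⟩, ⟨nat_lit 16, nat_lit 79, nat_lit 100, nat_lit 87, nat_lit 822059059⟩, ⟨nat_lit 19, nat_lit 100, nat_lit 88, nat_lit 94, nat_lit 587216658⟩]⟩
noncomputable def p096_l14 : Lf2 := ⟨nat_lit 0, nat_lit 15, [nat_lit 30, nat_lit 5, nat_lit 5, nat_lit 20], false, nat_lit 240, nat_lit 300, nat_lit 240, nat_lit 336, ⟨nat_lit 1000, nat_lit 0, nat_lit 0, nat_lit 0, nat_lit 0, nat_lit 0, nat_lit 0, nat_lit 0, nat_lit 0, nat_lit 0, nat_lit 0, nat_lit 0, nat_lit 0, nat_lit 0, nat_lit 0, nat_lit 0, false, false⟩,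
 nat_lit 13090, nat_lit 0, nat_lit 0, nat_lit 0, nat_lit 6372, nat_lit 8329, nat_lit 0, nat_lit 0, nat_lit 0, nat_lit 996, nat_lit 0, nat_lit 0, nat_lit 0, nat_lit 0, nat_lit 0, nat_lit 0, nat_lit 0, nat_lit 0, [],
 ⟨p096_k0, nat_lit 0, nat_lit 0, nat_lit 80, nat_lit 0, nat_lit 113266, [nat_lit 2032000001, nat_lit 4688000000, nat_lit 7968000000], [], [nat_lit 20154046720, nat_lit 21054016600, nat_lit 20541562496, nat_lit 21386628488, nat_lit 23829578248, nat_lit 24602310718, nat_lit 23985589604, nat_lit 24712408778], nat_lit 1271250, nat_lit 1271250, nat_lit 780000, nat_lit 1100001, nat_lit 1271250, nat_lit 1271250, [nat_lit 490000, nat_lit 1100000, nat_lit 1785000], [nat_lit 34, nat_lit 40, nat_lit 40, nat_lit 80, nat_lit 7, nat_lit 249, nat_lit 40, nat_lit 7]⟩, ⟨p096_k1, nat_lit 0, nat_lit 0, nat_lit 152, nat_lit 0, nat_lit 139456, [nat_lit 3282000000, nat_lit 6250000000, nat_lit 9842000000], [], [nat_lit 19175457380,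 nat_lit 19905019584, nat_lit 19205074636, nat_lit 19886211073, nat_lit 25207914717, nat_lit 25747276999, nat_lit 24840350541, nat_lit 25573934211], nat_lit 1271250, nat_lit 1271250, nat_lit 780000, nat_lit 1100001, nat_lit 1271250, nat_lit 1271250, [nat_lit 780000, nat_lit 1435000, nat_lit 1271250], [nat_lit 8, nat_lit 40, nat_lit 40, nat_lit 80, nat_lit 1, nat_lit 345, nat_lit 125, nat_lit 9]⟩,
 zbF0, [⟨nat_lit 4, nat_lit 100, nat_lit 86, nat_lit 98, nat_lit 593854881⟩, ⟨nat_lit 19, nat_lit 100, nat_lit 80, nat_lit 100, nat_lit 517875943⟩, ⟨nat_lit 11, nat_lit 85, nat_lit 85, nat_lit 100, nat_lit 40380657⟩]⟩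
noncomputable def p096_l15 : Lf2 := ⟨nat_lit 0, nat_lit 12, [nat_lit 126, nat_lit 5, nat_lit 5, nat_lit 20], false, nat_lit 240, nat_lit 288, nat_lit 240, nat_lit 336, ⟨nat_lit 1000, nat_lit 0, nat_lit 0, nat_lit 0, nat_lit 0, nat_lit 0, nat_lit 0, nat_lit 0, nat_lit 0, nat_lit 0, nat_lit 0, nat_lit 0, nat_lit 0, nat_lit 0, nat_lit 0, nat_lit 0, false, false⟩,
 nat_lit 13212, nat_lit 0, nat_lit 0, nat_lit 0, nat_lit 8265, nat_lit 8407, nat_lit 0, nat_lit 0, nat_lit 0, nat_lit 1033, nat_lit 0, nat_lit 0, nat_lit 0, nat_lit 0, nat_lit 0, nat_lit 0, nat_lit 0, nat_lit 0, [],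
 ⟨p096_k8, nat_lit 0, nat_lit 0, nat_lit 110, nat_lit 0, nat_lit 151895, [nat_lit 2032000001, nat_lit 4688000000, nat_lit 6250000000], [], [nat_lit 22147627870, nat_lit 23134172220, nat_lit 22210517460, nat_lit 23134400580, nat_lit 25141130743, nat_lit 26127332608, nat_lit 25000887130, nat_lit 25939865905], nat_lit 1271250, nat_lit 1271250, nat_lit 780000, nat_lit 1100001, nat_lit 1271250, nat_lit 1271250, [nat_lit 490000, nat_lit 1100000, nat_lit 1442500], [nat_lit 6, nat_lit 40, nat_lit 40, nat_lit 80, nat_lit 3, nat_lit 249, nat_lit 40, nat_lit 8]⟩, ⟨p096_k5, nat_lit 0, nat_lit 0, nat_lit 172, nat_lit 0, nat_lit 195805, [nat_lit 3282000000, nat_lit 6250000000, nat_lit 9842000000], [], [nat_lit 18872685165, nat_lit 19606293697, nat_lit 18894335813, nat_lit 19579142384, nat_lit 24936471899, nat_lit 25798462006, nat_lit 24810962629, nat_lit 25618815224], nat_lit 1271250, nat_lit 1271250, nat_lit 780000, nat_lit 1100001,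 nat_lit 1271250, nat_lit 1271250, [nat_lit 780000, nat_lit 1435000, nat_lit 1271250], [nat_lit 8, nat_lit 40, nat_lit 40, nat_lit 80, nat_lit 1, nat_lit 345, nat_lit 125, nat_lit 9]⟩,
 zbF0, [⟨nat_lit 0, nat_lit 98, nat_lit 80, nat_lit 100, nat_lit 474816285⟩, ⟨nat_lit 4, nat_lit 100, nat_lit 79, nat_lit 96, nat_lit 722611963⟩, ⟨nat_lit 19, nat_lit 100, nat_lit 80, nat_lit 100, nat_lit 563720318⟩]⟩
noncomputable def p096_l16 : Lf2 := ⟨nat_lit 0, nat_lit 15, [nat_lit 30, nat_lit 5, nat_lit 5, nat_lit 20], false, nat_lit 240, nat_lit 288, nat_lit 240, nat_lit 336, ⟨nat_lit 1000, nat_lit 0, nat_lit 0, nat_lit 0, nat_lit 0, nat_lit 0, nat_lit 0, nat_lit 0, nat_lit 0, nat_lit 0, nat_lit 0, nat_lit 0, nat_lit 0, nat_lit 0, nat_lit 0, nat_lit 0, false, false⟩,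
 nat_lit 22143, nat_lit 0, nat_lit 0, nat_lit 0, nat_lit 8376, nat_lit 14090, nat_lit 0, nat_lit 0, nat_lit 0, nat_lit 0, nat_lit 0, nat_lit 0, nat_lit 0, nat_lit 0, nat_lit 0, nat_lit 0, nat_lit 0, nat_lit 0, [],
 ⟨p096_k10, nat_lit 0, nat_lit 0, nat_lit 98, nat_lit 0, nat_lit 115448, [nat_lit 2032000001, nat_lit 6250000000, nat_lit 7968000000], [], [nat_lit 22064195608, nat_lit 23059574448, nat_lit 22115941464, nat_lit 23047950672, nat_lit 25079386572, nat_lit 26210225988, nat_lit 24947520636, nat_lit 26007974794], nat_lit 1271250, nat_lit 1271250, nat_lit 780000, nat_lit 1100001, nat_lit 1271250, nat_lit 1271250, [nat_lit 490000, nat_lit 1427500, nat_lit 1271250], [nat_lit 102, nat_lit 40, nat_lit 40, nat_lit 80, nat_lit 2, nat_lit 249, nat_lit 40, nat_lit 7]⟩, ⟨p096_k11, nat_lit 0, nat_lit 0, nat_lit 158, nat_lit 0, nat_lit 149134, [nat_lit 3282000000, nat_lit 7968000000, nat_lit 9842000000], [], [nat_lit 20665564800,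 nat_lit 21693984640, nat_lit 20106776560, nat_lit 21058985330, nat_lit 28983982329, nat_lit 29809657525, nat_lit 27790292944, nat_lit 28888799785], nat_lit 1271250, nat_lit 1271250, nat_lit 780000, nat_lit 1100001, nat_lit 1271250, nat_lit 1271250, [nat_lit 780000, nat_lit 1762500, nat_lit 1271250], [nat_lit 99, nat_lit 40, nat_lit 40, nat_lit 80, nat_lit 17, nat_lit 345, nat_lit 125, nat_lit 9]⟩,
 zbF0, [⟨nat_lit 0, nat_lit 98, nat_lit 80, nat_lit 100, nat_lit 752600102⟩, ⟨nat_lit 16, nat_lit 83, nat_lit 98, nat_lit 100, nat_lit 663006896⟩, ⟨nat_lit 19, nat_lit 100, nat_lit 80, nat_lit 100, nat_lit 670662065⟩]⟩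
noncomputable def p096_l17 : Lf2 := ⟨nat_lit 0, nat_lit 12, [nat_lit 126, nat_lit 5, nat_lit 5, nat_lit 20], false, nat_lit 240, nat_lit 300, nat_lit 240, nat_lit 328, ⟨nat_lit 1000, nat_lit 0, nat_lit 0, nat_lit 0, nat_lit 0, nat_lit 0, nat_lit 0, nat_lit 0, nat_lit 0, nat_lit 0, nat_lit 0, nat_lit 0, nat_lit 0, nat_lit 0, nat_lit 0, nat_lit 0, false, false⟩,
 nat_lit 13296, nat_lit 0, nat_lit 0, nat_lit 0, nat_lit 9971, nat_lit 8829, nat_lit 112, nat_lit 0, nat_lit 0, nat_lit 855, nat_lit 0, nat_lit 0, nat_lit 0, nat_lit 0, nat_lit 0, nat_lit 0, nat_lit 0, nat_lit 0, [],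
 ⟨p096_k4, nat_lit 0, nat_lit 0, nat_lit 153, nat_lit 0, nat_lit 214213, [nat_lit 2032000001, nat_lit 4688000000, nat_lit 7968000000], [], [nat_lit 22782849602, nat_lit 23823367500, nat_lit 22447548196, nat_lit 23470619111, nat_lit 26739097265, nat_lit 27682182355, nat_lit 26334631516, nat_lit 27208214237], nat_lit 1271250, nat_lit 1271250, nat_lit 689850, nat_lit 780000, nat_lit 1271250, nat_lit 1271250, [nat_lit 490000, nat_lit 1100000, nat_lit 1785000], [nat_lit 34, nat_lit 40, nat_lit 40, nat_lit 80, nat_lit 7, nat_lit 238, nat_lit 30, nat_lit 7]⟩, ⟨p096_k12, nat_lit 0, nat_lit 0, nat_lit 195, nat_lit 0, nat_lit 249406, [nat_lit 3282000000, nat_lit 6250000000, nat_lit 9842000000], [], [nat_lit 19991798863, nat_lit 20760259620, nat_lit 19722605084, nat_lit 20478105288, nat_lit 25498829168, nat_lit 26431313468, nat_lit 25127484519, nat_lit 26045542330], nat_lit 1271250, nat_lit 1271250, nat_lit 689850, nat_lit 780000,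 nat_lit 1271250, nat_lit 1271250, [nat_lit 780000, nat_lit 1435000, nat_lit 1271250], [nat_lit 8, nat_lit 40, nat_lit 40, nat_lit 80, nat_lit 1, nat_lit 345, nat_lit 125, nat_lit 9]⟩,
 zbF0, [⟨nat_lit 0, nat_lit 96, nat_lit 85, nat_lit 100, nat_lit 718011928⟩, ⟨nat_lit 16, nat_lit 87, nat_lit 95, nat_lit 100, nat_lit 251990655⟩, ⟨nat_lit 19, nat_lit 97, nat_lit 84, nat_lit 100, nat_lit 228698488⟩, ⟨nat_lit 11, nat_lit 94, nat_lit 94, nat_lit 100, nat_lit 352353541⟩]⟩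
noncomputable def p096_l18 : Lf2 := ⟨nat_lit 0, nat_lit 15, [nat_lit 30, nat_lit 5, nat_lit 5, nat_lit 20], false, nat_lit 240, nat_lit 300, nat_lit 240, nat_lit 328, ⟨nat_lit 1000, nat_lit 0, nat_lit 0, nat_lit 0, nat_lit 0, nat_lit 0, nat_lit 0, nat_lit 0, nat_lit 0, nat_lit 0, nat_lit 0, nat_lit 0, nat_lit 0, nat_lit 0, nat_lit 0, nat_lit 0, false, false⟩,
 nat_lit 17068, nat_lit 0, nat_lit 0, nat_lit 17739, nat_lit 10914, nat_lit 11335, nat_lit 0, nat_lit 0, nat_lit 0, nat_lit 475, nat_lit 0, nat_lit 0, nat_lit 0, nat_lit 0, nat_lit 0, nat_lit 0, nat_lit 0, nat_lit 0, [],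
 ⟨p096_k0, nat_lit 0, nat_lit 0, nat_lit 142, nat_lit 0, nat_lit 176893, [nat_lit 2032000001, nat_lit 4688000000, nat_lit 7968000000], [], [nat_lit 22870214695, nat_lit 23978966847, nat_lit 22480395064, nat_lit 23570291674, nat_lit 27095890367, nat_lit 28433203657, nat_lit 26575805944, nat_lit 27891117391], nat_lit 1271250, nat_lit 1271250, nat_lit 689850, nat_lit 780000, nat_lit 1271250, nat_lit 1271250, [nat_lit 490000, nat_lit 1100000, nat_lit 1785000], [nat_lit 34, nat_lit 40, nat_lit 40, nat_lit 80, nat_lit 7, nat_lit 238, nat_lit 30, nat_lit 7]⟩, ⟨p096_k13, nat_lit 0, nat_lit 0, nat_lit 180, nat_lit 0, nat_lit 206215, [nat_lit 3282000000, nat_lit 6250000000, nat_lit 9842000000], [], [nat_lit 20879105622, nat_lit 21780601900, nat_lit 20465322660, nat_lit 21350824120, nat_lit 27250183655, nat_lit 28352898630, nat_lit 26703953028, nat_lit 27787503527], nat_lit 1271250, nat_lit 1271250, nat_lit 689850, nat_lit 780000,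 nat_lit 1271250, nat_lit 1271250, [nat_lit 780000, nat_lit 1435000, nat_lit 1271250], [nat_lit 8, nat_lit 40, nat_lit 40, nat_lit 80, nat_lit 1, nat_lit 345, nat_lit 125, nat_lit 9]⟩,
 zbF0, [⟨nat_lit 0, nat_lit 96, nat_lit 85, nat_lit 100, nat_lit 1222521011⟩, ⟨nat_lit 16, nat_lit 87, nat_lit 95, nat_lit 100, nat_lit 667145032⟩, ⟨nat_lit 19, nat_lit 97, nat_lit 84, nat_lit 100, nat_lit 618995750⟩]⟩
noncomputable def p096_l19 : Lf2 := ⟨nat_lit 0, nat_lit 15, [nat_lit 30, nat_lit 5, nat_lit 5, nat_lit 20], false, nat_lit 240, nat_lit 300, nat_lit 240, nat_lit 328, ⟨nat_lit 1000, nat_lit 0, nat_lit 0, nat_lit 0, nat_lit 0, nat_lit 0, nat_lit 0, nat_lit 0, nat_lit 0, nat_lit 0, nat_lit 0, nat_lit 0, nat_lit 0, nat_lit 0, nat_lit 0, nat_lit 0, false, false⟩,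
 nat_lit 13692, nat_lit 0, nat_lit 0, nat_lit 0, nat_lit 10268, nat_lit 9093, nat_lit 85, nat_lit 0, nat_lit 0, nat_lit 770, nat_lit 0, nat_lit 0, nat_lit 0, nat_lit 0, nat_lit 0, nat_lit 0, nat_lit 0, nat_lit 0, [],
 ⟨p096_k0, nat_lit 0, nat_lit 0, nat_lit 141, nat_lit 0, nat_lit 196720, [nat_lit 2032000001, nat_lit 4688000000, nat_lit 7968000000], [], [nat_lit 22402272193, nat_lit 22924331103, nat_lit 22293360513, nat_lit 22798310150, nat_lit 26354968753, nat_lit 26796981692, nat_lit 26102262459, nat_lit 26591751586], nat_lit 1271250, nat_lit 1271250, nat_lit 780000, nat_lit 936251, nat_lit 1271250, nat_lit 1271250, [nat_lit 490000, nat_lit 1100000, nat_lit 1785000], [nat_lit 34, nat_lit 40, nat_lit 40, nat_lit 80, nat_lit 7, nat_lit 249, nat_lit 40, nat_lit 7]⟩, ⟨p096_k13, nat_lit 0, nat_lit 0, nat_lit 182, nat_lit 0, nat_lit 229328, [nat_lit 3282000000, nat_lit 6250000000, nat_lit 9842000000], [], [nat_lit 20124618428,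 nat_lit 20893813896, nat_lit 20074355835, nat_lit 20817496033, nat_lit 25617109403, nat_lit 26229053007, nat_lit 25375616481, nat_lit 26094748738], nat_lit 1271250, nat_lit 1271250, nat_lit 780000, nat_lit 936251, nat_lit 1271250, nat_lit 1271250, [nat_lit 780000, nat_lit 1435000, nat_lit 1271250], [nat_lit 8, nat_lit 40, nat_lit 40, nat_lit 80, nat_lit 1, nat_lit 345, nat_lit 125, nat_lit 9]⟩,
 zbF0, [⟨nat_lit 0, nat_lit 96, nat_lit 86, nat_lit 100, nat_lit 271887386⟩, ⟨nat_lit 16, nat_lit 87, nat_lit 95, nat_lit 100, nat_lit 645818964⟩, ⟨nat_lit 19, nat_lit 97, nat_lit 84, nat_lit 100, nat_lit 565935646⟩]⟩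
noncomputable def p096_l20 : Lf2 := ⟨nat_lit 0, nat_lit 15, [nat_lit 30, nat_lit 5, nat_lit 5, nat_lit 20], false, nat_lit 240, nat_lit 296, nat_lit 240, nat_lit 328, ⟨nat_lit 1000, nat_lit 0, nat_lit 0, nat_lit 0, nat_lit 0, nat_lit 0, nat_lit 0, nat_lit 0, nat_lit 0, nat_lit 0, nat_lit 0, nat_lit 0, nat_lit 0, nat_lit 0, nat_lit 0, nat_lit 0, false, false⟩,
 nat_lit 13326, nat_lit 0, nat_lit 0, nat_lit 0, nat_lit 10190, nat_lit 8850, nat_lit 83, nat_lit 0, nat_lit 0, nat_lit 852, nat_lit 0, nat_lit 0, nat_lit 0, nat_lit 0, nat_lit 0, nat_lit 0, nat_lit 0, nat_lit 0, [],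
 ⟨p096_k2, nat_lit 0, nat_lit 0, nat_lit 148, nat_lit 0, nat_lit 216681, [nat_lit 2032000001, nat_lit 4688000000, nat_lit 7968000000], [], [nat_lit 22954881615, nat_lit 23474176790, nat_lit 22833127438, nat_lit 23335425835, nat_lit 26553773286, nat_lit 26999649706, nat_lit 26301190733, nat_lit 26794795946], nat_lit 1271250, nat_lit 1271250, nat_lit 780000, nat_lit 936251, nat_lit 1271250, nat_lit 1271250, [nat_lit 490000, nat_lit 1100000, nat_lit 1785000], [nat_lit 34, nat_lit 40, nat_lit 40, nat_lit 80, nat_lit 7, nat_lit 249, nat_lit 40, nat_lit 7]⟩, ⟨p096_k13, nat_lit 0, nat_lit 0, nat_lit 192, nat_lit 0, nat_lit 258781, [nat_lit 3282000000, nat_lit 6250000000, nat_lit 9842000000], [], [nat_lit 19727501600, nat_lit 20484091200, nat_lit 19690234525, nat_lit 20421354850, nat_lit 25140683656, nat_lit 26060139770, nat_lit 25052025768, nat_lit 25941665956], nat_lit 1271250, nat_lit 1271250, nat_lit 780000, nat_lit 936251,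 nat_lit 1271250, nat_lit 1271250, [nat_lit 780000, nat_lit 1435000, nat_lit 1271250], [nat_lit 8, nat_lit 40, nat_lit 40, nat_lit 80, nat_lit 1, nat_lit 345, nat_lit 125, nat_lit 9]⟩,
 zbF0, [⟨nat_lit 0, nat_lit 98, nat_lit 86, nat_lit 100, nat_lit 472861172⟩, ⟨nat_lit 16, nat_lit 85, nat_lit 97, nat_lit 100, nat_lit 650426986⟩, ⟨nat_lit 19, nat_lit 97, nat_lit 84, nat_lit 100, nat_lit 570547528⟩]⟩
noncomputable def p096_l21 : Lf2 := ⟨nat_lit 0, nat_lit 15, [nat_lit 30, nat_lit 5, nat_lit 5, nat_lit 20], false, nat_lit 240, nat_lit 300, nat_lit 240, nat_lit 328, ⟨nat_lit 1000, nat_lit 0, nat_lit 0, nat_lit 0, nat_lit 0, nat_lit 0, nat_lit 0, nat_lit 0, nat_lit 0, nat_lit 0, nat_lit 0, nat_lit 0, nat_lit 0, nat_lit 0, nat_lit 0, nat_lit 0, false, false⟩,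
 nat_lit 12233, nat_lit 0, nat_lit 0, nat_lit 0, nat_lit 9174, nat_lit 8124, nat_lit 246, nat_lit 0, nat_lit 0, nat_lit 900, nat_lit 0, nat_lit 0, nat_lit 0, nat_lit 0, nat_lit 0, nat_lit 0, nat_lit 0, nat_lit 0, [],
 ⟨p096_k0, nat_lit 0, nat_lit 0, nat_lit 146, nat_lit 0, nat_lit 221985, [nat_lit 2032000001, nat_lit 4688000000, nat_lit 7968000000], [], [nat_lit 22104700334, nat_lit 23040228941, nat_lit 22054055094, nat_lit 22958520798, nat_lit 25684891187, nat_lit 26480889481, nat_lit 25503426720, nat_lit 26330737381], nat_lit 1271250, nat_lit 1271250, nat_lit 936251, nat_lit 1100001, nat_lit 1271250, nat_lit 1271250, [nat_lit 490000, nat_lit 1100000, nat_lit 1785000], [nat_lit 34, nat_lit 40, nat_lit 40, nat_lit 80, nat_lit 7, nat_lit 249, nat_lit 40, nat_lit 7]⟩, ⟨p096_k13, nat_lit 0, nat_lit 0, nat_lit 186, nat_lit 0, nat_lit 258781, [nat_lit 3282000000, nat_lit 6250000000, nat_lit 9842000000], [], [nat_lit 19960923946,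 nat_lit 20656133044, nat_lit 19962482988, nat_lit 20633973560, nat_lit 24956647991, nat_lit 25487175670, nat_lit 24783924079, nat_lit 25413129626], nat_lit 1271250, nat_lit 1271250, nat_lit 936251, nat_lit 1100001, nat_lit 1271250, nat_lit 1271250, [nat_lit 780000, nat_lit 1435000, nat_lit 1271250], [nat_lit 8, nat_lit 40, nat_lit 40, nat_lit 80, nat_lit 1, nat_lit 345, nat_lit 125, nat_lit 9]⟩,
 zbF0, [⟨nat_lit 16, nat_lit 87, nat_lit 95, nat_lit 100, nat_lit 604383667⟩, ⟨nat_lit 19, nat_lit 97, nat_lit 84, nat_lit 100, nat_lit 536545506⟩]⟩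
noncomputable def p096_l22 : Lf2 := ⟨nat_lit 0, nat_lit 15, [nat_lit 30, nat_lit 5, nat_lit 5, nat_lit 20], false, nat_lit 240, nat_lit 288, nat_lit 240, nat_lit 328, ⟨nat_lit 1000, nat_lit 0, nat_lit 0, nat_lit 0, nat_lit 0, nat_lit 0, nat_lit 0, nat_lit 0, nat_lit 0, nat_lit 0, nat_lit 0, nat_lit 0, nat_lit 0, nat_lit 0, nat_lit 0, nat_lit 0, false, false⟩,
 nat_lit 12640, nat_lit 0, nat_lit 0, nat_lit 0, nat_lit 9853, nat_lit 8394, nat_lit 159, nat_lit 0, nat_lit 0, nat_lit 921, nat_lit 0, nat_lit 0, nat_lit 0, nat_lit 0, nat_lit 0, nat_lit 0, nat_lit 0, nat_lit 0, [],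
 ⟨p096_k3, nat_lit 0, nat_lit 0, nat_lit 164, nat_lit 0, nat_lit 260825, [nat_lit 2032000001, nat_lit 4688000000, nat_lit 7968000000], [], [nat_lit 23079909123, nat_lit 24094617968, nat_lit 22840248606, nat_lit 23788914494, nat_lit 26045214784, nat_lit 27313230682, nat_lit 25727650176, nat_lit 26914252541], nat_lit 1271250, nat_lit 1271250, nat_lit 780000, nat_lit 1100001, nat_lit 1271250, nat_lit 1271250, [nat_lit 490000, nat_lit 1100000, nat_lit 1785000], [nat_lit 34, nat_lit 40, nat_lit 40, nat_lit 80, nat_lit 7, nat_lit 249, nat_lit 40, nat_lit 7]⟩, ⟨p096_k13, nat_lit 0, nat_lit 0, nat_lit 213, nat_lit 0, nat_lit 319015, [nat_lit 3282000000, nat_lit 6250000000, nat_lit 9842000000], [], [nat_lit 19593405824, nat_lit 20326339968, nat_lit 19567644978, nat_lit 20251839860, nat_lit 24854073839, nat_lit 25743166783, nat_lit 24733593676, nat_lit 25565632214], nat_lit 1271250, nat_lit 1271250, nat_lit 780000, nat_lit 1100001,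 nat_lit 1271250, nat_lit 1271250, [nat_lit 780000, nat_lit 1435000, nat_lit 1271250], [nat_lit 8, nat_lit 40, nat_lit 40, nat_lit 80, nat_lit 1, nat_lit 345, nat_lit 125, nat_lit 9]⟩,
 zbF0, [⟨nat_lit 0, nat_lit 97, nat_lit 82, nat_lit 100, nat_lit 730665170⟩, ⟨nat_lit 16, nat_lit 83, nat_lit 98, nat_lit 100, nat_lit 647009015⟩, ⟨nat_lit 19, nat_lit 97, nat_lit 84, nat_lit 100, nat_lit 556122545⟩]⟩
noncomputable def b_V_800_700_20_36 : St := ⟨true, nat_lit 1, nat_lit 1, nat_lit 1, nat_lit 120, nat_lit 320, nat_lit 340, nat_lit 280, nat_lit 300, nat_lit 100, nat_lit 160, nat_lit 80, nat_lit 120, nat_lit 160, nat_lit 300, nat_lit 240, nat_lit 336, nat_lit 40, nat_lit 60, nat_lit 0, nat_lit 0, nat_lit 0, nat_lit 0⟩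
theorem d_V_800_700_20_36 (h : EB TB.env) : Dead b_V_800_700_20_36 := chkB_sound0 h (T :=
(.spl (nat_lit 4) (nat_lit 240)
(.leaf p096_l0)
(.spl (nat_lit 1) (nat_lit 290)
(.spl (nat_lit 2) (nat_lit 120)
(.spl (nat_lit 5) (nat_lit 280)
(.leaf p096_l1)
(.spl (nat_lit 3) (nat_lit 100)
(.trX (nat_lit 16) (nat_lit 87) (nat_lit 100) (nat_lit 94) (nat_lit 280) (.trX (nat_lit 19) (nat_lit 100) (nat_lit 88) (nat_lit 94) (nat_lit 320) (.leaf p096_l2)))
(.spl (nat_lit 4) (nat_lit 280)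
(.spl (nat_lit 0) (nat_lit 330)
(.spl (nat_lit 0) (nat_lit 325)
(.leaf p096_l3)
(.trZ (nat_lit 0) (nat_lit 100) (nat_lit 85) (nat_lit 97) (nat_lit 104) (.leaf p096_l4)))
(.trZ (nat_lit 0) (nat_lit 100) (nat_lit 83) (nat_lit 98) (nat_lit 112) (.leaf p096_l5)))
(.spl (nat_lit 0) (nat_lit 330)
(.spl (nat_lit 6) (nat_lit 48)
(.spl (nat_lit 0) (nat_lit 325)
(.leaf p096_l6)
(.trZ (nat_lit 0) (nat_lit 100) (nat_lit 85) (nat_lit 97) (nat_lit 104) (.trX (nat_lit 16) (nat_lit 85) (nat_lit 97) (nat_lit 100) (nat_lit 296) (.spl (nat_lit 0) (nat_lit 328)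
(.leaf p096_l7)
(.trZ (nat_lit 0) (nat_lit 100) (nat_lit 84) (nat_lit 98) (nat_lit 108) (.trX (nat_lit 16) (nat_lit 84) (nat_lit 98) (nat_lit 100) (nat_lit 292) (.leaf p096_l8)))))))
(.leaf p096_l9))
(.trZ (nat_lit 0) (nat_lit 100) (nat_lit 83) (nat_lit 98) (nat_lit 112) (.trX (nat_lit 16) (nat_lit 83) (nat_lit 98) (nat_lit 100) (nat_lit 288) (.spl (nat_lit 6) (nat_lit 48)
(.leaf p096_l10)
(.spl (nat_lit 0) (nat_lit 335)
(.leaf p096_l11)
(.trZ (nat_lit 0) (nat_lit 100) (nat_lit 81) (nat_lit 100) (nat_lit 116) (.trX (nat_lit 16) (nat_lit 81) (nat_lit 100) (nat_lit 100) (nat_lit 284) (.leaf p096_l12)))))))))))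
(.spl (nat_lit 3) (nat_lit 100)
(.trX (nat_lit 16) (nat_lit 87) (nat_lit 100) (nat_lit 94) (nat_lit 280) (.trX (nat_lit 19) (nat_lit 100) (nat_lit 88) (nat_lit 94) (nat_lit 320) (.leaf p096_l13)))
(.spl (nat_lit 0) (nat_lit 330)
(.leaf p096_l14)
(.trX (nat_lit 16) (nat_lit 83) (nat_lit 98) (nat_lit 100) (nat_lit 288) (.spl (nat_lit 6) (nat_lit 48)
(.leaf p096_l15)
(.leaf p096_l16))))))
(.trZ (nat_lit 0) (nat_lit 100) (nat_lit 89) (nat_lit 100) (nat_lit 108) (.trX (nat_lit 19) (nat_lit 97) (nat_lit 84) (nat_lit 100) (nat_lit 328) (.spl (nat_lit 0) (nat_lit 330)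
(.spl (nat_lit 2) (nat_lit 140)
(.spl (nat_lit 2) (nat_lit 120)
(.spl (nat_lit 6) (nat_lit 48)
(.leaf p096_l17)
(.leaf p096_l18))
(.spl (nat_lit 0) (nat_lit 325)
(.leaf p096_l19)
(.trX (nat_lit 16) (nat_lit 85) (nat_lit 97) (nat_lit 100) (nat_lit 296) (.leaf p096_l20))))
(.leaf p096_l21))
(.trZ (nat_lit 0) (nat_lit 97) (nat_lit 82) (nat_lit 100) (nat_lit 120) (.trX (nat_lit 16) (nat_lit 83) (nat_lit 98) (nat_lit 100) (nat_lit 288) (.leaf p096_l22))))))))) (by decide +kernel)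
noncomputable def p096_l23 : Lf2 := ⟨nat_lit 0, nat_lit 20, [nat_lit 5, nat_lit 5, nat_lit 5, nat_lit 20], false, nat_lit 160, nat_lit 240, nat_lit 240, nat_lit 336, ⟨nat_lit 667, nat_lit 0, nat_lit 333, nat_lit 7, nat_lit 193, nat_lit 333, nat_lit 157, nat_lit 333, nat_lit 67907, nat_lit 278, nat_lit 7971, nat_lit 235, nat_lit 46147159, nat_lit 0, nat_lit 0, nat_lit 4464785, false, false⟩,
 nat_lit 12152, nat_lit 1679, nat_lit 0, nat_lit 0, nat_lit 10373, nat_lit 7733, nat_lit 144, nat_lit 0, nat_lit 0, nat_lit 535, nat_lit 0, nat_lit 0, nat_lit 0, nat_lit 0, nat_lit 0, nat_lit 63270, nat_lit 0, nat_lit 0, [(nat_lit 19, [(nat_lit 3, nat_lit 333)])],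
 ⟨p096_k14, nat_lit 0, nat_lit 0, nat_lit 164, nat_lit 0, nat_lit 177724, [nat_lit 6355139201, nat_lit 3099323600, nat_lit 6033279200], [], [nat_lit 20274345042, nat_lit 22584884113, nat_lit 19584341197, nat_lit 21615029318, nat_lit 22580301320, nat_lit 24523641979, nat_lit 21496736108, nat_lit 23263098738], nat_lit 1271250, nat_lit 1271250, nat_lit 631250, nat_lit 1100001, nat_lit 1100001, nat_lit 1785000, [nat_lit 490000, nat_lit 1100000, nat_lit 2127500], [nat_lit 27, nat_lit 40, nat_lit 40, nat_lit 80, nat_lit 13, nat_lit 317, nat_lit 100, nat_lit 8]⟩, ⟨p096_k15, nat_lit 0, nat_lit 0, nat_lit 219, nat_lit 0, nat_lit 219403, [nat_lit 2189094000, nat_lit 4168750000, nat_lit 7918624000], [], [nat_lit 14346997039, nat_lit 15418659369, nat_lit 13442166085, nat_lit 14407970381, nat_lit 18684971728, nat_lit 20088948749, nat_lit 17647893221, nat_lit 18973657160], nat_lit 1271250, nat_lit 1271250, nat_lit 631250, nat_lit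 1100001, nat_lit 1271250, nat_lit 1271250, [nat_lit 780000, nat_lit 1435000, nat_lit 1271250], [nat_lit 23, nat_lit 40, nat_lit 40, nat_lit 80, nat_lit 12, nat_lit 428, nat_lit 200, nat_lit 10]⟩,
 ⟨nat_lit 3872, nat_lit 4473, ⟨.ofNat (nat_lit 416230), .ofNat (nat_lit 518209), .ofNat (nat_lit 437779), .ofNat (nat_lit 539758), .ofNat (nat_lit 425778), .ofNat (nat_lit 522572), .ofNat (nat_lit 447554), .ofNat (nat_lit 544349)⟩, ⟨.ofNat (nat_lit 302621), .ofNat (nat_lit 438578), .ofNat (nat_lit 345754), .ofNat (nat_lit 481711), .ofNat (nat_lit 304717), .ofNat (nat_lit 433760), .ofNat (nat_lit 348304), .ofNat (nat_lit 477347)⟩⟩, [⟨nat_lit 0, nat_lit 97, nat_lit 82, nat_lit 100, nat_lit 705480692⟩, ⟨nat_lit 7, nat_lit 94, nat_lit 100, nat_lit 97, nat_lit 397987461⟩]⟩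
noncomputable def p096_l24 : Lf2 := ⟨nat_lit 0, nat_lit 18, [nat_lit 100, nat_lit 5, nat_lit 5, nat_lit 20], false, nat_lit 240, nat_lit 300, nat_lit 240, nat_lit 336, ⟨nat_lit 1000, nat_lit 0, nat_lit 0, nat_lit 0, nat_lit 0, nat_lit 0, nat_lit 0, nat_lit 0, nat_lit 0, nat_lit 0, nat_lit 0, nat_lit 0, nat_lit 0, nat_lit 0, nat_lit 0, nat_lit 0, false, false⟩,
 nat_lit 16650, nat_lit 0, nat_lit 0, nat_lit 32828, nat_lit 8210, nat_lit 10595, nat_lit 0, nat_lit 0, nat_lit 0, nat_lit 815, nat_lit 0, nat_lit 0, nat_lit 0, nat_lit 0, nat_lit 0, nat_lit 0, nat_lit 0, nat_lit 0, [],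
 ⟨p096_k16, nat_lit 0, nat_lit 0, nat_lit 83, nat_lit 0, nat_lit 55104, [nat_lit 2032000001, nat_lit 6250000000, nat_lit 9842000000], [], [nat_lit 21547304720, nat_lit 22052035350, nat_lit 21337522760, nat_lit 21797451100, nat_lit 25529368595, nat_lit 25959355335, nat_lit 24948185840, nat_lit 25340739307], nat_lit 1271250, nat_lit 1271250, nat_lit 631250, nat_lit 1100001, nat_lit 1271250, nat_lit 1271250, [nat_lit 490000, nat_lit 1427500, nat_lit 1271250], [nat_lit 61, nat_lit 40, nat_lit 40, nat_lit 80, nat_lit 1, nat_lit 345, nat_lit 125, nat_lit 9]⟩, ⟨p096_k17, nat_lit 0, nat_lit 0, nat_lit 169, nat_lit 0, nat_lit 67956, [nat_lit 3282000000, nat_lit 7968000000, nat_lit 11872000000], [], [nat_lit 21479718175, nat_lit 22238697860, nat_lit 20346503995, nat_lit 21032022180, nat_lit 27651226530, nat_lit 28199285859, nat_lit 26205874800, nat_lit 26877785173], nat_lit 1271250, nat_lit 1271250, nat_lit 631250, nat_lit 1100001,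 nat_lit 1271250, nat_lit 1271250, [nat_lit 780000, nat_lit 1762500, nat_lit 1271250], [nat_lit 79, nat_lit 40, nat_lit 40, nat_lit 80, nat_lit 14, nat_lit 428, nat_lit 200, nat_lit 10]⟩,
 zbF0, [⟨nat_lit 0, nat_lit 98, nat_lit 86, nat_lit 100, nat_lit 781915973⟩, ⟨nat_lit 16, nat_lit 85, nat_lit 100, nat_lit 94, nat_lit 706823293⟩, ⟨nat_lit 7, nat_lit 91, nat_lit 100, nat_lit 96, nat_lit 581443334⟩]⟩
noncomputable def p096_l25 : Lf2 := ⟨nat_lit 0, nat_lit 18, [nat_lit 100, nat_lit 5, nat_lit 5, nat_lit 20], false, nat_lit 240, nat_lit 296, nat_lit 240, nat_lit 336, ⟨nat_lit 1000, nat_lit 0, nat_lit 0, nat_lit 0, nat_lit 0, nat_lit 0, nat_lit 0, nat_lit 0, nat_lit 0, nat_lit 0, nat_lit 0, nat_lit 0, nat_lit 0, nat_lit 0, nat_lit 0, nat_lit 0, false, false⟩,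
 nat_lit 16675, nat_lit 0, nat_lit 0, nat_lit 29049, nat_lit 8188, nat_lit 10611, nat_lit 0, nat_lit 0, nat_lit 0, nat_lit 812, nat_lit 0, nat_lit 0, nat_lit 0, nat_lit 0, nat_lit 0, nat_lit 0, nat_lit 0, nat_lit 0, [],
 ⟨p096_k18, nat_lit 0, nat_lit 0, nat_lit 91, nat_lit 0, nat_lit 79534, [nat_lit 2032000001, nat_lit 6250000000, nat_lit 7968000000], [], [nat_lit 21996975693, nat_lit 22498077057, nat_lit 21817001180, nat_lit 22276124232, nat_lit 25618592679, nat_lit 26050528755, nat_lit 25119427420, nat_lit 25515811808], nat_lit 1271250, nat_lit 1271250, nat_lit 660400, nat_lit 1100001, nat_lit 1271250, nat_lit 1271250, [nat_lit 490000, nat_lit 1427500, nat_lit 1271250], [nat_lit 102, nat_lit 40, nat_lit 40, nat_lit 80, nat_lit 2, nat_lit 249, nat_lit 40, nat_lit 7]⟩, ⟨p096_k17, nat_lit 0, nat_lit 0, nat_lit 179, nat_lit 0, nat_lit 100504, [nat_lit 3282000000, nat_lit 7968000000, nat_lit 11872000000], [], [nat_lit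 21362398745, nat_lit 22117751814, nat_lit 20364727856, nat_lit 21050862409, nat_lit 27503647882, nat_lit 28045704092, nat_lit 26195246960, nat_lit 26886991534], nat_lit 1271250, nat_lit 1271250, nat_lit 660400, nat_lit 1100001, nat_lit 1271250, nat_lit 1271250, [nat_lit 780000, nat_lit 1762500, nat_lit 1271250], [nat_lit 79, nat_lit 40, nat_lit 40, nat_lit 80, nat_lit 14, nat_lit 428, nat_lit 200, nat_lit 10]⟩,
 zbF0, [⟨nat_lit 0, nat_lit 97, nat_lit 82, nat_lit 100, nat_lit 823436914⟩, ⟨nat_lit 4, nat_lit 100, nat_lit 82, nat_lit 92, nat_lit 736132757⟩, ⟨nat_lit 7, nat_lit 91, nat_lit 100, nat_lit 96, nat_lit 575166792⟩]⟩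
noncomputable def p096_l26 : Lf2 := ⟨nat_lit 0, nat_lit 18, [nat_lit 100, nat_lit 5, nat_lit 5, nat_lit 20], false, nat_lit 240, nat_lit 268, nat_lit 240, nat_lit 320, ⟨nat_lit 1000, nat_lit 0, nat_lit 0, nat_lit 0, nat_lit 0, nat_lit 0, nat_lit 0, nat_lit 0, nat_lit 0, nat_lit 0, nat_lit 0, nat_lit 0, nat_lit 0, nat_lit 0, nat_lit 0, nat_lit 0, false, false⟩,
 nat_lit 17986, nat_lit 0, nat_lit 0, nat_lit 5508, nat_lit 11397, nat_lit 11445, nat_lit 0, nat_lit 0, nat_lit 0, nat_lit 876, nat_lit 0, nat_lit 0, nat_lit 0, nat_lit 0, nat_lit 0, nat_lit 0, nat_lit 0, nat_lit 0, [],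
 ⟨p096_k19, nat_lit 0, nat_lit 0, nat_lit 121, nat_lit 0, nat_lit 123513, [nat_lit 2032000001, nat_lit 6250000000, nat_lit 7968000000], [], [nat_lit 23527284443, nat_lit 24664460180, nat_lit 22822702644, nat_lit 23871876756, nat_lit 25429343247, nat_lit 26944835715, nat_lit 24704298406, nat_lit 26104338677], nat_lit 1271250, nat_lit 1271250, nat_lit 719601, nat_lit 1100001, nat_lit 1271250, nat_lit 1271250, [nat_lit 490000, nat_lit 1427500, nat_lit 1271250], [nat_lit 102, nat_lit 40, nat_lit 40, nat_lit 80, nat_lit 2, nat_lit 249, nat_lit 40, nat_lit 7]⟩, ⟨p096_k17, nat_lit 0, nat_lit 0, nat_lit 191, nat_lit 0, nat_lit 159331, [nat_lit 3282000000, nat_lit 7968000000, nat_lit 11872000000], [], [nat_lit 19936081629, nat_lit 20718948023, nat_lit 19081283720, nat_lit 19799546455, nat_lit 24909794129, nat_lit 25958157374, nat_lit 24124309820, nat_lit 25175055880], nat_lit 1271250, nat_lit 1271250, nat_lit 719601, nat_lit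 1100001, nat_lit 1271250, nat_lit 1271250, [nat_lit 780000, nat_lit 1762500, nat_lit 1271250], [nat_lit 79, nat_lit 40, nat_lit 40, nat_lit 80, nat_lit 14, nat_lit 428, nat_lit 200, nat_lit 10]⟩,
 zbF0, [⟨nat_lit 0, nat_lit 98, nat_lit 80, nat_lit 100, nat_lit 882034736⟩, ⟨nat_lit 16, nat_lit 81, nat_lit 100, nat_lit 92, nat_lit 766223106⟩, ⟨nat_lit 19, nat_lit 100, nat_lit 88, nat_lit 94, nat_lit 589970508⟩]⟩
noncomputable def p096_l27 : Lf2 := ⟨nat_lit 0, nat_lit 18, [nat_lit 100, nat_lit 5, nat_lit 5, nat_lit 20], false, nat_lit 240, nat_lit 288, nat_lit 240, nat_lit 336, ⟨nat_lit 1000, nat_lit 0, nat_lit 0, nat_lit 0, nat_lit 0, nat_lit 0, nat_lit 0, nat_lit 0, nat_lit 0, nat_lit 0, nat_lit 0, nat_lit 0, nat_lit 0, nat_lit 0, nat_lit 0, nat_lit 0, false, false⟩,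
 nat_lit 16613, nat_lit 0, nat_lit 0, nat_lit 27418, nat_lit 8136, nat_lit 10571, nat_lit 0, nat_lit 0, nat_lit 0, nat_lit 822, nat_lit 0, nat_lit 0, nat_lit 0, nat_lit 0, nat_lit 0, nat_lit 0, nat_lit 0, nat_lit 0, [],
 ⟨p096_k19, nat_lit 0, nat_lit 0, nat_lit 84, nat_lit 0, nat_lit 60859, [nat_lit 2032000001, nat_lit 6250000000, nat_lit 7968000000], [], [nat_lit 22388907760, nat_lit 23376020871, nat_lit 22320430104, nat_lit 23234869392, nat_lit 25390287022, nat_lit 26260961133, nat_lit 25088191930, nat_lit 25895664941], nat_lit 1271250, nat_lit 1271250, nat_lit 719601, nat_lit 1100001, nat_lit 1271250, nat_lit 1271250, [nat_lit 490000, nat_lit 1427500, nat_lit 1271250], [nat_lit 102, nat_lit 40, nat_lit 40, nat_lit 80, nat_lit 2, nat_lit 249, nat_lit 40, nat_lit 7]⟩, ⟨p096_k17, nat_lit 0, nat_lit 0, nat_lit 167, nat_lit 0, nat_lit 78773, [nat_lit 3282000000, nat_lit 7968000000, nat_lit 11872000000], [], [nat_lit 21006767389,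 nat_lit 21751710050, nat_lit 20293832266, nat_lit 20978425899, nat_lit 27063882975, nat_lit 27754869997, nat_lit 26221816560, nat_lit 26865190816], nat_lit 1271250, nat_lit 1271250, nat_lit 719601, nat_lit 1100001, nat_lit 1271250, nat_lit 1271250, [nat_lit 780000, nat_lit 1762500, nat_lit 1271250], [nat_lit 79, nat_lit 40, nat_lit 40, nat_lit 80, nat_lit 14, nat_lit 428, nat_lit 200, nat_lit 10]⟩,
 zbF0, [⟨nat_lit 0, nat_lit 94, nat_lit 75, nat_lit 100, nat_lit 926404113⟩, ⟨nat_lit 4, nat_lit 100, nat_lit 79, nat_lit 96, nat_lit 676914046⟩, ⟨nat_lit 7, nat_lit 87, nat_lit 100, nat_lit 99, nat_lit 559884390⟩]⟩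
noncomputable def p096_l28 : Lf2 := ⟨nat_lit 0, nat_lit 20, [nat_lit 5, nat_lit 5, nat_lit 5, nat_lit 20], false, nat_lit 240, nat_lit 300, nat_lit 240, nat_lit 336, ⟨nat_lit 1000, nat_lit 0, nat_lit 0, nat_lit 0, nat_lit 0, nat_lit 0, nat_lit 0, nat_lit 0, nat_lit 0, nat_lit 0, nat_lit 0, nat_lit 0, nat_lit 0, nat_lit 0, nat_lit 0, nat_lit 0, false, false⟩,
 nat_lit 7660, nat_lit 4438, nat_lit 0, nat_lit 46429, nat_lit 9073, nat_lit 4874, nat_lit 0, nat_lit 0, nat_lit 0, nat_lit 0, nat_lit 0, nat_lit 0, nat_lit 0, nat_lit 0, nat_lit 0, nat_lit 0, nat_lit 0, nat_lit 0, [],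
 ⟨p096_k20, nat_lit 0, nat_lit 0, nat_lit 77, nat_lit 0, nat_lit 26337, [nat_lit 2032000001, nat_lit 6250000000, nat_lit 9842000000], [], [nat_lit 20909230136, nat_lit 21989764624, nat_lit 20539037188, nat_lit 21522072372, nat_lit 26056055532, nat_lit 27239733537, nat_lit 25190959798, nat_lit 26270957350], nat_lit 1271250, nat_lit 1271250, nat_lit 631250, nat_lit 1100001, nat_lit 1271250, nat_lit 1271250, [nat_lit 490000, nat_lit 1427500, nat_lit 1271250], [nat_lit 61, nat_lit 40, nat_lit 40, nat_lit 80, nat_lit 1, nat_lit 345, nat_lit 125, nat_lit 9]⟩, ⟨p096_k21, nat_lit 0, nat_lit 0, nat_lit 95, nat_lit 0, nat_lit 32513, [nat_lit 3282000000, nat_lit 7968000000, nat_lit 11872000000], [], [nat_lit 16328853060, nat_lit 17104669589, nat_lit 17153231296, nat_lit 17863609032, nat_lit 22882567130, nat_lit 23476445420, nat_lit 23167101791, nat_lit 23714133466], nat_lit 1271250, nat_lit 1271250, nat_lit 631250, nat_lit 1100001,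 nat_lit 1271250, nat_lit 1271250, [nat_lit 780000, nat_lit 1762500, nat_lit 1271250], [nat_lit 79, nat_lit 40, nat_lit 40, nat_lit 80, nat_lit 14, nat_lit 428, nat_lit 200, nat_lit 10]⟩,
 zbF0, [⟨nat_lit 0, nat_lit 97, nat_lit 82, nat_lit 100, nat_lit 640374033⟩, ⟨nat_lit 4, nat_lit 100, nat_lit 84, nat_lit 93, nat_lit 866142836⟩, ⟨nat_lit 7, nat_lit 91, nat_lit 100, nat_lit 96, nat_lit 603935757⟩]⟩
noncomputable def p096_l29 : Lf2 := ⟨nat_lit 0, nat_lit 20, [nat_lit 5, nat_lit 5, nat_lit 5, nat_lit 20], false, nat_lit 240, nat_lit 288, nat_lit 240, nat_lit 336, ⟨nat_lit 1000, nat_lit 0, nat_lit 0, nat_lit 0, nat_lit 0, nat_lit 0, nat_lit 0, nat_lit 0, nat_lit 0, nat_lit 0, nat_lit 0, nat_lit 0, nat_lit 0, nat_lit 0, nat_lit 0, nat_lit 0, false, false⟩,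
 nat_lit 19314, nat_lit 0, nat_lit 0, nat_lit 29438, nat_lit 8839, nat_lit 12290, nat_lit 0, nat_lit 0, nat_lit 0, nat_lit 645, nat_lit 0, nat_lit 0, nat_lit 0, nat_lit 0, nat_lit 0, nat_lit 0, nat_lit 0, nat_lit 0, [],
 ⟨p096_k22, nat_lit 0, nat_lit 0, nat_lit 89, nat_lit 0, nat_lit 76745, [nat_lit 2032000001, nat_lit 6250000000, nat_lit 9842000000], [], [nat_lit 21887113390, nat_lit 22930956070, nat_lit 21721448796, nat_lit 22687353308, nat_lit 25632507522, nat_lit 26819578010, nat_lit 25192070383, nat_lit 26292068631], nat_lit 1271250, nat_lit 1271250, nat_lit 719601, nat_lit 1100001, nat_lit 1271250, nat_lit 1271250, [nat_lit 490000, nat_lit 1427500, nat_lit 1271250], [nat_lit 61, nat_lit 40, nat_lit 40, nat_lit 80, nat_lit 1, nat_lit 345, nat_lit 125, nat_lit 9]⟩, ⟨p096_k21, nat_lit 0, nat_lit 0, nat_lit 175, nat_lit 0, nat_lit 99462, [nat_lit 3282000000, nat_lit 7968000000, nat_lit 11872000000], [], [nat_lit 21771060542,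 nat_lit 22590592331, nat_lit 20779106965, nat_lit 21529921635, nat_lit 28385598596, nat_lit 28964884780, nat_lit 26821266798, nat_lit 27853084105], nat_lit 1271250, nat_lit 1271250, nat_lit 719601, nat_lit 1100001, nat_lit 1271250, nat_lit 1271250, [nat_lit 780000, nat_lit 1762500, nat_lit 1271250], [nat_lit 79, nat_lit 40, nat_lit 40, nat_lit 80, nat_lit 14, nat_lit 428, nat_lit 200, nat_lit 10]⟩,
 zbF0, [⟨nat_lit 0, nat_lit 94, nat_lit 75, nat_lit 100, nat_lit 940894254⟩, ⟨nat_lit 4, nat_lit 100, nat_lit 77, nat_lit 91, nat_lit 915268106⟩, ⟨nat_lit 7, nat_lit 91, nat_lit 100, nat_lit 96, nat_lit 601415335⟩]⟩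
noncomputable def p096_l30 : Lf2 := ⟨nat_lit 0, nat_lit 18, [nat_lit 100, nat_lit 5, nat_lit 5, nat_lit 20], false, nat_lit 240, nat_lit 300, nat_lit 240, nat_lit 328, ⟨nat_lit 1000, nat_lit 0, nat_lit 0, nat_lit 0, nat_lit 0, nat_lit 0, nat_lit 0, nat_lit 0, nat_lit 0, nat_lit 0, nat_lit 0, nat_lit 0, nat_lit 0, nat_lit 0, nat_lit 0, nat_lit 0, false, false⟩,
 nat_lit 21671, nat_lit 0, nat_lit 0, nat_lit 17079, nat_lit 13814, nat_lit 14392, nat_lit 0, nat_lit 0, nat_lit 0, nat_lit 0, nat_lit 0, nat_lit 0, nat_lit 0, nat_lit 0, nat_lit 0, nat_lit 0, nat_lit 0, nat_lit 0, [],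
 ⟨p096_k23, nat_lit 0, nat_lit 0, nat_lit 151, nat_lit 0, nat_lit 120227, [nat_lit 2032000001, nat_lit 4688000000, nat_lit 9842000000], [], [nat_lit 25569625831, nat_lit 26747777080, nat_lit 24125703944, nat_lit 25203835114, nat_lit 29757038963, nat_lit 30743734383, nat_lit 27901626656, nat_lit 29077067541], nat_lit 1271250, nat_lit 1271250, nat_lit 689850, nat_lit 1100001, nat_lit 1271250, nat_lit 1271250, [nat_lit 490000, nat_lit 1100000, nat_lit 2127500], [nat_lit 27, nat_lit 40, nat_lit 40, nat_lit 80, nat_lit 13, nat_lit 345, nat_lit 125, nat_lit 9]⟩, ⟨p096_k24, nat_lit 0, nat_lit 0, nat_lit 157, nat_lit 0, nat_lit 140322, [nat_lit 3282000000, nat_lit 6250000000, nat_lit 9842000000], [], [nat_lit 22043935935, nat_lit 23107718561, nat_lit 20786471704, nat_lit 21752890480, nat_lit 29440183530, nat_lit 30696987154, nat_lit 27755930694, nat_lit 28953448965], nat_lit 1271250, nat_lit 1271250, nat_lit 689850, nat_lit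 1100001, nat_lit 1271250, nat_lit 1271250, [nat_lit 780000, nat_lit 1435000, nat_lit 1271250], [nat_lit 8, nat_lit 40, nat_lit 40, nat_lit 80, nat_lit 1, nat_lit 345, nat_lit 125, nat_lit 9]⟩,
 zbF0, [⟨nat_lit 0, nat_lit 96, nat_lit 85, nat_lit 100, nat_lit 666236056⟩, ⟨nat_lit 0, nat_lit 92, nat_lit 81, nat_lit 100, nat_lit 397527266⟩, ⟨nat_lit 4, nat_lit 100, nat_lit 84, nat_lit 93, nat_lit 732377171⟩, ⟨nat_lit 19, nat_lit 97, nat_lit 84, nat_lit 100, nat_lit 662562702⟩]⟩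
noncomputable def p096_l31 : Lf2 := ⟨nat_lit 0, nat_lit 18, [nat_lit 100, nat_lit 5, nat_lit 5, nat_lit 20], false, nat_lit 240, nat_lit 288, nat_lit 240, nat_lit 328, ⟨nat_lit 1000, nat_lit 0, nat_lit 0, nat_lit 0, nat_lit 0, nat_lit 0, nat_lit 0, nat_lit 0, nat_lit 0, nat_lit 0, nat_lit 0, nat_lit 0, nat_lit 0, nat_lit 0, nat_lit 0, nat_lit 0, false, false⟩,
 nat_lit 21379, nat_lit 0, nat_lit 0, nat_lit 9069, nat_lit 10749, nat_lit 14198, nat_lit 0, nat_lit 0, nat_lit 0, nat_lit 0, nat_lit 0, nat_lit 0, nat_lit 0, nat_lit 0, nat_lit 0, nat_lit 0, nat_lit 0, nat_lit 0, [],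
 ⟨p096_k19, nat_lit 0, nat_lit 0, nat_lit 137, nat_lit 0, nat_lit 164128, [nat_lit 2032000001, nat_lit 6250000000, nat_lit 7968000000], [], [nat_lit 23684580409, nat_lit 24762784294, nat_lit 23344308948, nat_lit 24351300852, nat_lit 26798380329, nat_lit 27982352013, nat_lit 26227962884, nat_lit 27464032407], nat_lit 1271250, nat_lit 1271250, nat_lit 780000, nat_lit 1100001, nat_lit 1271250, nat_lit 1271250, [nat_lit 490000, nat_lit 1427500, nat_lit 1271250], [nat_lit 102, nat_lit 40, nat_lit 40, nat_lit 80, nat_lit 2, nat_lit 249, nat_lit 40, nat_lit 7]⟩, ⟨p096_k25, nat_lit 0, nat_lit 0, nat_lit 178, nat_lit 0, nat_lit 201057, [nat_lit 3282000000, nat_lit 7968000000, nat_lit 9842000000], [], [nat_lit 21608081008, nat_lit 22642103456, nat_lit 20961530126, nat_lit 21918820620, nat_lit 28799520067, nat_lit 29777621208, nat_lit 27658175879, nat_lit 28843873032], nat_lit 1271250, nat_lit 1271250, nat_lit 780000, nat_lit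 1100001, nat_lit 1271250, nat_lit 1271250, [nat_lit 780000, nat_lit 1762500, nat_lit 1271250], [nat_lit 99, nat_lit 40, nat_lit 40, nat_lit 80, nat_lit 17, nat_lit 345, nat_lit 125, nat_lit 9]⟩,
 zbF0, [⟨nat_lit 0, nat_lit 93, nat_lit 78, nat_lit 100, nat_lit 957353986⟩, ⟨nat_lit 16, nat_lit 83, nat_lit 98, nat_lit 100, nat_lit 675385165⟩, ⟨nat_lit 19, nat_lit 97, nat_lit 84, nat_lit 100, nat_lit 653882705⟩]⟩
noncomputable def p096_l32 : Lf2 := ⟨nat_lit 0, nat_lit 20, [nat_lit 5, nat_lit 5, nat_lit 5, nat_lit 20], false, nat_lit 240, nat_lit 300, nat_lit 240, nat_lit 328, ⟨nat_lit 1000, nat_lit 0, nat_lit 0, nat_lit 0, nat_lit 0, nat_lit 0, nat_lit 0, nat_lit 0, nat_lit 0, nat_lit 0, nat_lit 0, nat_lit 0, nat_lit 0, nat_lit 0, nat_lit 0, nat_lit 0, false, false⟩,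
 nat_lit 19473, nat_lit 0, nat_lit 0, nat_lit 25564, nat_lit 14604, nat_lit 12932, nat_lit 0, nat_lit 0, nat_lit 0, nat_lit 532, nat_lit 0, nat_lit 0, nat_lit 0, nat_lit 0, nat_lit 0, nat_lit 0, nat_lit 0, nat_lit 0, [],
 ⟨p096_k20, nat_lit 0, nat_lit 0, nat_lit 155, nat_lit 0, nat_lit 117298, [nat_lit 2032000001, nat_lit 6250000000, nat_lit 9842000000], [], [nat_lit 25112653175, nat_lit 27568672792, nat_lit 23524352784, nat_lit 25770130024, nat_lit 29702125928, nat_lit 33041839399, nat_lit 28013572904, nat_lit 31075734948], nat_lit 1271250, nat_lit 1271250, nat_lit 689850, nat_lit 1100001, nat_lit 1271250, nat_lit 1271250, [nat_lit 490000, nat_lit 1427500, nat_lit 1271250], [nat_lit 61, nat_lit 40, nat_lit 40, nat_lit 80, nat_lit 1, nat_lit 345, nat_lit 125, nat_lit 9]⟩, ⟨p096_k26, nat_lit 0, nat_lit 0, nat_lit 190, nat_lit 0, nat_lit 137008, [nat_lit 3282000000, nat_lit 7968000000, nat_lit 11872000000], [], [nat_lit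 23052152676, nat_lit 23904677296, nat_lit 21692444808, nat_lit 22467991244, nat_lit 28936344128, nat_lit 29577468265, nat_lit 27020250126, nat_lit 28128805341], nat_lit 1271250, nat_lit 1271250, nat_lit 689850, nat_lit 1100001, nat_lit 1271250, nat_lit 1271250, [nat_lit 780000, nat_lit 1762500, nat_lit 1271250], [nat_lit 79, nat_lit 40, nat_lit 40, nat_lit 80, nat_lit 14, nat_lit 428, nat_lit 200, nat_lit 10]⟩,
 zbF0, [⟨nat_lit 0, nat_lit 90, nat_lit 74, nat_lit 100, nat_lit 1323407385⟩, ⟨nat_lit 4, nat_lit 100, nat_lit 81, nat_lit 92, nat_lit 933099254⟩, ⟨nat_lit 7, nat_lit 97, nat_lit 100, nat_lit 98, nat_lit 559624894⟩]⟩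
noncomputable def b_V_800_700_20_37 : St := ⟨true, nat_lit 1, nat_lit 1, nat_lit 1, nat_lit 120, nat_lit 320, nat_lit 340, nat_lit 280, nat_lit 300, nat_lit 100, nat_lit 160, nat_lit 80, nat_lit 120, nat_lit 160, nat_lit 300, nat_lit 240, nat_lit 336, nat_lit 60, nat_lit 80, nat_lit 0, nat_lit 0, nat_lit 0, nat_lit 0⟩
theorem d_V_800_700_20_37 (h : EB TB.env) : Dead b_V_800_700_20_37 := chkB_sound0 h (T :=
(.spl (nat_lit 4) (nat_lit 240)
(.leaf p096_l23)
(.spl (nat_lit 1) (nat_lit 290)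
(.spl (nat_lit 6) (nat_lit 72)
(.spl (nat_lit 0) (nat_lit 330)
(.spl (nat_lit 0) (nat_lit 325)
(.leaf p096_l24)
(.trZ (nat_lit 0) (nat_lit 100) (nat_lit 85) (nat_lit 97) (nat_lit 104) (.trX (nat_lit 16) (nat_lit 85) (nat_lit 97) (nat_lit 100) (nat_lit 296) (.leaf p096_l25))))
(.trZ (nat_lit 0) (nat_lit 100) (nat_lit 83) (nat_lit 98) (nat_lit 112) (.trX (nat_lit 16) (nat_lit 83) (nat_lit 98) (nat_lit 100) (nat_lit 288) (.spl (nat_lit 3) (nat_lit 100)
(.trX (nat_lit 16) (nat_lit 81) (nat_lit 100) (nat_lit 92) (nat_lit 268) (.trX (nat_lit 19) (nat_lit 100) (nat_lit 88) (nat_lit 94) (nat_lit 320) (.leaf p096_l26)))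
(.leaf p096_l27)))))
(.spl (nat_lit 0) (nat_lit 330)
(.leaf p096_l28)
(.trZ (nat_lit 0) (nat_lit 100) (nat_lit 83) (nat_lit 98) (nat_lit 112) (.trX (nat_lit 16) (nat_lit 83) (nat_lit 98) (nat_lit 100) (nat_lit 288) (.leaf p096_l29)))))
(.trZ (nat_lit 0) (nat_lit 100) (nat_lit 89) (nat_lit 100) (nat_lit 108) (.trX (nat_lit 19) (nat_lit 97) (nat_lit 84) (nat_lit 100) (nat_lit 328) (.spl (nat_lit 6) (nat_lit 72)
(.spl (nat_lit 0) (nat_lit 330)
(.leaf p096_l30)
(.trZ (nat_lit 0) (nat_lit 97) (nat_lit 82) (nat_lit 100) (nat_lit 120) (.trX (nat_lit 16) (nat_lit 83) (nat_lit 98) (nat_lit 100) (nat_lit 288) (.leaf p096_l31))))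
(.leaf p096_l32))))))) (by decide +kernel)
noncomputable def p096_l33 : Lf2 := ⟨nat_lit 0, nat_lit 15, [nat_lit 30, nat_lit 5, nat_lit 5, nat_lit 20], false, nat_lit 160, nat_lit 276, nat_lit 160, nat_lit 336, ⟨nat_lit 224, nat_lit 0, nat_lit 776, nat_lit 7, nat_lit 200, nat_lit 776, nat_lit 167, nat_lit 776, nat_lit 13749, nat_lit 240, nat_lit 13401, nat_lit 241, nat_lit 44798495, nat_lit 0, nat_lit 0, nat_lit 4631400, false, false⟩,
 nat_lit 4215, nat_lit 0, nat_lit 0, nat_lit 0, nat_lit 3412, nat_lit 2682, nat_lit 0, nat_lit 0, nat_lit 0, nat_lit 87, nat_lit 0, nat_lit 0, nat_lit 0, nat_lit 0, nat_lit 37, nat_lit 296900, nat_lit 0, nat_lit 0, [(nat_lit 22, [(nat_lit 4, nat_lit 90), (nat_lit 5, nat_lit 686)])],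
 ⟨p096_k27, nat_lit 0, nat_lit 0, nat_lit 181, nat_lit 0, nat_lit 303731, [nat_lit 1554912001, nat_lit 1051805601, nat_lit 30457333], [], [nat_lit 18676253121, nat_lit 19803736433, nat_lit 19195551047, nat_lit 20269630375, nat_lit 21944556761, nat_lit 23320486712, nat_lit 22385564283, nat_lit 23694887994], nat_lit 1271250, nat_lit 1271250, nat_lit 810650, nat_lit 1100001, nat_lit 1100001, nat_lit 2093250, [nat_lit 490000, nat_lit 1100000, nat_lit 1785000], [nat_lit 34, nat_lit 40, nat_lit 40, nat_lit 80, nat_lit 7, nat_lit 345, nat_lit 125, nat_lit 10]⟩, ⟨p096_k1, nat_lit 0, nat_lit 0, nat_lit 281, nat_lit 0, nat_lit 411090, [nat_lit 735168000, nat_lit 1400000000, nat_lit 2204608000], [], [nat_lit 4132469433, nat_lit 3916376854, nat_lit 3788948803, nat_lit 3904926414, nat_lit 6129482002, nat_lit 6206937632, nat_lit 5970682449, nat_lit 6084471537], nat_lit 1271250, nat_lit 1271250, nat_lit 810650, nat_lit 1100001, nat_lit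 1100001, nat_lit 2607000, [nat_lit 780000, nat_lit 1435000, nat_lit 1271250], [nat_lit 8, nat_lit 40, nat_lit 40, nat_lit 80, nat_lit 1, nat_lit 345, nat_lit 125, nat_lit 9]⟩,
 ⟨nat_lit 3162, nat_lit 3873, ⟨.ofNat (nat_lit 464406), .ofNat (nat_lit 522504), .ofNat (nat_lit 469847), .ofNat (nat_lit 527945), .ofNat (nat_lit 472632), .ofNat (nat_lit 527519), .ofNat (nat_lit 478163), .ofNat (nat_lit 533050)⟩, ⟨.ofNat (nat_lit 304717), .ofNat (nat_lit 491830), .ofNat (nat_lit 348304), .ofNat (nat_lit 535416), .ofNat (nat_lit 306116), .ofNat (nat_lit 482881), .ofNat (nat_lit 350426), .ofNat (nat_lit 527190)⟩⟩, [⟨nat_lit 0, nat_lit 99, nat_lit 77, nat_lit 100, nat_lit 145710653⟩, ⟨nat_lit 16, nat_lit 77, nat_lit 100, nat_lit 99, nat_lit 256682675⟩, ⟨nat_lit 19, nat_lit 100, nat_lit 80, nat_lit 100, nat_lit 110995467⟩]⟩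
noncomputable def p096_l34 : Lf2 := ⟨nat_lit 0, nat_lit 15, [nat_lit 30, nat_lit 5, nat_lit 5, nat_lit 20], false, nat_lit 160, nat_lit 276, nat_lit 160, nat_lit 332, ⟨nat_lit 690, nat_lit 0, nat_lit 310, nat_lit 7, nat_lit 203, nat_lit 310, nat_lit 167, nat_lit 310, nat_lit 13749, nat_lit 240, nat_lit 10576, nat_lit 238, nat_lit 44522191, nat_lit 0, nat_lit 0, nat_lit 4658816, false, false⟩,
 nat_lit 9909, nat_lit 0, nat_lit 0, nat_lit 0, nat_lit 4926, nat_lit 6442, nat_lit 439, nat_lit 0, nat_lit 0, nat_lit 559, nat_lit 0, nat_lit 0, nat_lit 0, nat_lit 0, nat_lit 0, nat_lit 75680, nat_lit 0, nat_lit 0, [(nat_lit 22, [(nat_lit 3, nat_lit 28), (nat_lit 4, nat_lit 282)])],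
 ⟨p096_k27, nat_lit 0, nat_lit 0, nat_lit 184, nat_lit 0, nat_lit 317721, [nat_lit 1967257601, nat_lit 3111602401, nat_lit 4813392800], [], [nat_lit 19311009729, nat_lit 20799799159, nat_lit 19610267328, nat_lit 21064152912, nat_lit 22986036618, nat_lit 24642973973, nat_lit 23223942086, nat_lit 24803549013], nat_lit 1271250, nat_lit 1271250, nat_lit 841600, nat_lit 1100001, nat_lit 1100001, nat_lit 2093250, [nat_lit 490000, nat_lit 1100000, nat_lit 1785000], [nat_lit 34, nat_lit 40, nat_lit 40, nat_lit 80, nat_lit 7, nat_lit 345, nat_lit 125, nat_lit 10]⟩, ⟨p096_k28, nat_lit 0, nat_lit 0, nat_lit 282, nat_lit 0, nat_lit 418335, [nat_lit 2264580000, nat_lit 4312500000, nat_lit 6790980000], [], [nat_lit 12477867470, nat_lit 12415381775, nat_lit 12162861451, nat_lit 12391199384, nat_lit 17576075757, nat_lit 17868543074, nat_lit 17436802696, nat_lit 17719844692], nat_lit 1271250, nat_lit 1271250, nat_lit 841600, nat_lit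 1100001, nat_lit 1100001, nat_lit 2572750, [nat_lit 780000, nat_lit 1435000, nat_lit 1271250], [nat_lit 8, nat_lit 40, nat_lit 40, nat_lit 80, nat_lit 1, nat_lit 345, nat_lit 125, nat_lit 9]⟩,
 ⟨nat_lit 3162, nat_lit 3873, ⟨.ofNat (nat_lit 476302), .ofNat (nat_lit 527945), .ofNat (nat_lit 481743), .ofNat (nat_lit 533387), .ofNat (nat_lit 484262), .ofNat (nat_lit 533050), .ofNat (nat_lit 489793), .ofNat (nat_lit 538582)⟩, ⟨.ofNat (nat_lit 304717), .ofNat (nat_lit 491830), .ofNat (nat_lit 348304), .ofNat (nat_lit 535416), .ofNat (nat_lit 306116), .ofNat (nat_lit 482881), .ofNat (nat_lit 350426), .ofNat (nat_lit 527190)⟩⟩, [⟨nat_lit 0, nat_lit 93, nat_lit 69, nat_lit 100, nat_lit 225964824⟩, ⟨nat_lit 0, nat_lit 97, nat_lit 76, nat_lit 100, nat_lit 288515269⟩, ⟨nat_lit 16, nat_lit 77, nat_lit 100, nat_lit 99, nat_lit 403705002⟩, ⟨nat_lit 19, nat_lit 99, nat_lit 82, nat_lit 100, nat_lit 308045676⟩]⟩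
noncomputable def p096_l35 : Lf2 := ⟨nat_lit 0, nat_lit 20, [nat_lit 5, nat_lit 5, nat_lit 5, nat_lit 20], false, nat_lit 160, nat_lit 240, nat_lit 160, nat_lit 336, ⟨nat_lit 503, nat_lit 0, nat_lit 497, nat_lit 7, nat_lit 201, nat_lit 497, nat_lit 156, nat_lit 497, nat_lit 74869, nat_lit 282, nat_lit 10576, nat_lit 238, nat_lit 45504856, nat_lit 0, nat_lit 0, nat_lit 4529065, false, false⟩,
 nat_lit 8358, nat_lit 0, nat_lit 0, nat_lit 0, nat_lit 6765, nat_lit 5318, nat_lit 0, nat_lit 0, nat_lit 0, nat_lit 424, nat_lit 0, nat_lit 0, nat_lit 0, nat_lit 0, nat_lit 0, nat_lit 91945, nat_lit 0, nat_lit 0, [(nat_lit 22, [(nat_lit 3, nat_lit 497)])],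
 ⟨p096_k29, nat_lit 0, nat_lit 0, nat_lit 154, nat_lit 0, nat_lit 231727, [nat_lit 3589796800, nat_lit 2236994800, nat_lit 3167974000], [], [nat_lit 20199792850, nat_lit 22057208189, nat_lit 20414890600, nat_lit 22168559680, nat_lit 22445871553, nat_lit 24027981346, nat_lit 22498845220, nat_lit 24005200900], nat_lit 1271250, nat_lit 1271250, nat_lit 810650, nat_lit 1100001, nat_lit 1100001, nat_lit 1785000, [nat_lit 490000, nat_lit 1100000, nat_lit 1785000], [nat_lit 34, nat_lit 40, nat_lit 40, nat_lit 80, nat_lit 7, nat_lit 317, nat_lit 100, nat_lit 9]⟩, ⟨p096_k15, nat_lit 0, nat_lit 0, nat_lit 238, nat_lit 0, nat_lit 314834, [nat_lit 1650846000, nat_lit 3143750000, nat_lit 5971616000], [], [nat_lit 9757138492, nat_lit 9864814681, nat_lit 9334192136, nat_lit 9750914955, nat_lit 13518155230, nat_lit 13782077900, nat_lit 13124825126, nat_lit 13513032580], nat_lit 1271250, nat_lit 1271250, nat_lit 810650, nat_lit 1100001,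 nat_lit 1100001, nat_lit 2607000, [nat_lit 780000, nat_lit 1435000, nat_lit 1271250], [nat_lit 23, nat_lit 40, nat_lit 40, nat_lit 80, nat_lit 12, nat_lit 428, nat_lit 200, nat_lit 10]⟩,
 ⟨nat_lit 3162, nat_lit 3873, ⟨.ofNat (nat_lit 464406), .ofNat (nat_lit 522504), .ofNat (nat_lit 475288), .ofNat (nat_lit 533387), .ofNat (nat_lit 472632), .ofNat (nat_lit 527519), .ofNat (nat_lit 483694), .ofNat (nat_lit 538582)⟩, ⟨.ofNat (nat_lit 304717), .ofNat (nat_lit 433760), .ofNat (nat_lit 348304), .ofNat (nat_lit 477347), .ofNat (nat_lit 306116), .ofNat (nat_lit 428022), .ofNat (nat_lit 350426), .ofNat (nat_lit 472332)⟩⟩, [⟨nat_lit 0, nat_lit 94, nat_lit 69, nat_lit 100, nat_lit 516758359⟩, ⟨nat_lit 4, nat_lit 100, nat_lit 67, nat_lit 88, nat_lit 65201171⟩, ⟨nat_lit 19, nat_lit 100, nat_lit 91, nat_lit 96, nat_lit 231013770⟩]⟩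
noncomputable def p096_l36 : Lf2 := ⟨nat_lit 0, nat_lit 20, [nat_lit 5, nat_lit 5, nat_lit 5, nat_lit 20], false, nat_lit 240, nat_lit 276, nat_lit 160, nat_lit 336, ⟨nat_lit 183, nat_lit 0, nat_lit 817, nat_lit 7, nat_lit 193, nat_lit 817, nat_lit 193, nat_lit 817, nat_lit 13749, nat_lit 240, nat_lit 41439, nat_lit 263, nat_lit 43463995, nat_lit 0, nat_lit 0, nat_lit 4801607, false, false⟩,
 nat_lit 3620, nat_lit 1083, nat_lit 0, nat_lit 4587, nat_lit 3806, nat_lit 2303, nat_lit 0, nat_lit 0, nat_lit 0, nat_lit 113, nat_lit 0, nat_lit 0, nat_lit 0, nat_lit 0, nat_lit 17, nat_lit 204250, nat_lit 0, nat_lit 0, [(nat_lit 22, [(nat_lit 4, nat_lit 817)])],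
 ⟨p096_k30, nat_lit 0, nat_lit 0, nat_lit 138, nat_lit 0, nat_lit 163712, [nat_lit 1726166401, nat_lit 392238000, nat_lit 44613400], [], [nat_lit 20789332762, nat_lit 21372405170, nat_lit 20953061249, nat_lit 21523219345, nat_lit 22211475965, nat_lit 22933637284, nat_lit 22383802032, nat_lit 23093608567], nat_lit 1271250, nat_lit 1271250, nat_lit 810650, nat_lit 936251, nat_lit 1271250, nat_lit 1271250, [nat_lit 490000, nat_lit 1427500, nat_lit 1271250], [nat_lit 102, nat_lit 40, nat_lit 40, nat_lit 80, nat_lit 2, nat_lit 249, nat_lit 40, nat_lit 7]⟩, ⟨p096_k21, nat_lit 0, nat_lit 0, nat_lit 214, nat_lit 0, nat_lit 222427, [nat_lit 600606000, nat_lit 1458144000, nat_lit 2172576000], [], [nat_lit 3557164506, nat_lit 3605193174, nat_lit 3485201955, nat_lit 3573553739, nat_lit 5128411228, nat_lit 5181045019, nat_lit 5291990174, nat_lit 5094647335], nat_lit 1271250, nat_lit 1271250, nat_lit 810650, nat_lit 936251, nat_lit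 1100001, nat_lit 2607000, [nat_lit 780000, nat_lit 1762500, nat_lit 1271250], [nat_lit 79, nat_lit 40, nat_lit 40, nat_lit 80, nat_lit 14, nat_lit 428, nat_lit 200, nat_lit 10]⟩,
 ⟨nat_lit 3535, nat_lit 3873, ⟨.ofNat (nat_lit 464546), .ofNat (nat_lit 490357), .ofNat (nat_lit 469993), .ofNat (nat_lit 495803), .ofNat (nat_lit 468527), .ofNat (nat_lit 493635), .ofNat (nat_lit 474014), .ofNat (nat_lit 499121)⟩, ⟨.ofNat (nat_lit 433760), .ofNat (nat_lit 491830), .ofNat (nat_lit 477347), .ofNat (nat_lit 535416), .ofNat (nat_lit 431044), .ofNat (nat_lit 487529), .ofNat (nat_lit 474949), .ofNat (nat_lit 531435)⟩⟩, [⟨nat_lit 0, nat_lit 96, nat_lit 73, nat_lit 100, nat_lit 172234811⟩, ⟨nat_lit 16, nat_lit 77, nat_lit 100, nat_lit 99, nat_lit 342838914⟩, ⟨nat_lit 19, nat_lit 100, nat_lit 80, nat_lit 100, nat_lit 85065022⟩]⟩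
noncomputable def p096_l37 : Lf2 := ⟨nat_lit 0, nat_lit 20, [nat_lit 5, nat_lit 5, nat_lit 5, nat_lit 20], false, nat_lit 240, nat_lit 264, nat_lit 160, nat_lit 336, ⟨nat_lit 306, nat_lit 0, nat_lit 694, nat_lit 7, nat_lit 198, nat_lit 694, nat_lit 188, nat_lit 694, nat_lit 25644, nat_lit 253, nat_lit 35711, nat_lit 260, nat_lit 43449375, nat_lit 0, nat_lit 0, nat_lit 4801347, false, false⟩,
 nat_lit 6629, nat_lit 0, nat_lit 0, nat_lit 0, nat_lit 4898, nat_lit 4218, nat_lit 0, nat_lit 0, nat_lit 0, nat_lit 162, nat_lit 0, nat_lit 0, nat_lit 0, nat_lit 0, nat_lit 0, nat_lit 159915, nat_lit 0, nat_lit 0, [(nat_lit 22, [(nat_lit 3, nat_lit 209), (nat_lit 4, nat_lit 485)])],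
 ⟨p096_k31, nat_lit 0, nat_lit 0, nat_lit 152, nat_lit 0, nat_lit 207624, [nat_lit 2424801600, nat_lit 1062478800, nat_lit 1003165600], [], [nat_lit 22196365900, nat_lit 22844955645, nat_lit 22220547535, nat_lit 22865391524, nat_lit 23179648049, nat_lit 24020853638, nat_lit 23208737117, nat_lit 24044942534], nat_lit 1271250, nat_lit 1271250, nat_lit 904401, nat_lit 936251, nat_lit 1271250, nat_lit 1271250, [nat_lit 490000, nat_lit 1427500, nat_lit 1271250], [nat_lit 102, nat_lit 40, nat_lit 40, nat_lit 80, nat_lit 2, nat_lit 249, nat_lit 40, nat_lit 7]⟩, ⟨p096_k21, nat_lit 0, nat_lit 0, nat_lit 238, nat_lit 0, nat_lit 295333, [nat_lit 1004292000, nat_lit 2438208000, nat_lit 3632832000], [], [nat_lit 5855167929, nat_lit 6013794042, nat_lit 5839272126, nat_lit 5996711616, nat_lit 8599133559, nat_lit 8768529673, nat_lit 8564786465, nat_lit 8742863859], nat_lit 1271250, nat_lit 1271250, nat_lit 904401, nat_lit 936251, nat_lit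 1100001, nat_lit 2607000, [nat_lit 780000, nat_lit 1762500, nat_lit 1271250], [nat_lit 79, nat_lit 40, nat_lit 40, nat_lit 80, nat_lit 14, nat_lit 428, nat_lit 200, nat_lit 10]⟩,
 ⟨nat_lit 3162, nat_lit 3536, ⟨.ofNat (nat_lit 487342), .ofNat (nat_lit 493619), .ofNat (nat_lit 492828), .ofNat (nat_lit 499105), .ofNat (nat_lit 491044), .ofNat (nat_lit 497140), .ofNat (nat_lit 496581), .ofNat (nat_lit 502677)⟩, ⟨.ofNat (nat_lit 431044), .ofNat (nat_lit 468701), .ofNat (nat_lit 474949), .ofNat (nat_lit 512606), .ofNat (nat_lit 428022), .ofNat (nat_lit 464594), .ofNat (nat_lit 472332), .ofNat (nat_lit 508904)⟩⟩, [⟨nat_lit 0, nat_lit 96, nat_lit 69, nat_lit 100, nat_lit 638595409⟩, ⟨nat_lit 16, nat_lit 69, nat_lit 100, nat_lit 96, nat_lit 440162052⟩, ⟨nat_lit 19, nat_lit 100, nat_lit 80, nat_lit 100, nat_lit 147166549⟩]⟩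
noncomputable def p096_l38 : Lf2 := ⟨nat_lit 0, nat_lit 20, [nat_lit 5, nat_lit 5, nat_lit 5, nat_lit 20], false, nat_lit 240, nat_lit 276, nat_lit 160, nat_lit 336, ⟨nat_lit 723, nat_lit 0, nat_lit 277, nat_lit 7, nat_lit 204, nat_lit 277, nat_lit 193, nat_lit 277, nat_lit 13749, nat_lit 240, nat_lit 12573, nat_lit 242, nat_lit 42616722, nat_lit 0, nat_lit 0, nat_lit 4889660, false, false⟩,
 nat_lit 11167, nat_lit 0, nat_lit 0, nat_lit 0, nat_lit 8318, nat_lit 7105, nat_lit 0, nat_lit 0, nat_lit 0, nat_lit 679, nat_lit 0, nat_lit 0, nat_lit 0, nat_lit 0, nat_lit 0, nat_lit 51245, nat_lit 0, nat_lit 0, [(nat_lit 22, [(nat_lit 3, nat_lit 277)])],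
 ⟨p096_k29, nat_lit 0, nat_lit 0, nat_lit 131, nat_lit 0, nat_lit 163712, [nat_lit 2900228800, nat_lit 3321946800, nat_lit 5292734000], [], [nat_lit 23536857286, nat_lit 24414194585, nat_lit 23474615064, nat_lit 24323358592, nat_lit 25423083273, nat_lit 26298787629, nat_lit 25293843869, nat_lit 26194840558], nat_lit 1271250, nat_lit 1271250, nat_lit 936251, nat_lit 1100001, nat_lit 1271250, nat_lit 1271250, [nat_lit 490000, nat_lit 1100000, nat_lit 1785000], [nat_lit 34, nat_lit 40, nat_lit 40, nat_lit 80, nat_lit 7, nat_lit 249, nat_lit 40, nat_lit 7]⟩, ⟨p096_k15, nat_lit 0, nat_lit 0, nat_lit 202, nat_lit 0, nat_lit 222427, [nat_lit 2372886000, nat_lit 4518750000, nat_lit 8583456000], [], [nat_lit 13202468691, nat_lit 13498826700, nat_lit 13161372253, nat_lit 13447293154, nat_lit 18727454275, nat_lit 18911715144, nat_lit 19383101100, nat_lit 18791188017], nat_lit 1271250, nat_lit 1271250, nat_lit 936251, nat_lit 1100001,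 nat_lit 1100001, nat_lit 2607000, [nat_lit 780000, nat_lit 1435000, nat_lit 1271250], [nat_lit 23, nat_lit 40, nat_lit 40, nat_lit 80, nat_lit 12, nat_lit 428, nat_lit 200, nat_lit 10]⟩,
 ⟨nat_lit 3535, nat_lit 3873, ⟨.ofNat (nat_lit 490357), .ofNat (nat_lit 522620), .ofNat (nat_lit 495803), .ofNat (nat_lit 528067), .ofNat (nat_lit 493635), .ofNat (nat_lit 525018), .ofNat (nat_lit 499121), .ofNat (nat_lit 530505)⟩, ⟨.ofNat (nat_lit 433760), .ofNat (nat_lit 491830), .ofNat (nat_lit 477347), .ofNat (nat_lit 535416), .ofNat (nat_lit 431044), .ofNat (nat_lit 487529), .ofNat (nat_lit 474949), .ofNat (nat_lit 531435)⟩⟩, [⟨nat_lit 0, nat_lit 94, nat_lit 69, nat_lit 100, nat_lit 11407830⟩, ⟨nat_lit 16, nat_lit 77, nat_lit 100, nat_lit 99, nat_lit 574386731⟩, ⟨nat_lit 19, nat_lit 100, nat_lit 80, nat_lit 100, nat_lit 318860778⟩]⟩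
noncomputable def p096_l39 : Lf2 := ⟨nat_lit 0, nat_lit 20, [nat_lit 5, nat_lit 5, nat_lit 5, nat_lit 20], false, nat_lit 240, nat_lit 264, nat_lit 160, nat_lit 336, ⟨nat_lit 485, nat_lit 0, nat_lit 515, nat_lit 7, nat_lit 205, nat_lit 515, nat_lit 188, nat_lit 515, nat_lit 25644, nat_lit 253, nat_lit 13661, nat_lit 241, nat_lit 42890889, nat_lit 0, nat_lit 0, nat_lit 4857533, false, false⟩,
 nat_lit 8737, nat_lit 0, nat_lit 0, nat_lit 0, nat_lit 6557, nat_lit 5559, nat_lit 0, nat_lit 0, nat_lit 0, nat_lit 372, nat_lit 0, nat_lit 0, nat_lit 0, nat_lit 0, nat_lit 0, nat_lit 95275, nat_lit 0, nat_lit 0, [(nat_lit 22, [(nat_lit 3, nat_lit 515)])],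
 ⟨p096_k32, nat_lit 0, nat_lit 0, nat_lit 146, nat_lit 0, nat_lit 207624, [nat_lit 3646216000, nat_lit 2148226000, nat_lit 2994130000], [], [nat_lit 23194806228, nat_lit 23952429866, nat_lit 23232218644, nat_lit 23947109380, nat_lit 24289661553, nat_lit 25286809214, nat_lit 24328050297, nat_lit 25293731307], nat_lit 1271250, nat_lit 1271250, nat_lit 936251, nat_lit 1100001, nat_lit 1271250, nat_lit 1271250, [nat_lit 490000, nat_lit 1100000, nat_lit 1785000], [nat_lit 34, nat_lit 40, nat_lit 40, nat_lit 80, nat_lit 7, nat_lit 249, nat_lit 40, nat_lit 7]⟩, ⟨p096_k15, nat_lit 0, nat_lit 0, nat_lit 226, nat_lit 0, nat_lit 295333, [nat_lit 1591770000, nat_lit 3031250000, nat_lit 5757920000], [], [nat_lit 9092128322, nat_lit 9311888874, nat_lit 9023909064, nat_lit 9235675784, nat_lit 13046897392, nat_lit 13175553463, nat_lit 12802540356, nat_lit 13038500449], nat_lit 1271250, nat_lit 1271250, nat_lit 936251, nat_lit 1100001,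 nat_lit 1100001, nat_lit 2607000, [nat_lit 780000, nat_lit 1435000, nat_lit 1271250], [nat_lit 23, nat_lit 40, nat_lit 40, nat_lit 80, nat_lit 12, nat_lit 428, nat_lit 200, nat_lit 10]⟩,
 ⟨nat_lit 3162, nat_lit 3536, ⟨.ofNat (nat_lit 493619), .ofNat (nat_lit 525005), .ofNat (nat_lit 499105), .ofNat (nat_lit 530491), .ofNat (nat_lit 497140), .ofNat (nat_lit 527622), .ofNat (nat_lit 502677), .ofNat (nat_lit 533158)⟩, ⟨.ofNat (nat_lit 431044), .ofNat (nat_lit 468701), .ofNat (nat_lit 474949), .ofNat (nat_lit 512606), .ofNat (nat_lit 428022), .ofNat (nat_lit 464594), .ofNat (nat_lit 472332), .ofNat (nat_lit 508904)⟩⟩, [⟨nat_lit 0, nat_lit 96, nat_lit 69, nat_lit 100, nat_lit 440804515⟩, ⟨nat_lit 16, nat_lit 69, nat_lit 100, nat_lit 96, nat_lit 530548175⟩, ⟨nat_lit 19, nat_lit 100, nat_lit 80, nat_lit 100, nat_lit 218843439⟩]⟩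
noncomputable def p096_l40 : Lf2 := ⟨nat_lit 0, nat_lit 20, [nat_lit 5, nat_lit 5, nat_lit 5, nat_lit 20], false, nat_lit 240, nat_lit 276, nat_lit 160, nat_lit 332, ⟨nat_lit 1000, nat_lit 0, nat_lit 0, nat_lit 0, nat_lit 0, nat_lit 0, nat_lit 0, nat_lit 0, nat_lit 0, nat_lit 0, nat_lit 0, nat_lit 0, nat_lit 0, nat_lit 0, nat_lit 0, nat_lit 0, false, false⟩,
 nat_lit 14307, nat_lit 0, nat_lit 0, nat_lit 3658, nat_lit 10815, nat_lit 9302, nat_lit 0, nat_lit 0, nat_lit 0, nat_lit 987, nat_lit 0, nat_lit 0, nat_lit 0, nat_lit 0, nat_lit 0, nat_lit 0, nat_lit 0, nat_lit 0, [],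
 ⟨p096_k29, nat_lit 0, nat_lit 0, nat_lit 159, nat_lit 0, nat_lit 231727, [nat_lit 2032000001, nat_lit 4688000000, nat_lit 7968000000], [], [nat_lit 24637890837, nat_lit 26775015693, nat_lit 24302470620, nat_lit 26337433900, nat_lit 26847537408, nat_lit 29625235692, nat_lit 26484977014, nat_lit 29115903533], nat_lit 1271250, nat_lit 1271250, nat_lit 841600, nat_lit 1100001, nat_lit 1271250, nat_lit 1271250, [nat_lit 490000, nat_lit 1100000, nat_lit 1785000], [nat_lit 34, nat_lit 40, nat_lit 40, nat_lit 80, nat_lit 7, nat_lit 249, nat_lit 40, nat_lit 7]⟩, ⟨p096_k33, nat_lit 0, nat_lit 0, nat_lit 233, nat_lit 0, nat_lit 306164, [nat_lit 3282000000, nat_lit 6250000000, nat_lit 11872000000], [], [nat_lit 18240320180, nat_lit 18644606591, nat_lit 18170405503, nat_lit 18552646269, nat_lit 25451802740, nat_lit 25874473651, nat_lit 25226122296, nat_lit 25662461299], nat_lit 1271250, nat_lit 1271250, nat_lit 841600, nat_lit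 1100001, nat_lit 1100001, nat_lit 2572750, [nat_lit 780000, nat_lit 1435000, nat_lit 1271250], [nat_lit 23, nat_lit 40, nat_lit 40, nat_lit 80, nat_lit 12, nat_lit 428, nat_lit 200, nat_lit 10]⟩,
 zbF0, [⟨nat_lit 0, nat_lit 93, nat_lit 69, nat_lit 100, nat_lit 953730406⟩, ⟨nat_lit 16, nat_lit 77, nat_lit 100, nat_lit 99, nat_lit 703871313⟩, ⟨nat_lit 19, nat_lit 99, nat_lit 82, nat_lit 100, nat_lit 436902502⟩]⟩
noncomputable def p096_l41 : Lf2 := ⟨nat_lit 0, nat_lit 20, [nat_lit 5, nat_lit 5, nat_lit 5, nat_lit 20], false, nat_lit 160, nat_lit 276, nat_lit 160, nat_lit 328, ⟨nat_lit 1000, nat_lit 0, nat_lit 0, nat_lit 0, nat_lit 0, nat_lit 0, nat_lit 0, nat_lit 0, nat_lit 0, nat_lit 0, nat_lit 0, nat_lit 0, nat_lit 0, nat_lit 0, nat_lit 0, nat_lit 0, false, false⟩,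
 nat_lit 12952, nat_lit 0, nat_lit 0, nat_lit 0, nat_lit 10484, nat_lit 8601, nat_lit 8, nat_lit 0, nat_lit 0, nat_lit 994, nat_lit 0, nat_lit 0, nat_lit 0, nat_lit 0, nat_lit 0, nat_lit 0, nat_lit 0, nat_lit 0, [],
 ⟨p096_k29, nat_lit 0, nat_lit 0, nat_lit 195, nat_lit 0, nat_lit 357246, [nat_lit 2032000001, nat_lit 4688000000, nat_lit 7968000000], [], [nat_lit 22425603360, nat_lit 24897428839, nat_lit 22336476560, nat_lit 24691403808, nat_lit 26899368139, nat_lit 29286240386, nat_lit 26519584252, nat_lit 28873521236], nat_lit 1271250, nat_lit 1271250, nat_lit 872850, nat_lit 1100001, nat_lit 1100001, nat_lit 2093250, [nat_lit 490000, nat_lit 1100000, nat_lit 1785000], [nat_lit 34, nat_lit 40, nat_lit 40, nat_lit 80, nat_lit 7, nat_lit 345, nat_lit 125, nat_lit 10]⟩, ⟨p096_k34, nat_lit 0, nat_lit 0, nat_lit 351, nat_lit 0, nat_lit 459231, [nat_lit 3282000000, nat_lit 6250000000, nat_lit 11872000000], [], [nat_lit 18652873848,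 nat_lit 19409572889, nat_lit 18616584972, nat_lit 19345759938, nat_lit 25178608960, nat_lit 25825704345, nat_lit 24837899071, nat_lit 25682550865], nat_lit 1271250, nat_lit 1271250, nat_lit 872850, nat_lit 1100001, nat_lit 1100001, nat_lit 2538500, [nat_lit 780000, nat_lit 1435000, nat_lit 1271250], [nat_lit 23, nat_lit 40, nat_lit 40, nat_lit 80, nat_lit 12, nat_lit 428, nat_lit 200, nat_lit 10]⟩,
 zbF0, [⟨nat_lit 0, nat_lit 94, nat_lit 75, nat_lit 100, nat_lit 913428614⟩, ⟨nat_lit 16, nat_lit 77, nat_lit 100, nat_lit 99, nat_lit 516967946⟩, ⟨nat_lit 19, nat_lit 97, nat_lit 84, nat_lit 100, nat_lit 424381303⟩]⟩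
noncomputable def b_V_800_700_20_38 : St := ⟨true, nat_lit 1, nat_lit 1, nat_lit 1, nat_lit 120, nat_lit 340, nat_lit 360, nat_lit 280, nat_lit 300, nat_lit 100, nat_lit 160, nat_lit 80, nat_lit 120, nat_lit 160, nat_lit 300, nat_lit 160, nat_lit 336, nat_lit 40, nat_lit 80, nat_lit 0, nat_lit 0, nat_lit 0, nat_lit 0⟩
theorem d_V_800_700_20_38 (h : EB TB.env) : Dead b_V_800_700_20_38 := chkB_sound0 h (T :=
(.trZ (nat_lit 0) (nat_lit 99) (nat_lit 77) (nat_lit 100) (nat_lit 124) (.trX (nat_lit 16) (nat_lit 77) (nat_lit 100) (nat_lit 99) (nat_lit 276) (.spl (nat_lit 1) (nat_lit 290)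
(.spl (nat_lit 6) (nat_lit 60)
(.spl (nat_lit 1) (nat_lit 285)
(.leaf p096_l33)
(.trZ (nat_lit 0) (nat_lit 97) (nat_lit 76) (nat_lit 100) (nat_lit 128) (.trX (nat_lit 19) (nat_lit 99) (nat_lit 82) (nat_lit 100) (nat_lit 332) (.leaf p096_l34))))
(.spl (nat_lit 4) (nat_lit 240)
(.leaf p096_l35)
(.spl (nat_lit 1) (nat_lit 285)
(.spl (nat_lit 2) (nat_lit 140)
(.spl (nat_lit 0) (nat_lit 350)
(.leaf p096_l36)
(.trZ (nat_lit 0) (nat_lit 96) (nat_lit 69) (nat_lit 100) (nat_lit 136) (.trX (nat_lit 16) (nat_lit 69) (nat_lit 100) (nat_lit 96) (nat_lit 264) (.leaf p096_l37))))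
(.spl (nat_lit 0) (nat_lit 350)
(.leaf p096_l38)
(.trX (nat_lit 16) (nat_lit 69) (nat_lit 100) (nat_lit 96) (nat_lit 264) (.leaf p096_l39))))
(.trZ (nat_lit 0) (nat_lit 97) (nat_lit 76) (nat_lit 100) (nat_lit 128) (.trX (nat_lit 19) (nat_lit 99) (nat_lit 82) (nat_lit 100) (nat_lit 332) (.leaf p096_l40))))))
(.trZ (nat_lit 0) (nat_lit 94) (nat_lit 75) (nat_lit 100) (nat_lit 132) (.trX (nat_lit 19) (nat_lit 97) (nat_lit 84) (nat_lit 100) (nat_lit 328) (.leaf p096_l41))))))) (by decide +kernel)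
noncomputable def p096_l42 : Lf2 := ⟨nat_lit 0, nat_lit 15, [nat_lit 30, nat_lit 5, nat_lit 5, nat_lit 20], false, nat_lit 160, nat_lit 300, nat_lit 160, nat_lit 320, ⟨nat_lit 1000, nat_lit 0, nat_lit 0, nat_lit 0, nat_lit 0, nat_lit 0, nat_lit 0, nat_lit 0, nat_lit 0, nat_lit 0, nat_lit 0, nat_lit 0, nat_lit 0, nat_lit 0, nat_lit 0, nat_lit 0, false, false⟩,
 nat_lit 12667, nat_lit 0, nat_lit 0, nat_lit 0, nat_lit 9500, nat_lit 8769, nat_lit 217, nat_lit 0, nat_lit 0, nat_lit 764, nat_lit 0, nat_lit 0, nat_lit 0, nat_lit 0, nat_lit 0, nat_lit 0, nat_lit 0, nat_lit 0, [],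
 ⟨p096_k0, nat_lit 0, nat_lit 0, nat_lit 263, nat_lit 0, nat_lit 451767, [nat_lit 2032000001, nat_lit 4688000000, nat_lit 7968000000], [], [nat_lit 19372153125, nat_lit 24070461125, nat_lit 19495065125, nat_lit 23886749125, nat_lit 25884401125, nat_lit 30439345500, nat_lit 25479013625, nat_lit 29868156000], nat_lit 1271250, nat_lit 1271250, nat_lit 780000, nat_lit 1100001, nat_lit 1100001, nat_lit 2298750, [nat_lit 490000, nat_lit 1100000, nat_lit 1785000], [nat_lit 34, nat_lit 40, nat_lit 40, nat_lit 80, nat_lit 7, nat_lit 345, nat_lit 125, nat_lit 10]⟩, ⟨p096_k35, nat_lit 0, nat_lit 0, nat_lit 318, nat_lit 0, nat_lit 499568, [nat_lit 3282000000, nat_lit 6250000000, nat_lit 9842000000], [], [nat_lit 18083431808, nat_lit 19886983300, nat_lit 18199221094, nat_lit 19881802964, nat_lit 25167692704, nat_lit 26951562308, nat_lit 24898794948, nat_lit 26660392252], nat_lit 1271250, nat_lit 1271250, nat_lit 780000, nat_lit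 1100001, nat_lit 1100001, nat_lit 2470000, [nat_lit 780000, nat_lit 1435000, nat_lit 1271250], [nat_lit 8, nat_lit 40, nat_lit 40, nat_lit 80, nat_lit 1, nat_lit 345, nat_lit 125, nat_lit 9]⟩,
 zbF0, [⟨nat_lit 0, nat_lit 94, nat_lit 87, nat_lit 100, nat_lit 747172612⟩, ⟨nat_lit 16, nat_lit 87, nat_lit 95, nat_lit 100, nat_lit 498090473⟩, ⟨nat_lit 19, nat_lit 94, nat_lit 88, nat_lit 100, nat_lit 461476912⟩]⟩
noncomputable def p096_l43 : Lf2 := ⟨nat_lit 0, nat_lit 20, [nat_lit 5, nat_lit 5, nat_lit 5, nat_lit 20], false, nat_lit 160, nat_lit 300, nat_lit 160, nat_lit 320, ⟨nat_lit 1000, nat_lit 0, nat_lit 0, nat_lit 0, nat_lit 0, nat_lit 0, nat_lit 0, nat_lit 0, nat_lit 0, nat_lit 0, nat_lit 0, nat_lit 0, nat_lit 0, nat_lit 0, nat_lit 0, nat_lit 0, false, false⟩,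
 nat_lit 20262, nat_lit 0, nat_lit 0, nat_lit 0, nat_lit 14401, nat_lit 14027, nat_lit 0, nat_lit 0, nat_lit 0, nat_lit 0, nat_lit 0, nat_lit 0, nat_lit 0, nat_lit 0, nat_lit 0, nat_lit 0, nat_lit 0, nat_lit 0, [],
 ⟨p096_k14, nat_lit 0, nat_lit 0, nat_lit 189, nat_lit 0, nat_lit 258039, [nat_lit 2032000001, nat_lit 4688000000, nat_lit 9842000000], [], [nat_lit 22269766700, nat_lit 25135556024, nat_lit 21687058556, nat_lit 24356135966, nat_lit 28792935456, nat_lit 32040388194, nat_lit 27909976726, nat_lit 30939027237], nat_lit 1271250, nat_lit 1271250, nat_lit 780000, nat_lit 1100001, nat_lit 1100001, nat_lit 2298750, [nat_lit 490000, nat_lit 1100000, nat_lit 2127500], [nat_lit 27, nat_lit 40, nat_lit 40, nat_lit 80, nat_lit 13, nat_lit 345, nat_lit 125, nat_lit 9]⟩, ⟨p096_k36, nat_lit 0, nat_lit 0, nat_lit 203, nat_lit 0, nat_lit 285704, [nat_lit 3282000000, nat_lit 6250000000, nat_lit 9842000000], [], [nat_lit 20014921464,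 nat_lit 22517092900, nat_lit 19652727002, nat_lit 21972736212, nat_lit 28796380632, nat_lit 30944129964, nat_lit 27611170146, nat_lit 29935642516], nat_lit 1271250, nat_lit 1271250, nat_lit 780000, nat_lit 1100001, nat_lit 1100001, nat_lit 2470000, [nat_lit 780000, nat_lit 1435000, nat_lit 1271250], [nat_lit 8, nat_lit 40, nat_lit 40, nat_lit 80, nat_lit 1, nat_lit 345, nat_lit 125, nat_lit 9]⟩,
 zbF0, [⟨nat_lit 0, nat_lit 87, nat_lit 79, nat_lit 100, nat_lit 1141991947⟩, ⟨nat_lit 16, nat_lit 87, nat_lit 95, nat_lit 100, nat_lit 507929829⟩, ⟨nat_lit 19, nat_lit 94, nat_lit 88, nat_lit 100, nat_lit 503407829⟩]⟩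
noncomputable def p096_l44 : Lf2 := ⟨nat_lit 0, nat_lit 20, [nat_lit 5, nat_lit 5, nat_lit 5, nat_lit 20], false, nat_lit 160, nat_lit 276, nat_lit 160, nat_lit 320, ⟨nat_lit 1000, nat_lit 0, nat_lit 0, nat_lit 0, nat_lit 0, nat_lit 0, nat_lit 0, nat_lit 0, nat_lit 0, nat_lit 0, nat_lit 0, nat_lit 0, nat_lit 0, nat_lit 0, nat_lit 0, nat_lit 0, false, false⟩,
 nat_lit 13250, nat_lit 0, nat_lit 0, nat_lit 0, nat_lit 10725, nat_lit 9172, nat_lit 0, nat_lit 0, nat_lit 0, nat_lit 687, nat_lit 0, nat_lit 0, nat_lit 0, nat_lit 0, nat_lit 0, nat_lit 0, nat_lit 0, nat_lit 0, [],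
 ⟨p096_k29, nat_lit 0, nat_lit 0, nat_lit 183, nat_lit 0, nat_lit 327257, [nat_lit 2032000001, nat_lit 4688000000, nat_lit 7968000000], [], [nat_lit 22284908000, nat_lit 24746937920, nat_lit 22224483000, nat_lit 24618373200, nat_lit 26665753494, nat_lit 29299546054, nat_lit 26436091328, nat_lit 29049998981], nat_lit 1271250, nat_lit 1271250, nat_lit 968401, nat_lit 1100001, nat_lit 1100001, nat_lit 2093250, [nat_lit 490000, nat_lit 1100000, nat_lit 1785000], [nat_lit 34, nat_lit 40, nat_lit 40, nat_lit 80, nat_lit 7, nat_lit 345, nat_lit 125, nat_lit 10]⟩, ⟨p096_k36, nat_lit 0, nat_lit 0, nat_lit 234, nat_lit 0, nat_lit 398776, [nat_lit 3282000000, nat_lit 6250000000, nat_lit 9842000000], [], [nat_lit 18426393355, nat_lit 20208094810, nat_lit 18458055022, nat_lit 20189492582, nat_lit 25295815845, nat_lit 27049883748, nat_lit 25098639424, nat_lit 26911424176], nat_lit 1271250, nat_lit 1271250, nat_lit 968401, nat_lit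 1100001, nat_lit 1100001, nat_lit 2470000, [nat_lit 780000, nat_lit 1435000, nat_lit 1271250], [nat_lit 8, nat_lit 40, nat_lit 40, nat_lit 80, nat_lit 1, nat_lit 345, nat_lit 125, nat_lit 9]⟩,
 zbF0, [⟨nat_lit 0, nat_lit 84, nat_lit 67, nat_lit 100, nat_lit 88644315⟩, ⟨nat_lit 0, nat_lit 90, nat_lit 74, nat_lit 100, nat_lit 884292060⟩, ⟨nat_lit 16, nat_lit 77, nat_lit 100, nat_lit 99, nat_lit 518580502⟩, ⟨nat_lit 19, nat_lit 94, nat_lit 88, nat_lit 100, nat_lit 459563740⟩]⟩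
noncomputable def b_V_800_700_20_39 : St := ⟨true, nat_lit 1, nat_lit 1, nat_lit 1, nat_lit 120, nat_lit 320, nat_lit 360, nat_lit 300, nat_lit 320, nat_lit 100, nat_lit 160, nat_lit 80, nat_lit 120, nat_lit 160, nat_lit 300, nat_lit 160, nat_lit 336, nat_lit 40, nat_lit 80, nat_lit 0, nat_lit 0, nat_lit 0, nat_lit 0⟩
theorem d_V_800_700_20_39 (h : EB TB.env) : Dead b_V_800_700_20_39 := chkB_sound0 h (T :=
(.trZ (nat_lit 0) (nat_lit 94) (nat_lit 87) (nat_lit 100) (nat_lit 120) (.trX (nat_lit 19) (nat_lit 94) (nat_lit 88) (nat_lit 100) (nat_lit 320) (.spl (nat_lit 6) (nat_lit 60)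
(.leaf p096_l42)
(.spl (nat_lit 0) (nat_lit 340)
(.leaf p096_l43)
(.trZ (nat_lit 0) (nat_lit 90) (nat_lit 74) (nat_lit 100) (nat_lit 144) (.trX (nat_lit 16) (nat_lit 77) (nat_lit 100) (nat_lit 99) (nat_lit 276) (.leaf p096_l44)))))))) (by decide +kernel)
noncomputable def p096_l45 : Lf2 := ⟨nat_lit 0, nat_lit 15, [nat_lit 30, nat_lit 5, nat_lit 5, nat_lit 20], false, nat_lit 160, nat_lit 300, nat_lit 160, nat_lit 336, ⟨nat_lit 1000, nat_lit 0, nat_lit 0, nat_lit 0, nat_lit 0, nat_lit 0, nat_lit 0, nat_lit 0, nat_lit 0, nat_lit 0, nat_lit 0, nat_lit 0, nat_lit 0, nat_lit 0, nat_lit 0, nat_lit 0, false, false⟩,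
 nat_lit 12018, nat_lit 0, nat_lit 0, nat_lit 0, nat_lit 9013, nat_lit 7647, nat_lit 220, nat_lit 0, nat_lit 0, nat_lit 950, nat_lit 0, nat_lit 0, nat_lit 0, nat_lit 0, nat_lit 0, nat_lit 0, nat_lit 0, nat_lit 0, [],
 ⟨p096_k0, nat_lit 0, nat_lit 0, nat_lit 160, nat_lit 0, nat_lit 273654, [nat_lit 2032000001, nat_lit 4688000000, nat_lit 7968000000], [], [nat_lit 19921396684, nat_lit 22038504420, nat_lit 22368900928, nat_lit 24156871424, nat_lit 25786523515, nat_lit 27310548681, nat_lit 27201005625, nat_lit 29014302125], nat_lit 1271250, nat_lit 1271250, nat_lit 1100001, nat_lit 1785000, nat_lit 1100001, nat_lit 2298750, [nat_lit 490000, nat_lit 1100000, nat_lit 1785000], [nat_lit 34, nat_lit 40, nat_lit 40, nat_lit 80, nat_lit 7, nat_lit 373, nat_lit 150, nat_lit 11]⟩, ⟨p096_k1, nat_lit 0, nat_lit 0, nat_lit 209, nat_lit 0, nat_lit 336931, [nat_lit 3282000000, nat_lit 6250000000, nat_lit 9842000000], [], [nat_lit 21851518776,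 nat_lit 19222467872, nat_lit 23763157304, nat_lit 21444925180, nat_lit 25531115466, nat_lit 26498745813, nat_lit 26849853191, nat_lit 27847326065], nat_lit 1271250, nat_lit 1271250, nat_lit 1100001, nat_lit 1785000, nat_lit 1271250, nat_lit 1271250, [nat_lit 780000, nat_lit 1435000, nat_lit 1271250], [nat_lit 8, nat_lit 40, nat_lit 40, nat_lit 80, nat_lit 1, nat_lit 373, nat_lit 150, nat_lit 10]⟩,
 zbF0, [⟨nat_lit 4, nat_lit 100, nat_lit 81, nat_lit 92, nat_lit 547277700⟩, ⟨nat_lit 19, nat_lit 100, nat_lit 94, nat_lit 97, nat_lit 364697462⟩]⟩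
noncomputable def p096_l46 : Lf2 := ⟨nat_lit 0, nat_lit 20, [nat_lit 5, nat_lit 5, nat_lit 5, nat_lit 20], false, nat_lit 160, nat_lit 300, nat_lit 160, nat_lit 336, ⟨nat_lit 1000, nat_lit 0, nat_lit 0, nat_lit 0, nat_lit 0, nat_lit 0, nat_lit 0, nat_lit 0, nat_lit 0, nat_lit 0, nat_lit 0, nat_lit 0, nat_lit 0, nat_lit 0, nat_lit 0, nat_lit 0, false, false⟩,
 nat_lit 16664, nat_lit 0, nat_lit 0, nat_lit 12026, nat_lit 8188, nat_lit 10604, nat_lit 0, nat_lit 0, nat_lit 0, nat_lit 723, nat_lit 0, nat_lit 0, nat_lit 0, nat_lit 0, nat_lit 0, nat_lit 0, nat_lit 0, nat_lit 0, [],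
 ⟨p096_k20, nat_lit 0, nat_lit 0, nat_lit 90, nat_lit 0, nat_lit 124785, [nat_lit 2032000001, nat_lit 6250000000, nat_lit 9842000000], [], [nat_lit 18555673392, nat_lit 19641035200, nat_lit 21357878128, nat_lit 22276124232, nat_lit 24963411952, nat_lit 25747218063, nat_lit 26780977500, nat_lit 27633604131], nat_lit 1271250, nat_lit 1271250, nat_lit 1100001, nat_lit 1785000, nat_lit 1100001, nat_lit 2298750, [nat_lit 490000, nat_lit 1427500, nat_lit 1271250], [nat_lit 61, nat_lit 40, nat_lit 40, nat_lit 80, nat_lit 1, nat_lit 373, nat_lit 150, nat_lit 10]⟩, ⟨p096_k21, nat_lit 0, nat_lit 0, nat_lit 178, nat_lit 0, nat_lit 154049, [nat_lit 3282000000, nat_lit 7968000000, nat_lit 11872000000], [], [nat_lit 19290221099, nat_lit 20950337227, nat_lit 26677423424, nat_lit 22643745443, nat_lit 26835282703, nat_lit 27819031508, nat_lit 28011569015, nat_lit 29557719503], nat_lit 1271250, nat_lit 1271250, nat_lit 1100001, nat_lit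 1785000, nat_lit 1271250, nat_lit 1271250, [nat_lit 780000, nat_lit 1762500, nat_lit 1271250], [nat_lit 79, nat_lit 40, nat_lit 40, nat_lit 80, nat_lit 14, nat_lit 456, nat_lit 225, nat_lit 11]⟩,
 zbF0, [⟨nat_lit 16, nat_lit 87, nat_lit 95, nat_lit 100, nat_lit 503107582⟩, ⟨nat_lit 7, nat_lit 94, nat_lit 100, nat_lit 97, nat_lit 436567614⟩]⟩
noncomputable def p096_l47 : Lf2 := ⟨nat_lit 0, nat_lit 20, [nat_lit 5, nat_lit 5, nat_lit 5, nat_lit 20], false, nat_lit 160, nat_lit 288, nat_lit 160, nat_lit 336, ⟨nat_lit 1000, nat_lit 0, nat_lit 0, nat_lit 0, nat_lit 0, nat_lit 0, nat_lit 0, nat_lit 0, nat_lit 0, nat_lit 0, nat_lit 0, nat_lit 0, nat_lit 0, nat_lit 0, nat_lit 0, nat_lit 0, false, false⟩,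
 nat_lit 16241, nat_lit 0, nat_lit 0, nat_lit 0, nat_lit 12660, nat_lit 10335, nat_lit 89, nat_lit 0, nat_lit 0, nat_lit 751, nat_lit 0, nat_lit 0, nat_lit 0, nat_lit 0, nat_lit 0, nat_lit 0, nat_lit 0, nat_lit 0, [],
 ⟨p096_k22, nat_lit 0, nat_lit 0, nat_lit 152, nat_lit 0, nat_lit 169292, [nat_lit 2032000001, nat_lit 6250000000, nat_lit 9842000000], [], [nat_lit 23225433510, nat_lit 24436874810, nat_lit 25013965910, nat_lit 26026717210, nat_lit 27758226842, nat_lit 28641112450, nat_lit 29244244129, nat_lit 30434286304], nat_lit 1271250, nat_lit 1271250, nat_lit 1100001, nat_lit 1785000, nat_lit 1100001, nat_lit 2196000, [nat_lit 490000, nat_lit 1427500, nat_lit 1271250], [nat_lit 61, nat_lit 40, nat_lit 40, nat_lit 80, nat_lit 1, nat_lit 373, nat_lit 150, nat_lit 10]⟩, ⟨p096_k21, nat_lit 0, nat_lit 0, nat_lit 202, nat_lit 0, nat_lit 219403, [nat_lit 3282000000, nat_lit 7968000000, nat_lit 11872000000], [], [nat_lit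 19211932635, nat_lit 20844951855, nat_lit 26934464760, nat_lit 22544021445, nat_lit 26679877104, nat_lit 27649329514, nat_lit 27872277157, nat_lit 29394238626], nat_lit 1271250, nat_lit 1271250, nat_lit 1100001, nat_lit 1785000, nat_lit 1271250, nat_lit 1271250, [nat_lit 780000, nat_lit 1762500, nat_lit 1271250], [nat_lit 79, nat_lit 40, nat_lit 40, nat_lit 80, nat_lit 14, nat_lit 456, nat_lit 225, nat_lit 11]⟩,
 zbF0, [⟨nat_lit 16, nat_lit 83, nat_lit 98, nat_lit 100, nat_lit 458950630⟩, ⟨nat_lit 19, nat_lit 100, nat_lit 94, nat_lit 97, nat_lit 416503344⟩]⟩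
noncomputable def p096_l48 : Lf2 := ⟨nat_lit 0, nat_lit 20, [nat_lit 5, nat_lit 5, nat_lit 5, nat_lit 20], false, nat_lit 160, nat_lit 300, nat_lit 160, nat_lit 320, ⟨nat_lit 1000, nat_lit 0, nat_lit 0, nat_lit 0, nat_lit 0, nat_lit 0, nat_lit 0, nat_lit 0, nat_lit 0, nat_lit 0, nat_lit 0, nat_lit 0, nat_lit 0, nat_lit 0, nat_lit 0, nat_lit 0, false, false⟩,
 nat_lit 11929, nat_lit 0, nat_lit 0, nat_lit 0, nat_lit 8628, nat_lit 8258, nat_lit 531, nat_lit 0, nat_lit 0, nat_lit 734, nat_lit 0, nat_lit 0, nat_lit 0, nat_lit 0, nat_lit 0, nat_lit 0, nat_lit 0, nat_lit 0, [],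
 ⟨p096_k14, nat_lit 0, nat_lit 0, nat_lit 209, nat_lit 0, nat_lit 362377, [nat_lit 2032000001, nat_lit 4688000000, nat_lit 9842000000], [], [nat_lit 20788389343, nat_lit 22641106823, nat_lit 22764967263, nat_lit 24333603943, nat_lit 25717311687, nat_lit 27054284233, nat_lit 27004992500, nat_lit 28767868822], nat_lit 1271250, nat_lit 1271250, nat_lit 1100001, nat_lit 1785000, nat_lit 1100001, nat_lit 2298750, [nat_lit 490000, nat_lit 1100000, nat_lit 2127500], [nat_lit 27, nat_lit 40, nat_lit 40, nat_lit 80, nat_lit 13, nat_lit 373, nat_lit 150, nat_lit 10]⟩, ⟨p096_k36, nat_lit 0, nat_lit 0, nat_lit 230, nat_lit 0, nat_lit 401228, [nat_lit 3282000000, nat_lit 6250000000, nat_lit 9842000000], [], [nat_lit 19279329050, nat_lit 20513441238, nat_lit 21131949520, nat_lit 22487540868, nat_lit 25282473784, nat_lit 26345654820, nat_lit 31291239354, nat_lit 28114366304], nat_lit 1271250, nat_lit 1271250, nat_lit 1100001, nat_lit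 1785000, nat_lit 1100001, nat_lit 2470000, [nat_lit 780000, nat_lit 1435000, nat_lit 1271250], [nat_lit 8, nat_lit 40, nat_lit 40, nat_lit 80, nat_lit 1, nat_lit 373, nat_lit 150, nat_lit 10]⟩,
 zbF0, [⟨nat_lit 4, nat_lit 100, nat_lit 81, nat_lit 92, nat_lit 506225872⟩, ⟨nat_lit 19, nat_lit 94, nat_lit 88, nat_lit 100, nat_lit 432775887⟩]⟩
noncomputable def p096_l49 : Lf2 := ⟨nat_lit 0, nat_lit 15, [nat_lit 30, nat_lit 5, nat_lit 5, nat_lit 20], false, nat_lit 160, nat_lit 276, nat_lit 160, nat_lit 336, ⟨nat_lit 875, nat_lit 125, nat_lit 0, nat_lit 7, nat_lit 244, nat_lit 125, nat_lit 167, nat_lit 0, nat_lit 0, nat_lit 0, nat_lit 0, nat_lit 0, nat_lit 41271158, nat_lit 16609936, nat_lit 9118906, nat_lit 4924062, false, false⟩,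
 nat_lit 11181, nat_lit 0, nat_lit 0, nat_lit 0, nat_lit 5581, nat_lit 7115, nat_lit 554, nat_lit 0, nat_lit 0, nat_lit 768, nat_lit 0, nat_lit 0, nat_lit 0, nat_lit 0, nat_lit 0, nat_lit 50000, nat_lit 0, nat_lit 0, [(nat_lit 22, [(nat_lit 1, nat_lit 125)])],
 ⟨p096_k27, nat_lit 0, nat_lit 0, nat_lit 221, nat_lit 0, nat_lit 410966, [nat_lit 1947800000, nat_lit 4296350000, nat_lit 7146350000], [], [nat_lit 20689868562, nat_lit 22002125472, nat_lit 22505705988, nat_lit 23846857540, nat_lit 24043155442, nat_lit 25283187697, nat_lit 25622019757, nat_lit 27074073332], nat_lit 1271250, nat_lit 1271250, nat_lit 1100001, nat_lit 1785000, nat_lit 1100001, nat_lit 2093250, [nat_lit 490000, nat_lit 1100000, nat_lit 1785000], [nat_lit 34, nat_lit 40, nat_lit 40, nat_lit 80, nat_lit 7, nat_lit 373, nat_lit 150, nat_lit 11]⟩, ⟨p096_k1, nat_lit 0, nat_lit 0, nat_lit 327, nat_lit 0, nat_lit 556229, [nat_lit 2871750000, nat_lit 5468750000,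 nat_lit 8611750000], [], [nat_lit 17451236360, nat_lit 19592529140, nat_lit 20237415180, nat_lit 20792608740, nat_lit 22704868445, nat_lit 24356118048, nat_lit 23590854660, nat_lit 25706504025], nat_lit 1271250, nat_lit 1271250, nat_lit 1100001, nat_lit 1785000, nat_lit 1271250, nat_lit 1271250, [nat_lit 780000, nat_lit 1435000, nat_lit 1271250], [nat_lit 8, nat_lit 40, nat_lit 40, nat_lit 80, nat_lit 1, nat_lit 373, nat_lit 150, nat_lit 10]⟩,
 ⟨nat_lit 3162, nat_lit 3873, ⟨.ofNat (nat_lit 522504), .ofNat (nat_lit 651611), .ofNat (nat_lit 566033), .ofNat (nat_lit 695141), .ofNat (nat_lit 527519), .ofNat (nat_lit 649490), .ofNat (nat_lit 571771), .ofNat (nat_lit 693742)⟩, ⟨.ofNat (nat_lit 304717), .ofNat (nat_lit 491830), .ofNat (nat_lit 348304), .ofNat (nat_lit 535416), .ofNat (nat_lit 306116), .ofNat (nat_lit 482881), .ofNat (nat_lit 350426), .ofNat (nat_lit 527190)⟩⟩, [⟨nat_lit 0, nat_lit 88, nat_lit 67, nat_lit 100,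 nat_lit 342007148⟩, ⟨nat_lit 4, nat_lit 100, nat_lit 67, nat_lit 88, nat_lit 557369410⟩, ⟨nat_lit 19, nat_lit 100, nat_lit 80, nat_lit 100, nat_lit 320365155⟩]⟩
noncomputable def p096_l50 : Lf2 := ⟨nat_lit 0, nat_lit 20, [nat_lit 5, nat_lit 5, nat_lit 5, nat_lit 20], false, nat_lit 160, nat_lit 276, nat_lit 160, nat_lit 336, ⟨nat_lit 1000, nat_lit 0, nat_lit 0, nat_lit 0, nat_lit 0, nat_lit 0, nat_lit 0, nat_lit 0, nat_lit 0, nat_lit 0, nat_lit 0, nat_lit 0, nat_lit 0, nat_lit 0, nat_lit 0, nat_lit 0, false, false⟩,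
 nat_lit 12775, nat_lit 0, nat_lit 0, nat_lit 0, nat_lit 10246, nat_lit 8129, nat_lit 0, nat_lit 0, nat_lit 0, nat_lit 965, nat_lit 0, nat_lit 0, nat_lit 0, nat_lit 0, nat_lit 0, nat_lit 0, nat_lit 0, nat_lit 0, [],
 ⟨p096_k29, nat_lit 0, nat_lit 0, nat_lit 179, nat_lit 0, nat_lit 327257, [nat_lit 2032000001, nat_lit 4688000000, nat_lit 7968000000], [], [nat_lit 22586204640, nat_lit 24902653952, nat_lit 24723446408, nat_lit 26671943640, nat_lit 26741166476, nat_lit 28699240309, nat_lit 28190672786, nat_lit 30313053740], nat_lit 1271250, nat_lit 1271250, nat_lit 1100001, nat_lit 1785000, nat_lit 1100001, nat_lit 2093250, [nat_lit 490000, nat_lit 1100000, nat_lit 1785000], [nat_lit 34, nat_lit 40, nat_lit 40, nat_lit 80, nat_lit 7, nat_lit 373, nat_lit 150, nat_lit 11]⟩, ⟨p096_k15, nat_lit 0, nat_lit 0, nat_lit 339, nat_lit 0, nat_lit 444625, [nat_lit 3282000000, nat_lit 6250000000, nat_lit 11872000000], [], [nat_lit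 20785518619, nat_lit 22945373455, nat_lit 23131656328, nat_lit 23963145379, nat_lit 26088461623, nat_lit 27834526597, nat_lit 26965496657, nat_lit 29377167431], nat_lit 1271250, nat_lit 1271250, nat_lit 1100001, nat_lit 1785000, nat_lit 1271250, nat_lit 1271250, [nat_lit 780000, nat_lit 1435000, nat_lit 1271250], [nat_lit 23, nat_lit 40, nat_lit 40, nat_lit 80, nat_lit 12, nat_lit 456, nat_lit 225, nat_lit 11]⟩,
 zbF0, [⟨nat_lit 0, nat_lit 88, nat_lit 67, nat_lit 100, nat_lit 341423035⟩, ⟨nat_lit 4, nat_lit 100, nat_lit 67, nat_lit 88, nat_lit 640209498⟩, ⟨nat_lit 19, nat_lit 100, nat_lit 80, nat_lit 100, nat_lit 367180617⟩]⟩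
noncomputable def b_V_800_700_20_40 : St := ⟨true, nat_lit 1, nat_lit 1, nat_lit 1, nat_lit 120, nat_lit 320, nat_lit 360, nat_lit 280, nat_lit 320, nat_lit 160, nat_lit 240, nat_lit 80, nat_lit 120, nat_lit 160, nat_lit 300, nat_lit 160, nat_lit 336, nat_lit 40, nat_lit 80, nat_lit 0, nat_lit 0, nat_lit 0, nat_lit 0⟩
theorem d_V_800_700_20_40 (h : EB TB.env) : Dead b_V_800_700_20_40 := chkB_sound0 h (T :=
(.spl (nat_lit 0) (nat_lit 340)
(.spl (nat_lit 1) (nat_lit 300)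
(.spl (nat_lit 6) (nat_lit 60)
(.leaf p096_l45)
(.spl (nat_lit 0) (nat_lit 330)
(.leaf p096_l46)
(.trX (nat_lit 16) (nat_lit 83) (nat_lit 98) (nat_lit 100) (nat_lit 288) (.leaf p096_l47))))
(.trX (nat_lit 19) (nat_lit 94) (nat_lit 88) (nat_lit 100) (nat_lit 320) (.leaf p096_l48)))
(.trX (nat_lit 16) (nat_lit 77) (nat_lit 100) (nat_lit 99) (nat_lit 276) (.spl (nat_lit 6) (nat_lit 60)
(.leaf p096_l49)
(.leaf p096_l50))))) (by decide +kernel)
noncomputable def p096_l51 : Lf2 := ⟨nat_lit 0, nat_lit 20, [nat_lit 5, nat_lit 5, nat_lit 5, nat_lit 20], false, nat_lit 0, nat_lit 160, nat_lit 0, nat_lit 336, ⟨nat_lit 1000, nat_lit 0, nat_lit 0, nat_lit 0, nat_lit 0, nat_lit 0, nat_lit 0, nat_lit 0, nat_lit 0, nat_lit 0, nat_lit 0, nat_lit 0, nat_lit 0, nat_lit 0, nat_lit 0, nat_lit 0, false, false⟩,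
 nat_lit 10497, nat_lit 0, nat_lit 0, nat_lit 0, nat_lit 7224, nat_lit 6679, nat_lit 532, nat_lit 0, nat_lit 0, nat_lit 766, nat_lit 0, nat_lit 0, nat_lit 0, nat_lit 0, nat_lit 0, nat_lit 0, nat_lit 0, nat_lit 0, [],
 ⟨p096_k14, nat_lit 0, nat_lit 0, nat_lit 417, nat_lit 0, nat_lit 466709, [nat_lit 2032000001, nat_lit 4688000000, nat_lit 9842000000], [], [nat_lit 29392607972, nat_lit 32736161060, nat_lit 41484917344, nat_lit 44487665408, nat_lit 25006749156, nat_lit 26643456228, nat_lit 32980806656, nat_lit 35602572640], nat_lit 1271250, nat_lit 1271250, nat_lit 1271250, nat_lit 1271250, nat_lit 0, nat_lit 1100001, [nat_lit 490000, nat_lit 1100000, nat_lit 2127500], [nat_lit 27, nat_lit 40, nat_lit 40, nat_lit 80, nat_lit 13, nat_lit 373, nat_lit 150, nat_lit 10]⟩, ⟨p096_k15, nat_lit 0, nat_lit 0, nat_lit 510, nat_lit 0, nat_lit 576160, [nat_lit 3282000000, nat_lit 6250000000, nat_lit 11872000000], [], [nat_lit 33363857682,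 nat_lit 34900585470, nat_lit 39285149438, nat_lit 40181536854, nat_lit 32332368651, nat_lit 33132669288, nat_lit 36373390363, nat_lit 37009011835], nat_lit 1271250, nat_lit 1271250, nat_lit 1271250, nat_lit 1271250, nat_lit 0, nat_lit 2373000, [nat_lit 780000, nat_lit 1435000, nat_lit 1271250], [nat_lit 23, nat_lit 40, nat_lit 40, nat_lit 80, nat_lit 12, nat_lit 538, nat_lit 300, nat_lit 13]⟩,
 zbF0, [⟨nat_lit 19, nat_lit 100, nat_lit 100, nat_lit 100, nat_lit 87553585⟩, ⟨nat_lit 22, nat_lit 83, nat_lit 100, nat_lit 83, nat_lit 79254120⟩]⟩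
noncomputable def p096_l52 : Lf2 := ⟨nat_lit 0, nat_lit 20, [nat_lit 5, nat_lit 5, nat_lit 5, nat_lit 20], false, nat_lit 160, nat_lit 300, nat_lit 0, nat_lit 336, ⟨nat_lit 1000, nat_lit 0, nat_lit 0, nat_lit 0, nat_lit 0, nat_lit 0, nat_lit 0, nat_lit 0, nat_lit 0, nat_lit 0, nat_lit 0, nat_lit 0, nat_lit 0, nat_lit 0, nat_lit 0, nat_lit 0, false, false⟩,
 nat_lit 11454, nat_lit 0, nat_lit 0, nat_lit 0, nat_lit 6547, nat_lit 7288, nat_lit 658, nat_lit 0, nat_lit 0, nat_lit 687, nat_lit 0, nat_lit 0, nat_lit 0, nat_lit 0, nat_lit 0, nat_lit 0, nat_lit 0, nat_lit 0, [],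
 ⟨p096_k14, nat_lit 0, nat_lit 0, nat_lit 251, nat_lit 0, nat_lit 362377, [nat_lit 2032000001, nat_lit 4688000000, nat_lit 9842000000], [], [nat_lit 23731427534, nat_lit 24852582760, nat_lit 32127282968, nat_lit 33371272944, nat_lit 26809596183, nat_lit 27769463295, nat_lit 34866168246, nat_lit 35782482494], nat_lit 1271250, nat_lit 1271250, nat_lit 1271250, nat_lit 1271250, nat_lit 1100001, nat_lit 2298750, [nat_lit 490000, nat_lit 1100000, nat_lit 2127500], [nat_lit 27, nat_lit 40, nat_lit 40, nat_lit 80, nat_lit 13, nat_lit 401, nat_lit 175, nat_lit 10]⟩, ⟨p096_k15, nat_lit 0, nat_lit 0, nat_lit 432, nat_lit 0, nat_lit 447359, [nat_lit 3282000000, nat_lit 6250000000, nat_lit 11872000000], [], [nat_lit 32950414929, nat_lit 34539012465, nat_lit 40179023825, nat_lit 41663973728, nat_lit 31275046763, nat_lit 32074280254, nat_lit 35765784858, nat_lit 37156265236], nat_lit 1271250, nat_lit 1271250, nat_lit 1271250, nat_lit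 1271250, nat_lit 0, nat_lit 2373000, [nat_lit 780000, nat_lit 1435000, nat_lit 1271250], [nat_lit 23, nat_lit 40, nat_lit 40, nat_lit 80, nat_lit 12, nat_lit 538, nat_lit 300, nat_lit 13]⟩,
 zbF0, [⟨nat_lit 4, nat_lit 100, nat_lit 81, nat_lit 92, nat_lit 410275727⟩, ⟨nat_lit 7, nat_lit 100, nat_lit 100, nat_lit 100, nat_lit 122302624⟩]⟩
noncomputable def p096_l53 : Lf2 := ⟨nat_lit 0, nat_lit 20, [nat_lit 5, nat_lit 5, nat_lit 5, nat_lit 20], false, nat_lit 160, nat_lit 276, nat_lit 0, nat_lit 336, ⟨nat_lit 1000, nat_lit 0, nat_lit 0, nat_lit 0, nat_lit 0, nat_lit 0, nat_lit 0, nat_lit 0, nat_lit 0, nat_lit 0, nat_lit 0, nat_lit 0, nat_lit 0, nat_lit 0, nat_lit 0, nat_lit 0, false, false⟩,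
 nat_lit 11364, nat_lit 0, nat_lit 0, nat_lit 0, nat_lit 5164, nat_lit 7231, nat_lit 620, nat_lit 0, nat_lit 0, nat_lit 761, nat_lit 0, nat_lit 0, nat_lit 0, nat_lit 0, nat_lit 0, nat_lit 0, nat_lit 0, nat_lit 0, [],
 ⟨p096_k29, nat_lit 0, nat_lit 0, nat_lit 258, nat_lit 0, nat_lit 424070, [nat_lit 2032000001, nat_lit 4688000000, nat_lit 7968000000], [], [nat_lit 23647255716, nat_lit 24735852908, nat_lit 31491012528, nat_lit 32598351040, nat_lit 26143374751, nat_lit 27018166458, nat_lit 33410489397, nat_lit 34296122220], nat_lit 1271250, nat_lit 1271250, nat_lit 1271250, nat_lit 1271250, nat_lit 1100001, nat_lit 2093250, [nat_lit 490000, nat_lit 1100000, nat_lit 1785000], [nat_lit 34, nat_lit 40, nat_lit 40, nat_lit 80, nat_lit 7, nat_lit 289, nat_lit 75, nat_lit 8]⟩, ⟨p096_k15, nat_lit 0, nat_lit 0, nat_lit 510, nat_lit 0, nat_lit 576160, [nat_lit 3282000000, nat_lit 6250000000, nat_lit 11872000000], [], [nat_lit 32350319223,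 nat_lit 33934061955, nat_lit 39405112775, nat_lit 41504501636, nat_lit 30735215607, nat_lit 31537906401, nat_lit 35698207072, nat_lit 37085659883], nat_lit 1271250, nat_lit 1271250, nat_lit 1271250, nat_lit 1271250, nat_lit 0, nat_lit 2373000, [nat_lit 780000, nat_lit 1435000, nat_lit 1271250], [nat_lit 23, nat_lit 40, nat_lit 40, nat_lit 80, nat_lit 12, nat_lit 538, nat_lit 300, nat_lit 13]⟩,
 zbF0, [⟨nat_lit 4, nat_lit 100, nat_lit 67, nat_lit 88, nat_lit 486692122⟩, ⟨nat_lit 19, nat_lit 100, nat_lit 100, nat_lit 100, nat_lit 123622025⟩]⟩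
noncomputable def b_V_800_700_20_41 : St := ⟨true, nat_lit 1, nat_lit 1, nat_lit 1, nat_lit 120, nat_lit 320, nat_lit 360, nat_lit 280, nat_lit 320, nat_lit 240, nat_lit 400, nat_lit 80, nat_lit 120, nat_lit 0, nat_lit 300, nat_lit 0, nat_lit 336, nat_lit 40, nat_lit 80, nat_lit 0, nat_lit 0, nat_lit 0, nat_lit 0⟩
theorem d_V_800_700_20_41 (h : EB TB.env) : Dead b_V_800_700_20_41 := chkB_sound0 h (T :=
(.spl (nat_lit 4) (nat_lit 160)
(.leaf p096_l51)
(.spl (nat_lit 0) (nat_lit 340)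
(.leaf p096_l52)
(.trX (nat_lit 16) (nat_lit 77) (nat_lit 100) (nat_lit 99) (nat_lit 276) (.leaf p096_l53))))) (by decide +kernel)
noncomputable def p096_l54 : Lf2 := ⟨nat_lit 0, nat_lit 20, [nat_lit 5, nat_lit 5, nat_lit 5, nat_lit 20], false, nat_lit 0, nat_lit 160, nat_lit 0, nat_lit 160, ⟨nat_lit 1000, nat_lit 0, nat_lit 0, nat_lit 0, nat_lit 0, nat_lit 0, nat_lit 0, nat_lit 0, nat_lit 0, nat_lit 0, nat_lit 0, nat_lit 0, nat_lit 0, nat_lit 0, nat_lit 0, nat_lit 0, false, false⟩,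
 nat_lit 0, nat_lit 9837, nat_lit 0, nat_lit 0, nat_lit 7377, nat_lit 6969, nat_lit 779, nat_lit 0, nat_lit 0, nat_lit 1307, nat_lit 0, nat_lit 0, nat_lit 0, nat_lit 0, nat_lit 0, nat_lit 0, nat_lit 0, nat_lit 0, [],
 ⟨p096_k14, nat_lit 0, nat_lit 0, nat_lit 597, nat_lit 0, nat_lit 794224, [nat_lit 2032000001, nat_lit 4688000000, nat_lit 9842000000], [], [nat_lit 26022897649, nat_lit 29564775524, nat_lit 27103282428, nat_lit 31708574116, nat_lit 22655495496, nat_lit 24883483838, nat_lit 31441253293, nat_lit 25530740960], nat_lit 1271250, nat_lit 1271250, nat_lit 631250, nat_lit 1751250, nat_lit 0, nat_lit 1100001, [nat_lit 490000, nat_lit 1100000, nat_lit 2127500], [nat_lit 27, nat_lit 40, nat_lit 40, nat_lit 80, nat_lit 13, nat_lit 317, nat_lit 100, nat_lit 9]⟩, ⟨p096_k15, nat_lit 0, nat_lit 0, nat_lit 230, nat_lit 0, nat_lit 0, [nat_lit 3282000000, nat_lit 6250000000, nat_lit 11872000000], [], [nat_lit 22012502895,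 nat_lit 25363608405, nat_lit 24104679957, nat_lit 27172676576, nat_lit 16941085551, nat_lit 19776179875, nat_lit 19472415920, nat_lit 22485750564], nat_lit 0, nat_lit 0, nat_lit 0, nat_lit 0, nat_lit 0, nat_lit 0, [], [nat_lit 23, nat_lit 40, nat_lit 40, nat_lit 80, nat_lit 12, nat_lit 428, nat_lit 200, nat_lit 11]⟩,
 zbF0, [⟨nat_lit 0, nat_lit 90, nat_lit 74, nat_lit 100, nat_lit 496193113⟩]⟩
noncomputable def p096_l55 : Lf2 := ⟨nat_lit 0, nat_lit 20, [nat_lit 5, nat_lit 5, nat_lit 5, nat_lit 20], false, nat_lit 0, nat_lit 160, nat_lit 160, nat_lit 336, ⟨nat_lit 1000, nat_lit 0, nat_lit 0, nat_lit 0, nat_lit 0, nat_lit 0, nat_lit 0, nat_lit 0, nat_lit 0, nat_lit 0, nat_lit 0, nat_lit 0, nat_lit 0, nat_lit 0, nat_lit 0, nat_lit 0, false, false⟩,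
 nat_lit 0, nat_lit 9837, nat_lit 0, nat_lit 0, nat_lit 7377, nat_lit 4717, nat_lit 756, nat_lit 0, nat_lit 0, nat_lit 0, nat_lit 0, nat_lit 0, nat_lit 0, nat_lit 0, nat_lit 0, nat_lit 0, nat_lit 0, nat_lit 0, [],
 ⟨p096_k14, nat_lit 0, nat_lit 0, nat_lit 597, nat_lit 0, nat_lit 794224, [nat_lit 2032000001, nat_lit 4688000000, nat_lit 9842000000], [], [nat_lit 26252825774, nat_lit 29570540144, nat_lit 27214099156, nat_lit 31708574116, nat_lit 22770625988, nat_lit 24883483838, nat_lit 31671181418, nat_lit 25530740960], nat_lit 1271250, nat_lit 1271250, nat_lit 631250, nat_lit 1751250, nat_lit 0, nat_lit 1100001, [nat_lit 490000, nat_lit 1100000, nat_lit 2127500], [nat_lit 27, nat_lit 40, nat_lit 40, nat_lit 80, nat_lit 13, nat_lit 317, nat_lit 100, nat_lit 9]⟩, ⟨p096_k15, nat_lit 0, nat_lit 0, nat_lit 79, nat_lit 0, nat_lit 0, [nat_lit 3282000000, nat_lit 6250000000, nat_lit 11872000000], [], [nat_lit 12774573318, nat_lit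 16368209908, nat_lit 17332414768, nat_lit 20125403920, nat_lit 22933141477, nat_lit 25272232081, nat_lit 25202875200, nat_lit 27058186973], nat_lit 0, nat_lit 0, nat_lit 0, nat_lit 0, nat_lit 0, nat_lit 0, [], [nat_lit 23, nat_lit 40, nat_lit 40, nat_lit 80, nat_lit 12, nat_lit 456, nat_lit 225, nat_lit 11]⟩,
 zbF0, [⟨nat_lit 0, nat_lit 90, nat_lit 74, nat_lit 100, nat_lit 442476551⟩, ⟨nat_lit 7, nat_lit 100, nat_lit 100, nat_lit 100, nat_lit 451996267⟩]⟩
noncomputable def p096_l56 : Lf2 := ⟨nat_lit 0, nat_lit 20, [nat_lit 5, nat_lit 5, nat_lit 5, nat_lit 20], false, nat_lit 160, nat_lit 300, nat_lit 0, nat_lit 160, ⟨nat_lit 1000, nat_lit 0, nat_lit 0, nat_lit 0, nat_lit 0, nat_lit 0, nat_lit 0, nat_lit 0, nat_lit 0, nat_lit 0, nat_lit 0, nat_lit 0, nat_lit 0, nat_lit 0, nat_lit 0, nat_lit 0, false, false⟩,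
 nat_lit 0, nat_lit 9391, nat_lit 0, nat_lit 0, nat_lit 7043, nat_lit 6638, nat_lit 667, nat_lit 0, nat_lit 0, nat_lit 1279, nat_lit 0, nat_lit 0, nat_lit 0, nat_lit 0, nat_lit 0, nat_lit 0, nat_lit 0, nat_lit 0, [],
 ⟨p096_k14, nat_lit 0, nat_lit 0, nat_lit 476, nat_lit 0, nat_lit 794224, [nat_lit 2032000001, nat_lit 4688000000, nat_lit 9842000000], [], [nat_lit 23573861141, nat_lit 25635198669, nat_lit 24313523367, nat_lit 25932270171, nat_lit 26408830027, nat_lit 28521923358, nat_lit 29265723688, nat_lit 29308634064], nat_lit 1271250, nat_lit 1271250, nat_lit 631250, nat_lit 1751250, nat_lit 1100001, nat_lit 2298750, [nat_lit 490000, nat_lit 1100000, nat_lit 2127500], [nat_lit 27, nat_lit 40, nat_lit 40, nat_lit 80, nat_lit 13, nat_lit 373, nat_lit 150, nat_lit 10]⟩, ⟨p096_k15, nat_lit 0, nat_lit 0, nat_lit 230, nat_lit 0, nat_lit 0, [nat_lit 3282000000, nat_lit 6250000000, nat_lit 11872000000], [], [nat_lit 22084317165,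 nat_lit 25340495185, nat_lit 24241701889, nat_lit 27114981952, nat_lit 17396653277, nat_lit 20155685125, nat_lit 19862439840, nat_lit 22792006328], nat_lit 0, nat_lit 0, nat_lit 0, nat_lit 0, nat_lit 0, nat_lit 0, [], [nat_lit 23, nat_lit 40, nat_lit 40, nat_lit 80, nat_lit 12, nat_lit 428, nat_lit 200, nat_lit 11]⟩,
 zbF0, [⟨nat_lit 0, nat_lit 90, nat_lit 74, nat_lit 100, nat_lit 496862005⟩, ⟨nat_lit 4, nat_lit 100, nat_lit 74, nat_lit 90, nat_lit 481792356⟩]⟩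
noncomputable def p096_l57 : Lf2 := ⟨nat_lit 0, nat_lit 20, [nat_lit 5, nat_lit 5, nat_lit 5, nat_lit 20], false, nat_lit 160, nat_lit 300, nat_lit 160, nat_lit 336, ⟨nat_lit 717, nat_lit 283, nat_lit 0, nat_lit 7, nat_lit 223, nat_lit 283, nat_lit 177, nat_lit 0, nat_lit 0, nat_lit 0, nat_lit 0, nat_lit 0, nat_lit 0, nat_lit 0, nat_lit 0, nat_lit 5000000, false, false⟩,
 nat_lit 0, nat_lit 7917, nat_lit 0, nat_lit 0, nat_lit 5937, nat_lit 3380, nat_lit 499, nat_lit 0, nat_lit 0, nat_lit 0, nat_lit 0, nat_lit 0, nat_lit 0, nat_lit 0, nat_lit 0, nat_lit 283000, nat_lit 0, nat_lit 0, [(nat_lit 19, [(nat_lit 2, nat_lit 283)])],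
 ⟨p096_k14, nat_lit 0, nat_lit 0, nat_lit 383, nat_lit 0, nat_lit 616676, [nat_lit 1937666667, nat_lit 3658710134, nat_lit 6164471600], [], [nat_lit 20953694027, nat_lit 22085151340, nat_lit 22355618255, nat_lit 23254036527, nat_lit 24436041852, nat_lit 25494703350, nat_lit 28080274650, nat_lit 27045396051], nat_lit 1271250, nat_lit 1271250, nat_lit 631250, nat_lit 1751250, nat_lit 1100001, nat_lit 2298750, [nat_lit 490000, nat_lit 1100000, nat_lit 2127500], [nat_lit 27, nat_lit 40, nat_lit 40, nat_lit 80, nat_lit 13, nat_lit 373, nat_lit 150, nat_lit 10]⟩, ⟨p096_k15, nat_lit 0, nat_lit 0, nat_lit 79, nat_lit 0, nat_lit 0, [nat_lit 2353194000, nat_lit 4481250000, nat_lit 8512224000], [], [nat_lit 9162060006, nat_lit 11737779806, nat_lit 12429725556, nat_lit 14431653160, nat_lit 16443735368, nat_lit 18120378702, nat_lit 18071577968, nat_lit 19401510624], nat_lit 0, nat_lit 0, nat_lit 0, nat_lit 0, nat_lit 0, nat_lit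 0, [], [nat_lit 23, nat_lit 40, nat_lit 40, nat_lit 80, nat_lit 12, nat_lit 456, nat_lit 225, nat_lit 11]⟩,
 ⟨nat_lit 3872, nat_lit 4473, ⟨.ofNat (nat_lit 416230), .ofNat (nat_lit 654181), .ofNat (nat_lit 459327), .ofNat (nat_lit 697279), .ofNat (nat_lit 425778), .ofNat (nat_lit 651631), .ofNat (nat_lit 469330), .ofNat (nat_lit 695183)⟩, ⟨.ofNat (nat_lit 302621), .ofNat (nat_lit 540545), .ofNat (nat_lit 345754), .ofNat (nat_lit 583678), .ofNat (nat_lit 304717), .ofNat (nat_lit 530543), .ofNat (nat_lit 348304), .ofNat (nat_lit 574129)⟩⟩, [⟨nat_lit 0, nat_lit 92, nat_lit 81, nat_lit 100, nat_lit 238955078⟩, ⟨nat_lit 16, nat_lit 87, nat_lit 95, nat_lit 100, nat_lit 351828655⟩, ⟨nat_lit 7, nat_lit 100, nat_lit 100, nat_lit 100, nat_lit 323909094⟩]⟩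
noncomputable def p096_l58 : Lf2 := ⟨nat_lit 0, nat_lit 20, [nat_lit 5, nat_lit 5, nat_lit 5, nat_lit 20], false, nat_lit 160, nat_lit 276, nat_lit 160, nat_lit 336, ⟨nat_lit 718, nat_lit 282, nat_lit 0, nat_lit 7, nat_lit 233, nat_lit 282, nat_lit 167, nat_lit 0, nat_lit 0, nat_lit 0, nat_lit 0, nat_lit 0, nat_lit 0, nat_lit 0, nat_lit 0, nat_lit 5000000, false, false⟩,
 nat_lit 0, nat_lit 6754, nat_lit 0, nat_lit 0, nat_lit 5467, nat_lit 3437, nat_lit 517, nat_lit 0, nat_lit 0, nat_lit 0, nat_lit 0, nat_lit 0, nat_lit 0, nat_lit 0, nat_lit 0, nat_lit 282000, nat_lit 0, nat_lit 0, [(nat_lit 22, [(nat_lit 2, nat_lit 282)])],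
 ⟨p096_k37, nat_lit 0, nat_lit 0, nat_lit 376, nat_lit 0, nat_lit 714187, [nat_lit 2312195201, nat_lit 4629571200], [], [nat_lit 21794101313, nat_lit 22761824365, nat_lit 23141201113, nat_lit 23940650253, nat_lit 24045391884, nat_lit 25088296228, nat_lit 25559248815, nat_lit 26994921399], nat_lit 1271250, nat_lit 1271250, nat_lit 810650, nat_lit 1764750, nat_lit 1100001, nat_lit 2093250, [nat_lit 490000, nat_lit 1740000], [nat_lit 110, nat_lit 40, nat_lit 40, nat_lit 80, nat_lit 109, nat_lit 373, nat_lit 150, nat_lit 11]⟩, ⟨p096_k38, nat_lit 0, nat_lit 0, nat_lit 49, nat_lit 0, nat_lit 0, [nat_lit 2356476000, nat_lit 8524096000], [], [nat_lit 9301692923, nat_lit 11820180149, nat_lit 12387387592, nat_lit 14408266560, nat_lit 16424334741, nat_lit 18066721809, nat_lit 18068838592, nat_lit 19418691690], nat_lit 0, nat_lit 0, nat_lit 0, nat_lit 0, nat_lit 0, nat_lit 0, [], [nat_lit 135, nat_lit 40, nat_lit 40, nat_lit 80,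 nat_lit 134, nat_lit 456, nat_lit 225, nat_lit 11]⟩,
 ⟨nat_lit 3162, nat_lit 3873, ⟨.ofNat (nat_lit 464406), .ofNat (nat_lit 651611), .ofNat (nat_lit 507934), .ofNat (nat_lit 695141), .ofNat (nat_lit 472632), .ofNat (nat_lit 649490), .ofNat (nat_lit 516884), .ofNat (nat_lit 693742)⟩, ⟨.ofNat (nat_lit 304717), .ofNat (nat_lit 491830), .ofNat (nat_lit 348304), .ofNat (nat_lit 535416), .ofNat (nat_lit 306116), .ofNat (nat_lit 482881), .ofNat (nat_lit 350426), .ofNat (nat_lit 527190)⟩⟩, [⟨nat_lit 0, nat_lit 88, nat_lit 67, nat_lit 100, nat_lit 311208514⟩, ⟨nat_lit 16, nat_lit 77, nat_lit 100, nat_lit 99, nat_lit 362504670⟩, ⟨nat_lit 7, nat_lit 100, nat_lit 100, nat_lit 100, nat_lit 306267357⟩]⟩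
noncomputable def p096_l59 : Lf2 := ⟨nat_lit 0, nat_lit 20, [nat_lit 5, nat_lit 5, nat_lit 5, nat_lit 20], false, nat_lit 0, nat_lit 300, nat_lit 0, nat_lit 160, ⟨nat_lit 1000, nat_lit 0, nat_lit 0, nat_lit 0, nat_lit 0, nat_lit 0, nat_lit 0, nat_lit 0, nat_lit 0, nat_lit 0, nat_lit 0, nat_lit 0, nat_lit 0, nat_lit 0, nat_lit 0, nat_lit 0, false, false⟩,
 nat_lit 0, nat_lit 7963, nat_lit 0, nat_lit 0, nat_lit 5972, nat_lit 6614, nat_lit 639, nat_lit 0, nat_lit 0, nat_lit 1012, nat_lit 0, nat_lit 0, nat_lit 0, nat_lit 0, nat_lit 0, nat_lit 0, nat_lit 0, nat_lit 0, [],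
 ⟨p096_k14, nat_lit 0, nat_lit 0, nat_lit 463, nat_lit 0, nat_lit 616676, [nat_lit 2032000001, nat_lit 4688000000, nat_lit 9842000000], [], [nat_lit 31284315547, nat_lit 32185094779, nat_lit 37982126832, nat_lit 39335429328, nat_lit 30512938683, nat_lit 31084269665, nat_lit 34769729068, nat_lit 35243527256], nat_lit 1271250, nat_lit 1271250, nat_lit 1271250, nat_lit 1271250, nat_lit 0, nat_lit 2118750, [nat_lit 490000, nat_lit 1100000, nat_lit 2127500], [nat_lit 27, nat_lit 40, nat_lit 40, nat_lit 80, nat_lit 13, nat_lit 401, nat_lit 175, nat_lit 11]⟩, ⟨p096_k15, nat_lit 0, nat_lit 0, nat_lit 242, nat_lit 0, nat_lit 0, [nat_lit 3282000000, nat_lit 6250000000, nat_lit 11872000000], [], [nat_lit 28725123892, nat_lit 30695882732, nat_lit 37362081296, nat_lit 39778286184, nat_lit 24514487764, nat_lit 26169126364, nat_lit 32451396592, nat_lit 33808471248], nat_lit 0, nat_lit 0, nat_lit 0, nat_lit 0, nat_lit 0, nat_lit 0,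 [], [nat_lit 23, nat_lit 40, nat_lit 40, nat_lit 80, nat_lit 12, nat_lit 456, nat_lit 225, nat_lit 11]⟩,
 zbF0, [⟨nat_lit 4, nat_lit 100, nat_lit 81, nat_lit 92, nat_lit 150818102⟩]⟩
noncomputable def p096_l60 : Lf2 := ⟨nat_lit 0, nat_lit 20, [nat_lit 5, nat_lit 5, nat_lit 5, nat_lit 20], false, nat_lit 0, nat_lit 276, nat_lit 0, nat_lit 160, ⟨nat_lit 1000, nat_lit 0, nat_lit 0, nat_lit 0, nat_lit 0, nat_lit 0, nat_lit 0, nat_lit 0, nat_lit 0, nat_lit 0, nat_lit 0, nat_lit 0, nat_lit 0, nat_lit 0, nat_lit 0, nat_lit 0, false, false⟩,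
 nat_lit 0, nat_lit 6274, nat_lit 0, nat_lit 0, nat_lit 5078, nat_lit 6764, nat_lit 625, nat_lit 0, nat_lit 0, nat_lit 774, nat_lit 0, nat_lit 0, nat_lit 0, nat_lit 0, nat_lit 0, nat_lit 0, nat_lit 0, nat_lit 0, [],
 ⟨p096_k29, nat_lit 0, nat_lit 0, nat_lit 454, nat_lit 0, nat_lit 714187, [nat_lit 2032000001, nat_lit 4688000000, nat_lit 7968000000], [], [nat_lit 28297029829, nat_lit 29098308701, nat_lit 36728503872, nat_lit 37976074776, nat_lit 28139165094, nat_lit 28690478973, nat_lit 33306201918, nat_lit 34186153591], nat_lit 1271250, nat_lit 1271250, nat_lit 1271250, nat_lit 1271250, nat_lit 0, nat_lit 1949250, [nat_lit 490000, nat_lit 1100000, nat_lit 1785000], [nat_lit 34, nat_lit 40, nat_lit 40, nat_lit 80, nat_lit 7, nat_lit 289, nat_lit 75, nat_lit 9]⟩, ⟨p096_k15, nat_lit 0, nat_lit 0, nat_lit 242, nat_lit 0, nat_lit 0, [nat_lit 3282000000, nat_lit 6250000000, nat_lit 11872000000], [], [nat_lit 30885416842,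 nat_lit 32876434682, nat_lit 38754405850, nat_lit 40202889018, nat_lit 26519027914, nat_lit 28188651514, nat_lit 32933737882, nat_lit 33911128698], nat_lit 0, nat_lit 0, nat_lit 0, nat_lit 0, nat_lit 0, nat_lit 0, [], [nat_lit 23, nat_lit 40, nat_lit 40, nat_lit 80, nat_lit 12, nat_lit 456, nat_lit 225, nat_lit 11]⟩,
 zbF0, [⟨nat_lit 16, nat_lit 67, nat_lit 100, nat_lit 88, nat_lit 179929397⟩]⟩
noncomputable def p096_l61 : Lf2 := ⟨nat_lit 0, nat_lit 20, [nat_lit 5, nat_lit 5, nat_lit 5, nat_lit 20], false, nat_lit 0, nat_lit 300, nat_lit 160, nat_lit 336, ⟨nat_lit 1000, nat_lit 0, nat_lit 0, nat_lit 0, nat_lit 0, nat_lit 0, nat_lit 0, nat_lit 0, nat_lit 0, nat_lit 0, nat_lit 0, nat_lit 0, nat_lit 0, nat_lit 0, nat_lit 0, nat_lit 0, false, false⟩,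
 nat_lit 0, nat_lit 8065, nat_lit 0, nat_lit 0, nat_lit 6048, nat_lit 7496, nat_lit 638, nat_lit 0, nat_lit 0, nat_lit 0, nat_lit 0, nat_lit 0, nat_lit 0, nat_lit 0, nat_lit 0, nat_lit 0, nat_lit 0, nat_lit 0, [],
 ⟨p096_k14, nat_lit 0, nat_lit 0, nat_lit 463, nat_lit 0, nat_lit 616676, [nat_lit 2032000001, nat_lit 4688000000, nat_lit 9842000000], [], [nat_lit 31086184598, nat_lit 31992090486, nat_lit 38194756288, nat_lit 39557047152, nat_lit 30238704222, nat_lit 30811965110, nat_lit 34509852312, nat_lit 35169331004], nat_lit 1271250, nat_lit 1271250, nat_lit 1271250, nat_lit 1271250, nat_lit 0, nat_lit 2118750, [nat_lit 490000, nat_lit 1100000, nat_lit 2127500], [nat_lit 27, nat_lit 40, nat_lit 40, nat_lit 80, nat_lit 13, nat_lit 401, nat_lit 175, nat_lit 11]⟩, ⟨p096_k15, nat_lit 0, nat_lit 0, nat_lit 90, nat_lit 0, nat_lit 0, [nat_lit 3282000000, nat_lit 6250000000, nat_lit 11872000000], [], [nat_lit 18851441280,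 nat_lit 21998146976, nat_lit 31029229248, nat_lit 33323729024, nat_lit 26959696148, nat_lit 28936174957, nat_lit 36012384500, nat_lit 37413912839], nat_lit 0, nat_lit 0, nat_lit 0, nat_lit 0, nat_lit 0, nat_lit 0, [], [nat_lit 23, nat_lit 40, nat_lit 40, nat_lit 80, nat_lit 12, nat_lit 538, nat_lit 300, nat_lit 13]⟩,
 zbF0, [⟨nat_lit 16, nat_lit 81, nat_lit 100, nat_lit 92, nat_lit 144219746⟩, ⟨nat_lit 7, nat_lit 100, nat_lit 100, nat_lit 100, nat_lit 351703538⟩]⟩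
noncomputable def p096_l62 : Lf2 := ⟨nat_lit 0, nat_lit 20, [nat_lit 5, nat_lit 5, nat_lit 5, nat_lit 20], false, nat_lit 0, nat_lit 276, nat_lit 160, nat_lit 336, ⟨nat_lit 1000, nat_lit 0, nat_lit 0, nat_lit 0, nat_lit 0, nat_lit 0, nat_lit 0, nat_lit 0, nat_lit 0, nat_lit 0, nat_lit 0, nat_lit 0, nat_lit 0, nat_lit 0, nat_lit 0, nat_lit 0, false, false⟩,
 nat_lit 0, nat_lit 5756, nat_lit 0, nat_lit 0, nat_lit 4659, nat_lit 6882, nat_lit 907, nat_lit 0, nat_lit 0, nat_lit 0, nat_lit 0, nat_lit 0, nat_lit 0, nat_lit 0, nat_lit 0, nat_lit 0, nat_lit 0, nat_lit 0, [],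
 ⟨p096_k29, nat_lit 0, nat_lit 0, nat_lit 454, nat_lit 0, nat_lit 714187, [nat_lit 2032000001, nat_lit 4688000000, nat_lit 7968000000], [], [nat_lit 26436027795, nat_lit 27351084881, nat_lit 35506689816, nat_lit 36704706428, nat_lit 27537896332, nat_lit 28172069914, nat_lit 32798103621, nat_lit 33650376195], nat_lit 1271250, nat_lit 1271250, nat_lit 1271250, nat_lit 1271250, nat_lit 0, nat_lit 1949250, [nat_lit 490000, nat_lit 1100000, nat_lit 1785000], [nat_lit 34, nat_lit 40, nat_lit 40, nat_lit 80, nat_lit 7, nat_lit 289, nat_lit 75, nat_lit 9]⟩, ⟨p096_k15, nat_lit 0, nat_lit 0, nat_lit 90, nat_lit 0, nat_lit 0, [nat_lit 3282000000, nat_lit 6250000000, nat_lit 11872000000], [], [nat_lit 19574929760, nat_lit 22566246792, nat_lit 30795560448, nat_lit 32550953456, nat_lit 27406342343, nat_lit 29307730426, nat_lit 35284441327, nat_lit 36653356933], nat_lit 0, nat_lit 0, nat_lit 0, nat_lit 0, nat_lit 0, nat_lit 0, [],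 [nat_lit 23, nat_lit 40, nat_lit 40, nat_lit 80, nat_lit 12, nat_lit 538, nat_lit 300, nat_lit 13]⟩,
 zbF0, [⟨nat_lit 4, nat_lit 100, nat_lit 67, nat_lit 88, nat_lit 202560590⟩, ⟨nat_lit 7, nat_lit 100, nat_lit 100, nat_lit 100, nat_lit 344982501⟩]⟩
noncomputable def p096_l63 : Lf2 := ⟨nat_lit 0, nat_lit 20, [nat_lit 5, nat_lit 5, nat_lit 5, nat_lit 20], false, nat_lit 0, nat_lit 160, nat_lit 0, nat_lit 336, ⟨nat_lit 80, nat_lit 920, nat_lit 0, nat_lit 7, nat_lit 224, nat_lit 920, nat_lit 65, nat_lit 0, nat_lit 0, nat_lit 0, nat_lit 0, nat_lit 0, nat_lit 0, nat_lit 0, nat_lit 0, nat_lit 5000000, false, false⟩,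
 nat_lit 1660, nat_lit 4059, nat_lit 0, nat_lit 0, nat_lit 4289, nat_lit 1056, nat_lit 33, nat_lit 0, nat_lit 0, nat_lit 13, nat_lit 0, nat_lit 0, nat_lit 0, nat_lit 0, nat_lit 6, nat_lit 672800, nat_lit 0, nat_lit 0, [(nat_lit 19, [(nat_lit 1, nat_lit 412), (nat_lit 2, nat_lit 508)]), (nat_lit 22, [(nat_lit 1, nat_lit 412), (nat_lit 2, nat_lit 508)])],
 ⟨p096_k20, nat_lit 0, nat_lit 0, nat_lit 456, nat_lit 0, nat_lit 466709, [nat_lit 2010085601, nat_lit 1461124001, nat_lit 108521600], [], [nat_lit 25031925557, nat_lit 24126277921, nat_lit 23966146469, nat_lit 25820026885, nat_lit 21360184541, nat_lit 22874072085, nat_lit 24507177681, nat_lit 24269670489], nat_lit 1271250, nat_lit 1271250, nat_lit 631250, nat_lit 1751250, nat_lit 0, nat_lit 1100001, [nat_lit 490000, nat_lit 1427500, nat_lit 1271250], [nat_lit 61, nat_lit 40, nat_lit 40, nat_lit 80, nat_lit 1, nat_lit 317, nat_lit 100, nat_lit 9]⟩, ⟨p096_k21, nat_lit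 0, nat_lit 0, nat_lit 560, nat_lit 0, nat_lit 576160, [nat_lit 262560000, nat_lit 637440000, nat_lit 949760000], [], [nat_lit 3550828672, nat_lit 3339358245, nat_lit 2997483333, nat_lit 3302120133, nat_lit 2698405753, nat_lit 2894930470, nat_lit 3535158567, nat_lit 2634623276], nat_lit 1271250, nat_lit 1271250, nat_lit 631250, nat_lit 1751250, nat_lit 0, nat_lit 2373000, [nat_lit 780000, nat_lit 1762500, nat_lit 1271250], [nat_lit 79, nat_lit 40, nat_lit 40, nat_lit 80, nat_lit 14, nat_lit 456, nat_lit 225, nat_lit 12]⟩,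
 ⟨nat_lit 3162, nat_lit 4473, ⟨.ofNat (nat_lit 415764), .ofNat (nat_lit 653959), .ofNat (nat_lit 458716), .ofNat (nat_lit 696911), .ofNat (nat_lit 435680), .ofNat (nat_lit 649288), .ofNat (nat_lit 479808), .ofNat (nat_lit 693416)⟩, ⟨.ofNat (nat_lit 0), .ofNat (nat_lit 302621), .ofNat (nat_lit 0), .ofNat (nat_lit 345754), .ofNat (nat_lit 0), .ofNat (nat_lit 306116), .ofNat (nat_lit 0), .ofNat (nat_lit 350426)⟩⟩, [⟨nat_lit 7, nat_lit 100, nat_lit 100, nat_lit 100, nat_lit 5255509⟩]⟩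
noncomputable def p096_l64 : Lf2 := ⟨nat_lit 0, nat_lit 20, [nat_lit 5, nat_lit 5, nat_lit 5, nat_lit 20], false, nat_lit 160, nat_lit 300, nat_lit 0, nat_lit 336, ⟨nat_lit 109, nat_lit 891, nat_lit 0, nat_lit 7, nat_lit 220, nat_lit 891, nat_lit 176, nat_lit 0, nat_lit 0, nat_lit 0, nat_lit 0, nat_lit 0, nat_lit 0, nat_lit 0, nat_lit 0, nat_lit 5000000, false, false⟩,
 nat_lit 2628, nat_lit 4715, nat_lit 0, nat_lit 0, nat_lit 5506, nat_lit 1672, nat_lit 246, nat_lit 0, nat_lit 0, nat_lit 0, nat_lit 0, nat_lit 0, nat_lit 0, nat_lit 0, nat_lit 0, nat_lit 356400, nat_lit 0, nat_lit 0, [(nat_lit 19, [(nat_lit 1, nat_lit 891)]), (nat_lit 22, [(nat_lit 1, nat_lit 891)])],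
 ⟨p096_k14, nat_lit 0, nat_lit 0, nat_lit 299, nat_lit 0, nat_lit 393166, [nat_lit 1467224801, nat_lit 2326493600, nat_lit 2705090000], [], [nat_lit 18676553474, nat_lit 21749662798, nat_lit 20853645526, nat_lit 23283411246, nat_lit 23526270235, nat_lit 26801613100, nat_lit 27033087455, nat_lit 28123533288], nat_lit 1271250, nat_lit 1271250, nat_lit 631250, nat_lit 1751250, nat_lit 1100001, nat_lit 2298750, [nat_lit 490000, nat_lit 1100000, nat_lit 2127500], [nat_lit 27, nat_lit 40, nat_lit 40, nat_lit 80, nat_lit 13, nat_lit 373, nat_lit 150, nat_lit 10]⟩, ⟨p096_k15, nat_lit 0, nat_lit 0, nat_lit 521, nat_lit 0, nat_lit 485370, [nat_lit 357738000, nat_lit 681250000, nat_lit 1294048000], [], [nat_lit 6664610124, nat_lit 5773704988, nat_lit 4356233048, nat_lit 4586732404, nat_lit 3808294025, nat_lit 3954597747, nat_lit 4232313734, nat_lit 3538201931], nat_lit 1271250, nat_lit 1271250, nat_lit 631250, nat_lit 1751250,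 nat_lit 0, nat_lit 2373000, [nat_lit 780000, nat_lit 1435000, nat_lit 1271250], [nat_lit 23, nat_lit 40, nat_lit 40, nat_lit 80, nat_lit 12, nat_lit 456, nat_lit 225, nat_lit 12]⟩,
 ⟨nat_lit 3162, nat_lit 4473, ⟨.ofNat (nat_lit 415764), .ofNat (nat_lit 653959), .ofNat (nat_lit 437240), .ofNat (nat_lit 675435), .ofNat (nat_lit 435680), .ofNat (nat_lit 649288), .ofNat (nat_lit 457744), .ofNat (nat_lit 671352)⟩, ⟨.ofNat (nat_lit 302621), .ofNat (nat_lit 540545), .ofNat (nat_lit 345754), .ofNat (nat_lit 583678), .ofNat (nat_lit 306116), .ofNat (nat_lit 519453), .ofNat (nat_lit 350426), .ofNat (nat_lit 563762)⟩⟩, [⟨nat_lit 16, nat_lit 87, nat_lit 95, nat_lit 100, nat_lit 330587770⟩]⟩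
noncomputable def p096_l65 : Lf2 := ⟨nat_lit 0, nat_lit 20, [nat_lit 5, nat_lit 5, nat_lit 5, nat_lit 20], false, nat_lit 160, nat_lit 300, nat_lit 0, nat_lit 320, ⟨nat_lit 222, nat_lit 778, nat_lit 0, nat_lit 7, nat_lit 235, nat_lit 778, nat_lit 176, nat_lit 0, nat_lit 0, nat_lit 0, nat_lit 0, nat_lit 0, nat_lit 0, nat_lit 0, nat_lit 0, nat_lit 5000000, false, false⟩,
 nat_lit 4335, nat_lit 2707, nat_lit 0, nat_lit 0, nat_lit 5281, nat_lit 3001, nat_lit 126, nat_lit 0, nat_lit 0, nat_lit 0, nat_lit 0, nat_lit 0, nat_lit 0, nat_lit 0, nat_lit 0, nat_lit 470800, nat_lit 0, nat_lit 0, [(nat_lit 19, [(nat_lit 1, nat_lit 512), (nat_lit 2, nat_lit 266)]), (nat_lit 22, [(nat_lit 1, nat_lit 512), (nat_lit 2, nat_lit 266)])],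
 ⟨p096_k20, nat_lit 0, nat_lit 0, nat_lit 319, nat_lit 0, nat_lit 466709, [nat_lit 1852768001, nat_lit 2436287200, nat_lit 2284263200], [], [nat_lit 20251171814, nat_lit 22559705562, nat_lit 22012566906, nat_lit 24165165846, nat_lit 24152956686, nat_lit 26343899378, nat_lit 26652935706, nat_lit 27950047488], nat_lit 1271250, nat_lit 1271250, nat_lit 780000, nat_lit 1762500, nat_lit 1100001, nat_lit 2298750, [nat_lit 490000, nat_lit 1427500, nat_lit 1271250], [nat_lit 61, nat_lit 40, nat_lit 40, nat_lit 80, nat_lit 1, nat_lit 373, nat_lit 150, nat_lit 10]⟩, ⟨p096_k39, nat_lit 0, nat_lit 0, nat_lit 461, nat_lit 0, nat_lit 516746, [nat_lit 728604000, nat_lit 1768896000, nat_lit 2184924000], [], [nat_lit 7183278426, nat_lit 7839707640, nat_lit 7761203626, nat_lit 8261005184, nat_lit 6446060064, nat_lit 6783796892, nat_lit 8216035892, nat_lit 6935353680], nat_lit 1271250, nat_lit 1271250, nat_lit 780000, nat_lit 1762500,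 nat_lit 0, nat_lit 2260000, [nat_lit 780000, nat_lit 1762500, nat_lit 1271250], [nat_lit 99, nat_lit 40, nat_lit 40, nat_lit 80, nat_lit 17, nat_lit 373, nat_lit 150, nat_lit 11]⟩,
 ⟨nat_lit 3162, nat_lit 4473, ⟨.ofNat (nat_lit 471268), .ofNat (nat_lit 675435), .ofNat (nat_lit 492744), .ofNat (nat_lit 696911), .ofNat (nat_lit 488260), .ofNat (nat_lit 671352), .ofNat (nat_lit 510324), .ofNat (nat_lit 693416)⟩, ⟨.ofNat (nat_lit 302621), .ofNat (nat_lit 540545), .ofNat (nat_lit 345754), .ofNat (nat_lit 583678), .ofNat (nat_lit 306116), .ofNat (nat_lit 519453), .ofNat (nat_lit 350426), .ofNat (nat_lit 563762)⟩⟩, [⟨nat_lit 4, nat_lit 100, nat_lit 74, nat_lit 90, nat_lit 395063497⟩, ⟨nat_lit 19, nat_lit 93, nat_lit 100, nat_lit 97, nat_lit 22716655⟩]⟩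
noncomputable def p096_l66 : Lf2 := ⟨nat_lit 0, nat_lit 20, [nat_lit 5, nat_lit 5, nat_lit 5, nat_lit 20], false, nat_lit 0, nat_lit 160, nat_lit 0, nat_lit 336, ⟨nat_lit 733, nat_lit 267, nat_lit 0, nat_lit 7, nat_lit 321, nat_lit 267, nat_lit 65, nat_lit 0, nat_lit 0, nat_lit 0, nat_lit 0, nat_lit 0, nat_lit 0, nat_lit 0, nat_lit 0, nat_lit 5000000, true, true⟩,
 nat_lit 7869, nat_lit 0, nat_lit 0, nat_lit 0, nat_lit 5901, nat_lit 5007, nat_lit 109, nat_lit 0, nat_lit 0, nat_lit 560, nat_lit 0, nat_lit 0, nat_lit 0, nat_lit 0, nat_lit 0, nat_lit 267000, nat_lit 0, nat_lit 0, [(nat_lit 19, [(nat_lit 2, nat_lit 267)]), (nat_lit 22, [(nat_lit 2, nat_lit 267)])],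
 ⟨p096_k14, nat_lit 0, nat_lit 0, nat_lit 417, nat_lit 0, nat_lit 466709, [nat_lit 1943000001, nat_lit 3716903200, nat_lit 6372388400], [], [nat_lit 30394192501, nat_lit 32594343965, nat_lit 38616195425, nat_lit 40473297092, nat_lit 27650061969, nat_lit 29155490397, nat_lit 33290822649, nat_lit 34899898985], nat_lit 1271250, nat_lit 1271250, nat_lit 1271250, nat_lit 1271250, nat_lit 0, nat_lit 1100001, [nat_lit 490000, nat_lit 1100000, nat_lit 2127500], [nat_lit 27, nat_lit 40, nat_lit 40, nat_lit 80, nat_lit 13, nat_lit 373, nat_lit 150, nat_lit 10]⟩, ⟨p096_k15, nat_lit 0, nat_lit 0, nat_lit 510, nat_lit 0, nat_lit 576160, [nat_lit 2405706000, nat_lit 4581250000, nat_lit 8702176000], [], [nat_lit 24255867076, nat_lit 25391767592, nat_lit 28631761428, nat_lit 29602153516, nat_lit 23382118555, nat_lit 23967922389, nat_lit 26352016309, nat_lit 26820452310], nat_lit 1271250, nat_lit 1271250, nat_lit 1271250, nat_lit 1271250,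 nat_lit 0, nat_lit 2373000, [nat_lit 780000, nat_lit 1435000, nat_lit 1271250], [nat_lit 23, nat_lit 40, nat_lit 40, nat_lit 80, nat_lit 12, nat_lit 538, nat_lit 300, nat_lit 13]⟩,
 ⟨nat_lit 3162, nat_lit 4473, ⟨.ofNat (nat_lit 653959), .ofNat (nat_lit 926092), .ofNat (nat_lit 696911), .ofNat (nat_lit 969090), .ofNat (nat_lit 649288), .ofNat (nat_lit 893321), .ofNat (nat_lit 693416), .ofNat (nat_lit 937496)⟩, ⟨.ofNat (nat_lit 0), .ofNat (nat_lit 302621), .ofNat (nat_lit 0), .ofNat (nat_lit 345754), .ofNat (nat_lit 0), .ofNat (nat_lit 306116), .ofNat (nat_lit 0), .ofNat (nat_lit 350426)⟩⟩, [⟨nat_lit 7, nat_lit 100, nat_lit 100, nat_lit 100, nat_lit 79208447⟩, ⟨nat_lit 22, nat_lit 83, nat_lit 100, nat_lit 83, nat_lit 26538200⟩]⟩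
noncomputable def p096_l67 : Lf2 := ⟨nat_lit 0, nat_lit 20, [nat_lit 5, nat_lit 5, nat_lit 5, nat_lit 20], false, nat_lit 160, nat_lit 300, nat_lit 0, nat_lit 336, ⟨nat_lit 1000, nat_lit 0, nat_lit 0, nat_lit 0, nat_lit 0, nat_lit 0, nat_lit 0, nat_lit 0, nat_lit 0, nat_lit 0, nat_lit 0, nat_lit 0, nat_lit 0, nat_lit 0, nat_lit 0, nat_lit 0, false, false⟩,
 nat_lit 11454, nat_lit 0, nat_lit 0, nat_lit 0, nat_lit 6547, nat_lit 7288, nat_lit 658, nat_lit 0, nat_lit 0, nat_lit 687, nat_lit 0, nat_lit 0, nat_lit 0, nat_lit 0, nat_lit 0, nat_lit 0, nat_lit 0, nat_lit 0, [],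
 ⟨p096_k14, nat_lit 0, nat_lit 0, nat_lit 251, nat_lit 0, nat_lit 362377, [nat_lit 2032000001, nat_lit 4688000000, nat_lit 9842000000], [], [nat_lit 23731427534, nat_lit 24852582760, nat_lit 32127282968, nat_lit 33371272944, nat_lit 26809596183, nat_lit 27769463295, nat_lit 34866168246, nat_lit 35782482494], nat_lit 1271250, nat_lit 1271250, nat_lit 1271250, nat_lit 1271250, nat_lit 1100001, nat_lit 2298750, [nat_lit 490000, nat_lit 1100000, nat_lit 2127500], [nat_lit 27, nat_lit 40, nat_lit 40, nat_lit 80, nat_lit 13, nat_lit 401, nat_lit 175, nat_lit 10]⟩, ⟨p096_k15, nat_lit 0, nat_lit 0, nat_lit 432, nat_lit 0, nat_lit 447359, [nat_lit 3282000000, nat_lit 6250000000, nat_lit 11872000000], [], [nat_lit 32950414929, nat_lit 34539012465, nat_lit 40179023825, nat_lit 41663973728, nat_lit 31275046763, nat_lit 32074280254, nat_lit 35765784858, nat_lit 37156265236], nat_lit 1271250, nat_lit 1271250, nat_lit 1271250, nat_lit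 1271250, nat_lit 0, nat_lit 2373000, [nat_lit 780000, nat_lit 1435000, nat_lit 1271250], [nat_lit 23, nat_lit 40, nat_lit 40, nat_lit 80, nat_lit 12, nat_lit 538, nat_lit 300, nat_lit 13]⟩,
 zbF0, [⟨nat_lit 4, nat_lit 100, nat_lit 81, nat_lit 92, nat_lit 410275727⟩, ⟨nat_lit 7, nat_lit 100, nat_lit 100, nat_lit 100, nat_lit 122302624⟩]⟩
noncomputable def p096_l68 : Lf2 := ⟨nat_lit 0, nat_lit 20, [nat_lit 5, nat_lit 5, nat_lit 5, nat_lit 20], false, nat_lit 160, nat_lit 276, nat_lit 0, nat_lit 336, ⟨nat_lit 669, nat_lit 331, nat_lit 0, nat_lit 7, nat_lit 319, nat_lit 331, nat_lit 167, nat_lit 0, nat_lit 0, nat_lit 0, nat_lit 0, nat_lit 0, nat_lit 0, nat_lit 0, nat_lit 0, nat_lit 5000000, true, true⟩,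
 nat_lit 7258, nat_lit 0, nat_lit 0, nat_lit 0, nat_lit 5054, nat_lit 4618, nat_lit 306, nat_lit 0, nat_lit 0, nat_lit 424, nat_lit 0, nat_lit 0, nat_lit 0, nat_lit 0, nat_lit 0, nat_lit 82750, nat_lit 0, nat_lit 0, [(nat_lit 22, [(nat_lit 0, nat_lit 331)])],
 ⟨p096_k29, nat_lit 0, nat_lit 0, nat_lit 258, nat_lit 0, nat_lit 424070, [nat_lit 1878416000, nat_lit 3788606800, nat_lit 6228396400], [], [nat_lit 24730190326, nat_lit 25807547938, nat_lit 31609948188, nat_lit 32439527688, nat_lit 27228268076, nat_lit 28094827920, nat_lit 33277098436, nat_lit 34155464670], nat_lit 1271250, nat_lit 1271250, nat_lit 1271250, nat_lit 1271250, nat_lit 1100001, nat_lit 2093250, [nat_lit 490000, nat_lit 1100000, nat_lit 1785000], [nat_lit 34, nat_lit 40, nat_lit 40, nat_lit 80, nat_lit 7, nat_lit 289, nat_lit 75, nat_lit 8]⟩, ⟨p096_k15, nat_lit 0, nat_lit 0, nat_lit 510, nat_lit 0, nat_lit 576160, [nat_lit 2195658000, nat_lit 4181250000,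 nat_lit 7942368000], [], [nat_lit 22880783804, nat_lit 23921609116, nat_lit 26930980220, nat_lit 27905914708, nat_lit 22032392098, nat_lit 22567052918, nat_lit 24146406592, nat_lit 24541708233], nat_lit 1271250, nat_lit 1271250, nat_lit 1271250, nat_lit 1271250, nat_lit 0, nat_lit 2373000, [nat_lit 780000, nat_lit 1435000, nat_lit 1271250], [nat_lit 23, nat_lit 40, nat_lit 40, nat_lit 80, nat_lit 12, nat_lit 538, nat_lit 300, nat_lit 13]⟩,
 ⟨nat_lit 3162, nat_lit 3873, ⟨.ofNat (nat_lit 651611), .ofNat (nat_lit 909779), .ofNat (nat_lit 695141), .ofNat (nat_lit 953347), .ofNat (nat_lit 649490), .ofNat (nat_lit 893385), .ofNat (nat_lit 693742), .ofNat (nat_lit 937676)⟩, ⟨.ofNat (nat_lit 304717), .ofNat (nat_lit 491830), .ofNat (nat_lit 348304), .ofNat (nat_lit 535416), .ofNat (nat_lit 306116), .ofNat (nat_lit 482881), .ofNat (nat_lit 350426), .ofNat (nat_lit 527190)⟩⟩, [⟨nat_lit 4, nat_lit 100, nat_lit 67, nat_lit 88,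 nat_lit 423476492⟩, ⟨nat_lit 7, nat_lit 100, nat_lit 100, nat_lit 100, nat_lit 76609168⟩]⟩
noncomputable def b_V_800_700_20_42 : St := ⟨true, nat_lit 1, nat_lit 2, nat_lit 2, nat_lit 120, nat_lit 320, nat_lit 360, nat_lit 280, nat_lit 320, nat_lit 100, nat_lit 400, nat_lit 80, nat_lit 120, nat_lit 0, nat_lit 300, nat_lit 0, nat_lit 336, nat_lit 40, nat_lit 80, nat_lit 0, nat_lit 0, nat_lit 0, nat_lit 0⟩
theorem d_V_800_700_20_42 (h : EB TB.env) : Dead b_V_800_700_20_42 := chkB_sound0 h (T :=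
(.st (nat_lit 1)
(.spl (nat_lit 2) (nat_lit 240)
(.spl (nat_lit 4) (nat_lit 160)
(.spl (nat_lit 5) (nat_lit 160)
(.leaf p096_l54)
(.leaf p096_l55))
(.spl (nat_lit 5) (nat_lit 160)
(.leaf p096_l56)
(.spl (nat_lit 0) (nat_lit 340)
(.leaf p096_l57)
(.trZ (nat_lit 0) (nat_lit 99) (nat_lit 77) (nat_lit 100) (nat_lit 124) (.trX (nat_lit 16) (nat_lit 77) (nat_lit 100) (nat_lit 99) (nat_lit 276) (.leaf p096_l58))))))
(.spl (nat_lit 5) (nat_lit 160)
(.spl (nat_lit 0) (nat_lit 340)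
(.leaf p096_l59)
(.trX (nat_lit 16) (nat_lit 77) (nat_lit 100) (nat_lit 99) (nat_lit 276) (.leaf p096_l60)))
(.spl (nat_lit 0) (nat_lit 340)
(.leaf p096_l61)
(.trX (nat_lit 16) (nat_lit 77) (nat_lit 100) (nat_lit 99) (nat_lit 276) (.leaf p096_l62)))))
(.spl (nat_lit 2) (nat_lit 240)
(.spl (nat_lit 4) (nat_lit 160)
(.leaf p096_l63)
(.spl (nat_lit 1) (nat_lit 300)
(.leaf p096_l64)
(.trZ (nat_lit 0) (nat_lit 94) (nat_lit 87) (nat_lit 100) (nat_lit 120) (.trX (nat_lit 19) (nat_lit 94) (nat_lit 88) (nat_lit 100) (nat_lit 320) (.leaf p096_l65)))))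
(.spl (nat_lit 4) (nat_lit 160)
(.leaf p096_l66)
(.spl (nat_lit 0) (nat_lit 340)
(.leaf p096_l67)
(.trX (nat_lit 16) (nat_lit 77) (nat_lit 100) (nat_lit 99) (nat_lit 276) (.leaf p096_l68))))))) (by decide +kernel)
noncomputable def p096_l69 : Lf2 := ⟨nat_lit 0, nat_lit 30, [nat_lit 15, nat_lit 5, nat_lit 5, nat_lit 20], false, nat_lit 0, nat_lit 160, nat_lit 0, nat_lit 160, ⟨nat_lit 1000, nat_lit 0, nat_lit 0, nat_lit 0, nat_lit 0, nat_lit 0, nat_lit 0, nat_lit 0, nat_lit 0, nat_lit 0, nat_lit 0, nat_lit 0, nat_lit 0, nat_lit 0, nat_lit 0, nat_lit 0, false, false⟩,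
 nat_lit 0, nat_lit 0, nat_lit 0, nat_lit 17348, nat_lit 7344, nat_lit 10052, nat_lit 700, nat_lit 0, nat_lit 0, nat_lit 958, nat_lit 0, nat_lit 0, nat_lit 0, nat_lit 0, nat_lit 0, nat_lit 0, nat_lit 0, nat_lit 0, [],
 ⟨p096_k40, nat_lit 0, nat_lit 0, nat_lit 251, nat_lit 0, nat_lit 0, [nat_lit 2032000001, nat_lit 6250000000, nat_lit 11872000000], [], [nat_lit 28979400108, nat_lit 32007003340, nat_lit 29827300972, nat_lit 32373176608, nat_lit 23889134188, nat_lit 26431794508, nat_lit 24755282144, nat_lit 27406242080], nat_lit 0, nat_lit 0, nat_lit 0, nat_lit 0, nat_lit 0, nat_lit 0, [], [nat_lit 72, nat_lit 40, nat_lit 40, nat_lit 80, nat_lit 12, nat_lit 317, nat_lit 100, nat_lit 8]⟩, ⟨p096_k41, nat_lit 0, nat_lit 0, nat_lit 370, nat_lit 0, nat_lit 0, [nat_lit 3282000000, nat_lit 7968000000, nat_lit 14058000000], [], [nat_lit 29631620112, nat_lit 33209547880, nat_lit 29838171880, nat_lit 32677034576, nat_lit 21295797040,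 nat_lit 24408650536, nat_lit 22684670288, nat_lit 25010733536], nat_lit 0, nat_lit 0, nat_lit 0, nat_lit 0, nat_lit 0, nat_lit 0, [], [nat_lit 84, nat_lit 40, nat_lit 40, nat_lit 80, nat_lit 28, nat_lit 428, nat_lit 200, nat_lit 10]⟩,
 zbF0, [⟨nat_lit 0, nat_lit 90, nat_lit 74, nat_lit 100, nat_lit 712729079⟩, ⟨nat_lit 3, nat_lit 100, nat_lit 82, nat_lit 29, nat_lit 10632202⟩]⟩
noncomputable def p096_l70 : Lf2 := ⟨nat_lit 0, nat_lit 30, [nat_lit 15, nat_lit 5, nat_lit 5, nat_lit 20], false, nat_lit 0, nat_lit 160, nat_lit 160, nat_lit 336, ⟨nat_lit 971, nat_lit 0, nat_lit 29, nat_lit 7, nat_lit 185, nat_lit 0, nat_lit 65, nat_lit 0, nat_lit 40017, nat_lit 264, nat_lit 25350, nat_lit 254, nat_lit 55146266, nat_lit 0, nat_lit 0, nat_lit 2333463, false, false⟩,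
 nat_lit 0, nat_lit 0, nat_lit 0, nat_lit 39699, nat_lit 7740, nat_lit 10620, nat_lit 810, nat_lit 0, nat_lit 0, nat_lit 874, nat_lit 0, nat_lit 0, nat_lit 0, nat_lit 0, nat_lit 0, nat_lit 29000, nat_lit 0, nat_lit 0, [(nat_lit 20, [(nat_lit 6, nat_lit 29)]), (nat_lit 23, [(nat_lit 6, nat_lit 29)])],
 ⟨p096_k40, nat_lit 0, nat_lit 0, nat_lit 251, nat_lit 0, nat_lit 0, [nat_lit 2025765001, nat_lit 5972209000, nat_lit 11216484000], [], [nat_lit 26312226930, nat_lit 30361564880, nat_lit 25876502010, nat_lit 29622366880, nat_lit 21403223440, nat_lit 24922715800, nat_lit 21192436800, nat_lit 24615988800], nat_lit 0, nat_lit 0, nat_lit 0, nat_lit 0, nat_lit 0, nat_lit 0, [], [nat_lit 72, nat_lit 40, nat_lit 40, nat_lit 80, nat_lit 12, nat_lit 289, nat_lit 75, nat_lit 7]⟩, ⟨p096_k41, nat_lit 0, nat_lit 0, nat_lit 185, nat_lit 0, nat_lit 0, [nat_lit 3186822000, nat_lit 7736928000, nat_lit 13650318000], [], [nat_lit 20128881442,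 nat_lit 23220838152, nat_lit 19374102888, nat_lit 22380173016, nat_lit 26759328583, nat_lit 30719851418, nat_lit 25794413698, nat_lit 29768669315], nat_lit 0, nat_lit 0, nat_lit 0, nat_lit 0, nat_lit 0, nat_lit 0, [], [nat_lit 84, nat_lit 40, nat_lit 40, nat_lit 80, nat_lit 28, nat_lit 428, nat_lit 200, nat_lit 10]⟩,
 ⟨nat_lit 3162, nat_lit 4473, ⟨.ofNat (nat_lit 415764), .ofNat (nat_lit 449792), .ofNat (nat_lit 458716), .ofNat (nat_lit 492744), .ofNat (nat_lit 435680), .ofNat (nat_lit 466195), .ofNat (nat_lit 479808), .ofNat (nat_lit 510324)⟩, ⟨.ofNat (nat_lit 0), .ofNat (nat_lit 302621), .ofNat (nat_lit 0), .ofNat (nat_lit 345754), .ofNat (nat_lit 0), .ofNat (nat_lit 306116), .ofNat (nat_lit 0), .ofNat (nat_lit 350426)⟩⟩, [⟨nat_lit 0, nat_lit 90, nat_lit 74, nat_lit 100, nat_lit 2205390292⟩, ⟨nat_lit 19, nat_lit 100, nat_lit 100, nat_lit 100, nat_lit 404054364⟩]⟩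
noncomputable def p096_l71 : Lf2 := ⟨nat_lit 0, nat_lit 30, [nat_lit 15, nat_lit 5, nat_lit 5, nat_lit 20], false, nat_lit 0, nat_lit 160, nat_lit 160, nat_lit 336, ⟨nat_lit 1000, nat_lit 0, nat_lit 0, nat_lit 0, nat_lit 0, nat_lit 0, nat_lit 0, nat_lit 0, nat_lit 0, nat_lit 0, nat_lit 0, nat_lit 0, nat_lit 0, nat_lit 0, nat_lit 0, nat_lit 0, false, false⟩,
 nat_lit 0, nat_lit 0, nat_lit 0, nat_lit 21515, nat_lit 7427, nat_lit 4999, nat_lit 781, nat_lit 0, nat_lit 0, nat_lit 0, nat_lit 0, nat_lit 0, nat_lit 0, nat_lit 0, nat_lit 0, nat_lit 0, nat_lit 0, nat_lit 0, [],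
 ⟨p096_k40, nat_lit 0, nat_lit 0, nat_lit 242, nat_lit 0, nat_lit 0, [nat_lit 2032000001, nat_lit 6250000000, nat_lit 11872000000], [], [nat_lit 27379241073, nat_lit 30354664924, nat_lit 29116387156, nat_lit 32316606464, nat_lit 22332195740, nat_lit 25667356540, nat_lit 24594807952, nat_lit 27263010640], nat_lit 0, nat_lit 0, nat_lit 0, nat_lit 0, nat_lit 0, nat_lit 0, [], [nat_lit 72, nat_lit 40, nat_lit 40, nat_lit 80, nat_lit 12, nat_lit 317, nat_lit 100, nat_lit 8]⟩, ⟨p096_k41, nat_lit 0, nat_lit 0, nat_lit 85, nat_lit 0, nat_lit 0, [nat_lit 3282000000, nat_lit 7968000000, nat_lit 14058000000], [], [nat_lit 12570000608, nat_lit 16189516264, nat_lit 17010569296, nat_lit 19890712240, nat_lit 22747834908, nat_lit 25329749157, nat_lit 25109223787, nat_lit 27193499143], nat_lit 0, nat_lit 0, nat_lit 0, nat_lit 0, nat_lit 0, nat_lit 0, [], [nat_lit 84, nat_lit 40, nat_lit 40, nat_lit 80, nat_lit 28, nat_lit 456, nat_lit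 225, nat_lit 10]⟩,
 zbF0, [⟨nat_lit 0, nat_lit 90, nat_lit 74, nat_lit 100, nat_lit 463257350⟩, ⟨nat_lit 19, nat_lit 100, nat_lit 80, nat_lit 100, nat_lit 458493015⟩]⟩
noncomputable def p096_l72 : Lf2 := ⟨nat_lit 0, nat_lit 30, [nat_lit 15, nat_lit 5, nat_lit 5, nat_lit 20], false, nat_lit 160, nat_lit 300, nat_lit 0, nat_lit 336, ⟨nat_lit 1000, nat_lit 0, nat_lit 0, nat_lit 0, nat_lit 0, nat_lit 0, nat_lit 0, nat_lit 0, nat_lit 0, nat_lit 0, nat_lit 0, nat_lit 0, nat_lit 0, nat_lit 0, nat_lit 0, nat_lit 0, false, false⟩,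
 nat_lit 0, nat_lit 0, nat_lit 0, nat_lit 32061, nat_lit 8374, nat_lit 10249, nat_lit 0, nat_lit 0, nat_lit 0, nat_lit 806, nat_lit 0, nat_lit 0, nat_lit 0, nat_lit 0, nat_lit 0, nat_lit 0, nat_lit 0, nat_lit 0, [],
 ⟨p096_k40, nat_lit 0, nat_lit 0, nat_lit 85, nat_lit 0, nat_lit 0, [nat_lit 2032000001, nat_lit 6250000000, nat_lit 11872000000], [], [nat_lit 18255328412, nat_lit 23103163792, nat_lit 18367494216, nat_lit 22776359752, nat_lit 25529487997, nat_lit 30009040900, nat_lit 24834682096, nat_lit 28926202952], nat_lit 0, nat_lit 0, nat_lit 0, nat_lit 0, nat_lit 0, nat_lit 0, [], [nat_lit 72, nat_lit 40, nat_lit 40, nat_lit 80, nat_lit 12, nat_lit 345, nat_lit 125, nat_lit 8]⟩, ⟨p096_k41, nat_lit 0, nat_lit 0, nat_lit 370, nat_lit 0, nat_lit 0, [nat_lit 3282000000, nat_lit 7968000000, nat_lit 14058000000], [], [nat_lit 32103431428, nat_lit 35727483560, nat_lit 30666507760, nat_lit 33967216556, nat_lit 28990103720,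 nat_lit 30933096064, nat_lit 27078081687, nat_lit 29424748325], nat_lit 0, nat_lit 0, nat_lit 0, nat_lit 0, nat_lit 0, nat_lit 0, [], [nat_lit 84, nat_lit 40, nat_lit 40, nat_lit 80, nat_lit 28, nat_lit 456, nat_lit 225, nat_lit 11]⟩,
 zbF0, [⟨nat_lit 0, nat_lit 90, nat_lit 74, nat_lit 100, nat_lit 1115502551⟩, ⟨nat_lit 4, nat_lit 100, nat_lit 74, nat_lit 90, nat_lit 676576838⟩, ⟨nat_lit 7, nat_lit 100, nat_lit 100, nat_lit 100, nat_lit 121814851⟩]⟩
noncomputable def p096_l73 : Lf2 := ⟨nat_lit 0, nat_lit 30, [nat_lit 15, nat_lit 5, nat_lit 5, nat_lit 20], false, nat_lit 160, nat_lit 300, nat_lit 0, nat_lit 336, ⟨nat_lit 1000, nat_lit 0, nat_lit 0, nat_lit 0, nat_lit 0, nat_lit 0, nat_lit 0, nat_lit 0, nat_lit 0, nat_lit 0, nat_lit 0, nat_lit 0, nat_lit 0, nat_lit 0, nat_lit 0, nat_lit 0, false, false⟩,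
 nat_lit 0, nat_lit 0, nat_lit 0, nat_lit 22014, nat_lit 3795, nat_lit 9887, nat_lit 0, nat_lit 0, nat_lit 0, nat_lit 782, nat_lit 0, nat_lit 0, nat_lit 0, nat_lit 0, nat_lit 0, nat_lit 0, nat_lit 0, nat_lit 0, [],
 ⟨p096_k40, nat_lit 0, nat_lit 0, nat_lit 65, nat_lit 0, nat_lit 0, [nat_lit 2032000001, nat_lit 6250000000, nat_lit 11872000000], [], [nat_lit 16581699941, nat_lit 19858148501, nat_lit 19471331541, nat_lit 22297106941, nat_lit 22521542781, nat_lit 25095649660, nat_lit 24544391375, nat_lit 26804270160], nat_lit 0, nat_lit 0, nat_lit 0, nat_lit 0, nat_lit 0, nat_lit 0, [], [nat_lit 72, nat_lit 40, nat_lit 40, nat_lit 80, nat_lit 12, nat_lit 373, nat_lit 150, nat_lit 9]⟩, ⟨p096_k41, nat_lit 0, nat_lit 0, nat_lit 263, nat_lit 0, nat_lit 0, [nat_lit 3282000000, nat_lit 7968000000, nat_lit 14058000000], [], [nat_lit 30765118880, nat_lit 33992629828, nat_lit 32363616780, nat_lit 35037352904, nat_lit 27555318164,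 nat_lit 29153698938, nat_lit 27797194181, nat_lit 30603649492], nat_lit 0, nat_lit 0, nat_lit 0, nat_lit 0, nat_lit 0, nat_lit 0, [], [nat_lit 84, nat_lit 40, nat_lit 40, nat_lit 80, nat_lit 28, nat_lit 456, nat_lit 225, nat_lit 10]⟩,
 zbF0, [⟨nat_lit 0, nat_lit 90, nat_lit 74, nat_lit 100, nat_lit 317961713⟩, ⟨nat_lit 4, nat_lit 100, nat_lit 74, nat_lit 90, nat_lit 610658631⟩, ⟨nat_lit 7, nat_lit 100, nat_lit 100, nat_lit 100, nat_lit 117365016⟩]⟩
noncomputable def p096_l74 : Lf2 := ⟨nat_lit 0, nat_lit 30, [nat_lit 15, nat_lit 5, nat_lit 5, nat_lit 20], false, nat_lit 0, nat_lit 300, nat_lit 0, nat_lit 160, ⟨nat_lit 1000, nat_lit 0, nat_lit 0, nat_lit 0, nat_lit 0, nat_lit 0, nat_lit 0, nat_lit 0, nat_lit 0, nat_lit 0, nat_lit 0, nat_lit 0, nat_lit 0, nat_lit 0, nat_lit 0, nat_lit 0, false, false⟩,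
 nat_lit 0, nat_lit 0, nat_lit 0, nat_lit 9847, nat_lit 7346, nat_lit 8879, nat_lit 366, nat_lit 0, nat_lit 0, nat_lit 616, nat_lit 0, nat_lit 0, nat_lit 0, nat_lit 0, nat_lit 0, nat_lit 0, nat_lit 0, nat_lit 0, [],
 ⟨p096_k40, nat_lit 0, nat_lit 0, nat_lit 247, nat_lit 0, nat_lit 0, [nat_lit 2032000001, nat_lit 6250000000, nat_lit 11872000000], [], [nat_lit 34634496998, nat_lit 37180606982, nat_lit 43049305302, nat_lit 44864341678, nat_lit 31546615876, nat_lit 33001804252, nat_lit 36525121466, nat_lit 37727351838], nat_lit 0, nat_lit 0, nat_lit 0, nat_lit 0, nat_lit 0, nat_lit 0, [], [nat_lit 72, nat_lit 40, nat_lit 40, nat_lit 80, nat_lit 12, nat_lit 401, nat_lit 175, nat_lit 10]⟩, ⟨p096_k41, nat_lit 0, nat_lit 0, nat_lit 277, nat_lit 0, nat_lit 0, [nat_lit 3282000000, nat_lit 7968000000, nat_lit 14058000000], [], [nat_lit 34926840004, nat_lit 36684652228, nat_lit 43755800140, nat_lit 46115203524, nat_lit 27706460400,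 nat_lit 29159385244, nat_lit 34186642840, nat_lit 35309084836], nat_lit 0, nat_lit 0, nat_lit 0, nat_lit 0, nat_lit 0, nat_lit 0, [], [nat_lit 84, nat_lit 40, nat_lit 40, nat_lit 80, nat_lit 28, nat_lit 456, nat_lit 225, nat_lit 10]⟩,
 zbF0, [⟨nat_lit 16, nat_lit 74, nat_lit 100, nat_lit 90, nat_lit 40825560⟩, ⟨nat_lit 9, nat_lit 100, nat_lit 83, nat_lit 39, nat_lit 106856753⟩]⟩
noncomputable def p096_l75 : Lf2 := ⟨nat_lit 0, nat_lit 30, [nat_lit 15, nat_lit 5, nat_lit 5, nat_lit 20], false, nat_lit 0, nat_lit 300, nat_lit 160, nat_lit 336, ⟨nat_lit 1000, nat_lit 0, nat_lit 0, nat_lit 0, nat_lit 0, nat_lit 0, nat_lit 0, nat_lit 0, nat_lit 0, nat_lit 0, nat_lit 0, nat_lit 0, nat_lit 0, nat_lit 0, nat_lit 0, nat_lit 0, false, false⟩,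
 nat_lit 0, nat_lit 0, nat_lit 0, nat_lit 14586, nat_lit 7346, nat_lit 8581, nat_lit 366, nat_lit 0, nat_lit 0, nat_lit 0, nat_lit 0, nat_lit 0, nat_lit 0, nat_lit 0, nat_lit 0, nat_lit 0, nat_lit 0, nat_lit 0, [],
 ⟨p096_k40, nat_lit 0, nat_lit 0, nat_lit 247, nat_lit 0, nat_lit 0, [nat_lit 2032000001, nat_lit 6250000000, nat_lit 11872000000], [], [nat_lit 34634496998, nat_lit 37180606982, nat_lit 43049305302, nat_lit 44864341678, nat_lit 31546615876, nat_lit 33001804252, nat_lit 36525121466, nat_lit 37727351838], nat_lit 0, nat_lit 0, nat_lit 0, nat_lit 0, nat_lit 0, nat_lit 0, [], [nat_lit 72, nat_lit 40, nat_lit 40, nat_lit 80, nat_lit 12, nat_lit 401, nat_lit 175, nat_lit 10]⟩, ⟨p096_k41, nat_lit 0, nat_lit 0, nat_lit 105, nat_lit 0, nat_lit 0, [nat_lit 3282000000, nat_lit 7968000000, nat_lit 14058000000], [], [nat_lit 21119856712, nat_lit 24223572436, nat_lit 32777932896, nat_lit 34691636264, nat_lit 28756660141,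 nat_lit 30664054616, nat_lit 37298733592, nat_lit 38757891923], nat_lit 0, nat_lit 0, nat_lit 0, nat_lit 0, nat_lit 0, nat_lit 0, [], [nat_lit 84, nat_lit 40, nat_lit 40, nat_lit 80, nat_lit 28, nat_lit 538, nat_lit 300, nat_lit 12]⟩,
 zbF0, [⟨nat_lit 16, nat_lit 74, nat_lit 100, nat_lit 90, nat_lit 92761793⟩, ⟨nat_lit 19, nat_lit 100, nat_lit 80, nat_lit 100, nat_lit 88302442⟩, ⟨nat_lit 7, nat_lit 100, nat_lit 100, nat_lit 100, nat_lit 255615732⟩]⟩
noncomputable def b_V_800_700_20_43 : St := ⟨true, nat_lit 0, nat_lit 0, nat_lit 1, nat_lit 120, nat_lit 320, nat_lit 360, nat_lit 280, nat_lit 320, nat_lit 100, nat_lit 400, nat_lit 80, nat_lit 120, nat_lit 0, nat_lit 300, nat_lit 0, nat_lit 336, nat_lit 80, nat_lit 120, nat_lit 0, nat_lit 0, nat_lit 0, nat_lit 0⟩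
theorem d_V_800_700_20_43 (h : EB TB.env) : Dead b_V_800_700_20_43 := chkB_sound0 h (T :=
(.spl (nat_lit 2) (nat_lit 240)
(.spl (nat_lit 4) (nat_lit 160)
(.spl (nat_lit 5) (nat_lit 160)
(.leaf p096_l69)
(.spl (nat_lit 2) (nat_lit 120)
(.leaf p096_l70)
(.leaf p096_l71)))
(.spl (nat_lit 2) (nat_lit 160)
(.leaf p096_l72)
(.leaf p096_l73)))
(.spl (nat_lit 5) (nat_lit 160)
(.leaf p096_l74)
(.leaf p096_l75)))) (by decide +kernel)
noncomputable def p096_l76 : Lf2 := ⟨nat_lit 0, nat_lit 27, [nat_lit 147, nat_lit 5, nat_lit 5, nat_lit 20], false, nat_lit 0, nat_lit 160, nat_lit 0, nat_lit 160, ⟨nat_lit 1000, nat_lit 0, nat_lit 0, nat_lit 0, nat_lit 0, nat_lit 0, nat_lit 0, nat_lit 0, nat_lit 0, nat_lit 0, nat_lit 0, nat_lit 0, nat_lit 0, nat_lit 0, nat_lit 0, nat_lit 0, false, false⟩,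
 nat_lit 0, nat_lit 0, nat_lit 11725, nat_lit 0, nat_lit 6398, nat_lit 7461, nat_lit 1021, nat_lit 0, nat_lit 0, nat_lit 448, nat_lit 0, nat_lit 0, nat_lit 0, nat_lit 0, nat_lit 0, nat_lit 0, nat_lit 0, nat_lit 0, [],
 ⟨p096_k42, nat_lit 0, nat_lit 0, nat_lit 228, nat_lit 0, nat_lit 0, [nat_lit 2032000001, nat_lit 4688000000, nat_lit 11872000000], [], [nat_lit 23787420135, nat_lit 25556225815, nat_lit 25272974999, nat_lit 27389890812, nat_lit 19604139867, nat_lit 20875733710, nat_lit 22001840592, nat_lit 23417386496], nat_lit 0, nat_lit 0, nat_lit 0, nat_lit 0, nat_lit 0, nat_lit 0, [], [nat_lit 75, nat_lit 40, nat_lit 40, nat_lit 80, nat_lit 65, nat_lit 317, nat_lit 100, nat_lit 8]⟩, ⟨p096_k43, nat_lit 0, nat_lit 0, nat_lit 431, nat_lit 0, nat_lit 210413, [nat_lit 3282000000, nat_lit 6250000000, nat_lit 14058000000], [], [nat_lit 36176499928, nat_lit 37352854569, nat_lit 36867521792, nat_lit 37855884326, nat_lit 30845916596,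 nat_lit 31834433924, nat_lit 37185741724, nat_lit 33850674724], nat_lit 1271250, nat_lit 1271250, nat_lit 631250, nat_lit 1751250, nat_lit 0, nat_lit 1100001, [nat_lit 780000, nat_lit 1435000, nat_lit 1271250], [nat_lit 71, nat_lit 40, nat_lit 40, nat_lit 80, nat_lit 68, nat_lit 401, nat_lit 175, nat_lit 9]⟩,
 zbF0, [⟨nat_lit 0, nat_lit 90, nat_lit 74, nat_lit 100, nat_lit 320195517⟩]⟩
noncomputable def p096_l77 : Lf2 := ⟨nat_lit 0, nat_lit 25, [nat_lit 44, nat_lit 5, nat_lit 5, nat_lit 20], false, nat_lit 0, nat_lit 160, nat_lit 160, nat_lit 320, ⟨nat_lit 1000, nat_lit 0, nat_lit 0, nat_lit 0, nat_lit 0, nat_lit 0, nat_lit 0, nat_lit 0, nat_lit 0, nat_lit 0, nat_lit 0, nat_lit 0, nat_lit 0, nat_lit 0, nat_lit 0, nat_lit 0, false, false⟩,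
 nat_lit 0, nat_lit 0, nat_lit 12858, nat_lit 7441, nat_lit 6369, nat_lit 8182, nat_lit 858, nat_lit 0, nat_lit 0, nat_lit 953, nat_lit 0, nat_lit 0, nat_lit 0, nat_lit 0, nat_lit 0, nat_lit 0, nat_lit 0, nat_lit 0, [],
 ⟨p096_k44, nat_lit 0, nat_lit 0, nat_lit 193, nat_lit 0, nat_lit 0, [nat_lit 2032000001, nat_lit 4688000000, nat_lit 9842000000], [], [nat_lit 23583533020, nat_lit 25568955669, nat_lit 25793911282, nat_lit 27344443696, nat_lit 19207741276, nat_lit 20881536239, nat_lit 21215548974, nat_lit 22528218364], nat_lit 0, nat_lit 0, nat_lit 0, nat_lit 0, nat_lit 0, nat_lit 0, [], [nat_lit 27, nat_lit 40, nat_lit 40, nat_lit 80, nat_lit 13, nat_lit 317, nat_lit 100, nat_lit 9]⟩, ⟨p096_k45, nat_lit 0, nat_lit 0, nat_lit 208, nat_lit 0, nat_lit 200427, [nat_lit 3282000000, nat_lit 6250000000, nat_lit 11872000000], [], [nat_lit 19650766003, nat_lit 21207684439, nat_lit 21822647424, nat_lit 22488063619, nat_lit 26137982075,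 nat_lit 27157950059, nat_lit 25888852623, nat_lit 26659393056], nat_lit 1271250, nat_lit 1271250, nat_lit 631250, nat_lit 1751250, nat_lit 1271250, nat_lit 1271250, [nat_lit 780000, nat_lit 1435000, nat_lit 1271250], [nat_lit 23, nat_lit 40, nat_lit 40, nat_lit 80, nat_lit 12, nat_lit 456, nat_lit 225, nat_lit 11]⟩,
 zbF0, [⟨nat_lit 0, nat_lit 90, nat_lit 74, nat_lit 100, nat_lit 674950106⟩, ⟨nat_lit 7, nat_lit 97, nat_lit 100, nat_lit 94, nat_lit 377455803⟩]⟩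
noncomputable def p096_l78 : Lf2 := ⟨nat_lit 0, nat_lit 22, [nat_lit 146, nat_lit 5, nat_lit 5, nat_lit 20], false, nat_lit 0, nat_lit 160, nat_lit 160, nat_lit 336, ⟨nat_lit 1000, nat_lit 0, nat_lit 0, nat_lit 0, nat_lit 0, nat_lit 0, nat_lit 0, nat_lit 0, nat_lit 0, nat_lit 0, nat_lit 0, nat_lit 0, nat_lit 0, nat_lit 0, nat_lit 0, nat_lit 0, false, false⟩,
 nat_lit 0, nat_lit 0, nat_lit 13838, nat_lit 19945, nat_lit 6260, nat_lit 8805, nat_lit 871, nat_lit 0, nat_lit 0, nat_lit 1005, nat_lit 0, nat_lit 0, nat_lit 0, nat_lit 0, nat_lit 0, nat_lit 0, nat_lit 0, nat_lit 0, [],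
 ⟨p096_k46, nat_lit 0, nat_lit 0, nat_lit 193, nat_lit 0, nat_lit 0, [nat_lit 2032000001, nat_lit 4688000000, nat_lit 9842000000], [], [nat_lit 23388791675, nat_lit 25352728135, nat_lit 25620643155, nat_lit 27155718715, nat_lit 19139371915, nat_lit 20795832935, nat_lit 21168560835, nat_lit 22468879435], nat_lit 0, nat_lit 0, nat_lit 0, nat_lit 0, nat_lit 0, nat_lit 0, [], [nat_lit 27, nat_lit 40, nat_lit 40, nat_lit 80, nat_lit 13, nat_lit 317, nat_lit 100, nat_lit 9]⟩, ⟨p096_k47, nat_lit 0, nat_lit 0, nat_lit 163, nat_lit 0, nat_lit 44789, [nat_lit 3282000000, nat_lit 6250000000, nat_lit 11872000000], [], [nat_lit 18800029845, nat_lit 20428529735, nat_lit 20922307760, nat_lit 21563120685, nat_lit 26638983002, nat_lit 27633165443, nat_lit 27080022349, nat_lit 28464403158], nat_lit 1271250, nat_lit 1271250, nat_lit 631250, nat_lit 1751250, nat_lit 1271250, nat_lit 1271250, [nat_lit 780000, nat_lit 1435000, nat_lit 1271250],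 [nat_lit 23, nat_lit 40, nat_lit 40, nat_lit 80, nat_lit 12, nat_lit 456, nat_lit 225, nat_lit 11]⟩,
 zbF0, [⟨nat_lit 0, nat_lit 90, nat_lit 74, nat_lit 100, nat_lit 609028701⟩, ⟨nat_lit 19, nat_lit 100, nat_lit 90, nat_lit 100, nat_lit 424485724⟩]⟩
noncomputable def p096_l79 : Lf2 := ⟨nat_lit 1, nat_lit 27, [nat_lit 147, nat_lit 5, nat_lit 5, nat_lit 20], false, nat_lit 0, nat_lit 160, nat_lit 160, nat_lit 336, zbN0,
 nat_lit 0, nat_lit 0, nat_lit 0, nat_lit 0, nat_lit 0, nat_lit 0, nat_lit 0, nat_lit 0, nat_lit 0, nat_lit 0, nat_lit 0, nat_lit 0, nat_lit 0, nat_lit 0, nat_lit 0, nat_lit 0, nat_lit 0, nat_lit 0, [],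
 C1.Rw.none, C1.Rw.none,
 zbF0, []⟩
noncomputable def p096_l80 : Lf2 := ⟨nat_lit 1, nat_lit 30, [nat_lit 15, nat_lit 5, nat_lit 5, nat_lit 20], false, nat_lit 0, nat_lit 160, nat_lit 0, nat_lit 336, zbN0,
 nat_lit 0, nat_lit 0, nat_lit 0, nat_lit 0, nat_lit 0, nat_lit 0, nat_lit 0, nat_lit 0, nat_lit 0, nat_lit 0, nat_lit 0, nat_lit 0, nat_lit 0, nat_lit 0, nat_lit 0, nat_lit 0, nat_lit 0, nat_lit 0, [],
 C1.Rw.none, C1.Rw.none,
 zbF0, []⟩
noncomputable def p096_l81 : Lf2 := ⟨nat_lit 0, nat_lit 30, [nat_lit 15, nat_lit 5, nat_lit 5, nat_lit 20], false, nat_lit 0, nat_lit 160, nat_lit 0, nat_lit 160, ⟨nat_lit 1000, nat_lit 0, nat_lit 0, nat_lit 0, nat_lit 0, nat_lit 0, nat_lit 0, nat_lit 0, nat_lit 0, nat_lit 0, nat_lit 0, nat_lit 0, nat_lit 0, nat_lit 0, nat_lit 0, nat_lit 0, false, false⟩,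
 nat_lit 0, nat_lit 0, nat_lit 15384, nat_lit 0, nat_lit 5804, nat_lit 9789, nat_lit 803, nat_lit 0, nat_lit 0, nat_lit 799, nat_lit 0, nat_lit 0, nat_lit 0, nat_lit 0, nat_lit 0, nat_lit 0, nat_lit 0, nat_lit 0, [],
 ⟨p096_k48, nat_lit 0, nat_lit 0, nat_lit 201, nat_lit 0, nat_lit 0, [nat_lit 2032000001, nat_lit 6250000000, nat_lit 9842000000], [], [nat_lit 23397746996, nat_lit 24306287452, nat_lit 26366194776, nat_lit 27487737204, nat_lit 19474960188, nat_lit 20242529813, nat_lit 22059921288, nat_lit 22803639520], nat_lit 0, nat_lit 0, nat_lit 0, nat_lit 0, nat_lit 0, nat_lit 0, [], [nat_lit 61, nat_lit 40, nat_lit 40, nat_lit 80, nat_lit 1, nat_lit 317, nat_lit 100, nat_lit 9]⟩, ⟨p096_k41, nat_lit 0, nat_lit 0, nat_lit 474, nat_lit 0, nat_lit 342605, [nat_lit 3282000000, nat_lit 7968000000, nat_lit 14058000000], [], [nat_lit 34795670028, nat_lit 32797728793, nat_lit 32424231988, nat_lit 33371416674, nat_lit 25196920912,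 nat_lit 26191938054, nat_lit 28826580300, nat_lit 26526007136], nat_lit 1271250, nat_lit 1271250, nat_lit 810650, nat_lit 1764750, nat_lit 0, nat_lit 1100001, [nat_lit 780000, nat_lit 1762500, nat_lit 1271250], [nat_lit 84, nat_lit 40, nat_lit 40, nat_lit 80, nat_lit 28, nat_lit 401, nat_lit 175, nat_lit 9]⟩,
 zbF0, [⟨nat_lit 0, nat_lit 88, nat_lit 67, nat_lit 100, nat_lit 587126230⟩]⟩
noncomputable def p096_l82 : Lf2 := ⟨nat_lit 0, nat_lit 30, [nat_lit 15, nat_lit 5, nat_lit 5, nat_lit 20], false, nat_lit 4, nat_lit 160, nat_lit 0, nat_lit 160, ⟨nat_lit 1000, nat_lit 0, nat_lit 0, nat_lit 0, nat_lit 0, nat_lit 0, nat_lit 0, nat_lit 0, nat_lit 0, nat_lit 0, nat_lit 0, nat_lit 0, nat_lit 0, nat_lit 0, nat_lit 0, nat_lit 0, false, false⟩,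
 nat_lit 0, nat_lit 0, nat_lit 10888, nat_lit 0, nat_lit 5568, nat_lit 6928, nat_lit 831, nat_lit 0, nat_lit 0, nat_lit 690, nat_lit 0, nat_lit 0, nat_lit 0, nat_lit 0, nat_lit 0, nat_lit 0, nat_lit 0, nat_lit 0, [],
 ⟨p096_k49, nat_lit 0, nat_lit 0, nat_lit 191, nat_lit 0, nat_lit 0, [nat_lit 2032000001, nat_lit 4688000000, nat_lit 9842000000], [], [nat_lit 23683539796, nat_lit 25024094285, nat_lit 26826292746, nat_lit 27915922805, nat_lit 19791832240, nat_lit 20528216386, nat_lit 22389341720, nat_lit 23315896480], nat_lit 0, nat_lit 0, nat_lit 0, nat_lit 0, nat_lit 0, nat_lit 0, [], [nat_lit 27, nat_lit 40, nat_lit 40, nat_lit 80, nat_lit 13, nat_lit 317, nat_lit 100, nat_lit 9]⟩, ⟨p096_k50, nat_lit 0, nat_lit 0, nat_lit 572, nat_lit 0, nat_lit 476479, [nat_lit 3282000000, nat_lit 6250000000, nat_lit 14058000000], [], [nat_lit 37158698029, nat_lit 35608941392, nat_lit 35598231260, nat_lit 36276463932, nat_lit 30523047517,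 nat_lit 31221862739, nat_lit 31108187356, nat_lit 31671176988], nat_lit 1271250, nat_lit 1271250, nat_lit 904401, nat_lit 1771500, nat_lit 0, nat_lit 1100001, [nat_lit 780000, nat_lit 1435000, nat_lit 1271250], [nat_lit 71, nat_lit 40, nat_lit 40, nat_lit 80, nat_lit 68, nat_lit 401, nat_lit 175, nat_lit 9]⟩,
 zbF0, [⟨nat_lit 0, nat_lit 87, nat_lit 60, nat_lit 100, nat_lit 606944375⟩]⟩
noncomputable def p096_l83 : Lf2 := ⟨nat_lit 0, nat_lit 25, [nat_lit 44, nat_lit 5, nat_lit 5, nat_lit 20], false, nat_lit 0, nat_lit 80, nat_lit 160, nat_lit 320, ⟨nat_lit 1000, nat_lit 0, nat_lit 0, nat_lit 0, nat_lit 0, nat_lit 0, nat_lit 0, nat_lit 0, nat_lit 0, nat_lit 0, nat_lit 0, nat_lit 0, nat_lit 0, nat_lit 0, nat_lit 0, nat_lit 0, false, false⟩,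
 nat_lit 0, nat_lit 0, nat_lit 8371, nat_lit 5113, nat_lit 3940, nat_lit 5326, nat_lit 997, nat_lit 0, nat_lit 0, nat_lit 191, nat_lit 0, nat_lit 0, nat_lit 0, nat_lit 0, nat_lit 0, nat_lit 0, nat_lit 0, nat_lit 0, [],
 ⟨p096_k51, nat_lit 0, nat_lit 0, nat_lit 191, nat_lit 0, nat_lit 0, [nat_lit 2032000001, nat_lit 4688000000, nat_lit 9842000000], [], [nat_lit 20363738314, nat_lit 21095694780, nat_lit 23153788360, nat_lit 24045206940, nat_lit 18411384894, nat_lit 19064844675, nat_lit 21338463046, nat_lit 22015889226], nat_lit 0, nat_lit 0, nat_lit 0, nat_lit 0, nat_lit 0, nat_lit 0, [], [nat_lit 27, nat_lit 40, nat_lit 40, nat_lit 80, nat_lit 13, nat_lit 317, nat_lit 100, nat_lit 9]⟩, ⟨p096_k45, nat_lit 0, nat_lit 0, nat_lit 240, nat_lit 0, nat_lit 327939, [nat_lit 3282000000, nat_lit 6250000000, nat_lit 11872000000], [], [nat_lit 29001988414, nat_lit 30073045940, nat_lit 31119099945, nat_lit 31988745645, nat_lit 34025994932,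 nat_lit 34850924941, nat_lit 35109389289, nat_lit 35780090033], nat_lit 1271250, nat_lit 1271250, nat_lit 810650, nat_lit 1764750, nat_lit 1271250, nat_lit 1271250, [nat_lit 780000, nat_lit 1435000, nat_lit 1271250], [nat_lit 23, nat_lit 40, nat_lit 40, nat_lit 80, nat_lit 12, nat_lit 456, nat_lit 225, nat_lit 11]⟩,
 zbF0, [⟨nat_lit 0, nat_lit 88, nat_lit 67, nat_lit 100, nat_lit 532937614⟩, ⟨nat_lit 19, nat_lit 100, nat_lit 97, nat_lit 94, nat_lit 364904082⟩]⟩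
noncomputable def p096_l84 : Lf2 := ⟨nat_lit 0, nat_lit 25, [nat_lit 44, nat_lit 5, nat_lit 5, nat_lit 20], false, nat_lit 4, nat_lit 80, nat_lit 160, nat_lit 320, ⟨nat_lit 1000, nat_lit 0, nat_lit 0, nat_lit 0, nat_lit 0, nat_lit 0, nat_lit 0, nat_lit 0, nat_lit 0, nat_lit 0, nat_lit 0, nat_lit 0, nat_lit 0, nat_lit 0, nat_lit 0, nat_lit 0, false, false⟩,
 nat_lit 0, nat_lit 0, nat_lit 10798, nat_lit 0, nat_lit 4009, nat_lit 6871, nat_lit 759, nat_lit 0, nat_lit 0, nat_lit 957, nat_lit 0, nat_lit 0, nat_lit 0, nat_lit 0, nat_lit 0, nat_lit 0, nat_lit 0, nat_lit 0, [],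
 ⟨p096_k52, nat_lit 0, nat_lit 0, nat_lit 162, nat_lit 0, nat_lit 0, [nat_lit 2032000001, nat_lit 4688000000, nat_lit 7968000000], [], [nat_lit 21787932196, nat_lit 22582847560, nat_lit 24260648819, nat_lit 24924515788, nat_lit 19930338269, nat_lit 20638073729, nat_lit 22366126833, nat_lit 22959551940], nat_lit 0, nat_lit 0, nat_lit 0, nat_lit 0, nat_lit 0, nat_lit 0, [], [nat_lit 34, nat_lit 40, nat_lit 40, nat_lit 80, nat_lit 7, nat_lit 317, nat_lit 100, nat_lit 10]⟩, ⟨p096_k45, nat_lit 0, nat_lit 0, nat_lit 349, nat_lit 0, nat_lit 458680, [nat_lit 3282000000, nat_lit 6250000000, nat_lit 11872000000], [], [nat_lit 23704461255, nat_lit 24458882576, nat_lit 24565616471, nat_lit 25405772921, nat_lit 27472151943, nat_lit 28168879541, nat_lit 28469061968, nat_lit 29245602374], nat_lit 1271250, nat_lit 1271250, nat_lit 904401, nat_lit 1771500, nat_lit 1271250, nat_lit 1271250, [nat_lit 780000, nat_lit 1435000, nat_lit 1271250],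 [nat_lit 23, nat_lit 40, nat_lit 40, nat_lit 80, nat_lit 12, nat_lit 456, nat_lit 225, nat_lit 11]⟩,
 zbF0, [⟨nat_lit 0, nat_lit 87, nat_lit 60, nat_lit 100, nat_lit 589840644⟩, ⟨nat_lit 19, nat_lit 100, nat_lit 97, nat_lit 94, nat_lit 362249781⟩]⟩
noncomputable def p096_l85 : Lf2 := ⟨nat_lit 0, nat_lit 30, [nat_lit 15, nat_lit 5, nat_lit 5, nat_lit 20], false, nat_lit 4, nat_lit 80, nat_lit 160, nat_lit 336, ⟨nat_lit 1000, nat_lit 0, nat_lit 0, nat_lit 0, nat_lit 0, nat_lit 0, nat_lit 0, nat_lit 0, nat_lit 0, nat_lit 0, nat_lit 0, nat_lit 0, nat_lit 0, nat_lit 0, nat_lit 0, nat_lit 0, false, false⟩,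
 nat_lit 0, nat_lit 0, nat_lit 15167, nat_lit 9573, nat_lit 3955, nat_lit 9651, nat_lit 779, nat_lit 0, nat_lit 0, nat_lit 834, nat_lit 0, nat_lit 0, nat_lit 0, nat_lit 0, nat_lit 0, nat_lit 0, nat_lit 0, nat_lit 0, [],
 ⟨p096_k48, nat_lit 0, nat_lit 0, nat_lit 198, nat_lit 0, nat_lit 0, [nat_lit 2032000001, nat_lit 6250000000, nat_lit 9842000000], [], [nat_lit 22367544873, nat_lit 23098970812, nat_lit 25068443607, nat_lit 25780000415, nat_lit 20500657152, nat_lit 21155345688, nat_lit 23405964031, nat_lit 24041300646], nat_lit 0, nat_lit 0, nat_lit 0, nat_lit 0, nat_lit 0, nat_lit 0, [], [nat_lit 61, nat_lit 40, nat_lit 40, nat_lit 80, nat_lit 1, nat_lit 317, nat_lit 100, nat_lit 9]⟩, ⟨p096_k41, nat_lit 0, nat_lit 0, nat_lit 228, nat_lit 0, nat_lit 167955, [nat_lit 3282000000, nat_lit 7968000000, nat_lit 14058000000], [], [nat_lit 21426529457, nat_lit 22785784652, nat_lit 26725325856, nat_lit 23488028294, nat_lit 27662710537,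 nat_lit 28513515119, nat_lit 27970573941, nat_lit 28979129650], nat_lit 1271250, nat_lit 1271250, nat_lit 810650, nat_lit 1764750, nat_lit 1271250, nat_lit 1271250, [nat_lit 780000, nat_lit 1762500, nat_lit 1271250], [nat_lit 84, nat_lit 40, nat_lit 40, nat_lit 80, nat_lit 28, nat_lit 456, nat_lit 225, nat_lit 10]⟩,
 zbF0, [⟨nat_lit 0, nat_lit 88, nat_lit 67, nat_lit 100, nat_lit 571584990⟩, ⟨nat_lit 19, nat_lit 100, nat_lit 90, nat_lit 100, nat_lit 276223334⟩]⟩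
noncomputable def p096_l86 : Lf2 := ⟨nat_lit 0, nat_lit 30, [nat_lit 15, nat_lit 5, nat_lit 5, nat_lit 20], false, nat_lit 8, nat_lit 80, nat_lit 160, nat_lit 336, ⟨nat_lit 1000, nat_lit 0, nat_lit 0, nat_lit 0, nat_lit 0, nat_lit 0, nat_lit 0, nat_lit 0, nat_lit 0, nat_lit 0, nat_lit 0, nat_lit 0, nat_lit 0, nat_lit 0, nat_lit 0, nat_lit 0, false, false⟩,
 nat_lit 0, nat_lit 0, nat_lit 8978, nat_lit 11836, nat_lit 4011, nat_lit 5713, nat_lit 821, nat_lit 0, nat_lit 0, nat_lit 739, nat_lit 0, nat_lit 0, nat_lit 0, nat_lit 0, nat_lit 0, nat_lit 0, nat_lit 0, nat_lit 0, [],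
 ⟨p096_k53, nat_lit 0, nat_lit 0, nat_lit 198, nat_lit 0, nat_lit 0, [nat_lit 2032000001, nat_lit 6250000000, nat_lit 9842000000], [], [nat_lit 21489876223, nat_lit 22212399966, nat_lit 24003661555, nat_lit 24780189382, nat_lit 19593698799, nat_lit 20353704733, nat_lit 22286359160, nat_lit 22926100343], nat_lit 0, nat_lit 0, nat_lit 0, nat_lit 0, nat_lit 0, nat_lit 0, [], [nat_lit 61, nat_lit 40, nat_lit 40, nat_lit 80, nat_lit 1, nat_lit 317, nat_lit 100, nat_lit 9]⟩, ⟨p096_k41, nat_lit 0, nat_lit 0, nat_lit 269, nat_lit 0, nat_lit 295822, [nat_lit 3282000000, nat_lit 7968000000, nat_lit 14058000000], [], [nat_lit 24267344370, nat_lit 25327481054, nat_lit 30988487128, nat_lit 28296487250, nat_lit 29690223110, nat_lit 30382285109, nat_lit 30863665020, nat_lit 31670321045], nat_lit 1271250, nat_lit 1271250, nat_lit 904401, nat_lit 1771500, nat_lit 1271250, nat_lit 1271250, [nat_lit 780000, nat_lit 1762500, nat_lit 1271250],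 [nat_lit 84, nat_lit 40, nat_lit 40, nat_lit 80, nat_lit 28, nat_lit 456, nat_lit 225, nat_lit 10]⟩,
 zbF0, [⟨nat_lit 0, nat_lit 91, nat_lit 65, nat_lit 100, nat_lit 484105891⟩, ⟨nat_lit 19, nat_lit 100, nat_lit 90, nat_lit 100, nat_lit 234872698⟩]⟩
noncomputable def p096_l87 : Lf2 := ⟨nat_lit 0, nat_lit 30, [nat_lit 15, nat_lit 5, nat_lit 5, nat_lit 20], false, nat_lit 80, nat_lit 160, nat_lit 160, nat_lit 336, ⟨nat_lit 249, nat_lit 354, nat_lit 397, nat_lit 7, nat_lit 228, nat_lit 751, nat_lit 103, nat_lit 397, nat_lit 101400, nat_lit 293, nat_lit 75502, nat_lit 200, nat_lit 46430952, nat_lit 15939782, nat_lit 4629266, nat_lit 4142157, false, false⟩,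
 nat_lit 0, nat_lit 0, nat_lit 3479, nat_lit 0, nat_lit 4803, nat_lit 2213, nat_lit 0, nat_lit 0, nat_lit 0, nat_lit 171, nat_lit 0, nat_lit 0, nat_lit 0, nat_lit 0, nat_lit 0, nat_lit 169885, nat_lit 0, nat_lit 0, [(nat_lit 23, [(nat_lit 0, nat_lit 354), (nat_lit 3, nat_lit 397)])],
 ⟨p096_k48, nat_lit 0, nat_lit 0, nat_lit 78, nat_lit 0, nat_lit 0, [nat_lit 2040809601, nat_lit 1951958000, nat_lit 3007380000], [], [nat_lit 18196634775, nat_lit 20036347246, nat_lit 21289302220, nat_lit 22857812360, nat_lit 18766232560, nat_lit 20410973398, nat_lit 21532661116, nat_lit 22875363580], nat_lit 0, nat_lit 0, nat_lit 0, nat_lit 0, nat_lit 0, nat_lit 0, [], [nat_lit 61, nat_lit 40, nat_lit 40, nat_lit 80, nat_lit 1, nat_lit 317, nat_lit 100, nat_lit 9]⟩, ⟨p096_k41, nat_lit 0, nat_lit 0, nat_lit 423, nat_lit 0, nat_lit 476479, [nat_lit 817218000, nat_lit 1984032000, nat_lit 3500442000], [], [nat_lit 6564240217, nat_lit 6798497134,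 nat_lit 6851652116, nat_lit 6812160850, nat_lit 7536280400, nat_lit 7674506858, nat_lit 7476536848, nat_lit 7640001599], nat_lit 1271250, nat_lit 1271250, nat_lit 810650, nat_lit 1764750, nat_lit 1271250, nat_lit 1271250, [nat_lit 780000, nat_lit 1762500, nat_lit 1271250], [nat_lit 84, nat_lit 40, nat_lit 40, nat_lit 80, nat_lit 28, nat_lit 456, nat_lit 225, nat_lit 10]⟩,
 ⟨nat_lit 3162, nat_lit 3873, ⟨.ofNat (nat_lit 464406), .ofNat (nat_lit 651611), .ofNat (nat_lit 486170), .ofNat (nat_lit 673376), .ofNat (nat_lit 472632), .ofNat (nat_lit 649490), .ofNat (nat_lit 494758), .ofNat (nat_lit 671616)⟩, ⟨.ofNat (nat_lit 175674), .ofNat (nat_lit 304717), .ofNat (nat_lit 200000), .ofNat (nat_lit 348304), .ofNat (nat_lit 184209), .ofNat (nat_lit 306116), .ofNat (nat_lit 200000), .ofNat (nat_lit 350426)⟩⟩, [⟨nat_lit 0, nat_lit 87, nat_lit 60, nat_lit 100, nat_lit 97004061⟩, ⟨nat_lit 7, nat_lit 94, nat_lit 100, nat_lit 97, nat_lit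 82898420⟩]⟩
noncomputable def p096_l88 : Lf2 := ⟨nat_lit 0, nat_lit 30, [nat_lit 15, nat_lit 5, nat_lit 5, nat_lit 20], false, nat_lit 0, nat_lit 160, nat_lit 0, nat_lit 160, ⟨nat_lit 1000, nat_lit 0, nat_lit 0, nat_lit 0, nat_lit 0, nat_lit 0, nat_lit 0, nat_lit 0, nat_lit 0, nat_lit 0, nat_lit 0, nat_lit 0, nat_lit 0, nat_lit 0, nat_lit 0, nat_lit 0, false, false⟩,
 nat_lit 0, nat_lit 0, nat_lit 10135, nat_lit 0, nat_lit 6465, nat_lit 7016, nat_lit 925, nat_lit 0, nat_lit 0, nat_lit 699, nat_lit 0, nat_lit 0, nat_lit 0, nat_lit 0, nat_lit 0, nat_lit 0, nat_lit 0, nat_lit 0, [],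
 ⟨p096_k54, nat_lit 0, nat_lit 0, nat_lit 220, nat_lit 0, nat_lit 0, [nat_lit 2032000001, nat_lit 4688000000, nat_lit 11872000000], [], [nat_lit 24745545755, nat_lit 26482670855, nat_lit 26592292295, nat_lit 27989005975, nat_lit 20554120895, nat_lit 21794979785, nat_lit 21927672335, nat_lit 23300146680], nat_lit 0, nat_lit 0, nat_lit 0, nat_lit 0, nat_lit 0, nat_lit 0, [], [nat_lit 75, nat_lit 40, nat_lit 40, nat_lit 80, nat_lit 65, nat_lit 317, nat_lit 100, nat_lit 8]⟩, ⟨p096_k55, nat_lit 0, nat_lit 0, nat_lit 412, nat_lit 0, nat_lit 351193, [nat_lit 3282000000, nat_lit 6250000000, nat_lit 11872000000], [], [nat_lit 28497585500, nat_lit 29779425187, nat_lit 30240252803, nat_lit 31535232483, nat_lit 24016791804, nat_lit 25089306604, nat_lit 32212948594, nat_lit 29076796594], nat_lit 1271250, nat_lit 1271250, nat_lit 780000, nat_lit 1762500, nat_lit 0, nat_lit 1100001, [nat_lit 780000, nat_lit 1435000, nat_lit 1271250],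 [nat_lit 23, nat_lit 40, nat_lit 40, nat_lit 80, nat_lit 12, nat_lit 428, nat_lit 200, nat_lit 11]⟩,
 zbF0, [⟨nat_lit 0, nat_lit 81, nat_lit 72, nat_lit 100, nat_lit 172426489⟩]⟩
noncomputable def p096_l89 : Lf2 := ⟨nat_lit 0, nat_lit 30, [nat_lit 15, nat_lit 5, nat_lit 5, nat_lit 20], false, nat_lit 0, nat_lit 160, nat_lit 160, nat_lit 320, ⟨nat_lit 1000, nat_lit 0, nat_lit 0, nat_lit 0, nat_lit 0, nat_lit 0, nat_lit 0, nat_lit 0, nat_lit 0, nat_lit 0, nat_lit 0, nat_lit 0, nat_lit 0, nat_lit 0, nat_lit 0, nat_lit 0, false, false⟩,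
 nat_lit 0, nat_lit 0, nat_lit 9970, nat_lit 13870, nat_lit 6490, nat_lit 6902, nat_lit 977, nat_lit 0, nat_lit 0, nat_lit 1016, nat_lit 0, nat_lit 0, nat_lit 0, nat_lit 0, nat_lit 0, nat_lit 0, nat_lit 0, nat_lit 0, [],
 ⟨p096_k54, nat_lit 0, nat_lit 0, nat_lit 220, nat_lit 0, nat_lit 0, [nat_lit 2032000001, nat_lit 4688000000, nat_lit 11872000000], [], [nat_lit 24071466555, nat_lit 25812665155, nat_lit 24091206795, nat_lit 25729772115, nat_lit 19823766595, nat_lit 21067224135, nat_lit 19872087475, nat_lit 21042439435], nat_lit 0, nat_lit 0, nat_lit 0, nat_lit 0, nat_lit 0, nat_lit 0, [], [nat_lit 75, nat_lit 40, nat_lit 40, nat_lit 80, nat_lit 65, nat_lit 317, nat_lit 100, nat_lit 8]⟩, ⟨p096_k55, nat_lit 0, nat_lit 0, nat_lit 252, nat_lit 0, nat_lit 351193, [nat_lit 3282000000, nat_lit 6250000000, nat_lit 11872000000], [], [nat_lit 20100267888, nat_lit 21164141488, nat_lit 20105998156, nat_lit 21102438040, nat_lit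 24935997032, nat_lit 25856163064, nat_lit 24639756524, nat_lit 25502302968], nat_lit 1271250, nat_lit 1271250, nat_lit 780000, nat_lit 1100001, nat_lit 1100001, nat_lit 2470000, [nat_lit 780000, nat_lit 1435000, nat_lit 1271250], [nat_lit 23, nat_lit 40, nat_lit 40, nat_lit 80, nat_lit 12, nat_lit 428, nat_lit 200, nat_lit 10]⟩,
 zbF0, [⟨nat_lit 0, nat_lit 81, nat_lit 72, nat_lit 100, nat_lit 960796110⟩, ⟨nat_lit 7, nat_lit 100, nat_lit 93, nat_lit 97, nat_lit 401321794⟩]⟩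
noncomputable def p096_l90 : Lf2 := ⟨nat_lit 0, nat_lit 30, [nat_lit 15, nat_lit 5, nat_lit 5, nat_lit 20], false, nat_lit 0, nat_lit 160, nat_lit 160, nat_lit 320, ⟨nat_lit 1000, nat_lit 0, nat_lit 0, nat_lit 0, nat_lit 0, nat_lit 0, nat_lit 0, nat_lit 0, nat_lit 0, nat_lit 0, nat_lit 0, nat_lit 0, nat_lit 0, nat_lit 0, nat_lit 0, nat_lit 0, false, false⟩,
 nat_lit 0, nat_lit 0, nat_lit 10144, nat_lit 7959, nat_lit 6141, nat_lit 7022, nat_lit 1050, nat_lit 0, nat_lit 0, nat_lit 792, nat_lit 0, nat_lit 0, nat_lit 0, nat_lit 0, nat_lit 0, nat_lit 0, nat_lit 0, nat_lit 0, [],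
 ⟨p096_k54, nat_lit 0, nat_lit 0, nat_lit 211, nat_lit 0, nat_lit 0, [nat_lit 2032000001, nat_lit 4688000000, nat_lit 11872000000], [], [nat_lit 22900858778, nat_lit 24486980566, nat_lit 24733727358, nat_lit 26946978554, nat_lit 18452977170, nat_lit 19799882278, nat_lit 20753350688, nat_lit 22406136440], nat_lit 0, nat_lit 0, nat_lit 0, nat_lit 0, nat_lit 0, nat_lit 0, [], [nat_lit 75, nat_lit 40, nat_lit 40, nat_lit 80, nat_lit 65, nat_lit 317, nat_lit 100, nat_lit 8]⟩, ⟨p096_k55, nat_lit 0, nat_lit 0, nat_lit 239, nat_lit 0, nat_lit 351193, [nat_lit 3282000000, nat_lit 6250000000, nat_lit 11872000000], [], [nat_lit 21913532536, nat_lit 23212826640, nat_lit 23682327524, nat_lit 24778078536, nat_lit 27051559964, nat_lit 27920145048, nat_lit 32062264536, nat_lit 28882646760], nat_lit 1271250, nat_lit 1271250, nat_lit 1100001, nat_lit 1785000, nat_lit 1100001, nat_lit 2470000, [nat_lit 780000, nat_lit 1435000, nat_lit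 1271250], [nat_lit 23, nat_lit 40, nat_lit 40, nat_lit 80, nat_lit 12, nat_lit 456, nat_lit 225, nat_lit 11]⟩,
 zbF0, [⟨nat_lit 7, nat_lit 100, nat_lit 93, nat_lit 97, nat_lit 411933738⟩]⟩
noncomputable def p096_l91 : Lf2 := ⟨nat_lit 0, nat_lit 30, [nat_lit 15, nat_lit 5, nat_lit 5, nat_lit 20], false, nat_lit 0, nat_lit 160, nat_lit 0, nat_lit 160, ⟨nat_lit 1000, nat_lit 0, nat_lit 0, nat_lit 0, nat_lit 0, nat_lit 0, nat_lit 0, nat_lit 0, nat_lit 0, nat_lit 0, nat_lit 0, nat_lit 0, nat_lit 0, nat_lit 0, nat_lit 0, nat_lit 0, false, false⟩,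
 nat_lit 0, nat_lit 0, nat_lit 9299, nat_lit 0, nat_lit 6067, nat_lit 6437, nat_lit 685, nat_lit 0, nat_lit 0, nat_lit 884, nat_lit 0, nat_lit 0, nat_lit 0, nat_lit 0, nat_lit 0, nat_lit 0, nat_lit 0, nat_lit 0, [],
 ⟨p096_k56, nat_lit 0, nat_lit 0, nat_lit 192, nat_lit 0, nat_lit 0, [nat_lit 2032000001, nat_lit 4688000000, nat_lit 9842000000], [], [nat_lit 25548893926, nat_lit 27359663342, nat_lit 27618147103, nat_lit 29127470636, nat_lit 21331581442, nat_lit 22859782727, nat_lit 23160404227, nat_lit 24438853997], nat_lit 0, nat_lit 0, nat_lit 0, nat_lit 0, nat_lit 0, nat_lit 0, [], [nat_lit 27, nat_lit 40, nat_lit 40, nat_lit 80, nat_lit 13, nat_lit 317, nat_lit 100, nat_lit 9]⟩, ⟨p096_k55, nat_lit 0, nat_lit 0, nat_lit 532, nat_lit 0, nat_lit 568945, [nat_lit 3282000000, nat_lit 6250000000, nat_lit 11872000000], [], [nat_lit 30201680379, nat_lit 28584233459, nat_lit 28814586078, nat_lit 29572644160, nat_lit 24204290672,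 nat_lit 24882232615, nat_lit 24998247868, nat_lit 25630233376], nat_lit 1271250, nat_lit 1271250, nat_lit 968401, nat_lit 1776000, nat_lit 0, nat_lit 1100001, [nat_lit 780000, nat_lit 1435000, nat_lit 1271250], [nat_lit 23, nat_lit 40, nat_lit 40, nat_lit 80, nat_lit 12, nat_lit 428, nat_lit 200, nat_lit 11]⟩,
 zbF0, [⟨nat_lit 0, nat_lit 80, nat_lit 60, nat_lit 100, nat_lit 704097321⟩]⟩
noncomputable def p096_l92 : Lf2 := ⟨nat_lit 0, nat_lit 30, [nat_lit 15, nat_lit 5, nat_lit 5, nat_lit 20], false, nat_lit 0, nat_lit 80, nat_lit 160, nat_lit 320, ⟨nat_lit 1000, nat_lit 0, nat_lit 0, nat_lit 0, nat_lit 0, nat_lit 0, nat_lit 0, nat_lit 0, nat_lit 0, nat_lit 0, nat_lit 0, nat_lit 0, nat_lit 0, nat_lit 0, nat_lit 0, nat_lit 0, false, false⟩,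
 nat_lit 0, nat_lit 0, nat_lit 9859, nat_lit 0, nat_lit 4012, nat_lit 6825, nat_lit 884, nat_lit 0, nat_lit 0, nat_lit 481, nat_lit 0, nat_lit 0, nat_lit 0, nat_lit 0, nat_lit 0, nat_lit 0, nat_lit 0, nat_lit 0, [],
 ⟨p096_k56, nat_lit 0, nat_lit 0, nat_lit 192, nat_lit 0, nat_lit 0, [nat_lit 2032000001, nat_lit 4688000000, nat_lit 9842000000], [], [nat_lit 21958792035, nat_lit 23395373077, nat_lit 24145236108, nat_lit 25361531780, nat_lit 19927097540, nat_lit 21209602908, nat_lit 22114949142, nat_lit 23397618502], nat_lit 0, nat_lit 0, nat_lit 0, nat_lit 0, nat_lit 0, nat_lit 0, [], [nat_lit 27, nat_lit 40, nat_lit 40, nat_lit 80, nat_lit 13, nat_lit 317, nat_lit 100, nat_lit 9]⟩, ⟨p096_k55, nat_lit 0, nat_lit 0, nat_lit 388, nat_lit 0, nat_lit 568945, [nat_lit 3282000000, nat_lit 6250000000, nat_lit 11872000000], [], [nat_lit 27155364330, nat_lit 28173299520, nat_lit 28444027950, nat_lit 29281886700, nat_lit 31136324580,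 nat_lit 31822314260, nat_lit 32512919475, nat_lit 32074544525], nat_lit 1271250, nat_lit 1271250, nat_lit 968401, nat_lit 1776000, nat_lit 1100001, nat_lit 2470000, [nat_lit 780000, nat_lit 1435000, nat_lit 1271250], [nat_lit 23, nat_lit 40, nat_lit 40, nat_lit 80, nat_lit 12, nat_lit 456, nat_lit 225, nat_lit 11]⟩,
 zbF0, [⟨nat_lit 0, nat_lit 84, nat_lit 67, nat_lit 100, nat_lit 525204461⟩, ⟨nat_lit 19, nat_lit 93, nat_lit 100, nat_lit 97, nat_lit 375270931⟩]⟩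
noncomputable def p096_l93 : Lf2 := ⟨nat_lit 0, nat_lit 30, [nat_lit 15, nat_lit 5, nat_lit 5, nat_lit 20], false, nat_lit 80, nat_lit 160, nat_lit 160, nat_lit 320, ⟨nat_lit 1000, nat_lit 0, nat_lit 0, nat_lit 0, nat_lit 0, nat_lit 0, nat_lit 0, nat_lit 0, nat_lit 0, nat_lit 0, nat_lit 0, nat_lit 0, nat_lit 0, nat_lit 0, nat_lit 0, nat_lit 0, false, false⟩,
 nat_lit 0, nat_lit 0, nat_lit 8816, nat_lit 0, nat_lit 8358, nat_lit 6103, nat_lit 0, nat_lit 0, nat_lit 0, nat_lit 661, nat_lit 0, nat_lit 0, nat_lit 0, nat_lit 0, nat_lit 0, nat_lit 0, nat_lit 0, nat_lit 0, [],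
 ⟨p096_k48, nat_lit 0, nat_lit 0, nat_lit 76, nat_lit 0, nat_lit 0, [nat_lit 2032000001, nat_lit 6250000000, nat_lit 9842000000], [], [nat_lit 20894353805, nat_lit 23451176604, nat_lit 23890684920, nat_lit 26199938960, nat_lit 20495593554, nat_lit 22757994082, nat_lit 23061969576, nat_lit 24923352504], nat_lit 0, nat_lit 0, nat_lit 0, nat_lit 0, nat_lit 0, nat_lit 0, [], [nat_lit 61, nat_lit 40, nat_lit 40, nat_lit 80, nat_lit 1, nat_lit 317, nat_lit 100, nat_lit 9]⟩, ⟨p096_k57, nat_lit 0, nat_lit 0, nat_lit 398, nat_lit 0, nat_lit 568945, [nat_lit 3282000000, nat_lit 7968000000, nat_lit 11872000000], [], [nat_lit 27677725158, nat_lit 28380164643, nat_lit 28552911268, nat_lit 29246846486, nat_lit 30879089040, nat_lit 31536539978, nat_lit 31581594866, nat_lit 32205158818], nat_lit 1271250, nat_lit 1271250, nat_lit 968401, nat_lit 1776000, nat_lit 1271250, nat_lit 1271250, [nat_lit 780000, nat_lit 1762500, nat_lit 1271250],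 [nat_lit 79, nat_lit 40, nat_lit 40, nat_lit 80, nat_lit 14, nat_lit 456, nat_lit 225, nat_lit 11]⟩,
 zbF0, [⟨nat_lit 0, nat_lit 80, nat_lit 60, nat_lit 100, nat_lit 649131173⟩, ⟨nat_lit 7, nat_lit 100, nat_lit 93, nat_lit 97, nat_lit 351372160⟩]⟩
noncomputable def b_V_800_700_20_44 : St := ⟨true, nat_lit 0, nat_lit 1, nat_lit 1, nat_lit 120, nat_lit 320, nat_lit 360, nat_lit 280, nat_lit 320, nat_lit 100, nat_lit 240, nat_lit 80, nat_lit 120, nat_lit 0, nat_lit 160, nat_lit 0, nat_lit 336, nat_lit 80, nat_lit 120, nat_lit 0, nat_lit 0, nat_lit 0, nat_lit 0⟩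
theorem d_V_800_700_20_44 (h : EB TB.env) : Dead b_V_800_700_20_44 := chkB_sound0 h (T :=
(.spl (nat_lit 1) (nat_lit 300)
(.spl (nat_lit 0) (nat_lit 340)
(.spl (nat_lit 6) (nat_lit 108)
(.spl (nat_lit 5) (nat_lit 160)
(.leaf p096_l76)
(.spl (nat_lit 3) (nat_lit 100)
(.trX (nat_lit 19) (nat_lit 100) (nat_lit 88) (nat_lit 94) (nat_lit 320) (.leaf p096_l77))
(.spl (nat_lit 6) (nat_lit 88)
(.leaf p096_l78)
(.leaf p096_l79))))
(.leaf p096_l80))
(.trZ (nat_lit 0) (nat_lit 99) (nat_lit 77) (nat_lit 100) (nat_lit 124) (.spl (nat_lit 5) (nat_lit 160)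
(.spl (nat_lit 0) (nat_lit 350)
(.leaf p096_l81)
(.trZ (nat_lit 0) (nat_lit 96) (nat_lit 69) (nat_lit 100) (nat_lit 136) (.trZ (nat_lit 3) (nat_lit 100) (nat_lit 83) (nat_lit 25) (nat_lit 4) (.leaf p096_l82))))
(.spl (nat_lit 4) (nat_lit 80)
(.spl (nat_lit 3) (nat_lit 100)
(.trX (nat_lit 19) (nat_lit 100) (nat_lit 88) (nat_lit 94) (nat_lit 320) (.spl (nat_lit 0) (nat_lit 350)
(.leaf p096_l83)
(.trZ (nat_lit 0) (nat_lit 96) (nat_lit 69) (nat_lit 100) (nat_lit 136) (.trZ (nat_lit 3) (nat_lit 100) (nat_lit 83) (nat_lit 25) (nat_lit 4) (.leaf p096_l84)))))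
(.trZ (nat_lit 3) (nat_lit 100) (nat_lit 82) (nat_lit 29) (nat_lit 4) (.spl (nat_lit 0) (nat_lit 350)
(.leaf p096_l85)
(.trZ (nat_lit 0) (nat_lit 96) (nat_lit 69) (nat_lit 100) (nat_lit 136) (.trZ (nat_lit 3) (nat_lit 100) (nat_lit 76) (nat_lit 37) (nat_lit 8) (.leaf p096_l86))))))
(.leaf p096_l87)))))
(.trZ (nat_lit 0) (nat_lit 94) (nat_lit 87) (nat_lit 100) (nat_lit 120) (.trX (nat_lit 19) (nat_lit 94) (nat_lit 88) (nat_lit 100) (nat_lit 320) (.spl (nat_lit 0) (nat_lit 340)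
(.spl (nat_lit 5) (nat_lit 160)
(.leaf p096_l88)
(.spl (nat_lit 2) (nat_lit 160)
(.leaf p096_l89)
(.leaf p096_l90)))
(.trZ (nat_lit 0) (nat_lit 90) (nat_lit 74) (nat_lit 100) (nat_lit 144) (.spl (nat_lit 5) (nat_lit 160)
(.leaf p096_l91)
(.spl (nat_lit 4) (nat_lit 80)
(.leaf p096_l92)
(.leaf p096_l93))))))))) (by decide +kernel)
noncomputable def p096_l94 : Lf2 := ⟨nat_lit 0, nat_lit 30, [nat_lit 15, nat_lit 5, nat_lit 5, nat_lit 20], true, nat_lit 160, nat_lit 300, nat_lit 0, nat_lit 336, ⟨nat_lit 0, nat_lit 896, nat_lit 104, nat_lit 7, nat_lit 184, nat_lit 1000, nat_lit 177, nat_lit 104, nat_lit 1169, nat_lit 218, nat_lit 37913, nat_lit 261, nat_lit 45396147, nat_lit 11141026, nat_lit 10462827, nat_lit 4580529, false, false⟩,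
 nat_lit 0, nat_lit 0, nat_lit 0, nat_lit 76238, nat_lit 4239, nat_lit 0, nat_lit 0, nat_lit 0, nat_lit 0, nat_lit 0, nat_lit 0, nat_lit 0, nat_lit 0, nat_lit 0, nat_lit 0, nat_lit 245840, nat_lit 0, nat_lit 0, [(nat_lit 20, [(nat_lit 0, nat_lit 896), (nat_lit 3, nat_lit 104)])],
 ⟨p096_k54, nat_lit 0, nat_lit 0, nat_lit 62, nat_lit 0, nat_lit 0, [nat_lit 1662528001, nat_lit 2042361600, nat_lit 3092510172], [], [nat_lit 16337148650, nat_lit 18035447889, nat_lit 16446683393, nat_lit 18101452854, nat_lit 22414528405, nat_lit 23899596028, nat_lit 22331603791, nat_lit 23782807966], nat_lit 0, nat_lit 0, nat_lit 0, nat_lit 0, nat_lit 0, nat_lit 0, [], [nat_lit 75, nat_lit 40, nat_lit 40, nat_lit 80, nat_lit 65, nat_lit 345, nat_lit 125, nat_lit 8]⟩, C1.Rw.none,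
 ⟨nat_lit 3872, nat_lit 4473, ⟨.ofNat (nat_lit 416230), .ofNat (nat_lit 450223), .ofNat (nat_lit 459327), .ofNat (nat_lit 493321), .ofNat (nat_lit 425778), .ofNat (nat_lit 458043), .ofNat (nat_lit 469330), .ofNat (nat_lit 501595)⟩, ⟨.ofNat (nat_lit 302621), .ofNat (nat_lit 540545), .ofNat (nat_lit 345754), .ofNat (nat_lit 583678), .ofNat (nat_lit 304717), .ofNat (nat_lit 530543), .ofNat (nat_lit 348304), .ofNat (nat_lit 574129)⟩⟩, [⟨nat_lit 0, nat_lit 92, nat_lit 81, nat_lit 100, nat_lit 3589252452⟩, ⟨nat_lit 4, nat_lit 100, nat_lit 81, nat_lit 92, nat_lit 234052100⟩]⟩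
noncomputable def p096_l95 : Lf2 := ⟨nat_lit 0, nat_lit 30, [nat_lit 15, nat_lit 5, nat_lit 5, nat_lit 20], true, nat_lit 160, nat_lit 240, nat_lit 0, nat_lit 336, ⟨nat_lit 0, nat_lit 1000, nat_lit 0, nat_lit 7, nat_lit 200, nat_lit 1000, nat_lit 156, nat_lit 0, nat_lit 0, nat_lit 0, nat_lit 0, nat_lit 0, nat_lit 45525413, nat_lit 12814952, nat_lit 8659635, nat_lit 4527753, false, false⟩,
 nat_lit 0, nat_lit 0, nat_lit 0, nat_lit 6978, nat_lit 3263, nat_lit 0, nat_lit 0, nat_lit 0, nat_lit 0, nat_lit 0, nat_lit 0, nat_lit 0, nat_lit 0, nat_lit 0, nat_lit 0, nat_lit 250000, nat_lit 0, nat_lit 0, [(nat_lit 20, [(nat_lit 0, nat_lit 1000)]), (nat_lit 23, [(nat_lit 0, nat_lit 1000)])],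
 ⟨p096_k40, nat_lit 0, nat_lit 0, nat_lit 58, nat_lit 0, nat_lit 0, [nat_lit 1576000001, nat_lit 2718000000, nat_lit 3583920000], [], [nat_lit 15697968657, nat_lit 18920195168, nat_lit 16561337717, nat_lit 19591593701, nat_lit 18653836013, nat_lit 21468968520, nat_lit 19363253157, nat_lit 21989358317], nat_lit 0, nat_lit 0, nat_lit 0, nat_lit 0, nat_lit 0, nat_lit 0, [], [nat_lit 72, nat_lit 40, nat_lit 40, nat_lit 80, nat_lit 12, nat_lit 317, nat_lit 100, nat_lit 8]⟩, C1.Rw.none,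
 ⟨nat_lit 3162, nat_lit 4473, ⟨.ofNat (nat_lit 449792), .ofNat (nat_lit 517847), .ofNat (nat_lit 471268), .ofNat (nat_lit 539323), .ofNat (nat_lit 466195), .ofNat (nat_lit 527226), .ofNat (nat_lit 488260), .ofNat (nat_lit 549290)⟩, ⟨.ofNat (nat_lit 302621), .ofNat (nat_lit 438578), .ofNat (nat_lit 345754), .ofNat (nat_lit 481711), .ofNat (nat_lit 306116), .ofNat (nat_lit 428022), .ofNat (nat_lit 350426), .ofNat (nat_lit 472332)⟩⟩, [⟨nat_lit 0, nat_lit 87, nat_lit 60, nat_lit 100, nat_lit 127888664⟩, ⟨nat_lit 4, nat_lit 100, nat_lit 74, nat_lit 90, nat_lit 114293903⟩]⟩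
noncomputable def p096_l96 : Lf2 := ⟨nat_lit 0, nat_lit 30, [nat_lit 15, nat_lit 5, nat_lit 5, nat_lit 20], true, nat_lit 160, nat_lit 240, nat_lit 0, nat_lit 336, ⟨nat_lit 0, nat_lit 1000, nat_lit 0, nat_lit 7, nat_lit 237, nat_lit 1000, nat_lit 156, nat_lit 0, nat_lit 0, nat_lit 0, nat_lit 0, nat_lit 0, nat_lit 42504893, nat_lit 16150845, nat_lit 8344262, nat_lit 4784513, false, false⟩,
 nat_lit 0, nat_lit 0, nat_lit 0, nat_lit 7286, nat_lit 3232, nat_lit 0, nat_lit 0, nat_lit 0, nat_lit 0, nat_lit 0, nat_lit 0, nat_lit 0, nat_lit 0, nat_lit 0, nat_lit 0, nat_lit 250000, nat_lit 0, nat_lit 0, [(nat_lit 20, [(nat_lit 0, nat_lit 1000)]), (nat_lit 23, [(nat_lit 0, nat_lit 1000)])],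
 ⟨p096_k40, nat_lit 0, nat_lit 0, nat_lit 48, nat_lit 0, nat_lit 0, [nat_lit 1576000001, nat_lit 2718000000, nat_lit 3583920000], [], [nat_lit 16586722625, nat_lit 19602632801, nat_lit 19383526785, nat_lit 21997997025, nat_lit 19383526785, nat_lit 21997997025, nat_lit 21772771617, nat_lit 24053230849], nat_lit 0, nat_lit 0, nat_lit 0, nat_lit 0, nat_lit 0, nat_lit 0, [], [nat_lit 72, nat_lit 40, nat_lit 40, nat_lit 80, nat_lit 12, nat_lit 345, nat_lit 125, nat_lit 8]⟩, C1.Rw.none,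
 ⟨nat_lit 3162, nat_lit 4473, ⟨.ofNat (nat_lit 517847), .ofNat (nat_lit 653959), .ofNat (nat_lit 528586), .ofNat (nat_lit 664697), .ofNat (nat_lit 527226), .ofNat (nat_lit 649288), .ofNat (nat_lit 538258), .ofNat (nat_lit 660320)⟩, ⟨.ofNat (nat_lit 302621), .ofNat (nat_lit 438578), .ofNat (nat_lit 345754), .ofNat (nat_lit 481711), .ofNat (nat_lit 306116), .ofNat (nat_lit 428022), .ofNat (nat_lit 350426), .ofNat (nat_lit 472332)⟩⟩, [⟨nat_lit 4, nat_lit 100, nat_lit 74, nat_lit 90, nat_lit 124907942⟩]⟩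
noncomputable def p096_l97 : Lf2 := ⟨nat_lit 0, nat_lit 30, [nat_lit 15, nat_lit 5, nat_lit 5, nat_lit 20], false, nat_lit 160, nat_lit 240, nat_lit 0, nat_lit 328, ⟨nat_lit 259, nat_lit 741, nat_lit 0, nat_lit 7, nat_lit 241, nat_lit 741, nat_lit 156, nat_lit 0, nat_lit 0, nat_lit 0, nat_lit 0, nat_lit 0, nat_lit 42146869, nat_lit 16550560, nat_lit 8302571, nat_lit 4809343, false, false⟩,
 nat_lit 0, nat_lit 0, nat_lit 2837, nat_lit 3852, nat_lit 3402, nat_lit 1883, nat_lit 0, nat_lit 0, nat_lit 0, nat_lit 138, nat_lit 0, nat_lit 0, nat_lit 0, nat_lit 0, nat_lit 0, nat_lit 185250, nat_lit 0, nat_lit 0, [(nat_lit 20, [(nat_lit 0, nat_lit 741)]), (nat_lit 23, [(nat_lit 0, nat_lit 741)])],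
 ⟨p096_k54, nat_lit 0, nat_lit 0, nat_lit 40, nat_lit 0, nat_lit 0, [nat_lit 1694104001, nat_lit 2914046000, nat_lit 5704457543], [], [nat_lit 16565619065, nat_lit 19660199801, nat_lit 19390452825, nat_lit 22068727465, nat_lit 19390452825, nat_lit 22068727465, nat_lit 21793837577, nat_lit 24151028832], nat_lit 0, nat_lit 0, nat_lit 0, nat_lit 0, nat_lit 0, nat_lit 0, [], [nat_lit 75, nat_lit 40, nat_lit 40, nat_lit 80, nat_lit 65, nat_lit 345, nat_lit 125, nat_lit 8]⟩, ⟨p096_k58, nat_lit 0, nat_lit 0, nat_lit 553, nat_lit 0, nat_lit 447626, [nat_lit 850038000, nat_lit 1618750000, nat_lit 3641022000], [], [nat_lit 9108781864, nat_lit 9215156818, nat_lit 9319143799, nat_lit 9408330092, nat_lit 8565058239, nat_lit 8620766366, nat_lit 9802557036, nat_lit 9393209218], nat_lit 1271250, nat_lit 1271250, nat_lit 1100001, nat_lit 1785000, nat_lit 0, nat_lit 2316500, [nat_lit 780000, nat_lit 1435000, nat_lit 1271250], [nat_lit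 71, nat_lit 40, nat_lit 40, nat_lit 80, nat_lit 68, nat_lit 456, nat_lit 225, nat_lit 10]⟩,
 ⟨nat_lit 3162, nat_lit 4473, ⟨.ofNat (nat_lit 528586), .ofNat (nat_lit 664697), .ofNat (nat_lit 539323), .ofNat (nat_lit 675435), .ofNat (nat_lit 538258), .ofNat (nat_lit 660320), .ofNat (nat_lit 549290), .ofNat (nat_lit 671352)⟩, ⟨.ofNat (nat_lit 302621), .ofNat (nat_lit 438578), .ofNat (nat_lit 345754), .ofNat (nat_lit 481711), .ofNat (nat_lit 306116), .ofNat (nat_lit 428022), .ofNat (nat_lit 350426), .ofNat (nat_lit 472332)⟩⟩, [⟨nat_lit 16, nat_lit 74, nat_lit 100, nat_lit 90, nat_lit 240387464⟩, ⟨nat_lit 7, nat_lit 97, nat_lit 100, nat_lit 98, nat_lit 40260171⟩]⟩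
noncomputable def p096_l98 : Lf2 := ⟨nat_lit 0, nat_lit 30, [nat_lit 15, nat_lit 5, nat_lit 5, nat_lit 20], false, nat_lit 160, nat_lit 240, nat_lit 0, nat_lit 320, ⟨nat_lit 1000, nat_lit 0, nat_lit 0, nat_lit 0, nat_lit 0, nat_lit 0, nat_lit 0, nat_lit 0, nat_lit 0, nat_lit 0, nat_lit 0, nat_lit 0, nat_lit 0, nat_lit 0, nat_lit 0, nat_lit 0, false, false⟩,
 nat_lit 0, nat_lit 0, nat_lit 9764, nat_lit 0, nat_lit 3843, nat_lit 6759, nat_lit 0, nat_lit 0, nat_lit 0, nat_lit 435, nat_lit 0, nat_lit 0, nat_lit 0, nat_lit 0, nat_lit 0, nat_lit 0, nat_lit 0, nat_lit 0, [],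
 ⟨p096_k54, nat_lit 0, nat_lit 0, nat_lit 34, nat_lit 0, nat_lit 0, [nat_lit 2032000001, nat_lit 4688000000, nat_lit 11872000000], [], [nat_lit 15707665617, nat_lit 17458782461, nat_lit 19439940117, nat_lit 20861835497, nat_lit 18775711933, nat_lit 20281943573, nat_lit 21880005485, nat_lit 23112916469], nat_lit 0, nat_lit 0, nat_lit 0, nat_lit 0, nat_lit 0, nat_lit 0, [], [nat_lit 75, nat_lit 40, nat_lit 40, nat_lit 80, nat_lit 65, nat_lit 345, nat_lit 125, nat_lit 8]⟩, ⟨p096_k55, nat_lit 0, nat_lit 0, nat_lit 412, nat_lit 0, nat_lit 351193, [nat_lit 3282000000, nat_lit 6250000000, nat_lit 11872000000], [], [nat_lit 35430047043, nat_lit 33319619116, nat_lit 33679995222, nat_lit 34675166492, nat_lit 32019415764, nat_lit 32730806000, nat_lit 36095946356, nat_lit 33112888742], nat_lit 1271250, nat_lit 1271250, nat_lit 780000, nat_lit 1762500, nat_lit 0, nat_lit 2260000, [nat_lit 780000, nat_lit 1435000, nat_lit 1271250],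 [nat_lit 23, nat_lit 40, nat_lit 40, nat_lit 80, nat_lit 12, nat_lit 456, nat_lit 225, nat_lit 12]⟩,
 zbF0, [⟨nat_lit 0, nat_lit 81, nat_lit 72, nat_lit 100, nat_lit 460543019⟩, ⟨nat_lit 7, nat_lit 100, nat_lit 93, nat_lit 97, nat_lit 174694879⟩]⟩
noncomputable def p096_l99 : Lf2 := ⟨nat_lit 0, nat_lit 30, [nat_lit 15, nat_lit 5, nat_lit 5, nat_lit 20], false, nat_lit 160, nat_lit 240, nat_lit 0, nat_lit 320, ⟨nat_lit 1000, nat_lit 0, nat_lit 0, nat_lit 0, nat_lit 0, nat_lit 0, nat_lit 0, nat_lit 0, nat_lit 0, nat_lit 0, nat_lit 0, nat_lit 0, nat_lit 0, nat_lit 0, nat_lit 0, nat_lit 0, false, false⟩,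
 nat_lit 0, nat_lit 0, nat_lit 9679, nat_lit 0, nat_lit 3775, nat_lit 6700, nat_lit 0, nat_lit 0, nat_lit 0, nat_lit 795, nat_lit 0, nat_lit 0, nat_lit 0, nat_lit 0, nat_lit 0, nat_lit 0, nat_lit 0, nat_lit 0, [],
 ⟨p096_k56, nat_lit 0, nat_lit 0, nat_lit 43, nat_lit 0, nat_lit 0, [nat_lit 2032000001, nat_lit 4688000000, nat_lit 9842000000], [], [nat_lit 17936628141, nat_lit 19610413582, nat_lit 20893545801, nat_lit 22302680301, nat_lit 20659039522, nat_lit 22101478221, nat_lit 23141416901, nat_lit 24367076400], nat_lit 0, nat_lit 0, nat_lit 0, nat_lit 0, nat_lit 0, nat_lit 0, [], [nat_lit 27, nat_lit 40, nat_lit 40, nat_lit 80, nat_lit 13, nat_lit 345, nat_lit 125, nat_lit 9]⟩, ⟨p096_k55, nat_lit 0, nat_lit 0, nat_lit 532, nat_lit 0, nat_lit 568945, [nat_lit 3282000000, nat_lit 6250000000, nat_lit 11872000000], [], [nat_lit 30467156706, nat_lit 29462389366, nat_lit 29640854925, nat_lit 30410113125, nat_lit 27639458606,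 nat_lit 28163201846, nat_lit 35189361050, nat_lit 32232342850], nat_lit 1271250, nat_lit 1271250, nat_lit 968401, nat_lit 1776000, nat_lit 0, nat_lit 2260000, [nat_lit 780000, nat_lit 1435000, nat_lit 1271250], [nat_lit 23, nat_lit 40, nat_lit 40, nat_lit 80, nat_lit 12, nat_lit 456, nat_lit 225, nat_lit 12]⟩,
 zbF0, [⟨nat_lit 0, nat_lit 84, nat_lit 67, nat_lit 100, nat_lit 68287688⟩, ⟨nat_lit 4, nat_lit 100, nat_lit 67, nat_lit 88, nat_lit 585977334⟩, ⟨nat_lit 7, nat_lit 100, nat_lit 93, nat_lit 97, nat_lit 183112517⟩]⟩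
noncomputable def p096_l100 : Lf2 := ⟨nat_lit 0, nat_lit 30, [nat_lit 15, nat_lit 5, nat_lit 5, nat_lit 20], true, nat_lit 240, nat_lit 280, nat_lit 0, nat_lit 336, ⟨nat_lit 0, nat_lit 1000, nat_lit 0, nat_lit 7, nat_lit 199, nat_lit 1000, nat_lit 196, nat_lit 0, nat_lit 0, nat_lit 0, nat_lit 0, nat_lit 0, nat_lit 42754683, nat_lit 12261190, nat_lit 11984127, nat_lit 4877311, false, false⟩,
 nat_lit 0, nat_lit 0, nat_lit 0, nat_lit 11627, nat_lit 3210, nat_lit 0, nat_lit 0, nat_lit 0, nat_lit 0, nat_lit 0, nat_lit 0, nat_lit 0, nat_lit 0, nat_lit 0, nat_lit 0, nat_lit 250000, nat_lit 0, nat_lit 0, [(nat_lit 20, [(nat_lit 0, nat_lit 1000)])],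
 ⟨p096_k40, nat_lit 0, nat_lit 0, nat_lit 0, nat_lit 0, nat_lit 0, [nat_lit 1534400001, nat_lit 2718000000, nat_lit 3583920000], [], [nat_lit 18642768041, nat_lit 20020196841, nat_lit 19356314521, nat_lit 20659421121, nat_lit 20656885701, nat_lit 21956106360, nat_lit 21265974601, nat_lit 22462676001], nat_lit 0, nat_lit 0, nat_lit 0, nat_lit 0, nat_lit 0, nat_lit 0, [], [nat_lit 72, nat_lit 40, nat_lit 40, nat_lit 80]⟩, C1.Rw.none,
 ⟨nat_lit 3872, nat_lit 4473, ⟨.ofNat (nat_lit 450223), .ofNat (nat_lit 518209), .ofNat (nat_lit 471772), .ofNat (nat_lit 539758), .ofNat (nat_lit 458043), .ofNat (nat_lit 522572), .ofNat (nat_lit 479819), .ofNat (nat_lit 544349)⟩, ⟨.ofNat (nat_lit 438578), .ofNat (nat_lit 506556), .ofNat (nat_lit 481711), .ofNat (nat_lit 549689), .ofNat (nat_lit 433760), .ofNat (nat_lit 498282), .ofNat (nat_lit 477347), .ofNat (nat_lit 541869)⟩⟩, [⟨nat_lit 0, nat_lit 90, nat_lit 74, nat_lit 100, nat_lit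 36376866⟩, ⟨nat_lit 4, nat_lit 100, nat_lit 81, nat_lit 92, nat_lit 288892801⟩]⟩
noncomputable def p096_l101 : Lf2 := ⟨nat_lit 0, nat_lit 30, [nat_lit 15, nat_lit 5, nat_lit 5, nat_lit 20], false, nat_lit 240, nat_lit 276, nat_lit 0, nat_lit 336, ⟨nat_lit 128, nat_lit 872, nat_lit 0, nat_lit 7, nat_lit 203, nat_lit 872, nat_lit 192, nat_lit 0, nat_lit 0, nat_lit 0, nat_lit 0, nat_lit 0, nat_lit 42754637, nat_lit 12641014, nat_lit 11604349, nat_lit 4875381, false, false⟩,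
 nat_lit 0, nat_lit 0, nat_lit 2190, nat_lit 7196, nat_lit 3332, nat_lit 1393, nat_lit 0, nat_lit 0, nat_lit 0, nat_lit 100, nat_lit 0, nat_lit 0, nat_lit 0, nat_lit 0, nat_lit 0, nat_lit 218000, nat_lit 0, nat_lit 0, [(nat_lit 23, [(nat_lit 0, nat_lit 872)])],
 ⟨p096_k48, nat_lit 0, nat_lit 0, nat_lit 0, nat_lit 0, nat_lit 0, [nat_lit 1634368001, nat_lit 2832457600, nat_lit 3991228800], [], [nat_lit 20137487027, nat_lit 21568495704, nat_lit 20702497105, nat_lit 22028498225, nat_lit 21891096171, nat_lit 23251666877, nat_lit 22346082952, nat_lit 23636306170], nat_lit 0, nat_lit 0, nat_lit 0, nat_lit 0, nat_lit 0, nat_lit 0, [], [nat_lit 61, nat_lit 40, nat_lit 40, nat_lit 80]⟩, ⟨p096_k41, nat_lit 0, nat_lit 0, nat_lit 581, nat_lit 0, nat_lit 476479, [nat_lit 420096000, nat_lit 1019904000, nat_lit 1799424000], [], [nat_lit 4504557838, nat_lit 4339925733, nat_lit 4031306152, nat_lit 4250753718, nat_lit 3615144607, nat_lit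 3729214045, nat_lit 4199967907, nat_lit 3593356531], nat_lit 1271250, nat_lit 1271250, nat_lit 810650, nat_lit 1100001, nat_lit 0, nat_lit 2373000, [nat_lit 780000, nat_lit 1762500, nat_lit 1271250], [nat_lit 84, nat_lit 40, nat_lit 40, nat_lit 80, nat_lit 28, nat_lit 428, nat_lit 200, nat_lit 10]⟩,
 ⟨nat_lit 3162, nat_lit 3873, ⟨.ofNat (nat_lit 464406), .ofNat (nat_lit 522504), .ofNat (nat_lit 486170), .ofNat (nat_lit 544269), .ofNat (nat_lit 472632), .ofNat (nat_lit 527519), .ofNat (nat_lit 494758), .ofNat (nat_lit 549645)⟩, ⟨.ofNat (nat_lit 433760), .ofNat (nat_lit 491830), .ofNat (nat_lit 477347), .ofNat (nat_lit 535416), .ofNat (nat_lit 428022), .ofNat (nat_lit 482881), .ofNat (nat_lit 472332), .ofNat (nat_lit 527190)⟩⟩, [⟨nat_lit 0, nat_lit 92, nat_lit 68, nat_lit 100, nat_lit 160460007⟩, ⟨nat_lit 4, nat_lit 100, nat_lit 67, nat_lit 88, nat_lit 427496611⟩, ⟨nat_lit 7, nat_lit 94, nat_lit 100, nat_lit 97, nat_lit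 14853211⟩]⟩
noncomputable def p096_l102 : Lf2 := ⟨nat_lit 0, nat_lit 30, [nat_lit 15, nat_lit 5, nat_lit 5, nat_lit 20], false, nat_lit 240, nat_lit 280, nat_lit 0, nat_lit 336, ⟨nat_lit 1000, nat_lit 0, nat_lit 0, nat_lit 0, nat_lit 0, nat_lit 0, nat_lit 0, nat_lit 0, nat_lit 0, nat_lit 0, nat_lit 0, nat_lit 0, nat_lit 0, nat_lit 0, nat_lit 0, nat_lit 0, false, false⟩,
 nat_lit 0, nat_lit 0, nat_lit 12078, nat_lit 6300, nat_lit 3852, nat_lit 7685, nat_lit 0, nat_lit 0, nat_lit 0, nat_lit 468, nat_lit 0, nat_lit 0, nat_lit 0, nat_lit 0, nat_lit 0, nat_lit 0, nat_lit 0, nat_lit 0, [],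
 ⟨p096_k54, nat_lit 0, nat_lit 0, nat_lit 0, nat_lit 0, nat_lit 0, [nat_lit 2032000001, nat_lit 4688000000, nat_lit 11872000000], [], [nat_lit 19434054225, nat_lit 20857638545, nat_lit 21874868177, nat_lit 23109144353, nat_lit 21479592321, nat_lit 22830168696, nat_lit 23650889624, nat_lit 24843464116], nat_lit 0, nat_lit 0, nat_lit 0, nat_lit 0, nat_lit 0, nat_lit 0, [], [nat_lit 75, nat_lit 40, nat_lit 40, nat_lit 80]⟩, ⟨p096_k50, nat_lit 0, nat_lit 0, nat_lit 409, nat_lit 0, nat_lit 215124, [nat_lit 3282000000, nat_lit 6250000000, nat_lit 14058000000], [], [nat_lit 35218193800, nat_lit 36307653200, nat_lit 36602786900, nat_lit 37770043710, nat_lit 34008877616, nat_lit 34738243923, nat_lit 40309397248, nat_lit 36976234456], nat_lit 1271250, nat_lit 1271250, nat_lit 1100001, nat_lit 1785000, nat_lit 0, nat_lit 2373000, [nat_lit 780000, nat_lit 1435000, nat_lit 1271250], [nat_lit 71, nat_lit 40, nat_lit 40, nat_lit 80,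 nat_lit 68, nat_lit 456, nat_lit 225, nat_lit 10]⟩,
 zbF0, [⟨nat_lit 4, nat_lit 100, nat_lit 81, nat_lit 92, nat_lit 645297802⟩, ⟨nat_lit 7, nat_lit 94, nat_lit 100, nat_lit 97, nat_lit 171183148⟩]⟩
noncomputable def p096_l103 : Lf2 := ⟨nat_lit 0, nat_lit 30, [nat_lit 15, nat_lit 5, nat_lit 5, nat_lit 20], true, nat_lit 240, nat_lit 276, nat_lit 0, nat_lit 336, ⟨nat_lit 0, nat_lit 1000, nat_lit 0, nat_lit 7, nat_lit 237, nat_lit 1000, nat_lit 192, nat_lit 0, nat_lit 0, nat_lit 0, nat_lit 0, nat_lit 0, nat_lit 40216504, nat_lit 15614840, nat_lit 11168656, nat_lit 5093108, false, false⟩,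
 nat_lit 0, nat_lit 0, nat_lit 0, nat_lit 7463, nat_lit 3172, nat_lit 0, nat_lit 0, nat_lit 0, nat_lit 0, nat_lit 0, nat_lit 0, nat_lit 0, nat_lit 0, nat_lit 0, nat_lit 0, nat_lit 250000, nat_lit 0, nat_lit 0, [(nat_lit 23, [(nat_lit 0, nat_lit 1000)])],
 ⟨p096_k56, nat_lit 0, nat_lit 0, nat_lit 0, nat_lit 0, nat_lit 0, [nat_lit 1576000001, nat_lit 1970800000, nat_lit 3132400000], [], [nat_lit 20718741585, nat_lit 22014717105, nat_lit 22938148673, nat_lit 24069277009, nat_lit 22335237000, nat_lit 23536252224, nat_lit 24350002693, nat_lit 25401584752], nat_lit 0, nat_lit 0, nat_lit 0, nat_lit 0, nat_lit 0, nat_lit 0, [], [nat_lit 27, nat_lit 40, nat_lit 40, nat_lit 80]⟩, C1.Rw.none,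
 ⟨nat_lit 3162, nat_lit 3873, ⟨.ofNat (nat_lit 522504), .ofNat (nat_lit 651611), .ofNat (nat_lit 533387), .ofNat (nat_lit 662494), .ofNat (nat_lit 527519), .ofNat (nat_lit 649490), .ofNat (nat_lit 538582), .ofNat (nat_lit 660553)⟩, ⟨.ofNat (nat_lit 433760), .ofNat (nat_lit 491830), .ofNat (nat_lit 477347), .ofNat (nat_lit 535416), .ofNat (nat_lit 428022), .ofNat (nat_lit 482881), .ofNat (nat_lit 472332), .ofNat (nat_lit 527190)⟩⟩, [⟨nat_lit 4, nat_lit 100, nat_lit 67, nat_lit 88, nat_lit 329010818⟩]⟩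
noncomputable def p096_l104 : Lf2 := ⟨nat_lit 0, nat_lit 30, [nat_lit 15, nat_lit 5, nat_lit 5, nat_lit 20], false, nat_lit 240, nat_lit 276, nat_lit 0, nat_lit 328, ⟨nat_lit 356, nat_lit 644, nat_lit 0, nat_lit 7, nat_lit 242, nat_lit 644, nat_lit 192, nat_lit 0, nat_lit 0, nat_lit 0, nat_lit 0, nat_lit 0, nat_lit 39892369, nat_lit 15998588, nat_lit 11109043, nat_lit 5115975, false, false⟩,
 nat_lit 0, nat_lit 0, nat_lit 3881, nat_lit 5847, nat_lit 3454, nat_lit 2577, nat_lit 0, nat_lit 0, nat_lit 0, nat_lit 211, nat_lit 0, nat_lit 0, nat_lit 0, nat_lit 0, nat_lit 0, nat_lit 161000, nat_lit 0, nat_lit 0, [(nat_lit 23, [(nat_lit 0, nat_lit 644)])],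
 ⟨p096_k56, nat_lit 0, nat_lit 0, nat_lit 0, nat_lit 0, nat_lit 0, [nat_lit 1738336001, nat_lit 2938123200, nat_lit 5521017600], [], [nat_lit 20749573089, nat_lit 22098528440, nat_lit 22982291705, nat_lit 24181148064, nat_lit 22413815390, nat_lit 23725643452, nat_lit 24450846125, nat_lit 25597264901], nat_lit 0, nat_lit 0, nat_lit 0, nat_lit 0, nat_lit 0, nat_lit 0, [], [nat_lit 27, nat_lit 40, nat_lit 40, nat_lit 80]⟩, ⟨p096_k58, nat_lit 0, nat_lit 0, nat_lit 553, nat_lit 0, nat_lit 447626, [nat_lit 1168392000, nat_lit 2225000000, nat_lit 5004648000], [], [nat_lit 12211818416, nat_lit 12357778737, nat_lit 12502265026, nat_lit 12624681673, nat_lit 11476789621, nat_lit 11560873881, nat_lit 13462946221, nat_lit 12902728841], nat_lit 1271250, nat_lit 1271250, nat_lit 1100001, nat_lit 1785000, nat_lit 0, nat_lit 2316500, [nat_lit 780000, nat_lit 1435000, nat_lit 1271250], [nat_lit 71, nat_lit 40, nat_lit 40, nat_lit 80,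 nat_lit 68, nat_lit 456, nat_lit 225, nat_lit 10]⟩,
 ⟨nat_lit 3162, nat_lit 3873, ⟨.ofNat (nat_lit 533387), .ofNat (nat_lit 662494), .ofNat (nat_lit 544269), .ofNat (nat_lit 673376), .ofNat (nat_lit 538582), .ofNat (nat_lit 660553), .ofNat (nat_lit 549645), .ofNat (nat_lit 671616)⟩, ⟨.ofNat (nat_lit 433760), .ofNat (nat_lit 491830), .ofNat (nat_lit 477347), .ofNat (nat_lit 535416), .ofNat (nat_lit 428022), .ofNat (nat_lit 482881), .ofNat (nat_lit 472332), .ofNat (nat_lit 527190)⟩⟩, [⟨nat_lit 4, nat_lit 100, nat_lit 67, nat_lit 88, nat_lit 530662106⟩, ⟨nat_lit 19, nat_lit 100, nat_lit 97, nat_lit 98, nat_lit 55706872⟩]⟩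
noncomputable def p096_l105 : Lf2 := ⟨nat_lit 0, nat_lit 30, [nat_lit 15, nat_lit 5, nat_lit 5, nat_lit 20], true, nat_lit 280, nat_lit 300, nat_lit 0, nat_lit 336, ⟨nat_lit 0, nat_lit 1000, nat_lit 0, nat_lit 7, nat_lit 226, nat_lit 1000, nat_lit 214, nat_lit 0, nat_lit 0, nat_lit 0, nat_lit 0, nat_lit 0, nat_lit 39586107, nat_lit 14304194, nat_lit 13109699, nat_lit 5182378, false, false⟩,
 nat_lit 0, nat_lit 0, nat_lit 0, nat_lit 100000, nat_lit 5611, nat_lit 0, nat_lit 0, nat_lit 0, nat_lit 0, nat_lit 0, nat_lit 0, nat_lit 0, nat_lit 0, nat_lit 0, nat_lit 0, nat_lit 250000, nat_lit 0, nat_lit 0, [(nat_lit 20, [(nat_lit 0, nat_lit 1000)]), (nat_lit 23, [(nat_lit 0, nat_lit 1000)])],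
 ⟨p096_k40, nat_lit 0, nat_lit 0, nat_lit 0, nat_lit 0, nat_lit 0, [nat_lit 1576000001, nat_lit 2718000000, nat_lit 3583920000], [], [nat_lit 21967908256, nat_lit 25433449486, nat_lit 24396638782, nat_lit 27279834544, nat_lit 23203878859, nat_lit 26591495009, nat_lit 25468962375, nat_lit 28204493328], nat_lit 0, nat_lit 0, nat_lit 0, nat_lit 0, nat_lit 0, nat_lit 0, [], [nat_lit 72, nat_lit 40, nat_lit 40, nat_lit 80]⟩, C1.Rw.none,
 ⟨nat_lit 3162, nat_lit 4473, ⟨.ofNat (nat_lit 449792), .ofNat (nat_lit 653959), .ofNat (nat_lit 471268), .ofNat (nat_lit 675435), .ofNat (nat_lit 466195), .ofNat (nat_lit 649288), .ofNat (nat_lit 488260), .ofNat (nat_lit 671352)⟩, ⟨.ofNat (nat_lit 506556), .ofNat (nat_lit 540545), .ofNat (nat_lit 549689), .ofNat (nat_lit 583678), .ofNat (nat_lit 488976), .ofNat (nat_lit 519453), .ofNat (nat_lit 533286), .ofNat (nat_lit 563762)⟩⟩, [⟨nat_lit 4, nat_lit 100, nat_lit 74, nat_lit 90, nat_lit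 4657757215⟩]⟩
noncomputable def p096_l106 : Lf2 := ⟨nat_lit 0, nat_lit 30, [nat_lit 15, nat_lit 5, nat_lit 5, nat_lit 20], false, nat_lit 240, nat_lit 300, nat_lit 0, nat_lit 320, ⟨nat_lit 1000, nat_lit 0, nat_lit 0, nat_lit 0, nat_lit 0, nat_lit 0, nat_lit 0, nat_lit 0, nat_lit 0, nat_lit 0, nat_lit 0, nat_lit 0, nat_lit 0, nat_lit 0, nat_lit 0, nat_lit 0, false, false⟩,
 nat_lit 0, nat_lit 0, nat_lit 10549, nat_lit 3937, nat_lit 3771, nat_lit 7302, nat_lit 0, nat_lit 0, nat_lit 0, nat_lit 306, nat_lit 0, nat_lit 0, nat_lit 0, nat_lit 0, nat_lit 0, nat_lit 0, nat_lit 0, nat_lit 0, [],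
 ⟨p096_k54, nat_lit 0, nat_lit 0, nat_lit 0, nat_lit 0, nat_lit 0, [nat_lit 2032000001, nat_lit 4688000000, nat_lit 11872000000], [], [nat_lit 18817189405, nat_lit 20308770485, nat_lit 21921103949, nat_lit 23143093397, nat_lit 22034305804, nat_lit 23402513974, nat_lit 24550549079, nat_lit 25658968692], nat_lit 0, nat_lit 0, nat_lit 0, nat_lit 0, nat_lit 0, nat_lit 0, [], [nat_lit 75, nat_lit 40, nat_lit 40, nat_lit 80]⟩, ⟨p096_k55, nat_lit 0, nat_lit 0, nat_lit 412, nat_lit 0, nat_lit 351193, [nat_lit 3282000000, nat_lit 6250000000, nat_lit 11872000000], [], [nat_lit 36215890554, nat_lit 34724997448, nat_lit 34942963116, nat_lit 36041708226, nat_lit 32847081192, nat_lit 33577370000, nat_lit 36146435168, nat_lit 33719003354], nat_lit 1271250, nat_lit 1271250, nat_lit 780000, nat_lit 1762500, nat_lit 0, nat_lit 2260000, [nat_lit 780000, nat_lit 1435000, nat_lit 1271250], [nat_lit 23, nat_lit 40, nat_lit 40, nat_lit 80,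 nat_lit 12, nat_lit 456, nat_lit 225, nat_lit 12]⟩,
 zbF0, [⟨nat_lit 0, nat_lit 87, nat_lit 79, nat_lit 100, nat_lit 348029400⟩, ⟨nat_lit 4, nat_lit 100, nat_lit 81, nat_lit 92, nat_lit 666887622⟩, ⟨nat_lit 7, nat_lit 100, nat_lit 93, nat_lit 97, nat_lit 147220201⟩]⟩
noncomputable def p096_l107 : Lf2 := ⟨nat_lit 0, nat_lit 30, [nat_lit 15, nat_lit 5, nat_lit 5, nat_lit 20], false, nat_lit 240, nat_lit 276, nat_lit 0, nat_lit 320, ⟨nat_lit 1000, nat_lit 0, nat_lit 0, nat_lit 0, nat_lit 0, nat_lit 0, nat_lit 0, nat_lit 0, nat_lit 0, nat_lit 0, nat_lit 0, nat_lit 0, nat_lit 0, nat_lit 0, nat_lit 0, nat_lit 0, false, false⟩,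
 nat_lit 0, nat_lit 0, nat_lit 11178, nat_lit 0, nat_lit 3775, nat_lit 7738, nat_lit 0, nat_lit 0, nat_lit 0, nat_lit 151, nat_lit 0, nat_lit 0, nat_lit 0, nat_lit 0, nat_lit 0, nat_lit 0, nat_lit 0, nat_lit 0, [],
 ⟨p096_k56, nat_lit 0, nat_lit 0, nat_lit 0, nat_lit 0, nat_lit 0, [nat_lit 2032000001, nat_lit 4688000000, nat_lit 9842000000], [], [nat_lit 20659039522, nat_lit 22101478221, nat_lit 23141416901, nat_lit 24367076400, nat_lit 22416214776, nat_lit 23814949106, nat_lit 24629522442, nat_lit 25820140081], nat_lit 0, nat_lit 0, nat_lit 0, nat_lit 0, nat_lit 0, nat_lit 0, [], [nat_lit 27, nat_lit 40, nat_lit 40, nat_lit 80]⟩, ⟨p096_k55, nat_lit 0, nat_lit 0, nat_lit 532, nat_lit 0, nat_lit 568945, [nat_lit 3282000000, nat_lit 6250000000, nat_lit 11872000000], [], [nat_lit 36273745249, nat_lit 37272676627, nat_lit 37246355997, nat_lit 38059818465, nat_lit 34331430825, nat_lit 34870201398, nat_lit 36854543942, nat_lit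 35167405351], nat_lit 1271250, nat_lit 1271250, nat_lit 968401, nat_lit 1776000, nat_lit 0, nat_lit 2260000, [nat_lit 780000, nat_lit 1435000, nat_lit 1271250], [nat_lit 23, nat_lit 40, nat_lit 40, nat_lit 80, nat_lit 12, nat_lit 456, nat_lit 225, nat_lit 12]⟩,
 zbF0, [⟨nat_lit 0, nat_lit 84, nat_lit 67, nat_lit 100, nat_lit 417029435⟩, ⟨nat_lit 4, nat_lit 100, nat_lit 67, nat_lit 88, nat_lit 1106124615⟩, ⟨nat_lit 19, nat_lit 93, nat_lit 100, nat_lit 97, nat_lit 164010271⟩]⟩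
noncomputable def p096_l108 : Lf2 := ⟨nat_lit 2, nat_lit 30, [nat_lit 15, nat_lit 5, nat_lit 5, nat_lit 20], true, nat_lit 240, nat_lit 300, nat_lit 0, nat_lit 336, zbN0,
 nat_lit 0, nat_lit 0, nat_lit 0, nat_lit 0, nat_lit 0, nat_lit 0, nat_lit 0, nat_lit 0, nat_lit 0, nat_lit 0, nat_lit 0, nat_lit 0, nat_lit 0, nat_lit 0, nat_lit 0, nat_lit 0, nat_lit 0, nat_lit 0, [],
 ⟨p096_k54, nat_lit 0, nat_lit 0, nat_lit 64, nat_lit 0, nat_lit 0, [], [], [], nat_lit 0, nat_lit 0, nat_lit 0, nat_lit 0, nat_lit 0, nat_lit 0, [], [nat_lit 75, nat_lit 40, nat_lit 40, nat_lit 80, nat_lit 65, nat_lit 373, nat_lit 150, nat_lit 9]⟩, C1.Rw.none,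
 zbF0, []⟩
noncomputable def b_V_800_700_20_45 : St := ⟨true, nat_lit 0, nat_lit 1, nat_lit 1, nat_lit 120, nat_lit 320, nat_lit 360, nat_lit 280, nat_lit 320, nat_lit 100, nat_lit 240, nat_lit 80, nat_lit 120, nat_lit 160, nat_lit 300, nat_lit 0, nat_lit 336, nat_lit 80, nat_lit 120, nat_lit 0, nat_lit 0, nat_lit 0, nat_lit 0⟩
theorem d_V_800_700_20_45 (h : EB TB.env) : Dead b_V_800_700_20_45 := chkB_sound0 h (T :=
(.spl (nat_lit 2) (nat_lit 120)
(.spl (nat_lit 0) (nat_lit 340)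
(.leaf p096_l94)
(.emL (nat_lit 0) (nat_lit 99) (nat_lit 77) (nat_lit 100)))
(.spl (nat_lit 4) (nat_lit 240)
(.spl (nat_lit 1) (nat_lit 300)
(.spl (nat_lit 2) (nat_lit 160)
(.leaf p096_l95)
(.spl (nat_lit 1) (nat_lit 290)
(.leaf p096_l96)
(.trX (nat_lit 19) (nat_lit 97) (nat_lit 84) (nat_lit 100) (nat_lit 328) (.leaf p096_l97))))
(.trX (nat_lit 19) (nat_lit 94) (nat_lit 88) (nat_lit 100) (nat_lit 320) (.spl (nat_lit 0) (nat_lit 340)
(.leaf p096_l98)
(.trZ (nat_lit 0) (nat_lit 90) (nat_lit 74) (nat_lit 100) (nat_lit 144) (.leaf p096_l99)))))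
(.spl (nat_lit 7) (nat_lit 600)
(.spl (nat_lit 1) (nat_lit 300)
(.spl (nat_lit 4) (nat_lit 280)
(.spl (nat_lit 2) (nat_lit 160)
(.spl (nat_lit 0) (nat_lit 340)
(.leaf p096_l100)
(.trZ (nat_lit 0) (nat_lit 99) (nat_lit 77) (nat_lit 100) (nat_lit 124) (.trX (nat_lit 16) (nat_lit 77) (nat_lit 100) (nat_lit 99) (nat_lit 276) (.leaf p096_l101))))
(.spl (nat_lit 0) (nat_lit 340)
(.leaf p096_l102)
(.trX (nat_lit 16) (nat_lit 77) (nat_lit 100) (nat_lit 99) (nat_lit 276) (.spl (nat_lit 1) (nat_lit 290)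
(.leaf p096_l103)
(.trX (nat_lit 19) (nat_lit 97) (nat_lit 84) (nat_lit 100) (nat_lit 328) (.leaf p096_l104))))))
(.leaf p096_l105))
(.trX (nat_lit 19) (nat_lit 94) (nat_lit 88) (nat_lit 100) (nat_lit 320) (.spl (nat_lit 0) (nat_lit 340)
(.leaf p096_l106)
(.trZ (nat_lit 0) (nat_lit 90) (nat_lit 74) (nat_lit 100) (nat_lit 144) (.trX (nat_lit 16) (nat_lit 77) (nat_lit 100) (nat_lit 99) (nat_lit 276) (.leaf p096_l107))))))
(.leaf p096_l108))))) (by decide +kernel)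
noncomputable def p096_l109 : Lf2 := ⟨nat_lit 0, nat_lit 30, [nat_lit 15, nat_lit 5, nat_lit 5, nat_lit 20], false, nat_lit 0, nat_lit 160, nat_lit 0, nat_lit 336, ⟨nat_lit 1000, nat_lit 0, nat_lit 0, nat_lit 0, nat_lit 0, nat_lit 0, nat_lit 0, nat_lit 0, nat_lit 0, nat_lit 0, nat_lit 0, nat_lit 0, nat_lit 0, nat_lit 0, nat_lit 0, nat_lit 0, false, false⟩,
 nat_lit 0, nat_lit 0, nat_lit 13283, nat_lit 0, nat_lit 6192, nat_lit 8452, nat_lit 642, nat_lit 0, nat_lit 0, nat_lit 616, nat_lit 0, nat_lit 0, nat_lit 0, nat_lit 0, nat_lit 0, nat_lit 0, nat_lit 0, nat_lit 0, [],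
 ⟨p096_k40, nat_lit 0, nat_lit 0, nat_lit 244, nat_lit 0, nat_lit 0, [nat_lit 2032000001, nat_lit 6250000000, nat_lit 11872000000], [], [nat_lit 31445808746, nat_lit 32529093290, nat_lit 39069375488, nat_lit 39979200960, nat_lit 27372074442, nat_lit 28289775370, nat_lit 34400354944, nat_lit 35178018320], nat_lit 0, nat_lit 0, nat_lit 0, nat_lit 0, nat_lit 0, nat_lit 0, [], [nat_lit 72, nat_lit 40, nat_lit 40, nat_lit 80, nat_lit 12, nat_lit 373, nat_lit 150, nat_lit 9]⟩, ⟨p096_k41, nat_lit 0, nat_lit 0, nat_lit 401, nat_lit 0, nat_lit 215124, [nat_lit 3282000000, nat_lit 7968000000, nat_lit 14058000000], [], [nat_lit 35197183952, nat_lit 36057930608, nat_lit 43219206320, nat_lit 43869092928, nat_lit 31106325661, nat_lit 31514552335, nat_lit 37145794391, nat_lit 37871947626], nat_lit 1271250, nat_lit 1271250, nat_lit 1271250, nat_lit 1271250, nat_lit 0, nat_lit 2373000, [nat_lit 780000, nat_lit 1762500, nat_lit 1271250],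 [nat_lit 84, nat_lit 40, nat_lit 40, nat_lit 80, nat_lit 28, nat_lit 538, nat_lit 300, nat_lit 12]⟩,
 zbF0, [⟨nat_lit 7, nat_lit 94, nat_lit 100, nat_lit 97, nat_lit 103247349⟩]⟩
noncomputable def p096_l110 : Lf2 := ⟨nat_lit 0, nat_lit 30, [nat_lit 15, nat_lit 5, nat_lit 5, nat_lit 20], false, nat_lit 0, nat_lit 160, nat_lit 0, nat_lit 160, ⟨nat_lit 1000, nat_lit 0, nat_lit 0, nat_lit 0, nat_lit 0, nat_lit 0, nat_lit 0, nat_lit 0, nat_lit 0, nat_lit 0, nat_lit 0, nat_lit 0, nat_lit 0, nat_lit 0, nat_lit 0, nat_lit 0, false, false⟩,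
 nat_lit 0, nat_lit 0, nat_lit 10818, nat_lit 0, nat_lit 4584, nat_lit 6884, nat_lit 803, nat_lit 0, nat_lit 0, nat_lit 941, nat_lit 0, nat_lit 0, nat_lit 0, nat_lit 0, nat_lit 0, nat_lit 0, nat_lit 0, nat_lit 0, [],
 ⟨p096_k56, nat_lit 0, nat_lit 0, nat_lit 214, nat_lit 0, nat_lit 0, [nat_lit 2032000001, nat_lit 4688000000, nat_lit 9842000000], [], [nat_lit 25416255131, nat_lit 26713663835, nat_lit 34971999197, nat_lit 36179732880, nat_lit 23379323079, nat_lit 24271755767, nat_lit 30428005052, nat_lit 31493028727], nat_lit 0, nat_lit 0, nat_lit 0, nat_lit 0, nat_lit 0, nat_lit 0, [], [nat_lit 27, nat_lit 40, nat_lit 40, nat_lit 80, nat_lit 13, nat_lit 373, nat_lit 150, nat_lit 10]⟩, ⟨p096_k50, nat_lit 0, nat_lit 0, nat_lit 542, nat_lit 0, nat_lit 476479, [nat_lit 3282000000, nat_lit 6250000000, nat_lit 14058000000], [], [nat_lit 32468549030, nat_lit 33145436446, nat_lit 38197390925, nat_lit 38830170179, nat_lit 28022424518,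 nat_lit 28584593814, nat_lit 33538628892, nat_lit 34075782564], nat_lit 1271250, nat_lit 1271250, nat_lit 1271250, nat_lit 1271250, nat_lit 0, nat_lit 1100001, [nat_lit 780000, nat_lit 1435000, nat_lit 1271250], [nat_lit 71, nat_lit 40, nat_lit 40, nat_lit 80, nat_lit 68, nat_lit 456, nat_lit 225, nat_lit 10]⟩,
 zbF0, []⟩
noncomputable def p096_l111 : Lf2 := ⟨nat_lit 0, nat_lit 30, [nat_lit 15, nat_lit 5, nat_lit 5, nat_lit 20], false, nat_lit 0, nat_lit 160, nat_lit 160, nat_lit 336, ⟨nat_lit 1000, nat_lit 0, nat_lit 0, nat_lit 0, nat_lit 0, nat_lit 0, nat_lit 0, nat_lit 0, nat_lit 0, nat_lit 0, nat_lit 0, nat_lit 0, nat_lit 0, nat_lit 0, nat_lit 0, nat_lit 0, false, false⟩,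
 nat_lit 0, nat_lit 0, nat_lit 11550, nat_lit 1191, nat_lit 5908, nat_lit 7349, nat_lit 409, nat_lit 0, nat_lit 0, nat_lit 836, nat_lit 0, nat_lit 0, nat_lit 0, nat_lit 0, nat_lit 0, nat_lit 0, nat_lit 0, nat_lit 0, [],
 ⟨p096_k56, nat_lit 0, nat_lit 0, nat_lit 213, nat_lit 0, nat_lit 0, [nat_lit 2032000001, nat_lit 4688000000, nat_lit 9842000000], [], [nat_lit 30812512297, nat_lit 31555092221, nat_lit 38999620452, nat_lit 39470443225, nat_lit 26642352890, nat_lit 27174636222, nat_lit 33577068987, nat_lit 33985273361], nat_lit 0, nat_lit 0, nat_lit 0, nat_lit 0, nat_lit 0, nat_lit 0, [], [nat_lit 27, nat_lit 40, nat_lit 40, nat_lit 80, nat_lit 13, nat_lit 373, nat_lit 150, nat_lit 10]⟩, ⟨p096_k50, nat_lit 0, nat_lit 0, nat_lit 276, nat_lit 0, nat_lit 342605, [nat_lit 3282000000, nat_lit 6250000000, nat_lit 14058000000], [], [nat_lit 26574648992, nat_lit 27325058274, nat_lit 32637335977, nat_lit 33191892514, nat_lit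 29796981097, nat_lit 30393148574, nat_lit 35551867098, nat_lit 36263002529], nat_lit 1271250, nat_lit 1271250, nat_lit 1271250, nat_lit 1271250, nat_lit 1100001, nat_lit 2607000, [nat_lit 780000, nat_lit 1435000, nat_lit 1271250], [nat_lit 71, nat_lit 40, nat_lit 40, nat_lit 80, nat_lit 68, nat_lit 538, nat_lit 300, nat_lit 12]⟩,
 zbF0, [⟨nat_lit 7, nat_lit 94, nat_lit 100, nat_lit 97, nat_lit 317719024⟩, ⟨nat_lit 22, nat_lit 84, nat_lit 100, nat_lit 84, nat_lit 10494579⟩]⟩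
noncomputable def p096_l112 : Lf2 := ⟨nat_lit 0, nat_lit 30, [nat_lit 15, nat_lit 5, nat_lit 5, nat_lit 20], false, nat_lit 4, nat_lit 160, nat_lit 160, nat_lit 336, ⟨nat_lit 1000, nat_lit 0, nat_lit 0, nat_lit 0, nat_lit 0, nat_lit 0, nat_lit 0, nat_lit 0, nat_lit 0, nat_lit 0, nat_lit 0, nat_lit 0, nat_lit 0, nat_lit 0, nat_lit 0, nat_lit 0, false, false⟩,
 nat_lit 0, nat_lit 0, nat_lit 11027, nat_lit 0, nat_lit 4681, nat_lit 7016, nat_lit 725, nat_lit 0, nat_lit 0, nat_lit 865, nat_lit 0, nat_lit 0, nat_lit 0, nat_lit 0, nat_lit 0, nat_lit 0, nat_lit 0, nat_lit 0, [],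
 ⟨p096_k49, nat_lit 0, nat_lit 0, nat_lit 211, nat_lit 0, nat_lit 0, [nat_lit 2032000001, nat_lit 4688000000, nat_lit 9842000000], [], [nat_lit 26227933883, nat_lit 26881818548, nat_lit 35352408112, nat_lit 35970571536, nat_lit 23461758241, nat_lit 24022459296, nat_lit 30824415033, nat_lit 31369463776], nat_lit 0, nat_lit 0, nat_lit 0, nat_lit 0, nat_lit 0, nat_lit 0, [], [nat_lit 27, nat_lit 40, nat_lit 40, nat_lit 80, nat_lit 13, nat_lit 373, nat_lit 150, nat_lit 10]⟩, ⟨p096_k50, nat_lit 0, nat_lit 0, nat_lit 386, nat_lit 0, nat_lit 476479, [nat_lit 3282000000, nat_lit 6250000000, nat_lit 14058000000], [], [nat_lit 26768491678, nat_lit 27506573966, nat_lit 32121243922, nat_lit 32639079890, nat_lit 30013862322, nat_lit 30468709899, nat_lit 34885980425, nat_lit 35601461293], nat_lit 1271250, nat_lit 1271250, nat_lit 1271250, nat_lit 1271250, nat_lit 1100001, nat_lit 2607000, [nat_lit 780000, nat_lit 1435000, nat_lit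 1271250], [nat_lit 71, nat_lit 40, nat_lit 40, nat_lit 80, nat_lit 68, nat_lit 538, nat_lit 300, nat_lit 12]⟩,
 zbF0, [⟨nat_lit 7, nat_lit 94, nat_lit 100, nat_lit 97, nat_lit 322215467⟩]⟩
noncomputable def p096_l113 : Lf2 := ⟨nat_lit 0, nat_lit 30, [nat_lit 15, nat_lit 5, nat_lit 5, nat_lit 20], false, nat_lit 0, nat_lit 160, nat_lit 0, nat_lit 320, ⟨nat_lit 1000, nat_lit 0, nat_lit 0, nat_lit 0, nat_lit 0, nat_lit 0, nat_lit 0, nat_lit 0, nat_lit 0, nat_lit 0, nat_lit 0, nat_lit 0, nat_lit 0, nat_lit 0, nat_lit 0, nat_lit 0, false, false⟩,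
 nat_lit 0, nat_lit 0, nat_lit 9637, nat_lit 0, nat_lit 6206, nat_lit 6671, nat_lit 585, nat_lit 0, nat_lit 0, nat_lit 677, nat_lit 0, nat_lit 0, nat_lit 0, nat_lit 0, nat_lit 0, nat_lit 0, nat_lit 0, nat_lit 0, [],
 ⟨p096_k54, nat_lit 0, nat_lit 0, nat_lit 234, nat_lit 0, nat_lit 0, [nat_lit 2032000001, nat_lit 4688000000, nat_lit 11872000000], [], [nat_lit 30969934203, nat_lit 32335476715, nat_lit 39165108747, nat_lit 40017778944, nat_lit 26893436939, nat_lit 27878091011, nat_lit 33253416723, nat_lit 33990011451], nat_lit 0, nat_lit 0, nat_lit 0, nat_lit 0, nat_lit 0, nat_lit 0, [], [nat_lit 75, nat_lit 40, nat_lit 40, nat_lit 80, nat_lit 65, nat_lit 373, nat_lit 150, nat_lit 9]⟩, ⟨p096_k55, nat_lit 0, nat_lit 0, nat_lit 394, nat_lit 0, nat_lit 351193, [nat_lit 3282000000, nat_lit 6250000000, nat_lit 11872000000], [], [nat_lit 31446580449, nat_lit 32214603655, nat_lit 39323810801, nat_lit 40045099077, nat_lit 29582240007,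 nat_lit 30005891483, nat_lit 34922082676, nat_lit 35643370952], nat_lit 1271250, nat_lit 1271250, nat_lit 1271250, nat_lit 1271250, nat_lit 0, nat_lit 2260000, [nat_lit 780000, nat_lit 1435000, nat_lit 1271250], [nat_lit 23, nat_lit 40, nat_lit 40, nat_lit 80, nat_lit 12, nat_lit 538, nat_lit 300, nat_lit 13]⟩,
 zbF0, [⟨nat_lit 19, nat_lit 93, nat_lit 100, nat_lit 97, nat_lit 129412273⟩]⟩
noncomputable def p096_l114 : Lf2 := ⟨nat_lit 0, nat_lit 30, [nat_lit 15, nat_lit 5, nat_lit 5, nat_lit 20], false, nat_lit 0, nat_lit 160, nat_lit 0, nat_lit 320, ⟨nat_lit 1000, nat_lit 0, nat_lit 0, nat_lit 0, nat_lit 0, nat_lit 0, nat_lit 0, nat_lit 0, nat_lit 0, nat_lit 0, nat_lit 0, nat_lit 0, nat_lit 0, nat_lit 0, nat_lit 0, nat_lit 0, false, false⟩,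
 nat_lit 0, nat_lit 0, nat_lit 8787, nat_lit 0, nat_lit 5018, nat_lit 6083, nat_lit 705, nat_lit 0, nat_lit 0, nat_lit 774, nat_lit 0, nat_lit 0, nat_lit 0, nat_lit 0, nat_lit 0, nat_lit 0, nat_lit 0, nat_lit 0, [],
 ⟨p096_k56, nat_lit 0, nat_lit 0, nat_lit 215, nat_lit 0, nat_lit 0, [nat_lit 2032000001, nat_lit 4688000000, nat_lit 9842000000], [], [nat_lit 26814908037, nat_lit 28173860545, nat_lit 36553542432, nat_lit 37794017256, nat_lit 23905469190, nat_lit 24891219234, nat_lit 31292517936, nat_lit 32385430480], nat_lit 0, nat_lit 0, nat_lit 0, nat_lit 0, nat_lit 0, nat_lit 0, [], [nat_lit 27, nat_lit 40, nat_lit 40, nat_lit 80, nat_lit 13, nat_lit 373, nat_lit 150, nat_lit 10]⟩, ⟨p096_k55, nat_lit 0, nat_lit 0, nat_lit 508, nat_lit 0, nat_lit 568945, [nat_lit 3282000000, nat_lit 6250000000, nat_lit 11872000000], [], [nat_lit 31261359234, nat_lit 31855701190, nat_lit 37572480698, nat_lit 38292677748, nat_lit 30000563156,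 nat_lit 30331289142, nat_lit 34241086948, nat_lit 34943702696], nat_lit 1271250, nat_lit 1271250, nat_lit 1271250, nat_lit 1271250, nat_lit 0, nat_lit 2260000, [nat_lit 780000, nat_lit 1435000, nat_lit 1271250], [nat_lit 23, nat_lit 40, nat_lit 40, nat_lit 80, nat_lit 12, nat_lit 538, nat_lit 300, nat_lit 13]⟩,
 zbF0, [⟨nat_lit 19, nat_lit 93, nat_lit 100, nat_lit 97, nat_lit 147623402⟩]⟩
noncomputable def p096_l115 : Lf2 := ⟨nat_lit 0, nat_lit 30, [nat_lit 15, nat_lit 5, nat_lit 5, nat_lit 20], false, nat_lit 160, nat_lit 300, nat_lit 0, nat_lit 160, ⟨nat_lit 1000, nat_lit 0, nat_lit 0, nat_lit 0, nat_lit 0, nat_lit 0, nat_lit 0, nat_lit 0, nat_lit 0, nat_lit 0, nat_lit 0, nat_lit 0, nat_lit 0, nat_lit 0, nat_lit 0, nat_lit 0, false, false⟩,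
 nat_lit 0, nat_lit 0, nat_lit 11016, nat_lit 0, nat_lit 6114, nat_lit 7009, nat_lit 688, nat_lit 0, nat_lit 0, nat_lit 911, nat_lit 0, nat_lit 0, nat_lit 0, nat_lit 0, nat_lit 0, nat_lit 0, nat_lit 0, nat_lit 0, [],
 ⟨p096_k54, nat_lit 0, nat_lit 0, nat_lit 132, nat_lit 0, nat_lit 0, [nat_lit 2032000001, nat_lit 4688000000, nat_lit 11872000000], [], [nat_lit 24898811232, nat_lit 27207708808, nat_lit 31893802712, nat_lit 33983793040, nat_lit 28010195838, nat_lit 29729408332, nat_lit 34359463852, nat_lit 36141394542], nat_lit 0, nat_lit 0, nat_lit 0, nat_lit 0, nat_lit 0, nat_lit 0, [], [nat_lit 75, nat_lit 40, nat_lit 40, nat_lit 80, nat_lit 65, nat_lit 401, nat_lit 175, nat_lit 9]⟩, ⟨p096_k50, nat_lit 0, nat_lit 0, nat_lit 542, nat_lit 0, nat_lit 476479, [nat_lit 3282000000, nat_lit 6250000000, nat_lit 14058000000], [], [nat_lit 32629226530, nat_lit 33309935696, nat_lit 38994427190, nat_lit 39621086674, nat_lit 28058331018,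 nat_lit 28622830814, nat_lit 33414766652, nat_lit 33944747658], nat_lit 1271250, nat_lit 1271250, nat_lit 1271250, nat_lit 1271250, nat_lit 0, nat_lit 1100001, [nat_lit 780000, nat_lit 1435000, nat_lit 1271250], [nat_lit 71, nat_lit 40, nat_lit 40, nat_lit 80, nat_lit 68, nat_lit 456, nat_lit 225, nat_lit 10]⟩,
 zbF0, [⟨nat_lit 4, nat_lit 100, nat_lit 74, nat_lit 90, nat_lit 464990224⟩]⟩
noncomputable def p096_l116 : Lf2 := ⟨nat_lit 0, nat_lit 30, [nat_lit 15, nat_lit 5, nat_lit 5, nat_lit 20], false, nat_lit 160, nat_lit 300, nat_lit 160, nat_lit 336, ⟨nat_lit 1000, nat_lit 0, nat_lit 0, nat_lit 0, nat_lit 0, nat_lit 0, nat_lit 0, nat_lit 0, nat_lit 0, nat_lit 0, nat_lit 0, nat_lit 0, nat_lit 0, nat_lit 0, nat_lit 0, nat_lit 0, false, false⟩,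
 nat_lit 0, nat_lit 0, nat_lit 12509, nat_lit 0, nat_lit 6536, nat_lit 7960, nat_lit 0, nat_lit 0, nat_lit 0, nat_lit 616, nat_lit 0, nat_lit 0, nat_lit 0, nat_lit 0, nat_lit 0, nat_lit 0, nat_lit 0, nat_lit 0, [],
 ⟨p096_k40, nat_lit 0, nat_lit 0, nat_lit 100, nat_lit 0, nat_lit 0, [nat_lit 2032000001, nat_lit 6250000000, nat_lit 11872000000], [], [nat_lit 22886381216, nat_lit 26075607168, nat_lit 32601743488, nat_lit 34599519264, nat_lit 27681591544, nat_lit 30032386176, nat_lit 34853295848, nat_lit 36684636408], nat_lit 0, nat_lit 0, nat_lit 0, nat_lit 0, nat_lit 0, nat_lit 0, [], [nat_lit 72, nat_lit 40, nat_lit 40, nat_lit 80, nat_lit 12, nat_lit 401, nat_lit 175, nat_lit 9]⟩, ⟨p096_k41, nat_lit 0, nat_lit 0, nat_lit 363, nat_lit 0, nat_lit 399769, [nat_lit 3282000000, nat_lit 7968000000, nat_lit 14058000000], [], [nat_lit 29294860000, nat_lit 29644573640, nat_lit 34794591200, nat_lit 35087843920, nat_lit 32013529185,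 nat_lit 32217555216, nat_lit 36755424384, nat_lit 36919503424], nat_lit 1271250, nat_lit 1271250, nat_lit 1271250, nat_lit 1271250, nat_lit 1100001, nat_lit 2607000, [nat_lit 780000, nat_lit 1762500, nat_lit 1271250], [nat_lit 84, nat_lit 40, nat_lit 40, nat_lit 80, nat_lit 28, nat_lit 538, nat_lit 300, nat_lit 12]⟩,
 zbF0, [⟨nat_lit 4, nat_lit 100, nat_lit 74, nat_lit 90, nat_lit 541950665⟩, ⟨nat_lit 7, nat_lit 91, nat_lit 100, nat_lit 96, nat_lit 292119630⟩]⟩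
noncomputable def p096_l117 : Lf2 := ⟨nat_lit 0, nat_lit 30, [nat_lit 15, nat_lit 5, nat_lit 5, nat_lit 20], false, nat_lit 160, nat_lit 300, nat_lit 160, nat_lit 328, ⟨nat_lit 1000, nat_lit 0, nat_lit 0, nat_lit 0, nat_lit 0, nat_lit 0, nat_lit 0, nat_lit 0, nat_lit 0, nat_lit 0, nat_lit 0, nat_lit 0, nat_lit 0, nat_lit 0, nat_lit 0, nat_lit 0, false, false⟩,
 nat_lit 0, nat_lit 0, nat_lit 10539, nat_lit 0, nat_lit 6536, nat_lit 6999, nat_lit 0, nat_lit 0, nat_lit 0, nat_lit 634, nat_lit 0, nat_lit 0, nat_lit 0, nat_lit 0, nat_lit 0, nat_lit 0, nat_lit 0, nat_lit 0, [],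
 ⟨p096_k40, nat_lit 0, nat_lit 0, nat_lit 100, nat_lit 0, nat_lit 0, [nat_lit 2032000001, nat_lit 6250000000, nat_lit 11872000000], [], [nat_lit 22886381216, nat_lit 26075607168, nat_lit 32601743488, nat_lit 34599519264, nat_lit 27681591544, nat_lit 30032386176, nat_lit 34853295848, nat_lit 36684636408], nat_lit 0, nat_lit 0, nat_lit 0, nat_lit 0, nat_lit 0, nat_lit 0, [], [nat_lit 72, nat_lit 40, nat_lit 40, nat_lit 80, nat_lit 12, nat_lit 401, nat_lit 175, nat_lit 9]⟩, ⟨p096_k59, nat_lit 0, nat_lit 0, nat_lit 378, nat_lit 0, nat_lit 447626, [nat_lit 3282000000, nat_lit 7968000000, nat_lit 14058000000], [], [nat_lit 29555530691, nat_lit 29891108982, nat_lit 34786103373, nat_lit 35070988666, nat_lit 31996582593, nat_lit 32207597705, nat_lit 36593100170, nat_lit 36767540352], nat_lit 1271250, nat_lit 1271250, nat_lit 1271250, nat_lit 1271250, nat_lit 1100001, nat_lit 2538500, [nat_lit 780000, nat_lit 1762500, nat_lit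 1271250], [nat_lit 84, nat_lit 40, nat_lit 40, nat_lit 80, nat_lit 28, nat_lit 538, nat_lit 300, nat_lit 12]⟩,
 zbF0, [⟨nat_lit 4, nat_lit 100, nat_lit 74, nat_lit 90, nat_lit 541950665⟩, ⟨nat_lit 7, nat_lit 97, nat_lit 100, nat_lit 98, nat_lit 282592893⟩]⟩
noncomputable def p096_l118 : Lf2 := ⟨nat_lit 0, nat_lit 30, [nat_lit 15, nat_lit 5, nat_lit 5, nat_lit 20], false, nat_lit 160, nat_lit 300, nat_lit 0, nat_lit 320, ⟨nat_lit 1000, nat_lit 0, nat_lit 0, nat_lit 0, nat_lit 0, nat_lit 0, nat_lit 0, nat_lit 0, nat_lit 0, nat_lit 0, nat_lit 0, nat_lit 0, nat_lit 0, nat_lit 0, nat_lit 0, nat_lit 0, false, false⟩,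
 nat_lit 0, nat_lit 0, nat_lit 10036, nat_lit 0, nat_lit 7138, nat_lit 6948, nat_lit 0, nat_lit 0, nat_lit 0, nat_lit 602, nat_lit 0, nat_lit 0, nat_lit 0, nat_lit 0, nat_lit 0, nat_lit 0, nat_lit 0, nat_lit 0, [],
 ⟨p096_k40, nat_lit 0, nat_lit 0, nat_lit 100, nat_lit 0, nat_lit 0, [nat_lit 2032000001, nat_lit 6250000000, nat_lit 11872000000], [], [nat_lit 22329384328, nat_lit 25694895144, nat_lit 32872382672, nat_lit 35477153680, nat_lit 27238085502, nat_lit 29701882758, nat_lit 35557767084, nat_lit 37459592814], nat_lit 0, nat_lit 0, nat_lit 0, nat_lit 0, nat_lit 0, nat_lit 0, [], [nat_lit 72, nat_lit 40, nat_lit 40, nat_lit 80, nat_lit 12, nat_lit 401, nat_lit 175, nat_lit 9]⟩, ⟨p096_k57, nat_lit 0, nat_lit 0, nat_lit 482, nat_lit 0, nat_lit 493289, [nat_lit 3282000000, nat_lit 7968000000, nat_lit 11872000000], [], [nat_lit 34831298706, nat_lit 35154565922, nat_lit 39937265154, nat_lit 40173560606, nat_lit 32209265098,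 nat_lit 32431323970, nat_lit 35489136866, nat_lit 35607934232], nat_lit 1271250, nat_lit 1271250, nat_lit 1271250, nat_lit 1271250, nat_lit 0, nat_lit 2260000, [nat_lit 780000, nat_lit 1762500, nat_lit 1271250], [nat_lit 79, nat_lit 40, nat_lit 40, nat_lit 80, nat_lit 14, nat_lit 538, nat_lit 300, nat_lit 13]⟩,
 zbF0, [⟨nat_lit 4, nat_lit 100, nat_lit 74, nat_lit 90, nat_lit 544644416⟩, ⟨nat_lit 19, nat_lit 97, nat_lit 100, nat_lit 98, nat_lit 120049679⟩]⟩
noncomputable def p096_l119 : Lf2 := ⟨nat_lit 0, nat_lit 30, [nat_lit 15, nat_lit 5, nat_lit 5, nat_lit 20], false, nat_lit 160, nat_lit 300, nat_lit 0, nat_lit 312, ⟨nat_lit 1000, nat_lit 0, nat_lit 0, nat_lit 0, nat_lit 0, nat_lit 0, nat_lit 0, nat_lit 0, nat_lit 0, nat_lit 0, nat_lit 0, nat_lit 0, nat_lit 0, nat_lit 0, nat_lit 0, nat_lit 0, false, false⟩,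
 nat_lit 0, nat_lit 0, nat_lit 8564, nat_lit 0, nat_lit 6536, nat_lit 6174, nat_lit 0, nat_lit 0, nat_lit 0, nat_lit 749, nat_lit 0, nat_lit 0, nat_lit 0, nat_lit 0, nat_lit 0, nat_lit 0, nat_lit 0, nat_lit 0, [],
 ⟨p096_k40, nat_lit 0, nat_lit 0, nat_lit 100, nat_lit 0, nat_lit 0, [nat_lit 2032000001, nat_lit 6250000000, nat_lit 11872000000], [], [nat_lit 22886381216, nat_lit 26075607168, nat_lit 32601743488, nat_lit 34599519264, nat_lit 27681591544, nat_lit 30032386176, nat_lit 34853295848, nat_lit 36684636408], nat_lit 0, nat_lit 0, nat_lit 0, nat_lit 0, nat_lit 0, nat_lit 0, [], [nat_lit 72, nat_lit 40, nat_lit 40, nat_lit 80, nat_lit 12, nat_lit 401, nat_lit 175, nat_lit 9]⟩, ⟨p096_k60, nat_lit 0, nat_lit 0, nat_lit 498, nat_lit 0, nat_lit 536739, [nat_lit 3282000000, nat_lit 7968000000, nat_lit 11872000000], [], [nat_lit 31592950018, nat_lit 31981351138, nat_lit 37953929954, nat_lit 38547273544, nat_lit 30273451767,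 nat_lit 30498887925, nat_lit 34441046988, nat_lit 34803061586], nat_lit 1271250, nat_lit 1271250, nat_lit 1271250, nat_lit 1271250, nat_lit 0, nat_lit 2203500, [nat_lit 780000, nat_lit 1762500, nat_lit 1271250], [nat_lit 79, nat_lit 40, nat_lit 40, nat_lit 80, nat_lit 14, nat_lit 538, nat_lit 300, nat_lit 13]⟩,
 zbF0, [⟨nat_lit 4, nat_lit 100, nat_lit 74, nat_lit 90, nat_lit 541950665⟩, ⟨nat_lit 7, nat_lit 100, nat_lit 90, nat_lit 95, nat_lit 144495075⟩]⟩
noncomputable def b_V_800_700_20_46 : St := ⟨true, nat_lit 0, nat_lit 1, nat_lit 1, nat_lit 120, nat_lit 320, nat_lit 360, nat_lit 280, nat_lit 320, nat_lit 240, nat_lit 400, nat_lit 80, nat_lit 120, nat_lit 0, nat_lit 300, nat_lit 0, nat_lit 336, nat_lit 80, nat_lit 120, nat_lit 0, nat_lit 0, nat_lit 0, nat_lit 0⟩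
theorem d_V_800_700_20_46 (h : EB TB.env) : Dead b_V_800_700_20_46 := chkB_sound0 h (T :=
(.spl (nat_lit 4) (nat_lit 160)
(.spl (nat_lit 1) (nat_lit 300)
(.spl (nat_lit 0) (nat_lit 340)
(.leaf p096_l109)
(.trX (nat_lit 13) (nat_lit 82) (nat_lit 29) (nat_lit 100) (nat_lit 396) (.spl (nat_lit 5) (nat_lit 160)
(.leaf p096_l110)
(.spl (nat_lit 0) (nat_lit 350)
(.leaf p096_l111)
(.trX (nat_lit 13) (nat_lit 76) (nat_lit 37) (nat_lit 100) (nat_lit 392) (.trZ (nat_lit 3) (nat_lit 100) (nat_lit 83) (nat_lit 25) (nat_lit 4) (.leaf p096_l112)))))))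
(.trX (nat_lit 19) (nat_lit 94) (nat_lit 88) (nat_lit 100) (nat_lit 320) (.spl (nat_lit 0) (nat_lit 340)
(.leaf p096_l113)
(.leaf p096_l114))))
(.spl (nat_lit 1) (nat_lit 300)
(.spl (nat_lit 5) (nat_lit 160)
(.leaf p096_l115)
(.spl (nat_lit 1) (nat_lit 290)
(.leaf p096_l116)
(.trX (nat_lit 19) (nat_lit 97) (nat_lit 84) (nat_lit 100) (nat_lit 328) (.leaf p096_l117))))
(.trX (nat_lit 19) (nat_lit 94) (nat_lit 88) (nat_lit 100) (nat_lit 320) (.spl (nat_lit 1) (nat_lit 310)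
(.leaf p096_l118)
(.trX (nat_lit 19) (nat_lit 91) (nat_lit 91) (nat_lit 100) (nat_lit 312) (.leaf p096_l119))))))) (by decide +kernel)
noncomputable def p096_l120 : Lf2 := ⟨nat_lit 0, nat_lit 30, [nat_lit 15, nat_lit 5, nat_lit 5, nat_lit 20], true, nat_lit 0, nat_lit 160, nat_lit 0, nat_lit 336, ⟨nat_lit 0, nat_lit 1000, nat_lit 0, nat_lit 7, nat_lit 224, nat_lit 1000, nat_lit 65, nat_lit 0, nat_lit 0, nat_lit 0, nat_lit 0, nat_lit 0, nat_lit 0, nat_lit 0, nat_lit 0, nat_lit 5000000, false, false⟩,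
 nat_lit 0, nat_lit 0, nat_lit 0, nat_lit 8634, nat_lit 4088, nat_lit 0, nat_lit 228, nat_lit 0, nat_lit 0, nat_lit 0, nat_lit 0, nat_lit 0, nat_lit 0, nat_lit 0, nat_lit 0, nat_lit 400000, nat_lit 0, nat_lit 0, [(nat_lit 20, [(nat_lit 1, nat_lit 1000)]), (nat_lit 23, [(nat_lit 1, nat_lit 1000)])],
 ⟨p096_k40, nat_lit 0, nat_lit 0, nat_lit 251, nat_lit 0, nat_lit 0, [nat_lit 1553800001, nat_lit 2055800001, nat_lit 1622800000], [], [nat_lit 22566384517, nat_lit 24793246181, nat_lit 24393670645, nat_lit 26203962018, nat_lit 20954112677, nat_lit 22865011317, nat_lit 22795877731, nat_lit 24654562531], nat_lit 0, nat_lit 0, nat_lit 0, nat_lit 0, nat_lit 0, nat_lit 0, [], [nat_lit 72, nat_lit 40, nat_lit 40, nat_lit 80, nat_lit 12, nat_lit 317, nat_lit 100, nat_lit 8]⟩, C1.Rw.none,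
 ⟨nat_lit 3162, nat_lit 4473, ⟨.ofNat (nat_lit 415764), .ofNat (nat_lit 653959), .ofNat (nat_lit 458716), .ofNat (nat_lit 696911), .ofNat (nat_lit 435680), .ofNat (nat_lit 649288), .ofNat (nat_lit 479808), .ofNat (nat_lit 693416)⟩, ⟨.ofNat (nat_lit 0), .ofNat (nat_lit 302621), .ofNat (nat_lit 0), .ofNat (nat_lit 345754), .ofNat (nat_lit 0), .ofNat (nat_lit 306116), .ofNat (nat_lit 0), .ofNat (nat_lit 350426)⟩⟩, [⟨nat_lit 3, nat_lit 100, nat_lit 65, nat_lit 54, nat_lit 13020715⟩]⟩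
noncomputable def p096_l121 : Lf2 := ⟨nat_lit 0, nat_lit 30, [nat_lit 15, nat_lit 5, nat_lit 5, nat_lit 20], false, nat_lit 0, nat_lit 160, nat_lit 0, nat_lit 336, ⟨nat_lit 1000, nat_lit 0, nat_lit 0, nat_lit 0, nat_lit 0, nat_lit 0, nat_lit 0, nat_lit 0, nat_lit 0, nat_lit 0, nat_lit 0, nat_lit 0, nat_lit 0, nat_lit 0, nat_lit 0, nat_lit 0, false, false⟩,
 nat_lit 0, nat_lit 0, nat_lit 0, nat_lit 11560, nat_lit 7452, nat_lit 8441, nat_lit 396, nat_lit 0, nat_lit 0, nat_lit 552, nat_lit 0, nat_lit 0, nat_lit 0, nat_lit 0, nat_lit 0, nat_lit 0, nat_lit 0, nat_lit 0, [],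
 ⟨p096_k40, nat_lit 0, nat_lit 0, nat_lit 244, nat_lit 0, nat_lit 0, [nat_lit 2032000001, nat_lit 6250000000, nat_lit 11872000000], [], [nat_lit 34130498876, nat_lit 35322120740, nat_lit 42743529724, nat_lit 43656589380, nat_lit 28704139452, nat_lit 29705295220, nat_lit 35170665516, nat_lit 35957334492], nat_lit 0, nat_lit 0, nat_lit 0, nat_lit 0, nat_lit 0, nat_lit 0, [], [nat_lit 72, nat_lit 40, nat_lit 40, nat_lit 80, nat_lit 12, nat_lit 373, nat_lit 150, nat_lit 9]⟩, ⟨p096_k41, nat_lit 0, nat_lit 0, nat_lit 277, nat_lit 0, nat_lit 0, [nat_lit 3282000000, nat_lit 7968000000, nat_lit 14058000000], [], [nat_lit 36163348316, nat_lit 37883906012, nat_lit 44164583060, nat_lit 45463940388, nat_lit 32085808667, nat_lit 32901353296, nat_lit 37132753064, nat_lit 38584475267], nat_lit 0, nat_lit 0, nat_lit 0, nat_lit 0, nat_lit 0, nat_lit 0, [], [nat_lit 84, nat_lit 40, nat_lit 40, nat_lit 80, nat_lit 28, nat_lit 538, nat_lit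 300, nat_lit 12]⟩,
 zbF0, [⟨nat_lit 7, nat_lit 100, nat_lit 100, nat_lit 100, nat_lit 62917742⟩, ⟨nat_lit 22, nat_lit 83, nat_lit 100, nat_lit 83, nat_lit 34983796⟩]⟩
noncomputable def p096_l122 : Lf2 := ⟨nat_lit 0, nat_lit 30, [nat_lit 15, nat_lit 5, nat_lit 5, nat_lit 20], false, nat_lit 0, nat_lit 160, nat_lit 0, nat_lit 336, ⟨nat_lit 1000, nat_lit 0, nat_lit 0, nat_lit 0, nat_lit 0, nat_lit 0, nat_lit 0, nat_lit 0, nat_lit 0, nat_lit 0, nat_lit 0, nat_lit 0, nat_lit 0, nat_lit 0, nat_lit 0, nat_lit 0, false, false⟩,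
 nat_lit 0, nat_lit 0, nat_lit 0, nat_lit 9735, nat_lit 8234, nat_lit 8441, nat_lit 33, nat_lit 0, nat_lit 0, nat_lit 589, nat_lit 0, nat_lit 0, nat_lit 0, nat_lit 0, nat_lit 0, nat_lit 0, nat_lit 0, nat_lit 0, [],
 ⟨p096_k48, nat_lit 0, nat_lit 0, nat_lit 225, nat_lit 0, nat_lit 0, [nat_lit 2032000001, nat_lit 6250000000, nat_lit 9842000000], [], [nat_lit 36514437981, nat_lit 38329438585, nat_lit 46469646645, nat_lit 47552300328, nat_lit 29829775853, nat_lit 31008397969, nat_lit 37922182753, nat_lit 38845629265], nat_lit 0, nat_lit 0, nat_lit 0, nat_lit 0, nat_lit 0, nat_lit 0, [], [nat_lit 61, nat_lit 40, nat_lit 40, nat_lit 80, nat_lit 1, nat_lit 373, nat_lit 150, nat_lit 10]⟩, ⟨p096_k41, nat_lit 0, nat_lit 0, nat_lit 277, nat_lit 0, nat_lit 0, [nat_lit 3282000000, nat_lit 7968000000, nat_lit 14058000000], [], [nat_lit 35608810816, nat_lit 37329368512, nat_lit 43610045560, nat_lit 44909402888, nat_lit 31531271167,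 nat_lit 32346815796, nat_lit 37132753064, nat_lit 38584475267], nat_lit 0, nat_lit 0, nat_lit 0, nat_lit 0, nat_lit 0, nat_lit 0, [], [nat_lit 84, nat_lit 40, nat_lit 40, nat_lit 80, nat_lit 28, nat_lit 538, nat_lit 300, nat_lit 12]⟩,
 zbF0, [⟨nat_lit 19, nat_lit 100, nat_lit 100, nat_lit 100, nat_lit 26991482⟩, ⟨nat_lit 22, nat_lit 83, nat_lit 100, nat_lit 83, nat_lit 99168580⟩]⟩
noncomputable def p096_l123 : Lf2 := ⟨nat_lit 0, nat_lit 30, [nat_lit 15, nat_lit 5, nat_lit 5, nat_lit 20], true, nat_lit 160, nat_lit 300, nat_lit 0, nat_lit 336, ⟨nat_lit 0, nat_lit 1000, nat_lit 0, nat_lit 7, nat_lit 224, nat_lit 1000, nat_lit 176, nat_lit 0, nat_lit 0, nat_lit 0, nat_lit 0, nat_lit 0, nat_lit 0, nat_lit 0, nat_lit 0, nat_lit 5000000, false, false⟩,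
 nat_lit 0, nat_lit 0, nat_lit 0, nat_lit 7589, nat_lit 5098, nat_lit 0, nat_lit 0, nat_lit 0, nat_lit 0, nat_lit 0, nat_lit 0, nat_lit 0, nat_lit 0, nat_lit 0, nat_lit 0, nat_lit 250000, nat_lit 0, nat_lit 0, [(nat_lit 20, [(nat_lit 0, nat_lit 1000)]), (nat_lit 23, [(nat_lit 0, nat_lit 1000)])],
 ⟨p096_k40, nat_lit 0, nat_lit 0, nat_lit 85, nat_lit 0, nat_lit 0, [nat_lit 1576000001, nat_lit 2718000000, nat_lit 3583920000], [], [nat_lit 17536305124, nat_lit 21051234384, nat_lit 20684882088, nat_lit 23453015624, nat_lit 23457925111, nat_lit 26345326300, nat_lit 25208996342, nat_lit 27808945704], nat_lit 0, nat_lit 0, nat_lit 0, nat_lit 0, nat_lit 0, nat_lit 0, [], [nat_lit 72, nat_lit 40, nat_lit 40, nat_lit 80, nat_lit 12, nat_lit 373, nat_lit 150, nat_lit 9]⟩, C1.Rw.none,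
 ⟨nat_lit 3162, nat_lit 4473, ⟨.ofNat (nat_lit 415764), .ofNat (nat_lit 653959), .ofNat (nat_lit 458716), .ofNat (nat_lit 696911), .ofNat (nat_lit 435680), .ofNat (nat_lit 649288), .ofNat (nat_lit 479808), .ofNat (nat_lit 693416)⟩, ⟨.ofNat (nat_lit 302621), .ofNat (nat_lit 540545), .ofNat (nat_lit 345754), .ofNat (nat_lit 583678), .ofNat (nat_lit 306116), .ofNat (nat_lit 519453), .ofNat (nat_lit 350426), .ofNat (nat_lit 563762)⟩⟩, [⟨nat_lit 16, nat_lit 87, nat_lit 95, nat_lit 100, nat_lit 238799466⟩, ⟨nat_lit 4, nat_lit 100, nat_lit 74, nat_lit 90, nat_lit 63137409⟩]⟩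
noncomputable def p096_l124 : Lf2 := ⟨nat_lit 0, nat_lit 30, [nat_lit 15, nat_lit 5, nat_lit 5, nat_lit 20], false, nat_lit 160, nat_lit 300, nat_lit 0, nat_lit 336, ⟨nat_lit 1000, nat_lit 0, nat_lit 0, nat_lit 0, nat_lit 0, nat_lit 0, nat_lit 0, nat_lit 0, nat_lit 0, nat_lit 0, nat_lit 0, nat_lit 0, nat_lit 0, nat_lit 0, nat_lit 0, nat_lit 0, false, false⟩,
 nat_lit 0, nat_lit 0, nat_lit 0, nat_lit 15176, nat_lit 6536, nat_lit 8441, nat_lit 0, nat_lit 0, nat_lit 0, nat_lit 460, nat_lit 0, nat_lit 0, nat_lit 0, nat_lit 0, nat_lit 0, nat_lit 0, nat_lit 0, nat_lit 0, [],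
 ⟨p096_k40, nat_lit 0, nat_lit 0, nat_lit 100, nat_lit 0, nat_lit 0, [nat_lit 2032000001, nat_lit 6250000000, nat_lit 11872000000], [], [nat_lit 22886381216, nat_lit 26075607168, nat_lit 32601743488, nat_lit 34599519264, nat_lit 27681591544, nat_lit 30032386176, nat_lit 34853295848, nat_lit 36684636408], nat_lit 0, nat_lit 0, nat_lit 0, nat_lit 0, nat_lit 0, nat_lit 0, [], [nat_lit 72, nat_lit 40, nat_lit 40, nat_lit 80, nat_lit 12, nat_lit 401, nat_lit 175, nat_lit 9]⟩, ⟨p096_k41, nat_lit 0, nat_lit 0, nat_lit 277, nat_lit 0, nat_lit 0, [nat_lit 3282000000, nat_lit 7968000000, nat_lit 14058000000], [], [nat_lit 37542198316, nat_lit 39262756012, nat_lit 45543433060, nat_lit 46842790388, nat_lit 33464658667, nat_lit 34280203296, nat_lit 37878914728, nat_lit 38584475267], nat_lit 0, nat_lit 0, nat_lit 0, nat_lit 0, nat_lit 0, nat_lit 0, [], [nat_lit 84, nat_lit 40, nat_lit 40, nat_lit 80, nat_lit 28, nat_lit 538, nat_lit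 300, nat_lit 12]⟩,
 zbF0, [⟨nat_lit 16, nat_lit 74, nat_lit 100, nat_lit 90, nat_lit 541950665⟩, ⟨nat_lit 7, nat_lit 100, nat_lit 100, nat_lit 100, nat_lit 66465924⟩]⟩
noncomputable def p096_l125 : Lf2 := ⟨nat_lit 0, nat_lit 30, [nat_lit 15, nat_lit 5, nat_lit 5, nat_lit 20], true, nat_lit 0, nat_lit 160, nat_lit 0, nat_lit 336, ⟨nat_lit 0, nat_lit 1000, nat_lit 0, nat_lit 7, nat_lit 224, nat_lit 1000, nat_lit 65, nat_lit 0, nat_lit 0, nat_lit 0, nat_lit 0, nat_lit 0, nat_lit 0, nat_lit 0, nat_lit 0, nat_lit 5000000, false, false⟩,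
 nat_lit 0, nat_lit 0, nat_lit 0, nat_lit 8634, nat_lit 4088, nat_lit 0, nat_lit 228, nat_lit 0, nat_lit 0, nat_lit 0, nat_lit 0, nat_lit 0, nat_lit 0, nat_lit 0, nat_lit 0, nat_lit 400000, nat_lit 0, nat_lit 0, [(nat_lit 20, [(nat_lit 1, nat_lit 1000)]), (nat_lit 23, [(nat_lit 1, nat_lit 1000)])],
 ⟨p096_k40, nat_lit 0, nat_lit 0, nat_lit 251, nat_lit 0, nat_lit 0, [nat_lit 1553800001, nat_lit 2055800001, nat_lit 1622800000], [], [nat_lit 22566384517, nat_lit 24793246181, nat_lit 24393670645, nat_lit 26203962018, nat_lit 20954112677, nat_lit 22865011317, nat_lit 22795877731, nat_lit 24654562531], nat_lit 0, nat_lit 0, nat_lit 0, nat_lit 0, nat_lit 0, nat_lit 0, [], [nat_lit 72, nat_lit 40, nat_lit 40, nat_lit 80, nat_lit 12, nat_lit 317, nat_lit 100, nat_lit 8]⟩, C1.Rw.none,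
 ⟨nat_lit 3162, nat_lit 4473, ⟨.ofNat (nat_lit 415764), .ofNat (nat_lit 653959), .ofNat (nat_lit 458716), .ofNat (nat_lit 696911), .ofNat (nat_lit 435680), .ofNat (nat_lit 649288), .ofNat (nat_lit 479808), .ofNat (nat_lit 693416)⟩, ⟨.ofNat (nat_lit 0), .ofNat (nat_lit 302621), .ofNat (nat_lit 0), .ofNat (nat_lit 345754), .ofNat (nat_lit 0), .ofNat (nat_lit 306116), .ofNat (nat_lit 0), .ofNat (nat_lit 350426)⟩⟩, [⟨nat_lit 3, nat_lit 100, nat_lit 65, nat_lit 54, nat_lit 13020715⟩]⟩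
noncomputable def p096_l126 : Lf2 := ⟨nat_lit 0, nat_lit 30, [nat_lit 15, nat_lit 5, nat_lit 5, nat_lit 20], true, nat_lit 160, nat_lit 300, nat_lit 0, nat_lit 336, ⟨nat_lit 0, nat_lit 1000, nat_lit 0, nat_lit 7, nat_lit 224, nat_lit 1000, nat_lit 176, nat_lit 0, nat_lit 0, nat_lit 0, nat_lit 0, nat_lit 0, nat_lit 0, nat_lit 0, nat_lit 0, nat_lit 5000000, false, false⟩,
 nat_lit 0, nat_lit 0, nat_lit 0, nat_lit 7589, nat_lit 5098, nat_lit 0, nat_lit 0, nat_lit 0, nat_lit 0, nat_lit 0, nat_lit 0, nat_lit 0, nat_lit 0, nat_lit 0, nat_lit 0, nat_lit 250000, nat_lit 0, nat_lit 0, [(nat_lit 20, [(nat_lit 0, nat_lit 1000)]), (nat_lit 23, [(nat_lit 0, nat_lit 1000)])],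
 ⟨p096_k40, nat_lit 0, nat_lit 0, nat_lit 85, nat_lit 0, nat_lit 0, [nat_lit 1576000001, nat_lit 2718000000, nat_lit 3583920000], [], [nat_lit 17536305124, nat_lit 21051234384, nat_lit 20684882088, nat_lit 23453015624, nat_lit 23457925111, nat_lit 26345326300, nat_lit 25208996342, nat_lit 27808945704], nat_lit 0, nat_lit 0, nat_lit 0, nat_lit 0, nat_lit 0, nat_lit 0, [], [nat_lit 72, nat_lit 40, nat_lit 40, nat_lit 80, nat_lit 12, nat_lit 373, nat_lit 150, nat_lit 9]⟩, C1.Rw.none,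
 ⟨nat_lit 3162, nat_lit 4473, ⟨.ofNat (nat_lit 415764), .ofNat (nat_lit 653959), .ofNat (nat_lit 458716), .ofNat (nat_lit 696911), .ofNat (nat_lit 435680), .ofNat (nat_lit 649288), .ofNat (nat_lit 479808), .ofNat (nat_lit 693416)⟩, ⟨.ofNat (nat_lit 302621), .ofNat (nat_lit 540545), .ofNat (nat_lit 345754), .ofNat (nat_lit 583678), .ofNat (nat_lit 306116), .ofNat (nat_lit 519453), .ofNat (nat_lit 350426), .ofNat (nat_lit 563762)⟩⟩, [⟨nat_lit 16, nat_lit 87, nat_lit 95, nat_lit 100, nat_lit 238799466⟩, ⟨nat_lit 4, nat_lit 100, nat_lit 74, nat_lit 90, nat_lit 63137409⟩]⟩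
noncomputable def p096_l127 : Lf2 := ⟨nat_lit 0, nat_lit 30, [nat_lit 15, nat_lit 5, nat_lit 5, nat_lit 20], false, nat_lit 0, nat_lit 160, nat_lit 0, nat_lit 336, ⟨nat_lit 567, nat_lit 433, nat_lit 0, nat_lit 7, nat_lit 319, nat_lit 433, nat_lit 65, nat_lit 0, nat_lit 0, nat_lit 0, nat_lit 0, nat_lit 0, nat_lit 0, nat_lit 0, nat_lit 0, nat_lit 5000000, true, true⟩,
 nat_lit 0, nat_lit 0, nat_lit 6446, nat_lit 6822, nat_lit 5644, nat_lit 4101, nat_lit 323, nat_lit 0, nat_lit 0, nat_lit 403, nat_lit 0, nat_lit 0, nat_lit 0, nat_lit 0, nat_lit 0, nat_lit 173200, nat_lit 0, nat_lit 0, [(nat_lit 20, [(nat_lit 1, nat_lit 433)])],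
 ⟨p096_k54, nat_lit 0, nat_lit 0, nat_lit 234, nat_lit 0, nat_lit 0, [nat_lit 1757824401, nat_lit 3577199121, nat_lit 7434096400], [], [nat_lit 29690009497, nat_lit 30987914185, nat_lit 37550443353, nat_lit 38378973456, nat_lit 25778869482, nat_lit 26721591610, nat_lit 32388011977, nat_lit 33102021049], nat_lit 0, nat_lit 0, nat_lit 0, nat_lit 0, nat_lit 0, nat_lit 0, [], [nat_lit 75, nat_lit 40, nat_lit 40, nat_lit 80, nat_lit 65, nat_lit 373, nat_lit 150, nat_lit 9]⟩, ⟨p096_k50, nat_lit 0, nat_lit 0, nat_lit 398, nat_lit 0, nat_lit 215124, [nat_lit 1860894000, nat_lit 3543750000, nat_lit 7970886000], [], [nat_lit 19078781002, nat_lit 19583202556, nat_lit 23720451382, nat_lit 24075869056, nat_lit 17918752844, nat_lit 18177213644, nat_lit 20478130042, nat_lit 20650244298], nat_lit 1271250, nat_lit 1271250, nat_lit 1271250, nat_lit 1271250, nat_lit 0, nat_lit 2373000, [nat_lit 780000, nat_lit 1435000, nat_lit 1271250],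 [nat_lit 71, nat_lit 40, nat_lit 40, nat_lit 80, nat_lit 68, nat_lit 538, nat_lit 300, nat_lit 12]⟩,
 ⟨nat_lit 3872, nat_lit 4473, ⟨.ofNat (nat_lit 654181), .ofNat (nat_lit 926124), .ofNat (nat_lit 675730), .ofNat (nat_lit 947674), .ofNat (nat_lit 651631), .ofNat (nat_lit 909748), .ofNat (nat_lit 673407), .ofNat (nat_lit 931525)⟩, ⟨.ofNat (nat_lit 0), .ofNat (nat_lit 302621), .ofNat (nat_lit 0), .ofNat (nat_lit 345754), .ofNat (nat_lit 0), .ofNat (nat_lit 304717), .ofNat (nat_lit 0), .ofNat (nat_lit 348304)⟩⟩, [⟨nat_lit 7, nat_lit 94, nat_lit 100, nat_lit 97, nat_lit 3200994⟩, ⟨nat_lit 22, nat_lit 83, nat_lit 100, nat_lit 83, nat_lit 77176317⟩]⟩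
noncomputable def p096_l128 : Lf2 := ⟨nat_lit 0, nat_lit 30, [nat_lit 15, nat_lit 5, nat_lit 5, nat_lit 20], false, nat_lit 0, nat_lit 160, nat_lit 0, nat_lit 336, ⟨nat_lit 483, nat_lit 517, nat_lit 0, nat_lit 7, nat_lit 314, nat_lit 517, nat_lit 65, nat_lit 0, nat_lit 0, nat_lit 0, nat_lit 0, nat_lit 0, nat_lit 0, nat_lit 0, nat_lit 0, nat_lit 5000000, true, true⟩,
 nat_lit 0, nat_lit 0, nat_lit 5280, nat_lit 0, nat_lit 4560, nat_lit 3359, nat_lit 0, nat_lit 0, nat_lit 0, nat_lit 366, nat_lit 0, nat_lit 0, nat_lit 0, nat_lit 0, nat_lit 0, nat_lit 493600, nat_lit 0, nat_lit 0, [(nat_lit 23, [(nat_lit 1, nat_lit 39), (nat_lit 2, nat_lit 478)])],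
 ⟨p096_k56, nat_lit 0, nat_lit 0, nat_lit 214, nat_lit 0, nat_lit 0, [nat_lit 1701946667, nat_lit 2571322400, nat_lit 1830431960], [], [nat_lit 26934901000, nat_lit 28228906360, nat_lit 34902914713, nat_lit 36107733600, nat_lit 24687473160, nat_lit 25632663640, nat_lit 30635237673, nat_lit 31458714976], nat_lit 0, nat_lit 0, nat_lit 0, nat_lit 0, nat_lit 0, nat_lit 0, [], [nat_lit 27, nat_lit 40, nat_lit 40, nat_lit 80, nat_lit 13, nat_lit 373, nat_lit 150, nat_lit 10]⟩, ⟨p096_k50, nat_lit 0, nat_lit 0, nat_lit 542, nat_lit 0, nat_lit 476479, [nat_lit 1585206000, nat_lit 3018750000, nat_lit 6790014000], [], [nat_lit 16752847532, nat_lit 17080824526, nat_lit 19622585615, nat_lit 19928912561, nat_lit 15684829008, nat_lit 15849089040, nat_lit 17130737058, nat_lit 17288061251], nat_lit 1271250, nat_lit 1271250, nat_lit 1271250, nat_lit 1271250, nat_lit 0, nat_lit 2373000, [nat_lit 780000, nat_lit 1435000, nat_lit 1271250],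 [nat_lit 71, nat_lit 40, nat_lit 40, nat_lit 80, nat_lit 68, nat_lit 538, nat_lit 300, nat_lit 12]⟩,
 ⟨nat_lit 3162, nat_lit 3873, ⟨.ofNat (nat_lit 651611), .ofNat (nat_lit 903327), .ofNat (nat_lit 673376), .ofNat (nat_lit 925121), .ofNat (nat_lit 649490), .ofNat (nat_lit 887290), .ofNat (nat_lit 671616), .ofNat (nat_lit 909444)⟩, ⟨.ofNat (nat_lit 0), .ofNat (nat_lit 304717), .ofNat (nat_lit 0), .ofNat (nat_lit 348304), .ofNat (nat_lit 0), .ofNat (nat_lit 306116), .ofNat (nat_lit 0), .ofNat (nat_lit 350426)⟩⟩, [⟨nat_lit 10, nat_lit 100, nat_lit 47, nat_lit 81, nat_lit 9768332⟩, ⟨nat_lit 22, nat_lit 84, nat_lit 100, nat_lit 84, nat_lit 67324119⟩, ⟨nat_lit 10, nat_lit 75, nat_lit 82, nat_lit 100, nat_lit 1077154⟩]⟩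
noncomputable def p096_l129 : Lf2 := ⟨nat_lit 0, nat_lit 30, [nat_lit 15, nat_lit 5, nat_lit 5, nat_lit 20], false, nat_lit 0, nat_lit 160, nat_lit 0, nat_lit 320, ⟨nat_lit 1000, nat_lit 0, nat_lit 0, nat_lit 0, nat_lit 0, nat_lit 0, nat_lit 0, nat_lit 0, nat_lit 0, nat_lit 0, nat_lit 0, nat_lit 0, nat_lit 0, nat_lit 0, nat_lit 0, nat_lit 0, false, false⟩,
 nat_lit 0, nat_lit 0, nat_lit 9637, nat_lit 0, nat_lit 6206, nat_lit 6671, nat_lit 585, nat_lit 0, nat_lit 0, nat_lit 677, nat_lit 0, nat_lit 0, nat_lit 0, nat_lit 0, nat_lit 0, nat_lit 0, nat_lit 0, nat_lit 0, [],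
 ⟨p096_k54, nat_lit 0, nat_lit 0, nat_lit 234, nat_lit 0, nat_lit 0, [nat_lit 2032000001, nat_lit 4688000000, nat_lit 11872000000], [], [nat_lit 30969934203, nat_lit 32335476715, nat_lit 39165108747, nat_lit 40017778944, nat_lit 26893436939, nat_lit 27878091011, nat_lit 33253416723, nat_lit 33990011451], nat_lit 0, nat_lit 0, nat_lit 0, nat_lit 0, nat_lit 0, nat_lit 0, [], [nat_lit 75, nat_lit 40, nat_lit 40, nat_lit 80, nat_lit 65, nat_lit 373, nat_lit 150, nat_lit 9]⟩, ⟨p096_k55, nat_lit 0, nat_lit 0, nat_lit 394, nat_lit 0, nat_lit 351193, [nat_lit 3282000000, nat_lit 6250000000, nat_lit 11872000000], [], [nat_lit 31446580449, nat_lit 32214603655, nat_lit 39323810801, nat_lit 40045099077, nat_lit 29582240007, nat_lit 30005891483, nat_lit 34922082676, nat_lit 35643370952], nat_lit 1271250, nat_lit 1271250, nat_lit 1271250, nat_lit 1271250, nat_lit 0, nat_lit 2260000, [nat_lit 780000, nat_lit 1435000, nat_lit 1271250],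 [nat_lit 23, nat_lit 40, nat_lit 40, nat_lit 80, nat_lit 12, nat_lit 538, nat_lit 300, nat_lit 13]⟩,
 zbF0, [⟨nat_lit 7, nat_lit 100, nat_lit 93, nat_lit 97, nat_lit 129412273⟩]⟩
noncomputable def p096_l130 : Lf2 := ⟨nat_lit 0, nat_lit 30, [nat_lit 15, nat_lit 5, nat_lit 5, nat_lit 20], false, nat_lit 0, nat_lit 160, nat_lit 0, nat_lit 320, ⟨nat_lit 666, nat_lit 334, nat_lit 0, nat_lit 7, nat_lit 324, nat_lit 334, nat_lit 65, nat_lit 0, nat_lit 0, nat_lit 0, nat_lit 0, nat_lit 0, nat_lit 0, nat_lit 0, nat_lit 0, nat_lit 5000000, true, true⟩,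
 nat_lit 0, nat_lit 0, nat_lit 5989, nat_lit 0, nat_lit 4396, nat_lit 4146, nat_lit 368, nat_lit 0, nat_lit 0, nat_lit 451, nat_lit 0, nat_lit 0, nat_lit 0, nat_lit 0, nat_lit 0, nat_lit 133600, nat_lit 0, nat_lit 0, [(nat_lit 23, [(nat_lit 1, nat_lit 334)])],
 ⟨p096_k56, nat_lit 0, nat_lit 0, nat_lit 215, nat_lit 0, nat_lit 0, [nat_lit 1806216001, nat_lit 3665425600, nat_lit 6975344800], [], [nat_lit 27894902376, nat_lit 28984011136, nat_lit 35069258680, nat_lit 35906687632, nat_lit 25958820233, nat_lit 26848858048, nat_lit 31620723632, nat_lit 32348554960], nat_lit 0, nat_lit 0, nat_lit 0, nat_lit 0, nat_lit 0, nat_lit 0, [], [nat_lit 27, nat_lit 40, nat_lit 40, nat_lit 80, nat_lit 13, nat_lit 373, nat_lit 150, nat_lit 10]⟩, ⟨p096_k55, nat_lit 0, nat_lit 0, nat_lit 508, nat_lit 0, nat_lit 568945, [nat_lit 2185812000, nat_lit 4162500000, nat_lit 7906752000], [], [nat_lit 21499937601, nat_lit 21998797869, nat_lit 25844515635,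 nat_lit 26315465715, nat_lit 20590829469, nat_lit 20872103757, nat_lit 23117305539, nat_lit 23385380115], nat_lit 1271250, nat_lit 1271250, nat_lit 1271250, nat_lit 1271250, nat_lit 0, nat_lit 2260000, [nat_lit 780000, nat_lit 1435000, nat_lit 1271250], [nat_lit 23, nat_lit 40, nat_lit 40, nat_lit 80, nat_lit 12, nat_lit 538, nat_lit 300, nat_lit 13]⟩,
 ⟨nat_lit 3162, nat_lit 3873, ⟨.ofNat (nat_lit 673376), .ofNat (nat_lit 931573), .ofNat (nat_lit 695141), .ofNat (nat_lit 953347), .ofNat (nat_lit 671616), .ofNat (nat_lit 915540), .ofNat (nat_lit 693742), .ofNat (nat_lit 937676)⟩, ⟨.ofNat (nat_lit 0), .ofNat (nat_lit 304717), .ofNat (nat_lit 0), .ofNat (nat_lit 348304), .ofNat (nat_lit 0), .ofNat (nat_lit 306116), .ofNat (nat_lit 0), .ofNat (nat_lit 350426)⟩⟩, [⟨nat_lit 19, nat_lit 93, nat_lit 100, nat_lit 97, nat_lit 86276435⟩]⟩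
noncomputable def p096_l131 : Lf2 := ⟨nat_lit 0, nat_lit 30, [nat_lit 15, nat_lit 5, nat_lit 5, nat_lit 20], false, nat_lit 160, nat_lit 300, nat_lit 0, nat_lit 336, ⟨nat_lit 578, nat_lit 422, nat_lit 0, nat_lit 7, nat_lit 314, nat_lit 422, nat_lit 176, nat_lit 0, nat_lit 0, nat_lit 0, nat_lit 0, nat_lit 0, nat_lit 0, nat_lit 0, nat_lit 0, nat_lit 5000000, true, true⟩,
 nat_lit 0, nat_lit 0, nat_lit 7394, nat_lit 0, nat_lit 5236, nat_lit 4705, nat_lit 0, nat_lit 0, nat_lit 0, nat_lit 304, nat_lit 0, nat_lit 0, nat_lit 0, nat_lit 0, nat_lit 0, nat_lit 105500, nat_lit 0, nat_lit 0, [(nat_lit 20, [(nat_lit 0, nat_lit 422)]), (nat_lit 23, [(nat_lit 0, nat_lit 422)])],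
 ⟨p096_k40, nat_lit 0, nat_lit 0, nat_lit 100, nat_lit 0, nat_lit 0, [nat_lit 1839568000, nat_lit 4759496000, nat_lit 8313527200], [], [nat_lit 22598694416, nat_lit 25407238768, nat_lit 31302069088, nat_lit 33115614064, nat_lit 27148824844, nat_lit 29255593876, nat_lit 33638660864, nat_lit 35013566696], nat_lit 0, nat_lit 0, nat_lit 0, nat_lit 0, nat_lit 0, nat_lit 0, [], [nat_lit 72, nat_lit 40, nat_lit 40, nat_lit 80, nat_lit 12, nat_lit 401, nat_lit 175, nat_lit 9]⟩, ⟨p096_k41, nat_lit 0, nat_lit 0, nat_lit 461, nat_lit 0, nat_lit 399769, [nat_lit 1896996000, nat_lit 4605504000, nat_lit 8125524000], [], [nat_lit 22364319924, nat_lit 22532016436, nat_lit 25534250148, nat_lit 25720363598, nat_lit 19720732396, nat_lit 19793074509, nat_lit 21422527653, nat_lit 21477288161], nat_lit 1271250, nat_lit 1271250, nat_lit 1271250, nat_lit 1271250, nat_lit 0, nat_lit 2373000, [nat_lit 780000, nat_lit 1762500, nat_lit 1271250],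 [nat_lit 84, nat_lit 40, nat_lit 40, nat_lit 80, nat_lit 28, nat_lit 538, nat_lit 300, nat_lit 12]⟩,
 ⟨nat_lit 3162, nat_lit 4473, ⟨.ofNat (nat_lit 653959), .ofNat (nat_lit 926092), .ofNat (nat_lit 664697), .ofNat (nat_lit 936842), .ofNat (nat_lit 649288), .ofNat (nat_lit 893321), .ofNat (nat_lit 660320), .ofNat (nat_lit 904365)⟩, ⟨.ofNat (nat_lit 302621), .ofNat (nat_lit 540545), .ofNat (nat_lit 345754), .ofNat (nat_lit 583678), .ofNat (nat_lit 306116), .ofNat (nat_lit 519453), .ofNat (nat_lit 350426), .ofNat (nat_lit 563762)⟩⟩, [⟨nat_lit 13, nat_lit 79, nat_lit 36, nat_lit 100, nat_lit 31450964⟩, ⟨nat_lit 4, nat_lit 100, nat_lit 74, nat_lit 90, nat_lit 356819784⟩, ⟨nat_lit 7, nat_lit 91, nat_lit 100, nat_lit 96, nat_lit 48015553⟩]⟩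
noncomputable def p096_l132 : Lf2 := ⟨nat_lit 0, nat_lit 30, [nat_lit 15, nat_lit 5, nat_lit 5, nat_lit 20], false, nat_lit 160, nat_lit 300, nat_lit 0, nat_lit 328, ⟨nat_lit 610, nat_lit 390, nat_lit 0, nat_lit 7, nat_lit 319, nat_lit 390, nat_lit 176, nat_lit 0, nat_lit 0, nat_lit 0, nat_lit 0, nat_lit 0, nat_lit 0, nat_lit 0, nat_lit 0, nat_lit 5000000, true, true⟩,
 nat_lit 0, nat_lit 0, nat_lit 6989, nat_lit 0, nat_lit 5313, nat_lit 4641, nat_lit 0, nat_lit 0, nat_lit 0, nat_lit 335, nat_lit 0, nat_lit 0, nat_lit 0, nat_lit 0, nat_lit 0, nat_lit 97500, nat_lit 0, nat_lit 0, [(nat_lit 20, [(nat_lit 0, nat_lit 390)]), (nat_lit 23, [(nat_lit 0, nat_lit 390)])],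
 ⟨p096_k40, nat_lit 0, nat_lit 0, nat_lit 100, nat_lit 0, nat_lit 0, [nat_lit 1854160000, nat_lit 4872520000, nat_lit 8583364000], [], [nat_lit 22640474628, nat_lit 25471567044, nat_lit 31403790104, nat_lit 33228247212, nat_lit 27205121327, nat_lit 29326344183, nat_lit 33729757112, nat_lit 35110669868], nat_lit 0, nat_lit 0, nat_lit 0, nat_lit 0, nat_lit 0, nat_lit 0, [], [nat_lit 72, nat_lit 40, nat_lit 40, nat_lit 80, nat_lit 12, nat_lit 401, nat_lit 175, nat_lit 9]⟩, ⟨p096_k59, nat_lit 0, nat_lit 0, nat_lit 478, nat_lit 0, nat_lit 447626, [nat_lit 2002020000, nat_lit 4860480000, nat_lit 8575380000], [], [nat_lit 22923875213, nat_lit 23098104333, nat_lit 26220675477, nat_lit 26414025759, nat_lit 20329897045, nat_lit 20411943631, nat_lit 22149351334, nat_lit 22221277847], nat_lit 1271250, nat_lit 1271250, nat_lit 1271250, nat_lit 1271250, nat_lit 0, nat_lit 2316500, [nat_lit 780000, nat_lit 1762500, nat_lit 1271250],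 [nat_lit 84, nat_lit 40, nat_lit 40, nat_lit 80, nat_lit 28, nat_lit 538, nat_lit 300, nat_lit 12]⟩,
 ⟨nat_lit 3162, nat_lit 4473, ⟨.ofNat (nat_lit 664697), .ofNat (nat_lit 936842), .ofNat (nat_lit 675435), .ofNat (nat_lit 947591), .ofNat (nat_lit 660320), .ofNat (nat_lit 904365), .ofNat (nat_lit 671352), .ofNat (nat_lit 915409)⟩, ⟨.ofNat (nat_lit 302621), .ofNat (nat_lit 540545), .ofNat (nat_lit 345754), .ofNat (nat_lit 583678), .ofNat (nat_lit 306116), .ofNat (nat_lit 519453), .ofNat (nat_lit 350426), .ofNat (nat_lit 563762)⟩⟩, [⟨nat_lit 13, nat_lit 67, nat_lit 50, nat_lit 100, nat_lit 19462465⟩, ⟨nat_lit 4, nat_lit 100, nat_lit 74, nat_lit 90, nat_lit 361756019⟩, ⟨nat_lit 7, nat_lit 97, nat_lit 100, nat_lit 98, nat_lit 51498104⟩]⟩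
noncomputable def p096_l133 : Lf2 := ⟨nat_lit 0, nat_lit 30, [nat_lit 15, nat_lit 5, nat_lit 5, nat_lit 20], false, nat_lit 160, nat_lit 300, nat_lit 0, nat_lit 320, ⟨nat_lit 1000, nat_lit 0, nat_lit 0, nat_lit 0, nat_lit 0, nat_lit 0, nat_lit 0, nat_lit 0, nat_lit 0, nat_lit 0, nat_lit 0, nat_lit 0, nat_lit 0, nat_lit 0, nat_lit 0, nat_lit 0, false, false⟩,
 nat_lit 0, nat_lit 0, nat_lit 10383, nat_lit 0, nat_lit 6706, nat_lit 7188, nat_lit 0, nat_lit 0, nat_lit 0, nat_lit 543, nat_lit 0, nat_lit 0, nat_lit 0, nat_lit 0, nat_lit 0, nat_lit 0, nat_lit 0, nat_lit 0, [],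
 ⟨p096_k40, nat_lit 0, nat_lit 0, nat_lit 95, nat_lit 0, nat_lit 0, [nat_lit 2032000001, nat_lit 6250000000, nat_lit 11872000000], [], [nat_lit 22729089736, nat_lit 24348593432, nat_lit 32576788848, nat_lit 33587722596, nat_lit 27556348974, nat_lit 28747701810, nat_lit 35052232908, nat_lit 35977855413], nat_lit 0, nat_lit 0, nat_lit 0, nat_lit 0, nat_lit 0, nat_lit 0, [], [nat_lit 72, nat_lit 40, nat_lit 40, nat_lit 80, nat_lit 12, nat_lit 401, nat_lit 175, nat_lit 9]⟩, ⟨p096_k57, nat_lit 0, nat_lit 0, nat_lit 402, nat_lit 0, nat_lit 351193, [nat_lit 3282000000, nat_lit 7968000000, nat_lit 11872000000], [], [nat_lit 35415537611, nat_lit 36068596203, nat_lit 40800489953, nat_lit 41538196081, nat_lit 32072551499, nat_lit 32413057851, nat_lit 35520849328, nat_lit 36258555456], nat_lit 1271250, nat_lit 1271250, nat_lit 1271250, nat_lit 1271250, nat_lit 0, nat_lit 2260000, [nat_lit 780000, nat_lit 1762500, nat_lit 1271250],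 [nat_lit 79, nat_lit 40, nat_lit 40, nat_lit 80, nat_lit 14, nat_lit 538, nat_lit 300, nat_lit 13]⟩,
 zbF0, [⟨nat_lit 4, nat_lit 100, nat_lit 81, nat_lit 92, nat_lit 505551481⟩, ⟨nat_lit 7, nat_lit 100, nat_lit 93, nat_lit 97, nat_lit 114245897⟩]⟩
noncomputable def p096_l134 : Lf2 := ⟨nat_lit 0, nat_lit 30, [nat_lit 15, nat_lit 5, nat_lit 5, nat_lit 20], false, nat_lit 160, nat_lit 276, nat_lit 0, nat_lit 320, ⟨nat_lit 547, nat_lit 453, nat_lit 0, nat_lit 7, nat_lit 324, nat_lit 453, nat_lit 167, nat_lit 0, nat_lit 0, nat_lit 0, nat_lit 0, nat_lit 0, nat_lit 0, nat_lit 0, nat_lit 0, nat_lit 5000000, true, true⟩,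
 nat_lit 0, nat_lit 0, nat_lit 5453, nat_lit 0, nat_lit 5122, nat_lit 3774, nat_lit 0, nat_lit 0, nat_lit 0, nat_lit 325, nat_lit 0, nat_lit 0, nat_lit 0, nat_lit 0, nat_lit 0, nat_lit 113250, nat_lit 0, nat_lit 0, [(nat_lit 23, [(nat_lit 0, nat_lit 453)])],
 ⟨p096_k48, nat_lit 0, nat_lit 0, nat_lit 100, nat_lit 0, nat_lit 0, [nat_lit 1825432001, nat_lit 4474602401, nat_lit 6802551200], [], [nat_lit 23806859385, nat_lit 25194440137, nat_lit 31932604453, nat_lit 32831299129, nat_lit 27067074968, nat_lit 28171441253, nat_lit 33518774830, nat_lit 34242416610], nat_lit 0, nat_lit 0, nat_lit 0, nat_lit 0, nat_lit 0, nat_lit 0, [], [nat_lit 61, nat_lit 40, nat_lit 40, nat_lit 80, nat_lit 1, nat_lit 401, nat_lit 175, nat_lit 10]⟩, ⟨p096_k57, nat_lit 0, nat_lit 0, nat_lit 510, nat_lit 0, nat_lit 568945, [nat_lit 1795254000, nat_lit 4358496000, nat_lit 6493984000], [], [nat_lit 19181219485, nat_lit 19534151921, nat_lit 21928563165,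 nat_lit 22195569760, nat_lit 17738138401, nat_lit 17980926661, nat_lit 19531751153, nat_lit 19659633297], nat_lit 1271250, nat_lit 1271250, nat_lit 1271250, nat_lit 1271250, nat_lit 0, nat_lit 2260000, [nat_lit 780000, nat_lit 1762500, nat_lit 1271250], [nat_lit 79, nat_lit 40, nat_lit 40, nat_lit 80, nat_lit 14, nat_lit 538, nat_lit 300, nat_lit 13]⟩,
 ⟨nat_lit 3162, nat_lit 3873, ⟨.ofNat (nat_lit 673376), .ofNat (nat_lit 931573), .ofNat (nat_lit 695141), .ofNat (nat_lit 953347), .ofNat (nat_lit 671616), .ofNat (nat_lit 915540), .ofNat (nat_lit 693742), .ofNat (nat_lit 937676)⟩, ⟨.ofNat (nat_lit 304717), .ofNat (nat_lit 491830), .ofNat (nat_lit 348304), .ofNat (nat_lit 535416), .ofNat (nat_lit 306116), .ofNat (nat_lit 482881), .ofNat (nat_lit 350426), .ofNat (nat_lit 527190)⟩⟩, [⟨nat_lit 13, nat_lit 79, nat_lit 31, nat_lit 100, nat_lit 57519850⟩, ⟨nat_lit 16, nat_lit 67, nat_lit 100, nat_lit 88, nat_lit 377270623⟩,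 ⟨nat_lit 7, nat_lit 100, nat_lit 93, nat_lit 97, nat_lit 68817377⟩]⟩
noncomputable def b_V_800_700_20_47 : St := ⟨true, nat_lit 0, nat_lit 2, nat_lit 2, nat_lit 120, nat_lit 320, nat_lit 360, nat_lit 280, nat_lit 320, nat_lit 100, nat_lit 400, nat_lit 80, nat_lit 120, nat_lit 0, nat_lit 300, nat_lit 0, nat_lit 336, nat_lit 80, nat_lit 120, nat_lit 0, nat_lit 0, nat_lit 0, nat_lit 0⟩
theorem d_V_800_700_20_47 (h : EB TB.env) : Dead b_V_800_700_20_47 := chkB_sound0 h (T :=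
(.st (nat_lit 1)
(.spl (nat_lit 4) (nat_lit 160)
(.spl (nat_lit 2) (nat_lit 240)
(.leaf p096_l120)
(.spl (nat_lit 0) (nat_lit 340)
(.leaf p096_l121)
(.leaf p096_l122)))
(.spl (nat_lit 2) (nat_lit 240)
(.leaf p096_l123)
(.leaf p096_l124)))
(.spl (nat_lit 2) (nat_lit 240)
(.spl (nat_lit 4) (nat_lit 160)
(.leaf p096_l125)
(.leaf p096_l126))
(.spl (nat_lit 4) (nat_lit 160)
(.spl (nat_lit 1) (nat_lit 300)
(.spl (nat_lit 0) (nat_lit 340)
(.leaf p096_l127)
(.trX (nat_lit 13) (nat_lit 82) (nat_lit 29) (nat_lit 100) (nat_lit 396) (.leaf p096_l128)))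
(.trX (nat_lit 19) (nat_lit 94) (nat_lit 88) (nat_lit 100) (nat_lit 320) (.spl (nat_lit 0) (nat_lit 340)
(.leaf p096_l129)
(.leaf p096_l130))))
(.spl (nat_lit 1) (nat_lit 300)
(.spl (nat_lit 1) (nat_lit 290)
(.leaf p096_l131)
(.trX (nat_lit 19) (nat_lit 97) (nat_lit 84) (nat_lit 100) (nat_lit 328) (.leaf p096_l132)))
(.trX (nat_lit 19) (nat_lit 94) (nat_lit 88) (nat_lit 100) (nat_lit 320) (.spl (nat_lit 0) (nat_lit 340)
(.leaf p096_l133)
(.trX (nat_lit 16) (nat_lit 77) (nat_lit 100) (nat_lit 99) (nat_lit 276) (.leaf p096_l134))))))))) (by decide +kernel)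

end B2
end Pool.Agent.Lib.MP_6947cd_al
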